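import Pool.Agent.Hhelper35.Rainbow.Pats

set_option autoImplicit false
set_option maxRecDepth 1000000

namespace Pool.Agent.Hhelper35.Rainbow

open T W

def kn_p1 : List (Nat × Nat × Nat) := []
noncomputable def rp1 : T := .done
theorem ok_p1 : root 1 refs1_0 kn_p1 0x0 0xffffffffffffffffffffffffffffffffffffffff 1 0 1 (.cons 0x9876543210 .nil) rp1 = true := by decide +kernel

def kn_p2 : List (Nat × Nat × Nat) := []
noncomputable def rp2 : T := .done
theorem ok_p2 : root 2 refs2_0 kn_p2 0x10000000010 0xfffffffffffffffffffffffffffffffffffdfffd 2 0 2 (.cons 0x9876543201 .nil) rp2 = true := by decide +kernel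

def kn_p3 : List (Nat × Nat × Nat) := []
noncomputable def rp3 : T := (.node 0 4 (.cons 0x9876534012 .nil) .done .done)
theorem ok_p3 : root 3 refs3_0 kn_p3 0x2000000002010000000010 0xfffffffffffffffffffffffffffffffbfff9fffd 3 0 3 (.cons 0x9876543012 .nil) rp3 = true := by decide +kernel

def kn_p4 : List (Nat × Nat × Nat) := []
noncomputable def rp4 : T := (.node 3 4 (.cons 0x9876543210 (.cons 0x9876543201 .nil)) (.node 3 5 (.cons 0x9876453210 (.cons 0x9876453201 .nil)) .done .done) .done)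
theorem ok_p4 : root 4 refs4_0 kn_p4 0x300000000302000000002010000000010 0xfffffffffffffffffffffffffff7fff3fff9fffd 4 0 2 .nil rp4 = true := by decide +kernel

def kn_p5 : List (Nat × Nat × Nat) := []
noncomputable def rp5 : T := (.node 0 3 .nil (.node 4 9 (.cons 0x8765943210 (.cons 0x8765943012 .nil)) (.node 0 2 (.cons 0x8765943201 .nil) (.node 1 4 (.cons 0x8765941023 (.cons 0x8765941302 .nil)) .done .done) (.node 0 2 (.cons 0x8765943021 .nil) (.node 0 4 (.cons 0x8765940213 (.cons 0x8765940231 (.cons 0x8765940321 .nil))) .done .done) .done)) (.node 0 6 (.cons 0x9875601234 .nil) (.node 0 5 (.cons 0x9876501234 .nil) (.node 0 7 (.cons 0x9865701234 .nil) .done .done) (.node 0 5 (.cons 0x9876501234 .nil) (.node 0 7 (.cons 0x9865701234 .nil) .done .done) .done)) .done)) .done)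
theorem ok_p5 : root 5 refs5_0 kn_p5 0x40000000040300000000302000000002010000000010 0xffffffffffffffffffffffefffe7fff3fff9fffd 5 1 3 .nil rp5 = true := by decide +kernel

def kn_c6_0 : List (Nat × Nat × Nat) := []
noncomputable def rc6_0 : T := (.node 2 6 (.cons 0x9873456210 .nil) (.node 0 4 (.cons 0x9875621043 .nil) (.node 0 5 (.cons 0x9876054123 .nil) .done .done) .done) .done)
theorem ok_c6_0 : root 6 refs6_0 kn_c6_0 0x500003000504000000004030000000030100000000102000000002010003000010 0xffffffffffffffd7ffcfffe7fff5fff9fff9fff5 6 1 4 (.cons 0x9873214560 .nil) rc6_0 = true := by decide +kernel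

def kn_c6_1 : List (Nat × Nat × Nat) := []
noncomputable def rc6_1 : T := (.node 1 5 (.cons 0x9874321560 .nil) (.node 3 5 (.cons 0x9874356012 .nil) .done (.leaf 0x9873215604 0 .done)) .done)
theorem ok_c6_1 : root 6 refs6_1 kn_c6_1 0x400005000402000000002030000000030100000000102000000002010005000010 0xffffffffffffffcfffebfff3fff5fff9fff9ffdd 6 0 4 (.cons 0x9875604321 .nil) rc6_1 = true := by decide +kernel

def kn_c6_2 : List (Nat × Nat × Nat) := []
noncomputable def rc6_2 : T := (.node 0 3 (.cons 0x9876541230 .nil) (.node 0 5 (.cons 0x9876054321 .nil) (.node 2 4 (.cons 0x9876503241 .nil) .done .done) (.leaf 0x9876541230 1 .done)) .done)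
theorem ok_c6_2 : root 6 refs6_2 kn_c6_2 0x300005000304000000004030000000030100000000102000000002010005000010 0xffffffffffffffd7ffe7ffe7fff5fff9fff9ffdd 6 1 4 (.cons 0x9873214560 .nil) rc6_2 = true := by decide +kernel

def kn_c6_3 : List (Nat × Nat × Nat) := []
noncomputable def rc6_3 : T := (.node 4 6 (.cons 0x9876453210 .nil) (.node 1 3 (.cons 0x9874560132 .nil) (.node 1 6 (.cons 0x9875432160 .nil) .done .done) .done) .done)
theorem ok_c6_3 : root 6 refs6_3 kn_c6_3 0x200005000204000000004010000000010300000000302000000002010005000010 0xffffffffffffffdbffebffedfff5fff3fff9ffdd 6 3 5 (.cons 0x9876012354 .nil) rc6_3 = true := by decide +kernel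

def kn_c6_4 : List (Nat × Nat × Nat) := []
noncomputable def rc6_4 : T := (.node 1 5 (.cons 0x9876045123 .nil) (.leaf 0x9870651234 3 (.leaf 0x9874321560 1 .done)) (.node 0 3 (.cons 0x9874560321 .nil) (.node 3 6 (.cons 0x9875406321 .nil) .done .done) .done))
theorem ok_c6_4 : root 6 refs6_4 kn_c6_4 0x400005000403000000003020000000020100000000102000000002010005000010 0xffffffffffffffcfffe7fff3fff9fff9fff9ffdd 6 0 4 .nil rc6_4 = true := by decide +kernel

def kn_c6_5 : List (Nat × Nat × Nat) := []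
noncomputable def rc6_5 : T := (.node 0 4 (.cons 0x9876512340 .nil) (.leaf 0x9873215604 0 (.leaf 0x9871560432 2 .done)) (.node 0 5 .nil (.node 1 6 (.cons 0x9874321650 .nil) (.leaf 0x9874321605 4 .done) .done) .done))
theorem ok_c6_5 : root 6 refs6_5 kn_c6_5 0x400005000402000000002010000000010300000000302000000002010005000010 0xffffffffffffffcfffebfff9fff5fff3fff9ffdd 6 1 5 (.cons 0x9874321560 .nil) rc6_5 = true := by decide +kernel

def kn_p6 : List (Nat × Nat × Nat) := []
noncomputable def rp6 : T := (.node 0 6 (.cons 0x9874560123 .nil) (.leaf 0x9871234560 1 (.leaf 0x9872106543 5 (.leaf 0x9873456012 3 .done))) (.node 0 6 (.cons 0x9873456012 .nil) (.leaf 0x9871234560 4 (.leaf 0x9871234560 0 (.leaf 0x9873456012 5 .done))) (.node 0 6 (.cons 0x9872345601 .nil) (.leaf 0x9873210654 4 (.leaf 0x9871234560 2 (.leaf 0x9874560123 0 .done))) (.node 0 6 (.cons 0x9871234560 .nil) (.leaf 0x9872345601 1 (.leaf 0x9872345601 4 (.leaf 0x9874321065 4 (.leaf 0x9873456012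 1 .done)))) .done))))
theorem ok_p6 : root 6 refs6_6 kn_p6 0x5000000005040000000040300000000302000000002010000000010 0xffffffffffffffffffdfffcfffe7fff3fff9fffd 6 5 6 (.cons 0x9876543210 .nil) rp6 = true := by decide +kernel

def kn_c7_0 : List (Nat × Nat × Nat) := []
noncomputable def rc7_0 : T := (.node 1 4 (.cons 0x9832145670 .nil) (.node 1 5 .nil (.node 0 4 (.cons 0x9840765123 .nil) (.node 1 8 (.cons 0x9581234076 .nil) (.node 1 9 (.cons 0x8591234076 .nil) .done .done) (.node 1 3 (.cons 0x9840765132 .nil) .done .done)) .done) .done) (.node 0 5 (.cons 0x9867054321 .nil) (.node 2 5 (.cons 0x9867012543 .nil) (.node 2 6 .nil (.node 6 8 (.cons 0x9786210543 (.cons 0x9186234507 .nil)) (.node 1 7 (.cons 0x9086712543 (.cons 0x9386217054 .nil)) .done .done) .done) .done) (.node 0 6 .nil (.node 2 5 (.cons 0x9843250761 (.cons 0x9876012543 .nil)) (.node 4 7 (.cons 0x9852347061 (.cons 0x9852160743 .nil)) (.node 0 3 (.cons 0x9865470321 .nil) (.node 1 4 (.cons 0x9856741230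 (.cons 0x9870654123 .nil)) .done .done) .done) .done) .done) .done)) .done))
theorem ok_c7_0 : root 7 refs7_0 kn_c7_0 0x50000060050300000000304000000004030000000030100000000102000000002010060000010 0xffffffffff9fffd7ffe7ffe7fff5fff9fff9ffbd 7 1 6 (.cons 0x9854321670 .nil) rc7_0 = true := by decide +kernel

def kn_c7_1 : List (Nat × Nat × Nat) := []
noncomputable def rc7_1 : T := (.node 3 5 (.cons 0x9867012354 .nil) (.node 1 6 (.cons 0x9854321670 .nil) (.node 4 6 (.cons 0x9876453210 .nil) (.node 0 6 (.cons 0x9876012354 .nil) (.node 0 2 .nil (.node 4 7 (.cons 0x9867453210 (.cons 0x9867453201 .nil)) .done .done) .done) .done) (.node 3 6 .nil (.node 1 5 (.cons 0x9821543670 .nil) (.node 1 7 (.cons 0x9863450712 .nil) .done .done) .done) (.leaf 0x9843216705 0 .done))) .done) (.node 3 5 (.cons 0x9867012354 .nil) (.node 0 6 (.cons 0x9876012354 .nil) (.node 3 6 .nil (.node 1 5 (.cons 0x9843670512 .nil) (.node 4 7 (.cons 0x9867453210 (.cons 0x9821534760 (.cons 0x9847601532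 .nil))) .done (.node 5 8 (.cons 0x9485321067 (.cons 0x9485123607 .nil)) .done .done)) .done) .done) (.node 1 3 (.cons 0x9867054312 .nil) (.node 0 6 (.cons 0x9876054312 .nil) (.node 1 5 .nil (.node 0 4 (.cons 0x9876540132 .nil) (.leaf 0x9832156704 0 (.node 4 7 (.cons 0x9850674312 (.cons 0x9860743512 .nil)) .done .done)) .done) .done) (.node 1 7 .nil (.node 2 4 (.cons 0x9832456701 (.cons 0x9832456710 (.cons 0x9865071342 .nil))) .done (.node 1 6 (.cons 0x9854321670 .nil) (.node 3 6 .nil (.node 5 8 (.cons 0x9485670132 (.cons 0x9085436712 (.cons 0x9485076312 .nil))) .done .done) .done) .done)) .done)) .done)) .done))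
theorem ok_c7_1 : root 7 refs7_1 kn_c7_1 0x50000060050200000000204000000004010000000010300000000302000000002010060000010 0xffffffffff9fffdbffebffedfff5fff3fff9ffbd 7 0 5 (.cons 0x9867054321 .nil) rc7_1 = true := by decide +kernel

def kn_c7_2 : List (Nat × Nat × Nat) := []
noncomputable def rc7_2 : T := (.node 0 3 (.cons 0x9876541230 .nil) (.leaf 0x9821456703 0 (.node 0 6 (.cons 0x9870654321 .nil) (.node 1 7 (.cons 0x9865432170 .nil) (.node 0 5 (.cons 0x9876503214 .nil) (.node 1 5 (.cons 0x9860715432 .nil) .done .done) (.leaf 0x9834560712 0 .done)) .done) (.node 2 7 (.cons 0x9814567230 .nil) (.leaf 0x9845672301 1 (.node 0 4 (.cons 0x9856723041 .nil) (.node 2 4 (.cons 0x9856724103 .nil) .done .done) .done)) .done))) (.node 1 7 (.cons 0x9865432170 .nil) (.node 0 6 (.cons 0x9870654321 .nil) (.node 2 6 (.cons 0x9870126543 .nil) (.node 3 6 (.cons 0x9854123670 .nil) (.node 2 5 (.cons 0x9814523670 .nil) (.leaf 0x9841076325 0 .done) .done) .done) (.leaf 0x9834560712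 0 .done)) .done) .done))
theorem ok_c7_2 : root 7 refs7_2 kn_c7_2 0x30000060030500000000504000000004030000000030100000000102000000002010060000010 0xffffffffffb7ffd7ffcfffe7fff5fff9fff9ffbd 7 1 4 (.cons 0x9832145670 .nil) rc7_2 = true := by decide +kernel

def kn_c7_3 : List (Nat × Nat × Nat) := []
noncomputable def rc7_3 : T := (.node 0 4 (.cons 0x9856704321 .nil) (.node 1 5 (.cons 0x9843215670 .nil) (.node 5 7 (.cons 0x9865704321 .nil) (.node 0 5 .nil (.node 2 7 (.cons 0x9843567210 (.cons 0x9867210534 .nil)) .done .done) (.node 1 6 (.cons 0x9834075612 .nil) (.leaf 0x9843216570 1 (.leaf 0x9807561234 1 .done)) .done)) (.leaf 0x9851234076 0 .done)) (.node 2 4 (.cons 0x9876534210 .nil) (.node 2 6 (.cons 0x9876210435 .nil) (.node 2 7 (.cons 0x9843567210 .nil) (.node 2 8 (.cons 0x9182345670 .nil) (.node 2 9 (.cons 0x8192345670 .nil) .done .done) .done) .done) (.leaf 0x9812435670 1 .done)) .done)) (.node 2 4 (.cons 0x9856701243 .nil) (.leaf 0x9842107653 0 (.node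 0 4 (.cons 0x9856704321 .nil) (.node 4 7 (.cons 0x9865347012 .nil) (.node 0 2 (.cons 0x9865347021 .nil) (.node 0 5 .nil (.node 1 3 (.cons 0x9845670231 (.cons 0x9821347650 .nil)) (.leaf 0x9876502134 1 .done) .done) .done) .done) .done) (.node 0 4 (.cons 0x9856704321 .nil) (.node 1 5 (.cons 0x9843215670 .nil) (.node 1 6 (.cons 0x9870432165 .nil) (.node 0 3 (.cons 0x9876154230 .nil) (.leaf 0x9851670324 0 (.node 3 7 (.cons 0x9823704561 .nil) (.leaf 0x9807321654 1 .done) .done)) .done) (.leaf 0x9851234076 0 .done)) .done) .done))) .done))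
theorem ok_c7_3 : root 7 refs7_3 kn_c7_3 0x50000060050400000000402000000002030000000030100000000102000000002010060000010 0xffffffffff9fffcfffebfff3fff5fff9fff9ffbd 7 3 5 (.cons 0x9843567012 .nil) rc7_3 = true := by decide +kernel

def kn_c7_4 : List (Nat × Nat × Nat) := []
noncomputable def rc7_4 : T := (.node 0 4 (.cons 0x9856704321 .nil) (.node 3 7 (.cons 0x9845673210 .nil) (.leaf 0x9821045673 0 (.leaf 0x9804567321 1 .done)) (.leaf 0x9823407651 0 (.node 3 7 (.cons 0x9845673210 .nil) (.leaf 0x9840123765 1 (.leaf 0x9865401237 0 .done)) (.leaf 0x9804321567 1 .done)))) (.node 0 4 (.cons 0x9856704321 .nil) (.node 3 7 (.cons 0x9845673210 .nil) (.leaf 0x9821045673 0 (.leaf 0x9804567321 1 .done)) (.leaf 0x9840765123 1 (.node 3 7 (.cons 0x9845673210 .nil) (.leaf 0x9840123765 1 (.leaf 0x9865401237 0 .done)) (.leaf 0x9867043215 0 .done)))) .done))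
theorem ok_c7_4 : root 7 refs7_4 kn_c7_4 0x60000040060500000000504000000004010000000010300000000302000000002010040000010 0xffffffffffafff9fffcfffedfff5fff3fff9ffed 7 1 5 (.cons 0x9843215670 .nil) rc7_4 = true := by decide +kernel

def kn_c7_5 : List (Nat × Nat × Nat) := []
noncomputable def rc7_5 : T := (.node 0 2 (.cons 0x9834567021 .nil) (.node 0 6 .nil (.node 1 7 (.cons 0x9854321760 .nil) (.leaf 0x9823456071 2 (.leaf 0x9807123456 3 (.leaf 0x9843217605 4 .done))) (.node 4 6 (.cons 0x9854670123 .nil) (.node 0 3 .nil (.node 1 5 (.cons 0x9876512034 .nil) (.leaf 0x9851230764 2 .done) .done) .done) .done)) .done) (.node 3 5 (.cons 0x9867012354 .nil) (.node 0 6 (.cons 0x9876012354 .nil) (.node 0 2 (.cons 0x9834567021 .nil) (.node 0 3 .nil (.node 4 7 (.cons 0x9867453210 (.cons 0x9867453012 .nil)) (.leaf 0x9832106745 3 .done) .done) .done) .done) (.node 4 6 (.cons 0x9854670123 .nil) (.leaf 0x9812354670 1 (.leaf 0x9801235467 3 .done)) .done)) .done))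
theorem ok_c7_5 : root 7 refs7_5 kn_c7_5 0x50000060050300000000304000000004010000000010300000000302000000002010060000010 0xffffffffff9fffd7ffe7ffedfff5fff3fff9ffbd 7 0 5 (.cons 0x9867054321 .nil) rc7_5 = true := by decide +kernel

def kn_c7_6 : List (Nat × Nat × Nat) := []
noncomputable def rc7_6 : T := (.node 3 6 (.cons 0x9854367012 .nil) (.node 2 7 (.cons 0x9854367210 .nil) (.node 1 7 (.cons 0x9843650172 .nil) (.node 2 4 (.cons 0x9872436501 .nil) (.leaf 0x9850172436 2 (.leaf 0x9865017243 4 .done)) .done) (.leaf 0x9810543672 4 .done)) (.node 1 6 (.cons 0x9854321670 .nil) (.node 2 5 (.cons 0x9867012543 .nil) (.leaf 0x9870125436 3 (.node 1 5 .nil (.node 0 2 (.cons 0x9843207651 .nil) (.leaf 0x9876345120 5 .done) .done) .done)) (.leaf 0x9843216705 3 .done)) .done)) (.node 5 7 .nil (.node 0 6 (.cons 0x9812345760 .nil) (.leaf 0x9845760123 5 (.leaf 0x9845760123 3 .done)) (.node 0 6 .nil (.node 1 6 (.cons 0x9854321670 .nil) (.leaf 0x9821670543 5 (.leaf 0x9806123457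 4 (.leaf 0x9807543216 0 .done))) (.node 3 6 (.cons 0x9845076321 .nil) (.node 1 6 (.cons 0x9854321670 .nil) (.node 2 6 .nil (.node 0 8 (.cons 0x9180765432 (.cons 0x9780126345 (.cons 0x9180762345 .nil))) .done .done) .done) .done) .done)) .done)) .done))
theorem ok_c7_6 : root 7 refs7_6 kn_c7_6 0x50000060050200000000204000000004030000000030100000000102000000002010060000010 0xffffffffff9fffdbffebffe7fff5fff9fff9ffbd 7 0 5 (.cons 0x9867054321 .nil) rc7_6 = true := by decide +kernel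

def kn_c7_7 : List (Nat × Nat × Nat) := []
noncomputable def rc7_7 : T := (.node 0 3 (.cons 0x9845670321 .nil) (.node 2 7 (.cons 0x9834567210 .nil) (.leaf 0x9810345672 0 (.leaf 0x9810345672 5 .done)) (.leaf 0x9821456703 1 (.leaf 0x9823076541 5 (.leaf 0x9876541230 4 .done)))) (.node 0 3 (.cons 0x9845670321 .nil) (.leaf 0x9821456703 6 (.node 2 7 (.cons 0x9834567210 .nil) (.node 1 7 .nil (.node 0 2 (.cons 0x9817654320 .nil) (.leaf 0x9865430217 4 (.leaf 0x9845671023 3 (.leaf 0x9876543201 3 .done))) (.node 0 4 (.cons 0x9856712340 .nil) (.node 0 5 (.cons 0x9843217650 .nil) (.leaf 0x9832176504 5 .done) (.node 0 5 (.cons 0x9843217650 .nil) (.leaf 0x9812340567 4 .done) .done)) .done)) (.leaf 0x9812765430 1 .done)) (.leaf 0x9823076541 0 (.leaf 0x9876541230 6 .done)))) .done))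
theorem ok_c7_7 : root 7 refs7_7 kn_c7_7 0x60000030060500000000504000000004030000000030100000000102000000002010030000010 0xffffffffffb7ff9fffcfffe7fff5fff9fff9fff5 7 1 4 (.cons 0x9832145670 .nil) rc7_7 = true := by decide +kernel

def kn_c7_8 : List (Nat × Nat × Nat) := []
noncomputable def rc7_8 : T := (.node 1 5 (.cons 0x9867045123 .nil) (.leaf 0x9807651234 0 (.leaf 0x9807651234 5 (.leaf 0x9807651234 7 .done))) (.node 0 5 .nil (.node 1 6 (.cons 0x9870456123 .nil) (.leaf 0x9854321670 7 (.leaf 0x9850761234 0 .done)) (.node 0 6 .nil (.node 1 7 (.cons 0x9865407123 .nil) (.leaf 0x9856071234 5 (.leaf 0x9856071234 0 .done)) (.node 0 3 (.cons 0x9845670321 .nil) (.node 0 8 (.cons 0x9180765432 .nil) .done .done) .done)) .done)) (.node 4 7 .nil (.node 3 6 (.cons 0x9854076321 .nil) (.leaf 0x9874563210 0 (.leaf 0x9874563210 7 .done)) (.node 4 6 .nil (.node 3 5 (.cons 0x9867045321 .nil) (.leaf 0x9876453210 0 (.leaf 0x9876453210 5 .done)) (.node 1 4 (.cons 0x9832145670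 .nil) (.node 4 8 (.cons 0x9384567012 .nil) .done .done) .done)) .done)) .done)))
theorem ok_c7_8 : root 7 refs7_8 kn_c7_8 0x50000060050400000000403000000003020000000020100000000102000000002010060000010 0xffffffffff9fffcfffe7fff3fff9fff9fff9ffbd 7 0 4 .nil rc7_8 = true := by decide +kernel

def kn_c7_9 : List (Nat × Nat × Nat) := []
noncomputable def rc7_9 : T := (.node 1 4 (.cons 0x9876523410 .nil) (.node 4 6 .nil (.node 1 5 (.cons 0x9870156432 (.cons 0x9832154670 .nil)) (.leaf 0x9834670152 7 (.leaf 0x9846701523 5 .done)) (.node 3 5 (.cons 0x9876435210 .nil) (.leaf 0x9821076435 4 .done) .done)) (.leaf 0x9832567014 3 (.leaf 0x9807652341 6 .done))) (.node 1 4 (.cons 0x9856701432 .nil) (.leaf 0x9832567014 8 (.node 0 2 .nil (.node 1 3 (.cons 0x9845670231 .nil) (.leaf 0x9876543120 2 (.leaf 0x9845670213 7 .done)) (.node 1 3 (.cons 0x9845670231 .nil) (.leaf 0x9832076541 4 .done) .done)) (.leaf 0x9807652341 8 .done))) (.node 1 4 (.cons 0x9856701432 .nil) (.leaf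 0x9867014325 8 (.leaf 0x9867014325 6 (.leaf 0x9807652341 0 .done))) .done)))
theorem ok_c7_9 : root 7 refs7_9 kn_c7_9 0x50000060050200000000201000000001040000000040300000000302000000002010060000010 0xffffffffff9fffdbfff9ffedffe7fff3fff9ffbd 7 2 5 (.cons 0x9843256701 .nil) rc7_9 = true := by decide +kernel

def kn_c7_10 : List (Nat × Nat × Nat) := []
noncomputable def rc7_10 : T := (.node 1 6 (.cons 0x9870561234 .nil) (.leaf 0x9807612345 5 (.leaf 0x9854321670 7 (.leaf 0x9870543216 6 .done))) (.node 1 7 (.cons 0x9865071234 .nil) (.node 4 6 (.cons 0x9870564321 .nil) (.node 1 6 (.cons 0x9861705432 .nil) (.node 2 6 (.cons 0x9862345071 .nil) (.leaf 0x9850716234 1 .done) .done) (.leaf 0x9817056432 7 .done)) (.node 1 5 (.cons 0x9843215670 .nil) (.node 1 6 (.cons 0x9870561234 .nil) .done .done) .done)) (.node 0 6 .nil (.node 1 7 (.cons 0x9823456071 .nil) (.leaf 0x9854321706 7 (.leaf 0x9860712345 5 (.leaf 0x9806543217 6 .done))) (.node 0 9 (.cons 0x8190765432 .nil)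 (.node 2 9 (.cons 0x8192345670 .nil) (.leaf 0x8154329076 1 (.leaf 0x8154329076 2 (.leaf 0x8154329076 9 .done))) (.node 0 4 (.cons 0x9856704321 .nil) (.node 0 8 (.cons 0x9180765432 .nil) .done .done) .done)) .done)) .done)))
theorem ok_c7_10 : root 7 refs7_10 kn_c7_10 0x50000060050400000000402000000002010000000010300000000302000000002010060000010 0xffffffffff9fffcfffebfff9fff5fff3fff9ffbd 7 0 5 .nil rc7_10 = true := by decide +kernel

def kn_p7 : List (Nat × Nat × Nat) := []
noncomputable def rp7 : T := (.node 0 7 (.cons 0x9856701234 .nil) (.leaf 0x9812345670 2 (.leaf 0x9832107654 3 (.leaf 0x9832107654 8 (.leaf 0x9834567012 10 .done)))) (.node 0 7 (.cons 0x9845670123 .nil) (.leaf 0x9812345670 7 (.leaf 0x9812345670 0 (.leaf 0x9821076543 6 (.leaf 0x9834567012 8 .done)))) (.node 0 7 (.cons 0x9834567012 .nil) (.leaf 0x9812345670 4 (.leaf 0x9812345670 9 (.leaf 0x9812345670 1 (.leaf 0x9834567012 3 .done)))) (.node 0 7 (.cons 0x9823456701 .nil) (.leaf 0x9843210765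 7 (.leaf 0x9834567012 5 (.leaf 0x9854321076 9 (.leaf 0x9845670123 0 .done)))) (.node 0 7 (.cons 0x9812345670 .nil) (.leaf 0x9823456701 2 (.leaf 0x9823456701 7 (.leaf 0x9823456701 4 (.leaf 0x9854321076 7 (.leaf 0x9834567012 2 .done))))) .done)))))
theorem ok_p7 : root 7 refs7_11 kn_p7 0x600000000605000000005040000000040300000000302000000002010000000010 0xffffffffffffffbfff9fffcfffe7fff3fff9fffd 7 6 7 (.cons 0x9876543210 .nil) rp7 = true := by decide +kernel

noncomputable def tc8_0_0 : T := (.node 1 4 (.cons 0x9321456780 .nil) (.node 1 6 .nil (.node 0 4 (.cons 0x9540876123 .nil) (.node 1 5 (.cons 0x9678045123 .nil) (.node 3 7 (.cons 0x9654378012 (.cons 0x9651237804 .nil)) (.node 0 5 (.cons 0x9805416732 .nil) (.node 0 6 (.cons 0x9871234065 (.cons 0x9451608732 .nil)) .done .done) (.node 1 9 (.cons 0x6915408732 .nil) (.node 2 9 (.cons 0x4651923780 (.cons 0x8567329140 (.cons 0x1923765408 (.cons 0x6923780451 (.cons 0x4561923780 .nil))))) .done .done) .done))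 .done) (.node 1 3 (.cons 0x9540876132 .nil) (.node 1 5 (.cons 0x9408765132 .nil) (.node 3 7 (.cons 0x9654378012 (.cons 0x9615408732 .nil)) (.node 2 8 (.cons 0x9145673280 (.cons 0x9541673280 (.cons 0x9561782340 (.cons 0x9328716540 .nil)))) .done .done) .done) .done) .done)) (.node 0 4 (.cons 0x9780432165 .nil) (.node 1 5 (.cons 0x9678045123 .nil) (.node 2 4 .nil (.node 5 7 (.cons 0x9432165780 (.cons 0x9615780423 (.cons 0x9342165780 .nil))) .done (.node 2 6 (.cons 0x9780126543 .nil) (.node 0 6 (.cons 0x9871234560 .nil) (.node 2 5 (.cons 0x9871604325 .nil) .done .done) .done) .done)) .done) (.node 0 6 (.cons 0x9871234560 .nil) (.node 0 5 (.cons 0x9871650432 .nil) (.node 1 5 .nil (.node 1 3 (.cons 0x9678045132 .nil) .done .done) .done) .done) .done)) .done)) (.node 0 6 (.cons 0x9871234560 .nil) (.node 2 6 (.cons 0x9780126543 .nil) (.node 3 6 (.cons 0x9541236780 .nil) (.node 1 6 .nil (.node 0 3 (.cons 0x9456780321 (.cons 0x9541678032 .nil)) (.node 3 7 (.cons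 0x9873456210 .nil) (.node 3 8 (.cons 0x9783456210 .nil) .done .done) .done) .done) (.node 0 4 .nil (.node 3 8 (.cons 0x9783456210 (.cons 0x9540126783 (.cons 0x9783401265 .nil))) .done (.node 0 5 (.cons 0x9236780541 .nil) (.node 1 6 (.cons 0x9780541632 .nil) (.node 2 4 (.cons 0x9871650423 .nil) (.node 2 5 (.cons 0x9871652340 .nil) .done .done) .done) .done) .done)) .done)) (.node 1 6 .nil (.node 5 7 (.cons 0x9806754123 .nil) (.node 2 8 (.cons 0x9328067541 (.cons 0x9823457160 (.cons 0x9754160823 .nil))) .done (.node 0 4 (.cons 0x9340875621 .nil) (.node 4 7 (.cons 0x9562108743 .nil) .done .done) .done)) .done) .done)) (.node 0 4 (.cons 0x9871234065 .nil) (.node 0 3 (.cons 0x9456780321 .nil) (.node 0 2 .nil (.node 6 8 (.cons 0x9867123045 (.cons 0x9178654320 (.cons 0x9345687120 .nil))) .done (.node 0 5 (.cons 0x9678054123 .nil) (.node 0 9 (.cons 0x8904567123 .nil) .done .done) .done)) (.node 1 6 (.cons 0x9541678032 .nil) (.node 0 5 (.cons 0x9678054123 .nil)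 (.node 1 5 (.cons 0x9780651234 .nil) .done .done) .done) .done)) (.node 4 7 (.cons 0x9560874321 .nil) (.node 4 8 .nil (.node 0 3 (.cons 0x9456780321 (.cons 0x9845671230 .nil)) (.node 0 7 (.cons 0x9560784321 .nil) (.node 0 9 (.cons 0x8907123456 (.cons 0x6903217845 .nil)) .done .done) .done) .done) .done) .done)) (.node 0 4 .nil (.node 1 6 (.cons 0x9780432165 .nil) (.node 2 8 (.cons 0x9178234560 (.cons 0x9543287160 (.cons 0x9560432871 .nil))) (.node 6 8 (.cons 0x9568712340 .nil) (.node 0 2 (.cons 0x9871602345 (.cons 0x9568712043 .nil)) (.node 3 8 (.cons 0x9832067145 (.cons 0x9540217683 (.cons 0x9712043865 (.cons 0x9832045671 .nil)))) .done .done) .done) .done) (.node 3 6 (.cons 0x9541236780 .nil) (.node 2 8 (.cons 0x9178234560 (.cons 0x9540128763 (.cons 0x9560432871 (.cons 0x9782104563 .nil)))) .done (.node 2 6 (.cons 0x9780126543 .nil) (.node 0 5 (.cons 0x9871236504 .nil) (.node 2 5 (.cons 0x9780125634 (.cons 0x9871406325 .nil)) .done .done) .done) .done))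 .done)) (.node 0 5 (.cons 0x9678054123 .nil) (.node 0 9 (.cons 0x8904567123 .nil) (.node 0 3 (.cons 0x9456780321 .nil) (.node 0 2 .nil (.node 5 8 (.cons 0x9856712304 (.cons 0x6902345871 (.cons 0x6902178543 .nil))) .done .done) .done) (.node 1 5 (.cons 0x4908765123 .nil) (.node 0 3 (.cons 0x9456780321 .nil) (.node 0 2 .nil (.node 3 5 (.cons 0x4908765321 (.cons 0x9876023541 (.cons 0x9678023541 .nil))) .done .done) .done) .done) .done)) .done) .done)) .done))) .done)) (.node 1 4 (.cons 0x9321456780 .nil) (.node 0 6 (.cons 0x9780654321 .nil) (.node 2 6 (.cons 0x9780126543 .nil) (.node 0 7 (.cons 0x9870126543 .nil) (.node 2 7 .nil (.node 5 8 (.cons 0x9458067123 (.cons 0x9856072341 (.cons 0x9856072143 .nil))) (.node 7 9 (.cons 0x8972106543 (.cons 0x1972345608 .nil)) (.node 0 3 (.cons 0x9876541230 (.cons 0x9872654301 .nil)) (.node 1 5 (.cons 0x6978034512 (.cons 0x6972154308 .nil)) .done .done) .done) .done) .done) (.node 0 4 .nil (.node 1 8 (.cons 0x9817062345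 (.cons 0x9562340781 (.cons 0x9326540781 .nil))) .done (.node 1 6 (.cons 0x9540876123 .nil) (.node 0 5 (.cons 0x9870561432 .nil) (.node 0 2 (.cons 0x9870234165 .nil) (.node 0 3 (.cons 0x9876541230 .nil) .done .done) .done) .done) .done)) .done)) (.node 1 6 .nil (.node 0 5 (.cons 0x9617805432 .nil) (.node 0 4 (.cons 0x9540876123 .nil) (.node 4 6 (.cons 0x9508712643 .nil) .done .done) (.node 5 8 (.cons 0x9458067123 (.cons 0x9716085432 .nil)) (.node 3 6 (.cons 0x9450871632 .nil) (.node 0 2 (.cons 0x9634587120 (.cons 0x9785436120 .nil)) .done .done) .done) .done)) .done) .done)) (.node 2 6 (.cons 0x9780126543 .nil) (.node 0 7 (.cons 0x9870126543 .nil) (.node 4 7 (.cons 0x9560874321 .nil) (.node 0 3 (.cons 0x9876541230 .nil) (.node 1 3 (.cons 0x9560874312 .nil) (.node 1 8 (.cons 0x9814567032 .nil) (.node 1 5 (.cons 0x9347806512 .nil) (.node 1 9 (.cons 0x8914567032 .nil) .done .done) .done) .done) (.node 5 7 (.cons 0x9875430126 .nil) (.node 0 4 (.cons 0x9875604321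 .nil) (.node 3 7 (.cons 0x9873456210 .nil) (.node 7 9 (.cons 0x8975604321 .nil) .done .done) .done) .done) .done)) .done) .done) (.node 1 6 .nil (.node 0 7 (.cons 0x9807162345 .nil) (.node 6 8 (.cons 0x9543268071 .nil) (.node 1 3 (.cons 0x9708654312 .nil) (.node 1 8 (.cons 0x9654321870 .nil) (.node 3 6 (.cons 0x9456321870 (.cons 0x9236541870 .nil)) .done .done) .done) .done) .done) .done) .done)) (.node 1 5 (.cons 0x9608715432 .nil) (.node 0 7 .nil (.node 2 8 (.cons 0x9451760823 (.cons 0x9560782341 (.cons 0x9328706541 .nil))) (.node 1 9 (.cons 0x7915432806 (.cons 0x5914328706 .nil)) (.node 2 9 (.cons 0x3921087654 (.cons 0x8923451706 (.cons 0x8706541923 (.cons 0x8923415607 .nil)))) .done .done) .done) (.node 1 3 .nil (.node 2 4 (.cons 0x9806715423 (.cons 0x9806713245 .nil)) (.node 3 5 (.cons 0x9876013542 (.cons 0x9678013542 .nil)) .done .done) (.node 1 8 (.cons 0x9560781432 .nil) (.node 1 9 .nil (.node 2 5 (.cons 0x9870652341 (.cons 0x4918706523 (.cons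 0x4913256087 .nil))) .done .done) .done) .done)) .done)) (.node 1 8 .nil (.node 0 7 (.cons 0x9560781432 .nil) (.node 0 2 (.cons 0x9541876023 (.cons 0x9781432065 (.cons 0x9781456023 .nil))) (.node 3 8 (.cons 0x9760238145 (.cons 0x9415607832 (.cons 0x9765418320 .nil))) .done .done) .done) (.node 0 7 (.cons 0x9560781432 .nil) (.node 0 5 .nil (.node 2 8 (.cons 0x9560782341 (.cons 0x9328760541 (.cons 0x9605417823 .nil))) .done (.node 0 3 (.cons 0x9876541230 .nil) (.node 0 2 (.cons 0x9781432065 .nil) (.node 0 9 (.cons 0x6908712345 .nil) .done .done) .done) .done)) .done) .done)) .done)) .done))) (.node 0 7 (.cons 0x9807654123 .nil) (.node 3 7 (.cons 0x9654378012 .nil) (.node 2 7 .nil (.node 6 8 (.cons 0x9568072341 (.cons 0x9568072143 .nil)) (.node 3 5 (.cons 0x9807653214 (.cons 0x9453217680 (.cons 0x9235417680 .nil))) .done (.node 5 7 (.cons 0x9143275680 (.cons 0x9341275680 .nil)) .done .done)) .done) (.node 0 3 (.cons 0x9456780321 .nil) (.node 0 6 (.cons 0x9780654321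 .nil) (.node 3 5 (.cons 0x9806714532 .nil) (.node 1 5 (.cons 0x9608715432 .nil) (.node 0 5 .nil (.node 1 8 (.cons 0x9237654180 (.cons 0x9418056732 .nil)) .done .done) .done) .done) .done) (.node 3 8 (.cons 0x9765412380 .nil) (.node 1 8 (.cons 0x9237654180 .nil) (.node 1 5 (.cons 0x9678032154 .nil) (.node 0 4 (.cons 0x9870432156 .nil) (.node 1 3 .nil (.node 2 8 (.cons 0x9145673280 (.cons 0x9678231540 .nil)) .done .done) .done) .done) .done) .done) .done)) .done)) (.node 3 7 (.cons 0x9654378012 .nil) (.node 1 3 (.cons 0x9807654132 .nil) (.node 1 8 .nil (.node 1 6 (.cons 0x9234561870 .nil) .done (.node 2 7 (.cons 0x9654180723 .nil) (.node 1 5 (.cons 0x9807234156 .nil) (.node 1 6 (.cons 0x9807234165 .nil) .done .done) .done) .done)) .done) (.node 0 4 (.cons 0x9804123765 .nil) (.node 0 3 (.cons 0x9456780321 .nil) (.node 0 5 (.cons 0x9805673214 .nil) (.node 0 6 (.cons 0x9780654321 .nil) (.node 0 9 (.cons 0x6908712345 .nil) .done .done) .done) .done) .done) .done))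 .done)) .done)) (.node 0 6 (.cons 0x9780654321 .nil) (.node 2 6 (.cons 0x9780126543 .nil) (.node 1 6 .nil (.node 0 4 (.cons 0x9540876123 (.cons 0x9561780432 .nil)) (.node 3 8 (.cons 0x9783456210 (.cons 0x9540126783 (.cons 0x9783401265 .nil))) (.node 0 5 (.cons 0x9405623871 .nil) (.node 0 7 (.cons 0x9870543261 .nil) .done .done) .done) .done) .done) (.node 0 5 (.cons 0x9650871234 .nil) (.node 1 6 .nil (.node 0 4 (.cons 0x9540876123 (.cons 0x9561780432 .nil)) (.node 3 6 (.cons 0x9871236504 .nil) (.node 3 7 (.cons 0x9654378012 (.cons 0x9873401265 (.cons 0x9612378054 .nil))) .done .done) .done) (.node 1 5 .nil (.node 0 4 (.cons 0x9678045123 (.cons 0x9780432651 .nil)) (.node 3 7 (.cons 0x9654378012 (.cons 0x9873401265 (.cons 0x9806732154 (.cons 0x9437801562 .nil)))) .done .done) (.node 1 4 (.cons 0x9321456780 .nil) (.node 3 6 (.cons 0x9541236780 .nil) (.node 1 3 .nil (.node 6 9 (.cons 0x4965087123 (.cons 0x2963145087 .nil)) .done .done) .done) .done) .done))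 .done)) (.node 0 4 .nil (.node 5 7 (.cons 0x9806571234 (.cons 0x9875621043 (.cons 0x9340875621 .nil))) .done (.node 0 7 .nil (.node 1 4 (.cons 0x9321456780 (.cons 0x9870562341 (.cons 0x9807654123 .nil))) .done .done) .done)) .done)) .done)) (.node 2 6 (.cons 0x9780126543 .nil) (.node 0 7 (.cons 0x9870126543 .nil) (.node 2 7 .nil (.node 0 3 (.cons 0x9456780321 (.cons 0x9872654301 .nil)) (.node 4 8 (.cons 0x9765480321 (.cons 0x9843017265 (.cons 0x9308456721 .nil))) (.node 3 5 (.cons 0x9354876210 (.cons 0x9872106534 (.cons 0x9534872601 .nil))) .done .done) .done) .done) (.node 0 3 (.cons 0x9456780321 .nil) (.node 0 5 (.cons 0x9650871234 .nil) (.node 0 4 .nil (.node 3 8 (.cons 0x9783456210 (.cons 0x9540126783 (.cons 0x9783401265 (.cons 0x9405623871 .nil)))) .done (.node 0 9 .nil (.node 1 4 (.cons 0x9321456780 (.cons 0x8903214567 (.cons 0x8907143265 .nil))) .done .done) .done)) .done) (.node 3 7 (.cons 0x9873456210 .nil) (.node 1 3 (.cons 0x9870134562 .nil)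 (.node 1 6 .nil (.node 1 8 (.cons 0x9543261870 .nil) (.node 0 4 (.cons 0x9326540781 (.cons 0x9816540732 .nil)) .done .done) .done) .done) .done) .done)) .done)) (.node 1 6 .nil (.node 0 4 (.cons 0x9540876123 (.cons 0x9561780432 .nil)) (.node 1 8 (.cons 0x9321876540 .nil) (.node 7 9 (.cons 0x5978123406 (.cons 0x5978061234 (.cons 0x2978016543 (.cons 0x3976218045 .nil)))) (.node 4 9 (.cons 0x5940678123 (.cons 0x5497608123 (.cons 0x5608794321 (.cons 0x5623497180 (.cons 0x3549762180 .nil))))) .done .done) (.node 3 6 (.cons 0x9781236540 .nil) (.node 2 7 (.cons 0x9187236540 (.cons 0x9543610872 .nil)) (.node 0 9 (.cons 0x4908172365 (.cons 0x1908723654 (.cons 0x1908723456 .nil))) (.node 1 9 (.cons 0x918723654 (.cons 0x7918045632 .nil)) .done .done) .done) .done) .done)) (.node 3 8 (.cons 0x9765408321 (.cons 0x9761238045 .nil)) (.node 0 5 (.cons 0x9650871234 .nil) (.node 5 8 (.cons 0x9408567123 (.cons 0x9716580432 .nil)) (.node 6 8 (.cons 0x9712340865 .nil) (.node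 2 7 (.cons 0x9568043271 (.cons 0x9721658340 .nil)) (.node 1 5 (.cons 0x9723861504 (.cons 0x9723451680 .nil)) .done .done) .done) .done) (.node 0 3 (.cons 0x9456780321 .nil) (.node 1 4 (.cons 0x9876145032 .nil) (.node 5 7 (.cons 0x9756210834 (.cons 0x9875061432 (.cons 0x9750834162 .nil))) .done .done) .done) .done)) (.node 2 7 (.cons 0x9726543801 (.cons 0x9278345610 (.cons 0x9540832761 .nil))) .done .done)) .done)) (.node 1 4 (.cons 0x9321456780 .nil) (.node 1 5 (.cons 0x9780651234 .nil) (.node 0 7 (.cons 0x9807654123 .nil) (.node 3 6 (.cons 0x9807632145 .nil) (.node 4 6 (.cons 0x9564321780 .nil) (.node 6 8 (.cons 0x9543216870 .nil) .done .done) .done) (.node 1 3 (.cons 0x9807654132 .nil) (.node 1 8 (.cons 0x9234561870 .nil) .done .done) .done)) .done) (.node 3 6 (.cons 0x9541236780 .nil) (.node 4 6 (.cons 0x9564321780 .nil) (.node 6 9 .nil (.node 0 9 (.cons 0x7809654321 (.cons 0x5346908712 (.cons 0x5417809632 (.cons 0x5690871432 .nil)))) .done .done) .done)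 .done) .done)) .done)) .done)) (.node 0 5 (.cons 0x9650871234 .nil) (.node 0 3 (.cons 0x9456780321 .nil) (.node 0 4 .nil (.node 0 7 .nil (.node 6 8 (.cons 0x9568712340 (.cons 0x9123456870 (.cons 0x9568704321 .nil))) (.node 1 3 (.cons 0x9213456870 (.cons 0x9708654312 .nil)) (.node 1 8 (.cons 0x9654321870 (.cons 0x9540678132 (.cons 0x9654078123 .nil))) .done .done) .done) .done) .done) (.node 2 5 (.cons 0x9432560871 .nil) (.node 0 4 .nil (.node 6 8 (.cons 0x9786521034 (.cons 0x9786521043 .nil)) (.node 8 9 (.cons 0x4987652103 (.cons 0x1987604523 (.cons 0x3987652104 (.cons 0x1987652304 .nil)))) (.node 4 9 (.cons 0x8940567123 (.cons 0x3712568940 (.cons 0x3712504986 (.cons 0x1789403256 (.cons 0x3652178940 .nil))))) .done .done) .done) (.node 0 7 .nil (.node 1 4 (.cons 0x9871432560 (.cons 0x9807654123 .nil)) (.node 4 6 (.cons 0x9564321780 (.cons 0x9807123465 (.cons 0x9870346521 .nil))) .done .done) .done) .done)) (.node 0 4 .nil (.node 1 5 (.cons 0x9871560432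 .nil) (.node 0 2 (.cons 0x9871560234 .nil) (.node 0 7 .nil (.node 1 8 (.cons 0x9321876540 (.cons 0x9607815432 (.cons 0x9654078123 .nil))) .done .done) .done) .done) (.node 0 2 .nil (.node 1 5 (.cons 0x9678045123 (.cons 0x9871560234 .nil)) .done .done) .done)) .done)) .done)) (.node 2 5 (.cons 0x9432560871 .nil) (.node 2 4 (.cons 0x9871065243 .nil) (.node 2 6 (.cons 0x9780126543 .nil) (.node 6 8 .nil (.node 0 4 (.cons 0x9523406871 .nil) (.node 0 7 (.cons 0x9687012543 .nil) .done .done) (.node 0 7 (.cons 0x9568071243 .nil) (.node 0 2 .nil (.node 0 4 (.cons 0x9568712043 .nil) .done .done) .done) .done)) .done) (.node 2 7 .nil (.node 1 5 (.cons 0x9806517234 .nil) (.node 3 5 (.cons 0x9806715324 .nil) (.node 2 6 (.cons 0x9801726534 (.cons 0x9435627801 .nil)) .done .done) .done) .done) .done)) (.node 2 6 (.cons 0x9780126543 .nil) (.node 0 7 (.cons 0x9870126543 .nil) (.node 1 5 (.cons 0x9870623451 .nil) (.node 1 6 (.cons 0x9870615432 .nil) (.node 2 7 .nil (.node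 5 8 (.cons 0x9458076123 (.cons 0x9432716580 (.cons 0x9612708543 .nil))) .done .done) .done) .done) .done) (.node 1 5 .nil (.node 3 7 (.cons 0x9654378012 (.cons 0x9437801562 .nil)) (.node 0 4 (.cons 0x9873401265 (.cons 0x9678045123 .nil)) (.node 0 9 (.cons 0x8904567321 (.cons 0x8904512376 (.cons 0x4908765123 .nil))) .done .done) (.node 0 4 (.cons 0x9804512376 (.cons 0x9678045123 .nil)) (.node 4 8 (.cons 0x9480671523 (.cons 0x9480152673 (.cons 0x9734806251 .nil))) .done .done) .done)) (.node 0 2 (.cons 0x9871560234 .nil) (.node 0 7 .nil (.node 1 4 (.cons 0x9321456780 (.cons 0x9807654123 (.cons 0x9870623415 .nil))) .done .done) .done) .done)) .done)) .done)) .done)) .done))) .done)))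
def kn_c8_0 : List (Nat × Nat × Nat) := []
noncomputable def rc8_0 : T := tc8_0_0
theorem ok_c8_0 : root 8 refs8_0 kn_c8_0 0x6000000706030000000030500000000504000000004030000000030100000000102000000002010700000010 0xffffff3fffb7ffd7ffcfffe7fff5fff9fff9ff7d 8 1 7 (.cons 0x9654321780 .nil) rc8_0 = true := by decide +kernel

noncomputable def tc8_1_0 : T := (.node 0 7 (.cons 0x9807654321 .nil) (.node 2 7 (.cons 0x9801276543 .nil) (.node 3 8 (.cons 0x9834567210 .nil) (.node 0 3 (.cons 0x9456780321 .nil) (.node 0 4 (.cons 0x9654012783 .nil) (.node 3 6 (.cons 0x9456387210 .nil) (.leaf 0x9563872104 0 (.node 3 7 (.cons 0x9654123780 .nil) .done .done)) .done) (.leaf 0x9876541230 0 .done)) (.leaf 0x9672108345 0 (.node 3 7 (.cons 0x9654123780 .nil) (.node 1 7 .nil (.node 2 4 (.cons 0x9801243765 .nil) (.leaf 0x9710832456 0 .done) .done) .done) .done))) (.node 0 4 .nil (.node 0 3 (.cons 0x9456780321 .nil) (.node 3 5 (.cons 0x9801276534 (.cons 0x9678123540 (.cons 0x9653278041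 .nil))) .done (.leaf 0x9218765403 0 (.leaf 0x9876541230 0 .done))) (.node 4 8 (.cons 0x9567210843 .nil) (.node 4 7 .nil (.node 0 6 (.cons 0x9780654123 (.cons 0x9560874123 (.cons 0x9547608123 .nil))) .done (.node 4 6 .nil (.node 0 3 (.cons 0x9456780321 (.cons 0x9780321465 .nil)) (.node 0 5 (.cons 0x9348056721 (.cons 0x9764508123 .nil)) .done .done) .done) .done)) .done) .done)) .done)) (.node 2 7 (.cons 0x9801276543 .nil) (.node 1 7 .nil (.node 3 8 (.cons 0x9834567210 .nil) (.node 0 6 (.cons 0x9780654123 (.cons 0x9712380654 (.cons 0x9834560172 .nil))) .done (.leaf 0x9672108345 0 (.node 2 6 (.cons 0x9387265410 (.cons 0x9714562380 .nil)) (.leaf 0x9380172654 0 .done) .done))) .done) (.node 0 6 (.cons 0x9780654123 .nil) (.node 3 7 (.cons 0x9654123780 .nil) (.node 1 7 .nil (.node 3 6 (.cons 0x9801276345 (.cons 0x9236541780 .nil)) (.node 3 8 (.cons 0x9765438012 (.cons 0x9712380654 (.cons 0x9714560832 .nil))) .done .done) .done) (.node 1 7 (.cons 0x9806541732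 .nil) (.node 4 7 (.cons 0x9547608123 .nil) (.node 5 7 (.cons 0x9675432180 .nil) .done .done) .done) .done)) (.node 2 4 .nil (.node 1 5 (.cons 0x9806723451 (.cons 0x9324518760 (.cons 0x9760815423 .nil))) .done (.node 0 4 .nil (.node 3 6 (.cons 0x9801276345 (.cons 0x9870412365 (.cons 0x9780412365 .nil))) .done (.node 0 3 (.cons 0x9456780321 .nil) (.node 0 5 (.cons 0x9324506781 .nil) (.node 0 9 (.cons 0x3901245678 .nil) .done .done) .done) .done)) .done)) .done)) .done)) (.node 1 5 (.cons 0x9670815432 .nil) (.node 5 7 (.cons 0x9675432180 .nil) (.node 0 4 .nil (.node 1 7 (.cons 0x9804321765 .nil) (.node 2 8 (.cons 0x9654328071 (.cons 0x9823407651 .nil)) (.leaf 0x9704328156 0 .done) .done) (.node 4 7 .nil (.node 0 6 (.cons 0x9345760812 (.cons 0x9560874123 (.cons 0x9547608123 .nil))) .done (.node 2 4 .nil (.node 0 3 (.cons 0x9456780321 (.cons 0x9870324156 .nil)) (.node 1 3 (.cons 0x9657803124 .nil) (.leaf 0x9567803124 0 .done) .done) .done) .done)) .done)) .done)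 (.node 2 4 (.cons 0x9670815423 .nil) (.node 2 6 (.cons 0x9543267081 .nil) (.node 2 7 (.cons 0x9801276543 .nil) (.node 4 7 (.cons 0x9807415623 .nil) (.node 0 5 (.cons 0x9508126743 .nil) (.node 1 6 (.cons 0x9618705423 .nil) (.node 2 5 (.cons 0x9816250743 .nil) .done .done) .done) .done) .done) (.node 0 6 (.cons 0x9780654123 .nil) (.node 2 5 .nil (.node 3 7 (.cons 0x9654123780 (.cons 0x9801254376 (.cons 0x9801256734 .nil))) (.leaf 0x9265418073 0 .done) (.node 0 5 .nil (.node 3 5 (.cons 0x9423506781 .nil) (.leaf 0x9067814235 0 .done) .done) .done)) .done) .done)) (.node 0 4 .nil (.node 3 6 (.cons 0x9807632451 (.cons 0x9815407632 (.cons 0x9780412365 .nil))) (.node 1 7 (.cons 0x9236541780 (.cons 0x9804236715 .nil)) (.node 0 2 (.cons 0x9871402365 (.cons 0x9817632045 .nil)) (.leaf 0x9402367815 0 .done) .done) .done) .done) .done)) .done)) .done))) (.node 0 7 (.cons 0x9807654321 .nil) (.node 2 7 (.cons 0x9801276543 .nil) (.node 1 7 .nil (.node 0 4 (.cons 0x9567180432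 .nil) (.node 2 5 (.cons 0x9432567180 .nil) (.node 3 7 (.cons 0x9801256734 .nil) (.leaf 0x9654081237 0 .done) (.leaf 0x9340817652 0 (.leaf 0x9671804325 0 .done))) .done) .done) (.node 0 4 .nil (.node 3 5 (.cons 0x9801276534 (.cons 0x9653278041 .nil)) (.leaf 0x9653408127 0 (.node 1 6 (.cons 0x9807612345 (.cons 0x9870453216 .nil)) (.node 3 8 (.cons 0x9765438012 (.cons 0x9761238045 (.cons 0x9723804165 .nil))) .done .done) .done)) (.node 1 7 (.cons 0x9567180432 .nil) (.node 1 5 (.cons 0x9804327651 .nil) (.node 1 6 (.cons 0x9561408723 .nil) .done .done) .done) .done)) .done)) (.node 2 7 (.cons 0x9801276543 .nil) (.node 0 3 (.cons 0x9456780321 .nil) (.node 6 8 (.cons 0x9456872103 .nil) (.node 3 8 (.cons 0x9834567210 .nil) (.node 0 6 (.cons 0x9780654123 .nil) (.node 0 2 (.cons 0x9543867201 .nil) (.node 2 4 (.cons 0x9724301865 .nil) .done .done) .done) .done) (.node 3 5 (.cons 0x9865341270 .nil) (.node 0 4 (.cons 0x9304568721 .nil) (.node 1 5 (.cons 0x9867043512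 .nil) (.node 2 4 (.cons 0x9867042153 .nil) .done .done) (.leaf 0x9786532140 0 .done)) (.leaf 0x9653412708 0 .done)) .done)) (.node 3 7 (.cons 0x9654123780 .nil) (.node 3 8 (.cons 0x9834567210 .nil) (.node 0 4 (.cons 0x9654012783 .nil) (.node 1 3 (.cons 0x9654013872 .nil) (.node 2 8 (.cons 0x9132876540 .nil) (.leaf 0x9456782310 0 .done) .done) .done) .done) .done) (.leaf 0x9876541230 0 .done))) (.node 0 6 (.cons 0x9780654123 .nil) (.node 3 7 (.cons 0x9654123780 .nil) (.node 1 7 .nil (.node 5 8 (.cons 0x9672108543 (.cons 0x9658071234 (.cons 0x9658071432 .nil))) (.node 2 8 (.cons 0x9658214370 .nil) (.leaf 0x9560734128 0 .done) .done) .done) (.node 2 4 (.cons 0x9732418065 .nil) (.node 0 2 (.cons 0x9810243765 .nil) (.node 2 8 (.cons 0x9567342810 .nil) .done .done) .done) .done)) (.node 2 4 .nil (.node 3 5 (.cons 0x9608723541 (.cons 0x9781423560 .nil)) (.leaf 0x9653241870 0 (.leaf 0x9653421807 0 .done)) (.node 2 8 .nil (.node 1 3 (.cons 0x9780654132 (.cons 0x9782314560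 (.cons 0x9542876013 .nil))) .done (.node 3 8 (.cons 0x9387654210 .nil) (.node 1 3 (.cons 0x9780654132 .nil) (.node 1 5 (.cons 0x9154238760 .nil) (.node 1 6 (.cons 0x9541608723 .nil) .done .done) .done) (.leaf 0x9438012765 0 .done)) .done)) .done)) .done)) .done)) (.node 5 7 (.cons 0x9657081432 .nil) (.node 2 7 (.cons 0x9801276543 .nil) (.node 3 7 (.cons 0x9654123780 .nil) (.node 2 4 (.cons 0x9801243765 .nil) (.node 1 7 .nil (.node 2 6 (.cons 0x9814326570 (.cons 0x9807143265 (.cons 0x9807145623 .nil))) .done .done) .done) .done) (.node 3 7 (.cons 0x9654123780 .nil) (.node 1 5 (.cons 0x9807234156 .nil) (.node 0 5 (.cons 0x9765081234 .nil) (.node 2 5 (.cons 0x9432567081 .nil) .done .done) .done) .done) .done)) (.node 4 7 (.cons 0x9567432180 .nil) (.node 3 7 (.cons 0x9654123780 .nil) (.node 2 7 (.cons 0x9801276543 .nil) (.node 7 9 .nil (.node 0 5 (.cons 0x9812347650 (.cons 0x4976508123 .nil)) (.node 0 9 (.cons 0x5679081234 (.cons 0x8650974321 (.cons 0x4567908123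 .nil))) .done .done) .done) .done) (.node 2 4 (.cons 0x9801243765 .nil) (.node 2 7 (.cons 0x9801276543 .nil) .done .done) .done)) (.node 0 4 .nil (.node 0 5 (.cons 0x9765081234 .nil) (.node 3 6 (.cons 0x9634750812 (.cons 0x9781236504 (.cons 0x9365780412 .nil))) (.leaf 0x9874056321 0 .done) (.node 3 6 (.cons 0x9805476321 (.cons 0x9812367405 (.cons 0x9365780412 .nil))) (.leaf 0x9745081236 0 .done) .done)) .done) .done)) .done)) .done))) .done))
noncomputable def tc8_1_1 : T := (.node 2 7 (.cons 0x9801276543 .nil) (.node 1 6 (.cons 0x9807612345 .nil) (.node 1 7 .nil (.node 0 4 (.cons 0x9654087123 .nil) (.node 3 8 (.cons 0x9834567210 (.cons 0x9654012783 (.cons 0x9567832140 .nil))) (.leaf 0x9456783210 0 (.node 2 4 (.cons 0x9561042783 .nil) (.leaf 0x9710832456 0 .done) .done)) (.node 1 3 (.cons 0x9654087132 .nil) (.node 2 5 (.cons 0x9678045231 (.cons 0x9408716523 (.cons 0x9804523176 .nil))) .done .done) .done)) .done) (.node 2 6 .nil (.node 3 8 (.cons 0x9834567210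 (.cons 0x9762108345 .nil)) (.node 0 3 (.cons 0x9876541230 (.cons 0x9456278301 .nil)) (.node 4 7 (.cons 0x9745612380 (.cons 0x9547083261 (.cons 0x9562147830 .nil))) .done .done) (.leaf 0x9672108345 0 (.node 1 5 (.cons 0x9451670832 (.cons 0x9708326154 .nil)) .done .done))) (.node 0 6 .nil (.node 3 8 (.cons 0x9834567210 (.cons 0x9783214560 (.cons 0x9541238760 .nil))) (.leaf 0x9672108345 0 (.node 1 5 (.cons 0x9451670832 (.cons 0x9832706154 .nil)) .done .done)) (.node 1 5 .nil (.node 1 8 (.cons 0x9815432706 (.cons 0x9815432760 .nil)) (.leaf 0x9327608154 0 .done) (.node 6 8 (.cons 0x9860723451 .nil) (.node 3 6 (.cons 0x9863451270 .nil) (.node 6 9 (.cons 0x8960723451 .nil) .done .done) .done) .done)) .done)) .done)) .done)) (.node 1 7 .nil (.node 0 4 (.cons 0x9654087123 .nil) (.node 1 5 (.cons 0x9678045123 .nil) (.leaf 0x9234087651 0 (.node 3 8 (.cons 0x9765438012 (.cons 0x9567832140 (.cons 0x9832765140 .nil))) (.leaf 0x9567238041 0 (.leaf 0x9456783210 0 .done))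 .done)) (.node 1 5 (.cons 0x9804327156 .nil) (.node 1 6 (.cons 0x9807612345 .nil) (.node 1 3 (.cons 0x9654087132 .nil) (.node 2 5 (.cons 0x9678045231 (.cons 0x9408716523 .nil)) (.node 0 9 (.cons 0x8904156723 (.cons 0x8904325617 (.cons 0x8904325671 (.cons 0x8904523176 .nil)))) .done .done) .done) .done) .done) .done)) .done) .done)) (.node 2 7 (.cons 0x9801276543 .nil) (.node 1 5 (.cons 0x9807651234 .nil) (.node 1 8 (.cons 0x9765432180 .nil) (.node 1 7 .nil (.node 3 8 (.cons 0x9834567210 .nil) (.node 0 6 (.cons 0x9783214560 (.cons 0x9712380654 (.cons 0x9238714560 .nil))) .done (.leaf 0x9672108345 0 (.node 2 4 (.cons 0x9651423870 .nil) (.node 0 5 (.cons 0x9650783241 (.cons 0x9832417056 (.cons 0x9671805432 .nil))) .done (.leaf 0x9710832456 0 .done)) .done))) .done) (.node 0 5 (.cons 0x9765081234 .nil) (.node 2 5 .nil (.node 0 3 (.cons 0x9876541230 (.cons 0x9418765230 .nil)) (.node 6 8 (.cons 0x9786541230 (.cons 0x9725681034 (.cons 0x9412568703 .nil))) .done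 (.node 0 6 (.cons 0x9876032145 (.cons 0x9876032541 .nil)) .done .done)) .done) (.node 4 7 (.cons 0x9567432180 .nil) (.leaf 0x9321805674 0 (.node 3 7 .nil (.node 0 9 (.cons 0x8901276543 (.cons 0x8901273456 (.cons 0x6908732154 (.cons 0x4908123765 .nil)))) .done (.node 0 6 (.cons 0x9608732154 .nil) (.node 1 6 (.cons 0x9806154732 .nil) .done .done) .done)) (.leaf 0x9650812347 0 .done))) .done)) .done)) (.node 2 5 .nil (.node 3 8 (.cons 0x9834567210 (.cons 0x9765210834 (.cons 0x9834107652 .nil))) (.node 4 6 (.cons 0x9564123870 (.cons 0x9146523870 (.cons 0x9708346521 .nil))) .done (.node 4 6 (.cons 0x9764512380 (.cons 0x9832514670 .nil)) (.node 0 3 (.cons 0x9876541230 (.cons 0x9830764152 .nil)) (.node 0 5 (.cons 0x9678321450 .nil) (.leaf 0x9467830521 0 .done) .done) .done) .done)) (.node 1 7 .nil (.node 1 6 (.cons 0x9807165234 .nil) (.node 4 8 (.cons 0x9567084321 (.cons 0x9716523480 (.cons 0x9652170843 .nil))) (.node 0 5 (.cons 0x9650784123 (.cons 0x9843271650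 .nil)) .done (.node 0 6 (.cons 0x9760845123 (.cons 0x9548067123 (.cons 0x9716084325 .nil))) .done .done)) .done) (.node 0 5 (.cons 0x9805432176 .nil) (.node 5 8 (.cons 0x9671234580 .nil) (.node 0 6 (.cons 0x9345806712 .nil) (.node 0 2 (.cons 0x9856702143 .nil) (.node 0 3 (.cons 0x9876541230 .nil) (.node 0 9 (.cons 0x8901276543 .nil) .done .done) .done) .done) .done) .done) .done)) .done)) .done)) (.node 1 7 .nil (.node 5 8 (.cons 0x9672108543 (.cons 0x9658071234 .nil)) (.node 2 8 (.cons 0x9143285670 (.cons 0x9658234170 .nil)) (.node 0 2 (.cons 0x9856702341 .nil) (.node 3 6 (.cons 0x9582763410 (.cons 0x9710285634 (.cons 0x9417856320 (.cons 0x9871456320 .nil)))) .done (.node 3 8 (.cons 0x9765438012 (.cons 0x9658320714 (.cons 0x9671458320 .nil))) .done .done)) .done) (.node 2 4 (.cons 0x9658071243 .nil) (.node 3 7 (.cons 0x9658073421 .nil) (.node 1 6 (.cons 0x9856124370 .nil) (.node 0 3 (.cons 0x9876541230 (.cons 0x9421658730 (.cons 0x9761243085 (.cons 0x9580342761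 .nil)))) .done (.leaf 0x9561243708 0 .done)) (.leaf 0x9673421085 0 .done)) .done) .done)) .done) .done)) (.node 1 8 (.cons 0x9765432180 .nil) (.node 1 6 (.cons 0x9708165432 .nil) (.node 1 3 .nil (.node 2 4 (.cons 0x9654231870 .nil) (.leaf 0x9567081324 0 (.leaf 0x9876542310 0 (.leaf 0x9318076542 0 .done))) (.node 1 7 .nil (.node 0 4 (.cons 0x9654087123 .nil) (.node 3 6 (.cons 0x9236541870 (.cons 0x9781236540 .nil)) (.leaf 0x9540871236 0 .done) (.node 1 5 (.cons 0x9678045123 .nil) (.node 1 9 .nil (.node 0 2 (.cons 0x9654187023 (.cons 0x8914320765 (.cons 0x8914567023 (.cons 0x8917023456 .nil)))) .done .done) .done) .done)) .done) .done)) (.node 1 5 .nil (.node 2 6 (.cons 0x9326541870 (.cons 0x9708156234 .nil)) (.node 2 8 (.cons 0x9701826543 (.cons 0x9670823451 (.cons 0x9823415670 .nil))) .done .done) .done) .done)) (.node 0 6 (.cons 0x9760812345 .nil) (.node 0 3 (.cons 0x9876541230 .nil) (.node 1 6 (.cons 0x9780321654 .nil) (.node 2 6 (.cons 0x9870326541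 .nil) (.node 1 5 (.cons 0x9815432670 .nil) (.node 2 5 (.cons 0x9810762543 .nil) (.node 0 5 .nil (.node 3 6 (.cons 0x9814523670 (.cons 0x9236781450 .nil)) .done .done) .done) .done) .done) .done) (.node 0 4 .nil (.node 3 8 (.cons 0x9765438012 (.cons 0x9783214065 (.cons 0x9567832140 .nil))) (.node 1 5 (.cons 0x9670815432 .nil) (.leaf 0x9234087651 0 (.node 2 7 (.cons 0x9276543801 (.cons 0x9672381540 (.cons 0x9672380451 (.cons 0x9832765140 .nil)))) .done .done)) .done) (.node 1 7 (.cons 0x9654087123 .nil) (.node 3 7 (.cons 0x9654087321 .nil) (.node 3 6 (.cons 0x9780456321 .nil) (.node 0 2 (.cons 0x9541876320 .nil) (.node 0 5 (.cons 0x9236781450 .nil) .done .done) .done) .done) .done) .done)) .done)) (.node 0 5 .nil (.node 1 7 (.cons 0x9805671234 .nil) (.node 3 8 (.cons 0x9765438012 (.cons 0x9712380654 (.cons 0x9412387650 (.cons 0x9760541832 .nil)))) .done .done) (.node 1 5 (.cons 0x9670815432 .nil) (.node 2 6 (.cons 0x9543267081 .nil) (.node 2 5 (.cons 0x9810762543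 .nil) .done (.node 1 6 .nil (.node 0 4 (.cons 0x9540876123 .nil) (.node 1 7 (.cons 0x9804321765 .nil) .done .done) .done) .done)) .done) .done)) .done)) (.node 0 5 (.cons 0x9765081234 .nil) (.node 0 4 .nil (.node 3 6 (.cons 0x9418705632 (.cons 0x9781236504 (.cons 0x9781405632 .nil))) (.node 2 5 (.cons 0x9814325670 (.cons 0x9814076523 .nil)) (.node 0 3 (.cons 0x9876541230 .nil) (.node 4 6 (.cons 0x9523046781 (.cons 0x9521876403 .nil)) .done .done) .done) .done) (.node 1 5 (.cons 0x9678045123 .nil) (.node 1 6 (.cons 0x9540876123 .nil) .done .done) .done)) (.node 0 6 .nil (.node 3 8 (.cons 0x9765438012 (.cons 0x9783214560 (.cons 0x9541238760 .nil))) (.leaf 0x9450678321 0 .done) (.node 1 5 .nil (.node 2 8 (.cons 0x9415607823 (.cons 0x9670823451 .nil)) (.node 1 3 (.cons 0x9654132870 (.cons 0x9823145076 .nil)) .done .done) (.node 2 5 (.cons 0x9814325670 .nil) (.node 2 6 (.cons 0x9708156234 .nil) (.node 1 6 .nil (.node 2 8 (.cons 0x9415607823 (.cons 0x9708234561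 (.cons 0x9543280761 .nil))) .done .done) .done) .done) .done)) .done)) .done)) .done))) .done)))
def kn_c8_1 : List (Nat × Nat × Nat) := []
noncomputable def rc8_1 : T := (.node 0 7 (.cons 0x9807654321 .nil) tc8_1_1 (.node 1 8 (.cons 0x9765432180 .nil) tc8_1_0 (.node 1 8 (.cons 0x9765432180 .nil) (.node 3 6 (.cons 0x9541236780 .nil) (.node 0 4 (.cons 0x9781236540 .nil) (.node 1 7 (.cons 0x9871236540 .nil) (.node 2 7 (.cons 0x9801276543 .nil) (.node 2 8 (.cons 0x9782104563 .nil) (.node 3 8 (.cons 0x9783654012 .nil) (.node 2 6 (.cons 0x9783621045 .nil) (.node 0 2 .nil (.node 4 7 (.cons 0x9547621083 (.cons 0x9187456320 (.cons 0x9365478120 .nil))) .done .done) .done) (.leaf 0x9438012765 0 .done)) .done) (.node 2 8 (.cons 0x9782104563 .nil) (.node 0 2 .nil (.node 3 8 (.cons 0x9783654012 (.cons 0x9654023871 .nil)) (.leaf 0x9671208345 0 .done) (.node 0 5 (.cons 0x9876321450 .nil) (.node 2 6 (.cons 0x9326780541 .nil) .done .done) .done)) .done) .done)) (.node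 1 3 .nil (.node 4 6 (.cons 0x9564087123 (.cons 0x9564087132 .nil)) (.node 0 5 (.cons 0x9876321450 (.cons 0x9678054132 .nil)) (.node 4 8 (.cons 0x9563217840 (.cons 0x9480567132 .nil)) .done .done) .done) .done) .done)) (.node 4 6 .nil (.node 0 7 (.cons 0x9456321870 (.cons 0x9546321870 (.cons 0x9708123465 .nil))) .done (.node 4 8 .nil (.node 0 3 (.cons 0x9456780321 (.cons 0x9784563012 (.cons 0x9548763012 .nil))) (.node 2 4 (.cons 0x9567842103 (.cons 0x9784210365 .nil)) .done .done) .done) .done)) .done)) (.node 0 3 (.cons 0x9456780321 .nil) (.leaf 0x9230876541 0 (.node 3 8 (.cons 0x9765438012 .nil) (.node 5 8 .nil (.node 6 8 (.cons 0x9768543012 .nil) (.node 1 7 (.cons 0x9543086712 (.cons 0x9217685430 (.cons 0x9432176580 .nil))) .done .done) (.node 4 8 .nil (.node 0 7 (.cons 0x9807654321 (.cons 0x9567084321 .nil)) (.node 1 5 (.cons 0x9678032154 (.cons 0x9678451230 (.cons 0x9514807632 .nil))) .done .done) .done) .done)) .done) (.node 3 8 (.cons 0x9765438012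 .nil) (.node 3 7 .nil (.node 0 6 (.cons 0x9732180654 .nil) (.leaf 0x9237806541 0 .done) (.node 1 3 .nil (.node 3 9 (.cons 0x2931087654 .nil) (.node 3 5 .nil (.node 2 4 (.cons 0x9678354210 (.cons 0x9132456780 .nil)) (.leaf 0x9876542310 0 .done) .done) .done) .done) .done)) .done) .done))) (.node 0 3 (.cons 0x9456780321 .nil) (.leaf 0x9230876541 0 (.node 3 8 (.cons 0x9765438012 .nil) (.node 2 7 (.cons 0x9801276543 .nil) (.leaf 0x9672108345 0 (.node 2 8 (.cons 0x9543672801 .nil) .done (.node 0 7 (.cons 0x9807654321 .nil) (.node 0 5 (.cons 0x9236780541 .nil) (.leaf 0x9450876321 0 (.node 1 5 (.cons 0x9651807234 .nil) (.node 1 7 (.cons 0x9805417632 .nil) .done .done) .done)) .done) .done))) .done) (.node 3 8 (.cons 0x9765438012 .nil) (.node 3 7 .nil (.node 0 6 (.cons 0x9732180654 .nil) (.leaf 0x9237806541 0 .done) (.node 3 9 (.cons 0x2936780145 .nil) (.node 3 5 .nil (.node 2 6 (.cons 0x9762108345 (.cons 0x9453876210 (.cons 0x4935621087 (.cons 0x9762108354 .nil))))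 .done .done) .done) .done)) .done) .done))) .done))) (.node 1 7 .nil (.node 0 4 (.cons 0x9654087123 (.cons 0x9567180432 .nil)) (.node 3 6 (.cons 0x9541236780 .nil) (.node 0 5 (.cons 0x9781236504 (.cons 0x9504187632 .nil)) (.node 3 8 (.cons 0x9765438012 (.cons 0x9783654012 (.cons 0x9671238054 (.cons 0x9671450832 .nil)))) .done .done) (.leaf 0x9217804563 0 (.leaf 0x9540871236 0 .done))) .done) (.node 4 7 (.cons 0x9567432180 .nil) (.node 1 3 .nil (.node 0 5 (.cons 0x9234765081 (.cons 0x9476508132 (.cons 0x9678054132 .nil))) (.leaf 0x9812347650 0 .done) (.node 1 5 (.cons 0x9234765180 .nil) (.node 1 6 (.cons 0x9231654780 .nil) .done .done) .done)) (.node 0 5 (.cons 0x9347650812 .nil) (.node 0 4 .nil (.node 3 6 (.cons 0x9541236780 (.cons 0x9365047812 (.cons 0x9871236504 .nil))) (.leaf 0x9450876321 0 .done) (.node 1 5 (.cons 0x9765180432 .nil) (.node 1 6 .nil (.node 1 3 (.cons 0x9780456132 .nil) .done .done) .done) .done)) (.node 2 7 (.cons 0x9801276543 .nil)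 (.node 6 8 (.cons 0x9768054123 .nil) (.node 1 3 (.cons 0x9450867231 .nil) (.node 1 5 (.cons 0x9154327680 .nil) .done .done) (.node 1 3 (.cons 0x9543127680 .nil) (.leaf 0x9867213450 0 .done) .done)) (.node 1 3 .nil (.node 4 8 (.cons 0x9567210843 (.cons 0x9650847213 (.cons 0x9480567231 .nil))) .done (.node 1 5 .nil (.node 0 3 (.cons 0x9456780321 (.cons 0x9678032154 (.cons 0x9803476512 .nil))) (.node 1 9 (.cons 0x4915672308 .nil) .done .done) .done) .done)) .done)) (.leaf 0x9650812347 0 .done))) .done)) .done)) .done)) .done)))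
theorem ok_c8_1 : root 8 refs8_1 kn_c8_1 0x3000000703060000000060500000000504000000004030000000030100000000102000000002010700000010 0xffffff77ffb7ff9fffcfffe7fff5fff9fff9ff7d 8 1 4 (.cons 0x9321456780 .nil) rc8_1 = true := by decide +kernel

noncomputable def tc8_2_0 : T := (.node 1 6 (.cons 0x9543216780 .nil) (.node 0 5 (.cons 0x9678054321 .nil) (.node 2 5 (.cons 0x9678012543 .nil) (.node 0 6 (.cons 0x9876012543 .nil) (.node 2 6 .nil (.node 1 3 (.cons 0x9876254310 .nil) (.node 2 4 (.cons 0x9132456780 .nil) (.leaf 0x9876542310 0 (.leaf 0x9876542310 1 .done)) (.leaf 0x9431267805 1 (.leaf 0x9087625431 0 .done))) .done) (.node 3 6 (.cons 0x9876345210 .nil) (.node 1 5 .nil (.node 2 8 (.cons 0x9543678210 (.cons 0x9514328760 .nil)) (.leaf 0x9015432876 0 (.leaf 0x9150678234 1 .done)) (.node 2 6 (.cons 0x9780623451 .nil) (.node 2 7 (.cons 0x9608723451 .nil) (.leaf 0x9516087234 1 .done) .done) .done)) (.leaf 0x9780125436 1 .done)) .done)) (.node 1 5 .nil (.node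 4 6 (.cons 0x9512346780 .nil) (.leaf 0x9643215087 0 (.node 0 6 (.cons 0x9780643251 .nil) (.node 1 7 (.cons 0x9643251780 (.cons 0x9325460871 .nil)) .done .done) (.node 6 8 (.cons 0x9768054321 (.cons 0x9768051234 .nil)) (.node 0 2 (.cons 0x9512087643 .nil) (.leaf 0x9023451678 0 (.node 0 7 (.cons 0x9807612345 (.cons 0x9867051432 (.cons 0x9807615432 .nil))) .done .done)) .done) .done))) .done) .done)) (.node 1 5 .nil (.node 4 6 (.cons 0x9512346780 .nil) (.node 1 7 (.cons 0x9465087123 (.cons 0x9645087123 .nil)) .done (.node 0 4 (.cons 0x9408765123 .nil) (.node 3 6 (.cons 0x9543678012 .nil) (.leaf 0x9236780451 1 (.node 2 5 (.cons 0x9876340125 .nil) (.leaf 0x9780125436 0 .done) .done)) (.leaf 0x9651234087 0 .done)) (.leaf 0x9150876432 1 .done))) .done) (.leaf 0x9054321678 0 .done))) (.node 1 7 .nil (.node 0 6 (.cons 0x9806712345 .nil) (.leaf 0x9217806543 1 (.leaf 0x9217806543 0 .done)) (.node 0 5 (.cons 0x9678054321 .nil) (.leaf 0x9612345087 0 (.node 4 7 (.cons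 0x9478056123 .nil) (.node 1 5 (.cons 0x9615087432 .nil) (.node 1 3 (.cons 0x9478056132 .nil) (.node 1 9 (.cons 0x6912345087 .nil) .done .done) .done) (.node 4 6 (.cons 0x9645087123 .nil) (.node 3 6 (.cons 0x9543678012 .nil) (.node 0 6 (.cons 0x9871236054 .nil) (.node 2 6 (.cons 0x9871450623 .nil) .done .done) (.leaf 0x9780546321 0 .done)) (.node 1 5 (.cons 0x9780516432 .nil) (.node 1 3 (.cons 0x9645087132 .nil) (.node 1 9 (.cons 0x6912345087 .nil) .done .done) .done) .done)) .done)) (.node 0 6 .nil (.node 1 8 (.cons 0x9543218760 .nil) (.node 2 6 (.cons 0x9187623450 (.cons 0x9762345081 .nil)) .done (.leaf 0x9054321876 0 .done)) (.node 1 8 (.cons 0x9760812345 .nil) (.node 5 8 (.cons 0x9234167850 .nil) (.node 5 7 (.cons 0x9806754321 .nil) (.node 0 7 (.cons 0x9812345706 .nil) (.node 2 7 (.cons 0x9345806721 .nil) .done .done) .done) .done) .done) .done)) .done))) .done)) .done)) (.node 1 6 (.cons 0x9543216780 .nil) (.node 1 5 .nil (.node 2 6 (.cons 0x9154326780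 .nil) (.node 0 3 (.cons 0x9456780321 .nil) (.node 4 6 (.cons 0x9512346780 .nil) (.node 3 6 (.cons 0x9543678012 .nil) (.node 6 8 (.cons 0x9768034512 .nil) .done .done) (.leaf 0x9645123087 0 .done)) (.leaf 0x9430876215 1 (.node 4 9 (.cons 0x3945678012 (.cons 0x5943012678 (.cons 0x3945621087 (.cons 0x5943087621 .nil)))) (.node 1 9 (.cons 0x3780194562 (.cons 0x5194326780 (.cons 0x3549108762 .nil))) .done .done) (.leaf 0x9876541230 0 .done)))) (.leaf 0x9015432678 0 (.node 0 5 (.cons 0x9432678051 .nil) (.node 4 8 (.cons 0x9762348051 (.cons 0x9762150843 .nil)) (.node 0 7 (.cons 0x9807654123 (.cons 0x9567084123 (.cons 0x9845076123 (.cons 0x9807623415 .nil)))) .done (.node 5 8 (.cons 0x9762341580 .nil) (.node 0 2 (.cons 0x9345876120 .nil) (.node 0 3 (.cons 0x9784561230 (.cons 0x9785162034 .nil)) (.leaf 0x9876120345 1 .done) (.leaf 0x9516780234 1 .done)) .done) .done)) (.node 5 8 (.cons 0x9762341580 .nil) (.node 0 2 (.cons 0x9345876120 .nil) (.node 0 3 (.cons 0x9216785430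 .nil) (.leaf 0x9876120345 0 (.leaf 0x9876541230 0 .done)) (.leaf 0x9516780234 1 .done)) .done) .done)) .done))) (.node 0 5 (.cons 0x9876123450 .nil) (.node 2 5 (.cons 0x9678012543 .nil) (.node 3 6 (.cons 0x9876345210 .nil) (.leaf 0x9452108763 1 (.leaf 0x9780125436 1 (.node 0 6 (.cons 0x9876012543 .nil) (.node 3 5 (.cons 0x9876012534 .nil) .done .done) .done))) .done) (.node 5 8 .nil (.node 0 6 (.cons 0x9760854321 .nil) (.leaf 0x9458760123 1 (.leaf 0x9458760123 0 .done)) (.node 5 7 .nil (.node 2 8 (.cons 0x9167823450 (.cons 0x9823416750 .nil)) (.leaf 0x9105432876 0 (.leaf 0x9167508234 0 .done)) (.node 2 5 (.cons 0x9678012543 .nil) (.node 5 9 (.cons 0x954321678 .nil) .done .done) .done)) .done)) .done)) .done)) (.node 0 5 (.cons 0x9678054321 .nil) (.leaf 0x9612345087 0 (.node 4 7 (.cons 0x9478056123 .nil) (.leaf 0x9561234780 0 (.node 0 4 .nil (.node 3 7 (.cons 0x9805614732 (.cons 0x9873216504 (.cons 0x9804123765 .nil))) .done .done) (.node 2 5 (.cons 0x9678012543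 .nil) (.node 1 5 .nil (.node 2 6 (.cons 0x9621508743 .nil) (.node 0 4 (.cons 0x9876152340 .nil) (.node 3 7 (.cons 0x9873216504 (.cons 0x9805621473 .nil)) (.leaf 0x9237804561 1 (.leaf 0x9210873456 0 .done)) .done) (.leaf 0x9015432678 0 .done)) .done) (.node 2 6 .nil (.node 1 3 (.cons 0x9312654780 .nil) (.leaf 0x9478052613 1 (.leaf 0x9452678013 1 .done)) (.node 3 6 (.cons 0x9543678012 .nil) (.node 0 3 (.cons 0x9456780321 .nil) (.node 5 8 (.cons 0x9345876210 .nil) (.leaf 0x9126785430 0 (.node 0 2 (.cons 0x9763458021 .nil) (.node 2 7 (.cons 0x9127634580 .nil) (.leaf 0x9276345801 0 .done) .done) .done)) (.leaf 0x9876541230 0 .done)) (.leaf 0x9478052163 1 .done)) .done)) .done)) .done))) (.node 2 5 (.cons 0x9432508761 .nil) (.leaf 0x9341678052 1 (.node 0 4 .nil (.node 5 7 (.cons 0x9805761432 .nil) (.leaf 0x9432165780 0 (.node 5 8 (.cons 0x9587612340 .nil) (.leaf 0x9321675804 0 (.leaf 0x9123405876 0 .done)) .done)) (.node 5 7 (.cons 0x9805761432 .nil) (.leaf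 0x9432165780 0 (.node 2 6 .nil (.node 0 3 (.cons 0x9456780321 (.cons 0x9803457621 (.cons 0x9803412675 .nil))) .done (.node 2 4 .nil (.node 3 5 (.cons 0x9876105342 (.cons 0x9612435780 .nil)) (.leaf 0x9087614235 1 .done) .done) .done)) .done)) .done)) (.node 0 6 .nil (.node 5 7 (.cons 0x9805761432 .nil) (.leaf 0x9612345780 0 (.leaf 0x9416087523 0 .done)) (.node 5 8 (.cons 0x9760854321 .nil) (.node 5 7 (.cons 0x9806754321 .nil) (.node 1 7 (.cons 0x9345806712 .nil) (.node 0 7 (.cons 0x9807654123 .nil) (.node 2 7 (.cons 0x9345806721 .nil) .done .done) .done) .done) .done) .done)) .done))) .done))) .done)) (.node 0 3 (.cons 0x9456780321 .nil) (.leaf 0x9214567803 1 (.node 0 5 (.cons 0x9678054321 .nil) (.node 1 6 (.cons 0x9543216780 .nil) (.node 1 5 .nil (.node 2 6 (.cons 0x9154326780 .nil) (.leaf 0x9430876215 1 (.leaf 0x9015432678 0 (.node 0 6 (.cons 0x9780654123 (.cons 0x9780623415 .nil)) .done .done))) .done) (.node 0 6 (.cons 0x9780654123 .nil) (.node 0 4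 .nil (.node 3 5 (.cons 0x9780653214 .nil) (.leaf 0x9235408761 1 (.leaf 0x9678041235 0 .done)) (.node 0 7 (.cons 0x9807612345 .nil) (.node 0 9 .nil (.node 3 9 (.cons 0x1876540932 (.cons 0x7809321456 (.cons 0x4567809321 (.cons 0x1456780932 .nil)))) .done .done) .done) .done)) (.node 0 4 .nil (.node 3 5 (.cons 0x9408765321 .nil) (.node 1 7 (.cons 0x9805432176 (.cons 0x9871230456 (.cons 0x9417806532 (.cons 0x9608714532 .nil)))) .done (.leaf 0x9235408761 1 (.leaf 0x9678041235 0 .done))) .done) .done)) (.leaf 0x9612345087 0 .done))) (.node 1 6 (.cons 0x9543216780 .nil) (.node 1 5 .nil (.node 2 6 (.cons 0x9432678051 .nil) (.leaf 0x9430876215 1 (.leaf 0x9015432678 0 .done)) (.node 0 4 .nil (.node 2 8 (.cons 0x9167823450 (.cons 0x9504328761 .nil)) (.leaf 0x9105432876 0 (.leaf 0x9051678234 1 .done)) (.node 0 6 (.cons 0x9780654123 .nil) (.node 0 7 (.cons 0x9870321654 .nil) (.node 0 2 .nil (.node 0 9 (.cons 0x8902345167 .nil) .done .done) .done) .done) .done)) .done))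 (.leaf 0x9054321678 0 (.node 0 6 (.cons 0x9780654123 .nil) (.node 0 4 .nil (.node 1 7 (.cons 0x9806712345 (.cons 0x9871230456 .nil)) (.node 1 8 (.cons 0x9760812345 .nil) .done .done) .done) .done) .done))) .done)) (.node 0 6 (.cons 0x9780654123 .nil) (.node 3 7 (.cons 0x9654123780 .nil) (.node 3 6 (.cons 0x9543678012 .nil) (.node 3 8 .nil (.node 2 7 (.cons 0x9145632780 .nil) (.leaf 0x9654127380 1 (.leaf 0x9654127380 0 .done)) (.node 3 9 (.cons 0x2936541087 .nil) (.node 3 5 .nil (.node 2 4 (.cons 0x8937654210 (.cons 0x9876530124 .nil)) (.leaf 0x9780124356 0 .done) .done) .done) .done)) .done) (.node 2 6 (.cons 0x9145623780 .nil) (.node 3 6 (.cons 0x9543678012 .nil) .done (.leaf 0x9108732654 0 .done)) .done)) (.node 3 7 (.cons 0x9654123780 .nil) (.leaf 0x9214560873 0 (.node 0 4 .nil (.node 1 6 (.cons 0x9543216780 (.cons 0x9561408732 .nil)) (.leaf 0x9804561237 0 (.node 2 8 (.cons 0x9543761082 (.cons 0x9732804561 (.cons 0x9732804165 (.cons 0x9540823761 .nil))))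 .done .done)) (.node 1 8 (.cons 0x9237654081 .nil) (.leaf 0x9654081237 1 (.leaf 0x9654081237 0 .done)) .done)) .done)) .done)) (.leaf 0x9876541230 1 .done)))) .done)))
def kn_c8_2 : List (Nat × Nat × Nat) := []
noncomputable def rc8_2 : T := tc8_2_0
theorem ok_c8_2 : root 8 refs8_2 kn_c8_2 0x6000000706050000000050300000000304000000004030000000030100000000102000000002010700000010 0xffffff3fff9fffd7ffe7ffe7fff5fff9fff9ff7d 8 1 4 (.cons 0x9321456780 .nil) rc8_2 = true := by decide +kernel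

noncomputable def tc8_3_0 : T := (.node 3 8 (.cons 0x9123876540 .nil) (.node 1 5 (.cons 0x9678045123 .nil) (.node 3 6 (.cons 0x9780456321 .nil) (.leaf 0x9236780451 2 (.node 2 4 (.cons 0x9387654210 (.cons 0x9765421083 (.cons 0x9763801245 .nil))) (.node 0 7 (.cons 0x9807632154 .nil) (.leaf 0x9542107836 1 (.leaf 0x9456387012 0 .done)) .done) (.node 2 4 (.cons 0x9387654210 (.cons 0x9765421083 (.cons 0x9780156342 (.cons 0x9510876342 .nil)))) .done .done))) (.leaf 0x9087651234 1 (.leaf 0x9087651234 2 (.leaf 0x9087651234 0 .done)))) (.leaf 0x9456783210 0 (.leaf 0x9456783210 2 (.leaf 0x9456783210 1 .done)))) (.node 1 8 (.cons 0x9765408123 .nil) (.node 3 8 (.cons 0x9765408321 .nil) (.node 3 7 (.cons 0x9804567321 .nil) (.node 2 8 (.cons 0x9821045673 .nil) (.node 2 7 .nil (.node 1 3 (.cons 0x9801345672 .nil) (.leaf 0x9654083127 1 (.node 5 8 (.cons 0x9285673401 (.cons 0x9408567231 (.cons 0x9276580431 .nil))) .done .done)) (.node 0 2 (.cons 0x9654378102 .nil) (.node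 2 6 (.cons 0x9265437810 .nil) (.leaf 0x9734562018 1 (.node 0 3 (.cons 0x9456780321 .nil) (.node 0 7 (.cons 0x9810734562 .nil) (.leaf 0x9182654370 2 .done) .done) .done)) .done) .done)) .done) (.node 0 3 (.cons 0x9456780321 .nil) (.node 1 4 (.cons 0x9321456780 .nil) (.node 0 5 (.cons 0x9678321450 .nil) (.node 5 8 (.cons 0x9856732140 .nil) (.leaf 0x9237658041 1 .done) .done) (.leaf 0x9230876541 2 .done)) .done) .done)) (.node 1 4 (.cons 0x9321456780 .nil) (.node 1 5 (.cons 0x9765123804 .nil) (.node 1 7 (.cons 0x9804567123 .nil) (.leaf 0x9238045671 2 (.node 1 6 .nil (.node 2 5 (.cons 0x9256783410 (.cons 0x9432561780 .nil)) (.leaf 0x9523408176 1 .done) .done) .done)) .done) (.node 0 3 (.cons 0x9456780321 .nil) (.leaf 0x9230876541 2 (.node 3 7 (.cons 0x9804567321 .nil) (.node 4 7 (.cons 0x9567408321 .nil) (.node 4 8 (.cons 0x9567384012 .nil) .done .done) .done) .done)) .done)) .done)) (.node 1 7 (.cons 0x9804567123 .nil) (.node 1 4 (.cons 0x9321456780 .nil)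 (.node 4 8 .nil (.node 3 7 (.cons 0x9654123780 .nil) (.leaf 0x9845673210 0 (.leaf 0x9845673210 2 .done)) (.node 3 8 (.cons 0x9832176540 .nil) (.node 2 8 .nil (.node 0 6 (.cons 0x9780654123 (.cons 0x9328714560 .nil)) (.leaf 0x9328710654 1 .done) (.node 5 8 (.cons 0x9176582340 .nil) (.node 6 8 (.cons 0x9712386540 .nil) .done .done) .done)) (.node 3 7 (.cons 0x9654123780 .nil) (.node 4 7 (.cons 0x9567408321 .nil) .done .done) .done)) .done)) .done) (.node 1 4 (.cons 0x9321456780 .nil) (.node 3 8 (.cons 0x9765408321 .nil) (.node 4 6 (.cons 0x9712380465 .nil) (.node 4 8 .nil (.node 0 3 (.cons 0x9876541230 (.cons 0x9567841230 .nil)) (.node 2 5 (.cons 0x9308764521 (.cons 0x9678452103 (.cons 0x9176523480 .nil))) (.leaf 0x9108432567 1 .done) .done) .done) .done) (.node 2 8 .nil (.node 0 5 (.cons 0x9412387650 .nil) (.leaf 0x9823410567 2 (.leaf 0x9281765043 2 .done)) (.node 5 8 (.cons 0x9765832140 .nil) (.node 0 5 (.cons 0x9412387650 .nil) (.node 4 6 (.cons 0x9783214650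 .nil) (.node 6 8 (.cons 0x9234178650 .nil) .done .done) .done) (.node 0 7 (.cons 0x9385670412 .nil) (.leaf 0x9412385670 0 (.leaf 0x9670412385 2 .done)) .done)) .done)) .done)) (.node 3 7 (.cons 0x9654123780 .nil) (.node 0 6 (.cons 0x9873214560 .nil) (.leaf 0x9123780654 0 (.leaf 0x9214560873 1 .done)) (.node 2 7 .nil (.node 0 6 (.cons 0x9560871432 (.cons 0x9560872341 (.cons 0x9327806541 .nil))) .done (.node 4 8 .nil (.node 2 5 (.cons 0x9652341780 (.cons 0x9176523480 .nil)) (.leaf 0x9108432567 1 .done) (.node 4 7 .nil (.node 0 3 (.cons 0x9456780321 (.cons 0x9654780321 .nil)) (.node 5 8 (.cons 0x9304856721 (.cons 0x9658047123 .nil)) (.leaf 0x9580321476 1 .done) .done) .done) .done)) .done)) .done)) .done)) .done)) (.node 1 7 (.cons 0x9567180432 .nil) (.node 3 7 (.cons 0x9804567321 .nil) (.leaf 0x9218045673 2 (.node 2 7 (.cons 0x9567234081 .nil) (.node 1 5 (.cons 0x9765180432 .nil) (.leaf 0x9340815672 2 (.node 1 6 (.cons 0x9615432780 .nil) (.node 0 5 (.cons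 0x9805432761 .nil) (.node 0 7 (.cons 0x9807234516 .nil) .done .done) .done) .done)) .done) .done)) (.node 2 5 (.cons 0x9765234081 .nil) (.leaf 0x9804325671 1 (.leaf 0x9804325671 2 (.node 2 8 .nil (.node 0 5 (.cons 0x9765043281 .nil) (.leaf 0x9823405671 1 (.leaf 0x9281765043 0 .done)) (.node 3 8 (.cons 0x9765408321 .nil) (.node 2 4 .nil (.node 3 5 (.cons 0x9765321804 (.cons 0x9243567810 .nil)) (.leaf 0x9087653421 2 .done) (.node 0 2 (.cons 0x9567810243 .nil) (.node 2 7 (.cons 0x9567234081 .nil) .done .done) .done)) .done) .done)) .done))) .done)) .done))) (.node 1 7 (.cons 0x9654087123 .nil) (.node 1 6 (.cons 0x9780456123 .nil) (.node 1 4 (.cons 0x9321456780 .nil) (.node 4 8 .nil (.node 3 7 (.cons 0x9654087321 .nil) (.leaf 0x9845673210 0 (.leaf 0x9845673210 2 .done)) (.node 4 7 .nil (.node 3 6 (.cons 0x9871236540 .nil) (.node 3 8 (.cons 0x9783654012 (.cons 0x9745612380 (.cons 0x9547612380 (.cons 0x9563874012 .nil)))) .done (.leaf 0x9874563210 0 .done))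 .done) .done)) .done) (.node 0 5 (.cons 0x9871650432 .nil) (.node 2 5 (.cons 0x9871652340 .nil) (.node 1 8 (.cons 0x9781652340 .nil) (.node 1 5 .nil (.node 2 6 (.cons 0x9154326780 .nil) (.leaf 0x9432651780 0 (.leaf 0x9015432678 1 .done)) .done) (.node 2 6 (.cons 0x9345267810 .nil) (.leaf 0x9623450817 1 .done) .done)) (.leaf 0x9652340871 2 .done)) (.node 5 7 (.cons 0x9234087561 .nil) (.node 0 6 .nil (.node 2 8 (.cons 0x9561782340 (.cons 0x9178234560 (.cons 0x9560432871 .nil))) (.leaf 0x9287165043 1 .done) (.node 3 6 (.cons 0x9871236540 .nil) (.node 2 6 .nil (.node 2 8 (.cons 0x9345628710 (.cons 0x9562871043 .nil)) (.leaf 0x9287165043 1 .done) .done) .done) .done)) .done) .done)) .done)) (.node 3 7 (.cons 0x9654087321 .nil) (.node 4 7 .nil (.node 3 6 (.cons 0x9780456321 .nil) (.leaf 0x9874563210 1 (.leaf 0x9874563210 0 .done)) (.node 5 7 .nil (.node 1 6 (.cons 0x9873216540 (.cons 0x9234087561 .nil)) (.leaf 0x9087561234 1 (.leaf 0x9087561234 2 .done)) (.node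 0 5 .nil (.node 1 6 (.cons 0x9873216540 (.cons 0x9873216504 .nil)) (.leaf 0x9508761234 2 (.leaf 0x9508761234 0 .done)) (.node 7 9 .nil (.node 1 8 (.cons 0x9671805432 (.cons 0x6971805432 (.cons 0x4976508123 .nil))) .done (.node 2 7 .nil (.node 6 9 (.cons 0x8405697321 (.cons 0x3965401278 (.cons 0x8965401273 (.cons 0x1965408723 (.cons 0x3965408721 .nil))))) .done .done) .done)) .done)) .done)) .done)) (.node 3 6 (.cons 0x9780456321 .nil) (.node 2 7 (.cons 0x9872104563 .nil) (.node 0 7 (.cons 0x9870456321 .nil) (.node 0 5 .nil (.node 1 4 (.cons 0x9321456780 (.cons 0x9873214056 (.cons 0x9805673214 .nil))) .done (.node 0 6 (.cons 0x9871236045 .nil) (.node 0 3 (.cons 0x9456780321 .nil) (.node 0 9 (.cons 0x1908765432 .nil) .done .done) .done) .done)) .done) .done) (.node 0 3 (.cons 0x9456780321 .nil) (.node 2 7 .nil (.node 1 6 (.cons 0x9780456123 .nil) (.node 1 3 (.cons 0x9654310872 .nil) (.leaf 0x9804561327 1 .done) (.leaf 0x9327801654 1 .done)) (.node 3 8 (.cons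 0x9654012783 .nil) (.node 4 7 (.cons 0x9836547210 .nil) (.node 1 8 (.cons 0x9547630812 .nil) (.node 5 8 (.cons 0x9365812740 .nil) (.leaf 0x9472185630 0 (.leaf 0x9472185630 1 .done)) .done) .done) .done) .done)) .done) .done)) .done)) (.node 1 6 (.cons 0x9561780432 .nil) (.node 0 5 (.cons 0x9871650432 .nil) (.node 1 5 (.cons 0x9651780432 .nil) (.node 2 5 (.cons 0x9871652340 .nil) (.node 3 5 (.cons 0x9653217804 .nil) .done .done) .done) (.node 0 7 (.cons 0x9870456123 .nil) (.node 3 7 (.cons 0x9873216540 .nil) (.node 2 7 .nil (.node 0 9 (.cons 0x1908765432 (.cons 0x8904327165 .nil)) (.node 1 9 (.cons 0x4567809123 (.cons 0x8723409165 (.cons 0x916543278 (.cons 0x5872340916 .nil)))) .done .done) .done) .done) .done) .done)) (.node 2 7 (.cons 0x9804327165 .nil) (.node 3 7 (.cons 0x9654087321 .nil) (.node 2 6 (.cons 0x9562340871 .nil) (.node 3 6 (.cons 0x9780456321 .nil) (.node 0 7 (.cons 0x9870456321 .nil) (.node 0 6 .nil (.node 1 5 (.cons 0x9780432651 (.cons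 0x9871560432 (.cons 0x9608732154 .nil))) .done .done) .done) .done) .done) .done) (.node 3 7 (.cons 0x9654087321 .nil) (.node 3 6 (.cons 0x9780456321 .nil) (.node 5 8 (.cons 0x9167234580 .nil) (.leaf 0x9327165804 2 (.leaf 0x9016723458 1 (.node 0 6 (.cons 0x9854061273 .nil) (.node 3 8 (.cons 0x9612738540 .nil) (.leaf 0x9738540612 2 (.leaf 0x9458372160 0 .done)) .done) .done))) .done) .done) .done)) .done)) .done))) (.node 3 5 (.cons 0x9678045321 .nil) (.node 3 6 (.cons 0x9540876321 .nil) (.node 2 8 (.cons 0x9678210453 .nil) (.node 2 5 .nil (.node 1 6 (.cons 0x9876123540 (.cons 0x9523408761 .nil)) (.leaf 0x9534016782 1 .done) (.node 1 5 (.cons 0x9678045123 .nil) (.node 0 2 .nil (.node 1 6 (.cons 0x9876123540 (.cons 0x9782016543 (.cons 0x9782016534 .nil))) .done (.node 2 4 (.cons 0x9876534201 .nil) (.node 1 8 (.cons 0x9678123540 .nil) (.leaf 0x9018765342 2 (.leaf 0x9765342018 0 .done)) .done) .done)) .done) .done)) (.leaf 0x9540128763 2 (.leaf 0x9540128763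 1 .done))) (.node 1 6 (.cons 0x9876123540 .nil) (.node 2 6 (.cons 0x9876210453 .nil) (.node 3 8 (.cons 0x9678354012 .nil) (.node 3 7 (.cons 0x9738012654 .nil) (.node 0 3 (.cons 0x9456780321 .nil) (.node 3 9 (.cons 0x2934567801 .nil) .done .done) .done) (.leaf 0x9104538762 2 .done)) .done) (.leaf 0x9235408761 2 .done)) .done)) (.node 3 6 (.cons 0x9540876321 .nil) (.node 0 3 (.cons 0x9456780321 .nil) (.node 1 6 (.cons 0x9540876123 .nil) (.node 2 6 .nil (.node 4 7 (.cons 0x9654780321 (.cons 0x9874562103 (.cons 0x9308745621 .nil))) .done (.node 0 5 .nil (.node 2 8 (.cons 0x9540128763 (.cons 0x9287634501 .nil)) (.leaf 0x9345012876 1 .done) (.node 0 6 .nil (.node 1 4 (.cons 0x9321456780 (.cons 0x9780654123 .nil)) (.node 5 8 (.cons 0x9123678540 (.cons 0x9785406321 .nil)) (.leaf 0x9854123067 1 .done) .done) .done) .done)) .done)) (.node 4 7 (.cons 0x9654780321 .nil) (.leaf 0x9321654780 0 (.leaf 0x9230874561 1 .done)) .done)) (.node 1 5 (.cons 0x9876321540 .nil)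 (.node 2 5 .nil (.node 1 8 (.cons 0x9254367810 (.cons 0x9678152340 .nil)) (.leaf 0x9678125403 0 (.leaf 0x9325401876 1 .done)) (.node 5 8 (.cons 0x9123678540 .nil) (.node 4 6 (.cons 0x9230467851 .nil) (.leaf 0x9304678512 0 (.leaf 0x9764032158 2 .done)) (.node 4 8 (.cons 0x9487651230 .nil) (.node 0 7 (.cons 0x9123654870 .nil) (.node 5 7 (.cons 0x9487563012 .nil) .done .done) .done) .done)) .done)) (.node 0 7 (.cons 0x9870451236 .nil) (.node 0 5 .nil (.node 1 4 (.cons 0x9321456780 (.cons 0x9876503214 .nil)) (.node 2 8 (.cons 0x9328076541 (.cons 0x9287634501 (.cons 0x9765082341 .nil))) (.leaf 0x9345012876 1 .done) .done) .done) .done) .done)) .done)) (.node 0 3 (.cons 0x9456780321 .nil) (.node 0 5 .nil (.node 1 6 (.cons 0x9540876123 .nil) (.leaf 0x9508761234 2 (.leaf 0x9508761234 0 .done)) (.node 1 5 (.cons 0x9678045123 .nil) (.node 0 6 (.cons 0x9876045123 .nil) (.node 1 6 (.cons 0x9540876123 .nil) .done .done) (.node 2 5 .nil (.node 4 7 (.cons 0x9654780321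 (.cons 0x9804763521 .nil)) (.leaf 0x9125634780 1 .done) (.node 5 7 (.cons 0x9632157804 .nil) (.node 5 8 (.cons 0x9258763401 .nil) .done .done) .done)) .done)) .done)) .done) .done)) (.node 1 5 (.cons 0x9678045123 .nil) (.node 0 3 (.cons 0x9456780321 .nil) (.node 1 4 (.cons 0x9321456780 .nil) (.node 1 6 (.cons 0x9540876123 .nil) (.node 0 5 (.cons 0x9876150432 .nil) (.node 0 6 (.cons 0x9876045123 .nil) .done .done) .done) (.leaf 0x9214567803 2 .done)) (.node 3 8 (.cons 0x9678321540 .nil) (.node 3 6 (.cons 0x9876321540 .nil) (.node 2 8 (.cons 0x9430156782 .nil) (.node 3 7 (.cons 0x9456378210 .nil) .done (.leaf 0x9821045367 1 .done)) (.leaf 0x9215408763 2 .done)) .done) .done)) (.node 1 6 (.cons 0x9540876123 .nil) (.node 1 4 (.cons 0x9321456780 .nil) (.node 0 3 (.cons 0x9456780321 .nil) (.leaf 0x9214567803 2 (.node 4 8 (.cons 0x9765123084 .nil) (.node 5 8 (.cons 0x9321678540 .nil) (.leaf 0x9216785403 1 .done) .done) .done)) .done) (.node 2 5 (.cons 0x9523408761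 .nil) (.node 2 6 .nil (.node 1 3 (.cons 0x9876254310 .nil) (.leaf 0x9780451326 1 (.node 5 8 (.cons 0x9167852340 (.cons 0x9132678540 (.cons 0x9312678540 .nil))) .done .done)) (.node 2 4 (.cons 0x9780165342 .nil) (.node 2 7 (.cons 0x9435610872 .nil) (.node 0 5 (.cons 0x9805167234 .nil) (.node 0 6 (.cons 0x9806723451 .nil) .done .done) (.leaf 0x9610872435 1 .done)) .done) .done)) .done) .done)) .done)) .done))) .done))))
def kn_c8_3 : List (Nat × Nat × Nat) := []
noncomputable def rc8_3 : T := tc8_3_0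
theorem ok_c8_3 : root 8 refs8_3 kn_c8_3 0x6000000706050000000050400000000403000000003020000000020100000000102000000002010700000010 0xffffff3fff9fffcfffe7fff3fff9fff9fff9ff7d 8 0 4 .nil rc8_3 = true := by decide +kernel

noncomputable def tc8_4_0 : T := (.node 5 7 (.cons 0x9657801234 .nil) (.node 1 7 (.cons 0x9654321780 .nil) (.node 0 6 (.cons 0x9871234560 .nil) (.leaf 0x9543217806 0 (.leaf 0x9234560871 3 (.leaf 0x9234560871 2 .done))) (.node 1 4 (.cons 0x9876523410 .nil) (.node 2 7 .nil (.node 5 8 (.cons 0x9658723410 .nil) (.leaf 0x9327658014 3 (.leaf 0x9327658014 2 .done)) (.node 3 7 .nil (.node 4 6 (.cons 0x9465780123 (.cons 0x9801237564 (.cons 0x9873465210 .nil))) .done (.node 4 6 (.cons 0x9465780123 .nil) (.node 5 8 (.cons 0x9852346710 .nil) (.leaf 0x9176432580 0 (.node 0 7 (.cons 0x9658701432 .nil) (.node 1 3 (.cons 0x9270856431 .nil) (.leaf 0x9580721346 2 .done) .done) .done)) (.node 1 3 (.cons 0x9564312780 .nil) (.node 1 5 (.cons 0x9346512780 .nil)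 (.node 3 6 (.cons 0x9436512780 .nil) (.node 4 7 (.cons 0x9215634780 .nil) .done .done) .done) .done) .done)) .done)) .done)) (.node 2 7 (.cons 0x9801432765 .nil) (.node 5 8 (.cons 0x9143276580 .nil) (.node 0 7 (.cons 0x9658072143 .nil) (.node 1 5 .nil (.node 0 2 (.cons 0x9802345176 (.cons 0x9678023451 .nil)) (.node 1 3 (.cons 0x9870213456 .nil) .done (.leaf 0x9876514320 2 .done)) .done) .done) (.leaf 0x9014327658 2 .done)) .done) (.leaf 0x9087652341 2 .done))) (.node 0 6 (.cons 0x9780654321 .nil) (.leaf 0x9543217806 1 (.leaf 0x9806543217 3 (.node 0 7 .nil (.node 6 8 (.cons 0x9123456870 .nil) (.leaf 0x9543210786 2 (.leaf 0x9086543217 3 (.node 1 5 (.cons 0x9708651234 .nil) (.node 2 6 (.cons 0x9345621780 (.cons 0x9807126543 .nil)) (.leaf 0x9876234510 1 .done) .done) .done))) (.node 2 7 (.cons 0x9345608721 .nil) (.node 1 5 .nil (.node 2 6 (.cons 0x9345621780 (.cons 0x9807623451 .nil)) (.leaf 0x9876234510 1 .done) (.node 3 7 (.cons 0x9806512734 .nil) (.node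 4 7 (.cons 0x9801567432 .nil) .done .done) .done)) .done) .done)) .done))) .done))) (.node 2 4 (.cons 0x9657801243 .nil) (.node 4 6 (.cons 0x9346578012 .nil) (.node 1 4 (.cons 0x9876523410 .nil) (.node 4 7 .nil (.node 1 5 (.cons 0x9801567432 (.cons 0x9801567423 .nil)) (.node 2 8 (.cons 0x9346578210 (.cons 0x9675108243 .nil)) (.leaf 0x9015674328 3 (.leaf 0x9347651082 3 .done)) .done) .done) (.leaf 0x9087652341 2 .done)) (.node 0 7 (.cons 0x9870125643 .nil) (.node 0 4 (.cons 0x9876523401 .nil) (.node 1 7 (.cons 0x9654321780 .nil) (.node 0 6 (.cons 0x9871234560 .nil) (.leaf 0x9543217806 0 (.leaf 0x9234560871 3 .done)) (.node 0 3 (.cons 0x9803245671 .nil) (.node 4 8 (.cons 0x9230845671 .nil) (.leaf 0x9308456712 1 .done) .done) .done)) .done) (.node 0 6 (.cons 0x9780654321 .nil) (.node 1 7 (.cons 0x9654321780 .nil) (.leaf 0x9543217806 0 (.node 1 4 (.cons 0x9876523410 .nil) (.node 0 5 (.cons 0x9876501432 .nil) (.node 6 8 (.cons 0x9321456870 .nil) (.leaf 0x9710523468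 0 (.leaf 0x9501786432 3 .done)) .done) .done) .done)) .done) .done)) .done)) (.node 1 4 (.cons 0x9876523410 .nil) (.node 4 7 .nil (.node 2 8 (.cons 0x9567823410 .nil) (.node 3 5 (.cons 0x9823567410 (.cons 0x9653287410 .nil)) (.leaf 0x9235674108 3 .done) (.node 1 5 (.cons 0x9156743280 .nil) (.leaf 0x9347651082 3 (.leaf 0x9347651082 2 .done)) .done)) .done) (.node 1 5 .nil (.node 3 6 (.cons 0x9436578012 (.cons 0x9801576342 (.cons 0x9634215780 .nil))) (.leaf 0x9236780154 3 .done) (.node 5 8 (.cons 0x9765801432 .nil) (.node 2 7 (.cons 0x9801432765 .nil) (.leaf 0x9108567234 1 (.leaf 0x9014327658 2 .done)) .done) .done)) (.leaf 0x9087652341 2 .done))) .done)) .done)) (.node 1 4 (.cons 0x9567801432 .nil) (.leaf 0x9325678014 3 (.node 4 6 (.cons 0x9780123465 .nil) (.node 2 4 .nil (.node 1 3 (.cons 0x9132456780 .nil) (.leaf 0x9087652431 3 (.leaf 0x9425678013 3 (.node 3 5 (.cons 0x9423567801 .nil) (.leaf 0x9678012435 2 (.node 1 8 (.cons 0x9423567810 (.cons 0x9243567810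 .nil)) (.node 0 7 (.cons 0x9870123465 (.cons 0x9810764325 (.cons 0x9813254670 (.cons 0x9670813452 .nil)))) .done .done) (.leaf 0x9241087653 3 .done))) .done))) (.node 4 8 (.cons 0x9765234801 .nil) (.node 4 7 .nil (.node 2 8 (.cons 0x9567410823 .nil) (.node 0 4 (.cons 0x9567823401 .nil) (.node 5 7 (.cons 0x9657823401 (.cons 0x9328756401 (.cons 0x9346578210 .nil))) .done .done) (.node 1 3 (.cons 0x9567413280 .nil) (.leaf 0x9652801347 1 (.leaf 0x9476528013 0 (.leaf 0x9567431082 2 .done))) .done)) .done) (.node 4 9 .nil (.node 1 9 (.cons 0x8765234910 (.cons 0x5678019432 (.cons 0x5678019423 (.cons 0x2567801943 .nil)))) .done (.node 4 7 .nil (.node 1 3 (.cons 0x2943108765 .nil) (.leaf 0x9256748013 1 (.leaf 0x9013256748 3 .done)) .done) .done)) .done)) .done)) (.node 0 6 (.cons 0x9780654321 .nil) (.node 1 7 (.cons 0x9654321780 .nil) (.leaf 0x9543217806 0 (.node 5 8 (.cons 0x9234580671 .nil) (.node 4 7 (.cons 0x9608547123 .nil) (.node 2 4 (.cons 0x9324580671 .nil)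 (.node 0 4 (.cons 0x9658740123 .nil) (.node 4 8 (.cons 0x9765234801 .nil) .done .done) .done) .done) (.leaf 0x9085432176 3 (.leaf 0x9580176432 2 .done))) (.leaf 0x9543217806 3 (.leaf 0x9543217806 1 .done)))) (.node 1 7 (.cons 0x9654321780 .nil) (.leaf 0x9234560871 3 (.node 1 3 (.cons 0x9806713254 .nil) (.node 1 6 .nil (.node 4 8 (.cons 0x9845231760 (.cons 0x9761084325 (.cons 0x9716084523 .nil))) .done .done) .done) (.node 0 2 .nil (.node 1 3 (.cons 0x9802546713 .nil) (.leaf 0x9876541320 2 (.node 3 7 (.cons 0x9456087321 (.cons 0x9873120645 (.cons 0x9564378021 .nil))) .done .done)) (.node 1 6 (.cons 0x9543208761 .nil) (.node 1 5 (.cons 0x9876154320 .nil) (.node 1 3 (.cons 0x9802546713 .nil) (.node 1 8 (.cons 0x9760813254 .nil) .done .done) .done) .done) .done)) (.leaf 0x9806543217 3 .done)))) .done)) .done)) (.node 4 8 (.cons 0x9765234801 .nil) (.node 1 7 (.cons 0x9654321780 .nil) (.leaf 0x9652348017 1 (.node 1 8 .nil (.node 0 6 (.cons 0x9780654321 (.cons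 0x9760814523 .nil)) (.leaf 0x9543217806 3 (.node 3 7 (.cons 0x9256734801 (.cons 0x9256734810 (.cons 0x9254376081 .nil))) (.leaf 0x9218067345 2 .done) .done)) .done) (.node 2 4 (.cons 0x9801765243 .nil) (.node 4 7 .nil (.node 6 8 (.cons 0x9768014325 (.cons 0x9347125680 .nil)) (.node 0 3 (.cons 0x9768032541 (.cons 0x9745680321 (.cons 0x9568742301 .nil))) (.leaf 0x9456803217 3 .done) .done) .done) .done) .done))) (.node 2 4 .nil (.node 1 3 (.cons 0x9132456780 .nil) (.leaf 0x9087652431 3 (.leaf 0x9425678013 3 (.node 5 8 (.cons 0x9765801324 (.cons 0x9765801342 .nil)) (.node 0 6 (.cons 0x9780654321 (.cons 0x9760854132 .nil)) (.node 1 7 (.cons 0x9654321780 (.cons 0x9710658432 (.cons 0x9801765243 .nil))) (.leaf 0x9543217806 3 .done) (.leaf 0x9601432587 2 .done)) .done) .done))) (.node 4 7 .nil (.node 3 8 (.cons 0x9476523801 .nil) (.leaf 0x9012567438 3 (.node 5 8 (.cons 0x9674108523 .nil) (.node 0 6 (.cons 0x9780654321 (.cons 0x9587601423 (.cons 0x9785601243 .nil)))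 (.node 1 7 (.cons 0x9710658432 (.cons 0x9806547123 .nil)) (.leaf 0x9543217806 1 .done) .done) (.node 3 6 (.cons 0x9785634210 (.cons 0x9743658012 .nil)) (.node 0 2 (.cons 0x9587634102 (.cons 0x9476385201 .nil)) (.leaf 0x9367852014 1 .done) (.leaf 0x9014763258 2 .done)) .done)) (.leaf 0x9476521083 3 .done))) (.node 4 6 (.cons 0x9780123465 .nil) (.node 4 9 .nil (.node 0 4 .nil (.node 1 7 (.cons 0x9654321780 (.cons 0x8940176523 .nil)) .done .done) .done) .done) .done)) .done)) .done)) (.leaf 0x9087652341 3 .done)))) (.node 1 4 (.cons 0x9567801432 .nil) (.leaf 0x9678014325 1 (.leaf 0x9678014325 3 (.node 3 6 (.cons 0x9145236780 .nil) (.leaf 0x9236780145 3 (.node 4 7 (.cons 0x9801476325 .nil) (.node 5 7 (.cons 0x9657801234 .nil) (.node 5 8 (.cons 0x9658743210 .nil) (.node 1 7 (.cons 0x9654321780 .nil) (.node 2 4 (.cons 0x9856324710 .nil) (.leaf 0x9580174236 3 .done) .done) .done) .done) (.node 4 6 (.cons 0x9780123465 .nil) (.node 2 6 (.cons 0x9562108743 .nil)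 (.node 3 5 (.cons 0x9126534780 .nil) (.leaf 0x9534780126 2 (.node 0 3 (.cons 0x9678032541 .nil) (.node 5 8 (.cons 0x9785643210 .nil) (.leaf 0x9678523014 1 .done) .done) .done)) .done) .done) .done)) (.node 5 7 (.cons 0x9657801234 .nil) (.node 4 7 .nil (.node 1 5 (.cons 0x9415236780 (.cons 0x9801567432 (.cons 0x9215634780 .nil))) .done (.node 1 7 (.cons 0x9654321780 .nil) (.node 0 4 (.cons 0x9523678041 .nil) (.leaf 0x9217804563 1 (.leaf 0x9217804563 2 .done)) .done) .done)) (.node 1 7 (.cons 0x9654321780 .nil) (.node 0 6 (.cons 0x9871234560 .nil) (.leaf 0x9543217806 0 (.leaf 0x9234560871 3 (.leaf 0x9234560871 2 .done))) (.node 0 4 (.cons 0x9523678041 .nil) (.leaf 0x9217804563 1 (.node 0 6 (.cons 0x9780654321 .nil) (.leaf 0x9543217806 3 (.node 4 7 .nil (.node 3 8 (.cons 0x9125638740 .nil) (.leaf 0x9210654783 3 (.leaf 0x9408365217 1 (.leaf 0x9745601238 3 .done))) (.node 1 8 (.cons 0x9365218740 .nil) (.node 6 8 (.cons 0x9568743210 .nil) .done .done) .done))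 .done)) (.leaf 0x9217804563 2 .done))) .done)) .done)) .done))) (.leaf 0x9087652341 0 .done)))) .done)))
def kn_c8_4 : List (Nat × Nat × Nat) := []
noncomputable def rc8_4 : T := tc8_4_0
theorem ok_c8_4 : root 8 refs8_4 kn_c8_4 0x6000000706020000000020500000000501000000001040000000040300000000302000000002010700000010 0xffffff3fffbbffdbffddffedffe7fff3fff9ff7d 8 2 5 (.cons 0x9432567801 .nil) rc8_4 = true := by decide +kernel

noncomputable def tc8_5_0 : T := (.node 4 7 (.cons 0x9874563210 .nil) (.node 2 4 (.cons 0x9324567801 .nil) (.node 4 6 .nil (.node 3 5 (.cons 0x9235467801 .nil) (.leaf 0x9210876453 3 (.leaf 0x9453210876 0 (.node 3 8 (.cons 0x9654783210 (.cons 0x9564783210 .nil)) (.node 0 5 (.cons 0x9783645012 .nil) (.leaf 0x9123876450 3 (.leaf 0x9321054678 0 .done)) .done) .done))) (.node 0 6 (.cons 0x9780654321 .nil) (.node 1 7 (.cons 0x9654321780 .nil) (.node 1 4 .nil (.node 3 7 (.cons 0x9801423765 .nil) (.leaf 0x9541237806 4 .done) .done) (.leaf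 0x9543217806 3 (.leaf 0x9543217806 2 .done))) (.node 0 2 .nil (.node 4 8 (.cons 0x9784563210 (.cons 0x9548763201 (.cons 0x9784563201 .nil))) .done (.node 1 4 (.cons 0x9876320145 .nil) (.node 0 7 (.cons 0x9870123654 .nil) (.node 2 6 (.cons 0x9541087623 .nil) (.node 6 8 (.cons 0x9543687021 .nil) .done .done) .done) .done) .done)) .done)) .done)) (.node 4 8 (.cons 0x9784563210 .nil) (.node 2 7 (.cons 0x9365487210 .nil) (.node 1 4 .nil (.node 0 5 (.cons 0x9127843650 (.cons 0x9805672341 (.cons 0x9872143650 (.cons 0x9650872341 .nil)))) .done (.node 4 6 .nil (.node 3 5 (.cons 0x9721084653 (.cons 0x9465327801 .nil)) (.leaf 0x9210876453 3 .done) .done) .done)) (.node 0 3 (.cons 0x9127845630 .nil) (.node 1 3 (.cons 0x9276548031 .nil) (.node 1 4 (.cons 0x9803276541 .nil) (.node 4 6 (.cons 0x9546780132 .nil) .done .done) (.leaf 0x9548031276 3 .done)) (.leaf 0x9845630127 2 (.leaf 0x9845630127 4 (.leaf 0x9845630127 1 .done)))) .done)) (.node 0 2 (.cons 0x9784563201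 .nil) (.node 0 6 (.cons 0x9780654321 .nil) (.node 5 8 (.cons 0x9123478560 .nil) (.node 3 7 (.cons 0x9637854210 .nil) (.leaf 0x9106378542 0 (.node 1 4 (.cons 0x9208567341 .nil) (.node 2 7 (.cons 0x9273658410 .nil) (.leaf 0x9856372014 1 .done) (.leaf 0x9085673412 0 .done)) .done)) (.node 5 7 (.cons 0x9578423601 .nil) (.node 0 5 (.cons 0x9876324501 .nil) (.node 3 5 (.cons 0x9248753601 .nil) (.leaf 0x9063578421 2 .done) .done) .done) .done)) (.node 0 4 .nil (.node 1 7 (.cons 0x9236548710 .nil) (.leaf 0x9408712365 0 (.node 5 8 (.cons 0x9587124360 (.cons 0x9217856340 (.cons 0x9587124063 .nil))) .done (.leaf 0x9804563217 3 .done))) .done) .done)) (.node 1 4 (.cons 0x9567802341 .nil) (.node 2 7 (.cons 0x9801456723 .nil) (.node 2 8 (.cons 0x9765410823 .nil) .done .done) (.node 1 5 (.cons 0x9876324510 .nil) (.leaf 0x9087651432 3 (.leaf 0x9087651432 4 .done)) .done)) .done)) .done)) .done)) (.leaf 0x9801236547 3 (.leaf 0x9108745632 0 .done))) (.node 0 6 (.cons 0x9780654321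 .nil) (.node 4 7 (.cons 0x9560874321 .nil) (.node 2 4 (.cons 0x9324567801 .nil) (.node 1 3 (.cons 0x9456780132 .nil) (.leaf 0x9245678013 3 (.node 4 6 (.cons 0x9546780132 .nil) (.node 1 4 .nil (.node 3 5 (.cons 0x9874106532 .nil) (.leaf 0x9653214780 4 (.leaf 0x9142356780 0 .done)) .done) .done) (.node 3 7 .nil (.node 1 4 (.cons 0x9560873412 .nil) (.leaf 0x9873214560 4 (.leaf 0x9873214560 1 .done)) (.node 1 7 (.cons 0x9654321780 .nil) (.node 0 3 (.cons 0x9654308712 .nil) (.node 3 8 (.cons 0x9654783210 .nil) .done .done) .done) .done)) .done))) (.node 1 5 (.cons 0x9874321560 .nil) (.leaf 0x9423678015 2 (.node 1 4 .nil (.node 3 5 (.cons 0x9876014235 (.cons 0x9874106532 .nil)) (.leaf 0x9653214780 4 .done) (.node 4 6 .nil (.node 1 7 (.cons 0x9654321780 (.cons 0x9564321780 .nil)) (.node 2 8 (.cons 0x9671543280 (.cons 0x9517643280 .nil)) (.leaf 0x9067154328 3 .done) .done) .done) .done)) (.leaf 0x9015423678 4 .done))) .done)) (.node 1 5 (.cons 0x9801547632 .nil)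 (.node 0 7 (.cons 0x9870651234 .nil) (.node 2 8 (.cons 0x9823674510 .nil) (.leaf 0x9476328015 3 (.node 1 7 (.cons 0x9654321780 .nil) (.node 5 7 (.cons 0x9436570821 .nil) (.node 2 5 (.cons 0x9807125634 .nil) (.node 4 8 (.cons 0x9847512360 .nil) (.leaf 0x9632157480 0 (.leaf 0x9480712563 3 .done)) .done) .done) .done) (.leaf 0x9476328015 1 .done))) .done) (.node 2 8 (.cons 0x9547632801 .nil) (.node 0 7 (.cons 0x9670823451 .nil) (.node 1 7 (.cons 0x9671543280 .nil) (.leaf 0x9321780654 2 (.node 3 7 (.cons 0x9673280154 .nil) (.node 4 8 (.cons 0x9654873210 .nil) (.leaf 0x9123784560 4 (.leaf 0x9123784560 3 .done)) .done) .done)) .done) (.leaf 0x9082367451 0 (.leaf 0x9367451082 3 .done))) (.leaf 0x9478065123 3 .done))) (.node 1 7 (.cons 0x9654321780 .nil) (.leaf 0x9321780654 2 (.node 0 7 .nil (.node 1 5 (.cons 0x9347806512 (.cons 0x9870651234 .nil)) (.leaf 0x9156087432 3 (.node 1 8 (.cons 0x9563470812 .nil) (.leaf 0x9321870654 2 .done) .done)) .done) (.node 4 6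 (.cons 0x9564321780 .nil) (.node 2 4 (.cons 0x9324567801 .nil) (.node 0 2 (.cons 0x9802174365 .nil) (.node 0 7 .nil (.node 2 8 (.cons 0x9563471280 (.cons 0x9563470821 (.cons 0x9365470821 .nil))) .done .done) .done) (.node 1 5 (.cons 0x9347806512 .nil) (.leaf 0x9423678015 2 (.leaf 0x9156087432 3 (.leaf 0x9015423678 4 .done))) .done)) .done) .done))) .done))) (.node 1 7 (.cons 0x9654321780 .nil) (.leaf 0x9234560871 3 (.leaf 0x9871234560 0 (.node 4 6 (.cons 0x9564321780 .nil) (.node 1 6 .nil (.node 0 5 (.cons 0x9871234650 .nil) (.leaf 0x9432167805 2 (.node 2 6 (.cons 0x9432650871 .nil) (.node 4 7 (.cons 0x9654780123 (.cons 0x9508743261 .nil)) (.leaf 0x9805612347 4 .done) (.leaf 0x9178054326 3 .done)) .done)) .done) .done) (.node 4 7 (.cons 0x9654780123 .nil) (.node 4 6 .nil (.node 5 7 (.cons 0x9645780123 .nil) (.leaf 0x9801234657 4 (.node 0 3 (.cons 0x9654308712 (.cons 0x9645780321 (.cons 0x9465780321 .nil))) (.node 1 4 (.cons 0x9321465780 .nil) (.leaf 0x9875641230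 3 (.leaf 0x9875641230 2 .done)) .done) .done)) .done) (.node 0 7 .nil (.node 1 8 (.cons 0x9654321870 .nil) (.leaf 0x9234560781 3 (.leaf 0x9781234560 0 (.leaf 0x9345670812 0 .done))) (.node 4 6 .nil (.node 3 5 (.cons 0x9870123564 .nil) (.leaf 0x9210876453 3 (.leaf 0x9087465321 2 .done)) (.node 2 4 (.cons 0x9324567801 .nil) (.node 1 4 .nil (.node 3 5 (.cons 0x9870123564 (.cons 0x9870653412 (.cons 0x9870146532 .nil))) .done .done) .done) .done)) .done)) .done)) .done)))) .done)) (.node 4 7 (.cons 0x9654780123 .nil) (.leaf 0x9123654780 2 (.leaf 0x9210874563 1 (.node 0 6 (.cons 0x9780654321 .nil) (.node 1 7 (.cons 0x9654321780 .nil) (.leaf 0x9543217806 1 (.node 3 7 .nil (.node 2 4 (.cons 0x9324567801 (.cons 0x9801247365 .nil)) (.leaf 0x9780124563 4 (.leaf 0x9108736542 1 .done)) (.node 4 8 (.cons 0x9654873210 .nil) (.node 5 7 (.cons 0x9845732106 .nil) (.node 1 6 (.cons 0x9845732160 .nil) (.node 4 6 (.cons 0x9806457123 .nil) .done (.leaf 0x9084573216 3 .done))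 .done) (.leaf 0x9321065487 0 .done)) .done)) (.leaf 0x9543217806 3 .done))) (.node 1 7 (.cons 0x9654321780 .nil) (.leaf 0x9234560871 3 (.leaf 0x9871234560 0 (.node 0 7 .nil (.node 4 8 (.cons 0x9654870123 .nil) (.leaf 0x9123654870 2 (.leaf 0x9210784563 1 (.leaf 0x9210784563 3 .done))) (.node 3 7 .nil (.node 2 4 (.cons 0x9324567801 (.cons 0x9801247365 .nil)) (.leaf 0x9780124563 4 (.leaf 0x9108736542 1 .done)) (.node 2 7 (.cons 0x9345608721 .nil) (.node 7 9 (.cons 0x4978012365 .nil) .done .done) .done)) .done)) .done))) .done)) .done))) .done)))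
def kn_c8_5 : List (Nat × Nat × Nat) := []
noncomputable def rc8_5 : T := tc8_5_0
theorem ok_c8_5 : root 8 refs8_5 kn_c8_5 0x6000000706020000000020500000000504000000004010000000010300000000302000000002010700000010 0xffffff3fffbbffdbffcfffedfff5fff3fff9ff7d 8 3 6 (.cons 0x9780123654 .nil) rc8_5 = true := by decide +kernel

def kn_c8_6 : List (Nat × Nat × Nat) := []
noncomputable def rc8_6 : T := (.node 0 3 (.cons 0x9456780321 .nil) (.node 2 8 (.cons 0x9345678210 .nil) (.node 0 6 (.cons 0x9782106543 .nil) (.node 2 4 .nil (.node 3 5 (.cons 0x9782106534 (.cons 0x9782435601 .nil)) (.leaf 0x9801243567 4 .done) (.node 0 2 .nil (.node 1 8 (.cons 0x9187654320 .nil) (.leaf 0x9765432018 2 (.leaf 0x9456781023 5 (.leaf 0x9456781023 4 .done))) .done) .done)) (.node 1 7 (.cons 0x9178234560 .nil) (.leaf 0x9823456017 0 (.leaf 0x9654328710 1 (.node 3 7 (.cons 0x9654378210 .nil) (.leaf 0x9873456012 5 (.leaf 0x9280654173 0 (.node 1 6 (.cons 0x9287345610 .nil) (.node 3 6 (.cons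 0x9736541082 .nil) .done .done) .done))) .done))) .done)) (.leaf 0x9103456782 0 (.leaf 0x9103456782 1 .done))) (.leaf 0x9541230876 0 (.node 2 8 (.cons 0x9345678210 .nil) (.leaf 0x9103456782 5 (.node 0 7 (.cons 0x9807654123 .nil) (.node 3 7 .nil (.node 0 6 (.cons 0x9821067345 .nil) (.leaf 0x9128734560 1 (.leaf 0x9560873214 1 .done)) (.node 2 4 .nil (.node 1 3 (.cons 0x9801376542 .nil) (.leaf 0x9876542310 2 (.leaf 0x9082456731 5 (.leaf 0x9731082456 0 .done))) (.node 3 6 (.cons 0x9543678210 .nil) (.node 3 5 (.cons 0x9673541082 .nil) (.node 1 5 (.cons 0x9678032154 .nil) (.node 0 6 (.cons 0x9601542873 .nil) (.leaf 0x9154287360 2 .done) .done) .done) (.leaf 0x9210873654 4 .done)) .done)) .done)) (.node 1 3 (.cons 0x9807654132 .nil) (.leaf 0x9082314567 1 (.leaf 0x9280765413 4 .done)) .done)) (.leaf 0x9782103456 0 .done))) (.leaf 0x9230876541 1 (.leaf 0x9876541230 4 .done))))) (.node 0 3 (.cons 0x9456780321 .nil) (.leaf 0x9214567803 5 (.node 2 8 (.cons 0x9345678210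 .nil) (.node 5 8 .nil (.node 0 6 (.cons 0x9780654123 .nil) (.leaf 0x9458760123 3 (.leaf 0x9458760123 4 (.leaf 0x9458760123 2 .done))) (.node 0 5 .nil (.node 1 6 (.cons 0x9780321654 .nil) (.leaf 0x9234508761 5 (.leaf 0x9216780543 0 (.node 4 8 (.cons 0x9784561230 (.cons 0x9321678450 .nil)) (.leaf 0x9548761230 1 .done) .done))) (.node 3 5 .nil (.node 0 4 (.cons 0x9678045321 .nil) (.leaf 0x9876532140 1 (.leaf 0x9534012876 3 .done)) .done) .done)) (.node 6 8 (.cons 0x9786543012 .nil) (.node 0 6 (.cons 0x9780654123 .nil) (.node 3 7 (.cons 0x9654378210 .nil) (.node 1 6 (.cons 0x9734582160 .nil) (.node 4 7 (.cons 0x9874561230 .nil) (.leaf 0x9308745612 1 (.leaf 0x9306128547 4 .done)) .done) (.leaf 0x9601287345 4 (.leaf 0x9541237806 3 .done))) (.node 1 7 (.cons 0x9178234560 .nil) (.leaf 0x9823456017 0 (.leaf 0x9654328710 1 (.node 0 4 (.cons 0x9568712304 .nil) (.node 0 5 .nil (.node 1 6 (.cons 0x9780321654 .nil) (.leaf 0x9234508761 5 .done) .done) (.leaf 0x9321786540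 2 .done)) .done))) .done)) (.node 2 7 (.cons 0x9278654301 .nil) (.node 0 6 (.cons 0x9603458721 .nil) (.node 1 6 (.cons 0x9612785430 .nil) (.leaf 0x9345872160 1 (.leaf 0x9278543061 0 .done)) (.node 0 2 (.cons 0x9785602143 .nil) (.node 2 4 (.cons 0x9785603421 .nil) .done .done) .done)) (.node 0 6 (.cons 0x9341278560 .nil) (.leaf 0x9278560341 5 (.leaf 0x9278560341 4 .done)) (.leaf 0x9034568721 0 .done))) .done)) .done))) (.leaf 0x9430128765 0 (.node 3 5 (.cons 0x9435678210 .nil) (.node 0 5 .nil (.node 3 6 (.cons 0x9780563214 .nil) (.leaf 0x9128763450 0 (.leaf 0x9054367821 1 .done)) (.node 1 8 .nil (.node 0 2 (.cons 0x9432056781 .nil) (.leaf 0x9765432018 2 (.leaf 0x9502341876 0 (.leaf 0x9341876502 5 .done))) (.node 0 6 (.cons 0x9543218760 .nil) (.leaf 0x9123450678 4 (.node 0 7 (.cons 0x9650782341 .nil) (.node 0 4 (.cons 0x9567821043 .nil) (.node 0 9 (.cons 0x5906781234 .nil) .done .done) .done) .done)) .done)) .done)) (.node 0 2 (.cons 0x9435678201 .nil) (.leaf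 0x9143567820 4 (.leaf 0x9341028765 1 .done)) .done)) .done))) (.leaf 0x9803214567 0 (.leaf 0x9230876541 0 (.leaf 0x9876541230 5 .done))))) (.node 4 7 .nil (.node 3 6 (.cons 0x9541236780 .nil) (.leaf 0x9874563210 4 (.leaf 0x9874563210 3 (.leaf 0x9874563210 2 .done))) (.node 4 8 .nil (.node 0 5 (.cons 0x9678054123 .nil) (.leaf 0x9487650123 5 (.leaf 0x9487650123 3 (.leaf 0x9487650123 2 .done))) (.node 0 4 .nil (.node 1 8 (.cons 0x9567812340 .nil) (.node 3 8 (.cons 0x9567834012 .nil) (.leaf 0x9456783210 5 (.leaf 0x9456783210 2 .done)) .done) (.node 1 8 (.cons 0x9765408123 .nil) (.node 2 4 .nil (.node 3 5 (.cons 0x9235674081 (.cons 0x9243567810 .nil)) (.leaf 0x9812356740 1 (.leaf 0x9801243567 4 .done)) .done) .done) .done)) (.node 4 6 .nil (.node 3 5 (.cons 0x9123546780 .nil) (.leaf 0x9876453210 3 (.leaf 0x9876453210 4 (.leaf 0x9876453210 5 (.leaf 0x9876453210 2 .done)))) (.node 4 9 (.cons 0x3945678012 .nil) (.node 0 4 .nil (.node 2 4 .nil (.node 3 8 (.cons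 0x9567834012 (.cons 0x9765421083 .nil)) (.leaf 0x9456783210 3 (.leaf 0x9456783210 5 (.leaf 0x9456783210 2 .done))) .done) .done) .done) .done)) .done))) (.node 4 6 .nil (.node 3 5 (.cons 0x9123546780 .nil) (.leaf 0x9876453210 3 (.leaf 0x9876453210 4 (.leaf 0x9876453210 5 (.leaf 0x9876453210 2 .done)))) (.node 3 6 (.cons 0x9541236780 .nil) (.node 2 4 .nil (.node 0 5 (.cons 0x9678054123 (.cons 0x9365087421 (.cons 0x9508763241 .nil))) (.leaf 0x9632145087 4 .done) (.node 3 7 (.cons 0x9654210873 .nil) (.leaf 0x9210873654 2 (.leaf 0x9210873654 4 .done)) .done)) (.node 2 5 (.cons 0x9145236780 .nil) (.leaf 0x9410876325 1 (.leaf 0x9410876325 0 (.node 0 6 .nil (.node 3 8 (.cons 0x9783456012 (.cons 0x9543876012 .nil)) (.leaf 0x9106783452 5 (.leaf 0x9106783452 2 .done)) (.node 2 6 .nil (.node 0 3 (.cons 0x9456780321 (.cons 0x9308745621 (.cons 0x9876210345 .nil))) (.node 0 5 (.cons 0x9236780541 (.cons 0x9326780541 .nil)) (.leaf 0x9450876321 5 .done) .done) .done) .done))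 .done))) .done)) (.node 4 8 .nil (.node 0 5 (.cons 0x9678054123 .nil) (.leaf 0x9487650123 5 (.leaf 0x9487650123 3 (.leaf 0x9487650123 2 .done))) (.node 4 9 (.cons 0x3945678012 .nil) (.node 0 4 .nil (.node 1 8 (.cons 0x9567812340 .nil) (.node 3 8 (.cons 0x9567834012 .nil) (.leaf 0x9456783210 5 (.leaf 0x9456783210 2 .done)) .done) .done) .done) .done)) .done))) .done))) .done)))
theorem ok_c8_6 : root 8 refs8_6 kn_c8_6 0x7000000307060000000060500000000504000000004030000000030100000000102000000002010300000010 0xffffff77ff3fff9fffcfffe7fff5fff9fff9fff5 8 1 4 (.cons 0x9321456780 .nil) rc8_6 = true := by decide +kernel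

def kn_c8_7 : List (Nat × Nat × Nat) := []
noncomputable def rc8_7 : T := (.node 2 5 (.cons 0x9876345210 .nil) (.node 0 6 (.cons 0x9876012543 .nil) (.node 3 8 (.cons 0x9678345210 .nil) (.leaf 0x9125438760 3 (.leaf 0x9125438760 4 (.leaf 0x9125438760 5 .done))) (.node 3 8 (.cons 0x9678345210 .nil) (.leaf 0x9452106783 5 (.node 2 8 (.cons 0x9543678210 .nil) (.node 3 7 (.cons 0x9437825601 .nil) (.node 1 4 (.cons 0x9256783410 .nil) (.leaf 0x9873410652 2 (.leaf 0x9256014378 1 (.node 0 2 (.cons 0x9438765201 .nil) (.leaf 0x9341025678 2 (.leaf 0x9876520143 1 .done)) .done))) .done) (.node 2 6 .nil (.node 0 5 (.cons 0x9678054321 .nil) (.leaf 0x9762105438 0 (.leaf 0x9762105438 5 (.leaf 0x9126783450 3 .done))) (.node 5 7 (.cons 0x9801267543 .nil) (.leaf 0x9621083457 3 (.leaf 0x9012675438 5 .done)) .done)) .done)) (.node 2 4 (.cons 0x9524387601 .nil) (.node 2 6 .nil (.node 1 3 (.cons 0x9780134562 .nil) (.leaf 0x9431087625 2 (.leaf 0x9625431087 1 (.leaf 0x9087625431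 5 .done))) (.node 0 2 (.cons 0x9678345201 .nil) (.node 2 8 (.cons 0x9543678210 .nil) (.node 2 9 (.cons 0x1923456780 .nil) .done .done) .done) .done)) (.node 1 7 (.cons 0x9871065243 .nil) (.leaf 0x9438710652 2 (.leaf 0x9834256017 5 (.leaf 0x9256017834 1 .done))) .done)) .done))) (.node 3 8 (.cons 0x9678345210 .nil) (.leaf 0x9452106783 0 (.node 6 8 .nil (.node 0 5 (.cons 0x9678054321 (.cons 0x9768054321 (.cons 0x9786345012 .nil))) .done (.node 4 6 .nil (.node 3 5 (.cons 0x9780645321 .nil) (.leaf 0x9876453210 4 (.leaf 0x9876453210 5 .done)) (.node 0 4 (.cons 0x9256783401 .nil) (.leaf 0x9043876521 5 (.node 1 6 (.cons 0x9543216780 .nil) (.node 2 6 (.cons 0x9526783401 .nil) .done .done) .done)) .done)) .done)) (.leaf 0x9521067834 2 .done))) .done))) (.leaf 0x9125436780 1 (.leaf 0x9452108763 1 (.leaf 0x9108763452 6 .done)))) (.node 2 5 (.cons 0x9678012543 .nil) (.leaf 0x9452108763 6 (.node 0 5 (.cons 0x9678054321 .nil) (.node 5 8 (.cons 0x9763458012 .nil) (.node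 2 7 (.cons 0x9458012763 .nil) (.leaf 0x9672108543 6 (.node 3 5 .nil (.node 2 4 (.cons 0x9653427801 .nil) (.leaf 0x9108765342 0 (.leaf 0x9356780124 1 .done)) (.node 1 5 .nil (.node 4 6 (.cons 0x9872105346 .nil) (.leaf 0x9564327801 2 (.leaf 0x9150876432 6 .done)) .done) .done)) (.node 3 5 (.cons 0x9801276354 .nil) (.node 1 5 .nil (.node 0 2 (.cons 0x9432087651 .nil) (.node 1 8 (.cons 0x9435678102 .nil) (.leaf 0x9543201876 4 .done) .done) .done) .done) .done))) (.node 2 7 (.cons 0x9127634580 .nil) (.node 6 8 (.cons 0x9687210543 .nil) (.node 3 5 (.cons 0x9687210534 .nil) (.node 4 7 (.cons 0x9867435210 .nil) (.leaf 0x9368501274 4 (.leaf 0x9253476801 2 .done)) .done) (.leaf 0x9210543687 3 .done)) (.leaf 0x9276345801 5 (.node 0 2 (.cons 0x9763458021 .nil) (.node 3 5 (.cons 0x9801276354 .nil) (.node 5 7 (.cons 0x9436758021 .nil) .done .done) .done) .done))) .done)) (.node 1 6 (.cons 0x9543216780 .nil) (.leaf 0x9216780543 6 (.node 0 6 .nil (.node 3 8 (.cons 0x9450678321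 .nil) (.leaf 0x9452106783 1 (.node 1 8 (.cons 0x9763218054 .nil) (.node 4 7 (.cons 0x9547632180 (.cons 0x9605478321 (.cons 0x9325476081 (.cons 0x9743806125 .nil)))) .done .done) (.leaf 0x9210678345 0 (.node 1 4 (.cons 0x9678054123 (.cons 0x9238760541 .nil)) (.leaf 0x9450678321 0 (.leaf 0x9760541238 5 .done)) .done)))) .done) (.node 1 8 (.cons 0x9763218054 .nil) (.node 5 8 (.cons 0x9763458012 .nil) (.node 6 8 (.cons 0x9768012543 .nil) (.node 0 6 .nil (.node 1 7 (.cons 0x9217634580 (.cons 0x9718065234 .nil)) (.leaf 0x9654321780 5 .done) .done) .done) .done) (.node 1 7 (.cons 0x9432567180 .nil) (.node 0 4 (.cons 0x9817652340 .nil) (.leaf 0x9652340817 6 (.leaf 0x9432567180 0 (.leaf 0x9652340817 5 .done))) .done) .done)) .done))) .done)) (.node 3 5 .nil (.node 2 4 (.cons 0x9243567801 .nil) (.leaf 0x9108765342 0 (.leaf 0x9356780124 1 (.leaf 0x9087653421 2 .done))) (.node 5 8 (.cons 0x9763458012 .nil) (.node 0 5 (.cons 0x9678054321 .nil) (.node 1 5 .nil (.node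 0 2 (.cons 0x9432087651 .nil) (.node 1 8 (.cons 0x9435678102 .nil) (.leaf 0x9543201876 4 .done) (.leaf 0x9021543678 5 .done)) .done) .done) (.node 5 7 .nil (.node 6 8 (.cons 0x9752108634 .nil) (.node 0 7 (.cons 0x9687012534 .nil) (.leaf 0x9452107863 0 (.leaf 0x9543687012 4 .done)) (.leaf 0x9867543210 5 .done)) (.node 0 5 (.cons 0x9678054321 .nil) (.node 1 5 .nil (.node 0 2 (.cons 0x9763458021 (.cons 0x9432087651 .nil)) (.leaf 0x9021543678 5 .done) .done) .done) .done)) .done)) .done)) (.leaf 0x9108763452 4 .done)))) (.node 2 5 (.cons 0x9678012543 .nil) (.leaf 0x9780125436 6 (.leaf 0x9780125436 5 (.leaf 0x9210876345 0 (.leaf 0x9108763452 3 .done)))) .done)))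
theorem ok_c8_7 : root 8 refs8_7 kn_c8_7 0x6000000706050000000050200000000204000000004030000000030100000000102000000002010700000010 0xffffff3fff9fffdbffebffe7fff5fff9fff9ff7d 8 3 6 (.cons 0x9543678012 .nil) rc8_7 = true := by decide +kernel

noncomputable def tc8_8_0 : T := (.node 4 6 (.cons 0x9876453210 .nil) (.node 2 4 (.cons 0x9324567801 .nil) (.node 1 3 (.cons 0x9456780132 .nil) (.node 1 6 (.cons 0x9543216780 .nil) (.node 3 6 .nil (.node 1 5 (.cons 0x9215436780 .nil) (.node 0 2 (.cons 0x9432087651 .nil) (.leaf 0x9780234516 0 (.leaf 0x9320876154 7 .done)) (.leaf 0x9324510876 3 .done)) .done) (.node 0 6 (.cons 0x9876012354 .nil) (.node 4 8 (.cons 0x9678453210 .nil) (.leaf 0x9123548760 4 (.leaf 0x9123548760 7 (.leaf 0x9123548760 6 .done))) (.node 4 8 (.cons 0x9678453210 .nil) (.leaf 0x9532106784 1 (.leaf 0x9760123548 2 (.leaf 0x9321067845 3 .done))) .done)) .done)) (.leaf 0x9542310876 3 (.leaf 0x9678013245 2 .done))) (.node 4 8 (.cons 0x9678453210 .nil)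 (.node 0 6 (.cons 0x9354876012 .nil) (.leaf 0x9123548760 7 (.leaf 0x9760123548 2 (.node 3 8 (.cons 0x9546783210 .nil) (.node 0 5 (.cons 0x9678054321 .nil) (.leaf 0x9210546783 0 (.node 5 7 (.cons 0x9645783210 .nil) (.node 1 6 (.cons 0x9543216780 .nil) (.node 0 2 (.cons 0x9802167543 .nil) (.leaf 0x9834576120 6 (.node 1 3 (.cons 0x9657802431 .nil) (.leaf 0x9567842013 7 .done) .done)) (.node 4 7 (.cons 0x9874235610 .nil) (.leaf 0x9108742356 3 .done) .done)) (.leaf 0x9457832106 2 .done)) .done)) (.leaf 0x9760124538 6 (.leaf 0x9067835421 3 .done))) .done))) (.node 0 6 (.cons 0x9235487601 .nil) (.leaf 0x9123548760 6 (.leaf 0x9321067845 3 (.leaf 0x9548760123 2 .done))) .done)) .done)) (.leaf 0x9532108764 6 (.leaf 0x9108764532 2 .done))) (.node 0 5 (.cons 0x9678054321 .nil) (.node 4 7 (.cons 0x9801235476 .nil) (.node 6 8 (.cons 0x9867453210 .nil) (.node 3 6 (.cons 0x9501236874 .nil) (.node 1 6 (.cons 0x9543216780 .nil) (.node 0 6 (.cons 0x9506874321 .nil) (.node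 4 6 (.cons 0x9546780123 .nil) .done .done) (.leaf 0x9450876123 7 .done)) .done) (.leaf 0x9123547680 2 (.node 3 6 (.cons 0x9123687450 .nil) (.leaf 0x9210547863 2 (.leaf 0x9210547863 3 .done)) .done))) (.node 4 6 (.cons 0x9546780123 .nil) (.node 1 6 (.cons 0x9543216780 .nil) (.node 2 6 (.cons 0x9801267453 .nil) (.node 1 3 (.cons 0x9265087431 .nil) (.leaf 0x9087431265 6 (.leaf 0x9087431265 1 (.leaf 0x9087431265 4 .done))) (.node 3 6 .nil (.node 2 5 (.cons 0x9801254763 .nil) (.leaf 0x9478052163 2 (.leaf 0x9163478052 6 .done)) (.node 2 5 (.cons 0x9634780521 .nil) (.leaf 0x9163478052 6 .done) .done)) .done)) (.node 3 6 (.cons 0x9508743612 .nil) .done (.leaf 0x9450876123 7 .done))) (.node 5 8 (.cons 0x9764580123 .nil) (.node 3 7 (.cons 0x9376458012 .nil) (.node 6 8 (.cons 0x9354768012 .nil) (.leaf 0x9321054687 4 (.leaf 0x9321054687 0 .done)) (.node 2 4 (.cons 0x9324567801 .nil) (.node 1 8 (.cons 0x9324567810 .nil) (.leaf 0x9642378105 6 (.leaf 0x9056423781 0 .done))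 (.node 1 5 (.cons 0x9651087324 .nil) (.leaf 0x9642378015 6 .done) .done)) (.leaf 0x9645801237 0 .done))) (.node 3 7 (.cons 0x9123764580 .nil) (.leaf 0x9467321085 0 (.leaf 0x9237645801 7 (.leaf 0x9645801237 5 .done))) .done)) .done)) (.node 6 8 (.cons 0x9235476801 .nil) (.leaf 0x9321086745 2 (.leaf 0x9086745321 3 (.leaf 0x9745321086 6 .done))) .done))) (.node 2 4 (.cons 0x9324567801 .nil) (.node 4 7 (.cons 0x9801235476 .nil) (.node 4 6 (.cons 0x9546780123 .nil) (.node 0 6 .nil (.node 3 8 (.cons 0x9674538012 (.cons 0x9783245601 (.cons 0x9506783421 (.cons 0x9542387601 .nil)))) .done (.node 2 6 (.cons 0x9345087621 .nil) (.node 2 5 (.cons 0x9806743521 .nil) (.node 1 3 (.cons 0x9876542310 .nil) (.leaf 0x9508762134 2 (.leaf 0x9087431256 4 (.leaf 0x9087431256 1 .done))) .done) .done) .done)) .done) (.node 6 8 (.cons 0x9235476801 .nil) (.leaf 0x9321086745 2 (.leaf 0x9086745321 3 (.leaf 0x9745321086 6 .done))) .done)) (.node 1 3 (.cons 0x9678054312 .nil) (.leaf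 0x9245678013 6 (.leaf 0x9542310876 3 (.leaf 0x9678013245 2 .done))) (.node 4 7 (.cons 0x9801235476 .nil) (.node 6 8 (.cons 0x9867453210 .nil) (.node 1 7 (.cons 0x9865324710 .nil) (.node 3 6 (.cons 0x9243650871 .nil) (.leaf 0x9421780563 2 .done) (.leaf 0x9805342176 2 .done)) (.leaf 0x9123547680 2 (.node 1 7 (.cons 0x9453217680 .nil) (.node 0 4 (.cons 0x9768045321 .nil) (.leaf 0x9867123540 0 (.node 0 7 (.cons 0x9423568071 .nil) .done .done)) (.node 0 4 (.cons 0x9768045321 .nil) (.leaf 0x9867123540 5 (.leaf 0x9680453217 0 .done)) .done)) .done))) (.node 4 6 (.cons 0x9546780123 .nil) (.node 3 8 (.cons 0x9546783210 .nil) (.leaf 0x9450123876 7 (.node 3 6 (.cons 0x9783642105 .nil) .done (.node 4 8 .nil (.node 1 7 (.cons 0x9480176532 .nil) (.node 0 6 (.cons 0x9806712345 .nil) (.leaf 0x9832456017 6 (.leaf 0x9178324560 0 .done)) (.leaf 0x9423567108 6 .done)) .done) .done))) (.node 5 8 (.cons 0x9764580123 .nil) (.node 3 7 (.cons 0x9654237801 .nil) (.node 0 6 (.cons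 0x9873245601 .nil) (.node 1 4 (.cons 0x9605873412 .nil) (.node 1 5 (.cons 0x9806743512 .nil) .done .done) .done) (.node 1 5 (.cons 0x9651087324 .nil) (.leaf 0x9642378015 6 .done) (.leaf 0x9085467321 7 .done))) (.node 3 7 (.cons 0x9123764580 .nil) (.leaf 0x9467321085 0 (.leaf 0x9237645801 7 (.leaf 0x9645801237 5 .done))) .done)) .done)) (.node 6 8 (.cons 0x9235476801 .nil) (.leaf 0x9321086745 2 (.leaf 0x9086745321 3 (.leaf 0x9745321086 6 .done))) .done))) .done))) .done)) (.node 0 5 (.cons 0x9678054321 .nil) (.node 6 8 (.cons 0x9768054321 .nil) (.node 1 5 (.cons 0x9768051234 .nil) (.node 4 7 (.cons 0x9867432150 .nil) (.node 3 8 (.cons 0x9501238674 .nil) (.leaf 0x9054768321 7 .done) (.node 2 5 (.cons 0x9347680521 .nil) (.node 2 8 (.cons 0x9347682150 .nil) (.node 0 3 (.cons 0x9867430512 .nil) (.leaf 0x9150347682 0 (.leaf 0x9430512867 7 .done)) .done) .done) (.leaf 0x9674321508 7 .done))) (.node 0 3 (.cons 0x9678034512 .nil) (.node 2 4 (.cons 0x9324567801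 .nil) (.leaf 0x9780342156 7 (.leaf 0x9780342156 6 (.leaf 0x9430876512 1 .done))) (.node 3 8 .nil (.node 2 4 (.cons 0x9324567801 (.cons 0x9768342150 (.cons 0x9765423801 .nil))) (.node 2 6 (.cons 0x9345126780 (.cons 0x9451038762 (.cons 0x9762154380 .nil))) (.leaf 0x9830154267 0 .done) .done) .done) .done)) .done)) (.node 4 6 (.cons 0x9546780123 .nil) (.node 3 8 (.cons 0x9546783210 .nil) (.node 0 3 (.cons 0x9786453012 .nil) (.node 2 7 (.cons 0x9354687210 .nil) (.leaf 0x9546872103 7 (.leaf 0x9546872103 6 (.leaf 0x9864530127 4 .done))) .done) (.leaf 0x9054678321 6 .done)) (.node 5 8 (.cons 0x9764580123 .nil) (.node 3 7 (.cons 0x9123764580 .nil) (.leaf 0x9467321085 0 (.leaf 0x9237645801 7 (.leaf 0x9645801237 5 .done))) .done) .done)) (.node 1 7 (.cons 0x9450867123 .nil) (.leaf 0x9543217680 2 (.leaf 0x9086712345 3 (.leaf 0x9680543217 6 .done))) .done))) (.node 5 8 .nil (.node 0 6 (.cons 0x9760854321 .nil) (.node 3 6 (.cons 0x9458763210 (.cons 0x9763210854 .nil))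 (.node 1 7 (.cons 0x9671234580 .nil) (.node 2 4 (.cons 0x9324567801 (.cons 0x9124367850 (.cons 0x9801765423 (.cons 0x9243650871 .nil)))) .done (.leaf 0x9654321780 6 (.leaf 0x9712345806 6 (.leaf 0x9806543217 0 .done)))) .done) (.node 1 5 (.cons 0x9432158760 (.cons 0x9760851234 .nil)) .done .done)) (.node 5 7 .nil (.node 0 6 (.cons 0x9806754321 .nil) (.node 1 7 (.cons 0x9458067123 .nil) (.leaf 0x9654321780 6 (.leaf 0x9067123458 0 (.leaf 0x9806543217 0 .done))) (.node 1 6 (.cons 0x9543216780 (.cons 0x9435780612 .nil)) (.leaf 0x9234578061 0 (.node 1 5 (.cons 0x9806751234 .nil) (.node 3 8 (.cons 0x9438760512 (.cons 0x9438057612 (.cons 0x9457610832 .nil))) .done .done) .done)) .done)) (.node 5 9 .nil (.node 6 9 (.cons 0x876954321 (.cons 0x4596780123 (.cons 0x3459678012 .nil))) (.node 1 8 (.cons 0x967543218 (.cons 0x7695432180 .nil)) (.leaf 0x543218769 6 (.leaf 0x459678123 5 .done)) (.leaf 0x4801235967 2 .done)) (.node 2 5 .nil (.node 1 5 .nil (.node 0 4 (.cons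 0x9234087651 (.cons 0x9678043251 .nil)) (.leaf 0x9780432156 0 (.node 1 4 (.cons 0x9234156780 .nil) (.leaf 0x9256780143 4 (.leaf 0x9256780143 0 (.leaf 0x9876523410 4 .done))) (.leaf 0x9340876512 7 .done))) .done) .done) .done)) .done)) .done)) .done)) .done)))
def kn_c8_8 : List (Nat × Nat × Nat) := []
noncomputable def rc8_8 : T := tc8_8_0
theorem ok_c8_8 : root 8 refs8_8 kn_c8_8 0x6000000706050000000050200000000204000000004010000000010300000000302000000002010700000010 0xffffff3fff9fffdbffebffedfff5fff3fff9ff7d 8 3 5 (.cons 0x9678012354 .nil) rc8_8 = true := by decide +kernel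

def kn_c8_9 : List (Nat × Nat × Nat) := []
noncomputable def rc8_9 : T := (.node 1 5 (.cons 0x9432156780 .nil) (.leaf 0x9321567804 1 (.node 3 5 (.cons 0x9435678012 .nil) (.node 2 8 (.cons 0x9435678210 .nil) (.leaf 0x9534012876 1 (.leaf 0x9104356782 3 (.node 5 8 (.cons 0x9765804321 .nil) (.node 1 7 (.cons 0x9328045671 .nil) (.leaf 0x9123408567 2 (.leaf 0x9234085671 5 (.leaf 0x9043217658 8 .done))) (.node 1 7 (.cons 0x9328045671 .nil) (.leaf 0x9432176580 4 (.leaf 0x9234085671 7 (.leaf 0x9085671234 3 .done))) .done)) .done))) (.node 5 8 (.cons 0x9765804321 .nil) (.node 1 7 (.cons 0x9408567123 .nil) (.leaf 0x9671234085 3 (.leaf 0x9234085671 8 (.node 4 6 (.cons 0x9465321780 .nil) (.leaf 0x9532178046 5 (.leaf 0x9123564087 8 .done)) .done))) (.node 1 7 (.cons 0x9340856712 .nil) (.leaf 0x9432176580 4 (.leaf 0x9234085671 7 (.leaf 0x9085671234 3 .done))) .done)) .done)) (.leaf 0x9321567804 6 (.leaf 0x9651234087 8 .done)))) (.node 4 8 .nil (.node 0 5 (.cons 0x9765084321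 .nil) (.leaf 0x9487650123 7 (.leaf 0x9567843210 2 .done)) (.node 2 4 (.cons 0x9567801243 .nil) (.node 0 5 (.cons 0x9876501243 .nil) (.node 4 7 (.cons 0x9805674321 .nil) (.node 1 8 (.cons 0x9347650812 .nil) (.leaf 0x9180567432 7 (.node 0 3 (.cons 0x9187654230 .nil) (.leaf 0x9876542301 1 (.node 3 8 (.cons 0x9567834210 .nil) (.leaf 0x9567421830 3 .done) .done)) .done)) .done) (.node 3 8 (.cons 0x9567834210 .nil) (.leaf 0x9501243876 7 (.leaf 0x9765012438 0 .done)) .done)) (.node 3 5 (.cons 0x9435678012 .nil) (.leaf 0x9124356780 4 (.node 0 5 .nil (.node 2 6 (.cons 0x9762108435 (.cons 0x9501267843 .nil)) (.leaf 0x9012678435 0 .done) (.node 1 5 (.cons 0x9432156780 .nil) (.leaf 0x9321567804 0 (.node 5 8 (.cons 0x9765801243 .nil) (.node 3 7 (.cons 0x9124376580 .nil) (.leaf 0x9243765801 1 (.leaf 0x9243765801 6 (.leaf 0x9673421085 8 .done))) .done) .done)) .done)) (.leaf 0x9421087653 7 .done))) .done)) (.node 3 5 (.cons 0x9435678012 .nil) (.node 2 4 (.cons 0x9876534210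 .nil) (.node 2 8 (.cons 0x9435678210 .nil) (.node 4 7 (.cons 0x9653478210 .nil) (.node 2 7 (.cons 0x9872104356 .nil) (.node 4 6 (.cons 0x9872104653 .nil) (.node 3 8 (.cons 0x9567834210 .nil) (.leaf 0x9721046538 2 (.leaf 0x9564012783 3 .done)) .done) .done) .done) (.leaf 0x9340128765 3 (.leaf 0x9128765340 4 .done))) (.leaf 0x9124356780 4 (.leaf 0x9780124356 3 .done))) (.node 2 7 (.cons 0x9127653480 .nil) (.node 5 8 (.cons 0x9658721043 .nil) (.node 1 5 (.cons 0x9432156780 .nil) (.leaf 0x9321567804 0 (.node 0 5 .nil (.node 1 8 (.cons 0x9672184350 .nil) (.leaf 0x9321876504 0 .done) .done) .done)) (.node 3 6 (.cons 0x9401278563 .nil) (.leaf 0x9012785634 0 (.leaf 0x9012785634 3 .done)) .done)) (.node 0 2 (.cons 0x9765348021 .nil) (.node 1 7 (.cons 0x9217653480 .nil) (.leaf 0x9435671208 3 (.leaf 0x9671208435 4 .done)) (.node 0 5 .nil (.node 1 3 (.cons 0x9456780231 (.cons 0x9213487650 .nil)) (.leaf 0x9876502134 3 (.leaf 0x9876502134 0 .done)) .done) .done)) (.leaf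 0x9276534801 7 .done))) (.node 1 5 (.cons 0x9432156780 .nil) (.leaf 0x9321567804 0 (.node 5 8 .nil (.node 4 7 (.cons 0x9653478012 (.cons 0x9674321580 .nil)) (.leaf 0x9476580123 7 .done) (.node 0 5 .nil (.node 2 4 (.cons 0x9567801243 (.cons 0x9876501243 .nil)) (.leaf 0x9421087653 7 (.node 1 6 (.cons 0x9780432165 (.cons 0x9324508761 .nil)) (.leaf 0x9243508761 0 .done) .done)) .done) .done)) (.node 5 8 .nil (.node 1 7 (.cons 0x9658712340 .nil) (.leaf 0x9234085671 0 (.leaf 0x9234085671 1 .done)) .done) .done))) .done))) .done))) (.node 1 5 (.cons 0x9432156780 .nil) (.node 3 5 (.cons 0x9435678012 .nil) (.node 4 8 (.cons 0x9765348012 .nil) (.node 5 8 (.cons 0x9678512340 .nil) (.node 0 6 (.cons 0x9784321560 .nil) (.leaf 0x9432158760 7 (.node 0 7 (.cons 0x9651234870 .nil) (.leaf 0x9512348706 4 .done) (.node 1 8 (.cons 0x9518760432 .nil) (.node 0 2 (.cons 0x9678154320 .nil) (.leaf 0x9345187602 3 (.leaf 0x9815432067 1 (.leaf 0x9678154320 2 .done))) .done) .done)))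 (.node 0 6 (.cons 0x9784321560 .nil) (.leaf 0x9432158760 8 (.leaf 0x9785123406 8 (.leaf 0x9406785123 3 .done))) .done)) (.node 5 8 (.cons 0x9678512340 .nil) (.node 0 6 (.cons 0x9876043215 .nil) (.leaf 0x9432158760 5 (.leaf 0x9215876043 6 (.leaf 0x9123406785 7 .done))) (.node 4 7 (.cons 0x9674085321 .nil) (.node 6 8 (.cons 0x9123586740 .nil) (.leaf 0x9476853210 1 .done) .done) .done)) .done)) (.node 5 8 (.cons 0x9678512340 .nil) (.node 2 5 .nil (.node 1 6 (.cons 0x9325408761 .nil) (.leaf 0x9340876152 1 (.leaf 0x9523408761 2 .done)) (.node 0 5 .nil (.node 1 6 (.cons 0x9405876123 .nil) (.leaf 0x9761234058 3 (.leaf 0x9234058761 8 (.node 2 8 (.cons 0x9328761540 .nil) (.leaf 0x9340516782 7 (.leaf 0x9516782340 3 .done)) .done))) .done) .done)) (.node 0 6 (.cons 0x9340678512 .nil) (.leaf 0x9432158760 8 (.leaf 0x9785123406 8 (.leaf 0x9406785123 3 .done))) .done)) .done)) (.leaf 0x9234087651 0 (.leaf 0x9234087651 1 (.node 1 6 .nil (.node 5 7 (.cons 0x9804321675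 .nil) (.leaf 0x9234087561 1 (.leaf 0x9432165780 2 (.leaf 0x9123408756 4 .done))) (.node 0 5 (.cons 0x9876123405 .nil) (.node 5 8 (.cons 0x9587612340 .nil) (.leaf 0x9432167850 5 (.leaf 0x9612340587 1 .done)) (.node 5 8 (.cons 0x9587612340 .nil) (.leaf 0x9432167850 3 .done) .done)) (.node 5 7 (.cons 0x9804321675 .nil) (.node 5 8 (.cons 0x9857612340 .nil) (.leaf 0x9432167580 5 (.leaf 0x9612340857 1 .done)) (.node 5 8 (.cons 0x9340857612 .nil) (.leaf 0x9043216758 1 .done) .done)) .done))) .done)))) .done)))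
theorem ok_c8_9 : root 8 refs8_9 kn_c8_9 0x6000000706050000000050400000000402000000002030000000030100000000102000000002010700000010 0xffffff3fff9fffcfffebfff3fff5fff9fff9ff7d 8 0 4 (.cons 0x9567804321 .nil) rc8_9 = true := by decide +kernel

def kn_c8_10 : List (Nat × Nat × Nat) := []
noncomputable def rc8_10 : T := (.node 0 4 (.cons 0x9876512340 .nil) (.leaf 0x9321567804 1 (.node 0 7 (.cons 0x9807654321 .nil) (.node 0 6 (.cons 0x9876043215 .nil) (.node 5 8 (.cons 0x9678512340 .nil) (.leaf 0x9432158760 6 (.leaf 0x9432158760 9 (.leaf 0x9432158760 7 (.leaf 0x9432158760 8 .done)))) (.node 1 8 (.cons 0x9765432180 .nil) (.leaf 0x9543218076 1 (.node 1 7 .nil (.node 2 5 (.cons 0x9432518760 (.cons 0x9432560871 .nil)) (.leaf 0x9187604325 8 .done) .done) (.node 2 5 (.cons 0x9876043251 .nil) (.leaf 0x9406781523 1 (.leaf 0x9067815234 0 .done)) .done))) .done)) (.node 1 8 (.cons 0x9765432180 .nil) (.node 2 6 (.cons 0x9432651870 .nil) (.leaf 0x9870432651 2 (.leaf 0x9340781562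 5 (.leaf 0x9078156234 3 .done))) (.leaf 0x9345670812 1 (.leaf 0x9456708123 0 .done))) .done)) (.leaf 0x9156780432 8 (.node 0 7 (.cons 0x9807654321 .nil) (.node 1 8 (.cons 0x9765432180 .nil) (.leaf 0x9432180765 0 (.node 4 8 (.cons 0x9765480123 .nil) (.node 0 6 (.cons 0x9784321560 .nil) (.leaf 0x9123487065 6 (.leaf 0x9843215607 2 .done)) (.node 3 7 (.cons 0x9376548012 .nil) (.node 2 8 (.cons 0x9376548210 .nil) (.node 3 6 (.cons 0x9736548210 .nil) (.leaf 0x9821073654 0 (.leaf 0x9482107365 1 .done)) (.leaf 0x9376540182 2 .done)) (.leaf 0x9654801237 2 .done)) .done)) (.node 1 7 .nil (.node 2 5 (.cons 0x9670812543 (.cons 0x9652340871 .nil)) (.leaf 0x9671804325 2 .done) .done) .done))) (.node 0 5 .nil (.node 1 8 (.cons 0x9765432180 (.cons 0x9678150432 .nil)) (.leaf 0x9504321876 9 (.leaf 0x9765043218 0 .done)) (.node 1 7 (.cons 0x9650871234 .nil) (.node 4 6 (.cons 0x9780564321 .nil) (.leaf 0x9321780564 1 (.leaf 0x9178056432 8 .done)) .done) .done)) .done)) .done))))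 (.node 0 4 (.cons 0x9567804321 .nil) (.node 1 8 (.cons 0x9765432180 .nil) (.node 4 8 (.cons 0x9765480123 .nil) (.node 3 7 (.cons 0x9376548012 .nil) (.node 6 8 (.cons 0x9568732104 .nil) (.leaf 0x9321045687 4 (.leaf 0x9321045687 1 .done)) (.leaf 0x9480123765 8 (.leaf 0x9654801237 2 .done))) (.node 1 3 (.cons 0x9765480132 .nil) (.node 1 7 .nil (.node 0 5 (.cons 0x9487650132 (.cons 0x9671805432 .nil)) (.leaf 0x9765084321 1 .done) (.node 0 7 (.cons 0x9807654321 .nil) (.node 2 8 (.cons 0x9765482310 .nil) (.leaf 0x9132845670 2 (.leaf 0x9482310765 9 .done)) (.leaf 0x9345670812 1 .done)) .done)) (.node 2 7 (.cons 0x9327654801 .nil) (.node 2 5 (.cons 0x9765231084 .nil) (.node 4 7 (.cons 0x9132567480 .nil) (.leaf 0x9801325674 9 (.leaf 0x9674801325 4 .done)) .done) (.leaf 0x9310845672 8 (.leaf 0x9845672310 4 .done))) .done)) .done)) (.node 1 6 (.cons 0x9780432165 .nil) (.node 5 8 (.cons 0x9785612340 .nil) (.node 4 8 (.cons 0x9765480123 .nil) (.node 1 4 .nil (.node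 0 2 (.cons 0x9587614320 (.cons 0x9765802341 .nil)) (.leaf 0x9802341567 9 .done) .done) .done) (.node 0 7 (.cons 0x9807654321 .nil) (.leaf 0x9123407856 1 (.leaf 0x9165870432 1 (.leaf 0x9456708123 0 .done))) .done)) (.node 5 7 (.cons 0x9657804321 .nil) (.leaf 0x9432165780 0 (.leaf 0x9043216578 1 (.node 2 7 (.cons 0x9345672180 .nil) (.node 3 7 (.cons 0x9801237654 .nil) (.node 0 5 (.cons 0x9673450812 .nil) (.node 0 7 (.cons 0x9807654321 .nil) .done .done) .done) (.leaf 0x9180432756 8 (.leaf 0x9561804327 2 .done))) (.leaf 0x9043216578 4 .done)))) .done)) .done)) (.leaf 0x9234087651 2 (.node 0 6 (.cons 0x9780651234 .nil) (.node 4 7 (.cons 0x9651234780 .nil) (.leaf 0x9512347806 6 (.leaf 0x9512347806 3 (.leaf 0x9512347806 9 .done))) (.node 0 7 (.cons 0x9807654321 .nil) (.node 4 7 (.cons 0x9651234780 .nil) (.leaf 0x9321560874 9 (.node 3 7 (.cons 0x9801237654 .nil) (.node 0 5 .nil (.node 4 8 (.cons 0x9845673210 (.cons 0x9650123784 (.cons 0x9845012376 .nil))) .done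 .done) .done) .done)) .done) .done)) (.leaf 0x9804321567 9 .done)))) (.node 1 8 (.cons 0x9765432180 .nil) (.node 0 7 (.cons 0x9807654321 .nil) (.leaf 0x9432180765 0 (.leaf 0x9543218076 1 (.node 0 5 .nil (.node 4 6 (.cons 0x9781234650 .nil) (.leaf 0x9467805123 8 (.leaf 0x9507812346 9 (.leaf 0x9087643215 0 .done))) (.node 0 4 (.cons 0x9567804321 .nil) (.leaf 0x9408765123 8 (.node 3 7 (.cons 0x9801237654 .nil) (.node 4 8 (.cons 0x9845673210 .nil) (.leaf 0x9732108456 8 (.leaf 0x9567321084 1 .done)) (.node 0 3 (.cons 0x9430876512 .nil) (.node 0 6 (.cons 0x9806734512 .nil) .done .done) .done)) .done)) .done)) .done))) (.node 0 7 (.cons 0x9807654321 .nil) (.node 3 7 (.cons 0x9801237654 .nil) (.node 1 7 .nil (.node 0 5 (.cons 0x9650871234 (.cons 0x9671805432 .nil)) (.node 4 8 (.cons 0x9845673210 (.cons 0x9650123784 .nil)) (.leaf 0x9765012348 0 (.leaf 0x9567321084 1 .done)) .done) .done) (.node 3 8 (.cons 0x9670834512 .nil) (.node 2 8 (.cons 0x9456732801 .nil)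 (.node 1 4 (.cons 0x9145673280 .nil) (.leaf 0x9567328014 6 (.leaf 0x9376541082 9 .done)) .done) .done) .done)) (.node 0 4 (.cons 0x9567804321 .nil) (.node 1 7 .nil (.node 2 6 (.cons 0x9807126543 .nil) (.node 3 5 (.cons 0x9870435621 .nil) (.leaf 0x9407812653 0 (.leaf 0x9781265340 9 (.leaf 0x9804356217 0 .done))) (.leaf 0x9408715623 4 (.leaf 0x9408715623 1 (.leaf 0x9087156234 0 .done)))) (.node 1 4 .nil (.node 0 5 (.cons 0x9871234056 .nil) (.node 5 7 (.cons 0x9675432180 (.cons 0x9657804123 .nil)) .done .done) .done) .done)) (.leaf 0x9408765123 8 (.leaf 0x9678043215 0 .done))) (.leaf 0x9345670812 1 .done))) .done)) .done)))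
theorem ok_c8_10 : root 8 refs8_10 kn_c8_10 0x4000000704060000000060500000000504000000004010000000010300000000302000000002010700000010 0xffffff6fffafff9fffcfffedfff5fff3fff9ff7d 8 1 5 (.cons 0x9432156780 .nil) rc8_10 = true := by decide +kernel

def kn_c8_11 : List (Nat × Nat × Nat) := []
noncomputable def rc8_11 : T := (.node 0 4 (.cons 0x9567804321 .nil) (.leaf 0x9210456783 3 (.node 0 6 (.cons 0x9783210654 .nil) (.node 4 7 (.cons 0x9654783210 .nil) (.leaf 0x9832106547 4 (.leaf 0x9560123874 5 (.leaf 0x9321065478 6 .done))) (.node 4 7 (.cons 0x9654783210 .nil) (.leaf 0x9832106547 10 (.node 0 2 (.cons 0x9783456021 .nil) (.node 1 7 (.cons 0x9217834560 .nil) (.leaf 0x9345602178 2 (.leaf 0x9345602178 5 .done)) (.node 2 7 (.cons 0x9127834560 .nil) (.leaf 0x9872106543 6 (.node 2 8 .nil (.node 0 3 (.cons 0x9456038721 (.cons 0x9567430821 (.cons 0x9456782301 .nil))) .done .done) .done)) .done)) (.leaf 0x9874560123 5 .done))) (.node 4 7 (.cons 0x9654783210 .nil)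 (.leaf 0x9387456012 8 (.leaf 0x9547832106 10 (.node 2 4 (.cons 0x9783245601 .nil) (.node 0 2 (.cons 0x9654783201 .nil) (.node 1 6 (.cons 0x9238745610 .nil) (.leaf 0x9478320165 5 (.leaf 0x9783201654 1 (.node 0 5 (.cons 0x9876120543 .nil) (.leaf 0x9120543876 3 (.leaf 0x9450216783 10 .done)) .done))) .done) (.node 1 5 (.cons 0x9432156780 .nil) (.leaf 0x9245106783 3 (.node 3 6 (.cons 0x9478015632 .nil) (.leaf 0x9108742365 2 (.leaf 0x9108742365 5 .done)) (.leaf 0x9015423876 10 .done))) .done)) .done))) .done))) (.leaf 0x9123876540 8 (.leaf 0x9540123876 10 (.node 1 5 (.cons 0x9432156780 .nil) (.leaf 0x9876512340 0 (.leaf 0x9804321567 10 (.leaf 0x9678043215 1 .done))) .done))))) (.node 0 4 (.cons 0x9567804321 .nil) (.leaf 0x9210456783 2 (.node 3 7 (.cons 0x9873210456 .nil) (.node 6 8 (.cons 0x9786540123 .nil) (.leaf 0x9104568732 2 (.node 4 8 .nil (.node 0 5 (.cons 0x9678321054 (.cons 0x9765084321 .nil)) (.node 2 6 (.cons 0x9126783450 (.cons 0x9762105483 (.cons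 0x9378405621 .nil))) (.leaf 0x9876210543 2 .done) (.leaf 0x9678432105 1 .done)) (.node 3 6 (.cons 0x9563784012 .nil) (.node 4 6 (.cons 0x9546783210 .nil) .done .done) .done)) (.node 0 3 (.cons 0x9786540321 .nil) (.node 1 7 (.cons 0x9321786540 .nil) (.leaf 0x9230456871 5 (.leaf 0x9045687123 4 .done)) (.node 1 7 (.cons 0x9321786540 .nil) (.leaf 0x9456871230 10 (.leaf 0x9456871230 7 .done)) .done)) .done))) (.node 6 8 (.cons 0x9237865401 .nil) (.leaf 0x9045687321 1 (.node 1 8 (.cons 0x9654018732 .nil) (.node 2 6 (.cons 0x9456237810 .nil) (.leaf 0x9562378104 10 (.leaf 0x9732654018 8 (.leaf 0x9732654018 3 .done))) (.node 0 3 (.cons 0x9218765430 .nil) (.node 0 2 (.cons 0x9345678120 .nil) (.leaf 0x9187654302 6 .done) .done) .done)) (.leaf 0x9865401237 9 .done))) .done)) (.node 1 5 (.cons 0x9432156780 .nil) (.leaf 0x9234087651 2 (.leaf 0x9234087651 3 (.leaf 0x9408765123 9 .done))) (.leaf 0x9401238765 0 (.node 1 5 (.cons 0x9432156780 .nil) (.leaf 0x9876512340 0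 (.leaf 0x9804321567 10 (.leaf 0x9678043215 1 .done))) .done))))) (.node 0 4 (.cons 0x9238765401 .nil) (.leaf 0x9045678321 9 (.node 3 7 (.cons 0x9873210456 .nil) (.node 6 8 (.cons 0x9786540123 .nil) (.node 0 3 .nil (.node 2 4 (.cons 0x9867301245 .nil) (.leaf 0x9568730124 0 (.leaf 0x9783012456 10 .done)) (.node 4 8 (.cons 0x9548673012 .nil) (.node 0 6 (.cons 0x9548760123 .nil) (.node 3 5 (.cons 0x9678453210 .nil) (.leaf 0x9354876012 9 .done) .done) .done) .done)) (.leaf 0x9401237865 5 .done)) (.node 6 8 (.cons 0x9786540123 .nil) (.leaf 0x9104568732 2 (.node 1 7 (.cons 0x9321786540 .nil) (.node 2 6 (.cons 0x9783265401 .nil) (.node 0 2 (.cons 0x9456783201 .nil) (.node 0 3 (.cons 0x9786540321 .nil) (.leaf 0x9230456871 5 .done) .done) (.leaf 0x9387104562 3 .done)) (.node 0 3 (.cons 0x9786540321 .nil) (.leaf 0x9045687123 4 (.leaf 0x9865403217 10 .done)) .done)) .done)) .done)) (.node 1 5 (.cons 0x9432156780 .nil) (.leaf 0x9234087651 2 (.leaf 0x9234087651 3 (.leaf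 0x9408765123 9 .done))) (.leaf 0x9765401238 1 (.node 1 5 (.cons 0x9432156780 .nil) (.leaf 0x9876512340 0 (.leaf 0x9804321567 10 (.leaf 0x9678043215 1 .done))) .done))))) .done)))
theorem ok_c8_11 : root 8 refs8_11 kn_c8_11 0x7000000407060000000060500000000504000000004010000000010300000000302000000002010400000010 0xffffff6fff3fff9fffcfffedfff5fff3fff9ffed 8 3 8 (.cons 0x9456783210 .nil) rc8_11 = true := by decide +kernel

def kn_c8_12 : List (Nat × Nat × Nat) := []
noncomputable def rc8_12 : T := (.node 1 6 (.cons 0x9543216780 .nil) (.leaf 0x9432167805 2 (.node 4 6 (.cons 0x9546780123 .nil) (.node 3 8 (.cons 0x9546783210 .nil) (.leaf 0x9210546783 4 (.node 2 4 (.cons 0x9765083421 .nil) (.node 3 7 (.cons 0x9801245673 .nil) (.leaf 0x9124567380 4 (.leaf 0x9654210837 7 .done)) (.node 1 7 (.cons 0x9438056712 .nil) (.leaf 0x9508342176 6 (.leaf 0x9508342176 3 (.leaf 0x9083421765 2 .done))) .done)) (.leaf 0x9054678321 10 .done))) (.node 6 8 (.cons 0x9768054321 .nil)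 (.node 0 6 .nil (.node 1 8 (.cons 0x9543218760 .nil) (.node 5 7 (.cons 0x9432186750 (.cons 0x9234576180 .nil)) (.leaf 0x9643218057 1 (.leaf 0x9216087543 11 .done)) (.leaf 0x9234506781 2 (.leaf 0x9450678123 11 .done))) .done) (.node 1 7 (.cons 0x9450867123 .nil) (.leaf 0x9543217680 6 (.leaf 0x9086712345 7 (.leaf 0x9680543217 10 .done))) .done)) .done)) (.leaf 0x9612345087 10 .done))) (.node 1 6 (.cons 0x9543216780 .nil) (.node 1 5 .nil (.node 0 2 (.cons 0x9345678021 .nil) (.leaf 0x9345167802 2 (.leaf 0x9167802345 1 .done)) (.node 4 6 (.cons 0x9546780123 .nil) (.node 3 5 (.cons 0x9678012354 .nil) (.leaf 0x9532108764 10 (.node 5 8 (.cons 0x9764580123 .nil) (.node 3 7 (.cons 0x9123764580 .nil) (.leaf 0x9467321085 4 (.leaf 0x9237645801 11 .done)) .done) .done)) (.node 1 3 (.cons 0x9213456780 .nil) (.node 0 2 (.cons 0x9345678021 .nil) (.leaf 0x9134567802 10 (.node 0 6 (.cons 0x9780654312 .nil) (.node 2 7 (.cons 0x9654312780 .nil) (.leaf 0x9543127806 8 (.leaf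 0x9543127806 11 .done)) .done) .done)) (.node 2 5 (.cons 0x9431256780 .nil) (.leaf 0x9678013254 3 (.node 0 4 (.cons 0x9567804312 .nil) (.leaf 0x9652134087 11 (.leaf 0x9087652134 0 .done)) .done)) .done)) .done)) .done)) (.leaf 0x9234508761 2 (.leaf 0x9432167805 0 .done))) (.node 1 6 (.cons 0x9543216780 .nil) (.leaf 0x9543216780 0 (.leaf 0x9054321678 10 (.node 0 6 .nil (.node 1 8 (.cons 0x9543218760 .nil) (.leaf 0x9543218760 0 (.leaf 0x9054321876 10 (.leaf 0x9760543218 4 .done))) (.node 5 7 (.cons 0x9806754321 .nil) (.node 1 7 (.cons 0x9806712345 .nil) (.node 5 8 (.cons 0x9760854321 .nil) (.leaf 0x9458067123 11 (.leaf 0x9608543217 9 .done)) .done) (.node 1 8 (.cons 0x9457608123 .nil) (.leaf 0x9218067543 11 (.leaf 0x9608123457 9 .done)) .done)) .done)) .done))) .done)))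
theorem ok_c8_12 : root 8 refs8_12 kn_c8_12 0x6000000706050000000050300000000304000000004010000000010300000000302000000002010700000010 0xffffff3fff9fffd7ffe7ffedfff5fff3fff9ff7d 8 0 5 (.cons 0x9678054321 .nil) rc8_12 = true := by decide +kernel

def kn_c8_13 : List (Nat × Nat × Nat) := []
noncomputable def rc8_13 : T := (.node 1 6 (.cons 0x9780561234 .nil) (.leaf 0x9087612345 1 (.leaf 0x9543216780 2 (.leaf 0x9054321678 12 (.leaf 0x9780543216 3 .done)))) (.node 0 6 .nil (.node 1 7 (.cons 0x9805671234 .nil) (.leaf 0x9654321780 12 (.leaf 0x9608712345 1 (.leaf 0x9806543217 3 .done))) (.node 0 4 (.cons 0x9567804321 .nil) (.node 1 6 (.cons 0x9780432165 .nil) (.node 0 2 .nil (.node 1 5 (.cons 0x9432156780 .nil) (.leaf 0x9432087615 3 (.leaf 0x9234516780 2 .done)) (.node 1 5 (.cons 0x9876154320 .nil) (.leaf 0x9432087615 3 (.leaf 0x9234516780 2 .done)) .done)) (.node 5 7 (.cons 0x9657804321 .nil) (.leaf 0x9432165780 3 (.leaf 0x9043216578 4 (.leaf 0x9043216578 7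 .done))) .done)) (.node 1 5 (.cons 0x9432156780 .nil) (.node 3 5 (.cons 0x9876043512 .nil) (.node 5 8 (.cons 0x9678512340 .nil) (.node 4 8 (.cons 0x9765084321 .nil) (.node 1 7 (.cons 0x9435608712 .nil) (.leaf 0x9234805671 5 (.leaf 0x9480567123 11 .done)) .done) (.leaf 0x9158760432 7 .done)) .done) (.leaf 0x9234087651 5 (.leaf 0x9408765123 11 .done))) .done)) (.node 0 9 (.cons 0x1908765432 .nil) (.node 2 9 (.cons 0x1923456780 .nil) (.leaf 0x1345678092 3 (.node 0 3 .nil (.node 1 4 (.cons 0x9876541032 (.cons 0x9567803412 .nil)) (.leaf 0x9678032145 3 (.leaf 0x9308765412 5 (.leaf 0x9308765412 3 (.leaf 0x9308765412 9 .done)))) (.node 0 2 .nil (.node 1 3 (.cons 0x9456780132 .nil) (.leaf 0x9678021345 0 (.leaf 0x9087654312 7 (.leaf 0x9087654312 4 .done))) .done) .done)) (.leaf 0x1543290876 1 (.leaf 0x1567809234 12 .done)))) (.node 2 9 (.cons 0x1923456780 .nil) (.leaf 0x1345678092 5 (.leaf 0x1345678092 4 (.node 0 2 .nil (.node 1 8 (.cons 0x9765081234 .nil) (.leaf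 0x9543201876 12 (.leaf 0x9432018765 2 (.node 1 7 (.cons 0x6543290871 .nil) (.leaf 0x9654320817 3 (.leaf 0x9432081765 12 .done)) .done))) .done) (.leaf 0x1567809234 11 .done)))) (.node 2 9 (.cons 0x1923456780 .nil) (.leaf 0x1765432908 9 (.leaf 0x1456780923 3 (.leaf 0x1456780923 5 (.leaf 0x1876543290 5 (.leaf 0x1876543290 9 .done))))) .done))) .done))) (.node 5 8 .nil (.node 4 7 (.cons 0x9650874321 .nil) (.leaf 0x9856743210 1 (.leaf 0x9801234765 12 (.leaf 0x9658012347 3 .done))) (.node 1 5 (.cons 0x9432156780 .nil) (.node 0 4 (.cons 0x9876512340 .nil) (.leaf 0x9321567804 5 (.node 0 2 (.cons 0x9678512043 .nil) (.node 0 6 (.cons 0x9340678512 .nil) (.node 1 6 (.cons 0x9780561234 .nil) (.node 4 7 (.cons 0x9347658021 .nil) (.leaf 0x9321650874 5 (.leaf 0x9165087432 11 .done)) .done) (.leaf 0x9406785123 7 .done)) .done) (.leaf 0x9156780432 11 .done))) (.node 4 8 (.cons 0x9765123480 .nil) (.node 0 7 (.cons 0x9807651234 .nil) (.leaf 0x9123480765 3 (.leaf 0x9512348076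 4 (.leaf 0x9512348076 7 .done))) (.node 3 5 .nil (.node 0 4 (.cons 0x9567804321 .nil) (.leaf 0x9123567840 3 (.leaf 0x9567840123 2 .done)) (.node 0 4 (.cons 0x9567804321 .nil) (.leaf 0x9123567840 3 (.leaf 0x9567840123 2 .done)) .done)) .done)) .done)) (.node 5 9 (.cons 0x4956780123 .nil) (.node 3 9 (.cons 0x4876593210 .nil) (.node 3 5 .nil (.node 2 9 (.cons 0x1923456780 .nil) (.node 1 9 (.cons 0x876591234 (.cons 0x6780192354 .nil)) (.leaf 0x4087653291 5 .done) (.leaf 0x4108765392 4 (.leaf 0x4876539210 11 .done))) .done) (.leaf 0x4210876593 4 (.leaf 0x4210876593 5 (.leaf 0x4087659321 11 .done)))) (.node 3 9 (.cons 0x4932108765 .nil) (.leaf 0x4321087659 1 (.node 2 5 .nil (.node 1 4 (.cons 0x9678014523 (.cons 0x9341256780 .nil)) (.leaf 0x9876523410 3 (.leaf 0x9256780143 9 (.leaf 0x9256780143 3 (.leaf 0x9256780143 5 .done)))) (.node 1 5 (.cons 0x9432156780 .nil) (.node 5 7 (.cons 0x4932108756 .nil) .done .done) .done)) (.leaf 0x4210876593 3 (.leaf 0x4087659321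 12 .done)))) (.node 3 9 (.cons 0x4395678012 .nil) (.leaf 0x4678012395 5 (.leaf 0x4108765932 5 (.leaf 0x4108765932 3 (.leaf 0x4108765932 9 (.leaf 0x4087659321 9 .done))))) .done))) .done))) (.node 0 6 .nil (.node 1 7 (.cons 0x9234560871 .nil) (.leaf 0x9543217806 2 (.leaf 0x9654321780 12 (.leaf 0x9608712345 1 (.leaf 0x9806543217 3 .done)))) (.node 0 4 (.cons 0x9567804321 .nil) (.node 1 5 (.cons 0x9432156780 .nil) (.leaf 0x9321567804 4 (.leaf 0x9321567804 0 (.node 4 7 (.cons 0x9651234780 .nil) (.leaf 0x9512347806 9 (.leaf 0x9512347806 6 (.leaf 0x9512347806 10 .done))) .done))) (.node 1 5 (.cons 0x9432156780 .nil) (.node 5 8 (.cons 0x9678512340 .nil) (.leaf 0x9432158760 9 (.leaf 0x9432158760 11 .done)) (.leaf 0x9234087651 4 (.leaf 0x9234087651 5 .done))) .done)) (.node 0 7 .nil (.node 1 8 (.cons 0x9234567081 .nil) (.leaf 0x9654321807 12 (.leaf 0x9543218076 2 (.leaf 0x9670812345 1 (.leaf 0x9076543218 3 .done)))) (.node 0 9 (.cons 0x1908765432 .nil) (.node 2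 9 (.cons 0x1923456780 .nil) (.leaf 0x1654329087 9 (.leaf 0x1654329087 6 (.leaf 0x1654329087 11 (.leaf 0x1654329087 10 .done)))) (.node 2 9 (.cons 0x1923456780 .nil) (.leaf 0x1345678092 3 (.node 0 2 .nil (.node 3 9 (.cons 0x4932108765 .nil) (.node 1 6 (.cons 0x7809234561 (.cons 0x8543920761 .nil)) (.leaf 0x8705439216 4 (.leaf 0x8705439216 5 .done)) (.leaf 0x1780293456 2 (.leaf 0x1678029345 12 .done))) .done) (.leaf 0x1543290876 1 (.leaf 0x1567809234 12 .done)))) .done)) .done)) .done))) .done))))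
theorem ok_c8_13 : root 8 refs8_13 kn_c8_13 0x6000000706050000000050400000000402000000002010000000010300000000302000000002010700000010 0xffffff3fff9fffcfffebfff9fff5fff3fff9ff7d 8 0 5 .nil rc8_13 = true := by decide +kernel

def kn_c8_14 : List (Nat × Nat × Nat) := []
noncomputable def rc8_14 : T := (.node 2 5 (.cons 0x9876523410 .nil) (.node 4 6 .nil (.node 1 5 (.cons 0x9780156432 (.cons 0x9321546780 .nil)) (.leaf 0x9346780152 8 (.leaf 0x9346780152 0 (.leaf 0x9467801523 4 .done))) (.node 5 7 (.cons 0x9801234675 .nil) (.node 5 8 (.cons 0x9467580123 .nil) (.leaf 0x9012346758 4 (.leaf 0x9210857643 2 .done)) (.node 3 8 (.cons 0x9834675210 .nil) (.leaf 0x9764380125 3 (.leaf 0x9764380125 0 (.leaf 0x9467521083 4 .done))) .done)) (.node 3 5 (.cons 0x9876435210 .nil) (.leaf 0x9346780125 2 (.leaf 0x9801253467 3 .done)) .done))) (.leaf 0x9325678014 13 (.node 2 8 (.cons 0x9567823410 .nil) (.node 0 3 (.cons 0x9145678230 .nil) (.leaf 0x9678230145 13 (.leaf 0x9678230145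 12 (.leaf 0x9328765410 7 .done))) (.node 0 5 (.cons 0x9143287650 .nil) (.leaf 0x9143287650 2 (.leaf 0x9678234105 5 (.node 1 6 (.cons 0x9543216780 .nil) (.node 4 7 (.cons 0x9652347801 .nil) (.leaf 0x9561087432 13 (.leaf 0x9523478016 2 .done)) (.leaf 0x9876123450 1 (.node 0 3 (.cons 0x9782561430 .nil) (.leaf 0x9452167803 13 (.leaf 0x9821430567 8 (.leaf 0x9430876125 8 .done))) .done))) .done))) .done)) (.leaf 0x9678014325 11 .done)))) (.node 2 5 (.cons 0x9432567801 .nil) (.leaf 0x9652341087 8 (.node 1 6 (.cons 0x9543216780 .nil) (.node 0 5 (.cons 0x9876123450 .nil) (.leaf 0x9432167805 0 (.leaf 0x9216780543 13 (.leaf 0x9167805432 3 .done))) (.node 0 5 (.cons 0x9678054321 .nil) (.leaf 0x9432167805 3 (.node 3 6 (.cons 0x9450876321 .nil) (.leaf 0x9541236780 8 (.node 0 2 .nil (.node 1 3 (.cons 0x9780231654 .nil) (.leaf 0x9876543120 6 (.leaf 0x9456780213 8 .done)) (.node 1 7 (.cons 0x9654320871 .nil) (.leaf 0x9234561780 13 (.leaf 0x9208716543 2 .done)) .done))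 (.leaf 0x9087632145 9 .done))) (.leaf 0x9876123450 1 .done))) (.node 0 5 (.cons 0x9678054321 .nil) (.leaf 0x9450876123 13 (.leaf 0x9876123450 11 (.node 0 3 (.cons 0x9543087612 .nil) (.node 1 7 (.cons 0x9801765234 .nil) (.node 4 8 (.cons 0x9843256710 .nil) (.leaf 0x9652348017 7 (.leaf 0x9652348017 11 (.leaf 0x9652348017 12 .done))) (.node 4 8 (.cons 0x9765234801 .nil) (.leaf 0x9308456712 1 (.leaf 0x9567108432 6 (.leaf 0x9256710843 9 .done))) .done)) (.leaf 0x9125430876 8 (.leaf 0x9430876125 9 .done))) .done))) .done))) (.leaf 0x9341087652 13 (.leaf 0x9678014325 13 .done)))) (.node 2 5 (.cons 0x9432567801 .nil) (.node 5 7 (.cons 0x9657801432 .nil) (.node 2 4 (.cons 0x9657801423 .nil) (.node 3 6 (.cons 0x9632145780 .nil) (.leaf 0x9142365780 9 (.node 0 6 (.cons 0x9608754123 .nil) (.leaf 0x9214578063 0 (.leaf 0x9145780632 4 .done)) (.node 0 6 (.cons 0x9608754123 .nil) (.leaf 0x9541236087 12 (.leaf 0x9321457806 2 (.leaf 0x9875412360 6 .done))) .done))) .done)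 (.node 2 6 (.cons 0x9341087562 .nil) (.leaf 0x9410875623 0 (.leaf 0x9108756234 4 (.leaf 0x9410875623 8 .done))) .done)) (.leaf 0x9014325678 8 (.node 0 2 .nil (.node 1 3 (.cons 0x9456780231 .nil) (.leaf 0x9876543120 6 (.leaf 0x9456780213 8 (.leaf 0x9087654312 9 .done))) (.node 1 8 (.cons 0x9765432081 .nil) (.node 3 7 (.cons 0x9456732081 .nil) (.leaf 0x9802376541 3 (.leaf 0x9208145673 4 (.leaf 0x9208145673 0 .done))) (.node 1 7 (.cons 0x9802345671 .nil) (.leaf 0x9654320817 4 (.leaf 0x9456718023 2 .done)) .done)) (.node 1 3 (.cons 0x9456780231 .nil) (.leaf 0x9802314567 3 (.leaf 0x9320876541 2 .done)) .done))) (.leaf 0x9678014325 12 .done)))) (.node 2 5 (.cons 0x9432567801 .nil) (.leaf 0x9087652341 12 (.leaf 0x9087652341 13 (.leaf 0x9087652341 11 (.leaf 0x9087652341 10 .done)))) .done))))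
theorem ok_c8_14 : root 8 refs8_14 kn_c8_14 0x6000000706050000000050200000000201000000001040000000040300000000302000000002010700000010 0xffffff3fff9fffdbfff9ffedffe7fff3fff9ff7d 8 1 4 (.cons 0x9567801432 .nil) rc8_14 = true := by decide +kernel

def kn_p8 : List (Nat × Nat × Nat) := []
noncomputable def rp8 : T := (.node 0 8 (.cons 0x9678012345 .nil) (.leaf 0x9123456780 11 (.leaf 0x9432108765 8 (.leaf 0x9432108765 13 (.leaf 0x9432108765 14 (.leaf 0x9345678012 12 .done))))) (.node 0 8 (.cons 0x9567801234 .nil) (.leaf 0x9123456780 5 (.leaf 0x9123456780 1 (.leaf 0x9321087654 3 (.leaf 0x9456780123 4 (.leaf 0x9345678012 14 .done))))) (.node 0 8 (.cons 0x9456780123 .nil) (.leaf 0x9123456780 7 (.leaf 0x9123456780 6 (.leaf 0x9123456780 0 (.leaf 0x9456780123 3 (.leaf 0x9345678012 13 .done))))) (.node 0 8 (.cons 0x9345678012 .nil) (.leaf 0x9543210876 7 (.leaf 0x9123456780 9 (.leaf 0x9123456780 10 (.leaf 0x9567801234 0 (.leaf 0x9345678012 8 .done))))) (.node 0 8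 (.cons 0x9234567801 .nil) (.leaf 0x9543210876 5 (.leaf 0x9345678012 2 (.leaf 0x9654321087 9 (.leaf 0x9654321087 6 (.leaf 0x9456780123 1 .done))))) (.node 0 8 (.cons 0x9123456780 .nil) (.leaf 0x9234567801 11 (.leaf 0x9234567801 5 (.leaf 0x9234567801 7 (.leaf 0x9654321087 7 (.leaf 0x9654321087 5 (.leaf 0x9345678012 11 .done)))))) .done))))))
theorem ok_p8 : root 8 refs8_15 kn_p8 0x70000000070600000000605000000005040000000040300000000302000000002010000000010 0xffffffffff7fff3fff9fffcfffe7fff3fff9fffd 8 7 8 (.cons 0x9876543210 .nil) rp8 = true := by decide +kernel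

end Pool.Agent.Hhelper35.Rainbow
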