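import Pool.Agent.Hhelper35.Rainbow.Pats

set_option autoImplicit false
set_option maxRecDepth 1000000

namespace Pool.Agent.Hhelper35.Rainbow

open T W

noncomputable def tc9_0_0 : T := (.node 1 7 .nil (.node 0 5 (.cons 0x6509871234 .nil) (.node 4 7 (.cons 0x6509874321 .nil) (.node 3 9 (.cons 0x6501239874 (.cons 0x8932105476 (.cons 0x8932105674 .nil))) (.node 3 8 (.cons 0x6543890712 (.cons 0x9832105476 .nil)) (.node 2 9 (.cons 0x6543892170 (.cons 0x6705438921 .nil)) (.node 0 2 (.cons 0x6512078934 (.cons 0x8934512076 .nil)) (.node 4 8 (.cons 0x4892376510 (.cons 0x6548397021 (.cons 0x6705129843 (.cons 0x9348765120 (.cons 0x3298476501 .nil))))) .done .done) .done) .done) .done) (.node 3 5 (.cons 0x8901235476 .nil) (.node 6 8 (.cons 0x5476890123 (.cons 0x9867450123 (.cons 0x6890174532 .nil))) (.node 1 6 (.cons 0x9053478612 (.cons 0x7435098612 .nil)) .done (.node 1 4 (.cons 0x9053214786 (.cons 0x2371456890 .nil)) (.node 1 6 (.cons 0x9053216874 .nil) (.node 2 4 (.cons 0x6537890142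 (.cons 0x9861247053 (.cons 0x1732456890 .nil))) (.node 0 4 (.cons 0x9861504732 (.cons 0x9042356871 .nil)) .done .done) .done) .done) .done)) .done) .done)) (.node 1 8 (.cons 0x6718905432 .nil) (.node 2 6 (.cons 0x2654370981 (.cons 0x7189056234 (.cons 0x4562371890 .nil))) (.node 2 7 (.cons 0x6509817234 .nil) (.node 3 9 (.cons 0x6270543981 (.cons 0x8934562170 (.cons 0x8932671054 (.cons 0x4398170562 .nil)))) .done .done) (.node 0 8 (.cons 0x4562379081 .nil) (.node 0 6 (.cons 0x9065781234 .nil) (.node 6 9 (.cons 0x4321875690 (.cons 0x5437180962 (.cons 0x2345176980 .nil))) .done .done) .done) .done)) (.node 1 4 (.cons 0x6509871432 .nil) (.node 1 6 .nil (.node 0 4 (.cons 0x9876512340 (.cons 0x7890432165 (.cons 0x9876150432 .nil))) .done (.node 3 8 (.cons 0x8321456790 (.cons 0x6543890712 .nil)) (.node 0 4 (.cons 0x9876512340 (.cons 0x4056179832 .nil)) (.node 0 6 (.cons 0x5406798321 .nil) (.node 0 8 (.cons 0x9765412380 (.cons 0x9712380654 .nil)) .done .done) .done) (.node 2 6 (.cons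 0x9834512670 (.cons 0x9832671054 (.cons 0x9054381762 (.cons 0x4509832671 .nil)))) .done .done)) .done)) (.node 0 4 (.cons 0x9876512340 .nil) (.node 0 6 (.cons 0x9876051432 .nil) (.node 2 4 (.cons 0x8976051423 (.cons 0x5609817342 .nil)) (.node 3 5 (.cons 0x8976053241 (.cons 0x8971423506 .nil)) .done .done) .done) (.node 2 8 (.cons 0x4567328901 (.cons 0x9823710456 (.cons 0x6540982371 .nil))) (.node 1 6 (.cons 0x9056178234 (.cons 0x7165098234 .nil)) .done (.node 3 6 (.cons 0x9821543670 (.cons 0x8971236540 (.cons 0x9054367182 (.cons 0x6328971504 .nil)))) .done .done)) .done)) .done)) .done)) .done)) (.node 1 8 (.cons 0x7654321890 .nil) (.node 1 4 (.cons 0x8901456732 .nil) (.node 1 3 (.cons 0x8907654312 .nil) (.node 1 9 .nil (.node 0 8 (.cons 0x6541809732 (.cons 0x8091234576 (.cons 0x5678091432 .nil))) .done (.node 1 6 .nil (.node 0 5 (.cons 0x8905432176 (.cons 0x7890561234 .nil)) (.node 0 4 (.cons 0x9876512340 (.cons 0x7890432165 (.cons 0x9876150432 .nil))) .done .done) .done)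 .done)) .done) (.node 3 5 (.cons 0x2143567890 .nil) (.node 2 7 (.cons 0x6534127890 .nil) (.node 4 7 (.cons 0x6532109874 .nil) .done .done) .done) .done)) (.node 2 7 (.cons 0x3456721890 .nil) (.node 4 7 .nil (.node 3 5 (.cons 0x6532109874 .nil) (.node 0 5 (.cons 0x6509874321 .nil) (.node 0 4 (.cons 0x9043567812 .nil) (.node 1 4 (.cons 0x8790412356 .nil) .done (.node 2 6 (.cons 0x9876234051 (.cons 0x8126790453 (.cons 0x4350981762 (.cons 0x2673540981 .nil)))) .done .done)) .done) .done) .done) .done) .done)) .done)) (.node 4 7 (.cons 0x6512347890 .nil) (.node 0 5 .nil (.node 3 9 (.cons 0x6501239874 (.cons 0x8932105476 (.cons 0x8932105674 .nil))) (.node 4 6 (.cons 0x4651098732 (.cons 0x8709346512 (.cons 0x2398746510 .nil))) (.node 2 4 (.cons 0x3789015642 (.cons 0x8739015642 (.cons 0x8756421093 .nil))) (.node 2 7 (.cons 0x3465127890 .nil) .done .done) .done) .done) (.node 0 6 (.cons 0x9874321560 .nil) (.node 2 7 .nil (.node 4 6 (.cons 0x4651098732 (.cons 0x3465127890 (.cons 0x1564327890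 .nil))) .done (.node 1 7 .nil (.node 4 6 (.cons 0x6432789051 (.cons 0x2346517890 .nil)) (.node 4 8 (.cons 0x2376548901 (.cons 0x6548901732 (.cons 0x9065178432 .nil))) (.node 2 6 (.cons 0x3462789051 (.cons 0x9845017623 (.cons 0x5098432671 (.cons 0x6237154890 .nil)))) .done .done) .done) .done) .done)) (.node 3 5 .nil (.node 0 8 (.cons 0x4798065123 (.cons 0x4798065321 (.cons 0x9801235476 .nil))) .done (.node 2 7 .nil (.node 4 8 (.cons 0x2376548901 (.cons 0x9843560721 (.cons 0x9843512706 (.cons 0x2734890651 (.cons 0x3276548901 .nil))))) .done (.node 1 7 .nil (.node 3 8 (.cons 0x4798321560 (.cons 0x6543890712 .nil)) (.node 0 8 (.cons 0x4798065123 .nil) (.node 2 9 (.cons 0x6547329801 (.cons 0x8921706534 (.cons 0x6508923471 .nil))) .done .done) .done) .done) .done)) .done)) .done)) .done)) (.node 3 5 (.cons 0x8901235476 .nil) (.node 3 6 (.cons 0x8901236745 .nil) (.node 0 6 (.cons 0x7890651234 .nil) (.node 2 7 .nil (.node 4 9 (.cons 0x4987653210 (.cons 0x8943560721 (.cons 0x8721563490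 (.cons 0x8723651094 .nil)))) .done (.node 1 7 .nil (.node 0 4 (.cons 0x5678904321 (.cons 0x8971235604 (.cons 0x6517890432 .nil))) (.node 2 4 (.cons 0x6510987324 (.cons 0x8901732456 .nil)) .done .done) .done) .done)) (.node 0 5 .nil (.node 6 8 (.cons 0x9867453210 (.cons 0x9867450123 (.cons 0x9051236874 .nil))) (.node 1 3 (.cons 0x8907654312 (.cons 0x7689054312 (.cons 0x5098674312 .nil))) .done .done) .done) .done)) (.node 2 7 (.cons 0x8907215634 .nil) (.node 1 7 .nil (.node 2 4 (.cons 0x6510987324 (.cons 0x8907124365 .nil)) (.node 0 4 (.cons 0x5678904321 (.cons 0x6517890432 .nil)) (.node 2 6 (.cons 0x9870435621 (.cons 0x8904562371 .nil)) .done .done) .done) .done) .done) .done)) .done) .done)) (.node 1 8 (.cons 0x7654321890 .nil) (.node 1 7 .nil (.node 3 8 (.cons 0x6543890712 .nil) (.node 2 7 (.cons 0x6721543890 .nil) (.node 2 4 (.cons 0x3421567890 (.cons 0x8901732456 (.cons 0x6738901542 .nil))) (.node 4 9 (.cons 0x2376549810 (.cons 0x6578321094 (.cons 0x8321094576 (.cons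 0x3894567210 (.cons 0x5678324901 .nil))))) .done .done) .done) (.node 0 5 (.cons 0x6509871234 .nil) (.node 1 6 (.cons 0x8321679054 .nil) (.node 2 4 (.cons 0x3421567890 (.cons 0x9834216705 (.cons 0x9051243876 (.cons 0x4237981650 (.cons 0x8905167342 .nil))))) .done .done) (.node 2 6 (.cons 0x7621543890 (.cons 0x9832671054 (.cons 0x4389051762 (.cons 0x4509832671 .nil)))) (.node 2 9 (.cons 0x4567329810 (.cons 0x6290517834 (.cons 0x6718923450 (.cons 0x4329817650 .nil)))) .done .done) .done)) .done)) (.node 0 5 (.cons 0x8905432176 .nil) (.node 4 7 (.cons 0x6509874321 .nil) (.node 2 7 .nil (.node 3 8 (.cons 0x6543890721 (.cons 0x6721543890 .nil)) (.node 4 6 (.cons 0x7890564321 (.cons 0x4650978321 (.cons 0x3465098721 (.cons 0x5467109832 .nil)))) .done .done) .done) .done) (.node 4 7 .nil (.node 2 9 (.cons 0x4567329810 (.cons 0x6547329810 (.cons 0x6745018923 (.cons 0x1892347650 .nil)))) .done (.node 2 7 .nil (.node 1 4 (.cons 0x8901456732 (.cons 0x6509872341 .nil)) (.node 3 8 (.cons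 0x8321456790 (.cons 0x6543890721 (.cons 0x6721543890 .nil))) .done .done) .done) .done)) .done)) .done)) (.node 3 8 .nil (.node 1 4 (.cons 0x8901456732 (.cons 0x8321456790 .nil)) (.node 0 2 (.cons 0x6541897320 (.cons 0x9021567834 (.cons 0x6541207983 (.cons 0x7651209834 .nil)))) (.node 2 9 (.cons 0x8923765410 (.cons 0x6541073892 (.cons 0x6570921834 .nil))) .done .done) (.node 0 4 (.cons 0x5678904321 (.cons 0x9043876512 .nil)) (.node 1 6 (.cons 0x7890432165 (.cons 0x7983216540 (.cons 0x5612387904 (.cons 0x8321657904 .nil)))) .done (.node 1 9 (.cons 0x6578190432 .nil) (.node 2 4 (.cons 0x3421567890 (.cons 0x6579183240 (.cons 0x8342190765 (.cons 0x8342190756 .nil)))) .done .done) .done)) .done)) (.node 1 9 (.cons 0x2198345670 .nil) (.node 0 5 (.cons 0x6705438912 .nil) (.node 3 5 .nil (.node 2 6 (.cons 0x5438912670 (.cons 0x6219870534 (.cons 0x9078126534 (.cons 0x7098126534 (.cons 0x4538912670 .nil))))) .done .done) (.node 0 8 (.cons 0x8091234576 .nil) (.node 2 8 (.cons 0x4567328901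 .nil) (.node 5 8 .nil (.node 0 6 (.cons 0x9065781234 (.cons 0x4583219760 (.cons 0x8576091234 .nil))) .done .done) .done) .done) .done)) (.node 2 9 (.cons 0x1298345670 .nil) (.node 3 5 .nil (.node 1 6 (.cons 0x4561073892 (.cons 0x4356129870 (.cons 0x8709216534 .nil))) .done (.node 0 5 .nil (.node 1 4 (.cons 0x8901456732 (.cons 0x6507892143 (.cons 0x9214387056 (.cons 0x6798321450 .nil)))) .done (.node 5 9 .nil (.node 0 6 (.cons 0x7065438921 (.cons 0x4387065921 .nil)) (.node 2 4 (.cons 0x3421567890 (.cons 0x2437065981 (.cons 0x8342195670 (.cons 0x6701245983 .nil)))) .done .done) .done) .done)) .done)) (.node 3 5 (.cons 0x6701298354 .nil) (.node 3 9 .nil (.node 4 6 (.cons 0x2983764510 (.cons 0x4653987012 (.cons 0x5643907812 (.cons 0x2187564390 (.cons 0x4657810932 .nil))))) .done .done) .done) .done)) .done)) (.node 0 8 .nil (.node 1 4 (.cons 0x8901456732 (.cons 0x3214567980 (.cons 0x6541809732 .nil))) (.node 2 4 (.cons 0x3421567890 (.cons 0x6542379081 .nil)) (.node 6 9 (.cons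 0x7324569810 (.cons 0x9675124380 (.cons 0x9675421083 (.cons 0x9675423801 .nil)))) .done (.node 1 7 (.cons 0x8901732456 (.cons 0x9801732456 .nil)) .done .done)) .done) (.node 0 5 .nil (.node 2 6 (.cons 0x7621543890 (.cons 0x9834507621 (.cons 0x9051267834 (.cons 0x7621509834 .nil)))) (.node 1 4 (.cons 0x7326541890 (.cons 0x6798321450 (.cons 0x9056237814 .nil))) (.node 1 7 (.cons 0x4562371890 (.cons 0x9805417623 .nil)) .done .done) .done) (.node 3 5 .nil (.node 0 4 (.cons 0x5678904321 (.cons 0x6532187904 (.cons 0x6789043512 .nil))) .done (.node 2 5 (.cons 0x6709834521 .nil) (.node 2 8 (.cons 0x4567328901 .nil) (.node 5 8 .nil (.node 0 4 (.cons 0x9823765401 (.cons 0x6790458321 .nil)) (.node 1 6 (.cons 0x8976123540 (.cons 0x3216798540 (.cons 0x4583216790 (.cons 0x4098523761 .nil)))) .done .done) .done) .done) .done) .done)) .done)) .done)) .done))) (.node 0 8 (.cons 0x9081234576 .nil) (.node 3 8 .nil (.node 6 9 (.cons 0x8123457690 (.cons 0x2183457690 (.cons 0x4576901832 .nil)))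 (.node 0 4 (.cons 0x5678904321 (.cons 0x9043876512 (.cons 0x8340967512 .nil))) (.node 2 5 (.cons 0x6709812543 (.cons 0x9675238104 (.cons 0x6907521834 (.cons 0x4096752381 .nil)))) .done .done) .done) (.node 2 8 (.cons 0x4567328901 .nil) (.node 1 7 .nil (.node 3 6 (.cons 0x5436709812 (.cons 0x8097123654 .nil)) (.node 2 5 (.cons 0x6709812543 (.cons 0x9807125634 (.cons 0x8907125634 .nil))) .done .done) (.node 4 7 .nil (.node 0 3 (.cons 0x4309876512 (.cons 0x6745128903 (.cons 0x8903476512 .nil))) (.node 1 9 (.cons 0x2198345670 (.cons 0x9128307456 (.cons 0x8091234756 .nil))) .done .done) (.node 0 5 (.cons 0x9832105476 .nil) (.node 2 7 (.cons 0x6723450981 .nil) .done .done) .done)) .done)) .done) .done)) (.node 0 6 (.cons 0x7609812345 .nil) (.node 1 7 .nil (.node 5 9 (.cons 0x5906781234 (.cons 0x8176095432 .nil)) (.node 1 4 (.cons 0x9560871432 (.cons 0x6590871432 .nil)) (.node 3 8 (.cons 0x5609783214 (.cons 0x9714560832 (.cons 0x6543890712 .nil))) .done .done) .done) (.node 1 6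 (.cons 0x9081675432 .nil) (.node 1 9 (.cons 0x2345671980 .nil) (.node 1 3 (.cons 0x8907654312 .nil) (.node 1 4 (.cons 0x8097654132 .nil) .done .done) .done) .done) .done)) (.node 0 5 .nil (.node 3 6 (.cons 0x5436709812 (.cons 0x8123679054 .nil)) (.node 2 4 (.cons 0x3421567890 (.cons 0x9815067342 (.cons 0x9763245081 (.cons 0x9870563421 (.cons 0x9876342150 .nil))))) .done .done) (.node 1 7 (.cons 0x6509871234 .nil) (.node 1 6 (.cons 0x9081675432 .nil) (.node 2 7 (.cons 0x9081672345 .nil) (.node 4 7 (.cons 0x6509874321 .nil) .done .done) .done) .done) .done)) .done)) .done)) .done))) .done)))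
noncomputable def tc9_0_1 : T := (.node 3 8 .nil (.node 2 7 (.cons 0x6721543890 .nil) (.node 0 4 (.cons 0x3218976540 (.cons 0x9043876512 (.cons 0x6512789043 (.cons 0x9832104576 (.cons 0x9810456723 .nil))))) .done (.node 4 9 (.cons 0x2376549810 (.cons 0x6512783490 (.cons 0x6754983210 (.cons 0x9456723810 .nil)))) (.node 0 4 (.cons 0x3218976540 (.cons 0x9043876512 (.cons 0x9043872156 (.cons 0x9832104576 .nil)))) (.node 0 8 (.cons 0x9083451276 .nil) (.node 1 9 (.cons 0x6540819723 (.cons 0x6519043872 (.cons 0x6754019832 (.cons 0x6572194380 .nil)))) .done .done) .done) .done) .done)) (.node 1 7 (.cons 0x6543890712 .nil) (.node 2 7 (.cons 0x6543890721 .nil) (.node 4 7 .nil (.node 0 2 (.cons 0x9812076543 (.cons 0x6512098743 (.cons 0x8902156743 .nil))) (.node 0 6 (.cons 0x8906721543 (.cons 0x7438906512 (.cons 0x9745602381 .nil))) .done .done) .done) .done) (.node 2 7 (.cons 0x6543890721 .nil) (.node 4 7 .nil (.node 0 2 (.cons 0x9812076543 (.cons 0x6512098743 (.cons 0x8902156743 .nil)))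 (.node 2 6 (.cons 0x9815437620 (.cons 0x9837451026 (.cons 0x4738901562 (.cons 0x3890745621 .nil)))) .done .done) .done) .done) .done)) (.node 1 6 (.cons 0x5438907612 .nil) (.node 3 9 (.cons 0x2189345670 .nil) (.node 5 9 (.cons 0x8345907612 .nil) (.node 1 3 (.cons 0x8907654312 .nil) (.node 0 3 (.cons 0x4567981230 .nil) (.node 3 5 .nil (.node 2 8 (.cons 0x4567328901 (.cons 0x9078216534 (.cons 0x9076128354 .nil))) .done .done) .done) .done) .done) (.node 1 3 (.cons 0x8907654312 .nil) (.node 1 4 (.cons 0x8901456732 .nil) (.node 0 3 (.cons 0x4567981230 .nil) (.node 1 9 .nil (.node 0 4 (.cons 0x3218976540 (.cons 0x6578912340 (.cons 0x8197654032 .nil))) .done .done) .done) .done) .done) .done)) (.node 0 6 (.cons 0x7609834512 .nil) (.node 2 8 (.cons 0x4567328901 .nil) (.node 3 6 (.cons 0x7906382154 .nil) (.node 2 6 (.cons 0x7621543890 .nil) (.node 2 5 (.cons 0x6709834521 .nil) (.node 2 7 (.cons 0x6721543890 .nil) (.node 0 2 (.cons 0x9812076543 .nil) (.node 2 9 (.cons 0x4567329810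 .nil) .done .done) .done) .done) .done) .done) (.node 2 6 (.cons 0x7621543890 .nil) (.node 3 6 .nil (.node 1 4 (.cons 0x1456732890 (.cons 0x9076382145 (.cons 0x5412638970 (.cons 0x5412890763 .nil)))) .done .done) .done) .done)) (.node 6 9 (.cons 0x4576983210 .nil) (.node 0 8 .nil (.node 0 4 (.cons 0x9765408123 (.cons 0x4089756123 (.cons 0x9804321675 .nil))) .done (.node 2 8 (.cons 0x4567328901 .nil) (.node 6 8 .nil (.node 0 4 (.cons 0x3218976540 (.cons 0x5409768321 (.cons 0x9867540123 .nil))) .done .done) .done) .done)) .done) .done)) .done)) .done))) (.node 4 7 .nil (.node 3 6 (.cons 0x8123654790 (.cons 0x5634709812 .nil)) (.node 0 4 (.cons 0x5632187904 (.cons 0x7890436512 (.cons 0x6321897540 .nil))) (.node 2 4 (.cons 0x3654218970 (.cons 0x5632409781 (.cons 0x9875632401 (.cons 0x5124367890 .nil)))) .done .done) (.node 0 8 (.cons 0x9801236745 .nil) (.node 1 4 (.cons 0x3214567980 (.cons 0x6541809732 (.cons 0x5412367980 .nil))) .done (.node 2 9 (.cons 0x4563701892 (.cons 0x7456329801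 (.cons 0x5476329801 .nil))) (.node 0 4 (.cons 0x5632974081 (.cons 0x9874012365 .nil)) (.node 0 2 (.cons 0x6379815402 (.cons 0x9745632081 (.cons 0x9874365120 .nil))) .done .done) .done) .done)) .done)) (.node 2 7 .nil (.node 1 7 (.cons 0x6543271890 .nil) (.node 1 4 (.cons 0x8901456732 .nil) (.node 0 8 (.cons 0x3214567980 (.cons 0x9801456723 .nil)) (.node 0 4 (.cons 0x5678904321 (.cons 0x6512789043 .nil)) (.node 1 3 (.cons 0x8907654312 (.cons 0x8132790456 (.cons 0x8904315672 .nil))) .done .done) .done) .done) .done) (.node 1 7 .nil (.node 2 4 (.cons 0x3421567890 (.cons 0x8901732456 .nil)) (.node 0 8 (.cons 0x6547908123 (.cons 0x9801765423 .nil)) (.node 2 8 (.cons 0x4567328901 .nil) (.node 0 4 (.cons 0x5678904321 (.cons 0x6540982371 (.cons 0x3289045671 .nil))) .done .done) .done) .done) .done) .done)) (.node 1 4 (.cons 0x8901456732 .nil) (.node 2 4 (.cons 0x3421567890 .nil) (.node 2 7 .nil (.node 0 4 (.cons 0x5678904321 (.cons 0x6512789043 .nil)) (.node 1 6 (.cons 0x8165423790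 (.cons 0x8165409723 (.cons 0x9816572340 .nil))) .done .done) .done) (.node 1 7 (.cons 0x8901732456 .nil) (.node 1 6 (.cons 0x5610987324 .nil) (.node 2 7 .nil (.node 4 8 (.cons 0x9842375610 (.cons 0x5610984273 (.cons 0x3276548901 .nil))) .done .done) .done) .done) .done)) (.node 1 7 .nil (.node 2 4 (.cons 0x3421567890 (.cons 0x8901732456 .nil)) (.node 0 8 (.cons 0x6541809732 (.cons 0x9801765423 .nil)) (.node 2 8 (.cons 0x6541823790 .nil) (.node 0 4 (.cons 0x5678904321 (.cons 0x6540982371 (.cons 0x3289045671 .nil))) .done .done) .done) .done) .done) .done)) .done))) (.node 1 7 .nil (.node 3 8 (.cons 0x6543890712 .nil) (.node 2 7 (.cons 0x6721543890 .nil) (.node 0 4 (.cons 0x5678904321 (.cons 0x9043876512 (.cons 0x9043872156 (.cons 0x9832104576 .nil)))) (.node 1 9 (.cons 0x6519043872 (.cons 0x8340915672 .nil)) .done .done) .done) (.node 0 5 (.cons 0x6509871234 (.cons 0x6718905432 .nil)) (.node 2 4 (.cons 0x3421567890 (.cons 0x9810542376 (.cons 0x8901732456 (.cons 0x6789051243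 .nil)))) (.node 2 9 (.cons 0x1298345670 (.cons 0x6543892170 (.cons 0x6705438921 (.cons 0x8150924376 .nil)))) .done .done) (.node 2 8 (.cons 0x4567328901 .nil) (.node 6 9 (.cons 0x9670543812 (.cons 0x9650712834 (.cons 0x6905437182 (.cons 0x8176905432 .nil)))) .done (.node 0 4 (.cons 0x1238976540 (.cons 0x6540982371 (.cons 0x3289045671 .nil))) (.node 2 5 (.cons 0x6709812543 .nil) (.node 3 5 (.cons 0x6789043512 .nil) .done .done) .done) .done)) .done)) .done)) (.node 1 4 (.cons 0x8901456732 .nil) (.node 0 8 (.cons 0x3214567980 .nil) (.node 1 6 .nil (.node 2 4 (.cons 0x3421567890 (.cons 0x8097324561 (.cons 0x5610987324 (.cons 0x8901673245 .nil)))) .done (.node 1 3 (.cons 0x8907654312 .nil) (.node 1 9 .nil (.node 0 5 (.cons 0x4165089732 (.cons 0x8765091234 (.cons 0x2341987650 .nil))) .done .done) .done) .done)) (.node 2 7 (.cons 0x9801456723 .nil) (.node 4 7 .nil (.node 2 9 (.cons 0x8923765410 (.cons 0x5674108923 .nil)) (.node 1 6 (.cons 0x5617809234 (.cons 0x1657432980 .nil))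 .done .done) .done) .done) .done)) (.node 2 7 .nil (.node 0 6 (.cons 0x9812345760 (.cons 0x8906514372 (.cons 0x5609872341 .nil))) (.node 3 6 (.cons 0x5436709812 (.cons 0x8907214365 .nil)) (.node 0 5 (.cons 0x9870563412 (.cons 0x9812705436 (.cons 0x6327981450 .nil))) .done .done) .done) (.node 4 7 .nil (.node 0 2 (.cons 0x6734518902 (.cons 0x6512098743 (.cons 0x8902156743 .nil))) (.node 2 4 (.cons 0x3421567890 .nil) (.node 0 5 (.cons 0x9873241056 (.cons 0x6509874321 .nil)) (.node 2 6 (.cons 0x2673451890 (.cons 0x8901473265 (.cons 0x3265098741 .nil))) .done .done) .done) .done) .done) .done)) .done)) .done)) .done)))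
noncomputable def tc9_0_2 : T := (.node 1 8 (.cons 0x7654321890 (.cons 0x6754321890 .nil)) (.node 0 4 (.cons 0x3218976540 (.cons 0x6578904321 .nil)) (.node 3 9 (.cons 0x8123976540 .nil) (.node 0 6 (.cons 0x7065439812 (.cons 0x8123975604 .nil)) (.node 2 9 (.cons 0x4567329810 (.cons 0x1892345760 (.cons 0x8129340756 .nil))) .done .done) (.node 0 6 (.cons 0x8123976045 (.cons 0x4576018932 .nil)) (.node 0 3 (.cons 0x4567981230 .nil) (.node 0 2 (.cons 0x9812076543 .nil) (.node 4 9 (.cons 0x2376549810 (.cons 0x4981065732 (.cons 0x7560349812 (.cons 0x5760234981 .nil)))) .done .done) .done) .done) (.node 2 9 (.cons 0x4567329810 (.cons 0x8129340756 .nil)) (.node 0 2 (.cons 0x9812076543 (.cons 0x6570218934 .nil)) (.node 0 6 (.cons 0x1892345760 .nil) (.node 5 8 (.cons 0x7932185604 (.cons 0x6758129340 (.cons 0x3297604581 (.cons 0x9237604581 .nil)))) .done .done) .done) .done) .done))) (.node 0 6 (.cons 0x5406798123 (.cons 0x9812340675 .nil)) (.node 1 6 (.cons 0x8904321675 .nil) (.node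 0 5 (.cons 0x7890561234 .nil) (.node 2 9 (.cons 0x4567329810 (.cons 0x2981654370 (.cons 0x7618923450 (.cons 0x6750432981 .nil)))) .done .done) (.node 0 3 (.cons 0x4567981230 (.cons 0x4309875612 .nil)) (.node 0 2 (.cons 0x9812076543 .nil) (.node 0 5 (.cons 0x9812340576 .nil) (.node 2 9 (.cons 0x4567329810 (.cons 0x4305761892 (.cons 0x4375618920 .nil))) .done .done) .done) .done) .done)) (.node 2 9 (.cons 0x4567329810 (.cons 0x1892345760 (.cons 0x5760432981 .nil))) (.node 1 3 (.cons 0x8907654312 (.cons 0x8132975406 (.cons 0x6045798132 (.cons 0x6075431892 .nil)))) (.node 3 9 (.cons 0x2189345670 (.cons 0x4576018932 .nil)) .done .done) .done) .done)) (.node 2 9 (.cons 0x4567329810 (.cons 0x6754018923 .nil)) (.node 0 6 (.cons 0x7329810654 (.cons 0x9234065781 (.cons 0x7560432981 .nil))) .done (.node 3 9 (.cons 0x2189345670 (.cons 0x6754018932 .nil)) (.node 4 6 (.cons 0x4657893210 (.cons 0x8129346570 .nil)) (.node 0 2 (.cons 0x3204567981 (.cons 0x5640239781 (.cons 0x5643702981 (.cons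 0x9810237645 .nil)))) .done (.node 0 2 (.cons 0x3204567981 (.cons 0x9346578120 (.cons 0x3465789021 (.cons 0x6457398102 .nil)))) .done .done)) .done) .done)) .done))) (.node 0 6 (.cons 0x9065781234 (.cons 0x7560981234 .nil)) (.node 4 7 (.cons 0x3218974560 .nil) (.node 1 7 (.cons 0x8906712345 .nil) (.node 0 8 (.cons 0x9806712345 .nil) (.node 2 9 (.cons 0x1765432980 (.cons 0x8921706543 (.cons 0x5432980671 (.cons 0x6574329081 .nil)))) .done .done) .done) (.node 3 6 (.cons 0x5479812360 (.cons 0x8123609745 (.cons 0x4365709812 .nil))) .done .done)) (.node 0 4 (.cons 0x5678904321 (.cons 0x9043218756 (.cons 0x6578904321 .nil))) (.node 2 6 (.cons 0x2654370981 (.cons 0x3260457981 (.cons 0x6237540981 .nil))) (.node 0 8 (.cons 0x4562379081 .nil) .done (.node 1 4 (.cons 0x8901456732 (.cons 0x5798140623 (.cons 0x9065781432 (.cons 0x2657341890 .nil)))) .done .done)) .done) .done)) (.node 4 8 (.cons 0x2376548901 (.cons 0x6754890123 .nil)) (.node 3 9 (.cons 0x7654893210 (.cons 0x6754893210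 .nil)) (.node 0 6 (.cons 0x4390657812 (.cons 0x7560123984 .nil)) (.node 1 5 (.cons 0x4398706512 (.cons 0x4879321560 (.cons 0x7890651234 .nil))) .done (.node 0 4 (.cons 0x5678904321 (.cons 0x9321048756 (.cons 0x6578904321 .nil))) (.node 4 7 (.cons 0x6574893210 .nil) (.node 0 2 (.cons 0x9845673201 (.cons 0x6578120934 (.cons 0x8120934756 .nil))) (.node 0 5 (.cons 0x6509347812 .nil) (.node 2 4 (.cons 0x9056781243 .nil) .done .done) .done) .done) .done) .done)) (.node 0 3 (.cons 0x7654309812 (.cons 0x6754309812 .nil)) (.node 2 9 (.cons 0x5678129034 (.cons 0x6578129034 (.cons 0x8129034576 .nil))) .done (.node 2 4 (.cons 0x5670124893 (.cons 0x9034218756 (.cons 0x6570124893 .nil))) (.node 2 6 (.cons 0x3079845621 (.cons 0x9810375426 (.cons 0x4812657930 (.cons 0x9843075621 (.cons 0x4893075621 .nil))))) .done .done) .done)) .done)) (.node 0 6 (.cons 0x9065784321 (.cons 0x7560984321 .nil)) (.node 1 7 (.cons 0x3217984560 (.cons 0x8456097123 (.cons 0x8906712345 .nil))) .done (.node 3 6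 (.cons 0x9012365784 (.cons 0x7563210984 .nil)) (.node 2 7 (.cons 0x3654812790 (.cons 0x5436721890 .nil)) (.node 0 5 (.cons 0x4879056321 .nil) (.node 1 4 (.cons 0x8901456732 (.cons 0x9870563412 (.cons 0x5632148790 (.cons 0x8972360541 .nil)))) .done .done) .done) (.node 0 8 (.cons 0x9801236754 .nil) (.node 1 4 (.cons 0x8901456732 (.cons 0x3214567980 (.cons 0x8097654123 (.cons 0x5412367980 .nil)))) .done .done) .done)) .done)) (.node 0 4 (.cons 0x5678904321 (.cons 0x6578904321 .nil)) (.node 2 9 (.cons 0x5678129043 (.cons 0x6578129043 .nil)) (.node 3 6 (.cons 0x8457632901 (.cons 0x8129043675 .nil)) (.node 1 5 (.cons 0x7632984510 (.cons 0x5109236784 .nil)) (.node 3 5 (.cons 0x8129763540 (.cons 0x7635481092 .nil)) .done .done) (.node 0 8 (.cons 0x5436708921 (.cons 0x6345708921 (.cons 0x9801236754 .nil))) .done .done)) (.node 0 3 (.cons 0x7654309812 (.cons 0x6754309812 .nil)) (.node 1 7 (.cons 0x6571032984 (.cons 0x6571843092 .nil)) (.node 2 6 (.cons 0x5489017623 (.cons 0x9845710326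 (.cons 0x7562903481 (.cons 0x6230984571 .nil)))) .done .done) (.node 4 7 (.cons 0x5674309812 .nil) (.node 1 9 (.cons 0x5674891032 (.cons 0x6574891032 .nil)) (.node 1 4 (.cons 0x8901456732 .nil) (.node 2 6 (.cons 0x5623789014 (.cons 0x3267548910 (.cons 0x8143756290 (.cons 0x7562309841 .nil)))) .done .done) .done) (.node 3 6 (.cons 0x8901236745 .nil) (.node 0 8 (.cons 0x9801236745 (.cons 0x4365708921 (.cons 0x9801236754 .nil))) .done (.node 3 5 (.cons 0x6357481092 .nil) (.node 0 2 (.cons 0x3567920481 (.cons 0x9021875634 .nil)) (.node 0 6 (.cons 0x5329847601 (.cons 0x4357602981 .nil)) .done .done) .done) .done)) .done)) .done)) .done)) (.node 6 8 (.cons 0x9867540123 .nil) (.node 1 6 (.cons 0x8904321675 .nil) (.node 1 5 (.cons 0x8679045123 (.cons 0x2379861540 .nil)) .done (.node 0 8 (.cons 0x9087561234 .nil) .done .done)) (.node 5 8 (.cons 0x6758904321 .nil) (.node 1 6 (.cons 0x3216798540 (.cons 0x9857612340 .nil)) (.node 2 9 (.cons 0x6732985401 (.cons 0x1689237540 (.cons 0x3298457610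 (.cons 0x5761048923 .nil)))) .done (.node 2 8 (.cons 0x4567328901 (.cons 0x9045732861 (.cons 0x9016754823 .nil))) .done .done)) (.node 0 8 .nil (.node 1 5 (.cons 0x4321567890 (.cons 0x6798045123 (.cons 0x9087651234 .nil))) .done (.node 1 5 (.cons 0x6798045123 (.cons 0x9087651234 .nil)) .done .done)) .done)) .done)) .done)) .done))) .done))) (.node 1 5 (.cons 0x4321567890 .nil) (.node 1 7 .nil (.node 0 5 (.cons 0x6509871234 .nil) (.node 3 5 .nil (.node 4 8 (.cons 0x2376548901 (.cons 0x6710984532 (.cons 0x6548901732 (.cons 0x2176534890 .nil)))) (.node 2 9 (.cons 0x6548923710 (.cons 0x6701298453 (.cons 0x4892376501 .nil))) .done .done) (.node 2 5 .nil (.node 1 3 (.cons 0x8907654312 (.cons 0x8907652134 (.cons 0x6789052134 .nil))) (.node 1 4 (.cons 0x6789052143 (.cons 0x8901456732 (.cons 0x6523789014 .nil))) .done .done) (.node 4 7 (.cons 0x6532109874 .nil) (.node 2 7 .nil (.node 1 3 (.cons 0x8907654312 (.cons 0x8905431276 (.cons 0x8905672134 .nil))) (.node 0 8 (.cons 0x9807654312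 (.cons 0x9807213456 (.cons 0x9801327654 (.cons 0x9805431276 .nil)))) .done .done) (.node 4 6 (.cons 0x7890123564 (.cons 0x6435098721 (.cons 0x8901723546 .nil))) (.node 2 4 (.cons 0x9870124653 (.cons 0x9873246501 .nil)) .done .done) .done)) (.node 3 8 (.cons 0x9832105476 .nil) (.node 4 9 (.cons 0x8765123490 (.cons 0x2156783490 (.cons 0x4901567832 .nil))) (.node 0 6 (.cons 0x8712349065 (.cons 0x8943217560 (.cons 0x6094783251 .nil))) .done .done) (.node 2 6 (.cons 0x5438907621 (.cons 0x9834507621 (.cons 0x8907126534 .nil))) (.node 4 6 (.cons 0x8321546790 (.cons 0x1238976450 (.cons 0x8354621790 (.cons 0x1764523890 .nil)))) .done .done) .done)) .done)) .done)) .done)) (.node 0 8 (.cons 0x9087651234 .nil) (.node 3 6 (.cons 0x4563217980 (.cons 0x8097123654 .nil)) (.node 4 7 (.cons 0x8097456321 (.cons 0x8901236745 .nil)) .done (.node 4 9 (.cons 0x8765123490 (.cons 0x2175634980 (.cons 0x6517809432 .nil))) (.node 0 6 (.cons 0x1234987560 (.cons 0x8712349065 .nil)) .done (.node 0 4 (.cons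 0x5678904321 .nil) (.node 0 6 (.cons 0x8945760123 .nil) .done .done) .done)) .done)) (.node 3 8 (.cons 0x6790832154 (.cons 0x6543890712 .nil)) (.node 4 9 (.cons 0x7654983210 (.cons 0x6710549832 (.cons 0x2389456710 .nil))) (.node 0 6 (.cons 0x4978321560 (.cons 0x8321794560 (.cons 0x8943217560 .nil))) .done (.node 3 5 (.cons 0x6780943512 .nil) (.node 0 6 (.cons 0x9806754321 (.cons 0x6083549712 (.cons 0x6089435712 .nil))) .done .done) .done)) .done) .done)) .done)) (.node 0 5 (.cons 0x8905432176 .nil) (.node 4 7 (.cons 0x6509874321 .nil) (.node 3 5 .nil (.node 4 6 (.cons 0x7890564321 (.cons 0x6435098712 (.cons 0x8901764532 .nil))) (.node 0 8 (.cons 0x6450897123 (.cons 0x1235467980 (.cons 0x9801764532 .nil))) .done .done) .done) .done) (.node 0 8 (.cons 0x9087651234 .nil) (.node 4 7 (.cons 0x9087432156 .nil) (.node 2 7 .nil (.node 1 3 (.cons 0x8907654312 (.cons 0x9807213456 (.cons 0x8907213456 .nil))) (.node 4 6 (.cons 0x9807564312 (.cons 0x4650897231 (.cons 0x9087215643 (.cons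 0x9087234651 .nil)))) .done .done) .done) .done) (.node 3 5 .nil (.node 4 6 (.cons 0x8097645123 (.cons 0x1235467980 (.cons 0x8097645321 (.cons 0x9087643512 (.cons 0x8901764532 .nil))))) .done (.node 3 8 (.cons 0x6790832154 .nil) (.node 1 3 (.cons 0x8907654312 .nil) (.node 4 7 (.cons 0x6532109874 .nil) (.node 2 7 .nil (.node 1 6 (.cons 0x8097453216 (.cons 0x9805432761 (.cons 0x4356127890 .nil))) .done .done) .done) .done) .done) .done)) .done)) .done)) .done)) (.node 4 7 (.cons 0x6512347890 .nil) (.node 2 7 .nil (.node 4 6 (.cons 0x4651098732 (.cons 0x3465127890 (.cons 0x1564327890 .nil))) (.node 3 9 (.cons 0x2156439870 (.cons 0x8934651270 .nil)) (.node 1 8 (.cons 0x7654321890 (.cons 0x6543981270 (.cons 0x3456721890 .nil))) (.node 0 5 (.cons 0x3218976450 (.cons 0x6723450981 .nil)) (.node 1 4 (.cons 0x8793214650 (.cons 0x8721439056 .nil)) .done .done) .done) (.node 6 8 (.cons 0x4576893210 (.cons 0x2739864510 (.cons 0x7239864510 (.cons 0x3986451270 .nil)))) .done .done)) .done)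 (.node 1 7 .nil (.node 2 4 (.cons 0x6510987324 (.cons 0x8901732456 .nil)) (.node 4 6 (.cons 0x9873246510 (.cons 0x2346517890 .nil)) (.node 0 8 (.cons 0x9087432156 (.cons 0x9801732456 (.cons 0x9801765423 .nil))) (.node 0 4 (.cons 0x5678904321 (.cons 0x6517890432 .nil)) (.node 6 9 (.cons 0x4237896510 (.cons 0x8965712340 (.cons 0x5698710423 .nil))) .done .done) .done) .done) .done) .done) .done)) (.node 3 5 (.cons 0x8901235476 .nil) (.node 3 6 (.cons 0x8901236745 .nil) (.node 2 5 .nil (.node 0 4 (.cons 0x5678904321 (.cons 0x9870436521 (.cons 0x9874015236 .nil))) (.node 1 3 (.cons 0x8907654312 (.cons 0x8907652134 .nil)) (.node 4 6 (.cons 0x4651098732 (.cons 0x5213467890 (.cons 0x9874632510 .nil))) .done .done) .done) (.node 2 7 .nil (.node 0 8 (.cons 0x6321547980 (.cons 0x9807215436 (.cons 0x9801547236 .nil))) (.node 0 4 (.cons 0x5678904321 (.cons 0x9872365104 .nil)) (.node 4 6 (.cons 0x4651098732 (.cons 0x3465127890 (.cons 0x1564327890 .nil))) .done .done) .done) (.node 1 7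 .nil (.node 2 6 (.cons 0x8901547326 .nil) (.node 0 4 (.cons 0x5678904321 (.cons 0x8971236540 (.cons 0x6517890432 .nil))) (.node 0 6 (.cons 0x8974512360 (.cons 0x8906234715 .nil)) .done .done) .done) .done) .done)) .done)) (.node 2 7 (.cons 0x8907215634 .nil) (.node 1 7 .nil (.node 2 4 (.cons 0x6510987324 (.cons 0x8907124365 .nil)) (.node 2 6 (.cons 0x8907436215 .nil) (.node 2 5 (.cons 0x8907125634 .nil) (.node 4 8 (.cons 0x3651248970 (.cons 0x1732654890 (.cons 0x1526374890 (.cons 0x5236748901 .nil)))) .done .done) .done) .done) .done) .done) .done)) .done) .done)) (.node 1 8 (.cons 0x7654321890 .nil) tc9_0_1 .done))) (.node 1 5 (.cons 0x4321567890 .nil) tc9_0_0 .done)))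
noncomputable def tc9_0_3 : T := (.node 1 5 (.cons 0x4321567890 (.cons 0x6512347890 .nil)) (.node 3 5 (.cons 0x6532109874 .nil) (.node 1 4 (.cons 0x2143567890 .nil) (.node 4 9 (.cons 0x4987653210 .nil) (.node 0 2 (.cons 0x3498765120 (.cons 0x8765349021 (.cons 0x8712094356 (.cons 0x6789435120 .nil)))) (.node 4 8 (.cons 0x6798453210 (.cons 0x9843512076 (.cons 0x9847651023 .nil))) .done .done) (.node 2 4 (.cons 0x8765324901 (.cons 0x6789423510 .nil)) (.node 2 8 (.cons 0x4567328901 (.cons 0x6547328901 (.cons 0x8235490176 (.cons 0x6532871490 .nil)))) .done .done) .done)) (.node 2 8 (.cons 0x4567328901 (.cons 0x6547328901 (.cons 0x6709821453 .nil))) (.node 6 9 (.cons 0x5341289670 (.cons 0x2896735410 (.cons 0x7698235410 (.cons 0x3541289670 .nil)))) (.node 3 8 (.cons 0x9654382170 (.cons 0x2154389670 .nil)) .done .done) (.node 0 5 (.cons 0x6509874321 .nil) (.node 6 9 (.cons 0x3451289670 (.cons 0x4351289670 (.cons 0x4350967821 (.cons 0x3289674510 (.cons 0x8769053214 .nil))))) .done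 (.node 1 6 (.cons 0x5098761432 (.cons 0x9823476150 (.cons 0x4537610982 .nil))) .done .done)) .done)) .done)) (.node 4 9 (.cons 0x8749012356 .nil) (.node 1 4 (.cons 0x8901456732 .nil) (.node 6 9 (.cons 0x8709653412 (.cons 0x8741096532 (.cons 0x8741235690 .nil))) (.node 2 8 (.cons 0x2896514370 (.cons 0x5698237410 (.cons 0x4732896510 (.cons 0x8214709653 .nil)))) (.node 0 8 (.cons 0x7694351280 (.cons 0x7432156980 .nil)) (.node 0 5 (.cons 0x3496715082 (.cons 0x6509874321 .nil)) .done .done) .done) .done) (.node 1 8 (.cons 0x2187653490 .nil) (.node 6 9 (.cons 0x4356907812 (.cons 0x4781096532 (.cons 0x4781235690 .nil))) (.node 0 8 (.cons 0x5123476980 (.cons 0x5690817432 .nil)) (.node 0 2 (.cons 0x7349651802 (.cons 0x8965120743 (.cons 0x9435120876 (.cons 0x2089437651 .nil)))) .done .done) .done) (.node 0 3 (.cons 0x2156789430 (.cons 0x5674309812 .nil)) (.node 2 6 (.cons 0x4987301562 (.cons 0x9810374562 (.cons 0x9034781265 (.cons 0x8947301562 (.cons 0x8749035621 .nil))))) .done (.node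 0 5 (.cons 0x6789430512 (.cons 0x6509874321 .nil)) (.node 2 9 (.cons 0x6789234150 (.cons 0x6534781290 (.cons 0x6743051892 (.cons 0x8129035476 .nil)))) .done .done) .done)) .done)) .done)) (.node 0 3 (.cons 0x4987651032 (.cons 0x8947651032 .nil)) (.node 6 9 (.cons 0x4307896512 (.cons 0x2156987430 (.cons 0x4789651230 .nil))) (.node 0 2 (.cons 0x1567894320 (.cons 0x8947651023 .nil)) (.node 3 9 (.cons 0x8765102394 .nil) .done (.node 0 5 (.cons 0x6789432051 (.cons 0x8967432051 .nil)) .done .done)) .done) (.node 0 2 (.cons 0x1567894320 (.cons 0x8947651023 .nil)) (.node 3 8 (.cons 0x8320154976 (.cons 0x9478320156 .nil)) (.node 0 4 (.cons 0x9876512340 .nil) (.node 6 9 (.cons 0x7896512340 (.cons 0x8965104732 (.cons 0x5476983012 (.cons 0x8967451230 .nil)))) .done .done) .done) (.node 6 9 (.cons 0x8715694320 (.cons 0x8965120743 (.cons 0x3478965120 (.cons 0x8967451230 .nil)))) .done .done)) .done)) .done)) .done)) (.node 1 8 (.cons 0x7654321890 .nil) (.node 3 9 (.cons 0x2189345670 .nil)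 (.node 0 6 (.cons 0x5432189760 (.cons 0x8743906512 (.cons 0x5607439812 (.cons 0x7456018932 .nil)))) .done (.node 0 5 (.cons 0x6798123450 (.cons 0x6509874321 (.cons 0x4765018932 .nil))) (.node 1 9 (.cons 0x8765091234 (.cons 0x8743219056 .nil)) .done .done) .done)) (.node 1 4 (.cons 0x8901456732 .nil) (.node 0 8 (.cons 0x9801456732 .nil) (.node 3 5 (.cons 0x9801235476 (.cons 0x6532109874 .nil)) (.node 2 9 (.cons 0x8923765410 (.cons 0x6534129870 (.cons 0x8921435670 (.cons 0x6708921453 .nil)))) .done (.node 6 9 (.cons 0x4356907812 (.cons 0x8096743512 (.cons 0x2187435690 (.cons 0x4781096532 (.cons 0x4781235690 .nil))))) .done .done)) (.node 2 9 (.cons 0x8923765410 (.cons 0x5674108923 (.cons 0x6547180923 .nil))) (.node 1 6 (.cons 0x5617809234 (.cons 0x8092347165 .nil)) .done .done) .done)) (.node 1 3 (.cons 0x8907654312 .nil) (.node 3 6 (.cons 0x5634709812 .nil) (.node 1 6 (.cons 0x5612347890 .nil) (.node 2 5 (.cons 0x4370981652 (.cons 0x6345218970 (.cons 0x9078125634 (.cons 0x8901652374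 (.cons 0x4732561890 .nil))))) .done .done) (.node 2 9 (.cons 0x8921345670 (.cons 0x8743651290 (.cons 0x8129074365 (.cons 0x8129074563 .nil)))) .done .done)) (.node 1 9 .nil (.node 0 5 (.cons 0x6509874321 (.cons 0x8765091234 (.cons 0x6509187432 .nil))) .done (.node 1 6 (.cons 0x5612347890 .nil) (.node 0 5 (.cons 0x8976123450 (.cons 0x8765091234 (.cons 0x9874321650 .nil))) (.node 0 8 (.cons 0x5432167980 (.cons 0x7619805432 .nil)) .done .done) .done) .done)) .done)) .done)) (.node 2 8 (.cons 0x4567328901 (.cons 0x6547328901 .nil)) (.node 1 9 (.cons 0x4567328910 (.cons 0x6547328910 .nil)) (.node 3 9 (.cons 0x1289345670 (.cons 0x6547012893 .nil)) .done .done) (.node 0 3 (.cons 0x4309876512 (.cons 0x6745128903 (.cons 0x8903476512 .nil))) (.node 2 9 (.cons 0x8765129034 (.cons 0x8743092156 .nil)) (.node 1 4 (.cons 0x8290374156 .nil) (.node 0 8 (.cons 0x9801456732 (.cons 0x9280374156 (.cons 0x5674108923 .nil))) .done .done) .done) (.node 2 6 (.cons 0x2673451890 (.cons 0x9037451826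 (.cons 0x4730982651 .nil))) (.node 2 7 (.cons 0x6512789034 .nil) .done .done) .done)) .done)) .done))) .done)) (.node 2 7 .nil (.node 5 7 .nil (.node 1 8 (.cons 0x7654321890 (.cons 0x3456721890 (.cons 0x6754321890 .nil))) (.node 3 9 (.cons 0x2189345670 (.cons 0x6543981270 .nil)) (.node 4 8 (.cons 0x5674893210 (.cons 0x3276548901 (.cons 0x6574893210 (.cons 0x6754890123 .nil)))) (.node 4 6 (.cons 0x5643981270 (.cons 0x2189346570 (.cons 0x8465721093 (.cons 0x4657239810 .nil)))) .done .done) .done) (.node 0 6 (.cons 0x9810654732 (.cons 0x4327560981 (.cons 0x9065781234 .nil))) .done .done)) (.node 3 8 (.cons 0x6543890721 .nil) (.node 1 4 (.cons 0x8901456732 (.cons 0x6754123890 .nil)) (.node 0 4 (.cons 0x5678904321 (.cons 0x9041238756 (.cons 0x6754098321 .nil))) (.node 2 6 (.cons 0x9837014562 (.cons 0x9078341265 (.cons 0x7562389041 (.cons 0x9041783265 .nil)))) .done .done) (.node 4 6 (.cons 0x8321097645 .nil) (.node 1 5 (.cons 0x4321567890 (.cons 0x4651098732 .nil)) (.node 0 2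 (.cons 0x9021438765 (.cons 0x9870215643 (.cons 0x6754120983 .nil))) (.node 0 8 (.cons 0x6451089732 (.cons 0x9801546732 (.cons 0x9802765143 .nil))) .done .done) .done) (.node 1 5 (.cons 0x4321567890 (.cons 0x2389764510 (.cons 0x1564327890 .nil))) .done .done)) .done)) (.node 1 8 (.cons 0x7654321890 (.cons 0x3456721890 .nil)) (.node 0 6 (.cons 0x9810654732 (.cons 0x7234560981 .nil)) (.node 5 8 (.cons 0x9760123854 (.cons 0x6097218543 (.cons 0x6097234581 .nil))) .done (.node 1 4 (.cons 0x4189065732 (.cons 0x5609814372 .nil)) (.node 5 9 (.cons 0x7432189560 (.cons 0x4389560721 (.cons 0x3472189560 (.cons 0x6723895410 .nil)))) .done .done) .done)) (.node 1 3 (.cons 0x8907654312 (.cons 0x8907213456 .nil)) (.node 4 8 (.cons 0x2376548901 (.cons 0x5672134890 (.cons 0x3276548901 .nil))) (.node 1 4 (.cons 0x8901456732 .nil) (.node 1 9 (.cons 0x2198345670 (.cons 0x6543891270 .nil)) .done .done) .done) .done) .done)) (.node 1 3 (.cons 0x8907654312 (.cons 0x8907213456 .nil)) (.node 0 8 (.cons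 0x9807654312 (.cons 0x9807213456 (.cons 0x9801327654 .nil))) .done (.node 4 8 (.cons 0x2376548901 (.cons 0x5672134890 (.cons 0x3276548901 .nil))) (.node 1 8 (.cons 0x7654321890 (.cons 0x3456721890 .nil)) (.node 3 9 (.cons 0x2189345670 (.cons 0x6543981270 .nil)) .done .done) .done) .done)) .done))) .done)) (.node 5 7 .nil (.node 1 8 (.cons 0x7654321890 (.cons 0x6754321890 .nil)) (.node 2 8 (.cons 0x4567328901 .nil) (.node 3 8 (.cons 0x9071283456 .nil) (.node 1 3 (.cons 0x8907654312 (.cons 0x6570982134 .nil)) (.node 2 9 (.cons 0x4567329810 .nil) (.node 3 9 (.cons 0x2189345670 .nil) .done .done) .done) .done) (.node 1 6 (.cons 0x3457612890 .nil) (.node 3 8 (.cons 0x7098345612 .nil) (.node 0 8 (.cons 0x9801654732 .nil) (.node 0 5 (.cons 0x9761805432 (.cons 0x9874321650 .nil)) .done .done) .done) (.node 3 8 (.cons 0x4389075612 .nil) (.node 0 5 (.cons 0x9834705612 (.cons 0x4328905761 .nil)) (.node 4 8 (.cons 0x7561234890 (.cons 0x9057612843 (.cons 0x9017654832 .nil))) .done .done)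 .done) .done)) .done)) (.node 0 6 (.cons 0x9810654732 (.cons 0x9065781234 (.cons 0x9812347560 .nil))) (.node 2 9 (.cons 0x6547329810 (.cons 0x1892347560 .nil)) (.node 3 9 (.cons 0x1893274560 (.cons 0x4756018932 .nil)) .done .done) .done) (.node 4 8 (.cons 0x2376548901 (.cons 0x6754890123 .nil)) (.node 3 6 (.cons 0x3654890721 (.cons 0x9012365784 (.cons 0x9847563210 .nil))) (.node 1 6 (.cons 0x7561234890 .nil) (.node 0 5 (.cons 0x6123487905 (.cons 0x9874321650 (.cons 0x1632798450 .nil))) .done .done) .done) (.node 3 9 (.cons 0x8456710932 .nil) (.node 1 6 (.cons 0x8456172390 (.cons 0x2398475610 .nil)) (.node 2 6 (.cons 0x2654739810 (.cons 0x8457932610 (.cons 0x2657184390 .nil))) .done .done) (.node 2 9 (.cons 0x8456710923 .nil) (.node 0 3 (.cons 0x7654309812 (.cons 0x6574810392 (.cons 0x6754309812 .nil))) (.node 2 6 (.cons 0x3745629810 (.cons 0x6218975430 (.cons 0x3926574810 (.cons 0x9812657430 .nil)))) .done .done) .done) .done)) .done)) .done))) .done) .done)) .done))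
noncomputable def tc9_0_4 : T := (.node 3 8 (.cons 0x6543890712 .nil) (.node 4 6 (.cons 0x5467983210 (.cons 0x8321097645 .nil)) (.node 3 5 (.cons 0x8976453210 (.cons 0x7890123564 .nil)) (.node 1 5 (.cons 0x4651098732 .nil) (.node 0 8 (.cons 0x6451089732 (.cons 0x9801546732 .nil)) (.node 3 9 (.cons 0x2156439870 .nil) (.node 0 3 (.cons 0x9870346512 .nil) (.node 2 8 (.cons 0x9764532801 (.cons 0x4651073982 (.cons 0x9823764510 (.cons 0x9821546703 .nil)))) .done .done) .done) .done) (.node 0 2 (.cons 0x9021567834 (.cons 0x2098734651 (.cons 0x5120987643 (.cons 0x7651209834 .nil)))) (.node 1 8 (.cons 0x9812076543 (.cons 0x6734518902 .nil)) (.node 0 5 (.cons 0x7890564321 .nil) (.node 0 8 (.cons 0x9087643512 .nil) .done .done) .done) .done) .done)) .done) (.node 3 5 (.cons 0x8354679012 .nil) (.node 4 9 (.cons 0x4987653210 .nil) (.node 0 6 (.cons 0x8976012354 (.cons 0x5387946012 (.cons 0x8943560712 (.cons 0x4987106532 .nil)))) .done (.node 2 4 (.cons 0x5678324901 (.cons 0x6532498710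 (.cons 0x9835421076 .nil))) (.node 1 5 (.cons 0x4901567832 (.cons 0x3789015642 (.cons 0x3421567890 .nil))) .done (.node 0 5 (.cons 0x3249876501 (.cons 0x9423876501 (.cons 0x3465098712 (.cons 0x6798324501 .nil)))) .done .done)) .done)) (.node 2 7 (.cons 0x6453897210 (.cons 0x9012783564 .nil)) (.node 2 6 (.cons 0x7983546210 (.cons 0x5387901264 (.cons 0x8907126534 .nil))) (.node 2 5 (.cons 0x3897645210 .nil) (.node 0 8 (.cons 0x9087125643 (.cons 0x9087125346 .nil)) (.node 1 4 (.cons 0x5410897623 (.cons 0x9083276541 (.cons 0x6541270983 (.cons 0x5378901462 .nil)))) .done .done) .done) .done) .done) .done)) (.node 1 5 (.cons 0x2389764510 (.cons 0x2346517890 .nil)) (.node 4 9 (.cons 0x8765123490 (.cons 0x2156783490 .nil)) (.node 0 8 (.cons 0x9087156432 (.cons 0x6517809432 .nil)) (.node 2 5 (.cons 0x9087643251 (.cons 0x6497832510 (.cons 0x9087152346 (.cons 0x6490871523 .nil)))) .done .done) .done) (.node 2 4 (.cons 0x3421567890 (.cons 0x8901732456 (.cons 0x6738901542 .nil))) (.node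 0 8 (.cons 0x9801732456 (.cons 0x9801765423 .nil)) (.node 0 2 (.cons 0x9021567834 (.cons 0x5643209871 (.cons 0x5102467983 .nil))) (.node 1 9 (.cons 0x6519873420 (.cons 0x8915673420 .nil)) .done .done) .done) (.node 1 9 (.cons 0x8342190765 .nil) (.node 2 7 (.cons 0x6543891270 (.cons 0x3872465190 .nil)) .done .done) .done)) .done)) .done))) (.node 4 9 (.cons 0x7654983210 (.cons 0x2389456710 .nil)) (.node 0 5 (.cons 0x6798321054 (.cons 0x8712349056 (.cons 0x6509871234 .nil))) (.node 2 4 (.cons 0x6798324501 (.cons 0x6501789423 (.cons 0x9423871056 (.cons 0x9832450176 .nil)))) .done .done) (.node 0 5 (.cons 0x6798321054 (.cons 0x6509871234 .nil)) (.node 2 9 (.cons 0x1294387650 (.cons 0x6543892170 (.cons 0x8349217650 .nil))) (.node 0 3 (.cons 0x4567038921 (.cons 0x6503871294 (.cons 0x8305492176 (.cons 0x8305671294 .nil)))) .done .done) (.node 2 4 (.cons 0x6798324501 (.cons 0x8901732456 (.cons 0x9832450176 .nil))) (.node 3 9 (.cons 0x4239876501 (.cons 0x6501789324 .nil)) (.node 1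 8 (.cons 0x6507189342 (.cons 0x6718905432 (.cons 0x2439817650 .nil))) .done .done) (.node 3 9 (.cons 0x5678394210 (.cons 0x6501783942 .nil)) (.node 1 8 (.cons 0x6718905432 (.cons 0x8176509342 .nil)) (.node 1 9 (.cons 0x2198345670 .nil) .done .done) .done) .done)) .done)) .done)) (.node 0 5 (.cons 0x6509871234 .nil) (.node 4 7 (.cons 0x9832105476 .nil) (.node 1 8 (.cons 0x6798123450 .nil) (.node 0 8 (.cons 0x6798054321 .nil) (.node 2 6 (.cons 0x5438907621 (.cons 0x9834507621 (.cons 0x9081743265 (.cons 0x4562371890 .nil)))) (.node 4 6 (.cons 0x8109732645 (.cons 0x6450189732 (.cons 0x5097812643 (.cons 0x5467109832 .nil)))) .done .done) .done) (.node 2 6 (.cons 0x5438907621 (.cons 0x9834507621 (.cons 0x8126790543 (.cons 0x9054762183 .nil)))) (.node 1 4 (.cons 0x9834126705 (.cons 0x7341890562 (.cons 0x5098143762 .nil))) .done .done) .done)) .done) (.node 4 9 (.cons 0x8765094321 (.cons 0x8712349056 .nil)) (.node 4 8 (.cons 0x2376548901 (.cons 0x6548901732 .nil)) (.node 6 9 (.cons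 0x9671054832 (.cons 0x9671238450 .nil)) (.node 1 5 (.cons 0x2154389670 (.cons 0x6978432150 (.cons 0x4387690512 .nil))) .done (.node 2 5 (.cons 0x6783490521 (.cons 0x8349671250 (.cons 0x4896523710 (.cons 0x3849671250 .nil)))) .done .done)) (.node 1 9 (.cons 0x6509178432 .nil) (.node 0 8 (.cons 0x9176508432 .nil) (.node 4 7 (.cons 0x5674321980 (.cons 0x8091234765 .nil)) .done (.node 0 4 (.cons 0x5678904321 .nil) (.node 6 8 (.cons 0x8679054321 (.cons 0x9712345086 (.cons 0x9054386712 (.cons 0x5409867123 .nil)))) .done .done) .done)) .done) .done)) (.node 2 8 (.cons 0x4567328901 (.cons 0x3289456710 (.cons 0x6509432871 .nil))) (.node 2 6 (.cons 0x5438907621 (.cons 0x5498326710 (.cons 0x8326710945 .nil))) (.node 4 8 (.cons 0x2376548901 (.cons 0x9483267105 (.cons 0x6548901732 .nil))) (.node 2 9 (.cons 0x3487650921 (.cons 0x6509217843 .nil)) .done .done) .done) .done) .done)) (.node 2 6 (.cons 0x5438907621 (.cons 0x9832671054 (.cons 0x4509832671 .nil))) (.node 1 8 (.cons 0x8179054326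 (.cons 0x9054381762 .nil)) (.node 0 8 (.cons 0x9762345081 (.cons 0x9718054326 .nil)) .done .done) (.node 1 8 (.cons 0x7189056234 .nil) (.node 0 6 (.cons 0x5432189760 .nil) (.node 2 9 (.cons 0x4567329810 (.cons 0x8179234506 (.cons 0x9238176054 .nil))) .done .done) (.node 2 4 (.cons 0x9832450176 (.cons 0x5624371890 (.cons 0x5098176243 .nil))) (.node 1 5 (.cons 0x3426798150 (.cons 0x8150976243 (.cons 0x7342651890 .nil))) .done (.node 0 8 (.cons 0x9081734265 .nil) (.node 1 5 (.cons 0x4326798051 (.cons 0x9087651234 (.cons 0x6243790815 .nil))) .done .done) .done)) .done)) .done)) .done))) .done))) (.node 4 7 .nil (.node 1 5 (.cons 0x4321567890 (.cons 0x6512347890 .nil)) (.node 0 8 (.cons 0x9087651234 (.cons 0x9087432156 .nil)) (.node 3 5 (.cons 0x9801235476 (.cons 0x6532109874 .nil)) (.node 4 9 (.cons 0x6780943512 (.cons 0x6710894532 .nil)) (.node 2 6 (.cons 0x8945623710 (.cons 0x1265349870 (.cons 0x8709435621 (.cons 0x8943562170 (.cons 0x6217089453 .nil))))) .done .done) .done)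 (.node 2 9 (.cons 0x1765432980 (.cons 0x6547108923 (.cons 0x8092347651 .nil))) (.node 1 3 (.cons 0x4567132980 (.cons 0x6547132980 (.cons 0x8092315476 (.cons 0x8092315674 .nil)))) .done .done) .done)) (.node 1 8 (.cons 0x7654321890 .nil) (.node 5 7 (.cons 0x6574321890 .nil) (.node 0 6 (.cons 0x9065781234 (.cons 0x7432189065 .nil)) (.node 3 6 (.cons 0x5634709812 .nil) (.node 2 4 (.cons 0x9810736542 (.cons 0x9078124365 (.cons 0x8790634215 (.cons 0x5124367890 .nil)))) .done (.node 0 2 (.cons 0x8976345120 (.cons 0x9874365120 (.cons 0x8902156743 .nil))) (.node 2 6 (.cons 0x5436218970 (.cons 0x5621890743 (.cons 0x9815473620 .nil))) .done .done) .done)) (.node 2 7 (.cons 0x3274560981 .nil) .done .done)) (.node 2 7 .nil (.node 0 3 (.cons 0x4309876512 (.cons 0x8903472156 (.cons 0x8903451276 .nil))) (.node 0 6 (.cons 0x4756098123 (.cons 0x9817234560 .nil)) .done .done) (.node 3 9 (.cons 0x8127093456 .nil) (.node 0 6 (.cons 0x8934560712 (.cons 0x8743906512 (.cons 0x4756098123 .nil)))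 (.node 2 9 (.cons 0x7189234560 (.cons 0x8156092743 (.cons 0x3298174560 .nil))) .done .done) (.node 5 8 (.cons 0x6581270934 (.cons 0x4765893210 (.cons 0x6581093274 .nil))) .done .done)) .done)) .done)) (.node 2 8 (.cons 0x4567328901 (.cons 0x6547328901 .nil)) (.node 1 9 (.cons 0x4567328910 (.cons 0x6547328910 .nil)) (.node 3 9 (.cons 0x1289345670 (.cons 0x6547012893 .nil)) .done .done) (.node 0 3 (.cons 0x4309876512 (.cons 0x6745128903 (.cons 0x8903476512 .nil))) (.node 1 3 (.cons 0x8907654312 (.cons 0x6547098213 .nil)) (.node 0 2 (.cons 0x6734518902 (.cons 0x6512098743 (.cons 0x8902156743 .nil))) (.node 0 4 (.cons 0x6513740982 (.cons 0x5674098231 .nil)) .done .done) .done) (.node 2 6 (.cons 0x2673451890 (.cons 0x9037451826 (.cons 0x4730982651 .nil))) (.node 5 9 (.cons 0x3459812670 (.cons 0x6237459810 (.cons 0x3267459810 (.cons 0x6218954703 .nil)))) .done .done) .done)) .done)) .done)) .done)) (.node 2 7 .nil (.node 1 8 (.cons 0x7654321890 (.cons 0x3456721890 .nil)) (.node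 5 7 .nil (.node 0 6 (.cons 0x9817234560 (.cons 0x9065781234 (.cons 0x7560981234 .nil))) .done (.node 1 4 (.cons 0x8901456732 .nil) (.node 0 4 (.cons 0x5678904321 .nil) (.node 1 5 (.cons 0x4321567890 (.cons 0x6512789043 .nil)) (.node 1 3 (.cons 0x8907654312 .nil) (.node 1 6 (.cons 0x4098756123 (.cons 0x2734561890 .nil)) .done .done) .done) (.node 1 3 (.cons 0x8907654312 (.cons 0x6572318904 .nil)) (.node 6 9 (.cons 0x4096578132 (.cons 0x5698172340 (.cons 0x5690431872 (.cons 0x8134569072 (.cons 0x3271896540 .nil))))) .done .done) .done)) (.node 1 5 (.cons 0x4321567890 .nil) (.node 4 9 (.cons 0x8765123490 (.cons 0x6518723490 .nil)) (.node 0 4 (.cons 0x5678904321 (.cons 0x9043278156 .nil)) (.node 0 8 (.cons 0x6549801732 (.cons 0x6549801723 .nil)) .done .done) .done) .done) .done)) .done)) (.node 5 7 (.cons 0x6754321890 .nil) (.node 3 8 (.cons 0x6543890721 .nil) (.node 0 6 (.cons 0x4576098123 (.cons 0x5432760981 .nil)) (.node 5 9 (.cons 0x5906781234 (.cons 0x6590123874 (.cons 0x7609543812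 (.cons 0x6745901832 .nil)))) .done (.node 5 9 (.cons 0x8123476095 (.cons 0x4389560712 (.cons 0x5906743812 (.cons 0x6745901832 .nil)))) .done .done)) (.node 0 4 (.cons 0x5678904321 (.cons 0x9832765401 .nil)) (.node 6 9 (.cons 0x5698712340 (.cons 0x5698340721 (.cons 0x2738965401 (.cons 0x7238965401 (.cons 0x3896540721 .nil))))) .done (.node 0 6 (.cons 0x4576098123 (.cons 0x5432760981 .nil)) (.node 5 9 (.cons 0x5906781234 (.cons 0x9543812706 (.cons 0x9543812760 (.cons 0x6723895401 .nil)))) .done (.node 5 9 (.cons 0x4067598321 (.cons 0x4389560721 (.cons 0x5983406721 (.cons 0x6723895401 .nil)))) .done .done)) .done)) .done)) .done) .done)) (.node 5 7 .nil (.node 1 8 (.cons 0x7654321890 (.cons 0x6754321890 .nil)) (.node 0 6 (.cons 0x9065781234 (.cons 0x7560981234 .nil)) (.node 0 8 (.cons 0x9806712345 .nil) (.node 2 9 (.cons 0x1765432980 (.cons 0x8921706543 (.cons 0x6574329081 .nil))) .done .done) (.node 1 4 (.cons 0x8901456732 (.cons 0x6098145723 .nil)) (.node 1 9 (.cons 0x5609187432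 (.cons 0x8190657432 .nil)) .done .done) .done)) (.node 1 4 (.cons 0x8901456732 .nil) (.node 1 5 (.cons 0x4321567890 .nil) (.node 1 6 (.cons 0x4321657890 .nil) (.node 0 5 (.cons 0x7890561234 (.cons 0x7890561432 .nil)) .done (.node 0 4 (.cons 0x5678904321 (.cons 0x8904321675 (.cons 0x8904165723 .nil))) .done .done)) .done) (.node 0 4 (.cons 0x5678904321 (.cons 0x6578904321 .nil)) (.node 4 8 (.cons 0x2376548901 .nil) (.node 6 8 (.cons 0x5410986732 (.cons 0x3214576890 .nil)) (.node 0 5 (.cons 0x3276890541 .nil) (.node 1 9 (.cons 0x2376548910 (.cons 0x6875091432 (.cons 0x8675091432 .nil))) .done (.node 1 6 (.cons 0x9871650432 (.cons 0x9057861432 (.cons 0x6123489750 .nil))) .done .done)) .done) (.node 0 6 (.cons 0x9845601732 (.cons 0x9065784321 (.cons 0x9843217560 .nil))) .done .done)) .done) .done)) .done)) .done) .done)) .done)) (.node 4 7 .nil tc9_0_3 .done)))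
noncomputable def tc9_0_5 : T := (.node 0 8 (.cons 0x1234567980 .nil) (.node 1 7 (.cons 0x6543217980 (.cons 0x8097123456 .nil)) (.node 4 7 (.cons 0x6547980123 .nil) (.node 0 4 (.cons 0x5678904321 .nil) (.node 5 7 (.cons 0x9832104576 (.cons 0x6754098321 .nil)) .done (.node 0 5 (.cons 0x8905432176 .nil) (.node 1 4 (.cons 0x8901456732 (.cons 0x6541089732 (.cons 0x9056783412 .nil))) (.node 2 6 (.cons 0x5623789014 (.cons 0x8973265410 (.cons 0x9078341265 (.cons 0x7098341265 (.cons 0x5409832671 .nil))))) .done .done) .done) .done)) .done) .done) (.node 3 5 (.cons 0x6798012354 .nil) (.node 5 7 .nil (.node 1 6 (.cons 0x5432167980 (.cons 0x9083457612 (.cons 0x4321657890 (.cons 0x4389075612 .nil)))) .done (.node 1 5 (.cons 0x4321567890 .nil) (.node 0 6 (.cons 0x9806754321 (.cons 0x8790651234 (.cons 0x6089751234 .nil))) (.node 0 4 (.cons 0x5678904321 (.cons 0x8790432156 .nil)) (.node 1 6 (.cons 0x9875612340 (.cons 0x5432167980 (.cons 0x8097612345 (.cons 0x8975612340 (.cons 0x8790435612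 .nil))))) .done .done) .done) (.node 2 6 (.cons 0x9087621534 (.cons 0x3451267980 (.cons 0x8097621543 (.cons 0x8097621534 .nil)))) (.node 2 7 (.cons 0x9083451276 (.cons 0x6721543890 .nil)) .done .done) .done)) (.node 1 4 (.cons 0x8901456732 (.cons 0x9083214576 (.cons 0x6754123890 .nil))) (.node 1 8 (.cons 0x7654321890 .nil) (.node 1 5 (.cons 0x4321567890 .nil) (.node 0 2 (.cons 0x9021567834 (.cons 0x8973201456 (.cons 0x7651209834 .nil))) (.node 2 6 (.cons 0x4562379810 (.cons 0x8097621543 (.cons 0x8097621534 (.cons 0x9814562073 .nil)))) .done .done) .done) (.node 0 2 (.cons 0x9021876534 (.cons 0x8120976543 (.cons 0x8973201456 (.cons 0x8120976534 .nil)))) .done .done)) (.node 2 6 (.cons 0x5623789014 (.cons 0x8973265410 (.cons 0x9078341265 (.cons 0x4126570983 (.cons 0x9078356214 .nil))))) .done (.node 2 8 (.cons 0x6534128790 (.cons 0x6790821453 .nil)) (.node 0 3 (.cons 0x6543079821 (.cons 0x5679821430 .nil)) .done .done) .done))) .done))) (.node 4 6 (.cons 0x7890123564 (.cons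 0x5467980123 (.cons 0x8790123564 .nil))) (.node 1 6 (.cons 0x5432167980 (.cons 0x8097612345 .nil)) (.node 2 4 (.cons 0x2465378901 (.cons 0x9801673245 (.cons 0x8790124653 (.cons 0x5610987324 (.cons 0x5378901642 .nil))))) .done (.node 2 4 (.cons 0x2465378901 (.cons 0x5379801642 (.cons 0x8790124653 (.cons 0x7098342165 .nil)))) (.node 3 6 (.cons 0x9836701245 (.cons 0x8790124635 .nil)) .done .done) .done)) (.node 1 7 (.cons 0x5467109832 .nil) (.node 1 5 (.cons 0x4321567890 .nil) (.node 2 8 (.cons 0x9764510823 (.cons 0x1564328790 (.cons 0x3280976451 .nil))) .done (.node 0 2 (.cons 0x9871023564 (.cons 0x9021567834 (.cons 0x6435179802 .nil))) (.node 0 4 (.cons 0x5678904321 (.cons 0x9043876512 .nil)) .done .done) .done)) (.node 2 8 (.cons 0x9710823546 (.cons 0x9071283456 (.cons 0x6453280971 .nil))) .done .done)) .done)) .done)) (.node 0 4 (.cons 0x5678904321 .nil) (.node 1 5 (.cons 0x4321567890 (.cons 0x8790432156 (.cons 0x9043876512 .nil))) (.node 1 9 (.cons 0x6519780432 (.cons 0x5678340912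 .nil)) (.node 2 6 (.cons 0x7623451980 (.cons 0x5438912670 (.cons 0x9154380762 (.cons 0x8043267915 (.cons 0x8045197623 .nil))))) .done (.node 5 8 (.cons 0x6587904321 (.cons 0x7658340912 (.cons 0x7658321904 .nil))) .done .done)) (.node 4 9 (.cons 0x2156783490 (.cons 0x4901567832 .nil)) (.node 2 4 (.cons 0x8732490156 (.cons 0x3245679801 .nil)) (.node 4 7 (.cons 0x6510947832 .nil) (.node 6 9 (.cons 0x7496510832 (.cons 0x5124387690 (.cons 0x2387496510 (.cons 0x7690832451 .nil)))) .done .done) .done) (.node 0 6 (.cons 0x8760943215 .nil) (.node 5 7 (.cons 0x6754983210 (.cons 0x8321576094 .nil)) .done .done) .done)) .done)) (.node 6 8 (.cons 0x2379865401 .nil) (.node 1 6 (.cons 0x7890432165 (.cons 0x8790432165 .nil)) (.node 2 9 (.cons 0x4561073892 (.cons 0x5438921670 (.cons 0x7043892165 (.cons 0x2983704561 .nil)))) .done (.node 4 8 (.cons 0x5610489732 .nil) (.node 0 5 (.cons 0x7612348905 (.cons 0x8432167905 .nil)) .done .done) .done)) (.node 1 7 (.cons 0x3217986540 (.cons 0x8654097123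 .nil)) (.node 0 5 (.cons 0x4509867123 .nil) (.node 1 4 (.cons 0x8901456732 (.cons 0x9786504123 (.cons 0x5687904123 (.cons 0x9056783412 .nil)))) .done .done) .done) .done)) (.node 5 7 (.cons 0x9832104576 (.cons 0x6754098321 .nil)) (.node 1 7 (.cons 0x6543890712 .nil) (.node 4 7 .nil (.node 1 5 (.cons 0x4321567890 (.cons 0x6512347890 (.cons 0x2156743890 .nil))) .done .done) (.node 0 5 (.cons 0x8905432176 .nil) (.node 6 8 (.cons 0x6897123450 (.cons 0x9045768321 .nil)) (.node 1 6 (.cons 0x7890561234 (.cons 0x6179805432 (.cons 0x8790561234 .nil))) (.node 2 9 (.cons 0x6834571290 (.cons 0x7509216834 (.cons 0x5768340921 (.cons 0x3867540921 .nil)))) .done .done) .done) .done) .done)) .done) .done))) .done))) (.node 4 7 (.cons 0x6547983210 (.cons 0x8321097456 .nil)) (.node 3 5 (.cons 0x8901235476 .nil) (.node 0 8 (.cons 0x9801235476 (.cons 0x6798012354 .nil)) (.node 0 4 (.cons 0x5678904321 .nil) (.node 4 9 (.cons 0x8794012356 (.cons 0x6538794012 .nil)) (.node 4 6 (.cons 0x9783210465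 (.cons 0x9783564012 .nil)) (.node 2 4 (.cons 0x3245679801 (.cons 0x5642378901 .nil)) .done .done) .done) (.node 1 6 (.cons 0x9870435612 (.cons 0x2165438970 (.cons 0x8790432165 (.cons 0x8970435612 .nil)))) (.node 2 4 (.cons 0x9873561042 (.cons 0x3245679801 (.cons 0x5612438790 .nil))) .done .done) .done)) .done) (.node 3 6 (.cons 0x8901236745 (.cons 0x4563897012 .nil)) (.node 1 6 (.cons 0x7098345612 (.cons 0x2165438970 .nil)) (.node 1 7 (.cons 0x6543890712 .nil) (.node 0 6 (.cons 0x9834560712 (.cons 0x4560179832 .nil)) .done .done) (.node 2 4 (.cons 0x7389016542 (.cons 0x6542107983 (.cons 0x5612438790 .nil))) (.node 2 8 (.cons 0x4567328901 (.cons 0x3798245610 (.cons 0x8245379016 (.cons 0x6128354790 .nil)))) .done .done) .done)) .done) .done)) .done) (.node 1 8 (.cons 0x7654321890 .nil) (.node 2 8 (.cons 0x4567328901 .nil) (.node 1 6 (.cons 0x2890734561 (.cons 0x8237901654 .nil)) (.node 0 6 (.cons 0x9732810654 .nil) (.node 0 8 (.cons 0x1234567980 .nil) (.node 1 7 (.cons 0x6543280971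 (.cons 0x8906712345 .nil)) .done .done) (.node 0 4 (.cons 0x5678904321 (.cons 0x9732810456 (.cons 0x6540189732 .nil))) (.node 2 5 (.cons 0x6709834521 (.cons 0x4523897601 (.cons 0x9760183254 (.cons 0x3254067981 .nil)))) .done .done) .done)) (.node 4 6 (.cons 0x5467983210 (.cons 0x5461097382 .nil)) (.node 1 5 (.cons 0x4321567890 (.cons 0x9078215643 (.cons 0x4651098732 .nil))) .done (.node 0 2 (.cons 0x9812076543 (.cons 0x9734561820 (.cons 0x5467981023 .nil))) (.node 1 5 (.cons 0x4321567890 (.cons 0x1564328790 (.cons 0x7981564320 .nil))) .done .done) .done)) .done)) (.node 3 9 (.cons 0x2189345670 .nil) (.node 2 6 (.cons 0x5438907621 (.cons 0x8126543970 .nil)) (.node 0 8 (.cons 0x7089345621 (.cons 0x4562379801 .nil)) (.node 1 4 (.cons 0x1456289370 (.cons 0x3970826541 (.cons 0x8973265410 (.cons 0x5410897623 .nil)))) (.node 1 5 (.cons 0x9834512670 (.cons 0x2651439780 (.cons 0x6215438970 .nil))) .done .done) .done) (.node 2 9 (.cons 0x4567329810 .nil) (.node 0 2 (.cons 0x9812076543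 (.cons 0x8120793456 .nil)) (.node 0 5 (.cons 0x7056218934 (.cons 0x8126507934 .nil)) (.node 2 4 (.cons 0x7056243981 (.cons 0x6798324501 (.cons 0x6501879324 .nil))) .done .done) .done) .done) .done)) (.node 0 3 (.cons 0x6543079812 .nil) (.node 1 5 (.cons 0x4321567890 (.cons 0x4309876512 .nil)) (.node 4 8 (.cons 0x2376548901 (.cons 0x6512348790 (.cons 0x9034876512 (.cons 0x6790154832 .nil)))) .done (.node 1 3 (.cons 0x8907654312 .nil) (.node 4 6 (.cons 0x4651098732 (.cons 0x5467983210 (.cons 0x8321097645 (.cons 0x7890346512 (.cons 0x4651328790 .nil))))) .done .done) .done)) (.node 1 3 (.cons 0x8907654312 .nil) (.node 3 6 (.cons 0x7098213654 (.cons 0x4563128970 .nil)) .done .done) .done)) .done)) .done)) (.node 0 8 (.cons 0x1234567980 .nil) (.node 1 5 (.cons 0x4321567890 (.cons 0x9087651234 .nil)) (.node 0 6 (.cons 0x5609781234 (.cons 0x4510679832 .nil)) (.node 2 4 (.cons 0x9815607342 (.cons 0x6542379810 (.cons 0x8109732456 (.cons 0x8970651243 (.cons 0x9801542376 .nil))))) .done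 .done) (.node 1 4 (.cons 0x8901456732 (.cons 0x9801456732 .nil)) (.node 0 6 (.cons 0x5609781234 (.cons 0x5609781432 .nil)) (.node 2 6 (.cons 0x7621543890 (.cons 0x4562379810 (.cons 0x8345126790 (.cons 0x8145623790 .nil)))) .done .done) (.node 1 9 (.cons 0x7654321980 .nil) (.node 4 7 (.cons 0x5674321980 (.cons 0x8091234765 .nil)) .done .done) .done)) .done)) (.node 0 6 (.cons 0x5609781234 .nil) (.node 5 7 (.cons 0x9832106754 (.cons 0x9065781234 (.cons 0x4576098321 .nil))) .done (.node 2 6 (.cons 0x5438907621 (.cons 0x4562379810 (.cons 0x8109732654 .nil))) (.node 2 8 (.cons 0x4567328901 .nil) (.node 3 5 (.cons 0x4538907621 (.cons 0x4356079812 (.cons 0x4356079821 .nil))) (.node 4 8 (.cons 0x2376548901 (.cons 0x7906534812 .nil)) .done .done) .done) .done) .done)) .done)) (.node 1 5 (.cons 0x4321567890 .nil) (.node 4 6 (.cons 0x5467983210 (.cons 0x8321097645 (.cons 0x2389764510 .nil))) (.node 2 5 (.cons 0x6709834521 (.cons 0x9018376452 (.cons 0x4652378901 (.cons 0x3890764521 .nil))))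 .done (.node 3 5 (.cons 0x7645389012 (.cons 0x8354679012 .nil)) (.node 0 6 (.cons 0x4356097812 (.cons 0x4510679832 .nil)) (.node 2 4 (.cons 0x2465378901 (.cons 0x9870653421 (.cons 0x6534218790 (.cons 0x9870651243 (.cons 0x9873510642 .nil))))) .done (.node 2 4 (.cons 0x2465378901 (.cons 0x7981243560 (.cons 0x6534218790 (.cons 0x2437981560 (.cons 0x8973510642 .nil))))) .done .done)) .done) .done)) (.node 4 8 (.cons 0x2376548901 (.cons 0x6512348790 (.cons 0x6790154832 .nil))) (.node 6 8 (.cons 0x9076834512 (.cons 0x4510976832 (.cons 0x4512386790 .nil))) .done .done) (.node 0 6 (.cons 0x7890651234 (.cons 0x8790651234 .nil)) (.node 2 6 (.cons 0x5438907621 (.cons 0x6215438970 (.cons 0x5438126790 .nil))) (.node 3 5 (.cons 0x4538907621 (.cons 0x4538126790 .nil)) (.node 2 4 (.cons 0x6510987324 (.cons 0x2437981560 (.cons 0x6245183790 (.cons 0x7981243560 (.cons 0x5342189760 .nil))))) .done .done) .done) (.node 0 5 (.cons 0x6790543812 .nil) (.node 0 8 (.cons 0x1234567980 .nil) (.node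 1 7 (.cons 0x6543217980 (.cons 0x8097123456 (.cons 0x8905432176 .nil))) .done .done) .done) .done)) .done))) .done))) .done)))
noncomputable def uc9_0_0 : T := (.node 3 8 (.cons 0x4567983210 .nil) tc9_0_5 (.node 1 7 .nil tc9_0_4 (.node 5 7 .nil tc9_0_2 .done)))
theorem sub_c9_0_0 : root 9 refs9_0 [] 0x700000008704000000004060020030060500000000504000000004010000020010300000000302000000002018030000010 0xfe7fff6fffa3ff9fffcfffedfff1fff3fff9fef5 9 7 9 .nil uc9_0_0 = true := by decide +kernel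
noncomputable def tc9_0_6 : T := (.node 0 2 (.cons 0x8902176543 .nil) (.node 2 4 (.cons 0x8901732456 .nil) (.node 0 8 (.cons 0x9801732456 (.cons 0x9801765423 .nil)) (.node 0 3 (.cons 0x6542179803 (.cons 0x9803421765 .nil)) (.node 0 5 (.cons 0x6509871234 .nil) (.node 3 9 (.cons 0x4239876501 (.cons 0x6501789324 (.cons 0x8932450176 (.cons 0x5671243980 .nil)))) .done .done) .done) .done) (.node 4 8 (.cons 0x2376548901 (.cons 0x9845673201 (.cons 0x6548901732 .nil))) (.node 1 8 (.cons 0x9810237654 .nil) (.node 0 8 (.cons 0x9081723456 .nil) .done (.node 1 5 (.cons 0x9021567843 (.cons 0x6734518902 .nil)) (.node 6 9 (.cons 0x8967324510 (.cons 0x5120769843 (.cons 0x8967021543 (.cons 0x7698154320 .nil)))) .done (.node 6 9 (.cons 0x3487215690 (.cons 0x8437209651 (.cons 0x8154372096 (.cons 0x3487209651 .nil)))) .done .done)) .done)) (.node 2 9 (.cons 0x3298456710 .nil) (.node 0 5 (.cons 0x6509234871 (.cons 0x6509871234 .nil)) (.node 3 6 (.cons 0x5098763421 (.cons 0x8921705436 (.cons 0x2905634871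 (.cons 0x8436509271 .nil)))) .done (.node 1 4 (.cons 0x9876502341 (.cons 0x8714329056 (.cons 0x6509871432 (.cons 0x5678902143 .nil)))) .done .done)) (.node 0 5 (.cons 0x8432905671 (.cons 0x6509871234 .nil)) (.node 1 5 (.cons 0x9023487651 .nil) (.node 1 3 (.cons 0x8456790231 (.cons 0x8431729056 (.cons 0x6798451320 (.cons 0x4897651320 .nil)))) .done (.node 1 4 (.cons 0x8920567341 (.cons 0x6514879023 (.cons 0x6514378902 .nil))) .done .done)) (.node 6 8 (.cons 0x5423768901 (.cons 0x9867105423 (.cons 0x3245098671 .nil))) (.node 1 3 (.cons 0x9867310245 (.cons 0x8456790231 (.cons 0x5684317290 (.cons 0x7689021345 (.cons 0x5098671342 .nil))))) .done .done) .done)) .done)) .done)) .done)) (.node 4 7 .nil (.node 6 8 (.cons 0x2098654371 (.cons 0x9865473201 (.cons 0x3209865471 .nil))) .done (.node 6 8 (.cons 0x9865473201 (.cons 0x2098654371 (.cons 0x9865471023 (.cons 0x4568902371 .nil)))) (.node 5 9 (.cons 0x1234598670 (.cons 0x6895432170 (.cons 0x6895432071 .nil))) (.node 0 3 (.cons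 0x6598743021 (.cons 0x9568712034 .nil)) (.node 2 4 (.cons 0x5986703421 (.cons 0x5986712430 .nil)) .done .done) .done) .done) (.node 3 6 (.cons 0x5634789021 (.cons 0x8902174365 .nil)) (.node 0 8 (.cons 0x3654798021 (.cons 0x4563208971 .nil)) (.node 2 9 (.cons 0x5436708921 (.cons 0x5436712980 .nil)) (.node 0 5 (.cons 0x9874365021 (.cons 0x8920563471 .nil)) (.node 4 8 (.cons 0x5637489201 (.cons 0x9217650843 (.cons 0x6548901732 (.cons 0x9217634805 (.cons 0x1798456320 .nil))))) .done .done) .done) .done) (.node 5 9 (.cons 0x8743659021 (.cons 0x8712095634 .nil)) (.node 3 5 (.cons 0x6534789021 .nil) (.node 0 4 (.cons 0x5678904321 (.cons 0x8712340956 .nil)) (.node 1 6 (.cons 0x8971654023 (.cons 0x8971653204 (.cons 0x9871653402 .nil))) .done .done) .done) (.node 4 8 (.cons 0x2376548901 (.cons 0x9563201784 (.cons 0x8456321790 (.cons 0x8459017632 (.cons 0x8456320971 .nil))))) .done .done)) .done)) .done))) (.node 4 8 (.cons 0x2376548901 (.cons 0x6548901732 (.cons 0x5671209843 .nil)))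 (.node 5 9 (.cons 0x4895673201 (.cons 0x3489567120 (.cons 0x1765984320 .nil))) (.node 4 7 (.cons 0x6598473201 .nil) (.node 4 6 (.cons 0x8712346590 .nil) (.node 1 5 (.cons 0x6432159870 (.cons 0x8709512346 .nil)) (.node 1 8 (.cons 0x7346518902 (.cons 0x8159027346 .nil)) .done .done) (.node 0 3 (.cons 0x9564872301 (.cons 0x9564871032 (.cons 0x6548971230 .nil))) .done .done)) .done) .done) (.node 2 4 (.cons 0x8901732456 .nil) (.node 1 5 (.cons 0x6510987324 (.cons 0x3421567890 .nil)) (.node 1 8 (.cons 0x9815673420 .nil) (.node 5 7 (.cons 0x6573420981 .nil) .done .done) (.node 4 9 (.cons 0x8732490156 (.cons 0x8765109423 .nil)) (.node 6 9 (.cons 0x5123487690 (.cons 0x8423769015 (.cons 0x5109678423 .nil))) .done .done) .done)) (.node 0 8 (.cons 0x9801732456 (.cons 0x9801765423 .nil)) (.node 1 4 (.cons 0x8097654123 .nil) (.node 1 6 (.cons 0x9807612345 (.cons 0x5480976123 (.cons 0x5614237980 (.cons 0x5614208973 .nil)))) .done (.node 3 5 (.cons 0x2143567890 (.cons 0x4120897653 (.cons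 0x6790845321 (.cons 0x6537980241 .nil)))) .done .done)) (.node 0 3 (.cons 0x3089765421 (.cons 0x6542179803 .nil)) (.node 2 9 (.cons 0x3765429801 (.cons 0x6542980173 .nil)) (.node 3 9 (.cons 0x2456739801 (.cons 0x8039712456 (.cons 0x5671243980 .nil))) .done .done) .done) .done)) .done)) (.node 4 7 .nil (.node 1 5 (.cons 0x4321567890 (.cons 0x9847651023 (.cons 0x6512347890 (.cons 0x8902156743 .nil)))) (.node 3 5 (.cons 0x9847653201 (.cons 0x6710984532 (.cons 0x6532109874 .nil))) .done .done) (.node 3 5 (.cons 0x9847653201 (.cons 0x9847102356 .nil)) (.node 0 8 (.cons 0x9802176534 .nil) (.node 0 3 (.cons 0x6547980321 .nil) (.node 1 9 (.cons 0x8032197456 (.cons 0x9108453276 (.cons 0x5674321980 (.cons 0x8091276543 .nil)))) .done .done) (.node 6 9 (.cons 0x2354896701 (.cons 0x5690843271 (.cons 0x9653480271 (.cons 0x8096543271 .nil)))) .done .done)) (.node 2 9 (.cons 0x4876532901 (.cons 0x6532901784 (.cons 0x8453290176 .nil))) .done .done)) (.node 3 8 (.cons 0x5674389021 (.cons 0x9017238456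 .nil)) (.node 5 9 (.cons 0x6701238954 (.cons 0x6598347120 (.cons 0x4389567120 .nil))) (.node 0 4 (.cons 0x1238976540 .nil) (.node 0 5 (.cons 0x9834765021 (.cons 0x6509871234 .nil)) (.node 0 8 (.cons 0x9765408321 (.cons 0x9712380456 .nil)) .done .done) (.node 2 6 (.cons 0x4598326701 (.cons 0x1789562340 (.cons 0x6238954071 .nil))) .done .done)) .done) (.node 3 5 (.cons 0x6745389012 (.cons 0x8902174356 .nil)) (.node 0 8 (.cons 0x9802174356 (.cons 0x9802176534 .nil)) (.node 3 9 (.cons 0x8456723901 (.cons 0x6539847102 (.cons 0x4765398012 .nil))) .done .done) (.node 2 9 (.cons 0x4876532901 (.cons 0x6532901784 (.cons 0x8453290176 .nil))) .done .done)) .done)) .done))) .done))) .done))) (.node 4 7 .nil (.node 1 5 (.cons 0x4321567890 (.cons 0x6512347890 .nil)) (.node 0 8 (.cons 0x9087651234 (.cons 0x9087432156 .nil)) (.node 2 9 (.cons 0x3456712980 (.cons 0x6512908743 (.cons 0x8092156743 .nil))) (.node 3 9 (.cons 0x2176543980 (.cons 0x8093476512 .nil)) (.node 6 8 (.cons 0x2908673451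 (.cons 0x7456893210 (.cons 0x2398654710 (.cons 0x4786512390 .nil)))) .done .done) .done) (.node 2 9 (.cons 0x1765432980 (.cons 0x6547108923 (.cons 0x8092347651 .nil))) (.node 3 5 (.cons 0x6710892354 (.cons 0x6745329801 (.cons 0x6532109874 .nil))) .done .done) .done)) (.node 5 7 .nil (.node 1 8 (.cons 0x7654321890 (.cons 0x6754321890 (.cons 0x6574321890 .nil))) .done .done) .done)) (.node 5 7 .nil (.node 1 8 (.cons 0x7654321890 (.cons 0x6754321890 .nil)) (.node 0 4 (.cons 0x5678904321 (.cons 0x9043218756 (.cons 0x6578904321 .nil))) (.node 4 8 (.cons 0x2376548901 (.cons 0x6754890123 .nil)) (.node 3 8 (.cons 0x6540972381 .nil) (.node 1 6 (.cons 0x8165409723 (.cons 0x7561890432 (.cons 0x2167543890 .nil))) (.node 0 8 (.cons 0x4561809732 (.cons 0x9083457612 .nil)) .done .done) .done) .done) .done) (.node 0 8 (.cons 0x9081276543 .nil) (.node 1 6 (.cons 0x9081654372 (.cons 0x9087561234 .nil)) (.node 4 8 (.cons 0x2376548901 (.cons 0x5761234890 (.cons 0x9084327561 .nil))) (.node 0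 2 (.cons 0x9845673201 .nil) (.node 0 3 (.cons 0x7654309812 (.cons 0x9756123084 .nil)) .done .done) .done) .done) (.node 0 4 (.cons 0x5678904321 (.cons 0x6578904321 .nil)) (.node 4 8 (.cons 0x2376548901 (.cons 0x6754890123 .nil)) (.node 3 9 (.cons 0x7654893210 (.cons 0x9321048756 (.cons 0x6754893210 .nil))) (.node 0 3 (.cons 0x5674893012 (.cons 0x6574893012 .nil)) .done .done) (.node 3 6 (.cons 0x3654812790 (.cons 0x9845701236 (.cons 0x9012365784 (.cons 0x8409756321 .nil)))) .done .done)) .done) .done)) .done)) .done) .done)) (.node 0 2 (.cons 0x8902176543 .nil) (.node 0 3 (.cons 0x8903456712 .nil) (.node 0 4 (.cons 0x5678904321 .nil) (.node 2 5 (.cons 0x3409876521 .nil) (.node 5 7 .nil (.node 3 6 (.cons 0x9875634021 (.cons 0x8902175634 .nil)) (.node 1 8 (.cons 0x7654321890 (.cons 0x2045637981 (.cons 0x8127904563 (.cons 0x3679812540 .nil)))) .done .done) .done) (.node 2 8 (.cons 0x3456712890 .nil) (.node 2 6 (.cons 0x8902654371 .nil) (.node 3 6 (.cons 0x9820173654 .nil) (.node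 0 5 (.cons 0x9871205634 .nil) (.node 0 6 (.cons 0x9820654371 .nil) .done .done) .done) .done) (.node 0 5 (.cons 0x6712890543 .nil) (.node 0 8 .nil (.node 2 6 (.cons 0x8902654371 (.cons 0x9802654371 .nil)) (.node 0 6 .nil (.node 1 4 (.cons 0x8901456732 (.cons 0x2379806541 (.cons 0x8097654123 (.cons 0x8906732541 .nil)))) .done .done) .done) .done) .done) .done)) .done)) (.node 4 7 .nil (.node 1 8 (.cons 0x7654321890 (.cons 0x9810237456 (.cons 0x8123097456 .nil))) (.node 5 7 (.cons 0x6754321890 .nil) (.node 1 5 (.cons 0x4321567890 (.cons 0x6512347890 .nil)) (.node 6 8 (.cons 0x2098654371 (.cons 0x9865473201 (.cons 0x9021568743 (.cons 0x9023478651 (.cons 0x9032186745 .nil))))) .done .done) .done) .done) (.node 5 7 .nil (.node 3 6 (.cons 0x8902175634 .nil) (.node 0 5 (.cons 0x9874365021 .nil) .done (.node 1 9 (.cons 0x8910237456 (.cons 0x4019875632 (.cons 0x8910457632 (.cons 0x8917563402 .nil)))) .done .done)) .done) .done)) .done)) (.node 2 4 (.cons 0x8903421765 .nil) (.node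 4 7 .nil (.node 5 8 (.cons 0x9856712430 (.cons 0x6589034712 (.cons 0x9856742103 (.cons 0x9856742301 (.cons 0x4765890321 .nil))))) (.node 3 9 (.cons 0x6701239854 (.cons 0x6745893210 .nil)) (.node 5 7 (.cons 0x8930124756 .nil) .done .done) .done) .done) (.node 2 8 (.cons 0x3456712890 .nil) (.node 4 7 .nil (.node 5 9 (.cons 0x6598217430 (.cons 0x1289567430 (.cons 0x4765982301 .nil))) (.node 3 6 (.cons 0x9820173654 (.cons 0x4365987120 (.cons 0x8712095634 .nil))) .done .done) (.node 5 7 .nil (.node 1 8 (.cons 0x7654321890 (.cons 0x6754321890 .nil)) (.node 4 6 (.cons 0x5647981230 (.cons 0x8123097564 (.cons 0x3465789021 (.cons 0x9820346571 .nil)))) .done .done) .done) .done)) (.node 5 7 .nil (.node 6 8 (.cons 0x5423768901 (.cons 0x9865712034 (.cons 0x5768903421 (.cons 0x3245768901 .nil)))) .done (.node 4 7 .nil (.node 1 5 (.cons 0x4321567890 (.cons 0x6512347890 .nil)) (.node 6 8 (.cons 0x5423768901 (.cons 0x9865473201 (.cons 0x9865743021 (.cons 0x9023478651 .nil)))) .done .done)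 .done) .done)) .done)) .done)) .done)) (.node 0 3 (.cons 0x8903456712 .nil) (.node 3 5 (.cons 0x8902176534 .nil) (.node 5 7 .nil (.node 3 8 (.cons 0x2176543890 (.cons 0x6571209834 .nil)) (.node 3 6 (.cons 0x8902175634 .nil) (.node 2 5 (.cons 0x4365217890 (.cons 0x4521763890 .nil)) .done (.node 4 7 (.cons 0x8901236574 .nil) (.node 4 8 (.cons 0x9843567120 (.cons 0x9847563210 .nil)) (.node 0 4 (.cons 0x3567984021 (.cons 0x6578904321 .nil)) (.node 0 8 (.cons 0x9802176534 (.cons 0x9084365721 .nil)) .done .done) (.node 1 3 (.cons 0x5671348902 (.cons 0x6571348902 .nil)) .done .done)) .done) .done)) .done) .done) (.node 4 7 (.cons 0x6532109874 .nil) (.node 5 7 .nil (.node 4 8 (.cons 0x2376548901 (.cons 0x6571209843 (.cons 0x6754890123 .nil))) (.node 2 9 (.cons 0x6537489201 (.cons 0x6578430921 .nil)) (.node 1 6 (.cons 0x9847356102 (.cons 0x9843570216 (.cons 0x8430921675 .nil))) (.node 0 8 (.cons 0x9748021653 (.cons 0x9087561234 (.cons 0x8092345761 .nil))) .done .done) .done) (.node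 0 4 (.cons 0x5678904321 (.cons 0x6578904321 .nil)) (.node 0 8 (.cons 0x9802174356 .nil) (.node 1 6 (.cons 0x3216547980 (.cons 0x9807543216 (.cons 0x9087561234 (.cons 0x9084327561 .nil)))) .done .done) .done) .done)) .done) .done) .done)) (.node 3 8 (.cons 0x2176543890 .nil) (.node 3 5 (.cons 0x8902176534 .nil) (.node 3 6 .nil (.node 2 8 (.cons 0x3456712890 (.cons 0x4563710982 (.cons 0x5436712890 (.cons 0x7128903654 .nil)))) .done (.node 4 7 .nil (.node 1 5 (.cons 0x4321567890 (.cons 0x6512347890 .nil)) (.node 5 7 (.cons 0x8901236574 .nil) .done .done) (.node 5 7 .nil (.node 1 8 (.cons 0x6547981230 (.cons 0x6754321890 .nil)) (.node 0 4 (.cons 0x1238976540 (.cons 0x8123657904 (.cons 0x7563409812 (.cons 0x9810475632 .nil)))) .done .done) .done) .done)) .done)) .done) (.node 1 8 (.cons 0x7654321890 .nil) (.node 4 7 (.cons 0x6547981230 .nil) (.node 5 7 .nil (.node 4 6 (.cons 0x5643098712 (.cons 0x5764389021 (.cons 0x9817564302 .nil))) (.node 0 6 (.cons 0x8974560321 (.cons 0x9754603812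 .nil)) (.node 1 4 (.cons 0x7981456032 (.cons 0x4189756023 (.cons 0x9814320675 .nil))) .done .done) .done) .done) .done) (.node 3 9 .nil (.node 4 8 (.cons 0x2376548901 (.cons 0x7654893210 (.cons 0x6548109372 (.cons 0x8456723901 .nil)))) .done (.node 5 7 .nil (.node 4 8 (.cons 0x2376548901 (.cons 0x9843021756 (.cons 0x6572184390 (.cons 0x6572390184 .nil)))) .done (.node 1 5 (.cons 0x4321567890 .nil) (.node 3 5 (.cons 0x8902176534 .nil) .done .done) .done)) .done)) .done)) .done)) .done)) .done)) .done)))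
noncomputable def tc9_0_7 : T := (.node 1 4 (.cons 0x1456732890 (.cons 0x6523789014 (.cons 0x8901452376 (.cons 0x3412567890 .nil)))) (.node 1 6 (.cons 0x8907612345 (.cons 0x8907612543 .nil)) (.node 4 8 (.cons 0x2376548901 (.cons 0x9016523784 (.cons 0x6732548901 .nil))) (.node 3 9 (.cons 0x3984567210 (.cons 0x4873901652 (.cons 0x5216784390 (.cons 0x2567398410 .nil)))) .done (.node 0 3 (.cons 0x8976541230 (.cons 0x9784165230 (.cons 0x1489765230 .nil))) (.node 1 9 (.cons 0x3276548910 (.cons 0x7843256190 (.cons 0x5234876190 (.cons 0x8419765230 (.cons 0x2567843091 .nil))))) .done .done) .done)) (.node 4 8 (.cons 0x2376548901 (.cons 0x7325610984 (.cons 0x6732548901 (.cons 0x5216709843 (.cons 0x5234890761 .nil))))) .done .done)) (.node 0 8 (.cons 0x9082376541 (.cons 0x9087652143 (.cons 0x9087652341 .nil))) (.node 0 4 (.cons 0x5678904321 (.cons 0x3409876521 .nil)) (.node 1 6 (.cons 0x3279804561 (.cons 0x9780416523 (.cons 0x8097325614 (.cons 0x9087341652 .nil)))) .done .done) .done)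 .done)) (.node 2 6 .nil (.node 1 5 (.cons 0x4321567890 (.cons 0x8907621543 .nil)) (.node 0 8 (.cons 0x9807621543 (.cons 0x9807623451 .nil)) (.node 1 4 (.cons 0x1456732890 (.cons 0x9082376541 (.cons 0x5623789014 (.cons 0x9087652143 .nil)))) (.node 1 6 (.cons 0x9082376145 (.cons 0x9082541673 .nil)) (.node 3 6 (.cons 0x5412367980 (.cons 0x8097632145 .nil)) .done .done) .done) (.node 1 4 (.cons 0x1456732890 (.cons 0x8097326541 (.cons 0x5623789014 (.cons 0x9801456273 .nil)))) (.node 0 5 (.cons 0x6732890541 (.cons 0x3762890541 (.cons 0x9876234150 .nil))) .done .done) .done)) (.node 6 8 (.cons 0x9862370154 (.cons 0x2689073451 (.cons 0x7098623451 .nil))) .done .done)) (.node 0 2 .nil (.node 1 7 (.cons 0x8902176543 .nil) (.node 2 4 (.cons 0x8901732456 .nil) (.node 0 5 (.cons 0x6509871234 .nil) (.node 0 4 (.cons 0x6540982371 (.cons 0x3289045671 .nil)) (.node 1 4 (.cons 0x9876502143 (.cons 0x6541732890 (.cons 0x5678902143 .nil))) .done .done) (.node 1 8 (.cons 0x9810237654 (.cons 0x7189056234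 (.cons 0x6718905432 (.cons 0x5098176243 .nil)))) .done .done)) .done) (.node 1 6 (.cons 0x8907612345 .nil) (.node 1 4 (.cons 0x1456732890 (.cons 0x5678902143 .nil)) (.node 1 5 (.cons 0x4321567890 (.cons 0x6514378902 .nil)) .done (.node 0 5 (.cons 0x8973205416 (.cons 0x9820541673 (.cons 0x8976145023 .nil))) .done .done)) (.node 1 8 (.cons 0x7654321890 (.cons 0x9810237654 (.cons 0x9816543720 (.cons 0x5437618902 .nil)))) .done .done)) .done)) (.node 5 7 .nil (.node 1 8 (.cons 0x7654321890 (.cons 0x6754321890 (.cons 0x4375620981 .nil))) (.node 6 9 (.cons 0x5432189670 (.cons 0x6981207543 .nil)) (.node 1 5 (.cons 0x4326981570 .nil) (.node 2 4 (.cons 0x3421567890 (.cons 0x3245769810 .nil)) .done .done) .done) (.node 0 4 (.cons 0x5678904321 (.cons 0x9043218756 (.cons 0x2657340981 (.cons 0x7562340981 .nil)))) .done .done)) (.node 1 5 (.cons 0x4321567890 .nil) (.node 1 6 (.cons 0x8907612345 .nil) (.node 1 7 .nil (.node 4 9 (.cons 0x8756120943 (.cons 0x8237165490 (.cons 0x8943715620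 (.cons 0x6517894320 .nil)))) (.node 0 5 (.cons 0x6789432150 (.cons 0x8943267150 .nil)) .done .done) .done) (.node 6 9 (.cons 0x8961543702 .nil) (.node 2 4 (.cons 0x8967015423 .nil) (.node 2 9 (.cons 0x8920734516 .nil) .done .done) .done) .done)) (.node 4 7 (.cons 0x6512347890 .nil) (.node 1 7 .nil (.node 0 4 (.cons 0x5678904321 (.cons 0x8904371562 (.cons 0x3289045671 .nil))) .done .done) .done) .done)) .done)) .done)) .done)) (.node 1 5 (.cons 0x4321567890 .nil) (.node 5 8 (.cons 0x6709854321 .nil) (.node 2 6 (.cons 0x3458907621 .nil) (.node 2 4 .nil (.node 1 6 (.cons 0x3458907612 (.cons 0x5890761243 (.cons 0x1652437890 .nil))) .done (.node 3 5 .nil (.node 1 6 (.cons 0x3458907612 (.cons 0x7612435890 (.cons 0x1673542890 .nil))) .done (.node 5 7 .nil (.node 1 6 (.cons 0x3458907612 (.cons 0x3421675890 .nil)) (.node 0 3 (.cons 0x9824516730 (.cons 0x4309875612 (.cons 0x6758903421 .nil))) .done .done) .done) .done)) .done)) (.node 3 5 (.cons 0x4358907621 .nil) (.node 5 7 .nil (.node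 1 8 (.cons 0x7654321890 (.cons 0x6754321890 .nil)) (.node 0 4 (.cons 0x9876512340 (.cons 0x9043218756 (.cons 0x6578904321 (.cons 0x2657340981 (.cons 0x7562340981 .nil))))) .done .done) .done) .done) .done)) (.node 3 5 .nil (.node 6 8 (.cons 0x9867012354 .nil) (.node 5 9 (.cons 0x1234598670 .nil) (.node 0 3 (.cons 0x6895430721 (.cons 0x4307689512 .nil)) (.node 0 5 (.cons 0x9867054321 .nil) .done .done) .done) (.node 1 6 (.cons 0x2345890761 (.cons 0x9078612534 (.cons 0x7098612534 .nil))) .done .done)) (.node 0 5 .nil (.node 6 8 (.cons 0x9867054321 .nil) (.node 0 3 (.cons 0x6897032154 .nil) (.node 5 9 (.cons 0x4307689512 .nil) .done .done) (.node 3 9 (.cons 0x2154398670 (.cons 0x6893450721 (.cons 0x1276893450 (.cons 0x4398670512 .nil)))) .done .done)) (.node 5 9 .nil (.node 5 7 .nil (.node 0 4 (.cons 0x9876512340 (.cons 0x8765904321 (.cons 0x6578904321 .nil))) (.node 1 3 (.cons 0x7654098231 (.cons 0x6598723104 (.cons 0x8954013276 (.cons 0x8956723104 .nil)))) .done .done) .done)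 .done) .done)) .done)) .done)) (.node 1 7 .nil (.node 0 4 (.cons 0x5678904321 (.cons 0x6540982371 (.cons 0x6521789043 (.cons 0x3289045671 .nil)))) (.node 4 6 (.cons 0x4652378901 (.cons 0x3465217890 .nil)) (.node 6 8 (.cons 0x9864523701 (.cons 0x6890712543 (.cons 0x9043256871 .nil))) .done (.node 6 8 (.cons 0x9078643251 (.cons 0x6890712543 .nil)) (.node 1 6 (.cons 0x8907164325 .nil) (.node 0 2 (.cons 0x4378902561 (.cons 0x8902561734 .nil)) .done .done) .done) .done)) .done) (.node 5 7 .nil (.node 1 8 (.cons 0x7654321890 (.cons 0x6754321890 .nil)) (.node 1 6 (.cons 0x8907612345 .nil) (.node 1 4 (.cons 0x1456732890 (.cons 0x4165732890 .nil)) (.node 6 8 (.cons 0x5410986732 (.cons 0x2573416890 (.cons 0x7523416890 .nil))) .done .done) .done) (.node 4 7 (.cons 0x6574321890 .nil) (.node 0 4 (.cons 0x5678904321 (.cons 0x6578904321 .nil)) (.node 0 6 (.cons 0x9065473281 (.cons 0x9065781234 (.cons 0x9812756043 .nil))) (.node 0 8 (.cons 0x6547908123 .nil) .done .done) (.node 2 6 (.cons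 0x2654371890 (.cons 0x9043265781 (.cons 0x7562340981 .nil))) .done .done)) .done) .done)) .done) .done)) (.node 2 6 (.cons 0x8907621543 .nil) (.node 2 4 (.cons 0x3421567890 .nil) (.node 5 9 .nil (.node 3 8 (.cons 0x6709834512 (.cons 0x6701238954 (.cons 0x6215907834 (.cons 0x4387621590 .nil)))) .done (.node 0 5 (.cons 0x6789051243 .nil) (.node 5 8 (.cons 0x6732458901 .nil) (.node 3 5 .nil (.node 1 6 (.cons 0x9854237610 (.cons 0x4235987610 .nil)) (.node 0 4 (.cons 0x5678904321 (.cons 0x6123589704 (.cons 0x3589761240 (.cons 0x1679853240 .nil)))) .done .done) .done) .done) .done) .done)) .done) (.node 3 6 (.cons 0x8907634512 .nil) (.node 1 6 (.cons 0x8907612345 .nil) (.node 1 7 .nil (.node 0 8 (.cons 0x9807634512 (.cons 0x4563217980 (.cons 0x9807125436 (.cons 0x9087165234 .nil)))) .done .done) .done) (.node 1 6 (.cons 0x8907612345 .nil) (.node 5 9 (.cons 0x8954321670 .nil) (.node 3 5 (.cons 0x8907621534 .nil) (.node 5 8 (.cons 0x9854321670 .nil) .done .done) .done) .done) .done))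 .done)) .done))) .done)))
noncomputable def tc9_0_8 : T := (.node 4 7 (.cons 0x6547328901 .nil) (.node 1 7 .nil (.node 5 7 .nil (.node 0 4 (.cons 0x5678904321 (.cons 0x6578904321 (.cons 0x6571289043 .nil))) (.node 3 6 (.cons 0x1798236540 (.cons 0x8236540971 (.cons 0x8901236754 (.cons 0x9823657104 .nil)))) .done .done) (.node 3 6 (.cons 0x6345709821 (.cons 0x4365712890 .nil)) (.node 0 4 (.cons 0x5678904321 (.cons 0x8971236540 (.cons 0x1798236540 .nil))) (.node 3 5 (.cons 0x6354079821 (.cons 0x6534098712 .nil)) (.node 4 6 (.cons 0x3564097821 (.cons 0x9017823564 .nil)) .done .done) .done) (.node 0 4 (.cons 0x5678904321 (.cons 0x8217904563 (.cons 0x8236540971 .nil))) (.node 0 3 (.cons 0x6571289034 .nil) (.node 0 8 (.cons 0x9803456721 (.cons 0x4563280971 .nil)) .done .done) .done) .done)) .done)) (.node 2 4 (.cons 0x6542890173 .nil) (.node 5 7 .nil (.node 1 8 (.cons 0x7654321890 (.cons 0x6754321890 .nil)) (.node 1 4 (.cons 0x8901456732 .nil) (.node 6 8 (.cons 0x5423768901 (.cons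 0x3245768901 (.cons 0x6890754123 .nil))) (.node 0 2 (.cons 0x6541897320 (.cons 0x2098657341 .nil)) (.node 3 9 (.cons 0x2739865410 (.cons 0x9375420186 (.cons 0x9345768120 (.cons 0x1286574390 .nil)))) .done .done) .done) .done) .done) .done) .done) .done)) (.node 5 7 .nil (.node 1 6 (.cons 0x3745610982 (.cons 0x3475612890 (.cons 0x6128907543 .nil))) (.node 1 8 (.cons 0x7654321890 (.cons 0x6754321890 .nil)) (.node 0 8 (.cons 0x9807612345 .nil) (.node 0 4 (.cons 0x5678904321 (.cons 0x9875612340 .nil)) (.node 1 9 (.cons 0x8237916540 (.cons 0x9165780432 (.cons 0x2345761980 (.cons 0x6573409182 .nil)))) .done .done) .done) .done) (.node 1 7 .nil (.node 0 6 (.cons 0x3475609821 (.cons 0x2890654371 (.cons 0x6098234571 .nil))) .done .done) .done)) (.node 1 7 .nil (.node 3 6 (.cons 0x5634712890 .nil) (.node 1 5 (.cons 0x2156347890 (.cons 0x8907634512 .nil)) (.node 6 9 (.cons 0x5128963470 (.cons 0x4510736982 (.cons 0x6982345170 .nil))) .done .done) (.node 0 4 (.cons 0x5678904321 (.cons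 0x8971236540 (.cons 0x1798236540 .nil))) (.node 5 9 (.cons 0x8765904321 (.cons 0x8712340956 (.cons 0x6345982170 (.cons 0x6590432871 .nil)))) .done .done) (.node 0 8 (.cons 0x3654790821 (.cons 0x4563280971 .nil)) (.node 0 5 (.cons 0x9056347821 (.cons 0x6509871234 .nil)) (.node 5 9 (.cons 0x1287436590 (.cons 0x4365908712 (.cons 0x8217095436 .nil))) .done .done) .done) .done))) .done) .done)) .done)) (.node 1 8 (.cons 0x7654321890 .nil) (.node 2 9 (.cons 0x4567329810 .nil) (.node 4 7 (.cons 0x6547329810 .nil) (.node 2 4 .nil (.node 1 5 (.cons 0x4321567890 (.cons 0x6510987324 (.cons 0x3421567890 .nil))) (.node 1 6 (.cons 0x8907612345 (.cons 0x5428901673 .nil)) (.node 4 8 (.cons 0x7324890165 (.cons 0x6510924873 (.cons 0x9015678423 .nil))) .done .done) .done) .done) (.node 3 8 .nil (.node 0 2 (.cons 0x9810237654 (.cons 0x9201837456 (.cons 0x5674389021 .nil))) .done (.node 4 8 (.cons 0x2376548901 .nil) (.node 4 9 (.cons 0x2376549810 .nil) (.node 2 4 .nil (.node 1 5 (.cons 0x4321567890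 (.cons 0x9015678423 (.cons 0x6510987324 (.cons 0x3421567890 .nil)))) .done (.node 0 4 (.cons 0x3218976540 .nil) (.node 1 4 (.cons 0x8901456732 .nil) .done .done) .done)) .done) .done) .done)) .done)) (.node 0 2 (.cons 0x9810237654 .nil) (.node 3 8 .nil (.node 0 4 (.cons 0x3218976540 (.cons 0x9765402183 (.cons 0x9832765401 .nil))) (.node 6 9 (.cons 0x5432189670 (.cons 0x2738965401 (.cons 0x7238965401 .nil))) .done .done) (.node 0 3 (.cons 0x4567981230 .nil) (.node 3 9 .nil (.node 4 8 (.cons 0x2376548901 (.cons 0x3984567210 (.cons 0x1845679320 .nil))) .done (.node 1 3 .nil (.node 4 8 (.cons 0x2376548901 (.cons 0x8456790213 (.cons 0x9845672310 .nil))) .done (.node 1 7 .nil (.node 0 5 (.cons 0x9812345076 (.cons 0x6509871234 (.cons 0x6712890543 (.cons 0x4329817650 .nil)))) .done (.node 2 4 (.cons 0x8903421765 .nil) (.node 3 5 (.cons 0x6534217890 .nil) (.node 3 6 (.cons 0x5436712890 .nil) .done .done) .done) .done)) .done)) .done)) .done) .done)) (.node 4 7 (.cons 0x9810237456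 .nil) (.node 2 4 .nil (.node 1 5 (.cons 0x4321567890 (.cons 0x6510987324 (.cons 0x3421567890 .nil))) (.node 0 5 (.cons 0x9812345076 (.cons 0x1892437650 .nil)) (.node 0 8 (.cons 0x9234765081 (.cons 0x9243765180 .nil)) .done .done) .done) .done) (.node 3 8 .nil (.node 6 9 (.cons 0x5432189670 (.cons 0x4569837201 (.cons 0x3896547201 .nil))) .done (.node 4 8 (.cons 0x2376548901 .nil) (.node 0 4 (.cons 0x3218976540 .nil) (.node 1 7 (.cons 0x8321790456 .nil) (.node 5 7 (.cons 0x6571092384 .nil) .done .done) .done) .done) .done)) .done)) .done)) .done)) (.node 3 8 .nil (.node 1 5 (.cons 0x4321567890 (.cons 0x6709834512 .nil)) (.node 6 9 (.cons 0x2154389670 (.cons 0x4510769832 .nil)) (.node 0 4 (.cons 0x9876512340 (.cons 0x6973281540 (.cons 0x7896512340 (.cons 0x9832765401 .nil)))) (.node 0 2 (.cons 0x9876512043 (.cons 0x9651873402 (.cons 0x2043789651 (.cons 0x4021567983 .nil)))) .done .done) (.node 1 6 (.cons 0x8907612345 (.cons 0x5438907612 .nil)) (.node 0 4 (.cons 0x9876512340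 (.cons 0x5612387904 (.cons 0x5409761283 (.cons 0x9723816540 .nil)))) (.node 0 5 (.cons 0x6973281504 (.cons 0x4389670512 (.cons 0x4056972381 .nil))) (.node 1 7 (.cons 0x6509871234 (.cons 0x2176543890 .nil)) .done .done) .done) .done) .done)) (.node 1 7 (.cons 0x2176543890 .nil) (.node 0 4 (.cons 0x5678904321 (.cons 0x6512387904 (.cons 0x9043876512 (.cons 0x9832765401 .nil)))) (.node 4 6 (.cons 0x6451823790 (.cons 0x9832107645 (.cons 0x3821546790 (.cons 0x5467109823 .nil)))) .done .done) .done) .done)) (.node 4 8 (.cons 0x2376548901 .nil) (.node 4 7 .nil (.node 0 3 (.cons 0x9845672103 (.cons 0x8123097456 .nil)) (.node 3 6 (.cons 0x1279845630 (.cons 0x8123654790 (.cons 0x9847210365 .nil))) .done (.node 4 6 (.cons 0x5647981230 (.cons 0x8123097465 (.cons 0x9810327465 .nil))) .done .done)) (.node 0 8 (.cons 0x6547908123 .nil) (.node 5 8 (.cons 0x6709854321 .nil) (.node 6 8 (.cons 0x3218654790 .nil) .done .done) .done) .done)) (.node 0 8 .nil (.node 1 6 (.cons 0x8907612345 (.cons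 0x9807612345 (.cons 0x4561809732 .nil))) (.node 3 6 (.cons 0x7908123654 .nil) (.node 1 5 (.cons 0x4321567890 (.cons 0x9845107632 (.cons 0x1548236790 (.cons 0x7634512890 .nil)))) .done .done) (.node 2 4 (.cons 0x5428901673 (.cons 0x6542379081 (.cons 0x9801654273 .nil))) .done .done)) (.node 5 8 (.cons 0x6709854321 .nil) (.node 6 8 .nil (.node 2 4 (.cons 0x1865423790 (.cons 0x7324568901 .nil)) (.node 0 4 (.cons 0x2379045681 .nil) (.node 1 5 (.cons 0x4321567890 (.cons 0x6897045123 (.cons 0x6823790451 (.cons 0x3421567890 .nil)))) .done .done) .done) .done) .done) .done)) .done)) .done)) (.node 1 7 .nil (.node 2 4 (.cons 0x8901732456 .nil) (.node 0 2 (.cons 0x6543718902 (.cons 0x5673420981 .nil)) (.node 3 8 (.cons 0x4567902183 (.cons 0x6542097381 .nil)) (.node 5 9 (.cons 0x6734590281 (.cons 0x6590243781 (.cons 0x6701245983 (.cons 0x3420956781 .nil)))) .done .done) .done) (.node 0 2 (.cons 0x6543718902 .nil) (.node 1 5 (.cons 0x9028154376 (.cons 0x9024378156 .nil)) (.node 4 9 (.cons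 0x6732894510 (.cons 0x6549810273 (.cons 0x8945102376 (.cons 0x3498765120 (.cons 0x1567894320 .nil))))) .done .done) (.node 5 9 (.cons 0x3421876590 (.cons 0x8173420956 (.cons 0x8176590243 .nil))) (.node 3 8 (.cons 0x1243876590 (.cons 0x4389567120 .nil)) (.node 4 6 (.cons 0x4659837201 (.cons 0x4659837102 (.cons 0x7120983465 (.cons 0x3871095642 .nil)))) .done .done) .done) .done)) .done)) (.node 1 5 (.cons 0x4321567890 .nil) (.node 1 6 (.cons 0x8907612345 .nil) (.node 1 4 (.cons 0x8901456732 .nil) (.node 1 9 .nil (.node 4 8 (.cons 0x2376548901 (.cons 0x2376548910 (.cons 0x3276548910 .nil))) .done (.node 1 3 .nil (.node 0 4 (.cons 0x9876512340 (.cons 0x5678904312 (.cons 0x6798231540 .nil))) (.node 0 6 (.cons 0x9823760154 (.cons 0x7609821345 (.cons 0x8972314560 .nil))) .done .done) .done) .done)) (.node 1 9 .nil (.node 0 6 (.cons 0x9823760154 (.cons 0x5437609182 (.cons 0x2891543760 .nil))) (.node 4 8 (.cons 0x2376548901 (.cons 0x2376548910 (.cons 0x5609178432 (.cons 0x3276548910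 .nil)))) .done .done) (.node 1 3 .nil (.node 0 6 (.cons 0x9823760154 (.cons 0x7609821345 (.cons 0x4513289760 .nil))) (.node 5 7 (.cons 0x8756091234 (.cons 0x6754312890 .nil)) .done .done) .done) .done)) .done)) .done) (.node 4 7 (.cons 0x6512347890 .nil) (.node 5 7 .nil (.node 0 6 (.cons 0x3478906512 (.cons 0x6098215743 (.cons 0x3457609821 .nil))) (.node 0 4 (.cons 0x5678904321 (.cons 0x6578904321 .nil)) (.node 3 6 (.cons 0x2156347890 (.cons 0x9823675401 (.cons 0x6347512890 .nil))) .done .done) (.node 1 4 (.cons 0x9872341560 (.cons 0x6098751432 .nil)) (.node 1 6 (.cons 0x8907612345 (.cons 0x3475160982 .nil)) .done .done) .done)) .done) .done) .done)) .done)) .done))) (.node 2 5 .nil tc9_0_7 .done)))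
noncomputable def tc9_0_9 : T := (.node 3 5 (.cons 0x6532109874 .nil) (.node 4 8 (.cons 0x9845321076 (.cons 0x6710984532 (.cons 0x6548901732 (.cons 0x2176534890 .nil)))) .done (.node 3 8 (.cons 0x2176543890 (.cons 0x6547109832 .nil)) (.node 1 5 (.cons 0x6709834512 (.cons 0x6512347890 .nil)) (.node 4 6 (.cons 0x9832107645 (.cons 0x9835467012 (.cons 0x9874653210 (.cons 0x9012387465 (.cons 0x9015647832 .nil))))) .done .done) (.node 1 5 (.cons 0x4321567890 (.cons 0x6512347890 .nil)) (.node 6 8 (.cons 0x2154386790 (.cons 0x9015476832 (.cons 0x3217456890 .nil))) (.node 2 8 (.cons 0x4567328901 (.cons 0x6547328901 .nil)) (.node 1 3 (.cons 0x4567132890 (.cons 0x6547132890 .nil)) (.node 0 5 (.cons 0x9867054321 (.cons 0x6509823174 (.cons 0x8905674312 .nil))) .done .done) .done) (.node 0 2 (.cons 0x8345120976 (.cons 0x9865347120 (.cons 0x9021768345 .nil))) .done .done)) (.node 0 2 (.cons 0x6512098743 (.cons 0x8902176543 (.cons 0x8902156743 .nil))) (.node 0 3 (.cons 0x4309876512 (.cons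 0x8903476512 (.cons 0x8903217456 .nil))) .done .done) .done)) .done)) (.node 1 5 (.cons 0x4321567890 (.cons 0x6512347890 .nil)) (.node 0 3 (.cons 0x8903456712 (.cons 0x8903217456 .nil)) (.node 2 8 (.cons 0x4567328901 (.cons 0x6547982103 (.cons 0x6798215430 .nil))) (.node 1 4 (.cons 0x8214567903 (.cons 0x6541732890 (.cons 0x8214530976 (.cons 0x2890376541 .nil)))) .done .done) (.node 4 9 (.cons 0x8749012356 (.cons 0x8947651032 .nil)) (.node 5 8 (.cons 0x6709854321 (.cons 0x6589034712 (.cons 0x6749851032 (.cons 0x6749851230 .nil)))) .done .done) .done)) (.node 0 3 (.cons 0x4309876512 (.cons 0x8903476512 (.cons 0x8903217456 .nil))) .done .done)) .done))) (.node 4 8 (.cons 0x2376548901 (.cons 0x6548901732 .nil)) (.node 2 4 (.cons 0x8901732456 .nil) (.node 1 5 (.cons 0x6510987324 (.cons 0x3421567890 .nil)) (.node 4 9 (.cons 0x3249876510 .nil) (.node 0 6 (.cons 0x7894321560 (.cons 0x8712349065 (.cons 0x9842376015 (.cons 0x2349871560 .nil)))) (.node 0 2 (.cons 0x9873420651 (.cons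 0x8943715602 .nil)) (.node 0 4 (.cons 0x9876510423 .nil) .done .done) .done) .done) (.node 4 9 (.cons 0x8732490156 (.cons 0x8765109423 .nil)) .done .done)) (.node 1 4 (.cons 0x8901456732 .nil) (.node 2 8 (.cons 0x4567328901 (.cons 0x6541732890 .nil)) (.node 1 8 (.cons 0x7654321890 .nil) (.node 0 2 (.cons 0x6541028973 (.cons 0x6543718902 .nil)) (.node 5 8 (.cons 0x6709854321 (.cons 0x9024371856 (.cons 0x4320985671 (.cons 0x6589023714 .nil)))) .done .done) .done) (.node 3 8 (.cons 0x6542837901 .nil) (.node 4 9 (.cons 0x7654983210 (.cons 0x2389456710 .nil)) .done .done) .done)) (.node 0 2 (.cons 0x5678902143 .nil) (.node 6 8 (.cons 0x9865473201 (.cons 0x3456897120 (.cons 0x2098654371 (.cons 0x9865471023 (.cons 0x4568902371 .nil))))) .done (.node 1 8 (.cons 0x7654321890 .nil) (.node 4 9 (.cons 0x2376549810 (.cons 0x5671894320 .nil)) (.node 0 4 (.cons 0x5678904321 .nil) (.node 4 6 (.cons 0x7320189465 .nil) .done .done) .done) (.node 4 6 (.cons 0x9018732465 (.cons 0x7189023465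 .nil)) .done .done)) .done)) .done)) .done)) (.node 0 2 (.cons 0x5671209843 .nil) (.node 1 8 (.cons 0x3456798120 (.cons 0x9810237456 .nil)) (.node 1 9 (.cons 0x8910237456 .nil) (.node 0 8 (.cons 0x5674320891 .nil) (.node 3 6 (.cons 0x3654798012 (.cons 0x5436798120 (.cons 0x8120976345 (.cons 0x5634798021 .nil)))) .done .done) .done) .done) (.node 3 9 (.cons 0x5678439021 (.cons 0x8439021765 .nil)) (.node 6 8 (.cons 0x7456893210 (.cons 0x8654397120 (.cons 0x2398654710 .nil))) (.node 0 3 (.cons 0x8654793021 (.cons 0x9302174865 .nil)) .done .done) (.node 6 8 (.cons 0x5476893210 (.cons 0x5486712093 .nil)) (.node 0 4 (.cons 0x5678904321 (.cons 0x9865401732 (.cons 0x5401768932 .nil))) .done (.node 1 9 (.cons 0x5687190234 .nil) (.node 0 8 (.cons 0x5674321980 (.cons 0x9174320865 .nil)) .done .done) .done)) .done)) (.node 6 8 (.cons 0x9865473201 (.cons 0x3456897120 (.cons 0x9865471023 (.cons 0x4568902371 .nil)))) .done .done))) (.node 2 7 (.cons 0x3276548901 .nil) (.node 2 4 (.cons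 0x8901732456 .nil) (.node 1 5 (.cons 0x9015678423 (.cons 0x6510987324 (.cons 0x3421567890 .nil))) (.node 0 2 (.cons 0x9845671023 .nil) (.node 3 6 (.cons 0x9845107632 (.cons 0x8973654201 (.cons 0x9784201563 (.cons 0x7984201563 .nil)))) .done (.node 0 3 (.cons 0x2034897651 (.cons 0x6517984302 .nil)) (.node 3 5 (.cons 0x9847653201 (.cons 0x9847102356 .nil)) .done .done) .done)) .done) (.node 5 7 .nil (.node 4 6 (.cons 0x5643217890 (.cons 0x1234657890 .nil)) (.node 0 4 (.cons 0x5678904321 (.cons 0x6578904321 .nil)) (.node 0 8 (.cons 0x9087123465 (.cons 0x9087564321 .nil)) .done .done) (.node 0 2 (.cons 0x3465789021 (.cons 0x9845671023 (.cons 0x8902175643 .nil))) .done .done)) (.node 2 5 (.cons 0x6710984523 .nil) (.node 1 4 (.cons 0x9014876523 (.cons 0x6523789014 (.cons 0x3412567890 .nil))) .done (.node 3 9 (.cons 0x8456723901 (.cons 0x4893256710 .nil)) (.node 0 6 (.cons 0x5601239874 (.cons 0x9325601784 (.cons 0x5601748932 (.cons 0x4398712560 .nil)))) (.node 4 6 (.cons 0x5647893210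 (.cons 0x9325648710 (.cons 0x5246017893 .nil))) .done .done) (.node 0 8 (.cons 0x6712543980 .nil) (.node 1 3 (.cons 0x2134567980 (.cons 0x8097654312 (.cons 0x8097213456 (.cons 0x4312567980 .nil)))) .done (.node 6 9 (.cons 0x3254896701 (.cons 0x5690843271 (.cons 0x8096543271 (.cons 0x3217456980 .nil)))) .done .done)) .done)) (.node 4 6 (.cons 0x4652378901 (.cons 0x9017846523 (.cons 0x3465217890 .nil))) .done .done))) .done)) .done)) (.node 5 7 .nil (.node 2 6 (.cons 0x7109845623 (.cons 0x3267548901 (.cons 0x1756234890 .nil))) (.node 3 9 (.cons 0x5489326701 (.cons 0x6239845710 (.cons 0x4893265710 .nil))) .done (.node 1 9 (.cons 0x5623487190 (.cons 0x8432657190 .nil)) (.node 0 8 (.cons 0x8097126543 (.cons 0x8091267543 .nil)) .done .done) .done)) (.node 2 5 (.cons 0x6710984523 .nil) (.node 1 4 (.cons 0x9014876523 (.cons 0x6523789014 (.cons 0x8901452376 (.cons 0x3412567890 .nil)))) .done (.node 3 5 (.cons 0x6710984532 .nil) (.node 1 9 (.cons 0x2356748910 .nil) (.node 0 6 (.cons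 0x2348756091 (.cons 0x9178432560 (.cons 0x7198432560 (.cons 0x2198743560 (.cons 0x4789106532 .nil))))) .done (.node 0 6 (.cons 0x7601984523 (.cons 0x8453276091 (.cons 0x5234891760 (.cons 0x4352198760 (.cons 0x8910674532 .nil))))) .done .done)) (.node 4 6 (.cons 0x9874653210 (.cons 0x9017846532 .nil)) (.node 2 8 (.cons 0x4567328901 (.cons 0x6453710982 .nil)) (.node 0 3 (.cons 0x4653098721 (.cons 0x8217903456 (.cons 0x7128903465 .nil))) .done .done) .done) .done)) (.node 4 6 (.cons 0x4652378901 (.cons 0x9017846523 (.cons 0x3465217890 .nil))) .done .done))) .done)) .done)) .done))) (.node 0 4 (.cons 0x5678904321 .nil) (.node 2 8 (.cons 0x4567328901 (.cons 0x9823710456 (.cons 0x6540982371 .nil))) (.node 0 3 (.cons 0x8217903456 .nil) (.node 1 4 (.cons 0x6541037982 (.cons 0x5678903412 .nil)) (.node 1 8 (.cons 0x2189765430 (.cons 0x7654309812 .nil)) .done .done) (.node 0 6 (.cons 0x8217906543 (.cons 0x2890654371 .nil)) (.node 0 2 (.cons 0x8902176543 .nil) (.node 1 8 (.cons 0x9734560281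 (.cons 0x7609812345 (.cons 0x9028173456 .nil))) .done .done) (.node 1 4 (.cons 0x5603417982 .nil) (.node 1 9 (.cons 0x8234719065 .nil) (.node 2 5 (.cons 0x8743256091 (.cons 0x4306528971 (.cons 0x8719065234 (.cons 0x8906714523 .nil)))) .done .done) (.node 2 5 (.cons 0x3412567890 (.cons 0x4306528971 (.cons 0x9065287143 (.cons 0x6528903714 .nil)))) .done .done)) .done)) .done)) (.node 4 6 (.cons 0x5467328901 (.cons 0x5467109823 .nil)) (.node 5 9 (.cons 0x2378956401 (.cons 0x6459823710 (.cons 0x3289546710 (.cons 0x3217895640 .nil)))) .done (.node 2 4 (.cons 0x8901732456 .nil) (.node 1 5 (.cons 0x9873240156 (.cons 0x3789015642 (.cons 0x3421567890 .nil))) (.node 0 8 (.cons 0x6790821543 (.cons 0x9087651243 (.cons 0x9082345176 .nil))) .done .done) (.node 4 8 (.cons 0x2376548901 .nil) (.node 0 3 (.cons 0x8976542103 (.cons 0x9842301765 .nil)) (.node 5 9 (.cons 0x9567842301 (.cons 0x6598710423 (.cons 0x8217645903 .nil))) (.node 0 2 (.cons 0x3789564201 (.cons 0x8956420173 .nil)) .done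 .done) .done) .done) .done)) .done)) .done)) (.node 3 5 (.cons 0x6534098712 .nil) (.node 2 7 (.cons 0x6534098721 .nil) (.node 3 9 (.cons 0x6539872104 (.cons 0x8935401276 (.cons 0x8935672104 .nil))) .done (.node 2 5 (.cons 0x6521789043 .nil) (.node 5 7 .nil (.node 2 8 (.cons 0x4567328901 (.cons 0x6571289043 (.cons 0x6753409821 .nil))) .done .done) (.node 0 5 (.cons 0x6509871234 .nil) (.node 3 8 (.cons 0x9043871256 .nil) (.node 4 9 (.cons 0x7654983210 (.cons 0x8749012356 (.cons 0x6710549832 (.cons 0x2389456710 .nil)))) .done (.node 0 8 (.cons 0x6790834521 .nil) (.node 6 9 (.cons 0x5690874321 (.cons 0x8340967125 (.cons 0x4325690871 (.cons 0x4780965321 .nil)))) .done .done) .done)) .done) .done)) .done)) (.node 2 5 (.cons 0x3409876521 (.cons 0x6521789043 .nil)) (.node 3 8 (.cons 0x9043876521 (.cons 0x9043871256 .nil)) (.node 6 9 (.cons 0x7698354012 (.cons 0x8340967125 (.cons 0x2176983540 .nil))) (.node 2 8 (.cons 0x4532896701 (.cons 0x9671045283 (.cons 0x3409652871 (.cons 0x3825409671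 .nil)))) .done .done) .done) (.node 5 7 .nil (.node 3 6 (.cons 0x5634098712 (.cons 0x8901236754 (.cons 0x8904365712 .nil))) (.node 2 9 (.cons 0x1298765340 (.cons 0x8712904365 (.cons 0x8921765340 .nil))) (.node 0 8 (.cons 0x8012976354 (.cons 0x6710892354 (.cons 0x8092175436 .nil))) .done .done) .done) .done) .done)) (.node 2 5 (.cons 0x3409876521 (.cons 0x6521789043 .nil)) (.node 2 4 (.cons 0x8901732456 .nil) (.node 1 5 (.cons 0x6510987324 (.cons 0x3421567890 .nil)) .done (.node 3 9 (.cons 0x1256789340 (.cons 0x6521789340 .nil)) (.node 0 5 (.cons 0x6789340521 (.cons 0x6509871234 .nil)) (.node 1 4 (.cons 0x6509871432 .nil) (.node 4 6 (.cons 0x4678932501 (.cons 0x8932546710 .nil)) .done .done) .done) (.node 2 8 (.cons 0x4567328901 (.cons 0x6528937104 (.cons 0x8217653904 .nil))) .done .done)) .done)) (.node 2 7 .nil (.node 3 8 (.cons 0x6712540983 (.cons 0x1276543890 .nil)) (.node 0 5 (.cons 0x6509871234 (.cons 0x9834056721 .nil)) (.node 1 8 (.cons 0x6718905432 (.cons 0x3456721890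 (.cons 0x6509817234 .nil))) .done .done) (.node 3 6 (.cons 0x9047836521 (.cons 0x7125638904 (.cons 0x4563897210 .nil))) .done .done)) (.node 5 7 .nil (.node 2 8 (.cons 0x4567328901 (.cons 0x6571289043 .nil)) (.node 3 6 (.cons 0x8210976354 (.cons 0x9821045763 (.cons 0x5763409821 .nil))) .done .done) .done) .done)) .done)) .done))) (.node 2 8 (.cons 0x4567328901 (.cons 0x3289045671 .nil)) (.node 1 9 (.cons 0x5671982340 .nil) (.node 0 6 (.cons 0x7328910654 (.cons 0x9178234065 (.cons 0x7198234065 (.cons 0x2891734560 .nil)))) .done (.node 4 9 (.cons 0x6549823710 .nil) (.node 0 5 (.cons 0x6732891054 (.cons 0x8765094321 (.cons 0x6509871234 .nil))) (.node 3 9 (.cons 0x6501287493 (.cons 0x4398217650 .nil)) .done .done) .done) .done)) (.node 0 6 (.cons 0x8217906543 (.cons 0x2890654371 .nil)) (.node 1 5 (.cons 0x6079821543 (.cons 0x9043287156 (.cons 0x6517890432 (.cons 0x9065128743 .nil)))) .done (.node 1 5 (.cons 0x3406517982 (.cons 0x9043287156 (.cons 0x6517890432 (.cons 0x4371560982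 .nil)))) .done .done)) (.node 0 5 (.cons 0x6509871234 (.cons 0x6712890543 .nil)) (.node 4 6 (.cons 0x5467328901 (.cons 0x9823764501 .nil)) (.node 1 3 (.cons 0x6798213450 (.cons 0x8213450976 (.cons 0x7890564312 (.cons 0x5098764312 (.cons 0x7643128905 .nil))))) .done .done) (.node 4 9 (.cons 0x8765094321 (.cons 0x8712349056 .nil)) (.node 2 4 (.cons 0x8901732456 .nil) (.node 1 5 (.cons 0x9876510423 (.cons 0x6517890432 (.cons 0x3421567890 .nil))) .done (.node 3 5 (.cons 0x9876532401 (.cons 0x9823540176 (.cons 0x9871042356 .nil))) .done .done)) .done) .done)) .done))) .done))) .done)))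
noncomputable def tc9_0_10 : T := (.node 4 7 .nil tc9_0_9 (.node 4 7 .nil (.node 1 5 (.cons 0x4321567890 (.cons 0x6512347890 .nil)) (.node 0 8 (.cons 0x9087651234 (.cons 0x9087432156 .nil)) (.node 3 9 (.cons 0x2176543980 (.cons 0x8093476512 .nil)) (.node 6 8 (.cons 0x7456893210 (.cons 0x2398654710 (.cons 0x4786512390 .nil))) (.node 0 2 (.cons 0x9802176543 (.cons 0x8654397120 (.cons 0x3456897120 .nil))) (.node 3 5 (.cons 0x9802176534 (.cons 0x9867012354 .nil)) .done .done) .done) (.node 6 8 (.cons 0x7680934512 (.cons 0x5476893210 (.cons 0x8674510932 (.cons 0x8674512390 .nil)))) .done .done)) (.node 1 9 (.cons 0x2345671980 (.cons 0x6519087432 (.cons 0x8091567432 .nil))) (.node 2 9 (.cons 0x1765432980 (.cons 0x6547108923 (.cons 0x8092347651 .nil))) (.node 1 3 (.cons 0x4567132980 (.cons 0x6547132980 (.cons 0x8092315674 .nil))) .done .done) .done) .done)) (.node 0 2 (.cons 0x6512098743 (.cons 0x8902156743 .nil)) (.node 0 8 (.cons 0x9802176543 (.cons 0x9802345671 .nil)) (.node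 1 8 (.cons 0x7654321890 (.cons 0x6734518902 .nil)) .done .done) (.node 0 3 (.cons 0x4309876512 (.cons 0x8903476512 .nil)) (.node 3 8 (.cons 0x8345679021 (.cons 0x6547983012 .nil)) (.node 6 9 (.cons 0x5120967834 (.cons 0x8347690215 (.cons 0x8965471032 (.cons 0x8965471230 .nil)))) .done .done) .done) .done)) .done)) (.node 5 7 .nil (.node 1 8 (.cons 0x7654321890 (.cons 0x6754321890 .nil)) (.node 2 7 .nil (.node 0 4 (.cons 0x5678904321 (.cons 0x6578904321 (.cons 0x6572189043 (.cons 0x6572340981 .nil)))) .done (.node 0 4 (.cons 0x5678904321 (.cons 0x6578904321 .nil)) (.node 3 6 (.cons 0x2736540981 (.cons 0x9043657812 (.cons 0x7563409812 .nil))) (.node 3 8 (.cons 0x3890456721 (.cons 0x9836754012 .nil)) .done .done) (.node 2 6 (.cons 0x9043265781 (.cons 0x9817562340 .nil)) (.node 1 5 (.cons 0x3409781562 (.cons 0x8907621543 .nil)) .done (.node 4 9 (.cons 0x7326549810 (.cons 0x3265789401 (.cons 0x6237549810 .nil))) .done .done)) .done)) .done)) (.node 2 7 (.cons 0x3456721890 .nil)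 (.node 1 5 (.cons 0x4321567890 .nil) (.node 1 6 (.cons 0x8907612345 .nil) (.node 4 8 (.cons 0x2376548901 (.cons 0x7561234890 (.cons 0x5761234890 .nil))) (.node 0 4 (.cons 0x5678904321 (.cons 0x6578904321 .nil)) (.node 2 8 (.cons 0x4567328901 (.cons 0x2890437561 (.cons 0x5761289043 .nil))) .done (.node 0 8 (.cons 0x9087651234 .nil) (.node 3 9 (.cons 0x7654893210 (.cons 0x1657239840 (.cons 0x6754893210 (.cons 0x6574390812 .nil)))) .done .done) .done)) (.node 0 4 (.cons 0x5678904321 (.cons 0x6578904321 .nil)) (.node 1 3 (.cons 0x1327654890 (.cons 0x6578904312 (.cons 0x6754890132 .nil))) .done .done) .done)) .done) (.node 1 4 (.cons 0x8901456732 .nil) (.node 6 8 (.cons 0x5410986732 (.cons 0x3214576890 .nil)) (.node 4 9 (.cons 0x6894510732 (.cons 0x6894570123 .nil)) (.node 0 4 (.cons 0x5678904321 (.cons 0x6578904321 .nil)) (.node 3 9 (.cons 0x2394786510 (.cons 0x6893210754 (.cons 0x4576893210 (.cons 0x6893407512 .nil)))) .done .done) .done) (.node 0 2 (.cons 0x9023478651 (.cons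 0x9023415786 (.cons 0x5768902341 .nil))) (.node 0 8 (.cons 0x9087432156 .nil) .done .done) .done)) .done) .done)) .done) .done)) (.node 2 7 .nil (.node 1 8 (.cons 0x7654321890 (.cons 0x3456721890 .nil)) (.node 0 6 (.cons 0x8127906543 (.cons 0x2734560981 (.cons 0x9817234560 .nil))) (.node 1 4 (.cons 0x8901456732 (.cons 0x6098145732 .nil)) (.node 0 3 (.cons 0x8127903456 (.cons 0x8903412765 .nil)) (.node 4 8 (.cons 0x2376548901 (.cons 0x6548972103 (.cons 0x9845712306 (.cons 0x3276548901 .nil)))) .done .done) .done) (.node 1 6 (.cons 0x8907612345 (.cons 0x2734561890 .nil)) (.node 0 8 (.cons 0x9081654372 (.cons 0x3456180972 .nil)) (.node 0 3 (.cons 0x8127903456 (.cons 0x6543089712 .nil)) .done .done) .done) .done)) (.node 1 4 (.cons 0x8901456732 .nil) (.node 0 6 (.cons 0x6098145732 (.cons 0x5609872143 (.cons 0x5609872341 .nil))) (.node 3 8 (.cons 0x5609783412 (.cons 0x8345609721 .nil)) (.node 0 5 (.cons 0x9760543812 (.cons 0x9721834506 (.cons 0x6509872143 (.cons 0x6509872341 .nil))))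 .done .done) (.node 1 5 (.cons 0x4321567890 (.cons 0x8906514372 .nil)) (.node 5 9 (.cons 0x8123476095 (.cons 0x8159067234 .nil)) (.node 0 4 (.cons 0x6598712340 (.cons 0x8956043271 .nil)) (.node 1 3 (.cons 0x5678904312 (.cons 0x8904312765 .nil)) .done .done) .done) .done) .done)) (.node 3 8 (.cons 0x6541098372 .nil) (.node 0 5 (.cons 0x9056783412 (.cons 0x6509872143 (.cons 0x6721890543 (.cons 0x6723450981 .nil)))) (.node 5 9 (.cons 0x6590123874 (.cons 0x6745901832 .nil)) .done .done) (.node 0 4 (.cons 0x5678904321 (.cons 0x6540127983 (.cons 0x9832765401 .nil))) .done .done)) .done)) .done)) .done) .done)) .done)) (.node 4 7 .nil (.node 1 5 (.cons 0x4321567890 (.cons 0x6512347890 .nil)) (.node 1 6 (.cons 0x8907612345 .nil) (.node 3 5 (.cons 0x6532109874 .nil) (.node 4 8 (.cons 0x9845321076 (.cons 0x5610984732 (.cons 0x5348907612 .nil))) (.node 2 5 (.cons 0x8435216790 (.cons 0x8901652374 .nil)) (.node 5 7 (.cons 0x5761234890 .nil) .done .done) (.node 2 9 (.cons 0x8456710923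 (.cons 0x6532901784 (.cons 0x8453290176 (.cons 0x3298476510 (.cons 0x4892351670 .nil))))) .done .done)) (.node 2 5 (.cons 0x8901652374 .nil) (.node 1 4 (.cons 0x6523789014 (.cons 0x8901452376 (.cons 0x3412567890 .nil))) .done (.node 5 7 .nil (.node 1 8 (.cons 0x7654321890 (.cons 0x4732561890 (.cons 0x6754321890 .nil))) (.node 0 3 (.cons 0x7654309812 (.cons 0x6574309812 .nil)) .done .done) .done) .done)) .done)) (.node 5 7 .nil (.node 1 8 (.cons 0x7654321890 (.cons 0x6754321890 (.cons 0x6574321890 .nil))) .done (.node 1 8 (.cons 0x7654321890 .nil) (.node 1 4 (.cons 0x8901456732 .nil) (.node 2 7 (.cons 0x2734561890 .nil) (.node 0 6 (.cons 0x6098145732 (.cons 0x4756098123 (.cons 0x9810654723 .nil))) (.node 0 2 (.cons 0x9816543720 (.cons 0x5612098743 .nil)) (.node 0 3 (.cons 0x8976512034 (.cons 0x8974302156 .nil)) .done .done) .done) .done) .done) (.node 1 4 (.cons 0x8901456732 .nil) (.node 0 6 (.cons 0x6098145732 (.cons 0x8906574123 .nil)) (.node 0 2 (.cons 0x5437618902 (.cons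 0x5612098743 .nil)) (.node 0 3 (.cons 0x6578903214 (.cons 0x8974302156 .nil)) .done .done) (.node 1 3 (.cons 0x4576098132 (.cons 0x8906574132 .nil)) .done .done)) .done) .done)) .done)) .done)) (.node 0 2 (.cons 0x6512098743 (.cons 0x8902156743 .nil)) (.node 1 8 (.cons 0x7654321890 (.cons 0x3456798120 (.cons 0x6734518902 .nil))) (.node 3 8 (.cons 0x6709834512 (.cons 0x9834512076 .nil)) (.node 1 6 (.cons 0x8907612345 (.cons 0x5438976120 .nil)) (.node 2 5 (.cons 0x4379816520 (.cons 0x8165209734 (.cons 0x8901652374 (.cons 0x4732561890 .nil)))) .done .done) .done) .done) (.node 0 3 (.cons 0x4309876512 (.cons 0x8903476512 .nil)) (.node 3 8 (.cons 0x8345679021 (.cons 0x6547983012 .nil)) (.node 2 6 (.cons 0x7621543890 (.cons 0x8974562103 (.cons 0x5126743890 .nil))) (.node 2 8 (.cons 0x4567328901 (.cons 0x6547982103 (.cons 0x6547328901 .nil))) .done .done) .done) .done) .done)) .done)) (.node 5 7 .nil (.node 2 7 .nil (.node 1 8 (.cons 0x7654321890 (.cons 0x6754321890 (.cons 0x3456721890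 .nil))) (.node 4 8 (.cons 0x2376548901 (.cons 0x6754890123 (.cons 0x3276548901 .nil))) (.node 3 6 (.cons 0x9845701236 (.cons 0x9012365784 (.cons 0x9847563210 (.cons 0x3654897210 .nil)))) .done (.node 0 4 (.cons 0x5678904321 (.cons 0x6578904321 (.cons 0x9810456723 .nil))) (.node 0 2 (.cons 0x3456798120 .nil) (.node 0 3 (.cons 0x2189765430 (.cons 0x6579812034 .nil)) .done (.node 0 3 (.cons 0x2189765430 (.cons 0x6579812034 .nil)) .done .done)) .done) .done)) (.node 0 4 (.cons 0x5678904321 (.cons 0x9043218756 (.cons 0x6578904321 (.cons 0x6572189043 (.cons 0x6572340981 .nil))))) .done .done)) (.node 1 8 (.cons 0x7654321890 (.cons 0x6754321890 .nil)) (.node 1 6 (.cons 0x8907612345 .nil) (.node 4 8 (.cons 0x2376548901 (.cons 0x7561234890 (.cons 0x5761234890 .nil))) (.node 2 8 (.cons 0x4567328901 .nil) (.node 0 2 (.cons 0x3456798120 (.cons 0x9028437561 .nil)) (.node 0 3 (.cons 0x2189765430 (.cons 0x8216579034 (.cons 0x6579812034 .nil))) .done .done) (.node 4 6 (.cons 0x5467328901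 .nil) (.node 3 8 (.cons 0x5467901283 (.cons 0x6457901283 .nil)) .done (.node 0 3 (.cons 0x2189765430 (.cons 0x9034821675 (.cons 0x9823016475 .nil))) (.node 1 5 (.cons 0x7516432890 (.cons 0x2890346751 .nil)) .done .done) .done)) .done)) (.node 1 3 (.cons 0x1327654890 (.cons 0x6754890132 .nil)) (.node 0 2 (.cons 0x3456798120 (.cons 0x8431657902 (.cons 0x9847561023 .nil))) (.node 2 6 (.cons 0x8431790265 (.cons 0x1348975620 (.cons 0x9013265784 .nil))) .done .done) .done) .done)) (.node 2 8 (.cons 0x4567328901 (.cons 0x6128907543 (.cons 0x3457612890 .nil))) .done .done)) (.node 0 4 (.cons 0x5678904321 (.cons 0x9043218756 (.cons 0x6578904321 .nil))) (.node 0 6 (.cons 0x9810654732 (.cons 0x9065781234 (.cons 0x9812347560 .nil))) (.node 1 4 (.cons 0x8901456732 (.cons 0x6098145723 .nil)) .done .done) (.node 0 6 (.cons 0x9810654732 (.cons 0x9065781234 (.cons 0x9812347560 .nil))) (.node 1 3 (.cons 0x8904567231 (.cons 0x8906754312 (.cons 0x6572318904 .nil))) (.node 0 8 (.cons 0x2134567980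 .nil) .done .done) .done) .done)) (.node 4 8 (.cons 0x2376548901 (.cons 0x6754890123 .nil)) (.node 3 6 (.cons 0x5436709812 (.cons 0x9845701236 (.cons 0x9012365784 (.cons 0x9847563210 .nil)))) .done (.node 1 6 (.cons 0x8907612345 .nil) (.node 0 8 (.cons 0x9807612345 (.cons 0x9807543216 .nil)) .done (.node 1 5 (.cons 0x6157098432 .nil) (.node 1 3 (.cons 0x1327654890 (.cons 0x6754890132 .nil)) (.node 2 4 (.cons 0x6542731890 (.cons 0x9013248756 (.cons 0x2437561890 (.cons 0x5761098423 .nil)))) .done .done) .done) .done)) .done)) .done))) .done)) (.node 2 7 .nil (.node 1 8 (.cons 0x7654321890 (.cons 0x3456721890 .nil)) (.node 1 5 (.cons 0x4321567890 .nil) (.node 4 6 (.cons 0x4651098732 (.cons 0x3465127890 (.cons 0x1564327890 .nil))) (.node 0 4 (.cons 0x5678904321 (.cons 0x6512789043 (.cons 0x9810456723 .nil))) (.node 5 9 (.cons 0x9564018732 (.cons 0x9564018723 .nil)) .done .done) .done) (.node 3 8 (.cons 0x6709834512 (.cons 0x6721543890 .nil)) (.node 0 4 (.cons 0x5678904321 (.cons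 0x9043872156 (.cons 0x6512789043 (.cons 0x9810456723 .nil)))) (.node 0 6 (.cons 0x3897456012 (.cons 0x9721834560 (.cons 0x9834721560 (.cons 0x9832745601 .nil)))) .done .done) .done) .done)) (.node 0 6 (.cons 0x9810654732 (.cons 0x8127906543 (.cons 0x2734560981 (.cons 0x7234560981 .nil)))) (.node 0 3 (.cons 0x5603479812 (.cons 0x8127903456 .nil)) (.node 1 5 (.cons 0x4321567890 (.cons 0x8972156034 (.cons 0x6512789034 .nil))) .done .done) .done) (.node 1 4 (.cons 0x8901456732 .nil) (.node 4 8 (.cons 0x2376548901 (.cons 0x3276548901 .nil)) (.node 4 6 (.cons 0x3214657890 (.cons 0x5641098723 .nil)) (.node 0 6 (.cons 0x6098145732 (.cons 0x5609872143 (.cons 0x5609872341 .nil))) (.node 5 8 (.cons 0x6709854321 (.cons 0x3412798560 (.cons 0x5812790643 (.cons 0x9856014723 .nil)))) .done .done) .done) .done) (.node 4 8 (.cons 0x2376548901 (.cons 0x3276548901 .nil)) (.node 3 6 (.cons 0x4576321890 (.cons 0x3654897210 (.cons 0x3657214890 .nil))) (.node 0 3 (.cons 0x5678903412 (.cons 0x6572148903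 .nil)) (.node 4 6 (.cons 0x4657890321 (.cons 0x6457230981 .nil)) .done .done) .done) .done) .done)) .done))) .done) .done)) .done)) .done)))
noncomputable def tc9_0_11 : T := (.node 1 7 (.cons 0x2176543890 .nil) (.node 1 5 (.cons 0x4321567890 (.cons 0x6709834512 .nil)) (.node 1 6 (.cons 0x8907612345 (.cons 0x5438907612 .nil)) (.node 0 8 (.cons 0x6543217980 .nil) (.node 2 7 (.cons 0x9083456721 .nil) (.node 4 9 (.cons 0x6721549083 (.cons 0x2156783490 (.cons 0x2389456710 .nil))) (.node 0 4 (.cons 0x5678904321 (.cons 0x5617238940 .nil)) (.node 0 6 (.cons 0x8945601732 (.cons 0x1723894560 .nil)) .done .done) .done) .done) (.node 6 8 (.cons 0x9076834512 (.cons 0x9076832154 .nil)) (.node 0 4 (.cons 0x5678904321 (.cons 0x9786512340 (.cons 0x9043876512 .nil))) (.node 1 9 (.cons 0x5687912340 (.cons 0x2345197680 (.cons 0x5678340912 .nil))) .done .done) .done) .done)) .done) (.node 0 8 (.cons 0x6543217980 .nil) (.node 1 8 (.cons 0x7654321890 .nil) (.node 1 3 (.cons 0x8097654312 .nil)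 (.node 3 6 (.cons 0x5436790812 .nil) (.node 6 8 (.cons 0x4510798632 (.cons 0x4512368970 .nil)) .done .done) .done) .done) (.node 0 2 (.cons 0x9802345671 (.cons 0x6543208971 (.cons 0x6517980234 .nil))) (.node 4 6 (.cons 0x4651098732 (.cons 0x9780234651 (.cons 0x8790215643 (.cons 0x8790234651 .nil)))) (.node 1 4 (.cons 0x8901456732 (.cons 0x9021438765 .nil)) (.node 1 8 (.cons 0x8120976543 .nil) .done .done) .done) .done) .done)) .done)) (.node 0 8 (.cons 0x8097123456 (.cons 0x9083456712 .nil)) (.node 1 5 (.cons 0x4321567890 (.cons 0x6709834512 .nil)) (.node 1 6 (.cons 0x9807615432 (.cons 0x5438907612 .nil)) (.node 6 9 (.cons 0x2154389670 (.cons 0x4510769832 (.cons 0x4512389670 .nil))) .done .done) (.node 0 6 (.cons 0x7890651234 (.cons 0x8790651234 .nil)) (.node 4 7 (.cons 0x8974321560 (.cons 0x7438906512 .nil)) .done (.node 0 4 (.cons 0x5678904321 (.cons 0x8790432156 .nil)) (.node 6 8 (.cons 0x2379865401 (.cons 0x8654097123 .nil)) .done .done) .done)) .done)) .done) .done))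 (.node 4 7 (.cons 0x6547983210 (.cons 0x8321097456 .nil)) (.node 3 6 (.cons 0x7456389012 (.cons 0x8365479012 .nil)) (.node 4 8 (.cons 0x2376548901 (.cons 0x5489763210 .nil)) (.node 3 5 (.cons 0x9845321076 .nil) (.node 1 8 (.cons 0x7654321890 .nil) (.node 2 6 (.cons 0x2654738901 (.cons 0x9748356210 (.cons 0x6218354790 .nil))) (.node 0 6 (.cons 0x7609812345 (.cons 0x9748356012 (.cons 0x7906218345 (.cons 0x9760184532 .nil)))) .done .done) (.node 0 2 (.cons 0x9845673201 (.cons 0x8120976543 (.cons 0x6548973201 (.cons 0x9765348120 .nil)))) .done .done)) .done) (.node 4 6 (.cons 0x8970123645 .nil) (.node 5 7 (.cons 0x9832107546 (.cons 0x9012387564 (.cons 0x6457098321 .nil))) .done (.node 0 4 (.cons 0x5678904321 .nil) (.node 4 9 (.cons 0x7894012365 .nil) (.node 3 5 (.cons 0x8764901235 .nil) (.node 1 8 (.cons 0x7654321890 (.cons 0x6540189732 (.cons 0x6790184532 (.cons 0x6534097812 .nil)))) .done .done) .done) .done) .done)) .done)) (.node 2 6 (.cons 0x2654738901 (.cons 0x3897456210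 .nil)) (.node 3 9 (.cons 0x5621093874 .nil) (.node 1 6 (.cons 0x8907612345 .nil) (.node 0 8 (.cons 0x9807612345 (.cons 0x7908345621 (.cons 0x5479380162 .nil))) .done (.node 2 4 (.cons 0x7389016542 (.cons 0x5638974210 (.cons 0x8379016245 .nil))) (.node 0 3 (.cons 0x7890342165 (.cons 0x8790342165 .nil)) .done .done) .done)) .done) (.node 0 3 (.cons 0x8309745621 .nil) (.node 1 3 (.cons 0x8312654790 (.cons 0x8903126745 .nil)) (.node 0 8 (.cons 0x2134567980 (.cons 0x4567980132 .nil)) .done .done) .done) .done)) .done)) .done) (.node 1 8 (.cons 0x7654321890 .nil) (.node 2 8 (.cons 0x4567328901 .nil) (.node 0 4 (.cons 0x5678904321 (.cons 0x9732810456 (.cons 0x6540189732 .nil))) (.node 0 2 (.cons 0x9810237654 (.cons 0x5679812043 .nil)) (.node 1 6 (.cons 0x7328901654 (.cons 0x5612879043 (.cons 0x9734028165 (.cons 0x9734561820 .nil)))) .done .done) (.node 4 8 (.cons 0x2376548901 .nil) (.node 4 6 (.cons 0x5467983210 (.cons 0x8321097645 .nil)) (.node 3 6 (.cons 0x7982365401 (.cons 0x2845637901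 .nil)) (.node 4 7 (.cons 0x5632897401 (.cons 0x9740182365 .nil)) .done .done) .done) .done) .done)) (.node 0 4 (.cons 0x5678904321 (.cons 0x6540189732 .nil)) (.node 1 5 (.cons 0x4321567890 (.cons 0x8790432156 (.cons 0x6790451283 .nil))) (.node 6 8 (.cons 0x2154386790 (.cons 0x4510976832 .nil)) (.node 1 7 (.cons 0x7123456890 .nil) (.node 3 5 (.cons 0x9045382176 (.cons 0x9867012354 (.cons 0x9043568712 .nil))) .done .done) .done) .done) (.node 3 5 (.cons 0x6798354012 (.cons 0x6790453821 .nil)) (.node 4 6 (.cons 0x5467983210 (.cons 0x8321097645 (.cons 0x9810764532 .nil))) (.node 1 5 (.cons 0x6790451283 (.cons 0x4651098732 .nil)) (.node 0 2 (.cons 0x9810237654 (.cons 0x9028376451 (.cons 0x2098734651 (.cons 0x5679812043 .nil)))) .done .done) .done) (.node 2 6 (.cons 0x7890435621 (.cons 0x5401267983 (.cons 0x9781265340 (.cons 0x7981265340 .nil)))) .done .done)) (.node 4 6 (.cons 0x5467983210 (.cons 0x8321097645 .nil)) (.node 1 5 (.cons 0x4321567890 (.cons 0x4651098732 .nil)) (.node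 1 3 (.cons 0x7654098231 (.cons 0x6513287904 (.cons 0x8231567904 .nil))) .done (.node 0 2 (.cons 0x9810237654 (.cons 0x9028376451 (.cons 0x2098734651 (.cons 0x7643890215 .nil)))) .done .done)) (.node 4 8 (.cons 0x2376548901 .nil) (.node 1 6 (.cons 0x8907612345 (.cons 0x1654823790 .nil)) (.node 0 5 (.cons 0x9812345076 (.cons 0x6509784321 (.cons 0x7981650432 .nil))) (.node 2 5 (.cons 0x2546738901 (.cons 0x3897645210 (.cons 0x9761834052 (.cons 0x7981652340 .nil)))) .done .done) .done) .done) .done)) .done))) .done)) (.node 2 8 (.cons 0x4567328901 .nil) (.node 4 8 (.cons 0x2376548901 .nil) (.node 0 4 (.cons 0x9823765401 (.cons 0x9732810456 (.cons 0x3289765401 .nil))) (.node 2 4 (.cons 0x8109732456 .nil) (.node 1 5 (.cons 0x4321567890 (.cons 0x9873240156 (.cons 0x8790432156 (.cons 0x3421567890 .nil)))) .done (.node 4 9 (.cons 0x6549732810 .nil) (.node 4 6 (.cons 0x5467983210 (.cons 0x5643218790 .nil)) (.node 0 3 (.cons 0x7654982301 (.cons 0x9765482103 .nil)) (.node 1 5 (.cons 0x4321567890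 (.cons 0x2156798430 (.cons 0x9765128430 (.cons 0x9824673015 .nil)))) .done .done) .done) .done) .done)) .done) (.node 2 7 (.cons 0x6548109723 .nil) (.node 2 6 (.cons 0x5483267901 .nil) (.node 1 5 (.cons 0x4321567890 (.cons 0x9845107623 (.cons 0x6790154832 (.cons 0x7621543890 .nil)))) .done (.node 3 6 (.cons 0x1845632790 .nil) (.node 1 5 (.cons 0x4321567890 (.cons 0x9845107632 (.cons 0x6790154832 (.cons 0x9821543670 .nil)))) .done (.node 2 5 (.cons 0x9845236701 (.cons 0x9701845236 (.cons 0x6325489701 .nil))) .done .done)) .done)) .done) .done)) (.node 2 6 (.cons 0x4562379810 (.cons 0x8109732654 .nil)) (.node 1 5 (.cons 0x4321567890 (.cons 0x7621543890 .nil)) (.node 0 6 (.cons 0x4560973281 (.cons 0x2154389760 (.cons 0x6079815432 .nil))) (.node 1 6 (.cons 0x4561823790 (.cons 0x5437098162 .nil)) .done .done) (.node 0 4 (.cons 0x5678904321 (.cons 0x6540973281 (.cons 0x8790432156 (.cons 0x9043781562 (.cons 0x6518790432 .nil))))) .done .done)) (.node 1 6 (.cons 0x8907612345 (.cons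 0x4561823790 .nil)) (.node 0 5 (.cons 0x6509781234 (.cons 0x8970543216 (.cons 0x2167983450 (.cons 0x6189705432 .nil)))) (.node 1 4 (.cons 0x1456732890 (.cons 0x6541823790 (.cons 0x9823761450 (.cons 0x7341890562 .nil)))) .done .done) (.node 0 2 (.cons 0x7345618902 (.cons 0x8165437902 .nil)) (.node 2 5 (.cons 0x7612543890 (.cons 0x8345216790 .nil)) (.node 0 6 (.cons 0x9816073452 (.cons 0x4560973281 (.cons 0x4523897601 .nil))) .done .done) .done) .done)) .done)) .done)) (.node 0 8 (.cons 0x1234567980 .nil) (.node 1 5 (.cons 0x4321567890 (.cons 0x9087651234 .nil)) (.node 0 6 (.cons 0x2154389760 (.cons 0x4510679832 .nil)) (.node 4 8 (.cons 0x9760123845 (.cons 0x9784321560 (.cons 0x9760154832 .nil))) .done (.node 0 2 (.cons 0x8120976543 (.cons 0x4379815602 .nil)) .done .done)) (.node 4 6 (.cons 0x4651098732 (.cons 0x5467983210 (.cons 0x8321097645 .nil))) (.node 4 7 (.cons 0x9087432156 .nil) (.node 0 6 (.cons 0x8790651234 (.cons 0x8974321560 (.cons 0x6015479832 .nil))) .done .done)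 (.node 1 7 (.cons 0x9087156432 .nil) (.node 0 2 (.cons 0x8790234651 (.cons 0x8971564320 .nil)) (.node 2 9 (.cons 0x5467108923 (.cons 0x7156432980 (.cons 0x6451708923 .nil))) .done .done) .done) .done)) .done)) (.node 1 7 (.cons 0x6543217980 (.cons 0x8097123456 .nil)) .done (.node 4 8 (.cons 0x2376548901 .nil) (.node 0 2 (.cons 0x9845673201 (.cons 0x8120976543 (.cons 0x6548973201 .nil))) (.node 3 5 (.cons 0x9845321076 (.cons 0x4356798120 (.cons 0x9765348120 .nil))) (.node 0 3 (.cons 0x7654309812 .nil) (.node 4 6 (.cons 0x7890123564 (.cons 0x9784653210 (.cons 0x9784653012 (.cons 0x7984653201 .nil)))) .done .done) .done) .done) (.node 1 6 (.cons 0x8907612345 (.cons 0x2379845610 (.cons 0x5612348790 .nil))) (.node 3 6 (.cons 0x5436709812 (.cons 0x7984563210 (.cons 0x5632109784 .nil))) .done .done) .done)) .done))) .done))) .done)))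
noncomputable def uc9_0_1 : T := (.node 3 8 (.cons 0x4567983210 .nil) tc9_0_11 (.node 1 7 .nil tc9_0_10 (.node 2 7 .nil (.node 1 8 (.cons 0x7654321890 (.cons 0x3456721890 .nil)) (.node 1 5 (.cons 0x4321567890 .nil) (.node 1 6 (.cons 0x8907612345 .nil) (.node 6 9 (.cons 0x5432189670 .nil) (.node 3 8 (.cons 0x4387215690 (.cons 0x8345127690 .nil)) (.node 1 7 (.cons 0x2176543890 .nil) .done .done) (.node 4 8 (.cons 0x2376548901 (.cons 0x8432709615 (.cons 0x8451096723 (.cons 0x3276548901 .nil)))) (.node 1 4 (.cons 0x8901456732 (.cons 0x8723415690 .nil)) (.node 3 5 (.cons 0x5348907612 (.cons 0x8967235410 (.cons 0x7216534890 .nil))) .done .done) .done) .done)) (.node 3 8 (.cons 0x5438907612 (.cons 0x7216543890 .nil)) (.node 0 8 (.cons 0x9087651234 (.cons 0x9083451276 (.cons 0x9083451672 .nil))) (.node 1 7 .nil (.node 6 9 (.cons 0x5432189670 (.cons 0x8096517234 .nil)) .done .done) .done) .done) .done)) (.node 6 8 (.cons 0x6890721543 (.cons 0x6890723451 .nil)) (.node 4 6 (.cons 0x3215468970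 (.cons 0x9078643215 (.cons 0x3465127890 (.cons 0x1564327890 .nil)))) .done (.node 0 4 (.cons 0x3218976540 (.cons 0x6512789043 (.cons 0x9810456723 .nil))) (.node 6 9 (.cons 0x5432189670 (.cons 0x8721569043 (.cons 0x9651872340 .nil))) (.node 0 5 (.cons 0x5076981234 (.cons 0x6981507234 .nil)) (.node 0 3 (.cons 0x4567981230 (.cons 0x7218965034 (.cons 0x9812765034 .nil))) .done .done) .done) (.node 5 8 (.cons 0x6709854321 .nil) (.node 1 3 (.cons 0x6709854312 (.cons 0x9043127856 (.cons 0x6721345890 (.cons 0x4312765890 .nil)))) .done (.node 1 6 (.cons 0x2379816540 (.cons 0x9043278561 (.cons 0x7234098561 (.cons 0x5612789043 .nil)))) .done .done)) .done)) .done)) (.node 3 8 (.cons 0x6709834512 (.cons 0x6721543890 .nil)) (.node 0 4 (.cons 0x3218976540 (.cons 0x9043872156 (.cons 0x6512789043 (.cons 0x9810456723 .nil)))) (.node 0 3 (.cons 0x4567981230 (.cons 0x9721830456 .nil)) (.node 3 6 (.cons 0x8907634512 (.cons 0x1279836540 (.cons 0x9721836540 .nil))) .done .done) .done) .done) .done)))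 (.node 1 6 (.cons 0x8907612345 (.cons 0x2734561890 .nil)) (.node 0 8 (.cons 0x9807612345 .nil) (.node 5 9 (.cons 0x8954321670 (.cons 0x6127089543 (.cons 0x6189543270 .nil))) (.node 1 5 (.cons 0x4321567890 .nil) (.node 2 9 (.cons 0x1654372980 (.cons 0x6518092734 .nil)) (.node 4 9 (.cons 0x8765123490 (.cons 0x6512780943 (.cons 0x6518723490 .nil))) .done .done) .done) .done) (.node 1 7 (.cons 0x9081723456 .nil) (.node 0 3 (.cons 0x8903456712 (.cons 0x9723081654 (.cons 0x9803456172 .nil))) (.node 1 4 (.cons 0x8901456732 (.cons 0x6541809723 .nil)) (.node 5 9 (.cons 0x8954321670 (.cons 0x4308956172 (.cons 0x5980341672 (.cons 0x6189543270 .nil)))) .done .done) .done) .done) .done)) (.node 0 8 (.cons 0x4561809732 (.cons 0x9081654372 (.cons 0x4561809723 .nil))) .done (.node 0 4 (.cons 0x5678904321 (.cons 0x5618904372 (.cons 0x7234098165 .nil))) (.node 6 9 (.cons 0x7812340965 (.cons 0x5690432781 .nil)) (.node 3 6 (.cons 0x5632187904 (.cons 0x5436981270 (.cons 0x8127096345 .nil))) .done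 .done) (.node 1 5 (.cons 0x4321567890 (.cons 0x6512789043 .nil)) (.node 6 9 (.cons 0x7896512340 (.cons 0x1569872340 .nil)) (.node 3 6 (.cons 0x8970451236 (.cons 0x5436981270 (.cons 0x8127096345 .nil))) .done .done) (.node 6 9 (.cons 0x8721569043 (.cons 0x4327815690 .nil)) (.node 2 8 (.cons 0x7328965401 (.cons 0x8237690154 (.cons 0x6907328154 .nil))) .done .done) .done)) .done)) .done))) (.node 0 5 (.cons 0x6721890543 (.cons 0x6723450981 .nil)) (.node 4 8 (.cons 0x2376548901 (.cons 0x3276548901 .nil)) (.node 2 9 (.cons 0x6732984501 (.cons 0x4892376501 .nil)) (.node 1 9 (.cons 0x2376548910 (.cons 0x4891056732 .nil)) (.node 0 2 (.cons 0x9120567843 (.cons 0x2056734891 .nil)) .done .done) .done) (.node 1 4 (.cons 0x8901456732 (.cons 0x6509784123 .nil)) (.node 0 3 (.cons 0x9784123056 (.cons 0x8976503214 .nil)) (.node 0 8 (.cons 0x6541279803 (.cons 0x9801456723 .nil)) .done .done) (.node 1 6 (.cons 0x8907612345 (.cons 0x6184509732 .nil)) (.node 0 2 (.cons 0x9732054816 (.cons 0x9873416502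 (.cons 0x4897320561 .nil))) .done (.node 3 5 (.cons 0x6123507984 (.cons 0x6534127890 .nil)) (.node 0 8 (.cons 0x4809721653 (.cons 0x4809723561 .nil)) .done .done) .done)) .done)) (.node 1 3 (.cons 0x9056784312 (.cons 0x6548901372 (.cons 0x5672134890 .nil))) (.node 4 7 (.cons 0x6509874321 .nil) (.node 3 9 (.cons 0x6501239874 (.cons 0x8932105476 (.cons 0x3984765012 .nil))) .done (.node 2 4 (.cons 0x9810542376 .nil) (.node 1 4 (.cons 0x9873241056 .nil) .done (.node 6 8 (.cons 0x5423768901 (.cons 0x9867324501 (.cons 0x7689013245 (.cons 0x9054768123 .nil)))) .done .done)) .done)) (.node 0 3 (.cons 0x6548972130 (.cons 0x4897650312 .nil)) (.node 0 8 (.cons 0x9721308456 (.cons 0x9801327654 .nil)) .done .done) .done)) .done))) (.node 6 9 (.cons 0x5096781234 (.cons 0x8127690543 .nil)) (.node 0 6 (.cons 0x7609812345 (.cons 0x5432760981 .nil)) (.node 4 8 (.cons 0x2376548901 (.cons 0x5096721843 (.cons 0x3276548901 .nil))) (.node 1 9 (.cons 0x2376548910 (.cons 0x5069184372 .nil)) (.node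 3 8 (.cons 0x4387650912 (.cons 0x6509127834 .nil)) .done .done) (.node 1 5 (.cons 0x4321567890 (.cons 0x9605184372 (.cons 0x6098154372 (.cons 0x6905184372 .nil)))) .done .done)) .done) (.node 3 8 (.cons 0x9672381054 .nil) (.node 1 4 (.cons 0x5096781432 (.cons 0x5410769832 (.cons 0x8321456790 (.cons 0x6509783214 (.cons 0x9056783412 .nil))))) .done (.node 1 7 (.cons 0x4569832710 (.cons 0x8327109654 (.cons 0x6905438172 .nil))) .done .done)) .done)) (.node 4 6 (.cons 0x7890564321 (.cons 0x3465098721 .nil)) (.node 5 9 (.cons 0x2376459810 (.cons 0x3276459810 .nil)) (.node 0 2 (.cons 0x6437205981 .nil) (.node 0 3 (.cons 0x5467981230 (.cons 0x5981276430 .nil)) .done .done) .done) (.node 5 9 (.cons 0x8109546732 (.cons 0x8109546723 .nil)) (.node 3 8 (.cons 0x4650978321 (.cons 0x1278346590 .nil)) (.node 3 6 (.cons 0x4598367012 (.cons 0x4638127950 .nil)) .done .done) .done) (.node 1 6 (.cons 0x7890561234 (.cons 0x3279816450 (.cons 0x8164509723 (.cons 0x7234618905 (.cons 0x6189054372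 .nil))))) .done .done))) .done))) .done))) (.node 2 8 (.cons 0x4567328901 .nil) tc9_0_8 (.node 1 7 .nil tc9_0_6 .done))) .done)))
theorem sub_c9_0_1 : root 9 refs9_0 [] 0x700000008704000000004060020050060500000000504000000004010000020010300000000302000000002018050000010 0xfe7fff6fff8bff9fffcfffedfff1fff3fff9fedd 9 7 9 .nil uc9_0_1 = true := by decide +kernel
noncomputable def tc9_0_12 : T := (.node 2 7 (.cons 0x3456721890 .nil) (.node 1 7 .nil (.node 2 4 (.cons 0x6510987324 (.cons 0x8901732456 .nil)) (.node 0 2 (.cons 0x9024378156 (.cons 0x6543718902 .nil)) (.node 4 6 (.cons 0x7346518902 (.cons 0x2346517890 .nil)) (.node 0 3 (.cons 0x7890346512 (.cons 0x5643098712 .nil)) (.node 0 4 (.cons 0x5678904321 (.cons 0x6517890432 .nil)) (.node 2 6 (.cons 0x6273451890 (.cons 0x9817340265 (.cons 0x8904562371 .nil))) .done .done) .done) .done) .done) .done) .done) (.node 1 4 (.cons 0x8901456732 .nil) (.node 2 4 (.cons 0x6510987324 .nil) (.node 1 7 (.cons 0x8901732456 .nil) (.node 1 9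 .nil (.node 2 8 (.cons 0x4567328901 (.cons 0x4567328910 .nil)) (.node 4 8 (.cons 0x2376548901 (.cons 0x6519078432 .nil)) .done .done) (.node 1 3 (.cons 0x6542731890 .nil) (.node 1 6 (.cons 0x3724561890 .nil) .done .done) .done)) .done) (.node 4 8 (.cons 0x2376548901 .nil) (.node 2 8 (.cons 0x4567328901 .nil) (.node 3 8 (.cons 0x9076543812 .nil) (.node 1 7 (.cons 0x6548901732 .nil) (.node 1 9 (.cons 0x4567328910 .nil) (.node 2 9 (.cons 0x8129076543 .nil) (.node 3 9 (.cons 0x6548127093 .nil) .done .done) .done) .done) .done) .done) (.node 4 6 (.cons 0x4651098732 .nil) (.node 0 4 (.cons 0x5678904321 .nil) (.node 4 9 (.cons 0x8709432156 .nil) .done .done) .done) .done)) .done)) (.node 1 7 .nil (.node 4 8 (.cons 0x2376548901 (.cons 0x6548901732 .nil)) (.node 2 4 (.cons 0x6510987324 (.cons 0x8901732456 .nil)) (.node 0 3 (.cons 0x7654309812 (.cons 0x6548903271 (.cons 0x6517230984 .nil))) (.node 2 5 (.cons 0x8901452376 (.cons 0x9845230176 .nil)) .done .done) .done) .done) .done)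 .done)) .done)) (.node 2 7 (.cons 0x3456721890 .nil) (.node 1 7 .nil (.node 2 4 (.cons 0x6510987324 (.cons 0x8901732456 .nil)) (.node 1 4 (.cons 0x8901456732 .nil) (.node 4 8 (.cons 0x2376548901 (.cons 0x6548901732 .nil)) (.node 2 6 (.cons 0x9078432651 (.cons 0x7156234890 .nil)) (.node 3 9 (.cons 0x9326514870 (.cons 0x6548932710 (.cons 0x8451709326 (.cons 0x8423901765 .nil)))) .done .done) .done) .done) .done) .done) (.node 3 5 (.cons 0x8901235476 .nil) (.node 2 5 .nil (.node 0 6 (.cons 0x7890651234 (.cons 0x9812534760 (.cons 0x6098743251 .nil))) (.node 3 9 (.cons 0x8935476012 (.cons 0x6521870934 (.cons 0x8125439076 (.cons 0x8125670934 .nil)))) .done .done) (.node 7 9 .nil (.node 0 3 (.cons 0x7654309812 (.cons 0x6521879034 (.cons 0x8125430976 (.cons 0x8125679034 .nil)))) .done (.node 5 7 .nil (.node 2 6 (.cons 0x8901547326 .nil) (.node 2 4 (.cons 0x6510987324 .nil) (.node 0 3 (.cons 0x6542730981 (.cons 0x9812675430 (.cons 0x9810375624 .nil))) (.node 3 8 (.cons 0x9076543812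 (.cons 0x6210389754 .nil)) .done .done) .done) (.node 0 6 (.cons 0x8974351260 (.cons 0x8906215743 (.cons 0x8906234751 .nil))) .done .done)) .done) .done)) .done)) (.node 2 5 .nil (.node 3 9 (.cons 0x6521870934 (.cons 0x8125439076 (.cons 0x8125670934 .nil))) (.node 6 8 (.cons 0x6890154732 (.cons 0x5476893210 (.cons 0x3254768901 (.cons 0x2186745390 .nil)))) .done .done) (.node 2 4 (.cons 0x6510987324 .nil) (.node 2 6 (.cons 0x8901547326 .nil) (.node 1 4 (.cons 0x8901456732 .nil) (.node 1 7 .nil (.node 4 8 (.cons 0x2376548901 (.cons 0x6548901732 (.cons 0x7156234890 .nil))) .done .done) .done) .done) (.node 7 9 (.cons 0x6534218790 .nil) (.node 4 9 (.cons 0x2187653490 .nil) (.node 5 7 .nil (.node 1 6 (.cons 0x3561872490 (.cons 0x3249875610 (.cons 0x8756109423 (.cons 0x2437561890 .nil)))) .done .done) .done) .done) .done)) .done)) .done)) .done)) (.node 0 2 (.cons 0x6512098743 .nil) (.node 0 4 (.cons 0x5678904321 .nil) (.node 0 3 (.cons 0x7654309812 .nil) (.node 2 4 (.cons 0x6510987324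 .nil) (.node 1 4 (.cons 0x8901456732 .nil) (.node 4 6 (.cons 0x9873246510 .nil) (.node 4 8 (.cons 0x2376548901 .nil) (.node 4 9 (.cons 0x5673018942 .nil) .done .done) .done) .done) (.node 1 4 (.cons 0x8901456732 .nil) (.node 4 6 (.cons 0x4651098732 .nil) (.node 4 8 (.cons 0x2376548901 .nil) (.node 4 9 (.cons 0x8732490156 .nil) .done .done) .done) .done) .done)) .done) (.node 4 6 (.cons 0x4651098732 .nil) (.node 0 5 .nil (.node 1 7 (.cons 0x6543718902 (.cons 0x8905432176 .nil)) (.node 0 8 (.cons 0x9805432176 .nil) .done .done) (.node 0 6 (.cons 0x3478906512 .nil) (.node 1 6 (.cons 0x7345618902 .nil) (.node 3 6 (.cons 0x2156347890 .nil) .done .done) .done) .done)) (.node 3 6 (.cons 0x2156347890 .nil) (.node 1 6 (.cons 0x7345618902 .nil) (.node 0 5 (.cons 0x9874365021 .nil) (.node 0 6 (.cons 0x3478906512 .nil) .done .done) .done) (.node 1 6 (.cons 0x7345618902 .nil) (.node 1 4 (.cons 0x8901456732 .nil) (.node 1 7 (.cons 0x6543718902 .nil) .done .done) .done) .done)) .done))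 .done)) (.node 0 4 (.cons 0x5678904321 .nil) (.node 0 3 (.cons 0x7654309812 .nil) (.node 2 4 (.cons 0x6510987324 .nil) (.node 2 7 (.cons 0x3456721890 .nil) (.node 7 9 (.cons 0x5679812430 .nil) (.node 4 9 (.cons 0x6518942730 .nil) (.node 1 7 (.cons 0x8942301765 .nil) (.node 5 7 (.cons 0x6578904321 .nil) .done .done) .done) .done) .done) (.node 2 5 (.cons 0x8903476521 .nil) (.node 2 7 (.cons 0x3456721890 .nil) (.node 5 7 (.cons 0x6578904321 .nil) .done .done) (.node 2 7 (.cons 0x3456721890 .nil) (.node 5 7 (.cons 0x6578904321 .nil) .done .done) .done)) .done)) .done) (.node 4 6 (.cons 0x4651098732 .nil) (.node 0 5 .nil (.node 2 4 (.cons 0x9873246510 (.cons 0x9056781243 (.cons 0x9873246501 .nil))) .done (.node 0 6 (.cons 0x3478906512 .nil) (.node 1 6 (.cons 0x9873461502 .nil) (.node 3 6 (.cons 0x2156347890 .nil) .done .done) .done) .done)) (.node 3 6 (.cons 0x2156347890 .nil) (.node 1 6 (.cons 0x5437618902 .nil) (.node 0 5 (.cons 0x9812054367 .nil) (.node 0 6 (.cons 0x3478906512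 .nil) .done .done) .done) (.node 1 6 (.cons 0x5437618902 .nil) (.node 0 5 (.cons 0x9816734502 .nil) (.node 0 6 (.cons 0x3478906512 .nil) .done .done) .done) .done)) .done)) .done)) (.node 0 3 (.cons 0x7654309812 .nil) (.node 3 8 (.cons 0x5674389021 .nil) (.node 6 8 (.cons 0x9078651234 .nil) (.node 5 8 (.cons 0x3476589021 .nil) (.node 0 6 (.cons 0x3478906512 .nil) (.node 0 5 (.cons 0x9834765021 .nil) (.node 0 4 (.cons 0x5678904321 .nil) (.node 5 7 (.cons 0x9832104576 .nil) (.node 0 8 .nil (.node 1 9 (.cons 0x5674389120 (.cons 0x6754321980 (.cons 0x6574308912 .nil))) .done .done) .done) .done) .done) .done) .done) (.node 5 8 (.cons 0x3476589021 .nil) (.node 0 5 (.cons 0x9834765021 .nil) (.node 5 9 (.cons 0x9567021834 .nil) (.node 7 9 (.cons 0x4567983210 .nil) (.node 1 9 (.cons 0x5674389120 .nil) (.node 3 9 (.cons 0x9386512074 .nil) .done .done) .done) .done) .done) .done) .done)) (.node 3 9 .nil (.node 2 5 (.cons 0x4376520981 (.cons 0x6521039874 (.cons 0x8390125476 (.cons 0x6709381254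 .nil)))) .done (.node 0 8 .nil (.node 3 6 (.cons 0x2156347890 (.cons 0x9802156347 (.cons 0x9087436512 .nil))) .done (.node 0 6 (.cons 0x3478906512 .nil) (.node 0 5 .nil (.node 1 7 (.cons 0x5438906712 (.cons 0x9834506712 (.cons 0x8905432176 .nil))) .done .done) .done) .done)) .done)) .done)) (.node 3 8 (.cons 0x5674389021 .nil) (.node 5 8 (.cons 0x3476589021 .nil) (.node 6 8 (.cons 0x9078651234 .nil) (.node 0 5 (.cons 0x9834765021 .nil) (.node 5 9 (.cons 0x6745983012 .nil) (.node 7 9 (.cons 0x4567983210 .nil) (.node 1 7 (.cons 0x4320985671 .nil) (.node 5 7 (.cons 0x4576890321 .nil) .done .done) .done) .done) .done) .done) (.node 6 8 (.cons 0x9078651234 .nil) (.node 5 7 (.cons 0x6754309812 .nil) (.node 1 7 (.cons 0x3471568902 .nil) (.node 2 7 (.cons 0x3456721890 .nil) (.node 7 9 (.cons 0x4567983210 .nil) .done .done) .done) .done) .done) .done)) (.node 3 9 .nil (.node 2 6 (.cons 0x2654738901 (.cons 0x8930126745 (.cons 0x5621093874 (.cons 0x8390745621 .nil)))) .done (.node 0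 8 .nil (.node 3 6 (.cons 0x2156347890 (.cons 0x9802156347 (.cons 0x9087436512 .nil))) .done (.node 0 6 (.cons 0x3478906512 .nil) (.node 0 5 .nil (.node 1 7 (.cons 0x9834712056 (.cons 0x8905432176 .nil)) (.node 4 6 (.cons 0x7346518902 (.cons 0x9802346517 (.cons 0x9087156432 (.cons 0x2346517890 .nil)))) .done .done) .done) .done) .done)) .done)) .done)) .done)) .done))) .done)))
noncomputable def tc9_0_13 : T := (.node 1 7 .nil (.node 0 2 (.cons 0x6543718902 .nil) (.node 4 9 (.cons 0x6510237894 (.cons 0x8945102376 (.cons 0x3498765120 (.cons 0x1567894320 .nil)))) (.node 4 8 (.cons 0x9845673201 (.cons 0x6548901732 (.cons 0x9845102376 .nil))) (.node 2 5 (.cons 0x3256784901 (.cons 0x6521870943 .nil)) (.node 2 9 (.cons 0x6510784923 (.cons 0x6734518920 (.cons 0x4376518920 .nil))) .done .done) .done) .done) (.node 6 8 (.cons 0x9867320154 (.cons 0x9867154320 .nil)) (.node 0 4 (.cons 0x9876512340 (.cons 0x9865401732 .nil)) (.node 2 9 (.cons 0x6734518920 (.cons 0x4568923710 .nil)) (.node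 0 8 (.cons 0x2980437651 (.cons 0x6517340892 (.cons 0x9802345176 .nil))) .done (.node 2 8 (.cons 0x4567328901 .nil) (.node 1 6 (.cons 0x8290456173 (.cons 0x5617340982 .nil)) .done .done) .done)) (.node 2 8 (.cons 0x4567328901 (.cons 0x3289045671 .nil)) (.node 0 6 (.cons 0x9815437602 (.cons 0x9823406517 (.cons 0x2890654371 .nil))) .done .done) .done)) (.node 0 3 (.cons 0x7654309812 (.cons 0x7123098654 .nil)) (.node 2 8 (.cons 0x4567328901 .nil) (.node 4 9 (.cons 0x1549867320 (.cons 0x6549823710 (.cons 0x5671289430 (.cons 0x3289456710 .nil)))) (.node 0 5 (.cons 0x6789432150 (.cons 0x6509871234 (.cons 0x9821765034 (.cons 0x4986715032 .nil)))) .done .done) (.node 0 6 (.cons 0x9815437602 (.cons 0x2890654371 .nil)) (.node 4 9 (.cons 0x1549867320 (.cons 0x6894517320 (.cons 0x9451706823 (.cons 0x7156034982 (.cons 0x3286549071 .nil))))) .done .done) .done)) .done) .done)) (.node 2 5 (.cons 0x4376520981 (.cons 0x6520981734 .nil)) (.node 4 8 (.cons 0x2376548901 (.cons 0x6548901732 (.cons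 0x9025671843 .nil))) (.node 2 4 (.cons 0x9815673420 (.cons 0x8901732456 .nil)) (.node 4 9 (.cons 0x9481025673 (.cons 0x8173490256 (.cons 0x8176520943 .nil))) (.node 2 8 (.cons 0x1567349820 (.cons 0x6517349820 .nil)) (.node 0 4 (.cons 0x9876512340 (.cons 0x6540982371 (.cons 0x3289045671 .nil))) .done .done) .done) .done) (.node 0 6 (.cons 0x9845106732 (.cons 0x9843206715 .nil)) (.node 3 5 (.cons 0x9067843521 (.cons 0x4356098712 .nil)) .done .done) .done)) (.node 5 8 (.cons 0x4320985671 .nil) (.node 1 9 (.cons 0x6587091234 (.cons 0x8543219076 (.cons 0x8567091234 .nil))) .done (.node 2 6 (.cons 0x9026581734 .nil) (.node 1 4 (.cons 0x9026581437 (.cons 0x5623789014 (.cons 0x3762541890 .nil))) .done (.node 0 4 (.cons 0x9876512340 (.cons 0x9817340265 (.cons 0x9854017326 (.cons 0x9856204371 .nil)))) (.node 3 9 (.cons 0x7651893402 (.cons 0x5623987104 (.cons 0x3981762540 (.cons 0x9340718562 .nil)))) .done .done) .done)) .done)) .done)) .done))) (.node 1 4 (.cons 0x8901456732 .nil)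 (.node 1 6 .nil (.node 2 4 (.cons 0x5610987324 (.cons 0x8901673245 .nil)) (.node 0 2 (.cons 0x7345618902 (.cons 0x5437618902 (.cons 0x9815673420 .nil))) .done (.node 4 8 (.cons 0x2376548901 (.cons 0x9078432165 (.cons 0x5489016732 .nil))) (.node 0 8 (.cons 0x9801654237 (.cons 0x9801673245 .nil)) (.node 1 9 (.cons 0x5619078432 (.cons 0x9156708432 .nil)) .done .done) .done) .done)) (.node 0 6 (.cons 0x8906712345 .nil) (.node 1 9 .nil (.node 2 8 (.cons 0x4567328901 (.cons 0x4567328910 (.cons 0x6543709182 (.cons 0x2891543760 (.cons 0x8237654190 .nil))))) .done (.node 1 3 .nil (.node 2 7 (.cons 0x3456721890 .nil) (.node 0 8 (.cons 0x2734560891 (.cons 0x9806543127 (.cons 0x9806721345 (.cons 0x9801327654 .nil)))) .done (.node 0 4 (.cons 0x9876512340 (.cons 0x6540981372 (.cons 0x8904567231 .nil))) (.node 2 4 (.cons 0x2437891560 (.cons 0x8913724560 (.cons 0x6542731890 .nil))) .done .done) .done)) .done) .done)) (.node 1 9 .nil (.node 0 4 (.cons 0x9876512340 (.cons 0x7891560432 (.cons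 0x5198760432 .nil))) (.node 0 2 (.cons 0x9876512043 (.cons 0x6519873402 (.cons 0x5198760234 (.cons 0x8915673402 .nil)))) .done .done) (.node 1 3 .nil (.node 4 7 (.cons 0x2347891560 .nil) (.node 2 7 (.cons 0x4327891560 (.cons 0x8913274560 .nil)) .done (.node 0 2 (.cons 0x3478915602 (.cons 0x9874315602 (.cons 0x8902134765 .nil))) (.node 2 5 (.cons 0x6734520981 (.cons 0x8743190652 (.cons 0x6521347890 (.cons 0x6731890254 .nil)))) .done .done) .done)) .done) .done)) .done)) .done)) (.node 1 9 .nil (.node 6 8 (.cons 0x5432176890 (.cons 0x5687091432 (.cons 0x8654190732 .nil))) (.node 2 8 (.cons 0x4567328901 (.cons 0x6543709182 (.cons 0x9145682370 .nil))) (.node 0 2 (.cons 0x9865410237 (.cons 0x9186543702 .nil)) (.node 2 9 (.cons 0x2918654370 (.cons 0x8654192370 .nil)) .done .done) .done) .done) (.node 1 6 .nil (.node 5 8 (.cons 0x6712345890 (.cons 0x9078561234 (.cons 0x9078561432 .nil))) (.node 0 2 (.cons 0x7345618902 (.cons 0x4589023761 (.cons 0x7320985614 .nil))) (.node 2 4 (.cons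 0x9810245673 (.cons 0x4209185673 (.cons 0x1673245890 .nil))) .done .done) .done) (.node 1 3 .nil (.node 0 4 (.cons 0x9876512340 (.cons 0x5678904312 .nil)) (.node 4 8 (.cons 0x2376548901 (.cons 0x7654890132 .nil)) (.node 2 4 (.cons 0x5673248910 .nil) (.node 2 5 (.cons 0x6523789014 (.cons 0x6731890452 .nil)) (.node 4 7 (.cons 0x6523748910 (.cons 0x6521347890 .nil)) .done .done) .done) .done) (.node 2 5 (.cons 0x6523789014 (.cons 0x9043187652 (.cons 0x4098765231 .nil))) (.node 0 5 (.cons 0x8905432176 .nil) (.node 2 7 (.cons 0x8915672340 (.cons 0x8913405672 (.cons 0x8904567231 .nil))) .done .done) .done) .done)) .done) .done)) .done)) .done)) .done)) (.node 3 8 (.cons 0x9076543812 .nil) (.node 3 5 .nil (.node 2 9 (.cons 0x9218345670 (.cons 0x8129076534 .nil)) (.node 2 4 (.cons 0x6518734290 (.cons 0x6537810924 .nil)) (.node 0 6 (.cons 0x9243781560 (.cons 0x7356018924 (.cons 0x4298735601 (.cons 0x9243560781 .nil)))) .done (.node 0 6 (.cons 0x4378156092 (.cons 0x7609812435 (.cons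 0x9835421067 (.cons 0x9067815342 .nil)))) .done .done)) (.node 4 9 (.cons 0x7654983210 (.cons 0x6534907812 (.cons 0x8354921076 (.cons 0x6701835492 .nil)))) .done (.node 4 8 (.cons 0x2376548901 (.cons 0x6709218453 .nil)) (.node 2 8 (.cons 0x4567328901 .nil) (.node 0 4 (.cons 0x5678904321 (.cons 0x9218354076 (.cons 0x9043512876 .nil))) (.node 0 8 (.cons 0x9087651234 .nil) .done .done) .done) (.node 4 9 (.cons 0x7654983210 (.cons 0x6534907812 (.cons 0x6784901532 .nil))) (.node 0 4 (.cons 0x3876512940 (.cons 0x6538704921 (.cons 0x6783512940 .nil))) .done .done) .done)) .done))) (.node 0 3 (.cons 0x7654309812 .nil) (.node 0 8 (.cons 0x9087651234 .nil) (.node 4 8 (.cons 0x2376548901 .nil) (.node 2 8 (.cons 0x4567328901 .nil) (.node 6 8 (.cons 0x9015486732 .nil) (.node 3 9 (.cons 0x7684510932 .nil) (.node 5 8 (.cons 0x4390765812 .nil) .done .done) .done) .done) (.node 1 3 (.cons 0x7654890132 .nil) (.node 3 9 (.cons 0x4876510932 .nil) .done .done) .done)) (.node 6 8 .nil (.node 2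 9 (.cons 0x9218345670 (.cons 0x2907345681 (.cons 0x7680923451 (.cons 0x7092186534 (.cons 0x4518673092 .nil))))) .done (.node 5 8 .nil (.node 1 9 (.cons 0x6587091234 (.cons 0x4586709123 (.cons 0x8567091234 .nil))) (.node 1 7 (.cons 0x2345671980 (.cons 0x6712345890 .nil)) .done .done) .done) .done)) .done)) (.node 2 5 (.cons 0x7652189034 .nil) (.node 3 9 .nil (.node 0 4 (.cons 0x5678904321 (.cons 0x9340781256 (.cons 0x6739810452 (.cons 0x1256789340 .nil)))) (.node 0 8 (.cons 0x9087651234 (.cons 0x9345218076 .nil)) (.node 4 8 (.cons 0x2376548901 (.cons 0x9325104876 .nil)) .done .done) .done) (.node 1 3 .nil (.node 4 9 (.cons 0x7654983210 (.cons 0x4987652310 .nil)) (.node 0 6 (.cons 0x4987325601 (.cons 0x7894312560 (.cons 0x9431870652 .nil))) .done (.node 0 2 (.cons 0x9438765120 (.cons 0x6520137894 (.cons 0x8945201376 .nil))) .done .done)) .done) .done)) (.node 5 8 .nil (.node 1 9 (.cons 0x6587091234 (.cons 0x8543219076 (.cons 0x8567091234 .nil))) (.node 3 9 (.cons 0x6709345812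 .nil) .done .done) (.node 5 9 .nil (.node 4 7 (.cons 0x5674309812 (.cons 0x2189567430 (.cons 0x6745983210 (.cons 0x4765983012 .nil)))) .done (.node 0 5 .nil (.node 2 7 (.cons 0x3456721890 (.cons 0x9812765034 (.cons 0x6721890543 .nil))) .done .done) .done)) .done)) .done)) .done)) .done)) (.node 0 3 (.cons 0x7654309812 .nil) (.node 0 8 (.cons 0x9087651234 .nil) (.node 4 8 (.cons 0x2376548901 .nil) (.node 3 9 (.cons 0x7654893210 .nil) (.node 5 8 (.cons 0x4390765812 .nil) (.node 6 8 .nil (.node 1 9 (.cons 0x2376548910 (.cons 0x5687091234 (.cons 0x7680915432 .nil))) .done .done) .done) .done) (.node 3 9 .nil (.node 6 8 (.cons 0x9015486732 (.cons 0x9321076845 (.cons 0x7684512390 .nil))) .done (.node 3 5 .nil (.node 2 6 (.cons 0x7621890345 (.cons 0x9018453762 (.cons 0x9076218435 (.cons 0x9076218453 .nil)))) (.node 4 9 (.cons 0x8765123490 (.cons 0x9435621870 (.cons 0x5301267894 (.cons 0x9487623510 .nil)))) .done .done) (.node 5 8 (.cons 0x4390765812 .nil) (.node 2 8 (.cons 0x4567328901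 .nil) (.node 6 8 (.cons 0x9015486732 .nil) .done .done) .done) .done)) .done)) .done)) .done) (.node 0 8 (.cons 0x9087651234 .nil) (.node 0 2 .nil (.node 4 8 (.cons 0x2376548901 (.cons 0x9845673201 (.cons 0x9023487651 .nil))) .done (.node 3 5 .nil (.node 4 7 (.cons 0x5674309812 (.cons 0x9801235476 (.cons 0x8901235476 (.cons 0x6534789021 .nil)))) .done (.node 2 5 (.cons 0x7652189034 .nil) (.node 2 8 (.cons 0x4567328901 .nil) (.node 2 7 (.cons 0x3456721890 .nil) (.node 4 8 (.cons 0x2376548901 .nil) (.node 1 3 (.cons 0x7654890132 .nil) (.node 3 9 (.cons 0x9328456701 .nil) .done .done) .done) .done) .done) .done) .done)) .done)) (.node 4 8 (.cons 0x2376548901 .nil) (.node 3 9 (.cons 0x7654893210 .nil) (.node 5 8 (.cons 0x6709345812 .nil) (.node 6 8 (.cons 0x4586709321 .nil) .done .done) .done) (.node 0 6 (.cons 0x9067843215 .nil) (.node 0 4 (.cons 0x5678904321 .nil) (.node 0 5 (.cons 0x9051234876 .nil) .done .done) .done) .done)) .done)) .done)) (.node 0 8 (.cons 0x9087651234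 .nil) (.node 0 3 (.cons 0x7654309812 .nil) (.node 3 9 .nil (.node 4 8 (.cons 0x2376548901 (.cons 0x7654893210 (.cons 0x4876510932 .nil))) .done (.node 0 2 .nil (.node 4 8 (.cons 0x2376548901 (.cons 0x9845673201 (.cons 0x9023487651 .nil))) .done (.node 3 5 .nil (.node 2 9 (.cons 0x8129076543 (.cons 0x8129076534 (.cons 0x6709218354 .nil))) .done (.node 1 3 .nil (.node 0 4 (.cons 0x5678904321 (.cons 0x5678904312 .nil)) (.node 2 8 (.cons 0x4567328901 (.cons 0x9823104567 (.cons 0x7654098231 .nil))) .done .done) .done) .done)) .done)) .done)) .done) (.node 4 8 (.cons 0x2376548901 .nil) (.node 6 8 .nil (.node 1 4 (.cons 0x9087651432 (.cons 0x5410986732 .nil)) (.node 2 9 (.cons 0x4329087651 (.cons 0x2907345681 (.cons 0x9237684510 (.cons 0x5681437092 (.cons 0x4156873290 .nil))))) .done .done) (.node 2 8 (.cons 0x4567328901 .nil) (.node 5 8 .nil (.node 1 9 (.cons 0x2376548910 (.cons 0x6587091234 (.cons 0x4586709123 (.cons 0x9123485670 .nil)))) .done .done) .done) .done)) (.node 1 7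 (.cons 0x6548901732 .nil) (.node 1 6 (.cons 0x9078432165 .nil) (.node 1 4 (.cons 0x9087651432 .nil) (.node 0 4 (.cons 0x5678904321 .nil) (.node 0 6 (.cons 0x9845601732 .nil) .done .done) .done) .done) (.node 1 4 (.cons 0x9087651432 .nil) (.node 1 6 (.cons 0x9078432165 .nil) (.node 4 7 (.cons 0x5610984732 .nil) (.node 7 9 (.cons 0x6512348790 .nil) (.node 2 7 (.cons 0x3456721890 .nil) (.node 5 7 (.cons 0x7561234890 .nil) .done .done) .done) .done) .done) .done) .done)) .done)) .done)) .done))) (.node 4 7 (.cons 0x6512347890 .nil) tc9_0_12 .done)))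
noncomputable def tc9_0_14 : T := (.node 3 8 .nil (.node 1 7 (.cons 0x2176543890 .nil) (.node 1 4 (.cons 0x6541732890 (.cons 0x9076541283 .nil)) (.node 2 9 (.cons 0x8923765410 (.cons 0x4568923710 .nil)) (.node 4 9 (.cons 0x9456832107 (.cons 0x5492107683 (.cons 0x5492386701 .nil))) (.node 1 5 (.cons 0x8673294510 (.cons 0x9432156870 (.cons 0x9215438670 .nil))) .done .done) (.node 0 5 (.cons 0x8923765014 (.cons 0x6509871234 (.cons 0x4105673892 (.cons 0x8923417650 .nil)))) .done .done)) (.node 0 5 (.cons 0x9054182376 (.cons 0x6509871234 (.cons 0x9056783412 (.cons 0x6718905432 .nil)))) .done .done)) (.node 1 4 (.cons 0x1456732890 (.cons 0x9076541283 .nil)) (.node 5 9 (.cons 0x9543218670 (.cons 0x2143876590 (.cons 0x4109567832 (.cons 0x4123876590 .nil)))) (.node 7 9 (.cons 0x6812345970 (.cons 0x6832107954 (.cons 0x3821456790 (.cons 0x8321456790 .nil)))) .done .done) (.node 1 9 (.cons 0x9145682370 (.cons 0x8345670912 .nil)) (.node 6 9 (.cons 0x8237096541 (.cons 0x2837096541 (.cons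 0x5690783214 .nil))) (.node 2 4 (.cons 0x9670183245 (.cons 0x7690183245 (.cons 0x5423896710 .nil))) (.node 2 7 (.cons 0x9683270145 .nil) .done .done) .done) .done) .done)) .done)) (.node 4 8 (.cons 0x2376548901 .nil) (.node 3 9 (.cons 0x3907654821 .nil) (.node 5 8 (.cons 0x9321076854 .nil) (.node 0 8 .nil (.node 1 4 (.cons 0x1456732890 (.cons 0x9801456732 (.cons 0x9082376541 .nil))) (.node 7 9 (.cons 0x2379865410 (.cons 0x9708654123 .nil)) (.node 2 9 (.cons 0x7329865410 (.cons 0x3456807921 (.cons 0x5680792143 .nil))) .done .done) .done) .done) .done) (.node 3 6 .nil (.node 1 9 (.cons 0x2845637091 (.cons 0x7091283654 .nil)) (.node 2 5 (.cons 0x8439076521 (.cons 0x8439125670 (.cons 0x3487652190 (.cons 0x9078436521 .nil)))) .done .done) (.node 1 3 (.cons 0x9076548213 .nil) (.node 3 5 .nil (.node 2 9 (.cons 0x2984567310 (.cons 0x6534870921 (.cons 0x9210768453 .nil))) .done .done) .done) .done)) .done)) (.node 5 8 .nil (.node 1 9 (.cons 0x3284567091 (.cons 0x6587091234 (.cons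 0x2348567091 .nil))) (.node 2 6 (.cons 0x4562837091 (.cons 0x2673458190 (.cons 0x7091265834 .nil))) .done .done) (.node 0 8 .nil (.node 1 9 (.cons 0x3284567091 (.cons 0x9123456807 .nil)) (.node 3 9 (.cons 0x6709345812 .nil) (.node 1 5 (.cons 0x4321567890 (.cons 0x9156708432 (.cons 0x7651908432 .nil))) (.node 2 5 (.cons 0x4391258670 (.cons 0x6708521934 (.cons 0x7652348091 .nil))) .done .done) .done) (.node 1 4 (.cons 0x1456732890 (.cons 0x9801456732 (.cons 0x9082376541 .nil))) (.node 1 5 (.cons 0x4321567890 (.cons 0x9087651234 .nil)) (.node 1 7 (.cons 0x6541732890 .nil) .done .done) .done) .done)) .done) .done)) .done)) .done)) (.node 0 6 (.cons 0x7609812345 .nil) (.node 6 9 .nil (.node 2 5 (.cons 0x9076812543 (.cons 0x4523769810 (.cons 0x8109673254 (.cons 0x2543709681 .nil)))) .done (.node 2 5 (.cons 0x9076812543 .nil) (.node 2 6 .nil (.node 4 9 (.cons 0x6732549810 (.cons 0x9452681073 (.cons 0x3762549810 .nil))) (.node 5 8 (.cons 0x4985237601 (.cons 0x7096234581 (.cons 0x9076234581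 .nil))) .done .done) (.node 2 7 .nil (.node 0 3 (.cons 0x7698103254 (.cons 0x5430986721 .nil)) (.node 1 5 (.cons 0x4321567890 (.cons 0x8154327690 (.cons 0x3451869072 (.cons 0x7251896034 .nil)))) .done .done) (.node 0 2 .nil (.node 1 5 (.cons 0x3451276890 (.cons 0x5187690234 (.cons 0x6890273451 (.cons 0x6734518902 .nil)))) .done (.node 2 4 .nil (.node 1 5 (.cons 0x3451276890 (.cons 0x9024378651 (.cons 0x9078651243 (.cons 0x9815243760 .nil)))) .done .done) .done)) .done)) .done)) (.node 2 6 .nil (.node 0 5 (.cons 0x4325096781 (.cons 0x2673450981 (.cons 0x7623450981 .nil))) (.node 1 4 (.cons 0x5234187690 (.cons 0x9873265014 (.cons 0x7814326905 (.cons 0x5623789014 (.cons 0x2650987341 .nil))))) .done .done) (.node 2 7 .nil (.node 0 3 (.cons 0x9034521867 (.cons 0x7254309681 (.cons 0x5430986721 .nil))) .done (.node 0 2 (.cons 0x9025437681 .nil) (.node 2 4 .nil (.node 1 9 (.cons 0x2543768190 (.cons 0x5687091243 (.cons 0x5243768190 (.cons 0x8190673425 .nil)))) .done .done) .done)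 .done)) .done)) (.node 0 2 .nil (.node 1 5 (.cons 0x4321567890 (.cons 0x7698154320 (.cons 0x5187690234 (.cons 0x6734518902 .nil)))) .done (.node 2 7 (.cons 0x3452709681 .nil) (.node 1 7 (.cons 0x6890254371 .nil) (.node 2 4 (.cons 0x8906524371 .nil) (.node 2 6 (.cons 0x6254371890 .nil) .done .done) .done) .done) .done)) .done))) (.node 4 8 (.cons 0x2376548901 .nil) (.node 0 3 (.cons 0x9670321845 .nil) (.node 3 8 .nil (.node 1 4 (.cons 0x1456732890 (.cons 0x5690783214 (.cons 0x9076541283 .nil))) (.node 0 5 (.cons 0x8145096732 (.cons 0x9056783412 (.cons 0x7690541832 .nil))) .done .done) .done) (.node 0 2 (.cons 0x9845673201 .nil) (.node 1 7 (.cons 0x5489671230 .nil) (.node 1 6 (.cons 0x9845610237 .nil) (.node 2 7 (.cons 0x5430986721 .nil) (.node 4 7 (.cons 0x8169023745 .nil) (.node 7 9 (.cons 0x3456897120 .nil) .done .done) .done) .done) (.node 3 8 (.cons 0x2176543890 .nil) (.node 4 7 (.cons 0x5609834712 .nil) (.node 7 9 (.cons 0x1238456970 .nil) .done .done) .done) .done))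 .done) .done)) (.node 3 8 (.cons 0x7096548321 .nil) (.node 3 6 (.cons 0x7096321845 .nil) (.node 1 6 (.cons 0x9073284561 .nil) (.node 2 6 (.cons 0x7326548901 .nil) .done .done) .done) .done) (.node 2 7 (.cons 0x3276548901 .nil) (.node 1 7 .nil (.node 2 5 (.cons 0x9076812543 (.cons 0x3254817690 (.cons 0x6907184523 .nil))) .done (.node 5 7 (.cons 0x6754321890 .nil) (.node 0 3 (.cons 0x9845672301 .nil) (.node 0 8 .nil (.node 3 5 (.cons 0x9681270354 (.cons 0x9670812354 (.cons 0x7690812354 .nil))) .done .done) (.node 0 2 (.cons 0x8902176543 .nil) (.node 0 8 .nil (.node 2 5 (.cons 0x7689034521 (.cons 0x4523769081 .nil)) .done .done) .done) .done)) .done) .done)) (.node 0 2 .nil (.node 1 5 (.cons 0x3451276890 (.cons 0x4518967320 (.cons 0x9023487651 (.cons 0x6890273451 (.cons 0x6734518902 .nil))))) .done (.node 0 8 .nil (.node 3 5 (.cons 0x6723548901 (.cons 0x9670812354 (.cons 0x7690812354 .nil))) (.node 1 6 (.cons 0x5437209861 (.cons 0x7235480961 .nil)) (.node 1 5 (.cons 0x9861543720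 (.cons 0x3276908451 (.cons 0x4516980273 .nil))) .done .done) .done) .done) .done)) .done)) .done))) .done))) (.node 2 7 (.cons 0x5432760981 .nil) (.node 1 7 .nil (.node 0 8 (.cons 0x9806543271 .nil) (.node 1 4 (.cons 0x9801456732 (.cons 0x9082376541 (.cons 0x6541732890 .nil))) (.node 0 3 (.cons 0x6541730982 (.cons 0x5430986712 (.cons 0x9803412765 .nil))) .done .done) .done) (.node 5 7 (.cons 0x6754321890 .nil) (.node 4 7 .nil (.node 3 5 (.cons 0x9810672354 (.cons 0x9810674532 (.cons 0x9067453281 (.cons 0x6532109874 .nil)))) .done (.node 7 9 .nil (.node 2 5 (.cons 0x9076812543 (.cons 0x3452186790 .nil)) (.node 1 5 (.cons 0x9815432760 (.cons 0x2345189760 (.cons 0x6097815234 .nil))) .done .done) .done) .done)) .done) .done)) (.node 0 5 (.cons 0x3450986721 .nil) (.node 0 8 .nil (.node 1 5 (.cons 0x3451276890 (.cons 0x9806723451 (.cons 0x9086721543 .nil))) (.node 1 7 (.cons 0x6509871234 .nil) (.node 0 2 (.cons 0x6734518902 .nil) (.node 2 4 (.cons 0x3421567890 (.cons 0x9802437651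 (.cons 0x9087651243 (.cons 0x9802437156 .nil)))) .done .done) .done) .done) .done) (.node 0 4 (.cons 0x5678904321 .nil) (.node 0 8 .nil (.node 1 5 (.cons 0x3451276890 (.cons 0x9806723451 (.cons 0x9086721543 .nil))) (.node 1 3 (.cons 0x5431276890 (.cons 0x9805431276 (.cons 0x9086721345 .nil))) (.node 1 6 (.cons 0x2734516890 (.cons 0x9806154327 (.cons 0x9086154372 .nil))) .done .done) .done) .done) (.node 5 7 (.cons 0x6754321890 .nil) (.node 4 7 .nil (.node 1 5 (.cons 0x3451276890 (.cons 0x9067451823 (.cons 0x6512347890 .nil))) .done (.node 1 7 .nil (.node 0 3 (.cons 0x5430986721 (.cons 0x6547128903 .nil)) (.node 3 5 (.cons 0x4765309821 (.cons 0x9067182354 (.cons 0x6530982174 .nil))) .done .done) .done) .done)) (.node 3 8 (.cons 0x6754098321 .nil) (.node 7 9 (.cons 0x4567983210 .nil) (.node 1 7 .nil (.node 2 9 (.cons 0x9218345076 (.cons 0x6054389271 (.cons 0x4389217650 .nil))) .done (.node 4 7 .nil (.node 1 5 (.cons 0x3451276890 (.cons 0x9067451823 (.cons 0x6512347890 .nil)))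 .done .done) .done)) .done) (.node 0 8 .nil (.node 0 3 (.cons 0x5430986721 .nil) (.node 1 3 (.cons 0x5431276890 (.cons 0x9805431276 (.cons 0x9086721345 .nil))) .done .done) .done) .done)) .done)) .done)) .done)) .done)) .done)) (.node 0 6 (.cons 0x7609812345 .nil) (.node 1 7 .nil (.node 0 5 (.cons 0x6509871234 (.cons 0x6718905432 .nil)) (.node 0 2 (.cons 0x5432098671 .nil) (.node 0 3 (.cons 0x8903456712 .nil) (.node 2 5 (.cons 0x9867103254 .nil) (.node 1 9 (.cons 0x4325687190 (.cons 0x7681905234 (.cons 0x8671903452 .nil))) .done .done) .done) .done) (.node 0 4 (.cons 0x5678904321 (.cons 0x6540982371 (.cons 0x3289045671 .nil))) (.node 3 5 (.cons 0x9867104532 (.cons 0x9045328671 .nil)) (.node 2 7 (.cons 0x9867235401 (.cons 0x4532768901 .nil)) .done (.node 1 5 (.cons 0x9045176823 .nil) (.node 1 6 (.cons 0x9045328617 (.cons 0x6173540982 .nil)) .done .done) .done)) .done) .done)) (.node 2 7 .nil (.node 1 5 (.cons 0x4321567890 (.cons 0x9072345186 .nil)) (.node 0 5 (.cons 0x6721890543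 (.cons 0x6723450981 .nil)) (.node 2 9 (.cons 0x9234507186 (.cons 0x1768923450 (.cons 0x7681509234 .nil))) .done (.node 1 6 (.cons 0x7890561234 (.cons 0x6189054372 .nil)) .done .done)) (.node 0 3 (.cons 0x4309876512 (.cons 0x6512789034 (.cons 0x2768903451 .nil))) .done .done)) (.node 0 2 .nil (.node 0 8 (.cons 0x9802176543 .nil) (.node 6 9 (.cons 0x7123456980 (.cons 0x2089654371 (.cons 0x4569802371 .nil))) .done .done) (.node 4 7 (.cons 0x9865471023 .nil) (.node 5 7 (.cons 0x6754321890 .nil) (.node 7 9 (.cons 0x1798654320 .nil) .done .done) .done) .done)) .done)) (.node 0 3 (.cons 0x8903456712 .nil) (.node 3 8 (.cons 0x2176543890 .nil) (.node 0 2 (.cons 0x9834567120 .nil) (.node 3 6 (.cons 0x7128903654 .nil) (.node 1 6 (.cons 0x4561730982 .nil) (.node 2 6 (.cons 0x4562890371 .nil) .done .done) .done) .done) .done) (.node 0 2 (.cons 0x8902176543 .nil) (.node 2 5 (.cons 0x2543098671 .nil) (.node 0 8 (.cons 0x9803452176 .nil) (.node 5 8 (.cons 0x9852176034 .nil) (.node 1 5 (.cons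 0x4321567890 .nil) (.node 3 5 (.cons 0x6712890354 .nil) .done .done) .done) .done) (.node 2 6 (.cons 0x8902654371 .nil) (.node 0 8 (.cons 0x9802654371 .nil) (.node 0 4 (.cons 0x5678904321 .nil) (.node 0 5 (.cons 0x9817345026 .nil) .done .done) .done) .done) .done)) .done) .done)) .done))) (.node 0 8 .nil (.node 1 4 (.cons 0x1456732890 (.cons 0x9801456732 (.cons 0x9082376541 .nil))) (.node 2 7 (.cons 0x3728906541 .nil) (.node 1 9 (.cons 0x3728914560 (.cons 0x5608914372 (.cons 0x3456721980 .nil))) .done (.node 1 5 (.cons 0x1543276890 (.cons 0x9806721543 (.cons 0x9086723451 .nil))) (.node 1 7 (.cons 0x6541732890 .nil) (.node 2 9 (.cons 0x5687092341 (.cons 0x9234568071 (.cons 0x9234170865 .nil))) .done .done) .done) .done)) (.node 2 5 (.cons 0x3412567890 (.cons 0x9087652143 .nil)) (.node 1 5 (.cons 0x4321567890 (.cons 0x9087651234 .nil)) (.node 3 5 (.cons 0x2143567890 (.cons 0x9087653412 .nil)) .done .done) (.node 1 5 (.cons 0x4321567890 (.cons 0x9087651234 .nil)) (.node 1 7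 (.cons 0x6098173452 .nil) .done .done) .done)) .done)) (.node 4 8 (.cons 0x2376548901 .nil) (.node 3 8 .nil (.node 1 9 (.cons 0x2376548910 (.cons 0x8345670912 .nil)) (.node 2 7 (.cons 0x8654327091 (.cons 0x7219834560 (.cons 0x5438906721 .nil))) .done (.node 5 8 (.cons 0x4385670912 .nil) .done .done)) .done) (.node 0 5 .nil (.node 4 6 (.cons 0x9810546732 (.cons 0x9054673281 .nil)) (.node 1 4 (.cons 0x9054182376 (.cons 0x5641098732 .nil)) (.node 1 3 (.cons 0x9076548213 (.cons 0x9056784312 (.cons 0x7650984312 .nil))) (.node 2 7 (.cons 0x9827314560 (.cons 0x9812760543 (.cons 0x5460982731 .nil))) .done .done) .done) .done) (.node 0 4 (.cons 0x5678904321 .nil) (.node 4 7 .nil (.node 1 6 (.cons 0x5409823761 (.cons 0x9801654732 (.cons 0x9082374561 (.cons 0x5098167432 .nil)))) .done (.node 1 7 (.cons 0x6718905432 .nil) (.node 0 2 (.cons 0x8902176543 .nil) (.node 0 3 (.cons 0x8903456712 .nil) .done .done) .done) .done)) .done) .done)) .done)) .done)) .done)) .done)))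
noncomputable def tc9_0_15 : T := (.node 3 8 .nil (.node 1 9 (.cons 0x4567328910 (.cons 0x9128345670 .nil)) (.node 4 9 (.cons 0x8237019456 (.cons 0x6549107382 .nil)) (.node 3 9 (.cons 0x9382107654 .nil) (.node 2 9 (.cons 0x8345670921 .nil) (.node 6 8 (.cons 0x1928654370 (.cons 0x5432907681 (.cons 0x5490768321 .nil))) .done (.node 5 9 (.cons 0x8123459076 (.cons 0x6709543812 .nil)) (.node 4 6 (.cons 0x1956432870 (.cons 0x1832954670 (.cons 0x7645901832 (.cons 0x5643870912 (.cons 0x5467092381 .nil))))) .done .done) .done)) .done) (.node 1 7 (.cons 0x3289456710 (.cons 0x2389456710 (.cons 0x2176543890 .nil))) .done .done)) (.node 1 7 (.cons 0x2176543890 .nil) (.node 0 4 (.cons 0x9823765401 (.cons 0x9823710456 (.cons 0x9128340765 (.cons 0x5671982340 .nil)))) (.node 4 9 (.cons 0x6549823710 (.cons 0x9456701283 (.cons 0x3289456710 .nil))) (.node 5 8 (.cons 0x6587094321 (.cons 0x3491285670 (.cons 0x1943285670 (.cons 0x6709458123 .nil)))) .done .done) .done) (.node 5 7 (.cons 0x6754321890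 .nil) (.node 2 4 (.cons 0x8342190756 (.cons 0x6754210983 .nil)) (.node 0 8 (.cons 0x9801732456 (.cons 0x9801765423 .nil)) (.node 1 5 (.cons 0x4321567890 (.cons 0x9156734280 (.cons 0x6510987324 .nil))) .done .done) (.node 3 9 (.cons 0x6578390124 (.cons 0x8390124576 .nil)) .done .done)) (.node 0 4 (.cons 0x9823765401 (.cons 0x6754098321 (.cons 0x9128340765 .nil))) (.node 6 9 (.cons 0x5698712340 (.cons 0x4075691283 (.cons 0x7104569832 (.cons 0x7123896540 .nil)))) .done (.node 2 5 (.cons 0x8917652340 (.cons 0x6752381904 .nil)) (.node 1 6 (.cons 0x9871652340 (.cons 0x9045761832 (.cons 0x9165283407 .nil))) .done .done) .done)) .done)) .done)) .done)) (.node 4 8 (.cons 0x2376548901 .nil) (.node 6 8 (.cons 0x9076812345 .nil) (.node 0 8 .nil (.node 5 8 .nil (.node 1 9 (.cons 0x4567328910 (.cons 0x9128076543 (.cons 0x6587091234 (.cons 0x3485670912 .nil)))) .done (.node 1 9 (.cons 0x4567328910 (.cons 0x9128076543 .nil)) (.node 1 4 (.cons 0x9823765410 (.cons 0x9801456732 .nil)) (.node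 2 6 (.cons 0x5621907843 (.cons 0x7326580914 (.cons 0x5623780914 .nil))) (.node 1 7 (.cons 0x9017384562 (.cons 0x9170865432 (.cons 0x9173456280 .nil))) .done .done) .done) (.node 3 5 (.cons 0x9128435670 (.cons 0x7653480912 .nil)) (.node 4 7 (.cons 0x6583219074 (.cons 0x5674321980 (.cons 0x9801235476 .nil))) .done .done) .done)) .done)) .done) (.node 1 7 (.cons 0x9071238654 .nil) (.node 4 7 (.cons 0x9074568321 .nil) (.node 5 8 (.cons 0x6745890123 .nil) (.node 0 8 .nil (.node 3 5 (.cons 0x1235476890 (.cons 0x9801235476 (.cons 0x9086745321 .nil))) .done .done) .done) .done) (.node 5 8 .nil (.node 1 9 (.cons 0x4567328910 (.cons 0x6587091234 (.cons 0x3485670912 .nil))) .done (.node 0 8 .nil (.node 2 6 (.cons 0x7126543890 (.cons 0x9083456217 .nil)) (.node 1 5 (.cons 0x4321567890 (.cons 0x9087651234 .nil)) (.node 3 9 (.cons 0x4568390712 (.cons 0x9348076215 (.cons 0x9348076512 .nil))) .done (.node 1 4 (.cons 0x9823765410 (.cons 0x9801456732 .nil)) (.node 1 9 (.cons 0x4567328910 (.cons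 0x7658091432 .nil)) .done .done) .done)) .done) .done) .done)) .done)) .done)) (.node 6 8 (.cons 0x9076812345 .nil) (.node 0 8 .nil (.node 5 8 .nil (.node 1 9 (.cons 0x4567328910 (.cons 0x9128076543 (.cons 0x6587091234 (.cons 0x2348567091 .nil)))) .done (.node 1 9 (.cons 0x4567328910 (.cons 0x9128076543 .nil)) (.node 4 6 (.cons 0x6458190732 (.cons 0x7809123465 .nil)) (.node 2 9 (.cons 0x5467329810 (.cons 0x5467329801 (.cons 0x4658073291 .nil))) (.node 1 4 (.cons 0x9823765410 (.cons 0x5641923780 (.cons 0x6541928073 .nil))) .done .done) .done) (.node 2 5 (.cons 0x8432567091 (.cons 0x7652348091 .nil)) (.node 1 4 (.cons 0x9823765410 (.cons 0x9801456732 (.cons 0x4190856732 (.cons 0x9143708256 .nil)))) (.node 5 9 (.cons 0x2865914370 (.cons 0x6591437082 (.cons 0x4328076591 .nil))) .done .done) .done) .done)) .done)) .done) (.node 1 7 (.cons 0x9071238654 .nil) (.node 4 7 (.cons 0x9074568321 .nil) (.node 5 8 (.cons 0x6745890123 .nil) (.node 0 8 .nil (.node 3 5 (.cons 0x1235476890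 (.cons 0x9801235476 (.cons 0x9086745321 .nil))) .done .done) .done) (.node 5 7 (.cons 0x6754321890 .nil) (.node 2 7 (.cons 0x3276548901 .nil) (.node 7 9 .nil (.node 0 2 (.cons 0x9845671023 (.cons 0x6548971023 .nil)) (.node 0 6 (.cons 0x4576098123 (.cons 0x2179834560 (.cons 0x4560179832 .nil))) .done .done) .done) .done) .done) .done)) (.node 5 8 .nil (.node 1 9 (.cons 0x4567328910 (.cons 0x6587091234 (.cons 0x2348567091 .nil))) .done (.node 0 8 .nil (.node 2 6 (.cons 0x7126543890 (.cons 0x9083456217 .nil)) (.node 3 6 (.cons 0x9076345812 .nil) (.node 2 9 (.cons 0x9218543670 (.cons 0x4563710892 (.cons 0x5436712980 (.cons 0x9217083654 .nil)))) .done (.node 2 9 (.cons 0x7634581290 (.cons 0x9280173654 (.cons 0x7634580921 (.cons 0x7129083654 .nil)))) .done .done)) .done) .done) .done)) .done)) .done)) .done)) .done)) (.node 3 8 .nil (.node 1 7 (.cons 0x2176543890 .nil) (.node 1 9 (.cons 0x8345670912 .nil) (.node 6 8 (.cons 0x9071286543 (.cons 0x7091238654 .nil)) (.node 0 8 (.cons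 0x9170865432 .nil) (.node 0 5 (.cons 0x6509871234 (.cons 0x6718905432 .nil)) (.node 2 4 (.cons 0x7324568910 (.cons 0x6501987324 (.cons 0x9105687324 (.cons 0x9867324501 .nil)))) .done .done) .done) (.node 0 6 (.cons 0x7609812345 (.cons 0x2890654371 .nil)) (.node 0 2 (.cons 0x5432098671 .nil) (.node 1 5 (.cons 0x9156870234 (.cons 0x7865190234 (.cons 0x6734518902 .nil))) .done .done) .done) .done)) (.node 6 9 (.cons 0x7096543821 (.cons 0x8234569071 .nil)) (.node 2 5 (.cons 0x4523769810 (.cons 0x8109673254 .nil)) (.node 4 8 (.cons 0x9654823701 (.cons 0x6528437091 (.cons 0x8432567091 .nil))) .done (.node 1 4 (.cons 0x7328965410 (.cons 0x8145237690 (.cons 0x8145237096 (.cons 0x5690782143 .nil)))) .done .done)) (.node 1 4 (.cons 0x8237145690 (.cons 0x5690783214 (.cons 0x2837096541 .nil))) (.node 0 5 (.cons 0x2376981450 (.cons 0x9650783214 (.cons 0x4196507382 (.cons 0x6718905432 .nil)))) .done .done) .done)) .done)) (.node 4 7 (.cons 0x6547328901 .nil) (.node 4 9 (.cons 0x6549823710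 (.cons 0x2389456710 .nil)) (.node 1 4 (.cons 0x8901456732 .nil) (.node 5 9 (.cons 0x8123459076 (.cons 0x2143876590 (.cons 0x4109567832 (.cons 0x4123876590 .nil)))) .done (.node 2 7 (.cons 0x6541098273 .nil) (.node 5 7 (.cons 0x6754321890 .nil) (.node 1 6 (.cons 0x7328901654 (.cons 0x2165783490 (.cons 0x8349075612 .nil))) .done .done) .done) .done)) (.node 2 5 (.cons 0x1256783490 (.cons 0x6709452183 .nil)) (.node 1 6 (.cons 0x5612870943 (.cons 0x1652873490 (.cons 0x7094382165 (.cons 0x2543761890 .nil)))) .done (.node 0 2 (.cons 0x6549820173 (.cons 0x6738945201 (.cons 0x4983765201 .nil))) .done .done)) .done)) (.node 1 6 (.cons 0x3745610982 (.cons 0x9016547382 (.cons 0x9074382165 .nil))) (.node 0 2 (.cons 0x5437618902 (.cons 0x7612098345 (.cons 0x5674389021 .nil))) .done .done) .done)) .done)) (.node 4 8 (.cons 0x2376548901 .nil) (.node 4 7 (.cons 0x6547328901 .nil) (.node 1 7 .nil (.node 3 6 (.cons 0x9017365482 (.cons 0x9071284365 .nil)) (.node 5 9 (.cons 0x8123459076 (.cons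 0x4789563210 (.cons 0x4365907821 (.cons 0x2367459810 (.cons 0x3670954812 .nil))))) .done .done) (.node 5 7 (.cons 0x6754321890 .nil) (.node 7 9 (.cons 0x4567983210 .nil) (.node 2 7 .nil (.node 0 5 (.cons 0x6798321054 (.cons 0x6721890543 (.cons 0x6723450981 .nil))) (.node 3 6 (.cons 0x4576321890 (.cons 0x9056348721 (.cons 0x9847210563 .nil))) .done .done) .done) .done) .done) .done)) (.node 3 6 (.cons 0x8901236745 .nil) (.node 3 5 (.cons 0x8901235476 .nil) (.node 7 9 (.cons 0x4567983210 .nil) (.node 0 8 (.cons 0x5436790812 .nil) (.node 5 8 (.cons 0x2185436790 .nil) (.node 6 8 (.cons 0x8635479012 .nil) .done .done) .done) (.node 2 7 (.cons 0x6354812790 .nil) (.node 1 7 (.cons 0x3654821790 .nil) (.node 5 7 (.cons 0x6754321890 .nil) .done .done) .done) .done)) .done) (.node 1 7 (.cons 0x9071284365 .nil) (.node 2 7 .nil (.node 1 6 (.cons 0x7328901654 (.cons 0x9016548273 (.cons 0x1654372890 .nil))) .done (.node 5 7 (.cons 0x6754321890 .nil) (.node 7 9 (.cons 0x4567983210 .nil)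 .done .done) .done)) (.node 7 9 (.cons 0x4567983210 .nil) (.node 5 7 (.cons 0x6754321890 .nil) (.node 2 7 .nil (.node 0 4 (.cons 0x9821756340 (.cons 0x9840127563 (.cons 0x9832765401 .nil))) .done .done) .done) .done) .done)) .done)) .done)) (.node 6 8 (.cons 0x9076812345 .nil) (.node 0 8 .nil (.node 1 7 (.cons 0x9071286543 .nil) (.node 4 9 (.cons 0x7654983210 (.cons 0x6549801732 .nil)) (.node 3 9 (.cons 0x2398456710 (.cons 0x9345680712 .nil)) (.node 6 9 (.cons 0x4569823710 (.cons 0x9654328071 (.cons 0x5496708321 .nil))) .done .done) (.node 0 2 (.cons 0x5671208943 .nil) (.node 2 9 (.cons 0x3298456710 (.cons 0x5670834921 (.cons 0x3807654921 .nil))) .done .done) .done)) (.node 7 9 (.cons 0x4567983210 .nil) (.node 4 6 (.cons 0x5467983210 (.cons 0x5467980123 .nil)) (.node 1 9 (.cons 0x2865437091 (.cons 0x7809123465 (.cons 0x5643719082 .nil))) .done .done) (.node 1 4 (.cons 0x8901456732 (.cons 0x3214567980 (.cons 0x9765412380 (.cons 0x9708321456 .nil)))) .done .done)) .done)) .done)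 (.node 5 8 .nil (.node 1 9 (.cons 0x4568237091 (.cons 0x6587091234 (.cons 0x2348567091 .nil))) (.node 4 9 (.cons 0x7654983210 (.cons 0x6587094321 (.cons 0x9458321076 .nil))) .done .done) (.node 0 8 .nil (.node 3 6 (.cons 0x9076345812 .nil) (.node 3 5 (.cons 0x9076812354 .nil) (.node 1 5 (.cons 0x4321567890 (.cons 0x9087651234 .nil)) (.node 5 7 (.cons 0x6754321890 (.cons 0x9081236754 .nil)) .done .done) .done) (.node 5 7 (.cons 0x6754321890 .nil) (.node 4 9 (.cons 0x7654983210 (.cons 0x7563210894 (.cons 0x6754980123 (.cons 0x9436570821 .nil)))) .done (.node 5 9 (.cons 0x4367095812 .nil) (.node 1 5 (.cons 0x4321567890 (.cons 0x9087651234 .nil)) (.node 4 9 (.cons 0x7654983210 (.cons 0x9436708512 (.cons 0x9436512807 .nil))) .done .done) (.node 2 6 (.cons 0x9076218543 (.cons 0x9543267081 (.cons 0x7623459081 .nil))) .done .done)) .done)) .done)) .done) .done)) .done)) .done)) .done)) (.node 6 8 (.cons 0x9076812345 .nil) tc9_0_14 .done)))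
noncomputable def tc9_0_16 : T := (.node 1 9 (.cons 0x4567328910 .nil) (.node 1 7 .nil (.node 0 5 (.cons 0x6732891054 (.cons 0x6509871234 (.cons 0x6719823450 .nil))) .done (.node 1 4 (.cons 0x9823765410 .nil) (.node 3 8 .nil (.node 2 4 (.cons 0x3421567890 (.cons 0x9078342156 (.cons 0x6738901542 .nil))) .done (.node 1 6 .nil (.node 0 5 (.cons 0x6732891054 (.cons 0x7890561234 (.cons 0x7619823450 .nil))) .done (.node 1 3 .nil (.node 4 8 (.cons 0x2376548901 (.cons 0x7654890132 .nil)) (.node 2 6 (.cons 0x7621543890 (.cons 0x9073184562 .nil)) (.node 0 5 (.cons 0x5091267843 (.cons 0x9056213487 (.cons 0x5091348762 .nil))) .done .done) .done) .done) .done)) .done)) .done) .done)) (.node 3 8 .nil (.node 2 4 (.cons 0x3421567890 (.cons 0x9078342156 (.cons 0x6738901542 .nil))) (.node 2 9 (.cons 0x6518734290 (.cons 0x6512907834 (.cons 0x8345129076 .nil))) (.node 0 4 (.cons 0x2891567340 (.cons 0x6519283704 (.cons 0x9128340765 (.cons 0x9156704382 .nil)))) (.node 1 6 (.cons 0x9823761045 (.cons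 0x2983761540 (.cons 0x9283761540 .nil))) .done .done) .done) .done) (.node 3 9 .nil (.node 2 4 (.cons 0x3421567890 (.cons 0x8765124390 (.cons 0x8709342156 (.cons 0x6739824510 .nil)))) .done (.node 0 3 (.cons 0x4309876512 .nil) (.node 4 8 (.cons 0x2376548901 .nil) (.node 4 9 (.cons 0x7651289430 .nil) (.node 2 9 (.cons 0x6548293701 .nil) (.node 4 7 (.cons 0x9821567430 .nil) (.node 0 8 (.cons 0x5674321980 .nil) (.node 0 4 (.cons 0x2891567340 .nil) (.node 0 5 (.cons 0x8912347650 .nil) .done .done) .done) .done) .done) (.node 5 9 (.cons 0x3482195670 .nil) (.node 0 8 (.cons 0x5670823491 .nil) (.node 5 8 (.cons 0x1943285670 .nil) .done .done) .done) .done)) (.node 5 8 (.cons 0x2348567091 .nil) (.node 6 8 (.cons 0x9076834512 .nil) (.node 0 8 .nil (.node 5 9 (.cons 0x6590781234 (.cons 0x4328076591 .nil)) .done .done) .done) .done) .done)) .done) .done)) .done)) .done)) (.node 3 8 .nil (.node 2 4 (.cons 0x3421567890 (.cons 0x9015428376 (.cons 0x9078342156 .nil))) (.node 2 9 (.cons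 0x6512907834 (.cons 0x4298376510 .nil)) (.node 0 3 (.cons 0x6510378924 (.cons 0x8924510376 .nil)) (.node 4 6 (.cons 0x5467328901 (.cons 0x9015467382 (.cons 0x7301892465 (.cons 0x5643290781 .nil)))) .done .done) (.node 6 9 (.cons 0x3769824510 (.cons 0x4296518370 (.cons 0x7096543812 (.cons 0x9670154283 .nil)))) .done .done)) .done) (.node 4 8 (.cons 0x2376548901 .nil) (.node 3 6 (.cons 0x7634512890 .nil) (.node 3 5 (.cons 0x9012845367 .nil) (.node 0 5 (.cons 0x9051287634 .nil) (.node 0 8 (.cons 0x9082154367 .nil) .done .done) .done) (.node 6 8 (.cons 0x9076821543 .nil) (.node 0 6 (.cons 0x2890673451 .nil) (.node 6 9 (.cons 0x6907345182 .nil) (.node 0 8 .nil (.node 1 4 (.cons 0x8145690732 (.cons 0x9654180732 (.cons 0x9670832145 .nil))) (.node 2 4 (.cons 0x3421567890 (.cons 0x9654237081 (.cons 0x5690873241 .nil))) .done .done) .done) .done) .done) (.node 5 8 .nil (.node 1 9 (.cons 0x4568190732 (.cons 0x5843670912 (.cons 0x3485670912 .nil))) .done (.node 0 8 .nil (.node 2 6 (.cons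 0x1543762890 (.cons 0x9082673451 .nil)) (.node 0 3 (.cons 0x9803451267 .nil) (.node 3 9 (.cons 0x9384567012 (.cons 0x7621543980 .nil)) .done .done) .done) .done) .done)) .done)) .done)) (.node 5 8 .nil (.node 1 9 (.cons 0x9107654832 (.cons 0x8543219076 (.cons 0x2348567091 .nil))) .done (.node 6 8 (.cons 0x9076821543 .nil) (.node 0 8 .nil (.node 3 6 (.cons 0x7634512890 (.cons 0x9082154367 .nil)) (.node 5 7 (.cons 0x4367512890 .nil) (.node 4 9 (.cons 0x7654983210 (.cons 0x7563210894 (.cons 0x2157634980 (.cons 0x9436570812 .nil)))) .done .done) .done) .done) .done) .done)) .done)) .done)) (.node 2 7 .nil (.node 0 3 (.cons 0x4309876512 (.cons 0x6512789034 (.cons 0x8903451276 .nil))) (.node 0 6 (.cons 0x2734560981 (.cons 0x7234560981 .nil)) (.node 2 4 (.cons 0x9810654237 (.cons 0x9065187342 (.cons 0x2437890651 (.cons 0x3760982451 .nil)))) .done .done) .done) (.node 1 7 .nil (.node 2 4 (.cons 0x3421567890 (.cons 0x8901732456 .nil)) (.node 0 6 (.cons 0x9065187342 (.cons 0x9065428173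 (.cons 0x9817234560 .nil))) (.node 6 9 (.cons 0x2437815690 (.cons 0x3718245690 (.cons 0x8170965432 (.cons 0x8173245690 .nil)))) .done .done) (.node 0 4 (.cons 0x5678904321 (.cons 0x6540982371 (.cons 0x3289045671 .nil))) (.node 0 5 (.cons 0x6789051243 (.cons 0x6509871234 .nil)) (.node 2 6 (.cons 0x3426789051 (.cons 0x9045628173 (.cons 0x9817265043 .nil))) .done .done) .done) .done)) (.node 0 5 (.cons 0x8905432176 .nil) (.node 4 7 (.cons 0x6509874321 .nil) (.node 1 9 .nil (.node 4 6 (.cons 0x7890564321 (.cons 0x7891234650 (.cons 0x8237190546 (.cons 0x1987234650 .nil)))) .done (.node 2 6 (.cons 0x3478905621 .nil) (.node 2 5 .nil (.node 0 3 (.cons 0x9037456281 (.cons 0x8903476521 .nil)) (.node 0 8 (.cons 0x6508912743 (.cons 0x9081734526 (.cons 0x6725198034 .nil))) .done .done) .done) (.node 5 7 (.cons 0x3475621890 .nil) (.node 7 9 .nil (.node 1 4 (.cons 0x1456732890 (.cons 0x8973265014 (.cons 0x6541823790 .nil))) .done .done) .done) .done)) .done)) .done) (.node 5 8 (.cons 0x6712345890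 .nil) (.node 1 9 .nil (.node 1 4 (.cons 0x2341987650 (.cons 0x8237654190 .nil)) .done (.node 3 8 .nil (.node 2 4 (.cons 0x4237658910 (.cons 0x4283765190 (.cons 0x6519073824 (.cons 0x6724389150 .nil)))) .done (.node 0 8 (.cons 0x4327650891 .nil) (.node 4 8 (.cons 0x1984327650 .nil) (.node 6 8 (.cons 0x5432176890 .nil) .done .done) .done) .done)) .done)) .done) .done)) .done)) (.node 3 8 (.cons 0x6721543890 .nil) (.node 6 8 (.cons 0x3451276890 .nil) (.node 0 6 (.cons 0x9834512760 .nil) (.node 3 6 (.cons 0x9072186345 .nil) (.node 1 6 (.cons 0x9073281654 .nil) (.node 2 6 (.cons 0x6273451890 .nil) .done .done) .done) (.node 0 5 (.cons 0x3450986721 .nil) (.node 1 7 (.cons 0x7189065432 .nil) (.node 4 7 (.cons 0x6509874321 .nil) (.node 0 4 (.cons 0x5678904321 .nil) (.node 0 8 .nil (.node 1 4 (.cons 0x1456732890 (.cons 0x9082376541 .nil)) .done .done) .done) .done) .done) .done) .done)) (.node 5 8 .nil (.node 1 9 (.cons 0x7091865432 (.cons 0x2345867091 (.cons 0x8567091234 .nil)))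 .done .done) .done)) (.node 1 7 .nil (.node 0 6 (.cons 0x7609834512 (.cons 0x5438906712 (.cons 0x7189065432 .nil))) (.node 0 3 (.cons 0x4309876512 .nil) (.node 0 2 (.cons 0x6543718902 .nil) (.node 2 4 (.cons 0x9815602437 (.cons 0x9024378156 (.cons 0x8906517342 .nil))) .done .done) .done) .done) (.node 4 7 .nil (.node 0 2 (.cons 0x6512098743 (.cons 0x8902156743 .nil)) (.node 0 6 (.cons 0x7432189065 (.cons 0x9817345602 (.cons 0x9834517602 .nil))) .done .done) (.node 1 6 (.cons 0x9073281654 .nil) (.node 7 9 (.cons 0x4561823790 .nil) (.node 5 7 .nil (.node 0 6 (.cons 0x7609834512 (.cons 0x4389067512 (.cons 0x6098127543 (.cons 0x4579061832 .nil)))) .done .done) .done) (.node 1 3 .nil (.node 0 4 (.cons 0x5678904321 (.cons 0x5613740982 (.cons 0x6731540982 (.cons 0x9823176540 .nil)))) .done (.node 3 6 (.cons 0x5476389012 .nil) (.node 2 6 (.cons 0x6273451890 .nil) (.node 1 4 (.cons 0x1456732890 .nil) (.node 1 9 (.cons 0x3745628190 .nil) .done .done) .done) .done) .done)) .done)) .done))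 .done)) .done)) .done))) .done)))
noncomputable def tc9_0_17 : T := (.node 4 8 (.cons 0x2376548901 .nil) (.node 3 8 .nil (.node 4 9 (.cons 0x8765123490 (.cons 0x2156783490 (.cons 0x4901567832 .nil))) (.node 2 4 (.cons 0x8732490156 .nil) (.node 5 9 (.cons 0x6784321590 (.cons 0x1243876590 (.cons 0x9567832410 (.cons 0x6594123870 .nil)))) .done .done) .done) (.node 2 8 (.cons 0x9823765410 .nil) (.node 1 6 (.cons 0x5489016732 .nil) (.node 3 6 (.cons 0x7632109845 .nil) (.node 4 7 .nil (.node 0 5 (.cons 0x9051673284 (.cons 0x9823741650 (.cons 0x9056347812 (.cons 0x9051674823 .nil)))) .done (.node 4 6 (.cons 0x9078123465 .nil) (.node 0 4 (.cons 0x5678904321 .nil) (.node 4 9 (.cons 0x7654983210 .nil) .done .done) .done) .done)) .done) (.node 6 8 (.cons 0x9015486732 .nil) (.node 0 6 (.cons 0x9067328451 .nil) (.node 3 6 (.cons 0x7632109845 .nil) (.node 4 6 (.cons 0x9078123465 .nil) .done .done) .done) .done) .done)) .done) .done)) (.node 4 7 .nil (.node 0 6 (.cons 0x7432189065 (.cons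 0x9065187432 .nil)) (.node 4 9 (.cons 0x5601498732 (.cons 0x8760943215 (.cons 0x7815609432 .nil))) .done (.node 6 9 (.cons 0x5690781234 (.cons 0x8123470965 (.cons 0x2347815690 .nil))) (.node 0 2 (.cons 0x9021567843 (.cons 0x8154732096 (.cons 0x5698147320 .nil))) (.node 0 8 (.cons 0x7320896541 (.cons 0x6908154732 (.cons 0x9651478023 .nil))) .done .done) .done) .done)) (.node 4 9 (.cons 0x8765123490 .nil) (.node 0 4 (.cons 0x5678904321 .nil) (.node 2 4 (.cons 0x8732490156 .nil) (.node 4 6 (.cons 0x9018732465 .nil) .done .done) .done) (.node 0 4 (.cons 0x5678904321 .nil) (.node 2 4 (.cons 0x8765109423 .nil) (.node 4 6 (.cons 0x9018732465 .nil) .done .done) .done) .done)) .done)) (.node 1 3 (.cons 0x7654890132 .nil) (.node 1 7 .nil (.node 2 9 (.cons 0x8923765410 (.cons 0x6517843290 (.cons 0x6548170923 .nil))) (.node 0 6 (.cons 0x8923760145 (.cons 0x8432906715 (.cons 0x7189065432 .nil))) (.node 3 8 (.cons 0x5410673892 (.cons 0x5438921760 .nil)) .done .done) (.node 0 5 (.cons 0x7650148923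 (.cons 0x6509871234 (.cons 0x8923417650 .nil))) (.node 2 6 (.cons 0x7341892650 (.cons 0x4371892650 (.cons 0x8431762905 (.cons 0x4562371890 .nil)))) .done .done) .done)) (.node 1 9 (.cons 0x2348765190 .nil) (.node 1 6 .nil (.node 2 4 (.cons 0x9015678423 (.cons 0x5610987324 (.cons 0x8901673245 .nil))) (.node 3 9 (.cons 0x5678423901 (.cons 0x7842390165 .nil)) .done .done) .done) .done) .done)) (.node 4 7 (.cons 0x5674890132 .nil) (.node 1 6 .nil (.node 0 4 (.cons 0x5678904321 (.cons 0x7890432165 .nil)) (.node 4 9 (.cons 0x8765123490 (.cons 0x8709432165 .nil)) .done .done) (.node 1 7 .nil (.node 2 4 (.cons 0x9015678423 (.cons 0x8901732456 .nil)) (.node 4 6 (.cons 0x9018732465 .nil) .done .done) .done) .done)) (.node 4 6 (.cons 0x9078123465 .nil) (.node 1 6 .nil (.node 2 4 (.cons 0x9015678423 (.cons 0x5610987324 (.cons 0x8901673245 .nil))) .done (.node 1 9 (.cons 0x2348765190 .nil) (.node 1 7 .nil (.node 3 9 (.cons 0x4876510932 (.cons 0x5648710932 .nil)) .done .done) .done) .done))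 .done) .done)) .done)) .done))) (.node 4 8 (.cons 0x2376548901 .nil) (.node 1 9 (.cons 0x2376548910 .nil) (.node 4 7 .nil (.node 6 8 (.cons 0x5410986732 (.cons 0x5681907432 (.cons 0x9074568123 .nil))) (.node 0 6 (.cons 0x7432189065 (.cons 0x9065187432 .nil)) (.node 2 9 (.cons 0x2907345681 (.cons 0x3478651290 (.cons 0x5489237601 (.cons 0x9237065481 .nil)))) .done .done) .done) (.node 4 9 (.cons 0x8765123490 .nil) (.node 3 9 (.cons 0x7654893210 .nil) (.node 2 9 (.cons 0x9237018456 .nil) (.node 3 8 (.cons 0x6547092183 .nil) .done .done) .done) (.node 0 4 (.cons 0x5678904321 .nil) (.node 2 4 (.cons 0x5673248910 .nil) (.node 4 6 (.cons 0x9018732465 .nil) .done .done) .done) .done)) .done)) (.node 3 8 (.cons 0x8345670912 .nil) (.node 2 8 (.cons 0x4567328901 .nil) (.node 4 7 .nil (.node 0 6 (.cons 0x4519067382 (.cons 0x9065182374 (.cons 0x9067451283 (.cons 0x9065187432 .nil)))) .done (.node 1 7 .nil (.node 0 4 (.cons 0x5678904321 (.cons 0x6540982371 (.cons 0x3289045671 .nil))) .done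 (.node 1 6 (.cons 0x5416732890 .nil) (.node 1 3 .nil (.node 0 4 (.cons 0x5678904321 (.cons 0x5613740982 (.cons 0x9823176540 .nil))) .done .done) .done) .done)) .done)) .done) .done) .done)) (.node 4 9 (.cons 0x8765123490 .nil) (.node 0 4 (.cons 0x5678904321 .nil) (.node 0 8 (.cons 0x9087651234 .nil) (.node 3 8 .nil (.node 2 9 (.cons 0x3487651290 (.cons 0x6738451092 (.cons 0x4837651092 (.cons 0x3845670921 .nil)))) .done (.node 2 8 (.cons 0x4567328901 .nil) (.node 5 8 (.cons 0x6587094321 .nil) (.node 6 8 (.cons 0x7865123490 .nil) .done .done) .done) .done)) .done) .done) (.node 0 4 (.cons 0x5678904321 .nil) (.node 4 7 .nil (.node 0 6 (.cons 0x7815609432 (.cons 0x7432189065 (.cons 0x9065187432 .nil))) (.node 6 9 (.cons 0x5690781234 (.cons 0x8123470965 (.cons 0x8740965123 .nil))) .done .done) (.node 2 4 (.cons 0x8765109423 .nil) (.node 4 6 (.cons 0x9018732465 .nil) .done .done) .done)) .done) .done)) (.node 4 9 (.cons 0x8765123490 .nil) (.node 0 4 (.cons 0x5678904321 .nil) (.node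 0 8 (.cons 0x9087651234 .nil) (.node 3 8 (.cons 0x9043876512 .nil) (.node 1 3 (.cons 0x5678904312 .nil) (.node 2 8 (.cons 0x4567328901 .nil) (.node 5 8 (.cons 0x6587094321 .nil) (.node 6 8 (.cons 0x7865123490 .nil) .done .done) .done) .done) .done) .done) .done) (.node 1 9 (.cons 0x2348765190 .nil) (.node 1 3 (.cons 0x7654890132 .nil) (.node 3 5 (.cons 0x6534907812 .nil) (.node 3 8 (.cons 0x2156783490 .nil) (.node 3 9 (.cons 0x4876510932 .nil) .done .done) .done) .done) .done) .done)) .done))) (.node 3 5 (.cons 0x2143567890 .nil) (.node 2 5 (.cons 0x3412567890 .nil) (.node 3 8 (.cons 0x9078341256 .nil) (.node 4 8 (.cons 0x2376548901 .nil) (.node 2 8 (.cons 0x4567328901 .nil) (.node 4 7 .nil (.node 0 6 (.cons 0x2560987341 (.cons 0x9847325601 (.cons 0x3478906521 (.cons 0x9065187432 .nil)))) .done (.node 2 4 (.cons 0x6524109873 .nil) (.node 4 6 (.cons 0x4652378901 .nil) (.node 0 4 (.cons 0x5678904321 .nil) (.node 4 9 (.cons 0x4987653210 .nil) .done .done) .done) .done) .done))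 .done) (.node 1 3 (.cons 0x7654890132 .nil) (.node 0 3 (.cons 0x5678903412 .nil) (.node 3 9 (.cons 0x4876510932 .nil) .done .done) .done) .done)) .done) (.node 3 8 .nil (.node 4 9 (.cons 0x4987653210 (.cons 0x6521490783 (.cons 0x4901567832 .nil))) (.node 0 6 (.cons 0x3521498760 (.cons 0x8376094152 (.cons 0x4906783251 .nil))) (.node 1 3 (.cons 0x7609831254 .nil) (.node 4 7 (.cons 0x4731890652 (.cons 0x5213894760 .nil)) .done .done) .done) .done) (.node 2 8 (.cons 0x4567328901 .nil) (.node 4 8 (.cons 0x2376548901 .nil) (.node 1 3 (.cons 0x7654890132 .nil) (.node 0 3 (.cons 0x5678903412 .nil) (.node 3 9 (.cons 0x2893765410 .nil) .done .done) .done) .done) .done) .done)) .done)) (.node 4 7 (.cons 0x6532109874 .nil) (.node 4 8 (.cons 0x2376548901 .nil) (.node 2 8 (.cons 0x4567328901 .nil) (.node 3 8 .nil (.node 2 5 (.cons 0x3412567890 .nil) (.node 4 9 (.cons 0x8765123490 (.cons 0x6521490783 (.cons 0x4901567832 .nil))) .done .done) .done) (.node 2 7 (.cons 0x6534127890 .nil) (.node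 1 7 .nil (.node 0 4 (.cons 0x5678904321 (.cons 0x6540982371 (.cons 0x3289045671 .nil))) .done .done) .done) .done)) (.node 4 6 (.cons 0x9874653210 .nil) (.node 1 7 (.cons 0x9017846532 .nil) (.node 2 7 (.cons 0x6534127890 .nil) (.node 1 9 (.cons 0x2348765190 .nil) (.node 1 3 (.cons 0x1327654890 .nil) (.node 1 6 (.cons 0x6172354890 .nil) .done .done) .done) .done) .done) .done) .done)) (.node 4 8 (.cons 0x2376548901 .nil) (.node 3 8 .nil (.node 4 9 (.cons 0x8765123490 (.cons 0x4901567832 .nil)) (.node 0 4 (.cons 0x5678904321 .nil) (.node 4 6 (.cons 0x7890123564 (.cons 0x7832109465 .nil)) .done .done) .done) (.node 0 3 (.cons 0x5678903412 .nil) (.node 3 9 (.cons 0x7654893210 .nil) .done .done) .done)) (.node 0 4 (.cons 0x5678904321 .nil) (.node 4 9 (.cons 0x8765123490 .nil) .done .done) .done)) .done)) .done)) .done)))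
noncomputable def tc9_0_18 : T := (.node 2 8 (.cons 0x4567328901 .nil) (.node 3 8 .nil (.node 5 9 (.cons 0x6590781234 (.cons 0x2143876590 (.cons 0x4109567832 (.cons 0x4123876590 .nil)))) (.node 1 6 (.cons 0x8709561234 (.cons 0x4387095612 .nil)) (.node 1 9 (.cons 0x4567328910 (.cons 0x9128345670 .nil)) (.node 0 5 (.cons 0x6732891054 (.cons 0x9056783412 .nil)) (.node 1 7 (.cons 0x6719823450 (.cons 0x2176543890 .nil)) .done .done) .done) .done) .done) (.node 4 8 (.cons 0x2376548901 .nil) (.node 1 3 .nil (.node 4 6 (.cons 0x9078123465 .nil) (.node 5 9 (.cons 0x7645983210 (.cons 0x6590784312 (.cons 0x6709548312 .nil))) (.node 0 2 (.cons 0x8765902143 (.cons 0x7895643120 (.cons 0x5987643120 .nil))) (.node 5 7 (.cons 0x9810237564 (.cons 0x4675983120 .nil)) .done .done) (.node 0 4 (.cons 0x9876512340 (.cons 0x7895640132 (.cons 0x5987640132 (.cons 0x9823104567 .nil)))) .done .done)) (.node 2 7 (.cons 0x9832764510 (.cons 0x8901327645 (.cons 0x3127654890 .nil))) .done .done)) (.node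 1 6 .nil (.node 2 4 (.cons 0x5673109842 (.cons 0x5610987324 (.cons 0x8901673245 .nil))) .done (.node 1 9 (.cons 0x4567328910 .nil) (.node 1 7 .nil (.node 4 9 (.cons 0x6549823710 (.cons 0x3289456710 .nil)) (.node 0 2 (.cons 0x5437619820 (.cons 0x6510237894 (.cons 0x5498201673 (.cons 0x5671209843 .nil)))) .done .done) .done) .done) .done)) .done)) (.node 1 3 (.cons 0x7654890132 .nil) (.node 3 9 (.cons 0x9328456701 .nil) (.node 0 3 .nil (.node 5 9 (.cons 0x6590781234 (.cons 0x9567821430 (.cons 0x9567823014 (.cons 0x2309567841 .nil)))) .done .done) .done) .done) .done)) .done)) (.node 3 8 .nil (.node 5 9 (.cons 0x6590781234 (.cons 0x2143876590 (.cons 0x4109567832 (.cons 0x4123876590 .nil)))) (.node 1 6 (.cons 0x8709561234 (.cons 0x4387095612 .nil)) (.node 0 8 (.cons 0x9083214567 .nil) (.node 2 7 (.cons 0x8095614372 (.cons 0x9561270834 (.cons 0x4165908372 .nil))) .done (.node 0 5 (.cons 0x9056783412 .nil) (.node 1 7 (.cons 0x6590871432 (.cons 0x8905432176 (.cons 0x2176543890 .nil)))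 .done .done) .done)) .done) .done) (.node 4 8 (.cons 0x2376548901 .nil) (.node 4 6 (.cons 0x9823764510 .nil) (.node 0 8 .nil (.node 2 9 (.cons 0x9210765483 (.cons 0x9237801465 (.cons 0x9215670843 (.cons 0x8092376541 .nil)))) .done (.node 5 8 (.cons 0x9014582376 .nil) (.node 6 8 .nil (.node 4 9 (.cons 0x7654983210 (.cons 0x9432156870 (.cons 0x2376894510 (.cons 0x9451076823 .nil)))) .done .done) .done) .done)) (.node 6 8 .nil (.node 4 9 (.cons 0x7654983210 (.cons 0x9432156870 (.cons 0x2376894510 .nil))) .done (.node 5 8 (.cons 0x9014582376 .nil) (.node 0 8 .nil (.node 2 9 (.cons 0x9234651870 (.cons 0x7329086541 (.cons 0x7658092341 (.cons 0x8092376541 .nil)))) .done .done) .done) .done)) .done)) (.node 5 8 (.cons 0x9014582376 .nil) (.node 0 8 .nil (.node 2 9 (.cons 0x9238456701 (.cons 0x2908567341 (.cons 0x8092376541 .nil))) (.node 1 6 (.cons 0x9076128543 (.cons 0x7341658092 (.cons 0x5614378092 .nil))) .done .done) .done) (.node 5 7 .nil (.node 0 6 (.cons 0x9067328541 (.cons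 0x7560981234 (.cons 0x3457609821 (.cons 0x9065781432 .nil)))) .done (.node 0 8 .nil (.node 2 9 (.cons 0x9238456701 (.cons 0x6578092143 (.cons 0x9234807651 (.cons 0x8092376541 .nil)))) .done (.node 6 8 .nil (.node 0 3 (.cons 0x6754309821 (.cons 0x9032145867 (.cons 0x9034128675 .nil))) (.node 3 9 (.cons 0x5678093412 (.cons 0x7685412390 (.cons 0x5768214390 .nil))) .done .done) .done) .done)) .done)) .done)) .done)) .done)) (.node 1 6 (.cons 0x9073281654 .nil) (.node 0 6 (.cons 0x9065418237 .nil) (.node 1 3 .nil (.node 4 9 (.cons 0x6549073281 (.cons 0x5609413782 (.cons 0x2894513760 (.cons 0x6549073182 (.cons 0x5678231490 .nil))))) .done (.node 1 9 (.cons 0x8237654190 .nil) (.node 1 7 .nil (.node 0 4 (.cons 0x9876512340 (.cons 0x6540982371 (.cons 0x3289045671 .nil))) (.node 0 5 (.cons 0x9823761504 (.cons 0x6509871234 (.cons 0x6713289054 .nil))) .done .done) .done) .done) .done)) (.node 1 9 (.cons 0x8237654190 .nil) (.node 1 3 .nil (.node 4 9 (.cons 0x6549073281 (.cons 0x7823149065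 (.cons 0x6549073182 (.cons 0x5678231490 .nil)))) .done .done) (.node 1 7 (.cons 0x7189065432 .nil) (.node 6 9 (.cons 0x7328145690 .nil) (.node 7 9 (.cons 0x6541823790 .nil) .done .done) .done) .done)) .done)) (.node 1 7 .nil (.node 0 6 (.cons 0x9065418237 (.cons 0x7189065432 .nil)) (.node 6 9 (.cons 0x7328145690 (.cons 0x8170965432 .nil)) (.node 4 9 (.cons 0x6549073281 (.cons 0x4982371560 (.cons 0x6549071823 .nil))) (.node 5 8 (.cons 0x9415823760 (.cons 0x2349851760 .nil)) (.node 3 5 (.cons 0x2853760941 (.cons 0x8534906712 (.cons 0x6094173582 .nil))) .done .done) (.node 2 5 (.cons 0x4187325690 (.cons 0x8173490652 (.cons 0x8256094173 .nil))) .done .done)) .done) .done) (.node 1 9 (.cons 0x8237654190 .nil) (.node 1 3 .nil (.node 2 9 (.cons 0x8165437092 (.cons 0x8290731654 .nil)) (.node 5 8 (.cons 0x3761458290 (.cons 0x6731458290 (.cons 0x8543167092 .nil))) .done .done) .done) .done) .done)) .done)) .done))) (.node 1 7 .nil (.node 0 4 (.cons 0x9876512340 .nil) (.node 2 8 (.cons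 0x4567328901 (.cons 0x9823710456 (.cons 0x6540982371 .nil))) (.node 0 2 (.cons 0x6543718902 .nil) (.node 4 9 (.cons 0x6732894510 (.cons 0x3498765120 (.cons 0x1567894320 .nil))) .done (.node 6 8 (.cons 0x5410986732 (.cons 0x9865401732 (.cons 0x9865173402 (.cons 0x9071865432 (.cons 0x9865173204 .nil))))) .done .done)) .done) (.node 0 6 (.cons 0x7189065432 .nil) (.node 0 5 (.cons 0x6509871234 (.cons 0x9876051432 .nil)) .done (.node 4 7 (.cons 0x7432189065 .nil) (.node 4 8 (.cons 0x2376548901 .nil) (.node 0 2 (.cons 0x9876512043 (.cons 0x9843206517 (.cons 0x9843206715 .nil))) .done .done) .done) .done)) (.node 2 8 (.cons 0x4567328901 (.cons 0x3289045671 .nil)) (.node 1 9 (.cons 0x5671982340 .nil) (.node 0 2 (.cons 0x9182073456 (.cons 0x6543719820 (.cons 0x5671982043 .nil))) (.node 2 7 (.cons 0x6540981723 .nil) .done .done) .done) (.node 0 6 (.cons 0x9823760154 (.cons 0x9823406715 .nil)) (.node 6 9 (.cons 0x9651870432 (.cons 0x5176982340 (.cons 0x8170965432 (.cons 0x3289671540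 .nil)))) .done .done) .done)) .done))) (.node 3 8 (.cons 0x2176543890 .nil) (.node 4 8 (.cons 0x2376548901 .nil) (.node 1 9 .nil (.node 6 8 (.cons 0x5410986732 (.cons 0x7091865432 (.cons 0x4568190732 .nil))) .done (.node 4 7 .nil (.node 6 8 (.cons 0x5410986732 (.cons 0x5681907432 (.cons 0x9074568123 .nil))) .done (.node 1 6 .nil (.node 4 9 (.cons 0x7654983210 (.cons 0x8709432165 (.cons 0x5618709432 .nil))) .done (.node 4 6 (.cons 0x9078123465 .nil) (.node 0 4 (.cons 0x9876512340 .nil) (.node 4 9 (.cons 0x7654983210 .nil) .done .done) .done) .done)) .done)) .done)) (.node 1 9 (.cons 0x9107654832 .nil) (.node 5 7 (.cons 0x6570918432 .nil) (.node 5 8 (.cons 0x2348567091 .nil) (.node 6 8 (.cons 0x3214576890 .nil) (.node 0 8 (.cons 0x9156708432 .nil) (.node 2 8 (.cons 0x3456712890 .nil) .done .done) .done) .done) .done) .done) .done)) (.node 2 8 (.cons 0x3456712890 .nil) (.node 1 9 (.cons 0x4567328910 .nil) (.node 3 9 .nil (.node 0 4 (.cons 0x9876512340 (.cons 0x6540173982 (.cons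 0x2156789340 (.cons 0x4015678932 .nil)))) .done (.node 0 3 (.cons 0x9821765430 .nil) (.node 5 7 .nil (.node 0 4 (.cons 0x9876512340 (.cons 0x6578904321 (.cons 0x8219340756 (.cons 0x9182340756 .nil)))) .done (.node 1 6 (.cons 0x4576123890 .nil) (.node 1 3 .nil (.node 0 6 (.cons 0x7128934560 (.cons 0x4576098312 (.cons 0x9823145760 .nil))) .done .done) .done) .done)) .done) .done)) .done) (.node 0 3 (.cons 0x8903456712 .nil) (.node 4 7 (.cons 0x6547128903 .nil) (.node 3 9 (.cons 0x6547128930 .nil) (.node 1 9 .nil (.node 0 5 (.cons 0x6732890541 (.cons 0x6503478912 (.cons 0x6745019832 .nil))) .done .done) .done) .done) (.node 1 3 .nil (.node 0 6 (.cons 0x5438906712 (.cons 0x5413760982 (.cons 0x7609823145 .nil))) .done (.node 1 6 (.cons 0x5416732890 .nil) (.node 1 9 .nil (.node 4 8 (.cons 0x2376548901 (.cons 0x2376548910 (.cons 0x2845673190 (.cons 0x7654823190 .nil)))) .done .done) .done) .done)) .done)) .done)) .done)) .done)) (.node 3 5 (.cons 0x2143567890 .nil) (.node 2 5 (.cons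 0x3412567890 .nil) (.node 0 2 (.cons 0x6520987341 .nil) (.node 1 7 .nil (.node 0 4 (.cons 0x9876512340 (.cons 0x6523409871 .nil)) (.node 2 8 (.cons 0x4567328901 (.cons 0x9823710456 (.cons 0x6540982371 .nil))) .done .done) (.node 1 9 .nil (.node 2 8 (.cons 0x4567328901 (.cons 0x4567328910 (.cons 0x8209145376 .nil))) .done (.node 1 3 .nil (.node 2 9 (.cons 0x8765341290 .nil) (.node 6 8 (.cons 0x5432176890 (.cons 0x5413768920 (.cons 0x4513768920 (.cons 0x7092318654 (.cons 0x5413768902 .nil))))) .done .done) .done) .done)) .done)) (.node 0 6 (.cons 0x2560987341 .nil) (.node 1 7 .nil (.node 3 8 (.cons 0x9078341256 (.cons 0x5438906712 .nil)) (.node 0 5 (.cons 0x9834120567 (.cons 0x9834176502 .nil)) .done .done) (.node 4 7 (.cons 0x3478906521 .nil) (.node 1 3 (.cons 0x9874312560 .nil) (.node 1 9 (.cons 0x3478912560 .nil) .done .done) .done) .done)) (.node 1 7 (.cons 0x4325609871 .nil) (.node 4 7 (.cons 0x9815602347 .nil) (.node 2 7 (.cons 0x7234560981 .nil) (.node 0 5 (.cons 0x8905432176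 .nil) (.node 5 7 (.cons 0x6573418902 .nil) .done .done) .done) .done) .done) .done)) .done)) (.node 2 8 (.cons 0x4567328901 .nil) (.node 2 7 .nil (.node 0 6 (.cons 0x5609814372 (.cons 0x2734560981 (.cons 0x7234560981 .nil))) (.node 1 7 (.cons 0x6098173254 .nil) .done .done) (.node 1 7 .nil (.node 4 9 (.cons 0x8765321094 (.cons 0x6549823710 (.cons 0x3289456710 .nil))) (.node 0 4 (.cons 0x9876512340 (.cons 0x9823710456 .nil)) (.node 1 9 (.cons 0x5671982340 .nil) .done .done) .done) .done) .done)) (.node 5 7 .nil (.node 0 2 (.cons 0x5678902143 (.cons 0x6578902143 (.cons 0x6573418902 .nil))) .done (.node 5 8 .nil (.node 2 9 (.cons 0x8765341290 (.cons 0x6587092143 (.cons 0x6581437092 .nil))) .done (.node 0 5 (.cons 0x9053412876 .nil) (.node 5 9 (.cons 0x6782143590 .nil) .done .done) .done)) .done)) .done)) .done)) (.node 4 7 (.cons 0x6532109874 .nil) (.node 4 8 (.cons 0x2376548901 .nil) (.node 2 8 (.cons 0x4567328901 .nil) (.node 3 8 .nil (.node 2 9 (.cons 0x6732984510 (.cons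 0x9283701456 (.cons 0x8341290765 (.cons 0x6541837092 .nil)))) (.node 6 8 (.cons 0x9215438670 (.cons 0x9238670154 (.cons 0x5412907683 .nil))) .done .done) .done) (.node 2 7 (.cons 0x6534127890 .nil) (.node 1 7 .nil (.node 0 4 (.cons 0x9876512340 (.cons 0x6540982371 (.cons 0x3289045671 .nil))) .done .done) .done) .done)) (.node 4 6 (.cons 0x9874653210 .nil) (.node 1 7 (.cons 0x9017846532 .nil) (.node 2 7 (.cons 0x6534127890 .nil) (.node 1 6 (.cons 0x6172354890 .nil) (.node 1 9 (.cons 0x6548190723 .nil) .done .done) .done) .done) .done) .done)) (.node 1 7 .nil (.node 0 6 (.cons 0x7890653412 (.cons 0x4356098712 (.cons 0x7189065432 .nil))) (.node 5 8 (.cons 0x9851234760 (.cons 0x6098534712 (.cons 0x6098532174 .nil))) (.node 0 2 (.cons 0x5678902143 (.cons 0x9851743206 (.cons 0x9851760234 .nil))) .done .done) .done) .done) .done)) .done)) .done)))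
noncomputable def tc9_0_19 : T := (.node 4 8 (.cons 0x2376548901 .nil) (.node 3 8 .nil (.node 4 9 (.cons 0x2376549810 (.cons 0x2156783490 (.cons 0x9456701832 .nil))) .done (.node 2 8 (.cons 0x4567328901 .nil) (.node 1 6 (.cons 0x5489016732 .nil) (.node 1 3 .nil (.node 0 4 (.cons 0x5678904321 (.cons 0x2890456731 (.cons 0x7654098231 .nil))) .done (.node 1 7 (.cons 0x6541732890 .nil) (.node 1 9 (.cons 0x6732845190 .nil) .done .done) .done)) (.node 6 8 (.cons 0x9073286541 .nil) (.node 1 7 (.cons 0x6541732890 .nil) (.node 0 8 (.cons 0x9086715432 .nil) (.node 5 8 (.cons 0x6712345890 .nil) .done .done) .done) .done) .done)) .done) .done)) (.node 0 4 (.cons 0x5678904321 .nil) (.node 4 9 (.cons 0x2376549810 .nil) (.node 4 7 .nil (.node 0 2 (.cons 0x7654981023 (.cons 0x9810237456 (.cons 0x5674981023 .nil))) .done (.node 2 4 (.cons 0x8765109423 .nil) (.node 4 6 (.cons 0x5641098732 .nil) .done .done) .done)) .done) (.node 4 9 (.cons 0x2376549810 .nil) (.node 0 8 (.cons 0x9087651234 .nil)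 (.node 4 7 (.cons 0x9087432156 .nil) (.node 4 6 (.cons 0x5641098732 .nil) (.node 2 4 .nil (.node 1 9 (.cons 0x8765190432 (.cons 0x6519087342 .nil)) (.node 3 9 (.cons 0x2156784390 (.cons 0x6510937842 .nil)) .done .done) .done) .done) .done) (.node 3 8 .nil (.node 1 9 (.cons 0x8765190432 (.cons 0x8345670912 .nil)) (.node 6 9 (.cons 0x9670812345 (.cons 0x5690783412 (.cons 0x5496701832 (.cons 0x5690783214 .nil)))) .done .done) (.node 0 3 (.cons 0x9034876512 .nil) (.node 3 9 (.cons 0x2156784390 .nil) .done .done) .done)) .done)) .done) .done)) (.node 4 9 (.cons 0x2376549810 .nil) (.node 0 4 (.cons 0x5678904321 .nil) (.node 3 9 (.cons 0x4876510932 .nil) (.node 3 5 (.cons 0x6784901532 .nil) (.node 3 8 (.cons 0x9043876512 .nil) (.node 1 3 (.cons 0x5678904312 .nil) (.node 0 3 .nil (.node 7 9 (.cons 0x6798354012 (.cons 0x2189765430 (.cons 0x4567981230 .nil))) .done .done) .done) .done) .done) (.node 4 7 (.cons 0x8476510932 .nil) (.node 2 4 (.cons 0x5673981042 .nil) (.node 4 6 (.cons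 0x5641098732 .nil) .done .done) .done) .done)) .done) (.node 0 4 (.cons 0x5678904321 .nil) (.node 0 2 (.cons 0x9023487651 .nil) (.node 4 7 (.cons 0x9810237456 .nil) (.node 2 4 (.cons 0x9015678423 .nil) (.node 4 6 (.cons 0x5641098732 .nil) .done .done) .done) (.node 4 7 .nil (.node 3 5 (.cons 0x7653498120 (.cons 0x9847653201 (.cons 0x6537498102 .nil))) .done (.node 2 4 (.cons 0x9015678423 .nil) (.node 4 6 (.cons 0x5641098732 .nil) .done .done) .done)) .done)) .done) .done)) .done))) (.node 1 7 .nil (.node 4 8 (.cons 0x2376548901 (.cons 0x6548901732 .nil)) (.node 0 2 (.cons 0x9021567843 (.cons 0x5671209843 .nil)) (.node 3 6 (.cons 0x9021563487 (.cons 0x9845637102 (.cons 0x9021784365 (.cons 0x7120984365 .nil)))) .done (.node 6 8 (.cons 0x5410986732 (.cons 0x5432098671 .nil)) (.node 4 9 (.cons 0x2376549810 (.cons 0x8654907123 (.cons 0x8671549023 .nil))) .done .done) .done)) (.node 4 9 (.cons 0x2376549810 .nil) (.node 6 8 (.cons 0x7865123490 (.cons 0x8654907123 .nil)) (.node 0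 2 (.cons 0x9023487651 (.cons 0x2098654371 (.cons 0x8651734902 .nil))) (.node 2 8 (.cons 0x4567328901 (.cons 0x9071286543 (.cons 0x6820945173 .nil))) .done .done) .done) (.node 0 4 (.cons 0x5678904321 .nil) (.node 6 9 (.cons 0x8715690432 (.cons 0x2371896540 .nil)) (.node 2 5 (.cons 0x8901452376 (.cons 0x8967325410 (.cons 0x3496521870 (.cons 0x3251487690 .nil)))) .done (.node 0 2 (.cons 0x9023487651 (.cons 0x8432096715 .nil)) (.node 2 5 (.cons 0x1894376520 (.cons 0x7104896523 (.cons 0x9652348170 (.cons 0x6520498173 .nil)))) .done .done) .done)) .done) .done)) .done)) (.node 3 8 (.cons 0x2176543890 .nil) (.node 4 8 (.cons 0x2376548901 .nil) (.node 6 8 (.cons 0x5410986732 .nil) (.node 0 8 (.cons 0x9087651234 .nil) (.node 0 3 (.cons 0x9034876512 .nil) (.node 0 2 (.cons 0x8902176543 .nil) (.node 1 3 (.cons 0x7134568902 .nil) .done .done) .done) .done) (.node 4 7 (.cons 0x9074568321 .nil) (.node 2 8 (.cons 0x3456712890 .nil) (.node 0 8 (.cons 0x9087651234 .nil) (.node 5 8 (.cons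 0x9076854123 .nil) .done .done) .done) .done) .done)) (.node 1 3 (.cons 0x7654890132 .nil) (.node 0 3 (.cons 0x8903456712 .nil) (.node 3 9 (.cons 0x4876510932 .nil) .done .done) .done) .done)) (.node 1 6 .nil (.node 2 8 (.cons 0x3456712890 (.cons 0x7328901654 (.cons 0x5416732890 .nil))) .done (.node 2 8 (.cons 0x3456712890 .nil) (.node 4 7 (.cons 0x6547328901 .nil) (.node 1 9 (.cons 0x6547328910 .nil) (.node 1 3 .nil (.node 0 6 (.cons 0x9823745601 (.cons 0x7134560982 .nil)) (.node 2 7 (.cons 0x5438906721 (.cons 0x8906721345 (.cons 0x4560982731 .nil))) .done .done) .done) .done) .done) (.node 1 9 .nil (.node 6 8 (.cons 0x5410986732 (.cons 0x5438670912 (.cons 0x5419076823 .nil))) .done (.node 1 3 .nil (.node 0 6 (.cons 0x5438906712 (.cons 0x5413760982 (.cons 0x7609823145 .nil))) .done .done) .done)) .done)) .done)) .done)) .done)) (.node 3 5 (.cons 0x2143567890 .nil) (.node 2 5 (.cons 0x3412567890 .nil) (.node 1 6 (.cons 0x2561437890 .nil) (.node 3 6 (.cons 0x4109873652 .nil)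 (.node 2 8 (.cons 0x7341652890 .nil) (.node 3 8 (.cons 0x9078341256 .nil) (.node 4 8 (.cons 0x2376548901 .nil) (.node 1 3 (.cons 0x7654890132 .nil) (.node 1 7 (.cons 0x7165234890 .nil) .done .done) .done) .done) (.node 2 6 .nil (.node 3 8 (.cons 0x9076541283 (.cons 0x9073826541 (.cons 0x5410983762 .nil))) .done (.node 4 6 (.cons 0x4652378901 .nil) (.node 0 6 (.cons 0x2560987341 .nil) (.node 6 8 (.cons 0x9078652143 .nil) .done .done) .done) .done)) .done)) .done) .done) (.node 1 6 .nil (.node 2 8 (.cons 0x4567328901 (.cons 0x7328901654 (.cons 0x3761452890 .nil))) .done (.node 2 8 (.cons 0x4567328901 .nil) (.node 3 8 (.cons 0x9073825614 .nil) (.node 4 8 (.cons 0x2376548901 .nil) (.node 0 8 (.cons 0x9087651234 .nil) (.node 5 8 (.cons 0x9073416582 .nil) .done .done) .done) .done) (.node 3 8 .nil (.node 2 9 (.cons 0x4567329810 (.cons 0x8370925614 (.cons 0x8341290765 .nil))) .done (.node 4 8 (.cons 0x2376548901 .nil) (.node 1 3 (.cons 0x6731452890 .nil) (.node 1 7 (.cons 0x6713254890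 .nil) .done .done) .done) .done)) .done)) .done)) .done)) (.node 0 3 (.cons 0x5678903412 .nil) (.node 3 8 .nil (.node 3 9 (.cons 0x8390765412 .nil) (.node 2 5 (.cons 0x3412567890 (.cons 0x8390765214 .nil)) (.node 0 2 (.cons 0x5678902143 (.cons 0x9837652014 .nil)) (.node 2 9 (.cons 0x4567329810 (.cons 0x6738925410 (.cons 0x6538709214 .nil))) .done .done) .done) .done) .done) (.node 0 2 (.cons 0x5678902143 .nil) (.node 1 6 (.cons 0x5614378902 .nil) (.node 3 8 .nil (.node 6 9 (.cons 0x8734156902 (.cons 0x9654381207 (.cons 0x7834156902 (.cons 0x9654183702 .nil)))) .done (.node 2 8 (.cons 0x4567328901 .nil) (.node 3 9 (.cons 0x8214567093 .nil) .done .done) .done)) .done) (.node 1 7 .nil (.node 0 6 (.cons 0x7890653412 (.cons 0x4356098712 (.cons 0x9817602345 .nil))) .done (.node 1 3 .nil (.node 6 8 (.cons 0x5432176890 (.cons 0x7689021345 (.cons 0x5413768902 .nil))) (.node 2 5 (.cons 0x3412567890 (.cons 0x4523176890 .nil)) (.node 5 7 (.cons 0x9867520341 (.cons 0x2098675431 (.cons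 0x4576890231 .nil))) .done .done) .done) .done) .done)) .done)) .done)) .done)) .done)))
noncomputable def tc9_0_20 : T := (.node 1 4 (.cons 0x8901456732 .nil) tc9_0_19 (.node 1 4 (.cons 0x8901456732 .nil) (.node 2 4 (.cons 0x6510987324 .nil) (.node 4 6 (.cons 0x9873246510 .nil) (.node 4 7 (.cons 0x6512347890 .nil) (.node 2 7 (.cons 0x3465127890 .nil) (.node 1 6 .nil (.node 6 8 (.cons 0x3274516890 (.cons 0x2374516890 .nil)) .done (.node 0 6 (.cons 0x7890651234 .nil) (.node 2 5 (.cons 0x6098743251 .nil) (.node 2 6 (.cons 0x8901547326 .nil) .done .done) .done) .done)) .done) .done) (.node 2 7 (.cons 0x1564327890 .nil) (.node 1 7 (.cons 0x2346517890 .nil) (.node 4 7 (.cons 0x6512347890 .nil) .done .done) (.node 2 5 .nil (.node 0 4 (.cons 0x5678904321 (.cons 0x9810452376 (.cons 0x3409876521 .nil))) (.node 1 7 (.cons 0x2346517890 (.cons 0x6432517890 (.cons 0x6521789043 .nil))) .done .done) (.node 3 5 .nil (.node 2 8 (.cons 0x4567328901 (.cons 0x9014653287 (.cons 0x7645328901 .nil)))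 .done (.node 2 6 .nil (.node 4 9 (.cons 0x4987653210 (.cons 0x7326549810 (.cons 0x7894623510 (.cons 0x3789426510 .nil)))) .done (.node 0 6 (.cons 0x7890651234 .nil) (.node 1 6 .nil (.node 0 4 (.cons 0x5678904321 (.cons 0x9873240165 (.cons 0x9872351640 .nil))) .done .done) .done) .done)) .done)) .done)) .done)) .done)) (.node 1 6 (.cons 0x5610987324 .nil) (.node 1 7 (.cons 0x8901732456 .nil) (.node 1 3 .nil (.node 6 8 (.cons 0x5432176890 (.cons 0x7310986542 .nil)) (.node 1 9 (.cons 0x5687091342 .nil) .done (.node 0 5 (.cons 0x9056873241 (.cons 0x9056873142 (.cons 0x4509867132 .nil))) .done .done)) .done) (.node 1 9 .nil (.node 2 8 (.cons 0x3456712890 (.cons 0x8237654190 .nil)) (.node 6 8 (.cons 0x7324568901 (.cons 0x5687091243 (.cons 0x5432867091 (.cons 0x9186542370 .nil)))) .done .done) (.node 1 3 .nil (.node 0 5 (.cons 0x8905617342 (.cons 0x6509871342 .nil)) (.node 0 6 (.cons 0x5609871243 (.cons 0x5609871342 .nil)) .done .done) .done) .done)) .done)) (.node 1 7 (.cons 0x8901732456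 .nil) (.node 1 9 .nil (.node 4 6 (.cons 0x5642378901 (.cons 0x5642378910 (.cons 0x8709156432 .nil))) .done (.node 1 3 .nil (.node 0 5 (.cons 0x2437890561 (.cons 0x7890561342 .nil)) (.node 4 6 (.cons 0x5642378901 (.cons 0x9873105642 (.cons 0x7890132465 .nil))) .done .done) .done) .done)) .done) .done)) (.node 0 5 (.cons 0x9810542376 .nil) (.node 2 8 (.cons 0x4567328901 .nil) (.node 0 2 (.cons 0x9810237654 .nil) (.node 2 9 (.cons 0x4567329810 .nil) (.node 0 6 (.cons 0x3760542981 .nil) (.node 0 8 (.cons 0x9237654180 .nil) (.node 3 8 (.cons 0x9056783412 .nil) .done .done) .done) .done) .done) (.node 5 8 (.cons 0x6732458901 .nil) (.node 6 8 (.cons 0x5423768901 .nil) (.node 1 6 (.cons 0x6150987342 .nil) (.node 2 7 (.cons 0x6890154273 .nil) (.node 2 5 (.cons 0x9816734250 .nil) (.node 2 6 (.cons 0x6243789051 .nil) .done .done) .done) .done) .done) .done) .done)) (.node 5 9 (.cons 0x6732459810 .nil) (.node 5 8 (.cons 0x6732458901 .nil) (.node 2 8 (.cons 0x3412876590 .nil) (.node 0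 2 (.cons 0x6590287341 .nil) (.node 0 6 (.cons 0x3760189542 .nil) (.node 0 8 (.cons 0x9567341802 .nil) (.node 3 8 (.cons 0x2143876590 .nil) .done .done) .done) .done) .done) .done) (.node 5 8 (.cons 0x6732458901 .nil) (.node 1 6 (.cons 0x3761098542 .nil) (.node 1 3 (.cons 0x6731098542 .nil) (.node 3 8 (.cons 0x4123876590 .nil) (.node 0 3 (.cons 0x8590376142 .nil) (.node 3 9 (.cons 0x6781423950 .nil) .done .done) .done) .done) (.node 0 6 (.cons 0x1895423760 .nil) (.node 0 2 (.cons 0x3761895420 .nil) (.node 5 7 (.cons 0x8906157342 .nil) (.node 0 3 (.cons 0x2459816730 .nil) (.node 0 8 (.cons 0x9803457612 .nil) .done .done) .done) .done) .done) .done)) .done) .done)) .done)) .done))) (.node 4 7 (.cons 0x6512347890 .nil) (.node 2 4 (.cons 0x6510987324 .nil) (.node 4 6 (.cons 0x4651098732 .nil) (.node 0 4 (.cons 0x5678904321 .nil) (.node 4 8 (.cons 0x2376548901 .nil) (.node 4 9 (.cons 0x2376549810 .nil) .done .done) (.node 4 8 (.cons 0x2376548901 .nil) (.node 4 9 (.cons 0x2376549810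 .nil) .done .done) .done)) (.node 1 7 (.cons 0x2346517890 .nil) (.node 1 9 (.cons 0x8709156432 .nil) (.node 5 7 .nil (.node 3 9 (.cons 0x2398746510 (.cons 0x9324657810 (.cons 0x8751093246 .nil))) .done (.node 2 7 (.cons 0x1564327890 .nil) (.node 7 9 (.cons 0x8790156423 .nil) .done .done) .done)) .done) .done) .done)) (.node 1 7 (.cons 0x8901732456 .nil) (.node 0 4 (.cons 0x5678904321 .nil) (.node 4 8 (.cons 0x2376548901 .nil) (.node 4 9 (.cons 0x2376549810 .nil) .done .done) (.node 4 8 (.cons 0x2376548901 .nil) (.node 4 9 (.cons 0x2376549810 .nil) .done .done) .done)) .done) .done)) (.node 1 7 .nil (.node 4 8 (.cons 0x2376548901 (.cons 0x6548901732 .nil)) (.node 0 4 (.cons 0x5678904321 .nil) (.node 4 9 (.cons 0x2376549810 .nil) .done .done) .done) .done) .done)) (.node 4 7 (.cons 0x6512347890 .nil) (.node 4 6 (.cons 0x4651098732 .nil) (.node 1 6 .nil (.node 2 4 (.cons 0x6510987324 (.cons 0x5610987324 (.cons 0x8901673245 .nil))) .done (.node 2 4 (.cons 0x6510987324 .nil) (.node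 1 7 (.cons 0x8901732456 .nil) (.node 1 9 .nil (.node 0 5 (.cons 0x8905432176 (.cons 0x6501987423 .nil)) (.node 0 6 (.cons 0x9874321560 (.cons 0x2347891560 .nil)) .done .done) .done) .done) (.node 2 7 .nil (.node 0 2 (.cons 0x8902734165 (.cons 0x8902734156 .nil)) .done (.node 2 8 (.cons 0x4567328901 .nil) (.node 0 2 (.cons 0x6514378902 .nil) (.node 2 9 (.cons 0x4567329810 .nil) .done .done) .done) .done)) .done)) .done)) (.node 1 7 (.cons 0x2346517890 .nil) (.node 2 7 (.cons 0x1564327890 .nil) (.node 1 9 (.cons 0x8709156432 .nil) (.node 1 3 (.cons 0x4651327890 .nil) (.node 1 6 .nil (.node 0 4 (.cons 0x5678904321 (.cons 0x7890432165 (.cons 0x5164098723 .nil))) .done .done) .done) .done) .done) .done) .done)) (.node 1 7 .nil (.node 0 4 (.cons 0x5678904321 (.cons 0x6517890432 .nil)) (.node 4 8 (.cons 0x2376548901 .nil) (.node 4 9 (.cons 0x2376549810 .nil) .done .done) .done) .done) .done)) .done))) (.node 1 7 .nil (.node 0 5 (.cons 0x6509871234 .nil) (.node 2 4 (.cons 0x3421567890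 (.cons 0x8901732456 (.cons 0x6789051243 .nil))) (.node 1 9 (.cons 0x6501987324 (.cons 0x8910542376 (.cons 0x8910567324 .nil))) .done (.node 3 8 (.cons 0x9051243876 .nil) (.node 2 9 (.cons 0x4567329810 (.cons 0x6512907834 (.cons 0x6732981054 (.cons 0x8376510924 .nil)))) (.node 1 4 (.cons 0x6732981450 .nil) (.node 2 6 (.cons 0x2651437890 (.cons 0x9873265014 (.cons 0x8370926514 .nil))) .done .done) .done) (.node 6 9 (.cons 0x7834215690 (.cons 0x8345690712 (.cons 0x2438715690 (.cons 0x8321709654 .nil)))) (.node 2 8 (.cons 0x4567328901 (.cons 0x9673428150 (.cons 0x4283715690 .nil))) .done .done) .done)) .done)) (.node 0 2 (.cons 0x9810237654 (.cons 0x9817650234 .nil)) (.node 6 9 (.cons 0x7320189654 (.cons 0x7189650234 (.cons 0x7189654320 (.cons 0x4569817320 .nil)))) (.node 3 8 (.cons 0x9654381207 (.cons 0x8345690712 .nil)) (.node 2 6 (.cons 0x7621543890 (.cons 0x9832671054 (.cons 0x9620543817 (.cons 0x4389051762 (.cons 0x4509832671 .nil))))) .done .done) .done) (.node 2 8 (.cons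 0x4567328901 .nil) (.node 0 6 (.cons 0x9815437602 (.cons 0x4371560982 (.cons 0x2890654371 .nil))) .done (.node 1 4 (.cons 0x6541732890 (.cons 0x6714509823 .nil)) (.node 2 9 (.cons 0x4567329810 (.cons 0x8714329056 (.cons 0x4329817650 .nil))) .done .done) .done)) .done)) .done)) (.node 0 5 (.cons 0x8905432176 .nil) (.node 0 2 (.cons 0x9810237654 .nil) (.node 0 3 (.cons 0x4309876512 .nil) (.node 0 6 (.cons 0x9815437602 .nil) (.node 0 4 (.cons 0x5678904321 .nil) (.node 0 8 .nil (.node 2 4 (.cons 0x3421567890 (.cons 0x9803421567 (.cons 0x9087651243 .nil))) (.node 1 4 (.cons 0x8901456732 .nil) (.node 2 8 (.cons 0x9082376541 .nil) .done .done) .done) .done) .done) (.node 0 4 (.cons 0x5678904321 .nil) (.node 0 8 .nil (.node 4 7 (.cons 0x6509874321 (.cons 0x9803476512 .nil)) .done .done) .done) .done)) .done) (.node 0 3 (.cons 0x4309876512 .nil) (.node 3 8 (.cons 0x7651209834 .nil) (.node 3 9 .nil (.node 4 7 (.cons 0x6509874321 (.cons 0x8934765120 (.cons 0x5674398120 .nil))) .done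 (.node 4 7 (.cons 0x6509874321 .nil) (.node 2 7 (.cons 0x8903451276 .nil) (.node 5 7 .nil (.node 4 6 (.cons 0x7890564321 (.cons 0x9012387564 (.cons 0x7564389021 (.cons 0x9815764302 .nil)))) .done .done) .done) (.node 7 9 (.cons 0x6502189743 .nil) (.node 2 7 (.cons 0x6547210983 .nil) (.node 5 7 (.cons 0x6574389021 .nil) .done .done) .done) .done)) .done)) .done) .done) .done)) (.node 5 8 (.cons 0x6712345890 .nil) (.node 3 8 .nil (.node 2 4 (.cons 0x3421567890 (.cons 0x9832450176 (.cons 0x9078342156 (.cons 0x6738901542 .nil)))) (.node 2 6 (.cons 0x9817623450 (.cons 0x9832671054 (.cons 0x4389051762 (.cons 0x4509832671 .nil)))) .done .done) (.node 2 8 (.cons 0x4567328901 .nil) (.node 2 7 (.cons 0x6721543890 .nil) (.node 4 7 .nil (.node 2 9 (.cons 0x4567329810 (.cons 0x6547329810 (.cons 0x6745018923 (.cons 0x1892347650 .nil)))) .done (.node 2 5 (.cons 0x6745210983 .nil) (.node 2 6 (.cons 0x9817623450 .nil) (.node 1 6 (.cons 0x9078561234 .nil) (.node 3 5 (.cons 0x6217435890 .nil)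 (.node 3 6 (.cons 0x4509823671 .nil) .done .done) .done) .done) .done) .done)) .done) .done) .done)) (.node 2 8 (.cons 0x4567328901 .nil) (.node 5 9 .nil (.node 0 2 (.cons 0x9810237654 (.cons 0x6732018954 (.cons 0x6718950234 .nil))) .done (.node 3 8 .nil (.node 0 6 (.cons 0x9817605432 (.cons 0x5438906712 .nil)) (.node 4 9 (.cons 0x2376549810 (.cons 0x6709458321 (.cons 0x7065943812 (.cons 0x9456701832 .nil)))) .done .done) (.node 1 9 (.cons 0x6709123854 .nil) (.node 3 9 (.cons 0x6512870934 .nil) .done .done) .done)) .done)) (.node 3 8 .nil (.node 2 4 (.cons 0x3421567890 (.cons 0x9832450176 (.cons 0x9015428376 (.cons 0x9078342156 .nil)))) .done (.node 0 6 (.cons 0x2890673451 .nil) (.node 0 2 (.cons 0x9810237654 .nil) (.node 1 6 (.cons 0x6173209854 .nil) (.node 3 6 (.cons 0x7634512890 .nil) (.node 2 6 (.cons 0x9817623450 .nil) (.node 0 8 (.cons 0x9802637154 .nil) (.node 0 3 (.cons 0x4309876512 .nil) (.node 0 4 (.cons 0x5678904321 .nil) .done .done) .done) .done) .done) .done)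 .done) (.node 5 7 (.cons 0x3457609821 .nil) (.node 6 8 (.cons 0x5432176890 .nil) (.node 0 8 .nil (.node 4 6 (.cons 0x3217645890 (.cons 0x9085467123 .nil)) (.node 2 9 (.cons 0x4567329810 (.cons 0x6089217543 (.cons 0x5089234671 (.cons 0x3298054671 .nil)))) .done .done) .done) .done) .done) .done)) .done)) .done)) .done)) .done)) .done)) .done)))
noncomputable def uc9_0_2 : T := (.node 1 5 (.cons 0x4321567890 .nil) tc9_0_20 (.node 1 5 (.cons 0x4321567890 .nil) (.node 1 4 (.cons 0x8901456732 .nil) tc9_0_18 (.node 1 4 (.cons 0x8901456732 .nil) tc9_0_17 (.node 2 8 (.cons 0x4567328901 .nil) tc9_0_16 .done))) (.node 2 8 (.cons 0x4567328901 .nil) tc9_0_15 (.node 1 5 (.cons 0x4321567890 .nil) tc9_0_13 .done))))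
theorem sub_c9_0_2 : root 9 refs9_0 [] 0x700000008704000000004060020070060500000000504000000004010000020010300000000302000000002018070000010 0xfe7fff6fff2bff9fffcfffedfff1fff3fff9fe7d 9 1 8 (.cons 0x7654321890 .nil) uc9_0_2 = true := by decide +kernel
noncomputable def tc9_0_21 : T := (.node 3 8 (.cons 0x4567109832 .nil) (.node 0 8 (.cons 0x9083456721 .nil) (.node 1 6 (.cons 0x9807165432 (.cons 0x7908321654 (.cons 0x4561279083 .nil))) (.node 3 6 (.cons 0x4563217980 (.cons 0x8097123654 .nil)) (.node 4 7 (.cons 0x9801745632 (.cons 0x9083472165 .nil)) .done .done) .done) (.node 1 5 (.cons 0x6790832154 (.cons 0x9083451276 .nil)) (.node 6 9 (.cons 0x9672154380 (.cons 0x2345176980 .nil)) (.node 4 8 (.cons 0x5489673210 (.cons 0x6984510732 (.cons 0x9012765483 (.cons 0x2376984510 .nil)))) .done (.node 0 5 (.cons 0x7698051234 (.cons 0x6509871234 (.cons 0x9672150834 .nil))) (.node 1 4 (.cons 0x8321456790 (.cons 0x6509783214 (.cons 0x8321450976 (.cons 0x9056783412 .nil)))) .done .done)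 .done)) (.node 4 6 (.cons 0x8901237645 (.cons 0x4651238790 (.cons 0x5467389012 (.cons 0x2346517890 .nil)))) (.node 5 9 (.cons 0x8954673210 (.cons 0x9546721083 (.cons 0x9546723801 .nil))) .done .done) .done)) .done)) (.node 0 5 (.cons 0x6509871234 .nil) (.node 4 9 (.cons 0x7654983210 (.cons 0x6738945012 (.cons 0x2389456710 .nil))) (.node 6 8 (.cons 0x9456832701 (.cons 0x3490568721 (.cons 0x9456832710 (.cons 0x4509867321 .nil)))) .done (.node 1 6 (.cons 0x8321679450 (.cons 0x8905437612 .nil)) (.node 0 8 (.cons 0x9807165432 (.cons 0x4508976123 (.cons 0x9805437612 .nil))) .done (.node 2 5 (.cons 0x8943250761 (.cons 0x8907165234 (.cons 0x4983250761 .nil))) .done .done)) .done)) (.node 4 9 (.cons 0x7654983210 (.cons 0x8712349056 (.cons 0x2389456710 .nil))) (.node 0 4 (.cons 0x1238976540 .nil) (.node 6 9 (.cons 0x4056978321 (.cons 0x8321796504 (.cons 0x9650438712 (.cons 0x7104569832 .nil)))) .done (.node 2 9 (.cons 0x7654012983 (.cons 0x9217834056 (.cons 0x5671298340 .nil))) .done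 .done)) (.node 2 9 (.cons 0x1294387650 (.cons 0x8349217650 .nil)) (.node 6 8 (.cons 0x3865492701 (.cons 0x3865492710 (.cons 0x6837129450 .nil))) (.node 1 9 (.cons 0x6834507192 (.cons 0x4386507192 .nil)) .done .done) (.node 0 6 (.cons 0x5067834921 (.cons 0x8349217605 (.cons 0x5438921760 .nil))) .done .done)) .done)) (.node 2 9 (.cons 0x6738921054 (.cons 0x6712983450 (.cons 0x4389217650 .nil))) (.node 2 8 (.cons 0x6734509821 (.cons 0x6712890543 .nil)) (.node 2 6 (.cons 0x8905437621 (.cons 0x4389265071 .nil)) (.node 0 4 (.cons 0x1238976540 (.cons 0x9217834056 (.cons 0x9871265043 .nil))) (.node 0 8 (.cons 0x9805437621 (.cons 0x9805437126 .nil)) .done .done) .done) .done) .done) .done))) (.node 4 7 (.cons 0x6547109832 .nil) (.node 0 6 (.cons 0x1238974560 (.cons 0x8321790654 .nil)) (.node 5 7 (.cons 0x4389065712 .nil) .done (.node 6 9 (.cons 0x7456983210 (.cons 0x2389654710 .nil)) (.node 2 4 (.cons 0x5698324701 (.cons 0x5609871243 .nil)) (.node 0 2 (.cons 0x3897456021 (.cons 0x9834712065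 .nil)) (.node 0 4 (.cons 0x5678904321 (.cons 0x8321790456 .nil)) .done .done) .done) .done) .done)) (.node 2 6 (.cons 0x7456210983 (.cons 0x5621743890 (.cons 0x4562389071 .nil))) (.node 0 3 (.cons 0x1265479830 .nil) (.node 6 8 (.cons 0x9012745683 (.cons 0x4568309712 (.cons 0x9017238654 (.cons 0x9038654712 .nil)))) .done (.node 2 5 (.cons 0x8903476521 (.cons 0x8903471256 .nil)) (.node 0 6 (.cons 0x6098374521 (.cons 0x8321790654 (.cons 0x6098371254 .nil))) .done .done) .done)) .done) .done)) .done))) (.node 4 7 .nil (.node 1 5 (.cons 0x4321567890 (.cons 0x6512347890 .nil)) (.node 0 8 (.cons 0x9087651234 (.cons 0x9087432156 .nil)) (.node 0 5 (.cons 0x9805432176 (.cons 0x6509874321 .nil)) (.node 1 3 (.cons 0x6509874312 (.cons 0x8905674312 .nil)) (.node 2 8 (.cons 0x6734509821 (.cons 0x9823107654 (.cons 0x4567098231 .nil))) (.node 1 8 (.cons 0x9072813456 .nil) .done .done) .done) .done) (.node 0 5 (.cons 0x6509874321 .nil) (.node 2 9 (.cons 0x3456712980 (.cons 0x6512908743 (.cons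 0x6712980543 (.cons 0x8092156743 .nil)))) .done .done) .done)) (.node 5 7 .nil (.node 1 8 (.cons 0x7654321890 (.cons 0x6754321890 (.cons 0x6574321890 .nil))) .done .done) .done)) (.node 5 7 .nil (.node 1 8 (.cons 0x7654321890 (.cons 0x6754321890 .nil)) (.node 0 6 (.cons 0x9817065432 (.cons 0x9065781234 (.cons 0x3475609812 .nil))) (.node 0 4 (.cons 0x5678904321 (.cons 0x9043218756 (.cons 0x6578904321 .nil))) (.node 3 8 (.cons 0x4560972183 (.cons 0x9832104576 .nil)) (.node 1 4 (.cons 0x6541832790 .nil) (.node 0 8 (.cons 0x2380976541 .nil) .done .done) .done) .done) .done) (.node 0 8 (.cons 0x9081276543 .nil) (.node 4 6 (.cons 0x8901237645 (.cons 0x9801237546 (.cons 0x9087564321 .nil))) (.node 2 9 (.cons 0x6543298071 (.cons 0x6457108923 (.cons 0x1756432980 .nil))) (.node 0 3 (.cons 0x5643092781 (.cons 0x2903465781 (.cons 0x2981756430 .nil))) .done .done) .done) (.node 0 4 (.cons 0x5678904321 (.cons 0x6578904321 .nil)) (.node 0 3 (.cons 0x7654309812 .nil) (.node 2 6 (.cons 0x5437621890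 (.cons 0x8903475621 (.cons 0x6218903754 .nil))) (.node 3 9 (.cons 0x8127654390 (.cons 0x8126579304 (.cons 0x4576239801 .nil))) .done .done) (.node 0 6 (.cons 0x5437609812 .nil) (.node 3 9 (.cons 0x8127654390 (.cons 0x6089345712 .nil)) (.node 0 2 (.cons 0x8932017654 .nil) (.node 0 5 (.cons 0x6734509812 .nil) .done .done) .done) .done) .done)) .done) .done)) .done)) .done) .done)) (.node 4 7 .nil (.node 1 5 (.cons 0x4321567890 (.cons 0x6512347890 .nil)) (.node 5 7 .nil (.node 1 8 (.cons 0x7654321890 (.cons 0x6754321890 (.cons 0x6574321890 .nil))) .done .done) (.node 0 8 (.cons 0x9087651234 (.cons 0x9087432156 .nil)) (.node 1 8 (.cons 0x7654321890 .nil) (.node 0 2 (.cons 0x8902176543 .nil) (.node 6 8 (.cons 0x7120986543 (.cons 0x9021568743 (.cons 0x9023478651 (.cons 0x9086745123 .nil)))) .done (.node 3 5 (.cons 0x8902176534 (.cons 0x9801235476 (.cons 0x6532109874 (.cons 0x9810235674 .nil)))) .done .done)) (.node 2 6 (.cons 0x9078156234 (.cons 0x9810745623 (.cons 0x5623470981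 (.cons 0x3265470981 .nil)))) .done .done)) (.node 0 5 (.cons 0x6509874321 .nil) (.node 2 9 (.cons 0x8092154376 (.cons 0x6512908743 (.cons 0x8092156743 .nil))) (.node 6 8 (.cons 0x8670923451 (.cons 0x9867321054 (.cons 0x8674510923 (.cons 0x4509867321 .nil)))) .done .done) .done) .done)) .done)) (.node 5 7 .nil (.node 1 8 (.cons 0x7654321890 (.cons 0x6754321890 .nil)) (.node 2 4 (.cons 0x9810765423 .nil) (.node 3 8 (.cons 0x2176543890 .nil) (.node 4 6 (.cons 0x8901237645 (.cons 0x9012387564 (.cons 0x6457389012 (.cons 0x3246578901 .nil)))) .done (.node 1 4 (.cons 0x7654109832 (.cons 0x9014238756 (.cons 0x6754109832 .nil))) .done .done)) (.node 3 8 (.cons 0x2176543890 (.cons 0x6754238901 .nil)) (.node 0 2 (.cons 0x8902176543 (.cons 0x6571209834 .nil)) (.node 4 6 (.cons 0x8901237645 (.cons 0x9012387564 (.cons 0x3465789021 (.cons 0x9810237546 .nil)))) .done .done) .done) .done)) (.node 0 6 (.cons 0x3218974560 (.cons 0x9065781234 (.cons 0x9812347560 .nil))) (.node 0 4 (.cons 0x5678904321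 (.cons 0x9043218756 (.cons 0x6578904321 .nil))) (.node 3 8 (.cons 0x2176543890 (.cons 0x9832104576 .nil)) (.node 1 9 (.cons 0x8190723456 (.cons 0x6091834572 (.cons 0x4381906572 .nil))) .done .done) .done) .done) .done)) .done) .done)) .done)))
noncomputable def tc9_0_22 : T := (.node 3 8 (.cons 0x4567109832 .nil) (.node 2 8 (.cons 0x6543289071 .nil) (.node 0 8 (.cons 0x4567908321 .nil) (.node 4 6 (.cons 0x8901237645 (.cons 0x9087123465 (.cons 0x5467389012 (.cons 0x5467109823 .nil)))) (.node 0 5 (.cons 0x6450897321 (.cons 0x9837645012 .nil)) (.node 1 4 (.cons 0x8321456790 (.cons 0x9783214650 (.cons 0x8321450976 (.cons 0x9056783412 .nil)))) .done .done) .done) (.node 0 5 (.cons 0x6509871234 .nil) (.node 6 8 (.cons 0x9867321054 (.cons 0x4509867321 .nil)) (.node 2 4 (.cons 0x5423768901 (.cons 0x3809765421 (.cons 0x7109865423 .nil))) .done .done) (.node 1 4 (.cons 0x8321456790 (.cons 0x6509783214 (.cons 0x8321450976 (.cons 0x9056783412 .nil)))) (.node 0 4 (.cons 0x5678904321 (.cons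 0x9783214056 .nil)) (.node 4 9 (.cons 0x8765094321 (.cons 0x6549832701 (.cons 0x3894567210 (.cons 0x9410567832 .nil)))) .done .done) .done) .done)) .done)) (.node 0 5 (.cons 0x6509871234 .nil) (.node 6 8 (.cons 0x9867321054 .nil) (.node 0 8 (.cons 0x4567908321 .nil) (.node 1 6 (.cons 0x9807165432 (.cons 0x7908321654 .nil)) (.node 3 6 (.cons 0x4563217980 (.cons 0x8097123654 (.cons 0x9801723654 .nil))) .done .done) (.node 2 5 (.cons 0x9086712543 .nil) (.node 1 6 (.cons 0x4508976123 (.cons 0x4521683790 (.cons 0x8907165234 .nil))) .done .done) .done)) (.node 2 5 (.cons 0x6890173254 .nil) (.node 4 8 (.cons 0x9845012376 (.cons 0x9017325486 (.cons 0x9017684523 (.cons 0x9012548376 .nil)))) .done .done) .done)) (.node 1 4 (.cons 0x8321456790 (.cons 0x6541709823 (.cons 0x8321450976 (.cons 0x9056783412 .nil)))) (.node 4 9 (.cons 0x8765094321 (.cons 0x6549832701 (.cons 0x3894567210 (.cons 0x9410567832 .nil)))) (.node 0 3 (.cons 0x9823071456 .nil) (.node 0 4 (.cons 0x5678904321 (.cons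 0x9783214056 (.cons 0x5679830412 .nil))) .done .done) .done) .done) (.node 4 6 (.cons 0x3764509821 (.cons 0x9837645012 (.cons 0x9054673821 (.cons 0x5467389012 .nil)))) (.node 4 9 (.cons 0x6549832701 (.cons 0x6721054983 (.cons 0x3894567210 .nil))) (.node 1 3 (.cons 0x6731289450 (.cons 0x8765094312 (.cons 0x5649872310 (.cons 0x8943127650 .nil)))) .done .done) .done) .done))) .done)) (.node 0 5 (.cons 0x6509871234 .nil) (.node 4 9 (.cons 0x7654983210 (.cons 0x6738945012 (.cons 0x2389456710 .nil))) (.node 1 6 (.cons 0x7894321650 (.cons 0x4978321650 (.cons 0x8943270561 (.cons 0x3498721650 .nil)))) .done (.node 1 6 (.cons 0x8321679450 (.cons 0x8905437612 .nil)) (.node 0 8 (.cons 0x9807165432 (.cons 0x4508976123 (.cons 0x9805437612 .nil))) .done (.node 0 4 (.cons 0x8321679405 (.cons 0x7983216504 .nil)) (.node 2 9 (.cons 0x7654012983 (.cons 0x5617043892 (.cons 0x5671298340 .nil))) .done .done) .done)) .done)) (.node 4 9 (.cons 0x7654983210 (.cons 0x8712349056 (.cons 0x2389456710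 .nil))) (.node 5 7 (.cons 0x6754983210 .nil) (.node 0 4 (.cons 0x1238976540 .nil) (.node 6 9 (.cons 0x4056978321 (.cons 0x2175698340 (.cons 0x9650438712 (.cons 0x7104569832 .nil)))) .done (.node 2 9 (.cons 0x7654012983 (.cons 0x9217834056 (.cons 0x5671298340 .nil))) .done .done)) .done) (.node 2 9 (.cons 0x1294387650 (.cons 0x8349217650 .nil)) (.node 0 6 (.cons 0x5498376012 (.cons 0x7129834560 .nil)) (.node 5 7 (.cons 0x4389217560 .nil) .done .done) (.node 0 6 (.cons 0x5067834921 (.cons 0x8349217605 (.cons 0x5438921760 .nil))) .done .done)) .done)) (.node 2 9 (.cons 0x6738921054 (.cons 0x6712983450 (.cons 0x4389217650 .nil))) (.node 2 8 (.cons 0x6734509821 (.cons 0x6712890543 .nil)) (.node 2 6 (.cons 0x8905437621 (.cons 0x4389265071 .nil)) (.node 1 6 (.cons 0x8923456170 (.cons 0x2983456170 .nil)) (.node 1 9 (.cons 0x8345071926 (.cons 0x8345629170 .nil)) .done .done) .done) .done) .done) .done))) (.node 4 7 (.cons 0x6547109832 .nil) (.node 5 7 .nil (.node 0 6 (.cons 0x8321790654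 (.cons 0x4389065712 (.cons 0x8906754321 .nil))) .done (.node 2 6 (.cons 0x6210983754 (.cons 0x4562389071 .nil)) (.node 0 8 (.cons 0x6547908321 (.cons 0x9083457126 (.cons 0x4562179083 .nil))) .done (.node 6 9 (.cons 0x4569832701 (.cons 0x4569832710 .nil)) (.node 0 5 (.cons 0x6983721054 (.cons 0x6509871234 .nil)) (.node 2 8 (.cons 0x7456901283 (.cons 0x8217690543 (.cons 0x3821745690 .nil))) .done .done) .done) .done)) .done)) (.node 2 6 (.cons 0x7456210983 (.cons 0x5621743890 (.cons 0x4562389071 .nil))) (.node 0 8 (.cons 0x3809745621 (.cons 0x4562179083 .nil)) (.node 3 9 (.cons 0x5621093874 (.cons 0x8390174562 .nil)) (.node 6 9 (.cons 0x3896547210 (.cons 0x7126908345 (.cons 0x4569832710 .nil))) .done .done) .done) .done) .done)) .done))) (.node 4 7 .nil (.node 1 5 (.cons 0x4321567890 (.cons 0x6512347890 .nil)) (.node 5 7 .nil (.node 1 8 (.cons 0x7654321890 (.cons 0x6754321890 (.cons 0x6574321890 .nil))) (.node 0 3 (.cons 0x9812765430 (.cons 0x6574309812 .nil)) (.node 2 9 (.cons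 0x5678129034 (.cons 0x8129034756 (.cons 0x8129034576 .nil))) .done .done) .done) (.node 0 5 (.cons 0x6509874321 .nil) (.node 1 8 (.cons 0x7654321890 (.cons 0x6734509812 .nil)) (.node 1 6 (.cons 0x9816543270 (.cons 0x5618907432 (.cons 0x8905437612 .nil))) .done (.node 1 6 (.cons 0x8905437612 .nil) (.node 0 8 (.cons 0x9807234561 .nil) (.node 2 9 (.cons 0x6734512980 (.cons 0x6154370892 (.cons 0x8923451670 (.cons 0x3476512980 .nil)))) .done .done) (.node 5 9 (.cons 0x6189507234 (.cons 0x4327618950 .nil)) .done .done)) .done)) (.node 3 5 (.cons 0x6532109874 .nil) (.node 1 4 (.cons 0x2143567890 .nil) (.node 0 6 (.cons 0x9870651432 (.cons 0x9872143560 .nil)) (.node 0 8 (.cons 0x9806572143 (.cons 0x4798065123 (.cons 0x9806743215 (.cons 0x4127980653 .nil)))) .done .done) (.node 6 8 (.cons 0x8679054123 (.cons 0x9867014532 (.cons 0x4537689012 (.cons 0x9867235410 .nil)))) (.node 0 3 (.cons 0x7456890321 .nil) (.node 0 4 (.cons 0x8974032156 (.cons 0x9867214035 .nil)) .done .done) .done)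 .done)) (.node 2 4 (.cons 0x6532478901 .nil) (.node 1 8 (.cons 0x7654321890 (.cons 0x9018742356 .nil)) (.node 5 9 (.cons 0x6781095324 .nil) (.node 0 6 (.cons 0x6072345981 (.cons 0x6018953274 .nil)) (.node 0 3 (.cons 0x4306598721 (.cons 0x9874306512 (.cons 0x8956034721 .nil))) .done .done) .done) (.node 3 9 (.cons 0x5678124390 (.cons 0x6509347812 (.cons 0x8109356742 .nil))) .done .done)) (.node 0 6 (.cons 0x9876015324 .nil) (.node 0 4 (.cons 0x8974065123 .nil) (.node 0 8 (.cons 0x9806751243 (.cons 0x6089742351 (.cons 0x9806743215 .nil))) .done .done) (.node 2 9 (.cons 0x8921543760 (.cons 0x3478921560 (.cons 0x8924760153 .nil))) .done .done)) .done)) .done)) .done)) .done)) (.node 5 7 .nil (.node 1 8 (.cons 0x7654321890 (.cons 0x6754321890 (.cons 0x6574321890 .nil))) (.node 1 6 (.cons 0x5612347890 (.cons 0x4321657890 .nil)) (.node 0 3 (.cons 0x4567981230 (.cons 0x6547981230 (.cons 0x8903476512 .nil))) (.node 0 5 (.cons 0x6509874321 (.cons 0x8905761234 .nil)) .done .done) .done)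 .done) .done) .done)) (.node 5 7 .nil (.node 0 4 (.cons 0x5678904321 (.cons 0x6578904321 .nil)) (.node 1 8 (.cons 0x7654321890 (.cons 0x9043218756 (.cons 0x6754321890 .nil))) (.node 0 3 (.cons 0x4567981230 .nil) (.node 1 6 (.cons 0x4561897032 (.cons 0x8903475612 (.cons 0x4309875612 .nil))) .done (.node 0 2 (.cons 0x9812034765 (.cons 0x9812034756 .nil)) (.node 0 6 (.cons 0x9812067543 .nil) (.node 1 5 (.cons 0x3478906512 (.cons 0x8906734512 .nil)) .done .done) .done) .done)) (.node 0 6 (.cons 0x5437609812 .nil) (.node 0 3 (.cons 0x9812765430 (.cons 0x9812756034 .nil)) .done (.node 0 5 (.cons 0x6734509812 .nil) (.node 1 5 (.cons 0x4321567890 .nil) (.node 1 6 (.cons 0x3478905612 .nil) (.node 0 8 (.cons 0x9806734512 .nil) (.node 6 9 (.cons 0x6981273450 (.cons 0x4327508961 .nil)) .done .done) .done) .done) .done) .done)) .done)) (.node 3 8 (.cons 0x9832104576 .nil) (.node 5 9 (.cons 0x6721045983 (.cons 0x6723895401 .nil)) (.node 0 3 (.cons 0x9830127456 (.cons 0x6598301274 .nil))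 (.node 2 6 (.cons 0x8743095621 (.cons 0x8374590126 (.cons 0x8347126590 (.cons 0x4783095621 .nil)))) .done .done) .done) (.node 1 6 (.cons 0x9832701654 (.cons 0x6123897540 (.cons 0x2165743890 .nil))) (.node 6 9 (.cons 0x3896547210 (.cons 0x5721698340 (.cons 0x6983275401 .nil))) .done .done) (.node 1 4 (.cons 0x9832765410 .nil) (.node 4 8 (.cons 0x9017654832 .nil) (.node 0 6 (.cons 0x2384560971 (.cons 0x9065784321 (.cons 0x3214897560 .nil))) (.node 0 8 (.cons 0x3214567980 .nil) .done .done) .done) (.node 2 4 (.cons 0x7654238901 (.cons 0x9014238756 .nil)) .done .done)) .done))) .done)) .done) .done)) (.node 4 7 .nil (.node 1 5 (.cons 0x4321567890 (.cons 0x6512347890 .nil)) (.node 5 7 .nil (.node 1 8 (.cons 0x7654321890 (.cons 0x6754321890 (.cons 0x6574321890 .nil))) .done (.node 1 8 (.cons 0x7654321890 .nil) (.node 6 9 (.cons 0x1896543270 (.cons 0x8123475690 (.cons 0x3274569810 .nil))) (.node 0 3 (.cons 0x7218965430 (.cons 0x5690347812 (.cons 0x2156987430 (.cons 0x5698127430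 .nil)))) .done .done) (.node 0 8 (.cons 0x9081234576 .nil) (.node 1 9 (.cons 0x6543270891 (.cons 0x6519807432 .nil)) (.node 3 8 (.cons 0x2176543890 (.cons 0x6547019832 (.cons 0x6547238910 .nil))) .done .done) (.node 0 5 (.cons 0x6509874321 .nil) (.node 3 9 (.cons 0x1276543980 (.cons 0x6547210893 (.cons 0x2156743980 (.cons 0x6723981054 .nil)))) .done .done) .done)) .done)) .done)) (.node 5 7 .nil (.node 1 8 (.cons 0x7654321890 (.cons 0x6754321890 (.cons 0x6574321890 .nil))) (.node 1 6 (.cons 0x5612347890 (.cons 0x4321657890 .nil)) (.node 3 8 (.cons 0x2176543890 (.cons 0x4756109832 .nil)) .done .done) .done) .done) .done)) (.node 5 7 .nil (.node 1 8 (.cons 0x7654321890 (.cons 0x6754321890 .nil)) (.node 2 4 (.cons 0x9810765423 .nil) (.node 3 8 (.cons 0x2176543890 .nil) (.node 0 3 (.cons 0x4567981230 (.cons 0x8903421756 .nil)) (.node 6 9 (.cons 0x4569832701 (.cons 0x8321096574 (.cons 0x9657812430 (.cons 0x9657810324 .nil)))) .done .done) (.node 1 4 (.cons 0x9832765410 (.cons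 0x6754109832 .nil)) .done .done)) (.node 3 8 (.cons 0x2176543890 (.cons 0x6754238901 .nil)) (.node 6 9 (.cons 0x4569832701 (.cons 0x8321096574 (.cons 0x3245769810 .nil))) (.node 0 3 (.cons 0x4567981230 (.cons 0x6975421830 (.cons 0x5769812430 .nil))) .done .done) .done) .done)) (.node 6 9 (.cons 0x1896543270 (.cons 0x8123475690 .nil)) (.node 0 6 (.cons 0x5437218960 (.cons 0x9065781234 (.cons 0x7560981234 .nil))) .done (.node 0 4 (.cons 0x5678904321 (.cons 0x6578904321 (.cons 0x6981045723 .nil))) (.node 2 6 (.cons 0x5401896273 (.cons 0x8109623754 (.cons 0x4326570981 (.cons 0x6218904573 .nil)))) .done .done) .done)) .done)) .done) .done)) .done)))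
noncomputable def tc9_0_23 : T := (.node 1 5 (.cons 0x4321567890 (.cons 0x6512347890 .nil)) (.node 5 7 .nil (.node 1 8 (.cons 0x7654321890 (.cons 0x6754321890 (.cons 0x6574321890 .nil))) (.node 0 3 (.cons 0x7654309812 (.cons 0x6574309812 .nil)) (.node 0 5 (.cons 0x6734509812 (.cons 0x6509874321 .nil)) (.node 0 6 (.cons 0x5437609812 (.cons 0x8906574321 .nil)) .done .done) .done) .done) (.node 2 7 .nil (.node 1 8 (.cons 0x7654321890 (.cons 0x6543270981 (.cons 0x3456721890 .nil))) (.node 0 5 (.cons 0x6509874321 (.cons 0x6721890543 .nil)) (.node 3 8 (.cons 0x6790543812 (.cons 0x6547238901 .nil)) (.node 0 3 (.cons 0x4567983012 (.cons 0x6547983012 .nil)) (.node 0 8 (.cons 0x4308976512 (.cons 0x9803472156 .nil)) .done .done) .done) .done) .done) (.node 1 6 (.cons 0x5612347890 .nil) (.node 5 8 (.cons 0x6732109854 (.cons 0x2167345890 (.cons 0x4589016732 .nil))) (.node 0 4 (.cons 0x3409785612 (.cons 0x4098756123 (.cons 0x8904576123 .nil))) (.node 2 5 (.cons 0x3409876521 (.cons 0x9043785216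 .nil)) .done .done) .done) (.node 5 8 (.cons 0x6732109854 (.cons 0x7432165890 .nil)) (.node 2 5 (.cons 0x4376125890 (.cons 0x8907432561 .nil)) (.node 0 2 (.cons 0x6734589021 (.cons 0x5890216743 (.cons 0x3476589021 .nil))) (.node 0 8 (.cons 0x9085216734 (.cons 0x9085216743 .nil)) .done .done) .done) (.node 2 4 (.cons 0x5890167423 .nil) (.node 1 3 (.cons 0x9013247856 .nil) (.node 0 4 (.cons 0x2798561340 (.cons 0x4098576132 (.cons 0x5678904312 .nil))) .done .done) (.node 3 8 (.cons 0x2438561790 (.cons 0x9832470165 (.cons 0x4756123890 .nil))) .done .done)) .done)) (.node 1 8 (.cons 0x7654321890 .nil) (.node 0 6 (.cons 0x6098123754 (.cons 0x9815607432 .nil)) (.node 2 6 (.cons 0x5437098162 (.cons 0x9815623470 (.cons 0x3265470981 .nil))) .done .done) (.node 0 6 (.cons 0x4576098123 .nil) (.node 0 5 (.cons 0x8905437612 (.cons 0x6509874321 .nil)) (.node 1 3 (.cons 0x6509874312 (.cons 0x8905674312 .nil)) (.node 2 8 (.cons 0x5437612890 (.cons 0x5609782134 (.cons 0x4567098231 .nil)))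 .done .done) .done) (.node 1 4 (.cons 0x8906574123 .nil) .done .done)) .done)) .done))) .done)) .done)) (.node 0 3 (.cons 0x4309876512 (.cons 0x8903476512 .nil)) (.node 0 5 (.cons 0x6509874321 .nil) (.node 0 2 (.cons 0x6512098743 (.cons 0x8902156743 .nil)) (.node 1 8 (.cons 0x7654321890 (.cons 0x6798120543 .nil)) (.node 1 6 (.cons 0x7098165432 (.cons 0x8976120543 (.cons 0x5618907432 .nil))) .done (.node 2 6 (.cons 0x5432670981 (.cons 0x8126790543 (.cons 0x8905126734 .nil))) (.node 4 9 (.cons 0x8794305621 (.cons 0x3498762150 (.cons 0x3498762051 .nil))) .done (.node 3 8 (.cons 0x4512673890 (.cons 0x6798345021 (.cons 0x6215473890 (.cons 0x3890267451 .nil)))) .done .done)) .done)) .done) .done) (.node 3 8 (.cons 0x6547983012 .nil) (.node 0 2 (.cons 0x8902154376 (.cons 0x8345679021 (.cons 0x8902156743 .nil))) (.node 0 8 (.cons 0x9083456712 .nil) .done .done) (.node 6 8 (.cons 0x2154376890 (.cons 0x7456890321 .nil)) (.node 0 5 (.cons 0x9867321054 .nil) (.node 1 9 (.cons 0x4305687912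 (.cons 0x9123478650 (.cons 0x9105476832 (.cons 0x8650347912 .nil)))) .done .done) (.node 2 7 (.cons 0x9865472103 (.cons 0x3098654721 .nil)) .done .done)) .done)) .done)) .done)) (.node 2 7 .nil (.node 1 8 (.cons 0x7654321890 (.cons 0x6543270981 (.cons 0x3456721890 .nil))) (.node 3 8 (.cons 0x4567238901 .nil) (.node 0 8 (.cons 0x6543809712 (.cons 0x9083456712 .nil)) (.node 2 8 (.cons 0x6543821790 .nil) (.node 0 3 (.cons 0x4567903821 (.cons 0x6547983012 .nil)) (.node 0 2 (.cons 0x9765438120 .nil) (.node 4 6 (.cons 0x8901237645 (.cons 0x5643879021 (.cons 0x5467389012 (.cons 0x5643027981 .nil)))) .done .done) .done) .done) .done) (.node 3 9 (.cons 0x4567018932 (.cons 0x4567239810 .nil)) (.node 0 3 (.cons 0x2189765430 .nil) (.node 6 9 (.cons 0x7456983210 (.cons 0x8327109654 (.cons 0x4569721830 .nil))) .done .done) .done) .done)) (.node 5 7 (.cons 0x6754321890 .nil) (.node 4 8 (.cons 0x7654890123 (.cons 0x3276548901 .nil)) (.node 3 6 (.cons 0x4576321890 (.cons 0x3654897210 (.cons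 0x7236548901 .nil))) (.node 0 8 (.cons 0x5436790812 (.cons 0x9081276345 .nil)) .done (.node 1 4 (.cons 0x7563214890 (.cons 0x3657214890 .nil)) .done .done)) (.node 1 4 (.cons 0x8901456723 .nil) (.node 6 8 (.cons 0x5410986732 (.cons 0x5412376890 .nil)) (.node 0 8 (.cons 0x3456809712 .nil) .done (.node 5 9 (.cons 0x4598673210 (.cons 0x6895410732 (.cons 0x2376895410 .nil))) .done .done)) (.node 4 6 (.cons 0x3214657890 (.cons 0x5641098723 .nil)) (.node 0 6 (.cons 0x4576098123 (.cons 0x5609872143 .nil)) (.node 3 5 (.cons 0x6735489012 (.cons 0x8972143560 (.cons 0x9067218435 (.cons 0x9847210653 (.cons 0x6532789014 .nil))))) .done .done) .done) .done)) .done)) .done) .done)) (.node 5 7 .nil (.node 1 8 (.cons 0x7654321890 (.cons 0x6754321890 .nil)) (.node 1 5 (.cons 0x4321567890 .nil) (.node 1 3 .nil (.node 4 8 (.cons 0x7654890123 (.cons 0x6754890132 (.cons 0x6548907231 (.cons 0x3127654890 .nil)))) .done (.node 4 8 (.cons 0x7654890123 (.cons 0x6548907231 (.cons 0x6754890123 (.cons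 0x3127654890 (.cons 0x1327654890 .nil))))) .done (.node 1 6 (.cons 0x4321657890 .nil) (.node 2 8 (.cons 0x7098234561 (.cons 0x5432890761 .nil)) (.node 0 3 (.cons 0x2189765430 (.cons 0x6512879034 (.cons 0x6547982103 .nil))) .done .done) (.node 2 8 (.cons 0x5437612890 (.cons 0x4316570982 (.cons 0x3457612890 .nil))) .done .done)) .done))) (.node 1 6 (.cons 0x4321657890 .nil) (.node 2 8 (.cons 0x6734512890 (.cons 0x7098234561 (.cons 0x5432890761 .nil))) .done (.node 2 8 (.cons 0x6734512890 (.cons 0x4328907561 .nil)) (.node 0 4 (.cons 0x5678904321 (.cons 0x6578904321 (.cons 0x8904321675 (.cons 0x5761289043 .nil)))) (.node 0 6 (.cons 0x8906734512 (.cons 0x3457609821 .nil)) .done .done) .done) .done)) .done)) (.node 0 6 (.cons 0x9065781234 (.cons 0x9812347560 .nil)) (.node 2 6 (.cons 0x5437981260 (.cons 0x8126097345 (.cons 0x4326570981 .nil))) .done (.node 2 8 (.cons 0x5437609821 (.cons 0x3457609821 .nil)) (.node 2 6 (.cons 0x9810745623 (.cons 0x4326570981 .nil)) (.node 0 8 (.cons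 0x7908126543 (.cons 0x6218097543 .nil)) .done .done) .done) .done)) (.node 4 8 (.cons 0x7654890123 (.cons 0x6754890123 .nil)) (.node 1 6 (.cons 0x3270984561 (.cons 0x7561234890 .nil)) (.node 0 6 (.cons 0x5437609812 (.cons 0x9065784321 (.cons 0x7560984321 .nil))) (.node 1 3 (.cons 0x9845613270 (.cons 0x7560984312 .nil)) (.node 1 5 (.cons 0x4321567890 .nil) .done .done) .done) .done) (.node 3 8 (.cons 0x9017654832 .nil) (.node 4 9 (.cons 0x7654983210 (.cons 0x6754983210 .nil)) (.node 0 4 (.cons 0x5678904321 (.cons 0x9401238756 (.cons 0x9832104576 .nil))) (.node 0 6 (.cons 0x5437609812 (.cons 0x8756094321 (.cons 0x3894065721 .nil))) .done .done) .done) (.node 4 6 (.cons 0x8901237645 (.cons 0x9012387564 (.cons 0x6457389012 .nil))) .done .done)) .done)) .done))) .done) .done)) .done))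
noncomputable def tc9_0_24 : T := (.node 3 8 (.cons 0x4567109832 .nil) (.node 4 6 (.cons 0x8901237645 (.cons 0x5467389012 .nil)) (.node 1 9 (.cons 0x5467019832 .nil) (.node 0 5 (.cons 0x7891234650 (.cons 0x2197834650 (.cons 0x9871234650 (.cons 0x9837645012 .nil)))) .done (.node 4 7 (.cons 0x5647019832 .nil) (.node 0 8 (.cons 0x5674380912 .nil) (.node 5 9 (.cons 0x8954673210 (.cons 0x9564783210 (.cons 0x6459801732 (.cons 0x7465912380 .nil)))) .done (.node 0 5 (.cons 0x7643219805 (.cons 0x5083467912 (.cons 0x9871234650 (.cons 0x9837645012 .nil)))) .done .done)) .done) .done)) (.node 4 7 (.cons 0x9012387465 .nil) (.node 0 8 (.cons 0x9087123465 .nil) (.node 5 9 (.cons 0x5908764321 (.cons 0x9564783210 (.cons 0x7645908321 .nil))) (.node 2 8 (.cons 0x9546710823 (.cons 0x1782346590 (.cons 0x3280954671 .nil))) .done .done) (.node 2 7 (.cons 0x9083456721 .nil) (.node 1 9 (.cons 0x6547019832 (.cons 0x5467219083 .nil)) (.node 0 5 (.cons 0x8912347650 (.cons 0x9127465083 .nil)) (.node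 2 8 (.cons 0x4382197650 (.cons 0x6543289071 (.cons 0x6790543821 .nil))) .done .done) .done) .done) .done)) .done) (.node 2 8 (.cons 0x6543289071 (.cons 0x5467109823 .nil)) (.node 0 5 (.cons 0x9823764501 (.cons 0x2346509871 .nil)) (.node 1 9 (.cons 0x9178234650 (.cons 0x6791283450 (.cons 0x4382197650 .nil))) .done (.node 3 9 (.cons 0x6450173982 (.cons 0x4398217650 .nil)) (.node 2 4 (.cons 0x6739824501 (.cons 0x9056783421 (.cons 0x6509871243 (.cons 0x6710542893 .nil)))) .done .done) .done)) (.node 0 3 (.cons 0x4567903821 .nil) (.node 4 7 (.cons 0x6547983012 (.cons 0x6547903821 .nil)) .done (.node 5 8 (.cons 0x6458901732 (.cons 0x4309856712 .nil)) (.node 0 2 (.cons 0x9854673201 (.cons 0x8345679021 (.cons 0x5643209871 (.cons 0x9854671023 .nil)))) .done (.node 2 4 (.cons 0x6732458901 (.cons 0x3897654210 (.cons 0x6710985423 .nil))) (.node 2 7 (.cons 0x5467238901 .nil) (.node 1 9 (.cons 0x6583019724 (.cons 0x5467238910 .nil)) (.node 4 7 (.cons 0x5647238910 .nil) .done .done) .done)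 (.node 1 5 (.cons 0x7983015642 (.cons 0x6512438790 (.cons 0x6451732890 (.cons 0x7156428903 .nil)))) .done .done)) .done)) .done)) .done)) .done))) (.node 4 9 (.cons 0x7654983210 (.cons 0x2389456710 .nil)) (.node 0 5 (.cons 0x8712349056 (.cons 0x6509871234 .nil)) (.node 0 2 (.cons 0x6543897120 (.cons 0x6798345021 (.cons 0x4389765021 .nil))) (.node 0 6 (.cons 0x8349712065 (.cons 0x9438712065 .nil)) .done .done) (.node 2 8 (.cons 0x6734509821 (.cons 0x6543289071 (.cons 0x6712890543 .nil))) (.node 2 9 (.cons 0x6738921054 (.cons 0x6712983450 (.cons 0x4389217650 .nil))) .done .done) .done)) (.node 1 9 (.cons 0x4567019832 .nil) (.node 4 7 (.cons 0x6547019832 .nil) (.node 2 4 (.cons 0x3897654210 .nil) (.node 1 4 .nil (.node 2 6 (.cons 0x5498326701 (.cons 0x4562389170 (.cons 0x5623419870 (.cons 0x8907143265 .nil)))) .done (.node 4 6 (.cons 0x8901237645 .nil) (.node 0 2 (.cons 0x5647891023 (.cons 0x6543897120 (.cons 0x9832017645 .nil))) (.node 0 5 (.cons 0x4389765021 (.cons 0x8719056432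 (.cons 0x2346509871 (.cons 0x7198346502 .nil)))) .done .done) .done) .done)) (.node 0 4 (.cons 0x5678904321 .nil) (.node 0 5 (.cons 0x6504387912 (.cons 0x6509871234 (.cons 0x6509871243 .nil))) .done (.node 2 9 (.cons 0x7654012983 (.cons 0x5671298340 (.cons 0x3892176540 .nil))) .done .done)) .done)) (.node 0 4 (.cons 0x5678904321 .nil) (.node 2 4 (.cons 0x3897654210 .nil) (.node 2 6 (.cons 0x5498326701 (.cons 0x5621798340 (.cons 0x3897126540 .nil))) (.node 0 6 (.cons 0x7601238945 (.cons 0x5604389712 .nil)) (.node 2 8 (.cons 0x5437609821 (.cons 0x6543289071 (.cons 0x9170628345 (.cons 0x5491706283 .nil)))) .done .done) .done) .done) (.node 2 9 (.cons 0x7654012983 (.cons 0x5671298340 (.cons 0x3892176540 .nil))) .done .done)) .done)) (.node 0 5 (.cons 0x6509871234 .nil) (.node 0 4 (.cons 0x8340567912 (.cons 0x7650438912 .nil)) (.node 2 6 (.cons 0x5498326701 (.cons 0x8917043265 (.cons 0x9783405621 (.cons 0x5621798340 (.cons 0x3897126540 .nil))))) .done .done) (.node 6 9 (.cons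 0x5012387694 (.cons 0x8321769450 .nil)) (.node 0 4 (.cons 0x5678904321 (.cons 0x7104569832 .nil)) (.node 2 9 (.cons 0x7654012983 (.cons 0x2965043871 (.cons 0x3892176540 .nil))) .done .done) .done) (.node 2 8 (.cons 0x6734509821 (.cons 0x6543289071 (.cons 0x6712890543 .nil))) (.node 2 9 (.cons 0x6738921054 .nil) (.node 1 6 (.cons 0x8923456170 (.cons 0x6170549283 (.cons 0x2983456170 .nil))) .done .done) .done) .done))) .done)) .done)) (.node 4 7 (.cons 0x6547109832 .nil) (.node 0 6 (.cons 0x3897456012 (.cons 0x8345609712 .nil)) (.node 0 3 (.cons 0x6547983012 .nil) (.node 2 6 (.cons 0x3897456210 (.cons 0x8345621790 (.cons 0x4562389071 .nil))) (.node 6 9 (.cons 0x7456983210 (.cons 0x2389654710 .nil)) (.node 0 5 (.cons 0x6509871234 .nil) (.node 0 8 (.cons 0x3450897621 (.cons 0x9805437621 .nil)) .done (.node 2 4 (.cons 0x5069837421 (.cons 0x8324569071 (.cons 0x6509871243 (.cons 0x3896245071 .nil)))) .done .done)) .done) .done) .done) (.node 4 6 (.cons 0x8901237645 .nil) (.node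 2 4 (.cons 0x5642109783 (.cons 0x5609871243 .nil)) (.node 5 9 (.cons 0x9564783210 (.cons 0x8712346590 (.cons 0x4659017832 (.cons 0x5906421783 .nil)))) .done .done) (.node 2 5 (.cons 0x8906734521 (.cons 0x9837106452 (.cons 0x9065217834 (.cons 0x8901732546 (.cons 0x2546098371 .nil))))) .done .done)) .done)) (.node 6 9 (.cons 0x5690123874 (.cons 0x8321745690 .nil)) (.node 5 8 (.cons 0x6732109854 (.cons 0x2174385690 (.cons 0x4710965832 (.cons 0x4712385690 .nil)))) (.node 5 7 (.cons 0x8321096574 .nil) (.node 0 8 (.cons 0x4756908321 (.cons 0x5690834712 .nil)) (.node 1 8 (.cons 0x7654321890 .nil) (.node 4 8 (.cons 0x1238475690 (.cons 0x5690174832 .nil)) .done .done) .done) .done) .done) (.node 2 7 (.cons 0x4569832710 .nil) (.node 4 6 (.cons 0x8901237645 .nil) (.node 5 7 (.cons 0x2389645710 .nil) (.node 2 5 (.cons 0x4783256901 (.cons 0x8964523710 .nil)) (.node 0 2 (.cons 0x8379645201 (.cons 0x6983201754 (.cons 0x5643897120 .nil))) (.node 0 4 (.cons 0x5678904321 (.cons 0x9640178325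 (.cons 0x2569043871 .nil))) .done .done) .done) .done) (.node 2 5 (.cons 0x4783256901 (.cons 0x2546983710 (.cons 0x8371096452 (.cons 0x3465217890 .nil)))) .done .done)) .done) .done)) .done)) .done))) (.node 4 7 .nil (.node 1 5 (.cons 0x4321567890 (.cons 0x6512347890 .nil)) (.node 0 8 (.cons 0x9087651234 (.cons 0x9087432156 .nil)) (.node 6 9 (.cons 0x5432176980 (.cons 0x8096743215 (.cons 0x8096745123 .nil))) (.node 2 8 (.cons 0x9671543280 (.cons 0x9674510823 (.cons 0x3289654710 (.cons 0x3280967451 .nil)))) .done .done) (.node 0 5 (.cons 0x6509874321 .nil) (.node 6 8 (.cons 0x9086734512 (.cons 0x9867321054 (.cons 0x4509867321 .nil))) (.node 4 8 (.cons 0x9845012376 (.cons 0x9051234876 .nil)) (.node 6 9 (.cons 0x7843215690 (.cons 0x7123489650 (.cons 0x6905123784 .nil))) .done .done) .done) .done) .done)) (.node 0 3 (.cons 0x4309876512 (.cons 0x8903476512 .nil)) (.node 0 5 (.cons 0x6509874321 .nil) (.node 0 2 (.cons 0x6512098743 (.cons 0x8902156743 .nil)) (.node 6 8 (.cons 0x2154376890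 (.cons 0x9867321054 (.cons 0x9867120543 (.cons 0x4509867321 .nil)))) (.node 0 4 (.cons 0x9871234056 .nil) (.node 1 3 (.cons 0x5678904312 (.cons 0x6897134502 (.cons 0x5134768902 .nil))) .done .done) .done) .done) .done) (.node 2 6 (.cons 0x8971265430 (.cons 0x8974562103 (.cons 0x8903745126 .nil))) (.node 0 2 (.cons 0x8971203456 (.cons 0x8902156743 .nil)) (.node 0 8 (.cons 0x6543089712 .nil) (.node 6 9 (.cons 0x5698034712 (.cons 0x8965471032 (.cons 0x8965471230 .nil))) (.node 2 8 (.cons 0x6734512890 (.cons 0x6547982103 (.cons 0x8269073451 (.cons 0x4569823071 .nil)))) .done .done) .done) .done) (.node 0 8 (.cons 0x6543089712 (.cons 0x9803471265 .nil)) (.node 1 8 (.cons 0x7654321890 (.cons 0x5623470981 .nil)) .done .done) .done)) .done)) .done)) (.node 2 7 .nil (.node 1 8 (.cons 0x7654321890 (.cons 0x6543270981 (.cons 0x3456721890 .nil))) (.node 5 7 (.cons 0x6754321890 .nil) (.node 4 6 (.cons 0x8901237645 .nil) (.node 5 9 (.cons 0x8954673210 (.cons 0x6459810723 (.cons 0x3276459810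 .nil))) .done (.node 0 5 (.cons 0x3465098721 (.cons 0x6721890543 .nil)) (.node 2 8 (.cons 0x9821054673 (.cons 0x3764509821 .nil)) (.node 1 3 (.cons 0x6457312890 (.cons 0x6509782134 (.cons 0x5643127890 (.cons 0x8213479056 .nil)))) .done .done) (.node 3 8 (.cons 0x5467389012 (.cons 0x9056438721 (.cons 0x4567238901 .nil))) (.node 3 9 (.cons 0x5093467812 (.cons 0x9387210564 (.cons 0x8127643905 (.cons 0x9381054672 .nil)))) .done .done) .done)) (.node 1 5 (.cons 0x4321567890 (.cons 0x1564327890 .nil)) (.node 0 5 (.cons 0x9051876432 (.cons 0x9051872346 (.cons 0x6721890543 .nil))) .done (.node 0 3 (.cons 0x4309876512 (.cons 0x2789034651 (.cons 0x5189034672 .nil))) (.node 1 4 (.cons 0x5641098723 .nil) (.node 0 2 (.cons 0x3209875641 (.cons 0x5764189023 .nil)) (.node 1 3 (.cons 0x6457231890 (.cons 0x8902764315 .nil)) .done .done) .done) .done) .done)) .done))) .done) .done) (.node 5 7 .nil (.node 1 8 (.cons 0x7654321890 (.cons 0x6754321890 .nil)) (.node 0 6 (.cons 0x9817065432 (.cons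 0x9065781234 (.cons 0x7560981234 .nil))) (.node 2 8 (.cons 0x5437609821 (.cons 0x3457609821 .nil)) (.node 0 4 (.cons 0x5678904321 (.cons 0x6578904321 .nil)) (.node 0 8 (.cons 0x9081234756 .nil) (.node 1 3 (.cons 0x9823107654 (.cons 0x9765431280 (.cons 0x9821340675 .nil))) .done .done) .done) .done) .done) (.node 0 4 (.cons 0x5678904321 (.cons 0x6578904321 .nil)) (.node 2 6 (.cons 0x5437621890 (.cons 0x5762189043 .nil)) (.node 3 8 (.cons 0x5401267983 (.cons 0x9832104576 (.cons 0x6210457983 (.cons 0x9832675401 .nil)))) .done (.node 0 8 (.cons 0x9081267345 .nil) (.node 1 6 (.cons 0x9807165432 (.cons 0x8904321675 .nil)) .done .done) .done)) (.node 0 6 (.cons 0x5437609812 .nil) (.node 0 5 (.cons 0x6734509812 .nil) (.node 2 6 (.cons 0x5437621890 (.cons 0x6218905734 .nil)) (.node 0 3 (.cons 0x7654309812 .nil) (.node 1 4 (.cons 0x9870562341 (.cons 0x8975621430 (.cons 0x8975034126 .nil))) .done .done) .done) .done) (.node 2 4 (.cons 0x7560981243 (.cons 0x5760981243 .nil)) (.node 0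 3 (.cons 0x7654309812 (.cons 0x9034218765 (.cons 0x8971243065 .nil))) .done (.node 0 3 (.cons 0x7654309812 (.cons 0x8975603421 .nil)) (.node 0 5 (.cons 0x9812437506 .nil) .done .done) .done)) .done)) .done)) .done)) .done) .done)) .done)) (.node 4 7 .nil tc9_0_23 .done)))
noncomputable def tc9_0_25 : T := (.node 1 7 (.cons 0x2176543890 .nil) (.node 0 8 (.cons 0x6543217980 .nil) (.node 4 6 (.cons 0x8901237645 (.cons 0x5467980123 (.cons 0x5467389012 .nil))) (.node 5 9 (.cons 0x7832109564 (.cons 0x8376459012 (.cons 0x9546710832 (.cons 0x9546712380 .nil)))) .done (.node 1 8 (.cons 0x7654321890 .nil) (.node 1 5 (.cons 0x4321567890 (.cons 0x2346518790 .nil)) (.node 0 2 (.cons 0x9817023456 (.cons 0x5643209781 (.cons 0x7651209834 .nil))) (.node 0 5 (.cons 0x9805432176 (.cons 0x2346509781 .nil)) .done .done) .done) (.node 1 5 (.cons 0x4321567890 .nil) (.node 2 8 (.cons 0x9764510823 (.cons 0x1564328790 (.cons 0x3280976451 .nil))) .done (.node 0 2 (.cons 0x9871564320 (.cons 0x8790234651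 (.cons 0x8971564320 .nil))) (.node 0 6 (.cons 0x5437609812 (.cons 0x8790651234 (.cons 0x5179806432 (.cons 0x8971206543 .nil)))) .done .done) .done)) .done)) .done)) (.node 2 7 (.cons 0x9083456721 .nil) (.node 1 3 (.cons 0x8097654312 .nil) (.node 4 7 (.cons 0x9083127456 (.cons 0x6547213890 .nil)) .done (.node 0 3 (.cons 0x6543089712 .nil) (.node 2 8 (.cons 0x9765430821 (.cons 0x9712803456 .nil)) (.node 1 5 (.cons 0x4321567890 (.cons 0x6790821543 (.cons 0x8215430976 .nil))) (.node 1 8 (.cons 0x7654321890 .nil) .done .done) .done) .done) .done)) .done) .done)) (.node 0 8 (.cons 0x8097123456 (.cons 0x9083456712 .nil)) (.node 4 6 (.cons 0x8901237645 (.cons 0x5467980123 (.cons 0x5467389012 .nil))) (.node 5 9 (.cons 0x7832109564 (.cons 0x8376459012 (.cons 0x7645908321 .nil))) (.node 2 4 (.cons 0x9832456701 (.cons 0x7832465901 (.cons 0x8324590176 .nil))) (.node 1 8 (.cons 0x6732459810 (.cons 0x5643218790 .nil)) (.node 0 3 (.cons 0x2430956781 (.cons 0x5643097812 (.cons 0x8176590342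 .nil))) .done .done) .done) .done) (.node 2 5 (.cons 0x3254679801 (.cons 0x9017832564 (.cons 0x9083254671 .nil))) (.node 1 3 (.cons 0x5467980132 (.cons 0x7890132564 .nil)) (.node 3 9 (.cons 0x8710932564 .nil) (.node 4 8 (.cons 0x9325480176 (.cons 0x9017846523 (.cons 0x7652134890 .nil))) .done .done) .done) (.node 4 9 (.cons 0x7832564901 (.cons 0x5238764901 (.cons 0x1256783490 .nil))) .done .done)) .done)) .done) .done)) (.node 4 7 (.cons 0x6547983210 (.cons 0x8321097456 .nil)) (.node 1 7 .nil (.node 0 6 (.cons 0x5609834712 (.cons 0x8345609712 (.cons 0x3897456012 .nil))) .done (.node 1 8 (.cons 0x7654321890 .nil) (.node 4 8 (.cons 0x7654890123 .nil) (.node 0 6 (.cons 0x7609812345 (.cons 0x2179834560 .nil)) (.node 1 5 (.cons 0x4321567890 (.cons 0x9784321560 (.cons 0x4387906512 .nil))) (.node 2 6 (.cons 0x5432670981 (.cons 0x3897456210 (.cons 0x9701562384 (.cons 0x5479062183 .nil)))) .done .done) (.node 3 5 (.cons 0x5347609812 (.cons 0x4798356012 (.cons 0x9748356012 .nil)))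 (.node 2 4 (.cons 0x4235678901 (.cons 0x9760184235 (.cons 0x7984235601 (.cons 0x5324897601 .nil)))) .done .done) .done)) (.node 0 6 (.cons 0x7609812345 (.cons 0x9710654832 (.cons 0x2179834560 .nil))) (.node 0 3 (.cons 0x9845671032 .nil) (.node 2 6 (.cons 0x5432670981 (.cons 0x3897456210 (.cons 0x5481097623 (.cons 0x8309745621 .nil)))) .done .done) .done) .done)) (.node 0 6 (.cons 0x5437609812 (.cons 0x7906543812 (.cons 0x2179834560 .nil))) (.node 0 3 (.cons 0x7654309812 .nil) (.node 2 6 (.cons 0x5437621890 (.cons 0x3897456210 (.cons 0x8309745621 .nil))) (.node 0 4 (.cons 0x5678904321 (.cons 0x5621879043 .nil)) (.node 0 8 (.cons 0x9081267345 .nil) .done .done) .done) .done) .done) .done)) (.node 0 8 (.cons 0x6543809712 .nil) (.node 6 9 (.cons 0x5690834712 (.cons 0x3809654712 .nil)) (.node 2 5 (.cons 0x4387125690 (.cons 0x1254376980 (.cons 0x8096734521 (.cons 0x6908371254 .nil)))) (.node 1 5 (.cons 0x4321567890 (.cons 0x2154376980 .nil)) (.node 4 6 (.cons 0x8901237645 (.cons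 0x9801237645 (.cons 0x2156438790 .nil))) (.node 2 6 (.cons 0x1526437890 (.cons 0x3897456210 (.cons 0x9087346251 (.cons 0x9083471265 (.cons 0x9083715462 .nil))))) .done .done) .done) .done) (.node 2 7 (.cons 0x4569083271 .nil) (.node 1 4 (.cons 0x7238965410 (.cons 0x5410896732 (.cons 0x5690871432 (.cons 0x5410896723 .nil)))) .done .done) .done)) (.node 4 6 (.cons 0x8901237645 (.cons 0x5467980123 .nil)) (.node 5 7 (.cons 0x6457908321 .nil) (.node 0 4 (.cons 0x5678904321 .nil) (.node 0 6 (.cons 0x9875604321 (.cons 0x8975604321 (.cons 0x8345609712 .nil))) .done .done) .done) (.node 2 5 (.cons 0x9017832564 (.cons 0x3254679801 (.cons 0x4652387901 (.cons 0x6452380971 .nil)))) (.node 6 8 (.cons 0x7325468901 (.cons 0x9710864523 (.cons 0x6809712543 (.cons 0x4568321790 .nil)))) .done .done) .done)) .done)) .done))) .done) (.node 2 4 (.cons 0x7654238901 (.cons 0x8324567901 .nil)) (.node 2 7 (.cons 0x4567238901 .nil) (.node 4 8 (.cons 0x7654890123 (.cons 0x6548327901 .nil)) (.node 4 7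 .nil (.node 3 5 (.cons 0x6798453210 (.cons 0x6532109874 (.cons 0x8453210976 .nil))) .done (.node 1 7 (.cons 0x9832456710 .nil) (.node 0 4 (.cons 0x5678904321 (.cons 0x6540179832 .nil)) (.node 1 4 (.cons 0x7654109832 (.cons 0x8327901456 .nil)) .done .done) .done) .done)) (.node 4 7 .nil (.node 3 5 (.cons 0x6735489012 (.cons 0x6532109874 .nil)) (.node 0 8 (.cons 0x6798012354 (.cons 0x9801235476 (.cons 0x6547980123 .nil))) .done (.node 3 9 (.cons 0x6539784210 (.cons 0x8476539012 .nil)) .done .done)) .done) .done)) (.node 3 9 (.cons 0x8932456701 .nil) (.node 4 8 (.cons 0x7654890123 .nil) (.node 3 6 (.cons 0x7984563210 (.cons 0x5632109784 (.cons 0x5632489701 .nil))) (.node 0 6 (.cons 0x5609784321 (.cons 0x5489063721 .nil)) (.node 1 5 (.cons 0x4321567890 (.cons 0x7984321560 (.cons 0x6512348790 (.cons 0x9870156324 (.cons 0x6372154890 .nil))))) .done .done) .done) (.node 3 5 (.cons 0x6798453210 (.cons 0x8453210976 .nil)) (.node 1 4 (.cons 0x1456723890 (.cons 0x9870142356 (.cons 0x2143567890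 .nil))) (.node 4 7 (.cons 0x6539874210 .nil) .done .done) .done) (.node 0 3 (.cons 0x3098456721 (.cons 0x5679842103 .nil)) (.node 1 8 (.cons 0x7654321890 (.cons 0x6548127930 (.cons 0x6548127903 .nil))) (.node 1 9 (.cons 0x5679103842 (.cons 0x8301976542 .nil)) .done .done) .done) .done))) (.node 4 8 (.cons 0x7654890123 .nil) (.node 3 6 (.cons 0x7984563210 (.cons 0x5632109784 .nil)) (.node 0 6 (.cons 0x5609784321 (.cons 0x5489063721 .nil)) (.node 1 5 (.cons 0x4321567890 (.cons 0x7984321560 (.cons 0x6512348790 (.cons 0x9870156324 (.cons 0x1563984270 .nil))))) .done .done) .done) (.node 3 6 (.cons 0x7632109845 (.cons 0x5489763210 .nil)) (.node 3 5 (.cons 0x6798453210 .nil) (.node 1 4 (.cons 0x1456723890 (.cons 0x9870142356 (.cons 0x2143567890 .nil))) (.node 4 7 (.cons 0x8935674210 .nil) .done .done) (.node 1 6 (.cons 0x9870165324 (.cons 0x6107984532 (.cons 0x8970165324 (.cons 0x8453612790 .nil)))) .done .done)) .done) (.node 0 3 (.cons 0x3098456721 (.cons 0x8421039765 .nil))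 (.node 3 6 (.cons 0x1279845630 (.cons 0x8456309721 .nil)) (.node 0 5 (.cons 0x7650124893 (.cons 0x2483976501 .nil)) (.node 1 4 (.cons 0x1456723890 (.cons 0x8397650142 (.cons 0x8936507241 (.cons 0x2763890541 .nil)))) .done .done) .done) .done) .done))) .done)) .done)) (.node 1 7 (.cons 0x6542389710 .nil) (.node 1 4 (.cons 0x7654109832 (.cons 0x2389765410 .nil)) (.node 2 5 (.cons 0x6798325410 (.cons 0x8325410976 .nil)) (.node 0 4 (.cons 0x5678904321 (.cons 0x3409876521 .nil)) (.node 0 5 (.cons 0x6789052143 .nil) (.node 1 6 (.cons 0x7890561234 (.cons 0x7983245610 (.cons 0x8907614325 (.cons 0x6125098734 .nil)))) .done .done) .done) (.node 2 7 (.cons 0x4567238901 .nil) (.node 1 6 (.cons 0x7614523890 (.cons 0x7983245610 (.cons 0x3897245610 .nil))) (.node 2 6 (.cons 0x7623890145 (.cons 0x8326790145 .nil)) .done .done) .done) .done)) (.node 3 5 (.cons 0x2143567890 (.cons 0x6538790142 .nil)) (.node 1 6 (.cons 0x9870165324 (.cons 0x7983245610 (.cons 0x8970165324 .nil))) .done (.node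 1 5 (.cons 0x4321567890 .nil) (.node 0 2 (.cons 0x5678902143 (.cons 0x8790214356 (.cons 0x6798320154 .nil))) (.node 0 6 (.cons 0x7890653412 (.cons 0x8790653412 (.cons 0x7983420651 .nil))) .done .done) .done) .done)) .done)) (.node 1 6 (.cons 0x7983245610 (.cons 0x5610978324 .nil)) (.node 0 5 (.cons 0x6509871243 (.cons 0x9056178342 (.cons 0x7890561234 (.cons 0x8905437612 .nil)))) .done (.node 3 6 (.cons 0x5634217890 (.cons 0x2456389710 .nil)) (.node 3 5 (.cons 0x6534217890 (.cons 0x8970165324 .nil)) (.node 0 3 (.cons 0x8903456712 .nil) (.node 5 8 (.cons 0x4309856712 (.cons 0x6589712430 (.cons 0x1243658790 (.cons 0x8563097124 .nil)))) .done .done) .done) .done) .done)) .done)) (.node 1 5 (.cons 0x4321567890 (.cons 0x6798324510 (.cons 0x8324510976 .nil))) (.node 0 6 (.cons 0x7890651234 (.cons 0x8790651234 .nil)) (.node 3 6 (.cons 0x8970154236 .nil) (.node 6 8 (.cons 0x6897015423 (.cons 0x7098632451 .nil)) (.node 0 3 (.cons 0x4309786512 .nil) (.node 0 4 (.cons 0x5678904321 (.cons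 0x3409786512 (.cons 0x7890436512 .nil))) .done .done) .done) (.node 4 8 (.cons 0x7654890123 (.cons 0x7984321560 (.cons 0x5632109784 (.cons 0x2156348790 .nil)))) .done .done)) (.node 1 6 (.cons 0x7610983245 (.cons 0x5423897610 (.cons 0x5160978342 .nil))) (.node 3 6 (.cons 0x7890634215 (.cons 0x7983601542 (.cons 0x8790634215 .nil))) .done .done) .done)) (.node 0 5 (.cons 0x6789051243 .nil) (.node 1 8 (.cons 0x7654321890 (.cons 0x6509781234 (.cons 0x8123450976 .nil))) (.node 0 2 (.cons 0x8902154376 (.cons 0x6543207981 .nil)) (.node 0 4 (.cons 0x5678904321 (.cons 0x9781234056 (.cons 0x5679812043 .nil))) .done .done) .done) (.node 1 6 (.cons 0x7890561234 (.cons 0x5423897610 (.cons 0x6150978342 .nil))) (.node 3 6 (.cons 0x5124367890 (.cons 0x8970516342 (.cons 0x8367901542 .nil))) .done .done) .done)) .done)) .done))) .done)))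
noncomputable def uc9_0_3 : T := (.node 3 8 (.cons 0x4567983210 .nil) tc9_0_25 (.node 1 7 .nil tc9_0_24 (.node 2 7 .nil (.node 1 8 (.cons 0x7654321890 (.cons 0x6543270981 (.cons 0x3456721890 .nil))) (.node 3 8 (.cons 0x4567238901 .nil) (.node 1 7 (.cons 0x2176543890 .nil) (.node 1 3 (.cons 0x8901327654 .nil) (.node 6 8 (.cons 0x7213456890 (.cons 0x7231098654 (.cons 0x4568907231 .nil))) .done (.node 4 8 (.cons 0x6548321790 (.cons 0x5672134890 (.cons 0x3276548901 .nil))) (.node 0 4 (.cons 0x3218976540 (.cons 0x8321790456 (.cons 0x8904312765 .nil))) (.node 1 5 (.cons 0x4321567890 (.cons 0x6512387904 (.cons 0x9043876512 .nil))) .done .done) .done) .done)) .done) (.node 3 9 (.cons 0x4567018932 (.cons 0x4567239810 .nil)) (.node 0 3 (.cons 0x4567981230 .nil) (.node 4 8 (.cons 0x9765481230 (.cons 0x6548309721 (.cons 0x3276548901 .nil))) (.node 0 4 (.cons 0x3218976540 (.cons 0x5672189340 .nil)) (.node 1 3 (.cons 0x6540798132 .nil) .done .done) .done) .done) .done) .done)) (.node 0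 5 (.cons 0x6721890543 .nil) (.node 4 8 (.cons 0x7654890123 (.cons 0x9845012376 (.cons 0x3276548901 .nil))) (.node 0 8 .nil (.node 1 9 (.cons 0x4321987650 (.cons 0x7654321980 (.cons 0x6543270891 (.cons 0x7650891234 (.cons 0x3456721980 .nil))))) .done (.node 3 6 (.cons 0x9845632701 (.cons 0x4879056321 (.cons 0x7236548901 .nil))) (.node 0 4 (.cons 0x8123679045 .nil) (.node 2 4 (.cons 0x9810763245 (.cons 0x5421809763 .nil)) .done .done) (.node 0 6 (.cons 0x7609812345 .nil) (.node 5 7 (.cons 0x9750632184 (.cons 0x9084365721 (.cons 0x1275634890 .nil))) .done .done) .done)) .done)) (.node 0 8 .nil (.node 1 9 (.cons 0x4321987650 (.cons 0x7654321980 (.cons 0x6543270891 (.cons 0x7650891234 (.cons 0x3456721980 .nil))))) .done (.node 1 6 (.cons 0x9807234561 (.cons 0x5098437612 (.cons 0x8905437612 .nil))) (.node 4 7 (.cons 0x3216547980 (.cons 0x8097456123 .nil)) .done (.node 4 6 (.cons 0x8097321645 (.cons 0x3218976450 (.cons 0x5461809723 .nil))) .done .done)) .done)) .done)) (.node 6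 9 (.cons 0x5096781234 (.cons 0x8127690543 .nil)) (.node 0 6 (.cons 0x7609812345 .nil) (.node 4 8 (.cons 0x9056784321 (.cons 0x5096721843 (.cons 0x3276548901 .nil))) (.node 1 9 (.cons 0x9123487650 (.cons 0x8432705691 .nil)) (.node 0 8 (.cons 0x5084376912 (.cons 0x7219650843 .nil)) .done .done) (.node 3 6 (.cons 0x4879056321 (.cons 0x9845632701 (.cons 0x5481279063 (.cons 0x7236548901 .nil)))) .done .done)) .done) (.node 3 8 (.cons 0x9672381054 (.cons 0x4567238901 .nil)) (.node 1 4 (.cons 0x5096781432 (.cons 0x8321456790 (.cons 0x6509783214 (.cons 0x9056783412 .nil)))) (.node 2 4 (.cons 0x7690183245 (.cons 0x1423879650 (.cons 0x9678324105 .nil))) .done .done) (.node 1 7 (.cons 0x4569832710 (.cons 0x8327109654 (.cons 0x6905438172 .nil))) .done .done)) .done)) (.node 4 6 (.cons 0x7890564321 (.cons 0x3465098721 .nil)) (.node 1 6 (.cons 0x8973216450 (.cons 0x9816432705 (.cons 0x8905437216 .nil))) (.node 6 9 (.cons 0x5012378964 (.cons 0x5072346981 (.cons 0x8964501273 (.cons 0x5096187234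 .nil)))) .done .done) (.node 0 8 (.cons 0x5467908123 .nil) (.node 0 6 (.cons 0x7609812345 .nil) (.node 1 6 (.cons 0x7890561234 (.cons 0x9805437216 (.cons 0x8905437216 .nil))) .done .done) .done) (.node 1 6 (.cons 0x7890561234 (.cons 0x3279816450 (.cons 0x8164509723 (.cons 0x7234618905 (.cons 0x8905437216 .nil))))) .done .done))) .done))) .done)) (.node 1 7 .nil tc9_0_22 (.node 1 7 .nil tc9_0_21 .done))) .done)))
theorem sub_c9_0_3 : root 9 refs9_0 [] 0x700000008704000000004060050020060500000000504000000004010000050010300000000302000000002018020000010 0xfe7fff6fff8bff9fffcfffedffd5fff3fff9fef9 9 7 9 .nil uc9_0_3 = true := by decide +kernel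
noncomputable def tc9_0_26 : T := (.node 1 3 (.cons 0x8907654312 .nil) (.node 3 8 .nil (.node 0 2 (.cons 0x9812076543 (.cons 0x9021567834 (.cons 0x7651209834 .nil))) (.node 4 7 (.cons 0x6512098743 .nil) (.node 6 9 (.cons 0x3478965120 (.cons 0x7438965120 (.cons 0x5690217834 (.cons 0x7456983201 (.cons 0x6983745120 .nil))))) .done (.node 6 9 (.cons 0x7456981023 (.cons 0x8347156902 (.cons 0x5690217834 (.cons 0x9654381702 (.cons 0x9654718320 .nil))))) .done .done)) (.node 2 8 (.cons 0x9071283456 .nil) (.node 6 8 (.cons 0x9021768345 .nil) (.node 4 9 (.cons 0x7132865490 (.cons 0x7109456832 (.cons 0x5490176832 (.cons 0x3821765490 (.cons 0x6549071382 .nil))))) .done .done) .done) .done)) (.node 3 9 (.cons 0x2189345670 .nil) (.node 1 4 (.cons 0x7654109832 .nil) (.node 0 3 (.cons 0x4309876512 .nil) (.node 1 9 .nil (.node 2 4 (.cons 0x3421567890 (.cons 0x7654238910 (.cons 0x2438765190 .nil))) (.node 2 7 (.cons 0x4567238901 (.cons 0x4567238910 (.cons 0x6519038724 .nil))) .done .done)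 .done) .done) .done) .done) .done)) (.node 1 6 .nil (.node 3 8 (.cons 0x7098345612 .nil) (.node 0 4 (.cons 0x5678904321 (.cons 0x9043876512 (.cons 0x7890432165 .nil))) (.node 0 2 (.cons 0x9812076543 (.cons 0x9021567834 (.cons 0x7651209834 .nil))) (.node 4 6 (.cons 0x9021564387 (.cons 0x5467389012 (.cons 0x5164378902 .nil))) (.node 5 9 (.cons 0x8954673210 (.cons 0x6459837012 (.cons 0x6189543702 (.cons 0x6459837021 .nil)))) .done .done) .done) (.node 2 7 (.cons 0x8904315672 (.cons 0x9832765401 (.cons 0x4098315672 .nil))) .done .done)) (.node 3 9 (.cons 0x2189345670 .nil) (.node 2 4 (.cons 0x3421567890 (.cons 0x5612439870 (.cons 0x8709342165 (.cons 0x7610983245 .nil)))) (.node 2 7 (.cons 0x6543981270 (.cons 0x8934561270 (.cons 0x6154273890 .nil))) .done .done) .done) .done)) .done) .done)) (.node 1 3 (.cons 0x8907654312 .nil) (.node 0 8 (.cons 0x9807654312 .nil) (.node 3 8 .nil (.node 0 2 (.cons 0x8902154376 (.cons 0x9021567834 (.cons 0x7651209834 .nil))) (.node 6 9 (.cons 0x5698702134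 (.cons 0x5438096712 (.cons 0x4387156902 (.cons 0x7021389654 .nil)))) (.node 4 7 (.cons 0x6512098743 (.cons 0x7438965120 (.cons 0x8347156902 .nil))) .done .done) .done) (.node 1 4 (.cons 0x7654109832 .nil) (.node 2 8 (.cons 0x9821345670 .nil) (.node 2 7 (.cons 0x4567238901 .nil) (.node 1 6 (.cons 0x5416723890 .nil) (.node 1 9 .nil (.node 0 4 (.cons 0x5678904321 (.cons 0x8327654091 (.cons 0x8327190456 (.cons 0x8913276540 .nil)))) .done .done) .done) .done) (.node 2 7 (.cons 0x4567238901 .nil) (.node 1 9 (.cons 0x4567238910 .nil) (.node 1 6 .nil (.node 0 4 (.cons 0x2765198340 (.cons 0x9045167382 (.cons 0x5619834072 (.cons 0x5409823761 .nil)))) .done .done) .done) .done) .done)) .done) .done)) (.node 3 8 .nil (.node 2 7 (.cons 0x9801327654 .nil) (.node 1 4 (.cons 0x9801456723 .nil) (.node 0 4 (.cons 0x5678904321 (.cons 0x9043876512 .nil)) (.node 1 6 (.cons 0x7890432165 (.cons 0x9834072165 .nil)) .done .done) .done) (.node 0 4 (.cons 0x5678904321 (.cons 0x9043876512 (.cons 0x9831270456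 (.cons 0x6721540983 .nil)))) .done .done)) .done) .done)) (.node 1 6 .nil (.node 5 8 (.cons 0x6732109854 (.cons 0x4589016732 .nil)) (.node 0 4 (.cons 0x5678904321 (.cons 0x7890432165 (.cons 0x9854016732 .nil))) (.node 3 8 (.cons 0x9043876512 .nil) (.node 0 2 (.cons 0x9856702134 (.cons 0x9854370216 (.cons 0x7615438902 .nil))) (.node 2 9 (.cons 0x4312985670 (.cons 0x6129854370 (.cons 0x3458921670 (.cons 0x8376154092 .nil)))) .done .done) .done) (.node 7 9 (.cons 0x6798540123 (.cons 0x3216798540 .nil)) (.node 0 2 (.cons 0x6798513402 (.cons 0x5618790234 (.cons 0x4316589702 .nil))) (.node 3 9 (.cons 0x4398567021 (.cons 0x7021658934 .nil)) .done .done) .done) .done)) (.node 2 5 (.cons 0x8907652134 (.cons 0x8907345216 .nil)) (.node 0 8 (.cons 0x9807652134 (.cons 0x9807612543 (.cons 0x9801673254 .nil))) .done (.node 3 9 (.cons 0x6521870934 (.cons 0x4390781652 .nil)) (.node 0 4 (.cons 0x5678904321 (.cons 0x7856123904 (.cons 0x7890432165 (.cons 0x9043256187 .nil)))) (.node 2 4 (.cons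 0x3421567890 (.cons 0x6124589370 (.cons 0x6124589073 .nil))) .done .done) .done) .done)) .done)) (.node 1 4 .nil (.node 6 8 (.cons 0x2154376890 (.cons 0x5410986732 (.cons 0x5412376890 .nil))) (.node 3 8 (.cons 0x7654109832 .nil) (.node 0 2 (.cons 0x5437689021 (.cons 0x9021567834 (.cons 0x9834561207 (.cons 0x9021768345 (.cons 0x7651209834 .nil))))) .done (.node 5 8 (.cons 0x6732109854 (.cons 0x6732145890 .nil)) (.node 1 9 (.cons 0x2198345670 .nil) (.node 2 9 (.cons 0x4589237610 (.cons 0x6587143290 (.cons 0x8567143290 (.cons 0x3892145670 .nil)))) .done .done) .done) .done)) .done) (.node 1 9 .nil (.node 3 8 (.cons 0x2198345670 .nil) (.node 0 2 (.cons 0x8902154376 (.cons 0x9021567834 (.cons 0x9834561207 (.cons 0x7651209834 .nil)))) (.node 0 8 (.cons 0x8091765432 .nil) .done .done) (.node 2 4 (.cons 0x3421567890 (.cons 0x7654238910 (.cons 0x2438765190 .nil))) (.node 0 2 (.cons 0x9024387156 (.cons 0x4387651902 (.cons 0x5438916702 (.cons 0x7024389165 .nil)))) .done .done) .done))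 .done) .done)) .done)) .done)) (.node 2 8 (.cons 0x6734512890 .nil) (.node 2 7 .nil (.node 3 8 (.cons 0x6543890721 (.cons 0x4567238901 .nil)) (.node 2 6 (.cons 0x9076218345 (.cons 0x4512673890 .nil)) (.node 0 6 (.cons 0x9821543760 (.cons 0x5432760981 .nil)) (.node 0 5 (.cons 0x8905126734 (.cons 0x6723450981 .nil)) (.node 3 6 (.cons 0x9812705436 (.cons 0x2763451890 .nil)) .done .done) .done) .done) .done) (.node 7 9 .nil (.node 1 3 (.cons 0x9821345670 (.cons 0x6543128970 .nil)) (.node 0 8 (.cons 0x9807654312 (.cons 0x8097123456 (.cons 0x4567980132 .nil))) .done (.node 0 3 (.cons 0x4309876512 (.cons 0x6543079821 (.cons 0x4567982301 .nil))) (.node 1 9 (.cons 0x8219703456 .nil) .done .done) .done)) (.node 5 7 (.cons 0x6754321890 .nil) (.node 4 7 .nil (.node 3 9 (.cons 0x1289345670 (.cons 0x6547012893 .nil)) (.node 0 3 (.cons 0x4567982301 (.cons 0x6547982301 (.cons 0x4765103982 .nil))) (.node 1 9 (.cons 0x8230197654 (.cons 0x8230197456 .nil)) .done .done) .done) .done) .done)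 .done)) .done)) (.node 3 8 (.cons 0x9071283456 .nil) (.node 0 8 .nil (.node 7 9 (.cons 0x4567983210 (.cons 0x6543280971 .nil)) (.node 3 6 (.cons 0x5436709812 (.cons 0x6379082154 (.cons 0x4563280971 .nil))) (.node 5 9 (.cons 0x8217095634 (.cons 0x6590871234 (.cons 0x6718095432 .nil))) .done .done) .done) (.node 5 8 (.cons 0x6732109854 .nil) (.node 4 8 (.cons 0x7654890123 .nil) (.node 6 8 (.cons 0x2154376890 .nil) .done .done) .done) .done)) (.node 0 8 .nil (.node 5 9 (.cons 0x6590871234 (.cons 0x6718095432 .nil)) (.node 3 6 (.cons 0x5436709812 (.cons 0x2189543670 (.cons 0x4365907821 (.cons 0x8217095634 .nil)))) .done (.node 4 6 (.cons 0x2381764590 (.cons 0x1237645980 (.cons 0x8095467321 (.cons 0x6459082173 (.cons 0x6459082371 .nil))))) .done .done)) .done) .done)) (.node 2 7 .nil (.node 1 3 (.cons 0x8907654312 (.cons 0x8907213456 .nil)) (.node 0 8 (.cons 0x9807654312 (.cons 0x9807213456 (.cons 0x9801327654 .nil))) .done (.node 4 8 (.cons 0x5670984312 (.cons 0x5672134890 (.cons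 0x2765134890 .nil))) (.node 0 3 (.cons 0x4309876512 (.cons 0x6512789034 (.cons 0x9845672301 .nil))) (.node 0 5 (.cons 0x9845012376 (.cons 0x9843127056 (.cons 0x6723450981 .nil))) .done .done) (.node 0 6 (.cons 0x8906734512 (.cons 0x9065127843 (.cons 0x7215609843 (.cons 0x5432760981 .nil)))) .done .done)) .done)) (.node 2 5 (.cons 0x6709812543 .nil) (.node 4 7 .nil (.node 0 2 (.cons 0x8902154376 (.cons 0x6512098743 (.cons 0x8902156743 .nil))) (.node 2 4 (.cons 0x3421567890 .nil) (.node 3 5 (.cons 0x6789021534 (.cons 0x6532109874 (.cons 0x6532478901 .nil))) (.node 1 3 (.cons 0x8907654312 (.cons 0x6547098213 .nil)) (.node 5 8 (.cons 0x6732109854 (.cons 0x6589074312 (.cons 0x6743158902 .nil))) .done .done) .done) .done) .done) (.node 5 7 (.cons 0x6754321890 .nil) (.node 7 9 .nil (.node 3 8 (.cons 0x9018325476 (.cons 0x4567983210 (.cons 0x6790183254 .nil))) (.node 1 6 (.cons 0x9832745610 (.cons 0x2389745610 (.cons 0x8325610974 .nil))) .done .done) .done) .done) .done)) (.node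 5 8 (.cons 0x6732109854 .nil) (.node 6 8 (.cons 0x2154376890 .nil) (.node 4 7 (.cons 0x6890125473 .nil) (.node 4 8 (.cons 0x7654890123 .nil) (.node 5 7 (.cons 0x6754321890 .nil) (.node 7 9 .nil (.node 0 3 (.cons 0x4309876512 (.cons 0x4309786521 (.cons 0x1279865430 (.cons 0x6512798430 (.cons 0x6548972301 .nil))))) .done .done) .done) .done) .done) (.node 3 8 .nil (.node 2 9 (.cons 0x6817092543 (.cons 0x6834529071 (.cons 0x4386529071 .nil))) .done (.node 0 8 .nil (.node 1 9 (.cons 0x6543891270 (.cons 0x9172345680 (.cons 0x7190865234 .nil))) .done .done) .done)) .done)) (.node 5 7 (.cons 0x6754321890 .nil) (.node 5 9 .nil (.node 0 6 (.cons 0x8906734512 (.cons 0x5906781234 (.cons 0x1895432760 .nil))) (.node 1 6 (.cons 0x4589016732 (.cons 0x8952160734 .nil)) .done .done) .done) .done) .done)) .done)) .done)) .done))) .done)))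
noncomputable def tc9_0_27 : T := (.node 1 3 (.cons 0x8907654312 .nil) (.node 1 8 (.cons 0x7654321890 .nil) (.node 5 7 (.cons 0x6754321890 .nil) (.node 1 4 .nil (.node 0 6 (.cons 0x2345760981 (.cons 0x5760981432 .nil)) (.node 2 8 (.cons 0x3456709821 (.cons 0x9065782341 (.cons 0x9067541823 .nil))) (.node 0 3 (.cons 0x9821430765 (.cons 0x9823014567 .nil)) (.node 2 9 (.cons 0x9281345706 (.cons 0x8756092341 (.cons 0x8921543076 (.cons 0x8921567034 (.cons 0x8145760923 .nil))))) .done .done) .done) (.node 2 5 (.cons 0x6709812543 (.cons 0x9067814325 (.cons 0x7890652341 (.cons 0x8906732541 .nil)))) .done .done)) (.node 3 5 (.cons 0x2143567890 .nil) (.node 1 6 (.cons 0x2345761890 .nil) (.node 1 9 .nil (.node 0 6 (.cons 0x2345760981 (.cons 0x8190675432 .nil)) (.node 2 7 (.cons 0x9815432760 (.cons 0x8913456072 (.cons 0x8190672354 .nil))) .done .done) .done) .done) .done) .done)) (.node 2 7 (.cons 0x8907213456 .nil) (.node 0 8 (.cons 0x9807213456 .nil) (.node 7 9 (.cons 0x8097123456 .nil)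 (.node 2 8 (.cons 0x3456709821 .nil) (.node 4 7 (.cons 0x6547098213 .nil) .done .done) .done) (.node 1 4 (.cons 0x9801456723 .nil) (.node 1 9 (.cons 0x8091765432 .nil) (.node 1 6 .nil (.node 2 9 (.cons 0x8092345671 (.cons 0x6154370892 (.cons 0x7615432980 (.cons 0x4516732980 .nil)))) .done .done) .done) .done) .done)) .done) .done)) (.node 2 7 (.cons 0x3456721890 .nil) (.node 4 7 .nil (.node 2 6 (.cons 0x5437621890 (.cons 0x8907431265 (.cons 0x8907456213 .nil))) (.node 0 6 (.cons 0x5437609812 .nil) (.node 0 8 (.cons 0x9081267345 (.cons 0x9806512347 (.cons 0x9806743215 (.cons 0x9801327456 .nil)))) .done (.node 0 2 (.cons 0x9815437602 (.cons 0x9874320651 (.cons 0x9813472065 .nil))) (.node 2 8 (.cons 0x3456709821 (.cons 0x9823745106 (.cons 0x7456098231 .nil))) .done .done) .done)) .done) (.node 1 6 .nil (.node 2 8 (.cons 0x3456709821 (.cons 0x7456109823 (.cons 0x5476109823 (.cons 0x7456132890 .nil)))) .done (.node 0 6 (.cons 0x5437609812 .nil) (.node 2 6 (.cons 0x5437621890 .nil)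 (.node 1 4 (.cons 0x5623147890 .nil) (.node 0 4 (.cons 0x9876512340 .nil) (.node 1 9 (.cons 0x3265198740 .nil) .done .done) .done) .done) (.node 7 9 (.cons 0x2798134560 .nil) (.node 1 4 (.cons 0x8972314560 .nil) (.node 1 9 (.cons 0x8913456072 .nil) .done .done) .done) .done)) .done)) .done)) (.node 2 5 (.cons 0x6734521890 .nil) (.node 0 5 (.cons 0x6734509812 .nil) (.node 1 6 (.cons 0x7890561234 .nil) (.node 2 6 (.cons 0x5437621890 .nil) (.node 7 9 (.cons 0x6218973450 .nil) (.node 5 7 .nil (.node 2 4 (.cons 0x6524318790 (.cons 0x8907561243 (.cons 0x3426189750 .nil))) .done .done) .done) .done) .done) (.node 1 4 (.cons 0x6509872314 .nil) (.node 1 6 (.cons 0x5098761432 .nil) (.node 3 5 (.cons 0x8905327614 .nil) .done .done) .done) .done)) (.node 1 6 (.cons 0x8907345216 .nil) (.node 1 4 .nil (.node 5 8 (.cons 0x6125890734 (.cons 0x6143709852 (.cons 0x6732145890 .nil))) .done (.node 1 9 .nil (.node 0 5 (.cons 0x6734509812 (.cons 0x8765091234 .nil)) (.node 2 6 (.cons 0x9876234150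 (.cons 0x4319870562 (.cons 0x8190543762 .nil))) .done .done) .done) .done)) .done) .done)) .done)) .done)) (.node 1 6 .nil (.node 5 8 (.cons 0x6732109854 (.cons 0x2167345890 (.cons 0x4589016732 .nil))) (.node 4 7 (.cons 0x6589074312 (.cons 0x6109854732 .nil)) (.node 2 7 (.cons 0x6589072134 .nil) (.node 0 4 (.cons 0x9876512340 (.cons 0x9043216587 (.cons 0x7890432165 (.cons 0x9856132740 .nil)))) (.node 0 8 (.cons 0x9804516723 .nil) (.node 6 9 (.cons 0x7698043215 (.cons 0x2154376980 (.cons 0x2374589610 (.cons 0x4512376980 .nil)))) .done .done) .done) .done) .done) (.node 2 5 (.cons 0x8907652134 (.cons 0x8907345216 .nil)) (.node 0 5 (.cons 0x7890561234 .nil) (.node 5 7 (.cons 0x4321657890 .nil) (.node 0 2 (.cons 0x4320987561 (.cons 0x8902345761 .nil)) (.node 1 8 (.cons 0x7561890234 (.cons 0x2345761890 (.cons 0x6734509812 .nil))) .done .done) .done) (.node 1 4 (.cons 0x7890561432 (.cons 0x5098761432 .nil)) (.node 2 8 (.cons 0x3456709821 (.cons 0x9823761054 (.cons 0x7098216543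 (.cons 0x9052876143 .nil)))) .done .done) .done)) .done) .done)) (.node 1 8 (.cons 0x7654321890 .nil) (.node 1 4 .nil (.node 1 9 .nil (.node 3 8 (.cons 0x7654109832 (.cons 0x2198345670 .nil)) .done (.node 6 8 (.cons 0x5410986732 (.cons 0x5412376890 .nil)) (.node 0 5 (.cons 0x8905437612 (.cons 0x7345098612 (.cons 0x8671905432 .nil))) (.node 7 9 (.cons 0x6509781234 (.cons 0x2345681790 (.cons 0x6812379054 .nil))) .done .done) (.node 3 8 (.cons 0x7654109832 .nil) (.node 2 5 (.cons 0x3452198670 (.cons 0x9125438670 (.cons 0x4521673890 .nil))) (.node 0 6 (.cons 0x9860734521 (.cons 0x9125438607 (.cons 0x9860734125 (.cons 0x7890652341 .nil)))) .done .done) .done) .done)) .done)) (.node 1 9 .nil (.node 0 5 (.cons 0x8905437612 (.cons 0x8765091234 .nil)) (.node 4 6 (.cons 0x7890564321 (.cons 0x7891234650 (.cons 0x8719056432 .nil))) (.node 0 4 (.cons 0x9876512340 .nil) (.node 2 5 (.cons 0x9078125643 (.cons 0x8765234091 (.cons 0x7819046523 .nil))) .done .done) .done) (.node 2 8 (.cons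 0x5437612890 (.cons 0x2891673450 (.cons 0x8234509176 .nil))) (.node 2 7 (.cons 0x6189054372 .nil) (.node 0 4 (.cons 0x9876512340 (.cons 0x9187234056 (.cons 0x6504327891 .nil))) .done .done) .done) .done)) .done) .done)) (.node 5 7 (.cons 0x6754321890 .nil) (.node 0 5 (.cons 0x8905437612 .nil) (.node 1 9 (.cons 0x8765091234 .nil) (.node 1 4 .nil (.node 0 6 (.cons 0x2345760981 (.cons 0x5760981432 .nil)) (.node 2 5 (.cons 0x6709812543 (.cons 0x7890652341 (.cons 0x8906732541 .nil))) .done .done) .done) .done) (.node 4 7 (.cons 0x6509874321 .nil) (.node 2 7 (.cons 0x8905437216 .nil) (.node 7 9 .nil (.node 4 6 (.cons 0x7890564321 (.cons 0x8790564321 (.cons 0x8974650132 .nil))) .done .done) .done) .done) .done)) (.node 2 5 (.cons 0x6709812543 .nil) (.node 1 4 .nil (.node 3 9 (.cons 0x8125439076 (.cons 0x8709341256 (.cons 0x8765239014 .nil))) .done (.node 1 9 .nil (.node 3 8 (.cons 0x9078341256 (.cons 0x2198345670 (.cons 0x6521907834 (.cons 0x6709183452 .nil)))) .done .done) .done))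 (.node 0 5 (.cons 0x8905437612 .nil) (.node 7 9 (.cons 0x8123450976 .nil) (.node 4 7 (.cons 0x8907431256 .nil) (.node 2 7 .nil (.node 4 8 (.cons 0x9056784321 (.cons 0x8431650972 (.cons 0x5672134890 (.cons 0x7256134890 .nil)))) .done .done) .done) .done) (.node 2 7 (.cons 0x6723450981 .nil) (.node 1 4 (.cons 0x6143789052 .nil) (.node 1 9 .nil (.node 4 6 (.cons 0x5216437890 (.cons 0x3465219870 (.cons 0x5091876432 (.cons 0x8913465270 .nil)))) .done .done) .done) .done) .done)) .done)) .done)) .done)) .done)) .done)) (.node 1 3 (.cons 0x8907654312 .nil) (.node 1 8 (.cons 0x7654321890 .nil) (.node 0 8 (.cons 0x9807654312 .nil) (.node 2 7 (.cons 0x9807213456 .nil) (.node 4 7 (.cons 0x6512347890 .nil) (.node 5 7 (.cons 0x6754321890 .nil) (.node 7 9 (.cons 0x6547980132 .nil) .done .done) .done) (.node 7 9 (.cons 0x8097123456 .nil) (.node 4 7 (.cons 0x6512347890 .nil) (.node 5 7 (.cons 0x6754321890 .nil) .done .done) .done) .done)) (.node 1 4 .nil (.node 2 5 (.cons 0x6709812543 (.cons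 0x9801452376 (.cons 0x9087652341 .nil))) (.node 2 7 (.cons 0x9801327654 (.cons 0x9801456723 .nil)) .done .done) (.node 1 9 (.cons 0x8091765432 .nil) (.node 1 6 .nil (.node 2 9 (.cons 0x8921345670 (.cons 0x5617809234 (.cons 0x5431670892 .nil))) (.node 2 5 (.cons 0x6731452980 (.cons 0x3761452980 (.cons 0x8092541673 .nil))) .done .done) .done) .done) .done)) .done)) (.node 0 5 (.cons 0x6734509812 .nil) (.node 0 6 (.cons 0x5437609812 .nil) (.node 1 6 .nil (.node 2 5 (.cons 0x6734521890 .nil) (.node 0 8 (.cons 0x9807654312 (.cons 0x9807345216 (.cons 0x9807612543 (.cons 0x9801673254 .nil)))) .done (.node 0 4 (.cons 0x5678904321 (.cons 0x7890432165 (.cons 0x8904523761 .nil))) (.node 3 8 (.cons 0x9831254076 (.cons 0x7098345612 (.cons 0x9831670452 .nil))) .done .done) .done)) .done) (.node 1 4 (.cons 0x7890651432 .nil) (.node 0 4 (.cons 0x5678904321 .nil) (.node 1 6 (.cons 0x7890432165 .nil) (.node 1 9 (.cons 0x8765091234 .nil) .done .done) .done) .done) .done)) (.node 1 6 .nil (.node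 1 4 (.cons 0x5098761432 .nil) .done (.node 0 6 (.cons 0x5437609812 .nil) (.node 1 4 .nil (.node 2 6 (.cons 0x5437621890 (.cons 0x6237890514 .nil)) (.node 2 8 (.cons 0x9821345670 (.cons 0x9826143705 (.cons 0x7614328905 (.cons 0x6732890541 .nil)))) .done .done) (.node 1 9 .nil (.node 0 4 (.cons 0x5678904321 .nil) (.node 2 6 (.cons 0x5437621890 (.cons 0x5621987043 (.cons 0x7891326504 .nil))) .done .done) .done) .done)) .done) .done)) .done)) .done)) (.node 4 7 (.cons 0x6512347890 .nil) (.node 2 7 .nil (.node 4 6 (.cons 0x8901237645 (.cons 0x3465127890 (.cons 0x1564327890 .nil))) (.node 3 8 (.cons 0x9078346512 (.cons 0x6543890721 (.cons 0x4567238901 .nil))) (.node 1 8 (.cons 0x7654321890 (.cons 0x3456721890 .nil)) (.node 3 6 (.cons 0x5436709812 (.cons 0x6345189072 .nil)) .done .done) .done) .done) (.node 2 5 (.cons 0x8907652134 .nil) (.node 2 8 (.cons 0x3456709821 .nil) (.node 5 7 (.cons 0x6570982134 .nil) (.node 7 9 .nil (.node 0 6 (.cons 0x9874321560 (.cons 0x8790651234 (.cons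 0x8974321560 (.cons 0x3289745601 .nil)))) .done .done) .done) (.node 7 9 .nil (.node 0 6 (.cons 0x9874321560 (.cons 0x8790651234 (.cons 0x8974321560 (.cons 0x6015479823 .nil)))) .done (.node 5 7 .nil (.node 4 6 (.cons 0x6431528970 (.cons 0x5764312890 (.cons 0x6431570982 .nil))) (.node 0 6 (.cons 0x9874321560 (.cons 0x8234609751 (.cons 0x9064328751 .nil))) .done .done) .done) .done)) .done)) (.node 0 5 .nil (.node 6 8 (.cons 0x6890734512 (.cons 0x9867321054 (.cons 0x4509867321 .nil))) (.node 0 2 (.cons 0x9865021347 (.cons 0x9867431205 .nil)) (.node 1 9 (.cons 0x8673452190 (.cons 0x5021986743 (.cons 0x8912056743 .nil))) .done .done) (.node 2 4 (.cons 0x5423768901 (.cons 0x9865013247 (.cons 0x9867423105 .nil))) .done .done)) (.node 5 7 .nil (.node 2 6 (.cons 0x8907345126 .nil) (.node 0 8 (.cons 0x9807345126 (.cons 0x9807562134 .nil)) (.node 2 8 (.cons 0x3456709821 (.cons 0x6570982134 .nil)) .done .done) (.node 4 8 (.cons 0x4890567231 (.cons 0x3489075621 (.cons 0x6754890123 (.cons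 0x6215734890 (.cons 0x6237510984 .nil))))) .done .done)) .done) .done)) .done)) .done)) (.node 7 9 .nil (.node 0 6 (.cons 0x2347890651 (.cons 0x8790651234 .nil)) (.node 4 8 (.cons 0x5670984312 (.cons 0x7984321560 (.cons 0x8432179065 .nil))) (.node 0 4 (.cons 0x5678904321 (.cons 0x8790432156 .nil)) (.node 1 8 (.cons 0x7654321890 (.cons 0x2347981560 .nil)) (.node 6 8 (.cons 0x6890734512 (.cons 0x5689704312 (.cons 0x5179068432 (.cons 0x8654097123 .nil)))) .done .done) .done) (.node 2 7 (.cons 0x3489721560 .nil) (.node 1 8 (.cons 0x7654321890 (.cons 0x2347981560 .nil)) (.node 2 6 (.cons 0x3156274890 (.cons 0x5189743260 (.cons 0x8437906215 .nil))) .done .done) .done) .done)) (.node 2 8 (.cons 0x3456709821 (.cons 0x4315607982 (.cons 0x8234560971 (.cons 0x8234517906 .nil)))) (.node 2 7 (.cons 0x4327890651 .nil) (.node 4 8 (.cons 0x5670984312 (.cons 0x6015489732 (.cons 0x3279845601 (.cons 0x6015489723 (.cons 0x2798431560 .nil))))) .done .done) .done) .done)) (.node 2 7 .nil (.node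 6 8 (.cons 0x6890734512 (.cons 0x2743156890 (.cons 0x4315689072 (.cons 0x4723156890 .nil)))) (.node 3 8 (.cons 0x6547238901 (.cons 0x4567238901 .nil)) (.node 4 6 (.cons 0x8901237645 (.cons 0x4651238790 (.cons 0x3465127890 .nil))) .done .done) .done) (.node 5 7 .nil (.node 4 8 (.cons 0x5670984312 (.cons 0x6570984312 (.cons 0x6754890123 .nil))) (.node 1 8 (.cons 0x7654321890 (.cons 0x6754321890 .nil)) (.node 6 8 (.cons 0x6890734512 .nil) (.node 2 4 (.cons 0x9865134270 (.cons 0x7568901324 (.cons 0x3245768901 .nil))) (.node 0 2 (.cons 0x5674318902 (.cons 0x6574318902 (.cons 0x9024318675 (.cons 0x9024375186 .nil)))) .done .done) (.node 1 4 (.cons 0x5412376890 (.cons 0x3214576890 .nil)) .done .done)) .done) (.node 1 8 (.cons 0x7654321890 (.cons 0x6754321890 .nil)) (.node 0 6 (.cons 0x2347890651 (.cons 0x6098437512 .nil)) (.node 2 9 (.cons 0x9234781560 (.cons 0x3487560921 (.cons 0x6092157843 (.cons 0x8437512906 .nil)))) .done (.node 1 4 (.cons 0x9872341560 (.cons 0x6098751432 .nil))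 .done .done)) .done) .done)) .done) .done)) .done)) .done)) .done)) (.node 1 8 (.cons 0x7654321890 .nil) tc9_0_26 .done)))
noncomputable def tc9_0_28 : T := (.node 1 3 (.cons 0x8907654312 .nil) (.node 1 6 .nil (.node 5 8 (.cons 0x6732109854 (.cons 0x4589016732 .nil)) (.node 1 4 .nil (.node 3 8 (.cons 0x7654109832 (.cons 0x7098345612 .nil)) .done (.node 0 4 (.cons 0x5678904321 (.cons 0x7890432165 (.cons 0x9854016732 .nil))) (.node 0 5 (.cons 0x7890561234 (.cons 0x5098761432 .nil)) (.node 4 8 (.cons 0x7654890123 (.cons 0x9056784312 (.cons 0x5489016732 .nil))) .done .done) .done) .done)) (.node 1 4 (.cons 0x6732145890 .nil) (.node 0 4 (.cons 0x5678904321 (.cons 0x7890432165 .nil)) (.node 5 9 (.cons 0x8765904321 (.cons 0x6123785904 (.cons 0x7816590432 .nil))) .done (.node 2 8 (.cons 0x6734512890 (.cons 0x9823761045 (.cons 0x9045823167 .nil))) .done .done)) .done) .done)) (.node 0 6 (.cons 0x8906734512 .nil) (.node 7 9 (.cons 0x5609781234 .nil) (.node 1 4 (.cons 0x5609781432 .nil)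 (.node 1 9 .nil (.node 0 8 (.cons 0x9718065432 (.cons 0x2345671980 .nil)) (.node 0 5 (.cons 0x9805432176 (.cons 0x6719805432 .nil)) (.node 4 7 (.cons 0x6509874321 (.cons 0x8743219056 .nil)) .done .done) .done) .done) .done) (.node 2 7 .nil (.node 0 4 (.cons 0x5678904321 (.cons 0x6512789043 (.cons 0x7234098165 .nil))) (.node 3 5 (.cons 0x6789043512 (.cons 0x8907216534 (.cons 0x4356189072 .nil))) (.node 0 8 (.cons 0x6798045321 (.cons 0x9804351672 .nil)) .done .done) .done) (.node 5 7 (.cons 0x9065781234 .nil) (.node 4 7 (.cons 0x2347561890 .nil) .done .done) .done)) .done)) (.node 2 7 (.cons 0x9817234560 .nil) (.node 1 9 (.cons 0x5609187234 .nil) (.node 1 4 .nil (.node 2 5 (.cons 0x5234198760 (.cons 0x9871432560 (.cons 0x8906732541 .nil))) (.node 3 8 (.cons 0x8345190672 (.cons 0x7601983254 (.cons 0x7654109832 .nil))) .done .done) .done) .done) (.node 3 6 (.cons 0x4518906372 .nil) (.node 2 6 (.cons 0x7345189062 .nil) (.node 7 9 (.cons 0x8154379062 .nil) (.node 1 4 (.cons 0x5623418790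 .nil) (.node 0 8 (.cons 0x5410897632 .nil) (.node 1 9 (.cons 0x5436708912 .nil) .done .done) .done) .done) .done) .done) .done)) .done)) .done)) (.node 1 6 .nil (.node 5 8 (.cons 0x6732109854 (.cons 0x4589016732 .nil)) (.node 0 4 (.cons 0x5678904321 (.cons 0x7890432165 (.cons 0x9854016732 .nil))) (.node 3 8 (.cons 0x9043876512 .nil) (.node 0 2 (.cons 0x9856702134 (.cons 0x9834561702 (.cons 0x7615438902 .nil))) (.node 2 9 (.cons 0x4312985670 (.cons 0x2983456170 (.cons 0x3458921670 (.cons 0x8376154092 .nil)))) .done .done) .done) (.node 7 9 (.cons 0x6798540123 (.cons 0x3216798540 .nil)) (.node 0 2 (.cons 0x6798513402 (.cons 0x5618790234 (.cons 0x8971654320 .nil))) (.node 3 9 (.cons 0x4398567021 (.cons 0x7021658934 .nil)) .done .done) .done) .done)) (.node 2 5 (.cons 0x8907652134 (.cons 0x8907345216 .nil)) (.node 0 8 (.cons 0x9807652134 (.cons 0x9807612543 (.cons 0x9801673254 .nil))) .done (.node 3 9 (.cons 0x6521870934 (.cons 0x4390781652 .nil)) (.node 0 4 (.cons 0x5678904321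 (.cons 0x7856123904 (.cons 0x7890432165 (.cons 0x9043256187 .nil)))) (.node 2 4 (.cons 0x3421567890 (.cons 0x6124589370 (.cons 0x6124589073 .nil))) .done .done) .done) .done)) .done)) (.node 0 6 (.cons 0x8906734512 .nil) (.node 2 6 (.cons 0x7098126543 .nil) (.node 3 6 .nil (.node 2 4 (.cons 0x3421567890 (.cons 0x9078124365 (.cons 0x5124367890 .nil))) (.node 2 5 (.cons 0x8907652134 (.cons 0x9078125634 (.cons 0x6370981254 .nil))) .done .done) (.node 4 6 (.cons 0x8901237645 .nil) (.node 6 8 (.cons 0x2154376890 .nil) (.node 6 9 .nil (.node 0 5 (.cons 0x4509867321 (.cons 0x5096437812 (.cons 0x4378962150 (.cons 0x7326981054 .nil)))) .done .done) .done) .done) .done)) (.node 2 7 .nil (.node 3 8 (.cons 0x4512673890 (.cons 0x4567238901 .nil)) (.node 4 8 (.cons 0x3762154890 (.cons 0x5127609843 (.cons 0x5672134890 (.cons 0x2765134890 .nil)))) .done .done) (.node 4 7 (.cons 0x7432189065 .nil) (.node 5 7 (.cons 0x4756231890 .nil) (.node 7 9 .nil (.node 0 5 (.cons 0x6237450981 (.cons 0x6509781234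 (.cons 0x8790561234 (.cons 0x8162379054 .nil)))) .done .done) .done) .done) .done)) .done)) (.node 2 7 (.cons 0x9817234560 .nil) (.node 1 9 (.cons 0x5609187234 .nil) (.node 1 4 .nil (.node 2 5 (.cons 0x8907652134 (.cons 0x5234198760 (.cons 0x9871432560 (.cons 0x8906732541 .nil)))) .done .done) .done) (.node 3 6 (.cons 0x4518906372 .nil) (.node 4 6 (.cons 0x8901237645 .nil) (.node 3 8 (.cons 0x5467389012 .nil) (.node 1 4 (.cons 0x1456723890 .nil) (.node 0 8 (.cons 0x9083276145 .nil) (.node 1 9 (.cons 0x5436708912 .nil) .done .done) .done) .done) .done) .done) .done)) .done)) .done)) .done)) (.node 0 6 (.cons 0x8906734512 .nil) (.node 1 6 .nil (.node 0 5 (.cons 0x7890561234 (.cons 0x7618905432 .nil)) (.node 2 6 (.cons 0x9812670543 (.cons 0x8905126734 .nil)) (.node 2 8 (.cons 0x6734512890 (.cons 0x7098216543 .nil)) (.node 2 5 (.cons 0x8907345216 .nil) (.node 3 8 (.cons 0x4512673890 (.cons 0x7098345612 (.cons 0x9076183452 .nil))) .done .done) .done) .done) .done) (.node 1 9 .nil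 (.node 5 7 (.cons 0x6754321890 (.cons 0x8190675432 .nil)) (.node 0 8 (.cons 0x9081234576 (.cons 0x6578091234 (.cons 0x2345671980 .nil))) .done (.node 5 8 (.cons 0x6732109854 (.cons 0x7856091234 (.cons 0x7609185432 .nil))) (.node 7 9 (.cons 0x2345819760 .nil) .done .done) .done)) (.node 1 3 (.cons 0x8907654312 .nil) (.node 1 4 .nil (.node 5 9 (.cons 0x5906781234 (.cons 0x5906781432 .nil)) (.node 5 8 (.cons 0x7856091234 (.cons 0x6095873214 (.cons 0x7856091432 .nil))) (.node 0 4 (.cons 0x9587321406 (.cons 0x9587604123 (.cons 0x8765904132 .nil))) .done .done) .done) .done) .done) .done)) .done)) (.node 1 6 .nil (.node 5 7 (.cons 0x6754321890 (.cons 0x2345761890 .nil)) (.node 0 8 (.cons 0x9081234576 (.cons 0x9087561234 (.cons 0x9081675432 .nil))) .done (.node 0 4 (.cons 0x5678904321 (.cons 0x4098756123 (.cons 0x8904576123 .nil))) (.node 3 8 (.cons 0x9043876512 (.cons 0x7098345612 (.cons 0x9045761832 .nil))) (.node 5 8 (.cons 0x4376098512 (.cons 0x9043216587 (.cons 0x4589016732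 .nil))) .done .done) (.node 2 8 (.cons 0x6734512890 (.cons 0x9823761045 (.cons 0x7098216543 (.cons 0x5409823761 .nil)))) .done .done)) .done)) (.node 3 6 (.cons 0x5436709812 .nil) (.node 1 4 .nil (.node 6 8 (.cons 0x2154376890 (.cons 0x5410986732 (.cons 0x5412376890 .nil))) (.node 4 6 (.cons 0x8901237645 .nil) (.node 3 5 (.cons 0x4537689012 (.cons 0x7890146532 (.cons 0x4109876532 .nil))) (.node 2 9 (.cons 0x5329018764 (.cons 0x5634129870 (.cons 0x8764109235 (.cons 0x8673541290 .nil)))) (.node 0 5 (.cons 0x7681290534 (.cons 0x9870563412 (.cons 0x8923417650 .nil))) .done .done) .done) .done) .done) (.node 1 3 (.cons 0x8907654312 .nil) (.node 1 9 .nil (.node 0 5 (.cons 0x9870563412 (.cons 0x8765091234 (.cons 0x4365078912 .nil))) (.node 2 6 (.cons 0x9817623450 (.cons 0x8914507362 .nil)) .done .done) .done) .done) .done)) (.node 0 3 (.cons 0x4309876512 .nil) (.node 0 2 (.cons 0x7634518902 .nil) (.node 0 5 .nil (.node 2 4 (.cons 0x9871563420 (.cons 0x9810542367 (.cons 0x9051876342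 (.cons 0x2436789051 .nil)))) .done (.node 0 8 .nil (.node 2 4 (.cons 0x9871563420 (.cons 0x9806734215 (.cons 0x9087651243 (.cons 0x9801763245 .nil)))) .done .done) .done)) (.node 1 4 (.cons 0x5143678902 .nil) (.node 0 4 (.cons 0x5678904321 .nil) (.node 1 3 (.cons 0x8907654312 .nil) (.node 1 9 .nil (.node 2 4 (.cons 0x3421567890 (.cons 0x5198763420 (.cons 0x8763420915 .nil))) .done .done) .done) .done) .done) .done)) (.node 1 3 (.cons 0x8907654312 .nil) (.node 3 9 .nil (.node 0 2 (.cons 0x7634518902 (.cons 0x8765120934 .nil)) (.node 2 8 (.cons 0x6734512890 (.cons 0x1289345670 (.cons 0x6543982170 (.cons 0x4517639820 .nil)))) .done .done) .done) .done) .done)) .done)) .done)) (.node 0 5 (.cons 0x9817605432 .nil) (.node 0 8 .nil (.node 1 9 (.cons 0x8765091234 (.cons 0x7198065432 .nil)) (.node 2 5 (.cons 0x6709812543 (.cons 0x4376089152 (.cons 0x7198065234 .nil))) (.node 3 9 (.cons 0x4523981760 (.cons 0x6543980712 (.cons 0x4567108932 .nil))) .done .done) .done) (.node 0 3 (.cons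 0x4309876512 .nil) (.node 0 2 (.cons 0x9817602345 .nil) (.node 0 4 (.cons 0x5678904321 .nil) .done .done) .done) .done)) (.node 0 8 .nil (.node 3 9 (.cons 0x6543980712 (.cons 0x4567108932 .nil)) (.node 2 4 (.cons 0x3421567890 (.cons 0x6507893421 (.cons 0x8765124390 (.cons 0x2439871560 (.cons 0x6051789342 .nil))))) .done (.node 2 4 (.cons 0x3421567890 (.cons 0x7651243980 (.cons 0x9087651243 (.cons 0x7156089342 (.cons 0x5176089342 .nil))))) .done .done)) .done) .done)) .done))) .done))
noncomputable def tc9_0_29 : T := (.node 1 3 (.cons 0x8907654312 .nil) (.node 1 8 (.cons 0x7654321890 .nil) (.node 0 8 (.cons 0x9087651234 .nil) (.node 0 5 .nil (.node 4 6 (.cons 0x8901237645 (.cons 0x9870564312 (.cons 0x7890564312 (.cons 0x9051876432 .nil)))) (.node 4 7 (.cons 0x9087432156 .nil) (.node 2 6 (.cons 0x9087432651 (.cons 0x9810547623 (.cons 0x9805623471 (.cons 0x4789056231 .nil)))) .done .done) .done) (.node 5 7 (.cons 0x6754321890 .nil) (.node 7 9 (.cons 0x6543217980 .nil) (.node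 2 7 (.cons 0x6723450981 .nil) (.node 4 7 (.cons 0x9087432156 .nil) .done .done) .done) .done) .done)) (.node 1 4 (.cons 0x9087651432 .nil) (.node 1 9 (.cons 0x2345671980 .nil) (.node 1 6 .nil (.node 2 9 (.cons 0x1765432980 (.cons 0x7165432980 (.cons 0x5167809234 (.cons 0x8092376154 .nil)))) .done .done) .done) .done) .done)) (.node 0 5 (.cons 0x6734509812 .nil) (.node 1 6 (.cons 0x7890561234 .nil) (.node 0 8 (.cons 0x9087651234 .nil) (.node 0 4 (.cons 0x5678904321 .nil) (.node 0 6 (.cons 0x5437609812 .nil) (.node 4 7 (.cons 0x6509874321 .nil) (.node 0 3 (.cons 0x7654309812 .nil) (.node 0 2 .nil (.node 4 6 (.cons 0x9871234650 (.cons 0x9870213465 (.cons 0x9871205643 .nil))) .done .done) .done) .done) .done) (.node 0 6 (.cons 0x5437609812 .nil) (.node 4 7 (.cons 0x6509874321 .nil) (.node 2 7 (.cons 0x3456721890 .nil) (.node 2 5 (.cons 0x6734521890 .nil) (.node 2 6 (.cons 0x5437621890 .nil) .done .done) .done) .done) .done) .done)) (.node 1 4 (.cons 0x9087651432 .nil) (.node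 1 9 (.cons 0x2345671980 .nil) .done .done) .done)) .done) (.node 1 6 .nil (.node 1 4 (.cons 0x5098761432 .nil) .done (.node 0 6 (.cons 0x5437609812 .nil) (.node 0 3 (.cons 0x7654309812 .nil) (.node 5 7 .nil (.node 0 4 (.cons 0x5678904321 (.cons 0x6578904321 (.cons 0x8904321675 .nil))) .done (.node 2 7 (.cons 0x3456721890 .nil) (.node 3 9 (.cons 0x8127654390 .nil) (.node 7 9 .nil (.node 0 2 (.cons 0x8932017654 (.cons 0x8179345602 .nil)) (.node 0 4 (.cons 0x5678904321 (.cons 0x8971650432 .nil)) .done .done) .done) .done) .done) .done)) .done) .done) .done)) .done)) .done)) (.node 1 6 .nil (.node 0 5 (.cons 0x7890561234 .nil) (.node 4 8 (.cons 0x5670984312 (.cons 0x9845012376 (.cons 0x9051234876 (.cons 0x7650984312 (.cons 0x5489016732 .nil))))) (.node 5 7 (.cons 0x6109845732 (.cons 0x6123754890 .nil)) .done .done) (.node 2 8 (.cons 0x3456709821 (.cons 0x9823761054 (.cons 0x7098216543 (.cons 0x9051678234 (.cons 0x4509823761 .nil))))) .done .done)) (.node 0 5 (.cons 0x8905437612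 .nil) (.node 0 8 (.cons 0x9087651234 .nil) (.node 1 8 (.cons 0x7654321890 .nil) (.node 2 5 (.cons 0x8907652134 .nil) (.node 2 8 (.cons 0x5437612890 .nil) (.node 3 5 (.cons 0x4537612890 .nil) (.node 1 4 (.cons 0x4109876532 .nil) (.node 1 9 (.cons 0x6708912543 .nil) .done .done) .done) .done) (.node 2 8 (.cons 0x5437612890 .nil) (.node 3 8 (.cons 0x4521673890 .nil) (.node 4 8 (.cons 0x3761254890 .nil) (.node 5 8 (.cons 0x2167345890 .nil) .done .done) .done) .done) .done)) .done) (.node 1 8 (.cons 0x7654321890 .nil) (.node 1 4 (.cons 0x9087651432 .nil) (.node 1 9 (.cons 0x2345671980 .nil) .done .done) (.node 1 4 (.cons 0x9087651432 .nil) (.node 1 9 (.cons 0x2345671980 .nil) .done .done) .done)) .done)) (.node 0 8 (.cons 0x9087651234 .nil) (.node 1 8 (.cons 0x7654321890 .nil) (.node 5 7 (.cons 0x6754321890 .nil) (.node 2 7 (.cons 0x6723450981 .nil) (.node 1 9 (.cons 0x8190543276 .nil) (.node 1 4 (.cons 0x8723419056 .nil) .done .done) .done) .done) .done) (.node 1 8 (.cons 0x7654321890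 .nil) (.node 1 9 (.cons 0x6719805432 .nil) (.node 1 4 .nil (.node 2 5 (.cons 0x8907652134 (.cons 0x6789143250 (.cons 0x6143789052 .nil))) (.node 3 6 (.cons 0x6370981254 (.cons 0x4198763250 (.cons 0x8763250914 (.cons 0x6370981452 .nil)))) .done .done) .done) .done) .done) .done)) .done)) .done)) .done)) (.node 1 8 (.cons 0x7654321890 .nil) (.node 4 7 (.cons 0x6512347890 .nil) (.node 0 8 (.cons 0x9087432156 .nil) (.node 2 7 .nil (.node 4 6 (.cons 0x8901237645 (.cons 0x3465127890 (.cons 0x1564327890 .nil))) (.node 1 3 (.cons 0x8907654312 (.cons 0x9807213465 .nil)) (.node 3 6 (.cons 0x5436709812 (.cons 0x8907215634 (.cons 0x6345189072 .nil))) .done .done) .done) (.node 5 7 (.cons 0x6754321890 .nil) (.node 7 9 (.cons 0x6543217980 .nil) .done .done) .done)) (.node 0 5 .nil (.node 6 8 (.cons 0x6890734512 (.cons 0x9867321054 (.cons 0x4509867321 .nil))) (.node 6 9 (.cons 0x8743215690 (.cons 0x8123476905 (.cons 0x6905187432 .nil))) (.node 2 4 (.cons 0x3247809651 (.cons 0x6980542371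 (.cons 0x3245089671 .nil))) (.node 1 9 (.cons 0x2345671980 (.cons 0x5081967423 (.cons 0x3421987650 .nil))) .done .done) .done) .done) (.node 0 6 (.cons 0x7890651234 .nil) (.node 2 7 (.cons 0x9806517234 .nil) (.node 5 7 (.cons 0x6754321890 .nil) (.node 7 9 (.cons 0x8123450976 .nil) .done .done) .done) .done) .done)) .done)) (.node 5 7 (.cons 0x6754321890 .nil) (.node 0 5 .nil (.node 2 6 (.cons 0x1562347890 (.cons 0x9810547623 (.cons 0x9051874326 (.cons 0x3267450981 .nil)))) (.node 4 8 (.cons 0x7654890123 (.cons 0x9843705126 (.cons 0x9847105623 (.cons 0x5098437621 .nil)))) .done .done) (.node 0 8 (.cons 0x9081234576 .nil) (.node 2 7 (.cons 0x6723450981 .nil) (.node 7 9 (.cons 0x6543217980 .nil) .done .done) .done) .done)) (.node 7 9 .nil (.node 0 6 (.cons 0x2347890651 (.cons 0x8790651234 .nil)) (.node 2 5 (.cons 0x5234760981 (.cons 0x8152347906 .nil)) (.node 0 4 (.cons 0x5678904321 (.cons 0x8790432156 (.cons 0x8971234065 .nil))) (.node 3 8 (.cons 0x6754098321 (.cons 0x4567983210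 (.cons 0x4798325601 (.cons 0x6798325401 .nil)))) .done .done) .done) (.node 0 5 (.cons 0x9817605432 (.cons 0x8123450976 .nil)) .done .done)) .done) .done)) .done)) (.node 0 5 (.cons 0x6734509812 .nil) (.node 0 6 (.cons 0x5437609812 .nil) (.node 4 7 (.cons 0x6512347890 .nil) (.node 2 7 (.cons 0x3456721890 .nil) (.node 2 5 (.cons 0x6734521890 .nil) (.node 2 6 (.cons 0x5437621890 .nil) (.node 1 6 .nil (.node 0 8 (.cons 0x9081267345 (.cons 0x9087432165 (.cons 0x9807612543 (.cons 0x9801673254 .nil)))) .done .done) .done) .done) .done) (.node 1 6 .nil (.node 2 5 (.cons 0x6734521890 (.cons 0x8906152374 .nil)) (.node 0 8 (.cons 0x9806517432 (.cons 0x9807345216 (.cons 0x9801674523 (.cons 0x9801673254 .nil)))) .done .done) (.node 1 3 (.cons 0x8907654312 .nil) (.node 1 9 (.cons 0x8765091234 .nil) (.node 1 4 .nil (.node 2 6 (.cons 0x5437621890 (.cons 0x3265147890 .nil)) (.node 0 3 (.cons 0x7654309812 (.cons 0x9870341265 (.cons 0x9870341562 .nil))) .done .done) .done) .done) .done) .done))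 .done)) (.node 0 4 (.cons 0x5678904321 .nil) (.node 0 3 (.cons 0x7654309812 .nil) (.node 0 2 (.cons 0x9871560234 .nil) (.node 0 8 .nil (.node 3 9 (.cons 0x5439817602 (.cons 0x6543980712 (.cons 0x4567108932 .nil))) .done .done) .done) .done) (.node 1 4 (.cons 0x7890651432 .nil) (.node 1 3 (.cons 0x8907654312 .nil) (.node 1 6 .nil (.node 4 8 (.cons 0x9056784321 (.cons 0x9056123487 (.cons 0x5489016732 .nil))) (.node 0 3 (.cons 0x7654309812 .nil) (.node 7 9 (.cons 0x8790651432 (.cons 0x7984561032 (.cons 0x7984561230 .nil))) .done .done) .done) .done) .done) .done) .done)) .done)) (.node 2 7 (.cons 0x3456721890 .nil) (.node 4 7 (.cons 0x6512347890 .nil) (.node 0 8 (.cons 0x9081276543 .nil) (.node 7 9 (.cons 0x6543217980 .nil) (.node 5 7 .nil (.node 4 6 (.cons 0x8901237645 (.cons 0x9801237546 (.cons 0x9087564321 .nil))) (.node 0 2 (.cons 0x7890215643 (.cons 0x9802175643 .nil)) (.node 1 3 (.cons 0x8907654312 (.cons 0x9087564312 (.cons 0x8902134675 .nil))) .done .done) .done) .done)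 .done) (.node 0 4 (.cons 0x5678904321 .nil) (.node 0 6 (.cons 0x2347890651 .nil) (.node 7 9 (.cons 0x8790432156 .nil) (.node 5 7 .nil (.node 4 6 (.cons 0x8790465123 (.cons 0x4608975123 (.cons 0x8906437512 .nil))) .done .done) .done) .done) (.node 5 7 (.cons 0x6578904321 .nil) (.node 2 5 (.cons 0x6734521890 .nil) (.node 5 8 (.cons 0x6732109854 .nil) .done .done) .done) .done)) .done)) .done) (.node 0 6 (.cons 0x5437609812 .nil) (.node 7 9 (.cons 0x8790651234 .nil) (.node 4 7 (.cons 0x6512347890 .nil) (.node 1 4 (.cons 0x8790651432 .nil) (.node 0 4 (.cons 0x5678904321 .nil) (.node 5 7 (.cons 0x6578904321 .nil) .done .done) .done) .done) .done) (.node 2 6 (.cons 0x5437621890 .nil) (.node 7 9 (.cons 0x4379815062 .nil) (.node 4 7 (.cons 0x6512347890 .nil) (.node 5 7 .nil (.node 0 8 (.cons 0x6237980154 (.cons 0x9806571234 (.cons 0x4326089751 .nil))) .done .done) .done) .done) (.node 1 6 .nil (.node 4 8 (.cons 0x7654890123 (.cons 0x9845016732 (.cons 0x9054816273 (.cons 0x9051623487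 (.cons 0x5489016732 .nil))))) .done .done) .done)) .done)) .done)) .done)) .done)) (.node 1 8 (.cons 0x7654321890 .nil) tc9_0_28 .done)))
noncomputable def tc9_0_30 : T := (.node 7 9 (.cons 0x4567983210 .nil) (.node 4 6 (.cons 0x8901237645 (.cons 0x5467389012 .nil)) (.node 4 7 .nil (.node 2 6 (.cons 0x7098345621 (.cons 0x8326547901 (.cons 0x3890745621 .nil))) (.node 1 3 (.cons 0x8974562310 (.cons 0x8907654312 (.cons 0x8907431265 .nil))) (.node 2 9 (.cons 0x5467012983 (.cons 0x5647012983 (.cons 0x8312907654 .nil))) .done .done) (.node 1 5 (.cons 0x4798326510 (.cons 0x4321567890 (.cons 0x8326510974 (.cons 0x5126743890 .nil)))) .done .done)) (.node 5 9 (.cons 0x8954673210 (.cons 0x9564783210 .nil)) (.node 0 2 (.cons 0x4387659021 (.cons 0x3465987120 (.cons 0x5467983201 (.cons 0x8347659021 .nil)))) (.node 1 8 (.cons 0x6734598120 (.cons 0x6547901832 (.cons 0x5467981023 .nil))) (.node 3 9 (.cons 0x5643987021 (.cons 0x8120934765 .nil)) .done .done) .done) (.node 0 4 (.cons 0x5678904321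 (.cons 0x3217895640 .nil)) (.node 5 7 (.cons 0x9832104576 .nil) .done (.node 0 8 (.cons 0x3217645980 .nil) (.node 3 9 (.cons 0x5640178932 (.cons 0x5643980712 .nil)) .done .done) .done)) .done)) .done)) (.node 4 7 (.cons 0x9012387465 .nil) (.node 0 8 (.cons 0x9087123465 .nil) (.node 5 9 (.cons 0x5908764321 (.cons 0x9564783210 (.cons 0x8376459012 (.cons 0x7645908321 .nil)))) .done (.node 3 9 (.cons 0x6547108932 .nil) (.node 2 4 (.cons 0x5674239801 (.cons 0x5642387901 .nil)) (.node 3 6 (.cons 0x9836701245 (.cons 0x8901763245 .nil)) .done .done) .done) .done)) .done) (.node 3 9 .nil (.node 2 8 (.cons 0x5467109823 (.cons 0x6543982170 (.cons 0x4567093821 .nil))) .done (.node 2 8 (.cons 0x6543982170 (.cons 0x5467109823 .nil)) (.node 4 7 (.cons 0x5647109823 .nil) (.node 0 3 (.cons 0x9823017465 (.cons 0x9823017456 .nil)) (.node 6 8 (.cons 0x9710328654 (.cons 0x2865430971 (.cons 0x4568230971 .nil))) .done .done) (.node 6 8 (.cons 0x9386547012 (.cons 0x7456839012 (.cons 0x8654712390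 .nil))) .done .done)) (.node 2 5 (.cons 0x4652398710 (.cons 0x8710932564 (.cons 0x8901732546 .nil))) (.node 6 8 (.cons 0x2546893701 (.cons 0x1254376890 .nil)) .done .done) .done)) (.node 1 5 (.cons 0x2346517890 .nil) (.node 2 9 (.cons 0x8923764510 (.cons 0x6451073892 .nil)) (.node 0 4 (.cons 0x9876512340 (.cons 0x9238764015 .nil)) (.node 2 5 (.cons 0x9873251046 (.cons 0x8392510764 (.cons 0x8901732546 (.cons 0x3256409871 .nil)))) .done (.node 2 5 (.cons 0x9876401523 (.cons 0x8392510764 (.cons 0x8901732546 (.cons 0x8932517640 .nil)))) .done .done)) (.node 0 4 (.cons 0x9876512340 (.cons 0x8392156704 (.cons 0x3298715640 (.cons 0x6704512983 .nil)))) .done .done)) (.node 4 9 (.cons 0x8765123490 (.cons 0x5109467832 (.cons 0x2156783490 .nil))) (.node 0 8 (.cons 0x9087156432 (.cons 0x6517809432 .nil)) (.node 2 5 (.cons 0x9087643251 (.cons 0x3256498710 (.cons 0x9087152346 (.cons 0x6490871523 .nil)))) .done .done) .done) (.node 0 2 (.cons 0x8902154376 (.cons 0x9021567834 (.cons 0x5643209871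 (.cons 0x7651209834 .nil)))) (.node 0 4 (.cons 0x5678904321 (.cons 0x9043876512 .nil)) (.node 2 7 (.cons 0x8932710465 (.cons 0x9043872156 (.cons 0x3890276451 .nil))) .done .done) .done) .done))) .done))) .done))) (.node 2 7 (.cons 0x6543890721 .nil) (.node 0 4 (.cons 0x5678904321 (.cons 0x9832765401 .nil)) (.node 1 9 (.cons 0x6543891270 (.cons 0x5678340912 .nil)) (.node 0 5 (.cons 0x6509871234 (.cons 0x6723891054 .nil)) (.node 4 6 (.cons 0x8901237645 (.cons 0x5467389012 (.cons 0x5467238910 .nil))) (.node 2 5 (.cons 0x8345219076 (.cons 0x9837012546 (.cons 0x3891254670 .nil))) .done .done) .done) (.node 4 7 (.cons 0x8321904765 .nil) (.node 5 8 (.cons 0x9104765832 (.cons 0x9104723856 (.cons 0x9127658340 (.cons 0x8567190432 (.cons 0x2385674091 .nil))))) .done .done) .done)) (.node 1 6 (.cons 0x7983216540 (.cons 0x5612387904 (.cons 0x9834072165 (.cons 0x3897216540 .nil)))) .done (.node 1 5 (.cons 0x6798321540 (.cons 0x8321540976 .nil)) (.node 4 6 (.cons 0x8901237645 (.cons 0x4651238790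 (.cons 0x5467389012 (.cons 0x2346517890 .nil)))) (.node 5 9 (.cons 0x8954673210 (.cons 0x6721045983 (.cons 0x6723895401 .nil))) .done .done) (.node 0 2 (.cons 0x8902154376 (.cons 0x9021567834 (.cons 0x7651209834 .nil))) (.node 0 8 (.cons 0x4567908321 .nil) (.node 3 6 (.cons 0x4563897021 (.cons 0x8367904512 (.cons 0x9802715634 (.cons 0x6389720451 .nil)))) .done .done) .done) .done)) .done))) (.node 4 6 (.cons 0x8901237645 (.cons 0x5467389012 .nil)) (.node 5 9 (.cons 0x8954673210 (.cons 0x6459837012 .nil)) (.node 0 8 (.cons 0x9546721083 .nil) (.node 1 6 (.cons 0x2164597380 (.cons 0x7216590834 (.cons 0x4561279083 .nil))) .done (.node 1 9 (.cons 0x6459108372 (.cons 0x3801954672 .nil)) (.node 2 9 (.cons 0x5467329801 (.cons 0x6459273801 (.cons 0x5467108923 .nil))) .done .done) .done)) (.node 0 2 (.cons 0x8954673201 (.cons 0x1789564320 (.cons 0x7645983201 .nil))) (.node 1 4 (.cons 0x8321456790 (.cons 0x5641207983 (.cons 0x7641023895 (.cons 0x5983764102 .nil)))) .done .done) .done))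 (.node 0 8 (.cons 0x9087123465 (.cons 0x5467908321 .nil)) (.node 0 4 (.cons 0x5678904321 (.cons 0x5640978321 .nil)) (.node 1 5 (.cons 0x6798321540 (.cons 0x8321540976 (.cons 0x4651238790 .nil))) (.node 0 2 (.cons 0x8902154376 (.cons 0x4651209783 (.cons 0x7651209834 .nil))) .done .done) .done) .done) (.node 1 8 (.cons 0x9072183456 (.cons 0x9018327645 .nil)) (.node 0 5 (.cons 0x9810546732 (.cons 0x2346509871 .nil)) (.node 1 4 (.cons 0x8321456790 (.cons 0x2387905641 (.cons 0x8321450976 (.cons 0x9056783412 .nil)))) .done (.node 0 2 (.cons 0x9812076543 (.cons 0x5643209871 (.cons 0x9817650234 .nil))) (.node 5 8 (.cons 0x6458901732 (.cons 0x6712098543 (.cons 0x3209854671 .nil))) .done .done) .done)) (.node 1 5 (.cons 0x2346517890 .nil) (.node 2 9 (.cons 0x8923764510 (.cons 0x6451073892 (.cons 0x5467290183 (.cons 0x4389215670 .nil)))) .done (.node 0 5 (.cons 0x6734509812 (.cons 0x2346509871 .nil)) (.node 0 8 (.cons 0x9087156432 (.cons 0x2380976451 .nil)) .done .done) .done)) .done))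 .done))) .done)) .done)) (.node 7 9 (.cons 0x4567983210 .nil) (.node 0 4 (.cons 0x2389765401 (.cons 0x6540179832 .nil)) (.node 0 5 (.cons 0x6509871234 .nil) (.node 4 7 (.cons 0x6509874321 .nil) (.node 4 6 (.cons 0x8901237645 (.cons 0x9837645012 .nil)) (.node 0 2 (.cons 0x5643209871 (.cons 0x9832017645 .nil)) (.node 0 6 (.cons 0x9834560712 .nil) .done .done) .done) .done) (.node 4 9 (.cons 0x7654983210 (.cons 0x6710549832 .nil)) (.node 2 6 (.cons 0x5623879401 (.cons 0x1789432650 (.cons 0x8326549710 (.cons 0x7105623894 (.cons 0x3894562170 .nil))))) .done (.node 5 9 (.cons 0x8765904321 (.cons 0x8712340956 .nil)) (.node 0 3 (.cons 0x7654983012 (.cons 0x6594038712 (.cons 0x8304956712 .nil))) .done .done) .done)) .done)) (.node 4 9 (.cons 0x7654983210 .nil) (.node 0 5 (.cons 0x8712349056 (.cons 0x6509871234 .nil)) (.node 0 6 (.cons 0x8712349065 (.cons 0x7106549832 .nil)) (.node 1 6 (.cons 0x7894321650 (.cons 0x9438705612 (.cons 0x8905437612 .nil))) .done .done) (.node 2 6 (.cons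 0x7012654983 (.cons 0x1789432650 (.cons 0x8326549710 (.cons 0x7105623894 (.cons 0x3894562170 .nil))))) .done .done)) (.node 5 9 (.cons 0x6712389540 .nil) (.node 2 6 (.cons 0x5498376210 (.cons 0x8326795401 (.cons 0x5983407621 (.cons 0x3895407621 .nil)))) (.node 0 8 (.cons 0x5498012673 (.cons 0x9807126543 .nil)) (.node 4 8 (.cons 0x7654890123 (.cons 0x3265489710 .nil)) .done .done) .done) (.node 0 6 (.cons 0x5498376012 (.cons 0x2178349560 (.cons 0x4389560712 .nil))) (.node 4 6 (.cons 0x6459837012 (.cons 0x8954601732 (.cons 0x8712346590 .nil))) .done .done) .done)) .done)) (.node 2 8 (.cons 0x3456709821 (.cons 0x3289045671 .nil)) (.node 1 5 (.cons 0x9043287156 (.cons 0x6517890432 .nil)) (.node 0 6 (.cons 0x9821543706 (.cons 0x8234560971 (.cons 0x4328971560 .nil))) .done (.node 1 8 (.cons 0x7654321890 .nil) (.node 3 6 (.cons 0x5436709812 (.cons 0x9043651782 (.cons 0x7156340982 (.cons 0x7109823654 .nil)))) .done .done) .done)) (.node 0 5 (.cons 0x6509871234 .nil) (.node 1 8 (.cons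 0x6734509812 .nil) (.node 2 6 (.cons 0x7098126543 (.cons 0x6237981054 (.cons 0x4326509781 (.cons 0x7189043265 (.cons 0x7189045623 .nil))))) .done .done) (.node 6 9 (.cons 0x9670543821 (.cons 0x9671283450 .nil)) (.node 1 5 (.cons 0x5176982340 (.cons 0x6517890432 (.cons 0x9671504382 .nil))) .done (.node 4 9 (.cons 0x7654983210 (.cons 0x6945071283 (.cons 0x8321769450 (.cons 0x3821769450 .nil)))) .done .done)) .done)) .done)) .done))) (.node 2 9 (.cons 0x1298345670 (.cons 0x6543892170 .nil)) (.node 0 5 (.cons 0x6705438921 (.cons 0x6509871234 .nil)) (.node 4 9 (.cons 0x7654983210 (.cons 0x8712349056 (.cons 0x2389456710 .nil))) (.node 0 6 (.cons 0x5067834921 (.cons 0x8349217605 .nil)) (.node 1 5 (.cons 0x8923451760 (.cons 0x6051783492 (.cons 0x2983451760 .nil))) .done .done) .done) (.node 4 9 (.cons 0x7654983210 (.cons 0x2389456710 .nil)) (.node 2 4 (.cons 0x6501789423 (.cons 0x9423871056 .nil)) (.node 1 9 (.cons 0x7650198324 (.cons 0x6738910542 .nil)) .done .done) (.node 0 6 (.cons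 0x5498376012 .nil) (.node 2 8 (.cons 0x3456709821 (.cons 0x3821794560 (.cons 0x3829450671 .nil))) .done (.node 5 9 (.cons 0x4389560712 .nil) (.node 0 3 (.cons 0x7654983012 (.cons 0x4956783012 .nil)) (.node 0 2 (.cons 0x9834567021 (.cons 0x8302179456 .nil)) .done .done) .done) .done)) .done)) .done)) (.node 0 5 (.cons 0x6509871234 .nil) (.node 4 9 (.cons 0x7654983210 (.cons 0x6738945012 (.cons 0x2389456710 .nil))) (.node 2 6 (.cons 0x7012654983 (.cons 0x3498705621 (.cons 0x9438705621 (.cons 0x3894562170 .nil)))) .done (.node 1 5 (.cons 0x6789432150 (.cons 0x8349215076 .nil)) (.node 2 6 (.cons 0x8907345126 (.cons 0x6215078943 (.cons 0x9438705126 (.cons 0x3894507621 .nil)))) .done (.node 1 9 (.cons 0x2198345670 .nil) (.node 2 4 (.cons 0x3421567890 (.cons 0x6507891243 (.cons 0x9124387056 .nil))) (.node 0 6 (.cons 0x9438760512 (.cons 0x9834217065 (.cons 0x1798324560 .nil))) .done .done) .done) .done)) .done)) (.node 4 9 (.cons 0x7654983210 (.cons 0x8349217056 (.cons 0x8349217650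 (.cons 0x2389456710 .nil)))) (.node 6 9 (.cons 0x5012387694 .nil) (.node 0 2 (.cons 0x9834567021 (.cons 0x9650217834 (.cons 0x5438967120 .nil))) .done (.node 0 2 (.cons 0x9834567021 (.cons 0x7102389654 .nil)) (.node 1 8 (.cons 0x4381705692 (.cons 0x8176905432 (.cons 0x9671834502 .nil))) .done .done) .done)) .done) (.node 4 9 (.cons 0x7654983210 (.cons 0x6710549832 (.cons 0x2389456710 .nil))) (.node 2 6 (.cons 0x7012654983 (.cons 0x1789432650 (.cons 0x8349265071 (.cons 0x3894562170 .nil)))) .done (.node 0 2 (.cons 0x9834567021 (.cons 0x8349205671 .nil)) (.node 0 3 (.cons 0x7654983012 (.cons 0x8302179456 .nil)) (.node 0 6 (.cons 0x5498376012 (.cons 0x9438712065 .nil)) .done .done) (.node 6 9 (.cons 0x5438967021 .nil) (.node 1 5 (.cons 0x8967154320 (.cons 0x8349205176 (.cons 0x6983451702 (.cons 0x6715029834 .nil)))) .done .done) .done)) .done)) .done))) .done)) .done)) .done))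
noncomputable def uc9_0_4 : T := (.node 3 8 (.cons 0x6543890712 (.cons 0x4567109832 .nil)) tc9_0_30 (.node 1 5 (.cons 0x4321567890 .nil) tc9_0_29 (.node 1 5 (.cons 0x4321567890 .nil) tc9_0_27 .done)))
theorem sub_c9_0_4 : root 9 refs9_0 [] 0x700000008704000000004060050030060500000000504000000004010000050010300000000302000000002018030000010 0xfe7fff6fff87ff9fffcfffedffd5fff3fff9fef5 9 1 7 .nil uc9_0_4 = true := by decide +kernel
noncomputable def tc9_0_31 : T := (.node 1 8 (.cons 0x7654321890 .nil) (.node 7 9 (.cons 0x4567983210 .nil) (.node 4 7 .nil (.node 2 6 (.cons 0x9701832654 (.cons 0x3265479810 (.cons 0x9745623810 .nil))) (.node 0 2 (.cons 0x9834567120 (.cons 0x6547983201 .nil)) (.node 0 5 (.cons 0x9834502176 (.cons 0x9834712650 (.cons 0x7432650981 .nil))) (.node 1 5 (.cons 0x4321567890 (.cons 0x6205189743 (.cons 0x8156234790 .nil))) .done .done) .done) (.node 0 5 (.cons 0x6509874321 (.cons 0x6218905473 (.cons 0x6237450981 .nil))) (.node 1 4 (.cons 0x6237981450 (.cons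 0x6509781432 (.cons 0x9705418326 .nil))) .done .done) .done)) (.node 1 4 (.cons 0x2389765410 .nil) (.node 1 5 (.cons 0x4321567890 .nil) (.node 1 6 .nil (.node 0 2 (.cons 0x9834567120 (.cons 0x8974561023 (.cons 0x8976154320 (.cons 0x5618974320 .nil)))) .done (.node 1 3 .nil (.node 2 8 (.cons 0x3456712890 (.cons 0x8231456790 .nil)) (.node 0 6 (.cons 0x1543289760 (.cons 0x7609821345 (.cons 0x5431760982 .nil))) .done .done) .done) .done)) .done) (.node 4 8 (.cons 0x7654890123 .nil) (.node 4 9 (.cons 0x7654983210 .nil) (.node 3 9 (.cons 0x9384567012 .nil) (.node 0 4 (.cons 0x2389765401 .nil) (.node 1 9 (.cons 0x7654019832 .nil) .done .done) .done) .done) (.node 1 9 (.cons 0x9107654832 .nil) (.node 2 7 (.cons 0x3276548901 .nil) (.node 5 7 (.cons 0x6570918432 .nil) .done .done) .done) .done)) .done)) .done)) (.node 2 7 .nil (.node 0 6 (.cons 0x7218906543 (.cons 0x7234560981 .nil)) (.node 2 9 (.cons 0x7129834560 (.cons 0x5438921760 .nil)) (.node 4 9 (.cons 0x7654983210 (.cons 0x8349217065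 (.cons 0x7601238945 (.cons 0x3894567210 (.cons 0x5607183492 .nil))))) .done .done) (.node 0 3 (.cons 0x8903456712 (.cons 0x6543098172 .nil)) (.node 6 9 (.cons 0x5690781234 (.cons 0x9654381270 (.cons 0x4569830172 .nil))) .done .done) .done)) (.node 4 7 .nil (.node 6 9 (.cons 0x5690781234 (.cons 0x8123470965 (.cons 0x3274569810 .nil))) (.node 0 3 (.cons 0x7218965430 (.cons 0x7456983012 (.cons 0x5698127430 (.cons 0x3018965472 .nil)))) .done .done) (.node 5 7 .nil (.node 0 4 (.cons 0x1238976540 (.cons 0x6578904321 (.cons 0x9832104576 .nil))) (.node 4 8 (.cons 0x7654890123 (.cons 0x6754890123 .nil)) .done .done) .done) .done)) .done)) .done)) (.node 2 8 (.cons 0x3456712890 .nil) (.node 4 8 (.cons 0x7654890123 .nil) (.node 5 8 (.cons 0x6732109854 .nil) (.node 6 8 (.cons 0x9071286543 .nil) (.node 0 8 .nil (.node 7 9 (.cons 0x4567983210 .nil) (.node 1 6 (.cons 0x9076185432 (.cons 0x9708234561 (.cons 0x7908234561 .nil))) (.node 1 4 (.cons 0x2389765410 (.cons 0x9708234165 (.cons 0x9765410832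 .nil))) (.node 1 9 (.cons 0x2386541970 .nil) .done .done) .done) (.node 1 4 (.cons 0x5412376890 (.cons 0x3214567980 (.cons 0x9765412380 (.cons 0x9708321456 .nil)))) .done .done)) .done) .done) (.node 6 8 (.cons 0x9071286543 .nil) (.node 0 8 .nil (.node 4 6 (.cons 0x1237645890 (.cons 0x9801237645 (.cons 0x9085467321 .nil))) .done .done) .done) .done)) (.node 6 8 (.cons 0x9071286543 .nil) (.node 5 8 (.cons 0x6732109854 .nil) (.node 0 8 .nil (.node 4 6 (.cons 0x1237645890 (.cons 0x9801237645 (.cons 0x9085467321 .nil))) .done .done) .done) (.node 5 8 (.cons 0x6732109854 .nil) (.node 0 8 .nil (.node 1 9 (.cons 0x9107654832 .nil) (.node 1 4 (.cons 0x5412376890 (.cons 0x9086732145 .nil)) (.node 1 5 (.cons 0x4512376890 (.cons 0x9087651234 .nil)) .done .done) (.node 4 7 (.cons 0x6582190743 (.cons 0x5674321980 .nil)) .done .done)) .done) .done) .done)) .done)) (.node 6 8 (.cons 0x9076812345 .nil) (.node 5 8 (.cons 0x6732109854 .nil) (.node 4 8 (.cons 0x7654890123 .nil) (.node 2 7 (.cons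 0x3276548901 .nil) (.node 0 8 .nil (.node 2 5 (.cons 0x1254376890 (.cons 0x9086734521 .nil)) .done .done) .done) .done) (.node 4 8 (.cons 0x7654890123 .nil) (.node 0 8 .nil (.node 1 5 (.cons 0x2154376890 (.cons 0x9086734512 .nil)) (.node 6 9 (.cons 0x9651234870 (.cons 0x9651234807 (.cons 0x9670815432 (.cons 0x4512376980 .nil)))) .done (.node 1 9 (.cons 0x6709185432 .nil) (.node 1 4 (.cons 0x8567091432 (.cons 0x7658091432 .nil)) (.node 5 9 (.cons 0x6590784321 (.cons 0x4380765912 (.cons 0x6732145980 .nil))) .done .done) .done) .done)) .done) .done) .done)) (.node 4 8 (.cons 0x7654890123 .nil) (.node 5 8 (.cons 0x6732109854 .nil) (.node 0 8 .nil (.node 1 4 (.cons 0x5410986732 .nil) (.node 1 5 (.cons 0x4321567890 (.cons 0x9087651234 .nil)) (.node 0 5 (.cons 0x9805412376 .nil) (.node 1 9 (.cons 0x6732891450 (.cons 0x7650891432 .nil)) .done .done) .done) (.node 6 9 (.cons 0x5690784321 (.cons 0x5809673412 (.cons 0x5412809673 (.cons 0x3769085412 .nil)))) .done .done)) .done) .done)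 (.node 5 8 (.cons 0x6732109854 .nil) (.node 0 8 .nil (.node 4 6 (.cons 0x9078564321 (.cons 0x9801237645 .nil)) (.node 1 5 (.cons 0x4321567890 (.cons 0x9087651234 .nil)) (.node 6 9 (.cons 0x3712854690 (.cons 0x5809643712 (.cons 0x2154376980 (.cons 0x4512376980 .nil)))) .done .done) .done) .done) .done) .done)) .done)) .done)) .done)) (.node 1 8 (.cons 0x7654321890 .nil) (.node 0 3 (.cons 0x8903456712 .nil) (.node 1 5 (.cons 0x4321567890 .nil) (.node 1 3 .nil (.node 4 8 (.cons 0x7654890123 (.cons 0x7654890132 .nil)) (.node 2 8 (.cons 0x3456712890 .nil) (.node 0 4 (.cons 0x5678904321 (.cons 0x5678904312 (.cons 0x7654098231 .nil))) (.node 1 4 (.cons 0x7654132890 .nil) .done .done) .done) (.node 3 9 (.cons 0x2156784390 .nil) (.node 2 7 (.cons 0x4567239810 (.cons 0x2765489310 (.cons 0x3127654890 .nil))) .done .done) .done)) .done) (.node 0 6 (.cons 0x7890651234 .nil) (.node 0 5 .nil (.node 4 6 (.cons 0x8901237645 (.cons 0x9873460512 (.cons 0x9056438712 (.cons 0x9810546732 .nil))))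 .done (.node 2 8 (.cons 0x3456712890 .nil) (.node 1 3 (.cons 0x6713450982 .nil) (.node 0 2 (.cons 0x8902176543 .nil) (.node 0 8 .nil (.node 2 4 (.cons 0x9817650342 (.cons 0x9803421765 .nil)) (.node 6 9 (.cons 0x9670543281 (.cons 0x7124380965 (.cons 0x5431769082 (.cons 0x9673245081 .nil)))) .done .done) .done) .done) .done) (.node 6 8 (.cons 0x9078651234 .nil) (.node 2 7 (.cons 0x4309865172 .nil) (.node 2 5 (.cons 0x9812543760 .nil) (.node 2 6 (.cons 0x7126543890 .nil) (.node 0 8 (.cons 0x9086251734 .nil) (.node 0 2 (.cons 0x9860273451 .nil) (.node 0 4 (.cons 0x5678904321 .nil) .done .done) .done) .done) .done) .done) .done) .done)) .done)) (.node 3 9 .nil (.node 0 2 (.cons 0x8902176543 (.cons 0x7189345602 (.cons 0x5439817602 .nil))) .done (.node 0 5 .nil (.node 0 2 (.cons 0x6718934502 .nil) (.node 4 6 (.cons 0x8901237645 (.cons 0x2056439871 (.cons 0x9056438712 (.cons 0x6437890512 .nil)))) .done .done) (.node 5 9 (.cons 0x4598106732 .nil) (.node 7 9 (.cons 0x4305679812 .nil)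 .done .done) .done)) .done)) .done)) .done)) (.node 2 8 (.cons 0x3456712890 .nil) (.node 0 5 (.cons 0x6712890543 .nil) (.node 1 5 (.cons 0x4321567890 .nil) (.node 0 8 (.cons 0x9087651234 .nil) (.node 4 8 (.cons 0x7654890123 .nil) (.node 1 3 (.cons 0x7654890132 .nil) (.node 1 6 (.cons 0x5489016732 .nil) .done .done) .done) .done) .done) (.node 0 8 .nil (.node 1 5 (.cons 0x4321567890 (.cons 0x9087651234 .nil)) (.node 0 6 (.cons 0x7890651234 .nil) (.node 1 6 (.cons 0x8905437612 .nil) (.node 7 9 (.cons 0x4387905612 (.cons 0x5432809761 (.cons 0x7908321654 .nil))) .done .done) .done) .done) .done) .done)) (.node 2 7 (.cons 0x9810327654 .nil) (.node 4 7 .nil (.node 2 6 (.cons 0x7126543890 (.cons 0x9038265471 (.cons 0x5621743890 .nil))) .done (.node 7 9 (.cons 0x4567981032 .nil) (.node 5 7 .nil (.node 0 6 (.cons 0x9832745601 (.cons 0x4389065712 .nil)) (.node 1 6 (.cons 0x9832745610 (.cons 0x9061283754 (.cons 0x4756109832 .nil))) .done .done) .done) .done) .done)) .done) .done)) .done))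 (.node 0 3 (.cons 0x8903456712 .nil) (.node 2 8 (.cons 0x3456712890 .nil) (.node 3 9 .nil (.node 5 8 (.cons 0x4309856712 (.cons 0x6709345812 (.cons 0x6709321854 .nil))) (.node 6 8 (.cons 0x9076812345 (.cons 0x5439076812 (.cons 0x4568390712 .nil))) .done .done) (.node 2 7 .nil (.node 4 8 (.cons 0x9328456701 (.cons 0x3276548901 .nil)) (.node 0 5 (.cons 0x9821765034 (.cons 0x6721890543 (.cons 0x6723450981 .nil))) (.node 1 5 (.cons 0x4321567890 (.cons 0x4893015672 (.cons 0x9301567284 .nil))) .done .done) .done) (.node 7 9 .nil (.node 0 6 (.cons 0x7609812345 (.cons 0x9706543821 .nil)) (.node 1 5 (.cons 0x4321567890 (.cons 0x2345189760 (.cons 0x6097238154 (.cons 0x4306517982 .nil)))) .done .done) .done) .done)) .done)) (.node 0 6 (.cons 0x7609812345 .nil) (.node 3 9 .nil (.node 2 5 (.cons 0x8906734521 (.cons 0x8937601254 (.cons 0x5218760934 .nil))) (.node 4 6 (.cons 0x3465217890 (.cons 0x9346078125 (.cons 0x8712564390 (.cons 0x5467093281 .nil)))) .done .done) (.node 2 7 .nil (.node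 1 4 (.cons 0x8239076541 (.cons 0x8932765410 (.cons 0x6541728390 (.cons 0x5609872143 .nil)))) .done (.node 0 8 (.cons 0x4567239801 .nil) (.node 0 5 (.cons 0x2760543981 .nil) (.node 0 2 (.cons 0x8902176543 .nil) (.node 0 4 (.cons 0x8932765401 .nil) .done .done) .done) .done) .done)) .done)) (.node 2 7 (.cons 0x5432760981 .nil) (.node 4 7 (.cons 0x9832745601 .nil) (.node 5 7 (.cons 0x6754321890 .nil) (.node 7 9 .nil (.node 1 3 (.cons 0x4576098132 (.cons 0x4560971382 .nil)) (.node 0 4 (.cons 0x5678904321 (.cons 0x6045798132 (.cons 0x5406798231 (.cons 0x3128976540 .nil)))) .done .done) .done) .done) .done) .done) .done)) .done)) (.node 2 8 (.cons 0x3456712890 .nil) (.node 3 9 (.cons 0x4567103982 .nil) (.node 1 9 (.cons 0x2891765430 .nil) (.node 0 8 .nil (.node 4 6 (.cons 0x8901237645 (.cons 0x9801237645 (.cons 0x7809123465 (.cons 0x7082193465 (.cons 0x5643917082 .nil))))) .done (.node 4 8 (.cons 0x7654890123 .nil) (.node 5 8 (.cons 0x6587091234 .nil) (.node 6 8 (.cons 0x9170345682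 .nil) .done .done) .done) .done)) .done) .done) (.node 2 7 .nil (.node 4 8 (.cons 0x7654890123 (.cons 0x9845672301 (.cons 0x3276548901 .nil))) (.node 3 9 (.cons 0x3907654821 .nil) (.node 1 5 (.cons 0x4321567890 (.cons 0x4893015672 (.cons 0x8439072156 .nil))) (.node 0 8 (.cons 0x9087651234 .nil) .done .done) .done) .done) (.node 4 7 .nil (.node 2 6 (.cons 0x7126543890 (.cons 0x9038265471 (.cons 0x5621743890 .nil))) .done (.node 5 7 (.cons 0x6754321890 .nil) (.node 7 9 .nil (.node 1 4 (.cons 0x6754189032 (.cons 0x1456798230 (.cons 0x8230976541 (.cons 0x8972301456 .nil)))) .done .done) .done) .done)) .done)) .done)) .done)) .done)) (.node 0 3 (.cons 0x8903456712 .nil) (.node 2 7 (.cons 0x4567238901 .nil) (.node 4 7 .nil (.node 1 5 (.cons 0x4321567890 (.cons 0x6512347890 .nil)) (.node 0 2 (.cons 0x2098345671 (.cons 0x9832015476 (.cons 0x9832015674 .nil))) .done (.node 0 8 (.cons 0x9087651234 .nil) (.node 6 9 (.cons 0x4569830172 (.cons 0x8096743215 (.cons 0x2745698301 (.cons 0x8965472301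 (.cons 0x2380967451 .nil))))) .done (.node 3 9 (.cons 0x1276543980 (.cons 0x8093476512 .nil)) .done .done)) .done)) (.node 0 4 (.cons 0x9832765401 .nil) (.node 0 2 (.cons 0x2098345671 .nil) (.node 2 4 (.cons 0x7654238901 .nil) (.node 2 6 (.cons 0x5621789034 .nil) (.node 2 5 (.cons 0x3890452671 .nil) (.node 3 9 (.cons 0x8390176542 .nil) (.node 0 8 (.cons 0x8093421765 .nil) (.node 0 5 (.cons 0x4398056721 .nil) (.node 0 6 (.cons 0x4526098371 .nil) .done .done) .done) .done) .done) .done) (.node 4 9 (.cons 0x6549830172 .nil) (.node 4 8 (.cons 0x7654890123 .nil) (.node 1 4 (.cons 0x9832765410 .nil) (.node 4 6 (.cons 0x5643098712 .nil) .done .done) .done) .done) .done)) .done) (.node 7 9 .nil (.node 6 8 (.cons 0x9865472301 (.cons 0x2179865430 (.cons 0x1279865430 (.cons 0x3045689721 .nil)))) .done (.node 5 7 .nil (.node 4 6 (.cons 0x5643098712 .nil) (.node 0 8 (.cons 0x9801237645 (.cons 0x6457980321 .nil)) .done (.node 1 4 (.cons 0x9832765410 (.cons 0x9014657832 (.cons 0x6754109832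 .nil))) (.node 2 6 (.cons 0x2654179830 (.cons 0x2657983041 (.cons 0x9875621403 .nil))) .done .done) .done)) .done) .done)) .done)) .done)) (.node 0 2 (.cons 0x2098345671 .nil) (.node 2 8 (.cons 0x3456712890 .nil) (.node 3 9 .nil (.node 0 4 (.cons 0x5678904321 (.cons 0x7654012893 (.cons 0x6540398271 .nil))) .done (.node 2 9 .nil (.node 1 8 (.cons 0x7654321890 (.cons 0x6543817092 .nil)) (.node 1 9 (.cons 0x6543829170 .nil) .done .done) (.node 2 4 (.cons 0x7654238901 .nil) (.node 2 5 (.cons 0x8390176524 .nil) .done .done) .done)) .done)) (.node 2 9 (.cons 0x6543829071 .nil) (.node 3 9 (.cons 0x8217093456 .nil) .done .done) .done)) (.node 2 6 (.cons 0x5621789034 .nil) (.node 7 9 (.cons 0x8971265430 .nil) (.node 4 7 (.cons 0x8974562301 .nil) (.node 5 7 .nil (.node 4 8 (.cons 0x7984562301 (.cons 0x6571209843 (.cons 0x6754890123 (.cons 0x9845730126 .nil)))) .done .done) .done) .done) (.node 2 5 (.cons 0x4389025671 .nil) (.node 3 5 (.cons 0x8902176534 .nil) (.node 1 5 (.cons 0x4321567890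 .nil) (.node 7 9 .nil (.node 4 8 (.cons 0x9038456271 (.cons 0x9710384562 (.cons 0x6532109784 (.cons 0x5483267901 (.cons 0x8435679021 .nil))))) .done (.node 5 7 .nil (.node 4 8 (.cons 0x1562348790 (.cons 0x9843021756 (.cons 0x6571209843 (.cons 0x6754890123 (.cons 0x9034875621 .nil))))) .done .done) .done)) .done) .done) (.node 2 9 .nil (.node 1 8 (.cons 0x7654321890 (.cons 0x9238107654 (.cons 0x7183456290 (.cons 0x5438176290 .nil)))) .done (.node 2 4 (.cons 0x7654238901 .nil) (.node 2 8 (.cons 0x3456712890 .nil) .done .done) .done)) .done)) .done)) .done)) .done)) (.node 0 2 (.cons 0x2098345671 .nil) (.node 2 7 (.cons 0x4567238901 .nil) (.node 2 4 (.cons 0x7654238901 .nil) (.node 3 9 (.cons 0x8390176542 .nil) (.node 2 5 .nil (.node 4 6 (.cons 0x8901237645 (.cons 0x9837102546 (.cons 0x2546738901 (.cons 0x3465209871 .nil)))) .done (.node 2 8 (.cons 0x3456712890 .nil) (.node 0 8 (.cons 0x9380172456 .nil) (.node 0 5 (.cons 0x6712890543 .nil) (.node 0 6 (.cons 0x9834560271 .nil)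 .done .done) .done) .done) .done)) .done) (.node 2 8 (.cons 0x3456712890 .nil) (.node 3 9 .nil (.node 4 8 (.cons 0x7654890123 (.cons 0x7654893210 (.cons 0x6548217093 (.cons 0x3984567210 .nil)))) .done (.node 4 7 .nil (.node 2 6 (.cons 0x4562839071 (.cons 0x1745628390 (.cons 0x5620983471 .nil))) .done (.node 0 4 (.cons 0x9832765401 .nil) (.node 0 5 (.cons 0x6504398721 .nil) (.node 0 6 (.cons 0x8932745601 .nil) .done .done) .done) .done)) .done)) .done) .done)) (.node 3 6 (.cons 0x4563890271 .nil) (.node 7 9 (.cons 0x4563897102 .nil) (.node 4 7 (.cons 0x8974563201 .nil) (.node 5 7 .nil (.node 1 6 (.cons 0x7165438902 (.cons 0x9832016574 .nil)) (.node 4 9 (.cons 0x5634987120 (.cons 0x4987563210 (.cons 0x8945763210 (.cons 0x2094387561 .nil)))) .done .done) .done) .done) .done) (.node 2 8 (.cons 0x3456712890 .nil) (.node 7 9 (.cons 0x9710283654 .nil) (.node 3 9 (.cons 0x8201793654 .nil) (.node 1 3 (.cons 0x4567982310 .nil) (.node 1 6 (.cons 0x3456179820 .nil) (.node 2 6 (.cons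 0x8971345620 .nil) .done .done) .done) .done) .done) (.node 0 8 (.cons 0x9082176345 .nil) (.node 0 5 (.cons 0x6712890543 .nil) (.node 0 6 .nil (.node 1 3 (.cons 0x6713450982 (.cons 0x9831720654 (.cons 0x4560983172 .nil))) .done .done) .done) .done) .done)) .done)) .done)) (.node 2 7 (.cons 0x4567238901 .nil) (.node 2 4 (.cons 0x7654238901 .nil) (.node 3 9 (.cons 0x8390176542 .nil) (.node 4 7 .nil (.node 6 8 (.cons 0x9386542710 (.cons 0x7456893210 (.cons 0x3986547210 (.cons 0x8654709321 .nil)))) .done (.node 7 9 (.cons 0x8324567901 .nil) (.node 5 7 .nil (.node 1 4 (.cons 0x9832765410 (.cons 0x9832014576 (.cons 0x9014238756 (.cons 0x6754109832 .nil)))) .done .done) .done) .done)) .done) (.node 2 8 (.cons 0x3456712890 .nil) (.node 3 9 (.cons 0x6542839071 .nil) (.node 4 7 .nil (.node 1 5 (.cons 0x4321567890 (.cons 0x9832015476 (.cons 0x9038247156 (.cons 0x6512347890 .nil)))) .done (.node 0 4 (.cons 0x9832765401 .nil) (.node 2 5 (.cons 0x3409876521 .nil) (.node 2 6 (.cons 0x4562839071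 .nil) (.node 2 9 (.cons 0x3892765401 .nil) .done .done) .done) .done) .done)) .done) .done) .done)) (.node 2 8 (.cons 0x3456712890 .nil) (.node 2 4 (.cons 0x7654238901 .nil) (.node 3 9 (.cons 0x9382456710 .nil) (.node 7 9 (.cons 0x6542839710 .nil) (.node 2 6 (.cons 0x5438902671 .nil) (.node 2 9 .nil (.node 5 8 (.cons 0x6587124390 (.cons 0x4385629071 (.cons 0x6738542901 (.cons 0x4290385671 .nil)))) .done .done) .done) .done) .done) (.node 2 5 .nil (.node 0 6 (.cons 0x3890654271 (.cons 0x8906734521 (.cons 0x3425609871 .nil))) .done (.node 2 6 (.cons 0x5438902671 .nil) (.node 2 9 .nil (.node 1 8 (.cons 0x7654321890 (.cons 0x6543817092 (.cons 0x6718345290 .nil))) .done .done) .done) .done)) .done)) (.node 3 9 (.cons 0x8217093456 .nil) (.node 2 9 (.cons 0x6543829071 .nil) (.node 0 8 .nil (.node 2 6 (.cons 0x5438902671 (.cons 0x7126543980 (.cons 0x5621780934 .nil))) .done (.node 0 6 (.cons 0x7128906543 .nil) (.node 0 4 (.cons 0x5678904321 .nil) (.node 0 5 .nil (.node 1 4 (.cons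 0x1456723890 (.cons 0x2983417650 (.cons 0x8341765092 (.cons 0x6723890541 .nil)))) .done .done) .done) .done) .done)) .done) .done) .done)) .done)) .done)) .done)) .done)))
noncomputable def tc9_0_32 : T := (.node 1 8 (.cons 0x7654321890 .nil) (.node 1 3 .nil (.node 4 8 (.cons 0x7654890123 (.cons 0x3127654890 (.cons 0x1327654890 .nil))) (.node 3 8 (.cons 0x4567213890 .nil) (.node 1 4 (.cons 0x2765413890 .nil) (.node 0 4 (.cons 0x5678904321 (.cons 0x2765409831 (.cons 0x8904567231 .nil))) (.node 0 3 (.cons 0x9845672130 .nil) (.node 0 6 (.cons 0x9871234065 (.cons 0x5413890672 (.cons 0x7231890654 .nil))) .done .done) .done) .done) .done) (.node 0 4 (.cons 0x5678904321 (.cons 0x5678904312 (.cons 0x8904567231 .nil))) (.node 5 7 (.cons 0x6578904321 (.cons 0x6578904312 (.cons 0x6754890132 .nil))) .done .done) .done)) (.node 1 6 .nil (.node 0 5 (.cons 0x7890561234 (.cons 0x8905437612 .nil)) (.node 4 8 (.cons 0x7654890123 (.cons 0x9845012376 (.cons 0x9051234876 (.cons 0x7650984312 (.cons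 0x4890567231 .nil))))) .done (.node 1 4 (.cons 0x5098761432 .nil) (.node 4 7 (.cons 0x6509813274 (.cons 0x3274561890 .nil)) .done .done) .done)) (.node 1 4 .nil (.node 3 8 (.cons 0x1456723890 .nil) (.node 3 9 (.cons 0x8390721654 (.cons 0x4561839072 .nil)) .done (.node 6 8 (.cons 0x5410986732 (.cons 0x5412376890 .nil)) (.node 1 9 (.cons 0x8670912345 .nil) .done .done) .done)) (.node 1 9 .nil (.node 4 8 (.cons 0x7654890123 (.cons 0x2348765190 .nil)) (.node 0 5 (.cons 0x8905437612 (.cons 0x9123487056 (.cons 0x4891327650 .nil))) (.node 3 8 (.cons 0x6721450983 (.cons 0x9107654832 .nil)) .done .done) (.node 0 4 (.cons 0x5678904321 (.cons 0x8765190432 .nil)) (.node 0 3 (.cons 0x3098456721 (.cons 0x8917230456 .nil)) .done .done) .done)) .done) .done)) .done)) .done)) (.node 5 7 (.cons 0x6754321890 .nil) (.node 7 9 .nil (.node 0 8 (.cons 0x9087651234 (.cons 0x6543217980 (.cons 0x6790815432 .nil))) (.node 0 3 (.cons 0x9803456712 (.cons 0x6543089712 .nil)) (.node 2 5 (.cons 0x6752189034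 (.cons 0x4308976521 (.cons 0x6521798034 .nil))) .done (.node 6 8 (.cons 0x9086734512 (.cons 0x2345186790 (.cons 0x4518679032 .nil))) (.node 0 5 (.cons 0x9867321054 (.cons 0x6897321054 .nil)) .done .done) .done)) .done) (.node 4 7 .nil (.node 0 8 (.cons 0x6790815432 (.cons 0x9087432156 .nil)) (.node 3 9 (.cons 0x2176543980 (.cons 0x8093476512 .nil)) (.node 0 6 (.cons 0x3457609812 (.cons 0x5608934712 (.cons 0x8154723906 .nil))) .done .done) (.node 0 5 (.cons 0x6509874321 .nil) (.node 2 6 (.cons 0x8154326790 (.cons 0x1897623450 (.cons 0x8150976234 .nil))) (.node 3 9 (.cons 0x8126754390 (.cons 0x6547108932 (.cons 0x8126750934 .nil))) .done .done) .done) .done)) .done) .done)) (.node 1 6 (.cons 0x2345761890 .nil) (.node 0 6 (.cons 0x2345760981 .nil) (.node 7 9 .nil (.node 0 8 (.cons 0x9087651234 (.cons 0x6543217980 (.cons 0x6790815432 .nil))) .done (.node 4 7 .nil (.node 0 8 (.cons 0x9087651234 (.cons 0x9087432156 .nil)) (.node 1 9 (.cons 0x2345671980 (.cons 0x6519087432 .nil))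 .done .done) .done) .done)) (.node 1 4 (.cons 0x5418906723 .nil) (.node 1 3 (.cons 0x5609872314 .nil) .done (.node 4 7 .nil (.node 3 5 (.cons 0x2143567890 (.cons 0x9810674532 (.cons 0x6532109874 .nil))) .done .done) .done)) .done)) (.node 1 4 .nil (.node 0 6 (.cons 0x2345760981 (.cons 0x5760981432 (.cons 0x5418906723 .nil))) .done (.node 1 3 .nil (.node 0 6 (.cons 0x2345760981 (.cons 0x8906572314 (.cons 0x5609872314 .nil))) .done (.node 1 9 .nil (.node 2 8 (.cons 0x5437612890 .nil) (.node 0 4 (.cons 0x5678904321 (.cons 0x6754019823 (.cons 0x9156782340 .nil))) (.node 3 5 (.cons 0x6721890453 (.cons 0x2198765340 (.cons 0x9128704356 .nil))) .done .done) (.node 0 6 (.cons 0x2345760981 (.cons 0x4328917560 (.cons 0x7198234560 .nil))) .done .done)) .done) .done)) .done)) .done)) .done)) (.node 2 5 (.cons 0x6734521890 .nil) (.node 1 6 .nil (.node 0 5 (.cons 0x6734509812 (.cons 0x7890561234 (.cons 0x8905437612 .nil))) (.node 1 4 (.cons 0x7890561432 (.cons 0x9876143250 .nil)) .done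 .done) (.node 2 6 (.cons 0x5437621890 .nil) (.node 0 6 (.cons 0x9812543760 .nil) (.node 0 5 (.cons 0x6734509812 .nil) (.node 3 5 .nil (.node 1 4 (.cons 0x9873412506 (.cons 0x7890653412 (.cons 0x8906721453 .nil))) .done (.node 3 6 (.cons 0x6372189054 .nil) (.node 3 8 (.cons 0x9076543812 .nil) (.node 1 3 (.cons 0x7213890654 .nil) .done .done) .done) .done)) (.node 1 3 .nil (.node 1 4 (.cons 0x6509872314 (.cons 0x8905413276 .nil)) .done (.node 1 4 (.cons 0x6509872314 .nil) (.node 1 9 (.cons 0x6789143250 .nil) .done .done) .done)) .done)) (.node 1 3 .nil (.node 1 4 (.cons 0x5609872314 (.cons 0x8906723145 .nil)) .done (.node 1 4 (.cons 0x5609872314 .nil) (.node 1 9 (.cons 0x5234198760 .nil) .done .done) .done)) .done)) .done) .done)) (.node 1 6 .nil (.node 0 5 (.cons 0x6734509812 (.cons 0x8905437612 .nil)) (.node 1 4 (.cons 0x7890561432 (.cons 0x5098761432 .nil)) .done .done) (.node 1 3 .nil (.node 0 6 (.cons 0x5437609812 (.cons 0x7890652134 (.cons 0x6098137254 .nil))) .done (.node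 1 4 .nil (.node 0 6 (.cons 0x5437609812 (.cons 0x7890652143 (.cons 0x9871432560 .nil))) .done (.node 1 9 .nil (.node 0 6 (.cons 0x5437609812 .nil) (.node 4 6 (.cons 0x9078125643 (.cons 0x5219873460 (.cons 0x8734609125 (.cons 0x8734609152 .nil)))) .done (.node 2 4 (.cons 0x7245609813 (.cons 0x9187065243 (.cons 0x7819065243 .nil))) .done .done)) .done) .done)) .done)) .done)) .done)) .done))) (.node 1 8 (.cons 0x7654321890 .nil) (.node 4 7 (.cons 0x6512347890 .nil) (.node 5 7 (.cons 0x6754321890 .nil) (.node 7 9 .nil (.node 0 5 (.cons 0x6798123450 .nil) (.node 4 8 (.cons 0x7654890123 (.cons 0x9845012376 .nil)) (.node 3 6 (.cons 0x2156347890 (.cons 0x7984563210 (.cons 0x5632109784 (.cons 0x3650984721 (.cons 0x2365489710 .nil))))) .done (.node 1 3 (.cons 0x1327654890 (.cons 0x8456790132 (.cons 0x4890567231 .nil))) .done .done)) (.node 5 9 (.cons 0x8123459076 .nil) (.node 5 8 (.cons 0x6732109854 .nil) (.node 2 8 (.cons 0x6734509821 .nil) (.node 0 4 (.cons 0x5678904321 (.cons 0x6798540123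 (.cons 0x6540179823 .nil))) (.node 0 6 (.cons 0x2345760981 (.cons 0x7985604321 (.cons 0x1798234560 .nil))) .done .done) .done) .done) .done) .done)) .done) .done) (.node 5 7 (.cons 0x6754321890 .nil) (.node 7 9 .nil (.node 0 5 (.cons 0x6798123450 .nil) (.node 2 6 (.cons 0x3457621890 (.cons 0x9810547623 (.cons 0x9051874326 .nil))) (.node 4 8 (.cons 0x6215734890 (.cons 0x9845012376 (.cons 0x9847105623 (.cons 0x5098437621 .nil)))) .done .done) (.node 5 9 (.cons 0x8123459076 .nil) (.node 5 8 (.cons 0x6732109854 .nil) (.node 0 4 (.cons 0x5678904321 (.cons 0x6798540123 .nil)) (.node 3 6 (.cons 0x6327451890 (.cons 0x4501897632 (.cons 0x9785632104 (.cons 0x2365897401 (.cons 0x8971045632 .nil))))) .done (.node 0 6 (.cons 0x2347890651 (.cons 0x6043798512 .nil)) .done .done)) .done) .done) .done)) .done) .done) .done)) (.node 0 5 (.cons 0x6734509812 .nil) (.node 0 6 (.cons 0x5437609812 .nil) (.node 1 6 (.cons 0x8905437612 .nil) (.node 2 6 (.cons 0x5437621890 .nil) (.node 2 5 (.cons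 0x6734521890 .nil) (.node 3 6 .nil (.node 0 4 (.cons 0x5678904321 (.cons 0x7218904563 (.cons 0x5409812763 (.cons 0x4098723651 .nil)))) .done (.node 1 4 (.cons 0x4156327890 .nil) (.node 1 3 (.cons 0x8905413672 .nil) (.node 1 9 (.cons 0x8912673450 .nil) .done .done) .done) .done)) .done) .done) .done) (.node 0 4 (.cons 0x5678904321 .nil) (.node 5 7 (.cons 0x6578904321 .nil) (.node 0 3 (.cons 0x7654309812 .nil) (.node 0 2 (.cons 0x9871560234 .nil) (.node 0 8 .nil (.node 2 6 (.cons 0x5437621890 (.cons 0x9805437621 (.cons 0x9081267345 (.cons 0x9804326571 .nil)))) .done .done) .done) .done) .done) (.node 1 4 (.cons 0x7890651432 .nil) (.node 1 6 (.cons 0x8905437612 .nil) (.node 1 3 .nil (.node 6 8 (.cons 0x9860451723 (.cons 0x9860451327 (.cons 0x4509867312 .nil))) .done .done) .done) .done) .done)) .done)) (.node 4 7 (.cons 0x6512347890 .nil) (.node 5 7 .nil (.node 0 4 (.cons 0x5678904321 (.cons 0x6578904321 .nil)) (.node 1 6 (.cons 0x8904321675 .nil) (.node 4 8 (.cons 0x7654890123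 (.cons 0x9845016732 (.cons 0x9078432165 (.cons 0x5489016732 .nil)))) .done (.node 2 6 (.cons 0x5437621890 (.cons 0x5762189043 .nil)) (.node 3 9 (.cons 0x4501893762 (.cons 0x9340578162 (.cons 0x5762189340 (.cons 0x8932675401 .nil)))) .done .done) .done)) .done) .done) (.node 0 6 (.cons 0x2347890651 .nil) (.node 0 3 (.cons 0x7654309812 .nil) (.node 0 8 (.cons 0x9806517432 .nil) (.node 0 2 .nil (.node 1 3 (.cons 0x8906513274 (.cons 0x5674318902 .nil)) (.node 1 6 (.cons 0x8903274561 .nil) .done .done) .done) .done) .done) (.node 0 4 (.cons 0x5678904321 .nil) (.node 0 3 (.cons 0x7654309812 .nil) (.node 5 7 (.cons 0x6578904321 .nil) (.node 7 9 .nil (.node 1 6 (.cons 0x3409875612 (.cons 0x8790432165 (.cons 0x8971650432 .nil))) .done .done) .done) .done) (.node 0 8 .nil (.node 2 5 (.cons 0x6734521890 (.cons 0x9806734521 (.cons 0x9081254376 .nil))) .done (.node 4 8 (.cons 0x7654890123 .nil) (.node 4 6 (.cons 0x8906451273 .nil) (.node 0 3 (.cons 0x7654309812 .nil) (.node 1 4 (.cons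 0x8903274156 .nil) .done .done) .done) .done) .done)) .done)) .done)) .done)) .done)) .done)) (.node 1 8 (.cons 0x7654321890 .nil) (.node 2 8 (.cons 0x6734512890 .nil) (.node 3 8 .nil (.node 0 4 (.cons 0x5678904321 (.cons 0x6721540983 (.cons 0x3890456721 .nil))) (.node 6 9 (.cons 0x5698712340 (.cons 0x9651283407 (.cons 0x7096543812 (.cons 0x1723896540 (.cons 0x7123896540 .nil))))) .done (.node 1 3 (.cons 0x4098315672 .nil) (.node 2 9 (.cons 0x9287651340 (.cons 0x6513872904 (.cons 0x8345129076 (.cons 0x9283407651 .nil)))) .done .done) .done)) (.node 5 8 (.cons 0x6732109854 .nil) (.node 6 8 (.cons 0x2154376890 .nil) (.node 4 8 (.cons 0x7654890123 .nil) (.node 0 8 .nil (.node 1 4 (.cons 0x1456723890 (.cons 0x9083276541 .nil)) .done .done) .done) .done) .done) .done)) (.node 0 2 (.cons 0x8902154376 .nil) (.node 0 5 .nil (.node 0 6 (.cons 0x9821760543 (.cons 0x9823450671 .nil)) (.node 3 6 (.cons 0x7634512890 (.cons 0x9051287634 (.cons 0x9823671054 .nil))) (.node 4 7 (.cons 0x9874365120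 (.cons 0x9874365021 (.cons 0x9823674501 .nil))) .done .done) .done) (.node 0 3 (.cons 0x4309876512 .nil) (.node 5 7 (.cons 0x6751289034 .nil) .done .done) .done)) (.node 5 7 .nil (.node 0 6 (.cons 0x8906734512 (.cons 0x3457609821 (.cons 0x9817560234 .nil))) .done (.node 4 7 (.cons 0x6574320981 .nil) (.node 7 9 .nil (.node 3 8 (.cons 0x5674389021 (.cons 0x4567983210 .nil)) (.node 2 4 (.cons 0x9832456710 (.cons 0x1567983420 (.cons 0x8324567901 (.cons 0x6542389710 .nil)))) .done .done) .done) .done) .done)) .done)) .done)) (.node 5 7 (.cons 0x6754321890 .nil) (.node 0 5 .nil (.node 2 8 (.cons 0x6734512890 .nil) (.node 0 6 (.cons 0x9821506734 (.cons 0x9817605432 .nil)) (.node 6 8 (.cons 0x2154376890 (.cons 0x4509867321 .nil)) (.node 1 4 (.cons 0x5410986732 (.cons 0x9054186723 .nil)) (.node 1 9 (.cons 0x5687091432 (.cons 0x6057341982 .nil)) .done .done) .done) .done) (.node 0 6 (.cons 0x9821734506 (.cons 0x9817605432 .nil)) (.node 4 6 (.cons 0x6457328901 (.cons 0x9821506437 (.cons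 0x9051287346 (.cons 0x9821734605 (.cons 0x3276450981 .nil))))) .done .done) .done)) (.node 4 7 (.cons 0x6509874321 .nil) (.node 7 9 .nil (.node 4 6 (.cons 0x9871234650 (.cons 0x8973210546 (.cons 0x8790564321 .nil))) (.node 0 4 (.cons 0x5678904321 .nil) (.node 3 5 (.cons 0x6789043512 (.cons 0x2354679810 (.cons 0x8109764532 .nil))) .done .done) .done) .done) .done) .done)) .done) .done)) .done)))
noncomputable def tc9_0_33 : T := (.node 2 7 (.cons 0x1276543890 .nil) (.node 0 4 (.cons 0x5678904321 (.cons 0x9832765401 .nil)) (.node 7 9 (.cons 0x6540127983 .nil) (.node 4 7 .nil (.node 1 5 (.cons 0x4321567890 (.cons 0x6512347890 (.cons 0x6510479832 (.cons 0x9047832156 (.cons 0x2156743890 .nil))))) .done (.node 5 7 (.cons 0x6578904321 .nil) (.node 1 4 (.cons 0x2389765410 (.cons 0x9041238756 (.cons 0x6754123890 .nil))) .done .done) .done)) (.node 1 6 (.cons 0x7983216540 (.cons 0x5612387904 (.cons 0x3897216540 .nil))) (.node 4 7 (.cons 0x9832740165 .nil) (.node 5 7 (.cons 0x9832756104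 .nil) .done .done) .done) .done)) (.node 5 7 (.cons 0x6754098321 .nil) (.node 4 7 .nil (.node 0 5 (.cons 0x6509871234 (.cons 0x6509874321 .nil)) (.node 1 9 (.cons 0x6723891054 (.cons 0x6501983274 (.cons 0x8345670912 .nil))) .done .done) (.node 7 9 (.cons 0x4567983210 .nil) (.node 1 5 (.cons 0x6798321540 (.cons 0x8321540976 .nil)) (.node 0 6 (.cons 0x2347890651 (.cons 0x8906517432 (.cons 0x6045127983 .nil))) (.node 2 6 (.cons 0x1562347890 (.cons 0x9015623874 (.cons 0x9834062751 (.cons 0x3890457621 .nil)))) .done .done) .done) .done) .done)) (.node 0 5 (.cons 0x6509871234 .nil) (.node 4 7 (.cons 0x6509874321 .nil) (.node 0 2 (.cons 0x5674389021 .nil) (.node 1 3 (.cons 0x9874312056 (.cons 0x6509874312 (.cons 0x8905674312 .nil))) (.node 1 6 (.cons 0x9876123405 (.cons 0x2098347561 (.cons 0x8905437612 .nil))) .done .done) .done) .done) (.node 1 9 (.cons 0x6721983450 (.cons 0x4389127650 (.cons 0x8345670912 .nil))) (.node 4 6 (.cons 0x8901237645 (.cons 0x9837645012 (.cons 0x9127834650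 (.cons 0x5467389012 (.cons 0x6450198372 .nil))))) .done .done) .done)) .done)) (.node 2 5 (.cons 0x3409876521 (.cons 0x9043876521 (.cons 0x6521789043 (.cons 0x6738904521 .nil)))) .done .done))) (.node 7 9 (.cons 0x4567983210 .nil) (.node 2 8 (.cons 0x1283456790 .nil) (.node 0 3 (.cons 0x9823017654 .nil) (.node 4 7 (.cons 0x6547983012 (.cons 0x9823017456 .nil)) .done (.node 0 5 (.cons 0x4305679821 (.cons 0x6509871234 (.cons 0x9821765034 .nil))) (.node 1 9 (.cons 0x6543821970 (.cons 0x6719823450 (.cons 0x4328917650 .nil))) .done .done) .done)) (.node 3 6 (.cons 0x9701283654 (.cons 0x7901283654 (.cons 0x7109823654 .nil))) (.node 4 7 (.cons 0x6547109823 .nil) (.node 0 3 (.cons 0x6547983012 (.cons 0x9823017456 .nil)) .done .done) .done) (.node 4 6 (.cons 0x8901237645 (.cons 0x5467901283 (.cons 0x5467389012 (.cons 0x5467109823 .nil)))) (.node 5 9 (.cons 0x8954673210 (.cons 0x6459701283 (.cons 0x3289546710 .nil))) (.node 1 4 (.cons 0x4123876590 (.cons 0x9564123870 (.cons 0x8321459076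 (.cons 0x6709541283 .nil)))) .done .done) .done) .done))) (.node 1 8 (.cons 0x9076543812 .nil) (.node 2 8 (.cons 0x3456712890 .nil) (.node 4 7 (.cons 0x6547109823 .nil) (.node 2 4 (.cons 0x3245679810 (.cons 0x9765423810 .nil)) (.node 5 7 (.cons 0x6754210983 .nil) .done .done) (.node 3 6 (.cons 0x4563289710 (.cons 0x2836547901 (.cons 0x5634712890 (.cons 0x3654710982 .nil)))) .done .done)) (.node 2 4 (.cons 0x3245679810 (.cons 0x9765423810 (.cons 0x9701832456 .nil))) (.node 4 6 (.cons 0x8901237645 (.cons 0x5467389012 (.cons 0x5467109823 .nil))) (.node 0 5 (.cons 0x9764501823 (.cons 0x9783246501 (.cons 0x6712890543 .nil))) (.node 1 9 (.cons 0x5642387910 (.cons 0x9183276450 (.cons 0x7650198324 (.cons 0x3827645091 .nil)))) .done .done) .done) .done) .done)) (.node 2 6 (.cons 0x9701832654 (.cons 0x7901832654 .nil)) (.node 4 6 (.cons 0x5462379810 (.cons 0x8109732645 (.cons 0x5467389012 .nil))) (.node 0 2 (.cons 0x5643209871 (.cons 0x7189023465 .nil)) (.node 1 5 (.cons 0x6798320154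 (.cons 0x4326518790 (.cons 0x3726451890 .nil))) .done .done) .done) (.node 4 7 (.cons 0x9074381265 .nil) (.node 5 7 (.cons 0x9075621834 .nil) .done .done) .done)) (.node 5 9 (.cons 0x8123459076 (.cons 0x6709543812 .nil)) (.node 4 6 (.cons 0x8709564321 (.cons 0x6459701832 (.cons 0x8712346590 (.cons 0x5467389012 (.cons 0x6459072381 .nil))))) .done (.node 1 4 (.cons 0x2389765410 (.cons 0x4123876590 (.cons 0x6590783214 .nil))) (.node 2 5 (.cons 0x3412567890 (.cons 0x6790183254 (.cons 0x9078341256 .nil))) (.node 0 6 (.cons 0x7609812345 (.cons 0x4125983760 (.cons 0x9837601254 (.cons 0x9837601452 .nil)))) .done .done) .done) .done)) .done))) .done)) .done)) (.node 0 5 (.cons 0x6509871234 .nil) (.node 4 9 (.cons 0x7654983210 (.cons 0x6738945012 (.cons 0x2389456710 .nil))) (.node 4 6 (.cons 0x8901237645 (.cons 0x7894650123 (.cons 0x9465012387 (.cons 0x9837645012 .nil)))) (.node 0 2 (.cons 0x5643209871 (.cons 0x9832017645 (.cons 0x7102389465 .nil))) .done .done) (.node 4 6 (.cons 0x8901237645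 (.cons 0x9467832105 (.cons 0x9837645012 .nil))) (.node 1 6 (.cons 0x8761234905 (.cons 0x8905437612 .nil)) (.node 1 9 (.cons 0x7891234650 .nil) (.node 0 2 (.cons 0x7891205643 (.cons 0x5021987643 (.cons 0x7650219834 .nil))) .done .done) .done) (.node 0 2 (.cons 0x5643209871 (.cons 0x9832017645 .nil)) (.node 0 4 (.cons 0x9834021765 .nil) (.node 2 5 (.cons 0x9871046523 (.cons 0x9467832501 (.cons 0x8901732546 (.cons 0x3256409871 .nil)))) .done .done) .done) .done)) .done)) (.node 2 8 (.cons 0x6734509821 (.cons 0x6712890543 .nil)) (.node 2 9 (.cons 0x6738921054 (.cons 0x6712983450 (.cons 0x4389217650 .nil))) (.node 6 9 (.cons 0x9650712834 (.cons 0x9654382170 (.cons 0x8234569071 .nil))) (.node 4 7 (.cons 0x6982105473 (.cons 0x9654701283 (.cons 0x6547109823 .nil))) .done .done) .done) (.node 2 9 (.cons 0x6738921054 (.cons 0x6712983450 (.cons 0x4389217650 .nil))) (.node 4 6 (.cons 0x3764509821 (.cons 0x9217834650 (.cons 0x6450173892 .nil))) (.node 0 6 (.cons 0x5064378921 (.cons 0x8921734605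 (.cons 0x8923710645 .nil))) .done (.node 6 8 (.cons 0x9210738645 (.cons 0x8654329071 .nil)) .done .done)) .done) .done)) (.node 4 9 (.cons 0x7654983210 (.cons 0x6710549832 (.cons 0x2389456710 .nil))) (.node 2 4 (.cons 0x6501789423 (.cons 0x9423871056 (.cons 0x9832450176 .nil))) (.node 6 8 (.cons 0x5687094321 (.cons 0x5421098673 (.cons 0x5423768901 (.cons 0x9456832170 .nil)))) .done .done) (.node 0 6 (.cons 0x5498376012 .nil) (.node 0 3 (.cons 0x7654983012 .nil) (.node 2 6 (.cons 0x5498376210 (.cons 0x5621789430 (.cons 0x7126549830 .nil))) (.node 5 9 (.cons 0x7830126594 (.cons 0x8349560712 (.cons 0x4956217830 .nil))) .done .done) .done) (.node 5 9 (.cons 0x4598376012 .nil) (.node 0 2 (.cons 0x6594387021 (.cons 0x9834560217 (.cons 0x7120659834 .nil))) (.node 2 6 (.cons 0x5498376210 (.cons 0x8954371260 (.cons 0x6205943871 (.cons 0x8349562170 (.cons 0x4598371260 .nil))))) .done .done) (.node 0 4 (.cons 0x5678904321 (.cons 0x6045983712 (.cons 0x6712389540 .nil))) .done .done))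 .done)) .done)) .done))) (.node 4 7 (.cons 0x6547109832 .nil) (.node 6 9 (.cons 0x7456983210 (.cons 0x8345690712 (.cons 0x2389654710 (.cons 0x8321709654 .nil)))) (.node 0 5 (.cons 0x6509871234 (.cons 0x2174389650 (.cons 0x4710569832 .nil))) (.node 2 7 (.cons 0x1274389650 .nil) (.node 0 6 (.cons 0x4560983271 .nil) (.node 0 8 (.cons 0x5089674321 .nil) (.node 1 6 (.cons 0x9837216054 (.cons 0x9083271654 .nil)) .done .done) .done) .done) .done) .done) (.node 2 7 (.cons 0x6547210983 .nil) (.node 6 9 (.cons 0x3896547210 (.cons 0x8345690712 (.cons 0x4569832710 (.cons 0x8321709654 .nil)))) (.node 2 5 (.cons 0x8347096521 (.cons 0x8347125690 .nil)) (.node 0 6 (.cons 0x3478906521 (.cons 0x4325609871 .nil)) (.node 0 3 (.cons 0x5698301274 (.cons 0x8903471256 .nil)) (.node 0 5 (.cons 0x1274389650 .nil) .done .done) .done) (.node 0 6 (.cons 0x6098374521 (.cons 0x6098371254 (.cons 0x9832710654 .nil))) .done .done)) .done) (.node 0 6 (.cons 0x3890654721 (.cons 0x5609834712 (.cons 0x4560983271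 .nil))) (.node 7 9 (.cons 0x2179834560 .nil) (.node 2 6 (.cons 0x7456210983 (.cons 0x4562389710 (.cons 0x5621743890 .nil))) (.node 1 8 (.cons 0x5438179062 (.cons 0x2654381790 .nil)) (.node 2 8 (.cons 0x3826547901 (.cons 0x5438260971 .nil)) .done .done) .done) .done) .done) .done)) .done)) .done)))
noncomputable def uc9_0_5 : T := (.node 3 8 (.cons 0x4567109832 .nil) tc9_0_33 (.node 2 7 .nil (.node 1 8 (.cons 0x7654321890 (.cons 0x3456721890 .nil)) (.node 0 6 (.cons 0x7218906543 (.cons 0x9817234560 .nil)) (.node 1 5 (.cons 0x4321567890 (.cons 0x8906734512 .nil)) (.node 4 7 (.cons 0x9065187432 .nil) (.node 4 9 (.cons 0x8765123490 (.cons 0x8760943215 (.cons 0x6518723490 .nil))) (.node 0 8 (.cons 0x9806712345 (.cons 0x6512780943 (.cons 0x6549801723 .nil))) .done .done) .done) .done) (.node 4 7 (.cons 0x5609812743 .nil) (.node 3 8 (.cons 0x4567238901 .nil) (.node 2 6 (.cons 0x9018326547 (.cons 0x9074562381 .nil)) (.node 5 9 (.cons 0x6237459810 (.cons 0x4710659832 (.cons 0x4598376210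 (.cons 0x4327189560 .nil)))) (.node 0 4 (.cons 0x5678904321 (.cons 0x2389560471 (.cons 0x6712389540 (.cons 0x1267389540 .nil)))) .done .done) .done) (.node 5 9 (.cons 0x2347189560 (.cons 0x4723895601 (.cons 0x9560721834 (.cons 0x4327189560 .nil)))) (.node 5 7 (.cons 0x2347560981 .nil) (.node 7 9 (.cons 0x4567983210 .nil) .done .done) .done) .done)) .done) .done)) (.node 0 5 (.cons 0x6721890543 (.cons 0x6723450981 .nil)) (.node 6 8 (.cons 0x9076812345 (.cons 0x9867321054 (.cons 0x4509867321 .nil))) (.node 4 8 (.cons 0x7654890123 (.cons 0x9845012376 (.cons 0x3276548901 .nil))) (.node 3 9 (.cons 0x5439076812 (.cons 0x8654390721 (.cons 0x5684390721 (.cons 0x6548932710 .nil)))) .done .done) (.node 2 9 (.cons 0x6892371054 (.cons 0x1768923450 .nil)) (.node 0 4 (.cons 0x9865401723 (.cons 0x5043298671 (.cons 0x8921765043 (.cons 0x8923405671 .nil)))) .done (.node 1 4 (.cons 0x5410986732 (.cons 0x8673290541 (.cons 0x6892371450 .nil))) (.node 0 3 (.cons 0x8903412765 (.cons 0x6718923054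 .nil)) (.node 1 5 (.cons 0x9034156872 (.cons 0x9072345186 .nil)) .done .done) .done) .done)) .done)) (.node 1 6 (.cons 0x7890561234 (.cons 0x8905437216 .nil)) (.node 1 5 (.cons 0x4321567890 .nil) (.node 5 9 (.cons 0x8123459076 (.cons 0x8167234590 .nil)) (.node 5 7 (.cons 0x6754321890 .nil) (.node 4 7 (.cons 0x6509874321 .nil) (.node 7 9 (.cons 0x8790561234 .nil) .done .done) .done) .done) .done) (.node 0 6 (.cons 0x7609812345 (.cons 0x5432760981 .nil)) (.node 0 8 (.cons 0x9805617234 .nil) (.node 4 7 (.cons 0x8905612743 (.cons 0x9805617432 .nil)) .done .done) .done) .done)) .done)) .done)) (.node 1 5 (.cons 0x4321567890 .nil) tc9_0_32 .done)) (.node 3 8 (.cons 0x2176543890 .nil) tc9_0_31 .done)))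
theorem sub_c9_0_5 : root 9 refs9_0 [] 0x700000008704000000004060050070060500000000504000000004010000050010300000000302000000002018070000010 0xfe7fff6fff0fff9fffcfffedffd5fff3fff9fe7d 9 1 7 .nil uc9_0_5 = true := by decide +kernel
noncomputable def tc9_0_34 : T := (.node 2 7 (.cons 0x3456721890 .nil) (.node 1 7 .nil (.node 0 5 (.cons 0x6721890543 .nil) (.node 0 6 (.cons 0x9874321560 .nil) (.node 4 8 (.cons 0x9056784321 (.cons 0x7123489065 (.cons 0x7156098432 .nil))) (.node 0 8 (.cons 0x9806512347 .nil) (.node 6 9 (.cons 0x9650874321 (.cons 0x8096543712 (.cons 0x6905178432 (.cons 0x3217456980 .nil)))) .done .done) .done) (.node 2 4 (.cons 0x7890651243 (.cons 0x5609871243 .nil)) (.node 4 6 (.cons 0x5127890643 (.cons 0x2346517890 .nil)) .done .done) .done)) (.node 2 4 (.cons 0x6509871243 .nil) (.node 3 6 (.cons 0x5436721890 (.cons 0x9870156324 (.cons 0x7098156342 (.cons 0x9874236510 .nil)))) .done (.node 4 6 (.cons 0x2346517890 .nil) (.node 2 9 (.cons 0x6518709243 (.cons 0x5643781290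 (.cons 0x8156437092 .nil))) (.node 0 3 (.cons 0x7654309812 (.cons 0x3056478921 (.cons 0x6478921503 (.cons 0x8923074651 .nil)))) .done .done) (.node 5 7 .nil (.node 0 2 (.cons 0x7890215643 (.cons 0x8902175643 .nil)) .done (.node 5 9 (.cons 0x3421876590 .nil) (.node 0 2 (.cons 0x3420956781 (.cons 0x8176590243 .nil)) (.node 3 8 (.cons 0x4238765901 (.cons 0x9564201783 (.cons 0x3871095642 (.cons 0x6457120983 (.cons 0x4567109832 .nil))))) .done .done) .done) .done)) .done)) .done)) .done)) .done) (.node 1 7 .nil (.node 5 7 .nil (.node 4 8 (.cons 0x7654890123 (.cons 0x6754890123 (.cons 0x6571234890 .nil))) (.node 0 3 (.cons 0x7654309812 (.cons 0x6548903271 (.cons 0x6517230984 (.cons 0x6754309812 .nil)))) .done .done) (.node 0 5 (.cons 0x6509871234 .nil) (.node 2 9 (.cons 0x6509218734 (.cons 0x8129054376 (.cons 0x8129056734 .nil))) (.node 0 6 (.cons 0x8923470651 (.cons 0x3478921560 .nil)) (.node 3 9 (.cons 0x6501239874 (.cons 0x8932105476 (.cons 0x2189347650 (.cons 0x2934781560 .nil))))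 .done .done) .done) (.node 7 9 .nil (.node 3 8 (.cons 0x4567109832 (.cons 0x4567983210 (.cons 0x6547983210 (.cons 0x6790543812 .nil)))) .done (.node 1 9 (.cons 0x8765091234 .nil) (.node 0 8 (.cons 0x5674321980 .nil) (.node 6 9 (.cons 0x9650874321 (.cons 0x8096543712 (.cons 0x8056917432 (.cons 0x3217456980 .nil)))) .done (.node 2 5 (.cons 0x9081254376 .nil) (.node 2 8 (.cons 0x6519823470 (.cons 0x6543289071 .nil)) .done .done) .done)) .done) .done)) .done)) .done)) (.node 1 9 .nil (.node 2 6 (.cons 0x8907154326 (.cons 0x4326519870 (.cons 0x8709156234 (.cons 0x8915623470 .nil)))) .done (.node 0 8 (.cons 0x5674321980 .nil) (.node 5 7 (.cons 0x6574321980 .nil) (.node 7 9 (.cons 0x6543790812 .nil) .done .done) (.node 1 3 .nil (.node 2 8 (.cons 0x6519823470 (.cons 0x9823107654 (.cons 0x9823107456 .nil))) .done (.node 3 5 (.cons 0x9801235476 .nil) (.node 1 4 (.cons 0x4109876532 .nil) (.node 1 6 (.cons 0x9801674532 .nil) .done .done) .done) .done)) .done)) .done)) .done)) .done))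 (.node 3 5 (.cons 0x8901235476 .nil) (.node 3 6 (.cons 0x8901236745 .nil) (.node 0 6 (.cons 0x7890651234 .nil) (.node 1 6 .nil (.node 5 8 (.cons 0x6745890123 (.cons 0x9061587432 (.cons 0x3216745890 .nil))) .done (.node 2 6 (.cons 0x5189074362 .nil) (.node 1 7 .nil (.node 3 8 (.cons 0x9832615470 (.cons 0x4562389071 (.cons 0x6238907154 (.cons 0x4567109832 .nil)))) .done .done) .done) .done)) (.node 1 3 .nil (.node 2 5 (.cons 0x6347098152 (.cons 0x8906745213 .nil)) (.node 2 4 (.cons 0x7098156342 (.cons 0x9870651342 (.cons 0x9078134256 .nil))) .done .done) (.node 0 3 (.cons 0x7654309812 .nil) (.node 3 8 (.cons 0x9835476012 .nil) (.node 3 9 (.cons 0x8935476012 .nil) .done .done) .done) .done)) .done)) (.node 2 5 (.cons 0x6325109874 .nil) (.node 2 4 (.cons 0x7890156324 .nil) (.node 2 7 (.cons 0x3456721890 .nil) (.node 2 6 (.cons 0x3627451890 .nil) (.node 0 5 (.cons 0x9812674350 .nil) (.node 5 7 (.cons 0x2634751890 .nil) .done .done) .done) .done) (.node 0 5 .nil (.node 2 9 (.cons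 0x6347815290 (.cons 0x8129054376 (.cons 0x4763501892 (.cons 0x4290563781 .nil)))) .done (.node 5 7 (.cons 0x4236578901 .nil) (.node 1 7 (.cons 0x2436509871 .nil) (.node 2 7 (.cons 0x3456721890 .nil) .done .done) .done) .done)) .done)) (.node 2 7 (.cons 0x3456721890 .nil) (.node 1 7 .nil (.node 0 8 (.cons 0x9801547236 (.cons 0x9801723654 .nil)) (.node 2 8 (.cons 0x5476328901 (.cons 0x6543289071 .nil)) .done .done) .done) .done) .done)) .done)) (.node 3 6 (.cons 0x8901236745 .nil) (.node 6 8 (.cons 0x2354768901 .nil) (.node 4 8 (.cons 0x7654890123 .nil) (.node 1 4 (.cons 0x4109876532 .nil) (.node 1 6 (.cons 0x8901674532 .nil) (.node 2 4 (.cons 0x4235678901 .nil) (.node 0 4 (.cons 0x5678904321 .nil) (.node 4 6 (.cons 0x6478901532 .nil) .done .done) .done) .done) .done) (.node 0 8 (.cons 0x9801236745 .nil) (.node 3 8 .nil (.node 2 4 (.cons 0x4235678901 (.cons 0x9832456701 .nil)) (.node 4 9 (.cons 0x8765324901 (.cons 0x8376549012 (.cons 0x5678324901 .nil))) .done .done) .done)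 .done) .done)) (.node 5 8 (.cons 0x9854763210 .nil) (.node 1 7 .nil (.node 2 8 (.cons 0x6745328901 (.cons 0x6543289071 (.cons 0x6710982354 .nil))) .done (.node 1 4 (.cons 0x4109876532 .nil) (.node 1 6 (.cons 0x8901674532 .nil) (.node 1 3 (.cons 0x6890745132 .nil) (.node 1 9 (.cons 0x2368915470 .nil) .done .done) .done) .done) .done)) .done) .done)) (.node 1 4 (.cons 0x4109876532 .nil) (.node 1 6 (.cons 0x8901674532 .nil) (.node 0 6 (.cons 0x9870651432 .nil) (.node 1 7 .nil (.node 4 6 (.cons 0x6478901532 (.cons 0x2346517890 .nil)) .done .done) .done) .done) (.node 1 6 (.cons 0x8901674532 .nil) (.node 1 7 .nil (.node 0 8 (.cons 0x9801674532 (.cons 0x9807165432 .nil)) (.node 0 3 (.cons 0x7654309812 .nil) (.node 4 6 (.cons 0x6478901532 (.cons 0x5643098712 (.cons 0x2346517890 .nil))) .done .done) .done) .done) .done) .done)) .done)) .done)) (.node 0 4 (.cons 0x5678904321 .nil) (.node 3 5 (.cons 0x9043567812 .nil) (.node 7 9 (.cons 0x8790432156 .nil) (.node 1 9 .nil (.node 6 8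 (.cons 0x6879043215 (.cons 0x9156870432 (.cons 0x7865190432 (.cons 0x8679123540 .nil)))) .done (.node 2 9 (.cons 0x9218765340 .nil) (.node 3 9 (.cons 0x8740129356 .nil) (.node 4 9 (.cons 0x4987653210 .nil) .done .done) (.node 2 7 (.cons 0x3456721890 .nil) (.node 1 7 .nil (.node 4 6 (.cons 0x8976453210 (.cons 0x2346517890 .nil)) (.node 0 3 (.cons 0x9812765430 (.cons 0x8923071546 (.cons 0x8923071564 .nil))) (.node 0 8 (.cons 0x7089156432 (.cons 0x6451708923 .nil)) .done .done) .done) .done) .done) .done)) .done)) (.node 5 7 .nil (.node 0 5 .nil (.node 2 9 (.cons 0x9218765340 (.cons 0x6578129043 (.cons 0x8129054376 (.cons 0x8129056734 .nil)))) .done (.node 0 6 (.cons 0x3478906512 .nil) (.node 0 2 (.cons 0x6512098743 (.cons 0x9812067534 .nil)) (.node 0 3 (.cons 0x7654309812 (.cons 0x6754309812 .nil)) .done .done) .done) .done)) .done) .done)) (.node 1 4 (.cons 0x4109876532 .nil) (.node 4 6 .nil (.node 2 4 (.cons 0x9018735642 (.cons 0x5324678901 .nil)) .done (.node 1 7 (.cons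 0x2346517890 .nil) (.node 7 9 (.cons 0x8790432156 .nil) (.node 0 5 (.cons 0x8905432176 .nil) (.node 5 9 (.cons 0x8765904321 .nil) .done .done) .done) .done) .done)) (.node 2 4 (.cons 0x4235678901 .nil) (.node 4 6 (.cons 0x9870156423 .nil) (.node 4 8 (.cons 0x9015648732 .nil) (.node 4 9 (.cons 0x6510789423 .nil) .done .done) .done) (.node 4 9 (.cons 0x6537810942 .nil) (.node 4 6 (.cons 0x9018735642 .nil) (.node 4 8 (.cons 0x6510948732 .nil) .done .done) .done) .done)) .done)) .done)) (.node 5 7 (.cons 0x6578904321 .nil) (.node 4 9 (.cons 0x6578940123 .nil) (.node 1 9 (.cons 0x6578912340 .nil) (.node 0 8 (.cons 0x6754980123 .nil) (.node 0 3 (.cons 0x7654309812 .nil) (.node 0 2 (.cons 0x6512098743 .nil) (.node 0 5 (.cons 0x6750349812 .nil) (.node 0 6 (.cons 0x9875604321 .nil) .done .done) .done) .done) .done) .done) (.node 0 8 .nil (.node 1 3 (.cons 0x6578940132 (.cons 0x7654980132 (.cons 0x6754980132 .nil))) (.node 1 9 (.cons 0x6578912340 (.cons 0x6754321980 .nil)) .done .done)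 (.node 4 8 (.cons 0x6510948732 .nil) (.node 0 3 (.cons 0x7654309812 .nil) (.node 0 2 (.cons 0x6518734902 .nil) (.node 2 5 (.cons 0x8903476521 .nil) (.node 1 7 (.cons 0x9481765203 .nil) (.node 2 7 (.cons 0x3456721890 .nil) .done .done) .done) .done) .done) .done) .done)) .done)) (.node 2 5 (.cons 0x9043781256 .nil) (.node 2 7 (.cons 0x3456721890 .nil) (.node 7 9 .nil (.node 0 2 (.cons 0x6512098743 (.cons 0x8120976543 .nil)) (.node 0 3 (.cons 0x7654309812 (.cons 0x6798125430 .nil)) .done .done) .done) .done) (.node 7 9 (.cons 0x6521879043 .nil) (.node 0 8 (.cons 0x6790812543 .nil) (.node 0 2 (.cons 0x6512098743 .nil) (.node 0 3 (.cons 0x7654309812 .nil) .done .done) .done) .done) .done)) .done)) (.node 0 3 (.cons 0x7654309812 .nil) (.node 0 8 .nil (.node 0 2 (.cons 0x6512098743 .nil) (.node 3 5 (.cons 0x9021876534 .nil) (.node 7 9 (.cons 0x8120976543 (.cons 0x6798012354 (.cons 0x6798045321 .nil))) .done (.node 7 9 (.cons 0x8120976543 .nil) (.node 1 4 (.cons 0x4109876532 (.cons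 0x6798014532 .nil)) (.node 2 6 (.cons 0x6209781534 (.cons 0x4532679801 (.cons 0x5341809762 (.cons 0x8097623541 .nil)))) .done .done) (.node 1 4 (.cons 0x4109876532 (.cons 0x3214567980 (.cons 0x8097654123 .nil))) .done .done)) .done)) (.node 4 9 (.cons 0x8120943765 .nil) (.node 5 7 (.cons 0x8120943756 .nil) (.node 1 9 (.cons 0x8912034756 (.cons 0x6754321980 (.cons 0x6574308912 .nil))) .done (.node 1 4 (.cons 0x6578903214 (.cons 0x6578094123 .nil)) (.node 3 6 (.cons 0x2156347890 (.cons 0x3657498021 (.cons 0x7563214980 (.cons 0x7563208941 .nil)))) .done .done) .done)) (.node 2 6 (.cons 0x2651873490 (.cons 0x7809432651 (.cons 0x4908732651 .nil))) (.node 1 3 (.cons 0x8902134765 (.cons 0x7654980132 (.cons 0x7623108945 (.cons 0x9807431562 .nil)))) .done .done) .done)) .done)) .done) (.node 0 2 (.cons 0x6512098743 .nil) (.node 0 6 (.cons 0x3478906512 .nil) (.node 0 5 .nil (.node 4 9 (.cons 0x8734906512 (.cons 0x6509437812 .nil)) (.node 2 4 (.cons 0x7890651243 (.cons 0x3249876501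 .nil)) (.node 1 7 (.cons 0x5609871243 (.cons 0x6501789423 (.cons 0x8905432176 .nil))) .done .done) .done) .done) .done) (.node 0 8 .nil (.node 3 5 (.cons 0x6534789021 .nil) (.node 7 9 (.cons 0x8120973456 (.cons 0x6798012354 (.cons 0x6798045321 .nil))) .done (.node 3 6 (.cons 0x2156347890 .nil) (.node 2 7 (.cons 0x3456721890 (.cons 0x9803472156 (.cons 0x9803651274 .nil))) (.node 5 9 (.cons 0x5987632104 (.cons 0x1276345980 (.cons 0x6308951274 .nil))) .done .done) .done) .done)) .done) .done)) .done)) .done))) .done)))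
noncomputable def tc9_0_35 : T := (.node 0 3 (.cons 0x7654309812 .nil) (.node 0 4 (.cons 0x5678904321 .nil) (.node 0 5 .nil (.node 2 9 (.cons 0x5678129043 (.cons 0x6509218734 (.cons 0x8129054376 (.cons 0x8129056734 .nil)))) (.node 4 8 (.cons 0x3765481290 (.cons 0x9218450376 (.cons 0x9051234876 .nil))) (.node 0 2 (.cons 0x9023487651 .nil) (.node 1 7 (.cons 0x6548092371 (.cons 0x9843205671 (.cons 0x8905432176 .nil))) .done .done) .done) .done) (.node 5 7 (.cons 0x6754309812 .nil) (.node 0 2 (.cons 0x9812034576 .nil) (.node 0 6 .nil (.node 1 9 (.cons 0x9123408756 (.cons 0x4321987560 (.cons 0x8912345760 (.cons 0x7560891234 .nil)))) .done .done) .done) (.node 0 6 .nil (.node 2 5 (.cons 0x9812543067 (.cons 0x9065218734 .nil)) (.node 4 6 (.cons 0x9876430521 (.cons 0x9087346521 (.cons 0x9034678152 .nil))) .done .done) (.node 1 6 (.cons 0x8903216754 .nil) (.node 0 2 .nil (.node 5 9 (.cons 0x8765904321 (.cons 0x4320789561 (.cons 0x7618954302 .nil))) .done .done) .done) .done)) .done))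 .done)) (.node 0 5 .nil (.node 2 9 (.cons 0x8765129043 (.cons 0x6509218734 (.cons 0x8129054376 (.cons 0x8129056734 .nil)))) (.node 2 7 (.cons 0x3456721890 (.cons 0x6721890543 .nil)) (.node 1 3 (.cons 0x5678904312 (.cons 0x9876504312 (.cons 0x9872134056 .nil))) (.node 4 8 (.cons 0x3765481290 (.cons 0x7650489213 (.cons 0x9051234876 (.cons 0x4813765092 .nil)))) .done .done) .done) .done) .done) .done)) (.node 0 5 .nil (.node 2 7 (.cons 0x3456721890 (.cons 0x9812765034 (.cons 0x6721890543 .nil))) (.node 2 9 (.cons 0x6509218734 (.cons 0x8129054376 (.cons 0x8129056734 .nil))) (.node 2 8 (.cons 0x9281567034 (.cons 0x6709281543 .nil)) .done .done) .done) (.node 0 4 (.cons 0x5678904321 .nil) (.node 0 6 .nil (.node 1 7 (.cons 0x9806543217 (.cons 0x8906712345 .nil)) (.node 4 9 (.cons 0x8765123490 (.cons 0x5609437812 (.cons 0x8760943215 (.cons 0x6517809432 .nil)))) (.node 2 8 (.cons 0x8210945673 (.cons 0x5671289430 (.cons 0x6712890543 (.cons 0x6549082173 .nil)))) .done .done) .done)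 .done) (.node 4 8 (.cons 0x7654890123 .nil) (.node 4 7 (.cons 0x5674309812 .nil) (.node 0 6 .nil (.node 1 7 (.cons 0x9843056712 (.cons 0x9806543217 (.cons 0x8906712345 .nil))) .done (.node 0 2 .nil (.node 3 9 (.cons 0x7654893210 (.cons 0x8743902156 (.cons 0x7654893201 .nil))) (.node 4 6 (.cons 0x8764390512 (.cons 0x5187643902 .nil)) .done .done) .done) .done)) .done) (.node 0 2 (.cons 0x9023487651 .nil) (.node 0 6 .nil (.node 1 7 (.cons 0x9806543217 (.cons 0x8906712345 .nil)) (.node 2 4 (.cons 0x9015678423 (.cons 0x9842301765 (.cons 0x6509871243 .nil))) .done .done) .done) .done) .done)) .done)) .done)) .done)) (.node 0 3 (.cons 0x7654309812 .nil) (.node 0 4 (.cons 0x5678904321 .nil) (.node 3 5 (.cons 0x9043567812 .nil) (.node 3 8 .nil (.node 7 9 (.cons 0x6798012354 (.cons 0x6790834512 (.cons 0x6790832154 .nil))) (.node 6 8 (.cons 0x9768321045 (.cons 0x4510976832 (.cons 0x4512386790 .nil))) .done .done) (.node 0 5 .nil (.node 1 7 (.cons 0x4567109832 (.cons 0x9805432176 (.cons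 0x8905432176 .nil))) .done (.node 3 6 .nil (.node 1 7 (.cons 0x4567109832 (.cons 0x9805436712 (.cons 0x8905436712 .nil))) .done (.node 0 6 .nil (.node 1 7 (.cons 0x4567109832 (.cons 0x9806712345 (.cons 0x8906712345 .nil))) .done .done) .done)) .done)) .done)) (.node 3 8 .nil (.node 2 4 (.cons 0x4235678901 (.cons 0x9832456701 .nil)) (.node 6 9 (.cons 0x5437690812 (.cons 0x7096518342 (.cons 0x7834215690 (.cons 0x7381096542 (.cons 0x7381245690 .nil))))) .done (.node 0 2 (.cons 0x9024351876 .nil) (.node 0 6 (.cons 0x9067815342 (.cons 0x9067834215 .nil)) .done .done) .done)) (.node 3 6 .nil (.node 2 7 (.cons 0x3456721890 (.cons 0x5436721890 (.cons 0x7218903654 .nil))) (.node 0 5 (.cons 0x9805436721 .nil) (.node 2 9 (.cons 0x2904356781 (.cons 0x4365187092 (.cons 0x4536729810 (.cons 0x8129056734 (.cons 0x9276354081 .nil))))) .done .done) .done) (.node 1 6 .nil (.node 2 7 (.cons 0x3456721890 (.cons 0x9816543072 (.cons 0x8901672354 .nil))) (.node 2 4 (.cons 0x9832456701 (.cons 0x9816542703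 (.cons 0x9042781653 (.cons 0x3542761890 .nil)))) .done .done) (.node 0 5 (.cons 0x9805432167 .nil) (.node 0 6 .nil (.node 1 7 (.cons 0x9834506712 .nil) (.node 0 2 (.cons 0x4356718902 .nil) .done .done) .done) .done) .done)) .done)) .done)) .done)) (.node 0 5 .nil (.node 1 7 (.cons 0x9805432176 (.cons 0x8905432176 .nil)) (.node 2 9 (.cons 0x8765129043 (.cons 0x6509218734 (.cons 0x8129054376 (.cons 0x8129056734 .nil)))) (.node 3 8 (.cons 0x4567381290 (.cons 0x3892176540 (.cons 0x4567109832 .nil))) .done .done) .done) .done) .done)) (.node 4 8 (.cons 0x7654890123 .nil) (.node 4 7 (.cons 0x5674309812 .nil) (.node 1 4 .nil (.node 2 8 (.cons 0x9078234156 (.cons 0x3289076541 .nil)) (.node 2 9 (.cons 0x6543709281 (.cons 0x6709281543 (.cons 0x5670148923 (.cons 0x5670329841 .nil)))) .done .done) (.node 1 7 .nil (.node 2 8 (.cons 0x9078234156 (.cons 0x6543289071 (.cons 0x6541709823 .nil))) .done (.node 2 7 (.cons 0x3456721890 .nil) (.node 2 8 (.cons 0x9078234156 .nil) (.node 1 6 (.cons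 0x9823456170 .nil) (.node 1 3 (.cons 0x9845670132 .nil) (.node 1 9 (.cons 0x6543289170 .nil) .done .done) .done) .done) .done) .done)) .done)) (.node 2 8 (.cons 0x5674309821 .nil) (.node 3 8 (.cons 0x9012837456 .nil) (.node 6 8 (.cons 0x9012865473 .nil) (.node 5 8 .nil (.node 1 7 (.cons 0x6543289071 (.cons 0x6712345890 .nil)) (.node 4 9 (.cons 0x2389456710 (.cons 0x6587321094 (.cons 0x6785123490 (.cons 0x4985671032 .nil)))) .done .done) .done) .done) .done) (.node 6 8 .nil (.node 2 9 (.cons 0x3298456701 (.cons 0x3478651290 (.cons 0x5437681290 (.cons 0x5129086743 .nil)))) .done (.node 3 8 (.cons 0x9038215674 .nil) (.node 5 8 .nil (.node 1 4 (.cons 0x3289076541 (.cons 0x9037412856 (.cons 0x9014586732 .nil))) .done .done) .done) .done)) .done)) .done)) (.node 0 4 (.cons 0x5678904321 .nil) (.node 0 6 (.cons 0x9065123487 .nil) (.node 0 5 .nil (.node 1 7 (.cons 0x9805432176 (.cons 0x8905432176 .nil)) (.node 1 6 (.cons 0x9805432167 (.cons 0x5617098432 .nil)) .done .done) (.node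 0 2 .nil (.node 7 9 (.cons 0x6512348790 (.cons 0x6512097843 (.cons 0x6548120973 .nil))) (.node 1 7 (.cons 0x6509871234 .nil) (.node 1 6 (.cons 0x7890561234 (.cons 0x9843207165 .nil)) .done .done) .done) .done) .done)) .done) (.node 0 6 (.cons 0x9065123487 .nil) (.node 4 7 (.cons 0x5674309812 .nil) (.node 4 6 (.cons 0x9087643215 .nil) (.node 4 9 (.cons 0x8765123490 .nil) (.node 1 4 .nil (.node 2 5 (.cons 0x9812567430 (.cons 0x9814307652 (.cons 0x7890146523 (.cons 0x9087641523 .nil)))) .done .done) .done) .done) (.node 4 9 (.cons 0x8765123490 .nil) (.node 4 6 (.cons 0x9087643215 .nil) (.node 1 4 .nil (.node 2 5 (.cons 0x6523784901 (.cons 0x3256789410 (.cons 0x9870146523 (.cons 0x8149037652 .nil)))) .done .done) .done) .done) .done)) .done) .done)) (.node 0 2 (.cons 0x9023487651 .nil) (.node 0 6 .nil (.node 1 7 (.cons 0x9806712345 (.cons 0x8906712345 .nil)) (.node 1 9 (.cons 0x5190678432 (.cons 0x8432091765 .nil)) (.node 2 5 (.cons 0x7652189034 (.cons 0x4325607891 (.cons 0x9065218734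 (.cons 0x4890325671 .nil)))) .done .done) .done) (.node 0 4 (.cons 0x5678904321 .nil) (.node 0 5 .nil (.node 1 7 (.cons 0x9871234056 (.cons 0x8905432176 .nil)) (.node 2 9 (.cons 0x1567843290 (.cons 0x6517843290 (.cons 0x6784329051 (.cons 0x2905673481 (.cons 0x6517840923 .nil))))) .done .done) .done) .done) .done)) (.node 0 5 .nil (.node 1 7 (.cons 0x9023487156 (.cons 0x9805432176 (.cons 0x8905432176 .nil))) .done (.node 0 4 (.cons 0x5678904321 .nil) (.node 0 6 .nil (.node 1 7 (.cons 0x9023487156 (.cons 0x9806712345 (.cons 0x8906712345 .nil))) .done .done) .done) .done)) .done)) .done))) .done)) .done))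
noncomputable def tc9_0_36 : T := (.node 1 6 (.cons 0x8907165432 .nil) (.node 1 4 .nil (.node 5 8 (.cons 0x9078561432 (.cons 0x6712345890 (.cons 0x2341765890 .nil))) (.node 0 3 (.cons 0x7654309812 (.cons 0x6712309854 (.cons 0x7658903214 .nil))) (.node 2 6 (.cons 0x9817034562 (.cons 0x9870326514 (.cons 0x9856230714 .nil))) .done .done) .done) (.node 2 6 (.cons 0x8907143265 (.cons 0x8907145623 .nil)) (.node 0 8 (.cons 0x9081265437 (.cons 0x9807623451 .nil)) (.node 5 9 (.cons 0x8709561432 (.cons 0x4378126590 (.cons 0x8734126590 (.cons 0x7809561432 (.cons 0x6590873214 .nil))))) .done .done) (.node 2 8 (.cons 0x9078234165 (.cons 0x6543289071 (.cons 0x6541709823 .nil))) (.node 0 5 (.cons 0x9870562341 (.cons 0x6509871234 (.cons 0x6712890543 .nil))) (.node 0 2 (.cons 0x9870234156 (.cons 0x9817026543 .nil)) (.node 3 5 (.cons 0x9814356207 (.cons 0x9817026534 (.cons 0x4356718902 .nil))) .done .done) .done) .done) .done)) (.node 1 3 .nil (.node 4 8 (.cons 0x7654890123 (.cons 0x9845670132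 (.cons 0x7654890132 (.cons 0x6548907132 .nil)))) .done (.node 2 6 (.cons 0x7098134562 (.cons 0x8907132654 .nil)) (.node 1 9 .nil (.node 0 5 (.cons 0x6509871234 (.cons 0x8765091234 (.cons 0x4319870562 .nil))) .done (.node 2 8 (.cons 0x4328915670 (.cons 0x6543289071 .nil)) (.node 0 5 (.cons 0x6705198234 (.cons 0x6509871234 (.cons 0x6712890543 .nil))) (.node 3 5 (.cons 0x9182670534 (.cons 0x6710982354 .nil)) .done .done) (.node 3 5 (.cons 0x6709823541 (.cons 0x6714532890 .nil)) .done .done)) .done)) (.node 3 5 (.cons 0x5341890762 .nil) (.node 5 8 (.cons 0x9851432670 (.cons 0x4326589071 (.cons 0x4176235890 .nil))) .done .done) .done)) (.node 1 9 .nil (.node 0 5 (.cons 0x6509871234 (.cons 0x8765091234 .nil)) (.node 2 4 (.cons 0x5670981342 (.cons 0x6509871243 (.cons 0x3421987650 (.cons 0x8765091243 .nil)))) .done .done) (.node 2 8 (.cons 0x6543709182 (.cons 0x6543289170 (.cons 0x6543289071 .nil))) (.node 6 8 (.cons 0x7091682345 (.cons 0x2345689170 .nil)) (.node 0 5 (.cons 0x9054328671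 (.cons 0x6509871234 (.cons 0x6712890543 .nil))) (.node 2 4 (.cons 0x5670981342 (.cons 0x9105687324 (.cons 0x9056781243 (.cons 0x7109865423 .nil)))) .done .done) (.node 3 5 (.cons 0x7091682354 (.cons 0x6890714532 (.cons 0x2354176890 .nil))) .done .done)) (.node 3 6 (.cons 0x4563709182 (.cons 0x4563289170 (.cons 0x5417632890 .nil))) .done .done)) .done)) .done))) .done))) (.node 4 8 (.cons 0x7654890123 (.cons 0x5617098432 .nil)) (.node 1 3 (.cons 0x9845670132 .nil) (.node 6 8 (.cons 0x4568907132 .nil) (.node 1 9 (.cons 0x2345198670 .nil) .done (.node 1 9 .nil (.node 0 2 (.cons 0x9843207165 (.cons 0x7689154320 (.cons 0x5670234891 (.cons 0x5687190234 .nil)))) .done (.node 0 2 (.cons 0x7689154320 (.cons 0x8671902345 (.cons 0x9843207165 (.cons 0x9867154320 .nil)))) (.node 3 5 (.cons 0x6701984532 (.cons 0x4356718902 .nil)) .done .done) .done)) .done)) (.node 1 9 .nil (.node 0 2 (.cons 0x9843207165 (.cons 0x8915432076 (.cons 0x5670234891 .nil))) (.node 0 5 (.cons 0x6509871234 (.cons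 0x9120567843 .nil)) .done .done) (.node 3 9 (.cons 0x7654893210 (.cons 0x2398456710 .nil)) (.node 0 3 (.cons 0x7654309812 .nil) (.node 2 6 (.cons 0x4326519870 (.cons 0x9817034562 (.cons 0x3265489170 .nil))) (.node 3 8 (.cons 0x7091834562 (.cons 0x4567109832 .nil)) .done .done) .done) .done) .done)) .done)) (.node 3 6 (.cons 0x9845107632 (.cons 0x5489017632 .nil)) (.node 3 8 (.cons 0x4567109832 .nil) (.node 3 5 (.cons 0x6710984532 .nil) (.node 2 6 (.cons 0x9845107623 (.cons 0x6235489071 .nil)) (.node 1 9 (.cons 0x7091834562 (.cons 0x5438190762 .nil)) .done .done) .done) (.node 2 6 (.cons 0x9845107623 (.cons 0x9071834562 (.cons 0x4562389071 .nil))) .done .done)) .done) (.node 1 3 (.cons 0x7654890132 .nil) (.node 6 8 (.cons 0x4568907132 .nil) (.node 1 9 (.cons 0x2345198670 .nil) .done (.node 2 6 (.cons 0x7098134562 (.cons 0x7132654890 .nil)) (.node 1 9 (.cons 0x2345689170 .nil) (.node 3 8 (.cons 0x5438190762 (.cons 0x9017623845 .nil)) .done .done) .done) .done)) (.node 2 5 (.cons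 0x6709813452 (.cons 0x7165234890 (.cons 0x6713254890 .nil))) (.node 1 9 (.cons 0x6523487190 .nil) .done .done) .done)) .done))) .done)) (.node 2 7 (.cons 0x3456721890 .nil) (.node 4 7 .nil (.node 0 3 (.cons 0x9812765430 (.cons 0x5674309812 .nil)) (.node 6 9 (.cons 0x7218965430 (.cons 0x5698127430 (.cons 0x2156987430 (.cons 0x8965472301 (.cons 0x4789651230 .nil))))) .done (.node 6 8 (.cons 0x5432176890 (.cons 0x9867451032 (.cons 0x9867451230 .nil))) (.node 0 8 (.cons 0x9803215476 .nil) (.node 7 9 (.cons 0x6798034512 (.cons 0x6798032154 .nil)) .done (.node 2 6 (.cons 0x9815430762 (.cons 0x9807432651 (.cons 0x5476218903 .nil))) (.node 3 9 (.cons 0x9345627081 (.cons 0x7456893210 (.cons 0x9347081562 (.cons 0x6547239801 .nil)))) .done .done) .done)) .done) .done)) (.node 7 9 .nil (.node 0 8 (.cons 0x6543790812 .nil) (.node 3 9 (.cons 0x6547210893 (.cons 0x2156743980 (.cons 0x4567239801 .nil))) (.node 2 6 (.cons 0x8932670154 (.cons 0x9345180762 (.cons 0x5126743980 .nil))) (.node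 2 9 (.cons 0x6293708154 (.cons 0x3476512980 .nil)) .done .done) .done) (.node 1 6 (.cons 0x9807615432 (.cons 0x8097612345 .nil)) (.node 1 9 (.cons 0x6708915432 .nil) (.node 0 2 (.cons 0x6519870234 (.cons 0x8120976543 (.cons 0x8120973456 .nil))) (.node 0 3 (.cons 0x9812765430 (.cons 0x8974302156 .nil)) .done .done) .done) .done) .done)) (.node 5 7 .nil (.node 0 3 (.cons 0x9812765430 (.cons 0x6754309812 .nil)) (.node 1 6 (.cons 0x9816543072 (.cons 0x8903475612 .nil)) (.node 0 6 (.cons 0x9874306512 (.cons 0x9812756034 .nil)) (.node 1 3 (.cons 0x8972130654 .nil) (.node 2 4 (.cons 0x5670981342 (.cons 0x9034218756 (.cons 0x6570981342 (.cons 0x9875124306 .nil)))) .done .done) .done) .done) (.node 0 8 (.cons 0x9803476512 .nil) (.node 1 6 (.cons 0x9807234561 (.cons 0x9087561234 .nil)) (.node 4 9 (.cons 0x5672189430 (.cons 0x6572189430 (.cons 0x6157089432 (.cons 0x1657234980 .nil)))) .done .done) (.node 3 6 (.cons 0x4512367980 (.cons 0x9801236754 .nil)) (.node 6 9 (.cons 0x5437690812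 (.cons 0x4321576980 (.cons 0x4308967512 .nil))) .done .done) .done)) .done)) .done) .done)) .done)) (.node 7 9 .nil (.node 0 8 (.cons 0x6543790812 .nil) (.node 2 9 (.cons 0x6708923451 (.cons 0x4329807651 .nil)) (.node 4 9 (.cons 0x6512943780 (.cons 0x6510873294 .nil)) (.node 0 6 (.cons 0x7608943215 (.cons 0x9215608734 .nil)) (.node 1 6 (.cons 0x8165437092 (.cons 0x5167089432 .nil)) .done .done) .done) .done) (.node 2 5 (.cons 0x9081254376 (.cons 0x6790812543 .nil)) (.node 1 6 (.cons 0x9807615432 (.cons 0x8097612345 .nil)) (.node 4 6 (.cons 0x8907164325 (.cons 0x5467980123 (.cons 0x3465218790 (.cons 0x8097346125 .nil)))) (.node 1 3 (.cons 0x7890132564 (.cons 0x6451327980 .nil)) .done .done) .done) .done) .done)) (.node 5 7 .nil (.node 4 7 .nil (.node 0 3 (.cons 0x7654309812 (.cons 0x6574309812 (.cons 0x6754309812 .nil))) .done (.node 4 8 (.cons 0x7654890123 (.cons 0x6754890123 .nil)) (.node 0 6 (.cons 0x9065481273 (.cons 0x9065784321 (.cons 0x7560984321 .nil))) (.node 1 3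 (.cons 0x6548907231 (.cons 0x7560984312 .nil)) (.node 1 9 (.cons 0x8456091273 (.cons 0x8437560912 .nil)) .done .done) .done) (.node 0 3 (.cons 0x7654309812 (.cons 0x6754309812 .nil)) (.node 1 3 (.cons 0x1327654890 .nil) (.node 4 6 (.cons 0x2798465130 (.cons 0x9034657812 (.cons 0x2756489031 .nil))) .done .done) (.node 1 3 (.cons 0x1327654890 .nil) (.node 2 9 (.cons 0x6548137290 (.cons 0x6574892301 (.cons 0x6751032984 (.cons 0x6574892310 .nil)))) .done .done) .done)) .done)) .done)) .done) .done)) .done)) .done))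
noncomputable def tc9_0_37 : T := (.node 1 7 .nil (.node 0 8 (.cons 0x9806571234 .nil) (.node 3 8 (.cons 0x4567109832 .nil) (.node 4 9 (.cons 0x7654983210 (.cons 0x8943217560 (.cons 0x5760894321 (.cons 0x9456738012 (.cons 0x2389456710 .nil))))) .done (.node 4 7 (.cons 0x5609834712 .nil) (.node 3 5 (.cons 0x8901235476 .nil) (.node 3 6 (.cons 0x8901236745 (.cons 0x9801236745 .nil)) .done .done) .done) .done)) (.node 4 8 (.cons 0x7654890123 (.cons 0x9843217560 .nil)) (.node 3 9 (.cons 0x7654893210 (.cons 0x4398065712 (.cons 0x2398456710 .nil))) (.node 2 5 (.cons 0x4398067521 (.cons 0x9348067125 (.cons 0x9843256071 .nil))) (.node 3 6 (.cons 0x4523670981 (.cons 0x4521763980 (.cons 0x4523671890 .nil))) .done .done) (.node 0 5 (.cons 0x7650123984 (.cons 0x9348056712 (.cons 0x6509871234 .nil))) .done .done)) (.node 2 5 (.cons 0x9018452376 (.cons 0x9067184325 .nil)) (.node 4 6 (.cons 0x9087346521 (.cons 0x9817064325 (.cons 0x9017846523 (.cons 0x3465217890 .nil)))) .done (.node 3 6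 (.cons 0x4523670981 (.cons 0x4523671890 .nil)) (.node 0 4 (.cons 0x5678904321 (.cons 0x9817045236 (.cons 0x9804521763 .nil))) (.node 3 9 (.cons 0x9325760481 (.cons 0x6523904871 (.cons 0x4521763980 (.cons 0x8409325671 (.cons 0x9367180452 .nil))))) .done .done) .done) .done)) .done)) .done)) (.node 4 7 .nil (.node 1 5 (.cons 0x4321567890 (.cons 0x6512347890 .nil)) (.node 0 8 (.cons 0x9087651234 (.cons 0x9806574321 .nil)) (.node 2 5 (.cons 0x9081254376 (.cons 0x8906521743 .nil)) (.node 2 8 (.cons 0x3456712890 (.cons 0x5609821743 .nil)) (.node 3 9 (.cons 0x4390876512 (.cons 0x8932106574 (.cons 0x9347608215 (.cons 0x9347651280 (.cons 0x8152390674 .nil))))) .done .done) .done) .done) .done) (.node 3 5 (.cons 0x8901235476 .nil) (.node 1 5 (.cons 0x4321567890 .nil) (.node 0 3 (.cons 0x8903456712 .nil) (.node 2 5 (.cons 0x8903452176 .nil) (.node 2 7 .nil (.node 0 5 (.cons 0x6721890543 .nil) (.node 3 8 (.cons 0x2176543890 (.cons 0x9832105476 (.cons 0x4567238901 .nil))) .done .done)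 .done) .done) .done) .done) (.node 3 6 (.cons 0x8901236745 .nil) (.node 3 8 (.cons 0x2176543890 .nil) (.node 0 8 (.cons 0x9801236745 .nil) (.node 1 6 (.cons 0x8901674532 .nil) (.node 2 6 (.cons 0x7126543890 .nil) (.node 2 7 (.cons 0x9083547261 .nil) .done .done) .done) .done) .done) .done) .done)) .done)) .done)) (.node 0 3 (.cons 0x6754309812 .nil) (.node 3 5 (.cons 0x4357609812 .nil) (.node 3 8 .nil (.node 0 2 (.cons 0x9812067534 (.cons 0x9021834576 (.cons 0x6754389021 .nil))) .done (.node 3 6 .nil (.node 2 4 (.cons 0x9812435760 (.cons 0x9875630124 (.cons 0x9018367542 (.cons 0x1243657890 (.cons 0x2457638901 .nil))))) .done .done) .done)) (.node 3 8 .nil (.node 2 4 (.cons 0x4235678901 (.cons 0x9832456701 (.cons 0x7560983421 (.cons 0x5760983421 .nil)))) (.node 6 9 (.cons 0x8756903421 (.cons 0x7690183542 (.cons 0x3810967542 (.cons 0x3812457690 .nil)))) .done .done) (.node 3 6 .nil (.node 2 4 (.cons 0x9832456701 (.cons 0x9875630124 (.cons 0x1243657890 (.cons 0x9836754210 .nil))))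 (.node 5 8 (.cons 0x9067581243 (.cons 0x9063421857 (.cons 0x9076324581 .nil))) .done .done) .done) .done)) .done)) (.node 1 7 .nil (.node 2 8 (.cons 0x6754309821 (.cons 0x6543289071 .nil)) (.node 3 8 (.cons 0x4389065712 (.cons 0x4567109832 .nil)) (.node 2 4 (.cons 0x5760981243 (.cons 0x7560983421 (.cons 0x5760983421 .nil))) (.node 5 9 (.cons 0x4306759821 (.cons 0x4328956071 (.cons 0x4238765901 (.cons 0x6709542381 .nil)))) .done .done) .done) (.node 3 8 (.cons 0x4389065712 (.cons 0x4567109832 .nil)) (.node 2 4 (.cons 0x5760981243 (.cons 0x9832456701 (.cons 0x7560983421 (.cons 0x5760983421 .nil)))) (.node 2 6 (.cons 0x3457621890 (.cons 0x9830126754 .nil)) .done .done) (.node 3 6 (.cons 0x4576309821 .nil) (.node 3 5 (.cons 0x4357609812 .nil) (.node 4 6 (.cons 0x7534609812 (.cons 0x9821753064 (.cons 0x9071823546 (.cons 0x5467128903 .nil)))) .done .done) .done) .done)) .done)) (.node 1 5 (.cons 0x4321567890 .nil) (.node 1 6 (.cons 0x8903457612 .nil) (.node 1 4 .nil (.node 2 8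 (.cons 0x6754309821 (.cons 0x9821430675 (.cons 0x7560982143 (.cons 0x3289076541 .nil)))) .done (.node 0 5 .nil (.node 6 9 (.cons 0x8709651432 (.cons 0x2341789650 (.cons 0x8967123054 .nil))) .done (.node 4 7 (.cons 0x6509874321 .nil) (.node 2 7 (.cons 0x8906572143 .nil) (.node 2 5 (.cons 0x6125098743 .nil) (.node 7 9 (.cons 0x8976125430 .nil) .done .done) .done) .done) .done)) .done)) .done) (.node 4 7 (.cons 0x6512347890 .nil) (.node 0 5 .nil (.node 6 8 (.cons 0x5476890123 (.cons 0x9867450123 (.cons 0x9054376812 (.cons 0x9860517432 (.cons 0x9867123054 .nil))))) .done (.node 7 9 (.cons 0x8123450976 .nil) (.node 2 7 .nil (.node 4 8 (.cons 0x9056784321 (.cons 0x9843270651 (.cons 0x3489065721 (.cons 0x7215609843 (.cons 0x9843271560 .nil))))) .done .done) .done) .done)) .done) .done)) .done)) .done)) (.node 3 6 (.cons 0x4576321890 .nil) (.node 2 6 (.cons 0x5432670981 .nil) (.node 2 5 (.cons 0x9810763254 .nil) (.node 1 6 .nil (.node 2 4 (.cons 0x9810763245 (.cons 0x9816324570 .nil))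 (.node 0 2 (.cons 0x9816320754 .nil) (.node 2 7 (.cons 0x8907234561 .nil) .done .done) .done) (.node 4 6 (.cons 0x9810764523 .nil) (.node 6 9 .nil (.node 5 8 (.cons 0x9076234581 (.cons 0x7096234581 (.cons 0x2185437690 (.cons 0x4581096732 .nil)))) .done (.node 6 8 .nil (.node 0 5 (.cons 0x8123769054 (.cons 0x9054321867 (.cons 0x7321869054 (.cons 0x9054376812 .nil)))) .done .done) .done)) .done) .done)) (.node 1 6 .nil (.node 4 9 (.cons 0x5498107632 (.cons 0x2361894570 (.cons 0x5236107894 (.cons 0x5261870943 (.cons 0x8732561094 .nil))))) .done (.node 0 2 (.cons 0x9816345207 .nil) (.node 2 4 (.cons 0x9810763245 .nil) (.node 2 7 (.cons 0x9816345270 .nil) .done .done) .done) .done)) .done)) (.node 3 5 (.cons 0x4532670981 .nil) (.node 5 9 (.cons 0x4598107632 .nil) (.node 0 3 (.cons 0x8126730954 .nil) (.node 0 2 (.cons 0x7634598120 .nil) (.node 0 5 (.cons 0x9502187634 .nil) .done (.node 0 8 (.cons 0x6734590812 .nil) (.node 0 4 (.cons 0x9812367540 .nil) (.node 0 5 (.cons 0x9504367812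 .nil) .done .done) .done) .done)) .done) (.node 6 9 .nil (.node 1 4 (.cons 0x5418907623 (.cons 0x4107896532 (.cons 0x5326907814 (.cons 0x2369814570 (.cons 0x8145370962 .nil))))) .done (.node 1 6 (.cons 0x7098162354 .nil) (.node 4 6 (.cons 0x8109546732 .nil) (.node 6 8 (.cons 0x4590186732 .nil) .done .done) .done) .done)) .done)) (.node 5 9 (.cons 0x4598107632 .nil) (.node 1 6 (.cons 0x8162370954 .nil) (.node 3 8 .nil (.node 4 9 (.cons 0x5498107632 (.cons 0x8321675490 (.cons 0x8376549012 (.cons 0x2381675490 .nil)))) .done (.node 2 8 (.cons 0x4328709561 .nil) (.node 0 8 (.cons 0x7809561234 .nil) (.node 5 8 (.cons 0x9076185432 .nil) .done .done) .done) .done)) (.node 1 7 (.cons 0x4532671890 .nil) (.node 3 8 (.cons 0x4590738162 .nil) (.node 2 7 (.cons 0x7216543890 .nil) (.node 1 9 (.cons 0x4562389170 .nil) (.node 2 9 (.cons 0x2983456170 .nil) .done .done) .done) .done) .done) .done)) (.node 3 8 .nil (.node 2 4 (.cons 0x4235678901 (.cons 0x9832456701 (.cons 0x1243876590 (.cons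 0x6245907381 (.cons 0x7638954210 .nil))))) .done (.node 0 8 (.cons 0x6734590812 .nil) (.node 6 8 (.cons 0x2186734590 .nil) (.node 6 9 (.cons 0x5437690812 .nil) .done .done) .done) .done)) .done)) .done)) .done)) (.node 2 6 (.cons 0x5432670981 .nil) (.node 3 5 (.cons 0x9810762354 .nil) (.node 3 8 .nil (.node 1 7 (.cons 0x2176543890 .nil) (.node 2 7 (.cons 0x8901723654 .nil) (.node 0 2 (.cons 0x4576320981 (.cons 0x6320981754 .nil)) (.node 4 9 (.cons 0x4987653210 (.cons 0x8175490236 (.cons 0x5498326701 (.cons 0x5678349021 (.cons 0x6754902381 .nil))))) .done .done) .done) (.node 4 9 (.cons 0x4987653210 (.cons 0x4983217560 (.cons 0x5498326701 (.cons 0x8376549012 (.cons 0x2389456710 .nil))))) .done .done)) (.node 0 8 .nil (.node 7 9 (.cons 0x4562389701 (.cons 0x6798012354 (.cons 0x9738012654 .nil))) .done (.node 0 3 .nil (.node 4 9 (.cons 0x4987653210 (.cons 0x6230754981 (.cons 0x3089457621 (.cons 0x4987653012 (.cons 0x1894576230 .nil))))) .done (.node 6 8 (.cons 0x4576890321 .nil)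 (.node 2 8 .nil (.node 1 6 (.cons 0x8903216754 (.cons 0x9076182345 (.cons 0x4576128903 .nil))) .done .done) .done) .done)) .done)) .done)) (.node 0 3 .nil (.node 5 9 (.cons 0x1895432670 (.cons 0x7621895430 (.cons 0x7623018954 .nil))) .done (.node 2 5 .nil (.node 1 6 (.cons 0x8903216754 (.cons 0x5216789034 .nil)) (.node 4 6 (.cons 0x7532189064 (.cons 0x9078164352 .nil)) .done .done) (.node 0 2 (.cons 0x4576320981 .nil) (.node 1 5 (.cons 0x9815432670 .nil) (.node 1 7 (.cons 0x6320981754 .nil) (.node 2 4 (.cons 0x9871563420 .nil) (.node 2 7 (.cons 0x8901724536 .nil) .done .done) .done) (.node 0 5 (.cons 0x9876215034 .nil) .done .done)) .done) .done)) .done)) .done)) (.node 0 2 (.cons 0x4576320981 .nil) (.node 4 6 (.cons 0x7546320981 .nil) (.node 1 6 (.cons 0x9816457023 .nil) (.node 2 5 (.cons 0x9810764523 .nil) (.node 2 4 (.cons 0x7542098163 .nil) (.node 2 7 (.cons 0x4572098163 .nil) .done .done) .done) .done) (.node 6 9 (.cons 0x8120964573 .nil) (.node 6 8 (.cons 0x9021864573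 .nil) (.node 1 6 .nil (.node 4 8 (.cons 0x5481237690 (.cons 0x5481690732 (.cons 0x7320961845 .nil))) .done .done) .done) .done) .done)) (.node 0 3 .nil (.node 1 4 (.cons 0x2367541890 (.cons 0x6578903214 (.cons 0x5678903412 .nil))) (.node 4 9 (.cons 0x6578941230 (.cons 0x8941230675 (.cons 0x8126754903 (.cons 0x5678941032 .nil)))) (.node 0 5 (.cons 0x8765094321 (.cons 0x6320578941 (.cons 0x9876503412 .nil))) .done .done) (.node 7 9 (.cons 0x8126790345 .nil) (.node 5 8 (.cons 0x9076234581 (.cons 0x4589763201 (.cons 0x4185790632 (.cons 0x3458126790 (.cons 0x1854326790 .nil))))) .done (.node 1 5 (.cons 0x4321567890 (.cons 0x4309876512 .nil)) (.node 0 8 (.cons 0x6798034512 .nil) (.node 4 6 (.cons 0x7980154632 (.cons 0x6457980321 (.cons 0x9876430215 .nil))) .done .done) (.node 4 6 (.cons 0x4632098751 (.cons 0x8975123064 (.cons 0x7890346512 .nil))) .done .done)) .done)) .done)) (.node 3 5 .nil (.node 4 6 (.cons 0x4657890321 (.cons 0x9810764532 (.cons 0x5346789021 .nil))) .done (.node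 3 8 .nil (.node 4 6 (.cons 0x4657890321 (.cons 0x9038126457 .nil)) (.node 1 6 (.cons 0x9816457032 (.cons 0x4576120983 .nil)) .done .done) .done) .done)) .done)) .done)) (.node 3 5 (.cons 0x4532670981 .nil) (.node 6 9 .nil (.node 0 8 (.cons 0x6908123754 (.cons 0x5437690812 .nil)) (.node 7 9 (.cons 0x6798012354 .nil) (.node 2 5 (.cons 0x4352189760 (.cons 0x2543679081 (.cons 0x4526379081 .nil))) .done .done) .done) (.node 6 8 .nil (.node 4 9 (.cons 0x4987653210 (.cons 0x6812375490 (.cons 0x7689453210 (.cons 0x5490186732 .nil)))) .done (.node 4 6 (.cons 0x9810764532 .nil) (.node 1 6 .nil (.node 2 8 (.cons 0x7098234561 .nil) (.node 3 8 (.cons 0x9075461832 .nil) .done .done) .done) .done) .done)) .done)) (.node 6 9 .nil (.node 1 4 (.cons 0x2367541890 (.cons 0x4107896532 (.cons 0x5326907814 (.cons 0x8145370962 .nil)))) (.node 2 5 (.cons 0x7523609814 (.cons 0x1432569870 (.cons 0x4187523690 .nil))) .done .done) (.node 3 8 .nil (.node 2 4 (.cons 0x8735690124 (.cons 0x9832456701 (.cons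 0x3812457690 (.cons 0x5426907381 (.cons 0x8376901245 .nil))))) .done (.node 6 8 .nil (.node 4 9 (.cons 0x7654983210 (.cons 0x6812375490 (.cons 0x8673210945 (.cons 0x5490186732 .nil)))) .done .done) .done)) .done)) .done)) .done))) .done)) .done)))
noncomputable def tc9_0_38 : T := (.node 1 7 .nil (.node 0 5 (.cons 0x6509871234 .nil) (.node 5 8 (.cons 0x9065871234 (.cons 0x9067185432 .nil)) (.node 0 8 .nil (.node 3 9 (.cons 0x7609345812 (.cons 0x4390658712 (.cons 0x8543906712 (.cons 0x4567108932 (.cons 0x4390856712 .nil))))) .done (.node 6 9 (.cons 0x2185437690 (.cons 0x4321896750 (.cons 0x8096543712 (.cons 0x9608175432 (.cons 0x8123769054 .nil))))) .done .done)) (.node 4 9 (.cons 0x6732185490 (.cons 0x4906587123 (.cons 0x8549067123 .nil))) (.node 2 5 (.cons 0x6781250943 (.cons 0x8712560943 .nil)) .done (.node 2 8 (.cons 0x8237654901 (.cons 0x3289456710 (.cons 0x6543289071 .nil))) .done .done)) .done)) (.node 5 8 (.cons 0x9065871234 (.cons 0x9067185432 .nil)) (.node 6 9 (.cons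 0x4376905812 (.cons 0x2185437690 (.cons 0x4581096732 (.cons 0x4581237690 .nil)))) (.node 0 4 (.cons 0x5678904321 (.cons 0x9604321875 (.cons 0x8967540123 .nil))) .done .done) (.node 5 9 (.cons 0x5906781234 (.cons 0x8176095432 .nil)) (.node 2 8 (.cons 0x9543281706 (.cons 0x6543289071 .nil)) (.node 1 6 (.cons 0x9543281607 (.cons 0x9570618234 (.cons 0x4378216590 .nil))) .done .done) .done) .done)) .done)) (.node 1 5 (.cons 0x4321567890 .nil) (.node 0 8 (.cons 0x9087651234 .nil) (.node 4 7 (.cons 0x9087432156 .nil) (.node 7 9 (.cons 0x9754321806 .nil) (.node 2 7 .nil (.node 0 4 (.cons 0x5678904321 .nil) (.node 3 6 (.cons 0x8901236745 (.cons 0x3654089721 (.cons 0x9804365721 (.cons 0x6327908154 .nil)))) .done .done) .done) .done) .done) (.node 2 5 (.cons 0x9081254376 .nil) (.node 0 5 .nil (.node 4 6 (.cons 0x3465217890 (.cons 0x9052187346 (.cons 0x9051876432 .nil))) (.node 2 9 (.cons 0x5467018923 (.cons 0x9215087643 (.cons 0x5076432981 (.cons 0x9218054673 .nil)))) .done .done) .done)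 (.node 0 4 (.cons 0x5678904321 .nil) (.node 0 5 .nil (.node 1 4 (.cons 0x6709814523 .nil) (.node 2 6 (.cons 0x5432670981 (.cons 0x9871265043 (.cons 0x9814326705 .nil))) .done .done) .done) (.node 4 7 .nil (.node 5 8 (.cons 0x9043215876 (.cons 0x9065874321 .nil)) (.node 1 9 (.cons 0x6785190432 (.cons 0x2347856091 (.cons 0x5819067432 .nil))) .done .done) .done) .done)) .done)) .done)) (.node 4 7 (.cons 0x6512347890 .nil) (.node 3 5 (.cons 0x8901235476 .nil) (.node 7 9 (.cons 0x8790651234 .nil) (.node 2 7 .nil (.node 5 9 (.cons 0x5906781234 (.cons 0x8127609543 .nil)) .done .done) .done) .done) .done) .done)) .done)) (.node 0 5 .nil (.node 1 7 (.cons 0x6509871234 .nil) (.node 3 8 (.cons 0x9067543812 (.cons 0x4567109832 .nil)) (.node 4 7 (.cons 0x9832105476 .nil) (.node 3 6 (.cons 0x4367509812 (.cons 0x9810547632 .nil)) (.node 3 9 (.cons 0x6501239874 (.cons 0x8932105476 (.cons 0x8932105674 (.cons 0x6745018932 .nil)))) .done .done) .done) (.node 7 9 (.cons 0x8321790654 .nil) (.node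 5 8 (.cons 0x9067185432 (.cons 0x6097123854 .nil)) (.node 4 9 (.cons 0x8549760123 (.cons 0x9432178560 (.cons 0x5609438712 (.cons 0x6017945832 .nil)))) .done .done) .done) .done)) (.node 4 7 (.cons 0x6509874321 .nil) (.node 1 5 (.cons 0x6512347890 .nil) (.node 0 8 (.cons 0x9087432156 .nil) (.node 2 9 (.cons 0x3456712980 (.cons 0x6512908743 (.cons 0x6712980543 (.cons 0x8092156743 .nil)))) (.node 4 6 (.cons 0x9218054673 (.cons 0x8129054673 (.cons 0x3298176450 .nil))) .done .done) .done) .done) (.node 0 4 (.cons 0x9871234056 .nil) (.node 0 8 (.cons 0x9805432176 .nil) (.node 3 8 (.cons 0x9067543812 (.cons 0x9832105476 .nil)) (.node 2 7 (.cons 0x4567238901 .nil) (.node 7 9 (.cons 0x6543217980 .nil) .done .done) .done) .done) .done) .done)) .done)) (.node 1 7 (.cons 0x6509871234 .nil) (.node 4 7 (.cons 0x6509874321 .nil) (.node 0 4 (.cons 0x5678904321 .nil) (.node 0 8 .nil (.node 1 5 (.cons 0x4321567890 (.cons 0x9087651234 .nil)) .done .done) .done) .done) .done) .done)) (.node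 5 9 (.cons 0x5906781234 .nil) (.node 0 5 .nil (.node 4 6 (.cons 0x4609578123 (.cons 0x9506432187 .nil)) (.node 2 5 (.cons 0x9052187643 .nil) (.node 1 6 (.cons 0x9816705432 (.cons 0x9816705234 .nil)) (.node 0 4 (.cons 0x9870432561 (.cons 0x8904576123 .nil)) .done .done) .done) (.node 2 5 (.cons 0x9052346781 .nil) (.node 2 8 (.cons 0x9018237645 (.cons 0x9054673281 .nil)) (.node 1 6 (.cons 0x7098234561 (.cons 0x9816705432 (.cons 0x9816705234 (.cons 0x9056128734 .nil)))) .done .done) .done) .done)) (.node 1 5 (.cons 0x4321567890 .nil) (.node 5 8 .nil (.node 6 9 (.cons 0x2345189670 (.cons 0x4376905812 (.cons 0x2185437690 (.cons 0x4581096732 (.cons 0x4581237690 .nil))))) .done (.node 3 5 .nil (.node 2 6 (.cons 0x9815432670 (.cons 0x9810762354 (.cons 0x7621890534 (.cons 0x4532670981 .nil)))) .done .done) .done)) (.node 0 8 (.cons 0x9087651234 .nil) (.node 0 4 (.cons 0x5678904321 .nil) (.node 2 5 .nil (.node 4 9 (.cons 0x8765123490 (.cons 0x5218760943 (.cons 0x6781523490 .nil)))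 .done (.node 5 8 (.cons 0x9043215876 .nil) (.node 3 5 .nil (.node 2 6 (.cons 0x9043267851 (.cons 0x7621890534 (.cons 0x4532670981 .nil))) .done .done) .done) .done)) .done) .done) .done)) .done)) (.node 0 8 (.cons 0x6734590812 .nil) (.node 0 5 .nil (.node 3 8 (.cons 0x7609543812 .nil) (.node 7 9 (.cons 0x4567983210 (.cons 0x6798321054 .nil)) .done (.node 4 8 (.cons 0x7654890123 .nil) (.node 7 9 (.cons 0x9732108456 (.cons 0x6798450123 .nil)) .done (.node 6 9 (.cons 0x6908123754 (.cons 0x5096734812 (.cons 0x3769054812 .nil))) (.node 2 8 (.cons 0x9012845673 (.cons 0x9673281054 (.cons 0x4509673281 .nil))) .done .done) .done)) .done)) .done) (.node 0 4 (.cons 0x5678904321 .nil) (.node 0 5 .nil (.node 2 7 (.cons 0x8127609543 .nil) (.node 6 9 (.cons 0x5437690812 (.cons 0x8127340596 (.cons 0x1896723450 (.cons 0x8123769054 .nil)))) .done (.node 7 9 (.cons 0x6798123450 .nil) (.node 1 5 (.cons 0x8790432156 (.cons 0x8790651234 .nil)) (.node 0 3 (.cons 0x6798034512 (.cons 0x4308976512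 .nil)) .done .done) .done) .done)) .done) (.node 0 5 .nil (.node 6 9 (.cons 0x5437690812 (.cons 0x8123769054 .nil)) (.node 4 8 (.cons 0x7654890123 (.cons 0x2184376950 (.cons 0x6905732184 .nil))) (.node 1 6 (.cons 0x8904576123 (.cons 0x3405987612 .nil)) (.node 2 5 (.cons 0x4325076981 (.cons 0x7690523481 (.cons 0x7348169052 .nil))) .done .done) .done) (.node 2 7 (.cons 0x8127609543 (.cons 0x1896723450 .nil)) (.node 7 9 (.cons 0x6798123450 .nil) (.node 2 8 (.cons 0x9673281054 (.cons 0x6543790821 (.cons 0x4509673281 .nil))) (.node 1 5 (.cons 0x9512876043 (.cons 0x6782159043 (.cons 0x6908273451 .nil))) .done .done) .done) .done) .done)) (.node 0 2 (.cons 0x8120954376 .nil) (.node 0 3 .nil (.node 1 7 (.cons 0x6509871234 (.cons 0x9803456712 (.cons 0x8903456712 .nil))) .done .done) .done) .done)) .done)) .done)) (.node 1 7 (.cons 0x8176095432 .nil) (.node 2 7 .nil (.node 4 8 (.cons 0x7654890123 (.cons 0x9548106723 (.cons 0x3276548901 .nil))) (.node 3 6 (.cons 0x4576321890 (.cons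 0x9845632701 (.cons 0x4895632710 (.cons 0x9845632710 .nil)))) .done (.node 0 8 (.cons 0x9543271806 .nil) (.node 0 5 (.cons 0x6721890543 .nil) (.node 6 9 (.cons 0x4321789650 (.cons 0x9650843712 (.cons 0x5437690812 (.cons 0x6905481273 .nil)))) .done .done) .done) .done)) (.node 0 2 (.cons 0x6718954320 .nil) (.node 7 9 (.cons 0x8179543206 .nil) (.node 4 7 .nil (.node 6 9 (.cons 0x8965432071 (.cons 0x8174320695 (.cons 0x8174596023 .nil))) .done .done) .done) (.node 4 7 .nil (.node 1 5 (.cons 0x4321567890 (.cons 0x8159023476 (.cons 0x6512347890 (.cons 0x8902156743 .nil)))) .done (.node 7 9 .nil (.node 4 8 (.cons 0x1765984320 (.cons 0x5976023481 (.cons 0x5609784321 .nil))) (.node 3 5 (.cons 0x6723548901 (.cons 0x4897653201 (.cons 0x6532017984 .nil))) .done .done) .done) .done)) .done)) .done)) (.node 7 9 .nil (.node 3 8 (.cons 0x2176543890 (.cons 0x4567983210 (.cons 0x8345609712 .nil))) (.node 2 5 (.cons 0x4325906781 (.cons 0x9760183254 (.cons 0x6790183254 (.cons 0x6097183452 .nil))))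 .done .done) (.node 4 7 .nil (.node 3 8 (.cons 0x2176543890 (.cons 0x9547601832 .nil)) (.node 2 6 (.cons 0x7126543890 (.cons 0x3267459810 (.cons 0x5621743890 (.cons 0x7459062381 .nil)))) .done (.node 1 9 (.cons 0x4576091832 (.cons 0x8743219065 .nil)) (.node 2 5 (.cons 0x4325906781 (.cons 0x4765238910 (.cons 0x9018325476 (.cons 0x6095234781 .nil)))) .done .done) .done)) (.node 2 7 .nil (.node 3 8 (.cons 0x2176543890 (.cons 0x6095438172 (.cons 0x4567238901 .nil))) (.node 4 9 (.cons 0x7654983210 (.cons 0x6549832701 (.cons 0x3894567210 .nil))) .done .done) .done) .done)) .done)) .done)) .done))) .done)))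
noncomputable def tc9_0_39 : T := (.node 2 8 .nil (.node 6 9 (.cons 0x7096518234 (.cons 0x5437690821 (.cons 0x7690823451 (.cons 0x4569073281 .nil)))) (.node 2 7 (.cons 0x1896543270 (.cons 0x8154327096 .nil)) (.node 4 8 (.cons 0x9654810732 (.cons 0x3721845690 (.cons 0x3276908451 .nil))) .done .done) .done) (.node 4 8 (.cons 0x7654890123 .nil) (.node 2 7 (.cons 0x6543270981 .nil) (.node 4 7 .nil (.node 6 8 (.cons 0x9072345186 (.cons 0x9018654732 (.cons 0x9086745123 .nil))) .done (.node 1 4 .nil (.node 2 6 (.cons 0x9810745623 (.cons 0x9078143265 (.cons 0x7098143265 (.cons 0x7098145623 .nil)))) .done (.node 3 8 .nil (.node 1 7 (.cons 0x2176543890 .nil) (.node 7 9 (.cons 0x6790834512 (.cons 0x6790832154 .nil)) .done .done) (.node 6 8 (.cons 0x9072345186 .nil) (.node 5 8 .nil (.node 2 6 (.cons 0x9810745623 (.cons 0x9014583267 (.cons 0x5890762341 .nil))) .done .done) .done) .done)) .done)) .done)) (.node 2 5 .nil (.node 0 6 (.cons 0x9065481273 (.cons 0x9065218437 (.cons 0x9065218734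 .nil))) (.node 1 9 (.cons 0x1982345670 (.cons 0x5219067843 (.cons 0x8437652190 (.cons 0x8091254376 .nil)))) .done .done) (.node 0 5 .nil (.node 1 9 (.cons 0x1982345670 (.cons 0x6705432891 (.cons 0x9128437650 (.cons 0x9128054376 .nil)))) .done (.node 5 7 .nil (.node 0 4 (.cons 0x5678904321 (.cons 0x9043218756 (.cons 0x6578904321 .nil))) .done (.node 4 7 .nil (.node 2 6 (.cons 0x9078156234 (.cons 0x9056218743 (.cons 0x5623470981 .nil))) .done (.node 3 5 (.cons 0x8901235476 .nil) (.node 2 4 (.cons 0x4235678901 .nil) (.node 3 8 (.cons 0x9056783421 .nil) .done .done) .done) .done)) .done)) .done)) .done)) .done)) (.node 3 8 .nil (.node 7 9 (.cons 0x6548109732 (.cons 0x6790154832 (.cons 0x6790834512 (.cons 0x6790832154 .nil)))) .done .done) .done)) (.node 2 7 (.cons 0x6543270981 .nil) (.node 2 5 .nil (.node 4 9 (.cons 0x8765123490 (.cons 0x6521873490 (.cons 0x6780943251 .nil))) (.node 1 6 (.cons 0x9816543270 (.cons 0x1652349870 (.cons 0x7098165234 .nil))) (.node 1 3 (.cons 0x3165498270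 (.cons 0x2561349870 (.cons 0x8907613452 (.cons 0x8943165270 .nil)))) .done .done) (.node 6 8 (.cons 0x3286709451 (.cons 0x3254986701 (.cons 0x9086734521 (.cons 0x8673254901 .nil)))) .done .done)) (.node 0 5 .nil (.node 1 6 (.cons 0x9816543270 (.cons 0x9805432167 (.cons 0x9816507234 .nil))) (.node 1 7 (.cons 0x8905432176 .nil) (.node 4 9 (.cons 0x8765123490 (.cons 0x3498721650 (.cons 0x8734905216 (.cons 0x6509437812 (.cons 0x6715490823 .nil))))) .done .done) .done) (.node 5 7 .nil (.node 0 4 (.cons 0x5678904321 (.cons 0x9043218756 (.cons 0x6578904321 .nil))) .done (.node 5 9 (.cons 0x6780951234 .nil) (.node 3 5 .nil (.node 1 4 (.cons 0x3289076541 (.cons 0x6709823541 (.cons 0x2143567890 .nil))) (.node 2 4 (.cons 0x6590187324 (.cons 0x9532410876 (.cons 0x6789532410 .nil))) .done .done) (.node 5 8 .nil (.node 4 7 (.cons 0x9801235476 (.cons 0x6745890123 .nil)) (.node 4 9 (.cons 0x4987653210 (.cons 0x6587321094 (.cons 0x6785123490 .nil))) .done .done) .done) .done)) .done) .done))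 .done)) .done)) (.node 2 9 (.cons 0x6518709234 .nil) (.node 2 5 .nil (.node 1 6 (.cons 0x7098165432 (.cons 0x7098165234 (.cons 0x6189072543 .nil))) (.node 1 7 (.cons 0x8923456170 (.cons 0x6170892543 .nil)) .done .done) (.node 2 4 .nil (.node 5 9 (.cons 0x6780951234 (.cons 0x6780951243 (.cons 0x6590187324 .nil))) (.node 1 6 (.cons 0x7098165432 (.cons 0x3245980761 (.cons 0x8165907324 (.cons 0x8095421673 .nil)))) .done .done) (.node 2 6 (.cons 0x9078156234 .nil) (.node 0 2 .nil (.node 1 6 (.cons 0x7098165432 (.cons 0x9816543207 .nil)) (.node 1 7 (.cons 0x6170892543 (.cons 0x8920716543 .nil)) .done .done) .done) .done) .done)) .done)) (.node 2 6 (.cons 0x9078156234 .nil) (.node 2 5 .nil (.node 1 6 (.cons 0x7098165432 (.cons 0x7098165234 (.cons 0x6189072543 .nil))) .done (.node 0 5 .nil (.node 4 6 (.cons 0x9078156432 (.cons 0x9056432187 (.cons 0x9056437812 (.cons 0x9051872346 .nil)))) .done (.node 6 8 (.cons 0x3450986721 .nil) (.node 1 6 (.cons 0x3452709861 .nil) (.node 0 2 (.cons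 0x9021865437 .nil) (.node 0 6 (.cons 0x9068127345 .nil) .done .done) .done) (.node 3 8 (.cons 0x4386729051 .nil) (.node 5 8 .nil (.node 1 4 (.cons 0x9276834150 (.cons 0x1432985670 (.cons 0x7685143290 (.cons 0x9265814370 .nil)))) .done .done) .done) .done)) .done)) .done)) (.node 0 2 .nil (.node 1 7 (.cons 0x9817023456 (.cons 0x8902176543 .nil)) (.node 4 6 (.cons 0x9078156432 (.cons 0x5643298170 (.cons 0x9021873465 (.cons 0x8092346715 .nil)))) .done .done) (.node 0 5 .nil (.node 4 6 (.cons 0x9078156432 (.cons 0x7056432981 (.cons 0x9056437812 (.cons 0x9051872346 .nil)))) .done (.node 0 4 (.cons 0x5678904321 .nil) (.node 2 4 .nil (.node 3 6 (.cons 0x8905436721 (.cons 0x7056342981 (.cons 0x9051872436 .nil))) (.node 4 7 (.cons 0x9810742365 (.cons 0x9074281563 .nil)) .done .done) (.node 2 5 .nil (.node 1 4 (.cons 0x3289076541 (.cons 0x6789052143 (.cons 0x3412567890 .nil))) .done .done) .done)) .done) .done)) .done)) .done)) .done)) .done)) .done))) (.node 0 5 .nil (.node 4 6 (.cons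 0x9078156432 (.cons 0x9056432187 (.cons 0x9056437812 .nil))) (.node 4 9 (.cons 0x8765123490 (.cons 0x7894650123 (.cons 0x6509437812 (.cons 0x9465018732 .nil)))) (.node 4 8 (.cons 0x7654890123 .nil) (.node 2 9 (.cons 0x9234651870 (.cons 0x9237846501 (.cons 0x7056432981 .nil))) (.node 3 8 (.cons 0x4567380921 (.cons 0x6738054921 (.cons 0x9832105467 .nil))) .done .done) .done) .done) (.node 4 8 (.cons 0x7654890123 (.cons 0x9051234876 .nil)) (.node 2 9 (.cons 0x7815643290 (.cons 0x9237846501 (.cons 0x8764329051 (.cons 0x4650923781 .nil)))) (.node 1 7 (.cons 0x5643718092 (.cons 0x7189234650 (.cons 0x5017648923 (.cons 0x3489217650 .nil)))) .done .done) .done) .done)) (.node 0 4 (.cons 0x5678904321 .nil) (.node 0 6 .nil (.node 1 7 (.cons 0x6509871234 (.cons 0x9817065432 (.cons 0x8906712345 .nil))) (.node 7 9 (.cons 0x6543790812 (.cons 0x8123790654 .nil)) (.node 3 8 (.cons 0x2176543890 (.cons 0x9760834512 (.cons 0x5438906712 .nil))) (.node 4 8 (.cons 0x6790154832 (.cons 0x9760154832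 (.cons 0x9067843215 .nil))) .done .done) .done) .done) (.node 0 2 .nil (.node 6 9 (.cons 0x7345690812 (.cons 0x5690218734 (.cons 0x7815690234 .nil))) (.node 1 6 (.cons 0x7098165432 (.cons 0x9816543207 .nil)) (.node 5 9 (.cons 0x8765904321 (.cons 0x6590218734 (.cons 0x4378165902 .nil))) .done .done) .done) (.node 0 3 .nil (.node 2 7 (.cons 0x6543270981 (.cons 0x9803456721 .nil)) (.node 1 7 (.cons 0x6509871234 (.cons 0x9803456712 (.cons 0x8903456712 .nil))) (.node 1 4 (.cons 0x6541890723 (.cons 0x5678903412 .nil)) (.node 2 5 (.cons 0x9814325607 (.cons 0x9803452176 .nil)) .done .done) .done) .done) .done) .done)) .done)) (.node 4 8 (.cons 0x7654890123 .nil) (.node 4 7 (.cons 0x6509874321 .nil) (.node 1 4 .nil (.node 2 6 (.cons 0x3478905621 (.cons 0x9870562341 (.cons 0x9078143265 (.cons 0x7098143265 (.cons 0x7098145623 .nil))))) .done .done) .done) (.node 4 9 (.cons 0x8765123490 .nil) (.node 6 8 (.cons 0x7865123490 .nil) (.node 5 8 (.cons 0x6587321094 .nil) (.node 2 5 (.cons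 0x6523784901 .nil) (.node 2 4 (.cons 0x9015678423 .nil) (.node 4 6 (.cons 0x1237856490 .nil) (.node 0 2 (.cons 0x3785649021 .nil) (.node 0 3 (.cons 0x7894652103 .nil) .done .done) .done) .done) .done) .done) (.node 5 8 (.cons 0x9045867321 .nil) (.node 0 3 (.cons 0x7865123094 .nil) (.node 3 8 (.cons 0x9045123867 .nil) (.node 1 3 (.cons 0x7654890132 .nil) (.node 2 8 (.cons 0x9823107654 .nil) .done .done) .done) .done) .done) .done)) (.node 4 7 (.cons 0x6509874321 .nil) (.node 1 4 .nil (.node 2 6 (.cons 0x5621873490 (.cons 0x9870562341 (.cons 0x9078143265 (.cons 0x7098143265 (.cons 0x9056237841 .nil))))) .done .done) .done) .done)) .done)) .done)) .done)) .done))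
noncomputable def tc9_0_40 : T := (.node 1 4 .nil (.node 2 6 (.cons 0x7098143265 (.cons 0x7098145623 .nil)) (.node 4 9 (.cons 0x1562349870 (.cons 0x8945107623 (.cons 0x5621873490 (.cons 0x5623781094 .nil)))) .done (.node 2 7 (.cons 0x6543270981 (.cons 0x6541890723 .nil)) (.node 2 8 (.cons 0x3289076541 .nil) (.node 1 7 (.cons 0x3456712890 .nil) .done .done) .done) .done)) (.node 1 3 .nil (.node 4 8 (.cons 0x7654890123 (.cons 0x9845670132 (.cons 0x7654890132 .nil))) (.node 2 8 (.cons 0x9012845673 (.cons 0x9823107654 (.cons 0x4567098231 .nil))) (.node 2 9 (.cons 0x5618709234 (.cons 0x5613487092 (.cons 0x2984315670 (.cons 0x8456731290 .nil)))) .done .done) .done) (.node 1 9 .nil (.node 0 2 (.cons 0x6519870234 (.cons 0x8915432076 (.cons 0x8915670234 .nil))) (.node 1 7 (.cons 0x8902176543 .nil) .done (.node 0 4 (.cons 0x9876512340 (.cons 0x6519870432 .nil)) (.node 4 9 (.cons 0x8702349156 (.cons 0x8765194320 .nil)) .done .done) .done)) (.node 1 7 .nil (.node 4 9 (.cons 0x5618709432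 .nil) (.node 2 6 (.cons 0x1562349870 (.cons 0x8943265170 .nil)) (.node 0 5 (.cons 0x8734912650 (.cons 0x8712349056 (.cons 0x6509871234 (.cons 0x3498712650 .nil)))) .done (.node 0 8 (.cons 0x7809432165 (.cons 0x8094562173 .nil)) (.node 3 5 (.cons 0x6235149870 (.cons 0x8907145326 (.cons 0x5326178094 .nil))) .done .done) .done)) (.node 2 8 (.cons 0x8237654901 (.cons 0x3289456710 .nil)) (.node 0 5 (.cons 0x9432876150 (.cons 0x8716509432 (.cons 0x6712890543 .nil))) (.node 3 8 (.cons 0x4387650912 (.cons 0x2389456710 (.cons 0x4567109832 .nil))) .done .done) (.node 0 3 (.cons 0x4987651032 (.cons 0x5617823094 (.cons 0x6715498230 .nil))) .done .done)) .done)) .done) .done)) .done)) (.node 3 5 (.cons 0x2143567890 .nil) (.node 4 7 (.cons 0x6532109874 .nil) (.node 4 6 (.cons 0x9874653210 .nil) (.node 4 8 (.cons 0x7654890123 .nil) (.node 4 9 (.cons 0x5618709432 .nil) (.node 0 4 (.cons 0x9876512340 .nil) (.node 2 4 (.cons 0x6510789423 .nil) .done .done) .done) .done) .done) (.node 1 7 .nil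 (.node 0 6 (.cons 0x7890653412 (.cons 0x4356098712 .nil)) (.node 5 8 (.cons 0x9851234760 (.cons 0x6098534712 (.cons 0x6098532174 .nil))) (.node 0 2 (.cons 0x5678902143 (.cons 0x9851743206 (.cons 0x9851760234 .nil))) (.node 1 9 (.cons 0x8543209176 (.cons 0x8567190234 .nil)) .done .done) .done) .done) .done) .done)) (.node 1 7 .nil (.node 4 8 (.cons 0x7654890123 (.cons 0x6710984532 .nil)) (.node 2 8 (.cons 0x6710982354 .nil) (.node 0 2 (.cons 0x9028765341 (.cons 0x6534178902 (.cons 0x9028761435 (.cons 0x9820765143 .nil)))) .done (.node 0 3 (.cons 0x5678903412 (.cons 0x6714530982 (.cons 0x4176530982 .nil))) (.node 2 6 (.cons 0x9870341562 (.cons 0x9826541703 .nil)) (.node 5 8 (.cons 0x9073418562 (.cons 0x7126589034 .nil)) .done .done) .done) .done)) (.node 2 9 (.cons 0x8456732901 (.cons 0x5617843290 (.cons 0x6548173290 .nil))) (.node 4 6 (.cons 0x4678923510 (.cons 0x8923546710 .nil)) .done (.node 4 6 (.cons 0x7329018465 (.cons 0x5643298170 .nil)) .done .done)) .done)) (.node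 4 7 .nil (.node 2 6 (.cons 0x8901762354 (.cons 0x9810745623 (.cons 0x9815623470 (.cons 0x6235471890 .nil)))) .done (.node 2 7 (.cons 0x6543270981 .nil) (.node 4 6 (.cons 0x6453271890 .nil) (.node 4 8 (.cons 0x6710984532 .nil) (.node 2 8 (.cons 0x5467109823 .nil) (.node 3 8 (.cons 0x5467109832 .nil) .done .done) .done) .done) .done) .done)) .done)) .done)) .done))) (.node 1 3 .nil (.node 2 8 (.cons 0x9823107654 (.cons 0x4567098231 .nil)) (.node 1 7 (.cons 0x3456712890 .nil) (.node 1 9 (.cons 0x6543709182 .nil) .done .done) (.node 4 8 (.cons 0x7654890123 (.cons 0x9845670132 (.cons 0x7654890132 .nil))) (.node 0 8 (.cons 0x9084567312 .nil) (.node 2 9 (.cons 0x5618437092 (.cons 0x7348092165 (.cons 0x2984315670 (.cons 0x8456731290 .nil)))) .done .done) .done) .done)) (.node 1 9 .nil (.node 0 2 (.cons 0x6519870234 (.cons 0x8915432076 (.cons 0x8915670234 .nil))) (.node 1 7 (.cons 0x8902176543 .nil) .done (.node 1 7 .nil (.node 3 8 (.cons 0x4567019832 (.cons 0x4567109832 .nil)) .done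 (.node 3 8 (.cons 0x2176543890 (.cons 0x4567019832 (.cons 0x8345671902 .nil))) .done .done)) .done)) (.node 1 7 .nil (.node 3 8 (.cons 0x4567109832 .nil) (.node 2 5 (.cons 0x7098165234 (.cons 0x4387652190 (.cons 0x8907165234 .nil))) (.node 2 4 (.cons 0x9832456701 (.cons 0x5678342190 (.cons 0x8370916524 (.cons 0x9832451076 .nil)))) (.node 0 3 (.cons 0x6519870342 (.cons 0x8915670342 .nil)) .done .done) .done) (.node 2 8 (.cons 0x6543709182 .nil) (.node 0 5 (.cons 0x8219054376 (.cons 0x6509871234 (.cons 0x6712890543 .nil))) (.node 0 6 (.cons 0x8219067345 .nil) (.node 3 5 (.cons 0x6782190534 (.cons 0x4356098712 (.cons 0x6710982354 .nil))) .done .done) .done) (.node 3 6 (.cons 0x4563709182 .nil) (.node 0 4 (.cons 0x9876512340 (.cons 0x9045632817 (.cons 0x9823671540 (.cons 0x9045637182 .nil)))) (.node 1 4 (.cons 0x9041782365 .nil) .done .done) .done) .done)) .done)) .done) .done)) .done)) (.node 1 7 .nil (.node 1 3 .nil (.node 2 8 (.cons 0x9073456182 (.cons 0x9823107654 (.cons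 0x5431670982 (.cons 0x4567098231 .nil)))) .done (.node 1 9 .nil (.node 3 8 (.cons 0x4567109832 (.cons 0x4567019832 .nil)) .done (.node 1 4 .nil (.node 2 5 (.cons 0x8907613452 (.cons 0x9078143256 (.cons 0x8907143256 .nil))) (.node 0 3 (.cons 0x8903456712 (.cons 0x5678903412 (.cons 0x6523098714 (.cons 0x8903256714 .nil)))) .done .done) (.node 3 8 (.cons 0x4567109832 .nil) (.node 2 9 (.cons 0x8165437092 (.cons 0x5614387092 (.cons 0x2983451670 (.cons 0x8329076541 .nil)))) .done (.node 2 8 (.cons 0x4328915670 .nil) (.node 2 9 (.cons 0x8165437092 (.cons 0x2983456170 .nil)) (.node 0 3 (.cons 0x9283076145 (.cons 0x4561703892 .nil)) (.node 0 6 (.cons 0x9238145607 (.cons 0x9238170654 .nil)) .done .done) .done) (.node 6 8 (.cons 0x9076823145 .nil) (.node 0 2 (.cons 0x8915670234 (.cons 0x9023456817 (.cons 0x9834561702 (.cons 0x9867154320 .nil)))) (.node 4 6 (.cons 0x9823154670 (.cons 0x9817023465 .nil)) .done .done) .done) .done)) .done)) .done)) .done)) (.node 1 9 .nil (.node 0 2 (.cons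 0x6519870234 (.cons 0x9817023456 (.cons 0x8915432076 (.cons 0x8915670234 .nil)))) (.node 6 8 (.cons 0x9023456817 (.cons 0x9186543207 (.cons 0x4568190732 .nil))) .done .done) (.node 1 4 .nil (.node 2 5 (.cons 0x9078143256 (.cons 0x8907652314 (.cons 0x8907143256 .nil))) (.node 0 3 (.cons 0x5216789034 (.cons 0x8903456712 (.cons 0x6521789034 .nil))) .done .done) (.node 0 8 (.cons 0x6708915432 .nil) (.node 3 8 (.cons 0x4567109832 .nil) (.node 2 5 (.cons 0x9078143256 (.cons 0x9083452167 (.cons 0x9078341652 (.cons 0x9083761254 .nil)))) .done (.node 2 8 (.cons 0x9073456182 .nil) (.node 3 6 (.cons 0x4519823670 (.cons 0x9082367145 .nil)) .done .done) .done)) (.node 2 9 (.cons 0x8165437092 (.cons 0x8092173456 .nil)) (.node 4 6 (.cons 0x5643298170 (.cons 0x5643718092 .nil)) (.node 2 5 (.cons 0x9087652143 (.cons 0x5219087643 (.cons 0x6432519870 (.cons 0x9078146523 .nil)))) .done .done) (.node 3 6 (.cons 0x5632907814 (.cons 0x4563298170 (.cons 0x4563718092 .nil))) .done .done)) .done))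 .done)) .done)) .done))) (.node 1 3 .nil (.node 2 8 (.cons 0x9073456182 (.cons 0x9823107654 (.cons 0x5431670982 (.cons 0x4567098231 .nil)))) .done (.node 1 9 .nil (.node 0 2 (.cons 0x6519870234 (.cons 0x8915432076 (.cons 0x8915670234 .nil))) (.node 6 8 (.cons 0x5432176890 (.cons 0x9867154320 (.cons 0x4568190732 .nil))) (.node 0 5 (.cons 0x8765091234 (.cons 0x6891705432 (.cons 0x9867120543 .nil))) .done .done) (.node 6 8 (.cons 0x5432176890 (.cons 0x9186543207 (.cons 0x8671902345 (.cons 0x4568190732 .nil)))) .done .done)) .done) .done)) .done)) .done)))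
noncomputable def tc9_0_41 : T := (.node 0 6 (.cons 0x9874321560 .nil) (.node 0 5 .nil (.node 3 9 (.cons 0x4567018932 (.cons 0x6501239874 (.cons 0x8932105476 (.cons 0x8932105674 .nil)))) (.node 2 7 (.cons 0x4567239810 (.cons 0x6723981054 .nil)) (.node 7 9 (.cons 0x8790651234 (.cons 0x6798123450 .nil)) (.node 1 7 (.cons 0x8905432176 .nil) (.node 1 9 (.cons 0x8193276054 (.cons 0x8912347650 .nil)) .done .done) .done) .done) .done) (.node 0 4 (.cons 0x5678904321 .nil) (.node 5 7 (.cons 0x6578904321 .nil) (.node 5 9 (.cons 0x6598740123 .nil) (.node 5 8 .nil (.node 3 9 (.cons 0x4567018932 (.cons 0x9321065874 (.cons 0x6745893210 (.cons 0x4765893210 .nil)))) .done .done) .done) .done) (.node 5 7 .nil (.node 2 4 (.cons 0x9810765423 .nil) (.node 3 9 (.cons 0x9342187650 (.cons 0x6750439812 (.cons 0x6754018932 .nil))) (.node 4 6 (.cons 0x5647893210 (.cons 0x8756421093 (.cons 0x9324657810 .nil))) .done (.node 1 6 (.cons 0x8761243905 (.cons 0x8904321675 .nil)) (.node 0 2 (.cons 0x5439816702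 (.cons 0x6189345702 (.cons 0x6750218934 .nil))) .done .done) .done)) (.node 1 6 (.cons 0x7890561243 (.cons 0x8904321675 (.cons 0x3421657890 .nil))) .done .done)) (.node 2 7 .nil (.node 4 6 (.cons 0x6409875123 (.cons 0x3465127890 (.cons 0x1564327890 .nil))) .done (.node 7 9 (.cons 0x8790651234 .nil) (.node 1 7 .nil (.node 0 2 (.cons 0x3456798120 (.cons 0x9817023456 .nil)) (.node 4 9 (.cons 0x5670234981 (.cons 0x8712349065 (.cons 0x5671894320 .nil))) .done .done) .done) .done) .done)) .done)) .done)) .done)) (.node 2 7 (.cons 0x9815607234 .nil) (.node 1 7 .nil (.node 2 8 (.cons 0x9823470651 (.cons 0x6543289071 .nil)) (.node 2 9 (.cons 0x1892345670 (.cons 0x6543298170 .nil)) (.node 4 9 (.cons 0x3289470651 (.cons 0x5607189432 (.cons 0x3289471560 .nil))) (.node 3 6 (.cons 0x5498107632 (.cons 0x6328945170 (.cons 0x5174982360 .nil))) .done (.node 0 3 (.cons 0x7498215603 (.cons 0x8217309456 .nil)) (.node 3 5 (.cons 0x5349812760 (.cons 0x6712894530 (.cons 0x6035174982 .nil))) .done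 .done) .done)) .done) .done) (.node 7 9 (.cons 0x8974321560 .nil) (.node 5 7 .nil (.node 6 9 (.cons 0x6981543270 (.cons 0x4327518960 .nil)) (.node 0 3 (.cons 0x4567981230 (.cons 0x6981275430 (.cons 0x2189675430 .nil))) .done .done) .done) .done) .done)) (.node 2 8 (.cons 0x9823470651 .nil) (.node 7 9 (.cons 0x8974321560 .nil) (.node 1 7 (.cons 0x6543289071 .nil) (.node 1 9 (.cons 0x5607432891 .nil) (.node 2 9 (.cons 0x1892345670 .nil) .done .done) .done) (.node 5 7 .nil (.node 4 9 (.cons 0x7065189432 (.cons 0x8947560123 (.cons 0x6075189432 (.cons 0x3289475601 .nil)))) .done .done) .done)) (.node 5 7 .nil (.node 4 9 (.cons 0x7065189432 (.cons 0x8947560123 (.cons 0x6075189432 (.cons 0x8215734906 (.cons 0x6015749823 .nil))))) .done (.node 7 9 (.cons 0x8974321560 .nil) (.node 1 7 .nil (.node 2 4 (.cons 0x9810765423 (.cons 0x8906571243 .nil)) (.node 3 8 (.cons 0x8342157906 (.cons 0x4389065712 (.cons 0x4567109832 .nil))) .done .done) .done) .done) .done)) .done)) .done)) (.node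 0 5 .nil (.node 3 9 (.cons 0x4567018932 (.cons 0x6501239874 (.cons 0x7605439812 (.cons 0x8932105674 .nil)))) (.node 2 7 (.cons 0x4567239810 (.cons 0x2760543981 .nil)) (.node 0 8 (.cons 0x9805674321 .nil) (.node 1 7 (.cons 0x6547108932 (.cons 0x8905432176 .nil)) (.node 2 8 (.cons 0x3456712890 (.cons 0x6712890543 .nil)) .done .done) (.node 1 6 (.cons 0x6154723980 (.cons 0x9327618054 (.cons 0x6150893274 .nil))) .done .done)) .done) .done) (.node 0 4 (.cons 0x5678904321 .nil) (.node 0 3 (.cons 0x9874306512 .nil) (.node 0 8 .nil (.node 6 9 (.cons 0x5698740123 (.cons 0x7432156980 (.cons 0x5476980321 .nil))) (.node 0 2 (.cons 0x7432089651 .nil) .done .done) .done) (.node 1 3 .nil (.node 2 8 (.cons 0x9065128734 (.cons 0x9823107456 (.cons 0x7609821345 (.cons 0x4567098231 .nil)))) .done (.node 0 8 .nil (.node 1 9 (.cons 0x8765091234 (.cons 0x5674321980 (.cons 0x5674308912 .nil))) .done (.node 0 2 .nil (.node 1 9 (.cons 0x8765091234 (.cons 0x8912034765 .nil)) (.node 5 8 (.cons 0x7609854312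 (.cons 0x3476589120 (.cons 0x1985674320 (.cons 0x9854760213 .nil)))) .done .done) .done) .done)) .done)) .done)) (.node 2 4 (.cons 0x9810765423 .nil) (.node 0 8 .nil (.node 6 9 (.cons 0x9678123405 (.cons 0x7432156980 (.cons 0x9651087423 (.cons 0x9673218045 .nil)))) .done (.node 0 3 (.cons 0x9874306512 .nil) (.node 0 2 .nil (.node 4 9 (.cons 0x9432187650 (.cons 0x9437812065 (.cons 0x8734902156 (.cons 0x9432056781 .nil)))) .done .done) .done) .done)) (.node 0 2 .nil (.node 4 9 (.cons 0x9432187650 (.cons 0x8734902156 (.cons 0x9432056781 .nil))) .done (.node 0 3 (.cons 0x9874306512 .nil) (.node 0 8 .nil (.node 6 9 (.cons 0x7018965423 (.cons 0x7432156980 (.cons 0x7432089651 (.cons 0x7456980321 .nil)))) .done .done) .done) .done)) .done)) .done)) .done)) .done))) (.node 3 5 (.cons 0x8901235476 .nil) (.node 3 6 (.cons 0x8901236745 .nil) (.node 0 6 (.cons 0x7890651234 .nil) (.node 1 6 .nil (.node 0 4 (.cons 0x5678904321 (.cons 0x7890432165 .nil)) (.node 2 8 (.cons 0x9821047635 (.cons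 0x7098234561 (.cons 0x5432890761 (.cons 0x6154709823 .nil)))) .done .done) (.node 1 7 .nil (.node 4 9 (.cons 0x4987653210 (.cons 0x8712349065 (.cons 0x8715609432 .nil))) (.node 0 2 (.cons 0x8734902156 (.cons 0x6534987120 (.cons 0x8943567120 .nil))) (.node 2 8 (.cons 0x5367498210 (.cons 0x6543289071 (.cons 0x6351702894 .nil))) .done .done) .done) .done) .done)) (.node 1 3 .nil (.node 6 8 (.cons 0x9867453210 (.cons 0x5476890132 (.cons 0x6890745132 .nil))) .done (.node 0 3 .nil (.node 6 9 (.cons 0x8967453210 (.cons 0x5476981032 (.cons 0x5476981230 .nil))) .done (.node 3 8 (.cons 0x9835476012 .nil) (.node 3 9 (.cons 0x8935476012 .nil) .done .done) .done)) .done)) .done)) (.node 6 8 (.cons 0x9867453210 .nil) (.node 1 7 .nil (.node 0 2 (.cons 0x9021568734 (.cons 0x9863547102 (.cons 0x7154368902 (.cons 0x5174368902 .nil)))) (.node 4 8 (.cons 0x7654890123 (.cons 0x7109845632 (.cons 0x9023487156 .nil))) .done .done) (.node 7 9 .nil (.node 0 6 (.cons 0x7890651234 (.cons 0x8790651234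 (.cons 0x2153479860 .nil))) .done (.node 5 7 .nil (.node 6 9 (.cons 0x8967453210 .nil) (.node 0 2 (.cons 0x4365178902 (.cons 0x8690215743 (.cons 0x4320756981 (.cons 0x3457689021 (.cons 0x2098634751 .nil))))) .done .done) .done) .done)) .done)) (.node 2 8 (.cons 0x5476328901 .nil) (.node 1 7 (.cons 0x6543289071 .nil) (.node 1 4 (.cons 0x9073286541 .nil) (.node 1 6 (.cons 0x7098234561 .nil) (.node 1 3 (.cons 0x6890745132 .nil) (.node 1 9 (.cons 0x4568237091 .nil) .done .done) .done) .done) .done) (.node 1 7 .nil (.node 0 5 (.cons 0x9810547632 (.cons 0x2890543671 .nil)) (.node 3 8 (.cons 0x9054768321 (.cons 0x9054712386 .nil)) .done .done) (.node 1 4 (.cons 0x7632890145 .nil) (.node 5 7 (.cons 0x4576328901 .nil) (.node 7 9 (.cons 0x8236790145 .nil) .done .done) .done) .done)) .done)) .done)) .done)) (.node 1 4 (.cons 0x4109876532 .nil) (.node 0 4 (.cons 0x5678904321 .nil) (.node 2 4 (.cons 0x4235678901 .nil) (.node 1 7 (.cons 0x9871042356 .nil) (.node 1 6 (.cons 0x8901674532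 .nil) (.node 2 7 (.cons 0x8904356172 .nil) (.node 7 9 (.cons 0x5618970432 .nil) .done .done) .done) .done) .done) (.node 0 6 (.cons 0x9810674532 .nil) (.node 0 5 .nil (.node 6 9 (.cons 0x2354769810 (.cons 0x6981507432 (.cons 0x9605187432 (.cons 0x3218967450 .nil)))) (.node 0 2 (.cons 0x9650218734 (.cons 0x9678143502 (.cons 0x2053476981 .nil))) .done .done) .done) (.node 1 6 (.cons 0x8901674532 .nil) (.node 1 7 .nil (.node 2 8 (.cons 0x6745328901 (.cons 0x6543289071 (.cons 0x6710982354 (.cons 0x6098235174 .nil)))) .done .done) .done) .done)) .done)) (.node 1 7 .nil (.node 2 8 (.cons 0x6745328901 (.cons 0x6543289071 (.cons 0x6710982354 .nil))) (.node 0 3 (.cons 0x5678903412 (.cons 0x6714530982 (.cons 0x4176530982 .nil))) (.node 2 6 (.cons 0x6235109874 (.cons 0x9826541703 (.cons 0x9035628714 (.cons 0x8907156234 .nil)))) .done .done) .done) .done) .done)) .done)) (.node 1 7 .nil (.node 4 8 (.cons 0x7654890123 .nil) (.node 0 6 (.cons 0x3478906512 (.cons 0x7123489065 .nil)) (.node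 7 9 (.cons 0x8456097123 .nil) (.node 1 6 (.cons 0x5617098432 .nil) (.node 6 8 (.cons 0x9706815432 (.cons 0x8609715432 (.cons 0x5486097123 .nil))) .done .done) .done) (.node 2 8 (.cons 0x9065128734 (.cons 0x9065482173 .nil)) (.node 2 9 (.cons 0x1892345670 (.cons 0x6543298170 (.cons 0x8437129065 (.cons 0x8456092173 .nil)))) .done .done) .done)) (.node 2 8 (.cons 0x6543289071 .nil) (.node 1 4 (.cons 0x9078234156 .nil) .done (.node 1 4 (.cons 0x3289076541 .nil) (.node 0 4 (.cons 0x5678904321 .nil) (.node 6 8 (.cons 0x9078651432 (.cons 0x9045682173 (.cons 0x9045682371 .nil))) .done .done) .done) .done)) (.node 0 6 (.cons 0x3478906512 (.cons 0x9065178432 (.cons 0x7156098432 .nil))) (.node 2 8 (.cons 0x9065128734 (.cons 0x6543289071 .nil)) (.node 2 9 (.cons 0x9237654810 (.cons 0x6543298170 (.cons 0x8437156092 (.cons 0x6092845173 .nil)))) .done (.node 2 9 (.cons 0x9237654810 (.cons 0x6543298170 (.cons 0x6092845173 (.cons 0x8437156092 .nil)))) .done .done)) .done) .done))) (.node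 0 5 (.cons 0x8905432176 .nil) (.node 0 4 (.cons 0x5678904321 .nil) (.node 7 9 (.cons 0x9781234056 .nil) (.node 1 3 (.cons 0x6540798132 .nil) (.node 0 3 (.cons 0x4567981230 .nil) (.node 0 2 (.cons 0x6512098743 .nil) (.node 0 6 (.cons 0x3478906512 .nil) (.node 0 8 (.cons 0x9732180456 .nil) .done .done) .done) .done) .done) .done) (.node 7 9 .nil (.node 0 2 (.cons 0x6512098743 (.cons 0x6543207981 (.cons 0x6518970234 .nil))) .done (.node 1 4 .nil (.node 0 2 (.cons 0x6512098743 (.cons 0x6541897023 (.cons 0x9814320765 .nil))) .done (.node 2 7 .nil (.node 4 9 (.cons 0x9432187650 (.cons 0x6549810723 (.cons 0x3276549810 .nil))) .done (.node 2 4 (.cons 0x9810765423 .nil) (.node 4 8 (.cons 0x9056784321 .nil) (.node 4 9 (.cons 0x9432187650 .nil) .done .done) .done) .done)) .done)) .done)) .done)) (.node 0 6 (.cons 0x3478906512 .nil) (.node 7 9 (.cons 0x8790651234 .nil) (.node 5 9 .nil (.node 0 2 (.cons 0x6512098743 (.cons 0x9560218743 (.cons 0x6702345981 (.cons 0x3476598120 .nil))))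 .done (.node 5 8 (.cons 0x6712345890 .nil) (.node 1 3 .nil (.node 4 8 (.cons 0x6095178432 (.cons 0x9706548132 (.cons 0x2318459760 (.cons 0x7654890132 .nil)))) .done (.node 2 7 (.cons 0x8905672134 .nil) (.node 5 7 .nil (.node 2 8 (.cons 0x9543281760 (.cons 0x6574312890 (.cons 0x6750982134 .nil))) .done .done) .done) .done)) .done) .done)) .done) (.node 5 8 (.cons 0x6712345890 .nil) (.node 1 4 (.cons 0x5890671432 .nil) (.node 5 9 (.cons 0x8590671432 .nil) (.node 7 9 .nil (.node 0 3 (.cons 0x8765903214 (.cons 0x5603479812 (.cons 0x4185976032 .nil))) .done .done) .done) .done) (.node 5 7 .nil (.node 2 8 (.cons 0x6712890543 (.cons 0x3475609821 (.cons 0x6098215743 .nil))) .done (.node 2 7 (.cons 0x8906512743 .nil) (.node 7 9 .nil (.node 0 4 (.cons 0x5678904321 (.cons 0x8790432156 (.cons 0x8975604321 (.cons 0x8975123406 .nil)))) .done .done) .done) .done)) .done)) .done)) .done)) .done)) .done)))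
noncomputable def tc9_0_42 : T := (.node 0 5 .nil (.node 1 7 (.cons 0x8905432176 .nil) (.node 2 9 (.cons 0x1892345670 (.cons 0x6543298170 (.cons 0x6705432981 .nil))) (.node 4 6 (.cons 0x9234651807 (.cons 0x5643298071 (.cons 0x9087123465 (.cons 0x8092173465 (.cons 0x9087156432 .nil))))) .done (.node 4 8 (.cons 0x7654890123 (.cons 0x9051234876 (.cons 0x6548092173 (.cons 0x6548092371 .nil)))) .done .done)) (.node 2 8 (.cons 0x3456712890 (.cons 0x6712890543 .nil)) (.node 2 9 (.cons 0x1892345670 (.cons 0x6705432981 .nil)) (.node 1 6 (.cons 0x7056189234 .nil) (.node 4 8 (.cons 0x7654890123 (.cons 0x9076154823 (.cons 0x3709284561 (.cons 0x3716548290 .nil)))) .done .done) (.node 4 8 (.cons 0x9234815670 (.cons 0x9234815076 (.cons 0x9218437650 (.cons 0x9237650184 .nil)))) .done .done)) .done) .done)) (.node 0 4 (.cons 0x5678904321 .nil) (.node 0 6 .nil (.node 7 9 (.cons 0x5432189760 (.cons 0x9734560812 (.cons 0x9732180654 .nil))) (.node 1 7 (.cons 0x8906712345 .nil) (.node 3 8 (.cons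 0x2176543890 (.cons 0x5438906712 (.cons 0x9765401832 .nil))) .done .done) .done) (.node 1 6 .nil (.node 2 4 (.cons 0x9810765423 (.cons 0x7890561243 (.cons 0x5098761243 .nil))) (.node 0 3 (.cons 0x9876503421 (.cons 0x9876124305 .nil)) .done .done) (.node 0 2 .nil (.node 4 8 (.cons 0x7654890123 (.cons 0x9021567843 (.cons 0x9023487651 .nil))) (.node 4 9 (.cons 0x8765123490 (.cons 0x8734902165 (.cons 0x8765120943 (.cons 0x7654981023 .nil)))) .done .done) (.node 0 3 .nil (.node 2 4 (.cons 0x9810765423 (.cons 0x9876503421 (.cons 0x7890342165 .nil))) .done .done) .done)) .done)) .done)) (.node 4 8 (.cons 0x7654890123 .nil) (.node 0 3 (.cons 0x9034876512 .nil) (.node 4 7 (.cons 0x9087432156 .nil) (.node 0 2 (.cons 0x9021567843 .nil) (.node 0 6 .nil (.node 5 9 (.cons 0x3487659021 (.cons 0x1234789560 (.cons 0x9518760432 (.cons 0x7604598123 .nil)))) .done .done) .done) .done) .done) (.node 5 8 (.cons 0x9043215876 .nil) (.node 6 8 (.cons 0x9045867321 .nil) (.node 2 8 .nil (.node 1 7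 (.cons 0x9086543712 (.cons 0x6712890543 (.cons 0x3456712890 .nil))) .done (.node 3 8 .nil (.node 2 4 (.cons 0x9810765423 (.cons 0x9832456701 (.cons 0x9056783421 (.cons 0x9012456837 .nil)))) .done .done) .done)) .done) .done) .done)) .done)) .done)) (.node 2 8 .nil (.node 4 9 (.cons 0x8765123490 (.cons 0x8210945673 (.cons 0x9456732810 .nil))) (.node 4 8 (.cons 0x9012845673 .nil) (.node 1 6 (.cons 0x5610948732 (.cons 0x7328490165 (.cons 0x5612873490 .nil))) .done .done) (.node 6 9 (.cons 0x9670815432 (.cons 0x5182349670 (.cons 0x5437690821 (.cons 0x5496732810 (.cons 0x3281549670 .nil))))) .done .done)) (.node 1 7 (.cons 0x6543289071 .nil) (.node 4 8 (.cons 0x7654890123 .nil) (.node 1 4 (.cons 0x9078234156 .nil) (.node 0 4 (.cons 0x5678904321 .nil) (.node 0 2 (.cons 0x9021567843 .nil) (.node 0 6 (.cons 0x8906712345 .nil) (.node 0 3 (.cons 0x9034876512 .nil) (.node 0 5 (.cons 0x8905432176 .nil) .done .done) .done) .done) .done) .done) (.node 3 8 .nil (.node 7 9 (.cons 0x6548237901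 (.cons 0x6790834512 (.cons 0x6790832154 .nil))) .done .done) .done)) (.node 1 6 (.cons 0x7098234561 .nil) (.node 3 8 (.cons 0x2176543890 .nil) (.node 4 8 (.cons 0x7654890123 .nil) (.node 3 6 (.cons 0x9012845637 .nil) (.node 3 5 (.cons 0x4356170982 .nil) (.node 0 3 (.cons 0x9034876512 .nil) (.node 1 3 (.cons 0x6543170982 .nil) (.node 3 9 (.cons 0x2156784390 .nil) .done .done) .done) .done) .done) .done) .done) .done) .done)) (.node 6 8 .nil (.node 2 9 (.cons 0x1892345670 (.cons 0x4329078651 (.cons 0x9234518670 .nil))) (.node 1 9 (.cons 0x4568237091 (.cons 0x8670915432 (.cons 0x5437680912 .nil))) (.node 0 4 (.cons 0x5678904321 (.cons 0x8192340765 (.cons 0x9182370456 (.cons 0x8219045673 .nil)))) .done .done) .done) (.node 1 6 .nil (.node 4 9 (.cons 0x8765123490 (.cons 0x9456182370 (.cons 0x5490821673 (.cons 0x5490823761 .nil)))) (.node 5 8 (.cons 0x6785123490 (.cons 0x6158709432 (.cons 0x1673285490 .nil))) .done .done) (.node 4 8 (.cons 0x7654890123 .nil) (.node 0 6 (.cons 0x9065123487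 .nil) (.node 2 6 (.cons 0x9078432651 .nil) (.node 2 7 (.cons 0x9086721543 .nil) (.node 3 6 (.cons 0x9012736845 .nil) (.node 4 6 (.cons 0x9087643215 .nil) .done .done) .done) .done) .done) (.node 5 8 .nil (.node 2 9 (.cons 0x9237654810 (.cons 0x7329016584 (.cons 0x7615843290 (.cons 0x4856732901 .nil)))) .done (.node 3 8 .nil (.node 7 9 (.cons 0x5167908432 (.cons 0x2154386790 (.cons 0x6790834512 (.cons 0x6790832154 .nil)))) .done .done) .done)) .done)) .done)) (.node 1 7 (.cons 0x9086715432 .nil) (.node 2 7 (.cons 0x9086723451 .nil) (.node 4 7 .nil (.node 0 3 (.cons 0x9032867154 (.cons 0x9865472301 .nil)) (.node 1 3 (.cons 0x4567098231 (.cons 0x9865472310 .nil)) .done .done) (.node 1 4 (.cons 0x3289076541 .nil) (.node 4 8 (.cons 0x7654890123 .nil) .done .done) .done)) .done) (.node 3 8 (.cons 0x2176543890 .nil) (.node 0 3 (.cons 0x8903456712 .nil) (.node 4 8 (.cons 0x7654890123 .nil) (.node 5 8 (.cons 0x4309856712 .nil) .done .done) .done) .done) .done)) .done))) .done))) (.node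 0 5 .nil (.node 2 9 (.cons 0x1892345670 (.cons 0x6705432981 (.cons 0x9218056734 .nil))) (.node 1 6 (.cons 0x5612908734 (.cons 0x7056189234 .nil)) (.node 1 7 (.cons 0x6543298170 (.cons 0x8905432176 .nil)) .done .done) (.node 1 4 (.cons 0x3298145670 (.cons 0x6705418923 .nil)) (.node 4 8 (.cons 0x3765480921 (.cons 0x9051234876 (.cons 0x6509237841 .nil))) .done (.node 1 7 (.cons 0x8905432176 .nil) (.node 1 6 (.cons 0x8907165432 .nil) (.node 4 8 (.cons 0x3765480921 (.cons 0x5617098432 (.cons 0x7612348905 .nil))) (.node 3 8 (.cons 0x8376541290 (.cons 0x7384165092 (.cons 0x6715483290 .nil))) .done .done) .done) .done) .done)) .done)) (.node 1 7 (.cons 0x6509871234 .nil) (.node 6 8 (.cons 0x5432176890 .nil) (.node 5 8 (.cons 0x6712345890 .nil) (.node 2 5 .nil (.node 1 4 (.cons 0x9087341256 (.cons 0x3412567890 .nil)) (.node 2 9 (.cons 0x7865143290 (.cons 0x1458673290 (.cons 0x4129085673 (.cons 0x3298145670 .nil)))) .done .done) (.node 2 7 (.cons 0x6890543271 .nil) (.node 7 9 .nil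 (.node 0 3 (.cons 0x9867103254 (.cons 0x6798034521 (.cons 0x4308976521 .nil))) .done (.node 5 7 .nil (.node 2 4 (.cons 0x9810765423 (.cons 0x6890175423 (.cons 0x3245768901 .nil))) (.node 2 6 (.cons 0x9051786234 (.cons 0x4326890571 .nil)) .done .done) .done) .done)) .done) .done)) .done) (.node 5 8 (.cons 0x6712345890 .nil) (.node 3 5 (.cons 0x4532176890 .nil) (.node 2 5 .nil (.node 1 4 (.cons 0x9056873214 (.cons 0x6890714523 (.cons 0x3412567890 .nil))) .done (.node 5 9 .nil (.node 0 4 (.cons 0x9867123540 (.cons 0x9567812340 (.cons 0x6789532104 .nil))) .done (.node 5 7 .nil (.node 4 8 (.cons 0x7654890123 (.cons 0x6754890123 .nil)) (.node 0 6 (.cons 0x2345890671 (.cons 0x9065784321 (.cons 0x7560984321 .nil))) .done .done) .done) .done)) .done)) .done) .done) .done)) (.node 1 6 (.cons 0x7890561234 .nil) (.node 4 7 (.cons 0x6509874321 .nil) (.node 7 9 (.cons 0x8974321650 .nil) (.node 2 7 (.cons 0x9805612743 .nil) (.node 5 7 .nil (.node 0 4 (.cons 0x5678904321 (.cons 0x8904321675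 .nil)) (.node 0 6 (.cons 0x5432189760 .nil) .done .done) .done) .done) (.node 5 7 .nil (.node 4 8 (.cons 0x7654890123 (.cons 0x7561234890 (.cons 0x5761234890 .nil))) (.node 0 4 (.cons 0x3218976540 (.cons 0x8904321675 .nil)) (.node 1 3 (.cons 0x7654890132 (.cons 0x8409756132 (.cons 0x6754890132 .nil))) .done .done) .done) .done) .done)) (.node 0 4 (.cons 0x5678904321 .nil) (.node 0 6 .nil (.node 7 9 (.cons 0x9781234056 (.cons 0x6054798123 .nil)) .done .done) .done) .done)) .done) .done)) .done)) .done)))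
noncomputable def tc9_0_43 : T := (.node 1 5 (.cons 0x4321567890 .nil) (.node 0 8 (.cons 0x9087651234 .nil) tc9_0_42 (.node 4 7 (.cons 0x6512347890 .nil) tc9_0_41 (.node 1 7 .nil (.node 0 5 (.cons 0x6509871234 .nil) (.node 2 9 (.cons 0x1892345670 (.cons 0x6543298170 (.cons 0x6705432981 .nil))) (.node 1 6 (.cons 0x8907165432 .nil) (.node 4 8 (.cons 0x8437651290 (.cons 0x8432907165 (.cons 0x9234816705 (.cons 0x9218437650 (.cons 0x9237650184 .nil))))) .done (.node 4 8 (.cons 0x8437651290 (.cons 0x5617098432 (.cons 0x7612348905 (.cons 0x9218437650 (.cons 0x9237650184 .nil))))) .done .done)) (.node 7 9 (.cons 0x6798123450 .nil) (.node 1 4 (.cons 0x6705418923 .nil) (.node 3 8 (.cons 0x9238145670 (.cons 0x6509783412 (.cons 0x9238145076 (.cons 0x4567109832 .nil)))) .done (.node 6 9 (.cons 0x8145692370 (.cons 0x7056981432 (.cons 0x4187329650 .nil))) .done .done)) .done) .done)) (.node 1 6 (.cons 0x8907165432 .nil) (.node 2 8 (.cons 0x6543289071 .nil) (.node 4 9 (.cons 0x9432187650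 (.cons 0x6512873490 (.cons 0x6782150943 (.cons 0x3490567821 (.cons 0x9456732810 .nil))))) .done (.node 3 8 (.cons 0x9076154382 (.cons 0x4567109832 .nil)) (.node 2 9 (.cons 0x1892345670 (.cons 0x6543298170 (.cons 0x8329071654 .nil))) (.node 4 6 (.cons 0x9281507643 (.cons 0x2983465170 (.cons 0x9056438712 (.cons 0x5467109823 .nil)))) .done .done) .done) (.node 1 4 (.cons 0x6541709823 .nil) (.node 2 9 (.cons 0x1892345670 (.cons 0x6543298170 .nil)) (.node 6 8 (.cons 0x8673451290 (.cons 0x8671290543 (.cons 0x9054176823 .nil))) .done (.node 5 8 (.cons 0x9076145823 (.cons 0x8561709234 (.cons 0x8509234176 .nil))) .done .done)) .done) .done))) (.node 0 6 (.cons 0x9817065432 .nil) (.node 4 9 (.cons 0x9432187650 (.cons 0x8734906512 (.cons 0x9432187605 .nil))) (.node 3 8 (.cons 0x8376549012 (.cons 0x6509438712 (.cons 0x7609834512 (.cons 0x4567109832 .nil)))) .done (.node 0 2 (.cons 0x9437815602 (.cons 0x5671894320 .nil)) (.node 2 8 (.cons 0x9456732810 (.cons 0x2873490651 (.cons 0x9451820673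 .nil))) .done .done) .done)) (.node 0 4 (.cons 0x5678904321 .nil) (.node 2 5 (.cons 0x9816523407 (.cons 0x9871256043 (.cons 0x8907165234 .nil))) (.node 2 8 (.cons 0x9043782156 (.cons 0x6543289071 .nil)) (.node 0 8 (.cons 0x9082154376 .nil) .done .done) .done) (.node 4 9 (.cons 0x9432187650 (.cons 0x8712349056 .nil)) (.node 3 8 (.cons 0x8376549012 (.cons 0x6509438712 (.cons 0x5438906712 (.cons 0x4567109832 .nil)))) .done (.node 0 2 (.cons 0x9432056781 (.cons 0x9817023456 (.cons 0x5671894320 .nil))) .done .done)) .done)) .done)) .done)) .done)) (.node 0 5 (.cons 0x8905432176 .nil) (.node 1 9 (.cons 0x8765091234 .nil) (.node 4 7 (.cons 0x8743219056 .nil) (.node 2 7 .nil (.node 0 3 (.cons 0x4309876512 (.cons 0x6512789034 (.cons 0x8903451276 .nil))) (.node 0 6 (.cons 0x8906712345 (.cons 0x8912743065 .nil)) .done .done) (.node 5 7 .nil (.node 0 6 (.cons 0x8906712345 (.cons 0x8912347560 .nil)) (.node 2 8 (.cons 0x6547019823 (.cons 0x6098217543 (.cons 0x3457609821 .nil))) .done .done)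 .done) .done)) (.node 0 4 (.cons 0x5678904321 .nil) (.node 7 9 (.cons 0x9781234056 .nil) (.node 2 7 (.cons 0x6512789043 .nil) (.node 5 7 (.cons 0x6578904321 .nil) .done .done) .done) (.node 4 9 (.cons 0x9432187650 .nil) (.node 5 9 (.cons 0x9504321876 .nil) (.node 4 8 (.cons 0x9056784321 .nil) (.node 7 9 (.cons 0x6509784321 .nil) .done .done) .done) .done) .done)) .done)) (.node 0 6 (.cons 0x8906712345 .nil) (.node 0 3 (.cons 0x4309876512 .nil) (.node 1 3 .nil (.node 0 4 (.cons 0x5678904321 (.cons 0x5678904312 .nil)) (.node 0 2 (.cons 0x9813456702 .nil) (.node 4 9 (.cons 0x9432187650 (.cons 0x8734902156 (.cons 0x8765094312 (.cons 0x9432056781 .nil)))) .done .done) .done) .done) (.node 0 2 .nil (.node 6 9 (.cons 0x7698120345 (.cons 0x7698154302 .nil)) (.node 2 4 (.cons 0x8915670243 (.cons 0x8769034215 (.cons 0x8734215690 (.cons 0x8769051243 .nil)))) .done (.node 4 7 (.cons 0x5476981230 (.cons 0x8967451203 (.cons 0x5476981203 .nil))) .done .done)) (.node 0 4 (.cons 0x5678904321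 .nil) (.node 0 8 .nil (.node 2 9 (.cons 0x1892345670 (.cons 0x8092154376 (.cons 0x9218045673 .nil))) .done .done) .done) .done)) .done)) (.node 0 4 (.cons 0x5678904321 .nil) (.node 1 6 (.cons 0x7890432165 .nil) (.node 1 4 .nil (.node 2 5 (.cons 0x8906712543 (.cons 0x8914325670 (.cons 0x7890652143 .nil))) (.node 3 8 (.cons 0x5438906712 (.cons 0x9078325614 (.cons 0x6709832541 (.cons 0x6714523890 .nil)))) .done .done) .done) .done) (.node 0 8 .nil (.node 6 9 (.cons 0x9678123405 (.cons 0x9671805432 (.cons 0x9673218045 .nil))) .done (.node 0 3 (.cons 0x4309876512 .nil) (.node 0 2 .nil (.node 4 7 (.cons 0x8903476512 (.cons 0x9812034765 .nil)) (.node 3 6 (.cons 0x9801236547 (.cons 0x9876340215 (.cons 0x7436519802 .nil))) .done .done) .done) .done) .done)) .done)) .done)) .done)) (.node 1 6 (.cons 0x7890561234 .nil) (.node 1 4 .nil (.node 2 6 (.cons 0x9817054326 (.cons 0x9870562341 (.cons 0x9814326507 .nil))) (.node 6 8 (.cons 0x5432176890 (.cons 0x9056873412 (.cons 0x7145098623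 .nil))) .done .done) (.node 5 9 (.cons 0x8709561432 .nil) (.node 5 8 (.cons 0x6712345890 .nil) (.node 1 9 .nil (.node 4 6 (.cons 0x3217645890 (.cons 0x7891234650 (.cons 0x8734650912 (.cons 0x2378564190 .nil)))) .done (.node 1 3 .nil (.node 2 4 (.cons 0x3421567890 (.cons 0x4231985670 (.cons 0x8765901324 (.cons 0x4231678590 .nil)))) .done .done) .done)) .done) (.node 5 8 (.cons 0x6712345890 .nil) (.node 7 9 (.cons 0x2341658790 .nil) (.node 4 7 (.cons 0x6509874321 .nil) (.node 5 7 .nil (.node 4 9 (.cons 0x6178509432 (.cons 0x8750943216 .nil)) (.node 6 9 (.cons 0x1234789650 (.cons 0x2341896570 .nil)) .done .done) .done) .done) .done) .done) .done)) .done)) (.node 4 7 (.cons 0x6509874321 .nil) (.node 1 9 (.cons 0x8916507432 .nil) (.node 1 3 .nil (.node 1 4 (.cons 0x8907654132 .nil) (.node 4 6 (.cons 0x7890564321 (.cons 0x7890564312 (.cons 0x9874650132 .nil))) .done .done) .done) .done) (.node 1 3 (.cons 0x6509874312 .nil) (.node 1 9 .nil (.node 2 6 (.cons 0x5621347890 (.cons 0x3478912650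 (.cons 0x9187056234 .nil))) (.node 2 7 (.cons 0x8905612743 (.cons 0x8916507234 .nil)) .done .done) .done) .done) .done)) .done)) .done)) .done)) .done))) (.node 1 5 (.cons 0x4321567890 .nil) (.node 1 6 (.cons 0x7098165432 .nil) tc9_0_40 (.node 0 8 (.cons 0x9087651234 .nil) tc9_0_39 (.node 2 7 (.cons 0x6543270981 .nil) (.node 1 7 .nil (.node 0 5 (.cons 0x6509871234 .nil) (.node 2 4 (.cons 0x3421567890 (.cons 0x6789051243 .nil)) (.node 6 9 (.cons 0x1896543270 (.cons 0x4327056981 (.cons 0x8170965423 .nil))) (.node 1 3 (.cons 0x9650781342 (.cons 0x8967213450 (.cons 0x4318965072 .nil))) .done (.node 4 7 (.cons 0x6981054723 .nil) (.node 0 2 (.cons 0x8715690243 (.cons 0x3472056981 .nil)) (.node 0 3 (.cons 0x8715690342 (.cons 0x2743056981 .nil)) .done .done) .done) .done)) (.node 3 6 (.cons 0x9810723654 (.cons 0x8907156342 (.cons 0x2436517890 .nil))) (.node 2 9 (.cons 0x1563429870 (.cons 0x4367892150 (.cons 0x8924365170 (.cons 0x4563298170 .nil)))) .done .done) .done)) (.node 5 7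 .nil (.node 0 6 (.cons 0x7560981234 (.cons 0x9817065432 .nil)) (.node 0 3 (.cons 0x4309876512 (.cons 0x9812754306 (.cons 0x9812756034 .nil))) (.node 1 9 (.cons 0x8765091234 (.cons 0x8912754306 (.cons 0x8912756034 .nil))) .done .done) .done) (.node 7 9 (.cons 0x6509781234 .nil) (.node 1 9 (.cons 0x8765091234 .nil) (.node 4 7 .nil (.node 2 6 (.cons 0x8190743265 (.cons 0x8179054326 (.cons 0x5623470981 (.cons 0x3265470981 .nil)))) .done (.node 4 9 (.cons 0x8765094321 (.cons 0x8712349056 .nil)) (.node 2 5 (.cons 0x6523781094 .nil) (.node 4 6 (.cons 0x8732564901 (.cons 0x3256498710 (.cons 0x8710946523 .nil))) .done .done) .done) .done)) .done) (.node 4 7 .nil (.node 3 6 (.cons 0x4365097812 (.cons 0x9810745632 (.cons 0x4756321890 (.cons 0x8901745632 .nil)))) .done (.node 4 9 (.cons 0x8765094321 (.cons 0x8712349056 .nil)) (.node 2 5 (.cons 0x6523781094 .nil) (.node 4 6 (.cons 0x8732564901 (.cons 0x3256498710 (.cons 0x8710946523 (.cons 0x3465217890 .nil)))) .done .done) .done) .done))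 .done)) .done)) .done)) (.node 4 7 .nil (.node 0 5 (.cons 0x8905432176 (.cons 0x6509874321 .nil)) (.node 0 6 (.cons 0x8906712345 (.cons 0x7432189065 .nil)) (.node 1 9 (.cons 0x8765091234 .nil) (.node 6 9 (.cons 0x1896543270 (.cons 0x3274569810 (.cons 0x8123745690 .nil))) .done .done) .done) .done) (.node 0 5 (.cons 0x8905432176 .nil) (.node 1 9 (.cons 0x8765091234 .nil) (.node 7 9 (.cons 0x6509781234 .nil) (.node 5 7 .nil (.node 0 4 (.cons 0x5678904321 (.cons 0x6578904321 .nil)) (.node 3 6 (.cons 0x9056347812 (.cons 0x6321897540 (.cons 0x8904367512 (.cons 0x9810457236 .nil)))) .done .done) .done) .done) .done) (.node 1 9 .nil (.node 6 8 (.cons 0x5432176890 (.cons 0x6891705432 (.cons 0x4378650912 (.cons 0x6891723450 (.cons 0x4568190732 .nil))))) .done (.node 1 3 (.cons 0x6509874312 .nil) (.node 1 4 (.cons 0x8914327056 .nil) (.node 1 6 (.cons 0x9816543270 .nil) .done .done) .done) .done)) .done)) .done)) .done)) (.node 1 7 .nil (.node 0 5 (.cons 0x6509871234 .nil) (.node 3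 6 (.cons 0x6345189072 (.cons 0x8905127634 .nil)) (.node 4 6 (.cons 0x9810723645 (.cons 0x9056432187 (.cons 0x9056437812 (.cons 0x9810546327 .nil)))) .done (.node 2 4 (.cons 0x3421567890 (.cons 0x9051872436 (.cons 0x2436517890 .nil))) (.node 6 9 (.cons 0x7018965423 (.cons 0x7243698150 (.cons 0x7245018963 (.cons 0x3245698170 .nil)))) .done .done) .done)) (.node 0 6 (.cons 0x8906721543 .nil) (.node 3 6 (.cons 0x6345189072 .nil) (.node 3 8 (.cons 0x6721543890 (.cons 0x4567109832 .nil)) (.node 6 9 (.cons 0x4387690512 (.cons 0x8345096712 (.cons 0x8172345096 (.cons 0x8321769054 .nil)))) .done .done) (.node 0 2 (.cons 0x8902763451 (.cons 0x4365178902 .nil)) .done .done)) (.node 3 8 (.cons 0x6721543890 (.cons 0x5438906712 (.cons 0x4567109832 .nil))) (.node 6 8 (.cons 0x3451276890 (.cons 0x9054327186 .nil)) (.node 0 4 (.cons 0x5678904321 (.cons 0x5409867123 .nil)) (.node 2 8 (.cons 0x9043782156 .nil) .done .done) .done) .done) .done)) .done)) (.node 5 7 .nil (.node 0 6 (.cons 0x9817065432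 (.cons 0x9065781234 (.cons 0x7560981234 (.cons 0x6098127543 .nil)))) .done (.node 4 7 .nil (.node 0 2 (.cons 0x9817023456 (.cons 0x6512098743 (.cons 0x8902156743 .nil))) (.node 2 6 (.cons 0x6270981543 (.cons 0x9810745623 (.cons 0x5623470981 (.cons 0x3265470981 .nil)))) .done .done) (.node 7 9 .nil (.node 6 8 (.cons 0x3451276890 (.cons 0x2186543790 (.cons 0x4568109732 (.cons 0x4568123790 .nil)))) (.node 4 8 (.cons 0x7654890123 (.cons 0x6548109732 .nil)) (.node 4 9 (.cons 0x8654973210 (.cons 0x2379456810 .nil)) .done .done) .done) .done) .done)) .done)) .done)) (.node 5 7 .nil (.node 0 6 (.cons 0x9065781234 (.cons 0x7560981234 .nil)) (.node 1 7 (.cons 0x9817065432 (.cons 0x8906712345 .nil)) .done (.node 0 4 (.cons 0x5678904321 (.cons 0x9043218756 (.cons 0x6578904321 .nil))) (.node 3 6 (.cons 0x4563270981 (.cons 0x9812754063 (.cons 0x8904367512 (.cons 0x6327540981 .nil)))) .done .done) .done)) (.node 1 7 .nil (.node 0 5 (.cons 0x6509871234 .nil) (.node 3 6 (.cons 0x4563270981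 (.cons 0x4563271890 .nil)) (.node 7 9 (.cons 0x8976321054 .nil) (.node 0 2 (.cons 0x9781205634 (.cons 0x8976345021 (.cons 0x7981205634 .nil))) (.node 2 9 (.cons 0x7018923654 (.cons 0x4367892150 (.cons 0x8920715634 .nil))) .done .done) .done) (.node 4 7 (.cons 0x7436509812 .nil) (.node 2 6 (.cons 0x5189074362 (.cons 0x9815074362 .nil)) (.node 3 9 (.cons 0x4390781562 (.cons 0x8743905126 (.cons 0x8762150934 (.cons 0x8150936274 .nil)))) .done .done) .done) .done)) (.node 3 6 (.cons 0x4563270981 (.cons 0x4563271890 .nil)) (.node 1 6 (.cons 0x7098165432 .nil) (.node 3 8 (.cons 0x9072381654 (.cons 0x4567109832 .nil)) (.node 0 6 (.cons 0x7609834512 (.cons 0x5438906712 .nil)) (.node 2 6 (.cons 0x7621543890 .nil) .done .done) .done) (.node 2 5 (.cons 0x7098165234 (.cons 0x8907165234 .nil)) .done .done)) (.node 4 9 (.cons 0x8765094321 (.cons 0x8712349056 (.cons 0x8172365094 .nil))) (.node 0 6 (.cons 0x8945760123 .nil) (.node 0 4 (.cons 0x5678904321 .nil) (.node 5 8 (.cons 0x4985763210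 (.cons 0x4098563271 (.cons 0x6321758940 .nil))) .done .done) .done) (.node 2 8 (.cons 0x3490567821 (.cons 0x9436507182 (.cons 0x8217634905 .nil))) .done .done)) .done)) .done)) (.node 0 5 (.cons 0x8905432176 .nil) (.node 7 9 (.cons 0x6509781234 .nil) (.node 4 7 .nil (.node 0 6 (.cons 0x8906712345 (.cons 0x9812347560 .nil)) (.node 2 5 (.cons 0x8906712543 (.cons 0x3478906521 .nil)) .done .done) .done) .done) (.node 4 7 (.cons 0x6509874321 .nil) (.node 7 9 .nil (.node 6 8 (.cons 0x5432176890 (.cons 0x6897123450 (.cons 0x2186543790 (.cons 0x4568109732 (.cons 0x4568123790 .nil))))) .done .done) .done) .done)) .done)) .done)) .done))) .done))) (.node 0 6 (.cons 0x7609812345 .nil) (.node 5 7 (.cons 0x6754321890 .nil) tc9_0_38 (.node 5 7 (.cons 0x6754321890 .nil) tc9_0_37 (.node 0 8 .nil (.node 5 9 (.cons 0x6734590812 (.cons 0x6732180954 .nil)) (.node 0 4 (.cons 0x8765904321 .nil) (.node 6 8 (.cons 0x9568732104 (.cons 0x4590186732 (.cons 0x4095687321 .nil))) .done (.node 6 8 (.cons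 0x7689540123 (.cons 0x4590186732 .nil)) (.node 1 5 (.cons 0x6789512340 (.cons 0x9087651234 (.cons 0x6873215904 .nil))) (.node 1 7 (.cons 0x5409867123 (.cons 0x3217689540 .nil)) .done .done) .done) .done)) (.node 4 6 (.cons 0x5906437812 (.cons 0x7809564321 .nil)) (.node 2 7 (.cons 0x6459810723 (.cons 0x9543721806 (.cons 0x9546081273 .nil))) (.node 1 6 (.cons 0x8954610723 (.cons 0x7809561234 (.cons 0x5980723461 .nil))) .done .done) (.node 1 5 (.cons 0x4321567890 (.cons 0x9087651234 .nil)) (.node 2 9 (.cons 0x2951873460 (.cons 0x6708923451 (.cons 0x4329807651 (.cons 0x9237645180 .nil)))) .done (.node 2 9 (.cons 0x8129067345 (.cons 0x8092154376 (.cons 0x8092156734 (.cons 0x5467329081 .nil)))) .done .done)) .done)) (.node 1 7 (.cons 0x6718095432 .nil) (.node 0 5 (.cons 0x6509871234 .nil) (.node 2 8 (.cons 0x6543289071 .nil) (.node 3 9 (.cons 0x4593760182 (.cons 0x7128934560 (.cons 0x5439821760 (.cons 0x4395067182 .nil)))) .done (.node 4 6 (.cons 0x1823764590 (.cons 0x3281764590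 (.cons 0x9054671823 .nil))) (.node 0 2 (.cons 0x1789564320 (.cons 0x8954671023 (.cons 0x5981764320 .nil))) .done .done) .done)) .done) (.node 0 2 (.cons 0x9543208176 (.cons 0x4320895671 .nil)) (.node 0 5 (.cons 0x9805432176 .nil) (.node 1 6 (.cons 0x7618095432 (.cons 0x7165980234 .nil)) (.node 4 9 (.cons 0x8765094321 (.cons 0x9432178056 (.cons 0x8761234905 (.cons 0x8734902165 .nil)))) .done .done) .done) (.node 0 4 (.cons 0x5678904321 .nil) (.node 2 9 (.cons 0x8129067345 (.cons 0x6543298071 (.cons 0x8043295671 (.cons 0x6718045923 .nil)))) .done (.node 1 6 (.cons 0x7890432165 (.cons 0x9561780432 (.cons 0x7165980432 .nil))) .done .done)) .done)) (.node 2 8 (.cons 0x9082173456 .nil) (.node 1 9 (.cons 0x2819543760 (.cons 0x9128065437 .nil)) (.node 1 4 (.cons 0x5670891432 (.cons 0x7659143280 (.cons 0x7341956082 .nil))) (.node 0 2 (.cons 0x8765902341 (.cons 0x9560287341 (.cons 0x8206734195 (.cons 0x3417659820 .nil)))) .done .done) .done) (.node 4 9 (.cons 0x6549082173 (.cons 0x3765490821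 .nil)) (.node 2 5 (.cons 0x7609812543 (.cons 0x6701894523 (.cons 0x5218760943 (.cons 0x8734906521 .nil)))) .done (.node 2 9 (.cons 0x8129067345 (.cons 0x8092173456 .nil)) (.node 5 8 (.cons 0x5806734921 (.cons 0x6580921734 (.cons 0x4376580921 .nil))) .done .done) .done)) .done)) .done))) .done))) (.node 0 4 (.cons 0x5678904321 .nil) (.node 0 5 .nil (.node 4 6 (.cons 0x7890564321 .nil) (.node 2 5 (.cons 0x9810764523 (.cons 0x9064378125 (.cons 0x3254670981 .nil))) (.node 5 9 (.cons 0x6432590781 (.cons 0x3467812590 (.cons 0x1876432590 (.cons 0x8123764590 .nil)))) .done .done) (.node 3 9 (.cons 0x5467018932 (.cons 0x7893210564 (.cons 0x5012398764 (.cons 0x7645018932 .nil)))) (.node 0 3 (.cons 0x9812305467 .nil) (.node 1 9 (.cons 0x7891234650 (.cons 0x5034678912 .nil)) (.node 5 9 (.cons 0x9506437812 (.cons 0x2195643780 (.cons 0x4659108732 (.cons 0x4659123780 .nil)))) .done .done) .done) .done) (.node 2 8 (.cons 0x9018237645 (.cons 0x9054673281 .nil)) (.node 4 8 (.cons 0x7654890123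 .nil) (.node 1 9 (.cons 0x1982345670 (.cons 0x9128437650 (.cons 0x9128765043 .nil))) (.node 6 9 (.cons 0x5437069182 (.cons 0x7348219650 (.cons 0x7328196450 .nil))) .done .done) .done) .done) .done))) .done) (.node 0 5 .nil (.node 0 3 .nil (.node 1 7 (.cons 0x8903456712 (.cons 0x6509871234 .nil)) (.node 4 9 (.cons 0x5603498712 (.cons 0x1234987650 (.cons 0x8945671032 (.cons 0x6503498712 .nil)))) .done .done) (.node 0 2 .nil (.node 1 7 (.cons 0x8902176543 (.cons 0x6509871234 .nil)) (.node 3 9 (.cons 0x8934506712 (.cons 0x5602178934 (.cons 0x5439817602 .nil))) .done .done) (.node 6 9 (.cons 0x8123769054 .nil) (.node 5 7 (.cons 0x8967540123 (.cons 0x8120967543 (.cons 0x6908123754 .nil))) .done (.node 5 7 (.cons 0x4321896750 .nil) (.node 2 4 (.cons 0x8096573421 (.cons 0x3421896750 (.cons 0x8124375096 .nil))) .done (.node 3 8 (.cons 0x6754098321 (.cons 0x4057698321 .nil)) (.node 5 8 (.cons 0x7698504321 (.cons 0x4376905812 .nil)) .done .done) .done)) (.node 2 8 (.cons 0x9673281054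 (.cons 0x4509673281 .nil)) (.node 1 7 (.cons 0x8176902345 (.cons 0x5401769823 (.cons 0x3456712890 .nil))) .done .done) .done))) .done)) .done)) (.node 0 3 .nil (.node 1 5 (.cons 0x4321567890 (.cons 0x4309876512 .nil)) (.node 4 9 (.cons 0x8765094321 (.cons 0x7894306512 (.cons 0x2156789430 (.cons 0x4987651032 .nil)))) .done (.node 2 5 (.cons 0x7609812543 (.cons 0x9812543067 .nil)) (.node 4 7 (.cons 0x6512347890 (.cons 0x9874306512 (.cons 0x6745218903 .nil))) .done .done) .done)) (.node 0 2 .nil (.node 1 7 (.cons 0x8902176543 .nil) (.node 2 8 (.cons 0x6543289071 .nil) (.node 4 9 (.cons 0x3289456701 (.cons 0x7128943065 (.cons 0x5671289430 (.cons 0x3289456710 .nil)))) .done (.node 4 9 (.cons 0x8765094321 (.cons 0x8712349056 (.cons 0x6549082173 (.cons 0x6549082371 .nil)))) .done .done)) (.node 4 9 (.cons 0x8765094321 (.cons 0x5602178943 (.cons 0x8943021765 (.cons 0x8945671023 .nil)))) .done .done)) .done) .done)) .done)) .done)) .done)) .done))) (.node 1 5 (.cons 0x4321567890 .nil)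 (.node 1 7 .nil tc9_0_36 (.node 0 8 (.cons 0x9087651234 .nil) tc9_0_35 (.node 4 7 (.cons 0x6512347890 .nil) tc9_0_34 .done))) .done))))
noncomputable def uc9_0_6 : T := tc9_0_43
theorem sub_c9_0_6 : root 9 refs9_0 [] 0x700000008704000000004060070020060500000000504000000004010000070010300000000302000000002018020000010 0xfe7fff6fff2bff9fffcfffedff75fff3fff9fef9 9 1 8 (.cons 0x7654321890 .nil) uc9_0_6 = true := by decide +kernel
noncomputable def tc9_0_44 : T := (.node 4 7 .nil (.node 0 5 (.cons 0x8905432176 (.cons 0x6509874321 .nil)) (.node 1 5 (.cons 0x4321567890 (.cons 0x6512347890 .nil)) (.node 1 9 (.cons 0x8765091234 (.cons 0x8743219056 .nil)) (.node 1 3 (.cons 0x8907654312 .nil) (.node 0 6 (.cons 0x8906712345 .nil) (.node 0 8 (.cons 0x9807213456 (.cons 0x9806512347 (.cons 0x9806743215 (.cons 0x2347651980 .nil)))) .done (.node 2 8 (.cons 0x9823451760 (.cons 0x7432891560 (.cons 0x5198234760 (.cons 0x7456098231 .nil)))) .done .done)) .done) .done) .done) (.node 0 3 (.cons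 0x9812765430 (.cons 0x5674309812 .nil)) (.node 2 6 (.cons 0x8905432671 (.cons 0x9034781265 (.cons 0x7430981265 (.cons 0x7456218903 .nil)))) .done (.node 5 7 (.cons 0x6754309812 .nil) (.node 1 5 (.cons 0x4321567890 (.cons 0x6512347890 .nil)) (.node 5 8 (.cons 0x6712345890 .nil) (.node 6 9 (.cons 0x6985430721 (.cons 0x8569012374 (.cons 0x6985472103 (.cons 0x6985472301 (.cons 0x8967451230 .nil))))) .done .done) (.node 0 8 (.cons 0x9087651234 (.cons 0x9087432156 .nil)) .done .done)) .done) .done)) .done)) (.node 7 9 .nil (.node 5 7 .nil (.node 4 8 (.cons 0x7654890123 (.cons 0x6754890123 .nil)) (.node 3 6 (.cons 0x7984563210 (.cons 0x9845763210 (.cons 0x4897563210 .nil))) (.node 0 2 (.cons 0x8120976543 (.cons 0x6345798120 (.cons 0x4365798120 .nil))) (.node 1 3 (.cons 0x8907654312 (.cons 0x6574318902 .nil)) .done .done) (.node 0 2 (.cons 0x5436718902 (.cons 0x4897563201 (.cons 0x8120976543 (.cons 0x5489763201 .nil)))) .done .done)) (.node 0 6 (.cons 0x8906712345 (.cons 0x5609784321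 (.cons 0x5609734812 (.cons 0x3279845601 .nil)))) .done .done)) (.node 0 4 (.cons 0x5678904321 .nil) (.node 5 8 (.cons 0x6712345890 (.cons 0x6587904321 .nil)) (.node 1 9 (.cons 0x6587912340 (.cons 0x8567912340 .nil)) .done (.node 3 5 (.cons 0x9043567812 (.cons 0x6534097812 .nil)) (.node 0 8 (.cons 0x6543790812 (.cons 0x6798012354 .nil)) (.node 1 5 (.cons 0x4321567890 (.cons 0x9087651234 (.cons 0x8790432156 .nil))) .done .done) .done) .done)) (.node 6 8 (.cons 0x5432176890 (.cons 0x7986540123 (.cons 0x3279865401 (.cons 0x8654097321 .nil)))) .done (.node 4 8 (.cons 0x7654890123 .nil) (.node 0 2 (.cons 0x8120976543 (.cons 0x8120973456 .nil)) (.node 0 8 (.cons 0x6543790812 .nil) (.node 1 9 (.cons 0x6548019732 (.cons 0x5674891023 .nil)) .done .done) (.node 3 5 (.cons 0x9847653201 (.cons 0x4356798120 (.cons 0x6534897021 (.cons 0x4897653201 .nil)))) .done .done)) (.node 0 6 (.cons 0x6098457123 (.cons 0x5609784321 (.cons 0x5609734812 (.cons 0x3279845601 .nil)))) .done .done)) .done)))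 .done)) (.node 5 7 .nil (.node 4 8 (.cons 0x7654890123 (.cons 0x6754890123 .nil)) (.node 0 4 (.cons 0x5678904321 (.cons 0x6578904321 .nil)) (.node 3 9 (.cons 0x7654893210 (.cons 0x9321048756 (.cons 0x6754893210 .nil))) (.node 0 3 (.cons 0x9812765430 (.cons 0x6579304812 (.cons 0x6754309812 .nil))) (.node 2 9 (.cons 0x1892765430 (.cons 0x6578129043 (.cons 0x6754892301 .nil))) .done .done) (.node 1 4 (.cons 0x8932765410 .nil) (.node 2 6 (.cons 0x5489326710 (.cons 0x9326578410 (.cons 0x7562398410 (.cons 0x8756239041 .nil)))) .done .done) .done)) (.node 6 8 (.cons 0x5432176890 .nil) (.node 1 9 (.cons 0x5401986723 (.cons 0x6891045723 .nil)) (.node 1 3 (.cons 0x8907654312 (.cons 0x9867540132 .nil)) (.node 0 2 (.cons 0x5432098671 (.cons 0x4865791320 (.cons 0x6890234571 (.cons 0x6574318902 .nil)))) .done .done) .done) (.node 2 6 (.cons 0x5762189043 .nil) (.node 5 8 (.cons 0x6217098543 (.cons 0x1762345890 .nil)) .done (.node 1 9 (.cons 0x8673219045 .nil) (.node 0 3 (.cons 0x1986547230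 (.cons 0x6890321754 (.cons 0x6570348912 (.cons 0x9175486230 .nil)))) .done (.node 3 9 (.cons 0x7654893210 (.cons 0x8475623910 (.cons 0x6754893210 (.cons 0x8401932675 .nil)))) .done .done)) .done)) .done)) .done)) (.node 0 6 (.cons 0x8456097321 (.cons 0x9065784321 (.cons 0x7560984321 .nil))) (.node 3 6 (.cons 0x2184563790 (.cons 0x9845710632 (.cons 0x2365748901 .nil))) .done .done) .done)) .done) .done)) .done)) (.node 7 9 .nil (.node 0 8 (.cons 0x6543790812 .nil) (.node 1 9 (.cons 0x7654321980 .nil) (.node 1 5 (.cons 0x4321567890 (.cons 0x9087651234 .nil)) (.node 3 9 (.cons 0x6708934512 (.cons 0x4398076512 .nil)) (.node 2 9 (.cons 0x6708921543 .nil) (.node 0 2 (.cons 0x8120976543 (.cons 0x8120973456 .nil)) (.node 4 6 (.cons 0x3981546720 (.cons 0x5467108932 (.cons 0x4651932780 (.cons 0x3980276451 (.cons 0x5176432980 .nil))))) .done .done) .done) .done) .done) (.node 1 3 (.cons 0x8907654312 (.cons 0x9807654312 .nil)) (.node 1 5 (.cons 0x4321567890 (.cons 0x9087651234 .nil))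 (.node 4 7 (.cons 0x5674321980 (.cons 0x2347651980 .nil)) .done .done) .done) .done)) (.node 2 8 (.cons 0x3456709821 .nil) (.node 2 5 (.cons 0x9081254376 (.cons 0x6790812543 .nil)) (.node 0 4 (.cons 0x5678904321 (.cons 0x6521879043 (.cons 0x3289765401 .nil))) (.node 1 6 (.cons 0x7890432165 (.cons 0x5432167980 (.cons 0x8097612345 (.cons 0x5612897043 .nil)))) .done .done) .done) (.node 1 6 (.cons 0x7098216543 (.cons 0x3456128970 (.cons 0x8097612345 .nil))) (.node 1 3 (.cons 0x8907654312 (.cons 0x6543128970 .nil)) (.node 1 9 (.cons 0x8219073456 .nil) .done .done) .done) .done)) (.node 0 5 (.cons 0x8905432176 .nil) (.node 0 6 (.cons 0x8906712345 .nil) (.node 4 8 (.cons 0x9056784321 (.cons 0x6509784321 .nil)) (.node 1 9 (.cons 0x6548019732 (.cons 0x8432197650 .nil)) .done (.node 2 5 (.cons 0x9067348125 (.cons 0x9760521843 (.cons 0x8125609734 .nil))) .done .done)) .done) (.node 2 6 (.cons 0x9056218734 (.cons 0x6234508971 (.cons 0x8126509734 .nil))) (.node 0 3 (.cons 0x7654309812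 (.cons 0x8126790345 .nil)) (.node 0 6 (.cons 0x8906712345 .nil) .done .done) .done) .done)) .done))) (.node 4 7 .nil (.node 0 5 (.cons 0x8905432176 (.cons 0x6509874321 .nil)) (.node 1 5 (.cons 0x4321567890 (.cons 0x6512347890 .nil)) (.node 5 7 .nil (.node 0 3 (.cons 0x7654309812 (.cons 0x6574309812 (.cons 0x6754309812 .nil))) (.node 0 6 (.cons 0x8906712345 (.cons 0x8906574321 .nil)) .done .done) .done) .done) (.node 0 3 (.cons 0x7654309812 (.cons 0x6547218903 (.cons 0x5674309812 .nil))) (.node 3 5 (.cons 0x6721890354 (.cons 0x6532109874 .nil)) (.node 5 7 (.cons 0x6754309812 .nil) .done .done) .done) .done)) (.node 5 7 .nil (.node 4 8 (.cons 0x7654890123 (.cons 0x6754890123 .nil)) (.node 0 6 (.cons 0x9065481273 (.cons 0x9065784321 (.cons 0x7560984321 .nil))) (.node 3 6 (.cons 0x3654890721 (.cons 0x9845710632 (.cons 0x9847563210 .nil))) .done .done) (.node 0 4 (.cons 0x5678904321 (.cons 0x6578904321 .nil)) (.node 2 9 (.cons 0x8456732901 (.cons 0x6578129043 .nil)) (.node 1 3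 (.cons 0x1327654890 (.cons 0x6754892310 .nil)) (.node 2 6 (.cons 0x8974562310 (.cons 0x6298457013 (.cons 0x9013265784 (.cons 0x9847562310 .nil)))) .done (.node 1 4 (.cons 0x5672314890 (.cons 0x6572314890 .nil)) .done .done)) (.node 1 4 (.cons 0x8410923765 (.cons 0x8410923756 .nil)) .done .done)) (.node 6 8 (.cons 0x5432176890 (.cons 0x9867540123 .nil)) (.node 1 9 (.cons 0x8673219045 .nil) (.node 0 2 (.cons 0x6548190273 (.cons 0x6578432091 (.cons 0x4865732091 .nil))) (.node 0 8 (.cons 0x9123745680 .nil) .done .done) (.node 0 8 (.cons 0x5674321980 (.cons 0x6574321980 .nil)) .done .done)) .done) .done)) .done)) .done) .done)) .done)) .done))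
noncomputable def tc9_0_45 : T := (.node 1 5 (.cons 0x4321567890 .nil) (.node 0 5 (.cons 0x8905432176 .nil) (.node 0 8 (.cons 0x9087651234 .nil) (.node 1 4 .nil (.node 6 8 (.cons 0x5432176890 (.cons 0x9056873412 (.cons 0x9056873214 .nil))) (.node 2 8 (.cons 0x3456709821 (.cons 0x9014568237 (.cons 0x9073145682 .nil))) .done .done) (.node 1 6 (.cons 0x7890561234 .nil) (.node 1 9 .nil (.node 0 4 (.cons 0x5678904321 (.cons 0x8765190432 .nil)) (.node 4 6 (.cons 0x7890564321 (.cons 0x7891234650 (.cons 0x5190876432 .nil))) .done .done) .done) .done) .done)) (.node 1 4 (.cons 0x9087651432 .nil) (.node 1 6 (.cons 0x7890561234 .nil) (.node 1 9 .nil (.node 2 6 (.cons 0x7890562143 (.cons 0x5432671980 (.cons 0x8091762345 .nil))) (.node 2 7 (.cons 0x6509872143 (.cons 0x6543198072 .nil)) .done .done) .done) .done) .done) .done)) (.node 1 4 .nil (.node 2 8 (.cons 0x3456709821 (.cons 0x9051432876 (.cons 0x6714509823 .nil))) (.node 1 6 (.cons 0x9056143782 .nil) (.node 1 9 (.cons 0x6509143782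 .nil) .done .done) .done) (.node 3 5 (.cons 0x2143567890 .nil) (.node 1 6 .nil (.node 2 5 (.cons 0x3412567890 (.cons 0x6178905234 .nil)) (.node 2 8 (.cons 0x3456709821 (.cons 0x9056143782 (.cons 0x9051678234 .nil))) .done .done) (.node 1 9 .nil (.node 0 2 (.cons 0x9876534120 (.cons 0x9187650234 (.cons 0x6789143502 (.cons 0x8912076534 .nil)))) (.node 4 7 (.cons 0x9816502347 (.cons 0x6502347891 (.cons 0x8916534702 .nil))) .done .done) .done) .done)) .done) .done)) .done)) (.node 2 7 (.cons 0x8907213456 .nil) (.node 4 7 .nil (.node 2 6 (.cons 0x8907431265 (.cons 0x8907456213 .nil)) (.node 0 3 (.cons 0x4309876512 (.cons 0x5126789034 (.cons 0x8903476512 (.cons 0x8903451762 .nil)))) .done (.node 0 2 (.cons 0x9812076543 (.cons 0x6512098743 (.cons 0x8902156743 .nil))) (.node 0 3 (.cons 0x4309876512 (.cons 0x8903476512 .nil)) (.node 2 8 (.cons 0x3456709821 (.cons 0x9034782651 (.cons 0x6547098213 .nil))) .done .done) .done) .done)) (.node 1 9 .nil (.node 0 5 (.cons 0x8905432176 (.cons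 0x8765091234 .nil)) (.node 6 8 (.cons 0x9865472310 (.cons 0x4378650912 (.cons 0x6891723450 .nil))) (.node 0 4 (.cons 0x5678904321 (.cons 0x5687409132 (.cons 0x8673219045 .nil))) .done .done) (.node 1 4 (.cons 0x8765091432 .nil) .done .done)) (.node 1 6 .nil (.node 2 8 (.cons 0x3456709821 (.cons 0x7456109823 (.cons 0x5476109823 (.cons 0x7456132890 .nil)))) .done (.node 1 4 .nil (.node 2 6 (.cons 0x2651347890 (.cons 0x5623147890 .nil)) (.node 0 6 (.cons 0x8906712345 .nil) (.node 3 9 (.cons 0x2189345670 (.cons 0x8932760145 (.cons 0x8932765410 .nil))) .done .done) .done) .done) .done)) .done)) .done)) (.node 2 8 (.cons 0x3456709821 .nil) (.node 1 9 (.cons 0x8219073456 .nil) (.node 1 6 (.cons 0x7098216543 .nil) (.node 1 4 .nil (.node 0 6 (.cons 0x9065128734 (.cons 0x9065143782 .nil)) (.node 3 5 (.cons 0x9078216534 (.cons 0x9821435607 (.cons 0x4109876532 .nil))) .done .done) .done) .done) .done) (.node 3 8 .nil (.node 0 2 (.cons 0x9812076543 (.cons 0x9021567834 (.cons 0x7651209834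 .nil))) (.node 0 4 (.cons 0x5678904321 (.cons 0x9043876512 (.cons 0x6721540983 .nil))) (.node 0 8 (.cons 0x9082154376 .nil) .done .done) .done) (.node 1 4 (.cons 0x1456723890 .nil) (.node 1 6 (.cons 0x4561389072 .nil) (.node 1 9 (.cons 0x8327654190 .nil) .done .done) .done) .done)) .done)) .done)) .done)) (.node 0 5 (.cons 0x8905432176 .nil) (.node 1 9 (.cons 0x8765091234 .nil) (.node 1 5 (.cons 0x4321567890 .nil) (.node 3 9 (.cons 0x2189345670 .nil) (.node 0 3 (.cons 0x4309876512 .nil) (.node 3 8 .nil (.node 2 6 (.cons 0x5439812670 (.cons 0x9126507834 (.cons 0x5621907834 (.cons 0x9381267054 .nil)))) (.node 4 7 (.cons 0x8743219056 (.cons 0x5621983470 (.cons 0x9183470562 .nil))) .done .done) (.node 1 4 (.cons 0x7654109832 .nil) (.node 1 6 .nil (.node 2 5 (.cons 0x8907652134 (.cons 0x8934521670 (.cons 0x6170983452 (.cons 0x8390761452 .nil)))) .done .done) .done) .done)) (.node 0 6 (.cons 0x8906712345 .nil) (.node 3 8 .nil (.node 2 6 (.cons 0x5439812670 (.cons 0x9126507834 (.cons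 0x5621907834 (.cons 0x9381267054 .nil)))) .done (.node 1 6 (.cons 0x7098345612 .nil) (.node 1 4 .nil (.node 2 7 (.cons 0x6543890721 (.cons 0x9834127065 (.cons 0x9814567230 .nil))) .done .done) .done) .done)) .done) .done)) (.node 3 6 .nil (.node 2 4 (.cons 0x7654239810 (.cons 0x5634219870 (.cons 0x8709124365 (.cons 0x7018936542 (.cons 0x5124367890 .nil))))) .done (.node 5 9 .nil (.node 0 4 (.cons 0x5678904321 (.cons 0x7895632104 (.cons 0x2159876340 (.cons 0x8954017632 .nil)))) .done (.node 7 9 .nil (.node 4 8 (.cons 0x9056784321 (.cons 0x7984563210 (.cons 0x5489763210 (.cons 0x2197843650 (.cons 0x4879105632 .nil))))) .done .done) .done)) .done)) .done)) .done) (.node 1 5 (.cons 0x4321567890 .nil) (.node 0 6 (.cons 0x7890651234 .nil) (.node 4 7 (.cons 0x6512347890 .nil) (.node 2 7 .nil (.node 3 8 (.cons 0x9834706512 (.cons 0x6543890721 (.cons 0x8345091276 (.cons 0x2743891560 .nil)))) .done (.node 7 9 (.cons 0x8974321560 .nil) (.node 5 7 .nil (.node 0 2 (.cons 0x1897654320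 (.cons 0x4320657981 .nil)) (.node 2 8 (.cons 0x3456709821 (.cons 0x6570982134 .nil)) .done .done) .done) .done) .done)) (.node 7 9 (.cons 0x2347981560 .nil) (.node 6 9 .nil (.node 0 2 (.cons 0x4798156023 (.cons 0x9650234781 (.cons 0x5476981023 .nil))) .done (.node 5 9 .nil (.node 0 2 (.cons 0x4798156023 (.cons 0x7432065981 (.cons 0x4320596781 .nil))) .done .done) .done)) .done) .done)) (.node 1 4 (.cons 0x7890651432 .nil) (.node 1 6 .nil (.node 0 4 (.cons 0x5678904321 (.cons 0x7890432165 .nil)) (.node 2 7 (.cons 0x4327890651 (.cons 0x9872340615 .nil)) (.node 3 8 (.cons 0x4387650912 (.cons 0x7098345612 (.cons 0x5438907612 (.cons 0x5409832761 .nil)))) .done .done) .done) .done) .done) .done)) .done) .done)) (.node 1 6 (.cons 0x7890561234 .nil) (.node 1 5 (.cons 0x4321567890 .nil) (.node 0 3 (.cons 0x4309876512 .nil) (.node 5 8 (.cons 0x6712345890 .nil) (.node 0 8 .nil (.node 2 7 (.cons 0x8903451276 (.cons 0x9803451276 .nil)) (.node 2 9 (.cons 0x6178509234 (.cons 0x6512908734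 (.cons 0x8092154376 (.cons 0x8092156734 .nil)))) .done .done) .done) (.node 5 9 (.cons 0x6703459812 .nil) (.node 1 4 (.cons 0x4167859032 .nil) (.node 1 9 .nil (.node 4 6 (.cons 0x3217645890 (.cons 0x7645891230 (.cons 0x8546730912 (.cons 0x2378564190 .nil)))) .done .done) .done) .done) .done)) (.node 0 6 (.cons 0x8906712345 .nil) (.node 1 4 .nil (.node 2 6 (.cons 0x8903451762 (.cons 0x9870562143 (.cons 0x8903267145 .nil))) .done (.node 1 9 .nil (.node 2 4 (.cons 0x3421567890 (.cons 0x6507891243 (.cons 0x8765190342 .nil))) (.node 2 8 (.cons 0x3456709821 (.cons 0x8219073456 (.cons 0x8245190376 .nil))) .done .done) .done) .done)) .done) .done)) .done) (.node 1 5 (.cons 0x4321567890 .nil) (.node 6 8 (.cons 0x5432176890 .nil) (.node 0 8 (.cons 0x9086715432 .nil) (.node 1 9 (.cons 0x7680915432 .nil) (.node 1 4 .nil (.node 2 8 (.cons 0x3456709821 (.cons 0x9014568237 (.cons 0x7328654190 .nil))) .done .done) .done) .done) (.node 1 4 (.cons 0x9056873214 .nil) (.node 1 9 .nil (.node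 0 4 (.cons 0x5678904321 (.cons 0x8673219045 (.cons 0x8765190432 .nil))) (.node 3 8 (.cons 0x9073865412 (.cons 0x4568370912 (.cons 0x7683219045 (.cons 0x5409176832 .nil)))) .done .done) .done) .done) .done)) .done) .done)) (.node 0 6 (.cons 0x9817605432 .nil) (.node 0 4 (.cons 0x5678904321 .nil) (.node 1 6 (.cons 0x7890432165 .nil) (.node 0 3 .nil (.node 7 9 (.cons 0x9781234065 (.cons 0x4567981032 (.cons 0x4567981230 .nil))) .done (.node 0 8 .nil (.node 2 8 (.cons 0x9082165437 (.cons 0x9082167345 .nil)) (.node 0 2 (.cons 0x9812076543 .nil) (.node 2 6 (.cons 0x9817623450 (.cons 0x9805432671 .nil)) .done .done) .done) .done) .done)) .done) (.node 0 3 .nil (.node 7 9 (.cons 0x4567981032 (.cons 0x4567981230 .nil)) (.node 3 6 (.cons 0x8976321045 (.cons 0x5401897632 .nil)) .done .done) (.node 0 2 (.cons 0x9812076543 .nil) (.node 3 5 (.cons 0x9812076534 .nil) (.node 0 8 .nil (.node 2 6 (.cons 0x9817623450 (.cons 0x9805432671 .nil)) (.node 4 9 (.cons 0x4987653210 (.cons 0x6217089453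 (.cons 0x7653498021 (.cons 0x1762354980 .nil)))) .done .done) .done) .done) .done) .done)) .done)) (.node 2 7 .nil (.node 3 9 (.cons 0x2189345670 (.cons 0x6543981270 (.cons 0x6723981054 (.cons 0x4567239810 .nil)))) .done (.node 4 7 .nil (.node 5 7 (.cons 0x9812347560 .nil) (.node 5 8 (.cons 0x6712345890 (.cons 0x6589074312 (.cons 0x2134765890 .nil))) .done .done) (.node 7 9 .nil (.node 2 4 (.cons 0x8901324765 (.cons 0x6507981342 (.cons 0x6798105423 .nil))) (.node 0 2 (.cons 0x9812076543 (.cons 0x5602347981 .nil)) (.node 0 4 (.cons 0x5678904321 (.cons 0x7981234065 .nil)) .done .done) .done) (.node 5 7 .nil (.node 4 8 (.cons 0x5670984312 (.cons 0x7560984321 (.cons 0x5760984321 .nil))) (.node 0 3 (.cons 0x4567981230 (.cons 0x9843065721 .nil)) (.node 5 9 (.cons 0x6034895721 (.cons 0x4306759812 .nil)) .done .done) .done) .done) .done)) .done)) (.node 2 8 (.cons 0x3456709821 .nil) (.node 5 7 (.cons 0x6570982134 .nil) (.node 2 5 (.cons 0x8907652134 .nil) (.node 2 6 (.cons 0x9817623450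 .nil) (.node 0 2 (.cons 0x9812076543 .nil) (.node 0 8 (.cons 0x9805432671 .nil) .done .done) .done) .done) .done) (.node 5 7 .nil (.node 0 4 (.cons 0x5678904321 (.cons 0x6578904321 (.cons 0x9812340675 .nil))) (.node 0 2 (.cons 0x9812076543 .nil) (.node 7 9 (.cons 0x4320657981 .nil) .done .done) .done) (.node 3 5 .nil (.node 4 8 (.cons 0x4890567231 (.cons 0x6531270984 (.cons 0x5348906712 (.cons 0x6710984532 .nil)))) .done (.node 4 7 (.cons 0x6532109874 .nil) (.node 7 9 (.cons 0x4356079812 .nil) .done .done) .done)) .done)) .done)) .done))) .done)) .done))) .done))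
noncomputable def tc9_0_46 : T := (.node 2 7 (.cons 0x3456721890 .nil) (.node 1 6 .nil (.node 0 5 (.cons 0x6721890543 (.cons 0x7890561234 (.cons 0x8905432761 .nil))) .done (.node 0 5 (.cons 0x6721890543 .nil) (.node 4 7 (.cons 0x6509874321 .nil) (.node 3 6 (.cons 0x5436721890 .nil) (.node 3 5 (.cons 0x6189053472 .nil) (.node 5 7 .nil (.node 4 9 (.cons 0x2763549810 (.cons 0x4987563210 (.cons 0x8945763210 (.cons 0x8943612750 .nil)))) .done (.node 2 5 (.cons 0x9816347250 .nil) (.node 5 8 (.cons 0x9850721634 .nil) .done .done) .done)) .done) (.node 5 7 (.cons 0x4361890572 .nil) (.node 2 5 (.cons 0x6189052743 .nil) (.node 3 5 (.cons 0x6189053472 .nil) .done .done) .done) .done)) .done) (.node 0 6 .nil (.node 0 8 (.cons 0x9806543217 (.cons 0x9806712345 .nil)) .done (.node 5 7 .nil (.node 0 4 (.cons 0x5678904321 (.cons 0x6578904321 (.cons 0x8904321675 .nil))) .done (.node 5 8 (.cons 0x9067218543 .nil) (.node 3 5 (.cons 0x4350981672 .nil) (.node 2 5 .nil (.node 0 3 (.cons 0x7654309812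 (.cons 0x9852167034 (.cons 0x7652189034 .nil))) .done .done) .done) (.node 4 7 (.cons 0x7432165890 .nil) (.node 7 9 (.cons 0x6097218543 .nil) .done .done) .done)) .done)) .done)) .done)) .done)) (.node 1 6 .nil (.node 0 5 (.cons 0x7890561234 .nil) (.node 2 9 (.cons 0x6509218734 (.cons 0x8129054376 (.cons 0x8129056734 .nil))) (.node 0 8 (.cons 0x9805432176 (.cons 0x1765432980 .nil)) (.node 0 4 (.cons 0x5678129043 (.cons 0x9804561723 .nil)) (.node 4 7 (.cons 0x9087432156 (.cons 0x6547108923 .nil)) .done .done) .done) .done) (.node 1 4 (.cons 0x7890561432 (.cons 0x5098761432 .nil)) .done .done)) (.node 1 3 (.cons 0x8907654312 .nil) (.node 3 6 (.cons 0x8907213654 .nil) (.node 2 6 .nil (.node 0 8 (.cons 0x9087651234 (.cons 0x9807126543 (.cons 0x9081267345 (.cons 0x9807134562 .nil)))) .done (.node 0 6 .nil (.node 4 8 (.cons 0x9845631270 (.cons 0x9845607213 (.cons 0x9065481273 (.cons 0x9067843215 (.cons 0x9065481372 .nil))))) .done (.node 1 4 (.cons 0x5609872314 .nil) (.node 1 9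 .nil (.node 0 8 (.cons 0x9087651234 (.cons 0x7198065432 (.cons 0x5436708912 .nil))) .done .done) .done) .done)) .done)) (.node 0 6 .nil (.node 4 8 (.cons 0x2709845631 (.cons 0x9845607213 (.cons 0x9065481273 (.cons 0x9067843215 (.cons 0x9065481372 .nil))))) .done (.node 2 6 .nil (.node 0 4 (.cons 0x5678904321 (.cons 0x9043781265 (.cons 0x7263189045 (.cons 0x7265409813 .nil)))) .done (.node 6 8 (.cons 0x7098654312 .nil) (.node 1 4 .nil (.node 0 5 (.cons 0x9870562134 (.cons 0x9870562143 (.cons 0x6509872314 .nil))) .done (.node 1 9 .nil (.node 0 4 (.cons 0x5678904321 (.cons 0x8917236540 (.cons 0x8765190432 .nil))) .done .done) .done)) .done) .done)) .done)) .done)) (.node 1 4 .nil (.node 0 8 (.cons 0x9087651234 (.cons 0x9087651432 .nil)) (.node 3 6 (.cons 0x9081273654 (.cons 0x9807214563 (.cons 0x9081456372 .nil))) .done (.node 0 5 (.cons 0x9805432176 (.cons 0x8905413276 .nil)) (.node 0 3 (.cons 0x7654309812 (.cons 0x8903276541 .nil)) (.node 5 8 (.cons 0x6709854312 (.cons 0x9856703412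 (.cons 0x6723145890 (.cons 0x7658903214 .nil)))) .done .done) .done) .done)) (.node 1 9 .nil (.node 4 8 (.cons 0x7654890123 (.cons 0x2348765190 .nil)) (.node 0 3 (.cons 0x7654309812 (.cons 0x6548912703 (.cons 0x5670348912 (.cons 0x1984567230 .nil)))) .done (.node 0 4 (.cons 0x5678904321 (.cons 0x8765190432 .nil)) (.node 0 6 (.cons 0x9067843215 (.cons 0x5190678432 .nil)) .done .done) .done)) .done) .done)) .done)) .done)) .done)) (.node 4 7 (.cons 0x6512347890 .nil) (.node 2 7 (.cons 0x3456721890 .nil) (.node 3 5 (.cons 0x8901235476 .nil) (.node 3 6 (.cons 0x8901236745 .nil) (.node 1 3 (.cons 0x8907654312 .nil) (.node 1 6 .nil (.node 5 8 (.cons 0x6709854312 (.cons 0x4723615890 (.cons 0x3216745890 .nil))) .done (.node 0 6 (.cons 0x7890651234 .nil) (.node 1 4 (.cons 0x7890651432 .nil) .done .done) .done)) .done) (.node 2 5 (.cons 0x6325109874 .nil) (.node 1 4 (.cons 0x4156327890 .nil) (.node 0 5 .nil (.node 2 9 (.cons 0x6347815290 (.cons 0x7814365092 (.cons 0x2981763450 (.cons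 0x4763501892 .nil)))) .done (.node 0 4 (.cons 0x5678904321 .nil) (.node 5 7 (.cons 0x6578904321 .nil) .done .done) .done)) .done) .done) .done)) (.node 1 4 (.cons 0x4109876532 .nil) (.node 1 6 (.cons 0x8901674532 .nil) (.node 5 7 .nil (.node 0 5 (.cons 0x8905743216 .nil) (.node 0 6 (.cons 0x7890651234 (.cons 0x8906157432 .nil)) .done .done) .done) .done) .done) .done)) .done) (.node 1 3 (.cons 0x8907654312 .nil) (.node 2 7 (.cons 0x3456721890 .nil) (.node 0 5 (.cons 0x6721890543 .nil) (.node 1 9 (.cons 0x8765091234 .nil) (.node 1 6 .nil (.node 2 8 (.cons 0x3456709821 (.cons 0x7456109823 (.cons 0x5476132890 .nil))) (.node 3 8 (.cons 0x9054381276 (.cons 0x7098345612 (.cons 0x6154389072 .nil))) .done .done) (.node 1 4 .nil (.node 0 6 (.cons 0x2347890651 (.cons 0x7890651432 .nil)) (.node 2 5 (.cons 0x6098152743 (.cons 0x8906741325 .nil)) (.node 0 3 (.cons 0x7654309812 (.cons 0x9870341256 (.cons 0x8914307652 .nil))) .done .done) .done) .done) .done)) .done) (.node 1 9 .nil (.node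 1 4 (.cons 0x8765091432 .nil) .done (.node 1 6 (.cons 0x8905432761 .nil) (.node 1 4 .nil (.node 0 6 (.cons 0x2347890651 .nil) (.node 3 5 (.cons 0x6098153472 (.cons 0x9814350672 .nil)) .done .done) .done) .done) .done)) .done)) (.node 5 7 .nil (.node 4 8 (.cons 0x7654890123 (.cons 0x6754890123 .nil)) (.node 6 8 (.cons 0x5476890132 (.cons 0x4576890132 .nil)) (.node 5 8 (.cons 0x6709854312 .nil) (.node 1 4 (.cons 0x6723145890 .nil) (.node 0 4 (.cons 0x5678904321 (.cons 0x6578904321 .nil)) (.node 2 4 (.cons 0x6510987423 (.cons 0x6890754213 .nil)) .done .done) .done) .done) .done) (.node 0 6 (.cons 0x2347890651 (.cons 0x9065784321 (.cons 0x9843217560 (.cons 0x6098457231 .nil)))) .done .done)) .done) .done)) (.node 2 7 (.cons 0x3456721890 .nil) (.node 0 5 (.cons 0x6721890543 .nil) (.node 1 9 (.cons 0x8765091234 .nil) (.node 1 6 .nil (.node 3 8 (.cons 0x9054381276 (.cons 0x7098345612 (.cons 0x5438907612 (.cons 0x6154389072 .nil)))) (.node 6 8 (.cons 0x7234516890 (.cons 0x3274516890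 .nil)) .done .done) (.node 1 4 .nil (.node 5 8 (.cons 0x4765890132 (.cons 0x6785091432 (.cons 0x2314765890 .nil))) (.node 0 2 (.cons 0x5674318902 (.cons 0x9856741023 .nil)) (.node 2 8 (.cons 0x3456709821 (.cons 0x5674132890 .nil)) .done .done) .done) .done) .done)) .done) (.node 1 6 (.cons 0x8905432761 .nil) (.node 0 6 (.cons 0x2347890651 .nil) (.node 3 5 (.cons 0x6098153472 .nil) (.node 5 8 (.cons 0x4765890132 .nil) (.node 1 4 (.cons 0x2314765890 .nil) (.node 1 9 (.cons 0x2358914760 .nil) .done .done) .done) .done) .done) .done) .done)) (.node 5 7 .nil (.node 4 8 (.cons 0x6513274890 (.cons 0x6570984312 (.cons 0x6754890123 .nil))) (.node 2 8 (.cons 0x3456709821 (.cons 0x6570982134 .nil)) (.node 1 6 (.cons 0x5476109823 .nil) (.node 0 6 (.cons 0x9847231560 (.cons 0x6098234751 (.cons 0x9061578234 .nil))) .done .done) .done) .done) .done) .done)) .done)) .done)) .done))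
noncomputable def tc9_0_47 : T := (.node 1 5 (.cons 0x4321567890 .nil) (.node 0 8 (.cons 0x9087651234 .nil) (.node 0 5 (.cons 0x9805432176 .nil) (.node 4 7 (.cons 0x6509874321 .nil) (.node 1 4 .nil (.node 3 5 (.cons 0x8901235476 (.cons 0x4109876532 .nil)) (.node 2 6 (.cons 0x7098126543 (.cons 0x9870562143 (.cons 0x9807621435 (.cons 0x9807621453 .nil)))) (.node 5 9 (.cons 0x6712345980 (.cons 0x9534126780 (.cons 0x7814326590 (.cons 0x8095412376 .nil)))) .done .done) .done) (.node 1 6 (.cons 0x7890561234 .nil) (.node 2 7 (.cons 0x6509872143 .nil) (.node 2 5 (.cons 0x3412567890 .nil) (.node 2 8 (.cons 0x3456709821 .nil) .done .done) .done) .done) .done)) (.node 0 4 (.cons 0x5678904321 .nil) (.node 5 7 (.cons 0x9043218756 .nil) (.node 0 2 (.cons 0x9023478156 .nil) (.node 0 6 (.cons 0x9065187432 .nil) (.node 0 3 .nil (.node 1 4 (.cons 0x6574189023 (.cons 0x8903214576 (.cons 0x5678903412 .nil))) .done .done) .done) .done) .done) .done) .done)) (.node 5 7 .nil (.node 0 4 (.cons 0x5678904321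 (.cons 0x9043218756 (.cons 0x6578904321 .nil))) .done (.node 5 9 (.cons 0x6712345980 .nil) (.node 2 5 .nil (.node 3 6 (.cons 0x6345980712 (.cons 0x9807634521 (.cons 0x7098125634 (.cons 0x9801763254 .nil)))) .done (.node 3 5 .nil (.node 1 6 (.cons 0x9807612543 (.cons 0x9807612534 .nil)) (.node 2 8 (.cons 0x4378216590 (.cons 0x9082167354 .nil)) .done .done) .done) .done)) (.node 5 8 .nil (.node 1 3 (.cons 0x8907654312 (.cons 0x6709854312 .nil)) (.node 1 6 (.cons 0x8095437612 (.cons 0x9085437612 .nil)) .done .done) (.node 2 8 (.cons 0x6734590821 .nil) (.node 3 8 .nil (.node 2 4 (.cons 0x6780951243 (.cons 0x9542108376 (.cons 0x1243876590 (.cons 0x9078342156 (.cons 0x6783421590 .nil))))) .done (.node 4 8 (.cons 0x7654890123 .nil) (.node 6 8 (.cons 0x9073456812 .nil) .done .done) .done)) .done) .done)) .done)) .done)) .done)) (.node 1 4 (.cons 0x9087651432 .nil) (.node 1 3 (.cons 0x8907654312 .nil) (.node 1 9 (.cons 0x2345671980 .nil) (.node 1 6 .nil (.node 0 4 (.cons 0x5678904321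 (.cons 0x7890432165 .nil)) (.node 5 9 (.cons 0x8765904321 (.cons 0x9561780432 (.cons 0x7816590432 (.cons 0x8095416732 .nil)))) .done .done) .done) .done) .done) (.node 1 6 .nil (.node 0 5 (.cons 0x7890561234 .nil) (.node 2 9 (.cons 0x1765432980 (.cons 0x7165432980 (.cons 0x5167809234 (.cons 0x4329805671 (.cons 0x7329081654 .nil))))) .done .done) (.node 1 3 (.cons 0x8907654312 .nil) (.node 1 9 (.cons 0x2345671980 .nil) .done .done) .done)) .done)) .done)) (.node 1 3 (.cons 0x8907654312 .nil) (.node 1 9 .nil (.node 1 4 .nil (.node 3 8 (.cons 0x2198345670 (.cons 0x7654109832 .nil)) .done (.node 0 5 (.cons 0x8765091234 (.cons 0x8765091432 .nil)) (.node 0 8 (.cons 0x9805432176 (.cons 0x2345671980 .nil)) .done (.node 4 6 (.cons 0x9871234650 (.cons 0x7891234650 (.cons 0x8734650912 .nil))) (.node 0 4 (.cons 0x5678904321 .nil) (.node 4 7 (.cons 0x6509874321 .nil) .done .done) .done) .done)) .done)) (.node 1 6 .nil (.node 1 4 .nil (.node 3 8 (.cons 0x7654109832 (.cons 0x7098345612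 .nil)) (.node 2 9 (.cons 0x1298345670 (.cons 0x5438921670 (.cons 0x3892145670 .nil))) (.node 0 5 (.cons 0x9216507834 (.cons 0x7890561432 (.cons 0x6507892143 .nil))) .done .done) .done) (.node 0 4 (.cons 0x5678904321 (.cons 0x7890432165 .nil)) (.node 5 7 (.cons 0x8904576123 .nil) (.node 0 6 (.cons 0x9065781234 (.cons 0x7560981234 (.cons 0x9065781432 .nil))) .done (.node 2 8 (.cons 0x3456709821 (.cons 0x5761982340 (.cons 0x1675432890 (.cons 0x4576132890 .nil)))) .done .done)) (.node 0 8 (.cons 0x5671980432 .nil) (.node 2 5 (.cons 0x8917652340 (.cons 0x9807612543 (.cons 0x9043256187 (.cons 0x9871652340 (.cons 0x5231678904 .nil))))) .done .done) .done)) .done)) (.node 1 4 .nil (.node 3 8 (.cons 0x7654109832 .nil) (.node 2 7 (.cons 0x6721543890 .nil) (.node 0 4 (.cons 0x9043876512 (.cons 0x6512789043 (.cons 0x9043278165 .nil))) (.node 0 8 (.cons 0x9081654327 .nil) .done .done) (.node 3 9 (.cons 0x8390721654 (.cons 0x4561839072 .nil)) .done .done)) (.node 2 9 (.cons 0x1298345670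 (.cons 0x3892145670 .nil)) (.node 6 8 (.cons 0x3456892170 (.cons 0x5687341290 (.cons 0x5687329014 (.cons 0x9214568370 .nil)))) .done (.node 2 8 (.cons 0x3456709821 .nil) (.node 5 8 (.cons 0x6709854312 (.cons 0x5876143290 .nil)) .done .done) .done)) .done)) .done) .done)) .done)) (.node 1 6 .nil (.node 1 9 .nil (.node 0 5 (.cons 0x7890561234 (.cons 0x8765091234 .nil)) (.node 1 4 (.cons 0x5098761432 (.cons 0x8765091432 .nil)) .done .done) (.node 1 4 .nil (.node 3 8 (.cons 0x5438907612 (.cons 0x7654109832 .nil)) (.node 0 5 (.cons 0x6705438912 (.cons 0x7890561432 .nil)) (.node 0 2 (.cons 0x9834567021 (.cons 0x9834561207 (.cons 0x9834120765 .nil))) (.node 3 6 (.cons 0x5120987634 (.cons 0x5143678902 .nil)) .done .done) .done) .done) (.node 0 4 (.cons 0x5678904321 (.cons 0x7890432165 .nil)) (.node 5 7 (.cons 0x8904576123 .nil) (.node 0 6 (.cons 0x9065781234 (.cons 0x7560981234 (.cons 0x9065781432 .nil))) .done (.node 2 4 (.cons 0x3421567890 (.cons 0x8907561342 .nil)) (.node 2 8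 (.cons 0x3456709821 (.cons 0x1675432890 (.cons 0x3289045761 .nil))) .done .done) .done)) (.node 2 9 (.cons 0x6518734092 (.cons 0x5617892340 (.cons 0x5618732904 .nil))) (.node 0 5 (.cons 0x8923405671 (.cons 0x9871650432 .nil)) (.node 2 8 (.cons 0x3456709821 (.cons 0x9167823405 (.cons 0x8290437615 (.cons 0x8237619045 .nil)))) .done .done) .done) .done)) .done)) .done)) (.node 1 9 .nil (.node 0 8 (.cons 0x2345671980 .nil) (.node 2 9 (.cons 0x6512908734 (.cons 0x8092154376 (.cons 0x8092156734 .nil))) (.node 7 9 (.cons 0x8097612345 (.cons 0x7908165432 .nil)) .done .done) (.node 0 5 (.cons 0x9805432176 (.cons 0x8765091234 (.cons 0x6719805432 .nil))) (.node 4 6 (.cons 0x9871234650 (.cons 0x7891234650 (.cons 0x8734650912 .nil))) (.node 2 5 (.cons 0x7098134652 (.cons 0x6708912543 (.cons 0x5234678091 (.cons 0x3254671980 .nil)))) .done .done) .done) .done)) (.node 1 4 .nil (.node 2 9 (.cons 0x8129073456 .nil) (.node 0 8 (.cons 0x6512908734 (.cons 0x6514378092 .nil)) (.node 5 9 (.cons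 0x6712345980 (.cons 0x5908761432 (.cons 0x8095412376 .nil))) .done .done) (.node 0 8 (.cons 0x8092156734 (.cons 0x5671432980 .nil)) (.node 5 8 (.cons 0x6581290734 (.cons 0x3412985670 (.cons 0x6581437092 (.cons 0x9085412376 .nil)))) .done .done) (.node 3 6 (.cons 0x8129073654 (.cons 0x8145637092 .nil)) (.node 0 8 (.cons 0x5436708912 (.cons 0x5412980763 (.cons 0x8092376541 .nil))) .done .done) .done))) .done) .done)) .done)) .done)) .done)) (.node 1 3 (.cons 0x8907654312 .nil) (.node 5 7 (.cons 0x6754321890 .nil) (.node 1 5 (.cons 0x4321567890 .nil) (.node 0 8 (.cons 0x9087651234 .nil) (.node 4 7 (.cons 0x9087432156 .nil) (.node 2 7 (.cons 0x8907213456 .nil) (.node 7 9 (.cons 0x6543217980 .nil) .done .done) .done) (.node 1 4 (.cons 0x9087651432 .nil) (.node 1 6 (.cons 0x2345761890 .nil) (.node 1 9 (.cons 0x2345671980 .nil) .done .done) .done) .done)) (.node 4 7 .nil (.node 2 8 (.cons 0x3456709821 (.cons 0x6547098213 .nil)) (.node 0 6 (.cons 0x2345760981 (.cons 0x9823106574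 (.cons 0x9823106547 .nil))) (.node 0 2 (.cons 0x6754320981 (.cons 0x6512098743 (.cons 0x8902156743 .nil))) (.node 2 6 (.cons 0x6209875134 (.cons 0x8901326574 (.cons 0x8907456213 .nil))) .done .done) .done) (.node 3 6 (.cons 0x5436709812 (.cons 0x9821074563 (.cons 0x7436512890 (.cons 0x9823654710 .nil)))) .done .done)) (.node 3 5 (.cons 0x8901235476 .nil) (.node 2 7 (.cons 0x8907213456 .nil) (.node 7 9 .nil (.node 2 8 (.cons 0x3456709821 (.cons 0x6543128970 .nil)) (.node 0 6 (.cons 0x2345760981 (.cons 0x6097543281 (.cons 0x4356079821 (.cons 0x1798234560 .nil)))) .done .done) .done) .done) .done) .done)) .done)) (.node 2 7 (.cons 0x8907213456 .nil) (.node 1 5 (.cons 0x4321567890 .nil) (.node 7 9 .nil (.node 0 8 (.cons 0x9087651234 (.cons 0x6543217980 (.cons 0x6790815432 .nil))) .done (.node 4 7 .nil (.node 0 8 (.cons 0x6790815432 (.cons 0x9087432156 .nil)) (.node 2 9 (.cons 0x1765432980 (.cons 0x6547108923 (.cons 0x8092347651 (.cons 0x6547132980 .nil)))) .done .done) .done)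 .done)) (.node 3 8 (.cons 0x6721543890 .nil) (.node 7 9 (.cons 0x4567983210 .nil) (.node 4 7 .nil (.node 0 2 (.cons 0x4567983201 (.cons 0x6547983201 (.cons 0x9834765120 .nil))) (.node 2 6 (.cons 0x8790265134 (.cons 0x8974562310 (.cons 0x8907431265 (.cons 0x9831265470 .nil)))) .done .done) .done) .done) (.node 1 4 (.cons 0x7654109832 .nil) (.node 1 6 (.cons 0x2761543890 .nil) (.node 1 9 .nil (.node 2 4 (.cons 0x9832456710 (.cons 0x7654238910 (.cons 0x6578324190 .nil))) .done .done) .done) .done) .done)) .done)) .done) .done)) (.node 3 6 (.cons 0x5436709812 .nil) (.node 5 7 (.cons 0x6754321890 .nil) (.node 4 7 .nil (.node 3 5 (.cons 0x6532109874 .nil) (.node 0 5 (.cons 0x6509874321 .nil) (.node 1 5 (.cons 0x6512347890 .nil) (.node 0 2 (.cons 0x6754320981 (.cons 0x9874365120 (.cons 0x6789021534 (.cons 0x8902156743 .nil)))) .done .done) .done) .done) (.node 3 5 (.cons 0x8901235476 .nil) (.node 2 7 .nil (.node 1 6 (.cons 0x2345761890 (.cons 0x4356127890 .nil)) (.node 4 9 (.cons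 0x2367549810 (.cons 0x6327549810 (.cons 0x8721653490 (.cons 0x6354981072 .nil)))) .done .done) (.node 7 9 .nil (.node 0 5 (.cons 0x8123450976 .nil) (.node 4 6 (.cons 0x8907213564 (.cons 0x8790123564 (.cons 0x9874635012 (.cons 0x3276450981 .nil)))) .done .done) .done) .done)) .done) .done)) (.node 2 7 .nil (.node 3 8 (.cons 0x6543890721 (.cons 0x4567238901 .nil)) (.node 4 9 (.cons 0x5498367012 (.cons 0x8376549012 (.cons 0x2389456710 .nil))) (.node 0 3 (.cons 0x6307549812 (.cons 0x8945671032 .nil)) (.node 1 5 (.cons 0x4321567890 (.cons 0x8765123490 (.cons 0x2156349870 (.cons 0x8903451276 .nil)))) .done .done) (.node 0 6 (.cons 0x7549812360 (.cons 0x4906578321 (.cons 0x4983217560 (.cons 0x1894572360 .nil)))) .done .done)) .done) (.node 4 7 .nil (.node 5 9 (.cons 0x2189543670 (.cons 0x4789563210 (.cons 0x2367459810 .nil))) (.node 0 8 (.cons 0x1276345980 (.cons 0x9801236547 .nil)) (.node 2 5 (.cons 0x9812543670 (.cons 0x9801325674 (.cons 0x6743180952 (.cons 0x6310895274 .nil))))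 .done .done) .done) (.node 7 9 .nil (.node 0 5 (.cons 0x9810547632 (.cons 0x8123450976 (.cons 0x6345079812 (.cons 0x4501897632 .nil)))) .done .done) .done)) .done)) .done)) (.node 5 7 (.cons 0x6754321890 .nil) (.node 4 7 .nil (.node 0 5 (.cons 0x6509874321 .nil) (.node 4 8 (.cons 0x6574890132 (.cons 0x7650984312 (.cons 0x5674890132 .nil))) (.node 2 4 (.cons 0x5632478901 (.cons 0x9842310576 .nil)) (.node 6 8 (.cons 0x9018675423 (.cons 0x9054376812 (.cons 0x9057681324 .nil))) .done .done) .done) (.node 1 5 (.cons 0x4321567890 (.cons 0x6512347890 .nil)) (.node 1 9 (.cons 0x8765091234 (.cons 0x8743219056 .nil)) .done .done) .done)) (.node 2 7 .nil (.node 1 5 (.cons 0x4321567890 (.cons 0x6345189072 (.cons 0x2763451890 .nil))) (.node 0 8 (.cons 0x9087651234 (.cons 0x9801723654 (.cons 0x9081543276 .nil))) .done .done) (.node 7 9 .nil (.node 2 8 (.cons 0x5476328901 (.cons 0x4563289710 .nil)) (.node 0 4 (.cons 0x5678904321 (.cons 0x9763281045 (.cons 0x7982365401 (.cons 0x3289765401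 .nil)))) .done .done) .done) .done)) .done)) (.node 2 7 .nil (.node 1 5 (.cons 0x4321567890 (.cons 0x6345189072 (.cons 0x2763451890 .nil))) (.node 0 8 (.cons 0x9087651234 (.cons 0x9801723654 (.cons 0x9081543276 .nil))) .done .done) (.node 4 7 .nil (.node 2 5 (.cons 0x2543670981 (.cons 0x8907431256 .nil)) (.node 0 8 (.cons 0x9807652134 (.cons 0x9801745632 (.cons 0x9801325674 .nil))) .done (.node 1 5 (.cons 0x4321567890 (.cons 0x6512347890 .nil)) (.node 0 2 (.cons 0x8902763451 (.cons 0x2098743651 (.cons 0x8902156743 .nil))) .done .done) .done)) (.node 7 9 .nil (.node 2 4 (.cons 0x8901324765 (.cons 0x5423679810 (.cons 0x8109763245 .nil))) (.node 2 5 (.cons 0x2543670981 (.cons 0x4523679810 (.cons 0x8109763254 .nil))) .done .done) .done) .done)) .done)) .done)) .done)) .done)) (.node 1 5 (.cons 0x4321567890 .nil) tc9_0_46 .done)))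
noncomputable def tc9_0_48 : T := (.node 2 7 (.cons 0x6543890721 .nil) (.node 0 4 (.cons 0x5678904321 (.cons 0x9832765401 .nil)) (.node 1 9 (.cons 0x6543891270 (.cons 0x5678340912 .nil)) (.node 0 5 (.cons 0x6509871234 (.cons 0x6723891054 .nil)) (.node 6 8 (.cons 0x7689123450 (.cons 0x8673450912 (.cons 0x1986723450 (.cons 0x8673219054 .nil)))) .done .done) (.node 5 8 (.cons 0x9127043856 (.cons 0x9127658340 (.cons 0x8567190432 (.cons 0x7658321904 .nil)))) (.node 4 7 (.cons 0x9104765832 .nil) (.node 0 5 (.cons 0x6743219850 (.cons 0x6509871234 .nil)) (.node 2 4 (.cons 0x3421985670 (.cons 0x6507243891 .nil)) .done .done) .done) .done) .done)) (.node 6 9 (.cons 0x5698340721 (.cons 0x7210456983 (.cons 0x7238965401 (.cons 0x3896540721 .nil)))) (.node 1 8 (.cons 0x3456981270 (.cons 0x5690437812 .nil)) (.node 4 9 (.cons 0x3894567210 (.cons 0x5694018732 .nil)) (.node 7 9 (.cons 0x8104569732 (.cons 0x8123796540 .nil)) .done .done) (.node 5 7 (.cons 0x6981045723 (.cons 0x8123754096 .nil))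 .done .done)) .done) (.node 5 7 (.cons 0x6754098321 .nil) (.node 4 7 .nil (.node 0 5 (.cons 0x6509871234 (.cons 0x6509874321 .nil)) (.node 1 9 (.cons 0x6543891270 (.cons 0x8347650912 (.cons 0x8321905476 .nil))) .done .done) .done) .done) .done))) (.node 7 9 (.cons 0x4567983210 .nil) (.node 4 7 .nil (.node 4 6 (.cons 0x5467210983 (.cons 0x5467238901 (.cons 0x5647890123 (.cons 0x9012387465 .nil)))) (.node 0 5 (.cons 0x9871234650 (.cons 0x9832764501 (.cons 0x6509874321 .nil))) (.node 1 9 (.cons 0x4650197832 (.cons 0x8347650912 (.cons 0x8321905476 .nil))) .done .done) .done) (.node 2 4 (.cons 0x8324567901 .nil) (.node 4 6 (.cons 0x5467210983 (.cons 0x5467238901 .nil)) (.node 1 8 (.cons 0x3245679810 (.cons 0x8109732456 (.cons 0x5467901832 .nil))) (.node 0 2 (.cons 0x2097654381 (.cons 0x6547983201 .nil)) (.node 2 9 (.cons 0x5643870921 (.cons 0x4567381290 .nil)) .done .done) .done) .done) (.node 1 6 (.cons 0x7983245610 (.cons 0x5610978324 (.cons 0x7098342165 (.cons 0x8379016542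 .nil)))) .done .done)) .done)) (.node 4 6 (.cons 0x5467210983 (.cons 0x5467238901 .nil)) (.node 4 9 (.cons 0x8732109465 (.cons 0x8376549012 .nil)) (.node 5 7 (.cons 0x6754983210 .nil) (.node 3 5 (.cons 0x7890123564 .nil) (.node 0 8 (.cons 0x1235467980 (.cons 0x6710894532 .nil)) (.node 1 6 (.cons 0x2389457610 (.cons 0x5321649780 (.cons 0x9807216435 (.cons 0x3546127980 .nil)))) .done .done) .done) .done) (.node 1 5 (.cons 0x6723894510 (.cons 0x4901567832 (.cons 0x6721543890 .nil))) (.node 2 8 (.cons 0x3289456710 (.cons 0x8237109456 .nil)) (.node 2 6 (.cons 0x6270154983 (.cons 0x8715623490 (.cons 0x4907382651 .nil))) .done .done) .done) .done)) (.node 0 5 (.cons 0x9871234650 (.cons 0x9832764501 .nil)) (.node 3 9 (.cons 0x7893210564 (.cons 0x5012398764 (.cons 0x8932764501 .nil))) (.node 1 8 (.cons 0x7056439812 (.cons 0x3218976450 (.cons 0x6721890543 .nil))) (.node 4 7 (.cons 0x4765018932 .nil) .done .done) .done) (.node 1 4 (.cons 0x8321456790 (.cons 0x9783214650 (.cons 0x8321450976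 (.cons 0x9056783412 .nil)))) .done .done)) (.node 0 8 (.cons 0x9087123465 (.cons 0x5467908321 .nil)) (.node 0 4 (.cons 0x5678904321 (.cons 0x5640978321 .nil)) (.node 1 5 (.cons 0x6798321540 (.cons 0x8321540976 (.cons 0x4651238790 (.cons 0x6721543890 .nil)))) .done .done) .done) .done))) .done)) (.node 7 9 (.cons 0x4567983210 .nil) (.node 2 8 (.cons 0x3456709821 .nil) (.node 4 9 (.cons 0x9456738210 (.cons 0x3289456710 .nil)) (.node 0 3 (.cons 0x9821703456 (.cons 0x5670349821 (.cons 0x7654982301 .nil))) (.node 5 8 (.cons 0x6587321094 (.cons 0x9458210376 (.cons 0x6712309854 .nil))) (.node 0 8 (.cons 0x7654980123 .nil) (.node 1 6 (.cons 0x6108549732 (.cons 0x3285497610 (.cons 0x9437082165 (.cons 0x8094561273 .nil)))) .done .done) .done) .done) (.node 0 6 (.cons 0x8712349065 (.cons 0x5607128943 (.cons 0x7106549823 .nil))) (.node 0 5 (.cons 0x8712349056 (.cons 0x6509871234 .nil)) (.node 5 7 (.cons 0x1234987560 .nil) .done .done) .done) .done)) (.node 4 7 (.cons 0x6547109823 .nil)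 (.node 6 9 (.cons 0x9654738210 (.cons 0x3289654710 (.cons 0x4569073821 .nil))) (.node 0 8 (.cons 0x5476980123 (.cons 0x9654732801 .nil)) .done (.node 0 5 (.cons 0x3470569821 (.cons 0x9650743821 (.cons 0x6509871234 (.cons 0x1743289650 .nil)))) .done .done)) .done) (.node 4 6 (.cons 0x5467983210 (.cons 0x8321097645 (.cons 0x9012837645 (.cons 0x5467109823 .nil)))) (.node 3 5 (.cons 0x8976453210 (.cons 0x7890123564 (.cons 0x7645328901 .nil))) .done .done) .done))) (.node 5 7 .nil (.node 4 9 (.cons 0x8376549012 (.cons 0x6754983210 (.cons 0x6578321094 .nil))) (.node 0 6 (.cons 0x5609871234 (.cons 0x8906754321 (.cons 0x8756094321 (.cons 0x8906571234 .nil)))) (.node 0 8 (.cons 0x7654980123 (.cons 0x6754980123 (.cons 0x6578094321 .nil))) .done .done) .done) (.node 4 9 (.cons 0x6754983210 (.cons 0x8376549012 .nil)) (.node 0 8 (.cons 0x6754980123 .nil) (.node 1 6 (.cons 0x2345617980 (.cons 0x9432165780 (.cons 0x7561234980 (.cons 0x8094561273 .nil)))) .done (.node 0 4 (.cons 0x6578940123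 (.cons 0x9832104576 .nil)) (.node 1 5 (.cons 0x8765123490 (.cons 0x9043876512 .nil)) (.node 4 6 (.cons 0x9465108732 (.cons 0x9046512783 (.cons 0x2346517890 .nil))) .done .done) .done) .done)) (.node 0 4 (.cons 0x5678904321 (.cons 0x9401238756 (.cons 0x9832104576 .nil))) (.node 0 6 (.cons 0x1234987560 (.cons 0x8712349065 (.cons 0x8943217560 .nil))) .done .done) .done)) .done)) .done)) .done))) (.node 4 9 (.cons 0x7654983210 (.cons 0x2389456710 .nil)) (.node 0 6 (.cons 0x8712349065 (.cons 0x7106549832 .nil)) (.node 1 5 (.cons 0x7894321560 (.cons 0x9438706512 (.cons 0x7890651234 (.cons 0x8734906512 .nil)))) .done (.node 5 7 (.cons 0x8943217560 (.cons 0x4983217560 .nil)) (.node 0 5 (.cons 0x8712349056 (.cons 0x6509871234 .nil)) (.node 1 6 (.cons 0x7894321650 (.cons 0x9438705612 (.cons 0x8734905612 .nil))) .done .done) .done) .done)) (.node 0 5 (.cons 0x6509871234 (.cons 0x6710549832 .nil)) (.node 3 6 (.cons 0x5498367012 .nil) (.node 2 5 (.cons 0x8943670521 (.cons 0x8907125634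 (.cons 0x4983670521 .nil))) (.node 1 6 (.cons 0x8761234905 (.cons 0x9438761250 .nil)) (.node 3 9 (.cons 0x8394521076 (.cons 0x4398705612 (.cons 0x8761052394 .nil))) .done .done) .done) (.node 3 5 .nil (.node 1 6 (.cons 0x8761234905 (.cons 0x8943507612 (.cons 0x2167894350 .nil))) .done (.node 6 8 (.cons 0x8673210945 .nil) (.node 2 8 (.cons 0x3456709821 (.cons 0x5490173682 (.cons 0x9054376821 (.cons 0x6821735490 .nil)))) .done (.node 1 4 (.cons 0x5014987632 (.cons 0x9056873214 (.cons 0x6873509412 .nil))) (.node 2 8 (.cons 0x3456709821 (.cons 0x7109823654 (.cons 0x9071453682 .nil))) .done .done) .done)) .done)) .done)) (.node 0 4 (.cons 0x5678904321 .nil) (.node 6 9 (.cons 0x5012387694 (.cons 0x5698340712 (.cons 0x9650438712 (.cons 0x7104569832 (.cons 0x7123896540 .nil))))) .done (.node 0 6 (.cons 0x7601238945 .nil) (.node 2 5 (.cons 0x6701254983 (.cons 0x6523409871 (.cons 0x5238940671 .nil))) (.node 3 6 (.cons 0x5236789401 (.cons 0x8945236710 .nil)) .done .done) .done) .done))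 .done)) (.node 4 8 (.cons 0x7654890123 .nil) (.node 3 6 (.cons 0x5637849012 (.cons 0x5634890712 (.cons 0x7109845632 .nil))) .done (.node 3 6 (.cons 0x7632109845 (.cons 0x5489017632 .nil)) (.node 0 8 (.cons 0x9456738012 .nil) (.node 2 6 (.cons 0x9456210837 (.cons 0x9807126543 (.cons 0x5621780943 (.cons 0x9456217380 .nil)))) .done (.node 0 5 (.cons 0x6509871234 .nil) (.node 1 5 (.cons 0x9843670512 (.cons 0x9051234876 (.cons 0x7634890512 .nil))) (.node 2 6 (.cons 0x7098436215 (.cons 0x9843621507 (.cons 0x3490871562 (.cons 0x6215094873 .nil)))) .done .done) (.node 6 9 (.cons 0x5096784321 (.cons 0x9671054832 (.cons 0x9671238450 .nil))) .done .done)) .done)) .done) (.node 0 8 (.cons 0x9456738012 .nil) (.node 2 6 (.cons 0x9456210837 (.cons 0x9807126543 (.cons 0x5621780943 (.cons 0x8094371265 (.cons 0x9456217380 .nil))))) .done (.node 2 8 (.cons 0x9456738210 (.cons 0x9017328456 .nil)) (.node 0 4 (.cons 0x5678904321 .nil) (.node 1 9 (.cons 0x6548237190 (.cons 0x5671904823 .nil)) (.node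 2 9 (.cons 0x8376549210 (.cons 0x6543892170 (.cons 0x9238401765 .nil))) .done .done) (.node 6 9 (.cons 0x9654073821 (.cons 0x5690482371 (.cons 0x7104569832 (.cons 0x7123896540 .nil)))) .done .done)) .done) .done)) .done))) .done))) (.node 2 8 (.cons 0x3456709821 .nil) (.node 0 3 (.cons 0x9821703456 (.cons 0x9823017654 .nil)) (.node 1 8 (.cons 0x7654309812 .nil) (.node 1 5 (.cons 0x4309876512 .nil) (.node 2 9 (.cons 0x8129073456 (.cons 0x6512987034 (.cons 0x8921543076 (.cons 0x8921567034 (.cons 0x6703892154 .nil))))) .done (.node 0 5 (.cons 0x6509871234 .nil) (.node 0 8 (.cons 0x9087651234 .nil) .done .done) .done)) .done) (.node 3 9 (.cons 0x1289345670 (.cons 0x6543982170 .nil)) (.node 4 9 (.cons 0x5670349821 (.cons 0x5671289430 .nil)) (.node 0 6 (.cons 0x5601782394 (.cons 0x7106549823 .nil)) (.node 1 3 (.cons 0x5607894312 (.cons 0x9821345607 .nil)) .done .done) (.node 0 5 (.cons 0x8239450176 (.cons 0x6509871234 (.cons 0x6710549823 .nil))) (.node 1 6 (.cons 0x9834507612 (.cons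 0x5016782394 (.cons 0x5076128943 (.cons 0x7612894305 .nil)))) .done .done) .done)) .done) .done)) (.node 4 8 (.cons 0x7654890123 (.cons 0x9017328456 .nil)) (.node 1 8 (.cons 0x7654321890 .nil) (.node 6 8 (.cons 0x9073456821 (.cons 0x9017328654 .nil)) (.node 6 9 (.cons 0x9654821073 (.cons 0x8217345690 (.cons 0x9654823710 .nil))) (.node 0 5 (.cons 0x9650734821 (.cons 0x9650712843 (.cons 0x7123489650 (.cons 0x9650173284 .nil)))) .done .done) .done) .done) (.node 6 9 (.cons 0x5483769012 (.cons 0x8217345690 (.cons 0x3710965482 (.cons 0x3712845690 .nil)))) (.node 3 6 (.cons 0x9012845637 (.cons 0x9017365482 .nil)) (.node 6 8 (.cons 0x9073456821 (.cons 0x9017328654 .nil)) (.node 2 6 (.cons 0x5438907621 .nil) (.node 3 9 (.cons 0x8456739012 (.cons 0x5621784390 (.cons 0x8265439071 .nil))) .done .done) .done) .done) .done) .done)) (.node 0 5 (.cons 0x6509871234 .nil) (.node 4 6 (.cons 0x9832105467 (.cons 0x9054673821 (.cons 0x5467109832 .nil))) (.node 3 5 (.cons 0x9835467012 (.cons 0x7890123564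 .nil)) (.node 5 9 (.cons 0x6459073821 (.cons 0x1283764590 .nil)) (.node 1 8 (.cons 0x6459073812 (.cons 0x2183764590 .nil)) (.node 0 8 (.cons 0x4659087321 .nil) (.node 1 4 (.cons 0x6714590832 (.cons 0x8732146590 (.cons 0x6714532890 (.cons 0x9054128376 .nil)))) .done .done) .done) .done) .done) (.node 5 9 (.cons 0x8712346590 (.cons 0x3821764590 (.cons 0x8321764590 .nil))) (.node 1 4 (.cons 0x9501467832 (.cons 0x3287146590 (.cons 0x9054128376 .nil))) (.node 0 6 (.cons 0x5417609823 .nil) (.node 2 6 (.cons 0x5438907621 (.cons 0x4598326710 .nil)) .done .done) .done) .done) .done)) (.node 2 5 (.cons 0x6709834521 .nil) (.node 6 9 (.cons 0x1254389670 (.cons 0x8345096712 (.cons 0x4523896710 (.cons 0x8321769054 .nil)))) (.node 0 4 (.cons 0x5678904321 (.cons 0x8965217043 (.cons 0x3289045671 .nil))) (.node 4 9 (.cons 0x8765094321 (.cons 0x8712349056 (.cons 0x8349671250 (.cons 0x8325017694 .nil)))) .done .done) .done) (.node 0 6 (.cons 0x4325609871 .nil) (.node 1 5 (.cons 0x7609834512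 .nil) (.node 4 9 (.cons 0x8765094321 (.cons 0x7894321560 (.cons 0x5123498760 (.cons 0x9451283760 (.cons 0x7601549832 .nil))))) .done .done) (.node 6 9 (.cons 0x8345096712 (.cons 0x8321769054 .nil)) (.node 1 5 (.cons 0x2154389670 (.cons 0x4512837690 .nil)) .done (.node 1 6 (.cons 0x2543896170 (.cons 0x4528371690 .nil)) (.node 4 6 (.cons 0x9078346125 (.cons 0x9834607125 (.cons 0x1738254690 .nil))) .done .done) .done)) .done)) .done)) (.node 2 6 (.cons 0x5438907621 (.cons 0x9832671054 .nil)) (.node 0 6 (.cons 0x5609871234 .nil) (.node 5 7 (.cons 0x9832106754 (.cons 0x4576098321 .nil)) .done (.node 4 8 (.cons 0x7654890123 (.cons 0x9056234871 (.cons 0x9017623845 .nil))) (.node 1 9 (.cons 0x9178432650 (.cons 0x5067198432 (.cons 0x2348917650 (.cons 0x8345091762 .nil)))) .done (.node 0 3 (.cons 0x9037654821 (.cons 0x9034871265 .nil)) .done .done)) .done)) (.node 0 6 (.cons 0x5609871234 .nil) (.node 5 7 (.cons 0x9832106754 (.cons 0x4576098321 .nil)) .done (.node 5 9 (.cons 0x8345906712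 (.cons 0x8321760954 .nil)) (.node 1 4 (.cons 0x5983412670 (.cons 0x6709541283 (.cons 0x6509871432 (.cons 0x6714509823 (.cons 0x6738214590 .nil))))) .done (.node 4 6 (.cons 0x6459073821 (.cons 0x5983462170 (.cons 0x5906438712 (.cons 0x5467109832 .nil)))) .done .done)) .done)) .done)) .done))) .done))) .done)))
noncomputable def uc9_0_7 : T := (.node 3 8 (.cons 0x6543890712 (.cons 0x4567109832 .nil)) tc9_0_48 (.node 1 8 (.cons 0x7654321890 .nil) tc9_0_47 (.node 1 8 (.cons 0x7654321890 .nil) (.node 1 3 (.cons 0x8907654312 .nil) tc9_0_45 (.node 1 3 (.cons 0x8907654312 .nil) (.node 0 8 (.cons 0x9807654312 .nil) (.node 2 8 (.cons 0x9821345670 .nil) (.node 4 8 (.cons 0x7654890123 .nil) (.node 6 8 (.cons 0x5432176890 .nil) (.node 5 8 (.cons 0x6712345890 .nil) (.node 1 4 (.cons 0x9085412376 .nil) (.node 3 8 .nil (.node 5 9 (.cons 0x6708954312 (.cons 0x6590783412 (.cons 0x2143876590 (.cons 0x4109567832 .nil)))) .done .done) .done) .done) (.node 5 8 (.cons 0x6712345890 .nil) (.node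 3 5 (.cons 0x4532176890 .nil) (.node 3 8 .nil (.node 1 4 (.cons 0x9086732145 .nil) (.node 2 9 (.cons 0x8921345670 (.cons 0x4568370921 (.cons 0x5412907683 (.cons 0x2907658341 (.cons 0x6714583290 .nil))))) .done .done) .done) .done) .done) .done)) (.node 2 7 (.cons 0x9845672310 .nil) (.node 7 9 (.cons 0x6548109732 .nil) (.node 3 8 .nil (.node 0 4 (.cons 0x3289765401 (.cons 0x6540972381 (.cons 0x9831270456 .nil))) .done .done) .done) .done) .done)) (.node 3 8 .nil (.node 4 9 (.cons 0x3128945670 (.cons 0x6549073821 (.cons 0x1283765490 .nil))) (.node 1 5 (.cons 0x4321567890 (.cons 0x6709451283 (.cons 0x6738215490 .nil))) .done (.node 2 6 (.cons 0x9456281370 (.cons 0x5498326710 (.cons 0x8326710945 .nil))) (.node 1 4 (.cons 0x5628149073 (.cons 0x9076541283 .nil)) (.node 0 5 (.cons 0x6713289450 (.cons 0x9056783412 (.cons 0x7382650941 (.cons 0x5098341762 .nil)))) .done .done) .done) .done)) (.node 2 7 (.cons 0x4567238901 .nil) (.node 3 6 .nil (.node 2 5 (.cons 0x6710983254 (.cons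 0x9078125634 (.cons 0x8907125436 .nil))) .done (.node 2 6 (.cons 0x7098126543 .nil) (.node 0 3 (.cons 0x9821307654 .nil) (.node 3 5 (.cons 0x9078126534 .nil) .done .done) .done) .done)) .done) .done)) .done)) (.node 2 7 (.cons 0x9801327654 .nil) (.node 0 6 (.cons 0x9812706543 .nil) (.node 0 5 (.cons 0x8905432176 .nil) (.node 4 7 (.cons 0x6509874321 .nil) (.node 5 7 (.cons 0x9065781234 .nil) (.node 7 9 (.cons 0x9723456081 .nil) .done .done) .done) .done) (.node 4 7 (.cons 0x7432189065 .nil) (.node 5 7 (.cons 0x2347560981 .nil) (.node 7 9 (.cons 0x4567980132 .nil) .done .done) .done) .done)) (.node 7 9 (.cons 0x4567980132 .nil) (.node 4 7 .nil (.node 2 6 (.cons 0x2654318970 (.cons 0x3265479810 (.cons 0x8109745623 (.cons 0x5621890743 .nil)))) .done (.node 5 7 .nil (.node 0 6 (.cons 0x8906712345 (.cons 0x9065781234 (.cons 0x9812347560 .nil))) .done .done) .done)) .done) .done)) .done)) (.node 1 9 .nil (.node 0 5 (.cons 0x8905432176 (.cons 0x8765091234 .nil)) (.node 4 6 (.cons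 0x7890564321 (.cons 0x7891234650 (.cons 0x8734650912 .nil))) (.node 3 6 (.cons 0x4365078912 .nil) (.node 1 4 (.cons 0x9870563412 (.cons 0x7890563412 .nil)) .done (.node 2 8 (.cons 0x3456709821 (.cons 0x6345071982 (.cons 0x4563709182 .nil))) (.node 2 5 (.cons 0x9078125643 (.cons 0x1982543670 (.cons 0x8254367091 (.cons 0x7091825463 .nil)))) .done .done) .done)) (.node 2 5 (.cons 0x6432509871 (.cons 0x8719052346 (.cons 0x4652378190 .nil))) (.node 0 8 (.cons 0x9801764523 (.cons 0x6708912543 (.cons 0x4319807652 .nil))) .done .done) .done)) (.node 1 4 (.cons 0x2341987650 (.cons 0x8765091432 .nil)) (.node 2 8 (.cons 0x3456709821 (.cons 0x6719823450 .nil)) (.node 1 6 (.cons 0x7619823450 (.cons 0x5091678234 .nil)) .done (.node 0 8 (.cons 0x9082145673 .nil) (.node 3 6 (.cons 0x4509823671 (.cons 0x5436708912 (.cons 0x4563709182 .nil))) .done .done) .done)) .done) .done)) (.node 1 5 (.cons 0x4321567890 .nil) (.node 1 4 .nil (.node 3 5 (.cons 0x4109876532 .nil) (.node 3 8 (.cons 0x7654109832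 .nil) (.node 7 9 (.cons 0x4567983210 (.cons 0x2389765410 .nil)) (.node 3 6 (.cons 0x2145638970 .nil) (.node 2 8 (.cons 0x3456709821 (.cons 0x7632890145 (.cons 0x5417632890 .nil))) .done .done) .done) (.node 5 7 (.cons 0x6754109832 (.cons 0x6754123890 .nil)) .done .done)) (.node 2 5 (.cons 0x8907652134 .nil) (.node 0 5 (.cons 0x8905432176 .nil) (.node 0 3 (.cons 0x8765219034 .nil) (.node 2 8 (.cons 0x3456709821 (.cons 0x9143052876 (.cons 0x6782509143 (.cons 0x6714509823 .nil)))) .done .done) .done) (.node 0 6 (.cons 0x8906712345 (.cons 0x8906714523 .nil)) (.node 5 7 (.cons 0x9065781234 (.cons 0x9065781432 .nil)) .done (.node 5 7 (.cons 0x7560981234 (.cons 0x7560981432 .nil)) .done .done)) .done)) .done)) (.node 1 6 .nil (.node 0 5 (.cons 0x8905432176 (.cons 0x7890561234 .nil)) (.node 4 9 (.cons 0x8765094321 (.cons 0x8761234905 (.cons 0x7816509432 .nil))) (.node 3 8 (.cons 0x4387650912 (.cons 0x9438705612 (.cons 0x5438907612 .nil))) (.node 2 5 (.cons 0x2567834190 (.cons 0x6170983452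 (.cons 0x7832561490 .nil))) .done .done) .done) (.node 0 4 (.cons 0x9876512340 (.cons 0x7890432165 (.cons 0x9876150432 .nil))) .done .done)) .done) .done)) (.node 0 5 (.cons 0x8905432176 .nil) (.node 1 6 (.cons 0x7890561234 .nil) (.node 1 4 .nil (.node 0 8 (.cons 0x9087651234 (.cons 0x9087651432 .nil)) (.node 5 9 (.cons 0x7612345980 (.cons 0x6780951432 (.cons 0x8095412376 .nil))) .done .done) .done) .done) (.node 0 8 (.cons 0x9087651234 .nil) (.node 2 8 (.cons 0x3456709821 .nil) (.node 2 7 (.cons 0x4319827650 .nil) (.node 1 4 (.cons 0x8905672314 .nil) (.node 1 6 (.cons 0x9167345082 .nil) .done .done) .done) (.node 1 4 (.cons 0x6714509823 .nil) (.node 1 6 .nil (.node 2 5 (.cons 0x8907652134 (.cons 0x9807612543 (.cons 0x6178905234 .nil))) .done .done) .done) .done)) .done) .done)) .done)) .done)) .done)) (.node 2 7 (.cons 0x3456721890 .nil) tc9_0_44 .done))) .done)))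
theorem sub_c9_0_7 : root 9 refs9_0 [] 0x700000008704000000004060070030060500000000504000000004010000070010300000000302000000002018030000010 0xfe7fff6fff27ff9fffcfffedff75fff3fff9fef5 9 1 7 .nil uc9_0_7 = true := by decide +kernel
noncomputable def tc9_0_49 : T := (.node 2 8 (.cons 0x3456712890 .nil) (.node 4 8 (.cons 0x7654890123 .nil) (.node 0 8 (.cons 0x9082173456 .nil) (.node 5 8 (.cons 0x6709854321 .nil) (.node 6 8 .nil (.node 4 9 (.cons 0x7654983210 (.cons 0x6854907321 (.cons 0x1237685490 (.cons 0x7328654901 .nil)))) .done .done) .done) .done) (.node 0 8 (.cons 0x9082173456 .nil) (.node 5 8 (.cons 0x6709854321 .nil) (.node 6 8 .nil (.node 7 9 (.cons 0x4567983210 (.cons 0x4568237901 .nil)) (.node 0 4 (.cons 0x1238976540 (.cons 0x5409768123 (.cons 0x8654097321 .nil))) .done .done) .done) .done) .done) .done)) (.node 7 9 (.cons 0x4567983210 .nil) (.node 5 7 (.cons 0x6754321890 .nil) (.node 2 7 .nil (.node 4 7 .nil (.node 0 5 (.cons 0x6721890543 (.cons 0x6509874321 (.cons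 0x6723450981 .nil))) (.node 1 5 (.cons 0x4321567890 (.cons 0x6512347890 .nil)) .done .done) .done) .done) (.node 5 9 (.cons 0x6701238954 .nil) (.node 5 8 (.cons 0x6709854321 .nil) (.node 6 8 .nil (.node 0 2 (.cons 0x9834567120 (.cons 0x5432097681 (.cons 0x7120986543 (.cons 0x8659021734 .nil)))) .done (.node 3 6 (.cons 0x4576321890 .nil) (.node 4 8 (.cons 0x4821736590 .nil) (.node 0 8 .nil (.node 1 6 (.cons 0x1654823790 (.cons 0x9807612345 (.cons 0x7809561234 .nil))) .done .done) .done) .done) .done)) (.node 3 5 .nil (.node 4 6 (.cons 0x9018546732 (.cons 0x2354679810 (.cons 0x1823546790 (.cons 0x3546709821 .nil)))) (.node 0 2 (.cons 0x9834567120 (.cons 0x9028176453 (.cons 0x9028173546 (.cons 0x4675320981 .nil)))) .done .done) .done) .done)) (.node 5 8 (.cons 0x6709854321 .nil) (.node 3 5 .nil (.node 2 6 (.cons 0x8126734590 (.cons 0x4532679810 (.cons 0x8109762354 (.cons 0x6217098534 .nil)))) .done (.node 3 6 (.cons 0x4576321890 .nil) (.node 0 3 (.cons 0x8903456712 .nil) (.node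 1 3 .nil (.node 0 4 (.cons 0x2389765401 (.cons 0x8765904312 (.cons 0x5678904312 (.cons 0x7654098231 .nil)))) .done .done) .done) .done) .done)) (.node 6 8 (.cons 0x2186734590 .nil) (.node 0 8 (.cons 0x6734590812 .nil) (.node 4 8 (.cons 0x7654890123 .nil) .done .done) .done) .done)) .done)) .done)) (.node 5 7 (.cons 0x6754321890 .nil) (.node 2 7 .nil (.node 1 5 (.cons 0x4321567890 .nil) (.node 4 7 .nil (.node 0 5 (.cons 0x6721890543 (.cons 0x6509874321 (.cons 0x6723450981 .nil))) .done (.node 1 9 (.cons 0x6547238910 .nil) (.node 0 4 (.cons 0x1238976540 (.cons 0x8321976540 (.cons 0x6578912340 (.cons 0x9128376540 .nil)))) .done (.node 0 5 (.cons 0x4765019832 (.cons 0x6501983274 (.cons 0x4389127650 (.cons 0x6723450981 .nil)))) .done .done)) .done)) (.node 6 8 (.cons 0x6890721543 (.cons 0x6890723451 .nil)) (.node 0 4 (.cons 0x1238976540 (.cons 0x4097865123 (.cons 0x8654097321 (.cons 0x9043786512 (.cons 0x9832765401 .nil))))) .done .done) .done)) .done) (.node 5 8 (.cons 0x6709854321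 .nil) (.node 3 5 .nil (.node 5 9 (.cons 0x6701238954 .nil) (.node 0 2 (.cons 0x9834567120 (.cons 0x6781209534 (.cons 0x8902176534 .nil))) (.node 4 6 (.cons 0x6459738120 (.cons 0x6435987021 (.cons 0x2187643590 (.cons 0x6453897021 (.cons 0x9028173546 .nil))))) .done .done) .done) .done) (.node 5 9 (.cons 0x6701238954 .nil) (.node 3 5 .nil (.node 1 6 (.cons 0x2345761890 (.cons 0x4358907612 .nil)) (.node 0 4 (.cons 0x7895612340 (.cons 0x8123540976 (.cons 0x6534098712 (.cons 0x9821670453 (.cons 0x9823540761 .nil))))) .done (.node 4 9 (.cons 0x7654983210 (.cons 0x2167853490 (.cons 0x9453821670 (.cons 0x7618235490 .nil)))) .done .done)) .done) .done) .done)) .done)) .done)) .done)) (.node 0 3 (.cons 0x8903456712 .nil) (.node 2 8 (.cons 0x3456712890 .nil) (.node 2 7 .nil (.node 4 8 (.cons 0x7654890123 (.cons 0x9012738456 (.cons 0x3276548901 .nil))) .done (.node 1 3 .nil (.node 4 8 (.cons 0x7654890123 (.cons 0x3127654890 (.cons 0x1327654890 .nil))) .done (.node 7 9 .nil (.node 0 6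 (.cons 0x7609812345 (.cons 0x9712834560 (.cons 0x9738210654 .nil))) (.node 1 4 (.cons 0x7238906541 (.cons 0x8327906541 (.cons 0x8972314560 .nil))) .done .done) (.node 5 7 (.cons 0x6754321890 .nil) (.node 4 7 .nil (.node 2 6 (.cons 0x7126543890 (.cons 0x8326547901 (.cons 0x5621743890 .nil))) .done .done) .done) .done)) .done)) .done)) (.node 2 7 .nil (.node 4 7 (.cons 0x6547238901 .nil) (.node 4 8 (.cons 0x7654890123 (.cons 0x9012738456 (.cons 0x3276548901 .nil))) .done .done) (.node 4 7 .nil (.node 0 6 (.cons 0x7609812345 (.cons 0x9065471283 (.cons 0x9065473821 (.cons 0x9832745601 .nil)))) .done (.node 5 7 (.cons 0x6754321890 .nil) (.node 7 9 .nil (.node 0 4 (.cons 0x5678904321 (.cons 0x6540971283 (.cons 0x6540973821 .nil))) (.node 3 6 (.cons 0x4576321890 (.cons 0x6321897540 (.cons 0x8972365401 .nil))) .done .done) .done) .done) .done)) .done)) .done)) (.node 2 8 (.cons 0x3456712890 .nil) (.node 2 7 .nil (.node 4 8 (.cons 0x7654890123 (.cons 0x9012738456 (.cons 0x3276548901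 .nil))) .done (.node 7 9 (.cons 0x4567982301 .nil) (.node 5 7 (.cons 0x6754321890 .nil) (.node 3 5 .nil (.node 4 6 (.cons 0x5467230981 (.cons 0x2354679810 (.cons 0x9764532810 (.cons 0x3546721890 (.cons 0x9823546701 .nil))))) .done .done) .done) .done) .done)) (.node 2 7 .nil (.node 4 8 (.cons 0x7654890123 (.cons 0x9845672301 (.cons 0x9012738456 (.cons 0x3276548901 .nil)))) .done (.node 4 7 .nil (.node 0 6 (.cons 0x7609812345 (.cons 0x9065471283 (.cons 0x5609834712 (.cons 0x9065473821 .nil)))) .done (.node 5 7 (.cons 0x6754321890 .nil) (.node 7 9 .nil (.node 1 4 (.cons 0x6754189032 (.cons 0x1456798230 (.cons 0x8230976541 (.cons 0x8972301456 .nil)))) .done .done) .done) .done)) .done)) .done)) .done)) (.node 0 3 (.cons 0x8903456712 .nil) (.node 2 7 (.cons 0x4567238901 .nil) (.node 4 7 .nil (.node 2 8 (.cons 0x3456712890 (.cons 0x6547128903 .nil)) (.node 0 8 (.cons 0x9082173456 .nil) (.node 6 9 (.cons 0x8217345690 (.cons 0x5698034721 (.cons 0x2745698301 (.cons 0x8965472301 (.cons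 0x3089654721 .nil))))) .done .done) .done) (.node 5 7 (.cons 0x6754321890 .nil) (.node 7 9 .nil (.node 6 8 (.cons 0x9865472301 (.cons 0x2179865430 (.cons 0x1279865430 .nil))) (.node 0 4 (.cons 0x9832765401 (.cons 0x5409768123 (.cons 0x3045689721 .nil))) .done .done) .done) .done) .done)) (.node 3 5 .nil (.node 0 2 (.cons 0x2098345671 (.cons 0x8902176534 .nil)) (.node 0 4 (.cons 0x5678904321 (.cons 0x6721890453 (.cons 0x6723540981 .nil))) .done .done) (.node 5 7 (.cons 0x6754321890 .nil) (.node 7 9 .nil (.node 4 6 (.cons 0x6457230981 (.cons 0x6457981032 (.cons 0x5467901832 (.cons 0x2354679810 .nil)))) (.node 0 2 (.cons 0x2098345671 (.cons 0x9764538102 (.cons 0x5346798120 .nil))) .done .done) .done) .done) .done)) .done)) (.node 0 2 (.cons 0x2098345671 .nil) (.node 3 6 .nil (.node 5 8 (.cons 0x6709854321 (.cons 0x6345890712 (.cons 0x9021854367 (.cons 0x4589076321 .nil)))) (.node 2 5 (.cons 0x9025438176 (.cons 0x4365217890 .nil)) (.node 4 8 (.cons 0x7654890123 (.cons 0x7125630984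 (.cons 0x3670984521 .nil))) .done .done) .done) (.node 3 5 .nil (.node 4 8 (.cons 0x7654890123 (.cons 0x9845321076 (.cons 0x9021784356 (.cons 0x9845367012 .nil)))) .done (.node 1 3 .nil (.node 5 9 (.cons 0x6718345902 (.cons 0x8765902134 .nil)) (.node 2 8 (.cons 0x9543671820 (.cons 0x6701328954 (.cons 0x6590287134 (.cons 0x9028317654 .nil)))) .done (.node 2 5 (.cons 0x9025438176 .nil) (.node 5 8 (.cons 0x6709854321 (.cons 0x6709854312 .nil)) .done .done) .done)) .done) .done)) .done)) (.node 3 6 .nil (.node 2 7 (.cons 0x4567238901 (.cons 0x4563890271 .nil)) (.node 5 7 (.cons 0x6754321890 (.cons 0x6345718902 (.cons 0x4576321890 .nil))) .done .done) (.node 2 7 (.cons 0x4567238901 .nil) (.node 4 7 (.cons 0x9836547102 .nil) (.node 5 7 (.cons 0x6754321890 .nil) (.node 7 9 (.cons 0x8974563201 .nil) .done .done) .done) (.node 7 9 (.cons 0x4563897102 .nil) (.node 4 7 (.cons 0x8974563201 .nil) (.node 5 7 (.cons 0x6754321890 .nil) .done .done) .done) .done)) .done)) .done)) .done))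 .done)))
noncomputable def tc9_0_50 : T := (.node 1 5 (.cons 0x4321567890 .nil) (.node 1 6 (.cons 0x8907612345 .nil) (.node 0 8 (.cons 0x9087651234 .nil) (.node 3 8 (.cons 0x2176543890 .nil) (.node 2 8 (.cons 0x3456712890 .nil) (.node 2 7 .nil (.node 4 8 (.cons 0x7654890123 (.cons 0x9084372165 (.cons 0x3276548901 .nil))) .done (.node 4 7 (.cons 0x9087432156 .nil) (.node 4 8 (.cons 0x7654890123 .nil) (.node 5 8 (.cons 0x6709854321 .nil) (.node 6 8 (.cons 0x9086543712 .nil) .done .done) .done) .done) .done)) .done) (.node 0 3 (.cons 0x8903456712 .nil) (.node 0 2 (.cons 0x2098345671 .nil) (.node 3 6 .nil (.node 2 8 (.cons 0x3456712890 (.cons 0x5436712890 (.cons 0x9082173654 .nil))) .done (.node 2 6 (.cons 0x9807126345 .nil) (.node 3 5 (.cons 0x9807126354 .nil) (.node 2 5 (.cons 0x9807125436 .nil) (.node 2 7 (.cons 0x4567238901 .nil) .done .done) .done) .done) .done)) .done) .done) .done)) (.node 0 5 (.cons 0x9812345076 .nil) (.node 0 4 (.cons 0x5678904321 .nil) (.node 0 2 (.cons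 0x8902176543 .nil) (.node 0 3 (.cons 0x8903456712 .nil) (.node 3 5 (.cons 0x8902176534 .nil) (.node 3 6 (.cons 0x4365098712 .nil) .done .done) .done) .done) (.node 4 7 (.cons 0x6509874321 .nil) (.node 2 7 (.cons 0x9810456723 .nil) (.node 7 9 (.cons 0x8974321650 .nil) (.node 5 7 .nil (.node 4 8 (.cons 0x7654890123 (.cons 0x7561234890 (.cons 0x5761234890 .nil))) .done .done) .done) .done) .done) .done)) (.node 0 4 (.cons 0x5678904321 .nil) (.node 0 6 .nil (.node 4 8 (.cons 0x7654890123 (.cons 0x9065123487 (.cons 0x9067843215 .nil))) (.node 1 9 (.cons 0x2348765190 (.cons 0x5190678432 .nil)) (.node 1 3 (.cons 0x7654890132 .nil) (.node 2 7 (.cons 0x3276548901 (.cons 0x7219806543 (.cons 0x5489067231 .nil))) .done .done) .done) .done) .done) (.node 0 3 (.cons 0x8903456712 .nil) (.node 0 2 (.cons 0x8902176543 .nil) (.node 0 6 .nil (.node 5 7 (.cons 0x6578904321 (.cons 0x9875604321 .nil)) (.node 1 4 (.cons 0x6578904123 (.cons 0x8906754123 .nil)) .done .done) .done) .done) .done) .done))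 .done)) (.node 0 5 (.cons 0x9812345076 .nil) (.node 0 3 (.cons 0x8903456712 .nil) (.node 0 2 (.cons 0x8902176543 .nil) (.node 0 4 (.cons 0x5678904321 .nil) (.node 0 6 .nil (.node 4 8 (.cons 0x7654890123 (.cons 0x9065123487 (.cons 0x9067843215 .nil))) .done .done) .done) .done) .done) (.node 3 8 (.cons 0x2176543890 .nil) (.node 5 8 (.cons 0x6709854321 .nil) (.node 2 8 (.cons 0x3456712890 .nil) (.node 4 8 (.cons 0x7654890123 .nil) (.node 6 8 (.cons 0x9054376821 .nil) .done .done) .done) .done) (.node 0 6 (.cons 0x5438906712 .nil) (.node 0 4 (.cons 0x5678904321 .nil) (.node 0 2 (.cons 0x8902176543 .nil) (.node 0 3 (.cons 0x8903456712 .nil) .done .done) .done) .done) .done)) .done)) .done))) .done) (.node 4 7 (.cons 0x6512347890 .nil) (.node 2 7 .nil (.node 4 6 (.cons 0x3465127890 (.cons 0x1564327890 .nil)) (.node 6 8 (.cons 0x6890721543 (.cons 0x6890723451 (.cons 0x7098645123 .nil))) .done (.node 0 4 (.cons 0x5678904321 (.cons 0x6512789043 (.cons 0x9810456723 .nil))) (.node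 0 8 (.cons 0x9087215643 (.cons 0x9087234651 .nil)) (.node 6 9 (.cons 0x5432189670 (.cons 0x7432156980 (.cons 0x4378096512 (.cons 0x6981543270 (.cons 0x6980745123 .nil))))) .done .done) .done) .done)) (.node 2 8 (.cons 0x3456712890 .nil) (.node 7 9 .nil (.node 4 8 (.cons 0x7654890123 (.cons 0x6548210973 (.cons 0x6548237901 .nil))) (.node 6 8 (.cons 0x9012376845 (.cons 0x1286543790 (.cons 0x4568237901 (.cons 0x6845123790 .nil)))) .done .done) (.node 5 7 .nil (.node 1 4 (.cons 0x8237901456 .nil) (.node 1 6 (.cons 0x3289745610 (.cons 0x8234165790 .nil)) .done (.node 2 4 (.cons 0x3245679810 .nil) (.node 3 6 (.cons 0x8790156324 (.cons 0x6328975410 (.cons 0x4365712890 (.cons 0x8901457632 .nil)))) .done .done) .done)) .done) .done)) (.node 7 9 .nil (.node 0 6 (.cons 0x9874321560 (.cons 0x8790651234 (.cons 0x8974321560 (.cons 0x8215437906 (.cons 0x6079815432 .nil))))) .done (.node 5 7 .nil (.node 1 6 (.cons 0x8907612345 .nil) (.node 0 8 (.cons 0x5432809761 (.cons 0x9087561234 (.cons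 0x9082167543 (.cons 0x9082345761 .nil)))) .done (.node 0 4 (.cons 0x5678904321 (.cons 0x8234097516 (.cons 0x6578904321 (.cons 0x5761289043 .nil)))) (.node 3 6 (.cons 0x6328974510 (.cons 0x9823675401 (.cons 0x4576328901 .nil))) .done .done) .done)) .done) .done)) .done)) .done)) (.node 7 9 .nil (.node 0 2 (.cons 0x8902176543 (.cons 0x6547981023 (.cons 0x6518974320 .nil))) (.node 0 6 (.cons 0x2347890651 (.cons 0x2347981560 (.cons 0x6079815432 .nil))) (.node 0 3 (.cons 0x8903456712 (.cons 0x6547981032 (.cons 0x4567981032 .nil))) (.node 3 9 (.cons 0x5602187934 (.cons 0x8120679345 (.cons 0x4397815602 .nil))) .done .done) .done) .done) (.node 2 7 .nil (.node 0 3 (.cons 0x4567981230 (.cons 0x9810327456 (.cons 0x9810327654 .nil))) (.node 6 8 (.cons 0x2743098651 (.cons 0x6890723451 (.cons 0x4723098651 .nil))) (.node 0 2 (.cons 0x9023478651 (.cons 0x7120986543 .nil)) .done .done) .done) (.node 5 7 .nil (.node 4 8 (.cons 0x7654890123 (.cons 0x6754890123 .nil)) (.node 3 6 (.cons 0x4789015632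 (.cons 0x9845701236 (.cons 0x2175634890 .nil))) (.node 0 6 (.cons 0x9732184560 (.cons 0x9065784321 (.cons 0x7560984321 .nil))) (.node 1 3 (.cons 0x3127984560 (.cons 0x8906754312 (.cons 0x9843127560 .nil))) .done .done) .done) (.node 0 4 (.cons 0x3218976540 (.cons 0x6578904321 .nil)) (.node 4 6 (.cons 0x8790465123 .nil) (.node 3 6 (.cons 0x4789015632 (.cons 0x6348907512 .nil)) (.node 1 4 (.cons 0x8790415632 (.cons 0x8901457632 .nil)) .done .done) .done) .done) .done)) .done) .done)) .done)) .done)) .done)) (.node 1 5 (.cons 0x4321567890 .nil) (.node 1 6 (.cons 0x8907612345 .nil) (.node 1 4 .nil (.node 5 8 (.cons 0x6709854321 (.cons 0x6709854123 .nil)) (.node 0 2 (.cons 0x8902176543 (.cons 0x9021437856 (.cons 0x7658902143 .nil))) (.node 0 8 (.cons 0x9085673412 .nil) (.node 1 9 (.cons 0x6734580912 (.cons 0x4376580912 .nil)) .done (.node 2 6 (.cons 0x3458907621 (.cons 0x5890762143 (.cons 0x9081456237 .nil))) (.node 3 9 (.cons 0x8543907612 (.cons 0x9341780265 (.cons 0x7623980145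 (.cons 0x5893412670 (.cons 0x3985410762 .nil))))) .done .done) .done)) .done) (.node 2 9 (.cons 0x8543290761 (.cons 0x7856143290 (.cons 0x5876143290 (.cons 0x8567329014 (.cons 0x8541670923 .nil))))) .done .done)) (.node 1 9 .nil (.node 0 8 (.cons 0x6708915432 .nil) (.node 5 9 (.cons 0x7809561234 (.cons 0x5908761432 (.cons 0x8095412376 .nil))) (.node 2 6 (.cons 0x4378126590 (.cons 0x3459807621 (.cons 0x8095412673 .nil))) (.node 6 9 (.cons 0x4370815962 (.cons 0x7321809654 .nil)) .done .done) .done) (.node 2 7 (.cons 0x9081273456 (.cons 0x3456721980 .nil)) (.node 7 9 (.cons 0x6543790812 .nil) (.node 2 6 (.cons 0x6234518970 (.cons 0x2654379180 .nil)) (.node 5 7 (.cons 0x9081265734 .nil) .done .done) .done) .done) .done)) (.node 1 3 .nil (.node 5 8 (.cons 0x6709854321 (.cons 0x6709854312 .nil)) (.node 2 7 (.cons 0x9072345816 (.cons 0x6723145890 .nil)) (.node 2 8 (.cons 0x3456712890 (.cons 0x9076132854 .nil)) (.node 0 2 (.cons 0x8902176543 (.cons 0x9028543176 (.cons 0x4317658902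 .nil))) (.node 0 6 (.cons 0x5891432760 (.cons 0x9856027134 (.cons 0x7206589134 (.cons 0x5431760982 .nil)))) .done .done) .done) .done) (.node 0 8 (.cons 0x9085412376 .nil) (.node 2 5 (.cons 0x8091256734 (.cons 0x9087652134 .nil)) (.node 2 9 (.cons 0x6708921543 (.cons 0x6731290854 (.cons 0x8092137654 .nil))) .done .done) (.node 2 4 (.cons 0x4237658091 (.cons 0x9801324567 (.cons 0x7658091324 .nil))) (.node 2 5 (.cons 0x9087165243 (.cons 0x9087134256 .nil)) .done .done) .done)) .done)) .done) .done)) .done)) (.node 1 9 .nil (.node 0 8 (.cons 0x6708915432 .nil) (.node 6 9 (.cons 0x7345690812 (.cons 0x7321809654 .nil)) (.node 4 9 (.cons 0x4965108732 (.cons 0x8015496732 .nil)) (.node 0 2 (.cons 0x2087349651 (.cons 0x7349651802 .nil)) (.node 1 3 (.cons 0x5134967802 .nil) .done .done) .done) .done) (.node 3 6 (.cons 0x9807634512 (.cons 0x5436708912 .nil)) (.node 2 7 (.cons 0x9081273456 (.cons 0x3456721980 .nil)) (.node 0 4 (.cons 0x9876512340 (.cons 0x5632781904 (.cons 0x8915407236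 .nil))) (.node 0 3 (.cons 0x8903456712 (.cons 0x6519872304 (.cons 0x8915672304 .nil))) .done .done) .done) .done) .done)) (.node 1 3 .nil (.node 1 4 .nil (.node 5 8 (.cons 0x6709854321 (.cons 0x6709854132 (.cons 0x6709854312 .nil))) .done (.node 0 4 (.cons 0x9876512340 (.cons 0x5678904312 .nil)) (.node 5 8 (.cons 0x6709854321 (.cons 0x6709854312 .nil)) (.node 2 6 (.cons 0x5876234190 (.cons 0x9043178562 (.cons 0x4589076231 .nil))) (.node 2 7 (.cons 0x7234098561 (.cons 0x7231658904 .nil)) .done .done) (.node 5 7 (.cons 0x6578904321 .nil) (.node 2 4 (.cons 0x8573240916 (.cons 0x9857042316 (.cons 0x4231675890 .nil))) .done .done) .done)) (.node 2 8 (.cons 0x3456712890 (.cons 0x9823104567 (.cons 0x7654098231 .nil))) (.node 5 7 (.cons 0x7561890432 (.cons 0x6754098231 .nil)) (.node 7 9 (.cons 0x5167982340 (.cons 0x6798231540 .nil)) .done .done) .done) .done)) .done)) .done) .done)) .done)) (.node 0 8 (.cons 0x9087651234 .nil) (.node 7 9 (.cons 0x6543790812 .nil) (.node 4 7 .nil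 (.node 2 6 (.cons 0x4326518790 (.cons 0x3265479810 (.cons 0x8109745623 (.cons 0x8156234790 (.cons 0x9081265473 .nil))))) .done (.node 2 7 (.cons 0x9081273456 .nil) (.node 5 7 .nil (.node 0 4 (.cons 0x5678904321 (.cons 0x9043218756 (.cons 0x6578904321 .nil))) (.node 4 8 (.cons 0x6548109732 (.cons 0x6754890123 .nil)) .done .done) .done) .done) .done)) (.node 2 7 (.cons 0x9081273456 .nil) (.node 4 7 .nil (.node 3 9 (.cons 0x1276543980 (.cons 0x6547210893 (.cons 0x8093476512 (.cons 0x6547239810 .nil)))) (.node 6 8 (.cons 0x9345127680 (.cons 0x5476893210 (.cons 0x9018654732 (.cons 0x8674512390 .nil)))) .done .done) (.node 5 7 .nil (.node 0 4 (.cons 0x5678904321 (.cons 0x9043218756 (.cons 0x6578904321 .nil))) .done .done) .done)) .done) .done)) (.node 3 8 (.cons 0x2176543890 .nil) (.node 4 8 (.cons 0x7654890123 .nil) (.node 2 8 (.cons 0x3456712890 .nil) (.node 5 8 (.cons 0x6709854321 .nil) (.node 6 8 (.cons 0x9012376845 .nil) .done .done) .done) (.node 5 8 (.cons 0x6709854321 .nil)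 (.node 6 8 .nil (.node 4 9 (.cons 0x7654983210 (.cons 0x7865123490 (.cons 0x1237685490 (.cons 0x9451076832 .nil)))) .done .done) .done) .done)) (.node 4 8 (.cons 0x7654890123 .nil) (.node 2 8 (.cons 0x3456712890 .nil) (.node 5 8 (.cons 0x6709854321 .nil) (.node 6 8 .nil (.node 0 2 (.cons 0x8902176543 (.cons 0x9021768345 (.cons 0x7120986543 .nil))) (.node 0 3 (.cons 0x8903456712 (.cons 0x9037128654 .nil)) .done .done) .done) .done) .done) (.node 2 8 (.cons 0x3456712890 .nil) (.node 5 8 (.cons 0x6709854321 .nil) (.node 2 5 (.cons 0x6712543890 .nil) (.node 6 8 (.cons 0x6890712543 .nil) .done .done) .done) (.node 5 8 (.cons 0x6709854321 .nil) (.node 2 5 (.cons 0x6712543890 .nil) (.node 6 8 (.cons 0x6890712543 .nil) .done .done) .done) .done)) .done)) .done)) .done)) .done)) (.node 3 8 (.cons 0x2176543890 .nil) tc9_0_49 .done)))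
noncomputable def tc9_0_51 : T := (.node 1 6 (.cons 0x8907612345 .nil) (.node 0 8 (.cons 0x9087651234 .nil) (.node 4 7 (.cons 0x9087432156 .nil) (.node 7 9 (.cons 0x6543217980 .nil) (.node 5 7 .nil (.node 1 8 (.cons 0x7654321890 (.cons 0x6754321890 .nil)) (.node 3 6 (.cons 0x9087436512 .nil) (.node 4 9 (.cons 0x9456372180 (.cons 0x4987563210 (.cons 0x8945763210 .nil))) .done (.node 1 4 (.cons 0x9081456372 (.cons 0x4109875632 (.cons 0x8901457632 .nil))) .done .done)) .done) .done) .done) (.node 7 9 (.cons 0x6543217980 .nil) (.node 5 7 .nil (.node 2 4 (.cons 0x8097342165 (.cons 0x3421657980 (.cons 0x8097561243 (.cons 0x8901657423 .nil)))) (.node 3 6 (.cons 0x9801745632 (.cons 0x9801632475 (.cons 0x8097516342 .nil))) .done .done) .done) .done) .done)) (.node 1 8 (.cons 0x7654321890 .nil) (.node 3 6 (.cons 0x9081273654 .nil) (.node 2 6 (.cons 0x9081265437 .nil) (.node 0 6 .nil (.node 5 9 (.cons 0x9543621807 (.cons 0x4321789560 (.cons 0x7063459812 (.cons 0x6071895432 (.cons 0x7063218954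 .nil))))) .done (.node 1 3 (.cons 0x7231890654 .nil) (.node 1 4 (.cons 0x8906723145 .nil) (.node 1 9 (.cons 0x5436708912 .nil) .done .done) .done) .done)) .done) (.node 1 3 .nil (.node 0 4 (.cons 0x9817236540 (.cons 0x9804563172 (.cons 0x8904567231 .nil))) (.node 7 9 (.cons 0x6543790812 (.cons 0x8136540972 (.cons 0x8132790456 .nil))) .done .done) (.node 1 4 (.cons 0x7236541890 .nil) (.node 1 9 .nil (.node 0 4 (.cons 0x9817236540 (.cons 0x5632781904 (.cons 0x8917236540 (.cons 0x8765190432 .nil)))) .done .done) .done) .done)) .done)) (.node 2 5 (.cons 0x9081254376 .nil) (.node 2 6 (.cons 0x9081267345 .nil) (.node 0 6 (.cons 0x7609812345 .nil) (.node 0 5 (.cons 0x9817605432 .nil) (.node 0 2 (.cons 0x9802176543 .nil) (.node 0 3 (.cons 0x9803456712 .nil) .done .done) .done) .done) .done) (.node 0 5 .nil (.node 6 9 (.cons 0x4378096521 (.cons 0x6905218734 (.cons 0x8961705234 (.cons 0x8123769054 .nil)))) .done (.node 1 3 (.cons 0x6723189054 .nil) (.node 1 4 (.cons 0x6509872314 .nil)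 (.node 1 9 (.cons 0x6521908734 .nil) .done .done) .done) .done)) .done)) .done)) (.node 4 7 .nil (.node 2 9 (.cons 0x1765432980 (.cons 0x5617432980 (.cons 0x8092347615 (.cons 0x8092347651 .nil)))) .done (.node 0 4 (.cons 0x5678904321 .nil) (.node 1 4 (.cons 0x9087651432 .nil) (.node 0 6 (.cons 0x9806541723 .nil) (.node 0 5 .nil (.node 2 9 (.cons 0x1765432980 (.cons 0x3471650892 (.cons 0x8921760543 (.cons 0x4329805671 .nil)))) .done (.node 0 2 (.cons 0x9802345671 .nil) (.node 0 3 (.cons 0x9803271456 .nil) .done .done) .done)) .done) (.node 1 3 .nil (.node 0 2 (.cons 0x9802345671 (.cons 0x8902134765 .nil)) (.node 2 4 (.cons 0x9801765423 (.cons 0x9801324567 .nil)) .done .done) (.node 1 8 (.cons 0x7654321890 .nil) (.node 1 9 (.cons 0x2345671980 .nil) .done .done) .done)) .done)) (.node 5 7 (.cons 0x6578904321 .nil) (.node 7 9 (.cons 0x5617980432 .nil) .done .done) .done)) (.node 5 7 .nil (.node 1 8 (.cons 0x7654321890 (.cons 0x2347561890 (.cons 0x6754321890 .nil))) (.node 4 8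 (.cons 0x7654890123 (.cons 0x7561234890 (.cons 0x5761234890 .nil))) (.node 0 3 (.cons 0x7654309812 (.cons 0x9847561032 .nil)) (.node 0 2 (.cons 0x9802345671 (.cons 0x8902347561 .nil)) (.node 3 8 (.cons 0x9021834567 (.cons 0x4756109832 (.cons 0x9021834576 .nil))) .done .done) .done) .done) .done) (.node 7 9 .nil (.node 4 8 (.cons 0x7654890123 (.cons 0x6512348790 (.cons 0x5167908432 .nil))) (.node 0 5 (.cons 0x9843216705 (.cons 0x7984321650 .nil)) .done (.node 0 3 (.cons 0x3098456721 (.cons 0x8430976512 .nil)) (.node 2 8 (.cons 0x2890347561 (.cons 0x6547982301 (.cons 0x5612843790 (.cons 0x6790823451 .nil)))) .done .done) .done)) .done) .done)) .done))) .done))) (.node 1 8 (.cons 0x7654321890 .nil) (.node 0 8 (.cons 0x9087651234 .nil) (.node 2 5 (.cons 0x8907612543 .nil) (.node 2 8 .nil (.node 4 9 (.cons 0x8765123490 (.cons 0x5612873490 (.cons 0x8210945673 (.cons 0x3289456710 .nil)))) (.node 0 5 (.cons 0x3498761250 (.cons 0x9056128734 (.cons 0x6782349051 .nil))) .done .done)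 (.node 1 4 .nil (.node 5 8 (.cons 0x6709854321 (.cons 0x9014582376 (.cons 0x6709854123 .nil))) .done (.node 1 9 (.cons 0x6708912543 .nil) (.node 1 3 .nil (.node 0 5 (.cons 0x7612890543 (.cons 0x7613450982 .nil)) (.node 3 5 (.cons 0x4531672890 .nil) .done .done) .done) .done) .done)) .done)) (.node 1 4 (.cons 0x9087341256 .nil) (.node 1 9 (.cons 0x6521908734 .nil) (.node 1 3 .nil (.node 0 5 (.cons 0x8905413276 .nil) (.node 2 9 (.cons 0x3456712980 (.cons 0x6712980543 .nil)) .done .done) .done) .done) .done) .done)) (.node 1 4 (.cons 0x9087651432 .nil) (.node 1 9 (.cons 0x2345671980 .nil) (.node 1 3 .nil (.node 2 5 (.cons 0x4325671980 (.cons 0x9807613452 .nil)) (.node 4 7 (.cons 0x6523471980 (.cons 0x6521347890 (.cons 0x6547231890 .nil))) .done .done) .done) .done) .done) .done)) (.node 5 7 (.cons 0x6754321890 .nil) (.node 2 5 (.cons 0x8907612543 .nil) (.node 2 8 .nil (.node 0 5 (.cons 0x9056128734 (.cons 0x9054376182 .nil)) (.node 4 9 (.cons 0x8765123490 (.cons 0x5612873490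 (.cons 0x3498761250 (.cons 0x8210945673 (.cons 0x3289456710 .nil))))) .done .done) (.node 7 9 (.cons 0x8216543790 .nil) (.node 4 7 .nil (.node 0 3 (.cons 0x2897165430 (.cons 0x1652897430 (.cons 0x3098274561 .nil))) (.node 1 3 (.cons 0x6134528970 (.cons 0x6574312890 .nil)) .done .done) .done) .done) .done)) (.node 0 5 .nil (.node 2 8 (.cons 0x9821670543 .nil) (.node 4 9 (.cons 0x8765123490 (.cons 0x5612873490 (.cons 0x8734905216 (.cons 0x8210945673 (.cons 0x3289456710 .nil))))) .done .done) (.node 2 8 (.cons 0x9054376182 .nil) (.node 5 8 (.cons 0x6709854321 .nil) (.node 5 9 (.cons 0x3459821670 .nil) .done .done) .done) .done)) .done)) (.node 1 4 .nil (.node 0 6 (.cons 0x2345760981 (.cons 0x5760981432 (.cons 0x5418906723 .nil))) (.node 2 8 (.cons 0x9067543281 (.cons 0x9065782341 .nil)) (.node 0 2 (.cons 0x6754320981 (.cons 0x6578902341 .nil)) (.node 0 3 (.cons 0x9821670345 (.cons 0x9820341657 (.cons 0x8903276541 .nil))) .done .done) .done) .done) (.node 1 3 .nil (.node 0 4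 (.cons 0x5678904321 (.cons 0x5678904312 (.cons 0x8904567231 .nil))) (.node 0 6 (.cons 0x2345760981 (.cons 0x8906572314 (.cons 0x5609872314 .nil))) .done .done) (.node 1 9 .nil (.node 6 8 (.cons 0x4132756890 (.cons 0x5432198670 (.cons 0x8670915432 .nil))) (.node 0 2 (.cons 0x6578902341 (.cons 0x4576819023 (.cons 0x6819023754 (.cons 0x8657320914 .nil)))) .done .done) .done) .done)) .done)) .done)) .done)) .done)) (.node 4 7 (.cons 0x6512347890 .nil) (.node 1 8 (.cons 0x7654321890 .nil) (.node 5 7 (.cons 0x6754321890 .nil) (.node 7 9 .nil (.node 0 4 (.cons 0x5678904321 (.cons 0x8790432156 .nil)) (.node 0 5 (.cons 0x9871234056 (.cons 0x8123450976 .nil)) (.node 0 6 (.cons 0x2345760981 (.cons 0x8790651234 (.cons 0x8971234065 .nil))) (.node 1 4 (.cons 0x7890651432 (.cons 0x8790651432 .nil)) .done .done) .done) (.node 2 6 (.cons 0x9871562340 (.cons 0x5401897623 (.cons 0x8790432651 (.cons 0x8971562340 .nil)))) .done .done)) .done) .done) (.node 2 5 (.cons 0x6709812543 .nil) (.node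 3 5 .nil (.node 0 2 (.cons 0x6512098743 (.cons 0x9021876534 (.cons 0x6534789021 .nil))) (.node 0 4 (.cons 0x5678904321 (.cons 0x9043567812 (.cons 0x9817653402 .nil))) (.node 2 6 (.cons 0x9043781265 (.cons 0x9043562187 .nil)) .done .done) .done) (.node 5 8 (.cons 0x6709854321 .nil) (.node 5 7 .nil (.node 0 3 (.cons 0x7654309812 .nil) (.node 1 6 (.cons 0x4589076123 (.cons 0x8903475612 .nil)) (.node 1 4 (.cons 0x4109876532 .nil) (.node 2 6 (.cons 0x9035874162 (.cons 0x2675341890 .nil)) .done .done) .done) (.node 3 6 (.cons 0x9812543670 .nil) (.node 0 2 (.cons 0x9874365120 (.cons 0x9812075436 .nil)) (.node 3 9 (.cons 0x5678120934 (.cons 0x6578120934 (.cons 0x8120934576 .nil))) .done .done) .done) .done)) .done) .done) .done)) (.node 0 2 (.cons 0x6512098743 .nil) (.node 7 9 (.cons 0x8120973456 .nil) (.node 0 8 (.cons 0x6543208971 .nil) (.node 5 7 .nil (.node 0 3 (.cons 0x7654309812 .nil) (.node 4 6 (.cons 0x3465209781 (.cons 0x2034657981 (.cons 0x9021875643 (.cons 0x9817564302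 .nil)))) .done .done) .done) .done) .done) (.node 2 6 .nil (.node 0 4 (.cons 0x5678904321 (.cons 0x9043781265 (.cons 0x9871562340 .nil))) (.node 7 9 (.cons 0x8790432156 (.cons 0x8790432651 .nil)) .done .done) (.node 7 9 .nil (.node 0 3 (.cons 0x7654309812 (.cons 0x7981265430 (.cons 0x8974302651 .nil))) .done (.node 5 7 .nil (.node 0 3 (.cons 0x8974302651 (.cons 0x4302657981 .nil)) (.node 2 9 (.cons 0x2981765430 (.cons 0x6571892034 (.cons 0x1892675430 .nil))) .done .done) .done) .done)) .done)) .done)) .done)) .done)) (.node 1 8 (.cons 0x7654321890 .nil) (.node 5 7 (.cons 0x6754321890 .nil) (.node 7 9 .nil (.node 0 5 (.cons 0x8123450976 .nil) (.node 3 6 (.cons 0x6327451890 (.cons 0x9810547632 (.cons 0x4367509812 .nil))) (.node 2 5 (.cons 0x4523679810 (.cons 0x8109763254 .nil)) .done .done) (.node 1 3 (.cons 0x6723189054 .nil) (.node 3 6 (.cons 0x6327451890 (.cons 0x4501897632 .nil)) (.node 2 5 (.cons 0x8901325674 (.cons 0x4523679810 (.cons 0x8109763254 .nil))) .done .done)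 .done) .done)) .done) .done) (.node 2 5 (.cons 0x6709812543 .nil) (.node 2 6 (.cons 0x1562347890 .nil) (.node 1 6 (.cons 0x8907612345 .nil) (.node 1 9 (.cons 0x8743265190 .nil) (.node 1 3 .nil (.node 0 2 (.cons 0x9026518743 (.cons 0x6547209813 (.cons 0x9813476520 .nil))) .done .done) .done) .done) (.node 1 6 (.cons 0x8907432615 .nil) (.node 3 5 .nil (.node 4 8 (.cons 0x7654890123 (.cons 0x9847015326 (.cons 0x9018473562 (.cons 0x5326748901 .nil)))) .done (.node 1 4 (.cons 0x9814352670 .nil) (.node 5 7 (.cons 0x2675341890 .nil) (.node 0 5 (.cons 0x8905762143 .nil) (.node 7 9 (.cons 0x8143509762 .nil) .done .done) .done) .done) .done)) .done) .done)) (.node 2 6 (.cons 0x1562347890 .nil) (.node 3 6 (.cons 0x5436709812 .nil) (.node 1 6 (.cons 0x8907612345 .nil) (.node 4 6 .nil (.node 0 3 (.cons 0x7654309812 (.cons 0x9034652187 (.cons 0x9815462703 .nil))) .done (.node 0 6 (.cons 0x2347890651 .nil) (.node 0 3 (.cons 0x7890346512 .nil) (.node 0 8 (.cons 0x9087346512 .nil) .done .done)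 .done) .done)) .done) (.node 7 9 (.cons 0x2634518970 .nil) (.node 5 7 .nil (.node 0 2 (.cons 0x8970263451 (.cons 0x9815702634 .nil)) (.node 1 3 (.cons 0x8974562013 (.cons 0x6318902754 (.cons 0x9813475620 .nil))) .done .done) .done) .done) .done)) (.node 1 6 (.cons 0x8907432615 .nil) (.node 1 4 .nil (.node 0 3 (.cons 0x7654309812 (.cons 0x5627418903 (.cons 0x8903274156 (.cons 0x8903276541 .nil)))) .done (.node 0 2 .nil (.node 3 5 (.cons 0x8901476235 (.cons 0x9815347026 (.cons 0x6720981453 .nil))) .done (.node 1 3 (.cons 0x6547209813 .nil) (.node 1 9 (.cons 0x6520918743 .nil) .done .done) .done)) .done)) .done) .done)) .done)) .done)) .done)) (.node 1 8 (.cons 0x7654321890 .nil) (.node 2 8 (.cons 0x6709821543 .nil) (.node 3 8 (.cons 0x6709834512 .nil) (.node 1 3 .nil (.node 4 8 (.cons 0x7654890123 (.cons 0x3127654890 (.cons 0x1327654890 .nil))) .done (.node 1 6 (.cons 0x8907612345 .nil) (.node 2 6 (.cons 0x7621543890 .nil) (.node 5 7 .nil (.node 0 4 (.cons 0x5678904321 (.cons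 0x9043218756 (.cons 0x6578904321 (.cons 0x7562189043 (.cons 0x9817562340 .nil))))) .done (.node 4 7 (.cons 0x5126743890 .nil) (.node 4 8 (.cons 0x9016754832 .nil) (.node 7 9 (.cons 0x2651843790 .nil) .done .done) .done) .done)) .done) .done) .done)) (.node 5 8 (.cons 0x6709854321 .nil) (.node 0 8 .nil (.node 1 4 (.cons 0x1456723890 (.cons 0x9083276541 (.cons 0x9085412376 .nil))) .done (.node 4 8 (.cons 0x7654890123 .nil) (.node 6 8 (.cons 0x9012376845 .nil) .done .done) .done)) .done) .done)) (.node 3 8 (.cons 0x6709834512 .nil) (.node 5 7 .nil (.node 3 6 (.cons 0x7634512890 (.cons 0x4367512890 (.cons 0x4576328901 .nil))) .done (.node 7 9 (.cons 0x4567983210 .nil) (.node 4 7 .nil (.node 0 3 (.cons 0x4567983012 (.cons 0x6547983012 (.cons 0x8903476512 (.cons 0x6547230981 .nil)))) .done .done) .done) .done)) (.node 0 8 (.cons 0x9082154376 .nil) (.node 4 8 (.cons 0x7654890123 .nil) (.node 5 8 (.cons 0x6709854321 .nil) (.node 6 8 .nil (.node 7 9 (.cons 0x6543790812 (.cons 0x2186543790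 (.cons 0x4568109732 .nil))) .done .done) .done) .done) .done) .done)) .done)) (.node 5 7 (.cons 0x6754321890 .nil) (.node 2 8 (.cons 0x6709821543 .nil) (.node 2 6 (.cons 0x8907621543 .nil) (.node 1 6 (.cons 0x2345761890 .nil) (.node 2 5 (.cons 0x4325761890 .nil) (.node 2 4 (.cons 0x3421567890 .nil) (.node 1 3 (.cons 0x8901324576 .nil) (.node 0 5 (.cons 0x6789051243 .nil) (.node 1 9 (.cons 0x8765091234 .nil) .done .done) .done) .done) .done) .done) (.node 1 6 (.cons 0x2345761890 .nil) (.node 1 4 (.cons 0x5762341890 .nil) (.node 4 7 (.cons 0x8901475623 .nil) (.node 4 8 (.cons 0x7654890123 .nil) (.node 7 9 (.cons 0x8410973265 .nil) .done .done) .done) .done) .done) .done)) (.node 7 9 .nil (.node 1 6 (.cons 0x2345761890 (.cons 0x6182345790 .nil)) (.node 3 6 (.cons 0x8907634512 (.cons 0x6345128970 (.cons 0x4563289710 .nil))) .done .done) (.node 4 7 .nil (.node 3 6 (.cons 0x8907634512 (.cons 0x3654798210 (.cons 0x7436512890 (.cons 0x9823654710 .nil)))) .done .done) .done)) .done))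 .done) .done)) .done)))
noncomputable def tc9_0_52 : T := (.node 3 6 (.cons 0x5632109874 (.cons 0x8901745632 .nil)) (.node 2 8 (.cons 0x4563289710 (.cons 0x3456712890 (.cons 0x5436709821 (.cons 0x5436712890 .nil)))) .done (.node 0 8 (.cons 0x2365479801 (.cons 0x9801745632 .nil)) (.node 5 9 (.cons 0x4789563210 (.cons 0x4598076321 (.cons 0x6345980712 .nil))) (.node 0 4 (.cons 0x8765904321 (.cons 0x2178956340 (.cons 0x9804563271 .nil))) .done .done) (.node 2 9 (.cons 0x5436708921 (.cons 0x5634712980 (.cons 0x5436712980 .nil))) .done .done)) (.node 5 8 (.cons 0x6709854321 (.cons 0x2174365890 (.cons 0x4710985632 (.cons 0x4712365890 .nil)))) (.node 3 9 (.cons 0x6701239854 (.cons 0x6745893210 .nil)) (.node 0 6 (.cons 0x9321065874 (.cons 0x5609871234 (.cons 0x6017458932 (.cons 0x2174398560 .nil)))) .done .done) .done) .done))) (.node 5 7 .nil (.node 4 8 (.cons 0x7654890123 (.cons 0x6754890123 (.cons 0x6571234890 .nil))) (.node 0 2 (.cons 0x5671209843 (.cons 0x6571209843 .nil)) (.node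 1 8 (.cons 0x1897654320 (.cons 0x6547981023 (.cons 0x6754321890 .nil))) .done (.node 1 8 (.cons 0x8179023456 (.cons 0x6754321890 .nil)) (.node 0 4 (.cons 0x5678904321 (.cons 0x6578904321 .nil)) (.node 0 8 (.cons 0x9765432081 (.cons 0x9718023456 .nil)) .done .done) .done) .done)) (.node 2 6 (.cons 0x7109845623 (.cons 0x3267548901 (.cons 0x1756234890 .nil))) (.node 3 9 (.cons 0x5489326701 (.cons 0x6239845710 (.cons 0x4893265710 .nil))) .done (.node 4 6 (.cons 0x5643217890 (.cons 0x1234657890 .nil)) (.node 0 2 (.cons 0x3465789021 (.cons 0x9845671023 (.cons 0x8902175643 .nil))) .done .done) .done)) .done)) (.node 0 5 (.cons 0x6509871234 .nil) (.node 3 9 (.cons 0x6501239874 (.cons 0x8932105476 (.cons 0x8932105674 .nil))) (.node 3 8 (.cons 0x9832105476 (.cons 0x4567109832 .nil)) (.node 1 9 (.cons 0x8912347650 (.cons 0x6705438912 .nil)) (.node 4 6 (.cons 0x9832107645 (.cons 0x4650197832 (.cons 0x8734650912 (.cons 0x6450723891 .nil)))) .done (.node 4 6 (.cons 0x9832107645 (.cons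 0x8764321905 (.cons 0x3891276450 (.cons 0x1983276450 .nil)))) .done .done)) (.node 1 8 (.cons 0x9812345076 .nil) (.node 2 6 (.cons 0x3457621890 (.cons 0x4562389710 (.cons 0x8126754390 (.cons 0x4798326501 .nil)))) .done (.node 2 9 (.cons 0x6509218734 (.cons 0x8129054376 (.cons 0x8129056734 .nil))) .done .done)) .done)) .done) (.node 1 5 (.cons 0x4321567890 .nil) (.node 4 9 (.cons 0x8765094321 (.cons 0x8712349056 .nil)) (.node 0 4 (.cons 0x9876512340 .nil) (.node 3 6 (.cons 0x9874012365 (.cons 0x8971045632 (.cons 0x8904365712 (.cons 0x8904563271 .nil)))) .done (.node 2 5 (.cons 0x3409876521 (.cons 0x6521789043 .nil)) .done (.node 2 5 (.cons 0x6789401523 (.cons 0x6523409871 .nil)) .done .done))) (.node 0 4 (.cons 0x9876512340 .nil) (.node 3 6 (.cons 0x3651278940 (.cons 0x8971045632 (.cons 0x8904365712 (.cons 0x8904563271 .nil)))) .done (.node 2 5 (.cons 0x6523409871 .nil) (.node 1 8 (.cons 0x6521873490 (.cons 0x6781250943 (.cons 0x6709812543 .nil))) .done .done) .done)) .done))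 (.node 0 4 (.cons 0x5678904321 (.cons 0x6517890432 .nil)) (.node 3 6 (.cons 0x9874012365 (.cons 0x8971045632 (.cons 0x8904365712 (.cons 0x8904563271 .nil)))) .done (.node 2 5 (.cons 0x3409876521 .nil) (.node 4 9 (.cons 0x8765094321 (.cons 0x8712349056 .nil)) (.node 3 9 (.cons 0x1256789340 (.cons 0x6521789340 .nil)) (.node 0 3 (.cons 0x8930472156 (.cons 0x8945230176 .nil)) (.node 0 8 (.cons 0x6512740893 (.cons 0x6710894523 .nil)) .done .done) .done) .done) .done) .done)) .done)) (.node 0 4 (.cons 0x5678904321 .nil) (.node 5 9 (.cons 0x8765904321 (.cons 0x8712340956 .nil)) (.node 5 8 (.cons 0x6709854321 (.cons 0x9043217856 .nil)) (.node 3 8 (.cons 0x4095678321 (.cons 0x4567109832 .nil)) (.node 6 9 (.cons 0x7456983210 (.cons 0x8340965712 (.cons 0x5690438712 .nil))) .done (.node 0 6 (.cons 0x1238954760 (.cons 0x9583217604 (.cons 0x5438906712 .nil))) .done .done)) .done) .done) (.node 3 6 (.cons 0x9874012365 (.cons 0x8971045632 (.cons 0x8904365712 (.cons 0x8904563271 .nil))))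 .done (.node 3 5 (.cons 0x6534098712 .nil) (.node 3 9 (.cons 0x6539874012 (.cons 0x8935674012 .nil)) (.node 2 5 (.cons 0x6789352104 (.cons 0x6521789043 .nil)) (.node 6 8 (.cons 0x5476893210 (.cons 0x1276893540 (.cons 0x8671254390 (.cons 0x8671093254 (.cons 0x8671254093 .nil))))) .done .done) .done) (.node 2 5 (.cons 0x3409876521 (.cons 0x6521789043 .nil)) (.node 3 8 (.cons 0x9043876521 (.cons 0x9043871256 (.cons 0x4567109832 .nil))) (.node 6 9 (.cons 0x5476983210 (.cons 0x8340967125 (.cons 0x8345217690 (.cons 0x2176983540 .nil)))) .done .done) .done) .done)) .done))) .done))) .done)) (.node 5 7 .nil (.node 4 8 (.cons 0x7654890123 (.cons 0x6754890123 (.cons 0x6571234890 .nil))) (.node 0 3 (.cons 0x6548971032 (.cons 0x9845671032 .nil)) (.node 1 8 (.cons 0x6547218903 (.cons 0x6754309812 .nil)) .done (.node 3 9 (.cons 0x7654893210 (.cons 0x6574893012 (.cons 0x6754893210 .nil))) .done .done)) (.node 0 4 (.cons 0x5678904321 (.cons 0x6578904321 .nil)) (.node 4 6 (.cons 0x5643217890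 (.cons 0x1234657890 .nil)) (.node 0 2 (.cons 0x9846571023 (.cons 0x9845671023 .nil)) (.node 1 6 (.cons 0x8907612345 (.cons 0x9023487561 (.cons 0x8902165743 (.cons 0x8902167543 .nil)))) .done .done) .done) .done) .done)) (.node 0 4 (.cons 0x5678904321 .nil) (.node 5 9 (.cons 0x8765904321 (.cons 0x8712340956 .nil)) (.node 5 8 (.cons 0x6709854321 (.cons 0x9043217856 .nil)) (.node 1 9 (.cons 0x6587190432 (.cons 0x8567190432 .nil)) (.node 0 5 (.cons 0x6509871234 .nil) (.node 6 8 (.cons 0x3276854091 (.cons 0x7689123450 (.cons 0x8673450912 (.cons 0x8673219054 .nil)))) .done .done) .done) (.node 3 9 (.cons 0x6587123904 (.cons 0x8540932176 (.cons 0x8567123904 .nil))) (.node 2 8 (.cons 0x3409567821 (.cons 0x1287659340 (.cons 0x8210937456 .nil))) (.node 3 6 (.cons 0x5476398210 (.cons 0x4095821763 (.cons 0x9045823671 .nil))) .done .done) .done) .done)) (.node 5 8 (.cons 0x6709854321 (.cons 0x9043217856 .nil)) (.node 2 9 (.cons 0x6587129043 (.cons 0x8567129043 .nil)) (.node 1 8 (.cons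 0x8104567923 (.cons 0x6734581290 .nil)) (.node 3 6 (.cons 0x3654721890 (.cons 0x3659218740 (.cons 0x9218570436 (.cons 0x4563271890 .nil)))) .done .done) (.node 0 8 (.cons 0x6734580921 .nil) (.node 0 6 (.cons 0x8543760921 (.cons 0x9806571234 (.cons 0x6089217543 (.cons 0x6089234571 .nil)))) .done (.node 1 5 (.cons 0x8092345176 .nil) (.node 2 6 (.cons 0x3458907621 (.cons 0x9807154326 (.cons 0x3458092671 (.cons 0x6290851734 .nil)))) .done .done) .done)) .done)) (.node 4 8 (.cons 0x7654890123 (.cons 0x6590487123 .nil)) (.node 0 3 (.cons 0x9567840321 (.cons 0x6548971032 (.cons 0x4895671230 (.cons 0x9845671032 .nil)))) .done (.node 3 5 (.cons 0x6784095321 .nil) (.node 0 6 (.cons 0x8459067321 (.cons 0x8906534712 (.cons 0x4356098712 (.cons 0x6098453271 .nil)))) .done .done) .done)) .done)) .done)) (.node 3 6 (.cons 0x9875632104 (.cons 0x8971045632 (.cons 0x8904563271 .nil))) (.node 2 8 (.cons 0x9821047563 (.cons 0x6540179823 (.cons 0x5634712890 .nil))) (.node 3 5 (.cons 0x9821047536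 (.cons 0x6710982354 .nil)) (.node 3 8 (.cons 0x5638904721 (.cons 0x6540179832 (.cons 0x6540983271 .nil))) .done .done) .done) .done) (.node 1 5 (.cons 0x6517890432 .nil) (.node 2 5 (.cons 0x6523409871 .nil) (.node 1 8 (.cons 0x6540981723 (.cons 0x9043251876 (.cons 0x6709812543 .nil))) (.node 0 3 (.cons 0x4567981032 (.cons 0x9817230456 (.cons 0x9812567430 .nil))) .done .done) .done) (.node 3 8 (.cons 0x6709834512 (.cons 0x6540983271 (.cons 0x4567109832 .nil))) (.node 1 8 (.cons 0x6540981723 .nil) (.node 2 8 (.cons 0x6709821543 .nil) (.node 0 6 (.cons 0x9812345760 (.cons 0x8234560971 (.cons 0x9823406571 (.cons 0x7128906543 .nil)))) .done .done) .done) (.node 2 5 (.cons 0x6745210983 (.cons 0x6523409871 .nil)) (.node 6 9 (.cons 0x4576983210 (.cons 0x8340967152 (.cons 0x8345217690 (.cons 0x8325409671 .nil)))) .done .done) .done)) .done)) .done))) .done)) .done)))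
noncomputable def tc9_0_53 : T := (.node 6 8 (.cons 0x7123456890 (.cons 0x7456890123 (.cons 0x3217456890 .nil))) (.node 3 6 (.cons 0x5632109874 (.cons 0x8901745632 .nil)) (.node 2 8 (.cons 0x8210973654 (.cons 0x3456712890 (.cons 0x5436712890 .nil))) .done (.node 5 8 (.cons 0x6709854321 (.cons 0x2174365890 (.cons 0x4710985632 (.cons 0x4712365890 .nil)))) .done .done)) (.node 0 3 (.cons 0x3098654721 (.cons 0x5430986712 (.cons 0x5689034712 .nil))) (.node 0 8 (.cons 0x9086543712 .nil) (.node 1 9 (.cons 0x7345680912 (.cons 0x5437680912 (.cons 0x5674321980 .nil))) .done .done) .done) (.node 0 2 (.cons 0x5689023471 (.cons 0x5432098671 .nil)) (.node 1 3 (.cons 0x8976543120 (.cons 0x1327456890 (.cons 0x5476890132 (.cons 0x8902134765 .nil)))) .done (.node 1 9 (.cons 0x5687190234 (.cons 0x8671902345 .nil)) (.node 1 3 (.cons 0x8654317902 (.cons 0x5476890132 .nil)) (.node 2 9 (.cons 0x8654317920 (.cons 0x5476892310 .nil)) .done .done) .done) .done)) .done))) (.node 5 7 .nil (.node 4 8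 (.cons 0x7654890123 (.cons 0x6754890123 (.cons 0x6571234890 .nil))) (.node 0 2 (.cons 0x5671209843 (.cons 0x6571209843 .nil)) (.node 1 8 (.cons 0x3456798120 (.cons 0x8120973456 (.cons 0x6754321890 .nil))) .done (.node 0 4 (.cons 0x5678904321 (.cons 0x6578904321 .nil)) (.node 1 8 (.cons 0x6540981723 (.cons 0x6754321890 .nil)) (.node 2 9 (.cons 0x7654018923 (.cons 0x6571892340 (.cons 0x6754018923 .nil))) .done .done) .done) .done)) (.node 3 6 (.cons 0x1723654890 (.cons 0x2367548901 (.cons 0x4890175632 .nil))) (.node 2 9 (.cons 0x5489236701 (.cons 0x6329845710 (.cons 0x4892365710 .nil))) .done (.node 2 8 (.cons 0x9823654710 (.cons 0x4576328901 .nil)) (.node 4 9 (.cons 0x5498236701 (.cons 0x6328945710 .nil)) .done .done) .done)) .done)) (.node 0 5 (.cons 0x6509871234 .nil) (.node 1 9 (.cons 0x8912347650 .nil) (.node 1 8 (.cons 0x9812345076 .nil) (.node 3 9 (.cons 0x8932105476 (.cons 0x8932105674 (.cons 0x6745018932 .nil))) (.node 2 6 (.cons 0x4576239810 (.cons 0x8126790543 (.cons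 0x4326750981 .nil))) (.node 0 3 (.cons 0x8974562103 (.cons 0x8910326574 (.cons 0x5623019874 .nil))) .done .done) .done) (.node 2 9 (.cons 0x8129054376 (.cons 0x8129056734 .nil)) (.node 0 8 (.cons 0x8019237456 .nil) (.node 2 6 (.cons 0x3456217980 (.cons 0x8097126543 (.cons 0x3479805621 .nil))) .done .done) .done) .done)) (.node 6 8 (.cons 0x7689123450 (.cons 0x8673450912 (.cons 0x3219867450 .nil))) (.node 0 2 (.cons 0x8675432091 (.cons 0x8654379021 .nil)) (.node 0 3 (.cons 0x5689743021 (.cons 0x5476891032 .nil)) .done .done) (.node 0 2 (.cons 0x8671902345 (.cons 0x9865471023 (.cons 0x5023476891 .nil))) .done .done)) .done)) (.node 4 9 (.cons 0x8765094321 (.cons 0x8712349056 .nil)) (.node 1 9 (.cons 0x8765091234 .nil) (.node 4 8 (.cons 0x9056784321 (.cons 0x6509178432 .nil)) (.node 3 6 (.cons 0x8456379012 (.cons 0x8436509712 (.cons 0x1723654890 .nil))) (.node 0 2 (.cons 0x8945763201 (.cons 0x8945710236 (.cons 0x5634897120 .nil))) .done .done) (.node 3 9 (.cons 0x8456739012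 (.cons 0x8439056712 .nil)) (.node 0 2 (.cons 0x8932017456 (.cons 0x5671209843 .nil)) (.node 1 6 (.cons 0x8456193720 (.cons 0x3487561902 (.cons 0x8916574320 (.cons 0x8743916502 .nil)))) .done .done) .done) .done)) (.node 4 8 (.cons 0x9056784321 .nil) (.node 2 6 (.cons 0x3265748910 (.cons 0x8432657190 (.cons 0x1756234890 .nil))) (.node 0 3 (.cons 0x8945762301 (.cons 0x8971265430 (.cons 0x5621798430 (.cons 0x6548903271 .nil)))) .done .done) (.node 2 9 (.cons 0x3487650921 (.cons 0x6509217843 .nil)) .done (.node 2 9 (.cons 0x8456732901 (.cons 0x6509234871 .nil)) .done .done))) .done)) (.node 2 8 (.cons 0x8237654901 (.cons 0x3289456710 (.cons 0x6509432871 .nil))) (.node 3 8 (.cons 0x6790543821 (.cons 0x2389456710 (.cons 0x4567109832 .nil))) (.node 0 6 (.cons 0x3897456012 (.cons 0x5601749832 (.cons 0x4560983271 .nil))) (.node 1 6 (.cons 0x9450617283 (.cons 0x8327165490 (.cons 0x8327165094 .nil))) .done .done) .done) .done) .done)) (.node 2 8 (.cons 0x6712890543 .nil) (.node 1 9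 (.cons 0x6509128734 (.cons 0x8219054376 (.cons 0x8219056734 .nil))) .done (.node 0 3 (.cons 0x1289765430 (.cons 0x9821765034 (.cons 0x9823017654 .nil))) (.node 6 9 (.cons 0x3450769821 (.cons 0x8965034712 (.cons 0x8965471032 (.cons 0x8965471230 .nil)))) .done .done) (.node 3 6 (.cons 0x3654798210 (.cons 0x9821705436 (.cons 0x9821743650 (.cons 0x9823654710 .nil)))) .done .done))) .done))) .done)) (.node 5 7 .nil (.node 4 8 (.cons 0x7654890123 (.cons 0x6754890123 (.cons 0x6571234890 .nil))) (.node 2 8 (.cons 0x6547109823 .nil) (.node 3 6 (.cons 0x9736548210 (.cons 0x9845701236 (.cons 0x4756328901 (.cons 0x4576328901 .nil)))) (.node 1 9 (.cons 0x7456328910 (.cons 0x5476328910 (.cons 0x4756328910 .nil))) .done .done) (.node 0 6 (.cons 0x5432890671 (.cons 0x3457609821 (.cons 0x9843217560 .nil))) (.node 3 8 (.cons 0x8345609712 (.cons 0x4567109832 (.cons 0x6097543821 .nil))) .done .done) .done)) (.node 0 4 (.cons 0x5678904321 (.cons 0x6578904321 .nil)) (.node 0 2 (.cons 0x5671209843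 (.cons 0x6571209843 .nil)) (.node 1 8 (.cons 0x3456798120 (.cons 0x8120973456 (.cons 0x6754321890 .nil))) .done .done) .done) .done)) (.node 3 8 (.cons 0x6547109832 (.cons 0x4567109832 .nil)) (.node 1 5 (.cons 0x6709834512 .nil) (.node 4 9 (.cons 0x8765123490 (.cons 0x6510947832 (.cons 0x6754983210 .nil))) .done (.node 4 6 (.cons 0x9832107645 (.cons 0x2156438790 (.cons 0x6451270983 .nil))) (.node 4 9 (.cons 0x8732109465 (.cons 0x6754983210 .nil)) .done .done) .done)) (.node 4 9 (.cons 0x7654983210 .nil) (.node 0 6 (.cons 0x1234987560 (.cons 0x8712349065 (.cons 0x8943217560 (.cons 0x1723894560 .nil)))) (.node 2 5 (.cons 0x8734906521 (.cons 0x9438712560 (.cons 0x9834521706 .nil))) .done .done) (.node 2 8 (.cons 0x6547109823 .nil) (.node 4 8 (.cons 0x6548210973 (.cons 0x9012845673 .nil)) .done (.node 3 5 (.cons 0x6745328901 (.cons 0x6710982354 .nil)) (.node 0 6 (.cons 0x8945760123 (.cons 0x4356098712 (.cons 0x5432890671 .nil))) (.node 0 5 (.cons 0x9760543821 (.cons 0x6712890543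 (.cons 0x6710549832 .nil))) .done (.node 6 8 (.cons 0x2357498601 (.cons 0x2175349860 (.cons 0x4986017532 (.cons 0x6890712354 .nil)))) .done .done)) .done) .done)) .done)) (.node 2 5 (.cons 0x6745238901 .nil) (.node 0 8 (.cons 0x6790834521 (.cons 0x9083452176 .nil)) (.node 6 9 (.cons 0x4576983210 (.cons 0x4321756980 (.cons 0x4325690871 (.cons 0x6908325471 .nil)))) .done (.node 4 9 (.cons 0x6754983210 (.cons 0x6523490871 .nil)) (.node 1 9 (.cons 0x8091765234 .nil) (.node 2 6 (.cons 0x3267549801 (.cons 0x5498017623 (.cons 0x4326571980 .nil))) .done .done) .done) .done)) (.node 0 6 (.cons 0x9832106754 (.cons 0x8345217906 (.cons 0x8906523471 (.cons 0x5438906712 (.cons 0x4325609871 .nil))))) .done .done)) .done))) .done)) .done)))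
noncomputable def tc9_0_54 : T := (.node 6 8 (.cons 0x7123456890 (.cons 0x7456890123 (.cons 0x3217456890 .nil))) (.node 3 6 (.cons 0x5632109874 (.cons 0x8901745632 .nil)) (.node 5 8 (.cons 0x6709854321 (.cons 0x6345890712 (.cons 0x4589076321 (.cons 0x4589017632 .nil)))) .done (.node 5 8 (.cons 0x6709854321 (.cons 0x2174365890 (.cons 0x4710985632 (.cons 0x4712365890 .nil)))) .done .done)) (.node 0 3 (.cons 0x9865472103 (.cons 0x5430986712 (.cons 0x5689034712 .nil))) (.node 0 8 (.cons 0x9086543712 .nil) (.node 1 9 (.cons 0x2719865430 (.cons 0x5437680912 (.cons 0x3456721980 (.cons 0x5674321980 .nil)))) .done .done) .done) (.node 0 2 (.cons 0x5689023471 (.cons 0x5432098671 .nil)) (.node 1 5 (.cons 0x9867023451 (.cons 0x9023478651 (.cons 0x6512098743 .nil))) .done (.node 2 5 (.cons 0x3254768901 (.cons 0x6890174523 .nil)) (.node 0 4 (.cons 0x3409876521 (.cons 0x6523409871 .nil)) .done (.node 1 3 (.cons 0x6890713254 (.cons 0x4523176890 (.cons 0x4713256890 .nil))) (.node 2 6 (.cons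 0x5432689071 (.cons 0x9862310745 .nil)) (.node 0 5 (.cons 0x6509871234 (.cons 0x6509874321 (.cons 0x8905621743 (.cons 0x8905623471 .nil)))) .done .done) .done) .done)) .done)) .done))) (.node 0 4 (.cons 0x5678904321 .nil) (.node 0 2 (.cons 0x8902176543 .nil) (.node 0 5 (.cons 0x6509871234 .nil) (.node 2 4 (.cons 0x6509871243 .nil) (.node 1 4 (.cons 0x9876502143 .nil) (.node 1 3 (.cons 0x9876502134 (.cons 0x8902134765 .nil)) (.node 0 6 (.cons 0x5609871432 .nil) (.node 5 8 (.cons 0x6709854321 (.cons 0x9850671243 (.cons 0x9043217856 (.cons 0x6710985423 (.cons 0x6745890213 .nil))))) .done .done) .done) .done) .done) (.node 1 4 (.cons 0x9876502341 (.cons 0x6509871432 .nil)) (.node 2 4 (.cons 0x8901765423 .nil) (.node 0 6 (.cons 0x5609871243 .nil) (.node 5 7 (.cons 0x8906571234 .nil) (.node 2 5 (.cons 0x6789052341 .nil) (.node 2 6 (.cons 0x8905417623 .nil) .done .done) .done) .done) .done) .done) .done)) (.node 3 6 (.cons 0x5634789021 (.cons 0x8902174365 .nil)) (.node 0 5 (.cons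 0x9874365021 (.cons 0x9871205634 .nil)) (.node 1 4 (.cons 0x9871432056 (.cons 0x6509871432 .nil)) (.node 2 4 (.cons 0x9876324105 .nil) .done .done) .done) (.node 2 4 (.cons 0x8901763245 .nil) (.node 1 5 (.cons 0x9874201563 (.cons 0x3651098742 (.cons 0x3421567890 .nil))) (.node 4 8 (.cons 0x9845632017 (.cons 0x9845632710 (.cons 0x5489017632 (.cons 0x9015678423 .nil)))) .done .done) .done) .done)) (.node 3 8 (.cons 0x5674389021 (.cons 0x4567109832 .nil)) (.node 5 9 (.cons 0x8765904321 (.cons 0x6598347120 (.cons 0x4389567120 .nil))) (.node 4 9 (.cons 0x7654983210 (.cons 0x6594017832 .nil)) (.node 0 5 (.cons 0x9834765021 (.cons 0x6509871234 .nil)) (.node 2 4 (.cons 0x3895674201 (.cons 0x6509871243 .nil)) .done .done) .done) (.node 0 3 (.cons 0x4765983021 (.cons 0x6598302174 .nil)) (.node 0 5 (.cons 0x9834765021 (.cons 0x6509871234 .nil)) (.node 2 9 (.cons 0x6705438921 (.cons 0x6547103892 (.cons 0x6712983450 .nil))) .done .done) .done) .done)) (.node 7 9 (.cons 0x8321790456 .nil)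 (.node 5 7 (.cons 0x6574389021 .nil) (.node 5 9 (.cons 0x8765904321 (.cons 0x8712340956 (.cons 0x6590438712 .nil))) .done .done) .done) (.node 0 6 (.cons 0x5438906712 .nil) (.node 0 5 (.cons 0x6509871234 (.cons 0x9834506721 .nil)) (.node 3 5 (.cons 0x6745389012 (.cons 0x9835476012 (.cons 0x9835472106 .nil))) .done .done) (.node 2 5 (.cons 0x6745210983 (.cons 0x4325609871 (.cons 0x4523890671 .nil))) (.node 0 8 (.cons 0x9806543271 (.cons 0x9083452176 .nil)) (.node 1 9 (.cons 0x8917234560 (.cons 0x5432760891 (.cons 0x8091256743 (.cons 0x3456721980 .nil)))) .done .done) .done) .done)) .done))) .done))) (.node 5 7 (.cons 0x6578904321 .nil) (.node 7 9 .nil (.node 3 6 (.cons 0x8972365401 (.cons 0x5634098712 (.cons 0x8971045632 .nil))) (.node 5 8 (.cons 0x6709854321 (.cons 0x2179856340 (.cons 0x2174365890 (.cons 0x3658904712 .nil)))) .done .done) (.node 6 8 (.cons 0x8654097321 (.cons 0x3217986540 (.cons 0x9865401723 .nil))) (.node 0 8 (.cons 0x6540897123 .nil) (.node 1 9 (.cons 0x9127345680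 (.cons 0x5437680912 (.cons 0x6572340891 (.cons 0x3456721980 .nil)))) .done (.node 6 9 (.cons 0x5698043271 (.cons 0x8965401723 .nil)) (.node 1 8 (.cons 0x8123796540 (.cons 0x5437096812 (.cons 0x6981045723 .nil))) .done .done) .done)) (.node 0 3 (.cons 0x9865403271 .nil) (.node 0 8 (.cons 0x9803456721 .nil) (.node 1 3 (.cons 0x6540897132 (.cons 0x9865472130 (.cons 0x5476890312 (.cons 0x4098657132 .nil)))) .done .done) (.node 3 5 (.cons 0x9865304721 (.cons 0x9865304712 (.cons 0x6890712354 .nil))) .done .done)) .done)) .done)) (.node 7 9 .nil (.node 3 6 (.cons 0x4098756321 (.cons 0x8971045632 .nil)) (.node 5 8 (.cons 0x6709854321 (.cons 0x2179856340 (.cons 0x2174365890 (.cons 0x9856327104 .nil)))) .done .done) (.node 3 6 (.cons 0x8972365401 (.cons 0x8971045632 .nil)) (.node 5 8 (.cons 0x6709854321 (.cons 0x4017985632 (.cons 0x2174365890 (.cons 0x9856327104 .nil)))) (.node 4 9 (.cons 0x7210498563 .nil) (.node 0 3 (.cons 0x6304985721 .nil) (.node 0 5 (.cons 0x1276349850 (.cons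 0x8509436712 .nil)) .done .done) .done) .done) (.node 4 9 (.cons 0x5632789401 .nil) (.node 2 8 (.cons 0x3654710982 (.cons 0x6328904571 .nil)) (.node 1 3 (.cons 0x4567982310 (.cons 0x9827456310 (.cons 0x5476310982 (.cons 0x5674312890 .nil)))) .done (.node 1 4 (.cons 0x9041782365 .nil) (.node 0 3 (.cons 0x1456798230 .nil) (.node 1 5 (.cons 0x8236715490 (.cons 0x4715630982 (.cons 0x9827156304 .nil))) .done .done) .done) .done)) .done) .done)) .done)) .done)) (.node 3 8 (.cons 0x9832765401 (.cons 0x9832710456 (.cons 0x4567109832 .nil))) (.node 4 9 (.cons 0x7654983210 .nil) (.node 3 6 (.cons 0x5632789401 (.cons 0x8940172365 (.cons 0x8945632710 .nil))) .done (.node 4 8 (.cons 0x7654890123 .nil) (.node 3 6 (.cons 0x9840172365 (.cons 0x9845632710 .nil)) (.node 3 9 (.cons 0x8936547210 (.cons 0x5639847210 (.cons 0x6548932710 .nil))) .done .done) .done) .done)) (.node 4 8 (.cons 0x7654890123 .nil) (.node 3 9 (.cons 0x7654893210 (.cons 0x8932710456 (.cons 0x5671048932 (.cons 0x2398456710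 .nil)))) .done (.node 3 6 (.cons 0x5476389012 (.cons 0x9840172365 (.cons 0x9845632710 .nil))) (.node 2 8 (.cons 0x3289045671 .nil) (.node 6 9 (.cons 0x5690123784 (.cons 0x5698401723 (.cons 0x9637012845 (.cons 0x7328456901 (.cons 0x5489632170 .nil))))) .done .done) .done) .done)) .done)) .done))) (.node 3 8 (.cons 0x6547109832 (.cons 0x4567109832 .nil)) (.node 2 8 (.cons 0x6547109823 .nil) (.node 4 6 (.cons 0x9832107645 (.cons 0x9012837645 .nil)) (.node 3 5 (.cons 0x2356478901 (.cons 0x7645328901 .nil)) (.node 7 9 (.cons 0x3546798210 .nil) (.node 6 9 (.cons 0x4538967012 (.cons 0x4532896710 .nil)) (.node 1 5 (.cons 0x7469823510 (.cons 0x6709834512 .nil)) (.node 5 7 (.cons 0x4382157690 .nil) .done .done) .done) .done) .done) (.node 7 9 (.cons 0x5467901283 .nil) (.node 0 4 (.cons 0x5678904321 (.cons 0x5640978321 .nil)) (.node 1 5 (.cons 0x9043876512 (.cons 0x4651238790 (.cons 0x3821546790 .nil))) (.node 3 5 (.cons 0x6534098712 (.cons 0x6710982354 .nil)) .done .done) .done) .done)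 .done)) (.node 0 4 (.cons 0x5678904321 (.cons 0x9045673821 .nil)) (.node 1 9 (.cons 0x6547238910 (.cons 0x4567382190 .nil)) (.node 5 7 (.cons 0x6754091283 (.cons 0x8321904576 .nil)) .done (.node 5 8 (.cons 0x9104765832 (.cons 0x9104723856 (.cons 0x9127658340 (.cons 0x8567190432 .nil)))) .done .done)) (.node 6 8 (.cons 0x9045682173 (.cons 0x9045682371 .nil)) (.node 7 9 (.cons 0x6540973821 (.cons 0x3217986540 .nil)) .done .done) .done)) .done)) (.node 7 9 (.cons 0x4567983210 .nil) (.node 4 9 (.cons 0x7654983210 .nil) (.node 0 6 (.cons 0x8379456012 (.cons 0x8712349065 (.cons 0x5601749832 (.cons 0x7106549832 .nil)))) (.node 2 5 (.cons 0x8734906521 (.cons 0x9438712560 (.cons 0x9834521706 (.cons 0x6071254983 .nil)))) .done .done) (.node 5 7 (.cons 0x6754983210 .nil) (.node 2 4 (.cons 0x3897654210 .nil) (.node 0 4 (.cons 0x5678904321 .nil) (.node 2 6 (.cons 0x5621798340 (.cons 0x3897126540 .nil)) (.node 1 3 (.cons 0x2654798310 (.cons 0x6213897540 (.cons 0x8904756231 .nil))) .done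 .done) (.node 2 5 (.cons 0x3409876521 (.cons 0x6521789043 .nil)) .done .done)) (.node 3 6 (.cons 0x7983654210 (.cons 0x8901742365 (.cons 0x2456389710 .nil))) .done .done)) .done) .done)) (.node 5 7 .nil (.node 4 8 (.cons 0x7654890123 (.cons 0x6754890123 (.cons 0x6571234890 .nil))) (.node 0 4 (.cons 0x1238976540 (.cons 0x6578904321 .nil)) (.node 1 8 (.cons 0x7654321890 (.cons 0x9043218756 (.cons 0x6754321890 .nil))) .done .done) .done) (.node 5 9 (.cons 0x6701238954 .nil) (.node 0 4 (.cons 0x1238976540 (.cons 0x8712340956 .nil)) (.node 6 9 (.cons 0x2175698340 (.cons 0x7104569832 .nil)) (.node 1 5 (.cons 0x7896512340 (.cons 0x9651047832 .nil)) .done (.node 0 5 (.cons 0x3405698721 (.cons 0x9650438712 .nil)) (.node 2 6 (.cons 0x6238954701 (.cons 0x8345962170 (.cons 0x4056238971 (.cons 0x5407126983 .nil)))) .done .done) .done)) (.node 2 6 (.cons 0x6238954701 (.cons 0x9562178340 (.cons 0x7126598340 (.cons 0x6217045983 .nil)))) .done .done)) (.node 0 5 (.cons 0x6509871234 .nil)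 (.node 1 9 (.cons 0x6745019832 (.cons 0x4765019832 (.cons 0x6705438912 .nil))) (.node 4 6 (.cons 0x2389546701 (.cons 0x7891234650 (.cons 0x9105647832 (.cons 0x8734650912 .nil)))) .done .done) (.node 0 4 (.cons 0x1238976540 .nil) (.node 6 9 (.cons 0x4056978321 (.cons 0x2175698340 (.cons 0x9650438712 .nil))) .done (.node 0 2 (.cons 0x3897654021 (.cons 0x6540217983 (.cons 0x2043895671 .nil))) .done .done)) .done)) .done)) .done)) .done)) (.node 2 8 (.cons 0x6547109823 .nil) (.node 4 8 (.cons 0x9012845673 .nil) (.node 1 8 (.cons 0x9018237456 .nil) (.node 3 9 (.cons 0x7654893210 (.cons 0x6547390182 (.cons 0x2398456710 .nil))) (.node 0 3 (.cons 0x9812765430 (.cons 0x9845671032 .nil)) (.node 7 9 (.cons 0x9730128456 (.cons 0x6548971230 .nil)) .done .done) .done) .done) (.node 7 9 (.cons 0x6548210973 .nil) (.node 0 6 (.cons 0x8456097321 (.cons 0x8456097123 (.cons 0x7123489065 (.cons 0x3790654821 (.cons 0x9845601723 .nil))))) .done .done) .done)) (.node 2 5 (.cons 0x6745238901 .nil)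 (.node 2 6 (.cons 0x5476238901 .nil) (.node 1 8 (.cons 0x5623471890 .nil) (.node 1 3 (.cons 0x6547132890 .nil) (.node 4 8 (.cons 0x5674890132 .nil) (.node 6 9 (.cons 0x5698472310 (.cons 0x3487125690 (.cons 0x1784325690 (.cons 0x8471325690 .nil)))) .done (.node 0 3 (.cons 0x9034876521 (.cons 0x9034871256 (.cons 0x9031765284 .nil))) .done .done)) .done) (.node 0 2 (.cons 0x5620981743 .nil) (.node 0 5 (.cons 0x8905623471 (.cons 0x9052671834 .nil)) (.node 1 3 (.cons 0x9876502134 (.cons 0x6547132890 (.cons 0x5674318902 .nil))) .done .done) .done) .done)) .done) (.node 0 6 (.cons 0x8906523471 (.cons 0x5438906712 (.cons 0x4325609871 .nil))) (.node 1 8 (.cons 0x9065473281 (.cons 0x9065218734 .nil)) (.node 1 3 (.cons 0x6547132890 .nil) (.node 4 8 (.cons 0x5674890132 (.cons 0x9847231065 (.cons 0x9065284731 .nil))) .done .done) .done) (.node 4 6 (.cons 0x3256478901 (.cons 0x3465217890 .nil)) (.node 3 9 (.cons 0x8932107645 (.cons 0x8239065471 (.cons 0x8932564710 (.cons 0x4652398710 .nil))))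 .done .done) .done)) .done)) .done)) .done))) .done)))
noncomputable def uc9_0_8 : T := (.node 2 7 .nil (.node 1 8 (.cons 0x7654321890 (.cons 0x3456721890 (.cons 0x6543271890 .nil))) (.node 3 8 (.cons 0x4567109832 (.cons 0x1276543890 .nil)) (.node 6 8 (.cons 0x9012738654 (.cons 0x7123456890 (.cons 0x9017238654 .nil))) (.node 0 4 (.cons 0x5678904321 (.cons 0x9045683271 (.cons 0x9045683712 .nil))) (.node 6 9 (.cons 0x5432189670 (.cons 0x5698172340 (.cons 0x8372109654 .nil))) .done .done) .done) (.node 4 8 (.cons 0x7654890123 (.cons 0x6548901723 .nil)) (.node 1 5 (.cons 0x4321567890 (.cons 0x6721543890 .nil)) (.node 0 3 (.cons 0x9034876512 (.cons 0x9034872156 (.cons 0x9810327654 .nil))) (.node 3 9 (.cons 0x2156784390 (.cons 0x6512784390 (.cons 0x4567239810 .nil))) .done .done) (.node 0 6 (.cons 0x7890651234 (.cons 0x3489065172 (.cons 0x5438906712 (.cons 0x9065127843 .nil)))) .done .done)) .done) .done)) (.node 0 5 (.cons 0x6509871234 (.cons 0x6721890543 (.cons 0x6718905432 .nil)))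 (.node 4 8 (.cons 0x9056784321 (.cons 0x6548901723 .nil)) (.node 3 8 (.cons 0x4567109832 (.cons 0x1276543890 .nil)) (.node 4 7 (.cons 0x6547109832 (.cons 0x6547210983 .nil)) .done .done) (.node 3 8 (.cons 0x4567109832 (.cons 0x9012738456 .nil)) (.node 0 4 (.cons 0x5678904321 (.cons 0x9832710456 .nil)) .done .done) .done)) .done) .done)) (.node 4 7 .nil tc9_0_54 (.node 7 9 .nil (.node 3 8 (.cons 0x4567109832 (.cons 0x4567983210 .nil)) (.node 0 6 (.cons 0x4560983271 (.cons 0x8345609712 (.cons 0x7983210654 .nil))) (.node 0 4 (.cons 0x5678904321 (.cons 0x6540983271 (.cons 0x8971234065 (.cons 0x5604389712 (.cons 0x8321790456 .nil))))) .done .done) (.node 4 6 (.cons 0x5467109832 (.cons 0x5467983210 (.cons 0x8321097645 .nil))) (.node 2 5 (.cons 0x7645210983 (.cons 0x3465217890 (.cons 0x3897645210 .nil))) (.node 0 8 (.cons 0x9087125643 (.cons 0x6790834521 .nil)) (.node 1 3 (.cons 0x9087134652 (.cons 0x4567980132 (.cons 0x8097134652 .nil))) .done .done) .done) .done) .done)) (.node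 4 7 .nil tc9_0_53 (.node 4 7 .nil tc9_0_52 .done))) .done))) (.node 2 7 .nil (.node 1 8 (.cons 0x7654321890 (.cons 0x3456721890 .nil)) (.node 0 8 (.cons 0x9081273456 .nil) (.node 1 5 (.cons 0x4321567890 (.cons 0x9087651234 .nil)) (.node 3 6 (.cons 0x8907634512 (.cons 0x9807634512 (.cons 0x6345189072 .nil))) (.node 4 7 (.cons 0x5634721890 (.cons 0x2743651890 .nil)) .done .done) .done) (.node 1 6 (.cons 0x8907612345 (.cons 0x9081654327 (.cons 0x9081654372 .nil))) (.node 1 5 (.cons 0x4321567890 .nil) (.node 4 9 (.cons 0x8765123490 (.cons 0x5617234980 (.cons 0x8094327615 (.cons 0x5618094372 (.cons 0x6518723490 .nil))))) .done (.node 1 9 (.cons 0x2345671980 .nil) (.node 3 6 (.cons 0x8907634512 (.cons 0x2763451980 (.cons 0x6345189072 .nil))) .done .done) .done)) .done) .done)) (.node 3 8 (.cons 0x4567238901 .nil) (.node 1 5 (.cons 0x4321567890 (.cons 0x6709834512 .nil)) (.node 1 6 (.cons 0x8907612345 (.cons 0x5438907612 .nil)) (.node 1 3 (.cons 0x8901327654 .nil) (.node 4 7 (.cons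 0x8901327456 .nil) (.node 0 5 (.cons 0x6509874312 (.cons 0x7438905612 (.cons 0x6721890543 (.cons 0x6723450981 .nil)))) .done .done) .done) .done) (.node 1 3 (.cons 0x8901327654 .nil) (.node 1 6 (.cons 0x8907612345 (.cons 0x5438907612 .nil)) (.node 4 6 (.cons 0x9832107645 (.cons 0x3465127890 (.cons 0x1564327890 .nil))) (.node 5 8 (.cons 0x9854670123 (.cons 0x4312765890 (.cons 0x9078516432 (.cons 0x9076123854 .nil)))) .done .done) .done) .done) .done)) (.node 4 8 (.cons 0x7654890123 (.cons 0x3276548901 .nil)) (.node 3 6 (.cons 0x9845632710 .nil) (.node 7 9 (.cons 0x8456379012 (.cons 0x2365489710 .nil)) (.node 0 4 (.cons 0x1238976540 (.cons 0x8123679045 (.cons 0x9832765401 .nil))) (.node 2 5 (.cons 0x3679812540 (.cons 0x9763812540 (.cons 0x9871256340 (.cons 0x9836704521 .nil)))) .done .done) .done) (.node 4 7 (.cons 0x5632748901 .nil) (.node 0 4 (.cons 0x5678904321 (.cons 0x9832765401 .nil)) (.node 0 5 (.cons 0x8905634721 (.cons 0x6721890543 (.cons 0x6723450981 .nil))) (.node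 1 6 (.cons 0x8907612345 (.cons 0x9056123487 (.cons 0x9834507612 .nil))) .done .done) .done) .done) .done)) (.node 1 3 (.cons 0x5672134890 .nil) (.node 0 5 (.cons 0x9056784312 (.cons 0x6721890543 (.cons 0x6723450981 .nil))) (.node 1 9 (.cons 0x8437650912 (.cons 0x6705438912 .nil)) (.node 0 6 (.cons 0x5609127843 (.cons 0x8437219065 (.cons 0x7219834560 (.cons 0x8917234560 .nil)))) .done .done) (.node 1 6 (.cons 0x9056127843 (.cons 0x7216509843 (.cons 0x9834507216 .nil))) .done .done)) (.node 4 7 (.cons 0x8901327456 .nil) .done .done)) .done)) (.node 4 7 (.cons 0x6547210983 (.cons 0x6547238901 .nil)) .done .done))) .done)) (.node 1 5 (.cons 0x4321567890 .nil) tc9_0_51 .done)) (.node 1 8 (.cons 0x7654321890 .nil) tc9_0_50 .done)))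
theorem sub_c9_0_8 : root 9 refs9_0 [] 0x700000008704000000004060070050060500000000504000000004010000070010300000000302000000002018050000010 0xfe7fff6fff0fff9fffcfffedff75fff3fff9fedd 9 1 7 .nil uc9_0_8 = true := by decide +kernel
noncomputable def tc9_0_55 : T := (.node 0 5 .nil (.node 4 9 (.cons 0x8945673210 (.cons 0x6501237894 (.cons 0x8945012376 .nil))) (.node 3 8 (.cons 0x6738945012 .nil) (.node 0 6 (.cons 0x7389456012 .nil) (.node 2 5 (.cons 0x9401256783 (.cons 0x1256783490 .nil)) (.node 1 7 (.cons 0x8943712560 (.cons 0x6521783490 (.cons 0x8943712506 .nil))) .done (.node 1 4 (.cons 0x9801456732 (.cons 0x7389412560 (.cons 0x5214983760 .nil))) (.node 1 5 (.cons 0x2156783490 (.cons 0x9043876512 .nil)) (.node 1 9 (.cons 0x9140876523 (.cons 0x8376049125 (.cons 0x8376521940 .nil))) .done .done) .done) .done)) .done) (.node 1 7 (.cons 0x6543890712 (.cons 0x6509438712 (.cons 0x8905432176 .nil))) .done .done)) (.node 4 7 (.cons 0x6509874321 .nil) (.node 0 6 (.cons 0x5609874321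 .nil) (.node 1 7 (.cons 0x8905432176 .nil) (.node 2 4 (.cons 0x3249876501 .nil) (.node 1 6 (.cons 0x9801654237 (.cons 0x9870561243 (.cons 0x9873421650 .nil))) .done (.node 1 6 (.cons 0x9801673245 (.cons 0x5016789423 (.cons 0x5098761243 .nil))) .done .done)) .done) .done) (.node 2 4 (.cons 0x3249876501 .nil) (.node 1 5 (.cons 0x3249876510 (.cons 0x8765109423 (.cons 0x3421567890 .nil))) (.node 3 5 (.cons 0x8765324901 (.cons 0x4235678901 .nil)) .done .done) (.node 1 7 (.cons 0x9801732456 .nil) (.node 6 8 (.cons 0x5476890123 (.cons 0x9867450123 (.cons 0x9056871243 (.cons 0x3249056871 .nil)))) .done .done) .done)) .done)) .done)) (.node 1 7 (.cons 0x6509871234 .nil) (.node 1 5 (.cons 0x4321567890 .nil) (.node 4 7 (.cons 0x6509874321 .nil) (.node 0 6 (.cons 0x9874321506 .nil) (.node 1 6 (.cons 0x7890561234 .nil) (.node 1 4 (.cons 0x9801456732 .nil) (.node 2 7 (.cons 0x9806514327 .nil) (.node 7 9 (.cons 0x7980651432 .nil) (.node 0 2 (.cons 0x8973201456 .nil) (.node 0 3 (.cons 0x8976154302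 .nil) .done .done) .done) .done) .done) .done) .done) (.node 0 6 .nil (.node 4 9 (.cons 0x8945673210 (.cons 0x7894321560 (.cons 0x5123498760 .nil))) (.node 3 8 (.cons 0x6509438712 (.cons 0x7389456012 (.cons 0x5498376012 .nil))) .done .done) (.node 1 6 (.cons 0x2347890561 .nil) (.node 4 6 (.cons 0x7890564321 .nil) (.node 6 8 (.cons 0x9056871234 .nil) (.node 0 2 .nil (.node 1 9 (.cons 0x7891234650 (.cons 0x6519874320 (.cons 0x5437619802 (.cons 0x8915674320 .nil)))) .done (.node 0 3 .nil (.node 2 4 (.cons 0x9873421650 (.cons 0x7890342165 .nil)) .done .done) .done)) .done) .done) .done) .done)) .done)) (.node 3 8 (.cons 0x9043876512 .nil) (.node 1 8 (.cons 0x7654321890 .nil) (.node 1 6 (.cons 0x7098345612 .nil) (.node 0 6 .nil (.node 2 4 (.cons 0x3421567890 (.cons 0x9873421560 (.cons 0x9873421506 .nil))) (.node 2 9 (.cons 0x9234567180 (.cons 0x4378921560 (.cons 0x8921543760 (.cons 0x9243806517 (.cons 0x4560738921 .nil))))) .done .done) .done) .done) (.node 0 6 (.cons 0x7609812345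 .nil) (.node 1 6 (.cons 0x7098345612 .nil) (.node 0 2 (.cons 0x9834561207 .nil) (.node 0 3 (.cons 0x4309876512 .nil) .done .done) .done) .done) .done)) (.node 0 3 (.cons 0x4309876512 .nil) (.node 0 6 (.cons 0x7609834512 .nil) .done .done) .done)) .done)) (.node 0 6 (.cons 0x8906712345 .nil) (.node 4 7 (.cons 0x6509874321 .nil) (.node 4 6 (.cons 0x7890564321 .nil) (.node 7 9 (.cons 0x8971234605 .nil) (.node 0 3 (.cons 0x8971230546 .nil) (.node 0 2 .nil (.node 1 8 (.cons 0x5467981230 (.cons 0x9812076543 (.cons 0x9812073456 (.cons 0x5467981203 .nil)))) .done .done) .done) .done) (.node 0 2 (.cons 0x9873465021 .nil) (.node 0 3 .nil (.node 6 8 (.cons 0x5432176890 (.cons 0x9864503712 .nil)) (.node 2 9 (.cons 0x1298734650 (.cons 0x7456892301 (.cons 0x7129864305 (.cons 0x4650378921 .nil)))) .done .done) .done) .done) .done)) .done) .done) .done)) .done)) (.node 0 5 .nil (.node 4 9 (.cons 0x8945673210 (.cons 0x8945012376 .nil)) (.node 4 8 (.cons 0x9845673210 (.cons 0x9845012376 .nil))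 (.node 0 2 (.cons 0x8943765021 .nil) (.node 3 8 (.cons 0x5678349021 (.cons 0x6738945012 .nil)) (.node 1 7 (.cons 0x6543890712 (.cons 0x6509438712 (.cons 0x8905432176 .nil))) .done .done) (.node 6 8 (.cons 0x9865401237 (.cons 0x9867345021 (.cons 0x3768945021 .nil))) .done .done)) .done) (.node 4 8 (.cons 0x9845673210 (.cons 0x9845012376 .nil)) (.node 7 9 (.cons 0x8973210456 (.cons 0x6798450123 .nil)) (.node 1 6 (.cons 0x8973216540 (.cons 0x9784056123 (.cons 0x7984056123 (.cons 0x9873405612 .nil)))) (.node 3 9 (.cons 0x7654893210 (.cons 0x4398705612 (.cons 0x8934507612 (.cons 0x7650123984 .nil)))) .done .done) .done) (.node 3 9 (.cons 0x6739845012 (.cons 0x4893765012 .nil)) (.node 2 6 (.cons 0x5623789401 (.cons 0x9378401265 (.cons 0x7398401265 (.cons 0x8937045621 .nil)))) (.node 1 3 (.cons 0x9056784312 (.cons 0x2650789431 (.cons 0x5013267894 (.cons 0x7650984312 .nil)))) .done .done) (.node 4 6 (.cons 0x9873210465 (.cons 0x7893210564 (.cons 0x9378465012 .nil))) .done .done))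 .done)) .done)) (.node 5 7 (.cons 0x6578904321 .nil) (.node 3 5 .nil (.node 1 6 (.cons 0x2340987561 (.cons 0x9870435612 (.cons 0x7890435612 .nil))) (.node 1 4 (.cons 0x9801456732 (.cons 0x2143567890 .nil)) (.node 7 9 (.cons 0x8790432165 (.cons 0x6798014532 (.cons 0x9780416532 .nil))) .done (.node 2 6 (.cons 0x8901457623 (.cons 0x9870435621 (.cons 0x8907621435 (.cons 0x6235789041 .nil)))) .done .done)) (.node 2 8 (.cons 0x3456709821 (.cons 0x9821653407 (.cons 0x7098216534 (.cons 0x9821653704 .nil)))) (.node 0 6 (.cons 0x9821067354 .nil) (.node 1 5 (.cons 0x9823406157 (.cons 0x7890651234 (.cons 0x9821543760 .nil))) .done .done) .done) .done)) (.node 1 5 (.cons 0x4321567890 .nil) (.node 2 5 .nil (.node 1 4 (.cons 0x9801456732 (.cons 0x9087652341 (.cons 0x9801452376 (.cons 0x3412567890 .nil)))) .done (.node 5 9 (.cons 0x6598732104 .nil) (.node 5 8 .nil (.node 4 7 (.cons 0x6532109874 (.cons 0x6745890123 .nil)) (.node 1 9 (.cons 0x8765091234 (.cons 0x6587432190 (.cons 0x6785091234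 (.cons 0x8567432190 .nil)))) .done .done) .done) .done) .done)) (.node 0 6 (.cons 0x9873406512 .nil) (.node 0 2 (.cons 0x9873402156 .nil) (.node 0 3 (.cons 0x4309876512 .nil) .done .done) .done) .done)) .done)) (.node 0 6 .nil (.node 1 9 (.cons 0x8765091234 (.cons 0x8912375406 (.cons 0x8912375604 (.cons 0x5604378912 .nil)))) (.node 4 7 (.cons 0x8743219056 (.cons 0x8743219065 (.cons 0x8910654732 .nil))) (.node 5 8 (.cons 0x6745890123 (.cons 0x9854760123 (.cons 0x9854732106 .nil))) (.node 6 8 (.cons 0x9123478605 (.cons 0x5473219860 .nil)) .done .done) .done) .done) (.node 0 2 .nil (.node 4 9 (.cons 0x8945673210 (.cons 0x8945673201 .nil)) (.node 1 6 (.cons 0x5498016732 (.cons 0x3208945761 (.cons 0x9873402165 .nil))) (.node 1 4 (.cons 0x9801456732 (.cons 0x5678902143 .nil)) (.node 3 5 (.cons 0x8941235760 (.cons 0x9870214356 (.cons 0x9876532014 .nil))) .done .done) .done) (.node 1 5 (.cons 0x4321567890 (.cons 0x3498765120 (.cons 0x9873402156 .nil))) (.node 3 5 (.cons 0x6537894012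 .nil) (.node 5 9 (.cons 0x6598732104 .nil) .done .done) .done) .done)) (.node 0 3 .nil (.node 4 8 (.cons 0x9845673210 (.cons 0x6754890321 (.cons 0x9845673012 .nil))) (.node 1 9 (.cons 0x9123487650 (.cons 0x7560321984 (.cons 0x6754891230 (.cons 0x5670348912 (.cons 0x6754891203 .nil))))) .done .done) .done) .done)) .done)) .done)) .done)) (.node 4 9 (.cons 0x8945673210 .nil) (.node 0 6 (.cons 0x5601237894 .nil) (.node 0 5 (.cons 0x6501237894 .nil) (.node 0 2 .nil (.node 1 6 (.cons 0x7890561234 (.cons 0x5612078943 (.cons 0x8943702165 .nil))) (.node 1 5 (.cons 0x4321567890 (.cons 0x6512078943 .nil)) (.node 3 5 (.cons 0x5340987612 (.cons 0x4987356102 .nil)) .done .done) .done) (.node 0 3 .nil (.node 4 8 (.cons 0x9845673210 (.cons 0x9845673012 .nil)) (.node 1 4 (.cons 0x9801456732 (.cons 0x5678903412 .nil)) (.node 5 9 (.cons 0x3489567021 (.cons 0x7659843021 (.cons 0x9567841032 (.cons 0x9567841230 .nil)))) .done .done) .done) .done) .done)) .done) (.node 4 8 (.cons 0x9845673210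 .nil) (.node 2 4 .nil (.node 5 8 (.cons 0x7321065894 (.cons 0x9856073421 (.cons 0x3706589421 .nil))) (.node 1 7 (.cons 0x2173498560 (.cons 0x5890671243 .nil)) (.node 3 8 (.cons 0x6549837012 (.cons 0x9837012456 (.cons 0x9067124385 .nil))) .done .done) .done) (.node 1 4 (.cons 0x9801456732 .nil) (.node 4 6 (.cons 0x5649873210 .nil) (.node 4 7 (.cons 0x8947321065 .nil) .done .done) .done) .done)) (.node 1 4 (.cons 0x9801456732 .nil) (.node 2 4 .nil (.node 1 8 (.cons 0x7654321890 (.cons 0x9812437065 .nil)) (.node 3 8 (.cons 0x6549837012 (.cons 0x9837012456 .nil)) .done .done) (.node 4 6 (.cons 0x5649873210 .nil) (.node 4 7 (.cons 0x8947321065 .nil) .done .done) .done)) (.node 1 7 (.cons 0x6549801732 .nil) (.node 4 7 (.cons 0x8947321065 .nil) (.node 4 6 (.cons 0x5649873210 .nil) (.node 2 4 .nil (.node 3 5 (.cons 0x7894653210 (.cons 0x9012487653 (.cons 0x6532478901 (.cons 0x4235678901 .nil)))) .done .done) .done) .done) .done) .done)) .done)) .done)) (.node 4 8 (.cons 0x9845673210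 .nil) (.node 1 4 (.cons 0x9801456732 .nil) (.node 2 4 .nil (.node 3 8 (.cons 0x9837012456 .nil) (.node 5 9 (.cons 0x8954012376 (.cons 0x6590783412 (.cons 0x4109567832 (.cons 0x4123876590 .nil)))) .done (.node 0 5 (.cons 0x6738945012 (.cons 0x6501249873 .nil)) (.node 3 9 (.cons 0x7654893210 (.cons 0x8739421056 (.cons 0x5670124893 (.cons 0x9324876501 .nil)))) .done .done) .done)) (.node 1 7 (.cons 0x9801732456 .nil) (.node 1 3 (.cons 0x8907654312 .nil) (.node 1 8 (.cons 0x7654321890 .nil) (.node 1 9 (.cons 0x5678091432 .nil) (.node 1 5 (.cons 0x4321567890 .nil) (.node 1 6 (.cons 0x5619807342 .nil) .done .done) .done) .done) (.node 1 9 (.cons 0x5678091432 .nil) (.node 1 8 (.cons 0x7654321890 .nil) (.node 1 5 (.cons 0x4321567890 .nil) (.node 1 6 (.cons 0x9801654237 .nil) .done .done) .done) .done) .done)) .done) .done)) (.node 2 4 .nil (.node 6 9 (.cons 0x8967321045 (.cons 0x7324108965 (.cons 0x5698732410 .nil))) (.node 0 5 (.cons 0x4123789650 (.cons 0x9650873241 (.cons 0x6501249873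 .nil))) .done .done) (.node 4 6 .nil (.node 5 9 (.cons 0x8954012376 (.cons 0x4659873210 (.cons 0x2378956410 .nil))) (.node 1 3 (.cons 0x8907654312 (.cons 0x7809564132 (.cons 0x5908764231 .nil))) (.node 2 5 (.cons 0x9843125670 (.cons 0x7640895231 (.cons 0x3789465210 .nil))) .done .done) .done) (.node 4 7 .nil (.node 6 9 (.cons 0x8967321045 (.cons 0x5698014732 .nil)) (.node 2 6 (.cons 0x9801456237 (.cons 0x9801473265 .nil)) (.node 3 9 (.cons 0x7654893210 (.cons 0x7456239801 (.cons 0x5476239801 (.cons 0x5674893210 (.cons 0x5623987410 .nil))))) .done .done) .done) .done) .done)) .done)) .done)) (.node 0 6 (.cons 0x9845601237 .nil) (.node 0 5 .nil (.node 3 8 (.cons 0x6738945012 .nil) (.node 0 2 (.cons 0x8943765021 .nil) (.node 2 9 (.cons 0x4567329801 (.cons 0x8376012945 (.cons 0x6507348921 .nil))) (.node 1 5 (.cons 0x5129406783 (.cons 0x2156783490 (.cons 0x7834906512 (.cons 0x6738921540 .nil)))) .done .done) .done) .done) (.node 0 3 (.cons 0x8945673012 .nil) (.node 0 2 .nil (.node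 1 5 (.cons 0x4321567890 (.cons 0x3498765120 (.cons 0x8765120943 .nil))) (.node 1 9 (.cons 0x7843219065 (.cons 0x8734912065 (.cons 0x6734519802 (.cons 0x4376519802 .nil)))) .done .done) .done) .done) .done)) (.node 1 7 (.cons 0x7123489065 .nil) (.node 1 4 (.cons 0x9801456732 .nil) (.node 4 7 (.cons 0x9847321065 .nil) (.node 5 7 (.cons 0x7560984321 .nil) (.node 2 7 (.cons 0x9801456723 .nil) (.node 7 9 (.cons 0x6548973210 .nil) .done .done) .done) .done) .done) (.node 0 5 (.cons 0x8905432176 .nil) (.node 0 3 (.cons 0x8945673012 .nil) (.node 0 2 .nil (.node 7 9 (.cons 0x6548973210 (.cons 0x6548973201 .nil)) (.node 1 3 (.cons 0x8907654312 (.cons 0x8497312065 (.cons 0x8497312056 .nil))) .done .done) .done) .done) (.node 0 3 (.cons 0x8945673012 .nil) (.node 0 2 .nil (.node 1 5 (.cons 0x4321567890 (.cons 0x3498765120 (.cons 0x8765120943 .nil))) (.node 1 8 (.cons 0x7654321890 (.cons 0x9812076543 .nil)) .done .done) .done) .done) .done)) .done)) .done)) .done)) (.node 4 7 .nil (.node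 0 5 (.cons 0x6509874321 .nil) (.node 1 7 (.cons 0x8905432176 .nil) (.node 1 5 (.cons 0x6512347890 .nil) (.node 2 9 (.cons 0x4567329801 (.cons 0x6547329801 (.cons 0x6745108923 (.cons 0x1567432980 .nil)))) (.node 1 3 (.cons 0x8907654312 (.cons 0x8092317456 (.cons 0x6745132980 (.cons 0x4765132980 .nil)))) .done .done) (.node 1 4 (.cons 0x6501498732 .nil) (.node 3 9 (.cons 0x7654108932 (.cons 0x6507893412 (.cons 0x5674108932 .nil))) (.node 2 6 (.cons 0x8093451762 (.cons 0x4398762150 (.cons 0x9341508762 (.cons 0x8934126705 (.cons 0x7623980541 .nil))))) .done .done) .done) .done)) .done) (.node 1 5 (.cons 0x4321567890 (.cons 0x6512347890 .nil)) (.node 0 2 (.cons 0x1567894320 (.cons 0x9802347651 .nil)) (.node 0 3 (.cons 0x4987651032 (.cons 0x8947651032 .nil)) .done .done) (.node 0 2 (.cons 0x8945673201 (.cons 0x6512098743 (.cons 0x8902156743 .nil))) .done .done)) .done)) (.node 1 7 .nil (.node 2 4 (.cons 0x9801765423 (.cons 0x9801732456 .nil)) (.node 1 5 (.cons 0x3249876510 (.cons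 0x8765109423 (.cons 0x3421567890 .nil))) (.node 2 6 (.cons 0x8715623490 (.cons 0x9807342651 (.cons 0x9804517326 .nil))) (.node 3 5 (.cons 0x5326789401 (.cons 0x8765324901 (.cons 0x4235678901 .nil))) .done .done) .done) .done) (.node 0 5 (.cons 0x8905432176 .nil) (.node 0 6 (.cons 0x8906712345 .nil) (.node 0 2 (.cons 0x8945673201 .nil) (.node 0 3 .nil (.node 1 4 (.cons 0x9801456732 (.cons 0x5678941032 (.cons 0x5678903412 .nil))) (.node 1 5 (.cons 0x4321567890 (.cons 0x4987651032 (.cons 0x4309876512 .nil))) .done .done) .done) .done) .done) (.node 2 7 .nil (.node 4 6 (.cons 0x2378946501 (.cons 0x3278946501 (.cons 0x3465098721 .nil))) .done (.node 7 9 .nil (.node 2 4 (.cons 0x3245679801 (.cons 0x6542379801 .nil)) (.node 1 5 (.cons 0x4321567890 (.cons 0x3249876510 (.cons 0x8765109423 (.cons 0x3421567890 .nil)))) .done .done) .done) .done)) .done)) .done)) .done)) .done))) .done)))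
noncomputable def tc9_0_56 : T := (.node 0 5 (.cons 0x6509871234 .nil) (.node 0 2 (.cons 0x9802345671 .nil) (.node 0 3 (.cons 0x8903456712 .nil) (.node 0 6 (.cons 0x5609871234 .nil) (.node 4 9 (.cons 0x8945673210 (.cons 0x6549801732 (.cons 0x8945012376 .nil))) (.node 1 6 (.cons 0x9802345617 (.cons 0x5617349802 .nil)) (.node 3 5 (.cons 0x8712094356 (.cons 0x4356098712 (.cons 0x8716534902 .nil))) .done .done) (.node 4 6 (.cons 0x5649873201 (.cons 0x5649871023 .nil)) .done .done)) .done) .done) (.node 4 9 (.cons 0x8945673210 (.cons 0x6549801732 (.cons 0x8945012376 (.cons 0x8943765021 .nil)))) (.node 0 6 (.cons 0x8945601732 .nil) (.node 4 8 (.cons 0x9845673210 (.cons 0x9843712065 (.cons 0x9845012376 (.cons 0x9843765021 .nil)))) (.node 0 3 (.cons 0x8945671032 .nil) (.node 7 9 (.cons 0x3489765021 (.cons 0x6548971230 .nil)) .done .done) .done) .done) .done) .done)) (.node 0 6 (.cons 0x5609871234 .nil) (.node 5 8 (.cons 0x6709854321 (.cons 0x9043217856 .nil)) (.node 1 9 (.cons 0x9123406587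 (.cons 0x9123406785 (.cons 0x9176580432 .nil))) (.node 0 2 (.cons 0x6543719802 .nil) (.node 4 9 (.cons 0x8945673210 (.cons 0x6549801732 (.cons 0x6712058943 (.cons 0x1765894320 .nil)))) .done .done) .done) (.node 5 9 (.cons 0x8765904321 (.cons 0x8712340956 .nil)) (.node 3 9 (.cons 0x6587123904 (.cons 0x8540932176 (.cons 0x8567123904 .nil))) (.node 1 4 (.cons 0x2143987650 (.cons 0x4106598732 (.cons 0x9854123760 .nil))) (.node 4 8 (.cons 0x9845673210 (.cons 0x7654893210 (.cons 0x9845601237 (.cons 0x6739845012 .nil)))) .done .done) .done) .done) .done)) (.node 0 2 (.cons 0x9802345671 .nil) (.node 1 4 (.cons 0x9876502143 (.cons 0x9873412056 (.cons 0x5678902143 .nil))) (.node 2 4 (.cons 0x9801765423 (.cons 0x6509871243 .nil)) .done .done) (.node 6 9 (.cons 0x4378965021 (.cons 0x8965437120 (.cons 0x4569802371 .nil))) (.node 1 5 (.cons 0x8715690234 (.cons 0x8715690432 .nil)) (.node 2 4 (.cons 0x8967015423 (.cons 0x3420569871 (.cons 0x6987150243 .nil))) .done .done) .done) .done))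 .done)) .done)) (.node 2 7 .nil (.node 1 8 (.cons 0x7654321890 (.cons 0x9081723456 (.cons 0x3456721890 .nil))) (.node 1 5 (.cons 0x4321567890 .nil) (.node 4 6 (.cons 0x9087156432 (.cons 0x3465127890 (.cons 0x1564327890 .nil))) (.node 6 9 (.cons 0x5432189670 (.cons 0x8096517234 (.cons 0x8721569043 (.cons 0x9651872340 (.cons 0x3270896451 .nil))))) .done .done) (.node 3 8 (.cons 0x6709834512 (.cons 0x9043872156 (.cons 0x6721543890 .nil))) .done .done)) (.node 3 8 (.cons 0x1276543890 .nil) (.node 1 9 (.cons 0x8091765432 (.cons 0x8091723456 (.cons 0x5678340912 .nil))) (.node 1 3 (.cons 0x9801327654 .nil) (.node 1 5 (.cons 0x4321567890 (.cons 0x4327651980 (.cons 0x6709834512 .nil))) .done .done) .done) (.node 4 7 (.cons 0x6547210983 (.cons 0x6547238901 .nil)) .done .done)) .done)) (.node 1 5 (.cons 0x4321567890 .nil) (.node 1 6 (.cons 0x9807615432 .nil) (.node 2 5 (.cons 0x9807615234 .nil) (.node 2 6 (.cons 0x9807623451 .nil) (.node 2 8 (.cons 0x9082345671 .nil) (.node 0 6 .nil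 (.node 4 7 (.cons 0x9082347165 (.cons 0x9821065473 (.cons 0x9823745601 .nil))) .done (.node 3 8 (.cons 0x9065438217 .nil) (.node 1 8 (.cons 0x7654321890 .nil) (.node 5 8 (.cons 0x6709854321 .nil) (.node 6 8 (.cons 0x9076812543 .nil) .done .done) .done) .done) .done)) (.node 0 6 .nil (.node 4 9 (.cons 0x8945673210 (.cons 0x7894321560 (.cons 0x5123498760 (.cons 0x5498210673 (.cons 0x5498237601 .nil))))) .done (.node 3 8 (.cons 0x9067128345 .nil) (.node 3 5 (.cons 0x9821067354 .nil) (.node 1 8 (.cons 0x7654321890 .nil) (.node 5 8 (.cons 0x6709854321 .nil) (.node 6 8 (.cons 0x9076812543 .nil) .done .done) .done) .done) .done) .done)) .done)) .done) (.node 0 6 .nil (.node 4 9 (.cons 0x8945673210 (.cons 0x7894321560 (.cons 0x5123498760 (.cons 0x8712560943 (.cons 0x4987325601 .nil))))) .done (.node 0 5 .nil (.node 4 8 (.cons 0x9845673210 (.cons 0x9843216705 (.cons 0x7612348905 (.cons 0x9843705216 .nil)))) (.node 4 9 (.cons 0x8945673210 (.cons 0x6789432150 (.cons 0x8943705216 (.cons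 0x8490561723 .nil)))) .done .done) .done) .done)) .done)) (.node 1 8 (.cons 0x7654321890 .nil) (.node 3 8 (.cons 0x5438907612 .nil) (.node 2 8 (.cons 0x9082345671 .nil) (.node 4 8 (.cons 0x9845673210 .nil) (.node 1 3 (.cons 0x3127654890 .nil) (.node 1 4 (.cons 0x9801456732 .nil) (.node 1 9 (.cons 0x9176543280 .nil) .done .done) .done) .done) .done) .done) (.node 3 8 (.cons 0x5438907612 .nil) (.node 2 8 (.cons 0x9082345671 .nil) (.node 0 3 (.cons 0x9821670345 .nil) (.node 0 6 (.cons 0x7609812345 .nil) .done .done) .done) .done) .done)) .done)) (.node 4 7 (.cons 0x6512347890 .nil) (.node 7 9 (.cons 0x8790432156 .nil) (.node 5 7 .nil (.node 4 9 (.cons 0x8945673210 .nil) (.node 4 8 (.cons 0x9845673210 (.cons 0x6754890123 .nil)) (.node 3 9 (.cons 0x7654893210 (.cons 0x6754893210 (.cons 0x6571084932 .nil))) .done .done) (.node 2 6 (.cons 0x8790432651 (.cons 0x3267549801 (.cons 0x6234908751 (.cons 0x6237510894 .nil)))) .done .done)) .done) .done) (.node 7 9 (.cons 0x8790432156 .nil)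 (.node 5 7 .nil (.node 4 9 (.cons 0x8945673210 .nil) (.node 0 5 (.cons 0x6501237894 .nil) (.node 0 6 (.cons 0x2347890651 .nil) (.node 1 6 (.cons 0x5617809432 (.cons 0x8943216075 .nil)) (.node 0 3 (.cons 0x8945612730 (.cons 0x4309875612 .nil)) .done .done) .done) .done) (.node 2 6 (.cons 0x1562347890 (.cons 0x3267549801 (.cons 0x6234908751 (.cons 0x6237510894 .nil)))) .done .done)) .done) .done) .done)) (.node 3 8 (.cons 0x6709834512 .nil) (.node 0 3 (.cons 0x4309876512 .nil) (.node 1 8 (.cons 0x7654321890 .nil) (.node 2 8 (.cons 0x9082345671 .nil) (.node 4 8 (.cons 0x9845673210 .nil) (.node 4 7 (.cons 0x8903476512 .nil) (.node 5 7 (.cons 0x6751289034 .nil) .done .done) .done) .done) (.node 0 6 (.cons 0x7609812345 .nil) (.node 1 3 (.cons 0x7213890654 .nil) .done .done) .done)) .done) (.node 0 5 .nil (.node 2 6 (.cons 0x7621543890 (.cons 0x9051267834 (.cons 0x7621509834 .nil))) (.node 4 9 (.cons 0x8945673210 (.cons 0x9432650871 (.cons 0x3498762150 (.cons 0x6738945012 (.cons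 0x7623894501 .nil))))) .done .done) (.node 0 3 (.cons 0x4309876512 .nil) (.node 0 2 .nil (.node 0 6 (.cons 0x7609834512 .nil) (.node 1 9 (.cons 0x8091765432 (.cons 0x5602198734 (.cons 0x6734519802 (.cons 0x4376519802 .nil)))) .done .done) .done) .done) .done)) .done)) .done))) .done)) (.node 3 8 (.cons 0x2176543890 .nil) (.node 0 3 (.cons 0x8903456712 .nil) (.node 0 2 (.cons 0x8902176543 .nil) (.node 0 5 .nil (.node 2 6 (.cons 0x7126543890 (.cons 0x9834507126 (.cons 0x9056217834 (.cons 0x7126509834 .nil)))) (.node 2 8 (.cons 0x3456712890 (.cons 0x9821765034 (.cons 0x6712890543 .nil))) .done .done) (.node 0 6 .nil (.node 1 8 (.cons 0x7654321890 (.cons 0x7609812345 .nil)) (.node 3 9 (.cons 0x9340567812 (.cons 0x7605439812 (.cons 0x7189345602 .nil))) .done .done) .done) .done)) .done) .done) (.node 1 8 (.cons 0x7654321890 .nil) (.node 0 5 (.cons 0x9812345076 .nil) (.node 0 2 (.cons 0x8902176543 .nil) (.node 0 3 (.cons 0x8903456712 .nil) .done .done) (.node 0 6 (.cons 0x5438906712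 .nil) (.node 0 2 (.cons 0x8902176543 .nil) (.node 0 3 (.cons 0x8903456712 .nil) .done .done) .done) .done)) (.node 0 6 (.cons 0x5438906712 .nil) (.node 0 2 (.cons 0x8902176543 .nil) (.node 0 3 (.cons 0x8903456712 .nil) .done .done) (.node 4 7 .nil (.node 2 5 (.cons 0x6712543890 (.cons 0x9065218743 (.cons 0x3478906521 (.cons 0x3890674521 .nil)))) (.node 0 3 (.cons 0x8903456712 (.cons 0x9874306521 (.cons 0x9812560347 .nil))) .done .done) (.node 7 9 (.cons 0x2189734560 .nil) (.node 2 7 (.cons 0x9812734560 .nil) (.node 5 7 (.cons 0x9043218756 .nil) .done .done) .done) .done)) .done)) .done)) .done)) .done)))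
noncomputable def tc9_0_57 : T := (.node 1 7 .nil tc9_0_56 (.node 4 9 (.cons 0x8945673210 .nil) (.node 4 8 (.cons 0x9845673210 .nil) (.node 1 4 (.cons 0x9801456732 .nil) (.node 2 4 .nil (.node 1 7 (.cons 0x9801765423 .nil) (.node 2 9 (.cons 0x8092341765 (.cons 0x6540892371 .nil)) (.node 3 9 (.cons 0x7654893210 (.cons 0x2398456710 .nil)) (.node 2 5 (.cons 0x6710894523 (.cons 0x9325671084 (.cons 0x9325671480 .nil))) .done .done) .done) (.node 0 3 (.cons 0x8903456712 (.cons 0x8903421765 .nil)) (.node 3 5 (.cons 0x6534098712 (.cons 0x6534217890 (.cons 0x4235678901 .nil))) .done .done) .done)) .done) (.node 0 5 (.cons 0x8945012376 .nil) (.node 0 2 (.cons 0x5678902143 .nil) (.node 0 3 (.cons 0x5678903412 .nil) .done .done) (.node 1 7 .nil (.node 0 3 (.cons 0x5678903412 (.cons 0x9843056712 .nil)) (.node 2 9 (.cons 0x4567329801 (.cons 0x9217843056 (.cons 0x3489217650 (.cons 0x6540892371 .nil)))) .done .done) (.node 2 7 .nil (.node 1 8 (.cons 0x7654321890 (.cons 0x9081723456 (.cons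 0x6721890543 .nil))) .done (.node 5 7 (.cons 0x6578904321 .nil) (.node 4 7 .nil (.node 1 5 (.cons 0x4321567890 (.cons 0x6512347890 .nil)) (.node 2 9 (.cons 0x4567329801 (.cons 0x6547329801 (.cons 0x1567432980 .nil))) .done .done) .done) .done) .done)) .done)) .done)) .done)) (.node 1 4 (.cons 0x9801456732 .nil) (.node 2 4 .nil (.node 3 9 (.cons 0x7654108932 (.cons 0x5673984210 (.cons 0x5678932410 .nil))) (.node 0 3 (.cons 0x9845673012 (.cons 0x9842103765 .nil)) (.node 5 9 (.cons 0x6598732104 (.cons 0x8765903421 (.cons 0x6598732401 (.cons 0x3095678421 .nil)))) .done .done) .done) (.node 2 7 (.cons 0x9801456723 .nil) (.node 4 6 (.cons 0x9873210465 .nil) (.node 4 7 .nil (.node 2 9 (.cons 0x3765489210 (.cons 0x6547329801 (.cons 0x5674108923 .nil))) .done .done) .done) .done) .done)) (.node 1 7 .nil (.node 2 9 (.cons 0x3765489210 (.cons 0x8092341765 (.cons 0x6540892371 .nil))) (.node 0 5 (.cons 0x8945012376 (.cons 0x6509217843 .nil)) (.node 6 8 (.cons 0x5498673210 (.cons 0x6892170543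 (.cons 0x9237145680 .nil))) .done .done) .done) (.node 2 4 .nil (.node 3 5 (.cons 0x6534098712 (.cons 0x9012487653 (.cons 0x6534217890 (.cons 0x4235678901 .nil)))) .done (.node 4 6 (.cons 0x9873210465 .nil) (.node 4 7 .nil (.node 1 5 (.cons 0x4321567890 (.cons 0x6512347890 .nil)) (.node 3 9 (.cons 0x7654239801 (.cons 0x2398746510 (.cons 0x5674239801 (.cons 0x6510478932 .nil)))) .done .done) .done) .done) .done)) .done)) .done)) .done)) (.node 4 8 (.cons 0x9845673210 .nil) (.node 1 4 (.cons 0x9801456732 .nil) (.node 4 6 (.cons 0x9873210465 .nil) (.node 4 7 .nil (.node 1 5 (.cons 0x4321567890 (.cons 0x6512347890 .nil)) (.node 3 9 (.cons 0x7654893210 (.cons 0x2398746510 (.cons 0x6745108932 (.cons 0x5674893210 (.cons 0x6510478932 .nil))))) .done (.node 0 2 (.cons 0x9873402156 (.cons 0x8902156743 .nil)) (.node 0 3 (.cons 0x8945673012 (.cons 0x8903476512 .nil)) .done .done) .done)) .done) .done) (.node 2 4 .nil (.node 0 3 (.cons 0x8945673012 (.cons 0x8942103765 .nil)) (.node 3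 5 (.cons 0x9487653012 (.cons 0x6537894210 (.cons 0x4235678901 .nil))) .done .done) (.node 4 6 (.cons 0x9873210465 .nil) (.node 4 7 .nil (.node 1 9 (.cons 0x5640198732 .nil) (.node 0 2 (.cons 0x8910237465 .nil) (.node 0 5 (.cons 0x8734912056 (.cons 0x2056437891 .nil)) .done .done) (.node 3 5 (.cons 0x6537894012 (.cons 0x9108476532 (.cons 0x2356478901 (.cons 0x2356748910 .nil)))) .done .done)) .done) .done) .done)) .done)) (.node 3 8 .nil (.node 1 4 (.cons 0x9801456732 .nil) (.node 7 9 (.cons 0x8973210456 (.cons 0x2389765410 .nil)) (.node 0 2 (.cons 0x3208976541 (.cons 0x5678349021 .nil)) (.node 0 3 (.cons 0x8302149765 .nil) .done .done) .done) (.node 1 7 (.cons 0x2176543890 .nil) (.node 2 5 (.cons 0x9087652341 (.cons 0x6701254983 (.cons 0x1256783490 (.cons 0x9087143256 (.cons 0x3876521490 .nil))))) .done .done) .done)) (.node 0 5 (.cons 0x9845012376 .nil) (.node 0 3 (.cons 0x8945673012 .nil) (.node 0 2 .nil (.node 5 8 (.cons 0x6709854321 (.cons 0x7658943021 (.cons 0x4985673021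 .nil))) (.node 1 9 (.cons 0x8765091234 (.cons 0x8734912056 (.cons 0x6734589120 (.cons 0x4376589120 .nil)))) .done .done) .done) .done) (.node 0 6 (.cons 0x7389456012 .nil) (.node 0 3 (.cons 0x8945673012 .nil) (.node 0 2 .nil (.node 1 9 (.cons 0x6504378912 (.cons 0x6502198734 (.cons 0x8912054376 (.cons 0x8912056734 .nil)))) .done .done) .done) (.node 0 3 (.cons 0x8945673012 .nil) (.node 0 2 .nil (.node 1 9 (.cons 0x5067348912 (.cons 0x6502198734 (.cons 0x8912054376 (.cons 0x8912056734 .nil)))) .done .done) .done) .done)) .done)) .done)) .done)) (.node 7 9 (.cons 0x8973210456 .nil) (.node 1 7 .nil (.node 5 9 (.cons 0x6598732104 .nil) (.node 2 6 (.cons 0x5623789401 (.cons 0x6234598071 (.cons 0x4326590871 (.cons 0x8940173265 (.cons 0x9804562371 .nil))))) .done (.node 6 9 (.cons 0x5698732104 .nil) (.node 3 6 (.cons 0x8973654012 (.cons 0x8712365904 .nil)) (.node 2 7 (.cons 0x8904563271 .nil) (.node 4 7 (.cons 0x8901745632 .nil) .done .done) .done) .done) .done)) (.node 4 7 .nil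 (.node 0 2 (.cons 0x8945673201 .nil) (.node 1 5 (.cons 0x4321567890 (.cons 0x6512347890 .nil)) (.node 0 3 (.cons 0x4987651032 (.cons 0x8947651032 .nil)) .done (.node 0 3 (.cons 0x4309876512 (.cons 0x8903476512 .nil)) .done .done)) (.node 1 5 (.cons 0x4321567890 (.cons 0x9802347651 (.cons 0x6512347890 (.cons 0x8902156743 .nil)))) .done .done)) .done) .done)) (.node 2 7 .nil (.node 6 9 (.cons 0x5698732104 (.cons 0x8965401273 .nil)) (.node 1 6 (.cons 0x8973216540 (.cons 0x3279804561 (.cons 0x5612789043 .nil))) (.node 1 8 (.cons 0x2376549810 (.cons 0x3276549810 (.cons 0x5618723490 (.cons 0x9081672345 (.cons 0x5698127340 .nil))))) .done .done) .done) (.node 0 2 (.cons 0x8945673201 .nil) (.node 1 7 .nil (.node 2 6 (.cons 0x5623789401 (.cons 0x3265408971 (.cons 0x9804562371 .nil))) .done (.node 4 7 .nil (.node 1 5 (.cons 0x4321567890 (.cons 0x9802347651 (.cons 0x6512347890 .nil))) (.node 2 9 (.cons 0x4567329801 (.cons 0x6547329801 .nil)) (.node 1 6 (.cons 0x8973216540 (.cons 0x5476108923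 (.cons 0x8092347615 .nil))) .done .done) .done) .done) .done)) .done) .done)) .done)) .done))) (.node 3 8 (.cons 0x9837654012 .nil) (.node 4 8 (.cons 0x9845673210 .nil) (.node 1 8 (.cons 0x7654321890 .nil) (.node 2 8 (.cons 0x9821045673 .nil) (.node 2 7 (.cons 0x9837210456 .nil) (.node 5 8 (.cons 0x6709854321 .nil) (.node 6 8 .nil (.node 1 3 (.cons 0x9821376540 (.cons 0x9076854312 .nil)) (.node 5 9 (.cons 0x6590438721 (.cons 0x3409568721 (.cons 0x1867234590 (.cons 0x7213865904 .nil)))) .done .done) .done) .done) .done) .done) (.node 5 8 (.cons 0x6709854321 .nil) (.node 6 8 .nil (.node 2 8 (.cons 0x9821045673 .nil) (.node 1 7 (.cons 0x7123456890 .nil) (.node 4 6 (.cons 0x9071238546 (.cons 0x5467109823 .nil)) .done (.node 2 9 (.cons 0x4567329801 (.cons 0x5687129043 (.cons 0x7129043865 (.cons 0x9217386540 .nil)))) .done .done)) .done) .done) .done) .done)) (.node 4 9 (.cons 0x8945673210 .nil) (.node 1 7 (.cons 0x6549801732 .nil) (.node 2 7 (.cons 0x9837210456 .nil) (.node 2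 8 (.cons 0x9082345671 .nil) (.node 1 8 (.cons 0x7654321890 .nil) (.node 5 8 (.cons 0x6587123490 .nil) (.node 6 8 (.cons 0x5687123490 .nil) .done .done) .done) .done) .done) (.node 1 8 (.cons 0x7654321890 .nil) (.node 1 4 (.cons 0x9801456732 .nil) (.node 1 6 (.cons 0x8907612345 .nil) (.node 1 3 (.cons 0x5678904312 .nil) (.node 1 9 (.cons 0x5678091432 .nil) .done .done) .done) .done) .done) .done)) (.node 4 7 .nil (.node 0 5 (.cons 0x9845012376 (.cons 0x6509874321 .nil)) (.node 4 6 (.cons 0x9012387465 .nil) (.node 0 2 (.cons 0x8945673201 .nil) (.node 1 6 (.cons 0x5610237894 (.cons 0x5610947832 (.cons 0x8947320165 (.cons 0x5612098743 .nil)))) .done (.node 1 5 (.cons 0x4321567890 (.cons 0x9802347651 (.cons 0x6512347890 (.cons 0x8902156743 .nil)))) .done .done)) .done) .done) (.node 2 7 (.cons 0x9837210456 .nil) (.node 2 8 (.cons 0x9821045673 .nil) (.node 1 7 (.cons 0x3289456710 .nil) (.node 1 8 (.cons 0x2376549810 .nil) .done .done) .done) .done) .done)) .done)) .done)) (.node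 4 8 (.cons 0x9845673210 .nil) (.node 1 8 (.cons 0x7654321890 .nil) (.node 2 8 (.cons 0x9821045673 .nil) (.node 5 8 (.cons 0x6709854321 .nil) (.node 6 8 .nil (.node 1 3 (.cons 0x9821376540 (.cons 0x9076854312 .nil)) (.node 2 7 (.cons 0x4312765890 .nil) (.node 1 9 (.cons 0x4319085672 (.cons 0x3458672190 (.cons 0x5438672190 .nil))) .done .done) .done) .done) .done) .done) (.node 1 7 .nil (.node 2 5 (.cons 0x3409876521 (.cons 0x6521789043 (.cons 0x6712540983 .nil))) (.node 4 9 (.cons 0x8945673210 (.cons 0x6549801732 (.cons 0x6710894523 .nil))) (.node 0 3 (.cons 0x4987652301 (.cons 0x6523017894 (.cons 0x2567189430 .nil))) (.node 2 6 (.cons 0x9837621045 (.cons 0x8326710945 (.cons 0x5267104983 (.cons 0x9452671830 .nil)))) .done .done) .done) (.node 6 8 (.cons 0x9076812543 (.cons 0x9045217683 .nil)) .done .done)) (.node 2 7 (.cons 0x3456721890 .nil) (.node 2 8 (.cons 0x9082345671 .nil) (.node 5 8 (.cons 0x6709854321 .nil) (.node 6 8 .nil (.node 4 9 (.cons 0x8945673210 (.cons 0x5687123490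 (.cons 0x5498673210 (.cons 0x9456823710 .nil)))) .done .done) .done) .done) .done) .done)) .done)) (.node 1 8 (.cons 0x7654321890 .nil) (.node 2 8 (.cons 0x9821045673 .nil) (.node 5 8 (.cons 0x6709854321 .nil) (.node 6 8 .nil (.node 4 9 (.cons 0x8945673210 (.cons 0x5498673210 .nil)) (.node 1 5 (.cons 0x4321567890 (.cons 0x3286709451 (.cons 0x6894510732 .nil))) .done .done) .done) .done) .done) (.node 1 7 .nil (.node 0 6 (.cons 0x9845601237 (.cons 0x7123489065 .nil)) (.node 5 8 (.cons 0x6709854321 (.cons 0x9067123854 .nil)) (.node 2 9 (.cons 0x4567329801 (.cons 0x9217856043 (.cons 0x9234580671 (.cons 0x9217604385 (.cons 0x9217604583 .nil))))) .done .done) .done) (.node 2 7 (.cons 0x3456721890 .nil) (.node 2 8 (.cons 0x9082345671 .nil) (.node 5 8 (.cons 0x6709854321 .nil) (.node 6 8 .nil (.node 4 9 (.cons 0x8945673210 (.cons 0x5498673210 (.cons 0x5490176832 .nil))) .done .done) .done) .done) .done) .done)) .done)) .done)) .done)) .done)))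
noncomputable def tc9_0_58 : T := (.node 0 5 .nil (.node 1 7 (.cons 0x8905432176 .nil) (.node 6 9 (.cons 0x5698732104 (.cons 0x8965401732 (.cons 0x4056987321 .nil))) (.node 0 6 (.cons 0x9871234065 .nil) (.node 2 9 (.cons 0x4567329801 (.cons 0x8921734560 (.cons 0x6540892371 .nil))) (.node 1 5 (.cons 0x6715432980 (.cons 0x8092345176 (.cons 0x6051298734 .nil))) (.node 2 5 (.cons 0x3452980671 (.cons 0x8043715296 (.cons 0x6089254371 (.cons 0x4089652371 .nil)))) .done .done) .done) .done) (.node 0 2 (.cons 0x8967345021 .nil) (.node 0 6 (.cons 0x9871234065 .nil) .done .done) .done)) (.node 4 8 (.cons 0x9845673210 (.cons 0x9845012376 .nil)) (.node 0 3 (.cons 0x9843056712 .nil) (.node 3 8 (.cons 0x2176543890 .nil) (.node 1 8 (.cons 0x7654321890 .nil) (.node 6 9 (.cons 0x8345690712 (.cons 0x8965043712 (.cons 0x2189673450 (.cons 0x4501896732 (.cons 0x7698450321 .nil))))) .done .done) .done) .done) (.node 0 2 (.cons 0x9843765021 .nil) (.node 4 9 (.cons 0x8945673210 (.cons 0x8945012376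 .nil)) (.node 6 9 (.cons 0x5698732104 (.cons 0x8965043712 (.cons 0x8967345021 (.cons 0x3769845021 .nil)))) .done .done) .done) .done)) .done)) (.node 5 7 (.cons 0x6578904321 .nil) (.node 5 9 (.cons 0x6598732104 .nil) (.node 0 6 .nil (.node 1 7 (.cons 0x8906712345 .nil) (.node 2 6 (.cons 0x9871265043 (.cons 0x4326590871 (.cons 0x8904326571 (.cons 0x9804562371 .nil)))) .done (.node 0 2 (.cons 0x8954371206 (.cons 0x8956021734 .nil)) .done .done)) (.node 4 7 (.cons 0x8956012374 .nil) (.node 3 5 (.cons 0x8901235476 .nil) (.node 1 5 (.cons 0x4321567890 .nil) (.node 2 5 (.cons 0x9806743251 .nil) (.node 5 8 (.cons 0x9851234760 .nil) .done .done) .done) .done) (.node 1 7 .nil (.node 2 6 (.cons 0x9873405621 (.cons 0x9871265043 (.cons 0x4326590871 (.cons 0x9804562371 .nil)))) .done (.node 7 9 (.cons 0x8973210456 .nil) (.node 2 7 .nil (.node 1 4 (.cons 0x9801456732 (.cons 0x9801456723 (.cons 0x6590872341 .nil))) .done .done) .done) .done)) .done)) .done)) (.node 0 6 (.cons 0x4065987321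 .nil) (.node 4 7 (.cons 0x8956047321 .nil) (.node 7 9 (.cons 0x8973210456 .nil) (.node 1 7 .nil (.node 6 9 (.cons 0x5698732104 (.cons 0x8965401732 .nil)) .done .done) .done) (.node 7 9 (.cons 0x8973210456 .nil) (.node 1 7 .nil (.node 2 6 (.cons 0x9873405621 (.cons 0x9871265043 (.cons 0x9804562371 .nil))) (.node 3 8 (.cons 0x3874095621 (.cons 0x5609834712 (.cons 0x4590832671 .nil))) .done .done) .done) .done) .done)) .done) .done)) (.node 2 7 .nil (.node 1 6 (.cons 0x9873405612 (.cons 0x9872165043 (.cons 0x5612789043 .nil))) (.node 5 9 (.cons 0x6598732104 (.cons 0x4327809561 (.cons 0x8723409561 .nil))) .done (.node 3 8 (.cons 0x7561238904 (.cons 0x7216509834 .nil)) (.node 0 6 (.cons 0x4576098321 .nil) .done .done) .done)) (.node 0 6 .nil (.node 1 9 (.cons 0x6504378912 (.cons 0x8912734506 (.cons 0x8912375406 (.cons 0x8912375604 (.cons 0x5604378912 .nil))))) .done (.node 0 2 .nil (.node 1 7 (.cons 0x8902176543 .nil) (.node 2 4 (.cons 0x9801765423 .nil) (.node 2 6 (.cons 0x9871265043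 (.cons 0x9804562371 .nil)) .done .done) .done) .done) .done)) .done)) .done)) .done)) (.node 4 9 (.cons 0x8945673210 .nil) (.node 0 6 (.cons 0x5601237894 .nil) (.node 4 8 (.cons 0x9845673210 .nil) (.node 1 4 (.cons 0x9801456732 .nil) (.node 2 4 .nil (.node 0 5 (.cons 0x6501237894 (.cons 0x6501249873 .nil)) (.node 6 9 (.cons 0x9650784321 (.cons 0x1243789650 (.cons 0x4237896501 (.cons 0x9650873241 .nil)))) .done .done) .done) (.node 0 2 (.cons 0x5678902143 .nil) (.node 0 3 (.cons 0x5678903412 .nil) .done .done) .done)) (.node 0 3 (.cons 0x9845673012 .nil) (.node 0 2 .nil (.node 0 5 (.cons 0x6501237894 .nil) (.node 1 7 (.cons 0x6549801732 (.cons 0x8902176543 .nil)) (.node 6 8 (.cons 0x5432176890 (.cons 0x9867120543 (.cons 0x6894502173 .nil))) .done .done) .done) .done) .done) .done)) (.node 0 5 (.cons 0x6501237894 .nil) (.node 1 7 (.cons 0x6549801732 .nil) (.node 2 7 (.cons 0x8945601273 .nil) (.node 0 3 (.cons 0x8945603721 .nil) (.node 0 2 .nil (.node 6 8 (.cons 0x5432176890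 (.cons 0x5498602173 .nil)) (.node 5 7 (.cons 0x9867540123 (.cons 0x7568943021 (.cons 0x6894571023 .nil))) .done .done) .done) .done) .done) (.node 0 2 (.cons 0x8902176543 .nil) (.node 0 3 (.cons 0x8903456712 .nil) .done .done) .done)) .done) .done)) (.node 4 8 (.cons 0x9845673210 .nil) (.node 0 3 (.cons 0x8945673012 .nil) (.node 0 5 .nil (.node 0 2 (.cons 0x8943765021 .nil) .done (.node 4 7 .nil (.node 6 8 (.cons 0x9867321045 (.cons 0x9865473012 (.cons 0x7456890321 .nil))) .done (.node 4 6 (.cons 0x5649873012 .nil) (.node 1 4 (.cons 0x9801456732 .nil) (.node 2 4 .nil (.node 1 5 (.cons 0x4321567890 (.cons 0x9874230156 .nil)) (.node 3 8 (.cons 0x2156783490 (.cons 0x9051243876 .nil)) .done .done) .done) .done) .done) .done)) .done)) (.node 0 6 .nil (.node 3 8 (.cons 0x7389456012 (.cons 0x5498376012 .nil)) (.node 1 5 (.cons 0x4321567890 (.cons 0x9876043215 (.cons 0x2156783490 (.cons 0x7890651234 .nil)))) (.node 2 9 (.cons 0x7651298430 (.cons 0x4378921560 (.cons 0x8921543760 (.cons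 0x5670129483 (.cons 0x6738921540 .nil))))) .done .done) .done) (.node 6 8 (.cons 0x9867321045 .nil) (.node 0 5 .nil (.node 1 7 (.cons 0x5409867123 (.cons 0x4509867123 (.cons 0x9843056712 .nil))) .done (.node 0 2 .nil (.node 1 4 (.cons 0x7305689412 (.cons 0x9412056873 (.cons 0x9873412065 .nil))) .done .done) .done)) .done) .done)) .done)) (.node 0 6 (.cons 0x9845601237 .nil) (.node 0 3 (.cons 0x8945673012 .nil) (.node 0 2 .nil (.node 0 5 (.cons 0x3498765021 .nil) (.node 1 4 (.cons 0x9801456732 (.cons 0x9876502143 .nil)) (.node 1 9 (.cons 0x5678091432 (.cons 0x6502198734 (.cons 0x8912054376 (.cons 0x8912056734 .nil)))) .done .done) .done) .done) .done) (.node 3 8 .nil (.node 2 7 (.cons 0x9845601273 (.cons 0x5438906721 .nil)) (.node 1 4 (.cons 0x9801456732 (.cons 0x9083276541 .nil)) (.node 0 3 (.cons 0x9830654127 (.cons 0x5672149830 .nil)) .done .done) .done) (.node 0 5 (.cons 0x6738945012 .nil) (.node 0 3 (.cons 0x8945673012 .nil) (.node 0 2 .nil (.node 1 5 (.cons 0x4321567890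 (.cons 0x3498765120 (.cons 0x8765120943 .nil))) (.node 5 8 (.cons 0x4985673012 (.cons 0x7658943021 (.cons 0x4985673021 .nil))) .done .done) .done) .done) .done) .done)) .done)) .done)) (.node 0 2 (.cons 0x8945673201 .nil) (.node 0 3 .nil (.node 0 5 .nil (.node 1 7 (.cons 0x8903456712 (.cons 0x8905432176 .nil)) .done (.node 1 7 (.cons 0x8903456712 .nil) (.node 6 9 (.cons 0x4378965021 (.cons 0x8965021734 (.cons 0x8965437120 (.cons 0x4569802371 .nil)))) .done (.node 6 8 (.cons 0x5432176890 (.cons 0x5498671032 (.cons 0x5430986712 .nil))) (.node 1 5 (.cons 0x6894517320 (.cons 0x4987651032 (.cons 0x8671549032 .nil))) (.node 1 4 (.cons 0x9801456732 (.cons 0x9876503412 (.cons 0x7865149032 (.cons 0x5678903412 .nil)))) .done .done) .done) .done)) .done)) (.node 4 7 .nil (.node 1 5 (.cons 0x4321567890 (.cons 0x8947651032 (.cons 0x6512347890 (.cons 0x8903476512 .nil)))) (.node 6 8 (.cons 0x9867321045 (.cons 0x9478651023 (.cons 0x9021568743 (.cons 0x3209478651 .nil)))) .done .done) (.node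 1 7 .nil (.node 4 6 (.cons 0x5649873201 (.cons 0x5649871023 .nil)) (.node 5 8 (.cons 0x9465873201 (.cons 0x4985671032 (.cons 0x6589034712 (.cons 0x4309856712 (.cons 0x3209465871 .nil))))) .done .done) (.node 0 5 (.cons 0x8905432176 .nil) (.node 0 6 (.cons 0x8906712345 .nil) .done .done) .done)) .done)) .done)) (.node 4 7 .nil (.node 1 5 (.cons 0x4321567890 (.cons 0x9802347651 (.cons 0x6512347890 (.cons 0x8902156743 .nil)))) (.node 3 8 (.cons 0x4901567832 (.cons 0x6510947832 .nil)) (.node 5 8 (.cons 0x4985673201 (.cons 0x6589473201 (.cons 0x3476589021 (.cons 0x6749023851 .nil)))) (.node 1 9 (.cons 0x8567023491 (.cons 0x6519087432 (.cons 0x9158023476 (.cons 0x8091567432 (.cons 0x3476589120 .nil))))) .done .done) .done) .done) (.node 3 8 (.cons 0x5674389021 .nil) (.node 0 3 .nil (.node 4 8 (.cons 0x9845673210 .nil) (.node 1 5 (.cons 0x4321567890 (.cons 0x4987651032 (.cons 0x9487651032 (.cons 0x4309876512 .nil)))) (.node 0 6 (.cons 0x9837456012 .nil) (.node 6 8 (.cons 0x2349078651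 (.cons 0x2037498651 .nil)) .done .done) .done) .done) .done) (.node 0 6 .nil (.node 4 8 (.cons 0x9845673210 (.cons 0x9845601237 .nil)) (.node 5 9 (.cons 0x9548321076 (.cons 0x9560784321 (.cons 0x4598376012 (.cons 0x8954067321 .nil)))) .done .done) (.node 1 7 (.cons 0x5438906712 .nil) (.node 0 5 (.cons 0x8905432176 .nil) (.node 0 3 .nil (.node 1 5 (.cons 0x4321567890 (.cons 0x4987651032 (.cons 0x4309876512 .nil))) (.node 2 8 (.cons 0x1567823490 (.cons 0x7654982301 (.cons 0x9034782156 (.cons 0x4903287651 .nil)))) .done .done) .done) .done) .done) .done)) .done)) .done)) .done)) .done))) (.node 3 8 (.cons 0x9837654012 .nil) (.node 4 8 (.cons 0x9845673210 .nil) (.node 1 8 (.cons 0x7654321890 .nil) (.node 2 8 (.cons 0x9821045673 .nil) (.node 0 6 (.cons 0x7609812345 .nil) (.node 2 7 (.cons 0x9837210456 .nil) (.node 6 8 (.cons 0x9076812345 .nil) (.node 5 8 .nil (.node 2 9 (.cons 0x4567329801 (.cons 0x7340658921 (.cons 0x1298567340 .nil))) .done .done) .done) .done) .done) .done)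 (.node 1 7 .nil (.node 4 7 (.cons 0x6547109832 .nil) (.node 6 8 (.cons 0x5476890123 (.cons 0x9071238654 .nil)) .done .done) (.node 5 8 (.cons 0x6712345890 .nil) (.node 6 8 (.cons 0x5432176890 .nil) .done .done) .done)) .done)) (.node 0 5 (.cons 0x9845012376 .nil) (.node 4 7 (.cons 0x6509874321 .nil) (.node 4 9 (.cons 0x8945673210 .nil) (.node 0 6 (.cons 0x5601237894 .nil) (.node 0 2 .nil (.node 6 9 (.cons 0x5489673210 (.cons 0x4378965021 (.cons 0x5489673201 (.cons 0x7389654021 .nil)))) .done (.node 2 7 (.cons 0x6547238901 .nil) (.node 0 3 .nil (.node 1 8 (.cons 0x7654321890 (.cons 0x5603274981 (.cons 0x6549812730 .nil))) .done .done) .done) .done)) .done) .done) .done) .done) .done)) (.node 0 6 .nil (.node 1 7 (.cons 0x8906712345 (.cons 0x5438906712 .nil)) (.node 0 5 (.cons 0x6509871234 .nil) .done .done) (.node 4 8 (.cons 0x9845673210 .nil) (.node 1 8 (.cons 0x7654321890 .nil) (.node 2 8 (.cons 0x9821045673 .nil) (.node 2 7 (.cons 0x9812734065 .nil) (.node 4 7 (.cons 0x7432189065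 .nil) (.node 4 6 (.cons 0x9078123465 .nil) (.node 0 2 (.cons 0x9810237456 .nil) (.node 0 5 (.cons 0x9056432187 .nil) .done .done) .done) .done) .done) .done) (.node 0 3 (.cons 0x7654309812 .nil) (.node 0 5 .nil (.node 0 2 (.cons 0x9812054376 .nil) .done .done) .done) .done)) (.node 1 7 (.cons 0x7123489065 .nil) (.node 0 5 (.cons 0x8905432176 .nil) (.node 0 3 .nil (.node 1 8 (.cons 0x7654321890 (.cons 0x7654309812 .nil)) (.node 7 9 (.cons 0x6548973210 (.cons 0x2189765430 (.cons 0x4567981032 (.cons 0x4567981230 .nil)))) .done .done) .done) .done) (.node 1 8 (.cons 0x7654321890 .nil) (.node 1 6 (.cons 0x9078432165 .nil) (.node 0 3 (.cons 0x8903456712 .nil) (.node 0 5 (.cons 0x9056123487 .nil) .done .done) .done) .done) .done)) .done)) .done)) .done)) .done)))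
noncomputable def uc9_0_9 : T := (.node 0 4 (.cons 0x5678904321 .nil) tc9_0_58 (.node 0 4 (.cons 0x5678904321 .nil) tc9_0_57 (.node 0 4 (.cons 0x5678904321 .nil) tc9_0_55 .done)))
theorem sub_c9_0_9 : root 9 refs9_0 [] 0x700000008704000000204060080000060500000000504000000004010000080010300000000302000000002018200000010 0xfe7fff6bfeafff9fffcfffedfef5fff3fff9fef9 9 0 7 (.cons 0x8907654321 .nil) uc9_0_9 = true := by decide +kernel
noncomputable def tc9_0_59 : T := (.node 2 4 (.cons 0x9801245673 .nil) (.node 1 8 (.cons 0x7654321890 .nil) (.node 4 7 .nil (.node 2 6 (.cons 0x9810732654 (.cons 0x9810745623 (.cons 0x5623470981 (.cons 0x3265470981 .nil)))) .done (.node 1 4 .nil (.node 2 7 (.cons 0x6543270981 (.cons 0x6541890723 .nil)) (.node 2 9 (.cons 0x3298456701 (.cons 0x8923701456 (.cons 0x5673412980 (.cons 0x6541892370 .nil)))) .done .done) .done) .done)) (.node 6 8 (.cons 0x9867321045 .nil) (.node 4 6 .nil (.node 2 5 (.cons 0x9867325401 (.cons 0x9810764523 (.cons 0x9810732546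 (.cons 0x3254670981 .nil)))) .done (.node 4 7 .nil (.node 3 5 (.cons 0x9087653421 (.cons 0x9018674532 (.cons 0x3564789012 .nil))) (.node 0 2 (.cons 0x9865473201 (.cons 0x9847653201 .nil)) (.node 1 4 (.cons 0x9873564102 .nil) .done .done) .done) .done) .done)) (.node 2 8 .nil (.node 1 7 (.cons 0x5409867123 (.cons 0x9082176543 (.cons 0x3456712890 .nil))) .done (.node 5 8 (.cons 0x9854012376 .nil) (.node 3 8 .nil (.node 1 7 (.cons 0x6543289071 (.cons 0x9083456712 (.cons 0x2176543890 .nil))) .done .done) .done) .done)) .done)) .done)) (.node 4 9 (.cons 0x8945673210 .nil) (.node 1 4 .nil (.node 2 8 (.cons 0x3765498210 (.cons 0x3289076541 .nil)) (.node 2 9 (.cons 0x3298456701 (.cons 0x5673412980 (.cons 0x3765412980 .nil))) .done .done) (.node 4 7 .nil (.node 0 5 (.cons 0x6501249873 (.cons 0x6509874321 .nil)) (.node 3 5 (.cons 0x6537894210 (.cons 0x6532109874 (.cons 0x6532478901 .nil))) .done .done) .done) .done)) (.node 1 8 (.cons 0x2376549810 .nil) (.node 0 2 (.cons 0x8945673201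 .nil) (.node 0 6 .nil (.node 1 5 (.cons 0x4321567890 (.cons 0x9876043215 (.cons 0x7815609432 (.cons 0x9873421560 .nil)))) .done (.node 0 5 .nil (.node 1 6 (.cons 0x7098165432 (.cons 0x9876123405 (.cons 0x7816509432 (.cons 0x9873421650 .nil)))) .done (.node 0 3 .nil (.node 1 5 (.cons 0x4321567890 (.cons 0x4987651032 (.cons 0x9487651032 (.cons 0x4309876512 .nil)))) .done .done) .done)) .done)) (.node 0 6 .nil (.node 1 5 (.cons 0x4321567890 (.cons 0x9876043215 (.cons 0x7815609432 (.cons 0x9873421560 .nil)))) .done (.node 4 6 (.cons 0x7320189465 .nil) (.node 0 3 (.cons 0x9873012465 .nil) (.node 0 5 (.cons 0x9812056437 .nil) .done .done) .done) .done)) .done)) (.node 2 8 .nil (.node 1 7 (.cons 0x9082176543 (.cons 0x3456712890 .nil)) (.node 3 6 (.cons 0x9801245637 (.cons 0x7632810945 (.cons 0x5637108942 (.cons 0x9801736542 .nil)))) .done .done) (.node 6 8 (.cons 0x9865423701 .nil) (.node 5 8 (.cons 0x9854012376 .nil) (.node 3 8 .nil (.node 1 7 (.cons 0x9865423710 (.cons 0x9083456712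 (.cons 0x2176543890 .nil))) .done .done) .done) .done) .done)) .done)) .done)) .done)) (.node 0 6 (.cons 0x9845601237 .nil) (.node 4 9 (.cons 0x8945673210 .nil) (.node 0 5 .nil (.node 1 9 (.cons 0x6548910732 (.cons 0x6734508912 (.cons 0x4376508912 .nil))) (.node 4 7 (.cons 0x8743219065 (.cons 0x8743219056 .nil)) .done .done) (.node 4 7 (.cons 0x6509874321 .nil) (.node 2 4 (.cons 0x9801245673 .nil) (.node 1 4 .nil (.node 2 6 (.cons 0x9845623701 (.cons 0x9841073265 (.cons 0x3789412650 .nil))) .done .done) .done) .done) .done)) (.node 0 5 .nil (.node 2 4 (.cons 0x9801245673 (.cons 0x3249876501 .nil)) (.node 1 9 (.cons 0x6548910732 (.cons 0x8732491056 (.cons 0x6734508912 (.cons 0x4376508912 (.cons 0x8765091243 .nil))))) .done .done) (.node 0 2 (.cons 0x8945673201 .nil) (.node 0 3 .nil (.node 1 4 (.cons 0x6501498732 (.cons 0x5678941032 (.cons 0x5678903412 .nil))) (.node 1 5 (.cons 0x4321567890 (.cons 0x4987651032 (.cons 0x4309876512 .nil))) .done .done) .done) .done) .done)) .done))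 (.node 4 7 (.cons 0x9847321065 .nil) (.node 2 4 (.cons 0x9801245673 .nil) (.node 1 4 .nil (.node 3 5 (.cons 0x9087653412 (.cons 0x9870142356 (.cons 0x9876532410 .nil))) (.node 7 9 (.cons 0x6548973210 (.cons 0x6798012453 (.cons 0x4897356012 (.cons 0x8479065321 .nil)))) .done .done) (.node 1 7 (.cons 0x7123489065 .nil) (.node 4 9 (.cons 0x8945673210 .nil) (.node 4 6 .nil (.node 3 5 (.cons 0x2143567890 (.cons 0x9012356487 (.cons 0x7890123564 (.cons 0x8901764532 .nil)))) .done .done) .done) .done) .done)) .done) (.node 4 9 (.cons 0x8945673210 .nil) (.node 5 7 (.cons 0x7560984321 .nil) (.node 1 7 (.cons 0x7123489065 .nil) (.node 1 8 (.cons 0x2376549810 .nil) (.node 2 7 (.cons 0x3276549810 .nil) (.node 7 9 (.cons 0x6548973210 .nil) .done .done) .done) .done) (.node 7 9 (.cons 0x6548973210 .nil) (.node 1 7 (.cons 0x4890657123 .nil) (.node 2 7 .nil (.node 1 5 (.cons 0x4321567890 (.cons 0x9843270651 (.cons 0x2734980651 (.cons 0x9843721560 .nil)))) .done .done) .done) .done) .done))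 .done) .done)) .done)) (.node 4 9 (.cons 0x8945673210 .nil) (.node 0 6 (.cons 0x5601237894 .nil) (.node 0 5 (.cons 0x6501237894 .nil) (.node 0 2 (.cons 0x9845673201 .nil) (.node 0 3 .nil (.node 2 6 (.cons 0x8945623701 (.cons 0x7308945621 .nil)) (.node 4 6 (.cons 0x5649873210 (.cons 0x5649873012 .nil)) .done .done) .done) .done) .done) (.node 2 4 (.cons 0x9801245673 .nil) (.node 2 6 (.cons 0x8945623701 .nil) (.node 4 6 (.cons 0x5649873210 .nil) (.node 0 2 (.cons 0x9845673201 .nil) (.node 0 3 (.cons 0x5649873012 .nil) (.node 0 5 (.cons 0x9487326501 .nil) .done .done) .done) .done) (.node 6 8 (.cons 0x9867321045 .nil) (.node 2 5 (.cons 0x7349806521 .nil) (.node 0 2 (.cons 0x9845673201 .nil) (.node 0 5 (.cons 0x6501237894 .nil) .done .done) (.node 0 2 (.cons 0x9845673201 .nil) (.node 0 5 (.cons 0x6501237894 .nil) .done .done) .done)) .done) .done)) (.node 0 2 (.cons 0x9845673201 .nil) (.node 4 7 (.cons 0x8947321065 .nil) (.node 4 6 (.cons 0x5649873210 .nil) (.node 1 4 .nil (.node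 3 5 (.cons 0x7894653210 (.cons 0x9087653412 (.cons 0x9870146532 (.cons 0x4109876532 .nil)))) .done .done) .done) .done) .done) .done)) .done)) (.node 6 8 (.cons 0x9867321045 .nil) (.node 1 8 (.cons 0x7654321890 .nil) (.node 5 8 (.cons 0x9854012376 .nil) (.node 2 8 (.cons 0x3765498210 .nil) (.node 3 8 .nil (.node 2 7 (.cons 0x3276548901 (.cons 0x9083456721 .nil)) (.node 1 4 (.cons 0x6541890723 (.cons 0x9072381456 .nil)) (.node 1 5 (.cons 0x4321567890 (.cons 0x2156783490 (.cons 0x6721540983 .nil))) .done .done) .done) .done) .done) .done) (.node 4 6 .nil (.node 5 9 (.cons 0x7689540123 (.cons 0x4659873210 (.cons 0x2376459810 .nil))) (.node 0 3 (.cons 0x7689540321 (.cons 0x9546730812 (.cons 0x5649873012 .nil))) (.node 5 7 (.cons 0x6754321890 (.cons 0x2309576481 (.cons 0x5764309812 .nil))) .done .done) .done) (.node 4 7 .nil (.node 3 8 (.cons 0x9012387465 .nil) (.node 1 7 (.cons 0x9083456712 (.cons 0x2176543890 .nil)) .done .done) .done) .done)) .done)) (.node 5 8 (.cons 0x9854012376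 .nil) (.node 1 8 (.cons 0x7654321890 .nil) (.node 2 8 (.cons 0x3765498210 .nil) (.node 3 8 .nil (.node 1 5 (.cons 0x9867321540 (.cons 0x2156783490 .nil)) (.node 2 7 (.cons 0x3276548901 (.cons 0x9083456721 (.cons 0x6721540983 .nil))) .done .done) .done) .done) (.node 2 8 (.cons 0x3765498210 .nil) (.node 3 8 .nil (.node 1 7 (.cons 0x6543289071 (.cons 0x9083456712 (.cons 0x2176543890 .nil))) .done .done) .done) .done)) (.node 0 5 .nil (.node 1 3 (.cons 0x7654890132 (.cons 0x8765094312 (.cons 0x2137689450 (.cons 0x5049867312 .nil)))) (.node 1 9 (.cons 0x2376548910 (.cons 0x6734508912 (.cons 0x4376508912 .nil))) .done .done) (.node 3 5 (.cons 0x7689045321 .nil) (.node 5 9 (.cons 0x1237689540 .nil) (.node 0 6 (.cons 0x8954067321 .nil) (.node 0 2 (.cons 0x9845673201 .nil) (.node 0 3 (.cons 0x8945673012 .nil) .done .done) .done) .done) .done) .done)) .done)) .done)) .done)) .done)))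
noncomputable def tc9_0_60 : T := (.node 0 5 .nil (.node 4 9 (.cons 0x8945673210 (.cons 0x6501237894 (.cons 0x8945012376 .nil))) (.node 2 4 (.cons 0x9801245673 (.cons 0x6501249873 .nil)) (.node 1 9 (.cons 0x8910765423 (.cons 0x6734508912 (.cons 0x4376508912 .nil))) (.node 3 9 (.cons 0x8932456701 (.cons 0x7650893421 (.cons 0x4239876501 .nil))) (.node 4 6 (.cons 0x5467398012 (.cons 0x4650198732 .nil)) .done .done) .done) (.node 6 9 (.cons 0x5421089673 (.cons 0x5089673421 (.cons 0x8967324501 (.cons 0x3769805421 .nil)))) .done .done)) (.node 2 4 (.cons 0x9801245673 (.cons 0x3249876501 .nil)) (.node 4 8 (.cons 0x9845673210 (.cons 0x9845012376 .nil)) (.node 2 9 (.cons 0x3298456701 (.cons 0x6734508921 (.cons 0x4376508921 .nil))) (.node 1 8 (.cons 0x2376549810 (.cons 0x6504923781 .nil)) (.node 1 6 (.cons 0x3708924561 (.cons 0x9816705432 (.cons 0x8167329450 (.cons 0x8167329405 (.cons 0x9873421650 .nil))))) .done .done) .done) .done) (.node 6 9 (.cons 0x5421089673 (.cons 0x5089673421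 (.cons 0x3769805421 .nil))) (.node 0 2 (.cons 0x4378965021 .nil) (.node 0 6 (.cons 0x5069873421 .nil) .done .done) .done) .done)) .done)) (.node 4 7 (.cons 0x6509874321 .nil) (.node 1 7 (.cons 0x6509871234 .nil) (.node 0 6 .nil (.node 1 5 (.cons 0x4321567890 (.cons 0x9874321506 .nil)) (.node 1 6 (.cons 0x9874321605 .nil) (.node 1 9 (.cons 0x7345608912 (.cons 0x5437608912 .nil)) (.node 2 4 (.cons 0x3421567890 (.cons 0x8910765423 (.cons 0x9873421560 .nil))) .done .done) .done) .done) (.node 1 5 (.cons 0x4321567890 .nil) (.node 1 6 (.cons 0x7890561234 .nil) (.node 1 4 .nil (.node 3 5 (.cons 0x9806743512 (.cons 0x9087653412 (.cons 0x4109876532 .nil))) .done (.node 2 4 (.cons 0x9873421650 .nil) (.node 4 6 (.cons 0x7890564321 .nil) (.node 4 8 (.cons 0x9845673210 .nil) .done .done) .done) .done)) .done) (.node 1 6 (.cons 0x7890561234 .nil) (.node 1 4 (.cons 0x9870561432 .nil) (.node 0 2 (.cons 0x9870234165 .nil) (.node 0 3 (.cons 0x4309876512 .nil) .done .done) .done) .done) .done))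 .done)) (.node 0 6 .nil (.node 2 4 (.cons 0x6509871243 (.cons 0x5609871243 .nil)) (.node 1 9 (.cons 0x8910765423 (.cons 0x7345608912 (.cons 0x5437608912 .nil))) (.node 5 8 (.cons 0x6745890123 (.cons 0x5891234760 (.cons 0x5891067423 (.cons 0x6058912374 .nil)))) .done .done) .done) (.node 0 2 (.cons 0x8902176543 .nil) (.node 0 3 (.cons 0x8903456712 .nil) .done .done) .done)) .done)) (.node 1 7 (.cons 0x6509871234 .nil) (.node 0 6 .nil (.node 3 8 (.cons 0x9083456712 (.cons 0x9837456012 .nil)) (.node 1 5 (.cons 0x4321567890 (.cons 0x7609834512 .nil)) (.node 2 9 (.cons 0x9215678043 (.cons 0x3478921560 (.cons 0x5437608921 (.cons 0x5129834760 (.cons 0x3892154760 .nil))))) .done .done) (.node 2 7 (.cons 0x4567238901 .nil) (.node 1 5 (.cons 0x4321567890 (.cons 0x9806721543 (.cons 0x2760983451 .nil))) .done (.node 5 7 (.cons 0x8906754321 .nil) (.node 1 4 (.cons 0x1456723890 (.cons 0x7238906541 (.cons 0x6754109832 .nil))) (.node 1 8 (.cons 0x7654321890 (.cons 0x9814560723 (.cons 0x6754321890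 .nil))) .done .done) .done) .done)) .done)) (.node 1 6 (.cons 0x3478905612 .nil) (.node 0 3 (.cons 0x9874305612 .nil) (.node 0 2 .nil (.node 1 8 (.cons 0x7654321890 (.cons 0x9816543207 (.cons 0x9816702345 .nil))) .done .done) .done) (.node 1 5 (.cons 0x4321567890 .nil) (.node 0 2 .nil (.node 1 8 (.cons 0x7654321890 (.cons 0x9816543702 (.cons 0x9815432076 .nil))) .done (.node 0 3 .nil (.node 2 9 (.cons 0x4378921650 (.cons 0x6512987430 (.cons 0x8921567430 (.cons 0x4567308921 .nil)))) .done .done) .done)) .done) .done)) .done)) (.node 0 6 (.cons 0x8906712345 .nil) (.node 4 6 (.cons 0x7890564321 .nil) (.node 7 9 (.cons 0x8971234605 .nil) (.node 0 3 (.cons 0x8971230546 .nil) (.node 0 2 .nil (.node 5 9 (.cons 0x6432178950 (.cons 0x5987643021 (.cons 0x6432059871 .nil))) .done .done) .done) .done) (.node 3 6 .nil (.node 2 9 (.cons 0x8923710546 (.cons 0x5463710892 (.cons 0x8921054736 (.cons 0x8921056374 (.cons 0x2980546371 .nil))))) .done (.node 3 5 (.cons 0x8901764532 .nil) (.node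 7 9 .nil (.node 1 4 (.cons 0x4109876532 (.cons 0x9780563412 (.cons 0x5608973412 .nil))) .done (.node 5 9 (.cons 0x8765904321 .nil) (.node 6 9 (.cons 0x6980543712 .nil) .done .done) .done)) .done) .done)) .done)) .done) .done)) .done)) .done)) (.node 0 5 .nil (.node 1 9 (.cons 0x6734508912 (.cons 0x4376508912 (.cons 0x6504378912 .nil))) (.node 2 4 (.cons 0x9801245673 (.cons 0x8910765423 (.cons 0x5678091243 .nil))) (.node 2 7 (.cons 0x8091276543 (.cons 0x6540891273 .nil)) (.node 6 9 (.cons 0x5089673421 (.cons 0x8965401273 (.cons 0x8967324501 (.cons 0x4056987321 .nil)))) .done .done) .done) (.node 4 6 (.cons 0x9873210465 (.cons 0x7891234650 (.cons 0x2198734650 (.cons 0x4650198732 .nil)))) (.node 4 8 (.cons 0x9845673210 (.cons 0x9845012376 (.cons 0x9105648732 .nil))) (.node 1 6 (.cons 0x7890432165 (.cons 0x7056198432 (.cons 0x9873405612 .nil))) (.node 1 8 (.cons 0x7654321890 (.cons 0x9816705432 .nil)) .done .done) .done) .done) .done)) (.node 0 6 .nil (.node 1 9 (.cons 0x8765091234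 (.cons 0x7345608912 (.cons 0x5437608912 (.cons 0x5604378912 .nil)))) (.node 1 5 (.cons 0x4321567890 (.cons 0x7890651234 (.cons 0x9873406512 .nil))) (.node 5 7 (.cons 0x6578904321 (.cons 0x8912375604 .nil)) (.node 1 8 (.cons 0x7654321890 (.cons 0x3457609812 .nil)) (.node 1 3 (.cons 0x6578904312 (.cons 0x8906754312 .nil)) (.node 2 9 (.cons 0x5678092134 (.cons 0x7345608921 (.cons 0x5437608921 (.cons 0x4560732981 .nil)))) .done .done) .done) .done) .done) .done) (.node 5 7 (.cons 0x6578904321 .nil) (.node 0 2 .nil (.node 1 6 (.cons 0x3409875612 (.cons 0x9875612043 (.cons 0x9873402165 .nil))) (.node 3 8 (.cons 0x9043875612 (.cons 0x9021657834 (.cons 0x6754389021 .nil))) (.node 1 9 (.cons 0x8765091234 (.cons 0x4387561902 (.cons 0x8345761902 (.cons 0x8912043756 (.cons 0x4567389102 .nil))))) .done .done) .done) (.node 0 3 .nil (.node 1 8 (.cons 0x7654321890 (.cons 0x9812034576 (.cons 0x6754309812 .nil))) (.node 2 4 (.cons 0x9812437560 (.cons 0x9812430657 (.cons 0x9034218756 .nil)))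 .done .done) .done) .done)) (.node 7 9 (.cons 0x8973210456 .nil) (.node 4 9 (.cons 0x8945673210 .nil) (.node 0 3 (.cons 0x8945673012 .nil) (.node 0 2 .nil (.node 1 5 (.cons 0x4321567890 (.cons 0x3498765120 (.cons 0x9873402156 .nil))) (.node 6 8 (.cons 0x4576890321 (.cons 0x6897023451 (.cons 0x6897320154 (.cons 0x5498673021 .nil)))) .done .done) .done) .done) (.node 0 2 (.cons 0x8945673201 .nil) (.node 0 3 .nil (.node 1 4 (.cons 0x6578904123 (.cons 0x5678941032 (.cons 0x8903214576 (.cons 0x5678903412 .nil)))) (.node 2 4 (.cons 0x9801245673 (.cons 0x5678942301 .nil)) .done .done) .done) .done) .done)) (.node 4 9 (.cons 0x8945673210 .nil) (.node 0 3 .nil (.node 1 4 (.cons 0x6578904123 (.cons 0x8941230675 (.cons 0x5678903412 .nil))) (.node 2 4 (.cons 0x9801245673 (.cons 0x8976542103 .nil)) .done .done) (.node 0 2 .nil (.node 1 6 (.cons 0x4098756123 (.cons 0x8976120345 (.cons 0x9873402165 .nil))) (.node 3 8 (.cons 0x8321675490 (.cons 0x5612097834 (.cons 0x8320945761 .nil))) .done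 .done) .done) .done)) (.node 5 9 (.cons 0x6598732104 .nil) (.node 2 5 (.cons 0x6523789401 .nil) (.node 0 2 (.cons 0x8945673201 .nil) (.node 0 3 (.cons 0x4987652301 .nil) .done .done) .done) .done) .done)) .done)) .done)) .done)) .done)) (.node 4 8 (.cons 0x9845673210 .nil) tc9_0_59 .done)))
noncomputable def tc9_0_61 : T := (.node 4 8 (.cons 0x9845673210 .nil) (.node 2 4 (.cons 0x9801245673 .nil) (.node 1 4 .nil (.node 0 2 (.cons 0x9802143765 .nil) (.node 2 9 (.cons 0x5673412980 (.cons 0x3765412980 .nil)) (.node 5 9 (.cons 0x6598732104 (.cons 0x6598734021 (.cons 0x8765901423 (.cons 0x6598732140 .nil)))) .done .done) .done) (.node 4 6 (.cons 0x9873210465 .nil) (.node 4 7 .nil (.node 0 2 (.cons 0x5678902143 .nil) (.node 3 9 (.cons 0x7654893210 (.cons 0x6547398012 (.cons 0x5674893210 (.cons 0x5674893201 .nil)))) .done .done) .done) .done) .done)) .done) (.node 2 7 (.cons 0x3276548901 .nil) (.node 2 4 (.cons 0x9801245673 .nil) (.node 0 2 (.cons 0x9845673201 .nil) (.node 2 6 (.cons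 0x5498012673 .nil) (.node 1 7 (.cons 0x9804562173 .nil) (.node 4 7 .nil (.node 1 9 (.cons 0x2376548910 (.cons 0x3745621980 (.cons 0x5621980473 .nil))) .done .done) .done) .done) .done) .done) (.node 0 5 (.cons 0x8945012376 .nil) (.node 0 2 (.cons 0x9845673201 .nil) (.node 2 9 .nil (.node 1 6 (.cons 0x9804561273 (.cons 0x5016784923 (.cons 0x9237840165 (.cons 0x8492376105 (.cons 0x5612987340 .nil))))) .done (.node 0 6 (.cons 0x7329845601 .nil) (.node 0 3 .nil (.node 1 5 (.cons 0x4321567890 (.cons 0x6721549803 (.cons 0x4309876512 .nil))) (.node 1 4 (.cons 0x3729806541 (.cons 0x9872306514 (.cons 0x9032784156 (.cons 0x8927306541 .nil)))) .done .done) .done) .done) .done)) .done) (.node 3 5 (.cons 0x6735498012 .nil) (.node 5 7 (.cons 0x6578904321 .nil) (.node 7 9 (.cons 0x8973210456 .nil) (.node 4 7 .nil (.node 2 9 (.cons 0x4876532901 (.cons 0x6534780921 (.cons 0x8476532901 .nil))) .done (.node 1 7 .nil (.node 2 9 (.cons 0x4876532901 (.cons 0x6548923710 (.cons 0x2908435671 .nil)))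 .done .done) .done)) .done) .done) (.node 3 8 .nil (.node 1 5 (.cons 0x4321567890 (.cons 0x6721549083 (.cons 0x6709834512 .nil))) (.node 0 6 (.cons 0x5123498760 (.cons 0x9451276083 (.cons 0x4983276051 .nil))) .done .done) (.node 2 4 (.cons 0x9801245673 .nil) (.node 2 8 (.cons 0x6732894501 .nil) (.node 1 8 (.cons 0x7654321890 .nil) (.node 5 8 (.cons 0x6709854321 .nil) (.node 6 8 (.cons 0x5498673210 .nil) .done .done) .done) .done) (.node 4 7 (.cons 0x6532109874 .nil) (.node 1 4 (.cons 0x6723890541 .nil) (.node 4 6 (.cons 0x3564789012 .nil) .done .done) .done) .done)) .done)) .done)) .done)) .done)) .done)) (.node 7 9 (.cons 0x8973210456 .nil) (.node 6 9 (.cons 0x5698732104 .nil) (.node 2 7 (.cons 0x5698043721 .nil) (.node 1 7 (.cons 0x5698043712 .nil) (.node 4 7 .nil (.node 3 9 (.cons 0x8093456721 (.cons 0x6547398012 .nil)) (.node 1 9 (.cons 0x8091276543 .nil) (.node 0 6 (.cons 0x7345608912 (.cons 0x8743219065 (.cons 0x8910654732 .nil))) .done .done) .done) .done) .done) (.node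 2 6 (.cons 0x8973265401 .nil) (.node 4 7 .nil (.node 3 9 (.cons 0x5439807621 (.cons 0x6547398012 (.cons 0x5476210893 .nil))) .done (.node 1 7 (.cons 0x5698043712 .nil) (.node 5 7 (.cons 0x6578904321 .nil) .done .done) .done)) (.node 3 6 (.cons 0x9804563721 .nil) (.node 0 6 .nil (.node 1 9 (.cons 0x2736540891 (.cons 0x7345608912 (.cons 0x5437608912 .nil))) .done .done) .done) .done)) .done)) (.node 5 9 (.cons 0x6598732104 .nil) (.node 6 8 (.cons 0x2379865401 .nil) (.node 4 7 (.cons 0x6895470123 .nil) (.node 1 7 (.cons 0x6895432170 .nil) (.node 2 7 (.cons 0x3279865401 .nil) (.node 5 7 (.cons 0x6578904321 .nil) .done .done) .done) .done) (.node 4 6 (.cons 0x4659873210 .nil) (.node 4 8 (.cons 0x9845673210 .nil) (.node 1 4 (.cons 0x5698732140 .nil) (.node 2 4 (.cons 0x9568732410 .nil) .done .done) .done) (.node 4 7 (.cons 0x8746590123 .nil) .done .done)) .done)) .done) .done)) (.node 2 7 .nil (.node 6 9 (.cons 0x5698732104 (.cons 0x5698043721 .nil)) (.node 1 5 (.cons 0x4321567890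 (.cons 0x1569872340 (.cons 0x8723409651 (.cons 0x6512789043 .nil)))) (.node 0 6 (.cons 0x7890651234 (.cons 0x8721560943 (.cons 0x8943721560 .nil))) .done .done) .done) (.node 1 7 .nil (.node 6 9 (.cons 0x5698732104 (.cons 0x5698043712 (.cons 0x8965401732 .nil))) .done (.node 5 7 (.cons 0x6578904321 .nil) (.node 5 9 (.cons 0x6598732104 .nil) (.node 3 5 (.cons 0x6537894012 .nil) (.node 0 2 (.cons 0x8765349021 .nil) (.node 0 5 (.cons 0x8943765021 .nil) .done .done) .done) .done) .done) .done)) .done)) .done)) (.node 4 8 (.cons 0x9845673210 .nil) (.node 7 9 (.cons 0x8973210456 .nil) (.node 1 7 .nil (.node 6 8 (.cons 0x3798654012 (.cons 0x9865401732 .nil)) (.node 6 9 (.cons 0x5489670123 (.cons 0x5698043712 .nil)) .done .done) (.node 4 7 .nil (.node 3 9 (.cons 0x7654893210 (.cons 0x6547398012 (.cons 0x5674893210 .nil))) (.node 6 8 (.cons 0x3798654012 .nil) (.node 1 9 (.cons 0x5687190432 (.cons 0x2374568910 (.cons 0x5689104732 .nil))) .done (.node 0 5 (.cons 0x9321768450 (.cons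 0x8674509321 .nil)) (.node 3 5 (.cons 0x4539086712 (.cons 0x9047865321 (.cons 0x6890745321 .nil))) .done .done) .done)) .done) .done) .done)) (.node 2 7 .nil (.node 6 9 (.cons 0x5489670123 (.cons 0x5698043721 (.cons 0x8965401273 .nil))) .done (.node 0 2 (.cons 0x8945673201 .nil) (.node 2 4 (.cons 0x9801245673 .nil) (.node 1 7 .nil (.node 5 9 (.cons 0x4376598021 (.cons 0x6598021734 (.cons 0x3489567120 .nil))) .done (.node 4 7 .nil (.node 1 4 (.cons 0x8941023765 .nil) (.node 1 5 (.cons 0x4321567890 (.cons 0x8947651023 (.cons 0x6512347890 .nil))) .done .done) .done) .done)) .done) .done) .done)) .done)) (.node 2 4 (.cons 0x9801245673 .nil) (.node 0 5 (.cons 0x3249876501 .nil) (.node 0 2 (.cons 0x8945673201 .nil) (.node 0 3 (.cons 0x5678942301 .nil) (.node 0 6 .nil (.node 1 5 (.cons 0x3249876510 (.cons 0x7890651234 (.cons 0x9873406512 .nil))) (.node 2 9 (.cons 0x6708921543 (.cons 0x7345608921 (.cons 0x5437608921 (.cons 0x3294876051 .nil)))) .done .done) .done) .done) .done) (.node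 1 4 (.cons 0x9876501423 .nil) (.node 4 6 (.cons 0x9873210465 .nil) (.node 4 7 .nil (.node 3 5 (.cons 0x9873564012 (.cons 0x3564789012 .nil)) (.node 6 9 (.cons 0x5489673210 (.cons 0x8476901235 (.cons 0x8740965321 .nil))) .done .done) .done) .done) (.node 4 6 (.cons 0x9873210465 .nil) (.node 4 7 .nil (.node 3 9 (.cons 0x4239876501 (.cons 0x6547398012 (.cons 0x8932476501 .nil))) (.node 1 9 (.cons 0x8764239105 (.cons 0x6501987423 (.cons 0x8910567423 .nil))) .done .done) .done) .done) .done)) .done)) (.node 0 2 (.cons 0x8945673201 .nil) (.node 2 7 .nil (.node 1 6 (.cons 0x5610498732 (.cons 0x5610498723 (.cons 0x9804372165 (.cons 0x5612789043 .nil)))) (.node 1 8 (.cons 0x2376549810 (.cons 0x3276549810 (.cons 0x5618723490 .nil))) .done .done) (.node 7 9 (.cons 0x8973210456 .nil) (.node 2 6 (.cons 0x5623789401 .nil) (.node 2 5 (.cons 0x6523789401 .nil) (.node 2 8 (.cons 0x6540128973 .nil) .done .done) .done) .done) .done)) .done) .done)) .done)) .done)))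
noncomputable def tc9_0_62 : T := (.node 1 8 (.cons 0x7654321890 .nil) (.node 0 5 (.cons 0x9812345076 .nil) (.node 1 7 (.cons 0x6509871234 .nil) (.node 1 5 (.cons 0x4321567890 .nil) (.node 1 6 (.cons 0x7890561234 .nil) (.node 2 7 (.cons 0x9805612734 .nil) (.node 0 6 .nil (.node 2 8 (.cons 0x6709821543 (.cons 0x9821543706 (.cons 0x9821543760 .nil))) .done (.node 6 8 (.cons 0x9056871234 .nil) (.node 5 8 (.cons 0x6709854321 .nil) (.node 5 7 .nil (.node 1 4 (.cons 0x5890761432 (.cons 0x6890754123 (.cons 0x2341675890 .nil))) .done .done) .done) .done) .done)) .done) .done) .done) (.node 0 2 (.cons 0x8902176543 .nil) (.node 0 3 (.cons 0x8903456712 .nil) (.node 1 5 (.cons 0x4321567890 .nil) (.node 3 5 (.cons 0x8902176534 .nil) .done .done) .done) .done) .done)) (.node 5 8 (.cons 0x6709854321 .nil) (.node 1 7 (.cons 0x9043217856 .nil) (.node 1 5 (.cons 0x4321567890 .nil) (.node 0 6 (.cons 0x9065871234 .nil) (.node 1 6 (.cons 0x9816705432 .nil) .done .done) .done) (.node 1 5 (.cons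 0x4321567890 .nil) (.node 3 5 .nil (.node 1 6 (.cons 0x9816705432 .nil) (.node 2 4 (.cons 0x9087651243 (.cons 0x9807612435 (.cons 0x6534217890 (.cons 0x9801245376 .nil)))) .done .done) .done) .done) .done)) (.node 5 9 (.cons 0x9567812340 .nil) (.node 0 6 (.cons 0x9560432187 .nil) (.node 6 8 (.cons 0x7865904321 .nil) (.node 3 6 (.cons 0x4589076321 .nil) (.node 3 5 .nil (.node 2 9 (.cons 0x9234056781 (.cons 0x9235401867 (.cons 0x9218043567 (.cons 0x9235407681 .nil)))) .done .done) .done) .done) .done) (.node 0 6 .nil (.node 2 8 (.cons 0x3409567821 (.cons 0x9560437821 (.cons 0x1289543760 .nil))) .done (.node 0 2 (.cons 0x9567812043 .nil) (.node 0 3 (.cons 0x6703459812 .nil) .done .done) .done)) .done)) .done)) .done)) (.node 0 6 .nil (.node 7 9 (.cons 0x2189734560 (.cons 0x4560189732 .nil)) (.node 6 9 (.cons 0x5697340812 (.cons 0x5437069812 (.cons 0x8104569732 (.cons 0x8123796540 .nil)))) .done (.node 2 9 (.cons 0x6540812973 (.cons 0x7345608921 (.cons 0x5437608921 .nil))) (.node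 6 9 (.cons 0x5437069812 .nil) (.node 4 6 (.cons 0x5460798123 .nil) (.node 4 7 (.cons 0x2374569810 (.cons 0x9810654732 .nil)) .done .done) .done) .done) .done)) (.node 0 2 .nil (.node 4 7 (.cons 0x7432189065 (.cons 0x9810237456 .nil)) (.node 6 9 (.cons 0x7812340965 (.cons 0x7345698120 (.cons 0x3745698102 (.cons 0x3745698120 .nil)))) .done .done) (.node 1 7 (.cons 0x9802173456 .nil) (.node 2 7 .nil (.node 6 9 (.cons 0x7345698021 (.cons 0x8172345690 (.cons 0x9654081273 .nil))) (.node 0 3 (.cons 0x4569810372 .nil) (.node 1 5 (.cons 0x4378965120 (.cons 0x8967034512 (.cons 0x4309876512 .nil))) .done .done) .done) (.node 0 3 .nil (.node 4 7 (.cons 0x7432189065 (.cons 0x6547218903 (.cons 0x6547230981 .nil))) .done (.node 0 5 .nil (.node 2 9 (.cons 0x8092176543 (.cons 0x6734508921 (.cons 0x4376508921 .nil))) .done .done) .done)) .done)) (.node 4 7 (.cons 0x7432189065 .nil) (.node 7 9 (.cons 0x6543798021 .nil) (.node 0 3 (.cons 0x8903456712 .nil) (.node 0 5 .nil (.node 1 6 (.cons 0x4561208973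 (.cons 0x9874320561 (.cons 0x9056187432 .nil))) .done .done) .done) .done) .done) .done)) .done)) (.node 1 7 (.cons 0x7189065432 .nil) (.node 2 7 (.cons 0x7234560981 .nil) (.node 7 9 (.cons 0x8179065432 .nil) (.node 4 7 (.cons 0x3274560981 .nil) (.node 5 7 (.cons 0x9043218756 .nil) .done .done) (.node 4 7 (.cons 0x3274560981 .nil) (.node 5 7 (.cons 0x9043218756 .nil) .done .done) .done)) .done) (.node 4 7 (.cons 0x9810654732 .nil) (.node 7 9 (.cons 0x4560189732 .nil) (.node 2 7 (.cons 0x7234560981 .nil) (.node 5 7 (.cons 0x9043218756 .nil) .done .done) .done) .done) .done)) .done))) (.node 0 6 (.cons 0x7609812345 .nil) (.node 0 2 .nil (.node 1 7 (.cons 0x8902176543 .nil) (.node 0 5 (.cons 0x6509871234 (.cons 0x6718905432 .nil)) .done (.node 5 9 (.cons 0x8765904321 (.cons 0x6734598120 (.cons 0x6732018954 .nil))) (.node 0 5 (.cons 0x9812054376 .nil) (.node 6 9 (.cons 0x8176905432 (.cons 0x5437698120 (.cons 0x6954371802 (.cons 0x4502376981 .nil)))) .done .done) (.node 6 9 (.cons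 0x8123769540 (.cons 0x5437698120 (.cons 0x8176902345 .nil))) .done .done)) .done)) (.node 0 5 .nil (.node 6 9 (.cons 0x7345698021 (.cons 0x2189673450 (.cons 0x4501896732 .nil))) (.node 2 9 (.cons 0x5408129673 (.cons 0x6734508921 (.cons 0x4376508921 .nil))) .done .done) (.node 0 3 .nil (.node 1 7 (.cons 0x6718905432 (.cons 0x8903456712 .nil)) (.node 2 7 (.cons 0x6723450981 .nil) (.node 5 7 (.cons 0x6754321890 (.cons 0x6754309812 .nil)) .done .done) .done) .done) .done)) .done)) (.node 0 5 .nil (.node 2 9 (.cons 0x6734508921 (.cons 0x4376508921 (.cons 0x4506732981 .nil))) (.node 1 5 (.cons 0x9215678043 (.cons 0x5187609234 (.cons 0x2981543760 .nil))) (.node 1 4 (.cons 0x7890651432 (.cons 0x7892341560 (.cons 0x2987341560 .nil))) .done .done) (.node 1 7 (.cons 0x6543712980 (.cons 0x6054371892 .nil)) (.node 4 6 (.cons 0x7329810645 (.cons 0x9217805643 (.cons 0x1298734650 .nil))) .done .done) .done)) (.node 1 7 (.cons 0x6509871234 .nil) (.node 2 7 (.cons 0x5432760981 .nil) (.node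 0 2 .nil (.node 1 5 (.cons 0x4321567890 (.cons 0x9815432067 (.cons 0x9815437602 .nil))) .done (.node 0 3 .nil (.node 1 4 (.cons 0x5418906723 (.cons 0x9803721456 (.cons 0x5678903412 .nil))) (.node 1 5 (.cons 0x4321567890 (.cons 0x4309876512 .nil)) .done .done) .done) .done)) .done) (.node 0 2 (.cons 0x8902176543 .nil) (.node 0 3 (.cons 0x8903456712 .nil) .done .done) .done)) .done)) .done)) .done))) (.node 4 9 (.cons 0x8945673210 .nil) tc9_0_61 (.node 4 9 (.cons 0x8945673210 .nil) (.node 0 6 (.cons 0x5601237894 .nil) (.node 0 5 (.cons 0x6501237894 .nil) (.node 1 7 (.cons 0x6509871234 .nil) (.node 2 7 (.cons 0x6549801273 .nil) (.node 0 3 (.cons 0x6549803721 .nil) (.node 0 2 .nil (.node 3 6 (.cons 0x1273654980 .nil) (.node 1 5 (.cons 0x4321567890 (.cons 0x9436517802 (.cons 0x4987365102 .nil))) .done .done) .done) .done) .done) (.node 0 2 (.cons 0x8902176543 .nil) (.node 0 3 (.cons 0x8903456712 .nil) .done .done) .done)) .done) (.node 1 7 (.cons 0x5608943712 .nil) (.node 2 7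 (.cons 0x5608943721 .nil) (.node 4 7 (.cons 0x8947321065 .nil) (.node 5 7 .nil (.node 1 8 (.cons 0x7654321890 (.cons 0x3275604981 (.cons 0x3475609812 (.cons 0x6754321890 .nil)))) .done (.node 7 9 .nil (.node 2 6 (.cons 0x5623789401 (.cons 0x8012654973 .nil)) (.node 0 3 (.cons 0x4987562301 (.cons 0x7980345621 .nil)) (.node 1 8 (.cons 0x7654321890 (.cons 0x9765430812 (.cons 0x6540189732 (.cons 0x5401897623 .nil)))) .done .done) .done) .done) .done)) .done) .done) (.node 4 7 (.cons 0x8947321065 .nil) (.node 2 7 (.cons 0x5608943721 .nil) (.node 5 7 .nil (.node 1 6 (.cons 0x3721654980 (.cons 0x8943216075 (.cons 0x8756123490 .nil))) .done (.node 7 9 .nil (.node 2 6 (.cons 0x5623789401 (.cons 0x8012654973 .nil)) (.node 0 2 (.cons 0x8902176543 (.cons 0x6543798021 .nil)) (.node 0 3 (.cons 0x5621789430 (.cons 0x8971265430 .nil)) .done .done) .done) .done) .done)) .done) .done) .done)) .done)) (.node 0 5 (.cons 0x8945012376 .nil) (.node 4 8 (.cons 0x9845673210 .nil) (.node 3 5 (.cons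 0x6735498012 .nil) (.node 0 6 .nil (.node 1 8 (.cons 0x7654321890 (.cons 0x7609812345 .nil)) (.node 7 9 (.cons 0x6540189732 (.cons 0x2189734560 (.cons 0x4560189732 (.cons 0x6079845321 .nil)))) .done .done) (.node 0 3 .nil (.node 1 5 (.cons 0x4321567890 (.cons 0x4309876512 .nil)) (.node 2 5 (.cons 0x6789401523 (.cons 0x6730894521 .nil)) .done .done) .done) .done)) (.node 3 9 (.cons 0x7654893210 .nil) (.node 2 9 (.cons 0x8923765401 .nil) (.node 1 9 (.cons 0x9123487650 .nil) (.node 1 7 (.cons 0x4892356710 .nil) (.node 5 9 (.cons 0x6784950123 .nil) (.node 0 3 (.cons 0x6784950321 .nil) (.node 0 6 (.cons 0x4871239560 .nil) .done .done) .done) .done) .done) (.node 5 9 (.cons 0x6784950123 .nil) (.node 0 3 (.cons 0x4567308921 .nil) (.node 0 2 (.cons 0x7659843021 .nil) (.node 0 6 (.cons 0x4378956021 .nil) .done .done) .done) .done) .done)) (.node 3 6 (.cons 0x9487632105 .nil) (.node 2 9 (.cons 0x8923765401 .nil) (.node 1 9 (.cons 0x9123487650 .nil) (.node 0 2 (.cons 0x5367849102 .nil)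 (.node 0 6 (.cons 0x7345608921 .nil) .done .done) .done) (.node 2 7 (.cons 0x5672398401 .nil) (.node 1 7 (.cons 0x9348056712 .nil) (.node 4 7 (.cons 0x5674893210 .nil) .done .done) .done) .done)) .done) .done)) .done)) (.node 0 6 (.cons 0x9845601237 .nil) (.node 1 7 (.cons 0x7123489065 .nil) (.node 4 7 (.cons 0x9847321065 .nil) (.node 2 7 .nil (.node 1 5 (.cons 0x4321567890 (.cons 0x5127608943 (.cons 0x8906512743 (.cons 0x9843721560 .nil)))) .done (.node 5 7 (.cons 0x7560984321 .nil) (.node 7 9 (.cons 0x6548973210 .nil) .done .done) .done)) .done) (.node 0 2 (.cons 0x8902176543 .nil) (.node 0 3 (.cons 0x8903456712 .nil) .done .done) .done)) .done) .done)) (.node 1 7 (.cons 0x6509871234 .nil) (.node 4 7 (.cons 0x6509874321 .nil) (.node 4 8 (.cons 0x9845673210 .nil) (.node 4 6 (.cons 0x7890564321 .nil) (.node 2 4 (.cons 0x9801245673 .nil) (.node 1 4 .nil (.node 2 9 (.cons 0x8923765401 (.cons 0x5673412980 (.cons 0x3765412980 .nil))) .done .done) .done) .done) (.node 1 4 .nil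 (.node 3 5 (.cons 0x6735498012 (.cons 0x9087653412 (.cons 0x4109876532 .nil))) .done (.node 2 4 (.cons 0x9801245673 .nil) (.node 4 6 (.cons 0x7890564321 .nil) .done .done) .done)) .done)) .done) (.node 4 7 (.cons 0x6509874321 .nil) (.node 2 7 .nil (.node 1 9 (.cons 0x8910456732 (.cons 0x6543721980 (.cons 0x6508912734 .nil))) .done (.node 7 9 .nil (.node 1 6 (.cons 0x7890561234 (.cons 0x8970543216 (.cons 0x8790561234 (.cons 0x4379805612 .nil)))) .done (.node 5 7 .nil (.node 1 6 (.cons 0x7890561234 (.cons 0x6123498750 (.cons 0x8750943216 .nil))) (.node 1 8 (.cons 0x7654321890 (.cons 0x6189405723 (.cons 0x7561890432 (.cons 0x6754321890 .nil)))) .done .done) .done) .done)) .done)) .done) .done)) .done)) (.node 4 7 .nil (.node 0 5 (.cons 0x6509874321 .nil) (.node 1 9 (.cons 0x8910456732 (.cons 0x6734508912 (.cons 0x4376508912 .nil))) (.node 0 6 (.cons 0x8743219065 .nil) (.node 1 8 (.cons 0x7654321890 (.cons 0x9812345076 (.cons 0x5067349812 .nil))) .done .done) .done) (.node 0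 3 (.cons 0x8945673012 .nil) (.node 2 6 (.cons 0x5621037894 (.cons 0x8947301265 (.cons 0x9803745621 .nil))) (.node 7 9 (.cons 0x8974562301 (.cons 0x3089745621 .nil)) .done (.node 4 6 (.cons 0x5649873012 .nil) (.node 3 5 (.cons 0x7894653012 .nil) (.node 2 7 (.cons 0x2789465301 .nil) (.node 2 8 (.cons 0x3765498210 (.cons 0x9478265301 (.cons 0x3562874901 (.cons 0x6745328901 .nil)))) .done .done) .done) .done) .done)) (.node 1 5 (.cons 0x4321567890 (.cons 0x9803476512 (.cons 0x6512347890 (.cons 0x8903476512 .nil)))) .done .done)) .done)) (.node 4 6 .nil (.node 0 5 (.cons 0x7890564321 .nil) (.node 1 9 (.cons 0x8910456732 (.cons 0x5640198732 (.cons 0x6734508912 (.cons 0x4376508912 .nil)))) .done (.node 1 9 (.cons 0x8910456732 (.cons 0x5640198732 (.cons 0x8764321905 .nil))) (.node 2 5 (.cons 0x4376521980 (.cons 0x5219807643 (.cons 0x3789465210 .nil))) (.node 0 3 (.cons 0x8945673012 (.cons 0x1256498730 .nil)) (.node 1 8 (.cons 0x4981256730 (.cons 0x5218946703 (.cons 0x9056432187 (.cons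 0x5218946730 .nil)))) .done .done) .done) .done) .done)) (.node 4 8 (.cons 0x9845673210 .nil) (.node 2 4 (.cons 0x9801245673 .nil) (.node 1 4 .nil (.node 2 9 (.cons 0x8923765401 (.cons 0x5673412980 (.cons 0x3765412980 .nil))) (.node 0 6 (.cons 0x7345608921 (.cons 0x9214378065 (.cons 0x7341298065 .nil))) .done .done) .done) .done) (.node 2 4 (.cons 0x9801245673 .nil) (.node 1 4 .nil (.node 3 5 (.cons 0x6537894210 (.cons 0x9087653412 (.cons 0x4109876532 .nil))) (.node 2 7 (.cons 0x3564987210 (.cons 0x6532789041 .nil)) .done .done) .done) .done) .done)) .done)) .done)) .done))) .done)))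
noncomputable def tc9_0_63 : T := (.node 0 5 .nil (.node 1 9 (.cons 0x6734508912 (.cons 0x4376508912 (.cons 0x6504378912 .nil))) (.node 6 8 (.cons 0x9865401237 (.cons 0x9123407865 (.cons 0x7321986540 .nil))) (.node 0 6 (.cons 0x7891234065 .nil) (.node 5 8 (.cons 0x9123407856 (.cons 0x6587091234 (.cons 0x7321985604 .nil))) .done .done) .done) (.node 4 6 (.cons 0x9873210465 (.cons 0x7891234650 (.cons 0x2198734650 (.cons 0x4650198732 .nil)))) (.node 4 8 (.cons 0x9845673210 (.cons 0x9123487056 (.cons 0x9845012376 (.cons 0x9105648732 .nil)))) .done .done) .done)) (.node 0 6 .nil (.node 1 7 (.cons 0x8906712345 .nil) (.node 1 9 (.cons 0x7345608912 (.cons 0x5437608912 (.cons 0x5604378912 .nil))) (.node 6 8 (.cons 0x7198650432 (.cons 0x9865401732 (.cons 0x4056891732 .nil))) .done .done) (.node 5 7 (.cons 0x6578904321 .nil) (.node 1 4 (.cons 0x6578904123 (.cons 0x9875604123 (.cons 0x8906754123 .nil))) (.node 1 9 (.cons 0x8765091432 (.cons 0x7345608912 (.cons 0x5437608912 (.cons 0x8912375604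 .nil)))) .done .done) .done) .done)) (.node 5 7 (.cons 0x6578904321 .nil) (.node 1 7 .nil (.node 1 8 (.cons 0x6718905432 .nil) (.node 2 9 (.cons 0x9218076543 (.cons 0x6543712980 (.cons 0x6718923450 (.cons 0x4329817650 (.cons 0x6540892173 .nil))))) .done (.node 0 2 (.cons 0x9812065734 .nil) (.node 6 9 (.cons 0x5437698021 (.cons 0x6981734502 (.cons 0x8170965432 (.cons 0x6981732054 .nil)))) .done .done) .done)) (.node 4 7 .nil (.node 5 9 (.cons 0x6598732104 (.cons 0x8956012374 (.cons 0x8956047321 .nil))) .done (.node 7 9 (.cons 0x8973210456 .nil) (.node 2 7 .nil (.node 1 3 (.cons 0x6578904312 (.cons 0x8906572134 (.cons 0x8904312756 .nil))) (.node 1 6 (.cons 0x8973216540 (.cons 0x9872340561 (.cons 0x5612789043 .nil))) .done .done) .done) .done) .done)) .done)) (.node 2 7 .nil (.node 1 6 (.cons 0x4098756123 (.cons 0x9872340561 (.cons 0x5612789043 .nil))) (.node 1 5 (.cons 0x4321567890 (.cons 0x9806512734 (.cons 0x6512789043 .nil))) (.node 1 8 (.cons 0x7654321890 (.cons 0x9056187234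 (.cons 0x6723450981 .nil))) .done .done) .done) (.node 0 2 .nil (.node 1 7 (.cons 0x8902176543 .nil) (.node 1 6 (.cons 0x9871650432 (.cons 0x9873402165 .nil)) (.node 5 9 (.cons 0x6598732104 (.cons 0x9561208734 (.cons 0x6598734021 .nil))) .done .done) .done) .done) .done)) .done)) .done)) .done)) (.node 4 9 (.cons 0x8945673210 .nil) (.node 0 6 (.cons 0x5601237894 .nil) (.node 4 8 (.cons 0x9845673210 .nil) (.node 2 4 (.cons 0x9801245673 .nil) (.node 1 4 .nil (.node 0 5 (.cons 0x6501237894 (.cons 0x6501498732 .nil)) (.node 3 5 (.cons 0x9087653421 (.cons 0x9087653412 (.cons 0x4109876532 .nil))) .done .done) (.node 4 6 (.cons 0x5649873210 .nil) (.node 4 7 (.cons 0x8947321065 .nil) .done .done) .done)) .done) (.node 4 7 (.cons 0x8947321065 .nil) (.node 1 7 (.cons 0x5608943712 .nil) (.node 2 7 (.cons 0x3276548901 .nil) (.node 0 2 (.cons 0x9845673201 .nil) (.node 0 3 (.cons 0x6549803721 .nil) (.node 0 5 (.cons 0x6501237894 .nil) .done .done) .done) .done) .done) .done) .done)) (.node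 0 5 (.cons 0x6501237894 .nil) (.node 4 8 (.cons 0x9845673210 .nil) (.node 6 8 (.cons 0x5687094321 .nil) (.node 2 4 (.cons 0x9801245673 .nil) (.node 1 4 (.cons 0x5601498732 .nil) (.node 4 6 (.cons 0x5649873210 .nil) .done .done) .done) .done) (.node 4 7 (.cons 0x6509874321 .nil) (.node 1 7 (.cons 0x8945601732 .nil) (.node 2 7 (.cons 0x3276548901 .nil) (.node 0 2 (.cons 0x9845673201 .nil) (.node 0 3 (.cons 0x6549803721 .nil) .done .done) .done) .done) .done) .done)) .done) .done)) (.node 4 7 .nil (.node 0 5 (.cons 0x6509874321 .nil) (.node 0 2 (.cons 0x8943765021 .nil) (.node 1 7 (.cons 0x8905432176 .nil) (.node 6 9 (.cons 0x8965437120 (.cons 0x8965021734 (.cons 0x8965473201 (.cons 0x3745698021 .nil)))) .done .done) .done) (.node 3 5 (.cons 0x6532109874 .nil) (.node 2 4 (.cons 0x3567894210 (.cons 0x9087653421 (.cons 0x6537894210 .nil))) .done (.node 0 2 (.cons 0x8765349021 .nil) (.node 0 3 (.cons 0x8945673012 .nil) (.node 1 5 (.cons 0x4321567890 (.cons 0x9803476512 (.cons 0x6512347890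 (.cons 0x8903476512 .nil)))) .done .done) (.node 1 5 (.cons 0x8943765120 (.cons 0x9802156743 (.cons 0x6512347890 (.cons 0x8902156743 .nil)))) .done .done)) .done)) .done)) (.node 4 8 (.cons 0x9845673210 .nil) (.node 1 8 (.cons 0x7654321890 .nil) (.node 4 6 (.cons 0x9078123465 .nil) (.node 1 4 .nil (.node 0 2 (.cons 0x9810237456 (.cons 0x9802143765 .nil)) (.node 2 4 (.cons 0x9801245673 .nil) .done .done) .done) .done) (.node 1 7 .nil (.node 0 5 (.cons 0x6509871234 (.cons 0x6718905432 .nil)) (.node 0 2 (.cons 0x9802173456 (.cons 0x8943765021 .nil)) .done .done) (.node 5 7 (.cons 0x6754321890 .nil) (.node 4 6 .nil (.node 5 9 (.cons 0x8123459076 (.cons 0x4659873210 (.cons 0x2376459810 .nil))) .done (.node 2 4 (.cons 0x9801245673 .nil) (.node 0 2 (.cons 0x8902176543 .nil) (.node 1 4 (.cons 0x9802143765 .nil) .done .done) .done) .done)) .done) .done)) .done)) (.node 0 6 (.cons 0x9845601237 .nil) (.node 5 7 (.cons 0x7560984321 .nil) (.node 1 7 (.cons 0x3489065712 .nil) (.node 2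 7 (.cons 0x3489065721 .nil) (.node 7 9 (.cons 0x6548973210 .nil) .done .done) .done) (.node 7 9 (.cons 0x6548973210 .nil) (.node 2 7 .nil (.node 1 9 (.cons 0x4891237560 (.cons 0x6543721980 .nil)) (.node 3 6 (.cons 0x8904576321 (.cons 0x4809127563 (.cons 0x7236548901 .nil))) .done .done) .done) .done) .done)) (.node 0 5 .nil (.node 6 9 (.cons 0x5690784321 (.cons 0x2374896501 .nil)) (.node 0 2 (.cons 0x8943765021 .nil) (.node 2 9 (.cons 0x7329845601 (.cons 0x6734508921 (.cons 0x4376508921 .nil))) .done .done) .done) (.node 0 3 (.cons 0x8945673012 .nil) (.node 0 2 .nil (.node 1 5 (.cons 0x4321567890 (.cons 0x3498765120 (.cons 0x8765120943 .nil))) (.node 1 8 (.cons 0x7654321890 (.cons 0x9815674302 (.cons 0x9815437602 .nil))) .done .done) .done) .done) .done)) .done)) .done)) .done)) (.node 4 8 (.cons 0x9845673210 .nil) (.node 1 8 (.cons 0x2376549810 .nil) (.node 6 8 (.cons 0x9456810732 .nil) (.node 5 8 (.cons 0x9854012376 .nil) (.node 0 6 (.cons 0x9854067321 .nil) (.node 4 7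 (.cons 0x5601894732 .nil) (.node 1 4 (.cons 0x9418560732 .nil) (.node 4 6 (.cons 0x9078123465 .nil) .done .done) .done) .done) .done) (.node 4 7 (.cons 0x9074568123 .nil) (.node 4 6 (.cons 0x9078123465 .nil) (.node 1 4 .nil (.node 3 5 (.cons 0x7689045321 (.cons 0x9087653412 (.cons 0x2356870941 (.cons 0x4109876532 .nil)))) .done .done) .done) .done) .done)) (.node 1 7 .nil (.node 0 5 (.cons 0x6509871234 (.cons 0x6718905432 .nil)) (.node 0 2 (.cons 0x9802173456 .nil) (.node 1 9 (.cons 0x9123487056 (.cons 0x4376508912 (.cons 0x7650219843 .nil))) .done .done) .done) (.node 4 7 .nil (.node 3 9 (.cons 0x7654893210 (.cons 0x6547398012 (.cons 0x5674893210 .nil))) (.node 6 8 (.cons 0x9867321045 .nil) (.node 1 5 (.cons 0x4321567890 (.cons 0x2398674510 (.cons 0x8674510932 (.cons 0x6512347890 .nil)))) .done (.node 2 8 (.cons 0x3456712890 .nil) (.node 0 6 (.cons 0x9821734560 (.cons 0x5609821743 (.cons 0x9823745601 .nil))) .done .done) .done)) .done) .done) .done)) .done)) (.node 1 8 (.cons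 0x2376549810 .nil) (.node 0 2 (.cons 0x8945673201 .nil) (.node 4 7 .nil (.node 0 3 (.cons 0x7654981032 (.cons 0x5674981032 .nil)) (.node 0 6 (.cons 0x9845601237 (.cons 0x9847321065 .nil)) .done .done) (.node 1 7 (.cons 0x9802173456 .nil) (.node 2 7 (.cons 0x3276549810 .nil) (.node 7 9 (.cons 0x6548973210 .nil) .done .done) .done) .done)) (.node 4 7 (.cons 0x5674981023 .nil) (.node 1 4 (.cons 0x8941023765 .nil) (.node 0 6 (.cons 0x9845601237 .nil) (.node 0 3 (.cons 0x7654981032 .nil) (.node 0 5 (.cons 0x7650234981 .nil) .done .done) .done) .done) .done) .done)) (.node 1 7 .nil (.node 0 6 (.cons 0x5498106732 (.cons 0x7123489065 (.cons 0x9845601732 .nil))) .done (.node 3 8 (.cons 0x2176543890 .nil) (.node 4 7 .nil (.node 0 6 (.cons 0x5498106732 (.cons 0x9847321065 .nil)) (.node 0 5 (.cons 0x6509874321 .nil) (.node 2 9 (.cons 0x7329845601 (.cons 0x8923745601 (.cons 0x6734508921 (.cons 0x4376508921 (.cons 0x4506732981 .nil))))) .done .done) .done) .done) .done) .done)) .done))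 .done)) .done))) (.node 0 5 .nil (.node 4 9 (.cons 0x8945673210 (.cons 0x6501237894 (.cons 0x8945012376 .nil))) (.node 1 9 (.cons 0x8910456732 (.cons 0x6734508912 (.cons 0x4376508912 .nil))) (.node 0 6 (.cons 0x7345608912 .nil) (.node 2 6 (.cons 0x7345621980 (.cons 0x8705621943 (.cons 0x8734912650 (.cons 0x4056237891 .nil)))) .done .done) .done) .done) (.node 1 7 (.cons 0x6509871234 .nil) (.node 0 6 (.cons 0x8906712345 .nil) (.node 4 7 (.cons 0x6509874321 .nil) (.node 2 7 .nil (.node 1 8 (.cons 0x7654321890 (.cons 0x9810456723 (.cons 0x5609812743 .nil))) .done (.node 5 7 .nil (.node 4 8 (.cons 0x9845673210 (.cons 0x9843217506 (.cons 0x7560984321 (.cons 0x5760984321 .nil)))) .done (.node 7 9 .nil (.node 4 6 (.cons 0x7890564321 (.cons 0x8971234605 (.cons 0x8790564321 .nil))) .done .done) .done)) .done)) .done) .done) (.node 4 7 (.cons 0x6509874321 .nil) (.node 0 6 .nil (.node 1 9 (.cons 0x8910456732 (.cons 0x7345608912 (.cons 0x5437608912 .nil))) (.node 1 5 (.cons 0x4321567890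 (.cons 0x9874321506 .nil)) (.node 1 6 (.cons 0x9874321605 .nil) .done .done) .done) (.node 0 2 (.cons 0x8902176543 .nil) (.node 0 3 (.cons 0x8903456712 .nil) .done .done) .done)) .done) .done)) .done)) .done)))
noncomputable def uc9_0_10 : T := (.node 0 4 (.cons 0x5678904321 .nil) tc9_0_63 (.node 0 4 (.cons 0x5678904321 .nil) tc9_0_62 (.node 0 4 (.cons 0x5678904321 .nil) tc9_0_60 .done)))
theorem sub_c9_0_10 : root 9 refs9_0 [] 0x700000008704000000304060080000060500000000504000000004010000080010300000000302000000002018300000010 0xfe7fff67feafff9fffcfffedfef5fff3fff9fef5 9 0 7 (.cons 0x8907654321 .nil) uc9_0_10 = true := by decide +kernel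
noncomputable def tc9_0_64 : T := (.node 3 8 (.cons 0x9076543812 .nil) (.node 1 7 .nil (.node 0 3 (.cons 0x7654309812 (.cons 0x9845671032 .nil)) (.node 5 9 (.cons 0x9567034812 (.cons 0x2176598430 (.cons 0x4895671032 (.cons 0x4895671230 .nil)))) (.node 4 6 (.cons 0x4659873210 (.cons 0x8712346590 (.cons 0x6459801732 .nil))) (.node 2 8 (.cons 0x3465907821 (.cons 0x4659821730 .nil)) .done .done) .done) .done) (.node 2 7 (.cons 0x3456721890 .nil) (.node 2 8 .nil (.node 0 4 (.cons 0x5678904321 (.cons 0x9821045673 (.cons 0x9823765401 .nil))) (.node 7 9 (.cons 0x8973210456 (.cons 0x6540128973 .nil)) (.node 0 2 (.cons 0x3456790281 .nil) (.node 1 4 (.cons 0x5679841023 (.cons 0x5679028143 .nil)) .done .done) .done) .done) .done) .done) .done)) (.node 1 7 (.cons 0x4567109832 .nil) (.node 6 8 (.cons 0x5432176890 .nil) (.node 5 8 (.cons 0x6712345890 .nil) (.node 3 5 (.cons 0x4532176890 .nil) (.node 2 8 .nil (.node 0 4 (.cons 0x5678904321 (.cons 0x9043567821 (.cons 0x9823765401 .nil)))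 (.node 0 2 (.cons 0x9021876534 .nil) (.node 0 3 (.cons 0x7654309812 .nil) .done .done) .done) .done) .done) .done) .done) .done) .done)) (.node 2 8 (.cons 0x3456709821 .nil) (.node 3 8 .nil (.node 1 7 (.cons 0x9071283456 .nil) (.node 4 7 (.cons 0x6547109823 .nil) (.node 6 9 (.cons 0x1289654370 (.cons 0x5690743821 (.cons 0x9654738210 (.cons 0x4569823710 (.cons 0x5476908321 .nil))))) .done (.node 4 9 (.cons 0x8945673210 (.cons 0x6549837012 (.cons 0x6549823710 .nil))) (.node 6 9 (.cons 0x1289654370 (.cons 0x4569823710 .nil)) (.node 0 4 (.cons 0x5678904321 (.cons 0x7382104965 (.cons 0x5698237104 .nil))) (.node 2 5 (.cons 0x6521049873 (.cons 0x7043896521 (.cons 0x1256783490 (.cons 0x4073896521 .nil)))) .done .done) (.node 1 4 (.cons 0x9654128370 (.cons 0x2145698370 .nil)) .done .done)) .done) .done)) (.node 0 2 (.cons 0x9021834567 .nil) (.node 3 5 (.cons 0x9021876534 (.cons 0x9845320176 .nil)) (.node 1 3 (.cons 0x9843120765 .nil) (.node 1 6 (.cons 0x9821654370 (.cons 0x9870216534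 (.cons 0x9843561207 .nil))) .done .done) .done) (.node 4 6 (.cons 0x9801237645 (.cons 0x5467109832 .nil)) (.node 1 9 (.cons 0x5670219843 (.cons 0x5643870912 (.cons 0x7091283465 .nil))) .done (.node 2 9 (.cons 0x5467389210 .nil) (.node 0 4 (.cons 0x5678904321 (.cons 0x5678129043 (.cons 0x5640129873 (.cons 0x8923765401 .nil)))) .done (.node 0 4 (.cons 0x5678904321 (.cons 0x9218376540 (.cons 0x6540738921 .nil))) (.node 1 5 (.cons 0x3764512980 (.cons 0x5176402983 (.cons 0x9215467380 (.cons 0x7389204651 .nil)))) .done .done) .done)) .done)) .done)) .done)) (.node 5 8 .nil (.node 1 7 (.cons 0x4567109832 (.cons 0x9085432176 (.cons 0x6712345890 .nil))) .done (.node 6 8 .nil (.node 1 7 (.cons 0x4567109832 (.cons 0x9071286543 (.cons 0x5432176890 .nil))) .done .done) .done)) .done)) (.node 6 8 .nil (.node 1 7 (.cons 0x9086712345 (.cons 0x5432176890 .nil)) (.node 3 8 (.cons 0x6543890712 (.cons 0x4567109832 .nil)) .done .done) (.node 2 7 (.cons 0x3456721890 .nil) (.node 1 7 .nil (.node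 0 4 (.cons 0x5678904321 (.cons 0x9865401732 (.cons 0x3289045671 .nil))) (.node 0 3 (.cons 0x7654309812 (.cons 0x9034568172 (.cons 0x9845671032 .nil))) (.node 3 9 (.cons 0x7654893210 (.cons 0x2718654390 (.cons 0x5409328671 (.cons 0x2398456710 .nil)))) .done .done) .done) (.node 5 8 (.cons 0x6712345890 .nil) (.node 3 8 .nil (.node 1 4 (.cons 0x9076541283 (.cons 0x9014568327 .nil)) (.node 0 5 (.cons 0x2345098671 (.cons 0x9054176823 (.cons 0x6714509823 .nil))) .done .done) .done) .done) .done)) (.node 1 7 .nil (.node 0 4 (.cons 0x5678904321 (.cons 0x9865401732 (.cons 0x3289045671 .nil))) (.node 0 5 (.cons 0x6721890543 (.cons 0x6890543271 .nil)) (.node 1 4 (.cons 0x6509871432 (.cons 0x6714509823 .nil)) .done .done) .done) (.node 5 8 (.cons 0x9085432176 .nil) (.node 3 8 .nil (.node 0 5 (.cons 0x6721890543 (.cons 0x9054381276 .nil)) (.node 2 9 (.cons 0x5432908671 (.cons 0x7109238654 (.cons 0x4381765092 .nil))) .done .done) .done) .done) .done)) .done)) .done)) .done)) (.node 0 4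 (.cons 0x5678904321 .nil) (.node 0 3 (.cons 0x7654309812 .nil) (.node 0 5 .nil (.node 0 2 (.cons 0x9812056734 .nil) .done (.node 0 2 .nil (.node 1 9 (.cons 0x6734508912 (.cons 0x6502198734 (.cons 0x8912054376 (.cons 0x5670234891 .nil)))) .done (.node 0 6 .nil (.node 5 9 (.cons 0x4376598120 (.cons 0x9560437812 (.cons 0x4598067321 .nil))) (.node 1 4 (.cons 0x7659841023 (.cons 0x7341895602 (.cons 0x5981437602 .nil))) .done .done) .done) .done)) .done)) (.node 0 6 .nil (.node 0 2 (.cons 0x9812065437 .nil) .done (.node 4 6 (.cons 0x9801237645 .nil) (.node 0 2 .nil (.node 1 9 (.cons 0x5437608912 (.cons 0x5602198734 (.cons 0x8912067345 (.cons 0x5670234891 .nil)))) .done (.node 0 5 .nil (.node 1 7 (.cons 0x5643209871 (.cons 0x8905432176 .nil)) (.node 6 9 (.cons 0x7345698120 (.cons 0x9671234805 (.cons 0x4508967321 .nil))) .done .done) .done) .done)) .done) .done)) .done)) (.node 0 3 (.cons 0x7654309812 .nil) (.node 0 5 .nil (.node 0 2 (.cons 0x9812056734 .nil) .done (.node 0 2 .nil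 (.node 1 9 (.cons 0x6734508912 (.cons 0x6502198734 (.cons 0x8912054376 (.cons 0x5670234891 .nil)))) .done (.node 0 6 .nil (.node 7 9 (.cons 0x3489765021 (.cons 0x5489760123 .nil)) (.node 2 8 (.cons 0x9765482103 (.cons 0x1289734560 .nil)) (.node 1 3 (.cons 0x5679843120 (.cons 0x7984312065 (.cons 0x9821376054 .nil))) (.node 1 9 (.cons 0x6540732891 (.cons 0x4560732891 (.cons 0x5482197603 .nil))) .done .done) .done) (.node 2 9 (.cons 0x3298456701 (.cons 0x7921845603 (.cons 0x5481297603 .nil))) .done .done)) .done) .done)) .done)) (.node 0 2 .nil (.node 7 9 (.cons 0x8973210456 (.cons 0x5679843021 (.cons 0x6540218973 .nil))) (.node 3 6 (.cons 0x5489763210 (.cons 0x8120976345 (.cons 0x5489763201 .nil))) .done .done) (.node 2 4 .nil (.node 5 9 (.cons 0x6598732104 (.cons 0x7659842103 (.cons 0x7659842301 (.cons 0x4218956730 .nil)))) (.node 0 6 (.cons 0x9560218734 (.cons 0x1243789560 .nil)) .done .done) (.node 2 7 (.cons 0x3456721890 .nil) (.node 1 4 .nil (.node 2 9 (.cons 0x3298456701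 (.cons 0x8923701456 (.cons 0x5670148923 .nil))) .done (.node 4 7 (.cons 0x5674309812 .nil) (.node 4 6 (.cons 0x9801237645 .nil) (.node 4 9 (.cons 0x8945673210 .nil) .done .done) .done) .done)) .done) .done)) .done)) .done)) (.node 2 8 (.cons 0x9821045673 .nil) (.node 3 8 (.cons 0x9837654012 .nil) (.node 5 8 .nil (.node 1 7 (.cons 0x6543289071 (.cons 0x9085432176 (.cons 0x6712345890 .nil))) .done (.node 6 8 .nil (.node 1 7 (.cons 0x6543289071 (.cons 0x9086712345 (.cons 0x5432176890 .nil))) .done .done) .done)) .done) (.node 6 8 .nil (.node 1 7 (.cons 0x9086712345 (.cons 0x5432176890 .nil)) (.node 3 8 (.cons 0x4567109832 .nil) (.node 4 7 (.cons 0x9012386547 (.cons 0x5476890123 .nil)) .done .done) .done) (.node 4 6 (.cons 0x9801237645 .nil) (.node 3 8 (.cons 0x9837654012 .nil) (.node 4 7 (.cons 0x9012387465 .nil) (.node 5 8 (.cons 0x6745890123 .nil) .done .done) .done) .done) .done)) .done)) .done))) .done)))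
noncomputable def tc9_0_65 : T := (.node 0 7 (.cons 0x8907654321 .nil) tc9_0_64 (.node 3 8 .nil (.node 0 7 (.cons 0x8907654321 (.cons 0x9076543812 .nil)) (.node 0 4 (.cons 0x5678904321 .nil) (.node 2 7 (.cons 0x3456721890 (.cons 0x9045672183 .nil)) (.node 6 9 (.cons 0x9654837210 (.cons 0x7238456901 (.cons 0x3845690721 .nil))) (.node 1 5 (.cons 0x4321567890 (.cons 0x9678043215 (.cons 0x7843215690 (.cons 0x6980734512 .nil)))) .done (.node 5 7 (.cons 0x4896573210 (.cons 0x4832756901 (.cons 0x7569048321 .nil))) .done .done)) (.node 4 6 (.cons 0x9801237645 (.cons 0x5467210983 (.cons 0x5467238901 .nil))) (.node 2 4 (.cons 0x9837012456 .nil) (.node 5 9 (.cons 0x8765904321 (.cons 0x9564012387 (.cons 0x3895467210 (.cons 0x6732459801 (.cons 0x4095678321 .nil))))) .done .done) .done) .done)) (.node 0 6 (.cons 0x9845601237 .nil) (.node 4 9 (.cons 0x8945673210 .nil) (.node 2 7 (.cons 0x3456721890 (.cons 0x9067218345 (.cons 0x5490672183 .nil))) (.node 2 9 (.cons 0x8923765401 (.cons 0x9273810456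 (.cons 0x5672904381 (.cons 0x5492183760 .nil)))) .done .done) (.node 1 5 (.cons 0x4321567890 (.cons 0x2156783490 (.cons 0x7834906512 .nil))) (.node 2 7 (.cons 0x3456721890 (.cons 0x9067218345 (.cons 0x9451276083 .nil))) (.node 3 6 (.cons 0x7210948365 (.cons 0x9451083672 .nil)) .done .done) .done) .done)) (.node 1 7 (.cons 0x7123489065 .nil) (.node 6 9 (.cons 0x8096712345 (.cons 0x5438096712 (.cons 0x7109654832 (.cons 0x7123845690 .nil)))) .done (.node 2 6 (.cons 0x9845621073 (.cons 0x9832671045 (.cons 0x5409832671 .nil))) (.node 1 9 (.cons 0x5607348912 (.cons 0x5621907834 .nil)) (.node 2 9 (.cons 0x8923765401 (.cons 0x9265401837 (.cons 0x9267381045 (.cons 0x5409267183 .nil)))) .done .done) .done) .done)) .done)) .done)) (.node 0 4 (.cons 0x5678904321 (.cons 0x9837654012 .nil)) (.node 2 4 (.cons 0x9832456701 .nil) (.node 5 9 (.cons 0x8765904321 (.cons 0x6732459801 (.cons 0x4095678321 .nil))) (.node 0 6 (.cons 0x9560437812 (.cons 0x7342189560 (.cons 0x1243789560 .nil))) .done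 (.node 0 3 (.cons 0x6598730124 (.cons 0x8956730124 .nil)) .done .done)) (.node 0 6 (.cons 0x9845601237 (.cons 0x9837601245 .nil)) (.node 2 7 (.cons 0x3456721890 (.cons 0x9045672183 .nil)) (.node 4 9 (.cons 0x8945673210 (.cons 0x9483721065 (.cons 0x8327654901 .nil))) .done .done) .done) .done)) .done) .done)) (.node 1 7 (.cons 0x4567109832 .nil) (.node 0 7 (.cons 0x8907654321 .nil) (.node 3 6 (.cons 0x9845637012 .nil) (.node 3 5 .nil (.node 6 9 (.cons 0x7109654832 (.cons 0x4896537012 (.cons 0x2178435690 (.cons 0x4871096532 (.cons 0x4871235690 .nil))))) .done (.node 0 3 (.cons 0x7654309812 .nil) (.node 1 3 (.cons 0x8907654312 .nil) (.node 3 9 (.cons 0x6548937012 .nil) .done .done) .done) .done)) (.node 1 6 .nil (.node 0 5 (.cons 0x9056123487 (.cons 0x7890561234 (.cons 0x9056178432 .nil))) (.node 2 9 (.cons 0x6548921073 (.cons 0x8921654370 (.cons 0x6718345092 (.cons 0x5612984370 (.cons 0x7165483290 .nil))))) .done .done) (.node 6 8 (.cons 0x9086712345 .nil) (.node 2 8 (.cons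 0x3456709821 .nil) (.node 5 8 (.cons 0x9085432176 .nil) .done .done) .done) .done)) .done)) (.node 1 6 (.cons 0x9845610732 .nil) (.node 1 5 (.cons 0x4321567890 .nil) (.node 1 4 (.cons 0x7654109832 .nil) (.node 4 7 (.cons 0x6512347890 .nil) (.node 0 4 (.cons 0x5678904321 .nil) (.node 4 6 (.cons 0x9801237645 .nil) (.node 4 9 (.cons 0x8945673210 .nil) .done .done) .done) .done) .done) .done) (.node 3 6 .nil (.node 2 9 (.cons 0x6548923701 (.cons 0x4563701892 (.cons 0x5634817092 (.cons 0x8456329071 .nil)))) (.node 2 4 (.cons 0x7654238901 (.cons 0x5429810763 (.cons 0x7638109245 .nil))) .done .done) (.node 0 6 (.cons 0x9845601237 .nil) (.node 3 5 (.cons 0x9065348712 .nil) (.node 1 5 (.cons 0x4321567890 .nil) (.node 1 4 (.cons 0x7890653412 .nil) (.node 1 3 .nil (.node 2 5 (.cons 0x9806734521 (.cons 0x9065213487 (.cons 0x7609831452 .nil))) .done .done) .done) .done) .done) .done) .done)) .done)) .done)) (.node 2 7 (.cons 0x3456721890 .nil) (.node 0 7 (.cons 0x8907654321 .nil) (.node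 3 6 (.cons 0x9845637012 .nil) (.node 3 5 .nil (.node 4 6 (.cons 0x5467109832 (.cons 0x9801235467 (.cons 0x9012784653 (.cons 0x8901764532 .nil)))) .done (.node 0 3 (.cons 0x7654309812 .nil) (.node 1 3 (.cons 0x8907654312 .nil) .done .done) .done)) (.node 4 7 (.cons 0x7489012365 .nil) (.node 5 7 (.cons 0x2365748901 .nil) (.node 7 9 (.cons 0x6548973210 .nil) .done .done) .done) .done)) (.node 3 6 (.cons 0x9081276345 .nil) (.node 3 5 .nil (.node 0 6 (.cons 0x8906712345 (.cons 0x9065348127 (.cons 0x9065348721 .nil))) .done (.node 4 7 (.cons 0x6532109874 .nil) (.node 5 7 (.cons 0x9012365784 .nil) (.node 7 9 (.cons 0x6548973210 .nil) .done .done) .done) .done)) (.node 4 7 (.cons 0x7489012365 .nil) (.node 5 7 (.cons 0x3657489012 .nil) (.node 7 9 (.cons 0x6548973210 .nil) .done .done) .done) .done)) .done)) (.node 1 4 (.cons 0x1456723890 .nil) (.node 7 9 (.cons 0x6548973210 .nil) (.node 0 7 (.cons 0x8907654321 .nil) (.node 4 7 .nil (.node 0 3 (.cons 0x6548973012 (.cons 0x6547218903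 (.cons 0x5674309812 .nil))) .done (.node 5 7 .nil (.node 3 6 (.cons 0x9072184563 (.cons 0x9012365784 (.cons 0x2365748901 .nil))) .done .done) .done)) (.node 5 7 .nil (.node 0 6 (.cons 0x3798456012 (.cons 0x9065784321 (.cons 0x7560984321 .nil))) (.node 2 9 (.cons 0x6548923701 (.cons 0x3412987560 (.cons 0x6012984573 (.cons 0x1298437560 .nil)))) .done .done) (.node 1 5 (.cons 0x4321567890 .nil) (.node 4 7 (.cons 0x6512347890 .nil) .done .done) .done)) .done)) (.node 2 8 (.cons 0x3289765410 .nil) (.node 5 8 (.cons 0x6712345890 .nil) (.node 6 8 (.cons 0x5432176890 .nil) .done .done) .done) .done)) (.node 2 8 .nil (.node 0 4 (.cons 0x5678904321 (.cons 0x9821045673 (.cons 0x9823765401 .nil))) .done (.node 5 8 (.cons 0x6712345890 .nil) (.node 6 8 (.cons 0x5432176890 .nil) .done .done) .done)) .done)) .done)) .done)) .done)) (.node 3 8 .nil (.node 1 7 (.cons 0x9017654832 .nil) (.node 0 4 (.cons 0x5678904321 (.cons 0x9837654012 .nil)) (.node 2 9 (.cons 0x5678129043 (.cons 0x6548923710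 (.cons 0x9218376540 .nil))) (.node 0 5 (.cons 0x6732984501 (.cons 0x6509871234 (.cons 0x6738921054 .nil))) (.node 2 7 (.cons 0x6729054381 (.cons 0x9045672183 .nil)) .done .done) (.node 5 9 (.cons 0x8129567340 (.cons 0x8712340956 (.cons 0x2956738401 (.cons 0x4018376592 (.cons 0x4095678321 .nil))))) .done .done)) (.node 0 2 (.cons 0x9845673201 (.cons 0x9021834567 .nil)) (.node 6 9 (.cons 0x5698732104 (.cons 0x5698401732 (.cons 0x7389654012 (.cons 0x5698173402 (.cons 0x5698402371 .nil))))) .done .done) .done)) (.node 0 4 (.cons 0x5678904321 (.cons 0x9837654012 .nil)) (.node 2 7 (.cons 0x3456721890 (.cons 0x9045672183 .nil)) (.node 4 6 (.cons 0x9801237645 .nil) (.node 5 9 (.cons 0x8765904321 (.cons 0x9564012387 (.cons 0x9546721083 (.cons 0x2389546710 (.cons 0x4095678321 .nil))))) .done (.node 1 9 (.cons 0x2376548910 (.cons 0x5643872190 .nil)) (.node 2 9 (.cons 0x5678129043 (.cons 0x5648372910 (.cons 0x5467389210 (.cons 0x9218376540 .nil)))) .done .done) .done)) .done) (.node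 0 2 (.cons 0x9845673201 (.cons 0x9021834567 .nil)) (.node 4 7 (.cons 0x9021834765 (.cons 0x5674389021 .nil)) (.node 1 5 (.cons 0x4321567890 (.cons 0x9847651023 (.cons 0x6512347890 .nil))) (.node 7 9 (.cons 0x6790834512 (.cons 0x4381567902 (.cons 0x4832097651 .nil))) .done .done) .done) .done) .done)) .done)) (.node 1 7 .nil (.node 0 7 (.cons 0x6543890712 .nil) (.node 0 4 (.cons 0x5678904321 .nil) (.node 6 9 (.cons 0x7096543812 (.cons 0x5698401732 (.cons 0x8345690712 (.cons 0x8965401732 (.cons 0x2384569071 .nil))))) .done (.node 4 7 (.cons 0x6547109832 .nil) (.node 6 8 (.cons 0x5476890123 (.cons 0x9071238654 .nil)) (.node 0 5 (.cons 0x9867450123 (.cons 0x6509871234 .nil)) (.node 2 9 (.cons 0x3298674501 (.cons 0x6548923710 (.cons 0x1768923450 (.cons 0x9217043865 (.cons 0x6548329071 .nil))))) .done .done) .done) .done) .done)) (.node 0 3 (.cons 0x7654309812 .nil) (.node 2 9 (.cons 0x5678129034 (.cons 0x6548923710 (.cons 0x5671843092 .nil))) (.node 0 5 (.cons 0x6732984501 (.cons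 0x6509871234 .nil)) (.node 2 6 (.cons 0x3762984501 (.cons 0x6298345071 (.cons 0x9071834562 (.cons 0x7126509834 (.cons 0x4562389071 .nil))))) .done .done) (.node 1 5 (.cons 0x9230845176 (.cons 0x6715480923 .nil)) (.node 0 2 (.cons 0x9845673201 (.cons 0x9203718456 .nil)) (.node 0 6 (.cons 0x7890651234 (.cons 0x9843715602 .nil)) .done .done) .done) .done)) (.node 2 5 (.cons 0x7652189034 (.cons 0x9034817652 (.cons 0x4890325671 .nil))) (.node 2 6 (.cons 0x9071834562 (.cons 0x4562389071 .nil)) (.node 4 9 (.cons 0x8945673210 (.cons 0x8945623701 (.cons 0x5267034981 (.cons 0x7389456210 .nil)))) .done (.node 1 5 (.cons 0x9084326715 (.cons 0x7156234890 .nil)) .done .done)) (.node 4 6 (.cons 0x9801237645 (.cons 0x9817034652 (.cons 0x9017846523 (.cons 0x3465217890 .nil)))) .done .done)) .done)) .done)) (.node 6 8 (.cons 0x9086712345 .nil) (.node 2 8 (.cons 0x9017654823 .nil) (.node 5 8 (.cons 0x9085432176 .nil) .done .done) (.node 2 8 (.cons 0x9017654823 .nil) (.node 5 8 (.cons 0x9085432176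 .nil) .done .done) .done)) (.node 3 5 (.cons 0x6710984532 .nil) (.node 1 3 (.cons 0x7654890132 .nil) (.node 0 3 (.cons 0x7654309812 .nil) (.node 3 6 (.cons 0x5489017632 .nil) .done .done) .done) (.node 0 3 (.cons 0x7654309812 .nil) (.node 1 3 (.cons 0x7654890132 .nil) (.node 3 6 (.cons 0x5489017632 .nil) .done .done) (.node 1 3 (.cons 0x7654890132 .nil) (.node 3 6 (.cons 0x5489017632 .nil) .done .done) .done)) .done)) .done))) .done)) .done)))
noncomputable def tc9_0_66 : T := (.node 0 7 (.cons 0x8907654321 .nil) (.node 1 7 (.cons 0x2176543890 .nil) (.node 0 4 (.cons 0x5678904321 (.cons 0x9837654012 .nil)) (.node 0 2 (.cons 0x7654389021 .nil) (.node 0 6 (.cons 0x9812065437 (.cons 0x7189065432 .nil)) (.node 6 9 (.cons 0x5698732104 (.cons 0x7345698120 (.cons 0x8170965432 .nil))) (.node 1 5 (.cons 0x9651238704 (.cons 0x7832156904 (.cons 0x4512089673 .nil))) .done .done) .done) (.node 0 3 (.cons 0x8903456712 .nil) (.node 4 8 (.cons 0x9845671032 (.cons 0x5671209843 .nil)) (.node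 6 9 (.cons 0x9654810732 (.cons 0x5690718432 (.cons 0x7389654012 (.cons 0x8170965432 (.cons 0x5698402371 .nil))))) .done .done) .done) .done)) (.node 6 9 (.cons 0x5690781234 (.cons 0x7096543812 (.cons 0x8170965432 (.cons 0x2371896540 .nil)))) (.node 2 7 (.cons 0x6540981723 .nil) (.node 4 7 (.cons 0x5690743812 .nil) .done .done) .done) .done)) (.node 2 7 (.cons 0x1276543890 .nil) (.node 0 6 (.cons 0x8906712345 (.cons 0x9812734560 (.cons 0x7234560981 .nil))) (.node 4 7 (.cons 0x5609812743 .nil) (.node 0 2 (.cons 0x9810237456 .nil) (.node 0 4 (.cons 0x5678904321 (.cons 0x9837654012 .nil)) .done .done) .done) .done) (.node 2 8 (.cons 0x9076543821 .nil) (.node 0 6 (.cons 0x8906712345 (.cons 0x5438906712 .nil)) (.node 6 9 (.cons 0x5690781234 (.cons 0x7096543812 (.cons 0x4569072381 .nil))) (.node 1 4 (.cons 0x5412376980 (.cons 0x9670832145 (.cons 0x7690832145 .nil))) (.node 0 2 (.cons 0x5678902143 (.cons 0x7389654120 .nil)) .done .done) .done) (.node 0 4 (.cons 0x5678904321 (.cons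 0x3890456721 .nil)) (.node 0 5 (.cons 0x9823450671 .nil) (.node 4 9 (.cons 0x8945673210 (.cons 0x6738945012 (.cons 0x6549072183 (.cons 0x6549072381 .nil)))) .done .done) .done) .done)) .done) .done)) .done)) (.node 2 8 (.cons 0x3456709821 .nil) (.node 4 8 (.cons 0x9845673210 .nil) (.node 4 9 (.cons 0x8945673210 (.cons 0x6549837012 .nil)) (.node 2 4 (.cons 0x9837012456 .nil) (.node 3 6 (.cons 0x9078124365 (.cons 0x7098124365 (.cons 0x9810736542 .nil))) .done (.node 1 9 (.cons 0x8342190765 (.cons 0x5678342190 .nil)) (.node 0 2 (.cons 0x9812073456 (.cons 0x8912073456 (.cons 0x5673489120 .nil))) .done .done) .done)) (.node 0 4 (.cons 0x5678904321 .nil) (.node 1 5 (.cons 0x4321567890 (.cons 0x9401567832 (.cons 0x4901567832 (.cons 0x9043876512 .nil)))) .done (.node 2 6 (.cons 0x7326549810 (.cons 0x9837045621 .nil)) (.node 1 5 (.cons 0x7815623490 (.cons 0x9451083267 (.cons 0x4901567832 (.cons 0x9451083762 .nil)))) .done (.node 0 2 (.cons 0x8945673201 .nil) (.node 1 5 (.cons 0x2651894370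 (.cons 0x9438156207 (.cons 0x4901567832 (.cons 0x2094387651 .nil)))) .done .done) .done)) .done)) .done)) (.node 1 7 (.cons 0x9017654832 .nil) (.node 0 4 (.cons 0x5678904321 .nil) (.node 1 9 (.cons 0x9128340765 (.cons 0x5678340912 .nil)) (.node 0 3 (.cons 0x9821703456 (.cons 0x9823017654 .nil)) (.node 0 6 (.cons 0x5489106732 (.cons 0x5432891760 .nil)) .done .done) .done) (.node 2 6 (.cons 0x9812654370 (.cons 0x9840173265 (.cons 0x9837045621 .nil))) (.node 3 6 (.cons 0x9821704365 (.cons 0x9823654017 .nil)) .done .done) .done)) (.node 2 7 (.cons 0x3276548901 (.cons 0x9072183456 .nil)) (.node 2 6 (.cons 0x9812654370 (.cons 0x9017623845 .nil)) (.node 4 7 (.cons 0x5621890743 (.cons 0x9074381265 .nil)) .done .done) .done) .done)) .done)) (.node 2 7 (.cons 0x9072183456 .nil) (.node 1 7 (.cons 0x6543890712 .nil) (.node 4 9 (.cons 0x8945673210 (.cons 0x6549837012 (.cons 0x3821765490 .nil))) (.node 6 9 (.cons 0x2189654370 (.cons 0x5438096712 (.cons 0x8172345690 .nil))) (.node 2 5 (.cons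 0x6701254983 (.cons 0x7096521834 .nil)) (.node 2 9 (.cons 0x1298345670 .nil) .done .done) (.node 4 7 (.cons 0x2381745690 .nil) .done .done)) (.node 0 6 (.cons 0x5609432781 (.cons 0x8172349065 (.cons 0x7234560981 .nil))) (.node 1 5 (.cons 0x4321567890 (.cons 0x9451760823 (.cons 0x9806734512 .nil))) .done .done) .done)) (.node 7 9 (.cons 0x4567983210 .nil) (.node 4 7 (.cons 0x6547901832 .nil) .done (.node 4 8 (.cons 0x3276548901 .nil) (.node 4 6 (.cons 0x9801237645 (.cons 0x5467908321 (.cons 0x5467109832 .nil))) (.node 0 3 (.cons 0x9038217645 (.cons 0x5643098721 (.cons 0x7218903465 (.cons 0x9845672301 .nil)))) .done .done) (.node 1 3 (.cons 0x2138456790 (.cons 0x5672134890 .nil)) .done .done)) .done)) .done)) (.node 4 6 (.cons 0x9801237645 (.cons 0x5467210983 (.cons 0x5467238901 .nil))) (.node 2 4 (.cons 0x9837012456 .nil) (.node 3 5 (.cons 0x9078124356 (.cons 0x9870124653 (.cons 0x4235678901 .nil))) .done (.node 5 9 (.cons 0x7645980123 (.cons 0x6590783421 (.cons 0x3895467210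 (.cons 0x4238765901 .nil)))) (.node 1 7 (.cons 0x3217645980 (.cons 0x9546712380 .nil)) .done .done) .done)) (.node 5 9 (.cons 0x7812346590 (.cons 0x7832109564 (.cons 0x9546738012 (.cons 0x8327645901 (.cons 0x7645908321 .nil))))) .done .done)) .done)) .done)) (.node 0 4 (.cons 0x5678904321 (.cons 0x9837654012 .nil)) (.node 1 5 (.cons 0x4321567890 (.cons 0x9043876512 .nil)) (.node 2 4 (.cons 0x9810732456 (.cons 0x9832456701 (.cons 0x9832451076 .nil))) (.node 6 9 (.cons 0x8965423701 (.cons 0x7015698324 (.cons 0x7389654210 (.cons 0x9651042387 .nil)))) (.node 1 7 (.cons 0x6980715423 (.cons 0x8324569071 (.cons 0x6983245170 (.cons 0x2176543890 .nil)))) .done .done) .done) (.node 7 9 (.cons 0x6790834512 (.cons 0x6790832154 .nil)) (.node 4 6 (.cons 0x9078156432 (.cons 0x5467980123 (.cons 0x2346518790 .nil))) (.node 2 9 (.cons 0x7834651290 (.cons 0x5467389210 (.cons 0x7643809215 (.cons 0x9215467380 .nil)))) .done .done) (.node 6 8 (.cons 0x9768321045 (.cons 0x2154386790 (.cons 0x4510976832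 (.cons 0x4512386790 .nil)))) .done .done)) .done)) (.node 2 4 (.cons 0x9810732456 (.cons 0x9832456701 .nil)) (.node 5 9 (.cons 0x6598732104 (.cons 0x1243876590 (.cons 0x4238765901 .nil))) (.node 4 6 (.cons 0x4659873210 (.cons 0x9564238701 (.cons 0x7832465901 .nil))) (.node 2 7 (.cons 0x6543270981 (.cons 0x6459837210 .nil)) (.node 1 3 (.cons 0x9083127645 (.cons 0x5467213890 (.cons 0x7213890465 .nil))) .done .done) .done) (.node 1 6 (.cons 0x7098165432 (.cons 0x9542380761 (.cons 0x7832165904 (.cons 0x7095618324 (.cons 0x9542167380 .nil))))) .done .done)) (.node 1 5 (.cons 0x4321567890 (.cons 0x9832451076 .nil)) (.node 4 9 (.cons 0x8945673210 (.cons 0x2156783490 (.cons 0x4901567832 .nil))) .done (.node 0 2 (.cons 0x9873402156 (.cons 0x9021567834 (.cons 0x7651209834 .nil))) .done .done)) .done)) .done)) .done))) (.node 4 8 (.cons 0x9845673210 .nil) (.node 2 8 .nil (.node 1 7 (.cons 0x4567109832 (.cons 0x3456712890 .nil)) (.node 0 7 (.cons 0x8907654321 (.cons 0x3456709821 (.cons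 0x9071823456 .nil))) .done (.node 0 4 (.cons 0x5678904321 (.cons 0x9821045673 (.cons 0x9823765401 .nil))) (.node 1 4 (.cons 0x7654109832 .nil) (.node 4 6 (.cons 0x5467109832 (.cons 0x5467109823 .nil)) .done .done) (.node 1 4 (.cons 0x7654109832 .nil) (.node 4 6 (.cons 0x5467109832 (.cons 0x5467109823 .nil)) (.node 0 5 (.cons 0x8905432176 (.cons 0x9056782143 (.cons 0x9056782341 .nil))) (.node 1 9 (.cons 0x9123487650 (.cons 0x5091764382 (.cons 0x6719054382 .nil))) .done .done) .done) (.node 0 3 (.cons 0x5678903412 (.cons 0x9034128765 .nil)) (.node 0 5 (.cons 0x8905432176 (.cons 0x9056782143 (.cons 0x6712890543 .nil))) (.node 4 9 (.cons 0x8945673210 (.cons 0x6732894501 (.cons 0x5673014982 .nil))) .done .done) .done) .done)) .done)) .done)) (.node 2 7 (.cons 0x4567238901 .nil) (.node 6 8 .nil (.node 0 7 (.cons 0x8907654321 (.cons 0x9072186543 (.cons 0x9072345681 .nil))) .done (.node 5 8 .nil (.node 1 7 (.cons 0x4567109832 (.cons 0x6712345890 .nil)) (.node 0 7 (.cons 0x8907654321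 .nil) (.node 1 9 (.cons 0x3456819072 (.cons 0x3458672190 (.cons 0x6581907234 .nil))) .done .done) .done) .done) .done)) (.node 1 7 (.cons 0x4567109832 .nil) (.node 5 8 (.cons 0x9085432176 .nil) (.node 6 8 (.cons 0x9086712345 .nil) .done .done) (.node 2 4 (.cons 0x7654238901 .nil) (.node 1 4 (.cons 0x7654109832 .nil) (.node 1 9 (.cons 0x3824567190 .nil) (.node 5 8 (.cons 0x2438567190 .nil) (.node 6 8 .nil (.node 3 5 (.cons 0x4283567190 (.cons 0x4358672190 (.cons 0x9017245386 .nil))) .done .done) .done) .done) .done) (.node 2 9 (.cons 0x6542983710 .nil) (.node 0 2 (.cons 0x2098345671 .nil) (.node 1 9 (.cons 0x8345671902 .nil) (.node 2 5 (.cons 0x8345209176 .nil) (.node 2 6 (.cons 0x9026543817 .nil) .done .done) .done) .done) .done) .done)) .done)) .done)) .done)) (.node 1 7 (.cons 0x4567109832 .nil) (.node 0 7 (.cons 0x8907654321 .nil) (.node 2 8 (.cons 0x3456709821 .nil) (.node 5 8 (.cons 0x9085432176 .nil) (.node 6 8 (.cons 0x9086712345 .nil) .done .done) (.node 5 8 (.cons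 0x9085432176 .nil) (.node 6 8 (.cons 0x9086712345 .nil) .done .done) .done)) (.node 4 7 .nil (.node 2 6 (.cons 0x9810732654 (.cons 0x9810745623 (.cons 0x9018326547 (.cons 0x5623470981 (.cons 0x3265470981 .nil))))) .done (.node 2 7 (.cons 0x4567238901 .nil) (.node 1 4 (.cons 0x1456723890 .nil) (.node 2 8 (.cons 0x9071823456 .nil) (.node 5 8 (.cons 0x6745890123 .nil) (.node 6 8 (.cons 0x9071865432 .nil) .done .done) .done) .done) .done) .done)) .done)) (.node 2 7 (.cons 0x4567238901 .nil) (.node 4 7 (.cons 0x9018327456 .nil) (.node 0 7 (.cons 0x8907654321 .nil) (.node 7 9 .nil (.node 0 6 (.cons 0x9810654732 (.cons 0x5609781234 (.cons 0x5609721843 (.cons 0x4560189732 .nil)))) .done (.node 5 7 .nil (.node 0 4 (.cons 0x5678904321 (.cons 0x9043218756 (.cons 0x6578904321 .nil))) .done .done) .done)) .done) .done) (.node 1 4 (.cons 0x1456723890 .nil) (.node 4 6 (.cons 0x5467109832 .nil) (.node 3 6 .nil (.node 0 4 (.cons 0x5678904321 (.cons 0x7236540981 .nil)) (.node 1 5 (.cons 0x4321567890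 (.cons 0x9048721563 (.cons 0x7890436512 .nil))) .done .done) (.node 1 3 (.cons 0x3127654890 .nil) (.node 0 3 (.cons 0x3098456721 .nil) (.node 3 5 (.cons 0x9035648721 .nil) .done .done) .done) .done)) (.node 2 8 (.cons 0x5467109823 .nil) (.node 5 8 (.cons 0x6712345890 .nil) (.node 6 8 (.cons 0x5432176890 .nil) .done .done) .done) .done)) (.node 1 3 (.cons 0x3127654890 .nil) (.node 1 9 (.cons 0x8327654190 .nil) (.node 1 5 (.cons 0x4321567890 .nil) (.node 1 6 (.cons 0x9083276145 .nil) .done .done) .done) .done) .done)) .done)) (.node 0 7 (.cons 0x8907654321 .nil) (.node 0 4 (.cons 0x5678904321 .nil) (.node 0 2 (.cons 0x2098345671 .nil) (.node 0 3 (.cons 0x9845673012 .nil) .done .done) (.node 4 7 .nil (.node 2 6 (.cons 0x9071834562 (.cons 0x9018326547 (.cons 0x9810473265 (.cons 0x9074562381 .nil)))) (.node 0 3 (.cons 0x9845673012 (.cons 0x9830174562 .nil)) (.node 5 9 (.cons 0x9562340781 (.cons 0x8956217430 (.cons 0x5980347621 (.cons 0x2659817430 (.cons 0x7403265981 .nil)))))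 .done .done) .done) (.node 2 7 (.cons 0x4567238901 .nil) (.node 2 8 (.cons 0x3456712890 .nil) (.node 5 8 (.cons 0x6745890123 .nil) (.node 6 8 (.cons 0x5476890123 .nil) .done .done) .done) .done) .done)) .done)) (.node 0 4 (.cons 0x5678904321 .nil) (.node 4 7 .nil (.node 2 6 (.cons 0x9810732654 (.cons 0x9810745623 (.cons 0x9018326547 (.cons 0x5623470981 (.cons 0x3265470981 .nil))))) .done (.node 1 4 (.cons 0x7654109832 .nil) (.node 2 4 (.cons 0x7654238901 .nil) (.node 4 6 (.cons 0x9801237645 .nil) (.node 4 9 (.cons 0x8945673210 .nil) .done .done) .done) .done) .done)) (.node 0 3 (.cons 0x9845673012 .nil) (.node 3 6 (.cons 0x5634098712 .nil) (.node 3 5 (.cons 0x6534098712 .nil) (.node 0 6 (.cons 0x4356098712 .nil) (.node 0 2 (.cons 0x2098345671 .nil) (.node 0 5 (.cons 0x9843765021 .nil) .done .done) .done) .done) .done) (.node 0 2 (.cons 0x2098345671 .nil) (.node 3 6 (.cons 0x5634098712 .nil) (.node 3 5 (.cons 0x6534098712 .nil) (.node 1 3 (.cons 0x9021348765 .nil) (.node 3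 9 (.cons 0x5678439021 .nil) .done .done) .done) .done) .done) .done)) .done)) .done)) .done))) .done)) .done))
noncomputable def tc9_0_67 : T := (.node 2 8 .nil (.node 0 4 (.cons 0x5678904321 (.cons 0x9821045673 (.cons 0x9823765401 .nil))) (.node 0 7 (.cons 0x9812345670 (.cons 0x3456709821 .nil)) (.node 1 9 (.cons 0x6548910732 (.cons 0x9182340765 (.cons 0x5678219043 .nil))) (.node 0 6 (.cons 0x9845601237 (.cons 0x9128734065 .nil)) (.node 1 5 (.cons 0x4321567890 (.cons 0x6519078234 (.cons 0x4370651982 .nil))) .done .done) (.node 4 6 (.cons 0x9801237645 (.cons 0x5467019823 (.cons 0x5467328910 .nil))) (.node 0 6 (.cons 0x9845601237 .nil) (.node 5 9 (.cons 0x9567812340 (.cons 0x9564012873 (.cons 0x3409567821 (.cons 0x7604328195 (.cons 0x6704591823 .nil))))) .done .done) .done) .done)) .done) .done) (.node 3 8 .nil (.node 0 4 (.cons 0x5678904321 (.cons 0x9837654012 .nil)) (.node 1 5 (.cons 0x4321567890 (.cons 0x9043876512 .nil)) (.node 4 9 (.cons 0x8945673210 (.cons 0x2156783490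 (.cons 0x4901567832 .nil))) (.node 7 9 (.cons 0x6548973210 (.cons 0x6790834512 (.cons 0x9765401832 (.cons 0x6790832154 .nil)))) .done .done) (.node 7 9 (.cons 0x6548973210 (.cons 0x9765401832 (.cons 0x6512387904 .nil))) (.node 5 9 (.cons 0x9567812340 (.cons 0x6795401832 (.cons 0x4095678321 .nil))) (.node 0 5 (.cons 0x6798123450 .nil) (.node 0 6 (.cons 0x5432189760 (.cons 0x5976043812 (.cons 0x9738215406 .nil))) .done .done) .done) (.node 5 9 (.cons 0x9567812340 (.cons 0x4095678321 .nil)) (.node 0 7 (.cons 0x9812345670 .nil) (.node 6 9 (.cons 0x9651870432 (.cons 0x5697384012 (.cons 0x6973804512 .nil))) .done .done) .done) .done)) .done)) (.node 1 7 (.cons 0x3289045671 (.cons 0x2176543890 .nil)) (.node 4 9 (.cons 0x8945673210 (.cons 0x3821765490 .nil)) (.node 5 8 (.cons 0x6710945832 .nil) (.node 0 6 (.cons 0x9845601237 (.cons 0x9458376012 (.cons 0x5834906712 (.cons 0x5498376012 .nil)))) .done .done) .done) (.node 2 7 (.cons 0x9810456723 .nil) (.node 0 7 (.cons 0x9812345670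 .nil) (.node 2 6 (.cons 0x9845621073 (.cons 0x9832671045 .nil)) (.node 0 2 (.cons 0x9812076543 .nil) (.node 6 9 (.cons 0x8965437021 (.cons 0x9654837210 (.cons 0x7238456901 (.cons 0x4569837021 .nil)))) .done .done) .done) .done) .done) .done)) .done)) (.node 2 7 (.cons 0x4567238901 .nil) (.node 1 7 (.cons 0x4567109832 .nil) (.node 5 8 (.cons 0x6712345890 .nil) (.node 6 8 (.cons 0x5432176890 .nil) .done .done) (.node 0 7 (.cons 0x9812345670 .nil) (.node 5 8 .nil (.node 1 6 (.cons 0x9845610732 (.cons 0x9085432167 (.cons 0x9072348561 .nil))) .done (.node 6 8 .nil (.node 1 9 (.cons 0x6548910732 (.cons 0x9186543270 (.cons 0x3458672190 (.cons 0x5684327091 .nil)))) .done .done) .done)) .done) .done)) (.node 1 7 (.cons 0x4567109832 .nil) (.node 5 8 (.cons 0x9085432176 .nil) (.node 6 8 (.cons 0x9086712345 .nil) .done .done) (.node 0 7 (.cons 0x9812345670 .nil) (.node 3 6 (.cons 0x9071284563 .nil) (.node 3 5 (.cons 0x9082176354 .nil) (.node 4 7 (.cons 0x6532109874 .nil) (.node 5 7 (.cons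 0x9012365784 .nil) (.node 7 9 (.cons 0x6548973210 .nil) .done .done) .done) .done) (.node 1 6 (.cons 0x9078432165 .nil) (.node 4 7 (.cons 0x7489012365 .nil) (.node 5 7 (.cons 0x2175634890 .nil) (.node 7 9 (.cons 0x6548973210 .nil) .done .done) .done) .done) .done)) (.node 7 9 (.cons 0x6548973210 .nil) (.node 5 7 .nil (.node 1 4 (.cons 0x3289076541 (.cons 0x6754109832 .nil)) (.node 1 6 (.cons 0x9845610732 (.cons 0x2384165790 .nil)) .done .done) (.node 1 5 (.cons 0x4321567890 .nil) (.node 4 7 (.cons 0x6512347890 .nil) .done .done) .done)) .done) .done)) .done)) .done)) .done)) .done)) (.node 0 4 (.cons 0x5678904321 .nil) (.node 0 7 (.cons 0x9812345670 .nil) (.node 0 2 (.cons 0x9812076543 .nil) (.node 2 8 (.cons 0x3456709821 .nil) (.node 6 8 (.cons 0x9865437021 .nil) (.node 4 6 (.cons 0x9801237645 .nil) (.node 2 4 .nil (.node 0 3 (.cons 0x9845673012 (.cons 0x9812430765 (.cons 0x9810324567 .nil))) .done (.node 2 9 (.cons 0x3765489210 .nil) (.node 3 8 (.cons 0x9218340765 .nil)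 (.node 5 8 (.cons 0x9218567043 .nil) .done .done) .done) .done)) .done) .done) .done) (.node 0 6 .nil (.node 1 5 (.cons 0x9843765120 (.cons 0x7890651234 (.cons 0x9806734512 .nil))) (.node 1 7 (.cons 0x5671209843 (.cons 0x8906712345 .nil)) .done .done) (.node 0 3 (.cons 0x9845673012 .nil) (.node 0 5 (.cons 0x9843765021 .nil) .done .done) .done)) .done)) (.node 0 3 (.cons 0x9845673012 .nil) (.node 0 5 .nil (.node 0 2 (.cons 0x9843765021 .nil) .done (.node 0 2 .nil (.node 7 9 (.cons 0x6548973012 (.cons 0x6798120543 (.cons 0x3456798120 (.cons 0x6548973021 .nil)))) .done (.node 0 6 .nil (.node 2 9 (.cons 0x3765489210 (.cons 0x7065432981 (.cons 0x5489210673 (.cons 0x7306548921 .nil)))) .done .done) .done)) .done)) (.node 4 7 .nil (.node 5 9 (.cons 0x9567812340 (.cons 0x6598473012 (.cons 0x2189567430 (.cons 0x4765981032 (.cons 0x4765981230 .nil))))) .done (.node 0 6 .nil (.node 3 9 (.cons 0x4567018932 (.cons 0x7398456012 (.cons 0x5489376012 (.cons 0x5476018932 .nil)))) .done (.node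 0 2 .nil (.node 5 9 (.cons 0x9567812340 (.cons 0x4378956021 (.cons 0x6734598021 (.cons 0x6745981023 (.cons 0x4895673021 .nil))))) .done (.node 0 5 .nil (.node 1 4 (.cons 0x9873412065 .nil) (.node 4 9 (.cons 0x8945673210 (.cons 0x6501498732 .nil)) .done .done) .done) .done)) .done)) .done)) .done)) .done)) (.node 4 9 (.cons 0x8945673210 .nil) (.node 1 4 .nil (.node 6 9 (.cons 0x5698732104 (.cons 0x5410896732 (.cons 0x5698732140 .nil))) (.node 0 5 (.cons 0x8945012376 (.cons 0x5089673412 .nil)) (.node 2 9 (.cons 0x3765489210 (.cons 0x5084129673 .nil)) (.node 3 9 (.cons 0x6501293784 (.cons 0x6501487392 .nil)) .done .done) (.node 2 8 (.cons 0x6732894501 (.cons 0x7328965014 (.cons 0x7328965041 .nil))) .done .done)) (.node 3 8 (.cons 0x7389654012 (.cons 0x7654109832 .nil)) (.node 3 5 (.cons 0x4537698012 (.cons 0x4109876532 .nil)) (.node 2 8 (.cons 0x9653782104 (.cons 0x9653782140 .nil)) .done .done) .done) .done)) (.node 1 5 (.cons 0x4321567890 .nil) (.node 4 7 (.cons 0x6512347890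 .nil) (.node 2 4 (.cons 0x6510987423 .nil) (.node 4 6 (.cons 0x9801237645 .nil) .done .done) .done) (.node 1 6 (.cons 0x7890432165 .nil) (.node 2 4 (.cons 0x3421567890 .nil) (.node 4 6 (.cons 0x9801237645 .nil) (.node 4 7 .nil (.node 5 9 (.cons 0x2378956401 (.cons 0x5980164732 (.cons 0x8956104732 (.cons 0x8956123740 .nil)))) .done .done) .done) .done) .done) .done)) .done)) (.node 0 2 (.cons 0x8945673201 .nil) (.node 0 3 (.cons 0x9845673012 .nil) (.node 2 7 (.cons 0x3276549810 .nil) (.node 2 4 (.cons 0x9842103765 .nil) (.node 4 6 (.cons 0x9801237645 .nil) (.node 4 7 (.cons 0x5674981032 .nil) .done .done) .done) (.node 7 9 (.cons 0x8973210456 .nil) (.node 3 9 (.cons 0x5678439021 .nil) (.node 2 9 (.cons 0x3765489210 .nil) (.node 1 9 (.cons 0x5678194320 .nil) (.node 5 9 (.cons 0x1876594320 .nil) (.node 6 9 (.cons 0x3769548021 .nil) .done .done) .done) .done) .done) (.node 2 8 (.cons 0x5679430281 .nil) (.node 3 8 (.cons 0x9765438120 .nil) (.node 5 8 (.cons 0x2034976581 .nil)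 (.node 6 8 (.cons 0x3794568201 .nil) .done .done) .done) .done) .done)) .done)) (.node 0 5 (.cons 0x9432056781 .nil) (.node 0 7 (.cons 0x9812345670 .nil) .done .done) .done)) (.node 4 7 (.cons 0x5674981023 .nil) (.node 1 4 (.cons 0x8941023765 .nil) (.node 1 7 (.cons 0x5671894320 .nil) (.node 0 7 (.cons 0x9812345670 .nil) (.node 2 4 (.cons 0x9810765423 .nil) (.node 4 6 (.cons 0x9801237645 .nil) .done .done) .done) .done) .done) (.node 1 4 (.cons 0x8941023765 .nil) (.node 1 7 (.cons 0x5671894320 .nil) (.node 1 5 (.cons 0x9843765120 .nil) (.node 7 9 (.cons 0x8973210456 .nil) (.node 2 7 (.cons 0x3276549810 .nil) (.node 0 7 (.cons 0x9812345670 .nil) (.node 5 7 (.cons 0x6578904321 .nil) .done .done) .done) .done) .done) .done) .done) .done)) .done)) .done)) (.node 4 9 (.cons 0x8945673210 .nil) (.node 0 7 (.cons 0x9812345670 .nil) (.node 0 5 (.cons 0x6501237894 .nil) (.node 4 7 (.cons 0x6509874321 .nil) (.node 1 7 (.cons 0x6509871234 .nil) (.node 0 2 (.cons 0x8902176543 .nil) (.node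 0 3 (.cons 0x9845673012 .nil) .done .done) .done) .done) (.node 0 6 (.cons 0x5601237894 .nil) (.node 4 7 (.cons 0x8947321065 .nil) (.node 2 7 (.cons 0x9810456723 .nil) (.node 5 7 (.cons 0x3275604981 .nil) (.node 0 2 (.cons 0x7560234981 .nil) (.node 0 3 (.cons 0x3098456721 .nil) .done .done) .done) .done) .done) .done) .done)) (.node 0 6 (.cons 0x5601237894 .nil) (.node 0 5 (.cons 0x6501237894 .nil) (.node 0 2 (.cons 0x9812076543 .nil) (.node 0 3 (.cons 0x9845673012 .nil) .done .done) .done) (.node 0 5 (.cons 0x6501237894 .nil) (.node 0 2 (.cons 0x9812076543 .nil) (.node 0 3 (.cons 0x9845673012 .nil) .done .done) (.node 0 2 (.cons 0x9812076543 .nil) (.node 0 3 (.cons 0x9845673012 .nil) .done .done) .done)) .done)) .done)) (.node 0 7 (.cons 0x9812345670 .nil) (.node 4 7 .nil (.node 0 5 (.cons 0x8945012376 (.cons 0x6509874321 .nil)) (.node 1 5 (.cons 0x4321567890 (.cons 0x6512347890 .nil)) (.node 0 2 (.cons 0x9021567843 (.cons 0x9812056743 .nil)) (.node 6 8 (.cons 0x5498673210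 (.cons 0x9865473201 (.cons 0x9086745123 .nil))) .done .done) .done) .done) .done) (.node 0 5 (.cons 0x8945012376 .nil) (.node 0 6 (.cons 0x9432187605 .nil) (.node 0 2 (.cons 0x9812076543 .nil) (.node 0 3 (.cons 0x9845673012 .nil) .done .done) .done) (.node 4 7 (.cons 0x6509874321 .nil) (.node 4 6 (.cons 0x7890564321 .nil) (.node 1 7 (.cons 0x9871234650 .nil) (.node 2 7 (.cons 0x9810456723 .nil) (.node 5 7 (.cons 0x6498750123 .nil) (.node 7 9 (.cons 0x5467980123 .nil) .done .done) .done) .done) .done) .done) .done)) .done)) .done)) .done))) (.node 3 8 .nil (.node 1 7 (.cons 0x9017654832 (.cons 0x2176543890 .nil)) (.node 0 4 (.cons 0x5678904321 (.cons 0x9837654012 .nil)) (.node 1 5 (.cons 0x9043876512 .nil) (.node 7 9 (.cons 0x6790154832 (.cons 0x6790834512 (.cons 0x9765401832 (.cons 0x6790832154 .nil)))) .done (.node 6 9 (.cons 0x9651048732 (.cons 0x7834096512 (.cons 0x8715690432 (.cons 0x7832156904 .nil)))) (.node 1 9 (.cons 0x5678340912 .nil) (.node 2 9 (.cons 0x9237840156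 (.cons 0x6548923710 (.cons 0x6517840923 .nil))) .done .done) .done) .done)) (.node 6 9 (.cons 0x5698732104 (.cons 0x5698401732 (.cons 0x7389654012 (.cons 0x8965401732 .nil)))) (.node 0 2 (.cons 0x9845673201 (.cons 0x5698402371 .nil)) (.node 1 5 (.cons 0x7832156904 (.cons 0x4871569023 (.cons 0x9021567834 .nil))) .done .done) .done) .done)) (.node 0 4 (.cons 0x5678904321 (.cons 0x9837654012 .nil)) (.node 1 5 (.cons 0x4321567890 (.cons 0x9043876512 .nil)) (.node 7 9 (.cons 0x6790834512 (.cons 0x9765401832 (.cons 0x6790832154 .nil))) (.node 0 2 (.cons 0x9845673201 (.cons 0x6548973201 (.cons 0x9765184320 .nil))) .done .done) (.node 1 9 (.cons 0x2376548910 (.cons 0x5678340912 .nil)) (.node 5 8 (.cons 0x7658340912 (.cons 0x7658321904 .nil)) .done .done) .done)) (.node 0 2 (.cons 0x9845673201 .nil) (.node 2 7 (.cons 0x3276548901 .nil) (.node 7 9 (.cons 0x9765481023 (.cons 0x9765438120 .nil)) (.node 1 6 (.cons 0x3279816540 (.cons 0x9723816540 (.cons 0x9837216540 .nil))) (.node 2 6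 (.cons 0x8973265401 (.cons 0x7983265401 .nil)) .done .done) .done) .done) (.node 4 7 (.cons 0x5674389021 .nil) (.node 1 5 (.cons 0x4321567890 (.cons 0x6512347890 (.cons 0x8902156743 .nil))) (.node 3 5 (.cons 0x6532109874 (.cons 0x9810235674 .nil)) .done .done) (.node 5 9 (.cons 0x4895673201 (.cons 0x6590123874 (.cons 0x9567438120 (.cons 0x6745908321 .nil)))) (.node 1 4 (.cons 0x7659814320 .nil) (.node 2 6 (.cons 0x5980267341 (.cons 0x4598326710 (.cons 0x9541083762 (.cons 0x7389562041 .nil)))) .done .done) .done) .done)) .done)) .done)) .done)) (.node 2 8 .nil (.node 1 7 (.cons 0x9017654823 (.cons 0x3456712890 .nil)) (.node 0 4 (.cons 0x5678904321 (.cons 0x9821045673 .nil)) (.node 7 9 (.cons 0x9738210456 (.cons 0x9765401823 (.cons 0x8321790456 .nil))) (.node 0 7 (.cons 0x3456709821 .nil) (.node 4 9 (.cons 0x8945673210 (.cons 0x6549823701 (.cons 0x3765498210 .nil))) .done .done) .done) (.node 4 9 (.cons 0x8945673210 (.cons 0x3765498210 .nil)) (.node 0 5 (.cons 0x8945012376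 (.cons 0x6732894501 .nil)) (.node 1 9 (.cons 0x6509178432 (.cons 0x9105673284 (.cons 0x9128734056 .nil))) .done (.node 2 6 (.cons 0x9871265043 (.cons 0x9056217834 (.cons 0x7126509834 (.cons 0x6217389450 .nil)))) .done .done)) .done) .done)) (.node 1 3 (.cons 0x7654890132 (.cons 0x9013284567 .nil)) (.node 4 7 (.cons 0x5674890132 (.cons 0x9013284765 (.cons 0x5674312890 .nil))) .done .done) .done)) (.node 2 7 (.cons 0x3276548901 .nil) (.node 1 7 (.cons 0x9017238456 .nil) (.node 5 8 (.cons 0x6712345890 .nil) (.node 6 8 (.cons 0x5432176890 .nil) .done .done) (.node 0 7 (.cons 0x9812345670 .nil) (.node 4 7 .nil (.node 2 6 (.cons 0x7126543890 (.cons 0x9832654701 (.cons 0x5621743890 .nil))) .done (.node 5 8 (.cons 0x6745890123 .nil) (.node 6 8 (.cons 0x5476890123 .nil) .done .done) .done)) .done) .done)) (.node 3 5 (.cons 0x6723548901 .nil) (.node 6 8 .nil (.node 4 9 (.cons 0x8945673210 (.cons 0x7865321094 (.cons 0x5498673210 (.cons 0x9453768012 .nil)))) .done (.node 5 8 .nil (.node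 1 6 (.cons 0x5489016723 (.cons 0x9085432167 (.cons 0x9016723584 .nil))) .done .done) .done)) (.node 6 8 (.cons 0x4532768901 .nil) (.node 5 8 .nil (.node 0 3 (.cons 0x5430986721 (.cons 0x9034586721 .nil)) (.node 1 7 (.cons 0x9085432176 (.cons 0x4309856712 .nil)) (.node 2 4 (.cons 0x3542768901 (.cons 0x9842301765 (.cons 0x9017245386 (.cons 0x6890172453 .nil)))) .done .done) .done) .done) .done) .done)) .done)) .done)) .done)) .done)))
noncomputable def uc9_0_11 : T := (.node 4 8 (.cons 0x9845673210 .nil) tc9_0_67 (.node 3 8 .nil tc9_0_66 (.node 4 8 (.cons 0x9845673210 .nil) tc9_0_65 .done)))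
theorem sub_c9_0_11 : root 9 refs9_0 [] 0x700000008704000000504060080000060500000000504000000004010000080010300000000302000000002018500000010 0xfe7fff4ffeafff9fffcfffedfef5fff3fff9fedd 9 1 8 (.cons 0x7654321890 .nil) uc9_0_11 = true := by decide +kernel
noncomputable def tc9_0_68 : T := (.node 6 9 (.cons 0x7321089654 (.cons 0x2173456980 (.cons 0x4569801732 .nil))) (.node 3 8 (.cons 0x4567109832 .nil) (.node 4 9 (.cons 0x8945673210 (.cons 0x6549801732 .nil)) (.node 0 6 (.cons 0x5601237894 (.cons 0x8712349065 (.cons 0x7389456012 (.cons 0x8945601732 .nil)))) .done (.node 0 4 (.cons 0x5678904321 (.cons 0x9837654012 .nil)) (.node 0 5 (.cons 0x8945012376 (.cons 0x6738945012 .nil)) (.node 2 9 (.cons 0x5678129043 (.cons 0x8173405692 (.cons 0x9218376540 .nil))) .done .done) (.node 2 9 (.cons 0x8923765401 (.cons 0x8923710456 (.cons 0x6540892371 .nil))) .done .done)) (.node 3 6 (.cons 0x5634908712 .nil) (.node 3 5 (.cons 0x6534908712 .nil) (.node 0 6 (.cons 0x4987356012 (.cons 0x9806543712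 .nil)) (.node 2 7 (.cons 0x6538721094 (.cons 0x9067218345 (.cons 0x9456083721 .nil))) .done .done) .done) .done) .done))) (.node 4 8 (.cons 0x9845673210 .nil) (.node 3 9 (.cons 0x7654893210 (.cons 0x2398456710 .nil)) (.node 0 6 (.cons 0x9806543712 (.cons 0x7106548932 .nil)) (.node 1 9 (.cons 0x7345608912 .nil) (.node 4 9 (.cons 0x8945673210 (.cons 0x5498376012 (.cons 0x6549801732 .nil))) .done .done) (.node 5 9 (.cons 0x7609543812 (.cons 0x2178439560 (.cons 0x4871065932 (.cons 0x4871239560 .nil)))) .done .done)) .done) (.node 0 4 (.cons 0x5678904321 (.cons 0x5698043712 .nil)) (.node 2 5 (.cons 0x7690438125 (.cons 0x9671048325 (.cons 0x9652371084 (.cons 0x4896523710 (.cons 0x5238409671 .nil))))) .done (.node 5 8 (.cons 0x5896732104 (.cons 0x5896712340 .nil)) (.node 2 5 (.cons 0x5218967340 (.cons 0x3258409671 (.cons 0x4896523710 .nil))) (.node 0 5 (.cons 0x4058967321 (.cons 0x9671052384 (.cons 0x4389671250 .nil))) (.node 0 6 (.cons 0x9854067321 (.cons 0x9067123854 (.cons 0x9834521760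 .nil))) .done .done) .done) .done) .done)) .done)) .done)) (.node 3 8 (.cons 0x4567109832 .nil) (.node 6 8 (.cons 0x9086543217 .nil) (.node 4 8 (.cons 0x9845673210 .nil) (.node 3 6 (.cons 0x7123690845 (.cons 0x5489017632 .nil)) (.node 0 5 (.cons 0x1237698450 (.cons 0x7690548321 (.cons 0x5098436712 .nil))) (.node 0 4 (.cons 0x5678904321 (.cons 0x9837654012 .nil)) (.node 3 5 (.cons 0x8453217690 (.cons 0x8712356904 .nil)) .done .done) .done) .done) (.node 5 8 (.cons 0x6712345890 .nil) (.node 2 8 (.cons 0x9017654823 .nil) (.node 0 2 (.cons 0x9845673201 (.cons 0x9654802371 .nil)) (.node 0 3 (.cons 0x5482309671 (.cons 0x6712309854 .nil)) (.node 0 5 (.cons 0x9812056734 (.cons 0x3284509671 (.cons 0x6712890543 .nil))) .done .done) .done) .done) .done) .done)) (.node 0 2 (.cons 0x9021834567 (.cons 0x5432098671 .nil)) (.node 2 9 (.cons 0x4568923710 .nil) (.node 0 5 (.cons 0x4508692371 (.cons 0x6738921054 (.cons 0x6734502981 .nil))) .done (.node 0 5 (.cons 0x7650921834 (.cons 0x6508921734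 (.cons 0x4376502981 .nil))) .done .done)) (.node 3 5 (.cons 0x4356718902 .nil) (.node 2 9 (.cons 0x4356781290 (.cons 0x4568923710 (.cons 0x8671092354 .nil))) .done (.node 4 7 (.cons 0x7456908321 (.cons 0x6890174532 (.cons 0x5674389021 (.cons 0x6534718902 .nil)))) .done .done)) .done)) .done)) (.node 4 8 (.cons 0x9845673210 .nil) (.node 0 3 (.cons 0x7654309812 (.cons 0x9654803217 (.cons 0x9845671032 .nil))) (.node 3 9 (.cons 0x7654893210 (.cons 0x2398456710 .nil)) (.node 5 9 (.cons 0x2176598430 (.cons 0x4895671032 .nil)) (.node 0 2 (.cons 0x4596738120 (.cons 0x6734598120 .nil)) (.node 0 6 (.cons 0x7609543812 (.cons 0x4598376012 (.cons 0x7106548932 .nil))) .done .done) .done) .done) .done) (.node 1 5 (.cons 0x2384517690 .nil) (.node 0 4 (.cons 0x9876512340 (.cons 0x8321769045 .nil)) (.node 0 2 (.cons 0x9845673201 (.cons 0x9671548320 (.cons 0x5176984023 .nil))) .done (.node 2 5 (.cons 0x3409876521 (.cons 0x6983712540 (.cons 0x6712540983 .nil))) (.node 1 9 (.cons 0x6523487190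 (.cons 0x6917325480 (.cons 0x8432567190 .nil))) .done .done) .done)) (.node 0 2 (.cons 0x9845673201 (.cons 0x9654802371 (.cons 0x6984517320 (.cons 0x4896517320 .nil)))) .done .done)) .done)) .done)) .done)) (.node 2 7 (.cons 0x3456721890 .nil) (.node 0 7 (.cons 0x8907654321 .nil) (.node 4 7 (.cons 0x9801237456 .nil) (.node 7 9 (.cons 0x8097123456 .nil) (.node 5 7 .nil (.node 4 8 (.cons 0x9845673210 (.cons 0x6754890123 .nil)) (.node 4 6 (.cons 0x9087123465 (.cons 0x9087564321 .nil)) (.node 2 9 (.cons 0x6547329801 (.cons 0x8092175643 .nil)) (.node 0 3 (.cons 0x7654309812 (.cons 0x8756430921 (.cons 0x6754309812 (.cons 0x6574892301 .nil)))) (.node 1 6 (.cons 0x8923745610 (.cons 0x6189275430 (.cons 0x3298475610 .nil))) .done .done) .done) .done) .done) .done) .done) .done) (.node 4 7 (.cons 0x9801237456 .nil) (.node 7 9 (.cons 0x8097123456 .nil) (.node 5 7 .nil (.node 3 6 (.cons 0x5436721890 (.cons 0x9081275436 .nil)) (.node 2 4 (.cons 0x9801247365 (.cons 0x9801247563 (.cons 0x4218097563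 (.cons 0x7563421890 .nil)))) .done (.node 1 4 (.cons 0x6541237980 (.cons 0x9801457236 (.cons 0x4109875632 (.cons 0x8901457632 .nil)))) .done .done)) .done) .done) .done) .done)) (.node 1 5 (.cons 0x4321567890 .nil) (.node 1 6 .nil (.node 0 7 (.cons 0x8907654321 (.cons 0x8907612345 (.cons 0x9807345612 .nil))) (.node 4 9 (.cons 0x8945673210 (.cons 0x8945610732 (.cons 0x6154980723 (.cons 0x3721654980 (.cons 0x5617809432 .nil))))) .done .done) (.node 1 4 .nil (.node 6 9 (.cons 0x5690871234 (.cons 0x3721456980 (.cons 0x5690871432 (.cons 0x7321456980 .nil)))) .done (.node 1 3 .nil (.node 0 7 (.cons 0x8907654321 (.cons 0x8907654312 (.cons 0x8907231456 .nil))) (.node 0 4 (.cons 0x9876512340 (.cons 0x5678904312 (.cons 0x8904567231 .nil))) (.node 5 8 (.cons 0x6709854321 (.cons 0x9041327856 .nil)) (.node 6 8 (.cons 0x9086543217 (.cons 0x7231456890 .nil)) (.node 0 5 (.cons 0x9867054321 (.cons 0x9867054312 (.cons 0x6509872314 .nil))) .done .done) .done) .done) .done) (.node 1 9 .nil (.node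 0 4 (.cons 0x9876512340 (.cons 0x6540891273 (.cons 0x8910456732 .nil))) (.node 3 8 (.cons 0x9045672183 (.cons 0x8327654091 .nil)) .done (.node 0 6 (.cons 0x9876043215 (.cons 0x7345608912 (.cons 0x5198760432 .nil))) (.node 3 6 (.cons 0x5409812763 (.cons 0x8091723654 .nil)) .done .done) .done)) .done) .done)) (.node 4 8 (.cons 0x9845673210 .nil) (.node 4 7 (.cons 0x9801237456 .nil) (.node 5 7 .nil (.node 4 6 (.cons 0x9087123465 (.cons 0x9087564321 .nil)) (.node 6 8 (.cons 0x9086543217 (.cons 0x3214576890 .nil)) .done .done) (.node 0 7 (.cons 0x8907654321 .nil) (.node 7 9 (.cons 0x8097123456 .nil) .done .done) .done)) (.node 2 8 (.cons 0x9082347165 .nil) (.node 3 8 .nil (.node 0 4 (.cons 0x9876512340 (.cons 0x9045672183 (.cons 0x3890456721 .nil))) .done (.node 5 8 (.cons 0x9085617432 .nil) (.node 6 8 (.cons 0x9086543217 .nil) .done .done) .done)) .done) .done)) (.node 1 3 (.cons 0x1327654890 .nil) (.node 1 9 (.cons 0x2376548910 .nil) .done .done) .done)) .done))) .done)) (.node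 4 8 (.cons 0x9845673210 .nil) (.node 1 4 .nil (.node 6 9 (.cons 0x5690871234 (.cons 0x3721456980 (.cons 0x5690871432 (.cons 0x7321456980 .nil)))) (.node 5 7 (.cons 0x9657123480 (.cons 0x2143756980 (.cons 0x8096571432 .nil))) .done .done) (.node 4 7 (.cons 0x6512347890 .nil) (.node 0 4 (.cons 0x5678904321 .nil) (.node 4 6 (.cons 0x9087123465 .nil) (.node 2 4 (.cons 0x9873246510 .nil) (.node 4 9 (.cons 0x8945673210 .nil) .done .done) .done) (.node 1 3 (.cons 0x8904567231 .nil) (.node 1 9 (.cons 0x5672319840 .nil) .done .done) .done)) (.node 1 3 .nil (.node 6 8 (.cons 0x9086543217 (.cons 0x5413276890 (.cons 0x9086547132 .nil))) .done (.node 1 6 (.cons 0x9801654732 .nil) (.node 1 9 (.cons 0x3274561980 .nil) .done .done) .done)) .done)) .done)) (.node 3 8 .nil (.node 0 4 (.cons 0x5678904321 (.cons 0x9045672183 (.cons 0x3890456721 .nil))) (.node 5 9 (.cons 0x6590871234 (.cons 0x6710954832 (.cons 0x6712384590 .nil))) (.node 6 9 (.cons 0x5489673210 (.cons 0x8327156904 (.cons 0x4569083271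 (.cons 0x5483217690 .nil)))) .done .done) .done) (.node 1 4 (.cons 0x1456723890 .nil) (.node 1 6 (.cons 0x9083271654 .nil) (.node 3 6 (.cons 0x7632109845 .nil) (.node 3 5 .nil (.node 0 4 (.cons 0x5678904321 (.cons 0x9043567812 (.cons 0x9048721536 (.cons 0x9804165327 .nil)))) .done .done) .done) .done) .done) .done)) (.node 3 8 (.cons 0x9017654832 .nil) (.node 1 3 (.cons 0x1327654890 .nil) (.node 2 8 (.cons 0x9017654823 .nil) (.node 2 5 (.cons 0x7652310984 .nil) (.node 2 6 (.cons 0x9017623845 .nil) (.node 1 9 (.cons 0x2376548910 .nil) (.node 1 4 (.cons 0x5672314890 .nil) (.node 1 6 (.cons 0x5234876190 .nil) .done .done) .done) .done) .done) .done) .done) .done) .done))) .done)) .done)) (.node 2 7 (.cons 0x3456721890 .nil) (.node 0 7 (.cons 0x8907654321 .nil) (.node 4 7 (.cons 0x9801237456 .nil) (.node 4 8 (.cons 0x9845673210 .nil) (.node 1 9 (.cons 0x6543708912 .nil) (.node 1 4 .nil (.node 6 9 (.cons 0x9654372180 (.cons 0x5698073412 (.cons 0x5690872143 (.cons 0x5690872341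 (.cons 0x7321456980 .nil))))) .done (.node 1 3 (.cons 0x8907654312 .nil) (.node 1 5 (.cons 0x4321567890 .nil) (.node 1 6 (.cons 0x9807345612 .nil) .done .done) .done) .done)) (.node 7 9 .nil (.node 0 5 (.cons 0x8905432176 (.cons 0x8432197650 (.cons 0x6508432791 .nil))) .done (.node 5 7 .nil (.node 1 6 (.cons 0x4561237980 (.cons 0x2347561980 (.cons 0x8091657432 .nil))) .done .done) .done)) .done)) (.node 0 4 (.cons 0x5678904321 .nil) (.node 0 5 (.cons 0x8905432176 .nil) (.node 0 6 (.cons 0x8906712345 .nil) (.node 5 7 (.cons 0x5760984321 .nil) (.node 7 9 .nil (.node 3 5 (.cons 0x4890675321 (.cons 0x8453210976 (.cons 0x6534097812 .nil))) .done .done) .done) .done) .done) .done) .done)) .done) (.node 4 7 (.cons 0x9801237456 .nil) (.node 0 4 (.cons 0x5678904321 .nil) (.node 0 5 (.cons 0x8905432176 .nil) (.node 0 6 (.cons 0x8906712345 .nil) (.node 0 3 (.cons 0x7654309812 .nil) (.node 0 2 .nil (.node 6 9 (.cons 0x9654372180 (.cons 0x7345698021 (.cons 0x9654372081 (.cons 0x3745698021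 .nil)))) .done .done) .done) .done) .done) (.node 0 2 .nil (.node 4 9 (.cons 0x8945673210 (.cons 0x8945673201 .nil)) (.node 0 5 (.cons 0x9437812056 .nil) (.node 0 6 (.cons 0x9437812065 (.cons 0x7349812065 .nil)) .done .done) .done) (.node 0 3 (.cons 0x7654309812 .nil) (.node 0 5 (.cons 0x9812056734 .nil) (.node 0 6 (.cons 0x8906712345 .nil) .done .done) .done) .done)) .done)) .done) .done)) (.node 0 7 (.cons 0x8907654321 .nil) (.node 3 8 (.cons 0x9076543812 .nil) (.node 4 8 (.cons 0x9845673210 .nil) (.node 2 8 .nil (.node 0 5 (.cons 0x8905432176 (.cons 0x6712890543 .nil)) (.node 1 4 (.cons 0x6723890541 (.cons 0x9056782341 .nil)) (.node 6 9 (.cons 0x9654370812 (.cons 0x9650734182 (.cons 0x9654370821 (.cons 0x7328965410 (.cons 0x6982371450 .nil))))) .done .done) .done) .done) (.node 4 7 (.cons 0x9801237456 .nil) (.node 0 4 (.cons 0x5678904321 .nil) (.node 4 9 (.cons 0x8945673210 .nil) (.node 0 2 (.cons 0x9845673201 .nil) (.node 0 3 (.cons 0x6549812730 .nil) (.node 0 5 (.cons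 0x9812056734 .nil) (.node 0 6 (.cons 0x3721894560 .nil) .done .done) .done) .done) .done) .done) .done) .done)) (.node 4 8 (.cons 0x9845673210 .nil) (.node 5 8 (.cons 0x6712345890 .nil) (.node 6 8 (.cons 0x5432176890 .nil) .done .done) (.node 2 8 .nil (.node 0 4 (.cons 0x5678904321 (.cons 0x9821045673 (.cons 0x9823765401 .nil))) .done (.node 5 8 (.cons 0x6712345890 .nil) (.node 6 8 (.cons 0x5432176890 .nil) .done .done) .done)) .done)) .done)) (.node 0 5 (.cons 0x8905432176 .nil) (.node 0 4 (.cons 0x5678904321 .nil) (.node 0 2 .nil (.node 1 9 (.cons 0x6543708912 (.cons 0x8912073456 .nil)) (.node 4 8 (.cons 0x9845673210 (.cons 0x5670219843 (.cons 0x9845673201 .nil))) .done .done) (.node 0 3 (.cons 0x7654309812 .nil) (.node 0 6 (.cons 0x8906712345 .nil) .done .done) .done)) (.node 0 6 (.cons 0x8906712345 .nil) (.node 0 3 (.cons 0x7654309812 .nil) (.node 0 2 .nil (.node 1 9 (.cons 0x6543708912 (.cons 0x8912073456 .nil)) (.node 3 9 (.cons 0x4390567812 (.cons 0x6540273981 (.cons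 0x4567398102 .nil))) .done .done) .done) .done) .done) .done)) (.node 0 4 (.cons 0x5678904321 .nil) (.node 0 6 (.cons 0x8906712345 .nil) (.node 0 3 (.cons 0x7654309812 .nil) (.node 0 2 .nil (.node 2 6 (.cons 0x9817620543 .nil) (.node 3 8 (.cons 0x9054381762 (.cons 0x9026718345 .nil)) .done .done) .done) .done) .done) (.node 0 6 (.cons 0x8906712345 .nil) (.node 0 3 (.cons 0x7654309812 .nil) (.node 0 2 .nil (.node 3 6 (.cons 0x5409812763 (.cons 0x5436718902 .nil)) .done .done) .done) (.node 0 3 (.cons 0x7654309812 .nil) (.node 0 2 .nil (.node 3 6 (.cons 0x5409812763 (.cons 0x5436718902 .nil)) .done .done) .done) .done)) .done)) .done)) (.node 0 5 (.cons 0x8905432176 .nil) (.node 0 4 (.cons 0x5678904321 .nil) (.node 0 3 (.cons 0x7654309812 .nil) (.node 0 2 .nil (.node 4 8 (.cons 0x9845673210 (.cons 0x9845673201 .nil)) (.node 7 9 (.cons 0x9765034812 (.cons 0x5679843021 .nil)) .done .done) .done) .done) (.node 0 6 (.cons 0x8906712345 .nil) (.node 0 3 (.cons 0x7654309812 .nil)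 (.node 0 2 .nil (.node 1 5 (.cons 0x4321567890 (.cons 0x9876512043 (.cons 0x9873402156 .nil))) .done .done) .done) .done) .done)) (.node 7 9 .nil (.node 2 6 (.cons 0x9805437126 (.cons 0x6217980543 (.cons 0x9734562180 (.cons 0x4379805621 .nil)))) .done (.node 4 7 (.cons 0x9801237456 .nil) (.node 0 4 (.cons 0x5678904321 .nil) (.node 5 7 .nil (.node 1 6 (.cons 0x2165437980 (.cons 0x9087561234 (.cons 0x8904321675 .nil))) (.node 6 9 (.cons 0x5690874321 (.cons 0x8096574321 (.cons 0x2345716980 (.cons 0x6980457321 .nil)))) .done .done) .done) .done) .done) .done)) .done)) .done))) .done)) .done)))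
noncomputable def tc9_0_69 : T := (.node 1 7 (.cons 0x2176543890 .nil) (.node 2 8 (.cons 0x3456712890 .nil) (.node 4 8 (.cons 0x9845673210 .nil) (.node 4 9 (.cons 0x8945673210 (.cons 0x3289456710 .nil)) (.node 0 5 (.cons 0x6501237894 (.cons 0x8712349056 (.cons 0x6718905432 .nil))) (.node 2 4 (.cons 0x6501249873 (.cons 0x9056783421 .nil)) (.node 3 9 (.cons 0x6712893450 (.cons 0x4398217650 (.cons 0x6710542893 .nil))) .done .done) .done) (.node 0 5 (.cons 0x8945012376 (.cons 0x6738945012 (.cons 0x6718905432 .nil))) (.node 3 9 (.cons 0x6509348712 (.cons 0x9348217650 (.cons 0x8239450176 .nil))) .done .done) .done)) (.node 0 4 (.cons 0x5678904321 (.cons 0x9837654012 .nil)) (.node 5 9 (.cons 0x8765904321 (.cons 0x8712340956 (.cons 0x4095678321 .nil))) (.node 0 2 (.cons 0x6734598120 (.cons 0x6598021734 .nil)) (.node 3 6 (.cons 0x4365908712 (.cons 0x9563408217 (.cons 0x1763459820 .nil))) .done .done) (.node 2 6 (.cons 0x5904326781 (.cons 0x8176234590 (.cons 0x8176234095 (.cons 0x9540817326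 .nil)))) .done .done)) (.node 6 8 (.cons 0x5409867123 .nil) (.node 5 8 (.cons 0x9854012376 .nil) (.node 5 9 (.cons 0x3768954012 (.cons 0x6738954012 (.cons 0x6710459823 .nil))) (.node 0 2 (.cons 0x9845673201 (.cons 0x6590234871 .nil)) (.node 0 3 (.cons 0x4309568712 (.cons 0x9823017654 .nil)) .done .done) .done) .done) .done) .done)) .done)) (.node 0 4 (.cons 0x5678904321 (.cons 0x9837654012 (.cons 0x3289045671 .nil))) (.node 6 9 (.cons 0x7321089654 (.cons 0x2173456980 (.cons 0x9654082371 .nil))) (.node 5 8 (.cons 0x9658043217 (.cons 0x9658043712 (.cons 0x5817690432 .nil))) .done (.node 5 9 (.cons 0x8123769540 (.cons 0x8712340956 (.cons 0x2183769540 (.cons 0x6954081732 .nil)))) .done .done)) (.node 4 9 (.cons 0x8945673210 (.cons 0x6549801732 .nil)) (.node 0 5 (.cons 0x6501237894 (.cons 0x8712349056 (.cons 0x6718905432 .nil))) (.node 2 6 (.cons 0x9812673450 (.cons 0x3498712650 (.cons 0x7834905621 (.cons 0x8943712650 .nil)))) .done .done) (.node 0 6 (.cons 0x7609812345 (.cons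 0x9456082173 (.cons 0x5608943712 (.cons 0x9806543712 .nil)))) (.node 0 3 (.cons 0x7654903821 .nil) (.node 2 5 (.cons 0x3760189452 (.cons 0x7652103894 (.cons 0x1256783490 (.cons 0x4982560371 .nil)))) .done .done) .done) .done)) .done)) .done)) (.node 4 8 (.cons 0x9017654832 .nil) (.node 2 8 .nil (.node 6 9 (.cons 0x5690871234 (.cons 0x7123809654 (.cons 0x9654371280 (.cons 0x5432817690 .nil)))) (.node 0 5 (.cons 0x9650843217 (.cons 0x9650821734 (.cons 0x5096718234 .nil))) (.node 0 6 (.cons 0x7609812345 (.cons 0x9067182345 (.cons 0x9065438217 .nil))) .done .done) .done) (.node 2 7 (.cons 0x1276543890 .nil) (.node 6 9 (.cons 0x5690871234 (.cons 0x1273456980 (.cons 0x8096543271 (.cons 0x7123809654 .nil)))) (.node 0 5 (.cons 0x9650843217 (.cons 0x6721890543 (.cons 0x9650843271 .nil))) (.node 0 6 (.cons 0x7609812345 (.cons 0x9806543721 (.cons 0x5432760981 .nil))) .done .done) .done) (.node 4 6 (.cons 0x9087123465 (.cons 0x5467210983 (.cons 0x5467238901 .nil))) (.node 7 9 (.cons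 0x8097123456 (.cons 0x6543809712 (.cons 0x5467901832 .nil))) (.node 1 4 (.cons 0x6541237980 (.cons 0x5641238790 .nil)) (.node 0 2 (.cons 0x5678902143 (.cons 0x9021438765 (.cons 0x9738021465 .nil))) .done .done) .done) .done) .done)) .done)) (.node 4 7 (.cons 0x9801237456 .nil) (.node 4 9 (.cons 0x8945673210 .nil) (.node 4 6 (.cons 0x5649873210 (.cons 0x7832109465 (.cons 0x5649017832 .nil))) (.node 0 5 (.cons 0x7894650123 (.cons 0x9465012387 (.cons 0x6509438712 (.cons 0x9465017832 .nil)))) .done .done) (.node 2 7 (.cons 0x6549083271 .nil) (.node 1 3 (.cons 0x5672134890 .nil) (.node 4 6 (.cons 0x9087123465 (.cons 0x5649872310 (.cons 0x8723109465 .nil))) .done .done) .done) .done)) (.node 7 9 (.cons 0x8097123456 (.cons 0x6543809712 .nil)) (.node 4 6 (.cons 0x9087123465 (.cons 0x5467983210 (.cons 0x8321097645 .nil))) .done (.node 5 7 (.cons 0x6754321890 .nil) (.node 2 9 (.cons 0x3765489210 (.cons 0x8329017456 (.cons 0x6571290834 .nil))) (.node 0 7 (.cons 0x8907654321 .nil) (.node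 4 6 (.cons 0x9087123465 (.cons 0x9832107645 (.cons 0x9210837546 .nil))) .done .done) .done) .done) .done)) .done)) .done)) .done)) (.node 1 7 (.cons 0x4567109832 .nil) (.node 4 8 (.cons 0x9845673210 .nil) (.node 2 8 .nil (.node 6 9 (.cons 0x5690871234 (.cons 0x9654371280 (.cons 0x5432817690 .nil))) (.node 4 7 (.cons 0x5698012374 (.cons 0x5690821743 (.cons 0x5690823471 .nil))) (.node 0 4 (.cons 0x5678904321 (.cons 0x9821045673 (.cons 0x9823765401 .nil))) (.node 0 5 (.cons 0x9650843217 (.cons 0x9650821734 (.cons 0x5096718234 .nil))) .done .done) .done) (.node 6 8 (.cons 0x9086543217 .nil) (.node 4 7 (.cons 0x1237456980 (.cons 0x3280965471 .nil)) (.node 3 5 (.cons 0x3547689012 (.cons 0x9012867453 (.cons 0x3547128690 .nil))) .done (.node 1 3 (.cons 0x2137456980 (.cons 0x2831745690 (.cons 0x5674312890 .nil))) .done .done)) .done) .done)) (.node 2 7 (.cons 0x4567238901 .nil) (.node 6 8 (.cons 0x9086543217 .nil) (.node 5 8 .nil (.node 0 3 (.cons 0x5430986721 (.cons 0x9034586721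 (.cons 0x9034586712 .nil))) (.node 4 9 (.cons 0x8945673210 (.cons 0x6587123490 (.cons 0x6710945832 (.cons 0x4985673012 (.cons 0x4903285671 .nil))))) .done .done) .done) .done) .done) .done)) (.node 4 7 (.cons 0x9801237456 .nil) (.node 2 7 (.cons 0x4567238901 .nil) (.node 2 8 .nil (.node 0 4 (.cons 0x5678904321 (.cons 0x9823765401 .nil)) (.node 7 9 (.cons 0x8097123456 (.cons 0x6543280971 .nil)) (.node 1 3 (.cons 0x3127654890 (.cons 0x6540972831 (.cons 0x8213409765 .nil))) .done .done) .done) (.node 5 8 (.cons 0x6745890123 .nil) (.node 6 8 (.cons 0x5476890123 .nil) .done .done) .done)) .done) (.node 0 7 (.cons 0x8907654321 .nil) (.node 2 7 (.cons 0x4567238901 .nil) (.node 5 7 (.cons 0x6754321890 .nil) (.node 7 9 (.cons 0x8097123456 .nil) .done .done) .done) (.node 5 7 (.cons 0x6754321890 .nil) (.node 2 7 (.cons 0x4567238901 .nil) (.node 7 9 (.cons 0x8097123456 .nil) .done .done) .done) .done)) .done)) .done)) (.node 4 8 (.cons 0x9845673210 .nil) (.node 2 8 (.cons 0x3456712890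 .nil) (.node 2 7 (.cons 0x4567238901 .nil) (.node 6 8 .nil (.node 4 9 (.cons 0x8945673210 (.cons 0x7238654901 (.cons 0x5498673210 (.cons 0x9456801273 (.cons 0x5490186723 .nil))))) .done (.node 5 8 .nil (.node 0 3 (.cons 0x8903456712 (.cons 0x9034586721 (.cons 0x4309856712 .nil))) (.node 2 9 (.cons 0x6543712980 (.cons 0x6587129034 (.cons 0x7685430921 (.cons 0x9217658430 .nil)))) .done .done) .done) .done)) (.node 2 4 (.cons 0x7654238901 .nil) (.node 4 7 (.cons 0x9801237456 .nil) (.node 0 2 (.cons 0x2098345671 .nil) (.node 2 9 (.cons 0x6543712980 .nil) (.node 2 5 (.cons 0x4389025671 .nil) (.node 2 6 (.cons 0x4562983710 .nil) .done .done) .done) .done) .done) (.node 1 4 (.cons 0x7654109832 .nil) (.node 4 7 (.cons 0x9801237456 .nil) (.node 2 9 (.cons 0x6542983710 .nil) (.node 0 2 (.cons 0x2098345671 .nil) (.node 0 7 (.cons 0x8907654321 .nil) .done .done) .done) .done) .done) .done)) .done)) .done) (.node 2 8 (.cons 0x3456712890 .nil) (.node 6 8 .nil (.node 5 8 .nil (.node 0 3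 (.cons 0x9821765430 (.cons 0x9034586712 (.cons 0x4309856712 .nil))) .done (.node 4 7 (.cons 0x9801237456 (.cons 0x5476890123 .nil)) (.node 0 4 (.cons 0x5678904321 (.cons 0x9867321045 .nil)) (.node 1 9 (.cons 0x8910456732 (.cons 0x5687432190 (.cons 0x7432190865 .nil))) .done .done) (.node 0 4 (.cons 0x5678904321 (.cons 0x9867321045 .nil)) (.node 4 9 (.cons 0x8945673210 (.cons 0x9401237865 (.cons 0x5498673210 .nil))) .done .done) .done)) .done)) (.node 5 8 .nil (.node 0 2 (.cons 0x2098345671 (.cons 0x6712098543 .nil)) (.node 3 9 (.cons 0x5678439021 (.cons 0x6587120934 (.cons 0x4586712093 (.cons 0x7658439021 .nil)))) .done (.node 4 9 (.cons 0x8945673210 (.cons 0x6589437120 (.cons 0x4985673201 .nil))) (.node 0 5 (.cons 0x6785094321 (.cons 0x6734985021 .nil)) (.node 0 6 (.cons 0x9806543712 (.cons 0x5876094321 (.cons 0x5894376021 .nil))) .done .done) .done) .done)) .done) .done)) (.node 2 7 (.cons 0x4567238901 .nil) (.node 6 8 .nil (.node 4 9 (.cons 0x8945673210 (.cons 0x7238654901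 (.cons 0x5498673210 (.cons 0x5490186723 .nil)))) .done (.node 5 8 .nil (.node 0 2 (.cons 0x2098345671 (.cons 0x6712098543 .nil)) (.node 2 6 (.cons 0x9083456271 .nil) .done .done) .done) .done)) (.node 0 2 (.cons 0x2098345671 .nil) (.node 0 7 (.cons 0x8907654321 .nil) (.node 0 4 (.cons 0x5678904321 .nil) (.node 5 8 (.cons 0x9854012376 .nil) (.node 6 8 (.cons 0x9867321045 .nil) .done .done) .done) .done) (.node 2 9 (.cons 0x3765489210 .nil) (.node 1 9 (.cons 0x5673489120 .nil) (.node 5 8 .nil (.node 0 4 (.cons 0x5678904321 (.cons 0x6587129043 (.cons 0x9854012376 (.cons 0x6589204371 .nil)))) .done (.node 6 8 .nil (.node 0 3 (.cons 0x9845673012 (.cons 0x5687129034 (.cons 0x5430986712 .nil))) .done .done) .done)) .done) .done) .done)) .done)) .done)) .done)) .done)) .done))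
noncomputable def tc9_0_70 : T := (.node 2 8 .nil (.node 0 4 (.cons 0x5678904321 (.cons 0x9821045673 (.cons 0x9823765401 .nil))) (.node 4 9 (.cons 0x8945673210 (.cons 0x3765498210 .nil)) (.node 0 7 (.cons 0x9812345670 (.cons 0x3456709821 (.cons 0x6549823701 .nil))) (.node 0 5 (.cons 0x6501237894 .nil) (.node 3 9 (.cons 0x6739845012 (.cons 0x6739821054 (.cons 0x9328104567 .nil))) (.node 5 9 (.cons 0x9567812340 (.cons 0x7659328104 (.cons 0x6739504821 .nil))) .done .done) (.node 1 9 (.cons 0x9187650432 (.cons 0x6732891054 (.cons 0x9182340567 (.cons 0x5678219043 .nil)))) .done .done)) .done) (.node 4 7 (.cons 0x9801237456 .nil) (.node 3 9 (.cons 0x6547398012 (.cons 0x6547398210 .nil)) (.node 0 3 (.cons 0x7654981032 (.cons 0x5674309821 .nil)) (.node 0 5 (.cons 0x9845012376 (.cons 0x6739821054 .nil)) .done .done) (.node 5 9 (.cons 0x9567812340 (.cons 0x8210473956 (.cons 0x3409567821 (.cons 0x6593740821 .nil)))) .done .done)) .done) .done)) .done) (.node 3 8 .nil (.node 0 4 (.cons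 0x5678904321 (.cons 0x9837654012 .nil)) (.node 1 5 (.cons 0x4321567890 (.cons 0x9043876512 .nil)) (.node 4 9 (.cons 0x8945673210 (.cons 0x2156783490 (.cons 0x4901567832 .nil))) (.node 4 7 (.cons 0x9087432156 (.cons 0x6510947832 .nil)) (.node 0 3 (.cons 0x9038215476 (.cons 0x9038215674 .nil)) (.node 0 6 (.cons 0x5601237894 (.cons 0x9473821560 (.cons 0x7389456012 .nil))) .done .done) .done) .done) (.node 6 9 (.cons 0x5489673210 (.cons 0x7834096512 (.cons 0x7832156904 .nil))) (.node 5 9 (.cons 0x9567812340 (.cons 0x5967384012 (.cons 0x4095678321 .nil))) (.node 0 5 (.cons 0x5012376984 .nil) (.node 2 4 (.cons 0x9567810423 (.cons 0x9567832401 (.cons 0x7389650124 .nil))) .done .done) .done) (.node 2 7 (.cons 0x9651872340 (.cons 0x5483276901 (.cons 0x9672381045 .nil))) .done .done)) .done)) (.node 1 7 (.cons 0x3289045671 (.cons 0x2176543890 .nil)) (.node 4 9 (.cons 0x8945673210 (.cons 0x3821765490 .nil)) (.node 0 7 (.cons 0x9812345670 (.cons 0x6549837012 .nil)) (.node 2 7 (.cons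 0x9810456723 .nil) .done .done) .done) (.node 2 7 (.cons 0x9810456723 .nil) (.node 0 7 (.cons 0x9812345670 .nil) (.node 4 7 (.cons 0x9801237456 .nil) .done .done) .done) .done)) .done)) (.node 2 7 (.cons 0x4567238901 .nil) (.node 1 7 (.cons 0x4567109832 .nil) (.node 5 8 (.cons 0x6712345890 .nil) (.node 6 8 (.cons 0x5432176890 .nil) .done .done) (.node 4 7 (.cons 0x9801237456 .nil) (.node 0 7 (.cons 0x9812345670 .nil) (.node 0 2 (.cons 0x2098345671 .nil) (.node 0 3 (.cons 0x8903456712 .nil) (.node 0 4 (.cons 0x5678904321 .nil) (.node 0 5 (.cons 0x9812345076 .nil) (.node 0 6 (.cons 0x9806543712 .nil) .done .done) .done) .done) .done) .done) .done) .done)) (.node 1 7 (.cons 0x4567109832 .nil) (.node 6 8 (.cons 0x9086543217 .nil) (.node 5 8 .nil (.node 0 3 (.cons 0x5430986721 (.cons 0x9034586721 (.cons 0x9034586712 .nil))) (.node 4 9 (.cons 0x8945673210 (.cons 0x6587123490 (.cons 0x4985673012 (.cons 0x4903285671 .nil)))) .done .done) .done) .done) (.node 0 7 (.cons 0x9812345670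 .nil) (.node 4 7 (.cons 0x9801237456 .nil) (.node 5 7 (.cons 0x6754890123 .nil) (.node 7 9 (.cons 0x9708123456 .nil) .done .done) .done) (.node 4 7 (.cons 0x9801237456 .nil) (.node 1 4 (.cons 0x3289076541 .nil) (.node 1 5 (.cons 0x4321567890 .nil) (.node 0 4 (.cons 0x5678904321 .nil) (.node 0 5 (.cons 0x9845012376 .nil) .done .done) .done) .done) .done) .done)) .done)) .done)) .done)) .done)) (.node 0 4 (.cons 0x5678904321 .nil) (.node 4 7 (.cons 0x9801237456 .nil) (.node 4 9 (.cons 0x8945673210 .nil) (.node 1 4 .nil (.node 0 5 (.cons 0x6501237894 (.cons 0x6501498732 .nil)) (.node 5 9 (.cons 0x9567812340 (.cons 0x8765904123 .nil)) (.node 0 2 (.cons 0x6745981023 (.cons 0x8954102376 (.cons 0x7659814320 .nil))) .done .done) .done) .done) (.node 1 7 (.cons 0x6549801732 .nil) (.node 2 7 (.cons 0x3276549810 .nil) (.node 7 9 (.cons 0x8097123456 .nil) (.node 0 7 (.cons 0x9812345670 .nil) (.node 5 7 .nil (.node 0 2 (.cons 0x3456798120 (.cons 0x6754981023 (.cons 0x9432081756 .nil)))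 .done .done) .done) .done) .done) (.node 0 7 (.cons 0x9812345670 .nil) (.node 0 5 .nil (.node 2 4 (.cons 0x9810765423 (.cons 0x3249876501 (.cons 0x6509871243 .nil))) .done (.node 0 6 (.cons 0x9806543712 .nil) (.node 0 2 (.cons 0x8945673201 .nil) (.node 0 3 (.cons 0x9845673012 .nil) .done .done) .done) .done)) .done) .done)) .done)) (.node 4 9 (.cons 0x8945673210 .nil) (.node 4 6 (.cons 0x5649873210 .nil) (.node 2 4 .nil (.node 3 5 (.cons 0x7894653210 (.cons 0x9012487653 (.cons 0x6532478901 (.cons 0x4235678901 .nil)))) .done (.node 1 4 .nil (.node 0 5 (.cons 0x7894650123 (.cons 0x6501498732 .nil)) (.node 0 6 (.cons 0x5601237894 (.cons 0x5601498732 .nil)) (.node 2 9 (.cons 0x3765489210 (.cons 0x8921437650 (.cons 0x5608923741 .nil))) .done .done) .done) .done) .done)) .done) (.node 0 7 (.cons 0x9812345670 .nil) (.node 0 2 .nil (.node 6 8 (.cons 0x5498673210 (.cons 0x5498673201 .nil)) (.node 0 5 (.cons 0x3768945021 .nil) (.node 5 8 (.cons 0x6709854321 .nil) .done .done) .done)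 (.node 0 3 (.cons 0x9845673012 .nil) (.node 0 5 (.cons 0x9843765021 .nil) (.node 0 6 .nil (.node 1 5 (.cons 0x9843765120 (.cons 0x8760943215 (.cons 0x2347890651 .nil))) .done .done) .done) .done) .done)) (.node 0 5 (.cons 0x8945012376 .nil) (.node 1 4 .nil (.node 2 4 (.cons 0x9876501423 (.cons 0x9873241056 .nil)) .done (.node 2 4 (.cons 0x9873241056 .nil) (.node 4 6 .nil (.node 3 5 (.cons 0x6789423501 (.cons 0x9467810532 (.cons 0x2356478901 .nil))) .done .done) .done) .done)) .done) .done)) .done)) .done)) (.node 4 9 (.cons 0x8945673210 .nil) (.node 6 8 (.cons 0x9867321045 .nil) (.node 5 8 (.cons 0x9854012376 .nil) (.node 2 8 .nil (.node 0 7 (.cons 0x9812345670 (.cons 0x9456823701 (.cons 0x3456709821 (.cons 0x6549823701 .nil)))) .done (.node 3 8 .nil (.node 5 9 (.cons 0x2376895401 (.cons 0x6738954012 .nil)) (.node 1 4 (.cons 0x6732895410 (.cons 0x4109567832 .nil)) .done .done) .done) .done)) .done) (.node 5 8 (.cons 0x9854012376 .nil) (.node 1 4 .nil (.node 0 2 (.cons 0x9410237856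 (.cons 0x7658902341 .nil)) (.node 1 9 (.cons 0x6732019854 (.cons 0x5673489120 (.cons 0x5402198673 .nil))) .done .done) (.node 4 7 (.cons 0x9801237456 .nil) (.node 4 6 (.cons 0x5649873210 .nil) (.node 2 4 .nil (.node 1 5 (.cons 0x9867321540 (.cons 0x6510987423 (.cons 0x3421567890 .nil))) .done .done) .done) .done) .done)) .done) .done)) (.node 4 7 (.cons 0x9801237456 .nil) (.node 1 4 .nil (.node 0 2 (.cons 0x8945673201 (.cons 0x8941023765 .nil)) (.node 5 9 (.cons 0x1876594320 (.cons 0x8732014956 (.cons 0x8765902143 (.cons 0x6590874123 .nil)))) .done .done) (.node 2 4 .nil (.node 0 3 (.cons 0x9845673012 (.cons 0x9423018765 (.cons 0x9842103765 (.cons 0x9810324567 .nil)))) .done (.node 4 6 .nil (.node 1 5 (.cons 0x3249876510 (.cons 0x9465108732 .nil)) (.node 3 5 (.cons 0x6789043512 (.cons 0x7890123564 (.cons 0x7890146532 .nil))) (.node 2 8 (.cons 0x9043512876 (.cons 0x5328764901 (.cons 0x9046782153 .nil))) .done .done) .done) .done) .done)) .done)) .done) .done)) (.node 4 7 (.cons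 0x9801237456 .nil) (.node 4 9 (.cons 0x8945673210 .nil) (.node 4 6 (.cons 0x5649873210 .nil) (.node 2 4 .nil (.node 0 5 (.cons 0x7894650123 (.cons 0x6501249873 .nil)) (.node 1 5 (.cons 0x4321567890 (.cons 0x9873240156 (.cons 0x3421567890 .nil))) .done .done) (.node 2 7 (.cons 0x9810456723 .nil) (.node 2 8 (.cons 0x9823765401 .nil) .done .done) .done)) .done) (.node 0 5 (.cons 0x8945012376 .nil) (.node 1 5 (.cons 0x4321567890 .nil) (.node 1 4 .nil (.node 2 7 (.cons 0x9810456723 (.cons 0x6514098723 .nil)) (.node 3 5 (.cons 0x6721098453 (.cons 0x4109876532 .nil)) .done .done) .done) (.node 1 7 .nil (.node 2 9 (.cons 0x3765489210 (.cons 0x6509217843 (.cons 0x5671892340 (.cons 0x3298176540 .nil)))) .done (.node 2 7 (.cons 0x9810456723 .nil) (.node 2 8 (.cons 0x9823765401 .nil) (.node 3 8 (.cons 0x6783490512 .nil) (.node 5 8 (.cons 0x6712345890 .nil) (.node 6 8 (.cons 0x5498673210 .nil) .done .done) .done) .done) .done) .done)) .done)) (.node 0 7 (.cons 0x9812345670 .nil) (.node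 2 7 (.cons 0x9810456723 .nil) (.node 2 8 (.cons 0x9823765401 .nil) (.node 3 8 (.cons 0x6738945012 .nil) (.node 5 8 (.cons 0x6709854321 .nil) (.node 6 8 (.cons 0x5498673210 .nil) .done .done) .done) .done) .done) .done) .done)) .done)) (.node 4 9 (.cons 0x8945673210 .nil) (.node 0 7 (.cons 0x9812345670 .nil) (.node 2 7 (.cons 0x9810456723 .nil) (.node 0 5 (.cons 0x6501237894 .nil) (.node 0 6 (.cons 0x5601237894 .nil) (.node 5 7 (.cons 0x3275604981 .nil) (.node 0 2 (.cons 0x7560234981 .nil) (.node 0 3 (.cons 0x3098456721 .nil) .done .done) .done) .done) .done) .done) (.node 0 5 (.cons 0x6501237894 .nil) (.node 0 6 (.cons 0x5601237894 .nil) (.node 0 2 (.cons 0x9812076543 .nil) (.node 0 3 (.cons 0x9845673012 .nil) .done .done) .done) .done) .done)) .done) .done)) .done))) (.node 3 8 .nil (.node 1 7 (.cons 0x9017654832 (.cons 0x2176543890 .nil)) (.node 0 4 (.cons 0x5678904321 (.cons 0x9837654012 .nil)) (.node 5 9 (.cons 0x9567812340 (.cons 0x8712340956 (.cons 0x4095678321 .nil)))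 (.node 2 8 (.cons 0x9540128376 .nil) (.node 5 8 (.cons 0x9043217856 .nil) .done .done) (.node 0 2 (.cons 0x9845673201 (.cons 0x6718954320 .nil)) (.node 4 7 (.cons 0x5674389021 .nil) (.node 6 9 (.cons 0x7321089654 (.cons 0x5967401832 (.cons 0x2173456980 (.cons 0x5967402381 .nil)))) .done .done) .done) .done)) (.node 6 8 (.cons 0x5409867123 .nil) (.node 5 8 (.cons 0x9854012376 .nil) (.node 1 6 (.cons 0x9045832167 .nil) (.node 4 7 (.cons 0x9047612385 .nil) (.node 0 2 (.cons 0x9845673201 (.cons 0x5674389021 .nil)) (.node 3 9 (.cons 0x5687120934 (.cons 0x6745839021 (.cons 0x4765839021 (.cons 0x9320458176 .nil)))) .done .done) .done) .done) .done) .done) .done)) (.node 0 4 (.cons 0x5678904321 (.cons 0x9837654012 .nil)) (.node 5 8 (.cons 0x9045832176 .nil) (.node 0 5 (.cons 0x8905432176 .nil) (.node 0 6 (.cons 0x3458906712 (.cons 0x5438906712 .nil)) (.node 2 6 (.cons 0x9817623450 (.cons 0x9832671054 (.cons 0x9017623845 (.cons 0x4509832671 .nil)))) .done .done) .done) .done) (.node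 0 2 (.cons 0x9845673201 .nil) (.node 4 9 (.cons 0x8945673210 (.cons 0x5678349021 .nil)) (.node 0 7 (.cons 0x9812345670 (.cons 0x6549837012 .nil)) (.node 2 4 (.cons 0x9810765423 (.cons 0x9832456701 .nil)) .done .done) .done) (.node 4 7 (.cons 0x9801237456 (.cons 0x5674389021 .nil)) (.node 2 7 (.cons 0x3276548901 .nil) (.node 2 6 (.cons 0x5489017623 (.cons 0x9017623845 .nil)) (.node 6 9 (.cons 0x5690874321 (.cons 0x3809654721 (.cons 0x9623801745 (.cons 0x7456908321 .nil)))) (.node 7 9 (.cons 0x5697432180 (.cons 0x9745621083 (.cons 0x9745623801 .nil))) .done .done) .done) .done) .done) .done)) .done)) .done)) (.node 2 8 .nil (.node 1 7 (.cons 0x9017654823 (.cons 0x3456712890 .nil)) (.node 0 4 (.cons 0x5678904321 (.cons 0x9821045673 .nil)) (.node 5 8 (.cons 0x9045832176 .nil) (.node 6 9 (.cons 0x9673854012 (.cons 0x9658043712 (.cons 0x2173456980 (.cons 0x4569801732 (.cons 0x3854096712 .nil))))) .done .done) (.node 4 9 (.cons 0x8945673210 (.cons 0x3765498210 .nil)) (.node 0 7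 (.cons 0x3456709821 (.cons 0x6549823701 .nil)) (.node 6 8 (.cons 0x9456821073 (.cons 0x8654907123 .nil)) .done .done) .done) .done)) (.node 1 3 (.cons 0x7654890132 (.cons 0x9013284567 .nil)) (.node 3 5 (.cons 0x6710984532 (.cons 0x6710982354 .nil)) (.node 1 5 (.cons 0x4321567890 .nil) (.node 0 3 (.cons 0x4309876512 (.cons 0x7651289034 (.cons 0x6715430982 .nil))) .done .done) .done) (.node 4 7 (.cons 0x5674890132 (.cons 0x9013284765 (.cons 0x5674312890 .nil))) .done .done)) .done)) (.node 2 7 (.cons 0x3276548901 .nil) (.node 4 7 (.cons 0x9801237456 .nil) (.node 5 8 (.cons 0x6745890123 .nil) (.node 6 8 (.cons 0x5476890123 .nil) .done .done) (.node 1 7 .nil (.node 6 9 (.cons 0x5483276901 (.cons 0x5690843271 (.cons 0x2173456980 (.cons 0x9654327180 .nil)))) (.node 0 4 (.cons 0x5678904321 (.cons 0x8321769045 .nil)) (.node 0 7 (.cons 0x9812345670 .nil) (.node 2 4 (.cons 0x9810765423 (.cons 0x3245698071 (.cons 0x3245698170 .nil))) .done .done) .done) .done) (.node 5 8 (.cons 0x6712345890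 .nil) (.node 6 8 (.cons 0x5432176890 .nil) .done .done) .done)) .done)) (.node 4 7 (.cons 0x9801237456 .nil) (.node 5 8 (.cons 0x9012385476 .nil) (.node 6 8 (.cons 0x9012386745 .nil) .done .done) (.node 1 7 .nil (.node 2 9 (.cons 0x6548923710 .nil) (.node 1 6 (.cons 0x5612908743 (.cons 0x7345612980 .nil)) (.node 3 5 (.cons 0x6723548901 (.cons 0x4876532901 (.cons 0x2984735610 (.cons 0x4735610892 .nil)))) .done .done) (.node 0 5 (.cons 0x4892376501 (.cons 0x9234817650 (.cons 0x6508921734 (.cons 0x4329817650 .nil)))) .done .done)) (.node 0 7 (.cons 0x9812345670 .nil) (.node 6 8 (.cons 0x9086543217 .nil) (.node 5 8 .nil (.node 0 2 (.cons 0x9845673201 (.cons 0x3476589021 .nil)) (.node 0 4 (.cons 0x5678904321 (.cons 0x9854012376 .nil)) .done .done) .done) .done) .done) .done)) .done)) .done)) .done)) .done)) .done)))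
noncomputable def uc9_0_12 : T := (.node 4 8 (.cons 0x9845673210 .nil) tc9_0_70 (.node 3 8 .nil tc9_0_69 (.node 1 7 .nil tc9_0_68 .done)))
theorem sub_c9_0_12 : root 9 refs9_0 [] 0x700000008704000000604060080000060500000000504000000004010000080010300000000302000000002018600000010 0xfe7fff2ffeafff9fffcfffedfef5fff3fff9febd 9 1 8 (.cons 0x7654321890 .nil) uc9_0_12 = true := by decide +kernel
def kn_c9_0 : List (Nat × Nat × Nat) := [(0x700000008704000000004060020030060500000000504000000004010000020010300000000302000000002018030000010, 0xfe7fff6fffa3ff9fffcfffedfff1fff3fff9fef5, 9), (0x700000008704000000004060020050060500000000504000000004010000020010300000000302000000002018050000010, 0xfe7fff6fff8bff9fffcfffedfff1fff3fff9fedd, 9), (0x700000008704000000004060020070060500000000504000000004010000020010300000000302000000002018070000010, 0xfe7fff6fff2bff9fffcfffedfff1fff3fff9fe7d, 9), (0x700000008704000000004060050020060500000000504000000004010000050010300000000302000000002018020000010,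 0xfe7fff6fff8bff9fffcfffedffd5fff3fff9fef9, 9), (0x700000008704000000004060050030060500000000504000000004010000050010300000000302000000002018030000010, 0xfe7fff6fff87ff9fffcfffedffd5fff3fff9fef5, 9), (0x700000008704000000004060050070060500000000504000000004010000050010300000000302000000002018070000010, 0xfe7fff6fff0fff9fffcfffedffd5fff3fff9fe7d, 9), (0x700000008704000000004060070020060500000000504000000004010000070010300000000302000000002018020000010, 0xfe7fff6fff2bff9fffcfffedff75fff3fff9fef9, 9), (0x700000008704000000004060070030060500000000504000000004010000070010300000000302000000002018030000010, 0xfe7fff6fff27ff9fffcfffedff75fff3fff9fef5, 9), (0x700000008704000000004060070050060500000000504000000004010000070010300000000302000000002018050000010, 0xfe7fff6fff0fff9fffcfffedff75fff3fff9fedd, 9), (0x700000008704000000204060080000060500000000504000000004010000080010300000000302000000002018200000010, 0xfe7fff6bfeafff9fffcfffedfef5fff3fff9fef9, 9), (0x700000008704000000304060080000060500000000504000000004010000080010300000000302000000002018300000010,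 0xfe7fff67feafff9fffcfffedfef5fff3fff9fef5, 9), (0x700000008704000000504060080000060500000000504000000004010000080010300000000302000000002018500000010, 0xfe7fff4ffeafff9fffcfffedfef5fff3fff9fedd, 9), (0x700000008704000000604060080000060500000000504000000004010000080010300000000302000000002018600000010, 0xfe7fff2ffeafff9fffcfffedfef5fff3fff9febd, 9)]
noncomputable def rc9_0 : T := (.node 0 8 (.cons 0x9801237654 .nil) (.cut 12 (.cut 11 (.cut 10 (.cut 9 .done)))) (.node 0 7 (.cons 0x8907654321 .nil) (.cut 8 (.cut 7 (.cut 6 .done))) (.node 0 7 (.cons 0x8907654321 .nil) (.cut 5 (.cut 4 (.cut 3 .done))) (.node 0 7 (.cons 0x8907654321 .nil) (.cut 2 (.cut 1 (.cut 0 .done))) .done))))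
theorem ok_c9_0 : root 9 refs9_0 kn_c9_0 0x700000008704000000004060000000060500000000504000000004010000000010300000000302000000002018000000010 0xfe7fff6fffafff9fffcfffedfff5fff3fff9fefd 9 3 7 (.cons 0x8901237654 .nil) rc9_0 = true := by decide +kernel

end Pool.Agent.Hhelper35.Rainbow
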