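import Pool.Agent.Hhelper35.Rainbow.Pats

set_option autoImplicit false
set_option maxRecDepth 1000000

namespace Pool.Agent.Hhelper35.Rainbow

open T W

noncomputable def tc9_1_0 : T := (.node 1 7 (.cons 0x6543217890 (.cons 0x9065432871 .nil)) (.node 2 7 (.cons 0x9827106543 .nil) (.node 3 9 (.cons 0x9345687210 (.cons 0x7106543982 .nil)) (.node 1 5 (.cons 0x9345106872 (.cons 0x2871543960 (.cons 0x8271543960 .nil))) (.node 0 4 (.cons 0x3968721540 (.cons 0x3960451782 (.cons 0x8271540693 .nil))) (.node 3 6 (.cons 0x5409876321 (.cons 0x7821540963 (.cons 0x9823604517 .nil))) .done .done) .done) (.node 4 6 (.cons 0x8721093465 (.cons 0x7821093465 .nil)) (.node 0 3 (.cons 0x2178965430 (.cons 0x7128965430 .nil)) (.node 1 9 (.cons 0x8723456091 (.cons 0x7198234560 (.cons 0x5430691782 (.cons 0x9178230654 .nil)))) .done (.node 1 5 (.cons 0x9687215430 (.cons 0x9603451782 (.cons 0x7154306982 (.cons 0x9823064517 .nil)))) .done .done)) .done) (.leaf 0x8765439012 0 .done))) (.node 3 7 (.cons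 0x6543789012 (.cons 0x1287345690 .nil)) (.node 0 7 (.cons 0x3456907821 .nil) (.node 1 5 (.cons 0x6098723451 (.cons 0x4378215690 (.cons 0x3451728960 .nil))) (.node 4 6 (.cons 0x4651237890 (.cons 0x9012873465 (.cons 0x8907321564 .nil))) .done .done) .done) (.node 1 6 (.cons 0x5432789061 (.cons 0x9016543782 (.cons 0x7345610982 .nil))) .done .done)) .done)) (.node 1 6 (.cons 0x9061782345 (.cons 0x7160982345 .nil)) (.node 1 5 (.cons 0x4517609823 .nil) (.node 1 4 (.cons 0x5417609823 .nil) (.node 0 3 (.cons 0x4567890321 (.cons 0x9603451782 (.cons 0x7154306982 (.cons 0x5412876903 (.cons 0x7821430965 .nil))))) .done .done) (.leaf 0x987154326 0 (.node 4 6 (.cons 0x9064517823 (.cons 0x7154609823 .nil)) .done .done))) .done) (.node 0 7 (.cons 0x3456907821 .nil) (.node 4 6 (.cons 0x5643217890 (.cons 0x8907123465 .nil)) (.node 3 9 (.cons 0x5467821093 (.cons 0x7821093465 (.cons 0x5643901782 .nil))) (.node 0 5 (.cons 0x9865071234 (.cons 0x8712390564 .nil)) (.node 2 7 (.cons 0x6543987210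 (.cons 0x9345687210 (.cons 0x1278693450 .nil))) .done .done) (.node 1 4 (.cons 0x3214567890 (.cons 0x8932145670 (.cons 0x8907654123 (.cons 0x5412398670 .nil)))) .done .done)) .done) (.node 3 6 (.cons 0x5436907821 .nil) (.node 2 5 (.cons 0x1254369870 (.cons 0x8709634521 (.cons 0x9863452107 .nil))) (.node 1 3 (.cons 0x4521369870 (.cons 0x7821345690 .nil)) (.leaf 0x4569078213 0 (.node 1 4 (.cons 0x3214567890 (.cons 0x9870632541 (.cons 0x9067823145 (.cons 0x8907632145 .nil)))) .done .done)) .done) (.node 5 7 (.cons 0x9863457012 (.cons 0x1289634570 (.cons 0x4365710982 (.cons 0x4365712890 .nil)))) (.node 3 9 (.cons 0x8756210934 (.cons 0x8210936754 (.cons 0x6578210934 .nil))) (.leaf 0x8765439012 0 .done) .done) .done)) .done)) .done))) (.node 3 8 .nil (.node 2 7 (.cons 0x1278345690 .nil) (.node 2 4 (.cons 0x9012456783 (.cons 0x7654210983 .nil)) (.node 1 4 (.cons 0x3214567890 (.cons 0x7654123890 .nil)) (.node 2 9 (.cons 0x7832906541 .nil) (.node 0 2 (.cons 0x7834569021 .nil)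 (.node 0 8 (.cons 0x5690872143 .nil) .done .done) .done) (.node 3 5 (.cons 0x9872601435 (.cons 0x2145387690 (.cons 0x8906723541 (.cons 0x4356278901 .nil)))) .done .done)) .done) (.leaf 0x8901276543 0 .done)) (.node 1 8 .nil (.node 0 3 (.cons 0x4567890321 (.cons 0x9032187654 .nil)) (.node 2 7 (.cons 0x9865430127 (.cons 0x7218965430 (.cons 0x9065432781 .nil))) .done (.node 0 7 (.cons 0x3456907812 .nil) (.leaf 0x2189076543 0 (.node 4 6 (.cons 0x5467890321 (.cons 0x9032187645 (.cons 0x7098123465 .nil))) .done .done)) .done)) (.node 0 8 .nil (.node 2 7 (.cons 0x3456908721 .nil) (.node 4 6 (.cons 0x9012783465 (.cons 0x7210983465 .nil)) (.node 0 3 (.cons 0x9865430127 (.cons 0x5467890321 .nil)) (.node 1 7 (.cons 0x9654308712 (.cons 0x3456908712 (.cons 0x5643217890 .nil))) (.node 0 5 (.cons 0x9860543271 (.cons 0x6450987123 .nil)) .done .done) .done) .done) (.node 1 9 (.cons 0x1987234560 (.cons 0x7234560891 .nil)) (.node 1 6 (.cons 0x5432789160 (.cons 0x9160872345 .nil)) (.node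 3 6 (.cons 0x5436019872 (.cons 0x5436912780 .nil)) .done .done) (.node 1 7 (.cons 0x6543217890 (.cons 0x3456908712 .nil)) (.node 1 4 (.cons 0x3214567890 (.cons 0x9087654123 (.cons 0x7234198065 .nil))) (.node 0 3 (.cons 0x9654308721 (.cons 0x9803214567 .nil)) (.node 1 5 (.cons 0x6987215430 (.cons 0x9156087234 (.cons 0x4512769803 .nil))) .done .done) .done) .done) .done)) .done)) .done) .done)) (.node 4 8 .nil (.node 3 5 (.cons 0x7890126534 (.cons 0x9012653487 .nil)) (.node 0 7 (.cons 0x9870126534 .nil) (.node 1 9 (.cons 0x9123456870 (.cons 0x3548219670 (.cons 0x2196534870 (.cons 0x6548709123 .nil)))) (.node 0 2 (.cons 0x4532067891 (.cons 0x7602354891 (.cons 0x6912078453 .nil))) .done .done) (.node 1 5 (.cons 0x4351269870 (.cons 0x9621534870 (.cons 0x6709845123 .nil))) (.node 0 3 (.cons 0x4567890321 (.cons 0x9621530784 (.cons 0x7654890321 .nil))) (.node 3 7 (.cons 0x6543789012 (.cons 0x4873096512 .nil)) .done .done) .done) (.node 1 6 (.cons 0x9078432165 (.cons 0x7098432165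 .nil)) (.node 0 4 (.cons 0x9612870435 (.cons 0x9840765321 (.cons 0x9876123540 .nil))) .done .done) .done))) (.node 3 6 (.cons 0x9012845367 .nil) (.node 0 7 (.cons 0x5436907821 (.cons 0x6709845321 (.cons 0x4890765321 .nil))) (.node 1 4 (.cons 0x3541289670 (.cons 0x2389076541 (.cons 0x5412367890 .nil))) (.node 1 9 (.cons 0x2387654190 (.cons 0x4532198670 (.cons 0x7609148235 (.cons 0x6541907832 .nil)))) (.leaf 0x2354190768 0 .done) .done) .done) .done) .done)) (.node 5 8 .nil (.node 3 7 (.cons 0x6543789012 (.cons 0x9012658734 .nil)) (.node 0 4 (.cons 0x9873401265 (.cons 0x9856210437 .nil)) (.node 1 7 (.cons 0x6543217890 (.cons 0x5871269043 (.cons 0x3409658712 .nil))) (.node 0 3 (.cons 0x4567890321 (.cons 0x9673045821 (.cons 0x6903458712 (.cons 0x4309658712 .nil)))) .done .done) (.node 3 5 (.cons 0x7853409621 (.cons 0x9853762104 .nil)) .done .done)) (.node 4 6 (.cons 0x9012643785 (.cons 0x1237645890 .nil)) (.node 0 5 (.cons 0x4378509621 (.cons 0x8905467321 (.cons 0x6450987321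 .nil))) .done .done) (.node 4 6 (.cons 0x5643789012 (.cons 0x7346589012 .nil)) (.node 3 9 (.cons 0x5467821093 (.cons 0x7645821093 .nil)) (.node 0 3 (.cons 0x4567890321 .nil) (.node 1 4 (.cons 0x3214567890 (.cons 0x2145876930 (.cons 0x4123765890 (.cons 0x3096785412 .nil)))) .done (.node 2 4 (.cons 0x5673098421 (.cons 0x9856730124 (.cons 0x4210985673 .nil))) .done .done)) .done) .done) .done))) (.node 1 8 .nil (.node 0 4 (.cons 0x9045678123 (.cons 0x7654098123 .nil)) (.node 3 7 (.cons 0x6543789012 (.cons 0x9873401265 (.cons 0x2187345690 .nil))) (.node 0 5 (.cons 0x6905437812 (.cons 0x6732189054 .nil)) .done (.leaf 0x2189045673 0 .done)) (.node 3 6 (.cons 0x5409876321 (.cons 0x7632189045 .nil)) (.node 2 7 (.cons 0x3690458721 (.cons 0x9065432781 .nil)) (.node 0 3 (.cons 0x1278965430 (.cons 0x7218965430 .nil)) (.node 0 7 (.cons 0x5436907821 (.cons 0x3456907812 .nil)) .done .done) .done) .done) .done)) (.node 0 8 .nil (.node 1 7 (.cons 0x6543217890 (.cons 0x3456908712 .nil))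 (.node 2 7 (.cons 0x3456908721 .nil) (.node 0 5 (.cons 0x3450698271 .nil) (.node 1 3 (.cons 0x9605431782 (.cons 0x8721345690 (.cons 0x5431728960 (.cons 0x9687213450 .nil)))) .done .done) .done) (.node 3 6 (.cons 0x5436908712 .nil) (.node 0 2 (.cons 0x4587120963 (.cons 0x5489021763 .nil)) (.node 3 5 (.cons 0x4536987120 (.cons 0x9012876354 (.cons 0x2176354890 .nil))) .done .done) (.node 4 6 (.cons 0x7123645890 (.cons 0x9085463217 .nil)) .done .done)) .done)) .done) .done)) .done)) .done)) .done))) (.node 1 8 .nil (.node 0 4 (.cons 0x9045678123 (.cons 0x7654098123 .nil)) (.node 3 7 (.cons 0x6543789012 (.cons 0x9873401265 (.cons 0x2187345690 .nil))) (.node 0 5 (.cons 0x6905437812 (.cons 0x6732189054 .nil)) (.node 1 5 (.cons 0x5126987340 (.cons 0x6904512873 (.cons 0x9867321540 .nil))) .done .done) (.leaf 0x2189045673 0 (.node 0 2 (.cons 0x2096543781 (.cons 0x4567320981 .nil)) (.leaf 0x4569021873 0 .done) .done))) (.node 0 7 (.cons 0x3456907812 .nil) (.leaf 0x2189076543 0 (.node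 0 3 (.cons 0x4567890321 (.cons 0x9032187654 .nil)) (.node 0 8 .nil (.node 4 9 (.cons 0x7654981230 (.cons 0x7654980321 (.cons 0x7654908123 .nil))) (.leaf 0x3218945670 0 .done) .done) .done) .done)) .done)) (.node 0 8 .nil (.node 1 7 (.cons 0x6543217890 (.cons 0x3456908712 .nil)) (.node 1 4 (.cons 0x3214567890 (.cons 0x9087654123 .nil)) (.node 2 7 (.cons 0x5418906723 (.cons 0x3456908721 .nil)) (.node 7 9 (.cons 0x3289714560 (.cons 0x5608971432 (.cons 0x5623417980 .nil))) .done .done) .done) (.node 4 6 (.cons 0x5643217890 (.cons 0x9087123465 .nil)) (.node 1 4 (.cons 0x3214567890 (.cons 0x9087654123 .nil)) (.node 2 9 (.cons 0x7143298065 .nil) (.node 0 7 (.cons 0x9210786543 .nil) (.node 3 5 (.cons 0x5341269870 (.cons 0x9807645321 (.cons 0x9235418760 (.cons 0x7089621435 (.cons 0x7892653410 .nil))))) .done .done) (.node 1 3 (.cons 0x5413298760 (.cons 0x7809654312 (.cons 0x7608923145 .nil))) .done .done)) .done) .done) .done)) (.node 3 8 .nil (.node 2 7 (.cons 0x1278345690 .nil)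 (.node 1 4 (.cons 0x3214567890 (.cons 0x5690872143 (.cons 0x7654123890 .nil))) (.node 3 9 (.cons 0x5418932760 (.cons 0x5601439872 (.cons 0x5627893410 .nil))) (.node 0 3 (.cons 0x7214308965 .nil) (.node 0 5 (.cons 0x6789321450 (.cons 0x8932760541 (.cons 0x4503968721 .nil))) .done .done) .done) .done) (.leaf 0x8901276543 0 (.node 1 6 (.cons 0x5432789061 (.cons 0x5438721690 .nil)) (.node 0 4 (.cons 0x9045678321 (.cons 0x7654098321 (.cons 0x7612389045 .nil))) (.node 3 5 (.cons 0x7216980435 (.cons 0x3540967812 (.cons 0x9867210453 (.cons 0x8904532761 .nil)))) .done .done) .done) .done))) (.node 4 8 .nil (.node 3 5 (.cons 0x7890126534 (.cons 0x9012653487 .nil)) (.node 0 7 (.cons 0x9870126534 .nil) (.node 1 9 (.cons 0x9123456870 (.cons 0x2384567091 (.cons 0x2196534870 (.cons 0x6548709123 .nil)))) .done (.node 0 3 (.cons 0x4567890321 (.cons 0x7654890321 .nil)) (.node 0 2 (.cons 0x9678120354 (.cons 0x3548967021 .nil)) .done .done) .done)) (.node 0 7 (.cons 0x6709812354 (.cons 0x7096218435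 (.cons 0x6709845321 .nil))) .done .done)) (.node 5 8 .nil (.node 1 7 (.cons 0x6543217890 .nil) (.node 1 4 (.cons 0x3214567890 .nil) (.node 3 7 (.cons 0x3782145690 (.cons 0x9012658734 (.cons 0x5873412690 (.cons 0x2143785690 .nil)))) .done (.node 2 7 (.cons 0x1456723890 (.cons 0x9014385627 (.cons 0x3276098541 .nil))) .done .done)) (.node 2 9 (.cons 0x6543871092 (.cons 0x4581760923 (.cons 0x6092345871 .nil))) .done (.node 4 6 (.cons 0x5643217890 (.cons 0x7123465890 .nil)) (.node 0 3 (.cons 0x4567890321 (.cons 0x4309658712 (.cons 0x9032185467 .nil))) (.node 3 9 (.cons 0x5467812390 (.cons 0x7645812390 (.cons 0x7856439012 .nil))) .done .done) .done) .done))) .done) .done)) .done)) .done)) (.node 0 8 .nil (.node 1 7 (.cons 0x6543217890 (.cons 0x3456908712 .nil)) (.node 2 9 (.cons 0x1789234560 .nil) (.node 2 7 (.cons 0x8927106543 (.cons 0x3456908721 .nil)) (.node 0 7 (.cons 0x8071296543 .nil) (.node 3 7 (.cons 0x7345689210 (.cons 0x9210865437 (.cons 0x6543710892 .nil))) .done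 .done) .done) (.node 2 7 (.cons 0x3456908721 .nil) (.node 3 6 (.cons 0x5436017892 (.cons 0x5436921780 (.cons 0x8927106345 .nil))) .done .done) .done)) (.node 1 4 (.cons 0x3214567890 (.cons 0x9087654123 .nil)) (.node 2 5 (.cons 0x6908712543 (.cons 0x9806714523 .nil)) (.node 0 3 (.cons 0x9687125430 (.cons 0x7145289603 (.cons 0x9876032541 (.cons 0x7896521430 .nil)))) .done (.node 1 3 (.cons 0x2543178960 (.cons 0x7809654312 (.cons 0x9806713254 .nil))) .done .done)) (.node 2 5 (.cons 0x8906714523 (.cons 0x9806714523 (.cons 0x6908712543 .nil))) (.node 1 3 (.cons 0x8906713254 (.cons 0x9806713254 (.cons 0x7809654312 .nil))) .done .done) .done)) .done)) (.node 3 8 .nil (.node 0 4 (.cons 0x9045678321 (.cons 0x7654098321 .nil)) (.node 0 2 (.cons 0x7834569021 .nil) (.node 1 7 (.cons 0x6543217890 (.cons 0x2178345690 .nil)) (.leaf 0x8902176543 0 (.node 0 5 (.cons 0x6905438712 .nil) (.node 1 5 (.cons 0x6098715432 (.cons 0x7154389602 (.cons 0x4517609832 .nil))) (.leaf 0x987154326 0 .done)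 .done) .done)) .done) .done) (.node 4 8 .nil (.node 0 3 (.cons 0x4567890321 (.cons 0x7654890321 .nil)) (.node 2 9 (.cons 0x9210345687 .nil) (.node 0 7 (.cons 0x7012986543 .nil) (.node 3 5 (.cons 0x7890126534 (.cons 0x4892107653 (.cons 0x4890765321 .nil))) .done .done) (.node 3 5 (.cons 0x7890126534 (.cons 0x1296784530 (.cons 0x9210354867 .nil))) .done .done)) (.node 3 5 (.cons 0x7890126534 (.cons 0x9012653487 .nil)) (.node 0 7 (.cons 0x9870126534 .nil) (.node 0 2 (.cons 0x9653481207 .nil) (.node 1 3 (.cons 0x8709654312 (.cons 0x9678021354 (.cons 0x9670845312 (.cons 0x9687021345 .nil)))) .done .done) .done) (.node 0 4 (.cons 0x9048123567 .nil) (.node 1 7 (.cons 0x6543217890 (.cons 0x9840321765 (.cons 0x3548096712 (.cons 0x6712354890 .nil)))) .done .done) .done)) .done)) (.node 5 8 .nil (.node 1 7 (.cons 0x6543217890 .nil) (.node 2 9 (.cons 0x1789234560 .nil) (.node 0 7 (.cons 0x8923456071 (.cons 0x6921708543 (.cons 0x4329856071 .nil))) .done (.node 1 6 (.cons 0x5432987160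 (.cons 0x9234587160 .nil)) (.node 2 7 (.cons 0x9806172345 (.cons 0x7216908543 .nil)) .done .done) .done)) (.node 2 9 (.cons 0x6543871092 (.cons 0x7185609234 (.cons 0x6092345871 .nil))) .done (.node 1 6 (.cons 0x9061785432 (.cons 0x7160985432 .nil)) (.node 3 6 (.cons 0x2178543690 .nil) (.node 5 7 (.cons 0x3457809612 (.cons 0x4571632890 (.cons 0x4362175890 .nil))) (.leaf 0x4321690875 0 .done) .done) .done) .done))) .done) .done)) .done)) .done)) .done))) .done)))
noncomputable def tc9_1_1 : T := (.node 2 7 (.cons 0x5432789061 .nil) (.node 6 8 (.cons 0x9012786543 .nil) (.node 3 6 .nil (.node 0 4 (.cons 0x5409876123 (.cons 0x5409876321 .nil)) (.node 1 9 (.cons 0x8765409123 (.cons 0x8763219045 (.cons 0x8721904365 (.cons 0x8723654091 .nil)))) .done (.node 1 8 (.cons 0x7654098123 (.cons 0x7632189045 (.cons 0x7218904365 (.cons 0x7236540981 .nil)))) .done .done)) (.node 0 3 (.cons 0x4567890321 (.cons 0x9865430127 .nil)) (.node 3 5 (.cons 0x7890126534 (.cons 0x8967210354 (.cons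 0x9867210354 (.cons 0x4356278901 .nil)))) .done (.node 4 6 (.cons 0x5643098721 .nil) .done .done)) .done)) (.node 1 9 (.cons 0x1987234560 .nil) (.node 3 6 (.cons 0x5436019872 (.cons 0x5436872190 .nil)) .done (.node 3 5 (.cons 0x7890126534 (.cons 0x4356019872 (.cons 0x4356872190 (.cons 0x4356278901 .nil)))) (.node 0 7 (.cons 0x8907612354 (.cons 0x4356890721 .nil)) (.node 1 8 (.cons 0x4532760981 .nil) (.node 1 7 (.cons 0x5432718960 .nil) .done (.leaf 0x5690781234 0 .done)) .done) .done) (.node 2 9 .nil (.node 0 7 (.cons 0x3456890721 (.cons 0x3456870921 (.cons 0x5432987061 .nil))) (.node 1 7 (.cons 0x5432987160 (.cons 0x6543217890 (.cons 0x3456871290 .nil))) .done .done) (.node 1 5 (.cons 0x7892345160 .nil) (.node 0 3 (.cons 0x4567890321 (.cons 0x9034568721 (.cons 0x9034512786 .nil))) (.leaf 0x2786034519 0 (.node 4 8 (.cons 0x3290678451 (.cons 0x9156032784 (.cons 0x6091548723 (.cons 0x9015627843 .nil)))) .done .done)) (.node 3 7 (.cons 0x8965437210 (.cons 0x5437861290 (.cons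 0x4372156890 (.cons 0x8901562734 .nil)))) (.leaf 0x2734568901 0 .done) .done)) .done)) .done))) .done)) (.node 3 9 (.cons 0x6543987210 (.cons 0x2789345610 .nil)) (.node 0 4 (.cons 0x8761239045 (.cons 0x5409876123 .nil)) (.node 1 9 (.cons 0x5604327891 .nil) (.node 1 5 (.cons 0x6789321540 (.cons 0x8723915406 (.cons 0x8932760451 .nil))) .done .done) (.node 5 8 (.cons 0x6721045893 (.cons 0x7612398540 (.cons 0x7239854061 (.cons 0x1672398540 .nil)))) (.node 0 7 (.cons 0x8543961270 (.cons 0x3458961270 (.cons 0x9856127043 .nil))) (.leaf 0x4398561270 0 .done) .done) .done)) (.node 1 9 (.cons 0x5432789160 .nil) (.node 0 3 (.cons 0x4567890321 .nil) (.node 0 4 (.cons 0x5409876123 .nil) (.node 3 5 (.cons 0x7890126534 (.cons 0x8935672104 (.cons 0x9872653401 .nil))) (.leaf 0x8726534019 0 .done) (.node 3 8 (.cons 0x7654098321 (.cons 0x7238916045 (.cons 0x7238916540 .nil))) (.node 0 5 (.cons 0x6501278934 .nil) (.node 4 8 (.cons 0x5672104893 (.cons 0x9160327845 (.cons 0x9165487230 (.cons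 0x7216504893 .nil)))) .done .done) .done) .done)) (.node 0 4 (.cons 0x5409876123 .nil) (.leaf 0x9165403278 0 (.node 0 5 (.cons 0x6501278934 .nil) (.node 4 7 (.cons 0x5621098743 (.cons 0x8916032745 (.cons 0x8916547230 (.cons 0x8930561274 .nil)))) .done .done) .done)) (.leaf 0x1278903456 0 .done))) .done) .done)) (.node 6 8 (.cons 0x9012786543 .nil) (.node 3 8 (.cons 0x9012783456 (.cons 0x9016543872 .nil)) (.node 5 9 (.cons 0x6109543872 (.cons 0x6127834590 .nil)) (.node 3 9 (.cons 0x4395687210 .nil) (.node 1 4 (.cons 0x8726593410 (.cons 0x6783214590 (.cons 0x2768395410 .nil))) (.node 0 5 (.cons 0x8761450932 (.cons 0x7612389054 (.cons 0x9327861450 .nil))) .done .done) .done) (.node 4 6 (.cons 0x7832164590 (.cons 0x3872164590 .nil)) .done .done)) (.node 1 8 (.cons 0x9061872345 .nil) (.node 3 9 (.cons 0x9345687210 (.cons 0x4561872390 .nil)) (.node 5 8 (.cons 0x7210965834 (.cons 0x6109345872 (.cons 0x6127854390 .nil))) .done .done) .done) .done)) (.node 3 8 (.cons 0x9012783456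 (.cons 0x9016543872 .nil)) (.node 2 9 (.cons 0x9278345601 .nil) (.node 3 6 (.cons 0x8729016345 .nil) (.node 5 7 (.cons 0x8345729601 (.cons 0x8345729610 (.cons 0x8754361290 .nil))) (.node 3 5 (.cons 0x4357892601 (.cons 0x4357892610 .nil)) (.node 4 8 (.cons 0x7534892601 (.cons 0x7612354890 (.cons 0x7534892610 .nil))) .done .done) .done) .done) (.node 3 6 .nil (.node 5 9 (.cons 0x8723459061 (.cons 0x1278634590 (.cons 0x4592783610 (.cons 0x8721634590 .nil)))) .done (.node 0 7 (.cons 0x9210783654 .nil) (.node 5 9 (.cons 0x6387012954 (.cons 0x8345961072 (.cons 0x8345961270 .nil))) .done (.node 3 5 (.cons 0x7890126534 .nil) (.node 4 8 (.cons 0x4890765321 (.cons 0x7612354890 (.cons 0x9270165384 .nil))) .done (.node 2 4 (.cons 0x7012438965 (.cons 0x9870165342 (.cons 0x7016538924 (.cons 0x7890162435 .nil)))) .done .done)) .done)) .done)) .done)) (.node 0 4 (.cons 0x7612389045 (.cons 0x5409876123 .nil)) (.node 1 5 (.cons 0x7698321540 (.cons 0x9045123876 (.cons 0x9045127683 (.cons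 0x7215409683 .nil)))) .done (.node 5 7 (.cons 0x1275438690 (.cons 0x8345721690 .nil)) (.node 1 9 (.cons 0x2345789160 (.cons 0x9160457832 .nil)) (.leaf 0x2190456783 0 .done) (.node 1 8 (.cons 0x4572381690 .nil) (.leaf 0x3816904572 0 (.node 0 8 (.cons 0x4327569081 (.cons 0x4572380961 .nil)) .done .done)) .done)) .done)) (.node 4 9 (.cons 0x5610943872 (.cons 0x5612783490 .nil)) (.node 3 5 (.cons 0x7890126534 (.cons 0x7894356210 (.cons 0x8356721094 (.cons 0x8726534901 .nil)))) (.node 3 6 (.cons 0x8763549012 .nil) (.node 0 3 (.cons 0x4567890321 (.cons 0x5498763012 .nil)) (.node 1 3 (.cons 0x8672130945 .nil) .done .done) .done) .done) (.node 1 8 (.cons 0x9061872345 (.cons 0x5490618723 .nil)) (.node 5 8 (.cons 0x7210965834 (.cons 0x3278549061 (.cons 0x5872610943 .nil))) .done .done) .done)) .done))) .done)) .done))) (.node 3 6 .nil (.node 1 4 (.cons 0x3214567890 (.cons 0x5412367890 .nil)) (.node 4 6 .nil (.node 1 7 (.cons 0x6543217890 (.cons 0x5643217890 (.cons 0x5463217890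 .nil))) .done (.node 6 8 .nil (.node 0 4 (.cons 0x5409876321 .nil) (.node 0 7 (.cons 0x9870432165 (.cons 0x9078654321 (.cons 0x9078632145 .nil))) .done (.node 1 7 (.cons 0x6543217890 (.cons 0x5409867123 (.cons 0x7123409865 .nil))) .done .done)) .done) .done)) (.node 0 7 (.cons 0x8907654123 (.cons 0x8907632145 .nil)) (.node 0 4 (.cons 0x5409876321 .nil) (.node 6 8 (.cons 0x9078654321 .nil) (.node 1 9 (.cons 0x3456870912 (.cons 0x5436870912 (.cons 0x8709123654 .nil))) (.node 1 7 (.cons 0x6543217890 .nil) (.node 0 5 (.cons 0x6321789054 .nil) (.leaf 0x1789054362 0 .done) .done) .done) .done) .done) (.node 0 4 (.cons 0x9870432165 (.cons 0x5409876321 .nil)) (.node 2 4 (.cons 0x9870124365 (.cons 0x5421098763 .nil)) (.node 5 9 (.cons 0x4321659870 (.cons 0x3421659870 .nil)) (.node 0 3 (.cons 0x7895423061 .nil) (.node 0 5 (.cons 0x9870561234 .nil) .done .done) (.leaf 0x3216598704 0 .done)) .done) .done) .done)) .done)) (.node 6 8 .nil (.node 2 7 (.cons 0x9012786543 (.cons 0x9012786345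 .nil)) (.node 3 5 (.cons 0x7890126534 (.cons 0x4356278901 .nil)) (.node 3 8 (.cons 0x4538967210 .nil) (.node 4 6 (.cons 0x9012783465 .nil) (.node 4 9 (.cons 0x7894356210 (.cons 0x5349872601 .nil)) (.leaf 0x7836549012 0 .done) .done) (.node 1 4 (.cons 0x3214567890 (.cons 0x9014387265 (.cons 0x1456723890 (.cons 0x2769835410 .nil)))) .done .done)) (.node 4 6 (.cons 0x8901276453 .nil) (.node 0 3 (.cons 0x4567890321 (.cons 0x8903546721 (.cons 0x5643098721 .nil))) .done .done) .done)) (.node 4 6 .nil (.node 0 3 (.cons 0x4567890321 (.cons 0x9865430127 (.cons 0x5467890321 (.cons 0x9872103465 .nil)))) .done (.node 0 3 (.cons 0x4567890321 (.cons 0x9865430127 .nil)) (.node 1 5 (.cons 0x3098764512 (.cons 0x7689032154 .nil)) (.node 2 9 (.cons 0x8764512903 (.cons 0x7860923451 (.cons 0x7864512903 .nil))) .done (.node 4 9 (.cons 0x5498761230 (.cons 0x7863215490 (.cons 0x9451036872 .nil))) .done .done)) (.node 3 7 (.cons 0x8965437210 .nil) (.leaf 0x8901273456 0 (.node 3 9 (.cons 0x6543987210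 .nil) (.leaf 0x8654390127 0 .done) .done)) .done)) .done)) .done)) (.node 4 6 .nil (.node 1 7 (.cons 0x6543217890 (.cons 0x5643217890 .nil)) (.node 2 9 (.cons 0x3456871290 .nil) (.node 1 5 (.cons 0x7892345160 (.cons 0x8715460923 .nil)) (.node 3 5 (.cons 0x7890126534 (.cons 0x3546789210 (.cons 0x8710926435 .nil))) .done .done) (.node 0 8 (.cons 0x9087123456 (.cons 0x9087123465 .nil)) (.node 3 5 (.cons 0x7890126534 (.cons 0x9235460871 (.cons 0x7129086453 (.cons 0x9235461780 .nil)))) .done (.node 1 9 (.cons 0x8719065432 (.cons 0x7809123645 .nil)) (.node 1 3 (.cons 0x8713290654 (.cons 0x8713290645 .nil)) (.node 1 4 (.cons 0x3214567890 .nil) (.node 0 3 (.cons 0x4567890321 (.cons 0x5467890321 .nil)) (.node 1 5 (.cons 0x7890623415 (.cons 0x7890321564 .nil)) .done .done) .done) .done) .done) .done)) .done)) (.node 0 5 (.cons 0x9054368712 (.cons 0x8905467123 (.cons 0x6450987123 .nil))) (.node 0 3 (.cons 0x4567890321 (.cons 0x8903217645 (.cons 0x5467890321 .nil))) (.node 1 5 (.cons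 0x6098715432 (.cons 0x7890321564 .nil)) (.node 0 7 (.cons 0x8907645123 .nil) (.node 0 8 (.cons 0x7089612345 (.cons 0x9087123645 .nil)) .done .done) .done) .done) .done) .done)) .done) .done)) .done)) (.node 3 6 .nil (.node 1 4 (.cons 0x3214567890 (.cons 0x5412367890 .nil)) (.node 4 6 .nil (.node 1 7 (.cons 0x6543217890 (.cons 0x5643217890 (.cons 0x5463217890 .nil))) .done (.node 1 7 (.cons 0x6543217890 .nil) (.node 2 9 (.cons 0x8716092345 (.cons 0x5417892360 .nil)) (.node 0 5 (.cons 0x3298760541 (.cons 0x7892360541 .nil)) (.node 5 7 (.cons 0x8754329061 (.cons 0x6345789210 (.cons 0x5789263410 (.cons 0x8754361290 .nil)))) .done (.leaf 0x1789054362 0 .done)) .done) (.node 6 8 .nil (.node 0 4 (.cons 0x5409876321 (.cons 0x9043217865 (.cons 0x7123409865 .nil))) .done (.node 0 5 (.cons 0x3465098712 .nil) (.node 2 9 (.cons 0x8712905643 (.cons 0x9210543687 .nil)) (.node 4 9 (.cons 0x9432178650 (.cons 0x8714923605 (.cons 0x8714923650 .nil))) .done .done) (.node 0 4 (.cons 0x9865043217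 (.cons 0x5409876321 .nil)) (.node 1 8 (.cons 0x9045678123 (.cons 0x7632189054 (.cons 0x9045632187 .nil))) .done .done) (.node 1 3 (.cons 0x7890546312 .nil) (.node 1 5 (.cons 0x4512367890 .nil) (.node 1 9 (.cons 0x7891450632 .nil) (.node 4 7 (.cons 0x5621098743 (.cons 0x8745632190 (.cons 0x8906745132 (.cons 0x1562347890 .nil)))) .done .done) .done) .done) .done))) .done)) .done)) .done)) (.node 0 7 (.cons 0x8907654123 (.cons 0x8907632145 .nil)) (.node 0 4 (.cons 0x5409876321 .nil) (.node 5 7 (.cons 0x9875621043 (.cons 0x3409875621 .nil)) (.node 1 7 (.cons 0x8906234175 (.cons 0x8906571432 .nil)) (.leaf 0x2178904563 0 .done) (.node 1 9 (.cons 0x8709123456 (.cons 0x8756190432 (.cons 0x8709123654 .nil))) (.node 5 8 (.cons 0x8570914326 (.cons 0x3267589140 (.cons 0x6321907854 (.cons 0x6345870912 .nil)))) .done .done) .done)) .done) (.node 5 8 (.cons 0x9078561234 (.cons 0x7098563214 (.cons 0x7098563412 .nil))) (.node 0 4 (.cons 0x9856704123 (.cons 0x5409876321 .nil)) (.node 2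 9 (.cons 0x7065892341 (.cons 0x9210458763 .nil)) (.node 4 9 (.cons 0x3214985670 (.cons 0x5894123670 (.cons 0x3658704921 .nil))) (.leaf 0x6123490785 0 .done) .done) .done) (.node 2 7 (.cons 0x6589072341 (.cons 0x9856341072 (.cons 0x9016345872 .nil))) (.node 2 4 (.cons 0x9870124365 (.cons 0x5890763241 .nil)) (.node 3 7 (.cons 0x5890142673 (.cons 0x5624378901 .nil)) (.leaf 0x1245637890 0 .done) .done) .done) .done)) .done)) .done)) (.node 6 8 .nil (.node 0 7 (.cons 0x9078654321 (.cons 0x9078612345 .nil)) (.node 2 8 (.cons 0x7012896543 (.cons 0x7012896345 .nil)) (.node 1 4 (.cons 0x3214567890 (.cons 0x8907654123 .nil)) (.node 1 7 (.cons 0x5417069823 .nil) (.node 0 4 (.cons 0x9043217865 (.cons 0x7123409865 .nil)) (.node 1 5 (.cons 0x9876321540 (.cons 0x7689045123 (.cons 0x9870451236 .nil))) .done .done) .done) (.node 5 8 (.cons 0x3214589670 (.cons 0x7096145823 .nil)) (.leaf 0x1690785432 0 .done) .done)) .done) (.node 1 7 (.cons 0x6543217890 .nil) (.node 2 9 (.cons 0x1789234560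 .nil) (.node 5 7 (.cons 0x6345789210 (.cons 0x1687543290 (.cons 0x3457861290 .nil))) (.leaf 0x4329016875 0 .done) (.node 1 4 (.cons 0x3298714560 .nil) (.node 0 3 (.cons 0x4567890321 (.cons 0x7689032145 .nil)) (.leaf 0x6541703298 0 (.node 0 4 (.cons 0x7892104563 (.cons 0x9867123045 .nil)) (.node 7 9 (.cons 0x8792104563 (.cons 0x5432168790 (.cons 0x8654032971 (.cons 0x2179865430 .nil)))) .done .done) .done)) (.node 3 5 (.cons 0x7890126534 (.cons 0x9235417860 (.cons 0x7145329860 (.cons 0x7861453290 .nil)))) .done .done)) .done)) (.node 0 5 (.cons 0x9054321786 (.cons 0x4509867123 .nil)) (.node 2 9 (.cons 0x5436017892 (.cons 0x4501298763 (.cons 0x4506329871 .nil))) .done (.node 1 5 (.cons 0x6098715432 (.cons 0x7098651234 .nil)) (.node 2 5 (.cons 0x9871063452 (.cons 0x9860715234 .nil)) (.node 3 5 (.cons 0x7890126534 (.cons 0x4532176890 (.cons 0x9017862534 .nil))) .done .done) .done) .done)) .done)) .done)) (.node 4 6 .nil (.node 1 7 (.cons 0x6543217890 (.cons 0x5643217890 .nil))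 (.node 2 9 (.cons 0x1789234560 .nil) (.node 0 5 (.cons 0x6054329871 (.cons 0x7892105463 .nil)) (.node 0 3 (.cons 0x4567890321 (.cons 0x5467890321 (.cons 0x9217864305 .nil))) (.node 1 8 (.cons 0x7816092345 (.cons 0x9054678123 (.cons 0x9056432187 (.cons 0x7189230645 .nil)))) .done .done) (.node 0 3 (.cons 0x4567890321 (.cons 0x5467890321 (.cons 0x7129864305 .nil))) (.node 3 5 (.cons 0x4536789210 (.cons 0x5346298710 .nil)) .done .done) .done)) (.node 3 7 (.cons 0x4563789210 (.cons 0x5463789210 (.cons 0x5643789012 .nil))) (.node 3 5 (.cons 0x7890126534 .nil) (.node 0 3 (.cons 0x4567890321 (.cons 0x7129864530 .nil)) (.node 0 7 (.cons 0x8965432170 (.cons 0x3546892170 .nil)) .done .done) (.node 2 7 (.cons 0x4356278901 (.cons 0x5346278901 .nil)) .done .done)) (.node 2 8 (.cons 0x2896543710 (.cons 0x5461092873 .nil)) (.node 4 8 (.cons 0x1654873290 .nil) (.node 3 5 (.cons 0x7354829610 (.cons 0x5378462901 .nil)) (.leaf 0x2906178453 0 .done) (.node 3 5 (.cons 0x7890126534 .nil) (.node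 3 9 (.cons 0x9354678210 (.cons 0x2935648710 .nil)) (.leaf 0x7645390128 0 .done) (.node 0 3 (.cons 0x4567890321 (.cons 0x7129864530 (.cons 0x7103564892 .nil))) (.node 1 9 (.cons 0x6548719230 (.cons 0x8719230645 (.cons 0x5648719230 .nil))) .done .done) .done)) .done)) .done) .done)) .done)) (.node 0 5 (.cons 0x8905467123 (.cons 0x9871236450 .nil)) (.node 2 9 (.cons 0x5436017892 (.cons 0x7861290543 (.cons 0x4506329871 .nil))) .done (.node 0 3 (.cons 0x4567890321 (.cons 0x8903217645 (.cons 0x5467890321 .nil))) (.node 3 8 (.cons 0x8321769054 (.cons 0x9054678321 .nil)) (.node 2 5 (.cons 0x9871063452 (.cons 0x1764523890 (.cons 0x3254609871 .nil))) (.node 2 9 (.cons 0x9217863450 (.cons 0x5461783290 .nil)) (.leaf 0x634529871 0 .done) .done) .done) .done) .done)) .done)) .done) .done)) .done)) .done)))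
noncomputable def uc9_1_0 : T := (.node 2 7 (.cons 0x3456987210 (.cons 0x8721096543 .nil)) (.node 0 7 (.cons 0x8709654321 .nil) (.node 1 6 (.cons 0x5432169870 (.cons 0x8709612345 .nil)) (.node 3 6 (.cons 0x5436987012 .nil) (.node 5 8 (.cons 0x4589076123 (.cons 0x9854327061 (.cons 0x4587096321 (.cons 0x6127098543 .nil)))) (.node 1 7 (.cons 0x2345896170 (.cons 0x8712345690 (.cons 0x4327165890 .nil))) .done .done) .done) .done) (.node 3 5 (.cons 0x7890126534 (.cons 0x4356987012 (.cons 0x4356278901 .nil))) (.node 0 3 (.cons 0x4567890321 .nil) (.node 4 8 (.cons 0x7654890321 (.cons 0x9653487012 (.cons 0x1235487690 (.cons 0x3098456721 .nil)))) (.node 1 7 (.cons 0x9843017265 (.cons 0x8712345690 (.cons 0x5348710962 .nil))) .done .done) (.leaf 0x1278965430 0 .done)) (.node 4 8 (.cons 0x4890765321 (.cons 0x6721098453 (.cons 0x7265348901 (.cons 0x6534890721 .nil)))) (.node 6 8 (.cons 0x4356890721 .nil) .done .done) .done)) .done)) (.node 3 6 (.cons 0x5436987210 (.cons 0x8721096345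 .nil)) (.node 0 7 (.cons 0x8709654321 .nil) (.node 6 8 (.cons 0x5436890721 .nil) (.node 2 9 (.cons 0x7012986543 .nil) (.node 1 4 (.cons 0x3214567890 (.cons 0x3298706541 (.cons 0x8907654123 (.cons 0x8907632145 .nil)))) (.node 1 6 (.cons 0x5432789061 .nil) .done .done) .done) .done) (.node 1 7 (.cons 0x6543217890 (.cons 0x8712345690 .nil)) (.node 3 7 (.cons 0x6543789012 (.cons 0x8734569012 .nil)) (.node 3 5 (.cons 0x7890126534 (.cons 0x4356987012 .nil)) (.node 5 7 (.cons 0x8901275436 .nil) (.node 7 9 (.cons 0x8790126534 .nil) .done .done) .done) .done) .done) .done)) .done) .done)) (.node 1 6 .nil tc9_1_1 (.node 6 8 .nil (.node 2 7 (.cons 0x9012786543 .nil) (.node 0 7 (.cons 0x9078654321 .nil) (.node 1 6 (.cons 0x9078612345 (.cons 0x7098612345 .nil)) (.node 0 5 (.cons 0x3450789612 (.cons 0x8961270543 .nil)) (.leaf 0x4321698705 0 (.node 5 9 (.cons 0x6123459870 (.cons 0x8954327061 .nil)) (.node 0 2 (.cons 0x9543207861 (.cons 0x7023459861 .nil)) .done .done) .done)) .done)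 (.node 7 9 (.cons 0x1234568790 .nil) (.node 3 6 (.cons 0x5436879012 .nil) (.node 1 6 (.cons 0x5432168790 .nil) (.node 3 7 (.cons 0x8901654372 .nil) (.node 0 3 (.cons 0x4567890321 .nil) (.node 3 5 (.cons 0x7890126534 (.cons 0x4356278901 .nil)) .done (.leaf 0x9872165430 0 .done)) .done) .done) (.node 1 6 (.cons 0x5432168790 .nil) (.node 0 5 (.cons 0x9870561234 (.cons 0x9786123450 (.cons 0x7986123450 .nil))) (.node 1 7 (.cons 0x8632179054 .nil) .done .done) .done) .done)) (.node 0 8 (.cons 0x3456908721 .nil) (.node 3 6 (.cons 0x5436908721 .nil) (.node 3 5 (.cons 0x7890126534 (.cons 0x9801276354 (.cons 0x4356278901 .nil))) (.node 4 9 (.cons 0x6780945321 (.cons 0x7680945321 (.cons 0x7862109435 .nil))) .done .done) (.node 0 3 (.cons 0x4567890321 .nil) (.node 3 5 (.cons 0x7890126534 (.cons 0x9801276354 (.cons 0x4356278901 .nil))) .done .done) .done)) (.node 1 5 (.cons 0x9078651234 (.cons 0x7098651234 .nil)) (.node 2 4 (.cons 0x3421569870 (.cons 0x8709651243 .nil)) (.node 1 4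 (.cons 0x9870651432 (.cons 0x7890623415 .nil)) (.node 3 8 (.cons 0x7983426510 (.cons 0x7609832451 (.cons 0x8324156790 (.cons 0x4238907651 .nil)))) .done .done) (.node 3 5 (.cons 0x5342687901 (.cons 0x7689012453 (.cons 0x4356278901 .nil))) (.leaf 0x8901534267 0 .done) .done)) (.node 4 9 (.cons 0x6512349870 (.cons 0x8943270651 (.cons 0x5106278943 .nil))) .done (.node 4 9 (.cons 0x5687094321 .nil) (.node 1 6 (.cons 0x5612349870 (.cons 0x7809456123 .nil)) (.node 3 6 (.cons 0x5634987012 (.cons 0x7809456321 .nil)) .done .done) (.leaf 0x6512349078 0 (.node 3 5 (.cons 0x7890126534 (.cons 0x5349872601 (.cons 0x7862109435 (.cons 0x4356278901 .nil)))) (.node 1 7 (.cons 0x6089453271 (.cons 0x8671235490 (.cons 0x4532176890 .nil))) .done .done) .done))) .done))) .done)) .done)) .done)) (.node 1 7 (.cons 0x6543217890 .nil) (.node 3 7 (.cons 0x6543789012 .nil) (.leaf 0x8901273456 0 (.node 0 3 (.cons 0x1278965430 (.cons 0x9865430127 (.cons 0x5430968712 .nil))) (.node 4 9 (.cons 0x8765490321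 (.cons 0x5689437210 .nil)) (.node 2 5 (.cons 0x6521098734 (.cons 0x9012568734 (.cons 0x5273498601 (.cons 0x3254906871 .nil)))) .done (.node 0 5 (.cons 0x3498726501 (.cons 0x2734986501 .nil)) (.node 2 5 (.cons 0x6521098734 (.cons 0x2568734901 .nil)) (.leaf 0x3490125687 0 .done) .done) .done)) .done) (.node 2 9 (.cons 0x8654371092 (.cons 0x5432906871 .nil)) (.node 1 6 (.cons 0x2987345610 (.cons 0x8927345610 .nil)) .done (.node 2 4 (.cons 0x5624378901 (.cons 0x3786542901 (.cons 0x8654290173 .nil))) (.node 2 8 (.cons 0x9065432871 .nil) .done .done) .done)) .done))) (.node 5 9 (.cons 0x1723459860 .nil) (.node 1 6 (.cons 0x2345987160 (.cons 0x8716095432 (.cons 0x8954327160 .nil))) .done (.node 0 5 (.cons 0x3450968712 (.cons 0x9860543271 .nil)) (.node 2 5 (.cons 0x3452178690 (.cons 0x9860172543 .nil)) .done .done) (.leaf 0x4598601723 0 .done))) (.node 0 4 (.cons 0x9043217865 (.cons 0x7123409865 .nil)) (.node 0 7 (.cons 0x9078654321 .nil) (.node 1 6 (.cons 0x9078612345 (.cons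 0x7098612345 .nil)) (.node 0 5 (.cons 0x9056871234 (.cons 0x9861234507 .nil)) (.node 3 9 (.cons 0x6543987210 (.cons 0x8932167045 (.cons 0x7893216504 (.cons 0x5627893401 .nil)))) (.leaf 0x8654390127 0 .done) .done) .done) .done) (.node 0 7 (.cons 0x9078654321 .nil) (.node 3 5 (.cons 0x6789045321 (.cons 0x5340789621 (.cons 0x5340968712 (.cons 0x7689045321 .nil)))) (.node 1 4 (.cons 0x9872653410 (.cons 0x9870143562 (.cons 0x8907654123 .nil))) (.node 1 5 (.cons 0x4098762351 (.cons 0x2698704351 (.cons 0x8962704351 (.cons 0x9041532687 .nil)))) .done .done) .done) .done) .done)) .done))) (.node 3 6 (.cons 0x9012786345 (.cons 0x7210986345 .nil)) (.node 0 5 (.cons 0x1278963450 (.cons 0x3450968721 (.cons 0x9863450127 .nil))) (.node 1 5 (.cons 0x6098723451 (.cons 0x3451278690 .nil)) (.node 5 9 (.cons 0x6345987210 .nil) (.node 1 7 (.cons 0x6543217890 (.cons 0x8609543271 (.cons 0x4327159860 .nil))) .done (.node 4 9 (.cons 0x5106278943 (.cons 0x7210549863 .nil)) (.node 5 7 (.cons 0x5789436210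 (.cons 0x5786210943 .nil)) (.leaf 0x4368901275 0 .done) .done) .done)) (.node 0 7 (.cons 0x8963451270 (.cons 0x9078654321 (.cons 0x7098651234 .nil))) .done .done)) .done) .done) .done))) (.node 2 8 .nil tc9_1_0 .done)) .done)))
theorem sub_c9_1_0 : root 9 refs9_1 [] 0x700000008706000000006030000000030500402000504000000004030000000030100000400102000000002018002000010 0xfe7fff3fffb7ffc3ffcfffe7fff5ffe9fff9fef9 9 6 9 .nil uc9_1_0 = true := by decide +kernel
noncomputable def tc9_1_2 : T := (.node 0 4 (.cons 0x5409876321 .nil) (.node 1 6 (.cons 0x5409876123 .nil) (.node 1 4 (.cons 0x5412367890 .nil) (.node 4 6 .nil (.node 1 7 (.cons 0x6543217890 (.cons 0x5643217890 (.cons 0x5463217890 .nil))) .done .done) (.node 0 7 (.cons 0x8907632145 (.cons 0x9870432165 .nil)) (.node 1 8 (.cons 0x3456907812 (.cons 0x5436907812 (.cons 0x9078123654 .nil))) (.node 1 7 (.cons 0x6543217890 .nil) (.node 0 5 (.cons 0x7145098632 (.cons 0x8905417632 .nil)) .done .done) .done) (.node 1 8 (.cons 0x7098143265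 (.cons 0x5418907632 (.cons 0x7098145632 .nil))) (.node 2 9 (.cons 0x1654329870 (.cons 0x7043298165 (.cons 0x5436107892 (.cons 0x3298704561 .nil)))) .done .done) .done)) .done)) (.node 4 6 .nil (.node 1 7 (.cons 0x6543217890 (.cons 0x5643217890 (.cons 0x5463217890 .nil))) (.leaf 0x2178904563 0 .done) (.node 1 4 (.cons 0x5412367890 .nil) (.node 2 4 (.cons 0x5421098763 .nil) (.node 1 7 (.cons 0x6543217890 .nil) (.leaf 0x2178904563 0 (.node 3 5 (.cons 0x8712690435 (.cons 0x2354098671 (.cons 0x8904176235 .nil))) (.leaf 0x8904356217 0 .done) (.node 1 9 (.cons 0x5687190423 .nil) (.node 0 7 (.cons 0x2345687091 (.cons 0x8907632145 (.cons 0x8709165432 .nil))) .done (.node 0 5 (.cons 0x8763219054 (.cons 0x7891236450 (.cons 0x8763245091 .nil))) .done .done)) .done))) .done) .done) .done)) .done)) (.node 1 4 (.cons 0x3214567890 (.cons 0x5412367890 .nil)) (.node 4 6 .nil (.node 1 7 (.cons 0x6543217890 (.cons 0x5643217890 (.cons 0x5463217890 .nil))) (.node 0 8 (.cons 0x3456908712 (.cons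 0x9087123645 (.cons 0x9087123465 .nil))) .done .done) .done) (.node 0 7 (.cons 0x8907654123 (.cons 0x8907632145 .nil)) (.node 2 4 (.cons 0x9870124365 (.cons 0x5421098763 .nil)) (.node 1 5 (.cons 0x7098651432 (.cons 0x3421569870 (.cons 0x8709651243 (.cons 0x7098651423 .nil)))) .done .done) (.node 2 8 (.cons 0x3289076541 (.cons 0x7098236541 .nil)) (.node 7 9 (.cons 0x5628970143 (.cons 0x7982106345 (.cons 0x5634107982 .nil))) .done (.node 5 7 (.cons 0x8907562341 (.cons 0x9826341075 (.cons 0x1287543690 (.cons 0x3675412890 .nil)))) .done .done)) .done)) .done)) (.node 1 4 (.cons 0x3214567890 (.cons 0x5412367890 .nil)) (.node 1 6 .nil (.node 1 7 (.cons 0x5617890432 (.cons 0x5409871632 .nil)) (.node 1 5 (.cons 0x7890432651 (.cons 0x7890451632 .nil)) (.node 0 7 (.cons 0x8907632154 (.cons 0x7098615432 .nil)) (.node 0 8 (.cons 0x3456908712 (.cons 0x5436908712 (.cons 0x9087123654 .nil))) .done .done) .done) .done) (.node 4 6 .nil (.node 1 7 (.cons 0x6543217890 (.cons 0x5643217890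 (.cons 0x5463217890 .nil))) .done .done) .done)) (.node 0 8 (.cons 0x9087654123 (.cons 0x9087632145 .nil)) (.node 1 6 .nil (.node 5 7 (.cons 0x9087563412 (.cons 0x9087561234 (.cons 0x9087561432 .nil))) (.leaf 0x1263457890 0 .done) (.node 4 6 .nil (.node 1 7 (.cons 0x6543217890 (.cons 0x5643217890 (.cons 0x5463217890 .nil))) .done .done) .done)) (.node 0 5 (.cons 0x4509876321 .nil) (.node 1 6 (.cons 0x4509876123 .nil) (.node 1 7 (.cons 0x6543217890 (.cons 0x9871623405 (.cons 0x9871650432 .nil))) .done .done) (.node 1 6 .nil (.node 5 7 (.cons 0x6345789012 (.cons 0x6123457890 (.cons 0x9087541632 (.cons 0x2163457890 .nil)))) (.leaf 0x1263457890 0 .done) (.node 4 6 .nil (.node 1 7 (.cons 0x6543217890 (.cons 0x5643217890 (.cons 0x9087123645 .nil))) .done .done) .done)) .done)) .done)) (.node 0 7 (.cons 0x8907654123 (.cons 0x8907632145 .nil)) (.node 1 9 (.cons 0x2345687091 (.cons 0x8709123654 .nil)) (.node 1 5 (.cons 0x7890432651 (.cons 0x2367891540 (.cons 0x4519078632 .nil)))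 (.leaf 0x8623451907 0 .done) (.node 1 8 (.cons 0x3456907812 (.cons 0x5436907812 (.cons 0x9078123654 .nil))) (.node 1 7 (.cons 0x6543217890 .nil) (.node 0 5 (.cons 0x7143268905 (.cons 0x7145098632 .nil)) .done .done) .done) .done)) (.node 5 8 (.cons 0x7098563214 (.cons 0x7098563412 .nil)) (.node 1 7 (.cons 0x6543217890 (.cons 0x9856071234 (.cons 0x9043265871 (.cons 0x4589067123 .nil)))) .done (.node 4 9 (.cons 0x3214985670 (.cons 0x5894123670 .nil)) .done .done)) .done)) .done))) .done))) (.node 4 6 .nil (.node 1 6 .nil (.node 0 5 (.cons 0x7890564321 (.cons 0x4509876123 (.cons 0x7890546123 .nil))) (.node 3 8 (.cons 0x9054678321 (.cons 0x7834509612 .nil)) (.node 2 7 (.cons 0x9012783465 (.cons 0x9054327861 .nil)) (.node 0 3 (.cons 0x1278965430 (.cons 0x5467890321 .nil)) (.node 0 4 (.cons 0x9650438721 (.cons 0x5409876123 .nil)) .done .done) .done) .done) (.node 5 7 (.cons 0x5789012643 (.cons 0x6123457890 .nil)) (.node 0 3 (.cons 0x4567890321 (.cons 0x5467890321 (.cons 0x9875643012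 .nil))) (.node 0 4 (.cons 0x9875621043 (.cons 0x9875043261 .nil)) .done .done) (.node 0 8 (.cons 0x9087564321 (.cons 0x3457809612 (.cons 0x9087546123 .nil))) .done (.leaf 0x1234578906 0 .done))) .done)) (.node 1 7 (.cons 0x6543217890 (.cons 0x5643217890 .nil)) (.node 1 4 (.cons 0x3214567890 .nil) (.node 3 8 (.cons 0x7654123890 .nil) (.node 0 5 (.cons 0x7834509612 (.cons 0x9054678321 (.cons 0x9054612387 .nil))) (.node 5 9 (.cons 0x4176238950 (.cons 0x7105983462 (.cons 0x7146238950 .nil))) .done .done) (.node 2 7 (.cons 0x9012783465 .nil) (.node 0 3 (.cons 0x2178965430 (.cons 0x5467890321 (.cons 0x8903276541 .nil))) (.node 0 5 (.cons 0x7650983214 (.cons 0x2714389650 .nil)) (.leaf 0x2178905643 0 .done) .done) (.node 0 5 (.cons 0x1278963450 (.cons 0x5096438721 (.cons 0x9872105463 (.cons 0x5098327641 .nil)))) .done .done)) .done)) (.node 0 5 (.cons 0x9876321450 .nil) (.node 3 8 (.cons 0x3876905412 (.cons 0x9054678321 .nil)) (.node 0 3 (.cons 0x2178965430 (.cons 0x5467890321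 .nil)) (.node 0 4 (.cons 0x9650438712 .nil) .done .done) .done) (.leaf 0x2178905643 0 (.node 1 3 (.cons 0x6789054132 (.cons 0x5098764132 .nil)) (.node 1 5 (.cons 0x4150987623 (.cons 0x7890514623 .nil)) .done .done) .done))) .done)) (.node 0 5 (.cons 0x2178963450 (.cons 0x9871236450 .nil)) (.node 3 8 (.cons 0x6905438712 (.cons 0x9054678321 (.cons 0x5096438712 .nil))) .done (.node 2 9 (.cons 0x6345017892 (.cons 0x1789236450 .nil)) (.node 1 8 (.cons 0x3298176450 (.cons 0x7189236450 .nil)) (.node 2 7 (.cons 0x5436892710 (.cons 0x3450698172 (.cons 0x8172963450 .nil))) .done (.node 2 7 (.cons 0x5436892710 (.cons 0x7298105643 (.cons 0x9056432781 .nil))) .done .done)) (.leaf 0x543629871 0 .done)) .done)) .done)) .done)) (.node 1 6 .nil (.node 0 4 (.cons 0x5409876123 .nil) (.node 2 9 (.cons 0x5401298763 (.cons 0x7892104563 .nil)) (.node 2 7 (.cons 0x3456872901 .nil) (.node 1 3 (.cons 0x9278654310 (.cons 0x7298654310 (.cons 0x7298601345 (.cons 0x5698721340 .nil)))) .done (.node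 1 5 (.cons 0x7298601543 (.cons 0x9278634510 (.cons 0x7298634510 (.cons 0x3698721540 .nil)))) .done .done)) (.node 3 8 (.cons 0x7638921045 .nil) (.node 1 4 (.cons 0x7654123890 (.cons 0x7609832145 .nil)) (.node 1 7 (.cons 0x2178345690 .nil) (.node 2 7 (.cons 0x5436892710 (.cons 0x9834560127 (.cons 0x1278345690 .nil))) .done (.leaf 0x2389045671 0 .done)) .done) (.node 1 5 (.cons 0x7834096512 (.cons 0x7651238904 (.cons 0x9046512387 .nil))) (.node 1 7 (.cons 0x5690438712 (.cons 0x3298671540 (.cons 0x7156892340 .nil))) .done .done) .done)) .done)) (.node 5 7 (.cons 0x6123457890 .nil) (.node 1 9 (.cons 0x5789104362 (.cons 0x8756432190 .nil)) (.node 1 4 (.cons 0x8906754123 .nil) (.node 3 9 (.cons 0x8932145760 (.cons 0x8756439012 (.cons 0x2657893410 .nil))) (.node 2 7 (.cons 0x6543987210 (.cons 0x2786543901 (.cons 0x2754368910 .nil))) .done .done) .done) (.node 1 3 (.cons 0x8756231904 (.cons 0x5409876132 (.cons 0x8756409132 .nil))) (.node 1 4 (.cons 0x3265789140 (.cons 0x2314576890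 .nil)) .done .done) .done)) (.leaf 0x6578904321 0 (.node 3 8 (.cons 0x9012657834 .nil) (.node 0 5 (.cons 0x9054678321 (.cons 0x9054612387 .nil)) .done (.node 1 9 (.cons 0x2345786190 (.cons 0x8756190432 (.cons 0x4091657832 .nil))) (.node 0 3 (.cons 0x4567890321 (.cons 0x8754309612 .nil)) (.node 1 3 (.cons 0x5409876132 .nil) .done .done) .done) .done)) (.node 2 4 (.cons 0x3426578901 (.cons 0x5789016243 .nil)) (.node 2 8 (.cons 0x7543289061 .nil) (.node 1 3 (.cons 0x7821345690 (.cons 0x7654098231 (.cons 0x4576098231 (.cons 0x9013465782 .nil)))) .done (.node 0 3 (.cons 0x9875624301 (.cons 0x9032875461 (.cons 0x9875610342 .nil))) (.node 0 2 (.cons 0x9875436102 .nil) (.node 1 7 (.cons 0x3456987120 (.cons 0x9023456871 (.cons 0x5436987120 (.cons 0x5617890432 .nil)))) .done .done) .done) .done)) (.node 3 8 (.cons 0x7562438901 (.cons 0x1675423890 (.cons 0x7561098342 .nil))) .done .done)) (.leaf 0x1234578906 0 .done))))) .done)) .done) .done)) (.node 4 6 .nil (.node 0 3 (.cons 0x4567890321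 (.cons 0x5467890321 .nil)) (.node 1 6 .nil (.node 2 7 (.cons 0x9872103465 (.cons 0x1654327890 .nil)) (.node 5 7 (.cons 0x9875643012 (.cons 0x4309875612 .nil)) (.node 0 2 (.cons 0x3209875461 (.cons 0x4320987561 .nil)) (.node 1 7 (.cons 0x3456987120 (.cons 0x5643217890 (.cons 0x8906175432 .nil))) .done .done) .done) (.node 0 5 (.cons 0x9054327861 (.cons 0x3278905461 (.cons 0x5034698721 .nil))) .done .done)) (.node 1 7 (.cons 0x6543217890 (.cons 0x5643217890 .nil)) (.node 5 8 (.cons 0x4309658712 (.cons 0x9032178564 (.cons 0x9034658712 .nil))) (.node 3 8 (.cons 0x2178345690 .nil) (.node 1 5 (.cons 0x7609832154 (.cons 0x7645123890 (.cons 0x7890321564 .nil))) .done .done) .done) (.node 0 8 (.cons 0x5436908712 (.cons 0x9087123645 .nil)) (.node 2 7 (.cons 0x5436908721 (.cons 0x9872103465 .nil)) (.node 1 3 (.cons 0x8721345690 .nil) (.leaf 0x4569087213 0 .done) .done) .done) .done)) .done)) (.node 3 7 (.cons 0x6543789012 (.cons 0x5643789012 .nil)) (.node 3 5 (.cons 0x7890126534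 .nil) (.node 2 7 (.cons 0x8901276453 .nil) (.node 4 8 (.cons 0x6721098453 .nil) (.node 1 4 (.cons 0x8903276541 (.cons 0x1453276890 .nil)) (.node 1 9 (.cons 0x8765419032 (.cons 0x2734568910 (.cons 0x8672354190 (.cons 0x5687234190 (.cons 0x3278654190 .nil))))) .done .done) (.leaf 0x2765348901 0 .done)) (.node 3 8 (.cons 0x1278345690 (.cons 0x7645389012 (.cons 0x9012783465 .nil))) .done .done)) .done) (.node 1 6 (.cons 0x5461237890 .nil) (.node 0 5 (.cons 0x2169873450 (.cons 0x9873216450 .nil)) (.node 1 8 (.cons 0x6905437812 (.cons 0x9054678123 (.cons 0x5096437812 (.cons 0x7321890645 .nil)))) .done .done) .done) .done)) .done)) (.node 1 6 .nil (.node 0 3 (.cons 0x4567890321 .nil) (.node 5 7 (.cons 0x2169875430 (.cons 0x8754309612 .nil)) (.node 1 8 (.cons 0x7543069812 (.cons 0x2187543690 (.cons 0x7560981234 (.cons 0x9812306457 .nil)))) .done (.node 2 4 (.cons 0x3426578901 (.cons 0x8903245761 (.cons 0x5789016243 .nil))) (.node 2 9 (.cons 0x5789264301 (.cons 0x8754361092 (.cons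 0x1645789230 .nil))) (.node 3 8 (.cons 0x9012456783 (.cons 0x4576103892 (.cons 0x9016578342 .nil))) .done .done) .done) (.leaf 0x1234578906 0 .done))) (.node 5 7 (.cons 0x9875643012 (.cons 0x4309875612 .nil)) (.node 0 4 (.cons 0x9875621043 (.cons 0x5409876123 .nil)) (.node 3 7 (.cons 0x6543789012 .nil) (.node 5 8 (.cons 0x4589067321 (.cons 0x3785409612 (.cons 0x7345890612 .nil))) .done (.node 2 4 (.cons 0x5624378901 (.cons 0x5789612430 .nil)) (.node 0 7 (.cons 0x8965703421 (.cons 0x8961243075 .nil)) .done .done) .done)) (.leaf 0x6578904321 0 .done)) (.node 4 8 (.cons 0x9012657843 (.cons 0x5784309612 (.cons 0x9034875612 .nil))) .done (.node 3 7 (.cons 0x6543789012 .nil) (.node 3 5 (.cons 0x7890126534 .nil) (.node 2 7 (.cons 0x9872103465 (.cons 0x8901627534 .nil)) (.node 3 8 (.cons 0x1278345690 (.cons 0x5438721690 .nil)) .done .done) .done) (.node 0 5 (.cons 0x9873462105 (.cons 0x8734509612 (.cons 0x9873216450 .nil))) .done .done)) .done))) (.node 0 4 (.cons 0x5409876123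 .nil) (.node 3 7 (.cons 0x6543789012 (.cons 0x9873401265 .nil)) (.node 0 5 (.cons 0x8734509612 (.cons 0x9873216450 .nil)) .done (.node 1 5 (.cons 0x2156987340 (.cons 0x8734096512 (.cons 0x9873215640 .nil))) (.node 0 7 (.cons 0x7098615432 .nil) (.node 2 7 (.cons 0x8965127340 (.cons 0x7234516890 .nil)) (.leaf 0x9865127340 0 .done) .done) .done) .done)) (.node 1 4 (.cons 0x5416789032 .nil) (.node 2 4 (.cons 0x5423098761 .nil) (.node 0 7 (.cons 0x8907654123 .nil) (.node 5 8 (.cons 0x6709854123 (.cons 0x9854167032 (.cons 0x3690785421 (.cons 0x9078543612 .nil)))) .done (.node 1 5 (.cons 0x3421569870 (.cons 0x8709651243 (.cons 0x9870324651 .nil))) .done .done)) .done) .done) .done)) .done))) .done) .done)) .done)))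
noncomputable def tc9_1_3 : T := (.node 0 4 (.cons 0x5409876123 .nil) (.node 3 6 (.cons 0x5409876321 .nil) (.node 1 8 (.cons 0x9045632187 .nil) (.node 5 7 (.cons 0x2187543690 (.cons 0x9875621043 (.cons 0x5781269043 (.cons 0x3409875621 .nil)))) (.node 1 3 (.cons 0x6754098132 .nil) (.leaf 0x8904312657 0 (.node 1 9 (.cons 0x8190457632 .nil) (.leaf 0x2657819043 0 .done) .done)) .done) (.node 5 7 (.cons 0x7560981234 (.cons 0x9875621043 (.cons 0x3409657812 (.cons 0x3409875621 .nil)))) (.node 1 9 (.cons 0x8763219045 (.cons 0x4091875632 .nil)) (.node 0 7 (.cons 0x9186570432 (.cons 0x5704326891 (.cons 0x2340756891 .nil))) .done .done) .done) .done)) (.node 4 6 .nil (.node 3 7 (.cons 0x6543789012 (.cons 0x9873401265 (.cons 0x5643789012 (.cons 0x5461237890 .nil)))) (.node 0 3 (.cons 0x4567890321 (.cons 0x5467890321 .nil)) (.node 2 7 (.cons 0x5436109872 (.cons 0x9872103465 .nil)) .done .done) .done) (.node 3 7 (.cons 0x6543789012 (.cons 0x9873401265 .nil)) (.node 2 8 (.cons 0x1287345690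 (.cons 0x5437821690 .nil)) (.node 1 8 (.cons 0x5690437812 .nil) (.node 5 7 (.cons 0x4576098123 (.cons 0x9875621043 (.cons 0x9061823754 (.cons 0x3409875621 .nil)))) .done .done) .done) (.node 1 5 (.cons 0x5126987340 (.cons 0x8734096215 (.cons 0x9867321540 (.cons 0x9860451237 .nil)))) .done (.node 2 5 (.cons 0x6521098734 (.cons 0x1256987340 (.cons 0x8734096521 (.cons 0x9865210437 .nil)))) (.node 3 9 (.cons 0x8739012564 (.cons 0x7398652104 (.cons 0x9378640125 .nil))) .done .done) .done))) .done)) .done)) (.node 4 6 .nil (.node 0 5 (.cons 0x4509876123 (.cons 0x7890564321 (.cons 0x7890546123 .nil))) (.node 0 3 (.cons 0x4567890321 (.cons 0x5467890321 .nil)) (.node 2 7 (.cons 0x9872103465 (.cons 0x4327890561 (.cons 0x5098723461 .nil))) (.node 1 8 (.cons 0x3450961872 (.cons 0x9056187234 (.cons 0x9054618723 .nil))) .done .done) .done) .done) (.node 3 6 .nil (.node 7 9 (.cons 0x8790432165 (.cons 0x8790456321 .nil)) (.node 2 5 (.cons 0x7986012543 (.cons 0x9786345210 (.cons 0x7986345210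 (.cons 0x8790452361 .nil)))) (.node 0 7 (.cons 0x9870125634 (.cons 0x8970612345 (.cons 0x8970163452 .nil))) .done .done) (.node 1 8 (.cons 0x5618790432 (.cons 0x5409781632 .nil)) .done .done)) (.node 0 2 (.cons 0x7890234561 .nil) (.node 1 7 (.cons 0x3456987120 (.cons 0x8712096543 (.cons 0x8712096345 (.cons 0x5643209871 .nil)))) .done (.node 5 7 (.cons 0x8754369021 (.cons 0x3457896120 (.cons 0x6120987543 .nil))) (.node 3 9 (.cons 0x8765409321 (.cons 0x8761239045 (.cons 0x9345786102 .nil))) (.node 4 8 (.cons 0x9012657843 (.cons 0x8457612390 (.cons 0x8457612093 .nil))) .done (.node 0 3 (.cons 0x9687543021 .nil) (.node 2 7 (.cons 0x9340127865 (.cons 0x5430278961 .nil)) .done .done) .done)) (.node 5 8 (.cons 0x7854369021 (.cons 0x9021634587 .nil)) (.node 3 7 (.cons 0x4587369021 (.cons 0x5437896120 (.cons 0x3785409612 .nil))) (.leaf 0x961237854 0 .done) .done) .done)) (.node 0 5 (.cons 0x4509876123 .nil) (.node 1 7 (.cons 0x5461789023 (.cons 0x2346509871 .nil)) (.leaf 0x5643217890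 0 (.node 1 4 (.cons 0x6789054123 .nil) (.leaf 0x2367890541 0 (.node 3 8 (.cons 0x2178345690 (.cons 0x6905438712 (.cons 0x7650983214 (.cons 0x9023871654 .nil)))) .done .done)) .done)) (.node 4 7 (.cons 0x5621098743 (.cons 0x5098743261 .nil)) (.leaf 0x3478905612 0 (.node 3 5 (.cons 0x1265347890 .nil) (.node 0 3 (.cons 0x4567890321 (.cons 0x7896120354 .nil)) (.node 0 7 (.cons 0x9870126534 (.cons 0x9870235461 .nil)) .done .done) (.node 0 7 (.cons 0x8907435621 (.cons 0x9861207453 (.cons 0x8907435612 .nil))) .done .done)) .done)) .done)) .done))) .done)) .done)) (.node 4 6 .nil (.node 0 5 (.cons 0x4509876123 (.cons 0x7890564321 (.cons 0x7890546123 .nil))) (.node 5 7 (.cons 0x6123457890 (.cons 0x5789012643 .nil)) (.leaf 0x6578904321 0 (.node 7 9 (.cons 0x9786123450 (.cons 0x8790564321 .nil)) .done (.leaf 0x1234578906 0 .done))) .done) (.node 3 6 .nil (.node 5 7 (.cons 0x6123457890 (.cons 0x6345789012 (.cons 0x2163457890 .nil))) (.leaf 0x1263457890 0 (.node 2 8 (.cons 0x3457821690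 (.cons 0x1287543690 (.cons 0x9045782361 .nil))) .done (.node 2 4 (.cons 0x3426578901 (.cons 0x5789016243 .nil)) (.node 0 2 (.cons 0x4578902361 (.cons 0x4320987561 (.cons 0x9875634201 .nil))) (.node 0 3 (.cons 0x9876301245 (.cons 0x9875610342 .nil)) .done .done) (.leaf 0x9875423610 0 .done)) .done))) (.node 2 7 (.cons 0x5436109872 .nil) (.node 1 5 (.cons 0x9872651043 .nil) (.leaf 0x7890154362 0 (.node 3 8 (.cons 0x6723890451 (.cons 0x4098327651 .nil)) (.node 0 2 (.cons 0x7834569021 (.cons 0x9863451027 .nil)) (.node 1 4 (.cons 0x9872014563 (.cons 0x7623890415 .nil)) .done .done) .done) (.node 1 8 (.cons 0x7236098154 (.cons 0x9046518723 .nil)) .done .done))) (.node 3 9 (.cons 0x6543987210 (.cons 0x5610439872 .nil)) (.node 0 8 (.cons 0x4567210893 (.cons 0x5408932761 (.cons 0x7239804561 .nil))) (.node 5 7 (.cons 0x9087564321 (.cons 0x9087561234 (.cons 0x4398016572 .nil))) (.leaf 0x1234578906 0 .done) .done) (.node 0 5 (.cons 0x8764509321 (.cons 0x8721693450 (.cons 0x4501639872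 .nil))) .done .done)) (.node 1 8 (.cons 0x9043278165 (.cons 0x9045618723 .nil)) (.node 1 7 (.cons 0x5617890432 .nil) (.node 2 9 (.cons 0x5406718923 (.cons 0x8729016345 (.cons 0x3298716540 .nil))) (.node 5 7 (.cons 0x9275436810 (.cons 0x8163457290 .nil)) (.leaf 0x2901863457 0 .done) .done) .done) .done) .done))) .done)) .done)) .done))) (.node 3 6 .nil (.node 1 4 (.cons 0x3214567890 (.cons 0x5412367890 .nil)) (.node 4 6 .nil (.node 1 7 (.cons 0x6543217890 (.cons 0x5643217890 (.cons 0x5463217890 .nil))) .done (.node 1 7 (.cons 0x6543217890 .nil) (.node 0 5 (.cons 0x9860543217 (.cons 0x2364509871 .nil)) (.node 0 4 (.cons 0x5409876321 .nil) (.node 5 8 (.cons 0x4589067123 (.cons 0x7123609854 (.cons 0x9043261785 (.cons 0x9058712634 .nil)))) .done .done) (.node 0 2 (.cons 0x5026987143 (.cons 0x8712096345 (.cons 0x9876320541 (.cons 0x5463209871 .nil)))) .done .done)) (.node 0 4 (.cons 0x5409876321 .nil) (.node 1 5 (.cons 0x2346517890 .nil) (.node 2 8 (.cons 0x7156432890 (.cons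 0x5176409823 (.cons 0x7156409823 .nil))) .done (.node 1 3 (.cons 0x7890462315 .nil) (.node 3 9 (.cons 0x8761239045 (.cons 0x5678932140 (.cons 0x7893265140 .nil))) .done .done) .done)) (.node 1 8 (.cons 0x9045678123 (.cons 0x9045632187 .nil)) (.node 5 7 (.cons 0x5718906432 (.cons 0x2187543690 (.cons 0x7543609812 .nil))) (.leaf 0x1263457890 0 (.node 1 9 (.cons 0x8756234091 (.cons 0x8190457632 .nil)) (.leaf 0x2657819043 0 .done) .done)) .done) .done)) .done)) .done)) (.node 4 6 .nil (.node 1 7 (.cons 0x6543217890 (.cons 0x5643217890 (.cons 0x5463217890 .nil))) (.node 1 5 (.cons 0x4512367890 (.cons 0x3215467890 .nil)) (.node 3 7 (.cons 0x6543789012 (.cons 0x6451237890 (.cons 0x4651237890 .nil))) (.node 2 8 (.cons 0x1287345690 (.cons 0x9012873645 .nil)) .done (.node 2 8 (.cons 0x1456732890 (.cons 0x7365410982 (.cons 0x9823715460 .nil))) .done .done)) .done) .done) (.node 0 4 (.cons 0x5409876321 .nil) (.node 1 7 (.cons 0x6543217890 .nil) (.leaf 0x2178904563 0 (.node 3 5 (.cons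 0x8712690435 (.cons 0x9867123540 (.cons 0x8904176235 .nil))) (.leaf 0x8904356217 0 .done) (.node 0 7 (.cons 0x8907632145 .nil) (.node 1 8 (.cons 0x3456907812 (.cons 0x5436907812 (.cons 0x9078123654 .nil))) .done (.node 1 8 (.cons 0x9078165432 (.cons 0x5418907632 (.cons 0x7098145632 .nil))) .done .done)) .done))) (.node 1 8 (.cons 0x9045678123 (.cons 0x9045632187 .nil)) (.node 5 7 (.cons 0x4576098123 (.cons 0x2187543690 (.cons 0x2367541890 (.cons 0x7543609812 .nil)))) (.leaf 0x1263457890 0 .done) (.node 1 9 (.cons 0x8765409123 (.cons 0x8763219045 .nil)) (.node 5 7 (.cons 0x3409657812 (.cons 0x4091875632 (.cons 0x9043657812 .nil))) (.leaf 0x1263457890 0 (.node 2 4 (.cons 0x3246578190 (.cons 0x5781243690 .nil)) (.node 0 7 (.cons 0x8907654123 (.cons 0x9123687045 (.cons 0x9870124365 (.cons 0x9187042365 .nil)))) .done .done) .done)) .done) .done)) .done)) .done)) .done)) (.node 4 6 .nil (.node 1 7 (.cons 0x6543217890 (.cons 0x5643217890 .nil)) (.node 3 7 (.cons 0x6543789012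 (.cons 0x5643789012 .nil)) (.node 0 3 (.cons 0x2178965430 (.cons 0x5467890321 .nil)) (.node 2 8 (.cons 0x1287345690 .nil) (.node 2 7 (.cons 0x9827106345 .nil) .done (.node 2 9 (.cons 0x4563782901 (.cons 0x5463782901 .nil)) (.node 5 8 (.cons 0x9012658734 (.cons 0x7103465892 (.cons 0x7129856430 .nil))) .done .done) .done)) .done) (.node 2 5 (.cons 0x8734521690 (.cons 0x8901254673 (.cons 0x2546378901 .nil))) (.leaf 0x8901256437 0 (.node 2 7 (.cons 0x9860127345 .nil) .done .done)) .done)) (.node 0 5 (.cons 0x9860543217 (.cons 0x2364509871 .nil)) (.node 3 8 (.cons 0x6905438712 (.cons 0x9054678321 (.cons 0x5096438712 .nil))) .done (.node 2 8 (.cons 0x3450961782 (.cons 0x9054617823 .nil)) (.node 2 9 (.cons 0x7829016345 (.cons 0x8716450923 .nil)) (.node 0 2 (.cons 0x7102986345 (.cons 0x5463209871 .nil)) (.node 1 9 (.cons 0x7198605432 (.cons 0x9178643205 (.cons 0x9178645023 .nil))) .done .done) .done) .done) .done)) .done)) .done) .done)) .done))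
noncomputable def tc9_1_4 : T := (.node 0 4 (.cons 0x5409876123 .nil) (.node 6 8 .nil (.node 1 5 (.cons 0x6789045123 (.cons 0x9043215687 (.cons 0x7689045123 (.cons 0x9045123687 .nil)))) (.leaf 0x2367890451 0 .done) (.node 1 8 (.cons 0x9045632187 .nil) (.node 5 7 (.cons 0x4576098123 (.cons 0x9875621043 (.cons 0x2345781690 (.cons 0x3409875621 .nil)))) (.node 1 3 (.cons 0x6754098132 .nil) (.leaf 0x8904312657 0 (.node 1 9 (.cons 0x8190457632 .nil) (.leaf 0x2657819043 0 .done) .done)) .done) (.node 5 7 (.cons 0x7560981234 (.cons 0x9875621043 (.cons 0x2340965781 (.cons 0x3409875621 .nil)))) (.node 1 9 (.cons 0x8763219045 (.cons 0x4091875632 .nil)) (.node 0 7 (.cons 0x9186570432 (.cons 0x5704326891 (.cons 0x2340756891 .nil))) .done .done) .done) .done)) (.node 4 6 .nil (.node 3 7 (.cons 0x6543789012 (.cons 0x9873401265 (.cons 0x5643789012 (.cons 0x5461237890 .nil)))) (.node 5 7 (.cons 0x9875621043 (.cons 0x3409875621 (.cons 0x5789012643 .nil))) (.node 0 5 (.cons 0x4509876123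 (.cons 0x2378905461 .nil)) (.node 0 8 (.cons 0x2345780961 (.cons 0x9087561234 (.cons 0x9087546123 .nil))) .done .done) .done) .done) (.node 3 7 (.cons 0x6543789012 (.cons 0x9873401265 .nil)) (.node 0 5 (.cons 0x9054378612 (.cons 0x9873216450 .nil)) (.node 1 5 (.cons 0x5104378962 (.cons 0x9043786215 (.cons 0x3768904512 (.cons 0x9873264051 .nil)))) .done .done) (.node 1 5 (.cons 0x9043786512 (.cons 0x7340986512 (.cons 0x9873215640 .nil))) (.leaf 0x2367890451 0 .done) (.node 1 5 (.cons 0x9873401562 (.cons 0x4098732651 .nil)) (.node 5 7 (.cons 0x9875621043 (.cons 0x3409875621 .nil)) (.node 1 4 (.cons 0x8901437562 (.cons 0x8751432690 .nil)) .done .done) (.node 2 8 (.cons 0x9826510437 (.cons 0x4516732890 .nil)) (.node 1 4 (.cons 0x9014378265 .nil) (.node 5 7 (.cons 0x8906754123 (.cons 0x9875621043 (.cons 0x5782690143 (.cons 0x3409875621 .nil)))) .done .done) (.leaf 0x9823761540 0 .done)) .done)) .done))) .done)) .done))) (.node 3 9 (.cons 0x8765409321 (.cons 0x8761239045 .nil))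 (.node 3 5 (.cons 0x7890126534 .nil) (.node 4 9 (.cons 0x7894356210 .nil) (.node 0 7 (.cons 0x9870126534 (.cons 0x5349870162 .nil)) (.node 2 9 (.cons 0x8763549210 (.cons 0x8704532961 .nil)) .done (.leaf 0x8701265349 0 .done)) (.node 0 2 (.cons 0x3549876120 .nil) (.node 1 3 (.cons 0x6789453120 (.cons 0x4987653120 .nil)) .done (.node 0 7 (.cons 0x1265349870 (.cons 0x4532078961 (.cons 0x2165349870 .nil))) (.node 2 9 (.cons 0x4356298701 (.cons 0x8702945361 .nil)) .done .done) .done)) .done)) (.node 0 2 (.cons 0x4532098761 .nil) (.node 0 5 (.cons 0x4509876123 .nil) (.node 2 7 (.cons 0x3456987201 .nil) (.node 0 8 (.cons 0x5432780961 (.cons 0x9087234561 .nil)) (.node 3 8 (.cons 0x2783456901 (.cons 0x9654387201 .nil)) (.leaf 0x7834569012 0 .done) .done) (.node 2 4 (.cons 0x8935427610 (.cons 0x8901672453 .nil)) .done .done)) .done) (.node 0 5 (.cons 0x4509876123 .nil) (.node 4 7 (.cons 0x2653478901 (.cons 0x5347890162 (.cons 0x3209874561 (.cons 0x3478905621 .nil)))) (.node 0 8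 (.cons 0x5476123980 (.cons 0x4765089321 .nil)) (.node 1 7 (.cons 0x9087165432 (.cons 0x6178902354 (.cons 0x6509871234 .nil))) .done .done) .done) .done) .done)) .done)) (.node 0 3 (.cons 0x4567890321 .nil) (.node 3 8 (.cons 0x9045678321 .nil) (.node 3 7 (.cons 0x6543789012 .nil) (.node 3 5 (.cons 0x7890126534 .nil) (.node 1 3 .nil (.node 0 2 (.cons 0x9873456102 (.cons 0x7896543102 (.cons 0x7890231654 .nil))) .done .done) .done) .done) (.node 3 7 (.cons 0x6543789012 .nil) (.node 2 9 (.cons 0x6543789210 (.cons 0x5409238761 (.cons 0x7832904561 .nil))) (.node 0 2 (.cons 0x4567389201 (.cons 0x7389201654 .nil)) .done .done) .done) .done)) (.node 3 7 (.cons 0x6543789012 .nil) (.node 3 8 (.cons 0x9045678321 .nil) (.node 3 5 (.cons 0x7890126534 .nil) (.node 1 3 .nil (.node 0 2 (.cons 0x5437896102 (.cons 0x4569873102 .nil)) .done .done) .done) .done) (.node 0 5 (.cons 0x6123789054 .nil) (.node 1 4 (.cons 0x4123987650 (.cons 0x8905412376 (.cons 0x5416789032 .nil))) .done .done)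 .done)) .done)) .done)) (.node 0 3 (.cons 0x4567890321 .nil) (.node 4 6 (.cons 0x5467890321 .nil) (.node 6 8 .nil (.node 2 7 (.cons 0x5430169872 (.cons 0x9012786543 (.cons 0x9012786345 .nil))) .done (.node 5 7 (.cons 0x9034578612 .nil) (.node 1 4 (.cons 0x9034126875 (.cons 0x3098675412 (.cons 0x8906754123 .nil))) .done (.leaf 0x6578904321 0 (.node 2 9 (.cons 0x5789264301 (.cons 0x8754361092 (.cons 0x1645789230 .nil))) (.node 1 7 (.cons 0x2986175430 (.cons 0x8617543092 (.cons 0x8906175432 (.cons 0x5617890432 .nil)))) .done .done) (.leaf 0x1234578906 0 .done)))) .done)) (.node 6 8 .nil (.node 2 7 (.cons 0x5430169872 (.cons 0x9012786543 (.cons 0x9012786345 .nil))) .done (.node 5 7 (.cons 0x5789034621 .nil) (.leaf 0x6578904321 0 (.node 4 8 (.cons 0x9012657843 .nil) (.node 0 5 (.cons 0x9054876321 .nil) (.node 3 9 (.cons 0x8457609321 (.cons 0x8457612390 (.cons 0x3905784612 .nil))) .done .done) .done) (.node 1 7 (.cons 0x8906175432 (.cons 0x5617890432 .nil)) (.node 2 9 (.cons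 0x5629871043 (.cons 0x7543016892 (.cons 0x8923457160 (.cons 0x3298716540 .nil)))) .done (.node 2 8 (.cons 0x1782345690 (.cons 0x5432871690 (.cons 0x9045617823 .nil))) .done .done)) (.leaf 0x1234578906 0 .done)))) .done)) .done)) (.node 1 3 (.cons 0x5409876132 .nil) (.node 1 7 (.cons 0x5617890432 .nil) (.node 2 8 (.cons 0x1782345690 (.cons 0x5432871690 (.cons 0x9045617823 .nil))) (.node 2 7 (.cons 0x2789654310 .nil) (.node 1 5 (.cons 0x8904516723 (.cons 0x6154098723 .nil)) .done .done) .done) (.node 0 2 (.cons 0x9876540231 (.cons 0x8716902345 (.cons 0x9876132045 .nil))) (.node 0 5 (.cons 0x6987132054 (.cons 0x8716905432 .nil)) .done .done) .done)) (.node 2 8 (.cons 0x7654098231 (.cons 0x7613289045 .nil)) (.node 0 7 (.cons 0x7013456982 (.cons 0x9823167045 .nil)) (.node 3 9 (.cons 0x7654013982 (.cons 0x5439610782 .nil)) .done .done) (.node 3 9 (.cons 0x7821093654 .nil) (.node 1 5 (.cons 0x2398761540 (.cons 0x8761540932 .nil)) (.node 0 5 (.cons 0x8761239054 .nil) (.node 1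 7 (.cons 0x6239871504 (.cons 0x9045617823 (.cons 0x4509632871 (.cons 0x5617890432 .nil)))) .done .done) .done) .done) .done)) .done)) .done)) .done))) (.node 6 8 .nil (.node 2 7 (.cons 0x9012786543 (.cons 0x9012786345 .nil)) (.node 0 3 (.cons 0x4567890321 (.cons 0x5430169872 .nil)) (.node 4 6 (.cons 0x5643098721 .nil) .done (.node 3 8 (.cons 0x9834560127 .nil) (.leaf 0x7834569012 0 (.node 1 4 (.cons 0x3214567890 (.cons 0x5690143872 (.cons 0x8903276541 .nil))) (.node 1 8 (.cons 0x5418723690 .nil) .done .done) .done)) .done)) (.node 3 7 (.cons 0x6543789012 (.cons 0x9860127345 .nil)) (.node 7 9 (.cons 0x8972106543 (.cons 0x5436879012 .nil)) (.node 1 3 (.cons 0x2789654310 (.cons 0x5431279860 .nil)) (.node 3 9 (.cons 0x6543987210 (.cons 0x7210689345 .nil)) .done .done) .done) (.node 2 9 (.cons 0x2987345610 (.cons 0x5437298601 .nil)) (.node 3 9 (.cons 0x6543987210 (.cons 0x7210689345 .nil)) (.node 0 3 (.cons 0x2789654301 .nil) (.node 2 5 (.cons 0x6987254301 (.cons 0x9687254301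 (.cons 0x7301689254 .nil))) .done .done) .done) (.node 1 4 (.cons 0x3214567890 (.cons 0x1456873290 (.cons 0x3729865410 (.cons 0x5410689273 .nil)))) .done .done)) .done)) .done)) (.node 4 6 .nil (.node 1 7 (.cons 0x6543217890 (.cons 0x5643217890 .nil)) (.node 0 3 (.cons 0x4567890321 (.cons 0x5467890321 .nil)) (.node 1 5 (.cons 0x7890321564 .nil) (.node 0 8 (.cons 0x2345690871 (.cons 0x6908715432 (.cons 0x9087156234 .nil))) (.node 0 2 (.cons 0x9021786543 (.cons 0x7896154320 .nil)) (.node 0 4 (.cons 0x6789045123 (.cons 0x7890432651 .nil)) .done .done) .done) (.node 2 7 (.cons 0x7215689034 (.cons 0x9872103465 .nil)) (.node 5 9 (.cons 0x1278634590 (.cons 0x8721095463 (.cons 0x5987216430 .nil))) .done .done) .done)) (.node 0 8 (.cons 0x2345690871 (.cons 0x9087123465 .nil)) (.node 5 9 (.cons 0x2345961780 (.cons 0x8095467123 (.cons 0x7809546321 (.cons 0x5908712643 .nil)))) .done (.node 0 5 (.cons 0x7890564321 .nil) (.node 0 7 (.cons 0x2345078961 (.cons 0x9870561234 .nil)) .done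 (.node 1 8 (.cons 0x9054678123 (.cons 0x9056432187 .nil)) (.node 1 4 (.cons 0x7654189032 (.cons 0x7814326905 .nil)) .done .done) .done)) .done)) .done)) (.node 0 5 (.cons 0x9054368712 (.cons 0x6450987123 .nil)) (.node 0 2 (.cons 0x9021786345 .nil) (.node 7 9 (.cons 0x5436879021 (.cons 0x8790564321 .nil)) (.node 1 3 (.cons 0x8796134502 (.cons 0x8790564312 .nil)) (.node 1 5 (.cons 0x7896154320 (.cons 0x8790215463 .nil)) .done .done) .done) (.node 3 5 (.cons 0x7890126534 (.cons 0x1789645320 (.cons 0x7120986453 (.cons 0x9871645320 .nil)))) .done .done)) (.node 3 5 (.cons 0x7890126534 (.cons 0x9871053462 .nil)) (.node 0 3 (.cons 0x4567890321 (.cons 0x5467890321 .nil)) (.node 2 5 (.cons 0x8710963452 (.cons 0x9871052643 (.cons 0x9034687125 (.cons 0x7125309864 .nil)))) .done .done) .done) .done)) .done)) .done) .done)) .done))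
noncomputable def tc9_1_5 : T := (.node 6 8 .nil (.node 2 7 (.cons 0x9012786543 (.cons 0x1654327890 .nil)) (.node 3 9 (.cons 0x6543987210 (.cons 0x7210689345 .nil)) (.node 5 7 (.cons 0x6123457890 (.cons 0x6893457210 (.cons 0x2754398610 .nil))) (.node 0 7 (.cons 0x8934561072 (.cons 0x9078654321 (.cons 0x9078612345 .nil))) (.node 4 8 (.cons 0x9348657012 (.cons 0x5709348612 .nil)) (.leaf 0x6123489075 0 .done) .done) (.leaf 0x4398601275 0 .done)) (.node 0 4 (.cons 0x5409876123 (.cons 0x9340127865 (.cons 0x5610439872 .nil))) .done .done)) (.node 0 5 (.cons 0x2789634501 (.cons 0x9054327861 .nil)) (.node 4 9 (.cons 0x3612789450 (.cons 0x7210549863 .nil)) (.leaf 0x5498723610 0 .done) .done) .done)) (.node 4 6 .nil (.node 0 5 (.cons 0x4509876123 (.cons 0x7890564321 (.cons 0x7890546123 .nil))) (.node 7 9 (.cons 0x3450978612 (.cons 0x8790564321 .nil)) (.node 3 8 (.cons 0x4387905621 (.cons 0x5097834612 .nil)) (.node 0 3 (.cons 0x4567890321 (.cons 0x5467890321 .nil)) (.node 2 7 (.cons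 0x9016543872 (.cons 0x9872103465 (.cons 0x8723450961 .nil))) .done .done) .done) .done) (.node 5 7 (.cons 0x6123457890 (.cons 0x5789012643 .nil)) (.node 0 3 (.cons 0x4567890321 (.cons 0x5467890321 (.cons 0x9875643012 .nil))) (.node 0 4 (.cons 0x9875621043 (.cons 0x9875043261 .nil)) .done .done) (.node 0 8 (.cons 0x2345780961 (.cons 0x9087564321 (.cons 0x9087546123 .nil))) .done (.leaf 0x1234578906 0 .done))) .done)) (.node 0 4 (.cons 0x5409876123 .nil) (.node 2 9 (.cons 0x5401298763 (.cons 0x7892104563 .nil)) (.node 1 7 (.cons 0x3456871290 .nil) (.node 0 2 (.cons 0x8710296543 (.cons 0x3204569871 .nil)) (.node 1 5 (.cons 0x3451786920 (.cons 0x8967154023 (.cons 0x7896320451 .nil))) .done .done) (.node 5 8 (.cons 0x4589067123 (.cons 0x9854067123 (.cons 0x9854063217 (.cons 0x7160985432 .nil)))) .done (.node 0 5 (.cons 0x9871236504 (.cons 0x4365017892 .nil)) (.node 4 8 (.cons 0x1784329650 (.cons 0x5096178432 (.cons 0x6509234871 .nil))) .done .done) .done))) (.node 1 9 (.cons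 0x7891236540 .nil) (.node 5 7 (.cons 0x9875621043 (.cons 0x5786219043 (.cons 0x5789104362 (.cons 0x5789126340 .nil)))) (.node 0 3 (.cons 0x6875430912 (.cons 0x8921036754 (.cons 0x5786430912 .nil))) (.node 1 8 (.cons 0x7654032981 (.cons 0x7560981234 (.cons 0x6457819032 .nil))) .done .done) .done) (.node 5 7 (.cons 0x8756432190 (.cons 0x6578912340 (.cons 0x2198756340 .nil))) (.node 3 9 (.cons 0x8756210934 (.cons 0x2168754390 .nil)) .done (.node 0 2 (.cons 0x8756190234 (.cons 0x9875436102 (.cons 0x4023657891 .nil))) .done .done)) .done)) .done)) (.node 5 7 (.cons 0x6123457890 .nil) (.node 1 9 (.cons 0x5789104362 (.cons 0x8756432190 .nil)) (.node 1 4 (.cons 0x8906754123 .nil) (.node 0 5 (.cons 0x1432698750 .nil) (.leaf 0x6987501432 0 (.node 3 9 (.cons 0x7893265041 (.cons 0x8932145760 (.cons 0x8756439012 .nil))) .done .done)) .done) (.node 1 3 (.cons 0x8756231904 (.cons 0x5409876132 (.cons 0x8756409132 .nil))) (.node 1 4 (.cons 0x3265789140 (.cons 0x8906754123 .nil)) .done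 .done) .done)) (.leaf 0x6578904321 0 (.node 1 7 (.cons 0x5617890432 .nil) (.node 0 8 (.cons 0x9806543217 (.cons 0x2345780961 (.cons 0x9087561234 .nil))) (.node 2 9 (.cons 0x5629871043 (.cons 0x7165408923 (.cons 0x3457861290 (.cons 0x3298716540 .nil)))) .done .done) (.node 0 2 (.cons 0x5436987102 (.cons 0x8716902345 (.cons 0x8754320961 (.cons 0x9871632045 .nil)))) .done .done)) (.node 1 7 (.cons 0x8906175432 (.cons 0x5617890432 .nil)) (.node 2 9 (.cons 0x5629871043 (.cons 0x2987543610 (.cons 0x3298716540 .nil))) (.node 0 8 (.cons 0x3298045671 (.cons 0x6175432980 (.cons 0x7165408923 .nil))) (.node 2 4 (.cons 0x7563429801 (.cons 0x7561089243 (.cons 0x5789016243 .nil))) .done .done) .done) (.node 2 8 (.cons 0x1782345690 (.cons 0x5432871690 (.cons 0x9045617823 .nil))) (.node 2 4 (.cons 0x3426578901 (.cons 0x5789016243 .nil)) (.node 2 9 (.cons 0x3456928710 (.cons 0x2987543610 (.cons 0x8716540923 .nil))) .done .done) .done) .done)) (.leaf 0x1234578906 0 .done))))) .done)) .done))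 .done)) (.node 6 8 .nil (.node 4 6 .nil (.node 1 7 (.cons 0x6543217890 (.cons 0x5643217890 .nil)) (.node 2 7 (.cons 0x9012786543 .nil) (.node 3 8 (.cons 0x5438960172 (.cons 0x9834560172 (.cons 0x9012783465 .nil))) .done (.node 3 5 (.cons 0x7890126534 (.cons 0x8901276453 (.cons 0x5346278901 (.cons 0x9012786435 .nil)))) .done .done)) (.node 0 5 (.cons 0x8716905432 (.cons 0x9054687123 .nil)) (.node 2 9 (.cons 0x6345017892 (.cons 0x7105436892 (.cons 0x1789236450 .nil))) (.leaf 0x543629871 0 .done) .done) .done)) (.node 7 9 (.cons 0x5432168790 .nil) (.node 2 7 (.cons 0x8972106543 (.cons 0x9012786543 (.cons 0x8972106345 .nil))) .done (.node 0 4 (.cons 0x8790432165 (.cons 0x5687904321 .nil)) (.node 1 5 (.cons 0x9876321540 (.cons 0x7986043215 (.cons 0x7689045123 .nil))) (.node 3 5 (.cons 0x6789045321 (.cons 0x4356879012 (.cons 0x7689045321 (.cons 0x4097861532 .nil)))) .done .done) (.node 0 7 (.cons 0x9078654321 (.cons 0x9078612345 .nil)) (.node 1 5 (.cons 0x7890432651 (.cons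 0x9870432651 .nil)) (.leaf 0x9786512340 0 (.node 4 8 (.cons 0x5607984321 (.cons 0x5123607984 .nil)) .done .done)) .done) .done)) (.node 0 2 (.cons 0x8790216543 (.cons 0x3456879021 .nil)) (.node 5 7 (.cons 0x8975436021 (.cons 0x3457986021 (.cons 0x9023457861 .nil))) (.node 1 3 (.cons 0x5467890213 (.cons 0x8609754312 (.cons 0x9021346875 .nil))) (.node 3 9 (.cons 0x8756210934 (.cons 0x6875439012 (.cons 0x5786439021 .nil))) .done .done) .done) (.node 2 8 (.cons 0x3456128790 .nil) (.node 2 7 (.cons 0x9012786543 .nil) (.node 1 3 (.cons 0x7982134560 (.cons 0x7289654310 (.cons 0x7289601345 (.cons 0x5643127890 .nil)))) .done (.node 0 5 (.cons 0x2789634501 (.cons 0x9054327861 .nil)) (.node 1 7 (.cons 0x6543217890 (.cons 0x9056871234 .nil)) (.node 2 9 (.cons 0x8729634501 (.cons 0x8692710543 .nil)) .done .done) .done) .done)) (.node 5 7 (.cons 0x1289754360 (.cons 0x3457906821 .nil)) (.node 2 7 (.cons 0x3457289601 (.cons 0x9012786543 .nil)) .done (.node 0 5 (.cons 0x9782163450 .nil)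 (.node 1 7 (.cons 0x5432871690 (.cons 0x9712860543 (.cons 0x2345096871 (.cons 0x9056871234 .nil)))) .done .done) .done)) .done)) .done)) .done))) .done)) (.node 4 6 .nil (.node 1 7 (.cons 0x6543217890 (.cons 0x5643217890 .nil)) (.node 1 4 (.cons 0x3214567890 .nil) (.node 1 5 (.cons 0x3215467890 .nil) (.node 0 4 (.cons 0x5178962340 (.cons 0x9871562340 .nil)) (.node 4 7 (.cons 0x8906745123 (.cons 0x1562347890 .nil)) (.node 7 9 (.cons 0x8971234560 (.cons 0x5126879043 (.cons 0x3409786512 .nil))) .done .done) .done) (.node 0 3 (.cons 0x4567890321 (.cons 0x5467890321 (.cons 0x7890321564 .nil))) (.node 1 8 (.cons 0x9032187654 (.cons 0x7815469032 .nil)) (.node 7 9 (.cons 0x8971234560 (.cons 0x3097864512 (.cons 0x8790321564 (.cons 0x5643097812 .nil)))) .done .done) (.node 3 7 (.cons 0x6543789012 (.cons 0x6451237890 (.cons 0x4651237890 .nil))) (.node 2 7 (.cons 0x8903276541 .nil) (.node 3 5 (.cons 0x3541276890 (.cons 0x8901276453 .nil)) .done .done) .done) .done)) .done)) (.node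 0 5 (.cons 0x9876321450 .nil) (.node 1 8 (.cons 0x7814326905 (.cons 0x9056432187 .nil)) (.node 3 5 (.cons 0x7890126534 (.cons 0x9053264187 .nil)) (.node 0 7 (.cons 0x7098621435 (.cons 0x2354698170 (.cons 0x7098123564 (.cons 0x7098146235 .nil)))) .done .done) .done) (.leaf 0x2178905643 0 (.node 1 3 (.cons 0x6789054132 (.cons 0x5098764132 .nil)) (.node 1 5 (.cons 0x4150987623 (.cons 0x7890514623 .nil)) .done .done) .done))) .done)) (.node 0 5 (.cons 0x8716905432 (.cons 0x9871236450 .nil)) (.node 0 2 (.cons 0x5436987102 .nil) (.node 3 9 (.cons 0x7861209345 (.cons 0x8764509321 (.cons 0x5093468712 .nil))) (.node 2 8 (.cons 0x5432871690 (.cons 0x7128645093 .nil)) (.node 1 8 (.cons 0x7816902345 (.cons 0x9056432187 (.cons 0x7182396450 .nil))) .done .done) .done) (.node 3 5 (.cons 0x4536987102 (.cons 0x7120986453 (.cons 0x6453209871 .nil))) .done .done)) (.node 2 9 (.cons 0x6345017892 (.cons 0x1789236450 .nil)) (.node 5 8 (.cons 0x2345871690 (.cons 0x7105892643 .nil)) (.node 0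 3 (.cons 0x4567890321 (.cons 0x2309645871 (.cons 0x5467890321 .nil))) (.node 2 5 (.cons 0x2543698710 (.cons 0x9871052643 (.cons 0x4690325871 .nil))) .done .done) .done) (.leaf 0x543629871 0 .done)) .done)) .done)) .done) .done)) .done))
noncomputable def tc9_1_6 : T := (.node 1 6 (.cons 0x5409876123 .nil) (.node 6 8 .nil (.node 1 7 (.cons 0x6543217890 (.cons 0x9043217865 (.cons 0x5409867123 .nil))) .done (.node 1 4 (.cons 0x5412367890 .nil) (.node 4 6 .nil (.node 1 7 (.cons 0x6543217890 (.cons 0x5643217890 (.cons 0x5463217890 .nil))) .done .done) (.node 0 7 (.cons 0x8907632145 (.cons 0x9870432165 .nil)) (.node 1 9 (.cons 0x3456870912 (.cons 0x5436870912 (.cons 0x8709123654 .nil))) (.node 0 5 (.cons 0x7891650432 .nil) (.node 1 7 (.cons 0x6543217890 (.cons 0x6321789054 .nil)) .done .done) .done) (.node 1 8 (.cons 0x7098143265 (.cons 0x5418907632 (.cons 0x7098145632 .nil))) (.node 2 9 (.cons 0x1654329870 (.cons 0x7043298165 (.cons 0x5436107892 (.cons 0x3298704561 .nil))))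 .done .done) .done)) .done)) .done)) (.node 1 7 (.cons 0x6543217890 .nil) (.leaf 0x2178904563 0 (.node 5 8 (.cons 0x2345871690 (.cons 0x9854067123 (.cons 0x7123609854 (.cons 0x9043261785 .nil)))) (.node 3 5 (.cons 0x5340178962 (.cons 0x2690435871 (.cons 0x8904532176 (.cons 0x9043587162 .nil)))) .done .done) (.node 5 7 (.cons 0x8906571234 (.cons 0x9875621043 (.cons 0x3409875621 .nil))) (.node 3 7 (.cons 0x9873401265 .nil) (.node 1 5 (.cons 0x8906732154 (.cons 0x5104378962 (.cons 0x8904512376 .nil))) (.node 0 5 (.cons 0x6509871234 .nil) (.node 4 6 (.cons 0x9873264051 (.cons 0x2154637890 .nil)) .done .done) .done) (.node 1 5 (.cons 0x4378901562 (.cons 0x9873401562 (.cons 0x4098732651 .nil))) (.node 0 7 (.cons 0x8907632154 .nil) .done .done) .done)) (.node 1 8 (.cons 0x9817560432 (.cons 0x9043261875 .nil)) (.leaf 0x3265718904 0 (.node 2 8 (.cons 0x4328906571 (.cons 0x9823406571 (.cons 0x9016345782 .nil))) .done .done)) .done)) .done))) .done)) (.node 1 4 (.cons 0x3214567890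 (.cons 0x5412367890 .nil)) (.node 1 8 (.cons 0x9045678123 (.cons 0x9045632187 .nil)) (.node 1 6 .nil (.node 5 7 (.cons 0x4576098123 (.cons 0x7543609812 (.cons 0x2345781690 (.cons 0x9043261875 .nil)))) (.leaf 0x1263457890 0 .done) (.node 1 7 (.cons 0x6543217890 .nil) (.node 1 3 (.cons 0x5409678132 .nil) (.node 1 5 (.cons 0x8715690432 (.cons 0x7815409632 .nil)) .done .done) .done) .done)) (.node 1 7 (.cons 0x6543217890 .nil) (.node 5 7 (.cons 0x2340965781 (.cons 0x9043657812 .nil)) (.leaf 0x1263457890 0 (.node 1 6 .nil (.node 0 2 (.cons 0x9875620143 (.cons 0x9875416320 .nil)) .done .done) .done)) (.node 5 8 (.cons 0x4589067123 (.cons 0x2369045871 (.cons 0x9043621785 .nil))) (.leaf 0x7123690458 0 (.node 0 5 (.cons 0x9850623417 (.cons 0x2369871450 .nil)) .done .done)) .done)) .done)) (.node 0 7 (.cons 0x8907654123 (.cons 0x8907632145 .nil)) (.node 2 4 (.cons 0x9870124365 (.cons 0x5421098763 .nil)) (.node 3 5 (.cons 0x2435698701 (.cons 0x8907653241 .nil)) (.node 1 3 (.cons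 0x5698701342 (.cons 0x8769013542 .nil)) (.node 4 9 (.cons 0x8763549012 (.cons 0x8765312490 .nil)) .done .done) (.node 6 8 (.cons 0x9865342107 (.cons 0x7098653421 .nil)) .done .done)) .done) (.node 2 8 (.cons 0x3289076541 (.cons 0x7098236541 .nil)) (.node 1 8 (.cons 0x9045678123 (.cons 0x5418907632 (.cons 0x7098145632 .nil))) (.node 2 4 (.cons 0x5670981423 (.cons 0x5421098763 .nil)) .done .done) (.node 5 7 (.cons 0x8907562341 (.cons 0x9826341075 (.cons 0x2875436901 (.cons 0x3675412890 .nil)))) .done .done)) .done)) .done)) (.node 1 4 (.cons 0x3214567890 (.cons 0x5412367890 .nil)) (.node 1 6 .nil (.node 1 7 (.cons 0x5617890432 (.cons 0x5409871632 .nil)) (.node 2 8 (.cons 0x1782345690 (.cons 0x5436901782 (.cons 0x9045632871 .nil))) (.node 1 5 (.cons 0x7890432651 (.cons 0x7890451632 .nil)) (.node 2 7 (.cons 0x7289634510 (.cons 0x8904516723 .nil)) .done .done) .done) .done) (.node 1 7 (.cons 0x6543217890 .nil) (.node 2 5 (.cons 0x2543698710 (.cons 0x8710963452 (.cons 0x8904523671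 (.cons 0x6325409871 .nil)))) (.leaf 0x1789063452 0 .done) (.node 0 5 (.cons 0x2341789650 (.cons 0x9871405632 .nil)) (.node 4 8 (.cons 0x7123489065 (.cons 0x9054876321 (.cons 0x9056348712 .nil))) .done .done) .done)) .done)) (.node 0 8 (.cons 0x9087654123 (.cons 0x9087632145 .nil)) (.node 1 6 .nil (.node 5 7 (.cons 0x9087563412 (.cons 0x9087561234 (.cons 0x9087561432 .nil))) (.leaf 0x1263457890 0 .done) (.node 1 7 (.cons 0x6543217890 .nil) (.node 2 5 (.cons 0x7809652341 (.cons 0x2543698710 (.cons 0x8710963452 (.cons 0x8904523671 (.cons 0x9871632540 .nil))))) .done (.node 1 5 (.cons 0x7890432651 (.cons 0x4098715632 .nil)) (.node 4 6 (.cons 0x5643217890 .nil) (.node 6 8 (.cons 0x7156890432 .nil) .done .done) .done) .done)) .done)) (.node 1 7 (.cons 0x6543217890 (.cons 0x5417809632 .nil)) (.node 1 6 .nil (.node 2 9 (.cons 0x3296541780 (.cons 0x7163298045 (.cons 0x1789236540 .nil))) .done .done) (.node 0 5 (.cons 0x6509871234 .nil) (.node 4 8 (.cons 0x7123489065 (.cons 0x9054876321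 (.cons 0x9056348712 .nil))) (.node 0 2 (.cons 0x9650234871 .nil) (.node 0 7 (.cons 0x9843217065 .nil) .done .done) .done) .done) .done)) .done)) (.node 0 7 (.cons 0x8907654123 (.cons 0x8907632145 .nil)) (.node 1 9 (.cons 0x8709123456 (.cons 0x8709123654 .nil)) (.node 5 8 (.cons 0x6321907854 (.cons 0x8541907632 (.cons 0x6345870912 .nil))) (.node 1 3 (.cons 0x7604589132 (.cons 0x6785409132 (.cons 0x7658904132 .nil))) .done (.leaf 0x1907854362 0 .done)) (.node 2 7 (.cons 0x5634019872 .nil) (.node 1 6 (.cons 0x5619872340 (.cons 0x8723409165 .nil)) .done (.node 1 5 (.cons 0x7890432651 (.cons 0x2789634510 (.cons 0x6327890451 .nil))) (.leaf 0x7890154362 0 .done) .done)) .done)) (.node 2 4 (.cons 0x9870124365 (.cons 0x5421098763 .nil)) (.node 3 5 (.cons 0x2435698701 (.cons 0x8907653241 .nil)) (.node 1 3 (.cons 0x5698701342 (.cons 0x8769013542 (.cons 0x5678904231 .nil))) .done (.node 4 8 (.cons 0x9842107653 (.cons 0x7635489012 (.cons 0x3567098421 .nil))) .done .done)) (.node 0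 3 (.cons 0x4567890321 .nil) (.node 4 9 (.cons 0x8765490321 .nil) (.node 5 8 (.cons 0x6785490321 (.cons 0x5894123670 (.cons 0x7098563214 (.cons 0x9078563421 .nil)))) (.node 2 7 (.cons 0x6589072341 (.cons 0x9856341072 (.cons 0x7263410985 .nil))) .done .done) (.node 1 5 (.cons 0x7890432651 (.cons 0x2156349870 (.cons 0x8709436512 (.cons 0x8709421563 .nil)))) .done .done)) (.node 5 7 (.cons 0x8903214576 (.cons 0x8907563412 .nil)) (.leaf 0x1263457890 0 (.node 2 8 (.cons 0x8230967541 (.cons 0x2875436901 .nil)) (.node 1 9 (.cons 0x8234196570 (.cons 0x2875436910 (.cons 0x9104365782 (.cons 0x7041982365 .nil)))) .done (.leaf 0x6341289075 0 .done)) (.node 1 8 (.cons 0x7562341890 (.cons 0x2367541890 (.cons 0x9018756342 (.cons 0x4189075632 .nil)))) (.node 2 9 (.cons 0x6754189230 (.cons 0x4576301892 (.cons 0x7543601892 (.cons 0x4189236570 .nil)))) .done .done) .done))) .done)) .done)) .done)) .done))) .done)))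
noncomputable def tc9_1_7 : T := (.node 2 7 (.cons 0x3456987210 (.cons 0x8721096543 .nil)) (.node 1 6 (.cons 0x1654327890 .nil) (.node 0 7 (.cons 0x8709654321 (.cons 0x5432169870 .nil)) (.node 1 7 (.cons 0x8712345690 .nil) (.node 5 8 (.cons 0x4589067123 (.cons 0x7123458960 (.cons 0x9854327160 .nil))) (.node 3 6 (.cons 0x4587123690 (.cons 0x4589063271 .nil)) .done (.node 0 3 (.cons 0x4567890321 (.cons 0x6903458712 (.cons 0x9854306127 (.cons 0x9854306172 .nil)))) .done .done)) .done) (.node 3 9 (.cons 0x8934561072 (.cons 0x2789345610 .nil)) (.node 0 2 (.cons 0x5432078961 .nil) (.leaf 0x1654398720 0 (.node 2 9 (.cons 0x8927016543 .nil) .done .done)) (.node 0 3 (.cons 0x4567890321 .nil) (.node 1 9 (.cons 0x8916543270 (.cons 0x8916072345 .nil)) (.node 4 8 (.cons 0x9165487032 (.cons 0x7845691230 (.cons 0x5487690321 (.cons 0x9165487230 (.cons 0x6548721903 .nil))))) .done .done) (.leaf 0x1278965430 0 .done)) .done)) .done)) (.node 0 7 (.cons 0x8709654321 (.cons 0x8709612345 .nil))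 (.node 3 5 (.cons 0x7890126534 (.cons 0x4356987012 (.cons 0x4356278901 .nil))) (.node 0 3 (.cons 0x4567890321 .nil) (.leaf 0x1278965430 0 (.node 1 7 (.cons 0x6543217890 .nil) (.node 1 4 (.cons 0x3214567890 (.cons 0x8903276541 .nil)) (.node 0 5 (.cons 0x6789054123 (.cons 0x6987145032 .nil)) .done .done) (.node 4 8 (.cons 0x5489067123 (.cons 0x9653487012 (.cons 0x1235487690 (.cons 0x5348710962 (.cons 0x5348712690 .nil))))) .done .done)) .done)) (.node 4 8 (.cons 0x4890765321 (.cons 0x6721098453 (.cons 0x7265348901 (.cons 0x6534890721 .nil)))) (.node 1 5 (.cons 0x9843215607 (.cons 0x4321569870 .nil)) (.leaf 0x6907843215 0 .done) .done) .done)) (.node 0 3 (.cons 0x4567890321 .nil) (.node 2 8 (.cons 0x9654301287 (.cons 0x5432870961 .nil)) (.node 1 4 (.cons 0x3214567890 (.cons 0x5416907823 .nil)) (.node 0 5 (.cons 0x9870562341 .nil) (.node 3 7 (.cons 0x6987321450 (.cons 0x4123789650 .nil)) (.leaf 0x5412378960 0 .done) .done) (.node 3 6 (.cons 0x9827014563 (.cons 0x7289014563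 .nil)) .done .done)) .done) (.leaf 0x1278965430 0 (.node 4 6 (.cons 0x9872103465 (.cons 0x5643098721 .nil)) (.node 3 7 (.cons 0x8734569012 .nil) (.node 3 6 .nil (.node 5 7 (.cons 0x8754321690 (.cons 0x8754369012 (.cons 0x8906345721 .nil))) .done .done) (.node 6 8 (.cons 0x9860127345 .nil) (.leaf 0x2734568901 0 .done) .done)) .done) .done))) .done)) .done)) (.node 3 6 (.cons 0x5436987210 (.cons 0x8721096345 .nil)) (.node 3 7 (.cons 0x6543789012 (.cons 0x8960127345 (.cons 0x8734569012 .nil))) (.node 1 7 (.cons 0x6543217890 (.cons 0x8712345690 .nil)) (.node 2 5 (.cons 0x6345278901 (.cons 0x4378965210 (.cons 0x8725436901 (.cons 0x8963452710 .nil)))) (.node 1 5 (.cons 0x6345109872 .nil) (.leaf 0x7890154362 0 (.node 2 8 (.cons 0x4510982763 (.cons 0x7289634510 .nil)) .done .done)) .done) .done) .done) .done) .done)) (.node 3 6 .nil (.node 0 4 (.cons 0x5409876321 .nil) tc9_1_6 (.node 1 6 .nil tc9_1_5 (.node 1 6 .nil tc9_1_4 .done))) (.node 6 8 .nil (.node 2 7 (.cons 0x9012786543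 .nil) (.node 1 6 (.cons 0x1654327890 .nil) (.node 0 7 (.cons 0x9078654321 .nil) (.node 5 9 (.cons 0x6123459870 (.cons 0x8954327061 .nil)) (.node 3 5 (.cons 0x7890126534 (.cons 0x7012689534 (.cons 0x4356278901 .nil))) (.node 3 6 (.cons 0x8954361072 .nil) .done .done) (.node 0 5 (.cons 0x3450789612 .nil) (.leaf 0x4321698705 0 (.node 1 9 (.cons 0x6198705432 (.cons 0x6198723450 (.cons 0x4327891650 .nil))) (.node 0 4 (.cons 0x9540786123 .nil) (.node 1 4 (.cons 0x6870954123 (.cons 0x7895041623 .nil)) .done .done) .done) .done)) .done)) (.node 7 9 (.cons 0x8972106543 .nil) (.node 1 7 (.cons 0x8609712345 .nil) .done (.node 1 5 (.cons 0x9078651234 (.cons 0x7098651234 .nil)) (.node 0 4 (.cons 0x9870432165 (.cons 0x8790432651 (.cons 0x6789045123 (.cons 0x7890432651 .nil)))) .done (.node 4 9 (.cons 0x5612349870 .nil) (.leaf 0x6512349078 0 (.node 0 5 (.cons 0x3216789450 (.cons 0x9432168705 (.cons 0x5016278943 .nil))) .done .done)) .done)) .done)) (.node 7 9 (.cons 0x8972106543 .nil)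 (.node 1 7 (.cons 0x8609712345 .nil) (.node 0 5 (.cons 0x6509871234 (.cons 0x9786123450 .nil)) (.node 2 5 (.cons 0x7986012543 (.cons 0x6879012543 (.cons 0x4325689071 .nil))) .done .done) .done) (.node 3 5 (.cons 0x7890126534 (.cons 0x8972106534 (.cons 0x4356879012 (.cons 0x4356278901 .nil)))) (.node 4 8 (.cons 0x6534897210 (.cons 0x6721098453 (.cons 0x2798435610 .nil))) (.leaf 0x2765348901 0 .done) .done) .done)) .done))) (.node 3 8 (.cons 0x9834560127 (.cons 0x5438721690 (.cons 0x9016543872 .nil))) (.node 7 9 (.cons 0x5432168790 .nil) (.node 3 5 (.cons 0x7890126534 (.cons 0x8972106534 (.cons 0x4356879012 (.cons 0x4356278901 .nil)))) (.node 4 8 (.cons 0x6534897210 (.cons 0x6721098453 (.cons 0x7265348901 (.cons 0x8435612790 .nil)))) .done .done) (.node 1 8 (.cons 0x1897234560 (.cons 0x8160972345 .nil)) (.node 0 8 (.cons 0x9087234561 .nil) (.node 1 5 (.cons 0x6089723451 (.cons 0x7908615432 .nil)) (.node 3 7 (.cons 0x9806732154 (.cons 0x6908734512 (.cons 0x8906732154 .nil)))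 .done .done) .done) .done) .done)) .done) .done)) (.node 3 7 (.cons 0x6543789012 (.cons 0x9860127345 .nil)) (.node 1 7 (.cons 0x6543217890 .nil) (.node 0 5 (.cons 0x3450968712 (.cons 0x9860543271 .nil)) (.node 1 6 (.cons 0x8734509612 .nil) (.node 4 7 (.cons 0x5621098743 (.cons 0x3478905621 .nil)) (.leaf 0x8905612347 0 .done) (.leaf 0x987162345 0 .done)) (.node 5 9 (.cons 0x1723459860 .nil) (.node 0 8 (.cons 0x8069543721 (.cons 0x6089543271 .nil)) (.node 4 6 (.cons 0x9564378012 (.cons 0x7809564321 (.cons 0x5980643271 .nil))) .done .done) (.leaf 0x4598601723 0 .done)) .done)) (.node 0 5 (.cons 0x6509871234 (.cons 0x9056871234 .nil)) (.node 0 2 (.cons 0x8734569021 (.cons 0x5437869021 .nil)) (.node 1 9 (.cons 0x6873219054 (.cons 0x4568732190 .nil)) (.node 0 8 (.cons 0x8069127345 (.cons 0x7234560891 .nil)) (.node 3 8 (.cons 0x7834569120 (.cons 0x8372196054 (.cons 0x1965438720 .nil))) .done .done) (.node 0 8 (.cons 0x5437219680 (.cons 0x9108654372 .nil)) (.leaf 0x3721908654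 0 .done) .done)) .done) (.node 1 9 (.cons 0x4327198650 (.cons 0x7234506891 (.cons 0x4568732190 .nil))) (.node 1 4 (.cons 0x7891432650 (.cons 0x9056871432 (.cons 0x8914506723 .nil))) (.node 0 8 (.cons 0x9086732145 (.cons 0x8056914372 (.cons 0x9086541237 .nil))) .done .done) .done) .done)) .done)) (.node 7 9 (.cons 0x8972106543 .nil) (.node 1 7 (.cons 0x6543217890 (.cons 0x8609712345 .nil)) .done (.node 4 9 (.cons 0x8943721065 (.cons 0x5689437210 .nil)) (.node 2 4 (.cons 0x9012437865 (.cons 0x7342109865 .nil)) (.node 3 5 (.cons 0x7890126534 (.cons 0x8942106735 (.cons 0x7862109435 (.cons 0x3549867210 .nil)))) (.node 1 5 (.cons 0x6278943510 (.cons 0x8734215690 (.cons 0x7268943510 (.cons 0x4986015372 .nil)))) (.leaf 0x689427351 0 .done) .done) .done) .done) .done)) (.node 7 9 (.cons 0x8972106543 .nil) (.node 1 6 (.cons 0x5432168790 .nil) (.node 3 6 (.cons 0x5436879012 .nil) .done .done) (.node 3 5 (.cons 0x8972106534 (.cons 0x4356879012 (.cons 0x4356897210 .nil))) (.node 2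 4 (.cons 0x5624378901 (.cons 0x9786534210 (.cons 0x7986534210 (.cons 0x7986012435 .nil)))) .done .done) .done)) .done))) (.node 3 6 (.cons 0x9012786345 .nil) (.node 0 5 (.cons 0x1278963450 (.cons 0x3450968721 .nil)) (.node 5 9 (.cons 0x6345987210 .nil) (.node 3 9 (.cons 0x6398721054 .nil) (.node 1 6 (.cons 0x7861239054 .nil) .done (.node 7 9 (.cons 0x8972106345 .nil) (.node 2 5 (.cons 0x8972543601 (.cons 0x3452798601 (.cons 0x7865210934 .nil))) .done .done) (.leaf 0x4390127865 0 .done))) (.node 0 2 (.cons 0x6345987201 (.cons 0x9543687201 .nil)) .done .done)) (.node 1 6 (.cons 0x9054327861 .nil) .done .done)) (.node 3 7 (.cons 0x6543789012 (.cons 0x9860127345 .nil)) (.node 1 7 (.cons 0x6543217890 .nil) (.node 2 9 (.cons 0x8927106345 (.cons 0x5436892710 .nil)) (.node 5 9 (.cons 0x8954360172 (.cons 0x1723459860 .nil)) (.leaf 0x4598601723 0 .done) .done) (.node 0 5 (.cons 0x6509871234 (.cons 0x3450968721 .nil)) (.node 0 2 (.cons 0x8734569021 .nil) (.node 2 5 (.cons 0x6345278901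 (.cons 0x7254368901 .nil)) (.node 1 9 (.cons 0x6345278910 (.cons 0x7254368910 (.cons 0x6873219054 (.cons 0x4568732190 .nil)))) .done .done) .done) (.node 1 5 (.cons 0x6345109872 (.cons 0x9860517234 (.cons 0x3451278690 (.cons 0x6890517234 .nil)))) (.node 0 4 (.cons 0x6327890451 (.cons 0x9043217865 (.cons 0x3786904512 .nil))) .done .done) .done)) .done)) (.node 0 3 (.cons 0x4567890321 (.cons 0x5430968721 .nil)) (.node 1 7 (.cons 0x6543217890 (.cons 0x5430968712 .nil)) (.node 5 9 (.cons 0x8954360172 (.cons 0x4598671230 (.cons 0x7123068954 (.cons 0x1723459860 .nil)))) .done .done) .done) .done)) .done)) .done))) (.node 1 6 .nil tc9_1_3 (.node 3 6 .nil tc9_1_2 .done))) .done)))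
noncomputable def uc9_1_1 : T := tc9_1_7
theorem sub_c9_1_1 : root 9 refs9_1 [] 0x700000008706000000006030000000030500406000504000000004030000000030100000400102000000002018006000010 0xfe7fff3fffb7ff87ffcfffe7fff5ffe9fff9febd 9 6 9 .nil uc9_1_1 = true := by decide +kernel
noncomputable def tc9_1_8 : T := (.node 1 5 .nil (.node 0 4 (.cons 0x6789045123 (.cons 0x9871562340 .nil)) (.node 3 9 (.cons 0x8765412390 (.cons 0x8932176540 (.cons 0x8760932154 .nil))) (.node 4 7 (.cons 0x1562347890 (.cons 0x8743906512 .nil)) (.node 5 8 (.cons 0x5893216740 (.cons 0x9321785604 (.cons 0x7432615890 (.cons 0x6093478512 .nil)))) .done .done) (.node 1 8 (.cons 0x4518760932 (.cons 0x5678140932 (.cons 0x7814093265 .nil))) .done .done)) (.node 7 9 (.cons 0x8790654321 (.cons 0x8790651234 (.cons 0x8971562340 .nil))) (.node 3 8 (.cons 0x9832176540 (.cons 0x6798321540 (.cons 0x9067832154 (.cons 0x7651238904 (.cons 0x8326790415 .nil))))) .done (.node 0 3 (.cons 0x4567890321 (.cons 0x6789032154 (.cons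 0x8790341562 .nil))) (.node 3 8 (.cons 0x5621798340 (.cons 0x4038976512 (.cons 0x6097834512 (.cons 0x2651798340 .nil)))) .done .done) .done)) .done)) (.node 1 8 (.cons 0x9065432187 .nil) (.node 1 9 .nil (.node 5 7 (.cons 0x8756234190 .nil) (.leaf 0x918754326 0 (.node 0 8 (.cons 0x9087654123 (.cons 0x6578091234 (.cons 0x4326578091 .nil))) (.node 4 8 (.cons 0x9012657843 (.cons 0x3487562190 .nil)) (.node 0 3 (.cons 0x4567890321 (.cons 0x7654891230 (.cons 0x9123067845 (.cons 0x8765419032 .nil)))) (.node 3 8 (.cons 0x9012657834 (.cons 0x2387654190 .nil)) .done .done) (.node 0 3 (.cons 0x4567890321 (.cons 0x6754819032 (.cons 0x8457619032 (.cons 0x5678419032 (.cons 0x8765419032 .nil))))) .done .done)) .done) (.node 1 3 (.cons 0x4312657890 .nil) (.node 3 8 (.cons 0x2657834190 .nil) (.node 0 4 (.cons 0x3409875621 (.cons 0x9832176540 (.cons 0x3890457612 (.cons 0x9041562387 .nil)))) .done (.node 0 4 (.cons 0x3409875621 (.cons 0x7562198340 (.cons 0x9123876045 .nil))) (.node 0 2 (.cons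 0x6578902134 (.cons 0x7654023891 (.cons 0x3891675402 (.cons 0x9140265783 .nil)))) .done .done) .done)) .done) .done))) (.node 1 3 .nil (.node 5 7 (.cons 0x8756091234 (.cons 0x4310987562 (.cons 0x4312657890 .nil))) (.node 4 7 (.cons 0x5621098743 (.cons 0x5621347890 .nil)) (.node 0 5 (.cons 0x8905476123 (.cons 0x8905476132 .nil)) (.node 5 9 (.cons 0x4590678123 (.cons 0x4590678132 (.cons 0x8743126095 .nil))) .done .done) (.node 0 2 (.cons 0x5476189023 (.cons 0x8902316745 (.cons 0x6547890231 .nil))) (.leaf 0x1345678902 0 .done) .done)) .done) .done) .done)) (.node 1 9 .nil (.node 4 7 (.cons 0x5621098743 (.cons 0x5609187432 .nil)) (.node 3 6 (.cons 0x6321547890 (.cons 0x8745190632 .nil)) (.node 0 5 (.cons 0x8905476123 (.cons 0x8912367450 (.cons 0x5019874362 .nil))) .done .done) (.node 5 7 (.cons 0x9065781234 (.cons 0x8756234190 .nil)) (.node 1 3 (.cons 0x5621347890 .nil) (.node 0 5 (.cons 0x3478905621 .nil) (.leaf 0x4789056213 0 (.node 4 6 (.cons 0x3150987462 (.cons 0x2319876450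 (.cons 0x2346578190 .nil))) .done .done)) .done) .done) .done)) (.node 1 3 .nil (.node 5 7 (.cons 0x9065781234 (.cons 0x4310987562 (.cons 0x4312657890 .nil))) (.node 4 7 (.cons 0x5621098743 (.cons 0x5621347890 .nil)) (.node 2 7 (.cons 0x6543109872 .nil) (.node 0 4 (.cons 0x9043218756 (.cons 0x7234098165 .nil)) (.node 0 5 (.cons 0x8905476123 (.cons 0x8905476132 .nil)) .done .done) .done) (.node 0 2 (.cons 0x7432098165 (.cons 0x8902316745 (.cons 0x6547890231 .nil))) (.leaf 0x1345678902 0 .done) .done)) .done) .done) .done)) .done)) .done)) (.node 7 9 (.cons 0x8790654321 .nil) (.node 0 7 .nil (.node 5 8 (.cons 0x4321658970 (.cons 0x9078562341 (.cons 0x9078562143 .nil))) (.leaf 0x1623458907 0 (.node 5 9 (.cons 0x8712345906 (.cons 0x8709562341 (.cons 0x8709562143 .nil))) (.node 3 6 (.cons 0x4123658790 (.cons 0x4589071632 .nil)) (.node 0 4 (.cons 0x4079856321 (.cons 0x8954076321 (.cons 0x9854071632 .nil))) .done .done) .done) .done)) (.node 1 9 (.cons 0x8709143265 .nil) (.node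 1 5 (.cons 0x8790651234 .nil) (.node 1 8 (.cons 0x7098165432 .nil) (.node 1 3 .nil (.node 2 4 (.cons 0x9870156243 (.cons 0x6542319870 (.cons 0x8907654231 (.cons 0x8907613245 .nil)))) .done .done) .done) .done) .done) .done)) (.node 0 7 .nil (.node 5 8 (.cons 0x1432658790 (.cons 0x9078562341 (.cons 0x9078562143 .nil))) (.leaf 0x6587901432 0 (.node 2 8 (.cons 0x5628790143 (.cons 0x1654328970 .nil)) (.node 1 5 (.cons 0x6097823451 (.cons 0x6154328970 .nil)) .done .done) .done)) (.node 6 9 .nil (.node 3 7 (.cons 0x6543789012 (.cons 0x8734569012 .nil)) (.node 2 7 (.cons 0x8721096543 .nil) (.node 0 8 (.cons 0x9087654123 (.cons 0x9654123780 (.cons 0x9801654372 .nil))) (.node 0 5 (.cons 0x8790562341 (.cons 0x4508967321 (.cons 0x8054169732 (.cons 0x8714326905 .nil)))) .done .done) .done) .done) (.node 6 8 (.cons 0x9068712345 .nil) (.node 4 6 .nil (.node 5 9 (.cons 0x9543217860 (.cons 0x5986432170 (.cons 0x8709564123 .nil))) .done (.node 3 6 .nil (.node 0 5 (.cons 0x8790562341 (.cons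 0x2364509871 .nil)) (.leaf 0x1789054362 0 (.node 2 5 (.cons 0x8709652143 (.cons 0x9871052634 (.cons 0x8712543690 (.cons 0x2543689710 .nil)))) (.leaf 0x987143625 0 .done) .done)) .done) .done)) (.node 3 6 .nil (.node 5 8 (.cons 0x1432658790 (.cons 0x9078563214 (.cons 0x9078563412 .nil))) (.leaf 0x6587901432 0 .done) (.node 4 6 .nil (.node 0 3 (.cons 0x4567890321 (.cons 0x8903217645 (.cons 0x5467890321 .nil))) (.node 0 5 (.cons 0x2178963450 (.cons 0x8905467123 (.cons 0x9871236450 .nil))) .done .done) .done) .done)) .done)) .done)) .done)) (.node 1 3 (.cons 0x8790654312 .nil) (.node 1 5 .nil (.node 3 8 (.cons 0x5621438790 (.cons 0x6097834512 (.cons 0x4387906512 (.cons 0x2651438790 .nil)))) .done (.node 1 8 (.cons 0x3456097812 .nil) (.node 1 9 .nil (.node 3 8 (.cons 0x5621438790 (.cons 0x2387654190 .nil)) (.node 4 7 (.cons 0x5476123890 (.cons 0x5609187432 .nil)) (.node 0 5 (.cons 0x9832167450 (.cons 0x8347912605 (.cons 0x2389167450 .nil))) .done .done) .done) .done) .done)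 .done)) (.node 4 7 (.cons 0x5621098743 .nil) (.node 2 7 .nil (.node 4 6 (.cons 0x5643109872 (.cons 0x5643127890 .nil)) (.node 0 5 (.cons 0x8790562143 (.cons 0x8905467123 (.cons 0x6450987123 (.cons 0x8905432716 .nil)))) .done .done) (.node 3 7 (.cons 0x6543789012 .nil) (.node 5 7 .nil (.node 0 7 (.cons 0x8907561234 .nil) .done .done) .done) .done)) (.node 1 8 (.cons 0x3456097812 .nil) (.node 1 5 (.cons 0x1562347890 .nil) (.node 1 9 .nil (.node 2 8 (.cons 0x3456097821 (.cons 0x6091547823 (.cons 0x3287456091 .nil))) .done .done) .done) (.node 1 9 .nil (.node 3 8 (.cons 0x5621438790 (.cons 0x2197834560 (.cons 0x2387654190 .nil))) (.node 0 3 (.cons 0x4567890321 (.cons 0x8765419032 .nil)) (.node 2 7 (.cons 0x3274561890 (.cons 0x8910347265 (.cons 0x8190327456 .nil))) .done .done) .done) .done) .done)) .done)) .done)) .done))) (.node 0 7 .nil (.node 5 8 (.cons 0x9065871234 (.cons 0x9078562341 (.cons 0x9078562143 .nil))) (.node 0 4 (.cons 0x9854076123 (.cons 0x9856170432 .nil))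 (.node 3 9 (.cons 0x8765412390 (.cons 0x7012658934 (.cons 0x4589321670 (.cons 0x4076589321 (.cons 0x9341078562 .nil))))) .done .done) (.node 5 9 (.cons 0x8709562341 (.cons 0x8709562143 .nil)) (.node 1 8 (.cons 0x9065432187 (.cons 0x4590678123 .nil)) (.node 0 4 (.cons 0x9540678123 .nil) (.node 1 5 (.cons 0x9815623407 .nil) .done (.leaf 0x7895604321 0 .done)) .done) (.node 0 5 (.cons 0x6509871234 .nil) (.node 3 5 (.cons 0x7890126534 (.cons 0x9870126534 .nil)) (.node 4 8 (.cons 0x7165098432 (.cons 0x6598432170 (.cons 0x5489076123 (.cons 0x5617098432 (.cons 0x9078435621 .nil))))) .done .done) .done) .done)) .done)) (.node 7 9 (.cons 0x8790654321 .nil) (.node 6 9 .nil (.node 5 8 (.cons 0x1432658790 (.cons 0x9607854321 (.cons 0x6907854123 (.cons 0x2341785690 (.cons 0x5870962143 .nil))))) .done (.node 6 8 (.cons 0x7098612345 .nil) (.node 4 6 (.cons 0x5643217890 .nil) (.node 3 6 .nil (.node 0 2 (.cons 0x5432079861 (.cons 0x8790236541 .nil)) (.node 1 8 (.cons 0x5623418790 (.cons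 0x2365418790 .nil)) (.leaf 0x3654187902 0 .done) .done) .done) .done) (.node 4 6 (.cons 0x5643217890 .nil) (.node 3 6 .nil (.node 5 8 (.cons 0x1432658790 (.cons 0x3690785412 (.cons 0x7098543612 .nil))) (.leaf 0x6587901432 0 .done) .done) .done) .done)) .done)) (.node 6 9 .nil (.node 5 8 (.cons 0x3412658790 (.cons 0x9607854321 (.cons 0x6907854123 (.cons 0x2341785690 (.cons 0x5870962143 .nil))))) .done (.node 3 6 .nil (.node 2 8 (.cons 0x3456097821 (.cons 0x5436128970 (.cons 0x5436097821 (.cons 0x3654128790 .nil)))) .done (.node 4 6 (.cons 0x5643217890 .nil) (.node 6 8 (.cons 0x7098612345 .nil) .done .done) .done)) .done)) .done)) (.node 7 9 (.cons 0x8790654321 .nil) (.node 1 9 (.cons 0x8709143265 .nil) (.node 1 5 .nil (.node 4 8 (.cons 0x5617098432 (.cons 0x5162348970 (.cons 0x9067845123 (.cons 0x9065178432 (.cons 0x5126097843 .nil))))) .done (.node 1 8 (.cons 0x7098165432 .nil) (.node 1 3 .nil (.node 2 4 (.cons 0x9870156243 (.cons 0x6542319870 (.cons 0x8907654231 (.cons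 0x8907613245 .nil)))) .done .done) .done) .done)) .done) (.node 1 3 (.cons 0x8790654312 .nil) (.node 1 5 .nil (.node 3 8 (.cons 0x5621438790 (.cons 0x6097834512 (.cons 0x4387906512 (.cons 0x2651438790 .nil)))) .done (.node 1 8 (.cons 0x3456097812 .nil) (.node 1 9 (.cons 0x8709143265 .nil) .done .done) .done)) (.node 1 9 (.cons 0x8709143265 .nil) (.node 1 8 (.cons 0x3456097812 .nil) (.node 1 5 .nil (.node 2 4 (.cons 0x9187065423 (.cons 0x9870156243 (.cons 0x3426518970 (.cons 0x8907615423 .nil)))) .done .done) .done) .done) .done)) .done)) .done))) .done)))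
noncomputable def tc9_1_9 : T := (.node 6 9 (.cons 0x8712345690 .nil) (.node 1 5 .nil (.node 0 7 (.cons 0x5143269870 (.cons 0x2341569870 .nil)) (.node 0 2 (.cons 0x8715432096 (.cons 0x3207896541 .nil)) (.node 0 4 (.cons 0x6789045123 (.cons 0x7890432651 .nil)) .done .done) (.node 2 7 (.cons 0x8907234561 (.cons 0x8907234516 .nil)) (.node 0 3 (.cons 0x9876541230 (.cons 0x6789032154 (.cons 0x4301569872 .nil))) (.node 0 5 (.cons 0x9870562341 .nil) (.leaf 0x2698705143 0 .done) .done) .done) .done)) (.node 1 8 (.cons 0x9065432187 .nil) (.node 4 6 .nil (.node 0 3 (.cons 0x9876541230 (.cons 0x5467890321 (.cons 0x7890321564 .nil))) (.leaf 0x2154678903 0 (.node 0 5 (.cons 0x7645098123 .nil) (.node 4 7 (.cons 0x3269874150 (.cons 0x7432618905 (.cons 0x3478905621 .nil))) .done .done) .done)) (.node 4 8 .nil (.node 0 3 (.cons 0x9876541230 (.cons 0x7654890321 (.cons 0x7612309845 (.cons 0x4871569032 (.cons 0x9032651784 .nil))))) .done (.node 4 7 (.cons 0x5621098743 .nil) (.node 0 4 (.cons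 0x9048715623 .nil) (.node 4 9 (.cons 0x3265178490 .nil) .done .done) .done) .done)) .done)) (.node 1 9 .nil (.node 4 8 (.cons 0x5487609123 (.cons 0x5623487190 .nil)) (.node 0 3 (.cons 0x9876541230 (.cons 0x7654890321 (.cons 0x7612309845 (.cons 0x4871569032 (.cons 0x9032651784 .nil))))) .done (.node 4 7 (.cons 0x5621098743 (.cons 0x5609187432 .nil)) (.node 0 5 (.cons 0x3269874150 (.cons 0x7891432650 .nil)) (.node 3 6 (.cons 0x6321547890 (.cons 0x8912367450 .nil)) .done .done) .done) .done)) (.node 1 3 .nil (.node 5 7 (.cons 0x9065781234 (.cons 0x4310987562 (.cons 0x4312657890 .nil))) (.node 0 2 (.cons 0x8754320691 (.cons 0x6987543102 (.cons 0x7896541320 .nil))) (.leaf 0x1345678902 0 .done) .done) .done) .done)) .done)) .done)) (.node 1 5 .nil (.node 0 4 (.cons 0x6789045123 (.cons 0x7890432651 .nil)) (.node 5 7 (.cons 0x9875621043 (.cons 0x3409875621 .nil)) (.node 0 7 (.cons 0x8907516234 .nil) (.node 5 9 (.cons 0x8956704123 (.cons 0x6598704123 .nil)) .done .done) .done)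 (.node 4 9 (.cons 0x8760945123 (.cons 0x8715623490 .nil)) (.node 0 3 (.cons 0x9876541230 (.cons 0x6789032154 (.cons 0x5678941230 .nil))) (.node 2 7 (.cons 0x5627894301 (.cons 0x8903276154 .nil)) (.leaf 0x8903415627 0 .done) .done) .done) .done)) (.node 1 8 (.cons 0x9065432187 .nil) (.node 5 9 (.cons 0x4590678123 .nil) (.node 0 5 .nil (.node 4 7 (.cons 0x5621098743 (.cons 0x8905476123 (.cons 0x3267418950 (.cons 0x3478905621 .nil)))) .done (.node 1 9 (.cons 0x7891432650 .nil) (.node 1 3 .nil (.node 0 7 (.cons 0x9870562341 (.cons 0x8950762314 .nil)) (.node 2 5 (.cons 0x3412569870 (.cons 0x4312569870 (.cons 0x8709652134 .nil))) .done .done) .done) .done) .done)) (.node 0 5 (.cons 0x9506234187 .nil) (.node 4 6 (.cons 0x7645098123 .nil) (.node 1 3 (.cons 0x4590678132 .nil) (.node 1 9 .nil (.node 0 7 (.cons 0x1432659870 (.cons 0x8706234195 (.cons 0x8706591432 (.cons 0x5623419870 .nil)))) .done .done) .done) .done) .done) .done)) (.node 1 9 .nil (.node 4 8 (.cons 0x5487609123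 (.cons 0x5623487190 .nil)) (.node 0 3 (.cons 0x9876541230 (.cons 0x7654890321 (.cons 0x7612309845 (.cons 0x5690348712 (.cons 0x9032651784 .nil))))) .done (.node 4 7 (.cons 0x5621098743 (.cons 0x5609187432 .nil)) (.node 0 5 (.cons 0x8905476123 (.cons 0x7891432650 .nil)) (.node 3 6 (.cons 0x6321547890 (.cons 0x8912367450 (.cons 0x8745190632 .nil))) .done .done) .done) .done)) (.node 1 3 .nil (.node 5 7 (.cons 0x9065781234 (.cons 0x4310987562 (.cons 0x4312657890 .nil))) (.node 0 4 (.cons 0x9875621043 (.cons 0x5789621340 .nil)) (.node 4 9 (.cons 0x3498756210 (.cons 0x2657894310 .nil)) .done (.leaf 0x6578904312 0 .done)) .done) .done) .done)) .done)) .done)) .done)) (.node 1 8 (.cons 0x9065432187 .nil) (.node 1 9 .nil (.node 4 7 (.cons 0x5621098743 (.cons 0x5609187432 .nil)) (.node 0 8 (.cons 0x6547809123 (.cons 0x5623478091 .nil)) (.node 7 9 (.cons 0x8097432165 (.cons 0x5618097432 .nil)) (.node 0 5 (.cons 0x7980562143 (.cons 0x7891432650 .nil)) (.node 3 8 (.cons 0x2197834560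 (.cons 0x9083216745 (.cons 0x9147832650 .nil))) .done .done) .done) (.node 3 5 (.cons 0x7890126534 (.cons 0x6780912354 (.cons 0x8091235476 (.cons 0x8091674532 .nil)))) (.node 3 8 (.cons 0x9083216745 (.cons 0x5476190832 .nil)) .done .done) .done)) (.node 1 3 (.cons 0x5621347890 .nil) (.node 4 8 (.cons 0x5487609123 .nil) (.node 5 9 (.cons 0x8459067123 (.cons 0x6095487123 (.cons 0x5906234871 (.cons 0x7843126590 .nil)))) .done (.node 1 5 (.cons 0x9062348715 .nil) (.node 0 5 (.cons 0x3478905621 (.cons 0x7891432650 .nil)) (.node 2 7 (.cons 0x6509812743 (.cons 0x7265019843 (.cons 0x4819056723 .nil))) .done .done) .done) .done)) .done) .done)) (.node 1 5 .nil (.node 4 8 (.cons 0x7845609123 (.cons 0x9067845123 (.cons 0x9062348715 .nil))) (.node 4 7 (.cons 0x8745609123 (.cons 0x1562347890 .nil)) (.node 3 8 (.cons 0x6547832190 (.cons 0x9067832154 (.cons 0x4783265190 .nil))) (.node 6 8 (.cons 0x9068712345 (.cons 0x9068715432 .nil)) .done .done) .done) .done) (.node 1 3 .nil (.node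 4 7 (.cons 0x8745609123 (.cons 0x8745609132 (.cons 0x5621347890 .nil))) (.node 5 7 (.cons 0x9065781234 (.cons 0x4310987562 (.cons 0x4312657890 .nil))) (.node 2 7 (.cons 0x6543109872 .nil) (.node 0 7 (.cons 0x8907234561 .nil) (.node 3 7 (.cons 0x8901654372 .nil) .done .done) .done) .done) .done) .done) .done)) .done)) (.node 1 5 .nil (.node 4 8 (.cons 0x9067845123 (.cons 0x9062348715 .nil)) (.node 1 9 (.cons 0x7843219065 .nil) .done (.node 3 9 (.cons 0x7812390654 (.cons 0x3906784512 (.cons 0x7843906512 (.cons 0x5178439062 .nil)))) (.node 4 7 (.cons 0x9065478123 (.cons 0x1562347890 .nil)) (.node 0 8 (.cons 0x7654123980 (.cons 0x5126748093 (.cons 0x3908476512 (.cons 0x9087432651 .nil)))) .done .done) .done) .done)) (.node 1 9 .nil (.node 4 8 (.cons 0x5487609123 (.cons 0x7843265190 .nil)) (.node 5 9 (.cons 0x8459067123 (.cons 0x6095487123 (.cons 0x6234871590 (.cons 0x5906217843 .nil)))) .done (.node 5 8 (.cons 0x6091785432 .nil) (.leaf 0x917854326 0 (.node 3 5 (.cons 0x7890126534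 (.cons 0x5348719062 .nil)) (.node 2 8 (.cons 0x9067128453 (.cons 0x7609128453 .nil)) .done .done) .done)) .done)) (.node 1 3 .nil (.node 7 9 (.cons 0x8790654321 (.cons 0x4560978132 (.cons 0x8790654312 .nil))) .done .done) .done)) .done)) .done)) (.node 4 6 (.cons 0x5643217890 .nil) (.node 1 8 (.cons 0x9065432187 .nil) (.node 4 8 .nil (.node 0 5 (.cons 0x2346509871 (.cons 0x4890567123 (.cons 0x7165098432 .nil))) (.node 1 3 (.cons 0x4650987132 (.cons 0x9056487132 .nil)) .done .done) (.node 1 3 .nil (.node 0 5 (.cons 0x2346509871 (.cons 0x7645098132 (.cons 0x4650987132 .nil))) (.node 2 4 (.cons 0x7618905423 (.cons 0x9054231876 (.cons 0x3176509842 (.cons 0x6789054231 .nil)))) .done .done) (.node 1 5 (.cons 0x2346517890 .nil) (.node 1 9 .nil (.node 0 7 (.cons 0x9078431265 (.cons 0x5623419870 .nil)) (.node 5 8 (.cons 0x5890716432 (.cons 0x9123458706 (.cons 0x9143260785 .nil))) .done .done) .done) .done) .done)) .done)) (.node 1 5 (.cons 0x2346517890 .nil) (.node 1 3 .nil (.node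 7 9 (.cons 0x8790654321 (.cons 0x5460978132 (.cons 0x4560978132 (.cons 0x8790654312 .nil)))) .done (.node 1 9 .nil (.node 0 8 (.cons 0x9087645132 (.cons 0x7809156432 (.cons 0x7809156234 .nil))) (.node 0 7 (.cons 0x5623419870 .nil) (.node 3 9 (.cons 0x8932145670 (.cons 0x4651870932 (.cons 0x5416708932 .nil))) .done .done) .done) .done) .done)) .done) .done)) (.node 1 8 (.cons 0x9065432187 .nil) (.node 4 8 .nil (.node 0 7 (.cons 0x5489076123 (.cons 0x5617098432 .nil)) (.node 3 5 (.cons 0x7890126534 (.cons 0x9870126534 (.cons 0x9078126435 (.cons 0x3546709812 (.cons 0x9870143562 .nil))))) .done .done) (.node 1 9 (.cons 0x5609178432 .nil) (.node 1 3 (.cons 0x7845609132 .nil) (.node 1 5 (.cons 0x9065178432 .nil) .done .done) .done) .done)) (.node 1 5 .nil (.node 0 4 (.cons 0x6789045123 (.cons 0x7890432651 .nil)) (.node 4 8 (.cons 0x9067845123 (.cons 0x9065178432 .nil)) .done (.leaf 0x3265178904 0 .done)) (.node 6 9 .nil (.node 4 8 (.cons 0x3215487690 (.cons 0x2348715690 .nil))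 (.node 1 9 (.cons 0x5487609123 .nil) .done .done) (.node 1 9 .nil (.node 4 8 (.cons 0x2348715690 (.cons 0x5487609123 (.cons 0x7843265190 .nil))) .done (.node 1 3 .nil (.node 0 2 (.cons 0x5698714320 (.cons 0x5467890213 (.cons 0x7896541320 .nil))) (.leaf 0x1345678902 0 .done) .done) .done)) .done)) .done)) .done)) .done)) .done)))
noncomputable def tc9_1_10 : T := (.node 1 4 (.cons 0x3214567890 .nil) (.node 1 5 .nil (.node 0 4 (.cons 0x6789045123 (.cons 0x7890432651 .nil)) (.node 3 7 (.cons 0x6543789012 (.cons 0x9873401265 (.cons 0x8904123765 (.cons 0x4378901562 .nil)))) (.node 4 6 (.cons 0x5109873462 (.cons 0x5126437890 .nil)) .done .done) .done) (.node 1 8 (.cons 0x9065432187 .nil) (.node 1 9 .nil (.node 0 4 (.cons 0x8719043265 .nil) (.node 5 7 (.cons 0x9875621043 (.cons 0x6091875432 (.cons 0x3409875621 .nil))) (.leaf 0x918754326 0 .done) (.node 0 7 (.cons 0x8907654123 (.cons 0x2345619870 .nil)) (.node 4 8 (.cons 0x5670984123 (.cons 0x9123487065 (.cons 0x5623487190 .nil)))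 (.node 0 5 (.cons 0x9056217843 (.cons 0x3487190562 .nil)) (.node 3 5 (.cons 0x9876123540 (.cons 0x6789123540 (.cons 0x7843562190 (.cons 0x2653487190 .nil)))) .done .done) .done) .done) .done)) (.node 1 3 .nil (.node 5 7 (.cons 0x8756091234 (.cons 0x4310987562 (.cons 0x4312657890 .nil))) (.node 0 4 (.cons 0x6578912340 .nil) (.node 4 7 (.cons 0x5621098743 (.cons 0x5621347890 .nil)) (.node 0 2 (.cons 0x5619874320 (.cons 0x9874561320 .nil)) (.leaf 0x1345678902 0 .done) .done) (.leaf 0x6578904312 0 .done)) .done) .done) .done)) (.node 1 9 .nil (.node 0 5 (.cons 0x8719056234 .nil) (.node 0 7 (.cons 0x9870543216 (.cons 0x9870561234 (.cons 0x2345619870 .nil))) .done (.node 0 7 (.cons 0x8907654123 (.cons 0x2345619870 .nil)) (.node 5 9 (.cons 0x8706195432 .nil) (.leaf 0x1234598706 0 .done) (.node 4 8 (.cons 0x5670984123 (.cons 0x9123487065 (.cons 0x5487609123 (.cons 0x5623487190 .nil)))) (.node 0 4 (.cons 0x9870432165 (.cons 0x5619870432 .nil)) (.node 3 5 (.cons 0x9876123540 (.cons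 0x6789123540 (.cons 0x7843562190 (.cons 0x2653487190 .nil)))) .done .done) .done) .done)) .done)) (.node 1 3 .nil (.node 5 7 (.cons 0x9065781234 (.cons 0x4310987562 (.cons 0x4312657890 .nil))) (.node 5 8 (.cons 0x4587609123 (.cons 0x4587609132 .nil)) (.node 4 7 (.cons 0x5621098743 (.cons 0x9062134785 (.cons 0x5874319062 (.cons 0x5621347890 .nil)))) .done .done) .done) .done) .done)) .done)) .done)) (.node 3 6 (.cons 0x5412367890 .nil) (.node 6 9 (.cons 0x8712345690 .nil) (.node 1 3 .nil (.node 0 2 (.cons 0x8713209654 .nil) (.node 3 5 (.cons 0x7896201435 (.cons 0x8769023541 (.cons 0x9876145320 .nil))) .done (.leaf 0x1345678902 0 (.node 5 7 (.cons 0x1698754320 (.cons 0x6987543102 (.cons 0x4310987562 (.cons 0x4312657890 .nil)))) .done .done))) (.node 3 9 (.cons 0x8760932145 .nil) (.node 0 3 (.cons 0x4567890321 .nil) (.node 3 7 (.cons 0x6543789012 .nil) (.node 3 8 (.cons 0x9067832145 .nil) .done .done) .done) .done) .done)) (.node 1 8 (.cons 0x9065432187 .nil) (.node 1 3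 .nil (.node 5 7 (.cons 0x9065781234 (.cons 0x4310987562 (.cons 0x4312657890 .nil))) (.node 0 2 (.cons 0x8712096543 (.cons 0x6987543120 .nil)) (.leaf 0x1345678902 0 (.node 0 8 (.cons 0x3456908712 (.cons 0x9608754312 (.cons 0x7541369802 .nil))) .done .done)) .done) .done) (.node 1 5 .nil (.node 7 9 (.cons 0x8790654321 (.cons 0x8790651234 (.cons 0x8790623415 .nil))) (.node 0 5 (.cons 0x4150987623 .nil) (.leaf 0x1432678905 0 (.node 4 6 (.cons 0x5460978123 (.cons 0x7890514623 .nil)) .done .done)) .done) (.node 5 9 (.cons 0x8760954123 .nil) (.node 0 5 (.cons 0x6789054123 .nil) (.node 1 3 (.cons 0x6789054132 .nil) (.node 1 9 (.cons 0x8719056234 .nil) .done .done) .done) (.node 1 3 (.cons 0x8760954132 .nil) (.node 1 9 .nil (.node 0 7 (.cons 0x7098123654 (.cons 0x8706195432 (.cons 0x2345619870 .nil))) (.node 2 8 (.cons 0x8236714590 (.cons 0x4328706591 (.cons 0x7823459160 .nil))) .done .done) .done) .done) .done)) .done)) .done)) .done)) (.node 6 8 .nil (.node 0 5 (.cons 0x2367890541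 (.cons 0x7689054123 (.cons 0x9054178632 .nil))) (.node 2 9 (.cons 0x3298761450 (.cons 0x8671450923 (.cons 0x5436871092 (.cons 0x5417863290 .nil)))) .done .done) (.node 6 9 (.cons 0x8712345690 .nil) (.node 4 6 .nil (.node 3 9 (.cons 0x2178654390 .nil) (.node 2 5 (.cons 0x6871254390 (.cons 0x3987645210 (.cons 0x8764521093 (.cons 0x8710936452 .nil)))) (.node 3 7 (.cons 0x6543789012 (.cons 0x8937645210 (.cons 0x5643789012 .nil))) .done .done) (.node 0 3 (.cons 0x4567890321 (.cons 0x5467890321 .nil)) (.node 0 4 (.cons 0x8712390465 .nil) (.node 0 5 (.cons 0x2367890541 (.cons 0x8712390564 .nil)) .done .done) .done) .done)) .done) .done) .done)) .done)) .done)) (.node 6 8 (.cons 0x9068712345 .nil) (.node 1 4 (.cons 0x3214567890 .nil) (.node 1 5 (.cons 0x9068715432 .nil) (.node 0 7 (.cons 0x6890715432 .nil) (.node 1 3 .nil (.node 0 2 (.cons 0x4517689023 (.cons 0x7689023154 (.cons 0x9023145687 .nil))) (.leaf 0x1345678902 0 .done) (.node 1 8 (.cons 0x9065432187 .nil) (.node 1 9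 (.cons 0x5687091432 .nil) .done .done) .done)) (.leaf 0x1543268907 0 .done)) (.node 1 8 (.cons 0x9065432187 .nil) (.node 5 9 (.cons 0x2345906871 .nil) (.node 1 9 .nil (.node 0 7 (.cons 0x2345986170 (.cons 0x5687091432 (.cons 0x2345619870 .nil))) .done .done) (.node 0 5 (.cons 0x4326178950 .nil) (.node 1 3 (.cons 0x4509867132 .nil) (.node 1 9 .nil (.node 0 7 (.cons 0x8709562341 (.cons 0x5687091432 (.cons 0x2345619870 .nil))) .done .done) .done) .done) (.leaf 0x954321786 0 .done))) .done) .done)) (.node 3 6 .nil (.node 0 5 (.cons 0x7143268905 (.cons 0x7145098632 (.cons 0x8905417632 .nil))) (.leaf 0x1789054362 0 .done) (.node 6 9 .nil (.node 2 7 (.cons 0x5436890172 (.cons 0x3456987210 (.cons 0x8721096543 .nil))) .done (.node 4 6 .nil (.node 0 5 (.cons 0x7143268905 (.cons 0x8905467123 (.cons 0x6450987123 .nil))) (.node 0 3 (.cons 0x4567890321 (.cons 0x5467890321 .nil)) (.node 0 7 (.cons 0x8907654123 .nil) .done .done) .done) .done) .done)) .done)) .done)) (.node 1 4 (.cons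 0x3214567890 .nil) (.node 1 8 (.cons 0x9065432187 .nil) (.node 1 3 .nil (.node 4 7 (.cons 0x5621098743 (.cons 0x5621347890 .nil)) (.node 5 7 (.cons 0x9065781234 (.cons 0x4310987562 (.cons 0x4312657890 .nil))) (.node 2 7 (.cons 0x7213456890 .nil) (.node 0 2 (.cons 0x9021345786 .nil) (.leaf 0x1345678902 0 (.node 3 9 (.cons 0x7456893120 (.cons 0x5439068721 (.cons 0x5687214390 (.cons 0x2789345610 .nil)))) .done .done)) .done) .done) (.node 0 8 (.cons 0x9087654123 (.cons 0x9087413265 (.cons 0x9087654132 .nil))) (.node 2 9 (.cons 0x5609234781 (.cons 0x5476132980 (.cons 0x7860921345 (.cons 0x8745609231 .nil)))) .done .done) .done)) (.node 0 7 (.cons 0x7098654312 .nil) (.node 0 3 (.cons 0x4567890321 .nil) (.node 1 5 (.cons 0x6789032154 .nil) (.node 1 9 .nil (.node 2 7 (.cons 0x7213456890 (.cons 0x9127860345 (.cons 0x3456872190 .nil))) .done .done) .done) (.node 3 6 .nil (.node 0 5 (.cons 0x9870561234 (.cons 0x6321789054 .nil)) (.leaf 0x1789054362 0 .done) .done) .done)) (.node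 1 9 (.cons 0x2345619870 .nil) (.node 1 5 .nil (.node 2 4 (.cons 0x3245619870 (.cons 0x9870156243 (.cons 0x5170986243 (.cons 0x7098624315 .nil)))) .done .done) .done) .done)) .done)) (.node 1 5 .nil (.node 7 9 (.cons 0x8790654321 (.cons 0x8790651234 .nil)) (.node 2 8 (.cons 0x5628790143 (.cons 0x9782345160 .nil)) (.leaf 0x3287906514 0 .done) (.node 2 8 (.cons 0x3456097821 (.cons 0x6097821543 .nil)) (.node 3 8 (.cons 0x5621438790 (.cons 0x6097834512 (.cons 0x4387906512 (.cons 0x2651438790 .nil)))) .done .done) .done)) (.node 1 9 .nil (.node 5 8 (.cons 0x7856234190 .nil) (.leaf 0x917854326 0 (.node 6 9 (.cons 0x2345871960 .nil) (.node 4 9 (.cons 0x3219458760 (.cons 0x5871943260 .nil)) (.node 0 3 (.cons 0x4589671230 (.cons 0x3067854912 (.cons 0x7856034912 (.cons 0x8765419032 .nil)))) (.leaf 0x5876032194 0 .done) .done) .done) .done)) (.node 1 3 .nil (.node 7 9 (.cons 0x8790654321 (.cons 0x4560978132 (.cons 0x8790654312 .nil))) .done .done) .done)) .done)) .done)) (.node 0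 7 (.cons 0x8907654123 .nil) (.node 0 4 (.cons 0x9870432165 .nil) (.node 0 3 (.cons 0x4567890321 .nil) (.node 3 6 (.cons 0x5409876321 .nil) (.node 4 6 (.cons 0x8903217645 .nil) .done .done) (.node 3 6 (.cons 0x5409876321 .nil) (.node 4 6 .nil (.node 0 5 (.cons 0x9870561234 (.cons 0x8905467123 (.cons 0x9871645032 .nil))) .done (.node 6 9 .nil (.node 1 5 (.cons 0x9876154032 (.cons 0x8769045123 (.cons 0x7896154032 .nil))) .done .done) .done)) .done) .done)) (.node 4 6 .nil (.node 0 3 (.cons 0x4567890321 (.cons 0x8903217645 (.cons 0x5467890321 .nil))) .done .done) .done)) (.node 0 4 .nil (.node 1 9 (.cons 0x2345619870 (.cons 0x5619870432 .nil)) (.node 3 7 (.cons 0x6543789012 (.cons 0x9873401265 (.cons 0x3786540912 (.cons 0x8904123765 .nil)))) .done .done) (.node 0 3 (.cons 0x4567890321 .nil) (.node 3 6 (.cons 0x5409876321 .nil) (.node 4 6 (.cons 0x8903217645 .nil) .done .done) (.node 1 3 (.cons 0x8907654132 .nil) (.node 1 5 (.cons 0x6789045123 .nil) (.node 1 8 (.cons 0x7098143265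 .nil) (.node 1 9 (.cons 0x2345619870 .nil) .done .done) .done) .done) .done)) .done)) .done)) .done)) .done)) (.node 1 8 (.cons 0x9065432187 .nil) (.node 1 4 (.cons 0x3214567890 .nil) (.node 1 3 .nil (.node 7 9 (.cons 0x8790654321 (.cons 0x8790654312 .nil)) (.node 4 7 (.cons 0x5621098743 (.cons 0x5621347890 .nil)) (.node 4 9 (.cons 0x5490678123 (.cons 0x5490678132 .nil)) (.node 5 8 (.cons 0x9785432160 (.cons 0x7609458132 (.cons 0x6097854312 .nil))) (.node 0 7 (.cons 0x6589432170 (.cons 0x7013498562 .nil)) .done (.node 0 7 (.cons 0x8549706123 (.cons 0x1326589470 .nil)) .done .done)) (.node 5 7 (.cons 0x5781260943 (.cons 0x8756213490 (.cons 0x5781349062 (.cons 0x4312657890 .nil)))) .done .done)) (.node 0 5 (.cons 0x6509871234 (.cons 0x6745098132 (.cons 0x4789056231 .nil))) (.node 0 2 (.cons 0x9871650234 (.cons 0x8976132054 (.cons 0x9876132054 (.cons 0x9874561320 .nil)))) .done .done) .done)) (.node 2 8 (.cons 0x5628790143 (.cons 0x6541328790 .nil)) (.leaf 0x3287906541 0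 .done) .done)) (.node 1 5 .nil (.node 0 4 (.cons 0x6789045123 (.cons 0x7890432651 .nil)) (.node 3 9 (.cons 0x8765412390 (.cons 0x8760932154 (.cons 0x4518760932 .nil))) (.leaf 0x2390456781 0 .done) (.leaf 0x3265178904 0 .done)) (.node 1 9 .nil (.node 0 7 (.cons 0x2345619870 .nil) (.node 5 9 (.cons 0x8709562341 (.cons 0x8709562143 .nil)) (.node 0 5 (.cons 0x7059816234 .nil) .done .done) (.node 0 5 (.cons 0x6509871234 (.cons 0x6198705432 .nil)) (.node 5 9 (.cons 0x8706195432 .nil) (.leaf 0x1234598706 0 .done) .done) .done)) .done) .done)) .done)) (.node 0 7 (.cons 0x8907654123 .nil) (.node 0 4 .nil (.node 3 6 (.cons 0x8907632145 (.cons 0x7632189045 .nil)) (.node 2 5 (.cons 0x7632541890 (.cons 0x9871043652 (.cons 0x9045236781 (.cons 0x7632540981 (.cons 0x9870452361 .nil))))) .done .done) (.node 4 6 (.cons 0x5643217890 .nil) (.node 4 9 (.cons 0x5490678123 .nil) (.node 1 9 .nil (.node 1 3 (.cons 0x8765409132 .nil) .done (.node 2 9 (.cons 0x5617892340 .nil) (.node 1 3 (.cons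 0x8923167045 .nil) (.node 1 5 (.cons 0x7890432651 .nil) .done .done) .done) .done)) .done) .done) .done)) (.node 1 9 (.cons 0x2345619870 .nil) (.node 1 3 (.cons 0x8907654132 .nil) (.node 1 5 .nil (.node 4 9 (.cons 0x5490678123 (.cons 0x5162349870 (.cons 0x8715609432 (.cons 0x8709431562 .nil)))) .done .done) .done) .done) .done)) .done)) (.node 0 7 .nil (.node 3 6 (.cons 0x7098123654 .nil) (.node 1 4 (.cons 0x3214567890 (.cons 0x8907654123 (.cons 0x5412367890 .nil))) (.node 5 8 (.cons 0x9065871234 (.cons 0x9078562341 (.cons 0x9078562143 .nil))) (.node 4 9 (.cons 0x9432178560 (.cons 0x6589432170 (.cons 0x7812360945 .nil))) (.leaf 0x7123490658 0 (.node 7 9 (.cons 0x9785436012 (.cons 0x2365418790 .nil)) .done .done)) .done) .done) (.node 1 4 (.cons 0x3214567890 (.cons 0x9078145632 (.cons 0x7098145632 .nil))) (.node 4 6 (.cons 0x5643217890 (.cons 0x8907123465 .nil)) (.node 6 8 (.cons 0x9078654321 .nil) (.node 6 9 (.cons 0x1234569870 .nil) (.leaf 0x5690781234 0 .done) .done)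 .done) .done) .done)) (.node 7 9 (.cons 0x8790654321 .nil) (.node 5 9 (.cons 0x6123459870 .nil) (.node 6 9 (.cons 0x5432169870 .nil) (.node 4 9 (.cons 0x8712349065 .nil) (.node 1 9 .nil (.node 2 8 (.cons 0x8234597061 (.cons 0x1978234560 (.cons 0x5432879160 .nil))) .done .done) .done) .done) (.node 0 5 (.cons 0x6509871234 .nil) (.node 0 4 (.cons 0x8971650432 .nil) (.node 1 5 (.cons 0x7890432651 .nil) (.node 2 5 (.cons 0x9871652340 .nil) (.node 2 8 (.cons 0x4328971650 .nil) (.node 2 9 (.cons 0x5617892340 .nil) (.node 0 3 (.cons 0x4567890321 .nil) (.node 0 8 (.cons 0x8079234516 .nil) .done .done) .done) .done) .done) .done) .done) (.node 0 4 (.cons 0x9871650432 .nil) (.node 0 3 (.cons 0x4567890321 .nil) (.node 0 8 (.cons 0x5617980432 .nil) .done .done) .done) .done)) (.leaf 0x1234598706 0 .done))) (.node 6 9 (.cons 0x5432169870 .nil) (.node 3 6 .nil (.node 2 8 (.cons 0x3456097821 (.cons 0x7012896345 (.cons 0x5436097821 .nil))) .done (.node 4 6 (.cons 0x5643217890 .nil) (.node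 6 8 .nil (.node 1 9 (.cons 0x7860912345 .nil) (.node 0 5 (.cons 0x3465098712 (.cons 0x3450798612 (.cons 0x4507891632 (.cons 0x6198705432 .nil)))) .done .done) .done) .done) .done)) (.node 3 6 .nil (.node 1 4 (.cons 0x3214567890 (.cons 0x5418709632 (.cons 0x8907632145 (.cons 0x5412367890 .nil)))) .done (.node 4 6 (.cons 0x5643217890 .nil) (.node 6 8 .nil (.node 1 3 (.cons 0x8790654312 (.cons 0x2134568790 .nil)) (.node 2 5 (.cons 0x3465217890 (.cons 0x1254368970 (.cons 0x7869013452 (.cons 0x3452168970 .nil)))) (.node 0 2 (.cons 0x5432078961 .nil) (.node 0 5 (.cons 0x2345078961 (.cons 0x7986134502 .nil)) .done .done) .done) .done) .done) .done) .done)) .done)) .done)) (.node 1 9 (.cons 0x2345619870 .nil) (.node 1 5 .nil (.node 0 4 (.cons 0x6789045123 .nil) (.node 2 9 (.cons 0x1654329870 (.cons 0x6154329870 (.cons 0x3298704561 .nil))) .done (.leaf 0x3265178904 0 .done)) (.node 1 4 (.cons 0x3214567890 .nil) (.node 1 3 .nil (.node 0 2 (.cons 0x9870234561 (.cons 0x9870231654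 .nil)) (.leaf 0x1345678902 0 (.node 2 9 (.cons 0x1654329870 (.cons 0x4561329870 .nil)) .done .done)) .done) .done) .done)) (.node 7 9 (.cons 0x8790654321 .nil) (.node 4 9 (.cons 0x8712349065 .nil) (.node 1 4 (.cons 0x3214567890 .nil) (.node 1 3 (.cons 0x8790654312 .nil) (.node 1 5 .nil (.node 2 8 (.cons 0x3456097821 (.cons 0x4315628970 (.cons 0x3289451670 .nil))) .done .done) .done) .done) (.node 6 9 .nil (.node 2 8 (.cons 0x3456097821 (.cons 0x5432870691 .nil)) (.node 5 7 (.cons 0x8754321906 (.cons 0x8754321960 (.cons 0x6901287543 .nil))) .done .done) (.node 2 9 (.cons 0x1654329870 .nil) (.node 5 9 (.cons 0x8706195432 .nil) .done .done) .done)) .done)) .done) .done)) .done))) .done)) .done)))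
noncomputable def tc9_1_11 : T := (.node 5 7 (.cons 0x9875621043 (.cons 0x3409875621 .nil)) (.node 1 9 (.cons 0x8754321906 (.cons 0x8756091234 .nil)) (.node 4 8 (.cons 0x8457609123 .nil) (.node 0 7 (.cons 0x5670489123 (.cons 0x1984326570 .nil)) (.node 3 6 (.cons 0x8912367045 (.cons 0x9843621075 (.cons 0x5701984362 .nil))) .done .done) (.node 1 3 (.cons 0x9013487562 (.cons 0x8457609132 .nil)) (.node 0 2 (.cons 0x9843102657 (.cons 0x6754891320 .nil)) (.node 6 9 (.cons 0x7896540231 (.cons 0x7896540213 .nil)) .done .done) (.node 2 7 (.cons 0x5672319840 (.cons 0x8409132765 .nil)) (.node 3 6 (.cons 0x5726348910 (.cons 0x5726348901 (.cons 0x5436109872 .nil))) .done .done) .done)) (.node 3 7 (.cons 0x8912376540 (.cons 0x8437562190 (.cons 0x8437560912 .nil))) (.node 3 5 (.cons 0x5376219840 (.cons 0x8409126735 (.cons 0x2167354890 .nil))) (.node 2 8 (.cons 0x2845376091 (.cons 0x6735401982 (.cons 0x7534826091 (.cons 0x6091284573 .nil)))) .done .done) (.node 1 5 (.cons 0x9873401562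 (.cons 0x4098732651 .nil)) (.node 2 8 (.cons 0x7348265190 (.cons 0x4375628910 (.cons 0x6284375190 .nil))) (.node 0 2 (.cons 0x8437519026 .nil) (.node 1 8 (.cons 0x9810265734 (.cons 0x5734819062 (.cons 0x9065781234 .nil))) .done .done) .done) .done) .done)) .done))) (.node 1 8 (.cons 0x9065781234 .nil) (.node 7 9 (.cons 0x8790612345 (.cons 0x9781234065 .nil)) (.node 1 5 (.cons 0x9781562340 (.cons 0x7981562340 .nil)) .done (.node 3 5 (.cons 0x9781265340 (.cons 0x7981265340 .nil)) (.node 2 9 (.cons 0x6789210453 .nil) (.leaf 0x8765340129 0 (.node 0 3 (.cons 0x3045679812 (.cons 0x8129754306 (.cons 0x8129756034 (.cons 0x7654032981 .nil)))) .done .done)) (.leaf 0x4356218790 0 .done)) .done)) (.node 3 6 (.cons 0x7891236540 (.cons 0x4576321890 (.cons 0x4578190632 .nil))) .done .done)) .done)) (.node 0 8 (.cons 0x9087543216 (.cons 0x9087561234 .nil)) (.node 1 8 (.cons 0x9043218756 .nil) (.node 7 9 (.cons 0x9781234560 (.cons 0x8790612345 (.cons 0x9781234065 .nil))) (.node 0 2 (.cons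 0x7981654320 (.cons 0x9781602345 .nil)) .done (.node 3 9 (.cons 0x2187934560 (.cons 0x8126579340 (.cons 0x6123908754 (.cons 0x5604397812 (.cons 0x9340187562 .nil))))) .done .done)) (.node 3 9 (.cons 0x8756210934 (.cons 0x8123904576 (.cons 0x6123908754 .nil))) (.leaf 0x2390456781 0 (.node 0 5 (.cons 0x9057816234 .nil) (.node 2 5 (.cons 0x4523906781 (.cons 0x9325406781 (.cons 0x7816093254 .nil))) .done .done) .done)) .done)) (.node 0 5 (.cons 0x4509876123 .nil) (.node 3 8 (.cons 0x9012657834 (.cons 0x7612389054 .nil)) (.node 3 5 (.cons 0x7890126534 .nil) (.node 0 2 (.cons 0x4532098761 .nil) (.node 1 7 (.cons 0x9871043562 (.cons 0x6178902354 (.cons 0x9832176504 .nil))) .done .done) .done) (.node 4 7 (.cons 0x8905476123 (.cons 0x7438905612 .nil)) (.node 1 7 (.cons 0x9805617432 .nil) (.node 2 7 (.cons 0x9834721056 .nil) .done .done) (.leaf 0x6123478905 0 .done)) .done)) (.node 1 5 (.cons 0x6789045123 .nil) (.node 0 7 (.cons 0x9870432156 .nil) (.node 6 9 (.cons 0x7089615432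 (.cons 0x2345169870 (.cons 0x5126987043 .nil))) .done .done) (.node 3 8 (.cons 0x9012657834 (.cons 0x7651238904 .nil)) (.node 0 7 (.cons 0x9832154076 (.cons 0x9832156704 .nil)) .done (.node 1 9 (.cons 0x6190875432 .nil) (.leaf 0x2190456783 0 (.leaf 0x2190438756 0 .done)) .done)) .done)) .done)) .done)) (.node 7 9 (.cons 0x8790654321 (.cons 0x8790612345 .nil)) (.node 3 7 (.cons 0x6543789012 (.cons 0x9873401265 .nil)) (.node 5 8 (.cons 0x9012658734 (.cons 0x9785604321 (.cons 0x9043785621 .nil))) (.node 0 5 (.cons 0x8790561234 .nil) (.node 1 7 (.cons 0x8971234056 (.cons 0x8905716234 .nil)) .done .done) .done) (.node 0 5 (.cons 0x6123789054 .nil) (.node 0 7 (.cons 0x8970561234 .nil) .done .done) .done)) (.node 3 5 (.cons 0x7890126534 (.cons 0x8790435621 .nil)) (.node 2 9 (.cons 0x4357892610 .nil) (.leaf 0x8765340129 0 (.node 1 8 (.cons 0x7562981043 (.cons 0x9061875432 .nil)) (.leaf 0x435762981 0 (.node 0 7 (.cons 0x8926107534 .nil) (.node 1 4 (.cons 0x8923416570 (.cons 0x9041875623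 (.cons 0x8907561432 (.cons 0x8140629753 .nil)))) .done .done) .done)) (.node 1 3 (.cons 0x8790431265 (.cons 0x6298753104 (.cons 0x8792135604 .nil))) (.node 2 8 (.cons 0x3456097821 (.cons 0x3128976540 (.cons 0x6798213540 .nil))) .done .done) .done))) (.node 0 7 (.cons 0x8907612354 .nil) (.node 1 8 (.cons 0x7981265340 (.cons 0x9061875432 (.cons 0x7653218904 .nil))) (.node 0 5 (.cons 0x9870561234 .nil) (.node 3 7 (.cons 0x6543789012 (.cons 0x9873401265 (.cons 0x8126537904 (.cons 0x6123789054 .nil)))) .done .done) .done) .done) .done)) .done)) .done))) (.node 0 3 (.cons 0x4567890321 .nil) (.node 0 2 (.cons 0x7890234561 .nil) (.node 2 7 (.cons 0x1654327890 .nil) (.leaf 0x1278903456 0 (.node 3 8 (.cons 0x7654098321 (.cons 0x9016543872 .nil)) (.node 5 7 (.cons 0x9834012657 (.cons 0x9830457612 .nil)) (.node 0 8 (.cons 0x9804321657 (.cons 0x9087234561 .nil)) (.node 7 9 (.cons 0x1238976540 (.cons 0x8790612345 (.cons 0x8975612340 (.cons 0x9723804561 (.cons 0x3897654021 .nil)))))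 .done .done) (.leaf 0x3216578904 0 .done)) (.node 0 8 (.cons 0x9087234561 .nil) (.node 3 7 (.cons 0x8904567321 (.cons 0x9804561237 .nil)) (.node 1 8 (.cons 0x5409816732 .nil) (.node 2 8 (.cons 0x5409823761 .nil) .done .done) .done) .done) .done)) (.node 3 6 (.cons 0x5436109872 .nil) (.node 3 8 (.cons 0x7654098321 (.cons 0x5409832761 .nil)) (.node 5 8 (.cons 0x9854012763 (.cons 0x9854032167 (.cons 0x9061278543 .nil))) (.node 4 9 (.cons 0x5498763012 (.cons 0x7854906123 (.cons 0x3278549061 (.cons 0x5498763021 .nil)))) .done (.node 2 9 (.cons 0x7298543610 (.cons 0x7298540163 .nil)) .done .done)) .done) (.node 5 8 (.cons 0x4589012763 (.cons 0x9854032167 (.cons 0x7216345890 .nil))) (.node 2 8 (.cons 0x7289016345 .nil) (.node 0 5 (.cons 0x9876123054 .nil) (.node 7 9 (.cons 0x8790654321 (.cons 0x7982340561 (.cons 0x5403289761 (.cons 0x9782160345 .nil)))) .done .done) .done) (.node 3 5 (.cons 0x7890126534 (.cons 0x9853401627 (.cons 0x9016278534 .nil))) .done .done)) .done)) .done)))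 (.node 0 5 (.cons 0x9876123054 .nil) (.node 1 4 (.cons 0x6789054123 .nil) (.node 0 7 (.cons 0x9870562341 .nil) (.node 3 9 (.cons 0x8932140765 (.cons 0x4123987650 (.cons 0x7893410562 .nil))) (.node 0 8 (.cons 0x7654123980 .nil) (.node 1 7 (.cons 0x9087165432 (.cons 0x6714508932 .nil)) .done .done) .done) .done) (.node 7 9 (.cons 0x8790654321 (.cons 0x8790612345 (.cons 0x8790562341 (.cons 0x8790562143 .nil)))) (.node 1 7 (.cons 0x8971234056 .nil) (.node 4 6 (.cons 0x9876450321 (.cons 0x5461789023 (.cons 0x5098712643 .nil))) .done .done) .done) .done)) (.node 4 7 (.cons 0x5621098743 (.cons 0x5098743261 (.cons 0x3209874561 .nil))) (.leaf 0x3478905612 0 (.node 0 8 (.cons 0x9087432165 .nil) (.node 1 7 (.cons 0x9804567123 (.cons 0x6178905432 .nil)) (.node 1 9 (.cons 0x8743261905 (.cons 0x6547809123 .nil)) (.leaf 0x2190876543 0 .done) .done) .done) (.node 3 5 (.cons 0x1265347890 (.cons 0x9874530216 (.cons 0x8903547612 .nil))) (.node 0 8 (.cons 0x9087435621 (.cons 0x9087435612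 .nil)) .done .done) .done))) .done)) .done)) (.node 3 8 (.cons 0x7654098321 (.cons 0x7612389045 .nil)) (.node 5 7 (.cons 0x9834012657 (.cons 0x4309875612 .nil)) (.node 4 9 (.cons 0x3498756210 (.cons 0x8940321675 (.cons 0x2165789430 .nil))) (.node 1 8 (.cons 0x5761894032 (.cons 0x7561894032 .nil)) (.node 0 2 (.cons 0x3498756201 (.cons 0x5761894023 (.cons 0x7561894023 .nil))) .done .done) .done) (.node 4 8 (.cons 0x9012657843 (.cons 0x9034875612 .nil)) (.node 3 5 (.cons 0x9067845321 (.cons 0x7612354890 .nil)) (.node 1 8 (.cons 0x9048167532 (.cons 0x9048162357 .nil)) .done .done) (.node 1 9 (.cons 0x5784326190 (.cons 0x2348756190 (.cons 0x4875619032 .nil))) (.node 0 7 (.cons 0x8432657091 (.cons 0x9832167045 .nil)) (.node 0 2 (.cons 0x4567023891 (.cons 0x9167548320 (.cons 0x7023891654 .nil))) .done .done) .done) .done)) (.leaf 0x3216578904 0 .done))) (.node 2 7 (.cons 0x9016543872 (.cons 0x5409832761 .nil)) (.node 1 5 (.cons 0x9834015627 (.cons 0x9015627834 (.cons 0x7265109834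 .nil))) (.node 4 6 (.cons 0x9872103465 (.cons 0x5643098721 .nil)) (.node 1 8 (.cons 0x9815640327 (.cons 0x9064518723 .nil)) (.node 4 7 (.cons 0x9047238156 (.cons 0x5164789032 (.cons 0x3890472651 .nil))) (.leaf 0x3215647890 0 .done) .done) .done) .done) (.node 2 9 (.cons 0x3892765401 (.cons 0x7298345610 (.cons 0x5401672983 .nil))) (.node 4 9 (.cons 0x3872945601 (.cons 0x5610349872 (.cons 0x5612789430 .nil))) (.node 5 8 (.cons 0x7612304985 (.cons 0x7854906123 (.cons 0x9430612785 .nil))) (.leaf 0x2167854903 0 .done) .done) .done) .done)) .done)) (.node 1 4 (.cons 0x5416789032 .nil) (.node 0 5 (.cons 0x9876145032 .nil) (.node 2 9 (.cons 0x1456789230 (.cons 0x5416789230 .nil)) (.node 0 7 (.cons 0x8923076145 .nil) (.node 3 9 (.cons 0x8932140765 (.cons 0x6789321450 (.cons 0x4123987650 .nil))) .done .done) (.leaf 0x3298761450 0 .done)) (.node 2 4 (.cons 0x5423098761 .nil) (.node 0 2 (.cons 0x7890234561 .nil) (.node 5 7 (.cons 0x9875624301 (.cons 0x3426578901 (.cons 0x6120987543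 .nil))) (.node 1 8 (.cons 0x6754098123 (.cons 0x9065781234 (.cons 0x9814032657 .nil))) .done (.node 0 8 (.cons 0x9087561234 .nil) (.node 3 7 (.cons 0x8904567321 (.cons 0x9804567321 (.cons 0x6123789054 (.cons 0x9804123765 .nil)))) .done .done) .done)) .done) (.node 2 7 (.cons 0x9872305416 .nil) (.node 1 9 (.cons 0x8914567230 (.cons 0x8761903245 (.cons 0x6503278914 (.cons 0x6541987230 .nil)))) .done (.node 1 8 (.cons 0x9816723045 (.cons 0x9816540327 .nil)) (.node 4 9 (.cons 0x5627894301 (.cons 0x7894162305 (.cons 0x7816509423 (.cons 0x9427816503 .nil)))) .done .done) .done)) .done)) .done)) (.node 0 5 (.cons 0x4509876123 .nil) (.node 3 8 (.cons 0x7654098321 (.cons 0x7612389045 (.cons 0x9056783214 .nil))) (.node 7 9 (.cons 0x1238976540 (.cons 0x8790612345 (.cons 0x4056798321 (.cons 0x8790562341 (.cons 0x9783412650 .nil))))) .done .done) (.node 3 8 (.cons 0x7654098321 (.cons 0x7612389045 .nil)) (.node 2 8 (.cons 0x9032876541 (.cons 0x9032876145 .nil)) (.node 0 2 (.cons 0x7890234561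 .nil) (.node 7 9 (.cons 0x1238976540 (.cons 0x9783216054 (.cons 0x7983216504 (.cons 0x9783410265 (.cons 0x3897654021 .nil))))) .done (.node 7 9 (.cons 0x1238976540 (.cons 0x9783216054 (.cons 0x7983216504 (.cons 0x5402389761 (.cons 0x5402167983 .nil))))) .done .done)) .done) (.node 0 8 (.cons 0x9087654123 .nil) (.node 0 2 (.cons 0x7890234561 .nil) (.node 2 4 (.cons 0x5423098761 .nil) (.node 5 7 (.cons 0x9875624301 (.cons 0x9804576123 (.cons 0x9087543216 (.cons 0x9021438756 .nil)))) (.leaf 0x3216578904 0 .done) .done) .done) .done) .done)) .done)) .done)) .done))) (.node 1 7 (.cons 0x5617890432 .nil) (.node 2 9 (.cons 0x5629871043 (.cons 0x3298716540 .nil)) (.node 0 2 (.cons 0x9871654023 .nil) (.node 6 9 (.cons 0x1789654320 (.cons 0x3456987120 .nil)) .done (.node 5 9 (.cons 0x1789562340 (.cons 0x6178954023 (.cons 0x6178954320 (.cons 0x5987162043 .nil)))) .done .done)) (.node 1 5 (.cons 0x8761540923 .nil) (.node 1 3 (.cons 0x8761329045 (.cons 0x5409876132 .nil)) (.node 3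 5 (.cons 0x9871043562 (.cons 0x1678923540 .nil)) (.node 3 8 (.cons 0x7615409832 (.cons 0x4538761092 .nil)) (.leaf 0x5387612904 0 (.leaf 0x4516783290 0 .done)) (.node 1 4 (.cons 0x8761453290 (.cons 0x2354167890 .nil)) .done .done)) .done) (.node 3 7 (.cons 0x4098732651 (.cons 0x8732904516 (.cons 0x6154098732 (.cons 0x8732906154 .nil)))) (.node 1 3 (.cons 0x8761329045 (.cons 0x5409876132 .nil)) (.node 2 7 (.cons 0x8904567231 .nil) (.node 1 9 (.cons 0x8723409165 .nil) .done .done) .done) .done) .done)) .done)) (.node 2 9 (.cons 0x8716540923 .nil) (.node 6 8 (.cons 0x1786543290 (.cons 0x3456871290 .nil)) (.node 2 8 (.cons 0x9045617823 .nil) (.node 3 5 (.cons 0x7890126534 (.cons 0x7892653401 (.cons 0x9045328761 (.cons 0x9286710453 (.cons 0x8710926534 .nil))))) .done .done) .done) (.node 6 9 (.cons 0x8712345690 .nil) (.node 2 8 (.cons 0x1782345690 (.cons 0x5432871690 (.cons 0x9045617823 .nil))) (.node 3 9 (.cons 0x9340178265 .nil) (.node 1 5 (.cons 0x2398761540 .nil) (.leaf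 0x4516782390 0 (.node 2 5 (.cons 0x6934528710 (.cons 0x7825439610 .nil)) .done .done)) (.node 2 5 (.cons 0x4396528710 (.cons 0x9340165287 (.cons 0x8716523904 .nil))) .done .done)) .done) (.node 0 2 (.cons 0x8712096543 .nil) (.node 2 8 (.cons 0x9045617823 .nil) (.node 1 3 (.cons 0x9876132045 (.cons 0x7654098231 (.cons 0x5409876132 (.cons 0x5690431782 .nil)))) .done (.node 5 9 (.cons 0x9562871043 (.cons 0x3459617820 .nil)) (.node 3 8 (.cons 0x2178345690 (.cons 0x7832160954 (.cons 0x4095617832 (.cons 0x5438716902 .nil)))) .done .done) .done)) (.node 0 8 (.cons 0x3456908712 .nil) (.node 2 5 (.cons 0x6908712543 (.cons 0x7809612543 .nil)) (.node 3 7 (.cons 0x9608734521 (.cons 0x9873204561 (.cons 0x8925401673 (.cons 0x9873401652 (.cons 0x4529801673 .nil))))) .done .done) (.node 3 8 (.cons 0x2178345690 (.cons 0x9023871654 .nil)) (.node 0 5 (.cons 0x7129650834 .nil) (.node 0 7 (.cons 0x8345692170 (.cons 0x7054389612 .nil)) .done .done) (.node 0 5 (.cons 0x6905438712 (.cons 0x7612389054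 .nil)) .done .done)) .done)) .done)) .done)) (.node 5 8 (.cons 0x9043265871 (.cons 0x6178540923 (.cons 0x6178543290 (.cons 0x5871629043 .nil)))) (.node 2 8 (.cons 0x9045617823 .nil) (.node 2 7 (.cons 0x3278904561 .nil) (.node 3 5 (.cons 0x9872653401 (.cons 0x9261043587 (.cons 0x8927610453 (.cons 0x9017826534 .nil)))) .done .done) .done) .done) .done))) (.node 0 5 (.cons 0x9871623405 .nil) (.node 4 6 (.cons 0x8905467123 (.cons 0x5098712643 .nil)) (.node 0 7 (.cons 0x9870564321 .nil) .done .done) (.leaf 0x1789054326 0 (.node 5 9 (.cons 0x8712345906 (.cons 0x8716095432 .nil)) (.node 1 5 (.cons 0x7890432651 .nil) (.node 0 7 (.cons 0x9870432651 .nil) (.node 4 9 (.cons 0x6512349870 (.cons 0x7894051623 .nil)) (.node 0 2 (.cons 0x6512078943 (.cons 0x9876154023 .nil)) (.node 0 3 (.cons 0x4567890321 (.cons 0x9876154032 .nil)) .done .done) .done) .done) (.node 3 5 (.cons 0x7890126534 (.cons 0x9871623504 .nil)) (.node 2 9 (.cons 0x8761540923 (.cons 0x8716092354 .nil)) (.node 3 8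 (.cons 0x8326715904 (.cons 0x8329540671 (.cons 0x6783290451 (.cons 0x4092387651 .nil)))) .done .done) .done) .done)) (.node 5 8 (.cons 0x9061785432 .nil) (.node 1 9 (.cons 0x7856091234 .nil) (.node 5 7 (.cons 0x8571904326 (.cons 0x8571906234 .nil)) (.leaf 0x6578904321 0 .done) (.leaf 0x2658719043 0 .done)) (.node 2 8 (.cons 0x7821609543 .nil) (.leaf 0x954328716 0 (.node 3 5 (.cons 0x7890126534 (.cons 0x9045328716 (.cons 0x9061782354 .nil))) (.node 2 5 (.cons 0x8716259043 .nil) (.node 1 3 (.cons 0x6259871340 (.cons 0x8713409526 (.cons 0x4098765231 .nil))) .done .done) .done) .done)) .done)) .done)) .done))) .done))) .done)))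
noncomputable def uc9_1_2 : T := (.node 0 4 (.cons 0x5409876123 .nil) tc9_1_11 (.node 1 7 (.cons 0x6543217890 .nil) tc9_1_10 (.node 1 4 (.cons 0x3214567890 .nil) (.node 1 7 (.cons 0x6543217890 .nil) tc9_1_9 (.node 1 7 (.cons 0x6543217890 .nil) tc9_1_8 (.node 3 6 (.cons 0x5412367890 .nil) (.node 0 5 (.cons 0x9876321450 .nil) (.node 3 5 (.cons 0x7890126534 .nil) (.node 0 4 .nil (.node 5 9 (.cons 0x8760954123 (.cons 0x8762359041 (.cons 0x8762140953 .nil))) (.node 6 8 (.cons 0x7689054123 (.cons 0x7862359041 (.cons 0x7862140953 .nil))) .done .done) (.node 1 3 .nil (.node 5 7 (.cons 0x4310987562 (.cons 0x4312657890 .nil)) (.node 0 7 (.cons 0x8907543216 (.cons 0x8907561234 .nil)) .done (.leaf 0x6578904312 0 .done)) (.node 0 3 (.cons 0x4567890321 .nil) (.node 3 7 (.cons 0x6543789012 .nil) (.node 3 8 (.cons 0x9067832145 .nil) .done .done) .done) .done)) .done)) (.node 0 4 (.cons 0x5326789041 .nil) (.node 4 6 .nil (.node 3 8 (.cons 0x9067832145 (.cons 0x7645098321 (.cons 0x7641238905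 .nil))) .done (.node 4 8 (.cons 0x7623509841 .nil) (.node 4 7 (.cons 0x2653478901 .nil) (.node 6 8 (.cons 0x7689054123 .nil) (.node 6 9 .nil (.node 0 3 (.cons 0x4567890321 (.cons 0x7698450321 (.cons 0x7698412305 .nil))) .done .done) .done) .done) .done) .done)) .done) .done)) (.node 6 9 (.cons 0x7896321450 .nil) (.node 0 7 (.cons 0x2369870541 .nil) (.leaf 0x8705412369 0 (.node 1 5 (.cons 0x4150789632 .nil) (.node 1 7 (.cons 0x2369871450 .nil) (.node 4 6 .nil (.node 3 7 (.cons 0x6543789012 (.cons 0x6450987321 (.cons 0x9873264150 .nil))) .done (.node 6 8 .nil (.node 0 2 (.cons 0x7896320541 (.cons 0x9687154320 .nil)) (.node 5 7 (.cons 0x8907561234 (.cons 0x3209867541 (.cons 0x9863412075 .nil))) .done .done) .done) .done)) .done) (.node 1 7 (.cons 0x2369871450 .nil) (.node 6 8 (.cons 0x9078651234 .nil) (.node 4 6 .nil (.node 2 5 (.cons 0x9870125634 (.cons 0x3250789641 (.cons 0x8964170523 .nil))) .done .done) .done) .done) .done)) (.node 6 8 .nil (.node 2 7 (.cons 0x8907234561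 (.cons 0x9861450723 (.cons 0x3278690541 (.cons 0x5432709861 .nil)))) .done (.node 4 6 .nil (.node 1 7 (.cons 0x2369871450 (.cons 0x5643217890 .nil)) (.leaf 0x2178905643 0 (.node 3 7 (.cons 0x6543789012 (.cons 0x6450987321 (.cons 0x4650987321 .nil))) .done .done)) .done) .done)) .done))) (.node 4 6 .nil (.node 1 7 (.cons 0x6543217890 (.cons 0x5643217890 .nil)) (.leaf 0x2178905643 0 (.node 3 7 (.cons 0x6543789012 (.cons 0x6450987321 (.cons 0x4650987321 (.cons 0x5098732641 .nil)))) .done .done)) (.node 6 8 .nil (.node 0 7 (.cons 0x3698705412 (.cons 0x7098612345 .nil)) (.node 1 5 (.cons 0x9870514632 (.cons 0x9078651234 .nil)) (.node 0 4 (.cons 0x3407896512 (.cons 0x9865123407 .nil)) .done .done) (.node 2 7 (.cons 0x3698721450 (.cons 0x9861450723 (.cons 0x9012786543 (.cons 0x5432709861 .nil)))) .done .done)) .done) .done)) .done)) (.node 0 4 .nil (.node 1 9 (.cons 0x2367891450 (.cons 0x5041987632 (.cons 0x7891236540 .nil))) .done (.node 0 3 (.cons 0x4567890321 .nil) (.node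 0 2 (.cons 0x9876320541 .nil) (.node 0 7 .nil (.node 0 8 (.cons 0x9807632145 .nil) (.node 3 8 (.cons 0x7654098321 (.cons 0x5416709832 .nil)) .done .done) (.node 0 8 .nil (.node 1 7 (.cons 0x6543217890 (.cons 0x9804567123 (.cons 0x9087123456 .nil))) .done .done) .done)) .done) (.node 1 3 (.cons 0x6789054132 .nil) (.node 3 5 (.cons 0x7890126534 .nil) (.node 0 7 .nil (.node 2 9 (.cons 0x7892634105 (.cons 0x8923670541 (.cons 0x8921076354 (.cons 0x6329870541 .nil)))) .done (.node 3 7 (.cons 0x8904567321 .nil) (.node 3 8 (.cons 0x7654098321 .nil) (.node 3 9 (.cons 0x8760932145 .nil) .done .done) .done) .done)) .done) .done) .done)) .done)) .done))) (.node 6 9 .nil (.node 2 7 (.cons 0x3456987210 (.cons 0x8721096543 .nil)) (.node 1 9 (.cons 0x8723609145 .nil) (.node 1 7 (.cons 0x8712345690 .nil) (.node 1 8 (.cons 0x9065432187 (.cons 0x9063278145 .nil)) .done .done) .done) (.node 1 5 (.cons 0x6345109872 (.cons 0x2789634510 .nil)) (.leaf 0x7890154362 0 (.node 1 9 (.cons 0x8723609154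 .nil) (.node 1 7 (.cons 0x6543217890 (.cons 0x8712345690 .nil)) (.node 0 5 (.cons 0x2367890541 (.cons 0x8963450172 (.cons 0x8961723450 .nil))) .done .done) .done) .done)) .done)) (.node 6 8 .nil (.node 0 5 (.cons 0x2367890541 (.cons 0x7689054123 .nil)) (.node 4 6 .nil (.node 1 7 (.cons 0x6543217890 (.cons 0x9054178632 (.cons 0x5643217890 .nil))) (.leaf 0x2178905643 0 .done) (.node 3 7 (.cons 0x6543789012 (.cons 0x3786905412 (.cons 0x7321689054 .nil))) (.node 2 7 (.cons 0x6327890541 (.cons 0x9012786543 .nil)) (.node 5 9 (.cons 0x4378956210 (.cons 0x6895437210 (.cons 0x2734598610 .nil))) .done .done) (.node 0 3 (.cons 0x4567890321 (.cons 0x7689032145 .nil)) (.node 2 4 (.cons 0x5037896421 (.cons 0x9012437865 (.cons 0x7342109865 .nil))) .done .done) .done)) .done)) (.node 2 7 (.cons 0x8905416723 (.cons 0x9012786543 (.cons 0x7234509861 .nil))) (.node 5 9 (.cons 0x5987263410 (.cons 0x7268950143 (.cons 0x7860954123 .nil))) .done .done) .done)) (.node 4 6 .nil (.node 3 8 (.cons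 0x9067832145 .nil) (.node 3 5 (.cons 0x7890126534 (.cons 0x7645389012 .nil)) (.node 2 9 (.cons 0x2987635410 (.cons 0x7645389210 (.cons 0x3546789210 (.cons 0x9210645387 .nil)))) .done (.node 2 8 (.cons 0x3541287690 .nil) (.node 7 9 (.cons 0x8790654321 (.cons 0x8790126435 (.cons 0x5364109782 (.cons 0x7901645382 .nil)))) .done .done) .done)) (.node 0 3 (.cons 0x4567890321 (.cons 0x5467890321 .nil)) (.node 1 8 (.cons 0x9065432187 .nil) (.node 3 9 (.cons 0x7812390654 (.cons 0x7812390645 .nil)) .done .done) .done) .done)) .done) .done)) .done)) .done)) .done))) .done)))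
theorem sub_c9_1_2 : root 9 refs9_1 [] 0x700000008706000000006030000000030500407000504000000004030000000030100000400102000000002018007000010 0xfe7fff3fffb7ff47ffcfffe7fff5ffe9fff9fe7d 9 1 6 .nil uc9_1_2 = true := by decide +kernel
noncomputable def tc9_1_12 : T := (.node 1 6 .nil (.node 0 4 (.cons 0x5409876123 .nil) (.node 3 6 (.cons 0x5409876321 .nil) (.node 2 9 (.cons 0x5401298763 (.cons 0x7892104365 (.cons 0x7892104563 .nil))) (.node 1 7 (.cons 0x5436017892 .nil) (.node 3 8 (.cons 0x2178345690 (.cons 0x5690438712 (.cons 0x6543871092 .nil))) (.leaf 0x7129065438 0 .done) (.node 2 5 (.cons 0x8712569043 (.cons 0x9871406523 .nil)) (.node 0 7 (.cons 0x3452169870 .nil) (.node 2 7 (.cons 0x5432789061 .nil) .done .done) .done) .done)) .done) (.node 2 4 (.cons 0x7890124365 .nil) (.node 5 7 (.cons 0x4365789012 (.cons 0x9875634012 (.cons 0x5789016342 .nil))) (.node 1 8 (.cons 0x9061875432 (.cons 0x3409657812 (.cons 0x9061875423 .nil))) .done (.node 1 3 (.cons 0x8904213675 (.cons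 0x8904576213 .nil)) (.node 1 5 (.cons 0x8904215763 (.cons 0x7890615423 .nil)) .done .done) .done)) .done) .done)) (.node 0 3 (.cons 0x9876541230 .nil) (.node 4 9 (.cons 0x8765490321 (.cons 0x8761230945 .nil)) (.node 0 5 (.cons 0x4509876123 .nil) (.node 1 8 (.cons 0x9054678123 (.cons 0x9418765032 (.cons 0x7816549032 .nil))) .done (.node 7 9 (.cons 0x8790546123 (.cons 0x8794165032 .nil)) (.node 1 8 (.cons 0x6450978123 (.cons 0x5643218790 (.cons 0x9781456032 .nil))) .done .done) .done)) .done) (.node 2 7 (.cons 0x8721690345 (.cons 0x5432789061 .nil)) (.node 3 8 (.cons 0x7654098321 (.cons 0x5403896721 (.cons 0x9012783465 (.cons 0x7265438901 .nil)))) .done (.leaf 0x1278903456 0 (.node 5 8 (.cons 0x5896721403 (.cons 0x9854032167 (.cons 0x9032164587 (.cons 0x7234098561 (.cons 0x7216589043 .nil))))) .done .done))) (.node 0 7 (.cons 0x5698703412 .nil) (.node 0 5 (.cons 0x7896503412 .nil) (.node 4 9 (.cons 0x5678941230 (.cons 0x7894165032 .nil)) (.node 2 7 (.cons 0x5698721430 (.cons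 0x3278945061 (.cons 0x5432789061 (.cons 0x5061498723 .nil)))) .done .done) .done) (.node 2 5 (.cons 0x7896521430 (.cons 0x3452169870 (.cons 0x8709612543 (.cons 0x9870614523 .nil)))) .done .done)) .done))) .done)) (.node 1 7 (.cons 0x6543217890 .nil) (.node 0 4 (.cons 0x7890432165 .nil) (.node 1 8 (.cons 0x7654098123 .nil) (.node 3 6 (.cons 0x7632189045 .nil) (.node 6 8 .nil (.node 5 9 (.cons 0x7632189540 (.cons 0x7186095432 (.cons 0x7186234590 .nil))) (.node 0 3 (.cons 0x9876541230 (.cons 0x7864590321 .nil)) (.node 0 5 (.cons 0x9054678123 .nil) .done (.leaf 0x2178645903 0 .done)) .done) .done) .done) (.node 0 8 (.cons 0x3456908712 .nil) (.node 3 6 (.cons 0x5436908712 .nil) (.node 0 7 (.cons 0x9812365407 .nil) (.node 1 5 (.cons 0x9870651432 .nil) (.node 6 8 (.cons 0x7098651234 .nil) .done .done) .done) .done) (.node 2 4 (.cons 0x5690871243 .nil) (.node 3 6 (.cons 0x5421098763 .nil) (.node 6 8 .nil (.node 0 7 (.cons 0x9812365407 .nil) (.node 5 7 (.cons 0x4321657890 (.cons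 0x9862107543 (.cons 0x3457098621 .nil))) (.leaf 0x3216578904 0 .done) .done) .done) .done) .done) .done)) .done)) (.node 3 6 (.cons 0x5409876321 .nil) (.node 2 4 .nil (.node 0 7 (.cons 0x9870124365 .nil) (.node 5 9 (.cons 0x1236789540 (.cons 0x8954076321 (.cons 0x2341659870 .nil))) (.leaf 0x8701243659 0 .done) .done) .done) .done) .done)) (.node 1 8 (.cons 0x7189062345 .nil) (.node 6 8 .nil (.node 0 5 (.cons 0x7890561234 (.cons 0x3450968712 (.cons 0x4509867123 (.cons 0x9054687123 .nil)))) .done (.node 3 6 .nil (.node 2 4 (.cons 0x5421098763 .nil) (.node 1 3 (.cons 0x9065423187 (.cons 0x8906713245 .nil)) .done .done) .done) .done)) .done) .done)) .done)) (.node 0 4 .nil (.node 1 6 (.cons 0x7890432165 .nil) (.node 3 6 (.cons 0x5409876321 .nil) (.node 2 9 (.cons 0x5401298763 (.cons 0x7892104365 (.cons 0x7892104563 .nil))) (.node 2 7 (.cons 0x5432789061 (.cons 0x9872104365 .nil)) (.node 1 9 (.cons 0x5432789160 (.cons 0x5604327891 (.cons 0x7891236540 .nil))) .done (.node 3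 8 (.cons 0x1278345690 (.cons 0x5438721690 (.cons 0x5690438721 (.cons 0x6543872901 .nil)))) .done .done)) .done) (.node 6 8 .nil (.node 0 7 (.cons 0x9078612345 (.cons 0x8907654123 .nil)) (.node 2 7 (.cons 0x9872104365 (.cons 0x9012786543 (.cons 0x5432789061 .nil))) .done .done) (.node 3 8 (.cons 0x7654123890 .nil) (.node 0 5 (.cons 0x7834509612 (.cons 0x7612389054 (.cons 0x9054612387 .nil))) .done (.node 2 7 (.cons 0x1456723890 (.cons 0x9872104365 (.cons 0x9016543872 (.cons 0x5416723890 (.cons 0x5672389041 .nil))))) .done .done)) .done)) .done)) (.node 0 7 (.cons 0x9870432165 .nil) (.node 6 8 (.cons 0x9078654321 .nil) (.node 3 6 (.cons 0x5409876321 .nil) (.node 1 8 (.cons 0x3456907812 (.cons 0x5436907812 (.cons 0x9078123654 .nil))) .done .done) .done) (.node 3 6 (.cons 0x8907632145 .nil) (.node 1 5 (.cons 0x9870615432 .nil) (.node 6 8 (.cons 0x9043215687 .nil) (.node 0 5 (.cons 0x9861234507 .nil) (.node 3 9 (.cons 0x6123987054 (.cons 0x8670932154 (.cons 0x7864509321 (.cons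 0x7054168932 .nil)))) .done .done) .done) (.node 5 9 (.cons 0x6123459870 (.cons 0x8954076123 (.cons 0x4078951632 .nil))) .done .done)) .done) .done)) .done)) (.node 3 6 (.cons 0x5409876321 .nil) (.node 1 6 (.cons 0x5409876123 .nil) (.node 6 8 .nil (.node 0 7 (.cons 0x8907654123 (.cons 0x9078654321 .nil)) (.node 2 4 (.cons 0x9870124365 .nil) (.node 4 9 (.cons 0x5634987012 .nil) (.node 4 7 (.cons 0x5612347890 .nil) (.node 4 8 (.cons 0x5670984123 .nil) .done .done) .done) .done) .done) .done) .done) (.node 1 6 (.cons 0x5409876123 .nil) (.node 2 4 (.cons 0x7890124365 .nil) (.node 6 8 .nil (.node 0 7 (.cons 0x8907654123 (.cons 0x9078654321 .nil)) (.node 1 5 (.cons 0x3421569870 (.cons 0x9078651234 .nil)) (.node 7 9 (.cons 0x8970651423 (.cons 0x3215468790 (.cons 0x3241568970 .nil))) .done .done) .done) .done) .done) .done) .done)) .done)) (.node 3 6 (.cons 0x5412367890 .nil) (.node 0 4 .nil (.node 2 9 (.cons 0x5401298763 (.cons 0x7892104365 (.cons 0x7892104563 .nil))) (.node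 1 6 (.cons 0x7890432165 .nil) (.node 1 7 (.cons 0x1789234560 .nil) (.node 3 8 (.cons 0x2178345690 (.cons 0x5690438712 (.cons 0x6543871092 .nil))) (.leaf 0x7129065438 0 .done) (.node 2 4 (.cons 0x5601789243 .nil) .done .done)) .done) .done) (.node 0 5 (.cons 0x9876321450 .nil) (.node 1 6 .nil (.node 3 8 (.cons 0x7654098321 (.cons 0x7834509612 (.cons 0x9054167832 .nil))) (.node 4 9 (.cons 0x4905678321 (.cons 0x5094167832 .nil)) .done .done) (.node 6 8 .nil (.node 7 9 (.cons 0x8790561234 (.cons 0x6879054321 (.cons 0x5097861432 .nil))) (.node 2 7 (.cons 0x8972104365 (.cons 0x5689721043 (.cons 0x9012786543 (.cons 0x3450968721 .nil)))) .done .done) .done) .done)) (.node 6 8 .nil (.node 3 7 (.cons 0x8904567321 (.cons 0x3786905412 (.cons 0x5409867321 (.cons 0x7326890541 .nil)))) (.node 2 5 (.cons 0x6521098734 (.cons 0x9865210437 (.cons 0x5214378690 .nil))) .done .done) (.node 1 6 .nil (.node 3 8 (.cons 0x7654098321 (.cons 0x7612389045 .nil)) (.node 7 9 (.cons 0x5097864123 (.cons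 0x2387905461 .nil)) (.leaf 0x1623879054 0 (.node 2 5 (.cons 0x7986325041 (.cons 0x7986140523 (.cons 0x5234168790 .nil))) .done .done)) .done) .done) .done)) .done)) .done)) (.node 2 4 (.cons 0x7890124365 .nil) (.node 2 5 (.cons 0x7890125634 .nil) (.node 6 8 .nil (.node 0 5 (.cons 0x6789054123 (.cons 0x7689054123 .nil)) (.node 4 7 (.cons 0x4789056321 (.cons 0x9052368741 (.cons 0x9052147863 .nil))) .done .done) (.node 1 6 .nil (.node 3 8 (.cons 0x9067832541 (.cons 0x7834521690 .nil)) (.node 2 7 (.cons 0x7265438901 (.cons 0x5432789061 (.cons 0x5278341690 .nil))) .done .done) .done) .done)) (.node 1 6 (.cons 0x7890614523 .nil) (.node 6 8 .nil (.node 0 5 (.cons 0x6789054123 (.cons 0x7689054123 .nil)) (.node 1 7 (.cons 0x6543217890 (.cons 0x9068714523 (.cons 0x9056871234 .nil))) .done .done) .done) .done) .done)) .done) .done)) .done)))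
noncomputable def tc9_1_13 : T := (.node 1 7 (.cons 0x6543217890 (.cons 0x5643217890 .nil)) (.node 0 5 (.cons 0x9871234650 .nil) (.node 1 6 (.cons 0x7890561234 .nil) (.node 1 4 (.cons 0x6789054123 .nil) (.node 1 5 (.cons 0x3215467890 .nil) (.node 0 3 (.cons 0x5467890321 (.cons 0x4305698712 .nil)) (.node 1 8 (.cons 0x9032187654 (.cons 0x9032187645 .nil)) (.node 3 7 (.cons 0x6543789012 (.cons 0x8962173450 (.cons 0x4651237890 (.cons 0x4189056732 .nil)))) .done .done) (.leaf 0x2154678903 0 .done)) .done) .done) .done) (.node 0 3 (.cons 0x2178965430 (.cons 0x5467890321 .nil)) (.node 1 5 (.cons 0x3215467890 .nil) (.node 0 4 (.cons 0x6789045123 .nil) .done (.node 0 7 (.cons 0x8965430712 (.cons 0x8907645123 .nil)) (.node 2 5 (.cons 0x8965217034 (.cons 0x9870125643 .nil)) (.node 0 2 (.cons 0x3456987120 .nil) (.node 3 5 (.cons 0x8967120354 (.cons 0x5346987021 (.cons 0x8964351702 .nil))) .done .done) .done) .done) (.leaf 0x2154678903 0 .done))) (.node 1 8 (.cons 0x9054678123 (.cons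 0x9056432187 .nil)) (.node 0 7 (.cons 0x9817062345 .nil) (.leaf 0x2189076543 0 .done) (.node 7 9 (.cons 0x6450978123 (.cons 0x8790564321 .nil)) (.node 0 7 (.cons 0x8970126543 .nil) (.node 3 6 (.cons 0x8970126345 (.cons 0x4563218790 .nil)) .done .done) (.node 4 9 (.cons 0x8179465032 (.cons 0x8179462305 .nil)) .done .done)) .done)) .done)) (.node 0 3 (.cons 0x2178965430 (.cons 0x5467890321 .nil)) (.node 0 8 (.cons 0x9654308712 (.cons 0x9805467123 (.cons 0x9805643217 .nil))) (.node 3 7 (.cons 0x6543789012 (.cons 0x8905467321 (.cons 0x5643789012 .nil))) (.node 7 9 (.cons 0x6450897123 (.cons 0x8971234650 .nil)) (.node 2 8 (.cons 0x9826543710 (.cons 0x1287965430 (.cons 0x6054328971 (.cons 0x8217965034 .nil)))) .done .done) .done) .done) (.node 4 9 (.cons 0x8946712305 .nil) (.node 0 8 (.cons 0x3217654980 (.cons 0x9805467123 (.cons 0x7123089465 .nil))) .done (.node 5 9 (.cons 0x4659871230 .nil) (.node 1 8 (.cons 0x4981765032 (.cons 0x7189543260 (.cons 0x7189465032 .nil))) (.node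 0 7 (.cons 0x5623498170 (.cons 0x6590781234 (.cons 0x8954326071 .nil))) .done .done) .done) .done)) .done)) (.leaf 0x2178905643 0 .done)))) (.node 0 8 (.cons 0x3456908712 (.cons 0x9087123465 .nil)) (.node 5 9 (.cons 0x8095467123 (.cons 0x6459087123 .nil)) (.node 3 8 (.cons 0x2178345690 (.cons 0x7126954380 (.cons 0x4590832671 .nil))) (.node 0 4 (.cons 0x4095678321 (.cons 0x8321765904 .nil)) .done .done) (.node 1 6 (.cons 0x5908716432 .nil) (.node 0 7 (.cons 0x7089543261 .nil) (.node 1 5 (.cons 0x7089516234 (.cons 0x7089516432 .nil)) (.node 3 8 (.cons 0x2178345690 (.cons 0x9517083264 (.cons 0x7159083264 (.cons 0x9083264517 .nil)))) .done .done) .done) .done) .done)) (.node 3 7 (.cons 0x6543789012 (.cons 0x5643789012 .nil)) (.node 2 9 (.cons 0x6543789210 (.cons 0x5643789210 .nil)) (.node 1 5 (.cons 0x6015437892 (.cons 0x7329806451 (.cons 0x8715460923 .nil))) (.leaf 0x629873451 0 .done) (.node 3 8 (.cons 0x2178345690 (.cons 0x5460923871 .nil)) (.node 1 3 (.cons 0x4560137892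 (.cons 0x5460137892 .nil)) (.node 0 3 (.cons 0x4567890321 (.cons 0x5467890321 .nil)) (.node 3 6 (.cons 0x4563789210 .nil) .done .done) .done) (.node 2 7 (.cons 0x7265438901 .nil) (.node 3 5 (.cons 0x4538096271 (.cons 0x6453872901 (.cons 0x1273546980 .nil))) .done (.leaf 0x3890172654 0 .done)) .done)) .done)) (.node 5 8 (.cons 0x8543712690 (.cons 0x9085462371 (.cons 0x9085462173 .nil))) (.node 0 7 (.cons 0x1269854370 .nil) (.leaf 0x8543701269 0 .done) .done) (.node 2 8 (.cons 0x7345628901 .nil) (.node 1 8 (.cons 0x9081732654 (.cons 0x9081732645 .nil)) (.node 3 8 (.cons 0x2178345690 .nil) (.node 0 5 (.cons 0x6905438712 (.cons 0x9054678321 (.cons 0x7645098321 .nil))) .done .done) .done) (.node 1 5 (.cons 0x4510982673 (.cons 0x1546732890 (.cons 0x9064517823 .nil))) (.node 3 5 (.cons 0x4537628901 (.cons 0x9012876453 (.cons 0x2809645371 .nil))) .done .done) (.leaf 0x3456289017 0 .done))) .done))) .done)) (.node 0 5 (.cons 0x8905467123 (.cons 0x6450987123 .nil)) (.node 1 6 (.cons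 0x9871605432 (.cons 0x7890561234 .nil)) (.node 3 6 (.cons 0x2178963450 .nil) (.node 2 5 (.cons 0x4369871250 (.cons 0x8712509634 (.cons 0x3254609871 .nil))) .done .done) .done) (.node 0 3 (.cons 0x4567890321 (.cons 0x8903217645 (.cons 0x5467890321 .nil))) (.node 2 5 (.cons 0x5217896430 (.cons 0x3254609871 .nil)) (.node 3 6 (.cons 0x9871063452 (.cons 0x8712543690 .nil)) .done .done) .done) .done)) .done))) (.node 6 8 .nil (.node 0 7 (.cons 0x9078654321 .nil) (.node 1 4 (.cons 0x3214567890 (.cons 0x8907654123 .nil)) (.node 3 8 (.cons 0x9834562107 (.cons 0x5690783412 .nil)) (.node 5 9 (.cons 0x6783214590 (.cons 0x1238954670 (.cons 0x7012645983 (.cons 0x8326709541 .nil)))) .done (.node 1 9 (.cons 0x2387654190 (.cons 0x8326709145 (.cons 0x5643219870 (.cons 0x6541907832 .nil)))) (.node 2 7 (.cons 0x9834562701 (.cons 0x9012786543 (.cons 0x5643891072 .nil))) (.node 1 5 (.cons 0x6098723451 (.cons 0x7234519860 (.cons 0x6451983270 .nil))) .done .done) .done) .done)) (.node 3 6 (.cons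 0x5412367890 .nil) (.node 0 5 (.cons 0x7689054123 (.cons 0x9054123687 .nil)) (.node 2 7 (.cons 0x9012786543 (.cons 0x3450968721 (.cons 0x5096872143 .nil))) (.node 0 3 (.cons 0x8965430721 (.cons 0x9687214305 .nil)) (.node 1 5 (.cons 0x9876451230 (.cons 0x6987034512 (.cons 0x7689032154 (.cons 0x3078964512 .nil)))) .done .done) .done) .done) (.node 2 5 (.cons 0x7890125634 (.cons 0x5214369870 (.cons 0x8709634125 .nil))) (.node 0 5 (.cons 0x7689054123 .nil) (.leaf 0x6987052143 0 .done) .done) .done)) .done)) (.node 1 6 (.cons 0x9078612345 .nil) (.node 3 6 .nil (.node 1 4 (.cons 0x3214567890 (.cons 0x8907632145 (.cons 0x5412367890 (.cons 0x9078632145 .nil)))) .done (.node 5 7 (.cons 0x4321657890 (.cons 0x9862107543 (.cons 0x3457098621 .nil))) (.node 1 3 (.cons 0x8690754312 (.cons 0x2134578690 .nil)) (.leaf 0x4312689075 0 (.node 1 7 (.cons 0x6543217890 .nil) .done .done)) (.node 0 4 (.cons 0x2340987561 .nil) (.node 7 9 (.cons 0x8790432165 (.cons 0x5687904321 .nil)) .done (.leaf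 0x3216578904 0 .done)) .done)) .done)) .done) (.node 1 7 (.cons 0x6543217890 .nil) (.node 2 7 (.cons 0x9012786543 .nil) (.node 3 9 (.cons 0x5643987012 (.cons 0x8934560172 (.cons 0x5643987210 (.cons 0x8934562710 .nil)))) (.node 0 5 (.cons 0x1239876450 (.cons 0x2178693450 (.cons 0x9865071234 (.cons 0x6450127893 .nil)))) .done .done) (.node 0 5 (.cons 0x9870564321 (.cons 0x3450968721 (.cons 0x9860543271 .nil))) (.node 1 5 (.cons 0x6098723451 (.cons 0x3451278690 (.cons 0x7098651234 .nil))) .done .done) .done)) (.node 5 9 (.cons 0x1234659870 (.cons 0x8659071234 .nil)) (.node 0 3 (.cons 0x4659870321 (.cons 0x9546871230 .nil)) (.leaf 0x8645903217 0 (.node 0 5 (.cons 0x9870564321 .nil) (.node 1 4 (.cons 0x3214659870 (.cons 0x9507864123 .nil)) (.node 1 9 (.cons 0x5643219870 (.cons 0x4687059123 (.cons 0x7865091234 .nil))) .done .done) .done) .done)) (.node 1 4 (.cons 0x3214567890 (.cons 0x8659071432 (.cons 0x8623417095 .nil))) .done .done)) (.node 0 5 (.cons 0x9870564321 (.cons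 0x3450968712 (.cons 0x4509867123 .nil))) (.node 1 5 (.cons 0x6098715432 (.cons 0x9068715432 (.cons 0x7098651234 .nil))) (.node 2 5 (.cons 0x9870125643 (.cons 0x3452178690 .nil)) .done .done) .done) .done))) .done))) (.node 3 6 .nil (.node 2 4 (.cons 0x5421098763 .nil) (.node 1 6 .nil (.node 3 7 (.cons 0x9012437865 (.cons 0x5610987342 (.cons 0x5423789061 .nil))) (.leaf 0x1245637890 0 .done) (.node 1 4 (.cons 0x5412367890 .nil) (.node 0 4 (.cons 0x5409876321 .nil) (.node 0 7 (.cons 0x8907654123 (.cons 0x8907632145 .nil)) (.node 1 5 (.cons 0x9043215687 (.cons 0x3421569870 .nil)) (.node 1 3 (.cons 0x9870651324 (.cons 0x9870642315 (.cons 0x7890651324 .nil))) .done .done) .done) .done) .done) .done)) (.node 1 4 (.cons 0x3214567890 (.cons 0x5412367890 .nil)) (.node 0 4 (.cons 0x5409876321 .nil) (.node 1 6 (.cons 0x5409876123 .nil) (.node 1 7 (.cons 0x6543217890 .nil) (.leaf 0x2178904563 0 (.node 2 5 (.cons 0x8906714523 (.cons 0x9871063452 (.cons 0x4523609871 .nil))) .done (.node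 0 7 (.cons 0x8907632145 .nil) (.node 1 5 (.cons 0x9078651234 (.cons 0x9871560432 .nil)) (.node 4 9 (.cons 0x5123687094 (.cons 0x8715632490 .nil)) .done .done) .done) .done))) .done) .done) .done) .done)) (.node 1 6 .nil (.node 0 4 (.cons 0x5409876123 .nil) (.node 1 5 (.cons 0x9043215687 .nil) (.leaf 0x2367890451 0 (.node 3 7 (.cons 0x6543789012 (.cons 0x5123768904 .nil)) (.leaf 0x2378904561 0 (.node 0 8 (.cons 0x9804673215 (.cons 0x9804651237 .nil)) .done (.node 2 8 (.cons 0x7345628901 (.cons 0x4516732890 .nil)) (.node 1 9 (.cons 0x6732891540 (.cons 0x7340198265 (.cons 0x9104563782 .nil))) .done (.leaf 0x9823761540 0 .done)) .done))) (.node 2 4 (.cons 0x7890615423 .nil) (.node 3 7 (.cons 0x6543789012 (.cons 0x8736904512 (.cons 0x9873215640 (.cons 0x9042378651 .nil)))) (.leaf 0x2378904561 0 .done) .done) .done))) (.node 7 9 (.cons 0x5687904321 (.cons 0x8790432165 .nil)) (.node 1 5 (.cons 0x8790615432 .nil) (.node 0 7 (.cons 0x8970623451 .nil) (.node 5 8 (.cons 0x4326079851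 (.cons 0x4326158970 (.cons 0x2163458790 .nil))) (.node 5 9 (.cons 0x6879512340 (.cons 0x8597046123 .nil)) (.leaf 0x3216598704 0 .done) .done) .done) (.node 0 5 (.cons 0x7986432150 .nil) (.node 2 5 (.cons 0x5210978634 .nil) (.leaf 0x7901254368 0 (.leaf 0x9786152340 0 .done)) .done) (.leaf 0x978651234 0 .done))) (.node 2 8 (.cons 0x5436109782 (.cons 0x3287904561 .nil)) (.node 1 3 (.cons 0x7982654310 (.cons 0x5409678213 (.cons 0x7821340965 .nil))) (.node 0 7 (.cons 0x5436907821 (.cons 0x5643107982 .nil)) (.leaf 0x1289076543 0 .done) .done) (.node 3 9 (.cons 0x8765409321 (.cons 0x8761239045 (.cons 0x5610439782 .nil))) (.node 2 7 (.cons 0x5682793401 (.cons 0x8279345610 (.cons 0x5432789061 (.cons 0x8279340165 .nil)))) .done .done) .done)) .done)) (.node 0 3 (.cons 0x4567890321 .nil) (.node 5 7 (.cons 0x7568904321 (.cons 0x2169875430 (.cons 0x8754309612 .nil))) (.leaf 0x3216578904 0 (.node 2 9 (.cons 0x5467892103 (.cons 0x8754361290 (.cons 0x5789216430 .nil))) (.leaf 0x1290345786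 0 .done) .done)) (.node 5 7 (.cons 0x7568904321 (.cons 0x4309875612 .nil)) (.node 4 9 (.cons 0x6578943012 (.cons 0x8940321675 .nil)) (.node 7 9 (.cons 0x8975621034 (.cons 0x5798612340 (.cons 0x8975612340 .nil))) .done .done) (.node 2 8 (.cons 0x4309657821 (.cons 0x3457821690 .nil)) (.node 4 9 (.cons 0x1287569430 (.cons 0x5782169430 (.cons 0x9430165782 .nil))) .done (.node 4 9 (.cons 0x9465782103 (.cons 0x5786123490 (.cons 0x4903287561 .nil))) .done .done)) (.leaf 0x3216578904 0 .done))) .done)) .done))) .done) .done)) .done)) (.node 1 4 (.cons 0x3214567890 .nil) tc9_1_12 .done)))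
noncomputable def tc9_1_14 : T := (.node 0 4 (.cons 0x5409876123 .nil) (.node 1 7 (.cons 0x5698712340 (.cons 0x8712340965 .nil)) (.node 3 5 (.cons 0x7896534012 (.cons 0x8904532176 (.cons 0x8904532671 .nil))) (.node 4 8 (.cons 0x7621098453 (.cons 0x1762354890 .nil)) (.node 0 7 (.cons 0x9653487012 (.cons 0x9843562107 .nil)) .done (.leaf 0x9845321760 0 .done)) .done) (.node 3 7 (.cons 0x6543789012 (.cons 0x5698734012 .nil)) (.node 1 5 (.cons 0x7896512340 (.cons 0x8904512376 (.cons 0x4516098732 .nil))) (.node 2 5 (.cons 0x4325609871 (.cons 0x7896521043 (.cons 0x4523789061 .nil))) .done .done) (.node 5 8 (.cons 0x4371098562 (.cons 0x4098562371 (.cons 0x2658904371 .nil))) (.node 0 7 (.cons 0x9658704321 (.cons 0x9854370162 .nil)) .done (.node 2 9 (.cons 0x4365871092 (.cons 0x7854361092 (.cons 0x4092365871 .nil))) .done .done)) .done)) .done)) (.node 3 9 (.cons 0x8765409321 (.cons 0x8761239045 .nil)) (.node 1 9 (.cons 0x8765409123 .nil) (.node 3 5 (.cons 0x8761904532 .nil) (.node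 2 4 (.cons 0x7896534210 (.cons 0x6789012453 .nil)) (.node 1 3 (.cons 0x5423198760 .nil) (.node 1 8 (.cons 0x9187604532 (.cons 0x7812356904 .nil)) .done .done) .done) (.node 2 9 (.cons 0x8760453291 .nil) (.node 0 7 (.cons 0x4356987012 (.cons 0x4532987061 .nil)) (.node 4 9 (.cons 0x6534987012 (.cons 0x8704923561 (.cons 0x2165349870 .nil))) .done .done) .done) .done)) (.node 0 7 (.cons 0x8709123654 .nil) (.node 5 8 (.cons 0x7856904321 (.cons 0x4589321670 (.cons 0x7098543261 (.cons 0x9078543612 .nil)))) (.node 0 3 (.cons 0x4567890321 .nil) (.node 0 8 (.cons 0x7809123654 .nil) .done .done) .done) (.node 0 3 (.cons 0x4567890321 .nil) (.node 0 8 (.cons 0x7809123654 .nil) (.node 0 2 (.cons 0x7890234561 .nil) (.node 2 7 (.cons 0x5432789061 .nil) (.leaf 0x1278903456 0 (.node 5 8 (.cons 0x7856904321 (.cons 0x9160327854 (.cons 0x6190327854 (.cons 0x5872169034 .nil)))) .done .done)) .done) .done) .done) .done)) .done)) (.node 2 8 (.cons 0x5409328761 (.cons 0x7823904561 .nil)) (.node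 2 4 (.cons 0x5428763901 .nil) (.node 0 2 (.cons 0x5420167893 (.cons 0x7893420165 .nil)) (.node 3 5 (.cons 0x7896534210 (.cons 0x9653401287 .nil)) (.leaf 0x4201678935 0 .done) .done) .done) (.node 2 9 (.cons 0x3928765401 (.cons 0x5401678293 .nil)) (.node 2 5 (.cons 0x7825693401 .nil) (.node 2 7 (.cons 0x5432789061 (.cons 0x8725610934 .nil)) (.node 1 4 (.cons 0x8725693410 (.cons 0x3982765410 (.cons 0x8761452390 .nil))) .done .done) .done) .done) (.node 5 7 (.cons 0x8756904321 (.cons 0x9340165782 (.cons 0x4390165782 (.cons 0x9043287561 .nil)))) (.node 3 8 (.cons 0x9045678321 (.cons 0x5783409612 .nil)) (.node 0 2 (.cons 0x9657834021 (.cons 0x6120987543 .nil)) (.node 1 8 (.cons 0x4578163902 (.cons 0x7816540932 .nil)) .done .done) .done) .done) .done))) .done)) (.node 0 3 (.cons 0x4567890321 .nil) (.node 4 6 (.cons 0x5467890321 .nil) (.node 6 8 .nil (.node 5 7 (.cons 0x5789643012 (.cons 0x9034578612 (.cons 0x9867540321 .nil))) (.leaf 0x3216578904 0 .done) (.node 5 7 (.cons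 0x7543098621 (.cons 0x9034578612 .nil)) (.node 2 5 (.cons 0x9876452103 (.cons 0x9034521687 .nil)) (.node 3 7 (.cons 0x8904567321 (.cons 0x9861257304 (.cons 0x9873016452 .nil))) .done .done) (.leaf 0x3216578904 0 (.node 2 8 (.cons 0x9821675403 (.cons 0x7561289043 (.cons 0x9036128754 .nil))) (.node 1 4 (.cons 0x3412875690 (.cons 0x5782143690 .nil)) .done (.leaf 0x1289034576 0 .done)) .done))) .done)) (.node 6 8 .nil (.node 5 7 (.cons 0x9867540321 (.cons 0x9034578612 (.cons 0x8903216754 .nil))) (.leaf 0x3216578904 0 .done) (.node 3 8 (.cons 0x7654098321 .nil) (.node 3 7 (.cons 0x8904567321 .nil) (.node 0 8 (.cons 0x9804567321 (.cons 0x9804561237 .nil)) .done (.node 2 8 (.cons 0x7345628901 (.cons 0x5409823761 (.cons 0x7328904561 .nil))) .done .done)) (.node 2 7 (.cons 0x7265438901 (.cons 0x9016543872 (.cons 0x5432789061 .nil))) (.leaf 0x1278903456 0 (.node 2 5 (.cons 0x3098764521 (.cons 0x9834016527 (.cons 0x9016527834 .nil))) (.node 1 5 (.cons 0x9830461527 (.cons 0x9038725164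 .nil)) (.leaf 0x9872156430 0 .done) .done) .done)) .done)) .done)) .done)) (.node 3 8 (.cons 0x7654098321 (.cons 0x7612389045 .nil)) (.node 0 7 (.cons 0x9834562107 (.cons 0x9832167045 .nil)) (.node 2 9 (.cons 0x7654012983 .nil) (.leaf 0x4561290783 0 (.node 4 9 (.cons 0x7836549210 (.cons 0x5492387061 (.cons 0x1654923870 .nil))) (.leaf 0x5638701294 0 .done) .done)) .done) (.node 3 7 (.cons 0x8904567321 .nil) (.node 0 8 (.cons 0x9804567321 (.cons 0x9804561237 .nil)) (.node 5 7 (.cons 0x8965734012 (.cons 0x5780961234 (.cons 0x9087543612 .nil))) (.leaf 0x3216578904 0 .done) .done) (.node 2 5 (.cons 0x4526738901 (.cons 0x9837610452 (.cons 0x4523789061 .nil))) (.node 0 5 (.cons 0x6123789054 .nil) (.node 5 7 (.cons 0x8962105734 (.cons 0x4309875612 .nil)) (.leaf 0x3216578904 0 .done) .done) .done) .done)) .done)) .done)) .done))) (.node 6 8 .nil (.node 4 6 .nil (.node 1 7 (.cons 0x6543217890 (.cons 0x5643217890 .nil)) (.node 1 5 (.cons 0x9068715432 (.cons 0x3215467890 .nil)) (.node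 0 7 (.cons 0x7098651234 (.cons 0x8907645123 .nil)) .done (.node 0 3 (.cons 0x4567890321 (.cons 0x5467890321 (.cons 0x7890321564 .nil))) (.leaf 0x2154678903 0 .done) .done)) (.node 0 5 (.cons 0x9871605432 (.cons 0x9054687123 (.cons 0x4509867123 .nil))) .done .done)) (.node 0 7 (.cons 0x9078654321 .nil) (.node 1 8 (.cons 0x9078123654 .nil) (.node 1 4 (.cons 0x3214567890 (.cons 0x8907654123 .nil)) (.node 2 5 (.cons 0x9067814523 (.cons 0x9607814325 (.cons 0x5218709643 (.cons 0x9078125463 .nil)))) .done .done) (.node 2 7 (.cons 0x9012786543 (.cons 0x9012786345 .nil)) (.node 3 9 (.cons 0x6543987210 (.cons 0x5643981270 (.cons 0x8934562701 .nil))) (.leaf 0x8654390127 0 .done) (.node 1 3 (.cons 0x5643127890 (.cons 0x8907213465 .nil)) (.node 2 5 (.cons 0x3125467890 (.cons 0x5213469870 (.cons 0x9078125643 (.cons 0x9870613254 .nil)))) .done .done) .done)) .done)) (.node 1 5 (.cons 0x9870615432 (.cons 0x9078632154 .nil)) (.node 1 7 (.cons 0x6543217890 .nil) (.node 4 9 (.cons 0x8715609432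 (.cons 0x8670945123 (.cons 0x5178609432 (.cons 0x8623490715 .nil)))) .done .done) (.node 2 7 (.cons 0x9860723451 (.cons 0x9012786543 (.cons 0x5127098643 .nil))) (.node 0 3 (.cons 0x4567890321 (.cons 0x5643098721 .nil)) (.node 4 8 (.cons 0x9845672103 (.cons 0x3276098451 (.cons 0x5169843270 .nil))) .done .done) .done) .done)) (.node 1 5 (.cons 0x9078651234 (.cons 0x7098651234 .nil)) (.node 0 8 (.cons 0x9087632154 .nil) (.node 4 7 (.cons 0x9087456321 (.cons 0x8743215690 (.cons 0x5123690874 (.cons 0x8907432651 .nil)))) (.leaf 0x3478906512 0 .done) .done) (.node 4 9 (.cons 0x5612349870 (.cons 0x7863215490 .nil)) (.leaf 0x6512349078 0 (.node 1 7 (.cons 0x6543217890 (.cons 0x2368715490 .nil)) (.node 0 3 (.cons 0x4567890321 (.cons 0x6871549032 .nil)) (.node 0 5 (.cons 0x2349870561 .nil) (.leaf 0x6123498705 0 .done) .done) .done) .done)) .done)) .done))) .done)) (.node 4 6 .nil (.node 1 7 (.cons 0x6543217890 (.cons 0x5643217890 .nil)) (.node 2 9 (.cons 0x3456871290 .nil) (.node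 1 5 (.cons 0x7892345160 (.cons 0x8715460923 .nil)) (.node 0 7 (.cons 0x5436870921 (.cons 0x8907645123 .nil)) (.node 5 8 (.cons 0x9234587160 (.cons 0x7064329851 (.cons 0x3290645871 (.cons 0x3468517092 .nil)))) .done .done) .done) (.node 0 8 (.cons 0x5690871234 (.cons 0x9087123465 .nil)) (.node 5 7 (.cons 0x9086217543 (.cons 0x9210875463 (.cons 0x3645780921 .nil))) (.node 1 8 (.cons 0x5718096234 (.cons 0x9081754623 .nil)) (.leaf 0x6329018754 0 .done) .done) (.node 1 9 (.cons 0x8719065432 (.cons 0x7809123645 .nil)) (.node 1 4 (.cons 0x3214567890 .nil) (.node 1 3 (.cons 0x8713290654 .nil) (.node 0 3 (.cons 0x4567890321 (.cons 0x5467890321 .nil)) (.node 5 7 (.cons 0x3298754160 (.cons 0x5789231460 (.cons 0x2134657890 .nil))) (.leaf 0x9214578630 0 .done) .done) .done) .done) .done) .done)) .done)) (.node 0 5 (.cons 0x9054368712 (.cons 0x8712346905 (.cons 0x8905467123 (.cons 0x6450987123 .nil)))) .done .done)) .done) .done)) .done))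
noncomputable def tc9_1_15 : T := (.node 0 4 (.cons 0x5409876321 .nil) (.node 1 7 (.cons 0x6543217890 (.cons 0x5698712340 (.cons 0x8712340965 .nil))) (.node 3 5 (.cons 0x7896534012 (.cons 0x8904532176 (.cons 0x8904532671 .nil))) (.node 0 5 (.cons 0x6321789054 .nil) (.node 1 5 (.cons 0x6098715432 (.cons 0x7896512340 (.cons 0x4517890632 .nil))) .done .done) .done) (.node 2 5 (.cons 0x4325609871 (.cons 0x7896521043 .nil)) (.node 2 4 (.cons 0x5421098763 .nil) (.node 4 8 (.cons 0x9012548763 (.cons 0x9017843652 .nil)) (.node 2 9 (.cons 0x5601789243 (.cons 0x5290634871 .nil)) (.node 0 7 (.cons 0x3654870921 .nil) (.node 1 3 (.cons 0x9254870631 (.cons 0x7845631290 (.cons 0x5489076312 (.cons 0x7845290631 .nil)))) .done .done) .done) .done) .done) (.node 3 7 (.cons 0x5698734012 (.cons 0x6378901254 .nil)) (.node 4 8 (.cons 0x9652104873 (.cons 0x5210963784 (.cons 0x3784096521 .nil))) (.node 2 9 (.cons 0x8437109265 (.cons 0x6378452901 .nil)) .done .done) (.node 1 4 (.cons 0x9871406523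 (.cons 0x8732569041 (.cons 0x8904173256 (.cons 0x5412367890 .nil)))) .done .done)) .done)) .done)) (.node 2 4 (.cons 0x5421098763 .nil) (.node 1 4 (.cons 0x5412367890 .nil) (.node 1 6 .nil (.node 3 7 (.cons 0x5698734210 (.cons 0x5610987342 (.cons 0x8734210965 (.cons 0x5423789061 .nil)))) .done (.node 1 7 (.cons 0x6543217890 .nil) (.node 1 5 (.cons 0x6098715432 (.cons 0x8906715423 (.cons 0x4517890632 .nil))) .done (.node 1 8 (.cons 0x9045678123 (.cons 0x9045632187 .nil)) (.node 1 3 (.cons 0x7609813245 .nil) .done .done) .done)) .done)) (.node 0 7 (.cons 0x8907654123 (.cons 0x8907632145 .nil)) (.node 1 9 (.cons 0x8765409123 (.cons 0x8763219045 .nil)) (.node 5 8 (.cons 0x7856904321 (.cons 0x7065891423 (.cons 0x7098563214 (.cons 0x7098563412 .nil)))) (.node 2 7 (.cons 0x4198563270 (.cons 0x3427856901 (.cons 0x7263458901 .nil))) .done .done) .done) .done) .done)) (.node 0 7 (.cons 0x5698701243 (.cons 0x9870124365 .nil)) (.node 1 4 (.cons 0x3214567890 (.cons 0x8907632145 (.cons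 0x5412367890 .nil))) .done .done) .done)) (.node 1 4 (.cons 0x3214567890 (.cons 0x5412367890 .nil)) (.node 2 4 (.cons 0x5421098763 .nil) (.node 1 6 .nil (.node 3 7 (.cons 0x5698734210 (.cons 0x5610987342 (.cons 0x8734210965 (.cons 0x5423789061 .nil)))) .done (.node 1 7 (.cons 0x6543217890 .nil) (.node 1 5 (.cons 0x6098715432 (.cons 0x8906715423 (.cons 0x4517890632 .nil))) .done (.node 1 8 (.cons 0x7654098123 (.cons 0x7632189045 .nil)) (.node 3 7 (.cons 0x5698734210 (.cons 0x9065423781 (.cons 0x9061873245 (.cons 0x8901734265 .nil)))) .done .done) .done)) .done)) (.node 1 8 (.cons 0x7654098123 (.cons 0x7632189045 .nil)) (.node 1 7 (.cons 0x6543217890 .nil) (.node 0 8 (.cons 0x5690871234 (.cons 0x9087123654 .nil)) (.node 5 7 (.cons 0x5769804123 (.cons 0x9804576321 (.cons 0x9018756342 (.cons 0x5780963421 .nil)))) .done .done) (.node 2 5 (.cons 0x5234178960 (.cons 0x9871063452 (.cons 0x9871452360 .nil))) .done .done)) (.node 1 9 (.cons 0x7819065423 (.cons 0x7819063245 .nil))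 (.node 3 9 (.cons 0x8763901245 (.cons 0x7810936542 .nil)) .done .done) .done)) .done)) (.node 2 4 (.cons 0x5421098763 .nil) (.node 1 6 .nil (.node 3 7 (.cons 0x5698734210 (.cons 0x5610987342 (.cons 0x8734210965 (.cons 0x5423789061 .nil)))) .done (.node 1 7 (.cons 0x6543217890 .nil) (.node 1 5 (.cons 0x6098715432 (.cons 0x8906715423 (.cons 0x4517890632 .nil))) .done (.node 1 8 (.cons 0x7654098123 (.cons 0x7632189045 .nil)) (.node 5 7 (.cons 0x8904321756 (.cons 0x9817560423 (.cons 0x8756901243 (.cons 0x3241875690 (.cons 0x8904365712 .nil))))) .done .done) .done)) .done)) (.node 0 7 (.cons 0x5698701243 (.cons 0x9870124365 .nil)) (.node 0 5 (.cons 0x7896501243 .nil) (.node 0 3 (.cons 0x9876301245 .nil) (.node 0 8 (.cons 0x9087654123 (.cons 0x9087632145 .nil)) .done .done) .done) (.node 1 5 (.cons 0x8907632154 (.cons 0x9870632451 .nil)) (.node 1 6 (.cons 0x9870615432 .nil) .done (.node 1 6 (.cons 0x9870615432 .nil) .done .done)) .done)) .done)) .done)) .done))) (.node 1 6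 .nil (.node 6 8 .nil (.node 2 7 (.cons 0x5432789061 (.cons 0x9012786543 .nil)) (.node 3 9 (.cons 0x6543987210 (.cons 0x2789345610 .nil)) (.node 0 7 (.cons 0x9078654321 (.cons 0x8934561072 (.cons 0x9078612345 .nil))) (.node 0 3 (.cons 0x4567890321 .nil) (.node 0 4 (.cons 0x5698721043 (.cons 0x5409876123 .nil)) (.node 5 9 (.cons 0x4365987012 (.cons 0x8956127043 (.cons 0x7861230954 (.cons 0x9543016872 .nil)))) .done .done) (.leaf 0x1278903456 0 .done)) .done) (.leaf 0x8654390127 0 .done)) (.node 3 5 (.cons 0x4356109872 (.cons 0x9012786534 (.cons 0x7210986534 .nil))) .done .done)) (.node 4 6 .nil (.node 0 5 (.cons 0x4509876123 (.cons 0x7890564321 (.cons 0x7890546123 .nil))) (.node 2 9 (.cons 0x7861290543 .nil) (.node 1 7 (.cons 0x1789234560 (.cons 0x5092178643 (.cons 0x3456871290 .nil))) .done (.node 3 7 (.cons 0x4563789210 (.cons 0x8732905461 (.cons 0x5643789012 .nil))) (.node 2 8 (.cons 0x5690128734 (.cons 0x9012873465 (.cons 0x5461092873 .nil))) (.node 4 8 (.cons 0x5487329061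 (.cons 0x1654873290 .nil)) (.leaf 0x7329016548 0 .done) .done) .done) .done)) (.node 0 4 (.cons 0x5409876123 .nil) (.node 1 7 (.cons 0x5698712340 (.cons 0x8712340965 (.cons 0x8905467123 (.cons 0x5643217890 .nil)))) .done (.node 0 3 (.cons 0x4567890321 (.cons 0x5467890321 .nil)) (.node 3 8 (.cons 0x9045678321 (.cons 0x7612389054 .nil)) (.node 2 9 (.cons 0x5409238761 (.cons 0x7832904561 (.cons 0x7892103465 .nil))) .done .done) .done) .done)) .done)) (.node 0 4 (.cons 0x5409876123 .nil) (.node 2 9 (.cons 0x5401298763 (.cons 0x7892104563 .nil)) (.node 1 7 (.cons 0x5698712340 (.cons 0x3456871290 (.cons 0x5436017892 .nil))) (.node 0 7 (.cons 0x3456870921 .nil) (.node 5 8 (.cons 0x5870964321 (.cons 0x5870129643 (.cons 0x9078546123 (.cons 0x1785643290 .nil)))) .done .done) .done) .done) (.node 3 8 (.cons 0x7654098321 (.cons 0x7612389045 .nil)) (.node 0 3 (.cons 0x4567890321 .nil) (.node 7 9 (.cons 0x5643879012 (.cons 0x5430978612 (.cons 0x8790345612 .nil))) (.node 2 5 (.cons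 0x2564387901 (.cons 0x7983401652 (.cons 0x4387901652 .nil))) (.leaf 0x8790125643 0 .done) .done) (.node 5 7 (.cons 0x7543098621 (.cons 0x9034578612 .nil)) (.node 2 5 (.cons 0x6987521034 (.cons 0x9034521687 .nil)) (.node 4 7 (.cons 0x9834756210 (.cons 0x9832574061 (.cons 0x7409832561 (.cons 0x9874521630 .nil)))) .done .done) (.leaf 0x3216578904 0 (.node 2 4 (.cons 0x9876301245 (.cons 0x5789612430 (.cons 0x5761240983 .nil))) .done .done))) .done)) (.node 2 7 (.cons 0x7265438901 (.cons 0x9016543872 (.cons 0x5432789061 .nil))) (.node 2 9 (.cons 0x3892765401 (.cons 0x5401672983 .nil)) (.node 1 7 (.cons 0x4561783290 (.cons 0x5461783290 .nil)) (.node 0 5 (.cons 0x4650923871 (.cons 0x9832716504 .nil)) (.node 2 4 (.cons 0x9056871243 (.cons 0x9054238761 .nil)) .done .done) .done) .done) (.node 0 5 (.cons 0x9872105634 .nil) (.node 2 9 (.cons 0x5643872901 (.cons 0x4509238761 .nil)) (.node 4 9 (.cons 0x5634987210 (.cons 0x7836105492 (.cons 0x8723490561 (.cons 0x2783490561 .nil))))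 .done .done) (.node 1 7 (.cons 0x9832716504 (.cons 0x9054617832 .nil)) (.leaf 0x3890172654 0 .done) .done)) .done)) .done)) .done)) .done)) .done)) (.node 6 8 .nil (.node 0 7 (.cons 0x9078654321 (.cons 0x9078612345 .nil)) (.node 1 4 (.cons 0x3214567890 (.cons 0x8907654123 .nil)) (.node 1 7 (.cons 0x6543217890 .nil) (.node 5 8 (.cons 0x9854326071 (.cons 0x9854170623 (.cons 0x5896234170 (.cons 0x9854362170 .nil)))) .done (.node 0 4 (.cons 0x9043217865 (.cons 0x7123409865 .nil)) (.node 1 5 (.cons 0x9876321540 (.cons 0x7689045123 (.cons 0x5123698704 .nil))) .done .done) .done)) (.node 0 5 (.cons 0x7689054123 (.cons 0x5078963214 .nil)) (.node 1 7 (.cons 0x9056871234 .nil) (.node 5 9 (.cons 0x8954123670 (.cons 0x6321459870 (.cons 0x2341786950 (.cons 0x8705963412 .nil)))) (.leaf 0x4598706321 0 .done) .done) .done) .done)) (.node 1 7 (.cons 0x6543217890 .nil) (.node 1 5 (.cons 0x7098651234 .nil) (.node 4 9 (.cons 0x5634987012 (.cons 0x5689432170 (.cons 0x8943260715 (.cons 0x8943265170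 (.cons 0x2156349870 .nil))))) .done (.node 0 5 (.cons 0x4321789650 (.cons 0x9865071234 .nil)) (.node 0 4 (.cons 0x5698712340 (.cons 0x9687123405 .nil)) (.node 0 3 (.cons 0x4567890321 (.cons 0x9867123045 .nil)) .done .done) .done) .done)) (.node 3 7 (.cons 0x6543789012 (.cons 0x5437109862 .nil)) (.node 5 7 (.cons 0x8906234571 (.cons 0x1754326890 (.cons 0x3457126890 .nil))) (.node 1 9 (.cons 0x8917543260 (.cons 0x2345719860 (.cons 0x4568732190 .nil))) .done .done) .done) .done)) .done)) (.node 4 6 .nil (.node 1 7 (.cons 0x6543217890 (.cons 0x5643217890 .nil)) (.node 0 5 (.cons 0x4321789650 .nil) (.node 2 9 (.cons 0x1789234560 .nil) (.node 0 3 (.cons 0x4567890321 (.cons 0x5467890321 (.cons 0x9217864305 .nil))) (.node 1 8 (.cons 0x7816092345 (.cons 0x9054678123 (.cons 0x9056432187 (.cons 0x7189230645 .nil)))) .done .done) (.node 1 9 (.cons 0x8764509123 .nil) (.node 4 8 (.cons 0x7843219650 (.cons 0x9123678450 (.cons 0x2348719650 .nil))) .done (.node 1 4 (.cons 0x3298714560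 .nil) (.node 2 5 (.cons 0x5234178960 .nil) (.node 0 7 (.cons 0x8917065432 (.cons 0x5210789643 (.cons 0x9870125643 .nil))) .done .done) .done) .done)) .done)) (.node 1 5 (.cons 0x3215467890 .nil) (.node 0 7 (.cons 0x8965071234 (.cons 0x8709651234 (.cons 0x7098621543 .nil))) (.node 0 3 (.cons 0x4567890321 (.cons 0x5467890321 .nil)) (.node 0 4 (.cons 0x9876321540 .nil) .done .done) .done) (.node 0 3 (.cons 0x4567890321 (.cons 0x5467890321 (.cons 0x7890321564 .nil))) (.node 0 4 (.cons 0x5698712340 .nil) (.node 0 7 (.cons 0x5123698704 (.cons 0x9870463215 .nil)) .done .done) .done) .done)) (.leaf 0x2178905643 0 .done))) (.node 0 5 (.cons 0x7126890543 (.cons 0x8712346905 (.cons 0x8905467123 (.cons 0x9871236450 .nil)))) .done .done)) .done) .done)) .done)) (.node 1 6 .nil tc9_1_14 .done)))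
noncomputable def uc9_1_3 : T := (.node 0 7 (.cons 0x8709654321 .nil) (.node 2 7 (.cons 0x3456987210 (.cons 0x8721096543 .nil)) (.node 3 6 (.cons 0x5436987210 (.cons 0x8721096345 .nil)) (.node 2 4 (.cons 0x7890124365 (.cons 0x9870124365 .nil)) (.node 3 8 (.cons 0x9012456783 (.cons 0x9834562107 (.cons 0x5421096783 .nil))) (.node 1 7 (.cons 0x5438962710 (.cons 0x8712345690 (.cons 0x5690178342 .nil))) .done .done) .done) .done) (.node 1 7 (.cons 0x8712345690 .nil) (.node 1 8 (.cons 0x9817062345 .nil) (.leaf 0x2189076543 0 (.node 1 9 (.cons 0x8917065432 (.cons 0x8917062345 .nil)) (.node 2 9 (.cons 0x1789234560 .nil) (.node 1 5 (.cons 0x4327890651 (.cons 0x8715432960 (.cons 0x8923451706 .nil))) .done .done) .done) (.node 3 7 (.cons 0x8734569012 (.cons 0x4562370981 .nil)) (.node 1 9 (.cons 0x8917065432 (.cons 0x8917062345 .nil)) (.node 3 9 (.cons 0x4560718932 (.cons 0x4562398170 .nil)) .done .done) .done) .done))) (.node 5 8 (.cons 0x9854326071 (.cons 0x6234589071 (.cons 0x6217098543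 .nil))) (.node 3 7 (.cons 0x9854371062 (.cons 0x8734569012 (.cons 0x4372658901 .nil))) .done (.node 1 4 (.cons 0x3214567890 (.cons 0x9854170623 (.cons 0x8907654123 .nil))) (.node 0 3 (.cons 0x6903217854 (.cons 0x8769032145 (.cons 0x7856903214 .nil))) (.node 0 5 (.cons 0x8712345096 .nil) .done .done) .done) .done)) .done)) .done)) (.node 1 6 (.cons 0x5432169870 (.cons 0x8709612345 .nil)) (.node 1 7 (.cons 0x6543217890 (.cons 0x8712345690 .nil)) (.node 3 6 (.cons 0x5436987012 .nil) (.node 5 8 (.cons 0x9854326071 (.cons 0x9634587012 (.cons 0x4587096321 (.cons 0x3458962170 .nil)))) (.node 0 4 (.cons 0x7890432165 (.cons 0x5896170432 .nil)) (.node 2 9 (.cons 0x2963458710 (.cons 0x1785692340 .nil)) (.node 1 3 (.cons 0x4589076231 (.cons 0x8540713296 (.cons 0x6923178540 .nil))) .done .done) .done) .done) .done) .done) .done) (.node 2 7 (.cons 0x3456987210 (.cons 0x8721096543 .nil)) (.node 1 7 (.cons 0x8712345690 .nil) (.node 0 3 (.cons 0x4567890321 .nil) (.node 0 2 (.cons 0x5432069871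 .nil) (.node 0 5 (.cons 0x8965071234 .nil) (.node 0 8 (.cons 0x9654321780 .nil) (.node 0 4 (.cons 0x5408967123 .nil) .done .done) .done) .done) (.node 0 8 (.cons 0x9803217654 (.cons 0x7123089654 .nil)) (.node 5 7 (.cons 0x6908754321 (.cons 0x1754326980 (.cons 0x3457126980 .nil))) .done .done) (.leaf 0x1278965430 0 .done))) (.node 0 3 (.cons 0x4567890321 .nil) (.node 5 8 (.cons 0x6903217854 (.cons 0x6271098543 (.cons 0x3458906271 .nil))) (.node 3 7 (.cons 0x9854371062 .nil) (.node 7 9 (.cons 0x8543097126 .nil) .done .done) (.node 2 4 (.cons 0x5698701243 (.cons 0x9658701243 (.cons 0x9678542103 .nil))) .done .done)) (.node 5 8 (.cons 0x6712309854 (.cons 0x4589671230 (.cons 0x6271098543 (.cons 0x3458906271 .nil)))) (.node 1 5 (.cons 0x6098715432 (.cons 0x2345178960 (.cons 0x8709651234 .nil))) (.node 4 6 (.cons 0x9854603271 (.cons 0x3217854690 (.cons 0x8907215643 .nil))) .done .done) .done) (.leaf 0x1278965430 0 .done))) .done)) (.node 1 7 (.cons 0x6543217890 (.cons 0x8712345690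 .nil)) (.node 3 6 (.cons 0x5436987210 (.cons 0x8721096345 .nil)) (.node 2 4 (.cons 0x7890124365 (.cons 0x5698701243 .nil)) (.node 2 5 (.cons 0x7890125634 (.cons 0x3452789601 .nil)) (.node 1 4 (.cons 0x3214567890 (.cons 0x3254178960 .nil)) (.node 1 5 (.cons 0x6098723451 (.cons 0x8709651234 .nil)) .done .done) .done) .done) .done) .done) .done)) .done))) (.node 3 6 .nil tc9_1_15 (.node 4 6 .nil tc9_1_13 .done)))
theorem sub_c9_1_3 : root 9 refs9_1 [] 0x700000008706000000006030000000030500602000504000000004030000000030100000600102000000002018002000010 0xfe7fff3fffb7ff93ffcfffe7fff5ffb9fff9fef9 9 6 9 .nil uc9_1_3 = true := by decide +kernel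
noncomputable def tc9_1_16 : T := (.node 1 7 (.cons 0x6543217890 (.cons 0x3456987120 (.cons 0x9023456871 .nil))) (.node 3 6 (.cons 0x5436987120 (.cons 0x8712096345 .nil)) (.node 2 4 (.cons 0x5421780963 (.cons 0x5421098763 .nil)) (.node 3 7 (.cons 0x9862017345 (.cons 0x8734569021 (.cons 0x9801736245 .nil))) (.leaf 0x8901245637 0 .done) .done) .done) (.node 1 4 (.cons 0x3214567890 (.cons 0x9023417865 (.cons 0x7143209865 .nil))) (.node 0 5 (.cons 0x9865023417 (.cons 0x3417896502 .nil)) (.node 4 6 (.cons 0x5643217890 .nil) (.node 1 6 (.cons 0x7890234561 .nil) (.node 0 4 (.cons 0x5409876123 (.cons 0x5617890432 .nil)) (.node 3 8 (.cons 0x7654098321 (.cons 0x9650217834 (.cons 0x7834509612 (.cons 0x9650214387 .nil)))) .done .done) .done) .done) .done) (.node 3 5 (.cons 0x4356987120 (.cons 0x5341786902 (.cons 0x7689023541 (.cons 0x6789023541 .nil)))) (.node 2 4 (.cons 0x8712435690 .nil) (.leaf 0x8901243567 0 .done) .done) .done)) .done)) (.node 1 8 (.cons 0x7812096543 .nil) (.node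 3 8 (.cons 0x7834569021 .nil) (.node 1 6 .nil (.node 7 9 (.cons 0x3456978120 (.cons 0x5432097861 (.cons 0x9781654320 .nil))) (.node 0 5 (.cons 0x7612389054 (.cons 0x9781650234 .nil)) (.node 3 7 (.cons 0x9654378120 (.cons 0x9837621054 (.cons 0x9087321654 (.cons 0x4379810562 .nil)))) .done .done) .done) (.node 0 7 (.cons 0x5438709612 .nil) (.node 1 7 (.cons 0x6543217890 .nil) (.node 4 8 (.cons 0x5690217843 .nil) (.node 5 8 (.cons 0x3458709612 .nil) .done .done) .done) (.node 0 3 (.cons 0x4567890321 .nil) (.node 0 5 (.cons 0x7834509612 .nil) .done .done) .done)) .done)) (.node 1 6 .nil (.node 7 9 (.cons 0x3456978120 (.cons 0x5432097861 (.cons 0x9781654320 .nil))) (.node 0 5 (.cons 0x9781650234 .nil) (.node 1 4 (.cons 0x9056783214 (.cons 0x7650983214 (.cons 0x6789054123 .nil))) .done (.node 0 4 (.cons 0x4056798123 (.cons 0x5409876123 (.cons 0x7981650432 .nil))) .done .done)) .done) (.node 1 7 (.cons 0x6543217890 .nil) (.node 1 3 (.cons 0x5431786902 .nil) (.node 1 4 (.cons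 0x3214567890 .nil) .done .done) (.node 4 6 (.cons 0x5643217890 .nil) (.node 3 6 .nil (.node 2 4 (.cons 0x5421098763 .nil) (.node 3 7 (.cons 0x9873421065 (.cons 0x3780965421 (.cons 0x5421690873 (.cons 0x9087324561 .nil)))) .done .done) .done) .done) .done)) .done)) .done)) (.node 3 6 (.cons 0x7812096345 .nil) (.node 3 8 (.cons 0x7834569021 .nil) (.node 0 5 (.cons 0x9634502187 .nil) (.node 4 6 (.cons 0x7645098123 .nil) (.node 1 6 .nil (.node 3 7 (.cons 0x8734569021 (.cons 0x9087321654 (.cons 0x9087321645 (.cons 0x5437816902 .nil)))) .done .done) .done) (.node 0 7 .nil (.node 1 4 (.cons 0x3214567890 (.cons 0x9814507623 (.cons 0x5690783412 (.cons 0x9814507632 .nil)))) .done (.node 0 3 (.cons 0x4567890321 .nil) (.node 0 4 .nil (.node 1 5 (.cons 0x2154369870 (.cons 0x7043896215 (.cons 0x7834096512 (.cons 0x7651238904 (.cons 0x3698704512 .nil))))) .done .done) .done) .done)) .done)) .done) (.node 0 7 (.cons 0x5436907812 .nil) (.node 1 6 .nil (.node 5 8 (.cons 0x9612078543 (.cons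 0x9078543612 .nil)) (.node 3 7 (.cons 0x8734569021 (.cons 0x1269854370 (.cons 0x4378569021 (.cons 0x5437816902 .nil)))) .done .done) (.node 4 6 .nil (.node 5 9 (.cons 0x6123459870 (.cons 0x7089546123 (.cons 0x3216459870 (.cons 0x3209546781 .nil)))) .done .done) .done)) (.node 1 6 (.cons 0x7098162345 .nil) (.node 0 5 (.cons 0x9816234507 .nil) (.node 4 6 (.cons 0x7645098123 .nil) .done .done) .done) .done)) .done)) (.node 3 8 (.cons 0x7834569021 .nil) (.node 0 7 (.cons 0x9654387021 .nil) (.node 3 6 .nil (.node 1 5 (.cons 0x7098623451 (.cons 0x2154369870 (.cons 0x8709634512 (.cons 0x8907632154 (.cons 0x9638702154 .nil))))) .done (.node 1 6 (.cons 0x9612078345 .nil) (.node 4 6 .nil (.node 1 5 (.cons 0x7098623451 (.cons 0x9832154670 (.cons 0x9645120783 .nil))) (.node 1 7 (.cons 0x9654387120 .nil) .done .done) .done) .done) .done)) (.node 0 5 .nil (.node 7 9 (.cons 0x7983456210 (.cons 0x6978345021 (.cons 0x4387965021 .nil))) .done (.node 0 3 (.cons 0x4567890321 .nil) (.node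 0 4 .nil (.node 5 7 (.cons 0x4326570981 (.cons 0x9875604321 (.cons 0x3409657812 (.cons 0x9830457621 .nil)))) .done .done) .done) .done)) .done)) (.node 0 3 (.cons 0x4567890321 .nil) (.node 0 5 .nil (.node 1 3 (.cons 0x9678312054 (.cons 0x4509678312 .nil)) (.node 1 6 (.cons 0x9612054387 (.cons 0x7834509612 .nil)) .done .done) (.node 0 4 .nil (.node 5 7 (.cons 0x4576210983 (.cons 0x9875604321 (.cons 0x3409657812 (.cons 0x3890457621 .nil)))) .done (.node 0 7 .nil (.node 1 6 (.cons 0x5409876123 (.cons 0x9612078345 (.cons 0x5438709612 .nil))) .done .done) .done)) .done)) (.node 0 7 .nil (.node 1 7 (.cons 0x5438962170 (.cons 0x5432689071 .nil)) (.leaf 0x2654389071 0 .done) (.node 0 5 .nil (.node 1 7 (.cons 0x6543217890 (.cons 0x7126983450 (.cons 0x6905438712 .nil))) .done (.node 0 4 .nil (.node 5 7 (.cons 0x4576210983 (.cons 0x9875604321 (.cons 0x3409657812 (.cons 0x7562340981 (.cons 0x3890457621 .nil))))) .done .done) .done)) .done)) .done)) .done)) .done))) (.node 3 6 .nil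 (.node 1 7 (.cons 0x6543217890 (.cons 0x5436987120 (.cons 0x9087123654 .nil))) (.node 5 7 (.cons 0x1754326890 (.cons 0x8754369021 (.cons 0x8901754362 (.cons 0x6345789021 .nil)))) (.node 2 4 (.cons 0x9875601243 (.cons 0x5421780963 .nil)) (.node 3 5 (.cons 0x9635421780 (.cons 0x7124536980 (.cons 0x9876354201 .nil))) .done .done) .done) (.node 1 6 (.cons 0x7890216345 .nil) (.node 5 7 (.cons 0x3457896120 (.cons 0x8754369021 (.cons 0x9875436102 (.cons 0x9875436120 .nil)))) (.node 7 9 (.cons 0x3457986201 (.cons 0x8975436210 (.cons 0x8975436201 .nil))) .done .done) (.node 4 6 (.cons 0x5643217890 .nil) (.node 1 4 (.cons 0x3214567890 (.cons 0x5412367890 .nil)) (.node 5 7 (.cons 0x2341756890 (.cons 0x7541208963 (.cons 0x8754369021 (.cons 0x8902367541 (.cons 0x6345789021 .nil))))) .done .done) .done) .done)) .done)) (.node 0 7 (.cons 0x5436987021 .nil) (.node 1 6 .nil (.node 5 7 (.cons 0x3457896120 (.cons 0x9875436102 (.cons 0x9875436120 .nil))) (.node 1 3 (.cons 0x2096875431 (.cons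 0x4576890231 (.cons 0x7543109862 .nil))) (.node 1 7 (.cons 0x9862017543 (.cons 0x1754326890 .nil)) .done .done) .done) (.node 4 6 .nil (.node 3 7 (.cons 0x6543789012 (.cons 0x9087321645 (.cons 0x5643789012 .nil))) (.node 1 5 (.cons 0x7896345120 (.cons 0x8902376451 (.cons 0x9873645102 .nil))) (.node 1 9 (.cons 0x2345687091 (.cons 0x8915467320 (.cons 0x7326451980 (.cons 0x8709123465 (.cons 0x6451987320 .nil))))) .done .done) .done) .done) .done)) (.node 1 6 .nil (.node 5 7 (.cons 0x3457896120 (.cons 0x9023457861 (.cons 0x9875436120 .nil))) (.node 1 8 (.cons 0x3457026981 (.cons 0x6234570981 (.cons 0x4326570981 .nil))) .done .done) (.node 4 6 .nil (.node 3 7 (.cons 0x6543789012 (.cons 0x9087321645 (.cons 0x5643789012 .nil))) (.node 1 5 (.cons 0x7896345120 (.cons 0x9645120873 (.cons 0x9870236451 .nil))) (.node 7 9 (.cons 0x5432097861 (.cons 0x2379086451 (.cons 0x8097321564 .nil))) .done .done) .done) .done) .done)) .done)) (.node 5 8 (.cons 0x7854369021 .nil) (.node 0 7 (.cons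 0x9634587021 .nil) (.node 1 6 (.cons 0x9612078543 .nil) (.node 4 6 .nil (.node 1 7 (.cons 0x9634587120 (.cons 0x9087123645 (.cons 0x5643217890 .nil))) .done .done) .done) (.node 0 3 (.cons 0x4567890321 .nil) (.node 1 6 .nil (.node 4 7 (.cons 0x5609874321 (.cons 0x9803216547 (.cons 0x9087456123 (.cons 0x9854761230 (.cons 0x9854761203 .nil))))) .done (.node 4 6 .nil (.node 1 9 (.cons 0x7854369120 (.cons 0x3207645891 (.cons 0x7645891230 (.cons 0x5461987023 .nil)))) (.leaf 0x6703219854 0 .done) .done) .done)) .done) .done)) (.node 1 6 (.cons 0x9021634587 .nil) (.node 4 6 .nil (.node 1 7 (.cons 0x6543217890 (.cons 0x9087123645 (.cons 0x5643217890 .nil))) (.node 3 9 (.cons 0x4587639021 (.cons 0x8546712093 (.cons 0x7126458093 (.cons 0x2178564390 (.cons 0x9320871645 .nil))))) .done .done) .done) .done) .done)) .done))) .done)))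
noncomputable def tc9_1_17 : T := (.node 1 7 (.cons 0x6543217890 (.cons 0x3456908712 .nil)) (.node 0 3 (.cons 0x9654308712 (.cons 0x9803217654 (.cons 0x7126980345 .nil))) (.node 1 4 (.cons 0x3214567890 (.cons 0x9087654123 (.cons 0x9803267145 .nil))) (.node 2 7 (.cons 0x8903276541 (.cons 0x3456908721 (.cons 0x5430896271 (.cons 0x5698034172 .nil)))) .done .done) .done) (.node 5 7 (.cons 0x1754326890 (.cons 0x3457126980 (.cons 0x9086234571 .nil))) (.node 3 6 (.cons 0x8901754362 (.cons 0x9801754362 (.cons 0x5436908712 .nil))) .done (.node 1 4 (.cons 0x3214567890 (.cons 0x9087654123 .nil)) (.node 3 9 (.cons 0x2143987560 (.cons 0x7654123980 (.cons 0x7562143980 (.cons 0x5417623980 .nil)))) (.node 3 7 (.cons 0x6543789012 (.cons 0x5437126980 (.cons 0x8096217345 (.cons 0x5410893762 .nil)))) (.node 4 6 (.cons 0x5643789012 (.cons 0x5467809321 .nil)) .done .done) .done) (.node 2 7 (.cons 0x8906572143 (.cons 0x9806572143 (.cons 0x3456908721 .nil))) (.node 3 7 (.cons 0x6543789012 (.cons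 0x5437126980 (.cons 0x8096217345 .nil))) (.node 1 5 (.cons 0x7154326890 (.cons 0x2734156980 (.cons 0x8096514372 .nil))) (.node 2 5 (.cons 0x3254176890 (.cons 0x1734526980 (.cons 0x8096527341 .nil))) .done .done) .done) .done) .done)) .done)) (.node 4 6 (.cons 0x5643217890 (.cons 0x9087123465 .nil)) (.node 1 4 (.cons 0x3214567890 (.cons 0x9087654123 .nil)) (.node 2 5 (.cons 0x7143256890 (.cons 0x9086523417 .nil)) (.node 0 3 (.cons 0x9652178034 (.cons 0x7125698034 (.cons 0x7143089652 .nil))) (.node 0 4 (.cons 0x9652178043 (.cons 0x9804176523 .nil)) .done .done) (.node 0 2 (.cons 0x7143209865 .nil) (.node 5 9 (.cons 0x4320956871 (.cons 0x7123465980 (.cons 0x9564320871 .nil))) .done (.node 3 5 (.cons 0x5346987120 (.cons 0x7698021453 (.cons 0x4356908712 (.cons 0x7120896435 (.cons 0x7146980253 .nil))))) .done .done)) .done)) (.node 3 6 (.cons 0x5412367890 (.cons 0x9087632145 .nil)) .done .done)) .done) .done))) (.node 3 8 .nil (.node 0 4 (.cons 0x9045678321 (.cons 0x7654098321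 .nil)) (.node 1 7 (.cons 0x6543217890 (.cons 0x9871234065 (.cons 0x2178345690 .nil))) (.node 0 2 (.cons 0x7834569021 .nil) (.node 0 5 (.cons 0x6905438712 (.cons 0x6712389054 (.cons 0x4509832671 .nil))) .done .done) (.leaf 0x2389045671 0 .done)) (.node 1 7 (.cons 0x6543217890 (.cons 0x2178345690 (.cons 0x5409832671 .nil))) (.node 2 9 (.cons 0x5604329871 (.cons 0x5401762983 (.cons 0x7104389265 (.cons 0x7104562983 .nil)))) .done (.node 5 7 (.cons 0x8904326571 (.cons 0x9834017562 (.cons 0x7543809621 (.cons 0x4389017562 .nil)))) (.node 4 6 (.cons 0x5643217890 (.cons 0x9083462175 .nil)) (.node 1 6 (.cons 0x5617890432 .nil) (.node 2 9 (.cons 0x6129087543 (.cons 0x5409238761 (.cons 0x4387561290 (.cons 0x7832904561 .nil)))) .done .done) .done) .done) .done)) .done)) (.node 0 7 (.cons 0x9834562107 .nil) (.node 0 2 (.cons 0x9654387021 .nil) (.node 2 8 (.cons 0x3456907821 .nil) (.node 2 9 (.cons 0x1296543870 .nil) (.node 1 8 (.cons 0x3456907812 .nil) (.node 3 6 (.cons 0x9078123654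 .nil) (.node 2 7 (.cons 0x5436872901 .nil) (.node 2 5 (.cons 0x7863452901 .nil) (.node 1 7 (.cons 0x6543217890 .nil) (.leaf 0x8634529017 0 (.node 2 4 (.cons 0x9017865243 .nil) .done .done)) .done) .done) .done) .done) .done) .done) .done) (.node 7 9 (.cons 0x7983456210 .nil) (.node 4 8 .nil (.node 0 3 (.cons 0x4567890321 (.cons 0x9762103845 (.cons 0x7654890321 .nil))) .done (.node 5 8 .nil (.node 1 6 (.cons 0x5438970162 (.cons 0x1623458970 (.cons 0x6123458790 .nil))) .done (.node 1 8 .nil (.node 0 4 (.cons 0x5401267983 (.cons 0x9045678123 (.cons 0x7654098123 .nil))) .done (.node 2 8 .nil (.node 1 3 (.cons 0x7821345690 (.cons 0x4567098231 .nil)) (.node 1 7 (.cons 0x5431708962 (.cons 0x4586231790 .nil)) .done (.leaf 0x9654312870 0 .done)) .done) .done)) .done)) .done)) (.node 4 8 .nil (.node 3 7 (.cons 0x6543789012 (.cons 0x8437901265 (.cons 0x5489012673 .nil))) .done (.node 5 8 .nil (.node 3 7 (.cons 0x6543789012 (.cons 0x1265843790 (.cons 0x4589012673 .nil))) .done (.node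 3 6 .nil (.node 2 4 (.cons 0x5624389701 (.cons 0x4210978563 (.cons 0x5421098763 .nil))) (.leaf 0x7901243658 0 .done) (.node 3 7 (.cons 0x6543789012 .nil) (.node 0 3 (.cons 0x4567890321 .nil) (.node 0 4 (.cons 0x4097856321 .nil) (.node 0 5 (.cons 0x4850973621 .nil) .done .done) .done) .done) .done)) .done)) .done)) .done)) .done)) (.node 0 7 .nil (.node 5 7 (.cons 0x3457089621 (.cons 0x4389075621 .nil)) (.node 1 4 (.cons 0x2143875690 (.cons 0x9621438075 (.cons 0x5690783412 (.cons 0x8907654123 (.cons 0x8341269075 .nil))))) .done (.node 1 4 (.cons 0x3214567890 (.cons 0x9834107562 (.cons 0x5690783412 (.cons 0x8907654123 .nil)))) (.node 2 4 (.cons 0x7562438901 (.cons 0x9834265701 (.cons 0x5690783421 .nil))) .done .done) .done)) (.node 1 8 (.cons 0x3456907812 .nil) (.node 2 8 (.cons 0x3456907821 .nil) (.node 0 2 .nil (.node 1 4 (.cons 0x3214567890 (.cons 0x7834120965 .nil)) (.node 1 7 (.cons 0x6543217890 (.cons 0x5417689023 (.cons 0x7143209865 .nil))) .done (.node 3 5 (.cons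 0x6907821453 (.cons 0x7896021435 (.cons 0x8769021453 (.cons 0x7689023541 (.cons 0x6789023541 .nil))))) .done .done)) .done) .done) (.node 2 8 (.cons 0x3456907821 .nil) (.node 0 3 (.cons 0x4567890321 .nil) (.node 4 8 (.cons 0x7654890321 .nil) (.node 5 8 .nil (.node 1 7 (.cons 0x7128965430 (.cons 0x9621708543 (.cons 0x6712309854 (.cons 0x9071265843 .nil)))) .done .done) .done) (.node 3 7 (.cons 0x6543789012 .nil) (.node 3 6 (.cons 0x9078123654 .nil) (.node 3 5 (.cons 0x9621807354 .nil) (.node 0 2 (.cons 0x4537698021 .nil) (.node 0 5 (.cons 0x7345089621 .nil) .done .done) .done) .done) (.node 4 8 (.cons 0x5481269073 .nil) (.node 5 8 (.cons 0x8543709621 .nil) .done .done) .done)) .done)) .done) .done)) (.node 0 3 (.cons 0x4567890321 .nil) (.node 3 7 (.cons 0x6543789012 .nil) (.node 3 6 .nil (.node 1 4 (.cons 0x3214567890 (.cons 0x9087632145 (.cons 0x5412367890 .nil))) (.node 0 2 (.cons 0x9870236541 .nil) (.node 1 6 (.cons 0x9612087345 .nil) .done .done) (.node 0 2 (.cons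 0x5412089673 (.cons 0x7369802145 .nil)) .done .done)) .done) (.node 1 8 (.cons 0x9032187654 .nil) (.node 7 9 (.cons 0x2187965430 .nil) (.node 1 7 (.cons 0x6543217890 .nil) (.node 0 4 (.cons 0x5623407981 .nil) (.node 1 6 (.cons 0x5618970432 .nil) .done .done) .done) .done) (.node 2 8 .nil (.node 1 3 (.cons 0x7098132654 (.cons 0x9826543107 (.cons 0x4567098231 .nil))) .done (.node 4 8 (.cons 0x5489012673 .nil) (.node 5 8 (.cons 0x4589012673 .nil) .done .done) .done)) .done)) .done)) (.node 0 4 .nil (.node 1 7 (.cons 0x6543217890 (.cons 0x9871234065 (.cons 0x5690438712 .nil))) (.node 1 5 (.cons 0x7154326890 (.cons 0x9867154032 (.cons 0x7834096512 (.cons 0x7651238904 (.cons 0x7154098623 .nil))))) .done (.node 5 8 (.cons 0x4326589071 (.cons 0x9856234071 (.cons 0x7126589043 .nil))) (.node 4 6 (.cons 0x9856403217 (.cons 0x9046587123 .nil)) .done .done) .done)) (.node 1 8 (.cons 0x9045678123 .nil) (.node 4 8 (.cons 0x7654890321 .nil) (.node 1 6 .nil (.node 4 7 (.cons 0x5609874321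 (.cons 0x9803216745 (.cons 0x8903216745 .nil))) .done (.node 1 3 (.cons 0x7654890312 .nil) (.node 0 2 (.cons 0x7026981345 .nil) (.node 0 5 (.cons 0x7054318962 .nil) .done .done) .done) .done)) .done) (.node 2 8 .nil (.node 1 3 (.cons 0x7098132654 (.cons 0x9826543107 (.cons 0x7821345690 (.cons 0x5409678213 .nil)))) .done (.node 4 8 (.cons 0x7654890321 .nil) (.node 5 8 .nil (.node 1 4 (.cons 0x3214567890 (.cons 0x9041238567 (.cons 0x3267098541 .nil))) (.node 1 7 (.cons 0x7128965430 (.cons 0x7126908543 (.cons 0x6234589071 (.cons 0x9856234170 .nil)))) .done .done) .done) .done) .done)) .done)) .done)) .done)) .done))) .done))) (.node 0 2 .nil tc9_1_16 .done)))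
noncomputable def tc9_1_18 : T := (.node 5 7 (.cons 0x6123457890 (.cons 0x6345789012 (.cons 0x2163457890 .nil))) (.node 0 4 (.cons 0x9875604321 (.cons 0x5409876123 .nil)) (.node 7 9 (.cons 0x8790432165 (.cons 0x8975436210 .nil)) (.node 1 8 (.cons 0x5618790432 (.cons 0x5409781632 .nil)) .done .done) (.node 4 9 (.cons 0x1234987560 (.cons 0x5789432160 .nil)) (.node 7 9 (.cons 0x8975604321 (.cons 0x8975612340 (.cons 0x8975436210 .nil))) .done .done) (.leaf 0x6578904321 0 .done))) (.node 2 8 (.cons 0x3457821690 (.cons 0x9012875634 .nil)) (.node 4 9 (.cons 0x8756094321 (.cons 0x1632875490 .nil)) (.node 0 8 (.cons 0x3457809612 (.cons 0x8094576321 (.cons 0x7549082361 .nil))) .done .done) .done) (.node 0 7 (.cons 0x8907543261 .nil) (.node 1 8 (.cons 0x7543261890 (.cons 0x4326570981 (.cons 0x9078123654 .nil))) .done (.node 0 2 (.cons 0x4578902361 (.cons 0x4320987561 .nil)) (.node 1 9 (.cons 0x7543689102 (.cons 0x9123456870 (.cons 0x8709123654 (.cons 0x4365789102 .nil)))) .done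 .done) .done)) .done))) (.node 4 6 .nil (.node 3 7 (.cons 0x6543789012 (.cons 0x5643789012 (.cons 0x5461237890 .nil))) (.node 0 3 (.cons 0x4567890321 (.cons 0x5467890321 .nil)) (.node 2 9 (.cons 0x6543789210 (.cons 0x8921037645 (.cons 0x5643789210 .nil))) (.node 3 5 (.cons 0x4532167890 (.cons 0x6453789210 (.cons 0x2987354610 .nil))) .done .done) (.node 2 9 (.cons 0x6543789210 (.cons 0x5461037892 (.cons 0x5643789210 .nil))) .done .done)) (.node 0 3 (.cons 0x4567890321 (.cons 0x5467890321 .nil)) (.node 3 5 (.cons 0x4532167890 (.cons 0x1235467890 .nil)) (.node 2 5 (.cons 0x6109873452 (.cons 0x2564378901 (.cons 0x1645237890 .nil))) (.node 2 8 (.cons 0x7345628901 (.cons 0x9016437825 (.cons 0x9016452873 .nil))) .done .done) .done) .done) .done)) (.node 0 3 (.cons 0x4567890321 .nil) (.node 4 8 (.cons 0x7654890321 (.cons 0x7612309845 .nil)) (.node 0 4 (.cons 0x5409876123 .nil) (.node 3 7 (.cons 0x6543789012 (.cons 0x5489037612 .nil)) (.leaf 0x2378904561 0 (.node 2 5 (.cons 0x2564378901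 (.cons 0x1256987340 (.cons 0x8734096521 (.cons 0x9048736521 .nil)))) .done (.node 7 9 (.cons 0x7986543012 .nil) (.node 1 5 (.cons 0x9786043215 (.cons 0x7986043215 (.cons 0x9786321540 .nil))) (.leaf 0x2367890451 0 .done) (.node 1 5 (.cons 0x3048976512 (.cons 0x9786512340 (.cons 0x7986512340 (.cons 0x7986512304 .nil)))) .done .done)) .done))) (.node 4 7 (.cons 0x5609874321 (.cons 0x8903216745 .nil)) (.node 2 7 (.cons 0x3098456721 .nil) (.node 0 8 (.cons 0x3456908721 (.cons 0x9803216745 (.cons 0x9803216547 (.cons 0x9087234561 .nil)))) .done (.leaf 0x4561278903 0 (.node 0 5 (.cons 0x8965034721 (.cons 0x9847216503 (.cons 0x4327890561 .nil))) .done .done))) .done) .done)) .done) (.node 2 5 (.cons 0x7896125430 (.cons 0x7890325461 .nil)) (.node 7 9 (.cons 0x7986210345 (.cons 0x9786345210 (.cons 0x8790125634 (.cons 0x7986254301 .nil)))) .done (.node 5 7 (.cons 0x9862103457 (.cons 0x2169875430 .nil)) (.node 1 8 (.cons 0x7543261890 (.cons 0x4309618752 (.cons 0x9032546187 .nil)))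 .done (.node 1 8 (.cons 0x9034618752 (.cons 0x9032546187 .nil)) (.leaf 0x2189034576 0 .done) .done)) .done)) (.node 3 7 (.cons 0x6543789012 .nil) (.node 2 4 (.cons 0x9873421065 (.cons 0x5423098761 .nil)) (.node 2 9 (.cons 0x6543789210 (.cons 0x5429876103 (.cons 0x7892430165 (.cons 0x4561037892 .nil)))) .done (.node 0 4 (.cons 0x5409876123 .nil) (.leaf 0x2378904561 0 (.node 0 8 (.cons 0x9804567321 (.cons 0x9804561237 .nil)) (.node 0 5 (.cons 0x7345089621 (.cons 0x9612450873 .nil)) (.node 0 7 (.cons 0x5437089621 .nil) .done .done) .done) .done)) .done)) (.node 0 7 (.cons 0x9862107345 .nil) (.node 0 5 (.cons 0x9862105437 (.cons 0x2378905461 .nil)) (.node 0 4 (.cons 0x5409876123 .nil) (.node 1 7 (.cons 0x9871234065 (.cons 0x9865043217 .nil)) .done .done) .done) .done) (.node 4 8 (.cons 0x7348901265 .nil) (.node 3 5 (.cons 0x7621098453 (.cons 0x7612354890 .nil)) (.node 2 5 (.cons 0x2564378901 (.cons 0x9032548761 .nil)) (.node 0 4 (.cons 0x9840126735 (.cons 0x9612537840 (.cons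 0x7352169840 .nil))) .done .done) .done) (.node 0 5 (.cons 0x7348905621 (.cons 0x7348905612 .nil)) (.node 3 8 (.cons 0x7834509612 .nil) (.node 0 4 (.cons 0x7654098321 (.cons 0x5409876123 .nil)) (.node 1 7 (.cons 0x9871234065 (.cons 0x2178345690 (.cons 0x6905438712 .nil))) .done .done) .done) (.node 2 4 (.cons 0x9056378421 (.cons 0x9056124873 (.cons 0x5098732461 .nil))) (.node 2 9 (.cons 0x3789246501 (.cons 0x5429876103 (.cons 0x7892430165 (.cons 0x7892456103 .nil)))) .done .done) .done)) .done)) .done))) .done))) .done)) (.node 4 6 .nil (.node 3 7 (.cons 0x6543789012 (.cons 0x5643789012 (.cons 0x5461237890 .nil))) (.node 2 5 (.cons 0x7890163452 (.cons 0x9873460125 .nil)) (.node 2 9 (.cons 0x6543789210 (.cons 0x7892543610 (.cons 0x5643789210 .nil))) (.node 0 2 (.cons 0x4563789201 (.cons 0x5437896120 .nil)) (.node 0 7 (.cons 0x3452169870 (.cons 0x3645298701 .nil)) (.leaf 0x8701634529 0 .done) .done) .done) (.node 3 8 (.cons 0x7834521690 (.cons 0x9012564387 .nil)) .done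 (.leaf 0x1256437890 0 .done))) (.node 2 8 (.cons 0x1287345690 (.cons 0x5437821690 (.cons 0x9012873465 .nil))) (.node 5 9 (.cons 0x4590163782 (.cons 0x2873645901 (.cons 0x8732164590 .nil))) (.node 0 8 (.cons 0x5437809612 (.cons 0x8095467321 (.cons 0x7328095461 .nil))) .done (.leaf 0x6590128734 0 .done)) .done) .done)) (.node 0 3 (.cons 0x4567890321 .nil) (.node 4 9 (.cons 0x8765490321 (.cons 0x8761230945 .nil)) (.node 0 4 (.cons 0x5409876123 .nil) (.node 3 7 (.cons 0x6543789012 .nil) (.leaf 0x2378904561 0 (.node 5 8 (.cons 0x9458673012 (.cons 0x4587309612 (.cons 0x7345890162 (.cons 0x8549037612 .nil)))) .done (.node 2 5 (.cons 0x7349865210 (.cons 0x1256987340 (.cons 0x8734096521 .nil))) (.node 1 4 (.cons 0x3789652140 (.cons 0x9687304125 .nil)) .done .done) .done))) (.node 4 8 (.cons 0x9032167845 .nil) (.node 3 7 (.cons 0x6543789012 (.cons 0x5489012673 (.cons 0x7348901265 .nil))) (.node 0 2 (.cons 0x5437896120 (.cons 0x9654873021 .nil)) (.node 1 7 (.cons 0x8712096543 (.cons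 0x9687120345 (.cons 0x5690348712 .nil))) .done .done) .done) (.node 2 9 (.cons 0x9210345687 (.cons 0x5487612903 (.cons 0x7843092165 (.cons 0x7845612903 .nil)))) .done .done)) .done)) (.node 4 8 (.cons 0x9032167845 .nil) (.node 3 7 (.cons 0x6543789012 (.cons 0x5489012673 (.cons 0x7348901265 .nil))) (.node 0 2 (.cons 0x5437896120 (.cons 0x1654987320 .nil)) (.node 1 7 (.cons 0x8712096543 (.cons 0x9687120345 (.cons 0x5690348712 .nil))) .done .done) .done) (.node 2 9 (.cons 0x9210345687 (.cons 0x5487612903 (.cons 0x7843092165 (.cons 0x7845612903 .nil)))) .done .done)) .done)) (.node 0 4 (.cons 0x5409876123 .nil) (.node 1 7 (.cons 0x9871234065 (.cons 0x9867123045 .nil)) (.node 3 8 (.cons 0x2178345690 (.cons 0x5690438712 .nil)) (.node 2 5 (.cons 0x9012546783 (.cons 0x7698304521 (.cons 0x7834521690 (.cons 0x2540963871 .nil)))) .done .done) (.node 2 5 (.cons 0x9871043652 (.cons 0x8712569043 .nil)) (.node 3 8 (.cons 0x5217834690 (.cons 0x9012564387 .nil)) (.leaf 0x2389045671 0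 .done) (.node 4 7 (.cons 0x8965217403 (.cons 0x1632547890 (.cons 0x9865230471 (.cons 0x9865217403 .nil)))) .done .done)) .done)) (.node 4 8 (.cons 0x7654890321 (.cons 0x7612309845 .nil)) (.node 4 7 (.cons 0x5609874321 (.cons 0x8903216745 .nil)) (.node 0 8 (.cons 0x9803216745 (.cons 0x9803216547 .nil)) (.node 2 7 (.cons 0x3098456721 (.cons 0x3456908721 (.cons 0x5436109872 (.cons 0x5698034721 .nil)))) .done .done) .done) .done) .done)) (.node 2 7 (.cons 0x8721690345 (.cons 0x5436109872 .nil)) (.node 1 5 (.cons 0x6987215430 (.cons 0x9687215430 (.cons 0x8721546903 .nil))) (.leaf 0x9603451278 0 .done) (.leaf 0x1278903456 0 (.node 5 8 (.cons 0x9012785643 (.cons 0x9032164587 (.cons 0x9034612785 .nil))) (.node 5 7 (.cons 0x9862103457 (.cons 0x2169875430 (.cons 0x8754309612 (.cons 0x4309857261 .nil)))) .done .done) .done))) .done))) .done)) .done)))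
noncomputable def tc9_1_19 : T := (.node 0 7 (.cons 0x9078654321 .nil) (.node 3 8 (.cons 0x9834562107 .nil) (.node 1 5 (.cons 0x7890651234 (.cons 0x9870651234 (.cons 0x6907834512 (.cons 0x6709832154 .nil)))) (.node 1 6 (.cons 0x5438709612 .nil) (.node 4 6 (.cons 0x3870964512 (.cons 0x7098326451 .nil)) .done .done) .done) (.node 1 4 (.cons 0x3214567890 (.cons 0x5690783412 (.cons 0x8907654123 .nil))) (.node 5 7 (.cons 0x9834107562 (.cons 0x9834126570 .nil)) (.node 2 4 (.cons 0x9875601243 (.cons 0x5690783421 .nil)) (.node 1 5 (.cons 0x3421578960 (.cons 0x4387096512 (.cons 0x6983421570 .nil))) (.leaf 0x7512438960 0 .done) .done) (.node 4 9 (.cons 0x8756094321 (.cons 0x7568349012 (.cons 0x5786094321 .nil))) (.leaf 0x3490126578 0 .done) .done)) (.node 5 7 (.cons 0x8341269075 (.cons 0x4389075621 .nil)) (.node 2 5 (.cons 0x3412578960 (.cons 0x4387096521 .nil)) (.leaf 0x7521438960 0 .done) (.node 2 4 (.cons 0x7562438901 (.cons 0x9834265701 (.cons 0x5690783421 .nil))) .done .done))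 .done)) (.node 2 7 (.cons 0x9834562701 (.cons 0x9012786543 .nil)) (.node 3 6 (.cons 0x9012786345 .nil) (.node 1 5 (.cons 0x7890651234 (.cons 0x1543896270 (.cons 0x3451278690 (.cons 0x8963451270 (.cons 0x9836270154 .nil))))) .done .done) (.node 1 4 (.cons 0x3214567890 (.cons 0x9834107265 (.cons 0x2389076541 .nil))) (.node 1 5 (.cons 0x2783415690 (.cons 0x9870651234 (.cons 0x8341569072 .nil))) (.node 4 9 (.cons 0x7238651490 (.cons 0x3278651490 .nil)) (.leaf 0x6512349870 0 (.leaf 0x941562387 0 .done)) .done) (.node 3 5 (.cons 0x9835410762 (.cons 0x5341278690 (.cons 0x7210986534 .nil))) (.node 5 7 (.cons 0x2143578960 (.cons 0x9014386275 (.cons 0x5726890143 (.cons 0x6098753412 .nil)))) .done .done) .done)) .done)) .done))) (.node 1 6 (.cons 0x9078612345 .nil) (.node 1 7 (.cons 0x6543217890 .nil) (.node 5 7 (.cons 0x9862107543 (.cons 0x3457098621 .nil)) (.node 3 8 (.cons 0x1269834570 (.cons 0x8345712690 (.cons 0x7562109834 (.cons 0x9834570162 .nil)))) .done (.node 3 7 (.cons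 0x6543789012 (.cons 0x9862107345 .nil)) (.node 1 4 (.cons 0x3214567890 (.cons 0x5734109862 .nil)) (.node 2 9 (.cons 0x8926107543 (.cons 0x8629017543 (.cons 0x8657143290 (.cons 0x3298614570 .nil)))) .done .done) .done) .done)) (.node 0 5 (.cons 0x3450789612 (.cons 0x9056871234 (.cons 0x9861234507 .nil))) (.node 3 7 (.cons 0x6543789012 (.cons 0x9862107345 .nil)) (.node 1 5 (.cons 0x7890651234 (.cons 0x8690734512 .nil)) (.node 2 5 (.cons 0x3452169870 .nil) (.node 5 8 (.cons 0x9071586234 (.cons 0x9073458621 .nil)) .done .done) .done) (.node 2 5 (.cons 0x3452169870 (.cons 0x9862543701 .nil)) (.leaf 0x986254371 0 .done) .done)) (.node 0 4 (.cons 0x9871650432 (.cons 0x9043217865 (.cons 0x7123409865 .nil))) .done .done)) .done)) .done) (.node 1 7 (.cons 0x6543217890 (.cons 0x5432689071 .nil)) (.node 1 6 .nil (.node 0 5 (.cons 0x9862345071 (.cons 0x4509876123 (.cons 0x9054321687 (.cons 0x9861705432 .nil)))) (.node 1 5 (.cons 0x7890651234 (.cons 0x9078615432 (.cons 0x7098615432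 .nil))) .done .done) (.node 1 4 (.cons 0x3214567890 .nil) (.node 2 9 (.cons 0x8709234561 (.cons 0x5432907861 (.cons 0x5689234170 (.cons 0x3298654170 .nil)))) .done (.node 5 9 (.cons 0x4321789560 (.cons 0x5986071432 (.cons 0x3268954170 .nil))) (.node 0 2 (.cons 0x3456987120 (.cons 0x7102689543 (.cons 0x7861459023 .nil))) (.node 0 3 (.cons 0x8954176230 (.cons 0x7689032145 (.cons 0x2034596871 .nil))) .done .done) .done) .done)) .done)) (.node 1 6 .nil (.node 0 4 (.cons 0x5409876123 (.cons 0x9043217865 .nil)) (.node 7 9 (.cons 0x5687904321 (.cons 0x8790432165 (.cons 0x5432168790 .nil))) .done (.node 0 3 (.cons 0x4567890321 (.cons 0x5430968712 .nil)) (.node 4 9 (.cons 0x8765490321 (.cons 0x8761230945 .nil)) (.node 5 9 (.cons 0x6871234590 (.cons 0x8761230954 (.cons 0x8617095432 (.cons 0x7861230954 .nil)))) .done .done) .done) .done)) (.node 1 4 (.cons 0x3214567890 .nil) (.node 1 5 (.cons 0x7890651234 .nil) (.node 1 3 (.cons 0x8907654132 (.cons 0x7098623154 .nil)) (.node 1 8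 (.cons 0x9071862345 .nil) .done .done) .done) (.node 0 3 (.cons 0x4567890321 (.cons 0x7689032145 (.cons 0x5430968712 .nil))) (.node 0 5 (.cons 0x6789054123 (.cons 0x7689054123 .nil)) (.node 3 6 (.cons 0x9054178632 .nil) .done .done) .done) .done)) .done)) (.node 7 9 (.cons 0x1234568790 .nil) (.node 3 7 (.cons 0x8973456210 .nil) (.node 5 7 (.cons 0x4321756890 .nil) (.node 0 3 (.cons 0x4567890321 (.cons 0x8975430126 .nil)) (.node 0 4 (.cons 0x9875604321 (.cons 0x9043217865 (.cons 0x9867540321 .nil))) .done .done) (.node 0 3 (.cons 0x4567890321 (.cons 0x4309865712 (.cons 0x7543098621 .nil))) .done .done)) (.node 2 7 (.cons 0x9012786543 .nil) (.leaf 0x8901273456 0 .done) .done)) (.node 3 7 (.cons 0x6543789012 (.cons 0x5437986210 (.cons 0x8621097345 .nil))) .done .done)) .done))) .done))) (.node 1 6 .nil (.node 3 6 .nil tc9_1_18 (.node 3 6 .nil (.node 1 4 (.cons 0x3214567890 (.cons 0x5412367890 .nil)) (.node 4 6 .nil (.node 1 7 (.cons 0x6543217890 (.cons 0x5643217890 (.cons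 0x5463217890 .nil))) .done (.node 1 7 (.cons 0x6543217890 .nil) (.node 1 5 (.cons 0x5178906432 (.cons 0x2364517890 .nil)) (.node 5 8 (.cons 0x7158906432 (.cons 0x7109854362 (.cons 0x7126345890 .nil))) (.node 2 4 (.cons 0x7158906423 (.cons 0x5421098763 .nil)) (.node 4 7 (.cons 0x5609874321 (.cons 0x3621745890 .nil)) .done .done) .done) .done) (.node 2 4 (.cons 0x5421098763 .nil) (.node 1 5 (.cons 0x2346517890 (.cons 0x3246517890 .nil)) (.node 1 3 (.cons 0x5642317890 .nil) (.node 0 5 (.cons 0x2346509871 (.cons 0x8769054213 (.cons 0x3246509871 (.cons 0x6789054231 .nil)))) .done .done) .done) (.node 0 2 (.cons 0x5643209871 .nil) (.node 1 5 (.cons 0x2346517890 (.cons 0x7890236451 .nil)) (.node 5 8 (.cons 0x3421785690 (.cons 0x7158902364 (.cons 0x9017856342 (.cons 0x9021634587 .nil)))) .done .done) (.node 4 7 (.cons 0x5609874321 (.cons 0x3654789021 .nil)) (.node 1 5 (.cons 0x2346517890 (.cons 0x8902364715 (.cons 0x6321547890 .nil))) .done .done) .done)) .done)) .done)) .done))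 (.node 0 7 (.cons 0x8907654123 (.cons 0x8907632145 .nil)) (.node 1 8 (.cons 0x3456907812 (.cons 0x5436907812 (.cons 0x9078123654 .nil))) (.node 1 9 (.cons 0x9123456870 (.cons 0x8709123654 .nil)) (.node 1 3 (.cons 0x8709654312 .nil) (.node 1 7 (.cons 0x6543217890 .nil) .done .done) .done) .done) (.node 1 8 (.cons 0x9078165432 (.cons 0x5418907632 (.cons 0x7098145632 .nil))) (.node 2 8 (.cons 0x3289076541 (.cons 0x7098236541 .nil)) (.node 1 5 (.cons 0x3451690782 (.cons 0x9826345107 (.cons 0x9078236154 .nil))) .done .done) .done) .done)) .done)) (.node 4 6 .nil (.node 1 7 (.cons 0x6543217890 (.cons 0x5643217890 .nil)) (.node 3 7 (.cons 0x6543789012 (.cons 0x5643789012 .nil)) (.node 0 3 (.cons 0x2178965430 (.cons 0x5467890321 .nil)) (.node 1 5 (.cons 0x7890651234 .nil) (.node 0 7 (.cons 0x8965430712 (.cons 0x8907645123 .nil)) (.node 0 8 (.cons 0x9803217654 (.cons 0x9803217645 .nil)) (.node 2 7 (.cons 0x9865430127 (.cons 0x8096451273 (.cons 0x8907234651 .nil))) .done .done)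 .done) (.leaf 0x2154678903 0 .done)) .done) (.node 2 5 (.cons 0x8734521690 (.cons 0x9873460125 (.cons 0x2546378901 .nil))) (.node 3 8 (.cons 0x9012564387 .nil) (.node 7 9 (.cons 0x5437986210 (.cons 0x8790125643 (.cons 0x2654389710 .nil))) .done .done) .done) .done)) (.node 0 3 (.cons 0x4567890321 (.cons 0x8903217645 (.cons 0x5467890321 .nil))) (.node 5 8 (.cons 0x6903458712 (.cons 0x3096458712 .nil)) (.leaf 0x4690321785 0 (.node 0 2 (.cons 0x9687120345 (.cons 0x5463209871 .nil)) (.node 2 9 (.cons 0x9210345687 (.cons 0x7856430921 (.cons 0x2903645871 .nil))) .done .done) .done)) .done) .done)) .done) .done)) .done)) (.node 0 8 .nil tc9_1_17 .done)))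
noncomputable def tc9_1_20 : T := (.node 0 3 (.cons 0x4567890321 .nil) (.node 0 4 (.cons 0x5409876123 .nil) (.node 1 8 (.cons 0x9812304567 (.cons 0x9045632187 .nil)) (.node 2 7 (.cons 0x5436901872 (.cons 0x5403276981 (.cons 0x5432781690 .nil))) (.leaf 0x4561278903 0 (.node 0 5 (.cons 0x7816905432 (.cons 0x4327890561 .nil)) (.node 2 5 (.cons 0x7810963452 (.cons 0x9634018725 (.cons 0x3254096781 .nil))) .done .done) .done)) (.node 5 7 (.cons 0x9875604321 (.cons 0x2340965781 (.cons 0x7562340981 (.cons 0x9043657812 .nil)))) (.node 2 4 (.cons 0x7569810342 (.cons 0x5781096342 .nil)) (.node 4 7 (.cons 0x9812304765 (.cons 0x8903216745 (.cons 0x3475621890 .nil))) (.leaf 0x5743218906 0 .done) .done) .done) .done)) (.node 3 9 (.cons 0x8765409321 (.cons 0x8761239045 .nil)) (.node 5 8 (.cons 0x7856123904 .nil) (.leaf 0x2390458761 0 (.node 7 9 (.cons 0x9785604321 (.cons 0x4589761230 (.cons 0x2165879340 .nil))) .done (.node 1 3 (.cons 0x9045876132 .nil) (.node 2 7 (.cons 0x2789654310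 (.cons 0x9340165872 (.cons 0x4390165872 (.cons 0x4589032761 (.cons 0x9043278561 .nil))))) .done .done) (.node 2 4 (.cons 0x7612458903 .nil) (.node 1 7 (.cons 0x4217658930 (.cons 0x6587124390 (.cons 0x6712458903 (.cons 0x4217658903 .nil)))) .done (.node 0 7 (.cons 0x9078543612 (.cons 0x5610789342 .nil)) (.node 1 9 (.cons 0x7065891243 (.cons 0x6345870912 (.cons 0x4219365870 .nil))) .done .done) .done)) .done)))) .done) (.node 4 8 (.cons 0x7654890321 (.cons 0x7612309845 .nil)) (.node 6 8 .nil (.node 0 7 (.cons 0x9845670321 (.cons 0x9078612345 .nil)) .done (.node 4 6 .nil (.node 0 5 (.cons 0x4509876123 (.cons 0x7890564321 (.cons 0x7890546123 .nil))) (.node 0 7 (.cons 0x9845670321 .nil) (.node 1 5 (.cons 0x2345169870 (.cons 0x8907645123 .nil)) (.leaf 0x2154678903 0 .done) .done) .done) .done) .done)) (.node 4 7 (.cons 0x5609874321 (.cons 0x8903216745 .nil)) (.node 0 8 (.cons 0x9803216745 (.cons 0x9803216547 .nil)) (.node 1 7 (.cons 0x2345690871 (.cons 0x5617890432 .nil)) (.node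 0 5 (.cons 0x8716905432 (.cons 0x3269805471 .nil)) .done .done) .done) (.node 1 7 (.cons 0x5617890432 .nil) (.node 0 8 (.cons 0x9803217654 (.cons 0x9087456123 .nil)) (.node 0 2 (.cons 0x1789654320 (.cons 0x9617802345 (.cons 0x9871654023 .nil))) .done .done) (.node 0 7 (.cons 0x8907162345 .nil) (.node 1 3 (.cons 0x9845670312 (.cons 0x7098431265 .nil)) .done .done) .done)) .done)) .done)) .done))) (.node 4 6 (.cons 0x5467890321 .nil) (.node 2 5 (.cons 0x9876452103 (.cons 0x7896103452 .nil)) (.node 6 8 (.cons 0x9034521687 .nil) .done (.node 4 7 (.cons 0x5609874321 (.cons 0x8745230961 (.cons 0x6125478903 .nil))) (.node 6 8 (.cons 0x9012547863 .nil) (.node 3 9 (.cons 0x1254786390 .nil) (.node 0 7 (.cons 0x7039864521 (.cons 0x8612547093 (.cons 0x9870325461 .nil))) .done (.node 0 5 (.cons 0x9876450321 (.cons 0x5093478612 (.cons 0x8905476123 (.cons 0x1647893250 .nil)))) .done .done)) .done) (.node 2 9 (.cons 0x5467892103 (.cons 0x8745290163 (.cons 0x5298746103 .nil))) .done .done))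 .done)) (.node 2 5 (.cons 0x3098764521 (.cons 0x7896103452 .nil)) (.node 6 8 (.cons 0x9034521687 .nil) (.node 7 9 (.cons 0x7986210345 (.cons 0x8790346125 (.cons 0x9786125430 .nil))) (.node 3 8 (.cons 0x9038764521 (.cons 0x5216438790 (.cons 0x6109783452 .nil))) .done .done) .done) (.node 6 8 .nil (.node 4 7 (.cons 0x5609874321 (.cons 0x9032547861 (.cons 0x1698745230 (.cons 0x9012547863 .nil)))) .done (.node 4 9 (.cons 0x9452103687 .nil) (.node 0 7 (.cons 0x5498670321 (.cons 0x7032549861 .nil)) (.node 3 9 (.cons 0x9307864521 .nil) (.node 4 8 (.cons 0x3907846521 (.cons 0x3254870961 (.cons 0x4870932561 .nil))) .done .done) .done) (.node 0 7 (.cons 0x9452107863 (.cons 0x8709452361 .nil)) (.node 0 2 (.cons 0x7890234561 .nil) (.node 3 7 (.cons 0x6543789012 (.cons 0x8736945201 (.cons 0x5643789021 (.cons 0x8736109452 .nil)))) .done .done) .done) .done)) .done)) .done)) .done)) (.node 2 4 (.cons 0x5423098761 .nil) (.node 3 7 (.cons 0x6543789012 (.cons 0x9873421065 .nil)) (.node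 5 8 (.cons 0x4589012673 (.cons 0x9854267301 (.cons 0x2458736901 (.cons 0x3762458901 .nil)))) (.node 0 2 (.cons 0x9021634587 (.cons 0x9021637854 .nil)) (.node 1 7 (.cons 0x9065871243 (.cons 0x3420965871 .nil)) (.leaf 0x3245617890 0 .done) .done) .done) (.node 1 7 (.cons 0x6543217890 .nil) (.leaf 0x3245617890 0 (.node 0 8 (.cons 0x2345690871 (.cons 0x3245690871 .nil)) (.node 1 5 (.cons 0x2437896510 (.cons 0x8096715423 (.cons 0x7809632451 .nil))) .done .done) (.node 5 8 (.cons 0x4589032671 (.cons 0x5896243710 (.cons 0x1785423690 (.cons 0x7162345890 (.cons 0x3098542671 .nil))))) .done .done))) .done)) (.node 2 9 (.cons 0x5429876103 (.cons 0x7892430165 (.cons 0x7892456103 .nil))) (.node 1 7 (.cons 0x6543017892 .nil) (.node 1 4 (.cons 0x5416789032 .nil) (.node 2 7 (.cons 0x8903276145 (.cons 0x9872430165 .nil)) .done .done) (.node 3 5 (.cons 0x7892106534 (.cons 0x8924530176 .nil)) (.leaf 0x8924356017 0 .done) (.leaf 0x8903245617 0 .done))) .done) (.node 1 4 (.cons 0x5416789032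 .nil) (.node 1 8 (.cons 0x9032456187 .nil) (.node 5 7 (.cons 0x9814576230 (.cons 0x2345781690 (.cons 0x7543261890 (.cons 0x7543098162 .nil)))) (.node 0 4 (.cons 0x9875604321 (.cons 0x9816754032 (.cons 0x5409876123 .nil))) .done .done) (.node 5 9 (.cons 0x9567814230 (.cons 0x7816590324 (.cons 0x7816590342 .nil))) (.node 0 7 (.cons 0x4189567032 (.cons 0x8954167032 .nil)) (.node 0 5 (.cons 0x9650781432 .nil) (.node 1 7 (.cons 0x8716905423 .nil) .done .done) .done) .done) .done)) (.node 0 4 (.cons 0x5409876123 .nil) (.node 3 7 (.cons 0x6543789012 (.cons 0x8904123765 .nil)) (.leaf 0x2378904561 0 (.node 0 7 (.cons 0x8907654123 .nil) (.node 5 8 (.cons 0x6732145890 (.cons 0x9854012673 (.cons 0x8541690732 (.cons 0x2376145890 (.cons 0x9061243785 .nil))))) .done .done) .done)) .done) .done)) .done))) .done))) (.node 6 8 .nil (.node 4 6 .nil (.node 1 7 (.cons 0x6543217890 (.cons 0x5643217890 .nil)) (.node 1 5 (.cons 0x7890651234 .nil) (.node 0 7 (.cons 0x8690715432 (.cons 0x8907645123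 .nil)) (.node 2 9 (.cons 0x1654329870 (.cons 0x8643290715 (.cons 0x8645170923 .nil))) .done .done) (.node 0 3 (.cons 0x4567890321 (.cons 0x4517869032 .nil)) (.leaf 0x2154678903 0 (.node 0 7 (.cons 0x9078632154 .nil) (.node 1 8 (.cons 0x4518709632 (.cons 0x9078123465 .nil)) .done .done) .done)) .done)) (.node 0 3 (.cons 0x4567890321 (.cons 0x8903217645 (.cons 0x5467890321 .nil))) (.node 0 5 (.cons 0x2345096871 (.cons 0x8905467123 (.cons 0x9871645032 .nil))) .done .done) .done)) (.node 2 7 (.cons 0x9012786543 (.cons 0x9012786345 .nil)) (.node 3 8 (.cons 0x7265438901 .nil) (.node 0 7 (.cons 0x9078654321 (.cons 0x5438962701 (.cons 0x9834562701 .nil))) .done (.leaf 0x7834569012 0 (.node 1 8 (.cons 0x5436901872 .nil) (.node 1 4 (.cons 0x3214567890 (.cons 0x3278145690 (.cons 0x5418723690 .nil))) (.node 0 4 (.cons 0x9045632187 (.cons 0x7238140965 (.cons 0x5409632781 (.cons 0x5672389041 .nil)))) .done .done) .done) .done))) (.node 0 3 (.cons 0x2789654301 (.cons 0x9865430127 .nil))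 (.node 4 9 (.cons 0x5498761230 (.cons 0x5498672103 .nil)) (.node 1 5 (.cons 0x8763215490 (.cons 0x7860943215 (.cons 0x7689032154 (.cons 0x7863215490 .nil)))) .done .done) (.node 3 7 (.cons 0x6543789012 .nil) (.leaf 0x8901273456 0 (.node 2 5 (.cons 0x1256437890 (.cons 0x9012568734 .nil)) (.node 4 9 (.cons 0x4987301652 (.cons 0x5689437210 (.cons 0x9452786301 .nil))) .done .done) .done)) .done)) (.node 1 7 (.cons 0x6543217890 .nil) (.node 1 5 (.cons 0x3465127890 .nil) (.node 0 7 (.cons 0x8907215643 (.cons 0x8690715432 (.cons 0x4327098651 .nil))) .done (.node 0 3 (.cons 0x4567890321 (.cons 0x4517869032 .nil)) (.leaf 0x2789034651 0 (.node 4 9 (.cons 0x5610349872 (.cons 0x8651723094 (.cons 0x7863215490 .nil))) .done .done)) .done)) (.node 0 7 (.cons 0x9078654321 (.cons 0x5432689071 .nil)) (.node 0 2 (.cons 0x5432096871 (.cons 0x5432078961 .nil)) (.node 1 4 (.cons 0x3214567890 (.cons 0x5417869023 (.cons 0x8907654123 .nil))) .done .done) .done) .done)) .done))) .done)) (.node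 4 6 .nil (.node 1 7 (.cons 0x6543217890 (.cons 0x5643217890 .nil)) (.node 1 5 (.cons 0x7890651234 .nil) (.node 1 4 (.cons 0x3214567890 .nil) (.node 0 7 (.cons 0x8907645123 .nil) (.node 5 8 (.cons 0x9065871234 (.cons 0x7069851432 (.cons 0x2369078541 (.cons 0x3267098541 .nil)))) .done (.node 1 8 (.cons 0x5418907623 (.cons 0x7098156432 .nil)) (.node 0 8 (.cons 0x2345690871 .nil) (.node 5 9 (.cons 0x2345961780 (.cons 0x7809546321 .nil)) (.leaf 0x6234598071 0 .done) .done) .done) .done)) .done) (.node 0 3 (.cons 0x4567890321 (.cons 0x5467890321 .nil)) (.leaf 0x2154678903 0 (.node 3 7 (.cons 0x6543789012 (.cons 0x6451237890 (.cons 0x4651237890 .nil))) (.node 2 9 (.cons 0x6543789210 (.cons 0x6451037892 (.cons 0x5643789210 .nil))) (.node 2 8 (.cons 0x1782345690 (.cons 0x3287154690 (.cons 0x9032871564 .nil))) (.node 4 9 (.cons 0x5123789460 .nil) (.leaf 0x5630178294 0 (.node 5 9 (.cons 0x4378956012 .nil) (.leaf 0x4630178295 0 .done) .done)) .done) .done) .done) .done)) .done))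 (.node 0 3 (.cons 0x4567890321 (.cons 0x8903217645 (.cons 0x5467890321 .nil))) (.node 0 5 (.cons 0x9054368712 (.cons 0x8905467123 (.cons 0x9871645032 .nil))) (.node 1 8 (.cons 0x9056432187 (.cons 0x7189032645 .nil)) (.node 0 7 (.cons 0x5432698170 .nil) (.leaf 0x2189076543 0 .done) .done) .done) .done) .done)) .done) .done)) .done))
noncomputable def tc9_1_21 : T := (.node 1 6 .nil (.node 0 7 (.cons 0x9078654321 (.cons 0x9078612345 .nil)) (.node 1 5 (.cons 0x7890651234 (.cons 0x9870651234 (.cons 0x8709615432 .nil))) (.node 2 7 (.cons 0x9012786543 (.cons 0x8961543270 .nil)) (.leaf 0x1689072345 0 .done) (.node 2 4 (.cons 0x1542369870 (.cons 0x3245169870 (.cons 0x8709615423 .nil))) (.node 3 7 (.cons 0x4237890651 (.cons 0x8732451690 (.cons 0x5610987342 .nil))) .done .done) .done)) (.node 2 7 (.cons 0x9012786543 (.cons 0x8907234561 (.cons 0x5432709861 .nil))) (.node 3 9 (.cons 0x6543987210 (.cons 0x5439861072 .nil)) (.node 0 4 (.cons 0x9340127865 (.cons 0x5409876123 (.cons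 0x7210439865 .nil))) .done .done) (.node 3 5 (.cons 0x9012786534 (.cons 0x4356109872 (.cons 0x7210986534 .nil))) .done .done)) .done)) (.node 0 7 (.cons 0x9078654321 (.cons 0x9078612345 .nil)) (.node 1 4 (.cons 0x3214567890 (.cons 0x8907654123 .nil)) (.node 4 6 .nil (.node 2 5 (.cons 0x2543698701 (.cons 0x7890125643 (.cons 0x9870125643 (.cons 0x9870125463 .nil)))) (.leaf 0x7896523410 0 .done) (.node 1 5 (.cons 0x7890651234 .nil) (.node 2 7 (.cons 0x9012786543 (.cons 0x8963451072 (.cons 0x8965143270 .nil))) (.node 3 8 (.cons 0x5438962701 (.cons 0x9834651270 (.cons 0x9834562701 .nil))) .done .done) (.node 4 9 (.cons 0x6321549870 .nil) (.leaf 0x6512349870 0 (.node 0 4 (.cons 0x2369870451 .nil) (.leaf 0x5123698704 0 (.node 0 8 (.cons 0x5498076321 (.cons 0x7089456321 .nil)) .done .done)) .done)) .done)) .done)) (.node 5 9 (.cons 0x8954123670 (.cons 0x6321459870 (.cons 0x5987063412 .nil))) (.node 0 5 (.cons 0x7689054123 (.cons 0x2369870541 .nil)) (.leaf 0x4123698705 0 (.node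 1 7 (.cons 0x4321789560 (.cons 0x7143268905 .nil)) .done .done)) .done) .done)) (.node 1 7 (.cons 0x6543217890 (.cons 0x5432689071 .nil)) (.node 1 4 (.cons 0x3214567890 .nil) (.node 2 9 (.cons 0x8709234561 (.cons 0x5432907861 (.cons 0x5689234170 (.cons 0x3298654170 .nil)))) .done (.node 5 9 (.cons 0x4321789560 (.cons 0x5986071432 (.cons 0x3268954170 .nil))) (.node 0 3 (.cons 0x2145987630 (.cons 0x7689032145 (.cons 0x7126895430 .nil))) (.node 0 2 (.cons 0x3678954120 (.cons 0x3459862071 (.cons 0x9541203687 .nil))) .done .done) .done) .done)) (.node 4 6 (.cons 0x5643217890 .nil) (.node 0 4 (.cons 0x9043217865 (.cons 0x7123409865 .nil)) (.node 2 9 (.cons 0x8709234561 (.cons 0x5432907861 (.cons 0x7892104365 (.cons 0x7892104563 .nil)))) .done (.node 1 5 (.cons 0x9876321540 (.cons 0x9862340715 (.cons 0x7689045123 .nil))) (.node 3 5 (.cons 0x6789045321 (.cons 0x4096871532 (.cons 0x7689045321 (.cons 0x7153268904 .nil)))) .done .done) .done)) .done) .done)) .done)) .done)) (.node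 4 6 .nil (.node 1 6 .nil (.node 3 7 (.cons 0x6543789012 (.cons 0x5643789012 (.cons 0x5461237890 .nil))) (.node 2 8 (.cons 0x2873456901 (.cons 0x9012873465 .nil)) (.node 5 9 (.cons 0x9560128734 (.cons 0x8732164590 .nil)) (.node 0 8 (.cons 0x8095467321 (.cons 0x9087321654 .nil)) (.node 1 9 (.cons 0x4591673280 (.cons 0x7346591082 (.cons 0x4561908732 .nil))) .done .done) (.node 4 9 (.cons 0x1287349560 (.cons 0x5943782160 .nil)) (.leaf 0x2873495601 0 .done) .done)) (.node 5 9 (.cons 0x8210954673 (.cons 0x6128734590 (.cons 0x9546378210 .nil))) .done (.leaf 0x5690128734 0 .done))) (.node 2 5 (.cons 0x2564378901 (.cons 0x6109873452 (.cons 0x1645237890 .nil))) (.node 2 9 (.cons 0x4378925601 (.cons 0x5298734610 (.cons 0x3789254610 .nil))) .done (.node 2 9 (.cons 0x8734652901 (.cons 0x1687345290 .nil)) (.node 0 2 (.cons 0x4563789201 (.cons 0x5463789201 .nil)) .done .done) .done)) .done)) (.node 1 7 (.cons 0x6543217890 (.cons 0x5643217890 .nil)) (.node 1 4 (.cons 0x3214567890 .nil)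 (.node 1 5 (.cons 0x7890651234 .nil) (.node 0 3 (.cons 0x4567890321 (.cons 0x5467890321 .nil)) (.node 3 7 (.cons 0x6543789012 (.cons 0x6451237890 (.cons 0x4651237890 .nil))) (.node 0 7 (.cons 0x8907654123 (.cons 0x8907326451 .nil)) .done .done) (.leaf 0x2154678903 0 (.node 3 7 (.cons 0x6543789012 (.cons 0x6451237890 (.cons 0x4651237890 .nil))) (.node 0 7 (.cons 0x8907654123 .nil) (.node 0 4 (.cons 0x2369870451 .nil) (.leaf 0x5123698704 0 .done) .done) .done) .done))) .done) (.node 1 5 (.cons 0x7890651234 .nil) (.node 0 5 (.cons 0x9876321450 .nil) (.node 1 3 (.cons 0x8769054132 .nil) (.node 3 8 (.cons 0x2387690541 (.cons 0x7645123890 .nil)) (.node 2 9 (.cons 0x5416783290 (.cons 0x7864312905 (.cons 0x5092387641 (.cons 0x9238714605 .nil)))) .done .done) .done) (.leaf 0x2178905643 0 (.node 1 3 (.cons 0x6789054132 (.cons 0x5098764132 .nil)) .done .done))) (.node 3 7 (.cons 0x6543789012 (.cons 0x6451237890 (.cons 0x4651237890 (.cons 0x5146098732 .nil)))) (.node 0 3 (.cons 0x4567890321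 (.cons 0x5467890321 .nil)) (.leaf 0x2154678903 0 (.node 2 5 (.cons 0x5234178960 .nil) (.leaf 0x8903251467 0 (.node 3 8 (.cons 0x1452387690 (.cons 0x9012546783 (.cons 0x7832514690 .nil))) .done .done)) .done)) .done) .done)) .done)) (.node 0 5 (.cons 0x8716905432 (.cons 0x8905467123 (.cons 0x9871236450 .nil))) (.node 0 3 (.cons 0x4567890321 (.cons 0x8903217645 (.cons 0x5467890321 .nil))) (.node 2 5 (.cons 0x2543698710 (.cons 0x6452309871 .nil)) (.leaf 0x4617890325 0 .done) .done) (.node 2 9 (.cons 0x6345017892 (.cons 0x8716432905 (.cons 0x1789236450 .nil))) (.node 0 3 (.cons 0x4567890321 (.cons 0x8903217645 (.cons 0x5467890321 .nil))) (.node 1 8 (.cons 0x4509817623 (.cons 0x9230546781 (.cons 0x7816432905 (.cons 0x7189054623 .nil)))) .done .done) .done) .done)) .done)) .done)) (.node 1 6 .nil (.node 0 4 (.cons 0x5409876123 .nil) (.node 2 9 (.cons 0x5401298763 (.cons 0x7892104365 (.cons 0x7892104563 .nil))) (.node 1 7 (.cons 0x9871234065 (.cons 0x3456871290 .nil)) (.node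 0 7 (.cons 0x3456870921 (.cons 0x8907162345 .nil)) .done (.node 2 5 (.cons 0x1789652340 .nil) (.leaf 0x7896523401 0 (.node 1 3 (.cons 0x7865431290 (.cons 0x7896310452 .nil)) (.node 1 4 (.cons 0x3256987140 (.cons 0x5236987140 .nil)) .done .done) .done)) .done)) .done) (.node 3 8 (.cons 0x7654098321 (.cons 0x7612389045 .nil)) (.node 1 4 (.cons 0x3214567890 .nil) (.node 1 8 (.cons 0x7654098123 .nil) (.node 0 5 (.cons 0x9054678123 (.cons 0x7816905432 .nil)) (.node 3 7 (.cons 0x7326981450 (.cons 0x4509618732 (.cons 0x2378961450 (.cons 0x5409816732 .nil)))) .done (.node 2 9 (.cons 0x3290546781 (.cons 0x3298761450 (.cons 0x7892341650 (.cons 0x7816450923 .nil)))) .done .done)) (.node 1 5 (.cons 0x7651238904 .nil) (.node 0 8 (.cons 0x7809615432 .nil) (.node 1 7 (.cons 0x6908715432 (.cons 0x9087123465 .nil)) .done (.node 0 7 (.cons 0x9832140765 (.cons 0x8709615432 .nil)) (.node 2 4 (.cons 0x3245690781 (.cons 0x9087615423 .nil)) .done .done) .done)) (.node 5 9 (.cons 0x7659832140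 .nil) (.node 0 7 (.cons 0x9564123870 (.cons 0x8709546123 (.cons 0x7041659832 .nil))) (.node 2 4 (.cons 0x3245690781 (.cons 0x5961423870 .nil)) .done .done) (.node 0 7 (.cons 0x3895670412 (.cons 0x4387095612 (.cons 0x2163459870 .nil))) (.leaf 0x6704123895 0 .done) .done)) .done)) .done)) (.node 0 3 (.cons 0x4567890321 (.cons 0x5416789032 .nil)) (.node 7 9 (.cons 0x5643879012 (.cons 0x5430978612 (.cons 0x8790345612 .nil))) (.node 5 8 (.cons 0x5897632140 (.cons 0x7985612340 (.cons 0x7854169032 .nil))) (.leaf 0x3216587904 0 .done) .done) (.node 2 5 (.cons 0x9876301254 (.cons 0x7896103452 (.cons 0x9034521687 .nil))) (.node 3 7 (.cons 0x8904567321 (.cons 0x8732541690 (.cons 0x6145237890 .nil))) .done .done) .done)) .done)) (.node 2 7 (.cons 0x7265438901 (.cons 0x9016543872 (.cons 0x5409832761 .nil))) (.node 0 3 (.cons 0x2789654301 (.cons 0x5430169872 .nil)) (.node 2 9 (.cons 0x8729654301 (.cons 0x5401672983 (.cons 0x7298340165 (.cons 0x9278301654 .nil)))) .done .done) (.node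 0 3 (.cons 0x4567890321 .nil) (.node 7 9 (.cons 0x8972104365 (.cons 0x5430978612 (.cons 0x8790345612 .nil))) .done (.node 5 8 (.cons 0x9012785643 (.cons 0x9854032167 (.cons 0x9032164587 .nil))) .done .done)) .done)) .done)) (.node 1 7 (.cons 0x5617890432 .nil) (.node 2 9 (.cons 0x5604329871 (.cons 0x5617892340 (.cons 0x3298716540 .nil))) (.node 1 5 (.cons 0x8761540923 (.cons 0x7892361540 .nil)) (.node 0 3 (.cons 0x4567890321 (.cons 0x7861290345 .nil)) (.leaf 0x7154032986 0 (.node 2 5 (.cons 0x3678925401 (.cons 0x7896103452 (.cons 0x9034521687 (.cons 0x7892540163 .nil)))) .done .done)) .done) .done) (.node 2 8 (.cons 0x1782345690 (.cons 0x5432871690 (.cons 0x9043287165 (.cons 0x9045617823 .nil)))) (.node 0 8 (.cons 0x2345690871 .nil) (.node 5 9 (.cons 0x9560432871 (.cons 0x7169543280 (.cons 0x9540871632 .nil))) (.leaf 0x954326178 0 .done) (.node 2 9 (.cons 0x3456928710 (.cons 0x9236178045 (.cons 0x8716540923 .nil))) (.node 3 9 (.cons 0x2178654390 (.cons 0x9328045617 (.cons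 0x7809321645 .nil))) .done .done) .done)) .done) (.node 0 2 (.cons 0x5436987102 (.cons 0x8716902345 (.cons 0x9871632045 .nil))) (.node 5 7 (.cons 0x3457126890 (.cons 0x1698754320 (.cons 0x8754320961 (.cons 0x9875436102 (.cons 0x9875436120 .nil))))) .done .done) .done))) .done))) .done) .done)) .done))
noncomputable def tc9_1_22 : T := (.node 2 5 (.cons 0x4521098763 .nil) (.node 1 7 (.cons 0x6543217890 (.cons 0x2543698710 (.cons 0x3425698710 .nil))) (.node 1 3 (.cons 0x7896013425 (.cons 0x7896524310 .nil)) (.node 2 8 (.cons 0x5428769013 (.cons 0x7824310965 (.cons 0x7824569013 .nil))) .done (.node 3 5 (.cons 0x9871065342 .nil) (.node 0 3 (.cons 0x9876301254 .nil) (.node 1 5 (.cons 0x7890651234 (.cons 0x9871560324 .nil)) .done .done) .done) .done)) (.node 3 7 (.cons 0x9873421065 (.cons 0x5243789601 (.cons 0x9873425601 .nil))) (.node 2 8 (.cons 0x9634528710 (.cons 0x5690178243 .nil)) (.node 5 8 (.cons 0x9065871234 (.cons 0x7342658901 (.cons 0x9065871243 .nil))) .done .done)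 .done) .done)) (.node 1 7 (.cons 0x6543217890 (.cons 0x8710963452 (.cons 0x8710965243 .nil))) (.node 2 7 (.cons 0x8725436901 .nil) (.node 0 2 (.cons 0x5436987102 .nil) (.node 2 9 (.cons 0x5601789243 .nil) (.node 0 5 (.cons 0x8965017243 (.cons 0x6345017892 .nil)) (.leaf 0x1789263450 0 .done) .done) .done) .done) (.node 0 8 (.cons 0x2345690871 (.cons 0x3245690871 .nil)) (.node 1 5 (.cons 0x6908715432 (.cons 0x8096715423 (.cons 0x4517809632 .nil))) (.node 0 2 (.cons 0x9632087154 .nil) .done .done) (.node 1 6 (.cons 0x9087165432 .nil) (.node 3 9 (.cons 0x8093245671 (.cons 0x8763901254 (.cons 0x9342561087 .nil))) .done .done) .done)) .done)) (.node 3 7 (.cons 0x9873421065 (.cons 0x6378901254 .nil)) (.node 2 8 (.cons 0x4528736901 .nil) (.node 6 8 (.cons 0x9012437865 .nil) (.node 4 8 (.cons 0x2548736901 .nil) (.node 2 9 (.cons 0x6378452901 (.cons 0x4873652901 .nil)) .done .done) .done) (.node 2 9 .nil (.node 1 8 (.cons 0x1873245690 (.cons 0x2965437810 (.cons 0x4529637810 .nil)))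 .done (.node 1 4 (.cons 0x8736925410 (.cons 0x5412367890 .nil)) (.node 5 8 (.cons 0x5873429601 (.cons 0x1458763290 (.cons 0x3678541290 .nil))) (.leaf 0x4587632901 0 .done) (.node 5 8 (.cons 0x7341096582 (.cons 0x5873429601 (.cons 0x9014285673 (.cons 0x9065873421 .nil)))) .done .done)) .done)) .done)) (.node 1 4 (.cons 0x3789652410 (.cons 0x5412367890 .nil)) (.leaf 0x7890142563 0 (.node 1 3 (.cons 0x4256987310 (.cons 0x8731096524 .nil)) (.node 3 8 (.cons 0x7389652410 (.cons 0x5673890142 .nil)) .done .done) .done)) (.node 1 7 (.cons 0x6543217890 (.cons 0x8901736254 (.cons 0x8901734265 .nil))) (.node 5 9 (.cons 0x4321789560 (.cons 0x8956017342 (.cons 0x3421789560 .nil))) .done (.node 2 8 (.cons 0x5436901782 (.cons 0x5690178243 .nil)) (.node 3 8 (.cons 0x5426738901 (.cons 0x5690178342 .nil)) .done .done) .done)) .done))) .done))) (.node 1 4 (.cons 0x3214567890 (.cons 0x5412367890 .nil)) (.node 0 8 (.cons 0x9087654123 (.cons 0x9087632145 .nil)) (.node 1 7 (.cons 0x6543217890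 (.cons 0x5417809632 .nil)) (.node 0 4 (.cons 0x9871234065 (.cons 0x9804563217 (.cons 0x5409876321 .nil))) (.node 2 9 (.cons 0x3296541780 (.cons 0x5634017892 (.cons 0x1789236540 .nil))) (.leaf 0x4563290871 0 .done) .done) (.node 4 6 (.cons 0x5643217890 .nil) (.node 2 5 (.cons 0x3425698710 .nil) (.node 2 7 (.cons 0x3278096541 (.cons 0x8725436901 .nil)) .done (.node 0 4 (.cons 0x8714096523 (.cons 0x5409876321 (.cons 0x9871042563 .nil))) (.leaf 0x1789043652 0 .done) .done)) .done) .done)) (.node 2 9 (.cons 0x3290876541 (.cons 0x7809236541 .nil)) (.node 3 5 (.cons 0x4536789210 (.cons 0x9245367801 (.cons 0x7635429801 (.cons 0x8763541092 .nil)))) .done (.node 5 7 (.cons 0x6578092341 (.cons 0x4365789210 (.cons 0x9243657801 (.cons 0x8756341092 (.cons 0x8756341290 .nil))))) .done .done)) .done)) (.node 0 7 (.cons 0x8907654123 (.cons 0x8907632145 .nil)) (.node 1 9 (.cons 0x8709123456 (.cons 0x8709123654 .nil)) (.node 5 7 (.cons 0x9875601243 (.cons 0x5789106342 (.cons 0x5789124360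 .nil))) (.node 0 8 (.cons 0x8075432691 (.cons 0x9801263457 (.cons 0x8075419632 (.cons 0x2367541980 .nil)))) .done .done) (.node 5 8 (.cons 0x6587091234 (.cons 0x9107856342 (.cons 0x9124365870 .nil))) (.node 0 4 (.cons 0x2340785691 (.cons 0x5409876321 .nil)) (.node 2 9 (.cons 0x6587043291 (.cons 0x2963458701 (.cons 0x4078563291 .nil))) .done .done) (.leaf 0x7856342190 0 .done)) .done)) (.node 2 9 (.cons 0x5634298701 (.cons 0x3654298701 .nil)) (.node 1 6 (.cons 0x1654329870 (.cons 0x8709234561 .nil)) .done (.node 1 6 (.cons 0x5436107892 .nil) (.node 1 5 (.cons 0x7890651234 (.cons 0x6345107892 (.cons 0x8709236154 .nil))) .done .done) .done)) .done)) .done)) (.node 1 4 (.cons 0x3214567890 (.cons 0x5412367890 .nil)) (.node 3 9 (.cons 0x8763901245 .nil) (.node 4 6 .nil (.node 1 7 (.cons 0x6543217890 (.cons 0x5643217890 (.cons 0x5463217890 .nil))) (.node 0 8 (.cons 0x7654123980 (.cons 0x9087123645 .nil)) (.node 1 6 (.cons 0x9087165432 .nil) .done .done) .done) (.node 4 7 (.cons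 0x5609874321 .nil) (.node 5 9 (.cons 0x5987412360 .nil) (.node 1 6 (.cons 0x8743216095 .nil) .done (.node 0 2 (.cons 0x7895602143 (.cons 0x3678954120 (.cons 0x5987412063 .nil))) .done .done)) (.node 6 8 .nil (.node 0 7 (.cons 0x8932145670 (.cons 0x9078654321 (.cons 0x5412398670 .nil))) .done (.node 0 7 (.cons 0x8932145670 .nil) (.node 4 8 (.cons 0x8456709321 .nil) (.node 1 5 (.cons 0x9321548670 (.cons 0x7632154890 (.cons 0x2369078451 .nil))) (.node 2 5 (.cons 0x8476093251 (.cons 0x7639845210 (.cons 0x9368452107 .nil))) .done .done) .done) (.node 2 5 (.cons 0x4521076893 (.cons 0x2543698701 (.cons 0x1452369870 .nil))) .done .done)) .done)) .done)) .done)) (.node 4 6 .nil (.node 2 5 (.cons 0x7893465210 (.cons 0x4521098763 (.cons 0x7890125463 .nil))) .done (.node 4 7 (.cons 0x5609874321 .nil) (.node 4 8 (.cons 0x5678421093 .nil) (.node 1 5 (.cons 0x1567842390 (.cons 0x6321547890 .nil)) (.node 0 8 (.cons 0x7809346512 (.cons 0x9087632154 (.cons 0x2369087451 .nil))) .done (.leaf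 0x4239015678 0 .done)) .done) (.node 4 8 (.cons 0x5678421093 .nil) (.node 0 4 (.cons 0x5678932140 .nil) (.node 1 8 (.cons 0x7654098123 (.cons 0x5639018742 .nil)) (.node 2 5 (.cons 0x3256740981 (.cons 0x7639840125 (.cons 0x2563987410 .nil))) .done .done) .done) .done) .done)) .done)) .done)) (.node 0 7 (.cons 0x8907654123 (.cons 0x8907632145 .nil)) (.node 1 9 (.cons 0x8709123456 (.cons 0x8709123654 .nil)) (.node 6 8 (.cons 0x5436870912 .nil) (.node 1 8 (.cons 0x2345690781 (.cons 0x9078123654 .nil)) (.node 5 8 (.cons 0x7096581432 (.cons 0x6321907854 (.cons 0x8541907632 (.cons 0x3678542190 .nil)))) .done .done) .done) (.node 3 9 (.cons 0x8763901245 .nil) (.node 1 8 (.cons 0x2345690781 (.cons 0x9078123654 .nil)) (.node 0 4 (.cons 0x5691870432 (.cons 0x5409876321 .nil)) (.node 5 8 (.cons 0x7658193240 (.cons 0x7856324091 (.cons 0x7856342190 .nil))) (.leaf 0x936785421 0 .done) .done) (.node 5 9 (.cons 0x6321870954 (.cons 0x3678124590 .nil)) (.leaf 0x954362187 0 .done) .done))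 .done) .done)) (.node 0 4 (.cons 0x5409876321 .nil) (.node 1 6 (.cons 0x5409876123 .nil) (.node 2 9 (.cons 0x1654329870 (.cons 0x5436107892 (.cons 0x3298704561 .nil))) (.node 2 5 (.cons 0x4365298701 .nil) (.node 2 7 (.cons 0x8927014365 (.cons 0x3452789610 .nil)) .done (.leaf 0x9870143652 0 .done)) .done) (.node 1 5 (.cons 0x7890651234 .nil) (.node 1 8 (.cons 0x9078165432 (.cons 0x5418907632 (.cons 0x9815623407 (.cons 0x7098145632 .nil)))) .done (.node 1 7 (.cons 0x6543217890 (.cons 0x9871234065 (.cons 0x8715423690 (.cons 0x8715690423 .nil)))) .done .done)) .done)) .done) .done)) .done)) .done)))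
noncomputable def uc9_1_4 : T := (.node 0 7 (.cons 0x8709654321 .nil) (.node 2 7 (.cons 0x3456987210 (.cons 0x8721096543 .nil)) (.node 3 6 (.cons 0x5436987210 (.cons 0x8721096345 .nil)) (.node 2 5 (.cons 0x6345278901 (.cons 0x8725436901 .nil)) (.node 2 9 (.cons 0x4365298701 .nil) (.node 1 4 (.cons 0x3214567890 (.cons 0x1456329870 (.cons 0x8709236541 (.cons 0x8907654123 .nil)))) (.node 1 6 (.cons 0x5416329870 (.cons 0x8709236145 .nil)) .done .done) .done) (.node 1 4 (.cons 0x3214567890 (.cons 0x3698725410 (.cons 0x8725410963 (.cons 0x8907654123 .nil)))) (.node 5 8 (.cons 0x7263458901 (.cons 0x9854362701 (.cons 0x3267098541 .nil))) (.node 0 2 (.cons 0x5436987201 .nil) (.node 3 7 (.cons 0x9602143785 (.cons 0x8734569012 (.cons 0x4378569021 .nil))) .done .done) .done) .done) .done)) .done) (.node 1 7 (.cons 0x8712345690 .nil) (.node 1 6 .nil (.node 3 5 (.cons 0x4356987210 (.cons 0x4356109872 (.cons 0x8721096534 (.cons 0x8907612354 .nil)))) .done (.node 1 4 (.cons 0x3214567890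 (.cons 0x8907654123 .nil)) (.node 0 5 (.cons 0x8769054123 (.cons 0x5069871432 .nil)) (.node 0 3 (.cons 0x8769032145 (.cons 0x8967123054 (.cons 0x8967145032 .nil))) .done (.node 0 8 (.cons 0x7809612345 (.cons 0x7145089623 .nil)) .done .done)) .done) .done)) (.node 3 7 (.cons 0x8734569012 .nil) (.node 0 8 (.cons 0x5437108962 .nil) (.leaf 0x1273456980 0 (.node 0 5 (.cons 0x8712345096 (.cons 0x8965012734 (.cons 0x4508962371 .nil))) .done .done)) (.node 5 8 (.cons 0x4372658901 (.cons 0x2698543710 (.cons 0x6234589071 (.cons 0x6217098543 .nil)))) (.node 1 4 (.cons 0x6237145890 (.cons 0x8541732690 (.cons 0x8907654123 .nil))) (.node 0 5 (.cons 0x8712345096 (.cons 0x8965014372 (.cons 0x1432789650 .nil))) .done .done) .done) .done)) .done)) .done)) (.node 1 6 (.cons 0x5432169870 (.cons 0x8709612345 .nil)) .done (.node 3 7 (.cons 0x6543789012 (.cons 0x8734569012 .nil)) (.node 0 8 (.cons 0x9801265437 .nil) (.node 1 6 (.cons 0x7809612345 .nil) (.node 5 7 (.cons 0x9807543261 (.cons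 0x9612345780 .nil)) (.node 0 3 (.cons 0x4567890321 (.cons 0x7543089612 .nil)) (.node 1 8 (.cons 0x9810734562 (.cons 0x4309657812 (.cons 0x7812309654 .nil))) .done .done) .done) .done) (.node 1 4 (.cons 0x3214567890 (.cons 0x9654123780 (.cons 0x7321456980 .nil))) (.node 1 7 (.cons 0x6543217890 (.cons 0x8712345690 (.cons 0x5417089623 .nil))) (.node 1 8 (.cons 0x9810734562 (.cons 0x5437018962 .nil)) .done .done) (.node 0 5 (.cons 0x6789054123 (.cons 0x8769054123 (.cons 0x8967321450 .nil))) .done .done)) .done)) (.node 2 5 (.cons 0x6987345210 (.cons 0x8734521096 .nil)) (.node 6 8 (.cons 0x9862543701 (.cons 0x7345268901 .nil)) (.node 1 7 (.cons 0x5437126890 (.cons 0x8712345690 .nil)) (.node 1 6 (.cons 0x7345216890 .nil) (.node 5 8 (.cons 0x7345896210 (.cons 0x4587321690 (.cons 0x2698543710 .nil))) .done .done) (.leaf 0x2689017345 0 .done)) .done) (.node 2 7 (.cons 0x3456987210 (.cons 0x8721096543 .nil)) (.node 6 8 (.cons 0x5437268901 .nil) (.node 0 3 (.cons 0x4567890321 (.cons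 0x9687301254 (.cons 0x9865430127 .nil))) .done (.leaf 0x2734568901 0 .done)) (.node 1 7 (.cons 0x6543217890 (.cons 0x8712345690 .nil)) (.node 5 8 (.cons 0x4589012673 (.cons 0x7345896210 (.cons 0x2698543710 .nil))) (.node 0 3 (.cons 0x4567890321 (.cons 0x4309658721 .nil)) (.node 0 4 (.cons 0x9871234065 (.cons 0x3409658721 (.cons 0x3045896712 .nil))) .done .done) .done) .done) .done)) .done)) (.node 2 7 (.cons 0x3456987210 (.cons 0x8721096543 .nil)) (.node 2 4 (.cons 0x5698734210 (.cons 0x8734210965 .nil)) (.node 3 5 (.cons 0x6789012453 (.cons 0x9872106534 (.cons 0x8769012453 .nil))) (.node 4 8 (.cons 0x7348901265 (.cons 0x5376984210 (.cons 0x5627348901 .nil))) (.leaf 0x2765348901 0 .done) (.node 1 6 (.cons 0x8907234561 .nil) (.node 3 6 (.cons 0x2453678901 .nil) (.leaf 0x987635421 0 .done) (.leaf 0x7890165342 0 .done)) .done)) .done) (.node 1 7 (.cons 0x6543217890 (.cons 0x8712345690 .nil)) (.node 2 4 (.cons 0x5698734210 (.cons 0x8734210965 .nil)) (.node 3 6 (.cons 0x5436987210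 (.cons 0x8721096345 .nil)) (.node 2 5 (.cons 0x4378965210 (.cons 0x8725436901 (.cons 0x4256378901 .nil))) .done .done) .done) .done) .done)) .done))) .done))) (.node 3 6 .nil (.node 2 4 (.cons 0x5421098763 .nil) tc9_1_22 (.node 6 8 .nil tc9_1_21 (.node 1 6 .nil tc9_1_20 .done))) (.node 6 8 .nil tc9_1_19 .done)))
theorem sub_c9_1_4 : root 9 refs9_1 [] 0x700000008706000000006030000000030500604000504000000004030000000030100000600102000000002018004000010 0xfe7fff3fffb7ff87ffcfffe7fff5ffb9fff9feed 9 6 9 .nil uc9_1_4 = true := by decide +kernel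
noncomputable def tc9_1_23 : T := (.node 0 3 (.cons 0x4567890321 .nil) (.node 4 6 (.cons 0x5467890321 .nil) (.node 0 7 .nil (.node 1 9 (.cons 0x5467891230 (.cons 0x8912307645 .nil)) (.node 1 4 (.cons 0x3214567890 (.cons 0x8907654123 .nil)) (.node 1 5 (.cons 0x9876451230 (.cons 0x8915407623 (.cons 0x9870321546 .nil))) .done .done) (.leaf 0x5432198706 0 .done)) (.node 0 8 .nil (.node 1 7 (.cons 0x6543217890 (.cons 0x9087123456 (.cons 0x9805467123 .nil))) (.node 1 9 (.cons 0x5467891230 (.cons 0x7089123465 (.cons 0x7645089123 (.cons 0x7198045623 .nil)))) .done .done) (.node 0 2 .nil (.node 5 7 (.cons 0x4321657890 (.cons 0x4320987561 .nil)) (.leaf 0x6578904321 0 (.node 4 7 (.cons 0x5612347890 (.cons 0x5612098743 .nil)) (.node 4 8 (.cons 0x5098476123 (.cons 0x9021657843 .nil)) .done .done) (.node 1 8 (.cons 0x4576218903 .nil) (.node 3 9 (.cons 0x4576218930 (.cons 0x8934657021 (.cons 0x7562043981 (.cons 0x4576203981 .nil)))) .done (.leaf 0x2189034576 0 .done)) .done))) .done)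 .done)) .done)) (.node 6 9 .nil (.node 1 7 (.cons 0x6543217890 (.cons 0x8967123054 (.cons 0x8712345690 .nil))) (.node 1 8 (.cons 0x5409817623 (.cons 0x7698123054 .nil)) (.node 4 7 (.cons 0x5612347890 (.cons 0x8967450321 (.cons 0x3218745690 .nil))) .done .done) .done) (.node 6 8 .nil (.node 1 7 (.cons 0x6543217890 (.cons 0x9867123054 (.cons 0x4509867123 .nil))) (.node 4 7 (.cons 0x5612347890 (.cons 0x9867450321 (.cons 0x7432168905 .nil))) .done .done) (.node 3 6 .nil (.node 1 8 (.cons 0x9065432187 (.cons 0x7632189054 .nil)) (.node 2 5 (.cons 0x3098764521 (.cons 0x9876301254 (.cons 0x9036452187 (.cons 0x7890364521 .nil)))) .done .done) .done) .done)) .done)) .done)) (.node 0 7 .nil (.node 2 5 (.cons 0x7890432561 (.cons 0x9870432561 .nil)) (.node 5 7 (.cons 0x4321657890 .nil) (.leaf 0x6578904321 0 (.node 4 8 (.cons 0x9843216507 (.cons 0x5709843261 .nil)) (.leaf 0x3489075612 0 (.node 1 9 (.cons 0x4876521903 .nil) (.node 1 3 (.cons 0x9031256784 (.cons 0x5709843162 .nil)) (.node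 1 8 (.cons 0x9065432187 (.cons 0x6234570981 (.cons 0x9813265407 .nil))) .done (.leaf 0x984312657 0 .done)) (.leaf 0x912567843 0 (.leaf 0x756219843 0 .done))) .done)) (.node 1 8 (.cons 0x7562189034 (.cons 0x9812657034 (.cons 0x6218907543 .nil))) (.node 2 4 (.cons 0x3421657890 .nil) (.node 3 9 (.cons 0x3987654210 (.cons 0x8934216570 (.cons 0x5704261893 (.cons 0x9324560781 .nil)))) .done (.node 3 5 (.cons 0x6124357890 (.cons 0x9816240753 (.cons 0x8907534261 .nil))) .done .done)) .done) .done))) (.node 1 4 (.cons 0x3214567890 (.cons 0x9870416523 (.cons 0x8907654123 .nil))) (.node 3 8 (.cons 0x9041652387 (.cons 0x9834562107 (.cons 0x9078325614 .nil))) (.node 1 5 (.cons 0x7623890451 (.cons 0x9832670451 .nil)) .done .done) (.node 3 6 (.cons 0x5412367890 (.cons 0x9870416325 .nil)) (.node 3 8 (.cons 0x9067832145 (.cons 0x9832145076 .nil)) (.node 1 5 (.cons 0x7623890451 (.cons 0x9832670451 .nil)) (.node 4 8 (.cons 0x9032156784 (.cons 0x9841632507 (.cons 0x9076215483 .nil))) .done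 .done) .done) .done) .done)) .done)) (.node 1 7 (.cons 0x6543217890 .nil) (.node 0 8 .nil (.node 4 7 (.cons 0x5612347890 (.cons 0x9087432165 (.cons 0x9803471265 .nil))) .done (.node 0 2 .nil (.node 6 9 (.cons 0x1789654320 (.cons 0x3456987120 .nil)) (.node 2 5 (.cons 0x5234078961 (.cons 0x4032569871 .nil)) (.leaf 0x7896523401 0 .done) .done) .done) .done)) (.node 0 8 (.cons 0x9087123456 .nil) (.node 0 2 .nil (.node 4 7 (.cons 0x5612347890 (.cons 0x5612098743 .nil)) (.node 5 9 (.cons 0x6598743012 (.cons 0x3204789561 (.cons 0x1659874320 (.cons 0x3478956120 .nil)))) .done .done) .done) .done) .done)) .done)) .done)) (.node 2 5 (.cons 0x7890432561 .nil) (.node 0 7 (.cons 0x9870432561 .nil) (.node 1 7 (.cons 0x9871652340 .nil) (.node 0 2 .nil (.node 6 9 (.cons 0x5234078961 (.cons 0x1789654320 (.cons 0x3456987120 .nil))) .done (.node 0 3 (.cons 0x4567890321 .nil) (.node 0 8 (.cons 0x9803217654 .nil) .done .done) .done)) (.node 1 5 (.cons 0x9870432516 .nil) (.node 2 7 (.cons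 0x9872561043 .nil) (.node 0 2 .nil (.node 4 7 (.cons 0x5612347890 (.cons 0x5612098743 .nil)) (.node 5 9 (.cons 0x8716590432 (.cons 0x1659874320 (.cons 0x3478956120 .nil))) .done .done) .done) .done) .done) .done)) (.node 2 7 (.cons 0x9872561043 .nil) (.node 2 4 .nil (.node 1 7 (.cons 0x9871652340 (.cons 0x9871650423 .nil)) (.node 3 6 (.cons 0x9871632504 (.cons 0x9871632405 (.cons 0x6324509871 .nil))) .done .done) (.node 0 2 .nil (.node 4 7 (.cons 0x5612347890 (.cons 0x5612098743 .nil)) (.node 5 9 (.cons 0x8723409561 (.cons 0x1659874320 (.cons 0x3478956120 .nil))) (.node 0 8 (.cons 0x7432165980 .nil) (.node 0 3 (.cons 0x6745980321 .nil) (.leaf 0x2167459803 0 .done) .done) .done) .done) .done) .done)) (.node 0 2 .nil (.node 6 9 (.cons 0x5278961043 .nil) (.node 3 6 (.cons 0x9870125634 (.cons 0x5436987201 .nil)) .done (.node 1 7 (.cons 0x9871652340 (.cons 0x3456987120 (.cons 0x8712096543 .nil))) .done .done)) .done) .done)) .done)) (.node 5 7 (.cons 0x4321657890 .nil) (.leaf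 0x6578904321 0 (.node 0 2 (.cons 0x4320987561 .nil) (.node 2 4 .nil (.node 0 3 (.cons 0x4567890321 .nil) (.leaf 0x4216578903 0 (.node 3 7 (.cons 0x6543789012 (.cons 0x9873240561 (.cons 0x8901624375 .nil))) (.node 1 7 (.cons 0x6543217890 (.cons 0x9871650423 .nil)) (.node 1 8 (.cons 0x6234571890 (.cons 0x9810342657 (.cons 0x9042378165 .nil))) .done .done) .done) .done)) (.node 4 6 (.cons 0x5789023461 .nil) (.node 6 9 (.cons 0x5789610243 .nil) (.node 4 8 .nil (.node 1 3 (.cons 0x5467890213 (.cons 0x9678452013 (.cons 0x5487690231 (.cons 0x6754890231 (.cons 0x1325487690 .nil))))) .done (.node 0 7 (.cons 0x5709843261 .nil) (.node 2 7 (.cons 0x5726109843 .nil) .done .done) .done)) .done) .done) .done)) (.node 0 8 .nil (.node 1 7 (.cons 0x6543217890 (.cons 0x9087123456 .nil)) (.node 1 4 (.cons 0x2341657890 (.cons 0x9087561432 (.cons 0x9802341756 (.cons 0x9087523416 .nil)))) .done (.node 0 7 .nil (.node 1 4 (.cons 0x2341657890 (.cons 0x9807561432 (.cons 0x9087561432 .nil))) .done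 .done) .done)) (.node 0 3 (.cons 0x4567890321 .nil) (.node 0 7 .nil (.node 4 8 (.cons 0x7654890321 (.cons 0x9845670321 .nil)) (.node 1 3 (.cons 0x7562098431 (.cons 0x9845670312 (.cons 0x5709843162 .nil))) (.leaf 0x984312657 0 .done) .done) .done) .done) .done)) .done)) (.node 2 4 (.cons 0x3421657890 .nil) (.node 4 7 (.cons 0x5612347890 .nil) (.node 4 6 .nil (.node 1 7 (.cons 0x6543217890 (.cons 0x6450987123 .nil)) (.leaf 0x2178905643 0 .done) (.node 4 8 .nil (.node 1 9 (.cons 0x7891650423 (.cons 0x5487609123 (.cons 0x7845609123 .nil))) (.node 3 9 (.cons 0x3987654210 (.cons 0x6125784390 (.cons 0x4876521093 (.cons 0x7843901652 .nil)))) .done .done) (.node 1 4 (.cons 0x3214567890 .nil) (.node 4 9 (.cons 0x8749056123 .nil) .done .done) .done)) .done)) (.node 4 6 (.cons 0x5098746123 .nil) (.node 4 8 .nil (.node 7 9 (.cons 0x8790654321 (.cons 0x5609784321 (.cons 0x1652348790 .nil))) .done .done) .done) .done)) (.node 3 6 (.cons 0x5421098763 .nil) (.node 1 5 (.cons 0x5167890423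 .nil) (.node 5 8 .nil (.node 3 9 (.cons 0x5167893240 (.cons 0x7639854210 (.cons 0x4587609321 (.cons 0x9367852401 (.cons 0x4258761093 .nil))))) .done (.node 3 5 (.cons 0x9876354210 .nil) (.node 5 9 (.cons 0x3678954210 .nil) .done .done) .done)) (.node 3 5 (.cons 0x9876354210 .nil) (.leaf 0x9876153240 0 .done) .done)) (.node 0 2 (.cons 0x5789024361 .nil) (.node 0 8 (.cons 0x9087524361 .nil) (.node 0 7 .nil (.node 1 5 (.cons 0x2436157890 (.cons 0x9870516324 (.cons 0x8907632451 .nil))) .done .done) .done) .done) .done)) .done)) .done))) .done)) .done))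
noncomputable def tc9_1_24 : T := (.node 1 4 (.cons 0x3214567890 .nil) (.node 1 8 (.cons 0x7654098123 .nil) (.node 0 8 (.cons 0x9087654123 .nil) (.node 0 2 .nil (.node 6 9 (.cons 0x7123408965 (.cons 0x1789654320 (.cons 0x3456987120 .nil))) .done (.node 0 3 (.cons 0x4567890321 .nil) (.node 0 7 .nil (.node 3 6 (.cons 0x7632189045 (.cons 0x9812367045 .nil)) .done .done) .done) .done)) (.node 1 3 (.cons 0x9087654132 .nil) (.node 1 5 .nil (.node 3 9 (.cons 0x8932176540 (.cons 0x4517623980 (.cons 0x4156780932 (.cons 0x4518760932 .nil)))) .done .done) .done) .done)) (.node 5 7 (.cons 0x4321657890 .nil) (.node 2 5 .nil (.node 3 7 (.cons 0x8904567321 (.cons 0x6521098734 (.cons 0x4378901652 .nil))) (.node 4 6 (.cons 0x6450987321 (.cons 0x9064523781 (.cons 0x5216437890 .nil))) (.node 3 9 (.cons 0x8932176540 (.cons 0x8937645210 (.cons 0x7893465210 (.cons 0x9378106452 .nil)))) .done .done) .done) (.node 2 4 .nil (.node 0 3 (.cons 0x4567890321 (.cons 0x9871650324 .nil)) (.node 6 9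 (.cons 0x6987123054 (.cons 0x6903245781 (.cons 0x6987124503 .nil))) .done (.node 5 8 (.cons 0x9856712304 (.cons 0x9856243017 (.cons 0x9856712403 .nil))) .done .done)) (.node 0 2 .nil (.node 4 9 (.cons 0x8756123490 (.cons 0x5617894320 (.cons 0x8756120943 .nil))) .done (.node 2 7 .nil (.node 0 3 (.cons 0x4567890321 (.cons 0x9872561034 .nil)) (.node 0 8 (.cons 0x9087654123 (.cons 0x9801726543 .nil)) .done .done) .done) .done)) .done)) .done)) (.leaf 0x3216578904 0 (.node 4 7 (.cons 0x5612347890 .nil) (.node 2 4 (.cons 0x3421657890 .nil) (.node 1 5 .nil (.node 0 3 (.cons 0x9875612430 (.cons 0x6789032154 (.cons 0x8903475126 (.cons 0x8903267451 .nil)))) .done (.node 5 9 (.cons 0x6095478123 .nil) (.node 5 8 (.cons 0x2347859061 .nil) (.node 1 3 (.cons 0x6132478950 .nil) (.node 1 9 (.cons 0x2347859160 .nil) .done .done) .done) .done) .done)) .done) (.node 1 5 .nil (.node 0 7 (.cons 0x3265470981 (.cons 0x8907432615 (.cons 0x8907432651 .nil))) .done (.node 1 3 (.cons 0x7456231890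 .nil) (.node 1 9 .nil (.node 0 8 (.cons 0x9087654123 (.cons 0x5623471980 (.cons 0x9178065432 .nil))) (.leaf 0x2319805476 0 .done) .done) .done) .done)) .done)) .done))) .done)) (.node 1 8 (.cons 0x7654098123 .nil) (.node 3 6 (.cons 0x5412367890 .nil) (.node 6 9 (.cons 0x7896321450 .nil) (.node 4 9 .nil (.node 0 3 (.cons 0x4567890321 (.cons 0x5498763012 (.cons 0x6503217894 (.cons 0x7189456230 .nil)))) .done (.node 4 6 .nil (.node 0 2 (.cons 0x1789654320 (.cons 0x3205469871 .nil)) (.node 3 7 (.cons 0x2371896540 (.cons 0x5649021873 (.cons 0x6450987321 (.cons 0x4650987321 (.cons 0x9817320465 .nil))))) .done .done) .done) .done)) (.node 4 9 .nil (.node 0 3 (.cons 0x2178965430 (.cons 0x5498763012 (.cons 0x6503217894 (.cons 0x7189456230 .nil)))) .done (.node 4 6 .nil (.node 0 2 (.cons 0x3456987120 (.cons 0x3205649871 .nil)) (.node 5 7 (.cons 0x2361498750 (.cons 0x5781649023 (.cons 0x5789023461 (.cons 0x5789021643 .nil)))) .done .done) .done) .done)) .done)) (.node 6 9 (.cons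 0x2369871450 .nil) (.node 4 9 .nil (.node 0 2 (.cons 0x3456987120 (.cons 0x6320549871 (.cons 0x5634987102 .nil))) .done (.node 5 9 (.cons 0x7814590632 .nil) (.node 1 9 .nil (.node 0 2 (.cons 0x3456987120 (.cons 0x8917632045 (.cons 0x8719432065 .nil))) .done .done) .done) .done)) .done) .done)) .done) .done)) (.node 1 4 (.cons 0x3214567890 .nil) (.node 6 9 (.cons 0x8712345690 .nil) (.node 1 8 (.cons 0x7654098123 .nil) (.node 3 6 (.cons 0x7632189045 .nil) (.node 4 6 .nil (.node 3 7 (.cons 0x7326981450 (.cons 0x6450987321 (.cons 0x9873214650 (.cons 0x7326450981 .nil)))) .done (.node 6 8 .nil (.node 3 7 (.cons 0x7326981450 (.cons 0x5409867321 (.cons 0x9865041237 .nil))) (.node 2 9 (.cons 0x7814506923 (.cons 0x3296871450 (.cons 0x7329865041 (.cons 0x8654092371 .nil)))) .done .done) .done) .done)) .done) (.node 1 5 .nil (.node 0 2 (.cons 0x8715432096 (.cons 0x7896514320 .nil)) (.node 3 7 (.cons 0x8904567321 (.cons 0x7320456981 (.cons 0x6987320541 (.cons 0x5698734102 (.cons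 0x9873205614 .nil))))) .done .done) (.node 1 3 .nil (.node 2 4 (.cons 0x7813245690 (.cons 0x8713245096 .nil)) (.node 2 7 (.cons 0x2789654310 (.cons 0x6987231450 (.cons 0x4132789650 .nil))) .done .done) (.node 1 9 .nil (.node 3 7 (.cons 0x8904567321 (.cons 0x8912376540 (.cons 0x4560918732 .nil))) (.node 2 4 (.cons 0x1423789650 (.cons 0x8732419650 (.cons 0x8732419605 .nil))) .done .done) .done) .done)) .done)) .done)) (.node 0 2 (.cons 0x8712096543 .nil) (.node 1 5 .nil (.node 3 6 (.cons 0x8712096345 (.cons 0x7896345120 (.cons 0x8715436902 .nil))) .done (.node 5 9 .nil (.node 3 8 (.cons 0x2178345690 (.cons 0x6954387120 (.cons 0x9541238760 (.cons 0x7659832140 (.cons 0x7620145983 .nil))))) .done (.node 1 3 (.cons 0x6789541320 .nil) (.node 4 6 (.cons 0x8716432095 .nil) (.node 3 6 (.cons 0x1459876320 .nil) (.node 6 8 (.cons 0x9543687102 .nil) .done .done) .done) .done) .done)) .done)) (.node 1 5 .nil (.node 0 3 (.cons 0x9876541230 (.cons 0x6789032154 (.cons 0x7896514302 .nil)))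 .done (.node 0 3 (.cons 0x9876541230 .nil) (.node 5 9 (.cons 0x6789541230 .nil) (.leaf 0x3214598760 0 .done) (.node 0 7 (.cons 0x5698702143 .nil) (.node 0 8 (.cons 0x3456908712 .nil) .done .done) .done)) .done)) .done)) .done)) (.node 3 6 (.cons 0x5412367890 .nil) (.node 6 9 (.cons 0x7896321450 .nil) (.node 4 9 .nil (.node 0 7 (.cons 0x2369870541 (.cons 0x4987056321 (.cons 0x5078941632 .nil))) (.leaf 0x8705412369 0 .done) (.node 4 6 .nil (.node 3 9 (.cons 0x8760932145 (.cons 0x7893645012 (.cons 0x8712390564 .nil))) (.node 5 9 (.cons 0x8760954123 .nil) .done .done) .done) .done)) (.node 4 9 .nil (.node 0 2 (.cons 0x8712096543 (.cons 0x8712054963 .nil)) (.node 0 8 (.cons 0x3456908712 (.cons 0x3694508712 (.cons 0x5617809432 .nil))) .done .done) (.node 4 6 .nil (.node 3 9 (.cons 0x8760932145 (.cons 0x7893645012 (.cons 0x8712390564 .nil))) (.node 5 9 (.cons 0x8760954123 .nil) .done .done) .done) .done)) .done)) (.node 6 9 (.cons 0x8712345690 .nil) (.node 6 8 (.cons 0x9054178632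 .nil) (.node 4 6 .nil (.node 0 3 (.cons 0x4567890321 (.cons 0x5467890321 .nil)) (.node 3 7 (.cons 0x8904567321 (.cons 0x5037896412 (.cons 0x6450987321 .nil))) .done .done) .done) .done) .done) .done)) .done)) (.node 3 6 (.cons 0x6321789054 .nil) (.node 6 8 (.cons 0x5409867123 .nil) (.node 4 6 (.cons 0x9871236450 .nil) (.node 6 9 .nil (.node 1 3 (.cons 0x5409867132 (.cons 0x4509687132 .nil)) (.node 1 5 (.cons 0x7154326890 (.cons 0x2345178690 .nil)) (.node 0 7 (.cons 0x9862345170 (.cons 0x4321569870 (.cons 0x8962345170 .nil))) .done .done) .done) .done) .done) (.node 4 6 (.cons 0x9871236450 .nil) (.node 6 9 .nil (.node 2 5 (.cons 0x5234617890 (.cons 0x3452178690 .nil)) (.node 3 7 (.cons 0x5437126890 (.cons 0x8734569012 (.cons 0x4378965210 (.cons 0x8962543710 .nil)))) .done .done) .done) .done) .done)) (.node 6 9 .nil (.node 1 4 (.cons 0x3214567890 (.cons 0x2369871450 (.cons 0x8714509632 .nil))) .done (.node 4 6 (.cons 0x2364509871 .nil) (.node 6 8 (.cons 0x5409867123 .nil)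 .done .done) .done)) .done)) .done)))
noncomputable def tc9_1_25 : T := (.node 0 5 (.cons 0x7890561234 .nil) (.node 1 7 (.cons 0x6543217890 .nil) tc9_1_24 (.node 0 3 (.cons 0x4567890321 .nil) (.node 0 7 .nil (.node 1 4 (.cons 0x3214567890 (.cons 0x9870561432 .nil)) (.node 5 8 (.cons 0x9032145876 (.cons 0x9856123407 .nil)) (.node 3 9 (.cons 0x8765412390 (.cons 0x6587093214 (.cons 0x4165870932 .nil))) (.node 0 8 (.cons 0x9087654123 .nil) (.node 2 8 (.cons 0x9056143287 (.cons 0x4567012893 .nil)) (.node 1 8 (.cons 0x7654098123 (.cons 0x9328145076 .nil)) .done .done) .done) .done) (.node 1 7 (.cons 0x9854307126 (.cons 0x6217098543 .nil)) .done .done)) (.node 1 8 (.cons 0x7654098123 (.cons 0x9814507623 .nil)) (.node 5 8 (.cons 0x9067854123 (.cons 0x9856123407 .nil)) (.node 1 7 (.cons 0x9854307126 .nil) (.node 3 7 (.cons 0x9850734162 (.cons 0x4370985621 (.cons 0x4562370981 .nil))) .done .done) .done) .done) .done)) (.node 0 8 .nil (.node 1 7 (.cons 0x6543217890 (.cons 0x9804567123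 (.cons 0x9087123456 .nil))) (.node 1 4 (.cons 0x3214567890 (.cons 0x9805417623 (.cons 0x9087654123 .nil))) .done .done) (.node 0 2 .nil (.node 1 7 (.cons 0x6543217890 (.cons 0x9871650234 .nil)) (.node 6 9 (.cons 0x8712345690 (.cons 0x8712096543 .nil)) (.node 1 4 (.cons 0x3214567890 (.cons 0x5698702341 .nil)) (.node 3 6 (.cons 0x5412367890 (.cons 0x9876320541 .nil)) .done .done) .done) (.node 1 8 (.cons 0x7654098123 .nil) (.node 7 9 (.cons 0x3218976540 (.cons 0x3204567981 (.cons 0x9781206543 .nil))) .done .done) .done)) .done) .done)) .done)) (.node 0 7 .nil (.node 1 4 (.cons 0x3214567890 (.cons 0x9870561432 .nil)) (.node 1 7 (.cons 0x6543217890 .nil) (.node 1 8 (.cons 0x7654098123 (.cons 0x9817054326 .nil)) (.node 4 9 (.cons 0x2349871650 (.cons 0x8943261705 (.cons 0x3265498170 (.cons 0x8943071265 .nil)))) .done .done) (.node 1 8 (.cons 0x7654098123 (.cons 0x9817054326 .nil)) (.node 0 8 (.cons 0x9087654123 .nil) (.node 3 6 (.cons 0x9087632145 (.cons 0x9812365407 (.cons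 0x9078145632 .nil))) .done .done) .done) .done)) (.node 1 8 (.cons 0x7654098123 (.cons 0x9814507623 .nil)) (.node 5 8 (.cons 0x9067854123 (.cons 0x9856123407 .nil)) (.node 1 7 (.cons 0x9856217034 .nil) (.node 3 8 (.cons 0x7654098321 (.cons 0x9832670541 (.cons 0x9071832654 .nil))) (.leaf 0x2654389071 0 .done) .done) .done) .done) .done)) (.node 0 8 .nil (.node 1 7 (.cons 0x6543217890 (.cons 0x9804567123 (.cons 0x9087123456 .nil))) .done (.node 0 2 .nil (.node 1 7 (.cons 0x6543217890 (.cons 0x9871650234 .nil)) (.node 6 9 (.cons 0x8712345690 (.cons 0x8712096543 .nil)) (.node 1 4 (.cons 0x3214567890 (.cons 0x9654178023 .nil)) (.node 3 6 (.cons 0x5412367890 (.cons 0x9876320541 .nil)) .done .done) .done) .done) .done) .done)) .done)) .done)) .done)) (.node 3 6 (.cons 0x5409876321 .nil) (.node 3 5 (.cons 0x6789045321 .nil) (.node 6 9 (.cons 0x8769045321 .nil) (.node 6 8 .nil (.node 7 9 (.cons 0x8790654321 (.cons 0x4356879012 (.cons 0x5340978612 .nil))) (.node 4 6 (.cons 0x5346879012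 .nil) (.node 0 2 (.cons 0x8790216435 (.cons 0x5346879021 (.cons 0x3546879021 .nil))) .done .done) .done) (.node 4 6 .nil (.node 2 5 (.cons 0x9043521687 .nil) (.node 0 7 (.cons 0x5234078961 (.cons 0x9870125643 .nil)) (.node 3 7 (.cons 0x6543789012 (.cons 0x9873465210 .nil)) (.leaf 0x8901256437 0 .done) .done) (.node 3 7 (.cons 0x6543789012 (.cons 0x9873645210 (.cons 0x9046873521 (.cons 0x5237890461 .nil)))) .done .done)) .done) .done)) (.node 6 8 .nil (.node 5 7 (.cons 0x4321657890 (.cons 0x9043578612 .nil)) (.node 2 9 (.cons 0x5401298763 (.cons 0x9210687543 (.cons 0x1296875340 (.cons 0x9210453687 .nil)))) .done (.node 2 7 (.cons 0x8721690435 (.cons 0x9012786543 (.cons 0x3457268901 (.cons 0x5340968721 .nil)))) (.node 5 9 (.cons 0x8721695340 (.cons 0x1689572340 (.cons 0x7861235904 .nil))) .done .done) .done)) (.node 4 6 .nil (.node 3 7 (.cons 0x6543789012 (.cons 0x5643789012 .nil)) (.node 2 5 (.cons 0x7345268901 (.cons 0x9873645210 .nil)) (.leaf 0x8901256437 0 .done) (.node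 2 5 (.cons 0x4378901652 (.cons 0x5237890461 .nil)) (.node 0 7 (.cons 0x5216987043 (.cons 0x9870125643 .nil)) .done .done) .done)) .done) .done)) .done)) (.node 0 5 (.cons 0x7890561234 .nil) (.node 5 9 (.cons 0x1236789540 .nil) (.node 0 2 .nil (.node 1 7 (.cons 0x6543217890 (.cons 0x8716590234 (.cons 0x6345987102 .nil))) (.node 6 9 (.cons 0x8967123540 (.cons 0x3456987120 .nil)) .done .done) (.node 0 3 (.cons 0x4567890321 .nil) (.node 0 7 .nil (.node 1 4 (.cons 0x3214567890 (.cons 0x2341659870 (.cons 0x8709561432 (.cons 0x8907654123 .nil)))) .done .done) .done) .done)) (.node 0 2 (.cons 0x3678954021 .nil) (.node 0 3 (.cons 0x4567890321 .nil) (.node 0 7 (.cons 0x4365987021 .nil) .done .done) .done) .done)) (.node 0 3 (.cons 0x4567890321 .nil) (.node 0 7 .nil (.node 1 8 (.cons 0x9065432187 (.cons 0x9812354076 (.cons 0x6709812354 .nil))) (.node 0 8 .nil (.node 1 4 (.cons 0x3214567890 (.cons 0x9807654123 (.cons 0x9087654123 .nil))) .done .done) .done) .done) .done) .done))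 (.node 2 4 (.cons 0x5324098761 .nil) (.node 0 3 (.cons 0x4567890321 .nil) (.node 0 5 (.cons 0x7890561234 .nil) (.node 2 5 (.cons 0x9876104253 .nil) (.node 3 9 (.cons 0x3987654210 .nil) (.node 0 2 (.cons 0x6789354201 .nil) (.node 0 7 (.cons 0x8935426701 .nil) (.node 0 8 (.cons 0x7624539801 .nil) .done .done) .done) (.node 3 8 (.cons 0x9830124567 .nil) (.node 6 9 (.cons 0x8769352401 .nil) (.leaf 0x5438769012 0 (.node 1 3 (.cons 0x4521387690 .nil) (.node 3 7 (.cons 0x2405378961 .nil) .done .done) .done)) .done) .done)) .done) .done) (.node 0 7 (.cons 0x9870165342 .nil) (.node 3 9 (.cons 0x3987654210 .nil) (.node 0 8 (.cons 0x7654210893 .nil) (.node 0 2 .nil (.node 1 9 (.cons 0x4536789102 (.cons 0x4563207891 .nil)) (.node 1 7 (.cons 0x8917623540 (.cons 0x8071932456 (.cons 0x8935420176 .nil))) .done .done) .done) .done) (.node 3 8 (.cons 0x9387601245 .nil) .done .done)) .done) .done)) (.node 3 8 (.cons 0x9012456783 .nil) (.node 2 5 (.cons 0x9016783524 .nil) (.node 3 9 (.cons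 0x4016789352 .nil) (.node 0 3 (.cons 0x4567890321 .nil) (.node 3 7 (.cons 0x6543789012 .nil) (.node 1 3 .nil (.node 4 9 (.cons 0x9425387610 (.cons 0x7625498310 (.cons 0x4987652130 .nil))) .done .done) .done) .done) (.node 3 7 (.cons 0x6543789012 .nil) (.node 5 7 (.cons 0x4321657890 .nil) (.node 0 3 (.cons 0x4567890321 .nil) (.node 1 3 (.cons 0x4576213890 .nil) .done .done) .done) .done) .done)) (.node 0 5 (.cons 0x7890561234 .nil) (.node 5 9 (.cons 0x1236789540 .nil) (.node 0 2 (.cons 0x3678954021 .nil) (.node 0 3 (.cons 0x4567890321 .nil) .done .done) .done) .done) .done)) (.node 0 3 (.cons 0x4567890321 .nil) (.node 3 9 (.cons 0x8765421093 .nil) (.node 0 5 (.cons 0x7890561234 .nil) (.node 2 5 (.cons 0x8761093524 .nil) (.node 5 8 (.cons 0x9367854210 .nil) (.node 0 8 (.cons 0x9367801245 .nil) (.node 6 8 (.cons 0x7689301254 .nil) .done .done) .done) .done) .done) .done) .done) .done)) .done)) .done))) (.node 0 3 (.cons 0x4567890321 .nil) (.node 3 5 (.cons 0x6789045321 .nil)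 (.node 6 9 .nil (.node 2 7 (.cons 0x3456987210 (.cons 0x8721096543 (.cons 0x8967210354 (.cons 0x4356987210 .nil)))) (.leaf 0x1278965340 0 .done) (.node 6 8 .nil (.node 1 7 (.cons 0x6543217890 (.cons 0x9867123045 (.cons 0x9068712345 .nil))) (.leaf 0x2176890453 0 .done) (.node 4 6 .nil (.node 3 9 (.cons 0x6789354012 (.cons 0x5398764012 .nil)) (.node 2 5 (.cons 0x7896125340 (.cons 0x8764521093 .nil)) (.leaf 0x1254678930 0 .done) .done) .done) .done)) .done)) (.node 6 9 (.cons 0x8769045321 .nil) (.node 6 8 .nil (.node 2 7 (.cons 0x8721690435 (.cons 0x9865430127 (.cons 0x9012786543 (.cons 0x5340968721 .nil)))) (.node 5 7 (.cons 0x4321657890 (.cons 0x9867540321 (.cons 0x3457268901 (.cons 0x6890345721 .nil)))) .done .done) (.node 4 6 .nil (.node 3 7 (.cons 0x6543789012 (.cons 0x5643789012 .nil)) (.node 2 5 (.cons 0x5216987340 .nil) (.node 3 9 (.cons 0x8937621045 (.cons 0x3987645210 (.cons 0x7893465210 .nil))) .done (.leaf 0x1256437890 0 .done)) (.node 2 5 (.cons 0x9867301254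 (.cons 0x2546378901 .nil)) (.leaf 0x8901256437 0 .done) .done)) .done) .done)) .done) .done)) (.node 6 9 .nil (.node 3 5 (.cons 0x6789045321 (.cons 0x8769045321 .nil)) (.node 3 7 (.cons 0x6543789012 (.cons 0x8734569012 .nil)) (.leaf 0x1269873540 0 .done) (.node 1 7 (.cons 0x6543217890 (.cons 0x8967123540 (.cons 0x8712345690 .nil))) (.node 3 7 (.cons 0x6543789012 (.cons 0x8967354012 (.cons 0x8734569012 .nil))) .done .done) .done)) (.node 0 7 .nil (.node 1 4 (.cons 0x3214567890 (.cons 0x5698703412 (.cons 0x8907654123 .nil))) (.node 2 4 (.cons 0x5698703421 .nil) (.node 1 5 (.cons 0x2367890451 (.cons 0x7896512430 (.cons 0x7890423615 .nil))) (.node 1 8 (.cons 0x9065432187 (.cons 0x9815407632 (.cons 0x7632451890 (.cons 0x9078145632 .nil)))) .done .done) .done) .done) (.node 0 2 .nil (.node 1 7 (.cons 0x6543217890 (.cons 0x3456987120 (.cons 0x8712096543 .nil))) (.node 1 5 (.cons 0x2367890451 (.cons 0x9876320451 (.cons 0x8715436902 (.cons 0x8902367154 (.cons 0x6320987154 .nil)))))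 .done .done) (.node 0 8 .nil (.node 0 5 (.cons 0x7890561234 .nil) (.node 4 7 (.cons 0x5612347890 (.cons 0x9805612347 (.cons 0x9087432165 .nil))) (.node 5 7 (.cons 0x4321657890 (.cons 0x9803475621 (.cons 0x9087561234 .nil))) .done .done) .done) .done) .done)) .done)) .done)) .done)) .done)) (.node 0 5 (.cons 0x7890561234 .nil) tc9_1_23 .done)))
noncomputable def tc9_1_26 : T := (.node 1 4 (.cons 0x3214567890 .nil) (.node 1 5 .nil (.node 0 4 (.cons 0x6789045123 .nil) (.node 0 7 (.cons 0x9870432165 .nil) (.node 6 9 (.cons 0x5432169870 (.cons 0x8712340965 (.cons 0x2345169870 .nil))) (.node 3 8 (.cons 0x2178345690 (.cons 0x9607834512 (.cons 0x9067832154 (.cons 0x5690438712 (.cons 0x8345170962 .nil))))) .done .done) (.node 2 9 (.cons 0x1654329870 (.cons 0x6154329870 (.cons 0x3298704561 .nil))) (.leaf 0x1543298706 0 .done) .done)) (.node 1 3 (.cons 0x6789045132 (.cons 0x4098765132 .nil)) .done .done)) (.node 1 8 (.cons 0x9065432187 .nil) (.node 1 3 .nil (.node 0 5 (.cons 0x7623189054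 .nil) (.node 0 7 (.cons 0x9870543216 (.cons 0x9870561234 (.cons 0x8907654132 .nil))) .done (.node 4 6 (.cons 0x7645098123 (.cons 0x7645098132 .nil)) (.node 4 9 (.cons 0x5490678123 (.cons 0x5490678132 .nil)) (.node 0 4 (.cons 0x7623189045 .nil) (.node 6 8 (.cons 0x7860945123 (.cons 0x9043217865 (.cons 0x7860945132 .nil))) .done .done) .done) .done) .done)) (.node 1 9 .nil (.node 3 8 (.cons 0x7654123890 .nil) (.node 0 7 (.cons 0x9832145670 (.cons 0x2389145670 .nil)) (.node 0 4 (.cons 0x5407623891 .nil) (.node 3 6 (.cons 0x8907632145 (.cons 0x9870451632 .nil)) .done .done) (.node 0 4 (.cons 0x9870432165 (.cons 0x9123876045 (.cons 0x5619870432 .nil))) .done .done)) (.node 2 7 (.cons 0x1456723890 (.cons 0x7265438910 (.cons 0x8327609145 .nil))) (.leaf 0x3890172654 0 .done) .done)) .done) .done)) (.node 1 9 .nil (.node 0 7 (.cons 0x8907654123 (.cons 0x2345619870 .nil)) (.node 0 5 (.cons 0x9870543216 (.cons 0x6198705432 .nil)) (.node 5 9 (.cons 0x8706195432 .nil) (.leaf 0x1234598706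 0 .done) .done) (.node 0 4 (.cons 0x9870432165 (.cons 0x5619870432 .nil)) (.node 3 8 (.cons 0x7654123890 (.cons 0x9123876045 (.cons 0x8326719045 .nil))) (.node 1 3 .nil (.node 2 8 (.cons 0x6543287190 (.cons 0x7654132890 (.cons 0x9132876045 (.cons 0x7823190654 .nil)))) .done .done) .done) .done) .done)) (.node 1 3 .nil (.node 0 7 (.cons 0x8907654123 (.cons 0x8907654132 .nil)) (.node 6 8 (.cons 0x7860912345 (.cons 0x7098623154 (.cons 0x7098621345 .nil))) .done (.node 5 8 (.cons 0x4587609123 (.cons 0x4587609132 (.cons 0x7098562134 .nil))) (.node 7 9 (.cons 0x8790654321 (.cons 0x4310798562 (.cons 0x4312658970 .nil))) .done .done) .done)) .done) .done)) .done)) .done)) (.node 3 6 (.cons 0x5412367890 .nil) (.node 6 9 (.cons 0x8712345690 .nil) (.node 3 9 (.cons 0x8760932145 .nil) (.node 1 3 .nil (.node 0 3 (.cons 0x4567890321 .nil) (.node 4 6 (.cons 0x5467890321 (.cons 0x5467890312 .nil)) .done (.node 3 8 (.cons 0x9067832145 .nil) (.node 3 7 (.cons 0x6543789012 .nil) (.node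 0 4 (.cons 0x9837621045 .nil) (.node 6 8 (.cons 0x5409867321 (.cons 0x5409867312 .nil)) .done .done) .done) (.node 4 9 (.cons 0x5490678321 (.cons 0x5490678312 .nil)) .done .done)) .done)) .done) (.node 6 8 .nil (.node 0 3 (.cons 0x4567890321 (.cons 0x7689032145 .nil)) (.node 0 5 (.cons 0x9876145032 (.cons 0x7689054123 (.cons 0x6871239054 .nil))) .done .done) (.node 4 6 .nil (.node 2 5 (.cons 0x6871254390 (.cons 0x3987645210 (.cons 0x8764521093 .nil))) (.node 0 3 (.cons 0x7896145230 (.cons 0x7893016452 .nil)) (.leaf 0x1254678930 0 .done) .done) .done) .done)) .done)) (.node 6 8 .nil (.node 0 3 (.cons 0x4567890321 (.cons 0x7689032145 (.cons 0x5430968712 .nil))) (.node 2 5 (.cons 0x9876145230 (.cons 0x3096871452 .nil)) (.leaf 0x4176890325 0 (.leaf 0x8690325417 0 .done)) .done) (.node 4 6 .nil (.node 3 8 (.cons 0x2178345690 .nil) (.node 3 7 (.cons 0x6543789012 .nil) (.node 2 5 (.cons 0x7345268901 (.cons 0x6452109873 .nil)) (.leaf 0x8901256437 0 (.node 1 8 (.cons 0x9018625437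 (.cons 0x5218734690 (.cons 0x3781254690 .nil))) .done .done)) (.node 0 3 (.cons 0x4567890321 (.cons 0x5467890321 .nil)) (.node 3 5 (.cons 0x8901453762 .nil) (.node 3 9 (.cons 0x8760932145 (.cons 0x8764539012 .nil)) .done .done) .done) .done)) (.node 1 5 (.cons 0x9067832154 (.cons 0x7645123890 (.cons 0x9064512387 .nil))) .done .done)) .done) .done)) .done)) (.node 1 8 (.cons 0x9065432187 .nil) (.node 3 8 (.cons 0x9067832145 .nil) (.node 3 7 (.cons 0x6543789012 .nil) (.node 6 8 .nil (.node 0 4 (.cons 0x9837621045 (.cons 0x5409867321 .nil)) (.node 0 5 (.cons 0x2367890541 (.cons 0x4509867321 (.cons 0x9054178632 .nil))) .done .done) (.node 4 6 .nil (.node 0 5 (.cons 0x7345098621 (.cons 0x8905467321 (.cons 0x9873216450 .nil))) (.node 5 7 (.cons 0x4189057623 (.cons 0x9810573462 (.cons 0x5734621890 .nil))) .done .done) .done) .done)) (.node 4 6 (.cons 0x5643789012 .nil) (.node 6 8 .nil (.node 0 3 (.cons 0x4567890321 (.cons 0x7689032145 .nil)) (.node 5 7 (.cons 0x9065781234 (.cons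 0x9862103457 (.cons 0x5734109862 (.cons 0x5734126890 .nil)))) .done .done) .done) .done) .done)) (.node 4 6 .nil (.node 1 5 (.cons 0x9067832154 (.cons 0x7645123890 (.cons 0x9064512387 .nil))) .done (.node 6 8 .nil (.node 0 5 (.cons 0x2367890541 (.cons 0x7689054123 (.cons 0x9054178632 .nil))) (.node 1 3 (.cons 0x6789054132 (.cons 0x7689054132 .nil)) .done .done) .done) .done)) .done)) (.node 6 9 (.cons 0x8712345690 .nil) (.node 6 8 .nil (.node 0 5 (.cons 0x2367890541 (.cons 0x7689054123 (.cons 0x9054178632 (.cons 0x5096871432 .nil)))) .done (.node 4 6 .nil (.node 3 9 (.cons 0x2178654390 (.cons 0x7812390645 .nil)) (.node 0 8 (.cons 0x5690871234 (.cons 0x8093217645 (.cons 0x9087123465 .nil))) (.node 4 8 (.cons 0x8456712390 .nil) (.node 1 9 (.cons 0x2391765480 .nil) .done .done) .done) .done) .done) .done)) (.node 4 6 .nil (.node 0 8 (.cons 0x3456908712 (.cons 0x9087123465 .nil)) (.node 5 9 (.cons 0x7814590632 (.cons 0x7180954632 (.cons 0x2364590871 (.cons 0x7180954623 .nil))))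 .done (.node 3 7 (.cons 0x6543789012 (.cons 0x9081732645 (.cons 0x5643789012 .nil))) (.node 0 5 (.cons 0x2367890541 .nil) (.node 2 7 (.cons 0x2736981450 (.cons 0x3721896450 (.cons 0x7236418905 .nil))) .done (.node 0 2 (.cons 0x8712096543 (.cons 0x3789645021 (.cons 0x5021469873 .nil))) .done .done)) .done) .done)) .done) .done)) .done)) .done)) .done)) (.node 1 8 (.cons 0x9065432187 .nil) (.node 6 8 (.cons 0x9068712345 .nil) (.node 0 7 (.cons 0x5432689071 .nil) (.node 1 4 (.cons 0x3214567890 .nil) (.node 3 6 .nil (.node 2 4 (.cons 0x9870124365 (.cons 0x5421098763 .nil)) (.node 0 5 (.cons 0x9870561234 (.cons 0x3245098671 (.cons 0x9054178632 (.cons 0x9056781423 .nil)))) .done .done) (.node 6 9 .nil (.node 0 8 (.cons 0x9087654123 (.cons 0x7809654123 .nil)) (.node 5 7 (.cons 0x1754326890 (.cons 0x9608754321 (.cons 0x9612345780 (.cons 0x2341875690 (.cons 0x5780963412 .nil))))) .done .done) (.node 4 6 .nil (.node 0 3 (.cons 0x4567890321 (.cons 0x8903217645 (.cons 0x5467890321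 .nil))) (.node 0 5 (.cons 0x9870561234 (.cons 0x8905467123 (.cons 0x9871645032 .nil))) .done .done) .done) .done)) .done)) (.node 3 6 .nil (.node 2 5 (.cons 0x3254176890 (.cons 0x9870125634 (.cons 0x9017863452 (.cons 0x7145236890 .nil)))) .done (.node 6 9 .nil (.node 2 7 (.cons 0x5689072341 (.cons 0x3456987210 (.cons 0x8721096543 .nil))) .done (.node 7 9 (.cons 0x8790654321 .nil) (.node 4 6 .nil (.node 0 3 (.cons 0x4567890321 (.cons 0x8903217645 (.cons 0x5467890321 .nil))) (.node 0 5 (.cons 0x8971623450 (.cons 0x8905467123 (.cons 0x9871645032 .nil))) .done .done) .done) .done) .done)) .done)) .done)) (.node 4 6 .nil (.node 1 5 (.cons 0x7154326890 (.cons 0x9078156432 (.cons 0x7098156432 (.cons 0x8907154623 .nil)))) .done (.node 1 4 (.cons 0x3214567890 .nil) (.node 6 9 (.cons 0x5690781432 .nil) (.node 3 6 .nil (.node 2 9 (.cons 0x1654329870 (.cons 0x5436107892 (.cons 0x5417863290 .nil))) .done .done) .done) (.node 1 9 (.cons 0x2345619870 .nil) (.node 1 3 (.cons 0x8907654132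 .nil) (.node 1 5 (.cons 0x7154326890 .nil) .done .done) .done) .done)) .done)) .done)) (.node 1 4 (.cons 0x3214567890 .nil) (.node 4 6 .nil (.node 0 5 (.cons 0x7126890543 (.cons 0x8905467123 (.cons 0x6450987123 .nil))) (.node 1 3 (.cons 0x7134509862 (.cons 0x8905467132 .nil)) .done .done) (.node 1 3 .nil (.node 0 5 (.cons 0x7126890543 (.cons 0x8905467132 (.cons 0x6450987132 (.cons 0x7134509862 .nil)))) .done (.node 1 5 .nil (.node 0 2 (.cons 0x8902317645 (.cons 0x3209876451 (.cons 0x7890234651 (.cons 0x6451789023 .nil)))) .done (.node 1 9 .nil (.node 0 7 (.cons 0x7098654312 (.cons 0x2345619870 .nil)) (.node 4 8 (.cons 0x7098465132 (.cons 0x9123487065 (.cons 0x5487609123 .nil))) .done .done) .done) .done)) .done)) .done)) (.node 0 7 (.cons 0x8907654123 .nil) (.node 0 4 (.cons 0x9870432165 .nil) (.node 7 9 (.cons 0x8790654321 .nil) (.node 0 2 (.cons 0x8970234165 .nil) (.node 0 8 (.cons 0x5432617980 .nil) (.node 0 3 (.cons 0x4567890321 .nil) (.node 0 5 (.cons 0x8971623450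 .nil) .done .done) .done) .done) (.node 4 9 (.cons 0x5612349870 .nil) (.node 4 6 .nil (.node 0 3 (.cons 0x4567890321 (.cons 0x8903217645 .nil)) (.node 0 5 (.cons 0x2349870561 (.cons 0x8905467123 (.cons 0x9871645032 .nil))) .done .done) .done) .done) .done)) (.node 4 6 .nil (.node 0 3 (.cons 0x4567890321 (.cons 0x8903217645 (.cons 0x5467890321 .nil))) .done .done) .done)) (.node 1 9 (.cons 0x2345619870 .nil) (.node 1 3 (.cons 0x8907654132 .nil) (.node 1 5 (.cons 0x3451709862 .nil) .done .done) .done) .done)) .done)) .done)) (.node 1 4 (.cons 0x3214567890 .nil) (.node 1 5 .nil (.node 0 4 (.cons 0x6789045123 (.cons 0x8904517623 .nil)) (.node 0 7 (.cons 0x9870432165 (.cons 0x8907154326 .nil)) .done (.node 3 8 (.cons 0x7654098321 (.cons 0x9067832154 (.cons 0x7651238904 (.cons 0x4517623890 .nil)))) (.node 0 7 (.cons 0x9834562107 (.cons 0x9832156704 (.cons 0x8907154326 .nil))) .done .done) .done)) (.node 1 9 .nil (.node 0 7 (.cons 0x2345619870 .nil) (.node 1 3 (.cons 0x7098132654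 .nil) (.node 3 8 (.cons 0x9834562107 (.cons 0x6709832154 (.cons 0x2387654190 .nil))) (.leaf 0x4389071265 0 .done) .done) (.node 4 8 (.cons 0x4890765123 (.cons 0x9123487065 (.cons 0x5487609123 .nil))) (.node 0 8 (.cons 0x9087654123 .nil) (.node 3 5 (.cons 0x1762354890 (.cons 0x7019843562 (.cons 0x8453267190 (.cons 0x6780914532 .nil)))) .done .done) (.node 3 7 (.cons 0x6543789012 (.cons 0x5621984370 (.cons 0x8437091265 (.cons 0x4560918732 .nil)))) .done .done)) .done)) (.node 1 3 .nil (.node 7 9 (.cons 0x8790654321 (.cons 0x4560978132 (.cons 0x8790654312 .nil))) .done .done) .done)) .done)) (.node 0 7 (.cons 0x8907654123 .nil) (.node 1 5 .nil (.node 0 4 (.cons 0x9870432165 (.cons 0x6789045123 (.cons 0x8904517623 .nil))) .done (.node 1 3 .nil (.node 7 9 (.cons 0x8790654321 (.cons 0x4560978132 (.cons 0x8790654312 .nil))) .done (.node 1 9 .nil (.node 4 8 (.cons 0x5670984123 (.cons 0x9123487065 (.cons 0x5487609123 (.cons 0x6519078432 .nil)))) (.node 3 7 (.cons 0x6543789012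 (.cons 0x5621984370 (.cons 0x8437091265 (.cons 0x4560918732 .nil)))) .done .done) .done) .done)) .done)) (.node 1 9 (.cons 0x2345619870 .nil) (.node 1 3 (.cons 0x8907654132 .nil) (.node 1 5 (.cons 0x8907154326 .nil) .done .done) .done) .done)) .done)) .done)) (.node 4 6 (.cons 0x5643217890 .nil) (.node 1 8 (.cons 0x9065432187 .nil) (.node 1 4 (.cons 0x3214567890 .nil) (.node 1 3 .nil (.node 0 5 (.cons 0x2346509871 (.cons 0x7645098132 (.cons 0x4650987132 (.cons 0x7623189054 .nil)))) .done (.node 1 5 (.cons 0x2346517890 .nil) (.node 1 9 .nil (.node 0 7 (.cons 0x5467098132 (.cons 0x2345619870 .nil)) (.node 2 5 (.cons 0x7645231890 (.cons 0x8913254670 (.cons 0x3254678190 .nil))) .done .done) .done) .done) .done)) (.node 3 6 .nil (.node 0 7 (.cons 0x8907654123 (.cons 0x8907632145 (.cons 0x5418907632 .nil))) .done (.node 1 3 .nil (.node 0 5 (.cons 0x2346509871 (.cons 0x7645098132 (.cons 0x4650987132 (.cons 0x7623189054 .nil)))) .done (.node 1 5 (.cons 0x2346517890 .nil) (.node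 1 9 .nil (.node 0 7 (.cons 0x8907654123 (.cons 0x2345619870 .nil)) (.node 2 5 (.cons 0x7890125634 (.cons 0x4632519870 (.cons 0x3254678190 .nil))) .done .done) .done) .done) .done)) .done)) .done)) (.node 1 5 (.cons 0x2346517890 .nil) (.node 3 6 .nil (.node 1 4 (.cons 0x3214567890 (.cons 0x5412367890 .nil)) (.node 0 7 (.cons 0x8907654123 (.cons 0x9078154632 (.cons 0x7098145632 .nil))) .done .done) (.node 6 9 .nil (.node 2 7 (.cons 0x3456987210 (.cons 0x8721096543 (.cons 0x3278154690 .nil))) (.node 0 4 (.cons 0x5640981723 (.cons 0x8769045123 .nil)) (.node 7 9 (.cons 0x5187904632 (.cons 0x4097815632 (.cons 0x8790436512 .nil))) .done .done) .done) (.node 6 8 .nil (.node 7 9 (.cons 0x8790654321 .nil) (.node 0 3 (.cons 0x4567890321 (.cons 0x8679032154 (.cons 0x7869034512 (.cons 0x7903268154 .nil)))) .done (.node 0 4 (.cons 0x4097815632 (.cons 0x8651790432 (.cons 0x7904518623 .nil))) .done .done)) .done) .done)) .done)) (.node 0 7 (.cons 0x8907156432 .nil) (.node 3 6 (.cons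 0x7098154632 .nil) (.node 6 8 (.cons 0x5170986432 .nil) (.node 6 9 (.cons 0x5432169870 .nil) .done .done) .done) (.node 1 9 (.cons 0x2345619870 .nil) (.node 1 3 (.cons 0x7098132654 .nil) (.node 1 4 (.cons 0x3214567890 .nil) .done .done) .done) .done)) .done)) .done)) (.node 1 8 (.cons 0x9065432187 .nil) (.node 1 4 (.cons 0x3214567890 .nil) (.node 1 3 .nil (.node 7 9 (.cons 0x8790654321 (.cons 0x8790654312 .nil)) (.node 4 9 (.cons 0x5490678123 (.cons 0x5490678132 .nil)) (.node 0 8 (.cons 0x9087654123 (.cons 0x9087654132 .nil)) (.node 2 5 (.cons 0x3465217890 (.cons 0x9780643125 (.cons 0x8790645213 .nil))) (.leaf 0x6523149087 0 .done) (.node 0 7 (.cons 0x7089456123 (.cons 0x7089456132 .nil)) .done .done)) .done) (.node 0 2 (.cons 0x9781602345 (.cons 0x5467890213 (.cons 0x7890213465 (.cons 0x8790231456 .nil)))) .done .done)) (.node 1 5 .nil (.node 0 3 (.cons 0x4567890321 (.cons 0x3098764512 (.cons 0x7890346512 (.cons 0x7623098154 .nil)))) .done (.node 1 9 .nil (.node 4 8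 (.cons 0x5609178432 .nil) (.node 0 5 (.cons 0x3465098712 (.cons 0x4890567123 (.cons 0x4890567132 .nil))) .done (.node 0 3 (.cons 0x4567890321 (.cons 0x9123067845 (.cons 0x8765419032 .nil))) (.node 0 5 (.cons 0x3465098712 (.cons 0x7650321984 (.cons 0x7198432650 .nil))) .done .done) .done)) .done) .done)) .done)) (.node 0 7 (.cons 0x8907654123 .nil) (.node 3 6 (.cons 0x8907632145 .nil) (.node 6 9 (.cons 0x5432169870 .nil) (.node 6 8 .nil (.node 4 9 (.cons 0x5490678123 .nil) (.node 5 7 (.cons 0x4365789012 (.cons 0x9862107543 (.cons 0x5786349012 (.cons 0x2341756890 (.cons 0x3457098621 .nil))))) .done .done) .done) .done) (.node 6 9 (.cons 0x5432169870 .nil) (.node 6 8 .nil (.node 3 7 (.cons 0x6543789012 (.cons 0x9862107345 .nil)) (.node 5 7 (.cons 0x2367541890 (.cons 0x9862107543 (.cons 0x2341756890 (.cons 0x3457098621 .nil)))) .done .done) .done) .done) .done)) (.node 1 9 (.cons 0x2345619870 .nil) (.node 1 3 (.cons 0x8907654132 .nil) (.node 1 5 (.cons 0x4518907623 .nil)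 .done .done) .done) .done)) .done)) (.node 0 7 .nil (.node 3 7 (.cons 0x5462189073 (.cons 0x4562370981 .nil)) (.node 4 9 (.cons 0x8712349065 (.cons 0x6549812370 (.cons 0x1894562370 .nil))) (.node 0 4 (.cons 0x9812370456 .nil) (.node 5 8 (.cons 0x9065871234 (.cons 0x9856234071 (.cons 0x5894326170 (.cons 0x9458126073 .nil)))) .done .done) .done) (.node 4 9 (.cons 0x8712349065 (.cons 0x8123709456 .nil)) (.node 3 5 (.cons 0x8760945321 (.cons 0x9453218706 (.cons 0x8945321670 .nil))) (.node 2 7 (.cons 0x6270189453 (.cons 0x3546270981 .nil)) .done .done) (.node 6 9 (.cons 0x8734569012 .nil) (.node 1 5 (.cons 0x8715609432 (.cons 0x8709651234 .nil)) (.node 2 8 (.cons 0x5609432871 (.cons 0x4965182370 (.cons 0x3289451670 (.cons 0x3709465182 .nil)))) .done .done) .done) .done)) .done)) (.node 6 9 (.cons 0x5432169870 .nil) (.node 3 6 .nil (.node 5 8 (.cons 0x5890712643 (.cons 0x9854362107 (.cons 0x7098543621 .nil))) (.node 1 4 (.cons 0x7143265890 (.cons 0x2367098541 (.cons 0x5412367890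 .nil))) (.node 1 5 (.cons 0x6907851432 (.cons 0x8907632154 .nil)) .done .done) .done) (.node 6 8 .nil (.node 3 7 (.cons 0x6543789012 (.cons 0x9862107345 .nil)) (.node 4 9 (.cons 0x8712349065 (.cons 0x7321865490 (.cons 0x5490732681 .nil))) (.node 5 7 (.cons 0x2360945781 (.cons 0x9862107543 (.cons 0x1862375490 (.cons 0x3457098621 .nil)))) .done .done) .done) .done) .done)) (.node 7 9 (.cons 0x8790654321 .nil) (.node 3 6 .nil (.node 1 4 (.cons 0x3214567890 (.cons 0x5418709632 (.cons 0x8907632145 (.cons 0x5412367890 .nil)))) .done (.node 6 8 .nil (.node 0 3 (.cons 0x4567890321 (.cons 0x5430798612 .nil)) (.node 0 4 (.cons 0x7123409865 .nil) (.node 2 5 (.cons 0x3465217890 (.cons 0x1789652340 (.cons 0x8790436521 (.cons 0x3254078961 .nil)))) .done .done) .done) .done) .done)) .done) .done)) (.node 1 9 (.cons 0x2345619870 .nil) (.node 1 5 (.cons 0x8907156234 .nil) (.node 1 3 (.cons 0x7098132654 .nil) (.node 1 4 (.cons 0x3214567890 .nil) .done .done) .done) (.node 7 9 (.cons 0x8790654321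 .nil) (.node 1 4 (.cons 0x3214567890 .nil) (.node 1 3 (.cons 0x8790654312 .nil) (.node 1 5 (.cons 0x8907156234 .nil) .done .done) (.node 1 3 (.cons 0x8790654312 .nil) (.node 1 5 (.cons 0x8907156234 .nil) .done .done) .done)) .done) .done)) .done))) .done)) .done)) .done)))
noncomputable def tc9_1_27 : T := (.node 3 6 (.cons 0x5409876321 .nil) (.node 2 9 (.cons 0x5401298763 (.cons 0x7892104365 (.cons 0x7892104563 .nil))) (.node 3 7 (.cons 0x6543789012 .nil) (.node 2 7 (.cons 0x9872104365 .nil) (.node 6 9 (.cons 0x5698721043 .nil) (.node 1 7 (.cons 0x6543217890 .nil) (.node 5 8 (.cons 0x3458962710 (.cons 0x1785432960 (.cons 0x8540962371 (.cons 0x7162345890 (.cons 0x9217854360 .nil))))) .done (.node 0 5 (.cons 0x8965043271 (.cons 0x9871236504 (.cons 0x4365017892 .nil))) .done .done)) (.node 2 8 (.cons 0x5437821690 (.cons 0x5690437821 .nil)) (.leaf 0x5437829016 0 .done) .done)) (.node 5 9 (.cons 0x8954012763 (.cons 0x2789543610 (.cons 0x8721609543 .nil))) (.node 2 5 (.cons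 0x9872543610 .nil) (.node 2 8 (.cons 0x9563782104 .nil) (.leaf 0x5437829016 0 .done) (.leaf 0x4527890163 0 .done)) .done) .done)) (.node 5 8 (.cons 0x4589012673 (.cons 0x9854012673 (.cons 0x9061237854 (.cons 0x7345890162 .nil)))) (.node 1 7 (.cons 0x7126589043 .nil) (.node 0 3 (.cons 0x4589037612 (.cons 0x9217856034 (.cons 0x6543017892 .nil))) .done (.node 6 8 (.cons 0x9043217865 (.cons 0x1786543290 .nil)) .done .done)) .done) (.leaf 0x8736540129 0 (.node 1 8 (.cons 0x7345629810 (.cons 0x4560923781 .nil)) (.node 5 9 (.cons 0x7632189540 (.cons 0x4590618732 (.cons 0x7816095432 (.cons 0x7812954360 .nil)))) .done (.node 5 7 (.cons 0x9065781234 (.cons 0x4375629810 (.cons 0x8109265734 (.cons 0x2657340981 .nil)))) .done .done)) .done)))) .done) (.node 5 7 (.cons 0x4365789012 (.cons 0x9875634012 .nil)) (.node 3 7 (.cons 0x6543789012 .nil) (.leaf 0x2378904561 0 (.node 5 8 (.cons 0x4589012673 (.cons 0x9854012673 (.cons 0x9061237854 (.cons 0x7345890162 .nil)))) (.node 1 5 (.cons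 0x8904512376 (.cons 0x7362158904 .nil)) (.node 1 7 (.cons 0x7126589043 .nil) .done .done) .done) (.node 1 8 (.cons 0x9043218756 (.cons 0x7326540981 .nil)) (.node 2 7 (.cons 0x9872104365 (.cons 0x8901627345 (.cons 0x9810437265 .nil))) (.node 2 9 (.cons 0x5401892673 (.cons 0x7340189265 .nil)) (.leaf 0x5601892734 0 .done) .done) (.node 0 8 (.cons 0x9087561234 (.cons 0x9081623754 (.cons 0x9081623457 .nil))) .done .done)) .done))) (.node 0 7 (.cons 0x8907543261 .nil) (.node 7 9 (.cons 0x8790654321 (.cons 0x8790612345 .nil)) (.node 1 8 (.cons 0x5621897043 (.cons 0x7543261890 (.cons 0x7562340981 .nil))) (.node 3 7 (.cons 0x6543789012 (.cons 0x3798126540 (.cons 0x8126540973 (.cons 0x4573261890 .nil)))) .done .done) .done) .done) (.node 7 9 (.cons 0x8790654321 (.cons 0x8790612345 .nil)) (.node 3 8 (.cons 0x1265798340 (.cons 0x3890457621 .nil)) (.node 2 4 (.cons 0x9783421065 (.cons 0x9012456783 .nil)) (.node 1 4 (.cons 0x8341265790 (.cons 0x7654123890 .nil)) (.node 1 5 (.cons 0x8790432156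 (.cons 0x4215763890 (.cons 0x9063875124 .nil))) .done .done) .done) (.node 2 7 (.cons 0x7265438901 (.cons 0x5627983401 (.cons 0x9016543872 (.cons 0x1627543890 .nil)))) .done .done)) (.node 3 7 (.cons 0x6543789012 .nil) (.leaf 0x2378904561 0 (.node 6 9 (.cons 0x8734569012 .nil) (.node 1 3 (.cons 0x8904576213 .nil) (.node 0 2 (.cons 0x8975431620 (.cons 0x8975620431 (.cons 0x7896540213 .nil))) .done (.node 2 8 (.cons 0x1287345690 (.cons 0x1328976540 (.cons 0x5437821690 (.cons 0x5690437821 (.cons 0x7563128904 .nil))))) .done .done)) .done) (.node 5 8 (.cons 0x4589012673 (.cons 0x9854012673 (.cons 0x4098573621 (.cons 0x7345890162 .nil)))) .done .done))) .done)) .done))) (.node 6 9 .nil (.node 2 7 (.cons 0x5436109872 (.cons 0x3456987210 (.cons 0x8721096543 (.cons 0x5698721043 .nil)))) .done (.node 1 7 (.cons 0x5698712340 (.cons 0x8712340965 .nil)) (.node 0 5 (.cons 0x4509871632 (.cons 0x6178905432 .nil)) (.node 0 7 (.cons 0x8907162345 .nil) (.node 2 7 (.cons 0x8901726345 (.cons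 0x5698721043 .nil)) (.node 3 7 (.cons 0x6543789012 (.cons 0x5698734012 .nil)) .done .done) .done) .done) (.node 3 7 (.cons 0x6543789012 (.cons 0x5698734012 .nil)) (.node 5 8 (.cons 0x4378569012 (.cons 0x9658734012 (.cons 0x4096587321 (.cons 0x7126589043 .nil)))) (.node 2 9 (.cons 0x4329065871 (.cons 0x7854329061 .nil)) (.node 4 8 (.cons 0x9265840173 (.cons 0x5487361092 (.cons 0x3784561290 .nil))) .done .done) .done) (.node 5 8 (.cons 0x4589012673 (.cons 0x9854012673 (.cons 0x9061237854 (.cons 0x7345890162 (.cons 0x7126589043 .nil))))) .done .done)) .done)) (.node 7 9 (.cons 0x8790654321 (.cons 0x8790612345 .nil)) (.node 3 7 (.cons 0x6543789012 (.cons 0x8973401265 .nil)) (.node 1 7 (.cons 0x6543217890 .nil) (.node 0 8 (.cons 0x5437809612 (.cons 0x9087321654 (.cons 0x5623408971 .nil))) (.node 2 7 (.cons 0x5436109872 .nil) (.node 1 5 (.cons 0x8790432156 (.cons 0x8096512734 .nil)) (.node 1 8 (.cons 0x9063278154 .nil) .done .done) .done) .done) (.node 0 7 (.cons 0x8907162345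 .nil) .done .done)) (.node 5 8 (.cons 0x4589012673 (.cons 0x9785604321 (.cons 0x9061237854 (.cons 0x7345890162 .nil)))) (.node 0 7 (.cons 0x3407985621 .nil) (.node 1 5 (.cons 0x6215897340 (.cons 0x8790432156 (.cons 0x8904512376 (.cons 0x8907326154 .nil)))) .done .done) .done) .done)) (.node 4 6 .nil (.node 3 7 (.cons 0x6543789012 (.cons 0x5643789012 (.cons 0x5461237890 .nil))) (.leaf 0x2378904561 0 (.node 2 8 (.cons 0x1287345690 (.cons 0x5437821690 (.cons 0x5690437821 .nil))) (.node 3 9 (.cons 0x2879345601 (.cons 0x7654012893 (.cons 0x9378210465 .nil))) (.leaf 0x654397821 0 .done) (.node 1 3 (.cons 0x7982654013 (.cons 0x5460978231 (.cons 0x5640978231 .nil))) (.leaf 0x9782316540 0 .done) .done)) .done)) (.node 6 8 .nil (.node 1 7 (.cons 0x9043217865 (.cons 0x6543217890 (.cons 0x9068712345 .nil))) (.node 0 2 (.cons 0x5698712043 (.cons 0x5432097861 (.cons 0x3204568971 .nil))) .done .done) (.node 1 5 (.cons 0x2340978651 .nil) (.node 1 7 (.cons 0x9043217865 (.cons 0x5179862340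 (.cons 0x8971562340 .nil))) .done (.node 2 7 (.cons 0x1568972340 (.cons 0x5436109872 .nil)) (.node 1 4 (.cons 0x8651432790 (.cons 0x8609723415 .nil)) .done (.node 3 8 (.cons 0x1278345690 (.cons 0x5438721690 .nil)) (.leaf 0x6904387215 0 .done) (.leaf 0x5689723401 0 .done))) (.node 2 4 (.cons 0x3240978651 (.cons 0x8790615423 .nil)) .done .done))) .done)) .done)) .done)) .done))) .done))) (.node 3 8 (.cons 0x7654098321 (.cons 0x7612389045 .nil)) (.node 0 7 (.cons 0x9834562107 (.cons 0x9832167045 .nil)) (.node 7 9 (.cons 0x7983456210 (.cons 0x8790612345 .nil)) (.node 0 2 (.cons 0x7983456201 (.cons 0x5402389761 (.cons 0x7983204561 .nil))) .done (.node 0 2 (.cons 0x3897654021 (.cons 0x5402167983 .nil)) (.node 0 3 (.cons 0x4567890321 (.cons 0x5403897612 .nil)) (.node 0 5 (.cons 0x4389705621 .nil) .done .done) .done) .done)) (.node 7 9 (.cons 0x7983456210 (.cons 0x5438970162 .nil)) (.node 0 5 (.cons 0x4056798321 (.cons 0x7983216504 .nil)) .done (.node 0 2 (.cons 0x3897654021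 (.cons 0x5438970261 (.cons 0x7983402165 .nil))) (.node 1 9 (.cons 0x7023891654 (.cons 0x5407619832 (.cons 0x7045619832 .nil))) (.node 2 5 (.cons 0x4387912560 (.cons 0x4325619870 (.cons 0x8340791652 .nil))) .done .done) .done) .done)) .done)) (.node 0 3 (.cons 0x4567890321 .nil) (.node 5 7 (.cons 0x7562109834 .nil) (.node 7 9 (.cons 0x4389756210 (.cons 0x8790612345 (.cons 0x8975612340 (.cons 0x8975430162 (.cons 0x2165798340 .nil))))) .done (.node 4 9 (.cons 0x6578349012 (.cons 0x2165783490 .nil)) (.node 5 8 (.cons 0x4901267583 (.cons 0x9854032167 (.cons 0x7854906123 (.cons 0x7583490162 .nil)))) (.node 3 7 (.cons 0x8904567321 (.cons 0x9854037612 .nil)) (.node 1 4 (.cons 0x3857621490 .nil) (.node 0 5 (.cons 0x5014983762 (.cons 0x6123875094 (.cons 0x9876145032 .nil))) .done (.leaf 0x985412673 0 .done)) .done) .done) (.leaf 0x3490126578 0 .done)) (.leaf 0x3216578904 0 (.node 2 4 (.cons 0x9065783421 (.cons 0x9830421675 (.cons 0x5761240983 .nil))) (.node 7 9 (.cons 0x8790654321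 (.cons 0x8790612345 (.cons 0x5610978342 .nil))) (.node 0 7 (.cons 0x4389075621 .nil) (.node 1 8 (.cons 0x5618970432 (.cons 0x3457098162 (.cons 0x9078165423 .nil))) .done .done) .done) .done) .done)))) (.node 0 5 (.cons 0x4509876123 .nil) (.node 1 4 (.cons 0x9832140567 (.cons 0x9056783214 (.cons 0x5416789032 .nil))) .done (.node 1 4 (.cons 0x5416789032 .nil) (.node 2 9 (.cons 0x1456789230 (.cons 0x5416789230 (.cons 0x7892305614 .nil))) (.node 3 7 (.cons 0x8904567321 (.cons 0x4561037892 (.cons 0x6123789054 .nil))) (.node 4 8 (.cons 0x9054873216 (.cons 0x1654873290 (.cons 0x3784561290 .nil))) (.leaf 0x7329016548 0 .done) .done) .done) (.node 0 8 (.cons 0x9087654123 .nil) (.node 5 7 (.cons 0x7562109834 (.cons 0x9804576123 (.cons 0x9087543216 .nil))) (.leaf 0x3216578904 0 (.node 0 2 (.cons 0x9021438756 .nil) (.node 0 7 (.cons 0x4389075621 .nil) .done .done) .done)) .done) .done)) .done)) .done)) (.node 2 7 (.cons 0x7265438901 (.cons 0x9016543872 (.cons 0x5409832761 .nil)))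 (.node 0 3 (.cons 0x4567890321 .nil) (.leaf 0x1278903456 0 (.node 2 9 (.cons 0x3892765401 (.cons 0x5401672983 (.cons 0x7298340165 .nil))) (.node 4 9 (.cons 0x3872945601 (.cons 0x5610349872 (.cons 0x5612789430 .nil))) (.node 5 8 (.cons 0x7612304985 (.cons 0x7854906123 (.cons 0x9430612785 .nil))) (.leaf 0x2167854903 0 .done) .done) .done) .done)) (.node 0 5 (.cons 0x4327890561 .nil) (.node 1 7 (.cons 0x4509832671 .nil) (.node 4 6 (.cons 0x9872105643 (.cons 0x3465098721 .nil)) (.leaf 0x5643217890 0 .done) (.leaf 0x3890172654 0 .done)) (.node 1 7 (.cons 0x9832716504 (.cons 0x7162389054 .nil)) (.leaf 0x3890172654 0 .done) .done)) .done)) .done))) (.node 1 7 (.cons 0x5617890432 .nil) (.node 2 9 (.cons 0x5617892340 (.cons 0x3298716540 .nil)) (.node 0 3 (.cons 0x4567890321 (.cons 0x8923045671 .nil)) (.leaf 0x1789265430 0 (.node 1 3 (.cons 0x8765409231 (.cons 0x8923176540 (.cons 0x5409876132 .nil))) .done .done)) (.node 0 2 (.cons 0x9871654023 .nil) (.node 6 9 (.cons 0x1789654320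 (.cons 0x3456987120 .nil)) (.node 3 9 (.cons 0x8932045671 (.cons 0x6543987102 .nil)) (.node 2 4 (.cons 0x3987654210 (.cons 0x8765421093 .nil)) .done .done) .done) (.leaf 0x6178902345 0 .done)) .done)) (.node 2 8 (.cons 0x9043287165 (.cons 0x9045617823 .nil)) (.node 6 9 (.cons 0x5690432871 (.cons 0x1782345690 .nil)) (.node 1 3 (.cons 0x7654098231 (.cons 0x5409876132 (.cons 0x5690431782 .nil))) (.node 0 2 (.cons 0x9876132045 (.cons 0x9654028713 .nil)) (.node 0 7 (.cons 0x2134569870 (.cons 0x9607821345 .nil)) .done .done) .done) .done) (.node 0 3 (.cons 0x4567890321 .nil) (.node 7 9 (.cons 0x8790654321 (.cons 0x5403289761 (.cons 0x7982165430 .nil))) (.node 2 7 (.cons 0x3278904561 .nil) (.node 4 8 (.cons 0x7654890321 (.cons 0x7612309845 (.cons 0x3098456721 .nil))) .done (.leaf 0x4561278903 0 .done)) (.leaf 0x345679821 0 .done)) (.node 7 9 (.cons 0x8790654321 (.cons 0x8790612345 (.cons 0x7982610345 (.cons 0x9782160345 .nil)))) (.node 1 5 (.cons 0x9876154032 (.cons 0x5167982304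 .nil)) (.node 0 5 (.cons 0x7982340561 .nil) (.node 2 5 (.cons 0x8790432561 .nil) .done .done) .done) .done) (.node 5 7 (.cons 0x4309875612 .nil) (.node 1 8 (.cons 0x3267540981 (.cons 0x7562340981 .nil)) (.node 1 9 (.cons 0x8754321906 (.cons 0x7562891043 .nil)) (.node 0 7 (.cons 0x5407619823 .nil) .done .done) .done) (.leaf 0x6578904321 0 (.node 0 7 (.cons 0x8907543261 .nil) (.node 3 9 (.cons 0x9345601287 (.cons 0x4567012893 (.cons 0x7543982610 .nil))) (.leaf 0x765439821 0 .done) .done) .done))) .done))) (.node 1 3 (.cons 0x7613289045 (.cons 0x5409876132 .nil)) (.node 5 9 (.cons 0x9540678231 (.cons 0x7613289540 (.cons 0x9540613287 (.cons 0x6178234590 (.cons 0x7821609543 .nil))))) .done (.node 1 5 (.cons 0x7615409823 .nil) (.node 0 3 (.cons 0x4567890321 (.cons 0x9823045167 (.cons 0x9876154032 .nil))) .done (.node 1 8 (.cons 0x9065432187 .nil) (.node 2 5 (.cons 0x4098765231 .nil) (.node 2 7 (.cons 0x6513278904 (.cons 0x9872561043 .nil)) .done (.node 7 9 (.cons 0x9781234560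 (.cons 0x8790612345 (.cons 0x9781652340 (.cons 0x5432879061 (.cons 0x8790431652 .nil))))) .done .done)) .done) .done)) .done)) .done))) (.node 0 7 (.cons 0x8907162345 .nil) (.node 1 9 (.cons 0x6543219870 .nil) (.node 5 9 (.cons 0x8712345906 (.cons 0x8716095432 .nil)) (.node 3 8 (.cons 0x5409832671 (.cons 0x7162389540 (.cons 0x7832160954 (.cons 0x4590617832 .nil)))) (.node 1 4 (.cons 0x5670419832 (.cons 0x6590783214 .nil)) .done .done) (.node 3 8 (.cons 0x5409832671 (.cons 0x9834562107 (.cons 0x7834590612 .nil))) (.node 1 4 (.cons 0x9560783412 (.cons 0x6590783412 .nil)) .done (.node 1 4 (.cons 0x2389145670 .nil) (.node 2 7 (.cons 0x9834562701 (.cons 0x9016543872 (.cons 0x2783416590 .nil))) .done .done) .done)) .done)) (.node 5 8 (.cons 0x7856091234 (.cons 0x7043265891 (.cons 0x7162345890 (.cons 0x6217098543 .nil)))) (.node 1 4 (.cons 0x7041985623 (.cons 0x8907654123 .nil)) (.node 2 7 (.cons 0x5619872340 (.cons 0x4091658723 (.cons 0x9041658723 .nil))) .done .done) .done)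 (.leaf 0x5432198706 0 .done))) (.node 2 5 (.cons 0x9870432561 (.cons 0x6178904523 .nil)) (.node 4 6 (.cons 0x9870125643 .nil) (.node 0 3 (.cons 0x4567890321 (.cons 0x3098764521 .nil)) (.leaf 0x4652178903 0 .done) .done) (.node 7 9 (.cons 0x8790654321 .nil) (.node 6 9 (.cons 0x8716904325 .nil) (.node 3 8 (.cons 0x4387096521 (.cons 0x7834521690 (.cons 0x4387901652 (.cons 0x2543871690 .nil)))) (.node 2 9 (.cons 0x5438712960 (.cons 0x9254016783 (.cons 0x4387925610 (.cons 0x3871692540 .nil)))) .done .done) .done) (.node 3 8 (.cons 0x5409832671 (.cons 0x6125438790 (.cons 0x8340971625 (.cons 0x8345261790 .nil)))) (.leaf 0x4387906125 0 .done) .done)) .done)) .done)) .done))) .done)))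
noncomputable def uc9_1_5 : T := (.node 0 4 (.cons 0x5409876123 .nil) tc9_1_27 (.node 1 7 (.cons 0x6543217890 .nil) tc9_1_26 (.node 0 4 (.cons 0x7890432165 .nil) tc9_1_25 .done)))
theorem sub_c9_1_5 : root 9 refs9_1 [] 0x700000008706000000006030000000030500607000504000000004030000000030100000600102000000002018007000010 0xfe7fff3fffb7ff17ffcfffe7fff5ffb9fff9fe7d 9 1 6 .nil uc9_1_5 = true := by decide +kernel
noncomputable def tc9_1_28 : T := (.node 2 4 (.cons 0x9871065243 .nil) (.node 1 4 (.cons 0x9871432560 .nil) (.node 4 6 (.cons 0x5643217890 .nil) (.node 4 9 (.cons 0x1789432560 .nil) (.node 1 6 (.cons 0x5234987160 .nil) (.node 0 4 .nil (.node 1 3 (.cons 0x1325498760 (.cons 0x9876045231 .nil)) (.leaf 0x2560498713 0 .done) (.node 1 9 (.cons 0x8765409123 .nil) (.node 1 8 (.cons 0x9045678123 .nil) (.node 1 3 (.cons 0x1325498760 .nil) (.node 1 5 (.cons 0x8760945132 .nil) .done .done) .done) .done) .done)) .done) (.node 4 8 .nil (.node 1 5 (.cons 0x8715623490 (.cons 0x9065178432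 (.cons 0x7156098432 (.cons 0x3265178490 .nil)))) .done (.node 1 8 .nil (.node 0 3 (.cons 0x9876541230 (.cons 0x2309456781 (.cons 0x4981765230 (.cons 0x5490326781 (.cons 0x7652498103 .nil))))) .done (.node 0 8 (.cons 0x5623490871 .nil) (.node 2 8 (.cons 0x5628710943 .nil) .done .done) .done)) .done)) .done)) .done) (.leaf 0x3417890652 0 (.node 2 7 .nil (.node 3 5 (.cons 0x8906714235 (.cons 0x8906723541 (.cons 0x8901724356 .nil))) (.node 1 9 (.cons 0x3254198760 (.cons 0x8723541906 .nil)) (.node 6 9 (.cons 0x5234178960 (.cons 0x5278960143 .nil)) (.node 0 8 (.cons 0x4356908712 (.cons 0x8069172534 (.cons 0x4356908721 (.cons 0x6908721453 .nil)))) .done .done) .done) .done) (.node 0 7 .nil (.node 1 9 (.cons 0x3254198760 (.cons 0x8917065234 (.cons 0x6078914523 .nil))) .done (.node 0 4 .nil (.node 1 9 (.cons 0x3254198760 .nil) (.node 3 8 (.cons 0x7654210983 (.cons 0x5406723891 (.cons 0x7604523891 (.cons 0x7604198325 (.cons 0x6725401983 .nil))))) .done (.node 3 7 (.cons 0x6543789012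 (.cons 0x8917324065 (.cons 0x8732654091 .nil))) .done .done)) .done) .done)) .done)) .done))) (.node 2 7 .nil (.node 3 9 (.cons 0x4398710652 (.cons 0x4398725601 (.cons 0x8726543901 .nil))) (.node 4 8 (.cons 0x3984567210 (.cons 0x8439017265 .nil)) (.node 0 7 (.cons 0x8456709321 (.cons 0x6701254893 .nil)) .done (.node 1 3 (.cons 0x5248931760 (.cons 0x8931067245 (.cons 0x8456721390 (.cons 0x1398452760 .nil)))) .done .done)) (.node 1 4 (.cons 0x9871432560 .nil) (.node 4 6 (.cons 0x3987645210 (.cons 0x8934601725 .nil)) (.node 4 8 (.cons 0x5487621093 .nil) (.node 0 3 (.cons 0x9876541230 (.cons 0x6725489301 (.cons 0x5643098721 .nil))) (.node 1 6 (.cons 0x9301678452 (.cons 0x3984527610 .nil)) .done .done) .done) .done) (.leaf 0x3417890652 0 (.node 3 8 (.cons 0x7654123890 (.cons 0x9834106527 (.cons 0x1456723890 .nil))) (.node 0 4 (.cons 0x9387621045 .nil) (.node 1 9 (.cons 0x9123876540 (.cons 0x7238914560 .nil)) .done .done) .done) .done))) .done)) .done) .done)) (.node 0 5 (.cons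 0x6509871234 .nil) (.node 0 7 .nil (.node 4 6 (.cons 0x5643217890 (.cons 0x8907123465 (.cons 0x8907125643 .nil))) (.node 1 8 (.cons 0x7189065234 (.cons 0x9817065234 (.cons 0x9817064325 .nil))) (.node 0 8 (.cons 0x9807123465 .nil) (.node 1 9 (.cons 0x7198064325 (.cons 0x5467089123 (.cons 0x8917064325 .nil))) .done (.node 1 9 (.cons 0x9123465087 (.cons 0x7089123465 (.cons 0x8917064325 .nil))) .done .done)) .done) .done) (.node 7 9 (.cons 0x8790126543 .nil) (.node 0 4 .nil (.node 6 8 (.cons 0x9056871234 (.cons 0x1798652340 (.cons 0x7125689043 .nil))) (.leaf 0x5234017986 0 .done) (.node 0 3 (.cons 0x4567890321 .nil) (.node 2 7 .nil (.node 4 6 (.cons 0x5643217890 (.cons 0x8972564301 (.cons 0x5643098721 .nil))) .done (.node 5 7 (.cons 0x8904321756 .nil) (.node 3 7 (.cons 0x8904567321 .nil) (.node 4 7 (.cons 0x8906523471 .nil) .done .done) .done) .done)) .done) .done)) (.node 0 4 .nil (.node 3 8 (.cons 0x1265438790 (.cons 0x6521798340 (.cons 0x4098325671 .nil))) (.node 1 5 (.cons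 0x6215438790 (.cons 0x9871560432 (.cons 0x6215409783 .nil))) .done (.leaf 0x4389712560 0 .done)) (.node 0 3 (.cons 0x4567890321 .nil) (.node 2 7 .nil (.node 4 6 (.cons 0x5643217890 (.cons 0x9872103465 (.cons 0x5643098721 .nil))) .done (.node 5 7 (.cons 0x8904321756 .nil) (.node 3 7 (.cons 0x8904567321 .nil) (.node 4 7 (.cons 0x8906523471 .nil) .done .done) .done) .done)) .done) .done)) .done)) .done)) (.node 1 5 .nil (.node 2 7 (.cons 0x6098723451 .nil) (.node 4 8 (.cons 0x4890671523 (.cons 0x6527109843 (.cons 0x3489065271 .nil))) (.node 5 9 (.cons 0x1784326590 (.cons 0x3487126590 .nil)) .done (.node 0 7 (.cons 0x9843251706 .nil) (.node 0 3 (.cons 0x4567890321 (.cons 0x9845672103 (.cons 0x6789032154 .nil))) (.node 3 9 (.cons 0x7652103984 (.cons 0x3984567210 (.cons 0x4893251760 (.cons 0x8726543901 .nil)))) .done .done) .done) .done)) (.node 5 9 (.cons 0x8715906234 .nil) (.node 2 4 (.cons 0x8710956243 .nil) (.node 3 6 (.cons 0x5421098763 (.cons 0x9871506324 (.cons 0x6342789510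 .nil))) (.node 4 8 (.cons 0x1784326590 (.cons 0x9842360517 (.cons 0x5176324890 (.cons 0x9842715063 .nil)))) .done .done) .done) (.node 2 4 (.cons 0x8715906243 .nil) (.node 0 3 (.cons 0x4567890321 (.cons 0x8712430956 (.cons 0x8956034271 (.cons 0x6789032154 .nil)))) (.node 3 8 (.cons 0x4387126590 (.cons 0x9834256017 (.cons 0x5906243871 (.cons 0x1783426590 .nil)))) .done .done) .done) .done)) .done)) (.node 0 2 (.cons 0x9871560234 .nil) (.node 0 8 .nil (.node 4 9 (.cons 0x2349871560 (.cons 0x7156089432 (.cons 0x4980671523 (.cons 0x9432651780 (.cons 0x5621780943 .nil))))) .done (.node 0 7 .nil (.node 6 9 (.cons 0x7896023451 (.cons 0x7089651234 (.cons 0x4321569870 (.cons 0x6987021543 .nil)))) .done (.node 0 3 (.cons 0x4567890321 .nil) (.node 0 4 (.cons 0x9871560432 .nil) .done .done) .done)) .done)) (.node 0 8 .nil (.node 4 9 (.cons 0x2349871560 (.cons 0x7156089432 (.cons 0x4980671523 (.cons 0x9432651780 (.cons 0x5621780943 .nil))))) .done (.node 1 8 (.cons 0x7189065234 .nil)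 (.node 0 7 .nil (.node 4 9 (.cons 0x2349871560 (.cons 0x6708945123 (.cons 0x9451870623 (.cons 0x3265490781 (.cons 0x6512078943 .nil))))) .done (.node 0 3 (.cons 0x4567890321 .nil) (.node 0 4 (.cons 0x9871560432 .nil) .done .done) .done)) .done) .done)) .done)) (.node 1 4 (.cons 0x3214567890 .nil) (.node 2 4 .nil (.node 3 8 (.cons 0x9012654387 (.cons 0x9834256017 (.cons 0x9067832451 (.cons 0x4256710983 .nil)))) (.node 7 9 (.cons 0x8971432560 (.cons 0x5241067983 (.cons 0x3897652410 (.cons 0x6512438790 .nil)))) .done .done) (.node 0 2 (.cons 0x9871432065 .nil) (.node 0 8 (.cons 0x9806523417 .nil) (.node 5 9 (.cons 0x2341789560 .nil) (.leaf 0x2598067143 0 (.node 0 7 (.cons 0x6598702143 .nil) (.node 0 3 (.cons 0x9876541230 .nil) (.node 0 4 (.cons 0x8712659043 .nil) .done .done) .done) .done)) .done) .done) .done)) (.node 0 7 (.cons 0x8907654123 .nil) (.node 0 4 .nil (.node 6 8 (.cons 0x9078654321 (.cons 0x9043215687 (.cons 0x7125689043 .nil))) (.node 1 9 (.cons 0x9123456870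 (.cons 0x7198604325 .nil)) (.leaf 0x5432190786 0 .done) .done) (.node 1 6 (.cons 0x5409876123 .nil) (.node 4 6 (.cons 0x5643217890 .nil) (.node 4 9 (.cons 0x8715609432 .nil) (.node 0 2 (.cons 0x5617894320 .nil) (.node 0 8 (.cons 0x7165234980 .nil) .done .done) .done) .done) .done) .done)) (.node 4 6 (.cons 0x5643217890 .nil) (.node 1 6 (.cons 0x9870546123 .nil) .done (.node 0 8 .nil (.node 4 9 (.cons 0x8715609432 (.cons 0x6780945123 (.cons 0x5623490871 .nil))) .done (.node 0 2 .nil (.node 1 3 (.cons 0x8907645213 (.cons 0x5467890213 .nil)) (.leaf 0x8902134567 0 .done) .done) .done)) .done)) .done)) (.node 2 4 .nil (.node 3 8 (.cons 0x7609832541 (.cons 0x9834256017 (.cons 0x9067832451 (.cons 0x9067832415 (.cons 0x4256710983 .nil))))) .done (.node 2 7 .nil (.node 4 8 (.cons 0x9065178432 (.cons 0x6527109843 (.cons 0x3489065271 .nil))) .done (.node 0 2 .nil (.node 3 5 (.cons 0x9871065342 (.cons 0x9876023541 (.cons 0x6789023541 .nil))) .done (.node 2 8 (.cons 0x9065178234 .nil)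 (.node 2 9 (.cons 0x5601789243 .nil) .done .done) .done)) .done)) .done)) .done))) .done))) .done)) (.node 0 5 (.cons 0x6509871234 .nil) (.node 0 7 .nil (.node 4 6 (.cons 0x5643217890 (.cons 0x8907123465 .nil)) (.node 3 9 (.cons 0x6452107893 (.cons 0x5643987012 .nil)) (.leaf 0x1256439870 0 (.node 2 8 (.cons 0x4567012893 (.cons 0x5467012893 (.cons 0x7012893465 .nil))) (.leaf 0x9345670128 0 .done) (.node 0 4 (.cons 0x8932564071 .nil) (.node 0 2 (.cons 0x5643987102 .nil) (.leaf 0x9346520178 0 (.node 5 9 (.cons 0x8710462593 (.cons 0x8956432170 (.cons 0x3465987021 .nil))) .done .done)) .done) .done))) (.node 0 3 (.cons 0x4567890321 .nil) (.leaf 0x1789034652 0 (.node 1 5 (.cons 0x3098764512 .nil) (.node 2 9 (.cons 0x4329871560 (.cons 0x8921546703 (.cons 0x6078923451 (.cons 0x3465129870 .nil)))) .done (.node 4 8 (.cons 0x7156098432 (.cons 0x9845123076 (.cons 0x6709845123 (.cons 0x6517098432 .nil)))) .done .done)) (.node 1 5 (.cons 0x7890346512 (.cons 0x9870346512 .nil)) (.node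 2 8 (.cons 0x7156098234 (.cons 0x9821564307 (.cons 0x7098215643 .nil))) (.node 3 5 (.cons 0x7153460982 (.cons 0x9821530764 (.cons 0x6435170982 .nil))) .done .done) .done) .done))) .done)) (.node 0 4 .nil (.node 1 5 (.cons 0x9871560432 .nil) (.node 1 6 (.cons 0x9870615432 .nil) (.node 3 8 (.cons 0x9012654387 (.cons 0x9832167045 (.cons 0x7612389045 (.cons 0x4516709832 .nil)))) (.node 0 3 (.cons 0x4567890321 .nil) (.node 6 8 (.cons 0x9056871234 (.cons 0x9867032154 (.cons 0x9078621543 .nil))) .done .done) .done) .done) (.node 2 7 (.cons 0x8906517234 .nil) (.node 1 9 (.cons 0x1987234560 (.cons 0x8915406723 .nil)) (.node 3 7 (.cons 0x6543789012 (.cons 0x8732190456 (.cons 0x8732654091 .nil))) .done .done) .done) .done)) (.node 0 3 (.cons 0x4567890321 .nil) (.node 0 2 .nil (.node 2 7 .nil (.node 1 5 (.cons 0x9871560234 (.cons 0x8906517234 .nil)) .done (.node 2 4 .nil (.node 5 9 (.cons 0x8956043271 (.cons 0x8956017243 (.cons 0x6598724301 (.cons 0x3420659871 .nil)))) .done (.node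 1 4 (.cons 0x3214567890 (.cons 0x9871432065 .nil)) (.node 0 8 (.cons 0x9087654123 .nil) (.node 4 9 (.cons 0x8714906523 .nil) (.node 5 8 (.cons 0x1785623490 (.cons 0x3204985671 (.cons 0x9023417856 (.cons 0x3490265871 .nil)))) .done (.node 3 5 (.cons 0x8712653490 (.cons 0x6534987120 (.cons 0x8943560271 .nil))) (.leaf 0x7126534908 0 .done) .done)) .done) .done) .done)) .done)) .done) .done) .done)) .done)) (.node 0 4 .nil (.node 5 9 (.cons 0x8712659043 .nil) (.node 4 8 (.cons 0x9840567123 (.cons 0x5906234871 (.cons 0x1784326590 (.cons 0x3487126590 .nil)))) .done (.node 1 5 (.cons 0x9871560432 .nil) (.node 7 9 (.cons 0x8790126543 (.cons 0x8790623451 .nil)) (.node 3 8 (.cons 0x1265438790 (.cons 0x6504389712 (.cons 0x6215438790 .nil))) (.node 2 7 (.cons 0x4387265901 (.cons 0x9562783401 (.cons 0x6098723451 .nil))) .done (.node 0 2 (.cons 0x6209783451 (.cons 0x4387902651 .nil)) .done .done)) .done) (.node 2 8 (.cons 0x9065178234 (.cons 0x9562871043 .nil)) (.node 3 5 (.cons 0x6287109534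 (.cons 0x9534017826 .nil)) .done (.node 7 9 (.cons 0x4328790651 (.cons 0x6512879043 .nil)) (.node 1 3 (.cons 0x7826590134 (.cons 0x9871325604 (.cons 0x6782315904 .nil))) (.node 1 6 (.cons 0x8790615432 (.cons 0x6159782340 .nil)) .done .done) .done) .done)) .done)) .done)) (.node 5 9 (.cons 0x8712340956 .nil) (.node 1 6 (.cons 0x8716590432 .nil) (.node 0 7 .nil (.node 1 4 (.cons 0x8714326590 (.cons 0x8907654123 (.cons 0x9870614523 .nil))) .done (.node 0 3 (.cons 0x4567890321 .nil) (.node 0 2 .nil (.node 1 3 (.cons 0x9870613254 (.cons 0x4598761320 .nil)) (.node 1 5 (.cons 0x9870615432 .nil) .done (.leaf 0x2316789540 0 .done)) .done) .done) .done)) (.node 0 7 .nil (.node 4 8 (.cons 0x1784326590 (.cons 0x2348956170 (.cons 0x5489076123 (.cons 0x5617098432 .nil)))) (.node 2 8 (.cons 0x6590432871 (.cons 0x4328956170 (.cons 0x5907162843 .nil))) (.node 6 8 (.cons 0x2340956871 (.cons 0x9865071234 .nil)) .done .done) .done) (.node 0 3 (.cons 0x4567890321 .nil) (.node 0 2 .nil (.node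 1 4 (.cons 0x8714326590 (.cons 0x6598714320 .nil)) (.node 3 6 (.cons 0x5412367890 (.cons 0x1459876320 .nil)) .done .done) .done) .done) .done)) .done)) (.node 7 9 (.cons 0x8790126543 .nil) (.node 0 7 .nil (.node 6 8 (.cons 0x3409568712 (.cons 0x6897054321 .nil)) (.node 1 5 (.cons 0x8790623451 (.cons 0x6897051234 (.cons 0x9078651234 .nil))) .done (.node 1 3 (.cons 0x5431268790 (.cons 0x6897054312 (.cons 0x9078654312 (.cons 0x7098654312 (.cons 0x9078621345 .nil))))) .done .done)) .done) (.node 0 3 (.cons 0x4567890321 .nil) (.node 0 7 .nil (.node 1 8 (.cons 0x9045678123 (.cons 0x9543078126 (.cons 0x6218709543 .nil))) (.node 6 9 (.cons 0x8712340965 .nil) (.leaf 0x5690781234 0 (.node 1 5 (.cons 0x6789032154 (.cons 0x4321569870 (.cons 0x8709651234 .nil))) .done .done)) .done) .done) (.node 0 2 .nil (.node 1 4 (.cons 0x3214567890 (.cons 0x8795620341 .nil)) (.node 5 8 (.cons 0x8562341790 (.cons 0x6589714320 (.cons 0x4176589023 .nil))) .done (.node 1 6 (.cons 0x7890614523 (.cons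 0x8976145023 .nil)) (.node 3 6 (.cons 0x5412367890 (.cons 0x3678954120 .nil)) .done .done) .done)) (.node 0 7 .nil (.node 1 4 (.cons 0x3214567890 (.cons 0x6598703412 (.cons 0x8907654123 .nil))) (.node 3 6 (.cons 0x5412367890 (.cons 0x6345987021 (.cons 0x8907632145 .nil))) .done .done) .done) .done)) .done)) .done)) .done)) (.node 1 5 (.cons 0x6789045123 .nil) (.node 1 6 (.cons 0x5409876123 .nil) (.node 0 2 (.cons 0x9871560234 .nil) (.node 0 3 (.cons 0x4567890321 .nil) (.node 0 7 .nil (.node 1 3 (.cons 0x9876045132 .nil) (.node 4 6 (.cons 0x5643217890 (.cons 0x9870645231 (.cons 0x9870215643 .nil))) .done .done) .done) .done) .done) .done) (.node 1 4 (.cons 0x3214567890 .nil) (.node 1 6 (.cons 0x5409876123 .nil) (.node 4 6 (.cons 0x5643217890 .nil) (.node 4 8 (.cons 0x9065178432 .nil) (.node 0 7 (.cons 0x5617098432 .nil) (.node 4 7 (.cons 0x3256174890 .nil) .done .done) .done) .done) .done) (.node 1 6 (.cons 0x5409876123 .nil) (.node 4 6 (.cons 0x5643217890 .nil) (.node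 4 9 (.cons 0x8715609432 .nil) (.node 0 2 (.cons 0x5617894320 .nil) (.node 0 3 (.cons 0x4987165230 .nil) (.node 0 7 (.cons 0x8907654123 .nil) .done .done) .done) .done) .done) .done) .done)) .done)) .done))) .done)) .done)))
noncomputable def tc9_1_29 : T := (.node 1 3 .nil (.node 2 5 (.cons 0x8906713254 (.cons 0x6098713254 .nil)) (.leaf 0x7890625431 0 .done) (.node 1 9 (.cons 0x8719062345 .nil) (.node 1 6 .nil (.node 2 7 (.cons 0x4327891560 .nil) (.node 3 9 (.cons 0x6543987210 (.cons 0x2789345610 .nil)) (.node 0 4 (.cons 0x6789321540 (.cons 0x5409876123 .nil)) (.node 1 8 (.cons 0x7239816045 .nil) .done .done) .done) (.leaf 0x8906154327 0 .done)) .done) (.node 1 8 .nil (.node 0 7 (.cons 0x9078123456 .nil) (.leaf 0x2189076543 0 (.node 2 9 (.cons 0x4329870651 (.cons 0x7065189234 (.cons 0x5418760923 (.cons 0x7814329065 .nil)))) .done .done)) (.node 1 6 .nil (.node 3 5 (.cons 0x8719062354 .nil) (.node 0 8 (.cons 0x9087654123 (.cons 0x9087612354 .nil)) (.node 2 7 (.cons 0x8906172345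 .nil) (.node 3 9 (.cons 0x8765412390 (.cons 0x6015439872 (.cons 0x9327806514 (.cons 0x8726543901 .nil)))) .done (.node 4 9 (.cons 0x4918723560 (.cons 0x5498061723 (.cons 0x8723549160 (.cons 0x7231654980 .nil)))) (.leaf 0x7806194532 0 .done) (.leaf 0x8906154327 0 .done))) .done) (.node 0 8 (.cons 0x9087654123 (.cons 0x9087614532 (.cons 0x9087162354 .nil))) .done .done)) .done) .done)) .done)) (.node 1 8 .nil (.node 0 7 (.cons 0x9078123456 .nil) (.leaf 0x2189076543 0 (.node 2 9 (.cons 0x4329870651 (.cons 0x7065189234 (.cons 0x5418760923 (.cons 0x7814329065 (.cons 0x7814560923 .nil))))) .done .done)) (.node 1 9 (.cons 0x8719062345 .nil) (.node 1 6 .nil (.node 2 7 (.cons 0x9065418723 .nil) (.node 3 9 (.cons 0x6543987210 (.cons 0x2789345610 .nil)) (.node 0 4 (.cons 0x6789321540 (.cons 0x7239816045 (.cons 0x5409876123 .nil))) .done .done) (.leaf 0x8906154327 0 .done)) .done) .done) .done)) .done))) (.node 1 9 (.cons 0x8719062345 .nil) (.node 2 7 (.cons 0x8723419065 .nil) (.node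 2 5 .nil (.node 3 9 (.cons 0x6543987210 (.cons 0x8934527106 (.cons 0x8760932541 (.cons 0x8710934526 .nil)))) .done (.node 1 3 (.cons 0x6098713254 .nil) (.node 1 6 .nil (.node 4 7 (.cons 0x4789132560 .nil) (.node 0 3 (.cons 0x4567890321 (.cons 0x8903254716 (.cons 0x4789032561 .nil))) (.node 0 5 (.cons 0x8743265091 .nil) .done (.leaf 0x1278903456 0 .done)) (.leaf 0x8906132547 0 .done)) .done) .done) .done)) (.node 1 3 .nil (.node 2 5 (.cons 0x9872560134 (.cons 0x6098713254 .nil)) (.leaf 0x7890625431 0 .done) (.node 1 6 .nil (.node 3 5 (.cons 0x4356109872 .nil) (.node 1 8 (.cons 0x9065327814 .nil) .done (.node 0 4 (.cons 0x8765321904 (.cons 0x5409876123 .nil)) (.node 3 7 (.cons 0x8904567321 .nil) (.node 2 8 (.cons 0x4517609823 (.cons 0x9827340165 (.cons 0x4516732890 (.cons 0x7328904561 .nil)))) .done .done) .done) .done)) .done) .done)) .done)) (.node 0 5 .nil (.node 3 8 (.cons 0x4517609832 (.cons 0x9178326054 (.cons 0x9054123876 (.cons 0x9056783214 (.cons 0x6238719054 .nil)))))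 .done (.node 0 7 .nil (.node 3 8 (.cons 0x4517609832 (.cons 0x9145607832 (.cons 0x6709832154 (.cons 0x4562387091 .nil)))) (.node 1 3 (.cons 0x4560789132 .nil) (.node 2 8 (.cons 0x4517609823 (.cons 0x9145607823 (.cons 0x7609823154 (.cons 0x9065413287 .nil)))) .done .done) .done) (.node 3 5 (.cons 0x8719062354 .nil) (.node 2 5 .nil (.node 3 8 (.cons 0x4517609832 (.cons 0x9067832541 (.cons 0x7832560914 (.cons 0x6523870914 .nil)))) .done (.node 3 6 (.cons 0x4523609871 .nil) (.node 0 3 (.cons 0x4567890321 .nil) (.node 1 3 (.cons 0x6098713254 .nil) (.node 3 8 (.cons 0x4517609832 .nil) (.node 3 9 (.cons 0x8765412390 .nil) .done .done) .done) .done) (.leaf 0x987145236 0 .done)) .done)) (.node 5 9 .nil (.node 2 8 (.cons 0x4517609823 (.cons 0x9560782341 (.cons 0x3287609541 (.cons 0x6287109534 (.cons 0x6095417823 .nil))))) .done (.node 7 9 (.cons 0x8790126543 .nil) (.node 2 7 .nil (.node 1 8 (.cons 0x9815607234 (.cons 0x9018726534 .nil)) (.node 0 2 (.cons 0x8145679023 (.cons 0x9023541876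 (.cons 0x6541879023 .nil))) .done .done) (.node 5 7 .nil (.node 1 8 (.cons 0x9815607234 (.cons 0x9065781432 .nil)) (.node 0 4 (.cons 0x6518970432 (.cons 0x9812340756 (.cons 0x9187540623 .nil))) .done .done) .done) .done)) .done) .done)) .done)) .done)) (.node 2 5 .nil (.node 3 8 (.cons 0x4517609832 (.cons 0x9067832541 (.cons 0x7832560914 (.cons 0x9017834526 .nil)))) (.node 0 4 (.cons 0x9178326045 (.cons 0x9832540671 .nil)) (.node 1 3 (.cons 0x9876045231 .nil) (.leaf 0x7890625431 0 (.leaf 0x678913254 0 .done)) .done) .done) (.node 0 8 (.cons 0x9087654123 .nil) (.node 0 4 .nil (.node 3 7 (.cons 0x6543789012 (.cons 0x9804512376 (.cons 0x8732190456 (.cons 0x4065237891 (.cons 0x8732654091 .nil))))) .done (.node 2 4 (.cons 0x8906715423 .nil) (.node 2 7 .nil (.node 1 3 (.cons 0x9806723154 (.cons 0x9872560134 .nil)) (.node 5 7 (.cons 0x8754231906 (.cons 0x6231908754 (.cons 0x8754260913 .nil))) .done .done) (.node 0 2 .nil (.node 1 3 (.cons 0x9872560134 (.cons 0x7891320654 .nil))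 (.node 3 8 (.cons 0x7654098321 (.cons 0x9832067154 (.cons 0x9023876541 .nil))) .done .done) .done) .done)) .done) .done)) (.node 0 7 .nil (.node 3 6 (.cons 0x9871063452 (.cons 0x4563219870 (.cons 0x8917063254 (.cons 0x9870125634 .nil)))) .done (.node 6 8 (.cons 0x9078654321 .nil) (.leaf 0x5432190786 0 (.node 5 8 (.cons 0x9062345871 .nil) (.node 1 8 (.cons 0x9078123456 .nil) (.node 3 8 (.cons 0x4517609832 .nil) (.node 4 8 (.cons 0x6548709123 .nil) .done .done) .done) .done) .done)) .done)) .done)) .done)) .done))) .done)) (.node 1 9 (.cons 0x8719062345 .nil) (.node 0 5 .nil (.node 3 8 (.cons 0x9062387154 (.cons 0x4506719832 (.cons 0x9054123876 (.cons 0x9056783214 (.cons 0x8326719054 .nil))))) .done (.node 6 9 (.cons 0x8712345096 .nil) (.node 3 9 (.cons 0x8765412390 .nil) (.node 1 6 (.cons 0x8761239054 .nil) (.node 0 7 (.cons 0x4516078932 .nil) (.node 0 3 (.cons 0x4567890321 .nil) (.node 3 6 (.cons 0x4517890632 .nil) .done .done) .done) .done) (.node 7 9 (.cons 0x8790126543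 .nil) (.node 5 9 .nil (.node 3 8 (.cons 0x1265438790 (.cons 0x9543871062 (.cons 0x6783214590 (.cons 0x4123876590 .nil)))) .done .done) .done) .done)) (.node 5 9 .nil (.node 3 8 (.cons 0x5438712690 (.cons 0x9543871062 (.cons 0x6783214590 (.cons 0x4123876590 .nil)))) (.leaf 0x4387126905 0 .done) (.node 7 9 (.cons 0x8790126543 .nil) (.node 0 7 .nil (.node 1 8 (.cons 0x5609781432 (.cons 0x4326590781 .nil)) (.leaf 0x5907814326 0 .done) .done) .done) .done)) .done)) (.node 2 5 .nil (.node 3 8 (.cons 0x6712389054 (.cons 0x4523891760 (.cons 0x9067832541 (.cons 0x9017834526 .nil)))) (.node 0 4 (.cons 0x9041238765 .nil) (.leaf 0x9176045238 0 .done) .done) (.node 0 4 (.cons 0x8917604523 .nil) (.node 2 4 (.cons 0x6098715423 .nil) (.node 2 7 .nil (.node 1 3 (.cons 0x9876045231 (.cons 0x8913276045 (.cons 0x9872560134 .nil))) .done (.node 0 7 .nil (.node 3 8 (.cons 0x4523891760 (.cons 0x9832451706 (.cons 0x6704523891 .nil))) (.leaf 0x2190783456 0 (.leaf 0x9176045238 0 .done)) (.node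 0 3 (.cons 0x4567890321 .nil) (.node 1 3 (.cons 0x9876045231 .nil) (.node 1 6 (.cons 0x5409876123 .nil) (.node 1 8 (.cons 0x9078123456 .nil) .done .done) .done) .done) .done)) .done)) .done) .done) .done)) .done))) (.node 1 8 .nil (.node 3 9 (.cons 0x8765412390 (.cons 0x5418760932 (.cons 0x7810934562 .nil))) (.node 0 7 (.cons 0x8123907654 .nil) (.leaf 0x2189076543 0 (.node 4 9 (.cons 0x8715490623 (.cons 0x7815490623 (.cons 0x5623490781 (.cons 0x5621870943 .nil)))) .done .done)) .done) (.node 1 3 .nil (.node 2 5 (.cons 0x8906713254 .nil) (.leaf 0x7890625431 0 (.node 2 7 (.cons 0x8723419065 (.cons 0x9872560134 .nil)) .done .done)) (.node 1 6 .nil (.node 0 4 (.cons 0x5409876123 .nil) (.node 3 8 (.cons 0x9062387154 (.cons 0x9041238765 (.cons 0x7832651904 .nil))) (.leaf 0x2190456783 0 .done) (.node 2 4 (.cons 0x6098715423 (.cons 0x7890615423 .nil)) (.node 2 7 (.cons 0x5601987243 .nil) (.node 5 8 (.cons 0x9854231760 (.cons 0x7234098561 (.cons 0x7216589043 .nil))) .done .done)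 .done) .done)) .done) .done)) .done)) .done)) .done)))
noncomputable def tc9_1_30 : T := (.node 1 9 (.cons 0x8719062345 .nil) (.node 1 5 (.cons 0x6098715432 .nil) (.node 1 3 .nil (.node 2 5 (.cons 0x8906713254 (.cons 0x6098713254 .nil)) (.leaf 0x7890625431 0 (.node 2 9 (.cons 0x6017892543 (.cons 0x5413298760 (.cons 0x7892560134 (.cons 0x7892314560 .nil)))) .done .done)) (.node 1 6 .nil (.node 1 8 .nil (.node 0 4 (.cons 0x5409876123 (.cons 0x9045678123 (.cons 0x7654098123 .nil))) .done (.node 0 4 (.cons 0x5409876123 .nil) (.node 3 8 (.cons 0x9012654387 (.cons 0x5406719832 (.cons 0x9045123876 (.cons 0x8326719045 .nil)))) .done (.node 3 9 (.cons 0x8765409321 (.cons 0x8761239045 (.cons 0x7816540932 .nil))) .done (.node 3 8 (.cons 0x7654098321 (.cons 0x7612389045 .nil)) (.node 5 9 (.cons 0x6712389540 (.cons 0x7160459832 (.cons 0x8716234590 .nil))) (.leaf 0x4598321760 0 .done) (.node 5 7 (.cons 0x9045718326 .nil) (.leaf 0x1623890457 0 (.leaf 0x3216578904 0 (.node 0 5 (.cons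 0x8326719054 .nil) (.node 3 9 (.cons 0x6054178932 (.cons 0x7540938162 .nil)) .done .done) .done))) .done)) .done))) .done)) .done) .done)) (.node 2 4 (.cons 0x6098715423 .nil) (.node 2 5 .nil (.node 2 7 (.cons 0x9872560143 .nil) (.node 3 8 (.cons 0x5423890671 (.cons 0x4523891760 (.cons 0x4527601983 (.cons 0x7256019834 (.cons 0x9017834526 .nil))))) .done .done) (.node 4 6 .nil (.node 3 9 (.cons 0x6017893452 (.cons 0x3987645210 (.cons 0x7893465210 (.cons 0x8715462390 .nil)))) .done (.node 6 9 .nil (.node 5 8 (.cons 0x3245890671 (.cons 0x1785432690 (.cons 0x3458712690 .nil))) .done (.node 0 4 (.cons 0x5234069871 .nil) (.leaf 0x7896043251 0 (.node 1 6 (.cons 0x5409876123 .nil) .done .done)) .done)) .done)) .done)) (.node 1 6 (.cons 0x7890615423 .nil) (.node 1 8 .nil (.node 0 4 (.cons 0x7890432165 (.cons 0x9045678123 (.cons 0x7654098123 .nil))) .done .done) .done) .done)) .done)) (.node 0 7 (.cons 0x5607891432 .nil) (.node 1 8 (.cons 0x9078123456 .nil) (.node 6 9 (.cons 0x8709654321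 .nil) (.leaf 0x5690781234 0 (.node 7 9 (.cons 0x8790126543 .nil) (.node 4 6 (.cons 0x8709123465 .nil) (.node 0 4 (.cons 0x3265409781 .nil) (.node 1 6 (.cons 0x5409876123 .nil) .done .done) .done) .done) .done)) .done) (.node 2 5 (.cons 0x7891432560 .nil) (.leaf 0x6523419870 0 (.node 1 8 (.cons 0x9814325607 .nil) (.node 0 8 (.cons 0x9806714523 .nil) (.node 1 5 (.cons 0x9870651432 .nil) (.node 1 3 (.cons 0x8906713254 .nil) (.node 1 6 .nil (.node 0 2 (.cons 0x7891432065 .nil) (.node 3 5 (.cons 0x9871453206 (.cons 0x9871602354 (.cons 0x9870235614 .nil))) .done .done) .done) .done) .done) .done) .done) (.node 6 9 (.cons 0x3254178960 .nil) (.node 2 9 (.cons 0x5607892341 .nil) (.node 0 2 (.cons 0x7891432065 .nil) (.node 1 6 .nil (.node 3 9 (.cons 0x8932067145 (.cons 0x4165239870 .nil)) .done .done) .done) .done) (.node 4 6 (.cons 0x3254609871 .nil) (.node 7 9 (.cons 0x8790126543 .nil) (.node 1 6 .nil (.node 0 2 (.cons 0x5698702143 (.cons 0x8970234165 .nil)) (.node 0 3 (.cons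 0x9876541230 (.cons 0x8796145203 (.cons 0x8970325614 .nil))) .done .done) .done) .done) .done) .done)) .done))) .done)) (.node 1 8 .nil (.node 0 7 (.cons 0x9078123456 .nil) (.leaf 0x2189076543 0 (.node 2 7 (.cons 0x3278914560 .nil) (.node 3 7 (.cons 0x2378914560 (.cons 0x4560918732 (.cons 0x4562378190 .nil))) .done .done) .done)) (.node 1 5 (.cons 0x6098715432 .nil) (.node 1 3 .nil (.node 2 5 (.cons 0x8906713254 (.cons 0x6098713254 .nil)) (.leaf 0x7890625431 0 (.node 2 7 (.cons 0x3278914560 (.cons 0x9872560134 .nil)) .done .done)) (.node 1 6 .nil (.node 2 7 (.cons 0x3278914560 .nil) (.node 0 8 (.cons 0x7231980654 .nil) (.node 5 7 (.cons 0x9806754132 (.cons 0x9087543261 (.cons 0x9806134572 .nil))) .done (.node 2 8 (.cons 0x9061543287 .nil) (.node 4 7 (.cons 0x8913274560 (.cons 0x3287456091 (.cons 0x3198274560 .nil))) (.leaf 0x9132874560 0 .done) .done) .done)) (.node 3 5 (.cons 0x4198723560 (.cons 0x4356109872 .nil)) (.node 0 2 (.cons 0x7891456023 (.cons 0x7891602354 (.cons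 0x9871602354 .nil))) (.node 2 4 (.cons 0x9872435601 .nil) (.node 2 9 (.cons 0x3542987601 .nil) .done .done) .done) .done) .done)) .done) .done)) (.node 1 6 .nil (.node 5 9 (.cons 0x8716234590 .nil) (.node 3 8 (.cons 0x4517609832 (.cons 0x4591783260 (.cons 0x4590126783 .nil))) (.leaf 0x7145906238 0 .done) (.node 1 3 (.cons 0x8713459062 .nil) (.node 3 5 (.cons 0x8719062354 .nil) (.node 3 8 (.cons 0x6217834590 (.cons 0x2617834590 .nil)) (.node 0 4 (.cons 0x7812659043 (.cons 0x7612389045 (.cons 0x9876123540 .nil))) (.node 7 9 (.cons 0x5419783260 (.cons 0x8790432165 (.cons 0x5618790432 .nil))) .done .done) .done) (.node 0 8 (.cons 0x6217809543 (.cons 0x7809162354 (.cons 0x9087162354 .nil))) .done .done)) .done) .done)) .done) .done)) .done)) .done))) (.node 1 5 (.cons 0x6098715432 .nil) tc9_1_29 (.node 0 7 (.cons 0x8907654123 .nil) (.node 1 9 (.cons 0x8719062345 .nil) (.node 0 4 .nil (.node 5 7 (.cons 0x6578912340 (.cons 0x8756234091 (.cons 0x8756219043 .nil))) (.node 2 7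 (.cons 0x8914327560 (.cons 0x8906572341 .nil)) .done .done) (.node 1 6 (.cons 0x5409876123 .nil) (.node 1 8 (.cons 0x9078123456 .nil) (.node 4 6 (.cons 0x8709123465 .nil) (.node 6 9 (.cons 0x8709654321 .nil) (.leaf 0x5690781234 0 .done) .done) .done) .done) .done)) (.node 1 8 (.cons 0x9078123456 .nil) (.node 1 5 (.cons 0x6098715432 .nil) (.node 0 4 .nil (.node 3 9 (.cons 0x4560781932 (.cons 0x5406718932 (.cons 0x7819326045 (.cons 0x8765123904 (.cons 0x7819326540 .nil))))) .done (.node 1 6 (.cons 0x5409876123 .nil) (.node 1 3 .nil (.node 2 4 (.cons 0x9187065423 (.cons 0x7891324560 .nil)) .done .done) .done) .done)) .done) (.node 6 8 (.cons 0x9078654321 .nil) (.leaf 0x5432190786 0 (.node 4 6 (.cons 0x9078123465 .nil) (.node 1 6 .nil (.node 0 4 (.cons 0x5409876123 .nil) (.node 3 7 (.cons 0x6543789012 (.cons 0x8904123765 (.cons 0x8732654091 .nil))) (.leaf 0x2378904561 0 .done) .done) .done) .done) .done)) .done)) .done)) (.node 2 7 .nil (.node 5 8 (.cons 0x9062345871 (.cons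 0x9856072341 (.cons 0x6098541723 (.cons 0x6589072341 (.cons 0x6589072143 .nil))))) .done (.node 2 5 (.cons 0x8906714523 .nil) (.node 1 9 (.cons 0x1987234560 .nil) (.node 2 4 (.cons 0x5601987243 .nil) (.node 0 4 (.cons 0x5604327891 .nil) (.node 0 5 .nil (.node 3 8 (.cons 0x7654123890 (.cons 0x9123876504 (.cons 0x9832760541 (.cons 0x7650983214 (.cons 0x4198327650 .nil))))) .done (.node 0 2 .nil (.node 5 8 (.cons 0x7234198560 (.cons 0x9854176023 (.cons 0x6714589023 (.cons 0x7206589143 .nil)))) .done .done) .done)) .done) .done) (.node 1 8 (.cons 0x9814327065 .nil) (.node 1 5 (.cons 0x6098715432 .nil) (.node 1 3 (.cons 0x8906713254 .nil) (.node 1 6 .nil (.node 2 4 (.cons 0x9872431065 .nil) (.node 5 9 (.cons 0x8956072341 (.cons 0x8956143270 (.cons 0x5987243160 .nil))) .done .done) .done) .done) .done) (.node 2 4 .nil (.node 3 5 (.cons 0x8906714532 (.cons 0x4235607891 (.cons 0x7819065324 (.cons 0x7653241890 .nil)))) .done (.node 2 8 (.cons 0x5417609823 .nil) (.node 0 2 .nil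 (.node 3 7 (.cons 0x7328906541 (.cons 0x8902376541 .nil)) (.leaf 0x982371456 0 .done) .done) .done) .done)) .done)) .done)) (.node 1 5 (.cons 0x6098715432 .nil) (.node 2 4 .nil (.node 3 9 (.cons 0x6543987210 (.cons 0x8932451760 (.cons 0x1542398760 (.cons 0x8932415670 .nil)))) (.leaf 0x4398706512 0 .done) (.node 2 8 (.cons 0x5417609823 .nil) (.node 0 2 (.cons 0x9871543206 .nil) (.node 2 9 (.cons 0x4329870651 .nil) .done .done) .done) .done)) (.node 2 4 .nil (.node 1 3 (.cons 0x6098713254 (.cons 0x9872431065 .nil)) (.node 1 9 (.cons 0x1987234560 (.cons 0x5601987243 (.cons 0x7891324560 .nil))) .done .done) (.node 2 8 (.cons 0x5417609823 .nil) (.node 2 9 (.cons 0x8715432906 .nil) (.node 0 2 .nil (.node 1 3 (.cons 0x6098713254 .nil) (.leaf 0x8902134567 0 (.node 4 9 (.cons 0x7823490651 (.cons 0x8765132094 (.cons 0x5602789431 .nil))) .done .done)) .done) .done) .done) .done)) .done)) .done)) .done)) .done)) .done)))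
noncomputable def tc9_1_31 : T := (.node 1 9 (.cons 0x8719065432 .nil) (.node 6 9 (.cons 0x8712345690 .nil) (.node 1 6 .nil (.node 2 9 (.cons 0x8716092345 .nil) (.node 6 8 (.cons 0x3456871290 .nil) .done (.node 6 8 (.cons 0x5417860923 .nil) (.node 1 3 (.cons 0x8713290654 .nil) (.node 3 8 (.cons 0x4560923871 (.cons 0x4561783290 .nil)) (.node 0 4 (.cons 0x7892104563 (.cons 0x7612389045 .nil)) (.node 3 7 (.cons 0x4563789210 (.cons 0x8732904561 .nil)) .done .done) .done) .done) .done) .done)) .done) (.node 6 8 .nil (.node 2 9 (.cons 0x5432906871 (.cons 0x5417860923 .nil)) (.node 0 5 (.cons 0x9876321450 (.cons 0x7689054123 (.cons 0x7892360541 .nil))) (.node 3 7 (.cons 0x6543789012 (.cons 0x8673219054 (.cons 0x5096873412 (.cons 0x8734562901 .nil)))) .done .done) (.node 3 9 (.cons 0x7862109345 .nil) (.node 2 8 (.cons 0x9345601782 (.cons 0x7190682345 (.cons 0x4560932871 .nil))) .done (.node 2 5 (.cons 0x8762541093 (.cons 0x4392568710 (.cons 0x8671452390 (.cons 0x6871452390 .nil))))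 .done .done)) .done)) (.node 4 9 (.cons 0x5687123490 .nil) (.node 5 9 (.cons 0x4321786590 .nil) (.node 1 6 .nil (.node 3 8 (.cons 0x2178345690 (.cons 0x4590617832 (.cons 0x7832614590 .nil))) .done .done) .done) .done) .done)) .done)) (.node 6 9 (.cons 0x8712345690 .nil) (.node 1 6 .nil (.node 1 3 .nil (.node 2 9 (.cons 0x8716092345 (.cons 0x8713290654 .nil)) .done (.node 3 5 (.cons 0x2354167890 .nil) (.node 1 8 (.cons 0x9062354187 .nil) (.node 4 8 (.cons 0x5609178432 (.cons 0x5326784190 (.cons 0x7843562190 .nil))) .done .done) (.node 2 9 (.cons 0x8760923541 (.cons 0x8716092345 .nil)) (.node 5 7 (.cons 0x1457892360 (.cons 0x3298754160 .nil)) (.node 0 4 (.cons 0x8756234091 (.cons 0x8756190432 .nil)) (.leaf 0x9875401632 0 .done) (.node 0 3 (.cons 0x4567890321 (.cons 0x4578921630 (.cons 0x4309875612 .nil))) .done .done)) .done) .done)) .done)) .done) (.node 7 9 (.cons 0x8790126543 .nil) (.node 0 7 .nil (.node 2 5 (.cons 0x8719065234 (.cons 0x4325607891 (.cons 0x8970125436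 (.cons 0x9870632541 .nil)))) .done (.node 3 7 (.cons 0x6543789012 .nil) (.node 1 3 .nil (.node 0 8 (.cons 0x3456908712 (.cons 0x7809621345 (.cons 0x5413780962 .nil))) .done (.node 1 6 .nil (.node 0 5 (.cons 0x9876321450 (.cons 0x8790543216 (.cons 0x8905416732 (.cons 0x6145098732 .nil)))) .done .done) .done)) .done) .done)) (.node 1 3 (.cons 0x8790134562 .nil) (.node 1 6 .nil (.node 3 5 (.cons 0x2354167890 .nil) (.node 2 8 (.cons 0x3456287901 (.cons 0x4356287910 (.cons 0x8267901354 (.cons 0x4356287901 (.cons 0x9782635410 .nil))))) .done (.node 0 5 (.cons 0x9876321450 (.cons 0x8790541623 .nil)) (.node 2 8 (.cons 0x3541287690 (.cons 0x3289761450 (.cons 0x9061782345 (.cons 0x4356109782 (.cons 0x7982361450 .nil))))) .done .done) .done)) .done) .done) .done)) .done)) (.node 0 7 (.cons 0x4563219870 .nil) (.node 1 5 (.cons 0x4519870632 .nil) (.node 1 8 .nil (.node 0 4 (.cons 0x7891236540 (.cons 0x9045678123 (.cons 0x7654098123 .nil))) .done (.node 1 6 (.cons 0x9870615432 .nil)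 (.node 1 3 .nil (.node 5 8 (.cons 0x4589076123 (.cons 0x9062314587 (.cons 0x4589076132 (.cons 0x9078543126 .nil)))) .done .done) .done) .done)) (.node 1 3 .nil (.node 5 8 (.cons 0x7854190623 (.cons 0x9132607854 (.cons 0x9062314587 (.cons 0x6231907854 (.cons 0x9078543126 .nil))))) .done (.node 1 6 .nil (.node 5 9 (.cons 0x6345987012 (.cons 0x8709543261 (.cons 0x2163459870 .nil))) .done .done) .done)) .done)) (.node 3 7 (.cons 0x6543789012 .nil) (.node 2 7 (.cons 0x5419872360 .nil) (.node 2 4 (.cons 0x8719065423 .nil) (.node 2 5 (.cons 0x7891452360 .nil) (.node 4 6 (.cons 0x9873645210 .nil) (.node 6 8 (.cons 0x9068714523 .nil) (.node 0 2 (.cons 0x5463789120 .nil) (.node 2 8 (.cons 0x9065432871 .nil) .done .done) .done) .done) .done) .done) .done) (.node 2 4 (.cons 0x2456378910 .nil) (.node 2 7 (.cons 0x5419872360 .nil) (.node 7 9 (.cons 0x8790126543 .nil) (.node 4 7 .nil (.node 1 6 (.cons 0x5432789061 (.cons 0x8907432165 (.cons 0x5612347890 .nil))) .done .done) .done) .done)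 (.node 0 4 (.cons 0x7891236540 .nil) (.node 4 6 .nil (.node 3 8 (.cons 0x2456738901 (.cons 0x5460917832 (.cons 0x7832190465 .nil))) .done (.node 6 8 (.cons 0x8654237190 .nil) (.node 3 8 (.cons 0x2456738901 .nil) (.node 0 8 (.cons 0x4562378091 .nil) (.node 0 3 (.cons 0x4567890321 .nil) (.node 0 5 (.cons 0x9876321450 .nil) .done .done) .done) .done) .done) .done)) .done) .done)) .done)) .done)) .done))) (.node 0 7 (.cons 0x8907632145 .nil) (.node 6 9 (.cons 0x8712345690 .nil) (.node 1 6 .nil (.node 5 8 (.cons 0x4321785690 (.cons 0x9078543261 (.cons 0x7098543612 .nil))) (.node 0 4 (.cons 0x9658712340 (.cons 0x9612340785 (.cons 0x9854076123 .nil))) .done (.node 3 9 (.cons 0x4587160932 (.cons 0x7854162390 .nil)) (.node 0 4 (.cons 0x4096587123 (.cons 0x8765409321 .nil)) (.node 2 4 (.cons 0x3987654210 .nil) (.leaf 0x5890716324 0 .done) .done) .done) .done)) (.node 6 8 .nil (.node 2 9 (.cons 0x5432987061 (.cons 0x5432906871 (.cons 0x5417860923 .nil))) (.node 2 5 (.cons 0x9863452107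 (.cons 0x9068714523 .nil)) (.node 3 7 (.cons 0x6543789012 (.cons 0x4378965210 (.cons 0x6521098734 (.cons 0x8654371092 .nil)))) .done .done) .done) (.node 4 6 .nil (.node 1 3 (.cons 0x9078621345 .nil) (.node 2 5 (.cons 0x7098634521 (.cons 0x5210789643 (.cons 0x7098643125 (.cons 0x7890641325 .nil)))) .done .done) .done) .done)) .done)) (.node 0 8 (.cons 0x3456908712 .nil) (.node 4 6 (.cons 0x9087123465 .nil) (.node 6 8 .nil (.node 1 6 (.cons 0x9078612345 .nil) (.node 2 5 (.cons 0x7890614325 (.cons 0x9863452107 (.cons 0x8690712543 (.cons 0x9068714523 .nil)))) .done .done) .done) .done) (.node 1 3 (.cons 0x8709621345 .nil) (.node 4 6 .nil (.node 1 5 (.cons 0x8709621543 (.cons 0x8907645123 (.cons 0x9870645132 .nil))) .done (.node 2 4 (.cons 0x7089631245 .nil) (.node 4 9 (.cons 0x9456087132 .nil) (.node 4 7 (.cons 0x5470896312 .nil) (.node 4 8 (.cons 0x5489076321 .nil) .done .done) .done) .done) .done)) (.node 0 3 (.cons 0x4567890321 .nil) (.node 1 8 (.cons 0x9032187654 .nil)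 (.node 0 4 (.cons 0x9812367045 .nil) (.node 0 5 (.cons 0x7054369812 .nil) .done .done) .done) .done) .done)) .done)) .done)) (.node 0 3 (.cons 0x4567890321 .nil) (.node 6 9 (.cons 0x8712345690 .nil) (.node 0 4 (.cons 0x8712340965 .nil) (.node 0 5 (.cons 0x6789054123 .nil) (.node 0 8 (.cons 0x5690871234 .nil) (.node 0 2 .nil (.node 3 5 (.cons 0x9876023541 (.cons 0x6789023541 .nil)) (.node 1 8 (.cons 0x7654098123 (.cons 0x9812356704 (.cons 0x7653218904 (.cons 0x9062354187 .nil)))) .done .done) .done) .done) .done) .done) (.node 3 5 (.cons 0x8769035412 .nil) (.node 0 4 .nil (.node 5 8 (.cons 0x9621435870 (.cons 0x9621407853 (.cons 0x9853670412 .nil))) (.leaf 0x7690321458 0 .done) (.node 0 5 (.cons 0x6987053412 .nil) (.node 0 2 (.cons 0x4356987021 .nil) (.node 0 8 (.cons 0x9678035412 .nil) .done .done) .done) .done)) (.node 0 4 .nil (.node 1 6 (.cons 0x2354167890 (.cons 0x9870432165 (.cons 0x7890432165 .nil))) .done (.node 0 5 (.cons 0x6789054123 .nil) (.node 0 2 (.cons 0x6789023541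 .nil) (.node 0 8 (.cons 0x9087623541 .nil) .done .done) .done) .done)) .done)) .done)) (.node 0 8 (.cons 0x9087123456 .nil) (.node 3 7 (.cons 0x6543789012 .nil) (.node 2 7 (.cons 0x9801273654 .nil) (.node 1 3 .nil (.node 4 9 (.cons 0x7365498012 (.cons 0x7809456231 (.cons 0x9456213780 .nil))) (.leaf 0x5490871326 0 .done) (.node 3 8 (.cons 0x9012654387 .nil) (.node 3 9 (.cons 0x5410938762 .nil) .done .done) .done)) .done) (.node 3 9 .nil (.node 5 8 (.cons 0x7632145890 (.cons 0x9301267854 (.cons 0x1458762390 (.cons 0x4390785621 .nil)))) .done (.node 6 9 (.cons 0x8712345690 .nil) (.node 1 3 (.cons 0x5413780962 .nil) (.node 3 8 (.cons 0x2178345690 .nil) .done .done) .done) .done)) .done)) .done) .done)) .done)) (.node 2 4 (.cons 0x7890124365 .nil) (.node 2 5 (.cons 0x7890125634 .nil) (.node 4 7 (.cons 0x5634789012 .nil) (.node 4 8 .nil (.node 5 9 (.cons 0x7895634210 (.cons 0x4871236590 (.cons 0x8417632590 (.cons 0x2178436590 .nil)))) .done (.node 4 9 .nil (.node 0 5 (.cons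 0x8905236741 (.cons 0x8763214905 (.cons 0x3650948712 .nil))) .done (.node 4 6 .nil (.node 3 7 (.cons 0x8906732541 (.cons 0x8901254673 .nil)) (.node 0 8 (.cons 0x1237654980 (.cons 0x9801254673 (.cons 0x9087123465 .nil))) (.node 7 9 (.cons 0x8436521790 (.cons 0x5217908463 (.cons 0x8973465210 (.cons 0x5214637980 .nil)))) .done .done) .done) .done) .done)) .done)) (.node 4 8 .nil (.node 5 9 (.cons 0x7895634210 (.cons 0x4871236590 (.cons 0x8417632590 (.cons 0x2178436590 .nil)))) .done (.node 2 7 (.cons 0x7256348901 .nil) (.node 0 7 (.cons 0x8907436521 .nil) (.node 0 2 (.cons 0x5634789021 .nil) (.node 2 8 (.cons 0x9065432871 .nil) (.node 2 9 (.cons 0x5634871092 .nil) .done .done) .done) .done) (.leaf 0x4890172563 0 .done)) .done)) .done)) (.node 6 9 (.cons 0x8712345690 .nil) (.node 1 6 (.cons 0x7890614523 .nil) (.node 6 8 (.cons 0x9068714523 .nil) (.node 4 6 .nil (.node 5 7 (.cons 0x9875634210 (.cons 0x1463257890 (.cons 0x3641257890 .nil))) (.node 3 9 (.cons 0x3987654210 (.cons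 0x4639875210 (.cons 0x2578936410 .nil))) .done .done) .done) .done) .done) (.node 6 8 (.cons 0x9068714523 .nil) (.node 1 6 (.cons 0x7890614523 .nil) (.node 4 6 .nil (.node 1 5 (.cons 0x7890632514 .nil) (.node 5 7 (.cons 0x9875634210 (.cons 0x1463257890 (.cons 0x3641257890 .nil))) .done .done) .done) .done) .done) .done)) .done)) (.node 2 5 (.cons 0x7890125634 .nil) (.node 5 7 (.cons 0x4365789012 .nil) (.node 0 4 .nil (.node 1 8 (.cons 0x5763241890 (.cons 0x9043265781 (.cons 0x7563240981 .nil))) (.node 5 9 (.cons 0x8759014362 (.cons 0x2367598140 (.cons 0x7895236041 (.cons 0x3678952140 .nil)))) .done .done) (.node 0 3 (.cons 0x4567890321 .nil) (.node 0 5 (.cons 0x8905763241 .nil) (.node 5 8 (.cons 0x1423675890 .nil) (.node 6 8 (.cons 0x7509863241 .nil) (.node 5 9 (.cons 0x7689541230 .nil) (.node 1 5 .nil (.node 0 7 (.cons 0x3214598670 (.cons 0x4215890763 (.cons 0x7068951432 .nil))) .done .done) .done) .done) .done) .done) (.node 3 7 (.cons 0x6543789012 .nil) (.node 0 7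 (.cons 0x9870125634 .nil) (.node 0 2 (.cons 0x9875201436 .nil) (.node 0 8 (.cons 0x9801425763 .nil) .done .done) .done) .done) .done)) .done)) (.node 0 7 (.cons 0x8907563421 .nil) (.node 0 4 .nil (.node 1 9 (.cons 0x2578914360 (.cons 0x8912570436 (.cons 0x8756219043 (.cons 0x3604198752 .nil)))) .done (.node 0 3 (.cons 0x4567890321 .nil) (.node 0 5 (.cons 0x6789054123 .nil) (.node 0 2 (.cons 0x4365789021 .nil) (.node 0 8 (.cons 0x9803675214 .nil) .done .done) .done) .done) .done)) (.node 2 7 .nil (.node 1 8 (.cons 0x7563421890 (.cons 0x3427560981 (.cons 0x5724189063 .nil))) (.node 3 9 (.cons 0x1452398760 (.cons 0x5418932760 (.cons 0x5427601893 (.cons 0x9345627810 .nil)))) .done .done) (.node 7 9 (.cons 0x8790126543 .nil) (.node 3 7 (.cons 0x6543789012 .nil) (.node 4 7 (.cons 0x9874365210 .nil) .done .done) .done) .done)) .done)) .done)) (.node 0 4 .nil (.node 5 8 (.cons 0x9063258714 (.cons 0x9041785236 (.cons 0x9043658712 .nil))) (.node 5 7 (.cons 0x4365789012 (.cons 0x6325789041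 .nil)) (.node 0 3 (.cons 0x9857630412 (.cons 0x9857630421 .nil)) (.node 0 5 (.cons 0x9850412367 .nil) .done .done) .done) .done) (.node 0 5 (.cons 0x6789054123 .nil) (.node 1 5 (.cons 0x7890632514 .nil) (.node 0 3 (.cons 0x4567890321 .nil) (.node 0 7 (.cons 0x9870632514 .nil) (.node 0 2 .nil (.node 4 7 (.cons 0x9874152360 (.cons 0x9874365102 (.cons 0x9874365120 .nil))) (.leaf 0x1256347890 0 .done) .done) .done) .done) .done) .done) .done)) .done)) .done)) .done)))
noncomputable def tc9_1_32 : T := (.node 0 7 .nil (.node 1 8 (.cons 0x9078123456 .nil) (.leaf 0x2189076543 0 (.node 3 8 (.cons 0x9012654387 .nil) (.node 2 9 (.cons 0x4567012983 (.cons 0x5607892341 (.cons 0x3298706541 .nil))) (.leaf 0x8345670129 0 (.node 1 6 (.cons 0x8716092345 .nil) (.node 3 5 (.cons 0x1453298760 (.cons 0x6701298354 (.cons 0x8923541670 .nil))) (.leaf 0x4532987061 0 .done) .done) .done)) (.node 1 9 (.cons 0x8719065432 (.cons 0x2389145670 (.cons 0x9145623870 .nil))) (.node 2 5 (.cons 0x3254198760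 (.cons 0x9107834526 (.cons 0x9814325607 (.cons 0x6078914523 .nil)))) .done .done) .done)) (.node 3 9 (.cons 0x8932145670 (.cons 0x9326078145 (.cons 0x9326541870 .nil))) (.node 5 9 (.cons 0x8067145932 (.cons 0x7806239541 (.cons 0x1459326780 (.cons 0x3954126780 .nil)))) .done (.node 6 9 (.cons 0x8712345690 .nil) (.leaf 0x5690781234 0 (.node 0 4 (.cons 0x8932140765 .nil) (.node 2 5 (.cons 0x7893410652 (.cons 0x8704396521 (.cons 0x7065239814 (.cons 0x8704125693 .nil)))) .done .done) .done)) .done)) .done))) (.node 1 5 (.cons 0x9870651432 .nil) (.node 4 8 (.cons 0x4890765123 .nil) (.node 1 6 .nil (.node 2 7 (.cons 0x9806154327 (.cons 0x3276154890 .nil)) (.node 1 3 (.cons 0x6723154890 (.cons 0x9013487265 .nil)) .done .done) (.node 1 3 (.cons 0x4890765132 .nil) (.node 1 9 (.cons 0x5487623190 .nil) (.node 1 8 .nil (.node 0 4 (.cons 0x7890432165 (.cons 0x9045678123 (.cons 0x7654098123 .nil))) .done .done) .done) .done) .done)) (.node 1 6 .nil (.node 2 7 (.cons 0x6512709843 (.cons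 0x9806154327 (.cons 0x5432789061 .nil))) .done (.node 1 3 (.cons 0x9078431265 .nil) (.node 1 9 (.cons 0x5607891432 .nil) (.node 1 8 .nil (.node 0 4 (.cons 0x7890432165 (.cons 0x9045678123 (.cons 0x7654098123 .nil))) .done .done) .done) .done) .done)) .done)) (.node 1 8 .nil (.node 0 3 (.cons 0x9876541230 (.cons 0x9032187654 .nil)) (.node 7 9 (.cons 0x8976541230 (.cons 0x5432609781 (.cons 0x9762308145 (.cons 0x3456218790 .nil)))) .done .done) (.node 1 6 .nil (.node 2 4 (.cons 0x9870651423 (.cons 0x7890615423 .nil)) (.node 3 7 (.cons 0x6543789012 (.cons 0x9806154237 (.cons 0x4516098732 (.cons 0x9087326154 .nil)))) .done .done) (.node 1 9 (.cons 0x5607891432 .nil) (.node 1 3 .nil (.node 4 8 (.cons 0x7845190623 (.cons 0x5487623190 (.cons 0x9078431265 .nil))) .done .done) .done) .done)) .done)) .done)) .done)) (.node 4 6 (.cons 0x9087123465 .nil) (.node 0 7 .nil (.node 1 8 (.cons 0x5467098123 .nil) (.leaf 0x2189076543 0 (.node 2 9 (.cons 0x9234178065 (.cons 0x7065418923 (.cons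 0x5607892341 (.cons 0x3298706541 .nil)))) (.node 3 5 (.cons 0x1453298760 (.cons 0x7064532981 (.cons 0x9235418706 (.cons 0x9807653214 (.cons 0x5329807641 .nil))))) .done .done) .done)) (.node 1 6 .nil (.node 1 5 (.cons 0x8907645123 .nil) (.node 2 8 (.cons 0x9065432871 (.cons 0x9823451607 (.cons 0x9061782345 .nil))) (.node 1 8 (.cons 0x5467098123 .nil) (.node 3 8 (.cons 0x5467098321 (.cons 0x4516709832 .nil)) (.node 0 4 (.cons 0x9832154076 .nil) (.node 0 5 (.cons 0x7645098123 (.cons 0x9832164507 .nil)) .done .done) .done) .done) .done) (.node 2 4 (.cons 0x7890615423 .nil) (.node 3 6 (.cons 0x9870632451 (.cons 0x9870632415 .nil)) .done .done) .done)) (.node 6 9 (.cons 0x8712345690 .nil) (.node 2 4 (.cons 0x5690871243 .nil) (.node 3 6 (.cons 0x5421098763 .nil) (.node 6 8 .nil (.node 0 3 (.cons 0x9876541230 (.cons 0x9867032145 .nil)) (.node 0 4 (.cons 0x7890432165 .nil) .done .done) .done) .done) .done) .done) .done)) .done)) (.node 6 9 (.cons 0x8712345690 .nil) (.node 0 7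 .nil (.node 1 8 (.cons 0x9078123456 .nil) (.leaf 0x2189076543 0 (.node 5 7 (.cons 0x6981234570 (.cons 0x9623418075 (.cons 0x8126907543 .nil))) .done (.leaf 0x5690781234 0 .done))) (.node 6 8 (.cons 0x8690712345 .nil) (.node 3 6 .nil (.node 2 5 (.cons 0x9087125643 (.cons 0x9870125436 (.cons 0x9863452107 (.cons 0x9870632541 .nil)))) .done (.node 1 6 .nil (.node 2 8 (.cons 0x9065432871 (.cons 0x9061782345 .nil)) (.node 5 8 (.cons 0x9685432170 (.cons 0x9078543261 .nil)) (.leaf 0x1690785432 0 .done) .done) .done) .done)) .done) .done)) (.node 0 7 .nil (.node 2 9 (.cons 0x9234178065 (.cons 0x3298706541 .nil)) (.node 5 7 (.cons 0x3465708921 (.cons 0x6570892341 (.cons 0x6570892143 .nil))) .done (.node 1 6 (.cons 0x8716092345 .nil) (.node 3 5 (.cons 0x1453298760 (.cons 0x4356987012 (.cons 0x9807653214 (.cons 0x8923541670 .nil)))) (.leaf 0x4532987061 0 .done) .done) .done)) (.node 6 8 .nil (.node 1 6 (.cons 0x7098612345 .nil) .done (.node 3 6 .nil (.node 2 5 (.cons 0x9087125643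 (.cons 0x5210789634 (.cons 0x9863452107 (.cons 0x9870632541 .nil)))) .done (.node 1 6 .nil (.node 2 8 (.cons 0x9065432871 (.cons 0x9061782345 .nil)) (.node 5 8 (.cons 0x9854123670 (.cons 0x9078543261 (.cons 0x7098543612 .nil))) .done .done) .done) .done)) .done)) .done)) .done)) .done)) (.node 6 9 (.cons 0x8712345690 .nil) (.node 0 7 (.cons 0x7089654123 .nil) (.node 1 6 .nil (.node 5 8 (.cons 0x3214589670 (.cons 0x9078543261 .nil)) (.node 2 8 (.cons 0x9065432871 (.cons 0x9061782345 .nil)) (.node 2 9 (.cons 0x8543296071 (.cons 0x9234587160 (.cons 0x5416078923 .nil))) .done .done) (.leaf 0x1690785432 0 .done)) (.node 3 6 (.cons 0x9087123654 .nil) (.node 6 8 (.cons 0x8690712345 .nil) (.node 4 6 .nil (.node 1 5 (.cons 0x9078621543 (.cons 0x8907645123 .nil)) (.node 3 9 (.cons 0x2178654390 (.cons 0x8715460932 (.cons 0x5146078932 (.cons 0x8709326451 .nil)))) .done .done) .done) .done) .done) .done)) (.node 1 6 .nil (.node 2 7 (.cons 0x5432789061 .nil) (.node 1 3 (.cons 0x9806541327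 .nil) (.leaf 0x987265431 0 (.node 4 6 (.cons 0x5643127890 .nil) .done .done)) (.node 2 8 (.cons 0x9065432871 (.cons 0x9061782345 .nil)) (.node 2 9 (.cons 0x5607892341 (.cons 0x8716092345 .nil)) (.node 2 5 (.cons 0x9870652341 .nil) (.node 3 7 (.cons 0x8965437210 (.cons 0x9806145237 (.cons 0x9807325614 .nil))) .done .done) .done) .done) .done)) (.node 3 6 (.cons 0x9087123654 .nil) (.node 1 9 (.cons 0x5607891432 .nil) (.node 1 8 (.cons 0x7819062345 .nil) .done (.node 1 5 (.cons 0x9870651432 .nil) (.node 6 8 (.cons 0x7098651234 .nil) (.node 4 6 .nil (.node 0 5 (.cons 0x7890561234 .nil) (.leaf 0x6432198705 0 .done) .done) .done) .done) .done)) .done) .done)) .done)) (.node 3 6 (.cons 0x9087123654 .nil) (.node 1 6 .nil (.node 6 8 .nil (.node 3 9 (.cons 0x4561780932 (.cons 0x7123908654 (.cons 0x7862109345 .nil))) .done (.node 3 9 (.cons 0x2178654390 (.cons 0x4561780932 .nil)) (.node 2 9 (.cons 0x3456871290 (.cons 0x8716092345 .nil)) (.node 4 8 (.cons 0x8456712390 (.cons 0x5487160923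 (.cons 0x7165480932 .nil))) .done .done) (.node 0 4 (.cons 0x8712340965 (.cons 0x8761239045 (.cons 0x5409876123 .nil))) (.node 0 5 (.cons 0x6789321450 (.cons 0x8761239054 .nil)) .done .done) .done)) .done)) (.node 1 9 (.cons 0x8719065432 .nil) (.node 1 8 (.cons 0x7819062345 .nil) (.node 1 3 .nil (.node 4 9 (.cons 0x9456321780 (.cons 0x7809456231 (.cons 0x7809456213 .nil))) (.leaf 0x5490871326 0 .done) .done) .done) (.node 1 5 .nil (.node 0 7 (.cons 0x4563219870 (.cons 0x4519870632 (.cons 0x9870651432 .nil))) .done .done) .done)) .done)) (.node 1 6 .nil (.node 0 4 (.cons 0x8712340965 (.cons 0x5409876123 .nil)) (.node 3 9 (.cons 0x8765409321 (.cons 0x8761239045 (.cons 0x4561780932 .nil))) .done (.node 3 9 (.cons 0x4561780932 .nil) (.node 2 7 (.cons 0x6543987210 (.cons 0x5432789061 (.cons 0x5601439872 .nil))) (.node 3 5 (.cons 0x4356987210 (.cons 0x8721096534 (.cons 0x2789653410 .nil))) .done .done) (.node 0 5 (.cons 0x6789321450 (.cons 0x8761239054 .nil)) .done .done))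 .done)) .done) .done)) (.node 4 6 .nil (.node 1 5 (.cons 0x3215467890 .nil) (.node 1 8 (.cons 0x9062345187 .nil) (.node 0 5 (.cons 0x9056432187 .nil) (.node 7 9 (.cons 0x8790126543 (.cons 0x8790623451 (.cons 0x7980564123 (.cons 0x4326518790 .nil)))) .done .done) .done) (.node 0 5 (.cons 0x7890564321 .nil) (.node 1 6 (.cons 0x7890561234 .nil) .done (.node 1 8 (.cons 0x9054678123 (.cons 0x9056432187 .nil)) (.node 0 4 (.cons 0x7654098123 .nil) (.node 3 7 (.cons 0x6543789012 (.cons 0x9815406732 (.cons 0x5437812690 (.cons 0x5643789012 (.cons 0x9018734562 .nil))))) .done .done) .done) .done)) (.node 0 3 (.cons 0x9876541230 (.cons 0x5467890321 (.cons 0x7890321564 .nil))) (.node 1 8 (.cons 0x9032187654 (.cons 0x9032187645 .nil)) (.node 7 9 (.cons 0x3087965412 (.cons 0x8790321546 (.cons 0x8790321564 (.cons 0x4651879032 .nil)))) .done .done) (.leaf 0x2154678903 0 .done)) .done))) (.node 3 6 (.cons 0x9087123654 .nil) (.node 4 9 (.cons 0x9456321780 .nil) (.node 2 4 .nil (.node 3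 9 (.cons 0x7801263945 (.cons 0x9324178065 (.cons 0x6542390871 .nil))) (.node 0 7 (.cons 0x8932145670 (.cons 0x8936701245 (.cons 0x9870124365 .nil))) .done .done) .done) (.node 7 9 (.cons 0x8790126543 .nil) (.node 6 8 (.cons 0x5468097123 .nil) (.node 1 6 .nil (.node 0 5 (.cons 0x7980546321 (.cons 0x5097861234 (.cons 0x8054971632 .nil))) .done .done) .done) (.node 0 7 .nil (.node 1 8 (.cons 0x5467098123 (.cons 0x5623490781 .nil)) (.leaf 0x2189076543 0 .done) (.node 3 7 (.cons 0x5641237980 .nil) (.node 1 6 .nil (.node 0 5 (.cons 0x2379805641 (.cons 0x8790561234 (.cons 0x4165089732 .nil))) .done (.node 0 4 (.cons 0x7890432165 .nil) (.node 6 8 (.cons 0x5687904321 .nil) .done .done) .done)) .done) .done)) .done)) .done)) (.node 2 4 (.cons 0x7890124365 .nil) (.node 4 9 (.cons 0x6549087123 .nil) (.node 1 6 .nil (.node 5 9 (.cons 0x2365941780 (.cons 0x8716095423 .nil)) (.leaf 0x1632459087 0 .done) .done) .done) .done) .done)) .done)) .done))) .done)))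
noncomputable def tc9_1_33 : T := (.node 1 5 .nil (.node 2 7 (.cons 0x6098723451 (.cons 0x4327890651 .nil)) (.node 1 8 (.cons 0x9062345187 (.cons 0x9065418723 .nil)) (.node 0 4 (.cons 0x9817234065 (.cons 0x6789045123 .nil)) (.node 7 9 (.cons 0x8790623451 (.cons 0x8790651432 (.cons 0x4326518790 (.cons 0x5621879043 .nil)))) .done .done) .done) .done) (.node 1 6 .nil (.node 2 7 (.cons 0x5432789061 .nil) (.node 1 3 (.cons 0x8906723154 .nil) (.node 1 8 (.cons 0x4518906723 (.cons 0x9065418723 .nil)) .done .done) (.node 0 4 (.cons 0x5409876123 .nil) (.node 3 8 (.cons 0x9012654387 (.cons 0x7651238904 (.cons 0x4098327651 .nil))) (.node 6 9 (.cons 0x7210438965 (.cons 0x5698712340 (.cons 0x7215698340 .nil))) .done (.node 5 9 (.cons 0x6783214590 (.cons 0x9540623871 (.cons 0x2387614590 (.cons 0x6043895172 .nil)))) .done .done)) (.node 5 8 (.cons 0x9065872341 (.cons 0x9856172340 (.cons 0x7216589043 .nil))) (.node 7 9 (.cons 0x6589721043 (.cons 0x3216798540 (.cons 0x1658972340 .nil)))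 (.node 0 3 (.cons 0x4567890321 (.cons 0x8790345612 (.cons 0x3045897612 .nil))) (.node 1 3 (.cons 0x6589721340 .nil) (.node 2 5 (.cons 0x8790625431 (.cons 0x7890613254 .nil)) .done .done) .done) .done) (.node 4 9 (.cons 0x8943271560 (.cons 0x5894061723 (.cons 0x3271658940 .nil))) (.node 5 9 (.cons 0x8956043271 (.cons 0x8956172340 .nil)) .done .done) .done)) .done)) .done)) (.node 0 4 (.cons 0x7890432165 .nil) (.node 1 8 (.cons 0x7654098123 .nil) (.node 1 3 .nil (.node 2 5 (.cons 0x9817604523 (.cons 0x9813254067 .nil)) (.node 7 9 (.cons 0x5432609781 (.cons 0x8971325406 (.cons 0x8971325604 (.cons 0x8790134562 (.cons 0x5431879062 .nil))))) .done .done) .done) (.node 2 7 (.cons 0x9065418723 .nil) (.node 1 3 (.cons 0x8906723154 .nil) (.node 1 9 .nil (.node 5 8 (.cons 0x9067854132 (.cons 0x3276045891 (.cons 0x4587623190 (.cons 0x3458726091 .nil)))) .done .done) .done) (.node 1 9 (.cons 0x8917234065 .nil) (.node 1 3 .nil (.node 5 8 (.cons 0x9178543260 (.cons 0x7604589132 (.cons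 0x4587623190 (.cons 0x7854319062 .nil)))) .done .done) .done) .done)) .done)) (.node 1 3 .nil (.node 2 5 (.cons 0x9871604325 (.cons 0x9876045231 (.cons 0x9871325406 .nil))) .done (.node 1 8 .nil (.node 2 7 (.cons 0x8906723154 (.cons 0x4518906723 .nil)) (.leaf 0x6543271890 0 .done) (.node 1 9 .nil (.node 2 8 (.cons 0x7609823154 (.cons 0x7604519823 (.cons 0x5419067823 (.cons 0x7823419065 .nil)))) .done .done) .done)) .done)) .done)) .done)) (.node 1 8 .nil (.node 2 9 (.cons 0x1789234560 (.cons 0x7189234560 (.cons 0x5418760923 (.cons 0x7814329065 (.cons 0x7814560923 .nil))))) .done (.node 1 9 (.cons 0x7819062345 .nil) (.node 2 7 (.cons 0x8917234560 .nil) (.node 1 3 (.cons 0x6098723154 .nil) (.node 1 6 (.cons 0x5432789061 .nil) .done .done) (.node 1 3 .nil (.node 2 5 (.cons 0x9067814523 (.cons 0x9872560134 (.cons 0x7609813254 .nil))) .done (.node 1 6 .nil (.node 5 9 (.cons 0x7816234590 .nil) (.leaf 0x8723459061 0 (.node 0 4 (.cons 0x8917234065 (.cons 0x5409876123 .nil)) (.node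 3 8 (.cons 0x9832176540 (.cons 0x7216598340 (.cons 0x2716598340 .nil))) .done .done) .done)) .done) .done)) .done)) (.node 1 3 .nil (.node 7 9 (.cons 0x5432609781 (.cons 0x8790623154 (.cons 0x8790134562 (.cons 0x5431879062 .nil)))) .done (.node 1 6 .nil (.node 2 7 (.cons 0x8723419065 (.cons 0x5432789061 .nil)) (.node 5 7 (.cons 0x9062345781 (.cons 0x9061875432 .nil)) (.node 0 4 (.cons 0x8756234091 (.cons 0x8904327561 (.cons 0x8904576132 .nil))) .done (.node 3 9 (.cons 0x8765412390 (.cons 0x2618754390 .nil)) (.node 7 9 (.cons 0x5432609781 (.cons 0x5432618790 .nil)) .done .done) .done)) .done) .done) .done)) .done)) (.node 0 8 (.cons 0x9087654123 .nil) (.node 0 4 .nil (.node 3 9 (.cons 0x8765412390 (.cons 0x8932176540 (.cons 0x6045178932 (.cons 0x4065178932 (.cons 0x5678140932 .nil))))) .done (.node 0 5 .nil (.node 6 9 (.cons 0x5408967123 (.cons 0x4508967123 (.cons 0x4321789650 (.cons 0x9621780543 .nil)))) .done (.node 0 3 (.cons 0x4567890321 .nil) (.node 0 7 .nil (.node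 1 9 (.cons 0x9178062345 (.cons 0x8917065432 .nil)) (.node 3 8 (.cons 0x9832176540 (.cons 0x6238709154 .nil)) (.leaf 0x4562190783 0 .done) .done) .done) .done) .done)) .done)) (.node 2 5 (.cons 0x9065234187 .nil) (.node 2 8 .nil (.node 1 9 (.cons 0x7198234560 (.cons 0x5419067823 .nil)) (.node 2 7 (.cons 0x6019872543 (.cons 0x8723419065 .nil)) .done .done) (.node 2 7 .nil (.node 1 9 (.cons 0x5419067823 (.cons 0x8917234560 (.cons 0x6019872543 .nil))) .done (.node 1 6 .nil (.node 3 7 (.cons 0x6543789012 (.cons 0x9087321654 (.cons 0x4516098732 (.cons 0x9016287345 .nil)))) .done (.node 1 3 (.cons 0x9872560134 .nil) (.node 1 9 (.cons 0x4523198760 .nil) .done .done) .done)) .done)) .done)) (.node 0 5 .nil (.node 4 7 (.cons 0x9817432560 (.cons 0x9817432506 (.cons 0x9056234781 (.cons 0x9056218743 .nil)))) .done (.node 1 6 .nil (.node 0 2 (.cons 0x9871602345 .nil) (.node 2 7 (.cons 0x5432789061 .nil) (.node 3 7 (.cons 0x6543789012 (.cons 0x9087321654 (.cons 0x4516098732 (.cons 0x8901652734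 .nil)))) .done .done) (.leaf 0x6178902345 0 .done)) (.node 1 3 .nil (.node 4 7 (.cons 0x9817432560 (.cons 0x8906745231 (.cons 0x4765231890 (.cons 0x7431890652 .nil)))) .done (.node 1 9 .nil (.node 2 8 (.cons 0x9067823145 (.cons 0x9132876054 (.cons 0x5419067823 .nil))) .done .done) .done)) .done)) .done)) .done)) .done)) .done))) .done))) (.node 1 6 .nil (.node 2 7 (.cons 0x5432789061 .nil) (.node 1 8 (.cons 0x5418906723 (.cons 0x7234189065 .nil)) (.node 1 5 (.cons 0x6098723451 .nil) (.node 1 3 (.cons 0x8906723145 .nil) (.node 1 9 (.cons 0x8723451906 .nil) .done .done) .done) .done) (.node 0 4 (.cons 0x5409876123 .nil) (.node 1 5 (.cons 0x4327890651 .nil) (.node 6 9 (.cons 0x5698712340 (.cons 0x8721569043 .nil)) (.node 2 9 (.cons 0x1789234560 (.cons 0x5432987160 .nil)) (.node 3 6 (.cons 0x7892104563 .nil) (.leaf 0x2360451789 0 .done) .done) .done) (.node 2 4 (.cons 0x7890615423 .nil) (.node 3 9 (.cons 0x3987654210 (.cons 0x8932176540 (.cons 0x7893245160 (.cons 0x7893240651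 (.cons 0x6510427893 .nil))))) .done .done) .done)) (.node 0 7 (.cons 0x8907654123 .nil) (.node 3 7 (.cons 0x6543789012 .nil) (.node 3 5 (.cons 0x8907612354 (.cons 0x8907614532 .nil)) (.node 2 9 (.cons 0x1789234560 (.cons 0x8927106534 (.cons 0x5432987160 (.cons 0x8923541706 .nil)))) .done (.node 5 8 (.cons 0x6709854123 (.cons 0x9853270614 (.cons 0x7234165890 (.cons 0x9853416072 .nil)))) .done .done)) (.node 2 5 (.cons 0x8901437256 (.cons 0x8901652734 (.cons 0x8907325416 .nil))) (.node 2 9 (.cons 0x1789234560 (.cons 0x8925437016 (.cons 0x5432987160 (.cons 0x8732904561 .nil)))) .done .done) .done)) .done) .done)) .done)) (.node 0 4 (.cons 0x7890432165 .nil) (.node 1 8 (.cons 0x9045678123 .nil) (.node 1 9 (.cons 0x8765409123 .nil) (.node 1 5 (.cons 0x9062345187 .nil) (.node 1 3 .nil (.node 2 7 (.cons 0x5418906723 (.cons 0x8906723145 .nil)) (.node 0 7 (.cons 0x8907654123 .nil) (.node 4 6 (.cons 0x9064327815 (.cons 0x5460789132 (.cons 0x5643127890 .nil))) .done .done) .done)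 .done) .done) .done) (.node 1 9 (.cons 0x8765409123 .nil) (.node 1 5 .nil (.node 2 7 (.cons 0x6098723451 (.cons 0x4327890651 .nil)) (.node 3 9 (.cons 0x8765409321 (.cons 0x8934560172 (.cons 0x8765123904 (.cons 0x8726543901 .nil)))) .done .done) (.node 1 3 .nil (.node 2 7 (.cons 0x8723451906 (.cons 0x8906723145 .nil)) (.node 2 8 (.cons 0x4519067823 (.cons 0x9132876045 (.cons 0x9067823154 .nil))) .done .done) .done) .done)) .done) .done)) (.node 0 7 (.cons 0x8907654123 .nil) (.node 4 7 (.cons 0x5612347890 .nil) (.node 0 5 (.cons 0x2347890561 .nil) (.leaf 0x6123478905 0 (.node 4 9 (.cons 0x8709432165 .nil) (.node 2 4 (.cons 0x3247890561 .nil) (.node 4 8 (.cons 0x9078432165 .nil) .done .done) .done) .done)) (.node 4 9 (.cons 0x8709432165 .nil) (.node 4 8 (.cons 0x9078432165 .nil) (.node 2 4 .nil (.node 0 5 (.cons 0x2349871650 (.cons 0x3249871650 .nil)) (.node 0 3 (.cons 0x4567890321 (.cons 0x8942305671 .nil)) .done .done) .done) .done) .done) .done)) (.node 0 8 .nil (.node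 2 9 (.cons 0x1789234560 (.cons 0x5417608923 (.cons 0x7143298065 (.cons 0x7145608923 .nil)))) (.node 4 7 (.cons 0x5612347890 (.cons 0x9087432165 (.cons 0x5617432980 .nil))) (.node 3 5 (.cons 0x2165347890 (.cons 0x7435612980 (.cons 0x9087435612 (.cons 0x9804532176 .nil)))) (.leaf 0x4356129087 0 .done) .done) .done) (.node 2 7 (.cons 0x9806541723 .nil) (.node 1 8 (.cons 0x5418906723 .nil) (.node 1 3 (.cons 0x8906723145 .nil) (.node 1 5 (.cons 0x6098723451 .nil) (.node 1 9 (.cons 0x7819062345 .nil) .done .done) .done) .done) .done) .done)) .done)) .done)) .done)) (.node 1 8 .nil (.node 0 4 (.cons 0x9045678123 (.cons 0x7654098123 .nil)) (.node 1 6 (.cons 0x7890432165 .nil) (.node 2 9 (.cons 0x1789234560 (.cons 0x7189234560 (.cons 0x5604329871 .nil))) (.node 1 5 (.cons 0x4518760923 (.cons 0x6045178923 .nil)) .done (.node 3 7 (.cons 0x6543789012 (.cons 0x4560923781 (.cons 0x8923716045 (.cons 0x8923716540 .nil)))) (.leaf 0x2189045673 0 .done) .done)) .done) .done) (.node 1 6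 .nil (.node 2 7 (.cons 0x5432789061 .nil) (.node 1 3 (.cons 0x8906723145 .nil) (.node 1 9 (.cons 0x8917234560 (.cons 0x8723190654 .nil)) .done .done) (.node 2 9 (.cons 0x1789234560 (.cons 0x5432987160 .nil)) (.node 0 8 (.cons 0x5417608923 (.cons 0x7160892345 .nil)) (.node 0 2 (.cons 0x9871602345 .nil) (.node 2 4 (.cons 0x5610987243 .nil) (.node 2 5 (.cons 0x7890614523 .nil) .done .done) .done) .done) (.node 3 7 (.cons 0x6543789012 (.cons 0x8732906145 .nil)) (.node 1 5 (.cons 0x8732906154 (.cons 0x4516098732 .nil)) (.node 4 8 (.cons 0x9843271560 (.cons 0x7329845160 (.cons 0x2376154890 (.cons 0x5160984372 .nil)))) .done .done) (.node 0 5 (.cons 0x6789054123 (.cons 0x8732905416 (.cons 0x8905416732 (.cons 0x6145098732 .nil)))) .done .done)) .done)) .done)) (.node 1 9 .nil (.node 0 8 (.cons 0x9178062345 .nil) (.node 0 4 (.cons 0x8765409123 (.cons 0x9804567123 .nil)) .done (.node 1 3 (.cons 0x7809132654 .nil) (.node 2 4 (.cons 0x9132456087 (.cons 0x7198065423 .nil)) (.node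 0 4 (.cons 0x8765409123 .nil) (.node 3 5 (.cons 0x7653218904 (.cons 0x2354198760 (.cons 0x7609814235 (.cons 0x9817653240 .nil)))) .done .done) .done) .done) .done)) (.node 1 5 .nil (.node 2 7 (.cons 0x6098723451 (.cons 0x4327890651 .nil)) (.node 1 3 (.cons 0x8723190654 .nil) .done .done) (.node 1 3 .nil (.node 4 7 (.cons 0x9065187432 (.cons 0x8745609132 (.cons 0x8745623190 .nil))) (.node 2 9 (.cons 0x1789234560 (.cons 0x8760923154 (.cons 0x8743156092 .nil))) (.node 5 7 (.cons 0x4329817560 (.cons 0x8134756290 .nil)) .done .done) .done) .done) .done)) .done)) .done)) (.node 1 9 .nil (.node 3 5 (.cons 0x9062354187 (.cons 0x2354198760 (.cons 0x8760914532 (.cons 0x8762354190 .nil)))) (.node 0 8 (.cons 0x9806714532 (.cons 0x9178062345 .nil)) (.node 1 5 (.cons 0x7809156234 .nil) (.node 4 7 (.cons 0x9087432156 (.cons 0x8091235674 (.cons 0x3265478190 (.cons 0x5621908743 .nil)))) .done .done) .done) .done) (.node 1 5 .nil (.node 2 7 (.cons 0x8917234560 (.cons 0x6098723451 (.cons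 0x4327890651 .nil))) .done (.node 2 7 (.cons 0x8917234560 .nil) (.node 1 6 (.cons 0x5432789061 .nil) (.node 1 3 .nil (.node 4 9 (.cons 0x6094518723 (.cons 0x7813265490 (.cons 0x5490627813 .nil))) .done .done) .done) (.node 1 3 .nil (.node 4 9 (.cons 0x8723490651 (.cons 0x7813265490 .nil)) (.node 0 8 (.cons 0x7198065432 (.cons 0x5490876213 (.cons 0x7809431265 .nil))) .done .done) (.node 1 6 .nil (.node 2 8 (.cons 0x7198234560 (.cons 0x9061543287 .nil)) (.node 0 7 (.cons 0x7065432891 (.cons 0x7061982345 .nil)) (.node 0 4 (.cons 0x8917234065 .nil) (.node 3 9 (.cons 0x8932176540 (.cons 0x4561870932 .nil)) (.leaf 0x1654390782 0 .done) .done) .done) .done) .done) .done)) .done)) .done)) (.node 1 6 .nil (.node 2 7 (.cons 0x5432789061 .nil) (.node 1 3 (.cons 0x7231890654 .nil) (.node 3 5 (.cons 0x9062354187 (.cons 0x4356019872 (.cons 0x8906723541 (.cons 0x2354167890 .nil)))) .done .done) (.node 1 5 (.cons 0x4327890651 .nil) (.node 1 3 .nil (.node 0 2 (.cons 0x9871602345 (.cons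 0x9871320654 .nil)) (.leaf 0x1345678902 0 .done) (.node 3 5 (.cons 0x9062354187 (.cons 0x2354167890 .nil)) (.node 0 5 (.cons 0x4198760532 (.cons 0x9872350614 .nil)) (.node 2 5 (.cons 0x9872534106 (.cons 0x7890614523 .nil)) .done .done) .done) .done)) (.node 3 5 (.cons 0x8906723514 (.cons 0x2354167890 .nil)) (.node 2 5 (.cons 0x9872534106 (.cons 0x7890614523 .nil)) .done (.node 0 5 (.cons 0x6789054123 .nil) (.node 3 7 (.cons 0x6543789012 (.cons 0x6123789054 (.cons 0x6145098732 .nil))) .done .done) .done)) .done)) .done)) (.node 1 5 .nil (.node 2 7 (.cons 0x6098723451 (.cons 0x4327890651 .nil)) (.node 2 4 (.cons 0x5601987243 .nil) (.node 3 8 (.cons 0x7654210983 (.cons 0x7243891065 (.cons 0x9832451760 (.cons 0x7609832415 (.cons 0x5416723890 .nil))))) .done .done) .done) (.node 1 3 .nil (.node 7 9 (.cons 0x5418790623 (.cons 0x4562318790 .nil)) (.node 2 8 (.cons 0x5432897160 (.cons 0x9782601345 (.cons 0x9067823154 .nil))) (.node 4 7 (.cons 0x8234790615 (.cons 0x9065478132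 (.cons 0x9013478265 (.cons 0x9065134782 .nil)))) .done .done) (.node 2 8 (.cons 0x9067823154 (.cons 0x4315609782 .nil)) (.node 0 3 (.cons 0x6543097821 (.cons 0x9823067145 (.cons 0x5430617982 (.cons 0x6512879034 .nil)))) .done (.node 0 4 (.cons 0x3406519782 (.cons 0x5604319782 (.cons 0x3128976540 .nil))) .done .done)) .done)) .done) .done)) .done)) .done))) .done))) .done)))
noncomputable def uc9_1_6 : T := (.node 1 4 (.cons 0x3214567890 .nil) tc9_1_33 (.node 1 4 (.cons 0x3214567890 .nil) (.node 0 8 (.cons 0x9087123456 .nil) tc9_1_32 (.node 0 7 (.cons 0x8907654123 .nil) (.node 0 8 (.cons 0x9087123456 .nil) (.node 4 6 (.cons 0x9087123465 .nil) (.node 1 6 .nil (.node 1 5 (.cons 0x9870615432 .nil) (.node 2 4 (.cons 0x7890615423 .nil) (.node 1 9 (.cons 0x5198706423 .nil) (.node 1 3 (.cons 0x5423198760 (.cons 0x7890651324 .nil)) .done .done) .done) .done) (.node 3 6 (.cons 0x8907632145 .nil) (.node 0 3 (.cons 0x4567890321 .nil) (.node 0 4 (.cons 0x7890432165 .nil) .done .done)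 .done) .done)) (.node 6 9 (.cons 0x8712345690 .nil) (.node 6 8 (.cons 0x8690712345 .nil) (.node 3 6 (.cons 0x8907632145 .nil) (.node 1 6 .nil (.node 1 5 (.cons 0x9870615432 .nil) (.node 2 4 (.cons 0x7890124365 (.cons 0x9870615423 (.cons 0x7890615423 .nil))) .done .done) .done) .done) .done) (.node 0 4 (.cons 0x8712340965 .nil) (.node 0 3 (.cons 0x4567890321 .nil) (.node 3 6 (.cons 0x8907632145 .nil) (.node 1 6 .nil (.node 6 8 (.cons 0x9078612345 .nil) .done .done) .done) .done) .done) .done)) .done)) (.node 0 4 .nil (.node 1 6 (.cons 0x7890432165 .nil) (.node 1 5 (.cons 0x9870615432 .nil) (.node 2 4 (.cons 0x9870615423 (.cons 0x7890615423 .nil)) .done .done) (.node 1 5 (.cons 0x9870615432 .nil) (.node 4 6 (.cons 0x7890465123 .nil) (.node 6 8 (.cons 0x9043217865 .nil) (.node 6 9 (.cons 0x8690712345 (.cons 0x8712340965 .nil)) .done .done) .done) .done) .done)) (.node 0 3 (.cons 0x4567890321 .nil) (.node 0 5 .nil (.node 1 6 (.cons 0x9870543216 (.cons 0x7890561234 .nil))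 (.node 3 9 (.cons 0x8765409321 (.cons 0x8761239045 (.cons 0x4561780932 .nil))) (.node 6 8 (.cons 0x9867054123 (.cons 0x9056871234 (.cons 0x4390568712 .nil))) .done .done) .done) .done) (.node 3 7 (.cons 0x6543789012 .nil) (.node 3 6 (.cons 0x9087123654 .nil) (.node 2 7 (.cons 0x9801273654 .nil) (.node 1 3 .nil (.node 4 7 (.cons 0x8901274365 (.cons 0x9087456231 (.cons 0x9087456213 .nil))) .done (.node 3 8 (.cons 0x7654123890 .nil) (.node 3 9 (.cons 0x8765409321 .nil) .done .done) .done)) .done) .done) (.node 0 2 (.cons 0x8902376541 .nil) (.node 0 5 .nil (.node 1 6 (.cons 0x9870543216 (.cons 0x7890561234 .nil)) (.node 2 5 (.cons 0x9807325416 (.cons 0x8907325416 .nil)) .done .done) .done) .done) .done)) .done)) .done)) .done)) (.node 0 8 (.cons 0x9087123456 .nil) (.node 0 4 .nil (.node 1 6 (.cons 0x9870432165 (.cons 0x7890432165 .nil)) (.node 1 5 (.cons 0x9870432156 .nil) (.node 3 7 (.cons 0x6543789012 (.cons 0x4516098732 (.cons 0x9087326154 .nil))) (.leaf 0x2378904561 0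 .done) .done) .done) (.node 0 3 (.cons 0x4567890321 .nil) (.node 0 5 .nil (.node 1 6 (.cons 0x9870561234 (.cons 0x7890561234 .nil)) (.node 3 7 (.cons 0x6543789012 (.cons 0x9805412376 (.cons 0x8905412376 .nil))) (.node 1 5 (.cons 0x9087326154 .nil) (.node 1 8 (.cons 0x4189056732 (.cons 0x9045618732 .nil)) .done .done) .done) .done) (.node 0 2 .nil (.node 3 7 (.cons 0x6543789012 (.cons 0x8902376541 .nil)) (.node 3 8 (.cons 0x7654123890 (.cons 0x9837654102 .nil)) (.node 1 8 (.cons 0x9045678123 (.cons 0x9814560237 .nil)) (.node 3 9 (.cons 0x9321876540 (.cons 0x7602398145 (.cons 0x7654189320 .nil))) .done .done) .done) (.node 1 6 (.cons 0x6123789054 .nil) (.leaf 0x8902165437 0 (.node 1 3 (.cons 0x4567890231 .nil) (.node 2 7 (.cons 0x9806723145 .nil) .done (.leaf 0x8902134567 0 .done)) .done)) .done)) .done) .done)) .done) .done)) (.node 2 7 .nil (.node 1 8 (.cons 0x9814327065 (.cons 0x5418906723 (.cons 0x7234189065 .nil))) (.node 5 8 (.cons 0x9856072341 (.cons 0x6589072341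 (.cons 0x6589072143 .nil))) .done .done) (.node 2 4 .nil (.node 1 9 (.cons 0x1987234560 (.cons 0x5601987243 (.cons 0x8719065423 .nil))) (.node 1 3 (.cons 0x9806541327 (.cons 0x5423198760 (.cons 0x9872431065 .nil))) .done .done) (.node 2 8 (.cons 0x9065432871 .nil) (.node 3 7 (.cons 0x6543789012 .nil) (.node 0 4 .nil (.node 1 5 (.cons 0x9065178234 (.cons 0x9823760415 .nil)) (.node 1 6 (.cons 0x4516098732 (.cons 0x9870432165 (.cons 0x7890432165 .nil))) .done .done) (.node 0 3 (.cons 0x4567890321 .nil) (.node 0 5 (.cons 0x8905412376 .nil) .done .done) .done)) (.node 0 2 (.cons 0x8902376541 .nil) (.node 0 4 (.cons 0x5673289041 .nil) (.node 0 5 (.cons 0x9827341056 .nil) .done .done) .done) .done)) .done) .done)) (.node 1 6 (.cons 0x5432789061 .nil) (.node 1 5 (.cons 0x9872345160 .nil) (.node 4 6 (.cons 0x3278906451 .nil) (.node 0 2 .nil (.node 1 3 (.cons 0x3154609872 (.cons 0x5467890213 (.cons 0x7890213465 .nil))) .done (.node 0 5 (.cons 0x9872345061 .nil) (.node 0 3 (.cons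 0x4567890321 .nil) (.node 0 4 (.cons 0x9876123045 .nil) .done .done) .done) .done)) .done) .done) (.node 3 7 (.cons 0x6543789012 .nil) (.node 3 6 (.cons 0x9087123654 .nil) (.node 6 9 (.cons 0x7321456980 .nil) (.node 2 4 (.cons 0x9801245637 .nil) (.node 4 6 (.cons 0x9801273645 .nil) .done .done) .done) .done) (.node 2 4 (.cons 0x5610987342 .nil) (.node 4 7 (.cons 0x5612347890 .nil) (.node 7 9 (.cons 0x5614237980 .nil) .done .done) .done) .done)) .done)) .done))) .done)) .done)) (.node 3 6 (.cons 0x5412367890 .nil) tc9_1_31 .done))) (.node 1 4 (.cons 0x3214567890 .nil) tc9_1_30 (.node 2 5 (.cons 0x4325609871 .nil) tc9_1_28 .done))))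
theorem sub_c9_1_6 : root 9 refs9_1 [] 0x700000008706000000006030000000030500702000504000000004030000000030100000700102000000002018002000010 0xfe7fff3fffb7ff53ffcfffe7fff5ff79fff9fef9 9 1 7 (.cons 0x6543217890 .nil) uc9_1_6 = true := by decide +kernel
noncomputable def tc9_1_34 : T := (.node 3 5 (.cons 0x9012678354 .nil) (.node 3 7 (.cons 0x6543789012 .nil) (.node 1 3 .nil (.node 6 9 (.cons 0x4538769012 .nil) (.node 2 7 (.cons 0x5438726901 (.cons 0x2789654310 (.cons 0x8726901345 .nil))) .done (.node 0 2 (.cons 0x4538769021 (.cons 0x8769021354 .nil)) (.leaf 0x1345678902 0 (.node 0 7 (.cons 0x5438709621 (.cons 0x8709654312 (.cons 0x8709621345 (.cons 0x5413698702 .nil)))) .done .done)) .done)) .done) (.node 0 3 (.cons 0x4567890321 .nil) (.node 5 7 (.cons 0x4576123890 .nil) (.node 1 5 (.cons 0x7890651234 .nil) (.node 1 9 (.cons 0x4321987560 .nil) (.node 3 9 (.cons 0x4398756012 .nil) .done .done) .done) (.node 0 2 (.cons 0x4576120983 .nil) (.leaf 0x1675438902 0 (.node 0 5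 (.cons 0x9876321450 .nil) (.node 0 8 (.cons 0x9803675412 .nil) .done .done) .done)) .done)) .done) .done)) (.node 0 3 (.cons 0x4567890321 .nil) (.node 0 5 (.cons 0x9876321450 .nil) (.node 2 5 .nil (.node 0 7 (.cons 0x9870541236 (.cons 0x9870125436 (.cons 0x4523890761 .nil))) .done (.node 1 5 (.cons 0x7890651234 .nil) (.node 0 7 (.cons 0x9870541236 .nil) (.node 6 9 (.cons 0x7896321450 .nil) (.leaf 0x8705412369 0 (.node 0 2 (.cons 0x5436987021 .nil) (.node 2 4 (.cons 0x3698705421 .nil) .done .done) .done)) (.node 0 8 (.cons 0x9807614523 .nil) .done .done)) .done) .done)) (.node 1 3 (.cons 0x6789054132 .nil) (.node 3 7 (.cons 0x6543789012 .nil) (.node 3 9 (.cons 0x8762390541 .nil) .done .done) .done) .done)) (.node 0 8 .nil (.node 2 7 (.cons 0x6721098354 (.cons 0x9803276145 (.cons 0x9801276354 .nil))) (.node 7 9 (.cons 0x8790126543 (.cons 0x4536798012 (.cons 0x8097623541 (.cons 0x2145367980 .nil)))) .done .done) (.node 0 5 (.cons 0x9876321450 .nil) (.node 0 4 (.cons 0x7612389045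 .nil) (.node 3 9 .nil (.node 5 7 (.cons 0x4576123890 (.cons 0x4398756012 (.cons 0x6239087541 (.cons 0x9362145780 .nil)))) .done (.node 1 9 (.cons 0x6783219054 .nil) (.node 1 5 (.cons 0x7890651234 .nil) (.node 3 7 (.cons 0x8904567321 .nil) (.node 1 3 .nil (.node 4 9 (.cons 0x7894321560 (.cons 0x7809456231 (.cons 0x6549087312 .nil))) .done .done) .done) .done) .done) .done)) .done) .done) .done)) .done)) (.node 3 7 (.cons 0x6543789012 .nil) (.node 0 3 (.cons 0x4567890321 .nil) (.node 5 7 (.cons 0x4576123890 .nil) (.node 1 7 (.cons 0x6543217890 .nil) (.node 1 3 .nil (.node 0 8 (.cons 0x9087623541 (.cons 0x9087623145 .nil)) (.node 4 7 (.cons 0x5476123890 (.cons 0x9087456231 (.cons 0x5609874312 .nil))) .done .done) .done) .done) (.node 0 2 (.cons 0x6789023541 .nil) (.leaf 0x1675438902 0 (.node 0 8 (.cons 0x9087623541 .nil) (.node 0 4 (.cons 0x3890457612 .nil) (.node 0 5 (.cons 0x9876321450 .nil) .done .done) .done) .done)) .done)) .done) (.node 2 7 (.cons 0x4538901672 .nil)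 (.node 2 4 (.cons 0x9835427610 .nil) (.node 2 5 (.cons 0x6521098734 .nil) (.node 2 8 (.cons 0x7614532890 .nil) (.node 1 7 (.cons 0x6543217890 .nil) (.leaf 0x2890176534 0 .done) .done) .done) .done) (.node 1 3 .nil (.node 0 2 (.cons 0x6789023541 .nil) (.leaf 0x1345678902 0 (.node 0 8 (.cons 0x9087623541 (.cons 0x9087623145 .nil)) .done .done)) (.node 0 3 (.cons 0x4567890321 .nil) (.node 3 9 .nil (.node 0 4 (.cons 0x8904532761 (.cons 0x8765409321 .nil)) (.node 2 5 (.cons 0x6521098734 (.cons 0x9387625401 (.cons 0x8936725401 (.cons 0x6398725401 .nil)))) .done .done) .done) .done) .done)) .done)) .done)) .done))) (.node 1 3 .nil (.node 4 7 (.cons 0x5609874321 (.cons 0x5609874312 .nil)) (.node 2 4 (.cons 0x1324567890 .nil) (.node 5 7 (.cons 0x9012657834 (.cons 0x9012438756 (.cons 0x5761423890 (.cons 0x7561243890 .nil)))) .done (.node 2 5 (.cons 0x9874310652 .nil) (.node 0 3 (.cons 0x9830125674 (.cons 0x9876301254 (.cons 0x6789032541 .nil))) (.node 4 9 (.cons 0x8765490321 (.cons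 0x4903876521 .nil)) (.leaf 0x5678349012 0 .done) .done) (.node 4 9 (.cons 0x7834901265 (.cons 0x7652498310 (.cons 0x7894312560 .nil))) .done (.leaf 0x6521347890 0 .done))) .done)) (.node 1 9 (.cons 0x8743219065 .nil) (.node 1 7 (.cons 0x6543217890 .nil) (.node 1 8 .nil (.node 0 4 (.cons 0x9871234065 (.cons 0x7654098132 .nil)) .done (.node 6 9 (.cons 0x3218745690 (.cons 0x2318745690 .nil)) (.node 0 2 (.cons 0x3456987120 (.cons 0x8745690213 .nil)) (.leaf 0x1345678902 0 (.leaf 0x1387456902 0 .done)) .done) .done)) .done) (.node 0 7 (.cons 0x4563219870 (.cons 0x8709132654 .nil)) (.node 0 8 (.cons 0x9123654780 (.cons 0x6547809132 .nil)) (.node 5 8 (.cons 0x9065874321 (.cons 0x4589076132 (.cons 0x9065874312 .nil))) (.leaf 0x7432190658 0 .done) .done) .done) .done)) (.node 2 5 (.cons 0x7438901652 (.cons 0x9874310652 (.cons 0x8906741325 (.cons 0x4789065231 .nil)))) .done .done))) (.node 3 7 (.cons 0x6543789012 .nil) (.node 0 3 (.cons 0x4567890321 .nil) (.node 3 5 .nil (.node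 2 4 (.cons 0x7653890124 .nil) (.node 5 7 (.cons 0x9875601243 (.cons 0x9012438756 (.cons 0x5761423890 (.cons 0x7561243890 .nil)))) .done (.leaf 0x8901243567 0 .done)) (.node 3 9 .nil (.node 2 4 (.cons 0x8901673542 (.cons 0x3987654210 .nil)) (.node 6 8 (.cons 0x2453768901 .nil) (.node 2 5 (.cons 0x7689032541 (.cons 0x4106789352 (.cons 0x4526873901 .nil))) .done (.leaf 0x7689012453 0 .done)) .done) .done) .done)) (.node 3 5 .nil (.node 2 4 (.cons 0x7653890124 .nil) (.node 5 7 (.cons 0x9875601243 (.cons 0x9012438756 (.cons 0x5761423890 (.cons 0x7561243890 .nil)))) .done (.leaf 0x8901243567 0 .done)) (.node 3 9 .nil (.node 2 7 (.cons 0x8903276145 (.cons 0x6543987210 .nil)) (.node 4 8 (.cons 0x6735489012 (.cons 0x4893567210 (.cons 0x5627843901 .nil))) (.leaf 0x2765348901 0 .done) .done) .done) .done)) .done)) (.node 3 5 .nil (.node 2 4 (.cons 0x7653890124 .nil) (.node 1 5 (.cons 0x4237890651 .nil) (.leaf 0x8906512437 0 .done) (.leaf 0x8901243567 0 .done)) (.node 0 3 (.cons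 0x4567890321 .nil) (.node 3 9 .nil (.node 2 5 (.cons 0x9876301254 (.cons 0x6789301254 (.cons 0x8739014526 .nil))) .done .done) .done) .done)) .done)) .done)) (.node 3 5 (.cons 0x9014538762 .nil) (.node 6 8 .nil (.node 0 7 (.cons 0x5416709832 (.cons 0x9078654321 (.cons 0x7098612345 .nil))) (.node 0 5 (.cons 0x9876321450 (.cons 0x7689054123 .nil)) (.node 2 7 (.cons 0x5416723890 (.cons 0x9861450723 (.cons 0x5432709861 (.cons 0x9012786534 .nil)))) .done .done) .done) (.node 4 8 (.cons 0x9067841235 .nil) (.node 5 8 (.cons 0x9067853214 .nil) (.node 1 5 (.cons 0x7890651234 .nil) (.node 2 5 (.cons 0x7614523890 .nil) (.node 0 5 (.cons 0x9876321450 .nil) (.node 2 4 (.cons 0x9876051423 .nil) .done .done) .done) .done) .done) .done) .done)) (.node 0 3 (.cons 0x4567890321 .nil) (.node 3 7 (.cons 0x6543789012 .nil) (.node 6 8 (.cons 0x4537689012 .nil) (.node 4 8 (.cons 0x6735489012 .nil) (.node 5 8 (.cons 0x7609853214 .nil) (.node 0 5 (.cons 0x9876321450 .nil) (.node 0 7 (.cons 0x5437098612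 .nil) .done .done) .done) .done) .done) (.node 1 3 .nil (.node 0 5 (.cons 0x9876321450 (.cons 0x6789054132 .nil)) (.node 5 9 (.cons 0x7895063214 (.cons 0x8762314590 (.cons 0x2678314590 .nil))) .done .done) .done) .done)) (.node 3 9 (.cons 0x5410938762 .nil) (.node 3 7 (.cons 0x6543789012 .nil) (.node 1 3 .nil (.node 0 7 (.cons 0x5416709832 .nil) (.node 1 9 (.cons 0x8709132654 .nil) .done .done) .done) .done) .done) .done)) .done)) .done)))
noncomputable def tc9_1_35 : T := (.node 1 7 (.cons 0x6543217890 .nil) (.node 0 7 (.cons 0x9870651234 .nil) (.node 6 9 (.cons 0x8709654321 .nil) (.node 3 6 .nil (.node 2 5 (.cons 0x4325178960 (.cons 0x8714523690 .nil)) (.leaf 0x9871254360 0 .done) (.node 6 8 (.cons 0x9078654321 .nil) (.node 4 6 .nil (.node 0 3 (.cons 0x4567890321 (.cons 0x8903217645 (.cons 0x9876451230 .nil))) (.node 1 9 (.cons 0x3456870912 (.cons 0x8709123465 (.cons 0x8719032645 .nil))) .done .done) .done) .done) .done)) (.node 1 3 (.cons 0x8709654312 .nil) (.node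 1 8 (.cons 0x3456907812 .nil) (.node 1 9 (.cons 0x8709123456 .nil) .done .done) .done) .done)) (.node 1 8 (.cons 0x7098165432 .nil) (.node 1 3 .nil (.node 1 9 (.cons 0x8709132654 .nil) .done .done) (.node 0 8 (.cons 0x9087654123 .nil) (.node 1 3 (.cons 0x9078132654 .nil) (.node 1 9 .nil (.node 3 8 (.cons 0x9012654387 (.cons 0x9107834562 (.cons 0x2387654190 .nil))) .done .done) .done) .done) .done)) .done)) (.node 1 3 .nil (.node 0 8 (.cons 0x9087654123 (.cons 0x9087654132 .nil)) (.node 6 9 (.cons 0x7809621345 .nil) (.node 0 7 (.cons 0x9870651234 (.cons 0x8709654321 (.cons 0x7089615432 .nil))) .done (.node 2 7 (.cons 0x7234516980 (.cons 0x2789654310 (.cons 0x8726901345 .nil))) .done .done)) (.node 6 9 (.cons 0x7809654123 (.cons 0x7809654132 .nil)) (.node 0 7 (.cons 0x9870651234 (.cons 0x8709654312 (.cons 0x8709621345 .nil))) (.node 1 8 (.cons 0x5431870962 .nil) .done .done) .done) .done)) (.node 1 8 .nil (.node 0 7 (.cons 0x9870651234 (.cons 0x9078123456 (.cons 0x7098165432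 .nil))) (.node 5 7 (.cons 0x8907543216 (.cons 0x9065781234 (.cons 0x9065781432 .nil))) (.leaf 0x981623457 0 .done) .done) (.node 1 9 .nil (.node 0 7 (.cons 0x9870651234 (.cons 0x8709123456 .nil)) (.node 5 8 (.cons 0x4589076123 (.cons 0x4587623190 (.cons 0x6219078543 .nil))) .done (.node 3 8 (.cons 0x9012654387 (.cons 0x9107834562 (.cons 0x2387654190 .nil))) (.node 2 5 (.cons 0x8907165234 (.cons 0x8325670914 (.cons 0x6523870914 .nil))) .done .done) .done)) .done) .done)) .done)) .done)) (.node 4 7 (.cons 0x5609874321 .nil) (.leaf 0x6512347890 0 (.node 3 6 (.cons 0x6321547890 .nil) (.node 0 4 (.cons 0x9874063215 .nil) (.node 0 5 (.cons 0x8905476123 .nil) (.node 0 3 (.cons 0x4567890321 .nil) (.node 2 4 (.cons 0x9876301245 .nil) (.node 2 5 (.cons 0x9876301254 .nil) (.node 3 5 .nil (.node 4 8 (.cons 0x7612309845 (.cons 0x7489061532 (.cons 0x9035487621 .nil))) .done (.node 5 9 (.cons 0x4789512360 .nil) (.node 1 3 (.cons 0x6789542130 .nil) (.node 3 8 (.cons 0x9836745210 .nil)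 .done .done) .done) .done)) .done) .done) (.node 0 7 .nil (.node 1 9 (.cons 0x8765419032 (.cons 0x8912367045 .nil)) (.node 4 8 (.cons 0x5678419032 (.cons 0x5670489123 (.cons 0x5623487091 (.cons 0x5621907843 .nil)))) .done .done) .done) .done)) (.node 2 4 (.cons 0x9874236051 .nil) (.node 2 5 (.cons 0x9874360125 .nil) (.node 5 9 (.cons 0x4789512360 .nil) (.node 2 7 (.cons 0x8951274063 .nil) (.node 0 7 (.cons 0x8956340721 .nil) (.node 3 7 (.cons 0x1243789560 .nil) (.leaf 0x8956012437 0 .done) .done) .done) .done) .done) .done) .done)) (.node 1 9 (.cons 0x5198740632 .nil) (.node 1 3 (.cons 0x8762319045 .nil) (.node 1 7 (.cons 0x6543217890 .nil) (.node 1 8 (.cons 0x5409187623 .nil) .done .done) .done) (.node 0 7 (.cons 0x4078915632 .nil) (.node 0 5 (.cons 0x8905476123 .nil) (.node 2 5 (.cons 0x6325198740 .nil) (.node 0 3 (.cons 0x4567890321 .nil) (.node 1 3 (.cons 0x8913250476 .nil) .done .done) .done) .done) .done) .done)) .done)) (.node 2 5 (.cons 0x4789063251 .nil) (.node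 6 9 (.cons 0x5210698743 .nil) (.node 2 4 (.cons 0x9874251063 .nil) (.node 0 4 (.cons 0x9874063251 .nil) (.node 4 9 .nil (.node 1 3 (.cons 0x5213478960 (.cons 0x7894065132 (.cons 0x2549876310 (.cons 0x1325678940 .nil)))) .done .done) .done) .done) .done) (.node 2 4 .nil (.node 3 8 (.cons 0x5476123890 (.cons 0x9836015247 (.cons 0x9015426387 (.cons 0x5247638901 .nil)))) .done (.node 2 7 .nil (.node 3 8 (.cons 0x5476123890 (.cons 0x9836015274 (.cons 0x4527638901 (.cons 0x6389015274 .nil)))) .done (.node 4 6 (.cons 0x8901527463 .nil) (.node 4 8 (.cons 0x5163274890 .nil) (.node 6 9 (.cons 0x3278415690 .nil) .done .done) .done) .done)) .done)) .done)) .done)) (.node 1 9 .nil (.node 3 8 (.cons 0x9065147832 (.cons 0x6238745190 (.cons 0x4783265190 (.cons 0x2387654190 .nil)))) (.node 1 8 (.cons 0x5623478190 .nil) (.node 2 5 (.cons 0x3254761890 (.cons 0x1987432560 (.cons 0x7438910652 .nil))) .done .done) .done) (.node 1 3 (.cons 0x4789065132 .nil) (.node 1 7 (.cons 0x6543217890 .nil)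 (.node 1 8 .nil (.node 7 9 (.cons 0x8790126543 (.cons 0x3456218790 .nil)) .done .done) .done) (.node 1 7 (.cons 0x6543217890 .nil) (.node 1 8 .nil (.node 0 2 (.cons 0x6513209874 (.cons 0x9817432065 (.cons 0x5476189023 (.cons 0x7456189023 .nil)))) .done .done) .done) .done)) (.node 1 8 (.cons 0x5623478190 .nil) (.node 1 3 (.cons 0x4789065132 .nil) (.node 1 7 (.cons 0x6543217890 .nil) .done .done) (.node 1 3 (.cons 0x4789065132 .nil) (.node 1 7 (.cons 0x6543217890 .nil) .done .done) .done)) .done))) (.node 2 5 (.cons 0x3478906521 .nil) (.node 1 9 (.cons 0x3478912560 .nil) (.node 7 9 (.cons 0x8790126543 .nil) (.node 1 7 (.cons 0x6543217890 .nil) (.node 1 3 (.cons 0x9874312560 .nil) (.node 1 8 .nil (.node 0 5 (.cons 0x6509874312 (.cons 0x6509781234 (.cons 0x8126509743 (.cons 0x4326509781 .nil)))) .done .done) .done) .done) (.node 4 9 .nil (.node 3 8 (.cons 0x6254387910 (.cons 0x2387941560 (.cons 0x5126094783 (.cons 0x5678321490 (.cons 0x3876254910 .nil))))) .done (.node 3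 9 (.cons 0x8765412390 .nil) (.node 1 3 (.cons 0x9874312560 .nil) (.node 1 7 (.cons 0x6543217890 .nil) (.node 1 8 (.cons 0x9781432560 .nil) .done .done) .done) .done) .done)) .done)) (.node 7 9 (.cons 0x8790126543 .nil) (.node 1 7 (.cons 0x6543217890 .nil) (.node 1 3 (.cons 0x9874312560 .nil) (.node 1 8 .nil (.node 0 3 (.cons 0x6521987430 (.cons 0x9032187654 (.cons 0x6034798125 (.cons 0x6230978154 .nil)))) .done .done) .done) .done) (.node 1 8 (.cons 0x9781432560 .nil) (.node 1 3 (.cons 0x9874312560 .nil) (.node 1 7 (.cons 0x6543217890 .nil) .done .done) (.node 1 3 (.cons 0x9874312560 .nil) (.node 1 7 (.cons 0x6543217890 .nil) .done .done) .done)) .done)) .done)) (.node 5 9 .nil (.node 1 3 (.cons 0x5609874312 (.cons 0x2134789560 (.cons 0x8743126095 (.cons 0x8743126590 .nil)))) .done (.node 7 9 (.cons 0x8790126543 .nil) (.node 0 5 .nil (.node 3 5 (.cons 0x8974350612 .nil) (.node 5 7 (.cons 0x8975061234 .nil) .done .done) (.node 3 5 .nil (.node 4 8 (.cons 0x8450976123 (.cons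 0x4897601253 (.cons 0x7612354890 (.cons 0x4879062351 .nil)))) .done (.node 5 7 .nil (.node 2 4 (.cons 0x8795342601 (.cons 0x9875601243 (.cons 0x9875342106 .nil))) .done .done) .done)) .done)) (.node 1 9 .nil (.node 3 5 (.cons 0x8790126534 (.cons 0x2198743560 (.cons 0x8743560912 .nil))) .done (.node 1 7 (.cons 0x6543217890 .nil) (.node 0 5 (.cons 0x8719506234 .nil) (.node 1 3 (.cons 0x5609874312 .nil) (.node 1 8 (.cons 0x6509781234 .nil) .done .done) .done) .done) .done)) .done)) (.node 6 9 .nil (.node 0 8 (.cons 0x9087654123 (.cons 0x7809654123 .nil)) (.node 3 8 (.cons 0x7438906521 (.cons 0x5214769083 (.cons 0x7690832541 .nil))) (.node 0 7 (.cons 0x9834706521 (.cons 0x8709654321 (.cons 0x9670832541 .nil))) .done .done) (.node 1 7 (.cons 0x6543217890 (.cons 0x5432690871 (.cons 0x5690871432 .nil))) (.node 0 2 (.cons 0x9802345617 (.cons 0x3459620871 (.cons 0x9654178023 .nil))) .done .done) .done)) (.node 3 6 .nil (.node 7 9 (.cons 0x8790126543 (.cons 0x8790126345 .nil))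 (.node 0 8 (.cons 0x9087654123 (.cons 0x7809543621 (.cons 0x8097412563 .nil))) (.node 2 7 (.cons 0x8097234165 (.cons 0x4365279801 (.cons 0x8721436095 .nil))) .done .done) .done) (.node 4 6 .nil (.node 0 3 (.cons 0x4567890321 (.cons 0x5467890321 .nil)) (.node 7 9 (.cons 0x8790126543 (.cons 0x8790321546 (.cons 0x8790321564 .nil))) .done (.leaf 0x2154678903 0 (.node 1 7 (.cons 0x6543217890 (.cons 0x8903254671 (.cons 0x5643217890 .nil))) (.node 7 9 (.cons 0x8790126543 (.cons 0x8790326451 (.cons 0x8971034652 .nil))) .done .done) .done))) .done) .done)) .done)) .done))) .done)) .done)))) .done))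
noncomputable def tc9_1_36 : T := (.node 1 5 (.cons 0x7890651234 .nil) (.node 1 7 (.cons 0x6543217890 .nil) (.node 1 3 .nil (.node 4 7 (.cons 0x5609874321 (.cons 0x5609874312 .nil)) (.node 1 9 (.cons 0x8743219065 .nil) (.node 7 9 (.cons 0x8790126543 (.cons 0x8790134562 .nil)) (.node 1 8 (.cons 0x3456218790 .nil) (.node 6 9 (.cons 0x3218745690 (.cons 0x2318745690 .nil)) .done .done) .done) (.node 0 7 (.cons 0x8709132654 .nil) (.node 3 6 (.cons 0x4563219870 (.cons 0x2365419870 .nil)) .done .done) .done)) (.node 0 2 (.cons 0x8902316745 (.cons 0x6547890231 .nil)) (.node 1 8 (.cons 0x7432098165 (.cons 0x7456189023 .nil)) .done (.leaf 0x1345678902 0 .done)) .done)) (.node 1 8 .nil (.node 0 7 (.cons 0x9078123456 (.cons 0x7098165432 .nil)) (.leaf 0x2189076543 0 .done) (.node 1 9 .nil (.node 0 7 (.cons 0x8709123456 (.cons 0x5607891432 .nil)) (.node 3 9 (.cons 0x8932145670 (.cons 0x9326541870 .nil)) (.node 4 6 (.cons 0x8764512390 (.cons 0x5462390781 (.cons 0x5462187093 .nil)))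 .done .done) .done) .done) .done)) .done)) (.node 4 6 (.cons 0x5643217890 .nil) (.node 4 8 (.cons 0x9065123487 .nil) (.node 6 9 (.cons 0x3215487690 .nil) (.node 1 3 .nil (.node 0 5 (.cons 0x2346509871 (.cons 0x5098467132 (.cons 0x4650987132 (.cons 0x9054876231 .nil)))) .done (.node 1 8 .nil (.node 0 5 (.cons 0x2346509871 (.cons 0x7645098132 (.cons 0x9054623187 (.cons 0x7813450962 .nil)))) .done (.node 1 9 .nil (.node 0 5 (.cons 0x2346509871 (.cons 0x5091784623 (.cons 0x3267845091 .nil))) (.node 2 7 (.cons 0x8905467231 (.cons 0x8913276450 (.cons 0x8723460915 .nil))) .done .done) .done) .done)) .done)) .done) (.node 2 7 (.cons 0x9065127843 .nil) (.node 6 9 (.cons 0x3456987210 .nil) (.node 1 3 .nil (.node 0 2 (.cons 0x5643209871 (.cons 0x7654890213 (.cons 0x5467890231 .nil))) (.node 3 7 (.cons 0x8731209654 (.cons 0x8731546902 (.cons 0x9845613720 .nil))) .done .done) (.node 1 8 .nil (.node 0 5 (.cons 0x6987213450 (.cons 0x9813276450 (.cons 0x9054623187 (.cons 0x9627813450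 .nil)))) .done (.node 1 9 .nil (.node 0 3 (.cons 0x9876541230 (.cons 0x8721965430 (.cons 0x7219843065 (.cons 0x9156034872 .nil)))) .done .done) .done)) .done)) .done) (.node 3 6 (.cons 0x9063487215 .nil) (.node 6 8 .nil (.node 3 9 (.cons 0x5621784390 (.cons 0x7862109345 (.cons 0x5109346872 .nil))) (.leaf 0x934872156 0 (.leaf 0x4390127865 0 .done)) .done) .done) .done)) .done)) (.node 6 9 .nil (.node 4 8 (.cons 0x9065123487 (.cons 0x3215487690 (.cons 0x2348715690 .nil))) .done (.node 1 3 .nil (.node 0 2 (.cons 0x5698714320 (.cons 0x5467890213 (.cons 0x7896541320 .nil))) (.leaf 0x1345678902 0 .done) (.node 1 8 .nil (.node 0 7 (.cons 0x2345690781 (.cons 0x5432690781 (.cons 0x7098165432 .nil))) (.leaf 0x2189076543 0 .done) (.node 1 9 .nil (.node 4 7 (.cons 0x5478132690 (.cons 0x8743219065 (.cons 0x3265478190 .nil))) (.node 4 8 (.cons 0x2348715690 (.cons 0x5487623190 .nil)) .done .done) .done) .done)) .done)) .done)) .done)) .done)) (.node 1 7 (.cons 0x6543217890 .nil) (.node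 6 9 (.cons 0x8712345690 .nil) (.node 4 6 .nil (.node 3 6 .nil (.node 0 8 (.cons 0x2345690871 (.cons 0x9087123645 (.cons 0x9087154632 .nil))) .done (.node 3 7 (.cons 0x6543789012 (.cons 0x6451237890 (.cons 0x4651237890 .nil))) (.node 3 8 (.cons 0x9012654387 (.cons 0x2387154690 .nil)) (.node 2 4 (.cons 0x7389015642 (.cons 0x5178324690 .nil)) .done .done) .done) .done)) (.node 4 7 (.cons 0x5609874321 .nil) (.node 3 6 (.cons 0x6321547890 .nil) (.node 6 8 .nil (.node 0 3 (.cons 0x9876541230 (.cons 0x2309687451 (.cons 0x5476890321 (.cons 0x4517869032 (.cons 0x9032687451 .nil))))) .done .done) .done) (.node 0 7 .nil (.node 1 8 (.cons 0x5432690781 (.cons 0x5618907432 .nil)) (.leaf 0x2189076543 0 .done) (.node 3 6 (.cons 0x8907451632 .nil) (.node 6 8 (.cons 0x7098612345 .nil) .done .done) .done)) .done)) .done)) (.node 4 6 .nil (.node 0 3 (.cons 0x9876541230 (.cons 0x5467890321 .nil)) (.node 1 8 (.cons 0x9032187654 (.cons 0x9032187645 .nil)) (.node 7 9 (.cons 0x8790126543 (.cons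 0x8790321546 (.cons 0x8790321564 (.cons 0x4651879032 .nil)))) .done .done) (.leaf 0x2154678903 0 (.node 3 7 (.cons 0x6543789012 (.cons 0x6451237890 (.cons 0x4651237890 .nil))) (.node 3 6 .nil (.node 0 8 (.cons 0x3456908712 (.cons 0x9087123645 .nil)) .done .done) .done) .done))) (.node 4 7 (.cons 0x5609874321 .nil) (.node 3 6 (.cons 0x6321547890 .nil) (.node 6 8 .nil (.node 0 3 (.cons 0x9876541230 (.cons 0x3096874512 (.cons 0x5476890321 (.cons 0x5430968712 (.cons 0x9032687451 .nil))))) .done .done) .done) (.node 4 8 .nil (.node 3 9 (.cons 0x8456712390 (.cons 0x5178460932 (.cons 0x7843901265 (.cons 0x4871560932 .nil)))) (.node 1 8 (.cons 0x7815462390 (.cons 0x5621874390 .nil)) .done .done) (.node 4 9 (.cons 0x8712349065 .nil) (.node 2 4 .nil (.node 5 7 (.cons 0x3216754890 (.cons 0x9875601243 (.cons 0x7516098423 .nil))) .done .done) .done) .done)) .done)) .done)) .done)) (.node 1 8 .nil (.node 0 7 (.cons 0x9078123456 (.cons 0x7098165432 .nil)) (.leaf 0x2189076543 0 .done)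 (.node 1 9 .nil (.node 0 7 (.cons 0x8709123456 (.cons 0x5607891432 .nil)) (.node 4 7 (.cons 0x8743219065 (.cons 0x5623478190 .nil)) (.node 2 5 (.cons 0x3478906521 (.cons 0x3478912560 (.cons 0x6521890743 .nil))) .done .done) .done) .done) .done)) (.node 4 6 (.cons 0x5643217890 .nil) (.node 1 8 .nil (.node 0 7 (.cons 0x9078123456 (.cons 0x9078154623 (.cons 0x7098165432 .nil))) (.leaf 0x2189076543 0 .done) (.node 1 9 .nil (.node 0 7 (.cons 0x9078154623 (.cons 0x8709123456 (.cons 0x8709154623 (.cons 0x5607891432 .nil)))) .done .done) .done)) (.node 1 9 .nil (.node 0 7 (.cons 0x8709123456 (.cons 0x5607891432 .nil)) (.node 2 5 (.cons 0x3465217890 (.cons 0x8907125643 .nil)) (.leaf 0x6523419870 0 .done) (.node 4 7 (.cons 0x5609874321 (.cons 0x8743219065 .nil)) (.node 5 8 (.cons 0x2347165890 (.cons 0x5891607432 (.cons 0x4326587190 (.cons 0x6219078543 .nil)))) .done .done) .done)) (.node 1 8 .nil (.node 0 7 (.cons 0x9078123456 (.cons 0x7098165432 .nil)) (.leaf 0x2189076543 0 (.node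 0 4 (.cons 0x9045678123 (.cons 0x7654098123 (.cons 0x5409187623 .nil))) (.node 5 7 (.cons 0x8907543216 (.cons 0x9875604321 (.cons 0x9065781234 (.cons 0x6234578190 .nil)))) (.leaf 0x981623457 0 .done) .done) .done)) .done) .done)) .done)) .done))) .done)) (.node 1 5 (.cons 0x7890651234 .nil) tc9_1_35 (.node 3 6 (.cons 0x5412367890 .nil) (.node 3 8 (.cons 0x9012654387 .nil) tc9_1_34 (.node 6 9 .nil (.node 0 3 (.cons 0x4567890321 (.cons 0x8769032145 .nil)) (.node 0 5 (.cons 0x2367890541 (.cons 0x8769054123 .nil)) (.node 1 7 (.cons 0x6543217890 (.cons 0x2369871450 (.cons 0x8712345690 .nil))) (.node 2 7 (.cons 0x6327890541 (.cons 0x3456987210 .nil)) (.node 3 7 (.cons 0x6543789012 (.cons 0x6987321450 (.cons 0x8734569012 .nil))) .done .done) .done) (.node 1 7 (.cons 0x6543217890 (.cons 0x8967145032 (.cons 0x8712345690 (.cons 0x8714326905 .nil)))) .done .done)) (.node 5 8 (.cons 0x7612309854 (.cons 0x9621034587 (.cons 0x7854309621 .nil))) (.node 0 7 (.cons 0x7098541632 (.cons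 0x8709654321 (.cons 0x3269078541 .nil))) .done (.node 2 7 (.cons 0x3276145890 (.cons 0x3456987210 (.cons 0x3458726901 (.cons 0x5872690143 .nil)))) .done .done)) .done)) (.node 6 8 .nil (.node 0 7 (.cons 0x9078654321 (.cons 0x7098612345 .nil)) (.node 1 5 (.cons 0x7890651234 (.cons 0x9870651234 .nil)) (.node 0 3 (.cons 0x7689032145 (.cons 0x7869034512 .nil)) (.node 2 8 (.cons 0x9654307821 (.cons 0x2870963451 (.cons 0x5143690782 (.cons 0x7098236145 .nil)))) .done .done) (.node 2 5 (.cons 0x1452367890 (.cons 0x9870632514 (.cons 0x8907632541 .nil))) .done .done)) (.node 2 5 (.cons 0x1452367890 (.cons 0x7098614523 .nil)) (.node 3 9 (.cons 0x8932541670 (.cons 0x1452398670 (.cons 0x9345268701 (.cons 0x9341078625 .nil)))) .done (.node 1 7 (.cons 0x6543217890 (.cons 0x9860714325 (.cons 0x4325689071 .nil))) (.node 0 2 (.cons 0x8712096543 (.cons 0x9023687145 .nil)) (.node 0 8 (.cons 0x9086325417 .nil) .done .done) .done) .done)) .done)) (.node 4 6 .nil (.node 0 3 (.cons 0x4567890321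 (.cons 0x5467890321 .nil)) (.node 3 7 (.cons 0x6543789012 (.cons 0x5643789012 .nil)) (.node 3 5 (.cons 0x8769035412 .nil) (.node 0 5 (.cons 0x2367890541 (.cons 0x9873214605 .nil)) (.node 1 3 (.cons 0x6789054132 (.cons 0x5098764132 .nil)) .done .done) .done) (.node 2 5 (.cons 0x1452367890 (.cons 0x9873460125 (.cons 0x8901254673 (.cons 0x2546378901 .nil)))) .done .done)) (.node 1 7 (.cons 0x6543217890 (.cons 0x5643217890 .nil)) (.node 1 5 (.cons 0x7890651234 .nil) (.node 0 5 (.cons 0x2367890541 .nil) (.leaf 0x2178905643 0 (.node 1 3 (.cons 0x6789054132 (.cons 0x5098764132 .nil)) .done .done)) (.leaf 0x2154678903 0 .done)) (.node 1 5 (.cons 0x7890651234 .nil) (.node 0 7 (.cons 0x9870651234 (.cons 0x9870643215 .nil)) (.node 0 8 (.cons 0x3456908712 (.cons 0x9803215467 .nil)) (.node 2 8 (.cons 0x7098234561 (.cons 0x9823076451 (.cons 0x9823076415 .nil))) .done .done) .done) (.leaf 0x2154678903 0 .done)) .done)) .done)) .done) .done)) .done)) .done)) .done)))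
noncomputable def tc9_1_37 : T := (.node 3 6 (.cons 0x8790126345 .nil) (.node 2 7 .nil (.node 5 8 (.cons 0x6210978543 (.cons 0x6345897210 (.cons 0x2798543610 .nil))) (.node 1 3 (.cons 0x6543109872 .nil) (.node 4 6 (.cons 0x5643217890 (.cons 0x1326458790 (.cons 0x3126458790 .nil))) .done (.node 4 6 (.cons 0x5643217890 (.cons 0x8546310972 (.cons 0x8546312790 .nil))) .done (.leaf 0x987265431 0 .done))) (.node 1 3 (.cons 0x6213458790 (.cons 0x9065872134 .nil)) (.leaf 0x987265431 0 .done) .done)) (.node 3 7 (.cons 0x6543789012 .nil) (.node 1 3 .nil (.node 6 8 (.cons 0x5436897210 (.cons 0x5431097862 (.cons 0x5431268790 .nil))) .done (.node 0 3 (.cons 0x4567890321 .nil) (.node 0 7 .nil (.node 1 8 (.cons 0x7098123654 .nil) (.leaf 0x2189076543 0 .done) .done) .done) .done)) (.node 3 9 (.cons 0x6543987210 .nil) (.node 1 8 (.cons 0x9018734562 .nil) (.node 3 8 (.cons 0x6210978345 .nil) (.node 3 5 (.cons 0x9872106534 .nil) (.node 1 3 .nil (.node 6 8 (.cons 0x5436897210 (.cons 0x5431097862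 (.cons 0x5431268790 .nil))) .done .done) .done) .done) (.node 1 9 (.cons 0x4562378190 .nil) (.node 1 5 (.cons 0x7890651234 .nil) (.node 1 4 (.cons 0x3214567890 .nil) (.node 1 3 .nil (.node 2 4 (.cons 0x9065187324 (.cons 0x8901376542 .nil)) .done .done) .done) .done) .done) .done)) .done) .done)) .done)) (.node 2 7 .nil (.node 0 2 (.cons 0x8972016345 (.cons 0x9872016345 .nil)) (.node 2 5 (.cons 0x8972543610 .nil) (.node 2 4 (.cons 0x8901724365 .nil) (.node 3 5 (.cons 0x2453678901 (.cons 0x8972016354 .nil)) (.node 1 8 (.cons 0x9018763542 (.cons 0x9018726345 (.cons 0x9018724536 .nil))) .done .done) .done) .done) .done) (.node 3 7 (.cons 0x6543789012 .nil) (.node 4 6 (.cons 0x5643217890 .nil) (.node 0 7 (.cons 0x8907123465 .nil) (.node 4 7 (.cons 0x5609874321 .nil) (.node 5 7 .nil (.node 3 8 (.cons 0x6210978345 (.cons 0x5798346012 (.cons 0x9834601275 (.cons 0x9834657210 .nil)))) .done .done) .done) .done) (.node 6 8 .nil (.node 0 3 (.cons 0x4567890321 (.cons 0x6897210345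 .nil)) (.node 2 5 (.cons 0x3465217890 (.cons 0x9037864521 .nil)) (.leaf 0x9871256430 0 .done) .done) .done) .done)) .done) .done)) .done)) (.node 1 4 (.cons 0x3214567890 .nil) (.node 1 8 (.cons 0x5609781432 .nil) (.node 1 3 (.cons 0x8790134562 .nil) (.node 1 5 (.cons 0x6234518790 .nil) (.node 1 9 .nil (.node 3 8 (.cons 0x2654387901 (.cons 0x2654387910 (.cons 0x2387654190 .nil))) (.node 5 7 (.cons 0x9012657834 (.cons 0x4321987560 (.cons 0x8756091234 (.cons 0x4387562190 .nil)))) .done .done) .done) .done) .done) (.node 1 5 (.cons 0x8790651432 .nil) (.node 1 3 (.cons 0x4562318790 .nil) (.node 1 9 .nil (.node 3 8 (.cons 0x2654387901 (.cons 0x2654387910 (.cons 0x2387654190 .nil))) (.node 5 7 (.cons 0x9012657834 (.cons 0x4321987560 (.cons 0x8756091234 (.cons 0x4387562190 .nil)))) .done .done) .done) .done) .done) .done)) (.node 0 7 (.cons 0x8907654123 .nil) (.node 1 8 (.cons 0x9078123456 .nil) (.node 1 9 (.cons 0x8709123456 .nil) (.node 1 3 (.cons 0x8790134562 .nil) (.node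 1 5 (.cons 0x6234518790 .nil) .done .done) .done) (.node 6 9 (.cons 0x8709654321 .nil) (.leaf 0x5690781234 0 (.node 1 9 (.cons 0x8709123456 .nil) (.node 4 9 (.cons 0x6549078123 .nil) .done .done) .done)) .done)) (.node 2 7 .nil (.node 1 3 (.cons 0x8790134562 .nil) (.node 0 8 (.cons 0x8097654132 (.cons 0x8097231456 .nil)) (.node 5 8 (.cons 0x8562341790 (.cons 0x1432798560 (.cons 0x8560972314 (.cons 0x9085627143 .nil)))) .done .done) (.leaf 0x987265431 0 .done)) (.node 3 7 (.cons 0x6543789012 .nil) (.node 4 7 (.cons 0x5609874321 .nil) (.node 4 9 (.cons 0x5601278943 .nil) (.node 5 7 (.cons 0x5789432160 .nil) .done .done) .done) .done) .done)) .done)) (.node 1 8 .nil (.node 0 7 (.cons 0x9078123456 .nil) (.leaf 0x2189076543 0 (.node 0 3 (.cons 0x4567890321 (.cons 0x9032187654 (.cons 0x9032678145 .nil))) (.node 2 5 (.cons 0x8976145230 (.cons 0x6798145230 (.cons 0x6189703254 .nil))) (.leaf 0x7981625430 0 .done) .done) .done)) (.node 1 9 .nil (.node 0 4 (.cons 0x3265409781 (.cons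 0x8765409123 (.cons 0x7819045623 .nil))) (.node 0 8 (.cons 0x5617980432 (.cons 0x5432619780 (.cons 0x5419087623 .nil))) .done .done) (.node 1 3 (.cons 0x4562318790 .nil) (.node 1 5 (.cons 0x7890651234 .nil) .done .done) .done)) .done)) .done))) (.node 1 8 (.cons 0x3456218790 .nil) (.node 3 6 (.cons 0x5436218790 .nil) (.node 6 9 .nil (.node 0 7 (.cons 0x8709654321 (.cons 0x5432169870 (.cons 0x5432690781 .nil))) (.node 1 4 (.cons 0x3214567890 (.cons 0x8907654123 .nil)) (.node 0 8 (.cons 0x7809654123 (.cons 0x5690871432 .nil)) .done .done) .done) (.node 4 6 (.cons 0x5643217890 .nil) (.node 6 8 .nil (.node 1 3 (.cons 0x2134568790 .nil) (.node 0 5 (.cons 0x3465098712 (.cons 0x7905436812 (.cons 0x7813269054 .nil))) (.leaf 0x4312687905 0 (.node 2 4 (.cons 0x7632450981 (.cons 0x9781342605 (.cons 0x5097186243 (.cons 0x9876132450 .nil)))) .done .done)) .done) .done) .done) .done)) (.node 1 4 (.cons 0x3214567890 .nil) (.node 6 9 .nil (.node 0 8 (.cons 0x9087654123 (.cons 0x7809654123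 (.cons 0x5690871432 .nil))) .done (.node 4 6 (.cons 0x5643217890 .nil) (.node 6 8 .nil (.node 5 9 (.cons 0x2367814590 (.cons 0x2341786590 .nil)) (.node 0 3 (.cons 0x4567890321 (.cons 0x5430978621 .nil)) (.node 2 5 (.cons 0x3465217890 (.cons 0x7968125430 (.cons 0x4521867903 .nil))) .done (.leaf 0x4562187903 0 .done)) .done) .done) .done) .done)) (.node 4 6 (.cons 0x5643217890 .nil) (.node 6 8 .nil (.node 0 3 (.cons 0x4567890321 (.cons 0x5430978621 .nil)) (.node 2 5 (.cons 0x7632541890 (.cons 0x4521867903 (.cons 0x7903681452 .nil))) (.node 3 5 (.cons 0x9035467812 (.cons 0x4530976812 .nil)) .done .done) (.leaf 0x4562187903 0 .done)) .done) .done) .done)) .done)) (.node 1 5 (.cons 0x7890651234 .nil) (.node 1 4 (.cons 0x3214567890 .nil) (.node 2 4 (.cons 0x8790651243 .nil) (.node 0 8 (.cons 0x9780651243 .nil) (.node 1 9 .nil (.node 0 7 (.cons 0x8907654123 (.cons 0x8709123456 (.cons 0x2345619870 .nil))) .done (.node 1 3 .nil (.node 4 9 (.cons 0x6780945123 (.cons 0x7813265490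 .nil)) .done .done) .done)) (.node 1 3 (.cons 0x9780651342 .nil) (.node 1 9 .nil (.node 0 3 (.cons 0x4567890321 (.cons 0x8791243065 (.cons 0x7654230891 .nil))) .done .done) .done) .done)) (.node 1 3 .nil (.node 3 5 (.cons 0x6245318790 .nil) (.leaf 0x4267890135 0 (.leaf 0x9781354260 0 .done)) (.node 1 9 .nil (.node 0 4 (.cons 0x8765409123 (.cons 0x7819045623 .nil)) (.node 5 8 (.cons 0x6213458790 (.cons 0x4587623190 (.cons 0x9045876213 .nil))) (.leaf 0x4312658790 0 .done) .done) .done) .done)) .done)) (.node 1 9 .nil (.node 4 7 (.cons 0x5609874321 (.cons 0x8743219065 (.cons 0x3265478190 .nil))) (.node 4 8 (.cons 0x3487906512 (.cons 0x5623487190 .nil)) (.node 2 7 (.cons 0x9065127843 .nil) (.node 0 7 (.cons 0x8709123456 (.cons 0x2345619870 .nil)) (.node 3 6 (.cons 0x5412367890 (.cons 0x9812365470 (.cons 0x5190634872 .nil))) .done .done) .done) .done) .done) (.node 1 3 .nil (.node 4 9 (.cons 0x7813265490 .nil) (.node 0 8 (.cons 0x6780945123 (.cons 0x5623490871 .nil)) (.node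 3 5 (.cons 0x5321498760 (.cons 0x8097621453 (.cons 0x9087623541 .nil))) .done .done) .done) .done) .done)) .done)) (.node 1 4 (.cons 0x3214567890 .nil) (.node 0 8 (.cons 0x9087654123 .nil) (.node 3 6 (.cons 0x9087632145 .nil) (.node 6 9 .nil (.node 0 3 (.cons 0x4567890321 (.cons 0x5430879612 (.cons 0x7814569032 .nil))) .done (.node 4 6 (.cons 0x5643217890 .nil) (.node 6 8 (.cons 0x7908621543 .nil) .done .done) .done)) (.node 2 7 (.cons 0x8097263451 .nil) (.node 2 5 (.cons 0x9087632541 .nil) (.node 2 8 (.cons 0x7908263451 .nil) (.node 3 8 (.cons 0x4389721560 .nil) (.leaf 0x6521438790 0 .done) .done) .done) (.leaf 0x6279081543 0 .done)) .done)) (.node 1 3 (.cons 0x9087654132 .nil) (.node 1 9 .nil (.node 2 5 (.cons 0x8790652143 (.cons 0x6254319780 .nil)) (.node 4 7 (.cons 0x5609874321 (.cons 0x9147806523 (.cons 0x8091547623 (.cons 0x3265478190 .nil)))) .done .done) .done) .done) .done)) (.node 1 9 .nil (.node 4 7 (.cons 0x5609874321 (.cons 0x8743219065 (.cons 0x3265478190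 .nil))) (.node 0 8 (.cons 0x3479806512 (.cons 0x5419087623 .nil)) (.node 3 6 (.cons 0x5412367890 (.cons 0x5476321980 (.cons 0x2367451980 .nil))) .done .done) .done) .done) .done)) .done)) .done)) .done)))
noncomputable def tc9_1_38 : T := (.node 1 4 (.cons 0x3214567890 .nil) (.node 1 5 (.cons 0x7890651234 .nil) (.node 0 7 (.cons 0x8907654123 .nil) (.node 4 7 (.cons 0x5609874321 .nil) (.leaf 0x6512347890 0 (.node 0 4 .nil (.node 3 7 (.cons 0x6543789012 (.cons 0x9873215604 (.cons 0x6512378904 .nil))) .done (.node 1 9 (.cons 0x8765409123 .nil) (.node 1 3 (.cons 0x4789065132 .nil) (.node 1 8 (.cons 0x9045678123 .nil) .done .done) (.node 1 3 (.cons 0x4789065132 .nil) (.node 1 8 (.cons 0x5623478190 .nil) .done .done) .done)) .done)) (.node 4 9 (.cons 0x8712349065 .nil) (.node 2 4 .nil (.node 5 7 (.cons 0x5789432160 (.cons 0x9875601243 (.cons 0x3249875160 .nil))) .done (.node 2 5 (.cons 0x3478906521 .nil) (.node 4 8 .nil (.node 3 6 (.cons 0x8907632145 (.cons 0x5489076321 (.cons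 0x5178490632 .nil))) .done (.node 1 9 (.cons 0x3254891670 .nil) (.node 4 6 (.cons 0x5190784623 .nil) .done .done) .done)) .done) .done)) (.node 4 6 .nil (.node 0 4 (.cons 0x7890465123 .nil) (.node 7 9 (.cons 0x8790126543 (.cons 0x8790465123 .nil)) .done .done) .done) .done)) .done))) (.node 1 9 (.cons 0x2345619870 .nil) (.node 1 3 (.cons 0x8907654132 .nil) (.node 1 8 .nil (.node 2 5 (.cons 0x8907652314 (.cons 0x9814325607 .nil)) (.node 0 4 (.cons 0x8916704523 (.cons 0x9045678123 (.cons 0x9816704523 .nil))) .done .done) .done) .done) (.node 1 3 (.cons 0x8907654132 .nil) (.node 1 8 .nil (.node 2 5 (.cons 0x4325619870 (.cons 0x9814325607 (.cons 0x6709813254 .nil))) .done .done) .done) .done)) .done)) .done) (.node 3 6 (.cons 0x5412367890 .nil) (.node 0 7 (.cons 0x8907632145 .nil) (.node 6 9 (.cons 0x5432169870 .nil) (.node 6 8 .nil (.node 1 5 (.cons 0x2345169870 (.cons 0x8690715432 (.cons 0x7098632154 .nil))) .done (.node 4 6 .nil (.node 1 3 (.cons 0x9078621345 .nil) (.node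 1 8 (.cons 0x5432690781 (.cons 0x7098123645 .nil)) .done .done) .done) .done)) (.node 1 3 (.cons 0x8709621345 .nil) (.node 1 8 .nil (.node 0 3 (.cons 0x4567890321 (.cons 0x9032187654 (.cons 0x9032678145 .nil))) .done (.node 0 8 (.cons 0x3456908712 .nil) (.node 1 5 (.cons 0x8709621543 .nil) (.node 1 9 (.cons 0x5419087623 .nil) .done .done) .done) .done)) .done) .done)) (.node 1 3 .nil (.node 0 2 (.cons 0x9870234561 (.cons 0x9870231654 .nil)) (.leaf 0x1345678902 0 (.node 0 8 (.cons 0x9087123456 .nil) (.node 4 9 (.cons 0x6549087123 (.cons 0x7089456132 (.cons 0x5498761320 (.cons 0x7809456213 .nil)))) .done .done) .done)) (.node 1 8 (.cons 0x5418907632 .nil) (.node 1 5 (.cons 0x7890651234 .nil) (.node 1 9 (.cons 0x2345619870 .nil) .done .done) .done) .done)) .done)) (.node 1 5 (.cons 0x7890651234 .nil) (.node 6 8 .nil (.node 0 3 (.cons 0x4567890321 (.cons 0x7689032145 (.cons 0x7689032154 .nil))) (.node 0 5 (.cons 0x2367890541 (.cons 0x9054178632 .nil)) (.node 2 9 (.cons 0x3298761450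 (.cons 0x8671450923 (.cons 0x5436871092 (.cons 0x4329056871 (.cons 0x5417863290 .nil))))) .done .done) .done) (.node 6 9 (.cons 0x8712345690 .nil) (.node 4 6 .nil (.node 2 5 (.cons 0x1452367890 .nil) (.node 3 9 (.cons 0x2178654390 (.cons 0x3987645210 (.cons 0x7893465210 .nil))) .done (.node 3 7 (.cons 0x6543789012 (.cons 0x2546378901 (.cons 0x5643789012 .nil))) (.leaf 0x1256437890 0 .done) .done)) .done) .done) .done)) (.node 2 5 (.cons 0x1452367890 .nil) (.node 2 4 (.cons 0x7890632415 .nil) (.node 1 8 .nil (.node 0 7 (.cons 0x9870632514 (.cons 0x5423670981 (.cons 0x3245670981 .nil))) .done (.node 1 9 .nil (.node 4 7 (.cons 0x9874152360 (.cons 0x1987432560 (.cons 0x3478912560 .nil))) (.leaf 0x6512347890 0 .done) (.node 1 3 .nil (.node 4 7 (.cons 0x9874152360 (.cons 0x5674231890 (.cons 0x9874312560 .nil))) (.leaf 0x6512347890 0 .done) .done) .done)) .done)) .done) (.node 2 4 (.cons 0x7890632415 .nil) (.node 1 8 (.cons 0x7632541890 .nil) (.node 1 9 .nil (.node 0 7 (.cons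 0x8907632541 (.cons 0x6324519870 (.cons 0x2345619870 .nil))) .done (.node 1 3 .nil (.node 4 7 (.cons 0x5236741890 (.cons 0x9874231560 (.cons 0x5609874312 .nil))) .done .done) .done)) .done) .done) .done)) .done)) .done)) .done)) (.node 1 4 (.cons 0x3214567890 .nil) (.node 1 5 (.cons 0x7890651234 .nil) (.node 1 3 .nil (.node 4 7 (.cons 0x5609874321 (.cons 0x5609874312 .nil)) (.node 5 9 (.cons 0x1234789560 (.cons 0x2134789560 .nil)) (.node 1 9 .nil (.node 0 8 (.cons 0x9087654123 (.cons 0x6231954780 (.cons 0x9132654780 .nil))) .done (.node 7 9 (.cons 0x8974321560 (.cons 0x8790134562 .nil)) (.node 1 8 (.cons 0x3456218790 .nil) (.node 0 8 (.cons 0x3479806512 (.cons 0x9087654132 .nil)) (.node 0 2 (.cons 0x8974312065 .nil) (.node 3 6 (.cons 0x3654798120 (.cons 0x4598716320 .nil)) .done (.leaf 0x3147895602 0 .done)) .done) .done) .done) .done)) (.node 0 2 (.cons 0x6178954320 (.cons 0x4598761320 (.cons 0x4789560231 .nil))) (.leaf 0x1345678902 0 .done) .done)) (.node 0 2 (.cons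 0x8902315476 (.cons 0x9874561320 .nil)) (.node 1 9 (.cons 0x5619874320 (.cons 0x8745623190 .nil)) .done (.leaf 0x1345678902 0 .done)) .done)) (.node 1 8 .nil (.node 0 7 (.cons 0x9078123456 .nil) (.leaf 0x2189076543 0 (.node 2 7 (.cons 0x9815607234 (.cons 0x6518907234 .nil)) (.node 4 7 (.cons 0x9815607432 (.cons 0x8906512743 .nil)) .done .done) .done)) (.node 1 9 .nil (.node 0 7 (.cons 0x8709123456 (.cons 0x2345619870 .nil)) (.node 4 8 (.cons 0x9843215607 (.cons 0x6709845123 (.cons 0x4890765132 (.cons 0x9078431265 .nil)))) (.node 7 9 (.cons 0x5621097843 (.cons 0x8432609715 (.cons 0x5621348790 .nil))) .done .done) .done) .done) .done)) .done)) (.node 4 7 (.cons 0x5609874321 .nil) (.leaf 0x6512347890 0 (.node 1 8 .nil (.node 0 7 (.cons 0x9078123456 .nil) (.leaf 0x2189076543 0 .done) (.node 1 3 (.cons 0x4789065132 .nil) (.node 1 9 (.cons 0x5623478190 .nil) .done .done) .done)) (.node 1 8 .nil (.node 0 7 (.cons 0x9078123456 .nil) (.leaf 0x2189076543 0 (.node 3 9 (.cons 0x8765412390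 (.cons 0x8145670932 (.cons 0x6239078154 (.cons 0x5621874390 (.cons 0x7810934562 .nil))))) .done .done)) (.node 1 3 (.cons 0x5609874312 .nil) (.node 1 9 .nil (.node 5 7 (.cons 0x8906574312 (.cons 0x4321987560 (.cons 0x8756091234 (.cons 0x4326578190 .nil)))) .done .done) .done) .done)) .done))) .done)) (.node 0 7 (.cons 0x8907654123 .nil) (.node 6 8 (.cons 0x9078654321 .nil) (.node 1 9 (.cons 0x5432687190 .nil) (.node 1 8 (.cons 0x9078123456 .nil) (.node 4 6 (.cons 0x8709123465 .nil) (.node 6 9 (.cons 0x8709654321 .nil) (.leaf 0x5690781234 0 .done) .done) .done) (.node 1 8 (.cons 0x9078123456 .nil) (.node 1 3 (.cons 0x4568709132 .nil) (.node 1 5 (.cons 0x7890651234 .nil) .done .done) .done) .done)) (.node 1 9 (.cons 0x3456870912 .nil) (.node 1 8 (.cons 0x9078123456 .nil) (.node 1 3 (.cons 0x9078654312 .nil) (.node 1 5 (.cons 0x7890651234 .nil) .done .done) .done) (.node 1 8 (.cons 0x9078123456 .nil) (.node 1 3 (.cons 0x9078654312 .nil) (.node 1 5 (.cons 0x7890651234 .nil)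 .done .done) .done) .done)) .done)) (.node 1 9 (.cons 0x2345619870 .nil) (.node 7 9 (.cons 0x8790126543 .nil) (.node 1 8 (.cons 0x3456218790 .nil) (.node 1 3 (.cons 0x8907654132 .nil) (.node 1 5 (.cons 0x7890651234 .nil) .done .done) .done) .done) (.node 1 5 (.cons 0x7890651234 .nil) (.node 1 3 (.cons 0x8907654132 .nil) (.node 1 8 .nil (.node 7 9 (.cons 0x8790126543 (.cons 0x3456218790 .nil)) (.node 0 4 (.cons 0x8790432156 (.cons 0x9045678123 .nil)) (.node 3 5 (.cons 0x9876123540 (.cons 0x9187045326 (.cons 0x9816704532 (.cons 0x9045326781 .nil)))) .done .done) .done) .done) .done) .done) .done)) .done)) .done)) (.node 7 9 (.cons 0x8790126543 .nil) tc9_1_37 .done)))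
noncomputable def tc9_1_39 : T := (.node 1 7 (.cons 0x6543217890 .nil) (.node 3 7 (.cons 0x6543789012 .nil) (.node 5 8 (.cons 0x6210978543 (.cons 0x1623458790 .nil)) (.leaf 0x4587901623 0 (.node 0 5 (.cons 0x8790543216 (.cons 0x8790543261 .nil)) (.node 4 6 (.cons 0x9872105643 (.cons 0x8546123790 (.cons 0x3465098721 .nil))) (.leaf 0x5643217890 0 .done) (.node 4 7 (.cons 0x5609874321 (.cons 0x8905612743 .nil)) (.leaf 0x6123478905 0 .done) .done)) (.node 0 4 (.cons 0x9871234065 (.cons 0x7216589043 (.cons 0x5409876123 .nil))) (.node 3 5 (.cons 0x4358790621 (.cons 0x9785340612 (.cons 0x8534097216 (.cons 0x4356109872 .nil)))) .done (.node 0 3 (.cons 0x4567890321 (.cons 0x7216589034 .nil)) (.node 5 9 (.cons 0x4321789560 (.cons 0x8956172340 (.cons 0x6178954032 (.cons 0x4309587261 .nil)))) .done .done) .done)) .done))) (.node 2 9 (.cons 0x8734562901 .nil) (.node 0 8 (.cons 0x6543710892 (.cons 0x4561732980 (.cons 0x7165432980 .nil))) (.leaf 0x9801654372 0 .done) (.node 0 4 (.cons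 0x9871234065 (.cons 0x8732904561 (.cons 0x8923716540 (.cons 0x5409876123 (.cons 0x3298716540 .nil))))) .done .done)) .done)) (.node 3 7 (.cons 0x6543789012 .nil) (.node 5 8 (.cons 0x6210978543 (.cons 0x1623458790 .nil)) (.leaf 0x4587901623 0 (.node 0 8 (.cons 0x9087123456 (.cons 0x9087165432 .nil)) (.node 0 3 (.cons 0x4567890321 (.cons 0x6123097854 (.cons 0x4587903261 .nil))) (.node 4 7 (.cons 0x5609874321 (.cons 0x8547903261 (.cons 0x4721658903 .nil))) .done .done) .done) (.node 3 5 (.cons 0x4358790621 (.cons 0x4358790612 (.cons 0x4356109872 .nil))) (.node 0 4 (.cons 0x8534097216 (.cons 0x9856127340 (.cons 0x5409876123 (.cons 0x8534097261 .nil)))) (.leaf 0x2378904561 0 .done) .done) .done))) (.node 2 9 (.cons 0x8734562901 .nil) (.node 0 8 (.cons 0x9087123456 (.cons 0x8092371654 (.cons 0x9087165432 .nil))) (.leaf 0x9801654372 0 .done) (.node 0 4 (.cons 0x8732904561 (.cons 0x5409876123 (.cons 0x8716540923 .nil))) (.node 0 7 .nil (.node 4 8 (.cons 0x3784562901 (.cons 0x1654892370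 (.cons 0x3290784561 (.cons 0x5489076123 (.cons 0x5612709843 .nil))))) .done .done) (.node 5 8 (.cons 0x6210978543 (.cons 0x3216798540 (.cons 0x8540973261 (.cons 0x1623458790 (.cons 0x2734098561 .nil))))) .done .done)) .done)) .done)) .done)) (.node 3 7 (.cons 0x6543789012 .nil) (.node 0 2 (.cons 0x8973456102 .nil) (.node 1 8 (.cons 0x9781026543 (.cons 0x5432618790 .nil)) (.node 3 8 (.cons 0x2654387901 (.cons 0x5438790162 .nil)) (.node 5 9 (.cons 0x4387265901 (.cons 0x8102659734 (.cons 0x4378956021 .nil))) (.node 0 4 (.cons 0x5618790432 (.cons 0x4016598372 (.cons 0x6123789540 .nil))) (.node 1 4 (.cons 0x3278956140 (.cons 0x9023876541 (.cons 0x9837654102 (.cons 0x7832614590 .nil)))) .done .done) .done) .done) (.node 3 6 (.cons 0x4563798102 .nil) (.node 1 4 (.cons 0x9872014365 (.cons 0x6541879023 (.cons 0x6541897320 .nil))) (.node 4 7 (.cons 0x5609874321 (.cons 0x9023654781 .nil)) (.node 5 9 (.cons 0x4378956012 (.cons 0x5981473602 (.cons 0x6378954102 (.cons 0x9541873620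 .nil)))) .done .done) .done) .done) .done)) (.leaf 0x4378902165 0 (.node 0 4 (.cons 0x8973204561 (.cons 0x5409876123 (.cons 0x9873204561 .nil))) (.leaf 0x2378904561 0 (.node 1 8 (.cons 0x9781654023 (.cons 0x5432618790 (.cons 0x5618790432 .nil))) (.node 5 9 (.cons 0x4378956012 (.cons 0x8721659043 .nil)) (.node 2 8 (.cons 0x3456287901 (.cons 0x8279561043 (.cons 0x6182379540 .nil))) .done (.node 3 8 (.cons 0x2654387901 (.cons 0x5438790162 (.cons 0x7832165904 .nil))) (.leaf 0x6590438721 0 .done) .done)) .done) .done)) .done))) (.node 1 7 (.cons 0x6543217890 .nil) (.node 5 7 (.cons 0x6123457890 .nil) (.node 3 5 (.cons 0x4356109872 .nil) (.node 2 4 (.cons 0x9875601243 (.cons 0x8972435610 (.cons 0x9875342106 .nil))) (.node 3 6 (.cons 0x8901275634 (.cons 0x5634278901 .nil)) .done .done) (.node 0 7 (.cons 0x8907612354 .nil) .done .done)) (.node 4 7 (.cons 0x5609874321 .nil) (.node 5 9 (.cons 0x4321789560 .nil) (.node 0 7 (.cons 0x8956071234 .nil) .done (.node 0 3 (.cons 0x4567890321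 (.cons 0x8903216745 (.cons 0x8745903261 .nil))) (.node 3 8 (.cons 0x2654387901 (.cons 0x4597830162 (.cons 0x1623874590 .nil))) (.leaf 0x9547832610 0 .done) .done) .done)) .done) .done)) (.node 0 8 (.cons 0x9087321654 (.cons 0x9087162345 .nil)) (.node 0 7 .nil (.node 1 4 (.cons 0x9087654123 (.cons 0x9807654123 .nil)) .done .done) (.node 6 9 (.cons 0x5437809612 .nil) (.node 0 7 (.cons 0x7089612345 .nil) (.node 5 7 (.cons 0x7543216980 .nil) (.leaf 0x1690875432 0 .done) .done) .done) .done)) .done)) (.node 1 7 (.cons 0x6543217890 .nil) (.node 4 7 (.cons 0x5609874321 .nil) (.node 0 4 (.cons 0x9871234065 (.cons 0x5409876123 .nil)) (.node 5 8 (.cons 0x9065874321 (.cons 0x1658972340 (.cons 0x8540973261 (.cons 0x9856172340 (.cons 0x7216589043 .nil))))) .done (.node 1 5 (.cons 0x8904516732 (.cons 0x6154098732 .nil)) (.node 2 8 (.cons 0x3456287901 (.cons 0x6154328790 .nil)) (.leaf 0x3287906154 0 (.node 1 3 (.cons 0x8231654790 (.cons 0x9047823165 .nil)) .done .done)) .done) .done))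 (.node 0 5 (.cons 0x8905612743 (.cons 0x6123789054 (.cons 0x4327890561 .nil))) (.node 4 6 (.cons 0x9872105643 (.cons 0x8905467321 .nil)) (.leaf 0x5643217890 0 .done) (.node 6 9 (.cons 0x8734509612 .nil) (.node 0 7 (.cons 0x8965432170 .nil) .done .done) .done)) .done)) (.node 0 7 .nil (.node 5 8 (.cons 0x9065871234 (.cons 0x6123709854 (.cons 0x4327098561 .nil))) (.leaf 0x4587901623 0 (.node 3 9 (.cons 0x4390658712 (.cons 0x4390785621 (.cons 0x4398561270 .nil))) .done .done)) (.node 1 5 (.cons 0x9870651234 .nil) (.node 4 8 (.cons 0x6732154890 (.cons 0x2348970651 (.cons 0x6709845123 (.cons 0x2376154890 (.cons 0x6512709843 .nil))))) .done (.node 4 7 (.cons 0x5609874321 .nil) (.leaf 0x6512347890 0 (.node 0 5 (.cons 0x8905612743 (.cons 0x4327890561 .nil)) (.node 0 3 (.cons 0x8903472165 .nil) (.node 2 5 (.cons 0x3478906521 (.cons 0x9872561034 (.cons 0x8903472561 .nil))) .done .done) .done) .done)) .done)) .done)) .done)) .done))) (.node 0 3 (.cons 0x4567890321 (.cons 0x8790345612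 .nil)) (.node 2 8 (.cons 0x7982165430 .nil) (.node 3 5 (.cons 0x4356097821 (.cons 0x4356109872 .nil)) (.node 1 4 (.cons 0x7982143065 (.cons 0x8790653412 (.cons 0x8790621435 .nil))) (.node 2 4 (.cons 0x6789012453 .nil) (.leaf 0x8901243567 0 .done) .done) (.node 1 4 (.cons 0x7982143065 (.cons 0x9782143560 (.cons 0x7982143560 (.cons 0x6798214530 .nil)))) .done .done)) (.leaf 0x4561287903 0 (.node 4 7 (.cons 0x5609874321 (.cons 0x8216547903 (.cons 0x8903216745 .nil))) (.node 0 8 (.cons 0x9803216745 .nil) (.node 0 2 (.cons 0x8790216543 .nil) (.node 5 8 (.cons 0x4589761203 (.cons 0x3458790261 (.cons 0x9856127430 .nil))) .done .done) (.node 1 7 (.cons 0x9087165432 (.cons 0x9087162345 .nil)) .done .done)) (.node 4 8 (.cons 0x7654890321 (.cons 0x5612798430 (.cons 0x7612309845 .nil))) (.node 3 7 (.cons 0x6543789012 (.cons 0x4561289730 (.cons 0x5489037612 .nil))) (.node 1 3 (.cons 0x2897456130 (.cons 0x8261309745 .nil)) (.node 0 4 (.cons 0x8790431265 (.cons 0x9047823165 (.cons 0x5409876123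 .nil))) .done .done) .done) .done) .done)) .done))) (.node 6 9 .nil (.node 5 7 (.cons 0x6987543012 (.cons 0x8903216754 (.cons 0x8754321690 .nil))) (.node 2 8 (.cons 0x9016287543 (.cons 0x9628754301 (.cons 0x4578230961 .nil))) .done .done) (.node 5 9 (.cons 0x4598761230 .nil) (.node 3 6 (.cons 0x4365987210 .nil) (.node 1 7 (.cons 0x4321789560 (.cons 0x8710954362 .nil)) (.node 3 7 (.cons 0x6543789012 (.cons 0x4378956012 .nil)) .done .done) .done) (.node 4 7 (.cons 0x5609874321 (.cons 0x8745903216 (.cons 0x8745903261 .nil))) (.node 2 5 (.cons 0x8967452103 (.cons 0x8974306125 .nil)) (.node 0 8 (.cons 0x5476980321 (.cons 0x9547803261 .nil)) (.node 5 8 (.cons 0x3085479621 (.cons 0x5896103472 (.cons 0x5896127430 .nil))) .done .done) .done) (.node 3 8 (.cons 0x1265438790 (.cons 0x1623874590 .nil)) (.node 0 5 (.cons 0x1238967450 (.cons 0x9506123874 (.cons 0x9832167450 (.cons 0x4327890561 .nil)))) .done (.leaf 0x9547832610 0 .done)) .done)) (.node 1 8 (.cons 0x2618795430 (.cons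 0x7816234590 (.cons 0x7816230954 .nil))) (.node 1 7 (.cons 0x8716234590 .nil) (.node 0 4 (.cons 0x2340659871 (.cons 0x8723409561 (.cons 0x8956172340 .nil))) (.node 2 8 (.cons 0x5403289671 (.cons 0x1628795430 (.cons 0x7826109543 (.cons 0x7169823045 .nil)))) .done .done) (.node 2 8 (.cons 0x1628795430 (.cons 0x6178234590 (.cons 0x6178230954 .nil))) (.leaf 0x3459061782 0 .done) .done)) .done) .done))) (.node 6 8 (.cons 0x5430978621 .nil) (.node 2 5 (.cons 0x7896103452 (.cons 0x7986125430 .nil)) (.node 1 7 (.cons 0x6987103452 (.cons 0x9687103452 (.cons 0x8710962543 .nil))) .done (.node 5 9 (.cons 0x1268795430 .nil) (.node 0 2 (.cons 0x7986120345 .nil) (.node 0 5 (.cons 0x8612795034 (.cons 0x4327890561 .nil)) .done .done) .done) .done)) (.node 5 7 (.cons 0x9034578621 (.cons 0x9034578612 .nil)) (.node 4 9 (.cons 0x1234987560 (.cons 0x8945761230 (.cons 0x5789432160 .nil))) .done (.node 3 7 (.cons 0x6543789012 .nil) (.node 2 4 (.cons 0x9873421065 (.cons 0x8903245761 .nil)) (.node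 3 9 (.cons 0x3987654210 (.cons 0x8934275610 (.cons 0x2439875610 .nil))) .done (.node 3 6 (.cons 0x8901634275 .nil) .done .done)) (.node 2 8 (.cons 0x2873456901 (.cons 0x9016287543 .nil)) (.leaf 0x1287903456 0 (.leaf 0x5690128734 0 .done)) .done)) .done)) .done)) .done))) (.node 2 4 (.cons 0x9872430165 (.cons 0x5423098761 .nil)) (.node 1 5 (.cons 0x9872430156 (.cons 0x8790651243 .nil)) (.node 1 7 (.cons 0x8971560342 (.cons 0x8903245176 .nil)) (.node 2 8 (.cons 0x7982430651 (.cons 0x5430978261 (.cons 0x9032871654 .nil))) .done .done) (.node 1 8 (.cons 0x5430978162 (.cons 0x5624309781 .nil)) (.node 0 2 (.cons 0x3024567981 (.cons 0x9781620345 .nil)) (.node 1 3 (.cons 0x9781302456 (.cons 0x2456798130 (.cons 0x8790315426 (.cons 0x8790315624 .nil)))) .done .done) .done) .done)) (.node 1 4 (.cons 0x5416789032 .nil) (.node 2 9 (.cons 0x1456789230 (.cons 0x5416789230 .nil)) (.node 0 8 (.cons 0x3087926541 (.cons 0x5416297803 (.cons 0x5614279803 .nil))) .done .done) (.node 0 4 (.cons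 0x5409876123 .nil) (.node 1 7 (.cons 0x9871234065 .nil) (.node 2 5 (.cons 0x8790652143 (.cons 0x9872561034 (.cons 0x6178903254 .nil))) .done .done) .done) .done)) .done)) .done))) .done)))
noncomputable def tc9_1_40 : T := (.node 0 3 (.cons 0x4567890321 (.cons 0x9865430127 .nil)) (.node 7 9 (.cons 0x8790345612 .nil) (.node 0 5 (.cons 0x9786210543 (.cons 0x7986123450 (.cons 0x9786123054 (.cons 0x8790543261 .nil)))) .done (.node 3 5 (.cons 0x8790126534 (.cons 0x9872106534 (.cons 0x4356897210 .nil))) (.node 2 4 (.cons 0x9872435601 (.cons 0x8790162435 .nil)) (.node 3 8 (.cons 0x7654210983 (.cons 0x6724538901 (.cons 0x4276538901 .nil))) .done .done) .done) (.node 1 8 (.cons 0x5432618790 (.cons 0x4561879032 .nil)) (.node 2 4 (.cons 0x9724301865 .nil) (.leaf 0x7903245618 0 (.node 3 5 (.cons 0x6789012453 (.cons 0x9872106534 (.cons 0x5342798601 (.cons 0x9018726534 .nil)))) .done .done)) .done) .done))) (.node 3 8 (.cons 0x9012654387 .nil) (.node 5 9 (.cons 0x9543012687 (.cons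 0x4598672103 (.cons 0x4387265901 .nil))) (.node 3 6 (.cons 0x7210368954 .nil) (.node 1 8 (.cons 0x4590187263 .nil) (.node 4 9 (.cons 0x7834901265 (.cons 0x5498672103 (.cons 0x5490187263 (.cons 0x5627834901 (.cons 0x5490362781 .nil))))) .done .done) .done) (.node 0 4 (.cons 0x7834095621 (.cons 0x6590438721 (.cons 0x3045986721 .nil))) (.node 0 7 (.cons 0x4387095612 .nil) .done .done) .done)) (.node 3 6 .nil (.node 2 4 (.cons 0x5427638901 (.cons 0x5423098761 (.cons 0x9876301245 .nil))) .done (.node 4 8 (.cons 0x5489012763 (.cons 0x5489036721 .nil)) (.node 3 9 (.cons 0x7843901265 .nil) (.node 2 4 (.cons 0x3987654210 (.cons 0x7689301245 (.cons 0x5426783901 .nil))) .done .done) .done) .done)) .done)) (.node 2 4 (.cons 0x5423098761 .nil) (.node 2 9 (.cons 0x7298654301 (.cons 0x5429876103 (.cons 0x7892430165 (.cons 0x7892456103 .nil)))) .done (.node 1 9 (.cons 0x5427689103 (.cons 0x7243019865 (.cons 0x7245689103 .nil))) (.node 1 4 (.cons 0x8914567230 (.cons 0x5419867230 .nil))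 (.node 0 8 (.cons 0x9087654123 (.cons 0x9145680327 .nil)) (.node 5 7 (.cons 0x9803245761 (.cons 0x9087543216 (.cons 0x9087543261 .nil))) (.leaf 0x6190875432 0 .done) .done) .done) .done) .done)) .done))) (.node 6 9 (.cons 0x3456987210 .nil) (.node 3 9 (.cons 0x8726543901 .nil) (.node 3 6 .nil (.node 2 4 (.cons 0x3987654210 (.cons 0x5421098763 .nil)) (.node 0 2 (.cons 0x7890234561 (.cons 0x7890216345 .nil)) (.node 1 4 (.cons 0x8765412390 (.cons 0x5412367890 (.cons 0x7893654102 .nil))) .done .done) .done) (.node 1 3 (.cons 0x9013456872 .nil) (.node 1 4 (.cons 0x8765412390 (.cons 0x5413276890 .nil)) (.node 5 9 (.cons 0x1432789560 (.cons 0x3412789560 .nil)) (.node 0 7 (.cons 0x8706593214 (.cons 0x6895413270 (.cons 0x8956072314 .nil))) .done .done) .done) (.leaf 0x987265431 0 (.node 4 6 (.cons 0x5643127890 .nil) .done .done))) .done)) (.leaf 0x934568721 0 (.node 4 6 (.cons 0x5643987210 .nil) (.node 4 8 (.cons 0x7843901265 .nil) (.node 3 8 (.cons 0x9012654387 .nil) (.node 0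 3 (.cons 0x4567890321 (.cons 0x9672103845 (.cons 0x9845672103 .nil))) (.node 1 5 (.cons 0x4510389672 (.cons 0x8721564390 (.cons 0x4893015672 (.cons 0x9038726451 .nil)))) .done .done) .done) (.node 3 6 (.cons 0x5489012763 .nil) (.node 3 8 (.cons 0x9012654387 .nil) .done .done) .done)) .done) .done))) (.node 1 3 (.cons 0x8721345690 .nil) (.node 3 6 .nil (.node 0 2 (.cons 0x9865431027 (.cons 0x7890216345 (.cons 0x9872013654 .nil))) .done (.node 0 2 (.cons 0x9865431027 .nil) (.node 5 9 (.cons 0x9543102687 (.cons 0x4598672013 (.cons 0x7201368954 (.cons 0x4598761320 .nil)))) .done (.node 0 7 (.cons 0x9870231654 .nil) (.node 1 7 (.cons 0x5436890172 .nil) (.node 0 4 (.cons 0x7896540213 (.cons 0x5689043271 (.cons 0x5409876123 (.cons 0x5617890432 .nil)))) .done .done) (.node 5 8 (.cons 0x9621345870 (.cons 0x4589631270 (.cons 0x6345890721 .nil))) (.leaf 0x4321690785 0 .done) .done)) .done)) .done)) (.node 1 4 (.cons 0x5413276890 .nil) (.node 2 4 (.cons 0x5427689013 .nil) (.node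 4 6 .nil (.node 1 5 (.cons 0x7890651234 (.cons 0x7231546890 .nil)) (.node 0 8 (.cons 0x6908721543 (.cons 0x9087645123 (.cons 0x9086451327 .nil))) .done .done) .done) .done) (.node 0 8 (.cons 0x9087654123 (.cons 0x9086723145 (.cons 0x9086541327 .nil))) .done .done)) (.leaf 0x987265431 0 (.node 2 4 (.cons 0x7243109865 .nil) (.node 3 9 (.cons 0x3987654210 (.cons 0x8726543901 .nil)) (.node 2 5 (.cons 0x7256890134 .nil) (.node 5 9 (.cons 0x7895601243 (.cons 0x6598724310 .nil)) .done .done) (.leaf 0x934568721 0 .done)) (.node 0 5 (.cons 0x5096872431 (.cons 0x3245098761 .nil)) (.node 1 7 (.cons 0x5069871243 (.cons 0x5096871342 (.cons 0x9054326871 .nil))) .done (.leaf 0x6789054231 0 (.node 3 5 (.cons 0x6789012453 (.cons 0x9872106534 (.cons 0x4278690531 (.cons 0x3542768901 .nil)))) (.node 1 4 (.cons 0x6987241350 (.cons 0x5096872413 .nil)) (.leaf 0x9605314278 0 .done) .done) .done))) .done)) .done)))) .done)) (.node 6 9 (.cons 0x3456987210 .nil) (.node 0 7 (.cons 0x3456890721 .nil)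 (.node 3 7 (.cons 0x8965437210 .nil) (.leaf 0x2734568901 0 (.node 3 9 (.cons 0x5439078612 (.cons 0x8726543901 .nil)) (.node 1 7 (.cons 0x6543217890 .nil) (.node 0 8 (.cons 0x7123456980 (.cons 0x5439680712 (.cons 0x8071239654 (.cons 0x1723456980 .nil)))) .done (.node 1 4 (.cons 0x8765412390 .nil) (.node 5 9 (.cons 0x8706593214 (.cons 0x1432789560 (.cons 0x3412789560 .nil))) .done (.node 5 7 (.cons 0x4398756012 (.cons 0x8906572341 (.cons 0x8906572143 .nil))) .done .done)) .done)) .done) (.node 1 8 (.cons 0x2734569810 (.cons 0x8109627345 .nil)) (.node 3 8 (.cons 0x9012654387 (.cons 0x5438690721 .nil)) (.node 1 3 (.cons 0x7213456890 (.cons 0x8690721345 .nil)) (.node 2 8 (.cons 0x9016287345 (.cons 0x8273109654 .nil)) .done .done) .done) (.leaf 0x5690781234 0 .done)) .done))) (.node 1 5 (.cons 0x8690721543 (.cons 0x6890721543 .nil)) (.node 1 3 (.cons 0x8690721345 (.cons 0x7213456890 .nil)) (.leaf 0x987265431 0 (.node 0 4 (.cons 0x8967045123 (.cons 0x9043127865 (.cons 0x7213409865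 (.cons 0x9872340651 .nil)))) .done .done)) (.node 2 5 (.cons 0x7098612543 .nil) (.node 3 6 (.cons 0x8963452701 .nil) (.node 4 9 (.cons 0x6321549870 (.cons 0x2361549870 (.cons 0x5216078943 .nil))) (.leaf 0x6152349870 0 .done) .done) .done) .done)) (.node 1 3 (.cons 0x8965431072 (.cons 0x7213456890 .nil)) (.node 1 8 (.cons 0x1896543270 (.cons 0x5431869072 (.cons 0x8132709654 .nil))) (.node 1 9 (.cons 0x8709162345 .nil) (.node 4 8 (.cons 0x3265487091 (.cons 0x8456913270 (.cons 0x5487091623 (.cons 0x6548723190 .nil)))) .done .done) .done) (.leaf 0x987265431 0 (.node 1 8 (.cons 0x1896543270 (.cons 0x9078162345 .nil)) (.node 1 9 (.cons 0x8709162345 .nil) .done .done) .done))) .done))) (.node 1 3 (.cons 0x2789654310 (.cons 0x7213456890 (.cons 0x8726901345 .nil))) (.node 0 8 (.cons 0x4569087231 .nil) (.node 1 7 (.cons 0x5432690871 .nil) (.node 0 3 (.cons 0x8965430172 .nil) (.node 1 5 (.cons 0x4517698032 (.cons 0x4513096872 .nil)) .done (.node 1 4 (.cons 0x8903276541 (.cons 0x5416789032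 .nil)) .done .done)) (.node 1 9 (.cons 0x3456872190 .nil) (.leaf 0x2190876543 0 (.node 3 7 (.cons 0x5437801962 .nil) (.leaf 0x2734568901 0 (.node 5 8 (.cons 0x3458726910 (.cons 0x4587326190 (.cons 0x7854326190 .nil))) .done .done)) (.node 0 4 (.cons 0x5409876123 (.cons 0x5617890432 .nil)) (.leaf 0x5687231904 0 (.node 1 8 (.cons 0x5698172340 (.cons 0x8132769045 .nil)) .done .done)) .done))) .done)) (.node 1 5 (.cons 0x9627801543 (.cons 0x8096723154 (.cons 0x6908723154 .nil))) .done (.node 4 9 (.cons 0x8094567231 (.cons 0x5490876132 (.cons 0x8721349065 .nil))) (.node 1 7 (.cons 0x9087162345 (.cons 0x5623490871 .nil)) (.node 1 9 (.cons 0x6543271980 (.cons 0x7809162345 (.cons 0x5623491780 (.cons 0x3265491780 .nil)))) .done .done) .done) .done))) (.node 2 4 (.cons 0x5698724310 .nil) (.node 4 6 (.cons 0x5643109872 .nil) (.node 4 8 (.cons 0x5672489013 .nil) (.node 7 9 (.cons 0x5621097843 (.cons 0x5621348790 .nil)) (.node 0 4 (.cons 0x9043127865 (.cons 0x5409876123 .nil)) (.node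 1 5 (.cons 0x9872340651 (.cons 0x9048765132 (.cons 0x8409762315 (.cons 0x9872315640 .nil)))) .done .done) .done) (.node 3 5 (.cons 0x9012678453 (.cons 0x9872106534 (.cons 0x8427690135 (.cons 0x7612354890 (.cons 0x8901356724 .nil))))) .done .done)) .done) (.node 1 5 (.cons 0x5106987243 (.cons 0x5134278690 .nil)) (.node 0 7 (.cons 0x8690724315 (.cons 0x6890721543 (.cons 0x4315689072 .nil))) .done (.node 3 7 (.cons 0x8732451690 (.cons 0x6154237890 .nil)) (.leaf 0x2378906154 0 (.leaf 0x2734568901 0 .done)) .done)) .done)) .done)) .done)) .done)))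
noncomputable def tc9_1_41 : T := (.node 6 8 (.cons 0x9012786543 .nil) tc9_1_40 (.node 3 9 (.cons 0x6543987210 (.cons 0x2789345610 .nil)) (.node 0 3 (.cons 0x4567890321 .nil) (.node 4 9 (.cons 0x8765490321 (.cons 0x8761230945 .nil)) (.node 2 8 (.cons 0x8276549301 (.cons 0x5490328761 (.cons 0x7823094561 .nil))) (.node 5 7 (.cons 0x1657823490 (.cons 0x4398275610 .nil)) (.node 6 9 (.cons 0x4309657821 .nil) .done (.leaf 0x2894301657 0 .done)) .done) (.node 6 9 (.cons 0x3456987210 .nil) (.node 4 8 (.cons 0x3984567210 (.cons 0x9032167845 .nil)) (.node 0 7 (.cons 0x1239845670 (.cons 0x5489321670 (.cons 0x8934561072 .nil))) .done (.node 1 9 (.cons 0x5487619032 (.cons 0x9165487230 .nil)) (.leaf 0x8456190327 0 .done) .done)) .done) .done)) (.leaf 0x1278903456 0 (.node 0 8 (.cons 0x4567210893 .nil) (.node 5 7 (.cons 0x8093216754 (.cons 0x9087543261 (.cons 0x6127543980 .nil))) (.node 1 4 (.cons 0x6754123980 (.cons 0x8093214576 (.cons 0x9803276145 (.cons 0x5416789032 .nil)))) .done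 .done) (.node 3 6 (.cons 0x7210893654 .nil) (.node 3 5 (.cons 0x9872106534 .nil) (.node 4 7 (.cons 0x5609874321 (.cons 0x9087456123 (.cons 0x9087453216 (.cons 0x1654723980 .nil)))) (.node 0 5 (.cons 0x7450893612 .nil) (.node 1 3 (.cons 0x6509874312 .nil) (.leaf 0x4562139087 0 .done) (.leaf 0x4721639805 0 .done)) .done) .done) .done) .done)) .done))) (.node 5 7 (.cons 0x8754390126 (.cons 0x8754390162 .nil)) (.node 0 8 (.cons 0x9087543216 (.cons 0x6123908754 .nil)) (.node 1 9 (.cons 0x6578091234 .nil) (.leaf 0x2780193456 0 (.node 0 4 (.cons 0x8761239045 (.cons 0x5409876123 (.cons 0x3278916540 .nil))) (.node 0 3 (.cons 0x4561987230 .nil) (.node 6 9 (.cons 0x7210896543 (.cons 0x5439627801 (.cons 0x9654308721 .nil))) .done .done) .done) .done)) (.node 0 4 (.cons 0x8761239045 (.cons 0x5408932761 (.cons 0x5409876123 .nil))) (.node 1 5 (.cons 0x6789321540 (.cons 0x4516723980 (.cons 0x7809326154 .nil))) .done .done) .done)) (.node 0 4 (.cons 0x8761239045 (.cons 0x8934061275 (.cons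 0x5409876123 .nil))) (.node 1 9 (.cons 0x8912756043 (.cons 0x8756219043 .nil)) (.node 3 6 (.cons 0x7891236540 (.cons 0x8936721045 (.cons 0x1987236540 .nil))) .done .done) (.node 1 9 (.cons 0x5619872340 (.cons 0x3278916540 .nil)) (.node 0 8 (.cons 0x3276540891 (.cons 0x5408916723 (.cons 0x8045726193 .nil))) .done .done) .done)) .done)) (.node 5 7 (.cons 0x8756210934 .nil) (.node 3 7 (.cons 0x6543789012 .nil) (.node 1 7 (.cons 0x6543217890 .nil) (.node 0 5 (.cons 0x6509871234 (.cons 0x6123789054 .nil)) (.node 4 7 (.cons 0x5609874321 (.cons 0x8905617432 (.cons 0x8934721650 .nil))) .done (.node 1 9 (.cons 0x6198723450 (.cons 0x8732619054 .nil)) (.node 0 8 (.cons 0x6508917234 (.cons 0x4508916723 .nil)) (.leaf 0x7261980543 0 .done) .done) .done)) .done) (.node 7 9 (.cons 0x8790126543 .nil) (.node 2 9 (.cons 0x8734562901 (.cons 0x8927345610 .nil)) (.node 0 3 (.cons 0x4567890321 (.cons 0x8927301654 .nil)) (.node 4 7 (.cons 0x5609874321 (.cons 0x8745612903 .nil)) .done (.leaf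 0x1278903456 0 .done)) .done) (.node 0 3 (.cons 0x4567890321 (.cons 0x8790345612 (.cons 0x8972165430 .nil))) (.leaf 0x1278903456 0 .done) .done)) .done)) (.node 2 4 (.cons 0x8756243901 (.cons 0x8934275610 .nil)) (.node 0 3 (.cons 0x4567890321 (.cons 0x8903245761 (.cons 0x5423098761 .nil))) (.node 0 4 (.cons 0x8934016572 (.cons 0x5610439872 .nil)) (.node 1 8 (.cons 0x9340187562 (.cons 0x9043265781 (.cons 0x4093265781 .nil))) (.leaf 0x2390456781 0 .done) .done) (.leaf 0x1278903456 0 .done)) .done) (.node 7 9 (.cons 0x8790126543 .nil) (.node 5 8 (.cons 0x6210978543 (.cons 0x1623458790 .nil)) (.leaf 0x4587901623 0 (.node 0 3 (.cons 0x4567890321 (.cons 0x6123097854 (.cons 0x4587903261 .nil))) (.node 0 5 (.cons 0x6501278934 (.cons 0x8790543216 (.cons 0x8790543261 .nil))) .done (.leaf 0x1278903456 0 .done)) .done)) (.node 5 8 (.cons 0x7856210934 .nil) (.leaf 0x4587901623 0 (.node 4 7 (.cons 0x5609874321 (.cons 0x4785612390 .nil)) (.node 0 5 (.cons 0x6501278934 (.cons 0x6123905874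 (.cons 0x8905476123 (.cons 0x4785093261 .nil)))) .done .done) (.node 2 4 (.cons 0x7856243901 (.cons 0x7243985610 (.cons 0x5789061243 .nil))) .done .done))) .done)) .done))) .done))) (.node 3 6 (.cons 0x5436109872 .nil) (.node 3 8 (.cons 0x9012654387 (.cons 0x9016278345 .nil)) (.node 0 3 (.cons 0x4567890321 .nil) (.node 7 9 (.cons 0x8790126543 (.cons 0x5438790162 (.cons 0x8790345612 .nil))) (.node 3 7 (.cons 0x6543789012 .nil) (.node 3 5 (.cons 0x8790126534 .nil) (.node 0 4 (.cons 0x7612389045 (.cons 0x5409876123 (.cons 0x8904532761 .nil))) (.node 0 7 (.cons 0x8907612354 .nil) .done .done) .done) .done) .done) (.leaf 0x4561278903 0 (.node 3 5 (.cons 0x9012678354 .nil) (.node 0 5 (.cons 0x9872105436 (.cons 0x7612389054 .nil)) (.node 0 8 (.cons 0x9087612354 .nil) (.node 1 4 (.cons 0x9872305416 (.cons 0x9087654123 (.cons 0x8903276145 (.cons 0x5416789032 .nil)))) .done .done) .done) (.node 4 8 (.cons 0x9845367210 (.cons 0x9845301672 (.cons 0x1672354890 (.cons 0x7216098435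 .nil)))) .done .done)) .done))) (.node 3 7 (.cons 0x6543789012 .nil) (.node 0 3 (.cons 0x4567890321 .nil) (.leaf 0x4561278903 0 (.node 1 3 .nil (.node 0 2 (.cons 0x7890234561 (.cons 0x4567890231 (.cons 0x7890231654 .nil))) (.leaf 0x1345678902 0 .done) (.node 3 9 (.cons 0x8726109345 .nil) (.node 2 4 (.cons 0x9876301245 (.cons 0x3987654210 .nil)) (.node 3 5 (.cons 0x8901672453 .nil) .done .done) .done) .done)) (.node 3 5 (.cons 0x4532167890 .nil) (.node 2 4 (.cons 0x7653890124 .nil) (.node 0 7 (.cons 0x9870124365 .nil) (.node 5 9 (.cons 0x8954276301 (.cons 0x2789543610 (.cons 0x4387095621 .nil))) (.leaf 0x8701243659 0 .done) .done) (.leaf 0x8901243567 0 .done)) (.node 4 8 (.cons 0x9845367210 (.cons 0x9845301672 (.cons 0x7612354890 (.cons 0x1672354890 (.cons 0x7216098435 .nil))))) .done .done)) .done))) (.node 7 9 (.cons 0x8790126543 .nil) (.node 3 5 (.cons 0x8790126534 .nil) (.node 0 3 (.cons 0x4567890321 .nil) (.leaf 0x4561278903 0 (.node 5 9 (.cons 0x6345987210 (.cons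 0x2789543610 (.cons 0x8721609534 .nil))) (.node 0 8 (.cons 0x4598012763 (.cons 0x4598016372 .nil)) (.node 1 7 (.cons 0x6172345980 (.cons 0x9087165432 .nil)) .done .done) (.node 2 4 (.cons 0x9876301245 (.cons 0x6103789542 (.cons 0x8954273610 .nil))) .done .done)) .done)) (.node 4 8 (.cons 0x9845367210 (.cons 0x7612354890 (.cons 0x1672354890 (.cons 0x7216098435 .nil)))) (.node 0 4 (.cons 0x1235679840 (.cons 0x8790432165 (.cons 0x5321679840 (.cons 0x8904532761 .nil)))) (.node 0 5 (.cons 0x9872105436 (.cons 0x9784321650 (.cons 0x2379840561 (.cons 0x6105348972 .nil)))) .done .done) .done) .done)) (.node 0 3 (.cons 0x4567890321 (.cons 0x8790345612 .nil)) (.leaf 0x4561278903 0 (.node 5 9 (.cons 0x6345987210 (.cons 0x2789543610 .nil)) (.node 2 8 (.cons 0x7630128954 (.cons 0x4598273610 .nil)) (.leaf 0x1287903456 0 .done) (.node 0 4 (.cons 0x8795403621 (.cons 0x8795403612 (.cons 0x8954016372 (.cons 0x1632789540 .nil)))) .done .done)) .done)) .done)) .done)) .done)) (.node 5 8 (.cons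 0x4589012763 (.cons 0x9016278543 (.cons 0x7216345890 .nil))) (.node 7 9 (.cons 0x6345897210 (.cons 0x2798543610 .nil)) (.node 0 4 (.cons 0x7985634012 (.cons 0x9785612340 (.cons 0x7985612340 (.cons 0x5409876123 .nil)))) (.leaf 0x6587904321 0 .done) (.leaf 0x8543601279 0 .done)) (.node 4 7 (.cons 0x5609874321 (.cons 0x1632745890 (.cons 0x3612745890 .nil))) (.node 3 9 (.cons 0x6398547210 (.cons 0x2745893610 .nil)) (.node 0 5 (.cons 0x8936745012 (.cons 0x8761239054 (.cons 0x8932167450 .nil))) (.leaf 0x3478905612 0 .done) (.node 3 7 (.cons 0x6543789012 (.cons 0x4589016372 .nil)) (.node 0 7 (.cons 0x4589072361 .nil) (.node 1 4 (.cons 0x6587093214 (.cons 0x6589321470 (.cons 0x8907632145 .nil))) .done .done) .done) .done)) (.node 0 7 (.cons 0x4589072361 .nil) (.node 0 8 (.cons 0x9085472361 .nil) (.node 1 4 (.cons 0x9807632145 (.cons 0x8907654123 (.cons 0x8907632145 .nil))) .done .done) .done) .done)) .done)) .done)) (.node 7 9 (.cons 0x8790126543 .nil) tc9_1_39 .done))))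
noncomputable def uc9_1_7 : T := (.node 2 7 (.cons 0x1654327890 .nil) tc9_1_41 (.node 1 7 (.cons 0x6543217890 .nil) tc9_1_38 (.node 1 4 (.cons 0x3214567890 .nil) tc9_1_36 .done)))
theorem sub_c9_1_7 : root 9 refs9_1 [] 0x700000008706000000006030000000030500704000504000000004030000000030100000700102000000002018004000010 0xfe7fff3fffb7ff47ffcfffe7fff5ff79fff9feed 9 1 6 .nil uc9_1_7 = true := by decide +kernel
noncomputable def tc9_1_42 : T := (.node 0 3 (.cons 0x4567890321 .nil) (.node 4 6 (.cons 0x5467890321 .nil) (.node 0 7 .nil (.node 1 9 (.cons 0x5467891230 (.cons 0x8912307645 .nil)) (.node 5 8 (.cons 0x3267854091 (.cons 0x9162340785 (.cons 0x7064589123 (.cons 0x6234587091 (.cons 0x6219078543 .nil))))) .done (.leaf 0x6432198705 0 .done)) (.node 1 9 (.cons 0x5467891230 .nil) (.node 0 8 (.cons 0x7089123465 .nil) (.node 0 2 .nil (.node 5 7 (.cons 0x8912346570 (.cons 0x4320987561 (.cons 0x8912075643 .nil))) (.leaf 0x6578904321 0 .done) .done) .done) (.node 3 6 (.cons 0x8763219054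 .nil) (.node 6 8 (.cons 0x9123468705 .nil) (.node 4 8 (.cons 0x2367845091 .nil) (.node 6 9 (.cons 0x7843216905 .nil) .done .done) .done) .done) (.leaf 0x6432198705 0 .done))) .done)) (.node 6 9 .nil (.node 4 8 (.cons 0x9056123487 (.cons 0x9678450321 (.cons 0x7843216905 .nil))) .done (.node 4 8 (.cons 0x9056123487 .nil) (.node 6 8 .nil (.node 4 9 (.cons 0x9487612305 (.cons 0x7861234905 .nil)) (.node 1 7 (.cons 0x6543217890 (.cons 0x5498671230 (.cons 0x8671230945 (.cons 0x2345096871 .nil)))) .done .done) .done) (.node 3 6 (.cons 0x9054876321 .nil) (.node 6 8 .nil (.node 3 9 (.cons 0x6784509321 (.cons 0x7684509321 .nil)) (.node 4 7 (.cons 0x5612347890 (.cons 0x9347865012 (.cons 0x5687439012 .nil))) .done .done) .done) .done) .done)) .done)) .done)) (.node 5 7 (.cons 0x4321657890 .nil) (.leaf 0x6578904321 0 (.node 0 2 (.cons 0x4320987561 .nil) (.node 0 7 .nil (.node 4 6 (.cons 0x5789023461 .nil) (.node 5 9 (.cons 0x7895643012 (.cons 0x8957023461 (.cons 0x4659870321 (.cons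 0x5987021643 .nil)))) .done (.node 3 5 (.cons 0x3546789021 (.cons 0x9870216435 .nil)) (.node 1 5 (.cons 0x3461578902 (.cons 0x9870346512 .nil)) (.node 1 8 (.cons 0x7534618902 (.cons 0x9816435702 (.cons 0x3546709812 .nil))) .done .done) .done) .done)) .done) (.node 2 5 (.cons 0x7890432561 .nil) (.node 0 7 (.cons 0x9870432561 .nil) (.node 0 8 .nil (.node 1 7 (.cons 0x9871652340 (.cons 0x9806543217 (.cons 0x9087123456 .nil))) .done .done) .done) (.node 3 5 .nil (.node 1 7 (.cons 0x6543217890 (.cons 0x9871653204 (.cons 0x8906712354 .nil))) (.node 4 7 (.cons 0x5612347890 (.cons 0x9874023561 (.cons 0x8906745321 (.cons 0x2165347890 .nil)))) .done .done) (.node 0 8 .nil (.node 1 7 (.cons 0x6543217890 (.cons 0x9806543217 (.cons 0x9087123456 (.cons 0x9806712354 .nil)))) .done (.node 0 7 .nil (.node 1 5 (.cons 0x9087516234 .nil) (.node 1 8 (.cons 0x9816523407 .nil) (.leaf 0x2189076543 0 .done) .done) .done) .done)) .done)) .done)) .done)) (.node 0 7 .nil (.node 2 4 (.cons 0x3421657890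 (.cons 0x8907561243 .nil)) (.node 3 9 (.cons 0x3987654210 (.cons 0x8934216570 (.cons 0x8934216075 (.cons 0x5610789342 .nil)))) .done (.node 3 6 (.cons 0x5421098763 .nil) (.node 5 9 (.cons 0x3678954210 (.cons 0x8954210763 (.cons 0x5987042361 (.cons 0x5987016342 .nil)))) .done (.node 0 2 (.cons 0x5789024361 .nil) (.node 2 5 (.cons 0x1634257890 (.cons 0x9870432561 (.cons 0x8907524361 .nil))) .done .done) .done)) .done)) (.node 0 8 .nil (.node 1 7 (.cons 0x6543217890 (.cons 0x9806543217 (.cons 0x9087123456 .nil))) .done (.node 0 2 .nil (.node 1 7 (.cons 0x6543217890 .nil) (.node 3 9 (.cons 0x9326540871 (.cons 0x8932045671 (.cons 0x8934571206 (.cons 0x6543987102 .nil)))) .done (.node 6 9 (.cons 0x8712345690 (.cons 0x8712096543 .nil)) (.node 2 7 (.cons 0x3456987201 .nil) (.node 7 9 (.cons 0x8790126543 .nil) .done .done) .done) .done)) .done) .done)) .done)) .done))) .done)) (.node 2 5 (.cons 0x7890432561 .nil) (.node 2 7 (.cons 0x9872561043 .nil) (.node 0 7 (.cons 0x9870432561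 .nil) (.node 1 7 (.cons 0x9871652340 .nil) (.node 4 7 (.cons 0x5612347890 .nil) (.node 5 7 (.cons 0x4321657890 .nil) (.node 3 7 (.cons 0x6543789012 .nil) (.node 7 9 (.cons 0x8971234560 .nil) .done .done) .done) .done) .done) (.node 0 2 .nil (.node 6 9 (.cons 0x5278961043 .nil) (.node 3 6 (.cons 0x9870125634 (.cons 0x5436987201 .nil)) .done (.node 1 7 (.cons 0x9871652340 (.cons 0x3456987120 (.cons 0x8712096543 .nil))) .done .done)) .done) .done)) (.node 0 7 (.cons 0x9870432561 .nil) (.node 1 7 (.cons 0x9871652340 .nil) (.node 0 2 .nil (.node 6 9 (.cons 0x8709654321 (.cons 0x1789654320 (.cons 0x3456987120 .nil))) .done (.node 0 3 (.cons 0x4567890321 .nil) (.node 0 8 (.cons 0x9806543217 .nil) .done .done) .done)) (.node 6 9 (.cons 0x8709654321 .nil) (.node 3 6 (.cons 0x2543698710 .nil) (.node 4 6 (.cons 0x9871236450 .nil) (.node 6 8 (.cons 0x9078654321 .nil) .done .done) .done) (.node 4 6 (.cons 0x6450987123 .nil) (.node 3 6 (.cons 0x9871236450 .nil) (.node 6 8 (.cons 0x9078654321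 .nil) .done .done) .done) .done)) .done)) (.node 0 2 .nil (.node 1 7 (.cons 0x9871652340 .nil) (.node 6 9 (.cons 0x5234078961 (.cons 0x1789654320 (.cons 0x3456987120 .nil))) .done (.node 6 9 (.cons 0x8712345690 (.cons 0x8712096543 .nil)) (.node 1 5 (.cons 0x4325169870 .nil) (.node 4 7 (.cons 0x8961523470 (.cons 0x8965102743 (.cons 0x8961520743 .nil))) .done .done) .done) .done)) .done) .done)) .done)) (.node 1 7 (.cons 0x6543217890 .nil) (.node 0 8 (.cons 0x9806543217 .nil) (.node 0 2 .nil (.node 6 9 (.cons 0x3254089671 (.cons 0x1789654320 (.cons 0x3456987120 .nil))) .done (.node 0 3 (.cons 0x4567890321 .nil) (.node 0 7 .nil (.node 5 9 (.cons 0x4598067123 (.cons 0x6170895234 .nil)) (.node 3 6 (.cons 0x4365987120 (.cons 0x4365987021 (.cons 0x4361708952 .nil))) .done .done) .done) .done) .done)) (.node 1 5 .nil (.node 2 4 (.cons 0x9871650423 (.cons 0x5167890423 .nil)) (.node 7 9 (.cons 0x8971652340 (.cons 0x8790432615 (.cons 0x8790432651 (.cons 0x9780156243 (.cons 0x7980651243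 .nil))))) .done .done) (.node 0 2 .nil (.node 6 9 (.cons 0x9651780432 (.cons 0x1789654320 (.cons 0x3456987120 .nil))) .done (.node 0 3 (.cons 0x4567890321 .nil) (.node 0 7 .nil (.node 1 4 (.cons 0x3214567890 (.cons 0x8907654123 .nil)) (.node 3 6 (.cons 0x5412367890 (.cons 0x9870541236 (.cons 0x8907632541 .nil))) .done .done) .done) .done) .done)) .done)) .done)) (.node 5 9 (.cons 0x8716590432 .nil) (.node 5 7 (.cons 0x4321657890 .nil) (.leaf 0x6578904321 0 (.node 6 9 (.cons 0x8712345690 .nil) (.node 4 6 .nil (.node 0 2 (.cons 0x8712096543 (.cons 0x5789021643 (.cons 0x3465789021 .nil))) .done (.node 2 4 (.cons 0x3421657890 .nil) (.node 4 7 (.cons 0x5612347890 .nil) .done .done) .done)) .done) .done)) (.node 5 7 (.cons 0x4321657890 .nil) (.leaf 0x6578904321 0 (.node 6 9 (.cons 0x8712345690 .nil) (.node 5 8 .nil (.node 0 2 (.cons 0x4320987561 (.cons 0x6902345871 (.cons 0x4320965871 .nil))) .done (.node 1 5 .nil (.node 0 2 (.cons 0x4320987561 (.cons 0x6157890234 (.cons 0x8715690234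 .nil))) .done .done) .done)) .done) .done)) .done)) (.node 3 6 (.cons 0x8904523671 .nil) (.node 4 6 (.cons 0x9871236450 .nil) (.node 6 8 (.cons 0x3254098671 .nil) (.node 6 9 .nil (.node 2 7 (.cons 0x9863452710 (.cons 0x3456987210 (.cons 0x8963401725 .nil))) .done .done) .done) .done) (.node 6 9 .nil (.node 5 8 (.cons 0x9017854362 (.cons 0x7169852340 (.cons 0x1785432690 (.cons 0x3458712690 .nil)))) .done (.node 4 6 (.cons 0x2364509871 .nil) (.node 6 8 (.cons 0x3254098671 .nil) .done .done) .done)) .done)) .done))) .done)) .done))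
noncomputable def tc9_1_43 : T := (.node 1 7 (.cons 0x6543217890 .nil) (.node 1 4 (.cons 0x3214567890 .nil) (.node 1 8 (.cons 0x9045678123 .nil) (.node 1 9 (.cons 0x8765409123 .nil) (.node 6 9 (.cons 0x5409678123 .nil) (.node 1 3 (.cons 0x5409678132 .nil) (.node 1 5 (.cons 0x7815432690 .nil) .done .done) (.node 0 8 (.cons 0x9806543217 .nil) (.node 0 2 (.cons 0x3456987120 .nil) (.node 0 3 (.cons 0x2178965430 .nil) (.node 0 7 (.cons 0x8907654123 .nil) .done .done) .done) (.node 6 8 (.cons 0x7865409123 .nil) (.node 3 6 (.cons 0x9178045632 .nil) (.node 1 3 (.cons 0x7809132654 .nil) (.node 1 5 (.cons 0x9045187632 .nil) .done .done) .done) .done) .done)) .done)) .done) (.node 1 9 (.cons 0x8765409123 .nil) (.node 3 6 (.cons 0x8763219045 .nil) (.node 1 5 .nil (.node 4 7 (.cons 0x6321987450 (.cons 0x8906745123 .nil)) (.leaf 0x5123478906 0 (.node 0 2 (.cons 0x5612098743 (.cons 0x9874365120 .nil)) (.node 2 7 (.cons 0x8912745063 (.cons 0x8906512743 .nil)) .done .done) .done)) (.node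 1 3 .nil (.node 0 7 (.cons 0x8907654123 (.cons 0x8907654132 .nil)) (.node 4 6 (.cons 0x7891236450 (.cons 0x9078132645 (.cons 0x9870546312 .nil))) .done (.node 4 9 (.cons 0x4987056321 (.cons 0x7813265490 (.cons 0x4987056312 .nil))) .done .done)) .done) .done)) (.node 1 5 .nil (.node 2 7 (.cons 0x7236541890 (.cons 0x6345109872 (.cons 0x4365109872 .nil))) .done (.node 1 3 .nil (.node 4 7 (.cons 0x5612347890 (.cons 0x4789056132 (.cons 0x8745091362 .nil))) (.node 6 9 (.cons 0x8960547123 (.cons 0x8745096213 .nil)) .done .done) .done) .done)) .done)) .done) .done)) (.node 1 8 (.cons 0x9045678123 .nil) (.node 1 9 (.cons 0x8765409123 .nil) (.node 4 7 (.cons 0x5612347890 .nil) (.node 1 3 (.cons 0x4789056132 .nil) (.node 1 5 .nil (.node 0 3 (.cons 0x4567890321 (.cons 0x6789032154 (.cons 0x9032651874 .nil))) (.node 0 8 (.cons 0x4567198032 (.cons 0x8091547623 (.cons 0x9087432651 .nil))) .done .done) .done) .done) (.node 4 9 .nil (.node 3 8 (.cons 0x9045678321 (.cons 0x9405612387 (.cons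 0x5498321760 (.cons 0x3874905621 (.cons 0x9405617832 .nil))))) .done (.node 1 3 (.cons 0x7813265490 .nil) (.node 1 5 .nil (.node 0 2 (.cons 0x5617894320 (.cons 0x8945176023 (.cons 0x6517894320 .nil))) .done .done) .done) .done)) .done)) .done) .done) .done)) (.node 6 9 (.cons 0x8712345690 .nil) (.node 3 6 .nil (.node 1 8 (.cons 0x9045678123 (.cons 0x9045632187 .nil)) (.node 7 9 (.cons 0x7981234560 (.cons 0x7981236054 (.cons 0x9781236504 .nil))) (.node 0 2 (.cons 0x7981206543 (.cons 0x7981206345 (.cons 0x9781204365 .nil))) .done .done) (.node 5 7 (.cons 0x1875432690 (.cons 0x9018754362 (.cons 0x7543609812 .nil))) (.leaf 0x8123690457 0 .done) .done)) (.node 4 6 .nil (.node 3 7 (.cons 0x6543789012 (.cons 0x6450987321 (.cons 0x4650987321 .nil))) (.node 0 3 (.cons 0x4567890321 (.cons 0x5467890321 .nil)) (.node 4 7 (.cons 0x9874650321 (.cons 0x5098746123 .nil)) (.node 5 7 (.cons 0x4321657890 (.cons 0x9875643012 .nil)) .done .done) .done) .done) (.node 6 8 .nil (.node 7 9 (.cons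 0x8790126543 (.cons 0x8609712345 (.cons 0x5687904321 .nil))) (.node 1 3 (.cons 0x5431268790 .nil) (.node 2 8 (.cons 0x7982134560 (.cons 0x5409678231 (.cons 0x9782136504 (.cons 0x9782136540 .nil)))) .done (.node 1 9 (.cons 0x8765409123 (.cons 0x7865409123 .nil)) (.node 4 7 (.cons 0x6321987450 (.cons 0x7450689123 (.cons 0x2136897450 (.cons 0x3268745091 .nil)))) .done .done) .done)) .done) .done) .done)) .done)) (.node 0 2 (.cons 0x8712096543 .nil) (.node 3 6 (.cons 0x8712096345 .nil) (.node 0 8 (.cons 0x3456908712 .nil) (.node 0 3 (.cons 0x4567890321 .nil) (.node 0 7 (.cons 0x5436987021 .nil) .done .done) (.node 0 3 (.cons 0x4567890321 .nil) (.node 0 7 (.cons 0x5436987021 .nil) .done .done) .done)) (.node 0 3 (.cons 0x4567890321 .nil) (.node 0 8 (.cons 0x3456908712 .nil) (.node 0 7 .nil (.node 1 4 (.cons 0x3214567890 (.cons 0x5698703412 (.cons 0x8907654123 .nil))) (.node 2 5 (.cons 0x1452367890 (.cons 0x4307896521 (.cons 0x8907632541 .nil))) .done .done) .done) .done) .done)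 .done)) (.node 0 8 (.cons 0x3456908712 .nil) (.node 0 3 (.cons 0x4567890321 .nil) (.node 3 6 (.cons 0x5436908712 .nil) (.node 0 7 .nil (.node 1 4 (.cons 0x3214567890 (.cons 0x5698702143 (.cons 0x8907654123 (.cons 0x3698705412 .nil)))) .done .done) .done) .done) (.node 0 3 (.cons 0x4567890321 .nil) (.node 6 8 (.cons 0x5430968712 .nil) (.node 0 7 .nil (.node 1 5 (.cons 0x6789032154 (.cons 0x6987034512 (.cons 0x9867032154 .nil))) .done .done) .done) .done) .done)) .done)) .done)) (.node 3 6 (.cons 0x6321789054 .nil) (.node 4 6 (.cons 0x9871236450 .nil) (.node 6 9 .nil (.node 5 8 (.cons 0x4589067123 (.cons 0x7123458960 (.cons 0x1785432690 (.cons 0x3458712690 .nil)))) .done (.node 6 8 .nil (.node 3 9 (.cons 0x8765409321 (.cons 0x8671239045 (.cons 0x7862109345 (.cons 0x4509326871 .nil)))) (.leaf 0x2390456871 0 .done) .done) .done)) (.node 6 9 .nil (.node 5 8 (.cons 0x4589067123 (.cons 0x7123458960 (.cons 0x1785432690 (.cons 0x3458712690 .nil)))) .done (.node 6 8 .nil (.node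 3 9 (.cons 0x2178936450 (.cons 0x8671239045 (.cons 0x7862109345 .nil))) (.leaf 0x2390456871 0 .done) .done) .done)) .done)) (.node 6 9 .nil (.node 5 8 (.cons 0x9017854362 (.cons 0x7123458960 (.cons 0x1785432690 (.cons 0x3458712690 .nil)))) .done (.node 4 6 (.cons 0x2364509871 .nil) (.node 1 4 (.cons 0x3214567890 .nil) (.node 6 8 (.cons 0x7145098632 .nil) .done .done) .done) .done)) .done)) .done))) (.node 0 3 (.cons 0x4567890321 .nil) (.node 0 7 .nil (.node 1 4 (.cons 0x3214567890 (.cons 0x9870561432 (.cons 0x8907654123 .nil))) (.node 1 8 (.cons 0x9045678123 (.cons 0x9812345607 .nil)) (.node 1 9 (.cons 0x8765409123 .nil) (.node 0 8 (.cons 0x4567089123 .nil) (.node 3 8 (.cons 0x9045678321 (.cons 0x6705419832 (.cons 0x7091832654 .nil))) .done .done) .done) .done) .done) (.node 2 7 (.cons 0x4327890561 .nil) (.node 1 7 (.cons 0x6543217890 .nil) (.node 5 7 (.cons 0x4321657890 .nil) (.node 0 8 (.cons 0x9087123456 .nil) (.node 0 2 .nil (.node 6 9 (.cons 0x3456987210 (.cons 0x3456987201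 (.cons 0x8712096543 .nil))) .done .done) .done) .done) (.node 7 9 (.cons 0x8972106543 .nil) (.node 4 7 (.cons 0x5612347890 .nil) (.node 3 7 (.cons 0x6543789012 .nil) (.node 5 7 (.cons 0x4321657890 .nil) .done .done) .done) (.node 0 8 (.cons 0x3456089721 .nil) (.node 1 8 (.cons 0x3456218790 .nil) (.leaf 0x2187903456 0 .done) .done) .done)) .done)) (.node 0 8 .nil (.node 1 7 (.cons 0x6543217890 (.cons 0x9806543217 (.cons 0x9087123456 .nil))) .done (.node 0 2 .nil (.node 1 7 (.cons 0x6543217890 (.cons 0x9871650234 .nil)) (.node 6 9 (.cons 0x8712345690 (.cons 0x8712096543 .nil)) (.node 3 6 (.cons 0x9087123654 (.cons 0x5436987201 .nil)) .done .done) .done) .done) .done)) .done)) .done)) (.node 0 7 .nil (.node 1 4 (.cons 0x3214567890 (.cons 0x9870561432 (.cons 0x8907654123 .nil))) (.node 1 8 (.cons 0x9045678123 (.cons 0x9812345607 .nil)) (.node 1 9 (.cons 0x8765409123 .nil) (.node 3 8 (.cons 0x9045678321 (.cons 0x6705419832 (.cons 0x7091832654 .nil))) (.leaf 0x2190783456 0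 .done) .done) .done) .done) (.node 0 8 .nil (.node 1 7 (.cons 0x6543217890 (.cons 0x9806543217 (.cons 0x9087123456 .nil))) .done (.node 0 2 .nil (.node 1 7 (.cons 0x6543217890 (.cons 0x9871650234 .nil)) (.node 6 9 (.cons 0x8712345690 (.cons 0x8712096543 .nil)) (.node 3 6 (.cons 0x9087123654 .nil) (.node 1 4 (.cons 0x3214567890 (.cons 0x9654178023 (.cons 0x9876320541 .nil))) (.node 1 8 (.cons 0x5432690781 (.cons 0x5418967023 (.cons 0x9814502367 .nil))) .done .done) .done) .done) .done) .done) .done)) .done)) .done)) .done))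
noncomputable def tc9_1_44 : T := (.node 3 6 .nil (.node 0 4 (.cons 0x5409876321 .nil) (.node 0 5 (.cons 0x9871650432 .nil) (.node 4 8 (.cons 0x9054876321 (.cons 0x9056348712 .nil)) (.node 3 9 (.cons 0x5671239840 (.cons 0x9367845012 .nil)) (.leaf 0x6504893217 0 (.node 1 9 (.cons 0x8719056432 (.cons 0x8405671932 (.cons 0x9123678450 (.cons 0x5623917840 .nil)))) .done .done)) .done) (.node 3 9 (.cons 0x5046178932 (.cons 0x7893216504 (.cons 0x4056178932 .nil))) (.node 2 4 (.cons 0x5421098763 .nil) (.node 2 7 (.cons 0x8936427105 .nil) (.node 2 5 (.cons 0x8901725643 .nil) .done .done) (.leaf 0x9871243650 0 .done)) .done) .done)) (.node 1 8 (.cons 0x9045678123 (.cons 0x9045632187 .nil)) (.node 1 4 (.cons 0x3214567890 .nil) (.node 0 7 (.cons 0x8907654123 (.cons 0x8907632145 (.cons 0x5418907632 .nil))) .done .done) .done) .done)) (.node 6 9 .nil (.node 0 4 (.cons 0x8712340965 .nil) (.node 0 7 (.cons 0x8709654321 (.cons 0x5432169870 .nil)) (.node 0 3 (.cons 0x9876123045 .nil) (.node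 1 8 (.cons 0x9032187654 (.cons 0x5432690781 (.cons 0x7812309654 .nil))) .done .done) .done) (.node 0 7 (.cons 0x8709654321 .nil) (.node 1 4 (.cons 0x3214567890 (.cons 0x8907654123 .nil)) (.node 5 8 (.cons 0x9041236785 (.cons 0x9856071234 (.cons 0x9078563214 (.cons 0x2341785690 (.cons 0x9078563412 .nil))))) .done .done) (.node 2 5 (.cons 0x7890125634 (.cons 0x7896340125 (.cons 0x8961704325 (.cons 0x3254078961 .nil)))) .done .done)) .done)) (.node 6 8 .nil (.node 0 4 (.cons 0x9043217865 .nil) (.node 0 5 (.cons 0x9056871234 (.cons 0x9871650432 .nil)) (.node 4 9 (.cons 0x7894056321 .nil) (.node 0 7 (.cons 0x9078654321 (.cons 0x7054986123 .nil)) (.node 2 4 (.cons 0x3249865071 (.cons 0x5071689423 .nil)) .done .done) (.leaf 0x8712365049 0 .done)) .done) (.node 5 9 (.cons 0x3216789540 (.cons 0x5904326871 .nil)) (.node 0 7 (.cons 0x8954076123 (.cons 0x9078654321 (.cons 0x5986170432 .nil))) .done (.node 1 5 (.cons 0x2346517890 (.cons 0x7863215904 (.cons 0x7689045123 .nil))) .done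 .done)) .done)) .done) .done)) .done)) (.node 4 8 (.cons 0x7123489065 .nil) (.node 0 7 (.cons 0x9843217065 .nil) (.node 0 5 (.cons 0x3465098712 .nil) (.node 6 9 (.cons 0x8709654321 .nil) (.node 6 8 (.cons 0x9078654321 .nil) (.node 3 6 .nil (.node 1 8 (.cons 0x5690781234 (.cons 0x9078123654 .nil)) (.node 4 7 (.cons 0x5476098123 (.cons 0x9847123605 .nil)) (.leaf 0x3690547812 0 .done) .done) .done) .done) (.node 6 8 (.cons 0x9078654321 .nil) (.node 3 6 .nil (.node 1 8 (.cons 0x2345690781 (.cons 0x9078123654 .nil)) (.node 1 9 (.cons 0x5687091234 (.cons 0x7054819632 (.cons 0x9123654870 .nil))) .done .done) .done) .done) .done)) (.node 0 4 (.cons 0x9871650432 .nil) (.node 0 3 (.cons 0x4567890321 .nil) (.node 3 6 (.cons 0x5409876321 .nil) (.node 6 8 (.cons 0x9078654321 .nil) (.node 6 9 (.cons 0x8709654321 .nil) .done .done) .done) .done) .done) .done)) (.node 7 9 (.cons 0x8790126543 .nil) (.node 6 9 (.cons 0x5432169870 .nil) (.node 3 6 .nil (.node 1 4 (.cons 0x3214567890 (.cons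 0x8907632145 (.cons 0x5412367890 .nil))) (.node 1 5 (.cons 0x2348971560 (.cons 0x9845123670 (.cons 0x2360798451 .nil))) .done .done) (.node 6 8 .nil (.node 1 3 (.cons 0x8790134562 (.cons 0x5431097862 .nil)) (.node 1 5 (.cons 0x2348971560 (.cons 0x2345168970 (.cons 0x9706845132 .nil))) .done (.node 2 5 (.cons 0x1798432560 (.cons 0x6897013452 (.cons 0x5217098643 (.cons 0x4523168970 .nil)))) .done .done)) .done) .done)) .done) (.node 2 7 .nil (.node 5 9 (.cons 0x7123489560 (.cons 0x1723489560 .nil)) (.node 0 3 (.cons 0x4895671230 (.cons 0x5643098721 (.cons 0x6598430172 .nil))) (.node 0 4 (.cons 0x3217659840 (.cons 0x8956172340 .nil)) .done .done) (.leaf 0x6598432710 0 .done)) (.node 3 7 (.cons 0x6543789012 .nil) (.node 5 7 (.cons 0x9843217560 .nil) (.node 4 7 .nil (.node 1 8 (.cons 0x3456218790 (.cons 0x5476098123 (.cons 0x7456098123 .nil))) .done .done) .done) (.node 5 7 (.cons 0x9843217560 .nil) (.node 4 7 .nil (.node 1 8 (.cons 0x3456218790 (.cons 0x5476098123 (.cons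 0x2374560981 .nil))) .done .done) .done) .done)) .done)) .done)) (.node 7 9 (.cons 0x8790126543 .nil) (.node 2 7 .nil (.node 1 9 (.cons 0x2345619870 (.cons 0x8916543270 (.cons 0x3270654891 .nil))) .done (.node 3 7 (.cons 0x6543789012 .nil) (.node 4 7 .nil (.node 0 5 (.cons 0x3465098712 (.cons 0x8974506123 .nil)) (.node 1 8 (.cons 0x9760548123 (.cons 0x5476098123 (.cons 0x7456098123 .nil))) .done .done) .done) .done) .done)) (.node 1 8 (.cons 0x3456218790 .nil) (.node 1 9 (.cons 0x2345619870 .nil) (.node 1 3 (.cons 0x2319845670 .nil) (.node 1 4 (.cons 0x3214567890 .nil) .done .done) (.node 1 3 (.cons 0x9132654870 .nil) (.node 1 4 (.cons 0x3214567890 .nil) (.node 1 5 (.cons 0x9078154326 .nil) .done .done) (.node 1 4 (.cons 0x3214567890 .nil) (.node 1 5 (.cons 0x9078154326 .nil) .done .done) .done)) .done)) (.node 1 9 (.cons 0x2345619870 .nil) (.node 1 5 .nil (.node 0 8 (.cons 0x7089165432 (.cons 0x9154807623 (.cons 0x3480791562 .nil))) .done (.node 1 3 (.cons 0x2319845670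 .nil) (.node 1 4 (.cons 0x3214567890 .nil) .done .done) .done)) (.node 5 7 (.cons 0x9843217560 .nil) (.node 2 7 (.cons 0x8916072345 .nil) (.node 2 8 (.cons 0x6075432891 .nil) (.leaf 0x9823457061 0 .done) .done) (.node 1 5 (.cons 0x8709154326 .nil) (.node 1 3 (.cons 0x9078132654 .nil) (.node 1 4 (.cons 0x3214567890 .nil) .done .done) .done) .done)) .done)) .done)) .done)) .done))) (.node 1 8 .nil (.node 0 7 (.cons 0x9078123456 .nil) (.leaf 0x2189076543 0 (.node 3 7 (.cons 0x5489067321 (.cons 0x9067321845 (.cons 0x9018734562 .nil))) (.node 5 9 (.cons 0x6123459870 (.cons 0x3706459812 (.cons 0x9543261870 (.cons 0x6073459812 .nil)))) (.node 0 2 (.cons 0x8956437120 (.cons 0x7346598120 (.cons 0x6459812073 .nil))) .done .done) .done) (.node 0 4 (.cons 0x9045678123 .nil) (.node 2 9 (.cons 0x1654329870 (.cons 0x8923407165 (.cons 0x7061892345 (.cons 0x3298704561 .nil)))) (.node 5 9 (.cons 0x5926107843 (.cons 0x3267095481 (.cons 0x7184326095 (.cons 0x8712659043 .nil)))) (.leaf 0x6187043295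 0 .done) .done) .done) .done))) (.node 1 5 (.cons 0x7609845123 .nil) (.node 1 4 (.cons 0x3214567890 .nil) (.node 4 9 .nil (.node 0 3 (.cons 0x4567890321 (.cons 0x8765490321 (.cons 0x5498761230 (.cons 0x8765123094 .nil)))) (.node 0 5 (.cons 0x3465098712 (.cons 0x4987165032 .nil)) .done .done) (.node 1 3 (.cons 0x7813265490 .nil) (.node 1 9 .nil (.node 0 4 (.cons 0x8765409123 .nil) (.node 5 8 (.cons 0x1785623490 (.cons 0x5894067132 (.cons 0x4587623190 (.cons 0x9045876213 .nil)))) .done .done) .done) .done) .done)) .done) (.node 1 4 (.cons 0x3214567890 .nil) (.node 0 4 .nil (.node 3 8 (.cons 0x9012654387 (.cons 0x7651238904 (.cons 0x9048326715 .nil))) (.node 7 9 (.cons 0x9783456210 (.cons 0x6798321540 (.cons 0x3265409781 (.cons 0x5604389712 .nil)))) .done .done) (.node 1 3 (.cons 0x9045623187 .nil) (.node 1 9 (.cons 0x7819045623 .nil) .done .done) .done)) .done) .done)) .done)) (.node 2 7 (.cons 0x5609843271 .nil) (.node 2 5 (.cons 0x3465217890 .nil) (.node 6 8 .nil (.node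 0 7 (.cons 0x9843256170 (.cons 0x9078654321 (.cons 0x5217098643 (.cons 0x4325689071 .nil)))) .done (.node 3 6 (.cons 0x9843652710 .nil) (.node 6 9 (.cons 0x3456987210 .nil) .done .done) .done)) (.node 0 5 (.cons 0x9056234871 .nil) (.node 1 5 (.cons 0x9843271560 .nil) (.node 6 8 (.cons 0x9056871234 .nil) (.node 6 9 (.cons 0x3456987210 .nil) (.node 0 4 (.cons 0x8965172340 .nil) (.node 3 6 (.cons 0x3698725401 .nil) .done .done) .done) .done) .done) (.node 6 8 .nil (.node 4 9 (.cons 0x2349871650 (.cons 0x1723498650 (.cons 0x5068943271 .nil))) .done (.node 6 9 (.cons 0x3456987210 .nil) (.node 3 6 .nil (.node 4 9 (.cons 0x2349871650 (.cons 0x8943650172 (.cons 0x4987163250 .nil))) .done .done) .done) .done)) .done)) .done)) (.node 6 8 .nil (.node 1 5 (.cons 0x3276098451 (.cons 0x9068432715 .nil)) (.node 0 4 (.cons 0x9043217865 (.cons 0x7689045123 .nil)) (.leaf 0x3271568904 0 .done) (.node 0 5 (.cons 0x9056234871 (.cons 0x9056871234 .nil)) (.node 0 7 (.cons 0x9845160723 (.cons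 0x9078654321 .nil)) .done .done) .done)) (.node 3 6 .nil (.node 5 9 (.cons 0x5984327160 (.cons 0x8436271095 (.cons 0x3627845901 (.cons 0x2789543610 .nil)))) (.node 0 4 (.cons 0x8712659043 (.cons 0x5904368721 (.cons 0x5409876321 .nil))) .done .done) (.node 6 9 .nil (.node 3 7 (.cons 0x6543789012 (.cons 0x8960127345 (.cons 0x8734569012 .nil))) .done .done) .done)) .done)) .done)) .done))) .done))
noncomputable def tc9_1_45 : T := (.node 1 5 .nil (.node 0 4 (.cons 0x6789045123 .nil) (.node 0 7 (.cons 0x9870432165 .nil) (.node 6 9 (.cons 0x5432169870 (.cons 0x8712340965 (.cons 0x2345169870 (.cons 0x8709621543 .nil)))) .done (.node 1 8 (.cons 0x9078154326 (.cons 0x9078156234 .nil)) (.node 1 9 (.cons 0x8709154326 (.cons 0x5619870432 .nil)) .done .done) .done)) (.node 0 3 (.cons 0x4567890321 (.cons 0x6789032154 .nil)) (.node 4 6 (.cons 0x7890346512 .nil) (.node 3 6 (.cons 0x4512367890 .nil) (.node 2 7 (.cons 0x9872103465 (.cons 0x6345109872 (.cons 0x4365109872 .nil))) (.node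 1 3 (.cons 0x4563109872 .nil) (.leaf 0x987265431 0 .done) .done) .done) (.node 1 3 (.cons 0x2315467890 .nil) .done .done)) (.node 1 9 (.cons 0x8762309154 .nil) (.node 4 8 (.cons 0x5678409123 (.cons 0x9156784032 (.cons 0x9032678451 (.cons 0x7843265190 (.cons 0x7843091562 .nil))))) .done (.node 2 4 (.cons 0x7891654230 (.cons 0x9876154230 .nil)) (.node 0 7 (.cons 0x6542307891 (.cons 0x6519870324 .nil)) (.node 2 7 (.cons 0x4561987230 (.cons 0x8903276514 .nil)) .done .done) .done) .done)) .done)) (.node 1 3 (.cons 0x6789045132 (.cons 0x4098765132 .nil)) .done .done))) (.node 0 7 (.cons 0x8907654123 .nil) (.node 3 6 (.cons 0x8907632145 .nil) (.node 1 3 .nil (.node 6 9 (.cons 0x5432169870 (.cons 0x8709623154 (.cons 0x8709621345 .nil))) .done (.node 1 8 .nil (.node 0 3 (.cons 0x4567890321 (.cons 0x9032187654 (.cons 0x7654189032 .nil))) .done (.node 1 9 .nil (.node 0 4 (.cons 0x8765409123 (.cons 0x8762319045 .nil)) (.node 3 9 (.cons 0x8932167045 (.cons 0x6154078932 .nil)) .done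 .done) .done) .done)) .done)) (.node 4 6 .nil (.node 3 8 (.cons 0x7654123890 (.cons 0x9832154607 .nil)) (.leaf 0x2389076451 0 (.node 0 4 (.cons 0x9046512387 (.cons 0x9046517832 .nil)) .done .done)) (.node 6 9 (.cons 0x5432169870 .nil) (.node 6 8 .nil (.node 2 9 (.cons 0x4516329870 (.cons 0x8632907154 (.cons 0x4517863290 (.cons 0x8632907145 .nil)))) .done .done) .done) .done)) .done)) (.node 0 5 (.cons 0x9870561234 .nil) (.node 4 9 (.cons 0x5612349870 .nil) (.node 0 4 (.cons 0x9870432165 .nil) (.node 1 9 (.cons 0x5619870432 .nil) (.node 0 3 (.cons 0x5498761230 .nil) (.node 1 3 .nil (.node 2 5 (.cons 0x7891652340 (.cons 0x8940761325 .nil)) (.leaf 0x7613250498 0 .done) .done) .done) .done) .done) (.leaf 0x6123498705 0 (.node 4 6 .nil (.node 1 8 (.cons 0x5621870943 (.cons 0x9054678123 (.cons 0x9056432187 .nil))) .done (.node 0 4 (.cons 0x9870432165 .nil) (.node 3 6 (.cons 0x5409876321 .nil) (.node 6 9 (.cons 0x8712345690 .nil) .done .done) .done) .done)) .done))) (.node 0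 3 (.cons 0x4567890321 .nil) (.node 0 4 (.cons 0x9870432165 .nil) (.node 0 8 (.cons 0x9087123456 .nil) (.node 0 2 .nil (.node 4 9 (.cons 0x5612349870 (.cons 0x9456178023 (.cons 0x5612078943 .nil))) .done .done) .done) .done) (.node 0 8 (.cons 0x9087123456 .nil) (.node 0 2 .nil (.node 4 9 (.cons 0x5498761230 (.cons 0x3205498761 (.cons 0x9456178023 (.cons 0x5498761203 .nil)))) .done .done) .done) .done)) .done)) (.node 1 9 (.cons 0x2345619870 .nil) (.node 1 3 (.cons 0x8907654132 .nil) (.node 1 8 .nil (.node 0 3 (.cons 0x4567890321 (.cons 0x9032187654 .nil)) (.node 0 4 (.cons 0x9876123045 (.cons 0x9045678123 .nil)) .done .done) .done) .done) (.node 1 3 (.cons 0x8907654132 .nil) (.node 1 8 .nil (.node 0 4 (.cons 0x5619870432 (.cons 0x9045678123 .nil)) (.node 3 5 (.cons 0x9876123540 (.cons 0x9812354067 (.cons 0x9045321876 (.cons 0x9816704532 (.cons 0x9045326781 .nil))))) .done .done) .done) .done) .done)) .done))) .done)) (.node 3 6 (.cons 0x5412367890 .nil) (.node 6 9 (.cons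 0x8712345690 .nil) (.node 6 8 .nil (.node 0 2 (.cons 0x5432096871 (.cons 0x5417869023 .nil)) (.node 0 5 (.cons 0x7896145023 (.cons 0x9876145023 .nil)) (.node 7 9 (.cons 0x8790126543 (.cons 0x9786123450 (.cons 0x8796143205 (.cons 0x5097863412 .nil)))) .done .done) (.node 3 7 (.cons 0x6543789012 (.cons 0x9012687345 .nil)) (.node 5 7 (.cons 0x5789614320 (.cons 0x9860214375 .nil)) (.node 1 3 (.cons 0x8906754132 (.cons 0x2314576890 .nil)) .done .done) (.node 2 9 (.cons 0x2987345610 (.cons 0x8654371092 (.cons 0x5437862901 (.cons 0x5410926873 .nil)))) .done .done)) .done)) (.node 4 6 .nil (.node 3 9 (.cons 0x2178654390 .nil) (.node 0 8 (.cons 0x2345690871 (.cons 0x8093217645 (.cons 0x9087123465 .nil))) (.node 1 3 (.cons 0x4569087132 .nil) .done (.node 1 3 (.cons 0x9087623145 .nil) .done .done)) (.node 0 5 (.cons 0x6789054123 (.cons 0x8764509321 (.cons 0x7893216450 .nil))) (.node 1 3 (.cons 0x6789054132 .nil) (.node 1 5 (.cons 0x7862154390 (.cons 0x7890514632 .nil)) .done .done)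 .done) .done)) .done) .done)) (.node 2 4 (.cons 0x7890124365 .nil) (.node 4 7 (.cons 0x5634789012 .nil) (.node 4 6 .nil (.node 2 5 (.cons 0x2563478901 .nil) (.node 3 7 (.cons 0x6543789012 (.cons 0x8901254673 .nil)) (.node 3 8 (.cons 0x2178345690 (.cons 0x9837645210 .nil)) (.node 0 2 (.cons 0x2096543871 (.cons 0x9837645201 (.cons 0x9837641025 .nil))) (.node 0 8 (.cons 0x5208963741 (.cons 0x9645208371 (.cons 0x9641738025 .nil))) .done .done) .done) .done) (.node 3 7 (.cons 0x6543789012 (.cons 0x6452109873 .nil)) (.leaf 0x1256437890 0 .done) .done)) .done) (.node 1 3 .nil (.node 0 8 (.cons 0x3456908712 (.cons 0x7809621345 (.cons 0x9087431265 (.cons 0x9087456213 (.cons 0x9087623145 .nil))))) .done (.node 1 5 (.cons 0x2156347890 .nil) (.node 2 5 (.cons 0x1256347890 .nil) (.node 5 9 (.cons 0x7895634210 .nil) (.node 4 8 (.cons 0x8417632590 .nil) (.node 0 4 (.cons 0x9048715632 .nil) (.node 0 5 (.cons 0x1423678950 .nil) .done .done) .done) .done) .done) .done) .done)) .done))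 (.node 4 9 .nil (.node 0 3 (.cons 0x4567890321 (.cons 0x8765490321 (.cons 0x5498761230 .nil))) (.node 0 5 (.cons 0x9876145032 (.cons 0x8763214905 (.cons 0x8712365094 .nil))) .done .done) (.node 4 6 .nil (.node 2 5 (.cons 0x8710943652 .nil) (.node 0 7 (.cons 0x5214369870 (.cons 0x9870125643 .nil)) (.node 1 5 (.cons 0x6349870152 (.cons 0x8907645123 (.cons 0x1523649870 .nil))) .done (.node 0 3 (.cons 0x4567890321 (.cons 0x5467890321 .nil)) (.node 0 5 (.cons 0x7896341250 (.cons 0x9870523641 .nil)) .done .done) .done)) (.node 3 7 (.cons 0x6543789012 (.cons 0x6452109873 .nil)) (.leaf 0x1256437890 0 (.node 0 3 (.cons 0x2541698730 (.cons 0x5467890321 .nil)) (.node 0 5 (.cons 0x7894163250 (.cons 0x7890523641 .nil)) .done .done) .done)) .done)) .done) .done)) .done)) .done)) (.node 6 9 (.cons 0x8712345690 .nil) (.node 0 4 (.cons 0x8712340965 .nil) (.node 6 8 .nil (.node 0 5 (.cons 0x2367890541 (.cons 0x9054178632 (.cons 0x5096871432 .nil))) .done (.node 4 6 .nil (.node 0 3 (.cons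 0x4567890321 (.cons 0x5467890321 .nil)) (.node 5 8 (.cons 0x4321785690 (.cons 0x9032178564 .nil)) (.node 1 9 (.cons 0x7856912340 (.cons 0x9123046587 .nil)) (.node 0 7 (.cons 0x9658704321 (.cons 0x3219854670 (.cons 0x5891467032 .nil))) .done .done) (.node 1 5 (.cons 0x7851432690 (.cons 0x7641589032 (.cons 0x7890321564 .nil))) .done .done)) .done) .done) .done)) (.node 0 5 (.cons 0x2367890541 .nil) (.node 1 8 (.cons 0x9054187632 .nil) (.node 3 8 (.cons 0x5096783214 .nil) (.node 4 6 (.cons 0x9056432187 .nil) (.node 4 8 (.cons 0x5096784123 .nil) .done .done) (.leaf 0x7690541238 0 .done)) (.node 1 5 (.cons 0x8715690432 .nil) (.node 1 9 (.cons 0x7819045623 .nil) .done .done) .done)) (.node 6 8 (.cons 0x9054178632 .nil) (.node 4 6 .nil (.node 0 8 (.cons 0x5690871234 (.cons 0x9087123465 .nil)) (.node 3 9 (.cons 0x2178654390 (.cons 0x8093217645 (.cons 0x7893216450 .nil))) .done .done) .done) .done) .done)) .done)) (.node 4 6 .nil (.node 3 7 (.cons 0x6543789012 (.cons 0x5643789012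 .nil)) (.node 6 8 .nil (.node 2 9 (.cons 0x6543789210 (.cons 0x5643789210 (.cons 0x7345689210 (.cons 0x5436871092 (.cons 0x5417863290 .nil))))) .done (.node 3 8 (.cons 0x2178345690 .nil) (.node 1 5 (.cons 0x7834512690 (.cons 0x7645123890 .nil)) (.node 0 2 (.cons 0x4517836902 (.cons 0x3789645120 (.cons 0x7890236415 (.cons 0x5469021783 .nil)))) .done .done) .done) .done)) (.node 2 5 (.cons 0x1452367890 (.cons 0x8901254673 (.cons 0x2546378901 .nil))) (.leaf 0x8901256437 0 .done) .done)) .done) .done)) .done)) .done))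
noncomputable def tc9_1_46 : T := (.node 3 6 (.cons 0x5409876321 .nil) (.node 2 9 (.cons 0x5401298763 (.cons 0x7892104365 (.cons 0x7892104563 .nil))) (.node 3 8 (.cons 0x9012654387 (.cons 0x7834562901 .nil)) (.node 3 7 (.cons 0x6543789012 (.cons 0x8734562901 .nil)) (.node 4 8 (.cons 0x9210673845 (.cons 0x5483760921 .nil)) (.node 1 3 (.cons 0x8456731092 (.cons 0x7843109265 .nil)) .done .done) (.leaf 0x8736540129 0 .done)) (.node 5 7 (.cons 0x9012657834 (.cons 0x7560129834 (.cons 0x4387562901 (.cons 0x9043875621 .nil)))) (.node 3 7 (.cons 0x6543789012 (.cons 0x8734562901 .nil)) (.node 0 5 (.cons 0x6378921054 .nil) (.node 1 7 (.cons 0x9265017834 (.cons 0x4365017892 .nil)) .done .done) .done) .done) .done)) (.node 1 9 (.cons 0x7891236540 .nil) (.node 3 8 (.cons 0x9012654387 (.cons 0x7638921045 .nil)) (.node 5 7 (.cons 0x9012657834 (.cons 0x8754326190 (.cons 0x9043875621 .nil))) (.node 7 9 (.cons 0x4389756012 (.cons 0x8975604321 (.cons 0x8340621975 .nil))) (.node 5 8 (.cons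 0x2634587910 (.cons 0x4062385791 (.cons 0x7854326190 (.cons 0x2604385791 .nil)))) .done .done) (.node 6 8 (.cons 0x2345786190 (.cons 0x7568340921 .nil)) .done .done)) (.node 0 5 (.cons 0x4509167832 (.cons 0x7832619054 .nil)) (.node 2 7 (.cons 0x6345019872 (.cons 0x7298345610 (.cons 0x9016278345 (.cons 0x4327890561 .nil)))) .done .done) .done)) (.node 0 5 (.cons 0x7891236504 .nil) (.node 5 7 (.cons 0x6578912340 (.cons 0x8756234091 (.cons 0x2198756340 .nil))) (.node 0 7 (.cons 0x8921075436 (.cons 0x8921075634 .nil)) (.node 1 8 (.cons 0x9187043265 (.cons 0x5407632981 (.cons 0x7045632981 .nil))) .done .done) .done) (.node 2 4 (.cons 0x3240567891 (.cons 0x3245098761 .nil)) .done .done)) .done)) .done)) (.node 5 7 (.cons 0x4365789012 (.cons 0x9875634012 .nil)) (.node 3 7 (.cons 0x6543789012 .nil) (.leaf 0x2378904561 0 (.node 0 5 (.cons 0x6123789054 .nil) (.node 5 8 (.cons 0x4589067321 (.cons 0x9854067321 (.cons 0x7321609854 (.cons 0x7345890612 .nil)))) .done .done) (.node 1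 8 (.cons 0x9043218756 (.cons 0x9045623781 .nil)) (.node 2 9 (.cons 0x9265437810 (.cons 0x1892376540 (.cons 0x5406732981 (.cons 0x9265401873 .nil)))) (.node 7 9 (.cons 0x7981234560 (.cons 0x5406798123 (.cons 0x8129756043 .nil))) .done .done) (.node 1 5 (.cons 0x9815406732 (.cons 0x9045187326 .nil)) (.node 3 5 (.cons 0x7609812354 (.cons 0x9812354067 .nil)) .done .done) .done)) .done))) (.node 3 7 (.cons 0x6543789012 .nil) (.leaf 0x2378904561 0 (.node 1 9 (.cons 0x8754326190 (.cons 0x8756234091 (.cons 0x8732190456 .nil))) (.node 1 8 (.cons 0x8190457623 (.cons 0x9043265781 .nil)) (.node 0 8 (.cons 0x9087543261 (.cons 0x9180432657 (.cons 0x9087321654 (.cons 0x9180456732 .nil)))) .done (.node 2 8 (.cons 0x9012873456 (.cons 0x7563401982 (.cons 0x7543289061 (.cons 0x6573281904 .nil)))) .done .done)) .done) (.node 5 8 (.cons 0x4589067321 (.cons 0x9854067321 (.cons 0x7321609854 (.cons 0x7345890612 .nil)))) .done .done))) (.leaf 0x1234578906 0 .done))) (.node 6 9 .nil (.node 2 7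 (.cons 0x5436109872 (.cons 0x3456987210 (.cons 0x5698721043 .nil))) .done (.node 1 7 (.cons 0x5698712340 (.cons 0x8712340965 .nil)) (.node 0 5 (.cons 0x4509871632 (.cons 0x6178905432 .nil)) (.node 3 5 (.cons 0x8906712354 (.cons 0x7896534012 (.cons 0x8904532176 .nil))) .done .done) (.node 2 7 (.cons 0x5698721043 (.cons 0x5436109872 .nil)) (.node 2 5 (.cons 0x9871043652 (.cons 0x8901725634 .nil)) (.node 2 4 (.cons 0x9871042563 (.cons 0x8901724365 .nil)) (.node 1 5 (.cons 0x7896512340 (.cons 0x8724369015 (.cons 0x8901542763 .nil))) .done .done) .done) .done) .done)) (.node 4 6 .nil (.node 3 7 (.cons 0x6543789012 (.cons 0x5643789012 (.cons 0x5461237890 .nil))) (.leaf 0x2378904561 0 (.node 0 3 (.cons 0x4567890321 (.cons 0x5467890321 .nil)) (.node 0 8 (.cons 0x5437809612 (.cons 0x9087321654 .nil)) (.node 1 7 (.cons 0x9087162345 (.cons 0x5643217890 (.cons 0x9871230465 .nil))) .done .done) .done) .done)) (.node 6 8 .nil (.node 3 7 (.cons 0x6543789012 (.cons 0x9012687345 (.cons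 0x9045687321 .nil))) (.leaf 0x2378904561 0 (.node 1 5 (.cons 0x2156987340 (.cons 0x7321568904 (.cons 0x8734096512 .nil))) .done .done)) (.node 3 8 (.cons 0x9012654387 .nil) (.node 7 9 (.cons 0x9783456210 (.cons 0x5406798321 (.cons 0x9783401265 .nil))) (.node 1 8 (.cons 0x5432618790 (.cons 0x3265409781 .nil)) .done .done) (.node 1 7 (.cons 0x9832176045 (.cons 0x9043217865 .nil)) (.node 0 5 (.cons 0x7834509612 (.cons 0x4509871632 (.cons 0x6178905432 .nil))) .done (.node 5 9 (.cons 0x4590126783 (.cons 0x5983217640 (.cons 0x3217895640 (.cons 0x7834590162 .nil)))) .done .done)) .done)) .done)) .done)) .done))) .done))) (.node 7 9 (.cons 0x8790126543 (.cons 0x8790432165 .nil)) (.node 5 8 (.cons 0x6210978543 (.cons 0x7985432160 (.cons 0x1623458790 .nil))) (.node 0 5 (.cons 0x8790543261 .nil) (.node 1 4 (.cons 0x8976054123 (.cons 0x6789054123 .nil)) (.node 1 7 (.cons 0x8971234506 (.cons 0x6509871234 .nil)) (.node 3 7 (.cons 0x6543789012 (.cons 0x4589732160 (.cons 0x8905673214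 (.cons 0x8541623790 .nil)))) .done .done) .done) .done) (.leaf 0x1234587906 0 .done)) (.node 1 8 (.cons 0x5432618790 (.cons 0x5618790432 .nil)) (.node 0 2 (.cons 0x9781026543 (.cons 0x7981602345 (.cons 0x9781654023 .nil))) (.leaf 0x6187902345 0 .done) (.node 3 9 (.cons 0x8765409321 (.cons 0x8761239045 .nil)) (.node 2 8 (.cons 0x3456287901 (.cons 0x7932816540 .nil)) (.node 5 7 (.cons 0x6182397540 (.cons 0x8234579061 (.cons 0x8216754093 .nil))) (.node 3 8 (.cons 0x2654387901 (.cons 0x9754382601 (.cons 0x9012657834 (.cons 0x4576283901 .nil)))) .done .done) (.node 3 5 (.cons 0x4356287901 (.cons 0x4356109782 .nil)) (.leaf 0x6128790435 0 (.node 4 7 (.cons 0x7456098123 (.cons 0x5618239740 (.cons 0x9016287435 (.cons 0x7409356182 .nil)))) .done .done)) .done)) (.node 5 7 (.cons 0x6578123904 .nil) (.node 2 4 (.cons 0x6578934210 (.cons 0x5618793240 (.cons 0x8165793240 (.cons 0x3245798160 .nil)))) .done (.node 2 8 (.cons 0x3456287901 (.cons 0x5610439782 (.cons 0x8234579061 .nil)))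 (.node 1 4 (.cons 0x8234165790 (.cons 0x8234160975 .nil)) (.node 0 2 (.cons 0x7981456023 (.cons 0x8793204165 .nil)) (.node 0 5 (.cons 0x4187932650 (.cons 0x9876145023 .nil)) (.leaf 0x6501439782 0 .done) .done) .done) .done) (.leaf 0x1234578906 0 .done))) .done)) .done)) (.node 3 9 (.cons 0x8765409321 (.cons 0x8761239045 .nil)) (.node 0 5 (.cons 0x4509876123 .nil) (.node 1 3 (.cons 0x8790543126 (.cons 0x8790562134 .nil)) (.node 3 8 (.cons 0x1265438790 (.cons 0x4506798312 (.cons 0x4387905621 .nil))) (.node 2 9 (.cons 0x7834562901 (.cons 0x5409238761 (.cons 0x8792134056 (.cons 0x2978316540 .nil)))) .done .done) (.node 2 8 (.cons 0x6543128790 (.cons 0x5612879043 .nil)) (.node 6 9 (.cons 0x4312879650 .nil) (.node 4 9 (.cons 0x1328769450 .nil) (.node 0 8 (.cons 0x5497608213 (.cons 0x7943128065 (.cons 0x7945608213 (.cons 0x7654931082 .nil)))) .done .done) .done) (.node 3 5 (.cons 0x8216793540 (.cons 0x9045328761 .nil)) .done (.leaf 0x5431287906 0 .done))) .done)) (.node 5 9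 .nil (.node 3 8 (.cons 0x1265438790 (.cons 0x2165978340 (.cons 0x7834590162 .nil))) .done (.node 3 8 (.cons 0x1265438790 (.cons 0x4590126783 (.cons 0x4095678321 .nil))) (.node 0 2 (.cons 0x8397654021 (.cons 0x8397612045 (.cons 0x6597834021 .nil))) .done (.node 2 9 (.cons 0x5409238761 (.cons 0x7832904561 .nil)) (.node 0 2 (.cons 0x5438790261 .nil) (.node 2 7 (.cons 0x6592783401 (.cons 0x6278345901 .nil)) .done .done) .done) .done)) (.node 2 7 (.cons 0x8726109543 (.cons 0x8723409561 .nil)) (.node 3 8 (.cons 0x1265438790 (.cons 0x1279834560 (.cons 0x6278345901 (.cons 0x4387265901 .nil)))) (.node 1 4 (.cons 0x1456723890 (.cons 0x3879054162 .nil)) (.leaf 0x6238790541 0 .done) .done) (.node 0 3 (.cons 0x4567890321 (.cons 0x6103459872 (.cons 0x4301659872 .nil))) (.leaf 0x1627895430 0 .done) .done)) .done))) (.node 0 3 (.cons 0x4567890321 .nil) (.node 1 8 (.cons 0x3450978162 .nil) (.leaf 0x2187903456 0 (.node 2 4 (.cons 0x3426509781 (.cons 0x9781624305 (.cons 0x3245098761 .nil)))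 (.node 1 3 (.cons 0x8976130542 .nil) (.node 2 8 (.cons 0x6543128790 (.cons 0x3054289761 (.cons 0x3450978261 .nil))) (.leaf 0x5431287906 0 .done) .done) .done) (.node 4 7 (.cons 0x7456098123 (.cons 0x9054781623 (.cons 0x9032618745 .nil))) (.leaf 0x3478905612 0 .done) .done))) (.node 1 3 (.cons 0x4509876132 .nil) (.node 0 8 (.cons 0x7980654312 (.cons 0x9780543162 .nil)) (.node 0 2 (.cons 0x9876132054 .nil) (.node 4 7 (.cons 0x7456123980 (.cons 0x8054793162 (.cons 0x8026547931 .nil))) (.leaf 0x2390874561 0 .done) .done) .done) (.node 2 8 (.cons 0x6543128790 (.cons 0x3450978261 (.cons 0x4316509782 .nil))) (.node 2 4 (.cons 0x7982430561 (.cons 0x3245098761 .nil)) (.leaf 0x5613428790 0 .done) (.leaf 0x5431287906 0 .done)) .done)) .done)) .done))) (.node 5 8 (.cons 0x7856210934 (.cons 0x2165879340 (.cons 0x7856123904 .nil))) (.node 2 7 (.cons 0x9340165872 (.cons 0x7234589061 (.cons 0x9043278561 .nil))) (.node 0 2 (.cons 0x3458790261 .nil) (.leaf 0x7934021658 0 (.node 1 4 (.cons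 0x3978561402 (.cons 0x8567239041 (.cons 0x3276098541 .nil))) .done .done)) .done) (.node 6 9 .nil (.node 1 7 (.cons 0x6543217890 (.cons 0x2178569340 (.cons 0x8712345690 (.cons 0x3458712690 (.cons 0x3409658712 .nil))))) .done (.node 3 6 .nil (.node 2 8 (.cons 0x5612879340 (.cons 0x5634097821 (.cons 0x5409782163 .nil))) .done (.node 3 7 (.cons 0x6543789012 (.cons 0x7345890612 .nil)) (.node 2 8 (.cons 0x2873456901 (.cons 0x5612879340 (.cons 0x8216097345 (.cons 0x5612879043 .nil)))) (.leaf 0x5690128734 0 .done) (.node 0 3 (.cons 0x4567890321 .nil) (.node 2 4 (.cons 0x9876301245 (.cons 0x9304216785 (.cons 0x2458903761 (.cons 0x5876124093 .nil)))) .done .done) .done)) .done)) .done)) .done)) (.node 2 8 (.cons 0x7826543901 (.cons 0x5409328761 (.cons 0x5612879043 (.cons 0x7823904561 .nil)))) (.node 0 3 (.cons 0x4567890321 (.cons 0x7982160345 .nil)) (.node 3 8 (.cons 0x1265438790 .nil) (.node 2 5 (.cons 0x4526783901 (.cons 0x1679382540 (.cons 0x7938254061 .nil))) .done .done)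 .done) .done) .done))) .done))) (.node 5 7 (.cons 0x6123457890 .nil) (.node 3 8 (.cons 0x9012654387 (.cons 0x4576098321 (.cons 0x9012657834 .nil))) (.node 1 8 (.cons 0x4576098123 (.cons 0x9043265781 .nil)) (.node 1 9 (.cons 0x9183260457 (.cons 0x8756234091 .nil)) (.node 0 7 (.cons 0x5407619832 (.cons 0x9183265704 .nil)) (.node 2 9 (.cons 0x9210783456 (.cons 0x4576012983 (.cons 0x9265783401 (.cons 0x9238704561 .nil)))) .done .done) .done) .done) (.node 3 6 (.cons 0x4365789012 .nil) (.node 4 6 (.cons 0x1234657890 .nil) (.node 6 8 (.cons 0x9012687543 .nil) (.node 2 7 (.cons 0x9016278345 .nil) (.node 1 9 (.cons 0x1986572340 (.cons 0x5786234091 (.cons 0x5619872340 (.cons 0x3278916540 .nil)))) .done (.node 4 9 (.cons 0x5634987210 (.cons 0x8943657210 (.cons 0x5786210943 .nil))) .done .done)) .done) .done) .done) .done)) (.leaf 0x6578904321 0 (.node 1 7 (.cons 0x5617890432 .nil) (.node 0 8 (.cons 0x9806543217 (.cons 0x9087543216 (.cons 0x9087561234 .nil))) (.node 0 5 (.cons 0x4509876123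 .nil) (.node 0 2 (.cons 0x9871654023 .nil) (.node 6 9 (.cons 0x4321789650 (.cons 0x8754320961 (.cons 0x6987120543 .nil))) .done (.leaf 0x6178902345 0 .done)) .done) .done) (.node 5 8 (.cons 0x4589067123 (.cons 0x9045871623 (.cons 0x7160985432 .nil))) (.node 7 9 (.cons 0x8790126543 (.cons 0x5897160432 (.cons 0x2345897160 .nil))) (.node 0 3 (.cons 0x4567890321 (.cons 0x8790345612 (.cons 0x7985430612 .nil))) (.node 0 7 (.cons 0x9854321706 .nil) .done .done) .done) (.node 0 5 (.cons 0x4509876123 .nil) (.node 4 8 (.cons 0x5489067123 (.cons 0x9845067123 .nil)) (.node 0 8 (.cons 0x9087561234 .nil) (.node 3 9 (.cons 0x6217854390 (.cons 0x8457612390 (.cons 0x6123908754 (.cons 0x7584390612 (.cons 0x2617854390 .nil))))) .done .done) .done) (.node 0 8 (.cons 0x9087543216 (.cons 0x9087561234 .nil)) (.node 1 9 (.cons 0x8756190432 .nil) (.leaf 0x2190876543 0 (.node 3 7 (.cons 0x8732654091 (.cons 0x2378916540 (.cons 0x4562378091 .nil))) (.node 0 7 (.cons 0x4370985612 .nil) .done .done)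 .done)) .done) .done)) .done)) .done)) (.node 1 7 (.cons 0x8906175432 (.cons 0x5617890432 .nil)) (.node 2 9 (.cons 0x8923457160 (.cons 0x5617892340 (.cons 0x3298716540 .nil))) (.node 1 3 (.cons 0x8765409231 (.cons 0x8923176540 (.cons 0x5409876132 (.cons 0x8756290134 .nil)))) .done (.node 0 8 (.cons 0x3298045671 (.cons 0x6175432980 (.cons 0x7165408923 .nil))) (.node 4 9 (.cons 0x2349806571 (.cons 0x5780943261 .nil)) (.node 0 3 (.cons 0x4567890321 (.cons 0x8034926175 .nil)) (.node 1 8 (.cons 0x3298176540 .nil) (.leaf 0x4567189230 0 (.node 2 4 (.cons 0x6571089243 (.cons 0x7561089243 (.cons 0x9032457816 .nil))) .done .done)) .done) .done) .done) .done)) (.node 2 8 (.cons 0x7543289061 (.cons 0x9043287165 (.cons 0x9045617823 .nil))) (.node 3 7 (.cons 0x6543789012 (.cons 0x9821065437 .nil)) (.leaf 0x982173456 0 (.node 1 3 (.cons 0x7654098231 (.cons 0x4576098231 .nil)) (.node 1 4 (.cons 0x5673289041 (.cons 0x9823145760 .nil)) .done .done) .done)) (.node 0 8 (.cons 0x9087123456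 (.cons 0x9087543261 .nil)) (.node 4 9 (.cons 0x9432806571 (.cons 0x5780943261 .nil)) (.leaf 0x3490875612 0 (.node 0 7 (.cons 0x9823457061 .nil) (.node 1 3 (.cons 0x3128945670 (.cons 0x5409876132 (.cons 0x8709431265 .nil))) (.leaf 0x8756213490 0 .done) .done) .done)) (.node 3 9 (.cons 0x9328045617 (.cons 0x9345782610 (.cons 0x4561780932 .nil))) (.node 1 8 (.cons 0x5409326781 (.cons 0x4390187562 .nil)) .done (.node 4 8 (.cons 0x2657843901 (.cons 0x5784390162 .nil)) (.node 0 2 (.cons 0x9348206571 (.cons 0x5784390261 (.cons 0x4320987561 .nil))) .done .done) .done)) .done)) .done)) .done)) (.leaf 0x1234578906 0 .done))))) .done)))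
noncomputable def tc9_1_47 : T := (.node 0 4 (.cons 0x5409876123 .nil) tc9_1_46 (.node 1 7 (.cons 0x6543217890 .nil) (.node 1 4 (.cons 0x3214567890 .nil) tc9_1_45 (.node 1 4 (.cons 0x3214567890 .nil) (.node 3 6 .nil (.node 0 4 (.cons 0x5409876321 .nil) (.node 5 8 (.cons 0x4589067123 (.cons 0x9854067123 (.cons 0x7123609854 (.cons 0x9017854362 .nil)))) (.node 0 2 (.cons 0x9021458763 (.cons 0x9021436587 .nil)) (.node 7 9 (.cons 0x8790126543 (.cons 0x2143658790 (.cons 0x8790236541 (.cons 0x8790214563 .nil)))) .done .done) .done) (.node 2 5 (.cons 0x8904523671 (.cons 0x9871632540 .nil)) (.leaf 0x1789063452 0 (.node 1 9 (.cons 0x8917604523 (.cons 0x8917632540 (.cons 0x7891043652 .nil))) (.node 2 7 (.cons 0x3278916540 (.cons 0x9872563401 .nil)) .done .done) .done)) .done)) (.node 1 3 .nil (.node 7 9 (.cons 0x8790126543 (.cons 0x8790134562 .nil)) (.node 5 8 (.cons 0x4589067123 (.cons 0x4589067132 (.cons 0x4312658790 .nil))) (.node 0 4 (.cons 0x7985604321 (.cons 0x9854067132 .nil))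 (.node 4 8 (.cons 0x5489067123 (.cons 0x5489067132 (.cons 0x5621348790 .nil))) .done .done) (.node 0 4 (.cons 0x6587904123 (.cons 0x4097856231 .nil)) (.node 4 6 (.cons 0x3214658790 (.cons 0x2314658790 (.cons 0x5879046213 .nil))) .done .done) .done)) (.node 4 7 (.cons 0x5634789012 .nil) (.node 0 2 (.cons 0x8790214365 (.cons 0x8974312065 (.cons 0x8974560213 .nil))) (.node 0 4 (.cons 0x9876132045 .nil) (.node 4 6 (.cons 0x5467890231 (.cons 0x5467890213 .nil)) .done .done) .done) (.node 2 8 (.cons 0x5634128790 (.cons 0x7982134560 (.cons 0x5476098231 (.cons 0x9013478265 (.cons 0x7456098231 .nil))))) .done .done)) .done)) (.node 3 9 (.cons 0x8765412390 .nil) (.node 1 5 .nil (.node 4 7 (.cons 0x5634789012 (.cons 0x8932154760 (.cons 0x2156347890 .nil))) (.leaf 0x5123478906 0 .done) (.node 3 8 (.cons 0x9012654387 .nil) (.node 1 8 .nil (.node 0 5 (.cons 0x9387621054 (.cons 0x6781239054 (.cons 0x4509326781 .nil))) .done (.node 1 9 .nil (.node 0 3 (.cons 0x4567890321 (.cons 0x8765419032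 .nil)) (.node 0 5 (.cons 0x9387621054 (.cons 0x4506719832 .nil)) .done .done) .done) .done)) (.node 0 3 (.cons 0x4567890321 .nil) (.node 1 8 (.cons 0x9032187654 .nil) (.node 1 9 (.cons 0x2387654190 .nil) .done .done) .done) .done)) .done)) (.node 1 5 .nil (.node 0 8 (.cons 0x2390876541 (.cons 0x4156780932 (.cons 0x6239087154 (.cons 0x9087154326 .nil)))) (.node 2 4 (.cons 0x7890124365 (.cons 0x8932451760 (.cons 0x7615423980 (.cons 0x8762451093 .nil)))) .done .done) (.node 1 8 (.cons 0x7810934562 .nil) (.node 1 9 .nil (.node 6 8 (.cons 0x4517862390 (.cons 0x5432687190 .nil)) (.node 0 3 (.cons 0x4567890321 (.cons 0x7865430912 (.cons 0x7862190345 .nil))) .done .done) .done) .done) .done)) .done)) .done)) (.node 4 6 .nil (.node 1 5 (.cons 0x2364517890 .nil) (.node 0 4 (.cons 0x2367890451 .nil) (.node 1 3 (.cons 0x4098765132 .nil) (.node 3 9 (.cons 0x8765412390 (.cons 0x2398761540 (.cons 0x8765140932 .nil))) .done .done) .done) (.node 3 8 (.cons 0x9012654387 (.cons 0x7645123890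 .nil)) (.node 3 5 (.cons 0x8906712354 .nil) (.node 3 7 (.cons 0x6543789012 (.cons 0x5643789012 .nil)) .done .done) (.node 0 4 (.cons 0x7640983215 (.cons 0x5176409832 .nil)) .done .done)) .done)) (.node 6 9 .nil (.node 5 8 (.cons 0x9017854362 (.cons 0x7123458960 (.cons 0x1785432690 (.cons 0x3458712690 .nil)))) (.node 0 3 (.cons 0x4567890321 (.cons 0x3096458712 (.cons 0x8769032145 (.cons 0x7856903214 .nil)))) .done .done) (.node 6 8 .nil (.node 0 5 (.cons 0x5096871234 (.cons 0x9054178632 (.cons 0x9054326871 .nil))) (.node 3 8 (.cons 0x9832176054 (.cons 0x5096783214 (.cons 0x9056783214 .nil))) .done .done) .done) .done)) .done)) .done))) (.node 0 7 (.cons 0x8907654123 .nil) (.node 1 8 (.cons 0x9078123456 .nil) (.node 1 9 (.cons 0x8709123456 .nil) (.node 1 3 .nil (.node 6 8 (.cons 0x9078654321 (.cons 0x4568709132 (.cons 0x9078654312 .nil))) .done (.node 1 5 .nil (.node 0 4 (.cons 0x6789045123 (.cons 0x9043265187 .nil)) (.node 3 8 (.cons 0x7654123890 (.cons 0x9832176045 (.cons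 0x7609832154 (.cons 0x7832654091 .nil)))) .done .done) .done) .done)) .done) (.node 1 9 (.cons 0x8709123456 .nil) (.node 1 3 .nil (.node 6 9 (.cons 0x8709654321 (.cons 0x4569078132 (.cons 0x8709654312 .nil))) .done (.node 1 5 .nil (.node 4 6 (.cons 0x8709123465 (.cons 0x8709156432 .nil)) (.node 6 9 (.cons 0x8709654321 (.cons 0x8715432690 .nil)) .done .done) .done) .done)) .done) .done)) (.node 2 7 .nil (.node 3 8 (.cons 0x7654123890 (.cons 0x9834560127 (.cons 0x1456723890 .nil))) (.node 7 9 (.cons 0x5438972160 .nil) (.node 5 8 (.cons 0x2345897160 (.cons 0x6279014583 (.cons 0x9854327160 (.cons 0x6589072143 .nil)))) (.node 0 3 (.cons 0x4567890321 (.cons 0x8903276541 .nil)) (.node 1 3 (.cons 0x8790134562 (.cons 0x4310658972 .nil)) .done .done) .done) .done) (.node 6 8 (.cons 0x5689072341 (.cons 0x5689072143 .nil)) (.node 0 3 (.cons 0x4567890321 (.cons 0x7689032145 (.cons 0x8903276541 .nil))) (.node 5 9 (.cons 0x4321659870 (.cons 0x8671230954 (.cons 0x6871230954 (.cons 0x8954327160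 (.cons 0x8309567214 .nil))))) .done .done) .done) .done)) (.node 7 9 (.cons 0x8972106543 .nil) (.node 3 7 (.cons 0x6543789012 .nil) (.node 1 3 (.cons 0x8790134562 .nil) (.node 1 8 (.cons 0x1897234560 .nil) (.node 1 9 .nil (.node 0 3 (.cons 0x6541897230 (.cons 0x8914567230 .nil)) (.leaf 0x1987265430 0 .done) .done) .done) .done) .done) (.node 4 9 (.cons 0x5612349870 .nil) (.node 2 4 .nil (.node 1 8 (.cons 0x3456218790 .nil) (.node 3 5 (.cons 0x4356218790 (.cons 0x7981243560 (.cons 0x6534218790 (.cons 0x1897243560 .nil)))) (.leaf 0x6532418907 0 .done) (.node 3 7 (.cons 0x6543789012 (.cons 0x8124560973 (.cons 0x7324560981 .nil))) .done .done)) .done) (.node 6 9 (.cons 0x3456987210 .nil) (.node 3 6 .nil (.node 0 5 (.cons 0x2349870561 (.cons 0x2361789450 (.cons 0x8905417632 .nil))) (.leaf 0x6123498705 0 .done) (.node 3 7 (.cons 0x6543789012 .nil) (.node 4 7 .nil (.node 1 5 (.cons 0x8943270651 (.cons 0x8743215690 (.cons 0x8907415632 .nil))) .done .done) .done) .done)) .done)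 .done)) .done)) .done)) (.node 1 9 (.cons 0x2345619870 .nil) (.node 7 9 (.cons 0x8790126543 .nil) (.node 1 8 (.cons 0x3456218790 .nil) (.node 1 3 (.cons 0x8907654132 .nil) (.node 1 5 (.cons 0x8709156234 .nil) .done .done) .done) .done) (.node 1 5 .nil (.node 1 8 (.cons 0x9078156234 .nil) .done (.node 1 3 (.cons 0x8907654132 .nil) (.node 1 8 .nil (.node 0 3 (.cons 0x4567890321 (.cons 0x9032187654 .nil)) (.node 0 4 (.cons 0x9876123045 (.cons 0x9045678123 .nil)) .done .done) .done) .done) .done)) .done)) .done))) .done)) (.node 4 6 (.cons 0x5643217890 .nil) tc9_1_44 .done))) (.node 0 4 (.cons 0x7890432165 .nil) (.node 0 5 (.cons 0x7890561234 .nil) tc9_1_43 (.node 3 6 (.cons 0x5409876321 .nil) (.node 3 5 (.cons 0x6789045321 .nil) (.node 6 9 (.cons 0x8769045321 .nil) (.node 6 8 .nil (.node 7 9 (.cons 0x8790126543 (.cons 0x4356879012 (.cons 0x5340978612 .nil))) (.node 1 7 (.cons 0x6543217890 (.cons 0x5432179860 (.cons 0x8609712345 .nil))) .done .done) (.node 4 6 .nil (.node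 3 7 (.cons 0x6543789012 (.cons 0x5643789012 .nil)) (.node 2 5 (.cons 0x8734526901 (.cons 0x8901254673 (.cons 0x9873645210 .nil))) (.leaf 0x8901256437 0 .done) (.node 0 3 (.cons 0x4567890321 .nil) (.node 1 5 (.cons 0x9876321540 (.cons 0x9876403215 (.cons 0x5164098732 .nil))) (.node 3 8 (.cons 0x9012654387 (.cons 0x7645123890 .nil)) .done .done) .done) .done)) .done) .done)) (.node 6 8 .nil (.node 5 7 (.cons 0x4321657890 (.cons 0x9043578612 .nil)) (.node 2 7 (.cons 0x8721690435 (.cons 0x9860127543 (.cons 0x5340968721 .nil))) .done (.node 7 9 (.cons 0x8790126543 (.cons 0x4356879012 .nil)) (.node 1 7 (.cons 0x6543217890 (.cons 0x5432179860 (.cons 0x8609712345 .nil))) .done .done) .done)) (.node 4 6 .nil (.node 3 7 (.cons 0x6543789012 (.cons 0x5643789012 .nil)) (.node 1 3 (.cons 0x8769045312 .nil) (.node 2 5 (.cons 0x7689045231 (.cons 0x8901254673 (.cons 0x9873645210 .nil))) (.leaf 0x8901256437 0 .done) .done) (.node 0 3 (.cons 0x4567890321 .nil) (.node 1 5 (.cons 0x9876321540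 (.cons 0x9876403215 (.cons 0x5164098732 .nil))) (.node 3 8 (.cons 0x9012654387 (.cons 0x7645123890 .nil)) .done .done) .done) .done)) .done) .done)) .done)) (.node 6 8 (.cons 0x7689045321 .nil) (.node 3 8 (.cons 0x9012654387 .nil) (.node 4 6 (.cons 0x7645389012 .nil) (.node 6 9 .nil (.node 1 5 (.cons 0x9876321540 (.cons 0x4512387690 (.cons 0x7896321540 .nil))) (.node 0 7 (.cons 0x8709654321 (.cons 0x4321569870 (.cons 0x5169870432 .nil))) (.leaf 0x4512369870 0 .done) .done) .done) .done) (.node 6 9 .nil (.node 1 5 (.cons 0x9876321540 (.cons 0x8769045123 (.cons 0x7896321540 .nil))) (.node 0 7 (.cons 0x8709654321 (.cons 0x4321569870 (.cons 0x5169870432 .nil))) (.leaf 0x4512369870 0 .done) .done) (.node 4 6 .nil (.node 2 5 (.cons 0x9835210467 .nil) (.node 4 9 (.cons 0x7638940125 .nil) (.leaf 0x5678349012 0 .done) (.node 1 5 (.cons 0x9876321540 (.cons 0x9046783215 .nil)) (.node 3 9 (.cons 0x6789321540 (.cons 0x7893645210 (.cons 0x7893251640 .nil))) .done .done) .done)) .done)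 .done)) .done)) (.node 6 9 .nil (.node 1 5 (.cons 0x9876321540 (.cons 0x8769045123 (.cons 0x7896321540 .nil))) (.node 0 7 (.cons 0x8709654321 (.cons 0x4321569870 (.cons 0x5169870432 .nil))) (.leaf 0x4512369870 0 .done) .done) (.node 4 6 .nil (.node 2 7 (.cons 0x3540986721 (.cons 0x8901276453 .nil)) (.node 3 9 (.cons 0x6543987210 (.cons 0x8935467210 (.cons 0x5643987210 .nil))) .done (.node 5 9 (.cons 0x4365987210 (.cons 0x5987210463 .nil)) (.node 0 2 (.cons 0x3678954021 .nil) (.node 1 3 (.cons 0x2136789540 (.cons 0x8721346590 (.cons 0x7895463120 .nil))) .done .done) .done) .done)) .done) .done)) .done)) (.node 0 3 (.cons 0x4567890321 .nil) (.node 0 5 (.cons 0x7890561234 .nil) (.node 3 7 (.cons 0x6543789012 .nil) (.node 3 8 (.cons 0x9012654387 .nil) (.node 3 9 .nil (.node 5 8 (.cons 0x4589067321 (.cons 0x7604589321 (.cons 0x3904587621 .nil))) .done (.node 1 3 .nil (.node 5 9 (.cons 0x1236789540 (.cons 0x2136789540 .nil)) .done .done) .done)) .done) (.node 3 8 (.cons 0x9012654387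 .nil) (.node 3 9 .nil (.node 2 7 (.cons 0x4356109872 (.cons 0x6543987210 (.cons 0x6398721054 .nil))) .done (.node 1 3 .nil (.node 4 9 (.cons 0x2678354901 (.cons 0x5490138762 (.cons 0x8765490312 .nil))) .done .done) .done)) .done) .done)) .done) (.node 3 8 (.cons 0x9012654387 .nil) (.node 3 7 (.cons 0x6543789012 .nil) (.node 0 7 .nil (.node 2 4 (.cons 0x5324098761 (.cons 0x9870165342 (.cons 0x9836701245 .nil))) .done (.node 3 9 .nil (.node 1 8 (.cons 0x9045326781 (.cons 0x9354018762 (.cons 0x4562390781 .nil))) .done (.node 1 3 .nil (.node 2 4 (.cons 0x5324098761 (.cons 0x8931076542 (.cons 0x8907654231 .nil))) .done .done) .done)) .done)) .done) .done) .done)) .done))) (.node 0 3 (.cons 0x4567890321 .nil) (.node 3 5 (.cons 0x6789045321 .nil) (.node 6 9 .nil (.node 0 5 (.cons 0x9876123504 (.cons 0x7896123504 .nil)) (.node 2 7 (.cons 0x4327890561 (.cons 0x3456987210 (.cons 0x4350169872 (.cons 0x4356987210 .nil)))) .done .done) (.node 3 7 (.cons 0x6543789012 .nil) (.node 6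 8 (.cons 0x9012687345 .nil) (.node 4 6 .nil (.node 1 8 (.cons 0x5437812690 (.cons 0x9032187645 (.cons 0x5469037812 .nil))) .done .done) .done) (.node 3 9 (.cons 0x6789354012 .nil) (.node 4 6 (.cons 0x5643789012 .nil) (.node 6 8 (.cons 0x7689354012 .nil) .done .done) (.leaf 0x1267893540 0 .done)) .done)) .done)) (.node 6 8 (.cons 0x7689045321 .nil) (.node 3 9 (.cons 0x7689354012 .nil) (.node 3 8 (.cons 0x9012654387 .nil) (.node 3 7 (.cons 0x9867354012 .nil) (.node 1 3 .nil (.node 2 5 (.cons 0x8937601254 (.cons 0x9876310452 .nil)) (.node 5 8 (.cons 0x9854067321 (.cons 0x9045876231 (.cons 0x4587621390 .nil))) .done .done) .done) .done) .done) (.node 3 8 (.cons 0x9012654387 .nil) (.node 3 7 (.cons 0x9867354012 .nil) (.node 4 6 (.cons 0x7645389012 .nil) (.node 6 9 (.cons 0x8967354012 .nil) .done .done) .done) .done) .done)) (.node 6 9 .nil (.node 1 7 (.cons 0x6543217890 (.cons 0x8967123540 (.cons 0x8712345690 (.cons 0x5430968712 .nil)))) .done .done) .done)) .done)) (.node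 3 8 (.cons 0x9012654387 .nil) (.node 6 9 .nil (.node 3 5 (.cons 0x6789045321 (.cons 0x8769045321 (.cons 0x7698354012 .nil))) .done (.node 6 8 .nil (.node 3 5 (.cons 0x6789045321 (.cons 0x7689045321 .nil)) (.node 3 7 (.cons 0x6543789012 (.cons 0x9012687345 .nil)) .done .done) .done) .done)) (.node 3 7 (.cons 0x6543789012 .nil) (.node 3 9 .nil (.node 2 4 (.cons 0x9837601245 (.cons 0x3987654210 (.cons 0x8937654210 .nil))) .done (.node 3 5 (.cons 0x6789045321 .nil) (.node 1 3 .nil (.node 6 9 (.cons 0x8769045321 (.cons 0x8769045312 .nil)) .done .done) .done) .done)) (.node 6 9 (.cons 0x8734569012 .nil) (.node 0 2 (.cons 0x8734569021 .nil) (.node 0 7 (.cons 0x5438709621 .nil) (.node 0 8 .nil (.node 1 4 (.cons 0x3214567890 (.cons 0x9654120873 (.cons 0x9087654123 .nil))) (.node 1 3 (.cons 0x8907654132 (.cons 0x9807654132 .nil)) .done .done) .done) .done) .done) .done) .done)) .done)) .done)) .done)) (.node 0 5 (.cons 0x7890561234 .nil) tc9_1_42 .done))) .done)))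
noncomputable def uc9_1_8 : T := tc9_1_47
theorem sub_c9_1_8 : root 9 refs9_1 [] 0x700000008706000000006030000000030500706000504000000004030000000030100000700102000000002018006000010 0xfe7fff3fffb7ff17ffcfffe7fff5ff79fff9febd 9 1 6 .nil uc9_1_8 = true := by decide +kernel
noncomputable def tc9_1_48 : T := (.node 0 3 (.cons 0x4567890321 .nil) (.node 0 6 (.cons 0x7890654321 .nil) (.node 3 9 (.cons 0x7893456210 .nil) (.node 0 5 (.cons 0x4501267893 .nil) (.node 7 9 .nil (.node 3 6 (.cons 0x7893621054 (.cons 0x8793621054 .nil)) (.node 3 8 (.cons 0x9045678321 (.cons 0x4567983012 .nil)) .done .done) (.node 0 8 (.cons 0x7980345621 .nil) (.node 0 2 .nil (.node 1 3 (.cons 0x9870134562 (.cons 0x8790213456 .nil)) (.leaf 0x8902134567 0 .done) .done) .done) .done)) .done) (.node 3 8 (.cons 0x9045678321 .nil) (.node 0 5 .nil (.node 2 4 (.cons 0x9830124567 (.cons 0x9837650124 (.cons 0x3987624501 .nil))) .done (.node 0 2 (.cons 0x7893456201 .nil) (.node 0 8 .nil (.node 2 7 (.cons 0x9830127654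 (.cons 0x9345627801 .nil)) .done .done) .done) .done)) (.node 0 8 .nil (.node 1 9 (.cons 0x5401938762 (.cons 0x5408762391 (.cons 0x7804562391 .nil))) (.leaf 0x2190876543 0 (.leaf 0x2190456783 0 .done)) (.node 0 5 .nil (.node 0 2 (.cons 0x7893456201 .nil) (.node 1 4 (.cons 0x3214567890 (.cons 0x6789320541 (.cons 0x9832670541 (.cons 0x6789054123 .nil)))) .done .done) .done) .done)) .done)) .done)) .done) (.node 3 9 (.cons 0x7893456210 .nil) (.node 1 3 (.cons 0x9870134562 .nil) (.node 3 8 (.cons 0x9045678321 .nil) (.node 3 5 (.cons 0x9876210354 .nil) (.node 3 6 .nil (.node 1 4 (.cons 0x3214567890 (.cons 0x5412367890 .nil)) (.node 2 4 (.cons 0x5673890142 (.cons 0x5421098763 .nil)) .done .done) .done) .done) .done) (.node 1 7 (.cons 0x6543217890 .nil) (.node 1 4 (.cons 0x3214567890 .nil) (.node 1 5 (.cons 0x6789032154 .nil) (.node 2 4 (.cons 0x8937015624 .nil) (.node 1 6 (.cons 0x9870326154 .nil) (.node 0 5 (.cons 0x8905673214 .nil) (.node 0 6 (.cons 0x9871234560 .nil) .done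 .done) .done) .done) .done) (.node 4 7 (.cons 0x8930126745 .nil) (.node 3 6 (.cons 0x5412367890 .nil) (.node 3 5 (.cons 0x8935410762 .nil) (.node 3 8 (.cons 0x9045678321 .nil) .done .done) .done) .done) .done)) (.node 2 7 (.cons 0x8934562701 .nil) (.node 3 8 (.cons 0x9045678321 .nil) (.node 7 9 (.cons 0x8397654012 .nil) (.node 4 7 (.cons 0x8930126745 .nil) (.node 5 7 (.cons 0x8930126754 .nil) .done .done) .done) (.node 3 6 .nil (.node 2 4 (.cons 0x9013876542 (.cons 0x5421098763 .nil)) (.node 5 8 (.cons 0x9856243701 (.cons 0x9854210367 (.cons 0x6324589071 (.cons 0x3671245890 .nil)))) .done .done) .done) .done)) .done) .done)) .done)) (.node 3 8 (.cons 0x9045678321 .nil) (.node 2 4 (.cons 0x5426789301 .nil) (.node 0 5 (.cons 0x9837650124 .nil) (.node 3 5 (.cons 0x9876210354 .nil) (.node 2 5 (.cons 0x4526789301 .nil) (.node 0 2 (.cons 0x7893456201 .nil) (.node 0 6 (.cons 0x7890654321 .nil) .done .done) .done) .done) (.node 0 2 (.cons 0x7893456201 .nil) (.node 0 8 .nil (.node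 1 7 (.cons 0x2654398710 (.cons 0x1765423980 (.cons 0x8093245671 (.cons 0x5426710893 .nil)))) .done .done) .done) .done)) (.node 3 5 (.cons 0x6789012453 .nil) (.node 1 3 (.cons 0x5426789310 .nil) (.node 3 6 (.cons 0x5421098763 .nil) .done .done) (.node 1 3 (.cons 0x5426789310 .nil) (.node 3 6 (.cons 0x5421098763 .nil) .done .done) .done)) .done)) .done) .done)) .done)) (.node 0 3 (.cons 0x4567890321 .nil) (.node 0 6 (.cons 0x7890654321 .nil) (.node 7 9 (.cons 0x8973401265 .nil) (.node 3 9 (.cons 0x7893456210 .nil) (.node 2 7 (.cons 0x8934562701 .nil) (.node 1 7 (.cons 0x6543217890 .nil) (.node 1 3 (.cons 0x9870134562 .nil) (.node 4 7 (.cons 0x5609874321 .nil) (.node 0 5 (.cons 0x8931267450 .nil) (.node 0 8 (.cons 0x5476213980 .nil) (.leaf 0x2139805476 0 .done) .done) .done) .done) .done) .done) (.node 4 9 (.cons 0x8765490321 .nil) (.node 6 9 (.cons 0x8796210345 .nil) (.node 3 6 .nil (.node 0 5 (.cons 0x8794503621 .nil) (.node 1 6 (.cons 0x8734905612 .nil) .done .done)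 .done) .done) .done) .done)) (.node 0 5 (.cons 0x8973405621 .nil) (.node 0 8 (.cons 0x9780345621 .nil) (.node 0 2 .nil (.node 1 3 (.cons 0x9870134562 (.cons 0x8976540213 (.cons 0x8970265431 .nil))) (.node 1 6 (.cons 0x8790345612 (.cons 0x8790216543 (.cons 0x8970261345 .nil))) .done .done) .done) .done) .done) .done)) .done) (.node 3 9 (.cons 0x7893456210 .nil) (.node 1 3 (.cons 0x9870134562 .nil) (.node 3 8 (.cons 0x7654098321 .nil) (.node 3 5 (.cons 0x9876210354 .nil) (.node 3 6 .nil (.node 1 4 (.cons 0x3214567890 (.cons 0x5412367890 .nil)) (.node 2 4 (.cons 0x8931076542 (.cons 0x5421098763 .nil)) .done .done) .done) .done) .done) (.node 1 4 (.cons 0x3214567890 .nil) (.node 1 7 (.cons 0x6543217890 .nil) (.node 7 9 (.cons 0x8973401265 .nil) (.node 2 7 (.cons 0x8934562701 .nil) (.node 4 7 (.cons 0x8930126745 .nil) .done .done) .done) .done) (.node 3 6 (.cons 0x5412367890 .nil) (.node 3 5 (.cons 0x8935410762 .nil) (.node 3 8 (.cons 0x7654098321 .nil) .done .done) .done)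 .done)) .done)) (.node 3 8 (.cons 0x7654098321 .nil) (.node 2 4 (.cons 0x5426789301 .nil) (.node 2 7 .nil (.node 1 8 (.cons 0x1876542390 (.cons 0x9381042765 (.cons 0x6542781093 .nil))) (.leaf 0x4239018765 0 .done) (.node 7 9 (.cons 0x1238976540 .nil) (.node 4 9 (.cons 0x5673894012 .nil) (.node 1 4 (.cons 0x3214567890 .nil) (.node 4 7 .nil (.node 2 5 (.cons 0x4526789301 (.cons 0x9830125476 (.cons 0x6254789301 .nil))) .done .done) .done) .done) .done) .done)) (.node 4 9 (.cons 0x5673894012 .nil) (.node 7 9 (.cons 0x1238976540 .nil) (.node 2 7 .nil (.node 5 9 (.cons 0x4378956210 (.cons 0x6721038954 (.cons 0x6598372104 .nil))) .done (.node 1 7 (.cons 0x2654398710 .nil) (.node 4 7 .nil (.node 2 5 (.cons 0x1256738940 (.cons 0x9830125476 (.cons 0x6254789301 .nil))) .done .done) .done) .done)) .done) .done) .done)) .done) .done)) .done)) (.node 0 3 (.cons 0x4567890321 .nil) (.node 3 6 (.cons 0x5409876321 .nil) (.node 0 6 (.cons 0x7890654321 .nil) (.node 1 6 (.cons 0x5409876123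 .nil) (.node 3 5 (.cons 0x6789045321 .nil) (.leaf 0x2167890453 0 (.node 3 9 (.cons 0x7893456210 .nil) (.node 1 3 (.cons 0x9870134562 .nil) (.node 1 4 (.cons 0x2678935410 .nil) (.node 3 8 (.cons 0x7654123890 .nil) .done .done) .done) .done) .done)) .done) .done) (.node 3 5 (.cons 0x6789045321 .nil) (.node 1 6 (.cons 0x9876123540 .nil) (.leaf 0x2167890453 0 (.node 1 3 (.cons 0x9870134562 .nil) (.node 3 8 (.cons 0x7612389045 .nil) .done .done) (.node 0 6 (.cons 0x7890654321 .nil) (.node 0 5 (.cons 0x9876123504 .nil) (.node 6 9 (.cons 0x7896123504 .nil) (.node 6 8 .nil (.node 2 4 (.cons 0x6987350421 (.cons 0x9687350421 (.cons 0x7342109865 .nil))) .done .done) .done) .done) .done) .done))) (.node 3 9 (.cons 0x7893456210 .nil) (.node 1 3 (.cons 0x9870134562 .nil) (.node 3 8 (.cons 0x9835401267 .nil) .done .done) .done) .done)) .done)) (.node 3 9 (.cons 0x7893456210 .nil) (.node 7 9 .nil (.node 0 5 (.cons 0x4501267893 (.cons 0x8793450126 .nil)) (.node 5 8 (.cons 0x7621039854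 (.cons 0x6798540321 (.cons 0x3045897621 .nil))) (.node 1 4 (.cons 0x3214567890 (.cons 0x8976541230 (.cons 0x8541039762 (.cons 0x2658973410 .nil)))) .done .done) .done) (.node 5 7 (.cons 0x8930126754 .nil) (.node 4 7 (.cons 0x8930126745 .nil) (.node 2 4 (.cons 0x8930124576 .nil) (.node 1 4 (.cons 0x3214567890 .nil) (.node 1 3 (.cons 0x8907654231 .nil) (.node 3 5 (.cons 0x4539876210 .nil) (.node 3 6 (.cons 0x8936754210 .nil) .done .done) .done) .done) .done) .done) (.node 0 5 (.cons 0x4501267893 .nil) (.node 0 8 (.cons 0x7980345621 .nil) (.node 1 7 (.cons 0x8971265430 .nil) (.node 4 7 (.cons 0x6210547893 .nil) .done (.leaf 0x9803456217 0 .done)) .done) .done) .done)) .done)) (.node 3 6 (.cons 0x5409876321 .nil) (.node 0 6 (.cons 0x7890654321 .nil) (.node 1 6 (.cons 0x5409876123 .nil) (.node 3 5 (.cons 0x2678935401 .nil) (.node 1 3 (.cons 0x9870134562 .nil) (.node 3 8 (.cons 0x7612389045 .nil) .done .done) .done) .done) .done) .done) .done)) .done)) .done)))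
noncomputable def tc9_1_49 : T := (.node 0 6 (.cons 0x7890654321 .nil) (.node 0 4 .nil (.node 3 9 (.cons 0x7893456210 (.cons 0x5401267893 (.cons 0x7893401265 .nil))) (.node 1 8 (.cons 0x9065432187 (.cons 0x9812304567 (.cons 0x9378104562 .nil))) (.node 5 7 (.cons 0x9345781062 (.cons 0x9812304576 (.cons 0x2675403981 .nil))) .done (.node 5 9 (.cons 0x7043265981 (.cons 0x4018739562 (.cons 0x9562187340 .nil))) (.node 0 8 (.cons 0x9543780126 .nil) (.node 1 4 (.cons 0x4189567032 (.cons 0x9562341870 (.cons 0x9562370814 (.cons 0x7806239541 .nil)))) .done .done) .done) .done)) .done) (.node 1 6 (.cons 0x5409876123 .nil) (.node 3 6 (.cons 0x5409876321 .nil) (.node 0 5 .nil (.node 3 9 (.cons 0x7893456210 (.cons 0x4501267893 .nil)) (.node 2 7 (.cons 0x8907234561 (.cons 0x6278934501 (.cons 0x4398726501 .nil))) .done .done) (.node 0 8 .nil (.node 1 4 (.cons 0x3214567890 (.cons 0x9803214567 (.cons 0x9087654123 .nil))) .done (.node 0 2 .nil (.node 1 3 (.cons 0x9870134562 .nil) (.leaf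 0x8902134567 0 (.node 3 9 (.cons 0x7893456210 (.cons 0x7893456201 .nil)) .done .done)) .done) .done)) .done)) (.node 3 5 (.cons 0x6789045321 .nil) (.node 5 7 (.cons 0x8904576123 .nil) (.node 0 5 .nil (.node 7 9 (.cons 0x8976123540 (.cons 0x8970543261 (.cons 0x8976123504 .nil))) .done (.node 0 8 (.cons 0x9804532167 .nil) (.node 0 2 .nil (.node 3 8 (.cons 0x9830457621 (.cons 0x9834570261 .nil)) .done .done) .done) .done)) .done) .done) .done)) (.node 3 6 (.cons 0x5409876321 .nil) (.node 3 5 (.cons 0x6789045321 .nil) (.node 1 3 (.cons 0x9870134562 .nil) (.node 5 7 (.cons 0x4321657890 .nil) (.node 1 7 (.cons 0x6543217890 .nil) (.node 4 7 (.cons 0x5612347890 .nil) .done .done) .done) .done) .done) .done) .done)) .done)) (.node 3 6 .nil (.node 2 8 (.cons 0x9012873456 (.cons 0x9012873654 .nil)) (.node 5 7 (.cons 0x9821036754 (.cons 0x4576309821 .nil)) (.leaf 0x8901263457 0 .done) (.node 0 4 (.cons 0x5409876321 .nil) (.node 5 7 (.cons 0x9875604321 .nil) (.leaf 0x8901263457 0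 (.node 1 9 (.cons 0x4307562891 (.cons 0x3407562891 (.cons 0x8912675403 (.cons 0x5623407891 (.cons 0x3265407891 .nil))))) .done .done)) (.node 5 7 (.cons 0x9043657821 .nil) (.leaf 0x8901263457 0 (.node 2 4 (.cons 0x9875601243 (.cons 0x9824365701 (.cons 0x5421098763 .nil))) .done .done)) .done)) .done)) (.node 3 9 (.cons 0x7893456210 .nil) (.node 3 5 (.cons 0x4539876210 .nil) (.node 1 3 (.cons 0x9870134562 .nil) (.node 3 8 .nil (.node 0 4 (.cons 0x6789354012 (.cons 0x9045678321 .nil)) (.node 1 6 (.cons 0x9876123540 (.cons 0x7612389045 .nil)) (.leaf 0x2167890453 0 .done) .done) .done) .done) .done) (.node 0 4 (.cons 0x7893401265 .nil) (.node 7 9 (.cons 0x8793401265 .nil) (.node 3 5 (.cons 0x8976210354 .nil) (.node 1 3 (.cons 0x9870134562 .nil) (.node 3 8 (.cons 0x9045678321 .nil) .done .done) .done) (.node 5 7 (.cons 0x4398756210 .nil) (.node 3 5 .nil (.node 0 8 (.cons 0x7980345621 (.cons 0x4530897621 (.cons 0x4087935621 .nil))) .done .done) .done) .done)) (.node 3 5 (.cons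 0x6789045321 .nil) (.node 1 6 (.cons 0x9876123540 .nil) (.leaf 0x2167890453 0 (.node 1 3 (.cons 0x9870134562 .nil) (.node 3 8 (.cons 0x7612389045 .nil) .done .done) .done)) .done) .done)) .done)) .done)) .done)) (.node 5 7 (.cons 0x9875430126 .nil) (.node 3 5 (.cons 0x9876210354 .nil) (.node 3 9 (.cons 0x7893456210 .nil) (.node 1 3 (.cons 0x9870134562 .nil) (.node 3 6 .nil (.node 2 9 (.cons 0x3456298701 (.cons 0x8921036754 (.cons 0x6345789210 (.cons 0x4563107892 .nil)))) .done (.node 3 8 .nil (.node 0 4 (.cons 0x6578934012 (.cons 0x9045678321 (.cons 0x7654098321 .nil))) .done .done) .done)) .done) (.node 3 6 .nil (.node 2 9 (.cons 0x3456298701 (.cons 0x8921036754 (.cons 0x6345789210 (.cons 0x4365789210 (.cons 0x6301298754 .nil))))) .done (.node 1 3 (.cons 0x9870134562 .nil) (.node 3 8 .nil (.node 0 4 (.cons 0x9875634012 (.cons 0x9045678321 (.cons 0x7654098321 .nil))) .done .done) .done) .done)) .done)) (.node 3 9 (.cons 0x7893456210 .nil) (.node 3 6 .nil (.node 2 9 (.cons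 0x3456298701 (.cons 0x6345789210 (.cons 0x4365789210 (.cons 0x6301298754 .nil)))) .done (.node 1 3 (.cons 0x9870134562 .nil) (.node 3 8 .nil (.node 0 4 (.cons 0x9875634012 (.cons 0x9045678321 (.cons 0x7654098321 .nil))) .done .done) .done) .done)) (.node 3 6 .nil (.node 2 9 (.cons 0x3456298701 (.cons 0x8921036754 (.cons 0x6345789210 (.cons 0x6301298754 .nil)))) .done (.node 1 3 (.cons 0x9870134562 .nil) (.node 3 8 .nil (.node 0 4 (.cons 0x6578934012 (.cons 0x9045678321 (.cons 0x7654098321 .nil))) .done .done) .done) .done)) .done)) .done)) (.node 3 9 (.cons 0x7893456210 .nil) (.node 1 3 (.cons 0x9870134562 .nil) (.node 3 5 (.cons 0x9876210354 .nil) (.node 5 9 (.cons 0x4598762103 .nil) (.node 5 8 (.cons 0x7621039854 .nil) (.node 3 8 .nil (.node 0 4 (.cons 0x8930457621 (.cons 0x9045678321 (.cons 0x7654098321 .nil))) .done (.node 3 6 .nil (.node 2 4 (.cons 0x9876245301 (.cons 0x7836590124 (.cons 0x8903675421 (.cons 0x7639854210 .nil)))) .done .done) .done)) .done) .done)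 .done) (.node 0 4 (.cons 0x9875621340 .nil) (.node 3 6 .nil (.node 1 9 (.cons 0x6219875430 (.cons 0x8763219045 (.cons 0x4578912630 .nil))) .done (.node 3 5 (.cons 0x9876210354 .nil) (.node 3 8 (.cons 0x9045678321 .nil) .done .done) .done)) (.node 3 6 .nil (.node 2 8 (.cons 0x9826570431 (.cons 0x3675409821 (.cons 0x7563409821 (.cons 0x7563128904 .nil)))) .done (.node 3 5 (.cons 0x9876210354 .nil) (.node 3 8 (.cons 0x7654098321 .nil) .done .done) .done)) .done)) .done)) (.node 0 4 (.cons 0x1265789340 .nil) (.node 7 9 (.cons 0x8793401265 .nil) (.node 1 9 (.cons 0x6219875430 .nil) (.node 1 3 (.cons 0x9870134562 .nil) (.node 1 7 (.cons 0x6543217890 .nil) (.node 2 7 (.cons 0x8910726543 .nil) .done .done) .done) (.node 2 9 (.cons 0x3456298701 .nil) (.node 5 9 (.cons 0x4598762103 .nil) (.node 4 9 (.cons 0x5498762103 .nil) (.node 6 9 (.cons 0x1269875430 .nil) .done .done) .done) .done) .done)) .done) (.node 7 9 .nil (.node 0 6 (.cons 0x7890654321 (.cons 0x8790654321 .nil)) (.node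 1 3 (.cons 0x9870134562 (.cons 0x8975604312 (.cons 0x8970134562 .nil))) .done .done) (.node 4 7 .nil (.node 0 6 (.cons 0x7890654321 (.cons 0x5609874321 .nil)) (.node 1 6 (.cons 0x8790612345 (.cons 0x8903216745 (.cons 0x5612347890 .nil))) .done .done) (.node 1 7 (.cons 0x6543217890 .nil) (.node 2 7 .nil (.node 1 9 (.cons 0x6219875430 (.cons 0x8910726543 .nil)) (.node 3 8 (.cons 0x7654098321 (.cons 0x6540723891 (.cons 0x6275403891 .nil))) .done .done) .done) .done) .done)) .done)) .done)) (.node 5 9 (.cons 0x4598762103 .nil) (.node 3 5 (.cons 0x9876210354 .nil) (.node 3 8 (.cons 0x7621038954 .nil) (.node 1 3 (.cons 0x9870134562 .nil) (.node 3 6 .nil (.node 2 8 (.cons 0x4567098231 (.cons 0x4576312890 (.cons 0x9012873654 .nil))) .done .done) .done) .done) .done) (.node 3 5 (.cons 0x9876210354 .nil) (.node 1 3 (.cons 0x9870134562 .nil) (.node 1 5 (.cons 0x4510398762 .nil) (.node 1 6 (.cons 0x4598703261 .nil) (.node 0 5 (.cons 0x7890561234 .nil) (.node 2 5 (.cons 0x4526789301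 .nil) .done .done) .done) .done) (.node 3 8 .nil (.node 0 4 (.cons 0x9875621340 (.cons 0x9045678321 (.cons 0x7654098321 .nil))) .done .done) .done)) (.node 2 5 (.cons 0x4526789301 .nil) (.node 0 5 .nil (.node 1 9 (.cons 0x6219875430 (.cons 0x6234507891 (.cons 0x4326507891 .nil))) (.node 2 7 (.cons 0x8910726543 (.cons 0x6278934501 (.cons 0x4398726501 .nil))) .done .done) .done) .done) .done)) .done)) .done))) .done)) (.node 0 6 (.cons 0x7890654321 .nil) (.node 5 7 (.cons 0x9875621034 .nil) (.node 1 7 (.cons 0x6543217890 .nil) (.node 4 7 (.cons 0x9874301265 .nil) (.node 7 9 (.cons 0x8790654321 .nil) (.node 2 7 .nil (.node 1 9 (.cons 0x5621987430 (.cons 0x8910726543 .nil)) (.node 4 9 (.cons 0x6578943012 (.cons 0x8943012756 (.cons 0x5627894301 .nil))) (.node 0 4 (.cons 0x3265407891 .nil) (.node 6 8 (.cons 0x3219457860 (.cons 0x9865721043 (.cons 0x4032756891 (.cons 0x8654091273 .nil)))) .done .done) .done) .done) .done) .done) .done) (.node 1 6 .nil (.node 7 9 (.cons 0x8790654321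 (.cons 0x8790612345 .nil)) (.node 2 4 (.cons 0x8790342165 (.cons 0x8975612430 .nil)) (.node 0 4 (.cons 0x5409876123 .nil) (.node 0 8 (.cons 0x5621798043 (.cons 0x9804576123 (.cons 0x9087321654 .nil))) .done .done) (.leaf 0x3421657890 0 .done)) .done) (.node 2 7 (.cons 0x8907234561 .nil) (.node 4 7 (.cons 0x9874301265 .nil) (.node 7 9 (.cons 0x8790654321 .nil) .done .done) .done) .done)) .done)) (.node 7 9 (.cons 0x8790654321 .nil) (.node 4 7 (.cons 0x9874301265 .nil) (.node 1 7 (.cons 0x6543217890 .nil) (.node 1 6 (.cons 0x4309875612 .nil) (.node 2 7 (.cons 0x8907234561 .nil) .done .done) .done) .done) (.node 1 7 (.cons 0x6543217890 .nil) (.node 4 7 (.cons 0x9874301265 .nil) (.node 2 7 .nil (.node 1 6 (.cons 0x4309875612 (.cons 0x8907234561 .nil)) (.node 0 4 (.cons 0x3409875612 .nil) (.node 0 5 (.cons 0x7890561234 .nil) (.node 5 8 (.cons 0x6589712340 (.cons 0x6589721043 (.cons 0x9856172340 .nil))) .done .done) .done) .done) .done) .done) (.node 2 7 .nil (.node 1 6 (.cons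 0x4309875612 (.cons 0x8907234561 .nil)) (.node 4 7 (.cons 0x5612347890 .nil) (.node 1 4 (.cons 0x9875621430 (.cons 0x8907234165 .nil)) (.node 6 8 (.cons 0x9068712345 (.cons 0x9034127865 .nil)) (.node 0 5 (.cons 0x9874321650 (.cons 0x8650972341 .nil)) (.node 1 9 (.cons 0x9147865032 (.cons 0x4723056891 (.cons 0x3278654190 .nil))) .done .done) .done) .done) .done) .done) .done) .done)) .done)) .done)) (.node 5 7 (.cons 0x9875621034 .nil) (.node 1 7 (.cons 0x6543217890 .nil) (.node 4 7 (.cons 0x9874301265 .nil) (.node 7 9 .nil (.node 1 8 (.cons 0x9817062345 (.cons 0x7981234560 (.cons 0x4321897560 (.cons 0x8123790654 .nil)))) .done (.node 2 7 .nil (.node 1 8 (.cons 0x4321897560 (.cons 0x9812743065 (.cons 0x5609812743 .nil))) (.node 1 9 (.cons 0x5621987430 (.cons 0x8910726543 .nil)) .done .done) .done) .done)) .done) (.node 1 6 .nil (.node 0 8 (.cons 0x9806571234 (.cons 0x9806123457 (.cons 0x9087321654 .nil))) .done (.node 2 7 .nil (.node 3 8 (.cons 0x9834560127 (.cons 0x9834572106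 (.cons 0x9016543872 .nil))) (.node 4 7 (.cons 0x5476098321 (.cons 0x5609834712 .nil)) .done .done) (.node 4 7 (.cons 0x9874301265 .nil) (.node 7 9 .nil (.node 1 8 (.cons 0x9078165432 (.cons 0x7981234560 (.cons 0x5432607981 (.cons 0x8123790654 .nil)))) .done .done) .done) .done)) .done)) .done)) (.node 4 7 (.cons 0x9874301265 .nil) (.node 1 7 (.cons 0x6543217890 .nil) (.node 3 6 (.cons 0x8906345712 .nil) (.node 7 9 .nil (.node 3 8 (.cons 0x9834571260 (.cons 0x7983456012 .nil)) (.leaf 0x7901265438 0 .done) (.node 2 7 .nil (.node 3 8 (.cons 0x9834571260 (.cons 0x5601279834 (.cons 0x6098345721 .nil))) .done .done) .done)) .done) (.node 1 6 (.cons 0x4309875612 .nil) (.node 7 9 .nil (.node 1 8 (.cons 0x9078165432 (.cons 0x7981234560 (.cons 0x3457981260 (.cons 0x3218974560 .nil)))) .done (.node 2 7 .nil (.node 3 8 (.cons 0x8345790612 (.cons 0x6012798345 (.cons 0x6098345721 (.cons 0x5438972601 .nil)))) .done .done) .done)) .done) .done)) (.node 3 6 .nil (.node 2 8 (.cons 0x9012873456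 (.cons 0x7543609821 (.cons 0x5743609821 (.cons 0x9012873654 .nil)))) .done (.node 2 7 .nil (.node 3 8 (.cons 0x5476098321 (.cons 0x9834560127 (.cons 0x6098345721 .nil))) .done (.node 1 7 (.cons 0x6543217890 .nil) (.node 7 9 (.cons 0x8971234560 .nil) .done .done) .done)) .done)) .done)) .done)) .done)) .done)))
noncomputable def tc9_1_50 : T := (.node 4 7 (.cons 0x5609874321 .nil) (.node 0 4 .nil (.node 3 9 (.cons 0x7893456210 (.cons 0x8937654012 (.cons 0x5401267893 (.cons 0x7893401265 .nil)))) (.node 2 7 (.cons 0x5627893401 .nil) (.node 1 4 (.cons 0x5601439872 .nil) (.node 3 8 (.cons 0x7654123890 (.cons 0x9834107265 .nil)) (.leaf 0x4567839012 0 .done) .done) .done) .done) (.node 1 4 (.cons 0x3214567890 .nil) (.node 1 7 (.cons 0x6543217890 .nil) (.node 1 6 .nil (.node 0 8 (.cons 0x9804567321 (.cons 0x9804561237 .nil)) (.node 2 8 (.cons 0x9821045673 (.cons 0x9823704561 .nil)) (.leaf 0x6543289071 0 .done) .done) (.node 1 5 (.cons 0x9870651432 .nil) (.node 5 7 (.cons 0x8906123475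 .nil) (.node 2 7 (.cons 0x8907234561 .nil) (.node 7 9 (.cons 0x8973215604 .nil) .done .done) .done) .done) .done)) (.node 2 7 .nil (.node 5 9 (.cons 0x8956234071 (.cons 0x8956072341 (.cons 0x1432789560 (.cons 0x3412789560 .nil)))) (.node 3 8 (.cons 0x7654098321 (.cons 0x6598327041 (.cons 0x6598327140 .nil))) (.leaf 0x659837214 0 .done) .done) .done) .done)) .done) .done)) (.node 5 7 .nil (.node 3 8 (.cons 0x9012456783 (.cons 0x9012438756 .nil)) (.node 3 9 (.cons 0x7893456210 (.cons 0x8390124576 (.cons 0x4398756210 .nil))) (.leaf 0x4567839012 0 .done) (.node 3 9 (.cons 0x7893456210 (.cons 0x4398756210 .nil)) (.node 1 8 (.cons 0x7018934562 (.cons 0x2189347560 (.cons 0x5743981260 (.cons 0x4398107562 (.cons 0x2475609381 .nil))))) .done (.node 1 5 (.cons 0x8934751260 (.cons 0x9387510624 .nil)) (.leaf 0x7893426015 0 (.node 1 6 (.cons 0x5439870162 (.cons 0x8390167542 .nil)) .done .done)) .done)) .done)) (.node 1 7 (.cons 0x6543217890 .nil) (.node 2 5 (.cons 0x3478906521 .nil)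 (.node 7 9 .nil (.node 3 8 (.cons 0x7438906521 (.cons 0x6254389701 (.cons 0x6254389710 .nil))) (.leaf 0x4389065217 0 .done) (.node 2 7 .nil (.node 3 5 (.cons 0x8790124356 .nil) (.node 4 9 (.cons 0x8756094321 (.cons 0x8943721065 (.cons 0x5349872601 (.cons 0x8943725601 .nil)))) .done .done) .done) .done)) (.node 0 5 .nil (.node 5 9 (.cons 0x8950621743 (.cons 0x4326059871 .nil)) (.node 1 9 (.cons 0x8734219560 (.cons 0x8917054326 (.cons 0x3478912650 .nil))) (.node 6 8 (.cons 0x3245687091 (.cons 0x6871905423 .nil)) (.leaf 0x7860591243 0 .done) .done) .done) (.node 1 5 (.cons 0x3478906512 .nil) (.node 1 4 (.cons 0x3214567890 .nil) (.node 7 9 (.cons 0x8970651432 .nil) (.node 2 7 .nil (.node 1 8 (.cons 0x3479812650 (.cons 0x6509812743 (.cons 0x6541890723 .nil))) .done .done) .done) .done) .done) .done)) .done)) (.node 0 5 (.cons 0x6509871234 .nil) (.node 2 5 (.cons 0x3478906521 .nil) (.node 1 5 (.cons 0x3478906512 .nil) (.node 0 4 .nil (.node 5 9 (.cons 0x4378956012 (.cons 0x1789562340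 .nil)) (.leaf 0x8760432159 0 .done) (.node 0 2 .nil (.node 3 5 (.cons 0x6789045321 (.cons 0x9871026534 .nil)) .done .done) .done)) .done) .done) (.node 2 5 (.cons 0x3478906521 .nil) (.node 1 5 (.cons 0x3478906512 .nil) (.node 0 8 .nil (.node 4 6 (.cons 0x5643217890 (.cons 0x9807156432 (.cons 0x9801734652 .nil))) .done (.node 0 2 .nil (.node 1 8 (.cons 0x9065781234 .nil) (.node 3 6 (.cons 0x9021874563 (.cons 0x9802154763 (.cons 0x8902563471 .nil))) (.leaf 0x9817436520 0 .done) .done) .done) .done)) .done) .done) .done)) .done)) .done)) .done)) (.node 0 8 (.cons 0x9801245673 .nil) (.node 0 4 .nil (.node 3 9 (.cons 0x8937654210 (.cons 0x8937654012 (.cons 0x5401267893 (.cons 0x7893401265 .nil)))) (.node 1 5 (.cons 0x6739801542 (.cons 0x9326780451 (.cons 0x7623980451 (.cons 0x9873215604 .nil)))) (.node 3 6 (.cons 0x9807632451 (.cons 0x9804512367 .nil)) (.leaf 0x2367890451 0 .done) .done) .done) (.node 0 3 (.cons 0x4567890321 .nil) (.node 0 5 .nil (.node 3 8 (.cons 0x9837654210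 (.cons 0x9837650124 .nil)) (.node 3 9 (.cons 0x8937654210 (.cons 0x4501267893 (.cons 0x8937650124 .nil))) .done .done) (.node 0 2 .nil (.node 3 8 (.cons 0x9837654210 (.cons 0x9837654201 .nil)) (.node 3 9 (.cons 0x8937654210 (.cons 0x8937654201 .nil)) (.node 4 9 (.cons 0x5673894210 (.cons 0x5673894201 (.cons 0x8945673021 .nil))) .done .done) .done) .done) .done)) .done) .done)) (.node 1 6 (.cons 0x9807324561 .nil) (.node 1 7 (.cons 0x6543217890 .nil) (.node 1 4 (.cons 0x3214567890 .nil) (.node 1 8 (.cons 0x3245670981 .nil) (.node 1 3 (.cons 0x8907654231 .nil) (.node 1 5 (.cons 0x9870651432 .nil) (.node 1 9 (.cons 0x6542370891 .nil) .done .done) .done) .done) .done) (.node 1 3 (.cons 0x8907654231 .nil) (.node 3 6 (.cons 0x9801245637 .nil) (.node 4 6 (.cons 0x5643217890 .nil) (.node 6 8 .nil (.node 1 9 (.cons 0x6542370891 (.cons 0x9168073245 (.cons 0x1986542370 .nil))) .done .done) .done) .done) (.node 1 4 (.cons 0x3214567890 .nil) (.node 1 8 (.cons 0x3245670981 .nil) .done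 .done) .done)) .done)) (.node 2 8 (.cons 0x7098234561 .nil) (.node 0 2 .nil (.node 1 8 (.cons 0x3245670981 (.cons 0x9816543207 .nil)) (.node 3 8 (.cons 0x9837654210 (.cons 0x9837654201 .nil)) .done .done) (.node 0 4 (.cons 0x9804561237 .nil) (.node 0 3 (.cons 0x4567890321 .nil) (.node 0 5 .nil (.node 1 9 (.cons 0x6542370891 (.cons 0x6234507891 (.cons 0x4326507891 (.cons 0x6198237054 .nil)))) .done .done) .done) .done) .done)) (.node 1 7 (.cons 0x6543217890 .nil) (.leaf 0x6543289071 0 (.node 2 7 (.cons 0x8907234561 .nil) (.node 4 7 (.cons 0x5609874321 .nil) (.node 5 7 (.cons 0x3475612890 .nil) .done .done) .done) (.node 7 9 (.cons 0x4561237980 .nil) (.node 1 9 (.cons 0x6542370891 .nil) (.node 2 9 (.cons 0x6543789210 .nil) .done .done) (.node 5 7 (.cons 0x4328907561 .nil) (.node 2 7 (.cons 0x8907234561 .nil) (.node 4 7 (.cons 0x5609874321 .nil) .done .done) .done) .done)) .done))) .done)) .done)) .done)) (.node 4 7 (.cons 0x5609874321 .nil) (.node 0 4 .nil (.node 3 9 (.cons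 0x7893456210 (.cons 0x8937654012 (.cons 0x5401267893 (.cons 0x7893401265 .nil)))) (.node 1 9 (.cons 0x8743219065 (.cons 0x8912376540 (.cons 0x5623407891 (.cons 0x3265407891 .nil)))) (.node 5 7 (.cons 0x5789342601 (.cons 0x5789126043 .nil)) .done .done) .done) (.node 1 4 (.cons 0x3214567890 .nil) (.node 5 7 .nil (.node 1 8 (.cons 0x9812376540 (.cons 0x6754098123 (.cons 0x9812375604 .nil))) (.node 2 9 (.cons 0x6543789210 (.cons 0x8921065734 (.cons 0x8921043756 (.cons 0x6570418923 .nil)))) .done .done) (.node 2 8 (.cons 0x9821045673 .nil) (.node 1 6 (.cons 0x9821657340 .nil) (.leaf 0x5612890437 0 (.node 2 7 (.cons 0x8907234561 .nil) .done .done)) (.node 0 8 (.cons 0x9804567321 .nil) (.node 0 2 (.cons 0x9875602143 .nil) (.node 0 3 (.cons 0x9876541230 .nil) .done .done) .done) .done)) .done)) .done) .done)) (.node 5 7 .nil (.node 3 9 (.cons 0x7893456210 (.cons 0x4398756210 (.cons 0x5789342601 .nil))) (.node 1 8 (.cons 0x7018934562 (.cons 0x2189347560 (.cons 0x5743981260 (.cons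 0x4398107562 (.cons 0x6245701893 .nil))))) .done (.node 1 6 (.cons 0x5439870162 (.cons 0x8934570162 .nil)) (.node 2 8 (.cons 0x9078234561 .nil) (.leaf 0x3901628754 0 (.node 4 9 (.cons 0x3287094561 (.cons 0x8943756012 (.cons 0x3945782610 .nil))) .done .done)) .done) .done)) (.node 3 5 (.cons 0x6789012453 .nil) (.node 2 5 (.cons 0x3478906521 .nil) (.node 0 5 .nil (.node 1 8 (.cons 0x7435609812 (.cons 0x9812476053 (.cons 0x9812605347 (.cons 0x6742189053 (.cons 0x9812473506 .nil))))) .done .done) .done) (.node 3 6 (.cons 0x2453678901 .nil) (.leaf 0x987635421 0 (.node 2 7 .nil (.node 1 5 (.cons 0x8907632451 (.cons 0x9872435106 (.cons 0x8906512743 .nil))) (.node 1 6 (.cons 0x3516098742 .nil) (.leaf 0x7890165342 0 .done) .done) (.node 1 6 (.cons 0x4356109872 .nil) (.leaf 0x7890165342 0 .done) .done)) .done)) .done)) .done)) .done)) .done)))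
noncomputable def tc9_1_51 : T := (.node 0 4 .nil (.node 1 6 (.cons 0x7890432165 .nil) (.leaf 0x2378904561 0 (.node 3 9 (.cons 0x7893456210 (.cons 0x8937654012 (.cons 0x5401267893 (.cons 0x7893401265 .nil)))) (.node 2 8 (.cons 0x7098234561 (.cons 0x5401673982 (.cons 0x9823704561 .nil))) (.node 5 9 (.cons 0x4370165982 (.cons 0x4012895673 (.cons 0x4073289561 (.cons 0x9560437821 .nil)))) .done .done) .done) .done)) (.node 0 3 (.cons 0x4567890321 .nil) (.node 3 8 (.cons 0x7654098321 .nil) (.node 0 8 (.cons 0x9804567321 .nil) (.node 0 5 .nil (.node 1 4 (.cons 0x3214567890 (.cons 0x9832140567 (.cons 0x9056783214 (.cons 0x6789054123 .nil)))) .done .done) .done) (.node 3 9 (.cons 0x7893456210 .nil) (.node 3 5 (.cons 0x9876210354 .nil) (.node 1 3 (.cons 0x9870134562 .nil) (.node 3 6 .nil (.node 2 8 (.cons 0x4567398210 (.cons 0x9012876354 (.cons 0x9821045637 .nil))) (.node 2 9 (.cons 0x6543789210 (.cons 0x5436298701 (.cons 0x4563789210 .nil))) .done .done) .done) .done) .done)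 (.node 0 5 .nil (.node 1 4 (.cons 0x3214567890 (.cons 0x4123987650 (.cons 0x8765093214 (.cons 0x6789054123 .nil)))) .done (.node 0 8 (.cons 0x9804567321 .nil) (.node 0 2 .nil (.node 7 9 (.cons 0x8790654321 .nil) (.node 1 5 (.cons 0x9783451062 (.cons 0x6798320451 (.cons 0x9783451026 (.cons 0x4510267983 .nil)))) .done (.node 1 3 (.cons 0x8790654312 (.cons 0x8790213456 (.cons 0x8970265431 .nil))) .done .done)) .done) .done) .done)) .done)) .done)) (.node 0 5 .nil (.node 1 4 (.cons 0x3214567890 (.cons 0x9876503214 (.cons 0x6789054123 .nil))) (.node 1 7 (.cons 0x6543217890 (.cons 0x6509871234 .nil)) (.node 4 7 (.cons 0x9874301265 (.cons 0x9874305621 .nil)) .done .done) .done) (.node 0 8 (.cons 0x9804567321 .nil) (.node 3 8 (.cons 0x7654098321 .nil) (.node 0 2 .nil (.node 3 9 (.cons 0x7893456210 .nil) (.node 1 4 (.cons 0x3214567890 (.cons 0x8932076541 (.cons 0x9023876541 .nil))) (.node 3 6 (.cons 0x5412367890 .nil) .done .done) (.node 5 8 (.cons 0x4587609321 (.cons 0x6739854021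 .nil)) (.node 1 5 (.cons 0x8932670451 (.cons 0x9387620154 .nil)) (.node 4 8 (.cons 0x1548932670 (.cons 0x6739845120 .nil)) .done .done) .done) .done)) .done) .done) .done) .done)) .done)) (.node 1 6 (.cons 0x5409876123 .nil) (.node 3 6 (.cons 0x5409876321 .nil) (.node 0 3 (.cons 0x4567890321 .nil) (.node 0 5 .nil (.node 3 8 (.cons 0x7612389045 (.cons 0x7612389054 .nil)) (.node 3 9 (.cons 0x7893456210 (.cons 0x4501267893 .nil)) .done .done) (.node 0 8 .nil (.node 1 4 (.cons 0x3214567890 (.cons 0x9803214567 (.cons 0x9087654123 .nil))) .done (.node 0 2 .nil (.node 3 9 (.cons 0x7893456210 (.cons 0x7893456201 .nil)) (.node 4 8 (.cons 0x7654890321 (.cons 0x5489320761 (.cons 0x5489376102 (.cons 0x5489376120 .nil)))) .done .done) .done) .done)) .done)) .done) (.node 3 8 (.cons 0x7612389045 .nil) (.node 4 6 .nil (.node 2 5 (.cons 0x4523890761 (.cons 0x9012546783 (.cons 0x9837645210 (.cons 0x7098325461 .nil)))) .done (.node 4 7 (.cons 0x5476123890 .nil) (.node 2 4 (.cons 0x5423890761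 .nil) (.node 1 4 (.cons 0x3214567890 .nil) (.node 4 9 (.cons 0x5490678321 .nil) (.node 4 8 .nil (.node 0 3 (.cons 0x9876541230 (.cons 0x7654890321 (.cons 0x9842103765 .nil))) .done .done) .done) .done) .done) .done) .done)) (.node 0 3 (.cons 0x4567890321 .nil) (.node 3 9 (.cons 0x7893456210 .nil) (.node 1 3 (.cons 0x9870134562 .nil) (.node 3 5 (.cons 0x4539876210 .nil) .done .done) .done) .done) .done)) .done)) (.node 5 7 (.cons 0x4321657890 .nil) (.node 1 7 (.cons 0x6543217890 .nil) (.node 4 7 (.cons 0x5612347890 .nil) (.node 7 9 (.cons 0x8790654321 .nil) (.node 2 7 .nil (.node 3 5 (.cons 0x2165347890 (.cons 0x4356109872 .nil)) (.node 0 3 (.cons 0x4567890321 .nil) (.node 4 8 (.cons 0x7984356210 (.cons 0x6534897210 .nil)) (.leaf 0x9847216530 0 .done) .done) .done) .done) .done) .done) .done) (.node 4 7 (.cons 0x5612347890 .nil) (.node 2 4 (.cons 0x3421657890 .nil) (.node 1 7 (.cons 0x6543217890 .nil) (.node 1 4 (.cons 0x3214567890 .nil) (.node 1 8 (.cons 0x3245670981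 .nil) (.node 0 8 (.cons 0x9801245673 .nil) (.node 0 3 (.cons 0x9876541230 .nil) (.node 0 2 (.cons 0x9870234165 .nil) (.node 0 5 (.cons 0x9870561432 .nil) .done .done) .done) .done) .done) .done) .done) .done) .done) .done)) .done)) .done))) (.node 0 4 .nil (.node 1 6 (.cons 0x7890432165 .nil) (.leaf 0x2378904561 0 (.node 1 9 (.cons 0x8709165432 (.cons 0x8912376540 (.cons 0x8912376045 (.cons 0x5623407891 (.cons 0x3265407891 .nil))))) .done .done)) (.node 0 3 (.cons 0x4567890321 .nil) (.node 0 5 .nil (.node 1 9 (.cons 0x8765409123 (.cons 0x6234507891 (.cons 0x4326507891 .nil))) (.node 1 4 (.cons 0x3214567890 (.cons 0x6789054123 .nil)) (.node 6 8 (.cons 0x5419867032 (.cons 0x7056891432 (.cons 0x7689145032 (.cons 0x4503768912 .nil)))) .done .done) (.node 4 7 (.cons 0x8912374560 (.cons 0x8912374506 (.cons 0x6219874503 .nil))) .done .done)) (.node 3 8 (.cons 0x9045678321 .nil) (.node 0 8 .nil (.node 3 9 (.cons 0x7893456210 (.cons 0x4567398012 .nil)) (.node 1 9 (.cons 0x8765409123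 (.cons 0x4567321980 (.cons 0x5408762391 (.cons 0x7804562391 .nil)))) (.node 1 4 (.cons 0x5623419870 (.cons 0x5678041932 (.cons 0x7089143265 (.cons 0x9806732145 .nil)))) .done .done) .done) .done) (.node 3 9 (.cons 0x7893456210 .nil) (.node 3 5 (.cons 0x9876210354 .nil) (.node 5 7 (.cons 0x8930126754 .nil) (.node 4 7 (.cons 0x8930126745 .nil) (.node 1 3 (.cons 0x9870134562 .nil) (.node 3 6 (.cons 0x9874501263 .nil) .done .done) .done) .done) .done) (.node 2 4 (.cons 0x5624398701 .nil) (.node 0 2 (.cons 0x9837654201 .nil) (.node 0 8 (.cons 0x9801245673 .nil) .done .done) (.node 3 6 (.cons 0x5421098763 .nil) (.node 1 3 (.cons 0x9870134562 .nil) (.node 3 5 (.cons 0x6789012453 .nil) .done .done) .done) .done)) .done)) .done)) .done)) (.node 0 5 .nil (.node 1 4 (.cons 0x3214567890 (.cons 0x9876503214 (.cons 0x6789054123 .nil))) (.node 1 9 (.cons 0x8765409123 (.cons 0x6234507891 (.cons 0x4326507891 .nil))) (.node 4 7 (.cons 0x8912374560 (.cons 0x8912374506 (.cons 0x9874305621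 .nil))) .done .done) .done) (.node 4 7 (.cons 0x9874301265 .nil) (.node 2 4 .nil (.node 3 8 (.cons 0x9045678321 (.cons 0x9837601245 .nil)) (.node 3 9 (.cons 0x7893456210 (.cons 0x8937654210 (.cons 0x8937601245 .nil))) .done .done) (.node 0 8 (.cons 0x9801245673 .nil) (.node 0 2 .nil (.node 3 8 (.cons 0x9837654210 (.cons 0x9837654201 .nil)) .done .done) .done) .done)) (.node 5 7 (.cons 0x9875621034 .nil) (.node 4 6 .nil (.node 1 7 (.cons 0x6543217890 (.cons 0x6450987123 (.cons 0x5643217890 .nil))) .done (.node 0 8 .nil (.node 4 9 (.cons 0x7894301265 (.cons 0x1237654980 (.cons 0x5498067321 .nil))) .done (.node 0 2 .nil (.node 1 5 (.cons 0x9806732154 (.cons 0x9874302156 (.cons 0x9802376451 .nil))) .done .done) .done)) .done)) .done) .done)) .done)) .done)) (.node 1 6 (.cons 0x5409876123 .nil) (.node 3 6 (.cons 0x5409876321 .nil) (.node 0 3 (.cons 0x4567890321 .nil) (.node 0 5 .nil (.node 1 7 (.cons 0x6543217890 (.cons 0x6509871234 .nil)) (.node 7 9 (.cons 0x8973456012 (.cons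 0x8790561234 (.cons 0x8971260543 .nil))) .done .done) (.node 1 5 (.cons 0x6789045123 .nil) (.node 1 4 (.cons 0x3214567890 .nil) (.node 1 3 (.cons 0x8907654132 .nil) (.node 3 8 (.cons 0x7654123890 .nil) (.node 0 2 (.cons 0x9837654102 .nil) (.node 0 8 (.cons 0x9807623145 .nil) .done .done) .done) .done) .done) (.node 1 3 (.cons 0x9870134562 .nil) (.node 3 5 (.cons 0x6789045321 .nil) (.node 3 8 (.cons 0x9832670451 .nil) .done .done) .done) .done)) .done)) .done) (.node 1 7 (.cons 0x6543217890 .nil) (.node 0 5 (.cons 0x9871054362 .nil) (.node 0 3 (.cons 0x4567890321 .nil) (.node 1 3 (.cons 0x9870134562 .nil) (.node 3 5 (.cons 0x6789045321 .nil) .done .done) .done) (.node 4 6 (.cons 0x2364509871 .nil) (.node 0 8 .nil (.node 5 9 (.cons 0x2634598710 (.cons 0x6234598071 (.cons 0x9543261780 (.cons 0x6089543712 .nil)))) .done (.node 0 2 (.cons 0x9871026345 .nil) (.node 0 3 (.cons 0x4567890321 .nil) .done .done) .done)) .done) .done)) (.node 4 6 (.cons 0x5643217890 .nil) (.node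 6 9 .nil (.node 1 5 (.cons 0x2367890451 (.cons 0x8967321540 (.cons 0x6987321540 .nil))) (.leaf 0x4512378960 0 .done) (.node 6 8 .nil (.node 0 5 (.cons 0x4378965012 (.cons 0x9056871234 .nil)) (.node 2 5 (.cons 0x4378965210 (.cons 0x9687340125 (.cons 0x4325689071 .nil))) .done .done) .done) .done)) .done) .done)) .done)) (.node 5 7 (.cons 0x4321657890 .nil) (.node 0 5 (.cons 0x7890561234 .nil) (.node 1 7 (.cons 0x6543217890 .nil) (.node 4 7 (.cons 0x5612347890 .nil) (.node 0 8 (.cons 0x9087561234 .nil) (.node 0 2 (.cons 0x5612098743 .nil) (.node 0 3 (.cons 0x4567890321 .nil) .done .done) .done) .done) .done) .done) (.node 4 7 (.cons 0x5612347890 .nil) (.node 1 7 (.cons 0x6543217890 .nil) (.node 2 4 (.cons 0x3421657890 .nil) (.node 7 9 (.cons 0x8973456012 .nil) (.node 2 7 .nil (.node 3 8 (.cons 0x9837654210 (.cons 0x6098345721 (.cons 0x4389065721 (.cons 0x1657243890 .nil)))) .done .done) .done) .done) .done) .done) .done)) .done)) .done))) (.node 2 4 (.cons 0x9873421065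 .nil) tc9_1_50 .done)))
noncomputable def uc9_1_9 : T := (.node 0 6 (.cons 0x7890654321 .nil) tc9_1_51 (.node 0 3 (.cons 0x4567890321 .nil) tc9_1_49 (.leaf 0x8901265437 0 (.node 0 4 (.cons 0x9873401265 .nil) tc9_1_48 .done))))
theorem sub_c9_1_9 : root 9 refs9_1 [] 0x700000008706000000006030000020030500800000504000000004030000000030100000800102000000002018020000010 0xfe7fff3fffb3fed7ffcfffe7fff5fef9fff9fef9 9 3 7 (.cons 0x9873456210 .nil) uc9_1_9 = true := by decide +kernel
noncomputable def tc9_1_52 : T := (.node 3 5 (.cons 0x9870126534 .nil) (.node 0 6 (.cons 0x7890654321 .nil) (.node 0 2 (.cons 0x9873456201 .nil) (.node 0 4 .nil (.node 1 6 (.cons 0x7890432165 .nil) (.node 2 9 (.cons 0x8920167354 (.cons 0x5629873401 (.cons 0x3789265401 .nil))) (.leaf 0x8765340129 0 .done) (.leaf 0x2167890453 0 .done)) (.node 0 8 .nil (.node 1 7 (.cons 0x6543217890 (.cons 0x9806543217 (.cons 0x9087123456 (.cons 0x9806712354 .nil)))) .done (.node 0 5 .nil (.node 4 9 (.cons 0x8765490321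 (.cons 0x3498705621 .nil)) (.node 1 8 (.cons 0x4981235670 (.cons 0x6732054981 (.cons 0x6705321894 (.cons 0x7349810562 .nil)))) .done (.node 1 6 (.cons 0x8761230945 (.cons 0x9450873261 (.cons 0x4987612350 .nil))) .done .done)) .done) .done)) .done)) (.node 3 6 .nil (.node 0 4 (.cons 0x5409876321 .nil) (.node 1 6 (.cons 0x7890432165 .nil) (.leaf 0x2167890453 0 .done) (.node 0 5 (.cons 0x4509876321 .nil) (.node 4 9 (.cons 0x3789456201 (.cons 0x5498736201 (.cons 0x3498705621 .nil))) (.node 0 8 (.cons 0x7635498012 .nil) .done .done) .done) .done)) (.node 3 8 .nil (.node 2 4 (.cons 0x7890124365 (.cons 0x9012456783 (.cons 0x2456738901 (.cons 0x9835421067 .nil)))) .done (.node 1 3 (.cons 0x9873102654 .nil) (.node 3 9 (.cons 0x7893456210 .nil) .done .done) .done)) .done)) .done)) (.node 0 4 .nil (.node 2 9 (.cons 0x6789210453 (.cons 0x5629873401 (.cons 0x3789265401 .nil))) (.leaf 0x8765340129 0 (.node 3 9 (.cons 0x7893456210 (.cons 0x6789354012 (.cons 0x7893401265 .nil))) .done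 .done)) (.node 3 8 (.cons 0x7654098321 .nil) (.node 0 8 .nil (.node 1 7 (.cons 0x6543217890 (.cons 0x9804567123 (.cons 0x9087123456 (.cons 0x9804532176 .nil)))) .done (.node 0 5 .nil (.node 1 4 (.cons 0x3214567890 (.cons 0x9054123876 (.cons 0x6789054123 .nil))) (.node 1 8 (.cons 0x2376540981 (.cons 0x9814056732 .nil)) .done .done) .done) .done)) (.node 0 5 .nil (.node 1 4 (.cons 0x3214567890 (.cons 0x9832140567 (.cons 0x9056783214 (.cons 0x6789054123 .nil)))) .done (.node 0 2 (.cons 0x9873456201 .nil) (.node 0 8 .nil (.node 1 7 (.cons 0x6543217890 (.cons 0x9804567123 (.cons 0x9087123456 (.cons 0x9804532176 .nil)))) .done .done) .done) .done)) .done)) (.node 1 6 (.cons 0x9876123540 .nil) (.leaf 0x2167890453 0 (.node 3 6 (.cons 0x5409876321 .nil) (.node 3 8 (.cons 0x7612389045 .nil) (.node 1 3 .nil (.node 0 2 (.cons 0x9873456201 (.cons 0x9873102654 .nil)) (.leaf 0x1345678902 0 .done) .done) .done) .done) (.node 3 6 (.cons 0x5409876321 .nil) (.node 6 9 (.cons 0x4356987012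 .nil) (.node 6 8 .nil (.node 7 9 (.cons 0x8976354012 (.cons 0x9786210345 .nil)) .done .done) .done) .done) .done))) .done))) .done)) (.node 7 9 (.cons 0x8970126534 .nil) (.node 3 9 (.cons 0x7893456210 .nil) (.node 3 6 .nil (.node 2 5 (.cons 0x8790125436 .nil) (.node 4 8 (.cons 0x3548976210 (.cons 0x9301256784 (.cons 0x7635489012 (.cons 0x6253489701 .nil)))) (.node 6 8 (.cons 0x4867903521 (.cons 0x9786254301 .nil)) .done .done) (.node 4 8 (.cons 0x3548976210 (.cons 0x6352107984 (.cons 0x7635489012 (.cons 0x9784526301 (.cons 0x6309784521 .nil))))) .done .done)) .done) .done) (.node 3 6 .nil (.node 5 7 (.cons 0x9875436210 .nil) (.leaf 0x8901263457 0 (.node 0 4 (.cons 0x8970435621 (.cons 0x5409876321 .nil)) (.node 1 8 (.cons 0x9781265430 (.cons 0x5634079812 (.cons 0x9812367540 (.cons 0x2189756340 (.cons 0x4563097812 .nil))))) .done (.node 4 9 (.cons 0x8765490321 (.cons 0x8943657012 .nil)) (.node 1 5 (.cons 0x8940762351 (.cons 0x8763215490 (.cons 0x2637894510 .nil))) .done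 .done) .done)) (.node 2 8 (.cons 0x6543097821 (.cons 0x9012875436 (.cons 0x9012875634 (.cons 0x4563097821 .nil)))) .done .done))) (.node 3 9 (.cons 0x7893456210 .nil) (.node 1 3 .nil (.node 0 4 (.cons 0x8970435621 (.cons 0x8970431265 (.cons 0x8976213540 (.cons 0x5401398762 .nil)))) .done (.node 3 8 .nil (.node 1 6 (.cons 0x8790345612 (.cons 0x2165438790 .nil)) (.node 2 4 (.cons 0x7890124365 (.cons 0x9012456783 (.cons 0x2456738901 (.cons 0x8309761245 .nil)))) .done .done) .done) .done)) .done) .done)) .done)) .done)) (.node 3 9 (.cons 0x7893456210 .nil) (.node 0 6 (.cons 0x7890654321 .nil) (.node 7 9 (.cons 0x8790654321 .nil) (.node 5 7 (.cons 0x8930126754 .nil) (.node 3 5 (.cons 0x4539876210 .nil) (.node 3 6 .nil (.node 2 4 (.cons 0x8930124576 (.cons 0x8763901245 (.cons 0x8936754210 (.cons 0x5421098763 .nil)))) .done (.node 1 3 (.cons 0x8790654312 .nil) (.node 3 8 .nil (.node 1 4 (.cons 0x3214567890 (.cons 0x8309765412 (.cons 0x5621438970 (.cons 0x5412679830 .nil))))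 .done .done) .done) .done)) .done) (.node 3 5 (.cons 0x4539876210 .nil) (.node 3 8 .nil (.node 1 4 (.cons 0x3214567890 (.cons 0x2145679830 (.cons 0x8309765412 (.cons 0x5621438970 (.cons 0x5412679830 .nil))))) .done (.node 3 6 .nil (.node 2 8 (.cons 0x3456097821 (.cons 0x5436097821 (.cons 0x6390128754 .nil))) .done .done) .done)) .done) .done)) .done) (.node 0 5 (.cons 0x4501267893 .nil) (.node 3 5 (.cons 0x4539876210 .nil) (.node 5 7 (.cons 0x8930126754 .nil) (.node 7 9 (.cons 0x8793450126 .nil) .done .done) .done) (.node 0 8 .nil (.node 1 4 (.cons 0x3214567890 (.cons 0x9803214567 (.cons 0x9087654123 (.cons 0x5410893762 .nil)))) (.node 1 7 (.cons 0x6543217890 (.cons 0x9803217654 (.cons 0x9087123456 .nil))) .done .done) (.node 0 2 (.cons 0x9873456201 .nil) (.node 0 4 (.cons 0x5401267893 .nil) .done .done) .done)) .done)) .done)) (.node 0 6 (.cons 0x7890654321 .nil) (.node 3 6 .nil (.node 0 4 (.cons 0x7893401265 (.cons 0x5409876321 .nil)) (.node 0 5 (.cons 0x4509876321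 .nil) (.node 1 4 (.cons 0x3214567890 (.cons 0x4123987650 (.cons 0x8765093214 (.cons 0x5412367890 .nil)))) (.node 1 6 (.cons 0x7890561234 .nil) .done .done) (.node 4 9 (.cons 0x5621078943 (.cons 0x2637894501 .nil)) (.node 1 4 (.cons 0x3214567890 (.cons 0x9870563214 (.cons 0x5412367890 .nil))) (.node 0 8 (.cons 0x9087654123 (.cons 0x9087632145 .nil)) .done .done) (.leaf 0x8945012637 0 .done)) .done)) .done) .done) (.node 0 4 (.cons 0x7893401265 .nil) (.node 3 5 (.cons 0x9870126534 .nil) (.node 3 8 (.cons 0x9045678321 .nil) (.node 0 5 .nil (.node 2 4 (.cons 0x9870124356 (.cons 0x9837624501 (.cons 0x6789350124 .nil))) .done (.node 0 8 .nil (.node 0 2 (.cons 0x9873456201 .nil) (.node 2 4 (.cons 0x9870124356 (.cons 0x7653980124 .nil)) .done .done) .done) .done)) .done) (.node 3 6 .nil (.node 2 4 (.cons 0x8765390124 (.cons 0x5421098763 .nil)) (.node 1 4 (.cons 0x3214567890 (.cons 0x5412367890 .nil)) (.node 0 5 (.cons 0x4123987650 (.cons 0x9870563214 .nil)) .done .done) .done)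 .done) .done)) (.node 3 6 (.cons 0x5409876321 .nil) (.node 3 5 (.cons 0x6789045321 .nil) (.node 1 3 .nil (.node 2 9 (.cons 0x6789210453 (.cons 0x8926731045 (.cons 0x4531067892 (.cons 0x4562987310 .nil)))) .done (.node 3 8 .nil (.node 2 4 (.cons 0x9876013542 (.cons 0x9012456783 (.cons 0x2456738901 .nil))) .done .done) .done)) .done) .done) .done)) .done)) .done)) (.node 3 9 (.cons 0x7893456210 .nil) (.node 3 5 (.cons 0x9870126534 .nil) (.node 5 7 (.cons 0x8930126754 .nil) (.node 2 7 .nil (.node 0 8 (.cons 0x4562739801 (.cons 0x7265439801 .nil)) (.leaf 0x9801276543 0 .done) (.node 1 7 (.cons 0x6543217890 .nil) (.node 4 7 (.cons 0x8930126745 .nil) (.node 7 9 .nil (.node 0 6 (.cons 0x9871234560 (.cons 0x8790654321 (.cons 0x8971234560 .nil))) (.node 0 8 (.cons 0x4567123980 .nil) (.node 1 4 (.cons 0x3214567890 (.cons 0x8065417932 (.cons 0x1456237980 (.cons 0x8062397541 .nil)))) .done .done) .done) .done) .done) .done) .done)) (.node 5 8 (.cons 0x7012658934 .nil) (.node 5 9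 (.cons 0x4598762103 .nil) (.node 0 8 (.cons 0x4398075621 .nil) (.node 7 9 .nil (.node 0 6 (.cons 0x7890654321 (.cons 0x8790654321 (.cons 0x8975430621 .nil))) .done (.node 2 7 (.cons 0x6278954301 .nil) (.node 1 7 (.cons 0x6543217890 .nil) (.node 4 7 (.cons 0x4701265893 .nil) .done .done) .done) .done)) .done) .done) (.node 5 9 (.cons 0x4598762103 .nil) (.node 0 8 (.cons 0x4398075621 .nil) (.node 7 9 .nil (.node 0 2 (.cons 0x9873456201 (.cons 0x8973456201 .nil)) (.node 1 6 (.cons 0x4598730162 (.cons 0x9785430162 (.cons 0x7985430162 (.cons 0x4320978561 .nil)))) .done .done) (.node 1 9 (.cons 0x2654378910 .nil) (.node 2 9 (.cons 0x6789210354 .nil) .done .done) .done)) .done) .done) .done)) .done)) (.node 5 7 (.cons 0x8930126754 .nil) (.node 3 6 .nil (.node 2 9 (.cons 0x6345789210 (.cons 0x4365789210 (.cons 0x6301298754 .nil))) (.node 1 5 (.cons 0x6789032154 (.cons 0x8926510734 (.cons 0x6298730154 .nil))) .done .done) (.node 3 8 .nil (.node 2 4 (.cons 0x9875634210 (.cons 0x9012456783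 (.cons 0x2456738901 (.cons 0x9012453876 .nil)))) .done (.node 1 3 .nil (.node 0 2 (.cons 0x9873456201 (.cons 0x9873102654 .nil)) (.node 2 4 (.cons 0x9875634210 (.cons 0x8901376542 .nil)) (.leaf 0x1243657890 0 .done) (.leaf 0x1345678902 0 .done)) .done) .done)) .done)) (.node 5 9 (.cons 0x4598762103 .nil) (.node 3 6 .nil (.node 1 4 (.cons 0x8934126570 (.cons 0x4123659870 (.cons 0x8709563214 (.cons 0x8907563412 (.cons 0x2637895410 .nil))))) .done (.node 2 5 (.cons 0x7890125634 .nil) (.node 1 5 (.cons 0x6789032154 .nil) (.node 1 3 .nil (.node 0 2 (.cons 0x9873456201 (.cons 0x9873102654 .nil)) (.node 2 4 (.cons 0x1243657890 (.cons 0x6245987310 .nil)) .done .done) .done) .done) .done) .done)) (.node 4 9 (.cons 0x5498762103 .nil) (.node 3 6 (.cons 0x8763549012 .nil) (.node 1 3 (.cons 0x4310789562 .nil) (.node 3 8 (.cons 0x9453876210 .nil) .done .done) .done) (.node 6 9 (.cons 0x1269875430 .nil) (.node 3 6 .nil (.node 0 5 (.cons 0x3498705621 (.cons 0x7894503621 .nil)) (.node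 1 5 (.cons 0x6789032154 (.cons 0x2154987630 (.cons 0x7894512630 .nil))) .done .done) .done) .done) .done)) .done)) .done)) .done)) (.node 3 8 .nil (.node 0 4 (.cons 0x7893401265 (.cons 0x9045678321 (.cons 0x7654098321 .nil))) (.node 2 7 (.cons 0x5627893401 (.cons 0x9012783456 .nil)) (.node 2 4 (.cons 0x9012456783 (.cons 0x2456738901 .nil)) (.node 3 5 (.cons 0x9870124356 (.cons 0x8765390124 (.cons 0x6721098354 .nil))) .done .done) .done) .done) (.node 3 5 (.cons 0x9870126534 .nil) (.node 1 3 .nil (.node 0 2 (.cons 0x9873456201 (.cons 0x9873102654 .nil)) (.node 2 4 (.cons 0x8765390124 (.cons 0x8901376542 .nil)) (.node 5 9 (.cons 0x4598762103 (.cons 0x8954267310 (.cons 0x6245987310 (.cons 0x4310789562 (.cons 0x4598762130 .nil))))) .done .done) (.leaf 0x1345678902 0 .done)) (.node 3 6 .nil (.node 2 4 (.cons 0x8901376542 (.cons 0x5421098763 .nil)) (.node 1 4 (.cons 0x3214567890 (.cons 0x5412367890 .nil)) (.node 1 5 (.cons 0x6789032154 .nil) (.node 0 2 (.cons 0x9873456201 (.cons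 0x9873654102 .nil)) (.node 0 4 (.cons 0x5678932140 (.cons 0x9870415632 .nil)) .done .done) .done) .done) (.node 5 7 (.cons 0x4398756210 (.cons 0x8907563421 .nil)) (.node 1 5 (.cons 0x6789032154 .nil) (.node 2 8 (.cons 0x3765428901 (.cons 0x9012876354 (.cons 0x7365109824 (.cons 0x7365428901 .nil)))) .done .done) .done) .done)) .done) .done)) (.node 1 3 .nil (.node 0 2 (.cons 0x9873456201 (.cons 0x9873102654 .nil)) (.node 2 4 (.cons 0x9835670124 (.cons 0x8901376542 .nil)) (.node 4 8 (.cons 0x4890765321 (.cons 0x9842670135 (.cons 0x4890765312 .nil))) .done .done) (.leaf 0x1345678902 0 .done)) (.node 3 6 .nil (.node 2 7 (.cons 0x8901276354 .nil) (.node 4 8 (.cons 0x4890765321 (.cons 0x7635489012 (.cons 0x9843562701 (.cons 0x6534890721 .nil)))) .done (.node 4 8 (.cons 0x4890765321 (.cons 0x7635489012 .nil)) (.leaf 0x936548721 0 (.node 0 2 (.cons 0x9873456201 (.cons 0x9021365487 .nil)) (.node 1 5 (.cons 0x6512784390 (.cons 0x9843651207 (.cons 0x4872156390 .nil))) .done .done)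 .done)) .done)) .done) .done)) .done)) .done)) .done)) .done)))
noncomputable def tc9_1_53 : T := (.node 0 3 (.cons 0x4567890321 (.cons 0x9872654301 .nil)) (.node 4 8 (.cons 0x9845671230 (.cons 0x9845672103 (.cons 0x3098456721 .nil))) (.node 3 5 (.cons 0x9870126534 (.cons 0x9845301276 .nil)) (.node 6 9 (.cons 0x5489671230 (.cons 0x5348962701 (.cons 0x8965430172 .nil))) (.leaf 0x7698453012 0 (.node 1 5 (.cons 0x7034896215 (.cons 0x8451276903 (.cons 0x1534896270 (.cons 0x4896270351 .nil)))) .done .done)) .done) (.node 3 5 (.cons 0x9870126534 .nil) (.node 2 9 (.cons 0x6534892701 (.cons 0x6729845301 (.cons 0x4892765301 (.cons 0x6548927103 .nil)))) .done (.node 1 9 (.cons 0x5627019843 (.cons 0x4356278910 (.cons 0x6548917230 .nil))) (.node 2 5 (.cons 0x6523487091 (.cons 0x6523489170 (.cons 0x6523071984 .nil))) .done (.node 4 9 (.cons 0x8945671230 (.cons 0x8943562701 .nil)) (.node 5 9 (.cons 0x8459103762 (.cons 0x3489562701 (.cons 0x8459103726 .nil))) .done .done) .done)) .done))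 .done)) (.node 5 7 (.cons 0x9875430126 .nil) (.node 3 5 (.cons 0x9870126534 .nil) (.node 1 6 (.cons 0x9875430162 .nil) (.node 5 8 (.cons 0x9078561234 (.cons 0x9034587216 .nil)) (.node 6 9 (.cons 0x2698754301 (.cons 0x8962754301 (.cons 0x4356987210 (.cons 0x4587230961 (.cons 0x4587216903 .nil))))) .done .done) (.leaf 0x9872165430 0 (.node 4 9 (.cons 0x6789453012 (.cons 0x8943016275 (.cons 0x2789435610 .nil))) (.node 0 2 (.cons 0x8943572016 .nil) (.leaf 0x1653498720 0 (.node 3 6 (.cons 0x4987536102 (.cons 0x8945367210 (.cons 0x6354987201 .nil))) .done .done)) (.node 0 5 (.cons 0x3498705621 (.cons 0x8721650943 (.cons 0x8943057261 .nil))) (.node 5 9 (.cons 0x4598762103 (.cons 0x8957261034 .nil)) .done .done) .done)) .done))) (.node 4 8 (.cons 0x4890765321 (.cons 0x9845301276 (.cons 0x6721098453 (.cons 0x9843562701 (.cons 0x6534890721 .nil))))) .done .done)) (.node 5 9 (.cons 0x4598762103 (.cons 0x6278954301 .nil)) (.node 6 8 (.cons 0x4598671230 (.cons 0x8659012734 (.cons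 0x7268954301 .nil))) (.node 1 8 (.cons 0x4370956812 (.cons 0x6812734590 (.cons 0x4372186590 (.cons 0x6812730954 .nil)))) .done .done) (.node 1 5 (.cons 0x6789032154 .nil) (.node 6 8 (.cons 0x9078651234 (.cons 0x9034512786 .nil)) (.node 1 4 (.cons 0x4123786590 (.cons 0x3412756890 .nil)) (.node 0 5 (.cons 0x6789054123 (.cons 0x6890572143 (.cons 0x9051432786 .nil))) .done .done) (.node 1 9 (.cons 0x6219875430 (.cons 0x1986275430 (.cons 0x6872345190 (.cons 0x4327865190 .nil)))) .done .done)) (.node 6 8 (.cons 0x9862157034 (.cons 0x4327098651 (.cons 0x4512768903 .nil))) (.node 4 7 (.cons 0x4726895103 .nil) (.node 0 4 (.cons 0x4095687321 (.cons 0x3409865721 (.cons 0x9865172340 .nil))) (.node 1 4 (.cons 0x4123786590 .nil) .done .done) .done) .done) .done)) .done)) .done)) .done)) (.node 2 8 (.cons 0x9012873456 .nil) (.node 0 6 (.cons 0x9871234560 .nil) (.node 7 9 (.cons 0x8790654321 .nil) (.node 5 7 .nil (.node 1 6 (.cons 0x8907561234 (.cons 0x4321657890 .nil)) (.node 0 3 (.cons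 0x4567890321 (.cons 0x8972610345 (.cons 0x9875430126 (.cons 0x9872610345 .nil)))) .done .done) (.node 4 7 .nil (.node 1 6 (.cons 0x3475612890 (.cons 0x5612347890 .nil)) (.node 2 4 (.cons 0x5610978243 (.cons 0x8907561243 .nil)) .done .done) .done) .done)) (.node 5 7 .nil (.node 1 6 (.cons 0x8907561234 (.cons 0x4321657890 .nil)) (.node 0 3 (.cons 0x4567890321 (.cons 0x9875430126 (.cons 0x9872610345 .nil))) (.leaf 0x4561278903 0 .done) .done) (.node 4 7 .nil (.node 1 6 (.cons 0x1657432890 (.cons 0x5612347890 .nil)) (.node 0 3 (.cons 0x4567890321 (.cons 0x9826574301 (.cons 0x9875430162 (.cons 0x9872610345 .nil)))) .done .done) .done) .done)) .done)) (.node 7 9 (.cons 0x8971234560 .nil) (.node 4 7 .nil (.node 5 7 (.cons 0x3475609821 .nil) .done (.node 5 7 (.cons 0x3475609821 .nil) .done .done)) (.node 5 7 .nil (.node 3 8 (.cons 0x2179834560 (.cons 0x9834572106 (.cons 0x4576098321 (.cons 0x9834572601 .nil)))) .done (.node 4 7 .nil (.node 1 8 (.cons 0x9810627543 (.cons 0x5476098123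 (.cons 0x7456098123 .nil))) .done .done) .done)) .done)) (.node 6 8 .nil (.node 1 5 (.cons 0x6098723451 (.cons 0x9068723451 (.cons 0x7098651234 .nil))) (.node 0 3 (.cons 0x4567890321 (.cons 0x9860327154 .nil)) (.node 4 9 (.cons 0x5498762103 (.cons 0x5498671230 (.cons 0x6873215490 (.cons 0x9451037862 (.cons 0x9451268730 .nil))))) .done .done) .done) (.node 6 9 (.cons 0x8734569012 .nil) (.node 4 6 (.cons 0x9012873465 .nil) (.node 1 6 (.cons 0x5432789061 .nil) (.node 3 6 .nil (.node 0 4 (.cons 0x7890432165 (.cons 0x5409876321 .nil)) (.node 1 4 (.cons 0x3214567890 (.cons 0x5412367890 .nil)) .done .done) .done) .done) .done) (.node 4 6 (.cons 0x9012873465 .nil) (.node 2 4 (.cons 0x8734210965 .nil) (.node 0 4 (.cons 0x5698712340 .nil) (.node 1 4 (.cons 0x3214567890 .nil) .done .done) .done) (.node 3 6 .nil (.node 0 4 (.cons 0x5698712340 (.cons 0x5409876321 .nil)) (.node 1 4 (.cons 0x3214567890 (.cons 0x5412367890 .nil)) .done .done) .done) .done)) .done)) .done)) .done))) (.node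 3 6 (.cons 0x9012873654 .nil) (.node 0 3 (.cons 0x4567890321 .nil) (.node 0 8 .nil (.node 7 9 (.cons 0x8210973654 (.cons 0x5436279801 (.cons 0x4563790821 .nil))) .done (.node 0 6 (.cons 0x9871234560 .nil) (.node 6 9 (.cons 0x8734569012 .nil) (.node 1 6 .nil (.node 2 9 (.cons 0x9265437801 (.cons 0x7165432980 .nil)) .done .done) (.leaf 0x5690128734 0 (.node 0 2 (.cons 0x3456987120 .nil) (.leaf 0x9654302178 0 .done) .done))) .done) .done)) (.node 0 6 (.cons 0x9871234560 .nil) (.node 1 6 (.cons 0x9872610345 .nil) (.node 6 9 (.cons 0x8734569012 .nil) (.leaf 0x5690128734 0 (.node 4 6 (.cons 0x9827103645 .nil) (.node 6 8 (.cons 0x7210986345 .nil) .done .done) .done)) .done) .done) .done)) (.node 6 9 (.cons 0x8734569012 .nil) (.node 0 8 (.cons 0x7123456980 .nil) (.node 1 6 .nil (.node 0 3 (.cons 0x4567890321 (.cons 0x9872610345 .nil)) (.leaf 0x4561278903 0 .done) (.node 5 7 (.cons 0x4365789012 .nil) (.node 4 7 (.cons 0x5634789012 .nil) (.node 7 9 (.cons 0x8012697345 .nil) .done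 .done) (.leaf 0x1690875432 0 .done)) .done)) (.node 0 6 (.cons 0x9871234560 .nil) (.node 1 6 (.cons 0x5432716980 .nil) .done .done) .done)) (.leaf 0x5690128734 0 (.node 2 4 (.cons 0x7890124365 .nil) (.node 0 2 (.cons 0x3456987120 .nil) (.node 2 5 (.cons 0x7890125634 .nil) .done .done) (.node 0 2 (.cons 0x3456987120 .nil) (.node 2 5 (.cons 0x7890125634 .nil) .done .done) .done)) .done))) (.node 0 3 (.cons 0x4567890321 .nil) (.node 0 6 (.cons 0x9871234560 .nil) (.node 0 2 .nil (.node 3 9 (.cons 0x7893456210 .nil) (.leaf 0x8934562017 0 (.node 2 9 (.cons 0x4563782901 .nil) (.node 6 9 (.cons 0x8734569012 (.cons 0x3456987120 .nil)) .done .done) .done)) .done) .done) (.node 2 5 (.cons 0x6345278901 .nil) (.node 2 4 .nil (.node 0 2 (.cons 0x9871024365 .nil) (.node 2 9 (.cons 0x5634298710 .nil) .done .done) (.node 2 9 (.cons 0x4563782901 .nil) (.node 0 2 .nil (.node 3 9 (.cons 0x7893456210 (.cons 0x7102893654 .nil)) .done .done) .done) .done)) (.node 2 9 (.cons 0x4563782901 .nil)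 (.node 3 9 (.cons 0x7893456210 .nil) (.node 0 2 (.cons 0x7102893654 .nil) (.node 2 4 (.cons 0x5634298710 .nil) .done .done) .done) .done) .done)) .done)) .done))) .done)) .done))
noncomputable def tc9_1_54 : T := (.node 5 7 .nil (.node 1 6 (.cons 0x8907561234 (.cons 0x1654327890 (.cons 0x4321657890 .nil))) .done (.node 3 5 (.cons 0x9870126534 .nil) (.node 0 3 (.cons 0x4567890321 (.cons 0x9872654301 .nil)) (.node 4 8 (.cons 0x7654890321 (.cons 0x9845672103 (.cons 0x3098456721 .nil))) (.node 6 9 (.cons 0x8712345690 (.cons 0x8965437210 (.cons 0x5726984301 (.cons 0x8453096721 .nil)))) (.leaf 0x354896721 0 .done) (.node 1 9 (.cons 0x8456719032 (.cons 0x5627019843 (.cons 0x8910345726 (.cons 0x6548910372 .nil)))) (.node 2 5 (.cons 0x6527348910 (.cons 0x6527301984 .nil)) .done .done) .done)) (.node 1 6 (.cons 0x9875430162 .nil) (.leaf 0x9872165430 0 (.node 4 9 (.cons 0x5789430162 (.cons 0x8943016275 (.cons 0x8721653490 .nil))) (.node 4 7 (.cons 0x5612347890 .nil) (.node 0 5 (.cons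 0x1623498750 (.cons 0x8905612743 .nil)) (.node 3 6 (.cons 0x9874503621 (.cons 0x8945012736 (.cons 0x3627894501 .nil))) .done .done) .done) (.node 0 4 (.cons 0x2340987561 (.cons 0x8904327561 .nil)) (.node 5 9 (.cons 0x4598762103 (.cons 0x8957261034 (.cons 0x8726103594 (.cons 0x8721659043 .nil)))) .done .done) .done)) .done)) .done)) (.node 4 8 (.cons 0x4890765321 (.cons 0x6721098453 (.cons 0x9843562701 (.cons 0x6534890721 .nil)))) (.node 0 3 (.cons 0x4567890321 (.cons 0x9845301276 (.cons 0x9872654301 .nil))) (.node 6 8 (.cons 0x7210986534 (.cons 0x4356890721 .nil)) (.node 2 9 (.cons 0x7345689210 (.cons 0x4537689210 (.cons 0x9210378654 .nil))) (.leaf 0x8435670129 0 .done) (.node 1 4 (.cons 0x9841235670 (.cons 0x5689072341 (.cons 0x1453276890 .nil))) .done .done)) .done) .done) .done)) (.node 4 7 .nil (.node 1 6 (.cons 0x8907432165 (.cons 0x1654327890 (.cons 0x5612347890 .nil))) .done (.node 1 4 (.cons 0x3214567890 .nil) (.node 7 9 .nil (.node 0 6 (.cons 0x7890654321 (.cons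 0x8790654321 (.cons 0x8973456012 .nil))) (.node 1 5 (.cons 0x9870651432 (.cons 0x8970651432 .nil)) (.node 1 3 (.cons 0x9874513260 (.cons 0x8972601345 .nil)) (.node 2 4 (.cons 0x8906572431 (.cons 0x8790651324 .nil)) .done .done) .done) .done) (.node 6 9 (.cons 0x8712345690 (.cons 0x8965437210 .nil)) (.node 3 5 (.cons 0x5347896210 (.cons 0x8721096534 (.cons 0x2789653410 .nil))) (.node 4 8 (.cons 0x9841235670 (.cons 0x9843562701 (.cons 0x6534890721 .nil))) .done .done) (.node 4 9 (.cons 0x5621078943 .nil) (.node 6 8 (.cons 0x5689437012 (.cons 0x5689437210 .nil)) (.node 3 5 (.cons 0x8941235670 (.cons 0x8965341270 (.cons 0x8943562701 .nil))) (.leaf 0x4986532701 0 .done) .done) .done) .done)) .done)) (.node 6 8 (.cons 0x3412756890 (.cons 0x5689072341 (.cons 0x5689072143 .nil))) (.node 0 3 (.cons 0x4567890321 (.cons 0x5476890321 (.cons 0x3098675412 (.cons 0x9872654301 .nil)))) (.node 3 5 (.cons 0x8907653214 (.cons 0x1235476890 .nil)) (.leaf 0x7534126890 0 .done) .done) .done)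 .done)) (.node 7 9 .nil (.node 0 6 (.cons 0x7890654321 (.cons 0x8790654321 (.cons 0x8973456012 .nil))) (.node 1 3 (.cons 0x9872601345 (.cons 0x8972601345 .nil)) (.node 0 8 (.cons 0x9087123456 (.cons 0x6213457980 (.cons 0x1326547980 .nil))) .done (.node 3 8 (.cons 0x9012783456 (.cons 0x9783456210 (.cons 0x5438972601 .nil))) (.node 1 6 (.cons 0x9016543872 (.cons 0x2798345610 .nil)) (.node 0 2 (.cons 0x6120987543 (.cons 0x8320971654 (.cons 0x9783456201 .nil))) .done .done) .done) .done)) .done) (.node 4 9 (.cons 0x5621078943 .nil) (.node 6 8 (.cons 0x5689437012 (.cons 0x5689437210 .nil)) (.node 0 8 (.cons 0x1237654980 (.cons 0x6549801273 .nil)) (.node 1 5 (.cons 0x6732154980 (.cons 0x1568943270 (.cons 0x4327098651 (.cons 0x6809451723 .nil)))) .done .done) (.node 3 5 (.cons 0x8653490712 (.cons 0x8653490721 (.cons 0x4356890721 (.cons 0x8943562701 .nil)))) .done .done)) (.node 6 9 (.cons 0x8712345690 (.cons 0x8965437210 .nil)) (.node 1 6 (.cons 0x1654327890 .nil) (.node 0 2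 (.cons 0x8943702165 (.cons 0x6120987543 (.cons 0x3789456120 .nil))) (.node 0 4 (.cons 0x5698734012 (.cons 0x5409876123 .nil)) (.node 0 8 (.cons 0x5694378021 (.cons 0x5734089612 (.cons 0x9456120873 (.cons 0x9087165432 .nil)))) .done .done) .done) (.node 3 8 (.cons 0x4389075612 (.cons 0x6127543890 (.cons 0x5610983472 (.cons 0x5438972610 .nil)))) .done .done)) (.node 0 6 (.cons 0x7890654321 .nil) (.node 1 6 (.cons 0x8790612345 .nil) (.node 0 8 (.cons 0x2345690871 (.cons 0x8096172345 (.cons 0x3721654980 (.cons 0x9801654372 .nil)))) .done (.node 3 5 (.cons 0x1265349870 (.cons 0x8721653490 (.cons 0x8901653472 (.cons 0x4356109872 .nil)))) .done .done)) (.node 1 3 (.cons 0x8975431260 (.cons 0x8906572134 .nil)) (.node 0 8 (.cons 0x2137654980 (.cons 0x1345726980 (.cons 0x4569801372 (.cons 0x5627089431 .nil)))) .done (.leaf 0x2789065431 0 .done)) .done)) .done)) .done)) .done)) .done))) .done))) (.node 0 6 (.cons 0x7890654321 .nil) (.node 7 9 (.cons 0x8790654321 .nil) (.node 5 7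 .nil (.node 1 6 (.cons 0x8907561234 (.cons 0x4321657890 .nil)) (.node 0 3 (.cons 0x4567890321 (.cons 0x8972610345 (.cons 0x9875430126 (.cons 0x9872610345 .nil)))) .done .done) (.node 4 7 .nil (.node 1 6 (.cons 0x8907432165 (.cons 0x5612347890 .nil)) (.node 2 4 (.cons 0x8907561243 .nil) (.node 3 9 (.cons 0x7893456210 (.cons 0x8934701265 (.cons 0x8754390612 (.cons 0x8756124390 .nil)))) .done .done) .done) .done) .done)) (.node 5 7 .nil (.node 1 6 (.cons 0x8907561234 (.cons 0x4321657890 .nil)) (.node 0 3 (.cons 0x4567890321 (.cons 0x9875430126 (.cons 0x9872610345 .nil))) (.leaf 0x4561278903 0 .done) .done) (.node 4 7 .nil (.node 1 6 (.cons 0x8907432165 (.cons 0x5612347890 .nil)) (.node 0 3 (.cons 0x4567890321 (.cons 0x9875430162 (.cons 0x9872610345 .nil))) (.leaf 0x2165478903 0 .done) .done) .done) .done)) .done)) (.node 1 6 .nil (.node 0 3 (.cons 0x4567890321 (.cons 0x9872610345 .nil)) (.node 0 4 (.cons 0x5409876123 .nil) (.leaf 0x2378904561 0 (.node 2 8 (.cons 0x9821065437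 (.cons 0x9043287165 (.cons 0x9045617823 .nil))) .done .done)) (.node 5 7 (.cons 0x9875430126 (.cons 0x9875430162 (.cons 0x8906127543 .nil))) .done .done)) (.node 5 7 (.cons 0x4321657890 .nil) (.node 4 7 (.cons 0x5612347890 .nil) (.node 7 9 (.cons 0x8973456012 .nil) .done .done) (.node 4 7 (.cons 0x5612347890 .nil) (.node 7 9 (.cons 0x8973456012 .nil) .done .done) .done)) .done)) (.node 1 6 (.cons 0x5432789061 .nil) (.node 6 9 (.cons 0x8712345690 .nil) (.node 6 8 .nil (.node 3 6 (.cons 0x9012786345 .nil) .done (.node 2 9 (.cons 0x6543789210 .nil) (.node 2 4 (.cons 0x5698734210 .nil) (.node 4 6 (.cons 0x8921073465 .nil) .done .done) (.node 1 9 (.cons 0x8719065432 .nil) (.node 2 8 (.cons 0x9065432871 .nil) (.leaf 0x7190654328 0 .done) .done) .done)) .done)) (.node 6 8 .nil (.node 0 3 (.cons 0x4567890321 (.cons 0x5430968721 (.cons 0x5430968712 .nil))) (.node 5 7 (.cons 0x8907561234 (.cons 0x9862754301 (.cons 0x3457216890 .nil))) .done .done) (.node 2 8 (.cons 0x9065432871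 .nil) (.node 0 8 (.cons 0x5437216980 .nil) (.node 3 6 (.cons 0x5436908712 .nil) (.node 4 6 .nil (.node 2 9 (.cons 0x6543789210 (.cons 0x8921073465 (.cons 0x5643789210 .nil))) .done .done) .done) .done) .done) .done)) .done)) (.node 6 8 .nil (.node 3 6 (.cons 0x9012786345 (.cons 0x7210986345 .nil)) .done (.node 6 9 (.cons 0x8712345690 .nil) (.node 3 6 .nil (.node 0 5 (.cons 0x7890561234 (.cons 0x9054368721 (.cons 0x8963721054 .nil))) (.leaf 0x2789054361 0 .done) (.node 4 6 .nil (.node 3 5 (.cons 0x9870126534 (.cons 0x5346890721 (.cons 0x5346109872 .nil))) .done .done) .done)) .done) .done)) .done)) .done))) .done))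
noncomputable def tc9_1_55 : T := (.node 1 7 (.cons 0x6543217890 .nil) (.node 2 7 .nil tc9_1_54 (.node 2 7 .nil (.node 3 5 (.cons 0x9870126534 .nil) (.node 0 3 (.cons 0x4567890321 (.cons 0x9872654301 .nil)) (.node 7 9 (.cons 0x8972654301 .nil) (.node 6 9 (.cons 0x8965437210 (.cons 0x8721096534 (.cons 0x8962710345 .nil))) (.node 2 8 (.cons 0x7821096534 (.cons 0x7301289654 .nil)) (.leaf 0x1289654370 0 .done) .done) .done) (.node 6 9 (.cons 0x7896210345 (.cons 0x8965437210 (.cons 0x8721096534 .nil))) (.node 6 8 (.cons 0x9012786534 .nil) (.node 0 2 (.cons 0x5432096871 (.cons 0x8965437201 (.cons 0x4532096871 .nil))) .done (.node 1 9 (.cons 0x4356870912 (.cons 0x8672190354 (.cons 0x4356872190 (.cons 0x8726910354 .nil)))) .done .done)) (.node 1 5 (.cons 0x7896215430 (.cons 0x6987215430 .nil)) (.node 0 8 (.cons 0x4370896512 (.cons 0x6980372154 (.cons 0x3451726980 .nil))) .done (.node 4 6 (.cons 0x2154698730 (.cons 0x8721546903 (.cons 0x8964512730 (.cons 0x9872645103 .nil))))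 .done .done)) .done)) .done)) (.node 6 8 (.cons 0x4532176890 (.cons 0x7210986534 (.cons 0x4356890721 .nil))) (.node 1 4 (.cons 0x2354176890 (.cons 0x9865341072 (.cons 0x5689072341 .nil))) (.node 1 9 (.cons 0x5687091432 (.cons 0x2734568910 (.cons 0x5687234190 (.cons 0x3278654190 .nil)))) .done .done) .done) (.node 1 9 (.cons 0x8910726534 (.cons 0x4356278910 .nil)) (.node 0 4 (.cons 0x8765409123 (.cons 0x8917623540 (.cons 0x1987623540 (.cons 0x5623407891 .nil)))) (.node 3 9 (.cons 0x8937654012 (.cons 0x2678935401 (.cons 0x7893401265 .nil))) .done .done) (.node 0 3 (.cons 0x4567890321 (.cons 0x6278910354 .nil)) (.node 6 8 (.cons 0x4568723091 (.cons 0x9034568721 .nil)) (.node 0 4 (.cons 0x7198623540 (.cons 0x6278910453 (.cons 0x9178623045 .nil))) (.node 2 9 (.cons 0x7345689210 (.cons 0x7862910354 (.cons 0x7892653401 .nil))) .done .done) (.node 5 9 (.cons 0x4359862710 (.cons 0x4309568721 .nil)) (.node 2 4 (.cons 0x9568734210 (.cons 0x4273568910 (.cons 0x6243598701 .nil)))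 .done .done) .done)) (.node 4 8 (.cons 0x7654890321 (.cons 0x9845672103 (.cons 0x6548910372 (.cons 0x6271984530 .nil)))) (.node 6 9 (.cons 0x5489673012 (.cons 0x8965437210 (.cons 0x8962710345 .nil))) (.leaf 0x7698453012 0 (.node 0 8 (.cons 0x7126980345 (.cons 0x4569803721 (.cons 0x5430896271 .nil))) .done .done)) .done) .done)) .done)) .done))) (.node 0 6 (.cons 0x7890654321 .nil) (.node 7 9 (.cons 0x8790654321 .nil) (.node 4 7 .nil (.node 1 6 (.cons 0x8907432165 (.cons 0x5612347890 .nil)) (.node 1 9 (.cons 0x8743219065 (.cons 0x8745609123 .nil)) (.node 0 8 (.cons 0x4567321980 (.cons 0x6547321980 (.cons 0x9087234561 .nil))) (.node 0 3 (.cons 0x4567890321 (.cons 0x5476230891 .nil)) (.leaf 0x2165478903 0 .done) .done) .done) .done) (.node 5 7 .nil (.node 1 6 (.cons 0x8907561234 (.cons 0x4321657890 .nil)) (.node 0 5 (.cons 0x8971623450 (.cons 0x9871623450 .nil)) (.node 0 3 (.cons 0x4567890321 (.cons 0x8971623054 (.cons 0x9875430126 (.cons 0x9871623054 .nil)))) .done .done)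 .done) .done) .done)) (.node 5 7 .nil (.node 1 6 (.cons 0x8907561234 (.cons 0x4321657890 .nil)) (.node 4 7 (.cons 0x8907432165 .nil) (.node 0 4 (.cons 0x5409876123 .nil) (.leaf 0x2378904561 0 (.node 3 8 (.cons 0x7654098321 (.cons 0x6754098321 (.cons 0x1265798340 (.cons 0x9016543872 .nil)))) .done .done)) .done) .done) (.node 4 7 .nil (.node 1 6 (.cons 0x8907432165 (.cons 0x5612347890 .nil)) (.node 0 3 (.cons 0x4567890321 (.cons 0x9875430162 .nil)) (.leaf 0x2165478903 0 (.node 0 4 (.cons 0x5409876123 .nil) (.leaf 0x3216578904 0 .done) .done)) .done) .done) .done)) .done)) (.node 7 9 (.cons 0x8973456012 .nil) (.node 4 7 .nil (.node 1 8 (.cons 0x9812347065 (.cons 0x7432189065 (.cons 0x9812374560 .nil))) (.node 1 6 (.cons 0x2345618790 (.cons 0x5612347890 .nil)) .done .done) (.node 5 7 .nil (.node 2 8 (.cons 0x2897345601 (.cons 0x3457982601 (.cons 0x3475609821 .nil))) (.node 0 8 (.cons 0x5432608971 (.cons 0x9806234571 .nil)) (.node 3 9 (.cons 0x7893456210 (.cons 0x4576210893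 (.cons 0x6012893754 (.cons 0x4398756210 .nil)))) .done .done) .done) .done) .done)) (.node 4 7 .nil (.node 1 8 (.cons 0x2189734560 (.cons 0x9812347065 (.cons 0x7432189065 (.cons 0x9812374560 .nil)))) .done (.node 5 7 .nil (.node 3 8 (.cons 0x5438971260 (.cons 0x4576098321 (.cons 0x9834571062 .nil))) (.node 4 9 (.cons 0x5621078943 (.cons 0x8349012756 .nil)) (.node 0 8 (.cons 0x5498067321 (.cons 0x3457980621 (.cons 0x6089457321 (.cons 0x9806234571 .nil)))) .done .done) .done) .done) .done)) .done)) (.node 2 5 (.cons 0x9871062543 .nil) (.node 2 4 .nil (.node 1 9 (.cons 0x8723456091 (.cons 0x5601987342 (.cons 0x1987324560 .nil))) (.node 0 8 (.cons 0x4567321980 (.cons 0x5423760891 (.cons 0x7324560891 .nil))) .done .done) (.node 6 8 (.cons 0x9860173452 .nil) (.node 2 8 (.cons 0x9825437106 .nil) (.node 0 2 .nil (.node 1 8 (.cons 0x9065432781 .nil) (.node 4 9 (.cons 0x7349865210 (.cons 0x5498176023 (.cons 0x7349865201 (.cons 0x5206894371 .nil)))) .done .done) .done) .done) (.node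 0 2 (.cons 0x9860254371 .nil) (.node 2 8 (.cons 0x9825437106 .nil) (.node 2 9 (.cons 0x6543789210 .nil) .done .done) .done) .done)) .done)) (.node 6 8 (.cons 0x9012786543 .nil) (.node 6 9 (.cons 0x8721096543 .nil) (.node 2 8 (.cons 0x7345698210 .nil) (.leaf 0x1289654370 0 .done) (.node 2 8 .nil (.node 1 6 (.cons 0x9061782345 (.cons 0x7160982345 .nil)) (.node 3 8 (.cons 0x5438721690 (.cons 0x9016543872 .nil)) .done .done) (.node 3 8 (.cons 0x1278345690 .nil) (.node 0 8 (.cons 0x3456908721 .nil) (.node 1 8 (.cons 0x9065432781 .nil) (.node 0 2 .nil (.node 1 4 (.cons 0x3214567890 (.cons 0x9023876541 (.cons 0x6983714520 .nil))) .done (.node 2 4 (.cons 0x9837654201 .nil) .done .done)) .done) .done) .done) .done)) .done)) (.node 6 9 (.cons 0x8721096543 .nil) (.node 4 6 (.cons 0x3254609871 .nil) (.node 3 6 (.cons 0x4523609871 .nil) (.node 1 6 .nil (.node 0 4 (.cons 0x8960452371 (.cons 0x9873254061 .nil)) (.leaf 0x1789045236 0 .done) .done) .done) .done) (.node 2 4 (.cons 0x5698734210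 .nil) (.node 4 6 (.cons 0x3254609871 .nil) (.node 3 6 (.cons 0x4523609871 .nil) (.node 0 2 (.cons 0x7120986345 .nil) (.node 0 4 (.cons 0x9863712540 .nil) .done .done) .done) .done) (.node 2 9 (.cons 0x6543789210 .nil) (.node 0 2 .nil (.node 1 9 (.cons 0x3456872190 (.cons 0x4560237891 .nil)) .done .done) .done) .done)) .done)) .done)) .done)) .done))) .done)) .done)) (.node 1 7 (.cons 0x6543217890 .nil) (.node 2 7 .nil tc9_1_53 (.node 2 7 .nil (.node 0 3 (.cons 0x4567890321 (.cons 0x9872654301 .nil)) (.node 7 9 (.cons 0x8972654301 .nil) (.node 4 8 (.cons 0x7654890321 (.cons 0x9845672103 (.cons 0x3098456721 .nil))) (.node 3 5 (.cons 0x1267984530 (.cons 0x9845301276 .nil)) (.node 6 9 (.cons 0x8734569012 (.cons 0x5348962701 (.cons 0x8962710345 .nil))) (.leaf 0x7698453012 0 .done) .done) (.node 1 9 (.cons 0x5489176230 (.cons 0x5627019843 (.cons 0x7265489103 .nil))) (.node 3 5 (.cons 0x9845301762 (.cons 0x4891035672 (.cons 0x4356278910 .nil))) .done .done) .done)) .done) (.node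 3 5 (.cons 0x9870126534 .nil) (.node 6 9 (.cons 0x4356987012 (.cons 0x8967210354 (.cons 0x4356987210 .nil))) (.node 1 4 (.cons 0x3214567890 (.cons 0x8965341072 .nil)) (.node 2 5 (.cons 0x8967254103 (.cons 0x6987254103 .nil)) (.leaf 0x7896523410 0 .done) (.node 0 8 (.cons 0x9087654123 (.cons 0x3278096541 .nil)) (.node 3 9 (.cons 0x7893456210 (.cons 0x7265439801 (.cons 0x9341087265 .nil))) .done .done) .done)) (.node 1 5 (.cons 0x7896215430 (.cons 0x8721543096 .nil)) (.node 4 8 (.cons 0x4896703512 (.cons 0x3489651270 (.cons 0x6984351270 (.cons 0x6723098451 (.cons 0x6721548903 .nil))))) .done (.node 4 6 (.cons 0x5467890321 (.cons 0x8721546903 (.cons 0x9872645103 .nil))) (.node 3 8 (.cons 0x5467123890 (.cons 0x7210983465 (.cons 0x6451723890 .nil))) .done .done) .done)) .done)) (.node 4 8 (.cons 0x6712354890 (.cons 0x9845301276 (.cons 0x6721098453 (.cons 0x9843562701 (.cons 0x6534890721 .nil))))) .done (.node 1 9 (.cons 0x4530198762 (.cons 0x8910726534 (.cons 0x4356278910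 (.cons 0x6278910354 .nil)))) .done .done))) .done)) .done) .done)) (.leaf 0x8901265437 0 (.node 0 3 (.cons 0x4567890321 .nil) tc9_1_52 .done))))
noncomputable def uc9_1_10 : T := tc9_1_55
theorem sub_c9_1_10 : root 9 refs9_1 [] 0x700000008706000000006030000040030500800000504000000004030000000030100000800102000000002018040000010 0xfe7fff3fffa7fed7ffcfffe7fff5fef9fff9feed 9 3 7 (.cons 0x9873456210 .nil) uc9_1_10 = true := by decide +kernel
noncomputable def tc9_1_56 : T := (.node 1 6 (.cons 0x1654327890 .nil) (.node 0 3 (.cons 0x4567890321 (.cons 0x9872654301 .nil)) (.node 7 9 (.cons 0x8790345612 .nil) (.node 0 5 (.cons 0x6509871234 (.cons 0x8970543261 (.cons 0x9870543261 .nil))) (.node 0 2 (.cons 0x8790234561 .nil) (.leaf 0x3456178902 0 (.node 1 8 (.cons 0x9781623054 (.cons 0x4561879032 .nil)) (.leaf 0x6187902345 0 .done) .done)) .done) .done) (.node 4 8 (.cons 0x7654890321 (.cons 0x9845672103 (.cons 0x7612309845 (.cons 0x9843017265 (.cons 0x3098456721 .nil))))) .done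 (.node 0 2 (.cons 0x7890234561 .nil) (.node 7 9 (.cons 0x8790234561 (.cons 0x8790216543 .nil)) .done (.leaf 0x3456178902 0 (.node 3 9 (.cons 0x7893456210 (.cons 0x5439870162 .nil)) (.node 0 8 (.cons 0x7265439801 .nil) (.leaf 0x9801276543 0 .done) (.node 0 4 (.cons 0x5401267893 (.cons 0x8761239045 (.cons 0x5617890432 .nil))) (.node 0 5 (.cons 0x4501267893 (.cons 0x8761239054 (.cons 0x6278934501 .nil))) .done .done) .done)) .done))) .done))) (.node 3 6 (.cons 0x9870126345 .nil) (.node 5 8 (.cons 0x4589076321 (.cons 0x9854362701 (.cons 0x6345890721 .nil))) (.node 4 8 (.cons 0x5489076321 (.cons 0x5489012763 (.cons 0x5634890172 .nil))) (.node 0 3 (.cons 0x4567890321 (.cons 0x9034872165 (.cons 0x9872654301 .nil))) (.node 1 8 (.cons 0x9032187654 (.cons 0x9036721845 (.cons 0x9036548127 .nil))) .done .done) .done) (.node 4 6 (.cons 0x5643217890 (.cons 0x3645890721 .nil)) (.node 0 6 (.cons 0x7890654321 .nil) (.node 6 8 (.cons 0x9078612345 (.cons 0x5436890721 .nil)) .done .done)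 .done) .done)) (.node 6 8 (.cons 0x9078612345 .nil) (.node 0 6 (.cons 0x7890654321 .nil) (.node 4 6 (.cons 0x5643217890 .nil) (.node 6 9 (.cons 0x8709612345 .nil) .done .done) .done) (.node 0 3 (.cons 0x4567890321 (.cons 0x9034568721 (.cons 0x9872654301 .nil))) (.node 4 8 (.cons 0x7654890321 (.cons 0x9845672103 (.cons 0x9843017265 .nil))) (.node 0 6 (.cons 0x7890654321 .nil) (.node 5 9 (.cons 0x3216784590 (.cons 0x8612709543 (.cons 0x3278459061 (.cons 0x8459032761 (.cons 0x5984306271 .nil))))) .done .done) .done) .done) .done)) (.node 2 5 (.cons 0x8901725634 .nil) (.node 2 4 (.cons 0x8901724365 .nil) (.node 3 5 (.cons 0x2453678901 .nil) (.node 1 9 (.cons 0x2453678910 (.cons 0x8910726345 (.cons 0x5436278910 (.cons 0x6354278910 .nil)))) .done (.node 6 8 (.cons 0x7689012453 (.cons 0x7210986534 .nil)) (.leaf 0x7243568901 0 .done) .done)) .done) (.node 1 9 (.cons 0x8709163254 (.cons 0x8910726345 (.cons 0x5436278910 .nil))) (.node 4 8 (.cons 0x9078452361 (.cons 0x5487236190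 (.cons 0x3278456190 .nil))) (.node 0 2 (.cons 0x9102784563 (.cons 0x7201984563 .nil)) (.node 0 3 (.cons 0x4567890321 (.cons 0x9103654872 (.cons 0x9845672103 .nil))) .done .done) (.leaf 0x7256348901 0 .done)) .done) .done)) .done))) (.node 5 8 (.cons 0x4589076123 (.cons 0x4327165890 (.cons 0x6127098543 .nil))) (.node 0 4 (.cons 0x9854076123 (.cons 0x9856172340 .nil)) (.node 6 9 (.cons 0x9658712340 (.cons 0x9658721043 (.cons 0x1698543270 (.cons 0x3458961270 .nil)))) .done (.node 3 6 (.cons 0x9854076321 (.cons 0x9856340127 (.cons 0x9854361072 .nil))) (.node 0 3 (.cons 0x4567890321 (.cons 0x9872654301 .nil)) (.node 0 6 (.cons 0x7890654321 (.cons 0x9854327061 .nil)) .done .done) .done) .done)) (.node 4 6 (.cons 0x5643217890 (.cons 0x3270985461 .nil)) (.node 3 9 (.cons 0x7893456210 (.cons 0x6458721093 (.cons 0x4658721093 .nil))) (.node 3 6 (.cons 0x9078546321 (.cons 0x4589362701 .nil)) (.node 4 8 (.cons 0x5489076123 (.cons 0x3984567210 (.cons 0x7210936485 (.cons 0x5617234890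 (.cons 0x5846390721 .nil))))) .done .done) (.leaf 0x7856439012 0 .done)) (.node 6 8 (.cons 0x7098612345 (.cons 0x5432709861 .nil)) (.node 3 6 (.cons 0x9870126345 (.cons 0x4589072361 .nil)) (.node 0 6 (.cons 0x7890654321 .nil) (.node 6 9 (.cons 0x4587096321 .nil) .done .done) .done) .done) .done)) .done)) .done))) (.node 3 7 (.cons 0x9873456210 .nil) (.node 1 6 .nil (.node 0 4 (.cons 0x5617890432 .nil) (.leaf 0x2378904561 0 (.node 3 9 (.cons 0x7893456210 (.cons 0x8761239045 (.cons 0x5439870162 .nil))) (.node 5 7 (.cons 0x8934570126 (.cons 0x8934570162 .nil)) (.node 3 8 (.cons 0x9045678321 (.cons 0x8390457612 (.cons 0x9043875612 (.cons 0x9016543872 .nil)))) .done .done) (.node 3 8 (.cons 0x9045678321 (.cons 0x9016543872 .nil)) (.node 0 5 (.cons 0x6509871234 (.cons 0x7612389054 (.cons 0x9870543261 .nil))) (.node 4 8 (.cons 0x5678409321 (.cons 0x9321650487 (.cons 0x4872390561 (.cons 0x5612784390 .nil)))) .done .done) .done) .done)) (.node 0 8 (.cons 0x9804567321 (.cons 0x9804561237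 (.cons 0x9087234561 .nil))) (.node 3 8 (.cons 0x7654098321 (.cons 0x7612389045 (.cons 0x9016543872 .nil))) .done .done) .done))) (.node 0 6 (.cons 0x7890654321 .nil) (.node 7 9 (.cons 0x8973456012 .nil) (.node 5 7 (.cons 0x8906571234 .nil) (.node 4 7 .nil (.node 1 8 (.cons 0x2345618790 (.cons 0x5476098123 (.cons 0x9812374560 .nil))) (.node 0 2 (.cons 0x9781654320 (.cons 0x5602347981 (.cons 0x3206547981 .nil))) .done .done) .done) .done) (.node 5 7 (.cons 0x8906571234 .nil) (.node 4 7 .nil (.node 1 8 (.cons 0x2189734560 (.cons 0x5476098123 (.cons 0x9812374560 .nil))) (.node 0 8 (.cons 0x9721806543 (.cons 0x9087432165 (.cons 0x9806547321 .nil))) (.node 5 9 (.cons 0x6210789543 (.cons 0x1743265980 (.cons 0x6074598123 .nil))) .done .done) .done) .done) .done) .done)) (.node 6 8 (.cons 0x9012786543 .nil) (.node 3 6 (.cons 0x9870126345 .nil) (.node 4 6 (.cons 0x5643217890 .nil) (.node 6 9 (.cons 0x8721096543 .nil) .done .done) .done) (.node 6 9 (.cons 0x8721096543 .nil) (.node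 3 6 (.cons 0x9870126345 .nil) (.node 4 6 (.cons 0x5643217890 .nil) .done .done) (.node 3 6 (.cons 0x9870126345 .nil) (.node 4 6 (.cons 0x5643217890 .nil) .done .done) .done)) .done)) (.node 3 6 (.cons 0x9870126345 .nil) (.node 4 6 (.cons 0x5643217890 .nil) (.node 6 8 (.cons 0x9012786543 .nil) (.node 6 9 (.cons 0x8721096543 .nil) .done .done) .done) (.node 6 8 (.cons 0x9012786543 .nil) (.node 4 6 (.cons 0x5643217890 .nil) (.node 6 9 (.cons 0x8721096543 .nil) .done .done) .done) .done)) .done))) (.node 5 7 (.cons 0x8907543216 .nil) (.node 7 9 .nil (.node 0 8 (.cons 0x9807543261 (.cons 0x4561237980 (.cons 0x8097234561 .nil))) (.node 2 4 (.cons 0x9801657342 (.cons 0x3426579801 (.cons 0x5798016243 .nil))) .done .done) (.node 4 7 .nil (.node 5 9 (.cons 0x6210789543 .nil) (.node 3 8 (.cons 0x8345612790 (.cons 0x3895476210 (.cons 0x7438956210 (.cons 0x2659834710 .nil)))) .done (.node 3 8 (.cons 0x8345612790 (.cons 0x5476123890 (.cons 0x1623895470 .nil))) (.leaf 0x7459832610 0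 .done) .done)) .done) .done)) (.node 7 9 .nil (.node 3 8 (.cons 0x9012783456 (.cons 0x5438970162 .nil)) (.leaf 0x7901265438 0 (.node 0 8 (.cons 0x4561237980 (.cons 0x8097234561 .nil)) (.node 3 9 (.cons 0x4567398012 (.cons 0x8093457216 (.cons 0x9345627801 .nil))) .done .done) .done)) (.node 4 7 .nil (.node 3 8 (.cons 0x5438970162 (.cons 0x5476123890 (.cons 0x2165743890 .nil))) (.node 0 2 (.cons 0x9834570261 (.cons 0x9834710265 (.cons 0x2098347561 (.cons 0x9837456102 .nil)))) .done .done) .done) .done)) .done)) .done))) (.node 7 9 .nil (.node 3 6 (.cons 0x9870126345 (.cons 0x8970126345 .nil)) (.node 0 3 (.cons 0x4567890321 .nil) (.node 4 8 (.cons 0x7654890321 (.cons 0x5489762103 (.cons 0x5621798430 .nil))) (.leaf 0x9730126548 0 (.node 1 8 (.cons 0x9032765481 (.cons 0x4567981230 (.cons 0x4563218790 .nil))) (.node 0 5 (.cons 0x6509871234 (.cons 0x9762305481 (.cons 0x6321879054 (.cons 0x4503267981 .nil)))) .done .done) .done)) (.node 3 8 (.cons 0x9012783456 .nil) (.node 0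 6 (.cons 0x7890654321 (.cons 0x7983456012 .nil)) (.node 0 2 (.cons 0x9873456201 (.cons 0x8973456201 .nil)) (.node 2 5 (.cons 0x4325609871 (.cons 0x4389710652 .nil)) .done .done) .done) (.leaf 0x7901265438 0 .done)) .done)) (.node 3 8 (.cons 0x9012783456 .nil) (.node 0 6 (.cons 0x7890654321 (.cons 0x8790654321 (.cons 0x7983456012 .nil))) (.node 6 8 (.cons 0x9012786543 .nil) (.node 6 9 (.cons 0x8345697210 .nil) .done .done) .done) (.leaf 0x7901265438 0 .done)) .done)) (.node 5 7 .nil (.node 3 9 (.cons 0x7893456210 (.cons 0x8934570126 (.cons 0x4398756210 .nil))) (.node 0 3 (.cons 0x4567890321 (.cons 0x8930126754 (.cons 0x9875621034 .nil))) (.node 1 6 (.cons 0x8790345612 (.cons 0x8907543216 .nil)) (.node 0 8 (.cons 0x9780345621 (.cons 0x9087561234 (.cons 0x6123908754 (.cons 0x9345780162 .nil)))) .done .done) .done) .done) (.node 4 7 .nil (.node 0 3 (.cons 0x4567890321 (.cons 0x9874301265 .nil)) (.node 3 6 (.cons 0x9870126345 (.cons 0x5634789012 .nil)) (.node 3 5 (.cons 0x9874356210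 .nil) (.node 0 4 (.cons 0x8971265340 (.cons 0x9871043562 .nil)) .done .done) .done) (.node 6 8 (.cons 0x5430798621 (.cons 0x9865743012 (.cons 0x5689034712 .nil))) (.node 0 6 (.cons 0x7890654321 (.cons 0x5609874321 .nil)) (.node 3 6 (.cons 0x9870126345 (.cons 0x5634789012 .nil)) .done .done) .done) .done)) .done) .done)) .done)) .done)) .done))
noncomputable def tc9_1_57 : T := (.node 1 6 (.cons 0x1654327890 .nil) (.node 0 8 (.cons 0x9087123456 (.cons 0x9087165432 .nil)) (.node 6 8 (.cons 0x9012786543 .nil) (.node 3 9 (.cons 0x7893456210 (.cons 0x5439862701 (.cons 0x5439870162 .nil))) (.leaf 0x934568721 0 (.node 0 4 (.cons 0x7893401265 (.cons 0x5627893401 .nil)) (.node 1 5 (.cons 0x9340156872 (.cons 0x6890723451 (.cons 0x4093278651 .nil))) .done (.node 3 8 (.cons 0x7654098321 (.cons 0x9832167045 (.cons 0x7612389045 .nil))) .done .done)) .done)) (.node 0 3 (.cons 0x4567890321 (.cons 0x9034568721 (.cons 0x9872654301 .nil))) (.node 4 8 (.cons 0x7654890321 (.cons 0x9845672103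 (.cons 0x7612309845 .nil))) (.node 1 5 (.cons 0x9845167032 (.cons 0x6890721543 (.cons 0x9845162307 .nil))) .done .done) .done) .done)) (.node 3 9 (.cons 0x7893456210 (.cons 0x4561780932 .nil)) (.node 4 7 (.cons 0x7456123980 (.cons 0x5470893261 .nil)) (.node 5 7 (.cons 0x6123980754 (.cons 0x4570893261 .nil)) .done .done) (.node 0 4 (.cons 0x5401267893 (.cons 0x8761239045 (.cons 0x9326178045 .nil))) (.node 0 5 (.cons 0x4501267893 (.cons 0x8761239054 (.cons 0x6278934501 .nil))) .done .done) (.node 0 4 (.cons 0x7893401265 (.cons 0x5627893401 .nil)) (.node 0 3 (.cons 0x4567890321 (.cons 0x9872654301 .nil)) (.node 0 2 (.cons 0x7890234561 .nil) (.node 4 8 (.cons 0x7654890321 (.cons 0x9845672103 (.cons 0x7612309845 (.cons 0x9023487165 (.cons 0x3098456721 .nil))))) .done .done) .done) (.node 3 7 (.cons 0x9804561237 .nil) (.node 3 8 (.cons 0x7654098321 (.cons 0x9832167045 (.cons 0x7612389045 .nil))) .done .done) .done)) .done))) .done)) (.node 6 8 (.cons 0x7098612345 (.cons 0x5432709861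 .nil)) (.node 3 5 (.cons 0x8907612354 (.cons 0x9012786534 (.cons 0x7210986534 .nil))) (.node 3 7 (.cons 0x8901654372 .nil) (.node 4 9 (.cons 0x8945321670 (.cons 0x5349861072 (.cons 0x5349861270 .nil))) (.node 0 8 (.cons 0x6708945321 (.cons 0x6537210894 (.cons 0x5627349801 .nil))) .done (.node 0 3 (.cons 0x4567890321 (.cons 0x5301276894 (.cons 0x9872654301 .nil))) (.node 5 9 (.cons 0x4378956210 (.cons 0x8672103594 (.cons 0x6872103594 (.cons 0x4359861072 (.cons 0x4359861270 .nil))))) .done .done) .done)) .done) (.node 2 4 (.cons 0x7243568901 (.cons 0x8901672453 .nil)) (.node 3 8 (.cons 0x9012456783 (.cons 0x4538901672 .nil)) (.node 6 9 (.cons 0x8712345690 (.cons 0x5438961072 (.cons 0x5438961270 .nil))) .done .done) .done) .done)) (.node 0 3 (.cons 0x4567890321 (.cons 0x9034568721 (.cons 0x9872654301 .nil))) (.node 1 4 (.cons 0x3214567890 (.cons 0x5412768903 .nil)) (.node 3 9 (.cons 0x7893456210 (.cons 0x5412768930 (.cons 0x8930145672 .nil))) (.node 0 5 (.cons 0x4123987650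 (.cons 0x9341278650 (.cons 0x4398726501 .nil))) (.node 1 5 (.cons 0x9862154307 .nil) .done .done) .done) .done) (.node 3 7 (.cons 0x8901654372 .nil) (.node 0 8 (.cons 0x9087123456 (.cons 0x9801654372 .nil)) (.node 4 9 (.cons 0x7321654980 (.cons 0x6549801273 (.cons 0x5627894301 (.cons 0x3721654980 .nil)))) (.node 1 4 (.cons 0x3214567890 .nil) (.node 0 5 (.cons 0x9876503214 (.cons 0x9450861273 (.cons 0x9865034127 (.cons 0x8941672305 .nil)))) .done .done) .done) .done) .done) .done)) .done)) (.node 6 9 (.cons 0x8712345690 .nil) (.node 3 7 (.cons 0x8965437210 .nil) (.node 0 3 (.cons 0x4567890321 (.cons 0x9872654301 .nil)) (.node 0 6 (.cons 0x7890654321 .nil) (.node 3 6 (.cons 0x9870126345 .nil) .done .done) (.node 3 8 (.cons 0x7012698345 (.cons 0x9830127654 (.cons 0x5438962701 .nil))) (.node 4 8 (.cons 0x5483217690 (.cons 0x5698437210 (.cons 0x3098456721 .nil))) (.node 2 5 (.cons 0x8437256901 (.cons 0x6527348901 (.cons 0x6901725483 .nil))) .done .done) .done) .done)) (.node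 1 8 (.cons 0x5437018962 (.cons 0x2734569810 (.cons 0x5437269810 .nil))) (.node 3 6 (.cons 0x9870126345 .nil) (.node 5 8 (.cons 0x2698543701 (.cons 0x3458962701 (.cons 0x8543690721 .nil))) (.leaf 0x4370126985 0 .done) .done) .done) .done)) (.node 1 3 (.cons 0x5431078962 (.cons 0x2789654310 (.cons 0x8962701345 .nil))) (.node 0 6 (.cons 0x7890654321 .nil) (.node 3 6 (.cons 0x9870126345 .nil) (.node 0 3 (.cons 0x4567890321 (.cons 0x9872654301 .nil)) (.node 3 9 (.cons 0x7893456210 .nil) .done .done) .done) (.leaf 0x2789065431 0 .done)) .done) (.node 6 8 (.cons 0x9012786543 .nil) (.node 5 9 (.cons 0x6210789543 (.cons 0x7012689543 .nil)) (.node 3 6 (.cons 0x4590786321 (.cons 0x8632170954 .nil)) (.node 2 5 (.cons 0x8690712543 .nil) (.leaf 0x987254361 0 .done) .done) (.node 1 3 (.cons 0x5431269870 (.cons 0x7013459862 (.cons 0x6278954310 .nil))) (.node 0 2 (.cons 0x2078695431 (.cons 0x4598670231 (.cons 0x4320956871 .nil))) (.node 1 4 (.cons 0x3214567890 (.cons 0x2314598670 (.cons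 0x6871459023 .nil))) .done .done) .done) .done)) (.node 0 6 (.cons 0x7890654321 .nil) (.node 3 6 (.cons 0x9870126345 .nil) (.node 1 5 (.cons 0x3451269870 (.cons 0x8963451270 (.cons 0x6890723451 .nil))) (.node 1 9 (.cons 0x2345687190 (.cons 0x8654327190 (.cons 0x5432786091 .nil))) .done .done) .done) (.node 1 3 (.cons 0x5431269870 (.cons 0x8960721345 (.cons 0x9862701345 .nil))) (.leaf 0x2789065431 0 .done) .done)) .done)) .done))) .done))) (.node 3 7 (.cons 0x9873456210 .nil) (.node 1 6 .nil (.node 3 5 (.cons 0x8907612354 (.cons 0x4356109872 .nil)) (.node 0 4 (.cons 0x9872653401 .nil) (.leaf 0x2378904561 0 (.node 5 9 (.cons 0x1623459870 (.cons 0x8721659043 .nil)) (.node 6 8 (.cons 0x7012689534 (.cons 0x4359862701 (.cons 0x2168954370 .nil))) .done (.node 0 5 (.cons 0x9870543261 .nil) (.node 3 8 (.cons 0x7612389054 (.cons 0x7832165904 (.cons 0x9540783261 .nil))) .done .done) .done)) (.node 5 8 (.cons 0x9854076123 (.cons 0x9854073216 (.cons 0x7234098561 (.cons 0x9856127340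 .nil)))) .done .done))) (.node 4 9 (.cons 0x8721094356 (.cons 0x8761235490 (.cons 0x8721653490 .nil))) (.node 0 8 (.cons 0x1237654980 (.cons 0x7321654980 (.cons 0x9087165432 .nil))) (.node 5 7 (.cons 0x6573498012 (.cons 0x5708943261 (.cons 0x2165734980 .nil))) .done .done) (.node 0 8 (.cons 0x9435627801 (.cons 0x5617809432 (.cons 0x4908723561 (.cons 0x9087165432 .nil)))) .done .done)) .done)) (.node 5 7 (.cons 0x8907543216 .nil) (.node 2 8 (.cons 0x9826107543 .nil) (.node 7 9 (.cons 0x3457982610 .nil) (.node 4 7 .nil (.node 3 5 (.cons 0x6109827534 (.cons 0x8901274356 .nil)) (.node 0 8 (.cons 0x2165437980 (.cons 0x8097435612 (.cons 0x6128097453 (.cons 0x9082354761 .nil)))) .done .done) .done) .done) (.node 4 7 .nil (.node 3 6 (.cons 0x4570982361 (.cons 0x9012874563 (.cons 0x5634789012 (.cons 0x5470982361 .nil)))) .done (.node 7 9 .nil (.node 0 8 (.cons 0x9807543261 (.cons 0x8097165432 .nil)) (.node 3 5 (.cons 0x6128907453 (.cons 0x8097435612 (.cons 0x1265347980 .nil)))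 .done .done) .done) .done)) .done)) (.node 7 9 .nil (.node 0 8 (.cons 0x9087123456 (.cons 0x4561237980 (.cons 0x8097165432 .nil))) (.node 3 8 (.cons 0x5438970162 .nil) (.node 4 7 (.cons 0x5610983472 .nil) .done (.leaf 0x7901265438 0 .done)) .done) (.node 4 7 .nil (.node 3 8 (.cons 0x5438970162 (.cons 0x5476123890 (.cons 0x2165743890 (.cons 0x5610983472 .nil)))) .done .done) .done)) .done)) (.node 4 7 (.cons 0x5612347890 .nil) (.node 5 7 (.cons 0x4321657890 .nil) (.node 7 9 .nil (.node 0 4 (.cons 0x3409875612 (.cons 0x8790432165 .nil)) (.node 3 8 (.cons 0x7654098321 (.cons 0x5401267983 (.cons 0x1265798340 (.cons 0x5627983401 .nil)))) .done .done) .done) .done) (.node 5 7 (.cons 0x4321657890 .nil) (.node 7 9 .nil (.node 0 4 (.cons 0x2340987561 (.cons 0x8790432165 .nil)) (.leaf 0x3216578904 0 (.node 0 6 (.cons 0x7890654321 (.cons 0x8790654321 (.cons 0x8973456012 .nil))) .done .done)) .done) .done) .done)) .done))) (.node 7 9 .nil (.node 3 6 (.cons 0x9870126345 (.cons 0x8970126345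 .nil)) (.node 0 3 (.cons 0x4567890321 .nil) (.node 4 8 (.cons 0x7654890321 (.cons 0x5489762103 (.cons 0x5627984301 .nil))) (.leaf 0x9730126548 0 (.node 1 5 (.cons 0x9845126703 (.cons 0x6512798430 (.cons 0x8436512790 (.cons 0x6215489703 .nil)))) .done .done)) (.node 3 8 (.cons 0x9783456210 .nil) (.node 0 6 (.cons 0x7890654321 .nil) (.node 4 7 (.cons 0x9834721065 (.cons 0x5609834721 .nil)) .done (.node 0 4 (.cons 0x9045678321 (.cons 0x7654098321 .nil)) (.node 6 9 (.cons 0x7012698345 (.cons 0x8712340965 (.cons 0x2178345690 .nil))) .done .done) .done)) (.node 0 6 (.cons 0x7890654321 (.cons 0x7983456012 .nil)) (.node 2 9 (.cons 0x8345601792 (.cons 0x4563879210 .nil)) (.node 0 5 (.cons 0x6298734501 (.cons 0x6501279834 (.cons 0x6387921054 .nil))) (.node 2 5 (.cons 0x9254387106 (.cons 0x4389725601 (.cons 0x4529783601 .nil))) .done .done) .done) .done) (.leaf 0x7901265438 0 .done))) .done)) (.node 2 4 (.cons 0x7890124365 (.cons 0x8790124365 .nil)) (.node 3 8 (.cons 0x2456738901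 (.cons 0x3897654210 .nil)) (.leaf 0x7901265438 0 .done) (.node 5 7 (.cons 0x4365789012 .nil) (.leaf 0x1243657890 0 (.node 4 7 (.cons 0x5634789012 .nil) (.node 2 5 (.cons 0x9874365210 (.cons 0x8790125634 (.cons 0x8974365210 .nil))) (.leaf 0x1256347890 0 .done) .done) .done)) .done)) .done)) (.node 5 7 .nil (.node 1 6 (.cons 0x8907543216 (.cons 0x4321657890 .nil)) (.node 0 3 (.cons 0x4567890321 (.cons 0x8790345612 (.cons 0x9875621034 .nil))) (.node 3 9 (.cons 0x7893456210 (.cons 0x8930126754 (.cons 0x4398756210 .nil))) .done .done) .done) (.node 4 7 .nil (.node 3 6 (.cons 0x9870126345 (.cons 0x8901274365 (.cons 0x5634789012 .nil))) (.node 0 3 (.cons 0x4567890321 (.cons 0x9874301265 .nil)) (.node 0 6 (.cons 0x7890654321 (.cons 0x5609874321 .nil)) (.node 6 8 (.cons 0x5430798621 (.cons 0x9865743012 (.cons 0x5689034721 .nil))) .done .done) .done) .done) .done) .done)) .done)) .done)) .done))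
noncomputable def tc9_1_58 : T := (.node 2 7 .nil (.node 0 3 (.cons 0x4567890321 (.cons 0x9872654301 .nil)) (.node 3 6 (.cons 0x9870126345 .nil) (.node 6 8 (.cons 0x9865430172 .nil) (.node 1 6 (.cons 0x9078612345 (.cons 0x7098612345 .nil)) .done (.node 6 9 (.cons 0x8734569012 (.cons 0x8965430172 .nil)) (.node 1 5 (.cons 0x8690734512 (.cons 0x8690721543 (.cons 0x6890721543 .nil))) (.node 3 8 (.cons 0x7012698345 (.cons 0x9830127654 (.cons 0x4512738690 (.cons 0x5438962701 .nil)))) .done .done) .done) .done)) (.node 4 8 (.cons 0x9845671230 (.cons 0x9845672103 (.cons 0x3098456721 .nil))) (.node 3 5 (.cons 0x9845301267 (.cons 0x9845301276 .nil)) .done (.node 7 9 (.cons 0x5627984301 (.cons 0x8972654301 .nil)) (.node 4 7 .nil (.node 1 8 (.cons 0x7981265430 (.cons 0x9810362745 (.cons 0x5621897430 .nil))) .done .done) .done) .done)) .done)) (.node 3 6 (.cons 0x9870126345 .nil) (.node 3 9 (.cons 0x7893456210 .nil) (.node 1 3 (.cons 0x9872654310 .nil) (.node 4 8 (.cons 0x5489076321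 (.cons 0x5489367210 (.cons 0x5489012763 (.cons 0x5489076312 .nil)))) (.node 0 5 (.cons 0x4501267893 (.cons 0x9310548762 (.cons 0x9845076231 (.cons 0x7263984501 (.cons 0x6278934501 .nil))))) .done .done) .done) (.node 1 5 (.cons 0x8907632154 (.cons 0x8934510726 (.cons 0x8936270154 .nil))) (.node 1 6 (.cons 0x5439870162 .nil) (.node 6 9 (.cons 0x8734569012 (.cons 0x8721569034 .nil)) .done .done) .done) .done)) (.node 3 9 (.cons 0x7893456210 .nil) (.node 0 8 (.cons 0x4567123980 (.cons 0x4563980172 (.cons 0x7265439801 .nil))) .done (.node 4 9 (.cons 0x7894301265 (.cons 0x5627894301 .nil)) (.node 3 8 (.cons 0x8376549012 (.cons 0x3894567210 .nil)) .done (.node 5 7 (.cons 0x1265789430 .nil) (.leaf 0x8943012657 0 (.node 4 7 (.cons 0x9874301265 .nil) (.node 1 3 (.cons 0x4563109872 .nil) (.node 0 2 (.cons 0x8765490213 (.cons 0x8931026745 (.cons 0x6547890231 .nil))) .done (.node 0 8 (.cons 0x4576213980 (.cons 0x2713654980 (.cons 0x9801345627 .nil))) .done .done)) .done) .done))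 .done)) .done)) .done)) .done)) (.node 2 8 (.cons 0x9012873456 .nil) (.node 3 6 (.cons 0x9870126345 .nil) (.node 5 7 (.cons 0x8901275634 .nil) (.node 4 7 (.cons 0x8901274365 .nil) (.node 7 9 (.cons 0x8970126345 .nil) .done .done) (.node 4 7 (.cons 0x8901274365 .nil) (.node 7 9 (.cons 0x8970126345 .nil) .done .done) .done)) (.node 0 3 (.cons 0x4567890321 .nil) (.node 4 7 (.cons 0x5634789012 .nil) (.node 5 7 (.cons 0x4365789012 .nil) (.node 7 9 .nil (.node 0 6 (.cons 0x9871234560 (.cons 0x8790654321 .nil)) (.node 1 5 (.cons 0x9870623451 (.cons 0x6097823451 (.cons 0x8970623451 (.cons 0x6289745103 .nil)))) .done .done) .done) .done) (.node 5 7 (.cons 0x4365789012 .nil) (.node 7 9 (.cons 0x6289754301 .nil) .done .done) .done)) (.node 3 8 .nil (.node 2 4 (.cons 0x7890124365 (.cons 0x9012456783 (.cons 0x9830176542 .nil))) .done (.node 3 5 .nil (.node 2 4 (.cons 0x7890124365 (.cons 0x9835421076 .nil)) (.node 0 4 (.cons 0x9835672104 .nil) (.node 2 9 (.cons 0x7892654301 (.cons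 0x8923045671 (.cons 0x6540329871 .nil))) .done .done) .done) (.node 4 8 (.cons 0x6709845321 .nil) (.node 1 3 (.cons 0x9845310762 .nil) (.node 3 9 (.cons 0x7893456210 .nil) .done .done) (.leaf 0x2765348901 0 .done)) .done)) .done)) .done)) (.node 2 4 (.cons 0x5634278901 .nil) (.node 2 9 (.cons 0x5436298701 .nil) (.node 2 5 (.cons 0x4365278901 .nil) (.node 0 2 .nil (.node 3 9 (.cons 0x7893456210 (.cons 0x6398710254 .nil)) (.node 6 9 (.cons 0x4528736901 (.cons 0x3456987120 .nil)) .done .done) .done) .done) (.node 2 5 (.cons 0x4365278901 .nil) (.node 0 2 .nil (.node 3 5 (.cons 0x4536298701 .nil) (.node 1 4 (.cons 0x3214567890 (.cons 0x9820145367 (.cons 0x9876354102 .nil))) .done .done) .done) .done) .done)) (.node 2 9 (.cons 0x5436298701 .nil) (.node 2 5 (.cons 0x4365278901 .nil) (.node 0 2 .nil (.node 0 3 (.cons 0x4567890321 .nil) (.node 5 9 (.cons 0x8956342710 (.cons 0x4598201763 (.cons 0x4598203671 .nil))) (.leaf 0x8954362017 0 .done) (.leaf 0x1789245630 0 .done)) .done)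 .done) .done) .done)) .done))) (.node 3 6 (.cons 0x9012873654 .nil) (.node 5 7 (.cons 0x8901275634 .nil) (.node 4 7 (.cons 0x8901274365 .nil) (.node 7 9 (.cons 0x8210973654 .nil) .done .done) (.node 4 7 (.cons 0x8901274365 .nil) (.node 7 9 (.cons 0x8210973654 .nil) .done .done) .done)) (.node 6 9 (.cons 0x8734569012 .nil) (.node 1 6 .nil (.node 2 9 (.cons 0x8734561092 .nil) (.leaf 0x5437829016 0 (.node 3 9 (.cons 0x7893456210 (.cons 0x5439870162 .nil)) .done .done)) (.node 0 6 (.cons 0x9871234560 .nil) (.node 2 9 (.cons 0x1789234560 .nil) (.node 3 9 (.cons 0x7893456210 .nil) (.node 0 3 (.cons 0x4567890321 .nil) (.node 0 2 (.cons 0x7893456201 .nil) (.node 0 4 (.cons 0x9328716540 .nil) .done .done) .done) .done) .done) .done) .done)) (.leaf 0x5690128734 0 (.node 6 8 .nil (.node 1 6 (.cons 0x9078612345 (.cons 0x7098612345 .nil)) .done (.node 7 9 .nil (.node 0 6 (.cons 0x9871234560 (.cons 0x8790654321 (.cons 0x8971234560 .nil))) .done (.node 4 7 (.cons 0x5634789012 .nil)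 (.node 5 7 (.cons 0x4365789012 .nil) .done .done) .done)) .done)) .done))) (.node 2 9 (.cons 0x5436298701 .nil) (.node 2 5 (.cons 0x4365278901 .nil) (.node 0 2 .nil (.node 3 9 (.cons 0x7893456210 .nil) (.leaf 0x8934562017 0 (.node 6 9 (.cons 0x8734569012 (.cons 0x3456987120 .nil)) .done .done)) .done) .done) (.node 2 4 (.cons 0x5634278901 .nil) (.node 2 5 (.cons 0x6345298710 .nil) (.node 0 2 .nil (.node 3 5 (.cons 0x8763542901 (.cons 0x4536789201 .nil)) .done .done) .done) (.node 2 5 (.cons 0x6345298710 .nil) (.node 0 2 .nil (.node 3 5 (.cons 0x8924536710 (.cons 0x4536789201 (.cons 0x8920176354 .nil))) .done .done) .done) .done)) .done)) .done))) .done)) .done)) (.node 2 7 .nil (.node 0 3 (.cons 0x4567890321 (.cons 0x9872654301 .nil)) (.node 3 6 (.cons 0x9870126345 .nil) (.node 3 9 (.cons 0x7893456210 .nil) (.node 4 8 (.cons 0x5489076321 (.cons 0x5489367210 (.cons 0x5489012763 .nil))) (.node 0 5 (.cons 0x4501267893 (.cons 0x9843726501 (.cons 0x7263984501 (.cons 0x6278934501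 .nil)))) .done (.leaf 0x2736548901 0 .done)) (.node 1 5 (.cons 0x8907632154 (.cons 0x8934510726 (.cons 0x8936270154 .nil))) (.node 6 8 (.cons 0x9345107862 (.cons 0x4390156872 (.cons 0x5436890721 .nil))) (.node 0 6 (.cons 0x9871234560 .nil) (.node 1 4 (.cons 0x3214567890 (.cons 0x5689014372 (.cons 0x9068723415 .nil))) .done .done) .done) .done) .done)) (.node 6 8 (.cons 0x9034568721 .nil) (.node 0 6 (.cons 0x9860712345 .nil) (.node 1 6 (.cons 0x9078612345 (.cons 0x7098612345 .nil)) .done .done) (.node 0 6 (.cons 0x9871234560 .nil) (.node 0 8 (.cons 0x9806543217 (.cons 0x9806543271 .nil)) (.node 2 8 (.cons 0x9827106345 .nil) .done .done) .done) .done)) .done)) (.node 7 9 (.cons 0x8972654301 .nil) (.node 4 8 (.cons 0x9845671230 (.cons 0x9845672103 (.cons 0x3098456721 .nil))) (.node 6 9 (.cons 0x5489671230 (.cons 0x8965430172 .nil)) (.node 3 8 (.cons 0x7012698345 (.cons 0x9830127654 (.cons 0x5438962701 .nil))) .done (.node 3 5 (.cons 0x1267984530 (.cons 0x4356987210 (.cons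 0x8721096534 .nil))) (.leaf 0x7698453012 0 .done) .done)) (.node 0 4 (.cons 0x9873401265 .nil) (.node 3 8 (.cons 0x9045678321 (.cons 0x9830127654 .nil)) (.node 4 7 (.cons 0x9830126745 .nil) .done .done) .done) .done)) .done) .done)) (.node 2 5 (.cons 0x6521098734 .nil) (.node 2 4 .nil (.node 3 8 (.cons 0x9012783456 (.cons 0x4256738901 .nil)) (.node 3 6 (.cons 0x9836701254 (.cons 0x9836701245 .nil)) (.node 0 3 (.cons 0x4567890321 (.cons 0x9830124567 .nil)) (.node 1 9 (.cons 0x7891034562 (.cons 0x8917654230 (.cons 0x5426789103 (.cons 0x7891034265 (.cons 0x9103872456 .nil))))) .done .done) (.node 0 2 (.cons 0x9871024365 (.cons 0x9871024563 .nil)) .done .done)) (.node 3 9 (.cons 0x7893456210 .nil) (.node 4 8 (.cons 0x5673984210 (.cons 0x3765248901 .nil)) (.node 0 3 (.cons 0x2176548930 (.cons 0x8930176542 .nil)) (.node 1 3 (.cons 0x5489312670 .nil) .done .done) .done) (.leaf 0x4567839012 0 .done)) .done)) (.node 1 4 (.cons 0x3214567890 .nil) (.node 1 5 .nil (.node 4 6 (.cons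 0x5643789012 (.cons 0x8907645123 (.cons 0x8901524673 (.cons 0x2156437890 .nil)))) .done (.node 0 4 (.cons 0x6512378904 .nil) (.node 4 6 (.cons 0x4651237890 .nil) (.leaf 0x3789046512 0 (.node 4 7 (.cons 0x8904732156 .nil) (.node 4 9 .nil (.node 0 3 (.cons 0x4567890321 (.cons 0x8765490321 (.cons 0x6230789451 .nil))) .done .done) .done) .done)) (.node 2 9 (.cons 0x5629873401 .nil) (.leaf 0x6298734015 0 (.node 4 7 .nil (.node 3 8 (.cons 0x6529837104 (.cons 0x6529837401 (.cons 0x6745210983 (.cons 0x8374109256 .nil)))) .done (.node 4 6 (.cons 0x4651237890 .nil) (.node 4 9 (.cons 0x1562378940 .nil) .done .done) .done)) .done)) .done)) .done)) (.node 0 4 (.cons 0x9873401265 .nil) (.node 4 6 (.cons 0x5643789012 .nil) (.node 4 9 .nil (.node 0 3 (.cons 0x4567890321 (.cons 0x8945671230 .nil)) (.node 0 8 (.cons 0x9801734652 (.cons 0x4980325671 (.cons 0x1732564980 .nil))) .done .done) (.node 4 7 .nil (.node 0 6 (.cons 0x8943712560 (.cons 0x5609874321 .nil)) (.node 1 8 (.cons 0x3254670981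 (.cons 0x5476098123 (.cons 0x7432189065 (.cons 0x7456098123 .nil)))) .done .done) .done) .done)) (.node 4 9 .nil (.node 6 8 (.cons 0x9012786543 (.cons 0x5687210943 (.cons 0x2568943710 .nil))) .done (.node 4 7 .nil (.node 1 6 (.cons 0x8907346125 (.cons 0x5612347890 .nil)) (.node 1 5 (.cons 0x2156437890 .nil) (.node 0 6 (.cons 0x9871234560 (.cons 0x8906512374 (.cons 0x5609874321 (.cons 0x8906514732 .nil)))) .done .done) .done) .done) .done)) .done)) (.node 4 9 .nil (.node 0 3 (.cons 0x4567890321 (.cons 0x8765490321 (.cons 0x8945671230 .nil))) .done (.node 4 7 .nil (.node 4 6 (.cons 0x5643789012 .nil) (.node 0 6 (.cons 0x8943712560 (.cons 0x5609874321 .nil)) (.node 1 8 (.cons 0x8127349065 (.cons 0x5476098123 (.cons 0x3256740981 (.cons 0x6523740981 .nil)))) .done .done) .done) .done) .done)) .done)) .done)) .done)) (.node 3 6 (.cons 0x9870126345 .nil) (.node 0 3 (.cons 0x4567890321 .nil) (.node 0 2 .nil (.node 3 9 (.cons 0x7893456210 (.cons 0x7893456201 .nil)) (.leaf 0x8934562017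 0 .done) (.node 0 6 (.cons 0x9871234560 .nil) (.node 0 4 (.cons 0x9873401265 .nil) (.node 0 5 .nil (.node 1 4 (.cons 0x3214567890 (.cons 0x8905673214 (.cons 0x6789054123 .nil))) .done .done) .done) .done) .done)) (.node 3 9 (.cons 0x7893456210 .nil) (.node 1 3 .nil (.node 5 9 (.cons 0x4378956210 (.cons 0x6213459870 .nil)) (.node 0 2 (.cons 0x4378956201 (.cons 0x7895620134 .nil)) (.leaf 0x1345678902 0 .done) .done) (.node 3 8 (.cons 0x8390127654 .nil) (.node 3 5 .nil (.node 2 4 (.cons 0x8930176542 (.cons 0x9835421076 (.cons 0x9876245301 .nil))) .done .done) .done) .done)) (.node 3 8 (.cons 0x9012783456 .nil) (.node 3 5 (.cons 0x4539876210 .nil) (.node 0 5 (.cons 0x4501267893 .nil) (.node 1 5 (.cons 0x4510398762 .nil) .done .done) .done) .done) .done)) .done)) (.node 3 9 (.cons 0x7893456210 .nil) (.node 1 3 .nil (.node 4 7 (.cons 0x8901256374 (.cons 0x6254789310 (.cons 0x8907452136 .nil))) .done (.node 0 3 (.cons 0x4567890321 .nil) (.node 3 5 (.cons 0x4539876210 .nil) (.node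 3 8 (.cons 0x9012783456 .nil) .done .done) .done) .done)) (.node 7 9 (.cons 0x8970126345 .nil) (.node 0 3 (.cons 0x4567890321 .nil) (.node 6 9 (.cons 0x8721096543 .nil) (.node 0 6 (.cons 0x9871234560 .nil) (.node 0 4 (.cons 0x5698712340 .nil) (.node 0 5 (.cons 0x4321789650 .nil) .done .done) .done) .done) .done) .done) .done)) (.node 3 9 (.cons 0x7893456210 .nil) (.node 0 3 (.cons 0x4567890321 .nil) (.node 1 3 (.cons 0x9870136254 .nil) (.node 3 8 (.cons 0x8390127654 .nil) (.node 3 5 .nil (.node 2 4 (.cons 0x4256378901 (.cons 0x9835421076 (.cons 0x2453678901 .nil))) .done .done) .done) .done) .done) (.node 3 8 (.cons 0x9012783456 .nil) (.node 0 3 (.cons 0x4567890321 .nil) (.node 1 3 (.cons 0x9870136254 .nil) (.node 3 5 (.cons 0x4539876210 .nil) .done .done) (.node 1 3 (.cons 0x9870136254 .nil) (.node 3 5 (.cons 0x4539876210 .nil) .done .done) .done)) .done) .done)) .done))) .done)) .done)) (.node 3 9 (.cons 0x7893456210 .nil) (.node 0 3 (.cons 0x4567890321 .nil) (.node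 3 6 (.cons 0x9870126345 .nil) (.node 0 6 (.cons 0x9871234560 .nil) (.node 0 4 (.cons 0x8932176540 .nil) (.node 0 5 .nil (.node 2 9 (.cons 0x5634017892 (.cons 0x6298734501 (.cons 0x4378926501 (.cons 0x4056329871 .nil)))) .done (.node 0 2 (.cons 0x9873456201 .nil) (.node 0 8 (.cons 0x4567123980 .nil) .done .done) .done)) .done) (.node 0 4 (.cons 0x8932176540 .nil) (.node 6 8 (.cons 0x7012689345 .nil) (.node 6 9 .nil (.node 2 5 (.cons 0x6893452170 (.cons 0x8693452170 (.cons 0x8962543701 (.cons 0x8693071254 .nil)))) .done .done) .done) .done) .done)) .done) (.node 3 6 (.cons 0x9870126345 .nil) (.node 0 6 (.cons 0x9871234560 .nil) (.node 7 9 (.cons 0x8971234560 .nil) (.node 2 7 .nil (.node 0 8 (.cons 0x4567123980 (.cons 0x4562739801 (.cons 0x7265439801 .nil))) .done (.node 4 7 (.cons 0x9874301265 .nil) (.node 5 7 (.cons 0x9875621034 .nil) .done .done) .done)) (.node 4 7 (.cons 0x9874301265 .nil) (.node 5 7 (.cons 0x9875621034 .nil) .done .done) .done)) (.node 0 8 (.cons 0x4567123980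 .nil) (.node 1 3 .nil (.node 4 7 (.cons 0x6547123980 (.cons 0x7456213980 .nil)) (.node 5 7 (.cons 0x9875621034 (.cons 0x6213980754 .nil)) .done .done) (.node 1 8 .nil (.node 0 4 (.cons 0x8932176540 (.cons 0x9045678123 (.cons 0x2376540981 .nil))) .done (.node 1 9 (.cons 0x2654378910 .nil) (.node 6 8 (.cons 0x7012689345 .nil) (.node 4 6 (.cons 0x8709123645 .nil) (.node 0 4 (.cons 0x1987326540 .nil) (.node 1 4 (.cons 0x3214567890 .nil) .done .done) .done) .done) .done) .done)) .done)) .done) .done)) .done) .done)) (.node 0 3 (.cons 0x4567890321 .nil) (.node 0 4 (.cons 0x5401267893 .nil) (.node 3 8 (.cons 0x9832176540 .nil) (.node 3 5 (.cons 0x4539876210 .nil) (.node 3 6 (.cons 0x9870126345 .nil) (.node 1 3 .nil (.node 4 9 (.cons 0x8765490321 (.cons 0x8945310762 (.cons 0x8945312670 .nil))) .done .done) .done) .done) (.node 3 6 (.cons 0x9870126345 .nil) (.node 1 3 .nil (.node 0 2 (.cons 0x9873456201 (.cons 0x9873102654 .nil)) (.node 4 9 (.cons 0x5671238940 (.cons 0x7894310265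 (.cons 0x8765490312 .nil))) .done .done) .done) .done) .done)) (.node 1 3 (.cons 0x5401398762 .nil) (.node 3 6 (.cons 0x9870126345 .nil) (.node 0 6 (.cons 0x9871234560 .nil) (.node 0 5 (.cons 0x4501267893 .nil) (.node 0 2 (.cons 0x9873456201 .nil) (.node 0 8 (.cons 0x9804567132 .nil) .done .done) .done) .done) .done) (.node 3 6 (.cons 0x9870126345 .nil) (.node 0 6 (.cons 0x9871234560 .nil) (.node 3 5 (.cons 0x4539876210 .nil) (.node 3 8 .nil (.node 2 4 (.cons 0x6789354210 (.cons 0x9012456783 (.cons 0x2456738901 (.cons 0x7638901245 .nil)))) .done .done) .done) .done) .done) .done)) .done)) (.node 0 4 (.cons 0x5401267893 .nil) (.node 4 7 (.cons 0x8930126745 .nil) (.node 5 7 (.cons 0x8930126754 .nil) (.node 3 5 (.cons 0x4539876210 .nil) (.node 3 8 (.cons 0x9045678321 .nil) (.node 7 9 (.cons 0x9783401265 .nil) (.node 2 7 .nil (.node 0 6 (.cons 0x9871234560 (.cons 0x9872106534 (.cons 0x5439872601 .nil))) .done .done) .done) .done) .done) .done) .done) (.node 0 5 (.cons 0x4501267893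 .nil) (.node 0 6 (.cons 0x9871234560 .nil) (.node 0 2 (.cons 0x9873456201 .nil) (.node 0 8 (.cons 0x9803217654 .nil) .done .done) .done) (.node 0 8 (.cons 0x9803217654 .nil) (.node 0 2 (.cons 0x9873456201 .nil) (.node 0 6 (.cons 0x9871234560 .nil) .done .done) .done) .done)) .done)) (.node 3 6 (.cons 0x9870126345 .nil) (.node 0 6 (.cons 0x9871234560 .nil) (.node 3 8 .nil (.node 2 4 (.cons 0x8763901245 (.cons 0x9012456783 (.cons 0x2456738901 .nil))) (.node 0 5 (.cons 0x4501267893 (.cons 0x9387621054 (.cons 0x9832450671 .nil))) (.node 1 9 (.cons 0x2654378910 (.cons 0x5426738910 (.cons 0x7389106245 .nil))) (.leaf 0x2450198736 0 .done) .done) .done) (.node 3 5 (.cons 0x4539876210 .nil) (.node 1 3 .nil (.node 0 2 (.cons 0x9873456201 (.cons 0x9873102654 .nil)) (.node 0 4 (.cons 0x5401267893 (.cons 0x5401398762 .nil)) .done .done) .done) .done) .done)) (.node 0 8 .nil (.node 1 4 (.cons 0x3214567890 (.cons 0x9087654123 (.cons 0x5417608932 (.cons 0x9087632145 .nil)))) .done (.node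 3 8 .nil (.node 0 4 (.cons 0x5401267893 (.cons 0x9045678321 (.cons 0x9832176540 .nil))) .done (.node 3 5 (.cons 0x4539876210 .nil) (.node 1 3 .nil (.node 4 9 (.cons 0x9456321780 (.cons 0x7310894562 (.cons 0x8945310762 (.cons 0x8945312670 .nil)))) .done .done) .done) .done)) .done)) .done)) (.node 5 7 (.cons 0x9875621034 .nil) (.node 4 7 (.cons 0x9874301265 .nil) (.node 7 9 (.cons 0x8970126345 .nil) (.node 2 7 .nil (.node 1 5 (.cons 0x8907632154 (.cons 0x8903472156 (.cons 0x8903651274 .nil))) .done .done) .done) .done) (.node 4 7 (.cons 0x9874301265 .nil) (.node 7 9 (.cons 0x8970126345 .nil) (.node 2 7 .nil (.node 5 8 (.cons 0x4589076321 (.cons 0x4589367210 (.cons 0x8547210936 (.cons 0x9854362701 .nil)))) .done .done) .done) .done) .done)) .done)) .done))) (.node 0 3 (.cons 0x4567890321 .nil) (.node 3 6 (.cons 0x9870126345 .nil) (.node 7 9 (.cons 0x8970126345 .nil) (.node 5 7 (.cons 0x4398756210 .nil) (.node 4 7 .nil (.node 2 7 (.cons 0x8901274365 .nil) .done .done) .done)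 .done) .done) (.node 3 6 (.cons 0x9870126345 .nil) (.node 0 4 (.cons 0x7893401265 .nil) (.node 7 9 (.cons 0x8793401265 .nil) (.node 4 7 .nil (.node 1 8 (.cons 0x7981265430 (.cons 0x5621897430 (.cons 0x9810374562 .nil))) (.leaf 0x2390456781 0 .done) .done) .done) (.node 0 6 (.cons 0x9871234560 .nil) (.node 0 8 (.cons 0x9803217654 .nil) (.node 0 2 (.cons 0x9873456201 .nil) (.node 0 5 .nil (.node 1 4 (.cons 0x3214567890 (.cons 0x8765093214 (.cons 0x6789054123 .nil))) (.node 1 6 (.cons 0x9807326145 .nil) .done .done) .done) .done) .done) .done) .done)) .done) .done)) .done))) .done)))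
noncomputable def uc9_1_11 : T := (.node 3 7 (.cons 0x9873456210 .nil) tc9_1_58 (.node 2 7 .nil tc9_1_57 (.node 2 7 .nil tc9_1_56 .done)))
theorem sub_c9_1_11 : root 9 refs9_1 [] 0x700000008706000000006030000050030500800000504000000004030000000030100000800102000000002018050000010 0xfe7fff3fff97fed7ffcfffe7fff5fef9fff9fedd 9 1 7 (.cons 0x6543217890 .nil) uc9_1_11 = true := by decide +kernel
noncomputable def tc9_1_59 : T := (.node 3 9 (.cons 0x7893456210 .nil) (.node 0 4 (.cons 0x5401267893 .nil) (.node 3 6 (.cons 0x5409876321 .nil) (.node 3 5 (.cons 0x4539876210 .nil) (.node 5 7 (.cons 0x8930126754 .nil) (.node 3 8 (.cons 0x9830457621 .nil) (.node 1 3 .nil (.node 0 2 (.cons 0x9873456201 (.cons 0x6578902134 (.cons 0x9873102654 .nil))) .done .done) .done) .done) .done) (.node 0 6 (.cons 0x7890654321 .nil) (.node 6 8 (.cons 0x9078654321 .nil) (.node 0 5 (.cons 0x9345078621 .nil) (.node 6 9 (.cons 0x8709654321 .nil) (.node 1 6 (.cons 0x5439078612 .nil) (.node 3 5 (.cons 0x4539876210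 .nil) (.leaf 0x2167890453 0 (.node 4 6 (.cons 0x8764539012 .nil) .done .done)) .done) .done) .done) .done) .done) .done)) (.node 0 6 (.cons 0x7890654321 .nil) (.node 0 5 (.cons 0x4501267893 .nil) (.node 3 6 (.cons 0x7893621054 .nil) (.node 3 5 (.cons 0x4539876210 .nil) (.node 5 7 (.cons 0x8930126754 .nil) (.node 1 3 (.cons 0x5401398762 .nil) (.node 1 5 (.cons 0x4398751260 .nil) (.leaf 0x3987512604 0 (.node 1 6 (.cons 0x4057893162 .nil) .done .done)) .done) .done) .done) .done) .done) .done) .done)) (.node 0 4 (.cons 0x7893401265 .nil) (.node 3 6 (.cons 0x5409876321 .nil) (.node 3 5 (.cons 0x6789045321 .nil) (.node 5 7 (.cons 0x4398756210 .nil) (.node 3 8 (.cons 0x9830457621 .nil) (.node 1 3 .nil (.node 0 2 (.cons 0x9873456201 (.cons 0x6578902134 (.cons 0x9873102654 .nil))) .done .done) .done) .done) .done) .done) (.node 0 6 (.cons 0x7890654321 .nil) (.node 0 2 (.cons 0x9873456201 .nil) (.node 2 7 (.cons 0x5627893401 .nil) (.node 2 8 .nil (.node 1 4 (.cons 0x3214567890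 (.cons 0x5678239041 (.cons 0x1456732890 (.cons 0x9826730145 .nil)))) (.node 1 5 (.cons 0x2398765140 (.cons 0x9328765140 (.cons 0x6510982734 (.cons 0x9328704156 .nil)))) .done .done) (.node 0 8 .nil (.node 1 4 (.cons 0x3214567890 (.cons 0x9803214567 (.cons 0x9087654123 (.cons 0x9801437265 .nil)))) (.node 1 7 (.cons 0x6543217890 (.cons 0x9803217654 .nil)) .done .done) .done) .done)) .done) (.node 0 5 .nil (.node 1 4 (.cons 0x3214567890 (.cons 0x4123987650 (.cons 0x8765093214 (.cons 0x6789054123 .nil)))) (.node 2 8 (.cons 0x1456732890 (.cons 0x6732890541 (.cons 0x9826501437 .nil))) .done .done) .done) .done)) .done) .done)) .done)) (.node 3 9 (.cons 0x7893456210 .nil) (.node 5 7 (.cons 0x8930126754 .nil) (.node 3 5 (.cons 0x9876210354 .nil) (.node 3 6 .nil (.node 2 9 (.cons 0x6345789210 (.cons 0x4365789210 (.cons 0x6301298754 .nil))) (.node 1 5 (.cons 0x6789032154 (.cons 0x8926730154 (.cons 0x6298730154 .nil))) .done .done) (.node 3 8 .nil (.node 2 4 (.cons 0x9875634210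 (.cons 0x9012456783 (.cons 0x2456738901 (.cons 0x9012453876 .nil)))) .done (.node 1 3 .nil (.node 6 8 (.cons 0x9078654321 (.cons 0x9078654312 .nil)) (.node 6 9 (.cons 0x8709654321 (.cons 0x8709654312 .nil)) .done .done) .done) .done)) .done)) .done) (.node 5 9 (.cons 0x4598762103 .nil) (.node 1 9 (.cons 0x2654378910 .nil) (.node 2 9 .nil (.node 1 4 (.cons 0x3214567890 (.cons 0x8730145926 (.cons 0x8926730145 .nil))) (.node 0 6 (.cons 0x3457891260 (.cons 0x8921457603 (.cons 0x3412987560 .nil))) (.leaf 0x4598760321 0 .done) .done) (.node 7 9 .nil (.node 0 2 (.cons 0x9873456201 (.cons 0x8973456201 .nil)) (.node 5 8 (.cons 0x7621039854 .nil) (.node 0 4 (.cons 0x5629873401 (.cons 0x6798540321 .nil)) (.node 1 5 (.cons 0x4378926510 (.cons 0x8792651043 (.cons 0x8976230451 .nil))) .done .done) (.node 2 8 (.cons 0x4582670193 (.cons 0x6285439701 .nil)) .done .done)) .done) .done) .done)) (.node 0 4 (.cons 0x8930457621 .nil) (.node 0 5 (.cons 0x4378910562 .nil) (.node 5 8 (.cons 0x7340198562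 .nil) (.node 7 9 (.cons 0x6798540321 .nil) (.node 1 7 (.cons 0x6543217890 .nil) (.node 4 7 (.cons 0x3219856740 .nil) .done .done) .done) .done) .done) (.node 0 5 (.cons 0x4378910562 .nil) (.node 0 6 (.cons 0x7890654321 .nil) (.node 0 2 (.cons 0x9873456201 .nil) (.node 0 8 (.cons 0x8075621934 .nil) .done .done) .done) .done) .done)) .done)) (.node 6 9 (.cons 0x1269875430 .nil) (.node 3 6 .nil (.node 1 9 (.cons 0x2654378910 (.cons 0x8701954362 (.cons 0x4578912630 .nil))) .done (.node 3 5 (.cons 0x9876210354 .nil) (.node 1 6 (.cons 0x7895430162 .nil) (.node 5 8 (.cons 0x7612309854 .nil) (.node 2 8 (.cons 0x7345610982 .nil) (.leaf 0x1289034576 0 (.node 3 8 (.cons 0x9075612834 .nil) .done .done)) .done) .done) .done) .done)) (.node 4 9 (.cons 0x5498762103 .nil) (.node 4 7 (.cons 0x8930126745 .nil) (.node 1 4 (.cons 0x1459876230 .nil) (.node 7 9 .nil (.node 0 8 (.cons 0x9087654123 (.cons 0x1432659780 (.cons 0x6230879541 .nil))) (.leaf 0x6597801432 0 .done) (.node 1 7 (.cons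 0x6543217890 .nil) (.node 2 7 (.cons 0x6278954301 .nil) .done .done) .done)) (.node 0 4 (.cons 0x8930457621 .nil) (.node 4 6 (.cons 0x5467890321 .nil) (.node 1 6 (.cons 0x7895430162 .nil) (.node 2 4 (.cons 0x3421657890 .nil) .done .done) .done) .done) .done)) .done) .done) .done)) .done)) .done)) (.node 0 4 (.cons 0x7893401265 .nil) (.node 3 8 (.cons 0x7654098321 .nil) (.node 7 9 (.cons 0x1238976540 .nil) (.node 1 9 (.cons 0x2654378910 .nil) (.node 2 9 (.cons 0x2983765401 .nil) (.node 1 3 (.cons 0x4562987310 .nil) (.node 3 5 (.cons 0x6798354012 .nil) (.node 3 6 (.cons 0x9210783654 .nil) .done .done) .done) .done) (.node 2 7 (.cons 0x6540198372 .nil) (.node 1 7 (.cons 0x8917326540 .nil) (.node 5 7 (.cons 0x4398756210 .nil) (.node 4 7 .nil (.node 0 5 (.cons 0x8932176504 (.cons 0x8932174056 (.cons 0x6504723891 .nil))) .done .done) .done) .done) .done) .done)) (.node 5 7 (.cons 0x4398756210 .nil) (.node 4 7 .nil (.node 0 6 (.cons 0x7890654321 (.cons 0x5609874321 .nil)) (.node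 6 9 (.cons 0x8967540321 (.cons 0x5476983012 .nil)) .done .done) (.node 1 7 (.cons 0x9832176540 .nil) (.node 2 7 (.cons 0x8934012756 .nil) .done .done) .done)) .done) .done)) .done) (.node 0 6 (.cons 0x7890654321 .nil) (.node 4 6 (.cons 0x5467890321 .nil) (.node 3 6 .nil (.node 0 5 (.cons 0x4509876321 .nil) (.node 1 6 (.cons 0x7890561234 .nil) .done (.node 4 7 (.cons 0x8746509321 (.cons 0x4789365012 (.cons 0x9874501263 (.cons 0x9874503621 .nil)))) .done .done)) .done) (.node 6 9 (.cons 0x8709654321 .nil) (.node 6 8 (.cons 0x9078654321 .nil) (.node 0 5 .nil (.node 1 7 (.cons 0x6543217890 (.cons 0x2178934650 (.cons 0x1789623450 (.cons 0x3465098712 .nil)))) .done (.node 0 8 .nil (.node 2 5 (.cons 0x7896254301 (.cons 0x7809346521 .nil)) (.node 1 4 (.cons 0x3214567890 (.cons 0x7652398041 (.cons 0x9087654123 (.cons 0x7398052641 .nil)))) (.node 1 5 (.cons 0x9876230451 (.cons 0x7651408932 (.cons 0x7809346512 .nil))) .done .done) .done) .done) .done)) .done) .done) .done)) (.node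 0 2 (.cons 0x9873456201 .nil) (.node 3 8 .nil (.node 4 9 (.cons 0x5498762103 (.cons 0x7621038945 (.cons 0x5498376201 .nil))) (.node 0 5 (.cons 0x3054987621 (.cons 0x4938705621 .nil)) .done .done) (.node 2 9 (.cons 0x4567389201 .nil) (.node 7 9 (.cons 0x8973456201 .nil) (.node 4 9 (.cons 0x5498762103 .nil) (.node 0 5 (.cons 0x6298734501 .nil) (.node 0 8 (.cons 0x9456708321 .nil) .done .done) .done) .done) (.node 2 4 (.cons 0x9837654201 .nil) (.node 2 5 (.cons 0x9387652401 .nil) .done (.node 4 8 (.cons 0x9348701265 .nil) (.node 4 9 (.cons 0x5498762103 .nil) (.node 0 5 (.cons 0x9348705621 .nil) (.node 0 8 (.cons 0x9456708321 .nil) .done .done) .done) .done) .done)) .done)) .done)) (.node 0 8 .nil (.node 2 9 (.cons 0x7345629801 .nil) (.node 3 8 (.cons 0x9210783456 .nil) .done (.node 1 6 (.cons 0x5437892610 (.cons 0x9261087345 .nil)) (.node 1 3 (.cons 0x9873102654 (.cons 0x7613298045 .nil)) (.node 1 9 (.cons 0x2654378910 (.cons 0x9132654087 .nil)) .done .done) .done) .done))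 .done) .done)) .done)) .done)) .done)) (.node 3 9 (.cons 0x7893456210 .nil) (.node 5 7 (.cons 0x9875621034 .nil) (.node 4 7 (.cons 0x9874301265 .nil) (.node 1 7 (.cons 0x6543217890 .nil) (.node 2 7 .nil (.node 6 8 (.cons 0x9078654321 (.cons 0x4398657210 (.cons 0x8654390721 .nil))) (.node 0 4 (.cons 0x5689043271 (.cons 0x8934017265 .nil)) (.node 0 8 (.cons 0x6754089321 (.cons 0x4562739801 .nil)) .done .done) .done) .done) .done) (.node 3 6 .nil (.node 2 9 (.cons 0x6578921034 (.cons 0x6345789210 (.cons 0x4365789210 .nil))) (.node 1 4 (.cons 0x3789265410 (.cons 0x2987365410 (.cons 0x8736541092 (.cons 0x8921475630 (.cons 0x5412367890 .nil))))) .done .done) (.node 3 5 .nil (.node 4 9 (.cons 0x6578943012 (.cons 0x3549876210 .nil)) (.node 1 7 (.cons 0x6543217890 (.cons 0x2653498710 .nil)) (.node 1 9 (.cons 0x2654378910 (.cons 0x8701943562 (.cons 0x4789126530 .nil))) .done .done) .done) .done) .done)) .done)) (.node 4 7 (.cons 0x9874301265 .nil) (.node 3 6 .nil (.node 5 9 (.cons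 0x6598743012 (.cons 0x4789563012 .nil)) (.node 1 7 (.cons 0x6543217890 (.cons 0x2634598710 .nil)) (.node 1 9 (.cons 0x2654378910 (.cons 0x8701954362 (.cons 0x8709123654 .nil))) .done .done) .done) (.node 1 6 (.cons 0x4309875612 .nil) (.node 0 6 (.cons 0x7890654321 .nil) (.node 4 6 .nil (.node 1 9 (.cons 0x2654378910 (.cons 0x5789126430 (.cons 0x8709123465 (.cons 0x5647891230 .nil)))) .done (.node 6 8 (.cons 0x9078654321 .nil) (.node 6 9 (.cons 0x8709654321 .nil) .done .done) .done)) .done) (.node 1 7 (.cons 0x6543217890 .nil) (.node 1 9 (.cons 0x2654378910 .nil) (.node 1 8 (.cons 0x8123907654 .nil) (.node 1 3 .nil (.node 6 8 (.cons 0x9078654321 (.cons 0x4568709132 (.cons 0x9078654312 .nil))) .done .done) .done) .done) .done) .done)) .done)) (.node 2 7 .nil (.node 0 8 (.cons 0x5476210893 (.cons 0x4562739801 (.cons 0x7265439801 .nil))) (.node 1 6 (.cons 0x4309875612 (.cons 0x8093457216 (.cons 0x8901654372 .nil))) (.node 1 7 (.cons 0x6217543980 .nil) (.node 1 8 (.cons 0x8123907654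 (.cons 0x4562739810 .nil)) .done .done) .done) .done) (.node 1 7 (.cons 0x6543217890 .nil) (.node 7 9 .nil (.node 1 4 (.cons 0x9875621430 (.cons 0x8975621430 .nil)) (.node 0 6 (.cons 0x9871234560 (.cons 0x8971234560 .nil)) (.node 5 8 (.cons 0x3985476210 (.cons 0x8560143972 (.cons 0x6587903214 (.cons 0x8562793410 .nil)))) .done .done) .done) .done) .done) .done)) .done)) .done)) (.node 0 6 (.cons 0x7890654321 .nil) (.node 0 4 (.cons 0x5401267893 .nil) (.node 3 6 (.cons 0x5409876321 .nil) (.node 0 2 (.cons 0x9873456201 .nil) (.node 1 6 (.cons 0x5409876123 .nil) (.node 0 5 (.cons 0x4501267893 .nil) (.node 0 8 .nil (.node 1 4 (.cons 0x3214567890 (.cons 0x7608932145 (.cons 0x9326780541 (.cons 0x7623980541 .nil)))) .done .done) .done) .done) .done) .done) (.node 0 5 (.cons 0x4501267893 .nil) (.node 3 6 (.cons 0x7893621054 .nil) (.node 0 2 (.cons 0x9873456201 .nil) (.node 0 8 .nil (.node 1 4 (.cons 0x3214567890 (.cons 0x7608932145 (.cons 0x9087654123 (.cons 0x5410893762 (.cons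 0x9087632145 .nil))))) .done .done) .done) .done) .done) .done)) (.node 0 4 (.cons 0x5401267893 .nil) (.node 0 5 (.cons 0x4501267893 .nil) (.node 3 8 (.cons 0x7654098321 .nil) (.node 0 2 (.cons 0x9873456201 .nil) (.node 0 8 .nil (.node 5 7 (.cons 0x9875621034 (.cons 0x6754089321 (.cons 0x3980457621 .nil))) .done .done) .done) .done) .done) (.node 3 8 .nil (.node 2 4 (.cons 0x9012456783 (.cons 0x2456738901 .nil)) (.node 1 5 (.cons 0x7893451062 (.cons 0x1542398760 (.cons 0x8760932451 (.cons 0x8937624510 (.cons 0x9873015624 .nil))))) .done .done) (.node 0 8 .nil (.node 3 5 (.cons 0x4539876210 (.cons 0x7621089354 .nil)) (.node 1 4 (.cons 0x3214567890 (.cons 0x9087654123 (.cons 0x5410893762 .nil))) (.node 6 9 (.cons 0x8709654321 (.cons 0x8076932145 (.cons 0x9678041235 (.cons 0x2145396780 .nil)))) .done .done) .done) (.node 0 2 (.cons 0x9873456201 .nil) (.node 0 5 (.cons 0x4501267893 .nil) .done .done) .done)) .done)) .done)) .done)) .done)) .done)))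
noncomputable def tc9_1_60 : T := (.node 2 7 .nil (.node 0 3 (.cons 0x4567890321 (.cons 0x9872654301 .nil)) (.node 4 8 (.cons 0x9845671230 (.cons 0x9845672103 (.cons 0x3098456721 .nil))) (.node 0 4 (.cons 0x9873401265 .nil) (.node 1 8 (.cons 0x9817654032 (.cons 0x9817230456 .nil)) (.node 1 6 (.cons 0x7612309845 (.cons 0x9043278165 (.cons 0x7234098165 .nil))) .done .done) .done) (.node 0 4 (.cons 0x9873401265 .nil) (.node 1 6 (.cons 0x5409876123 (.cons 0x5610984372 .nil)) (.node 1 5 (.cons 0x6789045123 (.cons 0x9843726510 .nil)) (.node 3 6 (.cons 0x5409876321 (.cons 0x6327890451 .nil)) .done .done) (.node 4 7 (.cons 0x8903472165 .nil) .done .done)) .done) .done)) (.node 3 9 (.cons 0x7893456210 .nil) (.node 0 4 (.cons 0x8932176540 .nil) (.node 5 8 (.cons 0x4098567321 (.cons 0x6721039854 (.cons 0x9856273401 (.cons 0x6589043721 .nil)))) (.node 0 6 (.cons 0x9871234560 (.cons 0x8934560172 .nil)) (.node 0 8 (.cons 0x4567123980 (.cons 0x7265439801 .nil)) .done .done) .done) (.node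 6 8 (.cons 0x9078654321 (.cons 0x5689340172 (.cons 0x8654390721 .nil))) (.leaf 0x9865401723 0 .done) .done)) (.node 0 4 (.cons 0x9873401265 .nil) (.node 6 8 (.cons 0x9078654321 (.cons 0x5689340172 (.cons 0x5689043721 .nil))) (.node 0 6 (.cons 0x9871234560 .nil) (.node 0 8 (.cons 0x2398045671 (.cons 0x6540893271 .nil)) .done .done) .done) (.node 0 6 (.cons 0x9871234560 (.cons 0x8934560172 .nil)) (.node 6 9 (.cons 0x8709654321 .nil) (.node 1 8 (.cons 0x9078123456 (.cons 0x8107269345 (.cons 0x5698172340 (.cons 0x3271896540 .nil)))) .done (.node 1 3 (.cons 0x8709654312 (.cons 0x8721345690 (.cons 0x8904567231 .nil))) .done .done)) .done) .done)) .done)) .done)) (.node 0 4 (.cons 0x9873401265 .nil) (.node 0 3 (.cons 0x4567890321 .nil) (.node 3 9 (.cons 0x7893456210 .nil) (.node 1 3 .nil (.node 0 6 (.cons 0x9871234560 (.cons 0x9872601345 .nil)) (.node 6 8 (.cons 0x9078654321 (.cons 0x5409867231 (.cons 0x9078654312 .nil))) .done .done) (.node 1 4 (.cons 0x3214567890 .nil) (.node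 3 6 (.cons 0x5412367890 .nil) (.node 3 5 (.cons 0x9876210354 .nil) (.node 3 8 (.cons 0x9832176540 .nil) .done .done) .done) .done) .done)) (.node 7 9 (.cons 0x8973401265 .nil) (.node 3 8 (.cons 0x9832176540 .nil) (.node 2 4 (.cons 0x5426789301 .nil) (.node 1 4 (.cons 0x3214567890 .nil) (.node 4 9 (.cons 0x5673894012 .nil) .done .done) .done) .done) .done) .done)) (.node 0 6 (.cons 0x9871234560 .nil) (.node 2 4 .nil (.node 3 9 (.cons 0x7893456210 (.cons 0x8930176542 (.cons 0x5426789301 .nil))) .done (.node 1 4 (.cons 0x3214567890 .nil) (.node 0 5 (.cons 0x9876230541 .nil) (.node 0 2 .nil (.node 2 5 (.cons 0x6789032541 .nil) (.node 4 9 (.cons 0x8941760325 (.cons 0x5602349871 (.cons 0x5602178943 .nil))) .done .done) .done) .done) .done) .done)) .done) .done)) (.node 0 3 (.cons 0x4567890321 .nil) (.node 3 9 (.cons 0x7893456210 .nil) (.node 1 3 .nil (.node 0 5 (.cons 0x4501267893 (.cons 0x4501398762 .nil)) (.node 4 7 (.cons 0x6210547893 (.cons 0x6213987450 .nil)) (.node 4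 9 (.cons 0x8945671230 (.cons 0x8947310562 (.cons 0x4987312650 .nil))) .done .done) .done) (.node 1 4 (.cons 0x3214567890 .nil) (.node 3 6 (.cons 0x5409876321 .nil) (.node 0 6 (.cons 0x9871234560 .nil) (.node 1 6 (.cons 0x5436109872 .nil) .done .done) .done) .done) .done)) (.node 3 6 (.cons 0x5409876321 .nil) (.node 1 3 (.cons 0x5401398762 .nil) (.node 3 5 (.cons 0x2678935401 .nil) (.node 3 8 .nil (.node 2 4 (.cons 0x5426789310 (.cons 0x2456783901 (.cons 0x7654210983 .nil))) .done .done) .done) .done) .done) .done)) (.node 3 9 (.cons 0x7893456210 .nil) (.node 3 6 (.cons 0x5409876321 .nil) (.node 3 5 (.cons 0x6789045321 .nil) (.node 3 8 .nil (.node 2 4 (.cons 0x8930176542 (.cons 0x9012456783 (.cons 0x9830176542 .nil))) .done (.node 1 3 .nil (.node 5 7 (.cons 0x8931045762 (.cons 0x8931267540 .nil)) (.node 1 6 (.cons 0x4576123890 (.cons 0x4321657890 .nil)) .done .done) .done) .done)) .done) .done) (.node 3 8 .nil (.node 2 4 (.cons 0x5426789301 (.cons 0x9012456783 (.cons 0x9830176542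 .nil))) .done (.node 3 5 (.cons 0x4539876210 .nil) (.node 3 6 (.cons 0x5409876321 .nil) (.node 1 3 .nil (.node 4 8 (.cons 0x9354876210 (.cons 0x5489013672 .nil)) (.node 2 9 (.cons 0x7892654301 (.cons 0x2984567130 (.cons 0x4876531290 (.cons 0x9265487031 .nil)))) .done .done) .done) .done) (.node 0 5 (.cons 0x4501267893 .nil) (.node 1 5 (.cons 0x9876230451 .nil) (.node 2 5 (.cons 0x4526789301 .nil) .done .done) .done) .done)) .done)) .done)) .done)) (.node 0 3 (.cons 0x4567890321 .nil) (.node 0 6 (.cons 0x9871234560 .nil) (.node 4 7 (.cons 0x5609874321 .nil) (.node 0 2 .nil (.node 3 9 (.cons 0x7893456210 (.cons 0x7893456201 .nil)) (.leaf 0x8934562017 0 .done) (.node 0 5 .nil (.node 1 8 (.cons 0x9817654032 (.cons 0x9812674503 (.cons 0x9812650347 (.cons 0x9812650374 .nil)))) .done .done) .done)) .done) .done) (.node 3 9 (.cons 0x7893456210 .nil) (.node 4 7 (.cons 0x8930126745 .nil) (.node 5 7 (.cons 0x8930126754 .nil) (.node 4 9 (.cons 0x5498762103 .nil) (.node 4 8 (.cons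 0x2675489301 .nil) (.node 7 9 .nil (.node 0 5 (.cons 0x8930547621 (.cons 0x6798450321 .nil)) (.node 1 8 (.cons 0x6275439810 (.cons 0x6507932184 (.cons 0x6548123970 .nil))) (.leaf 0x2674503981 0 .done) .done) .done) .done) .done) .done) .done) (.node 3 8 .nil (.node 2 4 (.cons 0x5426789301 (.cons 0x2456783901 (.cons 0x7654210983 .nil))) .done (.node 4 7 .nil (.node 0 6 (.cons 0x9871234560 (.cons 0x5609874321 .nil)) (.node 1 8 (.cons 0x7260189345 (.cons 0x5476098123 (.cons 0x7432189065 (.cons 0x2398174560 .nil)))) .done .done) (.node 7 9 .nil (.node 0 6 (.cons 0x9871234560 (.cons 0x8971234560 .nil)) (.node 2 4 (.cons 0x5426789301 (.cons 0x9783421065 (.cons 0x3897654210 .nil))) .done .done) .done) .done)) .done)) .done)) .done)) .done))) .done)) (.node 2 7 .nil (.node 0 3 (.cons 0x4567890321 (.cons 0x9872654301 .nil)) (.node 7 9 (.cons 0x8972654301 .nil) (.node 4 8 (.cons 0x7654890321 (.cons 0x9845672103 (.cons 0x3098456721 .nil))) (.node 0 4 (.cons 0x9873401265 .nil) (.node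 0 5 (.cons 0x3054897621 .nil) (.node 0 8 (.cons 0x7980345621 .nil) (.leaf 0x9803456217 0 .done) .done) .done) (.node 1 9 (.cons 0x5489176230 (.cons 0x5627348910 (.cons 0x7265489103 .nil))) (.node 0 5 (.cons 0x9845032671 .nil) (.node 1 5 (.cons 0x9845176230 (.cons 0x4891567230 (.cons 0x9843726510 .nil))) (.leaf 0x7154890326 0 .done) (.leaf 0x9172650348 0 .done)) .done) .done)) .done) (.node 3 9 (.cons 0x7893456210 .nil) (.node 6 8 (.cons 0x9078654321 (.cons 0x5439862710 (.cons 0x8654390721 .nil))) (.node 0 8 (.cons 0x7265439801 .nil) (.leaf 0x9801276543 0 (.node 1 8 (.cons 0x8123907654 .nil) (.node 0 4 (.cons 0x9873401265 (.cons 0x1893276540 .nil)) (.node 0 5 (.cons 0x9812376504 (.cons 0x5017268934 .nil)) .done .done) .done) .done)) .done) (.node 7 9 .nil (.node 3 8 (.cons 0x9012783456 (.cons 0x9783456210 (.cons 0x6543897210 .nil))) .done (.node 5 9 (.cons 0x4378956210 .nil) (.node 3 8 (.cons 0x7621038954 (.cons 0x6721038954 .nil)) .done (.node 0 4 (.cons 0x4012659873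 .nil) (.node 3 8 (.cons 0x7654098321 (.cons 0x6598372104 .nil)) .done (.node 1 9 (.cons 0x5403267891 (.cons 0x8910437265 (.cons 0x5627891043 .nil))) .done .done)) .done)) .done)) .done)) .done)) .done) .done))
noncomputable def tc9_1_61 : T := (.node 0 3 (.cons 0x4567890321 (.cons 0x9872654301 .nil)) (.node 4 8 (.cons 0x7654890321 (.cons 0x9845672103 (.cons 0x9843017265 (.cons 0x3098456721 .nil)))) (.node 3 5 (.cons 0x9845301267 .nil) (.node 6 9 (.cons 0x1235487690 (.cons 0x8965437210 (.cons 0x8721096534 (.cons 0x8453096721 .nil)))) (.leaf 0x354896721 0 .done) (.node 4 9 (.cons 0x2653498710 (.cons 0x8943562710 (.cons 0x8943017265 .nil))) (.node 0 4 (.cons 0x9871043562 .nil) (.node 5 9 (.cons 0x1789562340 (.cons 0x8956271043 (.cons 0x6271035984 .nil))) .done .done) .done) .done)) .done) (.node 1 6 (.cons 0x1654327890 .nil) (.node 0 4 (.cons 0x5617890432 .nil) (.leaf 0x2378904561 0 (.node 5 8 (.cons 0x4098567123 (.cons 0x9854032167 (.cons 0x6589043271 (.cons 0x9854037612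 .nil)))) (.node 3 9 (.cons 0x7893456210 (.cons 0x6589372104 (.cons 0x4017265893 .nil))) (.node 4 6 (.cons 0x9032164587 (.cons 0x7264589301 .nil)) (.leaf 0x5461239078 0 .done) .done) .done) .done)) (.node 3 8 (.cons 0x9016543872 .nil) (.node 0 4 (.cons 0x7654098321 .nil) (.leaf 0x2389045671 0 (.node 1 3 (.cons 0x8904567231 .nil) .done .done)) (.node 5 9 (.cons 0x4598762103 (.cons 0x6278954301 (.cons 0x4387216590 .nil))) (.node 4 6 (.cons 0x5643217890 (.cons 0x7210983465 (.cons 0x8346590721 .nil))) (.leaf 0x389546721 0 .done) (.node 4 6 (.cons 0x5643217890 (.cons 0x4659837210 (.cons 0x8723095461 (.cons 0x8721645903 .nil)))) .done .done)) .done)) (.leaf 0x9872165430 0 .done))) (.node 0 6 (.cons 0x7890654321 .nil) (.node 1 6 (.cons 0x1654327890 .nil) (.node 0 4 (.cons 0x5409876123 (.cons 0x5617890432 .nil)) (.leaf 0x2378904561 0 .done) (.node 4 6 (.cons 0x5643217890 (.cons 0x5643098721 .nil)) (.node 3 8 (.cons 0x9016543872 .nil) (.node 2 4 (.cons 0x9012456783 (.cons 0x9837654210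 (.cons 0x9837601245 .nil))) .done (.node 5 7 (.cons 0x9834572601 (.cons 0x6098345721 .nil)) .done .done)) .done) .done)) (.node 3 9 (.cons 0x7893456210 (.cons 0x5439872601 .nil)) (.node 1 8 (.cons 0x8123907654 (.cons 0x7260189345 (.cons 0x4560189372 .nil))) (.node 0 4 (.cons 0x8937654012 (.cons 0x9817234065 (.cons 0x5406723981 .nil))) .done .done) (.node 0 4 (.cons 0x8934017265 .nil) (.node 0 5 (.cons 0x4056239871 .nil) (.node 6 8 (.cons 0x9078654321 (.cons 0x9865012734 (.cons 0x9865043712 .nil))) .done .done) (.node 2 4 (.cons 0x5624398710 .nil) (.node 3 8 (.cons 0x2456783901 .nil) (.leaf 0x4567839012 0 .done) (.node 0 8 (.cons 0x2456739801 (.cons 0x6542739801 .nil)) .done .done)) .done)) .done)) .done)) .done))) (.node 0 6 (.cons 0x7890654321 .nil) (.node 1 6 .nil (.node 0 4 (.cons 0x5409876123 (.cons 0x5617890432 .nil)) (.leaf 0x2378904561 0 .done) (.node 7 9 (.cons 0x8973456012 .nil) (.node 5 7 (.cons 0x8906571234 .nil) (.node 4 7 .nil (.node 2 8 (.cons 0x1654328790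 (.cons 0x3475609821 (.cons 0x9821065473 .nil))) .done .done) .done) (.node 5 7 (.cons 0x8906571234 .nil) (.node 4 7 .nil (.node 2 8 (.cons 0x1289734560 (.cons 0x9821065473 .nil)) (.node 2 9 (.cons 0x6543789210 (.cons 0x8290165743 (.cons 0x8921065473 .nil))) .done .done) .done) .done) .done)) .done)) (.node 2 4 (.cons 0x9873421065 .nil) (.node 4 7 (.cons 0x5609874321 .nil) (.node 4 6 (.cons 0x5643217890 .nil) (.node 1 6 .nil (.node 0 4 (.cons 0x5409876123 .nil) (.leaf 0x2378904561 0 .done) (.node 3 6 .nil (.node 0 4 (.cons 0x5409876321 .nil) (.node 1 5 (.cons 0x2347890651 (.cons 0x9873215604 .nil)) (.leaf 0x8906512347 0 (.leaf 0x9872154360 0 .done)) .done) (.node 6 8 (.cons 0x9078654321 .nil) (.node 6 9 (.cons 0x8709654321 .nil) .done .done) .done)) .done)) (.node 6 8 (.cons 0x9078654321 .nil) (.node 6 9 (.cons 0x8709654321 .nil) (.node 4 9 .nil (.node 0 5 (.cons 0x3465098712 (.cons 0x5017268943 (.cons 0x3249056871 (.cons 0x1789432650 .nil)))) .done (.node 1 9 (.cons 0x2345687091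 .nil) (.node 0 4 (.cons 0x5687190423 .nil) (.node 1 4 (.cons 0x3214567890 .nil) (.node 4 8 (.cons 0x8456912370 .nil) .done .done) .done) .done) .done)) .done) .done) .done)) (.node 4 6 (.cons 0x5643217890 .nil) (.node 1 6 .nil (.node 0 4 (.cons 0x5409876123 (.cons 0x5617890432 .nil)) (.leaf 0x2378904561 0 .done) (.node 3 6 .nil (.node 0 2 (.cons 0x8902174365 (.cons 0x3654789021 .nil)) (.node 5 7 (.cons 0x8902346571 .nil) (.leaf 0x8901263457 0 .done) .done) (.node 6 8 (.cons 0x9078654321 .nil) (.node 6 9 (.cons 0x8709654321 .nil) .done .done) .done)) .done)) (.node 6 8 (.cons 0x9078654321 .nil) (.node 6 9 (.cons 0x8709654321 .nil) (.node 4 9 .nil (.node 1 5 (.cons 0x2346517890 (.cons 0x7894321560 (.cons 0x5127860943 (.cons 0x5127349860 (.cons 0x4987321560 .nil))))) .done (.node 4 8 (.cons 0x8432170965 .nil) (.node 5 7 (.cons 0x5721069843 .nil) (.node 7 9 .nil (.node 3 5 (.cons 0x3549876210 (.cons 0x9784356012 (.cons 0x8653421790 .nil))) .done .done) .done) .done) .done))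 .done) .done) .done)) .done)) (.node 6 8 (.cons 0x9078654321 .nil) (.node 2 5 (.cons 0x9865243710 .nil) (.leaf 0x4256890173 0 (.node 0 2 .nil (.node 5 9 (.cons 0x4378956012 (.cons 0x6895437201 (.cons 0x4378956021 .nil))) (.node 1 6 (.cons 0x3459872610 (.cons 0x8716590234 (.cons 0x9861027345 .nil))) .done .done) .done) .done)) (.node 0 2 .nil (.node 3 5 (.cons 0x7124356890 (.cons 0x9021786534 (.cons 0x7120986534 (.cons 0x9871026534 .nil)))) .done (.node 2 9 (.cons 0x6543789210 .nil) (.node 2 8 .nil (.node 6 9 (.cons 0x8709654321 (.cons 0x7345698210 (.cons 0x5698243710 .nil))) .done .done) .done) .done)) .done)) .done)) (.node 1 6 (.cons 0x5432789061 .nil) (.node 1 3 (.cons 0x9872601345 .nil) (.node 3 6 .nil (.node 1 9 (.cons 0x8709123456 (.cons 0x8709123654 .nil)) (.node 1 4 (.cons 0x3214567890 .nil) (.node 1 8 (.cons 0x9187062345 (.cons 0x9078123654 .nil)) .done .done) .done) (.node 6 8 (.cons 0x9078654321 .nil) (.node 4 6 (.cons 0x5643217890 .nil) (.node 6 9 (.cons 0x8709654321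 .nil) .done .done) .done) .done)) (.node 1 9 (.cons 0x8709123456 .nil) (.node 1 4 (.cons 0x3214567890 .nil) (.node 1 5 (.cons 0x6098723451 .nil) (.node 1 8 (.cons 0x9061872345 .nil) .done .done) .done) (.node 1 8 (.cons 0x9061872345 .nil) (.node 1 4 (.cons 0x2378914560 .nil) (.node 1 5 (.cons 0x6098723451 .nil) .done .done) .done) .done)) .done)) (.node 6 9 (.cons 0x8709654321 .nil) (.node 6 8 (.cons 0x9078654321 .nil) (.node 4 6 (.cons 0x5643217890 .nil) (.node 3 6 .nil (.node 1 9 (.cons 0x3456870912 (.cons 0x5436870912 (.cons 0x8709123654 .nil))) .done .done) .done) .done) (.node 6 8 (.cons 0x9078654321 .nil) (.node 2 8 (.cons 0x3456907821 .nil) (.node 0 8 (.cons 0x5437216980 .nil) (.node 1 8 (.cons 0x3456907812 .nil) (.node 7 9 (.cons 0x5432798160 .nil) (.node 2 9 (.cons 0x6543789210 .nil) (.node 2 4 (.cons 0x3798245610 .nil) (.node 2 5 (.cons 0x7345216980 .nil) .done .done) (.leaf 0x7923456180 0 .done)) .done) .done) .done) .done) .done) .done)) .done)) .done))) .done))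
noncomputable def tc9_1_62 : T := (.node 0 3 (.cons 0x4567890321 (.cons 0x9872654301 .nil)) (.node 6 9 (.cons 0x8709654321 (.cons 0x8965437210 (.cons 0x8962710345 .nil))) (.node 0 6 (.cons 0x7890654321 .nil) (.node 1 9 (.cons 0x8709123456 (.cons 0x8910654372 .nil)) (.node 6 8 (.cons 0x9078654321 (.cons 0x4568912730 .nil)) .done .done) .done) (.node 1 3 (.cons 0x8709654312 (.cons 0x8721345690 .nil)) (.node 1 8 (.cons 0x3456907812 (.cons 0x7218965430 (.cons 0x4569812730 .nil))) .done .done) .done)) (.node 5 7 (.cons 0x9875430126 .nil) (.node 1 6 (.cons 0x9875430162 .nil) (.node 6 9 (.cons 0x2698754301 (.cons 0x8965437210 (.cons 0x8721690345 .nil))) (.node 3 5 (.cons 0x9876210354 (.cons 0x8721096534 .nil)) (.node 4 8 (.cons 0x2698435710 (.cons 0x5301276984 (.cons 0x6721098453 (.cons 0x5348962710 (.cons 0x8435690721 .nil))))) .done .done) (.node 5 8 (.cons 0x2345871690 (.cons 0x9610345872 (.cons 0x4587230961 (.cons 0x2785430961 .nil)))) .done .done)) (.leaf 0x9872165430 0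 (.node 0 4 (.cons 0x2340987561 (.cons 0x8904327561 .nil)) (.node 1 9 (.cons 0x5403267891 (.cons 0x8910345726 .nil)) (.node 1 3 (.cons 0x7891326540 (.cons 0x8723190456 (.cons 0x8904567231 .nil))) .done .done) .done) .done))) (.node 5 9 (.cons 0x4598762103 (.cons 0x6278954301 .nil)) (.node 4 7 (.cons 0x8954762103 .nil) (.node 1 8 (.cons 0x1895476230 (.cons 0x3472659810 (.cons 0x6274598103 .nil))) (.node 6 8 (.cons 0x9078654321 (.cons 0x5986274301 (.cons 0x3459862710 (.cons 0x9543072186 .nil)))) .done .done) .done) (.node 4 7 .nil (.node 1 6 (.cons 0x8903457216 (.cons 0x8745903216 (.cons 0x5612347890 .nil))) .done (.node 1 9 (.cons 0x6219875430 .nil) (.node 3 8 (.cons 0x4576219830 (.cons 0x5627438910 (.cons 0x7265438910 .nil))) .done (.node 0 5 (.cons 0x1987432650 (.cons 0x8910562743 .nil)) (.node 4 6 (.cons 0x5789126430 (.cons 0x8723465091 (.cons 0x8910564372 (.cons 0x5034627891 .nil)))) .done .done) .done)) .done)) .done)) .done)) (.node 0 6 (.cons 0x7890654321 .nil) (.node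 5 7 (.cons 0x9875621034 .nil) (.node 3 8 (.cons 0x9834571062 (.cons 0x9834572601 .nil)) (.node 1 6 (.cons 0x8906175432 (.cons 0x9016543872 .nil)) (.node 1 9 (.cons 0x8917543260 (.cons 0x7265438910 (.cons 0x4560198372 .nil))) .done .done) .done) (.node 3 8 (.cons 0x9834571260 (.cons 0x6098345721 .nil)) (.node 1 6 (.cons 0x4309875612 (.cons 0x9016543872 .nil)) (.node 1 9 (.cons 0x9107834562 (.cons 0x7265438910 (.cons 0x4560198372 .nil))) .done .done) .done) .done)) (.node 6 9 (.cons 0x8709654321 (.cons 0x8965437210 .nil)) (.node 1 9 (.cons 0x8709123456 (.cons 0x8910654372 .nil)) (.node 1 4 (.cons 0x2378914560 (.cons 0x3278914560 .nil)) (.node 6 8 (.cons 0x9078654321 (.cons 0x9034127865 .nil)) .done (.leaf 0x2789145603 0 .done)) .done) (.node 1 3 (.cons 0x8709654312 (.cons 0x8721345690 .nil)) (.node 1 4 (.cons 0x3214567890 (.cons 0x5698721430 (.cons 0x8721430965 .nil))) .done .done) .done)) .done)) .done))) (.node 0 6 (.cons 0x7890654321 .nil) (.node 7 9 (.cons 0x8973456012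 .nil) (.node 5 7 .nil (.node 2 8 (.cons 0x2897345601 (.cons 0x3457982601 .nil)) (.node 0 3 (.cons 0x4567890321 (.cons 0x9875430126 (.cons 0x9875621034 .nil))) (.node 3 9 (.cons 0x7893456210 (.cons 0x6289301754 (.cons 0x6012893754 (.cons 0x4398756210 .nil)))) .done .done) .done) (.node 4 7 .nil (.node 5 8 (.cons 0x1798543260 (.cons 0x9856012743 (.cons 0x6098547123 .nil))) (.node 1 9 (.cons 0x7198543260 (.cons 0x3472658910 (.cons 0x5891743260 (.cons 0x8912374560 .nil)))) .done .done) .done) .done)) (.node 5 7 .nil (.node 0 3 (.cons 0x4567890321 (.cons 0x8975430621 (.cons 0x9875621034 .nil))) (.node 1 9 (.cons 0x7891034562 (.cons 0x4301987562 .nil)) (.node 0 4 (.cons 0x8912376540 .nil) (.node 3 8 (.cons 0x5438971260 (.cons 0x4576098321 (.cons 0x5798340621 .nil))) .done .done) (.leaf 0x8726543019 0 .done)) .done) (.node 4 7 .nil (.node 2 8 (.cons 0x1289734560 (.cons 0x9821065473 .nil)) (.node 0 2 (.cons 0x8973456021 .nil) (.node 0 5 (.cons 0x6054379821 .nil) .done .done)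 .done) .done) .done)) .done)) (.node 4 7 (.cons 0x5609874321 .nil) (.node 5 7 .nil (.node 0 3 (.cons 0x4567890321 (.cons 0x9875430126 .nil)) (.node 4 8 (.cons 0x7654890321 (.cons 0x9843012756 (.cons 0x6754890321 (.cons 0x9843062175 .nil)))) .done (.node 1 9 (.cons 0x7891034562 (.cons 0x4301987562 .nil)) (.node 0 8 (.cons 0x4567321980 (.cons 0x4576230891 (.cons 0x6230891754 .nil))) .done (.leaf 0x8726543019 0 .done)) .done)) (.node 7 9 .nil (.node 1 5 (.cons 0x2347890651 (.cons 0x8790651234 .nil)) (.leaf 0x8906512347 0 (.node 2 8 (.cons 0x7432890651 (.cons 0x5106289743 .nil)) (.node 0 4 (.cons 0x9823740651 (.cons 0x6540128973 (.cons 0x8975126043 .nil))) .done .done) (.node 0 4 (.cons 0x9873215604 (.cons 0x8973215604 .nil)) (.node 2 4 (.cons 0x3247890651 (.cons 0x8973421065 .nil)) (.node 3 8 (.cons 0x9065783421 (.cons 0x4238790651 .nil)) (.leaf 0x7901265438 0 (.node 0 3 (.cons 0x4567890321 (.cons 0x4798301562 (.cons 0x9783015624 .nil))) .done .done)) .done) .done) .done)))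 .done) .done)) (.node 5 7 .nil (.node 0 3 (.cons 0x4567890321 (.cons 0x9875430126 .nil)) (.node 3 9 (.cons 0x7893456210 (.cons 0x8930126754 (.cons 0x4398756210 .nil))) (.node 2 8 (.cons 0x9345628701 (.cons 0x4576289301 (.cons 0x6289301754 .nil))) .done .done) (.node 1 9 (.cons 0x7891034562 (.cons 0x4301987562 .nil)) (.node 0 8 (.cons 0x4567321980 (.cons 0x4576230891 (.cons 0x6230891754 .nil))) .done (.leaf 0x8726543019 0 .done)) .done)) (.node 7 9 .nil (.node 2 4 (.cons 0x9873421065 (.cons 0x8973421065 .nil)) (.node 3 8 (.cons 0x9012456783 .nil) (.leaf 0x7901265438 0 (.node 1 4 (.cons 0x3214567890 (.cons 0x2657983410 .nil)) (.node 1 8 (.cons 0x9078123456 .nil) (.node 0 3 (.cons 0x9876541230 (.cons 0x8976541230 (.cons 0x6542309781 .nil))) (.node 1 5 (.cons 0x3478906512 (.cons 0x8790651234 (.cons 0x8974306215 .nil))) .done .done) .done) .done) (.node 1 5 (.cons 0x3478906512 (.cons 0x8790651234 (.cons 0x4389726510 (.cons 0x4238790651 .nil)))) (.leaf 0x7906512438 0 .done)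 .done))) (.node 3 5 (.cons 0x9875342601 (.cons 0x8975342601 .nil)) (.node 2 8 (.cons 0x9065347821 .nil) (.node 3 6 (.cons 0x5421098763 (.cons 0x4563798210 (.cons 0x6354287901 .nil))) .done .done) .done) .done)) .done) .done)) .done)) (.node 6 8 (.cons 0x9078654321 .nil) (.node 6 9 (.cons 0x8709654321 .nil) (.node 0 8 (.cons 0x7345698012 .nil) (.leaf 0x1273456980 0 (.node 0 5 (.cons 0x8965012734 .nil) (.node 2 8 (.cons 0x7345698210 .nil) (.node 0 2 .nil (.node 1 8 (.cons 0x9078123456 (.cons 0x7189602345 .nil)) .done .done) .done) .done) .done)) (.node 2 8 (.cons 0x3456907821 .nil) (.node 0 8 .nil (.node 0 2 (.cons 0x7345698021 .nil) (.node 0 5 (.cons 0x6980543712 .nil) .done .done) (.node 1 8 (.cons 0x3456907812 .nil) (.node 0 5 .nil (.node 3 9 (.cons 0x7893456210 (.cons 0x4506718932 (.cons 0x8705439621 (.cons 0x4396507812 (.cons 0x4398726501 .nil))))) .done (.node 0 2 .nil (.node 0 4 (.cons 0x8965043721 .nil) (.node 3 5 (.cons 0x6789045321 (.cons 0x9678120453 (.cons 0x6981720534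 .nil))) .done .done) .done) .done)) .done) .done)) (.node 1 8 (.cons 0x3456907812 .nil) (.node 7 9 .nil (.node 1 4 (.cons 0x3214567890 (.cons 0x3287906541 (.cons 0x9706541823 .nil))) .done (.node 0 8 .nil (.node 1 4 (.cons 0x3214567890 (.cons 0x9087654123 (.cons 0x5627980143 .nil))) .done (.node 0 2 .nil (.node 0 4 (.cons 0x3204567981 .nil) .done (.node 0 4 (.cons 0x3204567981 .nil) .done .done)) .done)) .done)) .done) .done)) .done)) (.node 6 9 (.cons 0x8709654321 .nil) (.node 4 6 .nil (.node 0 5 (.cons 0x8965012734 (.cons 0x8905467123 (.cons 0x6450987123 .nil))) .done (.node 3 6 .nil (.node 2 9 (.cons 0x6543789210 (.cons 0x5436870921 (.cons 0x4563789210 .nil))) .done (.node 1 6 .nil (.node 0 4 (.cons 0x5409876123 .nil) (.leaf 0x2378904561 0 (.node 5 9 (.cons 0x1789543260 (.cons 0x8954061732 (.cons 0x8956104372 (.cons 0x8956127340 .nil)))) .done .done)) .done) .done)) .done)) (.node 0 4 (.cons 0x5698734012 .nil) (.node 0 5 (.cons 0x9865043721 .nil) (.node 2 5 (.cons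 0x4378965210 .nil) (.leaf 0x1256987340 0 (.node 0 2 (.cons 0x9860254371 .nil) (.node 0 3 (.cons 0x4567890321 .nil) (.node 0 8 (.cons 0x9804567321 .nil) .done .done) .done) .done)) .done) (.node 3 6 (.cons 0x5409876321 .nil) (.node 1 6 (.cons 0x5409876123 .nil) (.node 4 6 .nil (.node 0 5 (.cons 0x4378965012 (.cons 0x8905467123 (.cons 0x5046987321 .nil))) .done .done) .done) (.node 1 6 (.cons 0x5409876123 .nil) (.node 0 3 (.cons 0x4567890321 .nil) (.node 1 3 (.cons 0x9078654312 .nil) .done .done) .done) .done)) .done)) .done)) .done)) .done))) .done))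
noncomputable def uc9_1_12 : T := (.node 1 7 (.cons 0x6543217890 .nil) (.node 2 7 .nil tc9_1_62 (.node 2 7 .nil tc9_1_61 .done)) (.leaf 0x8901265437 0 (.node 1 7 (.cons 0x6543217890 .nil) tc9_1_60 (.node 0 3 (.cons 0x4567890321 .nil) tc9_1_59 .done))))
theorem sub_c9_1_12 : root 9 refs9_1 [] 0x700000008706000000006030000070030500800000504000000004030000000030100000800102000000002018070000010 0xfe7fff3fff37fed7ffcfffe7fff5fef9fff9fe7d 9 3 7 (.cons 0x9873456210 .nil) uc9_1_12 = true := by decide +kernel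
def kn_c9_1 : List (Nat × Nat × Nat) := [(0x700000008706000000006030000000030500402000504000000004030000000030100000400102000000002018002000010, 0xfe7fff3fffb7ffc3ffcfffe7fff5ffe9fff9fef9, 9), (0x700000008706000000006030000000030500406000504000000004030000000030100000400102000000002018006000010, 0xfe7fff3fffb7ff87ffcfffe7fff5ffe9fff9febd, 9), (0x700000008706000000006030000000030500407000504000000004030000000030100000400102000000002018007000010, 0xfe7fff3fffb7ff47ffcfffe7fff5ffe9fff9fe7d, 9), (0x700000008706000000006030000000030500602000504000000004030000000030100000600102000000002018002000010, 0xfe7fff3fffb7ff93ffcfffe7fff5ffb9fff9fef9, 9), (0x700000008706000000006030000000030500604000504000000004030000000030100000600102000000002018004000010, 0xfe7fff3fffb7ff87ffcfffe7fff5ffb9fff9feed, 9), (0x700000008706000000006030000000030500607000504000000004030000000030100000600102000000002018007000010, 0xfe7fff3fffb7ff17ffcfffe7fff5ffb9fff9fe7d, 9), (0x700000008706000000006030000000030500702000504000000004030000000030100000700102000000002018002000010,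 0xfe7fff3fffb7ff53ffcfffe7fff5ff79fff9fef9, 9), (0x700000008706000000006030000000030500704000504000000004030000000030100000700102000000002018004000010, 0xfe7fff3fffb7ff47ffcfffe7fff5ff79fff9feed, 9), (0x700000008706000000006030000000030500706000504000000004030000000030100000700102000000002018006000010, 0xfe7fff3fffb7ff17ffcfffe7fff5ff79fff9febd, 9), (0x700000008706000000006030000020030500800000504000000004030000000030100000800102000000002018020000010, 0xfe7fff3fffb3fed7ffcfffe7fff5fef9fff9fef9, 9), (0x700000008706000000006030000040030500800000504000000004030000000030100000800102000000002018040000010, 0xfe7fff3fffa7fed7ffcfffe7fff5fef9fff9feed, 9), (0x700000008706000000006030000050030500800000504000000004030000000030100000800102000000002018050000010, 0xfe7fff3fff97fed7ffcfffe7fff5fef9fff9fedd, 9), (0x700000008706000000006030000070030500800000504000000004030000000030100000800102000000002018070000010, 0xfe7fff3fff37fed7ffcfffe7fff5fef9fff9fe7d, 9)]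
noncomputable def rc9_1 : T := (.node 0 7 (.cons 0x9870126543 .nil) (.cut 12 (.cut 11 (.cut 10 (.cut 9 .done)))) (.node 0 6 (.cons 0x7890654321 .nil) (.cut 8 (.cut 7 (.cut 6 .done))) (.node 0 6 (.cons 0x7890654321 .nil) (.cut 5 (.cut 4 (.cut 3 .done))) (.node 0 6 (.cons 0x7890654321 .nil) (.cut 2 (.cut 1 (.cut 0 .done))) .done))))
theorem ok_c9_1 : root 9 refs9_1 kn_c9_1 0x700000008706000000006030000000030500000000504000000004030000000030100000000102000000002018000000010 0xfe7fff3fffb7ffd7ffcfffe7fff5fff9fff9fefd 9 2 6 (.cons 0x7890126543 .nil) rc9_1 = true := by decide +kernel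

end Pool.Agent.Hhelper35.Rainbow
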