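import Pool.Agent.Hhelper35.Rainbow.Pats

set_option autoImplicit false
set_option maxRecDepth 1000000

namespace Pool.Agent.Hhelper35.Rainbow

open T W

noncomputable def tc9_2_0 : T := (.node 1 7 (.cons 0x4589067123 .nil) (.node 3 7 (.cons 0x4589067321 .nil) (.node 2 7 .nil (.node 1 5 (.cons 0x8905167234 (.cons 0x6150987234 .nil)) (.node 4 8 (.cons 0x9845760123 (.cons 0x5609843721 .nil)) (.node 3 9 (.cons 0x8932106754 (.cons 0x3984567210 (.cons 0x7210654893 (.cons 0x5489327601 .nil)))) .done (.leaf 0x9051672348 0 (.leaf 0x3489051672 1 .done))) .done) (.node 0 7 .nil (.node 1 3 (.cons 0x2134567890 (.cons 0x8907654312 .nil)) (.node 1 8 (.cons 0x9812345760 (.cons 0x9812345706 .nil)) (.node 1 4 (.cons 0x5098761432 (.cons 0x6709854123 .nil)) (.node 3 8 (.cons 0x7214560983 (.cons 0x9831270654 (.cons 0x9831456072 .nil))) .done .done) .done) (.node 3 8 (.cons 0x7213890654 (.cons 0x9831270654 .nil)) (.node 1 4 (.cons 0x5098761432 (.cons 0x9831456072 (.cons 0x6541389072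 .nil))) (.node 4 8 (.cons 0x9065483172 (.cons 0x9845607213 (.cons 0x9843216075 .nil))) .done .done) .done) .done)) (.node 4 7 .nil (.node 0 4 (.cons 0x9857406123 .nil) (.node 5 9 (.cons 0x4095876123 (.cons 0x8590476123 (.cons 0x8957432160 .nil))) .done .done) (.node 7 9 .nil (.node 4 8 (.cons 0x9845760123 (.cons 0x5489760123 (.cons 0x5798432160 .nil))) (.leaf 0x9750612348 0 .done) .done) .done)) .done)) .done)) (.node 4 7 .nil (.node 2 5 (.cons 0x4325098761 (.cons 0x8905234761 (.cons 0x4732589061 .nil))) (.node 1 4 (.cons 0x5890614732 .nil) (.leaf 0x3741609852 0 (.leaf 0x3416789052 1 (.leaf 0x6789052341 0 .done))) .done) (.node 0 7 .nil (.node 1 4 (.cons 0x2376098541 (.cons 0x6709854123 .nil)) (.node 5 9 (.cons 0x2341678950 (.cons 0x8950761432 (.cons 0x8957061234 .nil))) .done (.node 1 3 (.cons 0x2134567890 (.cons 0x8907654312 .nil)) (.node 6 9 (.cons 0x2341698750 (.cons 0x7069854132 (.cons 0x6987054132 .nil))) .done .done) .done)) (.node 0 2 (.cons 0x3456789021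 .nil) (.node 0 4 .nil (.node 3 9 (.cons 0x8765439021 (.cons 0x8540932176 (.cons 0x2165789340 (.cons 0x4067589321 .nil)))) .done (.node 0 3 .nil (.node 6 9 (.cons 0x5789612340 (.cons 0x6987540321 .nil)) (.leaf 0x8574032169 0 .done) .done) .done)) (.node 0 3 (.cons 0x9875612034 .nil) (.node 0 4 (.cons 0x9875612043 .nil) .done .done) .done)) .done)) .done)) .done)) (.node 1 9 (.cons 0x8912345760 .nil) (.node 1 8 (.cons 0x9812345760 .nil) (.node 6 8 .nil (.node 0 2 (.cons 0x3456789021 (.cons 0x9860217543 (.cons 0x4320576891 .nil))) (.node 3 9 (.cons 0x9345678120 (.cons 0x2175439860 .nil)) (.leaf 0x7120689345 0 (.leaf 0x6712093458 0 .done)) .done) (.node 6 9 .nil (.node 1 4 (.cons 0x5098761432 (.cons 0x3214587690 (.cons 0x2341698750 .nil))) .done (.node 5 9 .nil (.node 0 4 (.cons 0x8916750432 (.cons 0x3218769540 .nil)) (.leaf 0x3218957604 0 (.node 2 8 (.cons 0x4328916750 (.cons 0x7598216043 (.cons 0x3406759821 .nil))) .done .done)) (.node 2 9 (.cons 0x7605432981 .nil)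 (.node 3 9 (.cons 0x8932106754 .nil) (.node 7 9 (.cons 0x5432189760 .nil) .done .done) .done) .done)) .done)) .done)) (.node 0 7 (.cons 0x9812345706 .nil) (.node 6 8 (.cons 0x4586709123 .nil) (.leaf 0x2190768543 0 (.node 2 9 (.cons 0x6819234570 .nil) (.node 0 2 (.cons 0x1986754320 .nil) (.node 5 9 (.cons 0x6819570234 .nil) .done .done) (.leaf 0x7543291860 1 (.leaf 0x5706819234 0 .done))) .done)) (.node 5 9 (.cons 0x6075981234 .nil) (.node 0 8 (.cons 0x6754321980 .nil) (.node 4 8 (.cons 0x2348916750 .nil) (.leaf 0x2348957061 0 (.leaf 0x5984321607 0 .done)) .done) .done) .done)) .done)) (.node 1 8 (.cons 0x9812345760 .nil) (.node 6 8 (.cons 0x7543219860 .nil) (.node 5 9 .nil (.node 0 4 (.cons 0x6198750432 (.cons 0x4095876123 .nil)) (.leaf 0x3218957604 0 (.node 2 8 (.cons 0x7506198234 (.cons 0x7598216043 (.cons 0x3406759821 .nil))) .done .done)) (.node 6 9 .nil (.node 0 2 (.cons 0x3456789021 (.cons 0x1968754320 (.cons 0x4320578961 .nil))) (.node 0 3 (.cons 0x7659812034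 (.cons 0x4587690321 (.cons 0x8960345712 .nil))) .done .done) (.node 2 9 (.cons 0x7605432981 .nil) (.node 3 9 (.cons 0x8932106754 .nil) (.node 7 9 (.cons 0x5432189760 .nil) .done .done) .done) .done)) .done)) .done) .done) .done)) .done)) (.node 1 7 (.cons 0x4589067123 .nil) (.node 5 9 (.cons 0x8954321760 .nil) (.node 1 8 (.cons 0x9817605432 .nil) (.node 1 9 (.cons 0x8917605432 .nil) (.node 1 5 .nil (.node 2 8 (.cons 0x9823450671 .nil) (.node 3 7 (.cons 0x4589067321 (.cons 0x4376051982 (.cons 0x2891543760 .nil))) .done (.node 4 9 (.cons 0x6187509432 (.cons 0x8234906751 .nil)) (.node 0 8 (.cons 0x6712345980 .nil) (.node 3 6 (.cons 0x6349571280 (.cons 0x9436082157 (.cons 0x7821563490 (.cons 0x4510987632 .nil)))) .done .done) .done) .done)) .done) .done) (.node 1 9 (.cons 0x8917605432 .nil) (.node 1 5 .nil (.node 0 8 (.cons 0x6712345980 .nil) (.node 4 9 (.cons 0x3490875612 (.cons 0x6157809432 .nil)) (.node 0 2 (.cons 0x3456789021 .nil) (.node 0 4 (.cons 0x9854067123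 .nil) .done (.leaf 0x8761502349 0 .done)) .done) (.node 4 6 (.cons 0x8095764321 (.cons 0x7643215980 (.cons 0x9087643215 (.cons 0x2346715980 .nil)))) .done .done)) .done) .done) .done)) (.node 0 7 (.cons 0x8954321706 .nil) (.node 3 7 (.cons 0x4589067321 .nil) (.node 4 7 (.cons 0x8950617432 .nil) (.node 2 7 (.cons 0x8950617234 .nil) (.node 7 9 .nil (.node 4 8 (.cons 0x6123487590 (.cons 0x5489760123 (.cons 0x5061798432 .nil))) (.leaf 0x1605984327 0 .done) .done) .done) .done) .done) (.node 4 7 (.cons 0x8950617432 .nil) (.node 3 7 (.cons 0x4589067321 .nil) (.node 2 7 (.cons 0x8950617234 .nil) (.node 7 9 .nil (.node 0 4 (.cons 0x8956043712 (.cons 0x6045897123 .nil)) (.node 2 8 (.cons 0x5982347160 (.cons 0x3285974061 (.cons 0x6054328971 (.cons 0x8217956043 .nil)))) .done .done) .done) .done) .done) .done) .done)) .done)) (.node 1 8 (.cons 0x7609812345 .nil) (.node 6 8 .nil (.node 1 9 (.cons 0x8675432190 (.cons 0x6875432190 .nil)) (.node 2 8 (.cons 0x9068217543 .nil) (.leaf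 0x6754328190 0 .done) .done) (.node 3 8 (.cons 0x5438906712 .nil) (.node 6 9 (.cons 0x6901238754 .nil) (.node 2 6 (.cons 0x7126098345 .nil) (.node 1 9 (.cons 0x1987623450 .nil) (.leaf 0x6234501987 0 (.leaf 0x2345019876 1 .done)) (.node 0 7 (.cons 0x9078345621 .nil) (.node 7 9 (.cons 0x5432189760 .nil) (.node 3 7 (.cons 0x4589067321 .nil) (.node 4 7 (.cons 0x9837456012 .nil) .done .done) .done) .done) .done)) .done) (.node 2 8 .nil (.node 4 9 (.cons 0x4906758321 (.cons 0x9432816750 (.cons 0x7560943821 (.cons 0x5760943821 (.cons 0x9457601823 .nil))))) .done (.node 6 9 (.cons 0x4328750961 .nil) (.node 0 7 .nil (.node 1 3 (.cons 0x2134567890 (.cons 0x4569078213 (.cons 0x4570968231 .nil))) (.leaf 0x7096543128 0 .done) (.node 7 9 (.cons 0x5432189760 .nil) (.node 3 7 (.cons 0x4589067321 .nil) (.node 4 7 (.cons 0x9065743821 .nil) .done .done) .done) .done)) .done) .done)) .done)) .done)) (.node 1 9 .nil (.node 2 6 (.cons 0x9057816234 (.cons 0x1987623450 (.cons 0x8762345091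 .nil))) (.node 4 6 (.cons 0x9057816432 (.cons 0x7819054623 (.cons 0x3264578190 .nil))) (.node 0 2 (.cons 0x3456789021 (.cons 0x7891643205 (.cons 0x5023467891 .nil))) (.node 3 7 (.cons 0x4589067321 (.cons 0x4589123760 (.cons 0x9187346502 (.cons 0x6543781902 .nil)))) .done .done) .done) .done) (.node 0 7 .nil (.node 6 8 (.cons 0x8675432190 (.cons 0x5432198670 (.cons 0x6819075432 .nil))) .done (.node 0 8 (.cons 0x8091234576 .nil) (.node 1 4 (.cons 0x5098761432 .nil) (.node 1 5 .nil (.node 2 6 (.cons 0x4198507623 (.cons 0x8915076234 (.cons 0x9087621543 .nil))) (.leaf 0x7890514326 0 .done) .done) (.node 3 7 (.cons 0x4589067321 .nil) (.leaf 0x2145890673 1 (.leaf 0x6098541237 0 .done)) .done)) .done) .done)) .done)) .done)) .done)) .done))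
noncomputable def tc9_2_1 : T := (.node 5 7 (.cons 0x8906754321 .nil) (.node 1 7 (.cons 0x9854321760 .nil) (.node 6 9 (.cons 0x7189605432 .nil) (.node 2 7 (.cons 0x5432718960 .nil) (.leaf 0x8172345069 0 (.node 7 9 (.cons 0x1234589760 .nil) (.leaf 0x6798543210 1 (.node 1 9 (.cons 0x8917605432 .nil) (.node 1 5 .nil (.node 0 2 (.cons 0x3458976021 (.cons 0x8769023451 (.cons 0x6987154320 .nil))) (.leaf 0x1789602345 1 .done) .done) .done) .done)) .done)) (.node 6 8 (.cons 0x9068123457 .nil) (.node 3 8 .nil (.node 2 9 (.cons 0x9234571860 (.cons 0x4576832901 (.cons 0x7129834560 (.cons 0x7560921834 .nil)))) .done (.node 3 7 (.cons 0x7345609812 .nil) (.node 4 7 (.cons 0x9065743812 .nil) (.node 7 9 (.cons 0x1234589760 .nil) (.leaf 0x6798543210 1 .done) .done) .done) .done)) .done) .done)) (.node 1 9 .nil (.node 2 6 (.cons 0x9057816234 (.cons 0x1987623450 (.cons 0x8762345091 .nil))) (.node 4 6 (.cons 0x9057816432 (.cons 0x7819054623 (.cons 0x3264578190 .nil))) (.node 0 2 (.cons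 0x3456789021 (.cons 0x9167850234 (.cons 0x7891643205 (.cons 0x5023467891 .nil)))) .done .done) .done) (.node 1 5 .nil (.node 7 9 (.cons 0x1234589760 (.cons 0x4321589760 .nil)) (.node 2 6 (.cons 0x9057816234 (.cons 0x7981543260 (.cons 0x6234518790 .nil))) (.leaf 0x5187906234 0 .done) (.node 2 7 (.cons 0x4327619850 .nil) (.node 6 9 (.cons 0x7234506981 (.cons 0x7234518960 .nil)) .done (.node 4 6 (.cons 0x9057816432 (.cons 0x4605189723 (.cons 0x9051872346 (.cons 0x7234609815 .nil)))) .done .done)) .done)) .done) .done)) .done)) (.node 3 8 (.cons 0x4576098321 .nil) (.node 7 9 (.cons 0x1234589760 .nil) (.leaf 0x6798543210 1 (.node 2 8 .nil (.node 1 3 (.cons 0x2134589760 (.cons 0x5431289760 (.cons 0x7654312890 .nil))) (.leaf 0x6098213457 0 .done) (.node 1 9 .nil (.node 1 7 (.cons 0x8917605432 .nil) (.node 3 7 (.cons 0x7345609812 (.cons 0x4506732891 (.cons 0x4589106732 .nil))) .done .done) (.node 6 8 .nil (.node 2 7 (.cons 0x4327619850 (.cons 0x1986723450 (.cons 0x8672345091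 .nil))) (.leaf 0x9054327681 0 .done) (.node 4 6 (.cons 0x5467890123 .nil) (.node 2 6 .nil (.node 0 3 (.cons 0x7645032891 (.cons 0x7918264503 (.cons 0x7985430621 .nil))) .done (.node 3 6 (.cons 0x5436218790 .nil) .done .done)) (.node 4 8 (.cons 0x5764832190 .nil) (.leaf 0x6750912384 0 .done) .done)) .done)) .done)) .done)) (.node 6 9 .nil (.node 3 7 (.cons 0x7345609812 (.cons 0x4573218960 (.cons 0x2187345690 .nil))) .done (.node 3 7 (.cons 0x7345609812 .nil) (.node 2 8 .nil (.node 1 3 (.cons 0x2134567890 (.cons 0x4509678231 (.cons 0x7654312890 .nil))) .done (.node 1 9 (.cons 0x4506732891 .nil) (.node 1 3 (.cons 0x2134567890 .nil) (.node 1 4 (.cons 0x6732891450 .nil) (.leaf 0x3287690541 1 (.leaf 0x5096782314 0 .done)) .done) (.node 0 2 (.cons 0x3456789021 .nil) (.leaf 0x6734589120 1 (.leaf 0x1985437602 0 (.leaf 0x3456021897 1 .done))) .done)) .done)) (.node 0 3 (.cons 0x4569037812 .nil) (.node 3 5 (.cons 0x6789012354 .nil) (.node 3 9 (.cons 0x7601239854 .nil) .done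 .done) .done) .done)) .done)) .done))) (.node 4 8 .nil (.node 1 5 (.cons 0x9051678432 (.cons 0x7615098432 .nil)) (.node 2 4 (.cons 0x9832451067 (.cons 0x9015423876 (.cons 0x3248905761 (.cons 0x7516098324 .nil)))) .done .done) (.node 7 9 (.cons 0x1234589760 .nil) (.leaf 0x6798543210 1 (.node 1 9 .nil (.node 2 7 (.cons 0x7218906543 (.cons 0x6091832754 (.cons 0x4327605891 .nil))) (.node 2 5 (.cons 0x4325098761 (.cons 0x3487619052 (.cons 0x3489167250 (.cons 0x7250619843 .nil)))) .done .done) (.node 0 8 .nil (.node 1 4 (.cons 0x2389067541 (.cons 0x9806754123 (.cons 0x6754190832 .nil))) .done (.node 1 5 .nil (.node 2 7 (.cons 0x4327619850 (.cons 0x9832760154 (.cons 0x4380915672 (.cons 0x5127609843 .nil)))) .done (.node 1 3 (.cons 0x2134589760 .nil) (.node 1 4 (.cons 0x2389067541 .nil) .done .done) .done)) .done)) .done)) (.node 4 7 (.cons 0x9854760123 .nil) (.node 3 7 (.cons 0x7345609812 .nil) (.node 6 8 (.cons 0x9068123754 .nil) (.node 6 9 (.cons 0x2187345690 .nil) .done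 .done) (.node 2 7 (.cons 0x7218906543 .nil) (.leaf 0x6098127345 0 .done) .done)) (.node 6 9 (.cons 0x5096187432 .nil) (.node 6 8 .nil (.node 5 9 (.cons 0x2347958160 (.cons 0x2386745901 (.cons 0x6874590123 .nil))) .done .done) .done) .done)) .done))) .done)) .done)) .done)) (.node 1 7 (.cons 0x9854321760 .nil) (.node 1 9 (.cons 0x8917605432 .nil) (.node 5 9 (.cons 0x8954321760 .nil) (.node 4 8 (.cons 0x7160598432 .nil) (.node 1 4 (.cons 0x5098761432 .nil) (.node 0 8 (.cons 0x6719805432 .nil) (.node 1 5 .nil (.node 0 4 (.cons 0x7619850432 .nil) (.node 4 7 (.cons 0x2347619850 (.cons 0x6089517432 .nil)) .done .done) .done) .done) .done) (.node 6 8 (.cons 0x7123459860 .nil) (.node 4 9 .nil (.node 2 6 (.cons 0x8917623450 (.cons 0x3267894501 (.cons 0x8716234950 .nil))) .done (.node 4 7 (.cons 0x2347619850 .nil) (.node 0 4 (.cons 0x7619850432 .nil) (.node 1 4 (.cons 0x5098761432 .nil) .done .done) .done) .done)) .done) .done)) (.node 5 7 (.cons 0x8906754321 .nil) (.node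 6 9 .nil (.node 0 8 (.cons 0x6719805432 (.cons 0x6908754321 (.cons 0x4321967580 .nil))) .done (.node 7 9 (.cons 0x1234589760 .nil) (.leaf 0x6798543210 1 (.node 4 7 (.cons 0x2347619850 .nil) (.node 3 7 (.cons 0x5437609812 .nil) (.node 0 7 .nil (.node 2 5 (.cons 0x4325098761 (.cons 0x6709812543 (.cons 0x6198523470 .nil))) .done .done) .done) .done) .done)) .done)) .done) .done)) (.node 5 7 (.cons 0x8906754321 .nil) (.node 4 8 (.cons 0x6190578432 .nil) (.node 0 8 (.cons 0x9806712345 .nil) (.node 2 8 (.cons 0x9823450671 .nil) (.node 2 7 (.cons 0x9843271605 .nil) (.node 6 8 (.cons 0x6875432190 .nil) (.leaf 0x9172345068 0 .done) .done) .done) .done) (.node 2 6 (.cons 0x5784326190 .nil) (.leaf 0x3261905784 1 (.node 1 5 (.cons 0x9015487623 .nil) (.node 1 3 (.cons 0x2134567890 .nil) (.node 1 4 (.cons 0x5098761432 .nil) .done .done) .done) (.leaf 0x1905784326 0 .done))) .done)) (.node 5 9 (.cons 0x8954321760 .nil) (.node 6 8 (.cons 0x7198605432 .nil) (.node 2 7 (.cons 0x5432719860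 .nil) (.leaf 0x4327198605 0 (.leaf 0x9172345068 0 .done)) (.node 6 9 .nil (.node 0 3 (.cons 0x4598671230 (.cons 0x5430967812 (.cons 0x2178965430 .nil))) (.node 0 2 (.cons 0x3456789021 (.cons 0x7695812034 (.cons 0x3456987120 .nil))) .done .done) (.node 3 9 (.cons 0x7601239854 .nil) (.node 7 9 (.cons 0x1234589760 .nil) (.node 4 9 .nil (.node 0 3 (.cons 0x4598671230 (.cons 0x4930675812 (.cons 0x7123068945 .nil))) .done .done) .done) .done) .done)) .done)) .done) .done)) .done)) (.node 5 7 (.cons 0x8906754321 .nil) (.node 7 9 (.cons 0x1234589760 .nil) (.leaf 0x6798543210 1 (.node 0 7 .nil (.node 1 3 (.cons 0x2134589760 (.cons 0x8907654312 (.cons 0x6079854312 .nil))) (.node 1 4 (.cons 0x5098761432 (.cons 0x9850761432 .nil)) (.node 6 9 (.cons 0x8960754132 (.cons 0x6987054132 .nil)) (.leaf 0x8543210769 0 .done) .done) .done) (.node 2 7 .nil (.node 1 3 (.cons 0x2134589760 (.cons 0x9813450672 (.cons 0x6543127890 .nil))) (.node 4 8 (.cons 0x5670984312 (.cons 0x6132750984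 (.cons 0x3109845672 .nil))) .done .done) (.node 3 7 (.cons 0x5437609812 .nil) (.node 4 7 (.cons 0x9854760123 .nil) .done .done) .done)) .done)) (.node 6 9 .nil (.node 2 5 (.cons 0x4325098761 (.cons 0x3452187690 (.cons 0x8716905234 .nil))) (.node 3 8 (.cons 0x4576098321 (.cons 0x2178345690 (.cons 0x4381769052 (.cons 0x2543817690 .nil)))) .done .done) (.node 6 8 .nil (.node 1 9 (.cons 0x8671905432 (.cons 0x6871905432 .nil)) (.node 2 6 (.cons 0x1987623450 (.cons 0x8762345091 .nil)) .done .done) (.node 4 8 .nil (.node 1 3 (.cons 0x2134567890 (.cons 0x5489760132 (.cons 0x4890576132 (.cons 0x9068457132 .nil)))) .done (.node 3 8 (.cons 0x4576098321 .nil) (.node 0 8 .nil (.node 3 9 (.cons 0x2390684571 (.cons 0x8093456712 (.cons 0x6543908712 .nil))) .done .done) .done) .done)) .done)) .done)) .done))) .done) .done)) .done))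
noncomputable def tc9_2_2 : T := (.node 5 9 (.cons 0x8760954321 .nil) (.node 1 7 (.cons 0x8712345906 .nil) (.node 6 9 (.cons 0x8712345960 .nil) (.node 3 9 (.cons 0x5439067812 .nil) (.node 2 9 (.cons 0x8716059234 .nil) (.node 4 9 (.cons 0x8716059432 .nil) (.node 7 9 .nil (.node 2 8 (.cons 0x6719823450 (.cons 0x4328795061 (.cons 0x3456097821 .nil))) (.leaf 0x5061782349 0 .done) .done) .done) .done) .done) (.node 2 9 (.cons 0x8716059234 .nil) (.node 3 9 (.cons 0x5439067812 .nil) (.node 4 9 (.cons 0x8716059432 .nil) (.node 7 9 .nil (.node 1 3 (.cons 0x2134567890 (.cons 0x8790654312 .nil)) (.node 2 6 (.cons 0x8917623450 (.cons 0x3459781260 (.cons 0x8134509762 .nil))) .done .done) .done) .done) .done) .done) .done)) (.node 5 8 (.cons 0x9067854321 .nil) (.node 5 7 (.cons 0x8759061234 .nil) (.node 1 5 .nil (.node 4 8 (.cons 0x4875906123 .nil) (.node 3 9 (.cons 0x5439067812 (.cons 0x7843906512 (.cons 0x4875160932 .nil))) .done (.node 2 7 (.cons 0x4327619850 (.cons 0x9158432760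 .nil)) (.node 0 3 (.cons 0x8912765430 (.cons 0x9845103276 (.cons 0x2765198430 .nil))) (.node 2 9 (.cons 0x5617843092 (.cons 0x9278430651 (.cons 0x3290678451 .nil))) .done .done) .done) .done)) .done) .done) (.node 5 7 (.cons 0x8759061234 .nil) (.node 1 5 .nil (.node 6 8 (.cons 0x6871234590 .nil) (.node 2 7 (.cons 0x1986723450 (.cons 0x4327689150 .nil)) (.node 2 6 (.cons 0x7812609543 .nil) (.node 3 7 (.cons 0x5437621890 (.cons 0x2673451890 .nil)) (.leaf 0x9062187345 0 .done) .done) .done) (.node 0 2 (.cons 0x1986754320 (.cons 0x7689023451 (.cons 0x9023451786 (.cons 0x6871590234 .nil)))) .done .done)) .done) .done) .done)) .done)) (.node 5 8 (.cons 0x9067854321 .nil) (.node 5 7 .nil (.node 0 4 (.cons 0x7619850432 (.cons 0x9857612340 (.cons 0x3409875612 .nil))) (.node 0 2 (.cons 0x3456789021 (.cons 0x9857612043 (.cons 0x6758912043 .nil))) (.node 0 7 (.cons 0x6198570234 .nil) (.node 0 3 (.cons 0x4307658912 (.cons 0x6754309812 .nil)) .done .done) .done) .done) (.node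 6 9 .nil (.node 0 8 (.cons 0x8091234576 (.cons 0x6908754321 (.cons 0x4321967580 .nil))) .done (.node 6 8 (.cons 0x8675432190 .nil) (.node 2 5 (.cons 0x4325098761 .nil) (.node 3 9 (.cons 0x5439067812 .nil) (.leaf 0x4390678125 1 (.leaf 0x678125439 0 .done)) (.node 1 5 .nil (.node 0 4 (.cons 0x8752340961 (.cons 0x7689045123 (.cons 0x8751690432 .nil))) (.leaf 0x9876152340 0 .done) .done) .done)) .done) .done)) .done)) (.node 0 8 .nil (.node 5 7 (.cons 0x6754321980 (.cons 0x8091234576 .nil)) (.node 4 8 (.cons 0x2348916750 .nil) (.leaf 0x912348576 0 .done) .done) (.node 3 8 (.cons 0x4590678321 .nil) (.node 0 7 (.cons 0x2198345670 .nil) (.node 0 4 (.cons 0x9540678321 .nil) (.node 6 9 (.cons 0x7698321045 .nil) (.node 7 9 (.cons 0x6097854321 .nil) (.node 0 2 (.cons 0x7654389120 .nil) (.node 2 9 (.cons 0x7605438192 .nil) .done .done) .done) .done) (.node 5 7 (.cons 0x3409875612 .nil) (.leaf 0x4321657890 1 (.leaf 0x432165789 0 .done)) .done)) .done) (.node 4 8 .nil (.node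 2 7 (.cons 0x5438190672 (.cons 0x1954832760 (.cons 0x5672190843 (.cons 0x7219065843 (.cons 0x5483276091 .nil))))) .done (.node 0 7 (.cons 0x5076198432 .nil) (.node 6 9 .nil (.node 3 5 (.cons 0x6789012354 (.cons 0x9678453210 (.cons 0x7698453210 .nil))) (.leaf 0x9670123548 0 .done) (.node 7 9 (.cons 0x6097854321 .nil) (.node 2 9 (.cons 0x7601923845 .nil) (.node 3 9 (.cons 0x1239548760 .nil) .done .done) .done) .done)) .done) .done)) .done)) .done)) .done)) .done)) (.node 5 9 (.cons 0x8760954321 .nil) (.node 3 9 (.cons 0x5439067812 .nil) (.node 2 9 .nil (.node 1 3 (.cons 0x2134567890 (.cons 0x6789231054 (.cons 0x8765431290 .nil))) (.node 1 4 (.cons 0x5098761432 (.cons 0x5067814392 (.cons 0x8761432905 .nil))) .done .done) (.node 6 9 .nil (.node 2 5 (.cons 0x4325098761 (.cons 0x3452187690 .nil)) (.node 0 3 (.cons 0x7698125430 (.cons 0x9603452187 .nil)) (.node 0 7 (.cons 0x6521987034 (.cons 0x8706912543 .nil)) .done .done) (.node 1 7 (.cons 0x6178905234 (.cons 0x8719605432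 (.cons 0x8716905234 .nil))) .done .done)) (.node 4 6 (.cons 0x5467890123 .nil) (.node 2 6 (.cons 0x7891054623 .nil) (.node 3 6 (.cons 0x7891054632 .nil) .done .done) (.node 2 6 .nil (.node 3 7 (.cons 0x8734560912 (.cons 0x9187345062 (.cons 0x8734562190 (.cons 0x5437819062 .nil)))) .done (.node 3 6 .nil (.node 0 7 (.cons 0x3459812670 (.cons 0x5436219870 .nil)) (.leaf 0x8192634507 0 .done) .done) .done)) .done)) .done)) .done)) (.node 4 9 .nil (.node 1 5 (.cons 0x2349876150 (.cons 0x8761509432 .nil)) (.node 2 8 (.cons 0x7821906543 (.cons 0x5493287601 .nil)) (.node 1 7 (.cons 0x3945601782 (.cons 0x3490561782 .nil)) .done (.leaf 0x3490516782 1 (.leaf 0x7615094328 0 .done))) .done) (.node 6 9 .nil (.node 3 5 (.cons 0x6789012354 (.cons 0x8769012354 .nil)) (.node 3 8 (.cons 0x9453876012 (.cons 0x7835496012 .nil)) (.node 0 8 (.cons 0x7806912345 .nil) (.leaf 0x1235496780 1 (.node 2 7 (.cons 0x8721906543 (.cons 0x8723450691 (.cons 0x5349612780 (.cons 0x5349608721 (.cons 0x3549608721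 .nil))))) .done .done)) .done) (.node 5 8 (.cons 0x9067854321 (.cons 0x7854321960 .nil)) (.node 1 4 (.cons 0x2390678541 (.cons 0x3214587690 .nil)) (.node 2 7 (.cons 0x2785394160 (.cons 0x8723450691 (.cons 0x4350961872 (.cons 0x3587214960 (.cons 0x4169872350 .nil))))) .done (.leaf 0x678541239 0 .done)) .done) .done)) (.node 2 9 .nil (.node 1 5 (.cons 0x4329876150 (.cons 0x8761509234 .nil)) (.node 6 8 (.cons 0x7860912345 (.cons 0x7860543291 (.cons 0x7860915432 .nil))) .done .done) (.node 7 9 .nil (.node 2 8 (.cons 0x7821906543 (.cons 0x6054328791 (.cons 0x3456097821 .nil))) (.leaf 0x7916054328 0 .done) .done) .done)) .done)) .done)) .done)) (.node 5 7 (.cons 0x8754321906 .nil) (.node 5 8 (.cons 0x9067854321 .nil) (.node 0 8 (.cons 0x9123457806 .nil) (.node 1 7 .nil (.node 0 2 (.cons 0x3456789021 (.cons 0x8902176543 .nil)) (.node 0 3 (.cons 0x9875612034 (.cons 0x8903456712 .nil)) .done .done) (.node 0 7 .nil (.node 1 3 (.cons 0x2134567890 (.cons 0x8907654312 .nil))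 (.node 2 6 (.cons 0x4326198750 (.cons 0x3456219870 (.cons 0x9813450762 (.cons 0x6231987054 .nil)))) .done .done) (.node 4 7 (.cons 0x4785906123 .nil) (.node 3 7 (.cons 0x8734560912 .nil) (.node 7 9 (.cons 0x6097854321 .nil) .done .done) .done) .done)) .done)) .done) .done) (.node 5 8 (.cons 0x9067854321 .nil) (.node 6 9 (.cons 0x7854321960 .nil) (.node 0 8 (.cons 0x8096754321 .nil) (.leaf 0x4576908123 0 (.node 4 7 (.cons 0x6912347580 .nil) (.node 1 7 .nil (.node 0 2 (.cons 0x3456789021 (.cons 0x8902176543 (.cons 0x5698021743 .nil))) .done .done) (.leaf 0x1960857432 0 (.leaf 0x9123475806 1 .done))) .done)) (.node 1 7 (.cons 0x2345871960 .nil) (.node 2 8 (.cons 0x5432871960 .nil) (.leaf 0x4328719605 0 (.leaf 0x1782345069 0 (.node 6 8 (.cons 0x6875432190 .nil) .done .done))) .done) .done)) (.node 0 8 .nil (.node 4 6 (.cons 0x8750916432 (.cons 0x7806459123 (.cons 0x5780916432 .nil))) (.node 2 7 (.cons 0x8721906543 (.cons 0x9127806543 (.cons 0x8091275643 .nil))) (.leaf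 0x6198057234 0 .done) .done) (.node 0 7 .nil (.node 2 5 (.cons 0x4325098761 (.cons 0x6198705234 (.cons 0x6709812543 .nil))) .done (.node 1 7 .nil (.node 2 6 (.cons 0x8750916234 (.cons 0x8905432671 .nil)) (.leaf 0x3458719062 0 (.node 2 8 (.cons 0x7821906543 (.cons 0x9178234506 .nil)) .done .done)) (.node 4 7 (.cons 0x4785906123 .nil) (.node 3 7 (.cons 0x8734560912 .nil) (.node 7 9 (.cons 0x6097854321 .nil) .done .done) .done) .done)) .done)) .done)) .done)) .done)) .done)) .done))
noncomputable def tc9_2_3 : T := (.node 1 9 (.cons 0x9123458760 .nil) (.node 5 9 (.cons 0x8760954321 .nil) (.node 0 7 (.cons 0x9587061234 .nil) (.node 4 9 (.cons 0x7859432160 .nil) (.node 7 9 (.cons 0x8543219760 .nil) (.leaf 0x978123456 1 (.node 5 7 (.cons 0x8759061234 .nil) (.node 1 5 .nil (.node 2 9 (.cons 0x7812906543 (.cons 0x3492158760 .nil)) .done .done) .done) .done)) (.leaf 0x8594321607 0 .done)) (.node 0 8 (.cons 0x9123458067 .nil) (.node 3 8 .nil (.node 4 7 (.cons 0x2347619850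 (.cons 0x7438065912 (.cons 0x5674380912 (.cons 0x9106745832 .nil)))) .done (.node 3 9 (.cons 0x4395870612 .nil) (.node 2 9 (.cons 0x7812906543 .nil) (.node 7 9 (.cons 0x8543219760 .nil) (.leaf 0x978123456 1 .done) .done) .done) .done)) .done) .done)) (.node 5 7 .nil (.node 0 4 (.cons 0x7619850432 (.cons 0x9857612340 (.cons 0x3409875612 .nil))) (.node 0 2 (.cons 0x3456789021 (.cons 0x9857612043 (.cons 0x6758912043 .nil))) (.node 4 6 (.cons 0x5467890123 (.cons 0x9875023461 (.cons 0x7509816432 (.cons 0x7589164320 .nil)))) .done .done) .done) (.node 1 5 .nil (.node 7 9 (.cons 0x8543219760 (.cons 0x6097815432 .nil)) (.node 0 4 (.cons 0x7619850432 (.cons 0x6798512340 (.cons 0x9785123406 .nil))) (.leaf 0x1589760432 0 .done) (.node 4 9 (.cons 0x6187509432 .nil) (.node 0 7 (.cons 0x4958706123 (.cons 0x9432158706 .nil)) .done (.node 0 2 (.cons 0x8576194320 (.cons 0x7615894320 (.cons 0x3497851602 (.cons 0x9432067851 .nil)))) .done .done)) .done)) .done) .done)) .done)) (.node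 3 8 (.cons 0x5438760912 .nil) (.node 2 8 .nil (.node 1 5 (.cons 0x9051678234 (.cons 0x7615098234 .nil)) (.node 2 4 (.cons 0x9150678342 (.cons 0x5091678243 (.cons 0x7651243890 (.cons 0x9065124387 .nil)))) .done .done) (.node 7 9 (.cons 0x3456097812 .nil) (.node 2 9 (.cons 0x7812906543 .nil) (.node 0 7 (.cons 0x4329850761 .nil) (.node 0 8 .nil (.node 1 7 (.cons 0x4385067192 (.cons 0x3456712980 (.cons 0x8092176543 .nil))) .done .done) .done) (.node 3 9 (.cons 0x2193458760 .nil) (.node 0 7 (.cons 0x4397065812 .nil) (.node 0 8 (.cons 0x7608543912 .nil) .done .done) (.node 4 9 (.cons 0x2394587601 .nil) (.leaf 0x678549321 0 .done) .done)) .done)) (.leaf 0x978123456 1 (.node 5 7 .nil (.node 4 9 (.cons 0x9458760123 (.cons 0x2194385760 (.cons 0x5781609432 .nil))) (.node 1 4 (.cons 0x5098761432 (.cons 0x9416057823 (.cons 0x6149057823 (.cons 0x8905761432 .nil)))) .done .done) (.node 6 8 .nil (.node 2 5 (.cons 0x4325098761 (.cons 0x4386752190 (.cons 0x7860912543 .nil))) .done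 (.node 1 5 .nil (.node 4 9 (.cons 0x6187509432 (.cons 0x4901576832 (.cons 0x7834906512 (.cons 0x3287609451 .nil)))) .done (.node 2 5 (.cons 0x4325098761 .nil) (.node 3 5 (.cons 0x6789012354 .nil) .done .done) .done)) .done)) .done)) .done))) .done)) (.node 7 9 (.cons 0x3456097812 .nil) (.node 0 7 .nil (.node 3 9 (.cons 0x2193458760 (.cons 0x4397065812 (.cons 0x6078543912 .nil))) .done (.node 3 9 (.cons 0x2193458760 .nil) (.node 3 6 (.cons 0x4589367012 .nil) (.node 1 3 (.cons 0x2134567890 .nil) (.node 3 7 (.cons 0x9065437812 .nil) .done .done) .done) (.node 4 8 .nil (.node 2 7 (.cons 0x4391605872 (.cons 0x5061934872 (.cons 0x5612784390 (.cons 0x3906548721 .nil)))) .done (.node 5 7 (.cons 0x5784390612 .nil) (.node 3 5 (.cons 0x4356097812 .nil) (.node 2 5 (.cons 0x6125784390 .nil) (.leaf 0x3489076125 1 (.leaf 0x1670984352 0 .done)) .done) (.node 4 6 (.cons 0x8754609321 .nil) (.leaf 0x5781239064 0 (.leaf 0x932187546 1 (.leaf 0x3978546012 1 .done))) .done)) .done)) .done))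 .done)) (.leaf 0x978123456 1 (.node 4 8 .nil (.node 3 5 (.cons 0x6789012354 (.cons 0x9012354876 (.cons 0x6097845321 .nil))) (.leaf 0x678453219 0 .done) (.node 5 7 .nil (.node 0 4 (.cons 0x9857612340 (.cons 0x3409875612 .nil)) (.node 3 9 (.cons 0x2193458760 (.cons 0x8540679321 (.cons 0x6045879321 (.cons 0x4390657812 .nil)))) .done .done) (.node 0 8 .nil (.node 4 9 (.cons 0x6187509432 (.cons 0x9432167580 (.cons 0x3490875612 .nil))) (.leaf 0x7612349085 0 .done) (.node 0 2 (.cons 0x3456789021 .nil) (.node 2 8 (.cons 0x6754382091 .nil) (.leaf 0x916754382 0 .done) (.node 0 3 .nil (.node 0 4 (.cons 0x6798540321 .nil) .done (.node 0 4 (.cons 0x6798540321 .nil) .done .done)) .done)) .done)) .done)) .done)) .done))) .done)) .done)) (.node 5 9 (.cons 0x8760954321 .nil) (.node 1 9 (.cons 0x4587609123 .nil) (.node 7 9 (.cons 0x3456097812 .nil) (.node 0 7 .nil (.node 1 4 (.cons 0x5098761432 (.cons 0x8950761432 (.cons 0x6709854123 .nil))) (.node 3 8 (.cons 0x5438760912 (.cons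 0x6701238954 (.cons 0x6709583214 (.cons 0x4167095832 .nil)))) .done .done) (.node 0 8 .nil (.node 1 7 (.cons 0x6712345980 (.cons 0x8095432176 .nil)) (.node 2 8 (.cons 0x7608219543 .nil) (.leaf 0x954328176 0 .done) .done) (.node 2 8 .nil (.node 1 3 (.cons 0x2134567890 (.cons 0x9134506782 (.cons 0x7659082134 (.cons 0x7654312890 .nil)))) .done (.node 3 8 (.cons 0x5438760912 .nil) (.node 6 8 .nil (.node 3 7 (.cons 0x8219543760 (.cons 0x4598673210 (.cons 0x8673210954 .nil))) .done .done) .done) .done)) .done)) .done)) (.leaf 0x978123456 1 (.node 6 9 .nil (.node 3 5 (.cons 0x6789012354 (.cons 0x4532187960 (.cons 0x8769012354 .nil))) (.node 2 5 (.cons 0x4325098761 (.cons 0x7816905234 .nil)) (.node 0 7 (.cons 0x8706912534 (.cons 0x4352169870 .nil)) (.leaf 0x8123456907 0 .done) .done) .done) (.node 4 9 .nil (.node 3 5 (.cons 0x6789012354 (.cons 0x6789453210 (.cons 0x7853216094 .nil))) (.node 2 8 (.cons 0x4532876901 (.cons 0x2876194350 (.cons 0x1287653490 .nil))) .done .done)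 (.node 2 9 (.cons 0x7812906543 .nil) (.node 3 9 (.cons 0x4587609321 .nil) .done .done) .done)) .done)) .done))) .done) (.node 5 7 (.cons 0x8759061234 .nil) (.node 1 9 (.cons 0x4587609123 .nil) (.node 2 8 (.cons 0x4328916750 .nil) (.node 6 8 (.cons 0x7860954321 .nil) (.node 4 8 (.cons 0x2348916750 .nil) (.node 0 8 (.cons 0x6754321980 .nil) (.node 3 8 (.cons 0x7609123854 .nil) .done .done) .done) .done) (.node 0 4 (.cons 0x6750432891 .nil) (.node 1 5 (.cons 0x7651289043 .nil) (.node 2 5 (.cons 0x4325098761 .nil) (.node 3 5 (.cons 0x7653409821 .nil) .done .done) .done) (.leaf 0x3289167504 1 (.leaf 0x5761982340 0 .done))) .done)) (.node 1 7 (.cons 0x8712345906 .nil) (.node 0 8 (.cons 0x9578061234 .nil) (.node 4 9 (.cons 0x8759432160 .nil) (.leaf 0x2349578061 0 (.leaf 0x7594321608 0 .done)) (.node 0 7 .nil (.node 1 3 (.cons 0x2134567890 (.cons 0x8907654312 .nil)) (.node 1 4 (.cons 0x5098761432 (.cons 0x6709854123 .nil)) .done .done) (.node 3 7 (.cons 0x9065437812 .nil)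 (.node 7 9 (.cons 0x3456097812 .nil) (.node 2 7 .nil (.node 0 2 (.cons 0x6543720981 .nil) (.leaf 0x3720981654 0 .done) .done) .done) .done) .done)) .done)) .done) .done)) (.node 1 7 (.cons 0x8712345906 .nil) (.node 2 8 (.cons 0x9506178234 .nil) (.node 2 5 (.cons 0x4325098761 .nil) (.node 6 8 (.cons 0x9543217860 .nil) (.node 1 5 .nil (.node 2 6 (.cons 0x4326178950 .nil) (.node 2 9 (.cons 0x7812906543 (.cons 0x4329517860 .nil)) .done .done) .done) .done) .done) (.node 0 8 (.cons 0x9543217806 .nil) (.node 2 7 .nil (.node 0 4 (.cons 0x6178950432 (.cons 0x8950432716 (.cons 0x5612789043 .nil))) .done (.node 2 9 (.cons 0x7812906543 .nil) (.node 2 5 (.cons 0x4325098761 .nil) (.node 2 6 (.cons 0x4326178950 .nil) .done .done) .done) .done)) .done) .done)) (.node 1 9 (.cons 0x4587609123 .nil) (.node 0 7 .nil (.node 6 8 (.cons 0x8675432190 (.cons 0x5432198670 (.cons 0x6819075432 .nil))) .done (.node 7 9 (.cons 0x3456097812 .nil) (.leaf 0x978123456 1 (.node 2 9 (.cons 0x7812906543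 .nil) (.node 3 9 (.cons 0x4587609321 .nil) (.node 3 7 (.cons 0x9065437812 .nil) (.node 6 9 (.cons 0x8732106954 .nil) .done .done) .done) .done) .done)) .done)) .done) .done)) .done)) .done)) .done))
noncomputable def tc9_2_4 : T := (.node 2 9 (.cons 0x6789231054 (.cons 0x7892134560 (.cons 0x4506789231 .nil))) (.node 1 8 (.cons 0x7605431892 .nil) (.node 0 7 (.cons 0x8129076543 (.cons 0x6705431892 .nil)) (.leaf 0x1345607892 0 .done) (.node 0 8 (.cons 0x7608921345 .nil) (.node 4 7 (.cons 0x5674312980 (.cons 0x7432981605 (.cons 0x8923106745 .nil))) (.node 0 7 (.cons 0x8921345670 .nil) (.node 1 7 (.cons 0x4317650892 .nil) .done .done) (.node 3 8 (.cons 0x6745013892 (.cons 0x5476013892 .nil)) .done .done)) .done) .done)) (.node 2 4 (.cons 0x1342987650 .nil) (.node 3 9 (.cons 0x3987654210 (.cons 0x5423987601 .nil)) (.node 1 9 (.cons 0x6789105423 .nil) (.leaf 0x5067891324 0 (.node 3 5 (.cons 0x9876105324 (.cons 0x8760534291 (.cons 0x7891605342 .nil))) .done .done)) (.leaf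 0x2450167893 1 .done)) (.node 1 8 (.cons 0x9243187650 (.cons 0x9243187605 .nil)) (.node 7 9 (.cons 0x9781324506 .nil) (.leaf 0x8123456097 0 (.node 3 5 (.cons 0x6187905342 (.cons 0x7812906534 (.cons 0x8790612435 .nil))) (.node 2 7 (.cons 0x9056187243 (.cons 0x4350618972 .nil)) (.node 4 7 (.cons 0x6189053274 (.cons 0x9816053274 (.cons 0x4729813560 .nil))) .done .done) .done) (.leaf 0x978123456 1 .done))) .done) (.leaf 0x5678924310 0 (.node 3 7 (.cons 0x5612437890 (.cons 0x5609873421 (.cons 0x9873106542 .nil))) (.node 5 7 (.cons 0x3421657890 (.cons 0x9875061324 .nil)) (.node 3 9 (.cons 0x6105789324 (.cons 0x8932106754 (.cons 0x6012398754 (.cons 0x7893106542 .nil)))) .done .done) .done) .done)))) .done)) (.node 3 5 (.cons 0x6789012354 (.cons 0x9876012354 .nil)) (.node 1 7 (.cons 0x8906712345 .nil) (.node 0 3 (.cons 0x6543098712 .nil) (.node 0 2 (.cons 0x8902176543 .nil) (.node 3 9 (.cons 0x8765439021 (.cons 0x8712093456 .nil)) (.node 2 4 (.cons 0x5678903421 (.cons 0x5423987601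 (.cons 0x8903421765 .nil))) (.node 2 6 (.cons 0x8905432671 .nil) (.leaf 0x4317890562 1 (.leaf 0x5098713426 0 .done)) .done) .done) (.node 2 4 (.cons 0x5678903421 (.cons 0x9871650243 (.cons 0x8903421765 .nil))) (.node 2 6 (.cons 0x8905432671 .nil) (.leaf 0x5431789026 0 (.leaf 0x987134562 1 .done)) .done) .done)) .done) (.node 2 9 (.cons 0x8765431290 (.cons 0x8923450671 (.cons 0x6054329871 .nil))) (.node 1 8 (.cons 0x4318765092 (.cons 0x4350671892 .nil)) (.node 4 7 (.cons 0x8901235476 (.cons 0x5609218743 (.cons 0x6053471892 (.cons 0x2981743560 .nil)))) .done .done) (.leaf 0x8716054329 0 .done)) (.node 3 6 (.cons 0x5436098712 .nil) (.node 5 9 (.cons 0x4598763210 (.cons 0x2178954360 .nil)) (.node 1 4 (.cons 0x5098761432 (.cons 0x3214598760 (.cons 0x7895412360 .nil))) (.node 1 9 (.cons 0x4501987632 .nil) (.node 2 5 (.cons 0x4325098761 (.cons 0x7891605234 (.cons 0x9871254360 .nil))) (.leaf 0x3416789052 1 .done) .done) .done) .done) (.node 1 5 (.cons 0x4510987632 .nil)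 (.node 1 4 (.cons 0x5098761432 .nil) (.node 2 5 (.cons 0x4523678901 (.cons 0x2543609871 .nil)) (.leaf 0x3416789052 1 (.leaf 0x987614325 0 .done)) (.node 1 8 (.cons 0x9067812345 .nil) (.node 2 5 (.cons 0x4523678901 (.cons 0x9018763254 (.cons 0x2543609871 (.cons 0x7890632541 .nil)))) .done .done) .done)) (.node 4 7 (.cons 0x6150987432 (.cons 0x9874510632 (.cons 0x5160987432 .nil))) (.node 2 8 (.cons 0x4536710982 (.cons 0x9065431287 (.cons 0x9065128743 (.cons 0x9063287451 .nil)))) (.node 6 8 (.cons 0x9068745123 .nil) .done .done) .done) .done)) .done)) .done))) (.node 4 7 (.cons 0x2165347890 (.cons 0x9874532106 (.cons 0x5347890612 .nil))) (.node 5 8 (.cons 0x9061235874 .nil) (.node 6 9 (.cons 0x8547690123 (.cons 0x4587690132 (.cons 0x4785321690 .nil))) .done (.node 6 8 (.cons 0x9068745321 .nil) (.node 2 8 (.cons 0x9065431287 (.cons 0x9065347821 .nil)) (.node 6 9 (.cons 0x7453286901 (.cons 0x4509678231 .nil)) .done (.node 1 9 (.cons 0x6782319054 (.cons 0x7453286091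 (.cons 0x9160587432 (.cons 0x6091287453 .nil)))) .done .done)) .done) .done)) (.node 2 4 (.cons 0x3561098742 .nil) (.node 3 9 (.cons 0x3987654210 (.cons 0x2478935601 (.cons 0x5423987601 .nil))) (.node 0 3 (.cons 0x9876542103 .nil) (.node 1 9 (.cons 0x5678912430 (.cons 0x7891243065 (.cons 0x7891605342 .nil))) .done .done) .done) (.leaf 0x1098742356 0 (.node 5 8 (.cons 0x5890167423 (.cons 0x7423589061 .nil)) (.node 7 9 (.cons 0x7985342160 .nil) (.leaf 0x8543210679 0 (.leaf 0x6798543210 1 (.node 0 3 (.cons 0x4589760321 .nil) (.node 0 8 (.cons 0x9742316085 (.cons 0x9760854213 .nil)) .done .done) .done))) .done) (.node 3 7 (.cons 0x5612437890 (.cons 0x5609873421 .nil)) (.leaf 0x4378905612 1 .done) .done)))) .done)) .done)) (.node 3 5 (.cons 0x6789012354 (.cons 0x9876012354 .nil)) (.node 5 7 (.cons 0x8906754321 .nil) (.node 6 8 (.cons 0x4576890132 .nil) (.leaf 0x7543210986 0 (.node 0 3 (.cons 0x4309875612 .nil) (.node 2 4 (.cons 0x5678903421 (.cons 0x3421657890 .nil))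 (.node 3 9 (.cons 0x3987654210 (.cons 0x6578930124 (.cons 0x5423987601 .nil))) .done (.node 0 8 (.cons 0x9087561243 (.cons 0x9086754213 .nil)) .done (.leaf 0x5768901324 0 .done))) .done) .done)) (.node 4 9 (.cons 0x8945760123 (.cons 0x5789432160 (.cons 0x8945760132 .nil))) (.node 0 3 (.cons 0x2165789430 .nil) (.node 0 8 (.cons 0x7809435612 (.cons 0x9806754312 .nil)) .done .done) (.leaf 0x8750612349 0 .done)) (.node 3 6 (.cons 0x4578906321 .nil) (.node 1 9 (.cons 0x4501987632 (.cons 0x4578912360 .nil)) (.node 2 5 (.cons 0x4325098761 (.cons 0x3452198760 (.cons 0x7891254360 .nil))) (.node 5 9 (.cons 0x4598763210 .nil) (.node 4 7 (.cons 0x8905234761 (.cons 0x5987432160 (.cons 0x8743216095 (.cons 0x8743590612 .nil)))) (.node 1 8 (.cons 0x5234761890 (.cons 0x7432598160 (.cons 0x9810632547 .nil))) .done .done) .done) .done) .done) (.node 1 5 (.cons 0x4510987632 .nil) (.node 2 5 (.cons 0x4523678901 .nil) (.node 1 8 (.cons 0x7618905234 (.cons 0x7609812543 .nil)) (.node 1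 7 (.cons 0x8901763254 (.cons 0x7189063452 .nil)) (.node 7 9 (.cons 0x4356097812 (.cons 0x8179063452 .nil)) (.leaf 0x8123456097 0 (.leaf 0x978123456 1 .done)) .done) .done) (.node 4 7 (.cons 0x6325478901 (.cons 0x9874523601 (.cons 0x5216098743 (.cons 0x9874325160 .nil)))) (.leaf 0x3251609874 0 .done) .done)) (.node 5 8 (.cons 0x9067854321 .nil) (.node 2 7 (.cons 0x6150987234 (.cons 0x9872360154 (.cons 0x4312765890 .nil))) (.node 4 9 (.cons 0x8723490516 (.cons 0x8509432761 (.cons 0x6327854901 (.cons 0x2167853490 (.cons 0x6158723490 .nil))))) .done .done) (.node 7 9 (.cons 0x2134589760 (.cons 0x4589760132 .nil)) (.leaf 0x8543210679 0 (.leaf 0x6798543210 1 .done)) .done)) .done)) .done)) .done))) (.node 4 7 (.cons 0x2165347890 (.cons 0x9874532106 (.cons 0x5347890612 .nil))) (.node 5 8 (.cons 0x9061235874 .nil) (.node 2 9 (.cons 0x8743561290 (.cons 0x8509234761 (.cons 0x3478561290 (.cons 0x8567431290 (.cons 0x8509231674 .nil))))) .done (.node 2 9 (.cons 0x8743561290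 (.cons 0x9234785061 (.cons 0x8743560921 .nil))) (.leaf 0x674589231 0 (.leaf 0x6745892310 1 .done)) .done)) (.node 5 8 (.cons 0x6745890132 (.cons 0x9854760132 .nil)) (.node 2 4 (.cons 0x3561098742 (.cons 0x7423589061 (.cons 0x7423160985 .nil))) (.node 3 9 (.cons 0x3987654210 (.cons 0x2478935601 (.cons 0x5423987601 .nil))) .done (.leaf 0x1098742356 0 .done)) .done) .done)) .done)) .done)))
noncomputable def tc9_2_5 : T := (.node 1 3 (.cons 0x2134567890 (.cons 0x7890654312 .nil)) tc9_2_4 (.node 1 8 (.cons 0x9067812345 .nil) (.node 5 8 (.cons 0x9067854321 .nil) (.node 5 9 (.cons 0x9543218760 .nil) (.node 1 9 (.cons 0x9187605432 .nil) (.node 2 9 (.cons 0x9234506781 .nil) (.leaf 0x678192345 1 (.leaf 0x5067819234 0 .done)) (.node 1 7 .nil (.node 2 9 (.cons 0x9234506781 (.cons 0x8712906543 (.cons 0x8176059234 .nil))) (.node 0 2 (.cons 0x3456789021 (.cons 0x8902176543 (.cons 0x6718950234 .nil))) (.node 4 6 (.cons 0x5467890123 (.cons 0x9871643205 (.cons 0x3298176450 (.cons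 0x3290645871 .nil)))) .done .done) .done) (.node 1 5 .nil (.node 4 9 (.cons 0x6178509432 (.cons 0x7851609432 .nil)) (.node 2 6 (.cons 0x9058716234 (.cons 0x7894326150 .nil)) (.leaf 0x3490587162 1 (.leaf 0x1785094326 0 .done)) .done) .done) .done)) .done)) (.node 3 8 (.cons 0x4590678321 .nil) (.node 2 8 .nil (.node 1 9 (.cons 0x9187605432 (.cons 0x9182345067 (.cons 0x7821906543 .nil))) (.node 1 5 (.cons 0x9051678234 (.cons 0x7615098234 .nil)) (.node 2 4 (.cons 0x9150678342 (.cons 0x5091678243 (.cons 0x7651243890 (.cons 0x9065124387 .nil)))) .done .done) .done) (.node 6 8 .nil (.node 1 9 (.cons 0x9187605432 (.cons 0x7860912345 .nil)) (.node 2 9 (.cons 0x9234506781 .nil) (.node 1 4 (.cons 0x5098761432 (.cons 0x7861432905 (.cons 0x7860954123 .nil))) (.node 1 7 (.cons 0x8712906543 (.cons 0x3456871290 .nil)) .done .done) (.leaf 0x6054329187 0 .done)) (.node 1 7 (.cons 0x5432176890 .nil) (.node 0 3 (.cons 0x8903456712 (.cons 0x6543098712 .nil)) (.node 2 6 (.cons 0x9126034587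 (.cons 0x9817623450 .nil)) .done .done) (.node 1 4 (.cons 0x5098761432 (.cons 0x9054176823 (.cons 0x7860954123 .nil))) .done .done)) .done)) (.node 6 9 .nil (.node 3 7 (.cons 0x9601237854 (.cons 0x6901237854 .nil)) (.node 0 3 (.cons 0x4567309821 (.cons 0x7812306954 .nil)) .done (.node 2 4 (.cons 0x4237859061 (.cons 0x9678105423 (.cons 0x5423769810 (.cons 0x1873245960 .nil)))) (.node 1 4 (.cons 0x3241678950 (.cons 0x1423876950 (.cons 0x7698324105 (.cons 0x2378145960 .nil)))) (.leaf 0x7859601423 0 .done) .done) .done)) (.node 4 6 (.cons 0x5467890123 .nil) (.node 3 6 .nil (.node 1 9 (.cons 0x9187605432 (.cons 0x7891054632 (.cons 0x7854360912 .nil))) .done .done) .done) .done)) .done)) .done)) (.node 4 8 .nil (.node 1 5 (.cons 0x9051678432 (.cons 0x7615098432 .nil)) (.node 7 9 (.cons 0x6097854321 (.cons 0x6097851234 .nil)) (.node 2 4 (.cons 0x4238761590 (.cons 0x7906158342 (.cons 0x5160978342 .nil))) (.node 0 3 (.cons 0x4230598761 (.cons 0x3067954812 (.cons 0x5978421603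 (.cons 0x9876512430 .nil)))) .done .done) (.node 0 2 (.cons 0x3456789021 (.cons 0x6798154320 (.cons 0x9781543206 .nil))) (.leaf 0x1897602345 1 .done) .done)) .done) (.node 0 4 (.cons 0x9540678123 .nil) (.node 6 8 .nil (.node 5 7 (.cons 0x9816750432 (.cons 0x9867540123 (.cons 0x9043216857 .nil))) .done (.node 2 8 .nil (.node 1 5 (.cons 0x7689045123 (.cons 0x9051678234 (.cons 0x7615098234 .nil))) .done (.node 0 8 .nil (.node 3 9 (.cons 0x4593218760 (.cons 0x7608123954 .nil)) (.node 5 7 (.cons 0x4578609321 (.cons 0x4089576123 (.cons 0x4390875612 .nil))) .done (.leaf 0x2187604593 0 .done)) .done) .done)) .done)) (.node 5 7 (.cons 0x3409875612 .nil) (.leaf 0x4321657890 1 (.leaf 0x432165789 0 .done)) .done)) .done)) .done)) .done)) (.node 5 9 (.cons 0x9543218760 .nil) (.node 1 9 (.cons 0x9187605432 .nil) (.node 2 9 (.cons 0x9234506781 .nil) (.leaf 0x678192345 1 (.leaf 0x5067819234 0 .done)) (.node 1 7 .nil (.node 0 2 (.cons 0x3456789021 (.cons 0x8902176543 (.cons 0x6718950234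 .nil))) (.node 2 8 (.cons 0x9506718234 .nil) (.node 6 8 (.cons 0x9543206817 .nil) .done .done) .done) (.node 6 8 (.cons 0x8671234590 .nil) (.node 1 5 .nil (.node 0 2 (.cons 0x3456789021 (.cons 0x7689023451 (.cons 0x9023451786 (.cons 0x8671590234 .nil)))) .done (.node 1 3 (.cons 0x2134567890 .nil) (.node 1 4 (.cons 0x5098761432 .nil) .done .done) .done)) .done) .done)) .done)) (.node 6 8 (.cons 0x7860954321 .nil) (.node 4 6 (.cons 0x5467890123 .nil) (.node 3 6 (.cons 0x7895463210 .nil) (.node 6 9 (.cons 0x7812345960 .nil) (.node 2 6 .nil (.node 1 7 (.cons 0x2346178950 (.cons 0x1786234590 (.cons 0x8712609543 .nil))) .done .done) .done) .done) (.node 6 9 (.cons 0x7812345960 .nil) (.node 2 6 .nil (.node 1 7 (.cons 0x3217645890 (.cons 0x1786234590 (.cons 0x8712609543 .nil))) .done (.node 3 6 .nil (.node 0 4 (.cons 0x7895043261 (.cons 0x7895401263 .nil)) (.node 5 7 (.cons 0x9875043261 (.cons 0x1236987540 (.cons 0x9632187540 .nil))) .done .done) .done) .done)) .done) .done))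 .done) .done)) .done)) (.node 5 8 (.cons 0x9067854321 .nil) tc9_2_3 (.node 1 9 (.cons 0x8760912345 .nil) tc9_2_2 .done))) (.node 5 8 (.cons 0x7609854321 .nil) (.node 1 8 (.cons 0x7609812345 .nil) tc9_2_1 (.node 1 8 (.cons 0x7609812345 .nil) (.node 1 7 (.cons 0x9817605432 .nil) (.node 5 7 (.cons 0x9812345760 .nil) (.node 4 7 (.cons 0x9857432160 .nil) (.leaf 0x1609857432 0 (.leaf 0x6123475890 1 .done)) (.node 5 9 .nil (.node 4 7 (.cons 0x4758906123 (.cons 0x8954760123 (.cons 0x8590617432 .nil))) (.node 0 2 (.cons 0x3456789021 (.cons 0x6120958743 (.cons 0x5981206743 .nil))) (.node 3 8 (.cons 0x4576098321 (.cons 0x6095834712 (.cons 0x4387165902 .nil))) .done .done) .done) (.node 1 5 .nil (.node 2 7 (.cons 0x4327618950 (.cons 0x9815067234 .nil)) (.node 0 4 (.cons 0x8950432761 (.cons 0x9872340516 .nil)) (.leaf 0x3276189504 1 (.leaf 0x5981672340 0 .done)) .done) .done) .done)) .done)) (.node 3 8 (.cons 0x5438906712 .nil) (.node 2 8 .nil (.node 1 5 (.cons 0x9051678234 (.cons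 0x7615098234 .nil)) (.node 7 9 (.cons 0x5432189760 (.cons 0x2345189760 .nil)) (.node 4 6 (.cons 0x5467890123 (.cons 0x7985123460 (.cons 0x6432158790 .nil))) (.leaf 0x5879064321 1 .done) (.node 1 4 (.cons 0x9760541823 (.cons 0x7614328905 .nil)) (.node 2 4 (.cons 0x4238976051 (.cons 0x9760518324 (.cons 0x7651243890 .nil))) .done .done) .done)) .done) (.node 2 6 (.cons 0x7126098543 .nil) (.node 1 9 (.cons 0x1987623450 .nil) (.leaf 0x6234501987 0 (.leaf 0x2345019876 1 .done)) (.node 0 8 .nil (.node 1 9 (.cons 0x9187623450 (.cons 0x9180543267 (.cons 0x7809126543 .nil))) .done (.node 4 8 .nil (.node 1 5 (.cons 0x9087621543 (.cons 0x9051678432 (.cons 0x7615098432 .nil))) .done (.node 6 8 .nil (.node 1 9 (.cons 0x9187623450 (.cons 0x7862345091 .nil)) (.node 1 3 (.cons 0x2134567890 (.cons 0x7682319054 (.cons 0x9054317862 .nil))) .done .done) .done) .done)) .done)) .done)) .done)) (.node 4 8 .nil (.node 5 7 (.cons 0x9812345760 (.cons 0x9845760123 (.cons 0x9061234857 .nil)))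 (.node 1 5 (.cons 0x9051678432 (.cons 0x7615098432 .nil)) (.node 2 4 (.cons 0x9832451067 (.cons 0x9015423876 (.cons 0x3248905761 (.cons 0x7516098324 .nil)))) .done .done) .done) (.node 0 8 .nil (.node 5 7 (.cons 0x9812345760 (.cons 0x9806754321 .nil)) (.node 4 7 (.cons 0x7432160985 .nil) (.node 1 5 (.cons 0x9805167432 .nil) (.node 0 7 (.cons 0x9851234706 .nil) .done .done) (.leaf 0x612347589 0 .done)) (.node 5 9 (.cons 0x7608954321 .nil) (.node 0 4 (.cons 0x8761234095 .nil) (.node 2 7 (.cons 0x5612789043 (.cons 0x4598327601 (.cons 0x2783409561 (.cons 0x4327605981 .nil)))) .done .done) (.node 2 5 (.cons 0x4325098761 (.cons 0x9806712543 (.cons 0x7612590843 .nil))) .done .done)) .done)) (.node 0 7 .nil (.node 3 9 (.cons 0x2189345670 (.cons 0x7065439812 .nil)) (.node 3 6 (.cons 0x9854360712 (.cons 0x5487639012 .nil)) .done (.node 0 2 (.cons 0x3456789021 .nil) (.leaf 0x6702189345 0 (.node 2 4 (.cons 0x5067189342 (.cons 0x7065893421 (.cons 0x6587093421 (.cons 0x7098561243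 .nil)))) .done .done)) .done)) (.node 0 2 (.cons 0x3456789021 .nil) (.node 0 3 .nil (.node 5 7 (.cons 0x9812345760 (.cons 0x9875612034 (.cons 0x9812306754 .nil))) .done .done) .done) .done)) .done)) .done)) .done)) .done)) (.node 1 7 (.cons 0x8906712345 .nil) (.node 0 8 (.cons 0x9806712345 .nil) (.node 0 2 (.cons 0x3456789021 .nil) (.node 0 7 (.cons 0x9854321706 .nil) (.node 0 4 .nil (.node 5 9 (.cons 0x8954321760 (.cons 0x3408956712 (.cons 0x8954067123 .nil))) .done (.node 0 3 .nil (.node 2 4 (.cons 0x9876542103 (.cons 0x9803421765 .nil)) (.node 1 3 (.cons 0x9805671342 (.cons 0x7890561342 .nil)) (.leaf 0x7890132456 1 .done) .done) .done) .done)) .done) (.node 0 3 (.cons 0x9871203456 .nil) (.node 0 7 (.cons 0x9854321706 .nil) (.node 0 4 .nil (.node 5 9 (.cons 0x8954321760 (.cons 0x3408956712 (.cons 0x8954067123 .nil))) .done .done) .done) .done) .done)) .done) (.node 5 7 (.cons 0x8906754321 .nil) (.node 4 7 (.cons 0x9857432160 .nil) (.leaf 0x1609857432 0 (.leaf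 0x6123475890 1 .done)) (.node 5 9 .nil (.node 4 6 (.cons 0x9058716432 (.cons 0x8764590123 (.cons 0x2346178590 .nil))) (.node 0 2 (.cons 0x3456789021 (.cons 0x6781209543 (.cons 0x7895023461 .nil))) (.node 3 5 (.cons 0x7602189534 (.cons 0x9534678120 (.cons 0x7643598120 .nil))) .done .done) .done) (.node 0 8 (.cons 0x8095432176 .nil) (.node 1 5 .nil (.node 4 6 (.cons 0x9058716432 (.cons 0x7643215980 (.cons 0x9087643215 (.cons 0x8095176432 .nil)))) .done (.node 2 5 (.cons 0x4325098761 .nil) (.node 3 5 (.cons 0x6789012354 .nil) .done .done) .done)) .done) .done)) .done)) .done)) .done)) (.node 5 7 (.cons 0x8906754321 .nil) tc9_2_0 .done))) .done)))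
noncomputable def uc9_2_0 : T := tc9_2_5
theorem sub_c9_2_0 : root 9 refs9_2 [] 0x700000008706000000006050000000050300040000304000200004010000000010300000000302000040002018000200010 0xfe7fff3fff9fffc7ffe3ffedfff5fff3ffe9fef9 9 0 6 .nil uc9_2_0 = true := by decide +kernel
noncomputable def tc9_2_6 : T := (.node 4 6 (.cons 0x5467890123 .nil) (.node 5 9 (.cons 0x8764590123 .nil) (.node 0 6 (.cons 0x8954760123 .nil) (.node 0 8 (.cons 0x5980674321 .nil) (.node 5 7 (.cons 0x6089574321 .nil) (.node 1 7 (.cons 0x9580647123 .nil) (.node 3 7 (.cons 0x9580647321 .nil) (.node 7 9 (.cons 0x2379085461 .nil) (.leaf 0x6458097321 0 .done) .done) .done) .done) .done) .done) (.node 0 6 .nil (.node 1 7 (.cons 0x8712345906 (.cons 0x8950617432 .nil)) (.node 0 8 (.cons 0x3465908712 .nil) (.leaf 0x7123465908 0 .done) .done) (.node 5 7 (.cons 0x8957432160 .nil) (.node 1 7 (.cons 0x8950617432 .nil) (.node 0 8 (.cons 0x3465908712 .nil) (.leaf 0x7123465908 0 .done) .done) .done) .done)) .done))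 (.node 5 7 .nil (.node 6 8 (.cons 0x1234576890 .nil) (.node 2 8 (.cons 0x7546109823 (.cons 0x4328905761 .nil)) (.node 3 8 (.cons 0x7546109832 (.cons 0x4576109832 .nil)) (.node 2 4 (.cons 0x9832476105 (.cons 0x5764238901 (.cons 0x7561243890 .nil))) (.node 0 8 (.cons 0x9083421657 .nil) .done .done) .done) .done) (.leaf 0x7543210986 0 (.leaf 0x9867543210 1 .done))) (.node 2 7 (.cons 0x8905432761 .nil) (.node 1 7 .nil (.node 3 5 (.cons 0x2354678901 (.cons 0x8901764532 (.cons 0x4617235890 .nil))) (.node 0 2 (.cons 0x9876453201 (.cons 0x3209854671 (.cons 0x7164589023 .nil))) (.node 0 4 (.cons 0x9853271640 .nil) (.leaf 0x2358904617 1 (.leaf 0x7235890461 0 .done)) .done) .done) .done) (.node 1 7 .nil (.node 0 6 (.cons 0x4589067123 .nil) (.node 3 5 (.cons 0x2354678901 (.cons 0x9876012354 (.cons 0x8901764532 (.cons 0x9874532106 .nil)))) .done (.leaf 0x7123456098 0 (.node 0 2 (.cons 0x3456789021 (.cons 0x3209854671 (.cons 0x7164589023 .nil))) (.node 0 3 (.cons 0x9854761230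 (.cons 0x2309854671 (.cons 0x6543098712 .nil))) .done .done) .done))) (.node 3 7 .nil (.node 2 4 (.cons 0x8901245673 (.cons 0x8905617342 .nil)) (.node 1 3 (.cons 0x6509871342 .nil) (.leaf 0x8765423109 0 (.leaf 0x7890132456 1 .done)) (.node 2 8 (.cons 0x9823761054 (.cons 0x7345612890 .nil)) (.node 0 3 (.cons 0x9034567821 (.cons 0x7654309821 (.cons 0x8903721654 .nil))) (.node 0 8 (.cons 0x9082346175 .nil) .done .done) (.node 1 4 (.cons 0x8905416723 (.cons 0x7341650982 (.cons 0x9058241673 .nil))) .done .done)) .done)) (.node 7 9 .nil (.node 3 8 (.cons 0x4509832761 (.cons 0x4501679832 (.cons 0x6105479832 .nil))) (.node 0 8 (.cons 0x4380975612 .nil) (.node 2 8 (.cons 0x1679823450 (.cons 0x4382165790 .nil)) .done .done) .done) .done) .done)) .done)) .done)) .done)) .done)) (.node 0 8 (.cons 0x9085476123 .nil) (.node 5 7 .nil (.node 3 8 (.cons 0x5438907612 (.cons 0x9083475612 (.cons 0x4576109832 .nil))) (.node 0 4 (.cons 0x9832104576 .nil) (.node 2 9 (.cons 0x5438921670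 (.cons 0x7654012983 (.cons 0x6129834570 (.cons 0x9216574380 (.cons 0x5407612983 .nil))))) .done .done) .done) (.node 3 7 (.cons 0x9085473216 .nil) (.node 1 7 .nil (.node 0 4 (.cons 0x9804375612 .nil) (.node 2 4 (.cons 0x3765890421 (.cons 0x9805617342 (.cons 0x8905617342 .nil))) .done .done) .done) (.node 0 4 .nil (.node 2 8 (.cons 0x9823761045 (.cons 0x9823405761 .nil)) (.node 0 3 (.cons 0x9034567821 (.cons 0x7654309821 (.cons 0x9857612304 .nil))) .done .done) (.node 1 7 .nil (.node 6 9 (.cons 0x7543216980 (.cons 0x3408965712 (.cons 0x2345716980 (.cons 0x6980457123 .nil)))) .done (.node 2 7 (.cons 0x8905432761 .nil) (.node 7 9 (.cons 0x6123457980 .nil) .done .done) .done)) .done)) .done)) .done)) (.node 5 7 .nil (.node 3 8 (.cons 0x5438907612 (.cons 0x9083475612 (.cons 0x4576109832 .nil))) (.node 0 4 (.cons 0x9832104576 .nil) (.node 2 9 (.cons 0x5438921670 (.cons 0x7654012983 (.cons 0x6129834570 (.cons 0x9238504761 (.cons 0x5407612983 .nil))))) .done (.leaf 0x2167540983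 0 .done)) .done) (.node 5 9 (.cons 0x4321675980 .nil) (.node 4 6 (.cons 0x1234675980 .nil) (.leaf 0x9801234675 0 (.node 6 8 (.cons 0x5908674321 .nil) (.node 2 8 (.cons 0x3476590821 .nil) (.node 1 7 (.cons 0x6590821743 .nil) (.node 3 6 (.cons 0x4632895710 .nil) (.leaf 0x5908217436 0 (.leaf 0x2859017463 1 .done)) .done) .done) .done) .done)) (.node 0 6 (.cons 0x7598061234 .nil) (.node 1 7 (.cons 0x8712345906 .nil) (.node 1 9 (.cons 0x4587609123 .nil) (.node 4 9 (.cons 0x5761234980 .nil) (.node 0 4 (.cons 0x9804321675 .nil) (.node 3 6 (.cons 0x8945763210 .nil) (.leaf 0x2108945763 0 (.leaf 0x5712360498 1 (.leaf 0x7589406321 0 .done))) .done) (.leaf 0x5780612349 1 .done)) .done) .done) .done) .done)) .done)) .done)) (.node 4 6 (.cons 0x5467890123 .nil) (.node 2 8 (.cons 0x5476109823 .nil) (.node 5 9 (.cons 0x3289547610 .nil) (.node 0 8 (.cons 0x7645980123 .nil) (.node 3 8 (.cons 0x7645983210 .nil) (.leaf 0x6701238954 1 (.node 4 8 .nil (.node 3 7 (.cons 0x8954673210 (.cons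 0x9845016732 (.cons 0x8459012376 (.cons 0x5984673210 .nil)))) .done (.node 4 9 (.cons 0x7610549823 .nil) (.node 3 9 (.cons 0x5467893210 .nil) (.node 2 9 (.cons 0x3298764501 .nil) (.node 7 9 (.cons 0x1679823450 .nil) .done .done) .done) .done) .done)) .done)) (.node 5 7 (.cons 0x1234675980 .nil) (.leaf 0x9801234675 0 (.node 2 5 (.cons 0x3467089521 .nil) (.node 1 5 (.cons 0x7643215980 .nil) (.node 3 5 (.cons 0x9876453210 .nil) .done .done) .done) .done)) .done)) (.node 0 3 (.cons 0x2309854761 .nil) (.leaf 0x1674598230 1 (.leaf 0x2895476103 0 (.node 7 9 (.cons 0x7985461230 .nil) (.leaf 0x1645897032 0 (.node 0 8 (.cons 0x7980321645 .nil) (.node 0 6 (.cons 0x5479823061 .nil) (.node 3 8 (.cons 0x1238795460 .nil) (.leaf 0x6079543821 0 .done) .done) .done) .done)) (.node 0 6 (.cons 0x7895460123 .nil) (.node 1 9 (.cons 0x7619823450 .nil) (.node 7 9 (.cons 0x1679823450 .nil) (.node 1 8 (.cons 0x3218795460 .nil) (.leaf 0x2187954603 1 (.leaf 0x7954603218 0 .done)) .done) (.leaf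 0x347821956 0 .done)) .done) .done)))) .done)) (.node 5 7 (.cons 0x6128907543 .nil) (.node 3 7 (.cons 0x7345612890 .nil) (.node 0 8 (.cons 0x9082165437 .nil) (.node 6 8 (.cons 0x9016823745 .nil) (.node 0 6 (.cons 0x9065437821 .nil) (.node 1 7 (.cons 0x9061745823 .nil) (.node 2 7 (.cons 0x8905432761 .nil) (.node 7 9 (.cons 0x8216543790 .nil) .done .done) .done) .done) .done) .done) (.node 1 7 (.cons 0x4371650982 .nil) (.node 2 7 (.cons 0x4372890561 .nil) (.node 7 9 (.cons 0x8234509716 .nil) .done .done) .done) .done)) (.node 4 8 .nil (.node 0 8 (.cons 0x9084321675 .nil) .done (.node 0 8 .nil (.node 3 5 (.cons 0x9876453210 (.cons 0x9801674532 (.cons 0x9801235467 .nil))) (.node 2 7 (.cons 0x8905432761 (.cons 0x9805432761 (.cons 0x9801647235 (.cons 0x9807216453 .nil)))) .done .done) (.node 1 8 (.cons 0x7618905432 .nil) (.node 1 5 (.cons 0x9082347516 .nil) (.node 3 8 (.cons 0x5438907612 .nil) (.node 6 8 (.cons 0x9086157432 .nil) .done .done) .done) .done) .done)) .done))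 .done)) (.node 5 7 (.cons 0x4328905761 .nil) (.node 1 5 (.cons 0x5167432890 .nil) (.node 0 8 (.cons 0x9082347615 .nil) (.node 7 9 (.cons 0x6123457980 .nil) (.node 1 7 (.cons 0x5089716432 .nil) .done (.node 3 5 (.cons 0x9876453210 .nil) (.leaf 0x2809746153 0 (.leaf 0x1647908235 1 .done)) .done)) .done) (.node 3 5 (.cons 0x9876453210 .nil) (.node 2 5 (.cons 0x8901674523 .nil) (.node 5 9 (.cons 0x8216709534 .nil) .done .done) (.node 5 9 (.cons 0x1289534670 .nil) .done .done)) .done)) (.node 6 8 .nil (.node 0 8 (.cons 0x9086123457 .nil) .done (.node 0 8 .nil (.node 2 7 (.cons 0x8905432761 (.cons 0x9805432761 .nil)) (.node 3 5 (.cons 0x9876453210 (.cons 0x9801674532 (.cons 0x9801235467 (.cons 0x9807216453 .nil)))) .done .done) (.node 3 8 (.cons 0x5438907612 .nil) (.node 3 7 (.cons 0x9082165734 .nil) (.node 1 8 (.cons 0x7618905432 .nil) (.node 4 8 (.cons 0x9084375612 .nil) .done .done) .done) .done) .done)) .done)) .done)) .done))) (.node 5 9 (.cons 0x8764590123 .nil)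 (.node 0 6 .nil (.node 2 8 (.cons 0x5476109823 (.cons 0x3289547601 .nil)) (.node 1 3 (.cons 0x2316745890 (.cons 0x8954760132 (.cons 0x9061328547 (.cons 0x7890654312 (.cons 0x7460958231 .nil))))) .done (.node 1 5 (.cons 0x5167432890 (.cons 0x1598234760 (.cons 0x8234760951 (.cons 0x7432890615 .nil)))) .done .done)) (.node 0 8 .nil (.node 1 5 (.cons 0x2347608951 .nil) (.leaf 0x6743215980 1 (.leaf 0x674321598 0 (.node 1 3 (.cons 0x2316745890 (.cons 0x6708954312 (.cons 0x9087654312 .nil))) (.node 2 5 (.cons 0x4761325890 (.cons 0x9801674523 (.cons 0x9087652134 .nil))) .done .done) .done))) (.node 2 8 (.cons 0x5476109823 .nil) (.node 0 4 .nil (.node 3 6 (.cons 0x1289543670 (.cons 0x9876321045 (.cons 0x7632895401 .nil))) .done (.node 0 2 (.cons 0x3456789021 .nil) (.node 0 3 (.cons 0x6745982301 .nil) .done .done) .done)) (.node 5 7 (.cons 0x4328905761 .nil) (.node 0 4 (.cons 0x8957604321 .nil) (.node 0 2 (.cons 0x3456789021 .nil) (.node 0 3 (.cons 0x2309854761 .nil) .done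 .done) .done) (.node 0 4 .nil (.node 1 3 (.cons 0x2316745890 (.cons 0x7659821340 (.cons 0x6740958231 (.cons 0x9047582316 (.cons 0x5678904312 .nil))))) .done (.node 0 2 (.cons 0x3456789021 .nil) (.node 0 3 (.cons 0x2309854761 .nil) .done .done) .done)) .done)) .done)) .done)) .done)) (.node 0 6 .nil (.node 3 7 (.cons 0x8732109546 (.cons 0x8954370612 (.cons 0x4609587321 .nil))) (.node 2 8 (.cons 0x5476109823 (.cons 0x7061289543 (.cons 0x9065437821 (.cons 0x4732859061 .nil)))) .done .done) (.node 0 8 .nil (.node 5 7 (.cons 0x8759064321 (.cons 0x9578064321 .nil)) (.leaf 0x612347598 0 .done) (.node 2 8 (.cons 0x5476109823 .nil) (.node 0 3 (.cons 0x2309854761 .nil) (.leaf 0x1674598230 1 (.leaf 0x2895476103 0 .done)) (.node 3 8 (.cons 0x5438907612 .nil) (.node 0 2 (.cons 0x3456789021 .nil) (.leaf 0x1674598320 1 (.leaf 0x3895476102 0 .done)) (.node 6 8 (.cons 0x7864590123 .nil) (.node 3 6 .nil (.node 0 2 (.cons 0x3456789021 (.cons 0x9547863201 (.cons 0x7459863201 .nil)))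 .done .done) .done) .done)) .done)) .done)) .done)) .done)) .done)) .done)))
noncomputable def tc9_2_7 : T := (.node 5 7 .nil (.node 6 8 (.cons 0x1234576890 .nil) (.node 5 9 (.cons 0x8670954321 (.cons 0x6870954321 .nil)) .done (.leaf 0x7543210986 0 (.leaf 0x9867543210 1 (.node 2 8 (.cons 0x9075432861 (.cons 0x4328905761 .nil)) (.node 5 9 (.cons 0x7095432861 .nil) (.node 1 9 (.cons 0x8619075432 .nil) (.node 2 4 (.cons 0x6789105423 (.cons 0x3245768901 (.cons 0x7091685423 .nil))) (.node 3 7 (.cons 0x8673245910 (.cons 0x8509167324 (.cons 0x8542376190 .nil))) .done .done) (.leaf 0x2345091678 0 (.node 3 6 (.cons 0x8219543670 (.cons 0x5436782190 .nil)) (.leaf 0x4367821905 1 (.leaf 0x7821905436 0 .done)) .done))) .done) (.node 1 9 (.cons 0x7619823450 (.cons 0x9168234570 (.cons 0x4328916750 .nil))) (.node 4 9 (.cons 0x8549076123 (.cons 0x9457016823 (.cons 0x3289457610 .nil))) (.node 3 6 (.cons 0x7632894501 (.cons 0x8945763210 (.cons 0x4982367501 .nil))) (.node 1 8 (.cons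 0x7632185490 (.cons 0x7549018632 (.cons 0x2819436750 .nil))) .done .done) .done) .done) .done)) .done)))) (.node 2 7 (.cons 0x8905432761 .nil) (.node 3 7 .nil (.node 4 8 (.cons 0x5098432761 (.cons 0x9845016732 (.cons 0x5612734890 (.cons 0x5489016732 .nil)))) (.node 1 5 (.cons 0x3489051672 (.cons 0x6150984372 .nil)) (.leaf 0x7615098432 0 .done) .done) (.node 4 7 (.cons 0x3216745890 .nil) (.node 1 7 .nil (.node 0 2 (.cons 0x3456789021 (.cons 0x8902176543 (.cons 0x6173209854 .nil))) .done .done) .done) .done)) (.node 4 7 (.cons 0x3216745890 .nil) (.node 0 6 .nil (.node 1 4 (.cons 0x8905416723 (.cons 0x9067854123 .nil)) (.node 0 3 (.cons 0x9854123067 (.cons 0x9872145603 .nil)) (.node 2 9 (.cons 0x5678921430 (.cons 0x5892147603 (.cons 0x4306578921 (.cons 0x5067892341 .nil)))) .done .done) (.node 3 6 (.cons 0x9872360541 (.cons 0x9063214587 (.cons 0x9875410632 .nil))) (.node 0 2 (.cons 0x9857412063 (.cons 0x9875602143 .nil)) (.leaf 0x3657890214 0 .done) .done) .done))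 (.node 1 7 .nil (.node 0 3 (.cons 0x3098547612 (.cons 0x8903456712 (.cons 0x6543098712 .nil))) .done (.node 0 3 (.cons 0x3098547612 .nil) (.node 0 2 (.cons 0x3456789021 .nil) (.node 0 4 .nil (.node 3 6 (.cons 0x7458902163 (.cons 0x9876321045 (.cons 0x9045876321 (.cons 0x9857163204 .nil)))) .done .done) .done) (.node 3 6 (.cons 0x4563098721 .nil) (.node 0 2 (.cons 0x3456789021 .nil) (.node 0 4 (.cons 0x9876321045 .nil) .done .done) (.leaf 0x1274589036 1 (.leaf 0x985472163 0 .done))) .done)) .done)) .done)) (.node 3 7 .nil (.node 2 8 (.cons 0x5476109823 (.cons 0x9823761054 (.cons 0x7345612890 .nil))) (.node 0 4 (.cons 0x9823405761 (.cons 0x5673409821 (.cons 0x9821657340 .nil))) (.node 0 2 (.cons 0x3456789021 (.cons 0x6543789021 .nil)) (.node 1 4 (.cons 0x9823416750 (.cons 0x9820567341 (.cons 0x9058237614 (.cons 0x7341650982 .nil)))) .done .done) .done) .done) (.node 1 7 .nil (.node 0 3 (.cons 0x2309854761 (.cons 0x8903456712 (.cons 0x6543098712 .nil))) .done (.node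 7 9 .nil (.node 4 6 (.cons 0x5467890123 .nil) (.node 0 3 (.cons 0x2309854761 (.cons 0x7985461230 .nil)) (.leaf 0x5461230798 0 .done) (.node 0 3 (.cons 0x2309854761 (.cons 0x8546790321 (.cons 0x6458790321 .nil))) .done .done)) .done) .done)) .done)) .done)) .done)) .done)) (.node 0 6 .nil (.node 5 7 (.cons 0x8906754321 .nil) (.node 6 8 (.cons 0x1234576890 .nil) (.leaf 0x7543210986 0 (.leaf 0x9867543210 1 (.node 4 6 (.cons 0x5467890123 .nil) (.node 5 9 (.cons 0x5987064321 .nil) (.node 3 8 (.cons 0x7645983210 (.cons 0x7601238954 (.cons 0x4389075612 (.cons 0x4675983210 .nil)))) .done .done) (.node 2 4 (.cons 0x3245768901 (.cons 0x8907561243 .nil)) (.node 1 3 (.cons 0x2134567890 (.cons 0x9850761324 (.cons 0x7890654312 (.cons 0x9058764231 .nil)))) (.leaf 0x7890132456 1 .done) (.node 0 3 (.cons 0x9867542301 (.cons 0x9861032457 .nil)) (.node 2 8 (.cons 0x9034567821 (.cons 0x4328905761 .nil)) (.leaf 0x4576128903 0 .done) .done) .done)) .done)) .done))) (.node 0 8 (.cons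 0x9806123457 .nil) (.node 3 9 (.cons 0x2167543980 (.cons 0x8932106754 (.cons 0x7543980612 .nil))) (.node 0 4 (.cons 0x4067589321 (.cons 0x7589321604 .nil)) (.node 0 2 (.cons 0x4398756021 .nil) (.node 1 4 (.cons 0x9321406785 (.cons 0x2143987560 (.cons 0x4120675893 .nil))) (.leaf 0x7602143985 1 .done) .done) .done) (.node 2 4 (.cons 0x8932457610 (.cons 0x5423987601 (.cons 0x8932457601 (.cons 0x4239857061 .nil)))) (.node 1 4 (.cons 0x5410678932 (.cons 0x4160758932 .nil)) (.leaf 0x7589324160 0 (.node 1 5 (.cons 0x8516709324 .nil) (.node 2 8 (.cons 0x7615439082 (.cons 0x9328760154 (.cons 0x5706143982 (.cons 0x5143906782 .nil)))) .done (.leaf 0x9067851423 0 .done)) .done)) .done) .done)) .done) (.node 3 5 (.cons 0x6789012354 (.cons 0x9876012354 .nil)) (.node 5 9 (.cons 0x1234598760 .nil) (.node 4 6 (.cons 0x8953210764 (.cons 0x8764590123 .nil)) (.node 3 6 (.cons 0x4598763210 (.cons 0x8763210954 .nil)) (.node 1 3 (.cons 0x2134567890 (.cons 0x8764590132 (.cons 0x7890654312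 .nil))) (.node 0 2 (.cons 0x8956702134 (.cons 0x2078956431 .nil)) (.leaf 0x5987021346 1 .done) .done) .done) .done) (.node 1 5 (.cons 0x6078951234 .nil) (.node 2 5 (.cons 0x8907615234 .nil) (.node 1 4 (.cons 0x9067854123 (.cons 0x9870652143 (.cons 0x6078952143 .nil))) (.leaf 0x9870614325 1 .done) .done) .done) .done)) (.node 4 7 (.cons 0x3216745890 (.cons 0x9853216074 .nil)) (.node 2 7 (.cons 0x8905432761 (.cons 0x8906127453 .nil)) (.node 1 9 (.cons 0x8916723450 (.cons 0x6054327891 (.cons 0x8916053472 .nil))) (.node 2 8 (.cons 0x6198270534 (.cons 0x7289160543 (.cons 0x9827435061 .nil))) .done .done) .done) (.node 3 7 (.cons 0x4589067321 .nil) (.node 2 8 (.cons 0x2890743561 (.cons 0x9823761054 (.cons 0x7345612890 (.cons 0x4735610982 .nil)))) .done (.node 1 4 (.cons 0x6147098532 (.cons 0x9870653412 (.cons 0x9067854123 .nil))) (.node 2 9 (.cons 0x8923761054 (.cons 0x4129856073 (.cons 0x1298734560 (.cons 0x5892374160 (.cons 0x3789214560 .nil))))) .done (.leaf 0x5890673214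 0 .done)) .done)) .done)) .done)) .done))) (.node 0 3 (.cons 0x7612309854 .nil) (.node 0 2 (.cons 0x3456789021 .nil) (.node 2 8 (.cons 0x7654309821 .nil) (.node 7 9 (.cons 0x1289765430 .nil) (.leaf 0x6798234501 1 (.leaf 0x5679821034 0 (.node 2 7 (.cons 0x8903456721 .nil) (.node 0 4 (.cons 0x3045679821 .nil) (.node 0 8 .nil (.node 1 3 (.cons 0x4567982130 (.cons 0x4567980312 (.cons 0x9087654312 (.cons 0x9087213456 .nil)))) (.node 3 9 (.cons 0x4587609321 (.cons 0x6543908721 (.cons 0x4580932761 .nil))) .done .done) .done) .done) .done) .done))) (.node 5 7 (.cons 0x4328905761 .nil) (.node 0 4 (.cons 0x9823405761 .nil) (.node 0 8 .nil (.node 3 9 (.cons 0x5761289340 (.cons 0x4398075612 (.cons 0x7561208934 (.cons 0x4576108932 .nil)))) .done .done) .done) (.node 1 7 (.cons 0x8903456712 .nil) (.node 0 4 (.cons 0x9854032176 .nil) (.node 0 8 (.cons 0x9803456712 .nil) .done .done) (.node 2 5 (.cons 0x8903452176 .nil) (.node 1 5 (.cons 0x7651289034 .nil) (.node 3 5 (.cons 0x6789012354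 .nil) .done .done) (.node 6 8 (.cons 0x3452176890 .nil) (.leaf 0x7125430986 0 (.leaf 0x9867125430 1 .done)) .done)) .done)) .done)) .done)) .done) (.node 0 2 (.cons 0x3456789021 .nil) (.node 4 6 (.cons 0x5467890123 .nil) (.node 5 9 (.cons 0x8760954321 .nil) (.node 0 8 (.cons 0x5980764321 .nil) (.node 0 4 .nil (.node 1 3 (.cons 0x2134567890 (.cons 0x8956704312 (.cons 0x5678904312 .nil))) (.node 3 5 (.cons 0x9876453210 (.cons 0x9853216704 .nil)) .done .done) .done) .done) (.node 0 8 .nil (.node 3 7 (.cons 0x6459873210 (.cons 0x4370895612 (.cons 0x9580732164 .nil))) (.leaf 0x895467321 0 .done) (.node 0 4 .nil (.node 1 3 (.cons 0x2134659870 (.cons 0x6598704312 (.cons 0x5678904312 .nil))) (.node 2 9 (.cons 0x8765431290 (.cons 0x9213046587 (.cons 0x8765409213 .nil))) .done .done) .done) .done)) .done)) (.node 5 9 (.cons 0x8760954321 .nil) (.node 3 5 (.cons 0x2354678901 .nil) (.node 4 9 (.cons 0x6789453210 .nil) (.node 0 4 (.cons 0x9853216704 .nil) (.node 0 8 (.cons 0x7089435612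 .nil) .done .done) (.leaf 0x1235498760 1 .done)) (.node 0 4 .nil (.node 1 3 (.cons 0x2134567890 (.cons 0x8956704312 (.cons 0x5678904312 .nil))) .done (.node 0 8 .nil (.node 4 7 (.cons 0x3216745890 (.cons 0x6745980123 (.cons 0x9085476123 .nil))) .done .done) .done)) .done)) (.node 2 5 (.cons 0x3254678901 .nil) (.node 1 9 (.cons 0x3254678910 .nil) (.leaf 0x3465219870 1 (.node 1 5 (.cons 0x6430789152 .nil) (.node 5 7 (.cons 0x8916430752 .nil) .done .done) .done)) (.node 1 5 .nil (.node 6 8 (.cons 0x7860954321 (.cons 0x7023468951 (.cons 0x7860951234 .nil))) .done (.node 2 9 (.cons 0x3298764510 .nil) (.leaf 0x3465129870 1 (.node 5 7 (.cons 0x8923075164 .nil) .done .done)) .done)) .done)) .done)) .done)) .done) .done)) .done)) (.node 4 7 (.cons 0x3216745890 .nil) tc9_2_6 .done)))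
noncomputable def tc9_2_8 : T := (.node 0 6 .nil (.node 3 5 (.cons 0x6789012354 (.cons 0x9876012354 .nil)) (.node 1 3 (.cons 0x2134567890 (.cons 0x7890654312 .nil)) (.node 2 9 (.cons 0x6789231054 (.cons 0x7892134560 (.cons 0x4506789231 .nil))) (.node 0 8 (.cons 0x7608921345 .nil) (.node 1 8 (.cons 0x7618905432 (.cons 0x7605431892 .nil)) .done .done) (.node 4 7 (.cons 0x8561290743 (.cons 0x7432985061 (.cons 0x7431605892 .nil))) (.node 4 6 (.cons 0x9235874601 (.cons 0x9231064785 .nil)) .done .done) .done)) (.node 1 8 (.cons 0x7618905432 .nil) (.node 1 7 (.cons 0x9817605432 .nil) (.node 0 3 (.cons 0x8903456712 (.cons 0x6543098712 .nil)) .done (.node 2 9 (.cons 0x7618923450 (.cons 0x7605432981 (.cons 0x9218706543 (.cons 0x6092178534 .nil)))) (.node 1 9 (.cons 0x5432198760 .nil) (.node 2 6 (.cons 0x1987623450 (.cons 0x9187623450 (.cons 0x9062178534 .nil))) .done (.leaf 0x5067819234 0 .done)) .done) .done)) (.node 1 7 (.cons 0x8906712345 .nil) (.node 0 3 (.cons 0x8903456712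 (.cons 0x6543098712 .nil)) .done (.node 2 7 (.cons 0x8905432761 (.cons 0x9850617234 .nil)) (.leaf 0x5890617234 0 .done) .done)) .done)) .done)) (.node 5 9 (.cons 0x1234598760 .nil) (.node 0 8 (.cons 0x7612345980 .nil) (.leaf 0x2345908761 0 (.node 1 8 (.cons 0x7618905432 .nil) (.node 2 9 (.cons 0x7605432981 (.cons 0x9218706543 (.cons 0x8167059234 .nil))) (.node 4 7 (.cons 0x3298167450 (.cons 0x3547608921 (.cons 0x1892354760 .nil))) (.leaf 0x6745329810 1 .done) .done) (.node 4 6 (.cons 0x9534670812 (.cons 0x7643590812 (.cons 0x7095816432 .nil))) .done .done)) .done)) (.node 5 7 (.cons 0x8906754321 .nil) (.node 6 9 (.cons 0x8570961234 .nil) (.node 6 8 (.cons 0x9075861234 .nil) (.leaf 0x7543210986 0 (.node 3 9 (.cons 0x7093216854 (.cons 0x8612390754 .nil)) (.node 3 8 (.cons 0x8321670954 (.cons 0x4576109832 .nil)) (.node 7 9 (.cons 0x4538976012 .nil) .done .done) .done) .done)) .done) (.node 4 7 (.cons 0x8901235476 .nil) (.leaf 0x1609857432 0 (.leaf 0x6123475890 1 .done))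 .done)) .done)) .done)) (.node 5 7 (.cons 0x7589061234 .nil) (.node 4 7 (.cons 0x9857432160 .nil) (.leaf 0x1609857432 0 (.leaf 0x6123475890 1 .done)) (.node 5 9 .nil (.node 1 5 (.cons 0x4321598760 (.cons 0x8760951234 .nil)) .done (.node 2 7 (.cons 0x8905432761 .nil) (.node 0 8 (.cons 0x9805432761 .nil) (.node 2 5 .nil (.node 1 3 (.cons 0x6721345980 (.cons 0x7608952134 (.cons 0x7890652134 (.cons 0x4312567890 .nil)))) (.node 4 8 (.cons 0x3216754890 (.cons 0x9521348067 (.cons 0x9527608431 .nil))) .done .done) (.node 3 5 (.cons 0x4359806721 .nil) (.node 1 5 .nil (.node 0 3 (.cons 0x8903216754 (.cons 0x9803451276 (.cons 0x9872156034 .nil))) .done .done) .done) .done)) .done) (.node 3 7 (.cons 0x4372165890 .nil) (.node 0 8 (.cons 0x6732108954 .nil) (.node 4 6 (.cons 0x8954673210 .nil) (.leaf 0x5980123764 0 (.leaf 0x7645980123 1 (.node 4 8 (.cons 0x3216754890 .nil) (.node 1 7 (.cons 0x5984321760 .nil) (.node 4 7 (.cons 0x3472165890 .nil) .done .done) .done) .done))) .done)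 (.node 4 7 (.cons 0x3472165890 .nil) (.node 7 9 (.cons 0x5897432160 .nil) (.leaf 0x8974321605 1 .done) (.node 3 5 (.cons 0x6127435890 .nil) (.leaf 0x4358906127 1 (.node 7 9 (.cons 0x8534790612 .nil) .done .done)) .done)) .done)) .done)) .done)) .done)) .done)) (.node 0 6 .nil (.node 3 5 (.cons 0x6789012354 (.cons 0x9876012354 .nil)) (.node 1 3 (.cons 0x2134567890 (.cons 0x7890654312 .nil)) (.node 4 9 (.cons 0x6789450132 (.cons 0x7065894312 (.cons 0x5607894312 (.cons 0x5498760132 .nil)))) (.node 2 8 (.cons 0x5076134982 (.cons 0x9435821607 (.cons 0x5349067821 (.cons 0x9453128760 .nil)))) .done .done) (.node 2 7 (.cons 0x8905432761 (.cons 0x9065872134 .nil)) (.node 1 9 (.cons 0x8916723450 (.cons 0x6054327891 .nil)) (.node 3 7 (.cons 0x4370985612 (.cons 0x2734589160 .nil)) .done .done) (.node 4 7 (.cons 0x3470985612 (.cons 0x9850613274 (.cons 0x9065874312 (.cons 0x3274589061 .nil)))) (.node 2 5 (.cons 0x4312567890 (.cons 0x9852160743 (.cons 0x8906743125 .nil))) .done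 .done) .done)) .done)) (.node 5 9 (.cons 0x1234598760 .nil) (.node 4 6 (.cons 0x8953210764 (.cons 0x8764590123 .nil)) (.node 0 8 (.cons 0x7612345980 .nil) (.node 1 8 (.cons 0x4356709812 (.cons 0x4670189532 .nil)) (.node 4 7 (.cons 0x3470985612 (.cons 0x2347618950 (.cons 0x6743590812 (.cons 0x5347609812 .nil)))) .done .done) .done) .done) (.node 1 4 (.cons 0x8907653412 (.cons 0x3214598760 (.cons 0x8760954123 .nil))) (.node 5 7 (.cons 0x9857061234 .nil) (.node 6 8 (.cons 0x7068953214 (.cons 0x7509861432 (.cons 0x5709861432 (.cons 0x6890753214 .nil)))) .done (.node 2 5 (.cons 0x9870652143 .nil) (.node 1 8 (.cons 0x4356709812 (.cons 0x9816705234 (.cons 0x7618905234 (.cons 0x6709812534 .nil)))) .done .done) .done)) (.node 2 8 (.cons 0x4356709821 (.cons 0x7609821435 (.cons 0x7609821453 .nil))) (.node 7 9 (.cons 0x1679823450 (.cons 0x4532897601 .nil)) (.leaf 0x6798234501 1 .done) .done) .done)) .done)) .done)) (.node 4 6 (.cons 0x5467890123 .nil) (.node 5 9 (.cons 0x8760954321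 .nil) (.node 0 8 (.cons 0x5980764321 .nil) (.node 4 8 (.cons 0x5984670123 .nil) (.node 1 5 (.cons 0x8951234670 .nil) (.node 1 8 (.cons 0x5981234670 .nil) (.node 3 5 (.cons 0x9876453210 .nil) (.node 2 5 (.cons 0x9843251670 .nil) (.node 1 3 (.cons 0x1325984670 .nil) (.node 5 7 (.cons 0x9846132570 .nil) .done .done) .done) .done) .done) (.node 3 5 (.cons 0x9876453210 .nil) (.node 3 8 (.cons 0x7645983210 .nil) (.node 2 5 (.cons 0x3259846701 .nil) (.node 5 7 (.cons 0x4675983210 .nil) .done .done) .done) .done) .done)) .done) .done) (.node 7 9 (.cons 0x6097854321 .nil) (.node 0 8 .nil (.node 3 7 (.cons 0x8543790612 (.cons 0x9734580612 (.cons 0x9580732164 .nil))) (.leaf 0x6459801237 0 .done) (.node 4 8 .nil (.node 0 3 (.cons 0x5897034612 (.cons 0x5984670321 (.cons 0x7032164895 .nil))) .done (.node 4 7 (.cons 0x3470985612 .nil) (.node 1 7 (.cons 0x9850716432 .nil) (.node 5 7 .nil (.node 0 2 (.cons 0x3456789021 (.cons 0x3207598461 .nil)) (.node 0 3 (.cons 0x5897034612 (.cons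 0x2307598461 .nil)) .done .done) .done) .done) .done) .done)) .done)) (.node 6 9 .nil (.node 1 5 (.cons 0x2346158970 (.cons 0x9607851234 (.cons 0x9643215870 .nil))) .done (.node 0 8 .nil (.node 1 5 (.cons 0x2346158970 (.cons 0x2345167980 (.cons 0x8097615432 .nil))) .done (.node 2 6 .nil (.node 0 3 (.cons 0x7985461032 (.cons 0x7985462301 (.cons 0x7890345621 .nil))) .done (.node 3 6 .nil (.node 1 9 (.cons 0x7058916432 (.cons 0x7891054632 (.cons 0x7854360912 .nil))) .done (.node 6 8 .nil (.node 2 7 (.cons 0x3279854610 (.cons 0x1685432790 .nil)) (.node 0 4 (.cons 0x7234058961 (.cons 0x5401689723 .nil)) (.leaf 0x5897236104 0 .done) .done) .done) .done)) .done)) .done)) .done)) .done)) .done)) (.node 1 5 (.cons 0x7098516432 .nil) (.node 5 9 (.cons 0x8760954321 .nil) (.node 3 5 (.cons 0x2354678901 .nil) (.node 0 8 (.cons 0x2346708951 .nil) (.node 1 8 (.cons 0x7618905432 .nil) (.node 4 8 (.cons 0x7648109532 .nil) (.node 2 5 (.cons 0x3259846701 .nil) (.node 2 8 (.cons 0x1598234670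 .nil) .done .done) .done) .done) .done) .done) (.node 6 9 (.cons 0x9607851234 .nil) (.node 3 6 .nil (.node 1 7 (.cons 0x5890716432 (.cons 0x9017854632 (.cons 0x9063458712 .nil))) .done (.node 5 7 .nil (.node 0 4 (.cons 0x1236789540 (.cons 0x8967512340 (.cons 0x6987512340 (.cons 0x9857043612 .nil)))) .done (.node 2 5 (.cons 0x3254678901 .nil) (.node 3 5 (.cons 0x2354678901 .nil) .done .done) .done)) .done)) .done) .done)) (.node 6 9 (.cons 0x2346907851 .nil) (.leaf 0x8512346907 0 (.node 5 9 (.cons 0x8760954321 .nil) (.node 3 5 (.cons 0x2354678901 .nil) (.node 2 9 (.cons 0x6432907851 .nil) (.node 4 9 (.cons 0x6789453210 .nil) (.leaf 0x1235498760 1 .done) (.leaf 0x3461587092 0 .done)) .done) .done) .done)) .done)) .done)) .done)) (.node 0 8 .nil (.node 2 7 (.cons 0x8905432761 (.cons 0x9805432761 .nil)) (.node 3 9 (.cons 0x8543907216 (.cons 0x8093456721 (.cons 0x6543908721 (.cons 0x7216580934 .nil)))) (.node 4 7 (.cons 0x8547239016 (.cons 0x5476108932 .nil)) (.node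 1 3 (.cons 0x2134567890 (.cons 0x9087654312 (.cons 0x9087213456 (.cons 0x9085613472 .nil)))) (.node 3 7 (.cons 0x6109854732 (.cons 0x9085612734 .nil)) .done .done) .done) .done) (.node 1 5 (.cons 0x8905167234 (.cons 0x9805167234 .nil)) (.node 4 9 (.cons 0x6512780943 (.cons 0x8094327615 .nil)) (.leaf 0x3276158094 0 (.node 3 7 (.cons 0x4372165890 (.cons 0x3765498012 (.cons 0x6580943721 .nil))) (.node 2 8 (.cons 0x9451082376 (.cons 0x6732809451 .nil)) .done .done) (.leaf 0x7615089432 0 .done))) .done) (.node 2 5 (.cons 0x8907612543 (.cons 0x9807612543 .nil)) (.node 1 3 (.cons 0x2134567890 (.cons 0x9087654312 (.cons 0x9087652134 .nil))) (.node 3 5 (.cons 0x6789012354 .nil) (.node 4 9 (.cons 0x6789450132 (.cons 0x3127654980 (.cons 0x6721354980 (.cons 0x9452310876 .nil)))) (.node 0 6 (.cons 0x9456087213 (.cons 0x7213560894 .nil)) .done .done) .done) (.node 0 6 (.cons 0x7890654312 .nil) (.node 1 9 (.cons 0x8760912345 (.cons 0x6780912543 .nil)) (.node 4 6 (.cons 0x6450987231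 (.cons 0x9805461327 (.cons 0x5234678091 .nil))) .done .done) (.leaf 0x9872134560 0 .done)) .done)) (.node 3 5 (.cons 0x6789012354 .nil) (.node 4 9 (.cons 0x6789453210 (.cons 0x6127089453 (.cons 0x1672354980 .nil))) (.node 3 8 (.cons 0x6709834521 .nil) (.node 1 3 (.cons 0x2134567890 (.cons 0x9087654312 .nil)) (.node 0 3 (.cons 0x3089456721 .nil) (.leaf 0x4567213089 0 (.leaf 0x5498031276 1 .done)) .done) (.node 1 5 (.cons 0x4516723890 (.cons 0x6723809451 .nil)) .done .done)) (.leaf 0x8945327610 1 .done)) (.node 4 8 (.cons 0x9084532761 .nil) (.node 2 9 (.cons 0x7610548923 (.cons 0x4356780921 .nil)) (.node 1 9 (.cons 0x3276198450 (.cons 0x4356780912 .nil)) (.node 3 6 (.cons 0x8907634521 (.cons 0x7634521980 (.cons 0x7291635084 (.cons 0x7291635480 .nil)))) .done .done) .done) (.node 7 9 (.cons 0x6790843521 .nil) (.leaf 0x6123548097 0 (.leaf 0x976123548 1 .done)) .done)) .done)) .done)) .done))) (.node 3 8 (.cons 0x5438907612 .nil) (.node 1 8 (.cons 0x7618905432 .nil)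 (.node 3 5 (.cons 0x6789012354 .nil) (.node 4 8 (.cons 0x9012354876 .nil) (.node 1 5 .nil (.node 2 7 (.cons 0x8905432761 (.cons 0x9805167234 (.cons 0x9084327615 (.cons 0x5167234890 (.cons 0x3276154890 .nil))))) .done (.node 5 7 .nil (.node 4 9 (.cons 0x7615089432 (.cons 0x6754983210 (.cons 0x8094357612 .nil))) (.node 0 2 (.cons 0x3456789021 (.cons 0x9438021657 (.cons 0x9834570216 .nil))) (.leaf 0x3894576102 0 .done) .done) (.node 2 5 (.cons 0x9834521670 .nil) (.node 0 6 (.cons 0x7609812543 .nil) (.node 5 9 (.cons 0x8760954321 .nil) .done .done) .done) .done)) .done)) .done) (.node 5 9 .nil (.node 4 7 (.cons 0x8901235476 (.cons 0x6743590812 (.cons 0x2389547610 .nil))) (.node 0 6 (.cons 0x8760954321 .nil) (.node 1 9 (.cons 0x7435608912 (.cons 0x6074358912 .nil)) .done .done) .done) (.node 4 8 .nil (.node 0 3 (.cons 0x4598307612 (.cons 0x6784590321 .nil)) (.node 2 7 (.cons 0x6543098721 (.cons 0x9845016723 (.cons 0x9084356721 (.cons 0x1276534890 (.cons 0x7216548903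 .nil))))) .done .done) (.node 6 8 (.cons 0x7689012354 .nil) (.node 2 8 .nil (.node 0 3 (.cons 0x4598307612 (.cons 0x9034567821 .nil)) (.node 4 6 (.cons 0x9835467012 (.cons 0x9821076453 (.cons 0x9546128307 .nil))) .done .done) .done) .done) .done)) .done)) .done)) .done) (.node 1 8 (.cons 0x7618905432 .nil) (.node 1 5 .nil (.node 2 7 (.cons 0x9816723450 (.cons 0x9805167234 (.cons 0x8905167234 (.cons 0x4516723890 .nil)))) (.node 4 6 (.cons 0x5467890123 (.cons 0x9015467832 (.cons 0x9085164327 .nil))) (.node 0 2 (.cons 0x3456789021 (.cons 0x9832015467 .nil)) (.node 1 7 (.cons 0x9871502346 .nil) .done .done) .done) .done) (.node 2 8 (.cons 0x9076154382 .nil) (.node 6 8 .nil (.node 2 9 (.cons 0x7618923450 (.cons 0x2907683451 (.cons 0x6870921543 .nil))) (.node 3 9 (.cons 0x4390876512 (.cons 0x8670934512 (.cons 0x6870934512 .nil))) .done .done) .done) .done) .done)) (.node 4 8 .nil (.node 5 7 (.cons 0x4576109832 (.cons 0x9016754832 (.cons 0x3216754890 .nil))) (.node 3 5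 (.cons 0x6789012354 (.cons 0x9012354876 .nil)) (.node 2 7 (.cons 0x8905432761 (.cons 0x9084356721 (.cons 0x1276534890 .nil))) (.node 0 3 (.cons 0x6721890354 (.cons 0x9035481276 (.cons 0x7216548903 .nil))) .done .done) .done) .done) (.node 4 7 (.cons 0x5476109832 .nil) (.node 4 6 (.cons 0x5467890123 .nil) (.node 2 8 .nil (.node 3 7 (.cons 0x9845016732 (.cons 0x9823761054 (.cons 0x9016473285 .nil))) .done (.node 6 8 .nil (.node 2 9 (.cons 0x7610548923 (.cons 0x5476832901 (.cons 0x7432905861 .nil))) (.node 1 7 (.cons 0x5617438092 (.cons 0x7168923450 (.cons 0x9058617432 .nil))) .done .done) .done) .done)) .done) (.node 4 6 (.cons 0x5467890123 .nil) (.node 0 6 .nil (.node 3 5 (.cons 0x8901674532 (.cons 0x9876012354 (.cons 0x9845321067 .nil))) (.node 7 9 (.cons 0x7901645832 (.cons 0x5879064321 .nil)) (.leaf 0x2354897601 1 .done) .done) .done) .done) .done)) .done)) .done)) .done)) .done)) .done)))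
noncomputable def tc9_2_9 : T := (.node 3 5 (.cons 0x6789012354 .nil) (.node 0 3 (.cons 0x9854307612 .nil) (.node 2 8 (.cons 0x7654309821 .nil) (.node 0 8 .nil (.node 2 7 (.cons 0x7216543890 (.cons 0x9803456721 (.cons 0x9083456127 .nil))) (.node 5 7 (.cons 0x4328905761 .nil) .done .done) .done) (.node 1 3 (.cons 0x2134567890 .nil) (.node 0 8 .nil (.node 2 7 (.cons 0x7216543890 (.cons 0x9803456721 (.cons 0x9083456127 .nil))) (.node 2 9 (.cons 0x3458921670 (.cons 0x7654312980 (.cons 0x7298056134 .nil))) .done .done) (.node 1 8 (.cons 0x7654309812 .nil) (.node 5 7 (.cons 0x6754309812 .nil) (.node 4 8 (.cons 0x3216754890 .nil) (.node 6 8 (.cons 0x4576890321 .nil) .done .done) .done) .done) .done)) (.node 1 8 (.cons 0x7654309812 .nil) (.node 3 9 (.cons 0x8216709354 .nil) (.node 3 7 (.cons 0x4567309821 .nil) (.node 1 9 (.cons 0x6703458912 .nil) (.node 3 6 (.cons 0x4507361982 .nil) .done .done) .done) .done) .done) .done)) .done)) (.node 1 3 (.cons 0x2134567890 .nil) (.node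 0 8 .nil (.node 2 9 (.cons 0x3458921670 (.cons 0x7654312980 (.cons 0x4356780921 (.cons 0x7613298054 .nil)))) (.node 0 6 (.cons 0x9213456087 .nil) .done .done) .done) .done) .done)) (.node 0 3 (.cons 0x9854307612 .nil) (.node 2 8 (.cons 0x9034567821 .nil) (.node 0 8 .nil (.node 2 7 (.cons 0x7216543890 (.cons 0x9805432761 (.cons 0x9083456127 .nil))) (.node 4 9 (.cons 0x6549038721 (.cons 0x9458032761 .nil)) (.node 1 7 (.cons 0x4356712890 (.cons 0x9430821765 (.cons 0x5671280943 (.cons 0x9430856712 .nil)))) .done (.leaf 0x5490387216 1 (.leaf 0x387216549 0 .done))) .done) .done) (.node 1 3 (.cons 0x2134567890 .nil) (.node 3 6 (.cons 0x4536709821 .nil) (.node 3 7 (.cons 0x4509823761 .nil) (.node 3 9 (.cons 0x4507613982 .nil) .done .done) (.node 3 7 (.cons 0x4509823761 .nil) (.node 3 9 (.cons 0x4507613982 .nil) .done .done) .done)) (.node 3 9 (.cons 0x9307612854 .nil) (.node 3 6 (.cons 0x4536709821 .nil) (.node 3 7 (.cons 0x4509823761 .nil) .done .done) .done) .done)) .done))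 (.node 0 8 .nil (.node 1 3 (.cons 0x2134567890 (.cons 0x9087654312 .nil)) (.node 2 9 (.cons 0x3458921670 (.cons 0x7654312980 (.cons 0x7613298054 .nil))) (.node 0 6 (.cons 0x9213456087 .nil) .done (.node 4 7 (.cons 0x1674329850 (.cons 0x5089234761 (.cons 0x7438092165 (.cons 0x4765310892 .nil)))) .done .done)) .done) .done) .done)) .done)) (.node 1 8 (.cons 0x7618905432 .nil) (.node 0 8 .nil (.node 1 3 (.cons 0x2134567890 (.cons 0x9087654312 .nil)) (.node 2 7 (.cons 0x8905432761 (.cons 0x9805432761 .nil)) (.node 3 9 (.cons 0x8093456721 (.cons 0x6543908721 (.cons 0x9327610854 .nil))) (.leaf 0x4567218093 0 .done) (.leaf 0x9054327618 0 (.node 2 8 .nil (.node 7 9 (.cons 0x5432167980 (.cons 0x1679823450 (.cons 0x5432809761 .nil))) (.leaf 0x2345097618 0 .done) .done) .done))) .done) .done) (.node 0 8 .nil (.node 1 3 (.cons 0x2134567890 (.cons 0x9087654312 .nil)) (.node 2 9 (.cons 0x3458921670 (.cons 0x7654312980 (.cons 0x7613298054 .nil))) (.node 3 7 (.cons 0x6129854370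 (.cons 0x6543780921 .nil)) (.node 2 7 (.cons 0x8905432761 (.cons 0x1654372980 (.cons 0x8092734561 (.cons 0x7298056134 (.cons 0x4561372980 .nil))))) .done .done) (.node 7 9 (.cons 0x4508976132 .nil) (.node 0 2 (.cons 0x8976543120 (.cons 0x6120798543 .nil)) (.node 3 9 (.cons 0x6793458120 (.cons 0x8543970216 .nil)) (.leaf 0x4390218765 1 .done) .done) (.leaf 0x4321679085 0 .done)) .done)) (.node 1 9 (.cons 0x7619805432 .nil) (.node 0 3 (.cons 0x8765430912 (.cons 0x6703458912 .nil)) .done (.node 3 5 (.cons 0x6789012354 (.cons 0x4356780912 .nil)) (.node 0 3 (.cons 0x9854307612 .nil) (.node 2 4 (.cons 0x7653890124 (.cons 0x7653421980 (.cons 0x5678091243 (.cons 0x9124308567 .nil)))) (.node 7 9 (.cons 0x6587912430 (.cons 0x7916580342 (.cons 0x9761230854 .nil))) .done .done) .done) .done) .done)) .done)) (.node 2 8 .nil (.node 0 3 (.cons 0x9854307612 (.cons 0x9034567821 (.cons 0x7654309821 .nil))) .done (.node 4 8 .nil (.node 3 7 (.cons 0x4509823761 (.cons 0x9845016732 (.cons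 0x9054823761 (.cons 0x5489016732 .nil)))) .done (.node 6 8 .nil (.node 0 3 (.cons 0x9854307612 .nil) (.node 1 9 (.cons 0x8765430912 (.cons 0x7865430912 .nil)) (.node 2 9 (.cons 0x3458921670 (.cons 0x7681290345 (.cons 0x7865430921 .nil))) .done .done) (.node 5 7 (.cons 0x6754309812 (.cons 0x9034576812 (.cons 0x4576890321 .nil))) .done .done)) .done) .done)) .done)) .done)) .done)) (.node 5 7 (.cons 0x4576109832 .nil) (.node 4 8 (.cons 0x9016754832 .nil) (.node 0 8 .nil (.node 7 9 (.cons 0x6109754832 (.cons 0x3480975612 .nil)) (.leaf 0x4321679085 0 (.node 3 7 (.cons 0x9084375612 .nil) (.leaf 0x4561237908 1 (.leaf 0x8456123790 0 .done)) .done)) (.node 1 8 (.cons 0x7618905432 .nil) (.node 2 8 .nil (.node 3 9 (.cons 0x7561280934 (.cons 0x7561284390 .nil)) (.leaf 0x167548239 0 (.leaf 0x2390167548 1 .done)) (.node 6 8 .nil (.node 2 9 (.cons 0x3458921670 (.cons 0x3457681290 (.cons 0x2907543861 (.cons 0x7509234861 .nil)))) .done .done) .done)) .done) .done)) (.node 1 8 (.cons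 0x7618905432 .nil) (.node 1 5 .nil (.node 2 7 (.cons 0x8905432761 (.cons 0x3489051672 (.cons 0x4516723890 .nil))) (.node 0 8 (.cons 0x9805432761 (.cons 0x9805167234 .nil)) .done .done) .done) (.node 6 8 .nil (.node 0 8 (.cons 0x9086123457 .nil) .done (.node 2 8 (.cons 0x9057618234 .nil) (.node 0 8 .nil (.node 2 9 (.cons 0x3458921670 (.cons 0x5761290843 .nil)) (.leaf 0x5761092384 0 (.node 3 7 (.cons 0x7345612890 (.cons 0x4508923761 (.cons 0x9082165734 .nil))) .done .done)) .done) .done) .done)) .done)) .done)) (.node 4 8 (.cons 0x3216754890 .nil) (.node 0 6 (.cons 0x7548906123 .nil) (.node 0 4 (.cons 0x2389045761 .nil) (.node 3 6 (.cons 0x8904576321 .nil) (.node 0 8 (.cons 0x9804576321 .nil) (.node 0 2 (.cons 0x3456789021 .nil) (.node 0 3 (.cons 0x9845703612 .nil) .done .done) .done) (.node 0 3 (.cons 0x9854307612 .nil) (.node 3 9 (.cons 0x9321067854 .nil) (.node 3 5 (.cons 0x4890753612 .nil) (.node 1 3 (.cons 0x2134567890 .nil) (.node 3 7 (.cons 0x6123754890 .nil)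 .done .done) .done) .done) .done) .done)) .done) (.node 0 3 (.cons 0x9854307612 .nil) (.leaf 0x2167548903 0 (.leaf 0x9845761230 1 (.node 0 8 .nil (.node 3 9 (.cons 0x4576123980 .nil) (.leaf 0x2167548093 0 (.leaf 0x932167548 1 (.node 0 4 (.cons 0x9321675804 .nil) (.node 2 4 (.cons 0x5893421670 (.cons 0x4239805761 (.cons 0x5678093421 .nil))) .done .done) .done))) .done) .done))) .done)) (.node 1 8 (.cons 0x7618905432 .nil) (.node 2 7 (.cons 0x8905432761 .nil) (.node 0 8 (.cons 0x9805432761 .nil) (.node 0 6 (.cons 0x9816054327 .nil) (.node 7 9 (.cons 0x6189723450 .nil) (.node 1 9 (.cons 0x8916723450 .nil) (.node 0 2 (.cons 0x5438916720 .nil) (.leaf 0x9834502761 1 (.leaf 0x1983450276 0 .done)) .done) (.leaf 0x978123456 1 .done)) .done) .done) (.node 2 5 (.cons 0x2543890761 .nil) (.node 5 9 (.cons 0x6183459072 .nil) (.node 3 5 (.cons 0x6789012354 .nil) (.node 1 5 .nil (.node 2 9 (.cons 0x3458921670 (.cons 0x6784351290 (.cons 0x3845167290 .nil))) .done .done) .done) .done)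 (.node 3 9 (.cons 0x5483901672 .nil) (.leaf 0x4839016725 0 (.node 0 8 (.cons 0x6543908721 .nil) (.node 2 8 (.cons 0x7283901654 .nil) (.node 6 8 (.cons 0x9345861270 .nil) .done .done) .done) (.leaf 0x1093845276 0 .done))) .done)) (.leaf 0x9054327618 0 .done))) (.node 0 8 .nil (.node 2 7 (.cons 0x8905432761 (.cons 0x9805432761 .nil)) (.node 1 3 (.cons 0x2134567890 (.cons 0x9087654312 (.cons 0x9087213456 .nil))) (.node 2 9 (.cons 0x3458921670 (.cons 0x7654312980 (.cons 0x7290834561 (.cons 0x9276134805 (.cons 0x7613298054 .nil))))) .done .done) (.node 7 9 (.cons 0x5432167980 .nil) (.node 0 4 (.cons 0x9761850432 (.cons 0x6798540123 .nil)) (.node 3 6 (.cons 0x5634098721 (.cons 0x4057981632 (.cons 0x5634097812 (.cons 0x5897043612 .nil)))) .done .done) (.leaf 0x4321679085 0 .done)) .done)) (.node 0 4 (.cons 0x2389045761 .nil) (.node 0 3 (.cons 0x9854307612 .nil) (.node 2 8 (.cons 0x7654309821 .nil) (.node 6 8 (.cons 0x4576890321 .nil) .done .done) (.node 0 6 .nil (.node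 0 2 (.cons 0x3456789021 .nil) (.node 1 4 (.cons 0x5678903412 (.cons 0x9832067541 (.cons 0x7541609832 .nil))) .done .done) .done) .done)) (.node 2 8 .nil (.node 3 7 (.cons 0x5673409812 (.cons 0x9821045673 (.cons 0x9082165437 (.cons 0x5673409821 .nil)))) .done (.node 6 8 .nil (.node 3 7 (.cons 0x3765409821 (.cons 0x9867321045 (.cons 0x9086123754 .nil))) (.node 0 3 (.cons 0x9854307612 .nil) (.node 4 9 (.cons 0x9403765821 (.cons 0x6875490321 .nil)) (.leaf 0x8940123765 1 .done) .done) .done) .done) .done)) .done)) .done)) .done)) .done)) .done)) .done)))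
noncomputable def tc9_2_10 : T := (.node 0 6 .nil (.node 5 7 (.cons 0x8906754321 .nil) (.node 6 8 (.cons 0x1234576890 .nil) (.leaf 0x9867543210 1 (.node 0 2 (.cons 0x7543209861 .nil) (.node 1 9 (.cons 0x8619075432 (.cons 0x7602198543 .nil)) (.node 3 8 (.cons 0x7654389021 (.cons 0x6543870912 (.cons 0x9120765834 .nil))) .done (.node 0 4 (.cons 0x9168570432 (.cons 0x6758912043 .nil)) .done .done)) (.node 1 5 (.cons 0x7516890234 .nil) (.node 4 8 (.cons 0x9021567843 (.cons 0x7561209843 (.cons 0x5761209843 .nil))) .done .done) .done)) (.node 2 8 (.cons 0x4328905761 .nil) (.node 1 5 (.cons 0x7615098234 .nil) (.node 6 9 (.cons 0x4328769051 (.cons 0x1543287690 .nil)) .done (.node 3 7 (.cons 0x9823761054 (.cons 0x4378906512 (.cons 0x9073286154 .nil))) .done .done)) (.node 3 9 (.cons 0x6543907821 (.cons 0x7601239854 (.cons 0x8612390754 (.cons 0x8216570934 (.cons 0x4570932861 .nil))))) .done .done)) .done))) (.node 2 7 (.cons 0x8905432761 .nil) (.node 3 9 (.cons 0x8932761054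 (.cons 0x7601239854 (.cons 0x1278934560 .nil))) (.node 0 4 (.cons 0x4067589321 (.cons 0x5604398721 .nil)) (.node 1 5 (.cons 0x8934051672 (.cons 0x9340678512 (.cons 0x4398721560 .nil))) .done .done) (.node 7 9 (.cons 0x1234589760 .nil) (.leaf 0x8543210679 0 (.leaf 0x6798543210 1 (.node 3 8 (.cons 0x4576123890 (.cons 0x5438972160 .nil)) (.leaf 0x9721605438 0 .done) .done))) .done)) (.node 1 9 (.cons 0x4327619850 (.cons 0x9123458706 .nil)) (.node 0 4 (.cons 0x4067589123 .nil) (.node 3 7 (.cons 0x9856127340 (.cons 0x5604378912 (.cons 0x4061985732 .nil))) .done (.leaf 0x5891672340 0 .done)) (.node 0 2 (.cons 0x7602198543 .nil) (.node 3 7 (.cons 0x6543789021 (.cons 0x9873456021 (.cons 0x7345891602 .nil))) .done .done) .done)) .done)) .done)) (.node 5 7 .nil (.node 4 9 (.cons 0x1234985760 (.cons 0x7589432160 .nil)) (.leaf 0x6758943210 1 (.leaf 0x1607589432 0 (.leaf 0x6123498570 1 .done))) (.node 0 3 (.cons 0x8903216754 .nil) (.node 0 2 (.cons 0x3456789021 .nil) (.node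 0 4 (.cons 0x8904576123 .nil) (.node 4 8 (.cons 0x3216754890 .nil) (.leaf 0x9845761230 1 (.node 6 8 (.cons 0x4576890321 .nil) (.node 4 7 (.cons 0x5476890321 .nil) (.node 0 8 .nil (.node 3 9 (.cons 0x7456893021 (.cons 0x9321680745 (.cons 0x4756120893 (.cons 0x5476108932 .nil)))) .done .done) .done) .done) .done)) .done) .done) (.node 0 2 (.cons 0x3456789021 .nil) (.node 0 4 (.cons 0x8904576123 .nil) (.node 0 8 .nil (.node 1 3 (.cons 0x2134567890 (.cons 0x9802134567 (.cons 0x9087654312 .nil))) (.node 2 5 (.cons 0x4312567890 (.cons 0x9087652134 .nil)) (.node 2 4 (.cons 0x6578903124 (.cons 0x9805761324 .nil)) (.node 3 8 (.cons 0x9083245761 .nil) .done .done) .done) .done) .done) .done) .done) .done)) .done)) .done)) (.node 0 6 .nil (.node 5 7 (.cons 0x8906754321 .nil) (.node 3 8 (.cons 0x4389075612 (.cons 0x4576109832 .nil)) (.node 0 2 (.cons 0x7654389021 .nil) (.leaf 0x1675438902 0 (.leaf 0x9834576120 1 .done)) (.node 1 8 (.cons 0x7618905432 .nil) (.node 4 6 (.cons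 0x5709816432 .nil) (.node 0 2 (.cons 0x9812075643 (.cons 0x7561209834 .nil)) (.node 3 9 (.cons 0x5467893210 (.cons 0x2189346570 (.cons 0x6457893210 (.cons 0x9320187546 .nil)))) .done .done) (.node 3 9 (.cons 0x5643907812 (.cons 0x7601239854 (.cons 0x4657839012 (.cons 0x6457810932 .nil)))) .done .done)) (.node 2 5 (.cons 0x9067812543 (.cons 0x7609812543 .nil)) (.node 1 4 (.cons 0x9850761432 (.cons 0x9870652143 (.cons 0x9065214387 .nil))) (.node 7 9 (.cons 0x4325897061 .nil) (.leaf 0x3879065214 0 (.leaf 0x6097834125 0 .done)) .done) (.node 1 3 (.cons 0x2134567890 (.cons 0x7890654312 .nil)) (.node 4 9 (.cons 0x5894321670 (.cons 0x6123498570 (.cons 0x3125498760 (.cons 0x1325498760 .nil)))) (.leaf 0x652134987 0 .done) (.node 0 3 (.cons 0x6754309812 .nil) (.node 0 8 (.cons 0x9087654312 .nil) .done .done) .done)) .done)) .done)) .done)) (.node 4 9 (.cons 0x5894321670 (.cons 0x7061234985 .nil)) (.node 1 8 (.cons 0x7618905432 (.cons 0x9432185706 (.cons 0x9432185760 .nil)))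 (.node 3 8 (.cons 0x8321094576 (.cons 0x5760943812 .nil)) (.node 2 7 (.cons 0x7216543890 (.cons 0x7210654983 (.cons 0x6094572183 .nil))) .done (.leaf 0x675498321 0 .done)) .done) (.node 1 9 (.cons 0x8754321906 .nil) (.node 0 3 (.cons 0x8765430912 (.cons 0x4307658912 .nil)) (.node 2 7 (.cons 0x6543098721 (.cons 0x8916723450 .nil)) (.leaf 0x1270349856 1 .done) .done) (.node 0 2 (.cons 0x5876021943 (.cons 0x8576021943 .nil)) (.node 0 3 (.cons 0x5876034912 (.cons 0x8576034912 .nil)) .done .done) .done)) (.leaf 0x612349857 0 .done))) (.node 7 9 (.cons 0x1234589760 .nil) (.leaf 0x8543210679 0 (.node 2 7 (.cons 0x8905432761 .nil) (.node 3 8 (.cons 0x4576123890 (.cons 0x5438972160 .nil)) (.leaf 0x9721605438 0 (.node 0 2 (.cons 0x3458976021 (.cons 0x5438972061 .nil)) (.node 5 9 (.cons 0x4598327610 (.cons 0x4598327601 (.cons 0x8345972061 .nil))) .done .done) .done)) (.node 0 2 (.cons 0x3458976021 .nil) (.node 1 3 (.cons 0x2134567890 (.cons 0x9785431206 (.cons 0x7890654312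 .nil))) (.leaf 0x613458972 0 (.node 2 5 (.cons 0x4312567890 (.cons 0x4312589760 .nil)) .done .done)) .done) .done)) (.node 2 7 (.cons 0x8905432761 .nil) (.node 3 9 (.cons 0x8932761054 (.cons 0x7601239854 (.cons 0x1278934560 .nil))) (.node 1 9 (.cons 0x8916723450 (.cons 0x6054327891 .nil)) (.node 0 2 (.cons 0x9120678543 (.cons 0x7602198543 (.cons 0x7985432061 .nil))) .done .done) .done) (.node 0 2 (.cons 0x7985432061 .nil) (.node 2 5 (.cons 0x4325897061 .nil) (.node 4 8 (.cons 0x3216754890 (.cons 0x7548906123 (.cons 0x5216709843 (.cons 0x5234890761 .nil)))) .done .done) .done) .done)) .done))) .done))) (.node 0 2 (.cons 0x3456789021 .nil) (.node 0 3 .nil (.node 7 9 (.cons 0x2167985430 (.cons 0x4589761032 (.cons 0x4589761230 .nil))) (.node 4 9 (.cons 0x8549760123 (.cons 0x7034985612 (.cons 0x5894307612 .nil))) (.node 1 5 (.cons 0x2349851670 (.cons 0x8516079432 .nil)) (.leaf 0x4320761589 0 .done) .done) .done) (.node 3 8 (.cons 0x7654389021 .nil) (.node 0 8 .nil (.node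 1 3 (.cons 0x2134567890 (.cons 0x9802134567 (.cons 0x9087654312 .nil))) .done (.node 0 4 .nil (.node 1 5 (.cons 0x7651209834 (.cons 0x9043876512 .nil)) (.node 1 8 (.cons 0x7618905432 .nil) .done .done) .done) .done)) (.node 5 7 (.cons 0x4576109832 .nil) (.node 3 5 (.cons 0x6789012354 .nil) (.node 3 9 (.cons 0x4398567021 .nil) (.node 0 4 (.cons 0x7658934021 .nil) (.node 0 8 (.cons 0x9340857612 .nil) .done .done) .done) .done) (.node 0 4 (.cons 0x2389045761 .nil) (.node 0 8 .nil (.node 2 7 (.cons 0x6543098721 (.cons 0x9805432761 .nil)) (.node 1 3 (.cons 0x2134567890 (.cons 0x9802134567 (.cons 0x9087654312 .nil))) (.node 1 9 (.cons 0x9123458760 (.cons 0x6190832754 (.cons 0x5438091672 .nil))) .done .done) .done) .done) .done) .done)) .done)) .done)) (.node 0 3 .nil (.node 7 9 (.cons 0x2167985430 (.cons 0x4589761032 (.cons 0x4589761230 .nil))) (.node 0 4 (.cons 0x6798540123 .nil) (.node 0 8 (.cons 0x5432167980 .nil) .done .done) .done) (.node 0 4 .nil (.node 3 9 (.cons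 0x7021658934 (.cons 0x7043985612 (.cons 0x7610458932 .nil))) (.node 1 9 (.cons 0x9123458760 (.cons 0x7856043912 (.cons 0x5876043912 .nil))) .done .done) (.node 0 8 .nil (.node 3 7 (.cons 0x6543789021 (.cons 0x9802165437 .nil)) (.node 4 9 (.cons 0x5894321670 (.cons 0x9458012376 (.cons 0x9437085612 (.cons 0x9458016732 .nil)))) .done (.node 3 9 (.cons 0x5893407612 .nil) (.node 7 9 (.cons 0x6012397854 (.cons 0x7934580612 (.cons 0x7932160854 .nil))) .done (.node 2 4 (.cons 0x9854237610 (.cons 0x9801673245 (.cons 0x5678093421 .nil))) (.node 1 5 (.cons 0x9340678512 (.cons 0x4390876512 .nil)) (.leaf 0x2439807651 0 .done) .done) .done)) .done)) .done) .done)) .done)) .done)) .done)) (.node 3 8 (.cons 0x5438907612 .nil) tc9_2_9 .done)))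
noncomputable def uc9_2_1 : T := (.node 0 7 (.cons 0x9854321670 .nil) tc9_2_10 (.node 0 7 (.cons 0x8907612345 .nil) tc9_2_8 (.node 0 7 (.cons 0x4589076123 .nil) tc9_2_7 .done)))
theorem sub_c9_2_1 : root 9 refs9_2 [] 0x700000008706000000006050000000050300060000304000200004010000000010300000000302000060002018000200010 0xfe7fff3fff9fff97ffe3ffedfff5fff3ffb9fef9 9 5 8 (.cons 0x7612345890 .nil) uc9_2_1 = true := by decide +kernel
noncomputable def tc9_2_11 : T := (.node 6 8 (.cons 0x1234598670 .nil) (.leaf 0x9543210768 0 (.leaf 0x7689543210 1 (.leaf 0x3459078612 0 (.node 2 8 (.cons 0x9054328761 (.cons 0x9078216543 .nil)) (.node 0 3 (.cons 0x4307659821 .nil) (.node 1 9 (.cons 0x9128765430 (.cons 0x9128703456 (.cons 0x8219567034 (.cons 0x4591286703 .nil)))) .done (.leaf 0x7612895430 1 (.leaf 0x4598216703 0 .done))) (.node 1 8 (.cons 0x9507618234 .nil) (.leaf 0x9543281670 1 (.leaf 0x954328167 0 .done)) .done)) .done)))) (.node 1 8 (.cons 0x8123459076 .nil) (.node 6 9 (.cons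 0x8123459670 .nil) (.node 5 8 (.cons 0x4321859670 .nil) (.node 1 5 (.cons 0x6907851234 .nil) .done (.node 6 8 (.cons 0x9543218670 .nil) (.node 1 5 .nil (.node 0 2 (.cons 0x3456789021 (.cons 0x7689023451 (.cons 0x9023451687 (.cons 0x9518670234 .nil)))) .done (.node 4 8 (.cons 0x3487096512 .nil) (.node 2 8 (.cons 0x9054328761 .nil) (.node 3 8 (.cons 0x4387096512 .nil) .done .done) .done) .done)) .done) .done)) (.node 3 9 (.cons 0x5439087612 .nil) (.node 4 9 .nil (.node 2 7 (.cons 0x8721654390 (.cons 0x8723945016 (.cons 0x8167234950 (.cons 0x6187239450 .nil)))) .done (.node 1 9 (.cons 0x8761905432 .nil) (.node 2 9 (.cons 0x6543921870 .nil) (.node 7 9 .nil (.node 0 2 (.cons 0x3456789021 (.cons 0x3456798120 (.cons 0x8790216543 (.cons 0x4397816502 .nil)))) .done .done) .done) .done) .done)) (.node 1 5 .nil (.node 0 2 (.cons 0x3456789021 (.cons 0x7698154320 (.cons 0x4396518702 (.cons 0x8159670234 .nil)))) .done (.node 1 3 (.cons 0x2134567890 .nil) (.node 3 6 (.cons 0x9543670812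 .nil) (.node 4 6 (.cons 0x8709346512 .nil) (.node 3 7 (.cons 0x8095437612 .nil) (.node 5 8 (.cons 0x2376458901 .nil) (.leaf 0x6458901237 0 .done) .done) .done) .done) .done) .done)) .done)) (.leaf 0x7695432180 1 .done))) (.node 1 5 .nil (.node 2 8 (.cons 0x9054328761 (.cons 0x9051678234 .nil)) (.node 3 6 (.cons 0x9543670821 (.cons 0x9512807634 (.cons 0x4510987632 .nil))) (.node 2 4 (.cons 0x9876324501 .nil) (.node 3 7 (.cons 0x9543761280 (.cons 0x8095124376 .nil)) (.leaf 0x5437612809 0 .done) (.leaf 0x6342159807 0 (.leaf 0x5124367089 0 .done))) (.node 4 8 (.cons 0x7632109845 .nil) (.leaf 0x6321548907 0 .done) .done)) (.node 1 9 (.cons 0x8761905432 .nil) (.leaf 0x7619054328 0 (.node 4 9 (.cons 0x3287615490 .nil) (.leaf 0x7615094328 0 (.node 2 7 (.cons 0x9054327816 (.cons 0x8723490516 .nil)) (.node 0 6 (.cons 0x3459806721 (.cons 0x9806721543 (.cons 0x3498721560 .nil))) .done .done) .done)) .done)) .done)) (.node 5 8 .nil (.node 4 8 (.cons 0x7612348590 .nil) (.leaf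 0x2348590761 0 (.leaf 0x9584321670 0 .done)) (.node 5 7 .nil (.node 6 8 (.cons 0x8670954321 .nil) (.leaf 0x7543210986 0 (.leaf 0x9867543210 1 (.node 1 3 (.cons 0x2134567890 (.cons 0x4576890132 .nil)) (.node 0 4 (.cons 0x5678904312 (.cons 0x6578904312 .nil)) (.node 2 6 (.cons 0x7095432681 (.cons 0x4312675980 (.cons 0x9075432681 (.cons 0x7562189043 .nil)))) (.leaf 0x5789043126 1 .done) .done) .done) .done))) .done) .done)) .done)) (.node 1 9 (.cons 0x8761905432 .nil) (.node 1 3 (.cons 0x2134567890 .nil) (.node 1 5 .nil (.node 2 9 (.cons 0x6789231054 (.cons 0x8761509234 .nil)) (.node 3 8 (.cons 0x4509238761 (.cons 0x4516783290 .nil)) (.node 0 3 (.cons 0x4567892130 (.cons 0x4309876512 .nil)) (.node 4 6 (.cons 0x1329876450 (.cons 0x7645129803 (.cons 0x8159076432 .nil))) (.leaf 0x2138076459 0 .done) .done) .done) .done) .done) (.node 2 8 (.cons 0x7654312890 .nil) (.node 3 9 (.cons 0x6543912870 .nil) (.node 2 9 (.cons 0x9280543167 .nil) (.node 1 4 (.cons 0x8214395670 .nil)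 (.leaf 0x3956708214 0 (.node 6 8 (.cons 0x5934128670 .nil) (.leaf 0x2867054139 1 (.leaf 0x7054139286 0 .done)) .done)) .done) (.node 3 8 (.cons 0x6543870912 .nil) (.node 0 3 (.cons 0x9128703456 .nil) (.node 4 8 (.cons 0x9567034821 .nil) (.leaf 0x3076591284 0 .done) .done) .done) .done)) (.node 3 7 (.cons 0x8095437612 .nil) (.node 3 8 (.cons 0x6543870912 .nil) (.node 3 9 (.cons 0x7821654390 .nil) (.node 1 7 (.cons 0x4390561782 .nil) (.node 3 6 (.cons 0x9054361782 .nil) .done .done) .done) .done) (.leaf 0x9082167345 0 (.node 3 9 (.cons 0x7821654390 .nil) (.node 2 9 (.cons 0x1654378290 .nil) (.node 4 8 (.cons 0x7316548290 .nil) (.leaf 0x1673284590 1 (.leaf 0x9231678450 0 .done)) .done) .done) .done))) (.leaf 0x6543128907 0 .done))) .done)) (.node 1 7 .nil (.node 2 6 (.cons 0x4326718950 (.cons 0x8905432671 .nil)) (.node 1 3 (.cons 0x2678913450 .nil) (.leaf 0x6213459807 0 (.leaf 0x5431267089 0 .done)) (.leaf 0x987162345 1 (.leaf 0x5098716234 0 .done))) (.node 0 6 (.cons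 0x8954321760 .nil) (.node 0 4 (.cons 0x6718950432 .nil) (.node 0 2 (.cons 0x3456789021 .nil) (.node 0 3 (.cons 0x8956712034 .nil) .done .done) .done) (.node 5 7 .nil (.node 1 5 (.cons 0x6098751234 .nil) .done (.node 2 7 .nil (.node 1 3 (.cons 0x2134567890 (.cons 0x4318905672 (.cons 0x6543127890 .nil))) .done (.node 3 7 (.cons 0x8095437612 .nil) (.node 7 9 .nil (.node 0 2 (.cons 0x3456789021 (.cons 0x8790216543 .nil)) (.node 3 5 (.cons 0x4359806712 (.cons 0x4356798120 (.cons 0x8120976534 (.cons 0x8971206534 .nil)))) .done .done) .done) .done) .done)) .done)) .done)) .done)) .done)) .done))) (.node 0 6 .nil (.node 5 8 (.cons 0x8590761234 (.cons 0x9061234587 .nil)) (.node 4 8 (.cons 0x9584321670 (.cons 0x9584321607 .nil)) (.leaf 0x7612348590 0 .done) (.node 1 7 (.cons 0x8954321760 .nil) (.node 0 3 (.cons 0x8903456712 (.cons 0x6543098712 .nil)) (.node 2 8 (.cons 0x9034567821 (.cons 0x9543082176 (.cons 0x9054328716 (.cons 0x8217659034 .nil)))) .done .done) (.node 2 8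 (.cons 0x9054328761 (.cons 0x3459821760 .nil)) (.node 3 8 (.cons 0x7095612834 (.cons 0x7601238954 (.cons 0x7160954382 .nil))) (.leaf 0x9067128345 0 .done) (.node 3 5 (.cons 0x7612809534 (.cons 0x4359821760 (.cons 0x8217609534 .nil))) (.node 4 9 (.cons 0x7821653490 (.cons 0x7854906123 (.cons 0x7821609435 (.cons 0x5349061782 .nil)))) .done .done) .done)) .done)) .done)) (.node 4 6 (.cons 0x5467890123 .nil) (.node 1 5 (.cons 0x8951234670 .nil) (.node 1 7 (.cons 0x8906712345 .nil) (.node 1 8 (.cons 0x5981234670 .nil) (.node 1 9 (.cons 0x8761905432 .nil) (.node 2 9 (.cons 0x3298764501 .nil) (.node 0 2 (.cons 0x3456789021 .nil) (.node 3 9 (.cons 0x5467893210 .nil) (.leaf 0x5439021876 0 .done) .done) (.leaf 0x6187059234 0 .done)) .done) (.node 1 9 (.cons 0x8761905432 .nil) (.node 2 8 (.cons 0x9054328761 .nil) (.leaf 0x1643287059 1 (.node 5 8 (.cons 0x7609854321 .nil) (.node 0 2 (.cons 0x3456789021 .nil) (.node 2 5 (.cons 0x3465219870 .nil) .done .done) .done) (.leaf 0x6195078234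 0 .done))) .done) .done)) .done) (.node 5 8 (.cons 0x7609854321 .nil) (.node 3 5 (.cons 0x9876453210 .nil) (.node 2 5 (.cons 0x3467089521 .nil) (.node 5 7 (.cons 0x8906754321 .nil) .done .done) .done) (.node 3 7 (.cons 0x8954673210 .nil) (.leaf 0x5980123764 0 (.node 3 5 (.cons 0x9876453210 .nil) (.node 5 7 (.cons 0x8906754321 .nil) .done .done) (.node 3 6 .nil (.node 2 5 (.cons 0x3467089521 (.cons 0x4367089521 (.cons 0x9087634521 .nil))) .done (.node 3 9 (.cons 0x5467893210 .nil) (.node 1 7 (.cons 0x7123985460 .nil) (.node 0 2 (.cons 0x6543987120 .nil) (.node 0 3 (.cons 0x9870346512 .nil) .done (.leaf 0x9802176345 0 .done)) (.leaf 0x9854607123 0 .done)) .done) .done)) .done))) .done)) .done)) (.node 4 8 (.cons 0x8432167095 .nil) (.node 5 8 (.cons 0x9584321670 .nil) (.node 1 5 (.cons 0x9078516432 .nil) (.node 3 5 (.cons 0x2359846701 .nil) (.node 2 5 (.cons 0x3259846701 .nil) (.node 5 7 (.cons 0x8906754321 .nil) .done .done) .done) .done) (.node 2 8 (.cons 0x9054328761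 .nil) (.node 0 2 (.cons 0x3489567021 .nil) (.node 0 3 (.cons 0x9032167854 .nil) (.node 0 4 (.cons 0x9584076123 .nil) .done .done) .done) (.node 6 8 .nil (.node 1 8 (.cons 0x9507618432 .nil) (.leaf 0x2345907681 0 .done) .done) .done)) .done)) (.node 4 9 .nil (.node 3 5 (.cons 0x2354678901 (.cons 0x6789453210 (.cons 0x8709435612 .nil))) (.leaf 0x1235498760 0 .done) (.node 1 8 (.cons 0x7609812345 .nil) (.node 2 9 (.cons 0x7605432981 .nil) (.node 0 2 (.cons 0x3456789021 .nil) (.node 0 4 (.cons 0x3407659812 .nil) .done .done) (.leaf 0x3481670592 1 (.leaf 0x5076184329 0 .done))) (.node 1 9 (.cons 0x8761905432 .nil) (.node 1 5 .nil (.node 2 8 (.cons 0x9054328761 (.cons 0x1598234670 (.cons 0x7095164823 .nil))) .done (.node 1 3 (.cons 0x2134567890 .nil) (.node 2 8 (.cons 0x1598234670 .nil) (.leaf 0x1345670982 0 (.leaf 0x9821345670 1 .done)) .done) .done)) .done) .done)) .done)) .done)) .done)) .done)) .done)))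
noncomputable def tc9_2_12 : T := (.node 0 7 .nil tc9_2_11 (.node 0 7 (.cons 0x8709543216 .nil) (.node 5 8 .nil (.node 0 6 (.cons 0x7609854321 (.cons 0x7859061234 .nil)) (.node 4 6 (.cons 0x7895460123 (.cons 0x7645890123 .nil)) (.node 1 3 (.cons 0x2134567890 (.cons 0x7895460132 (.cons 0x7645890132 (.cons 0x7890654312 .nil)))) (.node 2 7 (.cons 0x6127809543 (.cons 0x4312789560 (.cons 0x1643278590 (.cons 0x4613278590 .nil)))) .done .done) .done) .done) (.node 3 5 (.cons 0x6789012354 .nil) (.node 2 5 (.cons 0x9087612543 .nil) (.node 1 5 .nil (.node 4 8 (.cons 0x9012354876 .nil) (.node 6 9 (.cons 0x8769012354 (.cons 0x3487096512 (.cons 0x6907845123 .nil))) (.leaf 0x4321569078 1 (.leaf 0x5321096784 0 .done)) (.node 6 8 (.cons 0x7861234590 (.cons 0x9076843251 .nil)) (.node 0 2 (.cons 0x3456789021 (.cons 0x9023487615 .nil)) (.node 0 3 (.cons 0x7861230954 (.cons 0x7689032154 (.cons 0x4309876512 .nil))) .done .done) .done) .done)) .done) (.node 5 7 .nil (.node 0 6 (.cons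 0x8906754321 (.cons 0x8759061234 .nil)) (.node 2 9 (.cons 0x8092167543 .nil) (.node 1 3 (.cons 0x2134567890 (.cons 0x6789231054 (.cons 0x9213458076 (.cons 0x7890654312 .nil)))) (.leaf 0x2908765431 0 .done) (.node 0 4 (.cons 0x9216758043 (.cons 0x8756129043 .nil)) .done .done)) .done) .done) .done)) (.node 1 5 .nil (.node 6 8 (.cons 0x7861234590 (.cons 0x6870951234 .nil)) (.node 0 2 (.cons 0x3456789021 (.cons 0x7689023451 (.cons 0x9023451687 (.cons 0x7861590234 .nil)))) .done (.node 0 3 (.cons 0x7861230954 (.cons 0x4309876512 .nil)) (.node 0 4 (.cons 0x7689045321 (.cons 0x7689045123 .nil)) .done .done) .done)) .done) .done)) (.node 5 7 .nil (.node 6 8 (.cons 0x7861234590 (.cons 0x4321687590 .nil)) (.leaf 0x7543210986 0 (.node 0 2 (.cons 0x3456789021 (.cons 0x9023457861 (.cons 0x4320957861 .nil))) (.node 0 4 (.cons 0x9045876123 .nil) (.node 0 3 (.cons 0x9032167854 .nil) (.node 3 6 (.cons 0x7809543612 (.cons 0x9875401236 (.cons 0x8901236754 .nil))) .done .done) .done)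 .done) .done)) (.node 0 4 (.cons 0x9045876123 .nil) (.node 0 6 .nil (.node 1 9 (.cons 0x8761905432 (.cons 0x8912345760 (.cons 0x4067589123 .nil))) (.node 0 2 (.cons 0x6021987543 .nil) (.node 0 3 (.cons 0x6034578912 .nil) .done .done) .done) (.node 0 2 (.cons 0x3456789021 .nil) (.node 0 3 (.cons 0x9032167854 .nil) .done .done) .done)) (.node 0 3 (.cons 0x9032167854 .nil) (.node 0 2 (.cons 0x3456789021 .nil) (.node 0 6 .nil (.node 1 3 (.cons 0x2134567890 (.cons 0x7895602134 (.cons 0x7890654312 (.cons 0x9875604312 .nil)))) .done .done) .done) (.node 0 2 (.cons 0x3456789021 .nil) (.node 0 6 .nil (.node 1 9 (.cons 0x8761905432 (.cons 0x8912345760 (.cons 0x3406578912 (.cons 0x8912067543 .nil)))) .done .done) .done) .done)) .done)) .done)) .done))) (.node 0 6 .nil (.node 1 5 (.cons 0x6078951234 .nil) (.node 4 6 (.cons 0x6432159870 (.cons 0x8907643215 (.cons 0x8709516432 .nil))) .done (.node 4 6 (.cons 0x5987064321 .nil) (.node 5 8 (.cons 0x5890764321 (.cons 0x9587061234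 .nil)) (.node 3 5 (.cons 0x4670985321 (.cons 0x9876012354 .nil)) (.node 3 7 (.cons 0x1237645890 (.cons 0x9806734512 .nil)) (.leaf 0x6458901237 0 .done) .done) .done) (.leaf 0x789512346 1 .done)) .done)) (.node 5 8 (.cons 0x7609854321 .nil) (.node 1 5 .nil (.node 4 6 (.cons 0x5467890123 (.cons 0x6432159870 (.cons 0x8709516432 .nil))) .done (.node 3 5 (.cons 0x6789012354 .nil) (.node 2 5 (.cons 0x9087612543 .nil) (.node 5 7 (.cons 0x8906754321 .nil) .done .done) .done) .done)) (.node 4 6 (.cons 0x5467890123 .nil) (.node 3 6 (.cons 0x7895463210 .nil) (.node 6 8 (.cons 0x7861234590 .nil) (.node 4 8 (.cons 0x3487095612 .nil) (.node 0 4 (.cons 0x9587046123 .nil) (.node 0 2 (.cons 0x3465987021 .nil) (.node 0 3 (.cons 0x9032167854 .nil) .done .done) .done) .done) .done) (.node 6 8 (.cons 0x7861234590 .nil) (.node 2 6 .nil (.node 1 8 (.cons 0x9507816432 (.cons 0x9507816234 (.cons 0x9054326187 .nil))) .done (.node 6 9 .nil (.node 2 8 (.cons 0x9507823461 (.cons 0x4328705961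 (.cons 0x7823450961 .nil))) .done .done) .done)) .done) .done)) (.node 4 8 (.cons 0x3487095612 .nil) (.node 6 8 (.cons 0x7861234590 .nil) (.node 1 8 (.cons 0x5907816432 .nil) (.node 2 8 (.cons 0x5907823461 .nil) .done .done) .done) (.node 0 4 (.cons 0x9045876123 .nil) (.node 0 2 (.cons 0x3456789021 .nil) (.node 0 3 (.cons 0x9032167854 .nil) .done .done) .done) .done)) .done)) .done)) .done)) .done)) (.node 4 8 (.cons 0x3216784590 .nil) (.node 5 8 .nil (.node 4 6 (.cons 0x5467890123 (.cons 0x7645890123 .nil)) (.node 2 9 (.cons 0x7612908543 (.cons 0x7854610923 (.cons 0x4329058761 .nil))) (.node 0 3 (.cons 0x9548761230 (.cons 0x8765430921 (.cons 0x7654892103 .nil))) (.leaf 0x2167803459 0 (.node 1 5 (.cons 0x3298764510 (.cons 0x7651298430 (.cons 0x7846159230 .nil))) .done .done)) .done) .done) (.node 0 6 (.cons 0x9061234587 .nil) (.node 4 6 (.cons 0x5467890123 .nil) (.node 6 9 (.cons 0x7854321690 .nil) (.node 1 8 (.cons 0x7609812345 .nil) (.node 2 8 (.cons 0x9054328761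 .nil) (.node 6 8 .nil (.node 0 3 (.cons 0x9548761230 (.cons 0x7861230954 .nil)) (.leaf 0x7845903216 1 (.node 0 7 (.cons 0x5870961234 .nil) (.node 1 7 (.cons 0x4617859032 .nil) (.leaf 0x2345869071 0 (.leaf 0x695843217 0 .done)) .done) .done)) .done) .done) .done) .done) .done) (.node 0 7 (.cons 0x9078543216 .nil) (.node 0 3 (.cons 0x9548761230 .nil) (.node 5 7 (.cons 0x4895760321 .nil) (.node 1 8 (.cons 0x7654309812 .nil) (.node 0 2 (.cons 0x3456789021 .nil) (.node 0 4 (.cons 0x6759812304 .nil) .done .done) .done) .done) (.node 0 2 (.cons 0x3456789021 .nil) (.node 0 4 .nil (.node 1 5 (.cons 0x4067895123 (.cons 0x7604895123 .nil)) (.node 3 7 (.cons 0x9548021673 (.cons 0x9587321604 (.cons 0x9843765120 (.cons 0x9845102376 .nil)))) .done .done) .done) .done) .done)) .done) .done)) .done)) (.node 0 6 (.cons 0x7845906123 .nil) (.node 5 8 (.cons 0x7609854321 .nil) (.node 1 8 (.cons 0x7609812345 .nil) (.node 5 7 (.cons 0x8906754321 .nil) (.node 0 3 (.cons 0x8761230954 .nil)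 (.leaf 0x5903216784 0 (.node 3 5 (.cons 0x6789012354 .nil) (.node 2 8 (.cons 0x9054328761 .nil) (.node 6 8 (.cons 0x7689012354 .nil) (.node 3 8 .nil (.node 1 4 (.cons 0x7861459032 (.cons 0x9014576832 (.cons 0x9067541283 .nil))) (.leaf 0x3214590678 0 .done) .done) .done) .done) .done) (.leaf 0x1230954876 0 .done))) .done) .done) .done) (.node 5 7 (.cons 0x4875906123 .nil) (.node 5 8 .nil (.node 2 9 (.cons 0x9234875061 (.cons 0x7612908543 (.cons 0x4329058761 .nil))) (.node 3 7 (.cons 0x8734561290 (.cons 0x4378560921 (.cons 0x4378561290 (.cons 0x6109237854 .nil)))) .done .done) .done) (.node 0 7 .nil (.node 2 9 (.cons 0x3487560921 (.cons 0x8709216543 (.cons 0x5612907843 .nil))) (.node 1 8 (.cons 0x7560921843 (.cons 0x6705432981 (.cons 0x6570921843 .nil))) .done .done) .done) .done)) .done)) (.node 4 6 (.cons 0x5467890123 .nil) (.node 2 9 (.cons 0x3298764501 .nil) (.node 5 8 (.cons 0x7612908543 .nil) (.node 5 7 (.cons 0x8457610923 .nil) (.node 0 7 (.cons 0x9216708543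 .nil) (.node 2 5 (.cons 0x9016784523 .nil) (.node 1 5 (.cons 0x9234851670 .nil) (.node 3 5 (.cons 0x9876453210 .nil) .done .done) .done) .done) .done) (.node 1 8 (.cons 0x7645018923 .nil) (.node 3 8 (.cons 0x7612908345 .nil) (.node 2 8 (.cons 0x9054328761 .nil) (.node 6 8 .nil (.node 1 7 (.cons 0x6718923450 (.cons 0x7168509234 .nil)) (.node 0 3 (.cons 0x7618459230 (.cons 0x8671290345 (.cons 0x5430986712 (.cons 0x7861230954 .nil)))) .done .done) .done) .done) .done) (.node 4 7 (.cons 0x8167432905 .nil) (.node 5 7 (.cons 0x1892346750 .nil) (.node 0 4 (.cons 0x3295761840 .nil) (.leaf 0x7504329816 0 (.leaf 0x2340576189 0 .done)) .done) (.leaf 0x9058167432 0 .done)) .done)) .done)) (.node 0 7 (.cons 0x8709216543 .nil) (.node 5 7 (.cons 0x6129087543 .nil) (.node 5 8 .nil (.node 3 6 (.cons 0x9216345780 (.cons 0x7632109854 (.cons 0x4365870921 (.cons 0x9236458701 .nil)))) .done (.node 4 7 .nil (.node 3 6 (.cons 0x9216345780 (.cons 0x8901236745 .nil)) (.leaf 0x1290875436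 0 (.leaf 0x985476321 0 .done)) (.node 1 7 (.cons 0x6450178923 .nil) (.node 3 7 (.cons 0x8734561290 .nil) (.node 7 9 (.cons 0x6123458790 .nil) .done .done) .done) .done)) .done)) .done) (.node 0 6 .nil (.node 1 5 (.cons 0x3295164870 (.cons 0x4870615923 (.cons 0x4607895123 .nil))) (.node 5 8 (.cons 0x9851234670 (.cons 0x9234851607 (.cons 0x9851234607 .nil))) .done .done) (.node 0 2 (.cons 0x3456789021 .nil) (.node 0 3 (.cons 0x5643078921 .nil) (.node 0 4 .nil (.node 1 5 (.cons 0x3295164870 (.cons 0x6512987043 (.cons 0x6407895123 .nil))) (.leaf 0x2159876403 1 .done) .done) .done) .done) .done)) .done)) (.node 5 8 (.cons 0x4329058761 .nil) (.node 5 7 .nil (.node 1 5 (.cons 0x3298467510 (.cons 0x6157843290 .nil)) .done (.node 4 7 .nil (.node 3 5 (.cons 0x9876453210 (.cons 0x9235847610 (.cons 0x3564789210 .nil))) .done (.node 1 4 (.cons 0x9234167850 .nil) (.leaf 0x2341678509 0 (.node 1 5 (.cons 0x5167843290 .nil) (.node 0 7 (.cons 0x9234851670 .nil) (.node 3 5 (.cons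 0x9876453210 .nil) (.leaf 0x1298076435 1 .done) .done) .done) .done)) .done)) .done)) (.node 7 9 (.cons 0x1643297850 .nil) (.leaf 0x8501643297 0 (.leaf 0x2978501643 1 .done)) .done)) .done))) (.node 5 8 (.cons 0x7645890123 .nil) (.node 0 7 (.cons 0x9854670123 .nil) (.node 5 7 .nil (.node 2 9 (.cons 0x5487610923 (.cons 0x8457610923 (.cons 0x6129087543 .nil))) (.node 0 4 (.cons 0x9234058761 (.cons 0x8756129043 .nil)) .done .done) .done) (.node 0 6 .nil (.node 1 5 (.cons 0x9851234670 (.cons 0x9851234607 .nil)) (.node 3 8 (.cons 0x4389076512 (.cons 0x7832160954 .nil)) (.node 2 7 (.cons 0x4832761590 (.cons 0x9845106723 (.cons 0x4832760951 (.cons 0x3276098451 .nil)))) .done .done) .done) .done) .done)) (.node 0 6 (.cons 0x9061234587 .nil) (.node 0 7 (.cons 0x9078543216 .nil) (.node 5 7 (.cons 0x7589064321 .nil) (.node 1 7 (.cons 0x9857123460 .nil) (.node 3 7 (.cons 0x2371648590 .nil) (.leaf 0x985467321 0 .done) (.leaf 0x4609857123 0 .done)) .done) .done) .done) .done))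 .done)) .done))) .done)))
noncomputable def tc9_2_13 : T := (.node 5 9 (.cons 0x8761234590 .nil) (.node 1 5 (.cons 0x7608951234 .nil) (.node 4 7 (.cons 0x6743215980 (.cons 0x8095123476 (.cons 0x8095167432 .nil))) (.node 3 6 (.cons 0x8954763210 (.cons 0x8901236745 (.cons 0x4510987632 .nil))) (.node 5 8 (.cons 0x9061234587 .nil) (.leaf 0x1236745890 0 (.leaf 0x2367458901 1 .done)) .done) (.node 1 7 (.cons 0x8954321760 .nil) (.node 2 6 (.cons 0x3476215980 (.cons 0x8905176234 (.cons 0x4326789051 .nil))) (.node 0 3 (.cons 0x6215478903 .nil) (.leaf 0x5126743089 0 (.leaf 0x1598034762 1 .done)) .done) .done) .done)) (.node 3 5 (.cons 0x6789012354 (.cons 0x9876012354 .nil)) (.node 1 9 (.cons 0x4356780912 .nil) (.node 1 7 (.cons 0x8954321760 .nil) (.leaf 0x2345980671 0 (.node 2 8 (.cons 0x4356782190 (.cons 0x3459821760 (.cons 0x7821906534 .nil))) (.leaf 0x7619054328 0 .done) .done)) (.node 1 7 (.cons 0x8954321760 .nil) (.leaf 0x2345980671 0 (.node 1 4 (.cons 0x9087653412 (.cons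 0x8950671432 .nil)) (.node 4 6 (.cons 0x9871506432 (.cons 0x5178906432 .nil)) .done .done) .done)) .done)) .done) .done)) (.node 4 6 (.cons 0x7895460123 .nil) (.node 5 8 (.cons 0x7645890123 .nil) (.node 3 7 (.cons 0x9854673210 (.cons 0x6012378954 .nil)) (.node 1 8 (.cons 0x7346590812 (.cons 0x9065437812 (.cons 0x6095437812 .nil))) .done (.leaf 0x1237645890 0 (.node 1 5 (.cons 0x8901546732 .nil) (.node 2 8 (.cons 0x5467328901 .nil) (.leaf 0x982376451 0 (.leaf 0x7328901546 0 .done)) .done) .done))) (.node 3 7 (.cons 0x1237645890 (.cons 0x6012378954 .nil)) (.node 1 8 (.cons 0x7346590812 (.cons 0x9065437812 (.cons 0x6095437812 .nil))) (.node 2 8 (.cons 0x7346590821 (.cons 0x9065437821 .nil)) .done .done) (.leaf 0x2376458901 1 (.leaf 0x6458901237 0 .done))) .done)) (.node 1 5 (.cons 0x7809516432 .nil) (.node 4 9 (.cons 0x7608943215 .nil) (.node 3 5 (.cons 0x2354678901 (.cons 0x9467801532 (.cons 0x7649801532 .nil))) .done (.node 2 7 (.cons 0x9516432780 (.cons 0x3278954601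 (.cons 0x6087215943 (.cons 0x1598723460 .nil)))) (.node 0 3 (.cons 0x8945127603 (.cons 0x9872306451 .nil)) (.node 3 5 (.cons 0x2354678901 (.cons 0x7608943512 .nil)) .done .done) .done) .done)) (.node 3 5 (.cons 0x2354678901 (.cons 0x9876012354 .nil)) (.node 1 3 (.cons 0x2134567890 (.cons 0x7895460132 (.cons 0x7890654312 .nil))) (.node 1 7 (.cons 0x5908716432 (.cons 0x7159806432 .nil)) (.node 1 9 (.cons 0x4356780912 .nil) .done .done) .done) .done) .done)) .done)) (.node 5 8 (.cons 0x9061234587 .nil) (.node 5 7 (.cons 0x8906754321 .nil) (.node 1 5 (.cons 0x9806751234 .nil) (.node 4 9 (.cons 0x9432167580 (.cons 0x4957806123 .nil)) (.leaf 0x2349806751 0 (.leaf 0x1675809432 0 (.leaf 0x894321576 0 .done))) .done) (.node 0 7 (.cons 0x6709854321 .nil) (.node 2 9 (.cons 0x6129078543 (.cons 0x4329058761 .nil)) (.node 1 3 (.cons 0x2134567890 (.cons 0x6789231054 (.cons 0x6709854312 (.cons 0x7890654312 .nil)))) (.node 4 8 (.cons 0x4876132950 (.cons 0x6578431290 (.cons 0x5487610923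 .nil))) (.leaf 0x3129056784 1 .done) .done) (.node 1 8 (.cons 0x7605432981 (.cons 0x8129067543 .nil)) (.leaf 0x5432907618 0 .done) .done)) .done) .done)) (.node 3 8 (.cons 0x7832160954 .nil) (.node 0 2 (.cons 0x7654389021 (.cons 0x9021654387 .nil)) (.node 0 7 (.cons 0x8321670954 .nil) (.node 2 5 (.cons 0x6709834521 (.cons 0x9078345216 .nil)) (.node 1 4 (.cons 0x3214598760 .nil) (.leaf 0x987614325 1 (.leaf 0x952341678 1 (.leaf 0x8095234167 0 (.leaf 0x5098761432 0 .done)))) .done) .done) .done) (.node 4 8 (.cons 0x3216784590 (.cons 0x7845906123 .nil)) (.node 5 7 (.cons 0x8906754321 .nil) (.node 4 9 (.cons 0x5490167832 (.cons 0x9432167580 (.cons 0x3490875612 .nil))) (.leaf 0x7612349085 0 .done) (.node 6 8 (.cons 0x9068754321 .nil) (.node 2 8 (.cons 0x9054328761 .nil) (.node 3 9 (.cons 0x7821654390 (.cons 0x7601239854 (.cons 0x4578609321 (.cons 0x4390657821 .nil)))) .done .done) .done) .done)) .done) .done)) .done)) .done))) (.node 0 2 (.cons 0x3456789021 .nil) (.node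 4 6 (.cons 0x5467890123 .nil) (.node 0 7 .nil (.node 5 9 (.cons 0x8761234590 (.cons 0x5980764321 (.cons 0x6459870123 .nil))) (.node 0 3 (.cons 0x6459870321 .nil) .done .done) (.node 0 3 .nil (.node 2 8 (.cons 0x9054328761 (.cons 0x9034561287 .nil)) (.node 5 9 (.cons 0x8761234590 (.cons 0x6703459821 (.cons 0x9543078216 (.cons 0x8761230954 .nil)))) .done (.node 5 9 (.cons 0x8761234590 (.cons 0x3076459821 (.cons 0x9546128703 (.cons 0x8761230954 .nil)))) .done .done)) (.node 0 4 .nil (.node 1 3 (.cons 0x2134567890 (.cons 0x5678904312 .nil)) (.node 1 7 (.cons 0x6543098712 .nil) (.node 2 5 (.cons 0x9871256430 (.cons 0x9804312567 (.cons 0x6521789043 (.cons 0x9871256403 .nil)))) (.node 2 7 (.cons 0x6543098721 (.cons 0x9872130456 .nil)) .done .done) .done) (.node 2 7 (.cons 0x6543098721 (.cons 0x9804312765 (.cons 0x8904312765 (.cons 0x8904567213 .nil)))) .done .done)) .done) .done)) .done)) (.node 0 3 .nil (.node 2 8 (.cons 0x9054328761 (.cons 0x9034561287 .nil)) (.node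 5 9 (.cons 0x8761234590 (.cons 0x7645982301 (.cons 0x9546103287 (.cons 0x8761230954 .nil)))) .done (.node 5 9 (.cons 0x8761234590 (.cons 0x7823095461 (.cons 0x8761230954 .nil))) (.node 1 7 (.cons 0x8906712345 (.cons 0x1764598230 .nil)) (.leaf 0x9823017645 1 (.node 1 9 (.cons 0x8761905432 (.cons 0x7823091645 .nil)) (.leaf 0x7619054328 0 .done) .done)) .done) .done)) (.node 0 7 .nil (.node 5 8 (.cons 0x7609854321 (.cons 0x9078543216 .nil)) (.node 2 9 (.cons 0x9230164587 (.cons 0x3298546701 (.cons 0x8709216543 (.cons 0x9216587034 (.cons 0x9230785461 .nil))))) .done (.node 2 8 (.cons 0x9054328761 (.cons 0x9078216543 .nil)) (.node 5 9 (.cons 0x8761234590 (.cons 0x3289546701 (.cons 0x9546107823 .nil))) .done .done) .done)) (.node 0 4 .nil (.node 1 3 (.cons 0x2134567890 (.cons 0x5678904312 .nil)) (.node 2 9 (.cons 0x5467892310 (.cons 0x5678921340 (.cons 0x3129876540 .nil))) (.node 3 8 (.cons 0x5467013892 (.cons 0x7654013892 .nil)) .done (.leaf 0x1329876450 0 .done)) (.node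 2 7 (.cons 0x6543098721 (.cons 0x9804312765 (.cons 0x8904312765 (.cons 0x8904567213 .nil)))) .done .done)) .done) .done)) .done)) .done)) (.node 2 8 (.cons 0x9054328761 .nil) (.node 5 8 (.cons 0x7609854321 .nil) (.node 3 8 (.cons 0x9021654387 .nil) (.node 1 8 (.cons 0x7609812345 .nil) (.node 4 8 .nil (.node 5 9 (.cons 0x8761234590 (.cons 0x7610954832 (.cons 0x3216784590 .nil))) .done .done) .done) .done) (.node 0 3 (.cons 0x9032167854 .nil) (.node 0 4 (.cons 0x9045876123 .nil) (.node 0 7 .nil (.node 1 3 (.cons 0x2134567890 (.cons 0x9870213456 (.cons 0x9821345670 (.cons 0x9821345607 .nil)))) (.node 5 9 (.cons 0x8761234590 (.cons 0x4312895670 (.cons 0x7065982134 .nil))) .done .done) .done) .done) .done) .done)) (.node 5 8 (.cons 0x7609854321 .nil) (.node 1 9 (.cons 0x8761905432 .nil) (.leaf 0x5091678234 0 (.node 6 8 (.cons 0x7861905432 .nil) (.node 4 6 (.cons 0x5467890123 .nil) (.node 2 6 (.cons 0x7891054623 .nil) (.node 3 6 (.cons 0x7891054632 .nil) .done .done)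 .done) .done) (.leaf 0x7619054328 0 (.node 0 3 (.cons 0x7603458912 .nil) (.node 7 9 (.cons 0x1234589760 .nil) (.leaf 0x6798543210 1 (.leaf 0x6034582197 0 (.node 1 8 (.cons 0x9034567812 .nil) (.node 2 6 (.cons 0x9126785430 .nil) (.node 4 9 (.cons 0x3261879450 .nil) (.node 3 7 (.cons 0x8126549730 .nil) (.leaf 0x1985437602 0 (.leaf 0x9450376281 1 (.leaf 0x4918267305 0 .done))) (.leaf 0x5497816230 1 (.leaf 0x7816230549 0 .done))) (.leaf 0x1879034562 0 .done)) .done) .done))) .done) .done)))) (.node 3 8 (.cons 0x9021654387 .nil) (.node 1 8 (.cons 0x7609812345 .nil) (.node 1 9 (.cons 0x8761905432 .nil) (.leaf 0x5091678234 0 (.node 6 8 (.cons 0x7861905432 .nil) (.node 4 8 .nil (.node 2 9 (.cons 0x9238761054 (.cons 0x9238450167 (.cons 0x5092348761 .nil))) .done .done) .done) (.leaf 0x7619054328 0 .done))) .done) (.node 0 3 .nil (.node 5 9 (.cons 0x8761234590 (.cons 0x8761230954 .nil)) (.node 2 9 (.cons 0x7856129034 .nil) (.node 1 4 (.cons 0x9054167823 (.cons 0x7659803412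 (.cons 0x7654128903 (.cons 0x7614590382 .nil)))) (.leaf 0x3295087614 0 .done) .done) .done) (.node 0 7 (.cons 0x9078543216 .nil) (.node 0 4 .nil (.node 2 9 (.cons 0x8765430921 (.cons 0x7856129043 .nil)) (.node 1 7 (.cons 0x8906712345 (.cons 0x9283045671 (.cons 0x7165834092 .nil))) .done .done) .done) .done) .done)) .done)) .done)) .done)) .done)) .done))
noncomputable def tc9_2_14 : T := (.node 5 8 .nil (.node 0 6 (.cons 0x7609854321 .nil) (.node 1 9 (.cons 0x9167823450 (.cons 0x7605432891 (.cons 0x9160543287 .nil))) (.node 1 8 (.cons 0x9067812345 .nil) (.node 4 8 (.cons 0x5091678432 .nil) (.node 4 6 (.cons 0x7645890123 .nil) (.node 3 9 (.cons 0x5467893210 (.cons 0x7645893210 (.cons 0x7893210645 (.cons 0x4587610932 .nil)))) .done .done) .done) .done) (.node 1 8 (.cons 0x9067812345 .nil) (.node 1 3 (.cons 0x2134567890 (.cons 0x7605431982 (.cons 0x7890654312 .nil))) (.node 1 7 (.cons 0x6712345890 .nil) (.leaf 0x5432891760 0 .done) .done) .done) .done)) (.node 5 9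 (.cons 0x7859061234 .nil) (.node 4 7 (.cons 0x9580612347 (.cons 0x8590674321 .nil)) (.node 1 5 (.cons 0x8951234760 (.cons 0x3478906512 .nil)) .done (.node 3 8 (.cons 0x2167438590 .nil) (.node 4 8 (.cons 0x7610954832 .nil) .done .done) (.leaf 0x612347859 0 .done))) (.node 0 3 (.cons 0x8761230954 .nil) (.node 0 2 (.cons 0x3456789021 .nil) (.node 2 9 (.cons 0x8765430921 (.cons 0x4329058761 .nil)) (.node 0 7 (.cons 0x8709216543 (.cons 0x6129078543 .nil)) .done .done) .done) (.node 7 9 (.cons 0x1289765430 (.cons 0x9761285430 (.cons 0x9761032854 .nil))) (.leaf 0x2897654301 0 .done) .done)) .done)) .done)) (.node 5 9 (.cons 0x8761234590 .nil) (.node 5 7 (.cons 0x9087543216 .nil) (.node 6 9 (.cons 0x9612345780 .nil) (.node 0 6 .nil (.node 1 7 (.cons 0x7169508234 (.cons 0x4328950671 (.cons 0x3459821760 .nil))) .done (.node 1 5 .nil (.node 0 4 (.cons 0x9045876123 (.cons 0x9678234051 .nil)) (.leaf 0x1576980432 0 .done) (.node 0 4 (.cons 0x6987512340 .nil) (.node 0 2 (.cons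 0x3456789021 .nil) (.node 0 3 (.cons 0x9032167854 .nil) .done .done) (.leaf 0x1578960432 0 .done)) .done)) .done)) (.leaf 0x3457809612 0 (.node 2 9 (.cons 0x7809216543 .nil) (.node 3 9 (.cons 0x4587612390 .nil) (.node 1 9 (.cons 0x9167823450 .nil) (.node 2 5 (.cons 0x4391678250 .nil) (.node 3 8 (.cons 0x6783452190 .nil) (.node 4 8 (.cons 0x1256784390 .nil) (.leaf 0x2567843901 1 .done) .done) .done) .done) (.node 4 9 (.cons 0x5493287610 .nil) (.node 4 7 (.cons 0x3928745610 .nil) (.node 0 4 (.cons 0x2390458761 .nil) (.node 2 4 (.cons 0x1693245780 .nil) .done .done) (.leaf 0x2801674593 1 .done)) .done) .done)) (.node 1 5 (.cons 0x8761509234 .nil) (.node 3 5 (.cons 0x7809216534 .nil) (.node 1 4 (.cons 0x8765341290 .nil) (.leaf 0x5341290876 0 (.node 0 3 (.cons 0x8967541230 .nil) (.leaf 0x5769803214 1 (.node 2 5 (.cons 0x4309876521 .nil) .done .done)) (.leaf 0x9214356780 0 .done))) .done) .done) .done)) .done))) (.node 2 7 (.cons 0x9087216543 .nil) (.node 0 7 .nil (.node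 6 8 (.cons 0x1234598670 .nil) (.leaf 0x9543210768 0 (.leaf 0x7689543210 1 (.leaf 0x3459078612 0 .done))) (.node 1 7 .nil (.node 2 6 (.cons 0x8905432671 .nil) (.leaf 0x3459087162 0 (.leaf 0x5098716234 0 .done)) (.node 3 7 (.cons 0x9087345612 .nil) (.node 4 7 (.cons 0x8095612743 .nil) .done .done) .done)) .done)) (.node 2 9 (.cons 0x7809216543 .nil) (.node 2 5 .nil (.node 1 9 (.cons 0x9167823450 (.cons 0x8761905234 .nil)) (.node 3 8 (.cons 0x7834561290 (.cons 0x4387619052 (.cons 0x2543876190 .nil))) .done .done) .done) (.node 2 6 .nil (.node 1 9 (.cons 0x9167823450 (.cons 0x6219087543 .nil)) (.leaf 0x2345019876 1 .done) (.node 0 2 (.cons 0x3456789021 .nil) (.node 0 6 .nil (.node 1 7 (.cons 0x8905432671 (.cons 0x8954321760 (.cons 0x4328950671 (.cons 0x3459821760 .nil)))) .done (.node 0 3 (.cons 0x9032167854 .nil) (.node 7 9 (.cons 0x1289765430 .nil) (.node 0 7 (.cons 0x6128079543 .nil) .done (.leaf 0x5679821034 0 .done)) .done) .done)) .done) .done)) .done)) .done))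 .done)) (.node 6 8 (.cons 0x7861234590 .nil) (.node 3 8 .nil (.node 4 9 (.cons 0x3216785490 (.cons 0x7612385490 (.cons 0x5490167832 .nil))) (.node 0 4 (.cons 0x9045876123 (.cons 0x9045832167 .nil)) (.node 2 9 (.cons 0x7809216543 (.cons 0x7610549283 (.cons 0x5678340921 (.cons 0x3876540921 .nil)))) .done .done) .done) (.node 4 8 .nil (.node 2 9 (.cons 0x7809216543 (.cons 0x7610923845 (.cons 0x5092348761 (.cons 0x3290548761 .nil)))) .done (.node 1 8 .nil (.node 0 3 (.cons 0x9032167854 (.cons 0x9034567812 (.cons 0x7654309812 .nil))) (.node 0 2 (.cons 0x3456789021 (.cons 0x9021876543 .nil)) (.node 4 7 (.cons 0x9561287430 (.cons 0x9812034765 (.cons 0x6590347812 (.cons 0x9561820347 .nil)))) .done .done) .done) .done) .done)) .done)) (.node 4 8 .nil (.node 2 9 (.cons 0x7809216543 (.cons 0x5092348761 (.cons 0x3290548761 .nil))) (.node 3 7 (.cons 0x9087345612 (.cons 0x3765489210 (.cons 0x5486732901 (.cons 0x4850923761 (.cons 0x6109548732 .nil))))) .done .done) (.node 3 8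 .nil (.node 4 9 (.cons 0x3216785490 (.cons 0x7612385490 (.cons 0x5490167832 .nil))) .done (.node 1 8 .nil (.node 0 3 (.cons 0x9032167854 (.cons 0x9034567812 (.cons 0x7654309812 .nil))) .done .done) .done)) .done)) .done)) .done)) .done)) (.node 0 2 (.cons 0x3456789021 .nil) (.node 1 8 (.cons 0x9021876543 .nil) (.node 1 5 (.cons 0x9051678234 .nil) (.node 3 8 .nil (.node 0 7 (.cons 0x4389076512 (.cons 0x6709834512 .nil)) (.node 2 9 (.cons 0x7809216543 (.cons 0x6705432981 (.cons 0x7834561290 (.cons 0x4509238761 .nil)))) .done .done) (.node 3 9 (.cons 0x9345678120 .nil) (.node 0 7 (.cons 0x2189345670 .nil) (.leaf 0x3456702189 1 (.leaf 0x4398120765 0 .done)) (.node 1 3 (.cons 0x2134567890 .nil) (.node 1 7 (.cons 0x4390561782 .nil) (.node 1 9 (.cons 0x8761905432 .nil) .done .done) .done) (.leaf 0x6781209345 0 .done))) .done)) (.node 1 3 (.cons 0x2134567890 .nil) (.node 1 4 .nil (.node 2 9 (.cons 0x7809216543 (.cons 0x7829056143 (.cons 0x8761450923 .nil))) (.node 3 7 (.cons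 0x9087345612 (.cons 0x9280561437 (.cons 0x9281437650 (.cons 0x2981437650 (.cons 0x9028734156 .nil))))) .done .done) (.node 1 7 (.cons 0x4317650982 .nil) (.node 1 9 (.cons 0x8761905432 .nil) .done .done) .done)) (.node 1 9 (.cons 0x8761905432 .nil) (.leaf 0x916782345 1 (.node 1 7 .nil (.node 1 4 (.cons 0x3417650982 .nil) .done .done) .done)) .done)) .done)) (.node 3 9 (.cons 0x8765439021 .nil) (.node 0 3 .nil (.node 5 9 (.cons 0x8761234590 (.cons 0x7821659034 (.cons 0x8761230954 .nil))) .done (.node 0 7 .nil (.node 2 7 (.cons 0x6543980721 .nil) (.node 2 9 (.cons 0x7809216543 (.cons 0x8709216543 .nil)) .done .done) (.node 0 4 .nil (.node 3 5 (.cons 0x6789012354 (.cons 0x7653982104 (.cons 0x9043567821 (.cons 0x9043561287 .nil)))) .done (.node 0 6 .nil (.node 1 3 (.cons 0x2134567890 (.cons 0x7890654312 .nil)) (.node 2 7 (.cons 0x9827650431 (.cons 0x5439812760 (.cons 0x7213980654 .nil))) .done .done) .done) .done)) .done)) .done)) (.node 1 9 (.cons 0x8761905432 .nil)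 (.leaf 0x916782345 1 (.node 1 7 (.cons 0x4390561782 .nil) (.node 2 7 (.cons 0x8721654390 .nil) (.node 2 9 (.cons 0x4392871650 .nil) (.node 1 3 (.cons 0x2134567890 .nil) (.node 1 4 (.cons 0x8723905416 .nil) (.node 1 5 (.cons 0x9051678234 .nil) .done .done) .done) .done) .done) .done) .done)) (.leaf 0x218765439 0 (.leaf 0x4390218765 1 .done)))) .done)) (.node 2 9 (.cons 0x7809216543 .nil) (.node 3 8 (.cons 0x7834561290 .nil) (.node 1 8 .nil (.node 7 9 (.cons 0x7920561834 (.cons 0x9761834502 (.cons 0x8167902345 (.cons 0x9761832054 .nil)))) (.leaf 0x976182345 1 .done) (.node 1 9 (.cons 0x7654389120 .nil) (.leaf 0x916782345 1 (.node 1 7 (.cons 0x9834567120 .nil) (.node 0 6 (.cons 0x6054329871 .nil) (.leaf 0x3298716054 0 .done) .done) .done)) .done)) (.node 5 9 (.cons 0x8761234590 .nil) (.node 3 9 (.cons 0x7809345612 .nil) (.node 1 9 (.cons 0x8761905432 .nil) (.node 4 9 (.cons 0x5094328761 .nil) (.node 6 9 (.cons 0x7809612345 .nil) (.node 7 9 .nil (.node 1 3 (.cons 0x2134567890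 (.cons 0x8976543120 (.cons 0x4316509782 .nil))) (.leaf 0x4567980213 0 .done) .done) .done) .done) .done) .done) (.node 5 8 .nil (.node 1 7 (.cons 0x2098345671 (.cons 0x6178509234 (.cons 0x6712098543 .nil))) (.node 0 6 (.cons 0x4592387160 .nil) (.leaf 0x3298716054 0 .done) .done) (.node 1 8 (.cons 0x7618320954 .nil) (.node 4 8 (.cons 0x3216784590 .nil) .done .done) .done)) .done)) .done)) (.node 3 8 (.cons 0x7654389021 .nil) (.node 5 9 (.cons 0x8761234590 .nil) (.node 0 6 (.cons 0x7601238954 .nil) (.node 6 9 (.cons 0x7809612345 .nil) (.node 0 3 .nil (.node 4 9 (.cons 0x1678329450 (.cons 0x5492167830 .nil)) (.leaf 0x3876549210 0 .done) (.node 0 7 (.cons 0x9834567021 .nil) (.node 1 4 (.cons 0x9214567830 .nil) (.leaf 0x2876590341 1 (.leaf 0x5416783290 1 (.leaf 0x592834167 0 (.leaf 0x5928341670 1 .done)))) .done) .done)) .done) .done) (.node 1 9 (.cons 0x7654389120 .nil) (.leaf 0x916782345 1 (.node 2 6 .nil (.node 4 7 (.cons 0x5674389120 (.cons 0x8743261950 (.cons 0x5621908743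 (.cons 0x5026743891 (.cons 0x9547832610 .nil))))) .done (.node 2 5 (.cons 0x8761905234 .nil) (.node 2 7 (.cons 0x9087216543 .nil) .done .done) .done)) (.node 1 8 .nil (.node 4 7 (.cons 0x3478216590 (.cons 0x6745029183 (.cons 0x9205476183 .nil))) (.leaf 0x2059167438 0 (.leaf 0x6183290547 0 .done)) .done) .done))) .done)) (.node 2 7 (.cons 0x9087216543 .nil) (.node 2 6 .nil (.node 1 7 (.cons 0x2098345671 (.cons 0x5438902671 .nil)) (.node 1 3 (.cons 0x2134567890 (.cons 0x9876231054 (.cons 0x9805627134 (.cons 0x4317890562 .nil)))) .done .done) .done) (.node 2 4 (.cons 0x9016783245 .nil) (.node 2 6 .nil (.node 3 9 (.cons 0x3987654210 (.cons 0x4562783901 .nil)) (.leaf 0x5439087216 0 (.leaf 0x542398761 1 .done)) .done) (.node 2 5 (.cons 0x9016783254 .nil) (.node 2 6 .nil (.node 1 5 (.cons 0x4516783290 (.cons 0x7623890154 .nil)) (.node 1 9 (.cons 0x8345672091 (.cons 0x7265438091 (.cons 0x4387265190 (.cons 0x6278345190 .nil)))) .done .done) .done) .done) .done)) .done))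 .done)) .done)) .done)) (.node 1 9 (.cons 0x8761905432 .nil) (.leaf 0x5091678234 0 (.node 2 9 (.cons 0x7809216543 .nil) (.node 5 9 (.cons 0x8761234590 .nil) (.node 3 9 (.cons 0x4509328761 .nil) (.node 6 9 (.cons 0x7809612345 .nil) (.node 5 7 (.cons 0x2345780961 .nil) (.leaf 0x3457809612 0 (.node 2 7 (.cons 0x5432780961 .nil) (.leaf 0x6127809345 0 (.node 2 6 (.cons 0x4390875621 .nil) (.node 0 7 (.cons 0x3456219870 .nil) (.node 7 9 (.cons 0x8791623450 .nil) .done .done) .done) .done)) .done)) .done) (.node 5 8 (.cons 0x4587610932 .nil) (.node 5 7 (.cons 0x9087543216 .nil) (.node 3 7 (.cons 0x9087345612 .nil) (.node 2 7 (.cons 0x2780934561 .nil) (.node 0 2 (.cons 0x6543789120 .nil) (.node 6 9 (.cons 0x8734569120 .nil) (.leaf 0x3780219654 0 .done) .done) .done) (.leaf 0x6129087345 0 .done)) .done) .done) .done)) .done) (.node 5 8 (.cons 0x4329058761 .nil) (.node 1 5 (.cons 0x8761509234 .nil) (.node 4 8 (.cons 0x5092348761 .nil) (.leaf 0x9051678432 0 (.node 6 8 (.cons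 0x7861905432 .nil) (.node 3 8 .nil (.node 0 7 (.cons 0x9234851670 (.cons 0x6543870912 (.cons 0x4389076512 (.cons 0x6709834512 .nil)))) .done .done) .done) .done)) .done) .done) .done)) (.leaf 0x7619054328 0 (.node 5 8 .nil (.node 2 9 (.cons 0x7809216543 (.cons 0x4329058761 .nil)) (.node 1 8 (.cons 0x7618509234 .nil) (.node 1 7 (.cons 0x6718923450 .nil) (.node 4 6 (.cons 0x5467890123 (.cons 0x1764329850 (.cons 0x7645890123 (.cons 0x7164329085 .nil)))) .done .done) .done) (.node 4 6 (.cons 0x5467890123 (.cons 0x7645890123 (.cons 0x7854610923 .nil))) (.node 0 3 (.cons 0x7829164503 (.cons 0x6785430912 (.cons 0x7850346192 .nil))) (.node 0 7 (.cons 0x8709216543 (.cons 0x9128546703 (.cons 0x7034658921 (.cons 0x6129078543 .nil)))) .done .done) .done) .done)) (.node 1 8 .nil (.node 0 3 (.cons 0x9034567812 (.cons 0x7654309812 .nil)) (.node 0 6 (.cons 0x7603458912 .nil) (.node 0 2 (.cons 0x9021876543 .nil) (.node 1 7 (.cons 0x9856712034 .nil) (.node 4 6 (.cons 0x5467890123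 (.cons 0x9823054671 (.cons 0x5467198203 .nil))) (.leaf 0x5032891764 0 .done) .done) .done) .done) (.node 0 2 (.cons 0x3456789021 (.cons 0x9021876543 .nil)) (.node 0 6 (.cons 0x7602198543 .nil) .done .done) .done)) (.node 1 7 .nil (.node 2 9 (.cons 0x7809216543 .nil) (.leaf 0x1654329087 1 (.leaf 0x7165432908 0 (.node 4 6 (.cons 0x5467890123 (.cons 0x9234617805 (.cons 0x1764329850 .nil))) (.node 1 5 (.cons 0x8761509234 .nil) (.leaf 0x923465178 0 (.leaf 0x9234651780 1 .done)) .done) .done))) (.node 1 3 (.cons 0x2134567890 .nil) (.node 1 4 (.cons 0x9054167823 .nil) (.node 1 5 .nil (.node 4 9 (.cons 0x6713289450 (.cons 0x3287615490 .nil)) (.node 2 7 (.cons 0x9432761850 (.cons 0x8150943276 .nil)) (.leaf 0x4327618509 0 .done) .done) .done) .done) (.node 1 4 (.cons 0x9054167823 .nil) (.node 1 5 .nil (.node 2 7 (.cons 0x6543127890 (.cons 0x8905143276 .nil)) (.node 3 9 (.cons 0x6543908721 (.cons 0x6512780934 (.cons 0x4516782390 .nil))) (.leaf 0x5439087216 0 .done) .done)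 .done) .done) .done)) .done)) .done)) .done)) .done)))) .done)))
noncomputable def uc9_2_2 : T := (.node 2 8 (.cons 0x9054328761 .nil) tc9_2_14 (.node 0 6 .nil tc9_2_13 (.node 5 9 (.cons 0x8761234590 .nil) tc9_2_12 .done)))
theorem sub_c9_2_2 : root 9 refs9_2 [] 0x700000008706000000006050000000050300070000304000200004010000000010300000000302000070002018000200010 0xfe7fff3fff9fff57ffe3ffedfff5fff3ff79fef9 9 0 8 (.cons 0x9087612345 .nil) uc9_2_2 = true := by decide +kernel
noncomputable def tc9_2_15 : T := (.node 0 6 (.cons 0x9067854321 (.cons 0x7609854321 .nil)) (.node 3 6 (.cons 0x9012367854 (.cons 0x7632109854 .nil)) (.node 6 9 (.cons 0x1234587690 .nil) (.node 1 3 (.cons 0x2134567890 (.cons 0x7645890132 (.cons 0x7890654312 .nil))) (.node 2 6 (.cons 0x9013264587 .nil) (.node 1 9 (.cons 0x8762345091 (.cons 0x7891605432 (.cons 0x4326785091 (.cons 0x3458762190 .nil)))) .done .done) .done) .done) .done) (.node 1 5 (.cons 0x9067851234 (.cons 0x7609851234 .nil)) (.node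 3 6 (.cons 0x7890154632 (.cons 0x9012367854 (.cons 0x7632109854 .nil))) .done .done) .done)) (.node 3 5 (.cons 0x2354678901 .nil) (.node 6 9 (.cons 0x8769012354 .nil) (.node 4 8 (.cons 0x9012354876 .nil) (.node 4 9 .nil (.node 0 7 (.cons 0x1234589670 (.cons 0x8549670123 (.cons 0x8532107694 .nil))) (.leaf 0x5849670123 1 .done) (.node 2 8 (.cons 0x6782109453 .nil) (.node 2 6 (.cons 0x8762109453 .nil) (.node 0 6 (.cons 0x5349067821 .nil) (.node 3 6 (.cons 0x8763549012 .nil) .done .done) .done) .done) .done)) (.leaf 0x123548769 0 .done)) (.node 4 8 (.cons 0x5321096784 .nil) (.node 5 7 (.cons 0x2357846901 .nil) (.node 2 8 .nil (.node 1 5 (.cons 0x7846901532 (.cons 0x7645109823 (.cons 0x7823510964 .nil))) .done (.node 1 8 (.cons 0x9018764532 .nil) (.node 0 8 .nil (.node 1 4 (.cons 0x9014678235 (.cons 0x9082357641 .nil)) (.node 2 5 (.cons 0x4352187690 (.cons 0x7690812534 (.cons 0x3257809641 .nil))) .done .done) .done) .done) .done)) .done) (.node 4 9 (.cons 0x4967853210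 .nil) (.node 3 6 .nil (.node 2 7 (.cons 0x3584967210 (.cons 0x9485367210 .nil)) (.leaf 0x6354890127 1 (.leaf 0x1276358490 1 (.leaf 0x6358490127 0 .done))) (.node 2 6 (.cons 0x9012678453 .nil) (.node 0 6 .nil (.node 2 9 (.cons 0x1678923450 (.cons 0x7892345061 (.cons 0x3548760921 .nil))) .done .done) .done) .done)) (.node 3 6 (.cons 0x7894501632 .nil) (.node 0 6 (.cons 0x7860945321 .nil) (.node 2 6 (.cons 0x7894501623 .nil) .done .done) .done) .done)) .done)) .done)) (.node 2 8 (.cons 0x7645328901 .nil) (.node 4 8 .nil (.node 2 9 (.cons 0x1678923450 (.cons 0x7610548923 (.cons 0x7610532984 .nil))) (.node 0 7 (.cons 0x9823546107 (.cons 0x9076845321 (.cons 0x4892350761 (.cons 0x3548921670 .nil)))) .done .done) (.node 0 8 .nil (.node 4 7 (.cons 0x1235476890 (.cons 0x9801235476 (.cons 0x9086745321 .nil))) .done (.node 1 8 .nil (.node 2 6 (.cons 0x7621098453 (.cons 0x9054326781 (.cons 0x7623450981 .nil))) (.node 0 2 (.cons 0x3456789021 (.cons 0x9021876543 .nil)) (.node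 1 7 (.cons 0x9053481762 (.cons 0x4350981762 .nil)) (.leaf 0x9817645320 0 .done) .done) .done) .done) .done)) .done)) (.node 1 7 (.cons 0x4356712890 .nil) (.leaf 0x6453289017 1 (.node 4 8 (.cons 0x2176534890 .nil) (.node 1 8 .nil (.node 2 6 (.cons 0x7126534890 (.cons 0x9054326781 (.cons 0x7623450981 .nil))) .done (.node 0 8 .nil (.node 2 9 (.cons 0x1678923450 .nil) (.leaf 0x8017645329 0 (.node 0 7 (.cons 0x5346170892 .nil) (.leaf 0x2354617089 0 .done) (.leaf 0x3298017645 1 .done))) .done) .done)) (.node 0 2 (.cons 0x3456789021 .nil) (.leaf 0x1765348902 0 (.node 2 6 (.cons 0x7621098453 .nil) (.node 0 6 (.cons 0x5348906712 .nil) (.node 3 6 (.cons 0x7635489012 .nil) .done .done) .done) (.leaf 0x9843567120 1 .done))) .done)) (.node 1 8 .nil (.node 0 7 (.cons 0x4356709821 (.cons 0x9076812354 (.cons 0x4356709812 .nil))) .done (.node 1 4 (.cons 0x7653412890 .nil) (.node 1 5 (.cons 0x9051432876 .nil) .done (.node 1 5 .nil (.node 4 9 (.cons 0x7610532894 .nil) (.leaf 0x153287649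 0 (.leaf 0x8761509432 0 .done)) (.node 4 9 (.cons 0x9432876150 .nil) (.leaf 0x153287649 0 (.leaf 0x8761509432 0 .done)) .done)) .done)) .done)) .done))) .done)) (.node 1 3 (.cons 0x2134567890 .nil) (.node 2 8 (.cons 0x9013287645 .nil) (.node 4 8 .nil (.node 2 9 (.cons 0x7892354610 (.cons 0x7684509231 (.cons 0x5678431290 (.cons 0x9231678450 .nil)))) .done (.node 0 8 (.cons 0x9087654312 .nil) (.node 1 8 .nil (.node 0 6 (.cons 0x9065431287 (.cons 0x9067812345 (.cons 0x7609812345 .nil))) .done .done) .done) .done)) (.node 1 5 .nil (.node 0 3 (.cons 0x7651289034 (.cons 0x4309876512 .nil)) (.node 2 9 (.cons 0x7892354610 (.cons 0x7645892301 (.cons 0x7892165430 (.cons 0x8764513290 .nil)))) .done .done) (.node 5 9 (.cons 0x4312876590 .nil) (.node 2 5 (.cons 0x3254678901 .nil) (.node 5 7 (.cons 0x1576432890 .nil) .done .done) .done) .done)) .done)) (.node 2 7 (.cons 0x9854672310 .nil) (.node 6 9 (.cons 0x8967231054 .nil) (.node 5 9 (.cons 0x8954672310 .nil) (.node 5 7 .nil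 (.node 2 9 (.cons 0x7645892310 (.cons 0x3298754610 (.cons 0x4675892310 .nil))) .done (.node 1 5 .nil (.node 0 8 (.cons 0x1327645980 (.cons 0x4672315980 (.cons 0x3451276980 .nil))) (.leaf 0x2769801543 1 .done) .done) .done)) .done) (.node 1 5 (.cons 0x4698723510 .nil) (.node 3 9 (.cons 0x8764510932 .nil) (.node 3 8 (.cons 0x9015467832 .nil) (.node 2 8 (.cons 0x4567289310 .nil) (.node 0 3 (.cons 0x7821569034 .nil) (.node 3 6 (.cons 0x9015463287 .nil) .done .done) .done) .done) .done) .done) .done)) (.node 0 7 (.cons 0x8907654312 .nil) (.node 1 7 (.cons 0x4509867132 .nil) (.node 4 7 (.cons 0x4709865312 .nil) (.node 2 4 (.cons 0x9865312470 .nil) (.node 0 2 (.cons 0x3456789021 .nil) (.node 5 7 (.cons 0x7546890231 .nil) (.leaf 0x986457132 0 .done) .done) (.leaf 0x8653124709 0 .done)) .done) .done) (.node 1 7 (.cons 0x4509867132 .nil) (.node 4 7 (.cons 0x6890745312 .nil) (.node 3 7 .nil (.node 2 4 (.cons 0x6534217890 (.cons 0x9861245370 (.cons 0x7312456890 .nil))) .done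 (.node 3 9 (.cons 0x4501678932 .nil) (.node 3 8 .nil (.node 1 9 (.cons 0x2319867450 (.cons 0x6543872190 (.cons 0x4509138672 .nil))) .done .done) .done) .done)) .done) .done) .done)) (.leaf 0x1327645890 0 (.leaf 0x4672310985 0 .done)))) (.node 3 9 (.cons 0x4501678932 .nil) (.node 3 8 .nil (.node 2 4 (.cons 0x7890135642 (.cons 0x9012456783 (.cons 0x7654210983 .nil))) (.leaf 0x6542109387 0 (.leaf 0x124567839 0 .done)) (.node 5 9 .nil (.node 0 2 (.cons 0x7645893201 (.cons 0x8765902134 (.cons 0x7610238954 (.cons 0x7895461023 (.cons 0x4320598761 .nil))))) .done (.node 0 3 (.cons 0x4598761230 .nil) (.node 3 6 .nil (.node 0 4 (.cons 0x3216789540 (.cons 0x9854012367 (.cons 0x7639854012 .nil))) (.node 2 7 (.cons 0x9872354610 (.cons 0x9872104563 (.cons 0x8721365904 (.cons 0x5634098721 (.cons 0x3654098721 .nil))))) .done .done) .done) .done) .done)) .done)) (.node 3 8 .nil (.node 1 5 (.cons 0x9015467832 (.cons 0x7645109832 .nil)) (.node 2 4 (.cons 0x5423987610 (.cons 0x6789324510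 (.cons 0x2456783901 (.cons 0x7654210983 .nil)))) (.leaf 0x8390124567 1 .done) .done) .done) .done)) .done))) .done))) (.node 3 5 (.cons 0x2354678901 .nil) (.node 4 9 (.cons 0x6789453210 .nil) (.node 2 8 (.cons 0x7610549823 .nil) (.node 6 9 .nil (.node 1 3 (.cons 0x2134567890 (.cons 0x7854690132 (.cons 0x7698231054 .nil))) (.node 2 4 (.cons 0x9876105423 (.cons 0x7869054231 (.cons 0x7896105423 .nil))) .done (.leaf 0x2876945013 1 .done)) (.node 5 9 .nil (.node 0 6 (.cons 0x9876012354 (.cons 0x8760954321 .nil)) (.leaf 0x9543210678 0 .done) (.node 2 9 (.cons 0x1678923450 .nil) (.node 5 7 (.cons 0x3298754610 .nil) (.node 4 8 (.cons 0x8496753210 .nil) (.node 0 8 (.cons 0x4692357801 .nil) (.node 1 8 (.cons 0x4692357810 .nil) .done .done) .done) .done) .done) .done)) .done)) (.node 3 8 (.cons 0x7610549832 .nil) (.node 0 8 .nil (.node 1 7 (.cons 0x5328946710 (.cons 0x9435671280 (.cons 0x2176534980 .nil))) (.leaf 0x2809435671 0 .done) (.node 1 8 .nil (.node 0 7 (.cons 0x1289435670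 (.cons 0x9453218670 (.cons 0x2189435670 .nil))) .done .done) .done)) .done) .done)) (.node 5 7 .nil (.node 3 6 (.cons 0x7894501632 (.cons 0x1236875490 (.cons 0x8901236754 (.cons 0x4987501632 .nil)))) .done (.node 1 5 .nil (.node 0 6 (.cons 0x9876012354 (.cons 0x7860945123 (.cons 0x7894601532 .nil))) (.node 3 6 (.cons 0x1236875490 (.cons 0x7863215490 (.cons 0x8751094632 .nil))) .done .done) (.node 2 5 (.cons 0x3254678901 .nil) (.node 5 9 .nil (.node 0 6 (.cons 0x9876012354 (.cons 0x8760954321 (.cons 0x8759432160 .nil))) (.leaf 0x9543210678 0 .done) .done) .done) .done)) (.node 5 9 .nil (.node 0 6 (.cons 0x9876012354 (.cons 0x8760954321 .nil)) (.leaf 0x9543210678 0 (.node 1 5 (.cons 0x8760951234 .nil) (.node 4 7 (.cons 0x3215476890 (.cons 0x8951234760 (.cons 0x9587432160 .nil))) (.leaf 0x8950612347 0 .done) .done) .done)) (.node 2 5 (.cons 0x3254678901 .nil) (.node 1 5 .nil (.node 0 6 (.cons 0x9876012354 (.cons 0x7860945123 (.cons 0x7894601532 .nil))) (.node 2 6 (.cons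 0x7894501623 (.cons 0x7894623510 .nil)) .done .done) .done) .done) .done)) .done))) (.node 0 6 (.cons 0x3549876012 .nil) (.leaf 0x1235498760 1 (.node 4 8 (.cons 0x9845321067 .nil) (.node 2 8 (.cons 0x7601289453 .nil) (.node 2 6 (.cons 0x3549876210 .nil) (.node 3 6 (.cons 0x7854901263 .nil) (.node 0 2 (.cons 0x9876453201 .nil) (.node 2 4 (.cons 0x5367894210 .nil) (.leaf 0x3678942105 0 .done) .done) .done) .done) .done) .done) (.node 4 8 .nil (.node 1 5 (.cons 0x2153498760 (.cons 0x9067843215 (.cons 0x7609843215 .nil))) .done (.node 1 5 (.cons 0x2153498760 .nil) (.node 2 8 (.cons 0x9435128760 .nil) (.leaf 0x1534906782 1 .done) (.node 4 7 (.cons 0x3215476890 .nil) (.node 5 7 (.cons 0x9843215760 .nil) (.node 5 9 (.cons 0x9587432160 .nil) .done .done) .done) .done)) .done)) .done))) .done))) (.node 6 9 (.cons 0x8769012354 .nil) (.node 4 8 (.cons 0x9012354876 .nil) (.node 1 5 .nil (.node 0 7 (.cons 0x5489670123 (.cons 0x5123489670 .nil)) (.leaf 0x3489670512 0 (.leaf 0x6701235489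 1 .done)) (.node 2 8 (.cons 0x7645109823 .nil) (.node 5 9 (.cons 0x4678235901 .nil) (.node 2 5 (.cons 0x3254678901 .nil) (.node 5 7 (.cons 0x1576432890 .nil) .done .done) .done) .done) .done)) (.leaf 0x123548769 0 .done)) (.node 1 5 .nil (.node 0 4 (.cons 0x8769043215 (.cons 0x7689045123 (.cons 0x7896150432 (.cons 0x8769043512 .nil)))) (.node 1 8 (.cons 0x9043567812 (.cons 0x5340967812 .nil)) .done .done) (.node 2 8 (.cons 0x7645109823 .nil) (.node 4 8 (.cons 0x5321096784 .nil) (.node 0 8 (.cons 0x7690843512 .nil) (.node 1 8 (.cons 0x9018764532 .nil) .done .done) .done) (.node 1 8 (.cons 0x9018764532 .nil) (.node 0 8 .nil (.node 4 7 (.cons 0x9823476150 (.cons 0x5123476980 (.cons 0x9086745123 (.cons 0x8096743512 .nil)))) .done .done) .done) .done)) .done)) .done)) (.node 2 8 (.cons 0x7645328901 .nil) (.node 4 8 .nil (.node 0 7 (.cons 0x9823546701 (.cons 0x9076845321 .nil)) (.node 2 9 (.cons 0x1678923450 (.cons 0x7610548923 (.cons 0x7016489235 (.cons 0x7610532984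 (.cons 0x4892350761 .nil))))) .done (.node 1 7 (.cons 0x9823546710 (.cons 0x2176534890 .nil)) (.node 0 8 (.cons 0x9084356712 .nil) .done .done) .done)) (.node 0 8 .nil (.node 4 7 (.cons 0x1235476890 (.cons 0x9801235476 (.cons 0x9086745321 .nil))) .done (.node 1 8 .nil (.node 0 6 (.cons 0x9067812345 (.cons 0x7609812345 .nil)) (.node 2 7 (.cons 0x6721098453 (.cons 0x9081276534 (.cons 0x4356721890 (.cons 0x3548906721 .nil)))) .done .done) .done) .done)) .done)) (.node 1 8 .nil (.node 0 7 (.cons 0x4356709821 (.cons 0x9076812354 (.cons 0x4356709812 .nil))) (.node 1 5 (.cons 0x9076435182 .nil) .done .done) (.node 1 7 (.cons 0x4356712890 .nil) (.leaf 0x6453289017 1 (.node 0 8 .nil (.node 2 9 (.cons 0x1678923450 .nil) (.leaf 0x8017645329 0 (.node 0 7 (.cons 0x5346170892 .nil) (.leaf 0x2354617089 0 .done) (.leaf 0x3298017645 1 .done))) .done) .done)) .done)) .done)) .done))) .done)))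
noncomputable def tc9_2_16 : T := (.node 3 5 (.cons 0x2354678901 (.cons 0x7689012354 .nil)) (.node 4 9 (.cons 0x6789453210 (.cons 0x7689453210 .nil)) (.node 5 7 (.cons 0x6875490123 .nil) (.node 0 6 (.cons 0x9453210687 (.cons 0x8906754321 (.cons 0x5789432160 .nil))) .done (.node 0 7 (.cons 0x9453210786 .nil) (.node 0 3 (.cons 0x9457861230 (.cons 0x7549861230 (.cons 0x9870345612 .nil))) (.node 0 6 (.cons 0x9453210687 (.cons 0x8945706123 .nil)) .done .done) (.node 0 6 (.cons 0x9453210687 (.cons 0x4986075321 .nil)) .done (.leaf 0x5498670123 1 .done))) .done)) (.node 0 6 (.cons 0x3549876012 .nil) (.leaf 0x1235498760 1 (.node 5 7 (.cons 0x8906754321 .nil) (.node 1 9 (.cons 0x2354678910 (.cons 0x8675432190 (.cons 0x6875432190 .nil))) (.node 1 7 (.cons 0x8906712345 .nil) (.node 1 8 (.cons 0x9068123457 .nil) .done .done) .done) (.node 5 8 (.cons 0x7609854321 .nil) (.node 4 8 (.cons 0x9845321067 .nil) (.node 1 4 (.cons 0x8906754123 (.cons 0x3214576890 .nil)) (.node 3 9 (.cons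 0x1239845760 (.cons 0x8675412390 (.cons 0x6875412390 (.cons 0x7586093214 .nil)))) (.leaf 0x8457601239 0 .done) (.node 7 9 (.cons 0x7985432160 (.cons 0x4123579860 (.cons 0x7986014532 .nil))) .done .done)) .done) .done) .done)) (.node 0 7 (.cons 0x3549867012 .nil) (.node 0 3 (.cons 0x7689453012 (.cons 0x9870345612 .nil)) (.node 3 6 (.cons 0x8945367012 .nil) .done .done) (.leaf 0x1235498670 1 (.node 0 3 (.cons 0x6789453012 (.cons 0x7689453012 .nil)) (.node 0 2 (.cons 0x9876453201 .nil) (.node 1 7 (.cons 0x8902176543 (.cons 0x5349867120 .nil)) (.leaf 0x235498671 1 .done) (.node 1 7 (.cons 0x9871206534 (.cons 0x9021786543 .nil)) (.leaf 0x8943560217 1 .done) .done)) (.node 0 8 .nil (.node 1 7 (.cons 0x6543098712 (.cons 0x9034568712 .nil)) (.node 0 2 (.cons 0x9802176534 .nil) (.leaf 0x1765349802 0 .done) .done) .done) .done)) .done))) .done))) .done)) (.node 2 9 (.cons 0x1678923450 (.cons 0x7864532901 .nil)) (.node 1 7 (.cons 0x1768923450 .nil) (.leaf 0x9234501768 0 (.leaf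 0x2345017689 1 (.node 4 8 (.cons 0x9235017684 (.cons 0x5348671290 .nil)) (.node 0 7 (.cons 0x8923450761 (.cons 0x9234861705 .nil)) (.node 3 7 (.cons 0x2984371650 (.cons 0x9210735486 (.cons 0x4865371092 .nil))) .done .done) .done) (.node 0 2 (.cons 0x3456789021 (.cons 0x7168920543 .nil)) (.node 3 8 (.cons 0x9205438671 (.cons 0x9205438617 (.cons 0x4538671092 .nil))) (.leaf 0x6712905438 0 .done) (.node 4 8 (.cons 0x9205348671 (.cons 0x9205348617 .nil)) (.leaf 0x3486712905 1 .done) .done)) .done)))) (.node 1 5 (.cons 0x4329876150 .nil) (.node 4 7 (.cons 0x8923476150 (.cons 0x8674329051 (.cons 0x8674351290 .nil))) (.node 3 9 (.cons 0x4501678932 (.cons 0x5476893210 (.cons 0x4786539210 (.cons 0x2398674510 .nil)))) .done .done) (.node 0 7 (.cons 0x5164329870 (.cons 0x2907864351 .nil)) (.leaf 0x2346150789 0 (.leaf 0x3298705164 1 .done)) .done)) (.node 6 9 (.cons 0x8769012354 .nil) (.node 3 6 .nil (.node 1 4 (.cons 0x3298761450 (.cons 0x7863290541 (.cons 0x8763541290 .nil)))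 (.node 1 5 (.cons 0x7890154632 (.cons 0x7689051432 .nil)) .done .done) (.node 1 3 (.cons 0x2134567890 .nil) (.node 4 7 (.cons 0x8923167450 (.cons 0x1329867450 (.cons 0x8674509231 (.cons 0x8674531290 .nil)))) .done (.node 0 3 (.cons 0x4503298761 .nil) (.node 4 7 (.cons 0x6132987450 (.cons 0x7456892130 (.cons 0x9231687450 (.cons 0x6874531290 .nil)))) .done .done) .done)) .done)) (.node 3 6 .nil (.node 1 4 (.cons 0x3298761450 (.cons 0x7863290541 (.cons 0x8763541290 .nil))) (.node 1 5 (.cons 0x7890154632 (.cons 0x7689051432 .nil)) .done .done) (.node 0 3 (.cons 0x4503298761 .nil) (.node 1 3 (.cons 0x2134567890 .nil) (.node 1 7 (.cons 0x5461789230 (.cons 0x9034568712 (.cons 0x2903546871 .nil))) .done .done) (.node 1 3 (.cons 0x2134567890 .nil) (.node 0 7 (.cons 0x5461329870 (.cons 0x5468709231 (.cons 0x2907864531 .nil))) .done .done) .done)) .done)) .done)) .done))) (.node 1 7 (.cons 0x9017864532 .nil) (.node 0 6 (.cons 0x8906712345 (.cons 0x4356098712 .nil)) (.leaf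 0x7123456098 0 .done) (.node 0 2 (.cons 0x3456789021 (.cons 0x9021786534 (.cons 0x7120986534 .nil))) (.node 1 5 (.cons 0x3465178902 (.cons 0x9023468715 .nil)) (.leaf 0x9023465178 0 .done) (.node 4 7 (.cons 0x9874356120 (.cons 0x9012354786 .nil)) (.node 0 6 (.cons 0x9860123547 .nil) (.node 1 9 (.cons 0x6534789120 (.cons 0x7435689120 (.cons 0x7860912345 (.cons 0x9120687435 .nil)))) .done .done) (.leaf 0x8902165347 1 .done)) .done)) (.node 0 7 (.cons 0x9870164532 .nil) (.node 1 9 (.cons 0x8670912345 (.cons 0x3456870912 (.cons 0x4356870912 .nil))) (.node 5 9 (.cons 0x8670954321 .nil) (.node 0 3 (.cons 0x4598761230 (.cons 0x5430986712 .nil)) (.node 2 5 (.cons 0x3254678901 (.cons 0x3254678910 (.cons 0x8765219034 (.cons 0x3452176890 .nil)))) .done .done) .done) .done) (.node 0 3 (.cons 0x5430986712 .nil) (.node 2 4 (.cons 0x9876105423 (.cons 0x9876542103 (.cons 0x9078653421 (.cons 0x7098653421 (.cons 0x9870342165 .nil))))) .done (.node 2 9 (.cons 0x7892354610 (.cons 0x4350716892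 (.cons 0x7865430921 (.cons 0x2903546871 .nil)))) (.node 4 7 (.cons 0x5329874610 (.cons 0x9210356874 (.cons 0x9235016874 .nil))) .done .done) .done)) .done)) .done))) .done))) (.node 1 8 .nil (.node 0 6 (.cons 0x9067812345 (.cons 0x7609812345 .nil)) (.node 2 6 (.cons 0x9054326781 (.cons 0x7623450981 .nil)) (.node 2 9 (.cons 0x1678923450 (.cons 0x7618923450 (.cons 0x7892345061 .nil))) (.node 6 9 (.cons 0x5432187690 .nil) (.node 1 3 (.cons 0x4318765092 (.cons 0x7623189054 (.cons 0x7890654312 .nil))) (.node 0 3 (.cons 0x9034567812 (.cons 0x7654309812 .nil)) (.node 2 7 (.cons 0x9872165430 (.cons 0x7218965430 (.cons 0x5643092781 .nil))) .done .done) .done) .done) .done) .done) .done) (.node 0 8 .nil (.node 1 3 (.cons 0x2134567890 (.cons 0x9087654312 .nil)) (.node 2 8 (.cons 0x7654312890 .nil) (.node 5 8 (.cons 0x7645890132 .nil) (.node 2 7 (.cons 0x1327645890 (.cons 0x9085467231 .nil)) (.leaf 0x3276458901 1 (.node 5 9 (.cons 0x7645982310 (.cons 0x7612345980 (.cons 0x7231645980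 .nil))) .done .done)) .done) (.node 1 5 (.cons 0x7645132890 (.cons 0x9082315467 .nil)) .done .done)) (.node 1 9 (.cons 0x7619805432 .nil) (.node 0 6 (.cons 0x8760912345 .nil) (.node 0 3 (.cons 0x8765430912 .nil) (.node 2 6 (.cons 0x7890345621 (.cons 0x8762345091 (.cons 0x7891623054 .nil))) .done .done) .done) (.node 3 6 (.cons 0x5436780912 .nil) (.node 2 4 (.cons 0x9876105423 (.cons 0x9876324501 (.cons 0x7890124563 .nil))) (.node 2 8 (.cons 0x9105428763 (.cons 0x3678245091 .nil)) .done (.node 5 7 (.cons 0x8901324675 (.cons 0x6750891342 (.cons 0x9018754632 (.cons 0x9805761324 .nil)))) .done .done)) (.node 5 7 (.cons 0x8901236754 (.cons 0x9801236754 .nil)) (.node 1 5 (.cons 0x9086751234 .nil) (.node 1 7 (.cons 0x9081754632 .nil) .done .done) (.node 1 7 (.cons 0x2364571890 (.cons 0x9081754632 .nil)) .done .done)) .done)) .done)) .done)) (.node 4 8 .nil (.node 3 6 (.cons 0x9012367845 (.cons 0x7632109845 .nil)) (.node 1 5 (.cons 0x9087634512 .nil) (.node 2 9 (.cons 0x1678923450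 (.cons 0x7610548923 (.cons 0x7892361054 (.cons 0x4329876150 .nil)))) (.node 1 3 (.cons 0x9231678450 (.cons 0x7613298450 .nil)) (.leaf 0x6780923154 0 .done) .done) (.node 0 7 (.cons 0x9076843215 (.cons 0x3489076512 .nil)) (.node 2 6 (.cons 0x9078126543 (.cons 0x7098126543 (.cons 0x7098154623 .nil))) .done .done) .done)) .done) (.node 2 8 .nil (.node 1 5 (.cons 0x9015467823 (.cons 0x7645109823 .nil)) (.node 1 3 (.cons 0x9013287645 (.cons 0x7654312890 .nil)) (.node 0 4 (.cons 0x5678904312 (.cons 0x9043128765 (.cons 0x7689043215 .nil))) (.node 2 4 (.cons 0x9056782431 (.cons 0x7650982431 .nil)) .done .done) .done) .done) (.node 5 8 .nil (.node 0 6 (.cons 0x9067854321 (.cons 0x7609854321 .nil)) (.node 3 6 (.cons 0x9012367854 (.cons 0x7632109854 .nil)) .done .done) .done) .done)) .done)) .done)) (.node 0 8 .nil (.node 5 9 (.cons 0x7612345980 .nil) (.node 0 6 (.cons 0x8760954321 .nil) (.leaf 0x9543210678 0 .done) (.node 0 6 (.cons 0x9543216087 .nil) (.node 1 7 (.cons 0x8906712345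 .nil) (.node 1 5 (.cons 0x2346871590 (.cons 0x7159086432 .nil)) .done (.node 2 6 (.cons 0x4326178950 (.cons 0x9508716234 .nil)) (.node 2 7 (.cons 0x3278954610 (.cons 0x5980643271 (.cons 0x9546108723 .nil))) .done .done) .done)) .done) (.node 3 6 (.cons 0x4590876321 .nil) (.node 2 4 (.cons 0x9876105423 (.cons 0x9876324501 (.cons 0x3678124590 (.cons 0x7890124563 .nil)))) (.node 0 3 (.cons 0x4590367812 (.cons 0x7612308954 .nil)) (.leaf 0x9542187630 0 (.leaf 0x6781245903 1 .done)) .done) (.node 5 7 (.cons 0x8901236754 (.cons 0x9801236754 .nil)) (.node 4 7 (.cons 0x8901236745 (.cons 0x1236745980 .nil)) (.node 1 3 (.cons 0x2134567890 (.cons 0x9087654312 (.cons 0x4759086312 .nil))) (.node 1 9 (.cons 0x7619805432 (.cons 0x5743680912 .nil)) (.leaf 0x2345768091 0 .done) .done) .done) .done) .done)) .done))) (.node 4 8 .nil (.node 3 6 (.cons 0x9012367845 (.cons 0x7632109845 .nil)) (.node 0 2 (.cons 0x3456789021 (.cons 0x9021876345 .nil)) (.node 7 9 (.cons 0x7980216543 (.cons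 0x5023489761 (.cons 0x7980216345 (.cons 0x5489761023 (.cons 0x3205489761 .nil))))) .done (.node 1 5 (.cons 0x9876150234 (.cons 0x9021567843 (.cons 0x7651209843 (.cons 0x7890154632 .nil)))) .done .done)) .done) (.node 2 8 .nil (.node 1 5 (.cons 0x9015467823 (.cons 0x7645109823 .nil)) (.node 0 3 (.cons 0x9034567821 (.cons 0x7654309821 (.cons 0x4309876512 .nil))) (.node 2 9 (.cons 0x7654892103 (.cons 0x7892165430 (.cons 0x4329876150 (.cons 0x4503298761 .nil)))) .done .done) (.node 3 6 (.cons 0x7890154632 (.cons 0x9015463287 .nil)) (.node 0 7 (.cons 0x5436709812 (.cons 0x7098215634 (.cons 0x5436709821 .nil))) (.node 1 9 (.cons 0x5190786432 (.cons 0x7619823450 (.cons 0x3465190782 .nil))) .done .done) .done) .done)) (.node 5 8 .nil (.node 0 6 (.cons 0x9067854321 (.cons 0x7609854321 .nil)) (.node 3 6 (.cons 0x9012367854 (.cons 0x7632109854 .nil)) .done .done) .done) .done)) .done)) .done)) .done))) (.node 5 8 .nil tc9_2_15 .done)))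
noncomputable def tc9_2_17 : T := (.node 3 7 (.cons 0x9854673210 .nil) (.node 0 6 .nil (.node 5 7 (.cons 0x8906754321 .nil) (.node 0 2 (.cons 0x9873456021 .nil) (.node 1 8 (.cons 0x9810546732 (.cons 0x9812065437 (.cons 0x5764321890 (.cons 0x9812067345 .nil)))) .done (.node 3 9 (.cons 0x7645893210 (.cons 0x7601239854 (.cons 0x4398756120 (.cons 0x4675893210 (.cons 0x4675893201 .nil))))) .done .done)) (.node 5 9 (.cons 0x8954673210 (.cons 0x7895432160 .nil)) (.node 1 8 (.cons 0x9810546732 (.cons 0x9812375460 (.cons 0x2189543760 .nil))) (.node 0 4 (.cons 0x7340659812 .nil) (.node 0 8 (.cons 0x9806457321 .nil) .done .done) .done) .done) .done)) (.node 5 7 .nil (.node 1 9 (.cons 0x8910546732 (.cons 0x4321985760 (.cons 0x7589123460 .nil))) (.node 0 2 (.cons 0x3456789021 (.cons 0x8916750234 (.cons 0x6198750234 .nil))) .done (.leaf 0x4607589123 0 .done)) (.node 5 9 (.cons 0x8954673210 .nil) (.node 0 4 (.cons 0x8954012376 .nil) (.node 0 2 (.cons 0x3456789021 .nil) (.node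 0 3 (.cons 0x9875403216 .nil) .done .done) (.node 0 8 (.cons 0x7612345980 .nil) (.node 0 2 (.cons 0x3456789021 .nil) (.node 0 3 (.cons 0x9803216457 .nil) .done .done) .done) .done)) (.node 4 7 (.cons 0x5987432160 .nil) (.leaf 0x8950612347 0 (.node 4 9 (.cons 0x6078594321 .nil) (.node 2 7 (.cons 0x4327895061 .nil) (.node 7 9 (.cons 0x8597064321 .nil) .done .done) .done) .done)) .done)) .done)) .done)) (.leaf 0x1237645890 0 (.node 0 6 .nil (.node 3 9 (.cons 0x7645893210 (.cons 0x7601239854 .nil)) (.node 7 9 (.cons 0x8546079321 .nil) (.leaf 0x8543210679 0 (.leaf 0x6798543210 1 (.leaf 0x1064587932 0 .done))) (.node 1 9 (.cons 0x2376458910 (.cons 0x4589106732 (.cons 0x7891605432 .nil))) (.node 0 3 (.cons 0x7603458912 .nil) (.node 7 9 (.cons 0x7985460321 .nil) (.leaf 0x8543210679 0 .done) .done) .done) .done)) (.node 5 7 .nil (.node 1 9 (.cons 0x2376458910 (.cons 0x4321985760 (.cons 0x7589123460 .nil))) (.node 0 2 (.cons 0x9854673201 (.cons 0x8916750234 (.cons 0x6198750234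 .nil))) .done (.leaf 0x4607589123 0 .done)) (.node 0 2 (.cons 0x9854673201 .nil) (.node 0 3 .nil (.node 1 7 (.cons 0x8902176543 (.cons 0x9856712034 (.cons 0x9854302176 .nil))) .done (.node 0 4 (.cons 0x9875403216 .nil) (.node 0 8 (.cons 0x9803216457 .nil) .done .done) .done)) (.node 0 8 (.cons 0x9802375461 .nil) (.node 0 4 .nil (.node 2 9 (.cons 0x1654378920 (.cons 0x6732985401 (.cons 0x5892376401 (.cons 0x3789204561 .nil)))) .done .done) .done) .done)) .done)) .done)) .done))) (.node 0 6 .nil (.node 1 5 (.cons 0x9851234670 (.cons 0x9851234607 .nil)) (.node 1 7 (.cons 0x9854321760 .nil) (.node 0 3 (.cons 0x8903456712 (.cons 0x9856430712 .nil)) (.node 2 8 (.cons 0x9034567821 (.cons 0x9823461705 (.cons 0x5098234671 (.cons 0x3289054671 .nil)))) .done .done) (.node 3 5 (.cons 0x6789012354 (.cons 0x9853460712 .nil)) (.node 1 4 (.cons 0x8907653412 .nil) (.node 1 3 (.cons 0x2134567890 .nil) (.node 1 8 (.cons 0x4356709812 .nil) .done .done) .done) .done) .done)) (.node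 1 9 (.cons 0x5891234670 (.cons 0x7891605432 .nil)) (.node 1 3 (.cons 0x2134567890 (.cons 0x7890654312 .nil)) (.node 1 7 (.cons 0x2346719850 .nil) (.node 3 5 (.cons 0x6789012354 (.cons 0x9853460712 .nil)) .done .done) .done) (.node 0 2 (.cons 0x9120678543 (.cons 0x7602198543 .nil)) (.node 3 7 (.cons 0x9854673210 (.cons 0x9873456021 (.cons 0x5437891602 .nil))) (.leaf 0x4561209873 0 .done) .done) .done)) .done)) (.node 0 2 (.cons 0x3456789021 .nil) (.node 0 3 .nil (.node 2 9 (.cons 0x1678923450 (.cons 0x7892165430 (.cons 0x4503298761 .nil))) (.node 4 9 (.cons 0x3498567021 (.cons 0x7856034921 (.cons 0x5876034921 (.cons 0x5498761032 .nil)))) .done .done) (.node 0 4 .nil (.node 2 9 (.cons 0x7892165430 (.cons 0x5612987043 (.cons 0x5043298761 (.cons 0x7892165403 .nil)))) .done (.node 0 8 .nil (.node 5 9 (.cons 0x8760954321 (.cons 0x7612345980 (.cons 0x9543216087 .nil))) (.node 3 7 (.cons 0x9854673210 (.cons 0x1237645980 (.cons 0x8095467321 (.cons 0x4598023761 .nil)))) .done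 .done) .done) .done)) .done)) (.node 0 3 .nil (.node 5 9 (.cons 0x8760954321 (.cons 0x4307895612 (.cons 0x4598761230 .nil))) (.leaf 0x4302167895 0 .done) (.node 0 8 .nil (.node 5 9 (.cons 0x8760954321 (.cons 0x7612345980 (.cons 0x9543216087 (.cons 0x7612308954 .nil)))) .done (.node 0 4 .nil (.node 5 9 (.cons 0x8760954321 (.cons 0x3407895612 (.cons 0x3216789540 .nil))) (.leaf 0x432165987 0 .done) .done) .done)) .done)) .done)) .done)) (.node 3 9 (.cons 0x7645893210 .nil) (.node 0 6 (.cons 0x7601239854 .nil) (.node 0 4 .nil (.node 5 9 (.cons 0x8760954321 (.cons 0x3216789540 .nil)) (.node 1 9 (.cons 0x9123458760 (.cons 0x9123406785 .nil)) (.leaf 0x4067859123 0 .done) .done) (.node 0 8 (.cons 0x5439807612 .nil) (.node 0 3 .nil (.node 2 4 (.cons 0x9876105423 (.cons 0x9876542103 .nil)) (.node 5 9 (.cons 0x8760954321 (.cons 0x9561243087 (.cons 0x4598761230 .nil))) .done .done) .done) .done) .done)) (.node 0 8 (.cons 0x5439807612 .nil) (.node 0 3 .nil (.node 0 4 (.cons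 0x9876123045 .nil) (.node 2 4 (.cons 0x9876105423 (.cons 0x9876542103 .nil)) (.leaf 0x124567893 0 .done) .done) (.node 0 4 .nil (.node 1 3 (.cons 0x2134567890 (.cons 0x5678904312 .nil)) (.node 3 5 (.cons 0x6789012354 .nil) .done .done) .done) .done)) .done) .done)) (.node 0 6 (.cons 0x5439870612 .nil) (.node 0 4 .nil (.node 7 9 (.cons 0x6012397854 (.cons 0x5897640123 (.cons 0x6045879321 .nil))) (.leaf 0x645879321 1 .done) (.node 0 8 .nil (.node 5 9 (.cons 0x8760954321 (.cons 0x7612345980 (.cons 0x7806123954 .nil))) .done (.node 0 2 (.cons 0x7893456120 .nil) (.node 0 3 .nil (.node 5 9 (.cons 0x8760954321 (.cons 0x8954307612 (.cons 0x4598761230 .nil))) .done .done) .done) .done)) .done)) (.node 2 6 (.cons 0x7012645893 .nil) (.node 3 6 (.cons 0x9362107854 .nil) (.node 6 8 (.cons 0x5439078621 .nil) (.node 6 9 (.cons 0x1269345870 .nil) .done .done) .done) (.node 1 7 (.cons 0x3985462170 .nil) (.node 0 8 (.cons 0x6543908712 .nil) (.leaf 0x7126543908 0 .done) (.node 2 7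 (.cons 0x5893460721 .nil) (.node 6 8 (.cons 0x7239864501 .nil) (.node 6 9 .nil (.node 2 4 (.cons 0x2439871650 (.cons 0x5870693421 (.cons 0x7896105423 .nil))) .done .done) .done) (.node 6 8 (.cons 0x1278654390 .nil) (.leaf 0x5439012786 1 .done) .done)) .done)) .done)) .done)) (.leaf 0x6701239854 1 (.node 0 4 (.cons 0x5401678932 .nil) (.node 6 9 (.cons 0x2396785401 .nil) (.node 0 6 .nil (.node 2 4 (.cons 0x5423987610 (.cons 0x5423987601 .nil)) (.node 1 5 (.cons 0x9678512340 (.cons 0x2439607851 (.cons 0x7069851243 (.cons 0x9604321587 .nil)))) .done .done) .done) (.node 0 6 .nil (.node 7 9 (.cons 0x1234589760 .nil) (.leaf 0x8543210679 0 (.leaf 0x6798543210 1 .done)) (.node 2 6 (.cons 0x9326785401 .nil) (.node 3 6 .nil (.node 0 2 (.cons 0x7645893201 (.cons 0x9854367021 (.cons 0x9870216345 .nil))) .done .done) .done) .done)) .done)) (.node 1 7 (.cons 0x2398546710 .nil) (.node 3 7 (.cons 0x9854673210 .nil) (.node 0 8 (.cons 0x9801237645 .nil) (.node 5 7 (.cons 0x6104578932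 .nil) (.node 2 7 (.cons 0x5723980461 .nil) (.node 7 9 (.cons 0x5798046123 .nil) .done .done) .done) .done) (.leaf 0x1237645890 0 .done)) (.node 7 9 .nil (.node 3 6 (.cons 0x5634098712 (.cons 0x9785401236 .nil)) (.leaf 0x8970123645 0 .done) (.node 5 7 (.cons 0x6401758932 .nil) (.node 2 7 (.cons 0x3985640172 .nil) (.node 3 7 (.cons 0x9854673210 .nil) .done .done) .done) .done)) .done)) .done)) .done)))) .done)))
noncomputable def tc9_2_18 : T := (.node 2 4 (.cons 0x9876105423 .nil) (.node 3 9 (.cons 0x3987654210 .nil) (.node 1 9 (.cons 0x6789105423 .nil) (.node 5 8 (.cons 0x5876432190 .nil) (.node 5 7 (.cons 0x8750193246 .nil) (.node 6 9 (.cons 0x7854693210 .nil) (.node 1 7 (.cons 0x2396458710 .nil) (.node 7 9 (.cons 0x6458793210 .nil) .done .done) .done) .done) (.leaf 0x4321905876 0 .done)) (.node 1 8 (.cons 0x7618923450 .nil) (.node 1 4 .nil (.node 2 6 (.cons 0x7893261054 (.cons 0x5098762341 (.cons 0x7893261450 .nil))) .done (.node 5 8 .nil (.node 0 7 (.cons 0x2165439870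 (.cons 0x4612395870 (.cons 0x3458921670 .nil))) (.leaf 0x6705892341 1 .done) (.node 3 8 (.cons 0x1238764590 .nil) (.node 5 7 (.cons 0x9387564210 .nil) (.leaf 0x8390124657 0 .done) (.node 1 5 (.cons 0x9015467832 .nil) (.node 5 7 (.cons 0x6754109832 .nil) .done .done) .done)) .done)) .done)) (.node 1 7 (.cons 0x3429817650 .nil) (.node 1 3 (.cons 0x2134567890 .nil) (.node 5 7 (.cons 0x4329816750 .nil) (.node 1 5 (.cons 0x9051876432 .nil) (.node 5 8 (.cons 0x7643290581 .nil) .done .done) .done) .done) .done) .done)) .done)) (.node 1 9 (.cons 0x6789105423 .nil) (.node 5 8 (.cons 0x9324678501 .nil) (.node 5 7 (.cons 0x8750193246 .nil) (.node 3 8 (.cons 0x1238764590 .nil) (.node 6 9 (.cons 0x6901238754 .nil) (.leaf 0x8321096457 0 .done) (.node 3 7 (.cons 0x8739105642 .nil) (.node 4 8 (.cons 0x3765489210 .nil) (.leaf 0x2384576109 0 (.leaf 0x548923761 0 .done)) .done) .done)) .done) (.node 6 9 (.cons 0x7854690123 .nil) (.node 4 9 (.cons 0x7850164932 .nil) (.node 7 9 (.cons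 0x3978564210 .nil) .done .done) .done) .done)) (.node 7 9 .nil (.node 1 8 (.cons 0x7618923450 (.cons 0x3978105642 .nil)) (.leaf 0x564239781 1 .done) (.node 6 9 .nil (.node 5 8 (.cons 0x9324678501 (.cons 0x7854690123 .nil)) (.node 0 7 (.cons 0x8923450761 .nil) (.leaf 0x5896701234 1 (.node 0 2 (.cons 0x5876439120 (.cons 0x3458769120 (.cons 0x5870219643 .nil))) .done (.leaf 0x8701239645 1 .done))) .done) .done) .done)) .done)) (.node 3 6 (.cons 0x9876324501 .nil) (.node 0 6 (.cons 0x5423987601 .nil) (.node 6 9 .nil (.node 0 3 (.cons 0x4598761230 (.cons 0x7896542103 .nil)) (.node 1 8 (.cons 0x7618923450 (.cons 0x7810396542 (.cons 0x4230596781 (.cons 0x5430967812 .nil)))) .done .done) .done) .done) (.node 6 9 .nil (.node 3 8 (.cons 0x1238764590 (.cons 0x7832109645 .nil)) (.node 7 9 (.cons 0x8329764501 .nil) (.leaf 0x3879645012 0 (.leaf 0x4697832105 0 .done)) .done) .done) .done)) .done))) (.node 6 9 (.cons 0x7896105423 .nil) (.node 3 6 (.cons 0x7890124563 .nil) (.node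 0 6 .nil (.node 1 3 (.cons 0x2134567890 (.cons 0x7890654312 (.cons 0x7895061324 .nil))) (.node 3 5 (.cons 0x7896105324 (.cons 0x9876012354 .nil)) (.node 0 3 (.cons 0x4598761230 .nil) (.node 4 7 (.cons 0x8742316950 (.cons 0x3065987421 (.cons 0x4789530612 (.cons 0x5987423061 .nil)))) .done .done) .done) .done) .done) (.node 3 9 (.cons 0x4501678932 .nil) (.node 2 6 (.cons 0x7893261054 .nil) (.node 6 8 .nil (.node 0 2 (.cons 0x7893456120 (.cons 0x7865439021 .nil)) (.node 2 7 (.cons 0x3654278901 (.cons 0x9327864501 (.cons 0x1278654390 .nil))) .done .done) .done) .done) .done) .done)) (.node 3 6 (.cons 0x7890124563 .nil) (.node 5 7 (.cons 0x3245789610 .nil) (.node 0 6 (.cons 0x3245789601 .nil) (.node 4 9 (.cons 0x8945763210 .nil) (.node 0 4 (.cons 0x3216789540 .nil) (.node 1 4 (.cons 0x8957604123 .nil) .done .done) .done) .done) (.node 0 7 (.cons 0x8923450761 .nil) (.node 3 9 (.cons 0x8754239610 .nil) (.leaf 0x8705612439 0 (.leaf 0x4398705612 1 .done)) (.node 2 5 (.cons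 0x8907634521 .nil) (.node 3 5 (.cons 0x6789012354 .nil) (.node 5 8 (.cons 0x3458921670 .nil) .done .done) .done) .done)) .done)) (.node 5 7 (.cons 0x3245789610 .nil) (.leaf 0x6578901243 1 (.node 4 9 (.cons 0x7894236105 .nil) (.node 3 9 (.cons 0x8754239610 .nil) (.node 2 6 (.cons 0x7893261054 .nil) (.node 6 8 (.cons 0x3245786901 .nil) .done .done) .done) .done) .done)) .done)) .done)) .done)) (.node 0 6 (.cons 0x7892345061 .nil) (.node 5 8 (.cons 0x7609854321 .nil) (.node 5 7 (.cons 0x8906754321 .nil) (.node 1 7 (.cons 0x6178923450 .nil) (.node 0 7 (.cons 0x3456129870 .nil) (.node 0 4 (.cons 0x3216789540 .nil) (.node 7 9 (.cons 0x1234589760 .nil) (.node 3 7 (.cons 0x6123789540 .nil) (.node 4 7 (.cons 0x3471298560 .nil) .done .done) .done) .done) .done) (.node 0 7 (.cons 0x3456129870 .nil) (.node 7 9 (.cons 0x1234589760 .nil) (.node 3 7 (.cons 0x4370658921 .nil) (.node 4 7 (.cons 0x3470658921 .nil) .done .done) .done) .done) .done)) .done) (.node 1 8 (.cons 0x3218764590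 .nil) (.node 0 8 .nil (.node 3 7 (.cons 0x4618732950 (.cons 0x4598067321 (.cons 0x9216543780 (.cons 0x5643780921 (.cons 0x1645923780 .nil))))) .done (.node 0 4 (.cons 0x3216789540 .nil) (.node 5 7 (.cons 0x9234618750 .nil) (.node 4 7 (.cons 0x6057432981 .nil) (.leaf 0x9816057432 0 (.node 3 7 (.cons 0x6123789540 .nil) (.node 0 3 (.cons 0x4598761230 .nil) (.node 0 7 (.cons 0x3456129870 .nil) .done .done) (.leaf 0x4650921873 0 .done)) .done)) (.node 3 6 (.cons 0x9216345780 .nil) (.leaf 0x7809216345 0 (.node 6 9 (.cons 0x4329618750 .nil) (.leaf 0x7504329618 0 .done) .done)) .done)) .done) .done)) (.node 0 8 .nil (.node 0 3 (.cons 0x9216543087 (.cons 0x9546123087 .nil)) (.leaf 0x7645903218 0 .done) (.node 0 2 (.cons 0x3456789021 .nil) (.node 1 7 (.cons 0x6178923450 .nil) (.leaf 0x8059234617 0 (.node 3 9 (.cons 0x2178564390 .nil) (.node 1 9 .nil (.node 2 5 (.cons 0x8176439052 (.cons 0x7643918052 (.cons 0x7619805234 .nil))) .done .done) (.leaf 0x218765439 0 (.leaf 0x4390218765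 1 .done))) .done)) .done) .done)) .done)) .done)) (.node 5 7 (.cons 0x4329875061 .nil) (.node 1 4 (.cons 0x3412987560 .nil) (.node 2 4 (.cons 0x9876105423 .nil) (.node 5 8 .nil (.node 1 5 (.cons 0x9067851234 (.cons 0x9064321587 .nil)) .done (.node 0 8 (.cons 0x7560892143 .nil) (.node 1 8 (.cons 0x3218764590 .nil) (.node 0 7 (.cons 0x3456129870 .nil) (.node 0 2 (.cons 0x3456789021 .nil) (.node 3 7 (.cons 0x4618732950 .nil) (.leaf 0x4650921873 0 (.leaf 0x8021673459 0 .done)) .done) .done) .done) .done) .done)) .done) (.leaf 0x8923416057 1 (.leaf 0x9875061432 0 .done))) (.node 0 7 (.cons 0x3456129870 .nil) (.node 1 7 (.cons 0x6178923450 .nil) (.node 0 8 (.cons 0x4617805923 .nil) (.node 0 4 (.cons 0x3216789540 .nil) (.node 0 2 (.cons 0x3456789021 .nil) (.node 0 3 (.cons 0x4598761230 .nil) .done .done) .done) .done) .done) .done) .done)) .done)) (.node 5 8 .nil (.node 7 9 (.cons 0x8546790123 .nil) (.node 0 3 (.cons 0x4598761230 (.cons 0x8795461230 (.cons 0x4678590321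 .nil))) (.node 4 9 (.cons 0x7856129430 (.cons 0x5876129430 (.cons 0x9458761032 .nil))) (.node 0 4 (.cons 0x3216789540 (.cons 0x8795403216 .nil)) (.leaf 0x1678594032 0 .done) .done) (.node 2 8 (.cons 0x1289765430 (.cons 0x7982165430 (.cons 0x4503289761 .nil))) .done .done)) (.leaf 0x8501643297 0 (.leaf 0x2978501643 1 .done))) (.node 5 7 .nil (.node 1 8 (.cons 0x3218764590 (.cons 0x9234618750 .nil)) (.node 0 4 (.cons 0x3216789540 (.cons 0x8923405761 (.cons 0x6409578123 .nil))) (.node 0 8 (.cons 0x3465780921 .nil) (.node 1 3 (.cons 0x3129587640 (.cons 0x9087654312 (.cons 0x6758921340 (.cons 0x8756431290 .nil)))) .done .done) .done) (.node 0 3 (.cons 0x4598761230 (.cons 0x9218576430 (.cons 0x8756430921 .nil))) (.leaf 0x9218756430 0 (.leaf 0x7645903218 0 .done)) .done)) (.node 3 5 (.cons 0x6789012354 .nil) (.node 1 5 (.cons 0x4329876150 .nil) (.node 2 5 .nil (.node 1 8 (.cons 0x3218764590 (.cons 0x9052346781 .nil)) (.node 0 3 (.cons 0x4598761230 (.cons 0x9034521876 (.cons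 0x9250346187 (.cons 0x4309876521 .nil)))) .done .done) .done) .done) (.node 1 5 (.cons 0x4329876150 .nil) (.node 2 5 .nil (.node 3 9 (.cons 0x4501678932 (.cons 0x4523987610 .nil)) (.node 0 3 (.cons 0x4598761230 (.cons 0x4309876521 .nil)) (.node 1 3 (.cons 0x2134567890 (.cons 0x4312567890 .nil)) .done .done) .done) .done) .done) .done)) .done)) (.node 7 9 (.cons 0x1643297850 .nil) (.leaf 0x8501643297 0 (.leaf 0x2978501643 1 .done)) .done))) .done)))
noncomputable def tc9_2_19 : T := (.node 2 9 (.cons 0x1678923450 .nil) (.node 0 6 (.cons 0x7892345061 .nil) (.node 3 9 (.cons 0x4501678932 .nil) (.node 3 6 (.cons 0x7892361054 .nil) (.node 6 9 .nil (.node 3 8 (.cons 0x9012387645 (.cons 0x7832964501 (.cons 0x7832109645 .nil))) .done (.node 0 3 (.cons 0x7892165430 .nil) (.node 0 2 (.cons 0x3456789021 .nil) (.node 0 7 (.cons 0x8954321670 .nil) (.node 2 6 (.cons 0x3450789261 .nil) .done .done) .done) (.node 3 8 (.cons 0x9012387645 .nil) (.node 3 5 (.cons 0x6789012354 .nil)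 (.node 3 7 (.cons 0x7389210654 .nil) .done .done) .done) .done)) .done)) .done) (.node 3 6 (.cons 0x7892361054 .nil) (.node 4 9 .nil (.node 0 2 (.cons 0x3456789021 (.cons 0x8761023945 (.cons 0x5023498761 .nil))) .done (.node 0 4 (.cons 0x5401678932 .nil) (.node 0 3 (.cons 0x7892165430 .nil) (.node 2 6 (.cons 0x7893261045 .nil) (.node 3 7 (.cons 0x3789045621 .nil) (.node 6 9 (.cons 0x8732964501 .nil) .done .done) .done) .done) .done) .done)) .done) .done)) (.node 0 7 (.cons 0x8954321670 .nil) (.node 0 2 (.cons 0x3456789021 .nil) (.node 0 3 (.cons 0x7892165430 .nil) (.node 2 6 (.cons 0x7890345621 .nil) (.node 6 8 (.cons 0x8670954321 .nil) (.node 6 9 (.cons 0x8705432961 .nil) .done .done) .done) .done) .done) (.node 0 8 (.cons 0x7612345980 .nil) (.node 3 6 (.cons 0x5436129870 .nil) (.node 0 3 (.cons 0x7892165430 .nil) (.node 2 6 (.cons 0x3450789261 .nil) (.node 2 7 (.cons 0x8927054361 .nil) (.leaf 0x895436127 0 (.leaf 0x1634598072 1 (.node 0 2 (.cons 0x3456789021 .nil)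 (.node 0 4 (.cons 0x8950432761 .nil) .done .done) .done))) .done) .done) (.node 0 4 (.cons 0x7892361045 .nil) (.node 0 2 (.cons 0x3456789021 .nil) (.node 0 3 (.cons 0x7892165430 .nil) .done .done) .done) .done)) .done) .done)) .done)) (.node 1 5 (.cons 0x4329876150 .nil) (.node 3 9 (.cons 0x4501678932 .nil) (.node 3 5 (.cons 0x6789012354 .nil) (.node 5 7 .nil (.node 1 8 (.cons 0x5092346781 (.cons 0x9234618750 (.cons 0x2187564390 (.cons 0x2934618750 .nil)))) .done (.node 5 8 .nil (.node 0 6 (.cons 0x4578932160 (.cons 0x7609854321 (.cons 0x9067851234 .nil))) .done (.node 7 9 (.cons 0x1643297850 .nil) (.leaf 0x8501643297 0 (.leaf 0x2978501643 1 .done)) .done)) .done)) .done) (.node 3 5 (.cons 0x6789012354 .nil) (.node 5 7 .nil (.node 3 8 (.cons 0x4387651290 (.cons 0x9238750164 (.cons 0x8321095764 .nil))) .done (.node 2 5 (.cons 0x4523987610 .nil) (.node 5 8 .nil (.node 0 2 (.cons 0x3456789021 (.cons 0x9320167854 (.cons 0x7610239854 .nil))) .done .done) .done) .done))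 (.node 3 8 (.cons 0x4387651290 .nil) (.node 5 8 .nil (.node 0 2 (.cons 0x3456789021 (.cons 0x9320167854 (.cons 0x7610239854 (.cons 0x9320164587 .nil)))) .done (.node 2 8 (.cons 0x5467823901 .nil) (.node 2 5 (.cons 0x4523987610 .nil) (.node 5 7 (.cons 0x9328754610 .nil) .done .done) .done) .done)) (.node 1 3 (.cons 0x2134567890 .nil) (.node 3 6 .nil (.node 0 8 (.cons 0x7612345980 (.cons 0x7809215634 (.cons 0x9087634512 .nil))) .done .done) .done) .done)) .done)) .done)) (.node 1 8 (.cons 0x5092346781 .nil) (.node 1 9 (.cons 0x5091876432 .nil) (.node 1 7 (.cons 0x8715092346 .nil) (.node 1 3 (.cons 0x2134567890 .nil) (.node 1 4 .nil (.node 2 7 (.cons 0x4327618950 (.cons 0x6723418950 (.cons 0x8905413276 .nil))) .done .done) .done) .done) .done) (.node 1 9 .nil (.node 3 5 (.cons 0x5346781290 (.cons 0x2918764350 .nil)) (.leaf 0x7812905346 0 .done) .done) .done)) .done)) (.node 1 8 (.cons 0x3290546781 .nil) (.node 1 5 .nil (.node 3 8 (.cons 0x9012387645 (.cons 0x4678329051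 (.cons 0x1546783290 .nil))) (.node 1 4 (.cons 0x3298761450 .nil) (.leaf 0x5146783290 1 (.node 1 9 (.cons 0x4678329150 .nil) .done .done)) .done) (.node 1 3 (.cons 0x2134567890 .nil) (.node 1 4 (.cons 0x3298761450 .nil) (.node 2 8 (.cons 0x7654312890 .nil) (.node 1 9 (.cons 0x9105467823 .nil) (.node 1 7 (.cons 0x8234671950 .nil) .done .done) (.node 6 9 (.cons 0x4328769051 .nil) (.leaf 0x5096782341 0 (.node 4 9 (.cons 0x9432876150 .nil) (.node 3 6 (.cons 0x7821563490 .nil) (.node 3 9 (.cons 0x4501678932 .nil) .done .done) .done) .done)) .done)) .done) (.node 5 8 (.cons 0x4678509231 .nil) (.node 2 5 (.cons 0x4312567890 .nil) (.node 3 5 (.cons 0x6789012354 .nil) .done .done) (.node 1 4 (.cons 0x3298761450 .nil) (.leaf 0x3290587641 1 (.leaf 0x6785092314 0 .done)) .done)) .done)) .done)) (.node 1 5 (.cons 0x9051876432 .nil) (.node 0 8 (.cons 0x7612345980 .nil) (.node 2 8 .nil (.node 0 7 (.cons 0x8954321670 (.cons 0x9507618234 (.cons 0x4328950761 (.cons 0x3459821670 .nil))))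 .done (.node 3 8 (.cons 0x9012387645 .nil) (.node 1 7 (.cons 0x7164592380 .nil) (.node 1 9 (.cons 0x7643281950 .nil) (.node 1 3 (.cons 0x2134567890 .nil) (.node 1 4 (.cons 0x3298761450 .nil) .done .done) .done) .done) .done) .done)) (.node 5 7 (.cons 0x8123467590 .nil) (.leaf 0x6432180957 0 (.leaf 0x9576432180 1 .done)) .done)) (.node 1 9 (.cons 0x5091876432 .nil) (.node 1 4 (.cons 0x3298761450 .nil) (.node 1 3 (.cons 0x2134567890 .nil) (.node 1 7 .nil (.node 0 3 (.cons 0x4503298761 (.cons 0x8903456712 (.cons 0x6543098712 .nil))) (.leaf 0x2987614503 0 .done) .done) .done) .done) .done) .done)) (.node 0 8 (.cons 0x7612345980 .nil) (.node 1 9 (.cons 0x7805461923 .nil) (.node 1 4 (.cons 0x3298761450 .nil) (.node 0 3 (.cons 0x4503298761 .nil) (.leaf 0x5416789230 1 (.node 0 6 (.cons 0x7891605432 .nil) (.node 0 2 (.cons 0x3456789021 .nil) (.node 3 9 (.cons 0x8765439021 .nil) (.leaf 0x218765439 0 (.leaf 0x4390218765 1 .done)) .done) .done) (.leaf 0x2987614503 0 .done)))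 .done) (.node 1 7 .nil (.node 2 8 (.cons 0x8234671950 (.cons 0x7128095643 .nil)) (.leaf 0x9056432871 0 .done) (.node 6 9 (.cons 0x3456908712 .nil) (.node 1 5 (.cons 0x6908715432 .nil) (.node 1 3 (.cons 0x2134567890 .nil) (.node 1 4 (.cons 0x3298761450 .nil) .done .done) .done) .done) .done)) .done)) (.node 1 5 (.cons 0x9087643215 .nil) (.node 5 7 (.cons 0x4321675980 .nil) (.node 3 5 (.cons 0x3546781290 .nil) (.node 0 6 (.cons 0x7812906453 .nil) (.node 2 5 (.cons 0x7609812543 .nil) .done .done) .done) (.leaf 0x957643218 0 .done)) (.node 1 4 (.cons 0x3298761450 .nil) (.node 5 7 (.cons 0x4321675980 .nil) (.node 2 5 (.cons 0x9805234167 .nil) (.node 3 5 (.cons 0x3546781290 .nil) .done .done) (.leaf 0x1675089234 0 (.leaf 0x957643218 0 .done))) .done) .done)) .done)) .done))) .done))) (.node 0 6 (.cons 0x7895432160 .nil) (.node 5 8 (.cons 0x7609854321 .nil) (.node 3 5 (.cons 0x6789012354 .nil) (.node 5 7 (.cons 0x8906754321 .nil) (.node 1 5 .nil (.node 3 8 (.cons 0x4576098321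 (.cons 0x9015467832 .nil)) (.node 0 3 (.cons 0x4309876512 .nil) (.node 4 9 (.cons 0x7549832160 (.cons 0x8945761230 (.cons 0x7549830612 (.cons 0x5498761032 .nil)))) .done .done) (.node 0 2 (.cons 0x7834659021 (.cons 0x9021567834 (.cons 0x9021564387 (.cons 0x9876150234 .nil)))) .done .done)) (.node 2 5 .nil (.node 1 3 (.cons 0x2134567890 (.cons 0x4312567890 .nil)) (.node 1 8 (.cons 0x4576098123 (.cons 0x9052346781 (.cons 0x7609812543 .nil))) .done .done) .done) .done)) .done) (.node 3 9 (.cons 0x4501678932 .nil) (.node 1 5 .nil (.node 0 2 (.cons 0x3456789021 (.cons 0x8765120934 (.cons 0x9876150234 .nil))) (.node 0 4 (.cons 0x7893402165 (.cons 0x7604398512 .nil)) .done .done) (.node 1 3 (.cons 0x2134567890 .nil) (.node 3 8 (.cons 0x9012387645 .nil) (.node 3 6 .nil (.node 0 4 (.cons 0x9321046785 (.cons 0x7859364012 .nil)) (.node 2 7 (.cons 0x5612789340 (.cons 0x9872104563 (.cons 0x9365872104 (.cons 0x5634098721 (.cons 0x4563127890 .nil))))) .done .done) .done) .done)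 .done) .done)) (.node 1 5 (.cons 0x8764510932 .nil) (.node 2 5 (.cons 0x4523987610 .nil) (.node 5 7 (.cons 0x8906754321 .nil) .done .done) .done) .done)) .done)) (.node 6 8 (.cons 0x7864590123 .nil) (.node 5 7 (.cons 0x1234687590 .nil) (.leaf 0x8643210957 0 (.leaf 0x9578643210 1 .done)) (.node 3 6 .nil (.node 1 7 (.cons 0x4589067123 (.cons 0x4590178632 (.cons 0x4632178590 .nil))) (.node 0 2 (.cons 0x3456789021 (.cons 0x2095436871 (.cons 0x9871634502 (.cons 0x4361789502 .nil)))) .done .done) (.node 0 4 (.cons 0x7859046321 .nil) (.node 6 9 .nil (.node 3 7 (.cons 0x2378645901 (.cons 0x3789654012 (.cons 0x9612378540 (.cons 0x5401698732 .nil)))) .done (.node 0 3 (.cons 0x7896123045 .nil) (.node 2 6 .nil (.node 1 9 (.cons 0x8765430912 (.cons 0x7891623405 (.cons 0x4587621903 .nil))) (.leaf 0x6234501987 0 .done) .done) .done) .done)) (.node 2 6 .nil (.node 3 7 (.cons 0x2378645901 (.cons 0x6210459873 (.cons 0x4095873621 (.cons 0x4598732610 .nil)))) .done (.node 6 9 .nil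 (.node 0 3 (.cons 0x4587690321 (.cons 0x7854690321 .nil)) (.node 2 7 (.cons 0x5987216340 (.cons 0x9546872301 (.cons 0x9587216304 (.cons 0x9587216403 .nil)))) .done .done) .done) .done)) .done)) .done)) .done)) .done)) (.node 0 7 (.cons 0x6123459870 .nil) (.node 1 7 (.cons 0x8712346095 .nil) (.node 0 8 (.cons 0x3465908712 .nil) (.leaf 0x7123465908 0 (.node 1 8 (.cons 0x7812346095 .nil) (.node 2 7 (.cons 0x4327895061 .nil) (.node 3 7 (.cons 0x8732109546 .nil) (.node 4 7 (.cons 0x5987432160 .nil) (.leaf 0x8950612347 0 .done) .done) (.node 2 6 (.cons 0x4326178950 .nil) (.node 3 6 (.cons 0x3645908721 .nil) (.node 2 9 (.cons 0x1678923450 .nil) (.node 3 7 (.cons 0x5921643780 .nil) (.leaf 0x8734612950 1 .done) .done) .done) .done) .done)) .done) .done)) (.node 1 8 (.cons 0x7812346095 .nil) (.node 1 4 (.cons 0x7895061432 .nil) (.node 1 9 .nil (.node 2 7 (.cons 0x4327895061 (.cons 0x8723460591 (.cons 0x8723461950 (.cons 0x6450918723 .nil)))) .done (.node 1 3 (.cons 0x2134567890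 .nil) (.node 1 5 .nil (.node 0 8 (.cons 0x9087654312 .nil) (.node 4 8 (.cons 0x6195078432 (.cons 0x9512348706 (.cons 0x9516078432 .nil))) .done .done) .done) .done) .done)) .done) (.node 1 9 (.cons 0x5091876432 .nil) (.node 1 4 (.cons 0x7895061432 .nil) (.node 1 3 (.cons 0x2134567890 .nil) (.node 1 5 (.cons 0x9051876432 .nil) .done .done) .done) .done) .done)) .done)) (.node 1 7 (.cons 0x8712346095 .nil) (.node 6 8 (.cons 0x6871234590 .nil) (.leaf 0x3459068712 1 (.node 5 8 (.cons 0x7859064321 .nil) (.node 5 7 (.cons 0x8759064321 .nil) (.node 0 8 .nil (.node 3 9 (.cons 0x4501678932 (.cons 0x4576123980 (.cons 0x4612395780 (.cons 0x7801645932 .nil)))) .done (.node 0 4 (.cons 0x9587123406 .nil) (.node 0 2 (.cons 0x3456789021 .nil) (.node 0 3 (.cons 0x7864590321 .nil) .done .done) .done) .done)) .done) .done) .done)) (.node 0 8 (.cons 0x3465908712 .nil) (.leaf 0x7123465908 0 .done) .done)) .done)) .done)) (.node 2 9 (.cons 0x1678923450 .nil) tc9_2_18 .done)))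
noncomputable def uc9_2_3 : T := (.node 5 9 (.cons 0x8764590123 .nil) tc9_2_19 (.node 5 8 (.cons 0x7645890123 .nil) (.node 0 7 (.cons 0x9854670123 .nil) tc9_2_17 (.node 3 7 (.cons 0x8901237645 .nil) (.node 0 6 (.cons 0x9854601237 .nil) (.node 5 9 (.cons 0x8954673210 .nil) (.node 3 5 (.cons 0x6789012354 .nil) (.node 1 5 .nil (.node 0 7 (.cons 0x8954321670 (.cons 0x8907643215 .nil)) (.node 0 4 (.cons 0x8954012376 .nil) (.node 3 6 (.cons 0x9873654012 (.cons 0x7890436512 (.cons 0x4510987632 .nil))) .done .done) .done) .done) .done) (.node 1 8 (.cons 0x9810546732 .nil) (.node 5 7 (.cons 0x5764321890 .nil) (.node 1 7 (.cons 0x5098176432 .nil) (.node 4 7 (.cons 0x9581237460 .nil) (.node 7 9 (.cons 0x6458973210 .nil) (.leaf 0x2345879061 0 .done) .done) .done) .done) (.node 0 8 (.cons 0x1237645980 .nil) (.node 3 8 (.cons 0x4590678321 .nil) (.node 1 4 (.cons 0x2387609541 .nil) (.node 5 7 (.cons 0x2380957641 .nil) (.leaf 0x957641238 0 .done) (.node 0 4 (.cons 0x3216789540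 .nil) (.node 0 7 (.cons 0x3708956412 .nil) .done .done) .done)) .done) .done) .done)) .done)) (.node 0 8 (.cons 0x9801237645 .nil) (.node 1 8 (.cons 0x9810546732 .nil) (.node 0 7 .nil (.node 3 9 (.cons 0x5467398012 (.cons 0x5439807612 (.cons 0x2165439870 (.cons 0x4658937012 (.cons 0x7016458932 .nil))))) .done (.node 5 7 (.cons 0x5764321890 .nil) (.node 2 7 (.cons 0x9072185643 .nil) (.node 7 9 (.cons 0x6458973210 .nil) (.leaf 0x8501643279 0 (.leaf 0x2798501643 1 .done)) .done) .done) .done)) .done) .done) .done)) (.node 6 9 (.cons 0x6901237854 .nil) (.node 3 6 .nil (.node 2 4 (.cons 0x1243785690 (.cons 0x9876324501 (.cons 0x7890124563 .nil))) (.node 4 7 (.cons 0x9610587423 (.cons 0x9632478501 (.cons 0x5874210963 (.cons 0x5874236901 .nil)))) .done .done) (.node 1 7 (.cons 0x7109854632 .nil) (.node 1 8 (.cons 0x5098176432 .nil) (.node 2 7 (.cons 0x5812734690 .nil) (.node 5 7 (.cons 0x2185734690 .nil) (.node 0 6 (.cons 0x9850643271 .nil) (.node 0 2 (.cons 0x4378569021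 .nil) (.leaf 0x8120964375 0 (.leaf 0x6902185734 0 (.node 0 8 (.cons 0x4690857321 .nil) .done .done))) .done) .done) (.leaf 0x6905812734 0 .done)) .done) (.node 0 6 .nil (.node 2 9 (.cons 0x1678923450 (.cons 0x8543712906 (.cons 0x8734560921 (.cons 0x8546092173 .nil)))) .done (.node 1 8 (.cons 0x9067812345 .nil) (.node 2 6 (.cons 0x9058173462 .nil) (.node 2 8 (.cons 0x5821734690 .nil) (.node 2 9 (.cons 0x9285463710 .nil) (.leaf 0x8501734692 0 (.leaf 0x7185092643 0 .done)) .done) .done) .done) .done)) .done)) .done)) (.leaf 0x3785469012 1 (.leaf 0x2378546901 0 .done))) (.node 1 7 (.cons 0x2173465890 .nil) (.node 1 5 .nil (.node 0 2 (.cons 0x7346589021 (.cons 0x8902156734 (.cons 0x6512098734 (.cons 0x9876150234 .nil)))) (.leaf 0x1564378902 0 .done) (.node 1 3 (.cons 0x2134567890 .nil) (.node 0 6 (.cons 0x7890654312 .nil) (.node 1 4 (.cons 0x9065873412 .nil) (.node 1 8 (.cons 0x9067812345 .nil) (.node 1 9 (.cons 0x4378560912 .nil) .done .done) .done) (.node 2 7 (.cons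 0x1273465890 .nil) (.leaf 0x3127890654 0 (.leaf 0x9872134560 0 .done)) .done)) .done) .done)) (.node 0 7 .nil (.node 1 9 (.cons 0x8916705432 (.cons 0x6198705432 (.cons 0x7058916432 .nil))) (.node 2 4 (.cons 0x9876105423 (.cons 0x6789105423 (.cons 0x6587342190 (.cons 0x2437891650 .nil)))) .done .done) (.node 0 6 (.cons 0x5890643712 .nil) (.node 5 7 (.cons 0x7589064321 .nil) (.leaf 0x4609857123 0 (.node 5 9 (.cons 0x9587061234 .nil) (.node 0 8 (.cons 0x7612345980 .nil) (.node 0 2 (.cons 0x7346589021 .nil) (.leaf 0x6120895437 0 (.leaf 0x9802167345 0 .done)) .done) .done) .done)) .done) .done)) .done)) (.leaf 0x985467321 0 .done)))) (.node 3 7 (.cons 0x1237645890 .nil) (.node 5 9 (.cons 0x8954673210 .nil) (.node 5 7 .nil (.node 0 8 (.cons 0x7612345980 (.cons 0x9801237546 (.cons 0x4321675980 .nil))) (.node 1 8 (.cons 0x9810546732 (.cons 0x5764321890 .nil)) (.node 0 7 (.cons 0x3465709812 .nil) (.node 6 9 (.cons 0x9645812370 (.cons 0x4698105732 (.cons 0x2375469810 .nil)))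 (.leaf 0x2185469073 0 .done) .done) .done) .done) (.node 3 5 (.cons 0x6789012354 .nil) (.node 1 5 .nil (.node 0 7 (.cons 0x8954321670 (.cons 0x4670985123 .nil)) (.node 1 7 (.cons 0x8905176432 .nil) .done .done) .done) .done) .done)) (.node 0 6 (.cons 0x7895432160 .nil) (.node 0 7 (.cons 0x6123459870 .nil) (.node 5 7 .nil (.node 0 3 (.cons 0x7645890321 (.cons 0x9857032164 .nil)) (.node 0 8 (.cons 0x9801237645 (.cons 0x9801237546 (.cons 0x9803457612 .nil))) .done .done) (.node 1 5 (.cons 0x4670985123 .nil) (.node 3 5 (.cons 0x4670985321 .nil) .done .done) .done)) (.node 5 7 .nil (.node 0 8 (.cons 0x9801237645 (.cons 0x9801237546 (.cons 0x9578061234 .nil))) .done (.node 1 7 (.cons 0x3217645890 .nil) (.node 1 5 (.cons 0x8905176432 .nil) (.node 3 5 (.cons 0x4671235890 .nil) .done .done) .done) .done)) .done)) (.node 5 7 (.cons 0x8957321064 .nil) (.node 0 7 (.cons 0x6123459870 .nil) (.node 0 8 (.cons 0x9578061234 .nil) (.node 4 9 (.cons 0x8759432160 .nil) (.leaf 0x1608759432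 0 (.leaf 0x6123495780 1 .done)) .done) .done) .done) .done)) .done)) (.node 1 7 (.cons 0x3217645890 .nil) (.node 0 7 .nil (.node 1 3 (.cons 0x2134567890 (.cons 0x8907654312 .nil)) (.node 2 9 (.cons 0x1678923450 (.cons 0x8923450761 (.cons 0x3456129870 (.cons 0x4316507892 (.cons 0x6132987054 .nil))))) .done .done) (.node 0 4 (.cons 0x5890467123 .nil) (.node 0 6 .nil (.node 1 3 (.cons 0x2134567890 (.cons 0x7890654312 .nil)) (.node 2 4 (.cons 0x8905671342 (.cons 0x9850671324 (.cons 0x5609871243 .nil))) .done .done) (.node 0 8 (.cons 0x9085467321 .nil) (.node 0 2 (.cons 0x3456789021 .nil) (.node 0 3 (.cons 0x7645890321 .nil) .done .done) .done) .done)) (.node 0 8 (.cons 0x9085467321 .nil) (.node 0 3 (.cons 0x7645890321 .nil) (.node 1 3 (.cons 0x2134567890 .nil) (.node 3 5 (.cons 0x4671235890 .nil) (.leaf 0x1235890467 0 .done) .done) .done) .done) .done)) .done)) (.node 0 7 .nil (.node 1 9 (.cons 0x8546732190 (.cons 0x8916705432 (.cons 0x6198705432 .nil))) (.node 2 8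 (.cons 0x4673285091 (.cons 0x5076432891 (.cons 0x4658219073 .nil))) (.leaf 0x734658219 0 .done) .done) (.node 0 3 (.cons 0x7645890321 .nil) (.node 1 8 (.cons 0x7654309812 .nil) (.node 5 7 (.cons 0x3465709812 .nil) (.leaf 0x8123465709 0 .done) (.node 1 3 (.cons 0x2134567890 .nil) (.node 3 5 (.cons 0x4670985321 .nil) (.node 5 7 (.cons 0x5764321890 .nil) .done .done) .done) .done)) (.node 5 7 (.cons 0x9857032164 .nil) (.node 3 5 (.cons 0x4670985321 .nil) (.node 5 9 (.cons 0x4307895612 .nil) (.node 1 3 (.cons 0x2134567890 .nil) (.node 1 5 (.cons 0x4670985123 .nil) (.node 2 5 (.cons 0x4312567890 .nil) .done .done) .done) .done) .done) .done) .done)) .done)) .done)) (.leaf 0x2376458901 1 (.leaf 0x6458901237 0 .done)))) .done))) (.node 6 8 .nil tc9_2_16 .done)))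
theorem sub_c9_2_3 : root 9 refs9_2 [] 0x700000008706000000006050000000050300080000304000200004010000000010300000000302000080002018000200010 0xfe7fff3fff9ffed7ffe3ffedfff5fff3fef9fef9 9 4 6 (.cons 0x5467890123 .nil) uc9_2_3 = true := by decide +kernel
noncomputable def tc9_2_20 : T := (.node 1 6 (.cons 0x5432167890 (.cons 0x9032167854 (.cons 0x7612309854 .nil))) (.node 5 9 (.cons 0x4598761032 .nil) (.node 0 6 (.cons 0x8760954321 .nil) (.leaf 0x9543210678 0 .done) (.leaf 0x6120345987 0 .done)) (.node 2 4 (.cons 0x7890561243 (.cons 0x9876542103 (.cons 0x7890342165 .nil))) (.node 4 7 (.cons 0x3478905612 (.cons 0x9874305612 .nil)) (.node 2 5 (.cons 0x6125098743 (.cons 0x9874305216 (.cons 0x4761258903 .nil))) .done (.node 1 5 (.cons 0x6150987432 (.cons 0x9876512034 (.cons 0x4761589032 .nil))) (.node 4 9 (.cons 0x5167809432 (.cons 0x8516749032 (.cons 0x6158749032 (.cons 0x5876124903 .nil)))) .done .done) .done)) (.node 4 7 (.cons 0x3478905612 (.cons 0x9874305612 (.cons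 0x5890324761 .nil))) (.node 3 8 (.cons 0x9830124567 (.cons 0x9038561247 (.cons 0x9038567421 .nil))) .done (.node 2 5 (.cons 0x6125098743 (.cons 0x9874305216 .nil)) (.node 4 9 (.cons 0x5234908761 (.cons 0x6125874903 (.cons 0x4903258761 .nil))) .done .done) .done)) .done)) .done)) (.node 2 8 (.cons 0x9034567821 .nil) (.node 0 6 .nil (.node 3 5 (.cons 0x4356789021 (.cons 0x9876012354 .nil)) (.node 6 8 (.cons 0x7689012354 .nil) (.node 4 7 (.cons 0x5321098674 (.cons 0x9821067453 (.cons 0x9823547601 .nil))) (.node 1 8 (.cons 0x9034567812 (.cons 0x9812065347 (.cons 0x9812067435 .nil))) .done (.node 1 9 (.cons 0x9128765430 (.cons 0x8547609123 (.cons 0x8532190674 (.cons 0x9128760345 .nil)))) (.node 0 7 (.cons 0x9128607435 .nil) .done .done) .done)) .done) (.node 1 4 (.cons 0x2098765341 (.cons 0x9876014532 (.cons 0x9067854123 (.cons 0x7609854123 .nil)))) (.node 2 7 (.cons 0x6098723541 .nil) (.node 3 7 (.cons 0x9873412065 (.cons 0x5609873412 .nil)) .done (.leaf 0x653412789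 0 .done)) (.node 2 9 (.cons 0x8765430921 (.cons 0x9287603541 .nil)) (.leaf 0x6014532987 0 (.leaf 0x678923541 1 .done)) .done)) .done)) (.node 0 4 .nil (.node 1 6 (.cons 0x5432167890 (.cons 0x9045876123 .nil)) (.node 3 9 (.cons 0x9301287654 (.cons 0x7612398540 (.cons 0x7893402165 (.cons 0x7893405612 (.cons 0x5401678932 .nil))))) .done (.node 3 5 (.cons 0x4356789021 (.cons 0x9876534021 (.cons 0x7612358904 .nil))) (.node 5 7 (.cons 0x8906754321 (.cons 0x9875043216 .nil)) (.leaf 0x432165789 0 .done) .done) .done)) (.node 0 7 .nil (.node 1 3 (.cons 0x2134567890 (.cons 0x9821345670 (.cons 0x9821345607 .nil))) (.node 2 9 (.cons 0x8765430921 (.cons 0x8921345670 (.cons 0x6543129870 .nil))) (.node 1 5 (.cons 0x7608923154 (.cons 0x6708923154 .nil)) (.node 4 8 (.cons 0x9021567843 (.cons 0x7065489213 .nil)) .done .done) .done) (.node 5 9 (.cons 0x7604312895 (.cons 0x4312895670 .nil)) (.leaf 0x3128956704 1 .done) .done)) .done) .done)) .done)) (.node 2 9 (.cons 0x8765430921 .nil)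 (.node 5 9 .nil (.node 1 8 (.cons 0x9034567812 (.cons 0x9567812034 (.cons 0x4309567812 .nil))) (.node 4 8 (.cons 0x9567843021 .nil) (.node 0 6 (.cons 0x1234598760 .nil) (.node 1 5 (.cons 0x7608923451 (.cons 0x9021567843 (.cons 0x7651209843 .nil))) .done (.leaf 0x9543210678 0 .done)) .done) .done) (.node 3 5 (.cons 0x4356789021 .nil) (.node 0 6 (.cons 0x9876012354 .nil) (.node 0 4 (.cons 0x9876534021 .nil) (.node 0 7 .nil (.node 1 6 (.cons 0x5432167890 (.cons 0x5432980761 (.cons 0x9078216543 (.cons 0x4076129853 .nil)))) .done .done) .done) .done) (.node 0 7 .nil (.node 1 6 (.cons 0x5432167890 (.cons 0x5432980761 (.cons 0x9078216543 (.cons 0x4589076123 (.cons 0x7098216534 .nil))))) .done (.node 0 6 .nil (.node 1 7 (.cons 0x8902176534 (.cons 0x5432980671 (.cons 0x6095432871 (.cons 0x7128906534 .nil)))) .done (.node 0 4 .nil (.node 1 3 (.cons 0x2134567890 (.cons 0x6789540132 (.cons 0x5678904312 .nil))) (.node 1 6 (.cons 0x5432167890 (.cons 0x7895613402 (.cons 0x9045876123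 (.cons 0x7612358904 .nil)))) .done .done) .done) .done)) .done)) .done)) .done)) (.node 3 8 (.cons 0x4567830921 .nil) (.node 3 5 (.cons 0x4356789021 .nil) (.node 4 8 (.cons 0x7653489021 .nil) (.node 1 8 (.cons 0x9034567812 .nil) (.node 6 8 (.cons 0x7684530921 .nil) .done .done) .done) (.node 5 9 .nil (.node 0 4 (.cons 0x7659834021 (.cons 0x6783045921 .nil)) (.node 0 6 (.cons 0x7601238954 .nil) .done .done) (.node 0 7 (.cons 0x4389567021 .nil) (.node 0 4 (.cons 0x7659834021 .nil) (.node 0 6 (.cons 0x7601238954 .nil) .done .done) .done) .done)) .done)) (.node 1 8 (.cons 0x9034567812 .nil) (.node 6 8 .nil (.node 5 9 (.cons 0x9567812034 .nil) (.node 0 7 (.cons 0x9543076812 .nil) (.leaf 0x9543210768 0 .done) (.node 0 6 (.cons 0x4592306781 .nil) (.node 0 4 (.cons 0x9218765403 .nil) (.node 4 8 (.cons 0x7603295481 .nil) .done .done) .done) .done)) .done) (.node 0 6 .nil (.node 2 5 (.cons 0x9034521876 (.cons 0x9067812543 (.cons 0x7609812543 .nil))) (.node 1 9 (.cons 0x8765430912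 .nil) (.leaf 0x6034529187 0 (.leaf 0x678192543 1 (.node 0 4 (.cons 0x5219876043 .nil) (.node 1 7 (.cons 0x3408917652 (.cons 0x9854067123 .nil)) (.leaf 0x6043258917 0 .done) .done) .done))) .done) (.node 3 7 (.cons 0x4589067321 .nil) (.node 2 7 (.cons 0x9812734506 .nil) (.node 6 9 (.cons 0x4378965021 .nil) (.leaf 0x3721896054 1 (.node 1 7 (.cons 0x9821734560 .nil) (.node 3 6 (.cons 0x4365098712 .nil) .done .done) .done)) .done) (.node 3 6 .nil (.node 1 4 (.cons 0x2376098541 (.cons 0x7360541892 (.cons 0x1456378290 (.cons 0x7632145890 (.cons 0x7890214365 .nil))))) .done (.node 3 5 (.cons 0x4356789021 .nil) (.node 6 8 (.cons 0x7681290354 .nil) .done .done) .done)) .done)) .done)) .done)) .done)) .done)) .done)) (.node 2 8 (.cons 0x7654309821 .nil) (.node 0 6 .nil (.node 7 9 (.cons 0x1289765430 (.cons 0x5430679821 .nil)) (.leaf 0x2897654301 0 (.leaf 0x5679821034 0 (.node 1 4 (.cons 0x5678902143 (.cons 0x8976032145 (.cons 0x9067854123 (.cons 0x7609854123 (.cons 0x7982145603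 (.cons 0x5412897603 .nil)))))) .done .done))) (.node 7 9 (.cons 0x1289765430 .nil) (.leaf 0x2897654301 0 (.node 1 5 (.cons 0x6798215430 .nil) (.leaf 0x4306798215 0 (.node 0 7 .nil (.node 1 6 (.cons 0x5432167890 (.cons 0x9870543216 (.cons 0x4589076123 .nil))) (.node 1 9 (.cons 0x6780915432 (.cons 0x9154328076 (.cons 0x9128706543 .nil))) .done .done) .done) (.leaf 0x2897603451 1 .done))) (.leaf 0x5679821034 0 (.node 0 4 (.cons 0x3045679821 .nil) (.node 0 7 .nil (.node 1 6 (.cons 0x5432167890 (.cons 0x9870543216 (.cons 0x4589076123 .nil))) (.leaf 0x2897034561 0 .done) .done) .done) .done)))) .done)) (.node 0 6 .nil (.node 1 3 (.cons 0x2134567890 (.cons 0x9065431287 (.cons 0x7890654312 .nil))) (.node 4 7 (.cons 0x6745890321 (.cons 0x9854760321 (.cons 0x9854760312 .nil))) (.node 3 9 (.cons 0x6547821093 (.cons 0x9312065874 (.cons 0x5609347821 (.cons 0x9310654782 .nil)))) .done (.node 2 9 (.cons 0x4765892031 (.cons 0x1329854760 (.cons 0x6054789231 .nil))) .done .done))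 (.node 1 8 (.cons 0x7654309812 .nil) (.node 3 8 .nil (.node 1 7 (.cons 0x8903456712 (.cons 0x9067123854 (.cons 0x5438906712 .nil))) .done (.node 2 4 (.cons 0x7658903124 (.cons 0x9830124567 (.cons 0x9012456783 (.cons 0x7654210983 .nil)))) .done .done)) (.node 2 5 (.cons 0x4312567890 (.cons 0x9812543067 (.cons 0x9067812543 (.cons 0x7609812543 .nil)))) .done .done)) .done)) (.node 5 9 (.cons 0x8760954321 .nil) (.node 0 7 .nil (.node 6 8 (.cons 0x1234598670 .nil) (.leaf 0x9543210768 0 (.leaf 0x7689543210 1 .done)) (.node 0 4 .nil (.node 3 8 (.cons 0x7659834021 .nil) (.node 2 4 (.cons 0x6701245983 (.cons 0x9012456783 (.cons 0x7654210983 .nil))) .done (.node 1 5 (.cons 0x6704389512 (.cons 0x9043876512 .nil)) (.node 2 5 (.cons 0x6704389521 (.cons 0x9043876521 .nil)) .done .done) .done)) .done) .done)) (.node 3 5 (.cons 0x4356789021 .nil) (.node 0 4 (.cons 0x9876534021 .nil) (.node 0 7 .nil (.node 4 9 (.cons 0x6789453210 (.cons 0x8943567021 (.cons 0x6534987021 .nil))) .done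 .done) .done) (.node 0 7 .nil (.node 1 6 (.cons 0x5432167890 (.cons 0x9543287061 (.cons 0x4589076123 (.cons 0x9078216534 .nil)))) .done (.node 0 4 .nil (.node 1 6 (.cons 0x5432167890 (.cons 0x9854032167 (.cons 0x9043561287 .nil))) (.node 6 9 (.cons 0x8769012354 (.cons 0x4096785321 (.cons 0x8769045321 .nil))) .done .done) .done) .done)) .done)) .done)) .done)) .done)) .done)))
noncomputable def tc9_2_21 : T := (.node 0 3 .nil (.node 1 9 (.cons 0x7658912034 (.cons 0x5432198760 (.cons 0x5430678912 .nil))) (.node 5 7 (.cons 0x8754321906 (.cons 0x6578912034 (.cons 0x6032198754 .nil))) .done (.node 2 4 (.cons 0x9106785324 (.cons 0x5678912430 (.cons 0x7601985324 (.cons 0x7891243065 .nil)))) .done .done)) (.node 0 7 .nil (.node 1 3 (.cons 0x2134567890 (.cons 0x9870654312 (.cons 0x8907654312 .nil))) (.node 0 4 (.cons 0x9856704312 .nil) (.node 2 9 (.cons 0x8765430921 (.cons 0x7065892134 .nil)) (.leaf 0x8567043129 1 .done) .done) .done) (.node 0 4 .nil (.node 1 9 (.cons 0x8765430912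 (.cons 0x7604321985 .nil)) (.leaf 0x4067891235 0 (.node 1 5 (.cons 0x4351987602 (.cons 0x6789153402 (.cons 0x9851234067 .nil))) (.node 6 9 (.cons 0x2196785430 (.cons 0x7698540123 (.cons 0x9678512340 (.cons 0x9678540321 .nil)))) (.leaf 0x7854302196 0 .done) .done) .done)) (.node 3 7 (.cons 0x9856734021 .nil) (.node 1 9 (.cons 0x8765430912 (.cons 0x2198734560 (.cons 0x7604321985 (.cons 0x6054378912 .nil)))) (.node 5 9 (.cons 0x8956734021 (.cons 0x8954067321 .nil)) .done .done) (.node 3 9 (.cons 0x7658934021 (.cons 0x7601239854 .nil)) (.node 1 4 (.cons 0x2098765341 (.cons 0x9876014532 (.cons 0x9341206587 (.cons 0x5609873412 .nil)))) (.node 2 6 (.cons 0x5439870621 (.cons 0x9345870621 (.cons 0x9850621437 (.cons 0x9306214587 .nil)))) .done .done) .done) .done)) .done)) .done)) (.node 1 7 (.cons 0x8903456712 (.cons 0x9871234506 (.cons 0x9854306712 .nil))) (.node 2 8 (.cons 0x7654309821 .nil) (.node 1 9 (.cons 0x7658912034 (.cons 0x9176085432 (.cons 0x4356091782 (.cons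 0x7603458912 .nil)))) (.leaf 0x917823456 1 .done) (.node 4 9 (.cons 0x7658943021 (.cons 0x8235490671 (.cons 0x6094532871 (.cons 0x9458217603 (.cons 0x9458230671 .nil))))) .done .done)) (.node 1 3 (.cons 0x2134567890 (.cons 0x7890654312 .nil)) (.node 4 9 (.cons 0x5678943120 (.cons 0x5894321760 (.cons 0x7894312065 (.cons 0x5894306712 (.cons 0x5498760132 .nil))))) .done (.node 4 9 (.cons 0x2176589430 (.cons 0x5894321760 (.cons 0x9431206587 (.cons 0x5894306712 (.cons 0x9458760132 .nil))))) .done .done)) .done)) .done))) (.node 5 9 (.cons 0x8760954321 .nil) (.node 3 9 (.cons 0x9321067854 .nil) (.node 0 7 .nil (.node 1 6 (.cons 0x5432167890 (.cons 0x8954321670 (.cons 0x9854321670 .nil))) (.node 1 9 (.cons 0x9123458760 (.cons 0x6078543912 .nil)) .done .done) (.node 2 9 (.cons 0x6078543921 .nil) (.node 1 5 .nil (.node 2 6 (.cons 0x4532678901 (.cons 0x6215439870 (.cons 0x8907621543 .nil))) .done (.node 2 5 .nil (.node 1 6 (.cons 0x5432167890 (.cons 0x6125439870 (.cons 0x8907612543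 (.cons 0x9087615234 .nil)))) .done .done) .done)) .done) .done)) (.node 3 8 .nil (.node 1 9 (.cons 0x9123458760 (.cons 0x7834560912 (.cons 0x5438760912 .nil))) .done (.node 4 8 (.cons 0x7601239584 .nil) (.node 1 8 (.cons 0x9067812345 .nil) (.node 0 4 (.cons 0x9581234067 .nil) (.node 0 3 .nil (.node 0 7 (.cons 0x4307659812 .nil) (.node 1 6 (.cons 0x5432167890 (.cons 0x8954307612 (.cons 0x9854307612 .nil))) .done .done) .done) .done) .done) .done) .done)) .done)) (.node 3 8 (.cons 0x4590678321 .nil) (.node 3 9 (.cons 0x9321067854 .nil) (.node 0 7 (.cons 0x4398567021 .nil) (.node 0 3 .nil (.node 2 6 (.cons 0x4532678901 (.cons 0x9854307621 (.cons 0x4589307621 .nil))) (.node 1 4 (.cons 0x9876235410 (.cons 0x6789541230 (.cons 0x7623089541 (.cons 0x6214598703 (.cons 0x9541260387 .nil))))) (.leaf 0x2670389541 1 .done) .done) .done) .done) (.node 0 4 (.cons 0x4067859321 .nil) (.node 5 7 (.cons 0x6758932104 .nil) (.node 3 7 (.cons 0x9856734021 .nil) (.node 0 3 .nil (.node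 1 8 (.cons 0x6732189540 (.cons 0x4037659812 (.cons 0x6730459812 .nil))) .done .done) .done) .done) (.node 4 8 .nil (.node 1 5 (.cons 0x9340678512 (.cons 0x2156784390 (.cons 0x7651209843 .nil))) .done .done) .done)) .done)) (.node 3 9 (.cons 0x9321067854 .nil) (.node 0 7 (.cons 0x4398567021 .nil) (.node 3 6 (.cons 0x4589367012 .nil) (.node 0 3 .nil (.node 2 6 (.cons 0x4532678901 (.cons 0x9854307621 (.cons 0x4589307621 .nil))) .done .done) .done) .done) (.node 2 9 .nil (.node 1 4 (.cons 0x2098765341 (.cons 0x6789235410 (.cons 0x5678341290 (.cons 0x7834129065 (.cons 0x9206785341 .nil))))) (.leaf 0x9214387650 0 .done) (.node 0 7 .nil (.node 1 4 (.cons 0x2098765341 (.cons 0x8920765341 (.cons 0x9214385670 (.cons 0x5670983412 (.cons 0x9214385607 (.cons 0x6702985341 .nil)))))) .done (.node 6 8 (.cons 0x7068543921 .nil) (.node 2 6 (.cons 0x4532678901 .nil) (.node 0 3 (.cons 0x6703458921 .nil) (.node 0 4 (.cons 0x9876235401 .nil) .done .done) .done) .done) .done)) .done))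 .done)) .done)) .done)) (.node 5 7 (.cons 0x8906754321 .nil) (.node 1 5 .nil (.node 4 7 (.cons 0x9854760123 (.cons 0x9851206743 .nil)) (.node 1 9 (.cons 0x3476519802 (.cons 0x5198067432 (.cons 0x8915347602 .nil))) (.node 2 6 (.cons 0x6235478910 (.cons 0x9087623451 (.cons 0x7451980623 .nil))) (.leaf 0x891574326 1 .done) .done) (.node 1 6 (.cons 0x9874320516 (.cons 0x9087615432 (.cons 0x6150987432 .nil))) .done .done)) (.node 3 7 (.cons 0x8902156734 .nil) (.node 4 8 (.cons 0x9843765120 .nil) (.node 6 9 (.cons 0x7348965120 .nil) (.node 2 7 (.cons 0x6908432751 .nil) (.node 2 8 (.cons 0x4328096751 .nil) .done .done) (.leaf 0x3754896012 1 (.leaf 0x2375489601 0 .done))) (.node 5 9 (.cons 0x6734895120 .nil) (.leaf 0x7602159843 1 .done) .done)) (.node 3 8 (.cons 0x7651209834 .nil) (.node 4 8 (.cons 0x2156734890 .nil) (.node 2 8 (.cons 0x4376512890 .nil) (.node 1 8 (.cons 0x7609812345 .nil) (.node 2 5 (.cons 0x9067521843 .nil) .done .done) .done) .done) .done) .done)) .done))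 (.node 3 8 (.cons 0x4576098321 .nil) (.node 4 8 .nil (.node 3 9 (.cons 0x7601239854 .nil) (.node 0 7 (.cons 0x4398567021 (.cons 0x9348567021 .nil)) (.node 1 5 (.cons 0x6702158934 (.cons 0x9021567843 (.cons 0x7651209843 .nil))) .done .done) (.leaf 0x2398457601 1 .done)) (.node 1 8 (.cons 0x4576098123 .nil) (.node 0 4 .nil (.node 1 6 (.cons 0x5432167890 (.cons 0x9876104532 (.cons 0x9045783216 .nil))) .done (.node 5 9 (.cons 0x3409567812 .nil) (.node 0 3 .nil (.node 1 6 (.cons 0x5432167890 (.cons 0x4895761203 (.cons 0x9584302167 .nil))) .done .done) .done) .done)) .done) .done)) (.node 5 9 .nil (.node 4 6 (.cons 0x2354678901 (.cons 0x4678953201 (.cons 0x8764590123 .nil))) (.node 1 5 (.cons 0x8764320951 .nil) (.leaf 0x6432015987 1 .done) .done) (.node 3 9 (.cons 0x7601239854 .nil) (.node 1 5 .nil (.node 1 6 (.cons 0x7615980234 (.cons 0x9087615432 .nil)) (.node 2 5 (.cons 0x9087615234 .nil) .done .done) (.node 2 5 .nil (.node 0 4 (.cons 0x9043876512 (.cons 0x9043876521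 .nil)) (.node 1 3 (.cons 0x2134567890 (.cons 0x9831257604 (.cons 0x6752138904 .nil))) .done .done) .done) .done)) .done) .done)) .done)) .done)) .done)))
noncomputable def tc9_2_22 : T := (.node 1 5 (.cons 0x9876512034 .nil) (.node 0 4 (.cons 0x9876512043 .nil) (.node 0 6 .nil (.node 3 7 (.cons 0x8902156734 (.cons 0x9806734512 (.cons 0x4378906512 .nil))) (.node 2 7 (.cons 0x8903456721 (.cons 0x3456098721 (.cons 0x9806721543 .nil))) (.node 2 9 (.cons 0x8092154376 (.cons 0x8734560921 .nil)) .done .done) .done) (.node 6 9 (.cons 0x8769043215 (.cons 0x8769045123 .nil)) (.node 1 7 (.cons 0x6987123450 (.cons 0x8712345096 .nil)) (.node 2 4 (.cons 0x6509871243 (.cons 0x3421789650 (.cons 0x8903421765 .nil))) (.node 3 8 (.cons 0x9650438712 (.cons 0x5690438712 (.cons 0x9043876512 (.cons 0x7156098342 .nil)))) .done .done) (.leaf 0x4506987123 0 .done)) (.node 4 6 (.cons 0x5467890123 (.cons 0x7896432051 .nil)) .done .done)) .done)) (.node 3 7 (.cons 0x8904376512 .nil) (.node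 0 6 (.cons 0x9806734512 .nil) (.node 2 9 (.cons 0x8921045673 (.cons 0x6734512980 (.cons 0x9215437806 .nil))) (.node 1 6 (.cons 0x8907615432 .nil) (.leaf 0x5408923761 0 (.leaf 0x2987304561 0 .done)) .done) .done) (.node 0 6 .nil (.node 2 7 (.cons 0x8903456721 (.cons 0x3456098721 (.cons 0x9806721543 .nil))) (.node 2 9 (.cons 0x8092154376 (.cons 0x8734560921 .nil)) .done .done) (.node 1 6 (.cons 0x8907615432 .nil) (.node 5 9 (.cons 0x8951670234 (.cons 0x4598761032 (.cons 0x4598761230 .nil))) .done (.node 4 6 (.cons 0x5467890123 (.cons 0x9870516432 (.cons 0x7890516432 .nil))) .done .done)) .done)) .done)) .done)) (.node 1 6 (.cons 0x5432167890 .nil) (.node 5 9 (.cons 0x4598761032 (.cons 0x4598761230 .nil)) (.node 0 6 (.cons 0x8760954321 .nil) (.leaf 0x9543210678 0 .done) (.leaf 0x6120345987 0 .done)) (.node 5 7 (.cons 0x9803457612 (.cons 0x8903216754 .nil)) (.node 5 8 (.cons 0x4320985761 (.cons 0x7612309854 .nil)) (.leaf 0x4321670985 0 .done) .done) (.node 4 7 (.cons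 0x3478905612 (.cons 0x9874305612 .nil)) (.node 2 4 (.cons 0x7890561243 (.cons 0x9876542103 (.cons 0x7890342165 .nil))) (.node 0 4 .nil (.node 2 9 (.cons 0x6780921543 (.cons 0x8743092165 (.cons 0x3045678921 .nil))) .done .done) .done) (.node 2 5 (.cons 0x6125098743 (.cons 0x9874305216 (.cons 0x8903476125 .nil))) (.node 3 6 (.cons 0x8903674521 .nil) (.leaf 0x8745216309 0 (.leaf 0x7890361254 1 (.node 2 8 (.cons 0x9051634782 (.cons 0x9036152874 .nil)) (.node 4 9 (.cons 0x8765120943 (.cons 0x7498250361 (.cons 0x9478251630 (.cons 0x9430287651 .nil)))) .done .done) .done))) .done) .done)) .done))) (.node 4 8 (.cons 0x7651209843 (.cons 0x9843021567 .nil)) (.node 1 8 (.cons 0x6709815432 .nil) (.node 6 9 (.cons 0x2345189670 (.cons 0x4518967032 .nil)) (.leaf 0x7698154320 1 (.node 1 6 (.cons 0x5432167890 .nil) (.node 7 9 (.cons 0x5612097843 (.cons 0x3097845612 .nil)) (.leaf 0x8120345679 0 .done) .done) (.leaf 0x8154320769 0 .done))) (.node 1 6 (.cons 0x5432167890 .nil) (.node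 2 9 (.cons 0x8923451670 (.cons 0x7612980345 (.cons 0x7892165430 (.cons 0x8923076154 .nil)))) .done (.node 5 9 (.cons 0x8761234590 (.cons 0x8761230954 .nil)) (.node 1 4 (.cons 0x5678902143 (.cons 0x6789541032 .nil)) (.node 1 7 (.cons 0x3487165902 (.cons 0x9561784302 .nil)) .done .done) .done) .done)) .done)) (.node 2 7 (.cons 0x3489027651 (.cons 0x9843027651 (.cons 0x6723098451 .nil))) (.node 2 6 (.cons 0x8907623451 (.cons 0x9803451267 (.cons 0x7623098451 .nil))) (.node 5 7 (.cons 0x3267548901 (.cons 0x9845762301 .nil)) (.node 1 8 (.cons 0x5432670981 (.cons 0x9034815672 .nil)) (.node 5 9 (.cons 0x1895432670 (.cons 0x7623018954 .nil)) .done (.leaf 0x981267543 0 .done)) .done) .done) .done) .done)) .done))) (.node 0 6 .nil (.node 3 5 (.cons 0x4356789021 (.cons 0x9876012354 .nil)) (.node 1 3 (.cons 0x2134567890 (.cons 0x7890654312 .nil)) (.node 2 9 (.cons 0x8765430921 (.cons 0x7608921345 (.cons 0x7892134560 (.cons 0x7608921354 .nil)))) .done (.node 0 4 (.cons 0x5678904312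 .nil) (.node 2 5 (.cons 0x4312567890 .nil) (.node 1 9 (.cons 0x8765430912 (.cons 0x7608912543 (.cons 0x4319870652 (.cons 0x3452198760 .nil)))) .done (.node 4 8 (.cons 0x7653489021 (.cons 0x9845321067 (.cons 0x9065213487 .nil))) (.node 4 9 (.cons 0x8765213490 (.cons 0x8760943125 .nil)) (.leaf 0x1094876523 0 .done) .done) (.leaf 0x6789043125 1 .done))) .done) .done)) (.node 0 4 .nil (.node 1 3 (.cons 0x2134567890 (.cons 0x7890654312 (.cons 0x5678904312 .nil))) (.node 2 9 (.cons 0x8765430921 (.cons 0x7608921345 (.cons 0x7892134560 (.cons 0x3129876540 .nil)))) .done (.node 1 6 (.cons 0x5432167890 (.cons 0x9876104532 .nil)) (.leaf 0x4098761235 0 (.node 2 7 (.cons 0x9806721345 (.cons 0x8904567213 .nil)) (.leaf 0x435612789 0 .done) .done)) .done)) (.node 5 9 (.cons 0x1234598760 .nil) (.node 4 6 (.cons 0x4678953201 (.cons 0x8764590123 .nil)) (.node 1 5 (.cons 0x1598764320 (.cons 0x8764320951 .nil)) (.leaf 0x6432015987 1 .done) .done) (.node 2 9 (.cons 0x8765430921 .nil)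 (.node 3 7 (.cons 0x1298734560 .nil) (.node 2 8 (.cons 0x9034567821 (.cons 0x9821045673 (.cons 0x3765409821 .nil))) .done (.node 1 4 (.cons 0x2098765341 (.cons 0x7892065341 (.cons 0x8734129065 (.cons 0x5609873412 .nil)))) (.leaf 0x678923541 1 .done) .done)) (.node 1 4 (.cons 0x2098765341 (.cons 0x1453298760 (.cons 0x8760923541 .nil))) (.node 3 7 (.cons 0x8730921456 (.cons 0x3789214560 (.cons 0x5609873412 .nil))) .done (.node 1 8 (.cons 0x9034567812 (.cons 0x7604532981 .nil)) (.leaf 0x923541876 0 (.node 2 5 (.cons 0x6789025341 (.cons 0x9876025341 (.cons 0x9067814352 .nil))) .done .done)) .done)) .done)) (.node 1 4 (.cons 0x2098765341 (.cons 0x3214598760 (.cons 0x8760954123 .nil))) (.node 1 8 (.cons 0x9034567812 (.cons 0x7604598123 .nil)) (.node 2 4 (.cons 0x4218765903 (.cons 0x7604235981 (.cons 0x4235906781 .nil))) .done .done) (.node 2 9 (.cons 0x8765430921 .nil) (.leaf 0x6014532987 0 (.leaf 0x678923541 1 .done)) .done)) .done))) .done)) .done)) (.node 0 4 .nil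 (.node 3 5 (.cons 0x4356789021 (.cons 0x9876534021 .nil)) (.node 1 8 (.cons 0x9034567812 (.cons 0x9812043567 (.cons 0x7653409812 .nil))) (.node 1 3 (.cons 0x2134567890 (.cons 0x5678904312 .nil)) (.node 3 7 (.cons 0x7345609812 .nil) (.node 2 6 (.cons 0x4378905621 (.cons 0x9873405621 (.cons 0x9043781265 (.cons 0x9873126504 .nil)))) .done .done) .done) .done) (.node 1 6 (.cons 0x5432167890 (.cons 0x9876104532 .nil)) (.leaf 0x4098761235 0 (.node 3 6 (.cons 0x9876321045 .nil) (.node 1 7 (.cons 0x8906712345 (.cons 0x9871205634 (.cons 0x6345098712 .nil))) (.node 4 7 (.cons 0x9874365021 (.cons 0x5098743612 .nil)) .done .done) .done) .done)) .done)) .done) .done)) (.node 0 6 .nil (.node 3 5 (.cons 0x4356789021 (.cons 0x9876012354 .nil)) (.node 1 3 (.cons 0x2134567890 (.cons 0x7890654312 .nil)) (.node 4 9 (.cons 0x5678943120 (.cons 0x7894312065 (.cons 0x5498760132 .nil))) (.node 1 5 (.cons 0x8943156702 .nil) (.node 2 5 (.cons 0x8945231076 (.cons 0x7608945213 .nil)) (.node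 7 9 (.cons 0x6798034521 (.cons 0x8067943521 (.cons 0x8976034521 (.cons 0x8067945312 .nil)))) .done .done) .done) (.node 1 8 (.cons 0x7654309812 (.cons 0x5349067812 .nil)) (.leaf 0x2094356781 0 .done) .done)) (.node 0 4 (.cons 0x5678904312 .nil) (.node 2 5 (.cons 0x4312567890 .nil) (.node 4 9 (.cons 0x8765349021 (.cons 0x7608943125 (.cons 0x7894312560 (.cons 0x5213498760 (.cons 0x3254987601 .nil))))) .done (.leaf 0x3125678904 0 (.leaf 0x7652134098 0 .done))) .done) .done)) (.node 0 4 .nil (.node 1 3 (.cons 0x2134567890 (.cons 0x7890654312 (.cons 0x5678904312 .nil))) (.node 2 9 (.cons 0x7608921345 (.cons 0x3129876540 (.cons 0x7892134560 .nil))) .done (.node 2 8 (.cons 0x7654309821 (.cons 0x9065431287 (.cons 0x9045678213 .nil))) (.node 5 9 (.cons 0x6780954312 (.cons 0x9543128067 (.cons 0x9540678213 .nil))) .done .done) .done)) (.node 1 4 (.cons 0x2098765341 (.cons 0x9876014532 .nil)) (.node 5 8 (.cons 0x7658902143 (.cons 0x7609854123 .nil)) (.node 7 9 (.cons 0x6798532014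 (.cons 0x4106798532 (.cons 0x2067985341 (.cons 0x3214589760 .nil)))) .done .done) (.node 2 7 (.cons 0x8903456721 (.cons 0x9872065341 (.cons 0x6098723541 .nil))) (.leaf 0x653412789 0 .done) (.node 2 9 (.cons 0x4532987601 .nil) (.node 1 3 (.cons 0x2134567890 (.cons 0x8765431290 (.cons 0x7890654312 .nil))) (.leaf 0x4312908765 1 (.leaf 0x2908765431 0 .done)) (.leaf 0x6014532987 0 (.leaf 0x678923541 1 (.node 1 8 (.cons 0x7654309812 (.cons 0x9235406781 .nil)) (.leaf 0x923541876 0 (.node 2 5 (.cons 0x6789025341 (.cons 0x9876025341 (.cons 0x9067814352 (.cons 0x7609814352 .nil)))) .done .done)) .done)))) .done))) .done)) .done)) (.node 0 4 .nil (.node 3 5 (.cons 0x4356789021 (.cons 0x9876534021 .nil)) (.node 1 8 (.cons 0x7654309812 (.cons 0x9043567812 .nil)) (.node 5 9 (.cons 0x9543218760 (.cons 0x7659812043 (.cons 0x9540678123 .nil))) (.node 1 5 (.cons 0x9518760234 .nil) (.node 6 9 (.cons 0x2345189670 (.cons 0x5189670432 (.cons 0x9678123540 .nil))) (.leaf 0x7698154320 1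 .done) .done) .done) (.node 1 3 (.cons 0x2134567890 (.cons 0x5678904312 .nil)) (.node 3 7 (.cons 0x9065437812 .nil) (.node 2 6 (.cons 0x4378905621 (.cons 0x9873405621 (.cons 0x7340981265 (.cons 0x9873126504 .nil)))) .done .done) .done) .done)) (.node 1 6 (.cons 0x5432167890 (.cons 0x9876104532 .nil)) (.node 1 5 (.cons 0x8907615432 (.cons 0x9876512043 .nil)) (.node 5 8 (.cons 0x7612345890 .nil) (.leaf 0x4321670985 0 (.node 1 3 (.cons 0x2134567890 (.cons 0x9854076132 (.cons 0x5678904312 .nil))) (.node 2 6 (.cons 0x4532678901 (.cons 0x9876235401 (.cons 0x7890456213 .nil))) .done .done) .done)) .done) (.node 2 7 (.cons 0x8903456721 (.cons 0x9872165043 .nil)) (.leaf 0x435612789 0 (.node 1 8 (.cons 0x7654309812 (.cons 0x9812765403 .nil)) (.node 3 6 (.cons 0x7218903654 (.cons 0x9876321045 .nil)) .done .done) .done)) .done)) .done)) .done) .done)) .done)))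
noncomputable def tc9_2_23 : T := (.node 1 5 (.cons 0x9876512034 .nil) (.node 0 4 (.cons 0x9876512043 .nil) (.node 3 7 (.cons 0x8904376512 .nil) (.node 0 6 (.cons 0x9806734512 .nil) (.node 2 9 (.cons 0x8921045673 (.cons 0x6734512980 (.cons 0x4378920651 (.cons 0x8923760451 .nil)))) .done .done) (.node 2 8 (.cons 0x9820437651 (.cons 0x6732890451 .nil)) (.node 2 4 (.cons 0x9876542103 .nil) (.node 1 8 (.cons 0x9815673402 (.cons 0x9024378156 (.cons 0x9034218765 .nil))) .done (.node 3 9 (.cons 0x6543907821 (.cons 0x8709342156 .nil)) (.leaf 0x124567893 0 .done) .done)) (.node 1 6 (.cons 0x9034561287 .nil) (.node 2 9 (.cons 0x4378920561 (.cons 0x7612980345 (.cons 0x8923761540 .nil))) .done (.leaf 0x9823761540 1 (.leaf 0x982376154 0 .done))) .done)) .done)) (.node 0 6 .nil (.node 2 7 (.cons 0x8903456721 (.cons 0x3456098721 (.cons 0x9806721543 .nil))) (.node 1 9 (.cons 0x2198765430 (.cons 0x8915406723 (.cons 0x6045198723 (.cons 0x5198760432 (.cons 0x5430678912 .nil))))) .done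 .done) (.node 2 6 (.cons 0x9087621543 (.cons 0x3267890451 .nil)) (.node 3 7 (.cons 0x9806734512 (.cons 0x4378905621 .nil)) (.node 1 6 (.cons 0x9873261054 (.cons 0x5167890432 .nil)) (.node 2 8 (.cons 0x9823760154 (.cons 0x9034561287 (.cons 0x9045167823 .nil))) .done .done) .done) (.node 1 9 (.cons 0x7621980345 (.cons 0x7891265430 (.cons 0x5198762340 (.cons 0x5198762043 .nil)))) .done .done)) .done)) .done)) (.node 1 6 (.cons 0x5432167890 .nil) (.node 5 9 (.cons 0x4598761032 (.cons 0x4598761230 .nil)) (.node 4 8 (.cons 0x9021567843 (.cons 0x9561207843 (.cons 0x9516784320 .nil))) (.node 3 6 (.cons 0x9548763210 (.cons 0x9512084367 (.cons 0x4367809512 (.cons 0x9510236784 .nil)))) .done .done) (.leaf 0x6120345987 0 .done)) (.node 5 8 (.cons 0x7612345890 (.cons 0x7612309854 .nil)) (.node 4 8 (.cons 0x9021567843 .nil) (.node 7 9 (.cons 0x9702165843 (.cons 0x9703485612 (.cons 0x2167985430 (.cons 0x4589761032 (.cons 0x4589761230 .nil))))) .done (.node 2 7 (.cons 0x5489016723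 (.cons 0x5489032761 .nil)) (.leaf 0x6154890327 1 .done) .done)) (.node 5 7 (.cons 0x4320985761 (.cons 0x9803457612 (.cons 0x8903216754 .nil))) .done .done)) (.node 2 7 (.cons 0x9872165034 .nil) (.node 1 3 (.cons 0x6543127890 .nil) (.node 6 9 (.cons 0x7896502134 (.cons 0x5431276980 (.cons 0x6987231054 (.cons 0x8769032154 .nil)))) .done (.node 4 8 (.cons 0x9021567843 (.cons 0x5672098431 .nil)) (.leaf 0x5672130984 0 (.leaf 0x9845672130 1 .done)) .done)) (.node 4 7 (.cons 0x3478905612 (.cons 0x9874305612 .nil)) (.node 2 5 (.cons 0x6125098743 (.cons 0x9874305216 (.cons 0x8903476125 .nil))) .done (.node 4 8 (.cons 0x9021567843 .nil) (.node 6 9 (.cons 0x9612348705 (.cons 0x5032748961 (.cons 0x9678451032 (.cons 0x9678451230 .nil)))) .done (.node 6 9 (.cons 0x8472309615 (.cons 0x6903278451 (.cons 0x8769032154 .nil))) (.leaf 0x5127843096 0 .done) .done)) .done)) .done)) .done))) (.node 4 8 (.cons 0x7651209843 (.cons 0x9843021567 .nil)) (.node 2 7 (.cons 0x9803451276 .nil)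 (.node 3 6 (.cons 0x9012784563 (.cons 0x7210984563 (.cons 0x7215634890 (.cons 0x7209843651 .nil)))) (.node 4 9 (.cons 0x5498763210 (.cons 0x5498012763 (.cons 0x5498763012 (.cons 0x6327894501 .nil)))) .done .done) (.node 3 6 (.cons 0x9803672154 (.cons 0x9036548721 (.cons 0x7215630984 .nil))) (.node 1 4 (.cons 0x5678902143 (.cons 0x9803672145 (.cons 0x8903672145 .nil))) (.node 4 6 (.cons 0x5467890123 (.cons 0x8903276451 .nil)) (.node 7 9 (.cons 0x3645089721 (.cons 0x8412790365 (.cons 0x8976430215 (.cons 0x3027984651 .nil)))) .done .done) .done) (.node 0 6 (.cons 0x7236098451 .nil) (.node 3 7 (.cons 0x9845603721 (.cons 0x6512730984 .nil)) .done .done) .done)) .done)) (.node 2 7 (.cons 0x3489027651 (.cons 0x9843027651 (.cons 0x6723098451 .nil))) .done .done)) .done))) (.node 2 7 (.cons 0x8903456721 .nil) (.node 1 7 (.cons 0x8903456712 .nil) (.node 1 8 (.cons 0x9812765430 .nil) (.node 7 9 (.cons 0x2189765430 .nil) (.leaf 0x8120345679 0 (.leaf 0x6543021897 1 (.node 0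 4 (.cons 0x3045679812 .nil) (.node 0 6 .nil (.node 4 8 (.cons 0x9845672103 (.cons 0x3065489721 .nil)) .done .done) .done) .done))) (.node 2 8 (.cons 0x7654309821 .nil) (.node 3 7 (.cons 0x4567309821 .nil) (.node 0 4 .nil (.node 1 3 (.cons 0x2134567890 (.cons 0x9821304567 (.cons 0x9045678213 .nil))) .done (.node 0 6 .nil (.node 1 9 (.cons 0x8912765430 (.cons 0x8912760345 .nil)) (.node 1 4 (.cons 0x2890376541 (.cons 0x5419823760 (.cons 0x8237609145 (.cons 0x6054198273 .nil)))) .done .done) .done) .done)) .done) .done) .done)) (.node 4 7 .nil (.node 1 8 (.cons 0x9812765430 (.cons 0x9812034765 (.cons 0x5674309812 .nil))) (.node 1 9 (.cons 0x8912765430 (.cons 0x8912743056 .nil)) (.node 3 6 (.cons 0x5436721980 (.cons 0x9874365021 (.cons 0x9021874365 (.cons 0x8912743650 (.cons 0x9810365472 .nil))))) .done .done) .done) (.node 0 4 .nil (.node 3 9 (.cons 0x8930127654 (.cons 0x6540127893 (.cons 0x6504398721 .nil))) (.node 1 5 (.cons 0x9803451276 (.cons 0x2043987651 (.cons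 0x8934027651 .nil))) (.node 1 6 (.cons 0x5432167890 (.cons 0x5401678932 (.cons 0x8932761045 (.cons 0x2789340561 .nil)))) .done .done) .done) .done) .done)) .done)) (.node 2 8 (.cons 0x7654309821 .nil) (.node 7 9 (.cons 0x1289765430 .nil) (.leaf 0x2897654301 0 (.node 0 6 (.cons 0x5430679821 .nil) (.node 0 4 .nil (.node 1 3 (.cons 0x2134567890 (.cons 0x6540987213 (.cons 0x5678904312 .nil))) (.node 5 9 (.cons 0x4598760132 (.cons 0x8954067231 (.cons 0x6789540132 .nil))) (.node 6 9 (.cons 0x4506987231 (.cons 0x5408967213 (.cons 0x7896504312 .nil))) .done .done) (.leaf 0x4031289765 0 .done)) .done) .done) (.leaf 0x5679821034 0 .done))) (.node 2 9 .nil (.node 1 3 (.cons 0x2134567890 (.cons 0x8765431290 (.cons 0x8709213456 .nil))) (.leaf 0x4312908765 1 (.leaf 0x2908765431 0 .done)) (.node 1 8 (.cons 0x7654309812 .nil) (.node 0 4 (.cons 0x9812765403 .nil) (.node 4 8 (.cons 0x3098456721 .nil) .done .done) (.node 0 6 .nil (.node 1 3 (.cons 0x2134567890 (.cons 0x7608921345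 (.cons 0x9065431287 (.cons 0x7890654312 .nil)))) .done (.node 0 4 .nil (.node 3 5 (.cons 0x4356789021 (.cons 0x9876534021 (.cons 0x9043567812 .nil))) (.node 1 3 (.cons 0x2134567890 (.cons 0x6729804531 (.cons 0x8135672904 (.cons 0x6540987213 .nil)))) .done .done) .done) .done)) .done)) .done)) .done)) .done)) (.node 0 6 .nil (.node 3 5 (.cons 0x4356789021 (.cons 0x9876012354 .nil)) (.node 0 4 .nil (.node 1 3 (.cons 0x2134567890 (.cons 0x7890654312 (.cons 0x5678904312 .nil))) (.node 2 9 (.cons 0x7608921345 (.cons 0x3129876540 (.cons 0x7892134560 .nil))) .done (.node 2 7 (.cons 0x9806721345 (.cons 0x8904567213 .nil)) .done .done)) (.node 4 9 (.cons 0x8765349021 .nil) (.node 1 8 (.cons 0x9021876534 (.cons 0x9435602187 .nil)) (.node 7 9 (.cons 0x4356097812 (.cons 0x6097812354 .nil)) (.leaf 0x8123456097 0 (.node 1 7 (.cons 0x8712094356 (.cons 0x5602178943 .nil)) (.node 1 3 (.cons 0x2134567890 (.cons 0x7894312065 .nil)) (.node 2 8 (.cons 0x7654312890 (.cons 0x5431289760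 .nil)) (.leaf 0x6543128907 0 .done) .done) .done) (.leaf 0x978123456 1 .done))) (.node 2 9 (.cons 0x4356781290 .nil) (.leaf 0x4921870653 1 (.leaf 0x1870653492 0 .done)) .done)) (.node 1 8 (.cons 0x9021876534 (.cons 0x5349067812 .nil)) (.leaf 0x7653490218 1 (.leaf 0x2094356781 0 .done)) (.node 1 8 (.cons 0x2094356781 .nil) (.node 1 5 (.cons 0x7602349815 .nil) (.node 2 6 (.cons 0x3267894510 (.cons 0x9087621543 (.cons 0x9435180267 (.cons 0x9815403267 .nil)))) .done .done) (.leaf 0x5349021876 0 (.node 1 3 (.cons 0x2134567890 (.cons 0x5498760132 (.cons 0x7890654312 .nil))) (.node 2 7 (.cons 0x5672189043 (.cons 0x9806721345 .nil)) (.node 2 8 (.cons 0x7654312890 (.cons 0x9453287601 (.cons 0x7281356094 .nil))) .done .done) .done) .done))) .done))) .done)) (.node 1 7 (.cons 0x8902176534 (.cons 0x9871234506 .nil)) (.node 0 4 (.cons 0x8904356712 .nil) (.node 2 4 (.cons 0x6509871243 (.cons 0x9806712435 (.cons 0x5609871243 .nil))) (.node 3 9 (.cons 0x8765421093 (.cons 0x8712439065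 .nil)) (.node 1 5 (.cons 0x8765124390 .nil) (.node 1 8 (.cons 0x5678124390 (.cons 0x7812439065 .nil)) .done (.leaf 0x3908765124 0 .done)) .done) .done) .done) (.node 4 7 (.cons 0x8901235476 .nil) (.node 1 9 (.cons 0x6502198743 (.cons 0x5602198743 (.cons 0x5347608912 .nil))) (.node 2 8 (.cons 0x5674302891 (.cons 0x5430671982 (.cons 0x5476032891 .nil))) (.node 2 7 (.cons 0x6547289103 (.cons 0x3065472891 .nil)) .done .done) .done) (.node 4 8 (.cons 0x7653489021 (.cons 0x9845321067 .nil)) (.node 2 8 (.cons 0x6745328901 (.cons 0x9823547601 .nil)) (.node 0 4 (.cons 0x6712890453 .nil) (.node 1 4 (.cons 0x6714530982 .nil) (.node 1 9 (.cons 0x3567419820 (.cons 0x7603289145 (.cons 0x7419820653 (.cons 0x5328914760 .nil)))) .done (.node 1 8 (.cons 0x9028147653 (.cons 0x9810674532 (.cons 0x9067418235 .nil))) .done .done)) .done) .done) .done) .done)) .done)) .done)) (.node 0 4 .nil (.node 3 5 (.cons 0x4356789021 (.cons 0x9876534021 .nil)) (.node 3 6 (.cons 0x9876321045 .nil)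 (.node 1 7 (.cons 0x8906712345 (.cons 0x9871205634 (.cons 0x4365098712 (.cons 0x6345098712 .nil)))) .done (.node 6 9 (.cons 0x8769012354 (.cons 0x8769045321 .nil)) (.node 1 8 (.cons 0x9021876534 (.cons 0x9678104532 (.cons 0x9043567812 .nil))) (.node 2 7 (.cons 0x4365098721 (.cons 0x9653402781 (.cons 0x6904532781 .nil))) .done .done) .done) .done)) (.node 1 8 (.cons 0x7609812345 (.cons 0x9812043567 (.cons 0x7653409812 .nil))) (.node 3 7 (.cons 0x7345609812 .nil) (.node 2 9 (.cons 0x5437608921 (.cons 0x8921045673 (.cons 0x6540129873 (.cons 0x6735408921 .nil)))) .done (.node 2 6 (.cons 0x4378905621 (.cons 0x9873405621 (.cons 0x9043781265 (.cons 0x7356218904 .nil)))) .done .done)) .done) .done)) .done) .done)) .done)))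
noncomputable def tc9_2_24 : T := (.node 5 9 (.cons 0x7612345980 .nil) (.node 4 6 (.cons 0x5467890123 (.cons 0x8764590123 (.cons 0x7895023461 .nil))) (.node 0 6 (.cons 0x8760954321 .nil) (.node 0 4 (.cons 0x5987612043 .nil) (.node 0 3 (.cons 0x7895612034 .nil) (.node 0 7 (.cons 0x8954307612 .nil) .done .done) .done) .done) .done) (.node 1 5 (.cons 0x9516780234 (.cons 0x7615980234 .nil)) (.node 4 6 (.cons 0x7895023461 (.cons 0x8764320951 .nil)) (.leaf 0x9510234678 0 (.node 4 8 (.cons 0x9516784320 .nil) (.node 0 6 (.cons 0x7602348951 .nil) (.node 0 3 (.cons 0x9843021567 .nil) (.node 2 9 (.cons 0x3295487601 (.cons 0x4516789230 .nil)) (.leaf 0x6154302987 0 (.leaf 0x1543029876 1 .done)) .done) .done) (.leaf 0x3209516784 0 (.node 0 3 (.cons 0x9516784302 (.cons 0x7615984302 .nil)) (.node 0 7 (.cons 0x9870543216 .nil) (.leaf 0x2346159870 0 (.node 2 9 (.cons 0x6129870543 (.cons 0x6154307892 (.cons 0x4516789230 .nil))) (.leaf 0x6154302987 0 .done) .done)) .done) .done)))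 .done)) .done) (.node 0 3 (.cons 0x7612308954 .nil) (.node 2 9 (.cons 0x8765430921 (.cons 0x9216543087 .nil)) (.node 0 7 (.cons 0x5432980761 .nil) (.node 1 7 (.cons 0x8092176543 .nil) (.node 0 6 (.cons 0x8906712345 (.cons 0x9871605432 .nil)) .done (.node 3 7 (.cons 0x6508921734 (.cons 0x4371650892 .nil)) (.node 4 8 (.cons 0x3765489210 (.cons 0x9561203784 (.cons 0x8459216730 (.cons 0x5489237610 .nil)))) .done .done) .done)) .done) .done) (.node 1 4 (.cons 0x5678902143 (.cons 0x9541678032 (.cons 0x7614598032 .nil))) (.node 3 6 (.cons 0x7890214365 (.cons 0x4590876321 .nil)) (.node 5 7 (.cons 0x9875614302 (.cons 0x9801236754 (.cons 0x7598023614 .nil))) (.node 6 9 (.cons 0x7896123450 (.cons 0x4169578032 (.cons 0x4169578023 .nil))) .done .done) (.node 2 7 (.cons 0x6145987230 (.cons 0x4127809563 .nil)) (.leaf 0x1436590872 1 (.node 1 3 (.cons 0x2134567890 (.cons 0x9087654312 .nil)) (.node 6 9 (.cons 0x5416987230 (.cons 0x7230896145 (.cons 0x7231698054 .nil))) .done .done)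 .done)) .done)) (.node 0 4 (.cons 0x9540876123 .nil) (.node 4 9 (.cons 0x5498761032 .nil) (.node 2 4 (.cons 0x1678954230 (.cons 0x9542308761 .nil)) (.node 3 9 (.cons 0x3987654210 (.cons 0x7654210893 .nil)) (.node 1 5 (.cons 0x6789514203 (.cons 0x9342156780 (.cons 0x7651243980 .nil))) .done .done) .done) (.node 1 5 (.cons 0x5167894320 (.cons 0x4951678023 .nil)) (.leaf 0x2087615943 0 .done) .done)) .done) .done)) .done)) .done))) (.node 1 3 (.cons 0x2134567890 (.cons 0x9087654312 .nil)) (.node 5 9 (.cons 0x7659802134 .nil) (.node 0 6 (.cons 0x8760954321 (.cons 0x4598760132 .nil)) .done (.node 2 4 (.cons 0x6789542310 (.cons 0x7610895423 (.cons 0x9567802431 (.cons 0x7659802431 .nil)))) (.node 4 6 (.cons 0x7895642013 (.cons 0x9546780132 .nil)) (.node 1 5 (.cons 0x1598764320 .nil) (.leaf 0x7643201598 0 .done) (.node 2 7 (.cons 0x9872056431 (.cons 0x1672345980 (.cons 0x8095432761 (.cons 0x9805461327 .nil)))) .done .done)) .done) (.node 4 7 (.cons 0x9874312056 (.cons 0x3216745980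 (.cons 0x8095476123 (.cons 0x2316745980 .nil)))) (.node 0 7 (.cons 0x4598076132 .nil) (.node 1 4 (.cons 0x5678902143 (.cons 0x6780954123 .nil)) (.node 4 8 (.cons 0x9548076123 (.cons 0x9548076132 .nil)) .done .done) .done) .done) .done))) (.node 2 7 (.cons 0x6543127890 (.cons 0x9087213456 .nil)) (.node 6 9 (.cons 0x7234508961 .nil) (.node 0 6 (.cons 0x9872134560 .nil) (.leaf 0x7213450698 0 (.node 0 7 (.cons 0x8709654312 (.cons 0x8961270543 .nil)) .done .done)) (.leaf 0x3127809654 0 (.leaf 0x1345690872 1 .done))) (.node 0 6 (.cons 0x7890654312 .nil) (.node 4 6 (.cons 0x5467890123 .nil) (.node 3 9 (.cons 0x5467893210 (.cons 0x7239805461 .nil)) (.leaf 0x2105467893 0 (.node 0 7 (.cons 0x9807231645 .nil) (.node 2 6 (.cons 0x5078934621 .nil) .done .done) .done)) (.node 1 5 (.cons 0x6451327890 (.cons 0x9087231546 .nil)) (.node 0 3 (.cons 0x9803276451 (.cons 0x9803276154 .nil)) .done .done) .done)) (.node 1 5 (.cons 0x6098723154 .nil) (.node 6 9 (.cons 0x4513278960 .nil)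 (.leaf 0x872134569 0 (.node 0 3 (.cons 0x9678032154 (.cons 0x7698032154 .nil)) .done .done)) (.node 3 9 (.cons 0x8765120934 (.cons 0x4390876512 (.cons 0x8093276154 .nil))) (.node 5 7 (.cons 0x6578902134 (.cons 0x9806132754 .nil)) (.node 0 4 (.cons 0x6540987213 .nil) (.node 4 6 (.cons 0x5460987231 (.cons 0x4657208931 .nil)) .done (.leaf 0x5672139804 1 (.leaf 0x8931276540 0 .done))) .done) .done) .done)) .done)) .done)) (.node 2 7 (.cons 0x6509872134 .nil) (.node 4 6 (.cons 0x9872134650 .nil) (.node 3 9 (.cons 0x5467893210 (.cons 0x1276543980 (.cons 0x7216543980 .nil))) (.node 0 3 (.cons 0x9803456721 .nil) (.node 3 7 (.cons 0x9873465021 .nil) .done .done) .done) (.node 5 9 (.cons 0x8764590123 (.cons 0x4312765980 (.cons 0x1672345980 .nil))) (.leaf 0x1346590872 1 .done) (.leaf 0x5643127890 1 .done))) (.node 3 9 (.cons 0x8093456721 (.cons 0x6543908721 .nil)) (.leaf 0x4561278093 0 (.node 5 8 (.cons 0x9327610854 (.cons 0x9085432761 (.cons 0x4580932761 .nil))) .done .done))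 (.node 4 6 (.cons 0x7890564312 .nil) (.leaf 0x8905643127 1 (.node 2 6 (.cons 0x7890562134 .nil) (.node 2 5 (.cons 0x4312567890 (.cons 0x9087652134 .nil)) (.node 7 9 (.cons 0x8790564312 (.cons 0x8097643125 (.cons 0x7980543261 .nil))) (.node 2 9 (.cons 0x7809213465 .nil) (.node 3 8 (.cons 0x1297834650 (.cons 0x7908346521 (.cons 0x5467832901 .nil))) .done .done) .done) .done) .done) (.node 5 7 (.cons 0x8905723164 (.cons 0x9805723164 .nil)) (.node 2 9 (.cons 0x2908756431 .nil) (.leaf 0x7564312908 0 (.leaf 0x5643129087 1 .done)) (.node 2 6 (.cons 0x7890562134 .nil) (.node 4 9 (.cons 0x7894312650 (.cons 0x3267549801 (.cons 0x7549801623 (.cons 0x7508943162 .nil)))) .done (.node 1 8 (.cons 0x9081623457 .nil) (.leaf 0x6754320981 0 (.node 1 9 (.cons 0x6234578091 .nil) (.leaf 0x6754320891 0 .done) .done)) .done)) .done)) .done))) .done))) .done))) (.node 1 3 (.cons 0x2134567890 (.cons 0x9087654312 .nil)) (.node 5 9 (.cons 0x7659802134 .nil) (.node 0 6 (.cons 0x8760954321 (.cons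 0x4598760132 .nil)) (.leaf 0x9543210678 0 .done) (.node 4 6 (.cons 0x5467890123 (.cons 0x9546780132 (.cons 0x7645980132 .nil))) (.node 1 5 (.cons 0x1598764320 (.cons 0x7643208951 .nil)) (.leaf 0x7643201598 0 .done) (.node 2 9 (.cons 0x5467892310 (.cons 0x7654312980 .nil)) (.node 0 6 (.cons 0x9213456087 .nil) (.node 5 7 (.cons 0x6457892310 (.cons 0x9806754321 (.cons 0x9208756431 (.cons 0x7546089231 .nil)))) .done .done) (.leaf 0x7801329546 0 .done)) .done)) (.node 6 9 (.cons 0x7896502134 .nil) (.node 5 7 (.cons 0x1234576980 (.cons 0x8096754321 (.cons 0x4576980132 .nil))) (.node 1 7 (.cons 0x8096712345 .nil) (.node 1 4 (.cons 0x5678902143 (.cons 0x6780954123 (.cons 0x6578902143 .nil))) (.node 3 6 (.cons 0x6345098712 (.cons 0x4590876321 (.cons 0x8901457632 .nil))) .done .done) .done) .done) (.node 3 6 (.cons 0x4590876321 .nil) (.node 2 4 (.cons 0x7896502431 (.cons 0x7896324501 (.cons 0x1324596780 (.cons 0x7698013245 (.cons 0x7890124563 .nil))))) .done (.node 4 7 (.cons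 0x2056987431 (.cons 0x1236745980 (.cons 0x8095476321 (.cons 0x2136745980 .nil)))) (.node 2 9 (.cons 0x2987431650 (.cons 0x7654312980 (.cons 0x7456310892 .nil))) .done .done) .done)) .done)) .done))) (.node 4 7 (.cons 0x3478905612 (.cons 0x9802134765 .nil)) (.node 5 9 (.cons 0x7659802134 .nil) (.leaf 0x7432165908 0 (.leaf 0x4321659087 1 (.node 2 8 (.cons 0x7431659082 (.cons 0x6745908231 .nil)) (.node 1 7 (.cons 0x4317659820 (.cons 0x4317659802 .nil)) (.node 2 6 (.cons 0x6217890543 (.cons 0x9543176280 (.cons 0x9508261743 (.cons 0x8095476231 .nil)))) .done .done) .done) (.node 2 9 (.cons 0x5612908743 .nil) (.node 2 8 (.cons 0x7654312890 .nil) (.leaf 0x5613478290 0 (.leaf 0x6134782905 1 (.leaf 0x3167459082 1 .done))) (.node 3 8 (.cons 0x9216508347 (.cons 0x7438092165 (.cons 0x5674380921 .nil))) (.leaf 0x954761238 0 .done) .done)) .done)))) (.node 0 7 (.cons 0x8907654312 .nil) (.node 0 3 .nil (.node 1 7 (.cons 0x8903456712 (.cons 0x9803456712 .nil)) (.node 2 7 (.cons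 0x9872165034 (.cons 0x8903127654 .nil)) .done .done) (.node 3 5 (.cons 0x4356789021 .nil) (.node 0 4 (.cons 0x9876534021 .nil) (.node 0 6 (.cons 0x9874350612 .nil) .done .done) (.node 2 9 (.cons 0x8743509216 (.cons 0x8092167435 (.cons 0x7809216534 (.cons 0x8092135476 .nil)))) .done .done)) .done)) (.node 0 3 .nil (.node 2 5 (.cons 0x6125098743 (.cons 0x9803476125 (.cons 0x8903125476 .nil))) (.node 1 5 (.cons 0x9876512034 (.cons 0x9087615234 .nil)) .done .done) (.node 3 6 (.cons 0x5098743612 .nil) (.node 3 5 (.cons 0x4356789021 .nil) (.node 5 9 (.cons 0x4598763210 (.cons 0x3674598012 (.cons 0x2136745980 .nil))) .done .done) (.node 3 5 (.cons 0x4356789021 .nil) (.node 6 9 (.cons 0x2169874350 (.cons 0x5347698021 (.cons 0x2135476980 .nil))) .done .done) .done)) .done)) .done)) (.node 1 5 (.cons 0x6150987432 .nil) (.node 6 9 (.cons 0x2347896150 (.cons 0x2315476980 .nil)) (.leaf 0x4320516987 0 (.leaf 0x3478961502 1 .done)) (.node 2 9 (.cons 0x8743290516 (.cons 0x8092347615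 (.cons 0x8092315476 .nil))) (.node 2 7 (.cons 0x8905613472 (.cons 0x5613472980 (.cons 0x8092743165 .nil))) (.leaf 0x1650892743 0 .done) .done) .done)) .done))) (.node 2 7 (.cons 0x6543127890 (.cons 0x9087213456 .nil)) (.node 1 9 (.cons 0x3456721980 .nil) (.node 0 3 (.cons 0x8765430912 (.cons 0x8912765430 (.cons 0x4305619872 .nil))) .done (.node 6 9 (.cons 0x7213456980 .nil) (.node 0 6 (.cons 0x8721960543 (.cons 0x9806543127 .nil)) (.node 3 6 (.cons 0x7896321054 (.cons 0x8721963450 (.cons 0x5436721980 .nil))) .done .done) (.node 0 6 (.cons 0x5431960872 (.cons 0x9806543127 .nil)) .done (.leaf 0x1345690872 1 .done))) .done)) (.node 0 6 (.cons 0x7890654312 .nil) (.node 1 9 (.cons 0x8760912345 .nil) (.node 5 7 (.cons 0x6578902134 (.cons 0x6754321980 (.cons 0x8091234576 .nil))) (.node 5 8 (.cons 0x9123458067 .nil) (.node 5 9 (.cons 0x8760954321 .nil) .done .done) .done) (.node 1 8 (.cons 0x9067812345 .nil) (.node 2 8 (.cons 0x9065431287 .nil) (.node 2 5 (.cons 0x8760912543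 (.cons 0x6780912543 .nil)) (.node 7 9 (.cons 0x3456097821 (.cons 0x9780652134 (.cons 0x6087913452 .nil))) .done (.node 3 7 (.cons 0x9065437821 (.cons 0x6734521980 (.cons 0x8091254376 (.cons 0x9180673452 .nil)))) (.leaf 0x8219065437 0 .done) .done)) .done) .done) .done)) (.leaf 0x5431278906 1 (.node 6 9 (.cons 0x7809654312 .nil) (.node 0 3 (.cons 0x8721309654 .nil) (.node 3 6 (.cons 0x7896321054 (.cons 0x9087213654 .nil)) .done .done) (.leaf 0x5690872134 1 (.node 3 6 (.cons 0x4563127890 (.cons 0x9087213654 .nil)) (.node 6 8 .nil (.node 0 3 (.cons 0x9031278654 (.cons 0x7213098654 .nil)) (.node 0 4 (.cons 0x9804563127 (.cons 0x9045687213 .nil)) (.leaf 0x3127896540 0 .done) .done) .done) (.node 4 6 (.cons 0x5460987231 .nil) (.node 1 9 (.cons 0x7891205643 (.cons 0x7231980645 (.cons 0x7219805463 .nil))) .done (.node 5 9 (.cons 0x8764590123 (.cons 0x6459087231 .nil)) (.leaf 0x6590872134 1 .done) .done)) .done)) .done))) .done))) .done)) .done))) .done)))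
noncomputable def tc9_2_25 : T := (.node 1 6 (.cons 0x5432167890 (.cons 0x9087612345 .nil)) tc9_2_24 (.node 0 7 .nil (.node 1 6 (.cons 0x5432167890 (.cons 0x9870543216 (.cons 0x8907612345 .nil))) (.node 3 9 (.cons 0x5439087612 (.cons 0x8709345612 .nil)) (.node 2 8 (.cons 0x7612809345 (.cons 0x1289345670 (.cons 0x9078216543 .nil))) (.node 5 8 (.cons 0x4398567021 (.cons 0x4582390761 .nil)) (.node 0 6 (.cons 0x7609854321 .nil) (.node 4 6 (.cons 0x5467890123 (.cons 0x7645893210 (.cons 0x7645890123 .nil))) .done .done) .done) .done) (.node 2 8 (.cons 0x7821650934 (.cons 0x9078216543 .nil)) (.leaf 0x6128709345 0 (.node 2 9 (.cons 0x8709216543 .nil) (.node 1 3 (.cons 0x2134567890 (.cons 0x8907654312 .nil)) (.leaf 0x4312908765 1 (.node 2 6 (.cons 0x4398705621 .nil) (.node 4 6 (.cons 0x5467890123 (.cons 0x9870213465 (.cons 0x9078231645 .nil))) .done .done) .done)) (.node 5 8 (.cons 0x7612908543 (.cons 0x9216708543 (.cons 0x8543290761 .nil))) .done .done)) .done)) (.node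 5 9 (.cons 0x8761234590 .nil) (.node 6 8 (.cons 0x9054321687 (.cons 0x1234598670 .nil)) (.leaf 0x7689543210 1 (.leaf 0x3459078612 0 (.node 2 8 (.cons 0x7612809543 (.cons 0x2870934561 .nil)) (.node 1 4 (.cons 0x7861450932 (.cons 0x3214598670 (.cons 0x5670289341 (.cons 0x5416870932 (.cons 0x8207614395 .nil))))) .done .done) .done))) (.node 5 8 (.cons 0x4587610932 .nil) (.node 6 9 (.cons 0x1234589670 .nil) (.leaf 0x8543210769 0 (.leaf 0x7698543210 1 .done)) (.node 2 9 (.cons 0x1678543290 (.cons 0x8543290761 (.cons 0x8709216543 .nil))) .done .done)) .done)) .done))) (.node 1 3 (.cons 0x2134567890 (.cons 0x8907654312 .nil)) (.node 2 9 (.cons 0x8921345670 (.cons 0x6543129870 .nil)) (.node 0 6 (.cons 0x7608921345 .nil) (.node 1 8 (.cons 0x9067812345 (.cons 0x7812906543 .nil)) .done (.node 1 7 (.cons 0x6054317892 .nil) (.leaf 0x2345061789 0 .done) .done)) (.node 5 9 (.cons 0x6708954312 .nil) (.node 0 6 (.cons 0x8760954321 (.cons 0x7608954312 (.cons 0x4598760132 .nil)))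 .done (.node 2 4 (.cons 0x6789542310 (.cons 0x9870561243 (.cons 0x8956702431 (.cons 0x2431659870 .nil)))) (.node 6 9 (.cons 0x8769542310 .nil) (.leaf 0x5423108769 0 .done) .done) .done)) .done)) (.node 2 9 (.cons 0x8765431290 (.cons 0x8709213456 .nil)) (.node 4 8 (.cons 0x9021348765 (.cons 0x7056129843 .nil)) (.node 3 5 (.cons 0x4356789021 (.cons 0x7098435612 .nil)) (.node 6 9 (.cons 0x7843120965 (.cons 0x8076921354 .nil)) (.leaf 0x3548076921 0 .done) (.leaf 0x4356129078 1 .done)) (.node 1 5 (.cons 0x3489207651 (.cons 0x5167098432 .nil)) (.leaf 0x2984315670 1 .done) .done)) (.node 4 8 (.cons 0x9021348765 (.cons 0x6548709213 .nil)) (.node 5 9 (.cons 0x9567843120 (.cons 0x5984321670 (.cons 0x6132950784 .nil))) .done (.node 1 5 (.cons 0x6784513290 (.cons 0x5167098432 .nil)) (.node 0 3 (.cons 0x6703298451 .nil) (.node 3 5 (.cons 0x4356789021 (.cons 0x4892351670 .nil)) .done .done) .done) .done)) .done)) (.node 1 8 (.cons 0x3456709812 .nil) (.node 0 3 (.cons 0x9034567812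 (.cons 0x7654309812 .nil)) (.node 0 6 (.cons 0x9067812345 (.cons 0x7609812345 .nil)) .done .done) (.node 6 9 (.cons 0x5432189670 .nil) (.node 1 7 (.cons 0x8712345096 .nil) (.node 3 5 (.cons 0x4356789021 (.cons 0x6987120534 (.cons 0x8769012354 (.cons 0x9812076534 .nil)))) (.node 1 4 (.cons 0x2098765341 (.cons 0x8769014532 (.cons 0x9814356702 .nil))) .done .done) .done) (.leaf 0x4321896705 0 (.node 4 6 (.cons 0x5467890123 (.cons 0x9870213465 (.cons 0x9645078123 (.cons 0x7054698123 .nil)))) (.node 2 5 (.cons 0x3254678901 (.cons 0x1325469870 (.cons 0x9645231870 (.cons 0x9810764523 .nil)))) (.leaf 0x3254690781 1 .done) .done) .done))) .done)) .done))) .done)) (.node 0 3 .nil tc9_2_23 (.node 0 3 .nil tc9_2_22 .done))) (.node 5 8 .nil (.node 0 6 (.cons 0x9067854321 (.cons 0x7609854321 .nil)) (.node 0 7 (.cons 0x6709854321 .nil) (.node 0 3 .nil (.node 1 7 (.cons 0x9871234506 (.cons 0x8903456712 (.cons 0x4309856712 .nil))) (.node 1 4 (.cons 0x5678902143 (.cons 0x7658902143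 (.cons 0x9876032145 (.cons 0x9032145876 .nil)))) (.node 2 7 (.cons 0x6541278903 (.cons 0x3456098721 (.cons 0x9872143065 .nil))) .done .done) .done) (.node 1 7 (.cons 0x8903456712 (.cons 0x9856712034 (.cons 0x4309856712 .nil))) (.node 0 4 .nil (.node 1 6 (.cons 0x7612345890 (.cons 0x9043216785 (.cons 0x9854032167 .nil))) .done (.node 2 7 (.cons 0x8903456721 .nil) (.node 6 9 (.cons 0x4589672301 (.cons 0x3045896721 .nil)) (.node 2 8 (.cons 0x6907128543 .nil) (.leaf 0x7128543096 0 .done) (.leaf 0x2769854301 0 .done)) (.node 2 8 (.cons 0x9821760345 .nil) (.node 1 3 (.cons 0x2134567890 (.cons 0x9854031276 (.cons 0x9065431287 (.cons 0x7890654312 .nil)))) (.node 2 5 (.cons 0x9876043125 (.cons 0x9043125876 (.cons 0x8906712543 .nil))) .done .done) .done) .done)) .done)) .done) .done)) (.node 1 6 (.cons 0x7612345890 .nil) (.node 0 3 (.cons 0x9854307612 .nil) (.node 1 3 (.cons 0x2134567890 (.cons 0x6709854312 (.cons 0x7890654312 .nil))) (.node 0 4 (.cons 0x7658904312 .nil)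 .done .done) .done) (.node 1 7 (.cons 0x9871234506 .nil) (.node 2 6 (.cons 0x3458907621 .nil) (.node 4 6 (.cons 0x7645890123 (.cons 0x9871054623 .nil)) .done (.leaf 0x5098716234 0 .done)) (.node 4 6 (.cons 0x9871234605 (.cons 0x7645890123 (.cons 0x9058716432 .nil))) .done .done)) (.node 0 4 (.cons 0x9043216785 (.cons 0x7612340985 .nil)) .done .done))) .done)) .done) (.node 3 5 (.cons 0x4356789021 .nil) (.node 4 8 (.cons 0x9012354876 .nil) (.node 1 8 (.cons 0x9021876534 .nil) (.node 3 8 .nil (.node 1 5 (.cons 0x7651209834 .nil) (.node 0 3 (.cons 0x9876512034 .nil) (.node 6 8 (.cons 0x7689032154 .nil) .done .done) .done) .done) (.node 4 9 (.cons 0x8765349021 .nil) (.node 0 3 (.cons 0x7658943021 .nil) (.node 0 6 (.cons 0x9435812067 .nil) (.node 2 8 (.cons 0x7654309821 .nil) (.node 2 5 (.cons 0x9067812543 .nil) (.node 3 9 (.cons 0x5439067812 .nil) (.leaf 0x4390678125 1 (.leaf 0x678125439 0 (.leaf 0x678549321 0 .done))) .done) .done) .done) .done) (.node 3 8 (.cons 0x6783549012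 .nil) (.node 2 8 (.cons 0x6782109453 .nil) (.node 2 5 (.cons 0x6783521094 .nil) (.node 6 8 (.cons 0x7683521094 .nil) .done .done) .done) .done) (.leaf 0x3490218765 1 .done))) .done)) (.node 1 5 (.cons 0x9021534876 .nil) (.node 6 9 (.cons 0x5348769021 .nil) (.leaf 0x123548769 0 (.node 2 5 (.cons 0x1253487690 .nil) (.node 5 7 (.cons 0x6751209843 .nil) (.node 5 9 (.cons 0x6784359021 .nil) .done .done) .done) (.leaf 0x7690123548 1 (.node 6 8 (.cons 0x9021534867 .nil) (.node 1 8 (.cons 0x4532187690 .nil) (.node 3 8 (.cons 0x7651209834 .nil) .done .done) .done) .done)))) .done) .done)) (.node 4 8 (.cons 0x7653489021 .nil) (.node 1 5 .nil (.node 0 3 (.cons 0x9876512034 .nil) (.node 3 8 (.cons 0x9021567834 .nil) (.node 3 6 (.cons 0x9021563487 (.cons 0x4510987632 .nil)) (.node 4 9 (.cons 0x5498763210 (.cons 0x7658943021 (.cons 0x5498763012 (.cons 0x2367894510 .nil)))) .done .done) .done) (.node 2 8 (.cons 0x9034567821 .nil) (.node 4 9 (.cons 0x3094567821 (.cons 0x6782154903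 (.cons 0x6782309451 .nil))) (.node 0 7 (.cons 0x3498567021 (.cons 0x6702158943 .nil)) .done .done) .done) .done)) (.node 3 8 (.cons 0x9021567834 .nil) (.node 6 8 (.cons 0x7689012354 .nil) (.node 2 8 .nil (.node 0 3 (.cons 0x9034567821 .nil) (.node 4 9 (.cons 0x2156783490 (.cons 0x7651283490 (.cons 0x9430215876 (.cons 0x3490287651 .nil)))) .done .done) .done) .done) .done) .done)) (.node 0 3 .nil (.node 1 5 (.cons 0x9876512034 .nil) (.node 0 4 (.cons 0x9876512043 .nil) (.node 0 6 (.cons 0x9843512067 .nil) (.node 0 7 (.cons 0x9843512076 .nil) (.node 7 9 (.cons 0x1234589760 (.cons 0x4321589760 (.cons 0x4320679851 (.cons 0x4589760321 .nil)))) .done .done) .done) (.node 6 8 (.cons 0x7689012354 (.cons 0x7689043215 (.cons 0x7689045123 .nil))) .done .done)) (.node 2 9 (.cons 0x6780923451 (.cons 0x6784512903 .nil)) (.node 1 7 (.cons 0x8902176534 (.cons 0x8921765430 (.cons 0x6712985430 .nil))) (.leaf 0x3456712980 1 .done) (.node 4 9 (.cons 0x8765120943 (.cons 0x7658943021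 .nil)) (.node 2 6 (.cons 0x9087623451 (.cons 0x5498762301 (.cons 0x9458762301 (.cons 0x8762309451 .nil)))) (.leaf 0x3015498762 0 .done) .done) .done)) .done)) (.node 0 4 .nil (.node 1 8 (.cons 0x9034567812 (.cons 0x7653409812 .nil)) (.node 1 3 (.cons 0x2134567890 (.cons 0x5678904312 .nil)) (.node 2 8 (.cons 0x9034567821 .nil) (.node 0 7 (.cons 0x9821354076 .nil) .done .done) .done) .done) (.node 0 6 .nil (.node 1 3 (.cons 0x2134567890 (.cons 0x7890654312 .nil)) (.node 4 9 (.cons 0x5678943120 (.cons 0x7894312065 (.cons 0x5498760132 .nil))) .done (.node 2 5 (.cons 0x4312567890 (.cons 0x9067843125 .nil)) (.leaf 0x6789043125 1 .done) .done)) .done) .done)) .done)) .done)) (.node 0 6 .nil tc9_2_21 .done))) (.node 0 3 .nil tc9_2_20 .done))) .done)))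
noncomputable def uc9_2_4 : T := tc9_2_25
theorem sub_c9_2_4 : root 9 refs9_2 [] 0x700000008706000000006050000000050300000000304000500004010000000010300000000302400000002018000500410 0xfe7fff3fff9fffd7ffc7ffedfff5ffe3fff9fecd 9 0 8 .nil uc9_2_4 = true := by decide +kernel
noncomputable def tc9_2_26 : T := (.node 0 6 (.cons 0x9874321605 .nil) (.node 1 8 (.cons 0x9067812345 .nil) (.node 5 8 (.cons 0x9067854321 .nil) (.node 6 8 .nil (.node 3 9 (.cons 0x7654398120 (.cons 0x5476893210 (.cons 0x5439068712 (.cons 0x7439865021 (.cons 0x5476893201 .nil))))) .done (.node 2 6 (.cons 0x3458902671 .nil) (.node 1 9 (.cons 0x5891674320 .nil) (.node 0 3 (.cons 0x5476891230 .nil) (.node 0 7 (.cons 0x1985432670 .nil) (.leaf 0x9162347058 0 .done) (.leaf 0x9867450321 0 .done)) (.node 2 9 (.cons 0x3478921650 .nil) (.node 3 9 (.cons 0x7654398120 .nil) (.node 0 3 (.cons 0x7891265430 .nil) (.leaf 0x9862174503 0 (.node 0 7 (.cons 0x2189345670 .nil) (.leaf 0x1268934507 0 .done) .done)) (.leaf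 0x2016745893 0 .done)) (.leaf 0x7850619234 0 .done)) .done)) .done) .done)) (.node 6 8 .nil (.node 3 6 (.cons 0x9863450217 (.cons 0x9863210547 .nil)) (.leaf 0x9021763458 0 .done) (.node 4 6 (.cons 0x5467890123 .nil) (.node 5 9 (.cons 0x6123478950 .nil) (.leaf 0x8617432059 0 (.node 3 7 (.cons 0x2376459810 .nil) (.node 2 8 (.cons 0x9546732810 .nil) (.leaf 0x5467328109 0 (.node 1 4 (.cons 0x9567341820 .nil) (.leaf 0x2859014673 1 (.leaf 0x3285901467 0 .done)) .done)) (.leaf 0x2376458901 1 (.leaf 0x6458901237 0 .done))) .done)) .done) .done)) .done)) (.node 1 9 (.cons 0x8760912345 .nil) (.node 5 9 (.cons 0x6123478950 .nil) (.node 6 9 (.cons 0x6987450123 .nil) (.node 2 6 (.cons 0x1623478950 .nil) (.node 7 9 (.cons 0x1879543260 .nil) (.node 2 9 (.cons 0x3478921650 .nil) (.node 3 9 (.cons 0x6217893450 .nil) .done .done) .done) .done) .done) (.node 6 9 (.cons 0x3218745960 .nil) (.node 7 9 (.cons 0x3456097812 .nil) (.node 2 9 (.cons 0x3478921650 .nil) (.node 3 9 (.cons 0x5478106932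 .nil) .done .done) .done) .done) .done)) .done) .done)) (.node 1 9 (.cons 0x5061987432 .nil) (.node 6 9 (.cons 0x6987450123 .nil) (.node 5 9 (.cons 0x6123478950 .nil) (.node 6 8 (.cons 0x7432059861 .nil) (.node 2 6 (.cons 0x1623478950 .nil) (.node 2 5 (.cons 0x9874325061 .nil) (.leaf 0x6052347891 0 (.node 5 8 (.cons 0x6712098543 .nil) .done .done)) .done) .done) .done) .done) (.node 2 5 (.cons 0x5234789160 .nil) (.leaf 0x8916052347 1 (.node 2 4 (.cons 0x7890561243 .nil) (.node 1 8 .nil (.node 0 3 (.cons 0x9874305612 (.cons 0x9034567812 (.cons 0x9187430652 .nil))) .done (.node 6 8 (.cons 0x9106874523 .nil) (.node 5 8 (.cons 0x9061785243 .nil) (.node 6 9 (.cons 0x3425871690 .nil) (.node 2 8 (.cons 0x6091782543 .nil) (.node 1 5 (.cons 0x9851674320 .nil) (.leaf 0x8960517432 1 .done) .done) .done) .done) .done) .done)) .done) (.leaf 0x7891605234 0 .done))) .done)) .done)) (.node 2 4 (.cons 0x7890561243 .nil) (.node 0 7 (.cons 0x9870561243 .nil) (.node 0 3 (.cons 0x9876542103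 .nil) (.node 1 9 (.cons 0x8765430912 .nil) (.node 6 9 (.cons 0x8743216905 .nil) (.node 3 7 (.cons 0x9873421650 .nil) (.leaf 0x8961054237 0 (.leaf 0x2450169873 1 .done)) (.node 1 4 (.cons 0x8769032145 .nil) (.node 1 3 (.cons 0x2134567890 .nil) (.node 1 8 (.cons 0x9034567812 .nil) .done .done) .done) .done)) (.node 0 6 (.cons 0x5607891243 .nil) (.node 2 7 (.cons 0x8721903456 .nil) (.node 2 5 (.cons 0x3425607891 .nil) (.node 2 6 (.cons 0x6217890543 .nil) .done .done) .done) .done) .done)) (.node 1 9 (.cons 0x7891650342 .nil) (.node 2 7 (.cons 0x9872430561 .nil) (.node 3 7 (.cons 0x9873421650 .nil) (.node 0 4 (.cons 0x9873405612 .nil) (.node 0 8 (.cons 0x5670891243 .nil) .done .done) .done) .done) (.leaf 0x324567891 1 .done)) .done)) (.node 0 3 (.cons 0x9876542103 .nil) (.node 0 6 .nil (.node 3 5 (.cons 0x6789012354 (.cons 0x9876012354 (.cons 0x9871605342 .nil))) (.node 1 3 (.cons 0x2134567890 (.cons 0x7890654312 .nil)) (.node 1 8 (.cons 0x9813456702 .nil) (.node 2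 9 (.cons 0x8765430921 (.cons 0x7892134560 (.cons 0x7065342981 (.cons 0x6071892453 .nil)))) .done .done) .done) .done) .done) (.node 3 7 (.cons 0x9873421650 .nil) (.node 0 4 (.cons 0x9873405612 .nil) (.node 0 8 .nil (.node 4 6 (.cons 0x5467890123 (.cons 0x9801237645 .nil)) (.node 4 9 (.cons 0x5016498732 (.cons 0x3765498012 (.cons 0x7349802165 .nil))) .done .done) .done) .done) .done) .done)) .done)) (.node 3 7 (.cons 0x5612437890 .nil) (.node 5 7 (.cons 0x3421657890 .nil) (.node 1 8 (.cons 0x9816573420 .nil) (.leaf 0x2345761890 0 (.node 1 9 (.cons 0x8916573420 .nil) (.node 0 7 (.cons 0x9812073456 .nil) (.node 5 9 (.cons 0x6598120734 .nil) (.node 7 9 (.cons 0x6543798120 .nil) .done .done) .done) .done) .done)) (.node 5 8 (.cons 0x6712098543 .nil) (.node 2 5 .nil (.node 0 4 (.cons 0x9873405612 (.cons 0x5216789043 (.cons 0x5234098761 .nil))) .done (.node 1 8 .nil (.node 6 9 (.cons 0x3789654210 (.cons 0x6981734502 (.cons 0x6905478123 .nil))) (.leaf 0x961874325 1 .done)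 (.node 3 8 (.cons 0x7654389021 .nil) (.node 1 5 (.cons 0x7651209834 .nil) (.node 1 9 (.cons 0x4387652190 .nil) .done .done) (.node 1 9 (.cons 0x7834256190 .nil) (.leaf 0x8376542019 0 .done) .done)) .done)) .done)) (.node 5 9 (.cons 0x8590234761 .nil) (.node 3 5 (.cons 0x6789012354 .nil) (.node 1 9 (.cons 0x6190587432 .nil) (.node 1 5 (.cons 0x7615890234 .nil) (.node 1 8 (.cons 0x2347618590 .nil) .done .done) .done) .done) .done) .done)) .done)) (.node 0 3 (.cons 0x7890342165 .nil) (.node 0 6 (.cons 0x5609873421 .nil) (.node 0 7 .nil (.node 1 8 (.cons 0x9034567812 (.cons 0x9812076543 .nil)) (.node 4 6 (.cons 0x5467890123 (.cons 0x9812073465 (.cons 0x5643709812 .nil))) .done .done) .done) .done) (.node 0 7 .nil (.node 3 8 (.cons 0x7654389021 (.cons 0x9834567021 .nil)) (.node 7 9 (.cons 0x8347902165 .nil) (.leaf 0x3897021654 0 (.leaf 0x2079834561 0 .done)) .done) .done) .done)) (.node 5 7 (.cons 0x3421657890 .nil) (.node 1 8 (.cons 0x9816573420 .nil) (.node 0 7 (.cons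 0x9812076543 .nil) (.node 2 7 (.cons 0x9816502734 .nil) (.node 7 9 (.cons 0x3456798120 .nil) .done .done) .done) (.node 1 9 (.cons 0x8916573420 .nil) (.node 3 8 (.cons 0x7654389021 .nil) (.node 0 7 (.cons 0x2198345670 .nil) (.leaf 0x8345670219 0 .done) (.node 2 8 (.cons 0x5674382190 .nil) (.leaf 0x4382190567 0 (.node 3 9 (.cons 0x6547390281 .nil) (.leaf 0x6128743905 0 .done) .done)) .done)) .done) .done)) (.node 7 9 .nil (.node 5 8 (.cons 0x7342098561 (.cons 0x1658973420 .nil)) (.leaf 0x6589734201 1 .done) (.node 0 7 .nil (.node 1 8 (.cons 0x4209816573 (.cons 0x9812076543 .nil)) (.node 3 8 (.cons 0x7654389021 (.cons 0x9834567021 .nil)) (.node 1 4 (.cons 0x6573890241 (.cons 0x9834120765 (.cons 0x5670983412 .nil))) .done .done) .done) .done) .done)) .done)) .done))) .done)) (.node 1 8 .nil (.node 7 9 (.cons 0x3456798120 .nil) (.node 3 6 (.cons 0x6345098712 (.cons 0x9810236745 (.cons 0x5436718902 .nil))) (.node 2 9 (.cons 0x3654781092 (.cons 0x2905634781 (.cons 0x6329054781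 .nil))) .done (.node 2 7 (.cons 0x9816502743 (.cons 0x2743650981 (.cons 0x6327450981 .nil))) (.node 2 6 (.cons 0x5098743261 (.cons 0x8971263450 .nil)) (.leaf 0x5098172634 0 .done) .done) .done)) (.leaf 0x4798165023 1 (.leaf 0x8165023479 0 .done))) (.node 7 9 (.cons 0x3456798120 .nil) (.leaf 0x4798165023 1 (.leaf 0x8165023479 0 .done)) (.node 1 9 .nil (.node 5 8 (.cons 0x5890234761 (.cons 0x5891674320 .nil)) (.node 2 6 (.cons 0x5098743261 (.cons 0x3458917620 (.cons 0x7850916234 .nil))) (.node 1 3 (.cons 0x6231987450 (.cons 0x4587623190 .nil)) (.node 2 5 (.cons 0x8901325476 (.cons 0x6198743250 (.cons 0x4325876190 .nil))) .done .done) .done) (.node 3 6 (.cons 0x6345098712 (.cons 0x1985476320 (.cons 0x4587632190 .nil))) (.leaf 0x7458910236 0 (.leaf 0x9021763458 0 .done)) .done)) (.node 1 3 (.cons 0x2134567890 .nil) (.node 1 5 (.cons 0x6150987432 .nil) (.node 1 4 .nil (.node 3 7 (.cons 0x4378905612 (.cons 0x6509873412 .nil)) (.node 3 5 (.cons 0x7435618902 (.cons 0x6789014532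 .nil)) (.node 3 6 (.cons 0x6345098712 (.cons 0x5410987632 .nil)) .done .done) .done) .done) .done) (.node 1 5 (.cons 0x6150987432 .nil) (.node 1 4 .nil (.node 3 7 (.cons 0x4378905612 (.cons 0x6509873412 .nil)) (.node 5 8 (.cons 0x9851674320 (.cons 0x7614320985 (.cons 0x9850237416 .nil))) .done .done) .done) .done) .done)) .done)) .done))) .done)))
noncomputable def tc9_2_27 : T := (.node 0 6 (.cons 0x9871234506 .nil) (.node 1 8 (.cons 0x9067812345 .nil) (.node 1 3 (.cons 0x2134567890 .nil) (.node 3 7 (.cons 0x4378905612 .nil) (.node 1 5 (.cons 0x8902156734 .nil) (.node 1 4 (.cons 0x6509873412 .nil) (.node 1 9 (.cons 0x8760912345 .nil) .done .done) .done) (.node 1 5 .nil (.node 0 3 (.cons 0x4309876512 .nil) (.node 2 4 (.cons 0x2437890561 (.cons 0x9876542103 (.cons 0x7890342165 .nil))) (.leaf 0x3765189024 1 .done) .done) (.node 3 5 (.cons 0x6789012354 .nil) (.node 3 8 (.cons 0x9834567120 .nil) (.node 0 3 .nil (.node 1 9 (.cons 0x8760912345 .nil) (.node 2 8 (.cons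 0x9820561734 (.cons 0x9128760345 (.cons 0x9128760354 .nil))) .done .done) .done) .done) .done) .done)) .done)) (.node 1 9 (.cons 0x8760912345 .nil) (.node 1 5 .nil (.node 3 8 (.cons 0x9834567120 (.cons 0x7651209834 .nil)) (.node 3 6 (.cons 0x4510987632 .nil) (.node 2 7 (.cons 0x9127834506 (.cons 0x8721905436 (.cons 0x4365098721 (.cons 0x9127836054 .nil)))) .done .done) (.node 4 6 (.cons 0x5467890123 (.cons 0x9832015467 (.cons 0x7645109832 (.cons 0x7890516432 .nil)))) .done .done)) (.node 1 4 .nil (.node 3 5 (.cons 0x6789012354 (.cons 0x6789014532 .nil)) (.node 5 8 (.cons 0x9067854321 (.cons 0x7614320985 (.cons 0x9067854123 .nil))) .done .done) .done) .done)) .done) .done)) (.node 0 8 (.cons 0x9802176543 .nil) (.node 0 3 .nil (.node 2 4 (.cons 0x7890561243 (.cons 0x9876542103 (.cons 0x7890342165 .nil))) (.node 5 9 (.cons 0x8760954321 (.cons 0x4308956712 (.cons 0x6718954302 (.cons 0x6781245903 .nil)))) .done .done) (.node 2 6 (.cons 0x9817620345 .nil) (.node 0 7 .nil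 (.node 3 9 (.cons 0x8934567120 (.cons 0x5439812670 (.cons 0x1265439870 (.cons 0x4398705621 .nil)))) .done (.node 3 6 (.cons 0x9870543621 .nil) (.node 0 4 .nil (.node 5 7 (.cons 0x8901236754 (.cons 0x9875043261 (.cons 0x8904576321 .nil))) (.leaf 0x432165789 0 .done) .done) .done) .done)) (.node 0 4 .nil (.node 3 9 (.cons 0x8934567120 (.cons 0x5403981762 (.cons 0x3987126540 (.cons 0x6504398712 .nil)))) .done (.node 0 7 .nil (.node 3 6 (.cons 0x9812076345 (.cons 0x5436709812 .nil)) (.node 4 7 (.cons 0x9054781263 (.cons 0x9817450263 .nil)) .done .done) .done) .done)) .done)) .done)) (.node 1 9 (.cons 0x3456719802 .nil) (.leaf 0x7198023456 1 (.leaf 0x8023456719 0 .done)) .done)) .done)) (.node 6 9 (.cons 0x6987123450 .nil) (.node 5 9 (.cons 0x8954320671 .nil) (.node 6 8 (.cons 0x1768954320 .nil) (.leaf 0x9543201768 0 (.node 5 8 (.cons 0x9854320671 .nil) (.node 4 9 (.cons 0x5061789432 .nil) (.node 2 9 (.cons 0x6054329871 .nil) (.node 3 9 (.cons 0x8934567120 .nil) .done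 (.leaf 0x8716054329 0 .done)) (.node 0 4 (.cons 0x3204598671 .nil) (.node 0 3 (.cons 0x5498671203 .nil) (.node 0 7 (.cons 0x1234589670 .nil) (.node 0 8 (.cons 0x5432176980 .nil) .done .done) .done) .done) .done)) .done) .done)) (.node 5 8 (.cons 0x9854320671 .nil) (.node 2 5 (.cons 0x9871605234 .nil) (.node 5 7 .nil (.node 4 9 (.cons 0x5061789432 (.cons 0x7589432061 (.cons 0x3498576120 (.cons 0x1675894320 .nil)))) .done (.node 3 5 (.cons 0x6789012354 .nil) (.node 1 5 .nil (.node 2 4 (.cons 0x7890561243 (.cons 0x9876015423 .nil)) (.node 2 9 (.cons 0x6054329871 (.cons 0x3429871560 .nil)) .done .done) .done) .done) .done)) .done) (.node 5 7 (.cons 0x4320985761 .nil) (.node 1 5 (.cons 0x7615890234 .nil) (.node 2 5 (.cons 0x9871605234 .nil) (.node 3 5 (.cons 0x6789012354 .nil) .done .done) .done) .done) .done)) .done)) (.node 5 9 (.cons 0x8954320671 .nil) (.node 0 8 (.cons 0x6712345980 .nil) (.leaf 0x3459806712 1 (.node 1 8 (.cons 0x2345981760 .nil) (.node 1 9 (.cons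 0x8917602345 .nil) (.node 6 8 .nil (.node 0 7 (.cons 0x6071895432 (.cons 0x8670954321 (.cons 0x6895071234 .nil))) .done (.node 2 6 (.cons 0x7189543260 .nil) (.node 3 6 (.cons 0x2176345980 .nil) (.node 4 6 (.cons 0x3217896450 .nil) .done .done) .done) .done)) .done) .done) .done)) (.node 6 8 (.cons 0x1768954320 .nil) (.leaf 0x9543201768 0 .done) .done)) .done)) .done)) (.node 4 7 (.cons 0x3478905612 .nil) (.node 0 6 (.cons 0x9874321605 .nil) (.node 3 7 (.cons 0x4378905612 .nil) (.node 0 3 (.cons 0x9874305612 .nil) (.node 2 7 .nil (.node 4 6 (.cons 0x5467890123 (.cons 0x8905643721 (.cons 0x5098723461 .nil))) .done (.node 2 6 (.cons 0x4378905621 .nil) (.node 3 6 (.cons 0x9874501236 .nil) (.node 0 4 (.cons 0x9873405621 .nil) (.node 0 7 .nil (.node 1 9 (.cons 0x4378912650 (.cons 0x8912650734 (.cons 0x3456219870 (.cons 0x6219870543 .nil)))) .done .done) .done) .done) .done) .done)) .done) (.node 0 3 (.cons 0x9874305612 .nil) (.node 0 7 .nil (.node 3 8 (.cons 0x7654389021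 (.cons 0x9834567021 (.cons 0x9834702165 .nil))) .done (.node 3 6 (.cons 0x9874501236 .nil) (.node 3 8 (.cons 0x7654389021 .nil) (.node 1 3 (.cons 0x2134567890 .nil) (.node 3 9 (.cons 0x9387456012 .nil) .done .done) .done) (.node 4 6 (.cons 0x5467890123 .nil) (.node 0 4 .nil (.node 5 7 (.cons 0x8901236754 (.cons 0x8904576321 .nil)) .done .done) .done) .done)) .done)) .done) .done)) (.node 6 9 (.cons 0x6987450123 .nil) (.node 4 6 (.cons 0x5467890123 .nil) (.node 3 6 (.cons 0x9874501236 .nil) (.node 0 4 (.cons 0x9876321045 .nil) (.node 0 7 (.cons 0x8961234705 .nil) (.node 0 8 (.cons 0x5476980123 .nil) .done .done) .done) .done) .done) (.node 6 8 (.cons 0x4509687123 .nil) (.node 0 3 (.cons 0x6987450321 .nil) (.node 3 6 (.cons 0x1236987450 .nil) (.node 0 4 (.cons 0x5047896123 .nil) (.node 4 9 (.cons 0x3217869450 .nil) (.leaf 0x5496871230 1 (.leaf 0x6871230549 0 (.node 2 6 (.cons 0x9450178623 .nil) (.node 4 6 (.cons 0x5467890123 .nil) .done .done) .done))) .done) .done)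 (.node 2 6 (.cons 0x9874305621 .nil) (.node 3 6 (.cons 0x1236987450 .nil) (.node 4 6 (.cons 0x5467890123 .nil) .done .done) .done) .done)) .done) .done)) .done)) (.node 5 8 (.cons 0x5890216743 .nil) (.node 1 5 .nil (.node 3 8 (.cons 0x7654389021 (.cons 0x7651209834 (.cons 0x5167438902 .nil))) (.node 2 5 (.cons 0x6125098743 .nil) (.leaf 0x1674389025 1 (.node 5 7 (.cons 0x6157438902 .nil) .done .done)) .done) (.node 3 5 (.cons 0x9853476120 .nil) (.node 2 5 (.cons 0x6125098743 .nil) (.node 4 8 (.cons 0x9012354876 .nil) (.node 5 7 (.cons 0x7561209843 .nil) (.node 5 9 (.cons 0x8432095716 .nil) .done .done) (.node 0 7 (.cons 0x5167098432 .nil) (.node 2 7 (.cons 0x5167234890 .nil) (.node 0 3 (.cons 0x3098476152 .nil) (.node 3 7 (.cons 0x9843720561 .nil) .done .done) .done) (.leaf 0x1670984325 0 .done)) .done)) .done) (.node 1 8 (.cons 0x5347618902 .nil) (.node 1 3 (.cons 0x2134567890 .nil) (.node 1 4 (.cons 0x6789014532 .nil) .done .done) (.node 2 5 (.cons 0x8902534761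 .nil) (.leaf 0x3476189025 1 (.leaf 0x981674352 0 .done)) .done)) .done)) .done)) (.node 1 5 (.cons 0x3476158902 .nil) (.node 5 7 (.cons 0x4320985761 .nil) (.node 2 5 (.cons 0x6125098743 .nil) (.node 3 5 (.cons 0x2098534761 .nil) (.node 5 9 .nil (.node 3 6 (.cons 0x5098743612 (.cons 0x4598763210 (.cons 0x8763210954 .nil))) (.leaf 0x4789052163 0 .done) .done) .done) .done) .done) (.node 6 8 (.cons 0x9023458671 .nil) (.node 4 8 .nil (.node 6 9 (.cons 0x9687123450 (.cons 0x7169058432 (.cons 0x5096178432 (.cons 0x6905487123 .nil)))) .done (.node 3 8 (.cons 0x7654389021 .nil) (.node 5 9 (.cons 0x9502174386 .nil) (.node 5 7 (.cons 0x4320985761 .nil) (.node 2 5 (.cons 0x6125098743 .nil) (.node 3 5 (.cons 0x2098534761 .nil) .done .done) .done) .done) .done) .done)) (.node 1 9 (.cons 0x4586719023 .nil) (.leaf 0x234586719 0 (.leaf 0x7190234586 1 .done)) .done)) .done)) (.node 6 8 (.cons 0x9054321786 .nil) (.node 5 7 (.cons 0x9861205743 .nil) (.node 2 5 (.cons 0x6125098743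 .nil) (.node 3 6 (.cons 0x3674589021 .nil) (.node 0 6 (.cons 0x9875061234 .nil) (.node 4 6 (.cons 0x5467890123 .nil) (.node 3 7 (.cons 0x1237645890 .nil) (.leaf 0x2376458901 1 (.leaf 0x6458901237 0 .done)) .done) .done) (.leaf 0x1634789052 1 (.leaf 0x4789052163 0 .done))) .done) (.node 5 9 .nil (.node 0 3 (.cons 0x9503478612 (.cons 0x5986743021 .nil)) (.leaf 0x2176895430 1 (.leaf 0x4598671203 0 .done)) (.node 0 7 (.cons 0x1234598670 .nil) (.node 1 5 (.cons 0x4321598670 .nil) (.node 0 4 (.cons 0x5986704321 .nil) (.node 3 7 (.cons 0x4598673210 .nil) (.leaf 0x2104598673 0 .done) (.leaf 0x7689512340 1 .done)) .done) .done) .done)) .done)) (.node 1 5 (.cons 0x7689023451 .nil) (.node 2 5 (.cons 0x6125098743 .nil) (.node 1 9 (.cons 0x7689154320 .nil) (.leaf 0x5091687432 0 (.node 1 3 (.cons 0x2134567890 .nil) (.node 1 4 (.cons 0x9052341687 .nil) .done .done) (.leaf 0x6719023458 0 .done))) .done) (.node 1 9 (.cons 0x6871905432 .nil) (.node 1 3 (.cons 0x2134567890 .nil) (.node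 0 6 (.cons 0x9854760213 .nil) (.node 1 4 (.cons 0x9067854123 .nil) .done .done) .done) (.leaf 0x6719023458 0 .done)) .done)) .done)) .done))) (.node 1 5 (.cons 0x6150987432 .nil) (.node 5 8 (.cons 0x9851674320 .nil) (.node 5 7 (.cons 0x4320985761 .nil) (.node 5 9 (.cons 0x8951674320 .nil) (.node 3 5 (.cons 0x6789012354 .nil) (.node 2 5 .nil (.node 1 3 (.cons 0x2134567890 (.cons 0x8901325476 (.cons 0x2561347890 .nil))) .done .done) .done) .done) .done) (.node 1 3 (.cons 0x2134567890 .nil) (.leaf 0x9854761320 0 (.node 5 7 (.cons 0x6132098574 .nil) .done .done)) .done)) (.node 3 7 (.cons 0x4378905612 .nil) (.node 1 3 (.cons 0x2134567890 .nil) (.node 1 9 .nil (.node 5 8 (.cons 0x2347615890 (.cons 0x5891674320 (.cons 0x6732019854 (.cons 0x6198502374 .nil)))) .done (.node 1 8 .nil (.node 0 6 (.cons 0x7890654312 (.cons 0x9067812345 (.cons 0x7609815432 .nil))) .done (.node 7 9 (.cons 0x3456798120 .nil) (.leaf 0x4798165023 1 (.leaf 0x8165023479 0 .done)) .done)) .done))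 .done) (.node 1 3 (.cons 0x2134567890 .nil) (.node 3 8 (.cons 0x7654389021 .nil) (.node 1 8 .nil (.node 0 6 (.cons 0x9065438712 (.cons 0x9067812345 (.cons 0x7609815432 .nil))) .done (.node 4 8 (.cons 0x2156734890 .nil) (.node 1 4 (.cons 0x6509873412 .nil) (.node 1 9 (.cons 0x5673489120 .nil) .done .done) .done) .done)) (.node 3 5 (.cons 0x6789012354 .nil) (.node 0 3 .nil (.node 6 8 (.cons 0x9054321786 (.cons 0x9867451032 (.cons 0x2309867451 .nil))) .done .done) .done) .done)) (.node 1 9 .nil (.node 3 8 (.cons 0x7654389021 (.cons 0x7654389120 (.cons 0x8345671902 .nil))) .done (.node 1 4 (.cons 0x6509873412 .nil) (.node 1 8 .nil (.node 0 6 (.cons 0x7890654312 (.cons 0x9067812345 (.cons 0x7609815432 .nil))) .done .done) .done) .done)) .done)) .done)) .done)) .done))) (.node 4 7 (.cons 0x3478905612 .nil) tc9_2_26 .done)))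
noncomputable def tc9_2_28 : T := (.node 1 3 (.cons 0x2134567890 .nil) (.node 3 5 (.cons 0x6789012354 .nil) (.node 5 9 .nil (.node 0 7 (.cons 0x4589076123 (.cons 0x8956702134 (.cons 0x8954312076 .nil))) (.node 0 4 (.cons 0x9854076132 .nil) (.node 0 8 (.cons 0x9802134567 (.cons 0x7659802134 .nil)) .done .done) .done) (.node 0 4 (.cons 0x6789540132 .nil) (.node 3 6 (.cons 0x9854021367 .nil) (.node 6 9 (.cons 0x4587690321 .nil) (.node 1 5 (.cons 0x8769032154 .nil) (.node 2 5 (.cons 0x4013678952 .nil) (.node 2 6 (.cons 0x4598762310 .nil) (.leaf 0x5401326789 1 .done) .done) .done) .done) (.node 3 7 (.cons 0x9854021376 .nil) (.node 0 6 (.cons 0x4598760132 .nil) (.node 0 7 (.cons 0x4589076123 .nil) (.node 0 8 (.cons 0x9802134567 .nil) .done .done) .done) .done) .done)) (.node 0 6 (.cons 0x4598760132 .nil) (.node 0 7 (.cons 0x9854076132 .nil) (.node 0 8 (.cons 0x9802134567 .nil) .done .done) .done) .done)) .done)) (.node 3 6 .nil (.node 1 7 (.cons 0x8902176543 (.cons 0x4365098712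 (.cons 0x6345098712 .nil))) (.node 1 4 (.cons 0x6789014532 (.cons 0x9036785412 .nil)) (.node 2 7 (.cons 0x8901672354 (.cons 0x5634127890 (.cons 0x3654127890 .nil))) (.leaf 0x4109872365 0 .done) .done) .done) (.node 3 7 .nil (.node 2 4 (.cons 0x7890563421 (.cons 0x9873650124 (.cons 0x6542109873 .nil))) (.node 0 8 (.cons 0x9802134567 (.cons 0x9085421673 (.cons 0x9085423761 .nil))) (.node 1 4 (.cons 0x7890563412 (.cons 0x7365890214 (.cons 0x9085376142 .nil))) .done .done) .done) .done) .done)) .done)) (.node 0 6 (.cons 0x7890654312 .nil) (.node 2 7 (.cons 0x6543127890 .nil) (.leaf 0x3127890654 0 (.node 2 5 (.cons 0x7890652134 .nil) (.node 2 4 .nil (.node 3 6 (.cons 0x5423678901 .nil) (.leaf 0x136542789 0 (.leaf 0x4563109872 0 .done)) (.node 2 8 (.cons 0x9034567821 .nil) (.node 2 9 (.cons 0x8765430921 .nil) (.node 2 6 .nil (.node 4 9 (.cons 0x7894312560 (.cons 0x3094587621 (.cons 0x8726549013 .nil))) (.leaf 0x945876213 1 .done) .done) .done) .done) .done)) .done) (.node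 3 6 (.cons 0x4365098721 .nil) (.node 3 7 (.cons 0x8905612734 .nil) (.node 0 7 (.cons 0x4589076123 .nil) (.node 0 4 (.cons 0x4098561372 .nil) (.node 0 8 .nil (.node 4 6 (.cons 0x5643127890 (.cons 0x9087213465 .nil)) .done .done) .done) .done) .done) (.node 3 7 (.cons 0x8905612734 .nil) (.node 6 9 (.cons 0x4587690321 .nil) (.node 2 9 (.cons 0x8765430921 .nil) (.node 2 8 (.cons 0x9034567821 .nil) (.node 6 8 (.cons 0x7865430921 .nil) .done .done) .done) .done) .done) .done)) (.leaf 0x9872134560 0 .done)))) (.node 4 6 (.cons 0x5467890123 .nil) (.node 3 6 .nil (.node 1 9 (.cons 0x8765430912 (.cons 0x4587630912 .nil)) (.node 2 7 (.cons 0x6543127890 (.cons 0x8721905634 (.cons 0x4365098721 (.cons 0x4563127890 .nil)))) (.leaf 0x8723645019 1 .done) .done) (.node 3 9 (.cons 0x5467893210 .nil) (.leaf 0x2105467893 0 (.node 3 7 (.cons 0x9873210546 .nil) (.node 3 8 (.cons 0x7654389021 .nil) .done .done) .done)) .done)) (.node 1 9 (.cons 0x8765430912 .nil) (.node 0 4 (.cons 0x5876409123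 .nil) (.node 1 4 (.cons 0x9032145876 .nil) (.node 2 5 (.cons 0x5234198760 .nil) (.leaf 0x8914325067 0 (.node 1 5 (.cons 0x8760915234 .nil) .done .done)) .done) .done) (.node 1 4 (.cons 0x9032145876 .nil) (.node 1 8 (.cons 0x9034567812 .nil) (.node 1 7 (.cons 0x9064587132 .nil) (.node 1 5 .nil (.node 3 7 (.cons 0x9056437812 (.cons 0x8915437602 (.cons 0x8902156734 (.cons 0x4376518902 .nil)))) .done .done) .done) .done) .done) .done)) .done)) .done)) (.node 0 4 (.cons 0x5678904312 .nil) (.node 2 5 (.cons 0x4312567890 .nil) (.node 0 6 (.cons 0x9876043125 .nil) (.node 0 7 (.cons 0x4589076123 .nil) (.node 0 8 .nil (.node 4 7 (.cons 0x3216745890 (.cons 0x9802134765 (.cons 0x9085476123 .nil))) .done .done) .done) (.node 4 9 (.cons 0x3254987601 .nil) (.leaf 0x6013254987 0 (.leaf 0x678945231 1 (.node 0 7 (.cons 0x4985231670 .nil) (.node 0 8 (.cons 0x7652089431 .nil) .done .done) .done))) .done)) (.node 0 7 (.cons 0x4589076123 .nil) (.node 0 8 (.cons 0x9087652134 .nil) (.node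 0 6 .nil (.node 1 9 (.cons 0x8765430912 (.cons 0x8760912543 .nil)) (.node 4 6 (.cons 0x9123064587 (.cons 0x7854609123 (.cons 0x7852319064 .nil))) .done .done) .done) .done) (.node 1 5 (.cons 0x8907615432 .nil) (.node 5 7 .nil (.node 6 8 (.cons 0x9867023451 (.cons 0x9867512043 (.cons 0x9867513402 .nil))) (.leaf 0x7543210986 0 .done) .done) .done) .done)) .done)) (.node 4 6 (.cons 0x7890564312 .nil) (.node 3 6 .nil (.node 1 7 (.cons 0x8902176543 (.cons 0x9854023671 (.cons 0x6345098712 .nil))) (.leaf 0x2364509871 0 .done) (.node 3 7 (.cons 0x9873210546 .nil) (.node 3 8 (.cons 0x7654389021 .nil) (.node 3 9 (.cons 0x5467893210 .nil) (.leaf 0x2105467893 0 .done) .done) .done) .done)) (.node 4 7 (.cons 0x3216745890 .nil) (.node 2 4 (.cons 0x7613240985 .nil) (.node 3 7 (.cons 0x7316589042 .nil) (.node 1 4 (.cons 0x2376145890 .nil) (.node 4 8 (.cons 0x5489016732 .nil) .done .done) .done) .done) (.node 0 7 (.cons 0x4589076123 .nil) (.node 0 6 .nil (.node 1 7 (.cons 0x8902176543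 (.cons 0x9871234506 .nil)) (.node 4 9 (.cons 0x6785490321 (.cons 0x8549067123 (.cons 0x6094587123 .nil))) .done .done) .done) .done) .done)) .done)) .done)) .done))) (.node 1 5 (.cons 0x4309876512 .nil) (.node 2 5 (.cons 0x4309876521 .nil) (.node 2 4 (.cons 0x9876512430 .nil) (.node 5 7 .nil (.node 0 8 (.cons 0x9803421675 (.cons 0x9801675423 .nil)) (.node 3 9 (.cons 0x3987654210 (.cons 0x7654210893 (.cons 0x6578930124 (.cons 0x8932457610 .nil)))) .done .done) (.node 3 5 (.cons 0x9876530124 .nil) (.node 5 9 (.cons 0x8957610324 .nil) .done .done) .done)) (.node 5 7 (.cons 0x6578903421 .nil) (.node 3 5 (.cons 0x6789012354 .nil) (.node 5 9 .nil (.node 4 6 (.cons 0x7589032461 (.cons 0x7895642103 (.cons 0x4678590321 (.cons 0x4678951032 .nil)))) .done .done) .done) .done) .done)) .done) (.node 2 5 (.cons 0x4309876521 .nil) (.node 2 4 (.cons 0x5678903421 .nil) (.node 4 6 (.cons 0x5467890123 .nil) (.node 5 7 .nil (.node 1 4 (.cons 0x9876521430 (.cons 0x6578903412 (.cons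 0x9857641203 .nil))) .done (.node 3 5 (.cons 0x9876453210 .nil) (.node 5 9 (.cons 0x8765903421 .nil) .done .done) .done)) (.node 4 7 (.cons 0x3216745890 .nil) (.node 4 9 (.cons 0x5894761230 .nil) (.node 5 7 (.cons 0x8946752301 .nil) (.node 5 9 (.cons 0x4678952301 .nil) .done .done) (.leaf 0x2567894301 0 (.node 0 4 (.cons 0x7612589403 .nil) .done .done))) (.node 0 4 (.cons 0x9852167403 .nil) .done .done)) .done)) (.node 5 7 (.cons 0x6578903421 .nil) (.node 2 8 (.cons 0x1675432890 .nil) (.node 2 9 (.cons 0x8765129034 .nil) (.node 2 7 (.cons 0x8903427561 .nil) (.node 2 6 .nil (.node 1 4 (.cons 0x9876521430 (.cons 0x9875624103 (.cons 0x7509826143 .nil))) .done .done) .done) .done) .done) .done) .done)) .done) .done)) (.node 4 6 (.cons 0x5467890123 .nil) (.node 2 5 (.cons 0x9876452301 .nil) (.node 1 9 (.cons 0x5467891032 .nil) (.leaf 0x3019876452 0 (.node 2 4 (.cons 0x1987652430 .nil) (.node 0 4 (.cons 0x7619852304 .nil) (.node 0 8 (.cons 0x5678091243 .nil) (.node 0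 6 (.cons 0x5219876043 .nil) (.node 0 7 (.cons 0x3465078912 .nil) .done .done) .done) .done) (.leaf 0x9876524301 0 .done)) (.leaf 0x7891032546 0 .done))) (.node 1 5 (.cons 0x9876451032 .nil) (.node 2 9 (.cons 0x5467892301 .nil) (.leaf 0x329876451 0 (.node 3 9 (.cons 0x5467893210 .nil) (.leaf 0x2105467893 0 (.node 1 9 (.cons 0x5467891032 .nil) (.node 1 4 (.cons 0x2987651430 .nil) (.node 2 6 (.cons 0x2678915430 .nil) (.leaf 0x4190326785 1 .done) (.leaf 0x3415678920 1 .done)) .done) .done)) (.leaf 0x7892301546 0 .done))) .done) .done)) (.node 5 9 (.cons 0x8764590123 .nil) (.node 3 5 (.cons 0x6789012354 .nil) (.node 0 6 (.cons 0x9876012354 .nil) (.node 3 6 .nil (.node 0 4 (.cons 0x9876354012 .nil) (.node 0 8 (.cons 0x7632108954 .nil) (.node 1 7 (.cons 0x4359806712 (.cons 0x2176345980 (.cons 0x8095436712 (.cons 0x4365098712 (.cons 0x8953406712 .nil))))) .done .done) .done) .done) .done) (.node 0 4 .nil (.node 3 7 (.cons 0x8954012376 (.cons 0x8590467321 .nil)) (.node 1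 3 (.cons 0x5678904312 .nil) (.leaf 0x7645890213 1 (.leaf 0x2098546731 0 .done)) .done) (.node 0 8 .nil (.node 4 7 (.cons 0x3216745890 (.cons 0x6745980123 .nil)) (.node 2 5 (.cons 0x8901674523 (.cons 0x9801674523 .nil)) .done .done) (.node 0 6 .nil (.node 1 5 (.cons 0x9087643215 (.cons 0x7608951234 .nil)) .done .done) .done)) .done)) .done)) (.node 0 4 .nil (.node 3 8 (.cons 0x2387645901 (.cons 0x7610459832 .nil)) (.node 1 3 (.cons 0x2134567890 (.cons 0x6789540132 (.cons 0x5678904312 .nil))) (.node 2 6 (.cons 0x7832645901 (.cons 0x3267895401 (.cons 0x4095876231 (.cons 0x9045621387 .nil)))) .done .done) (.node 1 5 (.cons 0x7651209834 (.cons 0x9510467832 (.cons 0x9043876512 .nil))) .done .done)) (.node 1 4 (.cons 0x7614589032 .nil) (.node 4 7 (.cons 0x3216745890 .nil) (.node 0 6 .nil (.node 1 5 (.cons 0x2341598760 .nil) (.node 0 8 (.cons 0x2346780951 .nil) .done (.leaf 0x4320678951 0 .done)) (.node 1 5 (.cons 0x2341598760 .nil) (.leaf 0x4320678951 0 .done) .done))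 .done) (.node 2 4 .nil (.node 1 3 (.cons 0x2134567890 (.cons 0x6789542310 (.cons 0x1324678590 .nil))) (.leaf 0x7890132456 1 .done) (.node 0 6 (.cons 0x3245987601 .nil) (.node 0 8 (.cons 0x7610895423 .nil) .done .done) .done)) .done)) .done)) .done)) (.node 2 5 (.cons 0x3254678901 .nil) (.node 1 5 .nil (.node 2 7 (.cons 0x4589032761 (.cons 0x6432789051 (.cons 0x8903276154 .nil))) (.node 3 8 (.cons 0x7654389021 (.cons 0x9832015467 (.cons 0x7651209834 .nil))) (.node 5 7 (.cons 0x7546109832 .nil) (.leaf 0x1098327546 0 .done) .done) .done) (.node 3 5 (.cons 0x2354678901 .nil) (.node 5 7 .nil (.node 2 8 (.cons 0x7645328901 (.cons 0x7546109823 (.cons 0x4675328901 .nil))) .done (.node 5 9 .nil (.node 0 6 (.cons 0x8760954321 (.cons 0x8760951234 .nil)) (.node 0 8 (.cons 0x2346780951 .nil) (.node 1 9 (.cons 0x7891064523 (.cons 0x7608912534 (.cons 0x3452198760 .nil))) .done .done) .done) .done) .done)) .done) .done)) (.node 1 5 .nil (.node 2 7 (.cons 0x4589032761 (.cons 0x6432789051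 (.cons 0x8903276154 .nil))) (.node 0 8 (.cons 0x9087643251 (.cons 0x9803451672 .nil)) (.node 3 9 (.cons 0x8764523901 (.cons 0x8932764510 (.cons 0x7216543980 (.cons 0x4390876521 .nil)))) .done .done) .done) (.node 3 5 (.cons 0x2354678901 .nil) (.node 5 7 .nil (.node 2 8 (.cons 0x7645328901 (.cons 0x9823016754 (.cons 0x7546109823 (.cons 0x4675328901 .nil)))) .done (.node 5 9 .nil (.node 0 6 (.cons 0x8760954321 (.cons 0x4321598760 .nil)) (.node 0 8 (.cons 0x7643208951 .nil) (.node 1 3 (.cons 0x2134567890 (.cons 0x6780954312 (.cons 0x7890654312 (.cons 0x2590876431 .nil)))) .done .done) .done) .done) .done)) .done) .done)) .done)) .done))) .done)))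
noncomputable def tc9_2_29 : T := (.node 2 4 (.cons 0x7610985423 .nil) (.node 3 9 (.cons 0x5467893210 .nil) (.leaf 0x2105467893 0 (.node 1 9 (.cons 0x7645891023 .nil) (.node 2 9 .nil (.node 0 3 (.cons 0x9103246785 (.cons 0x8765430921 (.cons 0x7856429301 (.cons 0x5467892301 .nil)))) .done (.node 6 9 (.cons 0x3245876901 .nil) (.node 1 3 (.cons 0x2134567890 .nil) (.leaf 0x2458769013 0 (.node 1 5 (.cons 0x8769015423 .nil) (.node 2 5 (.cons 0x8769013254 .nil) .done .done) .done)) .done) .done)) (.node 3 7 (.cons 0x9854673201 .nil) (.leaf 0x5891023764 0 (.node 2 8 (.cons 0x2854376190 .nil) (.leaf 0x1028546739 0 (.node 4 9 (.cons 0x8549016732 .nil) (.leaf 0x5490167328 1 (.leaf 0x167328549 0 .done)) (.leaf 0x3761902854 0 (.leaf 0x7619028543 1 .done)))) (.leaf 0x8546732019 1 (.node 2 6 (.cons 0x9873264501 .nil) (.node 1 4 (.cons 0x2650987341 .nil) (.leaf 0x6241093785 0 .done) (.node 6 8 (.cons 0x2456873901 .nil) (.node 2 5 (.cons 0x5246873910 .nil) (.leaf 0x8739105246 0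 .done) .done) .done)) .done)))) .done)) (.node 1 4 (.cons 0x7641023985 .nil) (.node 4 8 (.cons 0x5678421093 .nil) (.node 4 7 (.cons 0x3987465012 .nil) (.node 0 4 .nil (.node 2 5 (.cons 0x6478932501 (.cons 0x1256789340 .nil)) (.leaf 0x3987461052 0 .done) .done) .done) .done) (.node 4 7 (.cons 0x3987465012 .nil) (.node 0 4 .nil (.node 2 5 (.cons 0x6478932501 (.cons 0x1256789340 .nil)) (.leaf 0x3987461052 0 .done) .done) .done) .done)) (.node 3 8 (.cons 0x2456783901 .nil) (.node 3 7 (.cons 0x9854673201 .nil) (.node 1 7 (.cons 0x9834567120 .nil) (.node 6 9 (.cons 0x1769854320 .nil) (.leaf 0x7698543201 1 (.node 2 6 (.cons 0x7893264501 .nil) (.node 6 8 (.cons 0x1786932450 .nil) .done .done) .done)) (.leaf 0x2017645893 0 (.leaf 0x4671023985 0 .done))) (.node 0 3 .nil (.node 1 9 (.cons 0x2456783910 (.cons 0x9103785642 (.cons 0x9103246785 .nil))) (.leaf 0x8546732019 1 .done) (.node 3 6 .nil (.node 1 7 (.cons 0x9834567120 (.cons 0x2098543671 .nil)) (.leaf 0x6324589017 0 (.leaf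 0x2364509871 0 .done)) .done) .done)) .done)) (.leaf 0x5421093876 0 (.node 3 6 .nil (.node 1 7 (.cons 0x9024385671 (.cons 0x4365098712 (.cons 0x2098543671 .nil))) (.leaf 0x6324589017 0 (.leaf 0x2364509871 0 .done)) (.node 3 7 (.cons 0x9854673201 .nil) (.node 1 3 (.cons 0x2134567890 .nil) (.node 1 9 (.cons 0x5678342190 .nil) (.leaf 0x2019854673 0 (.leaf 0x5891023764 0 .done)) .done) .done) .done)) .done))) .done)))) (.node 4 8 .nil (.node 3 6 (.cons 0x7890124563 (.cons 0x9012367845 .nil)) (.node 3 7 (.cons 0x9854673201 (.cons 0x9012487365 (.cons 0x5489016732 .nil))) (.leaf 0x2109873654 0 .done) (.node 1 5 (.cons 0x4510987632 (.cons 0x9845102367 (.cons 0x9015487632 .nil))) .done .done)) (.node 1 4 .nil (.node 3 6 (.cons 0x7890124563 (.cons 0x9014587632 (.cons 0x7890563412 (.cons 0x5410987632 .nil)))) .done (.node 0 8 .nil (.node 2 9 (.cons 0x6785410923 (.cons 0x5678092143 (.cons 0x7614580923 .nil))) .done (.node 1 5 .nil (.node 7 9 (.cons 0x5809761432 (.cons 0x1589764320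 (.cons 0x5120897643 (.cons 0x7980516432 (.cons 0x9764158023 .nil))))) .done (.node 4 7 (.cons 0x9802156743 .nil) (.node 0 4 .nil (.node 2 9 (.cons 0x5167432980 (.cons 0x7615892340 (.cons 0x5167408923 .nil))) .done .done) .done) .done)) .done)) .done)) .done)) .done)) (.node 2 4 (.cons 0x7610985423 .nil) (.node 5 9 (.cons 0x8764590123 .nil) (.node 3 5 (.cons 0x6789012354 .nil) (.node 0 6 (.cons 0x9876012354 .nil) (.node 0 8 .nil (.node 1 7 (.cons 0x8902176543 (.cons 0x6712345980 (.cons 0x8095432176 (.cons 0x3421765980 (.cons 0x4359806712 .nil))))) .done (.node 1 5 (.cons 0x7608951243 .nil) (.node 3 6 (.cons 0x9087634512 .nil) (.node 2 5 (.cons 0x4523678901 .nil) (.node 2 6 (.cons 0x9087621543 .nil) .done .done) .done) .done) .done)) (.node 1 3 (.cons 0x2134567890 .nil) (.node 1 5 (.cons 0x9876015423 .nil) .done (.leaf 0x4231067895 0 (.leaf 0x6013245987 0 .done))) .done)) (.node 0 3 (.cons 0x9876542103 .nil) (.node 1 5 (.cons 0x9876512430 .nil) (.node 2 5 (.cons 0x4309876521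 .nil) (.node 5 7 (.cons 0x9857610324 .nil) .done .done) .done) (.node 3 9 (.cons 0x3987654210 .nil) (.leaf 0x4567893012 0 (.node 4 8 (.cons 0x9356784210 .nil) (.leaf 0x5390124876 0 (.leaf 0x3901248765 1 .done)) .done)) .done)) .done)) (.node 2 5 .nil (.node 0 3 (.cons 0x8764590321 (.cons 0x4309876521 .nil)) (.node 1 3 (.cons 0x2134567890 (.cons 0x4312567890 .nil)) (.leaf 0x2546789013 0 (.node 0 6 (.cons 0x7890654312 (.cons 0x7890652134 .nil)) (.node 0 7 (.cons 0x6078954231 (.cons 0x9870652431 (.cons 0x8907612543 .nil))) .done .done) .done)) (.node 1 9 (.cons 0x3019876542 (.cons 0x1987652430 .nil)) (.leaf 0x2567891034 0 (.leaf 0x5230198764 1 .done)) .done)) (.node 1 5 .nil (.node 2 7 (.cons 0x1672345890 (.cons 0x4327615890 .nil)) (.node 0 3 (.cons 0x8764590321 (.cons 0x9876512430 (.cons 0x8903276154 .nil))) (.node 2 9 (.cons 0x8765430921 (.cons 0x1587643290 .nil)) (.node 0 7 (.cons 0x2345890761 (.cons 0x6432907851 (.cons 0x8907615432 .nil))) (.leaf 0x4329078516 1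 .done) .done) .done) .done) (.node 5 7 .nil (.node 3 5 (.cons 0x6789012354 .nil) (.node 3 9 (.cons 0x3987654210 (.cons 0x4239857610 (.cons 0x8932457610 .nil))) (.node 3 8 (.cons 0x1238764590 (.cons 0x9387564210 .nil)) (.node 1 9 (.cons 0x7654389120 (.cons 0x8576432091 (.cons 0x6754389120 .nil))) .done .done) .done) .done) .done) .done)) .done)) .done)) (.node 5 9 (.cons 0x8764590123 .nil) (.node 3 5 (.cons 0x6789012354 .nil) (.node 3 6 (.cons 0x7890124563 .nil) (.node 0 6 (.cons 0x9876012354 .nil) (.node 3 8 (.cons 0x7654389021 .nil) (.node 1 3 (.cons 0x2134567890 .nil) (.node 0 3 .nil (.node 3 9 (.cons 0x4567893012 .nil) (.leaf 0x8930124567 1 .done) .done) .done) .done) .done) (.node 0 6 (.cons 0x9876012354 .nil) (.node 1 5 (.cons 0x4510987632 .nil) (.node 2 5 (.cons 0x4523678901 .nil) (.node 5 7 (.cons 0x6324578901 .nil) .done .done) .done) .done) .done)) (.node 1 5 .nil (.node 3 6 (.cons 0x7890124563 (.cons 0x4510987632 .nil)) (.node 0 8 (.cons 0x7632108954 (.cons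 0x9087643215 (.cons 0x9802154367 .nil))) .done (.node 4 7 (.cons 0x7423610985 (.cons 0x9851023674 (.cons 0x6347890512 (.cons 0x3651098742 .nil)))) .done .done)) (.node 1 4 .nil (.node 3 6 (.cons 0x7890124563 (.cons 0x9854102367 (.cons 0x7890563412 (.cons 0x5410987632 .nil)))) .done (.node 4 8 (.cons 0x9012354876 .nil) (.node 4 9 .nil (.node 3 6 (.cons 0x7890124563 (.cons 0x5498763210 (.cons 0x7632015894 (.cons 0x2367894510 .nil)))) .done (.node 0 4 .nil (.node 3 6 (.cons 0x2367894510 (.cons 0x9876321045 (.cons 0x5104987632 .nil))) (.leaf 0x7890451236 0 .done) .done) .done)) .done) .done)) .done)) .done)) (.node 2 9 .nil (.node 0 3 (.cons 0x8764590321 (.cons 0x8765430921 .nil)) (.node 1 5 (.cons 0x4309876512 (.cons 0x9230158764 (.cons 0x8765129034 .nil))) .done (.node 1 8 (.cons 0x3218764590 (.cons 0x1876459230 (.cons 0x7812905643 .nil))) (.leaf 0x5430921876 0 (.leaf 0x4567812903 1 .done)) .done)) (.node 6 9 .nil (.node 1 3 (.cons 0x2134567890 (.cons 0x7850132964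 (.cons 0x4587690132 (.cons 0x7854690132 .nil)))) (.node 2 7 (.cons 0x1672345890 (.cons 0x4312789650 (.cons 0x1342785690 (.cons 0x4690587231 .nil)))) .done .done) (.node 0 6 .nil (.node 1 3 (.cons 0x2134567890 (.cons 0x7896013245 (.cons 0x7856092431 (.cons 0x7890654312 (.cons 0x7859064231 .nil))))) .done (.node 3 6 (.cons 0x7890124563 .nil) (.node 7 9 (.cons 0x7985423610 .nil) (.node 0 8 (.cons 0x5436798021 .nil) (.node 4 9 (.cons 0x5498763210 .nil) (.node 5 7 (.cons 0x8945763210 .nil) (.leaf 0x4980123675 0 (.leaf 0x6754980123 1 .done)) .done) .done) .done) .done) .done)) .done)) .done)) .done)) .done)) (.node 3 5 (.cons 0x2354678901 .nil) (.node 3 8 (.cons 0x7654389021 .nil) (.node 1 3 (.cons 0x2134567890 .nil) (.node 1 5 .nil (.node 3 7 (.cons 0x4589016732 (.cons 0x8902156734 .nil)) (.node 0 3 (.cons 0x4309876512 .nil) (.node 1 8 (.cons 0x9812034567 (.cons 0x4376518902 (.cons 0x6734518902 .nil))) .done .done) .done) .done) (.node 3 6 .nil (.node 1 7 (.cons 0x4317658902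 (.cons 0x9871054632 (.cons 0x2098543671 .nil))) (.leaf 0x546321789 0 .done) (.node 0 6 (.cons 0x9876012354 .nil) (.node 3 7 (.cons 0x4589016732 .nil) (.node 0 3 .nil (.node 1 8 (.cons 0x9810235467 (.cons 0x9812034567 .nil)) (.node 2 5 (.cons 0x2543761890 (.cons 0x9034521876 (.cons 0x9036781254 .nil))) .done .done) .done) .done) .done) .done)) .done)) (.node 1 5 (.cons 0x7651209834 .nil) (.node 1 3 (.cons 0x2134567890 .nil) (.node 2 5 (.cons 0x3254678901 .nil) (.node 5 7 (.cons 0x6457890132 .nil) .done .done) .done) .done) .done)) (.node 1 5 .nil (.node 3 8 (.cons 0x7654389021 (.cons 0x9832015467 (.cons 0x7651209834 .nil))) (.node 1 3 (.cons 0x2134567890 .nil) (.node 1 8 (.cons 0x7643209815 .nil) (.node 3 7 (.cons 0x4589016732 (.cons 0x8902156734 (.cons 0x6734518902 .nil))) .done .done) (.node 2 7 (.cons 0x7216543890 (.cons 0x4327615890 (.cons 0x7209831564 .nil))) (.leaf 0x5643127890 1 (.leaf 0x564312789 0 .done)) .done)) .done) (.node 2 5 (.cons 0x3254678901 .nil)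 (.node 5 7 .nil (.node 1 3 (.cons 0x1325467890 (.cons 0x6457890132 .nil)) (.node 1 8 (.cons 0x9018764532 (.cons 0x7564318902 (.cons 0x5764318902 .nil))) .done .done) .done) .done) .done)) (.node 5 9 .nil (.node 3 6 (.cons 0x4598763210 (.cons 0x8763210954 .nil)) (.node 1 7 (.cons 0x8901764532 (.cons 0x9871054632 (.cons 0x4365098712 (.cons 0x2098543671 .nil)))) (.leaf 0x546321789 0 .done) (.node 4 7 (.cons 0x8901235476 (.cons 0x2364789501 .nil)) (.leaf 0x5012364789 0 (.node 1 4 (.cons 0x7890563412 (.cons 0x7895014632 (.cons 0x4109587632 .nil))) (.node 2 4 (.cons 0x2476358901 (.cons 0x8953674210 (.cons 0x4236785901 .nil))) .done .done) .done)) .done)) (.node 6 9 .nil (.node 1 7 (.cons 0x8901764532 (.cons 0x1769854320 (.cons 0x8543209671 .nil))) (.node 1 5 (.cons 0x6715890234 (.cons 0x2346987150 (.cons 0x8715096432 .nil))) .done (.node 3 6 (.cons 0x2178963450 .nil) (.leaf 0x4502178963 0 (.node 2 5 (.cons 0x3254678901 (.cons 0x4369871250 (.cons 0x8712509634 .nil))) .done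 .done)) .done)) (.node 2 9 .nil (.node 3 6 (.cons 0x7892364501 (.cons 0x4587632901 .nil)) (.node 1 7 (.cons 0x8901764532 (.cons 0x8923546710 (.cons 0x4365098712 (.cons 0x2098543671 .nil)))) (.leaf 0x546321789 0 .done) .done) (.node 3 9 .nil (.node 2 4 (.cons 0x7610985423 (.cons 0x3987654210 (.cons 0x6785423901 .nil))) .done (.node 2 4 (.cons 0x7610985423 .nil) (.node 3 7 (.cons 0x9854237610 .nil) (.node 0 4 (.cons 0x7698532401 .nil) (.leaf 0x1673298540 1 (.node 3 6 (.cons 0x4563789210 .nil) (.leaf 0x1298736540 0 .done) .done)) (.leaf 0x6501243789 0 (.leaf 0x5698734210 1 .done))) (.node 2 5 (.cons 0x3254678901 .nil) (.node 0 4 (.cons 0x6789325401 .nil) (.node 4 7 (.cons 0x8932547610 .nil) (.node 1 5 (.cons 0x1589674320 .nil) (.leaf 0x6743201589 0 .done) .done) .done) .done) .done)) .done)) .done)) .done)) .done)) .done))) .done)))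
noncomputable def tc9_2_30 : T := (.node 1 5 .nil (.node 3 8 (.cons 0x7654389021 (.cons 0x7651209834 (.cons 0x6715438902 .nil))) (.node 0 3 (.cons 0x9854302176 (.cons 0x4309876512 .nil)) (.node 1 8 (.cons 0x9034567812 .nil) (.node 2 8 (.cons 0x9034567821 .nil) (.node 6 8 (.cons 0x9054321687 (.cons 0x7689023451 .nil)) .done .done) .done) (.node 2 6 (.cons 0x9854302671 (.cons 0x9876230154 (.cons 0x9851762034 .nil))) (.node 2 4 (.cons 0x9038716245 (.cons 0x9038715426 (.cons 0x6245178903 .nil))) (.leaf 0x5167890324 1 .done) .done) .done)) .done) (.node 3 5 (.cons 0x6789012354 .nil) (.node 0 3 (.cons 0x9854302176 .nil) (.node 2 5 (.cons 0x4309876521 .nil) (.node 5 9 (.cons 0x8761234590 .nil) (.node 5 7 .nil (.node 1 4 (.cons 0x5678903412 (.cons 0x6578903412 .nil)) (.node 1 3 (.cons 0x2134567890 .nil) (.node 1 8 (.cons 0x7659814302 (.cons 0x6759814320 .nil)) .done .done) .done) .done) .done) .done) (.node 2 5 .nil (.node 1 9 (.cons 0x6719854302 (.cons 0x6719852034 .nil))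 (.node 4 6 (.cons 0x5467890123 (.cons 0x9876452301 (.cons 0x3254678901 .nil))) (.leaf 0x8520346719 0 .done) .done) (.node 5 9 (.cons 0x8761234590 .nil) (.node 5 7 .nil (.node 0 6 (.cons 0x8906751234 .nil) (.node 1 4 (.cons 0x6789032541 (.cons 0x9876032541 .nil)) (.node 2 6 (.cons 0x9871452603 (.cons 0x3412657890 .nil)) .done .done) .done) .done) .done) .done)) .done)) (.node 5 9 (.cons 0x8761234590 .nil) (.node 3 8 (.cons 0x7654389021 .nil) (.node 0 6 (.cons 0x7832160954 .nil) (.node 5 7 (.cons 0x8906751234 .nil) (.node 2 5 .nil (.node 4 9 (.cons 0x8761094532 (.cons 0x3498521760 (.cons 0x8716094352 (.cons 0x6094387521 (.cons 0x3498520671 .nil))))) .done .done) .done) (.node 1 8 (.cons 0x7609815432 .nil) (.node 2 8 (.cons 0x7609823451 .nil) (.node 6 8 (.cons 0x9054321687 .nil) .done .done) .done) .done)) (.node 0 3 (.cons 0x8761230954 .nil) (.node 1 8 (.cons 0x9034567812 .nil) (.node 1 3 (.cons 0x2134567890 .nil) (.node 1 4 (.cons 0x6789014532 .nil) .done .done)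 .done) .done) .done)) .done) .done)) .done)) (.node 5 9 (.cons 0x8761234590 .nil) (.node 1 9 (.cons 0x2345876190 .nil) (.node 3 9 (.cons 0x4587610932 .nil) (.node 2 9 (.cons 0x1678543290 .nil) (.node 7 9 (.cons 0x8543209761 .nil) (.node 6 9 .nil (.node 2 7 (.cons 0x8721650934 (.cons 0x8502716934 (.cons 0x4327850961 .nil))) (.node 1 4 (.cons 0x8567209341 (.cons 0x8721439650 (.cons 0x8541096723 .nil))) .done .done) .done) .done) .done) (.node 1 5 .nil (.node 7 9 (.cons 0x8543209761 (.cons 0x8516790234 .nil)) (.node 2 9 (.cons 0x1678543290 .nil) (.node 0 3 (.cons 0x8765129034 (.cons 0x4309876512 .nil)) (.node 1 4 (.cons 0x5678921430 (.cons 0x8541679032 .nil)) .done .done) .done) .done) (.node 1 8 (.cons 0x9023458167 .nil) (.node 3 5 (.cons 0x6789012354 .nil) (.node 2 5 (.cons 0x8761093254 .nil) (.node 0 8 (.cons 0x4523908761 .nil) (.node 1 4 (.cons 0x8761452390 .nil) (.leaf 0x5239087614 1 .done) .done) .done) .done) .done) .done)) .done)) (.node 3 5 (.cons 0x6789012354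 .nil) (.node 1 5 .nil (.node 3 8 (.cons 0x7654389021 (.cons 0x7651209834 .nil)) (.node 1 3 (.cons 0x2134567890 .nil) (.node 3 6 (.cons 0x2098543671 (.cons 0x4367158902 (.cons 0x4510987632 .nil))) .done .done) .done) .done) (.node 6 9 (.cons 0x8769012354 .nil) (.node 4 8 (.cons 0x2354876901 .nil) (.node 7 9 (.cons 0x8435679120 .nil) (.node 0 6 (.cons 0x4853206791 .nil) (.node 5 7 (.cons 0x9167584320 .nil) (.leaf 0x6759843210 1 .done) .done) .done) (.leaf 0x5321096784 0 (.leaf 0x7690123548 1 .done))) (.node 2 9 (.cons 0x1678543290 .nil) (.node 3 9 (.cons 0x4587610932 .nil) (.node 7 9 (.cons 0x8543209761 .nil) .done .done) .done) .done)) .done)) .done)) (.node 2 9 (.cons 0x1678543290 .nil) (.node 0 6 (.cons 0x7854329061 .nil) (.node 0 8 (.cons 0x4590876123 .nil) (.node 0 3 (.cons 0x6178543092 .nil) (.node 4 8 (.cons 0x3216784590 .nil) (.leaf 0x7845903216 1 (.leaf 0x5903216784 0 .done)) (.node 0 7 (.cons 0x8709216543 .nil) (.node 0 4 .nil (.node 3 7 (.cons 0x8734561290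 (.cons 0x5604378921 (.cons 0x2904378561 .nil))) .done .done) .done) .done)) .done) (.node 4 6 (.cons 0x5467890123 .nil) (.node 3 9 (.cons 0x5467893210 .nil) (.leaf 0x2105467893 0 (.leaf 0x6458932017 1 (.leaf 0x4671023985 0 .done))) (.node 3 6 (.cons 0x2098543671 .nil) (.node 6 9 (.cons 0x2178963450 .nil) (.node 2 6 (.cons 0x9871263450 .nil) (.node 6 8 (.cons 0x9863450217 .nil) .done .done) .done) (.node 6 9 .nil (.node 2 5 (.cons 0x4361785290 (.cons 0x4369871250 (.cons 0x8712509634 .nil))) .done .done) .done)) .done)) .done)) (.node 7 9 (.cons 0x8543209761 .nil) (.node 6 9 .nil (.node 2 4 (.cons 0x9016785423 (.cons 0x3429617850 (.cons 0x3245876901 .nil))) (.node 3 8 (.cons 0x7654389021 (.cons 0x5423879610 (.cons 0x7169024385 .nil))) (.node 4 7 (.cons 0x6123874590 (.cons 0x5834716920 (.cons 0x3874569012 .nil))) .done .done) .done) (.node 1 9 (.cons 0x2345876190 .nil) (.node 3 9 (.cons 0x4587610932 .nil) .done .done) .done)) .done) .done)) .done)) (.node 5 9 (.cons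 0x8761234590 .nil) (.node 1 5 .nil (.node 6 8 (.cons 0x9054321687 (.cons 0x7689023451 .nil)) (.node 0 7 (.cons 0x1234598670 (.cons 0x4321598670 (.cons 0x9867023451 .nil))) (.leaf 0x5986701234 1 .done) (.node 0 8 (.cons 0x9087612345 (.cons 0x9087615432 .nil)) (.node 3 7 (.cons 0x8095437612 (.cons 0x9802154376 (.cons 0x4376809512 (.cons 0x8902156734 .nil)))) (.node 0 3 (.cons 0x9032167854 (.cons 0x4309876512 .nil)) (.node 2 4 (.cons 0x4217685903 (.cons 0x4237689510 (.cons 0x2437680951 (.cons 0x7342098651 .nil)))) .done .done) .done) .done) .done)) (.node 3 5 (.cons 0x6789012354 .nil) (.node 2 5 .nil (.node 0 3 (.cons 0x9032167854 (.cons 0x4309876521 .nil)) (.node 0 8 (.cons 0x9087612345 (.cons 0x9087612543 .nil)) (.node 0 6 (.cons 0x7608951234 .nil) .done .done) .done) .done) (.node 3 9 (.cons 0x4587612390 .nil) (.node 5 7 .nil (.node 6 8 (.cons 0x9054321687 (.cons 0x6893457120 (.cons 0x9057861234 (.cons 0x8617543902 .nil)))) .done (.node 2 5 .nil (.node 0 3 (.cons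 0x9032167854 (.cons 0x4309876521 .nil)) (.node 1 9 (.cons 0x8765430912 (.cons 0x8765219034 .nil)) .done .done) .done) .done)) (.node 0 3 (.cons 0x9032167854 .nil) (.node 1 9 (.cons 0x8765430912 .nil) (.node 1 3 (.cons 0x2134567890 .nil) (.node 1 4 (.cons 0x6789014532 .nil) .done .done) .done) .done) .done)) .done)) .done)) (.node 7 9 (.cons 0x8790543216 .nil) (.node 3 9 (.cons 0x4587612390 .nil) (.node 3 6 (.cons 0x6345098712 .nil) (.node 6 9 (.cons 0x2178963450 .nil) (.node 3 5 (.cons 0x6789012354 .nil) (.node 3 7 (.cons 0x8963712054 .nil) (.node 0 3 (.cons 0x4503698712 .nil) (.node 1 3 (.cons 0x2134567890 .nil) (.node 3 8 (.cons 0x7654389021 .nil) .done .done) .done) .done) .done) .done) (.node 0 6 .nil (.node 1 3 (.cons 0x2134567890 (.cons 0x8954317602 (.cons 0x7890654312 .nil))) .done (.node 0 3 (.cons 0x9032167854 .nil) (.node 0 7 .nil (.node 6 8 (.cons 0x5097861234 (.cons 0x6893450712 .nil)) .done .done) .done) .done)) (.leaf 0x9021763458 0 .done))) (.node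 1 9 .nil (.node 0 3 (.cons 0x9032167854 (.cons 0x8765430912 (.cons 0x4587619032 .nil))) (.node 3 8 (.cons 0x7654389021 (.cons 0x7654389120 (.cons 0x7619023854 .nil))) .done .done) (.node 4 9 (.cons 0x3216785490 .nil) (.node 1 5 .nil (.node 3 8 (.cons 0x7654389021 (.cons 0x4389765120 (.cons 0x7651209834 (.cons 0x6715438902 .nil)))) .done (.node 1 3 (.cons 0x2134567890 .nil) (.node 2 5 (.cons 0x4312567890 .nil) (.node 5 7 .nil (.node 0 6 (.cons 0x4906785213 (.cons 0x8943157602 .nil)) (.leaf 0x7602134985 1 .done) .done) .done) .done) .done)) .done) .done)) .done)) (.node 3 6 (.cons 0x6345098712 .nil) (.node 6 8 (.cons 0x4509786123 .nil) (.node 6 9 (.cons 0x2178963450 .nil) (.node 4 6 (.cons 0x5467890123 .nil) (.node 0 6 .nil (.node 1 8 (.cons 0x7632018954 (.cons 0x7602345981 (.cons 0x7189543602 .nil))) .done .done) .done) .done) (.node 4 6 (.cons 0x5467890123 .nil) (.node 6 9 (.cons 0x2178963450 .nil) (.node 0 6 .nil (.node 1 4 (.cons 0x2367895410 (.cons 0x7895410632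 .nil)) (.node 1 8 (.cons 0x7981236450 (.cons 0x7189543602 (.cons 0x7602341895 .nil))) .done .done) .done) .done) .done) .done)) (.node 4 6 (.cons 0x5467890123 .nil) (.node 6 9 (.cons 0x7896450123 .nil) (.node 3 9 (.cons 0x5467893210 .nil) (.node 0 6 (.cons 0x7120645893 .nil) (.node 6 8 (.cons 0x4509786123 .nil) .done .done) .done) .done) (.node 0 6 .nil (.node 4 7 (.cons 0x1236745890 (.cons 0x8974506321 .nil)) (.leaf 0x6098547123 0 .done) (.node 6 9 .nil (.node 3 5 (.cons 0x2354678901 (.cons 0x4350698712 (.cons 0x8769012354 .nil))) .done .done) .done)) .done)) (.node 0 6 .nil (.node 2 8 (.cons 0x1678234590 (.cons 0x3459820671 (.cons 0x7823459061 .nil))) (.node 1 4 (.cons 0x7890563412 (.cons 0x4160597823 (.cons 0x7609854123 (.cons 0x7823416095 .nil)))) .done .done) (.node 0 3 (.cons 0x9032167854 .nil) (.node 6 8 (.cons 0x4509786123 .nil) (.node 4 6 (.cons 0x9786450321 .nil) (.node 6 9 (.cons 0x4587690321 .nil) .done .done) .done) .done) .done)) (.leaf 0x9021763458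 0 .done)))) .done)) .done)) .done)))
noncomputable def tc9_2_31 : T := (.node 0 6 (.cons 0x9871234506 .nil) (.node 1 5 .nil (.node 0 8 (.cons 0x9802176543 (.cons 0x9087615432 .nil)) (.node 3 6 (.cons 0x9802176345 (.cons 0x9802154367 (.cons 0x4510987632 .nil))) (.node 6 9 (.cons 0x6987123450 (.cons 0x8967154320 .nil)) (.node 0 3 (.cons 0x6987123054 (.cons 0x8769032154 .nil)) (.node 2 4 (.cons 0x7124508963 (.cons 0x8769032451 (.cons 0x6987154230 .nil))) (.leaf 0x5167890324 1 .done) .done) .done) .done) .done) (.node 5 9 (.cons 0x8761234590 .nil) (.node 6 8 (.cons 0x1768954320 .nil) (.leaf 0x9543201768 0 (.node 0 8 (.cons 0x2345908761 .nil) (.node 4 8 (.cons 0x2348951760 .nil) (.node 4 6 (.cons 0x2346059871 .nil) (.node 5 8 (.cons 0x7645890123 .nil) (.node 3 7 (.cons 0x1237645890 .nil) (.node 5 7 (.cons 0x9843215760 .nil) .done (.leaf 0x2376458901 1 (.leaf 0x6458901237 0 .done))) .done) .done) (.node 1 8 (.cons 0x6718954320 .nil) (.node 3 8 (.cons 0x9834567120 .nil)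 (.node 2 8 (.cons 0x4328951760 .nil) (.node 5 8 (.cons 0x7618590234 .nil) .done .done) .done) .done) .done)) .done) (.node 5 8 (.cons 0x7609851234 .nil) (.node 6 9 (.cons 0x6987123450 .nil) (.node 3 5 (.cons 0x6789012354 .nil) (.node 0 3 (.cons 0x7689032154 .nil) (.node 0 7 (.cons 0x1234589670 .nil) (.leaf 0x5896701234 1 (.node 0 8 (.cons 0x5432176980 .nil) .done .done)) .done) .done) .done) .done) .done))) (.node 0 8 (.cons 0x4590876123 .nil) (.node 0 3 (.cons 0x8761230954 .nil) (.node 4 8 (.cons 0x3216784590 .nil) (.leaf 0x7845903216 1 (.leaf 0x5903216784 0 (.node 0 4 .nil (.node 3 5 (.cons 0x4895320671 (.cons 0x4067895321 .nil)) (.leaf 0x4098761235 0 .done) .done) .done))) (.node 0 7 .nil (.node 3 8 (.cons 0x9834567120 (.cons 0x9834567021 (.cons 0x9078345612 (.cons 0x4389076512 .nil)))) .done (.node 0 4 .nil (.node 2 8 (.cons 0x4590328761 (.cons 0x9540328761 (.cons 0x9540328716 (.cons 0x7651289043 (.cons 0x9823045176 .nil))))) .done .done) .done)) .done)) (.node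 5 8 (.cons 0x7609851234 .nil) (.node 0 3 (.cons 0x8761230954 .nil) (.node 0 4 (.cons 0x9851234067 .nil) (.node 4 8 (.cons 0x3216784590 .nil) (.leaf 0x5903216784 0 .done) .done) .done) .done) .done)) .done)) .done)) (.node 2 9 (.cons 0x6054329871 .nil) (.node 0 8 (.cons 0x7809216543 .nil) (.node 0 3 .nil (.node 5 9 (.cons 0x8761234590 (.cons 0x4308956712 (.cons 0x4308716592 (.cons 0x8761230954 .nil)))) .done (.node 0 7 (.cons 0x8709216543 .nil) (.node 0 4 .nil (.node 3 5 (.cons 0x7809216534 (.cons 0x9216534087 (.cons 0x9804356712 .nil))) (.leaf 0x4098761235 0 .done) .done) .done) .done)) (.node 1 5 .nil (.node 3 6 (.cons 0x7809216345 (.cons 0x7892360154 (.cons 0x7154360892 .nil))) (.node 2 4 (.cons 0x9871243650 (.cons 0x9876015423 (.cons 0x9087634215 .nil))) .done .done) (.node 0 4 .nil (.node 3 6 (.cons 0x7154360892 (.cons 0x7892104563 .nil)) (.node 5 8 (.cons 0x9234587160 (.cons 0x9854012367 (.cons 0x9854017632 (.cons 0x9045876123 .nil)))) .done (.leaf 0x9236045178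 0 .done)) (.node 0 7 (.cons 0x8709216543 .nil) (.node 0 3 .nil (.node 2 4 (.cons 0x8907651243 (.cons 0x9876542103 .nil)) .done .done) .done) .done)) .done)) .done)) (.leaf 0x617892345 1 (.leaf 0x5061789234 0 .done))) .done)) (.node 4 6 (.cons 0x3465098712 .nil) (.node 0 6 (.cons 0x9871234605 .nil) (.node 3 6 (.cons 0x4365098712 .nil) (.node 6 9 (.cons 0x7896450123 .nil) (.node 6 8 (.cons 0x9054321687 .nil) (.node 2 6 .nil (.node 5 8 (.cons 0x7632109854 (.cons 0x9058716234 .nil)) (.node 0 4 (.cons 0x9617850432 (.cons 0x9623405871 (.cons 0x9850436217 .nil))) (.node 1 3 (.cons 0x2134567890 (.cons 0x9871340562 (.cons 0x9856204317 .nil))) .done .done) .done) .done) .done) (.node 2 6 .nil (.node 7 9 (.cons 0x8971205643 (.cons 0x8790543261 .nil)) (.node 6 8 (.cons 0x3450978612 .nil) (.node 1 3 (.cons 0x2134567890 (.cons 0x7986205431 .nil)) (.leaf 0x7905431268 0 .done) .done) .done) .done) .done)) (.node 6 8 (.cons 0x9054321687 .nil) (.node 6 9 (.cons 0x7896450123 .nil)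 (.node 2 6 .nil (.node 5 8 (.cons 0x7123469850 (.cons 0x9058716234 .nil)) (.node 0 7 (.cons 0x1234589670 (.cons 0x4326985071 .nil)) (.leaf 0x5896701234 1 (.node 1 5 (.cons 0x4510987632 (.cons 0x8907621543 .nil)) .done .done)) .done) .done) .done) .done) .done)) (.node 1 5 (.cons 0x9871506432 .nil) (.node 2 9 (.cons 0x1543298760 .nil) (.node 2 4 (.cons 0x3429871560 .nil) (.node 0 4 (.cons 0x3406517892 .nil) (.node 4 7 (.cons 0x6015478923 .nil) (.node 4 9 (.cons 0x6051789432 .nil) (.node 2 5 (.cons 0x8943251760 .nil) (.node 0 7 (.cons 0x6078923451 .nil) (.node 5 7 (.cons 0x3298754601 .nil) .done .done) .done) .done) .done) .done) .done) (.leaf 0x3460517892 1 (.leaf 0x8715064329 0 .done))) (.node 6 8 (.cons 0x9054321687 .nil) (.node 0 8 (.cons 0x9087612345 .nil) (.node 0 4 (.cons 0x7689043215 .nil) (.node 0 7 (.cons 0x9864321507 .nil) .done .done) .done) (.node 2 6 .nil (.node 3 7 (.cons 0x4512376890 (.cons 0x9873264501 .nil)) (.node 4 8 (.cons 0x5176098432 (.cons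 0x9845106237 (.cons 0x9843715062 (.cons 0x5176234890 .nil)))) .done (.node 1 9 (.cons 0x9123786450 (.cons 0x8734562190 (.cons 0x4509126873 .nil))) .done .done)) (.node 3 6 (.cons 0x4365098712 .nil) (.node 6 9 (.cons 0x7896450123 .nil) .done .done) .done)) .done)) .done)) .done)) (.node 5 8 (.cons 0x7645890123 .nil) (.node 0 6 (.cons 0x9850643217 .nil) (.node 6 9 (.cons 0x7123469850 .nil) (.node 4 9 (.cons 0x3498567120 .nil) (.node 3 6 (.cons 0x4365098712 .nil) (.node 3 7 (.cons 0x9854673210 .nil) (.leaf 0x5602173498 1 (.node 2 6 (.cons 0x9458732610 .nil) (.leaf 0x3785490162 0 .done) .done)) .done) (.leaf 0x6178502349 0 .done)) (.node 0 7 (.cons 0x9854670123 .nil) (.leaf 0x2170589643 0 (.leaf 0x8507123469 0 (.node 0 3 (.cons 0x9856712034 .nil) (.node 0 4 (.cons 0x9678540321 .nil) (.node 0 8 (.cons 0x9087612345 .nil) .done .done) .done) .done))) .done)) (.node 1 5 (.cons 0x9851760234 .nil) (.node 6 9 (.cons 0x7123469850 .nil) (.node 3 6 (.cons 0x4365098712 .nil) (.node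 1 3 (.cons 0x2134567890 .nil) (.node 1 8 (.cons 0x7609815432 .nil) (.node 1 9 (.cons 0x7602345891 .nil) .done .done) .done) .done) (.node 0 7 (.cons 0x9854670123 .nil) (.leaf 0x2170589643 0 (.leaf 0x8507123469 0 .done)) .done)) .done) .done)) (.node 1 5 (.cons 0x2346715890 .nil) (.leaf 0x7158902346 1 (.node 5 9 (.cons 0x8761234590 .nil) (.node 3 5 (.cons 0x4671098532 .nil) (.node 2 5 (.cons 0x1764325890 .nil) (.node 5 7 (.cons 0x8905712346 .nil) .done .done) (.node 2 5 (.cons 0x1764325890 .nil) (.node 5 7 (.cons 0x8905712346 .nil) .done .done) .done)) .done) .done)) (.node 0 3 (.cons 0x7645890321 .nil) (.node 3 7 (.cons 0x1237645890 .nil) (.node 3 6 (.cons 0x4365098712 .nil) (.node 0 6 .nil (.node 1 9 (.cons 0x8765430912 (.cons 0x4589123760 (.cons 0x7321985460 (.cons 0x6054378912 .nil)))) .done (.node 0 4 (.cons 0x9045876123 .nil) (.node 0 7 .nil (.node 1 4 (.cons 0x7890563412 (.cons 0x9870563412 (.cons 0x9856370214 .nil))) .done .done) .done) .done)) (.node 3 5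 (.cons 0x4671235890 .nil) (.node 1 3 (.cons 0x2134567890 .nil) (.node 3 8 (.cons 0x7654389021 .nil) (.node 3 9 (.cons 0x4587612390 .nil) .done .done) .done) .done) .done)) (.leaf 0x6458901237 0 .done)) (.node 3 6 (.cons 0x4365098712 .nil) (.node 3 7 (.cons 0x1237645890 .nil) (.node 0 7 (.cons 0x9850712364 .nil) (.node 0 8 (.cons 0x9085467321 .nil) (.node 0 6 .nil (.node 3 8 (.cons 0x7654389021 .nil) (.node 2 5 (.cons 0x7125643890 (.cons 0x9834607125 (.cons 0x9065217834 .nil))) .done .done) .done) .done) (.node 4 9 (.cons 0x5498763210 .nil) (.leaf 0x3649850712 0 (.leaf 0x5894632170 0 (.node 0 6 .nil (.node 0 8 (.cons 0x9085467321 .nil) (.node 1 8 (.cons 0x6732094581 (.cons 0x9460581732 (.cons 0x9065437812 .nil))) .done .done) .done) .done))) .done)) (.leaf 0x6458901237 0 .done)) (.node 0 6 .nil (.node 2 5 (.cons 0x4523678901 .nil) (.node 4 9 (.cons 0x1256789430 (.cons 0x3498712560 (.cons 0x2506349871 (.cons 0x3254987601 .nil)))) .done (.node 2 4 (.cons 0x5423678901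 (.cons 0x5609871243 .nil)) (.node 1 9 (.cons 0x5423678910 (.cons 0x7198506324 (.cons 0x7891063245 (.cons 0x8760912543 .nil)))) .done .done) .done)) .done) .done)) (.leaf 0x9854671230 0 .done))) .done))) (.node 1 5 (.cons 0x8902346715 .nil) (.node 0 6 (.cons 0x9871506432 .nil) (.node 1 3 (.cons 0x2134567890 .nil) (.node 3 6 (.cons 0x4365098712 .nil) (.node 6 8 (.cons 0x9864320517 .nil) (.node 2 6 .nil (.node 2 5 (.cons 0x3254678901 .nil) (.leaf 0x4625098713 0 (.leaf 0x9052643178 0 .done)) .done) .done) .done) (.node 2 5 (.cons 0x2564317890 .nil) (.node 2 7 (.cons 0x6543127890 .nil) (.leaf 0x3127890654 0 (.leaf 0x9872134560 0 .done)) (.leaf 0x1789025643 1 .done)) .done)) .done) (.node 2 5 (.cons 0x3254678901 .nil) (.leaf 0x3461789052 0 (.node 0 6 .nil (.node 1 9 (.cons 0x8719052346 (.cons 0x8719064325 (.cons 0x8760912543 .nil))) .done (.node 1 3 (.cons 0x2134567890 .nil) (.node 3 5 (.cons 0x2354678901 .nil) (.node 5 9 (.cons 0x8761234590 .nil) (.node 0 3 (.cons 0x8761230954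 .nil) (.node 3 7 (.cons 0x8901546732 .nil) .done .done) .done) .done) (.node 2 7 (.cons 0x6543127890 .nil) (.leaf 0x3127890654 0 (.leaf 0x9872134560 0 .done)) .done)) .done)) (.node 5 9 (.cons 0x8761234590 .nil) (.node 5 8 (.cons 0x2346715890 .nil) (.node 3 5 (.cons 0x2354678901 .nil) (.node 5 7 .nil (.node 2 8 (.cons 0x1678234590 (.cons 0x9016457823 (.cons 0x1576432890 .nil))) .done .done) .done) .done) .done) .done))) .done)) .done))) (.node 5 8 (.cons 0x6712098543 .nil) tc9_2_30 .done)))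
noncomputable def tc9_2_32 : T := (.node 0 3 .nil (.node 0 4 (.cons 0x9876123045 .nil) (.node 2 9 (.cons 0x7892165430 (.cons 0x7892165034 .nil)) (.node 3 7 (.cons 0x4378921650 (.cons 0x8920543716 .nil)) (.node 3 8 (.cons 0x9216543870 (.cons 0x9216507834 (.cons 0x4567389201 .nil))) .done .done) (.node 5 9 (.cons 0x4598761032 .nil) (.node 3 6 (.cons 0x8763210954 (.cons 0x7895043612 (.cons 0x4503617892 .nil))) (.leaf 0x9540123678 0 .done) (.node 2 7 (.cons 0x9872165034 .nil) (.node 3 9 (.cons 0x8703921654 (.cons 0x4398721650 (.cons 0x8934502716 .nil))) .done (.node 6 8 (.cons 0x8670954321 (.cons 0x4598672301 (.cons 0x3045986721 .nil))) (.leaf 0x2768954301 0 .done) .done)) .done)) .done)) (.node 2 9 (.cons 0x5401678923 (.cons 0x7892165430 (.cons 0x7892165034 (.cons 0x5403298761 .nil)))) .done .done)) (.node 4 7 (.cons 0x9874305612 .nil) (.node 3 7 .nil (.node 2 4 (.cons 0x5678903421 (.cons 0x6542109873 .nil)) (.node 2 6 (.cons 0x9874305621 (.cons 0x4378905621 .nil))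 (.node 1 9 (.cons 0x6503478912 (.cons 0x8912650374 (.cons 0x8734219056 .nil))) (.node 0 8 (.cons 0x9802167345 (.cons 0x3745620891 .nil)) (.leaf 0x9126543780 0 .done) .done) .done) .done) (.node 5 7 .nil (.node 0 8 (.cons 0x9802167543 (.cons 0x9802345761 .nil)) (.node 4 8 (.cons 0x9845732016 (.cons 0x9843021675 (.cons 0x9845761023 .nil))) .done .done) (.node 2 7 (.cons 0x9872165034 .nil) (.node 7 9 .nil (.node 1 8 (.cons 0x9816502734 (.cons 0x4379816502 .nil)) (.node 0 6 (.cons 0x9816023754 (.cons 0x4579816023 .nil)) .done .done) .done) .done) .done)) .done)) (.node 3 7 .nil (.node 2 9 (.cons 0x2987430561 (.cons 0x8920165473 (.cons 0x4378921650 .nil))) (.node 2 6 (.cons 0x9874501623 (.cons 0x4378905621 .nil)) (.node 4 6 (.cons 0x5032987461 (.cons 0x8901237645 .nil)) .done .done) .done) (.node 5 7 .nil (.node 0 8 (.cons 0x9802167543 (.cons 0x9802345761 .nil)) (.node 4 9 (.cons 0x7894305612 (.cons 0x3765498012 (.cons 0x2165789430 (.cons 0x8943021675 .nil)))) .done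 .done) (.node 2 7 (.cons 0x9872165034 .nil) (.node 7 9 .nil (.node 1 8 (.cons 0x9816502743 (.cons 0x6543798120 (.cons 0x3479816502 .nil))) .done .done) .done) .done)) .done)) .done)) (.node 0 4 .nil (.node 2 9 (.cons 0x7892165043 (.cons 0x5403298761 .nil)) (.node 3 8 (.cons 0x7654389021 (.cons 0x9216543870 (.cons 0x9216507834 .nil))) (.node 3 9 (.cons 0x8392107654 (.cons 0x7893405612 .nil)) (.leaf 0x5401293876 1 .done) .done) (.node 3 7 (.cons 0x4561037892 (.cons 0x6540129873 (.cons 0x5612987340 .nil))) .done .done)) (.node 0 8 .nil (.node 5 9 (.cons 0x4598761032 (.cons 0x7612345980 .nil)) (.node 4 9 (.cons 0x5498761032 .nil) (.node 5 7 (.cons 0x8945761032 (.cons 0x6754980123 (.cons 0x3216754980 .nil))) .done (.node 3 7 (.cons 0x7349802165 .nil) (.node 6 8 (.cons 0x4371689502 (.cons 0x9861734502 (.cons 0x5498617302 .nil))) .done (.node 0 6 (.cons 0x3789456012 .nil) (.node 1 5 (.cons 0x8706159432 (.cons 0x9437806512 (.cons 0x7349806512 .nil))) .done .done) .done))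 .done)) (.node 4 7 (.cons 0x3208954761 .nil) (.node 0 6 (.cons 0x4789506123 .nil) .done (.node 3 6 (.cons 0x6345098712 (.cons 0x4590876321 (.cons 0x1236745980 .nil))) (.leaf 0x2367459801 1 .done) .done)) .done)) (.node 0 6 .nil (.node 1 8 (.cons 0x9067812345 .nil) (.node 5 9 (.cons 0x4598761032 (.cons 0x8123459076 (.cons 0x7618954320 .nil))) (.node 2 4 (.cons 0x1678954230 (.cons 0x6718954203 (.cons 0x7895423061 .nil))) (.node 3 8 (.cons 0x9542038176 (.cons 0x6095421783 .nil)) .done .done) .done) (.node 3 8 (.cons 0x7654389021 .nil) (.node 4 9 (.cons 0x5498761032 (.cons 0x7601238945 .nil)) (.node 2 9 (.cons 0x6549210783 (.cons 0x5607834921 (.cons 0x3870654921 .nil))) .done (.node 2 5 (.cons 0x3254987610 (.cons 0x3254987601 (.cons 0x9452387601 (.cons 0x3894520671 .nil)))) .done .done)) .done) .done)) .done) .done)) .done)) .done))) (.node 0 3 .nil (.node 2 4 (.cons 0x9870561243 (.cons 0x9876542103 (.cons 0x9870342165 .nil))) (.node 5 9 (.cons 0x4598761032 (.cons 0x4598761230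 .nil)) (.node 3 8 (.cons 0x4389567021 (.cons 0x9561243870 (.cons 0x1243876590 (.cons 0x9542387610 .nil)))) .done (.node 6 8 (.cons 0x7059861234 (.cons 0x8671243095 (.cons 0x8671245903 .nil))) (.node 2 8 (.cons 0x9507168243 (.cons 0x6712895430 (.cons 0x5903428671 (.cons 0x3095428671 .nil)))) (.leaf 0x9821670345 1 .done) .done) .done)) .done) (.node 1 8 (.cons 0x9034567812 .nil) (.node 7 9 (.cons 0x6543097812 .nil) (.node 0 6 (.cons 0x7981602345 .nil) (.node 0 8 (.cons 0x5432089761 .nil) (.node 0 4 .nil (.node 2 9 (.cons 0x2978165430 (.cons 0x5612987043 (.cons 0x7892165043 (.cons 0x3045618792 .nil)))) .done .done) .done) .done) (.node 1 3 (.cons 0x2134567890 .nil) (.node 2 8 (.cons 0x7654312890 .nil) (.leaf 0x1345670982 0 (.node 1 4 (.cons 0x9034128765 .nil) (.node 1 5 .nil (.node 4 6 (.cons 0x5467890123 (.cons 0x8907643215 (.cons 0x6451879032 .nil))) .done .done) .done) (.leaf 0x9821345670 1 .done))) (.node 1 9 (.cons 0x8765430912 .nil) (.node 5 9 .nil (.node 3 8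 (.cons 0x7654389021 (.cons 0x4389567021 (.cons 0x7610238954 .nil))) .done (.node 0 6 (.cons 0x4597816032 .nil) (.node 0 4 (.cons 0x5678904312 .nil) (.node 0 8 .nil (.node 2 7 (.cons 0x9872345061 (.cons 0x3456721980 (.cons 0x8091276543 .nil))) .done .done) .done) .done) .done)) .done) .done)) .done)) (.node 1 3 (.cons 0x2134567890 .nil) (.node 1 9 (.cons 0x8765430912 .nil) (.node 2 8 (.cons 0x7654312890 .nil) (.leaf 0x1345670982 0 (.node 1 4 .nil (.node 3 6 (.cons 0x6345098712 (.cons 0x7890563412 (.cons 0x5410987632 .nil))) .done (.node 1 5 .nil (.node 4 6 (.cons 0x5467890123 (.cons 0x7098215643 (.cons 0x9870516432 .nil))) .done .done) .done)) (.leaf 0x9821345670 1 .done))) .done) (.node 0 6 (.cons 0x7890654312 .nil) (.node 1 9 (.cons 0x8765430912 .nil) (.node 1 4 .nil (.node 2 5 (.cons 0x6098713452 (.cons 0x9876014523 (.cons 0x9067814325 .nil))) (.leaf 0x7652143098 0 .done) (.node 1 5 .nil (.node 3 8 (.cons 0x7654389021 (.cons 0x9834517602 (.cons 0x6715438902 .nil)))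 .done .done) .done)) .done) .done) .done)) .done)) (.node 0 6 .nil (.node 3 5 (.cons 0x6789012354 (.cons 0x9876012354 .nil)) (.node 3 7 (.cons 0x9873450612 .nil) (.node 0 8 (.cons 0x9802167345 .nil) .done (.node 0 8 .nil (.node 1 9 (.cons 0x2198734560 (.cons 0x4356780912 (.cons 0x7608912345 .nil))) .done (.node 1 5 (.cons 0x9802154376 (.cons 0x9806734512 .nil)) .done .done)) .done)) (.node 0 8 .nil (.node 7 9 (.cons 0x5432089761 (.cons 0x8976012354 (.cons 0x4532167980 .nil))) .done (.node 5 9 (.cons 0x4359807612 .nil) (.node 1 5 (.cons 0x8951670234 .nil) (.node 4 8 (.cons 0x5984320761 (.cons 0x9845321067 (.cons 0x9516078432 .nil))) (.node 2 9 (.cons 0x6170534892 (.cons 0x5430617892 (.cons 0x8435176092 (.cons 0x3290678451 .nil)))) .done .done) .done) (.node 0 4 (.cons 0x3216789540 .nil) (.leaf 0x6789540321 0 .done) .done)) .done)) .done)) (.node 3 6 (.cons 0x6345098712 .nil) (.node 4 6 (.cons 0x5467890123 .nil) (.node 0 4 .nil (.node 2 9 (.cons 0x5078923461 (.cons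 0x5612987043 (.cons 0x7892165043 (.cons 0x5403298761 .nil)))) .done (.node 0 8 .nil (.node 4 7 (.cons 0x8901236745 (.cons 0x9801236745 .nil)) (.node 3 9 (.cons 0x4398705612 (.cons 0x9347805612 .nil)) (.node 2 5 (.cons 0x7893254610 (.cons 0x7108936452 (.cons 0x9325461087 (.cons 0x7164520893 .nil)))) .done .done) .done) .done) .done)) .done) (.node 2 6 (.cons 0x6217890543 .nil) (.node 0 4 .nil (.node 5 9 (.cons 0x8760954321 (.cons 0x3216789540 .nil)) (.leaf 0x4032617895 0 (.leaf 0x8954032617 1 .done)) (.node 4 9 (.cons 0x7894503261 .nil) (.leaf 0x5032617894 0 (.node 0 8 .nil (.node 2 5 (.cons 0x9876103254 (.cons 0x9436087125 (.cons 0x7809436521 .nil))) .done .done) (.leaf 0x8945032617 1 .done))) .done)) .done) .done)) .done)) .done))) (.node 1 8 (.cons 0x9816702345 .nil) (.node 1 9 (.cons 0x6198705432 .nil) (.node 2 8 (.cons 0x5432891670 .nil) (.leaf 0x4328916705 0 (.leaf 0x1982345076 0 (.node 1 4 .nil (.node 3 6 (.cons 0x6345098712 (.cons 0x8236709145 (.cons 0x9823614507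 (.cons 0x7890563412 (.cons 0x5410987632 .nil))))) .done (.node 1 5 .nil (.node 2 6 (.cons 0x9870543261 (.cons 0x9078154326 (.cons 0x9870516234 .nil))) .done .done) .done)) .done))) (.node 7 9 (.cons 0x3456189702 .nil) (.node 2 9 (.cons 0x7029816543 .nil) (.node 0 3 (.cons 0x7892165430 .nil) (.node 1 3 (.cons 0x2134567890 .nil) (.node 0 6 (.cons 0x5432987061 .nil) (.node 0 4 (.cons 0x8792165403 .nil) (.node 0 8 (.cons 0x4561297803 .nil) .done .done) .done) .done) (.node 0 6 (.cons 0x5432987061 .nil) (.node 0 4 .nil (.node 3 5 (.cons 0x6189702354 (.cons 0x2198765340 (.cons 0x8765340912 (.cons 0x8976123540 (.cons 0x8792354061 .nil))))) .done (.node 0 8 .nil (.node 1 3 (.cons 0x2134567890 (.cons 0x9087654312 .nil)) (.node 2 4 (.cons 0x5678903421 (.cons 0x3124567980 (.cons 0x8097654213 .nil))) .done .done) .done) .done)) .done) .done)) .done) .done) .done)) (.node 1 9 (.cons 0x6198705432 .nil) (.node 1 5 .nil (.node 4 6 (.cons 0x5467890123 (.cons 0x5189076432 (.cons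 0x7643209815 .nil))) (.node 2 6 (.cons 0x9870543261 (.cons 0x9870516234 .nil)) (.node 2 9 (.cons 0x7812905643 (.cons 0x6154329870 (.cons 0x6150789234 .nil))) .done .done) .done) (.node 1 3 (.cons 0x2134567890 .nil) (.node 1 4 .nil (.node 2 6 (.cons 0x9870543261 (.cons 0x7890562143 (.cons 0x9870541623 .nil))) (.node 2 9 (.cons 0x8709265431 (.cons 0x5629078143 (.cons 0x3416507892 (.cons 0x8709265413 .nil)))) .done .done) .done) .done) .done)) (.node 1 3 (.cons 0x2134567890 .nil) (.node 0 8 (.cons 0x9087654312 .nil) (.node 1 5 .nil (.node 3 7 (.cons 0x8916543702 (.cons 0x9802154376 (.cons 0x8902156734 .nil))) .done (.node 1 4 .nil (.node 2 9 (.cons 0x8923451670 (.cons 0x3416507892 (.cons 0x6145078923 .nil))) .done .done) .done)) .done) (.node 1 5 .nil (.node 2 6 (.cons 0x5432619870 (.cons 0x8709154326 (.cons 0x9870516234 (.cons 0x8907623154 .nil)))) .done (.node 1 4 .nil (.node 3 5 (.cons 0x6789012354 (.cons 0x9814356702 (.cons 0x7653418902 .nil))) .done .done) .done))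 .done)) .done)) .done)) .done)))
noncomputable def tc9_2_33 : T := (.node 2 4 (.cons 0x6509871243 .nil) (.node 4 7 .nil (.node 3 6 (.cons 0x9871243650 (.cons 0x8905634712 (.cons 0x9874210563 (.cons 0x9874501632 .nil)))) .done (.node 0 4 .nil (.node 5 9 (.cons 0x8764590123 (.cons 0x6178950432 (.cons 0x3216789540 .nil))) (.node 3 9 (.cons 0x3987654210 (.cons 0x7893405612 (.cons 0x5401678932 .nil))) (.node 5 8 (.cons 0x2178564390 (.cons 0x9856712043 (.cons 0x7165893402 (.cons 0x3904658712 .nil)))) .done .done) .done) (.node 4 8 (.cons 0x5671209843 .nil) (.node 0 7 (.cons 0x9870543216 .nil) (.node 0 3 (.cons 0x9876542103 .nil) (.node 1 4 (.cons 0x5678903412 .nil) (.node 4 9 (.cons 0x7894305612 .nil) .done .done) .done) .done) .done) .done)) (.node 2 6 (.cons 0x9874501623 .nil) (.node 3 6 (.cons 0x9871243650 .nil) (.node 2 8 (.cons 0x5476328901 .nil) (.leaf 0x3650982174 0 (.node 6 8 (.cons 0x9863247105 .nil) (.node 0 6 .nil (.node 5 9 (.cons 0x4716328950 (.cons 0x8950617432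 (.cons 0x3245987601 (.cons 0x8950632471 .nil)))) .done .done) .done) .done)) (.node 0 6 .nil (.node 5 9 (.cons 0x1623478950 (.cons 0x8950617432 (.cons 0x3245987601 (.cons 0x4236059871 .nil)))) .done .done) .done)) (.node 0 4 .nil (.node 5 9 (.cons 0x8954761023 (.cons 0x8950471623 (.cons 0x6178950432 (.cons 0x3216789540 .nil)))) .done (.node 4 8 (.cons 0x5671209843 .nil) (.node 2 8 (.cons 0x9820561743 .nil) (.node 6 8 (.cons 0x9861743205 .nil) (.node 0 8 .nil (.node 4 9 (.cons 0x7168943205 (.cons 0x5089471623 .nil)) .done .done) .done) .done) .done) .done)) .done)) .done))) (.node 0 6 (.cons 0x5609871243 .nil) (.node 3 6 (.cons 0x5634217890 .nil) (.node 2 6 .nil (.node 4 8 (.cons 0x5671209843 (.cons 0x7126348905 .nil)) (.node 7 9 (.cons 0x5489763210 (.cons 0x7984501263 .nil)) (.leaf 0x8436502179 0 (.leaf 0x1798436502 1 .done)) (.node 1 3 (.cons 0x2134567890 (.cons 0x9013267845 (.cons 0x7134890265 .nil))) .done .done)) (.node 6 9 (.cons 0x7896123450 .nil) (.node 6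 8 .nil (.node 3 7 (.cons 0x5423789610 (.cons 0x9865021734 (.cons 0x5423786901 (.cons 0x5689024371 .nil)))) .done .done) .done) .done)) (.node 6 8 .nil (.node 3 7 (.cons 0x2456378901 (.cons 0x9865021734 (.cons 0x9012456873 .nil))) .done (.node 2 6 .nil (.node 1 4 (.cons 0x5410987632 (.cons 0x5098714362 .nil)) (.node 1 5 (.cons 0x2436517890 .nil) (.node 0 8 (.cons 0x9087156342 (.cons 0x9087621543 (.cons 0x9087623451 .nil))) .done .done) .done) .done) .done)) .done)) (.node 2 9 (.cons 0x7892345061 .nil) (.node 0 4 (.cons 0x7892165043 .nil) (.node 0 7 (.cons 0x9870543216 .nil) (.node 0 3 (.cons 0x7892165034 .nil) (.node 0 8 .nil (.node 3 5 (.cons 0x6534217890 (.cons 0x9802176534 (.cons 0x4356780921 (.cons 0x7612980435 (.cons 0x9802435617 .nil))))) .done .done) .done) .done) .done) (.node 5 9 (.cons 0x8764590123 .nil) (.node 6 9 (.cons 0x7896123450 .nil) (.node 0 4 (.cons 0x7896123405 .nil) (.node 2 6 .nil (.node 4 7 (.cons 0x3298745061 (.cons 0x8950623471 (.cons 0x9874501623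 .nil))) .done .done) .done) .done) (.node 0 4 (.cons 0x6178950432 .nil) (.node 0 8 (.cons 0x9508716432 .nil) (.node 0 3 (.cons 0x4598761032 .nil) (.node 0 7 (.cons 0x8954320761 .nil) .done .done) .done) .done) .done)) .done)) .done)) .done)) (.node 5 8 (.cons 0x7645890123 .nil) (.node 0 3 (.cons 0x9856712034 .nil) (.node 3 6 (.cons 0x4365098712 .nil) (.node 0 6 (.cons 0x9850643217 .nil) (.node 0 4 (.cons 0x9856712043 .nil) (.node 0 7 (.cons 0x9854670123 .nil) .done .done) .done) (.node 0 6 (.cons 0x9850643217 .nil) (.node 6 8 (.cons 0x7123468905 .nil) (.node 6 9 (.cons 0x7896123450 .nil) .done .done) .done) .done)) (.node 0 6 (.cons 0x9850643217 .nil) (.node 3 6 (.cons 0x4365098712 .nil) (.node 7 9 (.cons 0x6432179850 .nil) (.leaf 0x4605897123 1 (.leaf 0x3460589712 0 (.node 3 8 (.cons 0x7983216450 .nil) (.node 1 8 (.cons 0x7981632054 .nil) (.node 0 8 (.cons 0x7980546123 .nil) (.node 4 8 (.cons 0x7984502361 .nil) .done .done) .done) .done) .done))) .done) (.node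 3 6 (.cons 0x4365098712 .nil) (.node 0 8 .nil (.node 7 9 (.cons 0x6432179850 (.cons 0x9763458021 (.cons 0x5432089761 (.cons 0x7980546123 .nil)))) .done (.node 0 4 (.cons 0x9856712043 .nil) (.node 0 7 (.cons 0x9854670123 .nil) .done .done) .done)) .done) .done)) (.node 0 7 (.cons 0x9854670123 .nil) (.node 0 6 (.cons 0x9850643217 .nil) (.node 6 9 (.cons 0x7896123450 .nil) (.node 0 4 (.cons 0x9856712043 .nil) (.node 3 5 (.cons 0x2043589671 .nil) (.leaf 0x4021769853 0 (.leaf 0x8534021769 1 .done)) .done) (.leaf 0x2170589643 0 .done)) .done) (.node 0 4 (.cons 0x9856712043 .nil) (.node 0 6 (.cons 0x9850643217 .nil) (.node 0 8 .nil (.node 7 9 (.cons 0x6432179850 (.cons 0x5432089761 (.cons 0x7980546123 .nil))) .done .done) .done) .done) .done)) .done))) (.node 1 5 (.cons 0x2346715890 .nil) (.node 2 5 (.cons 0x1764325890 .nil) (.node 3 5 (.cons 0x4671098532 .nil) (.node 1 3 (.cons 0x2134567890 .nil) (.node 1 4 (.cons 0x3417658902 .nil) (.node 1 8 .nil (.node 0 3 (.cons 0x9852301764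 (.cons 0x9034567812 (.cons 0x9817652034 .nil))) (.node 0 6 (.cons 0x7890654312 (.cons 0x9067812345 (.cons 0x9067815432 .nil))) .done .done) .done) .done) .done) .done) (.node 5 7 (.cons 0x8905712346 .nil) (.node 2 7 (.cons 0x3276458901 .nil) (.node 3 7 (.cons 0x2376458901 .nil) (.node 0 7 (.cons 0x9854320761 .nil) (.node 4 7 (.cons 0x9854761023 .nil) .done .done) .done) .done) .done) .done)) (.node 5 9 .nil (.node 3 7 (.cons 0x2376458901 (.cons 0x8954673210 .nil)) (.node 1 8 (.cons 0x9018546732 (.cons 0x8120954376 .nil)) (.leaf 0x5902346718 0 .done) (.node 2 4 (.cons 0x3420985671 (.cons 0x8950173246 (.cons 0x8590176423 (.cons 0x8956173420 .nil)))) .done .done)) (.node 3 5 (.cons 0x4671098532 .nil) (.node 2 5 (.cons 0x1764325890 .nil) (.node 5 7 (.cons 0x8905712346 .nil) .done .done) (.node 2 5 (.cons 0x1764325890 .nil) (.node 5 7 (.cons 0x8905712346 .nil) .done .done) .done)) .done)) .done)) (.node 0 3 (.cons 0x7645890321 .nil) (.node 3 7 (.cons 0x1237645890 .nil)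 (.node 3 6 (.cons 0x4365098712 .nil) (.node 6 8 (.cons 0x9865021734 .nil) (.node 0 6 .nil (.node 1 8 (.cons 0x9034567812 (.cons 0x9812065437 (.cons 0x9812067345 .nil))) .done .done) .done) (.node 6 8 (.cons 0x9865021734 .nil) (.node 0 6 .nil (.node 1 8 (.cons 0x9034567812 (.cons 0x9812065437 (.cons 0x9812067345 .nil))) .done .done) .done) .done)) (.leaf 0x6458901237 0 .done)) (.node 3 7 (.cons 0x1237645890 .nil) (.node 5 7 (.cons 0x4675890321 .nil) (.node 1 5 (.cons 0x4309876512 .nil) (.node 3 5 (.cons 0x4671235890 .nil) (.node 5 9 (.cons 0x8954673210 .nil) .done .done) .done) (.node 5 9 (.cons 0x8954673210 .nil) (.node 1 5 (.cons 0x4309876512 .nil) (.node 3 5 (.cons 0x4671235890 .nil) .done .done) .done) .done)) (.node 3 6 (.cons 0x4365098712 .nil) (.node 6 8 (.cons 0x7123468905 .nil) (.node 6 9 (.cons 0x7896123450 .nil) (.node 3 8 (.cons 0x7654389021 .nil) (.node 7 9 (.cons 0x5467983210 .nil) (.leaf 0x1238976450 1 (.leaf 0x8346502179 0 .done)) (.node 2 8 (.cons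 0x7128905643 .nil) (.node 1 3 (.cons 0x2134567890 .nil) (.node 3 9 (.cons 0x7128934650 .nil) .done .done) .done) .done)) .done) .done) .done) (.leaf 0x6458901237 0 .done))) (.leaf 0x9854671230 0 .done))) .done))) (.node 1 5 (.cons 0x8902346715 .nil) (.node 2 5 (.cons 0x9871643250 .nil) (.node 3 5 (.cons 0x2354678901 .nil) (.node 1 3 (.cons 0x9876452310 .nil) (.node 5 8 (.cons 0x5890234671 .nil) (.node 2 7 (.cons 0x6543127890 .nil) (.leaf 0x3172098564 0 (.leaf 0x9027134658 0 .done)) (.node 5 7 (.cons 0x6457890132 .nil) (.node 5 9 (.cons 0x2346178950 .nil) .done .done) .done)) .done) (.node 5 8 (.cons 0x5890234671 .nil) (.node 1 3 (.cons 0x9876452310 .nil) (.leaf 0x9854671320 0 (.node 5 7 (.cons 0x6457890132 .nil) .done .done)) .done) .done)) (.node 1 3 (.cons 0x1325467890 .nil) (.node 3 5 (.cons 0x2354678901 .nil) (.node 5 8 (.cons 0x4671325890 .nil) (.node 5 7 .nil (.node 2 9 (.cons 0x8764510923 (.cons 0x3298754610 (.cons 0x1643298750 .nil))) .done .done) .done)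 (.node 5 8 (.cons 0x4671325890 .nil) (.node 5 7 .nil (.node 2 9 (.cons 0x7645892310 (.cons 0x3298754610 (.cons 0x4675892310 .nil))) .done .done) .done) .done)) (.node 1 8 .nil (.node 2 7 (.cons 0x6543127890 (.cons 0x9817205643 .nil)) (.leaf 0x981723465 1 .done) (.node 1 4 (.cons 0x6417890523 .nil) (.node 1 9 .nil (.node 5 7 (.cons 0x6457890132 (.cons 0x8917502346 (.cons 0x8916754320 .nil))) .done .done) .done) .done)) .done)) .done)) (.node 5 9 (.cons 0x2346178950 .nil) (.node 3 5 (.cons 0x2354678901 .nil) (.node 5 8 (.cons 0x2346715890 .nil) (.node 6 8 (.cons 0x7150986432 .nil) (.node 2 5 (.cons 0x9871643250 .nil) (.node 5 7 (.cons 0x4321576890 .nil) .done .done) .done) .done) (.node 1 3 (.cons 0x2134567890 .nil) (.node 2 5 (.cons 0x9871643250 .nil) (.node 1 8 (.cons 0x7618954320 .nil) (.node 1 9 (.cons 0x3254678910 .nil) .done .done) (.leaf 0x1789025643 1 .done)) .done) .done)) (.node 5 8 (.cons 0x2346715890 .nil) (.node 2 5 (.cons 0x9871643250 .nil) (.node 3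 5 (.cons 0x2354678901 .nil) (.node 5 7 .nil (.node 2 9 (.cons 0x4532987610 (.cons 0x3298754610 (.cons 0x1643298750 .nil))) .done .done) .done) .done) (.node 1 3 (.cons 0x2134567890 .nil) (.node 3 5 (.cons 0x2354678901 .nil) (.node 3 7 (.cons 0x8901546732 .nil) (.node 7 9 (.cons 0x1679854320 .nil) (.node 0 3 (.cons 0x4598761230 .nil) (.node 0 6 (.cons 0x9876012354 .nil) (.node 0 7 (.cons 0x9854320761 .nil) .done .done) .done) .done) .done) .done) (.node 2 7 (.cons 0x6543127890 .nil) (.node 1 8 (.cons 0x9817205643 .nil) (.node 1 9 (.cons 0x7619854320 .nil) .done .done) (.leaf 0x3172098564 0 (.leaf 0x9027134658 0 .done))) .done)) .done)) .done)) .done)) .done)))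
noncomputable def tc9_2_34 : T := (.node 1 7 (.cons 0x8902176543 .nil) (.node 1 5 .nil (.node 6 8 (.cons 0x9054321786 (.cons 0x7689023451 .nil)) (.node 4 6 (.cons 0x5467890123 (.cons 0x9051234687 (.cons 0x9051786432 .nil))) (.node 3 7 (.cons 0x8901237645 (.cons 0x8902156734 (.cons 0x8901546732 .nil))) (.node 0 8 (.cons 0x9801237645 (.cons 0x9802154376 (.cons 0x9801546732 .nil))) .done .done) .done) (.node 3 8 (.cons 0x7654389021 (.cons 0x7651209834 (.cons 0x9023867154 .nil))) (.node 3 7 (.cons 0x8902156734 .nil) (.node 4 6 (.cons 0x5467890123 (.cons 0x9054687321 (.cons 0x8901237645 (.cons 0x9832015467 .nil)))) .done (.node 4 9 (.cons 0x7320549861 (.cons 0x6738945102 (.cons 0x9451768320 .nil))) (.leaf 0x3716894502 1 (.leaf 0x2371689450 0 .done)) .done)) (.node 4 6 (.cons 0x5467890123 (.cons 0x9023864517 .nil)) (.node 7 9 (.cons 0x7983456120 (.cons 0x2156438790 (.cons 0x7902154683 (.cons 0x8976154320 (.cons 0x6451238790 .nil))))) .done (.node 3 7 (.cons 0x9021738654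 (.cons 0x8902156734 (.cons 0x8901546732 .nil))) (.node 0 8 (.cons 0x9801237645 (.cons 0x9802156734 (.cons 0x9802154376 (.cons 0x9801546732 .nil)))) .done .done) .done)) .done)) .done)) (.node 1 3 (.cons 0x2134567890 .nil) (.node 1 4 .nil (.node 2 7 (.cons 0x6543127890 (.cons 0x6509872143 .nil)) (.node 3 7 (.cons 0x6509873412 .nil) (.node 2 4 (.cons 0x6542109873 .nil) (.node 4 6 (.cons 0x8901237645 (.cons 0x8901546732 .nil)) .done .done) (.node 1 8 (.cons 0x5673418902 .nil) (.node 1 9 (.cons 0x8914372056 .nil) .done .done) .done)) (.node 0 6 (.cons 0x7890654312 (.cons 0x3145609872 .nil)) (.node 5 9 (.cons 0x8760954321 (.cons 0x8723145906 (.cons 0x8760954123 .nil))) .done (.leaf 0x9872134560 0 .done)) .done)) (.node 1 8 .nil (.node 0 6 (.cons 0x7890654312 (.cons 0x9067812345 (.cons 0x7609815432 .nil))) (.node 2 7 (.cons 0x6543127890 .nil) (.leaf 0x3127890654 0 (.node 0 3 (.cons 0x9872165034 (.cons 0x9034567812 (.cons 0x4309815672 .nil))) .done (.leaf 0x9872134560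 0 .done))) .done) (.node 1 9 .nil (.node 3 8 (.cons 0x7654389021 (.cons 0x7654389120 (.cons 0x8345671902 .nil))) .done .done) .done)) .done)) (.node 0 3 .nil (.node 5 9 (.cons 0x4598761032 (.cons 0x4598761230 .nil)) (.node 2 9 (.cons 0x7892165430 (.cons 0x7892165034 .nil)) (.node 4 7 (.cons 0x6509874312 (.cons 0x8956743120 (.cons 0x6129874503 (.cons 0x8954761023 .nil)))) .done .done) .done) (.node 3 5 (.cons 0x6789012354 .nil) (.node 3 7 .nil (.node 6 8 (.cons 0x9054321786 (.cons 0x4510986732 (.cons 0x4512376890 .nil))) (.node 0 6 (.cons 0x9876012354 .nil) (.node 4 9 (.cons 0x6789453210 (.cons 0x8650943712 (.cons 0x7349861205 (.cons 0x6105498732 .nil)))) (.leaf 0x3549876012 0 .done) .done) .done) (.node 3 8 (.cons 0x7654389021 .nil) (.node 1 8 (.cons 0x9034567812 .nil) (.node 1 9 (.cons 0x8765430912 .nil) (.node 1 4 .nil (.node 2 7 (.cons 0x8916543720 (.cons 0x9837201456 (.cons 0x6509872143 (.cons 0x9038721456 .nil)))) .done .done) .done) .done) .done) .done)) (.node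 3 7 .nil (.node 6 8 (.cons 0x9054321786 (.cons 0x4510986732 (.cons 0x4512376890 .nil))) (.node 1 4 (.cons 0x6789014532 (.cons 0x7341209865 .nil)) (.node 2 6 (.cons 0x4532678901 (.cons 0x8902673541 .nil)) (.leaf 0x987623541 1 .done) .done) .done) (.node 3 8 (.cons 0x7654389021 .nil) (.node 1 8 (.cons 0x9034567812 .nil) (.node 1 4 (.cons 0x6789014532 .nil) (.node 1 9 (.cons 0x8765430912 .nil) .done .done) .done) .done) .done)) .done)) (.node 3 7 .nil (.node 6 8 (.cons 0x9054321786 (.cons 0x4510986732 (.cons 0x4512376890 .nil))) (.node 0 8 (.cons 0x9802167345 .nil) (.node 3 9 (.cons 0x8093456712 (.cons 0x6543908712 .nil)) .done .done) .done) (.node 3 8 (.cons 0x7654389021 .nil) (.node 3 5 (.cons 0x6789012354 .nil) (.node 1 8 .nil (.node 2 7 (.cons 0x6509872134 (.cons 0x4309815672 (.cons 0x6723098154 .nil))) .done (.node 3 9 .nil (.node 2 4 (.cons 0x9876103245 (.cons 0x3987654210 (.cons 0x8765421093 (.cons 0x7893016542 .nil)))) .done (.node 3 6 .nil (.node 2 7 (.cons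 0x6509872134 (.cons 0x4365098721 (.cons 0x4518903672 .nil))) .done .done) .done)) .done)) .done) .done) .done)) .done))) .done)) .done)) (.node 4 6 (.cons 0x3465098712 .nil) tc9_2_33 (.node 0 7 (.cons 0x9870543216 .nil) tc9_2_32 .done))) (.node 1 7 (.cons 0x8902176543 .nil) tc9_2_31 (.node 5 8 (.cons 0x7612345890 .nil) (.node 1 5 .nil (.node 3 8 (.cons 0x7654389021 (.cons 0x7651209834 .nil)) (.node 4 6 (.cons 0x5467890123 .nil) (.node 3 9 (.cons 0x5467893210 (.cons 0x2398764510 .nil)) (.leaf 0x2105467893 0 (.node 0 7 (.cons 0x9854321670 (.cons 0x9870512346 (.cons 0x6439870512 (.cons 0x8907615432 .nil)))) (.node 2 4 (.cons 0x9387012465 (.cons 0x8765124390 (.cons 0x8709342156 .nil))) .done .done) .done)) (.node 7 9 (.cons 0x2156438790 (.cons 0x6451097832 (.cons 0x6451238790 .nil))) (.node 6 9 (.cons 0x1234697850 (.cons 0x7964583201 (.cons 0x7832154690 .nil))) .done (.node 3 6 (.cons 0x5463879012 (.cons 0x8976345120 (.cons 0x4367985120 (.cons 0x4510987632 .nil))))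 .done .done)) (.node 1 8 (.cons 0x7643209815 .nil) (.node 4 8 (.cons 0x7651209843 .nil) (.node 3 5 (.cons 0x9012354876 (.cons 0x7610984532 .nil)) (.node 1 7 (.cons 0x9851764320 .nil) (.node 0 8 (.cons 0x9802346715 (.cons 0x9802345176 .nil)) .done (.node 6 8 (.cons 0x9051786432 (.cons 0x9023864517 .nil)) .done .done)) .done) .done) .done) .done))) (.node 4 6 (.cons 0x5467890123 (.cons 0x9832015467 (.cons 0x9015467832 .nil))) (.node 1 7 (.cons 0x9851764320 (.cons 0x6715438902 .nil)) (.node 6 9 (.cons 0x6987123450 (.cons 0x2346987150 (.cons 0x4517698320 .nil))) .done (.node 6 8 (.cons 0x9054321786 (.cons 0x9051786432 (.cons 0x9023867154 .nil))) .done .done)) .done) .done)) (.node 3 5 (.cons 0x6789012354 .nil) (.node 2 5 .nil (.node 4 6 (.cons 0x5467890123 (.cons 0x3254678901 .nil)) (.node 0 3 (.cons 0x4309876521 (.cons 0x9876452301 .nil)) (.node 7 9 (.cons 0x8976453210 (.cons 0x2167985430 (.cons 0x4589761032 (.cons 0x4589761230 .nil)))) (.node 0 4 (.cons 0x8976401253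 (.cons 0x1679852340 .nil)) (.node 0 7 (.cons 0x9854307612 (.cons 0x8970523461 .nil)) .done .done) .done) (.node 0 7 (.cons 0x9854321670 (.cons 0x8907612543 .nil)) (.node 1 9 (.cons 0x8765430912 (.cons 0x3465219870 (.cons 0x8765219034 (.cons 0x8912534670 .nil)))) .done (.leaf 0x4321670985 0 .done)) .done)) (.node 1 3 (.cons 0x2134567890 (.cons 0x4312567890 .nil)) (.leaf 0x2546789013 0 (.node 0 6 (.cons 0x7890654312 (.cons 0x7890652134 .nil)) (.node 1 7 (.cons 0x9854320671 (.cons 0x4317890652 (.cons 0x6098713452 .nil))) (.node 1 8 (.cons 0x9067815432 (.cons 0x9067815234 (.cons 0x9817602543 .nil))) .done .done) .done) .done)) .done)) (.node 5 9 .nil (.node 0 6 (.cons 0x8760954321 (.cons 0x8760951234 .nil)) (.node 5 7 (.cons 0x8906754321 .nil) (.node 1 9 (.cons 0x4320675891 (.cons 0x7602198543 .nil)) (.node 2 6 (.cons 0x1987543260 (.cons 0x8754326091 (.cons 0x8751906234 .nil))) .done .done) .done) (.node 4 6 (.cons 0x5467890123 (.cons 0x8764590123 .nil)) (.node 0 8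 (.cons 0x9801235467 (.cons 0x9512346780 .nil)) (.node 1 3 (.cons 0x2134567890 (.cons 0x4598760132 (.cons 0x7895460132 (.cons 0x7643120895 .nil)))) .done .done) .done) .done)) (.node 5 7 .nil (.node 3 8 (.cons 0x7654389021 (.cons 0x4576109832 .nil)) (.node 4 6 (.cons 0x5467890123 (.cons 0x9012387546 (.cons 0x7546109832 .nil))) (.node 1 8 (.cons 0x7645981023 (.cons 0x1895764320 .nil)) (.node 3 9 (.cons 0x5467893210 (.cons 0x5764398120 .nil)) .done .done) .done) (.node 2 4 (.cons 0x7653890124 (.cons 0x4238957610 (.cons 0x7561243890 .nil))) (.node 3 9 (.cons 0x8765421093 (.cons 0x6578390124 .nil)) .done .done) .done)) .done) .done)) .done)) (.node 3 8 (.cons 0x7654389021 .nil) (.node 4 8 (.cons 0x7610984532 .nil) (.node 1 8 .nil (.node 4 6 (.cons 0x2354678901 (.cons 0x9810235467 (.cons 0x9018764532 .nil))) (.node 5 7 (.cons 0x7546109832 .nil) (.leaf 0x234675189 0 .done) .done) (.node 1 3 (.cons 0x2134567890 .nil) (.node 1 7 (.cons 0x4356718902 .nil) (.node 2 5 (.cons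 0x6718902534 .nil) (.node 2 8 (.cons 0x7610982354 .nil) .done .done) .done) .done) .done)) (.node 2 5 (.cons 0x7610984523 .nil) (.node 5 7 .nil (.node 2 6 (.cons 0x4532678901 (.cons 0x9016238457 (.cons 0x7509843261 .nil))) (.node 4 6 (.cons 0x2354678901 (.cons 0x9012387546 .nil)) .done .done) .done) .done) .done)) (.node 0 3 .nil (.node 1 7 (.cons 0x8902176543 (.cons 0x9856712034 (.cons 0x9854302176 .nil))) (.node 6 9 (.cons 0x6987123450 (.cons 0x4305698712 (.cons 0x6987123054 .nil))) (.node 2 4 (.cons 0x6987105423 (.cons 0x9876542103 (.cons 0x9678542301 (.cons 0x3017896542 .nil)))) .done .done) .done) (.node 3 6 .nil (.node 1 7 (.cons 0x8902176543 (.cons 0x4365098712 (.cons 0x9854367120 .nil))) (.node 3 7 (.cons 0x4563789012 .nil) .done .done) (.node 3 7 .nil (.node 0 4 (.cons 0x9043876512 (.cons 0x9854016732 .nil)) (.node 2 8 (.cons 0x9034567821 (.cons 0x7345612890 (.cons 0x2890453761 .nil))) .done .done) .done) .done)) .done)) .done)) .done)) .done)) (.node 4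 6 (.cons 0x5467890123 .nil) tc9_2_29 (.node 0 3 (.cons 0x7612309854 .nil) tc9_2_28 .done))) (.node 1 7 (.cons 0x8902176543 .nil) tc9_2_27 .done))))
noncomputable def uc9_2_5 : T := tc9_2_34
theorem sub_c9_2_5 : root 9 refs9_2 [] 0x700000008706000000006050000000050300000000304000500004010000000010300000000302600000002018000500610 0xfe7fff3fff9fffd7ffc7ffedfff5ffb3fff9fe9d 9 1 6 (.cons 0x5432167890 .nil) uc9_2_5 = true := by decide +kernel
noncomputable def tc9_2_35 : T := (.node 3 9 (.cons 0x8765439021 .nil) (.node 0 6 .nil (.node 1 9 (.cons 0x5432198760 .nil) (.node 3 7 (.cons 0x4378905612 (.cons 0x9065437812 (.cons 0x6543781902 .nil))) (.node 0 7 (.cons 0x5437069812 (.cons 0x8196543702 .nil)) (.leaf 0x6543702189 1 .done) (.node 4 6 (.cons 0x2198734650 (.cons 0x8734650912 (.cons 0x5643781902 .nil))) .done .done)) (.node 1 7 (.cons 0x8712093456 (.cons 0x2178934560 .nil)) (.node 5 8 (.cons 0x8543217690 (.cons 0x9120678543 (.cons 0x6093217854 .nil))) (.node 2 4 (.cons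 0x5876190243 (.cons 0x9324587106 .nil)) (.node 5 7 (.cons 0x8576190243 (.cons 0x7543218960 (.cons 0x8571609324 .nil))) .done (.leaf 0x658712439 0 .done)) .done) .done) .done)) (.node 1 9 .nil (.node 2 7 (.cons 0x8720654391 .nil) (.leaf 0x3278916054 1 (.node 4 6 (.cons 0x3465098721 (.cons 0x5064327891 (.cons 0x8721905643 .nil))) .done (.leaf 0x8916054327 0 .done))) (.node 1 7 (.cons 0x8712093456 .nil) (.node 4 9 (.cons 0x5061789432 .nil) (.node 2 9 (.cons 0x6054329871 .nil) (.node 2 7 (.cons 0x5432718960 .nil) (.node 7 9 (.cons 0x8179602345 .nil) .done .done) (.leaf 0x8716054329 0 .done)) .done) (.node 2 6 (.cons 0x8712654390 .nil) (.node 3 6 (.cons 0x7891263450 .nil) (.node 4 6 (.cons 0x5467890123 .nil) .done .done) (.node 6 8 (.cons 0x2178654390 .nil) (.node 3 6 (.cons 0x9120543687 .nil) (.node 4 6 (.cons 0x5467890123 .nil) .done .done) .done) .done)) .done)) .done)) .done)) (.node 0 6 .nil (.node 3 7 (.cons 0x4378905612 (.cons 0x9065437812 .nil)) (.node 7 9 (.cons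 0x8120697345 .nil) (.leaf 0x8123456097 0 (.leaf 0x6021879345 0 (.leaf 0x5602189734 0 .done))) (.node 5 7 (.cons 0x6578120934 (.cons 0x7543218960 (.cons 0x4390657812 .nil))) (.node 1 9 (.cons 0x6543781902 .nil) (.node 7 9 (.cons 0x9781206543 .nil) (.leaf 0x8123456097 0 .done) .done) .done) .done)) (.node 1 9 .nil (.node 2 7 (.cons 0x6054327891 .nil) (.leaf 0x6027819345 0 (.node 4 6 (.cons 0x3465098721 (.cons 0x5064327891 (.cons 0x8721905643 .nil))) .done (.leaf 0x8916054327 0 .done))) (.node 4 6 (.cons 0x5467890123 .nil) (.node 6 8 (.cons 0x7864391205 .nil) (.node 2 6 .nil (.node 1 7 (.cons 0x2178934650 (.cons 0x4398712650 (.cons 0x8712650934 .nil))) .done .done) .done) (.node 3 6 .nil (.node 4 7 (.cons 0x3478905612 (.cons 0x4789365012 (.cons 0x5098743612 .nil))) (.leaf 0x936547812 1 .done) (.node 2 6 (.cons 0x7891263450 .nil) (.node 6 8 (.cons 0x9120543687 .nil) .done .done) .done)) .done)) .done)) .done)) (.leaf 0x5439021876 0 .done))) (.node 0 6 .nil (.node 1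 5 (.cons 0x8769023451 (.cons 0x9602345187 .nil)) (.node 5 7 (.cons 0x6902345781 (.cons 0x9602345781 .nil)) (.node 3 5 (.cons 0x6789012354 (.cons 0x9876012354 .nil)) (.node 1 3 (.cons 0x2134567890 .nil) (.node 5 9 (.cons 0x6187590234 (.cons 0x7813206954 .nil)) .done .done) .done) (.node 4 6 (.cons 0x9064578123 (.cons 0x7546098123 .nil)) (.node 3 9 (.cons 0x5467893210 (.cons 0x1239875460 (.cons 0x4605789321 .nil))) (.leaf 0x2105467893 0 .done) .done) .done)) (.node 5 9 (.cons 0x1234598760 .nil) (.node 1 9 (.cons 0x5432198760 .nil) (.node 3 7 (.cons 0x2096543781 (.cons 0x5437819602 (.cons 0x9065437812 (.cons 0x6590218734 (.cons 0x4378165902 .nil))))) .done .done) (.node 1 3 (.cons 0x2134567890 (.cons 0x7813206954 .nil)) (.node 2 5 (.cons 0x8769013254 .nil) (.node 0 7 (.cons 0x7069815234 (.cons 0x9607813452 .nil)) (.node 1 9 (.cons 0x6198705234 (.cons 0x3452198760 .nil)) .done .done) .done) .done) .done)) .done)) (.node 4 6 (.cons 0x5467890123 .nil) (.node 3 6 .nil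 (.node 1 7 (.cons 0x8906712345 (.cons 0x4501789632 (.cons 0x6345098712 .nil))) (.leaf 0x2364509871 0 .done) (.node 6 8 .nil (.node 1 7 (.cons 0x8906712345 (.cons 0x9860543217 (.cons 0x2345096871 (.cons 0x9054368712 .nil)))) .done (.node 2 6 .nil (.node 1 7 (.cons 0x8906712345 (.cons 0x1789623450 (.cons 0x6217890543 .nil))) (.leaf 0x6234501789 0 .done) .done) .done)) .done)) (.node 3 6 .nil (.node 4 7 (.cons 0x3478905612 (.cons 0x2369874501 (.cons 0x5098743612 .nil))) (.node 2 7 (.cons 0x3456902781 (.cons 0x9810632745 (.cons 0x4365098721 (.cons 0x5472360981 .nil)))) .done .done) (.node 2 6 .nil (.node 1 7 (.cons 0x4501789632 (.cons 0x1789623450 (.cons 0x9871263450 .nil))) (.leaf 0x6234501789 0 .done) (.node 6 8 .nil (.node 1 7 (.cons 0x4501789632 (.cons 0x9860543217 (.cons 0x2345096871 .nil))) (.node 3 9 (.cons 0x8765439021 (.cons 0x8671209345 (.cons 0x7865439021 (.cons 0x5093468712 .nil)))) .done .done) .done) .done)) .done)) .done)) .done)) (.node 3 7 (.cons 0x4378905612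 .nil) (.node 0 6 (.cons 0x4506987321 .nil) (.node 2 6 .nil (.node 7 9 (.cons 0x2189734560 (.cons 0x5437981260 (.cons 0x3456209781 .nil))) (.leaf 0x6543798120 1 .done) (.node 6 8 .nil (.node 1 7 (.cons 0x8906712345 (.cons 0x4509687123 (.cons 0x9860543712 .nil))) .done (.node 4 6 (.cons 0x1237896450 .nil) (.node 3 6 .nil (.node 1 7 (.cons 0x8906712345 (.cons 0x8712369054 (.cons 0x9871263450 .nil))) .done .done) .done) .done)) .done)) (.node 0 4 (.cons 0x9873405612 .nil) (.node 0 3 (.cons 0x7304569812 .nil) (.node 0 7 (.cons 0x3704569812 .nil) (.node 0 8 (.cons 0x5408967321 .nil) .done .done) .done) (.node 5 9 (.cons 0x4596023781 .nil) (.node 6 8 (.cons 0x4598673210 .nil) (.leaf 0x9540123768 0 .done) (.node 4 9 (.cons 0x5496023781 .nil) (.node 0 8 (.cons 0x7349561802 .nil) (.leaf 0x1237654980 1 .done) (.node 0 8 (.cons 0x2087349561 .nil) (.node 0 7 .nil (.node 2 4 (.cons 0x9561873420 (.cons 0x9561870243 (.cons 0x5423706981 .nil))) .done .done) .done) .done)) .done))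 .done)) .done)) (.node 0 6 (.cons 0x9065437812 .nil) (.node 2 6 .nil (.node 1 7 (.cons 0x8906712345 (.cons 0x6217890543 .nil)) (.node 0 3 (.cons 0x4569037812 (.cons 0x9871265034 (.cons 0x4503269871 .nil))) .done .done) (.node 6 8 (.cons 0x4509687321 .nil) (.node 3 6 .nil (.node 1 7 (.cons 0x8906712345 (.cons 0x9871263450 .nil)) (.node 2 4 (.cons 0x3781245690 (.cons 0x9863245017 (.cons 0x7890124563 .nil))) .done .done) .done) .done) .done)) (.node 6 8 (.cons 0x4509687321 .nil) (.node 3 6 .nil (.node 2 4 (.cons 0x3781245690 (.cons 0x7890124563 .nil)) (.leaf 0x6542109873 0 (.node 2 6 (.cons 0x7890543621 .nil) .done .done)) (.node 2 6 .nil (.node 0 3 (.cons 0x4569037812 .nil) (.node 3 9 (.cons 0x8765439021 (.cons 0x8739012654 .nil)) (.leaf 0x5439021876 0 .done) .done) .done) .done)) .done) .done)) (.node 2 6 (.cons 0x4378905621 .nil) (.node 5 9 (.cons 0x6590218734 .nil) (.node 3 9 (.cons 0x8765439021 .nil) (.node 6 8 (.cons 0x7865439021 .nil) (.node 1 9 (.cons 0x4378912650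 .nil) (.node 4 9 (.cons 0x5026873491 .nil) (.node 7 9 (.cons 0x3450268791 .nil) .done .done) .done) .done) (.leaf 0x5439021876 0 .done)) (.node 7 9 .nil (.node 0 3 (.cons 0x4598762301 (.cons 0x7981265430 .nil)) (.leaf 0x8796543021 0 .done) (.node 1 9 (.cons 0x4378195620 .nil) (.node 3 9 (.cons 0x8765439021 .nil) (.node 4 9 (.cons 0x1873495620 .nil) .done .done) .done) .done)) .done)) (.node 0 7 (.cons 0x7098126543 .nil) (.node 0 6 .nil (.node 7 9 (.cons 0x9781206543 .nil) (.leaf 0x8123456097 0 (.leaf 0x978123456 1 .done)) (.node 0 4 (.cons 0x7340981265 .nil) (.node 0 3 .nil (.node 2 4 (.cons 0x6509873421 (.cons 0x9876542103 (.cons 0x7890342165 .nil))) .done .done) .done) .done)) (.node 0 6 .nil (.node 2 4 (.cons 0x6509873421 (.cons 0x5609873421 .nil)) (.node 1 5 (.cons 0x9815624370 (.cons 0x9815432607 (.cons 0x9607815423 (.cons 0x9815607342 .nil)))) .done .done) .done) .done)) .done)) (.leaf 0x965437812 1 .done)))) .done)))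
noncomputable def tc9_2_36 : T := (.node 2 7 (.cons 0x8903456721 .nil) (.node 2 8 (.cons 0x7654309821 .nil) (.node 2 4 .nil (.node 1 3 (.cons 0x2134567890 (.cons 0x7658903124 .nil)) (.leaf 0x8765423109 0 (.leaf 0x7890132456 1 (.node 0 6 (.cons 0x9872134560 (.cons 0x9872456013 .nil)) (.leaf 0x3127890654 0 .done) .done))) (.node 2 5 .nil (.node 3 7 (.cons 0x7345612890 (.cons 0x8901673254 .nil)) (.node 4 7 (.cons 0x3216745890 (.cons 0x8901674523 .nil)) (.node 3 8 (.cons 0x9021674583 (.cons 0x9830125476 (.cons 0x5216743890 (.cons 0x3890167452 .nil)))) .done .done) (.node 0 4 (.cons 0x3765890421 (.cons 0x4098521673 (.cons 0x7340982561 .nil))) .done .done)) .done) .done)) (.node 0 8 (.cons 0x9803456721 .nil) (.node 0 4 .nil (.node 3 9 (.cons 0x8765439021 (.cons 0x6540127893 (.cons 0x4039856721 (.cons 0x1672398540 .nil)))) .done (.node 0 7 (.cons 0x4589076123 .nil) (.node 0 6 .nil (.node 5 9 (.cons 0x8954016723 (.cons 0x3459806721 .nil)) (.node 1 4 (.cons 0x8950723416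 (.cons 0x9854123067 (.cons 0x5906782341 (.cons 0x7289560341 (.cons 0x5982760341 .nil))))) .done .done) .done) .done) .done)) (.node 0 4 .nil (.node 3 9 (.cons 0x8765439021 (.cons 0x6540127893 (.cons 0x4039856721 (.cons 0x1672398540 .nil)))) .done (.node 0 7 (.cons 0x4589076123 .nil) (.node 0 6 .nil (.node 1 4 (.cons 0x9854123067 (.cons 0x9067854123 .nil)) (.node 3 6 (.cons 0x9870563412 (.cons 0x9056341287 (.cons 0x9872143650 (.cons 0x9023678541 .nil)))) .done (.node 3 5 (.cons 0x6789012354 (.cons 0x9870653412 (.cons 0x9065341287 (.cons 0x9853270614 .nil)))) .done .done)) .done) .done) .done)) .done)) .done)) (.node 0 7 (.cons 0x4589076123 .nil) (.node 1 7 (.cons 0x8903456712 .nil) (.node 0 4 (.cons 0x9854032176 .nil) (.node 0 6 (.cons 0x9871234506 .nil) (.node 0 8 (.cons 0x9803456712 .nil) .done .done) .done) (.node 2 8 (.cons 0x7654309821 .nil) (.node 2 5 (.cons 0x8907612543 .nil) (.node 5 9 (.cons 0x3459821670 .nil) (.leaf 0x4598216703 1 .done) .done) (.node 3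 7 (.cons 0x7345612890 .nil) (.node 4 7 (.cons 0x3216745890 .nil) (.node 5 7 (.cons 0x6128907543 .nil) .done .done) (.node 1 5 (.cons 0x6154370982 .nil) (.node 5 7 (.cons 0x6128907543 .nil) .done .done) .done)) .done)) .done)) (.node 3 7 (.cons 0x8905612734 .nil) (.node 0 6 .nil (.node 1 4 (.cons 0x4127658903 (.cons 0x9854123067 (.cons 0x9067854123 (.cons 0x9854160732 .nil)))) (.leaf 0x5890673214 0 .done) (.node 0 8 (.cons 0x9805612734 .nil) (.node 0 4 .nil (.node 2 9 (.cons 0x5437612980 (.cons 0x8921045673 (.cons 0x5604378921 (.cons 0x5408921673 .nil)))) .done .done) .done) .done)) (.node 1 7 (.cons 0x8903456712 .nil) (.node 0 4 (.cons 0x9854032176 .nil) (.node 4 7 (.cons 0x3216745890 .nil) .done .done) (.node 4 7 (.cons 0x3216745890 .nil) (.node 5 7 .nil (.node 6 8 (.cons 0x9865034721 (.cons 0x9861234750 (.cons 0x4327509861 .nil))) (.leaf 0x7543210986 0 .done) .done) .done) .done)) .done)) .done)) (.node 3 5 (.cons 0x6789012354 .nil) (.node 0 6 (.cons 0x9876012354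 .nil) (.node 1 5 .nil (.node 0 4 (.cons 0x9876043512 (.cons 0x8904516723 .nil)) (.node 1 9 (.cons 0x2198765340 (.cons 0x5340678912 .nil)) (.leaf 0x3219876045 0 .done) .done) (.node 2 5 .nil (.node 1 3 (.cons 0x2134567890 (.cons 0x7890652134 (.cons 0x4312567890 .nil))) .done (.node 5 9 (.cons 0x8760951234 .nil) (.node 5 7 .nil (.node 1 4 (.cons 0x8760951432 (.cons 0x9857603214 (.cons 0x8906752143 .nil))) (.node 1 8 (.cons 0x7654309812 (.cons 0x6032759814 (.cons 0x8167590234 (.cons 0x6754309812 .nil)))) .done .done) .done) .done) .done)) .done)) (.node 0 4 .nil (.node 1 8 (.cons 0x7654309812 (.cons 0x9812765403 (.cons 0x9816045327 (.cons 0x9812765304 .nil)))) (.node 2 9 (.cons 0x4532987601 (.cons 0x3540672981 (.cons 0x7298160453 (.cons 0x1298765340 .nil)))) .done .done) (.node 0 7 (.cons 0x4589076123 .nil) (.node 0 8 .nil (.node 2 9 (.cons 0x4532987601 (.cons 0x4356708921 (.cons 0x7089216534 (.cons 0x7612980435 .nil)))) .done .done) .done) .done)) .done)) (.node 1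 5 .nil (.node 0 4 (.cons 0x8904516723 .nil) (.node 6 9 (.cons 0x8769012354 (.cons 0x4096785321 (.cons 0x8769023451 (.cons 0x8769045321 .nil)))) .done (.node 6 9 (.cons 0x8769012354 (.cons 0x8769043512 (.cons 0x8769023451 .nil))) (.node 2 8 (.cons 0x3540967821 (.cons 0x7698215403 (.cons 0x4096782153 .nil))) (.leaf 0x1534096782 0 .done) .done) .done)) (.node 1 3 (.cons 0x2134567890 .nil) (.node 0 6 (.cons 0x7890654312 .nil) (.leaf 0x9872134560 0 (.node 0 4 (.cons 0x6540987213 .nil) (.node 0 7 (.cons 0x4589076123 .nil) (.node 0 8 .nil (.node 6 9 (.cons 0x4513278960 (.cons 0x9678043512 (.cons 0x7698032154 .nil))) .done .done) .done) .done) .done)) (.node 2 5 (.cons 0x4312567890 .nil) (.node 0 4 (.cons 0x5678904312 .nil) (.node 5 7 (.cons 0x8904312576 .nil) (.node 5 9 (.cons 0x8765902134 .nil) .done .done) (.leaf 0x9876521340 1 .done)) .done) .done)) .done)) (.node 4 8 (.cons 0x1672354890 .nil) (.leaf 0x5327610984 0 (.node 2 8 (.cons 0x7654309821 .nil) (.node 7 9 (.cons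 0x4532897610 .nil) (.leaf 0x2897654301 0 (.node 2 6 (.cons 0x4532678901 .nil) (.node 0 4 (.cons 0x8904532761 .nil) (.node 1 4 (.cons 0x7982614350 .nil) (.leaf 0x8762354109 0 (.leaf 0x7890145326 1 .done)) (.leaf 0x1679823540 0 .done)) .done) (.leaf 0x5679821034 0 .done))) (.node 2 6 (.cons 0x4532678901 .nil) (.node 3 8 .nil (.node 2 4 (.cons 0x7654210983 .nil) (.leaf 0x9835427610 1 .done) (.node 1 8 (.cons 0x4532761890 .nil) (.node 3 9 (.cons 0x8765439021 .nil) (.node 1 3 (.cons 0x2134567890 .nil) (.leaf 0x2765489031 1 (.node 1 9 (.cons 0x4532678910 .nil) .done .done)) (.leaf 0x218765439 0 .done)) .done) .done)) .done) .done)) (.leaf 0x9845327610 1 (.node 0 4 (.cons 0x8904532761 .nil) (.node 0 8 .nil (.node 4 7 (.cons 0x3216745890 (.cons 0x9801674532 (.cons 0x9085476123 .nil))) .done (.node 0 7 (.cons 0x4589076123 .nil) (.node 0 6 .nil (.node 1 4 (.cons 0x6789014532 (.cons 0x9876014532 (.cons 0x9067854123 (.cons 0x6098723541 .nil)))) .done .done) .done) .done)) .done)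 .done)))) .done))) .done))) (.node 1 5 (.cons 0x4309876512 .nil) (.node 2 5 (.cons 0x4309876521 .nil) (.node 0 6 .nil (.node 1 3 (.cons 0x2134567890 (.cons 0x7890654312 .nil)) (.node 3 5 (.cons 0x6789012354 .nil) (.node 5 9 (.cons 0x1234598760 .nil) (.node 3 6 (.cons 0x4598763210 .nil) .done .done) .done) .done) (.node 0 7 (.cons 0x4589076123 .nil) (.node 0 8 .nil (.node 4 7 (.cons 0x3216745890 (.cons 0x9803476521 (.cons 0x9085476123 .nil))) (.node 0 4 (.cons 0x9851674032 .nil) (.node 6 9 (.cons 0x2304769851 (.cons 0x1523476980 (.cons 0x4769803251 .nil))) .done .done) .done) .done) .done) .done)) .done) (.node 1 3 (.cons 0x2134567890 .nil) (.node 0 7 (.cons 0x4589076123 .nil) (.node 3 8 (.cons 0x5438907612 .nil) (.node 1 7 (.cons 0x9021783456 .nil) (.node 1 8 (.cons 0x9021876543 .nil) (.node 3 9 (.cons 0x8765439021 .nil) (.node 3 5 (.cons 0x6789012354 .nil) (.node 5 9 (.cons 0x6781209543 .nil) .done .done) (.leaf 0x4390218765 1 .done)) .done) .done) (.node 0 8 .nil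 (.node 7 9 (.cons 0x4583209761 (.cons 0x8097615432 (.cons 0x4516790832 .nil))) (.leaf 0x1345679802 0 .done) .done) .done)) (.node 0 6 .nil (.node 0 8 .nil (.node 5 9 (.cons 0x4598760132 (.cons 0x7612345980 (.cons 0x7608954321 .nil))) .done (.node 5 9 (.cons 0x9543120876 (.cons 0x7608954312 (.cons 0x4598760132 .nil))) .done .done)) .done) .done)) (.node 0 6 (.cons 0x7890654312 .nil) (.node 0 7 (.cons 0x4589076123 .nil) (.node 0 8 .nil (.node 2 5 (.cons 0x4309876521 (.cons 0x9807612543 .nil)) (.node 4 7 (.cons 0x3216745890 (.cons 0x9803476521 (.cons 0x9085476123 .nil))) (.node 1 4 (.cons 0x5678903412 (.cons 0x9803412567 .nil)) (.node 1 9 (.cons 0x8760915432 (.cons 0x8091523476 .nil)) .done .done) .done) .done) .done) .done) .done) .done)) .done)) (.node 0 7 (.cons 0x4589076123 .nil) (.node 0 6 .nil (.node 2 7 (.cons 0x4589032761 .nil) (.node 3 9 (.cons 0x8765439021 (.cons 0x1278934560 .nil)) (.node 0 8 (.cons 0x5439806721 .nil) .done (.node 0 8 (.cons 0x7216508934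 .nil) (.node 4 7 (.cons 0x8934721650 (.cons 0x4721605893 (.cons 0x4723985061 .nil))) (.leaf 0x1274398056 0 .done) .done) .done)) (.node 1 5 (.cons 0x8903276154 .nil) (.node 0 8 (.cons 0x9803276154 .nil) (.node 3 9 (.cons 0x8765439021 (.cons 0x7608934512 (.cons 0x4398706512 .nil))) (.node 0 4 (.cons 0x2156789340 .nil) (.node 4 9 (.cons 0x8945167230 (.cons 0x6032789451 (.cons 0x4932067851 .nil))) (.leaf 0x1587604932 0 .done) .done) .done) .done) (.node 3 5 (.cons 0x6789012354 (.cons 0x9876012354 .nil)) (.node 1 4 (.cons 0x8907653412 (.cons 0x8906721453 .nil)) (.node 0 8 (.cons 0x9806721453 .nil) .done (.node 2 5 (.cons 0x9870652143 .nil) (.node 4 8 (.cons 0x5489032761 (.cons 0x9841652703 (.cons 0x6709843521 (.cons 0x5234890761 .nil)))) .done .done) .done)) .done) .done)) .done)) .done) (.node 2 5 (.cons 0x8907612543 .nil) (.node 0 8 (.cons 0x9807612543 .nil) (.node 2 8 (.cons 0x9825430761 .nil) (.node 0 6 .nil (.node 1 9 (.cons 0x8916703452 (.cons 0x6078912543 (.cons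 0x3452198760 .nil))) (.node 1 7 (.cons 0x7165430982 (.cons 0x9871234506 (.cons 0x9178256034 .nil))) .done .done) .done) .done) .done) (.node 3 5 (.cons 0x6789012354 .nil) (.node 0 6 (.cons 0x9876012354 .nil) (.node 3 6 (.cons 0x8907634521 .nil) (.node 0 8 .nil (.node 4 7 (.cons 0x3216745890 (.cons 0x9085476123 (.cons 0x9801674532 .nil))) (.node 3 9 (.cons 0x8765439021 (.cons 0x7439806521 (.cons 0x1256743980 .nil))) (.leaf 0x8932167450 1 .done) .done) .done) .done) .done) (.node 3 6 (.cons 0x8907634521 .nil) (.node 0 8 (.cons 0x9807634521 .nil) (.node 0 6 .nil (.node 1 8 (.cons 0x9812543670 (.cons 0x9812543607 (.cons 0x7609812543 .nil))) (.node 5 9 (.cons 0x4598763210 (.cons 0x9543206781 .nil)) .done .done) .done) .done) (.node 0 6 .nil (.node 1 3 (.cons 0x2134567890 (.cons 0x7890654312 .nil)) (.node 0 4 (.cons 0x9852136704 .nil) (.node 1 5 (.cons 0x7632158904 .nil) .done .done) .done) .done) .done)) .done)) .done)) .done)) .done)))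
noncomputable def tc9_2_37 : T := (.node 0 7 (.cons 0x9854321670 .nil) (.node 1 5 .nil (.node 4 6 (.cons 0x5467890123 (.cons 0x9870512346 .nil)) (.node 3 8 (.cons 0x9012387645 (.cons 0x9078346512 (.cons 0x9021567834 (.cons 0x9015467832 .nil)))) .done (.node 1 9 (.cons 0x9158702346 (.cons 0x9158764320 .nil)) (.node 0 6 (.cons 0x9120678543 .nil) .done .done) .done)) (.node 3 5 (.cons 0x6789012354 .nil) (.node 0 3 .nil (.node 2 4 (.cons 0x8907653421 (.cons 0x9876542103 (.cons 0x9856703421 (.cons 0x9856124307 .nil)))) .done (.node 0 6 .nil (.node 3 9 (.cons 0x8765439021 .nil) (.node 1 7 (.cons 0x8712093456 (.cons 0x2178934560 (.cons 0x9345871206 .nil))) .done (.node 1 9 (.cons 0x7856021934 (.cons 0x9120678543 .nil)) (.leaf 0x8760219345 0 .done) .done)) .done) .done)) (.node 0 3 .nil (.node 2 4 (.cons 0x9876542103 (.cons 0x9856703421 (.cons 0x9856124307 .nil))) (.node 3 6 (.cons 0x9870563421 (.cons 0x7890563421 .nil)) (.leaf 0x987635421 1 .done) .done) (.node 0 6 .nil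 (.node 1 7 (.cons 0x8903456712 (.cons 0x9871234506 (.cons 0x9854306712 .nil))) .done (.node 0 4 .nil (.node 6 9 (.cons 0x7058961234 (.cons 0x9678512340 (.cons 0x7698540321 .nil))) .done (.node 0 8 .nil (.node 2 7 (.cons 0x8903456721 (.cons 0x9803456721 .nil)) (.node 3 9 (.cons 0x8765439021 (.cons 0x4390876512 .nil)) (.node 3 7 (.cons 0x6127398540 (.cons 0x4561273980 (.cons 0x8093721654 .nil))) .done .done) .done) .done) .done)) .done)) .done)) .done)) .done)) (.node 2 5 (.cons 0x8907612543 .nil) (.node 3 5 (.cons 0x6789012354 .nil) (.node 1 5 .nil (.node 3 6 (.cons 0x8907634521 (.cons 0x4510987632 .nil)) (.node 6 9 (.cons 0x7896321054 (.cons 0x4369870512 (.cons 0x8769023451 .nil))) (.leaf 0x5120789634 0 .done) (.node 2 4 (.cons 0x7890563421 (.cons 0x9870512436 .nil)) (.node 6 9 (.cons 0x9635870124 (.cons 0x8769023451 (.cons 0x8709635124 .nil))) .done .done) .done)) .done) (.node 3 8 (.cons 0x6709834521 .nil) (.node 3 9 (.cons 0x8765439021 .nil) (.node 0 3 (.cons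 0x9854307612 .nil) (.node 0 6 (.cons 0x7601239854 .nil) (.node 0 8 .nil (.node 1 3 (.cons 0x2134567890 (.cons 0x9087654312 .nil)) (.node 4 7 (.cons 0x6745893210 (.cons 0x9803476521 (.cons 0x9321085476 (.cons 0x9801325476 .nil)))) .done .done) .done) .done) .done) (.node 1 5 (.cons 0x8765120934 .nil) (.node 4 8 (.cons 0x2156784390 .nil) (.leaf 0x9348765120 0 (.node 0 3 (.cons 0x9854307612 .nil) (.node 0 4 (.cons 0x6704398521 .nil) .done .done) .done)) .done) .done)) (.node 1 5 (.cons 0x9021567834 .nil) (.node 0 3 (.cons 0x9854307612 .nil) (.node 0 4 (.cons 0x9043876512 .nil) (.node 0 8 .nil (.node 4 7 (.cons 0x1256743890 (.cons 0x9801674532 (.cons 0x9083476521 .nil))) .done .done) .done) .done) .done) .done)) .done)) (.node 1 5 .nil (.node 3 8 (.cons 0x5438907612 (.cons 0x9021567834 .nil)) (.node 6 9 (.cons 0x7834569021 (.cons 0x8769023451 .nil)) (.node 4 7 (.cons 0x7432169850 (.cons 0x6987432150 (.cons 0x8743215096 (.cons 0x9615834702 .nil)))) .done (.node 4 6 (.cons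 0x5467890123 (.cons 0x9645120783 (.cons 0x7832154690 (.cons 0x7832096451 .nil)))) .done .done)) (.node 1 9 (.cons 0x4387651902 (.cons 0x6783451902 .nil)) (.node 0 3 (.cons 0x9854307612 (.cons 0x4309876512 .nil)) (.node 2 6 (.cons 0x9854307621 (.cons 0x9154387026 (.cons 0x9851267034 .nil))) .done .done) .done) .done)) (.node 3 5 (.cons 0x6789012354 .nil) (.node 0 3 (.cons 0x9854307612 .nil) (.node 3 9 (.cons 0x8765439021 .nil) (.node 3 8 (.cons 0x5438907612 .nil) (.node 0 8 .nil (.node 1 3 (.cons 0x2134567890 .nil) (.node 4 7 (.cons 0x1674523890 (.cons 0x6125470893 (.cons 0x9083254761 (.cons 0x6139807452 .nil)))) .done .done) .done) .done) (.node 1 8 (.cons 0x2093456781 .nil) (.leaf 0x5439021876 0 (.node 5 9 (.cons 0x4395816702 .nil) .done (.leaf 0x4390218765 1 .done))) .done)) (.node 3 8 (.cons 0x5438907612 .nil) (.node 3 9 (.cons 0x8765439021 .nil) (.node 0 8 (.cons 0x4390876512 .nil) (.node 1 8 (.cons 0x9021876543 .nil) (.leaf 0x218765439 0 .done) .done) .done)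 (.node 0 8 .nil (.node 3 9 (.cons 0x8765439021 .nil) (.node 2 7 (.cons 0x7216509834 (.cons 0x7216543980 (.cons 0x6512780934 .nil))) .done .done) .done) .done)) .done)) (.node 5 7 .nil (.node 2 8 (.cons 0x7610982354 (.cons 0x6128907543 .nil)) (.node 1 8 (.cons 0x9021876543 (.cons 0x9028167534 .nil)) (.node 3 8 (.cons 0x5438907612 .nil) .done .done) .done) .done) .done)) .done)) .done)) (.leaf 0x4321670985 0 .done))) (.node 1 9 (.cons 0x6785432091 .nil) (.node 1 3 (.cons 0x2134567890 .nil) (.node 1 8 (.cons 0x9021876543 .nil) (.node 0 8 .nil (.node 7 9 (.cons 0x8543209761 (.cons 0x9761345802 (.cons 0x6543197802 (.cons 0x9761320854 .nil)))) (.leaf 0x1345679802 0 .done) (.node 0 7 (.cons 0x2345890761 .nil) (.node 0 6 .nil (.node 2 9 (.cons 0x6507892134 (.cons 0x7601329854 (.cons 0x7856029134 .nil))) (.leaf 0x8706543129 1 .done) (.node 6 9 (.cons 0x4319658702 .nil) (.node 1 5 (.cons 0x4320967851 .nil) (.node 0 4 (.cons 0x2340967851 .nil) (.node 0 3 .nil (.node 2 7 (.cons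 0x4319658720 (.cons 0x4305698721 (.cons 0x4589032761 .nil))) .done .done) .done) .done) (.node 0 4 (.cons 0x9678540231 .nil) (.leaf 0x3204587691 0 .done) .done)) .done)) (.node 2 6 (.cons 0x2654319870 .nil) (.node 1 5 (.cons 0x6234519870 .nil) (.node 3 5 (.cons 0x9187026534 .nil) (.node 0 3 (.cons 0x7891265430 .nil) (.node 0 6 (.cons 0x5432607891 .nil) .done .done) .done) .done) (.leaf 0x3198702654 0 (.leaf 0x1987026543 1 .done))) .done)) .done)) (.node 3 9 (.cons 0x8765439021 .nil) (.node 3 5 (.cons 0x6789012354 .nil) (.node 1 5 .nil (.node 5 9 (.cons 0x6781209543 .nil) (.node 6 9 (.cons 0x8769012354 (.cons 0x4320967851 (.cons 0x8769023451 .nil))) .done .done) .done) .done) (.leaf 0x218765439 0 (.leaf 0x4390218765 1 .done))) .done)) (.node 1 5 .nil (.node 6 9 (.cons 0x4587690132 (.cons 0x4320967851 (.cons 0x8769023451 .nil))) (.node 5 9 .nil (.node 0 8 (.cons 0x9087654312 (.cons 0x6780954312 (.cons 0x6780951234 .nil))) .done (.node 3 9 (.cons 0x8765439021 (.cons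 0x8765120934 .nil)) (.node 1 8 (.cons 0x4518769320 (.cons 0x6781543902 .nil)) (.node 4 6 (.cons 0x7643209581 (.cons 0x2398764510 (.cons 0x8764510932 (.cons 0x9023467815 .nil)))) .done .done) .done) .done)) .done) (.node 3 5 (.cons 0x6789012354 .nil) (.node 1 8 (.cons 0x9021876543 .nil) (.node 5 9 (.cons 0x7618590234 .nil) (.node 2 5 .nil (.node 0 4 (.cons 0x7653409812 (.cons 0x7652189043 (.cons 0x9043187652 .nil))) (.node 0 8 (.cons 0x9087654312 .nil) .done .done) .done) .done) (.node 3 9 (.cons 0x8765439021 .nil) (.leaf 0x218765439 0 (.leaf 0x4390218765 1 .done)) .done)) .done) .done)) (.node 3 9 (.cons 0x8765439021 .nil) (.node 5 9 (.cons 0x8765902134 .nil) (.node 1 8 (.cons 0x9021876543 .nil) (.node 0 7 (.cons 0x2189345670 .nil) (.leaf 0x3456702189 1 (.leaf 0x4398120765 0 (.node 0 3 (.cons 0x4598167032 .nil) .done .done))) (.node 0 8 .nil (.node 1 7 (.cons 0x6718543902 (.cons 0x2176543980 (.cons 0x8093456712 .nil))) .done (.node 0 6 .nil (.node 1 4 (.cons 0x6785902314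 (.cons 0x3214598760 (.cons 0x8760954123 .nil))) .done (.node 0 3 .nil (.node 1 4 (.cons 0x6785902314 (.cons 0x6789541230 .nil)) (.leaf 0x7603214598 1 .done) .done) .done)) .done)) .done)) .done) (.node 1 8 (.cons 0x2093456781 .nil) (.node 3 8 .nil (.node 2 4 (.cons 0x7610985423 (.cons 0x9387654201 (.cons 0x7654210983 .nil))) (.leaf 0x8390124567 1 .done) (.node 4 8 (.cons 0x9021348765 .nil) (.node 4 9 (.cons 0x3945678102 .nil) (.node 5 9 (.cons 0x7613485902 .nil) (.node 0 3 (.cons 0x7618459302 .nil) (.node 7 9 (.cons 0x9761854320 .nil) (.leaf 0x3456798120 1 (.leaf 0x4302189765 0 .done)) .done) .done) .done) .done) .done)) (.leaf 0x4390218765 1 .done)) .done)) .done))) (.node 1 5 (.cons 0x6785190234 .nil) (.node 4 6 (.cons 0x9158764320 .nil) (.node 3 9 (.cons 0x5467893210 .nil) (.leaf 0x2105467893 0 (.node 1 3 (.cons 0x2134567890 .nil) (.node 1 7 (.cons 0x9178502346 .nil) (.node 3 5 (.cons 0x9876453210 .nil) (.node 2 5 (.cons 0x6439178520 .nil) (.node 5 9 (.cons 0x1958764320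 .nil) .done .done) .done) .done) .done) (.node 1 8 (.cons 0x2093456781 .nil) (.leaf 0x5439021876 0 (.leaf 0x4390218765 1 .done)) .done))) (.leaf 0x8764320915 0 (.leaf 0x2346785190 0 .done))) (.node 4 6 (.cons 0x2346785190 .nil) (.node 6 9 (.cons 0x7850234691 .nil) (.node 0 6 (.cons 0x7891234605 .nil) (.node 0 8 (.cons 0x7805196432 .nil) (.node 4 8 (.cons 0x9067843215 .nil) (.node 0 7 (.cons 0x2345890761 .nil) (.node 0 4 (.cons 0x6785190432 .nil) (.node 2 4 (.cons 0x8769015423 .nil) .done .done) .done) .done) .done) .done) (.node 2 6 (.cons 0x4326785190 .nil) (.node 6 8 .nil (.node 4 7 (.cons 0x3478905621 (.cons 0x3478650912 (.cons 0x9051268743 .nil))) (.leaf 0x3476851902 1 .done) .done) .done) .done)) (.node 3 5 (.cons 0x6789012354 .nil) (.node 5 7 (.cons 0x8576190234 .nil) (.node 1 3 (.cons 0x2134567890 .nil) (.node 3 8 (.cons 0x4576123890 .nil) (.node 3 6 (.cons 0x8750912364 .nil) (.node 0 3 (.cons 0x8903216754 .nil) (.node 3 9 (.cons 0x8765439021 .nil) .done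 .done) .done) .done) .done) .done) (.node 5 9 (.cons 0x8764590123 .nil) (.node 5 7 (.cons 0x8576190234 .nil) (.node 2 5 .nil (.node 4 7 (.cons 0x8901235476 (.cons 0x8520916743 (.cons 0x8901674523 .nil))) .done .done) .done) .done) .done)) (.leaf 0x3467851902 1 .done))) .done)) (.leaf 0x5432091678 0 .done))) (.node 0 3 (.cons 0x7612309854 .nil) tc9_2_36 .done)))
noncomputable def tc9_2_38 : T := (.node 1 5 .nil (.node 3 8 (.cons 0x9021567834 (.cons 0x7645109832 .nil)) (.node 7 9 (.cons 0x8790543216 (.cons 0x4387905612 (.cons 0x9764583201 (.cons 0x6123879054 .nil)))) (.leaf 0x1238976450 1 .done) (.node 6 9 (.cons 0x7834569021 (.cons 0x8769023451 .nil)) (.node 0 7 (.cons 0x7058964321 (.cons 0x9851234670 (.cons 0x9643851207 .nil))) (.leaf 0x3469870512 1 .done) (.node 0 7 (.cons 0x9078345612 (.cons 0x9851234670 (.cons 0x4516907832 .nil))) (.node 3 7 (.cons 0x9854673210 (.cons 0x2154698370 (.cons 0x8370964512 (.cons 0x8901546732 .nil)))) (.leaf 0x1237645890 0 .done) .done)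 .done)) .done)) (.node 3 5 (.cons 0x6789012354 .nil) (.node 3 7 (.cons 0x9854673210 .nil) (.node 1 3 (.cons 0x2134567890 .nil) (.node 0 6 (.cons 0x7890654312 .nil) (.node 2 7 (.cons 0x6543127890 .nil) (.node 1 7 (.cons 0x9850643217 .nil) (.node 1 8 (.cons 0x9812734650 .nil) (.node 1 9 (.cons 0x8912734650 .nil) .done .done) .done) (.leaf 0x9872134560 0 .done)) (.node 3 6 .nil (.node 1 7 (.cons 0x8906715432 (.cons 0x4365098712 (.cons 0x6345098712 .nil))) .done (.node 6 8 (.cons 0x9864501237 .nil) (.node 6 9 (.cons 0x6987321054 .nil) .done .done) .done)) .done)) (.node 2 5 (.cons 0x4312567890 .nil) (.node 2 7 (.cons 0x6509872134 .nil) (.node 3 6 (.cons 0x4365098721 .nil) (.node 2 8 (.cons 0x7632890154 .nil) (.node 3 8 (.cons 0x9056127834 .nil) .done .done) .done) .done) .done) .done)) (.leaf 0x1237645890 0 (.node 2 8 (.cons 0x5467328901 .nil) (.leaf 0x982376451 0 (.node 0 4 (.cons 0x9043567821 .nil) (.node 2 5 (.cons 0x6734098251 .nil) (.node 5 7 (.cons 0x6751289043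 .nil) .done .done) (.node 5 9 (.cons 0x8761234590 .nil) (.leaf 0x3287615904 0 (.leaf 0x2876159043 1 .done)) .done)) (.leaf 0x7328901546 0 .done))) .done))) (.node 5 9 (.cons 0x8761234590 .nil) (.node 2 5 .nil (.node 0 3 (.cons 0x8761230954 (.cons 0x4309876521 .nil)) (.node 4 8 (.cons 0x3216784590 (.cons 0x9016784523 .nil)) (.node 4 9 (.cons 0x8761094532 (.cons 0x8761094523 .nil)) (.node 7 9 (.cons 0x6109784532 (.cons 0x8521679430 (.cons 0x6109784523 .nil))) .done .done) (.node 3 6 (.cons 0x3678459021 (.cons 0x9845210367 (.cons 0x9052163487 .nil))) .done .done)) .done) .done) .done) .done)) .done)) (.node 5 9 (.cons 0x8761234590 .nil) (.node 1 5 .nil (.node 6 9 (.cons 0x4320967851 (.cons 0x8769023451 .nil)) (.node 1 7 (.cons 0x6987123450 (.cons 0x2346715890 .nil)) (.node 1 9 (.cons 0x6785190234 .nil) (.leaf 0x8543201967 0 .done) .done) (.node 3 8 (.cons 0x7832169054 (.cons 0x9021567834 .nil)) (.node 7 9 (.cons 0x5467983210 (.cons 0x2389764510 .nil)) (.leaf 0x1546798320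 1 (.leaf 0x1238976450 1 .done)) (.node 0 7 (.cons 0x9078345612 (.cons 0x2346709851 (.cons 0x4516907832 .nil))) (.node 1 7 (.cons 0x2346715890 .nil) (.leaf 0x8345690217 1 .done) .done) .done)) .done)) (.node 3 5 (.cons 0x6789012354 .nil) (.node 0 8 (.cons 0x9087612345 .nil) (.node 5 7 (.cons 0x8095761234 .nil) (.node 2 5 .nil (.node 0 6 (.cons 0x7608951234 .nil) (.node 4 9 (.cons 0x3215764980 (.cons 0x9432516087 (.cons 0x6780943521 (.cons 0x9432516780 .nil)))) .done .done) .done) .done) (.node 2 5 (.cons 0x9087612543 .nil) (.node 5 7 .nil (.node 2 9 (.cons 0x1678543290 (.cons 0x6129087543 (.cons 0x3467512980 .nil))) .done .done) .done) .done)) .done) .done)) (.node 2 4 (.cons 0x9016785423 .nil) (.node 4 8 (.cons 0x3216784590 .nil) (.node 0 3 (.cons 0x9876542103 .nil) (.node 1 4 .nil (.node 2 7 (.cons 0x3276458901 (.cons 0x2765890341 (.cons 0x6723098541 .nil))) .done (.node 4 9 .nil (.node 2 7 (.cons 0x3276458901 (.cons 0x8721650943 (.cons 0x8549032761 .nil))) .done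 (.node 0 4 .nil (.node 1 7 (.cons 0x8903456712 (.cons 0x8954032176 (.cons 0x8956712403 .nil))) .done .done) .done)) .done)) (.leaf 0x1230954876 0 (.node 0 6 (.cons 0x7845906123 .nil) (.node 1 4 (.cons 0x5987603241 .nil) (.node 0 4 .nil (.node 1 5 (.cons 0x4230678951 (.cons 0x4067895123 .nil)) (.leaf 0x678951423 0 .done) .done) .done) .done) .done))) (.node 0 8 (.cons 0x4590876123 .nil) (.node 1 4 .nil (.node 0 3 (.cons 0x3095487612 (.cons 0x9580324167 (.cons 0x8761459032 .nil))) .done (.node 1 8 (.cons 0x9021876543 .nil) (.node 6 8 (.cons 0x9054321687 .nil) (.node 4 9 .nil (.node 1 3 (.cons 0x2134567890 (.cons 0x7613249580 (.cons 0x7649581320 .nil))) .done (.node 0 4 .nil (.node 1 3 (.cons 0x5942316780 (.cons 0x7659804213 (.cons 0x9587613240 .nil))) .done .done) .done)) .done) .done) .done)) .done) .done)) (.node 2 9 (.cons 0x1678543290 .nil) (.node 0 8 (.cons 0x4590876123 .nil) (.node 1 4 (.cons 0x7614329085 .nil) (.node 0 7 (.cons 0x8543290761 .nil) (.node 0 4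 (.cons 0x7614085923 .nil) (.node 0 6 (.cons 0x3214598760 .nil) .done .done) (.leaf 0x6143295807 0 .done)) (.node 4 8 (.cons 0x3216784590 .nil) (.node 1 8 (.cons 0x7618543290 .nil) (.node 3 8 (.cons 0x7610923854 .nil) .done .done) .done) .done)) (.node 4 8 (.cons 0x3216784590 .nil) (.node 2 5 (.cons 0x9087612543 .nil) (.node 5 7 (.cons 0x8092167543 .nil) (.node 3 5 (.cons 0x6789012354 .nil) (.node 0 3 (.cons 0x9548761230 .nil) (.node 1 5 (.cons 0x7648951230 .nil) .done (.leaf 0x6784590321 0 .done)) .done) .done) .done) .done) .done)) (.node 6 9 .nil (.node 1 4 (.cons 0x5876143290 (.cons 0x9678541023 .nil)) (.node 1 7 (.cons 0x6178509234 (.cons 0x6987123450 (.cons 0x3420965871 .nil))) .done .done) (.node 7 9 (.cons 0x6109785423 .nil) (.node 4 9 .nil (.node 1 7 (.cons 0x8716905432 (.cons 0x6178509432 .nil)) (.node 0 3 (.cons 0x8954671230 (.cons 0x6178594230 (.cons 0x8716503492 .nil))) (.leaf 0x9654230178 1 .done) .done) .done) .done) .done)) .done)) .done)) .done))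 (.node 5 9 (.cons 0x8761234590 .nil) (.node 1 5 .nil (.node 2 5 .nil (.node 0 8 (.cons 0x9087612345 (.cons 0x9087615234 (.cons 0x9087612543 .nil))) .done (.node 3 9 (.cons 0x4587612390 (.cons 0x8765120934 .nil)) (.node 0 7 (.cons 0x8709345612 (.cons 0x4670985123 .nil)) (.leaf 0x1239078546 1 (.node 2 8 (.cons 0x7821654390 (.cons 0x9078234516 (.cons 0x7093285164 .nil))) .done .done)) (.node 2 4 (.cons 0x1678542390 .nil) (.node 2 8 (.cons 0x7824561093 (.cons 0x4390287651 .nil)) .done .done) .done)) .done)) (.node 2 5 .nil (.node 0 8 (.cons 0x9087612345 (.cons 0x9087612543 .nil)) (.node 0 6 (.cons 0x7608951234 .nil) (.node 4 9 (.cons 0x3216785490 (.cons 0x9432516087 (.cons 0x5216780943 (.cons 0x9432516780 .nil)))) .done .done) (.node 0 4 (.cons 0x9045876123 .nil) (.node 1 4 (.cons 0x3412567890 .nil) (.leaf 0x6143259087 1 (.leaf 0x3259087614 0 .done)) .done) .done)) .done) .done)) (.node 4 9 (.cons 0x3216785490 .nil) (.node 2 4 (.cons 0x8761095423 .nil) (.node 1 4 .nil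 (.node 3 6 (.cons 0x2367895410 (.cons 0x5987632410 (.cons 0x9023678541 .nil))) (.node 0 6 (.cons 0x5987601423 .nil) (.node 1 7 (.cons 0x5498710632 (.cons 0x9871243650 (.cons 0x6345098712 .nil))) .done .done) .done) (.node 0 4 (.cons 0x9045876123 .nil) (.node 0 6 (.cons 0x3245987601 .nil) (.node 0 7 (.cons 0x3249587061 .nil) (.node 0 8 (.cons 0x2345908761 .nil) .done .done) .done) .done) .done)) .done) (.node 0 4 (.cons 0x9045876123 .nil) (.node 0 3 (.cons 0x7645890321 .nil) (.node 3 7 (.cons 0x1237645890 .nil) (.node 3 5 (.cons 0x6789012354 .nil) (.node 5 7 .nil (.node 2 8 (.cons 0x9458216730 (.cons 0x6754982103 (.cons 0x6128750943 .nil))) (.leaf 0x4582167309 0 .done) .done) .done) (.node 4 7 (.cons 0x6745890321 .nil) (.node 5 7 .nil (.node 3 6 (.cons 0x3678549021 (.cons 0x8945763012 (.cons 0x8750943612 .nil))) (.leaf 0x987546321 0 .done) .done) .done) (.leaf 0x2376458901 1 (.leaf 0x6458901237 0 .done)))) (.node 0 6 .nil (.node 2 4 (.cons 0x5678903421 (.cons 0x3245987601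 .nil)) (.node 3 7 (.cons 0x1237645890 (.cons 0x2495873061 .nil)) (.leaf 0x8594216037 1 (.leaf 0x6458901237 0 .done)) .done) .done) .done)) .done) .done)) .done)) .done)))
noncomputable def tc9_2_39 : T := (.leaf 0x2105467893 0 (.node 0 7 (.cons 0x8709345612 .nil) (.node 1 5 (.cons 0x2156439870 .nil) (.node 1 7 (.cons 0x8712093456 .nil) (.node 2 5 (.cons 0x1256439870 .nil) (.node 2 4 (.cons 0x6512439870 .nil) (.node 5 8 (.cons 0x6439852170 .nil) (.leaf 0x785612439 0 (.node 5 9 (.cons 0x4612395870 .nil) (.node 1 3 (.cons 0x2134567890 .nil) (.leaf 0x9870132465 1 (.leaf 0x8956423107 0 .done)) .done) .done)) .done) (.node 5 8 (.cons 0x9346587021 .nil) (.node 5 9 (.cons 0x8761234590 .nil) (.node 1 9 (.cons 0x4619325870 .nil) (.node 2 9 (.cons 0x1678543290 .nil) .done .done) .done) .done) .done)) .done) (.node 2 7 (.cons 0x8934651270 .nil) (.node 2 5 (.cons 0x1256439870 .nil) (.node 1 7 (.cons 0x8712093456 .nil) (.node 5 9 (.cons 0x8951234670 .nil) (.node 1 9 (.cons 0x3465078912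 .nil) (.node 5 8 (.cons 0x7856439120 .nil) (.leaf 0x9587643201 1 .done) .done) .done) .done) .done) (.node 2 5 (.cons 0x1256439870 .nil) (.node 0 6 (.cons 0x4398706521 .nil) (.node 0 3 (.cons 0x8930721564 .nil) (.node 0 4 (.cons 0x8721654093 .nil) (.node 0 8 (.cons 0x9803276451 .nil) .done .done) .done) (.node 1 4 (.cons 0x6521439870 .nil) (.leaf 0x8706521439 0 (.leaf 0x678932541 1 .done)) .done)) .done) .done)) .done)) (.node 0 8 (.cons 0x7809345612 .nil) (.node 1 5 (.cons 0x9346512087 .nil) (.node 1 7 (.cons 0x8712093456 .nil) (.node 1 3 (.cons 0x2134567890 .nil) (.node 1 9 (.cons 0x7802193465 .nil) (.node 1 8 (.cons 0x9021876543 .nil) (.node 1 4 .nil (.node 3 5 (.cons 0x9876453210 (.cons 0x9087653412 (.cons 0x6789014532 .nil))) .done .done) .done) .done) .done) .done) (.node 5 9 (.cons 0x7643215980 .nil) (.node 3 8 (.cons 0x9546783201 .nil) (.node 1 9 (.cons 0x7805916432 .nil) (.leaf 0x238764591 0 (.leaf 0x5467832019 1 .done)) (.node 6 8 (.cons 0x7864593201 .nil)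 (.node 0 3 (.cons 0x7039864512 .nil) (.node 0 4 (.cons 0x7689045123 .nil) (.node 0 6 (.cons 0x7893210645 .nil) .done .done) .done) .done) .done)) (.node 2 5 (.cons 0x6452107893 .nil) (.node 5 8 .nil (.node 4 7 (.cons 0x5932164780 (.cons 0x9085123476 (.cons 0x9085167432 .nil))) .done (.node 3 5 (.cons 0x9876453210 .nil) (.node 5 7 (.cons 0x6457893210 .nil) .done .done) .done)) .done) .done)) .done)) (.node 0 4 .nil (.node 2 7 (.cons 0x8721654390 (.cons 0x6540127893 (.cons 0x5640127893 (.cons 0x8721654093 .nil)))) .done (.node 0 6 (.cons 0x7893210645 .nil) (.node 0 3 .nil (.node 6 8 (.cons 0x7865439021 .nil) (.node 1 5 (.cons 0x9087615432 (.cons 0x7039864512 .nil)) (.node 2 6 (.cons 0x6215439870 (.cons 0x7039862154 .nil)) .done .done) .done) .done) .done) .done)) .done)) (.node 1 5 (.cons 0x6451078932 .nil) (.node 1 3 (.cons 0x2134567890 .nil) (.node 5 8 (.cons 0x9854670132 .nil) (.node 3 5 (.cons 0x9876453210 .nil) (.node 5 7 (.cons 0x6457893210 .nil) (.node 2 5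 (.cons 0x6452398701 .nil) (.node 5 9 (.cons 0x8761234590 .nil) .done .done) .done) .done) (.node 0 3 (.cons 0x9032167854 .nil) (.node 2 5 (.cons 0x6452398701 .nil) (.node 5 9 (.cons 0x8761234590 .nil) (.node 1 4 (.cons 0x9852307641 .nil) (.leaf 0x325987641 0 (.leaf 0x6789523014 1 .done)) .done) .done) .done) .done)) (.node 1 7 (.cons 0x8712093456 .nil) (.node 4 7 (.cons 0x6509874312 .nil) (.node 5 7 (.cons 0x6457893210 .nil) (.node 2 5 (.cons 0x4312567890 .nil) (.node 0 3 (.cons 0x8903452176 .nil) (.node 6 8 (.cons 0x2175468930 .nil) (.leaf 0x7120398645 0 (.leaf 0x9867125430 1 (.leaf 0x1754689302 1 .done))) .done) .done) .done) .done) .done) .done)) (.node 1 3 (.cons 0x2134567890 .nil) (.node 2 6 (.cons 0x5462398701 .nil) (.node 0 6 (.cons 0x7893210645 .nil) (.node 0 8 (.cons 0x7809345612 .nil) (.node 3 6 .nil (.node 1 7 (.cons 0x9871234605 (.cons 0x4365098712 (.cons 0x6345098712 .nil))) .done (.node 6 8 (.cons 0x7865439021 .nil) (.node 6 9 (.cons 0x7896450123 .nil)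 .done .done) .done)) .done) .done) (.leaf 0x3987015462 0 (.node 1 4 (.cons 0x2654139870 .nil) (.leaf 0x5620789314 0 (.node 1 7 (.cons 0x8932645170 .nil) (.node 1 9 (.cons 0x3264507891 .nil) .done .done) .done)) .done))) (.node 1 9 .nil (.node 2 5 (.cons 0x4312567890 .nil) (.leaf 0x3198702564 0 (.leaf 0x1987025643 1 .done)) (.node 1 7 (.cons 0x8712093456 .nil) (.node 2 7 (.cons 0x9872134650 .nil) (.node 1 4 (.cons 0x6509872143 .nil) (.node 1 8 (.cons 0x6709815432 .nil) .done .done) (.leaf 0x8905643127 1 .done)) .done) .done)) .done)) .done)) .done))) (.node 1 5 (.cons 0x8765120934 .nil) (.node 4 8 (.cons 0x9348765120 .nil) (.node 1 8 (.cons 0x9021876543 .nil) (.node 1 7 (.cons 0x2178934650 .nil) (.node 2 4 .nil (.node 3 5 (.cons 0x9876453210 (.cons 0x8765390124 (.cons 0x7653421890 (.cons 0x9024356781 .nil)))) .done (.node 1 4 .nil (.node 0 8 (.cons 0x7651243980 (.cons 0x9341567802 .nil)) (.node 2 5 (.cons 0x6439871250 .nil) (.leaf 0x9341256780 1 .done) .done) .done)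 .done)) .done) (.leaf 0x218765439 0 .done)) (.leaf 0x3902156784 1 (.node 5 8 .nil (.node 0 4 (.cons 0x2156789340 (.cons 0x7640123985 (.cons 0x9340215876 .nil))) .done (.node 2 5 (.cons 0x9016784523 .nil) (.node 5 9 (.cons 0x8761234590 .nil) (.node 6 8 (.cons 0x9054321687 .nil) (.node 3 5 (.cons 0x9876453210 .nil) (.node 5 7 (.cons 0x9057861234 .nil) .done .done) .done) .done) .done) .done)) .done))) (.node 5 9 (.cons 0x8761234590 .nil) (.node 1 4 (.cons 0x8764102395 .nil) (.node 1 8 (.cons 0x9546781023 .nil) (.leaf 0x2018764593 0 (.node 1 9 (.cons 0x5918764320 .nil) (.node 1 3 (.cons 0x2134567890 .nil) (.node 1 7 (.cons 0x2178934650 .nil) .done .done) .done) (.leaf 0x6781023954 0 .done))) (.node 5 8 (.cons 0x4678593201 .nil) (.leaf 0x9320146785 1 (.node 1 9 (.cons 0x8764591023 .nil) (.node 1 8 (.cons 0x9546781023 .nil) (.leaf 0x2018764593 0 (.node 1 3 (.cons 0x2134567890 .nil) (.node 1 7 (.cons 0x2178934650 .nil) .done .done) .done)) .done) .done)) .done)) (.node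 2 5 .nil (.node 4 8 (.cons 0x7846123950 (.cons 0x5216784390 (.cons 0x7648932510 .nil))) (.leaf 0x5210934876 0 .done) (.node 5 8 .nil (.node 0 4 (.cons 0x1256789340 (.cons 0x7640123985 (.cons 0x3958764021 (.cons 0x7640158932 .nil)))) .done (.node 3 5 (.cons 0x9876453210 .nil) (.node 5 7 .nil (.node 1 9 (.cons 0x2345876190 (.cons 0x8756439120 (.cons 0x8750219346 .nil))) .done .done) .done) .done)) .done)) .done)) .done)) (.node 1 8 (.cons 0x2093456781 .nil) (.node 1 5 (.cons 0x2398764510 .nil) (.node 5 9 (.cons 0x8761234590 .nil) (.node 5 8 (.cons 0x4587610932 .nil) (.node 2 5 (.cons 0x8761093254 .nil) (.node 3 5 (.cons 0x9876453210 .nil) (.node 5 7 .nil (.node 2 4 (.cons 0x9016785423 (.cons 0x6754239810 (.cons 0x8754239016 .nil))) .done .done) .done) .done) .done) .done) .done) (.leaf 0x5439021876 0 (.node 5 9 (.cons 0x8761234590 .nil) (.node 1 5 (.cons 0x2398764510 .nil) (.node 1 7 (.cons 0x6450178932 .nil) (.node 2 5 (.cons 0x8176439520 .nil) (.node 5 8 (.cons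 0x4587610932 .nil) (.node 3 5 (.cons 0x9876453210 .nil) (.node 5 7 (.cons 0x8102395764 .nil) .done .done) .done) .done) .done) .done) (.node 2 4 (.cons 0x7816423950 .nil) (.node 2 5 (.cons 0x4390256781 .nil) (.node 5 8 (.cons 0x4587610932 .nil) (.node 1 5 (.cons 0x2398764510 .nil) (.node 3 5 (.cons 0x9876453210 .nil) (.node 5 7 (.cons 0x5764239810 .nil) .done .done) .done) .done) .done) (.node 3 6 (.cons 0x7890124563 .nil) (.node 6 9 (.cons 0x7896450123 .nil) (.node 7 9 (.cons 0x2056439781 .nil) (.node 1 7 (.cons 0x6450178932 .nil) (.node 5 8 (.cons 0x1785693420 .nil) (.leaf 0x6934201785 0 (.leaf 0x7856934201 1 .done)) .done) .done) .done) (.node 3 7 (.cons 0x1873956420 .nil) (.leaf 0x2109873654 0 (.node 0 3 (.cons 0x9564218730 .nil) (.leaf 0x1246590378 0 .done) .done)) .done)) .done)) .done)) (.leaf 0x4390218765 1 .done)))) .done))))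
noncomputable def tc9_2_40 : T := (.node 3 6 (.cons 0x9870543612 .nil) (.node 4 7 (.cons 0x8901236745 .nil) (.node 0 8 (.cons 0x9801236745 .nil) (.node 0 3 .nil (.node 5 9 (.cons 0x8954763210 (.cons 0x8954307612 (.cons 0x4598761032 (.cons 0x4598761230 .nil)))) .done (.node 0 6 .nil (.node 1 5 (.cons 0x8907634512 (.cons 0x9806743215 .nil)) (.node 3 5 (.cons 0x6789012354 (.cons 0x9876012354 .nil)) .done .done) .done) .done)) (.node 0 3 .nil (.node 5 9 (.cons 0x8954763210 (.cons 0x8954307612 (.cons 0x4598761032 (.cons 0x4598761230 .nil)))) .done (.node 0 6 .nil (.node 3 9 (.cons 0x8765439021 (.cons 0x3987456012 .nil)) (.node 1 3 (.cons 0x2134567890 (.cons 0x7890654312 .nil)) (.node 3 5 (.cons 0x6789012354 (.cons 0x9876012354 .nil)) .done .done) .done) .done) .done)) .done)) (.node 7 9 (.cons 0x8970543612 .nil) (.node 1 7 .nil (.node 2 8 (.cons 0x5476328901 (.cons 0x9821705436 (.cons 0x3654710982 (.cons 0x2890563471 (.cons 0x9823617450 .nil))))) .done (.node 1 5 (.cons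 0x8907634512 .nil) (.node 0 4 .nil (.node 3 9 (.cons 0x8765439021 (.cons 0x8793402165 (.cons 0x5401678932 .nil))) .done (.node 3 7 (.cons 0x8973405612 .nil) (.node 2 7 (.cons 0x8972165043 .nil) (.node 5 7 (.cons 0x8901236754 .nil) .done .done) .done) .done)) .done) .done)) (.node 0 4 .nil (.node 3 9 (.cons 0x8793216450 (.cons 0x7893405612 (.cons 0x5401678932 .nil))) (.node 2 7 (.cons 0x6540127893 (.cons 0x5612789340 .nil)) (.leaf 0x5401278936 1 .done) .done) (.node 0 8 (.cons 0x9780546123 .nil) (.node 0 3 (.cons 0x8976123045 .nil) (.node 0 6 .nil (.node 3 8 (.cons 0x9783216450 (.cons 0x5406798321 (.cons 0x5460978321 .nil))) .done .done) .done) (.node 0 3 (.cons 0x8976123045 .nil) (.node 0 6 .nil (.node 3 8 (.cons 0x9783216450 (.cons 0x5406798321 (.cons 0x5460978321 .nil))) .done .done) .done) .done)) .done)) .done)) .done)) (.node 1 7 (.cons 0x4365098712 .nil) (.node 1 5 .nil (.node 2 4 (.cons 0x7890563421 (.cons 0x9870512436 (.cons 0x8907634215 .nil))) (.node 0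 8 (.cons 0x9087124365 (.cons 0x9087643215 (.cons 0x9087156342 .nil))) .done .done) (.node 1 3 (.cons 0x2134567890 .nil) (.node 1 4 (.cons 0x7890563412 .nil) (.node 1 8 (.cons 0x9021876543 .nil) (.node 1 9 .nil (.node 6 8 (.cons 0x9054321786 (.cons 0x7865431902 (.cons 0x7864509123 .nil))) .done .done) .done) .done) .done) .done)) (.node 1 8 (.cons 0x9021876543 .nil) (.node 4 7 (.cons 0x9021874365 .nil) (.node 5 9 (.cons 0x9563478120 .nil) (.node 2 7 (.cons 0x4365098721 .nil) (.node 2 6 (.cons 0x5981263470 .nil) (.node 5 7 (.cons 0x6218907543 .nil) (.leaf 0x2189075436 0 (.node 7 9 (.cons 0x8109754623 .nil) .done .done)) .done) .done) (.leaf 0x3647895012 1 (.leaf 0x2364789501 0 .done))) (.node 5 9 (.cons 0x2095634781 .nil) (.node 3 9 (.cons 0x8765439021 .nil) (.node 6 8 (.cons 0x2347168950 .nil) (.leaf 0x3471689502 1 (.leaf 0x2395478610 0 .done)) (.leaf 0x5439021876 0 .done)) (.node 6 9 (.cons 0x7816954320 .nil) (.leaf 0x4596187023 0 (.leaf 0x8169543207 0 .done)) (.leaf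 0x956347812 1 .done))) .done)) (.node 5 9 (.cons 0x8764590123 .nil) (.node 3 9 (.cons 0x8765439021 .nil) (.node 1 9 .nil (.node 3 8 (.cons 0x9056438712 (.cons 0x8345912076 (.cons 0x8345916702 .nil))) .done .done) (.leaf 0x4390218765 1 .done)) (.leaf 0x7812095436 0 (.node 7 9 .nil (.node 1 4 (.cons 0x7890563412 (.cons 0x8790214365 .nil)) (.node 2 5 (.cons 0x9870521634 (.cons 0x8970521436 (.cons 0x8970521634 .nil))) .done .done) (.node 6 9 (.cons 0x7896123450 .nil) (.node 3 9 (.cons 0x8765439021 .nil) (.node 0 6 (.cons 0x5439781602 .nil) (.node 1 9 (.cons 0x7891605432 .nil) .done .done) .done) .done) .done)) .done))) .done)) .done)) (.node 1 5 (.cons 0x4510987632 .nil) (.node 1 7 .nil (.node 2 4 (.cons 0x5423678901 (.cons 0x9871054236 (.cons 0x8901763245 .nil))) (.node 3 8 (.cons 0x9012387645 (.cons 0x9021783456 (.cons 0x9056438712 .nil))) (.node 6 9 (.cons 0x7896123450 (.cons 0x6983450712 (.cons 0x9650217834 (.cons 0x8715423690 .nil)))) .done .done) .done) (.node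 1 3 (.cons 0x2134567890 .nil) (.node 3 5 (.cons 0x6789012354 .nil) (.node 0 3 .nil (.node 2 9 (.cons 0x2987054361 (.cons 0x8921670345 (.cons 0x7892165430 (.cons 0x7892165034 .nil)))) (.leaf 0x3546789210 0 .done) (.node 3 8 (.cons 0x9056438712 .nil) (.node 3 9 (.cons 0x8765439021 .nil) .done .done) .done)) .done) (.node 1 8 (.cons 0x9021876543 .nil) (.node 1 4 (.cons 0x5410987632 .nil) (.node 1 9 (.cons 0x5436781902 .nil) .done .done) .done) .done)) .done)) (.node 2 5 (.cons 0x4523678901 .nil) (.node 3 5 (.cons 0x6789012354 .nil) (.node 1 3 (.cons 0x2134567890 .nil) (.node 1 4 (.cons 0x9876325410 .nil) (.node 1 8 (.cons 0x9021876543 .nil) (.node 1 9 (.cons 0x4523678910 .nil) .done .done) .done) (.node 1 8 (.cons 0x9021876543 .nil) (.node 1 4 (.cons 0x9876325410 .nil) (.node 1 9 (.cons 0x4523678910 .nil) .done .done) (.node 1 9 (.cons 0x4523678910 .nil) (.leaf 0x4367819025 0 .done) .done)) .done)) .done) (.node 5 9 (.cons 0x8764590123 .nil) (.node 5 8 .nil (.node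 2 9 (.cons 0x2987054361 (.cons 0x3458921670 (.cons 0x7854632901 (.cons 0x8512907643 .nil)))) .done (.node 3 5 (.cons 0x6789012354 .nil) (.node 5 7 .nil (.node 1 8 (.cons 0x9021876543 (.cons 0x9018754632 (.cons 0x9057812346 .nil))) (.node 1 9 (.cons 0x8761954320 (.cons 0x6345781902 (.cons 0x8750912346 .nil))) .done .done) .done) .done) .done)) .done) .done)) .done)) .done))) (.node 0 4 .nil (.node 3 9 (.cons 0x8765439021 (.cons 0x7893405612 (.cons 0x5401678932 .nil))) (.node 5 8 (.cons 0x7645890123 (.cons 0x7610458932 (.cons 0x7612398540 .nil))) (.node 3 5 (.cons 0x6789012354 (.cons 0x9876104532 .nil)) (.node 2 8 (.cons 0x5439821670 (.cons 0x9043567821 (.cons 0x5407612893 .nil))) (.leaf 0x4076128935 0 .done) .done) .done) (.node 2 7 (.cons 0x6540127893 (.cons 0x5612789340 (.cons 0x3987216540 .nil))) (.node 0 3 (.cons 0x8903456721 (.cons 0x9872165034 (.cons 0x4561039872 .nil))) .done .done) .done)) (.node 0 8 .nil (.node 5 9 (.cons 0x7612345980 (.cons 0x9543208761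 .nil)) (.node 0 6 (.cons 0x7895061234 .nil) .done (.node 3 7 (.cons 0x8901237645 (.cons 0x1237645980 (.cons 0x8095467321 .nil))) (.leaf 0x2376459801 1 (.leaf 0x6459801237 0 .done)) .done)) (.node 0 6 .nil (.node 0 3 .nil (.node 2 9 (.cons 0x5401678923 (.cons 0x8921670345 (.cons 0x7892165430 (.cons 0x7892165034 (.cons 0x5403298761 .nil))))) .done (.node 3 9 (.cons 0x8765439021 (.cons 0x5439870612 .nil)) (.node 1 8 (.cons 0x7654309812 .nil) (.node 4 7 (.cons 0x9347812065 (.cons 0x5609347812 .nil)) (.node 2 5 (.cons 0x9876104523 (.cons 0x9803476521 (.cons 0x8934705216 (.cons 0x7403981652 .nil)))) .done .done) (.leaf 0x218765439 0 .done)) (.node 1 8 (.cons 0x2093456781 .nil) (.leaf 0x5439021876 0 (.leaf 0x4390218765 1 .done)) .done)) .done)) .done) .done)) .done)) (.node 0 4 .nil (.node 3 9 (.cons 0x8765439021 (.cons 0x7893405612 (.cons 0x5401678932 .nil))) (.node 6 9 (.cons 0x7896123450 (.cons 0x7896123405 .nil)) (.node 3 5 (.cons 0x2354678901 (.cons 0x8769045321 (.cons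 0x9876104532 .nil))) (.node 1 3 (.cons 0x2134567890 (.cons 0x6987045312 (.cons 0x5678904312 .nil))) (.node 2 9 (.cons 0x8765431290 (.cons 0x8704531296 (.cons 0x1298765340 .nil))) .done .done) .done) .done) (.node 2 7 (.cons 0x6540127893 (.cons 0x5612789340 (.cons 0x3987216540 .nil))) (.node 0 3 (.cons 0x8903456721 (.cons 0x9872165034 (.cons 0x4561039872 .nil))) .done .done) .done)) (.node 0 6 .nil (.node 0 3 .nil (.node 2 9 (.cons 0x6129870543 (.cons 0x8921670345 (.cons 0x7892165430 (.cons 0x7892165034 (.cons 0x7892305461 .nil))))) .done (.node 3 9 (.cons 0x8765439021 (.cons 0x5439870612 .nil)) (.node 1 3 (.cons 0x2134567890 (.cons 0x7890654312 .nil)) (.node 3 6 (.cons 0x9870543612 .nil) .done .done) (.node 2 4 (.cons 0x5423987610 (.cons 0x5423987601 .nil)) (.node 1 7 (.cons 0x5609871243 .nil) (.leaf 0x8932456017 0 (.node 1 3 (.cons 0x2134567890 (.cons 0x7890654312 .nil)) (.node 1 5 (.cons 0x4309876512 .nil) .done .done) .done)) .done) .done)) (.node 3 9 (.cons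 0x8765439021 (.cons 0x5439870612 .nil)) (.node 3 5 (.cons 0x2354678901 (.cons 0x9876012354 .nil)) (.node 1 3 (.cons 0x2134567890 (.cons 0x7890654312 .nil)) (.node 3 6 (.cons 0x9870543612 .nil) .done .done) .done) (.node 1 5 (.cons 0x8765120934 .nil) (.node 4 8 (.cons 0x2156784390 (.cons 0x7843906512 .nil)) (.leaf 0x6784390215 0 (.leaf 0x9348765120 0 .done)) (.node 1 3 (.cons 0x2134567890 (.cons 0x7890654312 .nil)) (.node 3 5 (.cons 0x2354678901 (.cons 0x9876012354 .nil)) .done .done) .done)) .done)) .done))) (.node 0 3 .nil (.node 2 9 (.cons 0x6129870543 (.cons 0x8921670345 (.cons 0x7892165430 (.cons 0x7892165034 (.cons 0x7892305461 .nil))))) .done (.node 0 8 .nil (.node 3 9 (.cons 0x8765439021 (.cons 0x5439807612 (.cons 0x9345612087 .nil))) (.node 1 5 (.cons 0x8765120934 (.cons 0x4390876512 .nil)) (.node 2 7 (.cons 0x4398721650 (.cons 0x9801546723 (.cons 0x9805164327 (.cons 0x9803276154 .nil)))) .done .done) .done) .done) .done)) .done)) .done)) .done)))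
noncomputable def tc9_2_41 : T := (.node 0 3 .nil (.node 2 4 (.cons 0x9870561243 (.cons 0x9876542103 (.cons 0x9870342165 .nil))) (.node 5 9 (.cons 0x4598761032 (.cons 0x4598761230 .nil)) (.node 0 8 (.cons 0x5980761243 (.cons 0x9543208761 .nil)) .done (.node 1 5 (.cons 0x8907651243 .nil) (.node 1 7 (.cons 0x8903456712 .nil) (.node 0 6 (.cons 0x8906712345 (.cons 0x9871605432 .nil)) .done (.node 5 8 (.cons 0x9856703421 (.cons 0x9854230167 (.cons 0x6712458903 .nil))) (.leaf 0x2430985671 0 .done) .done)) .done) .done)) .done) (.node 2 7 (.cons 0x8903456721 .nil) (.node 2 4 (.cons 0x9870561243 .nil) (.node 2 5 .nil (.node 0 8 (.cons 0x9803456721 (.cons 0x9803452167 .nil)) (.node 7 9 (.cons 0x8970561243 (.cons 0x8976125430 (.cons 0x8976103254 (.cons 0x4523089761 .nil)))) .done .done) (.node 3 7 (.cons 0x8901245673 .nil) (.node 1 7 (.cons 0x8903456712 .nil) (.node 2 6 (.cons 0x6217890543 .nil) (.node 3 6 (.cons 0x6345098712 .nil) (.node 0 6 .nil (.node 1 4 (.cons 0x1452367890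 (.cons 0x7890632541 .nil)) (.leaf 0x987143625 1 .done) .done) .done) .done) .done) (.node 2 6 (.cons 0x9873261054 .nil) (.node 2 8 (.cons 0x3765428901 .nil) (.node 2 9 (.cons 0x8924370561 .nil) .done .done) .done) .done)) .done)) (.node 3 7 (.cons 0x6542109873 .nil) (.node 1 7 (.cons 0x8903456712 .nil) (.node 0 6 .nil (.node 1 3 (.cons 0x2134567890 (.cons 0x9872134560 .nil)) (.leaf 0x654213789 0 .done) (.node 3 6 (.cons 0x6345098712 .nil) (.node 2 6 (.cons 0x6217890543 .nil) (.leaf 0x987126345 0 (.node 6 8 (.cons 0x5430986712 .nil) .done .done)) .done) .done)) .done) (.node 3 9 (.cons 0x5612439870 .nil) (.node 0 6 (.cons 0x1278934560 .nil) (.node 0 4 (.cons 0x6540127893 .nil) (.node 0 8 (.cons 0x9803456721 .nil) .done .done) .done) (.node 3 6 (.cons 0x2456378901 .nil) (.node 1 3 (.cons 0x2134567890 .nil) (.node 3 5 (.cons 0x6789012354 .nil) (.node 3 8 (.cons 0x9830127654 .nil) .done .done) .done) .done) .done)) .done)) .done)) (.node 1 7 (.cons 0x8903456712 .nil)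 (.node 1 3 (.cons 0x2134567890 .nil) (.node 0 6 (.cons 0x7890654312 .nil) (.node 1 5 (.cons 0x6098723154 .nil) (.node 0 4 (.cons 0x6540987213 .nil) (.node 1 4 (.cons 0x3145609872 .nil) .done .done) .done) .done) (.node 3 9 (.cons 0x8765439021 .nil) (.node 0 4 (.cons 0x3987216540 .nil) (.leaf 0x1278930456 0 (.node 0 6 .nil (.node 2 5 (.cons 0x4312567890 (.cons 0x4398706521 .nil)) (.leaf 0x9876521340 1 .done) .done) .done)) (.node 1 8 (.cons 0x2093456781 .nil) (.leaf 0x5439021876 0 (.leaf 0x4390218765 1 .done)) .done)) .done)) (.node 7 9 .nil (.node 2 4 (.cons 0x9870561243 (.cons 0x8976542103 (.cons 0x8970561243 (.cons 0x8970342165 .nil)))) .done (.node 2 6 (.cons 0x6217890543 .nil) (.node 2 5 (.cons 0x8976103254 .nil) (.node 2 4 (.cons 0x9870561243 .nil) (.node 1 8 (.cons 0x7981623450 .nil) (.node 2 8 (.cons 0x7654309821 .nil) (.node 2 9 (.cons 0x3456187920 .nil) .done .done) (.leaf 0x4307981652 0 .done)) .done) .done) (.node 0 6 .nil (.node 2 8 (.cons 0x7654309821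 (.cons 0x9821760345 (.cons 0x5430617982 .nil))) .done (.node 3 6 (.cons 0x6345098712 .nil) (.node 4 6 (.cons 0x8972305461 .nil) (.node 6 8 (.cons 0x4503279861 .nil) (.node 6 9 (.cons 0x7896123450 .nil) .done .done) .done) .done) .done)) .done)) .done)) .done)) .done)) (.node 0 6 .nil (.node 3 5 (.cons 0x6789012354 (.cons 0x9876012354 .nil)) (.node 3 7 (.cons 0x9873450612 .nil) (.node 2 4 (.cons 0x9870561243 (.cons 0x8901245673 (.cons 0x9873016542 .nil))) (.node 2 7 (.cons 0x3456098721 .nil) (.node 2 9 (.cons 0x8924567301 (.cons 0x6542987301 (.cons 0x4378921650 .nil))) (.leaf 0x378924561 1 .done) .done) .done) (.node 4 9 (.cons 0x3498705612 (.cons 0x3789456012 .nil)) (.leaf 0x5061237894 0 (.node 2 5 (.cons 0x3016789452 (.cons 0x8945210673 .nil)) (.leaf 0x789435216 0 (.node 1 3 (.cons 0x2549876130 (.cons 0x8945213760 (.cons 0x7890654312 (.cons 0x6052137894 .nil)))) .done .done)) (.node 1 5 (.cons 0x6150789432 (.cons 0x8945106732 .nil)) .done .done))) .done)) (.node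 3 9 (.cons 0x8765439021 .nil) (.node 0 8 (.cons 0x9345612087 .nil) (.node 2 7 (.cons 0x4561039872 (.cons 0x1278934560 (.cons 0x7216089354 .nil))) .done .done) (.node 1 3 (.cons 0x2134567890 (.cons 0x7890654312 .nil)) (.node 1 5 (.cons 0x8765120934 .nil) .done .done) .done)) .done)) (.node 1 7 (.cons 0x8906712345 .nil) (.node 3 7 .nil (.node 2 4 (.cons 0x9870561243 (.cons 0x8901245673 (.cons 0x9873016542 .nil))) (.node 3 6 (.cons 0x9873650124 .nil) (.leaf 0x5637890124 1 .done) .done) (.node 0 8 .nil (.node 5 9 (.cons 0x4598761032 (.cons 0x7612345980 (.cons 0x9543208761 (.cons 0x4598067321 .nil)))) .done (.node 0 4 .nil (.node 2 9 (.cons 0x5437608921 (.cons 0x8921045673 (.cons 0x5612987043 (.cons 0x6504378921 (.cons 0x5403298761 .nil))))) .done .done) .done)) .done)) (.node 2 6 (.cons 0x6217890543 .nil) (.node 3 6 (.cons 0x6345098712 .nil) (.node 3 7 (.cons 0x4378905621 .nil) (.node 4 6 (.cons 0x5467890123 .nil) (.node 6 8 (.cons 0x9860543712 .nil) (.node 6 9 (.cons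 0x7896123450 .nil) .done .done) .done) .done) .done) (.node 2 7 .nil (.node 4 9 (.cons 0x7894503261 (.cons 0x3016549872 (.cons 0x3054987261 (.cons 0x6105498723 .nil)))) (.leaf 0x5032617894 0 .done) (.node 2 5 (.cons 0x8906712543 .nil) (.node 2 4 (.cons 0x9871624503 .nil) (.node 4 9 (.cons 0x7894503261 .nil) (.leaf 0x5032617894 0 (.node 0 4 .nil (.node 1 8 (.cons 0x6718903452 (.cons 0x7652189043 .nil)) (.leaf 0x9034526718 0 .done) .done) (.leaf 0x8945032617 1 .done))) .done) .done) .done)) .done)) .done)) .done)) .done))) (.node 4 6 (.cons 0x5467890123 .nil) tc9_2_40 (.node 0 3 .nil (.node 5 9 (.cons 0x4598761032 (.cons 0x4598761230 .nil)) (.node 0 6 (.cons 0x7895061234 .nil) (.leaf 0x9543210678 0 .done) (.node 0 8 (.cons 0x7612345980 .nil) (.leaf 0x3459807612 1 (.node 0 4 (.cons 0x9876123045 .nil) (.node 2 4 (.cons 0x9876542103 .nil) (.node 3 9 (.cons 0x3987016542 (.cons 0x7893421650 (.cons 0x5423987610 .nil))) .done (.node 2 9 (.cons 0x7892165034 (.cons 0x3078924561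 .nil)) (.node 3 7 (.cons 0x8921045673 (.cons 0x4378921650 .nil)) (.leaf 0x5980376124 1 .done) .done) .done)) .done) .done)) .done)) (.node 0 4 .nil (.node 3 9 (.cons 0x8765439021 (.cons 0x7893405612 (.cons 0x5401678932 .nil))) (.node 2 7 (.cons 0x8903456721 (.cons 0x6540127893 (.cons 0x5612789340 (.cons 0x3987216540 .nil)))) .done .done) (.node 0 8 .nil (.node 5 9 (.cons 0x7612345980 (.cons 0x9543208761 (.cons 0x7612308954 .nil))) (.leaf 0x4321670895 0 .done) (.node 0 6 .nil (.node 1 8 (.cons 0x7654309812 .nil) (.node 5 9 (.cons 0x9543207816 (.cons 0x7061895432 (.cons 0x9543206187 .nil))) (.node 4 7 (.cons 0x8954761230 (.cons 0x8954760321 (.cons 0x6095478123 .nil))) .done .done) (.node 2 5 (.cons 0x9816703452 (.cons 0x9812543067 (.cons 0x7609812543 .nil))) (.node 3 9 (.cons 0x3987612540 (.cons 0x4523987061 .nil)) (.leaf 0x218765439 0 (.leaf 0x4390218765 1 .done)) .done) .done)) .done) .done)) .done)) (.node 1 5 (.cons 0x4309876512 .nil) (.node 1 3 (.cons 0x2134567890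 .nil) (.node 0 8 .nil (.node 5 9 (.cons 0x7612345980 (.cons 0x9543208761 (.cons 0x4598076132 .nil))) (.leaf 0x4321670895 0 .done) (.node 3 9 (.cons 0x8765439021 .nil) (.node 0 6 .nil (.node 5 7 (.cons 0x9345780216 (.cons 0x9806754312 (.cons 0x4578932160 .nil))) .done (.node 0 4 .nil (.node 2 7 (.cons 0x9872165034 (.cons 0x6540127893 (.cons 0x5612789340 (.cons 0x3987216540 .nil)))) .done .done) .done)) (.node 3 5 (.cons 0x6789012354 .nil) (.node 0 4 (.cons 0x5401678932 .nil) (.node 0 6 (.cons 0x9876012354 .nil) .done .done) .done) .done)) .done)) (.node 0 6 (.cons 0x7890654312 .nil) (.node 0 4 .nil (.node 2 6 (.cons 0x9870543261 (.cons 0x7890431265 (.cons 0x7890456213 .nil))) .done (.node 0 8 .nil (.node 2 7 (.cons 0x6543127890 (.cons 0x9806543127 .nil)) (.node 4 9 (.cons 0x3498721650 (.cons 0x5613498072 (.cons 0x6512780943 (.cons 0x6513490872 .nil)))) .done (.leaf 0x5431278906 1 .done)) .done) .done)) .done) .done)) (.node 0 8 (.cons 0x9807615432 .nil) (.node 1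 3 (.cons 0x2134567890 .nil) (.node 3 7 .nil (.node 1 8 (.cons 0x6709815432 (.cons 0x9021873456 .nil)) (.node 4 6 (.cons 0x5189076432 (.cons 0x9056437812 (.cons 0x7346509812 (.cons 0x8901546732 .nil)))) .done .done) (.node 0 6 (.cons 0x9806734512 .nil) (.node 0 4 .nil (.node 2 6 (.cons 0x8907623451 (.cons 0x9873405621 (.cons 0x9804512673 .nil))) .done .done) .done) .done)) (.node 0 6 (.cons 0x7890654312 .nil) (.node 0 4 .nil (.node 2 6 (.cons 0x8907623451 (.cons 0x7890431265 (.cons 0x7890456213 .nil))) .done .done) .done) .done)) .done) .done)) .done))) .done)))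
noncomputable def tc9_2_42 : T := (.node 0 7 (.cons 0x9870543216 .nil) tc9_2_41 (.node 4 6 (.cons 0x5467890123 .nil) (.node 3 9 (.cons 0x5467893210 .nil) tc9_2_39 (.node 5 8 (.cons 0x7645890123 .nil) tc9_2_38 (.node 1 5 .nil (.node 0 8 (.cons 0x9087612345 (.cons 0x9087615432 .nil)) (.node 6 8 (.cons 0x9054321687 .nil) (.node 3 9 (.cons 0x8765439021 (.cons 0x9320154687 (.cons 0x8765120934 .nil))) (.node 4 7 (.cons 0x5476893210 (.cons 0x2156743980 (.cons 0x8093476512 (.cons 0x9347680215 .nil)))) .done (.node 1 8 (.cons 0x6781543902 .nil) (.leaf 0x5439021876 0 .done) .done)) (.node 0 3 (.cons 0x7689032154 .nil) (.node 0 4 (.cons 0x7689045123 .nil) (.node 4 7 (.cons 0x9054786123 .nil) (.node 0 6 (.cons 0x9806743215 .nil) .done (.node 3 9 (.cons 0x8674512390 (.cons 0x6874512390 (.cons 0x8765120934 .nil))) (.leaf 0x547861239 0 .done) .done)) .done) (.node 2 4 (.cons 0x7689032451 (.cons 0x9032451687 .nil)) (.leaf 0x3098761542 0 (.leaf 0x5167890324 1 .done)) .done)) .done))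 (.node 0 4 (.cons 0x3409876512 .nil) (.node 0 3 (.cons 0x4309876512 .nil) (.node 2 7 (.cons 0x8903456721 (.cons 0x9803451276 (.cons 0x6432789051 (.cons 0x8903276451 .nil)))) .done (.node 2 4 (.cons 0x3421567890 .nil) (.leaf 0x5167890324 1 (.node 0 7 (.cons 0x8907651243 .nil) .done (.node 3 7 (.cons 0x6542109873 (.cons 0x6512437890 .nil)) (.leaf 0x1564237890 1 (.leaf 0x156423789 0 .done)) .done))) .done)) (.node 6 8 (.cons 0x9054321687 (.cons 0x7689043215 (.cons 0x7689045123 .nil))) (.node 1 8 (.cons 0x9023467815 .nil) (.node 3 9 (.cons 0x8765439021 (.cons 0x9345120867 (.cons 0x9320154687 (.cons 0x7815643902 .nil)))) (.leaf 0x5439021876 0 .done) .done) .done) .done)) .done)) (.node 2 5 (.cons 0x3254678901 .nil) (.node 1 7 (.cons 0x8901764523 .nil) (.node 1 8 (.cons 0x5234671890 .nil) (.node 1 3 (.cons 0x2134567890 .nil) (.node 1 4 .nil (.node 0 3 (.cons 0x9876451032 (.cons 0x5678903412 (.cons 0x8903417652 .nil))) .done (.node 1 9 .nil (.node 0 3 (.cons 0x9876451032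 .nil) (.leaf 0x6789120345 0 (.node 5 8 (.cons 0x1764325890 (.cons 0x2345876190 (.cons 0x4587619032 .nil))) .done .done)) .done) .done)) .done) (.node 3 9 (.cons 0x2398764510 .nil) (.node 1 3 (.cons 0x2134567890 .nil) (.node 1 9 .nil (.node 0 8 (.cons 0x7645108932 (.cons 0x7643251980 (.cons 0x9154320876 .nil))) .done .done) .done) (.node 1 3 (.cons 0x2134567890 .nil) (.node 1 9 .nil (.node 0 8 (.cons 0x9346517802 (.cons 0x7643251980 (.cons 0x9154320876 .nil))) .done .done) .done) (.leaf 0x218765439 0 (.leaf 0x4390218765 1 .done)))) .done)) (.node 1 8 (.cons 0x9021876543 .nil) (.node 1 3 (.cons 0x2134567890 .nil) (.node 1 4 .nil (.node 0 3 (.cons 0x9876451032 (.cons 0x5678903412 .nil)) (.leaf 0x9876521430 1 .done) .done) (.node 1 9 .nil (.node 3 8 (.cons 0x6712543890 (.cons 0x7645238910 (.cons 0x8345209176 .nil))) .done (.node 1 4 .nil (.node 2 7 (.cons 0x7256431890 (.cons 0x6509872143 (.cons 0x3146509872 .nil))) (.leaf 0x5643127890 1 .done) .done) .done)) .done))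 (.node 0 7 (.cons 0x9815234670 .nil) (.node 6 9 (.cons 0x2346987051 .nil) (.leaf 0x512346987 0 (.leaf 0x5123469870 1 (.node 5 9 (.cons 0x9518764320 .nil) (.node 7 9 (.cons 0x5097816432 .nil) .done .done) .done))) (.leaf 0x3251890764 0 .done)) .done)) .done)) (.node 5 8 .nil (.node 2 9 (.cons 0x3298764510 (.cons 0x7854610923 (.cons 0x7850923461 .nil))) (.node 3 9 (.cons 0x2398764510 (.cons 0x7854610932 (.cons 0x9320158764 (.cons 0x4587610932 .nil)))) .done .done) (.node 5 9 (.cons 0x8761234590 .nil) (.node 3 5 (.cons 0x2354678901 .nil) (.node 5 7 .nil (.node 2 9 (.cons 0x3298764510 (.cons 0x8754610923 (.cons 0x8750923461 .nil))) .done .done) .done) .done) .done)) .done)) (.node 2 5 (.cons 0x3254678901 .nil) (.node 2 7 (.cons 0x8901546723 .nil) (.node 5 8 (.cons 0x9058723461 .nil) (.node 5 9 (.cons 0x8761234590 .nil) (.node 3 5 (.cons 0x2354678901 .nil) (.node 5 7 .nil (.node 0 6 (.cons 0x4327609851 (.cons 0x8906754321 (.cons 0x8906751234 .nil))) .done .done) .done)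 .done) (.node 2 8 (.cons 0x7645109823 .nil) (.node 5 9 (.cons 0x8761234590 .nil) (.node 3 5 (.cons 0x2354678901 .nil) (.node 5 7 (.cons 0x9016457823 .nil) .done .done) .done) .done) .done)) (.node 2 8 (.cons 0x7645109823 .nil) (.node 3 5 (.cons 0x2354678901 .nil) (.node 5 7 (.cons 0x9016457823 .nil) (.node 7 9 (.cons 0x3456128790 .nil) (.node 2 4 (.cons 0x3564287901 .nil) (.node 2 9 (.cons 0x8764532901 .nil) .done .done) (.leaf 0x978235461 1 .done)) .done) (.node 5 7 (.cons 0x9016457823 .nil) (.node 5 9 (.cons 0x8761234590 .nil) (.node 5 8 .nil (.node 1 9 (.cons 0x3254678910 (.cons 0x3278546190 (.cons 0x5876432091 .nil))) (.leaf 0x6432091587 0 .done) .done) .done) .done) .done)) (.node 3 5 (.cons 0x2354678901 .nil) (.node 5 7 (.cons 0x1576432890 .nil) (.node 5 9 (.cons 0x8761234590 .nil) (.node 5 8 .nil (.node 0 6 (.cons 0x4328906751 (.cons 0x7609854321 (.cons 0x7609851234 .nil))) .done .done) .done) .done) (.node 2 6 (.cons 0x4532678901 .nil) (.node 2 9 (.cons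 0x8761092354 .nil) (.node 2 4 .nil (.node 0 7 (.cons 0x8709216543 (.cons 0x8709243561 (.cons 0x6709824351 (.cons 0x3428907651 .nil)))) .done .done) .done) .done) .done)) .done)) .done)) (.node 5 9 (.cons 0x8761234590 .nil) (.node 2 7 (.cons 0x8901546723 .nil) (.node 5 7 .nil (.node 2 8 (.cons 0x1678234590 (.cons 0x9016457823 (.cons 0x1576432890 .nil))) .done (.node 3 5 (.cons 0x2354678901 .nil) (.node 5 8 .nil (.node 0 6 (.cons 0x9876012354 (.cons 0x7609854321 (.cons 0x7609851234 .nil))) .done .done) .done) .done)) (.node 5 8 (.cons 0x9058723461 .nil) (.node 2 8 (.cons 0x1678234590 .nil) (.node 3 5 (.cons 0x2354678901 .nil) (.node 5 7 (.cons 0x9016457823 .nil) .done .done) .done) .done) .done)) .done) .done)) .done))) .done))) (.node 5 8 (.cons 0x7612345890 .nil) tc9_2_37 (.node 1 8 (.cons 0x9021876543 .nil) (.node 3 9 (.cons 0x9345678120 .nil) (.node 0 7 (.cons 0x2189345670 .nil) (.leaf 0x3456702189 1 (.leaf 0x4398120765 0 (.node 0 3 .nil (.node 2 4 (.cons 0x7056189342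 (.cons 0x9876542103 (.cons 0x7890342165 .nil))) (.node 2 9 (.cons 0x7056189243 (.cons 0x7034298165 (.cons 0x5670342981 (.cons 0x3076542981 .nil)))) .done .done) (.node 5 9 (.cons 0x9567812034 .nil) (.node 5 8 (.cons 0x4320958761 .nil) (.node 4 9 (.cons 0x6702394581 .nil) (.node 1 9 (.cons 0x6781954320 .nil) (.node 0 6 (.cons 0x9543206781 .nil) (.node 4 6 (.cons 0x9320764581 .nil) (.leaf 0x764581932 0 (.leaf 0x8546702391 0 (.node 6 8 (.cons 0x5439186702 .nil) .done .done))) .done) .done) (.leaf 0x761854932 0 .done)) .done) (.node 0 6 .nil (.node 4 7 (.cons 0x3478905612 (.cons 0x4789506123 (.cons 0x8123954760 (.cons 0x8120674593 .nil)))) .done (.node 5 8 (.cons 0x7609854321 .nil) (.node 0 4 (.cons 0x7604598123 .nil) (.node 0 8 .nil (.node 3 7 (.cons 0x4598123760 (.cons 0x4598067321 (.cons 0x6739540812 .nil))) .done .done) .done) .done) .done)) .done)) .done)) .done))) (.node 0 6 (.cons 0x9345602187 .nil) (.node 1 7 (.cons 0x8906712345 .nil) (.node 1 3 (.cons 0x2134567890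 .nil) (.node 1 5 .nil (.node 6 9 (.cons 0x8712345096 (.cons 0x9678154320 .nil)) (.node 0 3 (.cons 0x7812039654 (.cons 0x4309876512 .nil)) (.node 2 4 (.cons 0x7890561243 (.cons 0x7896150324 (.cons 0x7698154230 (.cons 0x8715423096 .nil)))) .done .done) .done) .done) .done) (.node 5 8 (.cons 0x7609854321 .nil) (.node 1 9 (.cons 0x6785432091 .nil) (.node 5 9 (.cons 0x4320958761 .nil) (.node 2 9 (.cons 0x9206718543 .nil) (.node 7 9 (.cons 0x6543978120 .nil) (.leaf 0x4321897605 0 .done) .done) .done) .done) (.node 6 8 (.cons 0x7865439021 .nil) (.node 3 8 (.cons 0x5438906712 .nil) (.node 2 5 (.cons 0x8906712543 .nil) (.node 2 6 (.cons 0x5439026871 .nil) (.node 6 9 (.cons 0x1786934520 .nil) .done .done) (.node 1 9 (.cons 0x8671902543 .nil) (.leaf 0x6719025438 0 .done) .done)) .done) .done) .done)) .done)) (.node 6 8 (.cons 0x7865439021 .nil) (.node 5 8 (.cons 0x7856120934 .nil) (.node 6 9 .nil (.node 3 7 (.cons 0x4568739021 (.cons 0x6987321054 (.cons 0x4509687321 (.cons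 0x9650218734 (.cons 0x4569378102 .nil))))) .done (.node 1 9 (.cons 0x7691854320 .nil) (.node 4 9 (.cons 0x7694581023 .nil) (.node 7 9 (.cons 0x6543978120 .nil) (.leaf 0x4978165023 1 (.leaf 0x8165023497 0 .done)) .done) .done) .done)) .done) .done) .done)) (.leaf 0x6781209345 0 (.node 5 9 (.cons 0x6781023954 .nil) (.node 1 5 .nil (.node 4 6 (.cons 0x5467890123 (.cons 0x2398764510 (.cons 0x8764510932 (.cons 0x7890516432 .nil)))) (.leaf 0x5102398764 0 .done) (.node 3 5 (.cons 0x6789012354 .nil) (.node 0 6 (.cons 0x9876012354 .nil) (.node 2 5 (.cons 0x7601893254 .nil) (.node 5 7 (.cons 0x9812345760 .nil) (.node 5 8 (.cons 0x7609854321 .nil) .done .done) .done) (.node 4 9 (.cons 0x6789453210 .nil) (.leaf 0x3549876012 0 (.leaf 0x7894532106 0 .done)) .done)) .done) .done)) (.node 6 9 .nil (.node 4 7 (.cons 0x9347816502 (.cons 0x6987450123 (.cons 0x8743216905 (.cons 0x4781695023 .nil)))) (.node 2 5 (.cons 0x6125098743 (.cons 0x3478961250 (.cons 0x8102547693 .nil))) .done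 .done) (.node 0 6 (.cons 0x4593206781 .nil) (.node 1 9 (.cons 0x4591876023 .nil) (.leaf 0x2067819543 0 (.node 1 7 (.cons 0x7189605432 .nil) (.node 6 8 (.cons 0x9054321786 .nil) (.node 4 6 (.cons 0x1876459320 .nil) (.leaf 0x7864509321 0 (.leaf 0x546871239 0 .done)) .done) .done) .done)) .done) .done)) .done)) .done)))) (.node 6 9 (.cons 0x7812096543 .nil) tc9_2_35 (.node 3 9 (.cons 0x8765439021 .nil) (.node 5 9 (.cons 0x6781209543 .nil) (.node 6 9 .nil (.node 3 5 (.cons 0x6789012354 (.cons 0x8769012354 .nil)) (.node 4 7 (.cons 0x3478905612 (.cons 0x8743205961 (.cons 0x8743216905 (.cons 0x2169874350 (.cons 0x9618743502 .nil))))) .done .done) (.node 2 6 (.cons 0x3459026781 .nil) (.node 6 8 (.cons 0x7681209345 .nil) (.node 3 6 (.cons 0x2095436781 .nil) (.node 1 3 (.cons 0x4598762310 .nil) (.node 3 5 (.cons 0x6789012354 .nil) .done (.leaf 0x5431876209 0 .done)) .done) .done) (.node 0 6 .nil (.node 1 3 (.cons 0x2134567890 (.cons 0x9543187602 (.cons 0x7890654312 .nil)))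 (.node 1 7 (.cons 0x8176209543 (.cons 0x4506987123 .nil)) .done .done) (.node 6 8 (.cons 0x7681209345 .nil) (.node 3 6 (.cons 0x2095436781 .nil) (.node 4 6 (.cons 0x5467890123 .nil) .done .done) .done) .done)) .done)) .done)) (.node 6 9 .nil (.node 5 7 (.cons 0x8120934576 (.cons 0x4321698750 (.cons 0x8750961234 .nil))) (.node 4 8 (.cons 0x5761843902 (.cons 0x8457693201 (.cons 0x5784320961 .nil))) (.leaf 0x6932018457 0 .done) .done) (.node 3 6 (.cons 0x4590218763 .nil) (.node 1 9 (.cons 0x7819634502 .nil) (.node 1 3 (.cons 0x2134567890 .nil) (.node 1 7 (.cons 0x4501789632 .nil) (.node 3 5 (.cons 0x6789012354 .nil) (.node 0 3 (.cons 0x8719654302 .nil) (.node 3 7 (.cons 0x4378905612 .nil) .done .done) .done) .done) .done) .done) (.node 5 8 (.cons 0x9012367854 .nil) (.node 1 9 (.cons 0x1967854320 .nil) (.leaf 0x8543201967 0 .done) (.node 3 5 (.cons 0x6789012354 .nil) (.node 1 3 (.cons 0x2134567890 .nil) (.node 1 9 (.cons 0x6785432091 .nil) .done .done) .done) .done))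 .done)) .done)) .done)) (.node 1 7 (.cons 0x8712093456 .nil) (.node 0 6 (.cons 0x2178934560 .nil) (.node 6 9 (.cons 0x6987123450 .nil) (.node 1 9 .nil (.node 0 8 (.cons 0x9806712345 (.cons 0x6543917802 .nil)) (.node 4 6 (.cons 0x5467890123 (.cons 0x7802193465 (.cons 0x5087196432 .nil))) .done .done) (.node 1 3 (.cons 0x2134567890 .nil) (.node 1 5 (.cons 0x8769023451 .nil) .done .done) .done)) (.node 1 9 .nil (.node 6 8 (.cons 0x9345687120 (.cons 0x7865439120 (.cons 0x7198605432 .nil))) .done (.node 5 9 (.cons 0x8954321760 .nil) (.node 1 3 (.cons 0x2134567890 .nil) (.node 1 5 (.cons 0x8761590234 .nil) .done .done) .done) .done)) .done)) (.node 1 9 (.cons 0x8719345602 .nil) (.node 6 9 (.cons 0x6987123450 .nil) (.node 6 8 (.cons 0x9345687120 .nil) (.node 2 7 (.cons 0x7234506891 .nil) (.leaf 0x689172345 1 (.leaf 0x5068917234 0 .done)) .done) .done) .done) .done)) (.node 1 9 .nil (.node 6 8 (.cons 0x2178654390 (.cons 0x7865439120 (.cons 0x6871905432 .nil))) (.node 5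 8 (.cons 0x7856120934 (.cons 0x6785432091 .nil)) (.node 6 9 (.cons 0x1967854320 .nil) (.node 0 7 (.cons 0x4586932170 (.cons 0x6587021934 (.cons 0x8543207691 .nil))) (.leaf 0x4581207693 0 .done) .done) .done) .done) (.node 1 3 (.cons 0x2134567890 .nil) (.node 1 5 .nil (.node 5 9 (.cons 0x8761590234 .nil) (.node 6 9 (.cons 0x8712345096 (.cons 0x8769023451 .nil)) .done .done) .done) .done) .done)) .done)) (.leaf 0x218765439 0 (.leaf 0x4390218765 1 .done)))) .done))) .done))))
noncomputable def uc9_2_6 : T := tc9_2_42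
theorem sub_c9_2_6 : root 9 refs9_2 [] 0x700000008706000000006050000000050300000000304000500004010000000010300000000302700000002018000500710 0xfe7fff3fff9fffd7ffc7ffedfff5ff73fff9fe5d 9 1 6 (.cons 0x5432167890 .nil) uc9_2_6 = true := by decide +kernel
noncomputable def tc9_2_43 : T := (.node 0 8 (.cons 0x9805432167 .nil) (.node 0 3 .nil (.node 5 9 (.cons 0x8764590123 (.cons 0x7895612034 (.cons 0x4598761032 (.cons 0x4598761230 .nil)))) .done (.node 1 8 (.cons 0x9034567812 .nil) (.node 6 8 (.cons 0x7689054321 .nil) (.node 2 8 (.cons 0x9034567821 .nil) (.node 3 8 (.cons 0x9012387645 .nil) (.node 5 8 (.cons 0x9058123467 .nil) .done .done) .done) .done) (.node 3 6 (.cons 0x7634509812 .nil) (.node 2 6 (.cons 0x7621890543 .nil) (.node 6 8 (.cons 0x7689054321 .nil) (.node 6 9 (.cons 0x5430967812 .nil) .done .done) .done) (.node 6 8 (.cons 0x7689054321 .nil) (.node 2 6 (.cons 0x7621890543 .nil) (.node 6 9 (.cons 0x5430967812 .nil) .done .done) .done) .done)) .done)) .done))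 (.node 0 7 .nil (.node 0 3 (.cons 0x9870345612 .nil) (.node 1 3 (.cons 0x2134567890 (.cons 0x8907654312 .nil)) (.node 5 9 (.cons 0x9543087612 (.cons 0x6123459870 (.cons 0x4316598702 (.cons 0x4598706132 .nil)))) .done (.node 1 8 (.cons 0x9034567812 .nil) (.node 2 6 (.cons 0x9034562187 (.cons 0x7098126543 .nil)) (.node 2 9 (.cons 0x8765430921 (.cons 0x7061892345 (.cons 0x3456129870 .nil))) .done .done) .done) .done)) .done) (.node 0 3 .nil (.node 5 9 (.cons 0x8764590123 (.cons 0x7895612034 (.cons 0x4598761032 (.cons 0x4598761230 .nil)))) .done (.node 0 4 .nil (.node 5 9 (.cons 0x8764590123 (.cons 0x7895612043 (.cons 0x3216789540 .nil))) (.node 1 8 (.cons 0x5902346781 (.cons 0x7618950432 .nil)) (.node 6 9 (.cons 0x2345961870 (.cons 0x5961870432 (.cons 0x7896123045 .nil))) (.leaf 0x1234569078 1 .done) .done) .done) .done) .done)) .done)) .done)) (.node 0 7 (.cons 0x8907612345 .nil) (.node 0 3 .nil (.node 5 9 (.cons 0x8764590123 (.cons 0x8764590321 .nil)) (.node 5 8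 (.cons 0x7612345890 (.cons 0x7612309854 .nil)) (.node 1 9 (.cons 0x9120346785 .nil) (.leaf 0x4302195876 1 (.leaf 0x3467859120 0 .done)) (.node 2 7 (.cons 0x1672345890 (.cons 0x4589032761 .nil)) (.node 1 9 (.cons 0x5876432091 (.cons 0x8721956430 (.cons 0x2761985430 .nil))) .done .done) .done)) (.node 5 7 (.cons 0x8903216754 .nil) (.node 4 8 (.cons 0x1675984320 (.cons 0x7561209843 (.cons 0x5761209843 .nil))) (.leaf 0x6759843201 1 (.leaf 0x7610234895 0 .done)) (.node 4 8 (.cons 0x1675984320 (.cons 0x9843021657 (.cons 0x2034895761 (.cons 0x9845761032 .nil)))) (.leaf 0x6759843201 1 .done) .done)) .done)) (.node 2 7 (.cons 0x6543098721 .nil) (.node 2 6 (.cons 0x7890345621 .nil) (.node 6 9 (.cons 0x1278965430 .nil) (.node 3 6 (.cons 0x9872103654 .nil) (.node 6 8 (.cons 0x7689054321 .nil) .done .done) .done) .done) (.node 2 6 (.cons 0x7890345621 .nil) (.node 3 6 (.cons 0x4563098721 .nil) (.node 6 8 (.cons 0x7689054321 .nil) (.node 6 9 .nil (.node 1 3 (.cons 0x2134567890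 (.cons 0x4569872130 (.cons 0x8721309654 .nil))) .done .done) .done) .done) .done) .done)) .done)) (.node 0 4 .nil (.node 3 6 (.cons 0x9876321045 .nil) (.node 2 4 (.cons 0x7890124563 .nil) (.node 1 5 (.cons 0x9876015423 (.cons 0x9876512043 (.cons 0x7890215634 .nil))) (.node 6 9 (.cons 0x8769043215 (.cons 0x8769045123 .nil)) .done .done) (.node 5 8 (.cons 0x7612345890 (.cons 0x9854210763 (.cons 0x7098543612 (.cons 0x7632458901 (.cons 0x3670985421 .nil))))) .done .done)) (.node 1 5 (.cons 0x9876512043 (.cons 0x7890436512 .nil)) (.node 2 4 (.cons 0x9876015423 (.cons 0x8907634215 .nil)) (.leaf 0x1243678905 1 .done) (.node 6 9 (.cons 0x8769045123 .nil) (.node 3 8 (.cons 0x5438907612 (.cons 0x7698321054 (.cons 0x6907834512 (.cons 0x4510967832 .nil)))) .done .done) .done)) .done)) (.node 0 8 .nil (.node 1 7 (.cons 0x8905432176 (.cons 0x9805432176 .nil)) (.node 6 9 (.cons 0x7698054321 .nil) (.leaf 0x7123456908 0 (.node 1 5 (.cons 0x7698051234 (.cons 0x7809643215 .nil)) (.node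 3 8 (.cons 0x4389670512 (.cons 0x9021564387 (.cons 0x9015467832 .nil))) (.node 2 4 (.cons 0x7650983421 (.cons 0x9876015423 (.cons 0x7651243890 .nil))) .done .done) .done) (.node 3 6 (.cons 0x8712369045 (.cons 0x9632178045 .nil)) (.node 1 4 (.cons 0x5678902143 (.cons 0x7698054123 .nil)) (.node 2 5 (.cons 0x5214367890 (.cons 0x9807612543 (.cons 0x9087634125 (.cons 0x9087125634 .nil)))) (.leaf 0x6789052143 1 .done) .done) .done) .done))) (.node 2 4 (.cons 0x8905671243 (.cons 0x9805671243 .nil)) (.node 0 3 (.cons 0x8903421765 .nil) (.node 3 7 (.cons 0x8901245673 (.cons 0x9801245673 .nil)) (.node 1 3 (.cons 0x2134567890 (.cons 0x9801376542 .nil)) (.node 1 5 (.cons 0x8902437651 (.cons 0x9802437651 .nil)) (.node 2 9 (.cons 0x8765430921 (.cons 0x8092437156 (.cons 0x8092376154 .nil))) .done .done) .done) .done) .done) .done) .done)) .done) .done)) .done)) (.node 6 8 (.cons 0x7689054321 .nil) (.node 0 7 (.cons 0x9867054321 .nil) (.node 1 7 (.cons 0x9867123450 .nil) (.node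 1 9 (.cons 0x7689123450 .nil) (.node 6 9 (.cons 0x8967123450 .nil) (.node 0 3 (.cons 0x8967123054 .nil) (.node 0 4 (.cons 0x3045698712 .nil) (.node 0 8 (.cons 0x4508967123 .nil) .done .done) .done) .done) (.node 2 7 (.cons 0x7234506891 .nil) (.leaf 0x5068917234 0 .done) (.leaf 0x4507689123 0 .done))) (.node 3 6 (.cons 0x8905436712 .nil) (.node 2 8 (.cons 0x5436712890 .nil) (.leaf 0x9821763450 1 (.node 2 6 .nil (.node 1 8 (.cons 0x9078126543 .nil) (.node 3 7 (.cons 0x9867321054 (.cons 0x9812056734 (.cons 0x4376509812 (.cons 0x9054673281 .nil)))) .done .done) .done) .done)) .done) .done)) (.node 4 7 (.cons 0x9867450123 .nil) (.node 1 7 (.cons 0x9867123450 .nil) (.node 3 6 .nil (.node 1 8 (.cons 0x9812056743 (.cons 0x9812056347 (.cons 0x7634509812 .nil))) .done (.node 0 8 (.cons 0x9801236745 .nil) (.node 2 6 (.cons 0x9087126543 .nil) (.node 2 7 (.cons 0x9805612743 .nil) .done .done) .done) .done)) .done) (.node 1 8 (.cons 0x5098167432 .nil) (.node 2 8 (.cons 0x5098234761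 .nil) (.node 0 8 .nil (.node 1 5 (.cons 0x9867432051 (.cons 0x9805167432 .nil)) (.leaf 0x7615098234 0 .done) .done) .done) (.node 4 8 (.cons 0x7612348905 .nil) (.node 2 8 (.cons 0x5098234761 .nil) (.node 2 6 (.cons 0x7621890543 .nil) (.node 3 6 (.cons 0x7634509812 .nil) .done .done) .done) .done) .done)) .done)) .done)) (.node 6 9 .nil (.node 1 7 (.cons 0x4509867123 (.cons 0x8967123450 .nil)) (.node 0 8 (.cons 0x3456908712 .nil) (.leaf 0x7123456908 0 (.node 0 4 (.cons 0x5409687123 .nil) (.node 0 7 (.cons 0x8967054321 .nil) .done .done) .done)) (.node 3 5 (.cons 0x4356789021 (.cons 0x8967120534 (.cons 0x8769012354 (.cons 0x8712096435 .nil)))) (.node 1 8 (.cons 0x9018764532 (.cons 0x7698123450 (.cons 0x7810964532 .nil))) .done .done) .done)) (.node 3 6 .nil (.node 1 7 (.cons 0x4509867123 (.cons 0x8905436712 .nil)) (.node 4 8 (.cons 0x7612348905 (.cons 0x9845012367 (.cons 0x9843650217 (.cons 0x9843671205 (.cons 0x9845017632 .nil))))) .done (.node 4 8 (.cons 0x9054867123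 (.cons 0x9845012367 (.cons 0x9021784365 .nil))) (.node 0 8 (.cons 0x8096712345 .nil) (.node 5 7 (.cons 0x3489057612 (.cons 0x9843675021 (.cons 0x9087546321 .nil))) (.leaf 0x9057612348 0 .done) .done) (.node 2 9 (.cons 0x3290548671 (.cons 0x3654871092 (.cons 0x8450923671 .nil))) .done .done)) .done)) (.node 2 6 .nil (.node 3 5 (.cons 0x4356789021 (.cons 0x4532678901 .nil)) (.node 0 3 (.cons 0x7890345621 .nil) (.node 4 9 (.cons 0x5498763210 (.cons 0x7894563012 (.cons 0x5498763012 (.cons 0x8762354901 .nil)))) .done .done) (.node 4 7 (.cons 0x2165347890 (.cons 0x9874532601 (.cons 0x9874536210 (.cons 0x6235478901 .nil)))) .done .done)) .done) .done)) .done)) .done)) .done)))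
noncomputable def tc9_2_44 : T := (.node 1 6 (.cons 0x5432167890 .nil) (.node 1 5 (.cons 0x7689051234 .nil) (.node 4 7 (.cons 0x9867432150 .nil) (.leaf 0x2347689051 0 (.node 0 7 (.cons 0x9867051234 .nil) (.node 0 3 (.cons 0x9867430512 .nil) (.node 0 4 (.cons 0x9876512043 .nil) .done .done) .done) (.leaf 0x8674321509 0 .done))) (.node 3 6 (.cons 0x7890215634 .nil) (.node 2 6 (.cons 0x7890623451 .nil) (.node 6 9 .nil (.node 0 7 (.cons 0x9870215643 (.cons 0x5120789643 .nil)) (.node 2 7 (.cons 0x6098723451 (.cons 0x1543278960 .nil)) .done .done) .done) .done) .done) .done)) (.node 0 7 (.cons 0x8907612345 .nil) (.node 4 7 (.cons 0x5098674321 .nil) (.node 1 7 (.cons 0x5098671234 .nil) (.node 0 4 (.cons 0x9867123405 .nil) (.node 0 3 .nil (.node 6 9 (.cons 0x8967123450 (.cons 0x3045698712 .nil)) .done .done) .done) (.node 0 3 .nil (.node 7 9 (.cons 0x8976450123 (.cons 0x8976450321 .nil)) (.node 2 8 (.cons 0x3289764501 (.cons 0x9821765034 (.cons 0x7982301645 (.cons 0x5476128903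 .nil)))) .done .done) (.node 0 4 .nil (.node 3 8 (.cons 0x4389056712 (.cons 0x9834056712 .nil)) (.node 2 7 (.cons 0x9832764501 (.cons 0x9832761045 (.cons 0x5409832761 .nil))) .done .done) .done) .done)) .done)) (.node 1 5 (.cons 0x2347689051 .nil) (.leaf 0x8674321509 0 (.leaf 0x6890512347 1 (.node 3 6 (.cons 0x2098743651 .nil) (.node 2 6 (.cons 0x7432689051 .nil) (.node 6 9 (.cons 0x8745109632 .nil) .done .done) .done) .done))) .done)) (.node 4 7 (.cons 0x5098674321 .nil) (.node 3 6 .nil (.node 5 9 (.cons 0x7895463210 .nil) (.leaf 0x8701236459 1 (.leaf 0x3687459012 1 (.leaf 0x2368745901 0 .done))) (.node 6 9 .nil (.node 3 5 (.cons 0x9876453210 (.cons 0x7896453210 .nil)) (.leaf 0x9870123546 0 (.leaf 0x968745321 0 .done)) (.node 2 6 .nil (.node 0 3 (.cons 0x7890345621 .nil) (.node 1 5 (.cons 0x7689051234 (.cons 0x9876512034 (.cons 0x8769032154 (.cons 0x7896451230 .nil)))) .done .done) .done) .done)) .done)) (.node 1 5 (.cons 0x2347689051 .nil) (.leaf 0x8674321509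 0 (.leaf 0x6890512347 1 (.node 3 6 (.cons 0x2098743651 .nil) (.node 2 6 (.cons 0x7432689051 .nil) (.node 2 9 (.cons 0x7051298643 .nil) (.leaf 0x1290786345 1 (.leaf 0x3290154786 1 .done)) .done) .done) .done))) .done)) .done)) .done)) (.node 1 6 (.cons 0x5432167890 .nil) (.node 0 8 (.cons 0x9087612345 .nil) (.node 2 8 .nil (.node 0 3 (.cons 0x9034567821 .nil) (.node 5 9 (.cons 0x8761234590 (.cons 0x7895643021 (.cons 0x1678234590 (.cons 0x8761230954 .nil)))) .done .done) (.node 5 8 .nil (.node 3 9 (.cons 0x5467893210 (.cons 0x7645893210 (.cons 0x7856120934 (.cons 0x4587610932 .nil)))) (.node 0 4 (.cons 0x7650439821 (.cons 0x9321046785 (.cons 0x9340582167 .nil))) .done .done) (.node 3 8 (.cons 0x9832105467 .nil) (.node 0 3 .nil (.node 5 9 (.cons 0x8761234590 (.cons 0x7895643021 (.cons 0x8761230954 .nil))) .done (.node 1 8 (.cons 0x9034567812 .nil) (.node 2 6 (.cons 0x7621890543 .nil) (.node 3 6 (.cons 0x7634509812 .nil) .done .done) .done) .done)) .done) .done)) .done))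 (.node 0 7 .nil (.node 1 5 (.cons 0x9870215643 .nil) (.node 3 9 (.cons 0x5467893210 (.cons 0x7643980215 (.cons 0x7893465120 (.cons 0x7643980512 (.cons 0x2398764510 .nil))))) .done (.node 2 6 (.cons 0x9807621543 .nil) (.node 1 3 (.cons 0x2134567890 (.cons 0x8907654312 (.cons 0x9870213465 .nil))) (.leaf 0x2678905431 0 .done) .done) .done)) (.node 0 3 .nil (.node 5 9 (.cons 0x8761234590 (.cons 0x7895643021 (.cons 0x8761230954 .nil))) (.node 2 8 (.cons 0x1678234590 (.cons 0x9034561287 .nil)) (.node 1 9 (.cons 0x7605432891 (.cons 0x7619543082 (.cons 0x2307864591 (.cons 0x2876195430 .nil)))) (.leaf 0x328764591 0 .done) .done) .done) (.node 2 6 (.cons 0x7890345621 .nil) (.node 0 4 .nil (.node 3 5 (.cons 0x9876453210 (.cons 0x9876534021 .nil)) (.node 6 9 (.cons 0x8769012354 .nil) (.node 1 8 (.cons 0x9021876534 (.cons 0x7698123405 (.cons 0x9043567812 .nil))) (.leaf 0x2354096781 0 .done) .done) (.leaf 0x4098761235 0 .done)) .done) .done) .done)) .done)) .done)) (.node 0 7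 (.cons 0x8907612345 .nil) (.node 0 3 .nil (.node 1 7 (.cons 0x4509867123 (.cons 0x9867123054 .nil)) (.node 5 9 (.cons 0x2178956430 (.cons 0x8950321764 .nil)) (.node 1 3 (.cons 0x4598760132 (.cons 0x8765902134 (.cons 0x7895643120 .nil))) .done (.node 2 4 (.cons 0x8950176423 (.cons 0x8903421765 (.cons 0x3017895642 .nil))) (.leaf 0x324598761 0 .done) .done)) (.node 2 8 (.cons 0x6712890543 .nil) (.node 7 9 (.cons 0x8976450123 (.cons 0x4305679821 (.cons 0x8976450321 .nil))) (.leaf 0x5679821034 0 .done) (.node 6 9 (.cons 0x3456907821 (.cons 0x7128964305 .nil)) .done .done)) .done)) (.node 2 6 (.cons 0x7890345621 .nil) (.node 3 6 .nil (.node 2 7 (.cons 0x6543098721 (.cons 0x9872103654 (.cons 0x4563098721 .nil))) .done (.node 6 9 .nil (.node 1 5 (.cons 0x7896512034 (.cons 0x7869032154 .nil)) (.leaf 0x3215469870 0 (.leaf 0x6451230789 0 .done)) .done) .done)) .done) .done)) (.node 6 9 .nil (.node 3 5 (.cons 0x9876453210 (.cons 0x8769012354 (.cons 0x7896453210 .nil))) (.leaf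 0x9870123546 0 (.node 1 4 (.cons 0x2098765341 (.cons 0x8769014532 (.cons 0x7896410235 .nil))) (.node 2 6 (.cons 0x4532678901 .nil) (.leaf 0x987623541 1 .done) .done) .done)) (.node 3 6 .nil (.node 2 8 (.cons 0x7098216345 .nil) (.node 3 9 (.cons 0x5467012893 (.cons 0x5463987012 .nil)) (.leaf 0x4398216705 1 .done) (.node 5 8 (.cons 0x7612345890 (.cons 0x7098543612 .nil)) (.node 1 4 (.cons 0x7689054123 (.cons 0x9014587632 (.cons 0x7890214365 .nil))) (.node 2 5 (.cons 0x8907612543 (.cons 0x9025876341 (.cons 0x9870125463 .nil))) (.leaf 0x6789052143 1 .done) .done) .done) .done)) (.node 2 6 .nil (.node 1 3 (.cons 0x2134567890 .nil) (.node 3 5 (.cons 0x9876453210 (.cons 0x9870126453 (.cons 0x4532678901 .nil))) .done (.leaf 0x4312678905 1 (.leaf 0x2678905431 0 .done))) .done) .done)) .done)) .done)) (.node 6 9 .nil (.node 3 5 (.cons 0x9876453210 (.cons 0x8769012354 (.cons 0x7896453210 .nil))) (.node 0 7 (.cons 0x8967054321 .nil) (.leaf 0x2107896453 0 (.node 1 7 (.cons 0x4509867123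 (.cons 0x8967123450 (.cons 0x8967120534 .nil))) .done (.leaf 0x9870123546 0 .done))) (.node 1 7 (.cons 0x4509867123 (.cons 0x8967123450 .nil)) (.node 1 4 (.cons 0x2098765341 (.cons 0x2354178690 .nil)) (.leaf 0x6902354178 0 (.node 2 6 (.cons 0x4532678901 .nil) (.leaf 0x987623541 1 (.leaf 0x9014532678 0 .done)) .done)) (.node 1 8 (.cons 0x9817643502 (.cons 0x7698123450 (.cons 0x7189643502 .nil))) .done .done)) .done)) (.node 3 6 .nil (.node 1 7 (.cons 0x4509867123 (.cons 0x8905436712 .nil)) (.node 4 8 (.cons 0x7612348905 (.cons 0x9843650217 (.cons 0x9843671205 (.cons 0x9845017632 .nil)))) .done (.node 4 8 (.cons 0x9054867123 (.cons 0x9021784365 .nil)) (.node 0 8 (.cons 0x8096712345 .nil) (.node 5 7 (.cons 0x3489057612 (.cons 0x9843675021 (.cons 0x3690845712 .nil))) (.leaf 0x9057612348 0 .done) .done) (.node 2 9 (.cons 0x3290548671 (.cons 0x3654871092 (.cons 0x8450923671 .nil))) .done .done)) .done)) (.node 2 6 .nil (.node 0 3 (.cons 0x7890345621 .nil) (.node 5 9 (.cons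 0x8763210954 (.cons 0x7895643021 .nil)) (.node 1 5 (.cons 0x1598764320 (.cons 0x9876512034 (.cons 0x7890623451 .nil))) (.leaf 0x7643201598 0 .done) (.node 1 4 (.cons 0x8763214590 (.cons 0x7689032145 (.cons 0x7895641203 (.cons 0x8763095412 .nil)))) (.leaf 0x7603214598 1 .done) .done)) .done) .done) .done)) .done)) .done))) .done))
noncomputable def tc9_2_45 : T := (.node 1 7 (.cons 0x8905432176 .nil) (.node 1 5 .nil (.node 4 8 (.cons 0x7612348905 (.cons 0x7615098432 .nil)) (.node 7 9 (.cons 0x6798123450 (.cons 0x3487906512 (.cons 0x5160978432 (.cons 0x6097845123 .nil)))) (.node 0 7 (.cons 0x9812345076 .nil) (.node 4 9 (.cons 0x5076189432 (.cons 0x3498156702 (.cons 0x9432067815 .nil))) .done .done) .done) (.node 4 7 (.cons 0x9812056743 (.cons 0x8905167432 .nil)) (.node 2 7 (.cons 0x6721509843 .nil) (.leaf 0x9051672348 0 (.node 5 7 (.cons 0x3489057612 .nil) (.leaf 0x9057612348 0 .done) .done)) .done) .done)) (.node 1 3 (.cons 0x2134567890 .nil) (.node 1 4 (.cons 0x5678902143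 .nil) (.node 1 9 (.cons 0x8760912345 .nil) .done .done) .done) .done)) (.node 0 7 (.cons 0x9812345076 .nil) (.node 0 3 .nil (.node 7 9 (.cons 0x6798123450 (.cons 0x4305679812 (.cons 0x6798123054 .nil))) .done (.node 1 9 (.cons 0x8760912345 .nil) (.node 1 3 (.cons 0x2134567890 .nil) (.node 1 4 (.cons 0x5678902143 .nil) (.node 1 5 .nil (.node 0 8 (.cons 0x9087654312 .nil) (.node 4 8 (.cons 0x7612348905 (.cons 0x7615098432 .nil)) .done .done) .done) .done) .done) (.node 2 9 (.cons 0x6705432981 .nil) (.leaf 0x781923456 1 (.node 5 9 (.cons 0x9543218760 .nil) (.node 6 9 (.cons 0x7698123450 .nil) (.node 1 5 (.cons 0x2345189670 .nil) (.leaf 0x6702345189 0 .done) .done) .done) .done)) .done)) .done)) .done) .done)) (.node 1 9 (.cons 0x8760912345 .nil) (.node 1 3 (.cons 0x2134567890 .nil) (.node 2 9 (.cons 0x7812906543 .nil) (.node 0 7 (.cons 0x6543129870 .nil) (.node 0 8 (.cons 0x9213456087 .nil) (.node 1 7 (.cons 0x8712906543 .nil) (.node 1 5 .nil (.node 3 6 (.cons 0x8907634512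 (.cons 0x4510987632 .nil)) (.leaf 0x2987063451 1 .done) .done) .done) .done) (.node 0 8 (.cons 0x9213456087 .nil) (.node 0 4 (.cons 0x5613407892 .nil) (.node 0 3 .nil (.node 2 4 (.cons 0x5613429870 (.cons 0x9876542103 .nil)) (.node 2 7 (.cons 0x5612789043 (.cons 0x8912765430 (.cons 0x9872130456 .nil))) .done (.leaf 0x3078924561 0 .done)) .done) .done) .done) .done)) (.node 6 9 .nil (.node 0 7 (.cons 0x8967054312 .nil) (.leaf 0x8123456907 0 (.leaf 0x9654321870 1 .done)) (.node 2 8 (.cons 0x7698231054 .nil) (.node 1 7 (.cons 0x1769823450 .nil) (.leaf 0x2345017698 1 (.node 3 6 (.cons 0x9821763450 .nil) (.leaf 0x1763450982 0 .done) .done)) .done) .done)) .done)) (.node 1 7 (.cons 0x8905432176 .nil) (.node 1 5 .nil (.node 6 9 (.cons 0x8967123450 (.cons 0x8967150234 .nil)) (.node 2 9 (.cons 0x8765431290 .nil) (.node 0 8 (.cons 0x9087654312 (.cons 0x4517806923 .nil)) (.node 3 6 (.cons 0x9805436712 (.cons 0x9215436087 (.cons 0x4365178920 .nil))) (.leaf 0x8921763450 1 .done)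 .done) .done) .done) .done) (.node 1 4 (.cons 0x5678902143 .nil) (.node 1 5 .nil (.node 5 9 (.cons 0x6789514320 .nil) (.node 0 7 (.cons 0x6598702143 .nil) (.node 2 6 (.cons 0x9078134562 (.cons 0x8915432670 (.cons 0x8907623451 .nil))) (.leaf 0x1598706234 0 .done) .done) (.leaf 0x2341598760 1 .done)) .done) .done) .done)) .done)) (.node 1 7 (.cons 0x8905432176 .nil) (.node 1 5 .nil (.node 7 9 (.cons 0x3456097812 (.cons 0x6097815432 .nil)) (.node 4 8 (.cons 0x7612348905 (.cons 0x6798432150 (.cons 0x7615098432 .nil))) (.leaf 0x1506798432 0 .done) (.node 6 9 (.cons 0x8967123450 (.cons 0x8967150234 .nil)) (.node 2 9 (.cons 0x7812906543 .nil) (.node 0 8 (.cons 0x5432176980 (.cons 0x2345176980 .nil)) (.node 3 6 (.cons 0x9805436712 (.cons 0x4512978063 (.cons 0x4365178920 .nil))) .done .done) .done) .done) .done)) (.node 1 3 (.cons 0x2134567890 .nil) (.node 1 4 (.cons 0x5678902143 .nil) .done .done) .done)) (.node 1 3 (.cons 0x2134567890 .nil) (.node 1 4 (.cons 0x5678902143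 .nil) (.node 1 5 .nil (.node 3 8 (.cons 0x5438760912 (.cons 0x7651438902 .nil)) (.node 3 7 (.cons 0x9065437812 .nil) (.node 2 4 (.cons 0x7650983421 (.cons 0x8915024376 (.cons 0x9024378156 (.cons 0x9065124387 .nil)))) .done .done) .done) .done) .done) (.node 1 4 (.cons 0x5678902143 .nil) (.node 1 5 .nil (.node 4 7 (.cons 0x8902134765 (.cons 0x8905167432 .nil)) (.node 4 8 (.cons 0x7612348905 (.cons 0x7651348902 .nil)) .done .done) .done) .done) .done)) .done)) .done)) (.node 1 7 (.cons 0x8905432176 .nil) (.node 1 9 (.cons 0x8760912345 .nil) (.node 0 8 (.cons 0x9805432176 .nil) (.node 0 3 .nil (.node 6 9 (.cons 0x8967123450 (.cons 0x8967123054 .nil)) (.node 2 8 (.cons 0x1769823450 (.cons 0x4503289671 .nil)) (.leaf 0x6543028917 1 .done) .done) (.node 2 8 (.cons 0x2891765430 .nil) (.leaf 0x6543028917 1 (.node 2 9 (.cons 0x9217806543 .nil) (.node 3 9 (.cons 0x8712934560 .nil) (.node 0 4 (.cons 0x8934056712 .nil) (.leaf 0x7128934056 0 .done) .done) .done) .done)) .done))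 (.node 6 8 (.cons 0x9867123450 .nil) (.node 4 8 (.cons 0x7612348905 .nil) (.node 2 8 (.cons 0x9176082345 .nil) (.node 5 8 (.cons 0x9067854321 .nil) .done .done) .done) (.node 6 9 (.cons 0x8967123450 .nil) (.node 0 3 (.cons 0x9867123054 .nil) (.node 2 6 (.cons 0x9871265430 .nil) (.leaf 0x3450891762 0 (.node 3 6 (.cons 0x7634509812 .nil) (.node 4 6 (.cons 0x5469871032 .nil) .done .done) .done)) .done) .done) .done)) .done)) (.node 0 8 (.cons 0x9805432176 .nil) (.node 0 3 .nil (.node 2 6 (.cons 0x7621890543 (.cons 0x7891265430 (.cons 0x7621890345 .nil))) (.node 2 7 (.cons 0x6721890543 (.cons 0x8721903456 .nil)) .done .done) (.node 2 9 (.cons 0x9217806543 .nil) (.node 3 9 (.cons 0x9345608712 .nil) (.leaf 0x6087129345 0 .done) (.node 2 8 (.cons 0x7821906543 .nil) (.node 2 6 (.cons 0x7621890543 .nil) (.node 4 6 (.cons 0x8923054671 .nil) (.leaf 0x5032981764 0 (.leaf 0x7645032981 1 .done)) .done) .done) .done)) .done)) (.node 2 9 (.cons 0x3456087192 .nil) (.leaf 0x871923456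 1 (.node 2 7 (.cons 0x6721890543 .nil) (.node 5 9 (.cons 0x8760954321 .nil) (.node 6 9 (.cons 0x8967123450 .nil) (.node 2 6 (.cons 0x8719543260 .nil) (.node 0 3 (.cons 0x7891265430 .nil) (.node 5 7 (.cons 0x3457269180 .nil) (.leaf 0x2691803457 0 .done) .done) .done) .done) .done) .done) .done)) .done)) .done)) (.node 1 9 (.cons 0x8760912345 .nil) (.node 1 3 (.cons 0x2134567890 .nil) (.node 1 4 (.cons 0x5678902143 .nil) (.node 1 5 .nil (.node 4 8 (.cons 0x7612348905 (.cons 0x7615098432 .nil)) (.node 0 7 (.cons 0x5670219843 (.cons 0x3489156702 .nil)) (.node 3 6 (.cons 0x7634509812 (.cons 0x8907634512 (.cons 0x5198436702 .nil))) .done .done) .done) .done) .done) (.node 1 4 (.cons 0x5678902143 .nil) (.node 1 5 .nil (.node 4 8 (.cons 0x7612348905 (.cons 0x7615098432 .nil)) (.node 3 9 (.cons 0x5678934120 (.cons 0x7843906512 (.cons 0x6517843902 .nil))) .done .done) .done) .done) .done)) (.node 1 3 (.cons 0x2134567890 .nil) (.node 1 5 .nil (.node 3 6 (.cons 0x7634509812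 (.cons 0x4510987632 .nil)) (.node 0 7 (.cons 0x5436709812 (.cons 0x8907634512 .nil)) (.node 2 6 (.cons 0x2654319870 (.cons 0x6234519870 .nil)) (.leaf 0x5198706234 0 .done) .done) .done) .done) (.node 1 4 (.cons 0x5678902143 .nil) (.node 1 5 .nil (.node 5 9 (.cons 0x6789514320 .nil) (.leaf 0x2341598760 1 .done) .done) .done) .done)) .done)) .done)) .done)))
noncomputable def tc9_2_46 : T := (.node 0 7 (.cons 0x8907612345 .nil) (.node 2 6 .nil (.node 1 3 (.cons 0x2134567890 .nil) (.node 5 9 (.cons 0x8760954321 (.cons 0x6213459870 (.cons 0x4598762310 .nil))) (.leaf 0x1260789543 0 .done) (.node 3 5 (.cons 0x9876453210 (.cons 0x9870126453 (.cons 0x4532678901 .nil))) (.node 0 4 (.cons 0x9876534021 (.cons 0x9876235401 .nil)) (.node 6 9 (.cons 0x5340789621 (.cons 0x7896235401 (.cons 0x3540789621 .nil))) .done .done) .done) (.leaf 0x4312678905 1 (.leaf 0x2678905431 0 .done)))) (.node 6 8 (.cons 0x7689054321 .nil) (.node 4 7 (.cons 0x5098674321 .nil) (.node 3 6 .nil (.node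 5 9 (.cons 0x8760954321 (.cons 0x7895463210 .nil)) (.leaf 0x3687459012 1 (.leaf 0x2368745901 0 .done)) (.node 6 9 .nil (.node 3 5 (.cons 0x9876453210 (.cons 0x8769012354 (.cons 0x7896453210 .nil))) (.leaf 0x9870123546 0 .done) .done) .done)) (.node 1 5 (.cons 0x2347689051 .nil) (.leaf 0x8674321509 0 (.leaf 0x6890512347 1 (.node 3 6 (.cons 0x2098743651 .nil) (.node 6 9 (.cons 0x5120789643 .nil) .done .done) .done))) .done)) (.node 3 6 .nil (.node 2 8 (.cons 0x7098216345 .nil) (.node 3 9 (.cons 0x5467012893 (.cons 0x5463987012 (.cons 0x5076439821 .nil))) (.leaf 0x4398216705 1 .done) (.node 5 8 (.cons 0x7612345890 (.cons 0x7098543612 .nil)) (.node 2 7 (.cons 0x4589072163 .nil) (.leaf 0x9072163458 0 (.leaf 0x6127098543 0 .done)) .done) .done)) (.node 6 9 .nil (.node 3 8 (.cons 0x5438907612 (.cons 0x7698321054 .nil)) (.node 2 7 (.cons 0x7216543890 (.cons 0x5438961270 (.cons 0x1278345690 .nil))) .done .done) .done) .done)) .done)) .done)) (.node 0 3 .nil (.node 1 5 (.cons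 0x8907615432 (.cons 0x9876512034 .nil)) (.node 5 7 (.cons 0x8903216754 .nil) (.node 1 8 (.cons 0x9067812345 (.cons 0x6189075432 (.cons 0x9812346750 (.cons 0x9812057643 .nil)))) (.leaf 0x6754320981 0 .done) (.node 4 8 (.cons 0x9021567843 (.cons 0x9843021657 (.cons 0x9843021675 (.cons 0x9845761032 .nil)))) .done .done)) (.node 2 6 (.cons 0x9870154623 (.cons 0x9870326451 .nil)) .done .done)) (.node 2 6 (.cons 0x7890345621 .nil) (.node 2 7 (.cons 0x6543098721 .nil) (.node 2 8 (.cons 0x9827034561 .nil) (.node 0 8 (.cons 0x9803456127 .nil) (.node 0 4 .nil (.node 1 8 (.cons 0x9816543072 (.cons 0x9812765043 .nil)) (.node 3 8 (.cons 0x9832105467 (.cons 0x9834056721 (.cons 0x9832761045 .nil))) .done .done) .done) .done) .done) (.node 4 7 (.cons 0x3098745621 .nil) (.node 0 4 .nil (.node 5 7 (.cons 0x9875643021 (.cons 0x8904576123 .nil)) (.node 1 9 (.cons 0x5462307891 (.cons 0x6578912043 (.cons 0x8912340576 (.cons 0x6219875403 .nil)))) .done .done) .done) .done) .done)) .done)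 .done)) .done)) (.node 0 7 (.cons 0x8907612345 .nil) (.node 0 4 .nil (.node 3 6 (.cons 0x9876321045 .nil) (.node 1 5 (.cons 0x9876512043 (.cons 0x7890154632 .nil)) (.node 4 8 (.cons 0x9845012367 .nil) (.node 1 7 (.cons 0x9843650217 (.cons 0x9021784365 (.cons 0x8905176432 .nil))) .done (.node 3 5 (.cons 0x9876534021 (.cons 0x9021534876 (.cons 0x7615348902 .nil))) (.node 2 7 (.cons 0x6453278901 (.cons 0x9845012763 (.cons 0x9012784536 (.cons 0x7216354890 .nil)))) .done .done) .done)) (.node 6 9 (.cons 0x8769043215 (.cons 0x8769045123 .nil)) .done .done)) (.node 1 5 (.cons 0x9876512043 (.cons 0x7890436512 .nil)) (.node 4 8 (.cons 0x9843670512 (.cons 0x7634890512 .nil)) (.node 0 8 .nil (.node 2 4 (.cons 0x8907634215 (.cons 0x9807634215 (.cons 0x9087651243 .nil))) .done (.node 7 9 (.cons 0x3487906512 (.cons 0x6097845123 .nil)) (.leaf 0x8976154320 1 (.leaf 0x6154320897 0 .done)) .done)) .done) (.node 6 9 (.cons 0x8769045123 .nil) (.node 3 8 (.cons 0x5438907612 (.cons 0x7698321054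 (.cons 0x6907834512 (.cons 0x4510967832 .nil)))) .done .done) .done)) .done)) (.node 0 3 .nil (.node 5 8 (.cons 0x7612345890 (.cons 0x9854307612 (.cons 0x7612309854 .nil))) (.node 2 7 (.cons 0x6127098543 (.cons 0x9854307216 (.cons 0x7230985461 .nil))) (.node 6 9 (.cons 0x3278546901 (.cons 0x4309658721 .nil)) (.leaf 0x5872169034 1 .done) .done) (.node 0 8 .nil (.node 2 7 (.cons 0x1672345890 (.cons 0x4589032761 (.cons 0x9085432761 (.cons 0x9803456721 .nil)))) .done .done) .done)) (.node 0 8 .nil (.node 1 7 (.cons 0x8905432176 (.cons 0x9805432176 .nil)) (.node 3 9 (.cons 0x8093456712 (.cons 0x6543908712 .nil)) (.node 2 8 (.cons 0x5439821670 (.cons 0x5643902871 (.cons 0x8239054671 .nil))) .done (.node 1 4 (.cons 0x5678902143 (.cons 0x7650893412 .nil)) (.node 4 8 (.cons 0x9348056712 .nil) .done .done) .done)) (.node 1 5 (.cons 0x8905176432 (.cons 0x9805176432 .nil)) (.node 2 9 (.cons 0x8764510923 (.cons 0x8092346715 (.cons 0x3465178092 (.cons 0x3290876451 .nil)))) .done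 (.node 1 3 (.cons 0x2134567890 (.cons 0x9087654312 .nil)) (.node 2 5 (.cons 0x9876452310 (.cons 0x9805234671 (.cons 0x9087152346 (.cons 0x9805231764 .nil)))) .done .done) .done)) .done)) .done) .done)) .done)) (.node 0 3 .nil (.node 1 5 (.cons 0x8907615432 (.cons 0x9876451032 .nil)) (.node 2 8 (.cons 0x5432890761 (.cons 0x9032876451 .nil)) (.node 1 9 (.cons 0x5432891670 (.cons 0x7034561982 (.cons 0x5430761982 .nil))) (.leaf 0x6782309154 0 .done) (.node 5 7 (.cons 0x7546109823 (.cons 0x9823016457 (.cons 0x8903216754 .nil))) .done .done)) (.node 2 7 (.cons 0x6451098723 (.cons 0x9872034651 .nil)) (.leaf 0x346512789 0 (.node 5 8 (.cons 0x7612345890 (.cons 0x4589032761 (.cons 0x7612309854 .nil))) (.leaf 0x4321670985 0 .done) .done)) .done)) (.node 2 6 (.cons 0x7890345621 .nil) (.node 2 7 (.cons 0x6543098721 .nil) (.node 4 7 (.cons 0x9874562103 .nil) (.node 3 6 (.cons 0x9874563012 .nil) (.node 3 7 (.cons 0x9873012654 .nil) .done .done) (.node 0 4 .nil (.node 5 7 (.cons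 0x9875462301 (.cons 0x8904576123 .nil)) (.node 1 9 (.cons 0x7891265430 (.cons 0x6578912043 (.cons 0x8912340576 .nil))) (.leaf 0x8754623019 1 .done) .done) .done) .done)) (.node 2 8 (.cons 0x5432890761 .nil) (.node 3 6 (.cons 0x4563098721 .nil) (.node 2 5 (.cons 0x3254678901 .nil) (.node 5 7 (.cons 0x9875462301 .nil) (.node 1 5 (.cons 0x8907615432 .nil) (.node 1 9 (.cons 0x8916457230 .nil) (.leaf 0x3260789154 0 (.leaf 0x8754623019 1 .done)) .done) .done) .done) .done) .done) .done)) (.node 2 7 (.cons 0x6543098721 .nil) (.node 2 8 (.cons 0x9827034561 .nil) (.node 6 9 (.cons 0x1278965430 .nil) (.node 3 6 (.cons 0x9872103654 .nil) (.node 6 8 (.cons 0x7689054321 .nil) .done .done) .done) .done) (.node 2 8 (.cons 0x5432890761 .nil) (.node 1 9 (.cons 0x5432891670 .nil) (.node 6 8 (.cons 0x3456872190 .nil) (.node 6 9 (.cons 0x5432870691 .nil) .done .done) (.leaf 0x345619827 0 (.leaf 0x4328916705 1 .done))) (.node 2 5 (.cons 0x3254678901 .nil) (.node 5 7 (.cons 0x7546109823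 .nil) (.node 5 8 (.cons 0x7612345890 .nil) (.node 0 4 (.cons 0x8904576123 .nil) (.node 0 8 (.cons 0x9085432761 .nil) .done .done) .done) .done) .done) .done)) .done)) .done)) .done)) .done)) .done))
noncomputable def tc9_2_47 : T := (.node 1 8 (.cons 0x9021876534 (.cons 0x9812345067 .nil)) (.node 7 9 (.cons 0x4356097812 (.cons 0x6097812354 .nil)) (.leaf 0x8123456097 0 (.node 2 8 (.cons 0x3450679821 .nil) (.node 1 3 (.cons 0x2134567890 (.cons 0x6798213450 (.cons 0x7654312890 (.cons 0x7650982134 .nil)))) .done (.node 1 3 (.cons 0x2134567890 (.cons 0x8976054312 .nil)) (.node 4 6 (.cons 0x9781206435 (.cons 0x7906453182 .nil)) (.leaf 0x978213546 0 (.node 4 9 (.cons 0x8765349021 .nil) (.leaf 0x5490678213 1 (.leaf 0x5349021876 0 .done)) .done)) (.node 2 5 (.cons 0x4312567890 (.cons 0x8976052134 (.cons 0x7890652134 .nil))) .done .done)) .done)) (.leaf 0x978123456 1 .done))) (.node 1 3 (.cons 0x2134567890 (.cons 0x7890654312 .nil)) (.node 4 9 (.cons 0x5678943120 (.cons 0x7894312065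 (.cons 0x5349067812 (.cons 0x5498760132 .nil)))) (.node 5 7 (.cons 0x6750981234 (.cons 0x8945760123 (.cons 0x8945760132 (.cons 0x8123576094 .nil)))) .done .done) (.node 2 9 (.cons 0x4356781290 (.cons 0x7812906534 .nil)) (.node 4 7 (.cons 0x3476509812 (.cons 0x9812347605 (.cons 0x8129067435 .nil))) (.leaf 0x6092187435 0 (.node 2 8 (.cons 0x7654312890 (.cons 0x9823106745 (.cons 0x7435609281 (.cons 0x5476098231 .nil)))) .done .done)) (.node 2 8 (.cons 0x7654312890 .nil) (.node 7 9 (.cons 0x5431289760 .nil) (.leaf 0x8213450679 0 (.node 4 9 (.cons 0x2187653490 (.cons 0x1287943560 (.cons 0x5349067812 (.cons 0x9453287601 .nil)))) (.node 4 8 (.cons 0x3567948210 (.cons 0x7948210653 (.cons 0x9760534821 (.cons 0x5328497601 .nil)))) .done .done) (.leaf 0x6798213450 1 .done))) (.node 7 9 (.cons 0x4356097821 .nil) (.leaf 0x5431287906 0 (.leaf 0x4312879065 1 (.node 1 6 (.cons 0x7982345061 (.cons 0x5432879061 .nil)) .done .done))) .done)) .done)) .done)) (.node 2 7 (.cons 0x6721890543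 (.cons 0x9812760543 .nil)) (.node 1 7 (.cons 0x8905432176 .nil) (.node 3 9 (.cons 0x8127609345 (.cons 0x2178934560 .nil)) (.node 6 8 (.cons 0x7689321054 (.cons 0x4501768932 .nil)) (.leaf 0x7210934568 0 (.leaf 0x1768934502 0 .done)) (.leaf 0x672189345 0 (.node 2 4 (.cons 0x8934205671 (.cons 0x5423987601 (.cons 0x5602439871 .nil))) (.leaf 0x3981765024 0 .done) .done))) (.node 4 8 (.cons 0x3489056712 (.cons 0x9843217605 (.cons 0x9065348712 .nil))) (.node 2 9 (.cons 0x6784532901 (.cons 0x5348176092 (.cons 0x2906534871 .nil))) (.node 1 3 (.cons 0x2134567890 (.cons 0x7605489231 (.cons 0x7890654312 .nil))) (.node 1 9 (.cons 0x8431902765 (.cons 0x8721906543 .nil)) .done .done) .done) .done) .done)) (.node 4 9 (.cons 0x8765349021 (.cons 0x8127609453 .nil)) (.node 1 3 (.cons 0x2134567890 (.cons 0x3127894560 (.cons 0x7890654312 (.cons 0x8721356094 .nil)))) (.node 4 8 (.cons 0x3127654890 (.cons 0x5489067231 .nil)) (.leaf 0x6531278490 0 .done) .done) (.node 1 5 (.cons 0x5120678943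 .nil) (.leaf 0x7602153498 1 (.node 3 6 (.cons 0x7894360215 (.cons 0x8721536094 .nil)) (.node 3 7 (.cons 0x6734509812 (.cons 0x8945127360 (.cons 0x4378906512 (.cons 0x4518906372 .nil)))) .done (.node 2 5 (.cons 0x4523678901 (.cons 0x7894360251 .nil)) .done .done)) .done)) (.leaf 0x3490218765 1 .done))) .done)) .done))) (.node 1 7 (.cons 0x8905432176 (.cons 0x9871206534 (.cons 0x4356098712 .nil))) (.node 4 7 (.cons 0x6534789021 (.cons 0x9874356021 .nil)) (.node 1 5 (.cons 0x9874351206 .nil) (.node 1 6 (.cons 0x5347890612 .nil) (.leaf 0x8902165347 1 (.node 0 7 (.cons 0x8907615432 .nil) .done .done)) .done) (.node 4 9 (.cons 0x8712094356 .nil) (.node 3 8 (.cons 0x8349021765 (.cons 0x7601238945 .nil)) (.node 2 8 (.cons 0x5671283490 (.cons 0x9471065382 (.cons 0x7128349065 (.cons 0x2835609471 .nil)))) .done (.node 5 8 (.cons 0x2094385671 (.cons 0x2385490671 .nil)) (.leaf 0x7609458321 0 .done) .done)) (.node 3 8 (.cons 0x9438712065 (.cons 0x5609438712 .nil)) (.node 2 6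 (.cons 0x9832674501 (.cons 0x5476238901 (.cons 0x3871265490 .nil))) (.node 1 9 (.cons 0x8743562091 (.cons 0x5438762190 .nil)) (.leaf 0x4762389105 0 (.leaf 0x7450198326 1 .done)) .done) (.node 1 5 (.cons 0x6517834902 (.cons 0x9438715602 .nil)) .done .done)) (.leaf 0x2065349871 0 .done))) .done)) (.node 4 7 (.cons 0x6534789021 (.cons 0x9874356021 .nil)) (.node 1 8 (.cons 0x9021874356 (.cons 0x9812345067 (.cons 0x9065347812 .nil))) (.node 5 9 (.cons 0x6590218743 (.cons 0x6095478123 .nil)) (.node 1 4 (.cons 0x5678902143 (.cons 0x5987602341 .nil)) (.node 1 6 (.cons 0x4359871602 (.cons 0x7816095432 (.cons 0x5906187432 .nil))) .done .done) .done) .done) (.node 4 6 (.cons 0x9871206435 .nil) (.node 7 9 (.cons 0x8790123546 (.cons 0x8790645321 .nil)) (.node 5 8 (.cons 0x8509764321 (.cons 0x9785321064 (.cons 0x4609785321 .nil))) (.node 1 5 (.cons 0x9023467851 (.cons 0x8976051234 .nil)) (.node 4 8 (.cons 0x3564879012 (.cons 0x5067984321 (.cons 0x3487906512 (.cons 0x6097843512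 .nil)))) .done .done) .done) .done) (.node 2 8 (.cons 0x6712890543 (.cons 0x9821760543 (.cons 0x7128906453 .nil))) (.node 3 7 (.cons 0x8901237645 (.cons 0x9821734506 (.cons 0x9065437821 .nil))) (.node 1 5 (.cons 0x7346512890 (.cons 0x9823746015 (.cons 0x9065128734 .nil))) .done .done) .done) .done)) .done)) .done)) (.node 5 9 (.cons 0x1234598760 .nil) (.node 4 6 (.cons 0x4678953201 (.cons 0x8764590123 .nil)) (.node 1 4 (.cons 0x2098765341 (.cons 0x9876014532 (.cons 0x8765902143 .nil))) (.node 3 7 (.cons 0x8901237645 (.cons 0x8954673210 (.cons 0x8734120956 (.cons 0x5609873412 .nil)))) .done (.leaf 0x9532014678 0 .done)) (.node 1 5 (.cons 0x1598764320 (.cons 0x8764320951 .nil)) (.node 1 7 (.cons 0x3465178902 (.cons 0x8950234671 (.cons 0x8715902346 (.cons 0x5178906432 .nil)))) (.node 1 4 (.cons 0x2098765341 (.cons 0x9876014532 (.cons 0x8765902143 .nil))) (.node 5 8 (.cons 0x9853417602 (.cons 0x7609854123 .nil)) .done .done) .done) .done) .done)) (.node 0 3 .nil (.node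 1 7 (.cons 0x8905432176 (.cons 0x4306598712 (.cons 0x8712345906 (.cons 0x6034598712 .nil)))) .done (.node 3 7 (.cons 0x4378956021 .nil) (.node 4 6 (.cons 0x6459873210 (.cons 0x8734659021 (.cons 0x8901237645 .nil))) (.node 1 8 (.cons 0x9034567812 (.cons 0x9810546732 (.cons 0x4376509812 (.cons 0x6734509812 .nil)))) (.node 2 6 (.cons 0x9810546237 (.cons 0x8732645901 (.cons 0x7345621890 (.cons 0x7326450981 .nil)))) .done .done) .done) (.node 1 3 (.cons 0x2134567890 (.cons 0x7895602134 (.cons 0x7890654312 .nil))) (.node 3 9 .nil (.node 1 5 (.cons 0x4398765120 (.cons 0x4378906512 (.cons 0x8765120934 .nil))) .done (.node 1 4 (.cons 0x2098765341 (.cons 0x5678934120 (.cons 0x5609873412 .nil))) (.leaf 0x2143987650 1 (.node 1 7 (.cons 0x8905432176 (.cons 0x8712345906 .nil)) (.node 2 4 (.cons 0x8905673421 (.cons 0x3987654210 (.cons 0x8765421093 (.cons 0x8935671024 (.cons 0x5609873421 .nil))))) .done .done) .done)) .done)) .done) .done)) (.node 3 7 (.cons 0x4378956021 .nil)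 (.node 4 6 (.cons 0x6459873210 (.cons 0x8734659021 (.cons 0x8901237645 .nil))) (.node 6 8 (.cons 0x9867321054 (.cons 0x4509867321 .nil)) (.node 1 4 (.cons 0x2098765341 (.cons 0x6598734120 (.cons 0x2143786590 (.cons 0x8902143765 (.cons 0x5098673412 .nil))))) (.node 2 5 (.cons 0x3254678901 (.cons 0x9864105237 (.cons 0x4687325901 (.cons 0x3789025641 .nil)))) .done .done) .done) .done) (.node 1 8 (.cons 0x6590218734 (.cons 0x9560218734 (.cons 0x9065437812 (.cons 0x6095437812 .nil)))) (.node 4 7 (.cons 0x3476509812 (.cons 0x3478956021 .nil)) (.leaf 0x1895067432 0 (.leaf 0x8123476059 1 .done)) .done) (.node 2 4 (.cons 0x8905673421 (.cons 0x1243789560 (.cons 0x5609873421 .nil))) (.node 3 8 (.cons 0x9012456783 .nil) (.node 1 9 (.cons 0x8765342091 (.cons 0x7834219560 (.cons 0x7605438912 .nil))) (.node 2 7 (.cons 0x6543098721 (.cons 0x8910672354 (.cons 0x7219830654 .nil))) .done .done) .done) (.node 3 8 (.cons 0x7654210983 (.cons 0x7389560124 .nil)) .done .done)) .done)))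 .done))) (.node 0 3 (.cons 0x4598760321 .nil) (.node 2 9 (.cons 0x8765430921 .nil) (.node 1 4 (.cons 0x2098765341 (.cons 0x3214598760 (.cons 0x8760954123 .nil))) (.node 2 8 (.cons 0x9034567821 (.cons 0x9823541067 (.cons 0x7609823541 .nil))) (.node 3 7 (.cons 0x8902143765 (.cons 0x8954123760 (.cons 0x7341289065 .nil))) .done .done) (.leaf 0x3541067892 0 (.leaf 0x6014532987 0 .done))) (.node 1 4 (.cons 0x2098765341 (.cons 0x3214598760 (.cons 0x8760954123 .nil))) (.node 2 8 (.cons 0x9034567821 (.cons 0x9823541067 (.cons 0x7609823541 .nil))) .done (.node 2 7 (.cons 0x9872065341 (.cons 0x6098723541 .nil)) (.node 3 7 (.cons 0x1298734560 (.cons 0x5609873412 .nil)) .done (.leaf 0x653412789 0 .done)) (.leaf 0x678923541 1 .done))) .done)) (.node 1 4 (.cons 0x2098765341 (.cons 0x3214598760 (.cons 0x8760954123 .nil))) (.node 2 8 (.cons 0x9823541067 (.cons 0x7609823541 .nil)) (.node 2 7 (.cons 0x8906723541 .nil) (.leaf 0x5672890143 0 (.node 3 7 (.cons 0x8902143765 (.cons 0x8954123760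 (.cons 0x5673412890 .nil))) .done .done)) (.node 3 7 (.cons 0x8902143765 (.cons 0x8954123760 (.cons 0x9065437821 (.cons 0x7341289065 .nil)))) .done .done)) (.node 2 7 (.cons 0x6543098721 (.cons 0x9872065341 (.cons 0x6098723541 .nil))) (.leaf 0x653412789 0 .done) (.node 2 9 (.cons 0x4532987601 .nil) (.node 1 7 (.cons 0x6543098712 (.cons 0x6032178954 (.cons 0x8712903456 .nil))) (.node 1 3 (.cons 0x2134567890 (.cons 0x4135987602 (.cons 0x8765431290 .nil))) (.node 1 6 (.cons 0x4532987610 (.cons 0x8761092354 .nil)) .done .done) .done) (.leaf 0x6014532987 0 (.leaf 0x678923541 1 .done))) .done))) .done)) .done))) .done)))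
noncomputable def tc9_2_48 : T := (.node 3 5 (.cons 0x4356789021 (.cons 0x9876012354 .nil)) tc9_2_47 (.node 1 6 (.cons 0x5432167890 .nil) (.node 4 6 (.cons 0x5467890123 .nil) (.node 2 6 .nil (.node 0 3 (.cons 0x7890345621 .nil) (.node 5 9 (.cons 0x8760954321 (.cons 0x7895612034 (.cons 0x4598761032 (.cons 0x4598761230 .nil)))) .done (.node 1 3 (.cons 0x2134567890 .nil) (.node 0 8 (.cons 0x9087654312 (.cons 0x9087621345 .nil)) (.node 1 8 (.cons 0x9067812345 (.cons 0x7621890543 .nil)) (.node 1 7 (.cons 0x8905432176 .nil) (.node 3 6 (.cons 0x8905436712 .nil) (.leaf 0x2178905436 0 .done) .done) .done) .done) (.node 0 7 (.cons 0x8907654312 (.cons 0x8907621345 .nil)) .done (.leaf 0x4312678905 1 (.leaf 0x2678905431 0 .done)))) .done)) (.node 6 8 (.cons 0x7689054321 .nil) (.node 1 5 (.cons 0x7689051234 .nil) (.node 1 4 (.cons 0x5678902143 .nil) (.node 3 6 (.cons 0x7890214365 .nil) (.node 2 7 (.cons 0x3654109872 .nil) (.leaf 0x4109872365 0 (.node 6 9 (.cons 0x8723690145 .nil)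 .done .done)) .done) (.node 1 8 (.cons 0x9067812345 .nil) (.node 1 7 (.cons 0x5098671234 .nil) (.node 1 3 (.cons 0x2134567890 .nil) (.node 1 9 (.cons 0x8760912345 .nil) .done .done) .done) .done) .done)) (.node 3 6 (.cons 0x7890215634 .nil) (.node 6 9 .nil (.node 0 7 (.cons 0x7098643215 (.cons 0x2345169870 .nil)) (.node 3 5 (.cons 0x4356789021 (.cons 0x6987021534 (.cons 0x8769012354 .nil))) .done .done) .done) .done) .done)) (.node 0 8 (.cons 0x9805432167 .nil) (.node 0 3 .nil (.node 5 9 (.cons 0x8760954321 (.cons 0x7895612034 (.cons 0x4598761032 (.cons 0x4598761230 .nil)))) .done (.node 0 7 .nil (.node 2 9 (.cons 0x7089216543 (.cons 0x3456129870 .nil)) (.node 1 7 (.cons 0x9234508617 .nil) (.node 1 8 (.cons 0x9067812345 .nil) (.leaf 0x4567812903 1 .done) (.leaf 0x8920345617 0 .done)) .done) (.node 2 8 (.cons 0x9821670543 .nil) (.node 0 4 .nil (.node 3 9 (.cons 0x6705439821 (.cons 0x7654012893 (.cons 0x7893402165 (.cons 0x7650439821 .nil)))) .done .done) .done) .done))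 .done)) (.node 2 9 (.cons 0x7612980543 .nil) (.node 0 7 .nil (.node 0 3 (.cons 0x9870345612 .nil) (.node 1 5 (.cons 0x7615430892 (.cons 0x8670923451 (.cons 0x9870326154 .nil))) .done .done) (.node 0 3 (.cons 0x7612980345 .nil) (.node 0 4 .nil (.node 5 9 (.cons 0x8760954321 (.cons 0x7895612043 (.cons 0x7895403261 (.cons 0x3216789540 .nil)))) .done .done) .done) .done)) (.node 0 7 (.cons 0x3456129870 .nil) (.node 0 3 (.cons 0x7892165430 .nil) (.node 0 4 .nil (.node 3 5 (.cons 0x4356789021 (.cons 0x9876534021 (.cons 0x9235401687 (.cons 0x7892043561 .nil)))) .done .done) .done) .done) .done)) .done)) .done)) .done)) (.node 6 8 (.cons 0x7689054321 .nil) (.node 1 5 (.cons 0x7689051234 .nil) (.node 1 8 (.cons 0x9023467815 .nil) (.node 3 6 .nil (.node 2 7 (.cons 0x9027815643 (.cons 0x9810546327 (.cons 0x9018723645 (.cons 0x7236450981 .nil)))) .done (.node 1 3 (.cons 0x2134567890 .nil) (.node 1 7 (.cons 0x5098671234 .nil) (.node 1 4 (.cons 0x5678902143 .nil) (.node 1 9 (.cons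 0x8764320915 .nil) .done .done) .done) .done) .done)) (.node 3 6 (.cons 0x7634509812 .nil) (.node 2 6 (.cons 0x7621890543 .nil) (.node 6 9 .nil (.node 3 5 (.cons 0x2354678901 (.cons 0x7698120534 (.cons 0x7815346902 (.cons 0x4351876902 .nil)))) .done .done) .done) .done) .done)) (.node 1 8 (.cons 0x9067812345 .nil) (.node 3 6 (.cons 0x7634509812 .nil) (.node 2 6 (.cons 0x7890154623 .nil) (.node 6 9 .nil (.node 2 7 (.cons 0x5436721890 (.cons 0x3278964510 (.cons 0x8127690543 .nil))) .done .done) .done) .done) .done) .done)) (.node 2 6 .nil (.node 0 3 (.cons 0x7890345621 .nil) (.node 5 9 (.cons 0x8760954321 (.cons 0x7895461032 (.cons 0x4598761032 (.cons 0x4598761230 .nil)))) .done (.node 1 5 (.cons 0x7890154623 .nil) (.node 2 9 (.cons 0x4516789230 .nil) (.leaf 0x6154302987 0 (.leaf 0x1543029876 1 .done)) (.node 1 3 (.cons 0x2134567890 (.cons 0x7890132645 .nil)) (.node 0 7 (.cons 0x8907654312 (.cons 0x8907621345 .nil)) .done (.leaf 0x2678905431 0 .done)) .done)) .done))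 (.node 3 6 .nil (.node 1 5 (.cons 0x7890154632 .nil) (.node 0 7 (.cons 0x8907621543 (.cons 0x8907623451 .nil)) (.node 5 9 (.cons 0x7895164320 .nil) (.node 0 4 (.cons 0x7895401632 .nil) (.node 1 3 (.cons 0x8907654312 (.cons 0x4316598702 .nil)) (.leaf 0x431598762 0 (.leaf 0x9513402678 0 .done)) .done) (.leaf 0x2160789543 0 .done)) .done) (.node 1 7 (.cons 0x4509867123 (.cons 0x8905436712 .nil)) (.node 4 8 (.cons 0x3489056712 (.cons 0x9845012367 (.cons 0x9021563487 (.cons 0x5098436712 .nil)))) .done .done) .done)) (.node 6 9 .nil (.node 3 7 (.cons 0x4509867321 (.cons 0x8967321054 .nil)) (.node 4 8 (.cons 0x9054867321 (.cons 0x7698450123 (.cons 0x3784569012 .nil))) (.node 1 5 (.cons 0x7634890512 (.cons 0x5120967843 (.cons 0x4512378690 .nil))) .done .done) (.node 4 8 (.cons 0x9845016732 (.cons 0x2376984501 .nil)) (.leaf 0x548967321 0 (.node 1 5 (.cons 0x9843761502 (.cons 0x5120967843 (.cons 0x7348961502 .nil))) .done .done)) .done)) .done) .done)) .done)) .done)) .done))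 (.node 4 6 (.cons 0x5467890123 .nil) tc9_2_46 (.node 1 8 (.cons 0x9067812345 .nil) tc9_2_45 .done))) (.node 4 6 (.cons 0x5467890123 .nil) (.node 6 8 (.cons 0x7689054321 .nil) tc9_2_44 (.node 1 6 (.cons 0x5432167890 .nil) tc9_2_43 (.node 1 6 (.cons 0x5432167890 .nil) (.node 0 8 (.cons 0x9805432167 .nil) (.node 0 3 .nil (.node 5 9 (.cons 0x7895612034 (.cons 0x4598761032 (.cons 0x4598761230 .nil))) (.node 0 4 (.cons 0x5987612043 .nil) (.node 6 9 (.cons 0x7804321695 (.cons 0x7804596123 .nil)) .done .done) .done) (.node 0 7 .nil (.node 5 9 (.cons 0x6123459870 (.cons 0x7089546123 .nil)) (.leaf 0x3459870612 0 (.node 2 8 (.cons 0x9034567821 (.cons 0x3289546701 .nil)) (.node 2 9 (.cons 0x8765430921 (.cons 0x7089216543 (.cons 0x3456129870 .nil))) .done .done) .done)) (.node 0 4 .nil (.node 3 5 (.cons 0x4356789021 (.cons 0x9876534021 (.cons 0x9876104532 .nil))) (.node 1 7 (.cons 0x8905432176 (.cons 0x6534098712 .nil)) (.node 6 8 (.cons 0x7689054321 (.cons 0x9043568712 (.cons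 0x9045321786 .nil))) .done .done) .done) .done) .done)) .done)) (.node 0 7 .nil (.node 0 3 (.cons 0x9870345612 .nil) (.node 1 3 (.cons 0x2134567890 (.cons 0x8907654312 .nil)) (.node 5 9 (.cons 0x9543087612 (.cons 0x6123459870 (.cons 0x4316598702 (.cons 0x4598706132 .nil)))) .done (.node 1 8 (.cons 0x9034567812 .nil) (.node 5 7 (.cons 0x9812075643 (.cons 0x9816432075 (.cons 0x6457098123 .nil))) (.leaf 0x1890756432 1 .done) .done) .done)) .done) (.node 0 3 .nil (.node 0 4 (.cons 0x9876123045 .nil) (.node 2 9 (.cons 0x7612980543 (.cons 0x7612980345 (.cons 0x7892165430 (.cons 0x7892165403 .nil)))) .done .done) (.node 0 4 .nil (.node 2 7 (.cons 0x9872165430 (.cons 0x9872165403 .nil)) (.node 3 9 (.cons 0x5467210893 (.cons 0x8934056721 (.cons 0x5401678932 .nil))) (.node 1 3 (.cons 0x2134567890 (.cons 0x5678904312 .nil)) (.leaf 0x2765408931 0 .done) .done) .done) .done) .done)) .done)) .done)) (.node 0 8 (.cons 0x9087612345 .nil) (.node 6 9 (.cons 0x7809612345 .nil) (.node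 3 6 .nil (.node 1 7 (.cons 0x8905432176 (.cons 0x8905436712 .nil)) (.node 5 9 (.cons 0x8761234590 (.cons 0x4365987120 (.cons 0x7108954632 (.cons 0x7123645980 .nil)))) .done (.node 2 4 (.cons 0x8905671243 (.cons 0x9805634217 (.cons 0x9087124365 (.cons 0x5634217890 .nil)))) .done .done)) (.node 6 8 (.cons 0x7689054321 .nil) (.node 2 6 .nil (.node 1 3 (.cons 0x2134567890 .nil) (.node 2 8 (.cons 0x7654312890 .nil) (.node 5 8 (.cons 0x7645890123 (.cons 0x7623109854 .nil)) .done .done) (.leaf 0x4312678905 1 (.leaf 0x2678905431 0 .done))) .done) .done) .done)) (.node 5 9 (.cons 0x8761234590 .nil) (.node 2 9 (.cons 0x7809216543 .nil) (.node 1 5 .nil (.node 3 7 (.cons 0x9087345612 (.cons 0x7321546980 (.cons 0x6908732154 (.cons 0x8901546732 .nil)))) (.leaf 0x6129087345 0 .done) (.node 0 3 (.cons 0x9876512034 .nil) (.node 0 4 (.cons 0x9876512043 .nil) (.node 0 7 (.cons 0x7089645123 .nil) .done .done) .done) .done)) .done) (.node 2 6 (.cons 0x7809543261 .nil) (.node 0 3 (.cons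 0x4598762301 .nil) (.node 0 4 (.cons 0x3267895401 .nil) (.node 0 7 .nil (.node 1 4 (.cons 0x3267895410 (.cons 0x8967054123 (.cons 0x8703269541 .nil))) .done .done) .done) .done) .done) .done)) .done)) (.node 0 7 .nil (.node 6 8 (.cons 0x7689054321 (.cons 0x9867054321 .nil)) (.node 1 5 (.cons 0x7689051234 (.cons 0x9867051234 (.cons 0x7098643215 .nil))) .done (.node 5 8 (.cons 0x7645890123 (.cons 0x9854670123 (.cons 0x9078543216 .nil))) (.node 2 9 (.cons 0x1678543290 (.cons 0x8543290761 (.cons 0x8709216543 .nil))) (.node 5 9 (.cons 0x8761234590 (.cons 0x4590786123 .nil)) .done .done) .done) .done)) (.node 0 3 .nil (.node 5 9 (.cons 0x8761234590 (.cons 0x8761230954 .nil)) (.node 1 5 (.cons 0x9876512034 .nil) (.node 2 7 (.cons 0x8723459061 (.cons 0x9543087216 .nil)) (.node 4 8 (.cons 0x3278459061 (.cons 0x9548723061 (.cons 0x9061548723 (.cons 0x9023487615 .nil)))) .done .done) .done) (.node 2 8 (.cons 0x1678234590 (.cons 0x7645982301 (.cons 0x9034561287 (.cons 0x4590328761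 .nil)))) .done .done)) (.node 0 4 .nil (.node 3 5 (.cons 0x4356789021 (.cons 0x9876534021 .nil)) (.node 6 9 (.cons 0x8769012354 (.cons 0x8769045321 .nil)) (.node 1 8 (.cons 0x9021876534 (.cons 0x7698123405 (.cons 0x9043567812 .nil))) (.leaf 0x2354096781 0 .done) .done) (.leaf 0x4098761235 0 .done)) .done) .done)) .done)) .done)) (.node 6 8 (.cons 0x7689054321 .nil) (.node 0 7 (.cons 0x9867054321 .nil) (.node 1 7 (.cons 0x9867123450 .nil) (.node 6 9 (.cons 0x8967123450 .nil) (.node 0 3 (.cons 0x8967123054 .nil) (.node 0 4 (.cons 0x3045698712 .nil) (.node 0 8 (.cons 0x4508967123 .nil) .done .done) .done) .done) (.node 3 6 (.cons 0x8905436712 .nil) (.node 1 8 .nil (.node 4 7 (.cons 0x9867450123 (.cons 0x9812056743 (.cons 0x5098167432 .nil))) .done (.node 2 6 (.cons 0x9078126543 .nil) (.node 2 8 (.cons 0x6712890543 .nil) .done .done) .done)) .done) .done)) (.node 1 7 (.cons 0x9867123450 .nil) (.node 0 8 (.cons 0x9805432176 .nil) (.node 1 8 (.cons 0x9817605432 .nil)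 (.node 4 8 (.cons 0x7612348905 .nil) (.node 2 8 (.cons 0x9823450671 .nil) (.node 5 8 (.cons 0x7645890123 .nil) .done .done) .done) .done) .done) (.node 6 9 .nil (.node 0 8 (.cons 0x3456908712 .nil) (.leaf 0x7123456908 0 .done) (.node 2 9 (.cons 0x3450768921 .nil) (.node 0 8 (.cons 0x8092176543 .nil) (.node 0 3 (.cons 0x5430768921 .nil) (.node 3 6 (.cons 0x9217086345 .nil) .done .done) .done) (.node 3 6 (.cons 0x7054368921 .nil) (.node 0 3 (.cons 0x9217865430 .nil) (.node 2 6 (.cons 0x7890345621 .nil) .done .done) .done) .done)) .done)) .done)) .done)) (.node 6 9 .nil (.node 1 7 (.cons 0x4509867123 (.cons 0x8967123450 .nil)) (.node 0 8 (.cons 0x3456908712 .nil) (.leaf 0x7123456908 0 (.node 4 8 (.cons 0x9054867123 (.cons 0x7698450123 (.cons 0x5690217843 .nil))) (.node 1 5 (.cons 0x7615098432 (.cons 0x7698432051 (.cons 0x3487156902 .nil))) .done .done) .done)) (.node 1 8 (.cons 0x7698123450 .nil) (.node 3 5 (.cons 0x4356789021 (.cons 0x8967120534 (.cons 0x9021876534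 (.cons 0x5346718902 .nil)))) (.node 0 7 (.cons 0x7098645321 .nil) (.leaf 0x1235467098 0 .done) .done) (.node 0 7 (.cons 0x3456907812 .nil) (.leaf 0x8123456907 0 .done) .done)) .done)) .done) .done)) .done))) .done))) .done)))
noncomputable def uc9_2_7 : T := tc9_2_48
theorem sub_c9_2_7 : root 9 refs9_2 [] 0x700000008706000000006050000000050300000000304000600004010000000010300000000302400000002018000600410 0xfe7fff3fff9fffd7ffa7ffedfff5ffe3fff9fead 9 0 6 .nil uc9_2_7 = true := by decide +kernel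
noncomputable def tc9_2_49 : T := (.node 0 3 .nil (.node 2 4 (.cons 0x9876542103 .nil) (.node 1 6 (.cons 0x5432167890 (.cons 0x8901673245 (.cons 0x9873561024 .nil))) (.leaf 0x8732456109 0 .done) (.node 2 5 (.cons 0x4309876521 .nil) (.node 1 6 (.cons 0x5432167890 (.cons 0x8901673254 (.cons 0x4378902561 .nil))) (.node 0 4 (.cons 0x9876104523 .nil) (.node 3 9 (.cons 0x8937610452 (.cons 0x5216789340 .nil)) (.leaf 0x1678932540 1 .done) .done) .done) (.node 5 9 (.cons 0x8760954321 .nil) (.node 5 8 (.cons 0x9067854321 .nil) (.node 6 8 (.cons 0x6873245901 (.cons 0x7865903421 .nil)) (.node 1 9 (.cons 0x6873245910 (.cons 0x9103245867 (.cons 0x7865912430 (.cons 0x7860345912 .nil)))) .done (.node 1 7 (.cons 0x4509867123 (.cons 0x9867123054 (.cons 0x6871230954 (.cons 0x4217865903 (.cons 0x6871245903 .nil))))) .done .done)) .done) (.node 1 6 (.cons 0x5432167890 (.cons 0x4598761032 .nil)) (.leaf 0x324598761 0 (.node 5 8 (.cons 0x9067854321 (.cons 0x9034216587 .nil)) .done .done))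 .done)) .done)) (.node 4 9 (.cons 0x6789453210 (.cons 0x6789453012 .nil)) (.node 2 6 (.cons 0x2654987301 .nil) (.leaf 0x5301267894 1 (.leaf 0x9873012654 0 (.leaf 0x3549876210 0 .done))) (.node 4 6 (.cons 0x9876453210 .nil) (.node 7 9 (.cons 0x8976450123 (.cons 0x8976530124 (.cons 0x8976450321 .nil))) (.node 2 8 (.cons 0x9823764501 (.cons 0x9824567301 (.cons 0x5034679821 (.cons 0x3054679821 .nil)))) .done .done) .done) .done)) .done))) (.node 0 7 .nil (.node 1 6 (.cons 0x5432167890 (.cons 0x9870216543 (.cons 0x8907612345 (.cons 0x9870216534 .nil)))) .done (.node 3 8 .nil (.node 1 6 (.cons 0x5432167890 (.cons 0x9834507612 (.cons 0x5438907612 .nil))) (.node 2 4 (.cons 0x5678903421 (.cons 0x9834216705 (.cons 0x9012456783 (.cons 0x2456738901 .nil)))) .done .done) (.node 3 9 .nil (.node 2 4 (.cons 0x5678903421 (.cons 0x3987654210 (.cons 0x8765421093 (.cons 0x8935421076 .nil)))) .done (.node 3 6 .nil (.node 2 4 (.cons 0x5678903421 (.cons 0x9873654201 (.cons 0x9012456387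 .nil))) (.node 5 8 (.cons 0x6732458901 (.cons 0x7632458901 (.cons 0x3670985421 .nil))) .done .done) .done) .done)) .done)) .done)) .done)) (.node 0 3 .nil (.node 2 4 (.cons 0x9876542103 .nil) (.node 1 6 (.cons 0x5432167890 (.cons 0x8901673245 .nil)) (.leaf 0x8732456109 0 (.leaf 0x7890165423 1 .done)) (.node 4 7 (.cons 0x9874356021 .nil) (.node 6 9 (.cons 0x8967450123 (.cons 0x8967450321 .nil)) (.node 3 8 (.cons 0x7456983012 .nil) (.node 3 9 (.cons 0x6547893012 .nil) .done .done) (.node 1 8 (.cons 0x9812347605 (.cons 0x9678103245 (.cons 0x9034218765 (.cons 0x9678103542 .nil)))) (.node 2 5 (.cons 0x9065243781 .nil) (.leaf 0x4523018967 1 .done) .done) .done)) (.node 6 9 (.cons 0x5347896021 (.cons 0x8967453012 (.cons 0x6987453021 .nil))) (.node 1 9 (.cons 0x7891206534 (.cons 0x8769103542 .nil)) (.leaf 0x2065347891 0 (.node 1 8 (.cons 0x5609187342 (.cons 0x9678103245 (.cons 0x9034218765 (.cons 0x9678103542 .nil)))) .done (.leaf 0x8743560219 1 .done))) .done) .done))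 (.node 1 7 (.cons 0x9871206534 (.cons 0x9871203456 (.cons 0x8903421765 .nil))) (.node 1 5 (.cons 0x8901542376 .nil) (.node 4 7 (.cons 0x9874356021 (.cons 0x9874306512 .nil)) (.node 0 7 .nil (.node 1 6 (.cons 0x5432167890 (.cons 0x9870216543 (.cons 0x8907612345 .nil))) .done .done) .done) .done) (.node 6 8 (.cons 0x5423768901 (.cons 0x9867103542 (.cons 0x9867124530 .nil))) (.node 5 9 (.cons 0x8953421760 (.cons 0x7124306895 (.cons 0x7689542301 (.cons 0x6895420371 .nil)))) .done .done) .done)) .done))) (.node 3 6 .nil (.node 0 4 (.cons 0x9876354012 .nil) (.node 1 9 (.cons 0x8765430912 (.cons 0x2198765340 (.cons 0x5340678912 .nil))) (.node 2 9 (.cons 0x8765430921 (.cons 0x1298765340 .nil)) (.leaf 0x8763540129 0 .done) (.leaf 0x3219876045 0 .done)) (.node 4 9 (.cons 0x6789453210 .nil) (.node 0 7 (.cons 0x8945321076 (.cons 0x8945367012 .nil)) .done (.node 2 7 (.cons 0x1278943560 (.cons 0x3654987210 (.cons 0x8721094563 .nil))) (.node 4 8 (.cons 0x3489056721 (.cons 0x9487210365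 (.cons 0x5098436721 .nil))) .done (.leaf 0x8945360127 0 .done)) (.node 1 7 (.cons 0x8943506712 (.cons 0x8905436712 .nil)) (.node 0 8 (.cons 0x9805432176 (.cons 0x9805436712 .nil)) .done (.leaf 0x2065349871 0 (.leaf 0x8943560217 1 .done))) .done))) .done)) (.node 1 6 (.cons 0x5432167890 .nil) (.node 0 7 (.cons 0x9870216543 .nil) (.node 0 8 (.cons 0x9805432167 .nil) (.node 0 4 .nil (.node 2 9 (.cons 0x1654378920 (.cons 0x8923761045 (.cons 0x1298765340 (.cons 0x3789204561 .nil)))) .done .done) .done) .done) (.node 1 5 .nil (.node 0 7 (.cons 0x8907634512 .nil) (.node 6 8 (.cons 0x7689054321 (.cons 0x9867054321 (.cons 0x9023451687 (.cons 0x9023786154 .nil)))) .done .done) (.node 1 3 (.cons 0x2134567890 .nil) (.node 3 8 (.cons 0x9021654387 .nil) (.node 3 9 .nil (.node 5 8 (.cons 0x7632109854 (.cons 0x4587610932 (.cons 0x4587612390 .nil))) .done .done) .done) .done) .done)) .done)) .done)) .done)) (.node 4 9 (.cons 0x6789453210 .nil) (.node 4 6 (.cons 0x9876453210 .nil)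 (.node 2 4 .nil (.node 1 6 (.cons 0x5432167890 (.cons 0x8901673245 (.cons 0x9873561024 .nil))) (.leaf 0x7890165423 1 .done) (.node 2 5 .nil (.node 1 9 (.cons 0x8910546732 (.cons 0x6452378910 (.cons 0x1987346520 (.cons 0x6452019873 .nil)))) .done (.node 2 9 (.cons 0x8923764501 .nil) (.node 0 4 (.cons 0x1298765340 .nil) (.node 1 4 (.cons 0x3529876041 .nil) (.leaf 0x8760145329 1 .done) .done) .done) .done)) .done)) (.node 2 4 .nil (.node 1 6 (.cons 0x5432167890 (.cons 0x8901673245 (.cons 0x9873561024 .nil))) (.leaf 0x8732456109 0 .done) (.node 4 7 .nil (.node 3 6 (.cons 0x9873654201 (.cons 0x8901236745 (.cons 0x5634789021 .nil))) .done (.node 0 4 .nil (.node 2 9 (.cons 0x4532987601 (.cons 0x1298765340 .nil)) (.node 6 9 (.cons 0x3789654201 (.cons 0x7896534021 .nil)) .done .done) .done) .done)) .done)) .done)) (.leaf 0x3549876012 0 (.leaf 0x7894532106 0 (.node 2 5 .nil (.node 1 6 (.cons 0x2354987610 (.cons 0x3254987610 (.cons 0x8761094523 (.cons 0x8901673254 (.cons 0x4378902561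 .nil))))) .done (.node 1 5 .nil (.node 2 4 (.cons 0x9876015423 (.cons 0x8901542376 .nil)) (.node 1 6 (.cons 0x8901673245 (.cons 0x5324987610 .nil)) (.leaf 0x249873561 0 (.leaf 0x7890165423 1 .done)) .done) (.node 3 8 (.cons 0x6783254901 .nil) (.node 5 7 .nil (.node 1 6 (.cons 0x2354987610 (.cons 0x9875432061 (.cons 0x6109457832 (.cons 0x8905761234 .nil)))) (.node 6 8 (.cons 0x7689054321 (.cons 0x7549861023 (.cons 0x7523861094 (.cons 0x4573209861 .nil)))) .done .done) (.node 5 9 .nil (.node 4 6 (.cons 0x9876453210 (.cons 0x6459873201 (.cons 0x8764590123 .nil))) (.node 1 6 (.cons 0x2354987610 (.cons 0x7895432061 (.cons 0x8761234590 .nil))) (.node 0 4 (.cons 0x8904615732 (.cons 0x7834095612 (.cons 0x2167895340 .nil))) .done .done) .done) .done) .done)) (.node 0 3 .nil (.node 1 8 (.cons 0x6781094523 (.cons 0x9452301876 (.cons 0x9034521876 .nil))) .done (.node 1 3 (.cons 0x2134567890 .nil) (.node 3 6 (.cons 0x8763254901 .nil) .done .done) .done)) .done)) .done)) (.node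 2 9 (.cons 0x4532987601 .nil) (.node 5 9 .nil (.node 4 6 (.cons 0x9876453210 (.cons 0x6459873201 (.cons 0x8764590123 .nil))) (.node 1 6 (.cons 0x2354987610 (.cons 0x7895432061 (.cons 0x8761234590 .nil))) (.node 0 4 (.cons 0x8761049532 (.cons 0x2167895340 .nil)) (.leaf 0x8953402167 1 .done) .done) .done) (.node 3 9 .nil (.node 2 4 (.cons 0x3987654210 (.cons 0x8765421093 .nil)) (.leaf 0x7893542106 0 .done) (.node 1 9 .nil (.node 1 4 (.cons 0x3254198760 (.cons 0x8760914523 .nil)) (.leaf 0x3541987602 0 (.leaf 0x3541067892 0 (.leaf 0x6014532987 0 .done))) (.node 1 5 .nil (.node 2 4 (.cons 0x7893420651 (.cons 0x8765124390 .nil)) (.leaf 0x8915342067 0 .done) (.node 5 7 .nil (.node 1 4 (.cons 0x9876014532 (.cons 0x6578934120 .nil)) (.node 1 6 (.cons 0x2354987610 (.cons 0x4398756120 (.cons 0x4357891602 .nil))) .done (.leaf 0x3541067892 0 .done)) .done) .done)) .done)) .done)) .done)) (.node 2 8 .nil (.node 1 3 (.cons 0x2134567890 (.cons 0x4928765310 (.cons 0x7654312890 (.cons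 0x7650982134 .nil)))) (.node 1 7 (.cons 0x4356029871 (.cons 0x9823450671 (.cons 0x9065431782 (.cons 0x6710532894 (.cons 0x6712890543 .nil))))) .done .done) (.node 2 7 .nil (.node 1 9 (.cons 0x7605432891 (.cons 0x8910672354 (.cons 0x6019872354 (.cons 0x3450672891 .nil)))) .done (.node 5 7 .nil (.node 1 6 (.cons 0x2354987610 (.cons 0x9875432061 (.cons 0x3289457610 (.cons 0x8905761234 .nil)))) (.node 0 8 (.cons 0x7802943561 (.cons 0x9432805761 (.cons 0x3492805761 .nil))) .done .done) .done) .done)) .done)) .done)) .done))) .done)))) .done)))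
noncomputable def tc9_2_50 : T := (.node 0 6 (.cons 0x9876012354 .nil) tc9_2_49 (.node 0 3 .nil (.node 2 4 (.cons 0x9876542103 .nil) (.node 3 9 (.cons 0x8765390124 .nil) (.leaf 0x6542103987 0 (.leaf 0x5678930124 1 .done)) (.node 1 5 (.cons 0x4309876512 .nil) (.node 4 6 (.cons 0x5467890123 (.cons 0x9873201546 (.cons 0x8901546732 .nil))) (.node 2 5 (.cons 0x9876452301 .nil) (.node 1 9 (.cons 0x8734209156 .nil) (.leaf 0x6452301987 0 (.leaf 0x4523019876 1 (.node 1 4 (.cons 0x3251467890 .nil) (.node 1 8 (.cons 0x4678190352 .nil) (.leaf 0x4523091876 0 .done) (.leaf 0x9876415230 1 (.leaf 0x8903251467 0 .done))) .done))) .done) .done) (.node 4 6 (.cons 0x5467890123 (.cons 0x9876451032 .nil)) (.node 5 7 (.cons 0x9875643021 .nil) (.node 3 6 (.cons 0x8901236754 (.cons 0x4365789021 .nil)) .done (.node 1 9 (.cons 0x8910546732 (.cons 0x6457891230 (.cons 0x4657891203 (.cons 0x6457891203 .nil)))) (.leaf 0x2034657891 0 .done) .done)) (.node 5 8 (.cons 0x2376458901 (.cons 0x7645890321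 .nil)) (.leaf 0x985467321 0 (.node 7 9 (.cons 0x8973201546 (.cons 0x4679851032 (.cons 0x8976451230 .nil))) (.node 6 8 (.cons 0x7689054321 (.cons 0x7986430215 (.cons 0x2037986451 .nil))) (.leaf 0x9730215468 1 .done) .done) .done)) .done)) (.node 1 8 (.cons 0x9034218765 .nil) (.node 0 6 (.cons 0x9067812345 (.cons 0x9065187342 .nil)) (.node 6 9 (.cons 0x8769012354 (.cons 0x8109673245 (.cons 0x2437815690 (.cons 0x4532187690 .nil)))) .done .done) (.node 7 9 (.cons 0x6798123450 (.cons 0x4305679812 (.cons 0x6798123054 .nil))) (.leaf 0x342189765 0 .done) (.node 5 9 (.cons 0x6781245903 .nil) (.leaf 0x4218765903 0 (.node 2 6 (.cons 0x2673450981 (.cons 0x4598762301 (.cons 0x7621890345 (.cons 0x5903426781 (.cons 0x3095426781 .nil))))) .done .done)) .done))) .done))) (.node 2 8 (.cons 0x3765428901 (.cons 0x9824567301 .nil)) (.node 3 8 (.cons 0x9830124567 .nil) (.node 1 8 (.cons 0x9810376542 .nil) (.node 1 6 (.cons 0x7345618902 (.cons 0x7342098165 .nil)) (.leaf 0x3761890542 0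 (.node 2 9 (.cons 0x7834561290 (.cons 0x7381654290 .nil)) .done .done)) (.node 2 9 (.cons 0x8109245376 (.cons 0x6781290354 .nil)) .done .done)) .done) (.node 2 9 (.cons 0x1298765430 .nil) (.node 2 5 (.cons 0x4309876521 .nil) (.node 4 9 (.cons 0x6789452103 (.cons 0x6789452301 .nil)) (.leaf 0x2567894301 0 .done) .done) (.node 1 4 (.cons 0x8765341290 (.cons 0x5678921430 (.cons 0x9035412876 .nil))) (.leaf 0x3412987650 1 (.node 2 6 (.cons 0x3789014562 (.cons 0x9873014562 (.cons 0x9037826541 .nil))) .done .done)) .done)) .done)) .done))) (.node 1 5 (.cons 0x4309876512 .nil) (.node 2 5 (.cons 0x4309876521 .nil) (.node 5 7 .nil (.node 1 6 (.cons 0x5432167890 (.cons 0x8905761234 .nil)) (.node 6 8 (.cons 0x7689054321 (.cons 0x9023457861 .nil)) (.leaf 0x7543210986 0 (.leaf 0x9867543210 1 (.node 1 4 (.cons 0x2376890541 (.cons 0x3214576890 (.cons 0x6578903412 .nil))) (.node 2 8 (.cons 0x9028734561 (.cons 0x9821430576 (.cons 0x6750982143 .nil))) .done .done) .done))) (.node 6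 8 (.cons 0x7689054321 (.cons 0x9861023754 (.cons 0x7543209861 (.cons 0x4573209861 .nil)))) (.leaf 0x9867543210 1 .done) .done)) .done) .done) (.node 1 3 (.cons 0x2134567890 .nil) (.node 3 6 .nil (.node 4 7 (.cons 0x8901236745 .nil) (.leaf 0x8902136547 1 (.leaf 0x6347890215 0 (.leaf 0x5631209874 0 (.leaf 0x9874365120 0 .done)))) (.node 1 6 (.cons 0x5432167890 .nil) (.node 3 8 (.cons 0x9021654387 .nil) (.node 3 9 .nil (.node 4 8 (.cons 0x7632109845 (.cons 0x9378456102 (.cons 0x6784539012 (.cons 0x5487610932 .nil)))) .done .done) .done) (.node 1 8 .nil (.node 2 4 (.cons 0x5678903421 (.cons 0x9810542376 (.cons 0x9024378165 (.cons 0x7342098165 .nil)))) .done (.node 1 7 (.cons 0x8905432176 .nil) (.node 3 8 (.cons 0x9021783456 .nil) (.node 3 9 (.cons 0x8712093456 .nil) .done .done) .done) .done)) .done)) .done)) (.node 3 6 .nil (.node 4 7 (.cons 0x8901236745 .nil) (.node 6 8 (.cons 0x9865473102 (.cons 0x5098674321 (.cons 0x5476890132 (.cons 0x2098654731 .nil)))) .done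 (.leaf 0x6347890215 0 (.node 3 9 (.cons 0x8745639012 .nil) .done (.leaf 0x9874365120 0 .done)))) (.node 1 9 (.cons 0x4563789102 .nil) (.node 1 6 (.cons 0x5432167890 .nil) (.node 2 8 (.cons 0x4356782190 .nil) (.leaf 0x7345619028 0 (.node 3 8 (.cons 0x9021654387 .nil) (.node 3 9 .nil (.node 4 7 (.cons 0x5634789120 (.cons 0x1289347650 (.cons 0x6512874390 (.cons 0x8936745012 .nil)))) .done .done) .done) (.leaf 0x916543782 1 .done))) .done) (.node 3 8 .nil (.node 2 4 (.cons 0x9873654201 (.cons 0x6738910542 (.cons 0x9012456783 (.cons 0x2456738901 .nil)))) .done (.node 3 9 .nil (.node 1 7 (.cons 0x8905432176 (.cons 0x6543987120 (.cons 0x8712093456 .nil))) (.node 4 7 (.cons 0x6509834712 (.cons 0x8934712056 (.cons 0x6547839012 (.cons 0x8936745012 .nil)))) .done .done) .done) .done)) .done)) .done)) .done)) .done)) .done)) (.node 3 8 .nil (.node 1 7 (.cons 0x8905432176 (.cons 0x9021783456 (.cons 0x4389056712 .nil))) (.node 6 9 (.cons 0x3456987120 (.cons 0x4569837102 (.cons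 0x7120569834 (.cons 0x4501769832 .nil)))) (.leaf 0x5438967120 1 .done) (.node 2 4 (.cons 0x9012456783 (.cons 0x2456738901 .nil)) (.node 0 3 (.cons 0x5678903421 .nil) (.node 1 3 (.cons 0x9873102456 (.cons 0x8901376542 .nil)) (.leaf 0x7654213098 0 .done) .done) (.node 3 9 (.cons 0x3987654210 .nil) (.leaf 0x6542109387 0 (.node 6 9 (.cons 0x3789654201 (.cons 0x7389654201 (.cons 0x7698324501 (.cons 0x3896712450 .nil)))) .done .done)) .done)) .done)) (.node 1 3 (.cons 0x2134567890 .nil) (.node 0 3 .nil (.node 2 4 (.cons 0x9876542103 (.cons 0x9830124567 .nil)) (.node 1 6 (.cons 0x5432167890 (.cons 0x8901673245 .nil)) (.leaf 0x8732456109 0 (.leaf 0x2098731654 0 .done)) (.node 2 8 (.cons 0x9031287654 .nil) (.node 4 6 (.cons 0x5467890123 (.cons 0x9823764501 (.cons 0x5467328901 (.cons 0x9013287645 .nil)))) .done (.node 4 7 (.cons 0x3476509821 .nil) (.node 4 6 (.cons 0x5467890123 (.cons 0x9821035647 .nil)) (.node 1 5 (.cons 0x7643289051 (.cons 0x9876451032 .nil)) .done .done)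 (.node 2 6 (.cons 0x6210987453 (.cons 0x9874530126 (.cons 0x9830126745 (.cons 0x9830547621 .nil)))) .done .done)) .done)) .done)) (.node 1 5 (.cons 0x4309876512 .nil) (.node 3 6 .nil (.node 4 9 (.cons 0x2156789430 (.cons 0x6378945102 (.cons 0x2367894510 .nil))) (.leaf 0x5102367894 0 (.node 2 7 (.cons 0x6512789430 (.cons 0x3654987210 (.cons 0x9456387210 (.cons 0x7210563894 (.cons 0x4987215630 .nil))))) .done .done)) (.node 3 9 .nil (.node 2 4 (.cons 0x9876512430 (.cons 0x3987654210 (.cons 0x9387654210 .nil))) (.node 2 8 (.cons 0x3765428901 (.cons 0x4289376510 (.cons 0x4567821390 .nil))) .done .done) .done) .done)) .done) .done)) (.node 2 8 (.cons 0x7654312890 .nil) (.node 3 9 .nil (.node 4 7 (.cons 0x5674312890 (.cons 0x1289347650 (.cons 0x9382105674 .nil))) (.node 1 6 (.cons 0x5432167890 (.cons 0x7893456120 (.cons 0x8216743905 .nil))) (.leaf 0x9053476128 0 .done) .done) (.node 3 6 .nil (.node 4 7 (.cons 0x5674312890 (.cons 0x9836745012 .nil)) (.node 7 9 (.cons 0x6798321054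 (.cons 0x6350128974 (.cons 0x8974563120 .nil))) .done (.node 1 4 (.cons 0x2890567341 (.cons 0x9873654102 (.cons 0x7634128905 .nil))) (.node 2 7 (.cons 0x6509827341 (.cons 0x9827365014 (.cons 0x3654127890 .nil))) .done .done) .done)) (.node 0 3 .nil (.node 2 4 (.cons 0x8901376542 (.cons 0x9876542103 (.cons 0x9830124567 .nil))) (.node 4 7 (.cons 0x5674312890 .nil) (.node 0 6 (.cons 0x4789356012 .nil) (.leaf 0x1247893560 1 (.leaf 0x5398742106 0 .done)) (.node 1 5 (.cons 0x8765124390 (.cons 0x9821503476 .nil)) (.leaf 0x3098215674 0 .done) .done)) .done) .done) .done)) .done)) (.node 0 7 (.cons 0x8907654312 .nil) (.leaf 0x6543128907 0 (.leaf 0x9821345670 1 (.node 5 8 (.cons 0x6709854312 .nil) (.node 6 8 (.cons 0x7689054321 .nil) (.node 0 8 .nil (.node 1 6 (.cons 0x5432167890 (.cons 0x9805432167 (.cons 0x9087612345 .nil))) .done .done) .done) .done) .done))) .done)) (.node 3 9 .nil (.node 1 7 (.cons 0x8905432176 (.cons 0x6543987120 (.cons 0x8712093456 .nil))) (.node 4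 7 (.cons 0x8905674312 (.cons 0x8932105476 .nil)) (.node 2 8 (.cons 0x6712890543 (.cons 0x9382105674 (.cons 0x8213905674 .nil))) .done .done) .done) (.node 3 6 .nil (.node 4 7 (.cons 0x8905674312 (.cons 0x9836745012 .nil)) (.leaf 0x2136547890 1 (.leaf 0x213654789 0 .done)) (.node 0 3 .nil (.node 2 4 (.cons 0x9876542103 (.cons 0x9830124567 .nil)) (.leaf 0x6542103987 0 (.node 5 9 (.cons 0x8763210954 (.cons 0x8765903124 .nil)) (.node 1 6 (.cons 0x9542387610 (.cons 0x4598761032 .nil)) (.leaf 0x324598761 0 .done) .done) .done)) .done) .done)) .done)) .done))) (.node 3 9 .nil (.node 2 4 (.cons 0x7650983421 (.cons 0x3987654210 (.cons 0x8765421093 .nil))) (.node 4 7 (.cons 0x5674210983 (.cons 0x8932105476 (.cons 0x8390124765 .nil))) (.node 2 8 (.cons 0x3765428901 (.cons 0x6745012893 .nil)) (.node 5 8 (.cons 0x6732458901 .nil) (.leaf 0x2109385674 0 (.node 6 8 (.cons 0x5423768901 (.cons 0x7398654201 .nil)) .done .done)) .done) .done) .done) (.node 1 3 (.cons 0x2134567890 .nil)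 (.node 3 6 .nil (.node 4 7 (.cons 0x6354789012 .nil) (.leaf 0x8902136547 1 (.node 4 9 (.cons 0x6549873102 (.cons 0x7498365012 (.cons 0x7894563102 .nil))) (.node 2 8 (.cons 0x6547398201 (.cons 0x7631289450 .nil)) (.leaf 0x128947635 0 .done) .done) (.leaf 0x5631209874 0 .done))) (.node 0 3 .nil (.node 1 5 (.cons 0x4309876512 .nil) (.node 4 6 (.cons 0x5467890123 (.cons 0x9873201546 (.cons 0x8901546732 .nil))) (.node 7 9 (.cons 0x8976450132 (.cons 0x8790215634 (.cons 0x8790215436 (.cons 0x8790236451 .nil)))) .done .done) (.node 2 9 (.cons 0x4387651290 (.cons 0x8765129034 (.cons 0x4567892130 .nil))) .done .done)) .done) .done)) (.node 0 3 .nil (.node 2 8 (.cons 0x9031287654 .nil) (.node 2 4 (.cons 0x9876542103 (.cons 0x8245673901 (.cons 0x3765428901 .nil))) .done (.node 1 7 (.cons 0x4389056712 (.cons 0x9871203456 (.cons 0x9821765034 .nil))) (.node 2 4 (.cons 0x7650983421 (.cons 0x9824567301 .nil)) (.node 6 8 (.cons 0x7689054321 (.cons 0x9301768245 (.cons 0x9035421786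 .nil))) .done .done) .done) .done)) .done) .done)) .done)) .done))) .done)))
noncomputable def tc9_2_51 : T := (.node 0 3 (.cons 0x9876542103 .nil) (.node 0 7 .nil (.node 1 3 (.cons 0x2134567890 (.cons 0x9870213456 (.cons 0x8907654312 .nil))) (.node 6 9 (.cons 0x3107896542 (.cons 0x3124569870 .nil)) (.leaf 0x1324569870 1 (.leaf 0x132456987 0 (.leaf 0x2130789654 0 .done))) .done) (.node 7 9 .nil (.node 1 8 (.cons 0x9812437650 (.cons 0x6798123450 (.cons 0x6543097812 (.cons 0x3421897650 .nil)))) .done (.node 0 6 .nil (.node 5 9 (.cons 0x1243789560 (.cons 0x3245987601 .nil)) (.leaf 0x8734210659 0 .done) (.node 0 8 (.cons 0x9805673421 .nil) (.node 0 4 .nil (.node 1 3 (.cons 0x2134567890 (.cons 0x8973124056 .nil)) (.node 2 8 (.cons 0x9034567821 (.cons 0x4056798213 (.cons 0x9821376504 .nil))) .done (.node 5 8 (.cons 0x9850671243 (.cons 0x6589731204 (.cons 0x6589731240 (.cons 0x5897604231 (.cons 0x9856731240 .nil))))) .done .done)) .done) .done) .done)) .done)) .done))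 (.node 3 9 (.cons 0x3987654210 .nil) (.node 1 9 (.cons 0x8912437650 .nil) (.leaf 0x324567891 1 (.node 2 9 .nil (.node 1 5 (.cons 0x6512098734 (.cons 0x6789230154 (.cons 0x8765192430 (.cons 0x6510378924 .nil)))) .done (.node 2 5 (.cons 0x1987652430 .nil) (.node 2 7 .nil (.node 1 5 (.cons 0x6512098734 (.cons 0x6519872034 (.cons 0x6519872430 .nil))) .done .done) .done) .done)) .done)) (.leaf 0x4567893012 0 .done)) .done)) (.node 3 8 (.cons 0x9012456783 .nil) (.node 1 8 (.cons 0x4376509812 .nil) (.node 7 9 (.cons 0x6798321054 .nil) (.node 4 7 (.cons 0x9832105476 .nil) (.node 1 4 (.cons 0x8905673412 .nil) (.node 4 6 (.cons 0x2389764501 .nil) (.node 5 9 (.cons 0x7389564102 .nil) (.leaf 0x7324659018 1 (.leaf 0x8732465901 0 .done)) .done) .done) .done) (.node 2 7 (.cons 0x6509812734 .nil) (.node 4 7 (.cons 0x9832105476 .nil) (.node 4 6 (.cons 0x1238976450 .nil) (.node 0 3 (.cons 0x8976450321 .nil) (.node 0 7 (.cons 0x6450798123 .nil) .done (.leaf 0x5467981230 0 .done))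 (.leaf 0x2183790564 0 .done)) .done) .done) .done)) (.node 2 8 (.cons 0x4376509821 .nil) (.node 6 8 (.cons 0x7689054321 .nil) (.node 2 7 .nil (.node 1 3 (.cons 0x2134567890 (.cons 0x9027865431 (.cons 0x7209865431 (.cons 0x6543127890 .nil)))) .done (.node 2 5 .nil (.node 0 3 (.cons 0x9812765034 (.cons 0x9034256781 .nil)) (.leaf 0x4521768903 0 .done) .done) .done)) .done) .done) .done)) (.node 3 9 (.cons 0x8765421093 .nil) (.node 1 8 (.cons 0x4376509812 .nil) (.node 1 3 (.cons 0x2134567890 .nil) (.node 1 5 (.cons 0x6512098734 .nil) (.node 1 4 (.cons 0x8905673412 .nil) (.node 1 6 (.cons 0x5432167890 .nil) (.node 1 9 .nil (.node 0 6 (.cons 0x4378906512 (.cons 0x7834560912 (.cons 0x9187342065 .nil))) .done .done) .done) .done) .done) .done) (.node 1 9 .nil (.node 0 3 (.cons 0x9034218765 (.cons 0x8765430912 (.cons 0x5678190342 .nil))) .done (.node 0 3 (.cons 0x9034218765 .nil) (.node 1 3 (.cons 0x2134567890 .nil) (.node 3 5 (.cons 0x6789012354 .nil) (.node 3 6 (.cons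 0x8905436712 .nil) .done .done) .done) (.node 0 7 (.cons 0x8124390765 .nil) (.node 0 6 (.cons 0x8734219065 .nil) (.node 7 9 (.cons 0x5609783421 .nil) (.node 3 6 (.cons 0x2456387901 .nil) (.node 4 7 (.cons 0x2056347981 .nil) (.leaf 0x5021897436 0 .done) (.leaf 0x8790124563 1 .done)) (.node 1 5 (.cons 0x4215609783 .nil) (.leaf 0x2438790651 1 (.leaf 0x6097834215 0 .done)) .done)) .done) .done) .done)) .done)) .done)) (.leaf 0x5421093876 0 .done)) (.node 3 9 (.cons 0x2456783901 .nil) (.node 3 6 (.cons 0x8905436712 .nil) (.node 4 6 (.cons 0x5643789021 .nil) (.node 5 8 (.cons 0x7346589021 .nil) (.leaf 0x1237645890 0 (.node 3 5 (.cons 0x6789012354 .nil) (.node 0 3 .nil (.node 2 6 (.cons 0x8390176245 (.cons 0x7126430985 (.cons 0x7126458903 .nil))) .done .done) .done) (.leaf 0x2376458901 1 .done))) (.node 2 5 (.cons 0x3254678901 .nil) (.leaf 0x1025463987 0 (.node 0 4 (.cons 0x8936712540 .nil) (.node 0 8 (.cons 0x4521763980 .nil) (.node 0 3 (.cons 0x9876304521 .nil) (.node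 0 6 (.cons 0x9871206345 .nil) .done .done) .done) .done) .done)) .done)) (.node 0 3 .nil (.node 1 8 (.cons 0x4376509812 (.cons 0x9034218765 .nil)) (.node 7 9 (.cons 0x2456793810 (.cons 0x8103976542 (.cons 0x8124567930 .nil))) .done (.node 7 9 (.cons 0x8124379056 (.cons 0x4563097812 .nil)) (.leaf 0x978124563 1 .done) .done)) .done) .done)) (.node 2 7 (.cons 0x6542783901 .nil) (.node 2 5 .nil (.node 1 4 (.cons 0x8905673412 (.cons 0x4109837652 (.cons 0x6521437890 .nil))) (.leaf 0x2567839014 0 .done) (.node 2 8 (.cons 0x4376509821 .nil) (.node 2 9 (.cons 0x3876542901 .nil) (.node 1 9 (.cons 0x6542783910 .nil) (.node 2 6 (.cons 0x8342671905 .nil) .done .done) .done) .done) .done)) (.node 2 5 .nil (.node 1 4 (.cons 0x6723890541 (.cons 0x4109837652 (.cons 0x6521437890 .nil))) (.leaf 0x2567839014 0 .done) (.node 3 5 (.cons 0x6789012354 .nil) (.node 0 3 .nil (.node 4 6 (.cons 0x5643789021 (.cons 0x9830176452 (.cons 0x9876452301 .nil))) (.leaf 0x1039876452 0 .done) .done)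 .done) .done)) .done)) .done)) .done))) (.node 3 8 (.cons 0x7654210983 .nil) (.leaf 0x1245673890 0 (.node 1 8 (.cons 0x5673421890 .nil) (.node 0 7 (.cons 0x9812345076 .nil) (.node 0 3 .nil (.node 7 9 (.cons 0x6798123450 (.cons 0x3018976542 (.cons 0x6798123054 .nil))) .done (.node 0 6 (.cons 0x9812345067 .nil) (.node 3 9 .nil (.node 2 6 (.cons 0x9078345621 (.cons 0x9387012654 (.cons 0x7839012654 (.cons 0x5426718930 .nil)))) .done (.node 1 3 (.cons 0x2134567890 .nil) (.node 1 4 (.cons 0x8905673412 .nil) (.node 1 5 (.cons 0x6512098734 .nil) .done .done) .done) .done)) .done) .done)) (.node 7 9 (.cons 0x6798123450 .nil) (.node 0 3 (.cons 0x6798123054 .nil) (.node 2 9 (.cons 0x9218765430 .nil) (.node 0 6 (.cons 0x4506798123 .nil) (.node 1 6 (.cons 0x5432167890 .nil) (.leaf 0x7054329816 0 (.leaf 0x8167054329 1 .done)) .done) .done) .done) .done) .done)) (.node 0 7 (.cons 0x5670981243 .nil) (.node 0 3 .nil (.node 5 8 (.cons 0x1243765890 (.cons 0x9856730124 (.cons 0x6712458903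 .nil))) (.node 2 6 (.cons 0x9078345621 (.cons 0x9854267103 (.cons 0x9034267185 (.cons 0x5890342671 (.cons 0x3098542671 .nil))))) .done .done) (.node 3 9 (.cons 0x8124390765 .nil) (.node 1 9 (.cons 0x6543870912 .nil) (.node 6 8 (.cons 0x7689054321 .nil) (.leaf 0x1907865432 1 (.node 1 5 (.cons 0x7342098651 .nil) (.leaf 0x8673245109 0 (.leaf 0x6890154237 1 .done)) (.node 2 8 (.cons 0x4376509821 .nil) (.node 0 4 (.cons 0x7045682193 .nil) (.node 0 8 (.cons 0x9345670821 .nil) .done .done) .done) .done))) .done) .done) .done)) (.node 7 9 .nil (.node 4 7 (.cons 0x6502189743 (.cons 0x6509743812 .nil)) .done (.node 4 7 (.cons 0x3476509812 .nil) (.node 5 7 (.cons 0x6573890124 .nil) (.node 2 7 .nil (.node 3 6 (.cons 0x4218365790 (.cons 0x9836542701 (.cons 0x9012783654 (.cons 0x9836547210 (.cons 0x7245638901 .nil))))) .done .done) .done) (.node 2 9 (.cons 0x8129056743 .nil) (.leaf 0x567438129 0 .done) .done)) .done)) .done)) .done)) (.node 5 8 (.cons 0x1243765890 .nil) (.leaf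 0x6734210985 0 (.node 1 5 (.cons 0x6512098734 .nil) (.node 3 5 (.cons 0x6710983542 .nil) (.node 0 3 .nil (.node 2 9 (.cons 0x4298376510 (.cons 0x7651038924 (.cons 0x6715429830 .nil))) .done .done) .done) (.node 3 5 (.cons 0x6710983542 .nil) (.node 2 5 (.cons 0x4256738901 .nil) (.node 2 9 (.cons 0x8376510924 .nil) (.node 2 8 (.cons 0x4376509821 .nil) (.node 0 3 (.cons 0x8765129034 .nil) (.node 3 6 (.cons 0x9821763450 .nil) (.leaf 0x1763450982 0 .done) .done) .done) .done) .done) .done) .done)) (.node 0 3 (.cons 0x6712458903 .nil) (.node 0 7 .nil (.node 1 3 (.cons 0x4213765890 (.cons 0x9831076542 (.cons 0x8907654312 (.cons 0x6589073124 .nil)))) .done (.node 0 4 (.cons 0x3765890421 .nil) (.node 0 6 .nil (.node 1 4 (.cons 0x8905673412 (.cons 0x9850673214 (.cons 0x9067854123 (.cons 0x5609873412 .nil)))) .done (.node 6 8 (.cons 0x7689054321 .nil) (.node 3 9 (.cons 0x2176893450 .nil) (.leaf 0x8934502176 1 (.node 0 8 .nil (.node 3 5 (.cons 0x6735890421 (.cons 0x9806712435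 .nil)) .done .done) .done)) .done) .done)) .done) .done)) .done) .done))) .done))) .done)))
noncomputable def tc9_2_52 : T := (.leaf 0x4561209873 0 (.node 3 5 (.cons 0x6789012354 .nil) (.node 0 6 (.cons 0x9876012354 .nil) (.node 1 5 .nil (.node 0 8 (.cons 0x9087612345 (.cons 0x9087615432 .nil)) (.node 4 9 (.cons 0x6789453210 (.cons 0x7608943512 (.cons 0x8734906512 (.cons 0x2153498760 (.cons 0x4987601532 .nil))))) .done .done) (.node 0 8 (.cons 0x9087612345 .nil) (.node 0 7 .nil (.node 1 3 (.cons 0x2134567890 (.cons 0x8907654312 .nil)) (.node 1 8 (.cons 0x9021873456 (.cons 0x9812345076 .nil)) .done .done) (.node 0 3 .nil (.node 4 7 (.cons 0x9874356021 (.cons 0x9874306512 .nil)) (.node 2 9 (.cons 0x8709234516 (.cons 0x8921035476 (.cons 0x9216780354 .nil))) (.node 4 8 (.cons 0x8437650921 (.cons 0x7650348921 (.cons 0x7843092165 .nil))) (.leaf 0x3012984765 0 .done) .done) .done) .done) .done)) (.node 0 3 .nil (.node 2 7 (.cons 0x9087234516 (.cons 0x9872156034 (.cons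 0x6512789034 .nil))) (.node 2 9 (.cons 0x5432908761 .nil) (.leaf 0x4329087615 0 (.leaf 0x8092345167 0 .done)) .done) .done) .done)) .done)) (.node 4 9 (.cons 0x6789453210 .nil) (.node 4 6 (.cons 0x9876453210 .nil) (.node 1 5 .nil (.node 2 8 (.cons 0x8210945673 (.cons 0x7601549823 (.cons 0x8215673490 (.cons 0x8237609451 .nil)))) .done (.node 1 4 (.cons 0x9876014532 .nil) (.node 1 8 (.cons 0x7601894532 .nil) (.node 6 9 (.cons 0x9654378120 .nil) (.leaf 0x3781209654 0 (.leaf 0x7345690218 1 .done)) (.node 1 7 (.cons 0x7189435602 .nil) (.node 1 9 (.cons 0x8917605432 .nil) .done .done) .done)) .done) .done)) .done) (.leaf 0x3549876012 0 (.leaf 0x7894532106 0 (.node 1 5 .nil (.node 6 8 (.cons 0x7689054321 (.cons 0x9451023786 (.cons 0x2094378651 (.cons 0x6873209451 .nil)))) .done (.node 5 9 (.cons 0x8761234590 .nil) (.node 0 3 (.cons 0x8761230954 .nil) (.node 0 8 (.cons 0x4590876123 .nil) (.node 0 7 .nil (.node 1 3 (.cons 0x2134567890 (.cons 0x8907654312 .nil)) .done .done)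 .done) .done) .done) .done)) .done)))) .done)) (.node 5 9 (.cons 0x8761234590 .nil) (.node 1 5 .nil (.node 6 8 (.cons 0x7689054321 (.cons 0x7861590234 (.cons 0x9023451687 .nil))) (.node 2 8 (.cons 0x1678234590 (.cons 0x4328761590 .nil)) (.node 0 3 (.cons 0x4590328761 (.cons 0x4309876512 (.cons 0x9032876154 .nil))) .done .done) (.node 4 9 (.cons 0x7861235490 (.cons 0x8673215490 (.cons 0x6873215490 .nil))) (.leaf 0x5490237861 1 .done) .done)) (.node 5 8 .nil (.node 7 9 (.cons 0x8790216543 (.cons 0x8509761234 (.cons 0x6120978543 .nil))) (.node 1 7 (.cons 0x8905432176 (.cons 0x6178590234 .nil)) (.node 6 9 (.cons 0x8734569021 (.cons 0x8543712096 (.cons 0x4378569021 .nil))) .done .done) .done) (.node 5 7 .nil (.node 6 8 (.cons 0x7689054321 (.cons 0x4320957861 (.cons 0x9023457861 .nil))) (.leaf 0x7543210986 0 .done) .done) .done)) .done)) (.node 0 3 (.cons 0x8761230954 .nil) (.node 1 5 (.cons 0x4309876512 .nil) (.node 1 3 (.cons 0x2134567890 .nil) (.node 2 5 (.cons 0x4309876521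 .nil) (.node 3 9 .nil (.node 4 8 (.cons 0x3216784590 (.cons 0x9301256784 (.cons 0x6548739012 (.cons 0x6784521093 (.cons 0x6784523901 .nil))))) .done (.node 0 6 (.cons 0x4510678932 .nil) (.node 0 7 (.cons 0x8907654312 .nil) (.node 0 8 (.cons 0x4590876123 .nil) .done .done) .done) .done)) .done) .done) .done) (.node 3 8 (.cons 0x9021654387 .nil) (.node 0 6 .nil (.node 1 7 (.cons 0x8905432176 (.cons 0x9871206543 (.cons 0x4356098712 (.cons 0x9834506712 .nil)))) .done (.node 0 8 (.cons 0x4590876123 .nil) (.node 0 7 .nil (.node 0 4 (.cons 0x6704598321 .nil) (.node 2 4 (.cons 0x7890653421 (.cons 0x9870653421 (.cons 0x9542167083 .nil))) .done .done) .done) .done) .done)) (.node 0 8 (.cons 0x4590876123 .nil) (.node 3 9 (.cons 0x5439087612 .nil) (.node 1 3 (.cons 0x2134567890 .nil) (.node 1 5 .nil (.node 4 6 (.cons 0x5467890123 (.cons 0x9876451032 (.cons 0x4673809512 (.cons 0x7832095164 .nil)))) .done .done) .done) .done) .done) .done)) .done)) .done)) (.node 0 3 .nil (.node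 5 9 (.cons 0x8761234590 (.cons 0x8761230954 .nil)) (.node 1 7 (.cons 0x8905432176 (.cons 0x9871203456 .nil)) (.node 2 4 (.cons 0x6534209871 (.cons 0x6598712430 (.cons 0x8712430956 (.cons 0x8903421765 .nil)))) .done (.node 2 8 (.cons 0x6712890543 (.cons 0x7821659034 .nil)) (.node 4 9 (.cons 0x9453287610 (.cons 0x6710354982 (.cons 0x9453016782 .nil))) (.leaf 0x349821765 0 .done) (.node 4 6 (.cons 0x2354678901 (.cons 0x9821764503 (.cons 0x2890354671 (.cons 0x7823095461 .nil)))) .done .done)) .done)) .done) (.node 1 5 (.cons 0x4309876512 .nil) (.node 0 6 .nil (.node 1 3 (.cons 0x2134567890 (.cons 0x7890654312 .nil)) (.node 1 9 (.cons 0x8734560912 .nil) (.leaf 0x4560219873 0 (.node 1 7 (.cons 0x8905432176 .nil) (.node 1 8 (.cons 0x9021873456 (.cons 0x9065437812 .nil)) .done .done) (.node 3 6 (.cons 0x7891206345 .nil) .done .done))) .done) (.node 0 8 (.cons 0x9087612345 .nil) (.node 0 7 .nil (.node 3 9 (.cons 0x5439087612 (.cons 0x6708934512 (.cons 0x8709345612 .nil)))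 .done .done) .done) .done)) (.node 5 9 (.cons 0x8761234590 .nil) (.node 0 8 (.cons 0x4590876123 .nil) (.node 0 7 .nil (.node 1 3 (.cons 0x2134567890 (.cons 0x9870213456 (.cons 0x8907654312 .nil))) .done (.node 0 6 .nil (.node 3 8 (.cons 0x9021654387 (.cons 0x7832160954 .nil)) (.node 0 4 (.cons 0x9540678321 .nil) .done .done) .done) .done)) (.node 2 9 (.cons 0x5432908761 .nil) (.leaf 0x4329087615 0 (.leaf 0x8092345167 0 .done)) .done)) .done) .done)) .done)) .done))) (.node 1 3 (.cons 0x2134567890 .nil) (.node 3 5 (.cons 0x6789012354 .nil) (.node 1 7 (.cons 0x8905432176 .nil) (.node 3 8 (.cons 0x4389056712 .nil) (.node 0 7 (.cons 0x8907612345 .nil) (.node 1 5 .nil (.node 4 6 (.cons 0x5467890123 (.cons 0x9834670512 (.cons 0x9021564387 (.cons 0x3465178902 .nil)))) .done (.node 0 8 .nil (.node 2 4 (.cons 0x6534217890 (.cons 0x9805671243 (.cons 0x9087124356 (.cons 0x9083421567 .nil)))) .done (.node 0 3 .nil (.node 5 8 (.cons 0x7612345890 (.cons 0x9854307612 (.cons 0x7612309854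 .nil))) .done .done) .done)) .done)) (.node 0 3 .nil (.node 5 7 (.cons 0x7561209834 (.cons 0x8903216754 .nil)) (.node 0 8 (.cons 0x9803457612 .nil) .done .done) .done) .done)) (.node 2 7 (.cons 0x7209834561 .nil) (.leaf 0x8345617209 0 (.node 1 5 (.cons 0x4516723890 .nil) (.node 2 5 (.cons 0x7165209834 .nil) (.node 5 7 (.cons 0x4576109832 .nil) (.node 0 7 (.cons 0x8907612345 .nil) (.node 7 9 (.cons 0x4523897610 .nil) .done .done) .done) .done) .done) .done)) .done)) (.node 1 5 .nil (.node 3 6 (.cons 0x8905436712 (.cons 0x7890215634 (.cons 0x6345178902 .nil))) .done (.node 1 4 .nil (.node 3 6 (.cons 0x8905436712 (.cons 0x7890214365 (.cons 0x5410987632 .nil))) .done (.node 1 8 (.cons 0x9021873456 .nil) (.node 1 9 .nil (.node 0 6 (.cons 0x8760912345 (.cons 0x7891345602 .nil)) (.leaf 0x4560219873 0 (.node 0 7 (.cons 0x8907612345 (.cons 0x6543198702 .nil)) .done .done)) .done) .done) .done)) .done)) .done)) (.node 3 6 .nil (.node 1 7 (.cons 0x8905432176 (.cons 0x8905436712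 .nil)) (.node 1 8 (.cons 0x9021873456 (.cons 0x7634509812 .nil)) (.node 4 8 (.cons 0x7165348902 (.cons 0x9843650217 (.cons 0x5098436712 .nil))) (.node 1 5 (.cons 0x6715098432 (.cons 0x9015487632 .nil)) .done .done) .done) .done) (.node 0 3 .nil (.node 5 7 (.cons 0x4365789021 (.cons 0x8903216754 .nil)) (.node 1 4 (.cons 0x9875634120 .nil) (.node 1 5 (.cons 0x7890215634 .nil) (.node 5 8 (.cons 0x7612345890 (.cons 0x7612309854 .nil)) .done .done) (.leaf 0x3657890214 0 (.leaf 0x2143657890 1 .done))) .done) .done) .done)) .done)) (.node 3 5 (.cons 0x6789012354 .nil) (.node 1 5 .nil (.node 3 6 (.cons 0x7890215634 (.cons 0x4510987632 .nil)) (.node 0 3 (.cons 0x4309876512 .nil) (.node 4 6 (.cons 0x9876451032 .nil) (.node 3 8 (.cons 0x9021564387 .nil) .done (.node 1 7 (.cons 0x9871023645 (.cons 0x3465178902 (.cons 0x8905436712 .nil))) .done .done)) .done) .done) (.node 2 5 .nil (.node 3 6 (.cons 0x4523678901 .nil) (.node 0 3 (.cons 0x4309876521 .nil) (.node 1 4 (.cons 0x3412567890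 .nil) (.leaf 0x214563789 0 (.leaf 0x6541209873 0 (.leaf 0x9032541678 0 .done))) .done) (.node 1 4 (.cons 0x7890214365 (.cons 0x5214367890 .nil)) (.leaf 0x8763254109 0 .done) .done)) (.node 5 7 .nil (.node 3 8 (.cons 0x7561209834 (.cons 0x4576109832 .nil)) (.leaf 0x9834576120 1 .done) (.node 5 8 (.cons 0x7612345890 .nil) (.node 5 9 .nil (.node 0 6 (.cons 0x7890654312 (.cons 0x8760954321 (.cons 0x8760951234 .nil))) (.node 4 6 (.cons 0x9876453210 (.cons 0x7895460132 (.cons 0x8764590123 .nil))) .done .done) .done) .done) .done)) .done)) .done)) (.node 0 3 .nil (.node 5 7 (.cons 0x8903216754 .nil) (.node 3 8 (.cons 0x7561209834 .nil) (.leaf 0x4576120983 0 .done) (.node 5 8 (.cons 0x7612345890 (.cons 0x7612309854 .nil)) (.node 2 7 (.cons 0x6543127890 (.cons 0x7216589034 .nil)) (.node 4 7 (.cons 0x8901674532 (.cons 0x6127458903 (.cons 0x8903165472 .nil))) .done .done) .done) .done)) (.node 3 8 .nil (.node 2 4 (.cons 0x5678903421 (.cons 0x9012456783 (.cons 0x7654210983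 .nil))) (.leaf 0x6542109837 0 .done) (.node 3 6 .nil (.node 4 7 (.cons 0x8901674532 (.cons 0x9836745012 .nil)) (.leaf 0x6547890213 0 (.node 5 8 (.cons 0x7612345890 (.cons 0x7458901632 (.cons 0x7458902361 .nil))) .done .done)) .done) .done)) .done)) .done)) (.node 1 7 (.cons 0x8905432176 .nil) (.node 0 3 (.cons 0x9871203456 .nil) (.node 3 6 .nil (.node 0 8 (.cons 0x9805432176 (.cons 0x9805436712 .nil)) (.node 4 9 (.cons 0x3498056712 (.cons 0x7120894365 (.cons 0x8736549012 (.cons 0x5089436712 (.cons 0x3654987102 .nil))))) .done .done) (.node 3 5 (.cons 0x6789012354 .nil) (.node 3 8 .nil (.node 2 7 (.cons 0x8905672134 (.cons 0x4389056721 (.cons 0x9830271654 .nil))) .done .done) .done) .done)) .done) (.node 3 6 (.cons 0x8905436712 .nil) (.node 1 9 .nil (.node 0 8 (.cons 0x9805436712 (.cons 0x7634508912 .nil)) (.node 2 4 (.cons 0x7650891243 (.cons 0x5678091243 (.cons 0x8091243765 .nil))) (.leaf 0x6542019873 0 .done) (.leaf 0x7654321908 1 .done)) (.node 1 8 (.cons 0x9021873456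 .nil) (.node 6 9 (.cons 0x5436987120 .nil) (.leaf 0x3781209654 0 (.node 1 4 (.cons 0x7896320145 .nil) (.node 1 5 (.cons 0x7896320154 .nil) .done .done) (.leaf 0x7345690218 1 .done))) .done) .done)) (.node 0 3 .nil (.node 2 5 (.cons 0x4312567890 .nil) (.node 6 9 (.cons 0x1789634520 (.cons 0x8967125034 (.cons 0x4520369871 .nil))) .done (.leaf 0x3452098716 0 (.node 4 8 (.cons 0x7650984312 (.cons 0x9845203617 (.cons 0x7163098452 (.cons 0x7612548903 .nil)))) (.leaf 0x6125489037 1 .done) .done))) .done) .done)) .done)) .done))) (.node 1 7 (.cons 0x8905432176 .nil) (.node 0 3 (.cons 0x9871203456 .nil) (.node 1 8 (.cons 0x9021873456 .nil) (.node 1 3 (.cons 0x2134567890 .nil) (.node 1 5 (.cons 0x4309876512 .nil) (.node 1 4 (.cons 0x5678903412 .nil) (.node 1 9 .nil (.node 0 6 (.cons 0x9065437812 (.cons 0x8760912345 (.cons 0x8917605432 .nil))) .done .done) .done) .done) .done) (.node 0 8 (.cons 0x9805432176 .nil) (.node 0 6 (.cons 0x9871206543 .nil) (.node 1 9 (.cons 0x6719805432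 .nil) (.node 1 3 (.cons 0x2134567890 .nil) (.node 1 4 (.cons 0x5678903412 .nil) (.node 1 5 (.cons 0x4309876512 .nil) .done .done) .done) (.node 1 3 (.cons 0x2134567890 .nil) (.node 1 4 (.cons 0x5678903412 .nil) (.node 1 5 (.cons 0x4309876512 .nil) .done .done) .done) .done)) .done) .done) .done)) (.node 0 6 (.cons 0x9871206543 .nil) (.node 0 4 .nil (.node 2 9 (.cons 0x6543029871 (.cons 0x8921765043 .nil)) (.node 3 5 (.cons 0x7890216534 (.cons 0x7890435612 .nil)) (.leaf 0x435617892 0 .done) (.leaf 0x7892034561 0 .done)) (.node 4 7 (.cons 0x5612098743 .nil) (.node 5 7 (.cons 0x8905761234 .nil) (.node 0 8 (.cons 0x9805432176 .nil) (.node 0 7 .nil (.node 1 3 (.cons 0x2134567890 (.cons 0x8907654312 .nil)) (.node 3 5 (.cons 0x2098743561 (.cons 0x9870216534 .nil)) .done .done) .done) .done) .done) .done) .done)) .done) .done)) (.node 1 8 (.cons 0x9021873456 .nil) (.node 4 7 (.cons 0x5612098743 .nil) (.node 6 9 (.cons 0x9654378120 .nil) (.node 1 9 .nil (.node 0 6 (.cons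 0x9812345067 (.cons 0x8760912345 (.cons 0x9187345602 .nil))) .done (.node 1 3 (.cons 0x2134567890 .nil) (.node 1 5 .nil (.node 0 3 (.cons 0x9874302165 (.cons 0x4309876512 (.cons 0x8967451032 .nil))) .done (.node 1 4 .nil (.node 0 3 (.cons 0x9874302165 (.cons 0x5678903412 .nil)) (.node 2 5 (.cons 0x2561987430 (.cons 0x7698145230 .nil)) (.leaf 0x7890325416 0 .done) .done) .done) .done)) .done) .done)) (.node 6 8 (.cons 0x7689054321 .nil) (.node 5 8 (.cons 0x7432058961 .nil) (.leaf 0x9617432058 0 (.node 2 8 (.cons 0x3289674501 .nil) (.node 2 7 (.cons 0x1896723450 .nil) (.node 5 7 (.cons 0x8905761234 .nil) .done .done) .done) .done)) .done) (.leaf 0x7345690218 1 .done))) (.node 7 9 (.cons 0x6798123450 .nil) (.leaf 0x4798165023 1 (.leaf 0x8165023479 0 .done)) .done)) (.node 4 7 (.cons 0x5612098743 .nil) (.node 1 9 .nil (.node 3 8 (.cons 0x9832105476 (.cons 0x2198347650 (.cons 0x7438916502 .nil))) (.leaf 0x9120567438 0 .done) (.node 1 3 (.cons 0x2134567890 .nil) (.node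 0 3 (.cons 0x9874302165 .nil) (.node 1 4 (.cons 0x5678903412 .nil) (.node 1 5 (.cons 0x4309876512 .nil) .done .done) (.node 3 8 (.cons 0x9832105476 .nil) (.node 3 5 (.cons 0x9874356120 .nil) (.node 3 9 (.cons 0x8932105476 .nil) .done .done) .done) .done)) .done) .done)) (.node 1 9 .nil (.node 2 8 (.cons 0x5098234761 (.cons 0x6745019823 (.cons 0x8219056734 .nil))) (.leaf 0x9028734561 0 .done) (.node 1 3 (.cons 0x2134567890 .nil) (.node 0 7 (.cons 0x9870213456 .nil) (.node 7 9 (.cons 0x8974316502 .nil) (.node 6 9 (.cons 0x7896543120 .nil) (.node 2 7 (.cons 0x1345698720 .nil) (.node 3 6 (.cons 0x2718963450 .nil) (.leaf 0x9634502718 1 .done) .done) .done) .done) .done) .done) .done)) .done)) .done)) .done)) .done))))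
noncomputable def tc9_2_53 : T := (.node 4 6 (.cons 0x5467890123 .nil) (.node 2 6 .nil (.node 4 9 (.cons 0x8945012376 (.cons 0x3789456210 (.cons 0x8945012673 (.cons 0x3789456201 .nil)))) .done (.node 3 6 .nil (.node 1 4 (.cons 0x7890214365 .nil) (.leaf 0x2145637890 1 (.node 1 7 (.cons 0x8905432176 (.cons 0x8905436712 .nil)) (.node 0 7 (.cons 0x9870216543 (.cons 0x9870216345 .nil)) (.node 5 9 (.cons 0x8954673210 (.cons 0x4598701632 (.cons 0x8714365902 (.cons 0x8763214590 .nil)))) .done .done) .done) (.leaf 0x5637890214 0 (.node 5 9 (.cons 0x8954673210 (.cons 0x6378954102 (.cons 0x6378954120 .nil))) (.node 0 4 (.cons 0x1265987340 (.cons 0x7895401632 .nil)) .done .done) .done)))) (.node 6 8 (.cons 0x7689054321 .nil) (.node 6 9 (.cons 0x8967321054 .nil) .done .done) .done)) (.node 6 9 (.cons 0x8967321054 .nil) (.node 6 8 (.cons 0x7689054321 .nil) (.node 3 6 .nil (.node 5 7 (.cons 0x9864573201 .nil) (.leaf 0x4361209875 0 (.node 1 4 (.cons 0x5698734120 (.cons 0x3620987541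 .nil)) (.leaf 0x2341698750 0 (.leaf 0x5637890214 0 .done)) (.node 0 4 (.cons 0x5698734021 (.cons 0x9875402163 (.cons 0x9875402361 .nil))) .done .done))) .done) .done) (.node 6 8 (.cons 0x7689054321 .nil) (.node 3 6 .nil (.node 1 8 (.cons 0x4501896732 (.cons 0x7634509812 .nil)) (.node 2 4 (.cons 0x3789654201 (.cons 0x7810963245 .nil)) (.leaf 0x5018967324 0 .done) .done) .done) .done) .done)) .done))) (.node 0 4 .nil (.node 6 9 (.cons 0x5469873201 (.cons 0x8967321045 (.cons 0x5698734021 (.cons 0x3789654021 .nil)))) .done (.node 4 9 (.cons 0x8945012376 .nil) (.node 0 8 (.cons 0x3765498012 .nil) (.leaf 0x1237654980 1 (.leaf 0x9456732108 0 .done)) (.node 4 8 (.cons 0x9845012376 .nil) (.node 2 8 (.cons 0x9823764501 .nil) (.node 5 9 (.cons 0x1287349560 .nil) (.leaf 0x4059821673 0 (.leaf 0x2895043761 0 .done)) (.node 6 8 (.cons 0x7689054321 .nil) (.node 2 6 (.cons 0x3789456210 .nil) (.node 3 6 (.cons 0x9845012367 .nil) .done .done) .done) .done)) .done) .done)) .done))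 .done)) (.node 4 6 (.cons 0x5467890123 .nil) (.node 2 4 .nil (.node 3 6 (.cons 0x9873654201 .nil) (.leaf 0x1245637890 1 (.leaf 0x2109873654 0 .done)) (.node 1 4 .nil (.node 3 6 (.cons 0x7890214365 (.cons 0x9873654102 .nil)) (.leaf 0x2145637890 1 .done) (.node 1 9 (.cons 0x6543789120 .nil) (.node 4 8 (.cons 0x2198437650 .nil) (.node 1 3 (.cons 0x2134567890 .nil) (.node 1 8 (.cons 0x9067812345 .nil) (.node 1 5 .nil (.node 0 3 (.cons 0x7891203465 (.cons 0x4309876512 (.cons 0x7891564302 .nil))) .done .done) .done) .done) (.leaf 0x3765021984 1 .done)) (.node 2 6 (.cons 0x8912673450 .nil) (.node 3 6 .nil (.node 5 7 (.cons 0x3412657890 (.cons 0x9875463201 (.cons 0x3645789120 .nil))) (.leaf 0x4632019875 0 .done) (.node 2 7 (.cons 0x3654109872 .nil) (.node 1 3 (.cons 0x5463198720 .nil) (.leaf 0x6450278913 0 (.leaf 0x9136450278 1 .done)) .done) .done)) (.node 0 8 (.cons 0x6734508912 .nil) (.leaf 0x9126734508 0 (.node 4 8 (.cons 0x3762198450 .nil) (.node 0 3 (.cons 0x2673054891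 .nil) (.leaf 0x7621984503 0 (.node 2 5 (.cons 0x9845237610 .nil) (.leaf 0x7891032546 0 .done) .done)) .done) (.leaf 0x5437621980 1 .done))) .done)) .done)) (.node 4 7 .nil (.node 3 8 (.cons 0x9012456783 (.cons 0x7438902165 (.cons 0x9837456102 .nil))) (.node 2 6 (.cons 0x7438905621 .nil) (.leaf 0x1265473890 1 (.leaf 0x5473890126 0 .done)) .done) (.node 0 4 .nil (.node 6 9 (.cons 0x8967321054 (.cons 0x5698734021 (.cons 0x3789654021 .nil))) (.node 2 5 (.cons 0x8901674523 .nil) (.leaf 0x4016987325 0 (.leaf 0x3254016987 1 .done)) .done) .done) .done)) .done))) (.node 2 9 .nil (.node 0 8 (.cons 0x9801245673 (.cons 0x4376508921 (.cons 0x5437612980 (.cons 0x3765429801 .nil)))) .done (.node 2 6 .nil (.node 4 9 (.cons 0x8945012376 (.cons 0x3789456210 (.cons 0x8945012673 (.cons 0x3789456201 .nil)))) .done (.node 6 9 (.cons 0x8967321054 .nil) (.node 6 8 (.cons 0x7689054321 .nil) (.node 3 6 .nil (.node 5 9 (.cons 0x8760954321 (.cons 0x7895463210 .nil)) (.node 0 4 (.cons 0x4059867321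 (.cons 0x6378954021 .nil)) (.leaf 0x5987361204 0 .done) .done) .done) .done) .done) .done)) (.node 2 6 .nil (.node 4 9 (.cons 0x8945012376 (.cons 0x3789456210 (.cons 0x8945012673 (.cons 0x3789456201 .nil)))) .done (.node 6 9 (.cons 0x8967321054 .nil) (.node 3 6 .nil (.node 5 9 (.cons 0x8760954321 (.cons 0x7895463210 .nil)) .done .done) .done) .done)) .done))) .done))) (.node 0 4 .nil (.node 6 9 (.cons 0x5469873201 (.cons 0x5698734021 (.cons 0x3789654021 .nil))) .done (.node 4 9 (.cons 0x8945012376 .nil) (.node 0 8 (.cons 0x3765498012 .nil) (.leaf 0x1237654980 1 (.leaf 0x9456732108 0 .done)) (.node 4 8 (.cons 0x9845012376 .nil) (.node 3 6 (.cons 0x9845012367 .nil) (.node 1 4 (.cons 0x7890214365 .nil) (.node 4 7 (.cons 0x5634789021 .nil) .done .done) .done) .done) .done)) .done)) .done)) (.node 0 4 (.cons 0x9873402165 .nil) (.node 4 7 (.cons 0x5612098743 .nil) (.node 1 7 (.cons 0x8905432176 .nil) (.node 3 6 (.cons 0x8905436712 .nil) (.node 6 9 (.cons 0x8967321054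 .nil) (.node 4 6 (.cons 0x5469873201 .nil) (.node 2 6 (.cons 0x8962054371 .nil) (.node 6 8 (.cons 0x7689054321 .nil) .done .done) .done) (.node 2 6 .nil (.node 3 5 (.cons 0x6987354021 (.cons 0x1269873540 (.cons 0x4532678901 .nil))) (.leaf 0x4537896210 1 .done) (.node 4 6 (.cons 0x5467890123 .nil) (.node 6 8 (.cons 0x7689054321 .nil) .done .done) .done)) .done)) (.node 2 5 (.cons 0x4523678901 .nil) (.leaf 0x8716345209 0 (.leaf 0x7890254361 1 (.node 2 8 (.cons 0x2890543671 .nil) (.leaf 0x5436712890 0 (.node 2 7 .nil (.node 1 8 (.cons 0x9067812345 (.cons 0x9817205436 (.cons 0x9056347281 .nil))) .done .done) .done)) .done))) .done)) .done) (.node 4 9 (.cons 0x8945012376 .nil) (.node 0 8 (.cons 0x3765498012 .nil) (.leaf 0x1237654980 1 (.leaf 0x9456732108 0 .done)) (.node 4 8 (.cons 0x7612348905 .nil) (.node 4 6 (.cons 0x5467890123 .nil) (.node 3 6 (.cons 0x9845012367 .nil) (.node 0 3 (.cons 0x6549873012 .nil) (.node 0 7 (.cons 0x8943705612 .nil) .done .done) .done) .done)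 .done) .done)) .done)) (.node 1 7 (.cons 0x8905432176 .nil) (.node 4 7 (.cons 0x5612098743 .nil) (.node 0 3 .nil (.node 4 9 (.cons 0x8945012376 (.cons 0x8945673012 (.cons 0x6549873012 .nil))) .done (.node 0 7 .nil (.node 4 8 (.cons 0x7612348905 (.cons 0x9843216705 (.cons 0x9843705612 .nil))) .done .done) .done)) .done) (.node 4 7 (.cons 0x5612098743 .nil) (.node 1 8 (.cons 0x9067812345 .nil) (.node 0 7 (.cons 0x9812345076 .nil) (.node 0 3 .nil (.node 2 4 (.cons 0x9876542103 (.cons 0x9812430765 .nil)) (.node 5 7 (.cons 0x9816750432 (.cons 0x3420987561 (.cons 0x9816750423 .nil))) .done .done) .done) .done) (.node 1 9 (.cons 0x6543789120 .nil) (.node 0 7 (.cons 0x8912073456 .nil) (.node 0 3 .nil (.node 4 8 (.cons 0x7612348905 (.cons 0x5670348912 .nil)) (.leaf 0x9120376548 0 .done) .done) .done) .done) .done)) .done) .done)) .done)) .done)))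
noncomputable def tc9_2_54 : T := (.node 1 6 (.cons 0x9873456120 .nil) tc9_2_53 (.node 0 8 .nil (.node 1 6 (.cons 0x9873456120 (.cons 0x9805432167 (.cons 0x9087612345 (.cons 0x9802165437 .nil)))) .done (.node 6 9 (.cons 0x8967321054 .nil) (.node 1 6 (.cons 0x9873456120 .nil) (.node 1 5 (.cons 0x2154376980 .nil) (.node 1 7 (.cons 0x8965437120 .nil) (.leaf 0x2173456980 1 (.node 2 9 (.cons 0x6734508921 .nil) (.node 1 9 (.cons 0x6543789120 .nil) (.node 3 9 (.cons 0x7893456120 .nil) (.node 0 3 (.cons 0x8765129034 .nil) (.node 3 6 (.cons 0x9087634512 .nil) .done .done) .done) .done) (.node 2 6 (.cons 0x9805437621 .nil) (.node 3 6 (.cons 0x9087634512 .nil) (.node 4 6 (.cons 0x3764508921 .nil) .done .done) .done) .done)) .done)) (.node 1 8 (.cons 0x7345698120 .nil) (.node 1 9 (.cons 0x6543789120 .nil) (.node 1 7 (.cons 0x8965437120 .nil) (.node 1 3 (.cons 0x2134567890 .nil) (.node 1 4 (.cons 0x9873412065 .nil) .done .done) .done) .done) .done) .done)) (.node 1 7 (.cons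 0x8965437120 .nil) (.leaf 0x2173456980 1 (.node 3 6 (.cons 0x8905436712 .nil) (.node 4 6 (.cons 0x5467890123 .nil) (.node 2 6 (.cons 0x9805437621 .nil) (.node 6 8 (.cons 0x7689054321 .nil) .done .done) .done) .done) .done)) .done)) (.node 6 8 (.cons 0x7689054321 .nil) (.node 1 6 (.cons 0x9873456120 .nil) (.node 4 6 (.cons 0x5469873201 .nil) (.node 3 6 .nil (.node 5 9 (.cons 0x8954673210 (.cons 0x7364598012 (.cons 0x7364598021 .nil))) .done .done) .done) (.node 4 6 (.cons 0x5469873201 .nil) (.node 3 6 .nil (.node 5 9 (.cons 0x2167345980 (.cons 0x9546378012 (.cons 0x9546378021 .nil))) .done .done) .done) .done)) (.node 5 9 (.cons 0x4378956021 .nil) (.node 1 5 (.cons 0x6987320154 .nil) (.node 5 8 .nil (.node 1 6 (.cons 0x9873456120 (.cons 0x7854320961 (.cons 0x7612345890 .nil))) .done (.node 3 5 (.cons 0x6789012354 .nil) (.node 3 6 (.cons 0x7896320154 .nil) (.node 1 6 (.cons 0x9873456120 .nil) (.node 2 5 (.cons 0x9087612543 .nil) (.node 5 7 (.cons 0x4320698751 .nil)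 .done .done) .done) .done) .done) .done)) (.node 2 4 (.cons 0x1243789560 .nil) (.leaf 0x8069512437 0 (.node 0 4 (.cons 0x9687320451 .nil) (.node 4 7 (.cons 0x3209687451 .nil) (.node 4 9 (.cons 0x1549687320 .nil) (.node 0 3 (.cons 0x8945673012 .nil) (.node 0 7 (.cons 0x8670945123 .nil) .done .done) .done) .done) .done) (.leaf 0x873421596 1 .done))) .done)) (.node 2 9 (.cons 0x6734508921 .nil) (.node 2 4 (.cons 0x3789654201 .nil) (.node 2 6 (.cons 0x9805437621 .nil) (.node 2 5 .nil (.node 1 4 (.cons 0x9867321450 (.cons 0x8769014523 (.cons 0x8967325410 (.cons 0x6987325410 (.cons 0x5206987341 .nil))))) .done .done) .done) (.node 2 6 (.cons 0x9805437621 .nil) (.node 2 5 .nil (.node 1 6 (.cons 0x9873456120 (.cons 0x9087612543 (.cons 0x7345208961 .nil))) .done .done) .done) .done)) (.node 7 9 .nil (.node 1 6 (.cons 0x9873456120 (.cons 0x8976123450 (.cons 0x8790216543 (.cons 0x8973456120 .nil)))) .done (.node 2 8 .nil (.node 1 3 (.cons 0x2134567890 (.cons 0x7820965431 (.cons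 0x7654312890 (.cons 0x7650982134 .nil)))) (.node 2 4 (.cons 0x9654287310 .nil) (.leaf 0x8973124506 0 (.leaf 0x5690137824 0 .done)) .done) (.node 3 6 (.cons 0x1289763450 .nil) (.leaf 0x2897634501 1 (.node 2 6 (.cons 0x9805437621 .nil) (.node 1 6 (.cons 0x9873456120 .nil) (.node 4 6 (.cons 0x5469873201 .nil) .done .done) .done) .done)) .done)) .done)) .done)) .done)) .done)) (.node 0 4 (.cons 0x3789654021 .nil) (.node 0 3 (.cons 0x4569873021 .nil) (.node 0 7 .nil (.node 1 8 (.cons 0x5409678123 (.cons 0x4507698123 (.cons 0x6981237054 .nil))) (.node 1 3 (.cons 0x4569873120 (.cons 0x8907654312 .nil)) (.node 1 6 (.cons 0x9873456120 (.cons 0x9870216543 (.cons 0x8907612345 .nil))) .done (.leaf 0x7896543120 0 .done)) .done) .done) .done) (.node 0 3 (.cons 0x4569873021 .nil) (.node 0 7 .nil (.node 1 3 (.cons 0x4569873120 (.cons 0x8907654312 .nil)) (.leaf 0x7896543120 0 (.node 1 8 (.cons 0x9034567812 (.cons 0x4507698123 (.cons 0x6981237054 .nil))) .done .done)) .done) .done)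 .done)) .done))) (.node 6 8 (.cons 0x7689054321 .nil) (.node 1 6 (.cons 0x9873456120 .nil) (.node 1 7 (.cons 0x9867123450 .nil) (.node 0 3 .nil (.node 4 9 (.cons 0x7689450123 (.cons 0x8945673012 (.cons 0x6549873012 (.cons 0x5034986712 .nil)))) (.node 2 5 (.cons 0x1768943250 (.cons 0x6789452301 (.cons 0x9430256871 .nil))) (.leaf 0x4523016789 1 .done) .done) (.node 0 4 (.cons 0x9867123405 .nil) (.node 0 7 (.cons 0x9867054321 .nil) .done .done) .done)) (.node 0 7 (.cons 0x9867054321 .nil) (.node 0 3 .nil (.node 4 7 (.cons 0x9867450123 .nil) (.node 4 6 (.cons 0x5467890123 .nil) (.node 5 8 (.cons 0x9854673210 (.cons 0x7645890321 .nil)) (.leaf 0x985467123 0 .done) .done) .done) .done) .done) .done)) (.node 0 3 .nil (.node 6 9 (.cons 0x8967321054 (.cons 0x4569873021 .nil)) (.node 4 9 (.cons 0x5498016732 (.cons 0x8945673012 (.cons 0x6549873012 .nil))) (.node 2 5 (.cons 0x8943760521 (.cons 0x6789452103 (.cons 0x8945216730 .nil))) (.leaf 0x125498673 0 .done) .done) .done)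 (.node 0 7 (.cons 0x9867054321 .nil) (.node 0 4 .nil (.node 1 9 (.cons 0x6543789120 (.cons 0x5604378912 (.cons 0x7689123405 .nil))) (.node 2 5 (.cons 0x2543761980 (.cons 0x5219876043 (.cons 0x9804523761 .nil))) (.leaf 0x4052198673 0 .done) .done) .done) .done) .done)) .done)) (.node 6 9 (.cons 0x8967321054 .nil) (.node 1 7 (.cons 0x8965437120 .nil) (.node 1 6 (.cons 0x9873456120 .nil) (.node 1 5 (.cons 0x8096715432 .nil) (.node 2 8 (.cons 0x5432809671 .nil) (.node 5 8 (.cons 0x4589673210 .nil) .done (.leaf 0x9082345176 0 .done)) .done) .done) (.leaf 0x9654371208 0 (.node 0 7 (.cons 0x8965437021 .nil) (.node 0 3 .nil (.node 2 4 (.cons 0x5423769801 (.cons 0x9876542103 (.cons 0x5421768903 .nil))) (.node 1 9 (.cons 0x6543789120 (.cons 0x9124568730 .nil)) (.leaf 0x8654219037 0 .done) .done) .done) .done) .done))) (.node 0 3 .nil (.node 4 9 (.cons 0x1237689450 (.cons 0x8945673012 (.cons 0x6549873012 .nil))) (.node 2 6 (.cons 0x8945012673 (.cons 0x5498762103 .nil)) (.node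 1 9 (.cons 0x6543789120 (.cons 0x7302198654 (.cons 0x5491268730 .nil))) (.leaf 0x2687305491 0 .done) (.node 3 8 (.cons 0x5498376210 .nil) (.leaf 0x9450126738 0 (.leaf 0x7389450126 1 .done)) .done)) .done) (.node 0 4 .nil (.node 1 5 (.cons 0x6987320154 (.cons 0x9876043215 (.cons 0x9687320451 (.cons 0x9873406512 .nil)))) .done (.node 0 7 .nil (.node 1 6 (.cons 0x9873456120 (.cons 0x5432078961 (.cons 0x8907612345 .nil))) (.node 1 5 (.cons 0x9087615432 (.cons 0x6987023451 (.cons 0x8709615432 .nil))) .done .done) .done) .done)) .done)) .done)) .done)) .done))) (.node 0 4 .nil (.node 6 9 (.cons 0x8967321054 (.cons 0x8967321045 (.cons 0x5698734021 (.cons 0x3789654021 .nil)))) .done (.node 4 6 (.cons 0x5467890123 .nil) (.node 2 4 .nil (.node 1 9 (.cons 0x6543789120 (.cons 0x8910673245 (.cons 0x3789106542 (.cons 0x8912437650 .nil)))) (.node 0 8 (.cons 0x6734508912 (.cons 0x9805673421 .nil)) (.node 6 9 (.cons 0x8967321054 (.cons 0x5421089673 (.cons 0x5089673421 (.cons 0x3769805421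 .nil)))) .done .done) .done) (.node 0 8 (.cons 0x9801245673 .nil) (.node 0 3 .nil (.node 6 8 (.cons 0x7689054321 .nil) (.node 1 4 (.cons 0x9867321450 (.cons 0x9867305412 .nil)) (.node 1 9 (.cons 0x6543789120 (.cons 0x7302198654 (.cons 0x7891203465 (.cons 0x5421986730 .nil)))) .done .done) .done) .done) (.node 0 7 .nil (.node 1 8 (.cons 0x9810673245 (.cons 0x9812345076 (.cons 0x5670981243 .nil))) (.node 2 6 (.cons 0x9805437621 (.cons 0x9078126543 (.cons 0x9812650734 .nil))) (.leaf 0x8126543709 0 .done) .done) (.node 0 3 .nil (.node 1 5 (.cons 0x8907651243 (.cons 0x9870346512 .nil)) (.node 6 9 (.cons 0x7896023451 (.cons 0x7698034512 (.cons 0x7896512034 (.cons 0x4569873021 .nil)))) .done (.node 2 9 (.cons 0x6734508921 (.cons 0x8765129034 (.cons 0x9215467803 .nil))) .done .done)) .done) .done)) .done)) .done)) (.node 2 4 .nil (.node 0 3 (.cons 0x5678903421 .nil) (.node 6 9 (.cons 0x8967321054 (.cons 0x4569873021 .nil)) (.leaf 0x8730124569 0 .done) .done) (.node 0 3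 (.cons 0x9876542103 .nil) (.node 0 8 (.cons 0x9801237645 .nil) (.node 0 7 .nil (.node 1 8 (.cons 0x9812430567 (.cons 0x9812345076 (.cons 0x9812073465 .nil))) (.node 2 5 (.cons 0x4309876521 .nil) (.leaf 0x4652189073 0 (.leaf 0x8125643709 0 .done)) .done) .done) .done) .done) .done)) .done)) (.node 0 8 .nil (.node 1 6 (.cons 0x9873456120 (.cons 0x9805432167 (.cons 0x9087612345 (.cons 0x9802165437 .nil)))) (.node 6 9 (.cons 0x8967321054 (.cons 0x7345698021 (.cons 0x4508967321 .nil))) .done .done) (.node 6 8 (.cons 0x7689054321 .nil) (.node 0 7 (.cons 0x9867054321 .nil) (.node 4 7 (.cons 0x9867450123 .nil) (.node 0 3 .nil (.node 4 9 (.cons 0x7689450123 (.cons 0x8945673012 (.cons 0x6549873012 .nil))) .done .done) .done) .done) (.node 2 8 .nil (.node 6 9 (.cons 0x8967321054 (.cons 0x5401289673 (.cons 0x5043769821 .nil))) .done (.node 6 9 (.cons 0x8967321054 .nil) (.node 0 7 (.cons 0x8965437021 .nil) (.node 0 3 .nil (.node 5 7 (.cons 0x4375698021 (.cons 0x4576982301 (.cons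 0x3045769821 .nil))) .done .done) .done) (.node 0 7 .nil (.node 1 4 (.cons 0x5698734120 (.cons 0x9867054123 (.cons 0x9865412073 (.cons 0x8965073412 .nil)))) (.node 1 5 (.cons 0x4378965120 (.cons 0x8967051234 (.cons 0x9607823415 .nil))) .done .done) (.node 0 3 .nil (.node 1 9 (.cons 0x6543789120 (.cons 0x5403768912 (.cons 0x5691287034 (.cons 0x4503768912 .nil)))) .done .done) .done)) .done)) .done)) .done)) .done)) .done))) .done)))
noncomputable def uc9_2_8 : T := (.node 0 6 (.cons 0x9873456021 .nil) tc9_2_54 (.node 1 6 (.cons 0x5432167890 .nil) tc9_2_52 (.node 1 7 (.cons 0x8905432176 .nil) (.node 0 3 (.cons 0x9871203456 .nil) (.node 1 3 (.cons 0x2134567890 .nil) (.node 0 6 (.cons 0x9871206543 .nil) (.node 1 6 (.cons 0x5432167890 .nil) (.node 1 5 (.cons 0x6512098734 .nil) (.node 1 4 (.cons 0x8905673412 .nil) (.node 1 8 (.cons 0x9034567812 .nil) (.node 1 9 (.cons 0x8765430912 .nil) .done .done) .done) .done) .done) (.node 0 7 (.cons 0x8907654312 .nil) (.node 0 4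 .nil (.node 0 8 (.cons 0x9805432176 .nil) (.node 2 9 (.cons 0x8765430921 (.cons 0x5671298043 (.cons 0x8921765043 (.cons 0x8923176045 .nil)))) .done .done) .done) .done) .done)) (.node 1 5 (.cons 0x6512098734 .nil) (.node 1 6 (.cons 0x5432167890 .nil) (.node 1 4 (.cons 0x8905673412 .nil) (.node 1 8 (.cons 0x9034567812 .nil) (.node 1 9 (.cons 0x8765430912 .nil) .done .done) .done) (.node 1 8 (.cons 0x9034567812 .nil) (.node 1 4 (.cons 0x8905673412 .nil) (.node 1 9 (.cons 0x8765430912 .nil) .done .done) .done) .done)) .done) .done)) (.node 0 6 (.cons 0x9871206543 .nil) (.node 1 6 (.cons 0x5432167890 .nil) (.node 0 7 (.cons 0x8907612345 .nil) (.node 0 4 .nil (.node 5 8 (.cons 0x7612345890 (.cons 0x9856120437 (.cons 0x7340985612 (.cons 0x9856173402 .nil)))) (.node 3 9 (.cons 0x6543987120 (.cons 0x6712398540 (.cons 0x9321785406 .nil))) .done .done) .done) .done) (.node 1 8 (.cons 0x4376509812 .nil) (.node 1 5 (.cons 0x6512098734 .nil) (.node 1 3 (.cons 0x2134567890 .nil)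 (.node 1 4 (.cons 0x8905673412 .nil) (.node 1 9 (.cons 0x8760912345 .nil) .done .done) .done) .done) (.node 0 8 (.cons 0x9805432176 .nil) (.node 0 4 .nil (.node 2 9 (.cons 0x6543029871 (.cons 0x5671298043 (.cons 0x8921765043 .nil))) (.leaf 0x7892034561 0 .done) (.node 0 7 .nil (.node 3 6 (.cons 0x7634509812 (.cons 0x5436709812 .nil)) (.node 2 5 (.cons 0x5216789043 .nil) (.node 3 9 (.cons 0x6543987120 (.cons 0x4398076521 (.cons 0x4563987012 .nil))) .done (.leaf 0x4521890763 1 (.leaf 0x1890763452 0 .done))) .done) .done) .done)) .done) .done)) .done)) (.node 0 8 (.cons 0x9805432176 .nil) (.node 1 6 (.cons 0x5432167890 .nil) (.node 1 5 (.cons 0x6512098734 .nil) (.node 1 3 (.cons 0x2134567890 .nil) (.node 3 6 (.cons 0x9805436712 .nil) (.node 0 4 (.cons 0x9876321045 .nil) (.node 0 7 (.cons 0x8907654312 .nil) .done .done) .done) .done) .done) (.node 6 9 (.cons 0x3456987120 .nil) (.node 0 7 (.cons 0x8961702345 .nil) (.node 0 4 .nil (.node 5 8 (.cons 0x7169854320 (.cons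 0x9856120437 (.cons 0x7340985612 (.cons 0x9856173402 (.cons 0x7169854023 .nil))))) .done .done) .done) (.leaf 0x7896543021 0 .done)) .done)) .done) .done)) .done)) (.node 1 5 (.cons 0x6512098734 .nil) (.node 1 6 (.cons 0x5432167890 .nil) (.node 1 3 (.cons 0x2134567890 .nil) (.node 1 4 (.cons 0x8905673412 .nil) (.node 1 8 (.cons 0x4376509812 .nil) (.node 1 9 .nil (.node 0 6 (.cons 0x7890654312 (.cons 0x8760912345 (.cons 0x2345198760 .nil))) (.node 2 7 (.cons 0x6543127890 .nil) (.leaf 0x3127890654 0 (.leaf 0x9872134560 0 .done)) .done) .done) .done) .done) .done) (.node 1 3 (.cons 0x2134567890 .nil) (.node 3 9 (.cons 0x8712093456 .nil) (.node 6 8 (.cons 0x2178654390 .nil) (.node 3 8 (.cons 0x9021783456 .nil) (.node 1 9 (.cons 0x7689123450 .nil) (.node 1 4 (.cons 0x8905673412 .nil) (.node 1 8 (.cons 0x4376509812 .nil) .done .done) .done) .done) (.leaf 0x4568712093 0 (.leaf 0x1786543902 0 .done))) (.node 6 8 (.cons 0x7689054321 .nil) (.node 3 8 (.cons 0x9021783456 .nil)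 (.node 1 8 (.cons 0x4376509812 .nil) (.node 1 4 (.cons 0x8905673412 .nil) (.node 1 9 (.cons 0x7689123450 .nil) .done .done) .done) .done) (.node 0 6 (.cons 0x4510678932 .nil) (.node 0 3 .nil (.node 2 9 (.cons 0x7689230154 .nil) (.leaf 0x4568712903 0 (.leaf 0x3451298760 1 (.leaf 0x5687129034 1 .done))) .done) .done) (.leaf 0x7865439021 1 .done))) .done)) (.node 1 8 (.cons 0x4376509812 .nil) (.node 1 4 (.cons 0x8905673412 .nil) (.node 1 9 .nil (.node 0 6 (.cons 0x7890654312 (.cons 0x8760912345 (.cons 0x2345198760 .nil))) .done .done) .done) .done) .done)) .done)) (.node 1 3 (.cons 0x2134567890 .nil) (.node 1 6 (.cons 0x5432167890 .nil) (.node 1 4 (.cons 0x8905673412 .nil) (.node 1 8 (.cons 0x4376509812 .nil) (.node 1 9 .nil (.node 3 8 (.cons 0x9021783456 (.cons 0x6543871902 .nil)) (.node 4 8 (.cons 0x7348902165 (.cons 0x2198437650 .nil)) (.leaf 0x3765021984 1 .done) .done) .done) .done) .done) (.node 1 8 (.cons 0x4376509812 .nil) (.node 1 4 (.cons 0x8905673412 .nil)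 (.node 1 9 .nil (.node 0 6 (.cons 0x4378906512 (.cons 0x8760912345 (.cons 0x7891345602 .nil))) .done .done) .done) .done) .done)) (.node 1 6 (.cons 0x5432167890 .nil) (.node 1 4 (.cons 0x8905673412 .nil) (.node 1 8 (.cons 0x4376509812 .nil) (.node 1 9 .nil (.node 0 3 (.cons 0x8765430912 (.cons 0x7891654302 .nil)) (.node 5 9 (.cons 0x4598761032 (.cons 0x4598761230 .nil)) .done .done) .done) .done) .done) (.node 0 6 (.cons 0x4378906512 .nil) (.node 1 9 (.cons 0x8760912345 .nil) (.node 1 4 (.cons 0x8905673412 .nil) (.node 1 8 (.cons 0x4376509812 .nil) .done .done) .done) (.node 0 7 (.cons 0x8907654312 .nil) (.node 6 8 (.cons 0x7689054321 .nil) (.node 1 8 (.cons 0x4376509812 .nil) (.node 1 9 (.cons 0x7689123450 .nil) .done .done) (.node 3 9 (.cons 0x4517860932 .nil) (.leaf 0x1786543902 0 (.leaf 0x7865439021 1 .done)) .done)) .done) .done)) .done)) .done)) .done)) (.node 2 4 (.cons 0x8905673421 .nil) tc9_2_51 .done))) (.node 3 5 (.cons 0x6789012354 .nil) tc9_2_50 .done))))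
theorem sub_c9_2_8 : root 9 refs9_2 [] 0x700000008706000000006050000000050300000000304000600004010000000010300000000302500000002018000600510 0xfe7fff3fff9fffd7ffa7ffedfff5ffd3fff9fe9d 9 3 7 (.cons 0x6543789021 .nil) uc9_2_8 = true := by decide +kernel
noncomputable def tc9_2_55 : T := (.node 1 6 (.cons 0x5432167890 .nil) (.node 0 3 .nil (.node 5 9 (.cons 0x8761234590 (.cons 0x7861230954 (.cons 0x8761230954 .nil))) (.node 1 4 (.cons 0x7689054123 (.cons 0x7689032145 (.cons 0x7861459032 .nil))) (.node 1 7 (.cons 0x4509867123 (.cons 0x9867123054 .nil)) (.node 1 8 (.cons 0x2346718950 .nil) (.leaf 0x3467189502 1 (.leaf 0x4320598176 0 .done)) .done) .done) .done) (.node 0 8 (.cons 0x9087612345 .nil) (.node 0 7 .nil (.node 5 9 (.cons 0x8761234590 (.cons 0x6459870123 (.cons 0x6459870321 .nil))) (.node 1 8 (.cons 0x9546781023 (.cons 0x9812345076 (.cons 0x6187095432 .nil))) (.node 1 9 (.cons 0x8764591023 (.cons 0x7032198645 (.cons 0x3207864591 (.cons 0x5643078912 .nil))))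 .done .done) .done) (.node 0 4 .nil (.node 3 5 (.cons 0x9876453210 .nil) (.leaf 0x2167890453 1 (.node 7 9 (.cons 0x7986450321 .nil) (.leaf 0x8790453216 1 (.node 1 5 (.cons 0x2346798051 (.cons 0x9786154032 .nil)) (.node 2 5 (.cons 0x4523097861 (.cons 0x9780432516 (.cons 0x9780461523 .nil))) .done .done) (.leaf 0x453216879 0 .done))) (.leaf 0x4098761235 0 .done))) .done) .done)) (.node 0 4 .nil (.node 3 5 (.cons 0x9876453210 .nil) (.leaf 0x2167890453 1 (.node 2 8 (.cons 0x9034561287 (.cons 0x9043567821 .nil)) (.node 3 9 (.cons 0x5467893210 (.cons 0x7654012893 (.cons 0x7650439821 (.cons 0x9328761045 .nil)))) .done (.node 7 9 (.cons 0x3456128790 (.cons 0x6534097821 .nil)) (.node 3 6 (.cons 0x5436128790 (.cons 0x7904536821 (.cons 0x9782104635 .nil))) .done (.leaf 0x4097821653 0 (.leaf 0x2879043561 0 .done))) .done)) (.leaf 0x4098761235 0 .done))) .done) .done)) (.node 1 5 (.cons 0x4309876512 .nil) (.node 0 7 .nil (.node 1 3 (.cons 0x2134567890 (.cons 0x8907654312 .nil))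 (.node 2 4 (.cons 0x9876512430 (.cons 0x7098654213 (.cons 0x9870342156 .nil))) .done .done) (.node 0 8 (.cons 0x9087612345 .nil) (.node 0 4 .nil (.node 1 7 (.cons 0x4509867123 .nil) (.node 3 9 (.cons 0x5467893210 (.cons 0x7689321540 (.cons 0x7123986405 (.cons 0x4051768932 .nil)))) .done .done) .done) .done) .done)) (.node 0 7 (.cons 0x9870346512 .nil) (.node 0 8 (.cons 0x9087612345 .nil) (.node 0 4 .nil (.node 2 7 (.cons 0x9872156430 (.cons 0x6512789043 (.cons 0x9872156403 .nil))) (.node 3 7 (.cons 0x4509867321 (.cons 0x9045123786 (.cons 0x9045168732 .nil))) .done .done) .done) .done) .done) .done)) .done))) (.node 0 7 (.cons 0x8907612345 .nil) (.node 0 3 .nil (.node 1 9 (.cons 0x8912346705 (.cons 0x5643078912 .nil)) (.node 2 4 (.cons 0x5678912430 .nil) (.leaf 0x1987650342 0 (.node 5 8 (.cons 0x7643219850 (.cons 0x7658912430 (.cons 0x9120346587 (.cons 0x7642301985 .nil)))) .done (.node 5 7 (.cons 0x8912346750 (.cons 0x6578912430 (.cons 0x7542309861 (.cons 0x8903216754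 .nil)))) (.leaf 0x1032465789 0 .done) .done))) (.node 5 9 (.cons 0x8950764321 (.cons 0x7864591203 (.cons 0x8764591203 .nil))) (.node 7 9 (.cons 0x8976450123 (.cons 0x8976450321 .nil)) .done .done) .done)) (.node 2 6 (.cons 0x7890345621 .nil) (.node 6 9 .nil (.node 1 5 (.cons 0x9870346512 (.cons 0x4307896512 (.cons 0x7869032154 (.cons 0x5123469870 .nil)))) .done .done) .done) .done)) (.node 6 9 .nil (.node 3 5 (.cons 0x9876453210 (.cons 0x8769012354 (.cons 0x7896453210 .nil))) (.leaf 0x9870123546 0 (.node 1 4 (.cons 0x6789014532 (.cons 0x8769014532 (.cons 0x7869023541 .nil))) (.node 1 8 (.cons 0x9021876543 (.cons 0x7698123450 (.cons 0x7812096543 (.cons 0x5341876902 .nil)))) .done .done) .done)) (.node 2 6 .nil (.node 1 8 (.cons 0x9021876543 (.cons 0x9812670543 (.cons 0x7621890543 .nil))) (.node 3 6 (.cons 0x9078126345 .nil) .done (.node 3 5 (.cons 0x9876453210 (.cons 0x9812670534 (.cons 0x9870126453 (.cons 0x4532678901 .nil)))) (.node 0 4 (.cons 0x9043567812 (.cons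 0x9043562187 .nil)) .done .done) .done)) .done) .done)) .done)) (.node 6 9 .nil (.node 1 8 (.cons 0x9021876543 (.cons 0x7698123450 (.cons 0x7812096543 .nil))) (.node 1 7 (.cons 0x4509867123 (.cons 0x8967123450 .nil)) (.node 0 8 (.cons 0x3456908712 .nil) (.leaf 0x7123456908 0 (.leaf 0x3217698054 0 .done)) .done) .done) (.node 2 6 .nil (.node 1 8 (.cons 0x9021876543 (.cons 0x7621890543 .nil)) (.node 0 7 (.cons 0x5432189670 (.cons 0x9812670543 .nil)) (.node 3 9 (.cons 0x5467893210 (.cons 0x7056218934 (.cons 0x7623981054 .nil))) (.leaf 0x6781209345 0 .done) .done) (.node 1 9 (.cons 0x7819062345 .nil) (.node 1 5 (.cons 0x2345198760 (.cons 0x8760915432 .nil)) .done (.node 3 7 (.cons 0x4509867321 (.cons 0x8912673450 (.cons 0x5437819062 (.cons 0x9026543781 .nil)))) (.leaf 0x981267345 0 .done) .done)) .done)) .done) .done)) .done))) (.node 0 3 .nil (.node 5 9 (.cons 0x8764590123 (.cons 0x7864590321 (.cons 0x8764590321 .nil))) (.node 1 4 (.cons 0x7689054123 (.cons 0x6789541032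 (.cons 0x7689032145 .nil))) (.node 1 8 (.cons 0x9021876543 (.cons 0x9546781032 .nil)) (.node 2 7 (.cons 0x6590278143 (.cons 0x9812765034 (.cons 0x5903278641 (.cons 0x3095641872 .nil)))) .done (.node 2 6 (.cons 0x3459026781 (.cons 0x4598762301 (.cons 0x7621890345 (.cons 0x7890341265 .nil)))) .done .done)) (.node 1 7 (.cons 0x4509867123 (.cons 0x9867123054 .nil)) (.node 4 9 (.cons 0x8671230945 (.cons 0x3094568712 .nil)) (.leaf 0x2176894503 1 .done) (.node 2 4 (.cons 0x8905671243 (.cons 0x6789542301 (.cons 0x8903421765 (.cons 0x5903246871 .nil)))) .done .done)) .done)) .done) (.node 0 4 .nil (.node 1 3 (.cons 0x2134567890 (.cons 0x5678904312 .nil)) (.node 2 7 (.cons 0x6543098721 (.cons 0x9872130456 .nil)) (.node 2 5 (.cons 0x9876013254 (.cons 0x9876045231 .nil)) (.node 0 7 (.cons 0x9870431256 .nil) (.node 2 8 (.cons 0x9821345076 (.cons 0x9821340567 .nil)) .done .done) .done) (.node 5 9 (.cons 0x7864590321 (.cons 0x6598721340 (.cons 0x4059867231 (.cons 0x6598721304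 .nil)))) .done .done)) (.node 1 5 (.cons 0x9032154687 .nil) (.node 3 5 (.cons 0x6789012354 .nil) (.node 3 9 (.cons 0x8765439021 (.cons 0x7689321540 (.cons 0x2156789340 .nil))) .done .done) (.node 2 9 (.cons 0x8765431290 (.cons 0x7865409213 (.cons 0x8765409213 .nil))) (.node 3 7 (.cons 0x4509867321 (.cons 0x7304568921 (.cons 0x9046873215 .nil))) (.node 3 9 (.cons 0x7864512390 (.cons 0x7864093215 .nil)) .done .done) (.node 3 5 (.cons 0x6789012354 (.cons 0x1298765340 (.cons 0x7864092351 .nil))) .done .done)) .done)) (.node 2 7 (.cons 0x6543098721 (.cons 0x9865403127 (.cons 0x8904312765 (.cons 0x8904567213 .nil)))) .done .done))) (.node 0 7 .nil (.node 1 6 (.cons 0x5432167890 (.cons 0x9870345612 (.cons 0x8907612345 .nil))) (.node 2 6 (.cons 0x7890345621 (.cons 0x9870345621 .nil)) (.node 2 4 (.cons 0x7890342165 (.cons 0x9870342165 .nil)) (.node 3 6 (.cons 0x7890124563 (.cons 0x9870124563 .nil)) .done .done) .done) .done) (.node 0 8 .nil (.node 2 7 (.cons 0x6543098721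 .nil) (.node 3 9 (.cons 0x8765439021 (.cons 0x1276543980 (.cons 0x4398056721 .nil))) (.node 1 9 (.cons 0x4568720391 (.cons 0x3456721980 (.cons 0x9127803465 (.cons 0x6721980543 .nil)))) (.node 3 7 (.cons 0x5468732190 (.cons 0x6543780912 .nil)) .done .done) .done) (.node 1 6 (.cons 0x5432167890 (.cons 0x9805432167 .nil)) (.node 1 3 (.cons 0x2134567890 (.cons 0x9087654312 .nil)) (.node 7 9 (.cons 0x5468790321 (.cons 0x6798054312 (.cons 0x4561308972 .nil))) .done (.node 4 7 (.cons 0x8905674312 (.cons 0x9805674312 .nil)) (.node 4 9 (.cons 0x8721309465 (.cons 0x5649087213 .nil)) (.leaf 0x6721349805 1 .done) .done) .done)) (.node 1 3 (.cons 0x2134567890 (.cons 0x9087654312 .nil)) (.node 6 9 (.cons 0x4569872130 (.cons 0x5408967213 .nil)) .done (.node 2 5 (.cons 0x7689045213 (.cons 0x9807652134 .nil)) (.node 7 9 (.cons 0x5468790321 (.cons 0x7908645213 (.cons 0x7908645231 .nil))) .done .done) .done)) .done)) .done)) .done) .done)) .done)) (.node 0 7 .nil (.node 3 9 (.cons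 0x8765439021 (.cons 0x5468709321 .nil)) (.node 1 5 (.cons 0x4309876512 (.cons 0x4512398670 (.cons 0x8670932154 (.cons 0x9078645123 .nil)))) .done (.node 1 8 (.cons 0x2093456781 (.cons 0x9812345076 .nil)) (.leaf 0x5439021876 0 (.node 1 6 (.cons 0x5432167890 (.cons 0x8907612345 .nil)) (.node 1 5 (.cons 0x4309876512 (.cons 0x2390786451 .nil)) (.node 2 4 (.cons 0x5423987610 (.cons 0x8670932451 (.cons 0x9324516870 .nil))) (.leaf 0x6709324518 0 .done) .done) .done) (.leaf 0x4390218765 1 .done))) .done)) (.node 0 8 .nil (.node 1 7 (.cons 0x4509867123 (.cons 0x9805432176 .nil)) (.node 6 9 (.cons 0x8096712345 .nil) (.leaf 0x7123456908 0 (.node 1 5 (.cons 0x4309876512 (.cons 0x7698051234 (.cons 0x7809643215 .nil))) .done .done)) (.node 1 6 (.cons 0x5432167890 (.cons 0x9805432167 .nil)) (.node 2 5 (.cons 0x4309876521 (.cons 0x9807612543 (.cons 0x9087125643 .nil))) (.node 3 9 (.cons 0x8765439021 (.cons 0x5643908712 .nil)) (.leaf 0x1256439087 1 (.node 1 4 (.cons 0x5678903412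 (.cons 0x7614523980 (.cons 0x3908714652 .nil))) (.leaf 0x932541678 0 .done) .done)) .done) .done) .done)) (.node 0 4 .nil (.node 3 6 (.cons 0x9876321045 .nil) (.node 2 4 (.cons 0x7890124563 .nil) (.node 1 8 (.cons 0x9021876543 (.cons 0x9812436705 (.cons 0x7634509812 .nil))) (.node 4 7 (.cons 0x9810547632 .nil) .done .done) (.node 5 8 (.cons 0x7658903421 (.cons 0x9854210763 (.cons 0x7632458901 .nil))) .done .done)) (.node 5 8 (.cons 0x7632109854 (.cons 0x9854012367 .nil)) (.node 3 8 (.cons 0x9012387645 .nil) (.node 2 9 (.cons 0x6705438921 (.cons 0x7654012983 (.cons 0x7650438921 (.cons 0x5407638921 .nil)))) (.node 1 7 (.cons 0x9206543871 (.cons 0x9854017632 (.cons 0x9834056712 .nil))) (.leaf 0x3892170456 1 .done) .done) .done) .done) .done)) .done) .done)) .done)) .done))) (.node 6 9 .nil (.node 1 8 (.cons 0x9021876543 (.cons 0x7698123450 (.cons 0x7812096543 .nil))) (.node 3 5 (.cons 0x9021876534 (.cons 0x8769012354 (.cons 0x7812096534 .nil))) (.node 4 7 (.cons 0x3476509812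 (.cons 0x8967450123 (.cons 0x8123476905 (.cons 0x2189674350 (.cons 0x4769810532 .nil))))) .done (.node 1 4 (.cons 0x6789014532 (.cons 0x8769014532 (.cons 0x7869023541 (.cons 0x5341876902 .nil)))) (.node 5 9 (.cons 0x7814320695 (.cons 0x4187695320 .nil)) .done .done) .done)) (.node 1 7 (.cons 0x4509867123 (.cons 0x8967123450 .nil)) (.node 0 8 (.cons 0x3456908712 .nil) (.leaf 0x7123456908 0 (.leaf 0x3217698054 0 .done)) (.node 4 8 (.cons 0x3489056712 (.cons 0x7698450123 (.cons 0x5690217843 .nil))) (.node 1 5 (.cons 0x6715098432 (.cons 0x2348967150 (.cons 0x3487156902 .nil))) (.node 2 4 (.cons 0x9051768423 (.cons 0x5017698423 (.cons 0x7150968423 .nil))) .done .done) .done) .done)) .done)) (.node 1 6 (.cons 0x5432167890 .nil) (.node 2 6 .nil (.node 1 5 (.cons 0x7890623451 .nil) (.node 2 4 (.cons 0x9876015423 .nil) (.node 3 7 (.cons 0x4509867321 (.cons 0x5106987324 (.cons 0x8734215690 (.cons 0x6512437890 (.cons 0x8734209651 .nil))))) .done .done) (.node 1 8 (.cons 0x9067815432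 (.cons 0x9062345187 (.cons 0x7621890543 .nil))) (.node 1 7 (.cons 0x4509867123 .nil) (.node 0 3 (.cons 0x7890345621 .nil) (.node 7 9 (.cons 0x8976123450 (.cons 0x8150976234 (.cons 0x8976123054 .nil))) .done (.leaf 0x9871265430 0 .done)) .done) .done) .done)) .done) (.node 3 6 .nil (.node 2 4 (.cons 0x7890124563 .nil) (.node 0 3 (.cons 0x5678903421 .nil) (.node 1 7 (.cons 0x6543098712 (.cons 0x5698712430 (.cons 0x8905671243 (.cons 0x8905436712 .nil)))) .done .done) (.node 2 6 .nil (.node 1 5 (.cons 0x9876015423 (.cons 0x7890623451 .nil)) (.node 0 3 (.cons 0x9876542103 (.cons 0x7890345621 .nil)) (.node 4 9 (.cons 0x2156789430 (.cons 0x7894510632 (.cons 0x2367894510 (.cons 0x5126789430 .nil)))) .done .done) .done) .done) .done)) (.node 2 6 .nil (.node 1 3 (.cons 0x2134567890 .nil) (.node 0 7 (.cons 0x8907654312 (.cons 0x8907621345 .nil)) (.node 1 5 (.cons 0x8907643215 (.cons 0x7890623451 .nil)) (.node 5 8 (.cons 0x9851234670 (.cons 0x7098562134 (.cons 0x7623109854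 .nil))) .done .done) .done) (.leaf 0x4312678905 1 (.leaf 0x2678905431 0 .done))) .done) .done)) .done)) .done)) .done)))
noncomputable def tc9_2_56 : T := (.node 0 7 (.cons 0x9867054321 .nil) (.node 4 6 (.cons 0x5467890123 .nil) (.node 1 6 (.cons 0x5432167890 .nil) (.node 1 9 (.cons 0x7689123450 .nil) (.leaf 0x3219867054 0 (.node 0 3 .nil (.node 5 8 (.cons 0x5876432190 (.cons 0x7856430912 (.cons 0x7612309854 .nil))) (.node 2 7 (.cons 0x1672345890 (.cons 0x8912765034 (.cons 0x4589032761 .nil))) .done .done) (.node 0 4 (.cons 0x7689123405 .nil) (.node 0 8 .nil (.node 2 5 (.cons 0x7689125043 (.cons 0x9125643087 (.cons 0x7809125643 .nil))) (.node 2 7 (.cons 0x6543098721 (.cons 0x9127803465 .nil)) .done .done) .done) .done) .done)) (.node 0 3 .nil (.node 5 8 (.cons 0x7612345890 (.cons 0x7612309854 .nil)) (.node 2 7 (.cons 0x7234589061 (.cons 0x9856127034 (.cons 0x6458721903 .nil))) .done (.node 2 7 (.cons 0x1672345890 (.cons 0x2761985430 (.cons 0x4589032761 .nil))) .done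 .done)) (.node 3 6 .nil (.node 2 7 (.cons 0x6543098721 (.cons 0x8912763450 (.cons 0x4563098721 .nil))) .done (.node 2 6 (.cons 0x7890345621 .nil) (.node 6 9 (.cons 0x7869120345 .nil) .done .done) .done)) .done)) .done))) (.node 1 8 (.cons 0x9021876543 .nil) (.node 3 6 .nil (.node 2 4 (.cons 0x9812436507 (.cons 0x7098124365 (.cons 0x7890124563 .nil))) (.node 0 3 (.cons 0x7890342165 .nil) .done .done) (.node 6 9 (.cons 0x7812096543 .nil) (.node 0 3 (.cons 0x7812309645 .nil) (.node 2 6 (.cons 0x7890345621 .nil) .done .done) .done) .done)) (.node 3 6 (.cons 0x7634509812 .nil) (.node 3 9 (.cons 0x8765439021 .nil) (.node 0 3 .nil (.node 1 9 (.cons 0x7865439120 .nil) (.node 2 7 (.cons 0x5436721890 (.cons 0x8912765430 (.cons 0x9305468127 .nil))) .done .done) .done) (.leaf 0x218765439 0 (.leaf 0x4390218765 1 .done))) .done) .done)) .done)) (.node 1 6 (.cons 0x5432167890 .nil) (.node 1 5 (.cons 0x9867051234 .nil) (.node 1 7 (.cons 0x9867123450 .nil) (.node 3 6 (.cons 0x8905436712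 .nil) (.node 6 9 (.cons 0x8967051234 .nil) (.node 2 6 .nil (.node 0 3 (.cons 0x7890345621 .nil) (.node 2 4 (.cons 0x9876542103 (.cons 0x7896032451 .nil)) .done .done) .done) .done) .done) .done) (.node 3 6 .nil (.node 1 7 (.cons 0x9867123450 (.cons 0x8905436712 .nil)) (.node 4 9 (.cons 0x5076894321 (.cons 0x8943650712 (.cons 0x9436870215 (.cons 0x8945017632 .nil)))) .done .done) (.node 2 6 (.cons 0x7890623451 .nil) (.node 2 7 (.cons 0x4365127890 .nil) (.node 6 9 (.cons 0x1543278960 .nil) .done .done) .done) .done)) .done)) (.node 1 8 (.cons 0x9021876543 .nil) (.node 6 9 (.cons 0x7812096543 .nil) (.node 2 6 .nil (.node 0 3 (.cons 0x7890345621 .nil) (.node 2 4 (.cons 0x9876542103 (.cons 0x7890342165 .nil)) .done .done) .done) .done) (.node 2 6 (.cons 0x7621890543 .nil) (.node 2 7 (.cons 0x6721890543 .nil) (.node 3 9 (.cons 0x6721893450 .nil) (.leaf 0x8127605439 1 (.node 6 9 (.cons 0x5439602781 .nil) .done (.leaf 0x218765439 0 (.leaf 0x4390218765 1 .done)))) .done)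 .done) .done)) .done)) .done)) (.node 4 6 (.cons 0x5467890123 .nil) (.node 1 6 (.cons 0x5432167890 .nil) (.node 3 6 .nil (.node 1 8 (.cons 0x9021876543 (.cons 0x7634509812 .nil)) (.node 5 9 (.cons 0x8764590123 (.cons 0x9543687021 (.cons 0x7810954632 (.cons 0x7812364590 .nil)))) .done (.node 2 4 (.cons 0x7650981243 (.cons 0x9812436705 (.cons 0x7890124563 .nil))) (.node 5 8 (.cons 0x7612345890 (.cons 0x7098543612 (.cons 0x7632458901 (.cons 0x3670985421 .nil)))) .done .done) .done)) (.node 3 8 (.cons 0x5438907612 .nil) (.node 0 3 .nil (.node 5 8 (.cons 0x7612345890 (.cons 0x7612309854 .nil)) (.node 5 9 (.cons 0x8764590123 (.cons 0x7034598612 (.cons 0x8764590321 .nil))) .done .done) .done) (.node 6 9 .nil (.node 1 5 (.cons 0x9015467832 (.cons 0x9678320154 (.cons 0x4510967832 (.cons 0x9687021543 .nil)))) .done (.node 2 6 .nil (.node 0 3 (.cons 0x7890345621 .nil) (.node 5 8 (.cons 0x7612345890 (.cons 0x7854690321 (.cons 0x7612309854 .nil))) .done .done) .done) .done))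 .done)) .done)) (.node 1 8 (.cons 0x9021876543 .nil) (.node 3 6 .nil (.node 5 9 (.cons 0x8764590123 (.cons 0x9543687021 (.cons 0x7810954632 (.cons 0x7812364590 .nil)))) .done (.node 2 6 (.cons 0x7098126345 .nil) (.node 6 9 (.cons 0x7812096543 .nil) .done .done) .done)) (.node 3 6 (.cons 0x7634509812 .nil) (.node 3 9 (.cons 0x8765439021 .nil) (.node 2 6 (.cons 0x7054398621 .nil) (.node 6 9 (.cons 0x5439687021 .nil) .done .done) (.leaf 0x218765439 0 (.leaf 0x4390218765 1 .done))) .done) .done)) .done)) (.node 1 6 (.cons 0x5432167890 .nil) (.node 1 7 (.cons 0x9867123450 .nil) (.node 1 5 .nil (.node 2 8 (.cons 0x9823450671 (.cons 0x9061543287 (.cons 0x5128907643 .nil))) (.node 3 9 (.cons 0x8765439021 (.cons 0x2154398670 (.cons 0x7823906154 (.cons 0x4398670512 (.cons 0x4516782390 .nil))))) .done .done) (.node 3 6 .nil (.node 2 7 (.cons 0x6098723451 (.cons 0x4365127890 (.cons 0x8907215463 .nil))) .done (.node 2 6 (.cons 0x9871543260 .nil) (.node 6 9 (.cons 0x8967123450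 .nil) .done .done) .done)) .done)) (.node 0 4 (.cons 0x9867123405 .nil) (.node 3 6 (.cons 0x5634098712 .nil) (.node 0 3 .nil (.node 2 4 (.cons 0x8905671243 (.cons 0x9876542103 .nil)) .done .done) .done) .done) .done)) (.node 1 8 (.cons 0x9021876543 .nil) (.node 6 9 (.cons 0x7812096543 .nil) (.node 2 6 .nil (.node 3 6 (.cons 0x9078126345 .nil) .done .done) .done) (.node 2 6 (.cons 0x7621890543 .nil) (.node 6 9 .nil (.node 1 7 (.cons 0x9867123450 (.cons 0x8967123450 .nil)) (.node 0 8 (.cons 0x3456908712 .nil) (.leaf 0x7123456908 0 (.leaf 0x3217698054 0 .done)) .done) .done) .done) .done)) .done)) .done)) .done)) (.node 1 8 (.cons 0x9021876543 .nil) (.node 1 5 (.cons 0x7689051234 .nil) (.node 1 6 (.cons 0x5432167890 .nil) (.node 6 9 (.cons 0x7698123450 .nil) (.node 2 6 .nil (.node 1 3 (.cons 0x2134567890 .nil) (.leaf 0x4312678905 1 (.leaf 0x2678905431 0 .done)) (.node 4 6 (.cons 0x5467890123 .nil) (.node 3 6 .nil (.node 0 8 (.cons 0x7809632154 (.cons 0x9087634512 .nil))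 (.node 7 9 (.cons 0x6798123450 (.cons 0x9764321805 (.cons 0x2189763450 (.cons 0x8097615432 .nil)))) .done .done) .done) .done) .done)) .done) .done) (.node 1 6 (.cons 0x5432167890 .nil) (.node 5 9 (.cons 0x8761234590 .nil) (.node 3 9 (.cons 0x9345678120 .nil) (.node 0 7 (.cons 0x2189345670 .nil) (.leaf 0x3456702189 1 (.leaf 0x4398120765 0 .done)) (.node 3 8 (.cons 0x4590167832 .nil) (.node 0 3 .nil (.node 2 8 (.cons 0x7821654390 (.cons 0x9034561287 (.cons 0x4590328761 .nil))) .done (.node 0 7 (.cons 0x8709345612 .nil) (.node 0 4 (.cons 0x7861590432 .nil) (.node 0 8 (.cons 0x2345908761 .nil) .done .done) .done) .done)) .done) (.leaf 0x6781209345 0 .done))) (.node 6 9 (.cons 0x7698123450 .nil) (.node 4 6 (.cons 0x5467890123 .nil) (.node 3 6 .nil (.node 4 7 (.cons 0x5098674321 (.cons 0x4786321590 (.cons 0x7436890512 (.cons 0x4786320951 .nil)))) .done .done) .done) .done) .done)) (.node 6 9 (.cons 0x7698123450 .nil) (.node 5 9 (.cons 0x9543206781 .nil) (.node 2 6 (.cons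 0x7890623451 .nil) (.node 4 6 (.cons 0x7864320951 .nil) (.node 1 4 (.cons 0x3267895410 .nil) (.node 3 6 (.cons 0x7863415902 .nil) .done .done) .done) .done) .done) .done) .done)) .done)) (.node 1 5 (.cons 0x7689051234 .nil) (.node 1 6 (.cons 0x5432167890 .nil) (.node 0 8 (.cons 0x9087612345 .nil) (.node 0 7 (.cons 0x9867051234 .nil) (.node 1 7 (.cons 0x5098671234 .nil) (.node 4 7 (.cons 0x9867432150 .nil) (.node 4 6 (.cons 0x5467890123 .nil) (.node 2 7 (.cons 0x9061872345 .nil) (.node 0 3 (.cons 0x9815460327 .nil) (.node 1 4 (.cons 0x6541278903 .nil) .done .done) .done) .done) (.leaf 0x2347689051 0 (.leaf 0x8674321509 0 .done))) .done) .done) .done) (.node 6 9 (.cons 0x7812096543 .nil) (.node 4 7 (.cons 0x9867432150 .nil) (.node 4 6 (.cons 0x5467890123 .nil) (.node 1 4 .nil (.node 5 9 (.cons 0x1234768950 (.cons 0x7865902143 (.cons 0x7418695023 .nil))) .done (.node 1 9 (.cons 0x2345198760 .nil) (.node 1 3 (.cons 0x2134567890 .nil) (.node 1 7 (.cons 0x5098671234 .nil)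 .done .done) .done) .done)) .done) (.leaf 0x2347689051 0 (.node 0 7 (.cons 0x9867051234 .nil) (.node 0 3 (.cons 0x9867430512 .nil) (.node 0 4 .nil (.node 2 9 (.cons 0x3476892150 (.cons 0x8921567043 (.cons 0x6512987043 .nil))) (.leaf 0x1503476892 0 .done) .done) .done) .done) (.leaf 0x8674321509 0 .done)))) .done) .done)) (.node 1 6 (.cons 0x5432167890 .nil) (.node 0 8 (.cons 0x9805432167 .nil) (.node 0 7 .nil (.node 3 9 (.cons 0x8765439021 (.cons 0x5439807612 (.cons 0x2165439870 (.cons 0x9345618702 .nil)))) (.leaf 0x6120789345 0 .done) (.node 1 7 (.cons 0x5098671234 .nil) (.node 1 4 .nil (.node 3 5 (.cons 0x4350986712 (.cons 0x9876014532 (.cons 0x9021435687 (.cons 0x6789014532 .nil)))) .done (.node 1 3 (.cons 0x2134567890 .nil) (.node 1 9 (.cons 0x8760915432 .nil) .done .done) .done)) .done) .done)) .done) (.node 6 9 (.cons 0x7812096543 .nil) (.node 2 6 (.cons 0x9062345187 .nil) (.node 4 6 (.cons 0x5467890123 .nil) (.node 3 6 .nil (.node 0 7 (.cons 0x5469078123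 (.cons 0x9812634507 .nil)) (.node 7 9 (.cons 0x9781543260 (.cons 0x7981263450 .nil)) (.leaf 0x3621897054 0 .done) .done) .done) .done) .done) .done) .done)) .done)) (.node 3 9 (.cons 0x8765439021 .nil) (.node 3 6 (.cons 0x7634509812 .nil) (.node 0 8 .nil (.node 1 7 (.cons 0x5098671234 (.cons 0x2176543980 (.cons 0x8093456712 .nil))) (.node 2 4 (.cons 0x8905671243 (.cons 0x5671243980 (.cons 0x9805634217 .nil))) (.node 7 9 (.cons 0x2189763450 (.cons 0x5421089763 (.cons 0x5423679801 (.cons 0x4508976321 .nil)))) .done .done) .done) (.node 0 4 (.cons 0x9876321045 .nil) (.node 0 7 .nil (.node 2 8 (.cons 0x7639821045 (.cons 0x1289345670 (.cons 0x5407639821 .nil))) .done (.node 0 3 .nil (.node 2 7 (.cons 0x9812763450 (.cons 0x8930127654 (.cons 0x9812763054 .nil))) .done .done) .done)) .done) .done)) (.node 0 8 .nil (.node 1 7 (.cons 0x5098671234 (.cons 0x2176543980 (.cons 0x8093456712 .nil))) (.node 2 4 (.cons 0x8905671243 (.cons 0x5671243980 (.cons 0x9087124365 .nil)))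 (.node 5 9 (.cons 0x2187634590 (.cons 0x4365908712 (.cons 0x5908176342 (.cons 0x4590876321 .nil)))) .done .done) .done) (.node 6 9 .nil (.node 5 7 (.cons 0x5768120934 (.cons 0x9632108754 (.cons 0x6908754321 (.cons 0x4578096321 .nil)))) (.leaf 0x4369021875 1 .done) (.node 0 3 .nil (.node 2 6 (.cons 0x7621890543 (.cons 0x7621890345 .nil)) (.node 4 9 (.cons 0x8763210945 (.cons 0x7894562103 (.cons 0x5498762103 (.cons 0x5498762301 .nil)))) .done .done) (.node 0 4 .nil (.node 2 5 (.cons 0x4309876521 (.cons 0x7812540963 (.cons 0x9045218763 .nil))) (.leaf 0x1876390452 1 .done) (.node 0 7 .nil (.node 1 6 (.cons 0x5432167890 (.cons 0x7089345612 (.cons 0x8907612345 .nil))) .done .done) .done)) .done)) .done)) .done)) .done)) (.node 0 3 .nil (.node 2 6 (.cons 0x7621890543 (.cons 0x7893012654 (.cons 0x7621890345 .nil))) (.node 1 7 (.cons 0x5098671234 (.cons 0x4562178930 .nil)) (.node 0 8 (.cons 0x6543908712 .nil) (.leaf 0x7126543908 0 .done) (.node 2 7 (.cons 0x6721890543 .nil)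 (.node 1 9 (.cons 0x8720654391 (.cons 0x8912765430 .nil)) .done .done) .done)) .done) (.node 0 7 .nil (.node 1 6 (.cons 0x5432167890 (.cons 0x2165439870 (.cons 0x8709345612 (.cons 0x8907612345 .nil)))) .done (.node 0 8 .nil (.node 1 6 (.cons 0x5432167890 (.cons 0x9805432167 (.cons 0x7809345612 .nil))) (.node 1 3 (.cons 0x2134567890 (.cons 0x9087654312 .nil)) (.node 6 9 (.cons 0x8967054312 (.cons 0x7802139654 .nil)) .done .done) .done) (.node 0 4 .nil (.node 2 7 (.cons 0x6721890543 (.cons 0x6540127893 .nil)) (.node 1 5 (.cons 0x4309876512 (.cons 0x6512789340 (.cons 0x6512789043 .nil))) (.node 1 7 (.cons 0x5098671234 (.cons 0x9867123405 .nil)) .done .done) (.node 1 3 (.cons 0x2134567890 (.cons 0x7213986504 (.cons 0x5687213904 (.cons 0x8904567213 .nil)))) .done .done)) .done) .done)) .done)) .done)) (.leaf 0x218765439 0 (.leaf 0x4390218765 1 .done)))) .done))) (.node 4 6 (.cons 0x5467890123 .nil) tc9_2_55 .done)))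
noncomputable def tc9_2_57 : T := (.node 6 8 (.cons 0x7689054321 .nil) (.node 4 6 (.cons 0x5467890123 .nil) (.node 3 6 .nil (.node 1 8 (.cons 0x9021876543 (.cons 0x7634509812 .nil)) (.node 5 9 (.cons 0x8764590123 (.cons 0x9543687021 (.cons 0x7810954632 (.cons 0x7812364590 .nil)))) .done (.node 2 4 (.cons 0x7650981243 (.cons 0x9812436705 (.cons 0x7890124563 .nil))) (.node 5 8 (.cons 0x7612345890 (.cons 0x7098543612 (.cons 0x7632458901 (.cons 0x3670985421 .nil)))) .done .done) .done)) (.node 3 8 (.cons 0x5438907612 .nil) (.node 0 3 .nil (.node 5 8 (.cons 0x7612345890 (.cons 0x7612309854 .nil)) (.node 5 9 (.cons 0x8764590123 (.cons 0x7034598612 (.cons 0x8764590321 .nil))) .done .done) .done) (.node 6 9 .nil (.node 1 3 (.cons 0x2134567890 (.cons 0x8967054312 (.cons 0x9687021345 .nil))) (.node 1 5 (.cons 0x4510987632 (.cons 0x4389670512 (.cons 0x9687021543 .nil))) .done .done) (.node 2 6 .nil (.node 0 3 (.cons 0x7890345621 .nil) (.node 1 8 (.cons 0x9021876543 (.cons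 0x7812309645 (.cons 0x7621890543 .nil))) .done .done) .done) .done)) .done)) .done)) (.node 6 9 .nil (.node 4 7 (.cons 0x9867450123 (.cons 0x8967450123 .nil)) (.node 1 8 (.cons 0x9021876543 (.cons 0x7812096543 (.cons 0x8123476905 .nil))) (.node 3 8 (.cons 0x5438907612 (.cons 0x7834569021 (.cons 0x5096743812 .nil))) (.leaf 0x547698321 0 .done) .done) .done) (.node 2 6 .nil (.node 1 3 (.cons 0x2134567890 (.cons 0x7890132645 .nil)) (.node 5 9 (.cons 0x7895462310 (.cons 0x4598762310 .nil)) (.leaf 0x8701326459 1 .done) (.node 5 9 (.cons 0x8764590132 (.cons 0x9543126870 (.cons 0x8762310954 .nil))) .done (.leaf 0x2678905431 0 .done))) .done) .done)) .done)) (.node 6 9 .nil (.node 3 8 (.cons 0x5438907612 (.cons 0x7698321054 (.cons 0x7834569021 .nil))) (.node 1 5 (.cons 0x9021567834 (.cons 0x4389670512 (.cons 0x7869023451 .nil))) (.node 2 4 (.cons 0x7650983421 (.cons 0x5076983421 (.cons 0x7834215690 .nil))) (.leaf 0x1569078342 1 .done) .done) .done) (.node 4 6 (.cons 0x5467890123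 .nil) (.node 2 6 .nil (.node 3 5 (.cons 0x9876453210 (.cons 0x9870126453 (.cons 0x4532678901 .nil))) (.node 1 3 (.cons 0x2134567890 (.cons 0x4531269870 .nil)) (.node 3 6 (.cons 0x9870126354 .nil) .done (.leaf 0x2678905431 0 .done)) (.node 4 8 (.cons 0x1235487690 (.cons 0x3548709621 (.cons 0x9012678453 .nil))) .done .done)) .done) (.node 5 9 (.cons 0x8764590123 .nil) (.node 2 6 .nil (.node 1 3 (.cons 0x2134567890 (.cons 0x6213459870 (.cons 0x2687095431 .nil))) (.leaf 0x4312678905 1 (.leaf 0x2678905431 0 .done)) (.node 3 6 (.cons 0x1263459870 .nil) .done .done)) (.node 2 6 .nil (.node 1 3 (.cons 0x2134567890 (.cons 0x4598762310 (.cons 0x8762310954 .nil))) (.leaf 0x4312678905 1 (.leaf 0x2678905431 0 .done)) (.node 3 6 .nil (.node 1 4 (.cons 0x3267895410 (.cons 0x2367895410 .nil)) (.node 1 8 (.cons 0x9812670543 (.cons 0x7814596320 (.cons 0x7814365902 (.cons 0x2095436781 .nil)))) .done (.node 2 5 (.cons 0x8907612543 (.cons 0x7890634125 .nil)) (.leaf 0x6789052143 1 .done)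 .done)) .done) .done)) .done)) .done)) .done)) (.node 6 9 .nil (.node 1 7 (.cons 0x4509867123 (.cons 0x8967123450 .nil)) (.node 0 8 (.cons 0x3456908712 .nil) (.leaf 0x7123456908 0 (.leaf 0x9654321780 1 .done)) (.node 1 8 (.cons 0x9021876543 (.cons 0x7698123450 (.cons 0x7812096543 .nil))) (.node 4 8 (.cons 0x3489056712 (.cons 0x7698450123 (.cons 0x5690217843 .nil))) (.node 5 8 (.cons 0x7612345890 (.cons 0x4321769850 (.cons 0x7169023485 .nil))) .done .done) .done) .done)) (.node 4 6 (.cons 0x5467890123 .nil) (.node 2 6 .nil (.node 1 3 (.cons 0x2134567890 .nil) (.node 0 4 (.cons 0x7896231045 (.cons 0x9876231045 .nil)) (.node 2 9 (.cons 0x5407689213 (.cons 0x7892134065 (.cons 0x5678921340 (.cons 0x3129876540 .nil)))) .done .done) (.node 5 8 (.cons 0x7612345890 (.cons 0x2690785431 (.cons 0x9013267854 .nil))) (.leaf 0x3458709621 0 .done) (.leaf 0x4312678905 1 (.leaf 0x2678905431 0 .done)))) .done) (.node 5 9 (.cons 0x8764590123 .nil) (.node 2 6 .nil (.node 1 3 (.cons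 0x2134567890 (.cons 0x6213459870 (.cons 0x4590786213 .nil))) (.leaf 0x4312678905 1 (.leaf 0x2678905431 0 .done)) (.node 3 6 (.cons 0x1263459870 .nil) .done .done)) (.node 7 9 .nil (.node 0 3 (.cons 0x8764590321 (.cons 0x5468790321 .nil)) (.node 5 8 (.cons 0x7612345890 (.cons 0x4589761032 (.cons 0x5879064321 (.cons 0x8543209761 .nil)))) .done .done) (.node 3 6 .nil (.node 1 8 (.cons 0x3218764590 (.cons 0x7812364590 (.cons 0x7634509812 .nil))) (.leaf 0x6781209543 0 (.node 4 7 (.cons 0x3476509812 (.cons 0x4763218950 .nil)) (.leaf 0x956347812 1 .done) .done)) (.node 2 6 .nil (.node 1 3 (.cons 0x2134567890 (.cons 0x8709546213 .nil)) (.node 3 5 (.cons 0x6789012354 (.cons 0x9078621354 (.cons 0x4532678901 .nil))) .done (.leaf 0x2678905431 0 .done)) .done) .done)) .done)) .done)) .done)) .done)) .done))) (.node 0 3 .nil (.node 5 8 (.cons 0x7612345890 (.cons 0x7612309854 .nil)) (.leaf 0x4321670985 0 (.node 5 7 (.cons 0x7589061234 (.cons 0x8903216754 .nil)) (.node 0 8 (.cons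 0x9803457612 .nil) .done (.node 1 5 (.cons 0x8907615432 .nil) (.node 0 8 (.cons 0x9807615432 .nil) (.node 1 8 (.cons 0x9021876543 .nil) (.node 2 4 (.cons 0x7650981243 (.cons 0x9876542103 (.cons 0x9815670342 (.cons 0x9034218756 .nil)))) .done .done) .done) .done) .done)) (.node 2 7 (.cons 0x1672345890 (.cons 0x4589032761 .nil)) (.node 1 9 (.cons 0x6785432091 (.cons 0x8916543072 (.cons 0x8912765034 (.cons 0x2761985430 .nil)))) .done (.node 2 4 (.cons 0x7610985423 (.cons 0x9876542103 (.cons 0x7243098561 .nil))) (.node 1 5 (.cons 0x4327615890 (.cons 0x6512789034 .nil)) (.leaf 0x3427615890 1 (.leaf 0x342761589 0 .done)) .done) .done)) .done))) (.node 2 6 (.cons 0x7890345621 .nil) (.node 2 7 (.cons 0x6543098721 .nil) (.node 0 8 .nil (.node 1 3 (.cons 0x2134567890 (.cons 0x9805672134 (.cons 0x9087654312 .nil))) (.node 1 9 (.cons 0x7891265430 (.cons 0x7089162345 (.cons 0x7621980543 .nil))) .done .done) (.node 0 4 .nil (.node 1 5 (.cons 0x8907615432 (.cons 0x9876043215 (.cons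 0x6512789043 .nil))) (.node 1 3 (.cons 0x2134567890 (.cons 0x5678904312 .nil)) (.node 2 8 (.cons 0x5432890761 (.cons 0x9827043165 (.cons 0x9823167045 .nil))) .done .done) .done) .done) .done)) (.node 2 5 .nil (.node 3 6 (.cons 0x4563098721 (.cons 0x4523678901 .nil)) (.node 4 6 (.cons 0x5467890123 (.cons 0x3254678901 .nil)) .done .done) (.node 2 8 (.cons 0x5432890761 .nil) (.node 0 4 .nil (.node 1 3 (.cons 0x2134567890 (.cons 0x9872130456 (.cons 0x9043128765 (.cons 0x5678904312 .nil)))) .done (.node 0 8 .nil (.node 1 5 (.cons 0x8907615432 (.cons 0x9807615432 .nil)) (.node 3 9 (.cons 0x8765439021 (.cons 0x7651280934 (.cons 0x4390876512 (.cons 0x9326780154 .nil)))) .done .done) .done) .done)) .done) .done)) .done)) (.node 2 7 (.cons 0x6543098721 .nil) (.node 6 9 (.cons 0x1278965430 .nil) (.node 6 8 (.cons 0x7689054321 .nil) (.node 3 6 (.cons 0x9872103654 .nil) (.node 4 6 (.cons 0x5469872301 .nil) .done .done) .done) .done) (.node 2 8 (.cons 0x5432890761 .nil) (.node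 6 8 (.cons 0x7689054321 .nil) (.node 6 9 .nil (.node 1 7 (.cons 0x2345098671 (.cons 0x2178965430 (.cons 0x5430716982 .nil))) (.leaf 0x2345017698 1 .done) .done) .done) (.node 6 9 .nil (.node 3 7 (.cons 0x7345612890 (.cons 0x4569873012 (.cons 0x1287345690 .nil))) .done (.node 6 8 (.cons 0x7689054321 .nil) (.node 4 6 (.cons 0x5643098721 .nil) (.node 3 6 .nil (.node 1 4 (.cons 0x8905672143 (.cons 0x9827056341 (.cons 0x5634127890 (.cons 0x7890362145 .nil)))) .done .done) .done) .done) .done)) .done)) .done)) .done)) .done)) .done))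
noncomputable def tc9_2_58 : T := (.node 1 5 .nil (.node 0 7 (.cons 0x8709543216 .nil) (.node 3 6 (.cons 0x8709543612 (.cons 0x4360789512 (.cons 0x8907634512 (.cons 0x4510987632 .nil)))) .done (.node 2 6 (.cons 0x8709543261 (.cons 0x4326078951 (.cons 0x8907623451 .nil))) (.node 2 8 (.cons 0x9516078234 (.cons 0x9078234516 (.cons 0x6159078234 .nil))) (.node 0 3 (.cons 0x9034561287 .nil) (.node 2 7 (.cons 0x4306598721 (.cons 0x8721659034 .nil)) .done .done) .done) .done) .done)) (.node 0 7 (.cons 0x6078951234 .nil) (.node 1 7 (.cons 0x8905432176 .nil) (.node 2 5 .nil (.node 0 4 (.cons 0x9876043215 (.cons 0x6521789043 (.cons 0x9876043251 .nil))) .done (.node 5 8 (.cons 0x7859061234 .nil) (.node 3 5 (.cons 0x6789012354 .nil) (.node 5 7 (.cons 0x8759061234 .nil) .done .done) .done) .done)) .done) (.node 2 5 .nil (.node 1 3 (.cons 0x2134567890 (.cons 0x7890652134 (.cons 0x4312567890 .nil))) (.node 0 8 (.cons 0x9087612345 (.cons 0x9087612543 .nil)) (.node 1 8 (.cons 0x6187095432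 (.cons 0x4318907652 (.cons 0x6709813452 .nil))) .done .done) .done) (.node 5 8 (.cons 0x7859061234 .nil) (.node 3 5 (.cons 0x6789012354 .nil) (.node 5 7 (.cons 0x8759061234 .nil) .done .done) .done) .done)) .done)) .done)) (.node 1 5 .nil (.node 1 8 (.cons 0x9518760234 (.cons 0x6781590234 .nil)) (.node 0 8 (.cons 0x2345908761 (.cons 0x9087615432 .nil)) (.node 0 7 (.cons 0x6187095432 .nil) (.node 4 7 (.cons 0x5906187432 (.cons 0x9518743206 (.cons 0x6095187432 .nil))) (.node 2 8 (.cons 0x1678234590 (.cons 0x9821506743 (.cons 0x4328761590 .nil))) (.node 3 6 (.cons 0x3674509821 (.cons 0x9518743602 (.cons 0x3674512890 (.cons 0x4510987632 .nil)))) .done .done) .done) .done) .done) (.node 2 4 (.cons 0x8761095423 (.cons 0x9518760243 (.cons 0x7890651243 .nil))) (.node 3 7 (.cons 0x6734509812 (.cons 0x8951067324 (.cons 0x8159067342 (.cons 0x8159024376 (.cons 0x5189067342 .nil))))) .done .done) .done)) (.node 1 7 (.cons 0x8905432176 .nil) (.node 1 3 (.cons 0x2134567890 .nil)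 (.node 1 8 (.cons 0x9021876543 .nil) (.node 1 4 (.cons 0x2341598760 .nil) (.node 1 9 .nil (.node 4 8 (.cons 0x8431765902 (.cons 0x6784591023 (.cons 0x7605198432 .nil))) .done .done) .done) (.node 1 4 (.cons 0x2341598760 .nil) (.node 1 9 .nil (.node 0 8 (.cons 0x2345908761 (.cons 0x9154320876 .nil)) (.leaf 0x9123456780 0 .done) .done) .done) .done)) (.node 2 7 (.cons 0x6543127890 .nil) (.leaf 0x3127890654 0 (.leaf 0x9872134560 0 .done)) .done)) (.node 1 8 (.cons 0x9021876543 .nil) (.node 0 7 (.cons 0x6187095432 .nil) (.node 1 4 (.cons 0x2341598760 .nil) (.node 1 3 (.cons 0x2134567890 .nil) (.node 1 9 .nil (.node 4 8 (.cons 0x2095678431 (.cons 0x6784591023 (.cons 0x5678431902 .nil))) (.leaf 0x3487659021 1 .done) .done) .done) .done) .done) (.node 0 7 .nil (.node 4 6 (.cons 0x9518764320 (.cons 0x2346705981 (.cons 0x9815076432 .nil))) (.leaf 0x3467059812 1 .done) (.node 0 3 .nil (.node 2 4 (.cons 0x3420956781 (.cons 0x6789542301 (.cons 0x8951760342 (.cons 0x7816590342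 .nil)))) .done (.node 0 4 (.cons 0x2340678951 .nil) (.node 0 8 (.cons 0x2345908761 .nil) .done .done) .done)) .done)) .done)) .done)) (.node 3 5 (.cons 0x6789012354 .nil) (.node 5 8 .nil (.node 4 9 (.cons 0x6789453210 (.cons 0x7601235894 (.cons 0x9435876021 .nil))) (.node 1 7 (.cons 0x2178943560 (.cons 0x2349587160 (.cons 0x6587120943 (.cons 0x9435871206 .nil)))) .done .done) (.node 2 5 .nil (.node 1 3 (.cons 0x2134567890 (.cons 0x4312567890 .nil)) (.node 1 4 (.cons 0x4106789532 (.cons 0x1432598760 .nil)) (.node 1 8 (.cons 0x9534187602 (.cons 0x9520678143 .nil)) (.leaf 0x5906781432 0 .done) .done) .done) .done) .done)) (.node 6 9 (.cons 0x8769012354 .nil) (.node 4 6 (.cons 0x5467890123 .nil) (.node 3 6 .nil (.node 0 7 (.cons 0x2346078951 (.cons 0x9870154632 .nil)) (.node 3 9 (.cons 0x5463987012 .nil) (.leaf 0x1546398702 1 .done) .done) (.node 6 8 (.cons 0x7689054321 .nil) (.node 2 6 .nil (.node 0 3 (.cons 0x7895462301 .nil) (.node 2 7 (.cons 0x9872156034 (.cons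 0x9872156430 (.cons 0x4603278951 .nil))) .done .done) .done) .done) .done)) (.node 3 6 (.cons 0x7890154632 .nil) (.node 2 6 (.cons 0x7890154623 .nil) (.node 6 8 (.cons 0x7689054321 .nil) .done .done) .done) .done)) (.node 6 8 (.cons 0x7689054321 .nil) (.node 2 6 .nil (.node 1 3 (.cons 0x2134567890 (.cons 0x4598762310 .nil)) (.node 4 7 (.cons 0x3478906512 (.cons 0x8954762310 (.cons 0x8743260951 (.cons 0x5126098743 (.cons 0x8901326745 .nil))))) .done (.leaf 0x2678905431 0 .done)) (.node 4 6 (.cons 0x5467890123 .nil) (.node 3 6 (.cons 0x7890154632 .nil) .done .done) .done)) (.node 7 9 (.cons 0x2345168790 .nil) (.node 2 7 (.cons 0x8615097234 .nil) (.node 1 4 (.cons 0x6897234150 .nil) (.leaf 0x5143279860 1 (.leaf 0x3279860514 0 (.node 1 7 (.cons 0x2345098671 .nil) .done .done))) (.node 2 5 (.cons 0x4325168790 .nil) (.node 5 7 (.cons 0x6098751234 .nil) .done .done) .done)) (.node 0 7 (.cons 0x9078615432 .nil) (.node 0 3 .nil (.node 4 6 (.cons 0x8790643512 (.cons 0x7896451230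 .nil)) (.leaf 0x5469870321 1 .done) (.node 0 4 (.cons 0x8769045321 .nil) (.node 0 8 (.cons 0x2345908761 .nil) .done .done) .done)) .done) .done)) .done)) .done)) .done)) .done))) (.node 0 3 (.cons 0x8761230954 .nil) (.node 0 8 (.cons 0x4590876123 .nil) (.node 2 5 (.cons 0x9087612543 .nil) (.node 0 4 .nil (.node 3 9 (.cons 0x9345216780 (.cons 0x1256789340 (.cons 0x6789325401 .nil))) (.node 3 6 (.cons 0x7639801254 (.cons 0x1236789540 (.cons 0x9876325401 .nil))) .done .done) (.node 0 7 .nil (.node 3 9 (.cons 0x9345216780 (.cons 0x6708934521 .nil)) (.leaf 0x452398761 1 (.node 4 6 (.cons 0x5467890123 (.cons 0x6459870321 (.cons 0x8932546701 .nil))) .done .done)) .done) .done)) (.node 3 9 (.cons 0x8765439021 .nil) (.leaf 0x4390876125 1 (.leaf 0x876125439 0 (.node 6 9 (.cons 0x7809612543 .nil) (.node 3 6 .nil (.node 1 7 (.cons 0x6543098712 (.cons 0x7125436980 (.cons 0x4365217890 (.cons 0x6345217890 .nil)))) .done (.node 0 4 (.cons 0x1236789540 .nil) (.node 0 7 (.cons 0x7089634521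 .nil) .done .done) .done)) .done) .done))) .done)) (.node 1 5 (.cons 0x9087615432 .nil) (.node 0 4 (.cons 0x4067895123 .nil) (.node 0 7 .nil (.node 2 9 (.cons 0x9234516780 (.cons 0x6708923451 (.cons 0x8709216543 (.cons 0x6512987034 .nil)))) .done .done) .done) (.node 2 9 (.cons 0x5432908761 .nil) (.leaf 0x4329087615 0 (.node 0 7 (.cons 0x8709216543 .nil) (.node 0 4 .nil (.node 3 8 (.cons 0x7834561290 (.cons 0x6129540783 (.cons 0x7834092165 .nil))) .done .done) .done) (.leaf 0x8092345167 0 .done))) .done)) .done)) (.node 0 8 (.cons 0x4590876123 .nil) (.node 6 9 (.cons 0x7809612345 .nil) (.node 3 9 (.cons 0x8765439021 .nil) (.node 0 7 (.cons 0x8709345612 .nil) (.node 0 4 .nil (.node 1 7 (.cons 0x8712093456 (.cons 0x5604398712 .nil)) (.node 2 5 (.cons 0x8709345216 (.cons 0x6521789340 (.cons 0x6521789043 .nil))) .done .done) .done) .done) (.node 2 9 (.cons 0x7809216543 .nil) (.node 3 8 (.cons 0x7834561290 .nil) (.node 0 4 (.cons 0x7698321045 .nil) (.node 0 7 (.cons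 0x9216543870 .nil) .done .done) .done) .done) .done)) (.node 1 5 (.cons 0x8769023451 .nil) (.node 0 4 (.cons 0x4067895123 .nil) (.node 0 7 .nil (.node 4 9 (.cons 0x5123498760 (.cons 0x3498706512 .nil)) (.node 6 8 (.cons 0x7689054321 (.cons 0x9867054321 (.cons 0x3215498670 .nil))) .done .done) .done) .done) (.node 0 7 (.cons 0x8709615432 .nil) (.node 0 4 .nil (.node 1 3 (.cons 0x2134567890 (.cons 0x8769540231 (.cons 0x5678904312 .nil))) (.node 2 7 (.cons 0x8723451690 (.cons 0x3278045961 (.cons 0x6512789043 (.cons 0x8904567213 .nil)))) .done .done) .done) .done) .done)) .done)) (.node 0 7 .nil (.node 2 5 (.cons 0x9087612543 .nil) (.node 3 9 (.cons 0x9345216780 (.cons 0x6708934521 (.cons 0x4398706521 .nil))) (.node 0 4 (.cons 0x1256789340 .nil) (.leaf 0x2167804395 0 .done) .done) (.node 3 9 (.cons 0x8765439021 (.cons 0x8709345612 .nil)) (.leaf 0x4390876125 1 (.leaf 0x876125439 0 .done)) .done)) .done) .done)) .done)) .done)))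
noncomputable def tc9_2_59 : T := (.node 3 7 (.cons 0x9021873456 (.cons 0x9065437812 .nil)) (.node 7 9 (.cons 0x6054379812 .nil) (.leaf 0x8123456097 0 (.leaf 0x6543798120 1 (.leaf 0x978123456 1 (.leaf 0x5602189734 0 .done)))) (.node 2 4 (.cons 0x8905673421 (.cons 0x7342189065 (.cons 0x5609873421 .nil))) (.node 5 9 (.cons 0x6590218734 (.cons 0x1243789560 (.cons 0x3245987601 .nil))) (.node 4 8 (.cons 0x9842105673 (.cons 0x3760598421 .nil)) (.node 1 3 (.cons 0x2134567890 (.cons 0x9548760231 (.cons 0x9560248137 .nil))) (.node 1 9 (.cons 0x8912437650 (.cons 0x5913248760 (.cons 0x8912437605 .nil))) (.leaf 0x8423765019 0 .done) .done) .done) .done) .done) (.node 3 5 (.cons 0x6789012354 (.cons 0x9876012354 .nil)) (.node 7 9 (.cons 0x4356097812 (.cons 0x6097812354 .nil)) (.leaf 0x8123456097 0 (.node 3 6 (.cons 0x9781206345 .nil) (.node 1 3 (.cons 0x2134567890 (.cons 0x8976054312 .nil)) (.node 2 5 (.cons 0x4312567890 (.cons 0x7981254360 (.cons 0x7890652134 .nil))) (.node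 4 7 (.cons 0x8905674312 (.cons 0x8125479063 .nil)) (.leaf 0x6521347890 1 .done) .done) .done) (.node 1 3 (.cons 0x2134567890 (.cons 0x8976054312 .nil)) (.node 2 4 (.cons 0x8901376542 (.cons 0x7981243605 .nil)) (.leaf 0x978124536 0 (.node 1 5 (.cons 0x9873245106 .nil) (.leaf 0x9873421560 0 .done) .done)) .done) .done)) .done)) (.node 3 9 (.cons 0x8765439021 .nil) (.node 0 3 .nil (.node 2 7 (.cons 0x7218934560 (.cons 0x4356098721 (.cons 0x8930127654 (.cons 0x7218930654 .nil)))) .done (.node 0 7 (.cons 0x7065439812 .nil) (.node 4 7 (.cons 0x8932106745 .nil) (.node 2 6 (.cons 0x2654739810 (.cons 0x7430981265 (.cons 0x1265347890 (.cons 0x4789035621 .nil)))) .done (.node 1 7 (.cons 0x8905432176 (.cons 0x4356098712 .nil)) (.node 2 8 (.cons 0x6547390182 (.cons 0x9374560182 (.cons 0x9065347821 (.cons 0x6071289354 .nil)))) .done .done) .done)) .done) .done)) (.node 0 3 .nil (.node 1 9 (.cons 0x6543781902 (.cons 0x5430678912 .nil)) (.node 5 7 (.cons 0x6578120934 (.cons 0x8912306754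 (.cons 0x4390657812 .nil))) .done .done) .done) .done)) .done)) .done))) (.node 1 7 (.cons 0x8905432176 .nil) (.node 1 3 (.cons 0x2134567890 (.cons 0x7890654312 .nil)) (.node 1 6 (.cons 0x5432167890 .nil) (.node 3 5 (.cons 0x9021876534 (.cons 0x9876012354 .nil)) (.node 4 7 (.cons 0x3476509812 (.cons 0x9065347812 .nil)) (.node 2 6 (.cons 0x9812605347 (.cons 0x5347890621 (.cons 0x3547890621 .nil))) .done (.node 2 8 (.cons 0x9056743182 (.cons 0x9065431287 (.cons 0x9823547160 .nil))) (.node 6 9 (.cons 0x4532178960 .nil) (.leaf 0x547698231 1 (.leaf 0x5013289674 0 .done)) .done) .done)) (.node 3 7 (.cons 0x4376509812 .nil) (.node 1 5 (.cons 0x4378906512 .nil) (.node 2 7 (.cons 0x8901672354 .nil) (.node 4 8 (.cons 0x1672354890 (.cons 0x9845327160 (.cons 0x6734890512 (.cons 0x3276154890 .nil)))) (.leaf 0x5327610984 0 .done) .done) .done) .done) .done)) .done) (.node 1 6 (.cons 0x5432167890 .nil) (.node 3 9 (.cons 0x8765439021 (.cons 0x2178934560 .nil)) (.node 1 5 (.cons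 0x8765120934 .nil) (.node 4 7 (.cons 0x3476509812 (.cons 0x8743906512 .nil)) (.node 0 4 (.cons 0x5604398712 .nil) (.node 5 9 (.cons 0x8761234590 (.cons 0x8954067132 .nil)) (.leaf 0x6059812347 0 .done) .done) (.node 2 5 (.cons 0x2567431890 (.cons 0x6015239874 (.cons 0x8906745231 .nil))) .done .done)) .done) (.node 2 5 (.cons 0x4390256781 (.cons 0x4523987601 (.cons 0x6017893254 .nil))) (.node 2 8 (.cons 0x7654312890 (.cons 0x9345602871 .nil)) (.node 4 8 (.cons 0x1678452390 (.cons 0x9325487160 (.cons 0x2548931760 (.cons 0x9845231760 .nil)))) .done .done) .done) .done)) .done) .done)) (.node 1 3 (.cons 0x2134567890 (.cons 0x7890654312 .nil)) (.node 1 6 (.cons 0x5432167890 .nil) (.node 5 9 (.cons 0x8712345906 (.cons 0x4598760132 .nil)) (.node 4 6 (.cons 0x7643218950 (.cons 0x8764590123 (.cons 0x5902346781 .nil))) .done (.node 4 7 (.cons 0x3476509812 (.cons 0x4760598123 (.cons 0x4760598132 .nil))) (.node 2 5 (.cons 0x9812506743 .nil) (.node 6 9 (.cons 0x8967431250 (.cons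 0x8176905234 .nil)) .done (.node 3 6 (.cons 0x4781259063 (.cons 0x4789521360 (.cons 0x9520631874 .nil))) .done .done)) .done) .done)) .done) (.node 1 6 (.cons 0x5432167890 .nil) (.node 4 7 (.cons 0x3476509812 (.cons 0x9812347605 .nil)) (.node 2 5 (.cons 0x9812506743 (.cons 0x8906745213 .nil)) (.node 0 7 (.cons 0x8907652134 (.cons 0x4318907652 .nil)) .done (.node 2 8 (.cons 0x7654312890 (.cons 0x5476098213 .nil)) (.node 3 8 (.cons 0x9065438712 .nil) (.leaf 0x1389067452 1 (.leaf 0x9067452138 0 .done)) .done) .done)) (.node 2 8 (.cons 0x7654312890 (.cons 0x9823106745 (.cons 0x5476098231 .nil))) (.node 5 9 (.cons 0x2347618950 (.cons 0x7895432160 (.cons 0x9543287160 (.cons 0x7459823160 .nil)))) .done .done) .done)) .done) .done)) (.node 4 7 (.cons 0x3476509812 (.cons 0x9812347605 .nil)) (.node 3 8 (.cons 0x9056743812 (.cons 0x9834506712 .nil)) (.node 2 9 (.cons 0x8129056743 (.cons 0x7438129065 (.cons 0x5609218743 (.cons 0x3874560921 .nil)))) (.leaf 0x567438129 0 .done)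 (.node 3 5 (.cons 0x9021876534 (.cons 0x9876012354 (.cons 0x9065347812 .nil))) (.node 2 9 (.cons 0x4356781290 (.cons 0x5609218743 .nil)) (.leaf 0x6092187435 0 (.node 4 8 (.cons 0x8435092176 (.cons 0x5067129843 (.cons 0x7843560921 (.cons 0x5348760921 .nil)))) .done (.node 2 4 (.cons 0x7650981243 (.cons 0x3892450671 (.cons 0x8354290671 (.cons 0x6092453871 .nil)))) .done .done))) .done) .done)) (.node 2 5 (.cons 0x6743250981 (.cons 0x6098712543 .nil)) (.node 1 9 (.cons 0x8910674523 (.cons 0x6019874523 .nil)) (.node 0 3 (.cons 0x9871254306 (.cons 0x9187652034 .nil)) (.leaf 0x6789120345 0 .done) .done) (.node 1 3 (.cons 0x2134567890 (.cons 0x9813250674 (.cons 0x8906745231 (.cons 0x6098745231 .nil)))) (.node 2 8 (.cons 0x9056743182 (.cons 0x9821760543 (.cons 0x9065431287 .nil))) .done .done) .done)) .done)) .done))) (.node 3 9 (.cons 0x8765439021 .nil) (.node 2 7 (.cons 0x6721890543 (.cons 0x5439812760 .nil)) (.node 1 7 (.cons 0x8905432176 .nil) (.node 4 8 (.cons 0x3489056721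 (.cons 0x7601239845 .nil)) (.node 3 5 (.cons 0x6721890534 (.cons 0x9812760534 (.cons 0x9065348721 (.cons 0x4356098721 (.cons 0x4893560172 .nil))))) .done (.node 1 5 (.cons 0x6723489051 (.cons 0x5184390672 (.cons 0x9843271506 .nil))) .done .done)) (.node 4 8 (.cons 0x3489056721 (.cons 0x7601239845 .nil)) (.node 2 8 (.cons 0x8217654390 (.cons 0x7128456093 .nil)) (.node 3 5 (.cons 0x6721890534 (.cons 0x9812760534 (.cons 0x9065348721 (.cons 0x4356098721 (.cons 0x9356017284 .nil))))) .done .done) (.node 1 5 (.cons 0x6723489051 (.cons 0x9843276051 (.cons 0x8439065172 .nil))) .done .done)) .done)) (.node 3 5 (.cons 0x6789012354 (.cons 0x4539812760 (.cons 0x8127609354 .nil))) (.node 1 7 (.cons 0x8905432176 (.cons 0x4356098712 .nil)) (.node 5 8 (.cons 0x7601239854 (.cons 0x9345817602 (.cons 0x4589321760 .nil))) (.node 4 8 (.cons 0x7601239845 (.cons 0x9354817206 .nil)) (.leaf 0x3902176584 1 .done) .done) (.node 2 9 (.cons 0x8712906543 (.cons 0x8712906534 .nil)) (.node 0 3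 (.cons 0x1298765430 .nil) (.leaf 0x9218765430 0 (.leaf 0x4567812903 1 .done)) .done) .done)) (.node 1 4 (.cons 0x6789014532 (.cons 0x9876014532 (.cons 0x8145390672 (.cons 0x8906723541 (.cons 0x6098723541 .nil))))) .done .done)) .done)) (.node 2 7 (.cons 0x6721890543 (.cons 0x1278934560 .nil)) (.node 1 7 (.cons 0x8712093456 (.cons 0x2178934560 .nil)) (.node 1 4 (.cons 0x8905672143 (.cons 0x5609872143 .nil)) (.node 1 5 (.cons 0x4398721560 .nil) (.leaf 0x4398720651 0 (.leaf 0x6514398720 1 .done)) (.node 5 8 (.cons 0x3412765890 (.cons 0x7214398560 (.cons 0x5890672341 (.cons 0x7609854123 .nil)))) (.node 1 5 (.cons 0x4398721560 .nil) (.node 0 3 (.cons 0x4309876512 (.cons 0x8903415672 .nil)) .done .done) .done) .done)) .done) (.node 3 5 (.cons 0x6789012354 (.cons 0x9876012354 .nil)) (.node 5 7 (.cons 0x6012398754 .nil) (.node 3 6 (.cons 0x7218936054 (.cons 0x8901236754 (.cons 0x4367509812 .nil))) (.node 1 4 (.cons 0x8720936541 (.cons 0x3987214560 (.cons 0x8721456093 (.cons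 0x8901457632 (.cons 0x9063541872 .nil))))) .done .done) (.node 5 9 (.cons 0x6781209543 .nil) (.node 3 7 (.cons 0x6734509812 (.cons 0x6021873954 .nil)) (.node 2 4 (.cons 0x8905673421 (.cons 0x4218950673 (.cons 0x5609873421 .nil))) (.leaf 0x678124359 0 .done) .done) .done) .done)) (.node 1 4 (.cons 0x6789014532 (.cons 0x3987214560 (.cons 0x6093541872 (.cons 0x8906723541 (.cons 0x6098723541 .nil))))) .done .done)) .done)) (.leaf 0x218765439 0 (.leaf 0x4390218765 1 .done)))) .done)))
noncomputable def uc9_2_9 : T := (.node 1 8 (.cons 0x9021876543 (.cons 0x9812345067 .nil)) tc9_2_59 (.node 1 6 (.cons 0x5432167890 .nil) (.node 6 8 (.cons 0x7689054321 .nil) (.node 0 8 (.cons 0x9805432167 .nil) (.node 1 8 (.cons 0x9021876543 .nil) (.node 1 7 (.cons 0x2345098671 .nil) (.node 6 9 (.cons 0x3456908712 .nil) (.leaf 0x1234569087 1 (.node 3 8 (.cons 0x8321769054 .nil) (.node 2 6 (.cons 0x9087126543 .nil) (.node 1 5 (.cons 0x9086234517 .nil) (.node 0 3 (.cons 0x4517869032 .nil)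 (.node 0 4 (.cons 0x7896154032 .nil) (.node 0 7 (.cons 0x4507698321 .nil) .done .done) .done) .done) .done) .done) .done)) (.node 3 8 .nil (.node 2 4 (.cons 0x7650981243 (.cons 0x9834217605 (.cons 0x7654210983 .nil))) (.node 7 9 (.cons 0x8976123450 (.cons 0x7983421650 (.cons 0x4501679832 .nil))) (.leaf 0x5438790216 1 .done) .done) (.node 2 8 (.cons 0x6712890543 .nil) (.node 5 8 .nil (.node 3 6 (.cons 0x8905436712 (.cons 0x9012367854 (.cons 0x2176345890 .nil))) .done .done) .done) .done)) .done)) (.node 4 8 .nil (.node 3 6 (.cons 0x7634509812 (.cons 0x9012367845 (.cons 0x7632109845 .nil))) .done (.node 5 8 .nil (.node 3 6 (.cons 0x7634509812 (.cons 0x9012367854 (.cons 0x7632109854 .nil))) .done (.node 0 3 .nil (.node 1 7 (.cons 0x2345098671 (.cons 0x9843056712 .nil)) (.node 2 9 (.cons 0x9234508617 (.cons 0x7654892103 (.cons 0x7892165430 (.cons 0x7650348921 (.cons 0x9230548671 .nil))))) .done .done) (.node 0 7 .nil (.node 3 9 (.cons 0x8765439021 (.cons 0x4589321670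 (.cons 0x2165439870 .nil))) (.leaf 0x6120789345 0 .done) (.node 2 8 (.cons 0x9821670543 .nil) (.node 3 8 (.cons 0x9834507612 .nil) .done .done) .done)) .done)) .done)) .done)) .done)) (.node 1 8 (.cons 0x9021876543 .nil) (.node 0 7 .nil (.node 3 9 (.cons 0x8765439021 (.cons 0x5439807612 (.cons 0x2165439870 (.cons 0x9345618702 .nil)))) (.leaf 0x6120789345 0 .done) (.node 1 5 .nil (.node 2 6 (.cons 0x9816234507 (.cons 0x8907623451 .nil)) (.node 4 6 (.cons 0x5467890123 (.cons 0x9078154623 (.cons 0x7098154623 .nil))) .done .done) (.node 4 8 (.cons 0x9067843215 .nil) (.node 5 8 (.cons 0x9067851234 .nil) (.node 2 8 (.cons 0x9823450761 .nil) (.node 3 8 .nil (.node 2 9 (.cons 0x8923450761 (.cons 0x4382907651 (.cons 0x9207834561 .nil))) (.leaf 0x5438921670 1 .done) .done) .done) .done) .done) .done)) .done)) (.node 0 7 .nil (.node 0 3 (.cons 0x9870345612 .nil) (.node 3 9 (.cons 0x8765439021 (.cons 0x5439807612 (.cons 0x2165439870 .nil))) (.leaf 0x6120789345 0 .done) .done)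 (.node 0 3 .nil (.node 0 4 (.cons 0x9876123045 .nil) (.node 2 4 (.cons 0x7650981243 (.cons 0x9876542103 .nil)) (.node 2 9 (.cons 0x8923450761 (.cons 0x7892165430 (.cons 0x7892165403 .nil))) (.node 7 9 (.cons 0x8976123450 (.cons 0x5421679803 .nil)) (.leaf 0x8124305679 0 .done) .done) .done) .done) (.node 0 4 .nil (.node 2 7 (.cons 0x9872165430 (.cons 0x9812765043 (.cons 0x9872165403 .nil))) (.node 3 8 (.cons 0x4389056721 (.cons 0x9834056721 .nil)) .done .done) .done) .done)) .done)) .done)) .done)) (.node 2 6 .nil (.node 0 3 (.cons 0x7890345621 .nil) (.node 5 9 (.cons 0x4598761032 (.cons 0x4598761230 .nil)) (.node 1 5 (.cons 0x8760951234 .nil) (.node 4 7 (.cons 0x3478906512 (.cons 0x9867450321 (.cons 0x4786095123 (.cons 0x5126098743 (.cons 0x2347895160 .nil))))) .done .done) (.node 4 7 (.cons 0x5987432160 (.cons 0x9867450321 (.cons 0x9547861230 (.cons 0x5987430612 .nil)))) (.leaf 0x6123478950 1 .done) .done)) (.node 1 3 (.cons 0x2134567890 .nil) (.node 0 8 (.cons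 0x9087654312 (.cons 0x9087621345 .nil)) (.node 1 8 (.cons 0x9021876543 (.cons 0x7621890543 .nil)) (.node 1 7 (.cons 0x4509867123 .nil) (.node 2 4 (.cons 0x9817624305 (.cons 0x9031786245 .nil)) (.node 0 7 (.cons 0x5670981243 .nil) .done .done) .done) .done) .done) (.node 0 7 (.cons 0x8907654312 (.cons 0x8907621345 .nil)) .done (.leaf 0x4312678905 1 (.leaf 0x2678905431 0 .done)))) .done)) (.node 4 6 (.cons 0x5467890123 .nil) (.node 3 6 .nil (.node 1 8 (.cons 0x9021876543 (.cons 0x7634509812 .nil)) (.node 0 7 (.cons 0x7098126543 (.cons 0x7098126345 .nil)) (.node 5 9 (.cons 0x8764590123 (.cons 0x4598701632 (.cons 0x7810954632 (.cons 0x7812364590 .nil)))) .done .done) (.node 2 4 (.cons 0x7650981243 (.cons 0x7890124563 .nil)) (.node 1 7 (.cons 0x4509867123 (.cons 0x8905436712 .nil)) (.node 1 5 (.cons 0x2154367890 .nil) (.node 6 9 (.cons 0x8769023451 .nil) .done (.node 0 7 (.cons 0x9078645123 (.cons 0x9812436705 (.cons 0x9870154236 .nil))) .done .done)) .done) .done) .done))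 (.node 6 9 .nil (.node 3 8 (.cons 0x9012387645 (.cons 0x7698321054 (.cons 0x7834569021 .nil))) (.node 1 8 (.cons 0x9021876543 (.cons 0x7812096543 .nil)) (.node 0 3 (.cons 0x7621890345 .nil) (.node 1 5 (.cons 0x4510987632 (.cons 0x7869032154 (.cons 0x7815436902 .nil))) .done .done) .done) .done) .done) .done)) (.node 6 9 .nil (.node 1 8 (.cons 0x9021876543 (.cons 0x7812096543 .nil)) (.node 4 7 (.cons 0x3476509812 (.cons 0x8967450123 (.cons 0x8123476905 .nil))) (.node 3 5 (.cons 0x5347621890 (.cons 0x2189674350 (.cons 0x8769012354 (.cons 0x3547869021 .nil)))) (.node 0 4 (.cons 0x9876104532 (.cons 0x7896104532 .nil)) .done .done) .done) (.node 3 6 (.cons 0x7634509812 .nil) (.node 4 8 (.cons 0x9012367845 (.cons 0x7698450123 .nil)) (.node 1 7 (.cons 0x4509867123 (.cons 0x5690217843 .nil)) (.leaf 0x9632178450 1 .done) .done) .done) .done)) .done) .done)) .done)) .done)) (.node 5 9 (.cons 0x8761234590 .nil) tc9_2_58 (.node 0 7 (.cons 0x8907612345 .nil) tc9_2_57 .done)))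 (.node 6 8 (.cons 0x7689054321 .nil) tc9_2_56 .done)))
theorem sub_c9_2_9 : root 9 refs9_2 [] 0x700000008706000000006050000000050300000000304000600004010000000010300000000302700000002018000600710 0xfe7fff3fff9fffd7ffa7ffedfff5ff73fff9fe3d 9 0 6 .nil uc9_2_9 = true := by decide +kernel
noncomputable def tc9_2_60 : T := (.node 1 6 (.cons 0x5432167890 (.cons 0x8907612345 .nil)) (.node 0 3 (.cons 0x9870345612 .nil) (.node 5 9 (.cons 0x8954321670 (.cons 0x6123459870 .nil)) (.leaf 0x3459870612 0 (.node 1 5 (.cons 0x8951670234 (.cons 0x9870615432 .nil)) (.node 4 6 (.cons 0x5467890123 (.cons 0x8764320951 .nil)) (.leaf 0x9510234678 0 .done) .done) (.node 4 6 (.cons 0x5467890123 .nil) (.leaf 0x2164598703 0 (.node 1 8 (.cons 0x7654309812 .nil) (.node 2 9 (.cons 0x9234506187 (.cons 0x7061892345 (.cons 0x3456129870 .nil))) .done (.leaf 0x2189546703 1 (.leaf 0x9546703218 0 .done))) .done)) .done))) .done) (.node 4 6 (.cons 0x5467890123 .nil) (.node 5 9 (.cons 0x8761234590 (.cons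 0x8954670123 (.cons 0x3465987021 .nil))) (.node 1 5 (.cons 0x1598764320 (.cons 0x6432078951 .nil)) (.node 1 3 (.cons 0x2134567890 (.cons 0x8907654312 (.cons 0x2078956431 .nil))) (.node 3 9 (.cons 0x5467893210 (.cons 0x8932107645 (.cons 0x5643987021 .nil))) .done .done) (.leaf 0x6432015987 1 .done)) (.node 0 3 (.cons 0x8954670321 (.cons 0x6459870321 .nil)) .done .done)) (.node 5 8 (.cons 0x7645890123 (.cons 0x9854670123 (.cons 0x9078543216 .nil))) (.node 2 9 (.cons 0x1678543290 (.cons 0x8543290761 (.cons 0x8709216543 .nil))) (.node 1 3 (.cons 0x4587613290 (.cons 0x1329854670 (.cons 0x8907654312 (.cons 0x6132907854 .nil)))) (.node 1 4 (.cons 0x5678902143 (.cons 0x5892314670 (.cons 0x6145870923 .nil))) (.node 2 8 (.cons 0x9056782134 (.cons 0x9285076413 (.cons 0x9078216543 .nil))) .done .done) .done) .done) (.node 5 9 (.cons 0x8761234590 (.cons 0x8709543216 .nil)) (.node 6 8 (.cons 0x1234598670 .nil) (.leaf 0x9543210768 0 (.leaf 0x7689543210 1 .done)) (.node 2 8 (.cons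 0x1678234590 (.cons 0x3289546701 (.cons 0x9078216543 .nil))) .done .done)) .done)) .done)) (.node 6 9 (.cons 0x8769054321 .nil) (.node 1 8 (.cons 0x9054321876 (.cons 0x5432189670 .nil)) (.node 2 7 (.cons 0x3456981270 (.cons 0x8127096543 .nil)) (.node 5 7 (.cons 0x6981234570 .nil) (.node 2 6 (.cons 0x9057816234 (.cons 0x1896234570 (.cons 0x9078126543 .nil))) .done .done) .done) (.node 0 8 .nil (.node 1 3 (.cons 0x2134567890 (.cons 0x9807654312 (.cons 0x9087654312 (.cons 0x7089654312 .nil)))) .done (.node 1 7 (.cons 0x3456980712 .nil) (.node 5 8 (.cons 0x8543217690 (.cons 0x1234589670 .nil)) (.node 4 8 (.cons 0x5843209671 (.cons 0x5489670123 .nil)) .done (.leaf 0x2176908543 0 .done)) .done) .done)) .done)) (.node 1 3 (.cons 0x2134567890 (.cons 0x8907654312 .nil)) (.node 2 9 (.cons 0x8921345670 (.cons 0x6543129870 .nil)) (.node 0 8 (.cons 0x4508769213 .nil) (.leaf 0x5431290876 0 .done) .done) (.node 2 9 (.cons 0x8765431290 (.cons 0x8709213456 .nil)) (.node 0 8 (.cons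 0x9087654312 .nil) (.leaf 0x5431298076 0 (.leaf 0x4312980765 1 .done)) .done) (.node 0 3 (.cons 0x4569870312 .nil) (.node 2 8 (.cons 0x7654309821 (.cons 0x7031289654 .nil)) (.leaf 0x7096543128 0 (.node 4 9 (.cons 0x8761234905 .nil) (.node 6 8 (.cons 0x5498670123 .nil) (.node 1 7 (.cons 0x3170654982 (.cons 0x7132860945 (.cons 0x5430986712 .nil))) .done .done) (.node 6 8 (.cons 0x7861234905 (.cons 0x9432168705 .nil)) .done (.leaf 0x8213076549 0 (.leaf 0x5670312894 1 .done)))) .done)) .done) .done))) .done)) .done))) (.node 0 8 .nil (.node 1 6 (.cons 0x5432167890 (.cons 0x9087612345 .nil)) (.node 4 6 (.cons 0x5467890123 .nil) (.node 5 9 (.cons 0x8764590123 (.cons 0x7612345980 .nil)) (.node 1 5 (.cons 0x7895160234 .nil) (.node 4 7 (.cons 0x3478956120 (.cons 0x9802156743 (.cons 0x9802347615 .nil))) .done .done) (.node 1 5 (.cons 0x8764320951 (.cons 0x7615980234 (.cons 0x9516432087 .nil))) .done (.node 0 3 (.cons 0x7612308954 (.cons 0x9546123087 .nil)) .done .done)))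 (.node 0 4 .nil (.node 3 5 (.cons 0x4356789021 (.cons 0x9801235467 (.cons 0x9876104532 (.cons 0x9804532167 .nil)))) (.node 6 9 (.cons 0x8769054321 (.cons 0x5340789612 (.cons 0x7896123540 .nil))) .done .done) (.node 0 3 .nil (.node 2 9 (.cons 0x8921670345 (.cons 0x3456780921 (.cons 0x7892165430 (.cons 0x7892165403 .nil)))) .done (.node 5 7 (.cons 0x9875612043 (.cons 0x9803216754 .nil)) (.node 6 9 (.cons 0x8769054321 (.cons 0x4576980321 .nil)) (.leaf 0x8967543210 1 .done) (.node 5 9 (.cons 0x8954307612 (.cons 0x7612345980 (.cons 0x7598023461 (.cons 0x7612308954 .nil)))) .done .done)) .done)) .done)) .done)) (.node 6 9 (.cons 0x8769054321 .nil) (.node 1 5 (.cons 0x8769051234 (.cons 0x9678051234 .nil)) (.node 4 6 (.cons 0x5467890123 (.cons 0x9643215087 (.cons 0x7809643215 .nil))) .done .done) (.node 4 6 (.cons 0x5467890123 .nil) (.node 1 9 (.cons 0x7805469123 (.cons 0x9123467805 .nil)) (.node 3 5 (.cons 0x9876453210 (.cons 0x4356789120 (.cons 0x8912076435 (.cons 0x7891064532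 (.cons 0x2354678910 .nil))))) .done (.node 3 6 (.cons 0x8763450912 (.cons 0x5436780912 .nil)) (.node 6 8 .nil (.node 7 9 (.cons 0x5432167980 (.cons 0x8679054321 .nil)) (.leaf 0x2345097861 0 (.leaf 0x4321679805 0 .done)) .done) .done) .done)) (.node 1 5 (.cons 0x7809645123 .nil) (.node 3 8 (.cons 0x7832154690 (.cons 0x9015467832 .nil)) (.node 5 9 (.cons 0x6702159834 (.cons 0x4695120783 (.cons 0x8764320951 .nil))) .done (.node 2 4 (.cons 0x9056783421 (.cons 0x9876015423 (.cons 0x7651243890 (.cons 0x5124690783 .nil)))) .done .done)) (.node 0 3 (.cons 0x7698032154 (.cons 0x9645123087 .nil)) .done .done)) .done)) .done)) (.node 6 9 (.cons 0x8769054321 .nil) (.node 1 7 (.cons 0x5432176980 (.cons 0x8096712345 .nil)) (.node 0 3 (.cons 0x8903456712 (.cons 0x6543098712 .nil)) .done .done) (.node 6 8 .nil (.node 1 7 (.cons 0x5432176890 (.cons 0x9086712345 .nil)) (.node 1 5 (.cons 0x8906715432 (.cons 0x6098715432 (.cons 0x9806715432 .nil))) .done (.node 0 3 (.cons 0x9803456712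 (.cons 0x9687123054 .nil)) .done .done)) (.node 1 8 (.cons 0x4509678123 .nil) (.node 1 9 (.cons 0x9123450867 .nil) (.node 0 3 (.cons 0x5430768912 (.cons 0x7869123054 .nil)) .done (.node 3 6 (.cons 0x8763450912 (.cons 0x5436780912 .nil)) (.node 1 3 (.cons 0x2134567890 (.cons 0x9087654312 .nil)) (.node 2 5 (.cons 0x2543198760 (.cons 0x7634521980 (.cons 0x7608913452 (.cons 0x7089631254 (.cons 0x9807631254 .nil))))) .done .done) .done) .done)) (.node 1 9 (.cons 0x9123450867 .nil) (.node 0 3 (.cons 0x5430768912 (.cons 0x7869123054 .nil)) .done (.node 2 6 (.cons 0x9126870543 (.cons 0x7809126543 .nil)) (.node 2 9 (.cons 0x7860543291 .nil) .done .done) .done)) .done)) .done)) .done)) .done))) (.node 0 3 .nil (.node 0 4 .nil (.node 1 5 (.cons 0x9876512034 (.cons 0x9876512043 .nil)) (.node 6 8 (.cons 0x9867034512 (.cons 0x7689043215 (.cons 0x7689032154 .nil))) .done (.node 1 3 (.cons 0x2134567890 (.cons 0x5678904312 (.cons 0x9876540312 .nil))) (.node 2 8 (.cons 0x9031287654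 (.cons 0x9043128765 .nil)) (.node 5 9 (.cons 0x8765902134 (.cons 0x6703459821 (.cons 0x9567820431 (.cons 0x9540678231 .nil)))) .done .done) (.node 2 8 (.cons 0x7654312890 (.cons 0x9821304567 .nil)) .done .done)) .done)) (.node 4 6 (.cons 0x5467890123 .nil) (.node 1 5 (.cons 0x9876512034 .nil) (.node 3 9 (.cons 0x8934670215 (.cons 0x7893465120 (.cons 0x2398764510 .nil))) (.node 2 4 (.cons 0x8765093421 (.cons 0x8765124390 (.cons 0x7893246015 .nil))) .done .done) (.node 2 8 (.cons 0x7609823451 (.cons 0x9821543076 (.cons 0x9821546703 .nil))) .done (.node 2 7 (.cons 0x6098723451 (.cons 0x9872306451 .nil)) (.node 1 9 (.cons 0x8912765430 (.cons 0x4306519872 (.cons 0x6034519872 .nil))) (.node 3 5 (.cons 0x4356789120 (.cons 0x8910672354 (.cons 0x2354678910 .nil))) .done .done) (.leaf 0x1564309872 0 .done)) .done))) (.node 2 4 (.cons 0x9876542103 .nil) (.node 3 9 (.cons 0x8765093421 .nil) (.leaf 0x6542103987 0 (.leaf 0x5678930124 1 (.node 1 5 (.cons 0x8764510932 (.cons 0x6789324510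 .nil)) (.leaf 0x9342015678 1 (.leaf 0x8934201567 0 .done)) .done))) (.node 1 6 (.cons 0x5432167890 (.cons 0x7890342165 .nil)) (.node 5 9 (.cons 0x8764590123 (.cons 0x8954307612 (.cons 0x7895612034 (.cons 0x4598761032 (.cons 0x4598761230 .nil))))) .done (.node 5 8 (.cons 0x7612345890 (.cons 0x9854307612 (.cons 0x7612309854 .nil))) (.node 1 5 (.cons 0x9023467851 (.cons 0x9876512034 .nil)) (.node 1 9 (.cons 0x5876432091 .nil) (.leaf 0x3467851902 0 (.leaf 0x4678519023 1 .done)) .done) .done) .done)) .done)) .done)) .done)) (.node 0 4 .nil (.node 2 8 (.cons 0x7654309821 .nil) (.node 7 9 (.cons 0x1289765430 (.cons 0x3045679821 .nil)) (.leaf 0x2897654301 0 (.leaf 0x5679821034 0 .done)) (.node 1 3 (.cons 0x2134567890 (.cons 0x9821304567 (.cons 0x9045678213 (.cons 0x5678904312 .nil)))) (.node 3 5 (.cons 0x4356789021 (.cons 0x9876534021 .nil)) (.node 1 6 (.cons 0x5432167890 (.cons 0x9876104532 (.cons 0x9045328761 .nil))) (.node 5 7 (.cons 0x6578902134 (.cons 0x9823160457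 (.cons 0x8904576123 .nil))) .done (.node 2 7 (.cons 0x6543127890 .nil) (.leaf 0x4356127890 1 (.leaf 0x435612789 0 .done)) .done)) .done) .done) .done)) .done) .done)) .done)) .done))
noncomputable def tc9_2_61 : T := (.node 4 6 (.cons 0x5467890123 .nil) (.node 1 5 (.cons 0x9023467851 .nil) (.node 5 9 (.cons 0x8764590123 .nil) (.node 1 9 (.cons 0x7859164320 .nil) (.node 3 5 (.cons 0x4356789021 .nil) (.node 2 5 .nil (.node 0 3 (.cons 0x7895612034 (.cons 0x9876103254 .nil)) (.node 0 4 (.cons 0x2198765340 (.cons 0x6789125340 (.cons 0x9876104523 .nil))) .done .done) .done) .done) (.leaf 0x6432091587 0 .done)) .done) (.node 1 9 (.cons 0x5876432091 .nil) (.node 5 9 (.cons 0x8764590123 .nil) .done (.leaf 0x3467851902 0 (.leaf 0x4678519023 1 .done))) .done)) (.node 6 9 (.cons 0x8769054321 .nil) (.node 1 5 (.cons 0x8769051234 .nil) (.node 5 9 .nil (.node 0 7 (.cons 0x9851670234 (.cons 0x8951670234 .nil)) (.leaf 0x4615987023 0 .done) (.node 2 5 (.cons 0x3254678901 .nil) (.node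 3 5 (.cons 0x2354678901 .nil) .done .done) .done)) (.node 5 9 (.cons 0x7895164320 .nil) (.node 2 5 (.cons 0x3254678901 .nil) (.node 3 5 (.cons 0x2354678901 .nil) .done .done) .done) .done)) (.node 2 6 .nil (.node 1 3 (.cons 0x2134567890 (.cons 0x9013267854 (.cons 0x7623109854 (.cons 0x1326457890 .nil)))) (.node 0 4 (.cons 0x5678904312 (.cons 0x5789046231 .nil)) (.node 1 4 (.cons 0x8769054123 (.cons 0x9014587623 (.cons 0x4132675890 (.cons 0x7589062314 .nil)))) .done .done) .done) (.node 2 7 .nil (.node 1 3 (.cons 0x2134567890 (.cons 0x6723109854 (.cons 0x6543127890 .nil))) (.leaf 0x7231098546 0 (.node 0 4 (.cons 0x5678904312 (.cons 0x9613278504 .nil)) (.node 1 5 (.cons 0x9043158762 (.cons 0x8901546723 (.cons 0x4096278513 .nil))) .done .done) .done)) (.node 3 6 .nil (.node 0 3 (.cons 0x9872103654 .nil) (.node 2 4 (.cons 0x9876103245 (.cons 0x7632458901 (.cons 0x9872456301 .nil))) .done .done) (.node 6 8 .nil (.node 3 9 (.cons 0x4589327601 (.cons 0x9327864501 .nil))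 (.node 0 4 (.cons 0x8932167540 (.cons 0x7210456893 (.cons 0x5401276893 .nil))) .done (.node 4 9 (.cons 0x3267854901 (.cons 0x8672394501 (.cons 0x6872394501 .nil))) (.leaf 0x5016872394 0 .done) .done)) .done) .done)) .done)) .done)) .done)) .done)) (.node 5 9 (.cons 0x8761234590 .nil) (.node 3 5 (.cons 0x4356789021 .nil) (.node 2 5 .nil (.node 4 9 (.cons 0x6789453210 (.cons 0x3490258761 (.cons 0x8761094523 .nil))) (.node 3 6 (.cons 0x7854901632 (.cons 0x7852361094 (.cons 0x4523678901 .nil))) .done .done) (.node 1 5 .nil (.node 2 9 (.cons 0x1678543290 .nil) (.node 6 9 (.cons 0x8769054321 (.cons 0x8769051234 .nil)) (.node 4 8 (.cons 0x9845321067 (.cons 0x9678432051 (.cons 0x4875169023 (.cons 0x9843512067 .nil)))) .done .done) .done) .done) .done)) (.node 2 5 .nil (.node 1 7 (.cons 0x2345890671 (.cons 0x4325890671 (.cons 0x8906712543 .nil))) (.node 1 5 (.cons 0x9851760234 .nil) .done .done) (.node 1 5 .nil (.node 4 6 (.cons 0x5467890123 .nil) (.node 0 3 (.cons 0x9876451032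 .nil) (.leaf 0x6430215987 0 .done) (.node 0 3 (.cons 0x9876452301 .nil) (.node 1 9 (.cons 0x3467891520 .nil) (.leaf 0x2519876430 0 (.leaf 0x7891520346 0 .done)) .done) .done)) .done) .done)) .done)) (.node 4 6 (.cons 0x7859023461 .nil) (.node 2 6 .nil (.node 0 3 (.cons 0x7895643021 (.cons 0x7890345621 (.cons 0x7895462301 .nil))) .done (.node 6 8 (.cons 0x7861234590 .nil) (.node 3 6 (.cons 0x7895463210 .nil) (.node 6 9 (.cons 0x8769054321 .nil) .done .done) .done) .done)) (.node 3 5 (.cons 0x2354678901 .nil) (.node 2 5 (.cons 0x3254678901 .nil) (.node 1 5 .nil (.node 2 9 (.cons 0x1678543290 .nil) (.node 3 8 (.cons 0x7645238901 (.cons 0x9023875164 (.cons 0x4678329051 .nil))) .done .done) .done) .done) (.node 2 5 (.cons 0x3254678901 .nil) (.node 1 5 .nil (.node 4 7 (.cons 0x8901235476 (.cons 0x6478951023 (.cons 0x8902153476 .nil))) (.node 1 9 (.cons 0x8519023476 (.cons 0x8519067432 (.cons 0x3467891520 .nil))) .done .done) .done) .done) .done)) .done)) .done)) (.node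 6 9 (.cons 0x8769054321 .nil) (.node 4 6 (.cons 0x5467890123 .nil) (.node 3 6 .nil (.node 4 8 (.cons 0x7548906321 .nil) (.node 3 5 (.cons 0x9845321067 (.cons 0x7653489021 (.cons 0x7532160984 .nil))) .done (.node 1 4 (.cons 0x9058761432 (.cons 0x9014587632 (.cons 0x6321457890 .nil))) (.node 3 8 (.cons 0x7563890214 (.cons 0x9057638412 .nil)) (.leaf 0x6754120983 0 .done) .done) .done)) (.node 5 9 (.cons 0x8763210954 .nil) (.node 4 9 (.cons 0x2367854901 .nil) (.node 2 6 (.cons 0x7850943261 .nil) (.node 2 9 (.cons 0x4587632901 .nil) .done .done) (.node 4 8 (.cons 0x9012367845 .nil) (.node 7 9 (.cons 0x7958463201 .nil) (.leaf 0x1097845632 0 .done) .done) .done)) (.node 6 8 (.cons 0x7863210954 .nil) (.node 2 6 .nil (.node 0 3 (.cons 0x7895643021 (.cons 0x7890345621 (.cons 0x7895462301 .nil))) .done .done) .done) .done)) .done)) (.node 5 9 (.cons 0x8764590123 .nil) (.node 1 5 (.cons 0x9023467851 .nil) (.node 3 5 (.cons 0x4356789021 .nil) (.node 2 5 .nil (.node 0 4 (.cons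 0x7890435612 (.cons 0x7896152340 (.cons 0x5216789043 (.cons 0x9876152340 .nil)))) .done .done) .done) (.node 1 9 (.cons 0x5876432091 .nil) (.leaf 0x4678519023 1 .done) .done)) (.node 1 5 (.cons 0x9023467851 .nil) (.node 3 5 (.cons 0x4356789021 .nil) (.node 2 5 .nil (.node 0 4 (.cons 0x8759046123 (.cons 0x7896152340 (.cons 0x5216789043 (.cons 0x9876152340 .nil)))) .done .done) .done) (.node 1 9 (.cons 0x5876432091 .nil) (.leaf 0x6432091587 0 .done) .done)) .done)) .done)) (.node 2 9 (.cons 0x4329058761 .nil) (.node 6 8 .nil (.node 1 7 (.cons 0x2345890671 (.cons 0x1768543290 (.cons 0x8671290543 .nil))) (.node 1 4 (.cons 0x3417658920 (.cons 0x7685410923 (.cons 0x3214576890 (.cons 0x7869054123 (.cons 0x9205867143 .nil))))) .done .done) (.node 1 8 (.cons 0x4509678123 .nil) (.node 3 8 (.cons 0x4509678321 .nil) (.node 1 9 (.cons 0x4387650912 .nil) (.node 2 6 (.cons 0x8762190543 .nil) (.node 3 6 (.cons 0x8763450912 .nil) (.node 4 6 (.cons 0x5467890123 .nil) .done .done)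 .done) .done) .done) (.node 4 8 .nil (.node 3 5 (.cons 0x4356789021 (.cons 0x9845321067 (.cons 0x7653489021 (.cons 0x7532160984 .nil)))) .done (.node 0 8 .nil (.node 1 7 (.cons 0x2345890671 (.cons 0x3456712980 (.cons 0x8092176543 .nil))) .done .done) .done)) .done)) .done)) (.node 6 8 .nil (.node 1 7 (.cons 0x2345890671 (.cons 0x3456871290 (.cons 0x6871290543 .nil))) (.node 0 3 (.cons 0x9687123054 (.cons 0x4503296871 .nil)) (.node 1 4 (.cons 0x9058761432 (.cons 0x2309678541 (.cons 0x3214576890 (.cons 0x7145896032 .nil)))) (.leaf 0x5768903214 0 .done) .done) .done) (.node 4 6 (.cons 0x7850923461 .nil) (.node 5 9 (.cons 0x8764590123 .nil) (.node 1 9 (.cons 0x5876432091 .nil) (.node 2 6 (.cons 0x8762190543 .nil) .done .done) .done) (.node 3 6 .nil (.node 1 7 (.cons 0x2345890671 (.cons 0x5463298710 (.cons 0x6329017854 (.cons 0x9217863450 .nil)))) .done (.node 5 9 (.cons 0x8763210954 .nil) (.node 1 9 (.cons 0x7864501923 .nil) (.node 2 6 (.cons 0x8762190543 .nil) .done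 .done) .done) .done)) .done)) .done)) .done)) .done)) .done)))
noncomputable def tc9_2_62 : T := (.node 7 9 (.cons 0x1234589760 .nil) (.leaf 0x6798543210 1 (.node 0 7 .nil (.node 6 9 (.cons 0x8769054321 .nil) (.leaf 0x7698543210 1 (.node 4 9 (.cons 0x3498567021 .nil) (.node 1 3 (.cons 0x2134589760 (.cons 0x5678943120 (.cons 0x7658943120 (.cons 0x6079854312 (.cons 0x8765094312 .nil))))) (.node 3 8 (.cons 0x4576098321 (.cons 0x6578312094 .nil)) (.leaf 0x2389457601 1 (.leaf 0x9457601238 0 .done)) .done) (.node 1 6 (.cons 0x5432167890 (.cons 0x8945706123 (.cons 0x5870234961 (.cons 0x4985706123 .nil)))) .done .done)) (.node 0 3 (.cons 0x4589670321 .nil) (.node 1 6 (.cons 0x5432167890 (.cons 0x9870345612 (.cons 0x9612307854 .nil))) (.node 4 9 (.cons 0x9432167850 (.cons 0x5894321670 (.cons 0x4985706123 .nil))) (.leaf 0x7612349058 0 .done) .done) (.node 3 5 (.cons 0x4358976021 .nil) (.node 1 4 (.cons 0x6798534120 (.cons 0x3214589670 (.cons 0x7069854123 (.cons 0x4120769853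 .nil)))) (.node 2 5 (.cons 0x9876520341 (.cons 0x6987032541 .nil)) .done (.leaf 0x7698541230 0 .done)) (.node 1 6 (.cons 0x5432167890 (.cons 0x4532169870 (.cons 0x8709612354 (.cons 0x4358970612 .nil)))) .done .done)) .done)) .done))) (.node 0 3 .nil (.node 4 7 (.cons 0x9854760123 .nil) (.node 1 5 (.cons 0x6798512034 (.cons 0x9874302156 .nil)) (.node 5 9 (.cons 0x8956743021 (.cons 0x6598743021 .nil)) (.node 1 6 (.cons 0x4598761032 (.cons 0x8761590234 .nil)) (.node 2 5 (.cons 0x8907615234 (.cons 0x7985216034 .nil)) .done .done) .done) .done) (.node 1 9 (.cons 0x7658912034 (.cons 0x9120347856 .nil)) (.leaf 0x6745891230 1 (.node 2 4 (.cons 0x8765091243 (.cons 0x5678912430 (.cons 0x7658912430 .nil))) (.node 1 6 (.cons 0x5432167890 (.cons 0x5619870342 (.cons 0x9165870342 .nil))) .done .done) .done)) .done)) (.node 4 7 (.cons 0x9854760123 .nil) (.node 2 7 (.cons 0x6543098721 .nil) (.node 1 7 (.cons 0x9854321760 .nil) (.node 2 4 (.cons 0x6034217985 .nil) (.leaf 0x1798560342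 1 (.node 3 7 (.cons 0x6542109873 .nil) .done .done)) .done) .done) (.node 2 7 (.cons 0x6543098721 .nil) (.node 1 7 (.cons 0x9854321760 .nil) (.node 2 4 (.cons 0x6034217985 .nil) (.leaf 0x1798560342 1 (.node 3 7 (.cons 0x6542109873 .nil) .done .done)) .done) .done) .done)) .done)) .done)) (.node 1 5 (.cons 0x4320679851 .nil) (.node 4 6 (.cons 0x1589764320 .nil) (.node 5 9 .nil (.node 0 3 (.cons 0x8976451032 (.cons 0x7895643021 .nil)) (.leaf 0x4678951203 0 .done) (.node 2 5 .nil (.node 0 3 (.cons 0x7895643021 (.cons 0x9876452301 .nil)) (.node 1 8 (.cons 0x5189764320 (.cons 0x7981064523 (.cons 0x4603257981 (.cons 0x3467981520 .nil)))) .done .done) .done) .done)) (.leaf 0x5897643201 1 (.leaf 0x8510234679 0 .done))) (.node 6 9 (.cons 0x8769054321 .nil) (.node 4 9 (.cons 0x1234967850 .nil) (.leaf 0x5876943210 1 (.leaf 0x8501234967 0 (.node 1 9 (.cons 0x4321967850 .nil) (.node 5 9 .nil (.node 1 6 (.cons 0x5432167890 (.cons 0x8761205943 (.cons 0x3495876120 .nil))) .done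 .done) .done) .done))) (.node 1 8 (.cons 0x4509678123 .nil) (.node 2 5 .nil (.node 4 6 (.cons 0x5467890123 (.cons 0x7981523460 (.cons 0x6432518790 (.cons 0x3254678901 .nil)))) .done (.node 5 9 .nil (.node 1 6 (.cons 0x5432167890 (.cons 0x8761234590 .nil)) (.node 0 3 (.cons 0x7652189034 (.cons 0x7895612034 (.cons 0x4598761032 .nil))) .done .done) .done) .done)) (.node 2 5 (.cons 0x7609812543 .nil) (.node 5 9 .nil (.node 0 7 (.cons 0x6709812543 .nil) (.node 4 7 (.cons 0x6023479851 (.cons 0x8954760123 (.cons 0x9581206743 .nil))) .done .done) .done) .done) .done)) .done)) .done)) .done))) (.node 1 6 (.cons 0x5432167890 .nil) (.node 0 7 (.cons 0x9854321607 .nil) (.node 7 9 (.cons 0x7985432160 .nil) (.node 1 7 (.cons 0x8906712345 .nil) (.node 1 5 .nil (.node 4 6 (.cons 0x5467890123 (.cons 0x6432158790 (.cons 0x8517906432 .nil))) .done (.node 0 8 .nil (.node 2 4 (.cons 0x5897061243 (.cons 0x3421567980 (.cons 0x8097651243 (.cons 0x6580971243 (.cons 0x9780561243 .nil)))))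 .done (.node 0 4 (.cons 0x5167980432 .nil) (.node 0 3 (.cons 0x9875403216 .nil) .done .done) .done)) .done)) .done) (.node 1 5 (.cons 0x7985160234 .nil) (.node 0 8 (.cons 0x2345167980 .nil) (.leaf 0x6154320897 0 .done) .done) .done)) (.node 7 9 (.cons 0x7985432160 .nil) (.leaf 0x3458970612 1 (.node 0 3 (.cons 0x7985430612 .nil) (.node 2 7 (.cons 0x9872165430 .nil) (.node 1 5 (.cons 0x8972154306 .nil) (.node 1 9 (.cons 0x6072345891 .nil) (.leaf 0x4327061985 0 (.leaf 0x3270619854 1 .done)) .done) (.leaf 0x1603458972 0 .done)) .done) .done)) .done)) (.node 0 7 (.cons 0x9078543216 .nil) (.node 0 8 (.cons 0x9087612345 .nil) (.node 1 5 (.cons 0x9087615432 .nil) (.node 0 3 (.cons 0x9876512034 .nil) (.node 0 4 (.cons 0x9876512043 .nil) .done .done) (.node 5 9 (.cons 0x8761234590 .nil) (.node 4 8 (.cons 0x5902348761 .nil) (.node 7 9 (.cons 0x3489765120 .nil) (.node 0 3 (.cons 0x2156798430 .nil) (.node 0 4 (.cons 0x3409785612 .nil) .done .done) .done) (.leaf 0x951678432 0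 .done)) .done) .done)) .done) (.node 0 8 (.cons 0x9087612345 .nil) (.node 5 9 (.cons 0x8761234590 .nil) (.node 2 5 (.cons 0x9087612543 .nil) (.node 2 6 (.cons 0x9078543261 .nil) (.node 2 8 (.cons 0x8234590761 .nil) .done .done) .done) (.node 0 4 .nil (.node 1 5 (.cons 0x8761590234 (.cons 0x9876512043 .nil)) (.node 2 8 (.cons 0x1678234590 (.cons 0x9540167823 .nil)) (.leaf 0x951678234 0 .done) .done) (.node 0 3 .nil (.node 1 4 (.cons 0x8906754123 (.cons 0x6789541032 (.cons 0x8903214576 .nil))) (.node 2 6 (.cons 0x9078543261 (.cons 0x4598762301 (.cons 0x5412678903 .nil))) .done .done) .done) .done)) .done)) .done) .done)) (.node 1 8 (.cons 0x4576098123 .nil) (.node 6 9 (.cons 0x9678123450 .nil) (.node 1 5 (.cons 0x9678150234 .nil) (.node 5 9 (.cons 0x4320596781 .nil) .done .done) (.node 1 7 (.cons 0x8906712345 .nil) (.node 6 8 (.cons 0x9068543217 .nil) (.node 2 7 (.cons 0x9068543271 .nil) (.node 3 8 (.cons 0x4509678321 .nil) (.node 1 5 .nil (.node 0 4 (.cons 0x6904587123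 (.cons 0x9834065127 (.cons 0x9834067215 (.cons 0x5167890432 .nil)))) .done (.node 0 8 (.cons 0x9086715432 .nil) (.node 4 8 (.cons 0x7651209843 .nil) .done .done) .done)) .done) .done) .done) (.node 0 7 .nil (.node 7 9 (.cons 0x5432189760 .nil) (.node 4 6 (.cons 0x5467890123 (.cons 0x5897064321 (.cons 0x9706432185 .nil))) (.node 2 9 (.cons 0x7850923461 (.cons 0x6432970581 (.cons 0x3296450781 .nil))) .done .done) (.leaf 0x798123456 1 .done)) (.node 0 3 (.cons 0x9678123054 .nil) (.node 7 9 (.cons 0x5432189760 .nil) (.node 2 5 (.cons 0x8906712543 .nil) (.node 0 4 (.cons 0x6987125403 .nil) (.node 0 8 (.cons 0x9806712543 .nil) .done .done) (.node 1 5 (.cons 0x8907615234 .nil) .done .done)) .done) .done) .done)) .done)) .done)) (.node 1 7 (.cons 0x8906712345 .nil) (.node 0 8 (.cons 0x9806712345 .nil) (.node 1 5 (.cons 0x9806715432 .nil) (.node 4 8 (.cons 0x7651209843 .nil) (.node 1 9 (.cons 0x3219845760 .nil) (.node 2 7 (.cons 0x3456089172 .nil) (.leaf 0x891723456 1 .done)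 .done) .done) .done) .done) (.node 2 7 .nil (.node 3 6 (.cons 0x9054367812 (.cons 0x9063458127 (.cons 0x9063458172 .nil))) (.node 7 9 (.cons 0x9721850634 (.cons 0x1279854360 (.cons 0x4589723601 .nil))) .done .done) (.node 2 5 (.cons 0x7609812543 .nil) (.node 5 9 (.cons 0x3459812760 .nil) (.node 0 8 (.cons 0x9580617234 .nil) (.node 1 5 (.cons 0x9806723451 .nil) (.node 3 5 (.cons 0x4356789021 .nil) .done .done) .done) .done) .done) .done)) .done)) .done)) .done))) (.node 1 6 (.cons 0x5432167890 .nil) tc9_2_61 .done)))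
noncomputable def tc9_2_63 : T := (.node 1 6 (.cons 0x5432167890 .nil) (.node 0 3 (.cons 0x9870345612 .nil) (.node 5 9 (.cons 0x4598761032 (.cons 0x8954321670 (.cons 0x6123459870 .nil))) (.node 5 8 (.cons 0x7609854321 (.cons 0x9854321607 .nil)) (.node 6 9 (.cons 0x8769054321 .nil) (.leaf 0x7698543210 1 (.leaf 0x3450789612 0 .done)) .done) .done) .done) (.node 5 8 (.cons 0x7609854321 (.cons 0x9078543216 .nil)) (.node 6 9 (.cons 0x8769054321 .nil) (.leaf 0x7698543210 1 (.leaf 0x3458709612 0 (.node 3 5 (.cons 0x4356789021 (.cons 0x8709612354 .nil)) (.node 5 9 (.cons 0x8761234590 (.cons 0x8709543216 .nil)) .done .done) .done))) (.node 5 9 (.cons 0x8761234590 (.cons 0x8709543216 .nil)) (.node 6 8 (.cons 0x1234598670 .nil) (.leaf 0x9543210768 0 (.leaf 0x7689543210 1 (.leaf 0x3459078612 0 .done))) .done) .done)) (.node 6 9 (.cons 0x8769054321 .nil) (.node 4 6 (.cons 0x5467890123 .nil) (.node 3 9 (.cons 0x5467893210 (.cons 0x8932107645 (.cons 0x5643987021 .nil))) (.node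 3 5 (.cons 0x9876453210 (.cons 0x2354698701 .nil)) (.node 4 9 (.cons 0x6789453210 (.cons 0x8943567021 (.cons 0x2165349870 .nil))) (.leaf 0x7894356120 0 .done) (.node 1 8 (.cons 0x2345096781 (.cons 0x9812076534 (.cons 0x9346507812 (.cons 0x9812076435 .nil)))) .done .done)) .done) (.node 3 5 (.cons 0x4356789021 .nil) (.node 4 9 (.cons 0x6789453210 (.cons 0x8943567021 (.cons 0x2165349870 .nil))) (.leaf 0x7894356120 0 .done) (.node 6 8 (.cons 0x7689012354 (.cons 0x9867012354 .nil)) (.node 4 8 (.cons 0x7653489021 (.cons 0x2354896701 (.cons 0x7098435612 (.cons 0x5348907612 .nil)))) (.node 2 6 (.cons 0x7623548901 (.cons 0x9845326701 .nil)) .done .done) .done) (.node 4 7 (.cons 0x2165347890 .nil) (.leaf 0x5347890216 0 (.leaf 0x9874356120 0 .done)) .done))) .done)) (.node 1 3 (.cons 0x2134567890 (.cons 0x8907654312 .nil)) (.node 2 9 (.cons 0x8923106754 (.cons 0x8921345670 (.cons 0x6543129870 .nil))) .done (.node 2 9 (.cons 0x8765431290 (.cons 0x8709213456 .nil)) (.node 5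 9 (.cons 0x8765902134 .nil) (.node 0 8 (.cons 0x9087654312 .nil) (.leaf 0x5431298076 0 (.leaf 0x4312980765 1 (.node 2 4 (.cons 0x7809561342 (.cons 0x3421659870 (.cons 0x8709561243 (.cons 0x8709654213 .nil)))) .done .done))) .done) .done) (.node 1 8 (.cons 0x2345760981 (.cons 0x4570698132 .nil)) (.node 2 4 (.cons 0x2431657890 (.cons 0x3124569870 (.cons 0x8709654213 (.cons 0x8907561342 .nil)))) (.node 3 5 (.cons 0x4356789021 (.cons 0x9816075342 (.cons 0x6189075342 .nil))) .done .done) .done) .done))) .done)) .done))) (.node 3 5 (.cons 0x4356789021 .nil) (.node 0 4 (.cons 0x9876534021 .nil) (.node 5 8 (.cons 0x7609854321 .nil) (.node 1 5 .nil (.node 4 8 (.cons 0x9845321067 (.cons 0x9843206751 (.cons 0x9843512067 .nil))) (.node 4 9 (.cons 0x6789453210 (.cons 0x8943512076 (.cons 0x6789435120 .nil))) .done .done) (.node 5 9 .nil (.node 1 4 (.cons 0x9876534120 (.cons 0x8957602341 (.cons 0x8765902143 (.cons 0x6789534120 .nil)))) .done (.node 2 5 .nil (.node 1 8 (.cons 0x2345760981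 (.cons 0x4325760981 (.cons 0x7609812543 .nil))) (.node 7 9 (.cons 0x5432189760 (.cons 0x6043257981 .nil)) .done .done) .done) .done)) .done)) (.node 3 7 (.cons 0x4589067321 .nil) (.node 4 7 .nil (.node 1 5 (.cons 0x8902156743 (.cons 0x6512098743 .nil)) (.node 6 9 (.cons 0x7896534021 (.cons 0x7406985321 (.cons 0x3569874021 .nil))) (.leaf 0x4021569873 0 .done) .done) (.node 1 7 (.cons 0x4589067123 .nil) (.node 0 3 (.cons 0x9854760321 .nil) (.node 0 8 .nil (.node 1 3 (.cons 0x2134567890 (.cons 0x9802134765 .nil)) (.node 2 7 (.cons 0x6543127890 (.cons 0x9806547213 .nil)) .done .done) .done) .done) .done) .done)) (.node 7 9 (.cons 0x8976012354 .nil) (.node 0 3 .nil (.node 1 4 (.cons 0x9876534120 (.cons 0x8976032145 (.cons 0x9032145876 (.cons 0x8976530214 (.cons 0x8976035412 .nil))))) .done (.node 0 8 .nil (.node 1 7 (.cons 0x4589067123 (.cons 0x9806712345 .nil)) (.node 2 9 (.cons 0x6537892104 (.cons 0x8092176543 .nil)) (.node 4 6 (.cons 0x9876453210 (.cons 0x5643780921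 (.cons 0x8064532971 .nil))) (.leaf 0x7892104653 0 .done) .done) .done) .done) .done)) .done) .done)) .done)) (.node 4 6 (.cons 0x9876453210 .nil) (.node 1 6 (.cons 0x5432167890 .nil) (.node 0 8 (.cons 0x9087612345 .nil) (.node 0 3 .nil (.node 5 8 (.cons 0x7609854321 (.cons 0x9032167854 .nil)) .done .done) .done) (.node 4 7 .nil (.node 1 5 (.cons 0x5167890432 (.cons 0x8902156743 (.cons 0x8906157432 .nil))) .done (.node 1 7 (.cons 0x8906712345 .nil) (.node 0 8 (.cons 0x9806712345 .nil) (.node 2 9 (.cons 0x9216534780 .nil) (.leaf 0x3298061754 1 (.leaf 0x3540167892 1 (.leaf 0x8061754329 0 .done))) .done) .done) .done)) .done)) (.node 1 6 (.cons 0x5432167890 .nil) (.node 2 6 (.cons 0x9876235401 .nil) (.node 0 3 .nil (.node 1 4 (.cons 0x9876534120 (.cons 0x8903267541 (.cons 0x9875416230 (.cons 0x9876214530 .nil)))) .done (.node 0 8 .nil (.node 2 9 (.cons 0x7892165430 (.cons 0x1675432980 (.cons 0x7543298061 .nil))) .done .done) .done)) .done) (.node 0 8 .nil (.node 4 9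 (.cons 0x6789453210 (.cons 0x7653498021 (.cons 0x9461087532 (.cons 0x9435087612 .nil)))) .done (.node 0 3 .nil (.node 2 4 (.cons 0x9876104235 (.cons 0x9876542103 (.cons 0x2430987561 .nil))) (.node 1 8 (.cons 0x2345760981 (.cons 0x9810324576 (.cons 0x5761890342 .nil))) .done .done) .done) .done)) .done)) .done)) .done)) (.node 4 7 (.cons 0x8901235476 .nil) (.node 5 9 (.cons 0x8954760123 .nil) (.node 1 5 .nil (.node 4 6 (.cons 0x5467890123 (.cons 0x6478951023 .nil)) (.node 3 8 (.cons 0x7438956021 (.cons 0x9512078346 (.cons 0x9021564387 (.cons 0x6438709512 (.cons 0x9015467832 .nil))))) .done .done) (.node 5 8 (.cons 0x7609854321 .nil) (.node 2 5 .nil (.node 1 6 (.cons 0x3478956120 (.cons 0x8952160743 .nil)) (.node 4 6 (.cons 0x8759023461 (.cons 0x3254678901 .nil)) .done .done) .done) .done) .done)) (.node 5 8 (.cons 0x7609854321 .nil) (.node 7 9 (.cons 0x1234589760 .nil) (.leaf 0x6798543210 1 .done) (.node 0 8 (.cons 0x9801235476 .nil) (.node 0 3 (.cons 0x8954760321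 .nil) (.node 0 4 .nil (.node 1 5 (.cons 0x9874302156 (.cons 0x9876512043 .nil)) .done .done) .done) .done) .done)) .done)) (.node 4 6 (.cons 0x5467890123 .nil) (.node 5 9 (.cons 0x8953467021 .nil) (.node 1 5 .nil (.node 0 3 (.cons 0x7895643021 (.cons 0x9876451032 .nil)) (.node 6 8 (.cons 0x3478659021 (.cons 0x6874321590 (.cons 0x6874320951 (.cons 0x9032154786 .nil)))) .done .done) (.node 1 7 (.cons 0x3465987120 .nil) (.node 2 5 (.cons 0x8952170643 .nil) (.node 5 8 (.cons 0x9853467021 .nil) .done .done) .done) .done)) (.node 7 9 (.cons 0x8976453210 .nil) (.node 1 7 (.cons 0x8902176534 .nil) (.node 3 7 .nil (.node 1 4 (.cons 0x5678902143 (.cons 0x8902143765 (.cons 0x3789564120 (.cons 0x8953764120 .nil)))) .done .done) .done) .done) .done)) (.node 1 7 (.cons 0x8901764532 .nil) (.node 0 4 .nil (.node 5 9 (.cons 0x8954321760 (.cons 0x6598712043 (.cons 0x8953204671 .nil))) .done (.node 0 8 (.cons 0x9801764532 .nil) (.node 0 3 .nil (.node 1 5 (.cons 0x9806715432 (.cons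 0x9871564302 .nil)) .done .done) .done) .done)) (.node 0 4 (.cons 0x8904356712 .nil) (.node 3 7 .nil (.node 2 8 (.cons 0x4356712890 (.cons 0x9821734065 (.cons 0x7345609821 (.cons 0x2890465371 .nil)))) .done (.node 7 9 .nil (.node 2 8 (.cons 0x4356712890 (.cons 0x3564017982 (.cons 0x1289734560 .nil))) (.leaf 0x3289017645 1 .done) (.node 2 7 .nil (.node 1 8 (.cons 0x2345760981 (.cons 0x3564027981 (.cons 0x9812734560 (.cons 0x5346720981 .nil)))) .done .done) .done)) .done)) .done) .done)) .done)) .done)) (.node 4 7 (.cons 0x6534789021 .nil) (.node 0 3 .nil (.node 5 9 (.cons 0x8954760123 (.cons 0x8956743021 (.cons 0x8954760321 .nil))) .done (.node 3 9 (.cons 0x8932106745 .nil) (.node 5 9 (.cons 0x8954760123 .nil) (.node 5 8 (.cons 0x6745893210 .nil) (.node 7 9 (.cons 0x1234589760 .nil) (.leaf 0x6798543210 1 .done) .done) .done) (.node 7 9 (.cons 0x8974356021 .nil) (.node 0 4 (.cons 0x6539874012 .nil) (.node 0 8 (.cons 0x6089745321 .nil) .done .done) .done) .done)) .done))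 (.node 1 7 (.cons 0x8906712345 .nil) (.node 3 7 .nil (.node 0 8 (.cons 0x9806712345 (.cons 0x9806543712 .nil)) (.node 1 5 (.cons 0x9806715432 (.cons 0x8902156734 .nil)) .done .done) (.node 7 9 (.cons 0x8971206534 .nil) (.node 2 7 .nil (.node 4 6 (.cons 0x8971235460 (.cons 0x6453278901 .nil)) (.node 4 8 (.cons 0x4897120653 (.cons 0x5609843721 (.cons 0x9846012735 (.cons 0x9843560271 .nil)))) .done .done) .done) .done) .done)) (.node 1 6 (.cons 0x5432167890 .nil) (.leaf 0x3561209874 0 (.node 7 9 (.cons 0x8790216534 .nil) (.node 5 9 (.cons 0x8761234590 .nil) (.node 1 5 .nil (.node 4 6 (.cons 0x5467890123 (.cons 0x8951207643 (.cons 0x8790235164 .nil))) .done (.node 0 3 (.cons 0x9876512034 .nil) (.node 0 4 (.cons 0x6534098712 .nil) (.node 0 8 (.cons 0x9087612345 .nil) .done .done) .done) .done)) .done) .done) .done)) .done)) .done)) .done))) .done))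
noncomputable def tc9_2_64 : T := (.node 1 5 .nil (.node 4 7 (.cons 0x8901235476 (.cons 0x8902153476 .nil)) (.node 3 9 (.cons 0x8932106754 (.cons 0x8743902156 .nil)) (.node 4 8 (.cons 0x7653489021 (.cons 0x6784390512 (.cons 0x9843206751 .nil))) (.node 6 9 (.cons 0x7698453210 (.cons 0x9678432051 (.cons 0x4876932150 .nil))) .done (.node 2 7 (.cons 0x6509348721 (.cons 0x8472156093 .nil)) .done .done)) (.node 4 6 (.cons 0x5467890123 (.cons 0x2398764510 .nil)) (.node 1 8 (.cons 0x6518743902 (.cons 0x9051876432 (.cons 0x4398157602 .nil))) (.node 2 4 (.cons 0x8932457601 (.cons 0x6789324510 (.cons 0x7651893420 .nil))) (.leaf 0x9342067518 0 .done) .done) .done) .done)) (.node 1 8 (.cons 0x9815743206 (.cons 0x5189067432 (.cons 0x6743518902 .nil))) (.node 6 9 (.cons 0x2354769810 (.cons 0x8769051234 (.cons 0x9678150234 (.cons 0x4769815320 .nil)))) .done .done) .done)) (.node 2 5 .nil (.node 1 8 (.cons 0x9812345760 (.cons 0x7609812543 .nil)) (.node 1 3 (.cons 0x2134567890 (.cons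 0x4312567890 .nil)) (.node 1 6 (.cons 0x5432167890 .nil) (.node 1 7 (.cons 0x8902176534 (.cons 0x8906712543 .nil)) .done .done) .done) (.node 0 7 (.cons 0x4356709812 (.cons 0x6709812534 .nil)) (.node 4 6 (.cons 0x9815706432 (.cons 0x9815234607 (.cons 0x9078152346 (.cons 0x3254678901 .nil)))) .done .done) .done)) (.node 5 8 (.cons 0x7609854321 .nil) (.node 5 9 .nil (.node 4 8 (.cons 0x7653489021 (.cons 0x3489576021 .nil)) (.leaf 0x6759843210 1 (.node 0 8 (.cons 0x9806754321 .nil) (.node 1 6 (.cons 0x5432167890 (.cons 0x7612089534 (.cons 0x8761234590 (.cons 0x7598432160 .nil)))) .done .done) .done)) .done) .done) .done)) .done)) (.node 5 8 (.cons 0x7609854321 .nil) (.node 3 8 (.cons 0x9832106754 .nil) (.node 4 8 (.cons 0x9845760123 .nil) (.node 0 8 (.cons 0x9806754321 .nil) (.node 1 8 (.cons 0x9812345760 .nil) (.node 0 4 (.cons 0x9812340675 .nil) (.node 0 3 .nil (.node 2 4 (.cons 0x9056781243 (.cons 0x9876542103 (.cons 0x9034218765 (.cons 0x9830124567 .nil)))) .done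 .done) .done) .done) .done) (.node 0 8 (.cons 0x9806754321 .nil) (.node 1 8 (.cons 0x9812345760 .nil) (.node 0 4 (.cons 0x9812340675 .nil) (.node 0 3 .nil (.node 1 5 (.cons 0x9815760432 (.cons 0x9843021576 .nil)) .done .done) .done) .done) .done) .done)) (.node 1 5 .nil (.node 4 9 (.cons 0x8945760123 (.cons 0x6783490512 (.cons 0x8943206751 .nil))) (.node 4 6 (.cons 0x5764983210 (.cons 0x7649851023 (.cons 0x9023467851 (.cons 0x2389467510 .nil)))) .done (.node 0 3 (.cons 0x6578943021 .nil) (.node 3 7 (.cons 0x8943756021 (.cons 0x8734902156 .nil)) .done .done) .done)) (.node 3 7 (.cons 0x8902156734 .nil) (.node 1 3 (.cons 0x2134567890 .nil) (.node 3 6 .nil (.node 1 4 (.cons 0x9857602341 (.cons 0x9014587632 (.cons 0x9875634120 (.cons 0x7634158902 .nil)))) .done (.node 0 3 .nil (.node 4 8 (.cons 0x9845760123 (.cons 0x9843021567 (.cons 0x9843021576 .nil))) (.node 2 7 (.cons 0x9845723601 (.cons 0x9845603127 .nil)) .done .done) .done) .done)) .done) (.node 0 7 (.cons 0x4389076512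 .nil) (.node 0 3 .nil (.node 6 8 (.cons 0x4510986732 (.cons 0x9867034512 (.cons 0x7689032154 .nil))) .done .done) .done) .done)) .done)) .done)) (.node 0 3 .nil (.node 1 6 (.cons 0x5432167890 (.cons 0x9032167854 .nil)) (.node 4 7 (.cons 0x9874356120 .nil) (.leaf 0x3561209874 0 (.leaf 0x8902165347 1 (.node 2 9 (.cons 0x1653478920 (.cons 0x1674589230 (.cons 0x7892165430 (.cons 0x4789203561 .nil)))) .done .done))) (.node 4 7 (.cons 0x2165347890 .nil) (.node 1 7 (.cons 0x4589067123 .nil) (.node 2 4 (.cons 0x9876542103 (.cons 0x6712458903 (.cons 0x9875612430 .nil))) (.leaf 0x1657890342 0 .done) .done) (.leaf 0x9874356120 0 (.node 2 4 (.cons 0x7423589061 (.cons 0x9876542103 (.cons 0x5890324761 (.cons 0x9875612430 .nil)))) (.leaf 0x1098742356 0 .done) .done))) .done)) (.node 3 9 (.cons 0x8932106754 .nil) (.node 0 4 (.cons 0x8932104576 .nil) (.node 0 8 (.cons 0x9806754321 .nil) (.node 0 7 .nil (.node 1 8 (.cons 0x9812345760 (.cons 0x2189345670 (.cons 0x6570218934 (.cons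 0x6570439812 .nil)))) .done .done) .done) (.node 0 7 .nil (.node 1 4 (.cons 0x7609854123 (.cons 0x4120765893 (.cons 0x8541239076 (.cons 0x6709854123 (.cons 0x8934120756 .nil))))) .done .done) .done)) (.node 3 8 (.cons 0x9832106754 .nil) (.node 3 7 (.cons 0x4589067321 .nil) (.node 2 8 (.cons 0x4390567821 .nil) (.node 3 6 (.cons 0x9012873654 .nil) .done .done) .done) .done) .done)) .done)) .done)) (.node 5 8 (.cons 0x7609854321 .nil) (.node 3 8 (.cons 0x9832106754 .nil) (.node 1 8 (.cons 0x9812345760 .nil) (.node 0 3 .nil (.node 2 4 (.cons 0x9056781243 (.cons 0x9876542103 (.cons 0x9034218765 (.cons 0x9830124567 (.cons 0x9812430657 .nil))))) .done (.node 2 8 .nil (.node 1 3 (.cons 0x2134567890 (.cons 0x7654312890 .nil)) (.leaf 0x4312890675 1 .done) (.node 2 7 (.cons 0x6543098721 .nil) (.node 1 7 (.cons 0x4532890671 .nil) (.node 4 7 (.cons 0x9065812743 .nil) (.node 0 4 (.cons 0x9812340675 .nil) (.node 4 8 (.cons 0x9845760123 .nil) .done .done) .done) .done) .done) .done))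 .done)) (.node 0 8 (.cons 0x9806754321 .nil) (.node 4 8 (.cons 0x9845760123 .nil) .done .done) .done)) (.node 3 7 .nil (.node 1 8 (.cons 0x9812345760 (.cons 0x5437609812 .nil)) (.node 1 5 (.cons 0x8902156734 .nil) (.node 4 9 (.cons 0x7601894532 (.cons 0x5673498120 (.cons 0x8943756021 (.cons 0x6783490512 (.cons 0x8943206751 .nil))))) .done .done) .done) (.node 3 6 .nil (.node 1 7 (.cons 0x8906712345 (.cons 0x9857120634 .nil)) (.node 4 9 (.cons 0x6587349021 (.cons 0x8945763210 (.cons 0x8736549012 (.cons 0x2175894360 (.cons 0x4985710632 .nil))))) .done .done) (.node 1 3 (.cons 0x2134567890 .nil) (.node 1 5 .nil (.node 4 7 (.cons 0x8902134765 (.cons 0x9851206347 .nil)) (.leaf 0x9021347658 0 .done) .done) (.node 2 7 (.cons 0x6543127890 .nil) (.leaf 0x5431278906 1 .done) .done)) .done)) .done)) .done)) (.node 3 7 (.cons 0x4589067321 .nil) (.node 1 7 (.cons 0x4589067123 .nil) (.node 0 3 .nil (.node 1 6 (.cons 0x5432167890 (.cons 0x9032167854 .nil)) (.node 4 9 (.cons 0x2354987610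 (.cons 0x6578943021 (.cons 0x5498761032 .nil))) (.leaf 0x6102354987 0 (.node 2 4 (.cons 0x4235890671 (.cons 0x2498530671 (.cons 0x9420358761 (.cons 0x4217658903 (.cons 0x7160358942 .nil))))) .done .done)) .done) (.node 2 7 (.cons 0x6543098721 .nil) (.node 1 6 (.cons 0x5432167890 .nil) (.node 3 6 (.cons 0x4563098721 .nil) (.node 1 3 (.cons 0x2134567890 .nil) (.node 3 9 (.cons 0x4561278930 .nil) .done .done) .done) (.node 2 6 (.cons 0x4532678901 .nil) (.node 4 6 (.cons 0x2354678901 .nil) (.node 0 4 (.cons 0x9876235401 .nil) (.node 4 7 (.cons 0x9874562103 .nil) .done .done) .done) .done) .done)) .done) .done)) (.node 0 3 .nil (.node 2 8 (.cons 0x9821760345 (.cons 0x9821754306 .nil)) (.node 3 9 (.cons 0x8210937654 (.cons 0x6093712854 (.cons 0x4390567821 .nil))) .done .done) (.node 2 7 (.cons 0x6543098721 .nil) (.node 4 7 .nil (.node 1 9 (.cons 0x8912345760 (.cons 0x8912034756 (.cons 0x8912065743 (.cons 0x6032198574 .nil)))) .done (.node 0 7 .nil (.node 2 6 (.cons 0x4532678901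 (.cons 0x9870345621 .nil)) (.node 1 6 (.cons 0x5432167890 (.cons 0x9870345612 .nil)) (.node 2 4 (.cons 0x9875612430 (.cons 0x9870342165 (.cons 0x4235890761 .nil))) (.leaf 0x1657890342 0 .done) .done) .done) .done) .done)) .done) .done)) .done)) (.node 3 8 (.cons 0x9832106754 .nil) (.node 2 8 .nil (.node 1 4 (.cons 0x2098765341 (.cons 0x9823541067 (.cons 0x9028765341 (.cons 0x5673412890 (.cons 0x9821437560 (.cons 0x9820675341 .nil)))))) .done (.node 1 7 (.cons 0x4589067123 .nil) (.leaf 0x6098217345 0 (.node 2 5 (.cons 0x9834521760 .nil) (.node 5 9 (.cons 0x7601238954 .nil) (.node 1 5 .nil (.node 4 6 (.cons 0x2354678901 (.cons 0x9820643517 (.cons 0x9028715346 (.cons 0x9834671520 .nil)))) .done .done) .done) .done) .done)) .done)) (.node 3 9 (.cons 0x8932106754 .nil) (.node 0 3 .nil (.node 4 8 (.cons 0x6754893210 (.cons 0x7654893012 (.cons 0x6754893012 .nil))) (.node 4 9 (.cons 0x4983756012 (.cons 0x6578943021 .nil)) (.node 1 4 (.cons 0x2098765341 (.cons 0x7658930214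 (.cons 0x9032145876 (.cons 0x6758941203 (.cons 0x6037589412 .nil))))) .done .done) .done) .done) .done) .done)) .done)) .done)) .done)))
noncomputable def tc9_2_65 : T := (.node 1 3 (.cons 0x2134567890 (.cons 0x7890654312 .nil)) (.node 4 9 (.cons 0x5678943120 (.cons 0x7894312065 (.cons 0x5498760132 .nil))) (.node 2 9 (.cons 0x7892134560 .nil) (.node 0 8 (.cons 0x9213450876 .nil) (.leaf 0x5431290876 0 (.node 0 7 (.cons 0x8943120765 .nil) (.leaf 0x4312980765 0 .done) .done)) (.node 0 3 (.cons 0x7892130654 .nil) (.node 0 4 (.cons 0x5406789213 .nil) (.leaf 0x9876540312 0 .done) .done) .done)) (.node 2 8 (.cons 0x7601289453 (.cons 0x9450678213 .nil)) (.node 3 6 (.cons 0x5490128763 (.cons 0x5094367821 (.cons 0x9450136782 .nil))) .done (.node 4 8 (.cons 0x7653489021 (.cons 0x9845321067 .nil)) (.node 2 9 (.cons 0x9205678431 (.cons 0x7601329845 (.cons 0x8760549213 .nil))) .done .done) .done)) .done)) (.node 2 9 (.cons 0x8765431290 .nil) (.node 4 8 (.cons 0x7653489021 (.cons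 0x9845321067 .nil)) (.node 1 7 (.cons 0x8902176534 (.cons 0x9843560217 .nil)) (.node 5 7 (.cons 0x9021348756 (.cons 0x3489217560 (.cons 0x8431756092 .nil))) (.node 1 6 (.cons 0x7548906123 .nil) (.node 1 8 (.cons 0x9054321876 .nil) (.leaf 0x9067548132 0 .done) .done) .done) (.node 5 8 (.cons 0x6712098534 (.cons 0x3458921760 (.cons 0x8543176092 .nil))) (.node 1 4 (.cons 0x5678902143 (.cons 0x7609854123 .nil)) (.node 5 9 (.cons 0x8765902134 (.cons 0x7895602143 (.cons 0x5987602341 .nil))) .done .done) .done) .done)) (.node 5 7 (.cons 0x6753489021 (.cons 0x9843576021 (.cons 0x8457609213 .nil))) (.node 1 5 (.cons 0x3489206751 .nil) (.leaf 0x2984315760 1 (.leaf 0x298431576 0 .done)) .done) (.node 5 7 (.cons 0x3298457601 (.cons 0x8457609231 .nil)) (.node 1 4 (.cons 0x5678902143 (.cons 0x9841023576 (.cons 0x6578902143 (.cons 0x8902143576 .nil)))) (.node 1 6 (.cons 0x3298457610 (.cons 0x8432905761 .nil)) .done .done) (.leaf 0x6013298457 0 .done)) .done))) (.node 5 9 (.cons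 0x8765902134 .nil) (.node 2 8 (.cons 0x6782310954 (.cons 0x4590678231 .nil)) (.node 0 7 (.cons 0x6078295431 (.cons 0x9287065431 .nil)) .done .done) (.node 0 7 (.cons 0x8709213456 .nil) (.node 1 7 (.cons 0x8902176534 .nil) (.node 0 4 (.cons 0x8954067123 (.cons 0x6045987123 (.cons 0x8713295406 .nil))) .done (.node 3 7 (.cons 0x1298734560 .nil) (.node 4 8 (.cons 0x2176534890 (.cons 0x7129843560 (.cons 0x6590213784 (.cons 0x6735489012 (.cons 0x6548731092 .nil))))) .done (.node 2 8 (.cons 0x4356712890 (.cons 0x9287310654 (.cons 0x4560928731 .nil))) .done .done)) .done)) (.node 0 3 (.cons 0x4598760321 .nil) (.node 0 8 (.cons 0x9087654312 .nil) (.node 5 7 (.cons 0x9213457806 .nil) (.node 1 4 (.cons 0x5678902143 (.cons 0x3214598760 (.cons 0x6578902143 (.cons 0x8902143576 .nil)))) (.node 1 6 (.cons 0x5432987061 (.cons 0x4309875612 .nil)) .done .done) .done) .done) .done) .done)) .done)) (.node 4 8 (.cons 0x7653489021 (.cons 0x9845321067 (.cons 0x7845609213 (.cons 0x5487609213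 (.cons 0x5487609231 .nil))))) .done .done))) (.node 2 5 (.cons 0x4312567890 (.cons 0x7890652134 .nil)) (.node 4 9 (.cons 0x8765094312 (.cons 0x7894312560 (.cons 0x5213498760 (.cons 0x3254987601 .nil)))) (.leaf 0x6013254987 0 .done) (.node 2 8 (.cons 0x9056782134 .nil) (.node 4 7 (.cons 0x8901235476 (.cons 0x9821067453 (.cons 0x9823547601 .nil))) (.leaf 0x6521347890 1 (.leaf 0x652134789 0 .done)) (.node 2 9 (.cons 0x8765092134 .nil) (.node 4 9 (.cons 0x8765094312 .nil) (.node 0 7 (.cons 0x5607894312 .nil) (.leaf 0x8943125607 0 (.node 0 4 (.cons 0x5678904312 .nil) (.leaf 0x6789043125 1 (.node 4 7 (.cons 0x8901235476 (.cons 0x8749065213 .nil)) (.leaf 0x6521347890 1 .done) .done)) .done)) (.leaf 0x1349056782 0 (.leaf 0x5094312876 0 .done))) .done) .done)) .done)) .done))) (.node 4 7 (.cons 0x6534789021 (.cons 0x9874356021 .nil)) (.node 1 7 (.cons 0x9871206534 (.cons 0x4356098712 .nil)) (.node 0 3 (.cons 0x8903456712 .nil) (.node 6 8 (.cons 0x9068745321 .nil) (.node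 1 9 (.cons 0x9123450687 (.cons 0x8743560912 (.cons 0x9120687435 .nil))) (.node 2 5 (.cons 0x7689103254 (.cons 0x8917652034 (.cons 0x9867103254 .nil))) (.leaf 0x6891743025 1 .done) .done) (.node 4 9 (.cons 0x3568749012 (.cons 0x8671234905 (.cons 0x3490568712 .nil))) (.leaf 0x8943560217 1 (.leaf 0x8749012356 0 .done)) (.leaf 0x4321768905 0 .done))) .done) (.node 4 6 (.cons 0x9871206435 .nil) (.node 6 9 (.cons 0x8743569021 .nil) (.node 2 4 (.cons 0x8742109653 (.cons 0x5342178960 .nil)) (.leaf 0x1789605342 0 .done) (.leaf 0x5321069874 0 (.node 1 8 (.cons 0x4509678123 (.cons 0x9065347812 .nil)) (.leaf 0x7435690218 1 (.node 1 4 (.cons 0x8769054123 .nil) (.node 7 9 (.cons 0x8796053214 .nil) (.leaf 0x8123456097 0 (.leaf 0x978123456 1 .done)) .done) .done)) .done))) (.node 1 5 (.cons 0x6435178902 (.cons 0x9871534602 .nil)) (.node 1 9 (.cons 0x8743560912 .nil) (.leaf 0x3560219874 0 (.node 6 8 (.cons 0x9123450687 (.cons 0x9068745321 .nil)) (.leaf 0x912354786 1 .done) .done))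 .done) .done)) .done)) (.node 1 5 (.cons 0x9874351206 .nil) (.node 1 7 (.cons 0x9871206534 (.cons 0x4356098712 .nil)) (.node 1 6 (.cons 0x5347890612 .nil) (.leaf 0x8902165347 1 (.node 0 7 (.cons 0x8907615432 .nil) .done .done)) .done) (.node 1 6 (.cons 0x5347890612 .nil) (.leaf 0x8902165347 1 (.node 1 7 (.cons 0x9871206534 (.cons 0x4356098712 .nil)) (.node 0 3 (.cons 0x8903456712 .nil) (.node 6 8 (.cons 0x9860215347 (.cons 0x2345176890 (.cons 0x4517689032 .nil))) (.leaf 0x1534768902 1 .done) .done) .done) .done)) .done)) (.node 0 7 .nil (.node 1 6 (.cons 0x5432167890 (.cons 0x9870216534 (.cons 0x8907612345 .nil))) (.node 2 9 (.cons 0x8745329016 (.cons 0x8745329061 (.cons 0x8709216543 .nil))) (.node 4 8 (.cons 0x9021653487 (.cons 0x7065348921 .nil)) (.leaf 0x6129078435 0 (.leaf 0x1290784356 1 .done)) .done) (.node 1 3 (.cons 0x2134567890 (.cons 0x8907654312 (.cons 0x9870654312 .nil))) (.node 2 8 (.cons 0x9065431287 (.cons 0x9078216534 .nil)) (.node 1 9 (.cons 0x7435602891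 (.cons 0x9134782065 (.cons 0x9160534782 (.cons 0x2891653470 .nil)))) .done (.node 1 5 (.cons 0x3289067451 (.cons 0x6153289074 (.cons 0x9823516074 .nil))) .done .done)) .done) .done)) (.node 1 7 (.cons 0x9871206534 (.cons 0x4356098712 .nil)) (.node 6 8 (.cons 0x9021786534 .nil) (.node 4 6 (.cons 0x9864710235 .nil) (.node 0 4 (.cons 0x9865340217 .nil) (.node 7 9 (.cons 0x8790645321 .nil) (.leaf 0x6897120435 0 .done) .done) .done) (.leaf 0x3568902174 0 (.leaf 0x4321768905 0 (.leaf 0x986534712 0 .done)))) (.node 4 9 (.cons 0x8712094356 .nil) (.node 3 8 (.cons 0x8349021765 (.cons 0x7601238945 .nil)) (.node 2 8 (.cons 0x5671283490 (.cons 0x9471065382 (.cons 0x7128349065 (.cons 0x2835609471 .nil)))) .done (.node 5 8 (.cons 0x2094385671 (.cons 0x2385490671 .nil)) (.leaf 0x7609458321 0 .done) .done)) (.node 4 8 (.cons 0x9021784356 .nil) (.node 5 8 (.cons 0x6587120943 (.cons 0x6094587123 .nil)) (.node 1 6 (.cons 0x9432061785 (.cons 0x5871609432 .nil)) (.node 2 9 (.cons 0x7489201653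 (.cons 0x8543290671 (.cons 0x7061298453 .nil))) .done .done) .done) (.node 2 9 (.cons 0x6092178453 .nil) (.leaf 0x1784356092 0 (.leaf 0x921784356 1 .done)) .done)) (.leaf 0x2065349871 0 .done))) .done)) .done)) .done))) (.node 5 7 (.cons 0x8906754321 .nil) (.node 6 8 (.cons 0x1234576890 .nil) (.leaf 0x7543210986 0 (.leaf 0x9867543210 1 (.node 1 4 (.cons 0x2098765341 (.cons 0x9876014532 (.cons 0x5768902341 (.cons 0x6578902143 .nil)))) (.node 5 9 (.cons 0x8675902341 (.cons 0x6875902341 (.cons 0x8760954123 .nil))) .done (.node 5 9 (.cons 0x1234598760 .nil) (.leaf 0x6021435987 0 (.leaf 0x678953412 1 (.node 0 3 (.cons 0x4598760321 .nil) (.leaf 0x5987603214 0 (.node 2 6 (.cons 0x7895412603 (.cons 0x8902675341 (.cons 0x6214578903 .nil))) (.leaf 0x987623541 1 .done) .done)) .done))) .done)) (.node 0 3 (.cons 0x4576890321 .nil) (.node 1 6 (.cons 0x9875612034 (.cons 0x9032168754 (.cons 0x4309875612 .nil))) (.node 4 8 (.cons 0x7610984532 (.cons 0x9843021657 (.cons 0x7561209843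 (.cons 0x2098435761 .nil)))) (.leaf 0x7612348905 0 .done) .done) .done) .done)))) (.node 3 9 (.cons 0x8932106754 (.cons 0x4398756021 .nil)) (.node 4 9 (.cons 0x8945760123 (.cons 0x3498756021 .nil)) (.node 0 4 (.cons 0x8932104576 (.cons 0x6578934021 .nil)) (.node 1 5 (.cons 0x6021578943 .nil) (.node 1 6 (.cons 0x5401678932 (.cons 0x8761534902 (.cons 0x5167890432 .nil))) (.leaf 0x3987561204 0 .done) (.leaf 0x3987651204 0 .done)) .done) (.node 1 5 (.cons 0x8943206751 (.cons 0x6023498751 .nil)) (.node 1 3 (.cons 0x5498760132 (.cons 0x8765134902 (.cons 0x8945760132 (.cons 0x2065789431 .nil)))) (.node 2 8 (.cons 0x2876509431 (.cons 0x6782394501 (.cons 0x6782315094 .nil))) (.leaf 0x5094312876 0 .done) .done) .done) .done)) (.node 2 4 (.cons 0x8765093421 (.cons 0x1243987560 .nil)) (.node 1 9 (.cons 0x1987653420 (.cons 0x8912345760 (.cons 0x5342067891 .nil))) (.leaf 0x5342019876 1 .done) (.node 3 8 (.cons 0x9012456783 (.cons 0x9387560124 .nil)) (.node 1 9 (.cons 0x8765342091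 (.cons 0x8912345760 (.cons 0x9106783542 .nil))) (.node 1 8 (.cons 0x5678124390 (.cons 0x7819065342 (.cons 0x9187534206 .nil))) .done .done) .done) (.node 1 4 (.cons 0x2098765341 (.cons 0x9876014532 (.cons 0x2143987560 (.cons 0x8935760142 .nil)))) (.node 5 8 (.cons 0x7856093412 (.cons 0x9067854123 .nil)) (.leaf 0x9857601243 1 .done) .done) .done))) .done)) (.node 1 4 (.cons 0x2098765341 (.cons 0x9876014532 (.cons 0x8906754123 (.cons 0x6098754123 .nil)))) (.node 2 8 (.cons 0x9028765341 (.cons 0x9067823541 .nil)) (.node 1 9 (.cons 0x9143567820 (.cons 0x7601982354 (.cons 0x9143560287 (.cons 0x9128760543 .nil)))) (.node 3 9 (.cons 0x4391287650 (.cons 0x8754123906 .nil)) (.node 0 3 (.cons 0x9128765034 .nil) (.node 0 8 (.cons 0x4193576082 (.cons 0x9328067541 .nil)) .done .done) .done) .done) (.node 3 8 (.cons 0x9021438765 .nil) (.node 5 9 (.cons 0x9567834120 (.cons 0x7601238954 (.cons 0x9560214387 .nil))) .done (.node 2 9 (.cons 0x5678341290 (.cons 0x8760923541 .nil))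 (.node 1 8 (.cons 0x7650921834 (.cons 0x7601892354 (.cons 0x4183576092 .nil))) .done .done) .done)) .done)) (.node 5 9 (.cons 0x1234598760 .nil) (.node 2 6 (.cons 0x1435987620 (.cons 0x8762095341 .nil)) (.leaf 0x9014532678 0 (.node 2 9 (.cons 0x4532987601 .nil) (.leaf 0x6014532987 0 (.leaf 0x678923541 1 .done)) .done)) (.leaf 0x6021435987 0 (.leaf 0x678953412 1 .done))) .done)) .done))) .done)))
noncomputable def uc9_2_10 : T := (.node 3 5 (.cons 0x4356789021 (.cons 0x9876012354 .nil)) tc9_2_65 (.node 5 7 (.cons 0x8906754321 .nil) (.node 3 5 (.cons 0x4356789021 .nil) tc9_2_64 (.node 0 7 .nil tc9_2_63 (.node 5 8 (.cons 0x7609854321 .nil) tc9_2_62 .done))) (.node 0 7 .nil tc9_2_60 .done)))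
theorem sub_c9_2_10 : root 9 refs9_2 [] 0x700000008706000000006050000000050300000000304000700004010000000010300000000302400000002018000700410 0xfe7fff3fff9fffd7ff67ffedfff5ffe3fff9fe6d 9 0 6 .nil uc9_2_10 = true := by decide +kernel
noncomputable def tc9_2_66 : T := (.node 6 8 .nil (.node 1 7 (.cons 0x9021786543 .nil) (.node 0 6 (.cons 0x8906712345 .nil) (.node 1 5 (.cons 0x8906715432 (.cons 0x6098715432 .nil)) .done .done) (.node 2 9 (.cons 0x8671290543 .nil) (.node 0 3 (.cons 0x9678123054 (.cons 0x5430986712 (.cons 0x9218765034 (.cons 0x4503296781 .nil)))) .done (.node 1 3 (.cons 0x2134567890 (.cons 0x9021345687 (.cons 0x7865092134 .nil))) (.node 2 8 (.cons 0x7654312890 .nil) (.node 7 9 (.cons 0x4509768231 .nil) (.leaf 0x543128679 0 .done) .done) .done) .done)) .done)) (.node 3 8 (.cons 0x4509678321 .nil) (.node 5 8 (.cons 0x9058761234 .nil) (.node 1 3 (.cons 0x2134567890 .nil) (.node 4 8 (.cons 0x7845690213 .nil) (.node 3 5 (.cons 0x2135487690 .nil) (.node 5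 7 (.cons 0x4578690231 .nil) (.node 0 8 (.cons 0x9087654312 .nil) (.node 2 8 (.cons 0x9028756134 .nil) .done .done) .done) (.leaf 0x1354876902 1 (.leaf 0x4876902135 0 .done))) .done) (.node 2 8 (.cons 0x7654312890 .nil) (.node 2 9 .nil (.node 0 3 (.cons 0x9678123054 (.cons 0x9218765034 (.cons 0x4503296781 .nil))) .done (.node 2 5 (.cons 0x7689013254 .nil) (.node 3 5 (.cons 0x7890216534 .nil) (.node 5 7 (.cons 0x4576890132 .nil) .done .done) .done) .done)) .done) .done)) .done) (.node 0 3 (.cons 0x9678123054 .nil) (.node 0 6 .nil (.node 1 3 (.cons 0x2134567890 (.cons 0x7890654312 .nil)) (.node 1 7 (.cons 0x8903456712 .nil) (.node 3 6 (.cons 0x9871206345 .nil) .done .done) .done) .done) (.node 2 9 (.cons 0x4387650921 .nil) (.node 1 7 (.cons 0x2981765430 .nil) (.node 3 9 (.cons 0x7186543920 .nil) (.leaf 0x4568712093 0 .done) (.node 0 7 (.cons 0x9234507681 .nil) (.node 1 9 (.cons 0x7681923450 .nil) (.leaf 0x3291867054 0 .done) .done) .done)) (.node 3 9 (.cons 0x4392187650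 .nil) (.node 0 8 (.cons 0x7650812934 .nil) (.node 0 4 (.cons 0x9218765043 .nil) (.node 0 6 .nil (.node 4 7 (.cons 0x8123967450 (.cons 0x8932106745 (.cons 0x8129347605 (.cons 0x5476018932 .nil)))) (.leaf 0x6932180547 0 .done) .done) .done) .done) (.node 0 6 (.cons 0x7812396054 .nil) (.node 0 4 (.cons 0x9218765043 .nil) (.node 0 8 .nil (.node 0 7 (.cons 0x7065439812 .nil) (.node 2 4 (.cons 0x9056783421 (.cons 0x9342165087 (.cons 0x7809342165 .nil))) (.leaf 0x5078124396 0 .done) .done) .done) .done) .done) .done)) .done)) .done)) .done)) .done)) (.node 1 3 (.cons 0x2134567890 .nil) (.node 3 8 (.cons 0x4509678321 .nil) (.node 1 5 .nil (.node 0 7 (.cons 0x4569870213 (.cons 0x6987023154 .nil)) (.node 4 6 (.cons 0x5467890123 (.cons 0x9870215643 (.cons 0x9021564387 (.cons 0x8907643215 (.cons 0x7896451320 .nil))))) .done (.node 4 6 (.cons 0x5469870213 (.cons 0x9021564387 (.cons 0x7896451320 .nil))) (.leaf 0x8964513207 0 (.leaf 0x1546987023 0 .done)) .done)) (.node 1 9 (.cons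 0x4387650912 .nil) (.node 1 4 (.cons 0x9056783412 .nil) (.node 1 7 .nil (.node 0 3 (.cons 0x8769032145 (.cons 0x8903456712 (.cons 0x4569871302 .nil))) .done .done) .done) .done) .done)) (.node 1 5 .nil (.node 4 7 (.cons 0x6905478123 (.cons 0x9615023874 (.cons 0x6902387451 (.cons 0x6987451320 .nil)))) (.leaf 0x9023874516 0 .done) (.node 3 5 (.cons 0x7890216534 .nil) (.node 1 9 .nil (.node 1 7 (.cons 0x6543871902 .nil) (.node 2 6 (.cons 0x2671543890 (.cons 0x4502691783 (.cons 0x7834562091 (.cons 0x8345091762 .nil)))) .done .done) (.node 1 4 (.cons 0x2387690541 .nil) (.node 1 7 (.cons 0x3871456902 .nil) .done .done) .done)) .done) .done)) .done)) (.node 6 8 (.cons 0x9021345687 .nil) (.node 4 8 (.cons 0x7845690213 .nil) (.node 3 8 (.cons 0x4509678321 .nil) (.node 0 8 (.cons 0x9087654312 .nil) (.node 0 3 (.cons 0x5487690312 .nil) (.node 0 4 .nil (.node 2 8 (.cons 0x7654309821 (.cons 0x9045678213 .nil)) .done .done) .done) .done) (.node 1 4 (.cons 0x2387690541 .nil) (.leaf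 0x7690541238 0 (.node 3 6 (.cons 0x7812369054 .nil) (.node 0 3 (.cons 0x5487690312 .nil) (.node 0 8 (.cons 0x9087654312 .nil) .done .done) .done) .done)) .done)) (.node 1 5 (.cons 0x2315487690 .nil) (.node 1 7 (.cons 0x3178456902 .nil) (.node 1 4 (.cons 0x8769054123 .nil) (.node 1 9 (.cons 0x5091678432 .nil) .done .done) .done) (.leaf 0x3154876902 1 .done)) .done)) (.node 4 8 (.cons 0x7845690213 .nil) (.node 3 8 (.cons 0x4509678321 .nil) (.node 5 8 (.cons 0x9058761234 .nil) (.node 2 8 .nil (.node 1 9 (.cons 0x3219678450 (.cons 0x7682345091 (.cons 0x6782190543 .nil))) .done .done) .done) .done) (.node 0 8 (.cons 0x9087654312 .nil) (.node 3 8 (.cons 0x4509678321 .nil) (.node 3 6 (.cons 0x7812369054 .nil) (.node 0 3 (.cons 0x5487690312 .nil) (.node 0 6 .nil (.node 2 5 (.cons 0x3125487690 (.cons 0x9067845213 .nil)) (.node 0 7 (.cons 0x9812543607 .nil) .done (.leaf 0x9678452130 0 .done)) .done) .done) .done) .done) .done) .done)) .done)) (.node 1 5 .nil (.node 0 3 (.cons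 0x4309876512 .nil) (.node 1 4 (.cons 0x7896541203 (.cons 0x8769032145 .nil)) (.node 1 7 (.cons 0x4569871203 .nil) (.leaf 0x2034569871 0 .done) .done) (.node 4 6 (.cons 0x5467890123 (.cons 0x9876451032 (.cons 0x7815469032 (.cons 0x7890234615 .nil)))) (.node 2 4 (.cons 0x8769032451 .nil) (.node 0 4 (.cons 0x8769045123 .nil) (.node 0 7 (.cons 0x8907654312 (.cons 0x8907643215 .nil)) .done .done) (.leaf 0x7890324516 0 .done)) .done) .done)) (.node 3 5 (.cons 0x7890216534 .nil) (.node 5 8 (.cons 0x9058761234 .nil) (.node 6 8 .nil (.node 4 7 (.cons 0x2165347890 (.cons 0x1235478690 (.cons 0x9053478612 (.cons 0x5476890132 .nil)))) (.node 3 9 (.cons 0x6932187450 (.cons 0x9347865021 (.cons 0x7456893102 .nil))) .done .done) (.node 3 8 (.cons 0x4509678321 .nil) (.node 1 9 (.cons 0x4387650912 .nil) (.node 1 4 (.cons 0x9056783412 .nil) (.node 0 3 (.cons 0x2309678541 .nil) (.node 3 9 (.cons 0x7856143902 .nil) .done .done) .done) .done) .done) .done)) (.node 5 7 .nil (.node 0 4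 (.cons 0x7890435612 (.cons 0x4098576123 (.cons 0x4098576132 .nil))) (.node 2 8 (.cons 0x7654312890 (.cons 0x3128967540 .nil)) (.leaf 0x7534096128 0 .done) .done) (.node 2 5 .nil (.node 0 4 (.cons 0x7890435612 (.cons 0x8904325761 (.cons 0x8904316752 (.cons 0x9876152340 .nil)))) .done (.node 5 9 .nil (.node 0 6 (.cons 0x9875160234 (.cons 0x7895160234 .nil)) (.leaf 0x9543210678 0 .done) .done) .done)) .done)) .done)) (.node 5 8 (.cons 0x9058761234 .nil) (.node 5 7 .nil (.node 1 4 (.cons 0x6789014532 (.cons 0x8753209614 (.cons 0x6143578902 .nil))) .done .done) .done) .done)) .done)) .done))) (.node 2 9 (.cons 0x6781290543 .nil) (.node 6 8 (.cons 0x7681290543 .nil) (.node 1 9 .nil (.node 3 7 (.cons 0x9218673450 (.cons 0x6543789120 (.cons 0x9120568734 (.cons 0x2918673450 .nil)))) (.node 0 7 (.cons 0x9218670543 (.cons 0x8654370291 .nil)) (.leaf 0x9207345681 0 (.node 3 9 (.cons 0x6870543912 (.cons 0x7865021934 (.cons 0x4568739102 .nil))) .done .done)) .done) (.node 3 9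 (.cons 0x7681293450 .nil) (.node 7 9 (.cons 0x6879123450 .nil) (.node 3 8 (.cons 0x1297683450 .nil) (.leaf 0x9210543867 0 (.node 0 3 (.cons 0x7869123054 .nil) (.node 3 6 (.cons 0x2197863450 .nil) (.leaf 0x7863450219 0 .done) .done) .done)) (.node 5 9 (.cons 0x4320597861 .nil) .done .done)) (.node 4 9 (.cons 0x8761234905 .nil) (.node 5 9 (.cons 0x7861205943 .nil) .done .done) .done)) .done)) (.node 1 9 .nil (.node 1 7 (.cons 0x8671923450 (.cons 0x3456871902 .nil)) .done (.node 0 8 .nil (.node 1 7 (.cons 0x6871905432 (.cons 0x3456712980 (.cons 0x5432908671 .nil))) .done (.node 1 7 (.cons 0x6871905432 .nil) (.node 0 3 (.cons 0x8921765430 .nil) (.node 0 6 (.cons 0x9178605432 .nil) .done (.leaf 0x7896543021 0 .done)) (.node 5 9 .nil (.node 0 6 (.cons 0x1234598760 .nil) (.leaf 0x4321786095 0 (.leaf 0x9543210678 0 .done)) (.node 3 9 (.cons 0x2093456871 .nil) (.node 4 9 (.cons 0x8761234905 .nil) (.node 7 9 .nil (.node 1 3 (.cons 0x2134567890 (.cons 0x8654317920 (.cons 0x8654317902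 .nil))) .done .done) .done) .done) .done)) .done)) .done)) .done)) .done)) (.node 4 8 (.cons 0x3487650921 .nil) (.node 1 9 (.cons 0x3219678450 .nil) (.node 2 8 .nil (.node 0 3 (.cons 0x9678450321 (.cons 0x7654309821 (.cons 0x9128430567 (.cons 0x7650348291 .nil)))) .done (.node 6 8 .nil (.node 0 7 (.cons 0x8450769123 (.cons 0x9123486705 (.cons 0x5076843291 .nil))) (.node 3 7 (.cons 0x6543789021 (.cons 0x7345689120 (.cons 0x5486912073 (.cons 0x9120568437 (.cons 0x7348650291 .nil))))) .done .done) (.node 5 8 (.cons 0x9058761234 .nil) (.node 1 5 (.cons 0x7684329150 .nil) (.node 0 8 (.cons 0x7680519234 .nil) (.node 3 8 (.cons 0x7691238450 .nil) .done .done) .done) .done) .done)) .done)) (.node 3 9 (.cons 0x1239678450 .nil) (.node 6 8 (.cons 0x9321054867 .nil) (.node 0 8 (.cons 0x7650843921 .nil) (.node 0 3 (.cons 0x9678450321 .nil) (.node 0 7 (.cons 0x8450769321 .nil) (.node 2 8 (.cons 0x3967054821 .nil) (.node 5 8 (.cons 0x6705843921 .nil) (.leaf 0x3485076129 0 .done)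 .done) .done) .done) .done) .done) (.node 5 9 (.cons 0x4876105932 .nil) (.node 4 9 (.cons 0x5016784932 .nil) (.node 7 9 (.cons 0x8432167950 .nil) .done .done) .done) .done)) .done)) (.node 1 7 (.cons 0x6905487123 .nil) (.node 3 6 (.cons 0x9632178450 .nil) (.node 7 9 (.cons 0x1236978450 .nil) (.node 6 8 (.cons 0x9786345021 .nil) (.node 0 6 (.cons 0x5063487921 .nil) (.node 3 8 (.cons 0x4509678321 .nil) (.leaf 0x697123845 0 .done) .done) .done) (.leaf 0x5021879634 0 .done)) (.leaf 0x4871290563 0 (.leaf 0x5634871290 1 (.node 0 6 (.cons 0x9605487123 .nil) (.node 5 7 (.cons 0x3489217560 .nil) (.node 7 9 (.cons 0x3487905612 .nil) (.node 5 8 (.cons 0x9854321760 .nil) (.leaf 0x4360217985 1 (.leaf 0x9712063458 0 .done)) .done) (.leaf 0x6329845710 0 .done)) .done) .done)))) (.node 6 8 (.cons 0x9021786543 .nil) (.node 3 8 (.cons 0x4509678321 .nil) (.node 2 8 .nil (.node 3 9 (.cons 0x9345687120 (.cons 0x8217654390 (.cons 0x7821650934 (.cons 0x6543902871 .nil)))) .done (.node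 2 7 (.cons 0x9056127843 .nil) (.node 3 7 (.cons 0x6543789021 .nil) (.node 4 7 (.cons 0x5612098743 .nil) (.node 7 9 (.cons 0x3487905612 .nil) .done .done) .done) .done) .done)) (.leaf 0x965438712 1 .done)) (.node 1 9 (.cons 0x3456871902 .nil) (.node 1 4 (.cons 0x5417869023 .nil) (.node 1 3 (.cons 0x2134567890 .nil) (.node 1 5 (.cons 0x4517869023 .nil) .done .done) .done) (.leaf 0x7865432091 0 .done)) .done)) .done)) (.node 1 9 (.cons 0x5091678432 .nil) (.node 0 8 .nil (.node 6 8 (.cons 0x9123450867 .nil) .done (.node 6 8 .nil (.node 1 3 (.cons 0x2134567890 (.cons 0x9021345687 (.cons 0x7865092134 .nil))) (.node 4 7 (.cons 0x5084769132 (.cons 0x9123476805 (.cons 0x9687450213 .nil))) (.leaf 0x2319687450 0 .done) .done) (.node 3 8 (.cons 0x4509678321 .nil) (.node 3 9 (.cons 0x7684501932 .nil) (.node 2 8 (.cons 0x7682391054 .nil) (.node 5 8 (.cons 0x7619058432 .nil) .done .done) .done) .done) .done)) .done)) (.node 1 5 (.cons 0x6784329051 .nil) (.node 1 3 (.cons 0x4876923150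 .nil) (.node 1 7 (.cons 0x3178456902 .nil) .done (.node 1 4 (.cons 0x3296784150 .nil) (.node 1 7 (.cons 0x8450967132 .nil) .done .done) .done)) (.node 6 8 (.cons 0x7684329051 .nil) (.node 7 9 (.cons 0x6879123450 .nil) (.node 1 3 (.cons 0x2976843150 .nil) (.leaf 0x5134867920 1 (.leaf 0x4867920513 0 .done)) (.node 5 9 (.cons 0x4320597861 .nil) .done .done)) .done) .done)) .done)) .done))) .done)) .done)))
noncomputable def tc9_2_67 : T := (.node 0 6 .nil (.node 1 9 (.cons 0x5432198760 .nil) (.node 3 7 (.cons 0x6543789021 (.cons 0x6543789120 .nil)) (.leaf 0x4560219873 0 (.node 4 6 (.cons 0x5643789120 .nil) (.node 2 8 (.cons 0x3456782190 .nil) (.node 1 4 (.cons 0x9873412065 (.cons 0x5673412890 (.cons 0x5609873412 (.cons 0x8214376905 .nil)))) .done (.leaf 0x3782190564 0 (.node 0 8 (.cons 0x9120873465 .nil) (.node 2 6 (.cons 0x9126780543 .nil) (.node 2 9 .nil (.node 1 3 (.cons 0x7890654312 (.cons 0x7608921345 (.cons 0x8765431290 .nil))) .done .done) .done) (.leaf 0x7654321908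 1 .done)) (.leaf 0x9128734650 0 .done)))) (.node 6 8 (.cons 0x9120568734 .nil) (.node 3 6 (.cons 0x7891023645 .nil) (.node 5 7 (.cons 0x5789023461 (.cons 0x5789164320 (.cons 0x4578632091 (.cons 0x8754632091 .nil)))) .done .done) .done) .done)) (.node 2 8 (.cons 0x9165028734 .nil) (.leaf 0x3782091654 0 (.node 0 8 (.cons 0x9123450876 .nil) (.node 3 6 (.cons 0x4563789102 (.cons 0x5436780912 .nil)) .done (.leaf 0x7654321908 1 .done)) (.leaf 0x9028734561 0 .done))) .done))) (.node 3 7 (.cons 0x6543789021 (.cons 0x2198734560 (.cons 0x8734560912 .nil))) (.node 2 4 (.cons 0x8734219056 (.cons 0x8734219065 .nil)) (.node 3 9 (.cons 0x3987654210 (.cons 0x5423987601 .nil)) .done (.node 2 5 (.cons 0x4378912560 .nil) (.node 0 4 (.cons 0x5216789043 (.cons 0x5234098761 .nil)) .done (.node 5 7 (.cons 0x8912437560 .nil) (.node 3 8 (.cons 0x7654210983 (.cons 0x4576983210 (.cons 0x7561243890 (.cons 0x6754238901 .nil)))) .done (.node 2 6 (.cons 0x1987543260 (.cons 0x8754326091 .nil))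 .done .done)) .done)) .done)) (.node 1 8 (.cons 0x9054321876 .nil) (.node 2 9 (.cons 0x9205618734 .nil) (.leaf 0x678192345 1 (.leaf 0x5067819234 0 .done)) (.node 2 5 (.cons 0x4378902561 (.cons 0x7345206981 (.cons 0x2543760981 .nil))) (.node 2 6 (.cons 0x9187345062 (.cons 0x5437819062 .nil)) .done .done) .done)) .done)) (.node 3 6 (.cons 0x7891206345 .nil) (.node 5 8 (.cons 0x9058761234 (.cons 0x9120634587 (.cons 0x7854360912 .nil))) (.node 1 7 (.cons 0x6345871902 (.cons 0x9178543602 .nil)) (.node 1 8 (.cons 0x2345817690 (.cons 0x9602345817 .nil)) (.node 5 7 (.cons 0x8571690234 (.cons 0x7543218960 (.cons 0x9063218754 .nil))) .done .done) .done) (.node 4 9 (.cons 0x1236785490 (.cons 0x7854906321 .nil)) (.node 1 3 (.cons 0x2134567890 (.cons 0x7854913602 (.cons 0x7890654312 .nil))) (.node 1 7 (.cons 0x6320945871 (.cons 0x9871206543 (.cons 0x8549067132 .nil))) .done .done) .done) .done)) (.node 4 6 (.cons 0x5467890123 .nil) (.node 5 7 (.cons 0x9875463201 (.cons 0x2063457891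 .nil)) (.leaf 0x8754632019 1 (.leaf 0x8912063457 0 .done)) (.node 1 7 (.cons 0x9871206543 .nil) (.node 2 4 (.cons 0x5423678901 (.cons 0x9871024563 (.cons 0x8901763245 .nil))) .done (.node 3 7 (.cons 0x6543789021 (.cons 0x9873456021 .nil)) (.node 1 4 (.cons 0x5410987632 (.cons 0x9873412065 (.cons 0x5609873412 .nil))) (.node 1 5 (.cons 0x4510987632 (.cons 0x7891543602 (.cons 0x4378906512 .nil))) .done .done) .done) .done)) .done)) .done)) .done))) (.node 4 6 (.cons 0x5467890123 .nil) (.node 3 6 .nil (.node 1 9 (.cons 0x8763450912 .nil) (.node 1 5 (.cons 0x2345198760 .nil) (.leaf 0x3451987602 0 (.node 1 8 (.cons 0x9187605432 (.cons 0x9054367812 .nil)) .done .done)) (.node 6 8 (.cons 0x7863219054 .nil) .done .done)) (.node 2 6 .nil (.node 1 9 (.cons 0x8762190543 .nil) (.node 1 5 (.cons 0x2345198760 (.cons 0x7890623451 .nil)) (.leaf 0x3451987602 0 .done) (.node 6 8 (.cons 0x7862190543 .nil) (.node 5 7 (.cons 0x4578632190 (.cons 0x1987543260 (.cons 0x3264578910 .nil)))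 (.node 1 3 (.cons 0x2319875460 (.cons 0x4578913260 .nil)) (.node 4 8 (.cons 0x9012367845 (.cons 0x7548906231 (.cons 0x3126754890 (.cons 0x1326754890 .nil)))) .done .done) .done) .done) .done)) (.node 6 8 .nil (.node 1 7 (.cons 0x9021786543 (.cons 0x9021786345 .nil)) (.node 0 3 (.cons 0x8903456712 (.cons 0x9871203465 .nil)) (.leaf 0x5430217896 0 .done) (.node 2 9 (.cons 0x3456029871 .nil) (.node 3 9 (.cons 0x5467893210 (.cons 0x4392178650 (.cons 0x4392056871 .nil))) .done .done) .done)) .done) .done)) .done)) (.node 3 6 .nil (.node 1 8 (.cons 0x9054321876 (.cons 0x9054367812 .nil)) (.node 1 9 (.cons 0x9187605432 (.cons 0x8763450912 .nil)) (.node 2 9 (.cons 0x9234506781 (.cons 0x7819236054 .nil)) (.leaf 0x678192345 1 .done) .done) (.node 1 9 (.cons 0x8763450912 .nil) (.node 1 5 (.cons 0x2345198760 .nil) (.leaf 0x3451987602 0 .done) .done) .done)) (.node 0 4 (.cons 0x9876321045 .nil) (.node 2 4 .nil (.node 3 5 (.cons 0x7890216534 (.cons 0x7890243561 .nil)) (.leaf 0x9876534210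 1 (.leaf 0x8901243567 0 .done)) (.node 0 3 (.cons 0x9876542103 .nil) (.node 0 7 .nil (.node 1 8 (.cons 0x9054321876 (.cons 0x5432189670 (.cons 0x7034218965 (.cons 0x7021896345 .nil)))) .done (.node 0 8 .nil (.node 1 5 (.cons 0x9876512430 (.cons 0x9807634512 (.cons 0x7089634512 .nil))) (.leaf 0x215436987 0 .done) .done) .done)) .done) .done)) (.node 4 9 (.cons 0x5498763210 .nil) (.node 0 7 (.cons 0x3654987012 .nil) (.node 0 8 .nil (.node 1 7 (.cons 0x5498710632 (.cons 0x5432176980 (.cons 0x8096712345 (.cons 0x7120896345 .nil)))) .done .done) .done) (.node 4 7 (.cons 0x5612098743 .nil) (.node 0 8 (.cons 0x5476980123 .nil) (.node 0 7 .nil (.node 1 5 (.cons 0x2367894510 (.cons 0x8945107632 (.cons 0x3470896512 .nil))) (.leaf 0x215436987 0 .done) .done) .done) .done) .done)) .done)) .done)) .done)) .done)) (.node 0 6 .nil (.node 1 5 (.cons 0x7896023451 .nil) (.node 1 7 (.cons 0x6987154320 (.cons 0x8715432096 .nil)) (.node 3 6 (.cons 0x7896320154 (.cons 0x8715436902 .nil))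 (.node 4 7 (.cons 0x5612098743 (.cons 0x5169874320 (.cons 0x8743209615 (.cons 0x8901547632 .nil)))) .done .done) .done) (.node 1 3 (.cons 0x2134567890 (.cons 0x7890654312 .nil)) (.node 5 7 (.cons 0x4578960231 .nil) (.node 0 4 (.cons 0x8967540132 (.cons 0x5789613402 (.cons 0x9875613402 .nil))) .done (.leaf 0x8960213457 1 (.node 3 5 (.cons 0x7890216534 .nil) (.node 4 7 (.cons 0x2165347890 (.cons 0x2354789601 (.cons 0x5347890612 .nil))) (.leaf 0x5321069874 0 .done) .done) .done))) (.node 1 7 (.cons 0x8713456902 (.cons 0x5432069871 .nil)) (.node 2 5 (.cons 0x8769013254 (.cons 0x3452069871 .nil)) (.leaf 0x698713452 0 .done) .done) .done)) (.node 3 7 (.cons 0x6543789021 (.cons 0x9873456021 (.cons 0x4378906512 .nil))) (.node 6 8 (.cons 0x9068732154 .nil) (.node 1 9 (.cons 0x9120687345 .nil) (.leaf 0x4560219873 0 (.node 1 3 (.cons 0x2134567890 .nil) (.node 5 7 (.cons 0x8691023754 (.cons 0x8912345760 (.cons 0x7543206891 (.cons 0x4578960231 .nil)))) .done .done) .done)) .done)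 (.node 3 5 (.cons 0x7890216534 (.cons 0x9876012354 .nil)) (.node 2 4 (.cons 0x7896015423 .nil) (.node 0 3 (.cons 0x5678903421 .nil) .done (.node 3 8 (.cons 0x5423876901 (.cons 0x9601542387 (.cons 0x9065124387 .nil))) (.node 1 7 (.cons 0x3871096542 (.cons 0x2345178960 (.cons 0x9065438712 .nil))) (.node 2 6 (.cons 0x9873260154 (.cons 0x7126098345 (.cons 0x7126098354 .nil))) .done .done) .done) (.leaf 0x987324516 0 .done))) .done) .done)) .done))) (.node 4 6 (.cons 0x5467890123 .nil) (.node 3 6 .nil (.node 5 7 (.cons 0x8906754321 (.cons 0x4578963201 (.cons 0x9875463201 .nil))) (.node 1 8 (.cons 0x2345096781 (.cons 0x9054367812 .nil)) (.node 7 9 (.cons 0x5432189760 (.cons 0x9781205634 (.cons 0x2054369781 .nil))) .done (.node 7 9 (.cons 0x3218975460 (.cons 0x4365097812 (.cons 0x6345097812 .nil))) .done .done)) .done) (.node 6 8 .nil (.node 1 7 (.cons 0x5469871023 (.cons 0x5432096871 (.cons 0x9021786345 .nil))) (.node 3 7 (.cons 0x5469873201 .nil) (.leaf 0x6890217345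 0 (.node 1 9 (.cons 0x8917345602 (.cons 0x7320198645 (.cons 0x9105468732 (.cons 0x5437198602 .nil)))) .done .done)) .done) (.node 2 6 .nil (.node 4 7 (.cons 0x5612098743 .nil) (.node 1 5 (.cons 0x3209687451 (.cons 0x8745109623 .nil)) (.node 1 7 (.cons 0x6987154320 (.cons 0x3451789620 .nil)) .done (.node 1 3 (.cons 0x2134567890 .nil) (.leaf 0x6902315478 1 (.leaf 0x9687451320 0 .done)) .done)) (.node 3 5 (.cons 0x9876453210 (.cons 0x3547896201 (.cons 0x8901267453 (.cons 0x6210987453 (.cons 0x4532678901 .nil))))) .done (.node 1 3 (.cons 0x2134567890 (.cons 0x9874562013 (.cons 0x8901326745 (.cons 0x9054786231 .nil)))) .done .done))) .done) .done)) .done)) (.node 3 6 .nil (.node 1 8 (.cons 0x2345096781 (.cons 0x9054367812 .nil)) (.node 7 9 (.cons 0x5432189760 (.cons 0x9781205634 (.cons 0x2054369781 (.cons 0x4502369781 .nil)))) .done (.node 7 9 (.cons 0x4365097812 (.cons 0x6345097812 (.cons 0x5463218790 .nil))) (.node 5 8 (.cons 0x7609854321 (.cons 0x1234589760 (.cons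 0x5879023461 (.cons 0x7906458123 .nil)))) .done .done) .done)) (.node 0 4 (.cons 0x9876321045 .nil) (.node 4 9 (.cons 0x5498763210 .nil) (.node 2 4 .nil (.node 3 5 (.cons 0x9876354012 (.cons 0x7890243561 .nil)) (.leaf 0x9876534210 1 (.leaf 0x8901243567 0 .done)) (.node 1 4 (.cons 0x7896320145 .nil) (.node 1 9 (.cons 0x8769105423 .nil) (.node 2 6 (.cons 0x8762190543 .nil) (.node 6 8 (.cons 0x9120543687 .nil) .done .done) .done) .done) .done)) (.node 6 8 (.cons 0x7861234905 .nil) (.node 2 6 .nil (.node 1 9 (.cons 0x7863219450 (.cons 0x8762190543 .nil)) (.node 5 9 (.cons 0x4598763210 .nil) (.node 3 7 (.cons 0x6378954021 (.cons 0x8734905621 .nil)) (.leaf 0x6210459873 0 (.leaf 0x8954012637 1 .done)) .done) .done) .done) .done) .done)) (.node 0 3 .nil (.node 4 9 (.cons 0x5498763210 (.cons 0x7894563012 (.cons 0x5498763012 .nil))) (.node 2 4 (.cons 0x9876542103 .nil) (.node 3 5 (.cons 0x7890243561 .nil) (.leaf 0x9876534210 1 (.leaf 0x8901243567 0 .done)) .done) .done) (.node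 4 7 (.cons 0x5478963201 .nil) (.node 2 4 (.cons 0x5678903421 .nil) (.node 0 7 .nil (.node 3 9 (.cons 0x8932106745 (.cons 0x8934702165 (.cons 0x4563987012 .nil))) .done (.node 0 8 .nil (.node 1 5 (.cons 0x5169874320 (.cons 0x7698015423 (.cons 0x9807634512 (.cons 0x9615087432 .nil)))) .done .done) .done)) .done) (.node 0 7 .nil (.node 1 5 (.cons 0x3698745102 (.cons 0x6987023451 (.cons 0x4510789632 .nil))) (.node 0 8 (.cons 0x9807634512 .nil) .done .done) .done) .done)) .done)) .done)) .done)) .done)) .done)) (.node 1 8 (.cons 0x4509678123 .nil) tc9_2_66 .done)))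
noncomputable def tc9_2_68 : T := (.node 1 5 (.cons 0x8769051234 .nil) (.node 0 6 .nil (.node 5 7 (.cons 0x4320698751 .nil) (.node 1 3 (.cons 0x2134567890 (.cons 0x8756902134 (.cons 0x7890654312 (.cons 0x6578902134 .nil)))) .done (.node 2 5 (.cons 0x8907612543 .nil) (.node 1 8 (.cons 0x6709812543 (.cons 0x7609812543 .nil)) (.leaf 0x2345096781 0 (.node 0 4 (.cons 0x9815234067 .nil) (.node 5 8 (.cons 0x7698512340 .nil) (.leaf 0x1589670432 1 (.leaf 0x9670432158 0 .done)) .done) .done)) .done) .done)) (.node 0 4 (.cons 0x7896512043 .nil) (.node 0 3 (.cons 0x7896512034 .nil) (.node 0 8 (.cons 0x9678051234 .nil) .done .done) .done) .done)) (.node 0 6 .nil (.node 4 7 (.cons 0x8743215096 (.cons 0x5123478960 .nil)) (.node 3 7 (.cons 0x6543789021 (.cons 0x9873456021 (.cons 0x4378906512 .nil))) (.node 2 8 (.cons 0x3478215690 (.cons 0x9065128743 (.cons 0x7328906154 .nil))) (.node 1 9 (.cons 0x7345619820 (.cons 0x9128760543 .nil)) .done .done) .done) (.node 2 8 (.cons 0x5476109823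 (.cons 0x7432890615 (.cons 0x7451609823 .nil))) (.node 1 9 (.cons 0x3478205691 (.cons 0x9128760543 .nil)) .done .done) .done)) (.node 0 8 .nil (.node 4 6 (.cons 0x5467890123 (.cons 0x9643215087 (.cons 0x7809643215 .nil))) .done (.node 1 8 (.cons 0x5096781234 .nil) (.node 1 9 (.cons 0x9187605432 .nil) (.node 2 8 (.cons 0x6782190543 .nil) (.node 6 8 (.cons 0x7869051234 .nil) .done .done) .done) (.node 1 9 .nil (.node 4 6 (.cons 0x5467890123 (.cons 0x9123467805 .nil)) (.node 2 6 (.cons 0x7890623451 (.cons 0x7891543260 .nil)) (.node 2 7 (.cons 0x6098723451 (.cons 0x3456027891 (.cons 0x8723451906 (.cons 0x8723460915 .nil)))) .done .done) .done) .done) .done)) .done)) .done)) .done)) (.node 4 6 (.cons 0x5467890123 .nil) (.node 1 5 (.cons 0x7896451023 .nil) (.node 0 6 (.cons 0x7896023451 .nil) (.node 3 6 (.cons 0x2078963451 .nil) (.node 0 8 .nil (.node 5 9 (.cons 0x4321598760 (.cons 0x7645980123 (.cons 0x9546321087 (.cons 0x4590876321 .nil)))) .done (.node 0 4 (.cons 0x9876043215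 .nil) (.node 0 3 .nil (.node 1 7 (.cons 0x6987154320 (.cons 0x9871203465 .nil)) (.node 2 8 (.cons 0x3456902871 (.cons 0x9654302871 (.cons 0x9651782034 (.cons 0x7698230451 .nil)))) .done .done) .done) .done) .done)) .done) .done) (.node 0 6 .nil (.node 3 9 (.cons 0x5467893210 (.cons 0x7893210645 .nil)) (.node 2 8 (.cons 0x5467012893 (.cons 0x7064398215 (.cons 0x7064512893 .nil))) (.node 1 7 (.cons 0x5469871023 (.cons 0x2345178960 (.cons 0x9605178234 .nil))) (.leaf 0x4398217065 0 .done) .done) (.node 7 9 (.cons 0x8793465021 (.cons 0x8793215064 .nil)) .done .done)) (.node 3 6 .nil (.node 5 9 (.cons 0x7895123460 (.cons 0x3645987021 .nil)) (.leaf 0x4632107895 0 .done) (.node 6 8 (.cons 0x9078634512 .nil) (.node 2 6 .nil (.node 3 8 (.cons 0x5438907612 (.cons 0x7098345162 .nil)) (.leaf 0x5438709621 0 (.leaf 0x783451269 0 (.leaf 0x9076215438 0 .done))) .done) .done) .done)) .done)) .done)) (.node 0 6 .nil (.node 1 5 (.cons 0x7896023451 .nil) (.node 3 6 (.cons 0x2078963451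 (.cons 0x7890215634 .nil)) .done (.node 7 9 (.cons 0x8790643215 (.cons 0x8790645123 .nil)) (.node 1 3 (.cons 0x2134567890 (.cons 0x8790213456 (.cons 0x8790213465 .nil))) (.node 0 8 (.cons 0x9780213465 .nil) (.leaf 0x4697802315 1 .done) .done) .done) .done)) (.node 3 6 .nil (.node 5 8 (.cons 0x7612345890 (.cons 0x9854361207 (.cons 0x7098543612 .nil))) (.node 2 4 (.cons 0x7610985423 (.cons 0x7632458901 .nil)) (.node 1 5 (.cons 0x2078963451 (.cons 0x7896324510 .nil)) (.node 1 9 (.cons 0x7851906432 (.cons 0x2346785190 (.cons 0x8763450912 .nil))) .done .done) .done) (.node 4 7 (.cons 0x3216745890 (.cons 0x5478963201 (.cons 0x7458902361 .nil))) .done .done)) (.node 1 5 (.cons 0x2078963451 .nil) (.node 0 8 .nil (.node 7 9 (.cons 0x8796451023 (.cons 0x9780215643 (.cons 0x3208796451 .nil))) .done (.node 0 4 (.cons 0x9876043215 .nil) (.node 0 3 .nil (.node 4 9 (.cons 0x5498763210 (.cons 0x7894563012 (.cons 0x5498763012 .nil))) .done .done) .done) .done)) (.node 2 6 .nil (.node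 3 8 (.cons 0x5438907612 (.cons 0x9078346215 (.cons 0x7098345162 .nil))) (.leaf 0x783451269 0 .done) (.node 6 8 .nil (.node 7 9 (.cons 0x8790643215 (.cons 0x5123468790 (.cons 0x3215468790 .nil))) .done .done) .done)) .done)) .done)) .done)) .done)) (.node 4 6 (.cons 0x5467890123 .nil) (.node 7 9 .nil (.node 3 8 (.cons 0x4509678321 (.cons 0x7983456120 (.cons 0x1238796450 (.cons 0x9783465021 (.cons 0x7983201645 .nil))))) .done (.node 2 9 .nil (.node 3 8 (.cons 0x9783465021 (.cons 0x5438921670 (.cons 0x1297834650 (.cons 0x4387650921 (.cons 0x9238764501 .nil))))) .done (.node 3 9 (.cons 0x5467893210 .nil) (.node 1 9 (.cons 0x8791205643 .nil) (.node 2 4 .nil (.node 3 8 (.cons 0x9783465021 (.cons 0x3876912450 (.cons 0x9056783421 (.cons 0x7610983245 .nil)))) .done (.node 2 6 (.cons 0x8762190543 .nil) (.node 0 6 (.cons 0x7893210645 .nil) (.node 6 8 (.cons 0x5021978643 .nil) .done .done) .done) .done)) .done) (.node 5 9 .nil (.node 3 6 (.cons 0x8763210954 .nil) (.leaf 0x8701236459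 1 (.leaf 0x9870123645 0 .done)) (.node 1 5 (.cons 0x2398764510 .nil) (.node 2 4 (.cons 0x6789324510 .nil) (.node 2 6 (.cons 0x6207893451 .nil) (.node 6 8 (.cons 0x1568793420 .nil) (.leaf 0x5687934201 1 .done) .done) .done) .done) .done)) .done)) .done)) (.node 4 7 .nil (.node 3 8 (.cons 0x4509678321 (.cons 0x8320547961 (.cons 0x6905478321 (.cons 0x7438902165 (.cons 0x5476109832 .nil))))) .done (.node 3 7 (.cons 0x6543789021 .nil) (.node 5 7 (.cons 0x8975461023 .nil) (.node 2 4 .nil (.node 3 8 (.cons 0x1645798320 (.cons 0x5421698370 (.cons 0x9056783421 (.cons 0x1675423890 .nil)))) .done (.node 0 4 (.cons 0x3789654021 .nil) (.node 0 6 (.cons 0x9873456021 .nil) (.node 0 8 (.cons 0x3208975461 .nil) .done .done) .done) .done)) .done) (.node 1 7 .nil (.node 0 3 (.cons 0x8903456712 .nil) (.leaf 0x8965430217 1 (.leaf 0x7896543021 0 .done)) (.node 1 5 (.cons 0x9873465120 .nil) (.node 2 4 (.cons 0x6512437890 .nil) (.node 0 4 (.cons 0x5123789640 .nil) (.node 0 8 (.cons 0x3456179802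 .nil) (.leaf 0x1564237980 1 .done) .done) .done) .done) .done)) .done)) .done)) .done))) (.node 1 5 .nil (.node 3 8 (.cons 0x4509678321 (.cons 0x9645120783 (.cons 0x7832154690 (.cons 0x9021564387 (.cons 0x7832096451 .nil))))) .done (.node 1 4 (.cons 0x8769054123 .nil) (.node 1 3 (.cons 0x2134567890 .nil) (.node 1 7 .nil (.node 0 3 (.cons 0x8903456712 .nil) (.leaf 0x8965430217 1 (.node 0 8 (.cons 0x9087654312 (.cons 0x9645178023 .nil)) .done (.leaf 0x7896543021 0 .done))) (.node 7 9 (.cons 0x8790213456 .nil) (.node 3 7 (.cons 0x6543789021 .nil) (.node 4 7 (.cons 0x8745690213 .nil) .done .done) .done) .done)) (.node 1 8 (.cons 0x4509678123 .nil) (.node 1 9 .nil (.node 3 6 (.cons 0x9054367812 (.cons 0x6345198702 .nil)) (.node 2 6 (.cons 0x5436219870 .nil) (.leaf 0x3450789126 0 (.leaf 0x1987054362 1 .done)) .done) .done) .done) .done)) (.node 1 8 (.cons 0x4509678123 .nil) (.node 5 7 (.cons 0x3218754690 .nil) (.node 4 7 (.cons 0x6905478123 .nil) (.node 2 4 (.cons 0x8901675423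 .nil) (.node 2 5 (.cons 0x8907612543 .nil) (.node 5 8 (.cons 0x7612345890 .nil) .done .done) .done) .done) (.node 5 8 (.cons 0x7612345890 .nil) (.node 4 8 (.cons 0x3216754890 .nil) (.node 2 4 (.cons 0x7610985423 .nil) (.node 2 5 (.cons 0x8907612543 .nil) .done .done) .done) .done) .done)) (.node 5 7 (.cons 0x9021875643 .nil) (.node 1 9 (.cons 0x3465781902 .nil) (.leaf 0x8756432091 0 .done) (.node 2 5 (.cons 0x8907612543 .nil) (.node 2 4 (.cons 0x9056781243 .nil) (.node 4 7 (.cons 0x3476521890 .nil) (.node 0 4 (.cons 0x3251896740 .nil) (.node 3 5 (.cons 0x9647815320 .nil) (.leaf 0x2189046753 0 (.leaf 0x2098164753 0 .done)) .done) .done) .done) .done) .done)) .done)) .done)) (.node 0 8 (.cons 0x7809645123 .nil) (.node 5 7 (.cons 0x4690875123 .nil) (.leaf 0x2157809643 0 (.node 2 9 (.cons 0x6432908751 .nil) (.node 5 9 (.cons 0x5908764321 .nil) .done (.leaf 0x3461578092 0 .done)) (.node 0 6 .nil (.node 2 6 (.cons 0x9870621543 .nil) (.node 3 6 (.cons 0x9870634512 .nil)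 (.node 0 3 (.cons 0x8903216754 .nil) (.node 3 5 (.cons 0x6789012354 (.cons 0x9870621534 .nil)) .done .done) .done) .done) (.node 0 3 (.cons 0x8903216754 .nil) (.node 0 4 (.cons 0x8904576123 .nil) .done .done) .done)) .done))) (.node 0 6 .nil (.node 2 6 (.cons 0x9870621543 .nil) (.node 3 6 (.cons 0x9870634512 .nil) (.node 7 9 (.cons 0x8790154632 (.cons 0x8790643215 .nil)) (.node 2 8 (.cons 0x8234509761 (.cons 0x7982345160 (.cons 0x3287906451 .nil))) .done .done) .done) .done) (.node 0 3 .nil (.node 5 8 (.cons 0x7612345890 (.cons 0x9854307612 (.cons 0x7612309854 .nil))) .done (.node 0 4 .nil (.node 1 3 (.cons 0x2134567890 (.cons 0x7896540213 (.cons 0x5678904312 .nil))) (.node 2 6 (.cons 0x7809623154 (.cons 0x9623154087 .nil)) .done .done) .done) .done)) .done)) .done)) .done))) (.node 0 6 .nil (.node 0 4 .nil (.node 1 5 (.cons 0x7896045123 (.cons 0x8769045123 .nil)) (.node 1 7 (.cons 0x8715469023 (.cons 0x9871206543 (.cons 0x3465178902 .nil))) .done .done) (.node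 1 7 (.cons 0x9871206543 .nil) (.node 1 3 (.cons 0x5469871320 (.cons 0x8713209645 (.cons 0x7890654312 (.cons 0x5643178902 .nil)))) .done (.node 3 8 (.cons 0x4509678321 (.cons 0x9065438712 .nil)) (.node 5 9 (.cons 0x8321769540 (.cons 0x7601238954 (.cons 0x9546017832 (.cons 0x4596023871 .nil)))) .done (.node 4 7 (.cons 0x7438902165 .nil) (.node 1 9 (.cons 0x5023874691 (.cons 0x8745069123 (.cons 0x5602198743 .nil))) (.leaf 0x6054783219 0 .done) .done) (.leaf 0x965438712 1 .done))) (.node 1 5 (.cons 0x3465178902 (.cons 0x5178906432 .nil)) (.node 1 3 (.cons 0x7896451320 (.cons 0x7890654312 .nil)) (.node 7 9 (.cons 0x8796451320 (.cons 0x8796023154 .nil)) .done .done) .done) .done))) .done)) (.node 6 8 .nil (.node 5 7 (.cons 0x9861207543 (.cons 0x7543209861 .nil)) (.node 1 3 (.cons 0x2134567890 (.cons 0x9875602134 (.cons 0x8754690231 (.cons 0x6457890132 (.cons 0x2098756431 .nil))))) .done (.node 0 3 (.cons 0x8903216754 (.cons 0x4576890321 .nil)) (.node 0 8 .nil (.node 7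 9 (.cons 0x3456879021 (.cons 0x5432167980 .nil)) (.leaf 0x2345097861 0 (.leaf 0x4321679805 0 .done)) .done) .done) .done)) (.node 3 6 .nil (.node 1 5 (.cons 0x4512078963 (.cons 0x7890154632 .nil)) (.node 1 7 (.cons 0x9871023645 (.cons 0x8715469023 (.cons 0x3465178902 .nil))) .done .done) (.node 2 6 .nil (.node 1 9 (.cons 0x9120786345 (.cons 0x9126870543 (.cons 0x8762190543 .nil))) (.node 1 5 (.cons 0x9150234687 (.cons 0x5198702643 (.cons 0x7890154623 .nil))) .done .done) .done) .done)) .done)) .done)) .done))) .done)))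
noncomputable def tc9_2_69 : T := (.node 0 6 .nil (.node 1 3 (.cons 0x2134567890 (.cons 0x7890654312 .nil)) (.node 5 9 (.cons 0x8761234590 (.cons 0x7895460132 (.cons 0x4598760132 (.cons 0x7895460231 .nil)))) .done (.node 3 5 (.cons 0x2354678901 (.cons 0x9876012354 .nil)) (.node 4 7 (.cons 0x9874532106 .nil) (.node 6 8 (.cons 0x7431209865 (.cons 0x7456890213 .nil)) (.leaf 0x1235476890 0 .done) (.node 2 7 (.cons 0x6453278901 (.cons 0x9872354601 (.cons 0x4356098721 .nil))) (.node 1 5 (.cons 0x3278906451 .nil) (.leaf 0x9872315460 1 (.node 2 9 (.cons 0x3298764510 (.cons 0x8743560921 .nil)) .done .done)) .done) (.leaf 0x123547896 0 .done))) (.node 5 8 (.cons 0x7645890132 (.cons 0x9061234587 .nil)) (.node 7 9 (.cons 0x9785461023 (.cons 0x7985602134 (.cons 0x2134589760 (.cons 0x9785432061 (.cons 0x7985460231 .nil))))) .done (.node 4 9 (.cons 0x3216785490 (.cons 0x7854906123 .nil)) (.node 0 3 (.cons 0x3094587612 .nil) (.node 3 7 (.cons 0x6543789021 (.cons 0x9873456021 (.cons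 0x8549067312 .nil))) .done .done) .done) .done)) .done)) (.node 1 7 (.cons 0x5643178902 (.cons 0x9871206543 .nil)) (.node 3 6 (.cons 0x9871206345 .nil) .done .done) .done))) (.node 3 6 .nil (.node 0 8 (.cons 0x9087612345 .nil) (.node 5 9 (.cons 0x8761234590 (.cons 0x7809543612 .nil)) (.node 1 7 (.cons 0x9543617802 (.cons 0x8716345902 .nil)) (.node 3 5 (.cons 0x9871206534 (.cons 0x8901764532 (.cons 0x4356098712 .nil))) .done (.node 2 4 (.cons 0x8761095423 (.cons 0x1789563420 (.cons 0x8763245901 .nil))) (.leaf 0x6342178905 0 .done) .done)) (.node 1 7 (.cons 0x8716459023 (.cons 0x1789546320 .nil)) (.node 4 8 (.cons 0x3216784590 (.cons 0x9502364871 (.cons 0x9056348712 .nil))) .done (.node 2 5 (.cons 0x3254678901 (.cons 0x9871025463 .nil)) (.leaf 0x9871254360 1 .done) .done)) .done)) (.node 0 3 .nil (.node 4 9 (.cons 0x5498763210 (.cons 0x8761230945 (.cons 0x7894563012 (.cons 0x5498763012 .nil)))) .done (.node 1 7 (.cons 0x8903456712 (.cons 0x9871023645 .nil)) (.node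 1 5 (.cons 0x3465178902 (.cons 0x7890154632 .nil)) (.node 0 7 (.cons 0x8964320715 (.cons 0x9870215436 .nil)) .done (.leaf 0x9023465178 0 .done)) (.node 2 5 (.cons 0x3254678901 (.cons 0x9871025463 (.cons 0x3645209871 .nil))) (.leaf 0x9871254360 1 .done) .done)) .done)) .done)) (.node 4 9 (.cons 0x5498763210 .nil) (.node 6 8 (.cons 0x9450123687 .nil) (.node 2 6 .nil (.node 0 7 (.cons 0x9450786321 (.cons 0x5498701263 .nil)) (.node 5 8 (.cons 0x9458701632 (.cons 0x9458701623 (.cons 0x9078543261 (.cons 0x7854901623 .nil)))) .done .done) .done) .done) (.node 0 4 (.cons 0x9876321045 .nil) (.node 0 3 (.cons 0x5498763012 .nil) (.node 0 8 (.cons 0x9087612345 .nil) (.node 0 7 .nil (.node 1 5 (.cons 0x7894360215 (.cons 0x9807634512 (.cons 0x7089634512 .nil))) (.leaf 0x215436987 0 .done) .done) .done) .done) .done) .done)) .done)) .done)) (.node 0 6 .nil (.node 1 7 (.cons 0x9871206543 .nil) (.node 1 5 (.cons 0x5178964320 (.cons 0x8715096432 .nil)) (.leaf 0x9023465178 0 .done)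 (.node 1 5 (.cons 0x3465178902 (.cons 0x5178906432 .nil)) (.node 1 3 (.cons 0x2134567890 (.cons 0x7890654312 .nil)) (.node 1 8 (.cons 0x5096781234 .nil) (.leaf 0x2345096781 0 (.node 2 5 (.cons 0x3254678901 (.cons 0x7609812543 .nil)) (.leaf 0x9025643178 0 .done) .done)) .done) (.leaf 0x9023465178 0 .done)) (.node 3 6 (.cons 0x9871206345 .nil) (.node 5 8 (.cons 0x2176345890 (.cons 0x9854360217 (.cons 0x9061234587 .nil))) (.node 3 5 (.cons 0x2354678901 (.cons 0x9876012354 .nil)) (.node 2 4 (.cons 0x2435871690 (.cons 0x5342178960 .nil)) (.leaf 0x985423671 1 (.leaf 0x3421789605 1 .done)) .done) (.node 4 7 (.cons 0x1236745890 (.cons 0x9854712063 .nil)) (.leaf 0x6098547123 0 .done) .done)) .done) .done))) (.node 3 6 .nil (.node 1 5 (.cons 0x8769051234 (.cons 0x7890154632 .nil)) (.node 0 4 (.cons 0x7896512043 (.cons 0x7896340215 .nil)) .done (.node 1 9 (.cons 0x8763450912 .nil) (.node 1 8 (.cons 0x7819643205 (.cons 0x5091876432 (.cons 0x9054367812 .nil))) (.leaf 0x2345096781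 0 .done) (.node 2 8 (.cons 0x7645109823 (.cons 0x9105463287 (.cons 0x7821905634 (.cons 0x7823645091 .nil)))) .done .done)) .done)) (.node 0 4 (.cons 0x9876321045 .nil) (.node 4 9 (.cons 0x5498763210 .nil) (.node 2 9 (.cons 0x5401298763 .nil) (.node 2 6 .nil (.node 1 9 (.cons 0x7891023645 (.cons 0x8762190543 .nil)) (.node 5 7 (.cons 0x8945763210 (.cons 0x3264578910 (.cons 0x8754326190 (.cons 0x3621987540 .nil)))) .done .done) .done) .done) (.node 4 8 (.cons 0x5096784321 .nil) (.node 6 8 (.cons 0x9450123687 .nil) (.node 2 6 .nil (.node 1 8 (.cons 0x5096781234 (.cons 0x7812650943 .nil)) (.leaf 0x2345096781 0 (.node 7 9 (.cons 0x1236879450 (.cons 0x8794501263 (.cons 0x3621879450 .nil))) (.leaf 0x543697812 1 .done) .done)) .done) .done) .done) .done)) .done) .done)) .done)) (.node 2 9 .nil (.node 3 8 (.cons 0x4509678321 (.cons 0x9238764501 (.cons 0x7834561290 (.cons 0x4387650921 .nil)))) (.node 1 8 (.cons 0x4509678123 (.cons 0x5092346781 (.cons 0x6781290543 .nil))) (.node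 0 3 (.cons 0x9678123054 (.cons 0x9218765034 .nil)) (.node 1 3 (.cons 0x2134567890 (.cons 0x7813296450 (.cons 0x8765092134 .nil))) .done .done) (.node 3 7 (.cons 0x6543789021 (.cons 0x1873296450 (.cons 0x6543781290 (.cons 0x2905643781 .nil)))) .done .done)) .done) (.node 5 9 (.cons 0x8761234590 .nil) (.node 4 9 .nil (.node 3 8 (.cons 0x4509678321 (.cons 0x1238769450 (.cons 0x7834902165 (.cons 0x5490167832 .nil)))) (.node 1 8 (.cons 0x4509678123 (.cons 0x3218769450 (.cons 0x3490567812 .nil))) (.node 3 6 (.cons 0x9054367812 (.cons 0x5498763210 (.cons 0x5094367812 .nil))) (.leaf 0x2105498763 0 .done) .done) .done) (.node 1 9 .nil (.node 2 5 (.cons 0x3254678901 (.cons 0x3254678910 .nil)) (.node 3 8 (.cons 0x3876125490 (.cons 0x7832054691 (.cons 0x7832546190 (.cons 0x4678325091 (.cons 0x4523876190 .nil))))) .done .done) (.node 7 9 (.cons 0x8790216543 .nil) (.node 3 9 .nil (.node 2 4 (.cons 0x8765091243 (.cons 0x3987654210 (.cons 0x8765421093 .nil))) .done .done) .done)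 .done)) .done)) (.node 2 5 (.cons 0x3254678901 .nil) (.node 2 4 (.cons 0x8761095423 .nil) (.node 5 7 .nil (.node 3 6 (.cons 0x8763245901 (.cons 0x9875463201 (.cons 0x8901236754 (.cons 0x4365789021 .nil)))) .done (.node 5 8 .nil (.node 3 9 (.cons 0x8765421093 (.cons 0x7854610932 (.cons 0x5876423901 .nil))) .done (.node 2 7 (.cons 0x9016458723 .nil) (.node 3 5 (.cons 0x2354678901 .nil) (.node 1 5 (.cons 0x8901532764 .nil) .done .done) .done) .done)) .done)) .done) (.node 5 7 .nil (.node 3 6 (.cons 0x9875463201 (.cons 0x8901236754 (.cons 0x4365789021 .nil))) (.node 3 9 (.cons 0x8754610932 (.cons 0x8756120934 .nil)) .done .done) (.node 5 8 .nil (.node 3 7 (.cons 0x6543789021 (.cons 0x8546732901 (.cons 0x9021658734 (.cons 0x4587320961 .nil)))) .done (.node 3 5 (.cons 0x2354678901 .nil) (.node 1 5 .nil (.node 3 7 (.cons 0x4587321690 (.cons 0x8732096451 (.cons 0x2098734651 (.cons 0x8732096154 .nil)))) .done .done) .done) .done)) .done)) .done)) .done)) (.node 7 9 (.cons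 0x8790216543 .nil) (.node 1 7 .nil (.node 1 3 (.cons 0x5469871320 (.cons 0x8713465092 (.cons 0x5643178902 .nil))) (.leaf 0x4650298713 0 .done) (.node 4 7 .nil (.node 3 5 (.cons 0x1789645320 (.cons 0x3564789201 (.cons 0x8920174653 (.cons 0x8743561290 (.cons 0x8745320961 .nil))))) .done (.node 2 7 .nil (.node 1 5 (.cons 0x3465178920 (.cons 0x8901546723 (.cons 0x6451098723 .nil))) .done (.node 1 3 (.cons 0x5469871320 .nil) (.leaf 0x4650298713 0 (.node 0 6 (.cons 0x5460987231 .nil) (.leaf 0x5431278906 1 (.leaf 0x9872134560 0 .done)) (.node 3 7 (.cons 0x6543789021 .nil) (.node 5 7 (.cons 0x2098756431 .nil) .done .done) .done))) .done)) .done)) (.node 0 7 .nil (.node 1 3 (.cons 0x2134567890 (.cons 0x5469870231 (.cons 0x8907654312 .nil))) (.leaf 0x7896543120 0 .done) (.node 1 5 (.cons 0x8764329051 .nil) (.node 5 7 .nil (.node 3 6 (.cons 0x8790216345 (.cons 0x9875463201 (.cons 0x8902175634 (.cons 0x4365789021 .nil)))) .done (.node 2 5 (.cons 0x3254678901 .nil) (.node 2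 6 .nil (.node 1 8 (.cons 0x9234678150 (.cons 0x3462978150 (.cons 0x3452670981 .nil))) .done (.node 6 8 (.cons 0x3468971520 .nil) (.node 0 6 (.cons 0x8971520643 .nil) (.node 3 6 (.cons 0x4368970251 .nil) .done .done) .done) .done)) .done) .done)) (.leaf 0x9023465178 0 (.node 6 8 (.cons 0x7864329051 .nil) (.leaf 0x1543290786 1 (.node 0 6 (.cons 0x5178906432 .nil) (.node 2 6 (.cons 0x7890154623 .nil) (.node 3 6 (.cons 0x4368790512 .nil) .done .done) .done) .done)) .done))) .done)) .done))) (.node 5 9 (.cons 0x8761234590 .nil) (.node 1 5 (.cons 0x8764329051 .nil) (.node 3 9 (.cons 0x2398764510 .nil) (.node 2 5 (.cons 0x3254678901 .nil) (.node 5 7 (.cons 0x8754610932 .nil) .done .done) .done) (.node 2 8 (.cons 0x6154328790 .nil) (.node 0 6 (.cons 0x9782345160 .nil) (.node 2 6 (.cons 0x7890154623 .nil) .done (.leaf 0x3287906154 1 .done)) (.node 0 6 (.cons 0x8790615432 .nil) (.leaf 0x5160978234 0 (.leaf 0x7906154328 0 .done)) .done)) .done)) (.node 3 9 .nil (.node 5 8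 (.cons 0x6102397854 (.cons 0x4587610932 (.cons 0x4587612390 .nil))) (.node 0 6 (.cons 0x7609854321 (.cons 0x7859061234 .nil)) (.node 1 3 (.cons 0x4587961320 (.cons 0x7645890132 (.cons 0x7890654312 (.cons 0x4316587902 .nil)))) .done .done) .done) (.node 1 9 .nil (.node 5 8 (.cons 0x6197854320 (.cons 0x2345876190 (.cons 0x7854619023 .nil))) (.leaf 0x7643219058 1 .done) (.node 4 9 .nil (.node 3 5 (.cons 0x2354678901 (.cons 0x6789453210 (.cons 0x8761094532 .nil))) .done .done) .done)) .done)) .done)) .done)) .done))) .done)))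
noncomputable def tc9_2_70 : T := (.node 0 6 .nil (.node 5 8 (.cons 0x7645890123 (.cons 0x9061234587 .nil)) (.node 3 9 (.cons 0x7645893210 (.cons 0x7601239854 .nil)) (.node 7 9 (.cons 0x8790216543 (.cons 0x9785432061 (.cons 0x4587932160 .nil))) (.leaf 0x1064587932 0 .done) (.node 2 4 (.cons 0x9324587610 (.cons 0x5423987601 (.cons 0x9324587601 .nil))) .done .done)) (.node 1 7 (.cons 0x5871690234 (.cons 0x9871206543 .nil)) (.node 2 9 (.cons 0x1678543290 .nil) (.node 1 3 (.cons 0x2134567890 (.cons 0x7601329854 (.cons 0x7890654312 .nil))) (.node 1 5 (.cons 0x2346715890 (.cons 0x4329851760 (.cons 0x7158906432 .nil))) .done .done) (.leaf 0x617854329 0 .done)) (.node 3 6 (.cons 0x9871206345 .nil) (.node 2 5 (.cons 0x4523678901 (.cons 0x8906712543 .nil)) (.leaf 0x4361789025 0 (.node 1 4 (.cons 0x1452367890 (.cons 0x9871452063 (.cons 0x7890632541 .nil))) .done .done)) .done) .done)) (.node 3 7 (.cons 0x1237645890 (.cons 0x9873456021 .nil)) (.node 1 4 (.cons 0x4120965873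 .nil) (.leaf 0x6902143785 1 (.leaf 0x9658734120 0 (.node 0 4 (.cons 0x9045876123 .nil) (.node 4 9 (.cons 0x3216785490 (.cons 0x6094587321 .nil)) .done .done) .done))) (.leaf 0x2376458901 1 (.leaf 0x6458901237 0 .done))) .done))) (.node 0 4 .nil (.node 3 6 (.cons 0x9876321045 .nil) (.node 1 8 (.cons 0x5096781234 (.cons 0x9678123405 (.cons 0x9054367812 .nil))) (.leaf 0x2345096781 0 (.node 3 5 (.cons 0x7896534021 (.cons 0x7653409812 .nil)) (.node 4 7 (.cons 0x3569874012 (.cons 0x9021874365 (.cons 0x6354789012 .nil))) (.leaf 0x9874012356 0 .done) (.leaf 0x4098761235 0 .done)) .done)) .done) (.node 0 8 (.cons 0x9087612345 .nil) (.node 0 7 .nil (.node 3 8 (.cons 0x9021654387 (.cons 0x9832107645 (.cons 0x9078345612 .nil))) (.node 1 5 (.cons 0x7645109832 (.cons 0x9807643215 .nil)) (.node 2 4 (.cons 0x9016783245 (.cons 0x7024389651 .nil)) (.node 3 5 (.cons 0x9087653421 (.cons 0x4356987021 (.cons 0x8709653421 .nil))) .done .done) (.leaf 0x9076451238 0 .done)) .done) .done)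 .done) .done)) .done)) (.node 0 6 .nil (.node 1 7 (.cons 0x8716902345 (.cons 0x5432069871 .nil)) (.node 3 5 (.cons 0x6789012354 (.cons 0x9871206534 (.cons 0x4356098712 .nil))) (.node 1 3 (.cons 0x2134567890 (.cons 0x7890654312 .nil)) (.node 5 7 (.cons 0x8754320961 (.cons 0x4578960231 .nil)) (.leaf 0x8960213457 1 (.node 0 7 (.cons 0x2078965431 .nil) (.node 5 9 (.cons 0x8761234590 (.cons 0x6078954312 (.cons 0x8957132064 .nil))) .done .done) .done)) .done) (.node 2 4 (.cons 0x6534209871 .nil) (.leaf 0x3561789024 0 (.node 3 7 (.cons 0x6543789021 (.cons 0x9873456021 .nil)) (.node 5 8 (.cons 0x3245876901 (.cons 0x9065871243 .nil)) (.node 4 9 (.cons 0x2358946710 (.cons 0x2378549601 (.cons 0x9435871602 .nil))) .done (.node 4 9 (.cons 0x3216785490 (.cons 0x6094587321 .nil)) (.leaf 0x5871649023 1 .done) .done)) .done) .done)) .done)) (.node 3 6 (.cons 0x9871206345 .nil) (.node 1 3 (.cons 0x2134567890 (.cons 0x5431789602 (.cons 0x7890654312 .nil))) (.node 2 5 (.cons 0x8716902543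 (.cons 0x3452069871 (.cons 0x8906712543 .nil))) (.node 3 8 (.cons 0x5438716902 (.cons 0x7138960254 (.cons 0x7125460983 .nil))) (.node 5 8 (.cons 0x7854320961 (.cons 0x7134589602 (.cons 0x9061234587 .nil))) .done .done) .done) .done) .done) .done)) (.node 3 6 .nil (.node 7 9 (.cons 0x8790216543 (.cons 0x8790216345 .nil)) (.node 1 8 (.cons 0x2345096781 (.cons 0x9781205634 (.cons 0x4365097812 (.cons 0x9054367812 .nil)))) (.node 4 9 (.cons 0x3490567812 (.cons 0x5094367812 .nil)) (.node 5 7 (.cons 0x5764321890 (.cons 0x4578963201 (.cons 0x8754901632 (.cons 0x6321875094 .nil)))) .done .done) .done) (.node 1 8 (.cons 0x2345096781 (.cons 0x4502369781 (.cons 0x6321879054 (.cons 0x9054367812 .nil)))) (.node 4 9 (.cons 0x3490567812 (.cons 0x5094367812 .nil)) (.node 5 7 (.cons 0x5764321890 (.cons 0x8123649750 (.cons 0x8754901632 .nil))) .done .done) .done) .done)) (.node 4 9 (.cons 0x5498763210 .nil) (.node 6 8 (.cons 0x9450123687 .nil) (.node 2 6 .nil (.node 0 7 (.cons 0x9450786321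 (.cons 0x5498701263 .nil)) (.node 5 8 (.cons 0x7854320961 (.cons 0x9458701623 (.cons 0x9078543261 (.cons 0x7854901623 .nil)))) .done .done) .done) .done) (.node 0 4 (.cons 0x9876321045 .nil) (.node 0 3 (.cons 0x5498763012 .nil) (.node 0 8 (.cons 0x9087612345 .nil) (.node 0 7 .nil (.node 1 5 (.cons 0x7896320154 (.cons 0x6987023451 (.cons 0x9807634512 (.cons 0x8709615432 .nil)))) .done .done) .done) .done) .done) .done)) .done)) .done)) (.node 0 8 (.cons 0x9087612345 .nil) (.node 0 6 .nil (.node 1 7 (.cons 0x9871206543 .nil) (.node 0 3 (.cons 0x8903456712 .nil) (.leaf 0x7896543021 0 .done) (.node 3 5 (.cons 0x6789012354 (.cons 0x9871206534 (.cons 0x4356098712 .nil))) (.node 1 3 (.cons 0x2134567890 (.cons 0x7890654312 .nil)) (.node 5 9 (.cons 0x8761234590 (.cons 0x4317895602 .nil)) (.node 0 3 (.cons 0x4306598712 .nil) (.node 0 7 (.cons 0x6078954312 .nil) .done .done) .done) .done) (.node 2 8 (.cons 0x7645328901 .nil) (.node 1 4 (.cons 0x6534178902 (.cons 0x7896023541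 (.cons 0x9605328714 .nil))) (.node 2 9 (.cons 0x5341678092 (.cons 0x9287605341 .nil)) (.leaf 0x6014532987 0 .done) .done) (.leaf 0x3289017645 1 .done)) .done)) (.node 1 4 (.cons 0x8769054123 .nil) (.node 1 8 (.cons 0x4509678123 .nil) (.node 3 7 (.cons 0x3789654120 (.cons 0x9873456021 (.cons 0x9065437812 (.cons 0x9873412065 (.cons 0x9605418732 .nil))))) .done .done) (.node 1 8 (.cons 0x4509678123 .nil) (.node 3 7 (.cons 0x6543789021 (.cons 0x5412378960 (.cons 0x5609873412 (.cons 0x9605418732 .nil)))) (.node 2 5 (.cons 0x4125690873 (.cons 0x8906712543 .nil)) (.leaf 0x4125609873 0 (.leaf 0x652143789 0 .done)) .done) .done) .done)) .done))) (.node 0 7 .nil (.node 3 8 (.cons 0x4509678321 (.cons 0x9832107645 (.cons 0x9078345612 .nil))) (.node 1 5 (.cons 0x7645109832 (.cons 0x7023896451 (.cons 0x4516907832 .nil))) (.node 2 4 (.cons 0x9016783245 (.cons 0x1542389670 .nil)) (.leaf 0x5423896701 1 .done) .done) .done) (.node 0 4 .nil (.node 1 3 (.cons 0x2134567890 (.cons 0x7896540213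 (.cons 0x5678904312 .nil))) (.node 2 8 (.cons 0x7654312890 (.cons 0x5407698213 (.cons 0x7654098213 .nil))) .done (.node 0 3 (.cons 0x7896540312 .nil) (.node 3 5 (.cons 0x6789012354 (.cons 0x6987045312 .nil)) (.leaf 0x4098761235 0 .done) .done) .done)) .done) .done)) .done)) (.node 0 4 .nil (.node 3 5 (.cons 0x6789012354 .nil) (.leaf 0x2167890453 1 (.node 1 3 (.cons 0x2134567890 (.cons 0x7698045312 (.cons 0x5678904312 .nil))) (.node 1 8 (.cons 0x4509678123 (.cons 0x7698123540 (.cons 0x7653409812 .nil))) .done .done) (.node 1 3 (.cons 0x2134567890 (.cons 0x7896540213 (.cons 0x5678904312 .nil))) (.node 2 8 (.cons 0x7654312890 (.cons 0x9043561287 (.cons 0x7654098213 .nil))) (.node 0 7 (.cons 0x9821340765 (.cons 0x5407698231 .nil)) .done .done) .done) (.leaf 0x4098761235 0 .done)))) (.node 0 7 .nil (.node 1 3 (.cons 0x2134567890 (.cons 0x4569870213 (.cons 0x8907654312 .nil))) (.leaf 0x7896543120 0 (.node 2 5 (.cons 0x4312567890 (.cons 0x9807643125 (.cons 0x8907652134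 .nil))) (.node 4 8 (.cons 0x9056784312 (.cons 0x7098465213 .nil)) (.leaf 0x7652134890 0 .done) .done) .done)) (.node 0 6 .nil (.node 1 7 (.cons 0x9871206543 .nil) (.node 0 3 (.cons 0x8903456712 .nil) .done (.node 7 9 (.cons 0x8790216543 .nil) (.node 3 7 (.cons 0x6543789021 (.cons 0x9873456021 .nil)) (.node 1 8 (.cons 0x3456187902 (.cons 0x9781602345 (.cons 0x9065437812 .nil))) (.node 1 9 (.cons 0x8734560912 .nil) (.leaf 0x4560219873 0 (.node 5 7 (.cons 0x5764321890 (.cons 0x8912345760 .nil)) (.leaf 0x1234675098 0 .done) .done)) .done) .done) .done) .done)) .done) .done)) .done)) (.node 2 9 (.cons 0x5432908761 .nil) (.node 1 5 (.cons 0x9087615432 .nil) (.node 0 6 (.cons 0x7608923451 .nil) (.node 0 4 (.cons 0x9876043215 .nil) (.node 0 7 (.cons 0x6708923451 .nil) .done .done) .done) (.node 0 4 .nil (.node 1 3 (.cons 0x2134567890 (.cons 0x7698045132 (.cons 0x5678904312 .nil))) (.node 3 5 (.cons 0x6789012354 .nil) (.leaf 0x2167890453 1 (.leaf 0x4098761235 0 .done)) .done)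 (.node 0 7 .nil (.node 1 3 (.cons 0x2134567890 (.cons 0x8921345670 .nil)) (.leaf 0x7896543120 0 (.leaf 0x6708921345 0 .done)) (.node 0 6 .nil (.node 3 5 (.cons 0x6789012354 (.cons 0x9876012354 .nil)) (.node 4 8 (.cons 0x7845321690 (.cons 0x7065348921 .nil)) (.leaf 0x6129078435 0 .done) (.node 1 4 (.cons 0x6789014532 (.cons 0x7896023541 .nil)) (.leaf 0x3541067892 0 .done) .done)) .done) .done)) .done)) (.leaf 0x4329087615 0 .done))) (.node 1 5 (.cons 0x9087615432 .nil) (.node 0 4 (.cons 0x9234087615 .nil) (.node 1 4 (.cons 0x8769054123 .nil) (.node 0 6 (.cons 0x5129876043 .nil) (.node 0 7 .nil (.node 0 3 (.cons 0x8921567034 .nil) .done .done) .done) .done) .done) (.leaf 0x923451678 1 (.leaf 0x8092345167 0 .done))) .done)) .done))) .done)))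
noncomputable def tc9_2_71 : T := (.node 3 8 (.cons 0x9021654387 .nil) (.node 2 8 .nil (.node 3 9 (.cons 0x5467893210 (.cons 0x7821654390 (.cons 0x4390567821 (.cons 0x9328764501 .nil)))) (.node 0 7 (.cons 0x8932107645 (.cons 0x5467012893 .nil)) (.node 1 7 (.cons 0x7120893465 (.cons 0x6543982071 (.cons 0x5643982071 (.cons 0x9346712805 .nil)))) .done .done) .done) (.node 1 8 (.cons 0x9054321876 .nil) (.node 1 3 (.cons 0x2134567890 .nil) (.node 0 3 .nil (.node 1 9 (.cons 0x9123467805 (.cons 0x7891203465 (.cons 0x9128764503 .nil))) .done (.node 1 4 (.cons 0x7654130982 .nil) (.node 1 9 (.cons 0x5467891032 .nil) (.node 1 5 (.cons 0x7891564302 .nil) (.node 1 7 (.cons 0x4567130982 .nil) .done .done) .done) .done) .done)) (.node 5 8 .nil (.node 3 9 (.cons 0x5467893210 (.cons 0x7645893210 (.cons 0x4587610932 .nil))) (.node 4 9 (.cons 0x7821394650 (.cons 0x7612349085 (.cons 0x6785094312 (.cons 0x7856134902 .nil)))) .done .done) (.node 6 8 .nil (.node 3 5 (.cons 0x9876453210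 (.cons 0x7689012354 .nil)) (.node 4 9 (.cons 0x7856134902 (.cons 0x9450123867 (.cons 0x7865094312 (.cons 0x7861094532 .nil)))) (.leaf 0x7821349056 1 .done) .done) .done) .done)) .done)) (.node 2 9 (.cons 0x6781290543 .nil) (.node 6 8 (.cons 0x7681290543 .nil) (.node 0 6 (.cons 0x9218345067 .nil) (.node 3 6 (.cons 0x9054367812 .nil) (.node 2 6 .nil (.node 4 9 (.cons 0x7683294501 (.cons 0x7812634905 (.cons 0x9450126783 (.cons 0x7629450183 .nil)))) .done .done) .done) .done) .done) (.node 0 3 (.cons 0x9218764305 .nil) (.node 2 6 (.cons 0x7621890345 .nil) (.node 2 4 (.cons 0x9830124567 .nil) (.node 2 7 (.cons 0x8903456721 .nil) (.node 2 5 .nil (.node 3 6 (.cons 0x9054367812 (.cons 0x9052187634 (.cons 0x4523678901 .nil))) .done .done) .done) .done) .done) (.node 2 5 (.cons 0x9876452301 .nil) (.node 1 9 (.cons 0x5467891032 .nil) (.node 0 7 (.cons 0x2198345670 .nil) (.node 1 5 (.cons 0x7645198230 .nil) (.leaf 0x8915467032 0 .done) .done) (.leaf 0x3019876452 0 .done)) (.node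 2 6 (.cons 0x7625430981 .nil) .done .done)) .done)) .done)) .done)) .done)) (.node 0 7 (.cons 0x9078345612 .nil) (.node 1 8 (.cons 0x9054321876 .nil) (.node 1 7 .nil (.node 3 9 (.cons 0x5467893210 (.cons 0x7120893465 (.cons 0x5643987120 (.cons 0x8716543902 .nil)))) .done (.node 1 3 (.cons 0x2134567890 .nil) (.node 2 8 (.cons 0x7654312890 .nil) (.node 2 9 (.cons 0x9217834650 .nil) (.leaf 0x3871290564 1 (.leaf 0x8346509217 0 .done)) .done) .done) .done)) (.node 4 8 .nil (.node 3 9 (.cons 0x5467893210 (.cons 0x7843902165 (.cons 0x5487610932 .nil))) (.node 1 7 (.cons 0x7120893465 (.cons 0x9348056712 (.cons 0x8439056712 .nil))) .done .done) (.node 4 7 .nil (.node 2 9 (.cons 0x7834561290 (.cons 0x7438092165 (.cons 0x9210564783 (.cons 0x3874561290 .nil)))) .done (.node 2 4 .nil (.node 3 6 (.cons 0x9054367812 (.cons 0x9012478365 (.cons 0x5423678901 .nil))) (.node 3 9 (.cons 0x5467893210 (.cons 0x8765093421 (.cons 0x7839016542 .nil))) .done .done) (.node 0 4 .nil (.node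 2 9 (.cons 0x7834561290 (.cons 0x7834092165 .nil)) (.node 0 3 (.cons 0x6547830921 .nil) (.leaf 0x9216547830 0 (.leaf 0x8745612903 1 .done)) .done) .done) .done)) .done)) .done)) .done)) (.node 0 3 .nil (.node 2 9 (.cons 0x7834561290 (.cons 0x7830921654 .nil)) (.node 1 7 (.cons 0x8345617092 (.cons 0x8921765430 (.cons 0x9871203465 .nil))) (.leaf 0x2980345671 0 .done) (.node 1 8 (.cons 0x9054321876 (.cons 0x9218765034 (.cons 0x9218764305 .nil))) .done .done)) (.node 0 6 .nil (.node 3 5 (.cons 0x9876453210 (.cons 0x9876012354 .nil)) (.node 3 9 (.cons 0x5467893210 .nil) (.node 5 7 (.cons 0x8756120934 (.cons 0x4398756021 (.cons 0x9061238754 .nil))) .done .done) .done) .done) .done)) .done)) (.node 0 3 .nil (.node 1 7 (.cons 0x9871203456 (.cons 0x9871203465 .nil)) (.node 3 9 (.cons 0x7120893465 (.cons 0x9346508712 (.cons 0x5643987120 .nil))) .done (.node 2 9 (.cons 0x9238764501 (.cons 0x5467103892 (.cons 0x9203871645 .nil))) (.node 5 9 (.cons 0x8761234590 (.cons 0x5980346712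 (.cons 0x8712950346 (.cons 0x8716430295 (.cons 0x9546178302 .nil))))) .done .done) .done)) (.node 3 9 (.cons 0x5467893210 .nil) (.node 6 8 (.cons 0x9321054687 .nil) (.node 3 5 (.cons 0x9876453210 .nil) (.node 1 3 (.cons 0x2134567890 .nil) (.node 3 6 .nil (.node 0 4 (.cons 0x5678904312 (.cons 0x9876354012 .nil)) (.node 0 6 (.cons 0x9876012354 .nil) .done .done) .done) .done) .done) .done) (.node 3 6 .nil (.node 5 7 (.cons 0x8756120934 (.cons 0x9875463201 .nil)) (.node 1 4 (.cons 0x6578934120 (.cons 0x9802143657 .nil)) (.leaf 0x3657890214 0 (.leaf 0x2143657890 1 .done)) (.node 4 9 (.cons 0x5764980321 (.cons 0x2094578361 (.cons 0x8754902361 .nil))) (.leaf 0x945783612 1 (.leaf 0x5783612094 0 .done)) .done)) .done) .done)) .done)) .done))) (.node 0 7 .nil (.node 1 3 (.cons 0x2134567890 (.cons 0x9870213456 (.cons 0x8907654312 (.cons 0x9870213465 .nil)))) (.node 5 9 (.cons 0x8761234590 (.cons 0x8954670123 (.cons 0x6459870123 (.cons 0x6459870132 .nil)))) (.leaf 0x7895643120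 0 .done) .done) (.node 1 5 (.cons 0x9870215643 .nil) (.node 2 5 (.cons 0x9087612543 .nil) (.node 1 7 .nil (.node 3 5 (.cons 0x9876453210 (.cons 0x9807125346 (.cons 0x9871023546 .nil))) .done (.node 2 4 .nil (.node 3 6 (.cons 0x9870215634 (.cons 0x9807634215 (.cons 0x9876324510 .nil))) (.leaf 0x8763245109 0 .done) (.node 4 7 .nil (.node 1 8 (.cons 0x9054321876 (.cons 0x6521890743 (.cons 0x3476521890 .nil))) .done (.node 4 8 (.cons 0x3489076521 .nil) (.node 7 9 (.cons 0x8097612543 .nil) (.node 1 8 (.cons 0x9054321876 .nil) (.node 0 3 (.cons 0x3089764521 .nil) (.leaf 0x4879032165 1 (.leaf 0x1847903256 0 .done)) .done) .done) .done) .done)) .done)) .done)) (.node 5 7 .nil (.node 3 6 (.cons 0x9870215634 (.cons 0x8901236754 (.cons 0x4365789021 (.cons 0x9875463201 .nil)))) .done (.node 5 8 .nil (.node 3 9 (.cons 0x5467893210 (.cons 0x7645893210 (.cons 0x4390785612 (.cons 0x7856120934 (.cons 0x4587610932 .nil))))) .done (.node 3 5 (.cons 0x9876453210 .nil) (.node 5 9 (.cons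 0x8761234590 .nil) .done .done) .done)) .done)) .done)) (.node 2 5 (.cons 0x9087612543 .nil) (.node 3 5 (.cons 0x9876453210 .nil) (.node 2 9 (.cons 0x5129807643 .nil) (.leaf 0x8076435129 0 (.leaf 0x1298076435 1 (.node 5 9 (.cons 0x8951234670 .nil) (.node 2 8 (.cons 0x1598234670 .nil) (.node 0 4 (.cons 0x3564078921 .nil) (.node 1 3 (.cons 0x4653129870 .nil) (.leaf 0x9213564078 0 (.node 2 4 (.cons 0x5987642310 .nil) (.leaf 0x8761342590 0 .done) .done)) (.leaf 0x3287615904 0 .done)) .done) .done) .done))) (.node 5 7 .nil (.node 3 9 (.cons 0x5467893210 (.cons 0x8934657021 (.cons 0x6457893210 (.cons 0x2157643980 .nil)))) .done (.node 5 8 (.cons 0x9851234670 .nil) (.node 5 9 (.cons 0x8951234670 .nil) .done .done) .done)) .done)) (.node 2 9 (.cons 0x5129807643 .nil) (.node 2 4 (.cons 0x8907651243 .nil) (.node 2 7 .nil (.node 3 9 (.cons 0x5467893210 (.cons 0x8934651270 (.cons 0x5127643980 (.cons 0x8932764510 .nil)))) .done (.node 5 7 (.cons 0x8092167543 .nil) (.node 3 5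 (.cons 0x9876453210 .nil) (.node 5 8 (.cons 0x9851234670 .nil) (.node 5 9 (.cons 0x8951234670 .nil) .done .done) (.leaf 0x8076435129 0 .done)) .done) .done)) .done) (.node 3 9 (.cons 0x5467893210 .nil) (.leaf 0x1678093452 0 (.leaf 0x2934678051 1 (.leaf 0x4678051293 0 .done))) .done)) .done)) (.node 0 3 (.cons 0x9870346512 .nil) (.node 0 6 (.cons 0x9870643215 .nil) (.node 0 4 .nil (.node 3 5 (.cons 0x9876453210 .nil) (.leaf 0x2167890453 1 (.leaf 0x4098761235 0 .done)) .done) .done) (.node 2 9 (.cons 0x3465129870 .nil) (.leaf 0x3015467892 0 (.node 0 6 (.cons 0x9870643215 .nil) (.node 0 4 .nil (.node 3 5 (.cons 0x9876453210 (.cons 0x1298765340 .nil)) (.leaf 0x2987653401 0 .done) .done) .done) (.leaf 0x8923015467 1 .done))) .done)) .done))) (.node 0 4 .nil (.node 3 5 (.cons 0x9876453210 .nil) (.leaf 0x2167890453 1 (.node 7 9 (.cons 0x8976453210 (.cons 0x8976401235 .nil)) (.node 2 8 (.cons 0x3546798210 (.cons 0x6798210453 (.cons 0x7653409821 (.cons 0x8216790453 .nil))))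 .done (.node 1 3 (.cons 0x2135467980 (.cons 0x6798045312 (.cons 0x5678904312 .nil))) (.node 1 8 (.cons 0x6453207981 (.cons 0x6798123540 (.cons 0x5321897640 .nil))) .done .done) .done)) (.node 7 9 (.cons 0x8790216543 (.cons 0x8790435612 (.cons 0x8790453216 .nil))) (.node 2 8 (.cons 0x6128790435 (.cons 0x6128790453 .nil)) (.node 3 9 (.cons 0x5467893210 (.cons 0x8210546793 (.cons 0x4390567821 (.cons 0x2879354610 .nil)))) .done (.node 3 9 (.cons 0x5467893210 (.cons 0x7654012893 (.cons 0x9340567821 (.cons 0x6104539782 .nil)))) .done .done)) .done) (.leaf 0x4098761235 0 .done)))) (.node 0 3 .nil (.node 2 4 (.cons 0x9876542103 .nil) (.node 3 9 (.cons 0x8765093421 (.cons 0x8761093245 .nil)) (.leaf 0x6542103987 0 (.leaf 0x5678930124 1 .done)) (.node 1 7 (.cons 0x9871203456 (.cons 0x9871203465 .nil)) (.node 0 6 (.cons 0x9871206543 .nil) (.node 5 9 (.cons 0x8761234590 (.cons 0x5987123460 (.cons 0x6459871023 (.cons 0x8761230954 .nil)))) (.leaf 0x6430217895 0 .done) .done) (.node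 2 5 (.cons 0x9087612543 (.cons 0x8903452176 .nil)) (.node 4 9 (.cons 0x6789452103 (.cons 0x6789452301 .nil)) (.node 3 8 (.cons 0x9450123876 (.cons 0x9452387016 (.cons 0x9438702561 (.cons 0x9452387610 .nil)))) .done (.leaf 0x2567894301 0 .done)) (.node 3 9 (.cons 0x6452178930 (.cons 0x8930467125 (.cons 0x6452039871 .nil))) (.leaf 0x1678093452 0 .done) .done)) .done)) .done)) (.node 0 6 .nil (.node 3 7 (.cons 0x6543789021 (.cons 0x9873456021 .nil)) (.node 2 4 (.cons 0x5678903421 .nil) (.node 5 7 (.cons 0x9875643021 .nil) (.node 1 9 (.cons 0x6578912034 (.cons 0x8912345760 (.cons 0x8734560912 (.cons 0x8912340675 (.cons 0x6021987543 .nil))))) .done (.node 1 9 (.cons 0x4657891203 (.cons 0x3219875460 .nil)) (.leaf 0x2034657891 0 (.leaf 0x8756430219 1 (.leaf 0x8754603219 0 .done))) .done)) .done) .done) .done) .done)) .done)) .done))) (.node 2 9 (.cons 0x5432908761 .nil) (.node 1 5 (.cons 0x9087615432 .nil) (.node 2 5 .nil (.node 1 3 (.cons 0x2134567890 (.cons 0x9801325467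 (.cons 0x4312567890 .nil))) (.leaf 0x4529087613 0 .done) (.node 5 7 (.cons 0x8092345761 .nil) (.node 5 9 (.cons 0x8761234590 .nil) (.node 5 8 .nil (.node 0 6 (.cons 0x7608923451 (.cons 0x7609854321 (.cons 0x7859061234 .nil))) .done .done) .done) .done) .done)) (.node 2 4 .nil (.node 3 9 (.cons 0x5467893210 (.cons 0x8765093421 (.cons 0x8761093245 .nil))) (.node 3 7 (.cons 0x5467329801 (.cons 0x3765429801 (.cons 0x8739012456 (.cons 0x7398015642 (.cons 0x8739016542 .nil))))) .done .done) (.node 1 3 (.cons 0x2134567890 .nil) (.node 0 7 (.cons 0x8921345670 .nil) (.leaf 0x3129807654 1 (.leaf 0x4312980765 0 .done)) (.node 3 9 (.cons 0x5467893210 .nil) (.node 5 7 (.cons 0x8092345761 .nil) (.leaf 0x1089324675 0 (.leaf 0x6423980157 1 (.node 1 4 (.cons 0x3987564120 .nil) (.node 1 9 (.cons 0x9164578023 .nil) .done .done) .done))) (.node 3 5 (.cons 0x9876453210 .nil) (.node 2 5 (.cons 0x8761093254 .nil) (.node 1 4 (.cons 0x8761452390 .nil) (.leaf 0x7614523908 0 .done) .done)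 .done) .done)) (.node 3 8 (.cons 0x9012456783 .nil) (.node 4 7 (.cons 0x9238016745 .nil) (.node 4 8 (.cons 0x9056784312 .nil) (.node 0 7 (.cons 0x1298345670 .nil) (.node 3 5 (.cons 0x9876453210 .nil) (.leaf 0x6129078435 0 (.leaf 0x4356129078 1 .done)) .done) .done) (.node 3 5 (.cons 0x9876453210 .nil) (.leaf 0x4653102987 0 (.leaf 0x135647892 0 .done)) .done)) (.node 3 9 (.cons 0x5467893210 .nil) (.leaf 0x5421093876 0 .done) .done)) .done))) .done)) (.leaf 0x4329087615 0 .done))) (.node 1 5 (.cons 0x9234678051 .nil) (.node 0 4 (.cons 0x9234087615 .nil) (.node 0 3 .nil (.node 4 8 (.cons 0x3487650921 (.cons 0x7843092165 (.cons 0x9215034876 .nil))) .done (.node 0 6 .nil (.node 0 7 (.cons 0x8921567043 .nil) (.node 7 9 (.cons 0x8790216543 (.cons 0x8976045123 .nil)) (.leaf 0x6154329780 0 .done) .done) .done) .done)) (.node 4 8 (.cons 0x3487650921 .nil) (.node 0 7 (.cons 0x5612907843 .nil) (.node 0 3 (.cons 0x7843092165 .nil) (.node 0 6 (.cons 0x5129876043 .nil) .done .done)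 .done) .done) .done)) (.leaf 0x923451678 1 (.leaf 0x8092345167 0 .done))) (.node 0 3 .nil (.node 1 5 (.cons 0x9087615432 (.cons 0x9230876154 .nil)) (.node 4 8 (.cons 0x7615480923 (.cons 0x7845612903 (.cons 0x5487612903 .nil))) .done (.leaf 0x8923015467 1 .done)) (.node 2 8 (.cons 0x7654309821 .nil) (.node 7 9 (.cons 0x1289765430 .nil) (.leaf 0x2897654301 0 (.node 0 6 (.cons 0x5430679821 .nil) (.node 0 7 .nil (.node 1 5 (.cons 0x6798215430 (.cons 0x3298076451 (.cons 0x9870643215 .nil))) (.leaf 0x9760345128 0 .done) .done) .done) (.leaf 0x5679821034 0 .done))) (.node 0 4 .nil (.node 3 5 (.cons 0x9876453210 (.cons 0x9235408761 (.cons 0x9043561287 .nil))) (.leaf 0x4098761235 0 .done) (.node 0 7 .nil (.node 1 5 (.cons 0x9087615432 (.cons 0x9821567034 (.cons 0x3298076451 (.cons 0x9821564307 .nil)))) .done (.node 0 6 .nil (.node 1 3 (.cons 0x2134567890 (.cons 0x5406789213 (.cons 0x7890654312 .nil))) (.node 4 8 (.cons 0x9056784312 .nil) (.leaf 0x5092134876 0 .done) .done)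 .done) .done)) .done)) .done)) (.node 0 7 .nil (.node 1 3 (.cons 0x2134567890 (.cons 0x9870213456 (.cons 0x5467089231 .nil))) (.node 5 9 (.cons 0x8761234590 (.cons 0x8954670123 (.cons 0x6459870123 (.cons 0x6459870132 .nil)))) .done .done) (.node 3 8 (.cons 0x9021654387 .nil) (.node 0 4 .nil (.node 3 9 (.cons 0x5467893210 (.cons 0x8392167045 (.cons 0x7839216540 (.cons 0x7839204561 .nil)))) .done (.node 0 6 .nil (.node 1 3 (.cons 0x2134567890 (.cons 0x7890654312 .nil)) (.node 1 7 (.cons 0x3892176540 (.cons 0x9871206543 .nil)) (.leaf 0x2317645089 0 .done) .done) .done) .done)) (.node 3 9 (.cons 0x5467893210 .nil) (.node 1 3 (.cons 0x2134567890 .nil) (.node 3 5 (.cons 0x9876453210 .nil) (.node 4 8 (.cons 0x1678453290 .nil) (.leaf 0x6784532901 0 .done) .done) .done) (.leaf 0x8705461293 0 .done)) .done)) .done)) .done))) .done))) .done)))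
noncomputable def tc9_2_72 : T := (.node 0 6 (.cons 0x9873456021 .nil) (.node 4 6 (.cons 0x5467890123 .nil) (.node 5 7 (.cons 0x8906754321 .nil) (.node 4 7 .nil (.node 3 5 (.cons 0x6789012354 (.cons 0x8901235476 .nil)) (.node 1 8 (.cons 0x2345760981 (.cons 0x7435609812 .nil)) (.node 6 9 (.cons 0x1698754320 (.cons 0x8746901235 (.cons 0x2354789610 (.cons 0x5473218960 .nil)))) .done (.leaf 0x9067453218 0 .done)) .done) (.node 0 7 (.cons 0x9870216543 .nil) (.node 7 9 (.cons 0x8973456021 .nil) (.node 1 7 (.cons 0x8906712345 .nil) (.node 2 7 .nil (.node 0 3 (.cons 0x9872034561 .nil) (.node 1 4 (.cons 0x8975416023 (.cons 0x8973021456 (.cons 0x8973065412 .nil))) .done .done) .done) .done) .done) .done) .done)) (.node 0 4 .nil (.node 3 9 (.cons 0x7893456120 (.cons 0x8932167540 (.cons 0x6123987540 (.cons 0x4021657893 (.cons 0x5401678932 .nil))))) .done (.node 3 6 (.cons 0x9875402163 .nil) (.node 1 4 (.cons 0x8906754123 .nil) (.node 1 5 (.cons 0x7890215634 .nil) (.node 5 8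 (.cons 0x4123675890 .nil) (.leaf 0x7632140985 0 (.node 2 9 (.cons 0x6732985410 .nil) (.leaf 0x5892041637 0 (.leaf 0x7329854106 0 (.leaf 0x4029857361 0 .done))) .done)) .done) (.leaf 0x9875634120 0 .done)) (.node 6 9 (.cons 0x8769054321 .nil) (.node 1 4 (.cons 0x5698734120 .nil) (.leaf 0x2143789650 1 (.leaf 0x3789650214 0 .done)) (.node 0 3 (.cons 0x4569873021 .nil) (.node 0 7 (.cons 0x9870216543 .nil) (.node 4 7 (.cons 0x9874302165 .nil) .done .done) .done) .done)) .done)) (.node 0 3 .nil (.node 2 9 (.cons 0x5401678923 (.cons 0x8923045761 (.cons 0x5403298761 .nil))) (.node 4 8 (.cons 0x3487650921 (.cons 0x9845760321 (.cons 0x9210378465 (.cons 0x9216784305 .nil)))) .done .done) (.node 0 7 (.cons 0x9870216543 .nil) (.node 4 7 (.cons 0x9874302165 .nil) .done .done) .done)) .done))) .done)) (.node 0 4 .nil (.node 6 9 (.cons 0x5469873201 (.cons 0x5698734021 (.cons 0x3789654021 .nil))) .done (.node 6 9 (.cons 0x5469873201 .nil) (.node 1 4 (.cons 0x5698734120 .nil) (.node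 4 7 .nil (.node 1 5 (.cons 0x4378965120 (.cons 0x8964732015 (.cons 0x8743215096 .nil))) .done .done) (.leaf 0x2143789650 1 (.leaf 0x3789650214 0 .done))) (.node 6 8 .nil (.node 1 9 (.cons 0x6543789120 (.cons 0x7345689120 (.cons 0x9105468732 (.cons 0x9120568734 (.cons 0x4502196873 .nil))))) .done (.node 4 9 (.cons 0x9437865021 .nil) (.node 0 8 (.cons 0x8054967321 .nil) (.leaf 0x9456732108 0 .done) (.node 5 7 (.cons 0x9432168750 .nil) (.leaf 0x689457321 1 (.node 2 6 (.cons 0x3789456210 .nil) (.node 3 6 (.cons 0x4905786321 .nil) .done .done) .done)) .done)) .done)) .done)) .done)) .done)) (.node 0 7 (.cons 0x9870216543 .nil) (.node 0 8 .nil (.node 6 9 (.cons 0x8769054321 (.cons 0x7345698021 .nil)) (.node 1 5 (.cons 0x7896154320 (.cons 0x4510896732 .nil)) (.node 4 6 (.cons 0x2378964510 (.cons 0x9645108732 (.cons 0x9801237645 .nil))) .done .done) (.node 0 4 (.cons 0x5408967321 .nil) (.node 1 5 (.cons 0x6987320451 (.cons 0x4512376980 .nil)) (.node 4 6 (.cons 0x5467890123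 (.cons 0x9645123780 (.cons 0x7321546980 .nil))) .done .done) .done) .done)) (.node 0 4 .nil (.node 3 9 (.cons 0x7893456120 (.cons 0x8937654012 (.cons 0x7893402165 (.cons 0x5401678932 .nil)))) (.node 0 3 (.cons 0x7893045612 .nil) (.node 3 5 (.cons 0x6789012354 (.cons 0x9876104532 .nil)) .done .done) .done) (.node 0 3 .nil (.node 5 9 (.cons 0x4378956021 (.cons 0x8954307612 (.cons 0x4598761032 (.cons 0x4598761230 .nil)))) (.node 2 4 (.cons 0x1243789560 (.cons 0x7895603421 .nil)) (.node 4 6 (.cons 0x6459873210 (.cons 0x7895461032 .nil)) .done .done) .done) .done) .done)) .done)) (.node 5 7 .nil (.node 1 5 (.cons 0x8906751234 (.cons 0x6098751234 .nil)) .done (.node 0 8 .nil (.node 0 3 (.cons 0x9803216754 .nil) .done (.node 0 4 .nil (.node 3 9 (.cons 0x7893456120 (.cons 0x8932167540 (.cons 0x6123987540 (.cons 0x4021657893 (.cons 0x5401678932 .nil))))) .done (.node 0 3 .nil (.node 5 9 (.cons 0x4378956021 (.cons 0x4598761032 .nil)) (.leaf 0x4302167895 0 (.node 2 4 (.cons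 0x1243789560 (.cons 0x7895603421 .nil)) (.node 4 6 (.cons 0x6459873210 (.cons 0x7895461032 .nil)) .done .done) .done)) .done) .done)) .done)) .done)) .done)) (.node 4 6 (.cons 0x5467890123 .nil) (.node 0 7 (.cons 0x9870216543 .nil) (.node 0 3 .nil (.node 5 9 (.cons 0x7895432061 (.cons 0x4307895612 (.cons 0x4598761032 (.cons 0x4598761230 .nil)))) (.leaf 0x4302167895 0 .done) (.node 0 4 .nil (.node 3 5 (.cons 0x9870216534 (.cons 0x9870435612 (.cons 0x9876104532 .nil))) .done (.node 0 8 .nil (.node 5 7 (.cons 0x9875432061 (.cons 0x9803216754 .nil)) (.node 2 9 (.cons 0x8921037654 (.cons 0x1675432980 (.cons 0x4567308921 .nil))) (.node 1 4 (.cons 0x3416578920 (.cons 0x5673412980 (.cons 0x7561430892 .nil))) .done .done) .done) .done) .done)) .done)) (.node 0 4 .nil (.node 6 9 (.cons 0x8769054321 (.cons 0x8967321045 (.cons 0x5698734021 (.cons 0x3789654021 .nil)))) .done (.node 4 7 .nil (.node 3 6 (.cons 0x9870216345 (.cons 0x8901236745 (.cons 0x5634789021 .nil))) .done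 (.node 5 7 (.cons 0x9875432061 .nil) (.node 0 8 (.cons 0x9804576123 .nil) (.node 0 3 .nil (.node 5 9 (.cons 0x9564378021 (.cons 0x8954307612 (.cons 0x9578032164 (.cons 0x4598761032 .nil)))) .done .done) .done) .done) .done)) .done)) .done)) (.node 0 4 .nil (.node 6 9 (.cons 0x8769054321 (.cons 0x5698734021 (.cons 0x3789654021 .nil))) .done (.node 0 7 (.cons 0x9870216543 .nil) (.node 0 8 (.cons 0x9801237645 .nil) .done .done) .done)) .done)) .done))) (.leaf 0x4561209873 0 (.node 1 5 (.cons 0x6512098734 .nil) (.node 0 7 (.cons 0x9870216543 .nil) (.node 0 4 (.cons 0x8904376512 .nil) (.node 0 3 .nil (.node 2 8 (.cons 0x4376512890 (.cons 0x9821543076 (.cons 0x7651289034 .nil))) (.node 7 9 (.cons 0x8973402165 (.cons 0x4516798230 (.cons 0x8976123045 .nil))) .done .done) (.node 1 7 (.cons 0x9871654302 .nil) (.node 1 3 (.cons 0x2134567890 .nil) (.node 0 6 (.cons 0x7890654312 .nil) (.node 2 7 (.cons 0x6543127890 .nil) (.leaf 0x3127890654 0 (.leaf 0x9872134560 0 .done)) .done)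 .done) .done) .done)) (.node 0 3 .nil (.node 2 8 (.cons 0x4376512890 (.cons 0x9821543076 (.cons 0x7651289034 (.cons 0x9823045167 .nil)))) .done (.node 1 7 (.cons 0x8903456712 .nil) (.node 1 3 (.cons 0x2134567890 .nil) (.node 0 6 (.cons 0x7890654312 .nil) (.node 2 7 (.cons 0x6543127890 .nil) (.leaf 0x3127890654 0 (.leaf 0x9872134560 0 .done)) .done) .done) .done) .done)) .done)) (.node 0 3 .nil (.node 2 8 (.cons 0x9823451670 (.cons 0x7651289034 (.cons 0x9823076154 .nil))) (.node 1 9 (.cons 0x3456198702 (.cons 0x4307651982 (.cons 0x6703451982 .nil))) (.node 2 7 (.cons 0x8721903456 .nil) (.leaf 0x4561982703 0 (.leaf 0x5619827034 1 .done)) .done) .done) (.node 0 4 (.cons 0x8904376512 .nil) (.node 0 8 (.cons 0x9807615432 .nil) (.node 0 6 .nil (.node 5 9 (.cons 0x4378956120 (.cons 0x7895432160 (.cons 0x7895432061 .nil))) (.node 1 4 (.cons 0x8954167032 (.cons 0x8760954123 (.cons 0x5609873412 .nil))) .done .done) .done) .done) .done) .done)) .done)) (.node 0 7 (.cons 0x9870216543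 .nil) (.node 0 4 (.cons 0x9873402165 .nil) (.node 0 3 .nil (.node 5 9 (.cons 0x4378956120 (.cons 0x8954307612 (.cons 0x4598761032 (.cons 0x4598761230 .nil)))) .done (.node 1 7 (.cons 0x9871654302 .nil) (.node 1 3 (.cons 0x2134567890 .nil) (.node 3 9 (.cons 0x7893456120 .nil) (.node 0 6 (.cons 0x4378906512 .nil) (.node 0 8 (.cons 0x6543908712 .nil) .done .done) .done) .done) .done) .done)) (.node 0 3 .nil (.node 5 9 (.cons 0x4378956120 (.cons 0x8954307612 (.cons 0x4598761032 (.cons 0x4598761230 .nil)))) .done (.node 1 3 (.cons 0x2134567890 .nil) (.node 1 7 (.cons 0x8903456712 .nil) .done .done) .done)) .done)) (.node 0 3 .nil (.node 5 9 (.cons 0x4378956120 (.cons 0x4598761032 (.cons 0x4598761230 .nil))) (.leaf 0x4302167895 0 .done) (.node 0 6 (.cons 0x4378906512 .nil) (.node 1 3 (.cons 0x2134567890 .nil) (.node 0 4 (.cons 0x9873402165 .nil) (.node 0 8 (.cons 0x9087654312 .nil) .done .done) .done) .done) .done)) .done)) .done)) (.node 0 7 (.cons 0x9870216543 .nil)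 (.node 0 3 .nil (.node 5 9 (.cons 0x6102378954 (.cons 0x4307895612 (.cons 0x4598761032 (.cons 0x4598761230 .nil)))) (.leaf 0x4302167895 0 .done) (.node 3 9 (.cons 0x7893456120 .nil) (.node 3 5 (.cons 0x9870216534 .nil) (.node 0 6 (.cons 0x9876012354 .nil) (.node 5 7 (.cons 0x9875432061 .nil) (.node 0 4 (.cons 0x6123987540 .nil) (.node 0 8 (.cons 0x9803216754 .nil) .done .done) .done) .done) .done) (.node 2 9 (.cons 0x1654378920 .nil) (.node 1 8 (.cons 0x7345618920 .nil) (.leaf 0x6543702981 1 (.node 0 6 .nil (.node 5 9 (.cons 0x6102378954 (.cons 0x7895432160 (.cons 0x7895432061 (.cons 0x4598732061 .nil)))) .done (.node 6 9 (.cons 0x8769054321 .nil) (.node 6 8 .nil (.node 1 7 (.cons 0x8903456712 (.cons 0x9021786543 (.cons 0x5437168920 .nil))) .done .done) .done) .done)) (.leaf 0x9207345618 0 .done))) (.node 7 9 .nil (.node 1 3 (.cons 0x4561378920 (.cons 0x8790213456 .nil)) (.node 0 6 (.cons 0x7890654312 (.cons 0x8792316054 .nil)) .done .done) (.node 1 7 (.cons 0x8903456712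 .nil) (.node 2 7 (.cons 0x8903456721 .nil) (.node 4 7 (.cons 0x8920374561 .nil) .done .done) .done) .done)) .done)) .done)) .done)) (.node 1 5 .nil (.node 6 9 (.cons 0x8769054321 (.cons 0x8961543702 (.cons 0x8769051234 (.cons 0x7896154320 (.cons 0x4516987320 .nil))))) .done (.node 3 5 (.cons 0x6789012354 .nil) (.node 5 7 .nil (.node 0 6 (.cons 0x9876012354 (.cons 0x8906754321 (.cons 0x8906751234 (.cons 0x9875432061 .nil)))) .done (.node 2 5 .nil (.node 3 9 (.cons 0x7893456120 (.cons 0x8934521670 (.cons 0x6125439870 .nil))) (.node 0 4 (.cons 0x4021657893 (.cons 0x8934076125 (.cons 0x7893402561 .nil))) .done .done) .done) .done)) (.node 3 9 (.cons 0x7893456120 .nil) (.node 0 3 .nil (.node 5 9 (.cons 0x6120789543 (.cons 0x4598761032 (.cons 0x4598761230 .nil))) .done (.node 1 3 (.cons 0x2134567890 .nil) (.node 3 6 (.cons 0x8907634512 .nil) .done .done) .done)) (.node 1 3 (.cons 0x2134567890 .nil) (.node 3 6 (.cons 0x8907634512 .nil) (.node 0 3 .nil (.node 2 8 (.cons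 0x4390567821 (.cons 0x9821543076 (.cons 0x7651289034 (.cons 0x9031287654 .nil)))) .done .done) .done) .done) .done)) .done)) (.node 3 5 (.cons 0x6789012354 .nil) (.node 5 7 .nil (.node 0 6 (.cons 0x9876012354 (.cons 0x8906754321 (.cons 0x6098751234 (.cons 0x9875432061 .nil)))) .done (.node 2 5 .nil (.node 3 9 (.cons 0x7893456120 (.cons 0x8934521670 (.cons 0x6125439870 .nil))) (.node 0 4 (.cons 0x4021657893 (.cons 0x8934076125 (.cons 0x7893402561 .nil))) .done .done) (.node 5 9 (.cons 0x6120789543 .nil) (.node 5 8 .nil (.node 0 3 (.cons 0x4598761032 (.cons 0x9854307612 (.cons 0x9852167034 .nil))) .done .done) .done) .done)) .done)) (.node 0 3 .nil (.node 5 9 (.cons 0x6120789543 (.cons 0x4598761032 (.cons 0x4598761230 .nil))) .done (.node 1 3 (.cons 0x2134567890 .nil) (.node 3 6 (.cons 0x9870216345 .nil) .done .done) .done)) .done)) .done))) .done)) .done))))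
noncomputable def uc9_2_11 : T := (.node 3 7 (.cons 0x9873456120 .nil) tc9_2_72 (.node 4 6 (.cons 0x5467890123 .nil) (.node 0 8 (.cons 0x9087612345 .nil) tc9_2_71 (.node 6 9 (.cons 0x8769054321 .nil) tc9_2_70 (.node 6 9 (.cons 0x8769054321 .nil) tc9_2_69 .done))) (.node 0 7 (.cons 0x8907612345 .nil) (.node 0 6 .nil (.node 3 7 (.cons 0x6543789021 (.cons 0x9873456021 .nil)) (.node 1 9 (.cons 0x8734560912 .nil) (.leaf 0x4560219873 0 (.node 1 3 (.cons 0x2134567890 (.cons 0x7890654312 .nil)) (.node 1 8 (.cons 0x9021873456 (.cons 0x9065437812 .nil)) (.node 2 9 (.cons 0x6781290543 (.cons 0x8129067345 .nil)) (.leaf 0x8706543129 1 .done) .done) .done) (.node 1 7 (.cons 0x9871206543 .nil) (.node 5 7 (.cons 0x6021987543 (.cons 0x8902345716 .nil)) (.node 3 6 (.cons 0x4578912063 (.cons 0x8902361754 .nil)) (.node 2 7 (.cons 0x3456098721 .nil) (.node 3 8 (.cons 0x4576123890 (.cons 0x9127834506 (.cons 0x9834561720 .nil))) (.leaf 0x4567120983 0 .done) .done) .done) .done) .done)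 .done))) (.node 3 5 (.cons 0x6789012354 (.cons 0x9876012354 .nil)) (.node 0 3 .nil (.node 5 7 (.cons 0x8903216754 (.cons 0x8906754321 .nil)) (.node 1 9 (.cons 0x6021987543 (.cons 0x6578912034 (.cons 0x4306578912 .nil))) .done .done) .done) (.node 4 7 (.cons 0x8907435612 (.cons 0x9874532106 .nil)) (.node 2 4 (.cons 0x8901673245 (.cons 0x9870653421 .nil)) (.node 1 7 (.cons 0x8907124356 (.cons 0x9871206543 .nil)) (.node 2 8 (.cons 0x3765428901 (.cons 0x9820617345 (.cons 0x9065347821 (.cons 0x6098245371 .nil)))) .done .done) .done) (.node 2 8 (.cons 0x7098216534 (.cons 0x9821607435 .nil)) (.leaf 0x1289074356 1 (.node 1 5 (.cons 0x4516732890 (.cons 0x9820615473 .nil)) .done .done)) .done)) .done)) .done)) (.node 4 6 (.cons 0x5467890123 .nil) (.node 1 5 (.cons 0x9870215643 .nil) (.node 6 9 (.cons 0x8769054321 .nil) (.node 0 3 (.cons 0x7896512034 .nil) (.node 0 4 (.cons 0x7896512043 .nil) (.node 0 8 (.cons 0x9678051234 .nil) .done .done) .done) (.node 0 3 .nil (.node 1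 7 (.cons 0x4517896023 (.cons 0x5469871203 .nil)) (.leaf 0x2034569871 0 .done) (.node 0 8 (.cons 0x7698032154 .nil) (.node 0 4 .nil (.node 3 8 (.cons 0x4509678321 (.cons 0x9678321504 .nil)) (.leaf 0x6983215407 0 (.leaf 0x1238967045 0 (.leaf 0x7690451238 0 .done))) .done) .done) .done)) .done)) (.node 6 9 (.cons 0x5123469870 .nil) (.node 1 9 (.cons 0x5198706432 .nil) (.node 3 6 (.cons 0x8763450912 .nil) (.node 2 6 (.cons 0x7890623451 .nil) (.node 6 8 (.cons 0x7869051234 .nil) .done .done) .done) .done) (.leaf 0x2150789643 0 .done)) .done)) (.node 6 9 (.cons 0x8769054321 .nil) (.node 0 8 .nil (.node 1 5 (.cons 0x8769051234 (.cons 0x9678051234 (.cons 0x7809643215 .nil))) .done (.node 1 5 (.cons 0x8769051234 .nil) (.node 0 3 (.cons 0x7896512034 .nil) (.node 0 4 (.cons 0x7896512043 .nil) .done .done) (.node 3 6 .nil (.node 2 7 (.cons 0x6098723451 (.cons 0x9872360154 (.cons 0x5127809634 (.cons 0x9087215463 .nil)))) .done (.node 2 6 (.cons 0x7890623451 .nil) (.node 6 8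 (.cons 0x7869051234 .nil) .done .done) .done)) .done)) .done)) (.node 0 3 .nil (.node 1 7 (.cons 0x4569871203 .nil) (.leaf 0x8965430217 1 (.leaf 0x2034569871 0 (.node 5 8 (.cons 0x7612345890 (.cons 0x9645871203 (.cons 0x7854690321 (.cons 0x7612309854 .nil)))) (.node 1 4 (.cons 0x5890761432 (.cons 0x7896541203 .nil)) (.node 2 6 (.cons 0x7162098543 (.cons 0x9870341265 (.cons 0x7890341265 .nil))) .done .done) .done) .done))) (.node 0 8 .nil (.node 1 5 (.cons 0x7698032154 (.cons 0x7809645123 .nil)) (.node 0 4 (.cons 0x8769045123 .nil) (.node 3 8 (.cons 0x7698304512 (.cons 0x7832154690 (.cons 0x9021564387 (.cons 0x7832096451 .nil)))) .done .done) .done) (.node 0 4 .nil (.node 1 8 (.cons 0x7654309812 (.cons 0x7698123045 .nil)) (.node 1 3 (.cons 0x2134567890 (.cons 0x7896540213 (.cons 0x5678904312 .nil))) (.node 5 7 (.cons 0x3218754690 (.cons 0x8967540321 (.cons 0x6904578132 (.cons 0x8904576123 .nil)))) .done .done) (.node 5 7 (.cons 0x9021875643 (.cons 0x8967540321 (.cons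 0x5761890432 (.cons 0x8904576123 .nil)))) .done .done)) .done) .done)) .done)) .done)) .done)) .done)) (.node 6 9 (.cons 0x8769054321 .nil) tc9_2_68 (.node 1 5 (.cons 0x8907615432 .nil) (.node 5 7 .nil (.node 3 8 (.cons 0x7561209834 (.cons 0x4576109832 .nil)) (.leaf 0x9834576120 1 (.leaf 0x4576120983 0 (.node 4 6 (.cons 0x5467890123 (.cons 0x9012387546 (.cons 0x7546109832 .nil))) (.node 1 8 (.cons 0x9054321876 (.cons 0x9816432075 .nil)) (.node 3 6 (.cons 0x9054367812 (.cons 0x9021875436 (.cons 0x4365789021 (.cons 0x9875463201 .nil)))) .done .done) .done) .done))) (.node 0 3 (.cons 0x8903216754 .nil) (.node 0 4 (.cons 0x8904576123 .nil) (.node 0 8 (.cons 0x9807615432 .nil) (.node 0 6 .nil (.node 4 8 (.cons 0x3216754890 (.cons 0x9845760321 (.cons 0x7548906123 .nil))) (.node 2 9 (.cons 0x8923451670 (.cons 0x7601548923 (.cons 0x9234876051 (.cons 0x7603298451 .nil)))) .done .done) .done) .done) .done) (.node 0 6 .nil (.node 1 3 (.cons 0x2134567890 (.cons 0x7890654312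 .nil)) (.node 3 7 (.cons 0x6543789021 (.cons 0x9873456021 .nil)) .done .done) .done) .done)) .done)) (.node 2 8 (.cons 0x5432890761 .nil) (.node 0 6 (.cons 0x9823451607 .nil) (.node 0 3 .nil (.node 1 9 (.cons 0x5432891670 (.cons 0x9128765034 (.cons 0x5430761982 .nil))) .done (.node 0 4 .nil (.node 5 7 (.cons 0x6098751234 (.cons 0x9875123406 (.cons 0x8904576123 .nil))) .done (.node 0 8 .nil (.node 7 9 (.cons 0x1289765430 (.cons 0x9761280543 .nil)) (.leaf 0x2897654301 0 (.node 1 4 (.cons 0x3089765412 (.cons 0x9765412803 .nil)) (.node 3 5 (.cons 0x6789012354 (.cons 0x4532167980 (.cons 0x6789014532 .nil))) .done .done) .done)) .done) .done)) .done)) .done) (.leaf 0x982345167 0 (.node 5 8 (.cons 0x7612345890 .nil) (.leaf 0x4321670985 0 (.node 6 8 (.cons 0x7098615432 .nil) (.node 3 5 (.cons 0x4532890761 .nil) (.node 0 6 (.cons 0x9876012354 .nil) (.node 5 7 (.cons 0x6098751234 .nil) (.node 5 9 (.cons 0x7023459861 .nil) (.node 2 5 .nil (.node 7 9 (.cons 0x2345168970 (.cons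 0x4325168970 (.cons 0x3452079861 .nil))) .done .done) .done) .done) .done) (.node 5 9 (.cons 0x7023459861 .nil) (.node 0 3 .nil (.node 4 7 (.cons 0x9867453210 (.cons 0x8954761230 (.cons 0x9032854761 (.cons 0x6745309821 .nil)))) .done (.node 0 6 .nil (.node 1 4 (.cons 0x6709823541 (.cons 0x3214598760 (.cons 0x8760954123 (.cons 0x7609821453 .nil)))) .done .done) .done)) .done) .done)) (.node 0 6 .nil (.node 3 7 (.cons 0x6543789021 (.cons 0x9873456021 (.cons 0x4378906512 .nil))) (.node 4 9 (.cons 0x2156873490 (.cons 0x7328549061 (.cons 0x6094512873 .nil))) (.leaf 0x732894516 1 (.leaf 0x3286154907 0 .done)) .done) .done) .done)) .done)) .done))) .done)) .done))) (.node 6 9 (.cons 0x8769054321 .nil) tc9_2_67 .done))))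
theorem sub_c9_2_11 : root 9 refs9_2 [] 0x700000008706000000006050000000050300000000304000700004010000000010300000000302500000002018000700510 0xfe7fff3fff9fffd7ff67ffedfff5ffd3fff9fe5d 9 1 6 (.cons 0x5432167890 .nil) uc9_2_11 = true := by decide +kernel
noncomputable def tc9_2_73 : T := (.node 6 8 .nil (.node 3 5 (.cons 0x9876453210 (.cons 0x7689012354 .nil)) (.node 4 9 (.cons 0x6789453210 (.cons 0x7689453210 (.cons 0x7689453201 .nil))) (.leaf 0x3549876012 0 (.leaf 0x7894532106 0 .done)) (.node 1 7 (.cons 0x9871064532 (.cons 0x4532178690 (.cons 0x7120986534 .nil))) (.node 2 9 (.cons 0x7892354601 (.cons 0x9234506871 .nil)) (.leaf 0x8923546017 1 .done) (.node 0 3 (.cons 0x2178964530 .nil) (.leaf 0x6987120354 0 .done) .done)) (.node 1 4 (.cons 0x6789014532 (.cons 0x7689014532 (.cons 0x7869054123 .nil))) (.node 0 3 (.cons 0x8769032145 (.cons 0x7869032145 .nil)) (.node 2 4 (.cons 0x5678903421 .nil) (.node 1 7 (.cons 0x9871035642 (.cons 0x9867102354 (.cons 0x5324178690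 (.cons 0x5309687142 .nil)))) .done .done) .done) (.node 1 7 (.cons 0x8902176543 (.cons 0x9867102354 (.cons 0x5341768902 .nil))) (.leaf 0x986714532 1 .done) .done)) .done))) (.node 1 6 (.cons 0x5432167890 .nil) (.node 2 6 .nil (.node 0 3 (.cons 0x7890345621 .nil) (.node 1 8 (.cons 0x4509678123 (.cons 0x9678123054 (.cons 0x9645032187 .nil))) (.node 2 9 (.cons 0x7812964503 (.cons 0x9218764305 .nil)) .done .done) (.node 1 7 (.cons 0x8902176543 .nil) (.leaf 0x6217890345 0 (.node 1 5 (.cons 0x4309876512 (.cons 0x7890623451 .nil)) (.node 4 9 (.cons 0x2156789430 (.cons 0x5178943260 (.cons 0x5126789430 (.cons 0x3267894510 .nil)))) (.leaf 0x6230154987 0 .done) (.node 0 4 (.cons 0x7689043215 (.cons 0x5621789043 .nil)) (.node 1 4 (.cons 0x5678903412 (.cons 0x7890341265 .nil)) .done .done) .done)) (.leaf 0x9871265430 0 .done))) .done)) .done) (.node 3 6 .nil (.node 1 8 (.cons 0x4509678123 (.cons 0x7812369054 (.cons 0x9054367812 .nil))) (.node 1 5 (.cons 0x9815432067 .nil) (.node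 4 7 (.cons 0x7451896023 (.cons 0x8745123690 (.cons 0x7436890215 (.cons 0x7451896320 .nil)))) .done .done) .done) (.node 2 6 .nil (.node 1 5 (.cons 0x7890623451 .nil) (.node 0 3 (.cons 0x7896451230 (.cons 0x4309876512 .nil)) (.node 0 8 (.cons 0x7809632154 (.cons 0x9087634512 .nil)) .done .done) (.node 1 9 (.cons 0x2345198760 (.cons 0x7891543260 (.cons 0x8762190543 .nil))) (.node 0 4 (.cons 0x5198760432 .nil) (.node 4 8 (.cons 0x3487650912 (.cons 0x5091267843 (.cons 0x7840519623 .nil))) .done (.leaf 0x6789150432 0 .done)) .done) .done)) .done) .done)) .done)) .done)) (.node 1 6 (.cons 0x5432167890 .nil) (.node 6 8 .nil (.node 3 5 (.cons 0x6789012354 (.cons 0x7689012354 (.cons 0x9012354687 .nil))) (.node 4 9 (.cons 0x6789453210 (.cons 0x7689453210 (.cons 0x7689453201 .nil))) (.leaf 0x3549876012 0 (.leaf 0x7894532106 0 .done)) (.node 1 4 (.cons 0x6789014532 (.cons 0x7689014532 (.cons 0x7869054123 .nil))) (.node 1 7 (.cons 0x8902176543 (.cons 0x5341768902 .nil)) (.leaf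 0x986714532 1 .done) .done) .done)) (.node 2 6 .nil (.node 3 6 .nil (.node 1 8 (.cons 0x4509678123 (.cons 0x9054362187 .nil)) .done (.node 3 5 (.cons 0x6789012354 (.cons 0x4532678901 .nil)) (.node 0 4 (.cons 0x9876210453 .nil) (.node 4 9 (.cons 0x7689401235 (.cons 0x7894532601 (.cons 0x3549876210 .nil))) (.leaf 0x7894012356 0 .done) (.node 0 7 (.cons 0x6987045321 (.cons 0x9870435621 (.cons 0x3540789621 .nil))) .done .done)) (.node 4 7 (.cons 0x7435689021 (.cons 0x9874532601 (.cons 0x9053478621 (.cons 0x9874532610 .nil)))) .done .done)) .done)) .done) .done)) (.node 0 7 (.cons 0x8907612345 .nil) (.node 0 3 .nil (.node 2 4 (.cons 0x9876542103 .nil) (.node 1 8 (.cons 0x4509678123 (.cons 0x9678123054 (.cons 0x7812309645 (.cons 0x9056781243 .nil)))) (.node 3 9 (.cons 0x8765093421 .nil) (.leaf 0x6542103987 0 (.leaf 0x5678930124 1 (.leaf 0x934218765 1 .done))) .done) (.node 5 8 (.cons 0x7612345890 (.cons 0x9856124307 (.cons 0x7854690321 (.cons 0x7612309854 .nil)))) (.node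 5 7 (.cons 0x8907561243 (.cons 0x4230758961 (.cons 0x8903216754 .nil))) .done .done) .done)) (.node 2 6 (.cons 0x7890345621 .nil) (.node 2 4 .nil (.node 3 7 (.cons 0x9873012654 (.cons 0x1245698730 (.cons 0x8730965421 (.cons 0x8901673245 .nil)))) .done (.node 3 6 (.cons 0x7890124563 .nil) (.node 6 8 .nil (.node 1 7 (.cons 0x9871265430 (.cons 0x9687123054 (.cons 0x9034568712 .nil))) (.node 3 9 (.cons 0x5426017893 .nil) (.leaf 0x1245039687 1 (.leaf 0x934217865 1 .done)) .done) .done) .done) .done)) (.node 2 9 .nil (.node 1 3 (.cons 0x2134567890 (.cons 0x8765431290 (.cons 0x8765092134 .nil))) (.node 0 8 (.cons 0x9802134567 (.cons 0x4508769213 .nil)) .done .done) (.node 3 6 .nil (.node 1 4 (.cons 0x8769054123 (.cons 0x5634129870 .nil)) (.leaf 0x3650789214 0 (.leaf 0x2987056341 1 .done)) (.node 1 4 (.cons 0x5634129870 .nil) (.node 5 7 (.cons 0x6987541230 .nil) (.leaf 0x8960321457 0 (.leaf 0x8903412657 1 (.leaf 0x4578960321 1 .done))) (.leaf 0x3650789214 0 (.leaf 0x2987056341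 1 .done))) .done)) .done)) .done)) .done)) (.node 0 4 .nil (.node 3 6 (.cons 0x9876321045 .nil) (.node 2 4 (.cons 0x7890124563 .nil) (.node 1 8 (.cons 0x4509678123 (.cons 0x9812076345 (.cons 0x7812369054 (.cons 0x9054367812 .nil)))) (.node 5 9 (.cons 0x3245987601 (.cons 0x5981243670 (.cons 0x7895423601 (.cons 0x3240596781 .nil)))) .done .done) .done) (.node 1 5 (.cons 0x7890436512 .nil) (.node 0 8 (.cons 0x7809645123 (.cons 0x9087643215 .nil)) .done (.node 2 4 (.cons 0x5124078963 .nil) (.node 5 9 (.cons 0x3245987601 (.cons 0x6340789512 (.cons 0x5987632401 .nil))) (.leaf 0x6324015987 0 .done) .done) .done)) .done)) (.node 0 3 .nil (.node 2 4 (.cons 0x9876542103 .nil) (.node 5 7 (.cons 0x6987540321 (.cons 0x8901675423 (.cons 0x8903216754 .nil))) (.leaf 0x2169875403 1 .done) .done) (.node 2 4 (.cons 0x5678903421 .nil) (.node 0 8 .nil (.node 1 3 (.cons 0x2134567890 (.cons 0x9802134567 (.cons 0x9087654312 .nil))) (.node 3 7 (.cons 0x5698730421 (.cons 0x7312089654 (.cons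 0x9654213780 (.cons 0x9801673245 .nil)))) .done .done) .done) .done) .done)) .done)) .done)) (.node 6 8 .nil (.node 3 5 (.cons 0x6789012354 (.cons 0x7689012354 (.cons 0x9012354687 .nil))) (.node 4 9 (.cons 0x6789453210 (.cons 0x7689453210 (.cons 0x7861234905 (.cons 0x7689453201 .nil)))) (.leaf 0x7894532106 0 .done) (.node 5 9 (.cons 0x8764590123 (.cons 0x7864590123 .nil)) (.node 1 7 (.cons 0x8902176543 (.cons 0x9867102354 (.cons 0x8671234590 .nil))) (.node 0 7 (.cons 0x1234598670 .nil) (.leaf 0x9543210768 0 (.node 1 4 (.cons 0x6789014532 (.cons 0x4107689532 (.cons 0x7689014532 (.cons 0x7869054123 .nil)))) .done .done)) .done) .done) .done)) (.node 2 6 .nil (.node 0 3 (.cons 0x7890345621 .nil) (.node 2 4 (.cons 0x9876542103 (.cons 0x7890342165 .nil)) .done (.node 1 7 (.cons 0x8902176543 .nil) (.leaf 0x6217890345 0 (.node 3 8 (.cons 0x7654389021 .nil) (.node 7 9 (.cons 0x4387905612 (.cons 0x4387905621 (.cons 0x5462109783 (.cons 0x5462387901 .nil)))) .done (.node 1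 8 (.cons 0x4509678123 (.cons 0x9026543817 (.cons 0x9026718345 .nil))) .done .done)) (.leaf 0x9871265430 0 .done))) .done)) .done) .done)) .done))) (.node 1 6 (.cons 0x5432167890 .nil) (.node 6 8 .nil (.node 1 4 (.cons 0x8769054123 (.cons 0x7869054123 .nil)) (.node 0 3 (.cons 0x8769032145 (.cons 0x7869032145 .nil)) (.node 1 5 (.cons 0x4309876512 .nil) (.node 5 9 (.cons 0x8765903412 (.cons 0x7865903412 .nil)) (.node 0 7 (.cons 0x8954320761 .nil) (.node 1 7 (.cons 0x8906715432 (.cons 0x8671432095 .nil)) .done .done) .done) (.node 0 7 (.cons 0x9870615432 .nil) (.node 2 9 (.cons 0x7892345160 (.cons 0x9216870543 (.cons 0x7860923415 .nil))) .done .done) .done)) .done) (.node 1 7 (.cons 0x8902176543 .nil) (.node 0 4 (.cons 0x5409687123 .nil) (.node 3 5 (.cons 0x6789012354 (.cons 0x7689012354 (.cons 0x7896123540 (.cons 0x9876104532 .nil)))) (.node 2 9 (.cons 0x4532987601 (.cons 0x3456871290 (.cons 0x1298765340 .nil))) .done .done) .done) (.node 3 5 (.cons 0x8902176534 (.cons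 0x7689012354 (.cons 0x7120986534 (.cons 0x5341768902 .nil)))) (.node 4 9 (.cons 0x6789453210 (.cons 0x4968712350 (.cons 0x7689453201 .nil))) .done .done) .done)) .done)) (.node 3 6 .nil (.node 1 8 (.cons 0x4509678123 (.cons 0x7812369054 (.cons 0x9054367812 .nil))) .done (.node 2 6 .nil (.node 1 5 (.cons 0x7890623451 .nil) (.node 0 3 (.cons 0x7890345621 (.cons 0x4309876512 .nil)) (.node 0 8 (.cons 0x7809632154 (.cons 0x9087634512 .nil)) .done .done) (.node 3 8 (.cons 0x7654389021 (.cons 0x7623890154 .nil)) (.node 0 7 (.cons 0x4512389670 (.cons 0x9834512670 .nil)) (.node 4 9 (.cons 0x1238769450 (.cons 0x9438705621 (.cons 0x9450126783 (.cons 0x7623894510 .nil)))) .done .done) (.node 4 7 (.cons 0x9612387450 (.cons 0x9832601547 (.cons 0x9012654783 (.cons 0x3874509621 (.cons 0x8901547623 .nil))))) .done .done)) .done)) .done) .done)) .done)) (.node 2 9 .nil (.node 1 8 (.cons 0x4509678123 (.cons 0x9234506781 (.cons 0x7816092345 (.cons 0x6781290543 .nil)))) (.node 0 8 (.cons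 0x9087612345 (.cons 0x7809216543 .nil)) (.node 5 7 (.cons 0x5764321890 (.cons 0x9218057643 .nil)) (.node 1 5 (.cons 0x2346751890 (.cons 0x1543298760 .nil)) (.leaf 0x4329087615 1 (.leaf 0x8902346751 0 .done)) (.leaf 0x1234675098 0 .done)) .done) .done) (.node 0 7 (.cons 0x8709216543 .nil) (.node 0 3 .nil (.node 1 7 (.cons 0x8902176543 (.cons 0x8921703465 .nil)) (.node 5 8 (.cons 0x5890764321 (.cons 0x7034658921 (.cons 0x6178543092 (.cons 0x7645890321 .nil)))) (.leaf 0x985467123 0 .done) .done) (.node 0 8 (.cons 0x7809216543 .nil) (.node 0 4 .nil (.node 1 3 (.cons 0x2134567890 (.cons 0x7896540312 (.cons 0x5678904312 .nil))) (.node 3 5 (.cons 0x8709216534 (.cons 0x6534078921 .nil)) (.leaf 0x4098761235 0 .done) .done) .done) .done) .done)) (.node 3 6 (.cons 0x8709216345 .nil) (.node 0 4 (.cons 0x7892104563 .nil) (.node 0 3 (.cons 0x7892103654 .nil) (.node 0 8 (.cons 0x7809216543 .nil) .done .done) .done) (.node 6 8 .nil (.node 1 4 (.cons 0x8769054123 (.cons 0x9214368705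 (.cons 0x7869054123 (.cons 0x7863412905 .nil)))) .done (.node 0 3 (.cons 0x9216870345 .nil) (.node 2 6 (.cons 0x7890345621 .nil) .done .done) .done)) .done)) .done)) (.node 2 6 .nil (.node 0 3 (.cons 0x7890345621 .nil) (.node 1 4 (.cons 0x8769054123 (.cons 0x5678921430 .nil)) (.node 3 7 (.cons 0x2145698730 (.cons 0x8730965412 (.cons 0x5621437890 (.cons 0x8732690541 .nil)))) .done (.node 5 8 (.cons 0x7645890123 (.cons 0x7698541203 (.cons 0x7856129034 (.cons 0x5876143092 (.cons 0x7645890321 .nil))))) .done .done)) (.node 1 7 (.cons 0x8902176543 .nil) (.leaf 0x6217890345 0 (.node 3 8 (.cons 0x7654389021 (.cons 0x9056217834 .nil)) (.node 0 4 (.cons 0x9834021765 (.cons 0x5621789043 .nil)) (.node 0 7 (.cons 0x9834567021 .nil) .done .done) (.node 1 4 (.cons 0x2905678341 (.cons 0x7832690541 (.cons 0x5092678341 .nil))) (.leaf 0x7690541238 0 .done) .done)) (.leaf 0x9871265430 0 .done))) .done)) (.node 3 6 .nil (.node 1 8 (.cons 0x4509678123 (.cons 0x7812905634 (.cons 0x9054367812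 .nil))) (.node 1 9 (.cons 0x9187605432 (.cons 0x8763450912 .nil)) (.leaf 0x6054329187 0 (.leaf 0x678192345 1 .done)) (.node 1 7 (.cons 0x8902176543 (.cons 0x8902176345 .nil)) (.node 0 8 (.cons 0x9802176543 (.cons 0x9217805634 (.cons 0x9802176345 .nil))) .done .done) .done)) (.node 6 8 .nil (.node 1 4 (.cons 0x8769054123 (.cons 0x7869054123 .nil)) (.node 0 3 (.cons 0x5678921430 (.cons 0x9214305687 .nil)) .done (.node 2 5 (.cons 0x5214367890 (.cons 0x9052143687 .nil)) (.leaf 0x7634125098 0 .done) .done)) .done) .done)) .done)) .done))) (.node 6 8 .nil (.node 4 9 (.cons 0x8761234905 (.cons 0x7861234905 .nil)) (.node 1 4 (.cons 0x8769054123 (.cons 0x7869054123 .nil)) (.node 2 9 (.cons 0x5410678923 .nil) (.node 1 7 (.cons 0x8714506923 (.cons 0x3456871290 (.cons 0x6871290543 .nil))) .done (.node 1 5 (.cons 0x5143298760 (.cons 0x9234150687 .nil)) (.node 5 9 (.cons 0x8760592341 (.cons 0x7860592341 (.cons 0x7689541023 .nil))) .done .done) .done)) (.node 0 3 (.cons 0x8769032145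 (.cons 0x7869032145 .nil)) (.node 1 5 (.cons 0x4309876512 (.cons 0x7689430215 .nil)) (.node 5 9 (.cons 0x8765903412 (.cons 0x7865903412 .nil)) (.node 2 4 (.cons 0x5678903421 (.cons 0x7689510324 .nil)) (.node 2 8 (.cons 0x9430512867 (.cons 0x7682341590 (.cons 0x7682309514 .nil))) .done .done) .done) (.node 4 7 (.cons 0x5160987432 (.cons 0x9865120347 (.cons 0x5147869032 .nil))) .done .done)) .done) .done)) (.node 1 5 (.cons 0x8761509432 (.cons 0x7689451023 (.cons 0x7861509432 .nil))) (.node 2 7 (.cons 0x8906723451 (.cons 0x3276894510 (.cons 0x8672349051 .nil))) (.node 1 7 (.cons 0x8906715432 (.cons 0x5498671023 .nil)) (.node 3 5 (.cons 0x6789012354 (.cons 0x7689453201 (.cons 0x6872354901 .nil))) (.leaf 0x8671023549 0 .done) .done) (.leaf 0x9051687234 0 .done)) .done) .done)) (.node 3 6 .nil (.node 1 8 (.cons 0x4509678123 (.cons 0x7812369054 (.cons 0x9054367812 .nil))) .done (.node 2 6 .nil (.node 1 8 (.cons 0x4509678123 .nil) (.node 3 7 (.cons 0x8901237645 (.cons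 0x9056218734 (.cons 0x4509623781 .nil))) (.node 4 9 (.cons 0x8761234905 (.cons 0x3789456210 (.cons 0x3781269450 (.cons 0x1873269450 .nil)))) .done .done) (.node 4 8 (.cons 0x9012367845 .nil) (.node 7 9 (.cons 0x3654879012 (.cons 0x3487905621 (.cons 0x5487901263 (.cons 0x5097843261 .nil)))) .done (.node 1 3 (.cons 0x2134567890 (.cons 0x7623109845 (.cons 0x7845096231 .nil))) (.node 5 9 (.cons 0x2187634590 (.cons 0x7812634590 (.cons 0x4598762310 .nil))) (.leaf 0x2678459013 0 .done) .done) .done)) .done)) .done) .done)) .done)) .done))) .done)))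
noncomputable def tc9_2_74 : T := (.node 0 3 (.cons 0x9812034567 .nil) (.node 0 4 (.cons 0x9678123405 .nil) (.node 0 7 (.cons 0x9812076543 .nil) (.node 0 8 .nil (.node 1 6 (.cons 0x5432167890 (.cons 0x9087612345 .nil)) (.node 1 5 (.cons 0x8769051234 .nil) (.node 4 6 (.cons 0x5467890123 (.cons 0x9643215087 (.cons 0x7809643215 .nil))) .done .done) .done) .done) .done) .done) (.node 0 7 (.cons 0x9812076543 .nil) (.node 0 4 (.cons 0x9678123405 .nil) (.node 0 8 .nil (.node 1 6 (.cons 0x5432167890 (.cons 0x9087612345 .nil)) (.node 1 3 (.cons 0x2134567890 (.cons 0x9087654312 .nil)) (.node 1 5 (.cons 0x4309876512 .nil) .done .done) .done) .done) .done) .done) .done)) (.leaf 0x2345096781 0 (.node 1 5 (.cons 0x8769051234 .nil) (.node 2 9 (.cons 0x1543298760 .nil) (.node 1 7 (.cons 0x8902176543 .nil) (.node 1 6 (.cons 0x7892345160 .nil) (.node 1 3 (.cons 0x2134567890 .nil) (.node 0 3 (.cons 0x8712903456 .nil) (.node 1 4 (.cons 0x5678903412 .nil) (.node 1 9 (.cons 0x2345198760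 .nil) .done .done) .done) .done) .done) (.node 1 9 (.cons 0x2345198760 .nil) (.node 1 6 (.cons 0x7892345160 .nil) (.node 3 9 (.cons 0x8934517602 .nil) (.node 2 5 (.cons 0x8716092543 .nil) (.node 5 9 (.cons 0x8761234590 .nil) .done .done) .done) .done) .done) .done)) (.node 0 4 (.cons 0x3298760451 .nil) (.node 0 7 (.cons 0x3407896512 .nil) (.leaf 0x4321569870 1 (.node 0 8 (.cons 0x9678051234 .nil) .done .done)) (.node 0 8 (.cons 0x9678051234 .nil) (.node 2 8 (.cons 0x9678215043 .nil) (.node 4 8 (.cons 0x9678432150 .nil) (.leaf 0x6784321509 0 .done) .done) .done) .done)) .done)) (.node 1 6 (.cons 0x5432167890 .nil) (.node 1 3 (.cons 0x2134567890 .nil) (.node 1 7 (.cons 0x8906715432 .nil) (.node 3 6 (.cons 0x8902176345 .nil) (.node 4 6 (.cons 0x5467890123 .nil) (.node 1 9 .nil (.node 2 5 (.cons 0x7609815234 (.cons 0x8917602543 (.cons 0x7819064325 (.cons 0x8760913254 .nil)))) .done (.node 1 4 .nil (.node 2 8 (.cons 0x5436712890 (.cons 0x7823419605 (.cons 0x9067823145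 .nil))) (.leaf 0x4367128905 0 .done) .done) .done)) .done) .done) .done) (.node 3 5 (.cons 0x6789012354 .nil) (.node 3 8 (.cons 0x7654389021 .nil) (.node 3 9 (.cons 0x4390567812 .nil) (.node 4 9 (.cons 0x6789453210 .nil) (.leaf 0x3549876012 0 (.leaf 0x7894532106 0 (.node 6 8 (.cons 0x7689453201 .nil) (.node 5 8 (.cons 0x9432058167 .nil) (.node 7 9 (.cons 0x4356798120 .nil) (.leaf 0x581679432 1 (.leaf 0x2058167943 0 .done)) .done) .done) .done))) .done) .done) (.node 3 8 (.cons 0x7654389021 .nil) (.node 1 9 (.cons 0x7654389120 .nil) (.node 1 4 (.cons 0x7653418902 .nil) (.node 1 7 (.cons 0x9834567120 .nil) .done .done) .done) .done) .done)) .done)) (.node 1 7 (.cons 0x8906715432 .nil) (.node 1 3 (.cons 0x2134567890 .nil) (.node 1 9 (.cons 0x8917602345 .nil) (.node 1 4 .nil (.node 2 5 (.cons 0x8917602543 (.cons 0x9876014523 (.cons 0x5234178960 .nil))) (.leaf 0x1789605234 0 .done) .done) .done) .done) (.node 1 3 (.cons 0x2134567890 .nil) (.node 3 6 (.cons 0x8902176345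 .nil) (.node 4 6 (.cons 0x5467890123 .nil) (.node 2 9 (.cons 0x8920671345 .nil) (.node 1 9 (.cons 0x7819234605 .nil) .done (.node 2 6 .nil (.node 0 3 (.cons 0x4567892130 (.cons 0x7890345621 .nil)) (.leaf 0x9871265430 0 .done) .done) .done)) .done) .done) (.node 1 9 .nil (.node 3 8 (.cons 0x7654389021 (.cons 0x7654389120 .nil)) (.node 5 8 (.cons 0x6712098543 (.cons 0x4321967850 (.cons 0x7619023854 .nil))) (.leaf 0x4321906785 0 .done) .done) .done) .done)) .done)) .done)) (.node 6 8 (.cons 0x7869051234 .nil) (.node 4 6 (.cons 0x5467890123 .nil) (.node 1 6 (.cons 0x5432167890 .nil) (.node 3 6 .nil (.node 4 7 (.cons 0x9687432150 (.cons 0x9874510632 (.cons 0x8743690512 (.cons 0x7436518902 .nil)))) .done .done) .done) (.node 1 6 (.cons 0x5432167890 .nil) (.node 3 6 .nil (.node 0 7 (.cons 0x9687051234 (.cons 0x9863451207 .nil)) (.node 4 9 (.cons 0x7869432150 (.cons 0x9450123687 (.cons 0x9436870512 .nil))) (.leaf 0x5123496870 1 .done) .done) .done) .done) .done)) (.node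 2 6 (.cons 0x7890623451 .nil) (.node 2 5 .nil (.node 1 4 (.cons 0x9876014523 (.cons 0x9067814325 (.cons 0x7609814325 (.cons 0x8769052143 .nil)))) (.leaf 0x967814325 1 .done) (.node 2 9 .nil (.node 1 7 (.cons 0x9871543260 (.cons 0x8715069234 (.cons 0x4517860923 (.cons 0x3451789260 .nil)))) .done (.node 2 8 .nil (.node 1 3 (.cons 0x2134567890 (.cons 0x7829065431 (.cons 0x7654312890 .nil))) (.node 0 4 (.cons 0x9876045231 (.cons 0x9650431287 (.cons 0x9678213405 .nil))) .done .done) .done) .done)) .done)) (.node 4 6 (.cons 0x5467890123 .nil) (.node 2 4 (.cons 0x9056781243 .nil) (.node 1 6 (.cons 0x5432167890 .nil) (.node 3 6 (.cons 0x7890124563 .nil) .done .done) .done) (.node 1 6 (.cons 0x5432167890 .nil) (.node 3 6 .nil (.node 1 7 (.cons 0x6098715432 (.cons 0x8902176345 .nil)) (.node 4 7 (.cons 0x4786905123 (.cons 0x9874510632 (.cons 0x8743690512 (.cons 0x7436518902 .nil)))) .done .done) .done) .done) .done)) .done)) .done)) .done))) (.node 2 9 (.cons 0x6781290543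 .nil) (.node 2 4 (.cons 0x5096781243 .nil) (.node 1 9 .nil (.node 3 8 (.cons 0x7654389021 (.cons 0x7654389120 (.cons 0x7834219650 (.cons 0x9124387650 (.cons 0x7654201983 .nil))))) .done (.node 3 9 (.cons 0x3987654210 .nil) (.node 2 5 (.cons 0x1876934250 .nil) (.node 5 9 (.cons 0x3421876950 .nil) .done .done) .done) .done)) (.node 1 9 .nil (.node 0 8 (.cons 0x5678091243 .nil) (.node 3 5 (.cons 0x5342187690 (.cons 0x7690812435 (.cons 0x7809653421 .nil))) (.node 1 7 (.cons 0x9802176543 (.cons 0x4356921780 (.cons 0x8719243560 .nil))) .done (.leaf 0x7653421908 0 .done)) (.leaf 0x9123456780 0 .done)) (.node 3 9 (.cons 0x8765421093 .nil) (.node 5 9 .nil (.node 3 8 (.cons 0x2456783901 (.cons 0x9542387601 (.cons 0x1243876590 .nil))) (.leaf 0x5901243876 0 .done) (.node 2 5 .nil (.node 1 3 (.cons 0x2134567890 (.cons 0x9876013254 (.cons 0x9067813452 (.cons 0x4312567890 .nil)))) (.leaf 0x952431876 1 .done) (.node 4 9 (.cons 0x3496781250 .nil) (.node 7 9 (.cons 0x3452067981 .nil)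 .done .done) .done)) .done)) .done) .done)) .done)) (.node 2 5 .nil (.node 1 3 (.cons 0x2134567890 (.cons 0x9876013254 (.cons 0x9067813452 (.cons 0x7609813452 (.cons 0x4312567890 .nil))))) (.leaf 0x925431876 1 .done) (.node 1 5 (.cons 0x8769051234 .nil) (.node 2 6 .nil (.node 3 5 (.cons 0x4350967812 (.cons 0x7812690534 (.cons 0x4532678901 .nil))) .done (.node 2 4 (.cons 0x5096781243 .nil) (.node 2 7 (.cons 0x8906723451 .nil) (.node 2 8 (.cons 0x7609823451 .nil) .done .done) .done) .done)) (.node 2 6 (.cons 0x7890623451 .nil) (.node 2 4 (.cons 0x5096781243 .nil) (.node 1 9 (.cons 0x7819605243 .nil) (.node 1 6 (.cons 0x5432167890 .nil) (.node 3 6 (.cons 0x9054367812 .nil) (.node 4 6 (.cons 0x5467890123 .nil) .done .done) .done) .done) .done) .done) .done)) (.node 1 5 (.cons 0x8769051234 .nil) (.node 4 8 (.cons 0x9678432150 .nil) (.node 2 4 (.cons 0x9876015423 .nil) (.node 4 6 (.cons 0x5467890123 .nil) (.node 1 6 (.cons 0x5432167890 .nil) (.node 1 7 (.cons 0x4325178960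 .nil) (.node 0 7 (.cons 0x9607815243 .nil) (.node 0 4 (.cons 0x7896043251 .nil) (.node 1 4 (.cons 0x3417890652 .nil) .done .done) .done) .done) .done) .done) .done) (.node 0 8 (.cons 0x9678051234 .nil) (.node 0 4 (.cons 0x7896043251 .nil) (.node 0 7 (.cons 0x7021569843 .nil) .done .done) .done) (.leaf 0x6784321509 0 .done))) (.node 2 8 (.cons 0x7609823451 .nil) (.node 7 9 (.cons 0x1543289760 .nil) (.leaf 0x6798234510 1 (.leaf 0x8234510679 0 .done)) (.node 5 9 .nil (.node 2 4 (.cons 0x5096781243 (.cons 0x3421876950 (.cons 0x7609518243 .nil))) .done (.node 3 5 (.cons 0x4350967812 .nil) (.node 4 9 (.cons 0x6789453210 .nil) (.node 1 9 (.cons 0x7605349182 .nil) (.node 3 9 (.cons 0x4390567821 .nil) .done .done) (.leaf 0x3549876012 0 (.leaf 0x7894532106 0 .done))) .done) .done)) .done)) .done)) .done))) .done)) .done))))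
noncomputable def tc9_2_75 : T := (.node 0 7 (.cons 0x9870345612 .nil) (.node 5 9 (.cons 0x8954307612 (.cons 0x4598761032 (.cons 0x4598761230 .nil))) (.node 0 4 (.cons 0x5987604321 .nil) (.node 0 8 (.cons 0x9543216780 .nil) (.node 2 9 (.cons 0x7892165430 (.cons 0x4329508761 (.cons 0x7892165403 .nil))) .done .done) (.leaf 0x7612340598 0 .done)) (.node 2 4 (.cons 0x5987061243 (.cons 0x7895603421 .nil)) (.node 6 8 (.cons 0x7021689543 (.cons 0x9542301687 (.cons 0x9542168703 .nil))) .done (.node 3 9 (.cons 0x7893016542 .nil) (.leaf 0x124567893 0 (.node 0 4 (.cons 0x9876123045 .nil) (.node 2 9 (.cons 0x5401678923 (.cons 0x5403298761 .nil)) .done .done) .done)) .done)) .done)) (.node 5 9 (.cons 0x8954320761 (.cons 0x4598761032 (.cons 0x4598761230 .nil))) (.node 1 5 (.cons 0x4309876512 .nil) (.node 2 9 (.cons 0x7892165430 .nil) (.node 1 8 (.cons 0x7029816543 (.cons 0x8167059234 (.cons 0x6781290543 .nil))) .done (.node 4 8 (.cons 0x3487650921 (.cons 0x3489207651 (.cons 0x7061598432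 (.cons 0x5167029843 (.cons 0x9234876150 .nil))))) .done (.leaf 0x8706154329 0 .done))) (.node 2 9 (.cons 0x6154329870 (.cons 0x7892165430 .nil)) (.node 1 9 (.cons 0x8916702345 .nil) (.node 2 6 (.cons 0x8762190543 (.cons 0x8762190345 (.cons 0x9870326154 .nil))) .done .done) (.leaf 0x8706154329 0 .done)) .done)) (.node 2 6 (.cons 0x1623459870 (.cons 0x4598703261 .nil)) (.node 1 8 (.cons 0x9543261870 (.cons 0x9034562187 (.cons 0x7812659034 (.cons 0x9543078162 .nil)))) .done .done) .done)) .done)) (.node 0 7 (.cons 0x9870345612 .nil) (.node 2 6 (.cons 0x7890345621 .nil) (.node 4 6 (.cons 0x5467890123 .nil) (.node 3 6 .nil (.node 2 7 (.cons 0x9872165430 (.cons 0x9872103654 (.cons 0x4563098721 .nil))) (.node 1 5 (.cons 0x6512789034 (.cons 0x8907634512 (.cons 0x4365127890 .nil))) .done .done) (.node 6 9 (.cons 0x8769054321 .nil) (.node 6 8 .nil (.node 0 4 (.cons 0x7896123045 .nil) (.node 4 7 (.cons 0x5478961230 (.cons 0x9687450321 (.cons 0x5478690321 .nil))) .done .done)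 .done) .done) .done)) (.node 0 4 .nil (.node 6 9 (.cons 0x8769054321 (.cons 0x7896123045 .nil)) (.node 3 6 (.cons 0x9876321045 .nil) (.node 1 5 (.cons 0x8907634512 (.cons 0x7890154632 .nil)) (.node 0 8 (.cons 0x9087623451 .nil) .done .done) .done) .done) .done) .done)) (.node 2 5 (.cons 0x9870345216 .nil) (.node 0 4 .nil (.node 5 7 (.cons 0x9875403261 (.cons 0x9875403216 .nil)) (.node 0 8 (.cons 0x9802345761 .nil) .done .done) (.node 0 8 .nil (.node 5 7 (.cons 0x9875403261 (.cons 0x9802345761 .nil)) (.node 1 3 (.cons 0x2134567890 (.cons 0x9087654312 (.cons 0x9804576132 .nil))) (.node 4 9 (.cons 0x7894306521 (.cons 0x7652134980 (.cons 0x9431250876 .nil))) (.leaf 0x1049876523 0 .done) .done) .done) .done) .done)) (.node 6 9 (.cons 0x3452169870 .nil) (.node 0 8 (.cons 0x7089612543 .nil) (.node 0 4 .nil (.node 3 8 (.cons 0x7654389021 (.cons 0x7698321045 (.cons 0x7043896125 .nil))) .done .done) .done) (.leaf 0x8703452169 0 .done)) .done)) .done)) (.node 2 6 (.cons 0x7890345621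 .nil) (.node 0 4 .nil (.node 5 7 (.cons 0x9875403216 .nil) (.node 0 8 (.cons 0x9802167543 .nil) .done (.node 2 7 (.cons 0x9872165430 (.cons 0x9872165403 .nil)) (.node 2 9 (.cons 0x7892165430 (.cons 0x3406578921 (.cons 0x7892165403 .nil))) .done .done) .done)) (.node 0 8 .nil (.node 1 5 (.cons 0x9807615432 .nil) (.node 2 7 (.cons 0x9872165430 (.cons 0x9872156034 (.cons 0x6512789034 .nil))) (.node 3 6 (.cons 0x4563098721 (.cons 0x8904512763 (.cons 0x4510987632 .nil))) .done .done) (.node 6 9 (.cons 0x2345169870 (.cons 0x7089615432 (.cons 0x7809623451 .nil))) (.node 2 9 (.cons 0x7892165430 .nil) (.node 3 7 (.cons 0x8920734561 (.cons 0x9621540873 (.cons 0x9216543780 (.cons 0x9216508734 .nil)))) .done (.leaf 0x892345167 0 .done)) .done) .done)) .done) .done)) (.node 1 5 (.cons 0x9870326154 .nil) (.node 0 8 (.cons 0x9807615432 .nil) (.node 0 4 .nil (.node 1 3 (.cons 0x2134567890 (.cons 0x5678904312 .nil)) (.node 3 7 (.cons 0x9802167345 (.cons 0x9873045621 (.cons 0x8904376512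 .nil))) .done .done) .done) .done) (.node 2 5 (.cons 0x9870615234 .nil) (.node 6 8 (.cons 0x9861543207 .nil) (.node 5 7 (.cons 0x6098751234 .nil) (.node 5 8 (.cons 0x9854320761 .nil) .done .done) .done) .done) .done)) .done)) .done)) (.node 0 7 .nil (.node 3 8 (.cons 0x7654389021 (.cons 0x9834567021 (.cons 0x9834561207 .nil))) (.node 1 5 (.cons 0x7651209834 (.cons 0x4389076512 .nil)) (.node 2 4 (.cons 0x9056783421 (.cons 0x9870651243 (.cons 0x9078342156 .nil))) (.node 3 9 (.cons 0x7893016542 (.cons 0x2165439870 .nil)) (.leaf 0x165423987 0 .done) .done) .done) .done) (.node 1 7 (.cons 0x8902176543 .nil) (.node 0 8 .nil (.node 3 9 (.cons 0x5439807612 (.cons 0x6543908712 .nil)) (.node 2 4 (.cons 0x9876103245 (.cons 0x3987654210 (.cons 0x8765421093 (.cons 0x7893016542 .nil)))) .done (.node 2 4 (.cons 0x8765093421 (.cons 0x5678093421 (.cons 0x9342165087 .nil))) (.node 2 5 (.cons 0x4256789301 (.cons 0x6521780934 .nil)) (.node 5 9 (.cons 0x6789542301 (.cons 0x7612345980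 (.cons 0x6593421780 (.cons 0x8024395671 .nil)))) .done .done) .done) .done)) (.node 0 4 .nil (.node 3 7 (.cons 0x9802165437 .nil) (.node 3 8 (.cons 0x7654389021 .nil) (.node 1 5 (.cons 0x7651209834 (.cons 0x9873406512 .nil)) (.node 2 9 (.cons 0x4387650921 (.cons 0x5604378921 (.cons 0x8921567340 (.cons 0x5403298761 .nil)))) .done .done) .done) (.node 1 5 (.cons 0x8902156734 (.cons 0x8904376512 .nil)) (.node 5 9 (.cons 0x4598761032 (.cons 0x7340895612 (.cons 0x7895160432 (.cons 0x3216789540 .nil)))) .done .done) .done)) .done) .done)) (.node 1 8 (.cons 0x9054321876 .nil) (.node 0 8 .nil (.node 7 9 (.cons 0x7981654302 (.cons 0x5432089761 .nil)) (.node 1 3 (.cons 0x2134567890 (.cons 0x9087654312 .nil)) (.node 2 4 (.cons 0x7981654203 (.cons 0x3124567980 (.cons 0x8097654213 (.cons 0x7980316542 .nil)))) .done .done) .done) .done) (.node 3 6 (.cons 0x9054367812 .nil) (.node 2 6 .nil (.node 1 5 (.cons 0x8907621543 (.cons 0x9870345162 .nil)) (.node 3 8 (.cons 0x7654389021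 (.cons 0x9834512076 (.cons 0x9056217834 (.cons 0x7651209834 .nil)))) .done .done) (.node 3 7 .nil (.node 0 4 (.cons 0x3789045621 .nil) (.node 0 8 (.cons 0x9802165437 .nil) .done .done) (.node 2 7 (.cons 0x9816720345 .nil) (.node 0 4 .nil (.node 3 5 (.cons 0x8902176534 (.cons 0x9812673540 (.cons 0x6534098712 .nil))) .done (.node 0 8 .nil (.node 1 3 (.cons 0x9873126540 (.cons 0x9804562137 (.cons 0x9087213456 .nil))) .done .done) .done)) .done) .done)) .done)) (.node 0 8 .nil (.node 1 3 (.cons 0x2134567890 (.cons 0x9087654312 .nil)) (.node 2 7 (.cons 0x5436721890 (.cons 0x9081276345 .nil)) (.leaf 0x3127890654 0 (.leaf 0x9872134560 0 .done)) .done) (.node 0 4 .nil (.node 2 5 (.cons 0x7634521890 (.cons 0x9804365217 (.cons 0x6521789043 .nil))) (.node 3 9 (.cons 0x7618930254 (.cons 0x4039871652 .nil)) (.leaf 0x1254093678 0 .done) .done) .done) .done)) .done)) .done)) .done)) .done)) .done)))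
noncomputable def tc9_2_76 : T := (.node 0 3 .nil tc9_2_75 (.node 0 8 (.cons 0x9087612345 .nil) (.node 0 3 .nil (.node 1 8 (.cons 0x9054321876 (.cons 0x9812034567 .nil)) (.node 2 4 (.cons 0x9056781243 (.cons 0x9876542103 (.cons 0x9034218765 .nil))) (.node 1 7 (.cons 0x5609871243 (.cons 0x9871243065 .nil)) (.node 5 8 (.cons 0x6712098543 (.cons 0x9854302176 (.cons 0x9032167854 .nil))) (.node 2 9 (.cons 0x1678543290 (.cons 0x6178542903 .nil)) (.node 1 4 (.cons 0x5876143290 (.cons 0x5678921430 .nil)) (.leaf 0x8920341765 0 .done) .done) .done) .done) .done) (.node 5 7 (.cons 0x9087543216 (.cons 0x9812034576 .nil)) (.node 2 9 (.cons 0x6781290543 (.cons 0x6187543092 .nil)) (.node 1 4 (.cons 0x3416578092 (.cons 0x5678921430 (.cons 0x8756143092 .nil))) (.node 2 6 (.cons 0x9087543261 (.cons 0x5762981430 (.cons 0x8903267541 .nil))) .done .done) (.leaf 0x7543029816 0 .done)) (.node 3 6 (.cons 0x9812036754 (.cons 0x4576309812 .nil)) (.node 2 4 (.cons 0x5423678901 (.cons 0x9876542103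 (.cons 0x9036187542 .nil))) (.node 6 9 (.cons 0x8769054321 (.cons 0x8124576903 (.cons 0x5421876903 .nil))) .done .done) .done) .done)) .done)) (.node 3 8 (.cons 0x7654389021 .nil) (.node 0 7 (.cons 0x9834567021 .nil) (.node 0 4 .nil (.node 1 7 (.cons 0x9834567120 (.cons 0x9834021765 .nil)) (.node 3 9 (.cons 0x8934567120 (.cons 0x5604398712 (.cons 0x8934021765 .nil))) (.node 2 8 (.cons 0x9820345671 (.cons 0x5671289340 (.cons 0x3982176540 .nil))) .done .done) .done) .done) .done) (.node 3 9 (.cons 0x7809345612 .nil) (.node 0 7 .nil (.node 1 8 (.cons 0x9054321876 (.cons 0x2189345670 .nil)) (.node 3 6 (.cons 0x9054367812 (.cons 0x9812076345 .nil)) .done .done) (.node 0 4 .nil (.node 1 7 (.cons 0x8902176543 (.cons 0x9834021765 .nil)) (.node 3 5 (.cons 0x8902176534 (.cons 0x6534098712 .nil)) (.leaf 0x2167890453 1 .done) .done) .done) .done)) (.node 0 7 (.cons 0x8709345612 .nil) (.node 0 4 .nil (.node 1 7 (.cons 0x8902176543 (.cons 0x5604398712 .nil)) (.node 3 5 (.cons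 0x8902176534 (.cons 0x8904356712 .nil)) (.leaf 0x2167890453 1 .done) .done) .done) .done) .done)) .done)) .done)) (.node 0 7 .nil (.node 3 8 (.cons 0x7654389021 (.cons 0x9834567021 (.cons 0x9078345612 .nil))) (.node 1 8 (.cons 0x9054321876 (.cons 0x9812076543 .nil)) (.node 1 3 (.cons 0x2134567890 (.cons 0x8907654312 .nil)) (.node 1 5 (.cons 0x7651209834 (.cons 0x4389076512 .nil)) .done .done) .done) (.node 3 9 (.cons 0x5439087612 (.cons 0x8709345612 .nil)) (.node 2 5 (.cons 0x9087612543 (.cons 0x6708934521 .nil)) (.leaf 0x4390876125 1 (.leaf 0x1678093452 0 .done)) (.node 1 3 (.cons 0x2134567890 (.cons 0x8907654312 .nil)) (.node 2 9 (.cons 0x9213450876 (.cons 0x6543129870 (.cons 0x4567029831 .nil))) .done (.node 2 9 (.cons 0x2907834561 (.cons 0x4561387092 .nil)) (.leaf 0x3129870654 0 .done) .done)) .done)) .done)) (.node 0 3 .nil (.node 1 8 (.cons 0x9054321876 (.cons 0x9812034567 .nil)) (.node 2 6 (.cons 0x9078162345 .nil) (.node 4 9 (.cons 0x7894562103 (.cons 0x5498762103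 (.cons 0x5498762301 .nil))) (.node 3 5 (.cons 0x6789453210 (.cons 0x8945326701 (.cons 0x6235498701 (.cons 0x8761094532 .nil)))) .done (.node 5 7 (.cons 0x5706234981 (.cons 0x7560349812 (.cons 0x3089457621 .nil))) .done .done)) (.node 5 9 (.cons 0x8761234590 (.cons 0x7816230954 (.cons 0x8761230954 .nil))) (.node 2 8 (.cons 0x8234590761 (.cons 0x9543082167 .nil)) (.leaf 0x954328167 0 .done) (.node 4 8 (.cons 0x7843216095 (.cons 0x9548703261 (.cons 0x7845903261 .nil))) .done .done)) .done)) (.node 2 4 (.cons 0x9056781243 (.cons 0x9876542103 (.cons 0x9034218765 .nil))) (.node 0 4 .nil (.node 3 5 (.cons 0x7890653421 (.cons 0x9812043567 (.cons 0x7653409812 .nil))) (.node 1 3 (.cons 0x2134567890 (.cons 0x9876540312 .nil)) (.node 1 5 (.cons 0x7890651243 (.cons 0x9876043215 .nil)) .done .done) (.leaf 0x4098761235 0 .done)) .done) .done) .done)) (.node 0 4 .nil (.node 3 5 (.cons 0x6789012354 .nil) (.leaf 0x2167890453 1 (.node 1 3 (.cons 0x2134567890 (.cons 0x5678904312 .nil))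 (.node 2 9 (.cons 0x8920765431 (.cons 0x7892134065 (.cons 0x5678921340 (.cons 0x3129876540 .nil)))) .done .done) (.leaf 0x4098761235 0 .done))) .done) .done)) .done)) (.node 0 3 .nil (.node 0 7 .nil (.node 5 8 (.cons 0x9032167854 (.cons 0x9078543216 .nil)) (.node 1 9 (.cons 0x7658912034 (.cons 0x9167085432 (.cons 0x6702198543 (.cons 0x6543078912 .nil)))) .done .done) (.node 1 7 (.cons 0x8902176543 .nil) (.node 5 9 (.cons 0x8761234590 (.cons 0x4306598712 (.cons 0x8761230954 .nil))) (.node 2 6 (.cons 0x1762345980 (.cons 0x8954307621 (.cons 0x4598032671 .nil))) .done (.node 2 4 (.cons 0x8761095423 (.cons 0x6789542301 (.cons 0x2430659871 .nil))) (.node 6 8 (.cons 0x1768954320 .nil) (.leaf 0x324598671 0 (.leaf 0x3245986710 1 .done)) .done) .done)) (.node 0 4 .nil (.node 3 5 (.cons 0x8902176534 (.cons 0x8904356712 (.cons 0x6534098712 .nil))) (.leaf 0x2167890453 1 (.leaf 0x4098761235 0 .done)) (.node 4 8 (.cons 0x5671209843 (.cons 0x9843021765 .nil)) (.node 1 8 (.cons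 0x9054321876 (.cons 0x9812034567 .nil)) (.node 5 8 (.cons 0x9856712034 (.cons 0x9032167854 .nil)) (.node 1 3 (.cons 0x9854312076 (.cons 0x6709854312 .nil)) .done .done) .done) .done) .done)) .done)) .done)) (.node 3 8 (.cons 0x7654389021 .nil) (.node 0 7 (.cons 0x9834567021 .nil) (.node 0 4 .nil (.node 1 3 (.cons 0x2134567890 (.cons 0x5678904312 .nil)) (.node 3 5 (.cons 0x6789012354 .nil) (.leaf 0x4098761235 0 .done) .done) .done) .done) (.node 2 6 (.cons 0x7890345621 .nil) (.node 0 7 (.cons 0x9870345621 .nil) (.node 0 4 .nil (.node 1 5 (.cons 0x9087615432 (.cons 0x9876043215 (.cons 0x9834076215 .nil))) (.node 5 9 (.cons 0x8761234590 (.cons 0x5983407621 (.cons 0x3267895401 .nil))) (.leaf 0x762159834 1 .done) .done) .done) .done) (.node 0 7 .nil (.node 1 3 (.cons 0x2134567890 (.cons 0x9870312654 (.cons 0x8907654312 .nil))) .done (.node 0 4 .nil (.node 1 7 (.cons 0x6543098712 (.cons 0x9871265403 .nil)) (.node 3 5 (.cons 0x8902176534 (.cons 0x9871265304 (.cons 0x8904356712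 .nil))) (.leaf 0x4098761235 0 .done) .done) .done) .done)) .done)) .done)) .done)) .done))) (.node 0 7 (.cons 0x8907612345 .nil) (.node 6 9 (.cons 0x8769054321 .nil) (.node 4 6 (.cons 0x5467890123 .nil) (.node 3 6 .nil (.node 5 9 (.cons 0x7895463210 .nil) (.leaf 0x8701236459 1 (.leaf 0x4632107895 0 (.node 1 8 (.cons 0x2345096781 (.cons 0x4598120763 (.cons 0x7021895463 (.cons 0x9054367812 .nil)))) (.node 0 4 (.cons 0x9504678123 (.cons 0x9504632187 .nil)) (.node 2 4 (.cons 0x9056781243 (.cons 0x5904236781 (.cons 0x9507812463 .nil))) .done .done) .done) .done))) (.node 6 8 .nil (.node 1 5 (.cons 0x9867021543 (.cons 0x9078634512 .nil)) (.node 2 4 (.cons 0x8769015423 (.cons 0x7890651243 .nil)) (.node 3 8 (.cons 0x9678324501 (.cons 0x9012456387 (.cons 0x9056783421 (.cons 0x7610983245 .nil)))) .done .done) .done) (.node 2 6 .nil (.node 5 8 (.cons 0x7612345890 (.cons 0x9078543621 .nil)) (.node 1 9 (.cons 0x6702198543 (.cons 0x9126345870 (.cons 0x8762190543 .nil))) (.node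 3 5 (.cons 0x9876453210 (.cons 0x4358912670 (.cons 0x5346219870 (.cons 0x4532678901 .nil)))) .done .done) (.node 1 9 (.cons 0x7645891023 (.cons 0x2634587091 (.cons 0x4326785091 (.cons 0x8762190543 .nil)))) .done .done)) .done) .done)) .done)) (.node 3 6 .nil (.node 2 4 (.cons 0x7890124563 .nil) (.node 1 8 (.cons 0x2345096781 (.cons 0x9678105423 (.cons 0x9056781243 (.cons 0x9054367812 .nil)))) (.node 1 3 (.cons 0x8769013245 .nil) (.leaf 0x8765423109 0 (.leaf 0x9054231876 0 .done)) .done) (.node 1 8 (.cons 0x2345096781 (.cons 0x9812076345 (.cons 0x9632450187 (.cons 0x9054367812 .nil)))) (.node 1 9 (.cons 0x8769105423 (.cons 0x5078196342 (.cons 0x8763450912 .nil))) .done .done) .done)) (.node 0 4 (.cons 0x9876321045 .nil) (.node 2 4 .nil (.node 3 9 (.cons 0x7893654012 (.cons 0x8936701245 (.cons 0x7893654210 (.cons 0x8765093421 .nil)))) .done (.node 0 3 (.cons 0x9876542103 .nil) (.node 0 8 .nil (.node 3 9 (.cons 0x3987654210 (.cons 0x7654210893 .nil)) (.leaf 0x4567893012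 0 (.node 1 5 (.cons 0x7698023451 (.cons 0x7809346512 .nil)) (.leaf 0x7693245108 0 .done) .done)) .done) .done) .done)) (.node 4 7 .nil (.node 0 3 (.cons 0x9874563012 .nil) (.node 5 8 (.cons 0x7612345890 (.cons 0x9854307612 (.cons 0x7458963201 (.cons 0x9854763201 (.cons 0x3216745890 .nil))))) .done .done) (.node 0 3 .nil (.node 2 5 (.cons 0x9876325401 (.cons 0x6987452301 .nil)) (.leaf 0x3016987452 0 (.leaf 0x4523016987 1 .done)) (.node 0 8 .nil (.node 1 3 (.cons 0x2134567890 (.cons 0x9087654312 (.cons 0x9802134765 .nil))) .done .done) .done)) .done)) .done)) .done)) .done)) (.node 1 5 .nil (.node 6 8 (.cons 0x9867021543 (.cons 0x7689023451 .nil)) (.node 3 8 (.cons 0x4512076983 (.cons 0x7651209834 .nil)) (.node 4 6 (.cons 0x7021546983 (.cons 0x7832154690 .nil)) (.leaf 0x9645123870 1 .done) (.node 2 4 (.cons 0x7610983245 (.cons 0x3896702451 (.cons 0x1542387690 (.cons 0x7890651243 .nil)))) .done .done)) .done) (.node 0 4 (.cons 0x9876043215 .nil) (.node 0 3 .nil (.node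 2 9 (.cons 0x7892156043 (.cons 0x7892156034 .nil)) (.node 4 8 (.cons 0x3487650921 (.cons 0x9678450321 (.cons 0x7698451203 (.cons 0x4876923051 .nil)))) .done .done) (.node 0 8 .nil (.node 3 7 (.cons 0x6987321540 (.cons 0x7321698045 (.cons 0x9802156734 .nil))) (.node 4 9 (.cons 0x5123498760 (.cons 0x7608943215 (.cons 0x8021549673 (.cons 0x8023769451 .nil)))) .done .done) .done) .done)) (.node 0 3 .nil (.node 4 8 (.cons 0x9678450321 (.cons 0x7698451203 .nil)) (.node 1 7 (.cons 0x8967154023 (.cons 0x5176984023 .nil)) (.node 3 5 (.cons 0x8453217690 (.cons 0x9065348712 (.cons 0x8453209671 .nil))) .done .done) (.leaf 0x1548967032 0 .done)) (.node 0 8 .nil (.node 1 3 (.cons 0x2134567890 (.cons 0x9087654312 .nil)) (.node 4 7 (.cons 0x6987451230 (.cons 0x9802134765 .nil)) (.leaf 0x2089674513 0 .done) .done) .done) .done)) .done)) (.node 2 5 (.cons 0x8907612543 .nil) (.node 5 7 (.cons 0x6098751234 .nil) (.node 2 6 (.cons 0x4326098751 .nil) (.node 2 4 (.cons 0x8901675423 .nil)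 (.node 5 8 (.cons 0x7612345890 .nil) (.node 2 8 (.cons 0x1675432890 .nil) (.node 2 9 .nil (.node 1 3 (.cons 0x7561342890 (.cons 0x1342987560 (.cons 0x8765431290 (.cons 0x8765092134 .nil)))) .done .done) .done) .done) .done) .done) (.node 5 8 (.cons 0x7612345890 .nil) (.node 0 8 (.cons 0x9807612543 .nil) (.node 0 3 (.cons 0x8903216754 .nil) (.node 0 4 (.cons 0x8904576123 .nil) .done .done) .done) .done) .done)) (.node 5 8 (.cons 0x7612345890 .nil) (.node 5 7 (.cons 0x6098751234 .nil) (.node 3 5 (.cons 0x6789012354 .nil) (.node 5 9 .nil (.node 4 7 (.cons 0x3478906512 (.cons 0x8953210674 (.cons 0x8743215906 .nil))) .done .done) .done) .done) (.node 5 7 (.cons 0x6098751234 .nil) (.node 3 5 (.cons 0x6789012354 .nil) (.node 5 9 .nil (.node 4 8 (.cons 0x9506784321 (.cons 0x7598432160 (.cons 0x3489576021 .nil))) (.leaf 0x7601234895 0 .done) .done) .done) .done) .done)) .done)) .done))) .done)) (.node 1 5 (.cons 0x8907615432 .nil) (.node 0 3 .nil (.node 5 7 (.cons 0x8903216754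 .nil) (.node 0 4 (.cons 0x9875123406 .nil) (.node 2 8 (.cons 0x9823451670 (.cons 0x5761289043 (.cons 0x9823076154 .nil))) (.leaf 0x1675430982 0 (.leaf 0x9821675430 1 .done)) .done) .done) (.node 0 4 (.cons 0x9876043215 .nil) (.node 0 8 (.cons 0x9807615432 .nil) .done .done) .done)) (.node 5 7 (.cons 0x6098751234 .nil) (.node 0 3 .nil (.node 1 8 (.cons 0x9054321876 (.cons 0x9812034567 (.cons 0x9812034576 .nil))) (.node 2 4 (.cons 0x7890651243 (.cons 0x9876542103 (.cons 0x9034218765 (.cons 0x9875603421 .nil)))) .done .done) (.node 0 4 (.cons 0x9875123406 .nil) (.node 4 7 (.cons 0x3478906512 .nil) (.node 0 8 .nil (.node 1 3 (.cons 0x2134567890 (.cons 0x9802134567 (.cons 0x9087654312 .nil))) (.node 3 7 (.cons 0x4378906512 .nil) .done .done) .done) .done) .done) .done)) (.node 0 3 (.cons 0x8903216754 .nil) (.node 5 8 (.cons 0x7612345890 .nil) (.leaf 0x4321670985 0 (.node 0 4 (.cons 0x8904576123 .nil) (.node 0 8 .nil (.node 2 7 (.cons 0x1672345890 (.cons 0x9807234516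 (.cons 0x9085432761 .nil))) (.node 1 3 (.cons 0x2134567890 (.cons 0x9802134567 (.cons 0x9087654312 .nil))) (.node 2 5 (.cons 0x4312567890 .nil) (.leaf 0x4316725890 1 .done) .done) .done) .done) .done) .done)) .done) .done)) .done)) .done)) .done)))
noncomputable def tc9_2_77 : T := (.node 1 3 (.cons 0x2134567890 (.cons 0x7890654312 .nil)) (.node 2 9 (.cons 0x7892134560 .nil) (.node 0 7 (.cons 0x8920765431 .nil) (.node 0 8 (.cons 0x9213450876 .nil) (.leaf 0x5431290876 0 (.leaf 0x3129807654 1 .done)) (.node 1 8 (.cons 0x9054321876 (.cons 0x6781290543 .nil)) (.node 0 4 (.cons 0x3104567892 .nil) (.node 3 6 (.cons 0x7812905634 .nil) (.leaf 0x2905436781 0 (.leaf 0x9870456312 0 .done)) .done) (.leaf 0x2981345670 0 .done)) .done)) (.node 7 9 (.cons 0x8976543120 (.cons 0x8976021345 .nil)) (.node 2 8 (.cons 0x1345679820 (.cons 0x4532897601 (.cons 0x7982065431 .nil))) (.node 0 4 (.cons 0x7892134065 (.cons 0x2897604531 .nil)) (.node 1 5 (.cons 0x2987651340 .nil) (.leaf 0x3402987651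 0 .done) .done) .done) (.node 4 8 (.cons 0x9213487650 (.cons 0x1235489760 (.cons 0x7984560213 (.cons 0x2135489760 (.cons 0x5489760231 .nil))))) .done .done)) (.node 0 4 (.cons 0x5406789213 (.cons 0x5406789231 .nil)) (.node 0 3 (.cons 0x4567892130 .nil) (.node 1 5 (.cons 0x4309876512 .nil) (.node 0 7 (.cons 0x6078923154 .nil) (.node 5 9 (.cons 0x8954312076 (.cons 0x4598760132 .nil)) .done .done) .done) (.leaf 0x9876540312 0 .done)) .done) .done))) (.node 1 7 (.cons 0x8902176543 .nil) (.node 3 9 (.cons 0x8934567120 (.cons 0x2178934560 .nil)) (.node 2 9 (.cons 0x8765431290 .nil) (.node 3 7 (.cons 0x8920654371 .nil) (.node 3 6 (.cons 0x4563789210 (.cons 0x8920173654 .nil)) .done .done) (.node 0 4 (.cons 0x5604398712 (.cons 0x8921760453 (.cons 0x8923540671 .nil))) .done .done)) (.node 1 8 (.cons 0x9054321876 (.cons 0x7189345602 (.cons 0x5439817602 .nil))) (.node 2 4 (.cons 0x5671893420 (.cons 0x5423987601 (.cons 0x3987106542 .nil))) (.node 5 8 (.cons 0x6785423901 (.cons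 0x9324587601 (.cons 0x9324587106 (.cons 0x9854320671 (.cons 0x4589320671 .nil))))) .done .done) .done) .done)) (.node 4 8 (.cons 0x2176534890 (.cons 0x9845321067 (.cons 0x5348906712 .nil))) (.node 2 9 (.cons 0x8765431290 (.cons 0x7843129065 (.cons 0x7845609213 .nil))) (.node 7 9 (.cons 0x2179843560 .nil) (.node 6 8 (.cons 0x9712056843 (.cons 0x7902134865 (.cons 0x5684317902 .nil))) (.leaf 0x1345687902 1 .done) (.node 2 6 (.cons 0x5348971260 (.cons 0x5487906213 .nil)) (.leaf 0x978453126 0 (.node 5 8 (.cons 0x8543120976 (.cons 0x3458976021 (.cons 0x4317856092 (.cons 0x7906213584 .nil)))) .done .done)) (.leaf 0x8435602179 0 (.leaf 0x1798435602 1 .done)))) .done) (.node 2 5 (.cons 0x3489025671 (.cons 0x9067845231 .nil)) (.leaf 0x6713489025 0 (.node 1 5 (.cons 0x9843206715 .nil) (.node 2 9 (.cons 0x8765431290 (.cons 0x6784329051 (.cons 0x6784513290 .nil))) .done .done) .done)) .done)) (.node 1 8 (.cons 0x9054321876 .nil) (.node 7 9 (.cons 0x3456798120 (.cons 0x5432067981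 (.cons 0x4532189760 .nil))) (.node 4 8 (.cons 0x9765021843 (.cons 0x5609784312 (.cons 0x9760534812 .nil))) (.node 1 9 (.cons 0x3481976502 (.cons 0x5067918432 .nil)) (.leaf 0x8432056791 0 .done) .done) .done) (.node 7 9 (.cons 0x7981206543 .nil) (.leaf 0x8123456097 0 (.node 2 4 (.cons 0x6509781243 (.cons 0x7981243560 (.cons 0x5609781243 .nil))) (.node 0 7 (.cons 0x8970653421 .nil) (.node 3 7 (.cons 0x6542109873 (.cons 0x8973560124 .nil)) .done .done) .done) (.leaf 0x978123456 1 (.node 4 6 (.cons 0x7981235460 (.cons 0x5460978123 (.cons 0x5460978132 .nil))) (.node 6 9 (.cons 0x8769054321 .nil) (.leaf 0x2345096781 0 (.node 2 4 (.cons 0x8769013245 (.cons 0x5423187960 (.cons 0x8790654213 .nil))) (.node 1 5 (.cons 0x8769015423 (.cons 0x3245187960 .nil)) .done .done) .done)) .done) .done)))) (.node 0 7 (.cons 0x4356709812 .nil) (.node 2 8 (.cons 0x4356709821 (.cons 0x9065431287 .nil)) (.node 4 9 (.cons 0x1289435670 (.cons 0x7065349821 (.cons 0x7601289453 (.cons 0x9435067182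 .nil)))) (.leaf 0x8217065349 0 .done) (.node 4 9 (.cons 0x3128765490 (.cons 0x5490678213 (.cons 0x5490678231 .nil))) (.node 5 8 (.cons 0x8567094312 (.cons 0x9432185067 (.cons 0x7609458231 .nil))) (.leaf 0x943128567 0 .done) (.node 2 5 (.cons 0x8709431256 (.cons 0x3498706521 (.cons 0x6098712543 .nil))) .done .done)) .done)) (.node 4 7 (.cons 0x8901235476 .nil) (.node 3 9 (.cons 0x5674398120 (.cons 0x3987456012 .nil)) (.node 0 3 (.cons 0x9812034765 .nil) (.node 2 5 (.cons 0x6521039874 (.cons 0x9871254306 (.cons 0x6098712543 (.cons 0x4789306521 .nil)))) .done .done) (.node 1 5 (.cons 0x8932015476 (.cons 0x8934517602 (.cons 0x7439815602 .nil))) .done .done)) (.node 2 9 (.cons 0x8765431290 (.cons 0x5609218743 .nil)) (.leaf 0x653478129 0 (.node 4 8 (.cons 0x3567481290 (.cons 0x3548921760 (.cons 0x7845609213 (.cons 0x5487609213 (.cons 0x5487609231 .nil))))) .done .done)) .done)) .done)) .done))) .done))) (.node 2 5 (.cons 0x4312567890 (.cons 0x7890652134 .nil)) (.node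 4 9 (.cons 0x8765094312 (.cons 0x7894312560 (.cons 0x5213498760 (.cons 0x3254987601 .nil)))) (.leaf 0x6013254987 0 .done) (.node 4 7 (.cons 0x8902134765 .nil) (.leaf 0x6521347890 1 (.leaf 0x652134789 0 (.node 2 8 (.cons 0x9056782134 (.cons 0x9821067453 (.cons 0x5347609821 .nil))) (.node 1 7 (.cons 0x8902176543 .nil) (.node 3 9 (.cons 0x8934567120 (.cons 0x2178934560 (.cons 0x6017453982 .nil))) .done (.leaf 0x982174356 1 .done)) .done) (.node 1 8 (.cons 0x5674318902 (.cons 0x9810674532 (.cons 0x4760981352 .nil))) (.node 3 7 (.cons 0x6520981374 (.cons 0x9812065437 (.cons 0x9065437812 .nil))) .done .done) .done)))) .done)) .done))) (.node 1 7 (.cons 0x8902176543 (.cons 0x4356098712 .nil)) (.node 5 9 (.cons 0x8954321760 (.cons 0x8954320671 .nil)) (.node 6 8 (.cons 0x1768954320 .nil) (.leaf 0x9543201768 0 (.leaf 0x7689543201 1 (.node 4 9 (.cons 0x7123549860 (.cons 0x9450687123 (.cons 0x7120689453 (.cons 0x6017894532 .nil)))) .done .done))) (.node 3 8 (.cons 0x9834567120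 (.cons 0x4598320671 .nil)) (.node 5 8 (.cons 0x9854320671 .nil) (.node 0 3 (.cons 0x9856712034 .nil) (.node 6 9 (.cons 0x4589671032 (.cons 0x1769854320 .nil)) (.leaf 0x7698543201 1 .done) .done) .done) (.node 0 4 (.cons 0x6045987123 .nil) (.node 0 3 (.cons 0x4598760321 .nil) (.node 1 4 (.cons 0x4176598302 (.cons 0x8760954123 (.cons 0x8954176032 .nil))) (.leaf 0x238954176 0 .done) .done) (.leaf 0x7659834021 0 .done)) .done)) .done)) (.node 2 9 (.cons 0x8712906543 (.cons 0x8712906534 .nil)) (.node 3 8 (.cons 0x7654389021 (.cons 0x4387650921 .nil)) (.node 6 8 (.cons 0x4356871290 (.cons 0x6871092354 (.cons 0x9068712354 .nil))) .done (.leaf 0x5438712906 0 .done)) (.node 6 8 (.cons 0x4532906871 (.cons 0x9068712354 .nil)) (.node 0 4 (.cons 0x9217860453 (.cons 0x9235406871 .nil)) (.node 4 8 (.cons 0x6092178453 (.cons 0x6092354871 .nil)) (.node 3 9 (.cons 0x3921786540 (.cons 0x9321054867 (.cons 0x8439021765 (.cons 0x9320176845 .nil)))) .done .done) .done) (.node 4 7 (.cons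 0x7435689021 (.cons 0x9874532106 .nil)) (.node 1 5 (.cons 0x5120986743 (.cons 0x9860215347 .nil)) (.leaf 0x9867435120 0 .done) (.node 2 6 (.cons 0x9874532601 .nil) (.node 1 5 (.cons 0x9015326874 (.cons 0x8609235174 .nil)) (.node 4 9 (.cons 0x9478623510 (.cons 0x7498601532 (.cons 0x3294786051 (.cons 0x5349068712 .nil)))) .done .done) .done) .done)) .done)) .done)) (.node 3 8 (.cons 0x7654389021 .nil) (.node 1 8 (.cons 0x9054321876 .nil) (.node 7 9 (.cons 0x6021798354 .nil) (.leaf 0x8123456097 0 (.node 0 7 (.cons 0x9834567021 .nil) (.node 4 7 (.cons 0x9743812056 (.cons 0x8974356021 (.cons 0x9743812065 .nil))) .done .done) (.leaf 0x978123456 1 .done))) (.node 7 9 (.cons 0x9765021834 (.cons 0x6021798354 .nil)) (.node 0 7 (.cons 0x9834567021 .nil) (.node 4 7 (.cons 0x8974356021 (.cons 0x9065347812 .nil)) (.node 6 9 (.cons 0x5476983210 (.cons 0x5476983201 (.cons 0x6983547120 .nil))) .done .done) .done) (.node 1 5 (.cons 0x6798320154 (.cons 0x8976023451 (.cons 0x4510679832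 .nil))) .done .done)) .done)) (.node 1 8 (.cons 0x9054321876 .nil) (.node 3 9 (.cons 0x7654398120 (.cons 0x5439817602 .nil)) (.node 7 9 (.cons 0x3456798120 (.cons 0x7981206534 (.cons 0x5432067981 (.cons 0x8123976054 .nil)))) .done .done) (.node 4 7 (.cons 0x5674389021 (.cons 0x9874532106 .nil)) (.node 1 5 (.cons 0x7651209834 .nil) (.leaf 0x6743890215 1 (.node 1 9 (.cons 0x4387650912 (.cons 0x8743560912 .nil)) .done .done)) (.node 3 7 (.cons 0x9812065437 (.cons 0x9065437812 .nil)) (.node 2 6 (.cons 0x9874532601 (.cons 0x9056218734 (.cons 0x3745620981 .nil))) (.node 0 3 (.cons 0x9034562187 .nil) (.node 2 9 (.cons 0x4783562901 (.cons 0x6509218734 (.cons 0x4562903781 .nil))) (.leaf 0x6290183745 1 .done) .done) .done) .done) .done)) .done)) (.node 1 5 (.cons 0x6715438902 (.cons 0x9834517602 .nil)) (.node 2 5 (.cons 0x9834520671 .nil) (.node 0 3 (.cons 0x4309876521 .nil) .done (.node 2 7 (.cons 0x6723890154 (.cons 0x9832760154 (.cons 0x4356098721 .nil))) (.node 1 9 (.cons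 0x8345672091 (.cons 0x2783456091 (.cons 0x8721906534 .nil))) .done .done) .done)) .done) .done))) .done))) (.node 3 8 (.cons 0x7654389021 .nil) (.node 1 9 (.cons 0x7654389120 (.cons 0x7602198345 .nil)) (.node 5 7 (.cons 0x8912345760 .nil) (.node 0 4 (.cons 0x6754019832 .nil) (.node 2 6 (.cons 0x7562198340 .nil) (.leaf 0x9104576238 0 (.leaf 0x1983267540 1 (.node 0 3 (.cons 0x7562198304 .nil) .done .done))) (.node 6 9 (.cons 0x5769834021 (.cons 0x4576983201 (.cons 0x3896754021 .nil))) .done .done)) (.node 4 9 (.cons 0x9450123876 (.cons 0x3894576021 .nil)) (.node 1 3 (.cons 0x2134567890 (.cons 0x7890654312 (.cons 0x7560213894 .nil))) (.leaf 0x2067549831 0 .done) (.node 2 7 (.cons 0x3894567201 (.cons 0x8910672354 (.cons 0x8327601945 .nil))) (.node 0 4 (.cons 0x4065721983 .nil) (.node 4 8 (.cons 0x3849105672 (.cons 0x6057238491 .nil)) .done .done) .done) .done)) .done)) (.node 5 9 (.cons 0x7601238954 .nil) (.node 4 6 (.cons 0x7891064532 (.cons 0x9546783210 (.cons 0x7645983210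 (.cons 0x7645983201 .nil)))) .done (.node 1 4 (.cons 0x6789014532 (.cons 0x3214598760 (.cons 0x9541238760 (.cons 0x7602145983 .nil)))) (.node 2 7 (.cons 0x8901453276 (.cons 0x6019872354 (.cons 0x9127834560 (.cons 0x8906723541 .nil)))) (.node 2 4 (.cons 0x9835672410 (.cons 0x1987243560 (.cons 0x8724356091 (.cons 0x9835601427 .nil)))) .done .done) .done) .done)) (.node 4 9 (.cons 0x2194387650 (.cons 0x7601238945 (.cons 0x5067834912 .nil))) (.node 2 4 (.cons 0x9124387650 (.cons 0x7835601942 .nil)) (.node 3 9 (.cons 0x3987654210 .nil) (.leaf 0x6012453987 0 .done) .done) (.node 2 5 (.cons 0x6783250194 (.cons 0x3254987601 .nil)) (.leaf 0x3876052194 0 (.node 1 3 (.cons 0x2134567890 (.cons 0x8760945231 (.cons 0x7890654312 .nil))) (.node 5 7 (.cons 0x6754983201 (.cons 0x8945760132 .nil)) .done .done) .done)) .done)) .done))) (.node 1 7 (.cons 0x8902176543 (.cons 0x9834560217 (.cons 0x9065438712 .nil))) (.node 1 8 (.cons 0x4356718902 .nil) (.node 4 9 (.cons 0x6509438712 (.cons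 0x7601894532 (.cons 0x7189435602 (.cons 0x5349817602 .nil)))) (.node 5 7 (.cons 0x6754981023 (.cons 0x3206754981 .nil)) (.leaf 0x9432065718 0 .done) .done) (.node 2 4 (.cons 0x8902435671 (.cons 0x9817602435 (.cons 0x2435609871 .nil))) (.leaf 0x3567189024 1 .done) .done)) (.node 0 3 .nil (.node 5 9 (.cons 0x1234598760 (.cons 0x8954302176 (.cons 0x8954306712 (.cons 0x6034598712 (.cons 0x4598760321 .nil))))) .done (.node 2 5 (.cons 0x4309876521 (.cons 0x6098712543 .nil)) (.node 1 8 (.cons 0x9054321876 (.cons 0x9817602534 .nil)) (.node 3 9 (.cons 0x7654398120 (.cons 0x8934521760 .nil)) .done .done) (.node 5 8 (.cons 0x6712098543 .nil) (.node 1 8 (.cons 0x9054321876 .nil) (.node 3 9 (.cons 0x4390567812 (.cons 0x7601239854 .nil)) .done .done) .done) .done)) .done)) .done)) (.node 0 3 .nil (.node 1 5 (.cons 0x7651209834 (.cons 0x9876034512 .nil)) (.node 5 9 (.cons 0x1234598760 (.cons 0x4598760321 .nil)) (.node 1 6 (.cons 0x8761234590 (.cons 0x2167895430 .nil)) (.node 2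 4 (.cons 0x7651243890 (.cons 0x9567830124 (.cons 0x7890342165 .nil))) .done .done) (.node 1 7 (.cons 0x8902176543 (.cons 0x4306598712 (.cons 0x8712345906 (.cons 0x6034598712 .nil)))) .done .done)) (.node 2 7 (.cons 0x9065127834 (.cons 0x6512789034 (.cons 0x9872156034 .nil))) (.node 4 9 (.cons 0x2354987601 (.cons 0x6512783094 (.cons 0x7215603894 (.cons 0x3065498721 (.cons 0x6032789451 .nil))))) (.leaf 0x1278349065 1 .done) .done) .done)) (.node 2 4 (.cons 0x9056783421 .nil) (.node 3 9 (.cons 0x3987654210 .nil) (.leaf 0x6012453987 0 .done) (.node 3 9 (.cons 0x8765421093 .nil) (.node 1 9 (.cons 0x5678342190 (.cons 0x7834219065 .nil)) (.node 5 8 (.cons 0x7658390124 (.cons 0x9106785324 (.cons 0x7856091243 (.cons 0x4235876091 .nil)))) .done (.node 2 8 (.cons 0x6782190543 (.cons 0x9128760543 (.cons 0x3542876091 .nil))) (.node 1 7 (.cons 0x6543098712 (.cons 0x7128934560 (.cons 0x9065342871 .nil))) (.leaf 0x3428719065 1 .done) .done) .done)) .done) (.node 1 7 (.cons 0x6543098712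 (.cons 0x2435609871 .nil)) (.leaf 0x6534217890 1 (.leaf 0x653421789 0 (.node 3 6 (.cons 0x9871063542 .nil) (.leaf 0x7890635421 1 (.node 2 6 (.cons 0x9871062453 (.cons 0x5342609871 (.cons 0x3542609871 .nil))) (.node 3 9 (.cons 0x8710935426 .nil) .done .done) .done)) .done))) .done))) .done)) .done))) .done)))
noncomputable def uc9_2_12 : T := (.node 3 5 (.cons 0x6789012354 (.cons 0x9876012354 .nil)) tc9_2_77 (.node 1 6 (.cons 0x5432167890 .nil) tc9_2_76 (.node 6 9 (.cons 0x8769054321 .nil) (.node 4 6 (.cons 0x5467890123 .nil) (.node 1 6 (.cons 0x5432167890 .nil) (.node 3 6 .nil (.node 5 9 (.cons 0x8761234590 (.cons 0x7895463210 .nil)) (.node 2 4 (.cons 0x8761095423 (.cons 0x8763245901 (.cons 0x7890124563 .nil))) .done (.node 0 3 (.cons 0x8761230954 .nil) (.node 4 8 (.cons 0x3216784590 (.cons 0x7845903612 .nil)) (.node 2 7 (.cons 0x6543098721 (.cons 0x9872103654 (.cons 0x9012784563 (.cons 0x9056348721 (.cons 0x4563098721 .nil))))) .done (.node 2 7 (.cons 0x6543098721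 (.cons 0x9872103654 (.cons 0x4563098721 .nil))) (.leaf 0x4872361095 0 (.leaf 0x6327845901 0 .done)) .done)) (.node 2 4 (.cons 0x5678903421 (.cons 0x7890124563 .nil)) (.node 0 8 (.cons 0x4590876123 (.cons 0x3678095421 .nil)) (.node 1 7 (.cons 0x9564217803 (.cons 0x9542360871 (.cons 0x4217809563 (.cons 0x7120895463 .nil)))) .done .done) .done) .done)) .done)) (.node 3 9 (.cons 0x5467893210 .nil) (.node 0 3 .nil (.node 6 8 (.cons 0x9321054687 .nil) (.node 1 7 (.cons 0x9321786450 (.cons 0x7120398654 (.cons 0x9305468712 .nil))) (.node 2 5 (.cons 0x7893254601 (.cons 0x9871256430 (.cons 0x4652178930 .nil))) (.leaf 0x1039876452 0 .done) .done) .done) .done) (.node 3 8 (.cons 0x7654389021 .nil) (.node 5 9 (.cons 0x8761234590 .nil) (.node 4 9 (.cons 0x9450123876 .nil) (.node 2 6 (.cons 0x2678394501 .nil) (.node 6 8 (.cons 0x7861234590 .nil) .done .done) .done) (.node 0 3 (.cons 0x8761230954 .nil) (.node 1 3 (.cons 0x2134567890 .nil) (.node 3 5 (.cons 0x9876453210 .nil) .done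 .done) .done) .done)) (.node 0 3 .nil (.node 5 9 (.cons 0x8761234590 (.cons 0x8761230954 .nil)) (.node 6 8 (.cons 0x7861234590 (.cons 0x7861230954 .nil)) .done .done) .done) .done)) .done)) .done)) (.node 3 6 .nil (.node 1 9 (.cons 0x8763450912 .nil) (.node 3 8 (.cons 0x7654389120 (.cons 0x4387650912 (.cons 0x9105467832 .nil))) (.leaf 0x2190546783 0 .done) (.node 6 8 (.cons 0x7863219054 .nil) .done .done)) (.node 2 6 .nil (.node 1 9 (.cons 0x8762190543 .nil) (.node 3 8 (.cons 0x7654389021 (.cons 0x7654389120 (.cons 0x4387650912 (.cons 0x9105467832 .nil)))) (.leaf 0x2190546783 0 .done) (.node 6 8 (.cons 0x7862190543 .nil) (.node 0 3 (.cons 0x9123054687 (.cons 0x7890345621 .nil)) (.node 0 7 (.cons 0x5643078912 (.cons 0x8709126345 .nil)) .done .done) .done) .done)) (.node 6 8 .nil (.node 4 9 (.cons 0x8761234905 (.cons 0x7861234905 .nil)) (.node 2 5 (.cons 0x8761250943 (.cons 0x7861250943 .nil)) (.node 3 5 (.cons 0x9876453210 (.cons 0x7689012354 (.cons 0x7863549012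 .nil))) (.node 0 3 (.cons 0x5216789430 (.cons 0x9430521687 .nil)) (.node 3 9 (.cons 0x5467893210 (.cons 0x7863945210 .nil)) .done .done) .done) .done) (.node 3 9 (.cons 0x5467893210 (.cons 0x9321054687 .nil)) (.node 1 5 (.cons 0x8761509432 (.cons 0x7689451023 (.cons 0x7861509432 .nil))) (.node 2 4 (.cons 0x8765093421 (.cons 0x7865093421 .nil)) (.node 2 7 (.cons 0x8906723451 (.cons 0x3276894510 (.cons 0x8672349051 .nil))) .done .done) .done) .done) .done)) .done) .done)) .done)) .done)) (.node 1 6 (.cons 0x5432167890 .nil) (.node 3 6 .nil (.node 2 4 (.cons 0x7890124563 .nil) (.node 0 3 (.cons 0x5678903421 .nil) (.node 3 9 (.cons 0x8765093421 (.cons 0x5423987610 .nil)) .done .done) (.node 1 8 (.cons 0x9054321876 (.cons 0x9054367812 .nil)) (.node 5 9 (.cons 0x3245987601 (.cons 0x7895423601 (.cons 0x7810954632 (.cons 0x7812364590 .nil)))) .done (.node 4 9 (.cons 0x3490567812 (.cons 0x5094367812 (.cons 0x9423678105 .nil))) (.node 5 7 (.cons 0x7563498120 (.cons 0x5781094632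 (.cons 0x5781236490 .nil))) (.leaf 0x4902187563 0 .done) .done) .done)) .done)) (.node 0 3 .nil (.node 5 9 (.cons 0x8764590123 (.cons 0x4598761032 (.cons 0x4598761230 .nil))) (.node 6 8 (.cons 0x7864590123 (.cons 0x7864590321 .nil)) .done .done) (.node 2 6 (.cons 0x7890345621 .nil) (.node 6 8 .nil (.node 5 9 (.cons 0x8764590123 (.cons 0x7864590123 (.cons 0x7864590321 .nil))) (.node 1 7 (.cons 0x4598716230 (.cons 0x4590326871 (.cons 0x7168954302 .nil))) (.node 2 5 (.cons 0x6521789034 (.cons 0x9523017864 (.cons 0x1786432590 .nil))) .done .done) .done) .done) .done) .done)) .done)) (.node 3 6 .nil (.node 2 4 (.cons 0x7890124563 .nil) (.node 0 3 (.cons 0x7890342165 (.cons 0x5678903421 .nil)) .done (.node 1 9 (.cons 0x7891063245 (.cons 0x8763450912 .nil)) (.node 0 3 (.cons 0x5678912430 .nil) (.node 2 7 (.cons 0x6543098721 (.cons 0x8721903456 (.cons 0x5603427891 (.cons 0x4563098721 .nil)))) .done .done) .done) .done)) (.node 0 4 (.cons 0x9876321045 .nil) (.node 5 7 (.cons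 0x3409875612 .nil) (.leaf 0x4321657890 1 (.node 2 6 (.cons 0x5789043261 .nil) (.node 6 8 .nil (.node 3 5 (.cons 0x4098753261 (.cons 0x7689012354 (.cons 0x9012354687 .nil))) .done .done) .done) (.leaf 0x3210457896 0 .done))) (.node 4 9 (.cons 0x5498763210 .nil) (.node 0 7 (.cons 0x3654987012 .nil) (.node 0 3 (.cons 0x7894563012 .nil) (.node 0 8 .nil (.node 1 7 (.cons 0x6543098712 (.cons 0x5432176980 (.cons 0x8096712345 (.cons 0x9802176345 .nil)))) .done .done) .done) .done) (.node 4 7 .nil (.node 3 5 (.cons 0x9876354012 (.cons 0x8901235476 (.cons 0x2165347890 .nil))) (.leaf 0x4789021653 1 .done) (.node 2 4 .nil (.node 3 5 (.cons 0x8967453210 .nil) (.leaf 0x9876534210 1 (.leaf 0x8901243567 0 (.leaf 0x7612435098 0 .done))) (.node 4 8 .nil (.node 2 5 (.cons 0x5216789043 (.cons 0x9487610523 (.cons 0x3250948761 .nil))) .done .done) .done)) .done)) .done)) .done)) .done)) .done)) .done)) (.node 1 8 (.cons 0x5096781234 .nil) tc9_2_74 (.node 4 6 (.cons 0x5467890123 .nil)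 tc9_2_73 .done))) .done)))
theorem sub_c9_2_12 : root 9 refs9_2 [] 0x700000008706000000006050000000050300000000304000700004010000000010300000000302600000002018000700610 0xfe7fff3fff9fffd7ff67ffedfff5ffb3fff9fe3d 9 0 6 .nil uc9_2_12 = true := by decide +kernel
def kn_c9_2 : List (Nat × Nat × Nat) := [(0x700000008706000000006050000000050300040000304000200004010000000010300000000302000040002018000200010, 0xfe7fff3fff9fffc7ffe3ffedfff5fff3ffe9fef9, 9), (0x700000008706000000006050000000050300060000304000200004010000000010300000000302000060002018000200010, 0xfe7fff3fff9fff97ffe3ffedfff5fff3ffb9fef9, 9), (0x700000008706000000006050000000050300070000304000200004010000000010300000000302000070002018000200010, 0xfe7fff3fff9fff57ffe3ffedfff5fff3ff79fef9, 9), (0x700000008706000000006050000000050300080000304000200004010000000010300000000302000080002018000200010, 0xfe7fff3fff9ffed7ffe3ffedfff5fff3fef9fef9, 9), (0x700000008706000000006050000000050300000000304000500004010000000010300000000302400000002018000500410,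 0xfe7fff3fff9fffd7ffc7ffedfff5ffe3fff9fecd, 9), (0x700000008706000000006050000000050300000000304000500004010000000010300000000302600000002018000500610, 0xfe7fff3fff9fffd7ffc7ffedfff5ffb3fff9fe9d, 9), (0x700000008706000000006050000000050300000000304000500004010000000010300000000302700000002018000500710, 0xfe7fff3fff9fffd7ffc7ffedfff5ff73fff9fe5d, 9), (0x700000008706000000006050000000050300000000304000600004010000000010300000000302400000002018000600410, 0xfe7fff3fff9fffd7ffa7ffedfff5ffe3fff9fead, 9), (0x700000008706000000006050000000050300000000304000600004010000000010300000000302500000002018000600510, 0xfe7fff3fff9fffd7ffa7ffedfff5ffd3fff9fe9d, 9), (0x700000008706000000006050000000050300000000304000600004010000000010300000000302700000002018000600710, 0xfe7fff3fff9fffd7ffa7ffedfff5ff73fff9fe3d, 9), (0x700000008706000000006050000000050300000000304000700004010000000010300000000302400000002018000700410, 0xfe7fff3fff9fffd7ff67ffedfff5ffe3fff9fe6d, 9), (0x700000008706000000006050000000050300000000304000700004010000000010300000000302500000002018000700510,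 0xfe7fff3fff9fffd7ff67ffedfff5ffd3fff9fe5d, 9), (0x700000008706000000006050000000050300000000304000700004010000000010300000000302600000002018000700610, 0xfe7fff3fff9fffd7ff67ffedfff5ffb3fff9fe3d, 9)]
noncomputable def rc9_2 : T := (.node 0 2 (.cons 0x3456789021 .nil) (.cut 12 (.cut 11 (.cut 10 .done))) (.node 0 2 (.cons 0x3456789021 .nil) (.cut 9 (.cut 8 (.cut 7 .done))) (.node 0 2 (.cons 0x3456789021 .nil) (.cut 6 (.cut 5 (.cut 4 .done))) (.node 1 6 (.cons 0x5432167890 .nil) (.cut 3 (.cut 2 (.cut 1 (.cut 0 .done)))) .done))))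
theorem ok_c9_2 : root 9 refs9_2 kn_c9_2 0x700000008706000000006050000000050300000000304000000004010000000010300000000302000000002018000000010 0xfe7fff3fff9fffd7ffe7ffedfff5fff3fff9fefd 9 0 5 (.cons 0x6789054321 .nil) rc9_2 = true := by decide +kernel

end Pool.Agent.Hhelper35.Rainbow
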