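import Pool.Agent.Hhelper35.Rainbow.Pats

set_option autoImplicit false
set_option maxRecDepth 1000000

namespace Pool.Agent.Hhelper35.Rainbow

open T W

noncomputable def tc9_3_0 : T := (.node 0 7 .nil (.node 6 9 (.cons 0x1234569870 .nil) (.leaf 0x5698701234 2 (.node 3 6 (.cons 0x7890123654 (.cons 0x9870123654 .nil)) (.node 6 8 (.cons 0x9056871234 .nil) (.node 4 9 (.cons 0x9432178650 (.cons 0x8694321705 .nil)) (.leaf 0x1786509432 1 (.leaf 0x7123490568 2 .done)) (.node 1 9 (.cons 0x5468709123 .nil) (.node 4 7 (.cons 0x8965470123 (.cons 0x6874509123 .nil)) (.leaf 0x5091234786 0 .done) (.leaf 0x786543219 1 .done)) .done)) .done) (.leaf 0x8701234569 1 (.node 1 8 (.cons 0x5469078123 .nil) (.node 0 3 (.cons 0x7654309812 (.cons 0x7812309645 .nil)) (.node 4 7 (.cons 0x9650321874 (.cons 0x6905478123 .nil)) (.node 1 3 (.cons 0x2318745690 (.cons 0x8907654312 (.cons 0x6905478132 .nil))) (.node 0 2 (.cons 0x7456981320 .nil) (.leaf 0x8745690231 0 .done) .done) .done) .done)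 (.leaf 0x2345690781 2 (.leaf 0x7096543218 1 .done))) .done)))) (.node 0 2 (.cons 0x3456789021 .nil) (.node 4 7 (.cons 0x6547890123 .nil) (.node 2 4 .nil (.node 3 5 (.cons 0x8902176534 (.cons 0x9871065324 (.cons 0x8902435671 .nil))) (.leaf 0x9876534210 2 .done) (.node 3 6 (.cons 0x9874563210 .nil) (.node 0 3 (.cons 0x9876301245 .nil) (.node 3 8 (.cons 0x7654389021 .nil) (.leaf 0x2098345671 0 (.node 0 8 (.cons 0x9087123465 .nil) (.node 4 8 (.cons 0x5671209843 .nil) .done .done) .done)) .done) (.node 3 5 (.cons 0x6789012453 .nil) (.node 2 5 (.cons 0x8907634521 .nil) (.node 2 9 (.cons 0x3298745601 .nil) (.node 1 5 (.cons 0x1534298760 .nil) (.node 0 3 (.cons 0x8921567430 .nil) (.node 3 8 (.cons 0x7654389021 .nil) (.leaf 0x2098345671 0 (.leaf 0x1760983425 1 .done)) .done) (.leaf 0x2987601534 0 .done)) .done) .done) (.leaf 0x9012453678 1 .done)) (.leaf 0x2109874563 1 .done))) .done)) (.node 1 6 (.cons 0x8902347165 .nil) (.node 0 3 (.cons 0x9874561032 .nil) (.node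 3 6 (.cons 0x2365478901 .nil) (.node 0 8 (.cons 0x9802347165 .nil) (.node 0 4 .nil (.node 2 5 (.cons 0x8907634521 (.cons 0x9804365217 (.cons 0x9874032561 .nil))) .done .done) .done) .done) .done) (.node 7 9 .nil (.node 5 8 (.cons 0x2347165890 (.cons 0x6123458970 (.cons 0x8564320971 .nil))) (.leaf 0x7985432160 1 (.leaf 0x9076123458 1 .done)) (.node 5 7 (.cons 0x8907543216 .nil) (.node 2 7 (.cons 0x8901654723 .nil) (.node 3 7 (.cons 0x8901654732 .nil) .done .done) .done) .done)) .done)) .done)) (.node 0 8 (.cons 0x9087123465 .nil) (.node 4 7 (.cons 0x6547890123 .nil) (.node 0 3 .nil (.node 1 5 (.cons 0x9874320651 (.cons 0x9876512034 (.cons 0x9874302156 .nil))) (.node 2 4 (.cons 0x8903421765 .nil) (.node 2 8 (.cons 0x9821543076 (.cons 0x5176098243 (.cons 0x9823065174 .nil))) .done (.leaf 0x3098765124 0 .done)) .done) (.node 3 6 (.cons 0x9874563210 .nil) (.node 0 4 .nil (.node 2 5 (.cons 0x4325609871 (.cons 0x9804365217 .nil)) (.node 6 9 (.cons 0x8967034521 (.cons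 0x7125698043 (.cons 0x5698740123 (.cons 0x5407896321 .nil)))) .done (.leaf 0x1789043652 0 .done)) .done) (.leaf 0x2109874563 1 .done)) .done)) (.node 0 3 .nil (.node 2 6 (.cons 0x3265478901 (.cons 0x9874562301 .nil)) (.node 1 8 (.cons 0x5623471890 (.cons 0x9812670345 (.cons 0x7621890345 .nil))) .done (.node 1 5 (.cons 0x9876512034 (.cons 0x8903265174 .nil)) (.node 0 4 (.cons 0x8904715623 .nil) .done (.node 1 4 (.cons 0x5609871432 (.cons 0x9874156203 (.cons 0x5412678903 .nil))) (.leaf 0x9032651478 1 .done) .done)) .done)) (.node 0 4 .nil (.node 3 5 (.cons 0x4356789021 (.cons 0x9876534021 .nil)) (.node 5 8 (.cons 0x4309856712 (.cons 0x9046587123 .nil)) (.node 2 9 (.cons 0x6703458921 (.cons 0x9235871046 (.cons 0x6589230471 .nil))) (.leaf 0x1746589230 1 .done) .done) .done) .done) .done)) .done)) .done) .done)) .done)) (.node 4 8 (.cons 0x3489056712 .nil) (.node 0 7 (.cons 0x9843217056 .nil) (.node 0 3 (.cons 0x9843056712 .nil) (.node 0 2 (.cons 0x3456789021 .nil)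 (.node 0 8 (.cons 0x9087123465 .nil) (.node 0 4 .nil (.node 3 7 (.cons 0x9843765021 (.cons 0x9873210456 .nil)) (.node 2 6 (.cons 0x4562378901 (.cons 0x9873265401 (.cons 0x9840173265 (.cons 0x9840562371 .nil)))) .done .done) .done) .done) .done) (.node 0 2 (.cons 0x3456789021 .nil) (.node 2 4 (.cons 0x5678903421 .nil) (.node 0 8 (.cons 0x9087123465 .nil) (.node 1 8 (.cons 0x9078123456 .nil) (.node 3 8 (.cons 0x5671243890 .nil) (.node 0 4 .nil (.node 5 8 (.cons 0x3421765890 (.cons 0x9046587123 .nil)) .done .done) .done) .done) .done) .done) .done) .done)) (.node 4 7 (.cons 0x6547890123 .nil) (.node 7 9 .nil (.node 1 8 (.cons 0x6509817432 .nil) (.node 2 5 (.cons 0x4325609871 (.cons 0x9781064523 (.cons 0x9718432506 (.cons 0x3254609781 .nil)))) .done (.leaf 0x4650978123 1 .done)) (.node 0 4 (.cons 0x6504897123 .nil) (.node 0 8 (.cons 0x9087123465 .nil) (.node 0 2 (.cons 0x3456789021 .nil) (.node 0 3 (.cons 0x9843056712 .nil) .done .done) .done) .done) .done)) .done)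 .done)) (.node 2 4 (.cons 0x8905671243 .nil) (.node 4 7 (.cons 0x6547890123 .nil) (.node 1 6 (.cons 0x8905617432 .nil) (.node 1 8 (.cons 0x6509817432 .nil) (.node 0 8 (.cons 0x9805617432 .nil) (.node 2 8 (.cons 0x9823471650 .nil) (.node 6 8 (.cons 0x9865017423 .nil) .done .done) .done) .done) (.node 1 4 (.cons 0x5609871432 .nil) (.node 0 4 .nil (.node 2 8 (.cons 0x5617432890 (.cons 0x5617409823 .nil)) (.node 3 5 (.cons 0x9871065324 (.cons 0x9823561047 (.cons 0x9043567821 (.cons 0x9871042356 .nil)))) .done .done) .done) .done) .done)) .done) (.node 4 7 (.cons 0x6547890123 .nil) (.node 1 4 (.cons 0x5609871432 .nil) (.node 0 4 .nil (.node 3 8 (.cons 0x5671243890 (.cons 0x9834056712 .nil)) (.node 1 5 (.cons 0x7651243890 (.cons 0x9871560432 (.cons 0x9043876512 .nil))) .done (.node 2 5 (.cons 0x1765243890 (.cons 0x3890425671 .nil)) (.leaf 0x7890652341 1 (.node 3 5 (.cons 0x9835671042 .nil) (.leaf 0x2178904653 0 .done) .done)) .done)) .done) .done) (.node 4 9 .nil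 (.node 3 8 (.cons 0x5671243890 (.cons 0x6501749832 (.cons 0x7832109465 (.cons 0x5649017832 .nil)))) .done (.node 1 4 (.cons 0x5609871432 .nil) (.node 0 4 .nil (.node 1 6 (.cons 0x8905617432 .nil) (.node 2 8 (.cons 0x5617432890 (.cons 0x9821765043 (.cons 0x5617409823 .nil))) (.node 0 8 (.cons 0x9087123465 .nil) (.node 1 8 (.cons 0x6509817432 .nil) .done .done) .done) .done) .done) .done) .done)) .done)) .done)) (.node 0 8 (.cons 0x9087123465 .nil) (.node 0 4 .nil (.node 0 7 .nil (.node 3 6 (.cons 0x7890123654 (.cons 0x9843650712 (.cons 0x5634890712 .nil))) (.node 1 5 (.cons 0x9871560432 (.cons 0x9078436512 (.cons 0x7890436512 .nil))) .done .done) (.node 1 8 (.cons 0x9078123456 .nil) (.node 6 9 (.cons 0x9654321870 (.cons 0x9654078123 .nil)) (.node 5 8 (.cons 0x3485690712 (.cons 0x9658170432 (.cons 0x9046587123 .nil))) .done (.leaf 0x3218709654 1 .done)) .done) .done)) .done) (.node 0 2 (.cons 0x3456789021 .nil) (.node 1 8 (.cons 0x9021876543 .nil) (.node 3 9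 (.cons 0x9345678120 .nil) (.node 0 7 (.cons 0x2189345670 .nil) (.leaf 0x4398120765 1 .done) (.leaf 0x7654390218 2 (.leaf 0x6781209345 1 (.node 1 6 (.cons 0x5617843902 .nil) (.node 3 8 (.cons 0x4389056712 .nil) (.node 0 3 .nil (.node 2 4 (.cons 0x2439817650 (.cons 0x2456789301 (.cons 0x8903421765 .nil))) (.leaf 0x7893012456 1 .done) .done) .done) .done) .done)))) (.node 0 3 .nil (.node 1 9 (.cons 0x7809123465 .nil) (.node 1 4 (.cons 0x5609871432 .nil) (.node 2 5 (.cons 0x9871432560 (.cons 0x7198430652 .nil)) (.leaf 0x6789034125 0 .done) .done) (.leaf 0x3456789120 0 .done)) (.node 0 7 .nil (.node 3 9 (.cons 0x8765439021 .nil) (.node 2 5 (.cons 0x6789034521 (.cons 0x4398076521 (.cons 0x8465217093 .nil))) .done (.leaf 0x218765439 1 (.leaf 0x4390218765 2 .done))) .done) .done)) .done)) (.node 0 4 .nil (.node 2 8 (.cons 0x9821765043 .nil) (.node 0 3 (.cons 0x9034567821 .nil) .done (.node 6 8 (.cons 0x9865043217 .nil) (.node 0 7 (.cons 0x9078654321 .nil) .done .done)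 .done)) .done) .done)) .done)) (.leaf 0x5098432176 0 .done)))) (.node 0 8 (.cons 0x9087123465 .nil) (.node 5 9 (.cons 0x8712346590 .nil) (.node 0 7 .nil (.node 6 9 (.cons 0x1234569870 .nil) (.leaf 0x5698701234 2 (.leaf 0x8701234569 1 (.node 1 8 (.cons 0x4569078123 .nil) (.node 0 4 (.cons 0x7189560432 .nil) (.node 2 7 (.cons 0x4327189560 (.cons 0x9065432781 (.cons 0x8172346095 .nil))) (.leaf 0x1895604327 1 .done) .done) (.leaf 0x2345690781 2 (.leaf 0x7096543218 1 .done))) .done))) (.node 6 9 (.cons 0x8709654321 .nil) (.node 1 8 (.cons 0x5690781234 .nil) (.leaf 0x3218709654 1 (.node 1 9 (.cons 0x8709123456 .nil) (.node 3 9 (.cons 0x6543907812 .nil) (.node 2 9 (.cons 0x8712905643 .nil) (.node 7 9 .nil (.node 2 8 (.cons 0x5908217643 (.cons 0x5460197823 (.cons 0x3465097821 .nil))) .done .done) .done) .done) .done) .done)) (.node 1 8 (.cons 0x4569078123 .nil) (.leaf 0x2345690781 2 (.leaf 0x7096543218 1 .done)) .done)) .done)) (.node 0 4 .nil (.node 1 6 (.cons 0x5908716432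 .nil) (.node 0 7 (.cons 0x8956170432 .nil) (.leaf 0x4321659870 1 .done) (.node 3 6 (.cons 0x4365098712 (.cons 0x4017895632 .nil)) (.node 0 7 (.cons 0x8956170432 .nil) (.node 5 7 (.cons 0x8095716432 (.cons 0x6175980432 (.cons 0x4098756321 .nil))) .done .done) .done) .done)) (.node 5 8 (.cons 0x3409856712 .nil) (.node 0 7 .nil (.node 1 6 (.cons 0x5908716432 (.cons 0x8956170432 (.cons 0x9580716432 .nil))) .done (.node 5 7 (.cons 0x8904321756 .nil) (.node 3 8 (.cons 0x9056438712 .nil) (.leaf 0x5712389046 2 (.leaf 0x7564098321 1 .done)) .done) .done)) (.node 0 7 .nil (.node 1 6 (.cons 0x5908716432 (.cons 0x8956170432 .nil)) (.node 2 4 (.cons 0x8710956423 (.cons 0x9580716423 (.cons 0x8590716423 .nil))) .done .done) (.node 0 2 (.cons 0x3456789021 .nil) (.node 0 3 (.cons 0x9032178564 .nil) .done .done) .done)) .done)) .done)) (.leaf 0x7123465908 0 .done))) (.node 2 4 (.cons 0x6509871243 .nil) (.node 4 7 (.cons 0x6547890123 .nil) (.node 0 7 .nil (.node 3 6 (.cons 0x9871243650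 (.cons 0x9870123654 (.cons 0x9870563421 .nil))) (.node 3 9 (.cons 0x3987654210 (.cons 0x8936701245 (.cons 0x6507893421 (.cons 0x6542398701 .nil)))) .done .done) (.node 0 3 (.cons 0x9876542103 .nil) (.node 2 7 (.cons 0x8903456721 .nil) (.node 0 2 (.cons 0x3456789021 .nil) (.node 2 8 (.cons 0x7654309821 .nil) .done .done) .done) (.node 0 2 (.cons 0x3456789021 .nil) (.node 0 4 .nil (.node 3 7 (.cons 0x9873245601 (.cons 0x9873210456 .nil)) (.node 3 8 (.cons 0x9837654201 (.cons 0x9834021765 .nil)) .done .done) .done) .done) .done)) .done)) (.node 1 6 .nil (.node 3 9 (.cons 0x3987654210 (.cons 0x7423980165 (.cons 0x5061789342 (.cons 0x7893421650 (.cons 0x7893245610 .nil))))) .done (.node 3 6 (.cons 0x9871243650 .nil) (.node 2 8 (.cons 0x7456328901 .nil) (.leaf 0x982365471 1 (.leaf 0x6328901745 1 .done)) (.node 6 8 .nil (.node 3 9 (.cons 0x3987654210 (.cons 0x5689324710 (.cons 0x5093468712 .nil))) (.node 0 7 (.cons 0x6542398701 (.cons 0x9324568701 .nil)) (.leaf 0x3987016542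 0 .done) .done) (.node 2 6 (.cons 0x3265478901 .nil) (.node 6 9 (.cons 0x3421789650 .nil) .done .done) .done)) .done)) (.node 2 8 (.cons 0x5617432890 .nil) (.node 4 8 .nil (.node 0 2 (.cons 0x3456789021 (.cons 0x5671209843 .nil)) (.node 5 9 (.cons 0x8712346590 (.cons 0x7106598423 (.cons 0x6590234871 (.cons 0x3217846590 .nil)))) .done .done) (.node 1 4 (.cons 0x5609871432 .nil) (.node 4 9 (.cons 0x5601789423 .nil) (.node 0 4 .nil (.node 5 9 (.cons 0x8712346590 (.cons 0x6598710423 (.cons 0x3240659871 .nil))) .done .done) .done) .done) .done)) (.node 2 6 (.cons 0x3265478901 .nil) (.node 3 6 (.cons 0x9871243650 .nil) (.node 3 7 (.cons 0x1654732890 .nil) (.leaf 0x6547328901 0 (.node 6 8 (.cons 0x7345098612 .nil) .done .done)) .done) .done) .done)) .done))) .done)) (.node 0 2 (.cons 0x3456789021 .nil) (.node 0 3 (.cons 0x8903421765 .nil) (.node 2 5 (.cons 0x4325609871 .nil) (.node 0 7 .nil (.node 1 9 (.cons 0x7652198034 (.cons 0x8917065234 (.cons 0x8912543076 (.cons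 0x8917065243 .nil)))) .done (.node 0 4 .nil (.node 3 9 (.cons 0x8765439021 (.cons 0x1256789340 (.cons 0x6523987104 .nil))) (.node 5 8 (.cons 0x3421765890 (.cons 0x6710425893 (.cons 0x3985240671 .nil))) .done .done) .done) .done)) (.node 2 8 (.cons 0x7654309821 .nil) (.node 2 7 (.cons 0x8903456721 .nil) (.node 0 7 .nil (.node 5 9 (.cons 0x8712346590 (.cons 0x4328956071 .nil)) (.leaf 0x3071289564 0 .done) .done) .done) (.node 2 7 (.cons 0x8903456721 .nil) (.node 2 9 (.cons 0x8712905643 .nil) (.node 2 6 .nil (.node 3 9 (.cons 0x8765439021 (.cons 0x8712643905 (.cons 0x5093462871 .nil))) .done .done) .done) .done) .done)) .done)) (.node 0 7 .nil (.node 3 8 (.cons 0x5671243890 (.cons 0x9834217056 .nil)) (.node 1 6 (.cons 0x5430987612 (.cons 0x9832456107 .nil)) (.node 5 8 (.cons 0x3421765890 (.cons 0x9854307612 .nil)) (.leaf 0x9076123458 1 .done) .done) .done) .done) .done)) (.node 0 4 .nil (.node 1 5 (.cons 0x6789021543 (.cons 0x9871560432 .nil)) (.node 2 9 (.cons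 0x8712905643 (.cons 0x8765129043 .nil)) (.leaf 0x651789234 1 .done) (.node 2 8 (.cons 0x7156098234 (.cons 0x9823406517 .nil)) (.node 2 9 (.cons 0x8712905643 .nil) (.node 3 5 (.cons 0x1298765340 (.cons 0x8765340921 (.cons 0x9046532871 .nil))) (.leaf 0x2178904653 0 .done) .done) .done) .done)) .done) .done)) (.node 3 6 (.cons 0x4365098712 .nil) (.leaf 0x1789056342 0 (.node 1 6 .nil (.node 3 5 (.cons 0x6789012453 (.cons 0x9871605342 (.cons 0x9087612435 (.cons 0x6178905342 .nil)))) .done (.node 6 8 (.cons 0x7124368905 .nil) (.node 2 8 (.cons 0x7128905634 .nil) (.node 5 8 .nil (.node 3 9 (.cons 0x5061789342 (.cons 0x6439058712 (.cons 0x5876421093 (.cons 0x4658710932 .nil)))) .done (.node 3 8 (.cons 0x9056438712 .nil) (.node 6 9 (.cons 0x5096438712 .nil) (.node 0 3 (.cons 0x7896124305 .nil) (.node 1 3 (.cons 0x2134567890 .nil) .done .done) .done) .done) .done)) .done) .done) .done)) (.node 4 7 (.cons 0x6547890123 .nil) (.leaf 0x2109874563 1 (.node 1 5 (.cons 0x5124367890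 .nil) (.leaf 0x8742365109 1 (.leaf 0x7890156324 2 (.node 2 8 (.cons 0x6517432890 .nil) (.node 6 8 (.cons 0x2347156890 .nil) (.node 2 6 (.cons 0x3265478901 .nil) (.node 6 9 (.cons 0x7150698243 .nil) .done .done) .done) (.node 0 4 (.cons 0x7409823651 .nil) (.leaf 0x9823651740 0 .done) .done)) .done))) .done)) .done))) .done))) .done)) .done)))
noncomputable def tc9_3_1 : T := (.node 6 8 (.cons 0x9056871243 .nil) (.node 0 8 .nil (.node 3 9 (.cons 0x2178934650 (.cons 0x8093421765 (.cons 0x5678093421 .nil))) (.leaf 0x2439056871 1 (.leaf 0x5093421786 1 .done)) (.node 3 9 (.cons 0x2178934650 .nil) (.node 3 6 (.cons 0x4365098712 .nil) (.node 0 7 (.cons 0x8934650712 .nil) (.node 6 9 (.cons 0x8709654321 .nil) (.node 1 8 (.cons 0x4569078123 .nil) (.leaf 0x2345690781 2 (.leaf 0x7096543218 1 .done)) .done) .done) .done) (.leaf 0x2439056871 1 (.node 4 7 (.cons 0x5647893210 .nil) (.leaf 0x8932105647 1 (.node 0 4 (.cons 0x7893210465 .nil) (.node 4 8 (.cons 0x5678421093 .nil)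 (.node 1 8 (.cons 0x5678124390 .nil) (.node 1 5 (.cons 0x2398746510 .nil) (.leaf 0x3908765124 1 (.node 0 7 (.cons 0x2347098651 .nil) (.leaf 0x6512347098 1 .done) .done)) .done) .done) .done) .done)) (.leaf 0x5093421786 1 .done)))) .done)) (.node 4 7 (.cons 0x6547890123 .nil) (.node 0 7 .nil (.node 6 9 (.cons 0x1234569870 .nil) (.leaf 0x5698701234 2 (.node 1 4 (.cons 0x5609871432 (.cons 0x7098654123 .nil)) (.node 1 5 (.cons 0x8690745123 (.cons 0x6890745123 .nil)) (.node 0 3 (.cons 0x9032154786 (.cons 0x3098674512 (.cons 0x6789034512 (.cons 0x4309876512 .nil)))) .done (.node 2 6 (.cons 0x9874510623 (.cons 0x8962150743 .nil)) .done .done)) .done) (.leaf 0x8701234569 1 .done))) (.node 1 9 (.cons 0x4568709123 .nil) (.leaf 0x2190786543 2 (.node 0 4 .nil (.node 3 5 (.cons 0x9123546870 (.cons 0x9178604235 (.cons 0x8904356712 (.cons 0x9042356871 .nil)))) (.node 5 9 (.cons 0x3219546870 (.cons 0x2359178640 (.cons 0x3217895640 .nil))) (.leaf 0x687195324 1 .done) .done)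 (.node 1 4 (.cons 0x5609871432 .nil) (.node 1 8 (.cons 0x9078123456 .nil) (.node 6 9 (.cons 0x9654321870 .nil) (.node 4 8 (.cons 0x8432170965 .nil) (.node 5 8 (.cons 0x2348569071 .nil) .done .done) (.leaf 0x3218709654 1 .done)) .done) .done) .done)) (.leaf 0x786543219 1 .done))) .done)) (.node 2 6 (.cons 0x3265478901 .nil) (.node 5 8 (.cons 0x1743265890 .nil) (.leaf 0x6234710985 1 (.node 6 9 .nil (.node 0 7 (.cons 0x4326589071 (.cons 0x8709654321 (.cons 0x5469870123 .nil))) .done (.node 3 6 (.cons 0x2365478901 .nil) (.node 1 6 .nil (.node 0 4 (.cons 0x7165890432 (.cons 0x7162340985 .nil)) (.node 1 3 (.cons 0x7896504312 (.cons 0x5689047132 (.cons 0x7850961342 .nil))) .done .done) .done) .done) .done)) .done)) (.node 6 9 .nil (.node 0 7 (.cons 0x8709654321 (.cons 0x5469870123 .nil)) (.leaf 0x5698701234 2 .done) (.node 3 6 (.cons 0x2365478901 .nil) (.node 1 6 .nil (.node 3 9 (.cons 0x2178934650 (.cons 0x7861245093 (.cons 0x8742390165 (.cons 0x8716509342 .nil))))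 .done .done) .done) .done)) .done)) .done)) .done)) (.node 0 7 .nil (.node 3 8 (.cons 0x5671243890 (.cons 0x9834217056 (.cons 0x5670983421 .nil))) (.node 6 9 (.cons 0x7012389645 (.cons 0x5071246983 .nil)) (.leaf 0x5698701234 2 (.leaf 0x8701234569 1 .done)) (.node 2 9 (.cons 0x7105642983 (.cons 0x3465078921 (.cons 0x3892465071 .nil))) (.node 1 5 (.cons 0x5178923460 (.cons 0x6078923451 (.cons 0x9238701546 (.cons 0x8923460715 .nil)))) .done .done) .done)) (.node 6 8 (.cons 0x9078654321 .nil) (.node 0 4 .nil (.node 1 5 (.cons 0x9078651234 (.cons 0x9871560432 (.cons 0x9043215687 .nil))) (.node 2 7 (.cons 0x8906517234 (.cons 0x5127689043 .nil)) (.node 7 9 (.cons 0x6897215043 (.cons 0x1568972340 .nil)) (.leaf 0x3215687904 1 (.leaf 0x2156879043 2 .done)) (.leaf 0x986517234 1 .done)) .done) (.node 4 7 (.cons 0x6547890123 .nil) (.node 0 8 .nil (.node 3 7 (.cons 0x8901245673 (.cons 0x9801245673 .nil)) (.node 5 9 (.cons 0x6459873210 (.cons 0x7123465980 (.cons 0x7108956423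 (.cons 0x5980642371 .nil)))) .done .done) .done) .done) .done)) (.node 1 9 (.cons 0x4568709123 .nil) (.leaf 0x2190786543 2 (.node 5 8 (.cons 0x3421765890 .nil) (.node 6 9 (.cons 0x6912345870 .nil) (.leaf 0x3458706912 0 (.node 0 4 (.cons 0x9658704321 .nil) (.node 0 2 (.cons 0x3456789021 .nil) (.node 0 8 (.cons 0x5807691243 .nil) .done .done) .done) .done)) (.node 1 6 (.cons 0x6190785432 .nil) (.node 2 6 (.cons 0x7854326190 .nil) (.leaf 0x8543261907 2 .done) (.node 6 9 (.cons 0x8709654321 .nil) (.node 2 6 (.cons 0x6234587091 .nil) (.node 3 6 (.cons 0x4365098712 .nil) .done .done) .done) .done)) .done)) (.leaf 0x786543219 1 .done))) .done)) (.node 0 2 (.cons 0x3456789021 .nil) (.node 0 4 .nil (.node 3 9 (.cons 0x2178934650 (.cons 0x7893210465 (.cons 0x5640178932 .nil))) (.node 5 8 (.cons 0x3421765890 (.cons 0x2176589340 (.cons 0x7104658932 (.cons 0x7123985640 .nil)))) .done (.node 2 5 (.cons 0x3987645210 (.cons 0x6405217893 .nil)) (.node 5 8 (.cons 0x3421765890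 (.cons 0x6710425893 (.cons 0x3985240671 .nil))) .done .done) .done)) .done) (.node 0 8 .nil (.node 5 9 (.cons 0x6459870123 (.cons 0x7123465980 (.cons 0x7108956423 .nil))) (.node 0 4 (.cons 0x9564087123 .nil) .done .done) .done) .done)) .done))) (.node 4 7 (.cons 0x6547890123 .nil) (.node 0 4 .nil (.node 3 9 (.cons 0x2178934650 (.cons 0x7893210465 (.cons 0x5640178932 .nil))) (.node 5 8 (.cons 0x7106423985 (.cons 0x2176589340 (.cons 0x7104658932 (.cons 0x7123985640 .nil)))) .done (.node 3 5 (.cons 0x6789012453 (.cons 0x6789354012 (.cons 0x8904356712 (.cons 0x9871046532 .nil)))) (.node 2 9 (.cons 0x8764539210 (.cons 0x8765340921 (.cons 0x8712935046 .nil))) (.node 3 7 (.cons 0x8921734650 (.cons 0x8921045673 (.cons 0x8923710465 .nil))) .done .done) .done) .done)) (.node 1 4 (.cons 0x5609871432 .nil) (.node 6 8 (.cons 0x7123409865 .nil) (.node 4 9 (.cons 0x5687490123 .nil) (.node 4 8 .nil (.node 3 6 (.cons 0x4365098712 (.cons 0x9056348712 .nil)) (.node 5 7 (.cons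 0x7568904321 (.cons 0x9842360175 (.cons 0x4890175632 .nil))) (.leaf 0x9842365710 1 .done) .done) .done) .done) (.node 4 9 .nil (.node 3 5 (.cons 0x8904356712 (.cons 0x7123568940 (.cons 0x5324906871 (.cons 0x8653217490 (.cons 0x2356498710 .nil))))) .done (.node 4 8 .nil (.node 3 9 (.cons 0x2178934650 (.cons 0x5684712390 .nil)) (.node 2 6 (.cons 0x3905478621 (.cons 0x9056217843 (.cons 0x7126509843 .nil))) (.leaf 0x8439056217 1 .done) (.leaf 0x6847123905 0 .done)) .done) .done)) .done)) .done) .done)) (.node 4 8 .nil (.node 3 6 (.cons 0x2365478901 (.cons 0x9056348712 .nil)) (.node 5 7 (.cons 0x8901245763 (.cons 0x9842360175 .nil)) (.leaf 0x1098457632 1 (.leaf 0x9842365710 1 .done)) (.node 1 5 (.cons 0x5124367890 (.cons 0x9065178432 (.cons 0x7156098432 .nil))) (.leaf 0x8742365109 1 .done) .done)) (.node 1 4 (.cons 0x5609871432 .nil) (.node 2 5 (.cons 0x4325609871 .nil) (.leaf 0x3417890652 2 (.node 1 6 .nil (.node 0 2 (.cons 0x3456789021 (.cons 0x8902347165 .nil))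 (.node 1 3 (.cons 0x9874316502 .nil) (.leaf 0x6134789025 2 (.leaf 0x4789025613 1 .done)) .done) (.node 1 5 .nil (.node 0 2 (.cons 0x3456789021 (.cons 0x8902347156 (.cons 0x9874651023 .nil))) .done (.node 0 4 (.cons 0x9871560432 .nil) (.node 4 9 (.cons 0x2349871560 .nil) .done .done) .done)) .done)) (.node 1 5 (.cons 0x8906715243 .nil) (.node 0 4 (.cons 0x9871560432 .nil) (.node 4 9 (.cons 0x2349871560 .nil) .done .done) .done) (.leaf 0x6098714325 1 .done)))) (.node 4 9 .nil (.node 1 5 (.cons 0x2349871560 (.cons 0x8715609432 .nil)) (.node 0 2 (.cons 0x3456789021 (.cons 0x8902347156 (.cons 0x9874651023 .nil))) (.node 0 4 (.cons 0x9871560432 .nil) .done .done) .done) .done) .done)) .done)) .done)) .done)))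
noncomputable def tc9_3_2 : T := (.node 0 5 (.cons 0x9871234650 .nil) (.node 6 8 (.cons 0x9056871234 .nil) (.node 0 7 .nil (.node 1 9 (.cons 0x7865091234 (.cons 0x9123468705 .nil)) (.leaf 0x3219078654 1 (.leaf 0x4650789123 1 .done)) (.node 6 9 (.cons 0x5469870123 .nil) (.node 4 9 (.cons 0x7865094321 .nil) (.leaf 0x2349056871 1 (.node 3 6 (.cons 0x7890123654 .nil) (.node 1 6 .nil (.node 0 2 (.cons 0x3456789021 .nil) (.leaf 0x3456178902 2 (.node 5 9 (.cons 0x9507864321 (.cons 0x5987023461 (.cons 0x3216459870 .nil))) .done .done)) .done) .done) (.leaf 0x5094321786 1 .done))) (.node 7 9 .nil (.node 3 6 (.cons 0x7890123654 (.cons 0x8790123654 (.cons 0x8970123645 .nil))) .done (.node 4 7 (.cons 0x9056874321 .nil) (.node 5 9 (.cons 0x1234786590 .nil) (.node 1 9 (.cons 0x5687432190 .nil) (.node 2 9 (.cons 0x8719234605 .nil) (.node 3 9 (.cons 0x8705469321 .nil) .done .done) (.leaf 0x4687059123 1 .done)) (.node 1 9 (.cons 0x5687432190 .nil) (.node 4 9 (.cons 0x7865094321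 .nil) (.leaf 0x2349056871 1 .done) (.leaf 0x4687059123 0 .done)) .done)) .done) .done)) .done)) .done)) (.node 0 7 .nil (.node 6 9 (.cons 0x1234569870 .nil) (.leaf 0x5698701234 2 (.node 1 9 (.cons 0x6543219870 .nil) (.node 3 7 (.cons 0x4560198732 (.cons 0x4568732190 (.cons 0x9123786450 .nil))) (.node 1 8 (.cons 0x4569810732 (.cons 0x5469810732 .nil)) (.leaf 0x4569078123 1 .done) .done) (.node 1 4 (.cons 0x5609871432 (.cons 0x9078654123 (.cons 0x7098654123 .nil))) (.node 2 5 (.cons 0x4325609871 (.cons 0x8917064325 (.cons 0x3254607891 .nil))) (.leaf 0x7890652341 1 .done) .done) (.leaf 0x4650789123 1 .done))) (.leaf 0x8701234569 1 .done))) (.node 6 9 (.cons 0x5469870123 .nil) (.node 1 6 .nil (.node 0 2 (.cons 0x3456789021 .nil) (.leaf 0x3456178902 2 (.node 5 9 (.cons 0x6459870123 (.cons 0x5987021643 (.cons 0x5987023461 (.cons 0x3216459870 .nil)))) .done .done)) (.node 3 6 (.cons 0x7890123654 .nil) (.node 2 6 .nil (.node 1 3 (.cons 0x2134567890 (.cons 0x8907621345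 (.cons 0x5431267890 .nil))) (.node 5 9 (.cons 0x6459870123 (.cons 0x6213459870 (.cons 0x3264598701 (.cons 0x4598706231 .nil)))) .done .done) .done) .done) .done)) (.node 1 5 (.cons 0x5123469870 .nil) (.node 3 6 (.cons 0x7890123654 .nil) (.node 1 6 (.cons 0x9870615432 .nil) (.node 2 6 (.cons 0x9870623451 .nil) .done .done) (.node 1 6 (.cons 0x9870615432 .nil) (.node 2 6 (.cons 0x9870623451 .nil) .done .done) .done)) (.node 1 6 .nil (.node 0 2 (.cons 0x3456789021 .nil) (.leaf 0x3456178902 2 (.node 5 9 (.cons 0x8705964321 (.cons 0x5987021643 (.cons 0x5987023461 (.cons 0x3216459870 .nil)))) .done .done)) (.node 2 6 (.cons 0x8907621543 .nil) (.node 3 6 (.cons 0x8907634512 .nil) .done .done) .done)) (.leaf 0x4698705123 1 .done))) .done)) .done)) .done)) (.leaf 0x3217890564 0 (.node 2 4 (.cons 0x6509871243 .nil) tc9_3_1 .done))) (.node 0 5 (.cons 0x6509871234 .nil) tc9_3_0 (.node 0 7 (.cons 0x8907123465 .nil) (.node 6 9 (.cons 0x8709654321 .nil) (.node 6 8 (.cons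 0x9078654321 .nil) (.node 3 6 (.cons 0x7890123654 .nil) (.node 1 6 .nil (.node 0 5 (.cons 0x6509871234 .nil) (.leaf 0x4321678905 2 (.node 5 8 (.cons 0x7123465890 .nil) (.node 1 9 (.cons 0x6190785432 .nil) (.node 2 8 (.cons 0x8219076543 (.cons 0x9071643285 (.cons 0x7091658234 .nil))) (.leaf 0x5619078234 1 .done) (.leaf 0x4568709123 1 .done)) (.leaf 0x1234658907 1 .done)) .done)) .done) .done) (.node 1 9 (.cons 0x4568709123 .nil) (.leaf 0x2190786543 2 (.node 1 8 (.cons 0x5690781234 .nil) (.leaf 0x3218709654 1 (.node 5 8 (.cons 0x7123465890 .nil) (.node 1 5 (.cons 0x8709651234 .nil) (.node 1 4 (.cons 0x5609871432 .nil) (.node 1 6 (.cons 0x9160785432 .nil) .done .done) (.node 0 5 (.cons 0x7198506432 .nil) (.node 0 4 (.cons 0x9658704321 .nil) (.node 4 8 (.cons 0x5690784321 .nil) (.node 2 7 (.cons 0x5891723460 .nil) (.leaf 0x6518432709 1 (.leaf 0x3489065172 2 (.leaf 0x1560984327 1 .done))) .done) .done) .done) .done)) (.node 3 6 (.cons 0x7890123654 .nil) (.node 1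 6 (.cons 0x6190785432 .nil) (.node 2 6 (.cons 0x7854326190 .nil) .done .done) (.node 1 6 (.cons 0x6190785432 .nil) (.node 2 6 (.cons 0x9162345870 .nil) .done .done) .done)) .done)) .done)) (.leaf 0x786543219 1 .done))) .done)) (.node 1 8 (.cons 0x4569078123 .nil) (.leaf 0x2345690781 2 (.node 6 8 (.cons 0x9078654321 .nil) (.node 1 9 (.cons 0x9123456870 .nil) (.node 1 6 .nil (.node 2 8 (.cons 0x8219076543 .nil) (.leaf 0x6190782345 2 (.leaf 0x5619078234 1 .done)) (.node 1 3 (.cons 0x2134567890 .nil) (.node 3 6 (.cons 0x7890123654 .nil) (.node 2 6 .nil (.node 3 8 (.cons 0x4569078321 (.cons 0x5438190762 .nil)) .done .done) .done) .done) .done)) (.leaf 0x4568709123 1 .done)) (.node 1 9 (.cons 0x5687091234 .nil) (.leaf 0x3219078654 1 (.node 3 6 (.cons 0x7890123654 .nil) (.node 2 6 (.cons 0x8709126543 .nil) (.node 1 6 .nil (.node 0 5 (.cons 0x6509871234 .nil) (.leaf 0x4321678905 2 (.node 0 8 (.cons 0x7809126543 .nil) .done .done)) .done) .done) (.node 2 6 (.cons 0x8709126543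 .nil) (.node 1 6 .nil (.node 2 7 (.cons 0x5436091872 (.cons 0x5432789061 .nil)) (.node 5 7 (.cons 0x4578123690 (.cons 0x3275461890 .nil)) (.leaf 0x3457890612 1 .done) .done) .done) .done) .done)) .done)) .done)) (.leaf 0x7096543218 1 .done))) .done)) (.node 6 9 .nil (.node 1 6 (.cons 0x5432169870 (.cons 0x8709612345 .nil)) .done (.node 3 6 (.cons 0x7890123654 .nil) (.node 6 8 .nil (.node 1 6 (.cons 0x9078612345 .nil) .done (.node 3 7 (.cons 0x5468907321 .nil) (.node 2 6 .nil (.node 1 3 (.cons 0x2134567890 (.cons 0x8907621345 (.cons 0x5431267890 .nil))) .done (.node 1 6 .nil (.node 0 5 (.cons 0x6509871234 (.cons 0x9870543612 .nil)) (.node 4 8 (.cons 0x5690123784 (.cons 0x9612348705 (.cons 0x7843216905 (.cons 0x9056178432 .nil)))) (.leaf 0x123784569 1 .done) (.leaf 0x4321678905 2 .done)) .done) .done)) (.node 1 6 (.cons 0x4561098732 .nil) (.node 2 6 (.cons 0x4562378901 .nil) .done .done) .done)) .done)) (.node 1 6 .nil (.node 5 8 (.cons 0x7123465890 (.cons 0x9078543612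 (.cons 0x5890716432 (.cons 0x7098546123 .nil)))) (.node 5 7 (.cons 0x1234698570 (.cons 0x8907546123 .nil)) (.node 1 8 (.cons 0x9061875432 .nil) (.leaf 0x4690758123 1 .done) (.leaf 0x6985701234 0 .done)) .done) (.node 2 6 .nil (.node 1 3 (.cons 0x2134567890 (.cons 0x8907621345 (.cons 0x5431267890 .nil))) .done (.node 6 8 .nil (.node 0 5 (.cons 0x5078961234 (.cons 0x9056871234 (.cons 0x9861234507 .nil))) (.node 0 4 (.cons 0x9043217865 .nil) (.node 2 9 (.cons 0x5432987061 (.cons 0x7863450921 .nil)) (.leaf 0x1650432987 1 .done) .done) .done) .done) .done)) .done)) .done)) (.node 7 9 .nil (.node 6 8 (.cons 0x5468970123 .nil) (.node 1 6 (.cons 0x9078612345 .nil) (.node 0 4 (.cons 0x5407896123 (.cons 0x9043217865 .nil)) (.node 0 5 (.cons 0x4507896123 (.cons 0x9056871234 (.cons 0x8970543216 .nil))) .done .done) .done) (.leaf 0x7901234568 1 .done)) (.node 4 7 (.cons 0x6547890123 .nil) (.node 3 7 .nil (.node 0 8 (.cons 0x9801237465 .nil) (.node 3 5 (.cons 0x7089645321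 (.cons 0x4712356980 (.cons 0x9801746532 .nil))) (.node 2 8 (.cons 0x9710823564 (.cons 0x9082176435 (.cons 0x9746532801 (.cons 0x4653280971 .nil)))) .done .done) (.leaf 0x7456980123 0 .done)) (.node 3 6 (.cons 0x9874563210 .nil) (.node 6 8 (.cons 0x9012378654 .nil) (.node 0 8 (.cons 0x4569087321 .nil) (.node 1 6 (.cons 0x9087345612 .nil) (.node 2 6 (.cons 0x9087345621 .nil) .done .done) .done) .done) (.leaf 0x2109874563 1 .done)) .done)) (.node 3 7 .nil (.node 5 8 (.cons 0x7123465890 (.cons 0x2173465890 (.cons 0x4658901732 (.cons 0x6458907321 .nil)))) (.node 0 4 (.cons 0x5896407123 .nil) (.leaf 0x8564012379 0 .done) .done) (.node 0 4 (.cons 0x1237896540 .nil) (.node 0 8 (.cons 0x5469807321 .nil) (.node 4 9 (.cons 0x6549873210 .nil) (.node 1 4 (.cons 0x5609871432 .nil) (.node 2 4 (.cons 0x9873245601 .nil) .done .done) .done) .done) .done) .done)) .done)) .done)) .done))) .done)) .done)))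
noncomputable def uc9_3_0 : T := tc9_3_2
theorem sub_c9_3_0 : root 9 refs9_3 [] 0x700000008706000000006030000400030500002000504000000004010000000010300000000302000400002018002000010 0xfe7fff3fffa7ffd3ffcfffedfff5fff3ffe9fef9 9 4 6 (.cons 0x5643217890 .nil) uc9_3_0 = true := by decide +kernel
noncomputable def tc9_3_3 : T := (.node 2 7 .nil (.node 1 3 (.cons 0x2134567890 (.cons 0x9872310654 (.cons 0x8901327456 .nil))) (.node 0 8 (.cons 0x9087654312 (.cons 0x9087213456 .nil)) (.node 0 3 (.cons 0x8903456721 .nil) (.node 6 9 (.cons 0x8745690132 (.cons 0x8096721345 .nil)) (.node 0 4 (.cons 0x8721340965 .nil) (.node 1 8 (.cons 0x5690234781 (.cons 0x3045679812 (.cons 0x5672189043 (.cons 0x9065431872 .nil)))) .done .done) .done) .done) .done) (.node 0 5 (.cons 0x8905672134 (.cons 0x6509872134 .nil)) (.node 1 6 (.cons 0x9871605432 (.cons 0x8901654723 .nil)) (.leaf 0x9874321650 1 (.leaf 0x4509876123 0 .done)) .done) .done)) (.node 3 7 .nil (.node 1 8 (.cons 0x9021876543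 (.cons 0x9021873456 .nil)) (.node 6 9 (.cons 0x9654781023 (.cons 0x2374569810 .nil)) (.leaf 0x7320189654 1 .done) (.node 5 9 (.cons 0x6590234781 (.cons 0x8120956734 (.cons 0x6590218734 .nil))) (.node 2 4 (.cons 0x3420956781 (.cons 0x5673421890 .nil)) (.node 1 6 (.cons 0x7816590234 (.cons 0x8732459016 (.cons 0x8901654732 .nil))) (.node 0 4 (.cons 0x2340789561 (.cons 0x8973216540 (.cons 0x9561873402 .nil))) .done .done) .done) .done) .done)) (.node 5 7 .nil (.node 6 9 (.cons 0x8732109654 .nil) (.node 1 8 (.cons 0x3274569810 (.cons 0x2345718960 .nil)) (.leaf 0x3457189602 2 (.node 3 9 (.cons 0x8765439021 (.cons 0x6578120934 .nil)) (.leaf 0x2093456781 1 (.leaf 0x5439021876 1 .done)) .done)) (.node 4 8 (.cons 0x5690123784 (.cons 0x3487569021 .nil)) (.node 1 9 (.cons 0x1987234560 (.cons 0x8475691023 (.cons 0x3487569120 .nil))) .done (.leaf 0x9657843210 2 .done)) .done)) .done) .done)) .done)) (.node 1 3 (.cons 0x2134567890 .nil) (.leaf 0x4567890213 0 (.node 3 7 .nil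 (.node 6 8 (.cons 0x8654790231 (.cons 0x9865473201 .nil)) (.leaf 0x9012374568 1 (.leaf 0x5689012374 2 .done)) (.node 6 9 (.cons 0x4569873210 .nil) (.node 0 8 (.cons 0x2374569801 .nil) (.node 2 7 (.cons 0x8096721345 .nil) (.node 5 7 (.cons 0x8096754312 .nil) .done .done) (.leaf 0x5698012374 0 .done)) (.node 3 6 (.cons 0x2365478901 .nil) (.node 2 9 (.cons 0x8765431290 .nil) (.node 1 6 .nil (.node 0 4 (.cons 0x5698732104 (.cons 0x8790456123 .nil)) (.leaf 0x1237890456 1 (.leaf 0x8732104569 1 .done)) (.node 2 6 (.cons 0x3265478901 .nil) (.node 1 5 (.cons 0x7892345160 .nil) (.leaf 0x4326098715 1 (.leaf 0x7890623451 2 .done)) (.leaf 0x5478901326 0 .done)) .done)) .done) .done) .done)) .done)) (.node 2 8 (.cons 0x7654312890 .nil) (.leaf 0x1345670982 1 (.node 5 7 (.cons 0x6754312890 .nil) (.node 2 7 (.cons 0x8901327456 .nil) (.node 2 4 (.cons 0x9824576013 .nil) (.node 3 7 (.cons 0x9873245601 .nil) .done .done) .done) (.node 2 7 (.cons 0x8901327456 .nil) (.node 0 5 (.cons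 0x9827605431 .nil) (.node 0 8 (.cons 0x4560897231 .nil) .done .done) .done) .done)) (.node 0 5 (.cons 0x2890567431 .nil) (.node 2 5 (.cons 0x1347652890 .nil) (.leaf 0x7652890134 1 (.node 2 9 (.cons 0x8290567431 .nil) (.node 1 8 (.cons 0x9056743182 .nil) (.leaf 0x7431829056 0 (.node 2 6 (.cons 0x3265478901 .nil) (.leaf 0x1826509743 1 (.node 0 3 (.cons 0x4765289031 .nil) (.leaf 0x2187903456 0 .done) .done)) .done)) .done) .done)) (.leaf 0x9821347650 1 .done)) (.leaf 0x9821345670 2 .done)))) (.node 1 8 (.cons 0x5674318902 .nil) (.node 3 6 (.cons 0x1897456320 .nil) (.node 3 7 (.cons 0x4560237981 .nil) (.node 0 3 (.cons 0x4567981203 .nil) (.node 0 8 (.cons 0x9802176345 .nil) (.node 0 4 (.cons 0x5678904312 .nil) (.node 0 5 (.cons 0x9813476502 .nil) .done .done) .done) .done) .done) (.node 0 4 (.cons 0x9781236540 .nil) (.leaf 0x2187904563 2 (.leaf 0x3218790456 1 (.node 0 3 (.cons 0x4567981203 .nil) (.node 0 8 (.cons 0x9745632081 .nil) .done .done) .done))) (.leaf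 0x5479810236 1 .done))) (.node 1 9 .nil (.node 2 7 (.cons 0x1987234560 (.cons 0x8723456091 .nil)) (.node 3 6 (.cons 0x2365478901 (.cons 0x2365478910 (.cons 0x5436098172 .nil))) (.leaf 0x7209813654 0 .done) .done) (.node 6 9 .nil (.node 1 5 (.cons 0x6098715432 (.cons 0x2345178960 (.cons 0x8709651234 .nil))) .done (.node 5 7 (.cons 0x6574318902 .nil) (.node 2 9 (.cons 0x6574318920 .nil) (.leaf 0x8134756029 0 .done) (.node 4 8 (.cons 0x1234875690 .nil) (.node 0 5 (.cons 0x4897650213 .nil) (.leaf 0x2134897650 1 .done) (.leaf 0x9657843210 2 .done)) .done)) .done)) .done)) .done)) .done)))) (.node 0 8 .nil (.node 1 3 (.cons 0x2134567890 (.cons 0x9087654312 .nil)) (.node 2 9 (.cons 0x6547892310 (.cons 0x7654312980 .nil)) (.node 0 3 (.cons 0x4567980312 .nil) (.node 0 5 (.cons 0x2980567431 .nil) (.leaf 0x8921347650 1 .done) .done) .done) (.node 2 7 (.cons 0x8901327456 (.cons 0x4560897231 .nil)) (.node 5 7 (.cons 0x8902134576 (.cons 0x9802134576 .nil)) .done .done) (.node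 3 6 (.cons 0x2365478901 .nil) (.node 1 9 (.cons 0x2365478910 .nil) (.node 2 5 (.cons 0x4312567890 (.cons 0x2567431980 (.cons 0x8091347652 (.cons 0x4523608971 (.cons 0x6325471980 .nil))))) .done (.leaf 0x8745632019 0 .done)) (.node 4 6 (.cons 0x5647890132 (.cons 0x8097123645 .nil)) (.node 1 5 (.cons 0x6098715432 (.cons 0x2315647980 (.cons 0x9780215463 .nil))) (.leaf 0x4367890215 2 (.node 2 9 (.cons 0x5647892310 (.cons 0x8064517923 (.cons 0x9234608715 .nil))) .done .done)) .done) (.node 4 6 (.cons 0x5647890132 (.cons 0x5463217980 (.cons 0x8097123645 .nil))) .done .done))) .done))) (.node 3 7 .nil (.node 6 8 (.cons 0x9012378654 .nil) (.node 0 3 (.cons 0x4568790321 (.cons 0x5430986712 .nil)) .done (.node 1 6 (.cons 0x9087345612 (.cons 0x8901654732 .nil)) (.node 0 3 (.cons 0x8790321654 .nil) (.node 0 4 (.cons 0x7986540321 (.cons 0x8790456123 .nil)) .done .done) (.node 2 4 (.cons 0x5610987423 (.cons 0x9873245601 (.cons 0x9087342165 (.cons 0x8901245673 .nil)))) .done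 .done)) (.leaf 0x9012374568 1 (.leaf 0x5689012374 2 .done)))) (.node 6 9 (.cons 0x4569873210 .nil) (.node 2 7 (.cons 0x1273456980 .nil) (.node 5 7 .nil (.node 1 3 (.cons 0x2134567890 (.cons 0x8902134576 (.cons 0x8096572134 .nil))) (.leaf 0x4569087213 1 .done) .done) .done) (.node 2 9 .nil (.node 1 5 (.cons 0x6098715432 (.cons 0x4329870651 (.cons 0x8715432906 (.cons 0x8920673451 (.cons 0x6029873451 .nil))))) .done (.node 1 9 (.cons 0x4560198732 .nil) (.node 4 9 (.cons 0x6549873210 .nil) (.node 4 8 (.cons 0x3765489210 .nil) (.node 2 4 (.cons 0x9873245601 .nil) (.node 0 4 (.cons 0x8921045673 .nil) (.node 2 7 (.cons 0x5698043721 .nil) .done .done) .done) .done) .done) .done) .done)) .done)) (.node 6 9 (.cons 0x8732109654 .nil) (.node 2 7 (.cons 0x8096543721 .nil) (.node 5 7 .nil (.node 1 3 (.cons 0x8965472310 (.cons 0x8967543120 (.cons 0x8902134576 (.cons 0x4312756980 .nil)))) .done .done) .done) (.node 2 9 (.cons 0x6543780921 .nil) (.node 1 9 (.cons 0x6543780912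 .nil) (.node 4 9 (.cons 0x8732109456 .nil) (.node 4 8 (.cons 0x5690123784 .nil) (.node 5 7 (.cons 0x1296573480 .nil) (.leaf 0x2965734801 0 .done) .done) .done) .done) .done) .done)) .done))) .done)) .done)))
noncomputable def tc9_3_4 : T := (.node 4 6 .nil (.node 5 7 (.cons 0x8907564321 .nil) (.leaf 0x8901234657 1 (.leaf 0x6578901234 2 (.node 3 8 (.cons 0x9012387456 (.cons 0x2389645710 (.cons 0x9012387465 .nil))) (.node 2 5 (.cons 0x4698325701 (.cons 0x9012546783 (.cons 0x7645210983 (.cons 0x3254609871 .nil)))) (.node 1 8 (.cons 0x8123470965 (.cons 0x9601832547 (.cons 0x5218347690 (.cons 0x8125690743 .nil)))) .done .done) (.node 2 5 (.cons 0x8325471096 (.cons 0x9871064523 (.cons 0x9017832546 (.cons 0x3890176452 (.cons 0x3254609871 .nil))))) .done .done)) (.node 1 8 (.cons 0x8123470965 .nil) (.node 2 7 (.cons 0x5432718960 .nil) (.node 0 5 (.cons 0x8960543271 (.cons 0x9812346507 .nil)) (.leaf 0x3450698172 1 (.leaf 0x9605432718 1 .done)) .done) (.leaf 0x2189075643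 2 (.leaf 0x9075643218 1 .done))) .done)))) (.node 1 9 (.cons 0x5643219870 .nil) (.node 3 9 (.cons 0x5460178932 .nil) (.node 2 9 (.cons 0x5460178923 .nil) (.node 2 5 (.cons 0x3987645210 .nil) (.node 2 7 .nil (.node 1 8 (.cons 0x9187432560 (.cons 0x5432718960 (.cons 0x3452718960 .nil))) .done .done) (.leaf 0x645239871 0 (.node 7 9 (.cons 0x8971064523 .nil) (.node 4 9 (.cons 0x5649870123 .nil) (.node 5 9 (.cons 0x1234659870 .nil) .done .done) .done) .done))) .done) (.node 1 6 (.cons 0x8745610932 .nil) (.node 3 6 (.cons 0x7890123654 .nil) (.node 2 6 (.cons 0x5462398710 .nil) (.node 6 8 (.cons 0x5687432190 .nil) .done .done) .done) .done) .done)) (.node 3 6 (.cons 0x7890123654 .nil) (.node 1 4 .nil (.node 2 5 (.cons 0x3465219870 (.cons 0x9870652341 (.cons 0x8907652143 (.cons 0x6098714523 .nil)))) (.node 0 3 (.cons 0x5643078912 .nil) (.leaf 0x4652198703 1 (.leaf 0x7891256430 2 .done)) .done) (.node 2 4 (.cons 0x8709124365 .nil) (.node 4 9 (.cons 0x5649870123 .nil)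 (.node 5 9 (.cons 0x1234659870 .nil) (.node 7 9 (.cons 0x8790123654 .nil) .done .done) .done) .done) .done)) (.node 1 4 .nil (.node 5 9 (.cons 0x1234659870 (.cons 0x8741095632 (.cons 0x3214659870 .nil))) .done (.node 6 8 .nil (.node 5 9 (.cons 0x1234659870 (.cons 0x8659074123 .nil)) (.leaf 0x7865901234 0 .done) (.node 2 6 (.cons 0x5432609871 .nil) (.node 1 6 .nil (.node 3 9 (.cons 0x5460178932 (.cons 0x5478612390 (.cons 0x8745610932 .nil))) .done .done) .done) .done)) .done)) .done)) .done)) .done)) (.node 0 8 (.cons 0x5690874321 .nil) (.node 0 2 (.cons 0x3456789021 .nil) (.node 0 3 .nil (.node 1 9 (.cons 0x2198765430 .nil) (.node 3 6 (.cons 0x9120876345 (.cons 0x5436780912 .nil)) (.node 5 8 (.cons 0x1234785690 (.cons 0x5871960234 (.cons 0x8563470912 (.cons 0x8543671902 (.cons 0x4785690321 .nil))))) .done .done) (.node 2 6 (.cons 0x5432609871 (.cons 0x7621980345 .nil)) (.node 1 5 (.cons 0x8743215690 (.cons 0x9803451267 (.cons 0x8743096512 .nil))) (.node 2 4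 (.cons 0x9876542103 (.cons 0x8769034215 .nil)) (.node 3 5 (.cons 0x8912435670 (.cons 0x8907653421 (.cons 0x8742356901 .nil))) .done .done) .done) (.leaf 0x987126543 0 .done)) (.leaf 0x3456789120 0 .done))) (.node 6 8 (.cons 0x5430986712 .nil) (.node 3 6 (.cons 0x7890123654 .nil) (.node 1 6 .nil (.node 2 5 (.cons 0x9867125430 (.cons 0x9803452167 .nil)) (.leaf 0x7125430986 1 (.leaf 0x1678903452 1 .done)) (.node 4 6 .nil (.node 2 5 (.cons 0x9867125430 (.cons 0x9871064523 (.cons 0x3254609871 .nil))) (.leaf 0x7125430986 1 .done) .done) .done)) .done) (.node 0 4 .nil (.node 3 5 (.cons 0x4530986712 (.cons 0x7896532104 (.cons 0x5321786904 .nil))) (.leaf 0x7869045321 1 .done) (.node 0 5 .nil (.node 3 6 (.cons 0x7890123654 (.cons 0x5043698712 .nil)) (.node 2 5 (.cons 0x4325069871 .nil) (.leaf 0x4052178963 1 (.leaf 0x7125043698 1 .done)) .done) .done) .done)) .done)) .done)) (.node 0 3 .nil (.node 1 8 (.cons 0x9812034567 (.cons 0x5690347812 .nil)) (.node 3 5 (.cons 0x9812076534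 (.cons 0x5347690812 (.cons 0x4781096532 .nil))) (.leaf 0x6902187435 1 .done) (.node 2 9 (.cons 0x5609234781 .nil) (.node 1 5 (.cons 0x8743215690 (.cons 0x6789215430 (.cons 0x8743096512 .nil))) (.leaf 0x3290651874 2 (.leaf 0x4329065187 1 .done)) (.node 1 5 (.cons 0x8743215690 (.cons 0x6032987154 (.cons 0x8743096512 .nil))) (.leaf 0x651874329 1 (.node 1 9 (.cons 0x5609187432 .nil) (.leaf 0x654781923 1 .done) .done)) .done)) .done)) (.node 3 6 (.cons 0x7890123654 .nil) (.node 0 4 .nil (.node 0 5 (.cons 0x5043698712 .nil) .done (.node 0 5 (.cons 0x5043698712 .nil) .done .done)) (.node 1 3 (.cons 0x2134567890 .nil) (.leaf 0x4567890213 0 (.node 0 4 (.cons 0x5678904312 .nil) (.node 0 5 (.cons 0x8905436712 .nil) .done .done) .done)) .done)) .done)) .done)) (.node 5 8 (.cons 0x1234785690 .nil) (.leaf 0x7856901234 2 (.node 4 6 .nil (.node 2 5 (.cons 0x3478096521 (.cons 0x9871064523 (.cons 0x1785234690 (.cons 0x6432589071 (.cons 0x3254609871 .nil))))) .done (.node 4 8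 .nil (.node 3 6 (.cons 0x7890123654 (.cons 0x9012365487 (.cons 0x5847109632 .nil))) .done (.node 2 4 (.cons 0x3247856901 .nil) (.node 0 4 .nil (.node 3 5 (.cons 0x8907653421 (.cons 0x3589671042 (.cons 0x9640178532 (.cons 0x7104698532 .nil)))) .done .done) .done) .done)) (.node 0 4 .nil (.node 1 6 (.cons 0x5890716432 (.cons 0x9870432165 (.cons 0x5871690432 .nil))) .done (.node 2 4 (.cons 0x3247856901 .nil) (.node 4 8 .nil (.node 1 6 (.cons 0x5890716432 (.cons 0x9078432165 .nil)) (.node 3 5 (.cons 0x9610478532 (.cons 0x9846532107 (.cons 0x7109648532 (.cons 0x6901748532 .nil)))) .done .done) .done) .done) .done)) .done))) (.node 6 8 .nil (.node 0 5 (.cons 0x5096871234 (.cons 0x3450986712 .nil)) (.leaf 0x4321768905 2 .done) (.node 4 6 .nil (.node 0 3 (.cons 0x4785690321 (.cons 0x5871230964 (.cons 0x3098546712 (.cons 0x5874690321 .nil)))) .done (.node 3 6 (.cons 0x7123645890 .nil) (.node 0 4 (.cons 0x5871236904 .nil) (.node 1 6 (.cons 0x5874096123 .nil) .done .done)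 .done) .done)) .done)) .done))) .done)) (.node 7 9 .nil (.node 6 8 (.cons 0x1234568790 .nil) (.node 0 5 (.cons 0x4509687123 (.cons 0x3450986712 .nil)) (.leaf 0x4321768905 2 (.node 5 9 (.cons 0x8659074321 .nil) (.leaf 0x7865901234 0 .done) .done)) (.leaf 0x5687901234 2 (.leaf 0x7901234568 1 .done))) (.node 3 7 .nil (.node 2 4 (.cons 0x9873245601 (.cons 0x8901245673 .nil)) (.node 3 9 (.cons 0x3987654210 .nil) (.leaf 0x2456017893 1 (.node 0 3 (.cons 0x8745690321 .nil) (.node 1 8 (.cons 0x3218745690 (.cons 0x1879654230 (.cons 0x9034218765 (.cons 0x4569037812 .nil)))) .done (.node 1 3 (.cons 0x5423178960 (.cons 0x8790132456 .nil)) (.leaf 0x6789031245 2 .done) .done)) (.leaf 0x8932456017 2 .done))) (.node 1 5 (.cons 0x6098715432 (.cons 0x1542378960 .nil)) (.node 4 9 (.cons 0x8709432156 .nil) (.node 2 8 (.cons 0x8215670943 (.cons 0x3765498210 (.cons 0x8215673490 (.cons 0x8237154906 .nil)))) .done (.node 6 8 (.cons 0x3490786512 (.cons 0x2156873490 .nil)) (.leaf 0x1568709432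 1 .done) .done)) (.node 2 8 (.cons 0x3451760982 (.cons 0x4517328960 (.cons 0x4376512890 (.cons 0x3760982451 .nil)))) .done (.leaf 0x8732451069 1 .done))) .done)) (.node 5 7 .nil (.node 4 6 (.cons 0x8907564321 .nil) (.leaf 0x8901234657 1 (.node 3 9 (.cons 0x5460178932 (.cons 0x8932107564 (.cons 0x6457893210 (.cons 0x4657893210 .nil)))) .done .done)) (.node 2 7 .nil (.node 0 3 (.cons 0x8745690321 (.cons 0x8903456721 .nil)) (.node 4 6 (.cons 0x8712309645 .nil) (.node 5 9 (.cons 0x1234659870 (.cons 0x8954601723 .nil)) (.node 3 9 (.cons 0x5460178932 (.cons 0x8932710645 (.cons 0x8721039546 (.cons 0x8721039564 .nil)))) .done .done) (.node 5 8 (.cons 0x7098564321 (.cons 0x9854601723 (.cons 0x3465890721 (.cons 0x8546903271 .nil)))) .done .done)) (.node 1 8 (.cons 0x3218745690 .nil) (.leaf 0x2765430981 1 (.leaf 0x2187456903 2 (.leaf 0x7456903218 1 .done))) .done)) .done) .done)) .done)) .done)) .done)))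
noncomputable def tc9_3_5 : T := (.node 0 7 (.cons 0x9870123654 .nil) (.node 6 8 (.cons 0x9078654321 .nil) (.node 6 9 (.cons 0x8709654321 .nil) (.node 1 8 (.cons 0x9078123456 .nil) (.node 3 7 (.cons 0x8965473210 .nil) (.node 0 8 (.cons 0x7456980123 .nil) (.leaf 0x2108965473 1 (.leaf 0x6980123745 1 .done)) (.node 1 6 (.cons 0x4561098732 .nil) (.node 4 6 .nil (.node 0 5 (.cons 0x7189605432 (.cons 0x7123468905 .nil)) (.node 2 5 (.cons 0x8960174523 (.cons 0x8964523710 (.cons 0x9052178643 (.cons 0x2509864371 (.cons 0x3254609871 .nil))))) .done .done) .done) .done) .done)) (.leaf 0x4569078123 1 .done)) (.node 1 8 (.cons 0x4569078123 .nil) (.leaf 0x2345690781 2 (.leaf 0x7096543218 1 .done)) .done)) (.node 1 9 (.cons 0x4568709123 .nil) (.leaf 0x2190786543 2 (.node 6 9 (.cons 0x8709654321 .nil) (.node 4 6 (.cons 0x8709123465 .nil) (.node 1 6 .nil (.node 0 2 (.cons 0x3456789021 .nil) (.leaf 0x4320987165 1 (.node 3 7 (.cons 0x8965473210 (.cons 0x4561098732 .nil)) (.leaf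 0x8902165437 1 .done) (.leaf 0x8902345617 1 .done))) .done) .done) .done) (.leaf 0x786543219 1 .done))) .done)) (.node 2 4 (.cons 0x9871063245 .nil) (.node 0 2 (.cons 0x3456789021 .nil) (.node 4 6 .nil (.node 2 5 (.cons 0x9871063254 (.cons 0x9871064523 (.cons 0x3254609871 .nil))) .done (.node 1 4 .nil (.node 2 5 (.cons 0x9871063254 (.cons 0x9870652341 (.cons 0x9871452360 .nil))) .done (.node 2 7 .nil (.node 5 8 (.cons 0x9854367120 (.cons 0x9854601723 (.cons 0x3465890721 (.cons 0x9854632710 (.cons 0x9854172063 .nil))))) .done (.node 7 9 (.cons 0x8970214365 .nil) (.node 3 7 (.cons 0x8973654102 .nil) (.node 5 7 (.cons 0x8907564321 .nil) .done .done) .done) .done)) .done)) .done)) (.node 0 8 .nil (.node 7 9 (.cons 0x9780123654 .nil) (.leaf 0x1236547980 1 (.node 1 3 (.cons 0x2134567890 (.cons 0x9087654312 (.cons 0x6547980132 .nil))) (.node 3 9 (.cons 0x6547893210 (.cons 0x9367801245 .nil)) (.leaf 0x6542139087 2 .done) .done) (.leaf 0x2365479801 2 .done))) (.node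 2 7 .nil (.node 1 9 (.cons 0x5436789120 (.cons 0x5436089172 (.cons 0x5436027891 .nil))) (.node 0 5 (.cons 0x9876345021 (.cons 0x9127805634 (.cons 0x6508912743 .nil))) .done .done) (.node 7 9 (.cons 0x9780124563 .nil) (.node 0 4 .nil (.node 1 9 (.cons 0x5436789120 (.cons 0x7219804563 (.cons 0x8791042365 (.cons 0x5634078912 .nil)))) .done (.node 4 6 .nil (.node 0 5 (.cons 0x9876345021 .nil) (.node 3 9 (.cons 0x6547893210 (.cons 0x8932107465 (.cons 0x9364508721 (.cons 0x5647893210 .nil)))) .done .done) .done) .done)) .done) .done)) .done)) .done)) (.node 3 7 (.cons 0x8901245673 .nil) (.node 3 5 (.cons 0x8907653421 .nil) (.node 1 3 (.cons 0x2134567890 .nil) (.node 2 7 .nil (.node 4 8 (.cons 0x9847012356 (.cons 0x9845367210 (.cons 0x6534890721 (.cons 0x4890135672 .nil)))) .done (.node 4 6 (.cons 0x8906453271 .nil) (.node 1 4 (.cons 0x3278906541 .nil) (.node 0 3 (.cons 0x9872145630 .nil) (.node 0 4 (.cons 0x5678904312 .nil) .done .done) .done) .done) .done)) .done)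 (.node 1 8 (.cons 0x2435670981 .nil) (.leaf 0x7653421890 1 (.leaf 0x6534218907 2 (.node 2 7 (.cons 0x6534270981 .nil) (.node 5 7 (.cons 0x9812436570 .nil) .done .done) .done))) .done)) (.node 1 6 (.cons 0x4561098732 .nil) (.leaf 0x5423789016 2 (.node 7 9 (.cons 0x8971063245 .nil) (.node 2 7 (.cons 0x8906172345 .nil) (.node 5 7 (.cons 0x8906175432 .nil) .done .done) .done) (.leaf 0x987324561 1 .done))) .done)) (.node 0 2 (.cons 0x3456789021 .nil) (.node 0 3 (.cons 0x9876301245 .nil) (.node 2 7 (.cons 0x8903456721 .nil) (.node 7 9 (.cons 0x8976301245 .nil) (.node 5 7 (.cons 0x9875423601 .nil) (.node 3 7 .nil (.node 0 4 (.cons 0x9873654012 .nil) (.node 1 8 (.cons 0x6543209781 (.cons 0x6540327981 (.cons 0x9043218756 (.cons 0x9021873456 .nil)))) .done .done) .done) .done) .done) .done) (.node 2 7 .nil (.node 1 8 (.cons 0x9021876543 .nil) (.leaf 0x2765430981 1 (.node 1 9 (.cons 0x7891063245 (.cons 0x8910654723 (.cons 0x5427891063 .nil))) .done (.leaf 0x9812765430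 2 .done))) (.node 7 9 .nil (.node 0 8 (.cons 0x9780123654 .nil) (.leaf 0x1236547980 1 (.leaf 0x9801236547 2 .done)) (.node 5 7 (.cons 0x9875423601 .nil) (.node 3 7 .nil (.node 1 5 (.cons 0x6789034512 (.cons 0x9873245106 (.cons 0x9873601542 .nil))) (.node 0 8 (.cons 0x3679801542 (.cons 0x9806372451 .nil)) .done .done) .done) .done) .done)) .done)) .done)) (.node 2 9 (.cons 0x3298745601 .nil) (.node 1 9 (.cons 0x7891063245 .nil) (.node 6 9 .nil (.node 0 5 (.cons 0x8912436705 (.cons 0x8712345096 (.cons 0x2178963450 .nil))) .done (.node 2 6 (.cons 0x5432609871 .nil) (.node 2 7 (.cons 0x8910654723 .nil) (.node 2 5 (.cons 0x9871063254 .nil) (.node 2 8 (.cons 0x3452891760 .nil) .done .done) .done) .done) .done)) (.node 0 5 (.cons 0x4365078912 .nil) (.leaf 0x1987056342 2 (.node 1 4 (.cons 0x7892143650 .nil) (.leaf 0x5634129870 0 (.node 0 4 (.cons 0x5634078912 .nil) (.node 0 3 (.cons 0x6503478921 .nil) (.node 0 8 (.cons 0x9802176345 .nil) .done .done) .done) .done))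 .done)) .done)) (.node 7 9 .nil (.node 0 8 (.cons 0x9802176345 (.cons 0x5436798021 .nil)) (.leaf 0x9801236547 2 .done) (.node 3 7 .nil (.node 4 8 (.cons 0x7984563201 (.cons 0x5489206371 .nil)) (.node 6 9 (.cons 0x7102369845 (.cons 0x8965473210 (.cons 0x5698473201 .nil))) .done .done) (.node 2 7 .nil (.node 0 4 (.cons 0x5406329871 (.cons 0x9872104563 .nil)) (.node 1 4 (.cons 0x5417892360 (.cons 0x8972365410 (.cons 0x8972014563 .nil))) .done .done) .done) .done)) .done)) .done)) .done)) .done))) .done)) (.node 4 6 .nil (.node 3 5 (.cons 0x9871064532 .nil) (.leaf 0x2109874653 1 (.node 2 8 (.cons 0x9823547106 (.cons 0x9823546017 (.cons 0x5346712890 (.cons 0x3546712890 .nil)))) (.node 5 9 (.cons 0x1287634590 (.cons 0x7821095463 (.cons 0x7823645901 (.cons 0x8712364590 .nil)))) .done .done) (.node 3 9 (.cons 0x6547893210 (.cons 0x5647893210 .nil)) (.node 0 7 (.cons 0x8932107456 (.cons 0x8932107465 .nil)) (.node 2 7 (.cons 0x8932745601 (.cons 0x4653278901 .nil)) (.node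 1 8 (.cons 0x1893274560 (.cons 0x9078123465 .nil)) (.leaf 0x7235460981 1 (.leaf 0x9817235460 2 .done)) .done) .done) (.node 2 5 (.cons 0x8763901254 (.cons 0x3987645210 (.cons 0x8764521093 (.cons 0x3254609871 .nil)))) (.node 3 8 (.cons 0x6712543890 (.cons 0x9832546017 (.cons 0x5217643890 .nil))) .done .done) .done)) .done))) (.node 6 9 .nil (.node 0 5 (.cons 0x8712345096 .nil) (.leaf 0x8743210569 1 (.leaf 0x2105478963 1 (.leaf 0x7450123698 1 .done))) (.node 0 5 (.cons 0x1234789650 .nil) (.leaf 0x7896501234 2 (.node 6 8 (.cons 0x3450986712 .nil) (.leaf 0x5432176890 1 (.node 2 6 (.cons 0x5432609871 .nil) (.node 1 6 .nil (.node 2 8 (.cons 0x5069823471 (.cons 0x7612890543 (.cons 0x9823471605 .nil))) .done .done) .done) .done)) (.node 1 6 .nil (.node 0 3 (.cons 0x5430987612 (.cons 0x9874305612 .nil)) (.leaf 0x5478903216 2 (.node 2 9 (.cons 0x3298745601 (.cons 0x8923061745 .nil)) (.leaf 0x1605432987 1 (.leaf 0x6178923450 2 .done)) .done)) (.node 2 6 (.cons 0x5432609871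 .nil) (.node 2 9 (.cons 0x5432987160 .nil) (.leaf 0x1605432987 1 (.leaf 0x6178923450 2 .done)) .done) .done)) .done))) (.node 2 6 (.cons 0x5432609871 .nil) (.node 6 8 .nil (.node 0 5 (.cons 0x8712369054 (.cons 0x4509687123 (.cons 0x3450986712 (.cons 0x9054368712 .nil)))) .done (.node 1 6 .nil (.node 0 5 (.cons 0x8712369054 .nil) (.node 0 2 (.cons 0x3456789021 .nil) (.leaf 0x4320987165 1 (.node 5 9 (.cons 0x1789543260 (.cons 0x9502168743 (.cons 0x9502347861 .nil))) (.leaf 0x4320617895 1 .done) (.leaf 0x8902345617 1 .done))) (.leaf 0x4321678905 2 (.node 2 9 (.cons 0x3298745601 (.cons 0x3478921650 .nil)) (.leaf 0x1605432987 1 (.leaf 0x6178923450 2 .done)) .done))) .done) .done)) (.node 6 8 .nil (.node 0 5 (.cons 0x8712369054 (.cons 0x4509687123 (.cons 0x3450986712 (.cons 0x9054368712 .nil)))) .done (.node 1 6 .nil (.node 0 5 (.cons 0x8712369054 .nil) (.leaf 0x7162345098 1 (.leaf 0x4321678905 2 (.node 2 9 (.cons 0x9217863450 .nil) (.leaf 0x1605432987 1 (.leaf 0x6178923450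 2 .done)) .done))) .done) .done)) .done)) .done))) .done)) (.node 4 6 .nil (.node 3 5 (.cons 0x9871064532 .nil) (.leaf 0x2109874653 1 (.node 6 9 (.cons 0x8712354690 .nil) (.node 0 8 (.cons 0x9653210874 (.cons 0x9647801235 (.cons 0x5346908712 .nil))) (.node 2 5 (.cons 0x9871064523 (.cons 0x3254609871 .nil)) (.leaf 0x7125346908 1 (.leaf 0x4352178096 1 .done)) .done) .done) (.node 3 9 (.cons 0x6547893210 (.cons 0x5647893210 .nil)) (.node 2 5 (.cons 0x8936745210 (.cons 0x3987645210 (.cons 0x8764521093 (.cons 0x3254609871 .nil)))) (.node 3 8 (.cons 0x6712543890 (.cons 0x9832546017 (.cons 0x5217643890 .nil))) .done .done) .done) .done))) (.node 6 9 .nil (.node 0 5 (.cons 0x8905436712 (.cons 0x8712345096 .nil)) (.node 0 7 (.cons 0x8709654321 (.cons 0x8965074321 .nil)) (.leaf 0x5698701234 2 .done) (.leaf 0x4501236987 2 .done)) (.node 0 5 (.cons 0x1234789650 .nil) (.leaf 0x7896501234 2 (.node 6 8 (.cons 0x3450986712 .nil) (.leaf 0x5432176890 1 (.node 2 6 (.cons 0x5432609871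 .nil) (.node 1 6 .nil (.node 2 8 (.cons 0x5436712890 (.cons 0x7612890543 (.cons 0x9823471605 .nil))) .done .done) .done) .done)) (.node 1 6 .nil (.node 0 2 (.cons 0x3478965021 (.cons 0x5021698743 .nil)) (.node 0 3 (.cons 0x5430987612 (.cons 0x9874305612 .nil)) (.leaf 0x5478903216 2 .done) (.leaf 0x4320987165 1 (.leaf 0x8902345617 1 .done))) (.node 2 6 (.cons 0x5432609871 .nil) (.node 2 9 (.cons 0x5432987160 .nil) (.leaf 0x1605432987 1 (.leaf 0x6178923450 2 .done)) .done) .done)) .done))) (.node 7 9 (.cons 0x8974563210 .nil) (.node 0 7 .nil (.node 1 8 (.cons 0x5643218790 (.cons 0x9078123465 .nil)) (.leaf 0x2345690781 2 (.leaf 0x7096543218 1 .done)) (.node 1 8 (.cons 0x5643218790 .nil) (.leaf 0x2345690781 2 (.node 6 8 (.cons 0x9078654321 .nil) (.node 1 6 .nil (.node 0 2 (.cons 0x3456789021 .nil) (.leaf 0x4320987165 1 (.node 0 5 (.cons 0x8963217450 (.cons 0x8974321650 (.cons 0x8974361205 .nil))) .done (.leaf 0x8902345617 1 .done))) .done) .done) (.leaf 0x7096543218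 1 .done))) .done)) (.node 2 6 (.cons 0x5432609871 .nil) (.node 6 8 .nil (.node 0 5 (.cons 0x8963217450 (.cons 0x4509687123 (.cons 0x1798623450 .nil))) (.node 2 9 (.cons 0x3298745601 (.cons 0x5471068923 (.cons 0x7450129863 (.cons 0x5092178643 .nil)))) .done .done) (.node 1 6 .nil (.node 0 2 (.cons 0x8974563201 (.cons 0x8790234561 (.cons 0x8974561023 .nil))) (.node 5 9 (.cons 0x1789543260 .nil) (.leaf 0x4320617895 1 (.leaf 0x8716023459 2 .done)) (.leaf 0x8902345617 1 .done)) .done) .done)) (.node 6 8 .nil (.node 0 5 (.cons 0x8963217450 (.cons 0x4509687123 (.cons 0x3450986712 .nil))) (.node 2 9 (.cons 0x3298745601 (.cons 0x5471068923 (.cons 0x7450129863 .nil))) .done .done) (.node 1 6 .nil (.node 0 2 (.cons 0x8974563201 (.cons 0x8790234561 (.cons 0x8974561023 .nil))) (.node 5 9 (.cons 0x8954710632 .nil) (.leaf 0x4320617895 1 (.leaf 0x6879543201 0 .done)) .done) .done) .done)) .done)) .done)) .done))) .done)) (.leaf 0x2109874563 1 .done))))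
noncomputable def tc9_3_6 : T := (.node 3 6 (.cons 0x9874563210 .nil) tc9_3_5 (.node 0 7 .nil (.node 6 9 (.cons 0x8745690123 .nil) (.node 1 8 (.cons 0x8123470965 .nil) (.node 1 9 (.cons 0x5609187432 .nil) (.node 6 8 (.cons 0x9078654321 .nil) (.leaf 0x4568709123 1 (.node 1 5 (.cons 0x8960715432 (.cons 0x9078651234 (.cons 0x7098651234 .nil))) .done (.leaf 0x786543219 1 .done))) .done) (.node 3 8 (.cons 0x9012387456 (.cons 0x9654701832 .nil)) (.node 2 5 (.cons 0x9601832547 (.cons 0x1254389670 (.cons 0x6709834521 (.cons 0x9607452381 .nil)))) (.node 1 9 (.cons 0x6783452190 (.cons 0x9187065234 (.cons 0x7069183452 .nil))) .done .done) (.node 1 3 (.cons 0x2134567890 (.cons 0x8907654312 .nil)) (.node 1 5 (.cons 0x6098715432 (.cons 0x4389076512 (.cons 0x8347096512 .nil))) .done .done) .done)) (.leaf 0x4569078123 1 .done))) (.leaf 0x8701234569 1 (.node 1 8 (.cons 0x3218745690 .nil) (.leaf 0x2345690781 2 (.node 4 6 (.cons 0x7098123465 .nil) (.node 3 5 (.cons 0x4781235690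 (.cons 0x9871064532 (.cons 0x8712354690 (.cons 0x4356709812 (.cons 0x9018746532 .nil))))) .done (.node 6 8 (.cons 0x9078654321 .nil) (.node 0 5 (.cons 0x4509687123 (.cons 0x3450986712 .nil)) (.node 5 9 (.cons 0x7432186590 .nil) (.leaf 0x6598701234 2 (.leaf 0x7865901234 0 .done)) .done) .done) .done)) (.leaf 0x7096543218 1 .done))) .done))) (.node 6 9 (.cons 0x8745690123 .nil) tc9_3_4 .done)) (.node 0 7 .nil (.node 6 9 (.cons 0x1234569870 .nil) (.leaf 0x5698701234 2 (.node 1 3 (.cons 0x2134567890 (.cons 0x8965470132 (.cons 0x8907654312 .nil))) (.node 2 8 (.cons 0x9013287456 (.cons 0x3289654701 .nil)) (.leaf 0x745698231 0 (.node 1 5 (.cons 0x6098715432 (.cons 0x1569823470 .nil)) (.leaf 0x8234701569 1 (.node 2 6 (.cons 0x3265478901 .nil) (.leaf 0x8715432609 1 (.leaf 0x7890623451 2 (.leaf 0x5478901326 0 .done))) .done)) (.leaf 0x5690782134 2 .done))) (.node 3 6 (.cons 0x2365478901 (.cons 0x9870123654 .nil)) (.node 1 8 (.cons 0x9018745632 .nil) (.node 2 9 (.cons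 0x9236547810 .nil) (.leaf 0x7456329018 1 (.leaf 0x8170654329 2 (.leaf 0x7456329810 0 .done))) (.leaf 0x4569078123 1 .done)) .done) .done)) (.leaf 0x8701234569 1 (.node 7 9 .nil (.node 6 8 (.cons 0x9078654321 (.cons 0x1234568790 (.cons 0x1234568970 .nil))) (.leaf 0x7901234568 1 .done) (.node 1 8 (.cons 0x4569078123 .nil) (.node 2 6 (.cons 0x3265478901 (.cons 0x9018745623 (.cons 0x7189062345 .nil))) (.node 1 9 (.cons 0x8910745623 (.cons 0x3456219870 .nil)) .done (.node 0 5 (.cons 0x9056234781 (.cons 0x7432650981 .nil)) (.node 3 6 (.cons 0x2365478901 (.cons 0x9870123654 (.cons 0x4365097812 (.cons 0x5098174362 .nil)))) .done .done) .done)) (.leaf 0x2345690781 2 (.node 4 6 (.cons 0x9078123465 (.cons 0x7098123465 .nil)) (.node 2 5 (.cons 0x9871064523 (.cons 0x9018746523 (.cons 0x6523470981 (.cons 0x3254609871 .nil)))) (.node 0 3 (.cons 0x8712309645 (.cons 0x2567430981 (.cons 0x6789034521 (.cons 0x4309876521 .nil)))) .done .done) (.node 6 8 (.cons 0x9078654321 .nil)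 (.node 1 6 (.cons 0x5618907432 .nil) (.node 0 5 (.cons 0x4509687123 (.cons 0x8970564321 .nil)) (.leaf 0x1687905432 0 .done) .done) .done) .done)) (.leaf 0x7096543218 1 .done)))) .done)) .done)))) (.node 1 9 (.cons 0x8709123456 .nil) (.node 6 8 (.cons 0x9078654321 .nil) (.node 3 7 (.cons 0x2374568910 .nil) (.node 5 7 (.cons 0x2345719860 .nil) (.node 2 7 (.cons 0x3274568910 .nil) (.node 7 9 (.cons 0x8654321970 .nil) .done .done) .done) (.node 7 9 (.cons 0x8654321970 .nil) (.node 2 7 (.cons 0x3274568910 .nil) (.node 5 7 (.cons 0x2345719860 .nil) .done .done) .done) .done)) (.leaf 0x3219078654 1 (.leaf 0x2190786543 2 .done))) (.node 1 8 (.cons 0x9078123456 .nil) (.node 6 9 (.cons 0x9654321870 .nil) (.node 7 9 (.cons 0x8123456970 .nil) (.node 5 7 (.cons 0x2345718960 .nil) (.node 2 7 (.cons 0x3274569810 .nil) (.node 3 7 (.cons 0x2374569810 .nil) .done .done) .done) .done) (.leaf 0x2345690781 2 .done)) (.node 6 9 (.cons 0x8709654321 .nil) (.leaf 0x4569078123 1 (.leaf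 0x7096543218 1 .done)) .done)) (.node 6 8 (.cons 0x9078654321 .nil) (.leaf 0x4568709123 1 (.node 1 8 (.cons 0x9078123456 .nil) (.node 6 9 (.cons 0x9654321870 .nil) (.node 4 9 (.cons 0x5687094321 .nil) (.node 1 6 .nil (.node 2 9 (.cons 0x9234560781 .nil) (.leaf 0x6543290781 2 (.leaf 0x5618709234 1 .done)) (.node 1 5 (.cons 0x6098715432 .nil) (.node 1 4 .nil (.node 2 9 (.cons 0x9234560781 (.cons 0x9234187065 (.cons 0x8651470923 .nil))) .done .done) .done) .done)) .done) (.leaf 0x2345690781 2 .done)) .done) (.leaf 0x786543219 1 .done))) .done))) (.node 7 9 .nil (.node 6 8 (.cons 0x1234568790 .nil) (.node 3 7 (.cons 0x9012378654 .nil) (.node 0 5 (.cons 0x9054321786 (.cons 0x3450986712 .nil)) (.leaf 0x4321768905 2 (.node 1 5 (.cons 0x6098715432 (.cons 0x9068715432 (.cons 0x2347098651 .nil))) (.node 4 9 (.cons 0x5170689432 .nil) (.node 0 4 (.cons 0x9870432156 (.cons 0x8970432156 .nil)) (.node 2 9 (.cons 0x6892173450 (.cons 0x8792340651 .nil)) (.leaf 0x8607154329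 1 .done) .done) (.leaf 0x8706512349 1 .done)) .done) .done)) .done) (.leaf 0x5687901234 2 (.leaf 0x7901234568 1 (.node 0 3 (.cons 0x4568790321 .nil) (.node 4 6 (.cons 0x9032178645 (.cons 0x7123098645 .nil)) (.node 2 5 (.cons 0x9871064523 (.cons 0x6890325471 (.cons 0x3254609871 .nil))) (.node 3 6 (.cons 0x9871063254 (.cons 0x8790123654 (.cons 0x1745236890 .nil))) (.leaf 0x7452368901 2 .done) (.node 1 9 (.cons 0x4786523091 (.cons 0x8709125643 .nil)) (.node 1 8 (.cons 0x4709186523 (.cons 0x8197065234 (.cons 0x4325609781 (.cons 0x9078125643 .nil)))) .done .done) .done)) (.node 1 9 (.cons 0x5647891032 (.cons 0x5643078912 .nil)) (.node 2 7 (.cons 0x1986547230 (.cons 0x8654723091 (.cons 0x8917230645 .nil))) .done .done) .done)) (.node 1 4 (.cons 0x7986541230 (.cons 0x3214568790 .nil)) (.node 2 5 (.cons 0x6890325471 (.cons 0x9870652341 (.cons 0x9068714523 (.cons 0x3256890741 (.cons 0x6098714523 .nil))))) .done (.node 4 6 (.cons 0x7123098645 (.cons 0x5468971230 .nil))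 (.node 1 5 (.cons 0x6098715432 (.cons 0x4517986032 .nil)) (.node 2 4 (.cons 0x5421768903 (.cons 0x5423068971 .nil)) (.leaf 0x3068971542 0 .done) (.leaf 0x4687903215 1 .done)) .done) (.leaf 0x5687903214 1 .done))) (.node 0 2 (.cons 0x3456789021 .nil) (.node 1 3 (.cons 0x2134567890 (.cons 0x8654790231 .nil)) (.leaf 0x7902134568 2 (.leaf 0x9786543120 1 (.node 1 8 (.cons 0x9021876543 .nil) (.node 6 9 (.cons 0x8179602345 .nil) (.leaf 0x7810234569 1 .done) (.node 3 7 (.cons 0x9021873456 .nil) (.leaf 0x2186543790 1 (.leaf 0x1865437902 2 .done)) .done)) .done))) (.node 1 3 (.cons 0x2134567890 (.cons 0x8976543120 (.cons 0x8654790231 .nil))) (.leaf 0x9865471320 1 (.node 1 8 (.cons 0x5674318902 (.cons 0x3456798120 .nil)) (.leaf 0x2189765430 2 .done) .done)) .done)) .done))) .done)))) (.node 0 2 (.cons 0x3456789021 .nil) tc9_3_3 .done)) .done))) .done)))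
noncomputable def uc9_3_1 : T := tc9_3_6
theorem sub_c9_3_1 : root 9 refs9_3 [] 0x700000008706000000006030000500030500002000504000000004010000000010300000000302000500002018002000010 0xfe7fff3fff97ffd3ffcfffedfff5fff3ffd9fef9 9 4 7 (.cons 0x6547890123 .nil) uc9_3_1 = true := by decide +kernel
noncomputable def tc9_3_7 : T := (.node 6 8 .nil (.node 2 9 (.cons 0x7129086543 (.cons 0x5432906871 .nil)) (.node 0 3 (.cons 0x9654871230 (.cons 0x8765430921 (.cons 0x7654892103 .nil))) (.node 1 5 (.cons 0x6789034512 (.cons 0x6789215430 (.cons 0x7689034512 .nil))) (.leaf 0x7154329068 2 .done) (.node 1 3 (.cons 0x2134567890 (.cons 0x7892310654 (.cons 0x5487132960 .nil))) (.node 2 7 (.cons 0x7298065431 (.cons 0x5431276890 (.cons 0x9271348065 .nil))) (.leaf 0x5608927134 0 .done) .done) .done)) (.node 3 9 (.cons 0x6543908712 (.cons 0x4568710932 .nil)) (.node 7 9 (.cons 0x8456017932 (.cons 0x5486017932 .nil)) (.leaf 0x5687901234 0 .done) (.node 7 9 (.cons 0x1234568790 .nil)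 (.node 0 5 (.cons 0x6932178450 (.cons 0x7123968450 .nil)) (.node 0 3 (.cons 0x9654871230 (.cons 0x8456971230 (.cons 0x4879650321 .nil))) .done .done) (.leaf 0x5687901234 0 .done)) .done)) .done)) (.node 0 5 (.cons 0x9056871234 .nil) (.node 4 7 (.cons 0x9056874321 .nil) (.node 0 4 (.cons 0x9043217865 .nil) (.node 1 4 (.cons 0x5096874123 .nil) (.node 4 9 (.cons 0x5687123490 .nil) (.node 1 8 (.cons 0x6905478123 .nil) (.node 2 8 (.cons 0x9065432871 .nil) (.node 3 8 (.cons 0x6905478321 .nil) (.node 5 8 (.cons 0x5869047123 .nil) .done .done) .done) .done) .done) .done) .done) (.node 1 8 .nil (.node 2 9 (.cons 0x5681743290 (.cons 0x6781290543 (.cons 0x6509234781 .nil))) (.node 1 3 (.cons 0x6547892310 (.cons 0x9231056847 (.cons 0x3129678450 (.cons 0x9213487650 .nil)))) .done .done) (.node 2 8 (.cons 0x9065432871 .nil) (.node 3 8 .nil (.node 2 9 (.cons 0x6781290543 (.cons 0x8345671290 (.cons 0x6783450921 (.cons 0x4387650921 .nil)))) .done (.node 5 8 .nil (.node 2 9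 (.cons 0x6781290543 (.cons 0x3458176092 (.cons 0x6092345871 (.cons 0x4329065871 .nil)))) .done .done) .done)) .done) .done)) .done)) (.node 4 7 (.cons 0x6547890123 .nil) (.node 0 4 (.cons 0x9043217865 .nil) (.node 7 9 (.cons 0x9712348650 .nil) (.node 0 7 (.cons 0x6507984321 .nil) .done (.node 2 4 (.cons 0x9710568423 .nil) (.node 1 4 (.cons 0x8650971432 .nil) (.node 4 9 (.cons 0x5687123490 .nil) .done .done) .done) .done)) .done) (.node 1 8 (.cons 0x9056817432 .nil) (.node 2 8 (.cons 0x9056823471 .nil) (.node 3 8 (.cons 0x6905471832 .nil) (.node 5 8 .nil (.node 2 9 (.cons 0x8650923471 (.cons 0x3458176092 (.cons 0x6850923471 (.cons 0x4329065871 .nil)))) .done .done) .done) .done) .done) .done)) .done)) .done)) (.node 0 5 (.cons 0x6905487123 .nil) (.node 4 7 (.cons 0x6547890123 .nil) (.node 0 4 .nil (.node 0 3 (.cons 0x5698740321 .nil) (.node 1 8 (.cons 0x7456981230 (.cons 0x9650478123 .nil)) (.node 6 8 (.cons 0x7123096845 (.cons 0x9043217865 .nil)) .done .done)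 (.node 6 8 (.cons 0x9687450321 (.cons 0x9687123045 (.cons 0x9043217865 .nil))) .done .done)) (.node 0 3 (.cons 0x8712309654 .nil) (.node 0 2 (.cons 0x3456789021 .nil) (.node 1 4 (.cons 0x5678902143 .nil) (.node 1 5 (.cons 0x6987451230 .nil) (.leaf 0x8960321547 1 (.leaf 0x9603215478 2 .done)) .done) .done) (.node 1 4 (.cons 0x5698741230 .nil) (.node 0 2 (.cons 0x3456789021 .nil) (.node 0 7 .nil (.node 1 5 (.cons 0x4789651230 (.cons 0x8965123074 .nil)) (.node 2 9 (.cons 0x3298745601 (.cons 0x8451706923 (.cons 0x4329870651 .nil))) .done .done) .done) .done) .done) .done)) .done)) (.node 0 4 .nil (.node 1 6 (.cons 0x7845096123 (.cons 0x7890432165 .nil)) (.node 0 7 (.cons 0x5407896123 (.cons 0x9870432165 .nil)) .done (.node 3 7 (.cons 0x6905487321 (.cons 0x1237896540 .nil)) (.node 0 7 (.cons 0x8961237045 .nil) (.node 5 7 (.cons 0x8907561234 (.cons 0x8961237540 (.cons 0x8904573216 .nil))) .done .done) (.node 5 8 (.cons 0x2374850961 (.cons 0x9856104732 (.cons 0x5840961732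 (.cons 0x2374098561 .nil)))) .done .done)) .done)) (.node 0 3 (.cons 0x8712309654 .nil) (.node 0 2 (.cons 0x3456789021 .nil) (.node 0 7 .nil (.node 1 4 (.cons 0x5678902143 (.cons 0x3214569870 .nil)) (.node 3 5 (.cons 0x4356789021 (.cons 0x6987035412 (.cons 0x8453217096 .nil))) (.leaf 0x789653412 0 .done) .done) .done) .done) (.node 0 2 (.cons 0x3456789021 .nil) (.node 0 7 .nil (.node 3 6 (.cons 0x5487123690 (.cons 0x9870123654 (.cons 0x5487096321 .nil))) (.node 1 4 (.cons 0x5678903412 (.cons 0x3214569870 .nil)) (.node 2 8 (.cons 0x7456328901 (.cons 0x9823654701 (.cons 0x7098214365 (.cons 0x7098214563 .nil)))) .done .done) .done) .done) .done) .done)) .done)) .done)) (.node 3 6 (.cons 0x5487123690 .nil) (.leaf 0x2178450963 1 (.leaf 0x9632178450 2 (.node 3 8 (.cons 0x3845096712 .nil) (.node 6 8 .nil (.node 2 9 (.cons 0x9238710654 (.cons 0x7129086543 (.cons 0x9217683450 (.cons 0x5092176843 .nil)))) .done (.node 1 8 .nil (.node 2 7 (.cons 0x9605483271 (.cons 0x9605481723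 (.cons 0x5436721890 (.cons 0x9063271845 .nil)))) (.leaf 0x654327189 1 .done) .done) .done)) (.leaf 0x967123845 1 (.node 1 6 (.cons 0x7169054832 .nil) (.node 6 8 .nil (.node 2 9 (.cons 0x7169238450 (.cons 0x7129086543 (.cons 0x2905438671 (.cons 0x5092176843 .nil)))) .done (.node 1 8 .nil (.node 2 7 (.cons 0x9617238450 (.cons 0x9605481723 (.cons 0x5436721890 (.cons 0x9063271845 .nil)))) (.leaf 0x654327189 1 .done) .done) .done)) (.node 4 7 (.cons 0x5612347890 .nil) (.node 0 4 (.cons 0x7890432165 .nil) (.node 4 6 .nil (.node 0 2 (.cons 0x3456789021 (.cons 0x5469023871 .nil)) (.node 0 3 (.cons 0x8712309654 (.cons 0x8712309645 .nil)) .done .done) .done) .done) (.leaf 0x6123478905 2 .done)) .done)) .done))) (.node 4 7 (.cons 0x6547890123 .nil) (.leaf 0x2109874563 1 (.node 6 8 .nil (.node 2 9 (.cons 0x8436712905 (.cons 0x8654710923 (.cons 0x5432906871 (.cons 0x8650923471 .nil)))) .done (.node 3 8 (.cons 0x3845096712 .nil) (.node 1 6 (.cons 0x7169054832 .nil) (.node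 2 6 (.cons 0x3265478901 .nil) (.node 3 9 (.cons 0x7123968450 .nil) (.leaf 0x5439087126 1 (.leaf 0x8093456217 1 .done)) .done) .done) .done) .done)) .done)) .done)))) .done)) (.node 4 7 (.cons 0x6547890123 .nil) (.node 0 3 (.cons 0x2309654871 .nil) (.leaf 0x9654871230 0 (.node 0 5 .nil (.node 3 6 (.cons 0x9874563210 .nil) (.node 2 9 (.cons 0x9236548710 (.cons 0x1298763450 (.cons 0x6509234871 .nil))) (.leaf 0x5087129634 1 .done) (.leaf 0x5096321784 0 (.leaf 0x2109874563 1 .done))) (.node 0 2 (.cons 0x3456789021 .nil) (.node 0 4 .nil (.node 1 3 (.cons 0x2317845690 (.cons 0x5678904312 .nil)) (.leaf 0x7845690231 0 (.node 1 5 (.cons 0x2315478960 (.cons 0x7896045132 .nil)) (.leaf 0x6987451320 1 (.leaf 0x6987403215 1 .done)) .done)) .done) (.node 0 7 (.cons 0x8965470321 .nil) (.node 0 4 .nil (.node 1 5 (.cons 0x9874320651 (.cons 0x9651784023 .nil)) (.node 1 6 (.cons 0x5169847023 (.cons 0x5407896123 (.cons 0x7890432165 .nil))) .done (.leaf 0x6987403215 1 .done)) .done)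 .done) .done)) .done)) (.node 1 5 (.cons 0x6987451230 .nil) (.leaf 0x8960321547 1 (.leaf 0x9603215478 2 (.node 4 6 (.cons 0x8712309645 .nil) (.node 0 7 .nil (.node 1 8 (.cons 0x7812309645 (.cons 0x5469078123 (.cons 0x9078123465 .nil))) (.leaf 0x2345690781 2 .done) (.node 3 7 (.cons 0x8730964512 .nil) (.node 5 7 (.cons 0x8754690321 .nil) (.node 5 8 (.cons 0x7854690321 .nil) (.node 2 7 (.cons 0x8721546903 .nil) (.node 2 4 (.cons 0x6542378901 .nil) (.node 3 8 (.cons 0x9671245830 .nil) (.leaf 0x2438907651 1 .done) .done) .done) .done) .done) .done) .done)) (.node 0 4 .nil (.node 1 6 (.cons 0x5478961230 (.cons 0x7896123045 (.cons 0x7890432165 .nil))) .done (.node 0 5 (.cons 0x6987450321 .nil) (.node 0 2 (.cons 0x3456789021 .nil) (.node 0 7 .nil (.node 2 6 (.cons 0x5430987621 (.cons 0x4512698703 .nil)) (.leaf 0x4309876215 0 .done) .done) .done) .done) .done)) .done)) .done))) (.node 0 5 (.cons 0x4789650321 .nil) (.node 0 2 (.cons 0x3456789021 .nil) (.node 0 4 (.cons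 0x5698740321 .nil) (.node 0 7 .nil (.node 3 8 (.cons 0x7654389021 (.cons 0x9834567021 .nil)) (.leaf 0x7096548321 0 .done) .done) .done) (.node 0 7 .nil (.node 1 8 (.cons 0x9650321874 .nil) (.leaf 0x2345690781 2 (.leaf 0x2189654703 2 (.node 4 6 (.cons 0x9056432187 (.cons 0x9078123465 (.cons 0x7098123465 .nil))) .done .done))) .done) .done)) (.node 0 2 (.cons 0x3456789021 .nil) (.node 0 4 (.cons 0x5698740321 .nil) (.node 0 7 .nil (.node 1 8 (.cons 0x9021876543 (.cons 0x4705698123 .nil)) (.leaf 0x2345690781 2 (.leaf 0x2189654703 2 .done)) .done) .done) (.node 0 7 .nil (.node 0 4 (.cons 0x5698740321 .nil) (.node 3 8 (.cons 0x3896745021 (.cons 0x9654078321 .nil)) (.leaf 0x7096548321 0 .done) .done) .done) .done)) .done)) .done)))) (.node 0 7 .nil (.node 6 8 (.cons 0x9078654321 .nil) (.node 2 9 (.cons 0x6548710923 (.cons 0x7129086543 (.cons 0x5432906871 .nil))) (.node 7 9 (.cons 0x1234568790 .nil) (.leaf 0x5687901234 0 .done) .done) (.node 7 9 (.cons 0x1234568970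 .nil) (.node 2 9 (.cons 0x6548710923 (.cons 0x9217086543 .nil)) (.node 1 9 (.cons 0x5432917860 (.cons 0x8607192345 .nil)) (.leaf 0x4568709123 1 .done) .done) (.leaf 0x5689701234 0 .done)) (.leaf 0x3217098654 1 .done))) (.node 0 3 (.cons 0x2309654871 .nil) (.leaf 0x9654871230 0 (.node 7 9 .nil (.node 6 8 (.cons 0x8690321745 .nil) (.leaf 0x5687901234 2 (.leaf 0x7901234568 1 .done)) (.node 2 7 (.cons 0x8903456721 .nil) (.node 3 7 (.cons 0x4569803721 .nil) .done (.node 6 8 (.cons 0x8690321745 .nil) (.node 5 8 (.cons 0x9685471230 .nil) (.node 1 6 (.cons 0x7230984561 .nil) (.node 3 7 (.cons 0x6123745890 .nil) (.node 5 7 (.cons 0x2348907561 .nil) .done .done) (.leaf 0x985476123 0 .done)) .done) (.node 0 4 (.cons 0x9043217865 .nil) (.node 0 5 (.cons 0x9056871234 .nil) .done .done) .done)) .done)) .done)) (.node 0 2 (.cons 0x3456789021 .nil) (.node 0 5 .nil (.node 1 6 (.cons 0x5430987612 (.cons 0x3216987450 (.cons 0x9056178432 .nil))) (.leaf 0x2169874503 2 .done) (.node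 0 4 .nil (.node 6 8 (.cons 0x8690547123 (.cons 0x9687123045 (.cons 0x9043217865 .nil))) .done .done) .done)) (.node 3 8 (.cons 0x7654389021 .nil) (.node 7 9 (.cons 0x1796548320 .nil) (.leaf 0x834569712 1 .done) (.node 1 3 (.cons 0x2317845690 .nil) (.leaf 0x4567890213 0 (.node 2 8 (.cons 0x7132845690 .nil) (.leaf 0x1345670982 1 (.node 0 5 (.cons 0x3176905482 .nil) (.node 2 5 (.cons 0x6789034521 .nil) (.leaf 0x6748312509 1 (.leaf 0x7690521384 2 .done)) .done) (.leaf 0x9821345670 2 .done))) .done)) .done)) .done)) .done))) .done)) .done)) .done)))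
noncomputable def tc9_3_8 : T := (.node 0 5 (.cons 0x1234789650 .nil) (.leaf 0x7896501234 2 (.node 0 7 (.cons 0x8965074321 .nil) (.node 1 6 (.cons 0x8961234705 .nil) (.node 1 5 (.cons 0x9870615432 .nil) (.node 2 9 (.cons 0x3298745601 .nil) (.leaf 0x615432987 1 (.leaf 0x6154329870 2 (.node 5 9 (.cons 0x6123459870 .nil) (.node 7 9 (.cons 0x8970543216 .nil) .done .done) .done))) .done) (.node 4 6 .nil (.node 5 7 (.cons 0x8907543216 (.cons 0x8907546123 .nil)) (.node 0 8 (.cons 0x5690871234 (.cons 0x9087123465 .nil)) (.node 5 8 (.cons 0x5896123470 (.cons 0x7058964321 (.cons 0x7098546123 .nil))) .done .done) .done) (.node 0 4 (.cons 0x5698740123 .nil) (.node 3 6 (.cons 0x9874563210 .nil) (.node 5 8 (.cons 0x5896123470 .nil) (.leaf 0x1785690432 1 (.node 2 6 (.cons 0x3470589621 .nil) (.node 6 8 (.cons 0x7098612345 .nil) .done .done) (.leaf 0x9658712340 1 (.leaf 0x9076123458 1 .done)))) .done) .done) .done)) .done)) (.node 0 8 (.cons 0x5690871234 .nil) (.node 0 2 (.cons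 0x3456789021 .nil) (.node 0 3 .nil (.node 4 8 (.cons 0x7489650123 (.cons 0x5690348712 .nil)) (.leaf 0x321784569 1 .done) .done) .done) (.node 0 2 (.cons 0x3456789021 .nil) (.node 0 4 (.cons 0x5698740123 .nil) (.node 0 3 .nil (.node 4 8 (.cons 0x7489650123 .nil) (.leaf 0x321784569 1 .done) .done) .done) (.node 0 4 (.cons 0x5698740123 .nil) (.node 0 3 .nil (.node 4 8 (.cons 0x7489650123 .nil) (.leaf 0x2305698471 0 (.leaf 0x321784569 1 .done)) .done) .done) .done)) .done)) .done)) (.node 0 8 (.cons 0x5690871234 .nil) (.node 0 4 (.cons 0x5698740123 .nil) (.node 0 2 (.cons 0x3478965021 .nil) (.node 0 3 .nil (.node 1 8 (.cons 0x7812340965 (.cons 0x9812034567 (.cons 0x9812034765 (.cons 0x7430218965 .nil)))) .done (.node 0 7 .nil (.node 1 5 (.cons 0x4309876512 (.cons 0x4321569870 (.cons 0x8965123470 .nil))) .done .done) .done)) (.node 0 7 .nil (.node 1 5 (.cons 0x9874320651 (.cons 0x4321569870 (.cons 0x8965123470 .nil))) .done .done) .done)) (.node 5 7 (.cons 0x8965740123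 .nil) (.node 4 6 .nil (.node 3 5 (.cons 0x4789653210 (.cons 0x9643508712 (.cons 0x9647801235 (.cons 0x2357469801 .nil)))) .done (.node 1 5 (.cons 0x2346908751 .nil) (.node 7 9 (.cons 0x5123469780 .nil) (.leaf 0x6432150879 1 (.leaf 0x8796432150 2 .done)) (.node 3 5 (.cons 0x4789653210 .nil) (.node 5 8 (.cons 0x4321785690 .nil) (.node 5 9 (.cons 0x8043596712 .nil) .done .done) (.leaf 0x1235698740 1 .done)) .done)) .done)) (.node 0 7 .nil (.node 1 5 (.cons 0x6980475123 (.cons 0x4321569870 (.cons 0x8965123470 .nil))) .done (.node 0 2 (.cons 0x3478965021 .nil) (.node 0 3 (.cons 0x8965740321 .nil) .done .done) .done)) .done)) .done)) (.node 0 7 .nil (.node 1 5 (.cons 0x4321569870 (.cons 0x8965123470 .nil)) (.node 0 2 (.cons 0x9802156743 (.cons 0x6789021543 .nil)) (.node 0 3 (.cons 0x9803476512 (.cons 0x6987430512 .nil)) .done .done) .done) (.node 0 4 (.cons 0x5698740123 .nil) (.node 0 2 (.cons 0x3478965021 .nil) (.node 0 3 .nil (.node 1 5 (.cons 0x9802156743 (.cons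 0x9803476512 .nil)) (.node 4 8 (.cons 0x5120769843 (.cons 0x7698430215 (.cons 0x5690348712 .nil))) (.leaf 0x321784569 1 .done) .done) .done) .done) (.node 0 2 (.cons 0x3478965021 .nil) (.node 0 3 .nil (.node 1 9 (.cons 0x8719065432 (.cons 0x5674308912 (.cons 0x8743021965 .nil))) (.node 2 5 (.cons 0x6019874523 (.cons 0x6789125430 (.cons 0x9803476521 (.cons 0x6032547891 .nil)))) .done .done) .done) .done) .done)) .done)) .done)) .done))) (.node 0 7 .nil (.node 6 8 (.cons 0x9078654321 .nil) (.node 0 5 (.cons 0x5096874321 .nil) (.node 1 3 (.cons 0x2134567890 (.cons 0x8907654312 (.cons 0x7689054312 (.cons 0x5098674312 .nil)))) (.node 2 9 (.cons 0x7892310654 (.cons 0x8921345670 (.cons 0x7689213450 (.cons 0x3129867450 .nil)))) .done .done) (.leaf 0x1786905432 0 .done)) (.node 7 9 (.cons 0x1234568970 .nil) (.leaf 0x5689701234 0 (.node 3 6 (.cons 0x7890123654 (.cons 0x9863210745 .nil)) (.node 1 9 (.cons 0x8719065432 .nil) (.node 2 8 (.cons 0x9065432871 (.cons 0x9170682345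 .nil)) (.leaf 0x654328719 1 (.node 1 4 (.cons 0x9065417823 (.cons 0x7065419823 (.cons 0x9078214563 .nil))) .done .done)) (.node 2 9 (.cons 0x5432917860 (.cons 0x8607192345 .nil)) .done (.leaf 0x4568709123 1 .done))) .done) .done)) (.leaf 0x2345689071 2 .done))) (.node 0 8 (.cons 0x5690871234 .nil) (.node 0 2 (.cons 0x3456789021 .nil) (.node 0 4 (.cons 0x8712340965 .nil) (.node 0 3 .nil (.node 2 4 (.cons 0x9876542103 .nil) (.node 3 7 (.cons 0x9873245601 (.cons 0x6542378901 .nil)) .done .done) .done) (.node 5 8 (.cons 0x4321785690 .nil) (.leaf 0x1785690432 1 (.node 0 3 (.cons 0x4309658712 .nil) (.node 0 5 .nil (.node 1 3 (.cons 0x2134567890 (.cons 0x7896504312 (.cons 0x6789054312 .nil))) (.node 1 8 (.cons 0x7654309812 (.cons 0x5034769812 .nil)) .done .done) .done) .done) (.leaf 0x9658712340 1 (.node 6 8 .nil (.node 0 3 (.cons 0x5869032174 .nil) (.leaf 0x2174586903 0 .done) (.node 2 8 (.cons 0x9065432871 .nil) (.node 1 8 (.cons 0x9021876543 .nil) (.node 1 9 (.cons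 0x8719065432 .nil) (.leaf 0x654328719 1 (.leaf 0x7190654328 2 .done)) .done) .done) .done)) .done)))) .done)) (.node 0 3 .nil (.node 6 8 (.cons 0x9032178654 .nil) (.node 0 5 (.cons 0x5096874321 .nil) (.leaf 0x1786905432 0 .done) (.node 1 6 (.cons 0x5430987612 .nil) (.leaf 0x8903216547 1 (.node 4 8 (.cons 0x7098432165 (.cons 0x5690348712 .nil)) (.leaf 0x321784569 1 .done) .done)) .done)) (.node 0 4 (.cons 0x8712340965 .nil) (.node 0 5 .nil (.node 3 6 (.cons 0x7890123654 (.cons 0x5012369874 .nil)) (.node 5 8 (.cons 0x3476985021 (.cons 0x8509634712 (.cons 0x8509632174 .nil))) (.leaf 0x9658712340 1 .done) .done) .done) .done) .done)) .done)) (.node 0 4 (.cons 0x8712340965 .nil) (.node 2 4 (.cons 0x5690871243 .nil) (.node 0 5 (.cons 0x9650871243 .nil) (.node 0 2 (.cons 0x3456789021 .nil) (.node 0 3 (.cons 0x9876542103 .nil) .done .done) .done) (.node 0 2 (.cons 0x3456789021 .nil) (.node 3 7 (.cons 0x8901245673 .nil) (.node 3 5 (.cons 0x8907653421 .nil) (.leaf 0x2108965374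 0 (.node 0 3 .nil (.node 2 8 (.cons 0x4356709821 (.cons 0x5301289674 (.cons 0x6745309821 .nil))) (.leaf 0x1743569082 2 .done) .done) (.leaf 0x965342178 0 .done))) (.node 2 9 .nil (.node 3 8 (.cons 0x2456738901 (.cons 0x9210456783 (.cons 0x5678340921 .nil))) (.leaf 0x7129065438 2 .done) (.node 7 9 .nil (.node 1 6 (.cons 0x8732904561 (.cons 0x8973245610 .nil)) (.node 2 7 (.cons 0x3456127980 .nil) .done .done) .done) .done)) .done)) .done) .done)) (.node 2 4 (.cons 0x5690871243 .nil) (.node 0 5 (.cons 0x9650871243 .nil) (.node 0 2 (.cons 0x3456789021 .nil) (.node 0 3 (.cons 0x9876542103 .nil) .done .done) .done) (.node 0 2 (.cons 0x3456789021 .nil) (.node 3 7 (.cons 0x5690873421 .nil) (.node 2 7 (.cons 0x5698043721 .nil) (.node 5 7 (.cons 0x8965732104 .nil) (.node 7 9 (.cons 0x8973210456 .nil) .done .done) .done) (.node 1 6 (.cons 0x4561098732 .nil) (.node 4 6 (.cons 0x9873201645 .nil) .done (.node 1 5 (.cons 0x2437809651 .nil) (.leaf 0x8734215690 2 (.node 1 4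 (.cons 0x6541098732 .nil) (.node 1 8 (.cons 0x2437815690 .nil) (.node 1 9 (.cons 0x5607891432 .nil) .done (.leaf 0x4378156902 0 .done)) .done) .done)) .done)) .done)) .done) .done)) .done)) .done)) .done)) (.node 3 6 (.cons 0x2365478901 .nil) (.node 1 6 .nil (.node 6 8 .nil (.node 0 5 (.cons 0x3450987612 (.cons 0x5096871234 (.cons 0x9054321687 .nil))) (.leaf 0x4321678905 2 (.leaf 0x1786905432 0 .done)) (.node 0 7 (.cons 0x9870123654 .nil) (.node 0 5 (.cons 0x9870543612 .nil) (.leaf 0x9874321650 1 (.node 2 9 (.cons 0x8923610745 (.cons 0x5478923610 .nil)) (.leaf 0x3450789216 1 (.node 3 8 (.cons 0x4560923871 (.cons 0x9054387612 (.cons 0x4783290561 (.cons 0x4561783290 .nil)))) .done .done)) (.leaf 0x4321678905 2 .done))) (.node 3 7 (.cons 0x8901654732 .nil) (.node 0 4 (.cons 0x9045687123 (.cons 0x9045687321 (.cons 0x9873654012 .nil))) (.leaf 0x5612378904 2 (.leaf 0x9873216540 1 .done)) (.node 2 6 (.cons 0x8901623745 .nil) (.node 0 2 (.cons 0x9874563201 (.cons 0x5473209861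 .nil)) (.node 1 5 (.cons 0x5169874320 (.cons 0x2374516890 .nil)) (.leaf 0x4789023615 0 .done) .done) .done) .done)) .done)) .done)) (.node 0 7 (.cons 0x9870123654 .nil) (.node 3 7 (.cons 0x8901654732 .nil) (.node 1 3 (.cons 0x2134567890 .nil) (.node 6 8 (.cons 0x7098612345 .nil) (.node 2 6 (.cons 0x5431267890 .nil) (.node 4 6 (.cons 0x9870123645 .nil) .done .done) .done) .done) .done) (.node 3 7 (.cons 0x8901654732 .nil) (.node 1 3 (.cons 0x2134567890 .nil) (.node 4 6 (.cons 0x5647890132 .nil) (.node 2 6 (.cons 0x3265478901 .nil) (.node 6 8 (.cons 0x9012378645 .nil) .done .done) .done) .done) .done) .done)) .done)) (.node 7 9 (.cons 0x8790123654 .nil) (.node 2 9 (.cons 0x8745632901 .nil) (.node 1 9 (.cons 0x8719065432 .nil) (.node 4 9 .nil (.node 6 8 (.cons 0x8654710923 (.cons 0x5497863210 (.cons 0x3217865490 .nil))) .done .done) .done) (.node 4 6 (.cons 0x8790123645 .nil) (.node 2 6 (.cons 0x3265478901 .nil) (.node 1 6 .nil (.node 0 5 (.cons 0x8790543216 (.cons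 0x8790543612 .nil)) (.leaf 0x9874321650 1 (.leaf 0x4321678905 2 .done)) .done) .done) (.node 2 6 (.cons 0x3265478901 .nil) (.node 1 6 .nil (.node 0 5 (.cons 0x8790543216 (.cons 0x8974501623 (.cons 0x8790543612 .nil))) (.leaf 0x9874321650 1 .done) .done) .done) .done)) .done)) (.node 2 9 (.cons 0x8745632901 .nil) (.node 6 8 (.cons 0x8654710923 .nil) (.node 2 6 (.cons 0x3265478901 .nil) (.node 5 7 .nil (.node 4 6 (.cons 0x6457890123 .nil) (.leaf 0x8901234657 1 (.leaf 0x9875643210 2 .done)) (.node 2 5 .nil (.node 4 8 (.cons 0x1236548790 (.cons 0x9012548763 (.cons 0x3487125690 .nil))) .done (.node 4 8 (.cons 0x1236548790 .nil) (.node 1 5 (.cons 0x3297154860 .nil) (.leaf 0x9784512360 2 (.node 5 9 (.cons 0x4875963210 .nil) (.leaf 0x8459012367 1 .done) .done)) (.node 0 3 (.cons 0x7456892301 .nil) (.leaf 0x6903487125 1 (.leaf 0x8430965217 1 (.node 0 2 (.cons 0x3654879021 .nil) (.node 0 7 (.cons 0x3298654701 .nil) .done .done) .done))) .done)) .done)) .done)) .done)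 (.node 2 6 (.cons 0x3265478901 .nil) (.node 5 7 .nil (.node 4 6 (.cons 0x6457890123 .nil) (.leaf 0x8901234657 1 (.leaf 0x9875643210 2 .done)) (.node 3 9 (.cons 0x4568712390 .nil) (.node 4 6 (.cons 0x6457893210 .nil) (.leaf 0x3987546012 1 .done) (.node 2 4 (.cons 0x1786542390 .nil) (.node 3 5 (.cons 0x8742356901 .nil) (.node 2 8 (.cons 0x9065432871 .nil) (.node 1 5 (.cons 0x4715328690 .nil) (.node 5 9 (.cons 0x1287634590 .nil) .done .done) (.node 1 5 (.cons 0x1567824390 .nil) (.leaf 0x8243901567 1 .done) .done)) .done) (.leaf 0x3901786542 1 .done)) .done)) .done)) .done) .done)) (.node 5 7 .nil (.node 4 6 (.cons 0x3298754601 .nil) (.leaf 0x8901234657 1 (.leaf 0x9875643210 2 .done)) (.node 1 6 (.cons 0x8716092345 .nil) (.node 4 6 (.cons 0x3298754601 .nil) (.node 2 6 (.cons 0x3265478901 .nil) (.node 6 8 (.cons 0x5478632901 .nil) .done .done) .done) (.node 1 5 (.cons 0x8763451290 .nil) (.node 1 9 (.cons 0x8719065432 .nil) .done .done) .done)) .done)) .done)) .done))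 (.node 1 6 .nil (.node 5 7 (.cons 0x6123457890 .nil) (.node 4 8 (.cons 0x3675489012 .nil) (.leaf 0x6901234875 1 (.node 0 7 (.cons 0x5701236984 .nil) (.leaf 0x8965701234 2 .done) (.node 0 8 (.cons 0x5690871234 (.cons 0x9084365712 .nil)) (.leaf 0x1756908432 1 .done) .done))) (.leaf 0x3457890612 1 (.node 1 3 (.cons 0x4578906132 .nil) (.node 2 9 (.cons 0x6547892310 (.cons 0x4578923160 .nil)) (.leaf 0x3106547892 1 (.leaf 0x8745601329 2 .done)) (.node 0 3 (.cons 0x5430987612 .nil) (.node 6 8 (.cons 0x9032178654 .nil) (.node 1 8 (.cons 0x4576309812 .nil) (.node 2 4 (.cons 0x2475631890 (.cons 0x5698742301 (.cons 0x4218756903 (.cons 0x8903675421 .nil)))) (.leaf 0x6098754231 0 .done) .done) .done) (.node 0 5 (.cons 0x3450987612 .nil) (.leaf 0x9874321650 1 (.leaf 0x4321678905 2 (.node 0 4 (.cons 0x5678904312 (.cons 0x8904756132 .nil)) (.node 2 8 (.cons 0x7456328901 (.cons 0x9061782345 (.cons 0x5740982361 (.cons 0x9032874561 .nil)))) (.leaf 0x3165740982 1 .done) .done)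 .done))) .done)) .done)) .done))) (.node 3 9 (.cons 0x2398745610 .nil) (.node 1 3 (.cons 0x2134567890 .nil) (.node 4 6 (.cons 0x5647890132 .nil) (.node 2 6 (.cons 0x5478932610 .nil) (.node 2 9 (.cons 0x3298745610 .nil) (.node 6 8 (.cons 0x8654710923 .nil) .done .done) .done) .done) .done) (.node 6 8 (.cons 0x4568710932 .nil) (.node 2 6 (.cons 0x3265478901 .nil) (.node 4 6 .nil (.node 1 3 (.cons 0x2134567890 (.cons 0x5647890132 .nil)) (.node 0 7 (.cons 0x4561078932 (.cons 0x5461078932 .nil)) (.node 2 5 (.cons 0x8901367452 (.cons 0x2546789310 (.cons 0x8907643125 (.cons 0x3125467890 .nil)))) .done .done) .done) .done) .done) .done) .done)) .done)) .done))) .done)))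
noncomputable def tc9_3_9 : T := (.node 0 7 .nil (.node 6 8 (.cons 0x9680712345 .nil) (.node 1 6 (.cons 0x7089612345 .nil) (.node 1 8 (.cons 0x9078123456 .nil) (.node 2 8 (.cons 0x9065432871 .nil) (.leaf 0x6907182345 2 (.leaf 0x5690718234 1 .done)) (.leaf 0x4569078123 1 .done)) .done) (.leaf 0x3217098654 1 (.leaf 0x2345689071 2 .done))) (.node 0 2 (.cons 0x3456789021 .nil) (.node 0 3 .nil (.node 2 8 (.cons 0x9065432871 (.cons 0x9671280345 .nil)) (.node 1 5 (.cons 0x9065178234 (.cons 0x7698034512 (.cons 0x7651289034 .nil))) (.node 4 8 (.cons 0x8432170965 (.cons 0x7034896512 (.cons 0x7128430965 (.cons 0x7156903482 .nil)))) .done .done) (.node 2 5 (.cons 0x8096712543 (.cons 0x7698034521 .nil)) (.node 4 8 (.cons 0x3489076521 (.cons 0x9843076521 (.cons 0x7128456903 .nil))) (.node 1 8 (.cons 0x5690718432 (.cons 0x9812567034 (.cons 0x9034817652 .nil))) (.leaf 0x718432569 1 .done) .done) .done) .done)) (.node 0 5 .nil (.node 1 6 (.cons 0x9870561234 (.cons 0x7890561234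 .nil)) (.node 4 7 (.cons 0x6547890123 (.cons 0x8965074321 .nil)) (.leaf 0x1230987456 1 (.leaf 0x9874321650 1 .done)) .done) (.node 0 4 .nil (.node 5 8 (.cons 0x3458096712 .nil) (.node 4 8 (.cons 0x9658432170 .nil) (.leaf 0x1709658432 1 (.leaf 0x7123485690 2 .done)) (.leaf 0x3409658712 0 (.leaf 0x967123458 1 .done))) .done) .done)) .done)) (.node 0 3 .nil (.node 2 8 (.cons 0x9065432871 (.cons 0x9671280345 .nil)) (.node 1 5 (.cons 0x9065178234 (.cons 0x7698034512 (.cons 0x7651289034 .nil))) (.node 4 8 (.cons 0x8432170965 (.cons 0x7034896512 (.cons 0x7128430965 (.cons 0x7156903482 .nil)))) .done .done) (.node 2 5 (.cons 0x8096712543 (.cons 0x7698034521 .nil)) (.node 1 8 (.cons 0x7690812543 (.cons 0x9812034567 .nil)) (.leaf 0x345218769 1 (.node 1 9 (.cons 0x8719065432 (.cons 0x8765219034 .nil)) (.node 1 4 (.cons 0x9065417823 (.cons 0x9145287603 (.cons 0x7654128903 .nil))) .done .done) .done)) .done) .done)) (.node 3 6 (.cons 0x7890123654 .nil) (.node 1 6 .nil (.node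 3 7 (.cons 0x8902167345 (.cons 0x4561098732 .nil)) (.node 5 7 (.cons 0x7543216980 (.cons 0x8096175432 .nil)) (.leaf 0x2169087543 1 .done) .done) (.node 0 4 (.cons 0x7890432165 .nil) (.node 0 5 (.cons 0x7890561234 .nil) .done .done) .done)) (.node 1 6 .nil (.node 3 7 (.cons 0x9802167345 (.cons 0x8902167345 (.cons 0x4561098732 .nil))) (.node 5 7 (.cons 0x7543216980 (.cons 0x8096175432 .nil)) (.leaf 0x2169087543 1 .done) .done) (.node 0 4 (.cons 0x9870432165 .nil) (.node 0 5 (.cons 0x9870561234 .nil) .done .done) .done)) .done)) .done)) .done)) .done)) (.node 4 6 (.cons 0x9087123465 .nil) (.node 0 7 .nil (.node 6 8 (.cons 0x9078654321 .nil) (.node 3 8 (.cons 0x7012389654 (.cons 0x7012389645 .nil)) (.node 5 8 (.cons 0x9658071234 .nil) (.leaf 0x1234586907 2 (.leaf 0x2170968543 1 .done)) .done) (.leaf 0x2345689071 2 .done)) (.node 6 8 (.cons 0x8690712345 .nil) (.node 4 7 (.cons 0x6547890123 .nil) (.node 1 6 .nil (.node 2 8 (.cons 0x5690823471 (.cons 0x5470169823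 (.cons 0x9061782345 .nil))) .done (.node 2 6 (.cons 0x3265478901 .nil) (.node 3 6 (.cons 0x2365478901 .nil) .done .done) .done)) .done) .done) .done)) (.node 3 6 (.cons 0x7890123654 .nil) (.node 0 7 (.cons 0x9870123654 .nil) (.node 6 8 (.cons 0x8690712345 .nil) (.node 1 6 .nil (.node 5 9 (.cons 0x7809564321 (.cons 0x2163459870 (.cons 0x4598701632 (.cons 0x8709546123 .nil)))) .done (.node 2 6 .nil (.node 1 3 (.cons 0x2134567890 (.cons 0x8907621345 (.cons 0x5431267890 .nil))) .done .done) .done)) .done) .done) (.node 4 7 (.cons 0x6547890123 .nil) (.leaf 0x2109874563 1 (.node 0 7 .nil (.node 1 3 (.cons 0x2134567890 (.cons 0x8907654312 .nil)) (.node 2 8 (.cons 0x9065432871 (.cons 0x5431289670 (.cons 0x5470698231 .nil))) (.node 3 7 (.cons 0x4569823701 .nil) .done .done) (.node 1 9 (.cons 0x8719065432 (.cons 0x8709123465 .nil)) (.node 2 6 (.cons 0x5431267890 (.cons 0x3456219870 .nil)) (.node 0 3 (.cons 0x6543078912 .nil) (.leaf 0x1987034562 2 (.leaf 0x9126543078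 1 .done)) .done) .done) .done)) .done) (.node 1 6 .nil (.node 5 7 (.cons 0x9087564321 .nil) (.leaf 0x3457890612 1 (.node 2 5 (.cons 0x8096523471 (.cons 0x9087432561 .nil)) (.node 0 7 (.cons 0x5234708961 .nil) (.node 1 3 (.cons 0x8965470132 (.cons 0x8907654312 (.cons 0x4752316980 .nil))) .done .done) (.leaf 0x1098745236 0 .done)) .done)) (.node 2 6 (.cons 0x3265478901 .nil) (.node 6 8 .nil (.node 0 7 (.cons 0x8690712345 .nil) (.node 2 8 (.cons 0x3289654701 (.cons 0x5471096823 .nil)) .done .done) .done) .done) .done)) .done))) .done)) .done)) (.node 3 6 (.cons 0x7890123654 .nil) (.node 0 7 (.cons 0x9870123654 .nil) (.node 4 6 (.cons 0x9870123645 .nil) (.node 1 6 .nil (.node 5 9 (.cons 0x6321078954 (.cons 0x2163459870 (.cons 0x4598701632 (.cons 0x8709546123 .nil)))) .done (.node 2 6 (.cons 0x9087126543 .nil) (.node 6 8 (.cons 0x8690712345 .nil) .done .done) .done)) .done) (.node 3 7 (.cons 0x8096543712 .nil) (.node 1 6 .nil (.node 2 5 (.cons 0x7369801254 (.cons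 0x7345216980 (.cons 0x9087345216 (.cons 0x4523789061 .nil)))) (.leaf 0x8961254370 2 .done) (.node 1 3 (.cons 0x2134567890 .nil) (.node 4 6 .nil (.node 2 5 (.cons 0x8907652134 (.cons 0x9873254601 (.cons 0x9087346125 (.cons 0x8901254673 (.cons 0x8096452173 .nil))))) .done (.node 2 6 (.cons 0x9087126543 .nil) (.node 6 8 (.cons 0x9012378645 .nil) .done .done) .done)) .done) .done)) (.node 1 6 (.cons 0x4561098732 .nil) (.node 4 7 (.cons 0x9874563210 .nil) (.node 5 7 (.cons 0x4321657890 .nil) (.node 3 8 (.cons 0x7456983210 .nil) (.leaf 0x1238965470 1 (.node 3 9 (.cons 0x6547893210 .nil) (.node 1 3 (.cons 0x2134567890 .nil) (.node 7 9 (.cons 0x8974560132 .nil) .done .done) .done) .done)) .done) (.node 6 8 .nil (.node 3 5 (.cons 0x7453698012 (.cons 0x9012354786 (.cons 0x3547689012 .nil))) .done (.node 2 6 (.cons 0x4562378901 .nil) (.node 2 4 (.cons 0x6542378901 .nil) (.node 3 9 (.cons 0x3987654210 .nil) (.leaf 0x8093456217 1 (.leaf 0x654239871 1 .done)) (.leaf 0x987324561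 1 .done)) .done) .done)) .done)) .done) .done)) .done)) (.node 4 6 .nil (.node 3 9 (.cons 0x6543908712 (.cons 0x5643908712 .nil)) (.node 2 5 (.cons 0x8763901254 (.cons 0x3987645210 (.cons 0x8764521093 (.cons 0x7809364521 .nil)))) (.leaf 0x934652178 2 .done) (.node 5 7 (.cons 0x6457890123 .nil) (.leaf 0x8901234657 1 (.leaf 0x6578901234 2 (.node 4 7 (.cons 0x6547890123 .nil) (.node 3 7 (.cons 0x8965473210 .nil) (.leaf 0x9801237456 2 (.leaf 0x6980123745 1 .done)) (.node 1 3 (.cons 0x2134567890 (.cons 0x6457890132 (.cons 0x4657890132 .nil))) (.node 2 9 (.cons 0x7892310654 (.cons 0x6457892310 (.cons 0x4657892310 .nil))) (.leaf 0x8754601329 2 .done) (.node 0 7 (.cons 0x8907654312 .nil) (.node 5 8 (.cons 0x8569071234 (.cons 0x5896470123 .nil)) (.leaf 0x2346589071 2 .done) .done) .done)) .done)) (.node 7 9 (.cons 0x8790123654 (.cons 0x8790123645 .nil)) (.node 5 8 (.cons 0x1234658790 .nil) (.leaf 0x7901234658 1 (.leaf 0x6587901234 2 (.node 3 7 (.cons 0x8096543712 (.cons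 0x8546901732 .nil)) (.node 2 7 (.cons 0x1273456980 (.cons 0x8546901723 .nil)) .done .done) .done))) .done) .done)))) .done)) (.node 4 7 (.cons 0x6547890123 .nil) (.node 4 8 (.cons 0x9012365487 .nil) (.node 0 7 .nil (.node 5 8 (.cons 0x6985470123 (.cons 0x8547096321 .nil)) (.leaf 0x2107458963 1 .done) (.node 5 8 (.cons 0x2348569071 .nil) (.leaf 0x7123485690 2 (.node 6 8 (.cons 0x3217458690 .nil) (.node 1 6 .nil (.node 0 3 (.cons 0x5896470321 (.cons 0x3098547612 (.cons 0x5430987612 .nil))) .done .done) .done) .done)) .done)) .done) (.node 4 8 (.cons 0x9012365487 .nil) (.node 1 6 .nil (.node 2 9 (.cons 0x8745632901 (.cons 0x8716092345 (.cons 0x5487160923 .nil))) (.leaf 0x7165432908 0 .done) (.node 1 8 (.cons 0x9018745632 .nil) (.node 2 6 (.cons 0x3265478901 .nil) (.node 2 8 (.cons 0x9065432871 .nil) (.node 2 9 (.cons 0x9236547810 .nil) (.leaf 0x7456329018 1 .done) .done) .done) .done) .done)) .done) .done)) .done)) (.node 3 9 (.cons 0x6543908712 .nil) (.node 2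 6 (.cons 0x9087126543 .nil) (.node 1 6 .nil (.node 0 5 (.cons 0x1267893450 .nil) (.node 6 8 (.cons 0x7861239054 .nil) .done (.leaf 0x4321678905 2 .done)) .done) (.leaf 0x8093456217 1 (.node 2 9 .nil (.node 1 3 (.cons 0x2134567890 (.cons 0x7892310654 .nil)) (.leaf 0x926543178 1 .done) (.node 1 9 (.cons 0x8719065432 .nil) (.node 4 9 (.cons 0x5634908712 .nil) (.node 4 7 (.cons 0x6547890123 .nil) (.leaf 0x2109874563 1 (.node 4 8 (.cons 0x5609234871 .nil) (.node 3 8 (.cons 0x1783265490 .nil) (.node 6 8 (.cons 0x5471096832 .nil) .done .done) .done) .done)) .done) .done) .done)) .done))) (.node 1 6 .nil (.node 2 4 (.cons 0x9087124365 (.cons 0x7893245610 .nil)) (.node 3 7 (.cons 0x8096543712 (.cons 0x9378016542 .nil)) (.node 2 5 (.cons 0x9087125634 (.cons 0x7345216980 (.cons 0x4523789061 .nil))) (.node 2 6 (.cons 0x7398016254 (.cons 0x8093716254 .nil)) .done .done) .done) (.node 5 9 (.cons 0x4365908712 .nil) (.leaf 0x6342178095 1 (.leaf 0x956342178 2 .done)) (.leaf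 0x1780932456 1 .done))) (.node 6 8 (.cons 0x4568710932 .nil) (.node 2 6 (.cons 0x2654390871 .nil) (.node 2 4 (.cons 0x7893245610 .nil) (.leaf 0x5423901786 2 (.node 5 9 (.cons 0x4365908712 .nil) (.leaf 0x6342178095 1 (.leaf 0x956342178 2 .done)) (.leaf 0x3901786542 1 .done))) .done) .done) .done)) .done)) .done))) .done)))
noncomputable def uc9_3_2 : T := (.node 0 8 (.cons 0x9087123456 .nil) tc9_3_9 (.node 4 7 (.cons 0x6547890123 .nil) tc9_3_8 (.node 0 8 (.cons 0x4569087123 .nil) (.leaf 0x7123456908 0 (.node 6 8 .nil (.node 0 7 (.cons 0x9078654321 .nil) (.node 1 8 (.cons 0x4569078123 .nil) (.leaf 0x2345690781 2 (.node 2 9 (.cons 0x7186092345 (.cons 0x5432906871 .nil)) (.node 1 3 (.cons 0x2134567890 (.cons 0x7892310654 (.cons 0x8907654312 .nil))) (.node 3 6 (.cons 0x9870123654 (.cons 0x5436781290 (.cons 0x5436709812 .nil))) .done .done) (.node 1 5 (.cons 0x8715609234 (.cons 0x4329870651 .nil)) (.leaf 0x6092345178 1 (.node 0 4 (.cons 0x7865129043 (.cons 0x5409687123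 (.cons 0x5687129043 .nil))) (.node 1 4 (.cons 0x8714329065 (.cons 0x3214569870 .nil)) .done .done) .done)) .done)) (.leaf 0x7096543218 1 .done))) (.node 7 9 (.cons 0x1234568790 .nil) (.leaf 0x3217908654 0 (.node 2 9 (.cons 0x5432906871 .nil) (.node 0 3 (.cons 0x8712309654 (.cons 0x8765430921 .nil)) (.node 4 8 (.cons 0x7654892103 (.cons 0x7123096845 (.cons 0x5684309712 (.cons 0x6548710923 .nil)))) .done .done) (.node 3 8 (.cons 0x5438671290 (.cons 0x7109238654 .nil)) (.node 0 4 (.cons 0x7654012983 (.cons 0x5687904321 (.cons 0x9683217045 (.cons 0x5407129683 .nil)))) .done .done) .done)) (.leaf 0x5687901234 0 .done))) .done)) (.node 4 6 (.cons 0x9087123465 .nil) (.node 0 7 .nil (.node 1 8 (.cons 0x5469078123 .nil) (.node 0 3 (.cons 0x9034567812 (.cons 0x7654309812 (.cons 0x7812309645 .nil))) .done (.leaf 0x7096543218 1 .done)) (.node 0 3 (.cons 0x8712309654 .nil) (.node 0 2 (.cons 0x3456789021 .nil) (.node 2 6 .nil (.node 1 5 (.cons 0x8709645123 (.cons 0x9870623451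 (.cons 0x8907621543 .nil))) (.leaf 0x623451789 1 .done) (.node 2 9 (.cons 0x8765430921 .nil) (.node 1 6 (.cons 0x8761290345 .nil) (.node 3 6 (.cons 0x7890123654 .nil) .done .done) .done) .done)) .done) (.node 3 6 (.cons 0x7890123654 .nil) (.node 4 7 (.cons 0x6547890123 .nil) (.leaf 0x2109874563 1 (.node 2 6 (.cons 0x3265478901 .nil) (.node 1 6 .nil (.node 5 7 (.cons 0x9087564321 (.cons 0x8961230754 (.cons 0x9861230754 .nil))) .done .done) .done) .done)) .done) .done)) .done)) (.node 0 7 .nil (.node 7 9 (.cons 0x5468970123 .nil) (.node 1 9 (.cons 0x8719065432 .nil) (.node 2 9 (.cons 0x8607192345 .nil) (.leaf 0x3456807192 2 .done) (.node 2 9 (.cons 0x5432917860 (.cons 0x8607192345 .nil)) .done (.leaf 0x4568709123 1 .done))) (.leaf 0x5689701234 0 .done)) (.node 0 3 (.cons 0x8712309654 .nil) (.node 3 6 (.cons 0x7890123654 .nil) (.node 1 6 .nil (.node 2 8 (.cons 0x9034567821 (.cons 0x9061782345 .nil)) (.node 4 7 (.cons 0x8745690321 (.cons 0x9032874561 .nil)) (.leaf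 0x2109874563 1 .done) .done) .done) .done) (.node 0 2 (.cons 0x3456789021 .nil) (.node 2 6 .nil (.node 1 5 (.cons 0x9867034512 (.cons 0x9870623451 (.cons 0x8907621543 (.cons 0x9862154307 .nil)))) .done (.node 1 6 .nil (.node 2 5 (.cons 0x9867034521 (.cons 0x8907612543 .nil)) (.node 3 8 (.cons 0x8321709645 (.cons 0x9021678345 (.cons 0x9832546107 .nil))) .done (.leaf 0x1678903452 1 .done)) .done) .done)) .done) .done)) .done)) .done)) .done)) (.node 4 8 (.cons 0x3217845690 .nil) tc9_3_7 .done))) .done)))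
theorem sub_c9_3_2 : root 9 refs9_3 [] 0x700000008706000000006030000700030500002000504000000004010000000010300000000302000700002018002000010 0xfe7fff3fff37ffd3ffcfffedfff5fff3ff79fef9 9 6 9 (.cons 0x8712345690 .nil) uc9_3_2 = true := by decide +kernel
noncomputable def tc9_3_10 : T := (.node 6 8 (.cons 0x1234568790 .nil) (.node 3 7 (.cons 0x9012378654 .nil) (.leaf 0x986547321 0 (.node 0 7 (.cons 0x9078654321 .nil) (.node 2 7 (.cons 0x3274568901 .nil) (.node 3 9 (.cons 0x2398654710 (.cons 0x4568723901 .nil)) (.leaf 0x2786543901 0 .done) .done) .done) .done)) (.leaf 0x5687901234 2 (.leaf 0x7901234568 1 (.node 0 3 (.cons 0x4568790321 (.cons 0x4568971230 .nil)) (.node 6 9 (.cons 0x8965471032 .nil) (.node 2 9 (.cons 0x1745689230 (.cons 0x4560329871 .nil)) (.node 1 6 (.cons 0x5432987160 (.cons 0x8761290345 (.cons 0x5471689230 .nil))) .done .done) .done) (.node 4 6 (.cons 0x6457890321 (.cons 0x5468790321 (.cons 0x5468971230 .nil))) (.node 1 5 (.cons 0x6789034512 (.cons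 0x9786451230 (.cons 0x7986451230 .nil))) (.node 0 2 (.cons 0x3456789021 (.cons 0x9786451203 (.cons 0x7986451203 .nil))) (.node 2 6 (.cons 0x3265478901 (.cons 0x4512687903 (.cons 0x8971543062 .nil))) .done .done) .done) .done) (.node 3 6 (.cons 0x2365478901 (.cons 0x8790123654 .nil)) (.node 4 6 (.cons 0x4657890321 .nil) (.node 1 8 (.cons 0x9032187564 (.cons 0x5643218790 (.cons 0x5643097812 .nil))) (.node 1 5 (.cons 0x4309876512 (.cons 0x6097815432 (.cons 0x5186479032 (.cons 0x8790346512 .nil)))) .done .done) (.node 0 8 (.cons 0x9803217564 (.cons 0x1236457980 (.cons 0x5643089712 .nil))) .done .done)) (.node 2 4 (.cons 0x5678903421 (.cons 0x8971065423 (.cons 0x8971063245 .nil))) (.node 0 8 (.cons 0x9801745632 (.cons 0x5421089763 (.cons 0x7980124563 .nil))) .done (.node 3 8 (.cons 0x9012456783 (.cons 0x9783245601 (.cons 0x8367901245 (.cons 0x6542387901 .nil)))) .done .done)) .done)) .done))) .done)))) (.node 2 9 (.cons 0x1789234560 .nil) (.node 3 7 (.cons 0x8923710654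 .nil) (.node 0 7 (.cons 0x8923456071 .nil) (.node 4 9 (.cons 0x8732109456 .nil) (.node 4 8 (.cons 0x7106548923 .nil) (.node 2 7 .nil (.node 1 3 (.cons 0x2134567890 (.cons 0x6013279845 (.cons 0x5489276013 (.cons 0x8492731065 .nil)))) .done .done) (.leaf 0x173298456 1 .done)) .done) .done) (.node 0 7 (.cons 0x8923456071 .nil) (.node 3 9 (.cons 0x4560178932 .nil) (.node 2 7 .nil (.node 0 3 (.cons 0x8921765430 (.cons 0x8903456721 .nil)) (.node 0 2 (.cons 0x3456789021 .nil) (.node 0 8 (.cons 0x3456712980 (.cons 0x3456089271 .nil)) .done .done) .done) .done) .done) .done) .done)) (.node 3 9 (.cons 0x4560178932 .nil) (.node 2 7 (.cons 0x8932710654 .nil) (.node 1 9 (.cons 0x8723456091 .nil) (.node 4 9 .nil (.node 1 8 (.cons 0x8127654390 (.cons 0x5609432781 .nil)) (.leaf 0x4560187239 2 .done) .done) .done) .done) (.node 2 7 .nil (.node 1 6 (.cons 0x8723901654 (.cons 0x8901654723 .nil)) (.node 0 2 (.cons 0x8971602345 (.cons 0x9871602345 .nil)) (.leaf 0x1654789320 0 .done)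 (.node 3 5 (.cons 0x4789016532 (.cons 0x8901653274 .nil)) (.node 1 4 (.cons 0x6532987410 (.cons 0x8723901456 (.cons 0x8972354106 (.cons 0x9872354106 .nil)))) (.node 0 2 (.cons 0x8720934165 (.cons 0x8972061435 (.cons 0x9872061435 .nil))) .done .done) (.node 4 9 (.cons 0x8749016532 (.cons 0x8945601723 (.cons 0x8721653490 .nil))) .done .done)) .done)) (.node 1 9 (.cons 0x8723456091 .nil) (.node 0 8 (.cons 0x7198065432 .nil) (.leaf 0x4327198065 1 (.leaf 0x3271980654 2 (.node 0 7 (.cons 0x8917065432 .nil) (.node 3 7 (.cons 0x8091273456 .nil) .done .done) .done))) (.node 0 2 (.cons 0x3456789021 .nil) (.node 3 8 (.cons 0x9834567120 .nil) (.node 2 4 (.cons 0x6542398710 .nil) (.leaf 0x5601938724 2 (.leaf 0x7839106542 1 .done)) (.leaf 0x654389172 2 (.leaf 0x6027198345 1 .done))) (.node 5 9 (.cons 0x6023459871 .nil) (.node 4 9 .nil (.node 1 5 (.cons 0x4329871560 .nil) (.leaf 0x3498715602 1 .done) .done) .done) .done)) .done)) .done)) .done)) (.node 0 7 .nil (.node 6 9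 (.cons 0x8965432170 .nil) (.leaf 0x5698701234 2 (.leaf 0x8701234569 1 .done)) (.node 6 9 (.cons 0x8709654321 .nil) (.node 1 8 (.cons 0x9078123456 .nil) (.node 2 7 (.cons 0x5432718960 .nil) (.node 3 7 .nil (.node 2 6 (.cons 0x3265478901 (.cons 0x5473269810 (.cons 0x8109623745 .nil))) .done .done) .done) (.node 1 9 (.cons 0x8709123456 .nil) (.node 6 8 (.cons 0x9078654321 .nil) (.leaf 0x4568709123 1 (.leaf 0x786543219 1 .done)) .done) (.leaf 0x4569078123 1 .done))) (.node 1 9 (.cons 0x8709123456 .nil) (.node 6 8 (.cons 0x9078654321 .nil) (.node 2 7 (.cons 0x3274568910 .nil) (.node 3 7 (.cons 0x2374568910 .nil) .done .done) (.leaf 0x2190786543 2 .done)) (.node 6 8 (.cons 0x9078654321 .nil) (.leaf 0x4568709123 1 (.leaf 0x786543219 1 .done)) .done)) .done)) (.node 3 7 .nil (.node 6 8 (.cons 0x9012378654 .nil) (.node 1 6 (.cons 0x5432168790 (.cons 0x8901654732 .nil)) (.node 0 5 (.cons 0x2347890561 (.cons 0x6879054321 (.cons 0x6897123450 (.cons 0x4378905612 .nil))))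 .done .done) (.node 4 6 (.cons 0x5468973210 .nil) (.node 0 5 (.cons 0x9786450123 (.cons 0x5079864321 .nil)) (.leaf 0x3217890564 1 (.node 1 3 (.cons 0x3129786450 (.cons 0x5079864312 (.cons 0x7890564312 .nil))) (.leaf 0x789213465 0 .done) .done)) (.node 2 4 (.cons 0x9871065423 (.cons 0x9873245601 (.cons 0x5423798601 .nil))) (.node 1 4 (.cons 0x3298714560 (.cons 0x8923714560 .nil)) (.node 2 6 (.cons 0x3265478901 (.cons 0x8907341265 (.cons 0x5621437890 .nil))) .done .done) .done) .done)) (.leaf 0x9012374568 1 (.leaf 0x5689012374 2 .done)))) (.node 2 7 .nil (.node 0 3 (.cons 0x4560329871 (.cons 0x8903456721 .nil)) (.node 1 3 (.cons 0x2134567890 (.cons 0x8901327456 .nil)) (.node 1 5 (.cons 0x6789034512 (.cons 0x8903451276 (.cons 0x4315609872 .nil))) (.node 1 6 (.cons 0x5430987612 (.cons 0x8901654723 .nil)) .done .done) .done) .done) .done) .done)) .done))) .done))) (.node 2 9 (.cons 0x1789234560 .nil) (.node 3 7 (.cons 0x8923710654 .nil) (.node 0 7 (.cons 0x8923456071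 .nil) (.node 6 9 (.cons 0x8732109654 .nil) (.node 2 7 .nil (.node 0 3 (.cons 0x4569871230 (.cons 0x8903456721 .nil)) (.node 0 8 (.cons 0x3456712980 (.cons 0x3456089271 .nil)) .done .done) .done) .done) .done) (.node 0 7 (.cons 0x8923456071 .nil) (.node 3 9 (.cons 0x4560178932 .nil) (.node 2 7 .nil (.node 0 3 (.cons 0x8921765430 (.cons 0x8903456721 .nil)) (.node 0 2 (.cons 0x3456789021 .nil) (.node 0 8 (.cons 0x3456712980 (.cons 0x3456089271 .nil)) .done .done) .done) .done) .done) .done) .done)) (.node 3 9 (.cons 0x4560178932 .nil) (.node 2 7 (.cons 0x8932710654 .nil) (.node 1 9 (.cons 0x8723456091 .nil) (.node 4 9 .nil (.node 1 8 (.cons 0x8127654390 (.cons 0x5609432781 .nil)) (.leaf 0x4560187239 2 .done) .done) .done) .done) (.node 2 7 .nil (.node 1 6 (.cons 0x5432987160 (.cons 0x8723901654 (.cons 0x8901654723 .nil))) (.node 0 5 (.cons 0x2347890561 .nil) (.node 1 9 (.cons 0x8719234506 (.cons 0x8917234560 .nil)) (.node 3 5 (.cons 0x4789016532 (.cons 0x8729160534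 (.cons 0x8901653274 .nil))) .done .done) (.leaf 0x6123478905 2 (.leaf 0x9871605432 0 .done))) .done) (.node 3 7 .nil (.node 2 4 (.cons 0x6542398710 (.cons 0x9873245601 (.cons 0x8901245673 .nil))) .done (.node 0 7 .nil (.node 2 4 (.cons 0x6542398710 (.cons 0x6542398701 .nil)) (.node 0 2 (.cons 0x3456789021 .nil) (.node 5 8 (.cons 0x1765893420 (.cons 0x6589342071 .nil)) (.leaf 0x9342017658 2 (.leaf 0x6710243985 1 .done)) .done) .done) .done) .done)) .done)) .done)) (.node 6 9 .nil (.node 0 7 (.cons 0x8709654321 .nil) (.leaf 0x5698701234 2 (.node 3 7 (.cons 0x8732109654 .nil) (.node 1 6 (.cons 0x8709612345 (.cons 0x8901654732 .nil)) (.node 0 4 (.cons 0x4098756123 .nil) (.node 0 5 (.cons 0x2347890561 (.cons 0x4378905612 .nil)) (.leaf 0x6123478905 2 .done) (.leaf 0x2378904561 1 (.leaf 0x5401237896 2 .done))) .done) .done) .done)) (.node 0 7 (.cons 0x8965432170 .nil) (.node 1 8 (.cons 0x9078123456 .nil) (.node 1 9 (.cons 0x8709123456 .nil) (.node 6 8 (.cons 0x9078654321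 .nil) (.leaf 0x4568709123 1 (.node 2 8 (.cons 0x3289654710 .nil) (.node 0 8 (.cons 0x7123456980 .nil) (.node 4 8 (.cons 0x6907548123 .nil) .done .done) .done) (.leaf 0x786543219 1 .done))) .done) (.node 1 6 .nil (.node 0 2 (.cons 0x5698174320 (.cons 0x4756189023 (.cons 0x9871602345 .nil))) (.leaf 0x6178902345 2 .done) (.node 4 6 (.cons 0x9078123465 .nil) (.node 2 6 (.cons 0x3265478901 .nil) (.node 3 6 (.cons 0x2365478901 .nil) .done .done) .done) .done)) (.leaf 0x4569078123 1 .done))) (.node 3 7 .nil (.node 0 8 (.cons 0x7123456980 (.cons 0x2173456980 .nil)) (.node 2 4 (.cons 0x9871065423 (.cons 0x9873245601 (.cons 0x8901245673 (.cons 0x8960173245 .nil)))) (.node 0 2 (.cons 0x3456789021 .nil) (.node 0 4 (.cons 0x4089657123 (.cons 0x5698043712 .nil)) .done .done) .done) .done) (.node 2 7 .nil (.node 0 3 (.cons 0x4560329871 (.cons 0x8903456721 .nil)) (.node 0 8 (.cons 0x7123456980 (.cons 0x8096543721 .nil)) .done .done) .done) .done)) .done)) .done)) .done)))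 .done)))
noncomputable def tc9_3_11 : T := (.node 4 6 (.cons 0x6457890123 .nil) (.leaf 0x8901234657 1 (.node 3 9 (.cons 0x4560178932 (.cons 0x6457893210 (.cons 0x4657893210 .nil))) (.node 0 7 (.cons 0x8932107546 (.cons 0x8932107564 .nil)) (.node 4 8 (.cons 0x7106548932 (.cons 0x6017548932 .nil)) (.node 1 8 (.cons 0x9078123456 (.cons 0x7546018932 (.cons 0x6570934812 .nil))) .done .done) .done) (.node 0 2 (.cons 0x3456789021 (.cons 0x6457893201 (.cons 0x4657893201 .nil))) (.node 1 8 (.cons 0x2093456781 (.cons 0x9320187546 (.cons 0x9320187564 .nil))) (.leaf 0x5439021876 1 .done) (.node 4 8 (.cons 0x3984567102 .nil) (.node 3 6 (.cons 0x2365478901 (.cons 0x3675489012 (.cons 0x5763489021 .nil))) (.node 1 3 (.cons 0x2134567890 (.cons 0x9875460132 (.cons 0x5764893102 .nil))) (.node 1 6 (.cons 0x4321657890 .nil) (.leaf 0x4893206175 1 .done) .done) .done) (.leaf 0x239846571 2 .done)) .done)) .done)) (.node 1 6 (.cons 0x4321657890 .nil) (.node 0 2 (.cons 0x3456789021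 (.cons 0x9871602345 .nil)) (.node 0 5 (.cons 0x3450987612 .nil) (.leaf 0x4321678905 2 (.node 0 8 (.cons 0x9087564321 .nil) (.node 3 9 (.cons 0x8765439021 (.cons 0x2176543980 (.cons 0x8761209345 (.cons 0x9346508712 .nil)))) (.leaf 0x1654789320 0 .done) (.node 5 9 (.cons 0x7160895432 (.cons 0x9543208716 (.cons 0x7809546123 .nil))) .done .done)) .done)) (.node 3 8 (.cons 0x9834567120 (.cons 0x9832016547 (.cons 0x6754389021 (.cons 0x9012387564 .nil)))) (.node 2 9 (.cons 0x1765438920 (.cons 0x5432987160 (.cons 0x4657832901 .nil))) (.leaf 0x3875461092 1 .done) .done) (.leaf 0x6178902345 2 .done))) (.node 0 7 (.cons 0x8907543216 (.cons 0x8907561234 .nil)) (.node 0 2 (.cons 0x3456789021 (.cons 0x8902167543 (.cons 0x8902347561 .nil))) (.node 0 8 (.cons 0x9802176543 (.cons 0x9806175432 (.cons 0x9087564321 .nil))) (.node 1 8 (.cons 0x9078123456 (.cons 0x9817543206 (.cons 0x2347561890 .nil))) .done .done) .done) .done) .done)) (.leaf 0x9875643210 2 .done)))) (.node 1 5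 .nil (.node 0 2 (.cons 0x3456789021 (.cons 0x6789021543 (.cons 0x9871560234 .nil))) (.node 0 3 (.cons 0x6789034512 (.cons 0x4309876512 .nil)) (.node 2 9 (.cons 0x1789234560 (.cons 0x8921765430 (.cons 0x4329871560 (.cons 0x4560329871 .nil)))) (.node 2 6 (.cons 0x3265478901 (.cons 0x9874562301 (.cons 0x1562347890 .nil))) (.leaf 0x3456217890 0 (.leaf 0x7892603451 0 .done)) .done) (.node 2 7 (.cons 0x8903456721 (.cons 0x6098723451 (.cons 0x4327890651 .nil))) (.node 3 9 (.cons 0x8765439021 (.cons 0x8765120934 .nil)) (.node 4 8 (.cons 0x3098456721 (.cons 0x6721548930 (.cons 0x6721548903 (.cons 0x6039845172 .nil)))) .done (.node 1 8 (.cons 0x6781543902 (.cons 0x6518903274 .nil)) (.leaf 0x5439021876 1 .done) .done)) .done) .done)) (.node 1 8 (.cons 0x3476518902 .nil) (.leaf 0x9023476518 1 (.node 3 7 (.cons 0x9817345602 (.cons 0x8902154376 (.cons 0x8902156734 .nil))) .done .done)) .done)) (.node 0 5 .nil (.node 1 6 (.cons 0x2347890561 .nil) (.leaf 0x9874321650 1 (.leaf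 0x4509876123 0 .done)) (.node 0 8 .nil (.node 2 9 (.cons 0x1789234560 (.cons 0x3456712980 (.cons 0x3451760892 (.cons 0x6517432980 .nil)))) (.node 1 3 (.cons 0x2134567890 (.cons 0x6547809231 .nil)) (.leaf 0x7809213456 0 (.leaf 0x8923174560 0 .done)) .done) (.node 0 7 .nil (.node 6 9 (.cons 0x6908754321 (.cons 0x8965432170 .nil)) (.leaf 0x8701234569 1 (.leaf 0x7123456980 0 .done)) (.node 1 6 (.cons 0x9087543216 .nil) (.node 5 9 (.cons 0x3459087612 .nil) (.node 4 8 (.cons 0x2348709561 .nil) (.leaf 0x3216590784 2 (.leaf 0x7095612348 1 .done)) (.leaf 0x876123459 1 .done)) (.node 3 7 (.cons 0x4378905612 .nil) (.node 7 9 (.cons 0x6089715432 .nil) (.node 1 8 (.cons 0x6518907432 .nil) (.node 2 7 (.cons 0x6098154372 .nil) .done .done) .done) .done) .done)) .done)) (.node 1 6 (.cons 0x9087561234 .nil) (.node 0 7 .nil (.node 4 6 (.cons 0x9087564321 (.cons 0x9807123465 .nil)) (.node 2 9 (.cons 0x1789234560 (.cons 0x8923456071 (.cons 0x5129807643 (.cons 0x3465078921 (.cons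 0x3298074651 .nil))))) .done .done) (.node 3 7 .nil (.node 4 6 (.cons 0x9087564321 (.cons 0x9801564732 (.cons 0x9805643712 .nil))) .done (.node 2 7 (.cons 0x9806517234 .nil) (.node 7 9 .nil (.node 2 8 (.cons 0x4376512890 (.cons 0x6079823451 (.cons 0x5432879061 .nil))) .done .done) .done) .done)) .done)) (.node 0 7 .nil (.node 6 9 (.cons 0x2347156980 (.cons 0x8965432170 .nil)) (.node 2 9 (.cons 0x1789234560 (.cons 0x8923456071 (.cons 0x8923451706 .nil))) (.node 6 8 (.cons 0x1568923470 .nil) (.leaf 0x5689074321 2 .done) .done) .done) (.node 3 7 (.cons 0x4378905612 .nil) (.node 2 7 (.cons 0x9806517234 .nil) (.node 2 5 (.cons 0x1652347890 .nil) (.node 7 9 (.cons 0x8970615234 .nil) .done .done) .done) .done) .done)) .done)) .done))) .done)) (.node 0 5 .nil (.node 1 6 (.cons 0x2347890561 .nil) (.leaf 0x9874321650 1 (.leaf 0x4509876123 0 (.node 3 7 (.cons 0x8901654732 (.cons 0x8905437612 .nil)) (.node 4 8 (.cons 0x5610984732 (.cons 0x5098437612 (.cons 0x7348905612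 .nil))) (.leaf 0x5612374890 1 .done) .done) .done))) (.node 1 8 .nil (.node 0 2 (.cons 0x3456789021 (.cons 0x9021876543 (.cons 0x9817432056 .nil))) (.node 6 9 (.cons 0x5432069871 (.cons 0x8120967543 (.cons 0x2347189650 (.cons 0x6981745023 .nil)))) .done .done) (.node 1 9 (.cons 0x6091875432 .nil) (.node 0 7 (.cons 0x8917065432 .nil) (.node 3 7 (.cons 0x6734509812 .nil) (.node 1 3 (.cons 0x2134567890 .nil) (.node 1 4 (.cons 0x8905673412 .nil) .done .done) .done) (.node 2 8 (.cons 0x7198234560 .nil) (.leaf 0x3289170654 2 (.node 1 4 (.cons 0x9065782341 .nil) (.node 0 4 (.cons 0x9821765043 .nil) (.leaf 0x3289175604 1 (.node 0 8 (.cons 0x6574328091 .nil) .done .done)) .done) (.leaf 0x9170654328 1 .done))) .done)) (.node 4 8 (.cons 0x6578432190 .nil) (.node 2 8 (.cons 0x4328756091 .nil) (.node 6 8 (.cons 0x2347198650 .nil) (.node 6 9 (.cons 0x1743289650 .nil) (.leaf 0x8234710569 1 .done) .done) (.node 6 8 (.cons 0x2347198650 .nil) (.node 2 5 (.cons 0x6091875234 .nil)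 (.node 0 8 (.cons 0x6508917432 .nil) (.node 0 4 (.cons 0x6504719823 .nil) (.node 7 9 (.cons 0x4321798650 .nil) (.leaf 0x4097865123 1 (.leaf 0x6879043215 1 .done)) (.node 3 5 (.cons 0x6789125340 .nil) (.node 5 9 (.cons 0x6875904321 .nil) (.leaf 0x8950432176 2 .done) .done) .done)) .done) .done) .done) .done)) (.leaf 0x7560912348 1 .done)) .done)) (.node 3 7 (.cons 0x4376509812 .nil) (.node 0 7 .nil (.node 4 6 (.cons 0x9812346507 (.cons 0x9078123465 (.cons 0x7098123465 .nil))) (.leaf 0x3218907564 0 .done) (.node 0 3 .nil (.node 2 9 (.cons 0x1789234560 (.cons 0x8921765430 (.cons 0x6034517892 (.cons 0x4306517892 (.cons 0x4560329871 .nil))))) .done (.node 1 3 (.cons 0x2134567890 .nil) (.node 0 2 (.cons 0x3456789021 .nil) (.node 2 8 (.cons 0x7654312890 .nil) (.leaf 0x1345670982 1 (.leaf 0x9821345670 2 .done)) .done) .done) .done)) .done)) (.node 0 7 .nil (.node 4 6 (.cons 0x2156437890 (.cons 0x9812346507 (.cons 0x9078123465 (.cons 0x8907346512 .nil)))) .done (.node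 0 3 .nil (.node 2 9 (.cons 0x1789234560 (.cons 0x8921765430 (.cons 0x6034517892 (.cons 0x4306517892 (.cons 0x4560329871 .nil))))) .done (.node 0 4 (.cons 0x9043218756 .nil) (.node 0 8 .nil (.node 6 9 (.cons 0x2347189650 (.cons 0x7123456980 .nil)) (.leaf 0x5690812347 2 (.leaf 0x2345690871 2 .done)) .done) .done) .done)) .done)) .done)) .done))) .done)) .done))) (.node 7 9 .nil tc9_3_10 .done)))
noncomputable def tc9_3_12 : T := (.node 4 8 (.cons 0x9012378456 .nil) (.node 6 9 (.cons 0x3784569012 .nil) (.node 0 7 (.cons 0x8965432170 .nil) (.node 0 8 (.cons 0x7123456980 .nil) (.node 0 3 (.cons 0x5698430712 .nil) (.node 3 5 (.cons 0x8960174532 .nil) (.leaf 0x1089673542 1 (.leaf 0x896735421 2 .done)) .done) .done) .done) (.leaf 0x123784569 1 (.node 4 9 (.cons 0x8732109456 .nil) (.node 0 4 (.cons 0x3217896540 .nil) (.node 1 4 (.cons 0x8732145690 .nil) .done .done) (.node 6 8 (.cons 0x2378654901 .nil) (.node 0 7 .nil (.node 3 6 (.cons 0x2365498710 (.cons 0x9863210745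 (.cons 0x5632498701 .nil))) .done (.node 7 9 .nil (.node 0 4 (.cons 0x3217896540 (.cons 0x9786540123 (.cons 0x5689704321 .nil))) .done .done) .done)) (.leaf 0x7321094568 1 .done)) .done)) .done))) (.node 4 9 (.cons 0x8732109456 .nil) (.node 6 9 (.cons 0x2378456901 .nil) (.node 1 9 (.cons 0x7891065423 .nil) (.leaf 0x2456019873 1 (.node 2 8 (.cons 0x5694823710 .nil) (.node 2 9 (.cons 0x1789234560 .nil) (.node 1 4 (.cons 0x3298714560 .nil) (.node 1 5 (.cons 0x6091543782 .nil) (.node 1 6 (.cons 0x1654873290 .nil) .done .done) .done) .done) (.leaf 0x1065498237 0 (.leaf 0x5437821906 2 .done))) .done)) (.node 4 6 .nil (.node 2 9 (.cons 0x1789234560 (.cons 0x5460178923 (.cons 0x5648732901 .nil))) .done (.node 0 4 (.cons 0x3217896540 .nil) (.node 1 4 (.cons 0x8732145690 .nil) .done .done) .done)) .done)) (.node 1 9 (.cons 0x7891065423 .nil) (.node 0 7 (.cons 0x8917065432 .nil) (.node 2 7 (.cons 0x8917234560 .nil) (.node 1 4 (.cons 0x3278906541 .nil) (.node 1 6 (.cons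 0x9016548732 .nil) (.node 0 4 (.cons 0x7890432165 .nil) (.node 5 7 (.cons 0x4321657890 .nil) (.leaf 0x3216578904 2 .done) .done) .done) .done) .done) .done) (.leaf 0x2456019873 1 (.node 0 7 .nil (.node 0 5 (.cons 0x6507198432 (.cons 0x6507891243 .nil)) (.node 6 9 (.cons 0x2348719650 (.cons 0x8965432170 (.cons 0x3248705691 .nil))) .done .done) (.node 0 3 (.cons 0x5678912430 .nil) (.node 1 3 (.cons 0x2134567890 .nil) (.node 3 9 (.cons 0x3987654210 .nil) (.leaf 0x4567893012 0 .done) .done) (.node 1 3 (.cons 0x2134567890 .nil) (.node 2 7 (.cons 0x3109845672 .nil) (.node 1 4 (.cons 0x3278906541 .nil) (.node 1 6 (.cons 0x7231654890 .nil) .done .done) .done) .done) .done)) .done)) .done))) .done)) .done)) (.node 0 7 .nil (.node 6 9 (.cons 0x8965432170 .nil) (.leaf 0x5698701234 2 (.leaf 0x8701234569 1 (.node 3 9 (.cons 0x3987654210 (.cons 0x6542398701 .nil)) (.node 0 8 (.cons 0x5670893421 (.cons 0x6543980712 .nil)) (.leaf 0x7123456980 0 .done) (.node 1 3 (.cons 0x2134567890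 (.cons 0x8907654312 .nil)) (.node 3 6 (.cons 0x7890123654 (.cons 0x9870123654 (.cons 0x8936701245 .nil))) .done .done) .done)) .done))) (.node 0 3 (.cons 0x9876542103 .nil) (.node 3 9 (.cons 0x3987654210 .nil) (.node 2 7 (.cons 0x8903456721 .nil) (.node 5 7 (.cons 0x8930124576 .nil) (.node 7 9 (.cons 0x8976542103 .nil) .done .done) .done) (.leaf 0x4567893012 0 .done)) (.node 3 9 (.cons 0x3987654210 .nil) (.node 2 7 (.cons 0x8932710654 .nil) (.node 4 8 (.cons 0x5673984210 .nil) (.leaf 0x6548932710 1 (.leaf 0x3984560172 1 .done)) .done) (.node 0 2 (.cons 0x3987654201 .nil) (.node 0 4 (.cons 0x6540178932 .nil) (.node 0 5 .nil (.node 1 9 (.cons 0x7891065423 (.cons 0x8912437650 (.cons 0x3421987650 .nil))) (.leaf 0x8732456019 2 (.leaf 0x4219876503 1 .done)) .done) .done) (.node 1 5 (.cons 0x1567893420 .nil) (.node 4 9 (.cons 0x5602349871 .nil) (.node 0 4 (.cons 0x6540178932 .nil) (.node 0 8 (.cons 0x9342087651 .nil) .done .done) (.leaf 0x651789432 1 .done)) (.leaf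 0x9342015678 2 (.leaf 0x8934201567 1 .done))) .done)) .done)) .done)) .done)) (.node 3 9 (.cons 0x3987654210 .nil) (.node 4 8 (.cons 0x7106548932 .nil) (.node 0 8 (.cons 0x2176543980 .nil) (.node 2 5 (.cons 0x6712543980 .nil) (.node 1 8 (.cons 0x2456739810 .nil) (.node 6 8 (.cons 0x9345217680 .nil) (.leaf 0x4523986017 2 (.leaf 0x7452398601 1 .done)) .done) (.leaf 0x8934521760 2 (.leaf 0x9806712543 1 .done))) (.node 0 7 (.cons 0x5670893421 .nil) (.node 1 8 (.cons 0x2456739810 .nil) (.node 5 7 (.cons 0x3981067542 .nil) (.node 0 4 (.cons 0x6045718932 .nil) (.node 0 2 (.cons 0x8934567120 .nil) (.node 0 3 (.cons 0x6754218930 .nil) .done .done) .done) .done) .done) .done) .done)) (.node 2 7 (.cons 0x6548932710 .nil) (.leaf 0x1723984560 2 (.node 0 7 .nil (.node 0 8 (.cons 0x5670893421 (.cons 0x6543980712 .nil)) (.node 6 9 (.cons 0x1234569870 .nil) (.leaf 0x5698701234 2 (.leaf 0x8701234569 1 (.leaf 0x7123456980 0 .done))) .done) (.node 5 7 .nil (.node 1 8 (.cons 0x2456739810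 (.cons 0x3981067542 (.cons 0x7560189324 (.cons 0x1893427560 .nil)))) .done (.node 7 9 .nil (.node 1 6 (.cons 0x9873245610 (.cons 0x8973245610 (.cons 0x8423970165 .nil))) (.node 0 8 (.cons 0x2176543980 (.cons 0x1657932480 (.cons 0x5610842793 .nil))) (.leaf 0x2456108793 1 .done) .done) .done) .done)) .done)) (.leaf 0x3984560172 1 .done))) .done)) (.node 4 6 (.cons 0x5460178932 .nil) (.node 1 6 (.cons 0x9873245610 .nil) (.node 1 4 (.cons 0x6541098732 .nil) (.node 1 9 (.cons 0x6542378910 .nil) (.node 1 3 (.cons 0x2134567890 .nil) (.node 1 5 (.cons 0x3987601542 .nil) .done .done) .done) .done) (.node 5 7 (.cons 0x4321657890 .nil) (.node 0 7 .nil (.node 0 5 (.cons 0x8934216705 (.cons 0x9870561243 .nil)) .done (.node 2 7 .nil (.node 0 3 (.cons 0x9876542103 (.cons 0x8903456721 .nil)) (.node 1 3 (.cons 0x2134567890 (.cons 0x8931067245 .nil)) .done .done) (.node 2 5 (.cons 0x5234789061 .nil) (.node 2 6 (.cons 0x4562378901 .nil) .done .done) .done)) .done)) (.node 2 5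 (.cons 0x5234789061 .nil) (.node 4 8 (.cons 0x5784612390 .nil) (.node 0 4 (.cons 0x5789324061 .nil) (.node 1 4 (.cons 0x5789324160 .nil) .done .done) (.node 0 5 (.cons 0x4239875061 .nil) (.leaf 0x9321648750 1 (.leaf 0x7846123905 2 .done)) .done)) (.node 2 6 (.cons 0x4562378901 .nil) (.node 6 8 (.cons 0x9860174523 .nil) (.node 2 9 (.cons 0x1789234560 .nil) (.node 7 9 (.cons 0x5468793210 .nil) .done .done) .done) .done) .done)) .done)) .done)) (.node 1 6 (.cons 0x9873245610 .nil) (.node 1 4 (.cons 0x6541098732 .nil) (.node 1 5 (.cons 0x3987601542 .nil) (.node 1 3 (.cons 0x2134567890 .nil) (.node 1 9 (.cons 0x6542378910 .nil) .done .done) .done) .done) (.node 6 9 .nil (.node 3 5 (.cons 0x6789354210 (.cons 0x6987453210 (.cons 0x8769354210 (.cons 0x8960174532 .nil)))) .done (.node 2 6 (.cons 0x4562378901 .nil) (.node 3 6 (.cons 0x7890123654 .nil) (.node 6 8 .nil (.node 1 4 (.cons 0x6541098732 (.cons 0x9014568732 (.cons 0x5410937862 .nil))) .done .done) .done) .done)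 .done)) .done)) .done)) (.node 0 5 (.cons 0x1243987650 .nil) (.node 5 7 (.cons 0x4239875601 .nil) (.node 7 9 .nil (.node 1 6 (.cons 0x9873245610 (.cons 0x8973245610 (.cons 0x8790561234 .nil))) (.node 0 8 (.cons 0x5612439780 .nil) (.leaf 0x1654239780 1 (.leaf 0x7801654239 2 (.leaf 0x2439780561 1 .done))) .done) .done) .done) (.leaf 0x9876501243 2 (.leaf 0x8934210567 1 .done))) .done))) .done)))
noncomputable def tc9_3_13 : T := (.node 3 7 (.cons 0x9873245601 .nil) tc9_3_12 (.node 0 2 (.cons 0x3456789021 .nil) (.node 0 4 .nil (.node 6 9 (.cons 0x5698712340 (.cons 0x3217896540 .nil)) (.node 0 3 (.cons 0x8967120345 .nil) (.node 0 5 (.cons 0x6987450123 .nil) (.leaf 0x1789650432 0 .done) (.leaf 0x6987120345 1 .done)) (.node 3 9 (.cons 0x8934567120 (.cons 0x8934021765 (.cons 0x6540178932 .nil))) (.node 2 6 (.cons 0x5401267893 (.cons 0x5406239871 .nil)) (.leaf 0x1789326540 0 (.node 1 5 (.cons 0x8934517602 (.cons 0x5178934062 .nil)) (.leaf 0x3260451789 2 (.leaf 0x9326045178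 1 .done)) .done)) .done) .done)) (.node 1 4 .nil (.node 2 7 (.cons 0x5609872341 (.cons 0x3278906541 .nil)) (.node 4 9 (.cons 0x8945601723 .nil) (.node 3 6 (.cons 0x2365498710 (.cons 0x9872104563 (.cons 0x8723654901 (.cons 0x8945632710 (.cons 0x5634098721 .nil))))) .done .done) .done) (.node 0 5 .nil (.node 1 6 (.cons 0x7890561234 .nil) (.node 2 9 (.cons 0x1789234560 (.cons 0x5432987160 .nil)) (.leaf 0x7892345061 1 (.node 0 3 (.cons 0x5430987612 .nil) (.leaf 0x5603298714 1 (.leaf 0x9230654178 1 .done)) .done)) (.leaf 0x4509876123 0 .done)) (.node 1 5 .nil (.node 0 3 (.cons 0x6789034512 (.cons 0x4309876512 .nil)) (.node 2 9 (.cons 0x1789234560 (.cons 0x8920671543 (.cons 0x4329871560 (.cons 0x4560329871 .nil)))) .done .done) (.node 0 7 .nil (.node 6 9 (.cons 0x8965432170 (.cons 0x8709651243 .nil)) (.leaf 0x5698701234 2 (.node 3 8 (.cons 0x9834567120 (.cons 0x9834567021 (.cons 0x5417069832 (.cons 0x5670983412 (.cons 0x2389654170 .nil))))) .done .done)) (.node 0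 8 (.cons 0x9802176543 .nil) (.node 0 3 .nil (.node 2 9 (.cons 0x1789234560 (.cons 0x6034517892 (.cons 0x4306517892 (.cons 0x4560329871 .nil)))) .done .done) .done) .done)) .done)) .done)) .done)) .done)) (.node 0 8 .nil (.node 6 9 (.cons 0x5432069871 (.cons 0x7123456980 .nil)) (.leaf 0x3217809654 1 (.leaf 0x2345690871 2 .done)) (.node 0 7 .nil (.node 6 9 (.cons 0x5432069871 (.cons 0x8965432170 .nil)) (.leaf 0x8701234569 1 (.node 2 9 (.cons 0x1789234560 (.cons 0x8923456071 .nil)) (.node 0 4 (.cons 0x8965407123 .nil) (.node 1 4 (.cons 0x5417896023 (.cons 0x8923417065 .nil)) .done .done) .done) .done)) (.node 0 3 .nil (.node 2 9 (.cons 0x1789234560 (.cons 0x8921765430 (.cons 0x4560329871 .nil))) (.node 6 9 (.cons 0x8709654321 (.cons 0x8967120345 (.cons 0x4569871230 .nil))) .done .done) (.node 0 4 .nil (.node 2 9 (.cons 0x8921765430 (.cons 0x5671298043 (.cons 0x5604329871 (.cons 0x8921765403 .nil)))) .done (.node 0 5 .nil (.node 1 6 (.cons 0x9871602345 (.cons 0x7890561234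 .nil)) (.leaf 0x4509876123 0 (.node 2 9 (.cons 0x8921765430 (.cons 0x8921765034 .nil)) (.leaf 0x6712980345 0 (.leaf 0x8056174329 1 .done)) .done)) .done) .done)) .done)) .done)) (.node 0 4 .nil (.node 6 9 (.cons 0x5432069871 (.cons 0x5698712340 (.cons 0x3217896540 .nil))) (.node 2 9 (.cons 0x1789234560 (.cons 0x5604329871 .nil)) (.node 3 7 (.cons 0x2173456980 (.cons 0x8045692173 (.cons 0x5698043712 (.cons 0x8965401732 .nil)))) .done .done) .done) (.node 0 5 .nil (.node 6 9 (.cons 0x5432069871 (.cons 0x8967120543 (.cons 0x4321789650 .nil))) (.node 3 6 (.cons 0x5436789021 (.cons 0x1236987450 (.cons 0x8745096321 (.cons 0x8963217450 (.cons 0x8963217405 .nil))))) .done .done) (.node 0 7 .nil (.node 6 9 (.cons 0x5432069871 (.cons 0x8965432170 (.cons 0x8965407123 .nil))) (.leaf 0x8701234569 1 .done) (.node 0 3 .nil (.node 2 9 (.cons 0x1789234560 (.cons 0x8921765430 (.cons 0x4560329871 .nil))) (.node 1 4 (.cons 0x8765092143 (.cons 0x5603417892 .nil)) .done .done) .done)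 .done)) .done)) .done)) .done))) (.node 1 4 (.cons 0x5678902143 .nil) (.node 4 9 (.cons 0x5602349871 .nil) (.node 0 4 .nil (.node 1 5 (.cons 0x3498715602 .nil) (.leaf 0x651789432 1 (.node 4 6 (.cons 0x7890215643 .nil) (.node 0 7 (.cons 0x9870215643 .nil) (.node 3 9 (.cons 0x7893465120 (.cons 0x8934021765 (.cons 0x7893210465 (.cons 0x6517893402 .nil)))) (.leaf 0x2156439870 1 .done) .done) .done) .done)) .done) (.node 4 6 (.cons 0x5649871023 .nil) (.node 2 7 .nil (.node 1 3 (.cons 0x2134567890 (.cons 0x8723109456 (.cons 0x9872310645 (.cons 0x5649872310 .nil)))) .done (.node 7 9 (.cons 0x8971432065 .nil) (.node 2 6 (.cons 0x3265498710 .nil) (.node 2 5 (.cons 0x8971432560 .nil) (.node 2 9 (.cons 0x1789234560 .nil) (.node 2 8 .nil (.node 0 3 (.cons 0x8976521430 (.cons 0x5649782301 (.cons 0x9821765430 (.cons 0x5289760341 .nil)))) .done .done) .done) .done) .done) .done) .done)) .done) .done)) (.node 4 9 (.cons 0x5602349871 .nil) (.node 0 4 .nil (.node 6 9 (.cons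 0x5698712340 (.cons 0x3217896540 .nil)) (.node 0 7 (.cons 0x8709654321 .nil) .done .done) .done) (.node 4 8 .nil (.node 1 5 (.cons 0x6517894320 (.cons 0x9021567843 (.cons 0x7651209843 .nil))) .done (.node 4 6 (.cons 0x5649871023 .nil) (.node 0 4 .nil (.node 1 6 (.cons 0x5617894320 (.cons 0x7890432165 .nil)) (.node 5 9 (.cons 0x8716594320 (.cons 0x8956712043 (.cons 0x6598712043 (.cons 0x8716594023 .nil)))) .done .done) .done) .done) .done)) .done)) .done)) .done))) (.node 3 7 (.cons 0x8901245673 .nil) (.node 4 9 (.cons 0x8732109456 .nil) (.node 0 4 .nil (.node 6 9 (.cons 0x8732109654 (.cons 0x5698712340 (.cons 0x3217896540 .nil))) (.node 0 7 (.cons 0x8965432170 .nil) (.node 3 8 (.cons 0x5670983421 (.cons 0x7104569832 .nil)) (.leaf 0x6983217045 1 (.leaf 0x1238965407 1 (.node 2 5 (.cons 0x8960174523 (.cons 0x5210476983 (.cons 0x9043876521 (.cons 0x8371256940 .nil)))) .done .done))) .done) .done) (.node 1 4 .nil (.node 2 7 (.cons 0x5609872341 (.cons 0x3278906541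 .nil)) (.node 0 2 (.cons 0x5678902143 .nil) (.node 2 9 (.cons 0x3298714560 .nil) (.node 0 3 (.cons 0x8903456721 (.cons 0x5678903412 .nil)) (.node 0 5 (.cons 0x8921765034 (.cons 0x8734129056 .nil)) .done .done) .done) .done) .done) .done) .done)) (.node 7 9 (.cons 0x8971065423 .nil) (.node 0 7 .nil (.node 6 9 (.cons 0x8732109654 (.cons 0x8965432170 .nil)) (.node 1 3 (.cons 0x2134567890 (.cons 0x8907654312 (.cons 0x8960713245 .nil))) (.node 5 8 (.cons 0x8567310942 (.cons 0x5896074231 (.cons 0x9856071342 (.cons 0x6589423170 .nil)))) (.leaf 0x7132458960 2 .done) .done) .done) .done) (.node 0 7 .nil (.node 6 9 (.cons 0x8732109654 (.cons 0x8965432170 .nil)) (.leaf 0x8701234569 1 .done) (.node 2 7 .nil (.node 0 3 (.cons 0x6549871032 (.cons 0x8903456721 .nil)) (.node 0 8 (.cons 0x3245608971 .nil) (.node 3 9 (.cons 0x4560178932 (.cons 0x8932710654 (.cons 0x5608934271 .nil))) .done .done) .done) .done) .done)) .done)) .done)) (.node 0 7 .nil (.node 6 9 (.cons 0x8965432170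 .nil) (.leaf 0x5698701234 2 (.leaf 0x8701234569 1 (.node 1 8 (.cons 0x5673421890 (.cons 0x5670981243 .nil)) (.node 1 3 (.cons 0x2134567890 (.cons 0x8907654312 .nil)) (.node 3 6 (.cons 0x7890123654 (.cons 0x9870123654 (.cons 0x5436709812 .nil))) .done .done) (.leaf 0x7096543218 1 .done)) .done))) (.node 0 4 .nil (.node 6 9 (.cons 0x8709654321 (.cons 0x5698712340 (.cons 0x3217896540 .nil))) (.node 0 3 (.cons 0x9871230456 .nil) (.node 0 5 (.cons 0x8965043712 .nil) .done (.leaf 0x1230456987 1 .done)) .done) (.node 4 9 (.cons 0x8942371065 .nil) (.node 0 5 (.cons 0x8905673421 .nil) (.node 0 3 (.cons 0x6549871032 .nil) (.node 7 9 (.cons 0x8971065423 .nil) (.node 0 2 (.cons 0x3456789021 .nil) (.node 0 8 (.cons 0x3245608971 .nil) .done .done) .done) .done) .done) .done) .done)) .done)) (.node 1 6 (.cons 0x4561098732 .nil) (.leaf 0x5423789016 2 (.node 6 9 (.cons 0x8965423710 .nil) (.node 7 9 (.cons 0x8971065423 .nil) (.node 2 9 (.cons 0x1789234560 .nil) (.node 5 7 (.cons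 0x8923457160 .nil) (.node 3 9 (.cons 0x4560178932 .nil) (.node 3 5 (.cons 0x6017892354 .nil) (.node 1 5 (.cons 0x4789601532 .nil) (.node 1 9 (.cons 0x6019874532 .nil) .done .done) .done) .done) .done) .done) .done) (.node 7 9 (.cons 0x8971065423 .nil) (.node 2 9 (.cons 0x1789234560 .nil) (.node 3 9 (.cons 0x4560178932 .nil) (.node 0 7 .nil (.node 3 8 (.cons 0x2456738901 (.cons 0x5438921670 (.cons 0x5423896071 (.cons 0x5670983421 .nil)))) .done (.node 2 7 (.cons 0x8932710654 .nil) (.node 5 7 (.cons 0x8923457160 .nil) .done .done) .done)) .done) .done) .done) .done)) (.leaf 0x987324561 1 .done))) .done))) .done)))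
noncomputable def tc9_3_14 : T := (.node 0 7 (.cons 0x8965432170 .nil) (.node 0 8 (.cons 0x7123456980 .nil) (.node 1 8 (.cons 0x7432180965 .nil) (.node 2 8 (.cons 0x5432896071 .nil) (.node 3 8 (.cons 0x9012387456 .nil) (.node 3 7 (.cons 0x9601823745 .nil) (.node 2 7 (.cons 0x4569832710 .nil) (.node 0 4 (.cons 0x1723896540 .nil) (.leaf 0x3896540172 1 (.node 4 8 (.cons 0x8473210965 .nil) .done .done)) .done) .done) .done) (.node 2 7 (.cons 0x5432718960 .nil) (.node 0 5 (.cons 0x7189605432 .nil) (.leaf 0x1896054327 2 (.leaf 0x8172345069 1 (.node 4 6 (.cons 0x3465098721 .nil) (.node 6 8 (.cons 0x5096812743 .nil) .done .done) .done))) .done) .done)) (.node 2 7 (.cons 0x5690812743 .nil) (.node 3 7 .nil (.node 0 2 (.cons 0x3456789021 (.cons 0x9021873456 (.cons 0x9817345602 .nil))) .done (.node 3 5 (.cons 0x8127435690 .nil) (.leaf 0x4356908127 2 (.leaf 0x6908127435 1 (.node 5 7 (.cons 0x4321756980 .nil) (.node 7 9 (.cons 0x6534790812 .nil) .done .done) .done))) .done))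 (.node 5 7 (.cons 0x4321756980 .nil) (.node 1 6 (.cons 0x9087432165 .nil) (.node 5 8 (.cons 0x6985432170 .nil) (.node 2 8 (.cons 0x8234570961 .nil) (.node 0 3 (.cons 0x7543096182 .nil) (.leaf 0x8169034572 2 (.leaf 0x1827543096 1 .done)) .done) (.leaf 0x2169078543 1 .done)) (.node 0 4 (.cons 0x2340987561 .nil) (.leaf 0x3216578904 2 (.leaf 0x9875612340 1 .done)) .done)) .done) .done)) .done)) (.node 0 4 .nil (.node 3 7 (.cons 0x2173456980 (.cons 0x5698043712 (.cons 0x8965401732 .nil))) .done (.node 3 7 (.cons 0x2173456980 .nil) (.node 2 7 .nil (.node 1 3 (.cons 0x2134567890 (.cons 0x9087213456 (.cons 0x9806543172 .nil))) (.leaf 0x2134569087 2 .done) (.node 0 3 .nil (.node 1 4 (.cons 0x3278906541 (.cons 0x8960327145 (.cons 0x6541278903 .nil))) .done (.node 0 5 .nil (.node 1 4 (.cons 0x3278906541 (.cons 0x8960541723 (.cons 0x6509873412 .nil))) .done .done) .done)) .done)) (.node 1 8 (.cons 0x8109654732 .nil) (.node 0 5 (.cons 0x7189605432 .nil) (.node 2 7 (.cons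 0x5432718960 .nil) (.leaf 0x1896054327 2 (.node 5 7 (.cons 0x2345718960 .nil) .done .done)) .done) (.node 5 7 (.cons 0x8123475690 .nil) (.leaf 0x6908123475 1 .done) .done)) .done)) .done)) .done)) (.node 0 8 (.cons 0x7123456980 .nil) (.node 4 6 .nil (.node 5 7 (.cons 0x3217546980 .nil) (.leaf 0x8901234657 1 (.node 5 9 (.cons 0x1234659870 .nil) (.leaf 0x8701234659 1 (.node 0 3 (.cons 0x5430896712 (.cons 0x8956430712 .nil)) (.node 0 5 (.cons 0x3450896712 .nil) (.leaf 0x4321769805 2 .done) .done) (.leaf 0x7123465980 0 .done))) .done)) (.node 0 5 (.cons 0x9870564321 .nil) (.node 4 8 (.cons 0x5698432170 .nil) (.leaf 0x1705698432 1 (.leaf 0x7123489650 2 .done)) (.leaf 0x4321769805 2 (.node 1 5 (.cons 0x7089643215 .nil) (.node 4 8 (.cons 0x5698432170 .nil) (.leaf 0x1569078432 1 (.leaf 0x5690784321 2 .done)) (.node 5 9 (.cons 0x1234659870 .nil) (.leaf 0x8076432159 1 (.node 5 7 (.cons 0x5708964321 .nil) (.node 3 7 (.cons 0x2375469801 .nil) (.node 7 9 (.cons 0x6089715432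 .nil) .done .done) .done) .done)) .done)) .done))) .done)) (.node 1 8 (.cons 0x8123470965 .nil) (.node 3 7 (.cons 0x2173456980 .nil) (.node 2 7 (.cons 0x5432718960 .nil) (.node 5 7 (.cons 0x2345718960 .nil) (.node 7 9 .nil (.node 0 2 (.cons 0x6981754320 (.cons 0x8021796543 .nil)) (.leaf 0x1734569802 2 (.node 0 3 (.cons 0x8967120345 (.cons 0x8034569712 (.cons 0x6543089712 .nil))) .done .done)) .done) .done) .done) (.node 5 7 (.cons 0x2345718960 .nil) (.node 2 7 (.cons 0x5432718960 .nil) (.node 0 2 (.cons 0x3456789021 .nil) (.node 7 9 (.cons 0x8021796543 .nil) .done (.leaf 0x4569802173 1 .done)) .done) .done) .done)) (.node 5 7 (.cons 0x8123475690 .nil) (.node 3 7 (.cons 0x2173456980 .nil) (.node 2 7 (.cons 0x5690812743 .nil) (.node 7 9 .nil (.node 0 5 (.cons 0x6980543712 (.cons 0x6509781234 (.cons 0x8123479056 .nil))) .done .done) .done) .done) (.leaf 0x6908123475 1 .done)) .done)) .done)) .done)) (.node 2 9 (.cons 0x1789234560 .nil) (.node 3 9 (.cons 0x4560178932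 .nil) (.node 1 9 .nil (.node 0 8 (.cons 0x3456712980 .nil) (.leaf 0x4329178065 1 (.leaf 0x3291780654 2 (.node 1 8 (.cons 0x5609187432 .nil) (.node 2 5 (.cons 0x3452981760 (.cons 0x5234781960 (.cons 0x6087193452 (.cons 0x6091874523 .nil)))) .done .done) .done))) (.node 3 7 (.cons 0x8923710654 .nil) (.node 0 7 (.cons 0x8923456071 .nil) (.node 2 7 .nil (.node 0 3 (.cons 0x8921765430 (.cons 0x8721903456 (.cons 0x8903456721 .nil))) .done (.node 1 3 (.cons 0x2134567890 .nil) (.node 0 3 (.cons 0x8921765430 .nil) (.node 0 4 (.cons 0x5698712340 .nil) (.node 0 5 (.cons 0x4321789650 .nil) (.leaf 0x1789650432 1 .done) .done) .done) (.node 1 4 (.cons 0x3278906541 .nil) (.leaf 0x987231456 1 .done) .done)) .done)) .done) (.node 5 7 .nil (.node 4 6 (.cons 0x5460178932 (.cons 0x6457893210 .nil)) (.leaf 0x9875643210 2 .done) (.node 7 9 .nil (.node 3 8 (.cons 0x5690123874 (.cons 0x8329745601 .nil)) (.node 4 6 (.cons 0x5460178932 (.cons 0x8321097465 .nil)) (.node 5 9 (.cons 0x9564783210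 .nil) (.leaf 0x3874659012 0 .done) .done) .done) .done) .done)) .done)) .done)) (.node 0 7 (.cons 0x8923456071 .nil) (.node 3 7 (.cons 0x8923710654 .nil) (.node 3 8 (.cons 0x5690123874 .nil) (.node 0 4 (.cons 0x5698712340 .nil) (.leaf 0x8376540129 2 (.node 0 8 (.cons 0x3456712980 .nil) (.node 0 2 (.cons 0x3456789021 .nil) (.node 0 3 (.cons 0x8921765430 .nil) (.leaf 0x6712980345 0 .done) .done) .done) .done)) (.node 2 7 .nil (.node 0 3 (.cons 0x8921765430 (.cons 0x8903456721 .nil)) (.node 1 6 (.cons 0x8745610932 (.cons 0x8723901654 .nil)) (.leaf 0x4561278903 1 .done) .done) (.node 7 9 .nil (.node 6 8 (.cons 0x5432986071 (.cons 0x5479238601 .nil)) (.node 0 3 (.cons 0x8921765430 (.cons 0x4568790321 (.cons 0x4568971230 .nil))) .done .done) .done) .done)) .done)) .done) (.node 3 7 (.cons 0x8923710654 .nil) (.node 4 6 (.cons 0x8923710645 .nil) (.node 2 4 (.cons 0x6542398710 .nil) (.node 0 2 (.cons 0x3456789021 .nil) (.node 0 3 (.cons 0x8921765430 .nil) (.node 0 5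 (.cons 0x4321789650 .nil) (.leaf 0x8732105469 1 .done) .done) .done) .done) (.node 1 6 (.cons 0x8745610932 .nil) (.node 2 7 (.cons 0x8723901654 .nil) (.node 2 6 (.cons 0x4562398710 .nil) (.node 3 6 (.cons 0x7890123654 .nil) .done .done) .done) .done) .done)) .done) .done)) .done)) (.node 4 6 (.cons 0x5460178923 .nil) (.node 2 4 (.cons 0x9871065423 .nil) (.node 6 8 .nil (.node 3 7 (.cons 0x8901245673 (.cons 0x5421098673 (.cons 0x9865423710 .nil))) (.leaf 0x8654237109 1 .done) (.node 3 9 (.cons 0x4560178932 .nil) (.node 3 6 (.cons 0x7890123654 .nil) (.node 2 6 .nil (.node 0 3 (.cons 0x5467892103 (.cons 0x5430987621 .nil)) (.leaf 0x6217890345 1 .done) .done) .done) (.node 2 6 (.cons 0x4562398710 .nil) (.node 1 6 (.cons 0x5432987160 .nil) (.node 3 6 (.cons 0x7890123654 .nil) .done .done) .done) .done)) .done)) .done) (.node 1 6 (.cons 0x5432987160 .nil) (.node 3 6 (.cons 0x7890123654 .nil) (.node 2 4 (.cons 0x9871065423 .nil) (.node 3 9 (.cons 0x3987654210 .nil)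 (.node 1 9 (.cons 0x7891065423 .nil) (.node 1 4 (.cons 0x7892360145 .nil) (.node 1 3 (.cons 0x2134567890 .nil) (.node 1 8 (.cons 0x7816092345 .nil) .done .done) .done) .done) (.node 2 6 (.cons 0x4562398710 .nil) (.node 2 8 (.cons 0x6547823901 .nil) (.leaf 0x932874561 0 .done) .done) .done)) .done) .done) .done) .done)) (.node 0 4 (.cons 0x5698712340 .nil) (.node 2 4 (.cons 0x9871065423 .nil) (.node 4 6 .nil (.node 0 3 (.cons 0x4560329871 (.cons 0x5460329871 .nil)) (.node 0 5 (.cons 0x4321789650 .nil) (.node 0 2 (.cons 0x3456789021 (.cons 0x5021789643 (.cons 0x9871205643 .nil))) .done .done) (.node 1 5 (.cons 0x9876512430 (.cons 0x7890346512 .nil)) (.leaf 0x2987154603 2 (.leaf 0x9230645178 1 .done)) .done)) .done) (.node 1 4 (.cons 0x3298714560 .nil) (.node 2 7 .nil (.node 1 8 (.cons 0x3290654781 (.cons 0x5672189043 .nil)) (.node 1 3 (.cons 0x2134567890 (.cons 0x8729065413 (.cons 0x5431890672 (.cons 0x8904312765 .nil)))) .done .done) (.node 0 2 (.cons 0x3456789021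 .nil) (.node 0 5 (.cons 0x4321789650 .nil) (.node 4 9 (.cons 0x8712056943 .nil) (.node 2 8 (.cons 0x3496502871 .nil) (.node 4 8 (.cons 0x5694871023 .nil) .done .done) .done) .done) .done) .done)) .done) .done)) (.node 1 4 (.cons 0x3298714560 .nil) (.node 0 3 (.cons 0x4560329871 .nil) (.leaf 0x5603298714 1 (.node 2 4 (.cons 0x9871065423 .nil) (.node 3 9 (.cons 0x3987654210 .nil) (.node 4 6 (.cons 0x5460178932 .nil) .done (.leaf 0x4567893012 0 .done)) .done) (.leaf 0x9230654178 1 .done))) (.node 1 5 (.cons 0x8743215690 .nil) (.node 0 7 (.cons 0x8709651234 .nil) (.node 1 6 (.cons 0x5406178923 .nil) (.node 0 8 (.cons 0x5690874321 .nil) (.node 0 5 (.cons 0x4321789650 .nil) (.node 5 8 (.cons 0x1234785690 .nil) (.leaf 0x7856901234 2 (.leaf 0x3216589074 2 (.leaf 0x9850432176 2 .done))) .done) .done) .done) .done) (.node 1 6 (.cons 0x5406178923 .nil) (.node 0 7 .nil (.node 2 5 (.cons 0x5234069871 (.cons 0x3412569870 (.cons 0x8709652143 .nil))) .done (.node 2 7 (.cons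 0x8960432715 .nil) (.node 3 7 (.cons 0x8923715406 .nil) (.node 7 9 .nil (.node 2 8 (.cons 0x6514370982 (.cons 0x4328970651 (.cons 0x4328971560 .nil))) .done .done) .done) .done) .done)) .done) .done)) .done)) (.node 0 5 (.cons 0x4321789650 .nil) (.leaf 0x1789650432 1 (.node 0 8 (.cons 0x5690874321 .nil) (.node 1 5 (.cons 0x8743215690 .nil) (.node 0 7 (.cons 0x8709651234 .nil) (.node 0 2 (.cons 0x3456789021 .nil) (.node 0 3 (.cons 0x4560329871 .nil) .done .done) .done) (.leaf 0x4780965123 1 .done)) (.node 0 7 (.cons 0x8965071234 .nil) (.node 0 2 (.cons 0x3456789021 .nil) (.node 0 3 (.cons 0x4560329871 .nil) .done .done) .done) .done)) .done)) .done))) .done))) (.node 2 9 (.cons 0x1789234560 .nil) (.node 0 7 (.cons 0x8923456071 .nil) (.node 0 8 (.cons 0x3456712980 .nil) (.node 0 2 (.cons 0x3456789021 .nil) (.node 0 3 (.cons 0x4569871230 .nil) (.leaf 0x6712980345 0 .done) .done) (.node 0 4 (.cons 0x3217896540 .nil) (.node 0 5 .nil (.node 1 8 (.cons 0x7189234560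 (.cons 0x3450671892 (.cons 0x8129056743 .nil))) .done (.node 0 2 (.cons 0x3456789021 .nil) (.node 0 3 (.cons 0x4569871230 .nil) .done .done) .done)) .done) .done)) (.node 0 8 (.cons 0x3456712980 .nil) (.node 0 2 (.cons 0x3456789021 .nil) (.node 0 3 (.cons 0x4569871230 .nil) (.node 0 4 (.cons 0x3217896540 .nil) (.node 0 5 (.cons 0x6712980543 .nil) .done .done) .done) .done) (.node 1 8 (.cons 0x7189234560 .nil) (.node 0 5 (.cons 0x3450671892 .nil) (.node 0 2 (.cons 0x3456789021 .nil) (.node 0 3 (.cons 0x4569871230 .nil) (.node 0 4 (.cons 0x3217896540 .nil) .done .done) .done) (.node 4 8 (.cons 0x4896507123 .nil) (.node 0 4 (.cons 0x3217896540 .nil) (.node 2 4 (.cons 0x7189605423 .nil) .done .done) (.leaf 0x5071234896 0 .done)) .done)) (.node 3 7 (.cons 0x6543712980 .nil) (.node 2 7 (.cons 0x3456089271 .nil) (.node 5 7 (.cons 0x4329817560 .nil) (.node 7 9 .nil (.node 0 5 (.cons 0x8129056743 (.cons 0x6509781234 (.cons 0x8123479056 .nil))) .done .done) .done) .done)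 (.node 6 8 (.cons 0x4568923710 .nil) (.leaf 0x7329018654 0 .done) .done)) .done)) .done)) .done)) (.node 4 6 (.cons 0x5460178923 .nil) (.node 2 4 (.cons 0x9871065423 .nil) (.node 6 8 .nil (.node 3 7 (.cons 0x8901245673 (.cons 0x5421098673 (.cons 0x9865423710 .nil))) (.leaf 0x8654237109 1 .done) (.node 3 6 (.cons 0x7890123654 .nil) (.node 2 6 .nil (.node 0 3 (.cons 0x4569871230 (.cons 0x5430987621 .nil)) (.node 1 8 (.cons 0x5436781290 (.cons 0x7621890345 (.cons 0x7189260345 .nil))) .done (.leaf 0x6217890345 1 .done)) .done) (.node 1 6 (.cons 0x5432987160 .nil) (.node 2 6 .nil (.node 1 3 (.cons 0x2134567890 (.cons 0x5431267890 .nil)) (.node 3 9 (.cons 0x4560178932 (.cons 0x4562398710 .nil)) .done .done) .done) .done) .done)) .done)) .done) (.node 2 4 (.cons 0x9871065423 .nil) (.node 1 6 (.cons 0x5432987160 .nil) (.node 3 6 (.cons 0x7890123654 .nil) (.node 6 8 .nil (.node 5 9 (.cons 0x8745923601 (.cons 0x8601745923 (.cons 0x3687459210 .nil))) (.leaf 0x7865901234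 0 .done) (.node 2 6 .nil (.node 1 5 (.cons 0x7892360154 (.cons 0x3451789260 .nil)) (.node 0 7 (.cons 0x8921543670 (.cons 0x8907621543 .nil)) (.node 4 8 (.cons 0x5129843670 (.cons 0x5126709843 (.cons 0x5170629843 (.cons 0x9843265170 .nil)))) .done .done) .done) .done) .done)) (.node 2 6 .nil (.node 1 3 (.cons 0x2134567890 (.cons 0x5431267890 .nil)) (.node 3 9 (.cons 0x3987654210 (.cons 0x4562398710 .nil)) .done .done) .done) .done)) (.node 6 8 .nil (.node 1 5 (.cons 0x8743290615 (.cons 0x9234517860 (.cons 0x7154329860 .nil))) (.node 5 9 (.cons 0x8743216590 (.cons 0x8601745923 .nil)) (.leaf 0x7865901234 0 .done) .done) (.node 3 6 (.cons 0x7890123654 .nil) (.node 2 6 .nil (.node 0 3 (.cons 0x4569871230 (.cons 0x5430987621 .nil)) (.node 1 3 (.cons 0x2134567890 (.cons 0x5431267890 .nil)) .done (.leaf 0x6217890345 1 .done)) .done) .done) .done)) .done)) .done) .done)) (.node 0 4 (.cons 0x3217896540 .nil) (.node 0 2 (.cons 0x3456789021 .nil) (.node 0 5 (.cons 0x8921765043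 .nil) (.node 6 8 (.cons 0x3478650921 .nil) (.node 4 6 .nil (.node 3 8 (.cons 0x5671298340 (.cons 0x9645021783 (.cons 0x9012387465 (.cons 0x5647832901 .nil)))) .done .done) (.node 7 9 (.cons 0x5689712340 .nil) (.leaf 0x1798650432 2 (.leaf 0x8650432179 1 .done)) .done)) .done) (.node 0 7 (.cons 0x8965407123 .nil) (.node 2 4 (.cons 0x9871065423 .nil) (.node 4 6 .nil (.node 3 8 (.cons 0x5671298340 (.cons 0x9012387465 (.cons 0x5647832901 .nil))) (.leaf 0x6983217045 1 (.leaf 0x1238965407 1 .done)) .done) .done) .done) .done)) (.node 1 5 (.cons 0x4329871560 .nil) (.leaf 0x3298715604 1 (.node 1 4 .nil (.node 3 5 (.cons 0x6987123540 (.cons 0x7892356014 (.cons 0x8765341290 (.cons 0x8741092356 .nil)))) .done (.node 0 7 .nil (.node 3 5 (.cons 0x6987123540 (.cons 0x6534129870 (.cons 0x8709214356 .nil))) (.node 2 6 (.cons 0x8926715340 (.cons 0x1435629870 (.cons 0x8709265341 (.cons 0x8926534170 .nil)))) .done .done) (.node 0 8 (.cons 0x8092156743 .nil) (.node 0 5 .nil (.node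 1 6 (.cons 0x5612908743 (.cons 0x7890561234 .nil)) (.leaf 0x3298716504 1 .done) (.node 0 2 (.cons 0x3456789021 .nil) (.node 0 3 (.cons 0x4569871230 .nil) .done .done) .done)) .done) .done)) .done)) (.node 1 4 .nil (.node 0 8 (.cons 0x6512908743 (.cons 0x5690874123 .nil)) (.node 3 5 (.cons 0x6987123540 (.cons 0x3569214780 (.cons 0x8765341290 (.cons 0x7143560892 (.cons 0x8741092356 .nil))))) .done .done) (.node 2 4 (.cons 0x3429871560 .nil) (.node 4 6 .nil (.node 3 7 (.cons 0x9873245601 (.cons 0x5106429873 (.cons 0x2156437890 (.cons 0x3789246510 .nil)))) .done .done) .done) .done)) .done))) (.node 0 8 .nil (.node 1 5 (.cons 0x4329871560 (.cons 0x8092156743 (.cons 0x6512908743 .nil))) (.node 3 9 (.cons 0x4560178932 (.cons 0x2176543980 (.cons 0x6780934512 (.cons 0x6517804392 .nil)))) .done .done) (.node 0 2 (.cons 0x3456789021 .nil) (.node 0 3 (.cons 0x4569871230 .nil) (.node 0 5 (.cons 0x8921765034 .nil) .done (.node 0 7 .nil (.node 1 4 (.cons 0x5678903412 (.cons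 0x8923417065 .nil)) (.node 3 6 (.cons 0x5478096321 (.cons 0x5412369870 (.cons 0x8709632145 (.cons 0x8921704365 .nil)))) .done .done) .done) .done)) (.node 0 5 .nil (.node 1 6 (.cons 0x5478096123 (.cons 0x7890561234 .nil)) (.leaf 0x4509876123 0 (.node 3 9 (.cons 0x8934567120 (.cons 0x8054712396 (.cons 0x8934502176 (.cons 0x8054716932 .nil)))) .done .done)) (.node 0 3 (.cons 0x4569871230 .nil) (.node 0 7 .nil (.node 3 8 (.cons 0x9834567120 (.cons 0x9834567021 (.cons 0x4569832071 .nil))) .done .done) .done) .done)) .done)) (.node 6 8 .nil (.node 1 5 (.cons 0x4329871560 (.cons 0x7865129043 (.cons 0x9086512347 (.cons 0x3478651290 .nil)))) .done (.node 0 7 .nil (.node 1 4 (.cons 0x5690874123 (.cons 0x8923417065 .nil)) (.node 0 5 (.cons 0x9687054123 (.cons 0x5076892143 .nil)) .done .done) (.node 4 6 .nil (.node 3 5 (.cons 0x4780965321 (.cons 0x1235469870 (.cons 0x8709645321 (.cons 0x8964532170 (.cons 0x4653298710 .nil))))) .done (.node 1 4 (.cons 0x5690874123 .nil)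 (.node 7 9 (.cons 0x5643217980 .nil) (.node 4 9 .nil (.node 0 3 (.cons 0x4569871230 (.cons 0x5496870321 (.cons 0x8032174965 .nil))) .done .done) .done) .done) .done)) .done)) .done)) .done))) .done))) .done))) .done)))
noncomputable def uc9_3_3 : T := (.node 6 9 (.cons 0x8745690123 .nil) tc9_3_14 (.node 2 4 (.cons 0x9871065423 .nil) tc9_3_13 (.node 5 7 .nil tc9_3_11 .done)))
theorem sub_c9_3_3 : root 9 refs9_3 [] 0x700000008706000000006030000800030500002000504000000004010000000010300000000302000800002018002000010 0xfe7fff3ffeb7ffd3ffcfffedfff5fff3fef9fef9 9 4 7 (.cons 0x6547890123 .nil) uc9_3_3 = true := by decide +kernel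
noncomputable def tc9_3_15 : T := (.node 1 3 (.cons 0x2134567890 (.cons 0x8907654312 .nil)) (.node 6 9 (.cons 0x8967021345 (.cons 0x4569870132 .nil)) (.leaf 0x5698701234 2 (.node 2 9 (.cons 0x8921345670 .nil) (.leaf 0x3129870654 1 (.node 1 8 (.cons 0x4569078123 .nil) (.node 0 3 (.cons 0x9034567812 (.cons 0x7654309812 .nil)) (.node 0 4 (.cons 0x5678129043 (.cons 0x8921340765 .nil)) (.node 0 8 (.cons 0x9807654312 .nil) .done .done) .done) (.node 4 6 (.cons 0x5643217890 (.cons 0x5469078123 (.cons 0x8907123465 (.cons 0x5469870231 .nil)))) (.node 0 5 (.cons 0x9645078123 (.cons 0x7054698123 (.cons 0x3465078921 .nil))) (.node 1 5 (.cons 0x3467892051 (.cons 0x3467051892 (.cons 0x3465129870 .nil))) (.leaf 0x2051789643 1 .done) .done) .done) (.leaf 0x7096543218 1 .done))) .done)) .done)) (.node 1 5 (.cons 0x6789021543 (.cons 0x9870651234 .nil)) (.node 3 8 (.cons 0x9834512076 (.cons 0x6709834512 (.cons 0x4389076512 .nil))) (.node 4 6 (.cons 0x5643217890 (.cons 0x8907123465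 (.cons 0x5176438902 .nil))) (.node 5 9 (.cons 0x9546783102 (.cons 0x9546783120 .nil)) (.leaf 0x6598701234 2 (.leaf 0x4607895123 0 .done)) (.node 5 9 (.cons 0x8712346590 (.cons 0x2178346590 (.cons 0x8346715902 (.cons 0x3876459021 .nil)))) .done .done)) (.node 1 6 (.cons 0x7615438902 (.cons 0x9834516702 .nil)) .done .done)) (.node 3 6 (.cons 0x5436789021 (.cons 0x9870123654 .nil)) (.node 1 8 (.cons 0x9812076345 (.cons 0x5436709812 .nil)) (.node 6 9 (.cons 0x8769021345 (.cons 0x5431876902 .nil)) (.node 0 3 (.cons 0x4569870321 .nil) (.node 4 7 (.cons 0x7451896302 (.cons 0x3218745690 (.cons 0x2318745690 .nil))) (.leaf 0x3218907456 1 .done) .done) .done) .done) (.node 2 4 (.cons 0x2436517890 (.cons 0x9870651243 (.cons 0x8907156342 .nil))) (.node 4 6 (.cons 0x5643217890 (.cons 0x8907123465 .nil)) (.node 6 8 (.cons 0x9024368715 .nil) (.node 1 9 (.cons 0x7891023645 (.cons 0x5423687091 .nil)) (.leaf 0x6324519078 2 .done) .done) .done) .done) .done)) .done)) (.node 1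 9 (.cons 0x6543219870 .nil) (.leaf 0x3219870654 1 (.node 3 8 (.cons 0x2198345670 .nil) (.node 1 5 (.cons 0x6789021543 (.cons 0x9870651234 (.cons 0x9021543876 .nil))) (.node 2 4 (.cons 0x7890651243 (.cons 0x9870651243 (.cons 0x9012456783 (.cons 0x5671243890 .nil)))) .done .done) (.leaf 0x9120765438 1 (.leaf 0x4567021983 2 .done))) (.node 2 6 (.cons 0x5431267890 (.cons 0x3456219870 (.cons 0x8709126543 (.cons 0x8907621345 .nil)))) (.node 0 3 (.cons 0x6543078912 .nil) (.leaf 0x1987034562 2 (.leaf 0x9126543078 1 (.node 3 5 (.cons 0x4531267890 (.cons 0x4356078912 (.cons 0x8907621354 .nil))) (.node 1 5 (.cons 0x4513098762 (.cons 0x9870651234 .nil)) (.node 3 8 (.cons 0x9834512076 (.cons 0x4389076512 .nil)) (.leaf 0x9126543870 1 .done) .done) .done) .done))) .done) .done))) .done))) (.node 6 9 (.cons 0x8709654321 .nil) (.node 1 8 (.cons 0x9078123456 .nil) (.node 1 6 .nil (.node 5 8 (.cons 0x9670218543 (.cons 0x9618543207 .nil)) (.leaf 0x1690785432 2 (.leaf 0x2169078543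 1 .done)) (.node 0 8 (.cons 0x9654321807 .nil) (.node 0 5 (.cons 0x7698120543 .nil) (.node 4 6 (.cons 0x5643217890 .nil) (.leaf 0x3217890564 0 (.node 0 4 .nil (.node 5 7 (.cons 0x3457698120 (.cons 0x8965712340 (.cons 0x5718964023 .nil))) (.leaf 0x6980432175 1 .done) .done) .done)) (.node 0 3 (.cons 0x7698120345 .nil) (.node 0 4 (.cons 0x7189650432 .nil) .done .done) .done)) (.node 0 3 (.cons 0x7698120345 .nil) (.node 1 3 (.cons 0x2134567890 .nil) (.node 1 9 (.cons 0x7809165432 .nil) (.node 6 8 (.cons 0x9078654321 .nil) (.leaf 0x786543219 1 .done) .done) .done) .done) .done)) .done)) (.node 1 9 (.cons 0x8709123456 .nil) (.node 6 8 (.cons 0x9078654321 .nil) (.leaf 0x4568709123 1 (.node 3 6 (.cons 0x5436789021 .nil) (.node 4 6 (.cons 0x5643217890 .nil) (.node 1 6 .nil (.node 0 5 (.cons 0x9876345021 (.cons 0x7891634502 .nil)) (.leaf 0x4321678905 2 (.node 0 8 (.cons 0x9087123465 .nil) .done .done)) .done) .done) (.node 4 6 (.cons 0x5643217890 .nil) (.node 1 6 .nil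 (.node 2 6 (.cons 0x8709126543 .nil) (.node 2 9 (.cons 0x5436781290 .nil) (.leaf 0x7092345618 1 .done) .done) .done) .done) .done)) (.leaf 0x786543219 1 .done))) .done) (.leaf 0x4569078123 1 .done))) (.node 6 8 (.cons 0x9078654321 .nil) (.node 1 9 (.cons 0x9123456870 .nil) (.node 1 6 .nil (.node 2 8 (.cons 0x8219076543 .nil) (.leaf 0x6190782345 2 (.leaf 0x5619078234 1 .done)) (.node 3 6 (.cons 0x5436789021 .nil) (.node 4 6 (.cons 0x5643217890 .nil) .done .done) .done)) (.node 1 8 (.cons 0x2345690781 .nil) (.node 7 9 .nil (.node 3 6 (.cons 0x5436789021 (.cons 0x8790123654 (.cons 0x9702186345 .nil))) .done (.node 2 7 .nil (.node 1 3 (.cons 0x2134567890 (.cons 0x4569872310 (.cons 0x2781345690 (.cons 0x8134569072 .nil)))) .done (.node 0 8 .nil (.node 3 6 (.cons 0x5436789021 (.cons 0x5436780912 (.cons 0x5436721980 .nil))) .done (.node 0 3 (.cons 0x4569872301 .nil) (.node 0 5 (.cons 0x2345078691 .nil) (.leaf 0x8705432196 1 .done) .done) .done)) .done)) .done)) .done)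 (.leaf 0x4568709123 1 .done))) (.node 1 9 (.cons 0x4568709123 .nil) (.leaf 0x2190786543 2 (.node 1 8 (.cons 0x2345690781 .nil) (.node 2 8 .nil (.node 1 3 (.cons 0x2134567890 (.cons 0x7823109654 (.cons 0x7654312890 .nil))) .done (.node 1 3 (.cons 0x2134567890 .nil) (.node 1 6 (.cons 0x9618702345 .nil) (.node 1 4 (.cons 0x5690782341 .nil) (.node 1 5 (.cons 0x4328709651 .nil) .done .done) .done) (.node 1 6 (.cons 0x9618702345 .nil) (.node 1 4 (.cons 0x5690782341 .nil) (.node 1 5 (.cons 0x4328709651 .nil) .done .done) .done) .done)) .done)) (.node 3 9 (.cons 0x4568709321 .nil) (.node 3 6 (.cons 0x5436789021 .nil) (.node 1 3 (.cons 0x2134567890 .nil) (.node 0 8 (.cons 0x9087654312 .nil) (.node 0 3 .nil (.node 2 7 (.cons 0x2781345690 (.cons 0x4569872301 (.cons 0x4569031872 .nil))) .done .done) .done) .done) (.node 1 3 (.cons 0x2134567890 .nil) (.node 0 8 (.cons 0x5436780912 .nil) (.node 0 3 .nil (.node 4 9 (.cons 0x5496870231 (.cons 0x9456870312 .nil)) .done .done)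 .done) .done) .done)) (.node 0 8 .nil (.node 1 3 (.cons 0x2134567890 (.cons 0x9087654312 .nil)) (.node 2 9 (.cons 0x2965431870 (.cons 0x7654312980 .nil)) (.leaf 0x6543129807 1 .done) (.node 1 4 (.cons 0x9078654123 (.cons 0x5678093412 .nil)) (.node 1 5 (.cons 0x6789021543 (.cons 0x5143967802 .nil)) .done .done) .done)) (.node 5 8 .nil (.node 1 4 (.cons 0x9078654123 (.cons 0x5870691432 (.cons 0x2341785690 (.cons 0x8567093412 .nil)))) .done (.node 0 3 .nil (.node 1 4 (.cons 0x5870691432 (.cons 0x7896541032 (.cons 0x9032145687 (.cons 0x5896714302 .nil)))) .done (.node 7 9 (.cons 0x6798543021 .nil) (.node 0 4 (.cons 0x6589712304 .nil) (.node 0 5 (.cons 0x6509871234 .nil) .done .done) .done) .done)) .done)) .done)) .done)) .done)) (.leaf 0x786543219 1 .done))) .done)) (.node 1 8 (.cons 0x4569078123 .nil) (.leaf 0x2345690781 2 (.node 6 8 (.cons 0x9078654321 .nil) (.node 1 9 (.cons 0x9123456870 .nil) (.node 1 6 .nil (.node 2 8 (.cons 0x8219076543 .nil) (.leaf 0x6190782345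 2 (.leaf 0x5619078234 1 .done)) (.node 1 3 (.cons 0x2134567890 .nil) (.node 1 4 (.cons 0x8709654123 .nil) (.node 1 5 (.cons 0x6789021543 .nil) .done .done) .done) .done)) (.leaf 0x4568709123 1 .done)) (.node 1 9 (.cons 0x2345687091 .nil) (.node 2 9 .nil (.node 1 3 (.cons 0x2134567890 (.cons 0x9231078654 (.cons 0x8765431290 .nil))) .done (.node 2 8 (.cons 0x8219076543 .nil) (.node 3 8 (.cons 0x9128345670 .nil) (.leaf 0x6709128345 1 .done) (.node 2 7 (.cons 0x8654327091 .nil) (.node 0 8 (.cons 0x3456721980 .nil) (.node 3 8 (.cons 0x4569078321 .nil) (.leaf 0x1965438072 2 (.node 5 8 (.cons 0x4385670912 .nil) (.node 4 8 (.cons 0x9123485607 .nil) .done .done) .done)) .done) .done) .done)) .done)) (.node 3 8 (.cons 0x4569078321 .nil) (.node 4 8 .nil (.node 0 3 (.cons 0x7038456912 .nil) (.leaf 0x6548703219 1 (.leaf 0x9654871230 1 .done)) (.node 0 8 .nil (.node 1 3 (.cons 0x2134567890 (.cons 0x9087654312 .nil)) (.node 2 6 (.cons 0x9126543870 (.cons 0x7809126543 (.cons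 0x9126543807 .nil))) (.node 5 9 (.cons 0x4387065912 (.cons 0x9562170843 (.cons 0x7620895431 .nil))) .done .done) .done) .done) .done)) (.node 0 8 .nil (.node 1 3 (.cons 0x2134567890 (.cons 0x9087654312 .nil)) (.node 3 5 (.cons 0x4531968702 (.cons 0x9678021354 (.cons 0x7698021354 .nil))) (.node 2 4 (.cons 0x5420786913 (.cons 0x9678024531 (.cons 0x7698024531 .nil))) (.leaf 0x8024531967 1 .done) .done) (.node 2 7 (.cons 0x8654319072 (.cons 0x9134568072 .nil)) (.node 4 7 (.cons 0x1327456890 (.cons 0x5476980213 .nil)) (.leaf 0x8901327456 1 (.leaf 0x9865472310 2 .done)) .done) .done)) (.node 4 8 .nil (.node 3 6 (.cons 0x5436789021 (.cons 0x5487021963 (.cons 0x9012365487 (.cons 0x7096321845 .nil)))) .done (.node 4 6 (.cons 0x5643217890 .nil) (.node 1 4 (.cons 0x8709654123 .nil) (.node 2 4 .nil (.node 1 3 (.cons 0x2134567890 (.cons 0x5420786913 (.cons 0x7809654213 .nil))) .done .done) .done) (.node 5 8 (.cons 0x7123465890 .nil) (.leaf 0x1234658907 1 .done) .done))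 .done)) .done)) .done)) .done)) .done)) (.leaf 0x7096543218 1 .done))) .done))) (.node 0 8 .nil (.node 1 3 (.cons 0x2134567890 (.cons 0x9087654312 .nil)) (.node 6 9 (.cons 0x4569870132 (.cons 0x7698021345 .nil)) (.node 4 7 (.cons 0x5609874321 (.cons 0x9654780132 .nil)) (.node 2 4 (.cons 0x7896542310 (.cons 0x9654231087 (.cons 0x5698017423 .nil))) .done (.node 2 5 (.cons 0x6987452310 (.cons 0x9678025431 (.cons 0x7698025431 .nil))) (.node 1 4 (.cons 0x9870652341 (.cons 0x9652341780 (.cons 0x7143256980 .nil))) (.leaf 0x7809652341 1 .done) (.node 0 3 (.cons 0x2547698031 .nil) (.node 1 6 (.cons 0x8745230961 (.cons 0x9613254780 (.cons 0x7452316980 .nil))) .done .done) .done)) .done)) (.node 5 9 (.cons 0x6789543120 .nil) (.leaf 0x1208769543 0 (.node 2 4 (.cons 0x1324569870 (.cons 0x6590871243 (.cons 0x7089654231 .nil))) (.node 2 6 (.cons 0x6207895431 (.cons 0x3426598071 .nil)) (.leaf 0x7089562431 1 .done) .done) (.node 2 6 (.cons 0x1345987620 (.cons 0x4326590871 (.cons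 0x7620895431 .nil))) (.leaf 0x895431762 0 .done) .done))) .done)) (.node 0 3 .nil (.node 1 6 (.cons 0x9876120345 .nil) (.node 4 7 (.cons 0x5609874321 (.cons 0x9807456132 (.cons 0x9087432165 .nil))) (.leaf 0x8903216547 1 .done) (.node 2 9 (.cons 0x8709234561 (.cons 0x7654308921 .nil)) (.node 1 5 (.cons 0x6789021543 (.cons 0x4315670892 .nil)) (.node 1 8 (.cons 0x9078165432 .nil) (.leaf 0x6543290781 2 (.leaf 0x7092345618 1 .done)) .done) (.leaf 0x871654329 1 .done)) .done)) (.node 3 6 (.cons 0x5436789021 .nil) (.node 5 7 (.cons 0x8902134576 (.cons 0x9802134576 (.cons 0x9802136754 .nil))) (.node 1 9 (.cons 0x5436789120 (.cons 0x9120875436 .nil)) (.node 4 6 (.cons 0x5643217890 (.cons 0x9087123465 (.cons 0x9108754632 .nil))) (.node 6 8 (.cons 0x5719086432 (.cons 0x7546809123 .nil)) .done .done) .done) .done) (.node 4 6 (.cons 0x5643217890 (.cons 0x9087123465 .nil)) (.node 5 9 (.cons 0x7895463201 (.cons 0x7123465980 (.cons 0x9564308712 (.cons 0x4659807132 .nil))))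 (.node 2 4 (.cons 0x3246598710 (.cons 0x8095671342 (.cons 0x7108956423 .nil))) .done .done) (.node 3 5 (.cons 0x8902176435 (.cons 0x9802176435 .nil)) .done .done)) .done)) .done)) (.node 1 9 (.cons 0x3456780912 .nil) (.node 1 6 (.cons 0x2345619870 (.cons 0x8709165432 .nil)) (.node 3 7 (.cons 0x8902167345 (.cons 0x9802167345 .nil)) (.node 5 8 (.cons 0x3458916702 (.cons 0x4378560912 (.cons 0x8543761902 .nil))) (.leaf 0x9167023458 1 .done) .done) .done) (.node 1 6 (.cons 0x7089165432 .nil) (.node 2 8 (.cons 0x9078234561 .nil) (.node 0 3 (.cons 0x9128034567 .nil) (.node 2 5 (.cons 0x9134528076 (.cons 0x9825431670 .nil)) (.node 4 6 (.cons 0x9870132546 (.cons 0x9087123465 (.cons 0x9825467013 (.cons 0x3109876452 .nil)))) .done (.leaf 0x1678903452 1 .done)) .done) (.leaf 0x6190782345 2 (.leaf 0x9071654328 1 .done))) (.node 2 8 (.cons 0x9165432807 .nil) (.leaf 0x6190782345 2 (.leaf 0x5619078234 1 .done)) .done)) (.node 3 7 (.cons 0x6543780912 .nil) (.node 2 6 (.cons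 0x5431267890 (.cons 0x8734562190 .nil)) (.leaf 0x4562190873 1 (.node 1 8 (.cons 0x9810732654 .nil) .done (.leaf 0x9126543780 1 .done))) (.node 2 6 (.cons 0x5431267890 (.cons 0x9126543780 (.cons 0x7345621980 .nil))) (.node 0 3 (.cons 0x9126543087 .nil) (.node 2 4 (.cons 0x8917034265 (.cons 0x9124378065 (.cons 0x9801245673 .nil))) .done .done) (.leaf 0x1908734562 2 .done)) .done)) .done))) .done))) (.node 0 5 (.cons 0x6509871234 .nil) (.node 0 3 .nil (.node 2 4 (.cons 0x9876542103 (.cons 0x8903421765 .nil)) (.node 3 5 (.cons 0x9087124356 .nil) (.node 3 9 (.cons 0x6789354210 (.cons 0x8765093421 (.cons 0x6789354201 .nil))) (.leaf 0x6542103987 1 .done) (.leaf 0x9876534210 2 (.node 1 5 (.cons 0x6789021543 (.cons 0x9876024351 (.cons 0x8902435176 (.cons 0x7890651243 .nil)))) .done .done))) (.node 0 4 .nil (.node 4 6 (.cons 0x5643217890 (.cons 0x9871230465 .nil)) (.node 5 7 (.cons 0x9803465712 (.cons 0x8904657123 .nil)) .done (.node 2 5 (.cons 0x9871032564 (.cons 0x3256409871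 .nil)) (.leaf 0x3098712564 0 .done) .done)) (.node 5 7 (.cons 0x8904321756 .nil) (.node 1 9 (.cons 0x4321987560 (.cons 0x8912034576 (.cons 0x4306578912 .nil))) (.node 4 6 (.cons 0x5789123460 (.cons 0x6457891032 .nil)) (.leaf 0x1234605789 0 .done) .done) (.node 5 8 (.cons 0x3409856712 .nil) (.node 6 9 (.cons 0x5896712043 (.cons 0x7698543021 (.cons 0x9658710324 .nil))) (.leaf 0x2178569034 0 .done) (.node 2 7 (.cons 0x6589043271 .nil) (.node 6 9 (.cons 0x5690871243 (.cons 0x9658034271 (.cons 0x4569872301 (.cons 0x4230965871 .nil)))) .done .done) .done)) .done)) .done)) .done)) (.node 0 4 .nil (.node 5 7 (.cons 0x9875604321 .nil) (.node 1 8 (.cons 0x7654309812 (.cons 0x9812034576 (.cons 0x6754309812 .nil))) .done (.node 1 8 (.cons 0x7654309812 .nil) (.node 3 9 (.cons 0x9345021876 (.cons 0x6754039812 (.cons 0x9340567812 .nil))) (.node 1 6 (.cons 0x4576189302 (.cons 0x9320457816 (.cons 0x3981675402 .nil))) .done .done) (.node 4 8 (.cons 0x9840321756 .nil) (.node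 5 8 (.cons 0x4309856712 .nil) (.node 1 9 (.cons 0x6509178432 (.cons 0x6589170432 .nil)) (.node 4 9 (.cons 0x2176589430 .nil) (.leaf 0x8567123049 1 (.leaf 0x498567123 2 .done)) .done) .done) .done) .done)) .done)) .done) .done)) (.node 4 8 (.cons 0x3489056712 .nil) (.node 0 3 (.cons 0x9843056712 .nil) (.node 1 8 (.cons 0x9034567812 .nil) (.node 2 9 (.cons 0x3489217650 .nil) (.leaf 0x4309218765 0 (.leaf 0x6503489217 1 (.node 0 4 .nil (.node 5 9 (.cons 0x6712059843 (.cons 0x6592178403 (.cons 0x6592304871 .nil))) .done .done) .done))) .done) .done) (.node 1 8 .nil (.node 0 3 (.cons 0x9034567812 .nil) (.node 1 6 (.cons 0x9876120345 (.cons 0x9078165432 (.cons 0x7098165432 .nil))) .done .done) (.node 0 4 .nil (.node 6 9 (.cons 0x7698120543 (.cons 0x5698170432 (.cons 0x7189650432 .nil))) (.node 0 3 (.cons 0x9654032187 .nil) .done .done) (.node 0 3 .nil (.node 2 4 (.cons 0x8905671243 (.cons 0x9876542103 (.cons 0x8903421765 .nil))) .done .done) .done)) .done)) (.leaf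 0x5098432176 0 .done))) .done)) .done)) .done)))
noncomputable def tc9_3_16 : T := (.node 2 6 (.cons 0x5431267890 .nil) (.node 1 8 .nil (.node 4 6 (.cons 0x5643217890 (.cons 0x7189023465 .nil)) (.node 1 6 .nil (.node 0 7 (.cons 0x9867021345 (.cons 0x9078165432 (.cons 0x9078162345 .nil))) .done .done) .done) (.node 1 9 .nil (.node 0 3 (.cons 0x9034562187 (.cons 0x8765430912 (.cons 0x7819034562 .nil))) .done (.node 1 6 .nil (.node 0 8 (.cons 0x9087621345 .nil) (.node 5 7 (.cons 0x9867543120 (.cons 0x9802167543 (.cons 0x9087543216 (.cons 0x9087543261 .nil)))) (.leaf 0x2619087543 1 .done) (.node 2 5 (.cons 0x9087625431 (.cons 0x9802543167 .nil)) (.leaf 0x1678902543 1 .done) .done)) .done) .done)) .done)) (.node 1 8 .nil (.node 0 3 (.cons 0x9034567812 .nil) (.node 4 6 (.cons 0x5643217890 (.cons 0x7189023465 .nil)) (.node 5 8 (.cons 0x9034658712 (.cons 0x9023465817 (.cons 0x9032178564 .nil))) .done (.node 5 7 (.cons 0x9867543120 (.cons 0x9065781234 (.cons 0x7546231890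 (.cons 0x8903217564 .nil)))) (.leaf 0x3126457890 0 .done) .done)) (.node 2 5 (.cons 0x4526789031 (.cons 0x9817652034 (.cons 0x9031876254 .nil))) .done .done)) (.node 4 8 (.cons 0x5671209843 .nil) (.node 1 9 .nil (.node 4 7 (.cons 0x5609874321 (.cons 0x8743219065 (.cons 0x5689174320 .nil))) (.node 0 3 (.cons 0x8765430912 (.cons 0x1987456230 .nil)) (.leaf 0x7891230654 1 .done) .done) (.node 1 5 (.cons 0x7890651234 .nil) (.node 4 7 (.cons 0x9874321560 .nil) (.node 0 8 (.cons 0x7432198065 .nil) (.node 2 5 (.cons 0x6523471980 .nil) (.node 2 4 (.cons 0x8091765243 .nil) .done .done) .done) (.leaf 0x3215609874 1 (.leaf 0x8906512347 2 .done))) (.node 1 6 .nil (.node 0 3 (.cons 0x9032615487 .nil) (.node 3 7 (.cons 0x5489126730 (.cons 0x9037812654 (.cons 0x7345618902 .nil))) .done (.node 5 9 (.cons 0x7689543120 (.cons 0x7845903261 (.cons 0x3095487612 .nil))) (.leaf 0x6178459032 2 .done) .done)) .done) .done)) .done)) (.node 2 5 (.cons 0x3489025671 .nil) (.leaf 0x8431765209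 1 (.leaf 0x4890256713 2 .done)) .done)) .done)) .done)) (.node 2 5 (.cons 0x7689025431 .nil) (.leaf 0x8671345209 1 (.leaf 0x6890254317 2 (.node 0 3 (.cons 0x6789031254 .nil) (.node 1 8 (.cons 0x9034567812 .nil) (.node 3 8 (.cons 0x7654389021 .nil) (.node 2 8 (.cons 0x9034567821 .nil) (.node 1 9 (.cons 0x8765430912 .nil) (.leaf 0x4309128765 0 (.node 2 7 (.cons 0x2786543091 .nil) (.leaf 0x3456872190 0 (.node 2 4 (.cons 0x5687190342 .nil) (.node 2 6 (.cons 0x5431267890 .nil) .done .done) .done)) .done)) .done) .done) (.node 1 9 (.cons 0x8765430912 .nil) (.node 6 9 (.cons 0x8769031254 .nil) (.node 5 8 (.cons 0x4587690312 .nil) (.node 2 8 (.cons 0x9034567821 .nil) (.leaf 0x4309128765 0 (.node 3 8 (.cons 0x7654389021 .nil) .done .done)) .done) .done) .done) .done)) (.node 3 7 (.cons 0x4520986731 .nil) (.node 3 8 (.cons 0x7654389021 .nil) (.node 3 9 .nil (.node 0 4 (.cons 0x6789045213 (.cons 0x4093876521 (.cons 0x4025689371 .nil))) (.node 1 4 (.cons 0x9867314520 (.cons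 0x7689314520 (.cons 0x4178652390 (.cons 0x8937604125 (.cons 0x4173986520 .nil))))) .done .done) (.node 3 5 (.cons 0x8902176534 .nil) (.node 3 6 (.cons 0x4521367890 .nil) .done .done) .done)) .done) (.node 0 7 .nil (.node 3 6 (.cons 0x4521367890 (.cons 0x9870123654 (.cons 0x8907631254 .nil))) .done (.node 2 7 .nil (.node 1 4 (.cons 0x9014568732 (.cons 0x9872301456 (.cons 0x9014568723 (.cons 0x3145276890 (.cons 0x5609872143 .nil))))) .done (.node 4 7 (.cons 0x5609874321 .nil) (.node 5 7 (.cons 0x2098675431 .nil) .done .done) .done)) .done)) .done)) .done)) .done))) (.node 2 6 (.cons 0x5431267890 .nil) (.node 6 9 .nil (.node 0 5 (.cons 0x9876213450 (.cons 0x8769054312 (.cons 0x7896213450 (.cons 0x7896231054 .nil)))) .done (.node 1 9 .nil (.node 0 3 (.cons 0x8765430912 (.cons 0x7891032654 .nil)) (.node 4 9 (.cons 0x5498762103 (.cons 0x5621789430 (.cons 0x7894562301 .nil))) .done .done) (.node 0 3 (.cons 0x7891265430 .nil) (.node 1 8 (.cons 0x9034567812 .nil) (.node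 3 6 (.cons 0x7890123654 .nil) (.node 3 8 (.cons 0x7654389021 .nil) (.node 3 9 (.cons 0x7654398120 .nil) .done .done) .done) .done) (.node 3 6 (.cons 0x7890123654 .nil) (.node 4 6 (.cons 0x5643217890 .nil) (.node 4 7 (.cons 0x9874562301 .nil) (.leaf 0x8745623019 2 (.leaf 0x5623019874 1 (.node 3 5 (.cons 0x5347891260 .nil) (.leaf 0x9862035471 1 (.leaf 0x9867453120 0 .done)) .done))) .done) .done) .done)) .done)) (.node 4 6 (.cons 0x5643217890 .nil) (.node 3 6 (.cons 0x7890123654 .nil) (.node 1 6 .nil (.node 2 5 (.cons 0x3452167890 .nil) (.node 0 4 (.cons 0x7896231045 (.cons 0x8904367125 (.cons 0x5269871340 (.cons 0x6523409871 .nil)))) .done (.node 0 8 (.cons 0x4325690871 (.cons 0x9087612543 (.cons 0x7809613452 (.cons 0x9087613452 .nil)))) .done (.leaf 0x1678902543 1 .done))) .done) .done) (.node 3 6 (.cons 0x7890123654 .nil) (.node 1 6 .nil (.node 2 5 (.cons 0x3452167890 .nil) (.node 4 7 (.cons 0x5478962310 (.cons 0x6987452310 (.cons 0x1325478690 (.cons 0x8745236901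 (.cons 0x5231746890 .nil))))) .done (.node 0 8 (.cons 0x4325690871 (.cons 0x9087612543 (.cons 0x7809613452 (.cons 0x9087613452 .nil)))) .done (.leaf 0x1678902543 1 .done))) .done) .done) .done)) .done))) (.node 0 3 .nil (.node 1 8 (.cons 0x9812034567 (.cons 0x9034562187 .nil)) (.node 5 9 (.cons 0x8762134590 (.cons 0x8712659034 (.cons 0x2678134590 (.cons 0x8762130954 .nil)))) (.node 0 7 (.cons 0x9078123456 (.cons 0x8126709543 (.cons 0x8134590762 .nil))) .done .done) .done) (.node 1 8 (.cons 0x9034567812 .nil) (.node 1 6 .nil (.node 0 7 (.cons 0x9812076543 (.cons 0x9816543207 .nil)) (.node 7 9 (.cons 0x3456798120 (.cons 0x7981654320 (.cons 0x8790321654 .nil))) .done .done) (.node 1 9 (.cons 0x8765430912 .nil) (.node 1 4 (.cons 0x9032145687 .nil) (.node 1 5 (.cons 0x7890651234 .nil) .done .done) .done) .done)) (.node 1 9 (.cons 0x8765430912 .nil) (.node 6 9 .nil (.node 0 7 (.cons 0x9078126543 (.cons 0x5431870962 .nil)) (.node 1 6 (.cons 0x5432169870 .nil) .done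 .done) (.node 3 9 (.cons 0x7812654390 .nil) (.node 0 7 (.cons 0x5431870962 .nil) (.node 2 5 (.cons 0x7813452690 .nil) (.leaf 0x4526907813 2 (.leaf 0x6907813452 1 .done)) (.node 3 7 (.cons 0x8190734562 .nil) (.node 0 4 (.cons 0x7321986540 .nil) (.leaf 0x8912370456 1 (.node 0 5 (.cons 0x4371896502 .nil) .done .done)) .done) .done)) .done) .done)) .done) .done)) (.node 0 5 (.cons 0x6789054312 .nil) (.node 0 7 .nil (.node 1 9 (.cons 0x8709126543 .nil) (.leaf 0x3219870654 1 (.leaf 0x2190786543 2 .done)) (.node 0 8 (.cons 0x9087621345 .nil) (.node 0 4 .nil (.node 3 5 (.cons 0x9087126534 (.cons 0x7689045312 .nil)) (.leaf 0x1267890453 2 .done) .done) .done) .done)) (.node 0 8 (.cons 0x9087621345 .nil) (.node 0 7 .nil (.node 1 9 (.cons 0x8709126543 .nil) (.leaf 0x3219870654 1 (.leaf 0x2190786543 2 .done)) (.node 1 9 (.cons 0x4568709123 .nil) (.leaf 0x2190786543 2 (.leaf 0x786543219 1 .done)) .done)) .done) .done)) .done))) .done)) .done)))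
noncomputable def tc9_3_17 : T := (.node 3 6 (.cons 0x7890123654 .nil) (.node 3 8 (.cons 0x7654389021 .nil) (.leaf 0x2098345671 0 (.node 1 5 (.cons 0x7890651234 .nil) (.node 1 6 .nil (.node 3 7 (.cons 0x8902167345 (.cons 0x4561098732 .nil)) (.node 0 3 (.cons 0x5430987612 .nil) (.node 2 4 (.cons 0x7651243890 (.cons 0x9876103542 .nil)) (.leaf 0x8903245617 2 (.node 5 9 (.cons 0x1243876590 (.cons 0x7834216590 (.cons 0x8716590324 .nil))) (.leaf 0x8765901243 0 .done) .done)) .done) .done) (.node 4 6 (.cons 0x5643217890 .nil) (.node 2 6 .nil (.node 4 7 (.cons 0x2156743890 (.cons 0x5126743890 (.cons 0x3265478901 .nil))) (.leaf 0x2654789013 0 .done) (.node 2 5 .nil (.node 0 4 (.cons 0x9876043521 (.cons 0x6521789043 (.cons 0x9871652340 .nil))) (.node 1 4 (.cons 0x7890652143 .nil) (.leaf 0x2098341765 0 .done) .done) (.node 6 9 .nil (.node 0 4 (.cons 0x9043876521 (.cons 0x9678352104 (.cons 0x2178965340 (.cons 0x4017896532 .nil)))) .done (.node 6 8 .nil (.node 0 4 (.cons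 0x9043876521 (.cons 0x5234096871 (.cons 0x9865340217 (.cons 0x9043256871 .nil)))) .done .done) .done)) .done)) .done)) (.node 6 9 .nil (.node 0 4 (.cons 0x9871046532 (.cons 0x8712340965 (.cons 0x8967120435 (.cons 0x2178965340 .nil)))) .done (.node 6 8 .nil (.node 0 4 (.cons 0x9871046532 (.cons 0x9043217865 (.cons 0x9867120435 (.cons 0x9865340217 .nil)))) .done .done) .done)) .done)) .done)) (.node 1 6 .nil (.node 3 7 (.cons 0x4378906512 (.cons 0x8902167345 (.cons 0x4561098732 .nil))) .done (.node 3 7 (.cons 0x4378906512 .nil) (.node 4 7 (.cons 0x5674389021 .nil) (.node 0 3 (.cons 0x9874306512 .nil) (.node 3 9 (.cons 0x6547893210 .nil) .done .done) (.leaf 0x2098347651 1 (.node 2 6 (.cons 0x6215437890 .nil) (.leaf 0x5174389026 2 (.leaf 0x5478901326 0 .done)) .done))) (.node 1 8 .nil (.node 2 4 (.cons 0x9873245610 (.cons 0x9810245673 (.cons 0x9065187342 (.cons 0x9810245376 .nil)))) .done (.node 2 5 (.cons 0x9816734520 .nil) (.leaf 0x4376189025 0 (.node 0 3 (.cons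 0x9816730254 .nil) (.node 2 6 (.cons 0x4562378901 .nil) (.leaf 0x4309876215 0 .done) .done) .done)) .done)) .done)) .done)) .done)) (.node 1 6 .nil (.node 4 7 (.cons 0x5609874321 (.cons 0x9832016547 (.cons 0x9016547832 (.cons 0x9835476102 (.cons 0x8902347165 .nil))))) .done (.node 3 7 .nil (.node 0 8 (.cons 0x9087654312 (.cons 0x9802167345 (.cons 0x9802165437 .nil))) .done (.node 0 3 .nil (.node 6 8 (.cons 0x5437689021 .nil) (.node 4 9 (.cons 0x8943567120 (.cons 0x7689453021 (.cons 0x7865490312 (.cons 0x7894561032 .nil)))) (.node 2 5 (.cons 0x2549837610 (.cons 0x8673094521 (.cons 0x8945216730 .nil))) .done .done) .done) .done) .done)) .done)) .done))) (.node 3 8 (.cons 0x7654389021 .nil) (.leaf 0x2098345671 0 (.node 1 5 (.cons 0x7890651234 .nil) (.node 0 3 .nil (.node 2 4 (.cons 0x7651243890 (.cons 0x9876542103 .nil)) (.node 5 9 (.cons 0x1243876590 (.cons 0x8712430956 .nil)) (.leaf 0x8765901243 0 (.node 1 9 (.cons 0x5678342190 (.cons 0x8760359124 .nil)) (.node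 2 7 (.cons 0x4563278901 (.cons 0x4563019872 (.cons 0x8903451276 (.cons 0x8724563091 .nil)))) .done .done) .done)) (.leaf 0x3098765124 0 .done)) (.node 3 7 .nil (.node 1 6 (.cons 0x5430987612 .nil) (.leaf 0x5437890216 0 .done) .done) .done)) (.node 3 7 (.cons 0x4378906512 .nil) (.node 0 3 .nil (.node 4 7 (.cons 0x2365478901 (.cons 0x9874306512 .nil)) (.leaf 0x2098347651 1 (.node 2 6 (.cons 0x6215437890 (.cons 0x9874562301 .nil)) (.leaf 0x5174389026 2 (.leaf 0x5478901326 0 .done)) .done)) .done) .done) .done)) .done)) .done)) (.node 3 6 (.cons 0x7890123654 .nil) (.node 1 5 (.cons 0x7890651234 .nil) (.node 4 7 (.cons 0x9874563210 .nil) (.node 1 6 .nil (.node 0 3 (.cons 0x5430987612 (.cons 0x9874561032 .nil)) (.leaf 0x5478903216 2 .done) (.node 3 8 (.cons 0x7654389021 .nil) (.leaf 0x2098345671 0 (.node 3 9 (.cons 0x6547893210 .nil) (.node 1 9 (.cons 0x5674389120 .nil) (.node 0 3 (.cons 0x5603478912 .nil) (.node 3 7 .nil (.node 2 4 (.cons 0x9835674210 (.cons 0x8734219065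 (.cons 0x8901245376 .nil))) .done .done) .done) .done) (.node 3 7 .nil (.node 4 9 (.cons 0x7894563210 (.cons 0x8947321065 (.cons 0x8943760215 (.cons 0x8947356012 .nil)))) .done (.node 0 3 .nil (.node 4 9 (.cons 0x7894563210 (.cons 0x5674983012 (.cons 0x5498763012 (.cons 0x7894563012 .nil)))) .done .done) .done)) .done)) (.node 0 3 .nil (.node 7 9 (.cons 0x2389745610 (.cons 0x8974561032 (.cons 0x8974561230 .nil))) (.leaf 0x3897456102 1 .done) (.node 3 7 .nil (.node 4 8 (.cons 0x2176534890 (.cons 0x6735489012 (.cons 0x9847356012 .nil))) .done .done) .done)) .done))) .done)) (.leaf 0x3215609874 1 (.node 1 6 .nil (.node 0 3 (.cons 0x5430987612 .nil) (.leaf 0x8903216547 1 (.node 2 9 (.cons 0x8921534760 (.cons 0x2987615430 (.cons 0x8920347615 (.cons 0x6154789230 .nil)))) .done .done)) (.node 3 7 .nil (.node 1 4 (.cons 0x5609873412 .nil) (.leaf 0x9873214560 1 .done) (.node 1 4 (.cons 0x6541098732 .nil) (.node 0 7 (.cons 0x9870651234 .nil) (.node 1 8 (.cons 0x5347609812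 .nil) (.node 1 9 (.cons 0x8709123456 .nil) .done .done) .done) .done) .done)) .done)) (.leaf 0x8906512347 2 .done)))) (.node 1 6 .nil (.node 3 7 (.cons 0x4378906512 (.cons 0x8902167345 (.cons 0x4561098732 .nil))) .done (.node 3 7 (.cons 0x4378906512 .nil) (.node 0 3 .nil (.node 2 6 (.cons 0x6215437890 .nil) (.leaf 0x4309876215 0 (.node 1 8 (.cons 0x4537621890 (.cons 0x9812034567 (.cons 0x7621890354 .nil))) .done .done)) (.node 0 5 (.cons 0x8905437612 .nil) (.node 0 7 (.cons 0x9870123654 .nil) .done .done) .done)) (.node 3 8 (.cons 0x7654389021 .nil) (.leaf 0x2098345671 0 (.node 2 4 (.cons 0x6542378901 .nil) (.node 4 7 (.cons 0x9874563210 .nil) (.leaf 0x2098347651 1 (.leaf 0x3890124765 1 .done)) (.node 1 9 (.cons 0x5678342190 .nil) (.node 3 9 (.cons 0x8765421093 .nil) .done .done) (.leaf 0x987342156 0 .done))) .done)) .done)) .done)) .done)) (.node 1 5 (.cons 0x7890651234 .nil) (.node 4 7 (.cons 0x9874321560 .nil) (.node 1 8 (.cons 0x9810236547 .nil) (.node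 2 5 (.cons 0x9812534760 .nil) (.leaf 0x3521890674 2 (.leaf 0x1890674352 1 .done)) (.node 7 9 (.cons 0x2189743560 .nil) (.node 3 7 .nil (.node 2 4 (.cons 0x5360189742 (.cons 0x9018736542 (.cons 0x8901245376 .nil))) .done .done) (.leaf 0x4356021897 2 (.leaf 0x4563201897 0 .done))) .done)) (.leaf 0x3215609874 1 (.node 1 6 (.cons 0x5478901632 .nil) (.node 1 4 (.cons 0x7890145632 .nil) (.node 6 9 (.cons 0x2369874510 .nil) (.node 6 8 (.cons 0x3547689012 .nil) (.node 2 5 (.cons 0x2563417890 .nil) (.node 2 6 (.cons 0x8901267453 .nil) .done (.leaf 0x1789025634 2 .done)) .done) .done) .done) .done) (.leaf 0x8906512347 2 .done)))) (.node 2 4 (.cons 0x2436517890 .nil) (.node 0 3 (.cons 0x9876542103 .nil) (.node 2 6 (.cons 0x5430987621 .nil) (.leaf 0x4309876215 0 (.node 6 9 (.cons 0x7896301542 .nil) (.node 1 9 (.cons 0x7891542630 .nil) (.node 1 6 (.cons 0x5430987612 .nil) (.node 1 8 (.cons 0x7621890354 .nil) .done .done) .done) .done) .done)) .done) (.node 3 7 (.cons 0x4378906512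 .nil) (.node 3 8 (.cons 0x7654389021 .nil) (.leaf 0x2098345671 0 (.node 3 9 (.cons 0x8765421093 .nil) (.node 0 3 .nil (.node 1 9 (.cons 0x5678342190 .nil) (.node 5 8 (.cons 0x7658342190 (.cons 0x9856712034 (.cons 0x8567190342 (.cons 0x7658309124 .nil)))) .done .done) .done) .done) .done)) (.node 0 3 .nil (.node 2 7 (.cons 0x4563278901 (.cons 0x9872156034 .nil)) (.node 1 8 (.cons 0x6372098154 (.cons 0x9812034567 (.cons 0x6721890354 .nil))) .done .done) .done) .done)) (.leaf 0x1789024365 2 .done))) .done)) .done)) (.node 3 8 (.cons 0x7654389021 .nil) (.node 3 6 (.cons 0x7890123654 .nil) (.node 3 7 .nil (.node 1 6 (.cons 0x8902167345 .nil) (.node 0 3 (.cons 0x5430987612 .nil) .done (.leaf 0x5437890216 0 .done)) (.node 1 6 (.cons 0x8902167345 .nil) (.node 0 3 .nil (.node 2 4 (.cons 0x8902435671 (.cons 0x9876542103 (.cons 0x9876103542 .nil))) (.node 1 8 (.cons 0x4356718902 .nil) (.leaf 0x3567189024 2 (.leaf 0x5342098176 1 .done)) .done) .done) .done) .done)) .done)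 (.leaf 0x2098345671 0 (.node 0 3 .nil (.node 2 4 (.cons 0x8902435671 (.cons 0x9876542103 .nil)) (.node 1 8 (.cons 0x4356718902 (.cons 0x9812034567 .nil)) (.leaf 0x3567189024 2 (.leaf 0x5342098176 1 .done)) (.node 3 6 (.cons 0x9876301245 .nil) (.leaf 0x9012453678 1 .done) .done)) (.node 1 6 (.cons 0x5430987612 .nil) (.node 3 6 (.cons 0x7890123654 .nil) (.node 3 9 .nil (.node 2 4 (.cons 0x8902435671 (.cons 0x3987654210 (.cons 0x8765421093 (.cons 0x2453987610 .nil)))) .done .done) .done) (.node 3 6 (.cons 0x7890123654 .nil) (.node 3 7 .nil (.node 1 5 (.cons 0x6789034512 (.cons 0x4378906512 .nil)) (.node 1 4 (.cons 0x5609873412 .nil) (.leaf 0x9873214560 1 (.node 2 8 (.cons 0x7612890345 (.cons 0x9820145376 (.cons 0x5437612890 (.cons 0x9820673514 .nil)))) .done .done)) .done) .done) .done) .done)) .done)) .done))) .done)))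
noncomputable def tc9_3_18 : T := (.node 3 9 (.cons 0x9345678120 .nil) (.node 0 7 (.cons 0x2189345670 .nil) (.leaf 0x4398120765 1 (.node 0 3 .nil (.node 7 9 (.cons 0x8120397654 .nil) (.node 3 8 (.cons 0x4567938102 .nil) (.leaf 0x7902183456 2 (.leaf 0x6790218345 1 .done)) (.leaf 0x4302189765 1 .done)) (.node 1 3 (.cons 0x2134567890 .nil) (.node 1 6 (.cons 0x5430987612 .nil) (.node 1 5 (.cons 0x6789034512 .nil) (.node 3 7 (.cons 0x4378906512 .nil) (.node 3 6 (.cons 0x7890123654 .nil) (.node 1 4 (.cons 0x7890145632 .nil) (.node 1 9 (.cons 0x8193456702 .nil) .done .done) .done) .done) .done) .done) .done) .done)) .done)) (.leaf 0x7654390218 2 (.leaf 0x6781209345 1 (.node 6 9 (.cons 0x7810239654 .nil) (.node 1 6 .nil (.node 4 7 (.cons 0x5609874321 (.cons 0x2398745610 (.cons 0x8745610932 .nil))) (.node 0 3 (.cons 0x5430987612 .nil) (.leaf 0x8903216547 1 (.leaf 0x1230987456 1 .done)) (.leaf 0x1654789320 0 .done)) (.node 3 6 (.cons 0x7890123654 .nil) (.node 4 6 (.cons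 0x5643217890 .nil) (.node 2 6 .nil (.node 1 9 (.cons 0x8719023465 (.cons 0x5439187620 (.cons 0x7819345620 .nil))) .done (.node 6 8 .nil (.node 0 7 (.cons 0x9870123654 (.cons 0x9078612345 .nil)) (.node 2 9 (.cons 0x1876543920 (.cons 0x5432907861 .nil)) (.leaf 0x6543290781 2 .done) .done) .done) .done)) .done) .done) .done)) (.node 7 9 .nil (.node 0 3 (.cons 0x2189765430 .nil) (.node 2 4 (.cons 0x2456789301 (.cons 0x8102456793 (.cons 0x5420396781 .nil))) (.leaf 0x1879324560 1 .done) (.leaf 0x7654302189 2 .done)) (.node 0 7 (.cons 0x4569320781 .nil) (.node 1 9 (.cons 0x4569187023 .nil) (.leaf 0x234569187 1 (.node 4 9 (.cons 0x3945678102 .nil) (.node 5 9 (.cons 0x8170234956 .nil) .done .done) .done)) .done) .done)) .done)) .done)))) (.node 3 9 (.cons 0x8765439021 .nil) (.node 1 3 (.cons 0x2134567890 .nil) (.node 3 6 (.cons 0x7890123654 .nil) (.node 3 5 .nil (.node 2 4 (.cons 0x7609812435 (.cons 0x6789012453 .nil)) (.leaf 0x1098763542 1 (.leaf 0x5367890124 2 .done))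 (.node 3 7 .nil (.node 2 4 (.cons 0x9018763542 (.cons 0x8937654210 (.cons 0x8901245673 .nil))) (.leaf 0x1098736542 1 .done) (.node 0 3 .nil (.node 5 9 (.cons 0x2187634590 (.cons 0x4590367812 .nil)) (.node 2 6 (.cons 0x7812634590 (.cons 0x6210378954 (.cons 0x7621890345 (.cons 0x7812630954 .nil)))) .done .done) .done) .done)) .done)) (.node 1 9 (.cons 0x5436781902 .nil) (.node 3 5 .nil (.node 2 4 (.cons 0x8719024365 (.cons 0x7891243560 (.cons 0x7609812435 (.cons 0x2453678901 .nil)))) .done (.node 1 5 (.cons 0x7890651234 .nil) (.node 2 5 (.cons 0x9025436781 .nil) (.leaf 0x4367819025 1 (.node 5 9 (.cons 0x2095436781 .nil) (.node 4 9 (.cons 0x5943187602 .nil) (.leaf 0x678134952 0 .done) .done) .done)) .done) .done)) .done) .done)) (.node 3 6 (.cons 0x7890123654 .nil) (.node 3 5 .nil (.node 4 9 (.cons 0x7894563210 (.cons 0x8712094356 (.cons 0x9453678102 .nil))) (.node 6 8 (.cons 0x7681209345 (.cons 0x7681209354 .nil)) (.leaf 0x943568712 2 .done) .done) (.node 0 3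 .nil (.node 2 4 (.cons 0x9876542103 (.cons 0x8903421765 (.cons 0x9876301245 .nil))) (.leaf 0x6542103987 1 .done) (.node 3 7 .nil (.node 0 5 (.cons 0x6509871234 (.cons 0x6734509812 .nil)) (.node 2 4 (.cons 0x9871243650 (.cons 0x8937654210 (.cons 0x8901245673 .nil))) (.leaf 0x1789056342 0 .done) .done) .done) .done)) .done)) (.node 1 9 (.cons 0x5436781902 .nil) (.node 3 5 .nil (.node 2 4 (.cons 0x8719024365 (.cons 0x7891243560 (.cons 0x7609812435 (.cons 0x2453678901 .nil)))) .done (.node 1 5 (.cons 0x7890651234 .nil) (.node 2 5 (.cons 0x9025436781 .nil) (.node 3 7 (.cons 0x6378190254 .nil) (.node 0 3 .nil (.node 1 4 (.cons 0x7890145632 .nil) (.leaf 0x6789034125 0 .done) .done) .done) .done) .done) .done)) .done) .done)) .done)) (.node 0 5 (.cons 0x6509871234 .nil) (.node 4 8 (.cons 0x3489056712 .nil) (.node 0 3 (.cons 0x9843056712 .nil) (.node 0 7 (.cons 0x9843217056 .nil) (.node 3 8 (.cons 0x4389056712 .nil) (.node 2 8 .nil (.node 4 7 (.cons 0x5609874321 (.cons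 0x9056743821 (.cons 0x6509823471 .nil))) .done (.node 2 7 (.cons 0x4389056721 .nil) (.node 6 8 (.cons 0x1276893450 .nil) (.leaf 0x9345012768 2 .done) .done) .done)) .done) .done) .done) (.node 0 3 .nil (.node 2 6 (.cons 0x7621890543 (.cons 0x9843056217 (.cons 0x7621890345 .nil))) (.node 2 4 (.cons 0x8905671243 (.cons 0x9876542103 (.cons 0x8903421765 .nil))) (.node 4 7 (.cons 0x5609874321 (.cons 0x8930547621 .nil)) (.leaf 0x1265039847 1 (.leaf 0x547621893 1 .done)) .done) .done) (.node 0 8 .nil (.node 1 5 (.cons 0x7890651234 (.cons 0x9345120876 (.cons 0x6780934512 .nil))) (.node 1 9 (.cons 0x9120876543 .nil) (.leaf 0x7802193456 2 (.node 1 3 (.cons 0x2134567890 (.cons 0x9087654312 .nil)) (.node 1 6 (.cons 0x8761209345 (.cons 0x5439087612 .nil)) .done .done) .done)) .done) .done) .done)) (.leaf 0x5098432176 0 .done))) (.node 0 8 .nil (.node 1 5 (.cons 0x7890651234 (.cons 0x9345120876 (.cons 0x6780934512 .nil))) (.node 1 3 (.cons 0x2134567890 (.cons 0x9087654312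 .nil)) (.node 1 6 (.cons 0x8761209345 (.cons 0x5439087612 .nil)) .done .done) .done) (.node 5 8 (.cons 0x6785439021 .nil) (.node 4 8 .nil (.node 1 5 (.cons 0x7890651234 (.cons 0x9065123487 (.cons 0x9348512067 .nil))) .done (.node 1 5 (.cons 0x7890651234 .nil) (.node 0 3 .nil (.node 2 9 (.cons 0x4392158760 (.cons 0x8765129034 .nil)) (.leaf 0x4309218765 0 (.leaf 0x5129034876 1 .done)) (.node 1 3 (.cons 0x2134567890 .nil) (.node 1 4 (.cons 0x9341206785 .nil) (.node 1 6 (.cons 0x9345876120 .nil) .done .done) .done) .done)) (.node 1 9 (.cons 0x6785439120 .nil) (.node 1 4 (.cons 0x9341206785 .nil) (.node 2 5 (.cons 0x5214398760 .nil) (.leaf 0x8934125067 1 .done) (.node 1 3 (.cons 0x2134567890 .nil) (.node 1 6 (.cons 0x9345876120 .nil) .done .done) .done)) .done) .done)) .done)) (.node 6 8 .nil (.node 5 9 (.cons 0x6781209543 (.cons 0x7681209543 (.cons 0x4320956871 .nil))) .done (.node 1 6 (.cons 0x4587612093 .nil) (.node 0 4 (.cons 0x3904587612 .nil) (.leaf 0x9321678540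 2 (.leaf 0x5876123904 1 .done)) (.node 0 7 (.cons 0x7054398612 .nil) (.node 3 8 (.cons 0x5438907612 .nil) (.node 2 8 .nil (.node 4 7 (.cons 0x5609874321 (.cons 0x7439821605 (.cons 0x9082347165 (.cons 0x5617432890 .nil)))) .done .done) .done) .done) .done)) .done)) .done)) .done)) (.node 0 3 .nil (.node 2 6 (.cons 0x4326509871 (.cons 0x7621890345 .nil)) (.node 4 9 (.cons 0x1789432650 (.cons 0x5034981762 (.cons 0x5621789430 (.cons 0x7894562301 .nil)))) .done (.node 1 4 (.cons 0x6509871432 (.cons 0x5412678930 .nil)) (.leaf 0x5098714326 1 (.node 1 9 (.cons 0x2198765430 .nil) (.node 0 8 (.cons 0x9120876543 .nil) (.leaf 0x2193456780 1 .done) (.leaf 0x3456789120 0 .done)) (.leaf 0x3987621450 0 .done))) .done)) (.node 1 3 (.cons 0x2134567890 .nil) (.node 3 5 .nil (.node 2 4 (.cons 0x6789310542 (.cons 0x6789354210 (.cons 0x6718905342 (.cons 0x6789012453 .nil)))) .done (.node 3 6 (.cons 0x7890123654 .nil) (.node 3 7 .nil (.node 1 5 (.cons 0x7890651234 (.cons 0x4378906512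 .nil)) (.node 2 4 (.cons 0x6789310542 (.cons 0x9815067342 (.cons 0x8901245673 (.cons 0x8906734215 .nil)))) .done .done) .done) .done) .done)) (.node 0 8 (.cons 0x9087654312 .nil) (.node 3 5 .nil (.node 2 4 (.cons 0x8903421765 (.cons 0x6789354210 (.cons 0x6718905342 (.cons 0x6789012453 .nil)))) .done (.node 3 6 (.cons 0x7890123654 .nil) (.node 3 7 .nil (.node 2 5 (.cons 0x9025436781 (.cons 0x6734521890 (.cons 0x6730981254 .nil))) .done .done) .done) .done)) .done) .done)) .done)) .done))) (.leaf 0x218765439 1 (.leaf 0x4390218765 2 .done)))) (.node 3 9 (.cons 0x8765439021 .nil) (.node 6 9 (.cons 0x7812096543 .nil) (.node 3 6 (.cons 0x7890123654 .nil) (.node 1 9 .nil (.node 0 7 (.cons 0x9870123654 (.cons 0x5436918702 .nil)) (.node 1 6 (.cons 0x8709165432 .nil) (.leaf 0x3456198702 0 .done) .done) (.node 1 3 (.cons 0x2134567890 .nil) (.node 3 7 (.cons 0x2096543781 .nil) (.leaf 0x8734569021 2 (.node 3 5 .nil (.node 4 7 (.cons 0x9874563210 (.cons 0x5347819602 (.cons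 0x9065347812 (.cons 0x9635478102 .nil)))) .done .done) .done)) .done) .done)) (.node 1 9 .nil (.node 3 7 (.cons 0x2096543781 (.cons 0x8732019654 (.cons 0x6543781902 .nil))) (.leaf 0x8734569021 2 .done) (.node 1 3 (.cons 0x2134567890 .nil) (.node 3 7 (.cons 0x2096543781 .nil) (.leaf 0x8734569021 2 (.node 3 5 .nil (.node 4 7 (.cons 0x5609874321 (.cons 0x5347819602 (.cons 0x9065347812 .nil))) (.leaf 0x8743569021 2 .done) .done) .done)) .done) .done)) .done)) (.node 1 9 .nil (.node 6 8 (.cons 0x7865432091 .nil) (.node 4 7 (.cons 0x5609874321 (.cons 0x7456893210 (.cons 0x8743219065 (.cons 0x5681743902 .nil)))) (.node 3 7 (.cons 0x4569021873 (.cons 0x5473968120 (.cons 0x9012378654 (.cons 0x6543781902 .nil)))) .done .done) (.node 0 7 (.cons 0x7012398654 (.cons 0x8670219345 .nil)) (.leaf 0x5432190786 0 .done) .done)) (.node 1 3 (.cons 0x2134567890 .nil) (.node 7 9 .nil (.node 5 9 (.cons 0x8795602134 (.cons 0x4318795602 .nil)) .done (.node 5 9 (.cons 0x4318795602 .nil)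 (.node 4 9 .nil (.node 0 8 (.cons 0x4569780231 (.cons 0x5496780213 (.cons 0x6594317802 .nil))) .done .done) .done) .done)) (.node 2 9 (.cons 0x8765431290 .nil) (.node 7 9 .nil (.node 6 8 (.cons 0x7934568120 (.cons 0x4568790132 .nil)) (.node 4 9 (.cons 0x5687120943 (.cons 0x7865490132 .nil)) .done .done) (.node 5 9 .nil (.node 4 8 (.cons 0x5678431290 (.cons 0x8439567120 (.cons 0x5906784312 (.cons 0x6590234871 .nil)))) .done (.node 4 9 .nil (.node 3 8 (.cons 0x6590217834 (.cons 0x6594387120 (.cons 0x5678349021 .nil))) (.leaf 0x9456783120 1 (.leaf 0x4956021783 0 .done)) .done) .done)) .done)) .done) .done)) .done)) .done)) (.leaf 0x2093456781 1 (.node 1 5 (.cons 0x7890651234 .nil) (.node 4 8 (.cons 0x9348765120 .nil) (.node 4 7 (.cons 0x9874321560 .nil) (.leaf 0x3215609874 1 (.node 0 7 (.cons 0x9870651234 .nil) (.node 2 4 (.cons 0x6510789324 .nil) (.node 2 5 (.cons 0x3984256701 .nil) (.node 1 4 (.cons 0x9870651432 .nil) (.node 0 8 (.cons 0x7651243980 .nil) (.leaf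 0x9341256780 2 .done) .done) .done) .done) .done) (.leaf 0x8906512347 2 .done))) (.leaf 0x3902156784 2 (.node 1 9 (.cons 0x9156023487 .nil) (.node 0 8 (.cons 0x7651934802 .nil) (.node 0 7 (.cons 0x8439156702 .nil) (.node 1 6 (.cons 0x9023487165 .nil) (.node 1 3 (.cons 0x2134567890 .nil) (.node 1 4 (.cons 0x9870651432 .nil) .done .done) .done) .done) .done) (.node 7 9 (.cons 0x9784320651 .nil) (.node 0 7 (.cons 0x9870651234 .nil) (.node 0 8 .nil (.node 3 6 (.cons 0x7890123654 (.cons 0x9120876345 (.cons 0x5436780912 (.cons 0x9807634512 (.cons 0x9154367802 .nil))))) .done .done) .done) (.leaf 0x234879156 1 .done)) .done)) .done))) (.node 4 8 (.cons 0x2156784390 .nil) (.leaf 0x6784390215 1 (.leaf 0x9348765120 1 (.node 0 8 (.cons 0x4390876512 .nil) (.node 3 8 .nil (.node 2 4 (.cons 0x8765124390 (.cons 0x5671243890 (.cons 0x9067834215 .nil))) (.leaf 0x1243908765 2 .done) (.node 0 7 .nil (.node 2 6 (.cons 0x9087621543 (.cons 0x9326510784 (.cons 0x5623489071 (.cons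 0x4870932651 .nil)))) .done (.node 7 9 (.cons 0x2348790651 .nil) (.node 5 8 (.cons 0x6097851234 .nil) (.node 3 7 (.cons 0x9021873456 .nil) (.node 6 8 (.cons 0x9012378654 .nil) .done .done) .done) (.leaf 0x5609784321 0 .done)) .done)) .done)) .done) .done))) (.node 4 8 (.cons 0x5678439021 .nil) (.leaf 0x2156784390 2 (.node 0 8 .nil (.node 1 4 (.cons 0x9341208765 (.cons 0x5678093412 .nil)) (.node 3 5 (.cons 0x7609843512 .nil) (.leaf 0x2148765390 1 (.leaf 0x1487653902 2 (.leaf 0x7653412098 1 .done))) .done) (.node 0 5 (.cons 0x6509871234 .nil) (.node 0 7 .nil (.node 4 6 (.cons 0x5643217890 (.cons 0x9807156432 (.cons 0x5643907812 (.cons 0x8907123465 (.cons 0x8907156432 .nil))))) .done (.node 3 8 (.cons 0x6709834512 .nil) (.node 6 8 (.cons 0x7684390215 .nil) (.node 5 8 .nil (.node 1 6 (.cons 0x9078543216 .nil) (.leaf 0x216785439 1 (.leaf 0x8761209345 1 .done)) .done) .done) .done) .done)) .done) .done)) (.node 2 7 (.cons 0x6517234890 .nil) (.leaf 0x3481567209 1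 (.node 0 7 (.cons 0x6517098432 .nil) (.node 7 9 (.cons 0x8432097156 .nil) (.node 0 5 (.cons 0x6509871234 .nil) (.node 5 9 (.cons 0x6590234871 .nil) (.node 6 9 (.cons 0x5690234871 .nil) (.node 2 6 (.cons 0x7156234890 .nil) (.node 4 6 (.cons 0x5189346270 .nil) (.leaf 0x7264398150 1 .done) (.leaf 0x5170984326 1 .done)) .done) .done) .done) .done) .done) (.leaf 0x8906517234 1 .done))) .done))) .done))) (.leaf 0x5439021876 1 .done)))) .done)))
noncomputable def uc9_3_4 : T := (.node 1 8 (.cons 0x9021876543 .nil) tc9_3_18 (.node 1 3 (.cons 0x2134567890 .nil) (.leaf 0x4567890213 0 (.node 3 5 (.cons 0x8902176534 .nil) tc9_3_17 (.node 3 5 (.cons 0x8902176534 .nil) (.node 3 6 (.cons 0x7890123654 .nil) (.node 1 5 (.cons 0x7890651234 .nil) (.node 2 5 .nil (.node 3 8 (.cons 0x7654389021 (.cons 0x4389025671 .nil)) (.leaf 0x2098345671 0 (.node 0 4 (.cons 0x9043876512 (.cons 0x9043876521 (.cons 0x9876043521 (.cons 0x6521789043 (.cons 0x6523409871 .nil))))) .done .done)) (.node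 5 7 .nil (.node 4 6 (.cons 0x5643217890 (.cons 0x8902346571 .nil)) (.leaf 0x3215789064 1 (.leaf 0x9875643210 2 .done)) (.node 0 5 (.cons 0x6509871234 .nil) (.node 5 8 .nil (.node 4 7 (.cons 0x5609874321 (.cons 0x9065874321 (.cons 0x9853476021 .nil))) (.leaf 0x8906743125 2 .done) .done) .done) .done)) .done)) (.node 1 6 .nil (.node 3 7 (.cons 0x4378906512 (.cons 0x8902167345 (.cons 0x4561098732 .nil))) .done (.node 1 8 .nil (.node 7 9 (.cons 0x8790123654 (.cons 0x8120976345 (.cons 0x7981654320 (.cons 0x4563218790 .nil)))) .done (.node 1 9 .nil (.node 0 7 (.cons 0x8907654312 (.cons 0x8709123456 (.cons 0x2345619870 .nil))) (.node 5 8 (.cons 0x6709854312 (.cons 0x3458916702 (.cons 0x6321907854 .nil))) .done .done) .done) .done)) .done)) .done)) (.node 3 8 (.cons 0x7654389021 .nil) (.leaf 0x2098345671 0 (.node 3 9 .nil (.node 2 4 (.cons 0x3987654210 (.cons 0x8765421093 (.cons 0x6789354210 .nil))) (.node 0 5 (.cons 0x6509871234 (.cons 0x9056783421 (.cons 0x2436509871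 (.cons 0x8905671342 .nil)))) .done .done) (.node 1 9 .nil (.node 4 7 (.cons 0x2365478901 (.cons 0x2365478910 (.cons 0x8743219065 (.cons 0x8912067435 (.cons 0x4765389102 .nil))))) .done (.node 1 5 (.cons 0x7890651234 .nil) (.node 1 4 (.cons 0x7890145632 .nil) (.node 2 5 (.cons 0x5214398760 .nil) (.node 0 5 (.cons 0x5067893412 .nil) (.leaf 0x8934125067 1 (.node 1 6 (.cons 0x7893250614 .nil) .done .done)) .done) (.node 2 5 (.cons 0x3678901452 .nil) (.leaf 0x8901452367 1 .done) .done)) .done) .done)) .done)) .done)) .done)) (.node 1 5 (.cons 0x7890651234 .nil) (.node 2 5 .nil (.node 4 7 (.cons 0x9874321560 (.cons 0x8906743125 .nil)) (.leaf 0x6521347890 0 (.leaf 0x3215609874 1 (.leaf 0x8906512347 2 .done))) (.node 5 7 .nil (.node 4 8 (.cons 0x5671209843 (.cons 0x5760984312 (.cons 0x7560984312 .nil))) (.leaf 0x3217560984 1 (.leaf 0x9843217560 2 .done)) (.node 0 5 (.cons 0x6509871234 .nil) (.node 5 8 .nil (.node 4 7 (.cons 0x9874321560 (.cons 0x9065874321 (.cons 0x5890674312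 .nil))) (.leaf 0x8906743125 2 .done) .done) .done) .done)) .done)) (.node 0 5 (.cons 0x6509871234 .nil) (.node 1 9 .nil (.node 4 8 (.cons 0x5671209843 (.cons 0x3489176502 (.cons 0x5348760912 (.cons 0x7843560912 (.cons 0x8435671902 .nil))))) .done (.node 1 8 .nil (.node 2 4 (.cons 0x8905671342 (.cons 0x9187605342 (.cons 0x9067812435 .nil))) (.node 3 9 (.cons 0x8765421093 (.cons 0x5678124390 (.cons 0x7815609342 .nil))) .done .done) (.node 1 4 (.cons 0x6509871432 .nil) (.node 0 3 (.cons 0x9812034567 .nil) (.node 1 6 (.cons 0x5430987612 .nil) .done .done) .done) .done)) .done)) .done) .done)) (.node 3 6 (.cons 0x7890123654 .nil) (.node 3 8 (.cons 0x7654389021 .nil) (.leaf 0x2098345671 0 (.node 0 5 (.cons 0x6509871234 .nil) (.node 3 9 .nil (.node 1 8 (.cons 0x4356718902 (.cons 0x7654398120 .nil)) (.leaf 0x9345678120 0 (.node 2 4 (.cons 0x9056783421 (.cons 0x3987654210 (.cons 0x8765421093 .nil))) (.leaf 0x9024356718 1 .done) .done)) (.node 0 3 .nil (.node 2 4 (.cons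 0x9056783421 (.cons 0x9876542103 (.cons 0x9876301245 .nil))) (.node 1 8 (.cons 0x4356718902 (.cons 0x9812034567 .nil)) (.leaf 0x3567189024 2 (.leaf 0x5342098176 1 .done)) .done) .done) .done)) (.node 3 9 .nil (.node 2 4 (.cons 0x9871243650 (.cons 0x3987654210 (.cons 0x8765421093 .nil))) (.leaf 0x1789056342 0 .done) (.node 1 6 .nil (.node 2 4 (.cons 0x9871243650 (.cons 0x2453987610 (.cons 0x8761093542 (.cons 0x6178905342 .nil)))) .done (.node 1 5 (.cons 0x7890651234 .nil) (.node 2 6 (.cons 0x7893621054 .nil) (.node 4 7 (.cons 0x9874563210 .nil) (.node 0 8 (.cons 0x5476213980 .nil) (.leaf 0x1267450893 1 (.node 2 9 (.cons 0x2934516780 .nil) (.leaf 0x6154392087 1 .done) .done)) (.leaf 0x6743890215 2 (.leaf 0x3890215674 1 (.leaf 0x8906512347 2 .done)))) .done) .done) .done)) .done)) .done)) .done)) (.node 0 3 .nil (.node 2 4 (.cons 0x8902435671 (.cons 0x9876542103 .nil)) (.node 1 8 (.cons 0x4356718902 (.cons 0x9812034567 .nil)) (.leaf 0x3567189024 2 (.leaf 0x5342098176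 1 .done)) (.node 1 6 (.cons 0x9876103542 .nil) (.node 0 5 (.cons 0x6178905342 .nil) (.leaf 0x7612435098 1 .done) .done) .done)) (.node 1 6 (.cons 0x5430987612 .nil) (.node 2 6 (.cons 0x5430987621 .nil) (.node 3 9 .nil (.node 2 4 (.cons 0x8902435671 (.cons 0x3987654210 (.cons 0x8765421093 (.cons 0x2453987610 .nil)))) .done (.node 2 9 (.cons 0x4530167892 .nil) (.node 3 7 (.cons 0x8920167354 .nil) (.node 3 8 (.cons 0x7654389021 .nil) .done .done) .done) .done)) .done) .done) .done)) .done)) .done))) (.node 6 8 (.cons 0x7689021345 .nil) tc9_3_16 .done)))) (.node 0 7 .nil tc9_3_15 .done)))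
theorem sub_c9_3_4 : root 9 refs9_3 [] 0x700000008706000000006030000400030500004000504000000004010000000010300000000302000400002018004000010 0xfe7fff3fffa7ffc7ffcfffedfff5fff3ffe9feed 9 0 2 (.cons 0x3456789021 .nil) uc9_3_4 = true := by decide +kernel
noncomputable def tc9_3_19 : T := (.node 3 6 (.cons 0x2365478901 (.cons 0x9870123654 .nil)) (.node 1 3 (.cons 0x2134567890 (.cons 0x8907654312 .nil)) (.node 6 9 (.cons 0x8965470132 (.cons 0x4569870132 .nil)) (.leaf 0x5698701234 2 (.node 0 2 (.cons 0x8965470231 .nil) (.leaf 0x1345698702 2 (.node 1 6 (.cons 0x5478961320 (.cons 0x8961320745 .nil)) .done .done)) .done)) (.node 1 8 (.cons 0x9018745632 .nil) (.node 2 9 (.cons 0x9236547810 (.cons 0x5607432981 .nil)) (.leaf 0x7456329018 1 (.node 4 9 (.cons 0x5632947810 (.cons 0x8107492365 (.cons 0x5634921870 .nil))) (.leaf 0x3218709456 1 .done) (.leaf 0x7456329810 0 .done))) (.node 1 9 (.cons 0x6543219870 .nil) (.leaf 0x3219870654 1 (.node 2 6 (.cons 0x3265478901 (.cons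 0x8910745623 (.cons 0x7098126543 .nil))) (.node 3 7 (.cons 0x6543709812 .nil) (.leaf 0x8126543709 1 .done) .done) .done)) .done)) .done)) (.node 2 8 (.cons 0x5436712890 (.cons 0x9823654701 (.cons 0x5436709821 .nil))) (.node 1 5 (.cons 0x2347890651 (.cons 0x9870651234 (.cons 0x2890743651 .nil))) (.node 1 8 (.cons 0x9065187432 (.cons 0x9810745632 (.cons 0x9074365182 .nil))) .done (.leaf 0x7098215436 0 .done)) (.leaf 0x3289017456 2 .done)) (.node 6 9 (.cons 0x1234569870 .nil) (.leaf 0x5698701234 2 (.node 1 3 (.cons 0x2134567890 (.cons 0x8965470132 (.cons 0x8907654312 .nil))) (.node 2 8 (.cons 0x9013287456 (.cons 0x3289654701 .nil)) (.leaf 0x745698231 0 (.node 1 4 (.cons 0x7890145632 (.cons 0x9870145632 (.cons 0x5670982143 .nil))) (.node 1 5 (.cons 0x2347890651 (.cons 0x1569823470 .nil)) (.leaf 0x8234701569 1 .done) .done) (.leaf 0x5690782134 2 .done))) (.node 1 9 (.cons 0x6543219870 .nil) (.leaf 0x3219870654 1 (.node 6 8 (.cons 0x9078654321 .nil) (.node 0 3 (.cons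 0x7865430912 (.cons 0x5430986712 .nil)) (.node 1 8 (.cons 0x5430769812 .nil) .done .done) (.leaf 0x4568709123 1 (.leaf 0x786543219 1 .done))) .done)) .done)) (.node 7 9 .nil (.node 6 8 (.cons 0x9078654321 (.cons 0x1234568790 (.cons 0x1234568970 .nil))) .done (.node 1 8 (.cons 0x4569078123 .nil) (.node 0 2 (.cons 0x3209654781 (.cons 0x5436718902 .nil)) (.node 0 3 (.cons 0x2309654781 (.cons 0x7654309812 .nil)) .done .done) (.leaf 0x2345690781 2 (.node 1 9 (.cons 0x6543219870 .nil) (.leaf 0x3219870654 1 (.node 2 6 (.cons 0x3265478901 (.cons 0x8910745623 (.cons 0x8190743265 (.cons 0x5623470981 .nil)))) .done (.node 2 6 (.cons 0x3265478901 (.cons 0x3456219870 (.cons 0x8709126543 (.cons 0x5623470981 .nil)))) .done .done))) (.leaf 0x7096543218 1 .done)))) .done)) .done))) .done))) (.node 0 2 (.cons 0x3456789021 .nil) (.node 6 8 (.cons 0x9078654321 .nil) (.node 1 9 (.cons 0x9123456870 .nil) (.node 1 6 .nil (.node 5 9 (.cons 0x3459867120 (.cons 0x7168954320 .nil)) (.leaf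 0x1234590786 2 (.leaf 0x2168709543 1 .done)) (.node 1 3 (.cons 0x2134567890 .nil) (.leaf 0x4567890213 0 (.node 1 5 (.cons 0x2347890651 .nil) (.leaf 0x8906512347 2 (.node 1 8 (.cons 0x5674318902 .nil) .done .done)) .done)) .done)) (.node 1 8 (.cons 0x9078123456 .nil) (.node 7 9 (.cons 0x9702186543 .nil) (.node 5 7 (.cons 0x1986574320 .nil) (.node 4 8 (.cons 0x6574891023 .nil) (.node 0 4 (.cons 0x6578912340 .nil) (.node 4 9 (.cons 0x1234987560 .nil) (.leaf 0x5601234987 1 .done) .done) .done) .done) .done) .done) (.leaf 0x4568709123 1 .done))) (.node 5 7 (.cons 0x6890234571 .nil) (.node 3 7 .nil (.node 4 9 (.cons 0x1234987560 (.cons 0x6894573201 (.cons 0x8943756021 .nil))) (.leaf 0x5601234987 1 .done) (.node 1 3 (.cons 0x2134567890 .nil) (.leaf 0x4567890213 0 (.node 2 7 (.cons 0x9013278654 .nil) (.node 7 9 (.cons 0x4568790132 .nil) .done .done) (.node 2 7 (.cons 0x7231098654 .nil) (.leaf 0x9865472310 2 .done) .done))) .done)) (.node 7 9 .nil (.node 1 6 (.cons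 0x4571689023 (.cons 0x8974561023 (.cons 0x8617902345 .nil))) (.node 3 6 (.cons 0x2365478901 (.cons 0x8974563201 (.cons 0x8790123654 .nil))) .done .done) (.node 3 7 .nil (.node 1 4 (.cons 0x5689732014 (.cons 0x9014568732 (.cons 0x8906573214 (.cons 0x5609873412 .nil)))) (.leaf 0x9873214560 1 .done) (.node 2 7 .nil (.node 1 9 (.cons 0x2345687091 (.cons 0x8654327091 (.cons 0x1986543720 .nil))) .done .done) .done)) .done)) .done)) (.node 1 9 (.cons 0x4568709123 .nil) (.leaf 0x2190786543 2 (.node 1 3 (.cons 0x2134567890 .nil) (.leaf 0x4567890213 0 (.node 7 9 (.cons 0x8654790231 .nil) (.node 2 9 (.cons 0x8765431290 .nil) (.node 5 7 .nil (.node 4 8 (.cons 0x8456790213 (.cons 0x6574891023 (.cons 0x9065784312 .nil))) (.leaf 0x2348756091 1 .done) (.node 4 9 (.cons 0x8657491320 .nil) (.leaf 0x5601234987 1 (.node 2 7 (.cons 0x3127865490 .nil) (.node 3 7 (.cons 0x2137865490 .nil) .done .done) .done)) .done)) .done) .done) (.leaf 0x9865471320 1 .done))) (.leaf 0x786543219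 1 .done))) .done))) (.node 1 9 (.cons 0x8709123456 .nil) (.node 6 8 (.cons 0x9078654321 .nil) (.node 1 6 .nil (.node 2 8 (.cons 0x9107456823 (.cons 0x8234709165 .nil)) (.leaf 0x5619078234 1 .done) (.node 1 5 (.cons 0x2347890651 .nil) (.leaf 0x8906512347 2 (.node 1 8 (.cons 0x9078123456 .nil) (.node 4 6 (.cons 0x9078123465 .nil) (.node 2 6 (.cons 0x3265478901 .nil) (.node 2 8 (.cons 0x9107456823 .nil) .done .done) .done) .done) .done)) .done)) (.node 6 9 (.cons 0x8709654321 .nil) (.node 1 8 (.cons 0x7091865432 .nil) (.leaf 0x2345690781 2 (.node 2 8 (.cons 0x8219076543 .nil) (.node 3 8 (.cons 0x9128345670 .nil) (.leaf 0x7654382190 2 .done) (.node 1 3 (.cons 0x2134567890 .nil) (.node 2 9 (.cons 0x6547892310 .nil) (.node 7 9 (.cons 0x4568231970 .nil) .done .done) (.leaf 0x2319074568 2 .done)) .done)) (.leaf 0x7096543218 1 .done))) .done) (.leaf 0x2190786543 2 .done))) (.node 1 8 (.cons 0x9078123456 .nil) (.node 6 9 (.cons 0x9654321870 .nil) (.node 2 9 (.cons 0x8107456923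 .nil) (.node 7 9 (.cons 0x8123456970 .nil) .done .done) (.node 6 8 (.cons 0x9078654321 .nil) (.node 1 3 (.cons 0x2134567890 .nil) (.node 2 8 (.cons 0x7823109654 .nil) (.leaf 0x3109654782 0 .done) (.node 1 6 (.cons 0x9618702345 .nil) (.node 1 4 (.cons 0x9078654123 .nil) (.node 1 5 (.cons 0x2347890651 .nil) .done .done) .done) .done)) .done) (.leaf 0x2345690781 2 .done))) (.node 6 9 (.cons 0x8709654321 .nil) (.leaf 0x4569078123 1 (.node 1 5 (.cons 0x2347890651 .nil) (.leaf 0x8906512347 2 (.node 7 9 (.cons 0x8790651234 .nil) (.node 2 9 (.cons 0x8743290651 .nil) (.node 3 9 (.cons 0x6543907812 .nil) (.node 0 8 (.cons 0x6780934512 .nil) (.node 5 7 .nil (.node 1 3 (.cons 0x2134567890 (.cons 0x2981347560 (.cons 0x8902134576 .nil))) .done (.node 1 3 (.cons 0x2981347560 .nil) (.leaf 0x9813475602 1 (.leaf 0x7431892065 1 .done)) .done)) .done) .done) .done) .done) (.node 6 8 (.cons 0x9078654321 .nil) (.node 2 8 (.cons 0x9682345170 .nil) (.leaf 0x4328906517 1 (.node 0 8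 (.cons 0x9680715432 .nil) (.node 5 8 (.cons 0x6098517432 .nil) .done .done) .done)) (.node 2 8 (.cons 0x7432890651 .nil) (.leaf 0x7154328690 0 (.leaf 0x4328906517 1 .done)) .done)) .done))) (.leaf 0x7096543218 1 .done))) .done)) (.node 6 8 (.cons 0x9078654321 .nil) (.leaf 0x4568709123 1 (.node 1 5 (.cons 0x2347890651 .nil) (.leaf 0x8906512347 2 (.node 7 9 (.cons 0x6879023451 .nil) (.node 0 4 (.cons 0x2340978651 .nil) (.leaf 0x3215687904 2 (.leaf 0x9786512340 1 .done)) (.node 6 9 (.cons 0x2345178690 .nil) (.node 1 6 (.cons 0x4516879023 .nil) (.node 3 6 (.cons 0x2365478901 .nil) (.node 4 6 (.cons 0x3209786451 .nil) .done .done) .done) .done) .done)) (.node 3 7 (.cons 0x2098673451 .nil) (.node 5 7 (.cons 0x4375198602 .nil) (.node 2 7 (.cons 0x6891543720 .nil) (.node 7 9 (.cons 0x6897320154 .nil) .done .done) .done) (.node 4 8 (.cons 0x2156734890 .nil) (.leaf 0x3765120984 1 (.node 3 8 (.cons 0x6543870912 .nil) (.node 2 7 (.cons 0x2743891560 .nil) (.leaf 0x1983472065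 1 (.node 2 8 (.cons 0x4376512890 .nil) (.leaf 0x4328906517 1 .done) .done)) .done) (.leaf 0x9843765120 2 .done))) .done)) .done))) (.leaf 0x786543219 1 .done))) .done))) .done)) .done))
noncomputable def tc9_3_20 : T := (.leaf 0x3215609874 1 (.node 7 9 (.cons 0x8790651234 .nil) (.node 1 9 (.cons 0x8743219065 .nil) (.node 1 6 .nil (.node 0 2 (.cons 0x3456789021 .nil) (.node 3 9 (.cons 0x8765439021 (.cons 0x8761209345 (.cons 0x8745610932 .nil))) .done (.leaf 0x4320987165 1 (.node 3 7 (.cons 0x8902167345 .nil) (.node 6 8 (.cons 0x5437689120 (.cons 0x8673451902 (.cons 0x8654732190 .nil))) .done (.leaf 0x4378902165 2 .done)) .done))) (.node 1 3 (.cons 0x2134567890 .nil) (.node 1 4 .nil (.node 3 7 (.cons 0x5609873412 .nil) (.leaf 0x9873214560 1 (.leaf 0x1237890654 1 .done)) (.node 1 8 .nil (.node 2 9 (.cons 0x1654329870 .nil) (.leaf 0x3290651874 2 (.leaf 0x651874329 1 .done)) .done) .done)) .done) .done)) (.node 3 7 .nil (.node 1 4 (.cons 0x5609873412 .nil) (.leaf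 0x9873214560 1 (.node 6 9 (.cons 0x8745690123 (.cons 0x8965410732 (.cons 0x2378965410 .nil))) (.node 2 9 (.cons 0x5607892341 (.cons 0x8923701456 .nil)) (.node 5 8 (.cons 0x9065874321 (.cons 0x6092158734 (.cons 0x4158732960 .nil))) (.leaf 0x4785609123 1 (.leaf 0x658743219 1 .done)) .done) .done) (.node 6 8 (.cons 0x4321568790 (.cons 0x9865410732 (.cons 0x7321456890 .nil))) (.node 2 5 (.cons 0x9068715234 (.cons 0x4378912560 (.cons 0x6890173254 .nil))) (.leaf 0x8901452376 1 .done) .done) .done))) (.node 5 7 .nil (.node 4 6 (.cons 0x8906432175 .nil) (.leaf 0x8901234657 1 (.leaf 0x3215789064 1 (.leaf 0x987512346 2 .done))) (.node 2 7 .nil (.node 3 5 (.cons 0x8743560912 .nil) (.node 4 8 (.cons 0x6512348790 (.cons 0x7219843560 (.cons 0x5348906721 (.cons 0x9065127843 (.cons 0x4891065372 .nil))))) .done (.node 2 4 (.cons 0x1987243560 (.cons 0x8910653724 (.cons 0x8724351906 .nil))) .done .done)) .done) .done)) .done)) .done)) (.node 5 7 .nil (.node 4 6 (.cons 0x8906432175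 .nil) (.leaf 0x8901234657 1 (.leaf 0x3215789064 1 (.leaf 0x987512346 2 .done))) (.node 6 9 (.cons 0x8745690123 .nil) (.node 1 6 .nil (.node 2 8 (.cons 0x8234517096 (.cons 0x5432896170 (.cons 0x1698234570 .nil))) (.leaf 0x982345617 1 (.leaf 0x5169078234 1 .done)) (.node 4 6 .nil (.node 2 9 (.cons 0x1654329870 (.cons 0x5461078923 (.cons 0x8709234651 .nil))) .done (.node 2 5 (.cons 0x5234609871 .nil) (.node 3 7 (.cons 0x8901732546 .nil) (.node 2 7 .nil (.node 0 8 (.cons 0x3254617980 (.cons 0x3275469801 (.cons 0x8096512734 .nil))) .done .done) .done) (.leaf 0x6098715234 1 .done)) .done)) .done)) (.node 4 9 (.cons 0x1234987560 .nil) (.leaf 0x5601234987 1 (.node 6 8 (.cons 0x9432157860 .nil) (.node 0 5 (.cons 0x6057894321 .nil) (.leaf 0x2150687943 1 (.leaf 0x8605123497 1 .done)) (.node 3 7 (.cons 0x6873215490 .nil) (.node 2 7 .nil (.node 1 3 (.cons 0x2134567890 (.cons 0x4569872310 (.cons 0x4568907231 .nil))) .done .done) .done) .done)) (.node 2 7 (.cons 0x8721560943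 .nil) (.node 3 7 (.cons 0x8734906512 .nil) .done .done) .done))) .done)) .done)) .done)) (.node 1 9 (.cons 0x8743219065 .nil) (.node 1 3 (.cons 0x2134567890 .nil) (.node 1 6 .nil (.node 2 8 (.cons 0x8234709156 (.cons 0x3451670982 .nil)) (.leaf 0x3456190782 2 (.leaf 0x982345617 1 (.leaf 0x7091654328 1 .done))) (.node 1 8 (.cons 0x9078165432 .nil) (.node 1 4 .nil (.node 2 5 (.cons 0x9065218743 (.cons 0x6523419870 (.cons 0x8709143256 (.cons 0x9870652314 .nil)))) .done .done) .done) .done)) (.node 1 6 .nil (.node 2 8 (.cons 0x8234709156 (.cons 0x3451670982 (.cons 0x9078231654 .nil))) (.leaf 0x3456190782 2 (.leaf 0x982345617 1 .done)) (.node 7 9 .nil (.node 0 2 (.cons 0x3456789021 (.cons 0x8970234561 (.cons 0x8970234516 .nil))) (.leaf 0x3456198702 2 .done) (.node 1 4 .nil (.node 6 8 (.cons 0x5687432190 (.cons 0x2314568790 (.cons 0x9078654132 .nil))) .done (.node 1 8 .nil (.node 2 7 (.cons 0x5609872143 (.cons 0x9815607234 (.cons 0x6518907234 .nil))) .done .done)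 .done)) .done)) .done)) .done)) (.node 1 4 .nil (.node 3 7 (.cons 0x5609873412 .nil) (.leaf 0x9873214560 1 (.leaf 0x1237890654 1 (.node 2 6 (.cons 0x8907154326 (.cons 0x9870145623 (.cons 0x8907326514 .nil))) (.node 0 2 (.cons 0x3456789021 (.cons 0x8902143765 .nil)) (.node 0 8 (.cons 0x7809126543 (.cons 0x9087341265 .nil)) .done .done) (.node 5 8 (.cons 0x9065874321 (.cons 0x2658914370 (.cons 0x7341265890 (.cons 0x7326589014 (.cons 0x9065874123 .nil))))) .done .done)) .done))) (.node 1 8 .nil (.node 1 6 (.cons 0x9078165432 .nil) .done (.node 1 3 (.cons 0x2134567890 .nil) (.node 1 6 .nil (.node 2 5 (.cons 0x9870652341 (.cons 0x9078165234 .nil)) (.node 2 8 (.cons 0x6543190782 (.cons 0x3451670982 (.cons 0x9078231654 .nil))) .done (.leaf 0x6189074325 1 .done)) .done) .done) .done)) .done)) .done)) (.node 3 7 (.cons 0x4378906512 .nil) (.node 1 9 (.cons 0x8743219065 .nil) (.node 1 4 .nil (.node 2 6 (.cons 0x8910732654 (.cons 0x9870145623 (.cons 0x8914562370 .nil)))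 (.node 3 8 (.cons 0x9012387456 (.cons 0x9078341562 (.cons 0x9014562387 .nil))) (.leaf 0x4190783265 2 .done) (.leaf 0x1456237890 0 .done)) (.node 2 4 (.cons 0x9873421560 .nil) (.leaf 0x6512437890 0 (.node 5 7 (.cons 0x6098751243 .nil) (.node 2 7 (.cons 0x8914327065 .nil) (.node 7 9 .nil (.node 0 5 (.cons 0x8912437605 (.cons 0x8973421506 .nil)) (.node 2 5 (.cons 0x9870652341 (.cons 0x8970652341 .nil)) (.leaf 0x652341987 1 .done) .done) .done) .done) .done) .done)) .done)) (.node 1 8 .nil (.node 6 9 (.cons 0x4569873210 (.cons 0x4569810732 (.cons 0x3218745690 .nil))) (.node 0 2 (.cons 0x4569873201 (.cons 0x9021876543 (.cons 0x7320189654 .nil))) (.node 0 3 (.cons 0x9034567812 (.cons 0x7654309812 .nil)) (.node 1 6 (.cons 0x7896154302 (.cons 0x9078165432 (.cons 0x7098165432 .nil))) .done .done) .done) .done) (.node 1 4 .nil (.node 2 5 (.cons 0x6523419870 (.cons 0x8709143256 (.cons 0x9814325607 .nil))) (.node 5 9 (.cons 0x7065981432 (.cons 0x4106598732 (.cons 0x4123789560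 .nil))) .done (.leaf 0x6521437890 2 .done)) (.node 7 9 (.cons 0x5607981432 .nil) (.node 5 7 .nil (.node 2 7 (.cons 0x9814327065 .nil) (.leaf 0x4327560981 1 .done) .done) .done) .done)) .done)) .done)) (.node 1 9 (.cons 0x8743219065 .nil) (.node 1 4 .nil (.node 5 8 (.cons 0x9065874321 (.cons 0x7065891432 (.cons 0x9065874123 .nil))) (.node 2 7 (.cons 0x7234198560 (.cons 0x8560914723 .nil)) (.leaf 0x9143270658 2 .done) .done) (.node 1 3 (.cons 0x2134567890 .nil) (.node 1 6 .nil (.node 0 2 (.cons 0x3456789021 .nil) (.node 3 9 (.cons 0x8765439021 (.cons 0x8761209345 (.cons 0x8745610932 .nil))) .done (.leaf 0x6120987345 1 (.leaf 0x8902165437 1 .done))) .done) .done) .done)) (.node 1 8 .nil (.node 1 6 (.cons 0x9078165432 (.cons 0x7098165432 .nil)) (.node 0 2 (.cons 0x3456789021 (.cons 0x9021876543 (.cons 0x9816543207 .nil))) (.node 0 3 (.cons 0x9876120345 (.cons 0x9034567812 (.cons 0x7654309812 .nil))) .done .done) .done) (.node 1 4 .nil (.node 0 5 (.cons 0x8743219056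 (.cons 0x8905673412 .nil)) (.node 6 8 (.cons 0x5687432190 (.cons 0x7865091432 (.cons 0x9056873214 .nil))) .done .done) (.node 7 9 (.cons 0x5607981432 .nil) (.node 2 7 (.cons 0x9814327065 .nil) (.node 2 4 (.cons 0x6512437890 .nil) (.node 5 7 (.cons 0x6098751243 .nil) .done .done) .done) .done) .done)) .done)) .done)) .done)) .done))))
noncomputable def tc9_3_21 : T := (.node 1 9 (.cons 0x8912347065 .nil) (.leaf 0x3219870654 1 (.node 1 3 (.cons 0x2134567890 (.cons 0x8907654312 .nil)) (.node 2 9 (.cons 0x8921345670 .nil) (.leaf 0x3129870654 1 (.leaf 0x7892134560 1 .done)) (.node 3 6 (.cons 0x9874563210 (.cons 0x9870123654 .nil)) (.node 5 8 (.cons 0x2176345890 (.cons 0x9854367021 (.cons 0x2198563470 (.cons 0x4701985632 (.cons 0x6321709854 .nil))))) .done (.node 2 9 (.cons 0x8765431290 (.cons 0x8923654701 .nil)) (.node 6 9 (.cons 0x5478963201 (.cons 0x8965470123 .nil)) .done .done) .done)) .done)) (.node 1 5 (.cons 0x9874321560 (.cons 0x9870651234 .nil)) (.node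 3 5 (.cons 0x2198743560 (.cons 0x4356078912 .nil)) (.leaf 0x1987435602 1 (.node 1 4 (.cons 0x9874106532 .nil) (.node 2 4 (.cons 0x9874235601 .nil) (.leaf 0x6078912435 0 .done) .done) .done)) (.node 6 8 (.cons 0x7689021543 (.cons 0x9867021543 (.cons 0x6890715432 .nil))) (.leaf 0x786543219 1 .done) .done)) .done))) (.node 1 9 (.cons 0x8709123456 .nil) (.node 6 8 (.cons 0x9078654321 .nil) (.node 1 6 .nil (.node 2 8 (.cons 0x8219076543 .nil) (.leaf 0x6190782345 2 (.leaf 0x5619078234 1 .done)) (.node 0 8 (.cons 0x7432198065 .nil) (.node 1 8 (.cons 0x9078123456 .nil) (.node 2 8 (.cons 0x8219076543 .nil) (.node 2 7 (.cons 0x9087216543 .nil) (.node 2 9 (.cons 0x7809216543 .nil) .done .done) .done) .done) (.node 2 7 (.cons 0x9087234561 .nil) (.leaf 0x6190872345 2 (.leaf 0x5619087234 1 .done)) .done)) .done)) (.node 6 9 (.cons 0x8709654321 .nil) (.node 2 9 (.cons 0x8654701923 .nil) (.node 1 8 (.cons 0x5681923470 .nil) (.leaf 0x2345690781 2 (.node 2 7 (.cons 0x3274568910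 .nil) (.leaf 0x918654327 1 .done) (.leaf 0x7096543218 1 .done))) .done) .done) (.leaf 0x2190786543 2 .done))) (.node 1 8 (.cons 0x9078123456 .nil) (.node 6 9 (.cons 0x9654321870 .nil) (.node 1 6 .nil (.node 3 7 (.cons 0x8965473210 (.cons 0x4561098732 .nil)) (.leaf 0x8902165437 1 .done) (.node 4 6 (.cons 0x8709123465 .nil) (.node 2 9 (.cons 0x5643291870 .nil) (.node 7 9 (.cons 0x8123456970 .nil) (.node 1 3 (.cons 0x2134567890 .nil) (.node 1 5 (.cons 0x9874321560 .nil) (.node 5 9 (.cons 0x6187954320 .nil) .done .done) .done) .done) .done) .done) .done)) (.node 6 8 (.cons 0x9078654321 .nil) (.node 2 8 .nil (.node 1 3 (.cons 0x2134567890 (.cons 0x9654782310 (.cons 0x7456982310 .nil))) .done (.node 2 7 .nil (.node 1 3 (.cons 0x2134567890 (.cons 0x8723109654 (.cons 0x8965472310 .nil))) .done (.node 7 9 .nil (.node 1 4 (.cons 0x5690782341 (.cons 0x3214568790 (.cons 0x5418697023 .nil))) (.node 1 5 (.cons 0x9874321560 (.cons 0x6978154320 (.cons 0x8974321560 .nil)))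 .done .done) .done) .done)) .done)) .done) (.leaf 0x2345690781 2 .done))) (.node 6 9 (.cons 0x8709654321 .nil) (.leaf 0x4569078123 1 (.node 0 8 .nil (.node 1 3 (.cons 0x2134567890 (.cons 0x9087654312 (.cons 0x7456980132 .nil))) (.node 1 5 (.cons 0x9874321560 (.cons 0x6908715432 (.cons 0x9806512347 .nil))) .done .done) (.node 0 3 .nil (.node 0 5 (.cons 0x6503478912 .nil) (.node 2 7 (.cons 0x2743056981 .nil) (.leaf 0x5698127430 2 (.leaf 0x569812743 1 .done)) .done) (.node 2 7 (.cons 0x8965472301 .nil) (.leaf 0x6981032745 1 (.node 7 9 (.cons 0x5603479812 .nil) .done .done)) .done)) .done)) (.leaf 0x7096543218 1 .done))) .done)) (.node 6 8 (.cons 0x9078654321 .nil) (.leaf 0x4568709123 1 (.node 0 3 (.cons 0x5603478912 .nil) (.node 2 5 (.cons 0x3478912560 .nil) (.node 2 7 (.cons 0x6891725430 .nil) (.leaf 0x6891032745 1 (.leaf 0x1986034527 0 .done)) (.leaf 0x6521987430 2 (.leaf 0x9867125430 2 (.leaf 0x986712543 1 .done)))) (.node 3 7 .nil (.node 1 4 (.cons 0x9014568732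 .nil) (.leaf 0x9873214560 1 (.node 2 5 (.cons 0x3478912560 (.cons 0x4378912560 (.cons 0x6873452091 (.cons 0x6891025473 (.cons 0x3768902541 .nil))))) .done .done)) (.node 6 9 (.cons 0x8709654321 .nil) (.node 0 8 (.cons 0x7456980123 .nil) (.leaf 0x6980123745 1 .done) (.node 1 8 (.cons 0x4569078123 .nil) (.leaf 0x2345690781 2 (.node 2 6 (.cons 0x9874562301 .nil) (.leaf 0x8745623019 2 (.node 2 4 (.cons 0x7819034265 .nil) (.node 4 6 (.cons 0x9078123465 .nil) .done .done) (.node 0 5 (.cons 0x8962305471 .nil) (.leaf 0x9817450326 2 (.leaf 0x6981745032 1 .done)) .done))) .done)) .done)) .done)) .done)) (.leaf 0x786543219 1 .done))) .done))) (.node 0 8 .nil (.node 6 9 (.cons 0x7456980123 .nil) (.node 1 5 (.cons 0x9874321560 (.cons 0x6987023451 (.cons 0x8769021543 (.cons 0x9806512347 (.cons 0x5120698743 .nil))))) .done (.node 3 6 (.cons 0x9874563210 (.cons 0x5471089632 .nil)) (.node 2 4 (.cons 0x5423698710 (.cons 0x7108963245 .nil)) (.node 1 3 (.cons 0x2134567890 (.cons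 0x9087654312 (.cons 0x7456980132 .nil))) (.node 1 5 (.cons 0x9876345120 (.cons 0x9678024315 (.cons 0x6908715432 (.cons 0x5134769802 (.cons 0x7809651342 .nil))))) .done .done) .done) (.node 1 5 (.cons 0x9874321560 (.cons 0x6908715432 (.cons 0x9806512347 .nil))) (.leaf 0x4367890215 2 (.leaf 0x7451023698 1 .done)) .done)) (.node 0 3 (.cons 0x9654780321 (.cons 0x7456980321 .nil)) .done .done))) (.node 3 7 .nil (.node 1 6 (.cons 0x9087345612 (.cons 0x8902167345 .nil)) (.node 6 9 (.cons 0x8965473210 (.cons 0x5478961023 .nil)) (.leaf 0x7456980123 0 .done) (.node 1 5 (.cons 0x9874321560 (.cons 0x8902154376 (.cons 0x4378906512 .nil))) (.node 6 9 (.cons 0x5432078961 (.cons 0x8965473210 (.cons 0x9615437802 .nil))) (.leaf 0x7456980123 0 .done) .done) .done)) (.node 5 7 .nil (.node 4 8 (.cons 0x9012378456 .nil) (.node 1 9 (.cons 0x6543780912 (.cons 0x8912347560 .nil)) (.leaf 0x2348756091 1 (.node 3 6 (.cons 0x9874563210 (.cons 0x6345789120 (.cons 0x3675489012 .nil))) (.leaf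 0x9875436021 0 .done) .done)) (.leaf 0x984321756 1 .done)) (.node 0 3 .nil (.node 1 9 (.cons 0x6543780912 (.cons 0x8912306574 (.cons 0x5603478912 .nil))) (.node 0 4 (.cons 0x8912304756 .nil) (.node 4 6 (.cons 0x5643780912 (.cons 0x8903217546 (.cons 0x5647891032 .nil))) .done .done) .done) (.node 2 7 (.cons 0x8903456721 .nil) (.node 7 9 .nil (.node 1 5 (.cons 0x9874321560 (.cons 0x6512798034 (.cons 0x8790651234 (.cons 0x8974321560 (.cons 0x8974306512 .nil))))) .done .done) .done) .done)) .done)) (.node 7 9 .nil (.node 3 6 (.cons 0x9874563210 (.cons 0x8790123654 (.cons 0x8974563210 .nil))) (.leaf 0x9801236547 2 (.node 1 3 (.cons 0x2134567890 (.cons 0x5608974312 .nil)) (.node 2 4 (.cons 0x9876310245 (.cons 0x9780136542 (.cons 0x7980136542 .nil))) .done (.node 2 9 (.cons 0x8013654792 .nil) (.node 1 9 (.cons 0x2365478910 .nil) (.node 2 5 (.cons 0x8910254763 (.cons 0x9780652134 (.cons 0x8065219743 (.cons 0x3479806521 (.cons 0x8025479136 .nil))))) .done (.leaf 0x8745632019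 0 .done)) (.leaf 0x8792134560 1 .done)) .done)) .done)) (.node 5 7 .nil (.node 1 3 (.cons 0x2134567890 (.cons 0x9806574312 .nil)) (.node 6 9 (.cons 0x4569870132 (.cons 0x8967543120 .nil)) (.node 1 6 (.cons 0x5478961023 (.cons 0x8754320961 (.cons 0x7543169802 .nil))) .done .done) (.node 2 9 (.cons 0x8765431290 (.cons 0x3475608921 (.cons 0x6578092134 .nil))) .done .done)) (.node 2 7 .nil (.node 1 3 (.cons 0x2134567890 (.cons 0x9087213456 .nil)) (.node 6 9 (.cons 0x4569870132 (.cons 0x7213456980 (.cons 0x4569872310 .nil))) .done (.node 1 8 (.cons 0x9065781234 .nil) (.leaf 0x3456720981 1 (.leaf 0x9813456720 2 .done)) .done)) .done) .done)) .done)) .done))) .done)) .done)))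
noncomputable def tc9_3_22 : T := (.node 0 7 .nil (.node 1 9 (.cons 0x8912347065 .nil) (.leaf 0x3219870654 1 (.node 1 8 (.cons 0x9021876543 .nil) (.node 6 9 (.cons 0x8965470123 (.cons 0x9654320781 .nil)) (.leaf 0x5698701234 2 (.leaf 0x2345690781 2 .done)) (.node 3 9 (.cons 0x6547893210 (.cons 0x5607439812 .nil)) (.leaf 0x2093456781 1 (.leaf 0x5439021876 1 .done)) .done)) (.node 6 8 (.cons 0x9120786543 .nil) (.node 3 9 (.cons 0x6547893210 (.cons 0x7456893210 (.cons 0x5687439120 .nil))) (.leaf 0x2193456870 1 (.leaf 0x4390217865 2 .done)) (.node 1 5 (.cons 0x9874321560 (.cons 0x9870651234 (.cons 0x6890715432 .nil))) (.node 2 9 (.cons 0x6871543290 (.cons 0x3298654701 (.cons 0x6870923451 (.cons 0x4329078651 .nil)))) (.node 6 9 (.cons 0x2345178690 (.cons 0x8690715432 .nil)) .done .done) .done) (.leaf 0x786543219 1 .done))) .done))) (.node 1 8 (.cons 0x9021876543 .nil) (.node 3 9 (.cons 0x6547893210 .nil) (.node 6 8 (.cons 0x7456893210 .nil) (.node 5 8 (.cons 0x2093458671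 .nil) (.node 1 9 (.cons 0x7865432091 .nil) (.leaf 0x5602193478 2 (.leaf 0x4568719023 2 .done)) (.leaf 0x9021768543 1 .done)) (.node 6 9 (.cons 0x9654320781 .nil) (.node 7 9 (.cons 0x1879654320 .nil) (.leaf 0x8796543201 2 (.node 0 3 (.cons 0x8120397654 .nil) (.node 5 9 (.cons 0x1234789560 .nil) (.leaf 0x2039547681 0 .done) .done) .done)) .done) .done)) (.leaf 0x7654390218 2 (.leaf 0x6781209345 1 (.node 6 9 (.cons 0x8745693201 .nil) (.node 1 9 (.cons 0x9187023456 .nil) (.leaf 0x3207819654 0 (.node 1 6 (.cons 0x2398745610 .nil) (.node 1 4 (.cons 0x5601478932 .nil) (.node 1 5 (.cons 0x9874321560 .nil) .done .done) .done) .done)) (.node 5 9 (.cons 0x1234789560 .nil) (.node 6 8 (.cons 0x4596817023 .nil) (.leaf 0x2345968170 2 .done) (.node 1 9 (.cons 0x4569187023 .nil) (.leaf 0x234569187 1 (.node 7 9 .nil (.node 0 3 (.cons 0x8743021956 (.cons 0x2189765430 .nil)) (.leaf 0x7654302189 2 .done) .done) .done)) .done)) .done)) .done)))) (.node 1 9 .nil (.node 1 6 (.cons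 0x2345619870 (.cons 0x8709165432 .nil)) (.leaf 0x3456198702 0 .done) (.node 1 3 (.cons 0x2134567890 .nil) (.node 1 6 .nil (.node 3 8 (.cons 0x6547019832 (.cons 0x9021678345 .nil)) (.node 5 9 (.cons 0x1234789560 (.cons 0x6178345902 (.cons 0x9561874320 (.cons 0x6178320954 .nil)))) .done .done) (.node 1 5 (.cons 0x9874321560 .nil) (.node 1 4 .nil (.node 2 5 (.cons 0x9078165234 (.cons 0x9870652341 (.cons 0x3418907652 (.cons 0x8914706523 .nil)))) .done .done) .done) .done)) (.node 1 4 .nil (.node 2 5 (.cons 0x9870652341 (.cons 0x3418907652 (.cons 0x8914706523 .nil))) (.leaf 0x652341987 1 .done) (.node 3 7 (.cons 0x5609873412 .nil) (.node 2 7 (.cons 0x5609872143 .nil) (.node 7 9 .nil (.node 3 5 (.cons 0x7890653412 (.cons 0x8120976534 (.cons 0x6534187902 .nil))) (.leaf 0x8906534127 2 .done) .done) .done) .done) .done)) .done)) (.node 0 3 (.cons 0x5603478912 .nil) (.node 0 5 .nil (.node 1 6 (.cons 0x9816507432 .nil) (.leaf 0x2347890561 1 (.node 4 9 (.cons 0x5678120943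 (.cons 0x7056189432 (.cons 0x7894321605 (.cons 0x5061789432 .nil)))) .done (.leaf 0x4509876123 0 .done))) (.node 0 4 .nil (.node 2 5 (.cons 0x9812567430 (.cons 0x7891256043 (.cons 0x7652189043 (.cons 0x9812567403 .nil)))) .done (.node 0 8 .nil (.node 2 7 (.cons 0x8903456721 (.cons 0x6547219803 .nil)) (.leaf 0x3089127654 0 .done) .done) .done)) .done)) (.node 0 8 .nil (.node 1 3 (.cons 0x2134567890 (.cons 0x9087654312 .nil)) (.node 2 6 (.cons 0x2654319870 (.cons 0x7089134562 .nil)) (.node 5 7 (.cons 0x6219875430 .nil) (.leaf 0x1260345789 1 (.leaf 0x891267543 1 .done)) (.leaf 0x1987026543 2 .done)) (.node 6 9 (.cons 0x8965470132 (.cons 0x7456980123 (.cons 0x7456980132 (.cons 0x5476980312 .nil)))) .done .done)) (.node 0 5 .nil (.node 6 9 (.cons 0x7432189650 (.cons 0x9650234781 (.cons 0x6987450321 .nil))) (.leaf 0x8743210569 1 .done) (.node 0 4 .nil (.node 2 5 (.cons 0x3478912560 (.cons 0x7891256043 .nil)) (.node 6 9 (.cons 0x7432189650 (.cons 0x5218967403 (.cons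 0x6981740523 (.cons 0x7405698123 .nil)))) .done .done) .done) .done)) .done)) .done)) .done))) (.node 3 9 (.cons 0x6547893210 .nil) (.node 0 8 .nil (.node 5 7 (.cons 0x2189347560 (.cons 0x9347560812 (.cons 0x4756089321 .nil))) .done (.node 0 3 .nil (.node 1 9 (.cons 0x2198765430 .nil) (.leaf 0x7891230654 1 (.node 5 9 (.cons 0x1234789560 (.cons 0x8743021956 (.cons 0x6591874302 (.cons 0x4789560321 .nil)))) .done .done)) .done) .done)) (.leaf 0x2093456781 1 (.node 3 7 (.cons 0x9021873456 .nil) (.node 5 7 (.cons 0x6578120934 .nil) (.node 7 9 .nil (.node 6 8 (.cons 0x9012378654 .nil) (.leaf 0x5687901234 2 (.leaf 0x5437902186 1 (.leaf 0x1865437902 2 .done))) .done) .done) .done) (.leaf 0x5439021876 1 .done)))) .done))) .done)) (.node 1 3 (.cons 0x2134567890 .nil) (.leaf 0x4567890213 0 (.node 1 4 .nil (.node 3 7 (.cons 0x8902143765 (.cons 0x6541098732 .nil)) (.leaf 0x9873214560 1 .done) (.node 1 6 .nil (.node 0 3 (.cons 0x5430987612 (.cons 0x9874561032 .nil)) (.leaf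 0x5478903216 2 .done) (.node 1 5 (.cons 0x9874321560 .nil) (.node 1 9 .nil (.node 0 7 (.cons 0x8709123456 (.cons 0x2345619870 .nil)) (.leaf 0x3219870654 1 .done) (.node 1 8 .nil (.node 0 7 (.cons 0x9078123456 (.cons 0x9816543207 .nil)) (.node 5 9 (.cons 0x1234789560 (.cons 0x7432189560 (.cons 0x7432065981 (.cons 0x8956074123 .nil)))) .done .done) .done) .done)) .done) .done)) (.node 3 7 (.cons 0x5609873412 .nil) (.node 2 7 (.cons 0x5609872143 .nil) (.node 3 5 (.cons 0x7890653412 .nil) (.leaf 0x1435609872 1 (.node 1 5 (.cons 0x9874321560 .nil) (.node 2 5 (.cons 0x6521437890 .nil) (.node 0 7 (.cons 0x9870651234 .nil) (.node 5 7 (.cons 0x8902143756 .nil) .done .done) .done) .done) (.leaf 0x653412789 1 .done))) (.node 7 9 .nil (.node 6 8 (.cons 0x7341209865 (.cons 0x5689734120 (.cons 0x4568790132 .nil))) (.leaf 0x1345687902 2 .done) (.node 5 7 (.cons 0x8902143756 .nil) (.node 0 7 .nil (.node 2 5 (.cons 0x6521437890 (.cons 0x9870652143 .nil)) .done .done) .done)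 .done)) .done)) (.node 0 3 .nil (.node 1 8 (.cons 0x9810237456 (.cons 0x9812034567 (.cons 0x9812034765 .nil))) .done (.node 3 6 (.cons 0x9874563210 .nil) (.node 1 6 (.cons 0x5430987612 .nil) (.node 1 9 (.cons 0x8910237456 .nil) (.node 1 5 (.cons 0x9874321560 .nil) (.node 1 8 (.cons 0x9810237456 .nil) .done .done) .done) .done) (.node 3 5 (.cons 0x7890653412 .nil) (.node 3 8 (.cons 0x7654389021 .nil) (.node 3 9 (.cons 0x6547893210 .nil) .done .done) .done) .done)) .done)) .done)) .done))) (.node 0 7 (.cons 0x8907654312 .nil) (.node 1 9 (.cons 0x8709123456 .nil) (.node 1 8 (.cons 0x9078123456 .nil) (.node 1 6 .nil (.node 0 3 (.cons 0x8912034765 (.cons 0x5430987612 (.cons 0x9874561032 .nil))) .done (.node 1 5 (.cons 0x9874321560 .nil) (.node 1 4 .nil (.node 3 7 (.cons 0x4378906512 (.cons 0x8902143765 (.cons 0x6541098732 .nil))) .done .done) .done) .done)) (.node 6 9 (.cons 0x8709654321 .nil) (.leaf 0x4569078123 1 (.node 3 7 (.cons 0x8965473201 .nil) (.leaf 0x6981023745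 1 (.node 0 3 (.cons 0x8912034765 .nil) (.node 3 9 (.cons 0x6547893210 .nil) .done .done) .done)) (.leaf 0x7096543218 1 .done))) .done)) (.node 6 8 (.cons 0x9078654321 .nil) (.leaf 0x4568709123 1 (.node 3 7 (.cons 0x9865473201 .nil) (.leaf 0x6891023745 1 (.node 5 7 (.cons 0x6890234571 .nil) (.node 1 4 (.cons 0x6541098732 .nil) (.node 1 5 (.cons 0x9874321560 .nil) (.node 1 6 (.cons 0x4561098732 .nil) .done .done) .done) .done) .done)) (.leaf 0x786543219 1 .done))) .done)) (.node 1 9 .nil (.node 1 6 (.cons 0x2345619870 (.cons 0x8709165432 .nil)) .done (.node 7 9 .nil (.node 1 8 (.cons 0x3456798120 (.cons 0x5602189743 .nil)) (.node 1 6 (.cons 0x8970234561 (.cons 0x9078165432 .nil)) .done .done) (.node 2 9 (.cons 0x8923107456 .nil) (.node 3 9 (.cons 0x6547893210 .nil) (.node 6 8 (.cons 0x7456893201 .nil) (.leaf 0x3107456892 0 (.leaf 0x2017456893 1 (.node 2 4 (.cons 0x5689132470 .nil) (.node 5 7 (.cons 0x8657091324 .nil) (.node 1 4 (.cons 0x8657419320 .nil) (.node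 4 8 (.cons 0x6578432190 .nil) (.leaf 0x2348756091 1 (.leaf 0x5784321906 1 .done)) .done) .done) .done) .done))) .done) .done) .done)) (.node 1 4 .nil (.node 3 6 (.cons 0x9874563210 (.cons 0x9870145632 (.cons 0x7890145632 .nil))) (.node 3 7 (.cons 0x8902143765 .nil) (.leaf 0x9873214560 1 .done) .done) (.node 1 5 (.cons 0x9874321560 .nil) (.node 1 6 .nil (.node 2 8 (.cons 0x7654312890 (.cons 0x7028916543 (.cons 0x5431670982 (.cons 0x5619820743 (.cons 0x9823165470 .nil))))) .done .done) .done) .done)) .done))) .done)) (.node 3 8 (.cons 0x7654389021 .nil) (.node 1 8 .nil (.node 0 7 (.cons 0x9834567021 (.cons 0x9078123456 .nil)) (.node 1 6 (.cons 0x9816543207 (.cons 0x9078165432 (.cons 0x7098165432 .nil))) .done .done) (.node 1 9 (.cons 0x7654389120 .nil) (.node 1 4 .nil (.node 7 9 (.cons 0x5602189743 (.cons 0x5679834120 (.cons 0x3897654102 (.cons 0x3897654120 .nil)))) .done (.node 1 5 (.cons 0x9874321560 .nil) (.node 1 6 .nil (.node 3 9 (.cons 0x6547893210 (.cons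 0x2398745610 .nil)) (.node 5 8 (.cons 0x9856743120 (.cons 0x3985476102 (.cons 0x3985476120 .nil))) .done .done) .done) .done) .done)) .done) .done)) (.node 3 9 (.cons 0x6547893210 .nil) (.node 1 9 .nil (.node 0 3 (.cons 0x8765430912 (.cons 0x6547891032 .nil)) (.leaf 0x7891230654 1 .done) (.node 1 8 .nil (.node 0 7 (.cons 0x8932107456 (.cons 0x9078123456 (.cons 0x6547018932 .nil))) .done (.node 0 7 (.cons 0x2189345670 .nil) (.node 6 8 (.cons 0x7456893210 .nil) (.node 6 9 (.cons 0x9654321870 .nil) (.leaf 0x2345690781 2 .done) (.leaf 0x786543219 1 .done)) (.node 0 3 (.cons 0x5603478912 .nil) (.node 0 8 (.cons 0x9802134765 .nil) (.node 3 7 (.cons 0x6547398012 .nil) .done .done) .done) .done)) .done)) .done)) (.node 0 3 .nil (.node 1 9 (.cons 0x5603478912 .nil) (.leaf 0x7891230654 1 (.node 6 8 (.cons 0x7456893201 (.cons 0x9867120345 (.cons 0x7456891032 (.cons 0x7456891230 .nil)))) .done .done)) (.node 3 7 .nil (.node 1 8 (.cons 0x9034567812 (.cons 0x4567398102 (.cons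 0x6547398102 .nil))) .done .done) .done)) .done)) (.node 6 9 (.cons 0x7456983201 .nil) (.node 3 7 (.cons 0x8965473210 .nil) (.node 3 6 (.cons 0x9874563210 .nil) (.node 0 7 (.cons 0x2389654701 .nil) (.node 1 6 (.cons 0x9832016547 .nil) (.node 1 9 (.cons 0x8709165432 .nil) (.node 5 7 (.cons 0x2065743891 .nil) (.leaf 0x6021983475 1 .done) .done) .done) .done) .done) .done) (.leaf 0x2017456983 1 (.node 3 7 .nil (.node 0 8 (.cons 0x9802134765 (.cons 0x3745698021 .nil)) (.leaf 0x2137456980 2 .done) (.node 6 8 (.cons 0x9012378654 .nil) (.node 0 3 (.cons 0x9867120345 .nil) (.node 0 8 (.cons 0x4569087321 .nil) (.node 1 8 (.cons 0x5476981203 .nil) .done .done) .done) .done) .done)) .done))) .done))) .done)))) (.node 0 7 .nil tc9_3_21 .done)))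
noncomputable def uc9_3_5 : T := (.node 0 2 (.cons 0x3456789021 .nil) tc9_3_22 (.node 0 7 .nil (.node 1 9 (.cons 0x8743219065 .nil) (.node 6 9 (.cons 0x8745690123 .nil) (.node 6 8 (.cons 0x8654709123 .nil) (.node 1 5 (.cons 0x7890651234 (.cons 0x9870651234 (.cons 0x2345178690 .nil))) (.node 5 8 (.cons 0x7065891234 (.cons 0x5860917432 .nil)) (.node 5 9 (.cons 0x6871234590 .nil) (.leaf 0x4786095123 1 .done) .done) .done) (.node 3 8 (.cons 0x2387456901 (.cons 0x5470196832 (.cons 0x9107456832 .nil))) (.node 0 2 (.cons 0x8691702345 .nil) (.node 3 9 (.cons 0x5439867120 (.cons 0x5439867021 .nil)) .done (.leaf 0x9120765438 1 .done)) .done) .done)) (.node 1 8 (.cons 0x3218745690 .nil) (.leaf 0x2345690781 2 (.node 3 8 (.cons 0x1238745690 (.cons 0x8321965470 .nil)) (.node 1 5 (.cons 0x7890651234 (.cons 0x9870651234 (.cons 0x6907832154 .nil))) (.node 2 6 (.cons 0x3874512690 (.cons 0x5438912670 (.cons 0x4512690783 (.cons 0x5438907621 .nil)))) .done .done) (.node 2 5 (.cons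 0x2567438190 (.cons 0x4381907652 (.cons 0x4709652381 (.cons 0x6523819074 .nil)))) (.node 1 4 (.cons 0x3214569870 (.cons 0x9870652143 .nil)) (.leaf 0x8325690741 1 .done) .done) .done)) (.leaf 0x7096543218 1 .done))) .done)) (.node 1 3 (.cons 0x2134567890 (.cons 0x8907654312 .nil)) (.node 2 9 (.cons 0x8921345670 .nil) (.leaf 0x3129870654 1 (.node 0 2 (.cons 0x9876543120 .nil) (.node 1 8 (.cons 0x9021876543 .nil) (.node 6 9 (.cons 0x8745690123 (.cons 0x9654318702 .nil)) (.leaf 0x4569078123 1 (.leaf 0x1345698702 2 .done)) .done) (.leaf 0x4567890213 0 .done)) (.leaf 0x7892134560 1 .done))) (.node 3 6 (.cons 0x7890123654 (.cons 0x9870123654 .nil)) (.node 5 8 (.cons 0x6587432190 (.cons 0x6345890712 (.cons 0x6321709854 .nil))) (.node 6 9 (.cons 0x8745690123 (.cons 0x4589632170 .nil)) (.leaf 0x745896321 2 .done) (.node 1 6 (.cons 0x2347856190 .nil) (.node 2 4 (.cons 0x3671098542 (.cons 0x7019856324 (.cons 0x8567091342 (.cons 0x9854236107 .nil)))) .done .done) .done))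 (.node 1 8 (.cons 0x9018745632 .nil) (.node 2 9 (.cons 0x9236547810 (.cons 0x7018923654 .nil)) (.leaf 0x7456329018 1 (.node 4 6 (.cons 0x5643219870 (.cons 0x5463298170 .nil)) (.node 0 5 (.cons 0x7189236450 (.cons 0x8713645092 (.cons 0x3291874650 .nil))) (.leaf 0x3219870564 0 .done) .done) .done)) (.node 6 9 (.cons 0x8745690123 .nil) (.leaf 0x4569078123 1 (.leaf 0x7096543218 1 .done)) .done)) .done)) .done)) (.node 6 8 (.cons 0x9078654321 .nil) (.node 2 6 (.cons 0x3456219870 (.cons 0x8709126543 .nil)) (.node 5 8 (.cons 0x6217098543 (.cons 0x6234589071 .nil)) (.leaf 0x4785609123 1 (.leaf 0x658743219 1 .done)) (.node 0 3 (.cons 0x7865430912 (.cons 0x5430986712 (.cons 0x5478621903 .nil))) (.node 1 5 (.cons 0x7890651234 (.cons 0x9870651234 (.cons 0x9032687154 .nil))) (.leaf 0x6874519032 2 .done) .done) .done)) (.leaf 0x4568709123 1 (.node 1 5 (.cons 0x7890651234 (.cons 0x9870651234 (.cons 0x6890715432 .nil))) (.node 6 9 (.cons 0x2345178690 (.cons 0x8690715432 .nil))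 (.node 2 9 (.cons 0x6871543290 (.cons 0x6870923451 (.cons 0x4329078651 .nil))) (.node 3 8 (.cons 0x1238745690 (.cons 0x1298345670 (.cons 0x2907683451 .nil))) (.leaf 0x923865471 0 .done) .done) .done) .done) (.leaf 0x786543219 1 .done)))) .done))) (.node 1 5 (.cons 0x7890651234 .nil) tc9_3_20 .done)) (.node 0 7 .nil tc9_3_19 .done)))
theorem sub_c9_3_5 : root 9 refs9_3 [] 0x700000008706000000006030000500030500004000504000000004010000000010300000000302000500002018004000010 0xfe7fff3fff97ffc7ffcfffedfff5fff3ffd9feed 9 4 7 (.cons 0x5609874321 .nil) uc9_3_5 = true := by decide +kernel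
noncomputable def tc9_3_23 : T := (.node 4 7 (.cons 0x5609874321 .nil) (.node 6 8 .nil (.node 7 9 (.cons 0x1234568790 .nil) (.node 5 9 (.cons 0x8432179560 .nil) (.leaf 0x8712345906 0 (.leaf 0x6597123480 2 .done)) (.node 3 9 (.cons 0x6543908712 (.cons 0x4568710932 .nil)) (.node 0 5 (.cons 0x6508439712 (.cons 0x7932105684 (.cons 0x9712348650 (.cons 0x4865017932 .nil)))) .done (.node 0 3 (.cons 0x9654871230 (.cons 0x5478690321 (.cons 0x8690321745 .nil))) (.node 2 9 (.cons 0x1784569230 (.cons 0x5486710392 .nil)) .done .done) .done)) (.leaf 0x5687901234 0 .done))) (.node 5 8 (.cons 0x9065871234 .nil) (.node 2 4 (.cons 0x9017865423 .nil) (.node 4 6 .nil (.node 5 7 (.cons 0x5789064321 .nil) (.leaf 0x8901234657 1 (.leaf 0x6578901234 2 (.node 3 5 (.cons 0x9874601235 (.cons 0x9064785321 (.cons 0x7460985321 .nil))) (.node 0 2 (.cons 0x3456789021 (.cons 0x8690235471 (.cons 0x4532096871 .nil))) .done .done) .done))) (.node 2 6 (.cons 0x9087126543 .nil) (.node 1 6 .nil (.node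 0 3 (.cons 0x9654871230 (.cons 0x3098547612 (.cons 0x5430987612 .nil))) (.leaf 0x5476123098 1 (.node 2 9 (.cons 0x1784569230 (.cons 0x9261745803 (.cons 0x5487169230 .nil))) (.leaf 0x7165432908 0 .done) .done)) .done) .done) .done)) (.node 0 7 .nil (.node 1 3 (.cons 0x2134567890 (.cons 0x7089654213 (.cons 0x8907654312 (.cons 0x6709854213 .nil)))) (.leaf 0x6890713245 2 .done) (.node 3 7 (.cons 0x7324568901 .nil) (.node 5 7 (.cons 0x9806573421 .nil) .done (.leaf 0x6890173245 2 .done)) .done)) .done)) .done) .done)) (.node 1 5 (.cons 0x2347890651 .nil) (.leaf 0x8906512347 2 (.node 0 7 (.cons 0x9843215607 .nil) (.node 7 9 (.cons 0x7984321560 .nil) (.node 3 7 (.cons 0x6984512370 .nil) (.node 2 7 (.cons 0x9806512734 .nil) (.node 5 7 (.cons 0x4896075123 .nil) .done .done) .done) .done) .done) (.node 0 7 .nil (.node 7 9 (.cons 0x5607984321 .nil) (.leaf 0x4897065123 1 (.node 3 9 (.cons 0x6543908712 (.cons 0x8456932170 .nil)) (.node 2 6 (.cons 0x3265478901 (.cons 0x6215439870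 (.cons 0x3962154870 (.cons 0x5480712693 .nil)))) .done (.node 5 9 (.cons 0x4871065932 (.cons 0x7065984321 .nil)) .done .done)) .done)) (.node 7 9 .nil (.node 5 9 (.cons 0x8432179560 .nil) (.leaf 0x6597123480 2 .done) (.node 3 7 (.cons 0x4378906512 .nil) (.node 6 8 .nil (.node 0 4 (.cons 0x1237896540 (.cons 0x5687904321 (.cons 0x2156897340 .nil))) .done (.node 5 8 (.cons 0x9065871234 .nil) (.node 5 7 .nil (.node 0 4 (.cons 0x1237896540 (.cons 0x6579840123 .nil)) (.node 1 9 (.cons 0x8732196540 (.cons 0x4375608912 (.cons 0x5784069123 .nil))) .done .done) .done) .done) .done)) .done) .done)) .done)) .done))) .done)) (.node 4 7 (.cons 0x5609874321 .nil) (.node 1 6 .nil (.node 0 5 (.cons 0x6905487123 (.cons 0x7845096123 .nil)) (.leaf 0x4321678905 2 (.leaf 0x3478905612 2 .done)) (.node 2 6 (.cons 0x9087126543 .nil) (.node 3 9 (.cons 0x6547893210 .nil) (.leaf 0x5439087126 1 (.leaf 0x8093456217 1 (.node 2 4 .nil (.node 3 5 (.cons 0x9012678453 (.cons 0x8765390124 (.cons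 0x8935674210 (.cons 0x9874235601 .nil)))) (.leaf 0x1248765390 1 .done) (.node 4 6 (.cons 0x5647893210 .nil) (.node 6 8 (.cons 0x7124390865 .nil) .done .done) .done)) (.node 0 2 (.cons 0x5487169320 .nil) (.node 1 8 (.cons 0x9326547810 .nil) (.leaf 0x9654718023 1 .done) (.leaf 0x8932016547 0 .done)) .done)))) (.node 6 8 .nil (.node 5 9 (.cons 0x1234789560 (.cons 0x7123486095 (.cons 0x7109548623 .nil))) (.leaf 0x8712345906 0 .done) (.node 3 6 (.cons 0x9874563210 .nil) (.node 5 9 (.cons 0x1234789560 .nil) (.leaf 0x1095487632 1 (.node 4 6 .nil (.node 1 5 (.cons 0x9874321560 .nil) (.node 2 7 (.cons 0x3271548690 (.cons 0x8721095463 (.cons 0x5901278463 .nil))) (.leaf 0x6095127843 0 .done) .done) .done) (.leaf 0x8459012367 1 .done))) .done) .done)) .done)) (.node 1 4 .nil (.node 3 6 (.cons 0x9874563210 (.cons 0x7890145632 .nil)) (.node 0 7 (.cons 0x9870123654 (.cons 0x5412369870 (.cons 0x9870145632 .nil))) .done (.node 0 7 (.cons 0x5487096321 (.cons 0x8709632145 .nil))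 (.node 2 6 (.cons 0x9087126543 (.cons 0x9870145623 .nil)) .done .done) .done)) (.node 1 5 (.cons 0x9874321560 .nil) (.node 1 8 .nil (.node 0 7 (.cons 0x9870651234 (.cons 0x7098165432 .nil)) (.leaf 0x8123456907 0 .done) (.node 1 3 (.cons 0x2134567890 .nil) (.node 1 9 .nil (.node 3 5 (.cons 0x7890653412 (.cons 0x5348760912 (.cons 0x7435608912 (.cons 0x4789106532 .nil)))) .done .done) .done) .done)) .done) .done)) .done))) (.node 1 5 (.cons 0x2347890651 .nil) (.leaf 0x8906512347 2 (.node 0 7 .nil (.node 5 7 (.cons 0x4896075123 .nil) (.node 3 6 (.cons 0x5487123690 (.cons 0x9870123654 (.cons 0x5487096321 (.cons 0x8451709632 .nil)))) (.leaf 0x984751236 0 .done) .done) (.node 1 6 .nil (.node 3 5 (.cons 0x7609843512 (.cons 0x4532169870 (.cons 0x7845321690 (.cons 0x2354871690 .nil)))) .done (.node 6 8 .nil (.node 2 9 (.cons 0x3298745610 (.cons 0x8654710923 (.cons 0x8609234715 (.cons 0x5168923470 .nil)))) .done (.node 7 9 (.cons 0x2345168970 .nil) (.node 3 7 (.cons 0x2371548690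 .nil) (.node 2 7 (.cons 0x9861543270 .nil) (.node 5 7 (.cons 0x3489067512 .nil) .done .done) .done) .done) .done)) .done)) .done)) (.node 4 9 (.cons 0x8712349065 .nil) (.node 2 4 (.cons 0x7890651243 .nil) (.node 1 4 .nil (.node 5 9 (.cons 0x3247895601 (.cons 0x7895601423 .nil)) .done .done) (.node 0 4 .nil (.node 5 9 (.cons 0x7895604321 .nil) (.leaf 0x2340659871 1 (.node 5 8 (.cons 0x9065871234 .nil) (.leaf 0x2178569043 0 (.node 2 8 (.cons 0x3285609471 (.cons 0x9560432871 (.cons 0x6590432871 .nil))) .done .done)) .done)) .done) .done)) (.node 5 8 (.cons 0x3490658712 .nil) (.leaf 0x1785609432 1 (.leaf 0x658712349 1 (.node 5 7 .nil (.node 1 8 (.cons 0x3490657812 .nil) (.node 0 7 (.cons 0x4569078123 .nil) (.leaf 0x8123456907 0 .done) (.leaf 0x6574321890 1 (.leaf 0x5743218906 2 .done))) (.node 2 5 (.cons 0x8712560943 .nil) (.node 0 7 .nil (.node 1 8 (.cons 0x9065234781 (.cons 0x6521870943 .nil)) (.leaf 0x2345690781 2 .done) (.node 0 2 (.cons 0x3498756021 .nil)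 (.node 2 4 (.cons 0x7890651243 .nil) (.node 2 6 (.cons 0x3265478901 .nil) .done .done) .done) .done)) (.node 0 7 .nil (.node 1 3 (.cons 0x2134987560 (.cons 0x3125489670 (.cons 0x8907654312 (.cons 0x8943125706 (.cons 0x8907652134 .nil))))) .done (.node 3 7 (.cons 0x4378906512 .nil) (.node 1 3 (.cons 0x2134987560 .nil) (.leaf 0x8475231069 1 (.leaf 0x4890675213 1 (.node 7 9 (.cons 0x6089752134 .nil) .done .done))) .done) .done)) .done)) .done)) .done))) .done)) .done))) .done)) (.node 4 7 (.cons 0x5609874321 .nil) (.node 6 8 .nil (.node 3 9 (.cons 0x6547893210 (.cons 0x7456893210 (.cons 0x4568710932 .nil))) (.node 2 6 (.cons 0x7126809345 .nil) (.node 0 5 (.cons 0x1267893450 (.cons 0x1239687450 (.cons 0x8693217450 (.cons 0x9326871054 .nil)))) .done (.leaf 0x8093456217 1 .done)) (.node 0 4 (.cons 0x9321047865 (.cons 0x7401239865 (.cons 0x5409687123 .nil))) (.leaf 0x7123904568 0 .done) .done)) (.node 5 8 (.cons 0x9065871234 .nil) (.node 2 6 (.cons 0x9017845623 .nil)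 (.node 5 7 .nil (.node 4 6 (.cons 0x5789064321 .nil) (.leaf 0x8901234657 1 (.leaf 0x9875643210 2 .done)) (.node 1 6 .nil (.node 0 2 (.cons 0x3456789021 (.cons 0x5487169023 .nil)) (.node 0 3 (.cons 0x2309654871 (.cons 0x5478961230 (.cons 0x9874561032 .nil))) (.leaf 0x9654871230 0 .done) .done) (.node 4 6 .nil (.node 0 7 (.cons 0x7098546123 .nil) (.node 2 9 (.cons 0x5609234871 (.cons 0x9217086543 (.cons 0x1689234570 (.cons 0x5648710923 .nil)))) .done .done) .done) .done)) .done)) (.node 1 6 .nil (.node 0 2 (.cons 0x3456789021 (.cons 0x5487169023 .nil)) (.node 0 5 (.cons 0x3216987450 .nil) (.leaf 0x2347890561 1 (.leaf 0x4321678905 2 (.leaf 0x3478905612 2 .done))) .done) .done) .done)) .done) .done)) (.node 6 8 .nil (.node 7 9 (.cons 0x1234568790 .nil) (.node 2 6 (.cons 0x3265487901 (.cons 0x8097126543 .nil)) (.node 3 6 (.cons 0x2365487901 (.cons 0x5479801263 .nil)) (.node 0 3 (.cons 0x2309654871 (.cons 0x9784562301 (.cons 0x7984562301 .nil))) (.node 5 9 (.cons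 0x8034597126 .nil) (.leaf 0x8712345906 0 (.leaf 0x871269543 0 .done)) .done) .done) .done) (.node 0 5 (.cons 0x2348650971 .nil) (.leaf 0x9712348650 1 (.leaf 0x6843217905 2 (.node 2 9 (.cons 0x5609234871 (.cons 0x7129086543 .nil)) (.node 1 4 (.cons 0x3296871450 (.cons 0x8650971432 .nil)) (.leaf 0x3290568714 2 (.leaf 0x7865092341 1 .done)) .done) .done))) (.leaf 0x5687901234 0 .done))) (.node 5 8 (.cons 0x9065871234 .nil) (.node 1 6 .nil (.node 0 3 (.cons 0x2309654871 (.cons 0x3098547612 (.cons 0x5430987612 .nil))) (.leaf 0x5476123098 1 (.node 2 5 (.cons 0x9065234871 (.cons 0x1698745230 (.cons 0x8745230961 (.cons 0x9061748523 .nil)))) .done .done)) (.node 2 6 (.cons 0x9017845623 .nil) (.node 3 6 (.cons 0x9017845632 .nil) (.node 2 9 (.cons 0x8547163290 .nil) (.leaf 0x5471632908 0 (.leaf 0x7109236548 0 (.node 3 9 (.cons 0x7845623901 .nil) (.leaf 0x5439087126 1 (.leaf 0x8093456217 1 .done)) .done))) .done) .done) .done)) .done) .done)) .done)) .done)))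
noncomputable def tc9_3_24 : T := (.node 2 4 (.cons 0x8710965423 .nil) (.node 4 6 .nil (.node 3 9 (.cons 0x6547893210 (.cons 0x5647893210 .nil)) (.node 1 3 (.cons 0x2134567890 .nil) (.leaf 0x4567890213 0 (.node 2 5 (.cons 0x6987452310 (.cons 0x7896452310 (.cons 0x8713254690 .nil))) .done (.node 5 7 (.cons 0x8756901324 (.cons 0x4657890132 .nil)) (.leaf 0x1346578902 2 .done) .done))) (.node 5 8 (.cons 0x5874239601 (.cons 0x2396458710 (.cons 0x6458710932 (.cons 0x6458712390 .nil)))) (.node 2 5 (.cons 0x8520693471 (.cons 0x3987645210 .nil)) (.node 0 8 (.cons 0x2345690871 (.cons 0x3254690871 (.cons 0x6452390871 .nil))) .done .done) .done) .done)) (.node 1 6 .nil (.node 3 7 (.cons 0x8965473201 (.cons 0x8902167345 (.cons 0x4561098732 .nil))) (.leaf 0x6120987345 1 .done) (.node 3 6 (.cons 0x9874563210 .nil) (.node 4 9 (.cons 0x8712349065 .nil) (.node 6 8 (.cons 0x7863210945 .nil) (.node 2 6 .nil (.node 0 3 (.cons 0x9032178654 (.cons 0x5478962301 (.cons 0x9874562301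 .nil))) .done .done) .done) (.node 2 6 .nil (.node 4 8 (.cons 0x9012365487 (.cons 0x5487109623 (.cons 0x9017845623 .nil))) .done (.node 6 8 .nil (.node 2 7 (.cons 0x8721094563 (.cons 0x5490127863 .nil)) (.node 3 5 (.cons 0x3568947210 (.cons 0x3568947201 .nil)) (.leaf 0x7210943568 1 (.leaf 0x6534902178 2 .done)) .done) .done) .done)) .done)) .done) .done)) .done)) (.node 4 9 (.cons 0x8712349065 .nil) (.node 3 9 (.cons 0x6547893210 .nil) (.node 1 4 .nil (.node 2 5 (.cons 0x5214398760 (.cons 0x8760934125 .nil)) (.leaf 0x652341789 1 (.leaf 0x4789325601 0 .done)) (.node 4 8 .nil (.node 3 5 (.cons 0x5324789601 (.cons 0x8453967102 (.cons 0x6784539012 (.cons 0x5398476012 .nil)))) (.leaf 0x2017489653 1 .done) (.node 1 9 (.cons 0x5609178432 .nil) (.node 2 9 (.cons 0x5609234871 .nil) (.node 1 3 (.cons 0x6548713290 .nil) (.leaf 0x4567890213 0 (.node 1 5 (.cons 0x9874321560 .nil) (.leaf 0x8715609234 1 .done) .done)) .done) .done) .done)) .done)) (.node 4 6 (.cons 0x5647893210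 .nil) (.node 1 4 .nil (.node 5 7 (.cons 0x8947560123 (.cons 0x8756410932 (.cons 0x8756412390 .nil))) .done (.node 4 8 (.cons 0x8439021765 .nil) (.node 0 4 .nil (.node 1 5 (.cons 0x8934765120 (.cons 0x2156789340 .nil)) (.node 2 7 (.cons 0x5648723901 (.cons 0x8965104723 (.cons 0x8409327156 .nil))) .done .done) .done) .done) .done)) .done) .done)) (.node 5 9 (.cons 0x1234789560 .nil) (.node 4 8 (.cons 0x7489560123 .nil) (.node 3 9 (.cons 0x6547893210 .nil) (.node 1 9 (.cons 0x5609178432 .nil) (.node 2 9 (.cons 0x5609234871 .nil) (.node 7 9 .nil (.node 3 6 (.cons 0x9874563210 (.cons 0x7984563201 (.cons 0x2365487901 (.cons 0x8974563210 .nil)))) .done .done) .done) .done) (.node 2 9 (.cons 0x5609234871 .nil) (.node 1 5 (.cons 0x8934765120 .nil) (.leaf 0x8715609234 1 (.node 3 7 (.cons 0x8965473201 .nil) (.node 3 8 (.cons 0x6517483920 .nil) (.leaf 0x1560293847 1 .done) (.leaf 0x987342156 0 .done)) .done)) .done) .done)) .done) (.node 1 4 (.cons 0x3214789560 .nil) (.node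 5 8 (.cons 0x3490658712 .nil) (.leaf 0x1785609432 1 (.node 1 5 (.cons 0x9874321560 .nil) (.node 1 6 .nil (.node 0 3 (.cons 0x4789560321 (.cons 0x9587421603 (.cons 0x5430987612 (.cons 0x5987423061 .nil)))) .done .done) .done) (.leaf 0x658712349 1 .done))) .done) .done)) .done)) .done)) (.node 2 4 (.cons 0x8710965423 .nil) (.node 0 7 (.cons 0x3245698701 .nil) (.node 1 6 (.cons 0x9870165423 .nil) (.node 6 8 .nil (.node 3 9 (.cons 0x3987654210 (.cons 0x5470168932 (.cons 0x5423968710 .nil))) (.leaf 0x789324561 0 .done) (.node 2 6 .nil (.node 0 8 (.cons 0x2345690871 (.cons 0x5432690871 (.cons 0x9087126543 .nil))) .done (.node 3 6 (.cons 0x7890123654 .nil) (.node 3 9 (.cons 0x3987654210 .nil) (.node 4 6 (.cons 0x5468712390 .nil) .done (.leaf 0x789324561 0 .done)) .done) .done)) .done)) (.node 2 8 (.cons 0x1782345690 .nil) (.node 0 8 (.cons 0x2345690871 .nil) (.node 0 5 (.cons 0x6905432871 .nil) (.node 0 3 (.cons 0x7896542301 .nil) (.node 5 7 (.cons 0x8234571690 .nil)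 (.leaf 0x3016987542 1 (.leaf 0x6128903457 1 .done)) .done) .done) .done) (.leaf 0x6543289071 2 (.leaf 0x5617098234 1 .done))) .done)) .done) (.node 4 9 (.cons 0x8712349065 .nil) (.node 3 9 (.cons 0x8765421093 .nil) (.node 0 7 .nil (.node 6 8 (.cons 0x8671209345 (.cons 0x5423968701 (.cons 0x8654907123 .nil))) .done (.node 0 4 .nil (.node 6 8 (.cons 0x8671209345 (.cons 0x5401786932 (.cons 0x9045687123 .nil))) .done (.node 0 8 (.cons 0x2345690871 .nil) (.node 1 4 .nil (.node 2 5 (.cons 0x5214398760 (.cons 0x6908714523 .nil)) (.leaf 0x652341789 1 .done) (.node 0 3 (.cons 0x7896541032 .nil) (.node 0 5 (.cons 0x5067893412 .nil) .done .done) .done)) .done) .done)) .done)) (.node 3 7 (.cons 0x8732456901 .nil) (.node 1 4 (.cons 0x2378965410 .nil) (.node 0 7 (.cons 0x8934120765 .nil) (.node 4 6 (.cons 0x5641078932 .nil) .done .done) (.leaf 0x5698732014 0 .done)) (.node 0 7 .nil (.node 1 3 (.cons 0x2134567890 (.cons 0x4569870132 (.cons 0x8907654312 .nil))) (.node 3 8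 (.cons 0x7832456901 (.cons 0x9654238701 .nil)) .done .done) .done) .done)) .done)) (.node 2 5 (.cons 0x8712560943 .nil) (.node 0 7 (.cons 0x3498706521 .nil) (.node 0 4 .nil (.node 3 7 (.cons 0x8732456901 (.cons 0x2378965401 (.cons 0x6521049873 .nil))) .done .done) .done) (.node 5 8 (.cons 0x3490658712 .nil) (.leaf 0x1785609432 1 (.node 2 6 .nil (.node 1 3 (.cons 0x2134567890 (.cons 0x5478962310 (.cons 0x7431260985 (.cons 0x5431267890 (.cons 0x5874269013 .nil))))) .done (.node 1 6 .nil (.node 0 3 (.cons 0x5478962301 (.cons 0x8745230961 (.cons 0x5430987612 .nil))) (.leaf 0x8745230169 0 .done) (.node 1 5 (.cons 0x3269874510 .nil) (.node 1 4 (.cons 0x3251478960 .nil) .done .done) .done)) .done)) (.leaf 0x658712349 1 .done))) .done)) .done)) .done)) (.node 1 5 (.cons 0x2347890651 .nil) (.leaf 0x8906512347 2 (.node 1 3 (.cons 0x2134567890 .nil) (.leaf 0x4567890213 0 (.node 0 7 .nil (.node 6 8 (.cons 0x7689021345 (.cons 0x9867021345 (.cons 0x6890745132 .nil))) .done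 (.node 1 6 .nil (.node 5 8 (.cons 0x8543176902 (.cons 0x7023458961 (.cons 0x7613458902 (.cons 0x3167458902 .nil)))) (.leaf 0x716985432 2 .done) (.node 6 8 (.cons 0x8690715432 .nil) (.node 2 6 (.cons 0x7451326890 .nil) (.node 3 6 (.cons 0x2365478901 .nil) (.leaf 0x986321547 0 .done) .done) .done) .done)) .done)) (.node 0 7 .nil (.node 2 8 (.cons 0x1782345690 (.cons 0x9823470651 (.cons 0x6709821543 (.cons 0x6513289074 .nil)))) (.node 6 8 (.cons 0x4709865132 .nil) (.leaf 0x1543286907 2 (.leaf 0x7154328690 1 .done)) .done) (.node 3 7 .nil (.node 1 8 (.cons 0x5674318902 (.cons 0x7320189654 (.cons 0x8173456902 .nil))) (.leaf 0x237456981 0 .done) (.node 1 6 .nil (.node 0 8 (.cons 0x2345690871 (.cons 0x9802165437 (.cons 0x9087165432 .nil))) .done (.node 6 8 (.cons 0x9865473201 .nil) (.node 1 4 (.cons 0x2378965410 .nil) (.node 1 9 (.cons 0x1986547320 .nil) (.leaf 0x5473201986 0 .done) (.leaf 0x5698732014 0 .done)) .done) .done)) .done)) .done)) .done))) (.node 0 7 .nil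 (.node 1 3 (.cons 0x2134567890 (.cons 0x4569870132 (.cons 0x8907654312 .nil))) (.node 6 8 (.cons 0x7689021345 (.cons 0x9867021345 .nil)) (.leaf 0x2345689071 2 .done) (.node 6 8 (.cons 0x7431568902 (.cons 0x9865134702 .nil)) (.leaf 0x2345689071 2 .done) .done)) (.node 3 7 (.cons 0x4378906512 .nil) (.node 5 7 .nil (.node 1 8 (.cons 0x6981543702 (.cons 0x4375189602 (.cons 0x6574320981 .nil))) (.leaf 0x6574321890 1 .done) (.node 1 8 (.cons 0x6981543702 .nil) (.node 5 9 (.cons 0x7432065981 .nil) (.leaf 0x4320659817 1 .done) (.leaf 0x237456981 0 (.node 5 9 (.cons 0x4376598120 .nil) (.node 1 9 (.cons 0x8910237456 .nil) (.node 4 9 (.cons 0x6549873210 .nil) (.node 5 8 (.cons 0x6734589120 .nil) (.leaf 0x1785609432 1 (.leaf 0x658712349 1 .done)) .done) .done) .done) .done))) .done)) (.node 1 3 (.cons 0x2134567890 .nil) (.leaf 0x4567890213 0 (.node 7 9 .nil (.node 3 6 (.cons 0x2365478901 (.cons 0x8974563201 (.cons 0x8790123654 .nil))) .done (.node 2 7 (.cons 0x8906513472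 .nil) (.node 5 7 .nil (.node 1 4 (.cons 0x3278965410 (.cons 0x8965732014 (.cons 0x8960275143 .nil))) .done .done) .done) .done)) (.node 3 9 .nil (.node 4 8 (.cons 0x5673489021 (.cons 0x2396548710 (.cons 0x5609348712 .nil))) (.leaf 0x9320178456 1 .done) (.node 6 8 (.cons 0x8654710932 .nil) (.node 5 9 (.cons 0x7689543120 .nil) (.leaf 0x8670213459 1 .done) (.node 0 8 (.cons 0x2390865471 .nil) (.leaf 0x5680932174 1 (.node 0 3 (.cons 0x9032178654 .nil) (.node 0 5 (.cons 0x6789054312 .nil) .done .done) .done)) .done)) .done)) .done))) .done)) .done)) .done))) .done)))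
noncomputable def tc9_3_25 : T := (.node 4 9 (.cons 0x8712349065 .nil) (.node 4 7 (.cons 0x5609874321 .nil) (.node 2 4 (.cons 0x8710965423 .nil) (.node 1 4 .nil (.node 2 5 (.cons 0x3256987410 .nil) (.leaf 0x652341789 1 (.leaf 0x4325609871 1 (.node 3 5 (.cons 0x3521498760 (.cons 0x8760941253 (.cons 0x9874106532 .nil))) (.leaf 0x6532147890 2 .done) .done))) (.node 4 8 (.cons 0x7489321065 .nil) (.node 2 5 (.cons 0x7489325601 .nil) (.node 0 4 .nil (.node 1 3 (.cons 0x5213498760 (.cons 0x7896540132 (.cons 0x9876043125 (.cons 0x9876521340 .nil)))) .done .done) (.leaf 0x3256017489 2 .done)) .done) .done)) .done) (.node 6 8 (.cons 0x8654710932 .nil) (.node 0 7 (.cons 0x2398654701 .nil) (.leaf 0x3986547012 0 .done) (.node 3 5 (.cons 0x6871235490 .nil) (.node 5 8 (.cons 0x9435876021 .nil) (.node 5 7 (.cons 0x6012357894 .nil) (.node 5 9 (.cons 0x4953217860 .nil) .done .done) (.leaf 0x3490658712 2 .done)) (.leaf 0x8712354906 2 (.leaf 0x7860945321 1 .done))) .done)) .done))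 (.node 5 9 .nil (.node 3 8 (.cons 0x5609438712 (.cons 0x2178349560 (.cons 0x6783459021 (.cons 0x4387659021 .nil)))) (.node 2 4 (.cons 0x8390176542 (.cons 0x3871065942 .nil)) (.node 0 8 (.cons 0x2345690871 .nil) (.leaf 0x7659083421 2 (.node 1 8 (.cons 0x9021876543 (.cons 0x7812065943 (.cons 0x5906718342 (.cons 0x2438176590 .nil)))) .done .done)) (.node 1 3 (.cons 0x2134567890 (.cons 0x8769542013 (.cons 0x8765902134 .nil))) (.leaf 0x5420138769 2 .done) .done)) .done) (.node 5 8 (.cons 0x3490658712 .nil) (.leaf 0x1785609432 1 (.node 0 8 (.cons 0x2345690871 .nil) (.node 0 7 .nil (.node 6 8 (.cons 0x5439086712 (.cons 0x7012398654 .nil)) (.leaf 0x2345689071 2 .done) (.node 0 3 .nil (.node 6 8 (.cons 0x5439086712 (.cons 0x4593086712 (.cons 0x3094568712 .nil))) .done .done) .done)) (.node 0 7 .nil (.node 1 5 (.cons 0x7890651234 (.cons 0x3498706512 .nil)) (.node 2 5 (.cons 0x8712560943 (.cons 0x3498706521 .nil)) .done .done) (.node 0 3 .nil (.node 1 5 (.cons 0x7890651234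 (.cons 0x7894306512 .nil)) (.node 1 6 (.cons 0x9087165432 (.cons 0x6123078954 .nil)) .done .done) .done) .done)) .done)) (.leaf 0x658712349 1 .done))) .done)) .done)) (.node 1 6 (.cons 0x8761209345 .nil) (.node 6 8 .nil (.node 5 7 (.cons 0x4578693201 (.cons 0x9320168754 .nil)) (.leaf 0x4390216875 1 (.node 1 4 (.cons 0x8754169320 (.cons 0x8675412093 (.cons 0x3209687541 (.cons 0x6875412093 .nil)))) .done .done)) (.node 4 9 (.cons 0x3217865490 .nil) (.node 4 6 (.cons 0x5468712390 .nil) (.node 3 6 (.cons 0x7890123654 .nil) (.node 2 6 .nil (.node 0 3 (.cons 0x9032178654 .nil) (.node 0 8 (.cons 0x2345690871 (.cons 0x5432690871 (.cons 0x9087126543 .nil))) .done .done) .done) .done) .done) (.node 5 8 (.cons 0x9345876120 .nil) (.leaf 0x1785609432 1 (.leaf 0x4390216785 1 (.leaf 0x658712349 1 .done))) .done)) .done)) (.node 1 3 (.cons 0x2134567890 .nil) (.node 1 5 (.cons 0x7890651234 .nil) (.node 3 6 (.cons 0x7890123654 .nil) (.node 4 6 .nil (.node 2 7 (.cons 0x4569872310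 (.cons 0x5127893460 (.cons 0x5469872310 (.cons 0x3465127890 (.cons 0x8721546390 .nil))))) .done (.node 1 4 .nil (.node 2 8 (.cons 0x5469328710 (.cons 0x5410287693 (.cons 0x7823690145 (.cons 0x7820965143 (.cons 0x5413967820 .nil))))) .done (.node 4 7 (.cons 0x5609874321 .nil) (.node 2 6 (.cons 0x9874562310 .nil) (.node 6 8 (.cons 0x9315478620 .nil) .done .done) .done) .done)) .done)) .done) .done) (.node 1 8 (.cons 0x9021876543 .nil) (.leaf 0x7654390218 2 (.node 3 8 (.cons 0x4569017832 .nil) (.node 1 9 (.cons 0x7832019654 .nil) (.node 1 4 (.cons 0x9654102387 .nil) (.node 1 5 (.cons 0x3451876902 .nil) .done .done) .done) (.node 0 8 (.cons 0x2345690871 .nil) (.node 4 8 (.cons 0x9021348765 .nil) (.node 1 9 (.cons 0x7845691023 .nil) (.node 3 7 (.cons 0x9654873201 .nil) (.leaf 0x5691023784 1 .done) .done) .done) .done) .done)) (.leaf 0x2093456781 1 .done))) .done)) .done)) (.node 1 8 (.cons 0x9021876543 .nil) (.leaf 0x6781209345 1 (.leaf 0x218765439 1 (.node 2 4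 (.cons 0x8710965423 .nil) (.node 0 5 (.cons 0x1243987650 .nil) (.leaf 0x9876501243 2 (.leaf 0x8934210567 1 (.node 0 7 (.cons 0x3245698701 .nil) (.node 0 3 (.cons 0x7896542301 .nil) (.node 0 4 (.cons 0x8710423965 .nil) (.node 0 8 (.cons 0x2345690871 .nil) .done .done) .done) .done) .done))) (.node 0 7 (.cons 0x5670981243 .nil) (.node 3 7 (.cons 0x5673421890 .nil) (.node 3 8 (.cons 0x9837654210 .nil) (.leaf 0x1245673890 0 (.node 0 8 (.cons 0x7324569801 .nil) (.node 0 4 (.cons 0x2378965401 .nil) (.node 2 5 (.cons 0x9652437180 .nil) (.leaf 0x425673981 1 (.leaf 0x7652401893 1 .done)) .done) .done) .done)) (.node 4 7 (.cons 0x5609874321 .nil) (.node 0 3 (.cons 0x8930124765 .nil) (.node 5 7 (.cons 0x3247569810 .nil) (.node 0 4 (.cons 0x6573240981 .nil) (.leaf 0x7569812304 1 (.node 0 5 (.cons 0x9650234781 .nil) (.leaf 0x9812437650 1 .done) .done)) .done) .done) .done) .done)) (.node 3 7 (.cons 0x5673421890 .nil) (.node 0 8 (.cons 0x7324569801 .nil) (.leaf 0x3245698017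 0 (.node 0 4 (.cons 0x2378965401 .nil) (.node 4 7 (.cons 0x5609874321 .nil) .done .done) .done)) (.node 4 7 (.cons 0x5609874321 .nil) (.node 0 3 (.cons 0x8930124765 .nil) (.node 5 7 (.cons 0x3247569810 .nil) (.node 0 4 (.cons 0x2304756981 .nil) (.leaf 0x3218965740 2 (.leaf 0x7569812304 1 .done)) .done) .done) .done) .done)) .done)) (.node 4 7 (.cons 0x5609874321 .nil) (.node 1 4 (.cons 0x7814320965 .nil) (.node 4 9 (.cons 0x5694781023 .nil) (.node 4 8 (.cons 0x5678439021 .nil) (.node 0 4 .nil (.node 2 5 (.cons 0x9065234871 (.cons 0x1256789340 (.cons 0x7401896523 (.cons 0x6523904871 .nil)))) .done .done) .done) .done) (.node 4 9 (.cons 0x5694781023 .nil) (.node 4 8 (.cons 0x5678439021 .nil) (.node 0 4 .nil (.node 2 5 (.cons 0x9065234871 (.cons 0x1256789340 (.cons 0x7401896523 (.cons 0x6523904871 .nil)))) .done .done) .done) .done) .done)) (.node 1 6 (.cons 0x9023478165 .nil) (.node 0 7 .nil (.node 1 5 (.cons 0x2347890651 (.cons 0x6518907432 (.cons 0x8702439615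 .nil))) .done (.node 1 5 (.cons 0x2345169870 .nil) (.node 1 4 (.cons 0x7814320965 .nil) (.node 4 8 (.cons 0x5678439021 .nil) (.leaf 0x2156784390 2 .done) .done) (.leaf 0x6987023451 2 .done)) .done)) (.node 1 5 (.cons 0x2347890651 .nil) (.leaf 0x8906512347 2 (.node 1 4 (.cons 0x7814320965 .nil) (.node 0 7 (.cons 0x5618907432 .nil) (.node 3 7 (.cons 0x2378965410 .nil) (.node 1 3 (.cons 0x2134567890 .nil) (.node 1 9 (.cons 0x8732019654 .nil) .done .done) .done) .done) .done) .done)) .done)) .done)) .done))) (.node 3 7 (.cons 0x2096543781 .nil) (.node 1 9 (.cons 0x8732019654 .nil) (.node 1 5 (.cons 0x7890651234 .nil) (.node 1 3 (.cons 0x2134567890 .nil) (.node 1 4 (.cons 0x2378965410 .nil) .done .done) .done) (.node 1 3 (.cons 0x2134567890 .nil) (.node 1 4 (.cons 0x2378965410 .nil) (.node 1 5 (.cons 0x7890651234 .nil) .done .done) .done) .done)) (.leaf 0x8734569021 2 (.node 1 5 (.cons 0x7890651234 .nil) (.node 0 7 (.cons 0x4396518702 .nil) (.node 1 6 (.cons 0x2345169870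 .nil) (.leaf 0x3451698702 0 .done) .done) (.node 1 6 (.cons 0x4561098732 .nil) (.node 1 3 (.cons 0x2134567890 .nil) (.node 1 4 (.cons 0x6541098732 .nil) .done .done) .done) .done)) .done))) .done)))) .done)))
noncomputable def uc9_3_6 : T := (.node 0 8 (.cons 0x9087123456 .nil) (.node 1 6 .nil (.node 5 7 (.cons 0x7543216980 (.cons 0x8096175432 .nil)) (.node 0 7 (.cons 0x6980754321 .nil) (.node 2 8 (.cons 0x8234569071 (.cons 0x9617082345 .nil)) (.leaf 0x6543289071 2 (.leaf 0x5617098234 1 .done)) .done) (.leaf 0x2169087543 1 .done)) (.node 0 7 (.cons 0x7089612345 .nil) (.node 5 7 (.cons 0x7543216980 .nil) (.node 4 7 (.cons 0x5609874321 .nil) (.node 3 7 (.cons 0x6980123754 .nil) (.node 2 7 (.cons 0x5432708961 .nil) (.node 7 9 .nil (.node 0 2 (.cons 0x3457698021 (.cons 0x8970234561 .nil)) (.node 1 8 (.cons 0x5743218960 .nil) (.leaf 0x3456189702 2 (.leaf 0x4579618023 2 .done)) .done) .done) .done) .done) .done) (.node 0 2 (.cons 0x3456789021 .nil) (.node 1 9 (.cons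 0x2345619870 .nil) (.leaf 0x4320789165 1 (.leaf 0x3456198702 2 (.node 1 5 (.cons 0x7089615432 .nil) (.node 2 5 (.cons 0x8096712543 .nil) (.node 0 3 (.cons 0x7698034521 .nil) (.leaf 0x4521769803 0 .done) .done) .done) .done))) (.node 0 3 .nil (.node 2 4 (.cons 0x3245708961 (.cons 0x3089675421 .nil)) (.node 2 5 (.cons 0x8096712543 (.cons 0x7698034521 .nil)) .done (.leaf 0x5716980324 2 .done)) (.node 3 6 (.cons 0x7890123654 .nil) (.node 0 4 (.cons 0x7540896123 .nil) (.node 0 5 .nil (.node 2 7 (.cons 0x4563278901 (.cons 0x3450896721 (.cons 0x9872361054 (.cons 0x9872165043 .nil)))) .done .done) .done) .done) .done)) .done)) .done)) .done) .done)) (.node 1 6 .nil (.node 0 2 (.cons 0x3456789021 .nil) (.node 3 9 (.cons 0x8765439021 (.cons 0x8761209345 .nil)) (.node 1 8 (.cons 0x9021876543 .nil) (.leaf 0x6781209345 1 (.leaf 0x218765439 1 (.node 4 7 (.cons 0x5609874321 (.cons 0x9347802165 (.cons 0x9023478165 .nil))) (.node 0 3 (.cons 0x5430987612 .nil) (.leaf 0x8903216547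 1 (.leaf 0x1230987456 1 (.node 5 8 (.cons 0x5812096743 (.cons 0x7458961032 (.cons 0x7432096185 (.cons 0x8547169032 .nil)))) .done .done))) .done) .done))) (.node 4 7 (.cons 0x5609874321 (.cons 0x2398745610 .nil)) (.node 0 3 (.cons 0x5430987612 .nil) (.leaf 0x8903216547 1 (.leaf 0x1230987456 1 .done)) (.leaf 0x1654789320 0 .done)) .done)) (.node 3 7 (.cons 0x8096543712 (.cons 0x9802165437 (.cons 0x8902167345 (.cons 0x4561098732 .nil)))) (.leaf 0x6120987345 1 .done) (.node 5 8 (.cons 0x9065871234 (.cons 0x9023458716 .nil)) (.node 0 7 (.cons 0x3458967021 (.cons 0x7023458961 .nil)) .done (.leaf 0x2096178543 1 .done)) .done))) (.node 3 6 (.cons 0x7890123654 .nil) (.node 2 6 (.cons 0x9087126543 .nil) (.node 6 8 .nil (.node 3 9 (.cons 0x6543908712 (.cons 0x4568710932 .nil)) (.node 4 6 (.cons 0x5468710932 .nil) .done (.node 4 6 (.cons 0x5643908712 .nil) (.node 2 9 (.cons 0x5468710923 .nil) (.node 1 3 (.cons 0x2134567890 (.cons 0x5462908713 .nil)) (.leaf 0x926543178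 1 .done) .done) .done) .done)) (.node 4 6 .nil (.node 3 9 (.cons 0x6543908712 (.cons 0x5468710932 (.cons 0x5643908712 .nil))) (.node 2 9 (.cons 0x2934561780 (.cons 0x5468710923 .nil)) (.node 0 2 (.cons 0x3456789021 (.cons 0x7893201645 .nil)) (.leaf 0x6178029345 2 (.leaf 0x1654392087 1 .done)) .done) .done) .done) .done)) .done) (.node 3 9 (.cons 0x6543908712 .nil) (.node 2 6 (.cons 0x9087126543 .nil) (.leaf 0x8093456217 1 (.node 6 8 .nil (.node 2 5 (.cons 0x4526390871 (.cons 0x7125439680 (.cons 0x8671254390 .nil))) (.node 1 4 (.cons 0x7809362541 (.cons 0x9014523687 (.cons 0x7863901452 .nil))) (.node 3 7 (.cons 0x8096543712 (.cons 0x7396801254 (.cons 0x9086521437 .nil))) .done .done) .done) .done) .done)) (.node 4 6 (.cons 0x5643908712 .nil) (.node 2 6 (.cons 0x9087126543 .nil) (.node 2 9 (.cons 0x8710923654 .nil) (.node 6 8 .nil (.node 3 7 (.cons 0x8096543712 (.cons 0x5437129680 (.cons 0x9012378645 .nil))) .done .done) .done) .done) .done) .done)) .done)) .done))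 (.leaf 0x3456908712 0 .done))) (.node 0 2 (.cons 0x3456789021 .nil) (.node 3 9 (.cons 0x8765439021 .nil) tc9_3_25 (.node 4 7 (.cons 0x5609874321 .nil) tc9_3_24 (.node 1 6 (.cons 0x8716902345 .nil) (.node 0 7 (.cons 0x5432078961 .nil) (.node 0 8 (.cons 0x2345690871 .nil) (.node 6 8 (.cons 0x5432096871 .nil) (.node 0 3 (.cons 0x9032178654 .nil) (.node 0 4 (.cons 0x9045687123 .nil) (.node 0 5 (.cons 0x9876120543 .nil) .done .done) (.node 0 4 (.cons 0x9045687123 .nil) (.node 0 5 (.cons 0x9876120543 .nil) .done .done) .done)) .done) .done) .done) (.node 0 7 .nil (.node 1 5 (.cons 0x6789021543 (.cons 0x6987023451 .nil)) (.leaf 0x789615432 2 .done) (.node 2 8 (.cons 0x1782345690 .nil) (.node 0 8 (.cons 0x2345690871 .nil) (.node 6 8 (.cons 0x5432096871 .nil) (.node 2 6 (.cons 0x9087126543 .nil) (.node 3 9 (.cons 0x4569328710 .nil) (.leaf 0x5439087126 1 (.leaf 0x8093456217 1 (.node 0 4 (.cons 0x9045687123 .nil) (.leaf 0x8239654017 1 (.leaf 0x2396540178 2 .done)) .done)))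 .done) .done) .done) (.leaf 0x6543289071 2 (.leaf 0x5617098234 1 .done))) .done)) .done)) .done))) (.node 0 8 (.cons 0x4569087123 .nil) (.leaf 0x7123456908 0 (.node 4 8 (.cons 0x3217845690 .nil) tc9_3_23 (.node 1 6 (.cons 0x9087165432 .nil) (.node 6 8 .nil (.node 0 7 (.cons 0x9078654321 .nil) (.node 2 9 (.cons 0x9234561780 (.cons 0x7089234561 .nil)) (.node 1 5 (.cons 0x7890651234 (.cons 0x3451768092 .nil)) (.leaf 0x7892345160 0 .done) (.leaf 0x6543298071 2 .done)) (.node 5 9 (.cons 0x6123459870 .nil) (.node 1 5 (.cons 0x7890651234 .nil) (.node 2 6 (.cons 0x9078621543 (.cons 0x7098621543 .nil)) .done .done) (.leaf 0x8712345906 0 (.node 0 2 (.cons 0x3456789021 (.cons 0x9543207861 (.cons 0x7023459861 .nil))) .done .done))) .done)) .done) (.node 0 7 .nil (.node 1 5 (.cons 0x7890651234 (.cons 0x9870651234 .nil)) (.node 5 8 (.cons 0x9065871234 .nil) (.node 4 9 (.cons 0x9432178560 (.cons 0x7065894321 (.cons 0x7061234985 .nil))) (.leaf 0x1785609432 1 (.leaf 0x7123490658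 2 .done)) (.leaf 0x9076123458 1 .done)) .done) (.node 6 8 (.cons 0x7098612345 .nil) (.node 5 8 (.cons 0x3458907612 .nil) (.node 1 5 (.cons 0x7890651234 .nil) (.node 4 8 (.cons 0x3217845690 .nil) (.node 3 8 (.cons 0x5438907612 .nil) (.node 1 8 .nil (.node 0 3 (.cons 0x6987032154 (.cons 0x9034567812 (.cons 0x7654309812 .nil))) .done .done) .done) .done) .done) (.leaf 0x9076123458 1 .done)) .done) .done)) .done)) .done))) .done)))
theorem sub_c9_3_6 : root 9 refs9_3 [] 0x700000008706000000006030000700030500004000504000000004010000000010300000000302000700002018004000010 0xfe7fff3fff37ffc7ffcfffedfff5fff3ff79feed 9 6 9 (.cons 0x8712345690 .nil) uc9_3_6 = true := by decide +kernel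
noncomputable def tc9_3_26 : T := (.node 4 7 (.cons 0x6547890123 .nil) (.node 0 7 (.cons 0x9843217065 .nil) (.node 7 9 (.cons 0x7984560123 .nil) (.node 3 7 (.cons 0x2379845601 .nil) (.leaf 0x654897321 0 .done) (.node 0 4 (.cons 0x5604897123 .nil) (.node 6 9 (.cons 0x8745690123 .nil) (.node 0 8 (.cons 0x5690874321 .nil) (.node 0 3 (.cons 0x7984560321 .nil) (.node 0 5 (.cons 0x4879650321 .nil) .done .done) .done) .done) .done) .done)) (.node 3 7 (.cons 0x9845601237 .nil) (.node 5 7 (.cons 0x9843217560 .nil) (.node 7 9 (.cons 0x7984560123 .nil) (.node 2 7 .nil (.node 1 8 (.cons 0x5460189732 (.cons 0x3275460981 (.cons 0x9812734560 .nil))) .done .done) .done) .done) (.node 7 9 (.cons 0x7984560123 .nil) (.node 0 3 (.cons 0x7984560321 .nil) (.node 1 6 (.cons 0x9784561230 .nil) (.node 1 3 (.cons 0x2134567890 .nil) (.node 0 5 (.cons 0x2317984650 .nil) (.leaf 0x2134897650 1 .done) .done) (.leaf 0x5487903216 2 .done)) .done) .done) .done)) .done)) (.node 0 7 (.cons 0x9843217065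 .nil) (.node 7 9 (.cons 0x7984560123 .nil) (.node 3 7 (.cons 0x2379845601 .nil) (.leaf 0x654897321 0 .done) (.node 0 4 (.cons 0x5604897123 .nil) (.node 0 5 (.cons 0x2346509871 .nil) (.node 5 7 (.cons 0x9843217560 .nil) (.node 0 3 (.cons 0x7984560321 .nil) (.node 0 8 (.cons 0x9806571234 .nil) .done .done) .done) .done) .done) .done)) (.node 7 9 (.cons 0x7984560123 .nil) (.node 6 9 .nil (.node 3 7 (.cons 0x1237984560 (.cons 0x4569873210 (.cons 0x9654873210 .nil))) .done (.node 6 8 .nil (.node 3 7 (.cons 0x1237984560 (.cons 0x9860123745 (.cons 0x9012378654 .nil))) .done (.node 2 8 .nil (.node 0 3 (.cons 0x7984560321 (.cons 0x9034567821 .nil)) (.leaf 0x9821765430 0 .done) (.node 1 8 .nil (.node 3 6 (.cons 0x7890123654 (.cons 0x5479812360 (.cons 0x4563218790 .nil))) .done (.node 0 8 .nil (.node 1 5 (.cons 0x2346517890 (.cons 0x6089745123 (.cons 0x9087156432 .nil))) (.node 1 9 (.cons 0x3489156702 .nil) (.leaf 0x8432076519 1 .done) .done) .done) .done)) .done)) .done))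 .done)) .done) .done)) .done)) (.node 4 7 (.cons 0x6547890123 .nil) (.node 3 6 (.cons 0x9874563210 .nil) (.node 1 6 .nil (.node 0 3 (.cons 0x5430987612 (.cons 0x9874561032 .nil)) (.leaf 0x5478903216 2 (.node 5 9 (.cons 0x9548763012 (.cons 0x3478956120 (.cons 0x1659874320 (.cons 0x3095487612 .nil)))) (.leaf 0x954876123 2 .done) .done)) (.node 2 6 .nil (.node 3 5 (.cons 0x9874653201 (.cons 0x9012678453 (.cons 0x7621098453 (.cons 0x9847106235 .nil)))) .done (.node 6 9 .nil (.node 0 5 (.cons 0x2346509871 (.cons 0x9632105487 (.cons 0x3478965021 (.cons 0x5096178432 .nil)))) .done (.node 6 8 .nil (.node 0 7 (.cons 0x9870123654 (.cons 0x9078654321 (.cons 0x9078612345 .nil))) (.node 2 9 (.cons 0x4563298701 (.cons 0x3298654701 (.cons 0x5432907861 .nil))) .done .done) .done) .done)) .done)) .done)) (.node 1 6 .nil (.node 0 3 (.cons 0x5430987612 (.cons 0x9874561032 .nil)) (.leaf 0x5478903216 2 .done) (.node 1 8 .nil (.node 3 7 (.cons 0x5437609812 (.cons 0x9810654732 .nil))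 (.node 1 5 (.cons 0x9023465187 (.cons 0x8902156734 (.cons 0x2098734651 .nil))) .done .done) (.node 2 6 .nil (.node 3 7 (.cons 0x7345609812 (.cons 0x5462378901 (.cons 0x4562378901 .nil))) .done (.node 3 7 (.cons 0x7345609812 .nil) (.node 2 7 (.cons 0x7218906543 .nil) (.leaf 0x981273456 2 .done) (.node 2 8 (.cons 0x9823745601 .nil) (.node 3 8 (.cons 0x9832106547 .nil) (.node 6 8 .nil (.node 1 4 (.cons 0x1456237890 (.cons 0x9014568732 .nil)) (.node 3 9 (.cons 0x6547893210 (.cons 0x7456893210 .nil)) (.leaf 0x8201456739 2 .done) .done) .done) .done) .done) .done)) .done)) .done)) .done)) (.leaf 0x2109874563 1 .done))) (.node 6 9 (.cons 0x8745690123 .nil) (.node 3 6 (.cons 0x7890123654 .nil) (.node 0 4 .nil (.node 5 9 (.cons 0x2178956340 (.cons 0x4017895632 (.cons 0x7123604895 .nil))) (.node 5 7 (.cons 0x3489576021 (.cons 0x4895710632 (.cons 0x4895712360 .nil))) .done (.node 1 8 (.cons 0x8120956743 (.cons 0x7659812043 .nil)) (.node 2 5 (.cons 0x3478125690 (.cons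 0x9871046523 (.cons 0x7812569043 (.cons 0x3671259840 .nil)))) .done .done) .done)) (.node 0 8 (.cons 0x5690874321 .nil) (.node 4 9 (.cons 0x7894563210 .nil) (.node 1 4 (.cons 0x5678902143 .nil) (.node 2 4 (.cons 0x7108942365 .nil) .done .done) .done) .done) .done)) (.node 5 9 (.cons 0x3678459012 .nil) (.leaf 0x1095487632 1 (.node 1 6 (.cons 0x7843612095 .nil) (.node 2 6 (.cons 0x7845901263 .nil) (.node 6 8 (.cons 0x3478659021 .nil) .done .done) .done) (.leaf 0x8459012367 1 (.node 0 4 (.cons 0x8712365904 .nil) (.node 0 8 (.cons 0x5690874321 .nil) (.node 5 8 (.cons 0x1234785690 .nil) (.leaf 0x7856901234 2 (.node 1 6 (.cons 0x9021658743 .nil) (.node 1 8 (.cons 0x3209564781 .nil) .done .done) .done)) .done) .done) .done)))) .done)) (.node 1 8 (.cons 0x3218745690 .nil) (.node 7 9 (.cons 0x7981234560 .nil) (.node 0 7 (.cons 0x6079812345 .nil) (.node 3 7 (.cons 0x5460189732 .nil) (.node 0 4 (.cons 0x1237896540 .nil) (.node 0 8 (.cons 0x5479608123 .nil) .done .done)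 .done) .done) (.node 0 7 (.cons 0x2345607981 .nil) (.leaf 0x4321897065 1 .done) .done)) (.node 0 3 (.cons 0x8745690321 .nil) (.node 3 5 (.cons 0x4356789021 .nil) (.node 2 9 (.cons 0x4653298710 .nil) (.leaf 0x3548769210 0 (.node 7 9 (.cons 0x5348976021 .nil) (.node 0 7 (.cons 0x6453298701 .nil) (.node 3 7 (.cons 0x9845376012 .nil) .done .done) .done) .done)) (.leaf 0x1209653478 0 (.node 1 4 (.cons 0x2098765341 .nil) (.leaf 0x6789021435 0 (.node 2 4 (.cons 0x3569024781 .nil) (.node 0 4 (.cons 0x1789653240 .nil) (.node 0 5 (.cons 0x2346509871 .nil) .done .done) .done) .done)) .done))) (.leaf 0x7456903218 1 (.node 0 8 .nil (.node 3 5 (.cons 0x4356789021 (.cons 0x9608471235 (.cons 0x8096532174 .nil))) (.node 4 9 (.cons 0x8765349021 (.cons 0x8094356712 (.cons 0x6534908712 .nil))) .done .done) .done) .done))) .done)) .done)) .done)) (.node 4 9 .nil (.node 3 5 (.cons 0x4356789021 (.cons 0x2356498710 (.cons 0x8765349021 .nil))) (.node 2 5 (.cons 0x7125609843 (.cons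 0x3256498710 (.cons 0x8710946523 .nil))) (.node 1 3 (.cons 0x4652317890 (.cons 0x5678943120 (.cons 0x8713256490 .nil))) (.node 5 8 (.cons 0x7609854312 (.cons 0x7132589460 .nil)) (.leaf 0x9432178560 0 .done) .done) .done) (.node 3 7 (.cons 0x5609843712 (.cons 0x6549873210 (.cons 0x8732109456 .nil))) (.node 4 7 (.cons 0x8947106532 .nil) (.node 2 8 (.cons 0x5437609821 (.cons 0x2894537601 (.cons 0x8235609471 .nil))) (.leaf 0x1065328947 1 .done) .done) .done) .done)) (.node 1 8 .nil (.node 3 7 (.cons 0x5609843712 (.cons 0x5673498120 (.cons 0x8120943765 (.cons 0x5437609812 .nil)))) (.node 2 4 (.cons 0x6542378901 (.cons 0x9810654237 (.cons 0x9018732456 .nil))) (.node 5 7 (.cons 0x3489065712 (.cons 0x7564981023 (.cons 0x9023465781 (.cons 0x5718906423 .nil)))) .done .done) .done) (.node 1 4 (.cons 0x5678902143 .nil) (.node 1 6 .nil (.node 5 7 (.cons 0x3489065712 (.cons 0x9021657843 (.cons 0x7561894320 .nil))) (.node 0 8 (.cons 0x6571234980 (.cons 0x5761208943 .nil))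 (.node 2 9 (.cons 0x3489217560 (.cons 0x3298754610 .nil)) (.leaf 0x871654329 1 .done) .done) (.leaf 0x2160987543 1 .done)) .done) (.node 1 6 .nil (.node 5 7 (.cons 0x3489065712 (.cons 0x9021657843 (.cons 0x7561894320 .nil))) (.leaf 0x3209875614 1 (.leaf 0x2160987543 1 .done)) (.node 1 3 (.cons 0x2134567890 .nil) (.node 1 5 (.cons 0x2346517890 .nil) (.node 1 9 .nil (.node 0 5 (.cons 0x2346509871 (.cons 0x8719056432 .nil)) (.node 2 4 (.cons 0x8905671342 (.cons 0x3420567891 (.cons 0x9187650243 .nil))) .done .done) .done) .done) .done) .done)) .done)) (.node 1 9 .nil (.node 5 7 (.cons 0x3489065712 (.cons 0x1987564320 (.cons 0x8756432091 .nil))) (.leaf 0x8910234657 1 (.leaf 0x2091875643 0 .done)) (.node 0 8 .nil (.node 1 5 (.cons 0x2346517890 (.cons 0x7651208943 (.cons 0x9087156432 .nil))) (.node 1 3 (.cons 0x2134567890 (.cons 0x9087654312 .nil)) (.node 2 5 (.cons 0x7891346520 (.cons 0x7108946523 (.cons 0x9134652087 (.cons 0x7132564980 .nil)))) .done .done) .done)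 (.node 1 4 (.cons 0x5678902143 .nil) (.node 1 6 .nil (.node 2 5 (.cons 0x7609812543 (.cons 0x7165234980 (.cons 0x9087165234 .nil))) (.node 0 7 (.cons 0x6709812543 (.cons 0x8907612543 .nil)) (.leaf 0x1652349807 1 .done) (.leaf 0x6178094325 1 .done)) (.node 1 3 (.cons 0x2134567890 .nil) (.node 1 5 (.cons 0x2346517890 .nil) .done .done) .done)) (.node 1 5 (.cons 0x2346517890 .nil) (.node 1 3 (.cons 0x2134567890 .nil) (.node 2 7 (.cons 0x3465198720 .nil) (.leaf 0x8027651349 1 (.leaf 0x5672089431 1 (.leaf 0x3498065172 2 (.leaf 0x1560894327 1 .done)))) .done) (.node 1 3 (.cons 0x2134567890 .nil) (.node 1 6 .nil (.node 2 5 (.cons 0x7891346520 (.cons 0x7165234980 (.cons 0x9087165234 .nil))) (.leaf 0x6178094325 1 .done) .done) .done) .done)) .done)) .done)) .done)) .done))) (.node 4 7 (.cons 0x6547890123 .nil) (.node 3 6 (.cons 0x9874563210 .nil) (.node 1 6 .nil (.node 5 7 (.cons 0x5789463201 (.cons 0x9021657843 (.cons 0x4320987561 .nil))) (.leaf 0x2160987543 1 .done)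 (.node 1 4 (.cons 0x5678902143 .nil) (.node 1 3 (.cons 0x2134567890 .nil) (.node 2 6 (.cons 0x5431267890 .nil) (.node 0 4 (.cons 0x5409876213 .nil) (.node 0 3 (.cons 0x5498763012 .nil) (.node 2 4 (.cons 0x5426789031 .nil) .done .done) .done) .done) .done) .done) .done)) (.node 2 9 (.cons 0x5634871290 .nil) (.node 1 9 (.cons 0x5647891023 .nil) (.node 3 5 (.cons 0x8923564710 .nil) (.leaf 0x8746532019 2 (.node 0 4 (.cons 0x8904356712 .nil) (.node 0 5 (.cons 0x2346509871 .nil) (.node 2 4 (.cons 0x6509871243 .nil) .done (.leaf 0x6348712905 0 .done)) .done) (.leaf 0x7891023564 1 .done))) .done) (.node 0 3 (.cons 0x7845630921 .nil) (.leaf 0x9217845630 1 (.leaf 0x6548712903 2 .done)) .done)) (.leaf 0x2109874563 1 .done))) (.node 0 4 .nil (.node 3 5 (.cons 0x4356789021 (.cons 0x9876534021 (.cons 0x8904356712 .nil))) (.node 1 8 (.cons 0x9021876534 .nil) (.leaf 0x7653490218 2 (.node 2 9 (.cons 0x6534871290 (.cons 0x6781290453 .nil)) (.leaf 0x3409218765 0 .done) .done))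 (.node 1 4 (.cons 0x2098765341 .nil) (.leaf 0x6789021435 0 (.node 2 4 (.cons 0x9871042356 .nil) .done .done)) .done)) .done) .done)) .done))) .done)))
noncomputable def tc9_3_27 : T := (.node 1 6 .nil (.node 5 7 (.cons 0x8906571234 (.cons 0x4320987561 .nil)) (.node 4 9 (.cons 0x8943217560 (.cons 0x3498756120 (.cons 0x1657894320 .nil))) (.leaf 0x5610234987 1 (.node 3 5 (.cons 0x8943576021 (.cons 0x8761209435 (.cons 0x8943576120 (.cons 0x6102357894 .nil)))) .done .done)) (.node 4 8 (.cons 0x7123489065 (.cons 0x9021657843 (.cons 0x9023487561 .nil))) (.node 4 7 (.cons 0x6547890123 .nil) (.node 6 9 (.cons 0x5784321690 (.cons 0x5784320961 .nil)) (.node 3 5 (.cons 0x9874653201 (.cons 0x8475320961 (.cons 0x4875320961 .nil))) (.node 0 7 (.cons 0x7069845321 (.cons 0x4532169870 .nil)) .done .done) .done) .done) .done) (.leaf 0x2160987543 1 .done))) (.node 3 6 (.cons 0x7890123654 .nil) (.node 2 6 .nil (.node 4 7 (.cons 0x6547890123 (.cons 0x3265478901 .nil)) (.node 0 4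 (.cons 0x5621789043 (.cons 0x5623409871 .nil)) (.node 5 7 (.cons 0x8906571234 (.cons 0x9875632104 (.cons 0x4098756321 .nil))) (.node 5 8 (.cons 0x9012365874 (.cons 0x9856043217 (.cons 0x9047856321 .nil))) (.node 3 7 (.cons 0x9021658734 (.cons 0x9856043712 (.cons 0x7345890621 .nil))) .done .done) .done) (.node 0 5 (.cons 0x9871234650 (.cons 0x4326509871 .nil)) (.node 4 8 (.cons 0x7123489065 (.cons 0x9056217843 (.cons 0x9056234871 .nil))) .done (.node 5 9 (.cons 0x5987104623 .nil) (.node 2 8 (.cons 0x5982176043 (.cons 0x7128950643 .nil)) (.leaf 0x7165904328 1 .done) (.leaf 0x436217895 1 (.leaf 0x8950436217 2 .done))) .done)) .done)) (.node 0 5 (.cons 0x9871234650 (.cons 0x5098743621 (.cons 0x4326509871 .nil))) (.node 4 8 (.cons 0x7123489065 (.cons 0x9056217843 (.cons 0x9056234871 .nil))) .done .done) .done)) (.node 6 9 .nil (.node 0 7 (.cons 0x8709654321 (.cons 0x5469870123 .nil)) (.leaf 0x5698701234 2 (.node 1 3 (.cons 0x2134567890 (.cons 0x4569870132 (.cons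 0x5469870132 .nil))) (.node 2 8 (.cons 0x7654312890 (.cons 0x7013289654 (.cons 0x5432870961 .nil))) .done .done) .done)) (.node 6 8 .nil (.node 0 7 (.cons 0x9078654321 (.cons 0x9078612345 .nil)) (.node 1 3 (.cons 0x2134567890 (.cons 0x4569870132 (.cons 0x8907654312 (.cons 0x5469870132 .nil)))) .done (.node 2 9 (.cons 0x8709234561 (.cons 0x5432907861 .nil)) (.node 0 5 (.cons 0x9871234650 (.cons 0x9056871234 .nil)) (.node 3 7 (.cons 0x8921734650 (.cons 0x4371298650 (.cons 0x8650921734 (.cons 0x5468923701 .nil)))) .done .done) .done) .done)) .done) .done)) .done)) (.node 2 6 .nil (.node 0 3 (.cons 0x5430987621 .nil) (.node 5 9 (.cons 0x2178956430 (.cons 0x4659871032 (.cons 0x4659871230 .nil))) (.node 0 4 (.cons 0x8712340956 (.cons 0x5987104632 (.cons 0x5621789043 (.cons 0x5623409871 .nil)))) .done (.node 1 9 (.cons 0x7891203465 .nil) (.leaf 0x8765430219 0 (.node 2 5 (.cons 0x6789125430 .nil) (.leaf 0x3452198760 1 (.leaf 0x1789034652 0 .done)) .done)) .done)) (.node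 0 5 (.cons 0x9871234650 (.cons 0x4326509871 .nil)) (.node 3 7 (.cons 0x9873465021 .nil) (.node 0 4 (.cons 0x9873210456 (.cons 0x9873265401 .nil)) (.node 5 9 (.cons 0x5987104632 (.cons 0x8954012673 (.cons 0x6237895401 .nil))) (.leaf 0x7895401263 1 .done) .done) (.node 1 9 (.cons 0x8765430912 (.cons 0x8762190345 .nil)) (.leaf 0x2056437891 1 (.leaf 0x8734650219 2 .done)) .done)) .done) .done)) (.node 6 9 .nil (.node 3 7 (.cons 0x4569873210 (.cons 0x8732109654 (.cons 0x5469873210 .nil))) (.node 0 7 (.cons 0x8709654321 (.cons 0x5469870123 .nil)) (.node 1 5 (.cons 0x9870234651 (.cons 0x4320789651 (.cons 0x8902156734 (.cons 0x9873465120 .nil)))) .done .done) .done) (.node 6 8 .nil (.node 7 9 (.cons 0x5432168790 .nil) (.node 1 8 (.cons 0x7981234560 .nil) (.leaf 0x7902345618 1 (.leaf 0x4560978123 1 .done)) (.leaf 0x5687901234 0 (.node 0 3 (.cons 0x8790321654 (.cons 0x4568790321 .nil)) (.node 1 5 (.cons 0x6789034512 (.cons 0x7986032154 (.cons 0x7986451230 .nil))) (.node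 0 5 (.cons 0x9871234650 (.cons 0x9786450321 .nil)) (.node 0 7 (.cons 0x9870215643 (.cons 0x9078654321 .nil)) .done .done) .done) .done) .done))) .done) .done)) .done)) .done)) .done)) (.node 1 6 .nil (.node 5 7 (.cons 0x8906571234 (.cons 0x4320987561 .nil)) (.node 4 9 (.cons 0x8943217560 (.cons 0x3498756120 (.cons 0x1657894320 .nil))) (.leaf 0x5610234987 1 (.node 3 5 (.cons 0x8943576021 (.cons 0x8761209435 (.cons 0x8943576120 (.cons 0x6102357894 .nil)))) .done .done)) (.node 4 8 (.cons 0x7123489065 (.cons 0x9021657843 (.cons 0x9023487561 .nil))) (.node 3 7 (.cons 0x9845601237 (.cons 0x4561098732 .nil)) (.node 0 4 (.cons 0x9873210456 (.cons 0x9873402165 (.cons 0x5617890432 .nil))) (.leaf 0x1237890456 1 .done) (.node 5 8 (.cons 0x9012378546 (.cons 0x7345890612 (.cons 0x9016458732 (.cons 0x7321609854 .nil)))) .done .done)) (.node 6 9 (.cons 0x5784321690 (.cons 0x5784320961 .nil)) (.node 3 5 (.cons 0x5321784690 (.cons 0x7612098435 (.cons 0x4875320961 .nil))) (.node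 0 4 (.cons 0x9876534021 (.cons 0x9612048753 (.cons 0x5617890432 .nil))) .done .done) .done) .done)) (.leaf 0x2160987543 1 .done))) (.node 3 6 (.cons 0x7890123654 .nil) (.node 4 7 (.cons 0x6547890123 .nil) (.leaf 0x2109874563 1 (.node 2 6 .nil (.node 0 4 (.cons 0x5621789043 (.cons 0x5623409871 .nil)) (.node 5 8 (.cons 0x9012364785 (.cons 0x9856043217 (.cons 0x5890621743 (.cons 0x5890623471 (.cons 0x9046587123 .nil))))) .done .done) (.node 6 9 .nil (.node 3 5 (.cons 0x4356789021 (.cons 0x6987453210 (.cons 0x8745321096 (.cons 0x2354789610 .nil)))) (.leaf 0x1698745320 0 .done) (.node 6 8 .nil (.node 3 5 (.cons 0x2354789610 (.cons 0x9860123547 (.cons 0x2354786901 (.cons 0x5347689021 .nil)))) (.node 2 9 (.cons 0x8710923564 (.cons 0x7453298610 (.cons 0x7864532901 .nil))) .done .done) .done) .done)) .done)) (.node 2 6 (.cons 0x3265478901 .nil) (.node 6 9 .nil (.node 0 7 (.cons 0x8709654321 (.cons 0x5432169870 .nil)) (.leaf 0x5698701234 2 .done) (.node 6 8 .nil (.node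 1 3 (.cons 0x1326547890 (.cons 0x7456890132 .nil)) (.leaf 0x5478901326 0 (.node 2 5 (.cons 0x8906523471 (.cons 0x9860132547 (.cons 0x7869013254 (.cons 0x1743256890 .nil)))) .done .done)) .done) .done)) .done) .done))) (.node 2 6 .nil (.node 0 3 (.cons 0x5430987621 .nil) (.node 0 4 (.cons 0x5621789043 (.cons 0x5623409871 .nil)) (.node 2 4 (.cons 0x9876542103 (.cons 0x8903421765 .nil)) .done .done) (.node 1 8 (.cons 0x9034567812 (.cons 0x9034562187 .nil)) (.node 1 3 (.cons 0x2134567890 .nil) (.node 0 7 (.cons 0x8907654312 (.cons 0x8907621345 (.cons 0x5431890762 .nil))) .done .done) .done) .done)) (.node 6 9 .nil (.node 3 7 (.cons 0x4569873210 (.cons 0x8732109654 (.cons 0x8732109645 .nil))) (.node 0 7 (.cons 0x8709654321 (.cons 0x5432169870 .nil)) (.node 1 5 (.cons 0x8902156734 (.cons 0x6512098734 .nil)) (.leaf 0x8702345169 1 (.leaf 0x7896154320 2 .done)) .done) .done) (.node 6 8 .nil (.node 3 7 (.cons 0x9012378654 (.cons 0x9012378645 .nil)) (.node 1 8 (.cons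 0x5437609812 (.cons 0x7345609812 .nil)) .done (.node 4 7 (.cons 0x2365478901 (.cons 0x9860123745 .nil)) (.node 0 4 (.cons 0x5698732104 .nil) (.node 2 9 (.cons 0x3298745610 (.cons 0x5401298673 (.cons 0x5473298601 .nil))) .done (.leaf 0x8732104569 1 .done)) .done) .done)) .done) .done)) .done)) .done)) .done)) (.node 4 8 (.cons 0x7123489065 .nil) tc9_3_26 .done)))
noncomputable def tc9_3_28 : T := (.node 0 7 (.cons 0x9854321706 .nil) (.node 1 8 (.cons 0x9078123456 .nil) (.node 6 8 (.cons 0x9078654321 .nil) (.node 3 8 (.cons 0x5438906712 .nil) (.node 0 3 (.cons 0x9854306712 .nil) (.node 6 9 (.cons 0x7123458960 .nil) (.leaf 0x3217069854 0 (.node 0 5 .nil (.node 4 6 (.cons 0x5469078321 (.cons 0x3217896450 (.cons 0x9056432187 .nil))) .done (.node 0 8 .nil (.node 3 5 (.cons 0x4356789021 (.cons 0x6908712354 .nil)) (.node 4 6 (.cons 0x9853467120 (.cons 0x7123546980 (.cons 0x5469087123 .nil))) .done .done) .done) .done)) .done)) .done) .done) (.node 1 9 (.cons 0x4568709123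 .nil) (.leaf 0x2190786543 2 (.leaf 0x786543219 1 .done)) .done)) (.node 6 9 (.cons 0x7123458960 .nil) (.leaf 0x3217069854 0 (.node 1 9 (.cons 0x4320785691 .nil) (.node 6 8 (.cons 0x2345869170 .nil) (.leaf 0x3219078654 1 (.leaf 0x7196854320 0 .done)) (.node 7 9 (.cons 0x8560791234 .nil) (.node 5 7 (.cons 0x4320698571 .nil) (.node 2 7 (.cons 0x1723458960 .nil) (.node 4 7 (.cons 0x7432198560 .nil) .done .done) .done) .done) .done)) (.leaf 0x7096543218 1 .done))) .done)) (.node 0 3 (.cons 0x9854306712 .nil) (.node 2 8 (.cons 0x9034567821 .nil) (.node 7 9 (.cons 0x9760345821 .nil) (.node 4 7 (.cons 0x1234798560 .nil) (.leaf 0x6589743210 2 (.leaf 0x5601234798 1 .done)) (.node 5 7 (.cons 0x3457609821 .nil) (.node 4 7 (.cons 0x6547890123 .nil) (.node 2 7 .nil (.node 1 9 (.cons 0x8765430912 (.cons 0x4327065891 (.cons 0x8721903456 .nil))) (.leaf 0x4309128765 0 .done) .done) .done) .done) .done)) (.node 1 8 (.cons 0x9034567812 .nil) (.node 2 5 (.cons 0x8906712543 .nil)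 (.node 2 6 (.cons 0x9854326071 .nil) (.node 2 7 .nil (.node 1 6 (.cons 0x9078165234 .nil) (.node 1 9 (.cons 0x8765430912 (.cons 0x8721903456 .nil)) (.leaf 0x5619078234 1 .done) .done) .done) .done) (.node 6 8 (.cons 0x3452176890 .nil) (.leaf 0x4521768903 1 .done) .done)) (.node 7 9 (.cons 0x6543097812 .nil) (.node 4 7 (.cons 0x1234798560 .nil) (.leaf 0x6589743210 2 (.leaf 0x5601234798 1 .done)) (.node 5 7 .nil (.node 3 7 (.cons 0x9812065734 (.cons 0x4375609812 .nil)) .done (.node 2 7 (.cons 0x7218906543 .nil) (.node 4 7 (.cons 0x6547890123 .nil) .done .done) .done)) .done)) .done)) .done)) (.node 4 7 (.cons 0x6547890123 .nil) (.node 7 9 (.cons 0x8974560123 .nil) (.node 0 8 (.cons 0x5608974321 .nil) (.node 0 4 (.cons 0x7985604321 .nil) (.node 0 5 (.cons 0x6058971234 .nil) .done .done) .done) (.node 2 7 (.cons 0x9854306721 .nil) (.node 5 7 .nil (.node 1 8 (.cons 0x3218974560 (.cons 0x9812347560 (.cons 0x9812065743 .nil))) .done .done) .done) .done)) (.node 5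 7 .nil (.node 1 9 (.cons 0x7603458912 (.cons 0x6758912034 (.cons 0x4306758912 .nil))) (.node 2 6 (.cons 0x5430987621 (.cons 0x6219875430 (.cons 0x8754309126 .nil))) (.leaf 0x1260347589 2 .done) .done) (.node 2 7 (.cons 0x9854306721 .nil) (.node 7 9 .nil (.node 1 4 (.cons 0x5678902143 (.cons 0x8975412306 (.cons 0x6589702341 (.cons 0x7985602143 .nil)))) .done (.node 3 7 .nil (.node 1 9 (.cons 0x7603458912 (.cons 0x4376589120 (.cons 0x8912734560 .nil))) .done .done) .done)) .done) .done)) .done)) .done)) .done)) (.node 4 7 (.cons 0x6547890123 .nil) (.node 4 6 .nil (.node 3 5 (.cons 0x4356789021 (.cons 0x9853460217 (.cons 0x9021785346 (.cons 0x8902176435 (.cons 0x9874653201 .nil))))) .done (.node 3 6 (.cons 0x9874563210 .nil) (.node 2 6 (.cons 0x7126098543 .nil) (.node 1 6 .nil (.node 0 3 (.cons 0x9854712603 (.cons 0x5430987612 (.cons 0x9874561032 .nil))) (.node 0 5 (.cons 0x9874320561 .nil) (.leaf 0x2347890561 1 .done) .done) (.node 0 5 (.cons 0x9874321650 .nil)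 (.node 6 8 (.cons 0x9054321786 .nil) (.node 6 9 (.cons 0x2345096871 .nil) .done .done) (.leaf 0x3478905612 2 .done)) .done)) .done) (.leaf 0x2109874563 1 (.node 2 9 (.cons 0x5892063471 .nil) (.leaf 0x1745892360 0 (.node 3 7 (.cons 0x2985473601 .nil) (.node 2 7 (.cons 0x3645872901 .nil) (.node 2 6 (.cons 0x4587362901 .nil) (.node 2 8 (.cons 0x9285473601 .nil) .done .done) .done) (.leaf 0x8921063745 1 .done)) (.node 6 9 (.cons 0x5871209643 .nil) (.node 0 5 (.cons 0x1234789650 .nil) (.leaf 0x7896501234 2 (.node 1 6 (.cons 0x9874320561 .nil) (.node 1 8 (.cons 0x5471892360 .nil) (.leaf 0x2981745063 1 .done) .done) .done)) .done) .done))) .done))) (.node 3 6 (.cons 0x9874563210 .nil) (.node 4 8 .nil (.node 5 7 (.cons 0x9857120634 (.cons 0x9845710632 (.cons 0x9845712360 .nil))) (.leaf 0x2175489063 1 .done) (.node 0 8 .nil (.node 1 3 (.cons 0x2134567890 (.cons 0x9087654312 (.cons 0x9802134765 .nil))) (.node 2 5 (.cons 0x9874652310 (.cons 0x9806712543 (.cons 0x9087652134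 (.cons 0x9801325647 (.cons 0x9806471325 .nil))))) .done .done) (.node 0 5 (.cons 0x9871054632 .nil) (.node 0 7 (.cons 0x9854360712 .nil) .done .done) .done)) .done)) (.node 4 8 (.cons 0x9012365487 .nil) (.node 5 9 (.cons 0x3678459012 .nil) (.leaf 0x1095487632 1 (.leaf 0x8459012367 1 (.node 6 9 (.cons 0x2178543690 .nil) (.node 0 5 (.cons 0x1234789650 .nil) (.leaf 0x7896501234 2 (.node 0 8 (.cons 0x2364590871 .nil) .done .done)) .done) .done))) .done) (.leaf 0x2109874563 1 .done))) .done))) (.node 0 7 .nil (.node 1 8 (.cons 0x9812345607 .nil) (.node 6 9 (.cons 0x3478569021 (.cons 0x5690234781 (.cons 0x3218745690 .nil))) (.leaf 0x8701234569 1 .done) (.node 6 9 (.cons 0x3478569021 .nil) (.leaf 0x8701234569 1 (.node 1 3 (.cons 0x2134567890 (.cons 0x4569870132 (.cons 0x8907654312 .nil))) (.leaf 0x8569021347 1 .done) (.node 0 3 (.cons 0x8745690321 .nil) (.node 1 3 (.cons 0x2134567890 (.cons 0x8907654312 .nil)) (.node 2 4 (.cons 0x9034218765 (.cons 0x5670981243 (.cons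 0x7069854213 .nil))) (.leaf 0x5698703124 1 .done) .done) (.leaf 0x2187456903 2 (.leaf 0x9654781230 1 .done))) .done))) .done)) (.node 0 5 .nil (.node 1 6 (.cons 0x9021658743 (.cons 0x7890561234 .nil)) (.leaf 0x3216509874 1 (.leaf 0x4509876123 0 .done)) (.node 0 3 .nil (.node 2 6 (.cons 0x7126098543 (.cons 0x9854306217 (.cons 0x9034587126 .nil))) (.leaf 0x987126543 0 .done) (.node 0 8 .nil (.node 5 9 (.cons 0x3459806712 .nil) (.node 1 6 (.cons 0x5430987612 (.cons 0x2167895430 (.cons 0x8743216590 .nil))) (.node 3 6 (.cons 0x7890123654 (.cons 0x4598763012 (.cons 0x8590634712 (.cons 0x4361785902 .nil)))) .done .done) (.leaf 0x4598067123 2 (.node 1 6 (.cons 0x8743209561 (.cons 0x7160895432 (.cons 0x6178095432 (.cons 0x2347809561 .nil)))) .done (.leaf 0x8067123459 1 .done)))) .done) .done)) .done)) .done)) (.node 0 7 .nil (.node 1 8 (.cons 0x9812345607 .nil) (.node 1 5 (.cons 0x9815602347 (.cons 0x9023478156 (.cons 0x3476518902 .nil))) .done (.node 4 6 (.cons 0x9078123465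 .nil) (.node 5 7 (.cons 0x9857120643 (.cons 0x8906457123 .nil)) (.leaf 0x3218907564 0 .done) (.node 5 9 (.cons 0x5981706432 (.cons 0x8954607123 .nil)) (.leaf 0x6598701234 2 (.leaf 0x1234659078 0 .done)) .done)) .done)) (.node 0 5 .nil (.node 1 6 (.cons 0x9874320561 (.cons 0x2347890561 .nil)) (.leaf 0x9874321650 1 (.leaf 0x4509876123 0 .done)) (.node 0 3 .nil (.node 2 6 (.cons 0x3265478901 (.cons 0x9874562301 (.cons 0x9034587126 .nil))) (.leaf 0x987126543 0 .done) (.node 0 8 .nil (.node 5 9 (.cons 0x3459806712 .nil) (.node 1 6 (.cons 0x5430987612 (.cons 0x1659874320 (.cons 0x8743209561 (.cons 0x8709561234 .nil)))) .done (.leaf 0x4598067123 2 (.leaf 0x8067123459 1 .done))) .done) .done)) .done)) .done)) .done))) (.node 1 6 (.cons 0x7160985432 .nil) (.node 7 9 (.cons 0x2345897160 .nil) (.node 4 6 .nil (.node 1 5 (.cons 0x8517906432 (.cons 0x3467158902 (.cons 0x7890215643 .nil))) (.leaf 0x985176432 0 .done) (.node 1 9 (.cons 0x7856432091 .nil) (.node 2 6 (.cons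 0x9017854623 .nil) (.node 2 9 (.cons 0x6458710923 .nil) (.node 0 3 (.cons 0x9032645871 .nil) (.leaf 0x2301645879 2 (.leaf 0x1645879230 1 (.node 3 9 (.cons 0x1785462390 .nil) .done .done))) .done) .done) (.leaf 0x4658719023 2 .done)) (.node 6 9 .nil (.node 0 5 (.cons 0x9871643205 (.cons 0x9617850234 .nil)) (.leaf 0x1789605432 2 .done) (.node 4 7 (.cons 0x6547890123 .nil) (.node 2 6 (.cons 0x9854710623 .nil) (.node 3 6 (.cons 0x9874563210 .nil) (.leaf 0x2109874563 1 .done) .done) (.node 6 8 .nil (.node 1 5 (.cons 0x7890234651 (.cons 0x4321568790 (.cons 0x8651234790 (.cons 0x9021568743 .nil)))) .done (.node 1 8 (.cons 0x3218745690 .nil) (.node 1 4 (.cons 0x3209658741 .nil) (.node 1 9 (.cons 0x9165874320 .nil) .done .done) .done) .done)) .done)) .done)) .done))) (.leaf 0x1602345897 1 (.node 2 7 (.cons 0x9854327160 .nil) (.node 5 7 (.cons 0x9857160234 .nil) (.node 4 7 (.cons 0x6547890123 .nil) (.node 0 7 .nil (.node 6 9 (.cons 0x1723458960 .nil) (.leaf 0x8701234569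 1 (.leaf 0x1702345896 1 .done)) .done) .done) .done) (.node 5 7 (.cons 0x9857160234 .nil) (.node 4 7 (.cons 0x6547890123 .nil) (.node 0 7 .nil (.node 2 6 (.cons 0x3265478901 .nil) (.leaf 0x5890716234 1 .done) .done) .done) .done) .done)) .done))) (.node 4 6 (.cons 0x9023461785 .nil) (.node 2 6 .nil (.node 4 7 (.cons 0x9023478561 (.cons 0x3265478901 .nil)) (.node 1 3 (.cons 0x2134567890 (.cons 0x2671345890 (.cons 0x9013265874 .nil))) (.node 4 9 (.cons 0x5678943120 (.cons 0x5894317620 (.cons 0x7854901623 (.cons 0x9478562013 (.cons 0x7894562310 .nil))))) .done .done) .done) (.node 6 8 .nil (.node 0 5 (.cons 0x9054321786 .nil) (.leaf 0x4321768905 2 (.node 2 9 (.cons 0x6178543290 (.cons 0x7168543290 (.cons 0x7861290543 .nil))) .done .done)) (.node 3 6 (.cons 0x7890123654 .nil) (.node 6 9 (.cons 0x2345871690 .nil) .done .done) .done)) .done)) (.node 3 6 (.cons 0x7890123654 .nil) (.node 2 6 .nil (.node 0 5 (.cons 0x9871054632 (.cons 0x9871263450 .nil)) (.node 3 5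 (.cons 0x4356789021 (.cons 0x4358902671 .nil)) .done .done) (.node 6 9 (.cons 0x2345871690 .nil) (.node 6 8 .nil (.node 0 5 (.cons 0x3264509871 (.cons 0x5096871234 .nil)) (.leaf 0x1786905432 0 .done) .done) .done) .done)) (.node 6 9 (.cons 0x2345871690 .nil) (.node 4 7 (.cons 0x9023478561 .nil) (.leaf 0x2109874563 1 (.node 6 8 .nil (.node 5 9 (.cons 0x6178590234 (.cons 0x6859023471 (.cons 0x3478659021 .nil))) .done (.node 0 7 (.cons 0x9860712345 .nil) (.node 5 9 (.cons 0x7123459860 .nil) (.leaf 0x3459860712 1 (.leaf 0x6895432170 1 .done)) .done) .done)) .done)) .done) .done)) .done)) (.node 0 5 (.cons 0x7890561234 .nil) (.node 0 7 .nil (.node 6 8 (.cons 0x9054321786 (.cons 0x9860712345 .nil)) (.node 3 5 (.cons 0x4356789021 (.cons 0x9860712354 (.cons 0x6890712354 .nil))) .done .done) (.node 4 7 (.cons 0x5612347890 .nil) (.node 5 7 (.cons 0x4321657890 .nil) (.node 7 9 (.cons 0x8974560123 .nil) (.node 2 7 (.cons 0x6098543271 .nil) (.node 3 7 .nil (.node 2 4 (.cons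 0x3247985601 (.cons 0x8901245673 (.cons 0x4237589061 .nil))) .done .done) .done) .done) .done) (.node 0 3 .nil (.node 6 9 (.cons 0x8745690123 (.cons 0x8745690321 .nil)) (.node 4 6 (.cons 0x9058716432 (.cons 0x5469871032 .nil)) .done .done) (.node 0 4 (.cons 0x7890432165 .nil) (.node 0 8 (.cons 0x9087432165 .nil) .done .done) .done)) .done)) .done)) (.node 0 8 .nil (.node 5 9 (.cons 0x3459806712 .nil) (.node 0 7 (.cons 0x8709561234 .nil) (.node 2 6 (.cons 0x6217890543 (.cons 0x8954326071 (.cons 0x4326178590 .nil))) (.node 6 8 (.cons 0x7123459860 .nil) .done .done) .done) (.leaf 0x4598067123 2 (.leaf 0x8067123459 1 .done))) (.node 0 4 (.cons 0x7890432165 .nil) (.node 4 7 (.cons 0x5612347890 .nil) (.node 0 3 (.cons 0x9874305612 .nil) (.node 0 7 .nil (.node 2 9 (.cons 0x3478921650 (.cons 0x1658923470 (.cons 0x5892347061 .nil))) (.leaf 0x7892301654 1 .done) .done) .done) (.node 0 7 .nil (.node 6 8 (.cons 0x9860712345 .nil) (.node 5 9 (.cons 0x6178590432 (.cons 0x7168590432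 .nil)) (.leaf 0x2178659043 2 .done) (.node 1 9 (.cons 0x7856190432 .nil) (.leaf 0x2190786543 2 (.leaf 0x786543219 1 .done)) .done)) .done) .done)) (.node 0 7 .nil (.node 4 7 (.cons 0x5612347890 .nil) (.node 2 9 (.cons 0x3478921650 (.cons 0x1658923470 (.cons 0x5892347061 .nil))) (.node 1 3 (.cons 0x5613298740 (.cons 0x6540789231 (.cons 0x8907654312 .nil))) (.leaf 0x789231654 1 .done) .done) (.leaf 0x3216589074 2 .done)) (.node 0 3 .nil (.node 4 7 (.cons 0x5612347890 (.cons 0x9874305612 .nil)) .done .done) .done)) .done)) .done)) .done)) .done))) (.leaf 0x9067123458 1 .done))))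
noncomputable def tc9_3_29 : T := (.node 1 6 .nil (.node 5 7 (.cons 0x4320987561 .nil) (.node 1 8 (.cons 0x3457609812 (.cons 0x9812347560 (.cons 0x9812065743 .nil))) (.node 3 9 (.cons 0x6547893210 (.cons 0x2189345760 (.cons 0x8932106574 (.cons 0x2398745610 .nil)))) (.node 0 3 (.cons 0x5430987612 (.cons 0x9874561032 .nil)) (.leaf 0x5478903216 2 (.node 2 9 (.cons 0x9218765430 (.cons 0x8761290345 .nil)) (.leaf 0x5678129034 0 .done) .done)) .done) .done) (.leaf 0x2160987543 1 .done)) (.node 3 6 (.cons 0x9874563210 .nil) (.node 2 6 .nil (.node 0 3 (.cons 0x5430987621 (.cons 0x9874562301 .nil)) (.node 2 9 (.cons 0x1298765430 .nil) (.leaf 0x3016547892 1 (.node 1 5 (.cons 0x8763451290 (.cons 0x9874302156 .nil)) (.leaf 0x9876154302 2 .done) (.leaf 0x8923016547 2 .done))) .done) (.node 6 9 (.cons 0x8712345690 .nil) (.node 6 8 .nil (.node 0 5 (.cons 0x1234789650 .nil) (.leaf 0x7896501234 2 (.leaf 0x1786905432 0 (.node 1 9 (.cons 0x6502347891 (.cons 0x7432056891 (.cons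 0x6871905432 .nil))) (.leaf 0x6871902345 0 .done) .done))) (.node 4 6 .nil (.node 2 9 (.cons 0x1786543290 (.cons 0x5468710923 .nil)) (.node 3 9 (.cons 0x6547893210 (.cons 0x5468710932 (.cons 0x5647893201 .nil))) .done .done) .done) .done)) (.node 4 6 .nil (.node 1 5 (.cons 0x1569874320 (.cons 0x7890215643 .nil)) (.node 3 5 (.cons 0x4789653201 (.cons 0x9874653201 .nil)) (.node 3 8 (.cons 0x9834765120 (.cons 0x5469017832 (.cons 0x9832015647 .nil))) (.node 2 7 (.cons 0x4723896510 (.cons 0x5127643890 .nil)) .done .done) .done) .done) .done) .done)) .done)) (.leaf 0x2109874563 1 (.node 2 7 (.cons 0x4563278901 .nil) (.node 4 6 (.cons 0x5463278901 .nil) (.node 2 4 .nil (.node 1 5 (.cons 0x8906721543 (.cons 0x8901542763 (.cons 0x7890243651 .nil))) .done (.node 2 9 (.cons 0x8710923654 .nil) (.node 3 7 (.cons 0x8901245673 .nil) (.node 7 9 (.cons 0x8974560123 .nil) (.node 0 7 (.cons 0x8970165423 .nil) .done .done) .done) .done) .done)) .done) (.node 5 7 .nil (.node 1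 4 (.cons 0x1456327890 (.cons 0x8906327541 (.cons 0x2098756341 .nil))) (.node 1 8 (.cons 0x7236541890 (.cons 0x6327541890 (.cons 0x9812347560 (.cons 0x7563418902 .nil)))) .done .done) (.node 0 7 .nil (.node 2 9 (.cons 0x8710923654 (.cons 0x8923654701 (.cons 0x8923457061 .nil))) .done (.node 7 9 (.cons 0x8974560123 .nil) (.node 3 7 .nil (.node 1 4 (.cons 0x9875614320 (.cons 0x8902143765 (.cons 0x8906541273 .nil))) (.leaf 0x2378906541 1 .done) .done) .done) .done)) .done)) .done)) .done))) (.node 6 9 (.cons 0x8712345690 .nil) (.node 0 5 (.cons 0x9874321650 .nil) (.node 4 6 .nil (.node 5 8 (.cons 0x4320965871 (.cons 0x9021785643 (.cons 0x9023465871 .nil))) (.node 1 5 (.cons 0x1569874320 (.cons 0x7890215643 .nil)) (.node 3 5 (.cons 0x4789653201 (.cons 0x9874653201 .nil)) .done .done) (.node 1 9 (.cons 0x8743205691 (.cons 0x3205874691 .nil)) (.leaf 0x234658719 1 (.leaf 0x7190234658 2 .done)) .done)) (.node 3 6 (.cons 0x9874563210 .nil) (.node 6 8 .nil (.node 3 9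 (.cons 0x6547893210 (.cons 0x7456893210 (.cons 0x2396874501 (.cons 0x9321056874 .nil)))) .done (.node 2 6 .nil (.node 0 3 (.cons 0x9032178654 (.cons 0x5478962301 (.cons 0x9874562301 .nil))) .done .done) .done)) .done) .done)) (.node 4 6 .nil (.node 3 9 (.cons 0x6547893210 (.cons 0x5647893210 .nil)) (.leaf 0x4650123987 1 (.leaf 0x2056439871 1 .done)) (.node 3 6 (.cons 0x9874563210 .nil) (.node 2 6 .nil (.node 1 3 (.cons 0x2134567890 (.cons 0x5478962310 .nil)) (.leaf 0x5621347890 0 .done) (.node 6 8 .nil (.node 1 3 (.cons 0x2134567890 (.cons 0x9865021347 .nil)) (.node 2 9 (.cons 0x3478921650 (.cons 0x9217863450 .nil)) (.leaf 0x4501329687 2 .done) .done) .done) .done)) .done) .done)) (.leaf 0x3478905612 2 .done))) (.node 0 8 (.cons 0x4569087123 .nil) (.leaf 0x7123456908 0 (.node 0 5 (.cons 0x9874321650 .nil) (.node 0 3 (.cons 0x8712309654 .nil) (.node 0 4 (.cons 0x7890432165 .nil) (.node 0 7 .nil (.node 1 8 (.cons 0x9812345607 (.cons 0x5470698123 .nil)) (.node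 2 9 (.cons 0x5610478923 (.cons 0x8129674503 (.cons 0x5047816923 .nil))) .done .done) .done) .done) (.node 0 4 (.cons 0x7890432165 .nil) (.node 0 7 .nil (.node 3 5 (.cons 0x5321698740 (.cons 0x6987045321 (.cons 0x9807435612 .nil))) .done .done) .done) .done)) (.leaf 0x3478905612 2 .done)) (.node 2 9 (.cons 0x6543290871 .nil) (.node 3 8 (.cons 0x1745692380 .nil) (.node 6 8 .nil (.node 5 9 (.cons 0x4380295671 (.cons 0x4320956871 .nil)) (.leaf 0x6801743295 1 .done) .done) (.leaf 0x7129083456 2 (.leaf 0x6712908345 1 .done))) (.node 2 7 .nil (.node 1 3 (.cons 0x2134567890 (.cons 0x1327456980 (.cons 0x8906721345 .nil))) (.leaf 0x5698013274 2 .done) (.node 5 7 (.cons 0x4321657890 .nil) (.node 6 8 (.cons 0x8609234571 .nil) (.node 2 8 .nil (.node 1 3 (.cons 0x2134567890 (.cons 0x9280671345 (.cons 0x9654713280 (.cons 0x2890675431 .nil)))) .done .done) .done) .done) .done)) .done)) .done))) .done)) .done))) (.node 0 7 .nil (.node 6 9 (.cons 0x8712345690 .nil) (.leaf 0x8701234569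 1 (.node 6 8 (.cons 0x9078654321 .nil) (.node 3 5 (.cons 0x4356789021 (.cons 0x9860123547 (.cons 0x2354786901 (.cons 0x5347689021 .nil)))) (.node 3 6 (.cons 0x9870123654 (.cons 0x9012368745 .nil)) (.node 3 7 (.cons 0x9860123745 .nil) .done .done) .done) (.node 5 9 (.cons 0x7459860123 (.cons 0x6895470123 .nil)) (.node 1 3 (.cons 0x2134567890 (.cons 0x4569870132 (.cons 0x8907654312 (.cons 0x7068954312 (.cons 0x5986074312 .nil))))) .done (.node 7 9 (.cons 0x5479860123 .nil) (.node 1 5 (.cons 0x5123479860 (.cons 0x4320789651 (.cons 0x4321568970 .nil))) (.node 3 9 (.cons 0x7439860215 (.cons 0x7021568934 (.cons 0x7068934512 .nil))) .done .done) .done) .done)) (.leaf 0x3217098654 1 (.leaf 0x2345689071 2 .done)))) (.node 0 8 (.cons 0x4569087123 .nil) (.leaf 0x7123456908 0 (.node 2 6 (.cons 0x9087126543 .nil) (.node 3 9 (.cons 0x9345621780 (.cons 0x7089345621 (.cons 0x4562398701 .nil))) (.leaf 0x2654398071 2 (.leaf 0x6217089345 1 .done)) (.node 3 9 (.cons 0x7809345621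 .nil) (.leaf 0x5439087126 1 (.leaf 0x8093456217 1 (.node 3 6 (.cons 0x7890123654 (.cons 0x9870123654 .nil)) (.node 1 4 (.cons 0x7890145632 (.cons 0x3214569870 (.cons 0x8709341265 .nil))) (.node 2 8 (.cons 0x9017823654 (.cons 0x9823654107 (.cons 0x8236907145 (.cons 0x7098236541 .nil)))) .done .done) .done) (.node 1 4 (.cons 0x5678902143 (.cons 0x3214569870 .nil)) (.leaf 0x5623987014 2 (.node 3 8 (.cons 0x7839014562 (.cons 0x5470698321 (.cons 0x5412690783 (.cons 0x9078341265 .nil)))) .done .done)) .done)))) .done)) (.node 6 8 (.cons 0x9078654321 .nil) (.node 3 5 (.cons 0x4356789021 (.cons 0x8960745321 (.cons 0x1235478690 (.cons 0x5347689021 .nil)))) (.node 0 3 (.cons 0x5478690321 .nil) (.node 2 9 (.cons 0x6543290871 (.cons 0x8671290345 (.cons 0x6871092354 .nil))) .done .done) .done) (.node 2 9 (.cons 0x6543290871 (.cons 0x9234568071 .nil)) (.node 1 4 (.cons 0x5678902143 (.cons 0x3214569870 (.cons 0x5417086923 .nil))) (.node 3 5 (.cons 0x4356789021 (.cons 0x8960745321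 (.cons 0x3541296870 (.cons 0x4532968071 .nil)))) (.leaf 0x789653412 0 .done) .done) .done) (.leaf 0x3217098654 1 .done))) .done))) .done))) (.node 0 8 (.cons 0x9087123456 .nil) (.node 6 9 (.cons 0x8712345690 .nil) (.node 1 6 .nil (.node 5 7 (.cons 0x9806123457 .nil) (.node 4 8 (.cons 0x5748960123 (.cons 0x9023487165 .nil)) (.leaf 0x6901234875 1 (.leaf 0x1756908432 1 .done)) (.leaf 0x2160987543 1 .done)) (.node 7 9 (.cons 0x7980612345 .nil) (.node 5 7 (.cons 0x4579806123 .nil) (.node 2 7 .nil (.node 1 8 (.cons 0x5743218960 (.cons 0x7218906543 .nil)) (.leaf 0x7234561890 0 .done) .done) .done) .done) .done)) (.node 2 8 (.cons 0x1782345690 .nil) (.node 0 3 .nil (.node 1 5 (.cons 0x6908715432 (.cons 0x6987451032 (.cons 0x9671543082 (.cons 0x9651782034 .nil)))) .done (.node 0 4 (.cons 0x9654017823 .nil) (.node 0 5 .nil (.node 1 3 (.cons 0x2134567890 (.cons 0x6987450132 (.cons 0x5028967431 (.cons 0x6789054312 (.cons 0x9650431782 .nil))))) .done .done) .done) .done))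 (.node 0 3 (.cons 0x4569032871 .nil) (.node 3 6 (.cons 0x7890123654 .nil) (.node 0 5 (.cons 0x2369874501 .nil) (.leaf 0x8745012369 0 .done) (.node 1 6 (.cons 0x5478230961 .nil) (.node 0 5 (.cons 0x5023478961 .nil) (.node 1 5 (.cons 0x5169874320 .nil) (.leaf 0x3287451690 1 .done) .done) .done) .done)) .done) .done)) (.leaf 0x7123456908 0 .done))) (.node 0 4 .nil (.node 1 6 (.cons 0x7890432165 .nil) (.node 0 3 (.cons 0x5430987612 .nil) (.node 0 5 (.cons 0x3450987612 .nil) .done .done) (.node 2 9 (.cons 0x1654329870 (.cons 0x3298704561 .nil)) (.node 3 7 (.cons 0x7345612980 (.cons 0x8921045673 (.cons 0x7340892165 .nil))) .done (.node 1 5 (.cons 0x6154329870 .nil) (.node 3 7 (.cons 0x6154370892 (.cons 0x9873210456 (.cons 0x8904376512 .nil))) .done (.node 3 6 (.cons 0x7890215634 (.cons 0x7890436512 (.cons 0x7892043615 .nil))) (.leaf 0x4078923615 0 .done) .done)) .done)) .done)) (.node 0 5 .nil (.node 4 6 (.cons 0x7890564321 .nil) (.node 1 6 (.cons 0x7890561234 .nil)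 (.node 3 9 (.cons 0x6543908712 (.cons 0x8934761205 (.cons 0x2167893450 (.cons 0x5643908712 (.cons 0x6105478932 .nil))))) .done .done) (.leaf 0x2346509871 1 (.leaf 0x564321789 1 .done))) .done) .done)) .done)) .done)) (.node 0 7 .nil (.node 6 9 (.cons 0x8712345690 .nil) (.leaf 0x8701234569 1 (.node 6 8 (.cons 0x9078654321 .nil) (.node 1 5 (.cons 0x8715690234 (.cons 0x4320789651 (.cons 0x7432098651 .nil))) (.node 4 6 (.cons 0x9870215643 .nil) (.node 3 9 (.cons 0x8651743902 (.cons 0x7864390215 (.cons 0x8709346512 .nil))) (.leaf 0x2156439870 0 .done) .done) .done) (.node 1 5 (.cons 0x8715690234 (.cons 0x4320789651 .nil)) (.node 3 9 (.cons 0x2398654701 (.cons 0x2154398670 (.cons 0x4701568932 .nil))) (.leaf 0x5689347021 0 .done) (.node 3 9 (.cons 0x2398654701 (.cons 0x7068934512 .nil)) (.leaf 0x5689347021 0 (.node 2 4 (.cons 0x8710965423 (.cons 0x6512439870 (.cons 0x9342156870 (.cons 0x5689324701 (.cons 0x7068934215 .nil))))) .done .done)) .done)) (.leaf 0x3217098654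 1 (.leaf 0x2345689071 2 .done)))) (.node 7 9 (.cons 0x8970654321 .nil) (.node 6 8 (.cons 0x8609712345 .nil) (.node 2 9 (.cons 0x3298654701 .nil) (.node 0 3 (.cons 0x8765430921 (.cons 0x9230178654 .nil)) (.node 5 8 (.cons 0x9712345860 (.cons 0x1792345860 (.cons 0x9230685471 .nil))) (.leaf 0x7123458609 1 .done) .done) .done) (.leaf 0x3217098654 1 (.node 2 9 (.cons 0x1786543290 (.cons 0x8654329071 .nil)) .done .done))) (.node 4 8 (.cons 0x3217845690 (.cons 0x5607984321 .nil)) (.node 3 5 (.cons 0x4356789021 (.cons 0x7069845321 (.cons 0x6907845321 (.cons 0x8453217096 .nil)))) (.node 1 6 (.cons 0x2354871690 .nil) (.leaf 0x7845320961 1 (.node 3 6 (.cons 0x5487123690 (.cons 0x9870123654 (.cons 0x5487096321 .nil))) .done .done)) .done) (.node 0 8 (.cons 0x4569087123 .nil) (.leaf 0x7123456908 0 (.node 5 8 (.cons 0x3485609712 .nil) (.leaf 0x1790658432 1 (.node 1 3 (.cons 0x2134567890 (.cons 0x5607984312 (.cons 0x8907654312 .nil))) (.node 2 6 (.cons 0x5431267890 (.cons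 0x9854706231 (.cons 0x5487096213 .nil))) .done (.node 2 5 (.cons 0x4312567890 (.cons 0x3489706521 (.cons 0x4870965213 (.cons 0x8907652134 .nil)))) .done .done)) .done)) .done)) .done)) .done)) .done))) (.node 0 8 (.cons 0x9087123456 .nil) (.node 0 4 .nil (.node 1 6 (.cons 0x7890432165 .nil) (.node 5 7 (.cons 0x8902347561 .nil) (.node 1 8 (.cons 0x9812345706 (.cons 0x3457609812 (.cons 0x2347560981 .nil))) .done (.node 1 9 (.cons 0x8916574320 (.cons 0x8916023475 (.cons 0x6578912340 (.cons 0x6578912043 .nil)))) .done (.leaf 0x2160987543 1 .done))) (.node 5 9 (.cons 0x1659874320 (.cons 0x7895612043 (.cons 0x3204789561 .nil))) (.node 3 7 (.cons 0x8956102374 (.cons 0x8956734021 (.cons 0x7340895612 .nil))) .done (.leaf 0x6598743201 2 .done)) .done)) (.node 0 5 .nil (.node 1 6 (.cons 0x9874320561 (.cons 0x2347890561 .nil)) (.leaf 0x9874321650 1 .done) (.node 0 3 .nil (.node 1 6 (.cons 0x9874561032 .nil) (.node 5 8 (.cons 0x9854321607 .nil) (.node 6 9 (.cons 0x4321785690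 (.cons 0x4320965871 (.cons 0x8712309654 .nil))) .done (.leaf 0x9076123458 1 .done)) (.node 6 9 (.cons 0x8712345690 (.cons 0x8712309654 .nil)) (.node 2 7 (.cons 0x4327890561 (.cons 0x4569872301 .nil)) (.node 1 4 (.cons 0x7890561432 (.cons 0x1456987230 (.cons 0x8903274165 (.cons 0x6541278903 .nil)))) (.leaf 0x9872301456 1 .done) .done) .done) .done)) .done) .done)) .done)) (.node 1 6 (.cons 0x9087165432 .nil) (.node 0 3 (.cons 0x9874561032 .nil) (.node 0 5 (.cons 0x9874320561 .nil) (.node 0 4 .nil (.node 6 9 (.cons 0x5432169870 (.cons 0x8712340965 (.cons 0x5407896123 .nil))) (.leaf 0x8705432169 1 .done) .done) .done) .done) (.node 5 7 (.cons 0x4321657890 .nil) (.node 0 4 (.cons 0x9875612340 .nil) (.node 0 3 .nil (.node 0 5 (.cons 0x2347890561 .nil) (.node 2 9 (.cons 0x9234087561 (.cons 0x8923016574 (.cons 0x6129875034 .nil))) (.leaf 0x7892301654 1 .done) .done) .done) (.leaf 0x1657890432 1 .done)) (.node 2 7 .nil (.node 1 3 (.cons 0x2134567890 (.cons 0x8901327456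 (.cons 0x8906721345 .nil))) (.node 1 9 (.cons 0x8913206574 (.cons 0x2765431980 (.cons 0x5431980672 (.cons 0x8913472065 .nil)))) .done .done) (.node 0 3 .nil (.node 1 9 (.cons 0x7234560891 (.cons 0x8912765430 (.cons 0x8912760345 .nil))) (.leaf 0x3456721980 0 .done) (.node 0 4 (.cons 0x4098756123 .nil) (.node 0 5 (.cons 0x2347890561 .nil) .done .done) .done)) .done)) .done)) .done)) .done)) .done)) .done)))
noncomputable def tc9_3_30 : T := (.node 5 9 (.cons 0x3459806712 .nil) (.leaf 0x4598067123 2 (.node 0 3 (.cons 0x6598712034 .nil) (.node 0 5 .nil (.node 6 9 (.cons 0x6954308712 (.cons 0x4321789650 (.cons 0x4320569871 (.cons 0x8960547123 .nil)))) .done (.node 0 7 .nil (.node 6 9 (.cons 0x4320569871 .nil) (.leaf 0x8701234569 1 (.node 3 6 (.cons 0x4365987120 (.cons 0x4365987021 .nil)) (.node 2 4 (.cons 0x3245698710 (.cons 0x1243659870 (.cons 0x8709563421 (.cons 0x8956342170 .nil)))) .done .done) (.leaf 0x7123456980 0 .done))) .done) .done)) (.node 0 5 .nil (.node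 6 9 (.cons 0x4569871032 (.cons 0x4321789650 (.cons 0x4320569871 (.cons 0x8960547123 .nil)))) .done (.node 0 7 .nil (.node 6 9 (.cons 0x4569871032 .nil) (.leaf 0x8701234569 1 (.node 1 5 (.cons 0x8960234715 (.cons 0x6980715432 .nil)) .done (.leaf 0x7123456980 0 .done))) .done) .done)) .done)) (.node 4 6 (.cons 0x1789564320 .nil) (.node 1 6 (.cons 0x7160895432 .nil) (.node 2 6 (.cons 0x9543261780 .nil) (.node 6 9 (.cons 0x2345961780 .nil) (.node 3 6 (.cons 0x5987463201 .nil) (.node 6 8 (.cons 0x5902347861 .nil) .done .done) .done) .done) (.node 1 8 (.cons 0x7189560234 .nil) (.node 2 7 (.cons 0x6089543271 .nil) (.node 6 9 (.cons 0x8069543271 .nil) (.leaf 0x817234596 2 .done) (.node 5 7 (.cons 0x4321657890 .nil) (.node 1 5 (.cons 0x6478951023 .nil) (.node 0 7 (.cons 0x7089516432 .nil) (.leaf 0x6159807234 1 .done) .done) .done) .done)) .done) .done)) (.leaf 0x7895643201 2 (.leaf 0x8710234659 1 .done))) (.leaf 0x8067123459 1 .done)))) (.node 3 7 (.cons 0x9806543712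 .nil) (.node 1 6 (.cons 0x9087345612 .nil) (.node 2 7 (.cons 0x9087216543 .nil) (.node 2 6 (.cons 0x9087345621 .nil) (.node 2 8 .nil (.node 4 9 (.cons 0x9456210873 (.cons 0x8210945673 (.cons 0x6549012873 (.cons 0x7106549823 .nil)))) .done (.node 5 7 (.cons 0x3457609821 .nil) (.node 0 7 .nil (.node 3 9 (.cons 0x5439821760 (.cons 0x7089345621 (.cons 0x4562398701 .nil))) (.leaf 0x893456217 1 (.leaf 0x782165439 1 .done)) .done) .done) .done)) .done) .done) (.node 1 8 .nil (.node 5 9 (.cons 0x4378095612 (.cons 0x8120956734 (.cons 0x6590218734 (.cons 0x7189560234 (.cons 0x8123745906 .nil))))) .done (.node 1 3 (.cons 0x2134567890 .nil) (.node 0 7 (.cons 0x8907654312 .nil) (.node 0 4 (.cons 0x7890432165 .nil) (.node 0 5 (.cons 0x7890561234 .nil) .done .done) .done) .done) .done)) .done)) (.node 7 9 (.cons 0x8971234560 .nil) (.node 4 8 (.cons 0x5602348971 .nil) (.node 2 4 (.cons 0x8971065423 .nil) (.node 2 7 (.cons 0x3279845601 .nil) (.node 2 8 (.cons 0x1798234560 .nil)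 (.node 3 8 (.cons 0x6542387901 .nil) (.node 4 9 (.cons 0x1723894560 .nil) (.leaf 0x3894560172 1 (.leaf 0x6549832710 1 .done)) .done) .done) .done) (.node 4 9 (.cons 0x5608943712 .nil) (.node 5 8 (.cons 0x2173498560 .nil) (.node 3 9 (.cons 0x5673984210 .nil) (.node 0 5 (.cons 0x8905673421 .nil) (.node 0 7 (.cons 0x3984567012 .nil) .done .done) (.leaf 0x7658934201 2 .done)) (.leaf 0x6589437120 2 .done)) .done) .done)) (.node 0 4 .nil (.node 3 9 (.cons 0x7106548932 (.cons 0x8934021765 .nil)) (.node 5 8 (.cons 0x4320658971 (.cons 0x3985406712 .nil)) (.leaf 0x2043985671 0 .done) .done) (.node 0 7 .nil (.node 5 9 (.cons 0x4895601732 (.cons 0x6598432071 .nil)) (.node 4 6 (.cons 0x3465987120 (.cons 0x3465987021 .nil)) .done (.leaf 0x6071234895 0 .done)) .done) .done)) .done)) (.node 4 8 (.cons 0x3217984560 .nil) (.node 0 3 (.cons 0x7984560321 .nil) (.node 1 6 (.cons 0x9784561230 .nil) (.leaf 0x5487903216 2 (.leaf 0x2309784561 1 .done)) (.node 3 8 .nil (.node 5 9 (.cons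 0x8954306712 (.cons 0x4389567120 (.cons 0x7120659834 (.cons 0x6017459832 .nil)))) .done (.node 2 4 (.cons 0x1798324560 .nil) (.leaf 0x6542389710 1 (.leaf 0x8324560179 1 .done)) .done)) (.leaf 0x6548971230 1 .done))) (.node 2 7 (.cons 0x9845601723 .nil) (.node 5 7 (.cons 0x9843206571 .nil) (.node 0 7 .nil (.node 1 5 (.cons 0x4897156023 (.cons 0x9843207156 .nil)) (.leaf 0x2065179843 0 (.node 2 9 (.cons 0x2984371560 (.cons 0x6517029843 .nil)) (.leaf 0x734892156 0 .done) .done)) .done) .done) .done) .done)) .done)) (.node 1 6 (.cons 0x4561098732 .nil) (.node 2 9 (.cons 0x2908734561 .nil) (.leaf 0x4560892173 1 (.node 0 7 .nil (.node 3 6 (.cons 0x7890123654 (.cons 0x9870123654 .nil)) (.node 3 9 (.cons 0x7809345612 (.cons 0x6543980712 .nil)) .done .done) (.node 2 7 (.cons 0x9087216543 .nil) (.node 5 7 (.cons 0x6089217543 .nil) .done .done) .done)) (.node 2 7 (.cons 0x9087216543 .nil) (.node 2 4 (.cons 0x6542378901 .nil) (.node 2 6 (.cons 0x4562378901 .nil) .done (.leaf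 0x5423789016 2 .done)) .done) .done))) (.node 1 8 .nil (.node 2 4 (.cons 0x6542378901 (.cons 0x9810654237 (.cons 0x9018732456 (.cons 0x5673420981 .nil)))) .done (.node 2 4 (.cons 0x6542378901 .nil) (.node 2 8 (.cons 0x9823710654 .nil) (.node 2 6 (.cons 0x4562378901 .nil) (.node 2 7 .nil (.node 1 3 (.cons 0x2134567890 (.cons 0x9087213456 (.cons 0x9801372456 .nil))) .done .done) .done) .done) (.node 0 4 (.cons 0x7890432165 .nil) (.node 4 8 (.cons 0x9845601732 .nil) (.node 4 6 .nil (.node 2 5 (.cons 0x9871652340 (.cons 0x9810645237 (.cons 0x9802564371 (.cons 0x9817325460 .nil)))) .done .done) .done) .done) (.leaf 0x987324561 1 .done))) .done)) .done)) .done))) (.node 2 7 (.cons 0x9806543271 .nil) (.node 0 7 .nil (.node 6 9 (.cons 0x1234569870 .nil) (.leaf 0x5698701234 2 (.leaf 0x8701234569 1 (.node 2 4 (.cons 0x3245698710 (.cons 0x3245698701 .nil)) (.node 1 8 (.cons 0x1872345690 (.cons 0x5670981243 (.cons 0x5698170243 .nil))) (.leaf 0x7189654320 2 .done) .done)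 (.node 2 9 (.cons 0x6543298071 .nil) (.node 0 3 (.cons 0x8765430921 (.cons 0x8921760345 .nil)) .done (.node 1 9 (.cons 0x6543278091 .nil) (.leaf 0x5432719806 0 (.node 4 6 (.cons 0x5643278091 (.cons 0x5643219870 (.cons 0x8709123465 .nil))) (.node 5 8 (.cons 0x3458921760 (.cons 0x7065891234 (.cons 0x6071298543 (.cons 0x3298546071 .nil)))) .done .done) (.node 2 6 (.cons 0x3456278091 (.cons 0x3456219870 .nil)) .done .done))) .done)) .done)))) .done) (.node 7 9 (.cons 0x8971234560 .nil) (.node 0 4 (.cons 0x8971234065 .nil) (.node 0 7 .nil (.node 4 8 (.cons 0x5607984321 .nil) (.node 0 3 (.cons 0x3098456721 .nil) (.leaf 0x2179845603 1 .done) (.node 1 4 (.cons 0x5608971432 .nil) (.node 5 8 (.cons 0x4321798560 (.cons 0x9856702143 .nil)) (.node 4 9 (.cons 0x8560497123 (.cons 0x6589417023 .nil)) .done .done) .done) .done)) .done) (.node 4 8 .nil (.node 3 5 (.cons 0x4356789021 (.cons 0x3560489721 (.cons 0x6532109784 (.cons 0x9843567120 (.cons 0x4897106532 .nil))))) .done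 (.node 0 7 (.cons 0x5607984321 .nil) (.node 3 7 (.cons 0x5601237984 .nil) (.leaf 0x654897321 1 .done) .done) .done)) .done)) (.node 4 8 (.cons 0x5602348971 .nil) (.node 2 8 (.cons 0x1798234560 .nil) (.node 5 7 (.cons 0x3457609821 .nil) (.node 0 5 (.cons 0x6054328971 .nil) (.node 1 5 (.cons 0x7984320651 .nil) (.leaf 0x2348971560 1 .done) .done) .done) .done) (.node 4 9 .nil (.node 3 5 (.cons 0x4356789021 (.cons 0x8765349021 (.cons 0x8943567120 (.cons 0x6532017894 .nil)))) (.leaf 0x9435671208 1 .done) (.node 1 4 (.cons 0x9806541723 .nil) (.node 0 4 .nil (.node 1 6 (.cons 0x3271654980 (.cons 0x7890432165 .nil)) .done .done) .done) .done)) .done)) .done)) .done)) .done)))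
noncomputable def tc9_3_31 : T := (.node 6 9 (.cons 0x8745690123 .nil) (.node 1 6 .nil (.node 5 7 (.cons 0x4320987561 .nil) (.node 0 4 (.cons 0x5698712340 (.cons 0x8960432175 .nil)) (.node 0 5 (.cons 0x9871650234 .nil) (.leaf 0x1789650432 1 .done) (.leaf 0x8904321657 1 .done)) (.leaf 0x2160987543 1 .done)) (.node 1 5 (.cons 0x8743215690 .nil) (.node 3 6 (.cons 0x7890123654 .nil) (.node 3 8 (.cons 0x7651209834 .nil) (.node 2 6 (.cons 0x7621543890 .nil) (.node 2 7 (.cons 0x6721543890 .nil) (.node 4 6 (.cons 0x7643890215 .nil) (.node 6 8 (.cons 0x3451276890 .nil) .done .done) .done) .done) (.leaf 0x1567438902 0 (.node 2 9 (.cons 0x6547832901 .nil) (.leaf 0x923874561 2 (.node 4 6 (.cons 0x5176438920 .nil) (.node 3 5 (.cons 0x4536789210 .nil) (.leaf 0x4601789235 2 .done) .done) (.leaf 0x3874561092 1 .done))) .done))) (.node 3 7 (.cons 0x8902156734 .nil) (.node 6 8 (.cons 0x2154376890 .nil) (.leaf 0x7345120986 1 (.leaf 0x9867345120 2 .done)) (.node 1 3 (.cons 0x2134567890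 .nil) (.node 1 4 (.cons 0x7890145632 .nil) (.node 1 9 .nil (.node 0 3 (.cons 0x8765430912 .nil) (.leaf 0x8765430219 0 .done) .done) .done) .done) .done)) .done)) (.node 3 6 (.cons 0x7890215634 .nil) (.node 4 6 (.cons 0x7890215643 .nil) (.node 6 8 (.cons 0x9021568743 .nil) (.node 2 6 .nil (.node 3 7 (.cons 0x2098734651 (.cons 0x6215437890 (.cons 0x4562378901 .nil))) (.leaf 0x1260987345 1 .done) .done) .done) .done) (.node 4 6 (.cons 0x7890215643 .nil) (.node 6 8 (.cons 0x9021568743 .nil) (.node 2 6 .nil (.node 3 7 (.cons 0x9873465120 (.cons 0x6215437890 .nil)) (.leaf 0x1260987345 1 .done) .done) .done) .done) .done)) .done)) .done)) (.node 4 6 .nil (.node 5 9 (.cons 0x3465987120 .nil) (.leaf 0x8710234659 1 (.node 3 8 (.cons 0x4389567120 (.cons 0x5983467120 (.cons 0x9012387465 (.cons 0x7102389564 .nil)))) (.node 0 7 (.cons 0x4389567021 (.cons 0x5983467021 (.cons 0x8956432071 .nil))) .done .done) (.node 5 7 (.cons 0x6457890123 .nil) (.leaf 0x8901234657 1 (.node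 0 3 (.cons 0x4569871032 (.cons 0x6459871230 .nil)) (.node 0 5 (.cons 0x4320569871 (.cons 0x9871205643 .nil)) .done (.leaf 0x7895643021 1 .done)) .done)) .done))) (.node 2 4 (.cons 0x3245698710 .nil) (.node 1 4 (.cons 0x5698714320 .nil) (.node 4 9 .nil (.node 3 5 (.cons 0x4356789021 (.cons 0x8749653201 (.cons 0x8765349021 (.cons 0x8943567120 (.cons 0x7894653201 .nil))))) .done (.node 4 8 .nil (.node 3 7 (.cons 0x8965423710 (.cons 0x5489601732 (.cons 0x5698423710 (.cons 0x9845601732 .nil)))) .done (.node 0 4 .nil (.node 3 9 (.cons 0x7106548932 (.cons 0x8934021765 (.cons 0x7893210465 .nil))) (.node 2 9 (.cons 0x7106548923 .nil) (.node 7 9 (.cons 0x8971234560 (.cons 0x8971234065 .nil)) .done .done) .done) .done) .done)) .done)) (.node 4 9 .nil (.node 3 5 (.cons 0x4356789021 (.cons 0x8749653201 (.cons 0x8765349021 (.cons 0x8943567120 (.cons 0x7894653201 .nil))))) .done (.node 4 8 .nil (.node 1 5 (.cons 0x8743209651 (.cons 0x9651784320 (.cons 0x7156984320 .nil)))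 .done (.node 0 4 .nil (.node 3 9 (.cons 0x7106548932 (.cons 0x8934021765 (.cons 0x7893210465 .nil))) .done .done) .done)) .done)) .done)) (.node 5 7 (.cons 0x8960175423 .nil) (.node 1 6 (.cons 0x4320987561 .nil) (.node 3 6 (.cons 0x5423698710 .nil) (.leaf 0x7890163245 2 .done) (.node 0 4 (.cons 0x2340987561 .nil) (.leaf 0x9875612340 1 (.node 4 8 (.cons 0x9843206571 .nil) (.node 0 8 (.cons 0x9087432165 .nil) (.node 1 8 (.cons 0x5690234781 .nil) .done .done) .done) .done)) .done)) (.node 2 7 .nil (.node 3 8 (.cons 0x1754238960 (.cons 0x5438906721 (.cons 0x9832710654 .nil))) (.node 1 3 (.cons 0x9831245760 (.cons 0x8723109654 (.cons 0x5427698310 (.cons 0x5469872310 .nil)))) (.leaf 0x6754213890 1 .done) (.leaf 0x6983245710 1 .done)) .done) .done)) .done)) .done)) (.node 0 3 (.cons 0x4569871230 .nil) (.node 2 9 (.cons 0x8765430921 .nil) (.node 1 8 (.cons 0x3218745690 .nil) (.leaf 0x4309218765 0 (.node 1 6 .nil (.node 5 7 (.cons 0x7560981234 (.cons 0x8165743290 .nil))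 (.leaf 0x2160987543 1 .done) (.node 5 9 (.cons 0x4309567812 .nil) (.node 2 6 (.cons 0x3478126590 .nil) (.leaf 0x8126590347 1 .done) (.node 2 6 (.cons 0x1874326590 .nil) (.node 4 6 (.cons 0x1789564320 .nil) (.leaf 0x8710234659 1 .done) .done) .done)) .done)) (.node 0 8 (.cons 0x3456712980 .nil) (.node 0 7 .nil (.node 4 8 (.cons 0x9654871230 (.cons 0x9654870321 (.cons 0x8456923071 .nil))) .done (.node 0 4 (.cons 0x3217896540 .nil) (.node 0 5 (.cons 0x6712980543 .nil) .done .done) .done)) (.node 3 5 (.cons 0x4356789021 .nil) (.leaf 0x2081743569 0 (.leaf 0x1209653478 0 (.node 0 4 (.cons 0x3217896540 .nil) (.leaf 0x9204356718 1 (.node 0 5 .nil (.node 1 6 (.cons 0x7165432980 (.cons 0x7890561234 .nil)) (.leaf 0x4509876123 0 .done) .done) .done)) .done))) .done)) .done))) (.node 0 5 (.cons 0x8921760543 .nil) (.node 0 8 (.cons 0x9806543217 .nil) (.node 5 9 (.cons 0x3459806712 .nil) (.leaf 0x4598067123 2 (.node 4 6 (.cons 0x1789564320 .nil) (.node 2 7 (.cons 0x6089543271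 .nil) (.node 5 7 (.cons 0x9645780321 .nil) .done .done) (.leaf 0x8710234659 1 .done)) .done)) (.node 0 4 (.cons 0x3217896540 .nil) (.node 0 7 .nil (.node 2 4 (.cons 0x9654230871 (.cons 0x3245698071 .nil)) (.node 1 3 (.cons 0x2134567890 (.cons 0x7089654231 (.cons 0x6987054213 .nil))) (.leaf 0x6987031245 2 .done) .done) .done) .done) .done)) (.node 1 6 (.cons 0x6178923450 .nil) (.node 2 6 .nil (.node 1 8 (.cons 0x3218745690 (.cons 0x3269054781 (.cons 0x9056234781 (.cons 0x7189260543 .nil)))) .done (.node 4 6 (.cons 0x6450178923 .nil) (.node 3 6 (.cons 0x5463298710 .nil) (.node 6 8 (.cons 0x4503296871 .nil) .done .done) .done) .done)) (.leaf 0x3298716054 0 .done)) .done)) .done)) (.node 0 4 (.cons 0x3217896540 .nil) (.node 0 8 (.cons 0x9806543217 .nil) (.node 0 7 .nil (.node 4 8 (.cons 0x7123069845 (.cons 0x5489607123 .nil)) (.node 1 6 (.cons 0x5430987612 (.cons 0x9612307845 .nil)) (.node 6 8 (.cons 0x5478690321 .nil) .done .done) .done) .done) .done) (.leaf 0x7896540321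 0 .done)) (.node 1 8 (.cons 0x3218745690 .nil) (.node 0 8 (.cons 0x9806543217 .nil) (.node 0 4 (.cons 0x3217896540 .nil) (.node 0 7 .nil (.node 3 5 (.cons 0x6987123540 (.cons 0x6987045321 (.cons 0x6907812354 (.cons 0x8123547096 .nil)))) .done .done) .done) .done) (.leaf 0x9654781230 1 (.node 0 8 (.cons 0x9806543217 .nil) (.node 0 7 .nil (.node 2 6 (.cons 0x9871032654 (.cons 0x9078126543 .nil)) (.node 1 4 (.cons 0x5678902143 (.cons 0x8965417032 .nil)) (.node 2 4 (.cons 0x1789654230 (.cons 0x8965423071 .nil)) .done .done) .done) .done) .done) .done))) .done))) .done))) (.node 0 8 (.cons 0x9806543217 .nil) tc9_3_30 (.node 1 8 (.cons 0x9817432065 .nil) (.node 5 7 (.cons 0x3457609812 .nil) (.node 3 7 (.cons 0x5437609812 .nil) (.node 0 7 .nil (.node 1 5 (.cons 0x8906734512 .nil) (.node 6 8 (.cons 0x9865174320 (.cons 0x2347098651 (.cons 0x9865170234 (.cons 0x6890732154 .nil)))) (.leaf 0x7345120986 1 .done) (.node 4 6 (.cons 0x7890215643 (.cons 0x9870215643 .nil))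 (.node 1 4 (.cons 0x5678902143 .nil) (.node 1 9 (.cons 0x8917432065 (.cons 0x8709123465 .nil)) .done .done) .done) .done)) .done) (.node 1 3 (.cons 0x2134567890 .nil) (.node 1 6 .nil (.node 0 5 (.cons 0x4378905612 (.cons 0x9871650234 .nil)) (.leaf 0x9874321650 1 .done) (.node 4 8 (.cons 0x9021348765 .nil) (.node 3 8 (.cons 0x9067543812 .nil) (.node 2 8 (.cons 0x9061823475 .nil) (.node 6 8 (.cons 0x9068123457 .nil) .done .done) .done) (.node 0 8 (.cons 0x9087654312 .nil) (.node 3 8 (.cons 0x9067543812 .nil) (.node 2 8 (.cons 0x9065734821 .nil) (.node 5 8 (.cons 0x9856023471 .nil) .done .done) .done) .done) .done)) .done)) (.node 0 7 (.cons 0x8907654312 .nil) (.node 2 7 (.cons 0x8901327456 .nil) (.node 7 9 (.cons 0x8971234560 .nil) .done .done) .done) .done)) .done)) (.node 4 6 (.cons 0x7546098123 .nil) (.node 4 8 .nil (.node 3 7 (.cons 0x9812375460 (.cons 0x9012378456 (.cons 0x6098457321 (.cons 0x4890657321 .nil)))) .done (.node 0 8 (.cons 0x9806543217 .nil)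 (.node 5 8 (.cons 0x9856023471 .nil) (.node 3 8 .nil (.node 1 5 (.cons 0x9874651023 (.cons 0x9021567834 (.cons 0x2098347651 (.cons 0x9834715602 .nil)))) .done (.node 2 8 .nil (.node 0 3 (.cons 0x9812306457 (.cons 0x9034567821 (.cons 0x9821760345 .nil))) .done (.node 6 8 .nil (.node 3 7 (.cons 0x9812375460 (.cons 0x9012378654 .nil)) (.leaf 0x986547321 0 .done) .done) .done)) .done)) .done) .done) .done)) (.node 3 7 (.cons 0x5437609812 .nil) (.node 1 6 .nil (.node 3 5 (.cons 0x4356789021 (.cons 0x9816023574 (.cons 0x5347618902 (.cons 0x9023578164 .nil)))) .done (.node 1 3 (.cons 0x2134567890 .nil) (.node 0 7 (.cons 0x8907654312 .nil) (.node 2 7 (.cons 0x8901327456 .nil) .done .done) .done) .done)) (.leaf 0x5732189064 2 (.leaf 0x2189064573 1 .done))) .done)) .done)) (.node 1 6 .nil (.node 5 7 (.cons 0x2347560981 .nil) (.node 4 9 (.cons 0x6578123490 (.cons 0x8756120943 .nil)) (.node 0 5 (.cons 0x9871650234 .nil) (.leaf 0x9874321650 1 (.node 0 8 (.cons 0x5671208943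 (.cons 0x9087543216 (.cons 0x7561809432 .nil))) .done .done)) (.leaf 0x1234906578 0 .done)) (.leaf 0x2160987543 1 .done)) (.node 4 6 .nil (.node 0 5 (.cons 0x9056187432 (.cons 0x9056432187 (.cons 0x9871205643 .nil))) (.node 2 7 (.cons 0x9056187234 (.cons 0x9056432781 (.cons 0x9817234605 .nil))) (.leaf 0x6509817234 1 .done) .done) (.node 2 6 (.cons 0x3265478901 .nil) (.node 6 8 .nil (.node 2 9 (.cons 0x5618743290 (.cons 0x3298654710 (.cons 0x5478610923 .nil))) .done (.node 3 6 (.cons 0x2365478901 .nil) (.node 6 9 .nil (.node 0 7 (.cons 0x8709654321 (.cons 0x5469870123 .nil)) (.leaf 0x5698701234 2 .done) .done) .done) .done)) .done) .done)) .done)) (.node 0 8 (.cons 0x9806543217 .nil) (.node 5 9 (.cons 0x8956023471 .nil) (.leaf 0x4598067123 2 (.node 4 8 (.cons 0x7120659843 .nil) (.node 4 6 (.cons 0x3465987120 .nil) (.node 3 8 (.cons 0x9564387120 .nil) (.node 0 7 (.cons 0x4389560712 .nil) (.node 2 8 (.cons 0x9560712834 .nil) (.node 2 7 (.cons 0x1278346590 .nil)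 (.node 3 7 (.cons 0x7348956021 .nil) .done .done) .done) .done) (.leaf 0x4659021783 0 .done)) .done) .done) (.node 4 6 (.cons 0x1789564320 .nil) (.node 4 8 .nil (.node 1 5 (.cons 0x9874651023 (.cons 0x9021567843 (.cons 0x7651209843 .nil))) .done .done) (.leaf 0x7895643201 2 .done)) (.leaf 0x8067123459 1 .done)))) (.node 5 8 (.cons 0x9856023471 .nil) (.node 4 8 .nil (.node 3 5 (.cons 0x4356789021 (.cons 0x9843567120 .nil)) (.leaf 0x6534890217 2 (.node 5 9 (.cons 0x8956023471 (.cons 0x3489567120 (.cons 0x7120659843 (.cons 0x3206598471 .nil)))) .done .done)) (.node 3 8 .nil (.node 1 4 (.cons 0x5678902143 (.cons 0x9021438765 .nil)) (.node 5 9 (.cons 0x8956023471 (.cons 0x4389567120 (.cons 0x2065983471 .nil))) (.leaf 0x6590214387 2 (.leaf 0x659834712 1 .done)) .done) (.node 2 8 .nil (.node 1 3 (.cons 0x2134567890 (.cons 0x9013287456 (.cons 0x7654312890 (.cons 0x7609821345 .nil)))) .done (.node 6 8 .nil (.node 2 9 (.cons 0x5602981743 (.cons 0x3298654710 (.cons 0x5471068923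 .nil))) .done .done) .done)) .done)) .done)) (.node 5 7 .nil (.node 1 9 (.cons 0x7198065432 (.cons 0x6571980234 (.cons 0x6089175432 .nil))) (.node 4 6 (.cons 0x8756432190 .nil) (.leaf 0x8901234657 1 (.leaf 0x3465719802 2 .done)) .done) (.node 0 5 .nil (.node 1 6 (.cons 0x2347890561 .nil) (.leaf 0x9874321650 1 (.leaf 0x4509876123 0 .done)) (.node 1 5 .nil (.node 3 7 (.cons 0x7345609812 (.cons 0x8906734512 .nil)) (.node 4 6 (.cons 0x9871205643 (.cons 0x9874651023 .nil)) (.leaf 0x5890647321 2 .done) .done) (.node 5 9 (.cons 0x8956023471 .nil) (.node 4 6 (.cons 0x1789564320 .nil) (.node 4 8 (.cons 0x7651209843 .nil) (.node 2 5 (.cons 0x3489520671 .nil) (.node 3 5 (.cons 0x9874653201 .nil) .done .done) .done) (.leaf 0x7895643201 2 .done)) .done) .done)) .done)) .done)) .done)) .done)) .done))) .done)))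
noncomputable def uc9_3_7 : T := (.node 4 7 (.cons 0x6547890123 .nil) tc9_3_31 (.node 4 7 (.cons 0x6547890123 .nil) tc9_3_29 (.node 5 8 (.cons 0x3458906712 .nil) tc9_3_28 (.node 4 6 (.cons 0x5643217890 .nil) tc9_3_27 .done))))
theorem sub_c9_3_7 : root 9 refs9_3 [] 0x700000008706000000006030000000030500006000504000000004010000000010300000000302400000002018006000410 0xfe7fff3fffb7ff97ffcfffedfff5ffe3fff9fead 9 1 7 (.cons 0x6543217890 .nil) uc9_3_7 = true := by decide +kernel
noncomputable def tc9_3_32 : T := (.node 1 7 (.cons 0x6543217890 (.cons 0x4569871230 (.cons 0x8712309654 .nil))) (.node 4 6 (.cons 0x5469871230 (.cons 0x8712309645 .nil)) (.node 4 7 (.cons 0x8960321745 (.cons 0x8745690321 .nil)) (.node 5 7 (.cons 0x9875463201 (.cons 0x8906457123 .nil)) (.leaf 0x8901234657 1 (.node 1 8 (.cons 0x5471896032 .nil) (.leaf 0x9654781230 0 (.leaf 0x2187546903 2 (.leaf 0x7546903218 1 .done))) .done)) .done) .done) (.node 2 4 (.cons 0x9876542103 (.cons 0x8903421765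 .nil)) (.node 3 5 (.cons 0x9876354201 .nil) (.node 0 8 (.cons 0x9087653421 (.cons 0x4217809653 (.cons 0x4235690871 .nil))) .done (.leaf 0x9876534210 2 .done)) (.node 4 6 (.cons 0x5643217890 .nil) (.node 5 8 (.cons 0x9017856324 (.cons 0x4217856903 (.cons 0x4230965871 .nil))) (.leaf 0x2178569034 0 (.node 4 9 (.cons 0x1785632490 (.cons 0x5894671203 (.cons 0x7123064985 (.cons 0x2490365871 (.cons 0x5649871032 .nil))))) .done .done)) .done) .done)) .done)) (.node 2 9 (.cons 0x8765430921 .nil) (.node 5 9 .nil (.node 1 8 (.cons 0x9034567812 (.cons 0x4596781203 (.cons 0x4309567812 .nil))) (.leaf 0x4309218765 0 (.leaf 0x2034596781 1 .done)) (.node 1 9 (.cons 0x8765430912 .nil) (.node 0 5 .nil (.node 1 6 (.cons 0x9876120543 (.cons 0x7890561234 .nil)) (.node 1 7 (.cons 0x8920543671 (.cons 0x8716345902 (.cons 0x6509871234 .nil))) .done (.leaf 0x4509876123 0 .done)) (.node 0 7 .nil (.node 1 3 (.cons 0x2134567890 (.cons 0x8921345670 (.cons 0x8907654312 .nil))) (.node 1 8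 (.cons 0x9034567812 (.cons 0x5436702981 .nil)) (.leaf 0x7096543218 1 .done) .done) (.node 1 7 (.cons 0x6543217890 .nil) (.node 4 9 (.cons 0x2365498710 .nil) (.leaf 0x1789456320 0 .done) (.node 0 8 (.cons 0x4569087123 .nil) (.node 0 4 .nil (.node 1 6 (.cons 0x8716345902 (.cons 0x3407895612 (.cons 0x7890432165 .nil))) .done .done) .done) .done)) .done)) .done)) (.node 1 8 (.cons 0x9034567812 .nil) (.node 0 5 (.cons 0x7634502981 .nil) (.node 1 6 (.cons 0x7618920543 .nil) (.node 1 7 (.cons 0x5436718920 .nil) (.node 5 8 (.cons 0x3458906712 .nil) (.leaf 0x9067123458 1 .done) .done) .done) .done) (.leaf 0x4309218765 0 (.node 3 9 .nil (.node 2 4 (.cons 0x7812456903 (.cons 0x3987654210 (.cons 0x7810936542 .nil))) .done (.node 7 9 (.cons 0x6543097812 .nil) (.node 4 9 .nil (.node 1 3 (.cons 0x2134567890 (.cons 0x5498763102 .nil)) (.node 2 5 (.cons 0x8765219034 (.cons 0x8765219430 .nil)) (.leaf 0x254987631 2 (.leaf 0x4987631025 1 .done)) .done) .done) .done) .done)) .done)))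 .done)) (.node 0 5 .nil (.node 1 6 (.cons 0x9876120543 (.cons 0x7890561234 .nil)) (.node 4 6 (.cons 0x7895461023 .nil) (.node 4 7 (.cons 0x2365478901 (.cons 0x5478901632 .nil)) (.leaf 0x2347890561 1 (.leaf 0x9874321650 1 .done)) .done) (.leaf 0x4509876123 0 .done)) (.node 0 4 .nil (.node 1 7 (.cons 0x6543217890 (.cons 0x3217896540 .nil)) (.node 1 5 (.cons 0x2098763451 (.cons 0x7896320451 .nil)) (.node 6 8 (.cons 0x7689021543 (.cons 0x3204596871 (.cons 0x2340956871 .nil))) .done .done) (.node 5 8 (.cons 0x3458906712 (.cons 0x3671045892 .nil)) (.leaf 0x9067123458 1 .done) (.leaf 0x3654017892 1 .done))) (.node 0 7 .nil (.node 0 8 (.cons 0x3456708921 .nil) (.node 1 8 (.cons 0x9034567812 (.cons 0x5436702981 .nil)) (.leaf 0x4309218765 0 (.leaf 0x7096543218 1 .done)) .done) (.node 0 8 .nil (.node 1 7 (.cons 0x6543217890 (.cons 0x3456712980 (.cons 0x4569087123 .nil))) (.node 4 6 (.cons 0x8712309645 (.cons 0x7108923645 (.cons 0x5469087123 .nil))) .done .done) .done)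 .done)) .done)) .done)) .done))) (.node 2 8 (.cons 0x9034567821 .nil) (.node 3 9 (.cons 0x9301287654 .nil) (.node 1 9 (.cons 0x9128765430 .nil) (.node 2 6 (.cons 0x8762190345 .nil) (.node 7 9 (.cons 0x8210397654 .nil) (.node 4 9 (.cons 0x6549782301 .nil) (.node 5 9 (.cons 0x6782195430 .nil) .done .done) .done) .done) (.node 0 7 (.cons 0x1289345670 .nil) (.leaf 0x1287034569 0 (.node 7 9 (.cons 0x4563019782 .nil) (.node 0 4 (.cons 0x7821965403 .nil) (.node 0 5 (.cons 0x3450679821 .nil) .done .done) .done) .done)) .done)) (.node 7 9 .nil (.node 1 5 (.cons 0x4512876930 (.cons 0x8976021543 (.cons 0x8215439760 (.cons 0x1543679820 (.cons 0x7982063451 .nil))))) .done (.node 1 9 (.cons 0x9128765430 .nil) (.node 3 8 (.cons 0x4567910382 .nil) (.node 6 8 (.cons 0x5430286791 .nil) .done .done) (.node 0 7 (.cons 0x4569128703 .nil) (.leaf 0x1287034569 0 .done) .done)) .done)) .done)) (.node 2 7 (.cons 0x4563278901 .nil) (.node 0 4 (.cons 0x9872365401 .nil) (.node 3 9 (.cons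 0x2789365401 .nil) (.node 3 5 .nil (.node 1 4 (.cons 0x9872365410 (.cons 0x9876354102 (.cons 0x8765341290 (.cons 0x8769035412 .nil)))) (.leaf 0x5309678214 0 .done) (.node 1 9 (.cons 0x4563278910 .nil) (.node 2 6 (.cons 0x7891045362 .nil) (.leaf 0x1045362789 0 .done) (.node 0 5 (.cons 0x6345027891 .nil) (.node 0 8 (.cons 0x1276543980 .nil) (.leaf 0x1278034569 0 .done) .done) .done)) .done)) (.node 0 5 (.cons 0x8934506721 .nil) (.node 0 8 (.cons 0x5439806721 .nil) (.node 0 7 .nil (.node 1 5 (.cons 0x8934512760 (.cons 0x2987043651 (.cons 0x6398270451 (.cons 0x8934512706 .nil)))) (.leaf 0x4078921563 0 .done) .done) .done) .done) .done)) (.node 0 5 .nil (.node 1 3 (.cons 0x1327896540 (.cons 0x4312987650 (.cons 0x8927650431 (.cons 0x6789054312 (.cons 0x4056987231 .nil))))) .done (.node 4 7 (.cons 0x2365478901 .nil) (.node 1 7 (.cons 0x6543217890 .nil) (.node 4 6 (.cons 0x8712309645 .nil) (.node 0 7 (.cons 0x3465078921 .nil) (.node 3 7 (.cons 0x1298734650 .nil) .done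 .done) .done) (.node 2 4 (.cons 0x2436509871 .nil) (.leaf 0x5098712436 0 .done) .done)) (.node 3 7 .nil (.node 1 4 (.cons 0x9872365410 (.cons 0x4105637892 (.cons 0x8732145690 (.cons 0x3765412890 (.cons 0x8730965412 .nil))))) .done (.node 0 7 .nil (.node 1 3 (.cons 0x1327896540 (.cons 0x6507892134 (.cons 0x8965407231 .nil))) (.leaf 0x7098213456 0 .done) .done) .done)) .done)) .done)) .done)) (.node 2 6 .nil (.node 1 9 (.cons 0x8765430912 (.cons 0x8762190345 .nil)) (.node 4 7 (.cons 0x2365478901 (.cons 0x3265478901 .nil)) (.node 0 7 (.cons 0x1982365470 (.cons 0x8910745623 .nil)) (.leaf 0x6328910745 1 .done) (.node 3 5 (.cons 0x3547609821 (.cons 0x8901267453 .nil)) (.node 0 7 (.cons 0x8960745321 (.cons 0x8910745326 .nil)) (.leaf 0x3628910745 1 .done) .done) .done)) (.node 4 7 (.cons 0x2365478901 (.cons 0x5478910263 (.cons 0x5478263091 (.cons 0x3265478901 .nil)))) .done .done)) (.node 4 6 .nil (.node 1 7 (.cons 0x6543217890 (.cons 0x9871023645 (.cons 0x8712309645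 (.cons 0x5643217890 .nil)))) .done (.node 1 6 .nil (.node 4 7 (.cons 0x2365478901 (.cons 0x5478901632 (.cons 0x9032874561 .nil))) (.node 0 5 (.cons 0x4789236501 (.cons 0x3478921650 (.cons 0x3205478961 .nil))) .done .done) (.node 6 8 .nil (.node 7 9 (.cons 0x5468790123 .nil) (.node 1 4 (.cons 0x7890145632 (.cons 0x8796541230 (.cons 0x8214567903 (.cons 0x7869032145 (.cons 0x2879036541 .nil))))) .done (.leaf 0x5687901234 0 .done)) .done) .done)) .done)) .done)) .done)) .done)) .done)) (.node 2 4 (.cons 0x5678903421 .nil) (.node 3 9 (.cons 0x3987654210 .nil) (.node 4 6 .nil (.node 5 9 (.cons 0x3678954201 (.cons 0x7895642103 (.cons 0x7895642301 .nil))) .done (.node 2 9 .nil (.node 1 7 (.cons 0x6543217890 (.cons 0x4563298710 (.cons 0x8710923654 (.cons 0x8710923645 .nil)))) (.node 1 8 (.cons 0x7639810245 (.cons 0x7810923645 (.cons 0x7812903465 .nil))) (.leaf 0x6781290345 1 .done) .done) (.node 2 6 .nil (.node 4 7 (.cons 0x2365478901 (.cons 0x3265478901 .nil)) (.node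 5 9 (.cons 0x3678954201 (.cons 0x5987426301 .nil)) (.node 1 3 (.cons 0x2134567890 (.cons 0x1345987620 (.cons 0x8762095431 (.cons 0x5431267890 .nil)))) .done .done) .done) .done) .done)) .done)) (.node 3 8 .nil (.node 4 6 (.cons 0x5467839012 .nil) (.node 5 9 (.cons 0x3678954201 (.cons 0x7638954201 (.cons 0x7895642103 (.cons 0x7895642301 .nil)))) .done .done) (.node 3 7 (.cons 0x8937601245 .nil) (.node 1 3 (.cons 0x2134567890 .nil) (.node 3 5 (.cons 0x6789354210 .nil) .done .done) .done) .done)) .done)) (.node 3 8 (.cons 0x9012456783 .nil) (.node 3 9 (.cons 0x9387654210 .nil) (.node 1 3 (.cons 0x2134567890 .nil) (.node 3 5 (.cons 0x8769021354 .nil) .done (.node 2 9 (.cons 0x8763109245 .nil) (.node 1 9 (.cons 0x7602198345 .nil) (.node 7 9 (.cons 0x8397654210 .nil) (.node 1 8 (.cons 0x9034218765 .nil) (.node 6 8 (.cons 0x5423687901 .nil) .done .done) (.leaf 0x1978365420 2 .done)) .done) .done) .done)) (.node 1 3 (.cons 0x2134567890 .nil) (.node 3 7 .nil (.node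 1 5 (.cons 0x2098763451 (.cons 0x8902154376 (.cons 0x8736902451 .nil))) (.node 0 4 (.cons 0x7896320451 (.cons 0x4037896512 (.cons 0x6987320451 .nil))) .done .done) .done) (.node 6 8 (.cons 0x7689021345 .nil) (.node 2 8 (.cons 0x7654312890 .nil) (.node 0 7 (.cons 0x8907654312 .nil) (.leaf 0x6543128907 1 (.node 1 9 (.cons 0x9138245670 .nil) (.node 7 9 (.cons 0x5438976021 .nil) .done (.leaf 0x5428319076 0 .done)) .done)) .done) .done) .done)) .done)) (.node 3 9 (.cons 0x8765421093 .nil) (.node 2 9 .nil (.node 1 3 (.cons 0x5421387690 (.cons 0x8765431290 .nil)) (.leaf 0x2456783109 1 .done) (.node 2 6 .nil (.node 5 9 (.cons 0x8765903421 (.cons 0x7836245901 (.cons 0x3876245901 .nil))) .done (.node 4 6 .nil (.node 1 5 (.cons 0x2098763451 (.cons 0x9876430215 (.cons 0x7832154690 (.cons 0x7890346512 .nil)))) (.node 0 7 (.cons 0x9834512670 (.cons 0x5469078321 (.cons 0x9832645107 .nil))) .done .done) .done) .done)) .done)) .done) .done)) (.node 3 8 (.cons 0x7654210983 .nil)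 (.node 6 8 .nil (.node 3 7 (.cons 0x9837654210 (.cons 0x9012378654 (.cons 0x5421098673 .nil))) .done (.node 3 7 (.cons 0x9837654210 .nil) (.node 0 7 .nil (.node 1 3 (.cons 0x2134567890 (.cons 0x8907654312 (.cons 0x5421389670 .nil))) .done (.node 0 8 (.cons 0x4569087321 .nil) (.node 2 9 (.cons 0x3892456701 .nil) (.node 7 9 (.cons 0x3897654210 .nil) (.node 4 7 (.cons 0x2365478901 .nil) (.leaf 0x2106547983 0 .done) .done) .done) .done) .done)) (.node 2 8 (.cons 0x5437609821 .nil) (.node 1 3 (.cons 0x2134567890 .nil) (.node 3 5 (.cons 0x4537609821 .nil) (.node 3 9 (.cons 0x4567821390 .nil) .done .done) (.node 3 9 .nil (.node 0 4 (.cons 0x7654098213 (.cons 0x3904567821 .nil)) (.leaf 0x9312876540 2 (.node 0 7 (.cons 0x8907654312 (.cons 0x8213907654 .nil)) .done .done)) .done) .done)) .done) .done)) .done)) (.node 3 7 (.cons 0x8901245673 .nil) (.leaf 0x1245673890 0 (.node 0 7 .nil (.node 1 3 (.cons 0x2134567890 (.cons 0x5421389670 (.cons 0x8907654312 .nil))) .done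 (.node 0 8 (.cons 0x4569087321 .nil) (.node 2 9 (.cons 0x6543780921 .nil) (.node 0 5 (.cons 0x8376905421 .nil) (.node 0 4 .nil (.node 1 5 (.cons 0x2098763451 (.cons 0x7896320451 (.cons 0x8376904512 (.cons 0x8734092156 .nil)))) .done .done) .done) .done) .done) .done)) .done)) .done)) .done))) .done)))
noncomputable def tc9_3_33 : T := (.node 1 6 (.cons 0x5439876120 (.cons 0x8761209345 .nil)) (.node 4 7 (.cons 0x2365478901 (.cons 0x6547893210 (.cons 0x5478901632 .nil))) (.node 3 7 (.cons 0x8902167345 .nil) (.leaf 0x4378902165 2 (.node 5 8 (.cons 0x1234785690 (.cons 0x4785693210 (.cons 0x7345890612 (.cons 0x5874320961 (.cons 0x7321609854 .nil))))) .done (.leaf 0x8902165437 1 .done))) (.node 3 5 (.cons 0x5320169874 .nil) (.node 1 5 (.cons 0x6789345120 (.cons 0x8743516902 .nil)) (.node 6 8 (.cons 0x7689345120 (.cons 0x9023547861 .nil)) .done .done) (.node 3 8 (.cons 0x9835476102 .nil) (.leaf 0x5389021674 2 (.leaf 0x9021674538 1 .done)) .done)) .done)) .done) (.node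 2 9 .nil (.node 1 7 (.cons 0x6543217890 (.cons 0x4563298710 (.cons 0x8710923654 .nil))) (.node 4 7 (.cons 0x2365478901 (.cons 0x8923601745 (.cons 0x8745632901 .nil))) (.node 1 3 (.cons 0x2134567890 (.cons 0x6547892310 (.cons 0x8765431290 .nil))) (.node 4 6 (.cons 0x5647890132 (.cons 0x5647892310 (.cons 0x8710923645 .nil))) .done .done) .done) (.node 1 3 (.cons 0x2134567890 (.cons 0x8765431290 .nil)) (.node 4 7 (.cons 0x2365478901 (.cons 0x8745632901 (.cons 0x6547892310 .nil))) (.node 0 3 (.cons 0x8765430921 .nil) (.node 1 5 (.cons 0x2098763451 (.cons 0x8920154763 (.cons 0x2156987430 .nil))) (.leaf 0x3478965120 0 .done) (.leaf 0x9874563012 0 .done)) (.node 5 8 (.cons 0x9854312067 (.cons 0x7458923601 (.cons 0x7602985431 (.cons 0x3129854760 .nil)))) (.leaf 0x632985471 1 .done) .done)) (.node 2 4 (.cons 0x5429876310 (.cons 0x8763109245 .nil)) (.node 2 5 (.cons 0x4529876310 (.cons 0x8763109254 .nil)) (.node 1 4 (.cons 0x2541367890 (.cons 0x7892365410 (.cons 0x8763145290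 .nil))) (.node 0 4 (.cons 0x2540987631 (.cons 0x8714092563 .nil)) (.leaf 0x7892540136 0 .done) .done) .done) .done) .done)) .done)) (.node 2 7 (.cons 0x4563278901 .nil) (.node 1 9 (.cons 0x4563278910 .nil) (.node 2 8 .nil (.node 0 4 (.cons 0x9872365401 (.cons 0x8276391045 (.cons 0x7289365401 (.cons 0x3982765401 .nil)))) .done (.node 7 9 .nil (.node 1 8 (.cons 0x7981234560 (.cons 0x5436027981 .nil)) (.node 4 7 (.cons 0x1874563290 (.cons 0x9810632745 (.cons 0x6547239810 .nil))) .done .done) (.node 5 9 .nil (.node 1 8 (.cons 0x1897234560 (.cons 0x7602189543 (.cons 0x7206345981 .nil))) .done (.node 4 9 .nil (.node 1 5 (.cons 0x2098763451 (.cons 0x3678945102 (.cons 0x7823651094 (.cons 0x8945102763 .nil)))) .done .done) .done)) .done)) .done)) (.node 0 3 (.cons 0x4563019872 .nil) (.node 2 8 (.cons 0x9034567821 .nil) (.node 1 8 (.cons 0x9034567812 .nil) (.leaf 0x5678129034 0 (.node 3 5 (.cons 0x6781290354 .nil) (.node 3 8 (.cons 0x7219834560 .nil) .done .done) .done))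 .done) (.node 2 4 (.cons 0x3654278910 .nil) (.leaf 0x1987245630 2 (.leaf 0x9103654278 1 .done)) .done)) .done)) (.node 2 6 .nil (.node 4 7 (.cons 0x2365478901 (.cons 0x3265478901 .nil)) (.node 0 7 (.cons 0x8932107456 (.cons 0x8932654701 .nil)) (.node 0 8 (.cons 0x8093456721 (.cons 0x7456210893 (.cons 0x7456239801 .nil))) .done .done) (.node 3 5 (.cons 0x8935476210 .nil) (.node 2 8 (.cons 0x6745398210 (.cons 0x5347609821 .nil)) .done (.node 5 8 (.cons 0x4358769021 (.cons 0x3985476210 (.cons 0x8547263901 (.cons 0x4785326901 .nil)))) (.node 6 8 (.cons 0x8674539012 .nil) (.node 0 3 (.cons 0x5476893012 .nil) (.node 1 5 (.cons 0x7689345120 (.cons 0x4762158930 (.cons 0x4762158903 (.cons 0x8743512690 .nil)))) .done .done) .done) .done) .done)) .done)) (.node 1 6 .nil (.node 0 8 (.cons 0x8093456721 (.cons 0x9087216543 (.cons 0x9087234561 .nil))) (.node 5 9 (.cons 0x8720954361 (.cons 0x4327809561 .nil)) (.node 1 8 (.cons 0x4395672180 (.cons 0x8127609543 (.cons 0x6345902781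 .nil))) .done .done) .done) (.node 4 6 .nil (.node 1 7 (.cons 0x6543217890 (.cons 0x9871023645 (.cons 0x5643217890 .nil))) (.node 5 7 (.cons 0x9875463201 (.cons 0x8932645710 (.cons 0x8906457123 .nil))) (.leaf 0x8901234657 1 .done) .done) .done) .done)) .done)) (.node 2 8 .nil (.node 3 7 (.cons 0x4567398210 (.cons 0x8210937654 (.cons 0x5437609821 .nil))) (.node 1 5 (.cons 0x2098763451 (.cons 0x7639820154 (.cons 0x9028763451 (.cons 0x8902154376 (.cons 0x8906512734 .nil))))) .done .done) (.node 0 7 (.cons 0x1289345670 .nil) (.node 6 8 (.cons 0x9078654321 .nil) (.node 1 9 (.cons 0x8219345670 .nil) (.node 1 7 (.cons 0x6543217890 .nil) (.node 4 9 (.cons 0x2365498710 .nil) (.node 0 4 (.cons 0x5698712340 .nil) (.node 1 5 (.cons 0x1567289340 .nil) (.leaf 0x9328670451 2 (.leaf 0x6394517028 2 (.leaf 0x3682071549 1 .done))) .done) (.leaf 0x1789456320 0 .done)) .done) (.leaf 0x786543219 1 .done)) .done) (.node 1 6 (.cons 0x5439820761 .nil) (.node 1 5 (.cons 0x2098763451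 .nil) (.node 1 7 (.cons 0x6543217890 .nil) (.node 1 9 (.cons 0x9154367820 .nil) (.leaf 0x4328917065 2 .done) .done) (.node 7 9 (.cons 0x1543679820 .nil) (.leaf 0x6798201543 2 .done) (.leaf 0x789615432 0 .done))) (.node 1 9 (.cons 0x9165432870 .nil) (.leaf 0x4328709165 1 (.node 1 7 (.cons 0x6543217890 .nil) (.node 4 9 (.cons 0x2365498710 .nil) (.leaf 0x1078239456 1 (.leaf 0x1789456320 0 .done)) (.leaf 0x4328917065 2 .done)) .done)) .done)) .done)) .done)) .done))) .done)) (.node 3 8 .nil (.node 2 4 (.cons 0x9012456783 (.cons 0x7654210983 .nil)) (.node 0 3 (.cons 0x5678903421 .nil) (.node 3 5 (.cons 0x6789354210 .nil) (.leaf 0x9876534210 2 .done) .done) (.node 1 9 (.cons 0x5420198763 (.cons 0x7638910245 .nil)) (.node 1 5 (.cons 0x2098763451 (.cons 0x9834512067 (.cons 0x5120967834 .nil))) (.node 0 7 (.cons 0x8936701542 (.cons 0x5691243870 (.cons 0x9834215670 (.cons 0x7015698324 .nil)))) .done .done) .done) .done)) (.node 1 9 (.cons 0x7602198345 .nil) (.node 2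 9 .nil (.node 1 3 (.cons 0x2134567890 (.cons 0x8765431290 .nil)) (.node 1 7 (.cons 0x6543217890 (.cons 0x4563298710 (.cons 0x8710923654 (.cons 0x5438921760 .nil)))) .done .done) (.node 7 9 (.cons 0x5438976021 .nil) (.node 0 7 (.cons 0x2198345670 .nil) (.node 6 8 (.cons 0x9078654321 .nil) (.leaf 0x2190786543 2 .done) (.node 0 3 .nil (.node 2 4 (.cons 0x7983245601 (.cons 0x9876542103 (.cons 0x8301976542 (.cons 0x2456798301 .nil)))) .done (.node 4 9 (.cons 0x1294567830 .nil) (.leaf 0x3876549210 1 .done) .done)) .done)) .done) .done)) (.node 7 9 (.cons 0x5438976021 .nil) (.node 0 7 (.cons 0x7065438912 .nil) (.node 6 8 (.cons 0x9078654321 .nil) (.leaf 0x786543219 1 .done) (.node 3 7 .nil (.node 2 4 (.cons 0x7983245601 (.cons 0x2456378910 (.cons 0x8379106542 (.cons 0x9837654210 .nil)))) .done (.node 0 3 .nil (.node 2 7 (.cons 0x7219834560 (.cons 0x4563019872 (.cons 0x7219830654 .nil))) .done .done) .done)) .done)) (.node 6 8 .nil (.node 1 5 (.cons 0x2098763451 (.cons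 0x7863451902 (.cons 0x7689021543 .nil))) (.leaf 0x2067983451 0 .done) (.node 1 5 (.cons 0x2098763451 .nil) (.leaf 0x2067983451 0 (.node 2 8 (.cons 0x4512839760 .nil) (.leaf 0x9345128760 1 .done) (.node 3 5 (.cons 0x4538976021 .nil) (.node 0 3 (.cons 0x6798302154 .nil) (.node 1 3 (.cons 0x2134567890 .nil) .done .done) .done) .done))) .done)) .done)) .done)) (.node 0 3 .nil (.node 1 6 (.cons 0x9876120345 .nil) (.node 4 6 (.cons 0x5467893012 .nil) (.node 4 7 (.cons 0x2365478901 (.cons 0x5478901632 .nil)) (.leaf 0x5478903216 2 (.node 0 4 (.cons 0x7890432165 .nil) (.node 2 5 (.cons 0x8764521093 (.cons 0x4789652301 (.cons 0x8761254390 (.cons 0x5209834761 (.cons 0x7839046125 .nil))))) .done .done) .done)) .done) (.node 4 6 (.cons 0x5467893012 .nil) (.node 5 7 (.cons 0x6457893210 (.cons 0x9012387564 (.cons 0x8754610932 (.cons 0x8754612390 .nil)))) (.leaf 0x8901234657 1 .done) .done) .done)) (.node 3 7 .nil (.node 1 8 (.cons 0x9034567812 (.cons 0x9812067345 (.cons 0x5437609812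 (.cons 0x7345609812 .nil)))) .done (.node 1 3 (.cons 0x2134567890 .nil) (.node 3 5 .nil (.node 2 4 (.cons 0x8937601245 (.cons 0x6789354210 (.cons 0x7653890124 .nil))) (.node 4 8 (.cons 0x5489376012 (.cons 0x5396784210 (.cons 0x9845376012 (.cons 0x9653784210 (.cons 0x7842356901 .nil))))) .done .done) .done) .done) .done)) .done)) .done))) .done)))
noncomputable def tc9_3_34 : T := (.leaf 0x7890215436 1 (.node 1 6 .nil (.node 5 7 (.cons 0x8902167543 .nil) (.node 1 3 (.cons 0x8902134576 (.cons 0x8906754312 .nil)) (.node 1 4 (.cons 0x8902143675 (.cons 0x2143657890 .nil)) (.node 1 7 (.cons 0x8906571234 .nil) .done .done) .done) (.leaf 0x1209875436 1 (.node 2 4 (.cons 0x4236578901 .nil) (.leaf 0x3615789024 1 (.node 4 6 (.cons 0x9875461023 .nil) (.leaf 0x3209875164 0 .done) (.leaf 0x1098754236 0 .done))) (.leaf 0x2160987543 1 .done)))) (.node 6 9 (.cons 0x8769021543 .nil) (.node 6 8 (.cons 0x7869023451 .nil) (.node 3 9 (.cons 0x5439876120 .nil) (.node 1 3 (.cons 0x2134567890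 .nil) (.node 1 7 (.cons 0x6543217890 .nil) (.node 0 7 (.cons 0x5432078961 .nil) (.node 1 9 (.cons 0x4568709123 .nil) (.leaf 0x786543219 1 .done) (.leaf 0x2345169870 0 .done)) .done) .done) (.node 2 6 (.cons 0x8762154390 .nil) (.node 4 6 (.cons 0x7864512390 .nil) .done .done) .done)) .done) (.node 1 3 (.cons 0x2134567890 .nil) (.node 6 8 (.cons 0x7689021345 .nil) (.node 4 6 .nil (.node 3 9 (.cons 0x5439876120 (.cons 0x7864510932 (.cons 0x7893201645 .nil))) .done (.node 2 6 .nil (.node 3 9 (.cons 0x5439876120 (.cons 0x8762154390 (.cons 0x8762093451 .nil))) .done .done) .done)) .done) (.node 1 7 (.cons 0x6543217890 .nil) (.node 2 6 (.cons 0x5431267890 .nil) (.node 4 6 (.cons 0x5643217890 .nil) (.node 6 8 (.cons 0x9023468715 .nil) .done .done) .done) .done) .done)) .done)) .done)) (.node 1 3 (.cons 0x2134567890 .nil) (.node 1 6 .nil (.node 5 7 (.cons 0x8902157634 .nil) (.leaf 0x1209875436 1 (.node 3 7 (.cons 0x8902154376 (.cons 0x4561098732 .nil)) (.node 3 8 (.cons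 0x7615438902 .nil) (.node 4 7 (.cons 0x6547890123 (.cons 0x9832106547 .nil)) (.leaf 0x983674512 0 .done) .done) .done) (.node 2 4 (.cons 0x4236578901 .nil) (.node 3 8 (.cons 0x9836751024 (.cons 0x7615438902 .nil)) (.leaf 0x4389021675 2 .done) (.leaf 0x6342098751 1 (.leaf 0x1098754236 0 .done))) (.leaf 0x2160987543 1 .done)))) (.node 3 8 (.cons 0x9021678345 .nil) (.node 3 7 (.cons 0x8902154376 .nil) (.node 6 9 (.cons 0x8732109654 .nil) (.node 3 9 (.cons 0x8761209345 .nil) (.node 4 6 .nil (.node 3 5 (.cons 0x9876453102 .nil) (.leaf 0x7890213546 1 .done) (.node 2 6 (.cons 0x7621543890 .nil) (.node 6 8 (.cons 0x7689021543 .nil) .done .done) .done)) .done) (.node 2 6 (.cons 0x7621543890 .nil) (.node 6 8 (.cons 0x7689021543 .nil) (.node 4 6 .nil (.node 3 5 (.cons 0x9876453102 .nil) (.leaf 0x7890213546 1 .done) .done) .done) .done) .done)) (.node 3 9 (.cons 0x8761209345 .nil) (.node 3 5 .nil (.node 2 4 (.cons 0x6542378901 (.cons 0x9835421067 (.cons 0x9012453876 .nil)))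 (.leaf 0x5423789016 2 .done) (.node 0 3 .nil (.node 2 5 (.cons 0x7609834521 (.cons 0x9038761254 .nil)) (.node 2 4 (.cons 0x6542378901 .nil) (.node 4 7 (.cons 0x6547890123 (.cons 0x8930125476 .nil)) (.leaf 0x2109874563 1 .done) (.leaf 0x5423789016 2 .done)) .done) .done) .done)) .done) .done)) (.node 2 6 (.cons 0x7620983451 .nil) (.node 6 8 (.cons 0x7689021543 .nil) (.node 2 8 (.cons 0x9028345167 .nil) (.node 0 3 (.cons 0x7651289034 .nil) (.node 3 5 .nil (.node 4 6 (.cons 0x9876453102 .nil) (.leaf 0x7890213546 1 .done) .done) .done) .done) .done) (.node 6 8 (.cons 0x7689021543 .nil) (.node 2 8 (.cons 0x9028345167 .nil) (.node 0 3 (.cons 0x7651289034 .nil) (.node 3 5 .nil (.node 0 4 (.cons 0x7651289043 (.cons 0x9043561287 (.cons 0x9876204531 .nil))) .done .done) .done) .done) .done) .done)) .done)) .done)) (.node 6 9 (.cons 0x8769021345 .nil) (.node 0 3 .nil (.node 2 8 (.cons 0x7823109654 (.cons 0x7698203451 (.cons 0x7651289034 (.cons 0x9031287654 .nil)))) .done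 (.node 1 6 .nil (.node 5 7 (.cons 0x8902157634 (.cons 0x1698754320 (.cons 0x8754320961 .nil))) (.node 2 4 (.cons 0x4236578901 .nil) (.node 3 7 (.cons 0x8902154376 (.cons 0x5423789610 .nil)) (.leaf 0x4378902165 2 .done) (.leaf 0x6342098751 1 (.leaf 0x1098754236 0 .done))) (.leaf 0x2160987543 1 .done)) (.node 3 5 (.cons 0x7896102354 .nil) (.node 3 7 (.cons 0x8902154376 .nil) (.node 3 8 .nil (.node 2 4 (.cons 0x5423789610 (.cons 0x9678310245 (.cons 0x9678354201 (.cons 0x7698354201 .nil)))) .done .done) .done) .done) .done)) .done)) (.node 0 3 .nil (.node 4 8 (.cons 0x5487690213 (.cons 0x7698451203 (.cons 0x5487690312 (.cons 0x7845690312 .nil)))) (.node 1 6 (.cons 0x9876120345 .nil) (.node 3 7 (.cons 0x2037698451 (.cons 0x4561098732 .nil)) (.leaf 0x6984512037 1 .done) .done) .done) (.node 3 5 (.cons 0x8769021354 .nil) (.node 3 7 (.cons 0x8902154376 .nil) (.node 3 8 .nil (.node 4 7 (.cons 0x6547890123 (.cons 0x3896745120 (.cons 0x1238745690 (.cons 0x8315476902 .nil))))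 .done .done) .done) .done) .done)) .done)) (.node 3 8 .nil (.node 4 7 (.cons 0x6547890123 (.cons 0x9832106547 (.cons 0x9012387456 .nil))) (.node 2 4 (.cons 0x9012456783 (.cons 0x7654210983 .nil)) (.node 0 3 (.cons 0x9876542103 .nil) (.leaf 0x4215678903 1 (.leaf 0x9876512430 2 .done)) (.node 3 9 (.cons 0x3987654210 .nil) (.leaf 0x6542109387 1 (.node 0 3 (.cons 0x2456789301 .nil) (.node 3 5 (.cons 0x9835476012 .nil) .done .done) .done)) .done)) (.leaf 0x983674512 0 .done)) (.node 3 7 (.cons 0x8902154376 .nil) (.node 6 9 (.cons 0x7698345120 .nil) (.node 6 8 (.cons 0x7689021543 .nil) (.node 2 8 (.cons 0x8209673451 .nil) (.node 4 8 (.cons 0x2378456901 .nil) (.leaf 0x7321096548 1 (.leaf 0x5690123784 2 (.node 0 8 (.cons 0x9082156734 .nil) (.node 1 8 (.cons 0x8154376902 .nil) .done .done) .done))) .done) .done) (.node 0 3 (.cons 0x7698302154 .nil) (.node 3 5 .nil (.node 1 4 (.cons 0x8732145690 (.cons 0x9678354120 (.cons 0x8735412096 .nil))) (.leaf 0x7890214536 1 .done)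 .done) .done) .done)) (.node 3 9 .nil (.node 1 6 (.cons 0x4561098732 (.cons 0x5439876120 (.cons 0x8761209345 .nil))) .done (.node 7 9 (.cons 0x6798345120 .nil) (.leaf 0x4389760215 0 (.node 0 7 (.cons 0x9834512076 .nil) (.node 0 3 .nil (.node 1 6 (.cons 0x4561098732 (.cons 0x9876120345 .nil)) (.node 4 6 (.cons 0x9837645102 (.cons 0x8976430215 .nil)) (.leaf 0x389764512 0 .done) .done) .done) .done) (.node 0 3 (.cons 0x6798302154 .nil) (.node 3 5 (.cons 0x4538976021 .nil) .done .done) .done))) .done)) .done)) (.node 3 9 .nil (.node 1 6 (.cons 0x7615438902 (.cons 0x5439876120 (.cons 0x8761209345 .nil))) .done (.node 3 7 (.cons 0x8902154376 .nil) (.node 6 8 (.cons 0x9867345120 .nil) (.node 0 7 (.cons 0x5439867021 .nil) (.leaf 0x2154398670 2 (.node 1 6 (.cons 0x7615438902 .nil) (.node 1 7 (.cons 0x5439867120 .nil) .done .done) (.leaf 0x6893451207 1 .done))) (.node 0 3 (.cons 0x9867302154 .nil) (.node 3 5 .nil (.node 1 4 (.cons 0x9032145687 (.cons 0x7689354120 (.cons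 0x9860214537 .nil))) (.node 2 9 (.cons 0x8765430921 (.cons 0x8765341290 .nil)) (.leaf 0x4567832901 1 .done) .done) .done) .done) .done)) (.node 0 3 .nil (.node 1 6 (.cons 0x7615438902 (.cons 0x9876120345 .nil)) (.node 2 6 (.cons 0x5431267890 .nil) (.node 4 7 (.cons 0x9016547832 (.cons 0x9830154762 (.cons 0x9874562301 .nil))) (.leaf 0x2109874563 1 .done) (.node 4 8 (.cons 0x9026738451 (.cons 0x7654893012 (.cons 0x7621548903 (.cons 0x9037845621 .nil)))) .done .done)) .done) .done) .done)) .done)) .done))) .done))) (.node 4 7 (.cons 0x2156347890 .nil) (.leaf 0x2109874563 1 (.node 6 9 (.cons 0x8745690123 .nil) (.node 4 6 .nil (.node 1 7 (.cons 0x6543217890 (.cons 0x5469871023 (.cons 0x5643217890 .nil))) (.node 3 7 (.cons 0x5469873201 .nil) (.leaf 0x8902156437 1 (.leaf 0x4698732015 2 .done)) .done) (.node 2 4 .nil (.node 3 8 (.cons 0x2387456901 (.cons 0x9638742015 (.cons 0x5109638742 (.cons 0x9015638742 .nil)))) .done (.node 6 8 .nil (.node 3 7 (.cons 0x5469873201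 (.cons 0x9860215437 (.cons 0x5421098673 (.cons 0x7324568901 .nil)))) .done (.node 1 4 .nil (.node 5 8 (.cons 0x2096347851 (.cons 0x9632014785 (.cons 0x9014785632 .nil))) .done (.node 4 9 (.cons 0x5120947863 .nil) (.node 0 4 (.cons 0x7890436512 .nil) (.node 0 5 (.cons 0x5098763412 .nil) (.node 0 3 .nil (.node 0 7 (.cons 0x9870346512 .nil) .done .done) .done) .done) .done) .done)) .done)) .done)) .done)) (.node 0 3 (.cons 0x8745690321 .nil) (.node 0 5 .nil (.node 1 6 (.cons 0x9876120543 .nil) (.node 5 7 (.cons 0x4361578902 .nil) (.leaf 0x1209875436 1 (.leaf 0x2160987543 1 .done)) (.leaf 0x4509876123 0 .done)) (.node 0 4 (.cons 0x7890436512 .nil) (.node 0 8 (.cons 0x9087436512 .nil) (.node 5 9 (.cons 0x6590874321 .nil) (.node 0 7 .nil (.node 1 3 (.cons 0x2134567890 (.cons 0x8954312076 (.cons 0x8907654312 .nil))) (.node 1 8 (.cons 0x3218745690 (.cons 0x7043659812 .nil)) .done .done) .done) .done) .done) .done) .done)) (.node 0 4 (.cons 0x7890436512 .nil) (.node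 0 8 (.cons 0x9087436512 .nil) (.node 0 7 .nil (.node 1 8 (.cons 0x3218745690 (.cons 0x9812345607 .nil)) (.node 3 5 (.cons 0x4780965321 (.cons 0x7069812354 (.cons 0x6907812354 (.cons 0x8123547096 .nil)))) .done .done) .done) .done) .done) .done)) .done)) (.node 0 5 (.cons 0x6347890512 .nil) (.node 6 9 (.cons 0x8743690512 .nil) (.node 0 3 .nil (.node 2 6 (.cons 0x5126347890 (.cons 0x5478962301 (.cons 0x6215478903 .nil))) (.leaf 0x7451032698 1 .done) (.node 0 4 (.cons 0x7890436512 .nil) (.node 4 9 .nil (.node 1 7 (.cons 0x6543217890 (.cons 0x6549871032 (.cons 0x8712349056 .nil))) (.node 1 6 (.cons 0x8716902345 (.cons 0x7894561032 .nil)) .done .done) (.node 3 9 .nil (.node 2 8 (.cons 0x2874369051 (.cons 0x6932874501 (.cons 0x4390567821 (.cons 0x6390512874 .nil)))) .done (.node 3 8 .nil (.node 1 7 (.cons 0x6543217890 (.cons 0x7154389602 (.cons 0x4569017832 (.cons 0x8349056712 .nil)))) .done (.node 5 9 (.cons 0x8367495012 .nil) (.node 0 7 (.cons 0x6074598321 .nil)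 (.node 7 9 (.cons 0x5438976021 .nil) .done .done) .done) .done)) .done)) .done)) .done) .done)) (.node 0 3 .nil (.node 2 6 (.cons 0x5126347890 (.cons 0x8745126903 .nil)) (.node 1 6 (.cons 0x8745096123 .nil) (.node 5 9 (.cons 0x8761209543 (.cons 0x8954762103 (.cons 0x4789510362 .nil))) .done .done) .done) (.node 0 4 (.cons 0x7890436512 .nil) (.node 3 8 (.cons 0x6905478321 .nil) (.node 1 7 (.cons 0x5471238960 .nil) (.leaf 0x4712389605 2 (.node 3 7 (.cons 0x2154738960 .nil) .done (.leaf 0x2389605471 1 .done))) (.node 3 9 .nil (.node 1 6 (.cons 0x9054387612 (.cons 0x5439876120 (.cons 0x8761209345 .nil))) .done (.node 2 9 (.cons 0x6783450921 .nil) (.node 1 6 (.cons 0x9054387612 .nil) (.leaf 0x3876129054 0 (.node 1 3 (.cons 0x2134567890 .nil) (.node 1 4 (.cons 0x3876905412 .nil) (.leaf 0x921438765 0 .done) .done) .done)) .done) .done)) .done)) .done) .done)) .done)) (.node 5 8 (.cons 0x7436098512 .nil) (.node 0 3 .nil (.node 2 6 (.cons 0x5126347890 (.cons 0x6215478903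 .nil)) (.node 2 9 (.cons 0x6745892103 (.cons 0x6298743051 (.cons 0x3067458921 .nil))) (.leaf 0x8547630129 2 .done) (.leaf 0x4309876215 0 .done)) (.node 0 4 (.cons 0x7890436512 .nil) (.node 3 5 .nil (.node 2 8 (.cons 0x9034567821 (.cons 0x5347609821 (.cons 0x3547609821 .nil))) .done (.node 4 8 (.cons 0x5367489012 .nil) (.node 6 8 (.cons 0x3547689012 .nil) (.node 0 7 (.cons 0x6890745321 .nil) (.node 0 8 .nil (.node 1 6 (.cons 0x7453216890 (.cons 0x9086123547 .nil)) (.leaf 0x3216890745 1 .done) .done) .done) .done) .done) .done)) .done) .done)) (.node 5 9 .nil (.node 1 6 (.cons 0x7458906123 (.cons 0x3459876120 (.cons 0x8761209543 .nil))) .done (.node 0 3 .nil (.node 2 4 (.cons 0x7421589063 (.cons 0x9876542103 (.cons 0x8590367421 (.cons 0x5890367421 .nil)))) .done (.node 0 4 (.cons 0x7890436512 .nil) (.node 4 9 (.cons 0x6309478512 .nil) (.node 3 5 .nil (.node 1 6 (.cons 0x7458906123 (.cons 0x3549876102 (.cons 0x9047853612 .nil))) .done (.node 2 5 (.cons 0x4987635201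 .nil) (.node 5 7 (.cons 0x4758906321 .nil) .done .done) .done)) .done) .done) .done)) .done)) .done)) .done)) (.node 2 4 (.cons 0x5632478901 .nil) (.node 2 6 (.cons 0x3265478901 .nil) (.node 4 6 .nil (.node 5 9 (.cons 0x8743620951 (.cons 0x7895102463 .nil)) (.leaf 0x4632015987 1 (.node 5 7 (.cons 0x6457890123 .nil) (.leaf 0x8901234657 1 (.leaf 0x6578901234 2 (.node 4 8 (.cons 0x1236487590 (.cons 0x3648759021 .nil)) .done .done))) .done)) .done) (.node 6 9 (.cons 0x5102478963 .nil) (.node 2 7 (.cons 0x4365127890 .nil) (.node 0 7 (.cons 0x3245698701 .nil) (.node 0 3 (.cons 0x7896542301 .nil) (.leaf 0x4215698703 2 (.node 2 5 (.cons 0x6347890251 .nil) (.node 3 5 (.cons 0x4235698701 .nil) (.node 3 8 (.cons 0x4389076521 .nil) (.node 3 7 (.cons 0x2609837451 .nil) .done .done) (.leaf 0x1024789635 0 .done)) .done) .done)) .done) (.node 2 8 (.cons 0x3472890651 .nil) .done .done)) .done) .done)) (.leaf 0x987423651 2 (.leaf 0x9015632478 1 .done))) .done)))) .done))))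
noncomputable def tc9_3_35 : T := (.node 3 7 (.cons 0x4561098732 .nil) (.node 1 8 (.cons 0x9812067345 (.cons 0x5437609812 (.cons 0x7345609812 .nil))) (.node 2 4 (.cons 0x5673421890 .nil) (.node 5 7 (.cons 0x9018756324 .nil) (.leaf 0x1890657342 1 (.node 0 3 (.cons 0x5678903421 .nil) (.node 1 5 (.cons 0x9876154302 (.cons 0x7651890342 .nil)) (.leaf 0x8903421567 1 .done) .done) (.leaf 0x2160987543 1 .done))) (.leaf 0x5637890124 2 (.node 4 6 (.cons 0x9018732465 .nil) (.node 5 9 (.cons 0x3421876590 (.cons 0x8124376590 (.cons 0x7346021895 (.cons 0x9564237810 .nil)))) (.node 0 3 (.cons 0x7816590324 .nil) (.leaf 0x2465903781 2 .done) .done) .done) .done))) .done) (.leaf 0x4378902165 2 (.node 4 6 (.cons 0x5461098732 .nil) (.node 5 8 (.cons 0x9854601237 (.cons 0x7345890612 (.cons 0x7321609854 .nil))) (.node 7 9 (.cons 0x3458976021 (.cons 0x7985432061 (.cons 0x4589732160 .nil))) (.node 0 4 (.cons 0x7985604321 (.cons 0x9785612340 (.cons 0x5897340612 .nil))) (.leaf 0x6587904321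 2 .done) .done) (.node 1 7 (.cons 0x9854320617 (.cons 0x9023458716 .nil)) (.node 2 4 (.cons 0x9017856324 (.cons 0x3761098542 .nil)) (.leaf 0x1098542376 1 .done) .done) .done)) .done) (.leaf 0x8902165437 1 .done)))) (.node 0 3 (.cons 0x9876120345 .nil) (.node 1 3 (.cons 0x2134567890 .nil) (.node 0 7 (.cons 0x8907654312 .nil) (.node 4 6 .nil (.node 5 7 (.cons 0x8902134576 (.cons 0x9875461023 (.cons 0x4657890321 .nil))) (.leaf 0x6578901234 2 .done) (.node 3 9 (.cons 0x5439876120 .nil) (.node 1 5 (.cons 0x4309876512 .nil) (.node 2 8 (.cons 0x6782154390 .nil) (.leaf 0x1546782390 0 (.leaf 0x9345128760 1 (.leaf 0x6543128907 1 .done))) (.node 1 9 (.cons 0x8709123456 .nil) (.node 1 7 (.cons 0x6543217890 .nil) (.node 1 8 (.cons 0x9021876345 .nil) .done .done) .done) .done)) (.node 4 7 (.cons 0x2398745610 .nil) (.leaf 0x8932016547 0 (.node 3 5 (.cons 0x4539876102 .nil) (.node 3 7 (.cons 0x9873201645 .nil) .done .done) .done)) .done)) .done)) (.node 4 6 .nil (.node 3 9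 (.cons 0x5439876120 (.cons 0x5461078932 (.cons 0x7893201645 .nil))) .done (.node 0 8 .nil (.node 2 9 (.cons 0x1654329870 (.cons 0x7089234561 (.cons 0x7089231654 .nil))) (.node 1 5 (.cons 0x4309876512 (.cons 0x7809234651 (.cons 0x7809215634 .nil))) .done .done) (.node 0 5 (.cons 0x9876120543 .nil) (.node 0 4 .nil (.node 1 5 (.cons 0x4309876512 .nil) (.node 2 7 (.cons 0x2789034651 (.cons 0x6512789043 (.cons 0x8904567213 .nil))) (.leaf 0x3465127890 2 (.leaf 0x346512789 1 .done)) .done) .done) .done) .done)) .done)) .done)) (.node 3 9 (.cons 0x5439876120 .nil) (.node 5 9 (.cons 0x3459876120 .nil) (.leaf 0x2167895430 1 (.node 1 8 (.cons 0x2095436781 .nil) (.node 1 7 (.cons 0x6178954320 .nil) (.node 4 6 (.cons 0x7895461023 .nil) (.node 5 7 (.cons 0x8934576120 .nil) (.leaf 0x2016457893 1 (.node 0 7 (.cons 0x8932075461 .nil) (.leaf 0x2398164570 0 .done) .done)) .done) .done) (.leaf 0x3459021876 1 .done)) (.node 4 6 .nil (.node 1 7 (.cons 0x6543217890 (.cons 0x8712309564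 (.cons 0x5643217890 .nil))) .done (.node 2 9 .nil (.node 0 8 (.cons 0x4590876312 .nil) (.leaf 0x9213456780 1 (.leaf 0x7654312908 2 .done)) (.node 6 9 .nil (.node 0 7 (.cons 0x2316459870 (.cons 0x8709654321 (.cons 0x5432078961 .nil))) .done .done) .done)) .done)) .done))) (.node 4 6 (.cons 0x7893201645 .nil) (.node 3 7 (.cons 0x9873201645 .nil) (.node 3 8 .nil (.node 1 5 (.cons 0x4309876512 (.cons 0x9021543876 (.cons 0x9837645102 .nil))) (.node 2 7 (.cons 0x6154398720 (.cons 0x7215609834 (.cons 0x9837206451 .nil))) (.leaf 0x346512789 1 .done) .done) .done) .done) .done) .done)) .done)) (.node 0 5 (.cons 0x9876120543 .nil) (.node 0 4 .nil (.node 0 7 (.cons 0x9870432165 .nil) .done (.node 0 7 .nil (.node 6 9 (.cons 0x5432078961 .nil) (.leaf 0x5698701234 2 (.leaf 0x8701234569 1 (.node 2 9 (.cons 0x5430298761 (.cons 0x5612987043 .nil)) (.node 4 9 (.cons 0x7894561032 (.cons 0x8705496123 .nil)) (.leaf 0x6123498705 2 .done) .done) .done))) (.node 0 8 .nil (.node 1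 7 (.cons 0x6543217890 (.cons 0x9087123456 .nil)) (.node 5 9 (.cons 0x3459876120 (.cons 0x8095436712 (.cons 0x6345908712 (.cons 0x7160895432 (.cons 0x6321780954 .nil))))) .done .done) .done) .done)) .done)) (.node 0 4 .nil (.node 3 7 (.cons 0x9873450216 (.cons 0x9873210456 (.cons 0x9873405612 .nil))) (.node 1 3 (.cons 0x2134567890 (.cons 0x5678904312 .nil)) (.node 3 9 (.cons 0x5439876120 (.cons 0x7893405612 .nil)) .done .done) .done) (.node 4 6 .nil (.node 1 7 (.cons 0x6543217890 (.cons 0x5643217890 .nil)) (.node 0 8 (.cons 0x9087123456 (.cons 0x9087123465 .nil)) .done (.node 2 6 (.cons 0x5098712643 (.cons 0x5462309871 .nil)) .done .done)) (.node 4 7 (.cons 0x9874561032 .nil) (.node 2 9 (.cons 0x6547892301 .nil) (.leaf 0x3016547892 1 (.node 2 6 (.cons 0x9874562301 .nil) (.node 6 9 (.cons 0x7896120543 .nil) .done .done) (.leaf 0x8923016547 2 .done))) (.node 0 8 .nil (.node 5 9 (.cons 0x3459876120 (.cons 0x7612089543 (.cons 0x9547801632 (.cons 0x7459806123 .nil))))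 .done (.node 0 7 .nil (.node 5 9 (.cons 0x3459876120 (.cons 0x7089561234 (.cons 0x3207895461 .nil))) (.leaf 0x3216598704 2 .done) .done) .done)) .done)) .done)) .done)) .done)) .done)) (.node 1 8 (.cons 0x9021876345 .nil) (.node 1 7 (.cons 0x6543217890 .nil) (.node 6 9 (.cons 0x8712345690 .nil) (.node 6 8 (.cons 0x5432096871 .nil) (.node 2 8 (.cons 0x1782345690 .nil) (.node 3 8 (.cons 0x4569017832 .nil) (.node 5 9 (.cons 0x9543678120 .nil) (.leaf 0x7128345906 1 (.leaf 0x1283459067 2 (.leaf 0x6781209543 1 .done))) (.node 0 8 (.cons 0x2345690871 .nil) (.node 5 8 (.cons 0x6902345871 .nil) .done .done) .done)) .done) .done) (.node 6 8 .nil (.node 1 5 (.cons 0x6789021543 (.cons 0x7689021543 (.cons 0x9021543687 .nil))) .done (.node 1 3 (.cons 0x2134567890 .nil) (.node 1 5 (.cons 0x4517869023 .nil) (.node 1 4 (.cons 0x5417869023 .nil) (.node 1 9 (.cons 0x2345687190 .nil) .done .done) .done) (.node 2 6 (.cons 0x5431267890 .nil) (.node 4 6 .nil (.node 0 7 (.cons 0x9812345607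 (.cons 0x9870132645 .nil)) (.node 2 5 (.cons 0x4523178690 (.cons 0x9013254687 (.cons 0x8907643125 (.cons 0x3125467890 .nil)))) .done .done) .done) .done) .done)) .done)) .done)) (.node 1 3 (.cons 0x2134567890 .nil) (.node 5 8 (.cons 0x3458906712 .nil) (.node 1 5 (.cons 0x6789021543 .nil) (.node 0 5 (.cons 0x7890561234 .nil) (.node 1 4 (.cons 0x7890561432 .nil) (.node 1 9 (.cons 0x9187634502 .nil) .done .done) .done) .done) (.node 6 8 (.cons 0x7689021345 .nil) (.node 2 6 (.cons 0x2671345890 .nil) (.node 4 6 (.cons 0x9017854632 .nil) (.node 6 9 (.cons 0x4587109632 .nil) .done .done) .done) .done) (.leaf 0x9067123458 1 .done))) .done) .done)) (.node 1 7 (.cons 0x6543217890 .nil) (.node 1 3 (.cons 0x2134567890 .nil) (.node 1 9 .nil (.node 0 7 (.cons 0x8907654312 (.cons 0x8709123456 (.cons 0x8917065432 .nil))) (.node 5 8 (.cons 0x9856071234 (.cons 0x7602198543 (.cons 0x4365870912 (.cons 0x3458917602 .nil)))) (.leaf 0x9176023458 1 .done) .done) (.node 1 5 (.cons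 0x6789021543 .nil) (.node 1 4 .nil (.node 5 7 (.cons 0x4321657890 (.cons 0x2341657890 .nil)) (.node 0 3 (.cons 0x5678903412 (.cons 0x4165789032 .nil)) (.node 4 6 (.cons 0x6457891203 (.cons 0x9817546032 .nil)) .done .done) .done) .done) .done) .done)) .done) (.node 6 9 (.cons 0x8712345690 .nil) (.node 4 6 .nil (.node 5 7 (.cons 0x4321657890 (.cons 0x5789023461 (.cons 0x7546098123 .nil))) (.leaf 0x6578901234 2 .done) (.node 6 8 (.cons 0x5432096871 .nil) (.node 2 6 .nil (.node 4 8 (.cons 0x9012365487 (.cons 0x9017845623 .nil)) (.node 0 3 (.cons 0x9032178654 (.cons 0x9034871265 .nil)) (.node 2 9 (.cons 0x8176290345 (.cons 0x5629034871 (.cons 0x3092654871 .nil))) .done .done) .done) .done) .done) .done)) (.node 2 6 .nil (.node 4 7 (.cons 0x5478123690 (.cons 0x3265478901 .nil)) (.node 0 5 (.cons 0x9632187450 (.cons 0x9054362187 .nil)) (.leaf 0x8123690547 0 (.leaf 0x3478905612 2 .done)) (.node 0 5 (.cons 0x8745096321 (.cons 0x9054362187 (.cons 0x5098743261 .nil)))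 (.node 7 9 (.cons 0x8790561234 (.cons 0x6234509781 .nil)) (.leaf 0x2187905436 0 .done) .done) .done)) (.node 6 8 .nil (.node 1 5 (.cons 0x6789021543 (.cons 0x7689021543 (.cons 0x9021543687 .nil))) (.leaf 0x4367890215 2 .done) (.node 4 6 .nil (.node 5 7 (.cons 0x4578123690 (.cons 0x5789023461 (.cons 0x7546098123 .nil))) (.leaf 0x6578901234 2 .done) .done) .done)) .done)) .done)) .done)) (.node 1 5 (.cons 0x6789021543 .nil) (.leaf 0x4367890215 2 (.node 1 7 (.cons 0x6543217890 .nil) (.node 5 7 (.cons 0x4321657890 .nil) (.node 4 6 (.cons 0x5789023461 .nil) (.node 2 6 (.cons 0x9026345781 .nil) (.node 6 8 (.cons 0x9860234571 .nil) (.node 6 9 (.cons 0x9687154320 .nil) .done .done) .done) (.leaf 0x3209875164 0 .done)) (.node 6 9 (.cons 0x8769021543 .nil) (.node 4 6 (.cons 0x5469871023 .nil) (.node 4 8 (.cons 0x3206984571 .nil) (.leaf 0x9615784320 0 (.node 1 3 (.cons 0x2134567890 .nil) (.leaf 0x5713206984 1 (.node 2 6 (.cons 0x9845713260 .nil) (.node 3 9 (.cons 0x9364578120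 .nil) (.leaf 0x8457160239 2 (.leaf 0x6784513902 0 .done)) .done) .done)) .done)) .done) (.node 2 6 .nil (.node 0 3 (.cons 0x4569871230 (.cons 0x9871032654 .nil)) (.leaf 0x6217890345 1 .done) (.node 4 6 (.cons 0x9021875463 .nil) (.node 6 8 .nil (.node 4 9 (.cons 0x8751649023 (.cons 0x7549021863 (.cons 0x3217549860 (.cons 0x3687549021 .nil)))) .done .done) .done) .done)) .done)) .done)) (.node 5 8 (.cons 0x3458906712 .nil) (.node 1 9 (.cons 0x7602198543 .nil) (.node 1 3 (.cons 0x2134567890 .nil) (.node 1 4 .nil (.node 0 3 (.cons 0x9854306712 (.cons 0x5678903412 .nil)) (.node 2 5 (.cons 0x8906712543 (.cons 0x9852034167 (.cons 0x7890325614 .nil))) .done .done) .done) .done) .done) (.node 0 5 (.cons 0x7890561234 .nil) (.node 1 9 .nil (.node 2 6 (.cons 0x6217890543 (.cons 0x7198543260 .nil)) (.leaf 0x5871902634 1 .done) (.node 2 8 (.cons 0x2854367190 .nil) (.node 2 6 (.cons 0x6217890543 .nil) (.node 6 8 (.cons 0x9054368712 .nil) .done .done) (.leaf 0x3671902854 1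 (.leaf 0x6719028543 2 .done))) .done)) .done) (.leaf 0x9067123458 1 .done))) .done)) (.node 1 3 (.cons 0x2134567890 .nil) (.node 3 5 .nil (.node 4 6 (.cons 0x9876453102 .nil) (.leaf 0x7890213546 1 (.node 6 9 (.cons 0x7812096345 (.cons 0x7896453201 (.cons 0x7812096354 .nil))) .done .done)) (.node 2 4 (.cons 0x5342098761 .nil) (.node 1 9 (.cons 0x6789102453 .nil) (.leaf 0x4536789102 1 .done) (.leaf 0x3516789024 2 (.node 1 9 .nil (.node 4 6 (.cons 0x9876453102 (.cons 0x3546789102 .nil)) (.node 5 8 (.cons 0x9854312067 (.cons 0x7619853420 (.cons 0x7854632091 .nil))) .done .done) (.node 1 4 (.cons 0x5341678902 .nil) (.node 1 7 (.cons 0x6543217890 .nil) .done .done) .done)) .done))) .done)) (.node 1 9 .nil (.node 5 8 (.cons 0x7609854312 (.cons 0x7602198543 .nil)) (.node 1 7 (.cons 0x3458917602 .nil) (.leaf 0x5432067198 1 .done) (.node 2 5 (.cons 0x8763452190 .nil) (.leaf 0x3452091876 1 (.node 2 4 (.cons 0x7609854213 .nil) (.node 3 8 (.cons 0x9012456783 (.cons 0x7602198345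 (.cons 0x5678342190 (.cons 0x7602543891 .nil)))) .done (.leaf 0x6319024587 2 .done)) (.leaf 0x9025436781 1 .done))) .done)) .done) .done)) .done))) .done))) .done)))
noncomputable def tc9_3_36 : T := (.node 0 5 (.cons 0x9876345021 .nil) (.node 0 4 .nil (.node 1 6 (.cons 0x7890432165 .nil) (.node 3 7 (.cons 0x4378905612 (.cons 0x4561098732 .nil)) (.node 1 8 (.cons 0x9812067345 (.cons 0x5437609812 (.cons 0x7345609812 .nil))) (.node 3 5 (.cons 0x9043567812 (.cons 0x7653409812 .nil)) (.node 5 7 (.cons 0x9812340657 .nil) (.leaf 0x2160987543 1 .done) .done) .done) (.node 4 6 (.cons 0x5461098732 .nil) (.node 5 8 (.cons 0x9012378546 (.cons 0x9016458732 (.cons 0x7321609854 .nil))) (.node 3 9 (.cons 0x4589376012 (.cons 0x6739854012 (.cons 0x9346120587 (.cons 0x9320164587 .nil)))) .done .done) .done) .done)) (.node 5 9 (.cons 0x8761209543 (.cons 0x3678954021 .nil)) (.node 1 5 (.cons 0x9876345120 .nil) (.node 6 9 (.cons 0x7896345021 (.cons 0x7896512340 .nil)) (.leaf 0x4321569870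 1 (.node 1 8 (.cons 0x7634598120 (.cons 0x9632187045 (.cons 0x7634021895 .nil))) (.leaf 0x7096543218 1 .done) .done)) .done) (.node 7 9 (.cons 0x8795401632 (.cons 0x8790432165 (.cons 0x8795402361 .nil))) (.node 1 5 (.cons 0x9876345120 (.cons 0x8976021543 (.cons 0x8976345120 .nil))) .done .done) .done)) .done)) (.node 4 7 (.cons 0x9874563210 .nil) (.node 1 7 (.cons 0x6543217890 .nil) (.node 4 6 .nil (.node 5 7 (.cons 0x9875463201 (.cons 0x8906457123 .nil)) (.leaf 0x8901234657 1 .done) (.node 1 6 .nil (.node 0 3 (.cons 0x9874305612 .nil) (.leaf 0x5478903216 2 .done) (.node 2 6 (.cons 0x9871263450 .nil) (.node 6 8 (.cons 0x9078654321 .nil) (.node 6 9 (.cons 0x2178963450 .nil) .done .done) .done) .done)) .done)) (.node 1 6 (.cons 0x5617890432 .nil) (.node 4 6 (.cons 0x5643217890 .nil) .done .done) .done)) (.node 1 7 (.cons 0x6543217890 .nil) (.node 0 8 (.cons 0x9806543217 .nil) (.node 0 3 .nil (.node 6 9 (.cons 0x5478963210 (.cons 0x4305698712 (.cons 0x4569871032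 (.cons 0x4569871230 .nil)))) .done .done) .done) (.node 1 6 (.cons 0x5617890432 .nil) (.node 4 6 (.cons 0x5643217890 .nil) .done .done) .done)) .done)) .done)) (.node 0 3 .nil (.node 4 9 (.cons 0x7894563210 (.cons 0x5498763012 (.cons 0x7894563012 .nil))) (.node 1 9 (.cons 0x5436789120 .nil) (.node 2 4 (.cons 0x3678910542 (.cons 0x9876542103 .nil)) (.leaf 0x3678912450 0 .done) (.node 2 4 (.cons 0x5024367891 (.cons 0x5678912430 .nil)) (.node 5 9 (.cons 0x8763420591 (.cons 0x4598763021 .nil)) (.leaf 0x1036789542 0 .done) .done) (.leaf 0x4367891205 1 .done))) (.node 1 7 (.cons 0x2365498710 (.cons 0x6549871032 .nil)) (.node 2 5 (.cons 0x6325498710 (.cons 0x8903452176 .nil)) (.leaf 0x4987106325 1 (.leaf 0x3601789452 2 (.node 0 4 (.cons 0x9871254036 .nil) .done .done))) (.node 2 4 (.cons 0x5632498710 (.cons 0x9876542103 (.cons 0x8903421765 .nil))) (.node 4 6 (.cons 0x5643217890 .nil) .done .done) .done)) .done)) (.node 0 4 .nil (.node 1 6 (.cons 0x7890432165 .nil)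 (.node 4 7 (.cons 0x9874501632 .nil) (.leaf 0x3478905612 2 (.node 5 9 (.cons 0x7895436120 (.cons 0x3678954021 .nil)) (.node 0 8 (.cons 0x9543678021 .nil) (.node 1 8 (.cons 0x7602189543 (.cons 0x7459810632 (.cons 0x6590781234 .nil))) .done .done) (.leaf 0x6321047895 1 .done)) .done)) (.node 0 8 .nil (.node 5 9 (.cons 0x8761209543 (.cons 0x3678954021 (.cons 0x7634598021 (.cons 0x9543612087 .nil)))) .done (.node 5 8 (.cons 0x9021678543 .nil) (.node 1 8 (.cons 0x9078123456 .nil) (.node 5 7 (.cons 0x3457609812 (.cons 0x9812360457 .nil)) .done (.node 5 9 (.cons 0x8761209543 (.cons 0x7634021895 (.cons 0x9563407812 (.cons 0x3678954021 .nil)))) .done .done)) (.node 3 9 (.cons 0x7809345612 (.cons 0x7639854021 (.cons 0x3904587612 .nil))) (.leaf 0x7612093458 1 .done) .done)) .done)) .done)) (.node 0 8 .nil (.node 1 3 (.cons 0x2134567890 (.cons 0x9087654312 .nil)) (.node 5 7 (.cons 0x8902134576 (.cons 0x9802134576 (.cons 0x9802136754 .nil))) .done (.node 5 7 (.cons 0x8906754312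 (.cons 0x9806754312 .nil)) (.node 1 7 (.cons 0x6543217890 (.cons 0x9806543217 .nil)) (.node 2 7 (.cons 0x9872104563 (.cons 0x9806721345 .nil)) .done .done) .done) .done)) .done) .done)) .done)) .done)) (.node 1 7 (.cons 0x6543217890 .nil) (.node 0 8 (.cons 0x9806543217 .nil) (.node 0 5 (.cons 0x9876345021 .nil) (.node 0 3 .nil (.node 4 9 (.cons 0x7894563210 (.cons 0x5498763012 (.cons 0x7894563012 (.cons 0x6549871032 .nil)))) (.node 0 4 (.cons 0x9871230456 .nil) (.node 2 9 (.cons 0x7892365401 (.cons 0x6540329871 .nil)) (.node 4 6 (.cons 0x5640178923 (.cons 0x9217803465 .nil)) .done .done) .done) .done) (.node 0 4 .nil (.node 1 5 (.cons 0x9876345120 (.cons 0x9870436512 .nil)) (.node 6 9 (.cons 0x8967154302 (.cons 0x5698712340 (.cons 0x8965170432 (.cons 0x3217896540 .nil)))) .done .done) .done) .done)) (.node 0 3 .nil (.node 4 9 (.cons 0x7894563210 (.cons 0x5498763012 (.cons 0x7894563012 (.cons 0x6549871032 .nil)))) (.node 5 9 (.cons 0x8956071234 (.cons 0x4598763021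 .nil)) (.node 2 4 (.cons 0x1243659870 (.cons 0x6598703421 .nil)) (.leaf 0x1036789542 0 .done) .done) .done) (.node 0 4 .nil (.node 6 9 (.cons 0x9654308712 (.cons 0x5698712340 (.cons 0x3217896540 .nil))) (.node 1 5 (.cons 0x9876345120 (.cons 0x8965170432 (.cons 0x9870436512 .nil))) (.leaf 0x2345178960 0 .done) .done) .done) .done)) .done)) (.node 0 3 .nil (.node 4 9 (.cons 0x7894563210 (.cons 0x5498763012 (.cons 0x7894563012 (.cons 0x6549871032 .nil)))) (.node 6 8 (.cons 0x5689432170 (.cons 0x5498671203 .nil)) (.node 1 6 (.cons 0x5617089432 .nil) (.node 2 9 (.cons 0x9234561780 (.cons 0x9230871654 .nil)) (.leaf 0x6543290871 2 .done) .done) .done) .done) (.node 0 5 (.cons 0x9876345021 .nil) (.node 0 4 .nil (.node 6 9 (.cons 0x7896345021 (.cons 0x5698712340 (.cons 0x3217896540 .nil))) (.node 1 5 (.cons 0x9876345120 (.cons 0x8965170432 .nil)) (.leaf 0x2345178960 0 .done) .done) .done) .done) .done)) .done)) (.node 0 8 (.cons 0x9087123456 .nil) (.node 1 6 .nil (.node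 3 7 (.cons 0x4561098732 .nil) (.node 2 7 (.cons 0x9806543721 .nil) (.node 1 4 (.cons 0x9806541273 (.cons 0x9806372145 (.cons 0x8906541273 .nil))) (.node 2 9 (.cons 0x7089214365 (.cons 0x8092173456 .nil)) (.leaf 0x7165432908 0 .done) .done) .done) (.node 2 9 (.cons 0x7809216543 .nil) (.leaf 0x873456129 1 (.leaf 0x1290873456 2 (.leaf 0x7165432908 0 (.node 0 4 (.cons 0x9217804563 (.cons 0x9216378045 (.cons 0x8716540923 .nil))) .done .done)))) .done)) (.node 6 9 (.cons 0x8712345690 .nil) (.node 6 8 (.cons 0x5432096871 .nil) (.node 2 6 (.cons 0x9087126543 .nil) (.node 3 9 (.cons 0x4568712390 .nil) (.leaf 0x5439087126 1 (.leaf 0x8093456217 1 (.node 4 6 (.cons 0x5643908712 .nil) .done .done))) .done) .done) (.node 2 6 (.cons 0x9087126543 .nil) (.node 3 7 (.cons 0x9087345621 .nil) (.node 1 3 (.cons 0x2134567890 .nil) (.node 6 8 (.cons 0x7689021345 .nil) (.node 4 6 .nil (.node 5 7 (.cons 0x4321657890 (.cons 0x2137546980 (.cons 0x9875463201 (.cons 0x8906457321 .nil))))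 .done .done) .done) .done) (.node 2 4 (.cons 0x6542378901 .nil) (.node 0 3 (.cons 0x9876542103 .nil) (.node 3 9 (.cons 0x3987654210 .nil) (.leaf 0x5439087126 1 (.leaf 0x4217803965 1 (.leaf 0x2178039654 2 .done))) .done) (.leaf 0x987324561 1 .done)) .done)) .done) .done)) .done)) (.node 1 6 (.cons 0x9087165432 .nil) (.node 6 9 (.cons 0x8712345690 .nil) (.node 6 8 (.cons 0x5432096871 .nil) (.node 0 3 (.cons 0x9032178654 .nil) (.node 0 4 (.cons 0x9045687123 .nil) (.node 0 5 (.cons 0x9876345021 .nil) .done .done) .done) .done) (.node 6 8 .nil (.node 7 9 (.cons 0x8609712345 .nil) (.node 5 8 (.cons 0x3458976021 (.cons 0x7985436021 .nil)) (.leaf 0x2179068543 1 .done) (.leaf 0x5687901234 0 .done)) .done) .done)) .done) .done)) (.node 7 9 .nil (.node 5 8 (.cons 0x3458906712 (.cons 0x3458976021 (.cons 0x2179854360 (.cons 0x4589710632 (.cons 0x4589712360 .nil))))) .done (.node 3 7 .nil (.node 5 8 (.cons 0x3458906712 (.cons 0x9854376021 (.cons 0x6098543712 .nil))) (.node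 2 4 (.cons 0x8971063245 (.cons 0x8973245601 (.cons 0x8901245673 .nil))) (.node 6 9 (.cons 0x9632458710 (.cons 0x4237856901 .nil)) (.leaf 0x7324589601 1 .done) .done) (.leaf 0x9067123458 1 .done)) (.node 4 7 (.cons 0x9874563210 .nil) (.node 5 7 .nil (.node 1 8 (.cons 0x9812347065 (.cons 0x6023457981 (.cons 0x9812347560 (.cons 0x2063457981 .nil)))) .done (.node 2 7 .nil (.node 1 8 (.cons 0x9812347065 (.cons 0x1897234560 (.cons 0x5436027981 .nil))) (.node 3 5 (.cons 0x4798106532 (.cons 0x4356721890 (.cons 0x9810653274 .nil))) .done .done) .done) .done)) .done) .done)) (.node 6 9 .nil (.node 0 5 (.cons 0x9876345021 (.cons 0x8712345096 (.cons 0x2178963450 (.cons 0x4501789632 .nil)))) .done (.node 2 9 .nil (.node 5 8 (.cons 0x4589712360 (.cons 0x3458921760 (.cons 0x7129854360 (.cons 0x7106329854 .nil)))) (.leaf 0x9067123458 1 .done) (.node 1 9 (.cons 0x5436789120 .nil) (.node 5 9 .nil (.node 2 4 (.cons 0x5634219870 .nil) (.leaf 0x5987106324 1 (.leaf 0x3601789542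 2 .done)) (.node 2 4 (.cons 0x6324598710 .nil) (.leaf 0x5987106324 1 (.leaf 0x3601789542 2 .done)) .done)) .done) .done)) (.node 4 6 .nil (.node 5 7 (.cons 0x4578963201 (.cons 0x9875463201 .nil)) (.leaf 0x6578901234 2 (.node 1 8 (.cons 0x6902345781 (.cons 0x9645781023 .nil)) (.node 2 5 (.cons 0x4523698710 (.cons 0x3254698710 (.cons 0x8175234690 .nil))) (.leaf 0x6098175234 1 .done) (.leaf 0x4657098123 1 .done)) .done)) (.node 1 6 .nil (.node 5 7 (.cons 0x4578963201 (.cons 0x1698754320 (.cons 0x8754320961 (.cons 0x8906175432 .nil)))) .done (.node 6 8 .nil (.node 3 5 (.cons 0x8710964532 (.cons 0x8609712354 (.cons 0x8645321790 (.cons 0x9017864532 .nil)))) .done (.node 2 6 .nil (.node 5 8 (.cons 0x4589712360 (.cons 0x7126098543 (.cons 0x9017854623 .nil))) (.node 0 3 (.cons 0x9854306712 (.cons 0x9623017854 .nil)) (.node 1 9 (.cons 0x5436789120 (.cons 0x2671985430 (.cons 0x3026458791 .nil))) .done .done) .done) .done) .done)) .done)) .done)) .done))) .done))) .done)))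 (.node 0 5 (.cons 0x9876345021 .nil) (.node 0 3 .nil (.node 4 9 (.cons 0x7894563210 (.cons 0x5498763012 (.cons 0x7894563012 .nil))) (.node 5 7 (.cons 0x8945763021 .nil) (.node 0 4 (.cons 0x9875401236 .nil) (.leaf 0x5632104987 1 .done) (.node 2 8 (.cons 0x7654982103 .nil) (.leaf 0x4982103675 1 (.leaf 0x128945763 1 (.node 1 7 (.cons 0x6543217890 (.cons 0x8217654903 (.cons 0x5498217630 .nil))) (.node 0 4 (.cons 0x6571289403 .nil) .done .done) .done))) .done)) (.node 0 4 .nil (.node 1 6 (.cons 0x7890432165 (.cons 0x7894561032 .nil)) (.node 2 8 (.cons 0x9078234561 (.cons 0x9456103287 (.cons 0x7823094561 .nil))) (.node 5 7 (.cons 0x1657823490 (.cons 0x9403287561 .nil)) .done .done) .done) (.node 0 8 .nil (.node 5 9 (.cons 0x4598763021 (.cons 0x7634598021 .nil)) (.node 1 6 (.cons 0x7895436120 (.cons 0x9543612087 .nil)) (.leaf 0x8954361207 1 .done) .done) (.node 1 6 (.cons 0x7894561032 .nil) (.node 4 7 (.cons 0x9874563210 (.cons 0x9087432165 .nil)) (.leaf 0x5478903216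 2 (.leaf 0x8903216547 1 .done)) (.node 2 8 (.cons 0x9078234561 (.cons 0x9456103287 (.cons 0x7823094561 .nil))) .done (.node 5 7 (.cons 0x4321657890 (.cons 0x4987561032 .nil)) (.node 1 9 (.cons 0x5436789120 (.cons 0x8912036754 (.cons 0x6304578912 (.cons 0x6302198754 .nil)))) .done .done) .done))) .done)) .done)) .done)) (.node 0 4 .nil (.node 1 6 (.cons 0x7890432165 .nil) (.node 1 5 (.cons 0x9870234516 .nil) (.node 7 9 (.cons 0x8976345120 (.cons 0x8790543216 (.cons 0x8790561234 (.cons 0x8970236154 .nil)))) .done (.node 2 7 (.cons 0x6512789034 (.cons 0x9872156340 (.cons 0x9872156304 .nil))) (.leaf 0x6127890345 1 (.leaf 0x1563409872 1 .done)) .done)) (.node 7 9 (.cons 0x8790432165 (.cons 0x8790456123 .nil)) (.node 0 8 (.cons 0x9780216345 .nil) .done (.node 5 8 (.cons 0x6123458790 (.cons 0x9785401632 (.cons 0x7985406321 .nil))) (.node 1 3 (.cons 0x2134589760 .nil) (.leaf 0x4589760213 0 (.node 2 5 (.cons 0x4309876521 (.cons 0x9876312540 .nil)) (.leaf 0x4098765213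 0 .done) .done)) (.leaf 0x1234587906 2 .done)) .done)) .done)) (.node 0 8 .nil (.node 1 3 (.cons 0x2134567890 (.cons 0x9087654312 .nil)) (.node 5 7 (.cons 0x8902134576 (.cons 0x9802134576 (.cons 0x9802136754 .nil))) .done (.node 5 7 (.cons 0x8906754312 (.cons 0x9806754312 .nil)) (.node 1 7 (.cons 0x6543217890 (.cons 0x9806543217 (.cons 0x9087123456 .nil))) (.node 2 9 (.cons 0x6312987540 (.cons 0x4576312980 (.cons 0x9213678054 .nil))) (.leaf 0x8043657129 1 .done) .done) .done) .done)) .done) .done)) .done)) (.node 0 4 .nil (.node 1 6 (.cons 0x7890432165 .nil) (.node 1 5 (.cons 0x9870234516 .nil) (.node 6 8 (.cons 0x9043215687 (.cons 0x9023451687 .nil)) (.node 3 7 (.cons 0x9045687321 (.cons 0x9045123786 (.cons 0x4378905612 .nil))) (.node 3 9 (.cons 0x8673902154 (.cons 0x4516870932 (.cons 0x7865123904 (.cons 0x8761543902 .nil)))) .done .done) .done) (.node 2 8 (.cons 0x9820763451 (.cons 0x9820761543 (.cons 0x7651289043 .nil))) (.node 1 9 (.cons 0x3670451982 (.cons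 0x5436198702 .nil)) (.leaf 0x7091654328 1 .done) .done) .done)) (.node 7 9 (.cons 0x8790432165 (.cons 0x8790456123 .nil)) (.node 1 5 (.cons 0x9876345120 (.cons 0x8976021543 (.cons 0x8976345120 .nil))) .done (.node 0 8 (.cons 0x9780543612 .nil) (.node 6 8 (.cons 0x5432168790 (.cons 0x5409786123 .nil)) (.leaf 0x7905432168 1 .done) .done) .done)) .done)) (.node 4 7 (.cons 0x9874563210 .nil) (.node 0 3 .nil (.node 2 9 (.cons 0x4563298701 (.cons 0x6503478921 .nil)) (.leaf 0x1036547892 1 (.node 1 4 (.cons 0x1456329870 (.cons 0x5412987630 (.cons 0x7892145630 .nil))) (.node 0 8 (.cons 0x5674129803 .nil) .done .done) .done)) (.node 0 8 .nil (.node 2 4 (.cons 0x5678903421 .nil) (.node 7 9 (.cons 0x8974560123 (.cons 0x5421089763 (.cons 0x5608974321 (.cons 0x9780456321 .nil)))) .done .done) .done) .done)) (.node 6 9 (.cons 0x5478963210 .nil) (.node 7 9 .nil (.node 1 8 (.cons 0x7812340965 (.cons 0x5697812340 (.cons 0x5043697812 (.cons 0x5063479812 (.cons 0x7981206345 .nil)))))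 .done (.node 2 9 (.cons 0x4563298701 .nil) (.node 0 3 (.cons 0x8921036745 .nil) (.node 0 8 (.cons 0x5479806321 .nil) .done .done) .done) .done)) (.leaf 0x8745012369 0 (.node 7 9 .nil (.node 1 5 (.cons 0x9876345120 (.cons 0x8976021543 (.cons 0x8976345120 .nil))) (.node 0 8 (.cons 0x9632154780 .nil) (.leaf 0x2154780963 1 .done) .done) (.node 2 9 (.cons 0x4563298701 .nil) (.node 5 9 (.cons 0x8795632104 .nil) (.node 3 7 (.cons 0x8921054736 .nil) (.node 0 3 (.cons 0x8921036745 .nil) (.node 0 8 (.cons 0x4569087321 .nil) .done .done) .done) .done) .done) .done)) .done))) .done)) .done)) .done)) .done)))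
noncomputable def uc9_3_8 : T := (.node 0 7 (.cons 0x9870123654 .nil) tc9_3_36 (.node 1 6 .nil tc9_3_35 (.node 1 5 (.cons 0x6789021543 .nil) tc9_3_34 (.node 6 9 .nil (.node 4 7 (.cons 0x2365478901 (.cons 0x5478963201 (.cons 0x8745690123 .nil))) (.node 1 7 (.cons 0x6543217890 (.cons 0x8712345690 .nil)) (.node 5 8 (.cons 0x9854710632 (.cons 0x7458960123 (.cons 0x7120698543 (.cons 0x3217458960 .nil)))) (.node 1 6 (.cons 0x9617854320 .nil) (.node 0 5 (.cons 0x9850617432 (.cons 0x2347850961 (.cons 0x2054369871 .nil))) .done .done) .done) (.node 3 7 (.cons 0x4569873210 (.cons 0x8732109654 .nil)) (.node 1 8 (.cons 0x9812067345 (.cons 0x5437609812 (.cons 0x7345609812 .nil))) (.leaf 0x981237456 1 .done) .done) .done)) (.node 0 7 (.cons 0x8709654321 .nil) (.leaf 0x5698701234 2 (.node 3 7 (.cons 0x4569873210 (.cons 0x8732109654 .nil)) (.node 1 5 (.cons 0x2098763451 (.cons 0x4321569870 (.cons 0x8769021543 (.cons 0x8902154376 .nil)))) (.node 2 4 (.cons 0x3421569870 (.cons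 0x8709651243 (.cons 0x8901245673 .nil))) (.leaf 0x1560987342 1 .done) .done) (.node 4 6 (.cons 0x5469873210 (.cons 0x8732109645 .nil)) .done .done)) .done)) .done)) (.node 3 9 .nil tc9_3_33 (.node 0 3 .nil tc9_3_32 .done))) .done))))
theorem sub_c9_3_8 : root 9 refs9_3 [] 0x700000008706000000006030000000030500006000504000000004010000000010300000000302500000002018006000510 0xfe7fff3fffb7ff97ffcfffedfff5ffd3fff9fe9d 9 3 6 (.cons 0x5436789021 .nil) uc9_3_8 = true := by decide +kernel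
noncomputable def tc9_3_37 : T := (.node 2 4 (.cons 0x9876542103 .nil) (.node 3 5 (.cons 0x6789012453 .nil) (.node 4 9 (.cons 0x6789453012 .nil) (.leaf 0x6530124987 1 (.leaf 0x5301249876 2 (.node 3 9 (.cons 0x6789354210 (.cons 0x8765394201 .nil)) (.leaf 0x6542103987 1 .done) .done))) (.node 3 9 (.cons 0x8765390124 .nil) (.leaf 0x6542103987 1 (.node 1 8 (.cons 0x9021876543 .nil) (.leaf 0x7654390218 2 (.node 2 6 (.cons 0x3987624501 (.cons 0x9053426781 .nil)) (.node 1 3 (.cons 0x1398762450 (.cons 0x7624509813 (.cons 0x9053187624 .nil))) .done .done) (.leaf 0x9354218760 1 (.leaf 0x2093456781 1 .done)))) (.node 3 8 (.cons 0x9387654201 (.cons 0x9012453876 .nil)) (.node 1 8 (.cons 0x2093456781 (.cons 0x6781093542 .nil)) (.node 7 9 (.cons 0x7981234560 (.cons 0x5430679812 (.cons 0x7981230654 .nil))) (.leaf 0x3456798120 2 .done) (.leaf 0x5439021876 1 .done)) .done) .done))) (.leaf 0x9876534210 2 .done))) (.node 1 7 (.cons 0x6543217890 (.cons 0x8903421765 .nil)) (.node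 1 8 (.cons 0x9021876543 (.cons 0x9817650342 .nil)) (.node 2 9 (.cons 0x3450671892 (.cons 0x8921760345 (.cons 0x8924305671 (.cons 0x6718924503 .nil)))) .done (.node 6 9 (.cons 0x7812096543 (.cons 0x7189650342 (.cons 0x4569871032 (.cons 0x4569871230 .nil)))) .done .done)) (.node 6 9 (.cons 0x8712345690 (.cons 0x8712309654 .nil)) (.node 5 8 (.cons 0x4321785690 (.cons 0x4309658712 .nil)) (.leaf 0x3421785690 2 (.node 3 8 (.cons 0x9830124567 (.cons 0x5830967124 (.cons 0x9038567124 .nil))) (.node 1 4 (.cons 0x7142385690 (.cons 0x5830967142 .nil)) (.node 2 9 (.cons 0x8714329650 (.cons 0x6923058714 (.cons 0x9203876541 .nil))) .done (.node 4 7 (.cons 0x1742385690 (.cons 0x9658741203 (.cons 0x8569032471 .nil))) (.leaf 0x965874123 1 .done) .done)) .done) .done)) (.node 2 8 (.cons 0x1782345690 (.cons 0x4569032871 .nil)) (.node 7 9 (.cons 0x5430679821 .nil) (.node 0 8 (.cons 0x5432806971 (.cons 0x9712806543 .nil)) (.leaf 0x2345608971 1 .done) (.leaf 0x2897654301 1 (.node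 1 3 (.cons 0x8976542130 (.cons 0x4567982130 (.cons 0x6798245031 (.cons 0x4289765031 .nil)))) .done .done))) (.node 1 5 (.cons 0x7609821543 (.cons 0x9678203451 (.cons 0x6903451782 .nil))) (.node 5 9 (.cons 0x8217609543 .nil) (.node 1 6 (.cons 0x5432871690 (.cons 0x2871695430 .nil)) (.leaf 0x3459617820 2 .done) (.leaf 0x671289543 1 .done)) .done) (.node 1 5 (.cons 0x4328715690 (.cons 0x7651289034 (.cons 0x4309651782 .nil))) (.node 1 8 (.cons 0x9056718243 (.cons 0x9678154302 (.cons 0x7182430965 .nil))) .done .done) .done))) .done)) (.node 5 8 (.cons 0x3458906712 (.cons 0x9854306712 (.cons 0x6712458903 .nil))) (.node 2 6 (.cons 0x6234509871 (.cons 0x9854306217 .nil)) (.node 1 6 (.cons 0x6178905432 (.cons 0x9850342617 .nil)) (.leaf 0x987162345 2 .done) (.leaf 0x987126543 0 .done)) .done) .done))) (.node 0 4 .nil (.node 1 6 (.cons 0x7890432165 (.cons 0x5430987612 .nil)) (.node 0 7 (.cons 0x9870432165 .nil) (.node 2 9 (.cons 0x8921670345 (.cons 0x7892340561 (.cons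 0x3054298761 .nil))) .done .done) (.node 7 9 (.cons 0x8790321654 (.cons 0x8790432165 .nil)) (.node 5 8 (.cons 0x6123458790 (.cons 0x9785403216 .nil)) (.leaf 0x1234587906 2 .done) (.node 2 8 (.cons 0x1654328790 (.cons 0x9782304561 .nil)) (.node 3 5 (.cons 0x9053428761 (.cons 0x9782356104 (.cons 0x9043567821 (.cons 0x7653409821 .nil)))) .done .done) .done)) .done)) (.node 3 9 (.cons 0x8765439021 .nil) (.node 4 8 (.cons 0x7654893012 .nil) (.node 2 7 (.cons 0x3984567210 .nil) (.node 3 6 (.cons 0x8936724501 (.cons 0x9012365487 (.cons 0x5634098721 (.cons 0x4563278901 .nil)))) .done (.leaf 0x1276548930 2 (.leaf 0x6548930127 1 .done))) (.node 4 9 .nil (.node 3 5 (.cons 0x6789012453 (.cons 0x6789453012 .nil)) (.node 2 8 (.cons 0x1287653490 (.cons 0x9034567821 (.cons 0x9456782103 (.cons 0x3094567821 .nil)))) .done .done) (.node 3 8 (.cons 0x5678349021 .nil) (.node 1 9 (.cons 0x5678349120 .nil) (.leaf 0x238765491 2 (.leaf 0x3456789120 0 .done)) (.node 1 3 (.cons 0x2134567890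 .nil) (.leaf 0x4902138765 2 (.leaf 0x9456783120 1 (.node 3 5 (.cons 0x9487653102 (.cons 0x6783549012 .nil)) .done .done))) .done)) .done)) .done)) (.node 1 8 (.cons 0x9021876543 .nil) (.leaf 0x7654390218 2 (.node 2 5 (.cons 0x7609812543 (.cons 0x6789301254 .nil)) (.node 0 8 .nil (.node 1 9 (.cons 0x2198765430 (.cons 0x9120876543 (.cons 0x7654308912 (.cons 0x7652198034 .nil)))) (.leaf 0x3456789120 0 .done) (.node 0 7 (.cons 0x6709812543 .nil) (.node 3 5 (.cons 0x6789012453 .nil) (.node 1 6 (.cons 0x8907612543 .nil) (.node 2 7 (.cons 0x4398052761 (.cons 0x9812760345 (.cons 0x9816725034 (.cons 0x9872165403 .nil)))) .done (.leaf 0x4216789035 1 (.leaf 0x8761245309 1 .done))) (.node 2 9 (.cons 0x4356780921 (.cons 0x6781290354 .nil)) (.node 1 6 (.cons 0x8907612543 (.cons 0x5034298761 .nil)) (.node 4 8 (.cons 0x7843290561 (.cons 0x9210356784 (.cons 0x7618430925 .nil))) .done (.leaf 0x7890354216 2 .done)) .done) .done)) .done) .done)) (.node 4 7 (.cons 0x6547890123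 (.cons 0x8930674521 .nil)) (.node 1 7 (.cons 0x6543217890 (.cons 0x8930671254 .nil)) (.node 4 6 (.cons 0x5643217890 (.cons 0x1254678930 (.cons 0x4652309871 .nil))) .done .done) (.leaf 0x674521893 1 .done)) .done)) (.node 2 5 (.cons 0x6789301254 (.cons 0x7652189034 .nil)) (.node 1 3 (.cons 0x9813425067 (.cons 0x9052431876 .nil)) (.node 5 7 (.cons 0x4398125760 (.cons 0x8125760934 (.cons 0x8903124576 .nil))) .done .done) (.node 1 6 (.cons 0x8761209345 (.cons 0x4521678930 .nil)) (.node 1 7 (.cons 0x6543217890 (.cons 0x8930671254 .nil)) (.node 2 8 (.cons 0x9054328716 (.cons 0x9821760345 .nil)) .done .done) .done) .done)) (.leaf 0x2093456781 1 .done)))) (.node 4 8 (.cons 0x5678439021 .nil) (.node 5 7 (.cons 0x5760124893 (.cons 0x5760398421 .nil)) (.node 1 5 (.cons 0x9348765120 .nil) (.leaf 0x6784390215 1 (.leaf 0x2156784390 2 (.node 1 8 (.cons 0x7560439812 (.cons 0x9812430675 .nil)) (.leaf 0x218765439 1 .done) .done))) (.node 2 9 (.cons 0x6578401293 (.cons 0x7654892103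 (.cons 0x6578403921 .nil))) .done .done)) (.node 4 7 (.cons 0x6547890123 .nil) (.node 4 6 (.cons 0x5647893210 .nil) (.node 1 4 (.cons 0x6501478932 .nil) (.node 5 8 (.cons 0x5876421093 (.cons 0x9301246785 (.cons 0x2147658930 .nil))) (.leaf 0x4120398567 1 .done) .done) .done) (.node 6 9 (.cons 0x8745690123 (.cons 0x8745690321 .nil)) (.node 3 6 (.cons 0x9876301245 .nil) (.node 5 7 (.cons 0x8754236901 (.cons 0x6987542301 .nil)) (.node 1 4 (.cons 0x8756390412 (.cons 0x6578930412 .nil)) (.node 2 8 (.cons 0x3287456901 (.cons 0x9654782301 (.cons 0x8230965741 (.cons 0x7654128903 .nil)))) .done .done) .done) .done) .done) .done)) .done)) (.leaf 0x7893012456 1 .done)))) .done)) .done))) (.node 0 7 .nil (.node 6 9 (.cons 0x1234569870 .nil) (.leaf 0x5698701234 2 (.leaf 0x8701234569 1 (.node 1 3 (.cons 0x2134567890 (.cons 0x4569870132 (.cons 0x8907654312 .nil))) (.node 3 6 (.cons 0x7890123654 (.cons 0x9870123654 .nil)) (.node 1 6 (.cons 0x5430987612 .nil) (.node 1 5 (.cons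 0x6789034512 .nil) (.node 2 8 (.cons 0x7823109654 (.cons 0x2896703451 (.cons 0x6709821543 (.cons 0x4569078231 .nil)))) (.leaf 0x3076982154 0 .done) (.leaf 0x6987023451 2 .done)) .done) .done) (.node 0 4 (.cons 0x5678904312 .nil) (.node 2 5 (.cons 0x4312567890 (.cons 0x2569870431 (.cons 0x8907652134 .nil))) (.leaf 0x789652134 0 .done) .done) .done)) (.node 2 6 (.cons 0x5430987621 .nil) (.node 1 9 (.cons 0x8912670345 (.cons 0x6234507891 (.cons 0x4326507891 (.cons 0x3456219870 .nil)))) (.leaf 0x2198703456 2 .done) (.node 1 6 (.cons 0x5430987612 .nil) (.node 3 9 (.cons 0x8765439021 (.cons 0x4561078932 .nil)) (.node 1 9 (.cons 0x6198705432 .nil) (.node 2 7 (.cons 0x8912760345 (.cons 0x6198723450 (.cons 0x6198723054 .nil))) .done (.leaf 0x3456198702 2 (.leaf 0x789162345 0 .done))) (.leaf 0x6120789345 1 .done)) (.node 3 6 (.cons 0x7890123654 (.cons 0x9870123654 .nil)) (.node 4 6 (.cons 0x5469870321 .nil) (.node 5 7 (.cons 0x8754690321 (.cons 0x6457890321 .nil)) (.leaf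 0x6578901234 2 .done) .done) .done) .done)) .done)) .done)))) (.node 0 4 .nil (.node 1 6 (.cons 0x5430987612 (.cons 0x9870432165 (.cons 0x7890432165 .nil))) (.node 1 3 (.cons 0x2134567890 (.cons 0x5678904312 .nil)) (.node 5 9 (.cons 0x8709561234 (.cons 0x8956704312 (.cons 0x6598704312 (.cons 0x6789540312 .nil)))) .done (.node 1 5 (.cons 0x6789034512 (.cons 0x9870432156 .nil)) (.node 5 8 (.cons 0x9034587612 (.cons 0x9856704312 .nil)) (.node 2 7 (.cons 0x6721309854 (.cons 0x9854031276 (.cons 0x8904567213 .nil))) (.node 3 6 (.cons 0x6345127890 (.cons 0x9870436512 (.cons 0x7890436512 (.cons 0x9045872361 .nil)))) .done .done) .done) .done) .done)) .done) (.node 0 8 .nil (.node 1 7 (.cons 0x6543217890 (.cons 0x9806543217 (.cons 0x9087123456 .nil))) (.node 5 9 (.cons 0x3459806712 .nil) (.node 1 3 (.cons 0x2134567890 (.cons 0x6598704312 (.cons 0x9087654312 (.cons 0x8765902134 .nil)))) (.node 4 8 (.cons 0x2134895670 .nil) (.leaf 0x2095678431 0 (.leaf 0x9843217065 2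 .done)) .done) (.leaf 0x4598067123 2 (.node 5 8 (.cons 0x3458906712 .nil) (.node 1 9 (.cons 0x7603458912 .nil) (.node 3 9 (.cons 0x8765439021 (.cons 0x7658021934 (.cons 0x6719345802 .nil))) .done (.node 1 8 (.cons 0x9021876543 .nil) (.node 3 9 (.cons 0x8765439021 (.cons 0x7658021934 .nil)) (.leaf 0x5439021876 1 .done) .done) .done)) (.leaf 0x9067123458 1 .done)) (.leaf 0x8067123459 1 .done)))) .done) .done) .done)) .done)) (.node 0 7 .nil (.node 6 9 (.cons 0x1234569870 .nil) (.leaf 0x5698701234 2 (.leaf 0x8701234569 1 (.node 3 6 (.cons 0x7890123654 (.cons 0x9870123654 .nil)) (.node 1 3 (.cons 0x2134567890 (.cons 0x4569870132 (.cons 0x8907654312 .nil))) (.node 4 6 (.cons 0x5469870132 .nil) (.node 5 7 (.cons 0x8754690132 (.cons 0x4657890321 .nil)) (.leaf 0x6578901234 2 .done) .done) .done) .done) (.node 1 8 (.cons 0x9021876543 (.cons 0x9812345607 .nil)) (.node 3 5 (.cons 0x7069812354 (.cons 0x6907812354 .nil)) (.node 2 4 (.cons 0x5678903421 (.cons 0x9876530124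 (.cons 0x6789012453 .nil))) (.leaf 0x9678124530 1 .done) (.node 5 9 (.cons 0x6781209543 .nil) (.node 3 6 (.cons 0x7890123654 (.cons 0x7063459812 (.cons 0x6345907812 .nil))) (.node 1 5 (.cons 0x4309876512 (.cons 0x9632078154 (.cons 0x4518709632 .nil))) .done .done) .done) .done)) (.node 3 5 (.cons 0x9021876534 (.cons 0x4356709812 .nil)) (.node 4 9 (.cons 0x9435678120 (.cons 0x2189435670 (.cons 0x7065349812 (.cons 0x4965320781 .nil)))) (.leaf 0x7653498120 2 .done) (.node 3 6 (.cons 0x7890123654 (.cons 0x9870123654 .nil)) (.node 2 4 (.cons 0x5678903421 (.cons 0x5670981243 .nil)) (.node 1 9 (.cons 0x5678912430 (.cons 0x8912430765 (.cons 0x6918705324 (.cons 0x8703569124 .nil)))) .done (.node 1 4 (.cons 0x5678903412 (.cons 0x3214569870 (.cons 0x8709654123 (.cons 0x5369078142 .nil)))) (.leaf 0x965324187 1 .done) .done)) .done) .done)) (.leaf 0x7096543218 1 .done))) .done)))) (.node 0 8 .nil (.node 1 7 (.cons 0x6543217890 (.cons 0x9806543217 (.cons 0x9087123456 .nil)))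 (.node 4 6 (.cons 0x5643217890 (.cons 0x9087123465 .nil)) (.node 5 9 (.cons 0x6459870123 (.cons 0x7123465980 .nil)) (.node 1 6 (.cons 0x5987034612 .nil) (.node 2 7 (.cons 0x1278956430 (.cons 0x9561278034 .nil)) (.node 1 9 (.cons 0x4650327891 (.cons 0x7198056432 (.cons 0x9164508723 .nil))) .done .done) .done) (.node 3 9 (.cons 0x8765439021 (.cons 0x3954678021 (.cons 0x4659320871 .nil))) (.node 2 7 (.cons 0x8932710564 (.cons 0x1276543980 (.cons 0x4650893271 .nil))) .done .done) .done)) (.node 4 7 (.cons 0x6547890123 .nil) (.node 1 9 (.cons 0x5647891032 (.cons 0x5674308912 .nil)) (.node 3 6 (.cons 0x9874563210 (.cons 0x9120876345 (.cons 0x5436780912 .nil))) .done (.node 1 5 (.cons 0x2346517890 (.cons 0x9087156432 (.cons 0x9803476512 .nil))) (.node 2 7 (.cons 0x2789156430 .nil) (.leaf 0x1564302789 0 .done) .done) .done)) (.node 6 9 (.cons 0x8745690123 (.cons 0x5690874321 .nil)) (.node 5 7 (.cons 0x8906571234 (.cons 0x9806571234 .nil)) (.node 1 5 (.cons 0x2346517890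 (.cons 0x9651230874 (.cons 0x9087156432 .nil))) (.node 2 5 (.cons 0x4309876521 (.cons 0x4698071523 .nil)) .done (.node 2 7 (.cons 0x2789034651 .nil) (.leaf 0x3465127890 2 .done) .done)) .done) .done) .done)) .done)) .done) (.node 0 4 .nil (.node 1 6 (.cons 0x7890432165 .nil) (.node 3 7 (.cons 0x9873210456 (.cons 0x9087345612 (.cons 0x4561098732 .nil))) (.node 2 7 (.cons 0x9806543721 (.cons 0x4327890561 .nil)) (.node 2 5 (.cons 0x4309876521 (.cons 0x8907612543 .nil)) (.node 3 9 (.cons 0x8934521670 (.cons 0x8937601254 (.cons 0x6107893254 .nil))) .done .done) .done) .done) (.node 1 7 (.cons 0x6543217890 (.cons 0x9871650432 .nil)) (.node 6 9 (.cons 0x5432169870 (.cons 0x8712340965 (.cons 0x5407896123 .nil))) (.node 1 5 (.cons 0x2345169870 .nil) (.node 2 7 (.cons 0x8961543270 (.cons 0x3278965401 (.cons 0x9872340561 (.cons 0x8961540723 .nil)))) .done (.leaf 0x6987023451 2 .done)) .done) .done) (.node 7 9 (.cons 0x8790432165 (.cons 0x8790456123 .nil)) (.node 5 8 (.cons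 0x9078543216 (.cons 0x6079854321 .nil)) (.leaf 0x2160978543 1 .done) (.node 3 7 (.cons 0x9087345612 (.cons 0x9873210456 .nil)) (.node 4 7 (.cons 0x6547890123 .nil) (.node 6 9 (.cons 0x8732109654 (.cons 0x5698740123 (.cons 0x5698740321 .nil))) .done .done) .done) .done)) .done))) .done) .done)) .done)) .done)))
noncomputable def tc9_3_38 : T := (.node 4 6 .nil (.node 3 9 (.cons 0x6547893210 (.cons 0x5647893210 .nil)) (.leaf 0x4650123987 1 (.node 1 8 (.cons 0x9021876543 .nil) (.leaf 0x7654390218 2 (.node 1 7 (.cons 0x6543217890 (.cons 0x5643217890 .nil)) (.node 0 8 (.cons 0x9087123456 (.cons 0x9087123465 .nil)) .done .done) (.node 2 5 (.cons 0x5218934760 (.cons 0x3987645210 (.cons 0x7460521893 .nil))) (.node 0 3 (.cons 0x9812567430 .nil) (.leaf 0x6521890347 0 .done) .done) (.leaf 0x2093456781 1 .done)))) (.node 1 8 (.cons 0x2093456781 (.cons 0x9320187465 .nil)) (.node 2 7 (.cons 0x8932745601 (.cons 0x7239810645 (.cons 0x3465098721 .nil))) (.node 0 7 (.cons 0x4560723981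 (.cons 0x5460723981 .nil)) (.node 2 5 (.cons 0x4652398701 (.cons 0x8932564701 .nil)) (.leaf 0x3981074652 1 .done) .done) .done) (.leaf 0x4390218765 2 (.leaf 0x5439021876 1 .done))) .done))) (.node 3 6 (.cons 0x9874563210 .nil) (.node 1 6 .nil (.node 0 3 (.cons 0x5430987612 (.cons 0x9874305612 .nil)) (.leaf 0x5478903216 2 .done) (.node 2 6 .nil (.node 0 3 (.cons 0x9874305612 (.cons 0x5430987621 (.cons 0x9874305621 .nil))) .done (.node 6 9 .nil (.node 1 7 (.cons 0x6543217890 (.cons 0x8712345690 (.cons 0x2178963450 .nil))) .done (.node 6 8 .nil (.node 3 9 (.cons 0x6547893210 (.cons 0x7456893210 (.cons 0x5478693201 (.cons 0x9347865021 .nil)))) .done .done) .done)) .done)) .done)) (.leaf 0x2109874563 1 (.node 1 6 .nil (.node 0 3 (.cons 0x5430987612 (.cons 0x9874305612 .nil)) (.leaf 0x5478903216 2 .done) (.node 0 7 .nil (.node 3 9 (.cons 0x6547893210 (.cons 0x8932107456 (.cons 0x4398705612 .nil))) (.leaf 0x1654398702 2 .done) (.node 0 3 .nil (.node 2 7 (.cons 0x4563278901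 (.cons 0x9872165034 (.cons 0x9872304561 .nil))) .done (.node 0 8 .nil (.node 1 7 (.cons 0x6543217890 (.cons 0x9087123456 (.cons 0x9087123465 .nil))) .done .done) .done)) (.node 0 8 .nil (.node 7 9 (.cons 0x8974560123 (.cons 0x7980612345 (.cons 0x9780234561 .nil))) (.leaf 0x5479801236 1 .done) (.node 0 3 .nil (.node 2 7 (.cons 0x4563278901 (.cons 0x9872304561 .nil)) (.node 4 9 (.cons 0x5498723610 .nil) (.leaf 0x3056127894 1 (.leaf 0x549872163 1 (.leaf 0x8721650349 2 .done))) .done) .done) .done)) .done))) (.node 1 7 (.cons 0x6543217890 .nil) (.node 6 9 (.cons 0x8712345690 .nil) (.node 0 8 (.cons 0x4569087123 .nil) (.leaf 0x7123456908 0 (.node 0 3 (.cons 0x9874305612 .nil) (.node 0 7 .nil (.node 1 5 (.cons 0x6987451230 (.cons 0x6987032154 (.cons 0x4708965123 .nil))) .done .done) .done) .done)) .done) (.node 6 9 .nil (.node 5 8 (.cons 0x3458906712 (.cons 0x7123458960 (.cons 0x6902345871 (.cons 0x3217458960 .nil)))) .done (.node 2 6 (.cons 0x2634509871 .nil) (.node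 5 9 (.cons 0x5987162340 .nil) (.leaf 0x1623405987 1 (.node 5 8 (.cons 0x3217458960 .nil) (.leaf 0x7164320958 1 (.leaf 0x9067123458 1 .done)) .done)) .done) .done)) .done)) .done))) .done))) .done)) (.node 4 6 .nil (.node 1 7 (.cons 0x6543217890 (.cons 0x5643217890 .nil)) (.node 0 8 (.cons 0x9806543217 .nil) (.node 5 7 (.cons 0x9806457123 .nil) (.leaf 0x8901234657 1 (.node 5 9 (.cons 0x3459806712 .nil) (.leaf 0x3460895712 1 (.leaf 0x8067123459 1 .done)) .done)) (.node 5 9 (.cons 0x6590874321 (.cons 0x7123465980 (.cons 0x9564320871 .nil))) (.leaf 0x2346590871 2 .done) .done)) (.node 5 7 (.cons 0x8906457123 .nil) (.leaf 0x8901234657 1 (.leaf 0x6578901234 2 (.node 5 8 (.cons 0x3458906712 .nil) (.node 0 7 (.cons 0x9854321706 .nil) (.node 3 9 (.cons 0x8765439021 (.cons 0x6439850712 (.cons 0x4601758932 (.cons 0x7106458932 .nil)))) (.leaf 0x8932170645 2 .done) .done) (.leaf 0x9067123458 1 .done)) .done))) .done)) (.node 2 6 .nil (.node 1 7 (.cons 0x6543217890 (.cons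 0x9871045623 (.cons 0x6217890543 (.cons 0x5623409871 .nil)))) .done (.node 1 6 .nil (.node 5 7 (.cons 0x6123457890 .nil) (.leaf 0x8904321657 1 (.leaf 0x6578904321 2 (.node 1 7 (.cons 0x8906175432 (.cons 0x5617890432 .nil)) (.node 0 8 (.cons 0x9806543217 (.cons 0x9806175432 (.cons 0x9087432165 .nil))) .done .done) (.leaf 0x2160987543 1 .done)))) (.node 3 6 (.cons 0x7890123654 .nil) (.node 6 9 (.cons 0x8745690123 .nil) (.node 6 8 .nil (.node 2 9 (.cons 0x8745632901 (.cons 0x5478632901 .nil)) (.node 1 7 (.cons 0x6543217890 (.cons 0x7104568923 (.cons 0x8632901745 (.cons 0x8650921743 .nil)))) .done .done) .done) .done) .done) .done)) (.node 6 9 (.cons 0x8745690123 .nil) (.node 1 6 .nil (.node 0 8 (.cons 0x5690874321 (.cons 0x9087432165 .nil)) (.node 5 9 (.cons 0x5964780123 .nil) (.leaf 0x4590876123 2 (.leaf 0x7432165908 0 (.leaf 0x876123459 1 .done))) .done) (.node 3 6 (.cons 0x7890123654 .nil) (.node 6 8 .nil (.node 2 9 (.cons 0x8745632901 (.cons 0x5478632901 .nil))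 (.node 1 7 (.cons 0x6543217890 (.cons 0x7104568923 (.cons 0x8632901745 (.cons 0x8650921743 .nil)))) .done .done) .done) .done) .done)) (.node 3 6 (.cons 0x7890123654 .nil) (.node 1 6 .nil (.node 1 7 (.cons 0x5409871623 (.cons 0x5617890432 .nil)) (.node 0 8 (.cons 0x9654320871 (.cons 0x9617802345 (.cons 0x9087432165 .nil))) .done .done) (.node 6 8 .nil (.node 1 7 (.cons 0x6543217890 (.cons 0x5432096871 .nil)) (.node 2 9 (.cons 0x5617892340 (.cons 0x7104568923 (.cons 0x9217863450 (.cons 0x3478650921 .nil)))) .done .done) .done) .done)) (.node 6 8 .nil (.node 3 9 (.cons 0x8765439021 (.cons 0x3905478621 .nil)) (.node 1 7 (.cons 0x6543217890 (.cons 0x7104568932 (.cons 0x5432096871 (.cons 0x8650934712 .nil)))) .done .done) .done) .done)) .done)) .done))) .done)) (.node 0 7 .nil (.node 6 9 (.cons 0x1234569870 .nil) (.leaf 0x5698701234 2 (.leaf 0x8701234569 1 (.node 2 4 (.cons 0x3245698701 .nil) (.node 1 7 (.cons 0x3245698710 (.cons 0x8710965423 (.cons 0x6509871243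 .nil))) .done (.node 3 6 (.cons 0x7890123654 (.cons 0x9870123654 .nil)) (.node 1 3 (.cons 0x2134567890 (.cons 0x4569870132 (.cons 0x8907654312 .nil))) (.node 2 5 (.cons 0x8745236901 (.cons 0x6987013254 .nil)) (.node 4 6 (.cons 0x3125467890 (.cons 0x1325469870 .nil)) .done .done) (.node 4 6 (.cons 0x7890564312 (.cons 0x9870564312 .nil)) .done .done)) (.node 1 8 (.cons 0x9021876543 (.cons 0x9654320781 (.cons 0x5670981243 (.cons 0x7098124365 .nil)))) (.node 1 3 (.cons 0x2134567890 (.cons 0x4569870132 (.cons 0x8907654312 .nil))) (.node 1 6 (.cons 0x5098743612 (.cons 0x9618702345 .nil)) .done .done) .done) .done)) .done)) (.node 1 8 (.cons 0x9021876543 (.cons 0x5470698123 .nil)) (.node 4 6 (.cons 0x5469078123 .nil) (.node 5 7 (.cons 0x4570698123 (.cons 0x3218754690 (.cons 0x3209645781 (.cons 0x7546098123 .nil)))) .done (.node 0 3 (.cons 0x5469870321 .nil) (.node 0 8 .nil (.node 1 3 (.cons 0x2134567890 (.cons 0x9807654312 (.cons 0x9087654312 .nil))) .done .done)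 .done) .done)) (.node 1 7 (.cons 0x6543217890 .nil) (.node 0 8 (.cons 0x9806543217 .nil) (.leaf 0x7123456980 0 .done) (.node 0 8 (.cons 0x4569087123 .nil) (.leaf 0x7123456908 0 .done) .done)) (.leaf 0x7096543218 1 .done))) .done)))) (.node 0 8 .nil (.node 1 7 (.cons 0x6543217890 (.cons 0x9806543217 (.cons 0x9087123456 .nil))) .done (.node 0 3 .nil (.node 1 7 (.cons 0x6543217890 .nil) (.node 5 9 (.cons 0x3459806712 (.cons 0x8954712306 .nil)) (.leaf 0x4598067123 2 (.node 6 9 (.cons 0x6954320871 (.cons 0x4305698712 (.cons 0x4569871230 .nil))) .done .done)) (.node 1 6 (.cons 0x5430987612 .nil) (.leaf 0x8903216547 1 (.node 6 9 (.cons 0x8712345690 (.cons 0x5034789612 (.cons 0x5478961032 (.cons 0x5478961230 .nil)))) .done (.node 2 5 (.cons 0x7890432561 (.cons 0x9874305216 (.cons 0x8903476125 .nil))) (.node 6 9 (.cons 0x8712345690 (.cons 0x8712309654 .nil)) (.leaf 0x8743052169 1 .done) .done) .done))) .done)) .done) .done)) .done)) .done)))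
noncomputable def tc9_3_39 : T := (.node 2 4 .nil (.node 0 3 (.cons 0x5678903421 .nil) (.node 3 9 (.cons 0x6501247893 .nil) (.leaf 0x6542103987 1 (.node 2 5 (.cons 0x6789301254 (.cons 0x8930125476 (.cons 0x8930674521 .nil))) .done (.node 1 6 (.cons 0x2398745610 (.cons 0x7893245610 (.cons 0x9874305612 .nil))) (.node 3 8 (.cons 0x9387654201 (.cons 0x9056124387 .nil)) (.leaf 0x4567839012 2 .done) .done) .done))) (.node 3 6 (.cons 0x9874563210 (.cons 0x7890563421 .nil)) (.node 0 7 (.cons 0x9870123654 (.cons 0x9870563421 .nil)) .done (.node 1 6 (.cons 0x9874561032 (.cons 0x7890561243 .nil)) (.node 2 9 (.cons 0x5429876103 (.cons 0x7892430561 .nil)) (.leaf 0x3016547892 1 (.leaf 0x8923016547 2 .done)) .done) .done)) .done)) (.node 1 7 (.cons 0x6543217890 .nil) (.node 0 8 (.cons 0x9087123456 .nil) (.node 0 3 .nil (.node 1 5 (.cons 0x9806512347 (.cons 0x9803421567 (.cons 0x9803476512 .nil))) .done (.node 0 7 .nil (.node 1 5 (.cons 0x9806512347 (.cons 0x9807651243 (.cons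 0x9807432156 .nil))) .done .done) .done)) (.node 0 3 .nil (.node 3 8 (.cons 0x9830124567 (.cons 0x9830124765 .nil)) (.node 1 6 (.cons 0x9087165432 (.cons 0x9874305612 .nil)) (.node 5 7 (.cons 0x6754210983 (.cons 0x9830167542 (.cons 0x9875403216 .nil))) .done .done) .done) (.node 0 7 .nil (.node 5 8 (.cons 0x7658903421 (.cons 0x9856703421 .nil)) (.node 1 3 (.cons 0x9856742130 (.cons 0x9856703124 (.cons 0x8907654312 (.cons 0x6709854213 .nil)))) .done .done) .done) .done)) .done)) (.node 5 8 (.cons 0x3458906712 .nil) (.node 2 5 (.cons 0x8906712543 .nil) (.node 0 3 (.cons 0x9854306712 .nil) (.node 0 7 (.cons 0x9856703421 .nil) (.node 0 8 .nil (.node 3 9 (.cons 0x6547893210 (.cons 0x9345802176 (.cons 0x3980674521 (.cons 0x6089325471 .nil)))) .done .done) .done) (.node 0 7 (.cons 0x9854321706 .nil) (.node 0 8 .nil (.node 3 9 (.cons 0x6547893210 (.cons 0x9345802176 (.cons 0x3980674521 (.cons 0x5674210893 .nil)))) .done .done) .done) .done)) .done) (.node 0 8 .nil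 (.node 2 5 (.cons 0x8906712543 (.cons 0x9806712543 .nil)) (.node 3 9 (.cons 0x6547893210 (.cons 0x3980674521 (.cons 0x5674210893 (.cons 0x6089325471 .nil)))) (.leaf 0x2398065471 2 .done) .done) (.node 0 3 .nil (.node 1 9 (.cons 0x7432198065 (.cons 0x5674308912 (.cons 0x6503478912 .nil))) (.leaf 0x3456789120 0 .done) (.node 0 7 .nil (.node 1 8 (.cons 0x9021876543 (.cons 0x9812345607 .nil)) (.node 3 9 (.cons 0x6547893210 (.cons 0x8932107456 (.cons 0x6589324701 .nil))) (.leaf 0x2093456781 1 .done) .done) .done) .done)) .done)) (.leaf 0x9067123458 1 .done))) (.node 0 3 (.cons 0x8903421765 .nil) (.node 0 8 .nil (.node 1 5 (.cons 0x4309876512 (.cons 0x9803421567 (.cons 0x9803476512 .nil))) (.node 4 6 (.cons 0x5643217890 (.cons 0x9087123465 (.cons 0x9087156432 .nil))) .done .done) (.node 0 7 .nil (.node 5 8 (.cons 0x3421765890 (.cons 0x9856703421 .nil)) (.node 1 9 (.cons 0x6503478912 (.cons 0x6589123074 (.cons 0x6074589123 (.cons 0x6589124703 .nil)))) .done .done)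 .done) .done)) (.node 0 7 .nil (.node 3 8 (.cons 0x5671243890 (.cons 0x9834217056 (.cons 0x5670983421 .nil))) (.node 1 8 (.cons 0x5671890342 (.cons 0x9812345607 .nil)) (.node 3 9 (.cons 0x6547893210 (.cons 0x8932107456 (.cons 0x5607439812 .nil))) .done .done) .done) .done) .done)) .done))) .done)) (.node 1 7 (.cons 0x6543217890 .nil) (.node 0 8 (.cons 0x9806543217 .nil) (.node 0 3 .nil (.node 6 9 (.cons 0x5690874321 (.cons 0x4305698712 (.cons 0x4569871032 (.cons 0x4569871230 .nil)))) .done (.node 0 7 .nil (.node 3 6 (.cons 0x7890123654 (.cons 0x9870123654 .nil)) (.node 1 6 (.cons 0x9087432165 .nil) (.node 2 4 (.cons 0x9871650342 (.cons 0x9870561243 .nil)) (.node 1 3 (.cons 0x2134567890 (.cons 0x8907654312 .nil)) (.node 3 8 (.cons 0x9830176542 (.cons 0x9834216507 .nil)) .done .done) .done) .done) (.node 2 4 (.cons 0x9871243650 (.cons 0x9870563421 .nil)) (.leaf 0x5634217890 0 .done) .done)) .done) .done)) (.node 0 3 .nil (.node 6 9 (.cons 0x9654320871 (.cons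 0x4305698712 (.cons 0x4569871032 (.cons 0x4569871230 .nil)))) .done (.node 0 7 .nil (.node 2 4 (.cons 0x5678903421 .nil) (.node 6 9 (.cons 0x7896503421 (.cons 0x3245698701 .nil)) (.leaf 0x8701234569 1 (.node 1 3 (.cons 0x2134567890 (.cons 0x7089654231 (.cons 0x6987054213 .nil))) (.node 1 5 (.cons 0x9876512430 .nil) (.node 2 6 (.cons 0x7154089623 (.cons 0x9807156234 .nil)) .done .done) .done) .done)) (.node 5 8 (.cons 0x9856712430 (.cons 0x9856703421 .nil)) (.node 4 9 (.cons 0x6587490321 (.cons 0x6589421703 (.cons 0x6589423071 .nil))) .done .done) .done)) .done) .done)) .done)) (.node 5 8 (.cons 0x3458906712 .nil) (.node 0 3 (.cons 0x9854306712 .nil) (.node 0 7 (.cons 0x9854321706 .nil) (.node 0 8 .nil (.node 6 9 (.cons 0x7123458960 (.cons 0x5690874321 (.cons 0x9608547123 .nil))) (.node 1 3 (.cons 0x2134567890 (.cons 0x9654780132 (.cons 0x9087654312 (.cons 0x9671345802 .nil)))) .done .done) .done) .done) (.node 0 7 (.cons 0x9854321706 .nil) (.node 0 8 .nil (.node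 6 9 (.cons 0x7123458960 (.cons 0x5690874321 (.cons 0x9608547123 .nil))) (.node 1 3 (.cons 0x2134567890 (.cons 0x9654780132 (.cons 0x9087654312 (.cons 0x9671345802 .nil)))) (.node 2 9 (.cons 0x4785692310 (.cons 0x9213476580 (.cons 0x9213476085 (.cons 0x5806923471 (.cons 0x3296085471 .nil))))) .done .done) .done) .done) .done) .done)) (.node 0 8 .nil (.node 5 9 (.cons 0x3459806712 .nil) (.node 6 8 (.cons 0x7123459860 (.cons 0x1234786590 (.cons 0x8609547123 .nil))) .done (.leaf 0x4598067123 2 (.leaf 0x8067123459 1 .done))) (.node 1 8 (.cons 0x9021876543 .nil) (.node 0 7 (.cons 0x9812345607 .nil) (.node 0 3 .nil (.node 6 9 (.cons 0x5690874321 (.cons 0x9650347812 (.cons 0x9654781032 (.cons 0x9654781230 .nil)))) .done .done) .done) (.node 3 9 (.cons 0x8765439021 .nil) (.node 5 9 (.cons 0x6590874321 .nil) (.node 5 7 (.cons 0x6574390812 .nil) (.node 4 8 (.cons 0x9321084756 .nil) (.node 0 3 (.cons 0x7654893012 .nil) (.node 0 7 (.cons 0x3984567012 .nil) .done .done)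 .done) .done) .done) (.leaf 0x2093456781 1 (.node 4 8 (.cons 0x5678439021 .nil) (.node 1 4 (.cons 0x6587410932 .nil) (.node 1 9 (.cons 0x5678439120 .nil) .done .done) .done) (.leaf 0x5439021876 1 .done)))) .done)) .done)) (.leaf 0x9067123458 1 .done))) (.node 2 4 (.cons 0x6509871243 .nil) (.node 4 6 (.cons 0x5643217890 .nil) (.node 4 8 (.cons 0x7123489065 .nil) (.node 4 9 .nil (.node 5 8 (.cons 0x9023465871 (.cons 0x7123498560 (.cons 0x7106589423 (.cons 0x3209465871 .nil)))) .done (.node 1 4 .nil (.node 5 9 (.cons 0x3246598710 (.cons 0x8714320956 (.cons 0x8714659023 .nil))) .done .done) .done)) .done) .done) (.node 0 3 (.cons 0x8903421765 .nil) (.node 3 6 (.cons 0x4365098712 .nil) (.node 0 7 (.cons 0x9870123654 .nil) (.node 0 8 (.cons 0x9805634217 .nil) .done .done) (.node 1 6 .nil (.node 3 7 (.cons 0x8901245673 (.cons 0x4561098732 .nil)) (.leaf 0x1654237890 0 (.node 2 8 (.cons 0x5437609821 (.cons 0x9821605437 (.cons 0x9054361287 (.cons 0x9056128743 .nil))))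 (.leaf 0x9056173428 1 .done) .done)) (.node 1 4 (.cons 0x5678903412 .nil) (.node 4 6 (.cons 0x5643217890 .nil) (.node 4 9 (.cons 0x7894305612 .nil) .done .done) .done) .done)) (.leaf 0x5098712436 0 .done))) (.node 0 7 .nil (.node 3 8 (.cons 0x5671243890 (.cons 0x9834217056 (.cons 0x5670983421 .nil))) (.node 3 7 (.cons 0x8901245673 .nil) (.leaf 0x1245673890 0 .done) .done) .done) .done)) .done)) .done))) (.node 0 7 .nil (.node 6 9 (.cons 0x1234569870 .nil) (.leaf 0x5698701234 2 (.leaf 0x8701234569 1 (.node 2 4 (.cons 0x3245698701 .nil) (.node 1 7 (.cons 0x3245698710 (.cons 0x8710965423 (.cons 0x6509871243 .nil))) (.node 3 6 (.cons 0x2365478901 (.cons 0x5423698710 (.cons 0x8710963245 (.cons 0x5632478901 .nil)))) .done .done) (.node 1 8 (.cons 0x9021876543 (.cons 0x9654320781 (.cons 0x5670981243 .nil))) (.node 1 5 (.cons 0x3451876902 (.cons 0x7069815432 (.cons 0x6907815432 .nil))) (.node 6 8 (.cons 0x9681543207 (.cons 0x2347098651 .nil)) (.leaf 0x5689074321 2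 (.node 1 3 (.cons 0x2134567890 (.cons 0x4569870132 (.cons 0x7096813245 (.cons 0x5689074231 .nil)))) .done .done)) .done) (.node 3 6 (.cons 0x2365478901 (.cons 0x9870123654 (.cons 0x7098124365 .nil))) (.node 3 7 (.cons 0x8965423701 .nil) (.leaf 0x8734569021 2 (.node 4 8 (.cons 0x9012365487 (.cons 0x5698423701 .nil)) .done .done)) .done) .done)) .done)) (.node 1 8 (.cons 0x3209654781 (.cons 0x9812345607 .nil)) (.node 2 5 (.cons 0x7609812543 (.cons 0x3254706981 (.cons 0x6709812543 .nil))) (.node 5 7 (.cons 0x4570698123 .nil) (.node 4 6 (.cons 0x3218754690 (.cons 0x5469078123 .nil)) (.node 1 3 (.cons 0x2134567890 (.cons 0x5470698132 (.cons 0x8907654312 (.cons 0x9870564312 .nil)))) (.node 3 9 (.cons 0x8765439021 (.cons 0x8123964570 (.cons 0x8705469312 (.cons 0x5469320781 .nil)))) (.leaf 0x218765439 1 .done) .done) .done) .done) .done) (.node 1 5 (.cons 0x4781569023 (.cons 0x9815607432 (.cons 0x6518907432 .nil))) (.node 1 6 (.cons 0x9023478165 (.cons 0x5407896123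 .nil)) .done .done) (.leaf 0x7096543218 1 .done))) .done)))) (.node 0 3 .nil (.node 2 4 (.cons 0x9876542103 .nil) (.node 1 6 (.cons 0x9874561032 (.cons 0x5610987423 .nil)) (.node 3 9 (.cons 0x8761209345 .nil) (.leaf 0x6542103987 1 (.node 1 8 (.cons 0x9347816502 (.cons 0x9023478165 (.cons 0x5618743902 .nil))) (.leaf 0x218765439 1 .done) (.leaf 0x1654789320 0 .done))) (.node 3 6 (.cons 0x9870563421 (.cons 0x5632478901 .nil)) (.node 1 5 (.cons 0x9870156324 (.cons 0x8907651243 .nil)) (.node 1 9 (.cons 0x8763451902 (.cons 0x8743209156 .nil)) (.leaf 0x563421987 1 (.leaf 0x3456789120 0 .done)) .done) .done) .done)) (.node 2 6 (.cons 0x3265478901 (.cons 0x9874562301 .nil)) (.node 1 4 (.cons 0x7890562143 (.cons 0x9874103265 (.cons 0x7890341265 .nil))) (.node 1 6 (.cons 0x9874561032 .nil) (.node 5 8 (.cons 0x9014785623 (.cons 0x9856703421 (.cons 0x9078561432 (.cons 0x9032658741 .nil)))) .done .done) .done) (.node 1 7 (.cons 0x6543217890 .nil) (.node 6 9 (.cons 0x8965071243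 (.cons 0x4305698712 (.cons 0x5403269871 .nil))) .done (.node 0 8 (.cons 0x9087123456 .nil) (.node 4 9 (.cons 0x3265490871 (.cons 0x8712654903 .nil)) .done .done) (.leaf 0x987126543 0 .done))) .done)) .done)) (.node 0 8 .nil (.node 1 7 (.cons 0x6543217890 (.cons 0x9806543217 (.cons 0x9087123456 .nil))) (.node 5 9 (.cons 0x3459806712 .nil) (.node 3 8 (.cons 0x6017459832 (.cons 0x6783459021 (.cons 0x4387659021 .nil))) .done (.leaf 0x4598067123 2 (.node 5 8 (.cons 0x3458906712 .nil) (.node 1 6 (.cons 0x7160895432 (.cons 0x6178095432 .nil)) (.node 2 5 (.cons 0x8906712543 (.cons 0x8907432561 (.cons 0x8906174523 .nil))) .done (.node 1 8 (.cons 0x9021876543 .nil) (.node 1 9 (.cons 0x9165874320 (.cons 0x9165802347 .nil)) .done .done) .done)) (.leaf 0x9067123458 1 .done)) (.leaf 0x8067123459 1 .done)))) .done) .done) .done)) .done)) .done)))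
noncomputable def tc9_3_40 : T := (.node 1 6 (.cons 0x7890561234 .nil) (.node 4 7 (.cons 0x6547890123 .nil) (.leaf 0x2347890561 1 (.node 3 8 (.cons 0x9012387456 (.cons 0x9021678345 (.cons 0x9016547832 .nil))) (.node 1 7 (.cons 0x9834506712 (.cons 0x6509871234 .nil)) (.node 5 7 (.cons 0x6123457890 .nil) (.node 4 6 (.cons 0x9871234650 .nil) (.node 0 7 (.cons 0x9870564321 .nil) (.node 0 4 (.cons 0x2340987561 .nil) (.leaf 0x9875612340 1 (.node 2 9 (.cons 0x6540178923 (.cons 0x5438921670 (.cons 0x3298754610 (.cons 0x5617892340 (.cons 0x3298716540 .nil))))) .done .done)) .done) (.leaf 0x5643217890 2 .done)) (.leaf 0x2160987543 1 .done)) .done) (.node 3 9 (.cons 0x8765439021 (.cons 0x8761209345 (.cons 0x8745610932 .nil))) (.node 4 9 (.cons 0x5678349021 (.cons 0x7834902165 (.cons 0x5610947832 .nil))) (.node 1 9 (.cons 0x8743219056 .nil) (.node 5 9 (.cons 0x4783216590 .nil) (.leaf 0x7612095438 1 .done) .done) .done) .done) .done)) (.node 3 6 (.cons 0x9874501236 (.cons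 0x5478901632 .nil)) (.node 4 6 (.cons 0x7890564321 .nil) (.node 1 7 (.cons 0x9871234650 .nil) (.node 6 9 (.cons 0x4321789650 (.cons 0x8745096321 .nil)) (.node 2 8 (.cons 0x5478236901 (.cons 0x9632874501 (.cons 0x9054367821 (.cons 0x5069823471 (.cons 0x3289605471 .nil))))) .done .done) (.leaf 0x2346509871 1 .done)) (.node 1 7 (.cons 0x2346509871 .nil) (.leaf 0x5643217890 2 (.leaf 0x564321789 1 .done)) .done)) (.node 0 3 (.cons 0x5430987612 .nil) (.node 2 6 (.cons 0x5478903261 .nil) (.node 3 9 (.cons 0x8765439021 (.cons 0x1267893450 .nil)) (.leaf 0x6210543987 1 .done) .done) .done) .done)) (.leaf 0x9874321650 1 .done)))) (.node 0 7 (.cons 0x9870543216 (.cons 0x9870561234 .nil)) (.node 4 7 (.cons 0x6547890123 .nil) (.node 6 9 (.cons 0x1234789650 .nil) (.leaf 0x8743210569 1 (.node 3 9 (.cons 0x6547893210 (.cons 0x2167893450 (.cons 0x6501239874 .nil))) (.node 1 3 (.cons 0x2134567890 (.cons 0x6789054312 (.cons 0x4789650132 .nil))) (.node 3 6 (.cons 0x9874563210 .nil)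 (.leaf 0x2109874563 1 .done) .done) .done) (.node 0 3 (.cons 0x6987450321 (.cons 0x4789650321 .nil)) .done .done))) (.leaf 0x3216509874 1 (.node 7 9 (.cons 0x8974321605 (.cons 0x8974506123 .nil)) (.node 1 8 (.cons 0x9021876543 .nil) (.leaf 0x4320798165 1 (.leaf 0x3456189702 2 (.leaf 0x4560978123 1 .done))) .done) .done))) .done) (.leaf 0x4509876123 0 .done))) (.node 0 4 .nil (.node 1 6 (.cons 0x7890432165 .nil) (.node 0 3 (.cons 0x5430987612 .nil) (.node 3 9 (.cons 0x8765439021 (.cons 0x8761209345 .nil)) (.node 0 8 .nil (.node 2 7 (.cons 0x9872165034 (.cons 0x6127890543 (.cons 0x1276543980 (.cons 0x7216508934 (.cons 0x3980456721 .nil))))) .done (.node 0 7 (.cons 0x5439807612 .nil) (.node 2 5 (.cons 0x4309876521 (.cons 0x7612543980 .nil)) (.leaf 0x8934521670 2 (.leaf 0x9807612543 1 .done)) .done) (.node 0 7 .nil (.node 1 9 (.cons 0x9165432087 .nil) (.leaf 0x4320789165 1 (.leaf 0x3456198702 2 (.node 3 8 (.cons 0x9021678345 (.cons 0x7065438912 .nil)) .done .done)))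 (.node 5 8 (.cons 0x9854321607 .nil) (.node 1 7 (.cons 0x9854321706 (.cons 0x9087165432 (.cons 0x8567120934 .nil))) .done (.leaf 0x9076123458 1 .done)) .done)) .done))) (.node 4 7 (.cons 0x2398745610 (.cons 0x8745610932 .nil)) (.node 2 5 (.cons 0x4309876521 (.cons 0x9874305216 (.cons 0x8903476125 .nil))) (.node 1 8 (.cons 0x7452398160 (.cons 0x7816543902 .nil)) (.leaf 0x4390218765 2 (.leaf 0x9325478160 0 .done)) .done) (.leaf 0x1654789320 0 .done)) .done)) (.node 3 9 (.cons 0x8765439021 (.cons 0x8761209345 .nil)) (.node 4 7 (.cons 0x9874561032 .nil) (.node 2 8 (.cons 0x7654012893 (.cons 0x9056128743 (.cons 0x9032874561 .nil))) (.leaf 0x5093478216 1 (.leaf 0x934782165 2 .done)) (.node 3 5 (.cons 0x6109874532 .nil) (.leaf 0x4789061235 2 (.node 7 9 (.cons 0x8974532106 (.cons 0x8974350612 (.cons 0x8790234561 (.cons 0x8974532160 .nil)))) .done (.node 2 8 (.cons 0x8210935476 (.cons 0x5476103982 (.cons 0x9043567821 (.cons 0x8216745390 .nil)))) (.node 3 6 (.cons 0x7639821045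 (.cons 0x5098743612 .nil)) .done .done) .done))) (.node 1 9 (.cons 0x8743209165 .nil) (.node 3 8 (.cons 0x9021678345 .nil) (.node 5 7 (.cons 0x2198345760 (.cons 0x8345760912 .nil)) (.leaf 0x6754389120 2 (.leaf 0x2160987543 1 .done)) (.leaf 0x4783209165 1 (.leaf 0x238745619 1 .done))) (.node 4 9 (.cons 0x7894561032 .nil) (.node 1 8 (.cons 0x9023478165 .nil) (.node 0 7 (.cons 0x5670439812 .nil) (.leaf 0x4398120765 1 .done) (.node 2 5 (.cons 0x7609812543 (.cons 0x3016789452 (.cons 0x7618903452 (.cons 0x8167452093 .nil)))) .done .done)) .done) .done)) .done))) (.node 4 7 (.cons 0x9874561032 (.cons 0x8743905612 .nil)) (.node 5 8 (.cons 0x7439850612 (.cons 0x7458906123 .nil)) (.leaf 0x216785439 1 (.leaf 0x934785612 0 .done)) (.node 1 8 (.cons 0x9347816502 (.cons 0x9023478165 (.cons 0x5618743902 .nil))) (.leaf 0x218765439 1 .done) .done)) .done)) .done)) (.node 0 7 (.cons 0x9870432165 .nil) (.node 6 9 (.cons 0x5432169870 (.cons 0x5407896123 .nil)) (.node 1 7 (.cons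 0x6543217890 (.cons 0x8712340965 .nil)) (.node 3 9 (.cons 0x8765439021 .nil) (.leaf 0x2165407893 1 (.node 1 8 (.cons 0x9021876543 .nil) (.node 5 7 (.cons 0x3457609812 (.cons 0x8756904321 (.cons 0x6104578932 (.cons 0x6123987540 .nil)))) (.leaf 0x4321875690 0 .done) (.leaf 0x2093456781 1 .done)) (.node 1 8 (.cons 0x2093456781 .nil) (.leaf 0x4390218765 2 (.leaf 0x5439021876 1 .done)) .done))) .done) (.leaf 0x8705432169 1 .done)) (.node 2 9 (.cons 0x1654329870 (.cons 0x7892165043 (.cons 0x3298704561 .nil))) (.node 1 9 (.cons 0x2345619870 (.cons 0x5619870432 .nil)) (.leaf 0x4320789165 1 (.node 3 8 (.cons 0x9165438702 (.cons 0x7654012983 .nil)) (.leaf 0x1654387029 2 (.leaf 0x6192078345 1 (.node 2 7 (.cons 0x9165438720 (.cons 0x3892765401 (.cons 0x5401672983 (.cons 0x7298340561 (.cons 0x9165402783 .nil))))) .done .done))) .done)) (.node 3 6 (.cons 0x7892163450 (.cons 0x7892163405 (.cons 0x7892361045 .nil))) (.node 5 8 (.cons 0x9236107854 (.cons 0x9210458763 (.cons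 0x9236104587 (.cons 0x3678540921 .nil)))) .done .done) .done)) .done)) (.node 7 9 (.cons 0x8790432165 (.cons 0x8790456123 .nil)) (.node 3 8 (.cons 0x7983210654 (.cons 0x4387905612 (.cons 0x4561097832 .nil))) (.node 4 7 (.cons 0x8974560123 (.cons 0x9012387456 (.cons 0x9016547832 .nil))) (.node 1 7 (.cons 0x8971234560 .nil) (.node 2 5 (.cons 0x9834712506 (.cons 0x6745210983 (.cons 0x3890674521 .nil))) (.leaf 0x6098345217 0 .done) .done) .done) (.leaf 0x9783456120 1 .done)) (.node 5 8 (.cons 0x6123458790 .nil) (.node 1 7 (.cons 0x6543217890 (.cons 0x6043217985 .nil)) (.node 6 8 (.cons 0x5432179860 (.cons 0x5409786123 .nil)) (.leaf 0x1798605432 0 (.leaf 0x7905432168 1 .done)) .done) (.leaf 0x3409785612 0 (.leaf 0x2160978543 1 .done))) (.node 1 8 (.cons 0x2345618790 (.cons 0x5618790432 .nil)) (.node 0 7 (.cons 0x2345607981 .nil) (.leaf 0x4321897065 1 (.leaf 0x3218970654 2 .done)) (.node 2 6 (.cons 0x5432618790 (.cons 0x5409781623 .nil)) (.node 5 9 (.cons 0x6781209543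 (.cons 0x3261879540 .nil)) (.leaf 0x1623405978 1 .done) (.node 1 7 (.cons 0x6543217890 (.cons 0x9871265043 .nil)) (.node 2 8 (.cons 0x1654328790 (.cons 0x5604328971 (.cons 0x3287904561 .nil))) .done .done) .done)) (.node 3 9 (.cons 0x8765439021 .nil) (.node 1 3 (.cons 0x2134567890 (.cons 0x5678904312 .nil)) (.node 6 9 (.cons 0x7812096543 (.cons 0x5697813402 (.cons 0x8796540231 .nil))) .done (.node 2 6 (.cons 0x5431267890 (.cons 0x5409876213 .nil)) (.leaf 0x7813456209 1 (.node 2 5 (.cons 0x8790526134 (.cons 0x7981340625 (.cons 0x6789045213 .nil))) (.leaf 0x4098765213 0 .done) .done)) .done)) (.leaf 0x2093456781 1 (.node 1 5 (.cons 0x8765120934 (.cons 0x2156789340 .nil)) (.node 2 8 (.cons 0x1654328790 (.cons 0x7651289340 (.cons 0x7651289043 (.cons 0x3287904561 .nil)))) (.leaf 0x3405612879 0 .done) .done) .done))) .done))) .done))) .done))) (.node 4 7 (.cons 0x6547890123 .nil) tc9_3_39 (.node 4 7 (.cons 0x6547890123 .nil) tc9_3_38 .done))) (.node 0 3 .nil tc9_3_37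 .done)))
noncomputable def uc9_3_9 : T := tc9_3_40
theorem sub_c9_3_9 : root 9 refs9_3 [] 0x700000008706000000006030000000030500006000504000000004010000000010300000000302700000002018006000710 0xfe7fff3fffb7ff97ffcfffedfff5ff73fff9fe3d 9 0 5 .nil uc9_3_9 = true := by decide +kernel
noncomputable def tc9_3_41 : T := (.node 3 6 (.cons 0x9874563210 .nil) (.node 1 6 .nil (.node 0 3 (.cons 0x5430987612 .nil) (.leaf 0x5478903216 2 (.node 0 5 (.cons 0x3450987612 .nil) (.leaf 0x2347890561 1 (.node 7 9 (.cons 0x8790654321 (.cons 0x8790612345 (.cons 0x8974305612 (.cons 0x8974561230 .nil)))) .done .done)) .done)) (.node 2 6 .nil (.node 1 3 (.cons 0x2134567890 (.cons 0x5431267890 .nil)) (.leaf 0x2654789013 0 (.node 0 5 (.cons 0x9874312650 .nil) (.leaf 0x1347890562 1 (.leaf 0x2678905431 1 .done)) .done)) (.node 2 9 (.cons 0x4563298701 .nil) (.node 2 8 (.cons 0x7098234561 .nil) (.node 4 6 .nil (.node 1 8 (.cons 0x7098165432 (.cons 0x7018923645 (.cons 0x5647018923 .nil)))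 (.leaf 0x745632981 2 .done) (.node 6 8 (.cons 0x3298654701 .nil) (.node 6 9 .nil (.node 1 5 (.cons 0x1568923470 (.cons 0x4320789651 (.cons 0x3478965120 .nil))) (.leaf 0x2347015689 2 .done) .done) .done) .done)) (.node 2 7 (.cons 0x8907234561 .nil) (.node 2 4 .nil (.node 3 9 (.cons 0x6547893210 (.cons 0x8932470165 .nil)) (.node 3 8 (.cons 0x8392106745 (.cons 0x9832470165 (.cons 0x8390167245 .nil))) .done (.leaf 0x5423987016 0 .done)) .done) .done) .done)) (.node 2 7 (.cons 0x8907234561 .nil) (.node 4 6 (.cons 0x5463298701 .nil) (.node 2 8 (.cons 0x7098234561 .nil) (.node 1 8 (.cons 0x7098165432 .nil) (.leaf 0x4327098165 1 (.leaf 0x3456189072 2 (.node 0 8 (.cons 0x9270816345 .nil) (.node 4 8 (.cons 0x7016329845 .nil) .done .done) .done))) .done) .done) .done) .done)) .done)) (.node 0 5 (.cons 0x9874321650 .nil) (.node 0 3 .nil (.node 2 9 (.cons 0x4563298701 (.cons 0x8921674305 .nil)) (.leaf 0x1036547892 1 (.leaf 0x7892301654 1 .done)) (.node 0 4 (.cons 0x7890432165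 .nil) (.node 0 8 (.cons 0x9805612347 .nil) .done .done) .done)) (.node 0 8 .nil (.node 1 3 (.cons 0x2134567890 (.cons 0x9087654312 (.cons 0x9802134765 .nil))) (.node 1 7 (.cons 0x6543217890 (.cons 0x9087123456 .nil)) .done .done) (.node 0 3 (.cons 0x9874305612 .nil) (.node 0 4 (.cons 0x7890432165 .nil) .done .done) .done)) .done)) .done))) (.node 0 3 .nil (.node 1 6 (.cons 0x5430987612 .nil) (.leaf 0x5478903216 2 (.node 2 9 (.cons 0x1654329870 (.cons 0x8921036745 .nil)) (.leaf 0x3016547892 1 (.leaf 0x8923016547 2 .done)) (.leaf 0x2309874561 1 .done))) (.node 0 8 (.cons 0x9801236547 .nil) (.node 0 5 .nil (.node 6 9 (.cons 0x1234789650 (.cons 0x6987450321 .nil)) (.leaf 0x8743210569 1 (.leaf 0x547896321 0 .done)) (.node 0 4 .nil (.node 1 6 (.cons 0x5430987612 (.cons 0x7890432165 .nil)) (.node 2 6 (.cons 0x5430987621 .nil) (.node 5 9 (.cons 0x2167895430 (.cons 0x7895612043 (.cons 0x7895403261 (.cons 0x3045987612 .nil)))) .done .done) .done) .done) .done)) .done)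 .done)) (.leaf 0x2109874563 1 (.node 4 6 .nil (.node 3 9 (.cons 0x6547893210 (.cons 0x5647893210 .nil)) (.node 0 5 (.cons 0x8934765021 .nil) (.node 1 5 (.cons 0x8934765120 (.cons 0x9870234651 (.cons 0x7890215643 .nil))) (.node 1 7 (.cons 0x6543217890 (.cons 0x5643217890 .nil)) (.node 2 8 (.cons 0x2890543671 (.cons 0x9823645017 (.cons 0x9015463287 (.cons 0x8239071546 .nil)))) .done .done) .done) (.leaf 0x4650123987 1 .done)) (.node 5 7 (.cons 0x8754609321 .nil) (.leaf 0x8901234657 1 (.node 1 8 (.cons 0x5439067812 (.cons 0x9018754632 (.cons 0x9021875643 .nil))) (.leaf 0x7564390218 2 (.leaf 0x9321875460 0 .done)) .done)) .done)) (.node 6 9 .nil (.node 1 5 (.cons 0x4320789651 (.cons 0x3478965120 .nil)) (.leaf 0x8743201569 1 (.leaf 0x7432015698 2 (.leaf 0x9632015478 0 .done))) (.node 3 9 (.cons 0x6547893210 .nil) (.node 6 8 (.cons 0x7456893210 .nil) (.leaf 0x3986547012 1 (.node 2 6 (.cons 0x8932654701 .nil) (.node 1 6 .nil (.node 0 3 (.cons 0x5430987612 .nil) (.leaf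 0x5478903216 2 .done) .done) .done) .done)) (.node 7 9 (.cons 0x8790654321 .nil) (.node 5 7 .nil (.node 1 8 (.cons 0x5439067812 (.cons 0x5764398120 (.cons 0x9810236475 (.cons 0x7564321890 (.cons 0x5746398102 .nil))))) .done (.node 2 7 (.cons 0x4563278901 .nil) (.node 1 7 (.cons 0x6543217890 .nil) (.node 3 7 .nil (.node 0 5 (.cons 0x1234789650 (.cons 0x8965012374 (.cons 0x8905643712 .nil))) .done .done) .done) .done) .done)) .done) .done)) (.node 7 9 (.cons 0x8790654321 .nil) (.node 2 9 .nil (.node 1 8 (.cons 0x6097812345 (.cons 0x9234560781 (.cons 0x9236018745 (.cons 0x5647018923 (.cons 0x7812906543 .nil))))) .done (.node 3 9 (.cons 0x6547893210 .nil) (.node 1 9 (.cons 0x2365478910 .nil) (.node 4 9 (.cons 0x8749321065 .nil) (.node 5 9 (.cons 0x4789563201 .nil) .done .done) .done) .done) .done)) (.node 1 7 (.cons 0x6543217890 .nil) (.node 0 8 (.cons 0x5647980123 .nil) (.leaf 0x7123456908 0 (.node 0 5 (.cons 0x8974650123 .nil) (.node 6 8 (.cons 0x1234798650 .nil)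 (.leaf 0x5689743210 2 (.node 0 3 (.cons 0x8712309654 .nil) (.node 0 4 (.cons 0x9043217865 .nil) .done .done) .done)) .done) .done)) (.node 0 5 (.cons 0x8974650123 .nil) (.node 3 8 (.cons 0x5647983210 .nil) (.leaf 0x1238974650 1 (.leaf 0x5471238960 1 (.node 6 8 (.cons 0x1234798650 .nil) (.leaf 0x5689743210 2 .done) .done))) (.node 0 8 (.cons 0x5647980123 .nil) (.node 3 8 (.cons 0x5647983210 .nil) (.leaf 0x6501238974 2 (.leaf 0x4650123897 1 .done)) .done) .done)) .done)) .done)) .done))) .done)) .done)))) (.node 1 7 (.cons 0x6543217890 .nil) (.node 5 7 .nil (.node 4 6 (.cons 0x6457890123 .nil) (.leaf 0x8901234657 1 (.node 1 9 (.cons 0x5643207891 (.cons 0x8754321906 (.cons 0x8756091234 (.cons 0x3465789120 .nil)))) (.leaf 0x5643201987 1 .done) (.leaf 0x9875643210 2 (.node 1 8 (.cons 0x9065432187 (.cons 0x9065781234 .nil)) (.leaf 0x2346571890 0 (.node 1 9 (.cons 0x8917564320 (.cons 0x8754321906 (.cons 0x8756091234 .nil))) (.leaf 0x6432019875 2 .done) .done)) .done))))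 (.node 7 9 (.cons 0x8790654321 .nil) (.node 2 7 .nil (.node 1 6 (.cons 0x8790612345 (.cons 0x8907234561 .nil)) (.node 1 3 (.cons 0x2134567890 .nil) (.node 0 8 (.cons 0x9087654312 (.cons 0x9087213456 .nil)) (.node 6 9 (.cons 0x8745690123 (.cons 0x8096721345 (.cons 0x8723109654 .nil))) (.leaf 0x7213456908 0 .done) .done) (.leaf 0x5431278906 1 (.leaf 0x7213456098 1 .done))) .done) .done) (.node 3 7 .nil (.node 1 5 (.cons 0x8790651234 (.cons 0x8902156734 (.cons 0x6512098734 .nil))) (.node 4 8 (.cons 0x6512348790 .nil) (.leaf 0x2348790651 1 (.node 1 6 (.cons 0x6123754890 .nil) (.leaf 0x4573216098 1 (.node 0 5 (.cons 0x7890561234 (.cons 0x5098437612 (.cons 0x4378905612 .nil))) .done .done)) (.node 6 9 (.cons 0x8745690123 (.cons 0x5698437120 .nil)) (.leaf 0x5690123784 2 (.node 0 4 (.cons 0x3217896540 (.cons 0x5698402173 (.cons 0x8732154096 .nil))) .done .done)) (.leaf 0x9784321560 1 .done)))) .done) (.node 2 7 .nil (.node 0 3 (.cons 0x8903456721 .nil) (.node 6 9 (.cons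 0x8745690123 (.cons 0x4569871032 (.cons 0x4569871230 .nil))) (.node 0 8 (.cons 0x5430896712 .nil) (.node 1 8 (.cons 0x2345698170 (.cons 0x5690812743 .nil)) (.leaf 0x7189654320 2 .done) .done) .done) .done) .done) .done)) .done)) .done)) (.node 7 9 (.cons 0x8790654321 .nil) (.node 3 7 .nil (.node 1 9 (.cons 0x8734560912 .nil) (.node 6 8 (.cons 0x9068712345 (.cons 0x5687432190 (.cons 0x5687432091 .nil))) (.leaf 0x5432190786 0 (.node 1 5 (.cons 0x6519870234 (.cons 0x8902156734 (.cons 0x6512098734 .nil))) (.node 3 5 (.cons 0x4356789120 (.cons 0x4786532091 .nil)) (.leaf 0x9123547860 0 .done) .done) .done)) (.node 2 8 (.cons 0x8219067345 .nil) (.node 1 4 (.cons 0x5678902143 (.cons 0x5670289143 (.cons 0x5609782143 .nil))) .done (.node 0 8 (.cons 0x9128067345 (.cons 0x5608219734 .nil)) (.node 0 3 (.cons 0x9821037654 .nil) (.leaf 0x8219765430 0 .done) .done) (.leaf 0x5609128734 0 .done))) .done)) (.node 2 7 .nil (.node 3 6 (.cons 0x7890123654 (.cons 0x4563278901 .nil))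 (.node 4 8 (.cons 0x5609784321 (.cons 0x9845632701 (.cons 0x5489012763 (.cons 0x9845637210 (.cons 0x7236548901 .nil))))) .done (.node 1 3 (.cons 0x2134567890 .nil) (.node 0 8 (.cons 0x9087654312 (.cons 0x9087213456 .nil)) (.node 6 9 (.cons 0x4569873210 (.cons 0x8096721345 (.cons 0x8723109654 .nil))) (.leaf 0x7213456908 0 .done) .done) (.leaf 0x5431278906 1 .done)) .done)) (.node 5 7 .nil (.node 1 4 (.cons 0x5678902143 (.cons 0x6578902143 .nil)) (.node 4 6 (.cons 0x9875641023 .nil) (.leaf 0x8901234657 1 (.leaf 0x9875643210 2 .done)) (.node 1 8 (.cons 0x6541890723 (.cons 0x9814320756 (.cons 0x6570981432 .nil))) (.node 2 9 (.cons 0x9218734560 (.cons 0x6092187543 .nil)) (.leaf 0x3756029814 0 .done) .done) .done)) .done) .done)) .done)) (.node 5 7 .nil (.node 4 6 (.cons 0x6457890123 .nil) (.leaf 0x8901234657 1 (.node 1 9 (.cons 0x5643207891 (.cons 0x8756091234 (.cons 0x3465789120 .nil))) (.leaf 0x5643201987 1 .done) (.leaf 0x9875643210 2 (.node 1 4 (.cons 0x8790654123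 (.cons 0x9875641023 (.cons 0x6578902143 .nil))) (.node 6 8 (.cons 0x9068712345 (.cons 0x9865702341 (.cons 0x5714689023 .nil))) (.leaf 0x4320986571 1 .done) .done) .done)))) (.node 2 7 .nil (.node 0 3 (.cons 0x8903456721 .nil) (.node 2 6 (.cons 0x5430987621 .nil) (.node 4 9 (.cons 0x3265498701 (.cons 0x5498762103 (.cons 0x6578943021 (.cons 0x7894562301 .nil)))) (.node 3 8 (.cons 0x3894567210 (.cons 0x6754983012 (.cons 0x5498301762 .nil))) (.leaf 0x1038945762 1 .done) .done) (.node 0 8 (.cons 0x9803457621 (.cons 0x9803457126 .nil)) .done (.leaf 0x987126543 0 .done))) (.node 1 8 (.cons 0x4560978123 .nil) (.leaf 0x2765430981 1 (.node 1 6 (.cons 0x5430987612 (.cons 0x8907234561 .nil)) (.leaf 0x7234561890 0 .done) (.leaf 0x9812765430 2 .done))) .done)) .done) .done)) .done)) (.node 0 5 (.cons 0x6509871234 .nil) (.node 0 3 .nil (.node 2 4 (.cons 0x8905671243 (.cons 0x9876542103 (.cons 0x8903421765 .nil))) (.node 4 8 (.cons 0x3489056712 (.cons 0x9843056712 .nil)) (.node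 0 4 .nil (.node 2 9 (.cons 0x5609217843 (.cons 0x3045678921 .nil)) (.node 5 7 (.cons 0x6571298430 (.cons 0x8904321756 (.cons 0x6571298403 .nil))) .done .done) .done) (.leaf 0x5098432176 0 .done)) .done) (.node 3 7 .nil (.node 1 8 (.cons 0x9065432187 (.cons 0x9812056734 (.cons 0x6734509812 (.cons 0x9065437812 .nil)))) .done (.node 0 4 (.cons 0x9873210456 .nil) (.node 0 8 .nil (.node 2 4 (.cons 0x8905671243 (.cons 0x9805671243 (.cons 0x9801245673 .nil))) (.node 4 9 (.cons 0x6549873210 (.cons 0x5673498021 .nil)) (.leaf 0x5089432176 0 .done) .done) .done) .done) .done)) .done)) (.node 7 9 (.cons 0x8790654321 .nil) (.node 1 6 (.cons 0x8790612345 .nil) (.node 0 8 (.cons 0x9780612345 .nil) (.node 1 8 (.cons 0x6097812345 .nil) (.node 1 9 (.cons 0x2345619870 .nil) (.node 2 9 (.cons 0x1654329870 .nil) (.node 0 3 (.cons 0x6547812903 .nil) (.node 0 4 (.cons 0x3298704561 .nil) .done .done) .done) .done) .done) .done) (.node 3 7 .nil (.node 2 8 (.cons 0x7098234561 (.cons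 0x6128973450 (.cons 0x5437612890 .nil))) (.leaf 0x9071654328 1 .done) (.node 2 7 (.cons 0x8907234561 .nil) (.node 5 7 .nil (.node 4 8 (.cons 0x3270984561 (.cons 0x9843207561 (.cons 0x5761209843 (.cons 0x9843756120 .nil)))) (.leaf 0x5712348906 1 .done) .done) .done) .done)) .done)) (.node 0 8 .nil (.node 1 6 (.cons 0x8097456123 .nil) (.node 0 3 (.cons 0x5430987612 .nil) (.node 2 7 (.cons 0x8903456721 (.cons 0x9803456721 (.cons 0x6127890543 .nil))) .done .done) (.node 0 3 (.cons 0x7980321654 .nil) (.node 0 4 (.cons 0x7980456123 .nil) .done .done) .done)) (.node 1 8 (.cons 0x4560978123 .nil) (.node 0 3 (.cons 0x9781230654 .nil) (.node 0 4 (.cons 0x3045679812 .nil) .done .done) (.node 2 9 (.cons 0x7812906543 .nil) (.node 3 7 (.cons 0x9065437812 .nil) (.node 5 9 (.cons 0x8067345921 .nil) (.leaf 0x4376081295 1 .done) (.leaf 0x921873456 2 .done)) (.node 5 7 (.cons 0x6092187543 .nil) (.node 0 3 (.cons 0x9218754306 .nil) (.node 2 7 (.cons 0x8903456721 .nil) .done .done)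 .done) .done)) .done)) .done)) .done)) .done)) .done))) (.node 7 9 (.cons 0x8790654321 .nil) (.node 1 7 (.cons 0x6543217890 .nil) (.node 3 7 .nil (.node 1 5 (.cons 0x8790651234 (.cons 0x8902156734 (.cons 0x6512098734 .nil))) (.node 1 4 (.cons 0x5678902143 (.cons 0x8902143765 .nil)) (.node 4 8 (.cons 0x6512348790 .nil) (.leaf 0x2348790651 1 (.leaf 0x9784321560 1 .done)) .done) .done) (.node 2 7 .nil (.node 1 3 (.cons 0x2134567890 .nil) (.leaf 0x5431278906 1 (.leaf 0x7213456098 1 (.node 1 6 (.cons 0x8907234561 .nil) (.node 0 3 (.cons 0x8903456721 (.cons 0x5430987612 .nil)) (.leaf 0x8903216547 1 .done) .done) .done))) (.node 5 7 .nil (.node 1 6 (.cons 0x4321657890 .nil) (.node 0 3 (.cons 0x5430987612 .nil) (.leaf 0x8903216547 1 (.leaf 0x1230987456 1 .done)) (.node 4 8 (.cons 0x5609784321 (.cons 0x9843207561 (.cons 0x7561209843 .nil))) (.node 1 3 (.cons 0x7231654890 (.cons 0x6132754890 .nil)) (.leaf 0x2316548907 2 .done) .done) .done)) .done) .done)) .done)) (.node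 3 7 .nil (.node 1 5 (.cons 0x8790651234 (.cons 0x8902156734 (.cons 0x6512098734 .nil))) (.node 0 4 (.cons 0x9876512043 (.cons 0x9873402156 .nil)) (.node 4 6 (.cons 0x9870234651 (.cons 0x8973210465 (.cons 0x9873201564 .nil))) .done .done) .done) (.node 0 4 (.cons 0x9873210456 .nil) (.node 0 5 .nil (.node 1 4 (.cons 0x5678902143 (.cons 0x9876502143 (.cons 0x9873412056 .nil))) .done (.node 0 8 (.cons 0x9087123456 .nil) (.node 0 3 .nil (.node 1 5 (.cons 0x8790651234 (.cons 0x9876512034 .nil)) (.node 2 8 (.cons 0x6504379821 (.cons 0x6745128903 .nil)) (.node 1 4 (.cons 0x6514328970 (.cons 0x6514307982 .nil)) (.leaf 0x5143289706 2 .done) .done) .done) .done) .done) .done)) (.node 0 8 (.cons 0x9087123456 .nil) (.node 6 9 (.cons 0x4569873210 .nil) (.node 2 7 (.cons 0x8965401273 .nil) (.node 5 7 (.cons 0x8965734021 .nil) .done .done) (.node 4 9 (.cons 0x6549873210 .nil) (.node 0 3 (.cons 0x8945673012 .nil) (.node 0 5 (.cons 0x8943765021 .nil) .done .done) .done) (.leaf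 0x7123456908 0 .done))) .done) .done)) .done)) .done)) (.node 1 7 (.cons 0x6543217890 .nil) (.node 5 7 .nil (.node 1 6 (.cons 0x4321657890 .nil) (.node 0 3 (.cons 0x5430987612 .nil) (.leaf 0x8903216547 1 (.leaf 0x1230987456 1 .done)) (.node 1 4 (.cons 0x8790654123 (.cons 0x6578902143 .nil)) (.node 4 8 (.cons 0x9843207165 (.cons 0x9843207561 (.cons 0x7561209843 (.cons 0x8416579023 .nil)))) .done .done) .done)) (.node 2 7 .nil (.node 1 6 (.cons 0x8907234561 .nil) (.node 0 3 (.cons 0x8903456721 (.cons 0x5430987612 .nil)) (.leaf 0x8903216547 1 .done) (.node 0 4 (.cons 0x7890432165 (.cons 0x5612789043 .nil)) (.node 0 3 (.cons 0x8971230456 .nil) (.node 6 8 (.cons 0x3217986540 (.cons 0x9865401723 .nil)) (.leaf 0x2179865403 2 (.leaf 0x1230456897 1 .done)) .done) .done) .done)) .done) .done)) (.node 0 8 (.cons 0x9087123456 .nil) (.node 0 3 .nil (.node 2 8 (.cons 0x9034567821 .nil) (.leaf 0x4567128903 0 (.node 2 7 (.cons 0x8903456721 .nil) (.node 0 4 (.cons 0x3045679821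 .nil) (.node 3 6 (.cons 0x9872104563 (.cons 0x9821036745 (.cons 0x5634098721 (.cons 0x4563278901 .nil)))) .done .done) .done) (.node 4 9 (.cons 0x8217654903 (.cons 0x6549032871 .nil)) (.node 1 3 (.cons 0x5678943120 (.cons 0x8231709456 (.cons 0x5490678213 .nil))) (.node 1 6 (.cons 0x5497806123 (.cons 0x5476128903 .nil)) (.leaf 0x8903216547 1 .done) .done) (.node 1 6 (.cons 0x7894302165 (.cons 0x5476128903 .nil)) (.leaf 0x8903216547 1 (.leaf 0x7823094561 1 .done)) .done)) .done))) (.node 2 7 (.cons 0x8903456721 .nil) (.node 5 7 .nil (.node 4 6 (.cons 0x6457980321 .nil) (.leaf 0x8901234657 1 (.leaf 0x9875643210 2 (.node 1 3 (.cons 0x2134567890 (.cons 0x6457890132 (.cons 0x4657890132 .nil))) (.leaf 0x5789021346 0 .done) .done))) .done) .done) .done)) (.node 0 4 .nil (.node 6 9 (.cons 0x8712345690 (.cons 0x8712340965 .nil)) (.node 3 7 (.cons 0x8096543712 (.cons 0x9873210456 .nil)) (.node 2 7 (.cons 0x5698043721 .nil) (.node 1 3 (.cons 0x2134567890 (.cons 0x7213456980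 .nil)) (.leaf 0x5431278906 1 (.leaf 0x7213456098 1 .done)) .done) .done) (.node 2 7 (.cons 0x3278965401 .nil) (.node 1 3 (.cons 0x2134567890 (.cons 0x4569872310 (.cons 0x8096543172 (.cons 0x5678904312 .nil)))) (.leaf 0x7213456098 1 .done) .done) .done)) (.node 0 5 .nil (.node 4 6 (.cons 0x7890564321 .nil) (.node 5 7 (.cons 0x6457890123 .nil) (.leaf 0x6578901234 2 .done) (.leaf 0x2346509871 1 (.leaf 0x564321789 1 .done))) .done) .done)) .done)) (.node 0 5 (.cons 0x6509871234 .nil) (.node 4 8 (.cons 0x3489056712 .nil) (.node 0 3 (.cons 0x9784560321 .nil) (.node 0 4 (.cons 0x6504897123 .nil) (.node 0 8 .nil (.node 4 9 (.cons 0x8712349065 (.cons 0x5608497123 .nil)) (.leaf 0x5089432176 0 .done) .done) .done) .done) (.node 0 4 .nil (.node 3 7 (.cons 0x6509843712 (.cons 0x9873210456 .nil)) (.node 6 9 (.cons 0x3784569012 .nil) (.node 5 7 (.cons 0x8437569021 (.cons 0x8965712340 .nil)) .done (.leaf 0x123784569 1 (.leaf 0x5690123784 2 .done))) .done) .done) (.leaf 0x5098432176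 0 .done))) (.node 0 4 .nil (.node 3 7 (.cons 0x9873210456 .nil) (.node 4 6 (.cons 0x9873465021 (.cons 0x8905643712 .nil)) (.node 1 5 (.cons 0x2346517890 (.cons 0x9876512043 (.cons 0x8902156734 .nil))) (.node 0 8 (.cons 0x9087156432 .nil) (.node 1 8 (.cons 0x4651879023 (.cons 0x9781564023 (.cons 0x9065437812 .nil))) .done .done) .done) .done) (.node 3 5 (.cons 0x4356789021 (.cons 0x9876534021 (.cons 0x8904356712 .nil))) (.node 2 6 (.cons 0x6235478901 (.cons 0x9871265043 .nil)) (.leaf 0x4098712653 0 (.node 1 3 (.cons 0x2134567890 (.cons 0x9870456231 (.cons 0x2678904531 .nil))) (.node 1 6 (.cons 0x1623547890 (.cons 0x8970456132 .nil)) .done .done) .done)) .done) .done)) (.node 0 3 .nil (.node 4 6 (.cons 0x5643217890 (.cons 0x8971230465 .nil)) (.node 4 9 (.cons 0x8712349065 .nil) (.node 1 4 (.cons 0x8790654123 (.cons 0x8790321456 .nil)) (.node 2 6 (.cons 0x9870145623 (.cons 0x5621789430 (.cons 0x8970326541 (.cons 0x9870326541 .nil)))) .done .done) .done) .done)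 (.node 0 8 .nil (.node 1 6 (.cons 0x5430987612 (.cons 0x7980456123 .nil)) (.node 3 7 (.cons 0x4561237980 (.cons 0x8097321654 .nil)) (.leaf 0x2379804561 2 .done) .done) .done) .done)) .done)) .done)) .done))) .done)) .done)))
noncomputable def tc9_3_42 : T := (.node 4 7 (.cons 0x6547890123 .nil) (.node 2 7 .nil (.node 1 3 (.cons 0x2134567890 .nil) (.node 0 8 (.cons 0x9087654312 (.cons 0x9087213456 .nil)) (.node 6 9 (.cons 0x8745690123 (.cons 0x1723456980 (.cons 0x8723109654 (.cons 0x4569087231 .nil)))) (.node 0 4 (.cons 0x5698712340 (.cons 0x5698043271 (.cons 0x8721340965 .nil))) .done .done) .done) (.leaf 0x5431278906 1 (.leaf 0x7213456098 1 (.node 3 6 (.cons 0x7890123654 (.cons 0x4563278901 .nil)) (.node 0 4 (.cons 0x5678904312 (.cons 0x8904312765 (.cons 0x9872104563 (.cons 0x9872365401 .nil)))) .done (.node 1 6 (.cons 0x3456127890 .nil) (.node 3 7 (.cons 0x4561098732 .nil) .done .done) .done)) .done)))) (.node 5 7 .nil (.node 1 6 (.cons 0x8907543216 (.cons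 0x4321657890 .nil)) (.node 0 5 (.cons 0x9871650234 .nil) (.leaf 0x4321678905 2 (.node 3 7 (.cons 0x4378905612 (.cons 0x4561098732 .nil)) .done .done)) .done) (.node 7 9 (.cons 0x8790654321 .nil) (.node 3 7 .nil (.node 1 5 (.cons 0x8790651234 (.cons 0x8902156734 (.cons 0x6512098734 .nil))) (.node 1 6 (.cons 0x4320987561 .nil) (.node 4 8 (.cons 0x6512348790 (.cons 0x6109845732 (.cons 0x3721654890 .nil))) (.leaf 0x2348790651 1 (.leaf 0x9784321560 1 .done)) (.node 0 5 (.cons 0x7890561234 (.cons 0x4378905612 .nil)) (.node 1 8 (.cons 0x5609781234 (.cons 0x6734509812 (.cons 0x9065437812 .nil))) .done .done) .done)) .done) .done) .done) .done)) .done)) (.node 7 9 (.cons 0x8790654321 .nil) (.node 3 7 .nil (.node 1 5 (.cons 0x8790651234 (.cons 0x8902156734 (.cons 0x6512098734 .nil))) (.node 0 4 (.cons 0x8790432156 .nil) (.node 1 6 (.cons 0x8901654732 .nil) (.leaf 0x5612378904 2 (.leaf 0x2378904561 1 .done)) (.node 6 8 (.cons 0x4321568790 (.cons 0x9043786512 .nil)) (.leaf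 0x1568790432 1 (.leaf 0x9786512340 1 (.leaf 0x5689012374 2 .done))) .done)) .done) (.node 5 7 .nil (.node 1 6 (.cons 0x8902347561 (.cons 0x4321657890 .nil)) (.node 5 9 (.cons 0x8956174320 .nil) (.leaf 0x1234598706 2 (.leaf 0x6598743201 2 (.leaf 0x2160789543 1 .done))) .done) (.node 2 7 .nil (.node 1 3 (.cons 0x2134567890 (.cons 0x8901327456 .nil)) (.leaf 0x7213456098 1 (.node 1 6 (.cons 0x8901654723 .nil) (.node 0 5 (.cons 0x8905672134 (.cons 0x6509872134 (.cons 0x9871650234 .nil))) (.leaf 0x9874321650 1 .done) .done) .done)) .done) .done)) .done)) (.node 5 7 .nil (.node 1 6 (.cons 0x8902347561 (.cons 0x4321657890 .nil)) (.node 5 9 (.cons 0x8956174320 .nil) (.leaf 0x1234598706 2 (.leaf 0x6598743201 2 .done)) .done) (.node 2 7 .nil (.node 1 6 (.cons 0x8901654723 .nil) (.node 5 9 (.cons 0x8956174320 .nil) (.leaf 0x8743201659 1 (.leaf 0x1234598706 2 (.leaf 0x6598743201 2 .done))) (.node 0 4 (.cons 0x7890432165 (.cons 0x5612789043 .nil)) (.node 5 8 (.cons 0x9856712043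 (.cons 0x9856104723 (.cons 0x7216589043 (.cons 0x9856172340 (.cons 0x3274098561 .nil))))) .done .done) .done)) .done) .done)) .done)) .done)) (.node 4 7 (.cons 0x6547890123 .nil) (.node 0 8 (.cons 0x9087123456 .nil) (.node 2 7 .nil (.node 3 6 (.cons 0x9874563210 (.cons 0x9801274563 (.cons 0x4563278901 .nil))) (.node 1 3 (.cons 0x2134567890 .nil) (.leaf 0x5431278906 1 (.leaf 0x7213456098 1 (.node 0 4 (.cons 0x5678904312 (.cons 0x8904312765 (.cons 0x9872365401 .nil))) .done .done))) (.leaf 0x2109874563 1 .done)) (.node 2 6 (.cons 0x9087126543 .nil) (.node 2 8 .nil (.node 3 6 (.cons 0x9874563210 (.cons 0x5436709821 (.cons 0x9017823654 .nil))) (.leaf 0x2109874563 1 .done) (.node 3 6 (.cons 0x9874563210 .nil) (.node 5 7 (.cons 0x9807543621 .nil) (.node 4 6 (.cons 0x7546328901 .nil) (.leaf 0x3289017546 1 .done) .done) (.leaf 0x2109874563 1 (.node 4 6 (.cons 0x9017823645 .nil) (.node 5 7 (.cons 0x7546328901 .nil) (.leaf 0x2890175463 2 .done) .done) .done))) .done))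 (.node 3 6 (.cons 0x9874563210 .nil) (.node 5 7 (.cons 0x9807543621 .nil) (.node 3 7 (.cons 0x9801265473 .nil) (.node 7 9 (.cons 0x8790654321 .nil) .done .done) .done) (.leaf 0x2109874563 1 (.node 2 9 (.cons 0x8710923654 .nil) (.node 4 6 (.cons 0x8710923645 .nil) .done .done) .done))) .done)) .done)) (.node 0 3 .nil (.node 1 6 (.cons 0x9087165432 .nil) (.node 2 9 (.cons 0x9234561780 (.cons 0x8921670345 (.cons 0x9230871654 .nil))) (.node 1 5 (.cons 0x8760921543 (.cons 0x7615430892 (.cons 0x9874302156 .nil))) .done .done) (.node 2 7 (.cons 0x9801654723 (.cons 0x9803274561 .nil)) .done (.leaf 0x2309874561 1 .done))) (.node 2 7 (.cons 0x8903456721 .nil) (.node 2 8 (.cons 0x7654309821 .nil) (.node 7 9 (.cons 0x1289765430 .nil) (.leaf 0x2897654301 1 (.leaf 0x5679821034 1 .done)) (.node 2 9 (.cons 0x6543290871 .nil) (.node 3 6 (.cons 0x9874563210 .nil) (.leaf 0x2980174563 2 (.leaf 0x2109874563 1 (.node 4 6 (.cons 0x9017823645 .nil) (.node 5 7 (.cons 0x7546328901 .nil)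 (.leaf 0x2890175463 2 .done) .done) .done))) .done) .done)) .done) .done)) .done)) (.node 0 8 (.cons 0x9087123456 .nil) (.node 7 9 (.cons 0x8790654321 .nil) (.node 3 7 .nil (.node 1 5 (.cons 0x8790651234 (.cons 0x8902156734 (.cons 0x6512098734 .nil))) (.node 0 4 (.cons 0x9876512043 .nil) (.node 1 6 (.cons 0x8901654732 .nil) (.leaf 0x5612378904 2 (.leaf 0x2378904561 1 .done)) .done) .done) (.node 0 4 (.cons 0x9873210456 .nil) (.node 4 6 (.cons 0x8973210465 .nil) (.node 4 8 (.cons 0x5609784321 .nil) (.node 1 4 (.cons 0x5678902143 .nil) (.node 4 9 (.cons 0x6549873210 .nil) .done .done) .done) .done) .done) .done)) (.node 5 7 .nil (.node 4 6 (.cons 0x6457890123 .nil) (.leaf 0x8901234657 1 (.node 1 9 (.cons 0x5647891023 (.cons 0x8754321906 (.cons 0x8756091234 (.cons 0x3465789120 .nil)))) (.leaf 0x5643201987 1 .done) (.leaf 0x9875643210 2 .done))) (.node 2 7 .nil (.node 1 3 (.cons 0x2134567890 (.cons 0x8901327456 .nil)) (.node 0 4 (.cons 0x6540897213 .nil) (.node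 3 6 (.cons 0x2365478901 (.cons 0x4563127980 (.cons 0x9875632104 (.cons 0x4563278901 .nil)))) .done .done) (.leaf 0x7213456098 1 (.node 0 4 (.cons 0x5678904312 (.cons 0x8904312765 .nil)) .done .done))) .done) .done)) .done)) (.node 0 3 .nil (.node 1 6 (.cons 0x9087165432 (.cons 0x9874561032 .nil)) (.node 2 7 (.cons 0x8901654723 (.cons 0x8903274561 .nil)) (.leaf 0x3456127890 0 .done) (.node 6 9 (.cons 0x8712345690 (.cons 0x8712309654 .nil)) (.leaf 0x3456908712 0 (.node 0 5 (.cons 0x2347890561 .nil) (.leaf 0x6123478905 2 (.node 1 5 (.cons 0x8715690234 (.cons 0x9876512034 .nil)) (.node 2 8 (.cons 0x1782345690 (.cons 0x2896703451 (.cons 0x5167430982 (.cons 0x4569032871 .nil)))) .done .done) .done)) .done)) .done)) (.node 2 7 (.cons 0x8903456721 .nil) (.node 2 8 (.cons 0x7654309821 .nil) (.node 5 7 (.cons 0x6754309821 .nil) (.node 7 9 (.cons 0x8790654321 .nil) (.node 3 7 .nil (.node 1 5 (.cons 0x9067821543 (.cons 0x6734512890 (.cons 0x6512098734 .nil))) (.node 0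 4 (.cons 0x9876512043 (.cons 0x9873402156 .nil)) .done .done) .done) .done) .done) (.node 2 6 (.cons 0x3265478901 .nil) (.node 3 7 (.cons 0x4567309821 .nil) (.node 3 8 (.cons 0x7456238901 .nil) (.node 0 5 (.cons 0x9834507621 .nil) (.node 5 8 (.cons 0x4732658901 .nil) .done .done) (.leaf 0x4562389017 2 .done)) .done) .done) .done)) (.node 7 9 (.cons 0x8790654321 .nil) (.node 2 8 (.cons 0x7654309821 .nil) (.node 2 6 (.cons 0x3265478901 .nil) (.node 3 7 (.cons 0x9821037654 .nil) (.node 0 4 (.cons 0x9873210456 .nil) (.node 0 5 (.cons 0x8973405621 .nil) .done .done) .done) .done) (.node 2 9 (.cons 0x6543290871 .nil) (.node 3 8 (.cons 0x8345671290 .nil) (.node 3 7 (.cons 0x4567389210 .nil) .done (.leaf 0x6712908345 1 .done)) .done) .done)) .done) .done)) .done)) .done)) .done)) (.node 7 9 (.cons 0x8790654321 .nil) (.node 4 7 (.cons 0x6547890123 .nil) (.node 4 6 (.cons 0x5643217890 .nil) (.node 1 6 .nil (.node 0 3 (.cons 0x8974561032 (.cons 0x9874561032 .nil)) (.leaf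 0x5478903216 2 .done) (.node 5 9 (.cons 0x6123459870 .nil) (.node 3 6 (.cons 0x9874563210 .nil) (.leaf 0x2109874563 1 (.node 6 8 (.cons 0x2368954701 .nil) (.leaf 0x745986321 1 (.node 0 3 (.cons 0x8956743021 .nil) (.node 2 6 (.cons 0x8974562301 .nil) .done .done) .done)) .done)) (.leaf 0x1234598706 2 (.leaf 0x2160789543 1 .done))) .done)) (.node 3 7 .nil (.node 1 9 (.cons 0x5647891023 (.cons 0x8910237465 (.cons 0x8734560912 .nil))) (.node 1 5 (.cons 0x2346517890 (.cons 0x9873201564 (.cons 0x8902156734 (.cons 0x2098734651 .nil)))) (.node 2 5 (.cons 0x8760912543 (.cons 0x6452378910 (.cons 0x8901732564 (.cons 0x8732546091 .nil)))) .done .done) .done) (.node 3 6 (.cons 0x9874563210 .nil) (.node 1 6 .nil (.node 0 3 (.cons 0x8974561032 (.cons 0x9874561032 .nil)) (.leaf 0x5478903216 2 .done) (.node 1 3 (.cons 0x2134567890 .nil) (.node 1 9 (.cons 0x5647891023 .nil) (.node 2 6 (.cons 0x5436219870 .nil) (.node 2 7 (.cons 0x8721906543 .nil) .done .done) .done) .done) .done))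 (.node 1 6 .nil (.node 0 3 (.cons 0x9874561032 .nil) (.leaf 0x5478903216 2 .done) (.node 5 9 (.cons 0x6123459870 .nil) (.node 2 7 (.cons 0x8954610723 .nil) (.node 5 7 (.cons 0x8957023461 .nil) .done .done) (.leaf 0x1234598706 2 (.leaf 0x2160789543 1 .done))) .done)) (.leaf 0x2109874563 1 .done))) .done)) .done)) (.node 3 7 .nil (.node 1 8 (.cons 0x2345609781 (.cons 0x9065437812 .nil)) (.node 4 9 (.cons 0x5602349781 (.cons 0x5673498120 (.cons 0x9437812065 .nil))) (.node 2 9 (.cons 0x1879234560 .nil) (.leaf 0x187329456 1 (.node 0 5 (.cons 0x6509871234 (.cons 0x8129450673 (.cons 0x6054921873 (.cons 0x6054923781 .nil)))) .done .done)) .done) (.node 1 4 (.cons 0x5678902143 (.cons 0x8902143765 .nil)) (.node 4 6 (.cons 0x5643217890 (.cons 0x8973201465 (.cons 0x9873201465 .nil))) .done (.node 2 8 (.cons 0x9065412873 .nil) (.node 1 3 (.cons 0x9782310654 (.cons 0x7654312890 .nil)) (.node 1 5 (.cons 0x6097815432 (.cons 0x9782065143 (.cons 0x6709821543 .nil))) .done .done)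 (.node 1 9 (.cons 0x1978234560 (.cons 0x8237910654 .nil)) .done .done)) .done)) .done)) (.node 2 7 .nil (.node 1 3 (.cons 0x2134567890 .nil) (.node 0 8 (.cons 0x9087654312 (.cons 0x9087213456 .nil)) (.node 0 3 (.cons 0x8903456721 .nil) (.node 1 9 (.cons 0x8091345672 (.cons 0x6543190872 .nil)) (.leaf 0x8765430219 0 (.node 2 9 (.cons 0x8092765431 .nil) (.leaf 0x7654312908 0 .done) .done)) .done) .done) (.leaf 0x5431278906 1 (.leaf 0x7213456098 1 .done))) (.node 5 7 .nil (.node 1 6 (.cons 0x8907543216 .nil) (.node 0 4 (.cons 0x9873210456 (.cons 0x8904321756 (.cons 0x9873402165 (.cons 0x3278904561 .nil)))) .done (.node 0 4 (.cons 0x9873210456 (.cons 0x8904321756 (.cons 0x9875612043 .nil))) (.node 2 6 (.cons 0x9873265401 (.cons 0x8904326571 .nil)) .done .done) .done)) .done) .done)) .done)) .done)) (.node 1 6 .nil (.node 0 5 (.cons 0x6509871234 .nil) (.leaf 0x4321678905 2 (.node 5 8 (.cons 0x9065871234 .nil) (.node 4 9 (.cons 0x9432178560 (.cons 0x8549706123 .nil))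 (.node 2 9 (.cons 0x6058712943 (.cons 0x3458921670 .nil)) .done (.leaf 0x1785609432 1 (.leaf 0x7123490658 2 .done))) (.node 2 9 (.cons 0x4329065871 (.cons 0x7854329061 .nil)) (.node 0 4 (.cons 0x7165890432 (.cons 0x5617890432 .nil)) (.node 0 8 (.cons 0x5671298043 .nil) .done .done) .done) (.leaf 0x9076123458 1 .done))) (.node 5 8 (.cons 0x9065871234 .nil) (.node 4 9 (.cons 0x9432178560 (.cons 0x6170589432 .nil)) (.node 5 9 (.cons 0x3495876021 .nil) (.leaf 0x4320617859 1 (.leaf 0x8716023495 2 .done)) (.leaf 0x1785609432 1 (.leaf 0x7123490658 2 .done))) (.node 6 9 (.cons 0x5432169870 .nil) (.leaf 0x1690785432 2 (.node 4 7 (.cons 0x6547890123 (.cons 0x9874320561 (.cons 0x9021658743 .nil))) (.node 5 9 (.cons 0x1659874320 .nil) (.leaf 0x8743201659 1 (.node 0 8 (.cons 0x2347165980 .nil) (.leaf 0x4598076123 0 .done) .done)) .done) (.leaf 0x785432169 1 .done))) (.leaf 0x9076123458 1 .done))) .done))) (.node 5 9 (.cons 0x6123459870 .nil) (.node 2 9 .nil (.node 0 3 (.cons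 0x8954307612 (.cons 0x8921670345 (.cons 0x7892301654 .nil))) .done (.node 0 8 (.cons 0x3459807612 .nil) (.node 0 5 (.cons 0x6509871234 .nil) (.node 1 8 (.cons 0x4560978123 .nil) (.leaf 0x5061879234 0 .done) .done) (.node 0 3 (.cons 0x8954307612 .nil) (.node 0 4 (.cons 0x7165980432 .nil) (.node 0 5 (.cons 0x6509871234 .nil) .done .done) .done) .done)) .done)) (.leaf 0x1234598706 2 (.node 4 7 (.cons 0x1659874320 .nil) (.node 5 7 .nil (.node 4 9 (.cons 0x8712349065 (.cons 0x8759432061 (.cons 0x3498756120 .nil))) (.leaf 0x5610234987 1 .done) (.node 2 7 .nil (.node 1 8 (.cons 0x9560234781 (.cons 0x9543278160 .nil)) (.leaf 0x5432781609 1 .done) .done) .done)) (.leaf 0x5610234789 1 (.leaf 0x6598743201 2 .done))) .done))) (.node 4 6 (.cons 0x5643217890 .nil) (.node 0 5 (.cons 0x9871234650 .nil) (.leaf 0x3217890564 0 (.node 0 8 .nil (.node 5 9 (.cons 0x6459870123 (.cons 0x7123465980 (.cons 0x5980716432 .nil))) .done (.node 0 3 (.cons 0x8970321645 .nil) (.node 0 4 (.cons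 0x8971230465 .nil) .done .done) .done)) (.node 0 3 (.cons 0x8970321645 .nil) (.node 5 8 (.cons 0x4658971230 .nil) (.leaf 0x9703216458 1 (.node 0 8 .nil (.node 1 3 (.cons 0x2134567890 (.cons 0x4567980312 (.cons 0x9087654312 (.cons 0x5467980312 .nil)))) .done .done) (.leaf 0x9076123458 1 .done))) .done) .done))) (.node 4 7 (.cons 0x6547890123 .nil) (.node 3 6 (.cons 0x9874563210 .nil) (.node 2 7 .nil (.node 0 8 (.cons 0x3216547980 (.cons 0x9807216345 (.cons 0x9801654723 .nil))) .done (.node 5 7 (.cons 0x8907543216 .nil) (.node 3 7 .nil (.node 4 8 (.cons 0x9845701632 (.cons 0x6109845732 (.cons 0x2098437561 .nil))) .done .done) .done) .done)) (.leaf 0x2109874563 1 .done)) (.node 6 9 (.cons 0x8745690123 .nil) (.node 3 6 (.cons 0x7890123654 .nil) (.node 6 8 (.cons 0x7098612345 .nil) (.node 2 6 .nil (.node 0 5 (.cons 0x2346509871 (.cons 0x9870543621 (.cons 0x4326509871 .nil))) (.node 0 4 (.cons 0x8971236504 (.cons 0x5621789043 .nil)) .done .done) .done) .done) .done)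 .done) .done)) .done)) .done))) .done)) .done)))
noncomputable def tc9_3_43 : T := (.leaf 0x5698701234 2 (.node 3 6 (.cons 0x7890123654 (.cons 0x9870123654 .nil)) (.node 1 6 .nil (.node 1 9 (.cons 0x6543219870 .nil) (.leaf 0x6198702345 2 (.leaf 0x8702345619 1 (.node 1 7 (.cons 0x8965432170 .nil) (.node 5 9 (.cons 0x8716590234 (.cons 0x8706591234 .nil)) (.leaf 0x1234598706 2 (.leaf 0x2160789543 1 .done)) (.leaf 0x8902345617 1 .done)) (.leaf 0x4560789123 1 .done)))) (.node 1 9 (.cons 0x6543219870 .nil) (.node 5 8 (.cons 0x3458760912 (.cons 0x9123458706 .nil)) (.leaf 0x1234587069 2 (.node 0 5 (.cons 0x3450987612 .nil) (.leaf 0x4321678905 2 (.node 2 6 (.cons 0x6219870543 .nil) (.leaf 0x5870916234 1 .done) .done)) (.leaf 0x2196078543 1 .done))) (.node 1 7 (.cons 0x8965432170 .nil) (.node 0 8 (.cons 0x9087165432 .nil) (.leaf 0x2345698071 0 (.node 4 8 (.cons 0x7843219065 (.cons 0x9123487065 (.cons 0x9023487165 .nil))) (.node 0 5 (.cons 0x6507891234 .nil) (.leaf 0x4321678905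 2 (.node 2 6 (.cons 0x4326507891 (.cons 0x9054871623 .nil)) .done .done)) .done) .done)) (.leaf 0x8902345617 1 .done)) (.leaf 0x4560789123 1 .done))) (.node 5 9 (.cons 0x4320789561 .nil) (.node 1 3 (.cons 0x2134567890 (.cons 0x8765902134 (.cons 0x8907654312 (.cons 0x8760954312 .nil)))) .done (.leaf 0x1234598706 2 (.leaf 0x2160789543 1 .done))) .done))) (.node 1 8 (.cons 0x9065432187 .nil) (.node 0 3 (.cons 0x5430769812 .nil) (.node 5 9 (.cons 0x7659812034 .nil) (.leaf 0x1870695432 2 (.node 1 9 (.cons 0x7819560234 (.cons 0x6078195432 .nil)) (.node 2 4 (.cons 0x8912430765 (.cons 0x8195670342 (.cons 0x3420765981 (.cons 0x7018963245 .nil)))) (.leaf 0x6703421895 2 .done) (.leaf 0x4560789123 1 .done)) (.leaf 0x2187069543 1 .done))) .done) (.node 5 9 (.cons 0x3459067812 .nil) (.leaf 0x1870695432 2 (.node 5 7 (.cons 0x6981234570 (.cons 0x8123457096 .nil)) (.node 4 6 (.cons 0x9064578123 (.cons 0x3218964570 .nil)) .done .done) (.leaf 0x2187069543 1 .done))) (.node 3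 8 (.cons 0x7012389654 .nil) (.node 4 9 (.cons 0x7812349065 .nil) (.leaf 0x123876549 1 (.node 3 5 (.cons 0x6534987021 (.cons 0x6534907812 (.cons 0x4356709812 .nil))) .done (.leaf 0x5490123876 2 .done))) (.node 4 6 (.cons 0x7012389645 .nil) (.node 5 7 (.cons 0x7546983210 (.cons 0x9012387546 (.cons 0x9064578321 .nil))) (.leaf 0x3896457012 0 .done) .done) .done)) (.leaf 0x4569078123 1 .done)))) .done)) (.leaf 0x8701234569 1 (.node 3 6 (.cons 0x7890123654 (.cons 0x9870123654 .nil)) (.node 1 8 (.cons 0x9065432187 (.cons 0x5436709812 .nil)) (.node 7 9 (.cons 0x4563218970 .nil) (.leaf 0x4321879065 0 (.node 1 9 (.cons 0x6543219870 .nil) (.leaf 0x6918702345 2 (.node 1 5 (.cons 0x8790651234 (.cons 0x9651870234 .nil)) (.node 2 4 (.cons 0x8790651243 (.cons 0x3245698701 (.cons 0x9651870243 (.cons 0x7018965423 (.cons 0x7024369815 .nil))))) .done .done) (.leaf 0x8702345691 1 (.leaf 0x4560789123 1 .done)))) .done)) (.node 1 3 (.cons 0x2134567890 (.cons 0x4569870132 .nil)) (.node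 2 8 (.cons 0x7823109654 (.cons 0x5436709821 (.cons 0x4569078231 .nil))) (.node 1 4 (.cons 0x5678902143 (.cons 0x5698702341 (.cons 0x7014569823 .nil))) (.node 3 5 (.cons 0x4356789021 (.cons 0x6987014532 .nil)) (.leaf 0x7635412890 1 .done) (.leaf 0x5690782314 1 .done)) .done) (.node 2 5 (.cons 0x6987013254 (.cons 0x4325690781 (.cons 0x8907631254 .nil))) (.node 4 7 (.cons 0x6987452310 (.cons 0x1874325690 (.cons 0x8901254763 (.cons 0x9065234781 .nil)))) .done (.leaf 0x7098125436 0 .done)) .done)) (.node 4 7 (.cons 0x9812074365 .nil) (.leaf 0x6547098123 1 (.node 6 8 (.cons 0x9863210745 (.cons 0x5470986321 .nil)) (.node 2 6 (.cons 0x5470981263 .nil) (.node 1 5 (.cons 0x3269874510 (.cons 0x4320789651 (.cons 0x5189620743 .nil))) (.node 2 8 (.cons 0x5436709821 (.cons 0x8236907451 .nil)) .done .done) .done) (.node 1 5 (.cons 0x9068743215 (.cons 0x4320789651 (.cons 0x9078651234 (.cons 0x7098651234 .nil)))) .done .done)) (.node 2 8 (.cons 0x7456328901 (.cons 0x9823654701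 (.cons 0x5436709821 .nil))) (.node 1 4 (.cons 0x5678902143 (.cons 0x5698702341 (.cons 0x3287096541 (.cons 0x5412890763 .nil)))) (.node 1 7 (.cons 0x3289654170 .nil) (.leaf 0x2890714563 2 (.leaf 0x3289017456 2 (.leaf 0x6328901745 1 .done))) .done) .done) .done))) .done))) (.node 1 3 (.cons 0x2134567890 (.cons 0x4569870132 (.cons 0x8907654312 .nil))) (.node 2 8 (.cons 0x7823109654 (.cons 0x4569078231 .nil)) (.node 1 4 (.cons 0x5678902143 (.cons 0x5698702341 (.cons 0x7014569823 .nil))) (.node 2 5 (.cons 0x5214367890 (.cons 0x8907634125 .nil)) (.node 1 5 (.cons 0x8769025143 (.cons 0x4320789651 (.cons 0x9634152870 .nil))) (.leaf 0x4369078251 0 .done) (.leaf 0x7896325410 0 .done)) (.leaf 0x5690782314 1 .done)) (.node 1 5 (.cons 0x9067821543 (.cons 0x9607823451 (.cons 0x6709821543 .nil))) (.node 1 6 (.cons 0x5432870961 .nil) (.leaf 0x8234516907 2 (.leaf 0x7823451690 1 (.node 4 6 (.cons 0x7890215643 (.cons 0x9870215643 .nil)) .done .done))) .done) .done)) (.node 2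 6 (.cons 0x5431267890 (.cons 0x8907621345 .nil)) (.node 5 9 (.cons 0x8760954312 (.cons 0x8954312670 (.cons 0x6213459870 .nil))) (.leaf 0x1260789543 1 .done) (.node 1 4 (.cons 0x5678902143 (.cons 0x5413269870 (.cons 0x8709623145 .nil))) (.node 5 8 (.cons 0x9067854312 (.cons 0x9856702143 (.cons 0x7098563412 (.cons 0x3145890762 (.cons 0x7098563214 .nil))))) .done (.node 1 5 (.cons 0x4513269870 (.cons 0x8709623154 .nil)) (.node 0 4 (.cons 0x3154098762 .nil) (.leaf 0x1540987623 1 (.leaf 0x8904513267 1 .done)) (.node 2 8 (.cons 0x9067821345 (.cons 0x7028965143 (.cons 0x6709821543 .nil))) .done .done)) .done)) .done)) .done)) .done)) (.node 1 8 (.cons 0x9065432187 .nil) (.leaf 0x2345690781 2 (.node 3 5 (.cons 0x4356789021 (.cons 0x9607812354 (.cons 0x6907812354 .nil))) (.node 4 7 (.cons 0x6981235470 (.cons 0x8123547096 .nil)) (.node 4 8 (.cons 0x7653489021 (.cons 0x9843567021 .nil)) (.node 1 4 (.cons 0x5678902143 (.cons 0x3214569870 (.cons 0x8709654123 .nil))) (.node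 1 6 (.cons 0x8902167435 (.cons 0x8961235470 (.cons 0x7098435612 .nil))) .done .done) (.node 1 7 (.cons 0x4896532071 (.cons 0x6907184532 .nil)) (.node 1 6 (.cons 0x8902167435 (.cons 0x8961235470 (.cons 0x5617098432 .nil))) .done .done) .done)) (.node 2 6 (.cons 0x3265478901 (.cons 0x1896235470 .nil)) (.leaf 0x4701896235 1 .done) .done)) (.node 3 6 (.cons 0x7890123654 (.cons 0x9870123654 (.cons 0x5436709812 .nil))) (.node 3 8 (.cons 0x4569078321 .nil) (.node 2 9 (.cons 0x7609218345 (.cons 0x5438760921 .nil)) (.node 1 4 (.cons 0x2098765341 (.cons 0x1435678920 (.cons 0x7832145690 .nil))) (.leaf 0x5329607814 1 (.leaf 0x8706923541 2 .done)) .done) (.node 1 4 (.cons 0x2098765341 (.cons 0x3214569870 (.cons 0x9654123870 (.cons 0x9834120765 .nil)))) (.leaf 0x5690783214 1 .done) .done)) .done) .done)) (.node 3 5 (.cons 0x4356789021 (.cons 0x4356709812 .nil)) (.node 1 9 (.cons 0x4356789120 (.cons 0x8912076534 (.cons 0x8706912354 .nil))) (.leaf 0x4560789123 1 .done) (.node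 2 9 (.cons 0x4356781290 (.cons 0x8129076534 .nil)) (.node 4 6 (.cons 0x5346781290 (.cons 0x8129076435 .nil)) (.node 0 5 (.cons 0x9812346507 (.cons 0x4692187053 (.cons 0x4692350781 .nil))) .done (.node 1 5 (.cons 0x7890234651 (.cons 0x4692351870 (.cons 0x7098156432 (.cons 0x6435187092 .nil)))) .done .done)) .done) (.node 0 3 (.cons 0x4569870321 .nil) (.node 3 6 (.cons 0x7890123654 (.cons 0x9870123654 .nil)) (.node 2 4 (.cons 0x9812430765 (.cons 0x4235690781 (.cons 0x2435670981 .nil))) (.node 0 5 (.cons 0x7890563421 .nil) .done (.node 0 5 (.cons 0x5098763421 .nil) (.node 1 5 (.cons 0x5124367890 (.cons 0x4215078963 (.cons 0x6907815324 (.cons 0x6709815342 .nil)))) .done .done) .done)) .done) (.node 1 6 (.cons 0x5430987612 .nil) (.node 2 9 (.cons 0x4530167892 (.cons 0x8921670345 (.cons 0x6107892354 .nil))) .done (.node 2 6 (.cons 0x5430987621 .nil) (.node 1 4 (.cons 0x2098765341 (.cons 0x3214569870 (.cons 0x4187096532 (.cons 0x1453269870 (.cons 0x9870265341 .nil)))))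 .done .done) .done)) .done)) .done))) (.leaf 0x7096543218 1 .done)))) .done)))))
noncomputable def uc9_3_10 : T := (.node 6 9 (.cons 0x1234569870 .nil) tc9_3_43 (.node 1 7 (.cons 0x6543217890 .nil) tc9_3_42 (.node 4 7 (.cons 0x6547890123 .nil) tc9_3_41 .done)))
theorem sub_c9_3_10 : root 9 refs9_3 [] 0x700000008706000000006030000000030500007000504000000004010000000010300000000302400000002018007000410 0xfe7fff3fffb7ff57ffcfffedfff5ffe3fff9fe6d 9 0 7 .nil uc9_3_10 = true := by decide +kernel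
noncomputable def tc9_3_44 : T := (.node 1 7 (.cons 0x6543217890 .nil) (.node 3 7 .nil (.node 1 6 (.cons 0x8902167345 .nil) (.node 0 3 (.cons 0x9876120345 .nil) (.leaf 0x1230987456 1 (.node 2 4 (.cons 0x5678903421 (.cons 0x9870165423 (.cons 0x8901245673 .nil))) (.node 5 9 (.cons 0x8765903421 (.cons 0x8954320716 (.cons 0x6178954320 (.cons 0x8745906123 .nil)))) (.leaf 0x2167895430 1 .done) .done) .done)) (.node 0 5 (.cons 0x7890561234 (.cons 0x4378905612 .nil)) (.node 1 8 (.cons 0x5609781234 (.cons 0x6734509812 (.cons 0x9065437812 .nil))) .done .done) .done)) (.node 2 7 .nil (.node 1 3 (.cons 0x2134567890 .nil) (.leaf 0x5431278906 1 (.leaf 0x7213456098 1 (.node 0 3 (.cons 0x8903456721 .nil) (.node 0 5 (.cons 0x8905672134 (.cons 0x6509872134 .nil)) .done .done) .done))) (.node 5 7 .nil (.node 1 6 (.cons 0x8902167543 (.cons 0x4321657890 .nil)) (.node 5 9 (.cons 0x8954320716 (.cons 0x8734590216 (.cons 0x6178954320 (.cons 0x8745906123 .nil)))) .done .done) .done)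 .done)) .done)) (.node 0 8 (.cons 0x9087123456 .nil) (.node 0 3 .nil (.node 3 7 .nil (.node 2 8 (.cons 0x9034567821 (.cons 0x9065437821 (.cons 0x9821037654 (.cons 0x4567309821 .nil)))) .done (.node 4 9 (.cons 0x6549873210 (.cons 0x8945673012 (.cons 0x6549873012 .nil))) (.node 2 8 (.cons 0x6549017823 (.cons 0x6549032871 .nil)) (.node 3 9 (.cons 0x6549328710 .nil) (.leaf 0x5493287106 1 (.leaf 0x8239456017 1 .done)) .done) .done) .done)) (.node 3 7 .nil (.node 2 8 (.cons 0x7654309821 (.cons 0x9821037654 (.cons 0x4567309821 .nil))) .done (.node 2 7 (.cons 0x8903456721 .nil) (.node 2 9 (.cons 0x8921037654 .nil) (.node 0 4 (.cons 0x5673408921 .nil) (.node 0 5 (.cons 0x4376508921 .nil) .done .done) .done) .done) .done)) .done)) (.node 4 8 (.cons 0x5609784321 .nil) (.node 0 5 .nil (.node 1 6 (.cons 0x9876120543 (.cons 0x7984321650 (.cons 0x7890561234 .nil))) (.leaf 0x2348790561 1 .done) (.node 0 4 .nil (.node 3 7 (.cons 0x6501237984 (.cons 0x9873210456 .nil)) .done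 .done) .done)) (.node 0 5 .nil (.node 1 6 (.cons 0x9876120543 (.cons 0x9056178432 .nil)) (.leaf 0x9784321650 1 (.node 2 8 (.cons 0x7098234561 (.cons 0x4328970561 (.cons 0x5098216743 .nil))) (.leaf 0x5617098234 1 .done) .done)) (.node 0 4 .nil (.node 6 8 (.cons 0x2348650971 (.cons 0x7986504321 (.cons 0x9043217865 (.cons 0x9045687123 .nil)))) .done .done) .done)) .done)) .done)) .done)) (.node 1 7 (.cons 0x6543217890 .nil) (.node 5 7 .nil (.node 1 6 (.cons 0x8902167543 (.cons 0x4321657890 .nil)) (.node 0 3 (.cons 0x9876120345 .nil) (.leaf 0x8903216547 1 (.leaf 0x1230987456 1 (.node 5 9 (.cons 0x8954320716 (.cons 0x6178954320 .nil)) (.leaf 0x2167895430 1 .done) .done))) .done) (.node 1 5 (.cons 0x6789021543 .nil) (.node 3 7 (.cons 0x8902154376 .nil) (.node 4 8 (.cons 0x2156734890 .nil) (.leaf 0x3765120984 1 (.leaf 0x9843765120 2 (.node 1 6 (.cons 0x5167348902 .nil) (.node 2 7 (.cons 0x5167209843 .nil) .done .done) .done))) .done) (.node 1 8 (.cons 0x4560978123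 .nil) (.node 2 7 .nil (.node 3 9 (.cons 0x5439067812 (.cons 0x8127609345 (.cons 0x8721543906 (.cons 0x8721560934 (.cons 0x6093451872 .nil))))) .done (.node 3 7 .nil (.node 2 9 (.cons 0x8129067345 .nil) (.node 0 3 (.cons 0x8921765430 .nil) (.leaf 0x9218765430 1 .done) .done) .done) .done)) (.node 1 6 .nil (.node 6 9 (.cons 0x8961702345 (.cons 0x8754320961 .nil)) (.leaf 0x789615432 0 .done) (.node 2 7 (.cons 0x8907234561 .nil) (.node 3 7 (.cons 0x8902167345 .nil) .done .done) .done)) .done)) .done)) .done)) (.node 0 8 (.cons 0x9087123456 .nil) (.node 0 3 .nil (.node 1 6 (.cons 0x9876120345 .nil) (.leaf 0x8903216547 1 (.node 2 7 (.cons 0x8907234561 .nil) (.leaf 0x3456127890 0 (.node 1 8 (.cons 0x7098165432 (.cons 0x4561897032 .nil)) (.leaf 0x9072345618 1 (.leaf 0x3098127654 0 .done)) .done)) (.node 5 7 (.cons 0x4321657890 .nil) (.node 0 4 (.cons 0x8975612304 .nil) (.leaf 0x1657890432 1 .done) .done) .done))) (.node 2 8 (.cons 0x7654309821 .nil) (.node 0 4 (.cons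 0x3045679821 .nil) (.node 0 5 .nil (.node 1 3 (.cons 0x4567982130 (.cons 0x6789054312 .nil)) (.node 2 7 (.cons 0x8903456721 (.cons 0x9872134056 .nil)) .done (.leaf 0x2897654031 0 .done)) .done) .done) (.node 5 7 .nil (.node 1 6 (.cons 0x5476128903 (.cons 0x8902167543 (.cons 0x4321657890 .nil))) (.node 4 6 (.cons 0x9087123465 (.cons 0x9875461023 .nil)) (.leaf 0x9875643210 2 .done) .done) (.node 2 7 (.cons 0x8903456721 .nil) (.node 3 7 (.cons 0x4567309821 .nil) .done .done) .done)) .done)) .done)) (.node 5 7 .nil (.node 1 6 (.cons 0x8902167543 (.cons 0x4321657890 .nil)) (.node 0 5 (.cons 0x9876120543 .nil) (.leaf 0x4321678905 2 .done) (.node 3 6 (.cons 0x5436789021 (.cons 0x4579802163 .nil)) (.leaf 0x7890216345 1 (.leaf 0x897543612 1 .done)) .done)) (.node 0 4 .nil (.node 6 9 (.cons 0x8712345690 (.cons 0x8712340965 .nil)) (.node 3 7 (.cons 0x8096543712 (.cons 0x8965732104 .nil)) .done (.node 1 3 (.cons 0x2134567890 (.cons 0x7896540132 (.cons 0x6987540132 (.cons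 0x5678904312 .nil)))) (.node 1 6 (.cons 0x1698754320 (.cons 0x8970456132 (.cons 0x9875612340 .nil))) .done .done) .done)) (.node 0 5 .nil (.node 4 6 (.cons 0x7890564321 .nil) (.node 0 3 (.cons 0x8975640321 .nil) .done (.leaf 0x2346509871 1 (.leaf 0x564321789 1 .done))) .done) .done)) .done)) .done)) (.node 0 5 (.cons 0x6509871234 .nil) (.node 4 8 (.cons 0x3489056712 .nil) (.node 0 3 (.cons 0x9784560321 .nil) (.node 4 6 (.cons 0x3217984650 .nil) (.leaf 0x8971230564 1 (.node 0 4 (.cons 0x6504897123 .nil) (.node 0 8 .nil (.node 4 9 (.cons 0x8712349065 (.cons 0x5608497123 .nil)) .done .done) .done) .done)) .done) (.node 0 4 .nil (.node 3 7 (.cons 0x6509843712 (.cons 0x9873210456 .nil)) (.node 6 9 (.cons 0x3784569012 .nil) (.node 5 8 (.cons 0x2173485690 (.cons 0x5896712043 .nil)) (.leaf 0x3409658712 0 (.leaf 0x7120965843 1 .done)) (.leaf 0x123784569 1 (.leaf 0x5690123784 2 .done))) .done) .done) (.leaf 0x5098432176 0 .done))) (.node 0 4 .nil (.node 3 7 (.cons 0x9873210456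 .nil) (.node 1 6 (.cons 0x9873450216 (.cons 0x8902167345 .nil)) (.node 1 5 (.cons 0x9870234516 (.cons 0x8902154376 .nil)) (.node 6 8 (.cons 0x4097865123 (.cons 0x4516879023 .nil)) (.leaf 0x2156879043 0 (.leaf 0x3210986547 1 .done)) .done) .done) (.node 0 8 .nil (.node 1 6 (.cons 0x8097321654 (.cons 0x8790456123 (.cons 0x9780456123 .nil))) .done (.node 6 8 (.cons 0x9012378654 (.cons 0x9045687321 .nil)) (.node 0 3 (.cons 0x7986540321 .nil) .done (.node 4 6 (.cons 0x5643217890 .nil) (.node 0 3 (.cons 0x8971230465 .nil) .done (.node 3 5 (.cons 0x8902176435 (.cons 0x8971235640 (.cons 0x8904356712 .nil))) (.leaf 0x6408971235 1 .done) .done)) .done)) .done)) .done)) (.node 0 3 .nil (.node 1 6 (.cons 0x9876120345 .nil) (.leaf 0x8903216547 1 (.node 0 8 (.cons 0x7980321654 .nil) (.node 2 8 (.cons 0x7098234561 (.cons 0x3045679821 (.cons 0x5476128903 .nil))) .done .done) .done)) (.node 0 8 .nil (.node 4 6 (.cons 0x5643217890 (.cons 0x5640897123 .nil)) (.node 3 6 (.cons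 0x5436789021 (.cons 0x7980456321 .nil)) (.node 1 5 (.cons 0x2346517890 (.cons 0x6321547980 (.cons 0x9087156432 .nil))) (.leaf 0x2089763451 0 .done) .done) .done) .done) .done)) .done)) .done)) .done))) .done))
noncomputable def tc9_3_45 : T := (.node 3 6 (.cons 0x9874563210 .nil) (.node 0 5 (.cons 0x9876345021 .nil) (.node 0 3 .nil (.node 1 6 (.cons 0x9876120345 .nil) (.leaf 0x5478903216 2 (.node 2 9 (.cons 0x4563298701 (.cons 0x8923074561 .nil)) (.leaf 0x1036547892 1 (.node 5 8 (.cons 0x1658923470 (.cons 0x9854302167 (.cons 0x5892034761 (.cons 0x4703298561 .nil)))) (.leaf 0x6589234701 2 .done) .done)) (.leaf 0x2309874561 1 .done))) (.node 0 8 .nil (.node 1 9 (.cons 0x5436789120 (.cons 0x5674308912 (.cons 0x7634508912 (.cons 0x3476508912 .nil)))) (.node 2 7 (.cons 0x8721906543 (.cons 0x6508912743 .nil)) (.leaf 0x5089127436 1 (.leaf 0x5089127634 0 .done)) .done) (.node 0 4 .nil (.node 1 6 (.cons 0x7890432165 .nil) (.node 2 9 (.cons 0x4563298701 (.cons 0x7430892165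 (.cons 0x8923470561 .nil))) (.node 1 3 (.cons 0x8765409213 (.cons 0x8923165470 .nil)) (.leaf 0x4708923165 1 .done) .done) (.node 6 9 (.cons 0x5698740123 (.cons 0x5698740321 .nil)) (.node 1 5 (.cons 0x9876345120 (.cons 0x6987023451 (.cons 0x8769021543 (.cons 0x7896345120 .nil)))) .done (.node 5 7 (.cons 0x4578963201 .nil) (.leaf 0x4012369875 1 (.leaf 0x8754012369 2 .done)) .done)) .done)) .done) .done)) .done)) (.node 0 8 .nil (.node 7 9 (.cons 0x8790654321 .nil) (.node 1 6 (.cons 0x8790612345 (.cons 0x7980543612 .nil)) (.node 1 7 (.cons 0x6543217890 (.cons 0x9087123456 .nil)) .done .done) (.node 2 4 (.cons 0x9780563421 (.cons 0x7980563421 .nil)) (.node 0 3 (.cons 0x5678903421 .nil) (.node 1 6 (.cons 0x8974305612 (.cons 0x5612347980 (.cons 0x7890561243 .nil))) .done .done) .done) (.leaf 0x2365479801 2 .done))) (.node 0 3 .nil (.node 1 6 (.cons 0x9874305612 .nil) (.leaf 0x5478903216 2 (.node 2 9 (.cons 0x4563298701 (.cons 0x5674308921 (.cons 0x6503478921 (.cons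 0x8923074561 .nil)))) .done .done)) (.node 0 4 .nil (.node 1 6 (.cons 0x7890432165 .nil) (.node 5 9 (.cons 0x9560874321 (.cons 0x7432165980 (.cons 0x3678954021 .nil))) (.leaf 0x3216590874 2 .done) (.node 5 7 (.cons 0x8902167543 (.cons 0x9804756123 .nil)) (.node 3 5 (.cons 0x9802167435 .nil) (.node 1 5 (.cons 0x9876345120 .nil) (.node 2 9 (.cons 0x4536789201 (.cons 0x7651298043 (.cons 0x6532987401 (.cons 0x7408923561 .nil)))) .done .done) .done) .done) .done)) .done) .done)) .done)) .done)) (.node 0 3 .nil (.node 1 6 (.cons 0x9876120345 .nil) (.leaf 0x5478903216 2 (.leaf 0x2309874561 1 .done)) (.node 0 8 (.cons 0x9801236547 .nil) (.node 0 5 .nil (.node 1 6 (.cons 0x9876120543 (.cons 0x9874321650 .nil)) (.leaf 0x2347890561 1 .done) (.node 0 4 .nil (.node 7 9 (.cons 0x8974563210 (.cons 0x8974012365 .nil)) (.node 1 6 (.cons 0x8790612345 (.cons 0x7890432165 .nil)) (.node 5 8 (.cons 0x9785432160 (.cons 0x3679854012 (.cons 0x7985401632 (.cons 0x9785406123 .nil))))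 .done .done) (.leaf 0x6547980123 0 .done)) .done) .done)) .done) .done)) (.leaf 0x2109874563 1 (.node 4 6 .nil (.node 3 9 (.cons 0x6547893210 (.cons 0x5647893210 .nil)) (.node 1 9 (.cons 0x2365478910 .nil) (.node 1 7 (.cons 0x6543217890 (.cons 0x5643217890 .nil)) (.node 5 7 (.cons 0x8754321906 (.cons 0x8754609123 .nil)) .done .done) (.node 5 7 (.cons 0x8756091234 (.cons 0x8756432190 .nil)) (.node 5 8 (.cons 0x9123478560 (.cons 0x8574602193 (.cons 0x8574602391 .nil))) (.leaf 0x3985647012 1 .done) .done) (.leaf 0x8745632019 0 .done))) (.node 5 7 (.cons 0x8754609321 .nil) (.leaf 0x8901234657 1 (.node 1 9 (.cons 0x2365478910 (.cons 0x8756432190 .nil)) (.node 1 5 (.cons 0x2098763451 (.cons 0x6451078932 .nil)) (.node 2 7 (.cons 0x4563278901 (.cons 0x3465127890 (.cons 0x8721546093 .nil))) .done .done) (.leaf 0x8745632019 0 .done)) .done)) .done)) (.node 6 9 (.cons 0x5478963201 .nil) (.node 0 4 (.cons 0x5698740123 .nil) (.node 0 5 (.cons 0x1234789650 .nil) (.node 3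 5 (.cons 0x4789653210 .nil) (.node 1 6 (.cons 0x7896120435 .nil) (.node 1 5 (.cons 0x2098763451 .nil) (.node 0 3 (.cons 0x9876120345 .nil) (.node 0 8 (.cons 0x9651234780 .nil) .done .done) (.leaf 0x789615432 0 .done)) .done) (.leaf 0x7401235698 2 .done)) .done) .done) (.node 7 9 (.cons 0x8790654321 .nil) (.node 1 9 (.cons 0x2365478910 .nil) (.node 3 9 (.cons 0x6547893210 .nil) (.node 2 9 .nil (.node 1 8 (.cons 0x5647018932 (.cons 0x9234560781 (.cons 0x9236018745 (.cons 0x5647018923 (.cons 0x7812906543 .nil))))) .done .done) .done) (.node 1 7 (.cons 0x6543217890 .nil) (.node 2 9 (.cons 0x8710923654 .nil) (.node 3 9 (.cons 0x6547893210 .nil) .done .done) .done) (.leaf 0x8745632019 0 .done))) (.node 2 9 .nil (.node 1 8 (.cons 0x5609781234 (.cons 0x9234560781 (.cons 0x9236018745 (.cons 0x5647018923 (.cons 0x7812906543 .nil))))) .done (.node 1 9 (.cons 0x2365478910 .nil) (.node 3 9 (.cons 0x6547893210 .nil) .done (.leaf 0x8745632019 0 .done)) .done)) .done)) .done))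 .done)) .done)))) (.node 1 7 (.cons 0x6543217890 .nil) (.node 5 7 .nil (.node 1 6 (.cons 0x8902167543 (.cons 0x4321657890 .nil)) (.node 3 7 (.cons 0x8902167345 .nil) (.node 5 9 (.cons 0x8954320716 (.cons 0x8734590612 (.cons 0x6178954320 (.cons 0x8732160954 .nil)))) .done (.leaf 0x8902165437 1 .done)) .done) (.node 7 9 (.cons 0x8790654321 .nil) (.node 1 6 (.cons 0x8790612345 .nil) (.node 2 7 (.cons 0x8907234561 .nil) (.node 3 7 (.cons 0x8902167345 .nil) .done .done) (.node 0 5 (.cons 0x7890561234 .nil) (.node 0 4 (.cons 0x4098756123 .nil) (.node 0 8 (.cons 0x9087432165 .nil) (.node 0 3 .nil (.node 2 4 (.cons 0x9805671243 (.cons 0x9876542103 (.cons 0x9803421765 .nil))) .done .done) .done) .done) (.node 0 4 (.cons 0x4098756123 .nil) (.node 3 7 (.cons 0x4378905612 .nil) (.node 0 3 .nil (.node 2 4 (.cons 0x6509873421 (.cons 0x9876542103 .nil)) .done .done) .done) .done) .done)) .done)) (.node 2 7 .nil (.node 0 3 (.cons 0x8903456721 .nil) (.node 6 9 (.cons 0x8745690123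 (.cons 0x8967120345 (.cons 0x4569871032 (.cons 0x4569871230 .nil)))) .done (.node 1 3 (.cons 0x2134567890 .nil) (.node 0 8 (.cons 0x9087654312 (.cons 0x9087213456 .nil)) .done (.leaf 0x5431278906 1 (.leaf 0x7213456098 1 .done))) .done)) .done) .done)) .done)) (.node 7 9 (.cons 0x8790654321 .nil) (.node 3 7 .nil (.node 2 4 (.cons 0x8901245673 .nil) (.node 0 3 (.cons 0x5678903421 .nil) (.node 1 3 (.cons 0x9870132456 .nil) (.node 1 5 (.cons 0x6789021543 (.cons 0x8976512430 (.cons 0x8902154376 (.cons 0x8790651243 .nil)))) .done (.leaf 0x6789031245 2 .done)) .done) (.node 1 9 (.cons 0x8910732456 (.cons 0x8734560912 .nil)) (.leaf 0x2456019873 0 .done) .done)) (.node 0 4 (.cons 0x9873210456 .nil) (.node 5 7 .nil (.node 1 6 (.cons 0x8975612340 (.cons 0x8902167543 (.cons 0x4321657890 .nil))) (.leaf 0x2340987561 1 .done) (.node 2 7 .nil (.node 1 3 (.cons 0x2134567890 (.cons 0x8904312765 .nil)) (.node 0 8 (.cons 0x9087654312 (.cons 0x9087213456 .nil)) (.node 0 3 (.cons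 0x8903456721 .nil) (.node 2 4 (.cons 0x9876542103 .nil) .done .done) .done) (.leaf 0x5431278906 1 .done)) .done) .done)) (.node 2 9 (.cons 0x6540129873 .nil) (.node 0 8 .nil (.node 1 5 (.cons 0x6789021543 (.cons 0x9780651234 (.cons 0x8043792156 (.cons 0x8097432156 (.cons 0x8065129734 .nil))))) .done (.node 0 3 (.cons 0x8921037654 .nil) (.node 0 5 (.cons 0x4376508921 .nil) .done .done) .done)) (.node 2 7 .nil (.node 1 6 (.cons 0x3789216540 (.cons 0x8907234561 (.cons 0x5612789043 .nil))) (.node 0 5 (.cons 0x9876120543 (.cons 0x8972165043 .nil)) .done .done) .done) .done)) .done)) .done)) (.node 5 7 .nil (.node 1 6 (.cons 0x8902167543 (.cons 0x4321657890 .nil)) (.node 3 7 (.cons 0x8902167345 .nil) (.leaf 0x4378902165 2 (.leaf 0x8902165437 1 .done)) (.node 4 6 (.cons 0x9875461023 .nil) (.leaf 0x8901234657 1 (.leaf 0x9875643210 2 .done)) .done)) (.node 3 7 .nil (.node 1 8 (.cons 0x4560978123 (.cons 0x9065437812 .nil)) (.node 5 9 (.cons 0x8712345906 (.cons 0x6734598120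 (.cons 0x9543781206 .nil))) (.node 1 6 (.cons 0x8716095432 (.cons 0x8160237954 .nil)) (.node 0 4 (.cons 0x9875612340 (.cons 0x5981673402 .nil)) (.leaf 0x1657890432 1 .done) .done) .done) (.node 1 9 (.cons 0x8734560912 .nil) (.node 1 6 (.cons 0x2345619870 (.cons 0x8902167345 .nil)) .done (.node 6 8 (.cons 0x3457689120 (.cons 0x5437689120 (.cons 0x6891023754 (.cons 0x8654732190 .nil)))) .done .done)) .done)) (.node 2 7 .nil (.node 0 3 (.cons 0x8903456721 .nil) (.node 2 4 (.cons 0x9876542103 .nil) (.node 2 9 (.cons 0x1298765430 .nil) (.node 1 4 (.cons 0x8790654123 (.cons 0x5678921430 (.cons 0x6578921430 .nil))) .done .done) .done) .done) .done) .done)) .done)) .done)) (.node 0 5 (.cons 0x6509871234 .nil) (.node 0 3 .nil (.node 2 4 (.cons 0x8905671243 (.cons 0x9876542103 (.cons 0x8903421765 .nil))) .done (.node 2 4 (.cons 0x5678903421 .nil) (.node 0 8 (.cons 0x9805671243 .nil) (.node 0 4 .nil (.node 4 8 (.cons 0x3489056712 .nil) (.node 1 8 (.cons 0x9812430567 .nil)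 (.node 1 6 (.cons 0x9870165423 .nil) (.node 2 7 (.cons 0x9816543270 (.cons 0x9816540723 .nil)) .done .done) .done) (.leaf 0x5098432176 0 .done)) .done) .done) (.node 4 6 (.cons 0x5643217890 .nil) (.leaf 0x3217890564 0 (.node 3 7 (.cons 0x8901245673 .nil) (.node 0 4 (.cons 0x9873210456 .nil) (.node 0 8 (.cons 0x9801245673 .nil) .done .done) (.node 7 9 (.cons 0x8790654321 .nil) (.node 2 7 (.cons 0x8905643271 .nil) (.node 5 7 (.cons 0x8901756423 .nil) .done .done) .done) .done)) .done)) .done)) .done)) (.node 2 4 (.cons 0x6509871243 .nil) (.node 1 6 (.cons 0x9870165423 .nil) (.node 0 4 .nil (.node 2 9 (.cons 0x1654329870 (.cons 0x8923407165 (.cons 0x7892165043 (.cons 0x3298704561 .nil)))) .done (.node 0 3 (.cons 0x9876542103 .nil) (.node 0 8 .nil (.node 2 9 (.cons 0x1654329870 (.cons 0x7089234561 (.cons 0x9216508743 .nil))) (.leaf 0x8071654329 1 .done) .done) .done) .done)) (.node 2 8 (.cons 0x7098234561 .nil) (.node 0 8 .nil (.node 0 3 (.cons 0x9803421765 .nil)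 (.node 3 9 (.cons 0x3987654210 (.cons 0x5671243980 (.cons 0x7165089342 .nil))) (.leaf 0x4390561287 2 .done) .done) .done) (.leaf 0x9071654328 1 .done)) .done)) (.node 0 4 .nil (.node 3 7 (.cons 0x8901245673 (.cons 0x9873210456 .nil)) (.node 7 9 (.cons 0x8790654321 .nil) (.node 3 8 (.cons 0x5671243890 (.cons 0x6504217983 .nil)) (.node 0 3 (.cons 0x8903421765 .nil) (.node 1 3 (.cons 0x2134567890 (.cons 0x5679831240 (.cons 0x8312409765 .nil))) .done .done) (.node 5 7 (.cons 0x6571098324 (.cons 0x9832401756 .nil)) .done .done)) .done) .done) .done) .done)) .done)) .done))) (.node 7 9 (.cons 0x8790654321 .nil) tc9_3_44 .done)))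
noncomputable def tc9_3_46 : T := (.node 0 3 (.cons 0x9781230654 .nil) (.node 2 7 (.cons 0x9812765430 .nil) (.node 0 4 (.cons 0x3045679812 .nil) (.node 0 8 (.cons 0x9803456721 .nil) (.node 0 5 .nil (.node 1 6 (.cons 0x8972165403 (.cons 0x9805432716 (.cons 0x9872165043 .nil))) .done .done) .done) (.node 1 6 (.cons 0x8972304561 .nil) (.node 3 7 (.cons 0x2379816540 .nil) (.node 4 7 (.cons 0x6547981230 .nil) .done (.leaf 0x9816540237 0 .done)) (.leaf 0x327981654 1 .done)) .done)) (.node 4 7 (.cons 0x6547981230 .nil) (.node 2 4 (.cons 0x9812430765 .nil) (.node 3 7 (.cons 0x8901245673 .nil) (.node 5 7 (.cons 0x9812034576 .nil) .done .done) .done) (.node 0 4 (.cons 0x3045679812 .nil) (.node 3 7 (.cons 0x6540379812 .nil) (.node 5 7 (.cons 0x9812034576 .nil) .done .done) .done) .done)) .done)) (.node 2 9 (.cons 0x4560329781 .nil) (.node 2 7 (.cons 0x1892765430 .nil) (.leaf 0x5672981034 1 (.node 2 4 (.cons 0x5670342981 .nil) (.node 4 7 (.cons 0x6547890123 .nil) (.node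 3 7 (.cons 0x6547329810 .nil) (.node 5 7 (.cons 0x6754302981 .nil) .done .done) .done) .done) .done)) (.node 2 8 .nil (.node 1 4 (.cons 0x9781456032 (.cons 0x5678290341 (.cons 0x5670982143 .nil))) (.node 1 5 (.cons 0x6789021543 (.cons 0x4309287651 (.cons 0x6715430982 .nil))) .done .done) (.node 6 8 (.cons 0x9068712345 .nil) (.node 3 8 (.cons 0x4560978321 .nil) (.node 3 9 .nil (.node 2 4 (.cons 0x3987654210 (.cons 0x9301876542 (.cons 0x5421839760 .nil))) (.leaf 0x5601879324 1 .done) (.node 4 8 (.cons 0x7932184560 .nil) (.leaf 0x9706548123 2 (.leaf 0x3970654812 1 .done)) .done)) .done) (.node 6 9 .nil (.node 0 5 (.cons 0x7698120543 .nil) (.leaf 0x4321786905 1 (.leaf 0x9687123450 2 .done)) (.node 5 8 (.cons 0x4581796032 .nil) (.node 0 5 (.cons 0x7698120543 .nil) (.node 2 4 (.cons 0x7650342981 .nil) (.leaf 0x342981765 1 (.leaf 0x1796032458 0 (.leaf 0x8924305671 1 .done))) .done) .done) .done)) .done)) .done)) .done)) .done)) (.node 1 3 (.cons 0x2134567890 .nil)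 (.node 1 6 .nil (.node 5 9 (.cons 0x6789543120 (.cons 0x8716095432 .nil)) (.node 4 8 (.cons 0x2134895670 (.cons 0x5487906123 (.cons 0x5984316702 .nil))) (.node 0 3 (.cons 0x9784560321 (.cons 0x7984561230 (.cons 0x8459716032 .nil))) .done (.leaf 0x1659078432 1 .done)) (.node 3 8 (.cons 0x4560978321 (.cons 0x7834590612 (.cons 0x4597831602 .nil))) .done .done)) (.node 3 8 (.cons 0x4560978321 .nil) (.node 1 9 (.cons 0x5438760912 .nil) (.node 1 4 (.cons 0x8790654123 .nil) (.node 1 5 (.cons 0x9067834512 .nil) .done .done) .done) (.node 1 4 (.cons 0x2387906541 .nil) (.leaf 0x7906541238 1 (.node 1 5 (.cons 0x7615438902 .nil) (.node 1 9 (.cons 0x6783451902 .nil) .done .done) .done)) .done)) .done)) (.node 2 9 (.cons 0x8765431290 .nil) (.node 5 9 (.cons 0x8712345906 .nil) (.node 1 9 .nil (.node 3 8 (.cons 0x4560978321 (.cons 0x4387065912 (.cons 0x5438760912 .nil))) (.node 2 4 (.cons 0x9013876542 (.cons 0x1978324560 .nil)) (.leaf 0x8324560197 1 .done) .done) .done) (.node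 2 4 (.cons 0x2431876590 .nil) (.node 1 9 (.cons 0x5918760243 .nil) (.node 1 4 (.cons 0x3241879560 .nil) (.node 1 5 (.cons 0x9518760243 .nil) (.node 1 6 (.cons 0x8761345902 .nil) .done .done) .done) .done) (.leaf 0x8765902431 1 .done)) .done)) (.node 6 9 (.cons 0x8769021345 .nil) (.node 1 6 .nil (.node 0 5 (.cons 0x8765092134 (.cons 0x6178905432 .nil)) (.leaf 0x4321678905 2 (.node 5 9 (.cons 0x8712345906 (.cons 0x8761345902 .nil)) .done .done)) (.node 4 6 .nil (.node 0 8 (.cons 0x9087654312 (.cons 0x7809213465 (.cons 0x9780231645 .nil))) .done (.node 6 8 (.cons 0x5468790231 .nil) (.node 2 6 .nil (.node 0 5 (.cons 0x9054687132 (.cons 0x6217890543 (.cons 0x9871623450 .nil))) (.leaf 0x4623178905 0 .done) .done) .done) .done)) .done)) (.node 2 8 (.cons 0x7823109654 .nil) (.node 2 7 (.cons 0x8723109654 .nil) (.node 6 8 (.cons 0x9068712345 .nil) (.node 5 8 (.cons 0x2096785431 .nil) (.leaf 0x4312096785 1 (.node 1 6 (.cons 0x9061785432 .nil) (.leaf 0x7854329061 1 (.node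 2 6 (.cons 0x7162345890 .nil) .done .done)) .done)) .done) .done) (.node 6 8 (.cons 0x9068712345 .nil) (.node 5 9 (.cons 0x9543217860 .nil) (.node 0 3 (.cons 0x2176895430 .nil) (.leaf 0x6895430217 1 (.node 0 8 (.cons 0x9087654312 .nil) (.leaf 0x2134597680 1 .done) .done)) (.leaf 0x7123459068 1 .done)) .done) .done)) .done)) .done)) (.node 2 8 (.cons 0x7654312890 .nil) (.leaf 0x1345670982 1 (.leaf 0x9821345670 2 .done)) .done))) (.node 2 9 (.cons 0x7812906543 .nil) (.node 5 9 (.cons 0x8712345906 .nil) (.node 1 9 .nil (.node 3 8 (.cons 0x4560978321 (.cons 0x4387065912 (.cons 0x5438760912 .nil))) (.node 2 4 (.cons 0x7834219560 (.cons 0x5678342190 .nil)) (.node 5 8 (.cons 0x9120678543 (.cons 0x5834290671 .nil)) (.leaf 0x1243859067 2 (.leaf 0x2176095834 1 .done)) .done) (.node 2 5 (.cons 0x8345290671 (.cons 0x8345291760 (.cons 0x6783452091 (.cons 0x6091783254 .nil)))) .done .done)) (.node 6 9 .nil (.node 0 8 (.cons 0x3459608712 .nil) (.leaf 0x7123459608 1 (.leaf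 0x6954321780 2 .done)) (.node 0 8 .nil (.node 1 3 (.cons 0x2134567890 (.cons 0x7654312980 (.cons 0x9087654312 .nil))) (.node 1 5 (.cons 0x6789021543 (.cons 0x9608715432 (.cons 0x6908715432 .nil))) .done .done) (.node 5 8 (.cons 0x7856091234 .nil) (.node 3 9 (.cons 0x8543921760 .nil) (.leaf 0x6785439120 0 .done) (.node 3 9 (.cons 0x6093217854 .nil) (.node 4 6 (.cons 0x7854609321 .nil) (.leaf 0x5871239064 1 (.leaf 0x932178546 2 .done)) .done) .done)) .done)) .done)) .done)) (.node 6 9 .nil (.node 3 7 (.cons 0x9065437812 (.cons 0x4569873210 (.cons 0x2187345690 .nil))) (.leaf 0x4569021873 2 .done) (.node 1 9 .nil (.node 3 9 (.cons 0x8760219345 .nil) (.node 5 8 (.cons 0x2193458760 .nil) (.node 1 6 (.cons 0x4587932160 (.cons 0x7612098543 .nil)) .done (.leaf 0x7602193458 1 .done)) .done) .done) .done)) .done)) (.node 1 9 .nil (.node 3 8 (.cons 0x4560978321 (.cons 0x9120678345 (.cons 0x5438760912 .nil))) (.node 3 6 (.cons 0x5436789021 (.cons 0x5436789120 .nil)) (.node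 5 8 (.cons 0x2176345890 (.cons 0x7634589120 (.cons 0x6091785432 .nil))) (.node 4 6 (.cons 0x7123645890 (.cons 0x5643219870 .nil)) (.leaf 0x7091234658 0 .done) .done) (.node 4 7 (.cons 0x2365478901 (.cons 0x2365478910 .nil)) (.leaf 0x9123874560 0 (.leaf 0x1987456320 0 .done)) .done)) (.node 1 4 (.cons 0x2387914560 .nil) (.leaf 0x7906541238 1 (.node 1 5 (.cons 0x9154387602 (.cons 0x6783451902 .nil)) .done .done)) .done)) (.node 6 9 .nil (.node 1 5 (.cons 0x6789021543 (.cons 0x4321569870 (.cons 0x8769021543 .nil))) .done (.node 5 9 (.cons 0x8712345906 .nil) (.node 1 5 (.cons 0x6789021543 .nil) (.node 0 8 (.cons 0x9608715432 .nil) (.leaf 0x7154329608 1 .done) (.node 1 4 (.cons 0x8709651432 .nil) (.node 3 9 (.cons 0x8793214560 .nil) (.node 4 9 (.cons 0x8709432156 .nil) .done .done) .done) .done)) .done) .done)) .done)) .done)) .done)))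
noncomputable def tc9_3_47 : T := (.node 1 5 (.cons 0x6789021543 .nil) (.node 4 9 (.cons 0x6512349870 .nil) (.node 0 4 (.cons 0x9870432156 .nil) (.node 0 3 (.cons 0x8943076512 .nil) (.node 0 5 .nil (.node 1 3 (.cons 0x2134567890 (.cons 0x6789054312 .nil)) (.node 2 7 (.cons 0x8903456721 (.cons 0x8943127650 .nil)) (.leaf 0x9805672134 2 .done) .done) .done) .done) .done) (.node 3 9 (.cons 0x6789345120 .nil) (.node 0 3 .nil (.node 2 6 (.cons 0x9087126543 (.cons 0x5498762103 (.cons 0x8943076215 (.cons 0x5126789430 .nil)))) (.leaf 0x1265439087 2 .done) (.node 3 6 (.cons 0x9876345120 .nil) (.node 0 4 (.cons 0x8934076512 .nil) (.node 0 5 (.cons 0x9876345021 .nil) .done .done) (.leaf 0x7890215436 1 .done)) .done)) (.leaf 0x1206789345 1 (.node 7 9 (.cons 0x8790654321 .nil) (.node 0 3 (.cons 0x8794512306 .nil) (.node 3 6 (.cons 0x9876345120 .nil) (.leaf 0x4978063215 0 (.leaf 0x7890215436 1 .done)) .done) .done) .done))) (.leaf 0x1560789432 1 (.leaf 0x5123498706 2 .done))))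 (.node 0 5 .nil (.node 1 6 (.cons 0x9876120543 (.cons 0x7890561234 .nil)) (.node 3 7 (.cons 0x8902154376 (.cons 0x4561098732 .nil)) (.leaf 0x4378902165 2 (.node 4 7 (.cons 0x6547890123 .nil) (.leaf 0x2347890561 1 (.leaf 0x9874321650 1 .done)) .done)) .done) (.node 0 4 .nil (.node 6 8 (.cons 0x7689021543 (.cons 0x9865123407 (.cons 0x9043217865 (.cons 0x9045687123 .nil)))) (.node 2 8 (.cons 0x9028671543 (.cons 0x9821567043 (.cons 0x7651289043 .nil))) (.node 3 9 (.cons 0x8671543902 (.cons 0x8217654093 (.cons 0x3904517682 (.cons 0x7156823904 (.cons 0x6540932871 .nil))))) .done .done) .done) (.node 0 3 .nil (.node 2 8 (.cons 0x9821567034 (.cons 0x7651289034 .nil)) (.leaf 0x4567128903 0 (.node 2 4 (.cons 0x8907651243 (.cons 0x9876542103 .nil)) (.node 1 6 (.cons 0x9876120345 .nil) (.node 3 7 (.cons 0x5409821673 (.cons 0x7328904561 .nil)) (.leaf 0x4378902165 2 .done) (.node 4 9 (.cons 0x8716509432 (.cons 0x6549032871 .nil)) (.leaf 0x7165094328 1 (.leaf 0x7823094561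 1 .done)) .done)) .done) .done)) .done) .done)) .done)) (.node 7 9 (.cons 0x8790654321 .nil) (.node 4 7 (.cons 0x6547890123 .nil) (.node 3 7 .nil (.node 4 6 (.cons 0x8907346512 .nil) (.leaf 0x8902156437 1 (.node 1 6 (.cons 0x8790612345 (.cons 0x9873201645 (.cons 0x8902167345 (.cons 0x5164378902 .nil)))) .done .done)) (.node 2 7 .nil (.node 3 9 (.cons 0x6547893210 (.cons 0x6547210893 (.cons 0x8721560934 .nil))) .done (.node 5 7 .nil (.node 1 6 (.cons 0x6154378902 (.cons 0x8902167543 (.cons 0x4321657890 .nil))) (.node 3 6 (.cons 0x9874563210 (.cons 0x2163457980 .nil)) (.leaf 0x2109874563 1 .done) .done) .done) .done)) .done)) (.node 3 7 .nil (.node 4 6 (.cons 0x8907346512 .nil) (.leaf 0x8902156437 1 (.node 6 9 (.cons 0x8712345690 (.cons 0x8096543712 (.cons 0x5469873201 (.cons 0x3789645120 .nil)))) (.leaf 0x8732015469 1 .done) .done)) (.node 0 4 (.cons 0x9873210456 .nil) (.node 4 9 (.cons 0x6549873210 .nil) (.node 0 3 (.cons 0x6549873012 .nil) (.node 0 5 .nil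 (.node 1 6 (.cons 0x8790612345 (.cons 0x3498705612 (.cons 0x8943705612 (.cons 0x2347890561 .nil)))) .done .done) .done) .done) .done) .done)) .done)) (.node 4 7 (.cons 0x6547890123 .nil) (.node 2 7 .nil (.node 3 9 (.cons 0x6547893210 (.cons 0x6547210893 (.cons 0x8721543906 (.cons 0x8721560934 .nil)))) .done (.node 5 7 .nil (.node 4 6 (.cons 0x8907564321 .nil) (.leaf 0x8901234657 1 (.node 1 3 (.cons 0x2134567890 (.cons 0x8902134576 (.cons 0x6457890132 (.cons 0x6431578902 .nil)))) (.node 1 6 (.cons 0x6134579802 (.cons 0x4321657890 .nil)) (.leaf 0x8902316457 2 .done) .done) .done)) .done) .done)) (.node 3 7 .nil (.node 4 6 (.cons 0x8907346512 .nil) (.leaf 0x8902156437 1 (.node 6 9 (.cons 0x8712345690 (.cons 0x8096543712 (.cons 0x3789645120 .nil))) (.leaf 0x8732015469 1 .done) (.node 1 6 (.cons 0x9873201645 (.cons 0x8902167345 (.cons 0x5164378902 .nil))) (.node 5 7 (.cons 0x9875461023 (.cons 0x3209875461 .nil)) .done .done) .done))) (.node 2 7 .nil (.node 3 6 (.cons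 0x5436789021 (.cons 0x8907215634 (.cons 0x4365127890 (.cons 0x4563278901 .nil)))) .done (.node 5 7 .nil (.node 1 6 (.cons 0x8902167543 (.cons 0x4321657890 .nil)) (.node 0 4 (.cons 0x9873210456 (.cons 0x9804561273 (.cons 0x3278904561 .nil))) .done (.node 4 6 (.cons 0x8907564321 (.cons 0x9875461023 .nil)) (.leaf 0x8901234657 1 .done) .done)) .done) .done)) .done)) .done)) (.node 2 7 .nil (.node 3 6 (.cons 0x5436789021 (.cons 0x8907215634 (.cons 0x4365127890 (.cons 0x4563278901 .nil)))) (.node 0 4 (.cons 0x9870436512 (.cons 0x3654089721 (.cons 0x9872365401 .nil))) .done .done) (.node 5 7 .nil (.node 1 9 (.cons 0x9127806543 (.cons 0x8754321906 (.cons 0x8756091234 .nil))) (.node 3 7 (.cons 0x6543721980 .nil) (.leaf 0x1273456089 1 (.node 3 8 (.cons 0x4560978321 (.cons 0x6754389120 (.cons 0x8345760912 (.cons 0x9127560834 .nil)))) .done .done)) .done) (.node 4 7 (.cons 0x6547890123 .nil) (.node 3 7 .nil (.node 2 4 (.cons 0x8901245673 .nil) (.node 0 3 (.cons 0x9876542103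 .nil) (.leaf 0x2430987651 1 (.leaf 0x8903421567 1 .done)) (.node 6 9 (.cons 0x8712345690 (.cons 0x1273456980 (.cons 0x8734215690 (.cons 0x8732456901 .nil)))) .done .done)) .done) .done) .done)) .done)) .done))) .done))) (.node 0 3 .nil (.node 6 9 (.cons 0x8712345690 (.cons 0x8712309654 .nil)) (.leaf 0x3456908712 0 (.node 1 6 (.cons 0x9087165432 (.cons 0x9876120345 .nil)) (.node 5 8 (.cons 0x4321785690 (.cons 0x9854302167 (.cons 0x4309658712 .nil))) (.node 4 7 (.cons 0x6547890123 (.cons 0x9854761203 (.cons 0x3098547612 .nil))) (.node 2 7 (.cons 0x8901654723 (.cons 0x8903274561 .nil)) (.leaf 0x3456127890 0 .done) .done) .done) .done) (.node 6 8 (.cons 0x5432096871 (.cons 0x9032178654 .nil)) (.node 5 9 (.cons 0x1786954320 (.cons 0x7689543021 (.cons 0x2034596871 .nil))) (.leaf 0x217689543 1 .done) (.node 2 8 (.cons 0x1782345690 (.cons 0x4569032871 .nil)) (.node 2 9 (.cons 0x6543290871 (.cons 0x9280345671 .nil)) (.leaf 0x7829654301 1 (.leaf 0x7129034568 1 .done))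 .done) .done)) .done))) (.node 2 7 (.cons 0x8903456721 .nil) (.node 0 4 .nil (.node 6 9 (.cons 0x8712345690 (.cons 0x8712340965 (.cons 0x3278965401 .nil))) (.leaf 0x3456908712 0 (.node 1 3 (.cons 0x2134567890 (.cons 0x9654087132 (.cons 0x8967213045 (.cons 0x5678904312 .nil)))) .done .done)) (.node 0 5 .nil (.node 1 3 (.cons 0x2134567890 (.cons 0x6789054312 (.cons 0x9872134056 .nil))) (.node 2 9 (.cons 0x6543290871 (.cons 0x4312987650 .nil)) (.leaf 0x1340567892 1 (.leaf 0x8765043129 2 .done)) .done) .done) .done)) (.node 2 8 (.cons 0x7654309821 .nil) (.node 7 9 (.cons 0x1289765430 .nil) (.node 1 5 (.cons 0x6798215430 .nil) (.leaf 0x4306798215 1 (.leaf 0x2897603451 2 (.node 0 5 .nil (.node 1 3 (.cons 0x2134567890 (.cons 0x6789054312 .nil)) (.leaf 0x4506798213 1 (.node 1 9 (.cons 0x9176543082 (.cons 0x8219760543 .nil)) .done .done)) .done) .done))) (.leaf 0x5679821034 1 .done)) (.node 2 9 (.cons 0x6543290871 .nil) (.node 3 8 (.cons 0x8345671290 .nil) (.node 0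 4 (.cons 0x9830456721 .nil) (.node 0 5 .nil (.node 1 6 (.cons 0x9087165432 (.cons 0x9876120543 (.cons 0x9834502167 (.cons 0x7890561234 .nil)))) .done .done) .done) (.leaf 0x7129083456 2 .done)) .done) .done)) .done)) .done)) .done))
noncomputable def tc9_3_48 : T := (.node 6 9 (.cons 0x1234569870 .nil) (.leaf 0x5698701234 2 (.node 3 6 (.cons 0x5436789021 (.cons 0x9870123654 .nil)) (.node 1 3 (.cons 0x2134567890 (.cons 0x8967021345 (.cons 0x8907654312 .nil))) (.node 2 8 (.cons 0x3456709821 .nil) (.leaf 0x6543128907 0 (.node 3 7 (.cons 0x4569823701 .nil) (.node 5 8 (.cons 0x9021345876 (.cons 0x6985437021 (.cons 0x9670285431 .nil))) (.node 1 4 (.cons 0x3769854120 (.cons 0x7098563214 (.cons 0x6985412370 (.cons 0x6985412073 .nil)))) (.node 5 9 (.cons 0x5987634120 (.cons 0x2143659870 (.cons 0x8207695431 .nil))) .done .done) .done) (.leaf 0x2896543701 0 .done)) (.node 2 9 (.cons 0x8765431290 .nil) (.node 0 8 (.cons 0x9087654312 .nil) (.node 2 7 (.cons 0x3456980721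 .nil) (.leaf 0x4569087213 1 .done) (.leaf 0x7654312908 0 .done)) .done) (.leaf 0x5690782134 2 .done)))) (.node 2 8 (.cons 0x9067821345 (.cons 0x5431289670 .nil)) (.node 1 8 (.cons 0x9065432187 .nil) (.node 5 9 (.cons 0x8760954312 .nil) (.leaf 0x1870695432 2 (.leaf 0x7021895436 1 (.leaf 0x2187069543 1 .done))) (.leaf 0x4569078123 1 .done)) (.leaf 0x7098213456 0 .done)) .done)) (.node 1 8 (.cons 0x9065432187 .nil) (.node 5 9 (.cons 0x8120769543 .nil) (.node 7 9 (.cons 0x4597810632 (.cons 0x4321879560 (.cons 0x6023459781 .nil))) (.leaf 0x8795436021 2 .done) (.leaf 0x1870695432 2 (.node 1 6 (.cons 0x9543206187 .nil) (.leaf 0x3207816954 0 .done) (.leaf 0x2187069543 1 .done)))) (.node 5 9 (.cons 0x3459067812 .nil) (.leaf 0x1870695432 2 (.node 5 7 (.cons 0x6981234570 (.cons 0x8123457096 .nil)) (.node 4 6 (.cons 0x9064578123 (.cons 0x3218964570 .nil)) .done .done) (.leaf 0x2187069543 1 .done))) (.node 1 3 (.cons 0x2134567890 (.cons 0x8967021345 (.cons 0x8907654312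 .nil))) (.node 2 8 (.cons 0x3456709821 .nil) (.leaf 0x6543128907 0 (.node 1 5 (.cons 0x2098763451 (.cons 0x8967021543 (.cons 0x9820763451 (.cons 0x7028963451 .nil)))) .done (.leaf 0x5690782134 2 .done))) (.node 2 8 (.cons 0x9067821345 (.cons 0x5431289670 .nil)) (.leaf 0x7098213456 0 .done) .done)) (.leaf 0x4569078123 1 .done)))) .done)) (.leaf 0x8701234569 1 (.node 3 6 (.cons 0x5436789021 (.cons 0x9870123654 .nil)) (.node 1 6 (.cons 0x5432078961 .nil) (.node 5 7 (.cons 0x1698754320 (.cons 0x8754320961 .nil)) (.node 4 6 (.cons 0x9875461023 .nil) .done (.node 4 8 (.cons 0x3675489021 (.cons 0x9845632107 (.cons 0x7548902163 (.cons 0x7548902361 .nil)))) (.node 1 7 (.cons 0x8716902345 .nil) (.node 1 8 (.cons 0x5436981702 .nil) (.leaf 0x7096321845 1 .done) (.leaf 0x3217548906 1 (.leaf 0x6320984571 1 .done))) .done) .done)) (.node 1 8 (.cons 0x9065432187 (.cons 0x9812076345 (.cons 0x5436709812 .nil))) (.node 1 5 (.cons 0x6789021543 (.cons 0x6987023451 .nil)) (.node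 1 3 (.cons 0x2134567890 (.cons 0x4569870132 .nil)) (.node 1 7 (.cons 0x5436981702 .nil) .done .done) (.node 6 8 (.cons 0x7689021543 (.cons 0x9867021543 .nil)) (.node 1 7 (.cons 0x5436981702 .nil) (.leaf 0x2345689071 2 (.node 2 8 (.cons 0x5436712890 (.cons 0x6982345170 .nil)) (.leaf 0x7154328960 1 .done) .done)) .done) .done)) .done) .done)) (.node 1 6 (.cons 0x5432078961 .nil) (.node 3 7 (.cons 0x4561098732 .nil) (.leaf 0x4378902165 2 (.node 4 8 (.cons 0x2378456901 (.cons 0x9610237845 (.cons 0x9016548732 .nil))) (.leaf 0x7321096548 1 (.leaf 0x5690123784 2 .done)) (.node 1 3 (.cons 0x4569870132 (.cons 0x8907654312 .nil)) (.node 4 7 (.cons 0x5478961023 .nil) (.node 3 8 (.cons 0x2387456901 (.cons 0x9610238745 (.cons 0x9016547832 .nil))) .done (.node 1 5 (.cons 0x7896154320 (.cons 0x5163478902 .nil)) (.leaf 0x2098745163 0 .done) .done)) .done) .done))) (.node 1 5 (.cons 0x6789021543 (.cons 0x6987023451 .nil)) (.node 1 3 (.cons 0x2134567890 (.cons 0x4569870132 .nil))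 (.node 1 7 (.cons 0x8961702345 .nil) (.node 4 6 (.cons 0x5643217890 (.cons 0x5469870132 .nil)) .done .done) .done) (.leaf 0x789615432 2 .done)) .done)) .done)) (.node 1 8 (.cons 0x9065432187 .nil) (.leaf 0x2345690781 2 (.node 3 6 (.cons 0x5436789021 (.cons 0x9870123654 (.cons 0x5436709812 .nil))) (.node 1 3 (.cons 0x2134567890 (.cons 0x8907654312 .nil)) (.node 5 9 (.cons 0x6789543120 (.cons 0x8954312076 (.cons 0x4596078132 .nil))) (.node 2 6 (.cons 0x7812609543 .nil) (.leaf 0x4598706213 1 (.leaf 0x9078126345 1 .done)) .done) (.node 3 5 (.cons 0x8769021354 (.cons 0x9607812354 .nil)) (.node 2 8 (.cons 0x4356709821 .nil) (.leaf 0x6543128907 0 (.leaf 0x1345690782 2 (.node 4 9 (.cons 0x3128765490 (.cons 0x8213549076 (.cons 0x6549078213 (.cons 0x6549078231 .nil)))) (.leaf 0x1287094563 1 .done) .done))) (.node 0 3 (.cons 0x4569870321 .nil) (.node 2 4 (.cons 0x2453187690 (.cons 0x2453076981 .nil)) (.leaf 0x769812453 0 (.node 2 5 (.cons 0x9067812543 (.cons 0x4521896703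 (.cons 0x4253670981 .nil))) (.leaf 0x7098125436 1 .done) .done)) .done) .done)) .done)) (.node 1 4 (.cons 0x7890145632 (.cons 0x3214569870 (.cons 0x5418709632 .nil))) (.node 2 5 (.cons 0x9067812543 (.cons 0x4523690781 (.cons 0x2543670981 (.cons 0x3670981452 .nil)))) (.node 0 3 (.cons 0x4521896703 .nil) (.leaf 0x1896703254 0 .done) .done) (.node 2 5 (.cons 0x9067812543 (.cons 0x3698702541 (.cons 0x4523690781 (.cons 0x2543670981 .nil)))) (.leaf 0x8709632541 0 .done) .done)) .done)) (.node 1 3 (.cons 0x2134567890 (.cons 0x8907654312 .nil)) (.node 4 6 (.cons 0x7098123465 (.cons 0x5469870231 .nil)) (.node 3 5 (.cons 0x9021876435 (.cons 0x4356709812 (.cons 0x9876453102 .nil))) (.leaf 0x7890213546 1 .done) (.node 5 9 (.cons 0x6789543120 (.cons 0x5981207643 .nil)) (.node 0 5 (.cons 0x9812346507 .nil) (.node 2 9 (.cons 0x6789205431 (.cons 0x8921345670 (.cons 0x8706592134 .nil))) .done .done) (.node 1 6 (.cons 0x7895461023 (.cons 0x8954316702 .nil)) .done .done)) .done))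 (.node 2 8 (.cons 0x3456709821 .nil) (.leaf 0x6543128907 0 (.leaf 0x1345690782 2 (.node 3 5 (.cons 0x8769021354 (.cons 0x4356709812 .nil)) (.node 4 9 (.cons 0x8769453120 (.cons 0x2189435670 (.cons 0x8706945321 (.cons 0x9435607812 (.cons 0x6549078231 .nil))))) .done (.node 2 4 (.cons 0x8769024531 (.cons 0x4235690781 (.cons 0x2435670981 .nil))) (.leaf 0x6781354209 1 .done) .done)) .done))) (.node 2 8 (.cons 0x9067821345 .nil) (.node 5 9 (.cons 0x9543128760 (.cons 0x4596078213 (.cons 0x4596078231 .nil))) (.node 4 7 (.cons 0x6598123470 (.cons 0x8123470956 (.cons 0x9560743281 .nil))) (.leaf 0x1234706598 0 .done) .done) (.leaf 0x7098213456 0 .done)) .done))) (.leaf 0x7096543218 1 .done)))) .done))))) (.node 1 7 (.cons 0x6543217890 .nil) (.node 0 3 .nil (.node 6 9 (.cons 0x8967120345 (.cons 0x4569871032 (.cons 0x4569871230 .nil))) (.node 0 5 (.cons 0x8967120543 (.cons 0x6987120543 .nil)) (.node 5 9 (.cons 0x8954302176 (.cons 0x8712069543 .nil)) (.node 4 6 (.cons 0x4659870321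 (.cons 0x8954671203 (.cons 0x5469871023 .nil))) .done .done) .done) (.node 2 9 (.cons 0x8921765430 .nil) (.node 0 8 (.cons 0x9217806543 (.cons 0x9234560871 .nil)) .done (.node 0 4 (.cons 0x8921765403 (.cons 0x6540329871 .nil)) (.node 0 8 (.cons 0x9803456712 .nil) (.node 0 5 (.cons 0x4321789650 .nil) (.node 2 8 (.cons 0x7128965043 (.cons 0x9821765034 .nil)) (.node 3 8 (.cons 0x6712983054 .nil) (.leaf 0x9217654038 0 .done) .done) .done) .done) .done) .done)) .done)) (.node 0 8 (.cons 0x9803456712 .nil) (.node 0 5 .nil (.node 4 6 (.cons 0x9870564321 .nil) (.leaf 0x3217890564 1 (.node 1 6 (.cons 0x7890561234 .nil) (.node 0 4 (.cons 0x9870432165 .nil) (.node 2 7 (.cons 0x8903456721 (.cons 0x9087216543 (.cons 0x3278904561 .nil))) .done .done) .done) (.leaf 0x5643217890 2 .done))) (.node 0 4 .nil (.node 2 9 (.cons 0x8921765430 (.cons 0x6504329871 (.cons 0x8921765403 .nil))) (.node 3 9 (.cons 0x9345608712 (.cons 0x6540178932 .nil)) (.leaf 0x871293456 2 (.leaf 0x6087129345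 1 .done)) .done) .done) .done)) (.node 0 5 .nil (.node 4 6 (.cons 0x9870564321 .nil) (.leaf 0x3217890564 1 (.node 1 6 (.cons 0x7890561234 .nil) (.node 2 7 (.cons 0x8903456721 (.cons 0x9087234561 (.cons 0x9803271654 .nil))) .done .done) (.leaf 0x5643217890 2 .done))) (.node 0 4 .nil (.node 5 8 (.cons 0x9854302176 .nil) (.node 1 6 (.cons 0x9854302167 (.cons 0x9856123407 (.cons 0x7890432165 .nil))) .done (.node 3 9 (.cons 0x6712039854 (.cons 0x9321785406 (.cons 0x4039856712 (.cons 0x6540178932 .nil)))) .done .done)) .done) .done)) .done)) (.node 0 8 .nil (.node 6 9 (.cons 0x4569871032 (.cons 0x7123456980 .nil)) (.leaf 0x3217809654 1 (.node 4 6 (.cons 0x5469871023 (.cons 0x9807123465 .nil)) (.node 2 4 (.cons 0x3245698710 (.cons 0x7108965423 .nil)) (.node 1 3 (.cons 0x2134567890 (.cons 0x9087654312 (.cons 0x5431769802 .nil))) (.node 3 9 (.cons 0x8765421093 (.cons 0x2176543980 (.cons 0x5678093421 .nil))) .done (.leaf 0x6908713245 2 .done)) .done) .done) (.leaf 0x2345690871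 2 .done))) (.node 0 5 .nil (.node 0 4 (.cons 0x9871234056 .nil) (.node 4 6 (.cons 0x9870564321 .nil) (.leaf 0x3217890564 1 (.leaf 0x5643217890 2 .done)) .done) (.node 0 4 .nil (.node 2 9 (.cons 0x9217806543 (.cons 0x8921765043 (.cons 0x6540329871 .nil))) (.node 3 9 (.cons 0x9345608712 (.cons 0x8934056712 .nil)) (.leaf 0x871293456 2 .done) .done) .done) .done)) .done)) .done))) (.node 0 8 (.cons 0x9087123456 .nil) tc9_3_47 (.node 7 9 (.cons 0x8790654321 .nil) (.node 4 7 (.cons 0x6547890123 .nil) (.node 3 7 .nil (.node 1 8 (.cons 0x2345609781 (.cons 0x9065437812 .nil)) (.node 1 6 (.cons 0x9781602345 (.cons 0x8902167345 .nil)) (.node 0 5 (.cons 0x9874321650 (.cons 0x9812054376 (.cons 0x4378905612 .nil))) (.leaf 0x3478905612 2 .done) .done) (.node 1 9 (.cons 0x8734560912 .nil) (.node 1 6 (.cons 0x8791602345 (.cons 0x8902167345 .nil)) .done (.node 2 8 (.cons 0x8237910654 .nil) (.leaf 0x4560198237 1 (.leaf 0x5609128734 0 .done)) .done)) .done)) (.node 5 7 .nil (.node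 4 6 (.cons 0x8907564321 .nil) (.leaf 0x8901234657 1 (.node 3 6 (.cons 0x9874563210 (.cons 0x9875463201 (.cons 0x8901754632 .nil))) (.leaf 0x2109874563 1 .done) .done)) (.node 2 7 .nil (.node 3 6 (.cons 0x9874563210 (.cons 0x4563278901 .nil)) (.node 0 4 (.cons 0x8972365401 (.cons 0x9872104563 (.cons 0x9872365401 .nil))) (.node 1 3 (.cons 0x2134567890 (.cons 0x5678904312 .nil)) (.leaf 0x5431278906 1 .done) .done) (.node 4 8 (.cons 0x6321754890 (.cons 0x5489012763 (.cons 0x5634890721 (.cons 0x7236548901 .nil)))) .done (.leaf 0x2109874563 1 .done))) .done) .done)) .done)) (.node 3 7 .nil (.node 1 8 (.cons 0x2345609781 (.cons 0x9065437812 .nil)) (.node 5 9 (.cons 0x6023459781 (.cons 0x6734598120 (.cons 0x9543781206 .nil))) (.node 1 6 (.cons 0x4597816023 (.cons 0x8160237954 .nil)) (.node 6 9 (.cons 0x5432069781 (.cons 0x5437698120 .nil)) .done .done) .done) (.node 1 9 (.cons 0x8734560912 .nil) (.node 1 6 (.cons 0x8791602345 (.cons 0x8902167345 .nil)) .done (.node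 2 8 (.cons 0x8237910654 .nil) (.node 0 3 (.cons 0x7654309821 (.cons 0x5674309182 .nil)) .done (.leaf 0x5609128734 0 .done)) .done)) .done)) (.node 5 7 .nil (.node 1 6 (.cons 0x8902167543 (.cons 0x4321657890 .nil)) (.node 0 5 (.cons 0x9873450216 (.cons 0x6178905432 .nil)) (.leaf 0x4321678905 2 .done) (.node 4 6 (.cons 0x8907564321 (.cons 0x9875461023 .nil)) (.leaf 0x8901234657 1 .done) .done)) (.node 2 7 .nil (.node 3 6 (.cons 0x5436789021 (.cons 0x4563278901 .nil)) (.node 1 4 (.cons 0x8902145763 (.cons 0x8972365410 (.cons 0x8907214365 .nil))) (.node 4 8 (.cons 0x6321754890 (.cons 0x5489012763 (.cons 0x9845637210 (.cons 0x7236548901 .nil)))) (.leaf 0x7563214890 1 .done) .done) (.node 1 3 (.cons 0x2134567890 .nil) (.node 0 8 (.cons 0x9087654312 (.cons 0x9087213456 .nil)) (.node 6 9 (.cons 0x4569873210 (.cons 0x4569087231 .nil)) (.leaf 0x3456908721 0 .done) .done) (.leaf 0x5431278906 1 .done)) .done)) .done) .done)) .done)) .done)) (.node 1 8 (.cons 0x4560978123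 .nil) tc9_3_46 .done)) .done))) (.node 4 7 (.cons 0x6547890123 .nil) tc9_3_45 .done)))
noncomputable def uc9_3_11 : T := tc9_3_48
theorem sub_c9_3_11 : root 9 refs9_3 [] 0x700000008706000000006030000000030500007000504000000004010000000010300000000302500000002018007000510 0xfe7fff3fffb7ff57ffcfffedfff5ffd3fff9fe5d 9 0 7 .nil uc9_3_11 = true := by decide +kernel
noncomputable def tc9_3_49 : T := (.node 1 8 (.cons 0x9065432187 (.cons 0x9812034567 .nil)) (.node 2 5 (.cons 0x9067812543 (.cons 0x9034521876 .nil)) (.node 0 7 (.cons 0x9812543076 .nil) (.node 1 9 (.cons 0x8912543076 .nil) (.node 3 8 (.cons 0x7654389120 (.cons 0x6702543891 .nil)) (.leaf 0x7609125438 1 .done) (.leaf 0x3452198760 2 (.node 7 9 (.cons 0x8790654321 (.cons 0x8791256034 .nil)) (.leaf 0x3452189760 0 (.node 3 6 (.cons 0x4521897630 (.cons 0x4520367981 .nil)) (.leaf 0x1987063452 2 (.leaf 0x2198706345 1 .done)) .done)) .done))) (.node 1 9 (.cons 0x8912567034 (.cons 0x6521987034 .nil)) (.node 3 8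 (.cons 0x7654389120 (.cons 0x9183452067 .nil)) (.leaf 0x7609125438 1 .done) (.leaf 0x3452198760 2 .done)) .done)) (.node 5 7 (.cons 0x9812034576 .nil) (.node 4 6 (.cons 0x7645218903 .nil) (.leaf 0x8901234657 1 (.node 3 9 (.cons 0x7645218930 (.cons 0x6457893210 (.cons 0x4657893210 (.cons 0x7645203981 .nil)))) .done (.node 1 3 (.cons 0x9813025467 (.cons 0x9031876452 (.cons 0x5764318902 .nil))) (.node 1 9 (.cons 0x7819064523 (.cons 0x5781906432 .nil)) (.node 2 7 (.cons 0x9187254603 (.cons 0x6452781903 (.cons 0x8901327546 (.cons 0x8901327564 .nil)))) .done .done) .done) .done))) (.node 1 7 (.cons 0x6543217890 .nil) (.node 2 6 (.cons 0x9817620543 .nil) (.node 5 9 (.cons 0x3459067812 (.cons 0x7621895430 (.cons 0x9543062187 .nil))) .done (.node 4 9 (.cons 0x1789432650 (.cons 0x5034981762 (.cons 0x5621789430 (.cons 0x6549871032 .nil)))) (.leaf 0x7625034981 1 .done) .done)) (.node 4 6 (.cons 0x5643217890 (.cons 0x7645218903 (.cons 0x4652309871 .nil))) (.leaf 0x1789034652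 0 .done) .done)) .done)) .done)) (.node 2 4 (.cons 0x9876542103 (.cons 0x9034218765 .nil)) (.node 1 3 (.cons 0x9813420567 (.cons 0x9056781342 (.cons 0x7650981342 .nil))) (.node 2 5 (.cons 0x9052431876 (.cons 0x6789031254 .nil)) (.node 4 9 (.cons 0x7652189430 (.cons 0x6789452103 (.cons 0x9430652187 (.cons 0x7652034981 .nil)))) .done .done) .done) (.node 0 4 .nil (.node 3 5 (.cons 0x6789012453 (.cons 0x9812043567 (.cons 0x9043567812 (.cons 0x7653409812 .nil)))) .done (.node 4 7 (.cons 0x6547890123 (.cons 0x9812034765 .nil)) (.node 5 9 (.cons 0x5906781243 (.cons 0x6590347812 (.cons 0x6590321874 .nil))) (.node 0 8 (.cons 0x3476590812 .nil) (.leaf 0x1234765908 2 .done) .done) (.node 1 6 (.cons 0x7432098165 (.cons 0x9874561032 .nil)) (.node 2 8 (.cons 0x7456109823 (.cons 0x9823016547 .nil)) (.node 1 3 (.cons 0x9824503167 (.cons 0x9031287654 (.cons 0x5476130982 .nil))) .done .done) .done) .done)) .done)) .done)) (.node 2 9 (.cons 0x7812906543 .nil) (.node 7 9 (.cons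 0x8790654321 .nil) (.leaf 0x2034567981 0 (.node 2 6 (.cons 0x5430629781 .nil) (.node 3 7 (.cons 0x1897345620 (.cons 0x6290543781 (.cons 0x9062187345 .nil))) (.leaf 0x8129065437 1 .done) (.leaf 0x3097812654 1 (.leaf 0x978126543 2 .done))) (.node 2 4 (.cons 0x9876542103 (.cons 0x6542187903 .nil)) (.node 3 5 (.cons 0x6789210354 .nil) (.node 5 7 (.cons 0x6092187543 (.cons 0x9218754306 .nil)) .done (.leaf 0x9876534210 2 .done)) .done) .done))) (.node 5 7 (.cons 0x9218756034 (.cons 0x6578129034 .nil)) (.node 1 5 (.cons 0x8765129034 .nil) (.node 4 6 (.cons 0x7892301564 .nil) (.leaf 0x8901234657 1 (.node 0 7 (.cons 0x9812075643 .nil) (.node 1 6 (.cons 0x5078923461 (.cons 0x8907543216 (.cons 0x4321657890 .nil))) .done .done) (.leaf 0x9875643210 2 .done))) (.node 1 9 (.cons 0x8754321906 .nil) (.node 0 7 (.cons 0x6543219870 .nil) (.node 1 6 (.cons 0x6198705432 (.cons 0x4321657890 .nil)) .done (.leaf 0x3219870654 0 .done)) .done) .done)) (.node 7 9 (.cons 0x8790654321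 .nil) (.node 5 8 (.cons 0x6097854321 (.cons 0x6798543021 .nil)) .done (.node 3 9 (.cons 0x4567893012 .nil) (.node 2 6 (.cons 0x2654309781 .nil) (.node 1 3 (.cons 0x7981345620 (.cons 0x2654318790 (.cons 0x5431267890 .nil))) (.node 2 4 (.cons 0x5603429781 (.cons 0x5624318790 (.cons 0x5098762431 .nil))) .done .done) (.node 0 7 (.cons 0x6218930754 .nil) (.leaf 0x6218970345 2 .done) (.leaf 0x978126543 2 .done))) (.node 2 6 (.cons 0x4578126093 (.cons 0x9306218754 .nil)) (.leaf 0x978126543 2 .done) .done)) .done)) .done)) (.node 4 7 (.cons 0x6547890123 (.cons 0x9218745603 (.cons 0x6547812903 .nil))) (.node 7 9 (.cons 0x8790654321 .nil) (.leaf 0x2034567981 0 (.node 0 4 (.cons 0x3045678921 .nil) (.node 1 6 (.cons 0x7981654302 .nil) (.leaf 0x8903216547 1 (.node 5 8 (.cons 0x8547923061 (.cons 0x3098547612 .nil)) (.leaf 0x4589032167 2 .done) (.node 2 5 (.cons 0x7981652034 (.cons 0x4309781652 .nil)) (.leaf 0x9876125430 0 .done) .done))) .done) .done)) (.node 2 6 (.cons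 0x3265478901 (.cons 0x9874562301 .nil)) (.node 1 5 (.cons 0x1562347890 (.cons 0x9815620347 (.cons 0x9034781562 (.cons 0x7430981562 .nil)))) .done .done) .done)) .done))) .done))) (.node 0 7 .nil (.node 1 3 (.cons 0x2134567890 (.cons 0x8907654312 .nil)) (.leaf 0x4567890213 0 (.node 3 8 (.cons 0x7654389021 (.cons 0x9834567021 .nil)) (.node 0 8 (.cons 0x9087654312 .nil) (.node 0 4 .nil (.node 1 6 (.cons 0x5430987612 (.cons 0x9870432165 .nil)) (.node 5 8 (.cons 0x9854307612 .nil) (.leaf 0x4589076123 2 (.leaf 0x9076123458 1 .done)) .done) .done) .done) (.node 3 6 (.cons 0x7890123654 (.cons 0x9870123654 .nil)) (.node 1 6 (.cons 0x5430987612 .nil) (.node 5 9 (.cons 0x2167895430 (.cons 0x8954307612 (.cons 0x6123078954 .nil))) (.leaf 0x1234598706 2 .done) (.node 0 4 (.cons 0x7890432165 .nil) (.node 3 5 (.cons 0x7890435612 (.cons 0x9870435612 .nil)) .done .done) .done)) (.node 2 6 (.cons 0x5430987621 .nil) (.node 1 9 (.cons 0x7019832654 (.cons 0x6234507891 (.cons 0x4326507891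 (.cons 0x3456219870 .nil)))) (.leaf 0x4567021983 0 .done) (.node 4 9 (.cons 0x8762130945 (.cons 0x2654907831 (.cons 0x8709456231 .nil))) (.leaf 0x6549078312 1 (.node 1 4 (.cons 0x5412678903 (.cons 0x7098326541 (.cons 0x9078314562 .nil))) (.node 1 5 (.cons 0x2678315490 (.cons 0x8315490762 (.cons 0x7026389415 .nil))) .done .done) .done)) .done)) .done)) .done)) (.node 3 8 (.cons 0x7654389021 (.cons 0x9834567021 .nil)) (.node 3 6 (.cons 0x7890123654 (.cons 0x9870123654 .nil)) (.node 1 6 (.cons 0x5430987612 .nil) (.node 5 9 (.cons 0x2167895430 (.cons 0x8954307612 (.cons 0x6123078954 .nil))) (.leaf 0x1234598706 2 .done) .done) .done) .done) .done))) (.node 0 4 .nil (.node 1 6 (.cons 0x5430987612 (.cons 0x9870432165 (.cons 0x7890432165 .nil))) (.node 1 3 (.cons 0x2134567890 (.cons 0x5678904312 .nil)) (.leaf 0x4567890213 0 (.node 1 5 (.cons 0x6789034512 (.cons 0x9870432156 .nil)) (.node 3 6 (.cons 0x7890123654 (.cons 0x9870436512 (.cons 0x7890436512 .nil))) (.node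 1 7 (.cons 0x6543217890 (.cons 0x9871045632 .nil)) (.node 5 8 (.cons 0x2098543671 (.cons 0x9856123407 .nil)) (.leaf 0x9021763458 1 .done) .done) .done) .done) .done)) .done) (.node 0 8 .nil (.node 1 7 (.cons 0x6543217890 (.cons 0x9802176543 (.cons 0x9087123456 .nil))) (.node 1 3 (.cons 0x2134567890 (.cons 0x9802134567 (.cons 0x9087654312 .nil))) (.node 1 6 (.cons 0x5430987612 .nil) (.node 1 4 (.cons 0x9870561432 .nil) (.node 2 9 (.cons 0x6178923450 (.cons 0x7613450892 (.cons 0x5678092143 .nil))) (.leaf 0x8921345670 2 .done) .done) (.node 2 6 (.cons 0x5430987621 (.cons 0x9805431762 .nil)) (.node 2 5 (.cons 0x6789034521 (.cons 0x9807652134 .nil)) (.node 4 6 (.cons 0x3264509871 (.cons 0x9805462317 (.cons 0x9087164325 .nil))) (.leaf 0x3461789052 2 .done) .done) .done) .done)) (.node 2 5 (.cons 0x4312567890 (.cons 0x9087652134 .nil)) (.node 3 9 (.cons 0x6789301254 (.cons 0x6712543980 .nil)) (.node 1 9 (.cons 0x6789125430 (.cons 0x8067193452 (.cons 0x6087193452 .nil)))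 .done .done) (.node 4 6 (.cons 0x3098764521 .nil) (.node 3 9 (.cons 0x1254678930 (.cons 0x4671398052 (.cons 0x3980254671 .nil))) .done (.leaf 0x9031254678 1 (.node 4 7 (.cons 0x1325647890 (.cons 0x9802134765 (.cons 0x9087465231 .nil))) .done .done))) .done)) .done)) .done) .done) .done)) .done)) (.node 0 7 .nil (.node 1 3 (.cons 0x2134567890 (.cons 0x8907654312 .nil)) (.leaf 0x4567890213 0 (.node 3 8 (.cons 0x7654389021 (.cons 0x9834567021 .nil)) (.node 1 5 (.cons 0x9067834512 (.cons 0x9834512076 (.cons 0x6709834512 .nil))) (.node 1 8 (.cons 0x9065432187 (.cons 0x9812076543 .nil)) (.node 3 5 (.cons 0x9812076534 (.cons 0x4356709812 .nil)) (.node 2 4 (.cons 0x5678903421 (.cons 0x9876530124 (.cons 0x9012453876 (.cons 0x6789012453 .nil)))) .done .done) .done) .done) (.node 3 6 (.cons 0x7890123654 (.cons 0x9870123654 .nil)) (.node 1 8 (.cons 0x9065432187 (.cons 0x9812076543 (.cons 0x5436709812 .nil))) (.node 3 5 (.cons 0x9812076534 .nil) (.node 2 4 (.cons 0x5678903421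 (.cons 0x9876530124 (.cons 0x6789012453 .nil))) (.node 1 9 (.cons 0x5670918342 (.cons 0x6781905342 .nil)) (.leaf 0x4567021983 0 (.leaf 0x4560789123 1 .done)) .done) .done) (.node 3 7 (.cons 0x9812073456 .nil) (.node 6 9 (.cons 0x1234569870 .nil) (.leaf 0x5698701234 2 (.leaf 0x8701234569 1 (.leaf 0x734569812 2 (.leaf 0x7096543218 1 .done)))) .done) .done)) .done) .done)) (.node 3 8 (.cons 0x7654389021 (.cons 0x9834567021 .nil)) (.node 3 6 (.cons 0x7890123654 (.cons 0x9870123654 .nil)) (.node 5 8 (.cons 0x9067854312 (.cons 0x9854312076 (.cons 0x4589076312 .nil))) (.node 3 9 (.cons 0x8934567021 .nil) (.node 0 8 (.cons 0x7654398021 .nil) (.node 2 5 (.cons 0x4309876521 (.cons 0x9807634521 (.cons 0x6780934521 (.cons 0x8907631254 .nil)))) .done .done) .done) .done) .done) .done) .done))) (.node 0 8 .nil (.node 1 7 (.cons 0x6543217890 (.cons 0x9802176543 (.cons 0x9087123456 .nil))) (.node 1 3 (.cons 0x2134567890 (.cons 0x9802134567 (.cons 0x9087654312 .nil))) (.node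 3 5 (.cons 0x8902176534 (.cons 0x9802176534 .nil)) (.node 4 9 (.cons 0x8712349065 (.cons 0x8094356712 (.cons 0x6534908712 .nil))) (.node 2 6 (.cons 0x4326509871 (.cons 0x5089431762 (.cons 0x5349087621 (.cons 0x3549087621 .nil)))) .done (.node 2 5 (.cons 0x4309876521 (.cons 0x2567134980 .nil)) (.node 1 6 (.cons 0x3167089452 .nil) (.leaf 0x5498076132 0 .done) .done) .done)) .done) (.node 1 8 (.cons 0x9065432187 .nil) (.node 3 8 (.cons 0x7654389021 .nil) (.node 3 9 (.cons 0x7654398120 .nil) (.node 2 4 (.cons 0x2439817650 (.cons 0x5671243980 (.cons 0x8093421765 .nil))) (.leaf 0x8176502439 0 .done) .done) .done) (.node 1 9 (.cons 0x9123456087 .nil) (.node 1 6 (.cons 0x6198705432 .nil) (.node 2 6 (.cons 0x5431267890 (.cons 0x2678913450 .nil)) (.leaf 0x9134502678 0 (.leaf 0x5078916234 1 .done)) .done) (.node 4 7 (.cons 0x6547890123 (.cons 0x5674308912 .nil)) (.node 1 4 (.cons 0x5678903412 .nil) (.node 3 9 (.cons 0x8934176502 (.cons 0x5671439802 .nil)) .done .done)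 (.node 1 6 (.cons 0x8902347165 (.cons 0x9802347165 .nil)) .done .done)) .done)) .done)) .done)) .done) (.node 0 4 .nil (.node 1 6 (.cons 0x7890432165 .nil) (.node 3 7 (.cons 0x9873210456 (.cons 0x9087345612 (.cons 0x4561098732 .nil))) (.node 2 7 (.cons 0x9087216543 (.cons 0x4327890561 .nil)) (.leaf 0x6127890345 1 (.node 1 3 (.cons 0x8904567213 (.cons 0x6132789054 .nil)) (.leaf 0x4567890213 0 (.node 1 7 (.cons 0x9802173456 .nil) (.leaf 0x3456178902 2 .done) .done)) .done)) .done) (.node 1 7 (.cons 0x6543217890 (.cons 0x9871650432 .nil)) (.node 3 7 (.cons 0x9802165437 (.cons 0x9873210456 .nil)) (.node 5 9 (.cons 0x6123459870 (.cons 0x7895612304 .nil)) (.node 6 8 (.cons 0x4598610732 (.cons 0x9043217865 (.cons 0x2370459861 .nil))) (.leaf 0x3409568712 0 .done) (.leaf 0x1234598706 2 .done)) .done) .done) (.node 5 8 (.cons 0x3458907612 .nil) (.node 6 9 (.cons 0x3458967021 (.cons 0x7043216985 (.cons 0x7045896123 .nil))) (.node 7 9 (.cons 0x6123458970 (.cons 0x7985612340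 (.cons 0x7985612304 .nil))) .done .done) (.leaf 0x9076123458 1 .done)) .done))) .done) .done)) .done)) .done)))
noncomputable def tc9_3_50 : T := (.node 4 6 .nil (.node 3 9 (.cons 0x6547893210 (.cons 0x5647893210 .nil)) (.leaf 0x4650123987 1 (.node 2 5 (.cons 0x8760934521 (.cons 0x3987645210 (.cons 0x8764521093 .nil))) (.node 0 3 (.cons 0x6478930521 .nil) (.node 1 6 (.cons 0x4521678930 (.cons 0x3987461250 .nil)) (.leaf 0x9304521678 1 .done) .done) .done) (.node 1 7 (.cons 0x6543217890 (.cons 0x5643217890 .nil)) (.node 0 8 (.cons 0x9087123456 (.cons 0x9087123465 .nil)) (.node 3 8 (.cons 0x7654389021 (.cons 0x9056438712 .nil)) (.node 0 7 (.cons 0x9834567021 .nil) (.node 2 9 (.cons 0x8392017654 (.cons 0x6450178392 (.cons 0x9217834650 .nil))) (.leaf 0x6507129834 0 .done) .done) .done) .done) (.node 5 8 (.cons 0x6712098543 (.cons 0x3985467102 (.cons 0x2390645871 .nil))) (.leaf 0x2017465893 1 .done) .done)) .done))) (.node 3 6 (.cons 0x9874563210 .nil) (.node 1 6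 .nil (.node 0 3 (.cons 0x5430987612 (.cons 0x9874305612 .nil)) (.leaf 0x5478903216 2 .done) (.node 2 6 .nil (.node 0 3 (.cons 0x9874305612 (.cons 0x5430987621 (.cons 0x9874305621 .nil))) .done (.node 6 9 .nil (.node 1 7 (.cons 0x6543217890 (.cons 0x8712345690 (.cons 0x2178963450 .nil))) .done (.node 6 8 .nil (.node 3 9 (.cons 0x6547893210 (.cons 0x7456893210 (.cons 0x7439861205 (.cons 0x7439865021 .nil)))) .done .done) .done)) .done)) .done)) (.leaf 0x2109874563 1 (.node 1 6 .nil (.node 0 3 (.cons 0x5430987612 (.cons 0x9874305612 .nil)) (.leaf 0x5478903216 2 .done) (.node 0 8 .nil (.node 7 9 (.cons 0x8974563201 (.cons 0x9780612345 (.cons 0x5647980123 (.cons 0x7980234561 .nil)))) (.leaf 0x5479801236 1 .done) (.node 0 7 .nil (.node 3 8 (.cons 0x7654389021 (.cons 0x9834567021 (.cons 0x9832107465 .nil))) .done (.node 0 3 .nil (.node 1 8 (.cons 0x7098123465 (.cons 0x9812034765 .nil)) (.node 2 9 (.cons 0x5634702981 (.cons 0x6503478921 (.cons 0x7892304561 .nil)))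 (.leaf 0x8703456129 2 .done) .done) .done) .done)) (.node 6 8 .nil (.node 3 9 (.cons 0x6547893210 (.cons 0x7456893210 (.cons 0x9321068745 (.cons 0x7439865021 .nil)))) .done (.node 0 7 .nil (.node 1 7 (.cons 0x5468907123 (.cons 0x8907123465 .nil)) (.leaf 0x2345689071 2 .done) (.node 0 3 .nil (.node 1 9 (.cons 0x2365478910 (.cons 0x7456891230 (.cons 0x5476891203 (.cons 0x6503478912 (.cons 0x7456891203 .nil))))) .done .done) .done)) .done)) .done))) (.node 6 9 .nil (.node 1 7 (.cons 0x6543217890 (.cons 0x8712345690 (.cons 0x8963201745 .nil))) .done (.node 6 8 .nil (.node 3 9 (.cons 0x6547893210 (.cons 0x7456893210 (.cons 0x7439861205 (.cons 0x7439865021 .nil)))) .done (.node 2 6 .nil (.node 0 3 (.cons 0x9874305612 (.cons 0x5430987621 (.cons 0x9874305621 .nil))) .done .done) .done)) .done)) .done))) .done))) .done)) (.node 1 7 (.cons 0x6543217890 .nil) (.node 0 8 (.cons 0x9802176543 .nil) (.node 0 3 .nil (.node 6 9 (.cons 0x8745690123 (.cons 0x5430896712 (.cons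 0x4305698712 (.cons 0x4569871032 (.cons 0x4569871230 .nil))))) .done (.node 0 7 .nil (.node 6 9 (.cons 0x4305698712 (.cons 0x8965432170 (.cons 0x8965432071 .nil))) (.leaf 0x8701234569 1 (.leaf 0x7123456980 0 .done)) .done) .done)) (.node 1 6 (.cons 0x9087432165 .nil) (.node 1 5 (.cons 0x9087432156 .nil) (.node 0 3 .nil (.node 6 9 (.cons 0x5690874321 (.cons 0x4305698712 (.cons 0x4569871032 (.cons 0x4569871230 .nil)))) .done (.node 0 7 .nil (.node 3 8 (.cons 0x9834567120 (.cons 0x9834567021 .nil)) (.leaf 0x6547098321 1 .done) .done) .done)) .done) (.node 0 7 .nil (.node 5 9 (.cons 0x8743216590 (.cons 0x8956170432 (.cons 0x8956170234 .nil))) (.node 6 9 (.cons 0x5690874321 (.cons 0x8965432170 (.cons 0x8965432071 .nil))) .done .done) (.node 0 3 .nil (.node 2 9 (.cons 0x5617892340 (.cons 0x6540329871 .nil)) (.leaf 0x3056129874 1 (.node 1 5 (.cons 0x6517892340 (.cons 0x8765129034 .nil)) (.node 2 4 (.cons 0x7890561243 (.cons 0x9876542103 .nil)) (.leaf 0x3098765124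 0 .done) .done) .done)) .done) .done)) .done)) .done)) (.node 0 7 .nil (.node 1 8 (.cons 0x9065432187 (.cons 0x9812076543 .nil)) (.node 1 3 (.cons 0x2134567890 (.cons 0x8907654312 .nil)) (.leaf 0x4567890213 0 (.node 0 8 (.cons 0x9087654312 .nil) (.node 3 8 (.cons 0x7654389021 (.cons 0x9834567021 .nil)) (.node 1 9 (.cons 0x5674381902 .nil) (.node 2 5 (.cons 0x2567438190 (.cons 0x6708912543 (.cons 0x4381907652 (.cons 0x6523819074 .nil)))) .done (.leaf 0x4560789123 1 .done)) .done) .done) .done)) (.node 6 9 (.cons 0x8745690123 .nil) (.leaf 0x4569078123 1 (.leaf 0x8701234569 1 (.node 3 6 (.cons 0x6345098712 (.cons 0x5436981702 .nil)) (.node 2 5 (.cons 0x2543698170 (.cons 0x8170963452 .nil)) (.node 0 3 (.cons 0x6789034521 (.cons 0x4309876521 .nil)) .done (.leaf 0x1890743652 2 .done)) (.node 2 5 (.cons 0x8174369025 (.cons 0x6981702543 (.cons 0x9078125634 .nil))) (.leaf 0x1890743652 2 .done) .done)) (.leaf 0x7096543218 1 .done)))) .done)) (.node 7 9 (.cons 0x8790654321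 .nil) (.node 3 7 .nil (.node 2 6 (.cons 0x6217890543 (.cons 0x9873265401 (.cons 0x4378905621 .nil))) (.node 1 6 (.cons 0x5409871623 (.cons 0x8973201654 (.cons 0x4378905612 .nil))) (.node 2 7 (.cons 0x8905437216 .nil) (.node 0 8 (.cons 0x1654327980 (.cons 0x9805437216 .nil)) .done .done) .done) .done) (.node 0 8 .nil (.node 1 6 (.cons 0x8973201654 (.cons 0x7980234561 (.cons 0x4561089732 (.cons 0x9087432165 .nil)))) .done (.node 0 3 .nil (.node 4 9 (.cons 0x6549873210 (.cons 0x8945673012 (.cons 0x6549873012 .nil))) (.node 2 4 (.cons 0x9876542103 .nil) (.node 1 6 (.cons 0x8973201654 (.cons 0x9870561243 (.cons 0x8973245610 (.cons 0x9873421650 .nil)))) .done .done) .done) .done) .done)) .done)) (.node 0 3 .nil (.node 2 6 (.cons 0x6217890543 .nil) (.node 1 9 (.cons 0x5623407891 (.cons 0x7891265034 (.cons 0x7891265430 .nil))) (.leaf 0x2654307891 1 .done) (.node 1 4 (.cons 0x8790654123 (.cons 0x8976541203 (.cons 0x7890341265 .nil))) (.node 4 6 (.cons 0x5098712643 (.cons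 0x9871264305 .nil)) .done .done) (.leaf 0x987126543 0 .done))) (.node 0 8 .nil (.node 1 6 (.cons 0x5430987612 (.cons 0x8097456123 (.cons 0x9087432165 .nil))) (.node 1 3 (.cons 0x2134567890 (.cons 0x9087654312 (.cons 0x7980456132 .nil))) (.leaf 0x231654798 1 .done) .done) .done) .done)) .done)) .done)) (.node 4 6 (.cons 0x5643217890 .nil) (.node 1 6 (.cons 0x5617890432 .nil) (.node 2 4 (.cons 0x6509871243 .nil) (.node 4 8 (.cons 0x5671209843 .nil) (.node 1 4 .nil (.node 3 6 (.cons 0x4365098712 (.cons 0x7890563412 (.cons 0x7890145632 .nil))) .done .done) .done) .done) .done) (.node 1 6 (.cons 0x5617890432 .nil) (.node 0 7 (.cons 0x8907123465 .nil) (.node 0 3 .nil (.node 2 9 (.cons 0x5617892340 (.cons 0x7892165034 (.cons 0x7892304561 .nil))) (.leaf 0x3056129874 1 .done) (.node 0 8 .nil (.node 5 9 (.cons 0x6123459870 (.cons 0x3459807612 (.cons 0x5980716432 (.cons 0x7089546123 .nil)))) .done .done) .done)) .done) .done) .done)) .done))) (.node 0 7 .nil (.node 3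 6 (.cons 0x7890123654 (.cons 0x9870123654 .nil)) (.node 1 8 (.cons 0x9065432187 (.cons 0x9812076543 (.cons 0x5436709812 .nil))) (.node 2 5 (.cons 0x8901254763 (.cons 0x9812507436 .nil)) (.leaf 0x981256347 2 (.node 2 7 (.cons 0x9812705634 .nil) (.leaf 0x981274365 2 (.leaf 0x9056347218 1 .done)) .done)) (.node 4 8 (.cons 0x9845632107 .nil) (.node 7 9 (.cons 0x5609784321 .nil) (.leaf 0x3654897012 0 (.node 1 7 (.cons 0x8456321790 (.cons 0x5671209843 .nil)) (.node 0 3 (.cons 0x6305489712 (.cons 0x9843021765 .nil)) .done .done) .done)) .done) .done)) (.node 2 4 (.cons 0x7890563421 (.cons 0x9870563421 .nil)) (.node 2 6 (.cons 0x5098743621 .nil) (.node 1 9 (.cons 0x7891045623 (.cons 0x8912634705 (.cons 0x6219870543 (.cons 0x5623407891 (.cons 0x3456219870 .nil))))) .done (.node 2 5 (.cons 0x6347890521 .nil) (.node 1 9 (.cons 0x6347891250 (.cons 0x8912507436 (.cons 0x6523407891 (.cons 0x4365219870 .nil)))) (.node 1 3 (.cons 0x3198762540 (.cons 0x9870456231 (.cons 0x8907654312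 .nil))) (.leaf 0x7045263198 1 .done) .done) .done) .done)) .done) (.node 3 8 (.cons 0x7654389021 (.cons 0x9834567021 .nil)) (.node 1 5 (.cons 0x9067834512 (.cons 0x9834512076 (.cons 0x6709834512 .nil))) (.node 1 7 (.cons 0x6543217890 .nil) (.node 6 9 (.cons 0x5438967120 (.cons 0x8965432170 (.cons 0x8709651234 (.cons 0x6907832154 .nil)))) .done (.leaf 0x2098345671 0 .done)) .done) (.node 1 5 (.cons 0x7651209834 (.cons 0x4389076512 .nil)) (.leaf 0x3890215674 1 (.node 1 4 (.cons 0x7890145632 (.cons 0x9870145632 (.cons 0x5670983412 .nil))) (.node 4 9 (.cons 0x2156783490 (.cons 0x8349076512 .nil)) .done .done) .done)) .done)) .done))) (.node 0 8 .nil (.node 1 7 (.cons 0x6543217890 (.cons 0x9802176543 (.cons 0x9087123456 .nil))) .done (.node 0 3 .nil (.node 1 7 (.cons 0x6543217890 .nil) (.node 6 9 (.cons 0x9608712345 (.cons 0x5430896712 (.cons 0x4305698712 (.cons 0x4569871032 (.cons 0x4569871230 .nil))))) .done (.node 2 4 (.cons 0x9876542103 .nil) (.node 1 6 (.cons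 0x9870561243 (.cons 0x7890561243 .nil)) (.leaf 0x8903216547 1 (.node 3 6 (.cons 0x9870563421 (.cons 0x7890563421 .nil)) (.leaf 0x563421789 1 .done) .done)) (.node 1 8 (.cons 0x9065432187 (.cons 0x9812034567 (.cons 0x9034218765 .nil))) (.node 7 9 (.cons 0x8790654321 (.cons 0x6542187903 .nil)) (.node 6 9 (.cons 0x8712345690 (.cons 0x7812430965 (.cons 0x7812456903 .nil))) (.leaf 0x5423018796 1 .done) .done) .done) .done)) .done)) .done) .done)) .done)) .done)))
noncomputable def tc9_3_51 : T := (.node 2 4 .nil (.node 0 3 (.cons 0x5678903421 .nil) (.node 1 6 (.cons 0x9874305612 .nil) (.leaf 0x5478903216 2 (.node 0 7 (.cons 0x9870561243 (.cons 0x9870165423 .nil)) .done (.node 7 9 (.cons 0x8790654321 (.cons 0x8974305612 (.cons 0x8974561032 (.cons 0x8974561230 .nil)))) (.node 2 8 (.cons 0x7612890345 (.cons 0x6128974305 (.cons 0x6128974503 .nil))) (.leaf 0x1032897456 0 .done) .done) .done))) (.node 3 6 (.cons 0x9874563210 (.cons 0x7890563421 .nil)) (.node 0 7 (.cons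 0x9870123654 (.cons 0x9870563421 .nil)) .done (.node 1 6 (.cons 0x9874561032 (.cons 0x7890561243 .nil)) (.node 2 9 (.cons 0x5429876103 (.cons 0x7892430561 .nil)) (.leaf 0x8923016547 2 .done) .done) .done)) .done)) (.node 1 7 (.cons 0x6543217890 .nil) (.node 0 8 (.cons 0x9087123456 .nil) (.node 0 3 .nil (.node 1 5 (.cons 0x9087651243 (.cons 0x9803476512 .nil)) (.node 2 9 (.cons 0x6789215430 (.cons 0x6503478921 (.cons 0x6789215403 .nil))) (.node 1 9 (.cons 0x5674308912 (.cons 0x6503478912 .nil)) (.leaf 0x7803429156 1 (.leaf 0x8765192430 2 .done)) .done) .done) (.node 0 7 .nil (.node 1 5 (.cons 0x9087651243 (.cons 0x9807432156 .nil)) (.node 3 8 (.cons 0x7654389021 (.cons 0x9834567021 (.cons 0x9834512076 .nil))) .done .done) .done) .done)) (.node 0 3 .nil (.node 1 6 (.cons 0x9087165432 (.cons 0x9874305612 .nil)) (.node 0 7 (.cons 0x9870345612 .nil) (.node 2 9 (.cons 0x9234561780 (.cons 0x6503478921 (.cons 0x9230871654 .nil))) (.leaf 0x8703456129 2 .done) .done)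 (.node 7 9 (.cons 0x8790654321 (.cons 0x8974305612 (.cons 0x8974561032 (.cons 0x8974561230 .nil)))) (.node 2 8 (.cons 0x6179082345 (.cons 0x7612890345 (.cons 0x6128974305 (.cons 0x6128974503 .nil)))) (.leaf 0x1032897456 0 .done) .done) .done)) (.node 0 7 .nil (.node 1 3 (.cons 0x2134567890 (.cons 0x8907654312 .nil)) (.leaf 0x4567890213 0 (.node 3 8 (.cons 0x7654389021 (.cons 0x9834567021 .nil)) .done .done)) .done) .done)) .done)) (.node 3 6 (.cons 0x9874563210 .nil) (.node 2 6 (.cons 0x9871263450 .nil) (.node 1 6 .nil (.node 0 3 (.cons 0x9874305621 (.cons 0x9874305612 (.cons 0x9874561032 .nil))) .done (.node 4 6 (.cons 0x5098712643 .nil) (.node 6 8 (.cons 0x9068712345 .nil) (.node 6 9 (.cons 0x2178963450 .nil) .done .done) .done) .done)) (.node 0 3 (.cons 0x9871263054 .nil) (.node 0 7 (.cons 0x9870123654 .nil) (.node 0 8 (.cons 0x9802176345 .nil) .done .done) (.node 0 7 (.cons 0x9870123654 .nil) (.node 0 8 (.cons 0x9802176345 .nil) .done .done) .done)) .done))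 (.node 0 8 (.cons 0x9801236547 .nil) (.node 0 3 .nil (.node 2 9 (.cons 0x7436508921 (.cons 0x8921036745 (.cons 0x6503478921 (.cons 0x8921745036 .nil)))) .done (.node 0 7 .nil (.node 2 8 (.cons 0x5436712890 (.cons 0x9821705436 (.cons 0x5436709821 .nil))) (.node 1 3 (.cons 0x2134567890 (.cons 0x9821367045 (.cons 0x9821365074 .nil))) (.leaf 0x5631289074 1 .done) .done) .done) .done)) (.node 0 3 .nil (.node 2 9 (.cons 0x7456329801 (.cons 0x8921036745 (.cons 0x6503478921 (.cons 0x8921745036 .nil)))) .done (.node 0 7 .nil (.node 1 9 (.cons 0x6503478912 .nil) (.leaf 0x7456321980 0 (.node 3 8 (.cons 0x5674389120 (.cons 0x9834567021 .nil)) (.leaf 0x742198365 1 .done) (.leaf 0x4560789123 1 .done))) .done) .done)) .done)) (.leaf 0x2109874563 1 (.node 5 8 (.cons 0x2098543671 .nil) (.node 0 3 (.cons 0x9854302176 .nil) (.node 3 9 (.cons 0x6547893210 .nil) (.node 0 7 (.cons 0x8932107456 .nil) (.node 0 8 (.cons 0x9345806712 .nil) .done .done) (.leaf 0x245893671 2 .done)) .done)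 (.node 0 3 .nil (.node 2 6 (.cons 0x3458902671 (.cons 0x9854302671 (.cons 0x9874305621 .nil))) (.leaf 0x987126543 0 .done) (.node 0 8 .nil (.node 5 9 (.cons 0x8956743021 (.cons 0x6320895471 .nil)) (.leaf 0x4598021763 2 .done) .done) .done)) (.leaf 0x9021763458 1 .done))) .done)))) (.node 4 6 (.cons 0x5643217890 .nil) (.node 0 7 (.cons 0x8907123465 .nil) (.node 0 3 .nil (.node 5 8 (.cons 0x7123465890 (.cons 0x9856712034 (.cons 0x9856471032 (.cons 0x9856471230 .nil)))) .done (.node 0 8 .nil (.node 3 9 (.cons 0x6547893210 (.cons 0x6508934712 (.cons 0x5647108932 .nil))) (.leaf 0x2089345671 0 .done) .done) .done)) .done) (.node 4 8 (.cons 0x5671209843 .nil) (.node 4 9 (.cons 0x8712349065 .nil) (.node 1 4 .nil (.node 2 5 (.cons 0x9065217843 (.cons 0x3256417890 .nil)) (.node 5 8 (.cons 0x9856471023 (.cons 0x3417658902 (.cons 0x7146589023 .nil))) .done .done) .done) .done) .done) .done)) .done))) .done)) (.node 2 4 .nil (.node 1 7 (.cons 0x6543217890 (.cons 0x6509871243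 .nil)) (.node 0 3 (.cons 0x5678903421 (.cons 0x9871032456 .nil)) (.node 6 9 (.cons 0x8745690123 (.cons 0x3421789650 (.cons 0x3245698710 (.cons 0x4569871230 .nil)))) (.node 0 8 (.cons 0x7108965423 .nil) (.node 1 6 (.cons 0x9087432165 (.cons 0x7890561243 .nil)) .done .done) .done) .done) (.node 3 7 (.cons 0x6509873421 (.cons 0x6542378901 .nil)) (.node 1 6 (.cons 0x4378905612 .nil) (.leaf 0x9873216540 1 (.leaf 0x5437890216 0 (.node 0 3 (.cons 0x5678903421 .nil) (.node 0 7 (.cons 0x8907345612 .nil) (.node 3 6 (.cons 0x9870563421 (.cons 0x7890563421 .nil)) .done .done) .done) .done))) (.node 3 8 (.cons 0x7654389021 (.cons 0x9837654201 .nil)) (.leaf 0x1245673890 0 (.node 1 5 (.cons 0x7651209834 (.cons 0x7651243890 .nil)) (.leaf 0x6743890215 2 (.node 6 9 (.cons 0x4569873210 (.cons 0x7389650124 (.cons 0x1243789650 (.cons 0x6905178342 (.cons 0x5124096783 .nil))))) .done .done)) .done)) .done)) .done)) (.node 0 3 (.cons 0x9876542103 .nil) (.node 0 7 .nil (.node 1 9 (.cons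 0x5678912430 (.cons 0x8912430765 (.cons 0x6507891243 .nil))) (.node 3 9 (.cons 0x3987654210 (.cons 0x6542398701 .nil)) (.node 0 8 (.cons 0x7654210893 .nil) (.node 6 8 (.cons 0x7860912345 (.cons 0x7012398654 (.cons 0x7056893421 (.cons 0x8654709321 .nil)))) .done .done) .done) (.leaf 0x4560789123 1 .done)) (.node 0 8 .nil (.node 1 3 (.cons 0x2134567890 (.cons 0x9802134567 (.cons 0x9087654312 .nil))) (.node 1 6 (.cons 0x9870165423 (.cons 0x9087432165 .nil)) (.node 2 9 (.cons 0x1654329870 (.cons 0x5431670892 (.cons 0x5670892431 (.cons 0x7089231654 .nil)))) .done .done) (.node 3 9 (.cons 0x3987654210 (.cons 0x7654210893 .nil)) (.node 5 7 (.cons 0x8931024576 (.cons 0x9802134576 (.cons 0x6754208931 .nil))) .done .done) .done)) .done) .done)) (.node 0 7 .nil (.node 3 6 (.cons 0x7890123654 (.cons 0x9870123654 (.cons 0x9870563421 .nil))) (.node 1 8 (.cons 0x9065432187 (.cons 0x9812076543 (.cons 0x5436709812 (.cons 0x9812436507 .nil)))) (.leaf 0x6547098123 1 .done) .done)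 (.node 0 8 .nil (.node 1 7 (.cons 0x6543217890 (.cons 0x9802176543 .nil)) (.node 1 6 (.cons 0x9870561243 (.cons 0x9087432165 .nil)) (.node 3 9 (.cons 0x3987654210 (.cons 0x5670893421 (.cons 0x7612089345 (.cons 0x9347805612 .nil)))) .done (.node 7 9 (.cons 0x8790654321 (.cons 0x7980165423 (.cons 0x7980324561 .nil))) .done .done)) .done) .done) .done)) .done)) .done)) (.node 0 7 .nil (.node 1 3 (.cons 0x2134567890 (.cons 0x8907654312 .nil)) (.leaf 0x4567890213 0 (.node 2 6 (.cons 0x3265478901 .nil) (.node 1 9 (.cons 0x3265478910 (.cons 0x8910745623 (.cons 0x6219870543 (.cons 0x3456219870 .nil)))) (.node 3 5 (.cons 0x9876210453 (.cons 0x8912076534 (.cons 0x8912670435 .nil))) (.leaf 0x7891265340 0 .done) .done) (.node 1 5 (.cons 0x1562347890 (.cons 0x8907432651 .nil)) (.node 3 9 (.cons 0x4789326510 (.cons 0x8932651074 (.cons 0x6215078934 .nil))) (.leaf 0x8740156239 1 (.leaf 0x2398740156 2 .done)) .done) (.leaf 0x5478901326 0 .done))) (.node 2 6 (.cons 0x5431267890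 (.cons 0x9870543126 .nil)) (.node 1 6 (.cons 0x5098743162 .nil) (.node 5 8 (.cons 0x5890267431 (.cons 0x9854312076 (.cons 0x9854316702 (.cons 0x9854702316 .nil)))) .done (.node 3 6 (.cons 0x2365478901 (.cons 0x9870123654 .nil)) (.node 6 8 (.cons 0x7689021345 (.cons 0x9867021345 (.cons 0x5470986132 .nil))) .done .done) .done)) (.node 6 9 (.cons 0x1234569870 .nil) (.leaf 0x5698701234 2 (.leaf 0x543126987 1 (.leaf 0x8701234569 1 (.node 1 5 (.cons 0x6231547890 (.cons 0x4513269870 (.cons 0x8709623154 (.cons 0x8907451326 .nil)))) .done .done)))) .done)) (.node 4 6 (.cons 0x7890564312 (.cons 0x9870564312 .nil)) (.node 3 6 (.cons 0x2365478901 (.cons 0x9870123654 .nil)) (.node 0 3 .nil (.node 6 9 (.cons 0x1234569870 (.cons 0x4569870321 .nil)) (.leaf 0x5698701234 2 (.leaf 0x8701234569 1 .done)) .done) .done) .done) .done)))) (.node 7 9 (.cons 0x8790654321 .nil) (.node 0 8 .nil (.node 1 7 (.cons 0x6543217890 (.cons 0x9802176543 (.cons 0x9087123456 .nil))) .done (.node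 0 3 .nil (.node 5 8 (.cons 0x6097854321 (.cons 0x6798543021 .nil)) (.node 1 6 (.cons 0x4587906123 (.cons 0x9874561032 .nil)) (.node 2 4 (.cons 0x3247098561 (.cons 0x9876542103 (.cons 0x8542167903 .nil))) .done (.node 2 4 (.cons 0x5610987423 (.cons 0x9876542103 (.cons 0x9032478561 .nil))) .done .done)) .done) .done) .done)) (.node 0 3 .nil (.node 1 4 (.cons 0x8790654123 (.cons 0x8976541203 (.cons 0x8790321456 .nil))) (.node 4 6 (.cons 0x8970321465 .nil) (.node 2 4 (.cons 0x9876542103 .nil) (.node 1 8 (.cons 0x4560978123 (.cons 0x4567981203 (.cons 0x5460978123 (.cons 0x9034218765 (.cons 0x6542187903 .nil))))) .done .done) .done) (.node 4 8 (.cons 0x9784560321 .nil) (.node 1 5 (.cons 0x9078432156 (.cons 0x3489076512 .nil)) (.node 1 8 (.cons 0x4567981203 (.cons 0x3476518902 .nil)) (.leaf 0x9023476518 1 .done) (.leaf 0x2348790651 2 .done)) .done) .done)) (.node 0 8 .nil (.node 1 7 (.cons 0x6543217890 (.cons 0x9802176543 (.cons 0x9087123456 .nil))) (.node 1 3 (.cons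 0x2134567890 (.cons 0x6547980231 (.cons 0x9087654312 .nil))) (.node 2 4 (.cons 0x3124567980 (.cons 0x8097654213 .nil)) (.node 1 8 (.cons 0x2456798130 (.cons 0x8132479065 .nil)) (.leaf 0x4567981302 1 .done) .done) (.node 1 6 (.cons 0x3208974561 .nil) (.node 2 5 (.cons 0x4312567890 (.cons 0x9802567431 (.cons 0x9087652134 (.cons 0x6178903254 .nil)))) .done (.leaf 0x8974561320 0 .done)) .done)) .done) .done) .done)) .done)) .done)) .done)))
noncomputable def tc9_3_52 : T := (.node 1 6 (.cons 0x7890561234 .nil) (.node 1 7 (.cons 0x6509871234 .nil) (.node 0 3 (.cons 0x5430987612 .nil) (.node 0 8 (.cons 0x9802345617 .nil) (.node 5 7 (.cons 0x9087543216 (.cons 0x9802345716 .nil)) (.node 4 9 (.cons 0x8943021765 (.cons 0x8943056712 (.cons 0x8754906123 (.cons 0x6503498712 (.cons 0x6175498023 .nil))))) .done .done) (.node 3 7 (.cons 0x9802173456 (.cons 0x9087345612 (.cons 0x8902167345 (.cons 0x4561098732 .nil)))) .done .done)) (.node 2 9 (.cons 0x8920345671 (.cons 0x4561789230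 .nil)) (.node 4 6 (.cons 0x7892301645 (.cons 0x6450178923 .nil)) (.leaf 0x3298716450 0 .done) (.node 3 9 (.cons 0x8934567120 (.cons 0x8934502176 .nil)) (.node 7 9 (.cons 0x8790654321 (.cons 0x8790612345 (.cons 0x8971654320 .nil))) (.node 4 8 (.cons 0x5487906123 (.cons 0x3489205671 .nil)) (.leaf 0x9784561230 1 (.leaf 0x6548790321 1 (.node 0 4 (.cons 0x3405678921 .nil) (.node 0 8 (.cons 0x4398056712 .nil) .done .done) .done))) .done) .done) .done)) .done)) (.node 4 7 (.cons 0x6547890123 .nil) (.leaf 0x2347890561 1 (.node 4 6 (.cons 0x7890564321 .nil) (.leaf 0x2346509871 1 (.node 3 6 (.cons 0x9874501236 (.cons 0x5478901632 .nil)) (.node 0 3 (.cons 0x5430987612 .nil) (.node 0 4 (.cons 0x7890432165 .nil) (.node 5 7 (.cons 0x8905746321 .nil) (.leaf 0x1657890432 1 (.leaf 0x9875612340 1 .done)) .done) .done) .done) (.leaf 0x564321789 1 .done))) (.leaf 0x9874321650 1 .done))) (.leaf 0x4320987165 1 .done))) (.node 0 7 (.cons 0x9870543216 (.cons 0x9870561234 .nil)) (.node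 4 7 (.cons 0x6547890123 .nil) (.node 3 9 (.cons 0x6547893210 (.cons 0x2167893450 (.cons 0x8934765021 .nil))) (.node 1 9 (.cons 0x2345619870 (.cons 0x6198705432 (.cons 0x8912056743 .nil))) (.node 0 3 (.cons 0x6503478912 .nil) (.node 2 6 (.cons 0x8932654701 (.cons 0x3478912650 (.cons 0x8930547621 .nil))) .done .done) .done) (.node 2 4 (.cons 0x7893245610 (.cons 0x3987610542 .nil)) (.leaf 0x1654239870 0 .done) .done)) (.leaf 0x3216509874 1 (.node 3 9 (.cons 0x4561078932 (.cons 0x2167893450 (.cons 0x8934761205 (.cons 0x6105478932 .nil)))) (.node 1 7 (.cons 0x6543217890 (.cons 0x6509871234 .nil)) (.node 2 8 (.cons 0x8217654390 (.cons 0x6745012893 (.cons 0x7612893450 (.cons 0x8217650934 (.cons 0x3982167450 .nil))))) .done .done) .done) .done))) .done) (.node 1 3 (.cons 0x2134567890 (.cons 0x6789054312 .nil)) (.leaf 0x4567890213 0 (.node 1 7 (.cons 0x6543217890 (.cons 0x6509871234 .nil)) (.node 4 6 (.cons 0x9871234650 .nil) (.leaf 0x3217890564 1 (.node 3 6 (.cons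 0x7890123654 .nil) (.node 1 4 (.cons 0x5098763412 (.cons 0x7890563412 .nil)) (.node 4 8 (.cons 0x9843671205 (.cons 0x9843650217 .nil)) (.node 5 7 (.cons 0x9014875632 (.cons 0x4109875632 (.cons 0x9841756320 .nil))) .done .done) .done) (.node 2 9 (.cons 0x4563298710 (.cons 0x7892364501 (.cons 0x8765092134 .nil))) (.node 0 3 (.cons 0x3054678921 .nil) (.leaf 0x6789213054 1 .done) .done) .done)) (.leaf 0x5643217890 2 .done))) (.node 6 8 (.cons 0x9068712345 (.cons 0x9867120543 (.cons 0x7168905432 .nil))) (.node 4 7 (.cons 0x6547890123 (.cons 0x9056874321 (.cons 0x5098617432 .nil))) (.node 3 5 (.cons 0x9867120534 (.cons 0x4350986712 .nil)) (.node 4 9 (.cons 0x7498653201 (.cons 0x6894710532 (.cons 0x7498610532 (.cons 0x7865094312 (.cons 0x9478650132 .nil))))) .done .done) .done) (.node 4 6 (.cons 0x9054687132 .nil) (.node 6 9 (.cons 0x4509687132 .nil) (.node 2 4 (.cons 0x7168905423 .nil) (.node 2 6 (.cons 0x3450987621 .nil) .done (.leaf 0x7869054231 1 (.leaf 0x8690542317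 2 .done))) .done) (.node 3 9 (.cons 0x7123986450 (.cons 0x3987645012 (.cons 0x7893210564 (.cons 0x6450178932 .nil)))) (.leaf 0x2176893450 0 .done) .done)) .done)) .done)) (.node 3 6 (.cons 0x7890123654 .nil) (.node 4 6 (.cons 0x5098764312 .nil) (.node 5 7 (.cons 0x4657890132 .nil) (.leaf 0x6578901234 2 (.node 3 8 (.cons 0x7654389021 (.cons 0x9012387546 .nil)) (.node 1 7 (.cons 0x6543217890 .nil) (.leaf 0x3217890564 1 (.node 2 6 (.cons 0x7162389054 .nil) (.leaf 0x9054326178 1 .done) .done)) .done) (.leaf 0x1346578902 2 .done))) (.node 1 7 (.cons 0x6543217890 (.cons 0x9871054632 .nil)) (.leaf 0x5643217890 2 (.leaf 0x564321789 1 .done)) .done)) (.node 4 6 (.cons 0x5098764312 .nil) (.node 5 7 (.cons 0x4657890132 .nil) (.leaf 0x6578901234 2 (.node 1 7 (.cons 0x6543217890 .nil) (.leaf 0x3217890564 1 (.node 3 8 (.cons 0x7654389021 (.cons 0x9834502176 (.cons 0x9012387546 .nil))) .done .done)) (.leaf 0x1346578902 2 .done))) (.node 1 7 (.cons 0x6543217890 (.cons 0x9871054632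 .nil)) (.node 1 8 (.cons 0x9065432187 (.cons 0x9817634502 .nil)) (.node 2 7 (.cons 0x4563278901 (.cons 0x9872364501 (.cons 0x9817205634 .nil))) (.leaf 0x1346509872 1 (.leaf 0x8905643127 2 .done)) .done) (.leaf 0x2346509871 1 .done)) .done)) .done)) .done))) .done))) (.node 0 4 .nil (.node 1 3 (.cons 0x2134567890 (.cons 0x5678904312 .nil)) (.leaf 0x4567890213 0 (.node 2 9 (.cons 0x8765431290 (.cons 0x8765409213 .nil)) (.node 5 8 (.cons 0x6785431290 (.cons 0x6785409213 .nil)) (.node 2 8 (.cons 0x9043128765 (.cons 0x9045678213 .nil)) (.node 3 9 (.cons 0x1293458760 (.cons 0x7658934021 (.cons 0x6785401392 .nil))) (.node 6 9 (.cons 0x5876921340 (.cons 0x3104587692 (.cons 0x3129678540 .nil))) (.leaf 0x4312876905 0 .done) .done) .done) (.node 2 6 (.cons 0x1345876290 (.cons 0x9267854013 (.cons 0x5876290431 .nil))) (.node 7 9 (.cons 0x8790654321 (.cons 0x4097856231 (.cons 0x8790456231 .nil))) (.node 1 6 (.cons 0x7854329061 (.cons 0x6132978540 (.cons 0x4097856132 .nil)))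 (.node 1 7 (.cons 0x6543217890 (.cons 0x8540617923 (.cons 0x9045871326 (.cons 0x7165890432 .nil)))) .done .done) .done) .done) .done)) (.node 3 5 (.cons 0x1298765340 .nil) (.node 4 8 (.cons 0x5348760921 (.cons 0x7843560921 (.cons 0x4876531092 .nil))) (.node 7 9 (.cons 0x8790654321 (.cons 0x6053487921 (.cons 0x4879235601 (.cons 0x6504879213 .nil)))) .done .done) (.leaf 0x2987653401 1 (.node 1 7 (.cons 0x6543217890 (.cons 0x8920435671 .nil)) (.node 2 6 (.cons 0x6217890543 (.cons 0x9871045326 (.cons 0x6235409871 .nil))) .done (.node 1 8 (.cons 0x4356718902 (.cons 0x7653402981 .nil)) (.leaf 0x435671892 0 (.node 2 4 (.cons 0x3567892401 .nil) (.leaf 0x5342098176 1 (.leaf 0x9024356718 1 .done)) .done)) .done)) .done))) .done)) (.node 1 6 (.cons 0x7890432165 .nil) (.node 1 7 (.cons 0x6543217890 .nil) (.node 3 9 (.cons 0x8934567120 (.cons 0x6504398712 (.cons 0x6540178932 .nil))) (.node 1 5 (.cons 0x8760934512 .nil) (.node 2 6 (.cons 0x5401267893 (.cons 0x9871265043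 (.cons 0x8762154093 .nil))) .done .done) .done) (.node 3 7 (.cons 0x9873210456 (.cons 0x8902167345 (.cons 0x4378905612 (.cons 0x4561098732 .nil)))) (.node 1 5 (.cons 0x8902154376 .nil) (.node 0 8 (.cons 0x9802154376 (.cons 0x9802156734 (.cons 0x9087165432 .nil))) .done .done) .done) (.leaf 0x4320987165 1 (.leaf 0x3456178902 2 .done)))) (.node 0 7 (.cons 0x9870432165 .nil) (.node 2 9 (.cons 0x6129870543 (.cons 0x7892165043 .nil)) (.node 3 6 (.cons 0x7892163450 (.cons 0x7892163405 (.cons 0x7892361045 .nil))) .done (.node 5 8 (.cons 0x6709854312 (.cons 0x6704589213 (.cons 0x3167045892 .nil))) (.leaf 0x4076132985 1 .done) .done)) (.node 2 9 (.cons 0x1654329870 (.cons 0x7892165043 (.cons 0x3298704561 .nil))) (.node 3 6 (.cons 0x7892163450 (.cons 0x7892163405 (.cons 0x7892361045 .nil))) .done .done) .done)) .done)) (.node 2 6 (.cons 0x5431267890 (.cons 0x5409876213 .nil)) (.node 5 9 (.cons 0x8760954312 (.cons 0x3104598762 (.cons 0x3126789540 .nil))) (.node 3 9 (.cons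 0x7893405621 (.cons 0x7893265401 .nil)) (.node 0 7 (.cons 0x4398705621 (.cons 0x4562398701 .nil)) (.node 1 9 (.cons 0x7891265043 (.cons 0x8706219345 .nil)) .done .done) .done) .done) (.node 5 7 (.cons 0x8902134576 (.cons 0x9875043126 .nil)) (.leaf 0x431265789 1 (.node 5 8 (.cons 0x9067854312 (.cons 0x9857620431 .nil)) (.node 5 9 (.cons 0x8760954312 .nil) (.node 1 4 (.cons 0x9857620413 (.cons 0x3140985762 .nil)) (.leaf 0x7890413265 2 (.node 4 8 (.cons 0x3104895762 .nil) (.leaf 0x5984013267 1 (.leaf 0x1048957623 1 .done)) .done)) .done) .done) (.node 3 8 (.cons 0x7654389021 (.cons 0x9831204576 .nil)) (.node 4 6 (.cons 0x9875046213 (.cons 0x7564098321 (.cons 0x5789046231 .nil))) .done (.leaf 0x9045762138 1 .done)) .done))) .done)) .done)))) (.node 4 7 (.cons 0x6547890123 .nil) tc9_3_51 (.node 4 7 (.cons 0x6547890123 .nil) tc9_3_50 .done))) (.node 0 3 .nil tc9_3_49 .done)))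
noncomputable def uc9_3_12 : T := tc9_3_52
theorem sub_c9_3_12 : root 9 refs9_3 [] 0x700000008706000000006030000000030500007000504000000004010000000010300000000302600000002018007000610 0xfe7fff3fffb7ff57ffcfffedfff5ffb3fff9fe3d 9 0 5 .nil uc9_3_12 = true := by decide +kernel
def kn_c9_3 : List (Nat × Nat × Nat) := [(0x700000008706000000006030000400030500002000504000000004010000000010300000000302000400002018002000010, 0xfe7fff3fffa7ffd3ffcfffedfff5fff3ffe9fef9, 9), (0x700000008706000000006030000500030500002000504000000004010000000010300000000302000500002018002000010, 0xfe7fff3fff97ffd3ffcfffedfff5fff3ffd9fef9, 9), (0x700000008706000000006030000700030500002000504000000004010000000010300000000302000700002018002000010, 0xfe7fff3fff37ffd3ffcfffedfff5fff3ff79fef9, 9), (0x700000008706000000006030000800030500002000504000000004010000000010300000000302000800002018002000010, 0xfe7fff3ffeb7ffd3ffcfffedfff5fff3fef9fef9, 9), (0x700000008706000000006030000400030500004000504000000004010000000010300000000302000400002018004000010,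 0xfe7fff3fffa7ffc7ffcfffedfff5fff3ffe9feed, 9), (0x700000008706000000006030000500030500004000504000000004010000000010300000000302000500002018004000010, 0xfe7fff3fff97ffc7ffcfffedfff5fff3ffd9feed, 9), (0x700000008706000000006030000700030500004000504000000004010000000010300000000302000700002018004000010, 0xfe7fff3fff37ffc7ffcfffedfff5fff3ff79feed, 9), (0x700000008706000000006030000000030500006000504000000004010000000010300000000302400000002018006000410, 0xfe7fff3fffb7ff97ffcfffedfff5ffe3fff9fead, 9), (0x700000008706000000006030000000030500006000504000000004010000000010300000000302500000002018006000510, 0xfe7fff3fffb7ff97ffcfffedfff5ffd3fff9fe9d, 9), (0x700000008706000000006030000000030500006000504000000004010000000010300000000302700000002018006000710, 0xfe7fff3fffb7ff97ffcfffedfff5ff73fff9fe3d, 9), (0x700000008706000000006030000000030500007000504000000004010000000010300000000302400000002018007000410, 0xfe7fff3fffb7ff57ffcfffedfff5ffe3fff9fe6d, 9), (0x700000008706000000006030000000030500007000504000000004010000000010300000000302500000002018007000510,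 0xfe7fff3fffb7ff57ffcfffedfff5ffd3fff9fe5d, 9), (0x700000008706000000006030000000030500007000504000000004010000000010300000000302600000002018007000610, 0xfe7fff3fffb7ff57ffcfffedfff5ffb3fff9fe3d, 9)]
noncomputable def rc9_3 : T := (.node 0 2 (.cons 0x3456789021 .nil) (.cut 12 (.cut 11 (.cut 10 .done))) (.node 0 2 (.cons 0x3456789021 .nil) (.cut 9 (.cut 8 (.cut 7 .done))) (.node 1 7 (.cons 0x6543217890 .nil) (.leaf 0x3217890654 1 (.cut 6 (.cut 5 (.cut 4 .done)))) (.node 1 7 (.cons 0x6543217890 .nil) (.cut 3 (.cut 2 (.cut 1 (.cut 0 .done)))) .done))))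
theorem ok_c9_3 : root 9 refs9_3 kn_c9_3 0x700000008706000000006030000000030500000000504000000004010000000010300000000302000000002018000000010 0xfe7fff3fffb7ffd7ffcfffedfff5fff3fff9fefd 9 0 6 (.cons 0x7890654321 .nil) rc9_3 = true := by decide +kernel

end Pool.Agent.Hhelper35.Rainbow
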