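import Pool.Agent.Hhelper35.Rainbow.Pats

set_option autoImplicit false
set_option maxRecDepth 1000000

namespace Pool.Agent.Hhelper35.Rainbow

open T W

noncomputable def tc9_4_0 : T := (.node 0 8 (.cons 0x9801276543 .nil) (.node 2 8 .nil (.node 3 9 (.cons 0x8934567210 (.cons 0x6543982701 (.cons 0x7652810934 .nil))) (.node 1 9 (.cons 0x6543270891 .nil) (.leaf 0x5432891076 0 (.node 6 8 (.cons 0x9345286701 (.cons 0x7682543901 .nil)) (.leaf 0x5286701934 2 .done) .done)) (.node 1 4 (.cons 0x3214567890 (.cons 0x5670143982 .nil)) (.leaf 0x2765014398 1 (.node 3 6 (.cons 0x9365287014 (.cons 0x9078236541 (.cons 0x7289365014 .nil))) (.leaf 0x1072893654 1 .done) (.leaf 0x765281439 0 .done))) .done)) (.node 1 5 (.cons 0x6709823451 .nil) (.node 1 6 (.cons 0x9823451670 .nil) (.node 0 2 (.cons 0x9815670234 .nil) (.node 0 6 .nil (.node 0 3 (.cons 0x9876032154 .nil) (.node 0 4 (.cons 0x9876045123 .nil) .done .done) .done) .done) (.leaf 0x2890761543 0 .done)) (.node 2 6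 (.cons 0x7098156234 .nil) (.node 4 7 (.cons 0x5674321890 .nil) (.leaf 0x3265189074 3 (.leaf 0x9074326518 0 (.leaf 0x981562347 2 .done))) (.node 1 6 (.cons 0x9807234561 .nil) (.node 2 9 (.cons 0x7089234561 .nil) (.node 2 4 .nil (.node 1 9 (.cons 0x5432891670 (.cons 0x8916705423 (.cons 0x7089165423 .nil))) .done .done) (.node 1 7 (.cons 0x9807165432 .nil) (.leaf 0x6543298071 3 (.leaf 0x892345617 2 .done)) .done)) (.node 6 9 (.cons 0x4516907823 .nil) (.leaf 0x961543287 3 (.leaf 0x1543287096 2 (.node 1 3 (.cons 0x7213456980 .nil) (.node 1 4 (.cons 0x3214567890 .nil) (.leaf 0x5076982314 1 .done) (.leaf 0x8965431270 2 .done)) .done))) .done)) .done)) .done)) .done)) (.node 2 8 .nil (.node 3 9 (.cons 0x8934567210 (.cons 0x6543982701 (.cons 0x7652810934 .nil))) (.node 1 9 (.cons 0x8190765234 .nil) (.leaf 0x5432891076 0 (.node 6 8 (.cons 0x9345286701 (.cons 0x7682543901 .nil)) (.leaf 0x5286701934 2 .done) .done)) (.node 1 4 (.cons 0x3214567890 (.cons 0x5670143982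 .nil)) (.leaf 0x2765014398 1 (.node 3 6 (.cons 0x9801276345 (.cons 0x9365287014 (.cons 0x9078236541 (.cons 0x7289365014 .nil)))) .done (.leaf 0x765281439 0 .done))) .done)) (.node 1 7 (.cons 0x6543289071 .nil) (.node 1 6 (.cons 0x7098234561 .nil) (.node 5 9 (.cons 0x7612345980 .nil) (.leaf 0x3459807612 0 (.node 2 4 (.cons 0x3427659810 .nil) (.node 0 4 (.cons 0x1895672340 .nil) (.leaf 0x5672340189 1 (.node 1 4 (.cons 0x3214567890 .nil) .done .done)) .done) (.leaf 0x8954321670 3 .done))) (.leaf 0x2890716543 3 .done)) (.node 3 8 (.cons 0x9834567210 .nil) (.node 5 8 (.cons 0x6712345890 .nil) (.node 4 8 (.cons 0x9076523481 .nil) (.node 6 8 (.cons 0x5432176890 .nil) .done .done) (.node 0 6 (.cons 0x3458906712 .nil) (.leaf 0x7123458906 2 (.leaf 0x1760985432 0 .done)) .done)) (.node 0 2 (.cons 0x9834567201 .nil) (.node 0 6 (.cons 0x8906712345 .nil) (.node 2 6 (.cons 0x4509832671 .nil) (.node 0 3 (.cons 0x4567890321 .nil) (.node 0 4 (.cons 0x5409832671 .nil) .done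 .done) .done) .done) .done) .done)) .done)) .done)) .done)) (.node 1 5 .nil (.node 6 8 (.cons 0x1543276890 (.cons 0x3451276890 .nil)) (.node 3 5 (.cons 0x9018672534 .nil) (.node 4 9 (.cons 0x7094325681 (.cons 0x5234907681 (.cons 0x9435276810 .nil))) (.leaf 0x2768109435 0 (.node 0 6 (.cons 0x8943512760 .nil) (.node 3 8 (.cons 0x6094512783 (.cons 0x3876094512 (.cons 0x6725183490 .nil))) .done .done) .done)) (.node 4 6 (.cons 0x9012786453 (.cons 0x9018643527 (.cons 0x9072534681 .nil))) (.leaf 0x3251890764 3 .done) .done)) (.node 1 9 (.cons 0x6891543270 (.cons 0x2345198670 .nil)) (.node 0 6 (.cons 0x9860723451 .nil) (.leaf 0x2706891543 0 (.leaf 0x7234519860 2 (.node 1 6 (.cons 0x9861543270 .nil) (.node 3 6 (.cons 0x8901276345 (.cons 0x8901543672 .nil)) .done .done) .done))) .done) .done)) (.node 0 2 (.cons 0x9815670234 .nil) (.node 0 4 (.cons 0x9815670432 .nil) (.node 0 6 .nil (.node 4 9 (.cons 0x2349815670 (.cons 0x7065189432 (.cons 0x3215498760 (.cons 0x5189432760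 .nil)))) (.leaf 0x8156072349 2 .done) (.node 0 3 (.cons 0x4567890321 .nil) (.node 0 8 .nil (.node 7 9 (.cons 0x6518970234 (.cons 0x4321567980 (.cons 0x6798034512 .nil))) .done .done) .done) .done)) (.node 0 8 .nil (.node 2 9 (.cons 0x4329815670 (.cons 0x4329807651 .nil)) (.leaf 0x8156704329 2 .done) .done) .done)) (.node 0 6 .nil (.node 4 9 (.cons 0x2349815670 (.cons 0x7065189432 (.cons 0x3215498760 (.cons 0x5189432760 .nil)))) (.leaf 0x8156072349 2 .done) (.node 1 6 .nil (.node 0 4 (.cons 0x9815670432 (.cons 0x7890456123 (.cons 0x5409876123 .nil))) .done (.node 1 9 (.cons 0x8915670234 .nil) (.node 2 9 (.cons 0x4329815670 .nil) (.node 0 4 (.cons 0x9815670432 .nil) (.node 2 6 (.cons 0x9815623407 .nil) (.node 2 4 .nil (.node 0 3 (.cons 0x4567890321 .nil) (.leaf 0x8156703429 2 .done) .done) .done) (.leaf 0x8156704329 2 .done)) .done) (.node 6 8 (.cons 0x2345198670 .nil) (.leaf 0x7689154320 3 (.leaf 0x9154320768 2 (.leaf 0x1986702345 0 .done))) .done)) .done))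 .done)) .done)) (.node 1 9 (.cons 0x8190765234 .nil) (.node 1 4 (.cons 0x3214567890 .nil) (.node 2 4 .nil (.node 3 5 (.cons 0x9810765342 .nil) (.leaf 0x6709814235 2 (.leaf 0x987653421 0 .done)) (.node 0 2 (.cons 0x9814320765 .nil) (.node 2 8 (.cons 0x6705419823 .nil) (.node 5 8 (.cons 0x9856702341 .nil) (.leaf 0x2341985670 1 (.node 3 6 (.cons 0x1276345890 .nil) (.leaf 0x5819076342 1 (.leaf 0x2763458901 0 (.leaf 0x7210985436 2 (.leaf 0x4589012763 3 .done)))) .done)) .done) .done) .done)) (.node 1 3 .nil (.node 6 8 (.cons 0x6890723451 (.cons 0x4507689132 (.cons 0x4509867231 (.cons 0x5431276890 .nil)))) .done (.node 1 7 .nil (.node 1 6 (.cons 0x8907234516 .nil) (.node 2 4 (.cons 0x8913245076 (.cons 0x8907165423 .nil)) (.node 2 6 (.cons 0x7098156234 (.cons 0x8907156234 .nil)) .done .done) .done) .done) .done)) .done)) (.node 1 6 (.cons 0x8907234516 .nil) (.node 0 8 (.cons 0x9807234516 .nil) (.node 1 7 (.cons 0x9807165432 .nil) (.node 2 9 (.cons 0x7089234561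 .nil) (.node 1 3 (.cons 0x4561329870 .nil) (.node 1 4 (.cons 0x3214567890 .nil) .done .done) (.leaf 0x6543298071 3 .done)) .done) (.node 2 9 (.cons 0x5432980761 .nil) (.node 5 9 (.cons 0x7612345980 .nil) (.node 1 7 (.cons 0x8923456170 .nil) (.node 1 3 (.cons 0x4561329870 .nil) (.node 1 4 (.cons 0x3214567890 .nil) .done .done) .done) (.leaf 0x8954321670 3 .done)) (.leaf 0x892345167 2 .done)) .done)) (.node 0 6 .nil (.node 1 7 (.cons 0x4560987123 .nil) (.node 3 8 (.cons 0x7654389012 (.cons 0x6072389154 (.cons 0x6712389054 .nil))) (.node 2 4 (.cons 0x9078324561 (.cons 0x6542389170 .nil)) (.leaf 0x5619078324 2 .done) (.leaf 0x983451276 0 .done)) (.leaf 0x6543217890 0 .done)) (.node 3 6 (.cons 0x8901276345 .nil) (.node 2 6 (.cons 0x7098156234 .nil) (.node 5 9 (.cons 0x8954367210 .nil) (.node 0 8 (.cons 0x2763459801 .nil) (.leaf 0x2345908167 0 (.node 3 5 (.cons 0x9087612354 .nil) .done .done)) (.node 0 8 (.cons 0x1276345980 .nil) (.leaf 0x4367210895 0 (.leaf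 0x6345980127 1 .done)) .done)) .done) (.node 4 6 (.cons 0x1546327890 .nil) (.node 6 9 (.cons 0x5189643270 .nil) (.leaf 0x8150723469 0 .done) (.node 6 9 (.cons 0x8152709643 .nil) .done .done)) .done)) .done)) .done)) .done)) .done))) (.node 3 8 (.cons 0x7654389012 .nil) (.node 2 9 (.cons 0x7654389210 .nil) (.node 7 9 (.cons 0x6529701834 .nil) (.node 1 9 (.cons 0x8190765234 .nil) (.node 0 2 (.cons 0x4567023891 .nil) (.node 2 8 .nil (.node 4 9 (.cons 0x4918325670 (.cons 0x7652810943 (.cons 0x3490765281 .nil))) .done .done) .done) .done) (.node 0 4 (.cons 0x9765218340 .nil) (.node 5 9 (.cons 0x4389567210 .nil) (.node 0 2 (.cons 0x4389567201 .nil) (.node 2 8 (.cons 0x9567283401 .nil) .done .done) .done) (.leaf 0x1256790438 1 (.leaf 0x1256790438 0 .done))) .done)) (.node 7 9 .nil (.node 0 4 (.cons 0x9834012765 (.cons 0x8123409765 .nil)) (.leaf 0x8976540123 2 (.leaf 0x1256790438 0 .done)) (.node 0 4 (.cons 0x9765218340 .nil) (.node 0 6 (.cons 0x7601298345 .nil)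 (.node 5 7 (.cons 0x6754389210 .nil) (.leaf 0x1298345760 1 .done) .done) (.leaf 0x1256790438 1 (.leaf 0x1256790438 0 .done))) .done)) (.leaf 0x6543892107 2 .done))) (.node 3 5 (.cons 0x8901276534 .nil) (.node 0 8 (.cons 0x9801276534 .nil) (.node 5 7 (.cons 0x6572109834 .nil) (.node 7 9 .nil (.node 4 6 (.cons 0x1275643890 (.cons 0x5643897210 (.cons 0x2183465790 (.cons 0x8346527901 (.cons 0x9764352180 .nil))))) .done (.node 5 8 .nil (.node 0 6 (.cons 0x4389065721 (.cons 0x4358976012 .nil)) (.leaf 0x4589760123 2 .done) (.node 5 9 (.cons 0x6721089534 .nil) (.node 1 5 .nil (.node 4 6 (.cons 0x4679812350 (.cons 0x6432708951 (.cons 0x6451238790 (.cons 0x8152346790 (.cons 0x7215643890 .nil))))) .done .done) .done) .done)) .done)) .done) .done) (.node 2 8 (.cons 0x4356728901 .nil) (.node 2 6 .nil (.node 1 4 (.cons 0x9827653410 (.cons 0x9834107265 (.cons 0x9078326541 (.cons 0x4109872653 (.cons 0x1453267890 .nil))))) .done (.node 7 9 (.cons 0x3456798210 .nil) (.node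 4 8 (.cons 0x2765348901 .nil) (.leaf 0x9012765348 0 (.node 1 6 (.cons 0x5234816790 .nil) (.leaf 0x8167905234 3 (.node 4 6 (.cons 0x9764352810 .nil) (.leaf 0x1238790546 1 (.leaf 0x5346790182 0 .done)) .done)) (.leaf 0x9762534810 2 .done))) (.node 5 7 (.cons 0x6572109834 .nil) (.node 4 7 (.cons 0x6521834790 .nil) (.node 3 7 (.cons 0x7389012654 .nil) (.leaf 0x2109837456 1 .done) (.node 1 4 (.cons 0x9827653410 .nil) (.leaf 0x8356274109 2 (.leaf 0x3890147265 3 (.leaf 0x8905326741 2 .done))) .done)) .done) .done)) .done)) (.node 0 8 .nil (.node 1 4 (.cons 0x3214567890 (.cons 0x9801435672 (.cons 0x9087654123 .nil))) (.leaf 0x9014356728 0 (.node 1 6 (.cons 0x2354167890 (.cons 0x9805327614 (.cons 0x9087614532 .nil))) (.node 6 9 (.cons 0x6907832541 (.cons 0x7690814325 (.cons 0x8096725341 .nil))) (.leaf 0x2387096145 0 .done) .done) .done)) .done) .done)) .done)) (.leaf 0x1098345672 1 (.node 1 5 (.cons 0x4389015672 .nil) (.node 3 5 (.cons 0x8901276534 .nil) (.node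 5 8 .nil (.node 1 4 (.cons 0x3214567890 (.cons 0x9076581432 (.cons 0x6589072341 (.cons 0x9014385276 .nil)))) .done (.node 6 8 (.cons 0x7210986534 .nil) (.node 5 7 .nil (.node 4 8 (.cons 0x9076523481 (.cons 0x6572109843 .nil)) (.node 3 6 (.cons 0x9012548763 (.cons 0x9057632184 (.cons 0x4890576321 .nil))) .done .done) .done) .done) .done)) .done) (.node 3 5 (.cons 0x8901276534 .nil) (.node 7 9 (.cons 0x4381097652 .nil) (.node 2 6 (.cons 0x8345267901 .nil) (.node 5 8 (.cons 0x3458976210 .nil) (.node 6 8 (.cons 0x1543268970 .nil) .done .done) (.leaf 0x976254381 1 .done)) (.node 5 7 .nil (.node 2 4 (.cons 0x1834256790 (.cons 0x6572438901 (.cons 0x9018342576 .nil))) (.node 2 6 (.cons 0x3426518970 .nil) (.node 2 9 (.cons 0x4356701892 (.cons 0x6570189243 (.cons 0x6752901834 .nil))) .done .done) .done) .done) .done)) .done) .done)) .done)))) .done)))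
noncomputable def tc9_4_1 : T := (.node 2 7 (.cons 0x8901276543 .nil) (.node 2 8 .nil (.node 1 9 (.cons 0x6701982543 .nil) (.node 3 8 (.cons 0x6542387091 (.cons 0x6701983452 (.cons 0x6725438910 .nil))) (.leaf 0x7654238190 0 .done) (.leaf 0x5432891076 0 (.node 1 4 (.cons 0x9814325670 (.cons 0x3289145670 .nil)) (.node 1 5 (.cons 0x9076518234 .nil) (.leaf 0x982341567 0 .done) (.node 3 6 (.cons 0x8914523670 (.cons 0x5419823670 (.cons 0x8236709145 (.cons 0x5436728901 .nil)))) (.leaf 0x8236705419 0 .done) .done)) .done))) (.node 5 8 (.cons 0x6721098543 .nil) (.node 1 6 (.cons 0x1672345890 .nil) (.node 1 7 (.cons 0x9823456170 .nil) (.node 0 8 .nil (.node 2 9 (.cons 0x3458927610 (.cons 0x4329085671 .nil)) (.leaf 0x5617089234 2 .done) (.node 5 9 (.cons 0x7612345980 .nil) (.leaf 0x3459807612 0 (.leaf 0x8954321670 3 .done)) .done)) .done) (.leaf 0x5432761098 0 (.node 1 7 (.cons 0x6543289071 .nil) (.leaf 0x8234561709 2 (.leaf 0x2890716543 3 .done)) .done))) (.node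 3 6 (.cons 0x1276345890 .nil) (.node 0 8 (.cons 0x9801276345 .nil) (.node 3 8 (.cons 0x7654389012 .nil) (.node 6 8 .nil (.node 1 5 (.cons 0x9827015436 (.cons 0x9015438672 (.cons 0x6890723451 .nil))) .done .done) .done) .done) (.leaf 0x2763458901 0 (.leaf 0x7210985436 2 (.leaf 0x4589012763 3 .done)))) .done)) .done)) (.node 2 6 .nil (.node 1 4 (.cons 0x9814325670 (.cons 0x7098143265 .nil)) (.node 3 9 (.cons 0x4398107652 (.cons 0x1456239870 (.cons 0x8934526701 .nil))) (.node 0 4 (.cons 0x5678932140 (.cons 0x5623987041 .nil)) (.node 5 7 (.cons 0x8932140576 (.cons 0x5762189043 .nil)) (.leaf 0x6234189075 1 .done) .done) (.leaf 0x5670189342 0 .done)) (.node 3 9 (.cons 0x4398107652 (.cons 0x6254107893 (.cons 0x8934526701 (.cons 0x8934107625 (.cons 0x3987625410 .nil))))) .done .done)) (.node 1 4 (.cons 0x9814325670 .nil) (.node 1 6 .nil (.node 0 4 (.cons 0x7890456123 (.cons 0x5409876123 .nil)) (.node 3 8 (.cons 0x7654389012 (.cons 0x9834012765 (.cons 0x9078324561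 (.cons 0x7612389054 (.cons 0x9832765041 .nil))))) .done .done) (.node 1 7 .nil (.node 1 3 (.cons 0x8907132654 .nil) (.node 0 8 (.cons 0x9807623145 (.cons 0x9807145623 .nil)) (.node 2 8 (.cons 0x9825431076 (.cons 0x6543289071 .nil)) .done .done) .done) (.node 4 7 (.cons 0x5674321890 .nil) (.node 7 9 .nil (.node 0 3 (.cons 0x9876541230 (.cons 0x6521897430 (.cons 0x8976503214 .nil))) (.leaf 0x6230798145 2 (.leaf 0x9703265418 2 .done)) .done) .done) .done)) .done)) (.node 3 7 (.cons 0x6541237890 .nil) (.node 0 4 (.cons 0x9812376504 .nil) (.node 0 8 (.cons 0x9807326541 .nil) (.node 1 9 (.cons 0x8914562370 .nil) (.leaf 0x7326541980 1 (.leaf 0x7326541980 0 .done)) .done) .done) (.leaf 0x6237098145 2 (.leaf 0x9073265418 2 .done))) (.node 3 5 (.cons 0x8907623541 .nil) (.node 1 5 .nil (.node 6 8 (.cons 0x7689054123 (.cons 0x5143276890 .nil)) (.leaf 0x7234150986 2 (.leaf 0x9867234150 3 .done)) (.node 1 3 (.cons 0x8907623145 .nil) (.node 3 7 (.cons 0x8905412376 .nil)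 (.node 6 8 (.cons 0x9867345210 .nil) (.node 0 4 (.cons 0x9862370451 .nil) (.node 1 9 (.cons 0x4519862370 .nil) (.leaf 0x7326891540 2 .done) .done) (.leaf 0x3270986514 2 (.leaf 0x4376890125 1 .done))) .done) .done) .done)) (.leaf 0x9076235418 2 (.node 2 8 (.cons 0x4356728901 .nil) (.leaf 0x9014356728 2 (.node 0 2 (.cons 0x6789023541 .nil) (.node 0 4 (.cons 0x9042356781 .nil) .done .done) .done)) .done))) .done))) .done)) .done)) (.node 2 8 .nil (.node 1 9 (.cons 0x6701982543 .nil) (.node 1 3 (.cons 0x6542319870 (.cons 0x8709132456 (.cons 0x9825431076 .nil))) (.node 1 5 (.cons 0x9076518234 .nil) .done .done) (.leaf 0x5432891076 0 (.node 1 4 (.cons 0x9814325670 (.cons 0x3289145670 .nil)) (.node 3 9 (.cons 0x8765412390 (.cons 0x4398256701 (.cons 0x1456782390 .nil))) (.leaf 0x4567823901 0 (.leaf 0x765289341 0 .done)) (.node 3 6 (.cons 0x8914523670 (.cons 0x5419823670 (.cons 0x8236709145 (.cons 0x7632890541 .nil)))) (.leaf 0x8236705419 0 .done) .done)) .done)))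 (.node 1 5 (.cons 0x6709823451 .nil) (.node 0 8 .nil (.node 4 9 (.cons 0x1894325670 (.cons 0x6780945123 (.cons 0x7651809432 .nil))) (.leaf 0x765182349 2 .done) (.node 4 9 (.cons 0x1894325670 .nil) (.node 1 6 (.cons 0x5234981670 .nil) (.leaf 0x9816705234 0 (.node 1 4 (.cons 0x9814325670 .nil) (.node 1 9 (.cons 0x6705419823 .nil) (.node 1 3 (.cons 0x8945231670 .nil) (.node 1 7 (.cons 0x8907165423 .nil) .done .done) .done) .done) .done)) (.node 5 7 (.cons 0x6751823490 .nil) (.node 0 6 (.cons 0x3457609821 .nil) (.leaf 0x9432815760 0 (.node 0 2 (.cons 0x6751820943 .nil) (.node 3 7 (.cons 0x2567349810 .nil) (.leaf 0x4376520189 3 (.leaf 0x9423781560 1 (.leaf 0x673498251 0 (.leaf 0x5673498102 0 .done)))) .done) .done)) .done) (.leaf 0x765182349 2 .done))) .done)) (.node 2 7 (.cons 0x8901276543 .nil) (.node 4 6 (.cons 0x7098156432 .nil) (.node 0 2 (.cons 0x9815643207 .nil) (.node 2 6 (.cons 0x7098156234 .nil) (.node 2 9 .nil (.node 1 4 (.cons 0x9814325670 (.cons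 0x8143290765 (.cons 0x5076418923 .nil))) .done .done) .done) .done) (.node 5 7 (.cons 0x9075182346 .nil) (.node 0 6 (.cons 0x3457609821 .nil) (.node 3 7 (.cons 0x6573421890 .nil) (.leaf 0x2437560981 0 (.leaf 0x4218906573 2 (.leaf 0x5128906437 1 .done))) .done) .done) (.leaf 0x1564327098 0 (.leaf 0x5189072346 2 .done)))) (.node 3 5 (.cons 0x8901276534 .nil) (.node 4 8 (.cons 0x5672109843 .nil) (.node 2 9 (.cons 0x6510729843 .nil) (.node 1 9 (.cons 0x6519843270 .nil) (.node 0 8 (.cons 0x6708453291 .nil) (.node 4 6 (.cons 0x5329184670 .nil) (.leaf 0x1846705329 0 (.leaf 0x8192350764 2 (.leaf 0x9123546780 2 .done))) .done) .done) .done) (.leaf 0x6721098435 0 (.leaf 0x2765348901 1 .done))) (.node 5 8 .nil (.node 1 6 (.cons 0x5432890761 (.cons 0x9856107243 (.cons 0x9016728534 .nil))) (.leaf 0x9854321670 1 .done) (.node 5 9 .nil (.node 0 4 (.cons 0x3409856721 (.cons 0x4095678123 (.cons 0x6704325981 .nil))) .done .done) .done)) .done)) .done)) .done)) .done)) (.node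 2 7 (.cons 0x8901276543 .nil) (.node 2 8 .nil (.node 3 5 (.cons 0x6789012453 (.cons 0x9018276534 .nil)) (.node 1 9 (.cons 0x6701982543 .nil) (.leaf 0x765342819 2 (.leaf 0x5432891076 0 (.leaf 0x7091824356 0 .done))) (.node 3 9 (.cons 0x4398107652 (.cons 0x4398256701 (.cons 0x8276543901 .nil))) (.node 0 6 (.cons 0x4521067893 .nil) (.leaf 0x1254398760 1 (.node 2 6 (.cons 0x8934526701 .nil) (.leaf 0x7018934526 0 .done) .done)) .done) .done)) (.node 1 7 (.cons 0x6543289071 .nil) (.node 1 6 (.cons 0x9823456170 .nil) (.node 4 7 (.cons 0x5674321890 .nil) (.node 5 7 (.cons 0x9075618234 .nil) .done .done) (.leaf 0x8234561709 2 .done)) (.node 5 8 (.cons 0x6712345890 .nil) (.node 2 6 (.cons 0x1762345890 .nil) (.leaf 0x8901762345 0 (.node 1 9 (.cons 0x4327658190 .nil) (.node 5 9 (.cons 0x6701895243 .nil) (.node 3 6 (.cons 0x1895243670 .nil) (.leaf 0x7634259810 3 (.node 5 7 (.cons 0x8124367590 .nil) .done (.leaf 0x2436701895 0 (.leaf 0x4259810763 2 .done)))) .done)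 (.node 0 4 (.cons 0x9043276581 .nil) (.leaf 0x6581904327 1 (.leaf 0x8567234091 0 .done)) .done)) .done)) (.node 0 6 (.cons 0x3458906712 .nil) (.leaf 0x7123458906 2 (.leaf 0x1760985432 0 .done)) .done)) .done)) .done)) (.node 2 8 .nil (.node 3 5 (.cons 0x6789012453 (.cons 0x4356728901 .nil)) (.node 1 9 (.cons 0x6701982543 .nil) (.leaf 0x765342819 2 (.leaf 0x5432891076 0 (.leaf 0x7091824356 0 .done))) (.node 1 5 (.cons 0x9076518234 .nil) (.node 1 4 (.cons 0x9827014356 (.cons 0x8907234156 .nil)) (.node 1 6 (.cons 0x9827016534 (.cons 0x8907615423 .nil)) .done .done) .done) .done)) (.node 3 8 (.cons 0x7654389012 .nil) (.node 2 9 (.cons 0x7654389210 .nil) (.leaf 0x6543892107 2 .done) (.leaf 0x1098345672 1 (.node 1 5 (.cons 0x4389015672 .nil) (.leaf 0x3890156724 3 (.node 3 5 (.cons 0x6789012453 .nil) (.node 4 8 (.cons 0x5672109843 .nil) (.node 1 4 (.cons 0x9814325670 .nil) (.node 2 9 (.cons 0x1456783290 .nil) (.leaf 0x4567832901 1 .done) .done) (.leaf 0x2765348901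 1 .done)) .done) .done)) .done))) .done)) .done)) .done)))
noncomputable def tc9_4_2 : T := (.node 1 4 (.cons 0x3214567890 (.cons 0x9087654123 .nil)) (.node 2 5 (.cons 0x9814325670 .nil) (.node 7 9 (.cons 0x6507981432 (.cons 0x6798012543 .nil)) (.node 1 9 (.cons 0x7654321980 .nil) (.leaf 0x7652341980 2 (.node 2 6 (.cons 0x3265419870 (.cons 0x8079143265 (.cons 0x7089143265 (.cons 0x7089145623 .nil)))) .done (.node 2 6 (.cons 0x8970562341 (.cons 0x5419807623 .nil)) (.node 5 8 (.cons 0x7623458091 (.cons 0x7621908543 .nil)) .done (.node 3 5 (.cons 0x6235078914 (.cons 0x6780912354 .nil)) (.leaf 0x9807625341 0 .done) .done)) (.leaf 0x5670891234 0 .done)))) (.node 0 3 (.cons 0x9765218034 (.cons 0x6798034521 (.cons 0x4308976521 .nil))) .done .done)) (.node 4 7 (.cons 0x5674321890 (.cons 0x9081234765 (.cons 0x9081256743 .nil))) (.node 2 7 (.cons 0x8901276543 (.cons 0x9801276543 .nil)) (.node 3 5 (.cons 0x8901276534 (.cons 0x9801276534 (.cons 0x9801435672 .nil)))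 .done .done) .done) (.leaf 0x6709814325 2 .done))) (.node 1 9 (.cons 0x7654321980 .nil) (.node 0 4 (.cons 0x8765409123 .nil) (.node 0 3 (.cons 0x4567890321 .nil) (.node 2 8 (.cons 0x1982345670 .nil) (.node 4 7 (.cons 0x5674321890 (.cons 0x9081234765 (.cons 0x6547821903 .nil))) (.node 3 6 (.cons 0x5409876321 (.cons 0x2365419870 (.cons 0x4789123650 (.cons 0x9103654782 .nil)))) .done .done) (.leaf 0x3091456782 1 .done)) (.leaf 0x8903214567 0 .done)) .done) (.node 5 7 (.cons 0x6570981432 (.cons 0x6754321980 (.cons 0x8091234576 .nil))) (.node 2 6 (.cons 0x3418907562 (.cons 0x3457621980 (.cons 0x8091267543 .nil))) (.leaf 0x981432657 0 (.node 3 7 (.cons 0x6541237890 (.cons 0x9807326541 (.cons 0x9087321456 .nil))) (.leaf 0x9073265418 2 (.leaf 0x8073265419 0 .done)) .done)) .done) (.leaf 0x5670891234 0 .done))) (.node 1 9 (.cons 0x7654321980 .nil) (.node 0 4 (.cons 0x8765409123 .nil) .done (.node 0 4 .nil (.node 0 3 (.cons 0x4567890321 .nil) (.leaf 0x5403219876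 0 (.leaf 0x2198765403 3 (.node 3 6 (.cons 0x5412367890 (.cons 0x9123654087 .nil)) (.node 3 9 (.cons 0x7654398012 (.cons 0x1239876540 .nil)) (.node 1 6 (.cons 0x7890541632 (.cons 0x9321678045 (.cons 0x7612398045 .nil))) .done .done) .done) .done))) (.node 4 7 (.cons 0x5674321890 .nil) (.node 0 6 (.cons 0x7432198065 (.cons 0x7456089123 .nil)) .done (.node 3 6 (.cons 0x5412367890 (.cons 0x9123654087 (.cons 0x3654780912 .nil))) (.node 1 7 (.cons 0x8905634712 (.cons 0x9805634712 .nil)) (.node 2 8 (.cons 0x9170823456 (.cons 0x9082174365 .nil)) (.leaf 0x4365098217 0 .done) .done) (.node 1 7 (.cons 0x8719045632 (.cons 0x9178045632 .nil)) (.node 2 8 (.cons 0x9170823456 .nil) (.leaf 0x5632871904 1 (.node 6 9 (.cons 0x4509632871 .nil) (.leaf 0x3690541782 3 (.leaf 0x5096328714 0 (.leaf 0x541782369 2 .done))) .done)) .done) .done)) .done)) .done)) (.leaf 0x5670891234 0 .done))) .done))) (.node 0 3 (.cons 0x4567890321 .nil) (.node 0 4 .nil (.node 3 5 (.cons 0x6789045321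 .nil) (.node 2 4 (.cons 0x9810765342 (.cons 0x6789012453 .nil)) (.node 4 9 (.cons 0x6532490781 (.cons 0x1876532490 (.cons 0x3567812490 .nil))) (.node 1 6 (.cons 0x8761230945 (.cons 0x9423507816 (.cons 0x8761235490 (.cons 0x8167094235 .nil)))) .done .done) (.node 1 6 (.cons 0x9078165324 (.cons 0x7098165324 .nil)) (.node 2 7 (.cons 0x8901276543 (.cons 0x9816507234 (.cons 0x8901276534 .nil))) (.leaf 0x3456189072 3 (.leaf 0x9072345618 0 .done)) (.node 2 9 (.cons 0x5432980761 (.cons 0x6107892453 (.cons 0x4298701653 (.cons 0x4532980761 .nil)))) .done .done)) .done)) (.node 2 9 (.cons 0x4356701892 (.cons 0x6789210453 (.cons 0x4012987653 (.cons 0x4076532981 .nil)))) (.leaf 0x1043567892 0 .done) (.node 2 7 (.cons 0x8901276543 (.cons 0x9810435672 .nil)) (.leaf 0x435672189 0 (.node 1 6 (.cons 0x8904532761 .nil) (.node 5 8 (.cons 0x6721098543 .nil) (.leaf 0x4321670985 2 (.leaf 0x9854321670 3 .done)) (.node 2 9 (.cons 0x5432980761 (.cons 0x3298704561 (.cons 0x8927610435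 (.cons 0x8927610453 .nil)))) .done (.leaf 0x4098761235 2 .done))) (.node 2 8 (.cons 0x4356728901 (.cons 0x9827653401 .nil)) (.node 3 8 (.cons 0x7654389012 (.cons 0x9834012765 .nil)) .done .done) .done))) .done))) .done) (.node 0 4 .nil (.node 1 5 (.cons 0x9815670432 .nil) (.node 1 6 (.cons 0x9807615432 .nil) (.node 3 9 (.cons 0x8761239045 (.cons 0x4516780932 .nil)) (.node 2 4 (.cons 0x3987654210 (.cons 0x8765421093 (.cons 0x8709324561 .nil))) (.node 1 4 (.cons 0x3214567890 .nil) (.leaf 0x7890324156 0 (.leaf 0x8903214567 0 .done)) .done) (.leaf 0x4567893210 2 .done)) (.node 2 4 (.cons 0x9807615423 (.cons 0x8907615423 .nil)) (.node 3 8 (.cons 0x7654389012 (.cons 0x9083245167 .nil)) (.node 1 9 (.cons 0x7045619832 (.cons 0x5407619832 .nil)) .done (.leaf 0x5167098324 0 .done)) (.node 3 7 (.cons 0x8907324561 (.cons 0x9807324516 (.cons 0x8907324516 .nil))) (.leaf 0x2456189073 3 .done) .done)) .done)) (.node 2 5 (.cons 0x4325670981 .nil) (.node 3 9 (.cons 0x4398107652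 .nil) (.leaf 0x4567893210 2 (.node 2 8 (.cons 0x9076518234 .nil) (.node 1 6 (.cons 0x7098234561 (.cons 0x9328704516 (.cons 0x8932540761 .nil))) .done .done) (.leaf 0x6521043987 0 .done))) (.node 1 4 (.cons 0x9814076523 .nil) (.leaf 0x8903214567 0 (.node 3 6 (.cons 0x5412367890 (.cons 0x9814076325 .nil)) (.node 5 9 (.cons 0x8763214590 (.cons 0x5904187632 .nil)) (.node 5 7 (.cons 0x4367590812 (.cons 0x9576340812 .nil)) .done .done) (.node 2 9 (.cons 0x8156709234 (.cons 0x7815632904 (.cons 0x8763290451 (.cons 0x8763290415 .nil)))) .done .done)) .done)) .done)) (.node 2 5 (.cons 0x4325670981 .nil) (.node 4 9 (.cons 0x6704981523 (.cons 0x3049876521 .nil)) (.leaf 0x2304987651 1 (.leaf 0x6521034987 0 .done)) (.node 3 9 (.cons 0x4093256781 .nil) (.node 2 4 (.cons 0x3987654210 .nil) (.leaf 0x8930124567 0 (.leaf 0x8156704239 0 .done)) (.leaf 0x4567893210 2 (.node 3 6 (.cons 0x8763901254 (.cons 0x9804512367 .nil)) (.node 7 9 (.cons 0x8097632154 (.cons 0x8125679043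 .nil)) (.leaf 0x2154089763 0 .done) (.leaf 0x936781254 0 .done)) .done))) .done)) .done))) (.node 1 4 (.cons 0x3214567890 .nil) (.node 0 2 (.cons 0x9814320765 .nil) (.node 0 6 .nil (.node 5 9 (.cons 0x2341895670 (.cons 0x7608954123 .nil)) (.leaf 0x1895670234 2 (.node 5 7 (.cons 0x6759803412 (.cons 0x9806754321 .nil)) (.node 1 7 (.cons 0x8906712345 .nil) (.node 2 5 (.cons 0x9814325670 (.cons 0x6712598034 .nil)) .done .done) .done) .done)) .done) .done) (.leaf 0x8903214567 0 (.node 4 7 (.cons 0x5674321890 .nil) (.node 0 6 .nil (.node 1 9 (.cons 0x8765409123 (.cons 0x3219874560 (.cons 0x5476089123 .nil))) .done (.node 0 2 .nil (.node 5 9 (.cons 0x8956743012 (.cons 0x1895674320 (.cons 0x3476598120 .nil))) (.node 3 8 (.cons 0x9045678321 (.cons 0x6702389541 (.cons 0x9567402381 .nil))) (.leaf 0x2038956741 0 .done) .done) .done) .done)) (.node 2 5 (.cons 0x3476521890 .nil) (.node 2 4 (.cons 0x9810765243 .nil) (.node 2 8 (.cons 0x5674309821 .nil) .done .done) (.leaf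 0x4765218903 1 (.node 0 2 .nil (.node 1 3 (.cons 0x8903125674 (.cons 0x6547890213 .nil)) (.leaf 0x7890231456 2 (.node 1 5 (.cons 0x8903476512 (.cons 0x9815670234 .nil)) .done .done)) .done) .done))) .done)) .done))) .done)) .done)) .done))
noncomputable def tc9_4_3 : T := (.node 5 7 .nil (.node 0 3 (.cons 0x4567890321 .nil) (.node 3 5 .nil (.node 0 4 (.cons 0x6789045321 .nil) (.node 3 9 (.cons 0x4012567893 (.cons 0x8934012576 .nil)) (.leaf 0x6521043987 0 .done) .done) (.node 3 8 (.cons 0x7654389012 (.cons 0x6754389012 .nil)) (.node 3 9 (.cons 0x4398107652 .nil) (.node 4 6 (.cons 0x3987645210 (.cons 0x6457893012 (.cons 0x9032187564 (.cons 0x2576439810 (.cons 0x7564309812 .nil))))) .done (.node 0 4 (.cons 0x4012567893 (.cons 0x8934012576 .nil)) .done .done)) .done) .done)) (.node 4 6 (.cons 0x5467890321 (.cons 0x9810346752 (.cons 0x9812576430 .nil))) (.node 3 9 (.cons 0x5467893012 (.cons 0x6457893012 .nil)) (.node 0 4 (.cons 0x4012567893 (.cons 0x1239875640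 .nil)) .done (.leaf 0x7893012546 2 .done)) (.node 0 4 (.cons 0x9046578123 .nil) (.node 0 8 (.cons 0x9081234657 .nil) .done .done) .done)) (.node 4 9 (.cons 0x1894325670 (.cons 0x8123490576 .nil)) (.node 0 6 (.cons 0x7065234981 .nil) (.node 1 4 (.cons 0x9814325670 (.cons 0x6578941230 (.cons 0x8906754123 .nil))) (.leaf 0x2306578941 2 .done) .done) (.leaf 0x6521034987 0 (.leaf 0x2567894301 1 .done))) .done))) (.node 0 4 .nil (.node 3 9 (.cons 0x4398107652 (.cons 0x6752189340 (.cons 0x4012567893 .nil))) (.leaf 0x4567893210 2 (.leaf 0x6521043987 0 .done)) (.node 7 9 (.cons 0x6523407981 .nil) (.node 0 8 (.cons 0x6798012543 .nil) (.node 0 3 (.cons 0x4567890321 .nil) (.node 4 9 (.cons 0x1894325670 .nil) (.leaf 0x6521034987 0 (.leaf 0x2567894301 1 .done)) .done) .done) (.node 2 4 (.cons 0x9810765243 .nil) (.node 2 7 (.cons 0x6572189043 .nil) (.node 4 7 (.cons 0x5674321890 .nil) (.node 1 7 (.cons 0x6540987123 .nil) (.node 3 7 (.cons 0x6540987321 .nil) .done .done)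 .done) .done) (.node 2 7 (.cons 0x6572189043 .nil) (.node 4 7 (.cons 0x5674321890 .nil) (.node 1 7 (.cons 0x6540987123 .nil) (.node 3 7 (.cons 0x6540987321 .nil) .done .done) .done) .done) .done)) .done)) (.node 3 5 (.cons 0x6789045321 .nil) (.node 0 3 (.cons 0x4567890321 .nil) (.node 0 6 (.cons 0x9812576043 .nil) (.node 1 6 (.cons 0x5409876123 .nil) (.node 4 9 (.cons 0x1894325670 .nil) (.node 0 2 (.cons 0x3207894561 .nil) (.leaf 0x1657894302 1 .done) (.leaf 0x6521034987 0 (.leaf 0x2567894301 1 .done))) (.leaf 0x453216789 0 .done)) .done) .done) (.node 5 8 .nil (.node 7 9 (.cons 0x6798104352 (.cons 0x6790581234 (.cons 0x6798521043 .nil))) .done (.node 1 5 (.cons 0x6789045123 .nil) (.node 5 9 (.cons 0x6704325981 .nil) .done .done) .done)) .done)) .done))) .done)) (.node 1 6 (.cons 0x7098165234 .nil) (.node 0 4 (.cons 0x9816523407 .nil) (.node 1 4 (.cons 0x3214567890 .nil) (.node 1 7 (.cons 0x6540987123 .nil) (.node 0 8 (.cons 0x9087654123 .nil) (.node 6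 8 (.cons 0x5432176890 .nil) (.leaf 0x4321768905 2 (.node 0 3 (.cons 0x4567890321 .nil) (.leaf 0x9867125430 2 .done) .done)) .done) .done) (.node 1 7 (.cons 0x6540987123 .nil) (.node 1 3 (.cons 0x9870456132 .nil) (.node 0 8 .nil (.node 2 9 (.cons 0x4561329870 (.cons 0x5432980761 (.cons 0x5416708923 .nil))) (.leaf 0x6543298071 3 .done) (.node 0 3 (.cons 0x4567890321 .nil) (.node 0 2 (.cons 0x9870231654 .nil) (.node 0 6 (.cons 0x9870614523 .nil) .done .done) .done) .done)) .done) .done) .done)) (.node 1 5 (.cons 0x6789045123 .nil) (.node 1 4 (.cons 0x3214567890 .nil) (.node 0 8 (.cons 0x9087654123 .nil) (.node 1 7 (.cons 0x9807165432 .nil) (.node 1 3 (.cons 0x9870452316 .nil) (.node 1 9 (.cons 0x7089165432 .nil) .done .done) .done) .done) (.node 1 9 (.cons 0x6198704523 .nil) (.node 0 3 (.cons 0x4567890321 .nil) (.node 0 8 .nil (.node 2 7 (.cons 0x8901276543 (.cons 0x9801276543 (.cons 0x9807234165 .nil))) (.leaf 0x4327089165 2 (.leaf 0x4327619805 2 .done))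 .done) (.leaf 0x8903214567 0 .done)) .done) .done)) .done) .done)) (.node 0 4 .nil (.node 3 5 (.cons 0x6789045321 .nil) (.node 2 4 (.cons 0x9810765342 (.cons 0x6789012453 .nil)) (.node 3 9 (.cons 0x8761239045 (.cons 0x8765390124 (.cons 0x7816523904 .nil))) (.leaf 0x4567893210 2 .done) .done) (.leaf 0x2167890453 3 (.leaf 0x4098761235 2 .done))) (.node 1 7 (.cons 0x6540987123 .nil) (.node 1 4 (.cons 0x3214567890 .nil) (.node 0 8 .nil (.node 6 9 (.cons 0x3217896540 (.cons 0x4325698071 (.cons 0x6980714523 (.cons 0x7809614523 .nil)))) (.leaf 0x7189652340 1 .done) (.node 0 3 (.cons 0x4567890321 .nil) (.node 3 6 (.cons 0x9871236540 .nil) (.node 3 5 (.cons 0x9087612354 .nil) (.node 0 2 (.cons 0x6789023541 .nil) (.leaf 0x3541678902 1 .done) .done) (.leaf 0x5409871236 2 .done)) .done) .done)) .done) (.node 1 4 (.cons 0x3214567890 .nil) (.node 0 8 .nil (.node 4 7 (.cons 0x5674321890 (.cons 0x9081234765 .nil)) (.node 4 9 (.cons 0x4905678123 (.cons 0x5490876123 (.cons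 0x6178094523 .nil))) .done .done) (.node 0 3 (.cons 0x9876541230 .nil) (.node 0 2 (.cons 0x9814320765 .nil) (.node 0 6 (.cons 0x8906712345 .nil) .done .done) .done) .done)) .done) .done)) (.node 3 5 (.cons 0x6789045321 .nil) (.leaf 0x2167890453 3 (.leaf 0x4098761235 2 .done)) .done))) (.node 1 5 .nil (.node 2 8 (.cons 0x6709823451 .nil) (.node 1 7 (.cons 0x6543289071 .nil) (.leaf 0x8234561709 2 (.leaf 0x2890716543 3 (.node 1 9 (.cons 0x1982345670 .nil) (.leaf 0x5432891076 0 .done) .done))) (.node 1 9 (.cons 0x1982345670 .nil) (.leaf 0x5432891076 0 (.node 0 4 (.cons 0x5407619823 (.cons 0x6789045123 .nil)) (.node 3 7 (.cons 0x6540987321 (.cons 0x9823704516 (.cons 0x6512378904 .nil))) (.leaf 0x4561237890 0 (.leaf 0x4073289165 2 .done)) .done) .done)) .done)) (.node 0 4 (.cons 0x9815670432 .nil) (.node 1 4 (.cons 0x3214567890 .nil) (.node 6 9 (.cons 0x4187096523 .nil) (.leaf 0x2569078143 0 (.leaf 0x5234187096 2 (.leaf 0x965234187 3 .done))) (.node 1 7 (.cons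 0x6540987123 .nil) (.node 3 5 (.cons 0x8907614532 .nil) (.node 0 8 .nil (.node 2 9 (.cons 0x4329815670 (.cons 0x6708923451 (.cons 0x4329807651 (.cons 0x8092354176 .nil)))) .done (.node 2 8 (.cons 0x7614532890 .nil) (.node 1 9 (.cons 0x1982345670 .nil) (.leaf 0x5432891076 0 .done) .done) .done)) .done) .done) .done)) (.node 5 7 (.cons 0x8904576123 .nil) (.node 3 6 (.cons 0x9876321540 .nil) (.leaf 0x1890436752 2 (.leaf 0x2367890451 3 (.leaf 0x8763215409 0 (.leaf 0x7890451236 2 .done)))) .done) .done)) .done)) .done))) (.node 1 4 (.cons 0x3214567890 .nil) (.leaf 0x6709814325 2 (.node 0 8 (.cons 0x9087654123 .nil) (.node 0 4 .nil (.node 3 9 (.cons 0x8765412390 (.cons 0x5678140932 .nil)) (.leaf 0x4567893210 2 (.leaf 0x1409325678 1 (.node 0 3 (.cons 0x4567890321 .nil) (.node 3 8 (.cons 0x7654389012 (.cons 0x9041832567 .nil)) (.leaf 0x4125678390 2 .done) .done) .done))) (.node 0 3 (.cons 0x4567890321 .nil) (.node 0 2 .nil (.node 5 9 (.cons 0x8765903214 (.cons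 0x4187659023 .nil)) (.leaf 0x234187659 2 (.leaf 0x6590234187 3 .done)) .done) .done) .done)) (.node 0 3 (.cons 0x4567890321 .nil) (.node 0 4 .nil (.node 3 5 (.cons 0x9041876532 .nil) (.leaf 0x7653214098 0 (.node 2 9 (.cons 0x4356701892 (.cons 0x6789210453 (.cons 0x4012987653 .nil))) (.leaf 0x1043567892 0 .done) .done)) .done) (.node 0 4 .nil (.node 3 9 (.cons 0x8765412390 (.cons 0x5678140932 .nil)) (.leaf 0x4567893210 2 (.leaf 0x1409325678 1 .done)) (.node 0 2 .nil (.node 5 9 (.cons 0x6780954123 (.cons 0x4187659023 .nil)) (.leaf 0x234187659 2 (.leaf 0x6590234187 3 .done)) .done) .done)) .done)) .done)) (.node 0 4 .nil (.node 3 9 (.cons 0x1239876540 .nil) (.leaf 0x5239814076 0 (.leaf 0x4567893210 2 (.leaf 0x8932567041 3 (.leaf 0x2567041893 2 (.node 2 6 (.cons 0x7098143265 (.cons 0x9326504187 (.cons 0x7814093265 .nil))) (.node 1 5 (.cons 0x7893265140 .nil) (.leaf 0x6239870415 2 .done) .done) .done))))) (.node 1 5 (.cons 0x6789045123 .nil) (.node 5 7 (.cons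 0x6570981432 .nil) (.node 3 6 (.cons 0x9876321540 .nil) (.leaf 0x8125763409 0 (.leaf 0x2367890451 3 (.leaf 0x8763215409 0 (.leaf 0x7890451236 2 .done)))) .done) .done) .done)) (.node 0 4 .nil (.node 1 5 (.cons 0x9815670432 .nil) (.node 3 6 (.cons 0x5412367890 (.cons 0x9814076325 (.cons 0x8907632514 .nil))) (.node 5 9 (.cons 0x7812365904 (.cons 0x5904187632 .nil)) (.node 0 8 (.cons 0x9087632154 .nil) (.node 2 8 (.cons 0x3678214590 (.cons 0x9528140763 (.cons 0x6709823451 .nil))) .done .done) .done) (.node 1 7 (.cons 0x2365409871 .nil) (.leaf 0x5409871236 2 (.node 1 3 (.cons 0x9813256704 .nil) (.node 1 6 (.cons 0x9870456132 .nil) (.node 1 9 (.cons 0x3219876540 .nil) .done .done) .done) .done)) .done)) (.node 2 6 (.cons 0x7098156234 (.cons 0x9815623407 .nil)) (.node 5 9 (.cons 0x8143267095 (.cons 0x5904187623 .nil)) (.node 3 5 (.cons 0x8143590762 (.cons 0x3590418762 .nil)) (.node 2 9 (.cons 0x8143592670 (.cons 0x6789210453 (.cons 0x4012987653 .nil))) (.leaf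 0x1043567892 0 .done) .done) .done) (.node 3 5 (.cons 0x9870415326 (.cons 0x5326789041 .nil)) (.leaf 0x9876235140 0 .done) .done)) .done)) (.node 1 7 (.cons 0x6540987123 .nil) (.node 0 8 .nil (.node 3 6 (.cons 0x9871236540 (.cons 0x9807632541 (.cons 0x9087632145 .nil))) (.node 4 7 (.cons 0x5674321890 (.cons 0x9081234765 (.cons 0x9804712563 .nil))) .done (.leaf 0x5409871236 2 .done)) (.node 0 3 (.cons 0x4567890321 .nil) (.node 0 2 .nil (.node 4 9 (.cons 0x4905678123 (.cons 0x5671894320 (.cons 0x8943021765 .nil))) .done .done) .done) .done)) (.node 1 6 (.cons 0x7890456123 .nil) (.node 0 8 (.cons 0x9807614523 .nil) (.node 1 3 (.cons 0x9870456132 .nil) (.node 1 5 (.cons 0x9807615432 .nil) .done .done) .done) (.node 3 7 (.cons 0x6540987321 .nil) (.leaf 0x4561237890 0 (.node 0 3 (.cons 0x4567890321 .nil) (.node 0 6 .nil (.node 1 5 (.cons 0x9873215406 (.cons 0x6098732154 .nil)) (.node 4 7 (.cons 0x5674321890 (.cons 0x9874032156 (.cons 0x8903476512 .nil))) .done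 .done) .done) .done) (.node 0 3 (.cons 0x4567890321 .nil) (.node 0 8 .nil (.node 3 6 (.cons 0x5412367890 (.cons 0x9807632541 (.cons 0x9087632145 .nil))) (.node 4 9 (.cons 0x5094187632 (.cons 0x5671809432 .nil)) (.leaf 0x6718094523 0 .done) .done) .done) .done) .done))) .done)) .done)) .done)) .done)))) .done)))
noncomputable def uc9_4_0 : T := (.node 2 5 (.cons 0x4325670981 .nil) tc9_4_3 (.node 0 8 .nil tc9_4_2 (.node 2 5 (.cons 0x4325670981 .nil) (.node 2 4 (.cons 0x9810765243 .nil) tc9_4_1 (.node 2 7 (.cons 0x8901276543 .nil) tc9_4_0 (.node 1 6 (.cons 0x7098165234 .nil) (.node 1 5 .nil (.node 0 4 (.cons 0x9816523407 (.cons 0x6789045123 .nil)) (.node 1 4 (.cons 0x3214567890 .nil) (.node 0 6 (.cons 0x7890654123 .nil) (.node 2 8 (.cons 0x9823415607 (.cons 0x9823451670 .nil)) (.leaf 0x982341567 0 .done) .done) (.node 0 6 (.cons 0x9870614523 .nil) (.node 3 6 (.cons 0x5412367890 (.cons 0x7890632514 .nil)) (.leaf 0x4123678905 1 .done) .done) .done)) (.node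 0 8 (.cons 0x9807615432 .nil) (.node 1 4 (.cons 0x9087654123 .nil) (.node 1 9 (.cons 0x7089165432 .nil) (.leaf 0x5670891234 0 .done) .done) .done) .done)) (.node 1 4 (.cons 0x3214567890 .nil) (.node 0 4 (.cons 0x9816523407 .nil) (.node 0 6 (.cons 0x7890654123 .nil) (.node 0 2 .nil (.node 5 9 (.cons 0x4095678123 .nil) (.leaf 0x6143207895 0 (.leaf 0x761895432 1 .done)) (.node 5 9 (.cons 0x8954320761 .nil) (.node 1 3 (.cons 0x4598761320 .nil) (.leaf 0x6789540231 2 .done) (.leaf 0x761895432 1 .done)) .done)) .done) (.node 1 3 (.cons 0x9870452316 .nil) (.node 1 7 .nil (.node 0 8 (.cons 0x9807165432 .nil) (.node 1 9 (.cons 0x6198704523 .nil) (.leaf 0x5670891234 0 .done) .done) .done) .done) .done)) (.node 1 7 .nil (.node 3 6 (.cons 0x5412367890 (.cons 0x6325417890 .nil)) (.leaf 0x4123678905 1 (.node 0 6 (.cons 0x9870614523 .nil) (.leaf 0x7145236098 2 .done) .done)) .done) .done)) .done)) (.node 1 5 .nil (.node 2 8 (.cons 0x6709823451 .nil) (.node 1 3 (.cons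 0x9078231654 .nil) (.node 1 4 (.cons 0x9823145076 .nil) (.leaf 0x982341567 0 .done) (.node 1 4 (.cons 0x9823145076 .nil) (.leaf 0x982341567 0 .done) .done)) (.node 1 9 (.cons 0x1982345670 .nil) (.leaf 0x5432891076 0 (.node 1 4 (.cons 0x3214567890 .nil) (.node 0 6 (.cons 0x6078914523 .nil) (.node 1 7 .nil (.node 4 6 (.cons 0x8709164523 (.cons 0x3289176450 (.cons 0x5289170643 .nil))) .done .done) .done) (.node 0 6 (.cons 0x7890654123 (.cons 0x9823415607 .nil)) .done .done)) (.node 1 4 (.cons 0x3289145670 .nil) (.node 0 6 (.cons 0x9814325607 .nil) (.node 0 3 (.cons 0x9876541230 (.cons 0x6789032154 .nil)) (.leaf 0x7654198230 1 (.node 1 3 (.cons 0x9870652314 .nil) (.node 2 6 (.cons 0x9870326541 (.cons 0x8907623154 .nil)) .done .done) .done)) .done) (.node 0 6 (.cons 0x7890654123 (.cons 0x9823415607 .nil)) .done (.node 6 9 (.cons 0x3289670541 (.cons 0x5143289670 .nil)) (.leaf 0x8234150769 2 (.leaf 0x7698234150 3 .done)) .done))) .done))) .done)) (.node 1 4 (.cons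 0x3214567890 .nil) (.node 0 6 (.cons 0x7890654123 .nil) (.node 1 7 .nil (.node 3 5 (.cons 0x7890653214 (.cons 0x4178906532 .nil)) (.node 4 8 (.cons 0x9065321487 (.cons 0x9843256071 (.cons 0x9843251706 (.cons 0x7125609843 .nil)))) (.leaf 0x7650984321 0 .done) .done) (.node 1 3 .nil (.node 4 7 (.cons 0x5674321890 (.cons 0x4789065213 .nil)) (.leaf 0x6523147890 3 (.leaf 0x652314789 2 .done)) .done) .done)) .done) (.node 1 7 .nil (.node 0 4 (.cons 0x9815670432 (.cons 0x6540987123 .nil)) (.node 5 9 (.cons 0x4095678123 (.cons 0x8176590432 .nil)) (.node 4 9 (.cons 0x2349815670 .nil) (.leaf 0x6187094325 0 (.node 3 8 (.cons 0x9045678321 (.cons 0x9405671832 (.cons 0x2387165490 (.cons 0x6178325490 (.cons 0x6714509832 .nil))))) .done .done)) .done) .done) .done) .done)) .done)) (.node 2 8 .nil (.node 1 5 (.cons 0x9076518234 .nil) (.node 1 7 (.cons 0x6543289071 .nil) (.leaf 0x8234561709 2 (.leaf 0x2890716543 3 (.node 1 9 (.cons 0x1982345670 .nil) (.leaf 0x5432891076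 0 .done) .done))) (.leaf 0x2890761543 0 .done)) (.node 1 9 (.cons 0x1982345670 .nil) (.leaf 0x5432891076 0 (.node 7 9 (.cons 0x3456798210 .nil) (.node 3 9 (.cons 0x7654398210 .nil) (.node 2 7 (.cons 0x6543982701 .nil) (.node 2 4 (.cons 0x7016542893 .nil) (.node 3 7 (.cons 0x4561073982 .nil) (.leaf 0x1073982456 2 (.node 3 8 (.cons 0x5423890761 .nil) (.node 4 6 (.cons 0x3465289701 .nil) (.leaf 0x5273890164 3 (.leaf 0x3465279018 3 (.leaf 0x5279018346 2 (.leaf 0x8210546739 2 .done)))) .done) .done)) .done) (.leaf 0x9827016543 0 .done)) (.node 6 9 .nil (.node 1 7 (.cons 0x2893456710 (.cons 0x4325698170 (.cons 0x8170965234 .nil))) .done (.node 5 9 .nil (.node 0 3 (.cons 0x4567890321 (.cons 0x8230761954 (.cons 0x4598230761 (.cons 0x7659821034 .nil)))) (.node 0 4 (.cons 0x5407619823 (.cons 0x9567043281 (.cons 0x3289540761 .nil))) .done .done) .done) .done)) .done)) (.node 5 9 .nil (.node 0 3 (.cons 0x1289765430 (.cons 0x8230761954 (.cons 0x4598230761 (.cons 0x7659821034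 .nil)))) (.node 0 4 (.cons 0x7982165403 (.cons 0x9567043281 (.cons 0x3289540761 .nil))) .done .done) (.node 4 9 .nil (.node 0 3 (.cons 0x1289765430 (.cons 0x8765490321 (.cons 0x7032894561 (.cons 0x5498230761 .nil)))) (.node 1 4 (.cons 0x5678941230 (.cons 0x1495678230 (.cons 0x7032894165 .nil))) .done .done) (.node 3 9 (.cons 0x7654398210 .nil) (.node 6 9 .nil (.node 1 7 (.cons 0x3289456170 (.cons 0x4325698170 (.cons 0x5694328170 .nil))) .done .done) .done) .done)) .done)) .done)) .done)) (.node 1 5 (.cons 0x6709823451 .nil) (.leaf 0x2890761543 0 (.node 0 8 .nil (.node 4 9 (.cons 0x8156709432 (.cons 0x6780945123 (.cons 0x7651809432 .nil))) (.leaf 0x3490765182 3 (.leaf 0x765182349 2 .done)) (.node 4 9 (.cons 0x8156709432 .nil) (.leaf 0x3490765182 3 (.node 1 9 (.cons 0x8234519076 .nil) (.node 1 4 (.cons 0x3214567890 .nil) (.node 6 8 (.cons 0x9076823451 .nil) (.leaf 0x4325186709 0 (.node 1 3 (.cons 0x9823145076 .nil) (.node 1 7 (.cons 0x4509867132 .nil) .done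 .done) (.leaf 0x4519076823 2 .done))) .done) .done) (.node 5 9 (.cons 0x6709518234 .nil) (.node 5 7 (.cons 0x6751823490 .nil) (.node 6 9 (.cons 0x3457698210 .nil) (.node 0 6 (.cons 0x9432815760 .nil) (.node 7 9 (.cons 0x2349756081 .nil) (.leaf 0x812349756 2 .done) .done) .done) .done) .done) (.leaf 0x765182349 2 .done)))) .done)) .done)) .done))) .done))) .done))) .done)))
theorem sub_c9_4_0 : root 9 refs9_4 [] 0x700000008703000004003060000020060500000000504000000004030000000030100000000102004000002018020000010 0xfe7fff67ffb3ff9fffcfffe7fff5fff9ffe9fef9 9 0 5 (.cons 0x7650981234 .nil) uc9_4_0 = true := by decide +kernel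
noncomputable def tc9_4_4 : T := (.node 0 5 .nil (.node 7 9 (.cons 0x8976210543 .nil) (.leaf 0x2189760543 1 (.node 1 4 (.cons 0x3214567890 (.cons 0x8970562341 .nil)) (.node 2 8 (.cons 0x6507982341 .nil) (.node 3 5 (.cons 0x4356798210 (.cons 0x8210976534 (.cons 0x4356289701 (.cons 0x2897653410 .nil)))) .done (.leaf 0x6501432897 2 .done)) (.node 3 9 (.cons 0x8765412390 (.cons 0x4501267893 (.cons 0x9326781450 .nil))) (.leaf 0x5076239814 2 .done) .done)) (.node 3 8 (.cons 0x7654389012 .nil) (.node 2 4 (.cons 0x9760542183 (.cons 0x3897605421 .nil)) (.leaf 0x3897650124 0 (.node 1 4 (.cons 0x3214567890 .nil) (.leaf 0x5067983214 1 (.node 3 9 (.cons 0x8765412390 (.cons 0x8397605412 (.cons 0x8765093214 (.cons 0x9326781450 .nil)))) (.leaf 0x5076239814 2 .done) .done)) .done)) (.leaf 0x4501267983 0 (.node 0 4 (.cons 0x9762183405 (.cons 0x7983405621 (.cons 0x5043897621 .nil))) .done (.leaf 0x4509762183 2 .done)))) .done))) (.node 2 5 (.cons 0x9810762543 .nil) (.node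 1 5 (.cons 0x9815432670 .nil) (.node 3 5 (.cons 0x7609812354 .nil) (.node 5 7 (.cons 0x6754321890 .nil) (.node 5 8 .nil (.node 7 9 (.cons 0x8123450976 (.cons 0x3458976210 (.cons 0x6790581234 .nil))) .done .done) .done) .done) (.node 0 4 (.cons 0x9815407623 .nil) (.node 1 6 (.cons 0x7890456123 .nil) (.node 2 8 (.cons 0x9076182345 .nil) (.node 5 9 (.cons 0x1895432670 .nil) (.leaf 0x6182345907 2 (.node 0 8 .nil (.node 2 7 (.cons 0x8901276543 (.cons 0x6721809543 .nil)) (.leaf 0x954327618 3 .done) .done) .done)) .done) (.node 1 9 (.cons 0x3265407891 .nil) (.node 2 8 (.cons 0x7019826543 .nil) (.node 0 8 .nil (.node 4 7 (.cons 0x8907432561 (.cons 0x9807432561 (.cons 0x6547809123 .nil))) (.leaf 0x8074325619 0 (.leaf 0x891652347 2 .done)) .done) .done) .done) .done)) (.node 2 4 (.cons 0x6709815423 .nil) (.node 1 6 (.cons 0x5409876123 .nil) (.node 3 5 (.cons 0x6789045321 .nil) (.leaf 0x2167890453 3 (.leaf 0x4098761235 2 .done)) (.node 1 9 (.cons 0x8915407623 .nil)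 (.node 3 5 (.cons 0x6789045321 .nil) (.leaf 0x8761235409 0 (.leaf 0x8916235407 0 .done)) .done) .done)) .done) .done)) .done)) (.node 1 5 (.cons 0x9815432670 .nil) (.node 5 7 (.cons 0x6754321890 .nil) (.node 7 9 (.cons 0x8123450976 .nil) (.node 0 4 (.cons 0x8976045123 .nil) (.node 1 4 (.cons 0x3214567890 .nil) (.node 1 6 (.cons 0x7890456123 .nil) (.node 1 7 (.cons 0x6540987123 .nil) .done .done) .done) (.node 3 6 (.cons 0x9876321540 .nil) (.leaf 0x2367890451 3 (.leaf 0x8763215409 0 (.leaf 0x7890451236 2 .done))) .done)) (.node 0 4 (.cons 0x8976512340 .nil) (.node 1 4 (.cons 0x3214567890 .nil) (.node 1 7 (.cons 0x6540987123 .nil) .done .done) (.node 3 6 (.cons 0x9876321540 .nil) (.leaf 0x2367890451 3 (.leaf 0x8763215409 0 (.leaf 0x7890451236 2 .done))) .done)) .done)) .done) (.node 1 4 (.cons 0x3214567890 .nil) (.node 3 6 (.cons 0x9814523670 .nil) (.leaf 0x5236709814 0 (.leaf 0x7632541890 3 (.leaf 0x2541890763 2 .done))) (.node 1 3 (.cons 0x6709813254 .nil)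 (.node 4 6 (.cons 0x9813254670 .nil) (.leaf 0x5231890764 2 (.leaf 0x7645231890 3 .done)) (.node 1 6 .nil (.node 0 3 (.cons 0x4567890321 (.cons 0x7890321654 (.cons 0x9870326154 .nil))) .done .done) .done)) .done)) .done)) .done)) (.node 1 6 (.cons 0x9816234507 .nil) (.node 2 8 (.cons 0x9076182345 .nil) (.node 1 9 (.cons 0x4561907823 .nil) (.leaf 0x5619078234 0 (.leaf 0x916543287 3 (.node 5 9 (.cons 0x1895432670 .nil) (.leaf 0x4328167095 2 (.leaf 0x954328167 3 .done)) .done))) (.node 0 8 .nil (.node 7 9 (.cons 0x6234507981 (.cons 0x8097612345 .nil)) (.leaf 0x2345079816 2 (.node 0 3 (.cons 0x9762180345 (.cons 0x5430897621 .nil)) (.node 1 4 (.cons 0x3214567890 (.cons 0x5679803412 (.cons 0x7980341265 .nil))) .done .done) .done)) .done) .done)) (.node 1 5 (.cons 0x9815432670 .nil) (.node 1 7 (.cons 0x9817054326 .nil) (.node 1 4 (.cons 0x3214567890 .nil) (.node 1 3 .nil (.node 2 8 (.cons 0x7098234165 (.cons 0x9826543107 .nil)) (.leaf 0x982314567 0 .done) .done)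 .done) .done) (.leaf 0x4326709815 2 (.node 2 5 (.cons 0x9810762543 .nil) (.node 1 9 .nil (.node 0 4 (.cons 0x9815407623 (.cons 0x8765409123 (.cons 0x8915407623 .nil))) .done (.node 0 4 (.cons 0x3265407891 .nil) (.node 3 9 (.cons 0x4518932670 .nil) (.node 0 3 (.cons 0x4567890321 .nil) (.node 0 8 (.cons 0x7621089345 .nil) .done .done) (.leaf 0x2390456781 3 (.leaf 0x456781239 2 .done))) (.node 3 5 (.cons 0x6789045321 .nil) (.leaf 0x8761235409 0 (.leaf 0x8916235407 0 .done)) .done)) .done)) .done) .done))) .done)) .done))) (.node 1 6 .nil (.node 5 7 (.cons 0x6754321890 .nil) (.leaf 0x4326189075 2 (.node 5 8 (.cons 0x9076234581 .nil) (.leaf 0x4321670985 2 (.leaf 0x3458907612 0 (.node 2 7 (.cons 0x8901276543 (.cons 0x1672345890 .nil)) (.node 1 7 (.cons 0x8907165432 .nil) (.node 0 2 (.cons 0x4320985671 (.cons 0x7165890234 .nil)) (.leaf 0x3457618902 0 (.node 0 8 (.cons 0x9801276543 (.cons 0x9807234561 .nil)) .done .done)) .done) (.leaf 0x8901672345 0 .done)) (.leaf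 0x9854321670 3 .done)))) (.leaf 0x981623457 3 .done))) (.node 0 5 (.cons 0x9816705432 .nil) (.node 1 4 (.cons 0x3214567890 .nil) (.node 1 7 .nil (.node 0 8 (.cons 0x9087654123 (.cons 0x9807165432 .nil)) (.node 5 9 (.cons 0x2345981670 (.cons 0x8170954326 (.cons 0x8176234590 .nil))) (.node 2 8 (.cons 0x6709541823 (.cons 0x9823456170 .nil)) (.node 3 8 (.cons 0x4590762381 (.cons 0x7123890654 (.cons 0x4176590832 .nil))) .done .done) (.leaf 0x1762345908 1 .done)) .done) (.node 1 9 (.cons 0x8190762345 .nil) (.node 1 3 (.cons 0x8709132654 .nil) .done (.node 1 5 (.cons 0x6709815432 .nil) (.node 1 3 .nil (.node 0 4 (.cons 0x8904321765 (.cons 0x9870456132 .nil)) (.node 2 5 (.cons 0x8916704523 (.cons 0x8913254076 (.cons 0x6709813254 .nil))) .done .done) .done) .done) .done)) .done)) (.node 1 5 (.cons 0x6709815432 .nil) (.node 1 9 (.cons 0x8709145623 .nil) (.node 0 4 .nil (.node 3 5 (.cons 0x7609812354 (.cons 0x9812354067 (.cons 0x4078916532 (.cons 0x9045326781 .nil))))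 .done (.node 2 4 (.cons 0x6709815423 .nil) (.node 2 5 (.cons 0x8910765243 .nil) (.node 0 2 (.cons 0x9816702345 .nil) (.node 2 8 (.cons 0x5670198243 .nil) .done .done) .done) .done) .done)) .done) .done) .done)) (.node 0 8 .nil (.node 2 9 (.cons 0x5432981670 (.cons 0x7089234561 (.cons 0x5432980761 .nil))) (.leaf 0x1892345076 2 (.node 5 9 (.cons 0x2345981670 (.cons 0x7623459081 (.cons 0x7621809543 .nil))) .done .done)) (.node 0 2 (.cons 0x9816702345 .nil) (.node 0 3 (.cons 0x4567890321 .nil) (.node 0 4 .nil (.node 2 9 (.cons 0x5432981670 (.cons 0x3298704561 (.cons 0x5407618923 .nil))) (.leaf 0x1892345076 2 .done) .done) .done) .done) .done)) .done)) (.node 1 9 (.cons 0x8190762345 .nil) (.node 1 4 (.cons 0x3214567890 .nil) (.node 1 3 (.cons 0x8709132654 .nil) (.node 1 7 .nil (.node 2 8 (.cons 0x7065419823 (.cons 0x6543289170 (.cons 0x6543289071 .nil))) (.leaf 0x6710982345 0 .done) .done) .done) (.node 1 3 (.cons 0x8709132654 .nil) (.node 1 7 .nil (.node 2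 8 (.cons 0x6541907823 (.cons 0x6543289170 (.cons 0x6543289071 .nil))) (.leaf 0x6710982345 0 .done) .done) .done) .done)) (.node 1 5 (.cons 0x6709815432 .nil) (.leaf 0x4326709815 0 (.node 1 4 (.cons 0x3214567890 .nil) (.node 1 7 .nil (.node 2 8 (.cons 0x3289145670 (.cons 0x6543289071 .nil)) (.node 1 3 (.cons 0x9823170654 .nil) .done (.leaf 0x6710982345 0 .done)) .done) (.node 0 5 .nil (.node 6 9 (.cons 0x5418709623 (.cons 0x7814509623 .nil)) (.node 1 7 (.cons 0x8905432176 .nil) (.node 2 8 (.cons 0x7098234165 (.cons 0x9823416507 (.cons 0x6543289071 .nil))) (.leaf 0x6710982345 0 .done) (.node 0 8 (.cons 0x9805671234 .nil) (.leaf 0x5432176980 0 .done) .done)) .done) (.node 0 8 .nil (.node 5 7 (.cons 0x6754321890 (.cons 0x9807561432 (.cons 0x9081267543 .nil))) .done (.node 1 7 .nil (.node 5 9 (.cons 0x8176234590 .nil) (.leaf 0x3417089562 0 (.leaf 0x1762345908 1 .done)) (.node 1 3 .nil (.node 2 8 (.cons 0x7098234165 (.cons 0x9823145607 (.cons 0x9823170654 .nil)))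 .done .done) .done)) .done)) .done)) .done)) (.node 6 9 (.cons 0x4518709623 .nil) (.node 3 6 .nil (.node 0 4 (.cons 0x7815409623 (.cons 0x7815409632 (.cons 0x7890456321 (.cons 0x5409876321 .nil)))) .done (.node 4 6 (.cons 0x9078154623 .nil) (.node 6 8 .nil (.node 0 5 (.cons 0x9054321867 .nil) (.node 2 7 (.cons 0x8901276543 (.cons 0x1896723450 (.cons 0x4519863270 (.cons 0x4327098651 .nil)))) .done .done) .done) .done) .done)) (.node 0 5 .nil (.node 2 5 (.cons 0x9816705234 .nil) (.node 1 4 (.cons 0x3214567890 .nil) (.node 3 9 (.cons 0x6239078154 (.cons 0x4165078932 (.cons 0x6789321450 (.cons 0x4123987650 (.cons 0x9326781450 .nil))))) .done (.node 3 6 (.cons 0x4523670981 (.cons 0x9054187632 .nil)) (.leaf 0x5236709814 2 .done) .done)) .done) (.node 3 5 (.cons 0x7609812354 .nil) (.node 5 7 (.cons 0x6754321890 .nil) (.node 5 8 (.cons 0x9076234581 .nil) (.node 5 9 .nil (.node 0 3 (.cons 0x4567890321 (.cons 0x8126759034 .nil)) (.node 1 4 (.cons 0x3214567890 (.cons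 0x4165987032 .nil)) (.leaf 0x9541876230 0 .done) (.leaf 0x4576218903 1 .done)) .done) .done) .done) (.node 5 9 .nil (.node 0 4 (.cons 0x9045326781 (.cons 0x7816235904 .nil)) (.node 1 4 (.cons 0x3214567890 (.cons 0x2359876140 (.cons 0x8761409532 .nil))) .done .done) .done) .done)) .done)) .done)) .done))) .done)) .done))) (.node 1 5 (.cons 0x6709815432 .nil) (.leaf 0x7623451890 3 (.leaf 0x762345189 2 (.node 1 4 (.cons 0x3214567890 .nil) (.node 0 5 (.cons 0x9814326705 .nil) (.node 1 6 .nil (.node 0 4 (.cons 0x9870415623 (.cons 0x7890456123 (.cons 0x5409876123 .nil))) .done (.node 1 7 (.cons 0x8907156234 .nil) (.node 1 3 .nil (.node 4 8 (.cons 0x5671234890 (.cons 0x9078456132 (.cons 0x7098431562 .nil))) (.leaf 0x6712348905 2 .done) .done) .done) .done)) .done) (.node 1 6 .nil (.node 0 4 (.cons 0x7890456123 (.cons 0x5409876123 .nil)) (.node 3 5 (.cons 0x7609812354 (.cons 0x9812354067 (.cons 0x9045321876 (.cons 0x9041876235 .nil)))) .done .done) (.node 1 7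 (.cons 0x8907156234 .nil) (.node 1 3 .nil (.node 2 8 (.cons 0x6517098234 (.cons 0x9078231456 .nil)) (.node 4 8 (.cons 0x5671234890 (.cons 0x9078413265 (.cons 0x7098431562 .nil))) (.leaf 0x3489071562 3 .done) .done) .done) .done) .done)) .done)) (.node 1 6 .nil (.node 5 7 (.cons 0x6754321890 .nil) (.leaf 0x8162345709 2 (.leaf 0x1890754326 3 (.node 0 4 (.cons 0x5762189043 (.cons 0x7890456123 (.cons 0x5409876123 .nil))) (.node 2 4 (.cons 0x6709815423 (.cons 0x5709816243 (.cons 0x8907615423 .nil))) (.node 3 9 (.cons 0x3987654210 (.cons 0x1654239870 (.cons 0x8932451670 .nil))) (.leaf 0x2390456781 3 (.leaf 0x456781239 2 .done)) .done) .done) .done))) (.node 0 5 (.cons 0x9816705432 .nil) (.node 0 2 (.cons 0x9816702345 .nil) (.node 0 3 (.cons 0x4567890321 .nil) (.node 0 4 (.cons 0x9876123045 .nil) .done (.node 0 8 .nil (.node 1 4 (.cons 0x3214567890 (.cons 0x9087654123 .nil)) (.leaf 0x8903214567 0 .done) .done) .done)) (.node 0 4 .nil (.node 2 9 (.cons 0x5432981670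 (.cons 0x3298704561 (.cons 0x5407618923 .nil))) .done (.node 1 4 (.cons 0x3214567890 .nil) (.node 0 3 (.cons 0x4567890321 .nil) (.node 0 8 (.cons 0x9087654123 .nil) .done .done) .done) .done)) .done)) (.node 1 4 (.cons 0x3214567890 .nil) (.node 0 8 (.cons 0x9087654123 .nil) (.node 0 4 .nil (.node 3 5 (.cons 0x9087653214 (.cons 0x9815326704 (.cons 0x9045321876 (.cons 0x7623518904 .nil)))) .done (.node 0 2 (.cons 0x9816702345 .nil) (.node 0 3 (.cons 0x4567890321 .nil) .done .done) .done)) .done) (.node 0 3 (.cons 0x4567890321 .nil) (.node 0 2 (.cons 0x9816702345 .nil) (.node 0 4 .nil (.node 2 9 (.cons 0x5432981670 (.cons 0x3298704561 (.cons 0x5407618923 .nil))) .done .done) .done) (.node 0 2 (.cons 0x9816702345 .nil) (.node 0 4 (.cons 0x9876123045 .nil) .done .done) (.leaf 0x8903214567 0 .done))) .done)) .done)) (.node 2 8 (.cons 0x9076182345 .nil) (.node 1 9 (.cons 0x1982345670 .nil) (.leaf 0x5432891076 0 (.node 1 4 (.cons 0x3214567890 .nil) (.node 1 7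 .nil (.node 0 5 (.cons 0x9814326705 (.cons 0x6507198234 .nil)) (.leaf 0x1762345098 2 .done) .done) (.node 1 3 (.cons 0x9823145607 .nil) (.node 1 7 (.cons 0x8907143265 .nil) .done .done) .done)) .done)) (.node 1 9 (.cons 0x4561907823 .nil) (.leaf 0x5619078234 0 (.leaf 0x916543287 3 .done)) .done)) .done))) .done)))) .done)))
noncomputable def tc9_4_5 : T := (.node 0 5 .nil (.node 1 7 (.cons 0x8905671234 .nil) (.node 2 8 (.cons 0x9543281706 (.cons 0x6543289071 .nil)) (.leaf 0x3459067182 2 (.leaf 0x6710982345 0 .done)) (.node 0 8 (.cons 0x9805671234 .nil) (.node 7 9 (.cons 0x6543217980 (.cons 0x6508971234 .nil)) (.node 2 8 (.cons 0x9543281706 (.cons 0x6798210543 .nil)) (.node 4 9 (.cons 0x8234956071 (.cons 0x9432817605 (.cons 0x3498217650 .nil))) .done .done) (.leaf 0x5432189760 0 .done)) .done) (.node 1 4 (.cons 0x3214567890 .nil) (.node 2 6 (.cons 0x5432670981 (.cons 0x9814326705 (.cons 0x9814507623 .nil))) (.leaf 0x8143267059 3 .done) (.node 3 6 (.cons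 0x7812360954 (.cons 0x7890563214 .nil)) (.node 2 9 (.cons 0x1456329870 (.cons 0x6329870541 (.cons 0x4507632981 .nil))) (.node 6 8 (.cons 0x6817095432 (.cons 0x4178650923 (.cons 0x4368170592 .nil))) (.leaf 0x2345098671 0 .done) .done) (.node 2 9 (.cons 0x8714563290 (.cons 0x8714509236 (.cons 0x8176329054 .nil))) (.leaf 0x3290541876 3 .done) .done)) .done)) .done))) (.node 1 5 (.cons 0x6709815432 .nil) (.node 2 6 (.cons 0x9815432670 .nil) (.node 2 5 (.cons 0x9810762543 .nil) (.node 3 5 (.cons 0x9067812354 .nil) (.node 3 6 (.cons 0x7018954362 .nil) (.node 4 7 (.cons 0x5981074362 .nil) (.leaf 0x1074362598 2 (.leaf 0x2189054763 0 (.leaf 0x6347018952 2 (.node 5 7 (.cons 0x6754321890 .nil) .done .done)))) .done) .done) .done) (.leaf 0x7623451890 3 (.node 1 6 .nil (.node 0 4 (.cons 0x9815407623 (.cons 0x7890456123 (.cons 0x5409876123 .nil))) .done (.node 1 7 .nil (.node 2 8 (.cons 0x4328956170 (.cons 0x6543289071 .nil)) (.leaf 0x3459067182 2 (.leaf 0x6710982345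 0 .done)) (.node 1 4 (.cons 0x3214567890 .nil) (.node 0 4 (.cons 0x9815407623 .nil) (.node 1 3 .nil (.node 2 4 (.cons 0x6159870423 (.cons 0x4231659870 (.cons 0x8709561324 .nil))) .done .done) .done) .done) .done)) .done)) .done))) (.node 2 6 (.cons 0x5432670981 .nil) (.leaf 0x4326709815 2 (.leaf 0x762345189 2 (.node 1 4 (.cons 0x3214567890 .nil) (.node 1 7 .nil (.node 2 8 (.cons 0x9543281706 (.cons 0x6543289071 (.cons 0x6598234170 .nil))) (.leaf 0x3459067182 2 .done) (.node 1 6 .nil (.node 0 3 (.cons 0x9876541230 (.cons 0x7890321654 (.cons 0x6145987032 (.cons 0x4165987032 .nil)))) .done .done) .done)) (.node 0 4 .nil (.node 3 6 (.cons 0x7632189054 (.cons 0x9540632187 (.cons 0x7890412365 (.cons 0x9045187632 .nil)))) .done (.node 0 3 (.cons 0x4567890321 .nil) (.node 1 7 (.cons 0x8907145623 .nil) (.node 1 3 (.cons 0x8954071326 .nil) (.node 1 6 (.cons 0x5409876123 .nil) .done .done) (.node 1 6 (.cons 0x5409876123 .nil) (.node 1 3 .nil (.node 0 2 (.cons 0x8956170234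 .nil) (.leaf 0x8902314567 0 .done) .done) .done) .done)) (.leaf 0x8903214567 0 .done)) .done)) .done)) .done))) .done)) .done)) (.node 0 5 .nil (.node 1 4 (.cons 0x3214567890 .nil) (.node 2 6 (.cons 0x5432670981 (.cons 0x4189507623 (.cons 0x9814507623 .nil))) (.leaf 0x7059814326 0 .done) (.node 3 6 (.cons 0x8145907632 (.cons 0x9054187632 .nil)) (.node 2 9 (.cons 0x8145923670 (.cons 0x4501298763 .nil)) (.leaf 0x1054367892 1 (.leaf 0x1876329054 1 .done)) (.node 2 4 (.cons 0x8142367095 (.cons 0x4236705981 .nil)) (.leaf 0x5076324189 2 (.node 4 7 (.cons 0x4763218950 .nil) (.leaf 0x3218905674 0 (.leaf 0x6509874123 1 .done)) .done)) .done)) (.node 7 9 (.cons 0x8790654123 .nil) (.node 3 6 (.cons 0x8790632145 (.cons 0x8976345012 (.cons 0x7890563214 .nil))) (.node 2 7 (.cons 0x1456327890 (.cons 0x9810543672 (.cons 0x9054187236 .nil))) (.node 2 6 (.cons 0x5432670981 (.cons 0x8976210543 .nil)) (.node 3 7 (.cons 0x6541237890 (.cons 0x9814507326 .nil)) (.leaf 0x2654189073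 3 .done) .done) .done) .done) (.node 0 4 (.cons 0x8976504321 .nil) (.node 0 3 (.cons 0x4567890321 .nil) (.node 3 6 (.cons 0x5409876321 (.cons 0x7890563214 .nil)) (.node 1 9 (.cons 0x2365419870 .nil) .done (.node 2 7 (.cons 0x1456327890 (.cons 0x9810543672 (.cons 0x9054187236 (.cons 0x6327890541 .nil)))) .done .done)) (.leaf 0x8903214567 0 .done)) .done) (.leaf 0x5432189760 0 .done))) .done))) (.node 1 5 (.cons 0x6709815432 .nil) (.node 0 4 .nil (.node 0 8 (.cons 0x9804321567 .nil) .done (.node 0 3 (.cons 0x4567890321 .nil) (.node 0 8 .nil (.node 1 4 (.cons 0x3214567890 (.cons 0x9087654123 .nil)) (.leaf 0x8903214567 0 .done) .done) .done) .done)) (.node 2 6 (.cons 0x5432670981 .nil) (.leaf 0x4326709815 2 (.leaf 0x762345189 2 (.node 1 4 (.cons 0x3214567890 .nil) (.node 0 3 (.cons 0x9876541230 .nil) (.node 0 4 .nil (.node 0 8 (.cons 0x7659804123 .nil) .done .done) (.node 0 8 (.cons 0x7659803214 .nil) .done .done)) (.node 0 3 (.cons 0x4567890321 .nil) (.node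 0 4 .nil (.node 1 7 (.cons 0x8907145623 (.cons 0x8954032176 (.cons 0x8904321765 .nil))) .done .done) (.leaf 0x8903214567 0 .done)) .done)) .done))) .done)) .done)) (.node 2 8 (.cons 0x7609543281 .nil) (.node 1 9 (.cons 0x1982345670 .nil) (.leaf 0x5432891076 0 (.node 7 9 (.cons 0x3456798210 .nil) (.leaf 0x4597601823 0 (.node 0 4 (.cons 0x5670432891 .nil) (.node 4 9 (.cons 0x5490678123 .nil) (.node 3 9 (.cons 0x7654398210 .nil) (.node 0 8 (.cons 0x7934560821 .nil) (.node 1 7 (.cons 0x8217934560 .nil) (.leaf 0x9345608217 2 (.leaf 0x3971280654 0 .done)) .done) .done) .done) (.node 4 9 (.cons 0x5490678123 .nil) (.node 2 4 (.cons 0x3245906781 .nil) (.node 1 4 (.cons 0x3214567890 .nil) (.node 4 7 (.cons 0x5918234760 .nil) .done .done) .done) .done) .done)) .done)) (.node 0 4 (.cons 0x7604591823 .nil) (.node 0 3 (.cons 0x4567890321 .nil) (.node 7 9 (.cons 0x3456798210 .nil) (.leaf 0x4597601823 0 (.leaf 0x1289765430 1 (.node 6 9 (.cons 0x7698210345 .nil) (.node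 1 6 (.cons 0x7610345982 .nil) (.node 2 4 (.cons 0x1678954230 .nil) (.leaf 0x6789542301 2 (.node 4 9 (.cons 0x5498761230 .nil) .done .done)) .done) .done) .done))) (.node 0 8 .nil (.node 3 7 (.cons 0x4591823760 (.cons 0x4567321980 (.cons 0x8091237654 .nil))) (.leaf 0x5918237604 2 .done) .done) .done)) (.node 1 6 (.cons 0x5409876123 .nil) (.node 0 3 (.cons 0x4567890321 .nil) (.node 1 3 (.cons 0x2316789540 .nil) (.node 1 4 (.cons 0x3289145670 .nil) (.node 1 5 (.cons 0x6709815432 .nil) .done .done) (.leaf 0x678231954 0 .done)) (.node 1 4 (.cons 0x3289145670 .nil) (.node 1 3 (.cons 0x2316789540 .nil) (.node 1 5 (.cons 0x6709815432 .nil) .done .done) (.leaf 0x8903214567 0 .done)) .done)) (.node 2 6 (.cons 0x5432670981 .nil) (.node 6 9 .nil (.node 1 5 (.cons 0x7615982340 (.cons 0x2345189670 (.cons 0x8769045123 (.cons 0x7043289615 .nil)))) .done (.node 4 9 (.cons 0x5490678123 .nil) (.node 2 4 (.cons 0x3245906781 .nil) (.node 7 9 (.cons 0x3456798210 .nil) (.leaf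 0x4597601823 0 (.node 3 5 (.cons 0x4356798210 .nil) (.leaf 0x9760182435 0 (.leaf 0x1287943560 2 (.leaf 0x7094235618 2 .done))) .done)) .done) .done) .done)) .done) .done)) .done)) .done))) (.node 1 7 (.cons 0x6543289071 .nil) (.leaf 0x3459067182 1 (.node 1 6 (.cons 0x7098234561 .nil) (.node 0 8 (.cons 0x6718095432 .nil) (.node 1 4 (.cons 0x3214567890 .nil) (.node 2 6 (.cons 0x8176234590 .nil) (.node 0 4 (.cons 0x8714095623 .nil) (.node 1 3 (.cons 0x2316789540 .nil) (.node 2 4 (.cons 0x5987613240 .nil) (.leaf 0x6781324590 1 (.leaf 0x8760954231 0 .done)) .done) .done) (.leaf 0x7180954326 2 .done)) .done) .done) (.leaf 0x3289071654 2 (.leaf 0x2890716543 3 .done))) (.node 1 6 (.cons 0x7098234561 .nil) (.leaf 0x3289071654 1 (.node 1 9 .nil (.node 0 4 (.cons 0x8904321765 .nil) (.node 1 4 (.cons 0x9145607823 (.cons 0x6541907823 .nil)) .done (.leaf 0x9178234065 2 .done)) (.node 1 5 (.cons 0x6709815432 .nil) (.node 1 3 (.cons 0x4590678132 .nil) (.node 1 4 (.cons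 0x3214567890 .nil) .done .done) (.node 2 6 (.cons 0x5432670981 .nil) (.leaf 0x4326709815 2 (.leaf 0x762345189 2 .done)) .done)) .done)) .done)) .done))) (.node 2 6 (.cons 0x5432670981 .nil) (.node 2 7 (.cons 0x8901276543 .nil) (.node 0 8 (.cons 0x6723459081 .nil) (.node 1 6 (.cons 0x8167234590 .nil) (.node 1 7 (.cons 0x8176095432 .nil) (.node 0 4 (.cons 0x1765982340 .nil) (.leaf 0x8956710432 0 .done) .done) (.leaf 0x9543276180 0 .done)) .done) (.node 2 4 (.cons 0x3245906781 .nil) (.node 1 3 (.cons 0x6781324590 .nil) (.leaf 0x5678243109 2 (.node 0 8 .nil (.node 4 7 (.cons 0x5906743281 (.cons 0x9567431082 (.cons 0x2809567431 .nil))) .done (.node 0 2 (.cons 0x7620189543 .nil) (.node 0 5 .nil (.node 1 7 (.cons 0x8176095432 (.cons 0x9506718234 (.cons 0x4326718950 .nil))) .done .done) .done) .done)) (.node 1 4 (.cons 0x3214567890 .nil) (.node 4 9 (.cons 0x7823149560 .nil) (.leaf 0x2870659413 2 (.node 1 5 (.cons 0x9815432670 .nil) (.leaf 0x4326709815 2 (.leaf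 0x2315498706 0 .done)) (.leaf 0x8706594132 3 .done))) .done) (.leaf 0x8760954231 0 .done)))) (.node 0 2 (.cons 0x7620189543 .nil) (.node 2 9 .nil (.node 1 4 (.cons 0x3214567890 (.cons 0x3295418760 .nil)) (.node 3 8 (.cons 0x7654389012 (.cons 0x7654389210 (.cons 0x9265410783 (.cons 0x1456783290 .nil)))) .done .done) .done) .done) .done)) .done)) (.node 0 8 .nil (.node 2 7 (.cons 0x8901276543 (.cons 0x9543276081 (.cons 0x6723459081 .nil))) (.node 1 4 (.cons 0x3214567890 (.cons 0x7659082341 .nil)) (.node 1 3 (.cons 0x4590678132 (.cons 0x7623180954 (.cons 0x9541327806 .nil))) (.leaf 0x2670895413 2 .done) (.node 3 7 (.cons 0x6541237890 (.cons 0x9807326541 (.cons 0x9087321456 .nil))) (.leaf 0x954187326 0 .done) .done)) .done) (.node 0 4 .nil (.node 1 3 (.cons 0x4590678132 (.cons 0x7623189540 (.cons 0x4095678231 .nil))) (.leaf 0x8132670459 3 (.leaf 0x6231895407 0 .done)) (.node 0 2 .nil (.node 0 3 (.cons 0x4567890321 .nil) (.node 1 4 (.cons 0x3214567890 (.cons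 0x9541876023 (.cons 0x6781459023 .nil))) (.leaf 0x8903214567 0 .done) .done) .done) .done)) .done)) .done)) .done))) (.leaf 0x678123459 0 .done))))
noncomputable def uc9_4_1 : T := (.node 5 9 (.cons 0x4590678123 .nil) tc9_4_5 (.node 5 7 (.cons 0x6754321890 .nil) (.node 0 8 .nil (.node 1 9 (.cons 0x7560891234 .nil) (.leaf 0x2345760891 2 (.node 1 4 (.cons 0x3214567890 (.cons 0x5670891432 (.cons 0x9087654123 (.cons 0x6570891432 .nil)))) .done (.leaf 0x8912345760 3 .done))) (.node 1 7 (.cons 0x9806571234 .nil) (.node 4 7 (.cons 0x9806574321 .nil) (.node 1 9 (.cons 0x7560891234 .nil) (.node 0 4 (.cons 0x4065789123 .nil) (.node 0 3 (.cons 0x4567890321 .nil) (.node 3 9 (.cons 0x8765409321 .nil) (.leaf 0x2390456781 3 (.leaf 0x456781239 2 .done)) .done) .done) (.leaf 0x3219806574 2 (.leaf 0x891234756 2 .done))) (.node 7 9 (.cons 0x8097123456 .nil) (.node 2 7 (.cons 0x8901276543 .nil) (.node 3 7 .nil (.node 1 4 (.cons 0x3214567890 (.cons 0x6541237890 .nil)) (.node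 2 9 (.cons 0x3475608921 (.cons 0x8921065734 (.cons 0x5608921473 .nil))) .done .done) .done) .done) (.node 2 7 (.cons 0x8901276543 .nil) (.node 3 7 .nil (.node 1 4 (.cons 0x3214567890 (.cons 0x6541237890 .nil)) (.node 2 9 (.cons 0x3475608921 (.cons 0x8921065734 (.cons 0x5608921473 .nil))) .done .done) .done) .done) .done)) .done)) (.node 4 9 (.cons 0x6571234980 .nil) (.leaf 0x3217560894 2 (.leaf 0x2349806571 0 (.leaf 0x8943217560 3 (.node 4 8 (.cons 0x5671234890 .nil) (.node 2 8 .nil (.node 0 3 (.cons 0x4567890321 (.cons 0x3094567821 (.cons 0x5760349821 .nil))) .done (.node 3 8 (.cons 0x7654389012 .nil) (.node 5 8 (.cons 0x4321765890 .nil) (.node 6 8 .nil (.node 0 3 (.cons 0x4567890321 (.cons 0x9430865712 (.cons 0x9867543012 .nil))) .done .done) .done) .done) .done)) (.node 0 5 (.cons 0x2348905671 .nil) (.leaf 0x6712348905 2 (.leaf 0x7650984321 0 .done)) .done)) .done)))) .done)) .done)) (.node 0 8 (.cons 0x9081234576 .nil) (.node 6 9 (.cons 0x8123457690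 .nil) (.leaf 0x1234576908 0 (.node 2 8 (.cons 0x1823457690 .nil) (.node 1 7 (.cons 0x6908175432 .nil) (.node 2 7 (.cons 0x1723456980 .nil) (.leaf 0x8965432710 0 (.leaf 0x8965432710 1 .done)) (.node 0 5 (.cons 0x8905671234 .nil) (.node 4 8 (.cons 0x5671234890 .nil) (.leaf 0x7650984321 0 (.node 6 8 (.cons 0x9086571234 .nil) .done .done)) .done) .done)) (.leaf 0x9675432810 1 .done)) (.node 0 3 (.cons 0x4567890321 .nil) (.node 3 6 (.cons 0x7543690812 .nil) (.node 0 5 .nil (.node 2 9 (.cons 0x7543692180 (.cons 0x7812963054 (.cons 0x4501298763 (.cons 0x7508129634 (.cons 0x4507632981 .nil))))) .done (.node 0 2 (.cons 0x8120967543 .nil) (.node 0 4 .nil (.node 2 5 (.cons 0x9810763452 (.cons 0x9678125403 (.cons 0x9630452187 .nil))) .done .done) .done) .done)) (.node 6 8 .nil (.node 5 9 (.cons 0x6781230954 (.cons 0x7590681234 (.cons 0x7681230954 .nil))) (.node 2 7 (.cons 0x2754369081 (.cons 0x9543018672 .nil)) (.leaf 0x6903457218 2 (.node 2 9 (.cons 0x7543681092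 .nil) (.leaf 0x1034592768 1 (.leaf 0x3681092754 2 (.leaf 0x6812903457 1 .done))) .done)) .done) (.node 3 8 (.cons 0x2183457690 .nil) (.node 0 4 (.cons 0x5769043812 .nil) (.node 2 8 (.cons 0x5769043821 .nil) .done .done) .done) .done)) .done)) (.node 0 4 .nil (.node 3 9 (.cons 0x1239876540 .nil) (.node 1 4 (.cons 0x6930875412 (.cons 0x8765412390 (.cons 0x8756093214 .nil))) .done (.leaf 0x4567893210 2 (.leaf 0x2390456781 3 (.leaf 0x456781239 2 .done)))) (.node 3 9 (.cons 0x8765409321 .nil) (.node 0 2 (.cons 0x8120967543 .nil) (.node 0 5 .nil (.node 1 7 (.cons 0x8712390456 (.cons 0x8905671234 .nil)) (.node 4 6 (.cons 0x6457812390 (.cons 0x9876450321 (.cons 0x9817645023 .nil))) .done .done) .done) .done) (.leaf 0x2390456781 3 (.leaf 0x456781239 2 .done))) .done)) .done)) .done))) .done) (.leaf 0x9812345760 1 .done))) (.node 2 6 (.cons 0x5432670981 .nil) tc9_4_4 .done)))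
theorem sub_c9_4_1 : root 9 refs9_4 [] 0x700000008703000005003060000020060500000000504000000004030000000030100000000102005000002018020000010 0xfe7fff57ffb3ff9fffcfffe7fff5fff9ffd9fef9 9 0 6 (.cons 0x7609812345 .nil) uc9_4_1 = true := by decide +kernel
noncomputable def tc9_4_6 : T := (.node 0 4 .nil (.node 1 5 (.cons 0x6789045123 .nil) (.node 1 7 (.cons 0x8904321765 .nil) (.node 0 3 (.cons 0x9871230456 (.cons 0x6789032154 .nil)) (.node 0 6 (.cons 0x9817065432 .nil) (.node 0 8 (.cons 0x9804321765 .nil) (.node 3 9 (.cons 0x4560718932 (.cons 0x8932176045 (.cons 0x4517608932 .nil))) (.leaf 0x4567893210 2 .done) .done) .done) .done) (.node 2 8 (.cons 0x9071823456 (.cons 0x6709823451 (.cons 0x4328907651 .nil))) (.node 6 9 (.cons 0x9654328170 (.cons 0x5143289670 (.cons 0x9654071823 .nil))) (.node 0 3 (.cons 0x9654032871 (.cons 0x6789032154 (.cons 0x9678230514 .nil))) .done (.leaf 0x4150769823 0 .done)) .done) .done)) (.node 0 8 (.cons 0x9804321567 .nil) (.node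 1 9 (.cons 0x6708915432 (.cons 0x8915670432 .nil)) (.node 3 6 (.cons 0x5412367890 (.cons 0x7632198045 (.cons 0x9045632187 .nil))) (.leaf 0x8763215409 0 (.leaf 0x7890451236 2 .done)) .done) .done) (.node 1 9 (.cons 0x3219876540 .nil) (.node 0 8 (.cons 0x7654321980 .nil) (.leaf 0x4321980765 0 (.node 1 7 (.cons 0x9804321765 (.cons 0x8904321765 .nil)) (.node 2 8 (.cons 0x9071823456 (.cons 0x1982345670 .nil)) (.node 3 6 (.cons 0x5412367890 (.cons 0x4519823670 (.cons 0x8236709154 (.cons 0x7632890451 .nil)))) (.leaf 0x8236704519 0 .done) .done) .done) .done)) (.node 3 8 (.cons 0x7654389012 (.cons 0x4076519832 (.cons 0x7651238904 .nil))) (.leaf 0x2190456783 3 (.leaf 0x7654091238 2 .done)) .done)) .done))) (.node 0 3 (.cons 0x4567890321 .nil) (.node 1 5 (.cons 0x6789032154 .nil) (.node 5 7 .nil (.node 0 6 (.cons 0x9876032154 (.cons 0x7560981234 (.cons 0x8906754123 .nil))) .done (.node 5 8 .nil (.node 1 6 (.cons 0x8903457612 (.cons 0x9032167854 (.cons 0x4309857612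 (.cons 0x7612309854 .nil)))) .done (.node 1 7 (.cons 0x6540987123 .nil) (.node 0 8 .nil (.node 6 9 (.cons 0x8170965432 (.cons 0x4308967512 (.cons 0x7698032154 (.cons 0x7180965432 (.cons 0x7698034512 .nil))))) .done (.node 3 8 (.cons 0x7654389012 .nil) (.node 4 8 (.cons 0x9084321765 .nil) (.node 6 8 (.cons 0x9071865432 .nil) .done .done) .done) .done)) (.node 0 2 (.cons 0x4320985671 .nil) (.leaf 0x8902341765 0 (.leaf 0x9856714320 2 .done)) .done)) .done)) .done)) (.node 1 9 .nil (.node 2 4 (.cons 0x8915423076 .nil) (.node 1 3 (.cons 0x6540789132 (.cons 0x9078132456 (.cons 0x8907651324 .nil))) .done (.node 5 8 (.cons 0x6785423091 (.cons 0x6785421903 .nil)) (.node 0 8 (.cons 0x7654321980 .nil) (.node 3 8 (.cons 0x9156708324 (.cons 0x7651908324 .nil)) .done .done) (.node 6 9 (.cons 0x3240785691 (.cons 0x8542307691 (.cons 0x1967854230 .nil))) (.leaf 0x5423076918 0 .done) .done)) .done)) (.node 1 6 (.cons 0x7098165432 .nil) (.node 1 3 (.cons 0x9870456132 .nil)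 (.node 1 7 (.cons 0x6540987123 .nil) .done .done) (.node 1 7 (.cons 0x6540987123 .nil) (.node 1 3 .nil (.node 2 4 (.cons 0x9078165423 (.cons 0x9078132456 .nil)) (.node 0 8 (.cons 0x9807651324 .nil) (.leaf 0x7654231980 0 .done) .done) .done) .done) .done)) .done)) .done)) (.node 0 6 .nil (.node 1 7 (.cons 0x6540987123 (.cons 0x9817065432 .nil)) (.node 3 7 (.cons 0x6540987321 .nil) (.node 2 9 (.cons 0x6543701892 (.cons 0x4560129873 (.cons 0x8921067345 (.cons 0x4560732981 .nil)))) (.leaf 0x654329817 2 .done) (.node 1 5 (.cons 0x9873215406 (.cons 0x8906732154 .nil)) (.node 2 8 (.cons 0x9071823456 (.cons 0x9821067345 (.cons 0x6709823451 (.cons 0x4328907651 .nil)))) .done .done) .done)) (.node 5 8 (.cons 0x4321765890 (.cons 0x9856043217 (.cons 0x5890671432 .nil))) (.node 5 7 (.cons 0x6758903412 (.cons 0x9857603412 .nil)) .done .done) .done)) (.node 5 7 (.cons 0x8906754123 .nil) (.node 0 8 (.cons 0x9806754123 .nil) (.node 0 2 .nil (.node 6 9 (.cons 0x1234576980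 (.cons 0x4320756981 (.cons 0x7541896023 (.cons 0x3457698021 .nil)))) .done .done) .done) (.node 4 7 (.cons 0x6574309812 .nil) (.node 7 9 (.cons 0x3218974560 .nil) (.leaf 0x2189745603 1 (.node 0 2 (.cons 0x9812034756 .nil) (.node 0 8 (.cons 0x9743218056 .nil) .done .done) .done)) (.node 3 9 (.cons 0x6547812390 .nil) (.node 0 8 (.cons 0x6547809321 .nil) (.node 0 2 .nil (.node 3 6 (.cons 0x5412367890 (.cons 0x6398754120 (.cons 0x8754120936 (.cons 0x9023654781 .nil)))) .done .done) .done) (.leaf 0x2187456093 0 (.node 2 6 (.cons 0x1874562390 .nil) (.leaf 0x4509326781 2 (.leaf 0x8745623901 3 (.leaf 0x7810932654 2 .done))) .done))) .done)) .done)) .done)) .done)) .done)) (.node 0 4 .nil (.node 1 7 (.cons 0x8904321765 .nil) (.node 1 9 (.cons 0x3219876540 .nil) (.node 3 8 (.cons 0x7654389012 .nil) (.leaf 0x6783219045 0 (.leaf 0x2190456783 3 (.node 1 5 (.cons 0x8915670432 (.cons 0x7651238904 .nil)) (.node 2 8 (.cons 0x5670432891 .nil) (.leaf 0x6704328915 2 (.leaf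 0x915678234 1 .done)) .done) (.leaf 0x7654091238 2 .done)))) (.node 1 5 (.cons 0x6789045123 .nil) (.node 0 8 (.cons 0x9804321567 .nil) (.node 3 6 (.cons 0x5412367890 (.cons 0x7632198045 (.cons 0x9045632187 .nil))) (.leaf 0x8763215409 0 (.leaf 0x7890451236 2 .done)) .done) (.node 1 6 (.cons 0x7098165432 .nil) (.node 2 9 (.cons 0x6145078923 (.cons 0x8923456170 (.cons 0x8923450716 (.cons 0x7043298165 .nil)))) .done (.node 5 7 (.cons 0x9816570432 .nil) (.node 2 5 (.cons 0x7098165234 (.cons 0x9816523407 .nil)) (.node 4 7 (.cons 0x9874056123 .nil) (.leaf 0x6189074325 2 .done) .done) .done) .done)) .done)) .done)) (.node 3 6 (.cons 0x5412367890 (.cons 0x9045632187 (.cons 0x9871236504 .nil))) (.node 2 9 (.cons 0x6543298170 (.cons 0x7892104563 (.cons 0x5401298763 (.cons 0x7045632981 .nil)))) (.node 1 5 (.cons 0x6329870514 (.cons 0x9236518704 (.cons 0x8923670415 .nil))) .done .done) (.leaf 0x5409871236 2 .done)) (.node 2 7 (.cons 0x6543270981 .nil) (.node 4 7 .nil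 (.node 1 6 (.cons 0x9816543270 (.cons 0x9874056123 (.cons 0x9816540723 .nil))) .done (.node 5 7 .nil (.node 1 6 (.cons 0x9816543270 (.cons 0x9816570432 (.cons 0x9816540723 .nil))) .done (.node 0 6 (.cons 0x3475609812 (.cons 0x8906754123 .nil)) (.node 0 3 (.cons 0x6574309812 .nil) (.node 2 6 (.cons 0x9810726543 (.cons 0x3475621890 .nil)) (.leaf 0x9034576218 0 .done) .done) .done) .done)) .done)) (.node 3 7 (.cons 0x6540987321 .nil) (.node 1 6 (.cons 0x7098165432 (.cons 0x4561890732 .nil)) (.node 2 9 (.cons 0x6145078923 (.cons 0x3298704561 (.cons 0x7043298165 (.cons 0x4561892370 .nil)))) .done (.node 4 7 (.cons 0x9874056123 .nil) (.node 5 7 (.cons 0x9816570432 .nil) .done .done) .done)) (.node 2 9 (.cons 0x6543701892 (.cons 0x6540129873 (.cons 0x8921043765 (.cons 0x6540732981 .nil)))) .done (.leaf 0x981237654 0 .done))) (.node 5 8 (.cons 0x9856721043 (.cons 0x9043271856 (.cons 0x3409856721 .nil))) (.leaf 0x3217658904 0 .done) .done))) .done))) (.node 1 9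 (.cons 0x8765409123 .nil) (.node 3 8 (.cons 0x9045678321 .nil) (.leaf 0x6783219045 0 (.leaf 0x2190456783 3 (.node 0 3 (.cons 0x4567890321 .nil) (.node 0 8 .nil (.node 5 9 (.cons 0x4095678321 .nil) (.leaf 0x3214095678 0 (.node 1 3 (.cons 0x4087659132 (.cons 0x6780954132 .nil)) (.node 2 8 (.cons 0x6782314590 .nil) (.leaf 0x6782319045 0 (.leaf 0x3190456782 3 .done)) .done) (.leaf 0x6780432195 3 .done))) .done) .done) (.leaf 0x7654091238 2 .done)))) (.node 0 3 (.cons 0x4567890321 .nil) (.node 1 5 (.cons 0x6789032154 .nil) (.node 0 8 .nil (.node 2 4 (.cons 0x8915423076 (.cons 0x3245670891 .nil)) (.node 3 7 (.cons 0x6542109873 (.cons 0x4567321980 (.cons 0x8091237654 (.cons 0x6519807324 .nil)))) .done .done) (.node 0 6 (.cons 0x9876032154 .nil) (.node 0 2 .nil (.node 6 9 (.cons 0x8967023415 (.cons 0x7698023415 .nil)) (.leaf 0x3451896702 1 (.leaf 0x5432076981 0 .done)) .done) .done) .done)) (.node 1 6 (.cons 0x7098165432 .nil) (.node 0 8 .nil (.node 2 4 (.cons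 0x8916703245 (.cons 0x3245670891 (.cons 0x7089165423 .nil))) .done (.node 0 2 (.cons 0x9816543207 .nil) (.node 0 6 .nil (.node 2 5 (.cons 0x8916703254 .nil) (.node 3 9 (.cons 0x8765409321 (.cons 0x6078932541 (.cons 0x1452398760 .nil))) (.leaf 0x789325416 1 .done) .done) .done) .done) .done)) (.node 4 7 (.cons 0x5618907432 .nil) (.node 1 7 .nil (.node 3 9 (.cons 0x4789321650 (.cons 0x8712390456 .nil)) (.leaf 0x5612398740 3 (.leaf 0x6504789321 2 .done)) .done) (.node 6 9 (.cons 0x8769032154 .nil) (.node 4 6 (.cons 0x5467890321 .nil) (.node 1 7 (.cons 0x2305469871 .nil) (.node 5 7 (.cons 0x9875032164 .nil) .done .done) .done) (.node 4 8 (.cons 0x3096784512 .nil) (.leaf 0x1548769032 0 (.leaf 0x7690321548 3 .done)) .done)) .done)) .done)) .done)) (.node 3 8 (.cons 0x9045678321 .nil) (.node 0 8 (.cons 0x9123804567 .nil) (.node 0 2 (.cons 0x4567023891 .nil) (.node 0 6 .nil (.node 5 7 (.cons 0x9123804576 (.cons 0x9806754321 (.cons 0x9123806754 .nil))) (.leaf 0x6089123457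 1 .done) .done) .done) .done) (.leaf 0x4091238765 0 (.node 0 8 .nil (.node 3 6 (.cons 0x5412367890 (.cons 0x5419807632 (.cons 0x9087632145 .nil))) .done (.node 3 6 (.cons 0x5412367890 .nil) (.node 4 7 (.cons 0x5476321980 .nil) (.node 0 6 (.cons 0x5476089123 .nil) (.node 3 5 (.cons 0x6745321980 .nil) (.leaf 0x7453219806 0 .done) .done) (.leaf 0x8912367450 1 .done)) (.node 3 5 .nil (.node 2 4 (.cons 0x9876530124 .nil) (.leaf 0x1098763542 2 (.leaf 0x124536789 0 .done)) (.node 0 2 (.cons 0x8914532076 .nil) (.node 0 6 (.cons 0x7608912354 .nil) .done .done) .done)) .done)) .done)) .done))) .done)) .done)) .done)) (.node 3 6 (.cons 0x5412367890 .nil) (.node 0 8 (.cons 0x9805412367 .nil) (.node 3 8 (.cons 0x7654389012 .nil) (.node 2 8 (.cons 0x9823670541 .nil) (.node 1 3 (.cons 0x9823145076 .nil) (.node 3 7 (.cons 0x8905412376 .nil) (.node 6 8 (.cons 0x4509867321 .nil) (.node 7 9 (.cons 0x3456798210 .nil) (.leaf 0x1328679054 0 (.node 0 3 (.cons 0x1289765430 .nil)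 (.node 0 4 (.cons 0x9782130456 .nil) (.node 2 4 (.cons 0x6379812450 .nil) (.leaf 0x9786542130 0 .done) .done) .done) .done)) (.leaf 0x5098673214 1 .done)) .done) .done) .done) (.node 1 9 (.cons 0x8914507632 .nil) (.node 2 8 (.cons 0x9823670541 .nil) (.node 1 3 (.cons 0x9823145076 .nil) (.node 1 5 (.cons 0x4328915670 .nil) (.node 1 7 (.cons 0x6714509832 .nil) .done .done) .done) (.node 6 8 (.cons 0x7689054123 .nil) (.node 3 7 (.cons 0x3768905412 .nil) (.node 1 3 .nil (.node 2 4 (.cons 0x5681907342 (.cons 0x9824310765 (.cons 0x9013876542 (.cons 0x9870136542 .nil)))) .done .done) (.leaf 0x5098673214 1 (.leaf 0x9054123768 0 .done))) .done) .done)) (.node 1 6 (.cons 0x7098165432 .nil) (.node 1 5 (.cons 0x4519807632 .nil) (.node 5 8 (.cons 0x9085432167 .nil) (.node 5 7 (.cons 0x4576321980 .nil) (.node 6 8 (.cons 0x2386754190 .nil) (.leaf 0x912345768 3 .done) .done) .done) .done) (.node 6 8 (.cons 0x7689054123 .nil) (.node 3 7 (.cons 0x3768905412 .nil) (.node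 1 3 .nil (.node 2 4 (.cons 0x5423670891 (.cons 0x8913245670 (.cons 0x9013876542 (.cons 0x9870136542 .nil)))) .done .done) (.leaf 0x5098673214 1 (.leaf 0x9054123768 0 .done))) .done) .done)) .done)) .done)) (.node 2 8 (.cons 0x9823670541 .nil) (.node 1 3 (.cons 0x9823145076 .nil) (.node 2 4 (.cons 0x9078132456 .nil) (.node 2 5 .nil (.node 1 6 (.cons 0x7098165432 (.cons 0x7098165234 (.cons 0x8907614523 .nil))) .done (.node 0 6 (.cons 0x9870632541 .nil) (.node 1 9 (.cons 0x1982345670 .nil) (.leaf 0x2360789145 2 (.node 1 6 (.cons 0x7098165432 .nil) (.node 1 7 (.cons 0x8907165234 .nil) (.node 4 7 (.cons 0x8907432561 .nil) (.leaf 0x981652347 2 .done) .done) .done) .done)) .done) .done)) (.node 6 9 (.cons 0x8709654231 .nil) (.leaf 0x781324569 2 (.leaf 0x4132896705 3 (.leaf 0x5413289670 2 (.leaf 0x7096542318 0 .done)))) .done)) (.node 1 9 (.cons 0x1982345670 .nil) (.node 1 6 (.cons 0x7098165432 .nil) (.node 0 6 .nil (.node 3 7 (.cons 0x8905412376 (.cons 0x9182370654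 (.cons 0x9821067345 .nil))) .done .done) .done) .done) .done)) (.node 1 9 (.cons 0x4507632891 .nil) (.node 3 8 (.cons 0x7654389012 .nil) (.node 6 8 (.cons 0x7689054123 .nil) (.node 3 7 (.cons 0x3768905412 .nil) (.node 1 3 .nil (.node 2 4 (.cons 0x5681907342 (.cons 0x9013876542 (.cons 0x9870136542 .nil))) (.leaf 0x1376890542 3 .done) .done) (.leaf 0x5098673214 1 (.leaf 0x9054123768 0 .done))) .done) .done) (.leaf 0x7632891450 1 .done)) .done)) .done)) (.leaf 0x4123678905 1 (.node 0 6 .nil (.node 3 8 (.cons 0x7654389012 (.cons 0x9832145067 .nil)) (.node 5 7 (.cons 0x6754389012 (.cons 0x9834576012 .nil)) (.node 3 7 (.cons 0x8905412376 .nil) (.node 4 9 (.cons 0x6738945012 (.cons 0x1237894560 (.cons 0x5781490632 .nil))) (.leaf 0x6549812370 0 .done) .done) (.node 4 7 (.cons 0x6745098321 (.cons 0x9065478123 .nil)) (.leaf 0x1890657432 0 .done) .done)) (.node 3 9 (.cons 0x5412398760 .nil) (.node 0 4 (.cons 0x8765409321 .nil) (.leaf 0x9876540123 2 .done) (.leaf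 0x4123987605 1 (.node 1 5 (.cons 0x4512398760 (.cons 0x8760932154 .nil)) (.node 2 4 (.cons 0x5421067893 (.cons 0x6783901542 .nil)) (.leaf 0x3678905142 2 (.leaf 0x1423678905 3 .done)) .done) .done))) .done)) (.node 1 6 (.cons 0x7098165432 .nil) (.node 1 5 .nil (.node 2 4 (.cons 0x9078156324 .nil) (.leaf 0x3678905142 2 (.leaf 0x6324150987 0 (.leaf 0x1423678905 3 .done))) (.node 1 3 .nil (.node 0 4 (.cons 0x9870456132 .nil) (.node 1 7 (.cons 0x8904321765 .nil) .done .done) .done) .done)) (.node 2 6 .nil (.node 3 8 (.cons 0x7654389012 (.cons 0x9832670541 (.cons 0x7621098345 (.cons 0x7623890541 .nil)))) .done (.node 1 9 (.cons 0x8914507623 .nil) (.node 0 4 .nil (.node 3 8 (.cons 0x9832670541 (.cons 0x7612389045 (.cons 0x7623891405 .nil))) (.leaf 0x6783219045 0 .done) (.node 1 5 (.cons 0x4078915623 .nil) (.node 1 3 (.cons 0x9870456231 .nil) (.node 1 7 (.cons 0x6540987123 .nil) .done .done) (.leaf 0x6234078915 2 .done)) .done)) .done) .done)) .done)) .done))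 (.node 2 5 (.cons 0x1452367890 .nil) (.node 1 5 .nil (.node 2 8 (.cons 0x7632890541 (.cons 0x6709823451 (.cons 0x4328907651 .nil))) .done (.node 2 8 (.cons 0x7632890541 .nil) (.node 1 9 (.cons 0x7634528910 .nil) (.node 1 3 (.cons 0x9825431076 .nil) (.node 1 7 (.cons 0x9825436710 .nil) .done .done) (.node 6 8 (.cons 0x3254198670 .nil) (.leaf 0x2345190768 3 (.leaf 0x768234519 0 (.leaf 0x7091543286 2 .done))) .done)) (.node 5 7 (.cons 0x9825763410 .nil) (.node 7 9 (.cons 0x5289763410 .nil) (.leaf 0x2897634105 0 (.node 0 4 (.cons 0x8976325041 .nil) (.leaf 0x5236798140 1 (.node 1 7 (.cons 0x2890436571 .nil) (.leaf 0x5409871236 2 .done) .done)) .done)) .done) .done)) .done)) (.node 1 5 .nil (.node 2 4 (.cons 0x1542367890 .nil) (.leaf 0x3678905142 2 (.leaf 0x6324150987 0 (.leaf 0x8901542367 0 .done))) (.node 0 8 (.cons 0x9087632541 .nil) (.node 2 8 (.cons 0x7632890541 .nil) (.node 1 9 (.cons 0x7632891450 .nil) (.node 0 4 (.cons 0x5670432891 .nil) (.leaf 0x6704328915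 0 (.node 2 4 (.cons 0x7891563240 .nil) .done .done)) (.leaf 0x2891450763 2 .done)) (.node 3 8 (.cons 0x7654389012 .nil) (.node 6 9 (.cons 0x7698321450 .nil) (.leaf 0x8145236907 0 (.leaf 0x8321450769 0 (.leaf 0x7698234150 3 .done))) .done) .done)) (.node 0 6 (.cons 0x9063254187 .nil) (.node 0 4 (.cons 0x9804321567 .nil) (.node 2 4 (.cons 0x9805142367 .nil) (.node 2 8 (.cons 0x7632890541 .nil) (.node 0 2 (.cons 0x9820154367 .nil) .done .done) .done) .done) .done) .done)) .done)) (.leaf 0x8901452367 0 .done))) .done)))) .done)))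
noncomputable def tc9_4_7 : T := (.node 0 4 .nil (.node 3 8 (.cons 0x7654389012 (.cons 0x9041238765 .nil)) (.node 3 6 (.cons 0x9078145632 (.cons 0x9045632187 .nil)) (.node 5 7 (.cons 0x7563409812 .nil) (.node 2 4 (.cons 0x9810756342 (.cons 0x4210987563 (.cons 0x8901243675 .nil))) .done (.leaf 0x2365789041 1 (.node 2 9 (.cons 0x7654389210 (.cons 0x7654012983 .nil)) (.leaf 0x6329041875 0 (.leaf 0x923657814 3 (.node 1 5 (.cons 0x8923407651 .nil) (.leaf 0x6783290415 2 (.leaf 0x4156783290 3 .done)) .done))) .done))) (.node 1 5 (.cons 0x2367890451 .nil) (.node 2 7 (.cons 0x9834567210 (.cons 0x9801543672 (.cons 0x9045632781 (.cons 0x8901543672 (.cons 0x6518907234 .nil))))) .done (.leaf 0x7890451236 2 (.node 1 9 (.cons 0x5419087632 (.cons 0x6704519832 (.cons 0x4076519832 .nil))) .done .done))) .done)) (.node 2 9 (.cons 0x1456783290 (.cons 0x5678329041 .nil)) (.leaf 0x4567832901 0 (.node 1 9 (.cons 0x2387654190 .nil) (.leaf 0x7654091238 2 (.node 2 7 (.cons 0x8327654190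 (.cons 0x1983276540 (.cons 0x8327654091 .nil))) (.leaf 0x918327654 0 .done) .done)) (.leaf 0x4567832901 1 .done))) .done)) (.node 0 3 (.cons 0x4567890321 .nil) (.node 0 5 .nil (.node 1 7 (.cons 0x6540987123 (.cons 0x9805432176 (.cons 0x8905432176 (.cons 0x8905671234 .nil)))) .done (.node 1 5 .nil (.node 1 6 (.cons 0x9807615432 .nil) (.node 0 6 .nil (.node 1 7 (.cons 0x6540987123 (.cons 0x9817065432 (.cons 0x8906712345 .nil))) .done (.node 1 7 (.cons 0x9817065432 (.cons 0x8906712345 .nil)) .done .done)) (.node 2 4 (.cons 0x7098165423 (.cons 0x9807615423 (.cons 0x8907615423 .nil))) .done .done)) (.node 1 7 (.cons 0x6540987123 .nil) (.node 0 6 (.cons 0x8906712345 .nil) (.node 0 2 .nil (.node 5 8 (.cons 0x6712345890 (.cons 0x9851760234 (.cons 0x6712098543 .nil))) .done .done) .done) (.node 1 6 (.cons 0x9807615432 .nil) (.node 3 7 (.cons 0x6540987321 .nil) (.leaf 0x4561237890 0 (.node 1 3 .nil (.node 2 4 (.cons 0x9807615423 (.cons 0x9807613245 (.cons 0x8907613245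 .nil))) .done .done) .done)) .done) .done)) .done)) .done)) (.node 3 8 (.cons 0x7654389012 .nil) (.node 2 8 .nil (.node 3 9 (.cons 0x8765412390 (.cons 0x1456782390 .nil)) (.leaf 0x4567823901 0 (.node 1 3 (.cons 0x9078231456 .nil) (.node 2 9 (.cons 0x8709231456 (.cons 0x9283410765 (.cons 0x4567013892 .nil))) .done .done) .done)) (.node 1 3 .nil (.node 2 6 (.cons 0x9078145623 (.cons 0x9870456231 (.cons 0x9078132654 (.cons 0x7098132654 .nil)))) .done (.node 3 7 (.cons 0x6540987321 .nil) (.node 3 6 (.cons 0x7890456321 .nil) (.node 6 8 (.cons 0x9045687321 .nil) (.node 2 9 (.cons 0x7654389210 .nil) (.node 1 7 (.cons 0x8654371290 .nil) (.leaf 0x5409871236 2 (.leaf 0x9217345680 2 .done)) (.leaf 0x3456812907 0 (.leaf 0x6543892107 2 .done))) .done) .done) .done) .done)) .done)) (.node 2 9 (.cons 0x1456783290 .nil) (.leaf 0x4567832901 0 (.node 3 6 (.cons 0x7890456321 .nil) (.node 3 9 (.cons 0x8765412390 .nil) (.node 2 4 (.cons 0x7893654210 .nil) (.leaf 0x8936542107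 2 .done) .done) (.leaf 0x8709236541 1 .done)) (.node 5 8 (.cons 0x8567092341 .nil) (.node 2 8 (.cons 0x9285670143 .nil) .done (.leaf 0x923418567 0 .done)) (.leaf 0x4567832901 1 .done)))) .done)) .done)) .done)) (.node 3 8 (.cons 0x7654389012 .nil) (.node 2 8 .nil (.node 3 9 (.cons 0x8765412390 (.cons 0x1456782390 .nil)) (.leaf 0x4567823901 0 (.node 2 6 (.cons 0x5439826701 (.cons 0x9382670145 .nil)) (.leaf 0x8709326541 1 (.node 5 7 (.cons 0x4326570981 (.cons 0x6754398210 (.cons 0x8210934576 (.cons 0x9075628143 .nil)))) .done .done)) (.node 1 3 (.cons 0x9078231456 .nil) (.node 2 9 (.cons 0x8709231456 (.cons 0x4567013892 .nil)) (.node 2 4 (.cons 0x9078132456 .nil) (.leaf 0x1076542983 1 (.leaf 0x9876542310 2 .done)) .done) (.leaf 0x7098231456 0 .done)) .done))) (.node 2 9 (.cons 0x7654389210 .nil) (.node 2 4 .nil (.node 3 6 (.cons 0x8709236541 (.cons 0x9245638701 (.cons 0x9078142365 .nil))) (.node 1 3 (.cons 0x8709231456 .nil) (.node 1 9 (.cons 0x6541923870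 (.cons 0x5670198342 (.cons 0x1983245670 .nil))) .done (.leaf 0x2987013654 1 .done)) .done) (.node 1 3 (.cons 0x6542987013 .nil) (.node 6 8 (.cons 0x3290786541 .nil) (.leaf 0x9231456870 2 (.node 4 6 .nil (.node 1 5 (.cons 0x6709823451 (.cons 0x6451329870 (.cons 0x3289076451 .nil))) .done (.node 4 8 .nil (.node 1 5 (.cons 0x2315467890 (.cons 0x6709845132 .nil)) (.node 1 6 (.cons 0x9823451670 (.cons 0x5614870923 (.cons 0x5489076132 .nil))) .done .done) .done) .done)) .done)) (.node 5 9 (.cons 0x8956701342 .nil) (.node 3 9 (.cons 0x3987654210 .nil) (.leaf 0x2418076593 2 (.leaf 0x4239567081 0 .done)) (.leaf 0x1342895670 1 (.leaf 0x4310765982 0 .done))) .done)) .done)) (.node 5 8 (.cons 0x8567092341 .nil) (.node 6 8 (.cons 0x7092341865 .nil) (.node 4 8 .nil (.node 1 3 (.cons 0x5670134892 .nil) (.leaf 0x2907658413 2 (.leaf 0x9231485670 0 (.node 5 9 (.cons 0x8341076592 (.cons 0x6590784132 (.cons 0x1483295670 .nil))) (.leaf 0x3410765928 0 .done) .done))) .done)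 .done) (.leaf 0x923418567 0 .done)) (.leaf 0x6543892107 2 .done))) .done)) (.node 2 8 .nil (.node 3 9 (.cons 0x8765412390 (.cons 0x1456782390 .nil)) (.leaf 0x4567823901 0 (.node 5 7 (.cons 0x6754389012 (.cons 0x9012834576 (.cons 0x6570934182 .nil))) (.node 6 9 (.cons 0x5412387690 (.cons 0x4182396570 (.cons 0x2814396570 .nil))) (.leaf 0x8345769012 1 .done) .done) .done)) (.node 0 6 (.cons 0x9067832145 .nil) (.node 0 3 (.cons 0x4567890321 .nil) (.node 0 5 (.cons 0x9054123876 .nil) (.node 1 5 (.cons 0x9067832154 .nil) (.node 0 4 (.cons 0x9804321567 .nil) (.node 0 2 .nil (.node 1 9 (.cons 0x1982345670 (.cons 0x8915432076 (.cons 0x8915670234 (.cons 0x6702389154 .nil)))) .done .done) .done) .done) .done) .done) (.node 1 6 (.cons 0x7098165432 .nil) (.node 2 7 (.cons 0x9816543270 .nil) (.leaf 0x3456189072 1 (.node 1 5 (.cons 0x7609832154 .nil) (.node 2 4 (.cons 0x9832451670 .nil) (.leaf 0x8324516709 0 .done) .done) (.leaf 0x1098345672 1 .done))) (.node 2 6 (.cons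 0x9078145623 .nil) (.node 1 3 (.cons 0x9078132654 .nil) (.node 2 7 (.cons 0x6543270981 .nil) (.node 1 7 .nil (.node 0 2 (.cons 0x9817023456 .nil) (.node 1 9 (.cons 0x8913207654 .nil) (.leaf 0x765431982 0 .done) (.leaf 0x9834567120 3 .done)) .done) (.leaf 0x1098345672 1 .done)) .done) .done) .done)) .done)) .done)) (.node 2 9 (.cons 0x1456783290 .nil) (.leaf 0x4567832901 0 (.node 3 6 (.cons 0x9078145632 .nil) (.node 6 8 .nil (.node 5 7 (.cons 0x6345701892 (.cons 0x3457689210 (.cons 0x5768092143 .nil))) (.leaf 0x6832901457 2 .done) (.node 5 8 (.cons 0x7634589210 .nil) (.node 2 8 .nil (.node 3 9 (.cons 0x8765412390 (.cons 0x9365410782 (.cons 0x9341076582 .nil))) .done .done) .done) .done)) (.leaf 0x8709236541 1 (.node 3 9 (.cons 0x8765412390 .nil) (.node 6 8 (.cons 0x7865412390 .nil) (.leaf 0x5412390786 0 (.node 5 8 .nil (.node 0 3 (.cons 0x4567890321 (.cons 0x7685430921 (.cons 0x9032145876 .nil))) .done (.node 2 8 .nil (.node 1 5 (.cons 0x4367015892 .nil)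 (.leaf 0x6709285143 2 .done) .done) .done)) .done)) .done) .done))) (.node 5 8 (.cons 0x8567092341 .nil) (.node 1 5 (.cons 0x4156783290 .nil) (.node 1 9 (.cons 0x2387654190 .nil) (.node 7 9 (.cons 0x2976583410 .nil) (.node 2 5 (.cons 0x6783254190 .nil) (.node 5 7 (.cons 0x8143290756 .nil) .done (.leaf 0x9083412567 2 .done)) .done) .done) .done) (.leaf 0x923418567 0 .done)) (.leaf 0x4567832901 1 .done)))) .done))) .done))
noncomputable def tc9_4_8 : T := (.node 1 5 .nil (.node 0 8 (.cons 0x9807651432 .nil) (.node 1 9 (.cons 0x5670891432 .nil) (.node 2 8 (.cons 0x9167082345 (.cons 0x6709823451 (.cons 0x9823415670 .nil))) .done (.leaf 0x5670891234 0 .done)) (.node 2 6 (.cons 0x9807623451 (.cons 0x7098156234 .nil)) (.node 5 7 (.cons 0x9801267543 .nil) (.leaf 0x6234189075 1 (.node 0 3 (.cons 0x9876541230 (.cons 0x9870326541 (.cons 0x9814307562 .nil))) (.leaf 0x4576218903 2 .done) .done)) (.node 1 3 (.cons 0x8907623154 .nil) (.node 3 7 (.cons 0x9814562370 (.cons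 0x6237098154 .nil)) (.node 2 9 (.cons 0x6543701892 (.cons 0x8923415670 .nil)) (.leaf 0x734562981 2 (.leaf 0x1543762980 2 .done)) (.leaf 0x2654189073 1 .done)) .done) .done)) .done)) (.node 0 6 .nil (.node 3 9 (.cons 0x4561870932 (.cons 0x7893214560 (.cons 0x5412398760 .nil))) (.node 2 4 (.cons 0x8932415670 (.cons 0x9324187065 (.cons 0x5607893241 .nil))) (.leaf 0x3987065142 0 .done) (.node 2 7 (.cons 0x4561872390 (.cons 0x9327814560 (.cons 0x9814327065 .nil))) (.node 0 4 (.cons 0x8932760451 .nil) (.leaf 0x8723904561 3 (.node 1 7 (.cons 0x8716540932 (.cons 0x8906712345 (.cons 0x5604178932 .nil))) .done .done)) (.leaf 0x4189327065 1 .done)) .done)) (.node 0 8 .nil (.node 7 9 (.cons 0x5607981432 (.cons 0x8097612345 .nil)) (.leaf 0x3218097654 0 (.node 3 9 (.cons 0x4561870932 (.cons 0x7809321654 (.cons 0x4156708932 .nil))) (.node 2 5 (.cons 0x3418970652 (.cons 0x6180793452 (.cons 0x8067934125 (.cons 0x7980652143 .nil)))) .done (.node 2 4 (.cons 0x7816542390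 (.cons 0x7809324561 (.cons 0x5423908761 .nil))) (.leaf 0x6514239807 1 .done) .done)) .done)) (.node 0 3 (.cons 0x9876541230 .nil) (.node 0 4 .nil (.node 3 5 (.cons 0x9087612354 .nil) (.leaf 0x2167890453 3 (.leaf 0x453216789 0 (.leaf 0x4098761235 2 .done))) (.node 0 5 .nil (.node 1 7 (.cons 0x6540987123 (.cons 0x8905432176 (.cons 0x8905671234 .nil))) .done .done) .done)) (.node 0 4 .nil (.node 3 9 (.cons 0x4561870932 (.cons 0x8761239045 (.cons 0x5678932140 (.cons 0x7816540932 .nil)))) .done (.node 0 5 .nil (.node 1 7 (.cons 0x8905432176 (.cons 0x8905671234 .nil)) (.node 5 9 (.cons 0x8956071432 (.cons 0x4178956032 .nil)) (.leaf 0x1760895432 0 .done) .done) .done) .done)) .done)) .done)) (.node 2 6 .nil (.node 3 7 (.cons 0x9814560732 (.cons 0x9810734562 (.cons 0x6237098154 .nil))) (.leaf 0x2654189073 1 (.node 3 9 (.cons 0x4561870932 (.cons 0x1456239870 (.cons 0x7062398145 .nil))) (.node 2 7 (.cons 0x7265439810 (.cons 0x4562781093 .nil)) (.leaf 0x4189327065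 1 .done) .done) .done)) (.node 2 7 (.cons 0x6543270981 .nil) (.node 2 5 .nil (.node 1 9 (.cons 0x8190723456 (.cons 0x8910762543 (.cons 0x8914325670 .nil))) .done (.node 2 4 (.cons 0x9078165423 .nil) (.node 4 7 (.cons 0x7456098123 .nil) (.node 2 8 .nil (.node 3 9 (.cons 0x4561870932 (.cons 0x5439826701 (.cons 0x3982560741 (.cons 0x8276543901 .nil)))) (.leaf 0x6547093281 0 .done) (.node 0 2 .nil (.node 1 3 (.cons 0x5674312890 (.cons 0x9813470265 .nil)) (.leaf 0x7890231456 0 .done) .done) .done)) .done) .done) .done)) (.node 2 8 .nil (.node 3 6 (.cons 0x6327098154 (.cons 0x5436728901 .nil)) (.node 5 9 (.cons 0x6270189543 (.cons 0x7014365982 (.cons 0x5982763410 (.cons 0x6182709543 .nil)))) .done .done) (.node 5 9 (.cons 0x1432895670 .nil) (.node 1 7 (.cons 0x6598234170 .nil) (.node 0 8 (.cons 0x4326598071 .nil) (.leaf 0x7143265980 3 .done) .done) (.leaf 0x8956701432 3 (.node 3 6 (.cons 0x1895436270 .nil) (.leaf 0x2701895436 2 (.leaf 0x4362701895 3 .done))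 .done))) .done)) (.node 4 6 (.cons 0x5643270981 .nil) (.leaf 0x8907234651 0 (.node 4 8 (.cons 0x5672109843 .nil) (.node 2 8 (.cons 0x9076154823 .nil) .done (.node 1 7 .nil (.node 0 5 (.cons 0x7218905643 (.cons 0x6509843271 .nil)) (.leaf 0x6712348905 2 .done) (.node 5 9 (.cons 0x6234598170 .nil) (.node 0 5 (.cons 0x6059841723 .nil) (.node 2 5 (.cons 0x3254890671 .nil) .done .done) (.leaf 0x8143270659 0 (.leaf 0x7189543260 1 .done))) .done)) .done)) .done)) .done))) (.node 0 5 (.cons 0x9814326507 .nil) (.node 5 7 (.cons 0x9814326570 .nil) (.node 2 5 .nil (.node 3 6 (.cons 0x4521098763 .nil) (.leaf 0x1098763452 1 (.node 0 8 (.cons 0x9801254367 (.cons 0x9807652341 .nil)) (.node 7 9 (.cons 0x5623418970 (.cons 0x8976345210 (.cons 0x6523418970 .nil))) (.leaf 0x4367980125 1 .done) .done) (.leaf 0x9012543678 0 .done))) (.node 3 5 .nil (.node 2 7 (.cons 0x6543270981 (.cons 0x9814532706 .nil)) (.leaf 0x6534189072 1 .done) (.node 0 2 .nil (.node 3 9 (.cons 0x4561870932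 (.cons 0x7893562014 (.cons 0x6789354102 (.cons 0x8932076514 .nil)))) .done (.node 2 4 (.cons 0x9078165423 .nil) (.node 2 7 (.cons 0x6543270981 .nil) .done .done) .done)) .done)) .done)) (.node 0 4 (.cons 0x7562189043 .nil) (.node 7 9 (.cons 0x5623418970 .nil) (.node 1 7 (.cons 0x6540987123 .nil) (.node 1 9 .nil (.node 0 8 (.cons 0x8097612345 (.cons 0x5670891432 .nil)) (.leaf 0x4198075623 1 .done) .done) .done) (.node 1 7 (.cons 0x6540987123 .nil) (.node 1 9 .nil (.node 3 6 (.cons 0x7890456321 (.cons 0x7891236540 (.cons 0x8791405632 .nil))) .done .done) .done) .done)) (.node 3 5 (.cons 0x6789045321 .nil) (.leaf 0x2167890453 3 (.leaf 0x453216789 0 (.leaf 0x4098761235 2 .done))) .done)) .done)) (.node 1 9 (.cons 0x4198705623 .nil) (.node 1 3 (.cons 0x9870562314 .nil) (.node 1 7 .nil (.node 3 9 (.cons 0x4561870932 (.cons 0x4178932650 .nil)) (.node 4 8 (.cons 0x7845612390 (.cons 0x5489067123 (.cons 0x7126509843 .nil))) (.leaf 0x3906548712 0 .done) .done) .done)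 .done) (.node 1 3 (.cons 0x9870562314 .nil) (.node 1 7 .nil (.node 4 8 (.cons 0x6709845132 (.cons 0x5489067123 (.cons 0x5489067132 (.cons 0x7126509843 .nil)))) .done .done) .done) .done)) .done)) .done))) .done))) .done)) (.node 4 7 (.cons 0x5618907432 .nil) (.node 2 5 (.cons 0x7098165234 .nil) (.node 5 7 .nil (.node 0 4 (.cons 0x9816523407 (.cons 0x4098756123 (.cons 0x8904321675 .nil))) .done (.node 5 8 .nil (.node 0 4 (.cons 0x9816523407 (.cons 0x9047856123 (.cons 0x9852340761 .nil))) .done (.node 0 4 (.cons 0x9816523407 .nil) (.node 1 7 (.cons 0x7165890432 .nil) (.node 2 7 (.cons 0x7234098561 .nil) (.node 7 9 (.cons 0x6179852340 .nil) .done .done) .done) (.node 7 9 (.cons 0x1679852340 .nil) (.leaf 0x5897610432 0 (.leaf 0x8523401679 2 .done)) .done)) .done)) .done)) (.node 1 5 .nil (.node 2 8 (.cons 0x9074328165 (.cons 0x6709823451 (.cons 0x9823415670 .nil))) (.node 2 6 (.cons 0x8907623451 .nil) (.node 1 3 (.cons 0x9078132654 (.cons 0x9826701345 .nil))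 .done (.leaf 0x5189074326 2 .done)) .done) (.node 0 5 .nil (.node 3 9 (.cons 0x6547812390 (.cons 0x4165078932 (.cons 0x6789321450 (.cons 0x4123987650 (.cons 0x4781650932 .nil))))) .done (.node 0 4 .nil (.node 3 5 (.cons 0x9047816532 .nil) (.node 3 7 (.cons 0x9873216504 (.cons 0x8904512376 (.cons 0x9873214056 .nil))) .done (.leaf 0x8761235409 0 .done)) (.node 3 5 (.cons 0x6789045321 .nil) (.leaf 0x8761235409 0 (.node 5 9 (.cons 0x2359876140 .nil) (.node 5 7 (.cons 0x8904321675 .nil) (.node 5 8 (.cons 0x9857612340 .nil) .done .done) .done) .done)) .done)) .done)) .done)) (.leaf 0x3256189074 3 (.leaf 0x6189074325 2 .done)))) (.node 1 7 .nil (.node 0 4 (.cons 0x6540987123 .nil) (.node 4 8 (.cons 0x5617098432 .nil) (.node 0 5 (.cons 0x7165098432 .nil) (.leaf 0x6712348905 2 (.leaf 0x7650984321 0 .done)) (.node 2 5 (.cons 0x7098165234 (.cons 0x9816523407 (.cons 0x3489071652 .nil))) (.node 3 9 (.cons 0x7093481652 (.cons 0x5614078932 (.cons 0x5216784093 (.cons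 0x5678932140 (.cons 0x7816523904 .nil))))) .done (.node 3 6 (.cons 0x6325470981 (.cons 0x9045632187 (.cons 0x6325471890 .nil))) (.node 3 8 (.cons 0x9836745210 (.cons 0x9832567041 (.cons 0x5238904761 .nil))) (.leaf 0x1254763890 1 .done) .done) .done)) .done)) (.node 0 6 (.cons 0x9817065432 .nil) (.node 1 5 (.cons 0x8906745123 .nil) (.node 1 3 (.cons 0x9870654132 .nil) (.node 2 5 (.cons 0x7098165234 (.cons 0x9816074325 (.cons 0x8907165234 .nil))) (.node 4 8 (.cons 0x6709845231 (.cons 0x6713254890 (.cons 0x7609845213 .nil))) .done .done) .done) .done) (.node 2 4 (.cons 0x9817065423 .nil) (.node 3 5 (.cons 0x8906745321 (.cons 0x9816074235 (.cons 0x9078165324 (.cons 0x6098174532 .nil)))) (.leaf 0x9074235618 0 .done) (.node 1 3 (.cons 0x8907132456 .nil) (.leaf 0x5423178906 1 (.node 3 8 (.cons 0x9045678321 (.cons 0x9832456071 (.cons 0x9832417065 (.cons 0x9042387165 .nil)))) .done .done)) .done)) .done)) .done)) (.node 2 7 (.cons 0x6543270981 .nil) (.node 6 9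 (.cons 0x1896543270 .nil) (.leaf 0x8965432701 3 (.leaf 0x4569810723 0 (.node 1 5 .nil (.node 0 8 (.cons 0x9801276543 (.cons 0x3451276980 (.cons 0x9807651432 .nil))) .done (.node 2 5 (.cons 0x7098165234 .nil) (.node 0 5 (.cons 0x9816507234 .nil) (.node 7 9 (.cons 0x8970561432 .nil) (.node 0 8 (.cons 0x3418079652 .nil) (.leaf 0x4180796523 0 (.leaf 0x1432569708 2 .done)) .done) .done) (.leaf 0x9074325618 0 .done)) .done)) .done))) (.node 1 5 (.cons 0x6518907234 .nil) (.node 1 3 .nil (.node 2 8 (.cons 0x9071823456 (.cons 0x6709823154 .nil)) (.leaf 0x1345672890 2 .done) (.node 1 9 .nil (.node 0 8 (.cons 0x5670891432 .nil) (.node 5 9 (.cons 0x6598072341 (.cons 0x1432765980 (.cons 0x3412765980 .nil))) .done (.leaf 0x4321980765 0 .done)) .done) .done)) .done) .done)) .done)) (.node 5 7 .nil (.node 0 4 (.cons 0x4098756123 (.cons 0x8904321675 .nil)) (.node 4 8 (.cons 0x5761234890 .nil) (.node 4 6 (.cons 0x5709816432 .nil) (.node 0 6 (.cons 0x8906754321 .nil) (.node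 0 8 (.cons 0x9806754123 (.cons 0x9081234657 .nil)) .done .done) .done) .done) (.node 0 3 (.cons 0x9876541230 (.cons 0x8903475612 (.cons 0x6574309812 .nil))) (.node 4 6 (.cons 0x5467890321 .nil) (.node 2 5 (.cons 0x9032578164 (.cons 0x8903475216 (.cons 0x3098164752 .nil))) (.leaf 0x6189032574 1 .done) .done) .done) .done)) (.node 2 5 (.cons 0x3470981652 .nil) (.node 2 7 (.cons 0x6543270981 .nil) (.node 5 8 (.cons 0x6721098543 .nil) (.node 3 5 (.cons 0x4358901672 .nil) (.node 0 5 (.cons 0x8905347216 .nil) (.node 1 5 (.cons 0x4327615890 .nil) .done .done) .done) (.node 3 6 (.cons 0x1276345890 .nil) (.node 2 6 (.cons 0x9810726345 .nil) (.node 3 7 (.cons 0x9814562370 .nil) (.leaf 0x2654189073 1 (.node 7 9 (.cons 0x3265418970 .nil) .done .done)) .done) (.leaf 0x2763458901 0 (.leaf 0x4589012763 3 .done))) .done)) (.node 1 5 (.cons 0x6518907234 .nil) (.node 0 5 (.cons 0x6509812743 .nil) (.node 1 9 (.cons 0x8914327056 .nil) (.node 7 9 (.cons 0x8970561432 .nil)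 .done .done) .done) .done) .done)) (.leaf 0x981652347 2 (.node 1 5 .nil (.node 4 8 (.cons 0x5167098432 .nil) (.node 0 3 (.cons 0x9876541230 (.cons 0x9841652307 (.cons 0x5216748903 (.cons 0x3098476521 .nil)))) (.node 1 3 (.cons 0x6709845231 .nil) .done .done) (.leaf 0x1670984325 2 .done)) (.node 0 5 .nil (.node 2 9 (.cons 0x4329816570 (.cons 0x4165078923 (.cons 0x8923416705 .nil))) (.leaf 0x561892347 2 .done) (.node 3 5 .nil (.node 2 4 (.cons 0x9870561423 (.cons 0x9078165324 (.cons 0x3561247890 (.cons 0x6124789053 .nil)))) .done (.node 1 3 .nil (.node 2 4 (.cons 0x9870561423 (.cons 0x9078132456 (.cons 0x8907425613 (.cons 0x6789013542 .nil)))) .done (.node 1 7 .nil (.node 2 4 (.cons 0x6789013542 (.cons 0x4235617890 (.cons 0x6178905324 .nil))) (.node 0 4 (.cons 0x9816570432 .nil) (.leaf 0x7165324098 0 .done) .done) .done) .done)) .done)) .done)) .done)) .done))) (.node 4 8 (.cons 0x9075618432 .nil) (.node 1 5 (.cons 0x5167098432 .nil) (.node 2 5 (.cons 0x5234890761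 .nil) (.node 0 8 (.cons 0x9084321675 .nil) (.node 2 8 (.cons 0x9075618234 .nil) .done .done) (.leaf 0x981652347 2 .done)) .done) (.node 1 7 .nil (.node 0 5 (.cons 0x7165098432 .nil) (.leaf 0x9843217650 3 (.leaf 0x7650984321 0 .done)) (.node 7 9 (.cons 0x2348165790 .nil) (.node 2 7 (.cons 0x6543270981 .nil) (.node 3 7 .nil (.node 0 6 (.cons 0x5607981432 (.cons 0x3745609812 .nil)) (.node 1 5 (.cons 0x9723481560 (.cons 0x4815609732 .nil)) .done .done) .done) .done) .done) .done)) .done)) .done))) .done))) (.node 1 5 .nil (.node 2 8 (.cons 0x6709823451 (.cons 0x9823415670 .nil)) (.node 0 8 (.cons 0x9807651432 .nil) (.node 2 6 (.cons 0x9807623451 (.cons 0x7098156234 .nil)) (.node 2 4 (.cons 0x8907615423 .nil) (.node 3 7 (.cons 0x8907324561 (.cons 0x9824561073 (.cons 0x9073281654 (.cons 0x8907324516 .nil)))) (.leaf 0x981654237 0 .done) .done) .done) .done) (.node 1 9 (.cons 0x4328915670 .nil) (.node 0 4 (.cons 0x5407619823 (.cons 0x6789045123 .nil)) (.node 3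 9 (.cons 0x7654398210 (.cons 0x8765123904 (.cons 0x6782391540 .nil))) (.node 0 6 (.cons 0x7893214560 (.cons 0x4156078932 .nil)) .done .done) (.node 3 7 (.cons 0x6540987321 (.cons 0x9823704516 (.cons 0x6512378904 .nil))) (.leaf 0x4561237890 0 (.leaf 0x4073289165 2 .done)) .done)) .done) .done)) (.node 1 3 .nil (.node 2 4 (.cons 0x7098165423 (.cons 0x9078132456 (.cons 0x8907613245 .nil))) (.leaf 0x9876542310 2 .done) (.node 1 9 .nil (.node 0 8 (.cons 0x5670891432 .nil) (.node 2 8 (.cons 0x1982345670 (.cons 0x8234519076 .nil)) (.leaf 0x6701982345 0 .done) (.leaf 0x4321980765 0 .done)) (.node 1 7 .nil (.node 0 8 (.cons 0x5670891432 .nil) (.node 2 5 (.cons 0x8914325670 .nil) (.leaf 0x9807652341 3 (.node 6 8 (.cons 0x7098613254 (.cons 0x4325689170 (.cons 0x9865234170 (.cons 0x9086715432 (.cons 0x6890713452 .nil))))) .done (.leaf 0x1980765234 2 .done))) (.node 2 5 (.cons 0x8914325670 (.cons 0x9807143256 .nil)) (.leaf 0x7652341980 2 (.node 3 9 (.cons 0x6523980714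 (.cons 0x4176523980 .nil)) (.node 2 4 (.cons 0x7098165423 (.cons 0x6542390781 (.cons 0x8907165423 .nil))) (.leaf 0x7809324156 0 .done) .done) .done)) .done)) .done) .done)) (.node 1 9 .nil (.node 0 8 (.cons 0x5670891432 .nil) (.node 2 8 (.cons 0x1982345670 (.cons 0x8234519076 .nil)) (.leaf 0x6701982345 0 .done) (.leaf 0x4321980765 0 .done)) (.node 1 7 .nil (.node 2 8 (.cons 0x8234519076 .nil) (.node 3 9 (.cons 0x7654398210 (.cons 0x2893456710 .nil)) (.node 0 3 (.cons 0x9876541230 .nil) (.node 4 9 (.cons 0x8765490321 (.cons 0x6549301782 .nil)) (.leaf 0x2876549301 0 .done) (.leaf 0x1765430982 2 .done)) .done) (.node 2 4 (.cons 0x7098165423 (.cons 0x8907165423 .nil)) (.node 3 8 (.cons 0x7654389012 .nil) (.node 0 8 (.cons 0x9167083245 .nil) (.node 0 4 (.cons 0x5407619832 (.cons 0x6540987123 .nil)) (.node 5 9 (.cons 0x7612389540 (.cons 0x6598071432 (.cons 0x6712389540 (.cons 0x2341765980 (.cons 0x9567124380 .nil))))) .done .done) .done) (.leaf 0x1654238907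 1 .done)) .done) (.leaf 0x6710982345 0 .done))) .done) .done)) .done))) .done)) .done)))
noncomputable def uc9_4_2 : T := (.node 1 6 (.cons 0x7098165432 .nil) tc9_4_8 (.node 0 8 (.cons 0x9087654123 .nil) tc9_4_7 (.node 0 5 (.cons 0x6789054123 .nil) tc9_4_6 .done)))
theorem sub_c9_4_2 : root 9 refs9_4 [] 0x700000008703000006003060000020060500000000504000000004030000000030100000000102006000002018020000010 0xfe7fff37ffb3ff9fffcfffe7fff5fff9ffb9fef9 9 1 4 (.cons 0x3214567890 .nil) uc9_4_2 = true := by decide +kernel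
noncomputable def tc9_4_9 : T := (.node 0 4 .nil (.node 1 7 (.cons 0x8904321765 .nil) (.node 7 9 (.cons 0x5679812340 .nil) (.node 6 8 (.cons 0x9768123450 (.cons 0x9768123405 .nil)) (.leaf 0x4321768905 2 (.leaf 0x4509768123 0 .done)) (.node 5 7 .nil (.node 0 6 (.cons 0x9817065432 (.cons 0x8906754123 (.cons 0x3406579812 .nil))) .done (.node 2 9 (.cons 0x1892345670 (.cons 0x6543298170 (.cons 0x5670432981 .nil))) (.node 6 8 (.cons 0x3457689210 (.cons 0x5768921043 (.cons 0x8671290543 .nil))) (.leaf 0x4321768905 2 .done) (.node 3 8 (.cons 0x7654389012 (.cons 0x6754012983 (.cons 0x9765043812 (.cons 0x8329054176 .nil)))) (.node 1 6 (.cons 0x3879045612 (.cons 0x2165798340 (.cons 0x4561709832 .nil))) .done .done) .done)) .done)) .done)) (.node 3 9 (.cons 0x8712390456 (.cons 0x9321876504 .nil)) (.node 4 8 (.cons 0x6548712390 .nil) (.node 0 6 (.cons 0x5412398760 .nil) (.leaf 0x9321784560 2 (.leaf 0x3906548712 0 .done)) (.leaf 0x9056784123 0 .done)) (.node 1 6 (.cons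 0x8761239054 (.cons 0x5407618932 .nil)) (.node 2 5 (.cons 0x6701893452 (.cons 0x9816523407 (.cons 0x6704523981 .nil))) (.node 2 9 (.cons 0x1892345670 (.cons 0x7043298165 (.cons 0x5670432981 .nil))) (.node 3 8 (.cons 0x7654389012 (.cons 0x9238170456 (.cons 0x9834012567 (.cons 0x9238176540 .nil)))) .done .done) .done) .done) (.node 2 8 (.cons 0x6782390541 (.cons 0x6540932871 .nil)) (.node 0 6 (.cons 0x9328176045 .nil) (.node 0 2 (.cons 0x7654023981 .nil) (.node 2 5 (.cons 0x9325067814 (.cons 0x5239876041 (.cons 0x7604189325 .nil))) .done .done) .done) (.node 1 5 (.cons 0x4328907651 (.cons 0x6517823904 .nil)) (.node 2 7 (.cons 0x2765439810 (.cons 0x5672893401 (.cons 0x6723981540 .nil))) .done .done) .done)) .done))) .done)) (.node 1 7 (.cons 0x6540987123 .nil) (.node 1 6 (.cons 0x7890456123 .nil) (.node 5 7 (.cons 0x9816570432 .nil) (.node 4 9 (.cons 0x3216578940 .nil) (.node 1 3 (.cons 0x2316578940 .nil) (.node 4 7 (.cons 0x8749056132 .nil) (.node 4 8 (.cons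 0x7849056132 .nil) .done .done) .done) (.node 0 3 (.cons 0x4567890321 .nil) (.leaf 0x8756123049 0 (.leaf 0x5789403216 1 .done)) .done)) (.node 7 9 (.cons 0x5618970432 .nil) (.node 0 6 (.cons 0x5432189760 .nil) (.leaf 0x2189760543 0 .done) (.node 0 6 (.cons 0x3406579812 .nil) (.node 4 7 (.cons 0x5604798123 .nil) (.node 2 7 (.cons 0x8901276543 .nil) (.node 3 7 (.cons 0x6540987321 .nil) .done .done) .done) .done) .done)) .done)) (.node 0 3 (.cons 0x4567890321 .nil) (.node 1 5 (.cons 0x6789032154 .nil) (.node 3 7 (.cons 0x6540987321 .nil) (.leaf 0x4561237890 0 (.node 1 3 .nil (.node 2 7 (.cons 0x9816540723 .nil) (.leaf 0x4561327890 0 (.node 4 6 (.cons 0x4651237890 (.cons 0x6451327890 (.cons 0x5467890312 .nil))) (.leaf 0x2309876451 0 (.leaf 0x2309876451 1 .done)) .done)) .done) .done)) .done) (.node 3 7 (.cons 0x6540987321 .nil) (.leaf 0x4561237890 0 (.node 0 6 .nil (.node 3 9 (.cons 0x7045618932 (.cons 0x8712390654 .nil)) (.node 4 9 (.cons 0x5498160732 .nil)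 (.leaf 0x8760549321 2 (.leaf 0x6732189450 0 .done)) .done) .done) .done)) .done)) .done)) (.node 4 8 (.cons 0x5671234890 .nil) (.leaf 0x6712348905 2 (.node 4 9 .nil (.node 0 3 (.cons 0x4567890321 (.cons 0x9450321876 .nil)) (.leaf 0x6781230945 0 .done) (.node 0 3 (.cons 0x4567890321 .nil) (.node 1 5 (.cons 0x6789032154 .nil) (.node 4 6 (.cons 0x5467890321 .nil) (.leaf 0x2309876451 0 (.leaf 0x2309876451 1 .done)) (.node 1 6 (.cons 0x7890456123 .nil) (.node 4 6 (.cons 0x5467890321 .nil) (.node 2 4 (.cons 0x9815423076 .nil) (.node 4 7 (.cons 0x8903215476 .nil) .done .done) .done) .done) .done)) (.node 0 6 .nil (.node 2 5 (.cons 0x9817043256 (.cons 0x5230678941 (.cons 0x7189432560 (.cons 0x7189406523 .nil)))) .done (.node 0 2 (.cons 0x5671894320 .nil) (.node 0 8 .nil (.node 1 6 (.cons 0x7890456123 .nil) (.node 1 3 (.cons 0x8761320945 (.cons 0x7809456132 .nil)) .done .done) .done) .done) .done)) .done)) .done)) .done)) .done)) .done)) (.node 0 4 .nil (.node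 1 7 (.cons 0x8904321765 .nil) (.node 2 9 (.cons 0x1892345670 (.cons 0x6543298170 (.cons 0x5670432981 .nil))) (.node 1 5 (.cons 0x6704518923 .nil) (.node 6 8 (.cons 0x9234518670 (.cons 0x9234076815 (.cons 0x8671543290 .nil))) (.node 3 8 (.cons 0x7683451290 (.cons 0x6834517092 (.cons 0x9045123876 (.cons 0x7683409215 (.cons 0x6783290451 .nil))))) .done .done) .done) (.node 1 9 (.cons 0x3219876540 .nil) (.node 2 6 (.cons 0x3265407891 (.cons 0x9187045623 (.cons 0x9817056234 .nil))) (.node 0 3 (.cons 0x9187032654 .nil) (.leaf 0x2198765403 3 (.node 1 3 (.cons 0x8709132654 .nil) .done .done)) .done) (.node 3 6 (.cons 0x5418923670 (.cons 0x7891236504 .nil)) (.leaf 0x4189236705 2 (.node 4 7 (.cons 0x9874056321 (.cons 0x8905634712 .nil)) (.leaf 0x563219874 2 .done) (.node 2 7 (.cons 0x4056327891 (.cons 0x9187236504 (.cons 0x5401892763 .nil))) (.leaf 0x3650419872 3 .done) .done))) .done)) .done)) (.node 1 5 (.cons 0x6789045123 .nil) (.node 2 8 (.cons 0x6709823451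 (.cons 0x4328907651 .nil)) (.node 1 6 (.cons 0x5416709823 .nil) (.leaf 0x3289071654 2 .done) (.node 1 6 (.cons 0x7098234561 .nil) (.leaf 0x3289071654 2 (.leaf 0x2890716543 3 .done)) .done)) (.node 3 9 (.cons 0x8712390456 (.cons 0x6704518932 (.cons 0x4076518932 .nil))) (.node 2 4 (.cons 0x3987654210 (.cons 0x8765421093 .nil)) (.leaf 0x8156704239 1 .done) (.node 0 2 (.cons 0x9320456781 (.cons 0x7651893204 (.cons 0x7654023981 .nil))) (.node 1 6 (.cons 0x9816702345 .nil) (.node 1 9 (.cons 0x3219876540 .nil) (.leaf 0x7819320456 0 (.leaf 0x3918765402 3 .done)) .done) .done) .done)) .done)) .done)) (.node 0 3 (.cons 0x4567890321 .nil) (.node 3 9 (.cons 0x9321876540 .nil) (.node 1 9 (.cons 0x6540781932 .nil) (.node 1 7 (.cons 0x8712390456 .nil) (.node 1 3 .nil (.node 1 5 (.cons 0x6789032154 .nil) (.node 2 4 (.cons 0x9815423076 (.cons 0x6507891324 .nil)) (.leaf 0x9876542310 2 .done) .done) .done) .done) (.node 1 5 (.cons 0x6789032154 .nil) (.node 2 9 (.cons 0x1892345670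 .nil) (.node 1 6 (.cons 0x5432981670 .nil) (.node 1 7 (.cons 0x8712390456 .nil) .done .done) (.leaf 0x6701892345 0 .done)) .done) .done)) (.leaf 0x6781239045 0 (.node 0 2 (.cons 0x9320456781 .nil) (.node 0 8 .nil (.node 5 9 (.cons 0x4023956781 .nil) (.node 2 7 (.cons 0x2765439810 (.cons 0x2765439801 (.cons 0x6723954180 (.cons 0x6723954081 .nil)))) .done (.node 5 7 (.cons 0x6759812034 (.cons 0x6759802143 (.cons 0x6759341802 .nil))) .done .done)) .done) (.node 0 6 (.cons 0x7602398145 .nil) (.node 5 7 (.cons 0x6754189320 .nil) (.leaf 0x2398145760 1 (.leaf 0x2398145760 0 (.node 0 8 .nil (.node 2 5 (.cons 0x8906752143 (.cons 0x2576089341 (.cons 0x6780932541 .nil))) .done .done) .done))) .done) .done)) .done))) (.node 0 6 .nil (.node 3 9 (.cons 0x9321876540 (.cons 0x9321876045 .nil)) (.node 4 7 (.cons 0x1239874560 .nil) (.leaf 0x9874560123 2 (.node 1 3 (.cons 0x8745609312 .nil) (.node 2 5 (.cons 0x9812567430 (.cons 0x4789306521 (.cons 0x9306521874 (.cons 0x8903125674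 .nil)))) .done .done) .done)) (.node 0 2 (.cons 0x7602398145 .nil) (.node 1 5 (.cons 0x9815432076 (.cons 0x9320678154 (.cons 0x7602398154 .nil))) .done .done) .done)) (.node 0 2 .nil (.node 5 9 (.cons 0x9567812304 (.cons 0x7659812034 .nil)) (.node 4 7 (.cons 0x4765981230 (.cons 0x4765981203 .nil)) (.node 0 8 (.cons 0x4765980321 .nil) (.node 3 8 (.cons 0x9045678321 .nil) (.leaf 0x2038956741 0 (.leaf 0x9830214765 3 .done)) .done) .done) (.leaf 0x2341895670 0 .done)) (.node 0 8 .nil (.node 3 7 (.cons 0x8906732145 (.cons 0x9806732145 .nil)) (.node 2 7 (.cons 0x8901276543 (.cons 0x9801276543 .nil)) (.node 5 9 (.cons 0x6702345981 (.cons 0x8095412376 (.cons 0x9567234081 (.cons 0x9567218043 .nil)))) .done .done) (.node 5 9 (.cons 0x4598123760 (.cons 0x9540812376 .nil)) (.leaf 0x6732189540 1 (.leaf 0x6732189540 0 .done)) .done)) .done) .done)) .done)) .done)) .done)) (.node 3 6 (.cons 0x5412367890 .nil) (.node 3 7 (.cons 0x8905412376 .nil) (.node 1 7 .nil (.node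 2 8 (.cons 0x9823670541 (.cons 0x6543289071 .nil)) (.node 4 9 (.cons 0x6328945071 (.cons 0x1763289450 (.cons 0x3671289450 .nil))) (.node 0 3 (.cons 0x4567890321 (.cons 0x7894563012 (.cons 0x5498763012 (.cons 0x7650321894 .nil)))) .done .done) (.leaf 0x6710982345 0 .done)) (.node 4 8 (.cons 0x5671234890 .nil) (.node 0 4 (.cons 0x8904321765 .nil) (.node 2 4 (.cons 0x9842365071 .nil) (.node 4 7 (.cons 0x9847123650 .nil) (.leaf 0x8905632174 3 .done) .done) .done) (.leaf 0x7650984321 0 (.node 6 8 (.cons 0x7689054123 .nil) (.leaf 0x2145098673 0 (.node 5 8 (.cons 0x4321765890 .nil) (.node 4 6 (.cons 0x7123465890 .nil) (.node 0 4 (.cons 0x9046587123 .nil) (.node 1 6 (.cons 0x7890456123 .nil) (.node 2 9 (.cons 0x9237681450 .nil) (.leaf 0x6540129873 2 (.leaf 0x456189237 0 (.leaf 0x6701892345 0 (.leaf 0x5407329816 1 .done)))) .done) .done) .done) .done) .done)) .done))) .done)) (.node 0 6 (.cons 0x9812376054 .nil) (.node 0 4 .nil (.node 2 9 (.cons 0x1892345670 (.cons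 0x7892104563 (.cons 0x5401298763 (.cons 0x5670432981 .nil)))) (.node 5 9 (.cons 0x8760954123 (.cons 0x6378954012 (.cons 0x8129540673 .nil))) (.leaf 0x6321405987 0 .done) .done) (.node 4 9 (.cons 0x6732189450 .nil) (.leaf 0x3760549812 0 (.node 7 9 (.cons 0x8976321450 .nil) (.node 4 6 (.cons 0x9812376450 .nil) (.node 4 8 (.cons 0x7984056321 .nil) .done .done) .done) .done)) .done)) (.node 6 8 (.cons 0x4509867321 .nil) (.node 4 9 (.cons 0x6732189450 .nil) (.node 1 5 (.cons 0x7065189432 .nil) (.node 4 8 (.cons 0x7849065123 .nil) (.leaf 0x9065123784 0 .done) (.node 2 5 (.cons 0x6378945210 .nil) (.node 1 3 (.cons 0x4987065231 .nil) (.leaf 0x7065231498 0 (.node 2 7 (.cons 0x3654987210 .nil) (.leaf 0x6072349815 0 (.leaf 0x4986527013 0 .done)) .done)) (.leaf 0x7360125498 0 .done)) .done)) (.leaf 0x7321894506 2 (.node 4 6 (.cons 0x9812376450 .nil) (.node 2 6 (.cons 0x3762189450 .nil) (.node 1 6 .nil (.node 0 4 (.cons 0x7890456123 .nil) (.leaf 0x9873216540 0 .done)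 .done) .done) .done) .done))) (.leaf 0x5098673214 1 .done)) .done)) (.node 0 4 (.cons 0x9812376504 .nil) (.node 0 6 .nil (.node 3 9 (.cons 0x9321876540 (.cons 0x9321876045 (.cons 0x7605418932 .nil))) (.leaf 0x4123987605 1 .done) (.node 6 8 (.cons 0x7689054123 .nil) (.node 4 6 .nil (.node 5 9 (.cons 0x9504186732 (.cons 0x6418950732 (.cons 0x2376418950 .nil))) (.leaf 0x6732189504 0 .done) (.node 4 8 (.cons 0x4890567321 .nil) (.node 0 8 (.cons 0x9805412367 .nil) (.node 3 8 (.cons 0x9045678321 .nil) .done .done) .done) .done)) (.leaf 0x9054123768 0 .done)) .done)) (.node 4 9 (.cons 0x4981237650 .nil) (.leaf 0x3765049812 3 (.node 2 9 (.cons 0x1892345670 .nil) (.leaf 0x8736540129 3 (.node 7 9 (.cons 0x8976321450 .nil) .done (.leaf 0x6701892345 0 (.leaf 0x1045637892 2 .done)))) .done)) .done)) .done))) (.leaf 0x4123678905 1 (.node 6 8 (.cons 0x7689054123 .nil) (.node 3 8 (.cons 0x7654389012 .nil) (.node 1 3 (.cons 0x7689054132 .nil) (.node 0 3 (.cons 0x4567890321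 .nil) (.node 4 8 (.cons 0x7632148905 .nil) (.node 1 5 (.cons 0x6789032154 .nil) (.node 4 6 (.cons 0x5467890321 .nil) (.leaf 0x2309876451 0 (.leaf 0x2309876451 1 .done)) .done) .done) .done) .done) (.node 0 6 .nil (.node 3 9 (.cons 0x6705418932 (.cons 0x7605418932 .nil)) (.leaf 0x4123987605 1 .done) (.node 0 3 (.cons 0x4567890321 .nil) (.node 0 4 .nil (.node 1 6 (.cons 0x7612389054 (.cons 0x7612389045 .nil)) .done .done) .done) .done)) .done)) (.node 4 8 (.cons 0x7632148905 .nil) (.node 0 4 .nil (.node 1 7 (.cons 0x7123650984 (.cons 0x9048712365 (.cons 0x8904321765 .nil))) .done (.node 0 6 .nil (.node 1 7 (.cons 0x7123650984 (.cons 0x9065487123 (.cons 0x7123489065 .nil))) .done .done) .done)) (.node 5 7 (.cons 0x2367509841 .nil) (.node 3 7 (.cons 0x3768905412 .nil) (.node 1 7 (.cons 0x5098417632 .nil) (.node 2 7 (.cons 0x8901276543 .nil) (.node 1 3 (.cons 0x5431276890 .nil) (.leaf 0x9867213450 2 .done) .done) .done) (.leaf 0x5098673214 1 .done)) (.leaf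 0x3675098412 2 (.leaf 0x9057632148 2 .done))) .done)) .done)) (.node 1 7 (.cons 0x8905417632 .nil) (.node 1 5 .nil (.node 2 8 (.cons 0x7632890541 (.cons 0x6709823451 (.cons 0x4328907651 .nil))) (.node 1 6 (.cons 0x7098234561 .nil) (.leaf 0x3289071654 2 (.leaf 0x2890716543 3 .done)) .done) (.node 6 8 (.cons 0x7689054123 .nil) (.node 2 8 (.cons 0x7632890541 .nil) (.node 1 6 (.cons 0x7098234561 .nil) (.leaf 0x2890716543 3 .done) (.node 2 5 (.cons 0x1452367890 .nil) (.leaf 0x6345289017 1 (.node 0 8 (.cons 0x9087632541 .nil) (.node 3 8 (.cons 0x7654389012 .nil) .done .done) .done)) .done)) (.node 3 7 (.cons 0x3768905412 .nil) (.node 1 3 .nil (.node 2 7 (.cons 0x8901276543 (.cons 0x5431276890 (.cons 0x4315689072 .nil))) .done (.node 2 7 (.cons 0x4315689072 .nil) (.node 1 6 (.cons 0x4516327890 .nil) (.node 1 9 .nil (.node 0 2 (.cons 0x7209863451 (.cons 0x4519027863 (.cons 0x7345689120 .nil))) (.leaf 0x1986732054 2 .done) .done) .done) (.node 2 4 (.cons 0x9863724150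 .nil) (.leaf 0x5689072431 1 (.leaf 0x5689072431 0 (.leaf 0x9015634278 0 .done))) .done)) .done)) (.leaf 0x5098673214 1 (.leaf 0x9054123768 0 .done))) .done)) .done)) (.node 0 4 (.cons 0x8904321765 .nil) (.node 0 6 .nil (.node 3 9 (.cons 0x9321876540 (.cons 0x9321876045 .nil)) (.leaf 0x4123987605 1 (.leaf 0x6781239045 0 .done)) (.node 6 8 (.cons 0x7689054123 .nil) (.node 4 8 (.cons 0x5671234890 .nil) (.node 5 8 (.cons 0x4321765890 .nil) (.node 2 5 (.cons 0x6714325890 .nil) (.leaf 0x4325890671 2 (.leaf 0x3671489052 3 (.leaf 0x8901452367 0 .done))) .done) (.leaf 0x7650984321 0 .done)) .done) .done)) (.node 4 8 (.cons 0x5671234890 .nil) (.leaf 0x7650984321 0 (.node 6 8 (.cons 0x7689054123 .nil) (.node 2 8 (.cons 0x7632890541 .nil) (.leaf 0x982367145 2 (.node 0 8 .nil (.node 2 5 (.cons 0x1452367890 (.cons 0x9805236714 (.cons 0x9087632541 .nil))) (.leaf 0x8901452367 0 .done) .done) .done)) .done) .done)) .done)) .done)) .done)))) .done)))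
noncomputable def tc9_4_10 : T := (.node 0 6 (.cons 0x7890654123 .nil) (.node 3 7 (.cons 0x6541237890 .nil) (.leaf 0x1237890654 2 (.node 0 4 .nil (.node 7 9 (.cons 0x5607981432 (.cons 0x5679812340 .nil)) (.node 5 9 (.cons 0x7065981432 (.cons 0x6732189540 .nil)) (.node 2 6 (.cons 0x8901267345 (.cons 0x6210459873 (.cons 0x8126043795 (.cons 0x6237045981 .nil)))) .done (.leaf 0x7321895406 2 .done)) .done) (.node 1 6 (.cons 0x5409876123 .nil) (.node 3 5 (.cons 0x6789045321 .nil) (.leaf 0x2167890453 3 (.leaf 0x453216789 0 (.leaf 0x4098761235 2 .done))) (.node 1 5 (.cons 0x6789045123 .nil) (.node 0 8 .nil (.node 7 9 (.cons 0x5607981432 (.cons 0x8097651234 (.cons 0x9765430812 .nil))) .done (.node 7 9 (.cons 0x5607981432 .nil) (.node 4 8 (.cons 0x8432156790 .nil) (.leaf 0x5679084321 3 (.leaf 0x1567908432 2 .done)) (.node 4 9 (.cons 0x9456781230 .nil) (.node 6 9 (.cons 0x7965430812 .nil) .done .done) .done)) .done)) .done) .done)) .done)) (.node 7 9 (.cons 0x5607981432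 .nil) (.node 6 8 (.cons 0x6879032145 .nil) (.leaf 0x321456879 0 (.node 2 5 (.cons 0x9768125430 .nil) (.node 2 7 (.cons 0x8901276543 .nil) (.node 5 7 (.cons 0x3412579860 .nil) (.leaf 0x4125798603 1 .done) .done) (.node 0 4 (.cons 0x9041256873 .nil) (.node 2 4 (.cons 0x8901243765 .nil) (.node 2 7 (.cons 0x8901276543 .nil) .done .done) .done) (.leaf 0x8970652341 3 (.leaf 0x1897065234 2 .done)))) .done)) (.node 0 4 .nil (.node 0 5 (.cons 0x6504379812 (.cons 0x9812376504 .nil)) .done (.node 4 9 (.cons 0x9456781230 .nil) (.node 6 9 (.cons 0x9654187032 .nil) (.node 1 6 (.cons 0x5409876123 .nil) (.node 3 5 (.cons 0x7698123540 .nil) (.leaf 0x2167890453 3 (.leaf 0x453216789 0 (.leaf 0x4098761235 2 .done))) .done) .done) .done) .done)) .done)) .done))) (.node 0 5 .nil (.node 3 7 (.cons 0x6541237890 (.cons 0x9812376054 (.cons 0x6509873214 .nil))) (.node 4 9 (.cons 0x9456781230 (.cons 0x8945067321 .nil)) (.leaf 0x5067321894 1 (.node 7 9 (.cons 0x8973214560 (.cons 0x6798123450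 (.cons 0x4321897650 .nil))) .done .done)) .done) (.node 0 4 .nil (.node 7 9 (.cons 0x8790321456 (.cons 0x5406798123 (.cons 0x5679812340 .nil))) (.node 3 7 (.cons 0x6541237890 (.cons 0x9812376045 (.cons 0x6504379812 .nil))) (.node 0 2 (.cons 0x5679812043 .nil) (.node 2 8 (.cons 0x3798214560 (.cons 0x6504379821 .nil)) (.leaf 0x5603798214 2 .done) .done) .done) .done) (.node 1 6 (.cons 0x5409876123 .nil) (.node 3 5 (.cons 0x6789045321 .nil) (.leaf 0x2167890453 3 (.leaf 0x4098761235 2 .done)) (.node 3 5 (.cons 0x6789045321 .nil) (.leaf 0x8761235409 0 (.node 5 8 (.cons 0x7098561432 .nil) (.node 5 9 (.cons 0x5981670432 .nil) (.node 1 5 (.cons 0x4098761532 .nil) (.node 2 5 (.cons 0x4076189523 .nil) (.leaf 0x761895234 1 .done) .done) .done) .done) .done)) .done)) .done)) .done)) .done)) (.node 1 6 (.cons 0x7890321654 .nil) (.node 0 6 (.cons 0x7890654123 .nil) (.node 1 5 .nil (.node 2 8 (.cons 0x6709823451 (.cons 0x4328907651 .nil)) (.leaf 0x982341567 0 (.node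 1 7 (.cons 0x6517098234 .nil) (.node 4 8 (.cons 0x9032165487 (.cons 0x7609843215 (.cons 0x5176098432 .nil))) (.node 3 7 (.cons 0x6541237890 (.cons 0x9065128437 (.cons 0x2156734890 .nil))) (.leaf 0x1237890654 2 .done) .done) .done) .done)) (.node 0 5 .nil (.node 1 7 (.cons 0x8905432176 (.cons 0x8905671234 .nil)) (.node 2 4 (.cons 0x9817032456 .nil) (.leaf 0x324561789 0 (.leaf 0x5617890324 3 (.node 3 9 (.cons 0x8765421093 (.cons 0x8761239054 (.cons 0x9324187056 (.cons 0x8714239065 .nil)))) .done (.leaf 0x3098716542 2 .done)))) .done) (.node 0 4 .nil (.node 3 5 (.cons 0x7890653214 .nil) (.leaf 0x2167890453 3 (.leaf 0x4098761235 2 .done)) (.node 3 5 (.cons 0x6789045321 .nil) (.leaf 0x2167890453 3 (.leaf 0x4098761235 2 .done)) .done)) .done)) .done)) (.node 0 5 .nil (.node 1 7 (.cons 0x8905432176 (.cons 0x8905671234 .nil)) (.node 2 4 (.cons 0x9817065423 .nil) (.leaf 0x324561789 0 (.leaf 0x5617890324 3 (.node 3 9 (.cons 0x7065418932 (.cons 0x8761239054 (.cons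 0x9324187056 .nil))) (.leaf 0x5607189324 0 .done) (.leaf 0x3098716542 2 .done)))) .done) (.node 0 4 .nil (.node 3 5 (.cons 0x6789045321 .nil) (.node 0 8 (.cons 0x9087612354 .nil) (.node 4 7 (.cons 0x9806532147 (.cons 0x9087412356 (.cons 0x9812354760 .nil))) (.leaf 0x5321478906 3 .done) .done) (.leaf 0x2167890453 3 (.leaf 0x4098761235 2 .done))) (.node 3 5 (.cons 0x6789045321 .nil) (.leaf 0x2167890453 3 (.leaf 0x4098761235 2 .done)) .done)) .done)) .done)) (.node 0 6 (.cons 0x7890654123 .nil) (.node 0 5 .nil (.node 7 9 (.cons 0x8790654123 (.cons 0x6798123450 (.cons 0x4321897650 .nil))) (.leaf 0x5432189760 0 .done) (.node 0 4 .nil (.node 2 5 (.cons 0x9870416523 (.cons 0x9816523407 .nil)) (.node 1 5 (.cons 0x6789045123 .nil) (.node 3 5 (.cons 0x9870416532 (.cons 0x7890416532 .nil)) .done .done) (.node 3 9 (.cons 0x8709325614 (.cons 0x9321876045 .nil)) (.leaf 0x6781239045 0 (.leaf 0x4165239870 1 .done)) .done)) (.node 1 5 (.cons 0x6789045123 .nil) (.node 3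 5 (.cons 0x6789045321 .nil) (.leaf 0x8761235409 0 (.node 0 2 (.cons 0x7890235614 .nil) (.node 0 8 .nil (.node 3 9 (.cons 0x9321876045 (.cons 0x6780932154 .nil)) (.leaf 0x8093214567 0 .done) .done) .done) .done)) .done) .done)) .done)) (.node 0 5 .nil (.node 7 9 (.cons 0x7981230654 (.cons 0x6798123450 (.cons 0x4321897650 .nil))) (.node 2 8 (.cons 0x7098234165 .nil) (.leaf 0x6507982341 1 (.node 5 7 (.cons 0x6128975034 .nil) (.leaf 0x3289057614 2 .done) (.leaf 0x561432897 0 .done))) .done) (.node 0 4 .nil (.node 5 7 (.cons 0x8907561432 (.cons 0x9875612304 .nil)) (.node 7 9 (.cons 0x7981230654 (.cons 0x5406798123 (.cons 0x5679812340 .nil))) .done .done) (.node 3 5 (.cons 0x6789045321 .nil) (.leaf 0x8761235409 0 (.node 1 5 (.cons 0x4098761532 .nil) (.node 2 4 (.cons 0x5324098761 .nil) (.node 0 2 (.cons 0x7890235614 .nil) (.node 0 8 (.cons 0x9804235167 .nil) .done .done) (.leaf 0x3516789042 3 .done)) .done) .done)) .done)) .done)) .done)) (.node 1 5 .nil (.node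 2 8 (.cons 0x6709823451 (.cons 0x4328907651 .nil)) (.leaf 0x982341567 0 (.node 1 7 (.cons 0x6517098234 .nil) (.leaf 0x2890716543 3 (.node 6 8 (.cons 0x5432176890 (.cons 0x7098651432 (.cons 0x2345176890 .nil))) (.node 5 8 (.cons 0x6712345890 .nil) (.node 3 8 (.cons 0x7654389012 (.cons 0x4516709832 .nil)) (.node 2 4 (.cons 0x7098324165 (.cons 0x9078324156 (.cons 0x8907615423 .nil))) (.node 1 9 (.cons 0x6519870324 .nil) .done .done) .done) .done) .done) .done)) .done)) (.node 0 5 .nil (.node 1 7 (.cons 0x8905432176 (.cons 0x8905671234 .nil)) (.node 7 9 (.cons 0x6798123450 (.cons 0x4321897650 .nil)) (.node 2 6 (.cons 0x7981265430 (.cons 0x8971265430 (.cons 0x3418970562 .nil))) (.node 2 8 (.cons 0x9703456281 (.cons 0x6543289071 (.cons 0x9705628143 .nil))) (.leaf 0x4309718265 2 .done) .done) .done) .done) (.node 0 6 (.cons 0x7890654123 .nil) (.node 0 4 .nil (.node 2 9 (.cons 0x1892345670 (.cons 0x7045618923 (.cons 0x5407618923 (.cons 0x5670432981 .nil)))) (.node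 3 7 (.cons 0x6541892370 (.cons 0x8921045673 (.cons 0x9812376504 .nil))) (.leaf 0x5407329816 1 (.node 3 8 (.cons 0x7654389012 (.cons 0x9238156704 .nil)) (.leaf 0x4012983765 2 .done) .done)) .done) (.node 0 8 .nil (.node 3 9 (.cons 0x5407618932 (.cons 0x6780932154 .nil)) (.leaf 0x8093214567 0 (.leaf 0x876541239 2 .done)) (.node 0 2 .nil (.node 3 6 (.cons 0x5409876321 (.cons 0x9870236541 (.cons 0x7890236541 .nil))) (.node 5 7 (.cons 0x4123657890 (.cons 0x9814365702 .nil)) (.leaf 0x2143657890 0 .done) .done) .done) .done)) .done)) (.node 0 8 .nil (.node 3 9 (.cons 0x6780932154 .nil) (.node 0 2 (.cons 0x9320781456 .nil) (.leaf 0x3981456702 1 .done) (.leaf 0x8093214567 0 (.leaf 0x876541239 2 .done))) (.node 3 5 (.cons 0x7890653214 .nil) (.node 4 7 (.cons 0x9874123560 .nil) (.leaf 0x3216547890 0 (.leaf 0x1235609874 2 (.node 4 9 (.cons 0x7894123560 .nil) (.leaf 0x674981235 1 (.leaf 0x8945321670 3 .done)) (.leaf 0x8906532147 3 .done)))) (.node 3 8 (.cons 0x7654389012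 .nil) (.node 3 9 (.cons 0x6780932154 .nil) (.node 1 3 .nil (.node 2 8 (.cons 0x8239076154 (.cons 0x7098231654 .nil)) .done .done) .done) .done) .done)) .done)) .done)) .done)) .done)) .done))) (.node 1 5 (.cons 0x6789032154 .nil) (.node 0 4 .nil (.node 6 9 (.cons 0x8769032154 (.cons 0x7698123045 (.cons 0x9678154032 .nil))) (.node 2 5 (.cons 0x3256987041 (.cons 0x7043256981 (.cons 0x7041896523 .nil))) (.leaf 0x6704325189 2 .done) (.node 2 5 (.cons 0x7698125430 (.cons 0x7698125403 .nil)) (.node 1 3 (.cons 0x6987031452 (.cons 0x3140789652 .nil)) .done (.node 1 7 (.cons 0x6981703452 (.cons 0x3407189652 .nil)) (.leaf 0x4071896523 0 .done) .done)) .done)) (.node 0 6 (.cons 0x7890654123 .nil) (.node 1 6 .nil (.node 2 5 (.cons 0x9814325607 (.cons 0x9870325416 (.cons 0x9816703254 .nil))) (.node 4 9 (.cons 0x7065234981 (.cons 0x7061894325 (.cons 0x8761549032 .nil))) (.leaf 0x8167032549 0 .done) .done) (.node 3 9 (.cons 0x9321876540 .nil) (.node 6 9 (.cons 0x7812396540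 .nil) (.node 6 8 (.cons 0x7865409321 .nil) (.node 4 6 (.cons 0x5467890321 .nil) (.node 2 4 (.cons 0x9678154230 .nil) (.node 0 5 (.cons 0x9876450321 .nil) (.node 2 5 (.cons 0x7689034521 .nil) (.leaf 0x1039876452 2 (.leaf 0x125467893 0 .done)) (.leaf 0x4239816705 0 .done)) .done) .done) .done) (.leaf 0x5407812396 2 .done)) (.leaf 0x6781239045 0 (.node 6 9 (.cons 0x8769032154 .nil) (.node 4 9 (.cons 0x5498167032 .nil) (.node 1 9 (.cons 0x2391876540 .nil) (.node 7 9 (.cons 0x5607981432 .nil) .done .done) .done) .done) .done))) .done)) (.node 1 6 .nil (.node 2 8 (.cons 0x7098234561 (.cons 0x5432890761 (.cons 0x7098234165 .nil))) (.node 5 7 (.cons 0x9812306754 (.cons 0x9821034576 (.cons 0x6754309821 .nil))) .done .done) (.node 1 3 .nil (.node 0 2 (.cons 0x9870231456 .nil) (.leaf 0x9876541320 2 (.node 1 7 (.cons 0x9817023456 .nil) (.node 0 5 (.cons 0x8905432176 .nil) .done .done) (.leaf 0x8902314567 0 .done))) .done) .done)) .done)) .done)) (.node 0 4 .nil (.node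 6 9 (.cons 0x4518967032 (.cons 0x7698123045 (.cons 0x7698154032 .nil))) (.node 5 7 (.cons 0x2341896570 (.cons 0x8967512304 (.cons 0x8756904123 .nil))) (.leaf 0x8123045769 0 .done) (.node 2 5 (.cons 0x7698125430 (.cons 0x9678125403 .nil)) (.node 3 7 (.cons 0x6541237890 (.cons 0x8967304512 (.cons 0x3789652140 .nil))) (.leaf 0x4037698125 2 .done) (.node 1 7 (.cons 0x6981703452 (.cons 0x3407189652 .nil)) (.leaf 0x432569817 2 (.leaf 0x4071896523 0 .done)) .done)) .done)) (.node 0 5 .nil (.node 4 6 (.cons 0x5467890321 (.cons 0x9876450321 .nil)) (.node 2 9 (.cons 0x7645189230 (.cons 0x6705432981 (.cons 0x7645032981 .nil))) (.node 1 6 (.cons 0x9230546187 (.cons 0x7056189234 .nil)) (.leaf 0x4329816705 0 .done) (.leaf 0x6701892345 0 .done)) (.node 3 7 (.cons 0x6541237890 (.cons 0x3789056412 .nil)) (.leaf 0x5641237890 3 (.leaf 0x564123789 2 .done)) .done)) (.node 0 6 (.cons 0x7890654123 .nil) (.node 0 8 .nil (.node 3 7 (.cons 0x6541237890 (.cons 0x9087321456 .nil))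 (.leaf 0x1237890654 2 (.node 2 4 (.cons 0x8901243765 (.cons 0x9801243765 .nil)) (.node 5 9 (.cons 0x7065981432 (.cons 0x9518042376 (.cons 0x9567340812 .nil))) .done .done) .done)) .done) (.node 3 9 (.cons 0x9321876540 .nil) (.node 1 9 (.cons 0x6540781932 .nil) (.node 2 9 (.cons 0x1892345670 .nil) (.leaf 0x6701892345 0 (.node 2 6 (.cons 0x9326540781 .nil) (.node 2 4 (.cons 0x7065423981 .nil) (.node 2 7 (.cons 0x8934562701 .nil) (.leaf 0x5607239814 1 (.leaf 0x3981072654 0 .done)) .done) (.leaf 0x7819326540 0 (.node 0 2 .nil (.node 5 9 (.cons 0x7603218954 (.cons 0x6781954023 (.cons 0x7026598143 .nil))) .done .done) .done))) .done)) (.node 3 8 (.cons 0x9045678321 .nil) (.node 0 8 .nil (.node 2 5 (.cons 0x6523918704 (.cons 0x4325670891 (.cons 0x9180765234 .nil))) .done .done) (.leaf 0x7654091238 2 .done)) .done)) (.leaf 0x6781239045 0 (.node 5 9 (.cons 0x7603218954 .nil) (.node 6 9 (.cons 0x3045967812 .nil) (.node 1 9 (.cons 0x2391876540 .nil) (.node 4 9 (.cons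 0x7603218945 .nil) .done .done) .done) .done) .done))) .done)) .done)) .done)) .done)) (.leaf 0x8903214567 0 .done))))
noncomputable def tc9_4_11 : T := (.node 3 6 (.cons 0x9236541870 .nil) (.node 2 8 (.cons 0x9287014563 .nil) (.node 2 4 (.cons 0x3654298701 .nil) (.node 1 7 (.cons 0x6543298170 .nil) (.node 4 7 (.cons 0x3654789210 .nil) (.node 7 9 (.cons 0x5436798210 .nil) (.node 2 7 (.cons 0x8901276543 .nil) (.node 3 7 (.cons 0x4563789210 .nil) .done .done) .done) .done) (.node 1 6 (.cons 0x5432890761 .nil) (.node 2 7 (.cons 0x8901276543 .nil) (.node 3 7 (.cons 0x4563789210 .nil) (.node 1 3 (.cons 0x4563107892 .nil) (.node 1 5 (.cons 0x6709823451 .nil) .done .done) .done) .done) .done) .done)) .done) (.node 0 4 (.cons 0x7892104563 .nil) (.node 3 7 (.cons 0x4563789210 .nil) (.leaf 0x6540129873 2 (.node 1 7 (.cons 0x9871236540 .nil) (.node 1 6 (.cons 0x7890456123 .nil) (.node 2 6 (.cons 0x7018926543 .nil) (.leaf 0x1073456298 2 .done) .done) .done) (.leaf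 0x8736540129 3 .done))) (.node 0 8 (.cons 0x9087654123 .nil) (.node 2 4 (.cons 0x3654298701 .nil) (.node 4 7 (.cons 0x3654789210 .nil) (.node 1 6 (.cons 0x5407892361 .nil) (.node 5 7 (.cons 0x4329816570 .nil) (.leaf 0x3298165704 1 (.leaf 0x3298165704 0 .done)) (.node 0 3 (.cons 0x1298745630 .nil) (.leaf 0x1654703298 1 (.node 1 5 (.cons 0x4789215630 .nil) (.leaf 0x8740365129 2 .done) .done)) .done)) .done) .done) .done) .done)) .done)) (.leaf 0x2907814563 3 (.node 2 4 (.cons 0x7018924365 .nil) (.node 5 7 (.cons 0x8924365701 .nil) (.node 1 6 .nil (.node 0 4 (.cons 0x4012987563 (.cons 0x7890456123 (.cons 0x5409876123 .nil))) .done (.node 0 6 (.cons 0x7065432981 .nil) (.node 2 6 (.cons 0x7018926543 .nil) .done .done) .done)) (.leaf 0x3657018924 0 (.leaf 0x6342981075 2 .done))) (.node 5 7 (.cons 0x4365701892 .nil) (.leaf 0x9243657018 3 (.node 2 8 (.cons 0x9281075634 .nil) (.node 2 7 (.cons 0x8901276543 .nil) (.node 2 5 (.cons 0x7018925634 .nil) (.node 4 7 (.cons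 0x5634701892 .nil) (.leaf 0x8925634701 2 .done) .done) .done) .done) (.leaf 0x8924365701 2 .done))) .done)) (.leaf 0x4563290781 0 .done)))) (.node 1 6 (.cons 0x5432981670 .nil) (.node 1 7 .nil (.node 2 8 (.cons 0x6543289071 .nil) (.node 1 3 (.cons 0x9078231456 .nil) (.leaf 0x7098231456 0 .done) (.leaf 0x6710982345 0 .done)) (.node 6 8 (.cons 0x5432176890 .nil) (.node 0 5 (.cons 0x2345098671 .nil) (.leaf 0x4321768905 2 (.leaf 0x3450986712 0 (.node 1 3 (.cons 0x4509867132 .nil) (.node 1 5 (.cons 0x2345176890 .nil) .done .done) .done))) (.node 1 3 .nil (.node 2 5 (.cons 0x3452176890 (.cons 0x1345298670 (.cons 0x9254318670 (.cons 0x6890713452 (.cons 0x8670925413 .nil))))) .done (.node 1 9 .nil (.node 2 8 (.cons 0x9078231456 (.cons 0x6541907823 (.cons 0x8234190765 .nil))) .done (.node 1 5 .nil (.node 2 8 (.cons 0x9078231456 (.cons 0x4328907651 .nil)) (.node 3 6 (.cons 0x9078236541 (.cons 0x7092863451 .nil)) (.leaf 0x5436829071 0 (.leaf 0x4563287091 0 .done))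 .done) .done) .done)) .done)) .done)) .done)) (.node 0 4 (.cons 0x5407618923 .nil) (.node 3 7 (.cons 0x6540987321 .nil) (.leaf 0x4561237890 0 (.leaf 0x456189237 0 (.node 1 7 (.cons 0x6540987123 .nil) (.node 1 5 .nil (.node 6 8 (.cons 0x5437689012 (.cons 0x8670923415 (.cons 0x7156890432 (.cons 0x2154376890 .nil)))) .done (.node 1 3 .nil (.node 1 9 (.cons 0x6540789132 .nil) .done .done) .done)) .done) (.node 2 4 (.cons 0x8901243765 .nil) (.node 1 5 (.cons 0x6512378904 .nil) (.node 5 8 (.cons 0x9856734210 .nil) (.node 1 3 (.cons 0x6785413290 .nil) (.node 1 7 (.cons 0x9856173240 .nil) .done .done) (.leaf 0x3765890124 1 .done)) .done) .done) .done)))) (.node 1 5 (.cons 0x6789045123 .nil) (.node 0 8 (.cons 0x9087654123 .nil) (.node 2 8 .nil (.node 3 6 (.cons 0x5409876321 (.cons 0x9823615407 (.cons 0x9281076345 (.cons 0x9078236514 (.cons 0x5410928763 .nil))))) .done (.node 6 9 (.cons 0x7809654123 .nil) (.leaf 0x1569078234 0 (.leaf 0x5143287096 2 (.node 1 9 (.cons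 0x8234190765 .nil) (.node 7 9 .nil (.node 0 6 (.cons 0x9706518234 .nil) (.leaf 0x5143287906 2 (.leaf 0x1560978234 0 .done)) .done) .done) .done))) .done)) (.node 2 8 .nil (.node 3 6 (.cons 0x5409876321 (.cons 0x9823615407 (.cons 0x9281076345 (.cons 0x9078236514 (.cons 0x5410928763 .nil))))) .done (.node 1 9 (.cons 0x6541907823 .nil) (.node 1 3 (.cons 0x7098231654 .nil) (.node 1 7 (.cons 0x6543289071 .nil) .done .done) .done) .done)) .done)) .done) .done)) .done)) (.leaf 0x6701892345 0 (.node 3 8 (.cons 0x9238145670 .nil) (.node 1 7 (.cons 0x8329071456 .nil) (.node 1 3 .nil (.node 0 8 (.cons 0x9087654123 .nil) (.leaf 0x4132908765 1 (.leaf 0x3145678092 0 .done)) (.node 1 9 (.cons 0x6541907832 .nil) (.node 1 6 .nil (.node 2 8 (.cons 0x6541907823 (.cons 0x5432890761 .nil)) (.leaf 0x982345617 2 .done) (.node 1 5 .nil (.node 2 8 (.cons 0x6541907823 (.cons 0x6709823451 (.cons 0x4328907651 .nil))) .done .done) .done)) .done) .done)) (.node 1 3 .nil (.node 0 8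 (.cons 0x9087654123 .nil) (.leaf 0x4132908765 1 (.leaf 0x3145678092 0 .done)) (.node 1 9 (.cons 0x6541907832 .nil) (.node 1 6 .nil (.node 0 4 (.cons 0x8904321765 (.cons 0x7890456123 (.cons 0x5409876123 .nil))) .done (.node 1 5 .nil (.node 2 8 (.cons 0x6541907823 (.cons 0x6709823451 (.cons 0x4328907651 .nil))) .done .done) .done)) .done) .done)) .done)) (.node 0 8 (.cons 0x9087654123 .nil) (.node 0 3 (.cons 0x4567890321 .nil) (.node 0 5 (.cons 0x9238145076 .nil) (.node 0 6 (.cons 0x9067832145 .nil) (.node 5 9 (.cons 0x6783214590 .nil) (.node 1 5 .nil (.node 1 6 (.cons 0x4516709832 .nil) .done .done) (.leaf 0x7832145906 1 (.leaf 0x7832145906 0 .done))) .done) .done) (.node 3 7 (.cons 0x9087321456 .nil) (.node 6 9 (.cons 0x5418329670 .nil) (.leaf 0x1237809654 2 (.leaf 0x4569237081 0 (.leaf 0x5418073296 2 .done))) (.node 6 9 (.cons 0x5418329670 .nil) (.leaf 0x873214569 2 (.leaf 0x8096541237 0 (.node 1 3 (.cons 0x4569087312 .nil) (.node 6 8 (.cons 0x9078654132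 .nil) (.leaf 0x1329078654 2 (.node 4 8 (.cons 0x2965481370 .nil) (.node 5 8 (.cons 0x4856730921 .nil) .done .done) .done)) .done) .done))) .done)) .done)) (.node 5 9 (.cons 0x6783214590 .nil) (.node 1 6 (.cons 0x6145907832 .nil) (.node 2 8 (.cons 0x4165907823 .nil) (.leaf 0x1659078234 0 .done) (.node 1 5 (.cons 0x4516709832 .nil) .done .done)) (.leaf 0x1807659234 2 (.node 2 8 (.cons 0x7659082143 .nil) (.node 5 8 (.cons 0x6709238541 .nil) (.node 1 3 (.cons 0x7658092314 .nil) (.node 0 3 (.cons 0x4567890321 .nil) (.node 4 8 (.cons 0x9230765481 .nil) (.node 6 8 (.cons 0x9078654132 .nil) .done .done) .done) (.node 4 8 (.cons 0x7658413290 .nil) (.leaf 0x9231485670 3 .done) .done)) .done) .done) .done))) .done)) (.leaf 0x6709238145 0 (.node 2 8 (.cons 0x7654109283 .nil) (.node 5 8 .nil (.node 1 6 (.cons 0x7098234561 .nil) (.leaf 0x9854321670 0 (.leaf 0x9854321670 1 .done)) (.node 6 8 .nil (.node 1 7 (.cons 0x6543289071 (.cons 0x5417683290 (.cons 0x9071432865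 .nil))) .done (.node 0 8 (.cons 0x9087654123 .nil) (.node 4 8 .nil (.node 1 7 (.cons 0x6543289071 (.cons 0x5671483290 .nil)) (.leaf 0x4832901765 2 .done) .done) .done) .done)) .done)) (.node 0 8 (.cons 0x9087654123 .nil) (.node 5 8 .nil (.node 1 6 (.cons 0x5432890761 (.cons 0x9076143285 (.cons 0x9076145823 .nil))) .done (.node 4 8 .nil (.node 0 3 (.cons 0x4567890321 (.cons 0x9230765481 (.cons 0x7658412903 .nil))) (.node 1 7 (.cons 0x6714583092 (.cons 0x5671483290 .nil)) (.leaf 0x4832901765 2 .done) .done) .done) .done)) (.node 0 2 (.cons 0x9023876541 .nil) (.node 1 9 (.cons 0x2387654190 .nil) (.leaf 0x3876541902 0 (.leaf 0x3876541902 1 (.node 1 6 (.cons 0x5432890761 .nil) (.node 0 6 .nil (.node 1 5 (.cons 0x6709823451 .nil) (.node 2 7 (.cons 0x2765438901 (.cons 0x8915607234 (.cons 0x9815607234 .nil))) .done .done) .done) .done) .done))) (.node 1 7 (.cons 0x9023871456 .nil) (.node 6 8 (.cons 0x5417683290 .nil) (.node 5 8 (.cons 0x6714583290 .nil) (.node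 4 8 .nil (.node 0 6 (.cons 0x8329067145 (.cons 0x5483290671 (.cons 0x5489067123 .nil))) .done .done) .done) .done) (.node 1 6 (.cons 0x5432890761 .nil) (.node 7 9 (.cons 0x6543207981 .nil) (.leaf 0x2079816543 0 (.leaf 0x8970234561 3 .done)) .done) .done)) .done)) .done)) (.node 1 5 (.cons 0x4328907651 .nil) (.node 6 9 (.cons 0x4156907823 .nil) (.leaf 0x1569078234 0 (.leaf 0x5143287096 2 (.node 6 8 .nil (.node 3 9 (.cons 0x8765412390 (.cons 0x7865412390 (.cons 0x4156870932 .nil))) (.node 2 7 (.cons 0x7283415690 (.cons 0x5439867210 (.cons 0x8672109345 (.cons 0x6890723451 .nil)))) .done .done) .done) .done))) (.node 1 6 .nil (.node 5 8 (.cons 0x9076582341 .nil) (.leaf 0x3458907612 0 (.leaf 0x9854321670 3 .done)) (.node 1 7 .nil (.node 5 9 (.cons 0x7659014382 (.cons 0x8234170956 (.cons 0x8234176590 (.cons 0x2834176590 .nil)))) .done (.node 1 9 (.cons 0x2387654190 .nil) (.node 1 3 .nil (.node 2 6 (.cons 0x7832654190 (.cons 0x4562319870 (.cons 0x8709132654 .nil)))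 .done .done) .done) .done)) .done)) .done)) .done))) .done)))) .done))))
noncomputable def uc9_4_3 : T := (.node 2 9 (.cons 0x1892345670 .nil) tc9_4_11 (.node 0 3 (.cons 0x4567890321 .nil) tc9_4_10 (.node 0 5 (.cons 0x6789054123 .nil) tc9_4_9 .done)))
theorem sub_c9_4_3 : root 9 refs9_4 [] 0x700000008703000008003060000020060500000000504000000004030000000030100000000102008000002018020000010 0xfe7ffe77ffb3ff9fffcfffe7fff5fff9fef9fef9 9 1 4 (.cons 0x3214567890 .nil) uc9_4_3 = true := by decide +kernel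
noncomputable def tc9_4_12 : T := (.node 3 9 (.cons 0x7654398210 .nil) (.node 3 8 (.cons 0x7654389012 .nil) (.node 0 3 (.cons 0x2897654301 .nil) (.node 1 3 (.cons 0x2897654310 .nil) (.node 3 7 .nil (.node 2 4 (.cons 0x6542879301 (.cons 0x8739012456 (.cons 0x6542109873 .nil))) .done .done) .done) (.node 0 8 .nil (.node 1 9 (.cons 0x7654301982 .nil) (.leaf 0x4328019765 3 (.leaf 0x8912345670 3 .done)) (.node 3 5 (.cons 0x9821076534 .nil) (.node 1 3 (.cons 0x2897654310 .nil) (.node 3 7 .nil (.node 0 6 (.cons 0x4560139782 (.cons 0x9378210654 (.cons 0x7398210654 .nil))) .done .done) .done) (.node 4 9 (.cons 0x6783549012 .nil) (.node 0 4 (.cons 0x9765340182 .nil) (.node 1 9 (.cons 0x5679182340 .nil) (.leaf 0x4091238765 0 .done) .done) (.leaf 0x6701289435 0 .done)) .done)) .done)) .done)) (.node 3 5 (.cons 0x9821076534 .nil) (.node 3 7 .nil (.node 2 4 (.cons 0x2435679810 (.cons 0x8739012456 (.cons 0x6542109873 .nil))) .done (.node 0 3 (.cons 0x2897654301 .nil)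 (.node 1 3 (.cons 0x2897654310 .nil) .done .done) .done)) (.node 2 4 (.cons 0x9765342810 .nil) (.leaf 0x6790182435 2 (.node 3 7 (.cons 0x6542109873 .nil) (.node 3 6 (.cons 0x9873654210 .nil) (.leaf 0x2109873654 2 .done) .done) .done)) .done)) .done)) (.leaf 0x1289345670 1 (.node 2 4 .nil (.node 3 5 (.cons 0x9821076534 (.cons 0x2435679810 (.cons 0x9765342810 (.cons 0x6534289701 (.cons 0x9824356701 .nil))))) .done (.node 3 5 (.cons 0x9765342810 .nil) (.node 0 2 (.cons 0x3456798201 .nil) (.node 4 6 (.cons 0x8793564201 .nil) (.leaf 0x2018793564 2 (.leaf 0x246539781 0 (.leaf 0x5642018793 3 .done))) (.node 2 5 (.cons 0x8109765243 .nil) (.node 2 9 (.cons 0x8921076534 .nil) .done .done) .done)) (.leaf 0x6790182435 2 (.node 2 5 (.cons 0x8109765243 .nil) (.node 0 2 (.cons 0x3456798201 .nil) (.node 2 9 .nil (.node 3 8 (.cons 0x7654389012 (.cons 0x3876542901 .nil)) (.leaf 0x1298345670 1 .done) .done) .done) .done) (.leaf 0x4356790182 3 .done)))) (.node 3 7 (.cons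 0x6542109873 .nil) (.node 3 6 (.cons 0x9873654210 .nil) (.node 5 7 (.cons 0x9756342810 .nil) (.node 1 7 .nil (.node 0 3 (.cons 0x2897654301 (.cons 0x6543017982 (.cons 0x6542309871 .nil))) (.leaf 0x1765430982 2 .done) .done) (.leaf 0x4365790182 1 .done)) (.node 5 8 (.cons 0x2763458901 .nil) (.leaf 0x985436721 0 (.node 2 9 (.cons 0x6589243701 .nil) (.node 0 2 (.cons 0x9873654201 .nil) (.node 1 4 (.cons 0x3214567890 .nil) (.leaf 0x9241073658 2 (.leaf 0x7014298563 2 (.leaf 0x3209765814 1 .done))) .done) .done) (.leaf 0x4589012763 3 .done))) .done)) (.node 1 7 .nil (.node 0 3 (.cons 0x2897654301 (.cons 0x6543017982 (.cons 0x6542309871 .nil))) (.leaf 0x1765430982 2 .done) (.node 4 7 (.cons 0x5674398210 .nil) (.node 5 7 .nil (.node 3 6 (.cons 0x5634289701 (.cons 0x2436579810 (.cons 0x9824365701 .nil))) .done .done) .done) .done)) .done)) .done))) .done))) (.node 2 4 .nil (.node 3 5 (.cons 0x9821076534 (.cons 0x8124356790 (.cons 0x9824356701 .nil))) (.leaf 0x2435670981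 0 (.leaf 0x4218907653 2 .done)) (.node 4 7 (.cons 0x5674321890 .nil) (.node 1 4 (.cons 0x3214567890 .nil) (.node 3 7 (.cons 0x6541237890 .nil) (.node 1 7 .nil (.node 0 3 (.cons 0x1289765430 (.cons 0x6541789032 .nil)) (.node 5 8 (.cons 0x3421856790 (.cons 0x6589071234 (.cons 0x6589071432 .nil))) (.leaf 0x4218567903 1 .done) (.leaf 0x1765430982 2 .done)) .done) (.node 5 9 (.cons 0x9567342810 .nil) (.leaf 0x3428109567 2 (.node 0 6 (.cons 0x2374189560 .nil) (.node 2 5 (.cons 0x9734182560 .nil) (.leaf 0x3790652814 0 .done) (.leaf 0x4560987321 2 (.node 0 2 (.cons 0x6598147320 .nil) (.node 1 5 (.cons 0x8906723451 .nil) (.leaf 0x651897432 0 (.leaf 0x6023479815 2 .done)) (.leaf 0x4189560237 1 .done)) .done))) (.leaf 0x4376590182 3 .done))) .done)) (.node 4 9 (.cons 0x5670128943 .nil) (.node 1 9 .nil (.node 5 8 (.cons 0x3421856790 (.cons 0x6589123470 (.cons 0x9107658243 (.cons 0x8567091243 .nil)))) .done (.node 5 9 .nil (.node 0 8 (.cons 0x5679081243 (.cons 0x6598074321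 (.cons 0x3247659180 .nil))) (.leaf 0x4765980123 2 .done) (.node 3 7 (.cons 0x9567342810 .nil) (.leaf 0x6590182437 2 (.leaf 0x4376590182 3 .done)) .done)) .done)) (.node 0 4 .nil (.node 3 5 (.cons 0x1876532490 (.cons 0x2189765340 (.cons 0x6534079821 (.cons 0x9042356781 .nil)))) (.leaf 0x765349821 1 .done) (.node 1 7 (.cons 0x6540987123 .nil) (.node 3 7 (.cons 0x6540987321 .nil) (.node 5 7 .nil (.node 1 6 (.cons 0x2378904561 (.cons 0x3289407561 .nil)) (.leaf 0x3756189042 1 .done) .done) .done) .done) .done)) .done)) .done)) (.node 0 5 (.cons 0x2347650981 .nil) (.node 1 9 (.cons 0x9182347650 .nil) (.leaf 0x3476509182 0 (.leaf 0x7432819056 1 (.node 5 7 .nil (.node 3 8 (.cons 0x5674238190 (.cons 0x6574238190 (.cons 0x6754389012 .nil))) (.leaf 0x1905674238 0 .done) (.node 1 5 (.cons 0x2347651890 .nil) (.node 3 5 (.cons 0x8124356790 .nil) (.node 5 9 (.cons 0x8109534276 .nil) .done .done) .done) .done)) .done))) (.leaf 0x9812347650 2 (.leaf 0x8905674321 0 (.node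 5 8 (.cons 0x3421856790 .nil) (.node 0 8 (.cons 0x5679081243 .nil) (.node 3 8 (.cons 0x7654389012 .nil) (.node 2 5 (.cons 0x1834256790 .nil) (.node 5 9 (.cons 0x7659018342 .nil) .done .done) .done) .done) (.node 3 6 (.cons 0x1276345890 .nil) (.node 1 9 (.cons 0x3428197650 .nil) (.node 1 4 (.cons 0x6327891450 .nil) (.leaf 0x5078914236 1 (.leaf 0x7056324198 0 .done)) (.leaf 0x543672891 1 (.node 5 9 (.cons 0x8954367210 .nil) (.node 6 8 (.cons 0x1863427950 .nil) (.leaf 0x3427950186 1 .done) .done) .done))) (.leaf 0x2763458901 0 (.leaf 0x7210985436 2 (.leaf 0x4589012763 3 .done)))) .done)) .done)))) .done)) (.node 4 9 (.cons 0x5670128943 .nil) (.node 4 8 (.cons 0x5670984321 .nil) (.node 5 8 (.cons 0x6721098543 .nil) (.node 3 8 (.cons 0x7654389012 .nil) (.node 0 8 .nil (.node 1 9 (.cons 0x7654321980 .nil) (.leaf 0x2345670891 2 (.leaf 0x3219807654 0 (.leaf 0x8912345670 3 .done))) .done) .done) (.node 3 6 (.cons 0x1276345890 .nil) (.node 2 5 (.cons 0x3678945210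 .nil) (.node 6 8 (.cons 0x3490768521 .nil) .done (.leaf 0x7634985210 0 .done)) (.leaf 0x2763458901 0 (.leaf 0x7210985436 2 (.leaf 0x4589012763 3 .done)))) .done)) (.node 6 8 .nil (.node 1 5 (.cons 0x3489076512 (.cons 0x5123498670 (.cons 0x8670943215 (.cons 0x7098651234 .nil)))) (.node 3 7 (.cons 0x6512489073 (.cons 0x8673215490 (.cons 0x4237098651 .nil))) (.leaf 0x8651243709 2 .done) .done) (.node 5 8 (.cons 0x6721098543 .nil) (.node 3 8 (.cons 0x7654389012 .nil) (.node 0 8 .nil (.node 1 9 (.cons 0x7654321980 .nil) (.leaf 0x2345670891 2 (.leaf 0x3219807654 0 (.leaf 0x8912345670 3 .done))) .done) .done) .done) .done)) .done)) (.node 2 5 (.cons 0x3498256701 .nil) (.node 3 7 (.cons 0x9437652810 .nil) (.node 1 7 (.cons 0x8176523490 .nil) (.node 4 7 (.cons 0x5674321890 .nil) .done .done) (.leaf 0x4901825673 3 (.leaf 0x6528109437 2 .done))) (.node 5 9 .nil (.node 4 7 (.cons 0x5674321890 (.cons 0x8123476590 .nil)) (.node 1 4 (.cons 0x3214567890 .nil) (.node 0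 2 (.cons 0x5678149023 .nil) (.leaf 0x9567814320 1 .done) (.leaf 0x8956701432 0 .done)) .done) (.node 3 9 (.cons 0x7654398210 .nil) (.leaf 0x1289345670 1 (.node 2 9 .nil (.node 0 5 (.cons 0x7650981234 (.cons 0x7650182943 .nil)) (.node 3 5 (.cons 0x2894356701 (.cons 0x6729810534 (.cons 0x7653492810 .nil))) .done .done) .done) .done)) .done)) .done)) .done)) .done))) .done))
noncomputable def tc9_4_13 : T := (.node 1 7 (.cons 0x1765432890 .nil) (.node 7 9 (.cons 0x3456798210 .nil) (.node 2 4 (.cons 0x5679018243 .nil) (.node 3 5 (.cons 0x2435679810 (.cons 0x9821076534 (.cons 0x9765342810 (.cons 0x6534289701 (.cons 0x9824356701 .nil))))) .done (.node 3 6 (.cons 0x7890124563 (.cons 0x5634289701 (.cons 0x3654287901 (.cons 0x5436728901 .nil)))) (.node 5 8 (.cons 0x2436589710 (.cons 0x6589071234 (.cons 0x7109856342 (.cons 0x7124365890 .nil)))) .done .done) .done)) (.node 1 3 (.cons 0x8213456790 .nil) (.node 0 6 (.cons 0x9827601345 .nil) (.leaf 0x3128970654 0 (.leaf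 0x3128970654 1 (.node 0 5 (.cons 0x7650981234 (.cons 0x6507982134 .nil)) (.leaf 0x1289760543 0 (.node 4 9 (.cons 0x8945067231 (.cons 0x7605498231 (.cons 0x5670134982 .nil))) (.leaf 0x3276054981 0 .done) .done)) .done))) (.node 0 6 (.cons 0x4560978213 (.cons 0x4560987132 .nil)) (.leaf 0x3128970654 0 (.node 4 7 (.cons 0x3128974560 (.cons 0x7456098231 .nil)) (.node 1 9 (.cons 0x6547823190 .nil) (.leaf 0x3287456091 0 (.node 5 8 (.cons 0x6589071234 (.cons 0x6582319074 (.cons 0x9074312856 .nil))) (.leaf 0x2134790658 0 .done) .done)) .done) .done)) (.leaf 0x9821345670 1 .done))) .done)) (.node 1 3 (.cons 0x7654310982 .nil) (.node 6 8 (.cons 0x5431098672 (.cons 0x5431276890 .nil)) (.node 5 8 (.cons 0x6721345890 .nil) (.node 4 6 (.cons 0x9856432170 (.cons 0x7098564312 .nil)) (.leaf 0x2346589071 2 (.leaf 0x8564321709 2 .done)) (.node 2 4 (.cons 0x9856701342 .nil) (.node 1 9 (.cons 0x6587091324 (.cons 0x6785423190 (.cons 0x8567091324 .nil))) .done (.leaf 0x9876542310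 2 .done)) .done)) .done) (.node 1 4 (.cons 0x3214567890 .nil) (.node 3 7 (.cons 0x6541237890 .nil) (.node 2 4 (.cons 0x9018243765 .nil) (.leaf 0x7654289013 1 .done) .done) (.node 4 9 (.cons 0x1328765490 (.cons 0x3128765490 .nil)) (.node 5 8 (.cons 0x1234985670 (.cons 0x6589432170 (.cons 0x9013458276 (.cons 0x8567094312 .nil)))) .done (.node 3 6 (.cons 0x5412367890 (.cons 0x7012894365 (.cons 0x5436728901 .nil))) (.node 5 7 (.cons 0x4901287563 (.cons 0x2894365710 (.cons 0x5763412890 .nil))) (.leaf 0x4982107563 0 .done) .done) .done)) .done)) (.node 3 9 (.cons 0x2893456710 .nil) (.node 2 4 (.cons 0x3987654210 (.cons 0x8765421093 .nil)) (.node 6 8 (.cons 0x5439867210 (.cons 0x5689342170 .nil)) (.node 1 5 (.cons 0x1543276890 (.cons 0x4239078651 (.cons 0x4239865170 .nil))) .done .done) .done) (.leaf 0x1289345670 1 (.node 4 7 (.cons 0x5674321890 (.cons 0x8210934765 .nil)) (.node 3 6 (.cons 0x8901276345 (.cons 0x9013654782 (.cons 0x5436728901 .nil))) (.leaf 0x8901365472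 3 .done) (.node 1 5 (.cons 0x8907651234 (.cons 0x8215674390 .nil)) (.node 0 3 (.cons 0x4567890321 (.cons 0x9031287456 (.cons 0x6745128903 .nil))) (.node 1 6 (.cons 0x8903276154 (.cons 0x9031654782 .nil)) .done .done) .done) .done)) .done))) (.leaf 0x9821345670 1 .done)))) (.node 0 8 (.cons 0x9082345671 .nil) (.node 7 9 (.cons 0x8097123456 (.cons 0x6543280971 .nil)) (.node 1 3 (.cons 0x8213456790 .nil) (.leaf 0x4567908213 2 (.leaf 0x5431280976 0 (.node 6 8 (.cons 0x2865431790 .nil) (.leaf 0x5432179086 2 (.node 0 5 (.cons 0x3450986721 (.cons 0x9056718234 .nil)) (.node 4 9 (.cons 0x6549087123 (.cons 0x5682170943 (.cons 0x5671823490 .nil))) (.leaf 0x8234905671 1 .done) (.leaf 0x9867213450 2 .done)) .done)) (.leaf 0x9821345670 1 .done)))) .done) (.node 5 9 (.cons 0x8095432176 (.cons 0x4328176590 (.cons 0x6712809543 .nil))) (.node 4 6 (.cons 0x6459087123 (.cons 0x7012895643 (.cons 0x7182346590 (.cons 0x8217095643 .nil)))) (.node 3 7 (.cons 0x6459087321 (.cons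 0x6598210734 (.cons 0x7346590182 .nil))) .done .done) (.node 0 4 (.cons 0x4095671823 .nil) (.leaf 0x1765904328 1 (.node 7 9 (.cons 0x8123409765 (.cons 0x5679043281 .nil)) (.node 0 3 (.cons 0x4567890321 (.cons 0x8217903456 .nil)) (.node 1 4 (.cons 0x3214567890 (.cons 0x6728954103 (.cons 0x9032871456 (.cons 0x8230954176 .nil)))) .done .done) .done) (.node 0 5 (.cons 0x7650981234 (.cons 0x9056718234 .nil)) (.node 0 3 (.cons 0x4567890321 .nil) (.node 1 4 (.cons 0x3214567890 (.cons 0x6728954103 (.cons 0x8230954176 .nil))) .done .done) .done) .done))) .done)) .done)) .done))) (.node 7 9 (.cons 0x3456798210 .nil) tc9_4_12 (.node 5 8 (.cons 0x6721098543 .nil) (.node 3 8 (.cons 0x7654389012 .nil) (.node 2 4 (.cons 0x9856701243 .nil) (.node 4 8 (.cons 0x5670984321 .nil) (.node 0 8 .nil (.node 1 9 (.cons 0x4321985670 .nil) (.leaf 0x3219807654 0 (.node 4 6 (.cons 0x5891234670 (.cons 0x5467809123 .nil)) (.node 4 7 (.cons 0x5674321890 (.cons 0x9081234765 .nil)) .done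 .done) (.leaf 0x8912345670 3 .done))) .done) (.node 2 5 (.cons 0x3489076521 .nil) (.node 6 8 (.cons 0x9012543867 .nil) (.node 0 8 .nil (.node 7 9 (.cons 0x3481256790 (.cons 0x4325679081 (.cons 0x6790834521 .nil))) .done .done) .done) (.node 1 3 (.cons 0x5670984312 .nil) (.leaf 0x6709843125 0 (.leaf 0x6709843125 1 (.node 1 5 (.cons 0x3489076512 .nil) (.node 1 4 (.cons 0x3214567890 .nil) (.node 3 5 (.cons 0x6709841253 .nil) (.node 0 2 (.cons 0x6789023541 .nil) (.node 0 3 (.cons 0x4567890321 .nil) .done .done) .done) .done) .done) .done))) .done)) .done)) (.node 3 9 (.cons 0x4398567012 .nil) (.leaf 0x1076589342 0 (.node 0 8 (.cons 0x9342108567 .nil) (.node 4 8 (.cons 0x5670984321 .nil) (.node 2 5 (.cons 0x3489076521 .nil) (.node 0 2 .nil (.node 1 7 (.cons 0x3908425671 (.cons 0x9802345671 (.cons 0x9348567120 .nil))) .done .done) .done) .done) .done) (.leaf 0x4567839012 3 .done))) .done)) (.node 2 5 (.cons 0x6725438901 .nil) (.node 2 4 (.cons 0x9856701243 .nil)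 (.node 2 9 (.cons 0x7652901834 .nil) (.node 4 7 (.cons 0x3476589210 .nil) (.leaf 0x3476529018 3 (.leaf 0x6529018347 2 (.leaf 0x5674381092 0 .done))) (.node 0 2 .nil (.node 1 7 (.cons 0x3892456710 (.cons 0x9834567102 .nil)) (.leaf 0x5671029834 0 .done) .done) .done)) .done) (.node 6 8 .nil (.node 1 5 (.cons 0x8907651234 (.cons 0x9015438672 (.cons 0x7098651234 .nil))) .done (.node 4 8 (.cons 0x5670984321 .nil) (.node 0 8 .nil (.node 1 9 (.cons 0x4321985670 .nil) (.leaf 0x3219807654 0 (.node 0 4 (.cons 0x9856704321 .nil) (.node 3 7 (.cons 0x9125408673 (.cons 0x5437680912 .nil)) (.leaf 0x1908673452 2 .done) (.leaf 0x3219856704 2 (.leaf 0x7658912340 3 .done))) (.leaf 0x8912345670 3 .done))) .done) .done) .done)) .done)) .done)) (.node 3 8 (.cons 0x7654389012 .nil) (.node 2 9 (.cons 0x7654389210 .nil) (.node 2 4 (.cons 0x9834210765 .nil) (.node 1 7 (.cons 0x3429856710 .nil) (.node 1 6 (.cons 0x1672345890 .nil) (.leaf 0x5432761098 0 (.node 6 8 .nil (.node 1 5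 (.cons 0x8907651234 (.cons 0x7098651234 .nil)) (.leaf 0x6723451098 0 .done) (.node 6 9 (.cons 0x5438967210 .nil) (.node 4 8 (.cons 0x5670984321 .nil) (.node 0 8 .nil (.node 1 4 (.cons 0x5698234170 (.cons 0x9234176580 (.cons 0x5698071432 .nil))) .done .done) .done) .done) .done)) .done)) (.node 3 7 (.cons 0x6582901734 .nil) (.node 4 7 (.cons 0x5674389210 .nil) (.node 0 8 (.cons 0x5673429801 .nil) (.node 4 8 (.cons 0x1765843290 .nil) .done .done) .done) .done) .done)) (.node 3 7 (.cons 0x8567342901 .nil) (.leaf 0x6581092437 2 (.leaf 0x4290185673 3 .done)) .done)) (.leaf 0x1298345670 3 .done)) (.node 0 8 .nil (.node 1 9 (.cons 0x7654321980 .nil) (.leaf 0x2345670891 2 (.leaf 0x3219807654 0 (.node 5 7 (.cons 0x6754389012 (.cons 0x6754321980 (.cons 0x8091234576 .nil))) (.node 1 7 (.cons 0x6719085432 .nil) (.node 0 2 (.cons 0x8543209176 .nil) (.leaf 0x7120983456 0 .done) (.node 1 4 (.cons 0x3214567890 (.cons 0x9087654123 .nil)) (.node 0 2 (.cons 0x6719854320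 .nil) (.leaf 0x3456719802 2 (.node 2 9 (.cons 0x6589234170 .nil) (.leaf 0x6710892345 0 .done) .done)) .done) .done)) .done) (.leaf 0x8912345670 3 .done)))) .done) .done)) (.node 3 6 (.cons 0x1276345890 .nil) (.node 3 8 (.cons 0x7654389012 .nil) (.node 0 8 (.cons 0x9801276345 .nil) (.node 6 8 .nil (.node 5 9 (.cons 0x8954367210 .nil) (.node 0 3 (.cons 0x4567890321 (.cons 0x9034586721 .nil)) (.node 1 3 (.cons 0x6721345890 (.cons 0x6859072134 .nil)) .done .done) (.leaf 0x127683459 2 (.leaf 0x4590127683 3 .done))) .done) .done) (.node 0 8 (.cons 0x9801276345 .nil) (.node 4 8 (.cons 0x5670984321 .nil) (.node 6 8 .nil (.node 3 7 (.cons 0x9012865437 .nil) (.node 1 6 (.cons 0x9085437612 .nil) (.leaf 0x9821654370 1 .done) .done) .done) .done) .done) .done)) (.leaf 0x2763458901 0 (.leaf 0x7210985436 2 (.leaf 0x4589012763 3 .done)))) .done))) .done)))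
noncomputable def tc9_4_14 : T := (.node 5 8 (.cons 0x6712345890 .nil) (.node 1 9 (.cons 0x4321985670 .nil) (.node 0 4 (.cons 0x9856704321 .nil) (.node 7 9 (.cons 0x6589704321 .nil) (.node 6 9 (.cons 0x1856972340 .nil) (.leaf 0x7234018569 3 (.leaf 0x8569723401 0 (.node 6 8 (.cons 0x5432176890 .nil) (.node 5 9 (.cons 0x7234095681 .nil) (.leaf 0x2718659043 3 .done) .done) .done))) (.node 1 6 (.cons 0x3407985612 .nil) (.node 1 3 (.cons 0x6589704312 .nil) (.node 1 4 (.cons 0x3214567890 .nil) .done .done) (.leaf 0x5897043216 0 .done)) .done)) (.leaf 0x3219856704 0 (.node 1 3 (.cons 0x8723190456 .nil) (.node 6 8 (.cons 0x9132786540 .nil) (.leaf 0x2786540913 2 (.leaf 0x4568723190 2 .done)) (.node 1 5 (.cons 0x7651890432 .nil) (.node 0 5 (.cons 0x7650981234 .nil) (.node 2 5 (.cons 0x7652340981 .nil) .done .done) .done) .done)) .done))) (.node 0 4 (.cons 0x9856704321 .nil) (.leaf 0x5891234076 2 (.leaf 0x8567043219 3 (.node 1 6 .nil (.node 0 3 (.cons 0x4567890321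 (.cons 0x7890321654 (.cons 0x7619854032 .nil))) .done (.node 4 6 .nil (.node 0 3 (.cons 0x4567890321 (.cons 0x7032198564 (.cons 0x7645891230 .nil))) .done (.node 6 8 (.cons 0x5432176890 .nil) (.node 3 6 (.cons 0x2367198540 .nil) (.node 6 9 .nil (.node 0 3 (.cons 0x4567890321 (.cons 0x4586917230 (.cons 0x8540327691 .nil))) .done .done) .done) .done) .done)) .done)) .done))) .done)) (.node 7 9 (.cons 0x7906581234 .nil) (.node 4 7 (.cons 0x5674321890 .nil) (.node 1 9 (.cons 0x2347918560 .nil) (.node 3 7 (.cons 0x8732190654 .nil) .done (.leaf 0x7432198560 3 .done)) (.node 3 7 .nil (.node 4 6 (.cons 0x1856432790 (.cons 0x9856437012 (.cons 0x9018564372 .nil))) .done (.node 5 7 .nil (.node 4 6 (.cons 0x1856432790 .nil) (.leaf 0x2346570981 0 (.leaf 0x5712346098 2 .done)) .done) .done)) .done)) (.node 4 7 (.cons 0x5674321890 .nil) (.node 3 7 (.cons 0x4379065812 .nil) (.node 2 4 (.cons 0x2437906581 .nil) (.leaf 0x6097342185 1 (.leaf 0x9065812437 0 .done)) .done)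 (.node 0 5 (.cons 0x2347650981 .nil) (.leaf 0x8905674321 0 (.node 5 9 (.cons 0x6095817432 .nil) (.node 1 9 (.cons 0x8190567234 .nil) (.node 2 5 (.cons 0x4781906523 .nil) (.node 5 7 (.cons 0x8190657432 .nil) .done .done) .done) .done) .done)) .done)) .done)) (.node 0 5 (.cons 0x7650981234 .nil) (.node 0 8 .nil (.node 1 9 (.cons 0x4327658190 .nil) (.leaf 0x3219807654 0 (.leaf 0x8912345670 3 .done)) (.node 0 3 (.cons 0x4567890321 .nil) (.node 0 4 (.cons 0x9043276581 .nil) .done .done) .done)) (.node 2 5 (.cons 0x9067185234 .nil) (.node 2 6 (.cons 0x1762345890 .nil) (.leaf 0x8901762345 0 (.node 1 6 .nil (.node 0 4 (.cons 0x9043276581 (.cons 0x7890456123 (.cons 0x9852340761 .nil))) (.node 5 9 (.cons 0x6718952340 (.cons 0x4095618723 .nil)) (.leaf 0x1659043278 0 .done) .done) (.node 6 8 (.cons 0x5432176890 .nil) (.node 4 6 (.cons 0x8905467123 .nil) (.node 0 4 (.cons 0x9043276581 .nil) (.node 6 9 (.cons 0x6985234071 .nil) (.leaf 0x4325896170 0 .done) (.node 3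 6 (.cons 0x5409876321 .nil) (.node 2 4 (.cons 0x9852436710 .nil) (.leaf 0x1763425890 3 .done) .done) .done)) .done) .done) .done)) .done)) (.node 2 4 (.cons 0x9018567243 .nil) (.node 4 7 (.cons 0x5674321890 .nil) (.leaf 0x8905674321 0 (.node 3 9 (.cons 0x3987654210 .nil) (.node 2 6 (.cons 0x1856274390 .nil) (.leaf 0x8901762345 0 (.leaf 0x5810934726 0 .done)) (.leaf 0x1256093478 2 (.leaf 0x5672439018 1 (.leaf 0x7658109342 0 .done)))) .done)) (.node 0 2 .nil (.node 1 4 (.cons 0x3214567890 (.cons 0x9856702341 (.cons 0x9023418567 .nil))) (.node 0 4 (.cons 0x9043276581 .nil) (.node 4 9 (.cons 0x1856723490 (.cons 0x3490276581 .nil)) .done .done) .done) .done) .done)) .done)) .done)) (.leaf 0x7123458906 2 .done)))) (.node 0 5 (.cons 0x7650981234 .nil) (.node 6 8 (.cons 0x5432176890 .nil) (.node 1 6 .nil (.node 5 8 (.cons 0x6712345890 (.cons 0x7098561234 .nil)) (.node 2 6 (.cons 0x1762345890 .nil) (.leaf 0x8901762345 0 .done) (.leaf 0x1670985432 0 .done)) (.node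 1 4 (.cons 0x3214567890 .nil) (.node 4 7 (.cons 0x5674321890 .nil) (.node 1 3 .nil (.node 2 8 (.cons 0x9056743281 (.cons 0x7456098231 (.cons 0x5476098231 .nil))) .done (.node 1 5 (.cons 0x2347651890 .nil) (.node 1 9 (.cons 0x8190567432 .nil) .done .done) .done)) (.node 2 6 .nil (.node 3 5 (.cons 0x8906712354 (.cons 0x7435621890 .nil)) (.leaf 0x2653470981 0 (.leaf 0x4356218907 3 .done)) (.node 3 6 .nil (.node 1 3 (.cons 0x2136547890 .nil) .done (.node 4 6 .nil (.node 0 3 (.cons 0x9876541230 (.cons 0x9870321465 (.cons 0x5467890321 .nil))) .done .done) .done)) .done)) .done)) (.node 3 7 (.cons 0x6541237890 .nil) (.node 1 3 .nil (.node 4 8 (.cons 0x5670984321 (.cons 0x5489067132 (.cons 0x5670984312 .nil))) (.node 0 8 (.cons 0x9806541237 (.cons 0x9087231456 .nil)) (.node 4 7 (.cons 0x5674321890 (.cons 0x9087456132 (.cons 0x9806547312 .nil))) .done .done) .done) .done) (.leaf 0x4560987321 2 .done)) .done)) .done)) (.leaf 0x4321768905 2 (.node 0 3 (.cons 0x4567890321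 .nil) (.node 7 9 (.cons 0x8654309721 .nil) (.leaf 0x345681279 2 (.leaf 0x3097218654 0 .done)) (.node 1 5 (.cons 0x7689034512 .nil) (.node 0 2 .nil (.node 4 9 (.cons 0x6789451230 (.cons 0x7021568943 (.cons 0x5120768943 (.cons 0x7651894320 (.cons 0x6789451203 .nil))))) .done (.node 0 8 (.cons 0x9807651234 .nil) (.node 0 4 .nil (.node 3 5 (.cons 0x8906712354 (.cons 0x9043568127 .nil)) (.leaf 0x435672189 0 .done) .done) .done) .done)) (.leaf 0x4309867215 1 (.node 1 9 (.cons 0x8672190345 .nil) (.node 3 7 (.cons 0x8654372190 .nil) (.node 0 2 (.cons 0x7345689120 .nil) (.leaf 0x8654370219 2 .done) (.node 0 2 (.cons 0x8654372091 .nil) (.leaf 0x7345681902 2 .done) .done)) .done) .done))) (.node 3 7 .nil (.node 0 2 (.cons 0x7345689021 (.cons 0x5437689021 .nil)) (.leaf 0x9865437120 0 .done) (.node 3 5 (.cons 0x8906712354 .nil) (.node 3 8 (.cons 0x7654389012 .nil) (.node 7 9 (.cons 0x4356812790 .nil) (.node 2 4 (.cons 0x1865342790 .nil) (.leaf 0x5342790186 2 (.node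 1 9 (.cons 0x2437918650 .nil) (.leaf 0x3705689124 2 (.leaf 0x7342198650 3 .done)) (.leaf 0x9724356810 2 .done))) (.node 1 4 (.cons 0x3214567890 .nil) (.leaf 0x3541279068 0 (.leaf 0x5386097214 2 (.leaf 0x9876541230 2 .done))) .done)) .done) .done) .done)) .done))) .done))) (.node 6 8 (.cons 0x5432176890 .nil) (.node 7 9 (.cons 0x6897123450 .nil) (.node 1 6 (.cons 0x8165097234 .nil) (.node 2 6 (.cons 0x1798623450 .nil) (.node 3 6 (.cons 0x6321789054 .nil) (.node 2 4 (.cons 0x6324509871 .nil) (.leaf 0x3617890542 3 (.node 1 4 (.cons 0x9723418650 .nil) (.node 3 5 (.cons 0x5342689710 .nil) (.leaf 0x6532418970 3 (.leaf 0x4356897012 3 .done)) .done) (.leaf 0x542361789 0 .done))) .done) .done) .done) (.leaf 0x8605432179 3 .done)) (.leaf 0x3450986712 0 (.node 5 8 (.cons 0x6712345890 .nil) (.node 2 5 (.cons 0x3452176890 .nil) (.node 1 5 (.cons 0x8907651234 .nil) (.node 3 5 (.cons 0x8906712354 .nil) (.node 3 7 (.cons 0x6890543712 .nil) (.node 4 7 (.cons 0x5674321890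 .nil) (.leaf 0x9812347650 2 (.node 5 7 .nil (.node 3 8 (.cons 0x7654389012 (.cons 0x6098321754 (.cons 0x4576098321 .nil))) .done .done) .done)) .done) .done) .done) .done) (.node 2 6 (.cons 0x1762345890 .nil) (.node 3 7 (.cons 0x9862173450 .nil) (.node 3 5 (.cons 0x9862170534 .nil) (.node 1 3 (.cons 0x4589067132 .nil) (.node 4 7 (.cons 0x9854713260 .nil) (.leaf 0x9812347650 2 (.leaf 0x8547132609 2 .done)) .done) .done) (.leaf 0x4509862173 2 .done)) (.leaf 0x8901762345 0 .done)) .done)) .done))) (.node 2 6 (.cons 0x8905432671 .nil) (.node 1 6 .nil (.node 2 4 (.cons 0x6178905423 (.cons 0x3245098761 .nil)) (.node 3 9 (.cons 0x8934501762 (.cons 0x6245017893 (.cons 0x3987624501 (.cons 0x8934267105 (.cons 0x8109342765 .nil))))) .done .done) (.node 1 9 (.cons 0x8917623450 .nil) (.node 1 4 (.cons 0x3214567890 .nil) (.leaf 0x5078914326 0 .done) (.node 2 8 (.cons 0x9826710543 .nil) (.node 0 8 (.cons 0x9805432671 .nil) (.node 0 2 .nil (.node 3 8 (.cons 0x7654389012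 (.cons 0x6719832054 .nil)) (.leaf 0x2671983450 1 .done) .done) .done) (.node 0 8 (.cons 0x9805432671 .nil) (.node 0 2 .nil (.node 3 8 (.cons 0x7654389012 (.cons 0x6719832054 .nil)) (.leaf 0x2671983450 1 .done) .done) .done) .done)) .done)) .done)) (.node 1 9 (.cons 0x8190567234 .nil) (.node 1 4 (.cons 0x3214567890 .nil) (.node 3 7 (.cons 0x4198732650 .nil) (.node 4 8 (.cons 0x7321984560 .nil) (.leaf 0x7326054891 2 (.leaf 0x3260548917 3 (.leaf 0x3706548912 3 (.leaf 0x5627348910 0 .done)))) (.node 4 7 (.cons 0x5674321890 .nil) (.node 7 9 (.cons 0x2341897650 .nil) .done .done) .done)) (.node 4 6 (.cons 0x5098176432 .nil) (.leaf 0x1905643278 3 (.leaf 0x9187234650 2 (.node 1 3 .nil (.node 2 4 (.cons 0x9056781423 (.cons 0x3198705642 (.cons 0x9056427813 (.cons 0x6789054231 .nil)))) .done (.node 1 6 .nil (.node 0 4 (.cons 0x7891326504 (.cons 0x7890456123 (.cons 0x5409876123 .nil))) .done .done) .done)) .done))) .done)) (.node 5 8 (.cons 0x6712345890 .nil) (.node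 0 4 (.cons 0x9856704321 .nil) (.node 7 9 (.cons 0x9765812340 .nil) (.node 2 9 (.cons 0x1856792340 .nil) (.leaf 0x5810432976 2 (.leaf 0x8567923401 3 .done)) (.node 5 7 .nil (.node 1 4 (.cons 0x3214567890 (.cons 0x8905714326 .nil)) (.leaf 0x5762341890 0 .done) .done) .done)) (.leaf 0x5891234076 2 (.leaf 0x8567043219 3 .done))) (.node 5 9 .nil (.node 3 8 (.cons 0x7654389012 (.cons 0x4598321760 (.cons 0x8345901276 (.cons 0x4381095672 .nil)))) .done (.node 6 9 (.cons 0x6905817234 .nil) (.node 0 4 (.cons 0x7234096581 .nil) (.leaf 0x9658172340 3 (.leaf 0x2340965817 0 (.node 0 8 (.cons 0x6908543271 .nil) .done .done))) .done) .done)) (.node 5 9 .nil (.node 0 4 (.cons 0x4095678123 (.cons 0x6721859043 .nil)) (.node 3 8 (.cons 0x7654389012 (.cons 0x4598321760 (.cons 0x6721904583 (.cons 0x8327654091 .nil)))) (.leaf 0x2190438567 3 .done) (.leaf 0x9504326718 0 .done)) (.node 6 8 (.cons 0x5432176890 .nil) (.node 2 9 (.cons 0x1768923450 .nil) (.node 5 7 (.cons 0x3457689210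 .nil) (.node 1 5 (.cons 0x4329867051 .nil) (.node 1 6 (.cons 0x4329816750 .nil) .done .done) .done) .done) (.node 0 4 (.cons 0x3409586271 .nil) (.leaf 0x9568172340 3 (.leaf 0x3271865904 2 (.node 0 2 (.cons 0x5432098671 .nil) (.node 0 8 (.cons 0x6809543271 .nil) .done .done) .done))) .done)) .done)) .done))) .done)) .done)) .done))) (.node 5 8 (.cons 0x6712345890 .nil) (.leaf 0x4321760985 2 (.leaf 0x3458906712 0 (.node 1 9 (.cons 0x4327658190 .nil) (.node 1 4 (.cons 0x3214567890 .nil) (.node 4 6 (.cons 0x7234658190 .nil) (.leaf 0x5819072346 3 (.node 4 7 (.cons 0x5674321890 .nil) (.node 0 5 (.cons 0x2347650981 .nil) (.node 3 7 (.cons 0x2378914560 .nil) (.node 3 5 (.cons 0x4198706532 .nil) (.node 2 5 (.cons 0x8912564370 .nil) (.leaf 0x6078914325 0 (.leaf 0x6098172534 2 .done)) .done) .done) (.leaf 0x9812347650 2 (.leaf 0x8905674321 0 .done))) .done) .done)) (.node 1 3 (.cons 0x8723190654 .nil) (.node 1 5 (.cons 0x8906715432 .nil) (.node 1 6 (.cons 0x8561907234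 .nil) .done .done) .done) .done)) (.node 0 4 (.cons 0x9043276581 .nil) (.leaf 0x6581904327 1 (.leaf 0x8567234091 0 (.node 0 8 .nil (.node 5 9 (.cons 0x6723409581 .nil) (.leaf 0x3459806712 0 (.leaf 0x8954321760 3 .done)) (.node 0 3 (.cons 0x4567890321 .nil) (.node 0 5 (.cons 0x7650981234 .nil) (.node 0 2 .nil (.node 1 4 (.cons 0x3214567890 (.cons 0x9856702341 (.cons 0x9023418567 .nil))) (.node 1 3 (.cons 0x7890654132 .nil) (.leaf 0x8902314567 3 .done) .done) .done) .done) .done) .done)) .done))) .done)) (.leaf 0x9854321760 3 .done)))) .done)))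
noncomputable def tc9_4_15 : T := (.node 0 4 (.cons 0x6540987123 (.cons 0x5671890432 .nil)) (.node 5 8 (.cons 0x9856704321 (.cons 0x6589071234 (.cons 0x9043276581 .nil))) (.node 3 9 (.cons 0x8543901276 (.cons 0x8567210934 (.cons 0x4390185672 .nil))) (.node 2 8 (.cons 0x7654398210 .nil) (.leaf 0x3982107654 0 (.node 3 5 (.cons 0x6782109354 .nil) (.leaf 0x6721890435 3 (.leaf 0x4098127653 2 (.leaf 0x435672189 0 .done))) .done)) (.leaf 0x4567893210 2 .done)) (.node 0 6 (.cons 0x4560987123 .nil) (.leaf 0x7123458906 2 (.node 0 2 (.cons 0x6712098543 .nil) (.node 3 8 (.cons 0x7654389012 (.cons 0x7123890654 .nil)) (.leaf 0x4567120983 2 (.leaf 0x9834567120 3 (.leaf 0x5438902176 0 .done))) .done) (.leaf 0x9854321760 3 .done))) .done)) (.node 0 5 (.cons 0x7650981234 .nil) (.node 4 6 (.cons 0x7189056432 .nil) (.leaf 0x564327189 0 (.leaf 0x3271890564 3 (.leaf 0x5098172346 2 .done))) (.node 5 9 (.cons 0x4095678123 (.cons 0x8176590432 .nil)) (.node 6 8 (.cons 0x4327186590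 .nil) (.leaf 0x5904327186 2 (.leaf 0x1865904327 3 (.leaf 0x9568172340 0 .done))) (.node 5 8 (.cons 0x9043218567 (.cons 0x6589071234 .nil)) (.node 0 6 (.cons 0x4560987123 .nil) (.node 4 9 (.cons 0x1234985670 (.cons 0x6589432170 (.cons 0x3495812760 .nil))) (.leaf 0x5894321706 2 .done) (.leaf 0x4321760985 2 .done)) (.node 3 8 (.cons 0x4381276590 (.cons 0x6712389054 .nil)) (.node 4 9 (.cons 0x1856723490 (.cons 0x6581723490 (.cons 0x6712389450 (.cons 0x9405671832 .nil)))) .done (.node 4 6 (.cons 0x7218346590 (.cons 0x9832170564 (.cons 0x2718346590 (.cons 0x5643890712 .nil)))) .done .done)) .done)) .done)) (.node 4 6 (.cons 0x7189056432 .nil) (.leaf 0x564327189 0 (.leaf 0x3271890564 3 (.node 0 8 (.cons 0x9081723465 .nil) (.node 1 9 (.cons 0x8765409123 .nil) (.leaf 0x3219807654 0 (.node 1 5 (.cons 0x5198076432 (.cons 0x8907156432 (.cons 0x8091546723 .nil))) (.node 5 8 (.cons 0x9158076432 (.cons 0x2346589071 (.cons 0x6721908543 .nil))) .done .done) (.leaf 0x8912345670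 3 .done))) (.node 5 9 (.cons 0x4095678123 (.cons 0x8172346590 .nil)) (.leaf 0x1723465908 1 (.leaf 0x1723465908 0 .done)) .done)) (.leaf 0x5098172346 2 .done)))) .done))) (.node 5 8 (.cons 0x6589071234 .nil) (.leaf 0x2340985671 0 (.node 1 9 (.cons 0x4321985670 .nil) (.leaf 0x3219856704 0 (.node 0 6 (.cons 0x9854067123 (.cons 0x2345891760 .nil)) (.node 0 3 (.cons 0x9123067854 .nil) (.leaf 0x4589127603 2 (.leaf 0x5430672198 0 .done)) (.node 4 9 (.cons 0x3219458760 (.cons 0x6589432170 .nil)) (.leaf 0x7123498560 3 (.leaf 0x1706589432 2 .done)) .done)) (.leaf 0x8567043219 3 .done))) (.node 1 4 (.cons 0x6589071432 .nil) (.node 2 4 (.cons 0x9018567243 .nil) (.node 2 6 (.cons 0x5890432671 .nil) (.leaf 0x8562341709 0 (.node 0 2 (.cons 0x9856702341 .nil) (.node 2 5 (.cons 0x9043258176 .nil) (.leaf 0x8904325671 0 .done) .done) (.leaf 0x5890714326 2 .done))) .done) (.node 0 8 (.cons 0x9087654123 .nil) (.node 0 2 (.cons 0x9023418567 .nil) (.node 3 6 (.cons 0x5409876321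 (.cons 0x9854023671 (.cons 0x9087123654 (.cons 0x9087145632 .nil)))) (.leaf 0x236714589 0 .done) .done) .done) .done)) (.node 2 4 (.cons 0x6589071243 .nil) (.node 0 3 (.cons 0x4567890321 (.cons 0x9034218567 (.cons 0x9034276581 .nil))) (.node 3 7 (.cons 0x9873012456 .nil) (.leaf 0x4210985673 2 (.leaf 0x6589012437 3 .done)) .done) (.node 3 9 (.cons 0x3987654210 (.cons 0x6589342170 .nil)) (.leaf 0x4210765893 0 (.node 0 8 (.cons 0x4390856721 (.cons 0x5671089342 .nil)) (.leaf 0x1243908567 3 .done) (.node 0 2 (.cons 0x3987654201 (.cons 0x6589342071 .nil)) (.node 0 6 (.cons 0x1789324560 .nil) (.leaf 0x5893421706 2 (.leaf 0x7124398560 3 (.leaf 0x9854321760 3 .done))) .done) .done))) .done)) .done)))) .done))) (.node 1 4 (.cons 0x3214567890 .nil) (.node 1 5 (.cons 0x8907651234 .nil) (.node 1 3 .nil (.node 0 8 (.cons 0x9087654123 (.cons 0x9087654132 .nil)) (.node 6 9 (.cons 0x7123456980 (.cons 0x4569087231 (.cons 0x4569087213 .nil))) (.leaf 0x872314569 2 (.leaf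 0x5690872314 3 .done)) (.node 2 8 (.cons 0x7654310982 .nil) (.node 5 9 (.cons 0x6712345980 (.cons 0x6780954132 (.cons 0x8095431276 .nil))) (.node 6 9 (.cons 0x5432176980 (.cons 0x4328965170 (.cons 0x8096721345 .nil))) (.leaf 0x5143287096 2 .done) .done) (.leaf 0x1345670982 2 (.leaf 0x3128907654 0 .done))) .done)) (.node 3 7 .nil (.node 0 8 (.cons 0x9087654123 (.cons 0x9087321456 .nil)) (.node 0 4 (.cons 0x6540987321 .nil) (.node 4 6 (.cons 0x9870465123 (.cons 0x9046518723 (.cons 0x8907346512 .nil))) .done (.node 2 6 (.cons 0x5409876231 (.cons 0x9801267345 (.cons 0x4098732651 (.cons 0x7326518904 .nil)))) .done .done)) (.node 1 9 (.cons 0x2345671980 (.cons 0x8091456732 .nil)) .done .done)) (.node 1 6 .nil (.node 0 4 (.cons 0x2378904561 (.cons 0x6154098732 (.cons 0x5409876132 .nil))) (.leaf 0x8904561237 2 .done) (.node 1 9 .nil (.node 0 8 (.cons 0x9087654123 (.cons 0x6541908732 (.cons 0x2345671980 .nil))) (.node 5 8 (.cons 0x9085416732 (.cons 0x4321985670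 (.cons 0x4327658190 (.cons 0x6721908543 .nil)))) .done .done) .done) .done)) .done)) .done)) (.node 1 6 .nil (.node 0 4 (.cons 0x7890456123 (.cons 0x5409876123 .nil)) (.node 5 8 (.cons 0x9856704321 (.cons 0x7098561234 (.cons 0x9043276581 .nil))) (.node 3 9 (.cons 0x8765412390 (.cons 0x6587093214 (.cons 0x6785412390 (.cons 0x8567210934 (.cons 0x5678140932 .nil))))) .done (.leaf 0x1670985432 0 .done)) (.node 1 3 (.cons 0x7890456132 (.cons 0x5409876132 .nil)) .done .done)) .done) .done)) (.node 3 7 (.cons 0x6541237890 .nil) (.node 0 3 (.cons 0x4567890321 .nil) (.node 1 3 .nil (.node 0 6 (.cons 0x7890654123 (.cons 0x7890654132 .nil)) (.node 2 8 (.cons 0x7654310982 .nil) (.node 7 9 (.cons 0x8790321456 (.cons 0x3289714560 (.cons 0x6541287903 .nil))) .done (.leaf 0x1345670982 2 (.leaf 0x3128907654 0 (.node 4 7 (.cons 0x5674321890 (.cons 0x5476098231 (.cons 0x5476098213 .nil))) .done .done)))) .done) .done) (.node 3 8 (.cons 0x7654389012 .nil) (.node 6 8 (.cons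 0x5437689012 .nil) (.node 1 9 (.cons 0x3278654190 .nil) (.leaf 0x2786541903 1 (.node 1 5 (.cons 0x7098651432 .nil) (.node 1 6 (.cons 0x7890321654 .nil) .done .done) .done)) (.node 7 9 (.cons 0x2179865430 .nil) (.leaf 0x345681279 2 (.leaf 0x3097218654 0 .done)) .done)) (.node 3 9 (.cons 0x6541093872 .nil) (.node 6 8 (.cons 0x5437689012 .nil) (.node 3 6 (.cons 0x9014563872 .nil) (.node 1 3 .nil (.node 2 9 (.cons 0x5437689210 (.cons 0x8310927654 .nil)) (.leaf 0x5638729014 3 (.leaf 0x927654381 3 .done)) .done) .done) (.node 7 9 (.cons 0x2179865430 .nil) (.leaf 0x345681279 2 (.leaf 0x3097218654 0 .done)) .done)) .done) .done)) (.leaf 0x9876541230 2 .done))) (.node 0 6 (.cons 0x2378906541 .nil) (.node 5 7 .nil (.node 2 6 (.cons 0x1456237890 (.cons 0x8901437562 .nil)) (.leaf 0x4326570981 0 (.node 3 8 (.cons 0x7654389012 (.cons 0x6754389012 .nil)) (.leaf 0x7562143890 2 (.leaf 0x6541098372 0 .done)) .done)) (.node 4 7 (.cons 0x5674321890 .nil) (.node 7 9 (.cons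 0x8790654123 .nil) .done .done) .done)) (.leaf 0x4560987321 2 (.node 5 7 (.cons 0x7560981432 .nil) (.node 4 7 (.cons 0x5674321890 .nil) (.node 7 9 (.cons 0x8143279065 .nil) .done .done) .done) .done))) .done)) (.node 4 7 (.cons 0x5674321890 .nil) (.node 0 5 (.cons 0x2347650981 .nil) (.node 5 7 .nil (.node 0 6 (.cons 0x8906754123 (.cons 0x5760981432 .nil)) (.leaf 0x9812347560 2 .done) (.node 0 4 .nil (.node 2 5 (.cons 0x3256740981 .nil) (.leaf 0x6718904325 3 (.node 3 9 (.cons 0x2567439810 (.cons 0x6752189340 (.cons 0x4012567893 (.cons 0x9325041876 .nil)))) (.leaf 0x4567893210 2 .done) (.leaf 0x3409817652 2 .done))) (.node 4 9 (.cons 0x4905678123 .nil) (.node 3 7 (.cons 0x6540987321 .nil) (.node 3 8 (.cons 0x5672183490 .nil) (.leaf 0x1834905672 3 (.leaf 0x9438127650 0 (.leaf 0x4905672183 2 .done))) .done) .done) .done)) .done)) (.leaf 0x9812347650 2 (.leaf 0x8905674321 0 (.node 5 7 (.cons 0x6750981432 .nil) (.node 7 9 .nil (.node 0 4 (.cons 0x9817650432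 (.cons 0x8123409765 .nil)) (.leaf 0x9812340567 0 .done) (.node 3 7 .nil (.node 2 4 (.cons 0x9810567342 (.cons 0x6573421890 .nil)) (.node 1 3 (.cons 0x9056781324 .nil) (.leaf 0x9813247650 0 .done) .done) .done) .done)) .done) .done)))) (.node 5 7 .nil (.node 4 6 (.cons 0x7564321890 .nil) (.leaf 0x3218907564 2 (.leaf 0x2346570981 0 (.node 0 6 (.cons 0x8906754123 (.cons 0x5760981432 .nil)) (.node 0 4 (.cons 0x9046578123 .nil) (.node 0 8 (.cons 0x9806543217 (.cons 0x9806712345 .nil)) .done .done) .done) (.leaf 0x5643218907 3 .done)))) (.node 3 7 .nil (.node 2 4 (.cons 0x6542109873 .nil) (.node 3 5 (.cons 0x6789012453 .nil) (.leaf 0x2435670981 0 (.node 3 8 (.cons 0x9834210765 (.cons 0x9018342756 (.cons 0x9012453876 (.cons 0x9018342765 .nil)))) .done (.leaf 0x4218907653 2 .done))) (.node 3 6 (.cons 0x5412367890 .nil) (.node 2 5 (.cons 0x3476521890 .nil) (.node 4 9 (.cons 0x4987012563 (.cons 0x8109437256 .nil)) (.leaf 0x125634987 0 .done) (.node 0 6 (.cons 0x5760981432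 (.cons 0x8906732145 (.cons 0x8906732541 .nil))) (.node 3 8 (.cons 0x9065218374 (.cons 0x6738901254 (.cons 0x6738901452 .nil))) .done .done) .done)) (.leaf 0x5637890124 3 (.leaf 0x7890124563 2 (.leaf 0x8736542109 0 .done)))) .done)) (.node 7 9 .nil (.node 5 8 (.cons 0x6734589012 .nil) (.node 0 4 (.cons 0x9856704321 (.cons 0x9765812340 (.cons 0x6589704321 .nil))) (.node 0 6 (.cons 0x9854376012 (.cons 0x3214589760 .nil)) (.leaf 0x4589760123 2 .done) .done) (.node 4 6 (.cons 0x9856432170 (.cons 0x1234658970 (.cons 0x1856432790 .nil))) (.leaf 0x5810972346 0 .done) (.node 0 4 (.cons 0x3409765812 (.cons 0x6581279043 .nil)) (.node 0 3 (.cons 0x4309765812 (.cons 0x6581279034 .nil)) (.node 1 9 (.cons 0x8190432756 (.cons 0x8917654032 .nil)) .done .done) (.leaf 0x9765812340 1 .done)) .done))) .done) .done)) .done)) .done)) .done))) (.node 0 6 (.cons 0x8906712345 .nil) tc9_4_14 .done)))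
noncomputable def tc9_4_16 : T := (.node 2 8 .nil (.node 0 3 (.cons 0x4567890321 (.cons 0x9827654301 .nil)) (.node 4 9 (.cons 0x8765490321 (.cons 0x9430182765 (.cons 0x3094567821 .nil))) (.node 3 6 (.cons 0x3654987210 (.cons 0x7012894365 (.cons 0x5634982701 .nil))) (.node 3 9 (.cons 0x8934567210 .nil) (.leaf 0x1289345670 1 (.leaf 0x8765493012 3 .done)) .done) (.node 3 9 (.cons 0x8934567210 .nil) (.node 0 4 (.cons 0x6540127893 .nil) (.node 0 5 (.cons 0x7650981234 .nil) (.node 0 6 (.cons 0x4560127893 .nil) .done .done) .done) (.node 0 4 (.cons 0x8934012765 (.cons 0x5672893401 .nil)) .done (.leaf 0x7821039456 2 .done))) .done)) (.node 3 7 (.cons 0x9801273456 .nil) (.node 5 7 (.cons 0x6754309821 .nil) (.node 4 6 (.cons 0x5467890321 (.cons 0x9807564321 (.cons 0x9081234657 (.cons 0x5764309812 .nil)))) (.leaf 0x5643218907 3 .done) (.node 1 6 (.cons 0x9087321654 .nil) (.leaf 0x4309821675 0 (.leaf 0x4309821675 1 (.node 1 9 (.cons 0x6198032754 (.cons 0x6190823754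 .nil)) (.node 0 6 (.cons 0x8732190654 (.cons 0x7560918234 (.cons 0x7289106543 .nil))) .done .done) .done))) .done)) (.node 3 8 (.cons 0x9834567210 .nil) (.node 5 7 (.cons 0x6754309821 .nil) (.node 1 6 (.cons 0x9801654372 (.cons 0x9807561234 (.cons 0x8903216754 .nil))) (.leaf 0x5437289016 1 .done) (.node 6 9 (.cons 0x2734569801 .nil) (.node 4 7 (.cons 0x5674321890 (.cons 0x3475690821 .nil)) (.leaf 0x3218096574 2 .done) (.leaf 0x896543721 2 (.leaf 0x345769821 1 (.leaf 0x4569801273 2 .done)))) .done)) .done) .done)) .done)) (.node 3 8 (.cons 0x9834567210 .nil) (.node 2 9 (.cons 0x7654389210 .nil) (.leaf 0x3892107654 0 (.node 4 8 (.cons 0x5670984321 .nil) (.node 5 8 .nil (.node 1 7 (.cons 0x1765843290 (.cons 0x6712345890 .nil)) (.leaf 0x4329017658 3 .done) (.node 6 8 .nil (.node 1 7 (.cons 0x9086543217 (.cons 0x5432176890 .nil)) (.node 0 2 (.cons 0x9023481765 (.cons 0x3209845671 .nil)) (.node 3 5 (.cons 0x8435671092 (.cons 0x6534892710 (.cons 0x9810276534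 .nil))) (.leaf 0x928435671 0 .done) .done) .done) .done) .done)) (.node 5 8 .nil (.node 0 3 (.cons 0x4567890321 (.cons 0x7658430921 (.cons 0x9854301276 .nil))) (.node 1 6 (.cons 0x9827610345 .nil) (.leaf 0x345892761 2 (.leaf 0x3016729854 0 (.leaf 0x7298543016 3 .done))) .done) (.node 6 8 .nil (.node 1 7 (.cons 0x9086543217 (.cons 0x5432176890 .nil)) (.node 0 3 (.cons 0x4567890321 (.cons 0x2903485671 (.cons 0x9867210345 .nil))) (.node 2 4 (.cons 0x9834210765 (.cons 0x9243856710 (.cons 0x6542309871 .nil))) .done .done) .done) .done) .done)) .done)) (.leaf 0x1298345670 3 .done))) (.node 3 7 (.cons 0x9801273456 .nil) (.node 0 3 (.cons 0x4567890321 .nil) (.node 6 8 (.cons 0x9867210345 .nil) (.node 4 8 (.cons 0x5670984321 .nil) (.node 5 8 (.cons 0x9854301276 .nil) .done .done) (.node 4 8 (.cons 0x5670984321 .nil) (.node 5 8 (.cons 0x9854301276 .nil) .done .done) .done)) .done) (.node 0 3 (.cons 0x4567890321 .nil) (.node 0 2 (.cons 0x9834567201 .nil) (.node 0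 5 (.cons 0x7650981234 .nil) (.node 0 6 .nil (.node 1 9 (.cons 0x2765438910 (.cons 0x5438910672 .nil)) (.node 1 4 (.cons 0x9814327650 (.cons 0x6054198732 (.cons 0x6054198723 .nil))) (.leaf 0x3270654198 2 .done) (.leaf 0x891273456 0 .done)) .done) .done) .done) .done) .done)) .done)) .done)) (.node 2 8 .nil (.node 0 3 (.cons 0x4567890321 (.cons 0x9827654301 .nil)) (.node 4 9 (.cons 0x8765490321 (.cons 0x9430182765 (.cons 0x3094567821 .nil))) (.node 3 6 (.cons 0x3654987210 (.cons 0x7012894365 (.cons 0x5634982701 .nil))) (.node 3 9 (.cons 0x8934567210 .nil) (.leaf 0x1289345670 1 (.leaf 0x8765493012 3 .done)) .done) (.node 1 9 (.cons 0x3456728910 .nil) (.node 0 5 (.cons 0x7650981234 (.cons 0x6723450891 .nil)) (.node 6 8 (.cons 0x7056891234 (.cons 0x6872305491 (.cons 0x6872194503 .nil))) .done (.node 6 8 (.cons 0x8672305491 (.cons 0x8672194503 .nil)) (.leaf 0x3054918672 2 .done) .done)) (.leaf 0x4567289103 0 (.node 3 8 (.cons 0x9103827654 .nil) (.node 4 8 (.cons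 0x7654823091 (.cons 0x7654821903 .nil)) (.node 7 9 (.cons 0x6548790321 (.cons 0x4567910382 (.cons 0x4567912830 .nil))) .done .done) (.leaf 0x1038276549 2 .done)) .done))) .done)) (.node 3 9 (.cons 0x8934567210 .nil) (.leaf 0x1289345670 1 (.node 0 4 (.cons 0x8934012765 (.cons 0x5672893401 .nil)) (.node 1 3 (.cons 0x9827654310 .nil) (.leaf 0x7654093128 2 (.node 0 2 (.cons 0x9820134567 .nil) (.node 0 5 (.cons 0x7650981234 (.cons 0x4398276501 .nil)) .done .done) (.leaf 0x4567289013 1 (.leaf 0x9821345670 1 .done)))) .done) (.node 1 4 (.cons 0x3214567890 (.cons 0x5670143982 (.cons 0x1456782390 .nil))) (.leaf 0x8239014567 3 (.leaf 0x7823901456 2 .done)) .done))) .done)) (.node 3 8 (.cons 0x9834567210 .nil) (.node 4 8 (.cons 0x5670984321 .nil) (.node 2 4 (.cons 0x9834210765 .nil) (.node 5 8 .nil (.node 3 9 (.cons 0x9387654210 (.cons 0x6785421093 (.cons 0x4398567210 (.cons 0x9342765810 .nil)))) (.leaf 0x1076589342 0 .done) (.node 6 8 .nil (.node 1 7 (.cons 0x9086712345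 (.cons 0x5432176890 .nil)) (.node 0 3 (.cons 0x4567890321 (.cons 0x9865430127 (.cons 0x9827103456 .nil))) (.leaf 0x4567128903 2 .done) .done) .done) .done)) (.node 2 9 (.cons 0x7654389210 .nil) (.node 5 8 .nil (.node 1 7 (.cons 0x1765843290 (.cons 0x6712345890 .nil)) (.leaf 0x4329017658 3 .done) (.node 6 8 .nil (.node 1 7 (.cons 0x9086712345 (.cons 0x5432176890 .nil)) (.node 0 3 (.cons 0x5672984301 (.cons 0x2903485671 (.cons 0x9865430127 (.cons 0x9827103456 .nil)))) .done .done) .done) .done)) (.leaf 0x1298345670 3 .done)) .done)) (.node 5 8 .nil (.node 1 7 (.cons 0x9085432176 (.cons 0x6712345890 .nil)) (.node 0 3 (.cons 0x4567890321 (.cons 0x9827103456 .nil)) (.leaf 0x4567128903 2 (.node 6 8 (.cons 0x9865430172 .nil) .done .done)) .done) (.node 6 8 .nil (.node 1 7 (.cons 0x9086712345 (.cons 0x5432176890 .nil)) (.node 0 3 (.cons 0x4567890321 (.cons 0x9865430127 (.cons 0x9827103456 .nil))) (.leaf 0x4567128903 2 .done) .done) .done) .done)) .done)) (.node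 0 3 (.cons 0x4567890321 .nil) (.node 0 2 (.cons 0x9834567201 .nil) (.node 2 5 .nil (.node 1 4 (.cons 0x3214567890 (.cons 0x9834107652 (.cons 0x9834107256 .nil))) (.node 1 9 (.cons 0x2765438910 (.cons 0x6523870914 (.cons 0x6725438910 (.cons 0x8325670914 .nil)))) .done (.leaf 0x7098341256 1 .done)) (.node 2 4 (.cons 0x9018342567 .nil) (.node 2 9 (.cons 0x7652901834 .nil) (.node 4 7 (.cons 0x5674321890 .nil) (.leaf 0x3476529018 3 (.leaf 0x6529018347 2 (.leaf 0x5674381092 0 .done))) .done) .done) .done)) .done) (.node 4 8 (.cons 0x5670984321 .nil) (.node 6 8 (.cons 0x9865430127 .nil) (.node 5 8 .nil (.node 1 6 (.cons 0x7890321654 (.cons 0x9085432167 .nil)) (.leaf 0x2345890761 0 (.node 1 9 (.cons 0x2765438910 .nil) (.leaf 0x6891270345 0 (.leaf 0x2703456891 3 .done)) .done)) .done) .done) (.node 6 8 (.cons 0x9865430127 .nil) (.node 5 8 .nil (.node 1 7 (.cons 0x9085432176 (.cons 0x6712345890 .nil)) (.node 0 4 (.cons 0x9043218567 (.cons 0x5671890432 .nil)) (.node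 1 9 (.cons 0x7043219865 (.cons 0x1983276540 .nil)) (.leaf 0x2340765891 0 .done) .done) .done) .done) .done) .done)) .done)) .done)) .done)) (.node 0 3 (.cons 0x4567890321 .nil) (.node 0 5 (.cons 0x7650981234 .nil) (.node 0 4 .nil (.node 1 9 (.cons 0x3276540891 .nil) (.node 4 6 (.cons 0x4650789123 (.cons 0x9180564327 (.cons 0x9187230564 (.cons 0x8912705643 .nil)))) .done (.leaf 0x5403219876 0 (.node 0 6 (.cons 0x5432760891 .nil) (.node 3 5 (.cons 0x4532760891 (.cons 0x6789123540 (.cons 0x9810435672 .nil))) .done .done) .done))) (.node 3 5 (.cons 0x6789045321 .nil) (.node 0 6 (.cons 0x9876045321 .nil) (.node 0 2 .nil (.node 1 6 (.cons 0x9876123540 .nil) (.node 7 9 (.cons 0x8976045321 (.cons 0x5432089761 (.cons 0x4356798102 (.cons 0x4356798120 .nil)))) .done (.leaf 0x2167890453 3 .done)) .done) .done) (.node 0 2 (.cons 0x9810276534 .nil) (.node 0 6 .nil (.node 1 5 (.cons 0x6789045123 (.cons 0x9876045123 (.cons 0x9815327604 .nil))) (.node 2 5 (.cons 0x9810435276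 .nil) .done .done) .done) .done) .done)) .done)) (.node 0 6 .nil (.node 1 9 (.cons 0x7234560891 (.cons 0x5432760891 .nil)) (.node 1 7 (.cons 0x8091765432 (.cons 0x8906712345 .nil)) .done (.node 3 8 (.cons 0x9834567210 (.cons 0x9834560127 .nil)) (.node 1 3 (.cons 0x4567231980 (.cons 0x7231980654 .nil)) (.node 2 9 (.cons 0x7654389210 (.cons 0x7601298345 .nil)) (.leaf 0x3892107654 0 (.leaf 0x892765431 0 .done)) .done) (.node 1 4 (.cons 0x3276541980 (.cons 0x9832145067 (.cons 0x9067832145 (.cons 0x7890654123 (.cons 0x5419806723 .nil))))) .done .done)) .done)) .done) .done)) (.node 3 8 (.cons 0x9834567210 .nil) (.node 6 8 (.cons 0x9865430127 .nil) (.node 1 9 (.cons 0x7219865430 .nil) (.leaf 0x6891270345 0 (.leaf 0x2703456891 3 (.node 1 4 (.cons 0x3276541980 .nil) (.leaf 0x8914567230 0 (.node 1 3 (.cons 0x4567231980 .nil) (.node 2 9 (.cons 0x7654389210 .nil) (.leaf 0x3892107654 0 (.leaf 0x8329145670 0 (.leaf 0x892765431 0 .done))) .done) (.node 3 5 (.cons 0x9865341270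 .nil) (.leaf 0x1435689072 2 (.leaf 0x8653412709 2 .done)) (.leaf 0x9803276541 2 .done)))) .done))) .done) (.node 0 5 (.cons 0x7650981234 .nil) (.node 6 8 (.cons 0x9865430127 .nil) (.node 0 4 .nil (.node 3 9 (.cons 0x8934567210 (.cons 0x8934012765 .nil)) (.leaf 0x7650439812 0 .done) (.node 1 6 (.cons 0x5409876123 .nil) (.node 3 5 (.cons 0x6789045321 .nil) (.leaf 0x2167890453 3 (.leaf 0x4098761235 2 .done)) (.node 0 6 .nil (.node 1 5 (.cons 0x6789045123 (.cons 0x9876045123 .nil)) (.leaf 0x4389067215 1 .done) .done) .done)) .done)) (.node 1 9 (.cons 0x7219865430 .nil) (.leaf 0x6891270345 0 (.leaf 0x2703456891 3 (.leaf 0x6834509127 0 .done))) .done)) (.node 1 7 (.cons 0x6712389054 .nil) (.node 1 3 (.cons 0x9801345672 .nil) (.node 1 5 (.cons 0x8907651234 .nil) (.node 1 4 (.cons 0x3214567890 .nil) (.node 1 6 (.cons 0x9805416723 .nil) (.node 1 9 (.cons 0x8091765432 .nil) .done .done) .done) .done) .done) (.node 0 6 (.cons 0x8906712345 .nil) (.node 2 8 .nil (.node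 5 9 (.cons 0x4590678321 (.cons 0x9543827601 (.cons 0x7609543821 .nil))) (.leaf 0x4590671283 3 .done) (.node 5 8 (.cons 0x6712345890 .nil) (.node 0 4 (.cons 0x9856704321 .nil) (.node 1 9 (.cons 0x4321985670 .nil) (.leaf 0x3219856704 0 (.leaf 0x8567043219 3 .done)) .done) (.leaf 0x7123458906 2 .done)) .done)) .done) .done)) .done)) .done)) (.node 3 8 (.cons 0x9834567210 .nil) (.node 6 8 (.cons 0x9867210345 .nil) (.node 5 8 (.cons 0x9854301276 .nil) (.node 4 8 (.cons 0x5670984321 .nil) (.node 2 8 .nil (.node 1 3 (.cons 0x9801345672 .nil) (.leaf 0x4567289013 1 (.node 1 7 (.cons 0x5430986712 (.cons 0x9082345671 .nil)) (.node 1 9 (.cons 0x7654328091 .nil) (.leaf 0x4328091765 2 (.leaf 0x8276543019 1 .done)) .done) .done)) .done) .done) .done) .done) (.node 0 6 (.cons 0x9834560127 .nil) (.node 0 4 .nil (.node 1 9 (.cons 0x7832190654 (.cons 0x3276540891 .nil)) (.leaf 0x2198765403 3 (.node 1 6 (.cons 0x5432761980 (.cons 0x9876123045 (.cons 0x5408916723 .nil))) .done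 .done)) (.node 0 5 (.cons 0x7650981234 .nil) (.node 0 2 .nil (.node 3 9 (.cons 0x8934567210 (.cons 0x8934567201 .nil)) (.node 3 6 (.cons 0x7890456321 .nil) (.leaf 0x127893654 0 (.node 5 9 (.cons 0x8954301276 (.cons 0x7201895634 (.cons 0x7204365981 .nil))) (.leaf 0x276345981 1 .done) .done)) .done) .done) .done) .done)) (.node 1 7 (.cons 0x7123890654 .nil) (.node 3 7 (.cons 0x9837210654 .nil) (.node 1 3 (.cons 0x9801345672 .nil) (.node 1 6 .nil (.node 0 4 (.cons 0x9045612387 (.cons 0x2378904561 .nil)) (.leaf 0x8904561237 2 .done) .done) .done) .done) (.node 7 9 (.cons 0x6543897210 .nil) (.node 3 7 (.cons 0x9837210654 .nil) (.node 4 7 (.cons 0x5674321890 .nil) (.leaf 0x983217456 1 .done) .done) (.leaf 0x8345601279 3 .done)) .done)) .done)) .done)) .done))) .done)))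
noncomputable def tc9_4_17 : T := (.node 0 3 (.cons 0x4567890321 .nil) (.node 0 8 .nil (.node 1 9 (.cons 0x7654321980 .nil) (.leaf 0x2345670891 2 (.node 3 9 (.cons 0x7654398012 .nil) (.node 2 8 (.cons 0x7654398210 .nil) (.leaf 0x3982107654 0 (.node 3 8 (.cons 0x7654389012 .nil) (.node 2 4 (.cons 0x9834210765 (.cons 0x3987654210 (.cons 0x9387654210 (.cons 0x9387601245 .nil)))) .done (.node 2 7 (.cons 0x2765438901 (.cons 0x8934567210 (.cons 0x6541093872 .nil))) (.leaf 0x9065412783 0 .done) .done)) .done)) (.node 1 5 (.cons 0x8907651234 (.cons 0x9807651234 (.cons 0x6780932154 .nil))) (.node 1 6 (.cons 0x7890321654 .nil) (.node 5 7 (.cons 0x6754321890 (.cons 0x6754398012 (.cons 0x9081234576 (.cons 0x9807561432 (.cons 0x2167543980 .nil))))) .done .done) .done) (.leaf 0x876541239 2 .done))) (.leaf 0x8912345670 3 .done))) (.node 3 8 (.cons 0x7654389012 .nil) (.node 4 8 (.cons 0x5670984321 .nil) (.node 0 5 .nil (.node 7 9 (.cons 0x9783214560 (.cons 0x6798345012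 (.cons 0x6507983412 .nil))) (.leaf 0x5432189760 1 .done) (.node 7 9 (.cons 0x9783214560 .nil) (.leaf 0x4123879065 1 (.node 4 9 (.cons 0x5490678123 .nil) (.node 0 4 .nil (.node 1 9 (.cons 0x2387914560 (.cons 0x5604197832 (.cons 0x5406791832 .nil))) .done .done) .done) (.node 4 6 (.cons 0x3897056412 .nil) (.leaf 0x564123897 0 (.leaf 0x5079832146 2 .done)) .done))) .done)) .done) (.node 7 9 (.cons 0x8790654123 .nil) (.node 3 9 .nil (.node 2 8 (.cons 0x7654398210 .nil) (.node 1 3 (.cons 0x7654310982 .nil) (.node 1 5 (.cons 0x8907651234 (.cons 0x6790823451 (.cons 0x9760823154 .nil))) .done (.leaf 0x8231456097 0 .done)) (.leaf 0x3982107654 0 .done)) (.node 3 6 (.cons 0x8790632145 .nil) (.node 3 5 (.cons 0x9067812354 .nil) (.node 3 7 (.cons 0x6541237890 .nil) .done .done) .done) .done)) (.node 3 9 .nil (.node 2 8 (.cons 0x3287906541 (.cons 0x7654398210 .nil)) (.leaf 0x3982107654 0 .done) (.node 4 9 (.cons 0x5490678123 .nil) (.node 4 8 (.cons 0x5670984321 .nil)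 (.node 2 8 (.cons 0x3287906541 .nil) (.node 5 8 (.cons 0x4587609321 .nil) (.node 6 8 (.cons 0x7860932145 .nil) .done .done) .done) .done) .done) .done)) (.leaf 0x654123879 0 .done))) .done)) .done)) (.node 0 4 .nil (.node 3 9 (.cons 0x1239876540 .nil) (.node 3 6 (.cons 0x9870412365 (.cons 0x7890412365 .nil)) (.node 1 7 (.cons 0x2365417890 .nil) (.leaf 0x5409871236 2 (.node 2 5 (.cons 0x9063254187 (.cons 0x4107893652 (.cons 0x9045236781 (.cons 0x7632540981 .nil)))) (.leaf 0x452367189 2 .done) .done)) .done) (.leaf 0x4567893210 2 (.leaf 0x2390456781 3 (.leaf 0x456781239 2 .done)))) (.node 4 8 (.cons 0x5670984321 .nil) (.node 4 6 (.cons 0x5467890321 .nil) (.node 4 9 (.cons 0x5490678123 .nil) (.node 0 8 .nil (.node 1 5 (.cons 0x9843215670 (.cons 0x9807651234 (.cons 0x6780945123 .nil))) (.leaf 0x7651234890 2 .done) (.node 1 5 (.cons 0x9843215670 .nil) (.node 3 8 (.cons 0x9451238760 .nil) (.leaf 0x6783215490 0 (.leaf 0x7609451238 2 .done)) (.node 0 5 .nil (.node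 5 9 (.cons 0x1234895670 .nil) (.leaf 0x1895076432 2 (.leaf 0x7659843210 2 (.leaf 0x7059812346 2 (.leaf 0x678123459 0 .done)))) (.node 0 2 .nil (.node 1 7 (.cons 0x9845032176 .nil) (.leaf 0x2345671890 1 .done) .done) .done)) (.leaf 0x7651234890 2 .done))) .done)) .done) .done) (.node 4 6 (.cons 0x5467890321 .nil) (.node 4 9 (.cons 0x5490678123 .nil) (.node 0 8 .nil (.node 1 5 (.cons 0x9876451230 (.cons 0x9807651234 (.cons 0x6780945123 (.cons 0x9803215467 .nil)))) .done (.node 0 5 (.cons 0x9876450321 .nil) (.node 4 7 (.cons 0x6745098123 .nil) (.node 0 2 .nil (.node 1 7 (.cons 0x9807123465 .nil) (.leaf 0x2345671890 1 .done) .done) .done) .done) .done)) .done) .done) .done)) .done)) (.leaf 0x9876541230 2 .done))) (.node 3 7 (.cons 0x6541237890 .nil) (.node 1 7 .nil (.node 0 8 (.cons 0x9806541237 (.cons 0x9806541732 .nil)) (.node 0 5 (.cons 0x9812376054 (.cons 0x6718905432 .nil)) (.node 0 2 (.cons 0x8902345671 .nil) (.leaf 0x4320981765 0 (.node 0 3 (.cons 0x4567890321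 (.cons 0x6541789032 .nil)) .done .done)) .done) .done) (.node 2 7 (.cons 0x8901276543 .nil) (.node 5 7 (.cons 0x6754321890 .nil) (.node 4 7 (.cons 0x5476098123 .nil) (.node 7 9 (.cons 0x8973214560 .nil) .done .done) (.node 4 7 (.cons 0x5476098123 .nil) (.node 7 9 (.cons 0x8973214560 .nil) .done .done) .done)) .done) .done)) (.node 1 7 .nil (.node 3 8 (.cons 0x7654389012 (.cons 0x7123890654 (.cons 0x7145609832 .nil))) (.node 4 9 (.cons 0x8123760945 (.cons 0x5498321760 (.cons 0x5607149832 .nil))) (.leaf 0x1706549832 3 .done) (.node 1 3 .nil (.node 2 8 (.cons 0x1765432890 (.cons 0x7654310982 (.cons 0x7132890654 .nil))) (.leaf 0x1345670982 2 .done) (.node 3 6 (.cons 0x2365417890 .nil) (.node 2 4 (.cons 0x5421098763 .nil) (.leaf 0x124563789 2 (.leaf 0x6542109873 2 (.node 5 7 (.cons 0x7541890632 (.cons 0x8907563412 .nil)) (.leaf 0x1423890657 3 .done) .done))) .done) .done)) .done)) (.node 2 7 (.cons 0x8901276543 .nil) (.node 0 8 (.cons 0x9087321456 .nil) (.node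 7 9 (.cons 0x6543217980 .nil) (.node 4 7 (.cons 0x9806547123 .nil) (.node 5 7 (.cons 0x6754321890 .nil) .done .done) (.leaf 0x8971234560 3 .done)) (.node 2 9 (.cons 0x1765432980 .nil) (.node 1 3 (.cons 0x7132980654 .nil) (.node 4 7 (.cons 0x3298065471 .nil) (.leaf 0x2980654713 0 (.node 4 8 (.cons 0x5670984321 .nil) (.node 0 2 (.cons 0x9802345671 .nil) (.node 2 4 (.cons 0x5608924713 .nil) .done .done) .done) .done)) .done) (.leaf 0x6710892345 0 (.leaf 0x5417329806 1 .done))) .done)) .done) .done)) (.node 2 7 (.cons 0x8901276543 .nil) (.node 0 8 (.cons 0x9801276543 .nil) (.node 0 3 (.cons 0x4567890321 .nil) (.node 0 5 .nil (.node 6 9 (.cons 0x7210896543 (.cons 0x1896723450 (.cons 0x6980543721 .nil))) (.leaf 0x1237896054 1 .done) (.node 6 9 (.cons 0x1896723450 .nil) (.leaf 0x4327056981 1 (.node 1 7 (.cons 0x1723456980 .nil) (.leaf 0x4569801723 1 .done) (.leaf 0x2734569801 3 .done))) .done)) (.leaf 0x9876541230 2 .done)) (.node 1 7 (.cons 0x9806541723 .nil)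 (.node 2 6 (.cons 0x9087145623 .nil) (.node 1 9 (.cons 0x8091765432 .nil) (.leaf 0x873265419 2 (.leaf 0x4190873265 3 .done)) (.node 1 6 (.cons 0x9807234165 .nil) (.node 1 5 (.cons 0x8907651234 .nil) (.node 5 9 (.cons 0x6598072341 .nil) (.leaf 0x8072341659 0 (.leaf 0x1437265980 2 (.leaf 0x4372659801 3 .done))) .done) .done) .done)) .done) .done)) (.node 0 3 (.cons 0x4567890321 .nil) (.node 7 9 (.cons 0x8790321456 .nil) (.node 2 6 (.cons 0x8790326541 .nil) (.leaf 0x7903265418 3 (.node 1 7 .nil (.node 2 8 (.cons 0x3289714560 .nil) (.leaf 0x6541798230 1 (.leaf 0x6541798230 0 .done)) (.node 2 8 (.cons 0x3289714560 .nil) (.leaf 0x6541798230 1 (.leaf 0x6541798230 0 .done)) .done)) .done)) (.node 2 6 (.cons 0x8126790345 .nil) (.node 5 8 (.cons 0x9854376210 .nil) (.leaf 0x1430798562 2 (.leaf 0x3458126790 0 (.leaf 0x4126589703 3 (.leaf 0x7345890126 1 .done)))) (.node 6 9 .nil (.node 5 8 (.cons 0x4589067321 (.cons 0x7321458960 (.cons 0x8543721096 (.cons 0x1854327690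 (.cons 0x3458127690 .nil))))) .done (.node 6 8 (.cons 0x5437689012 .nil) (.leaf 0x1456879032 1 (.node 3 5 (.cons 0x7098653412 .nil) (.leaf 0x1435689072 0 (.node 0 5 (.cons 0x6905418723 .nil) (.node 1 7 (.cons 0x4356890712 .nil) (.leaf 0x5623417890 1 .done) .done) (.leaf 0x6890721435 3 .done))) .done)) .done)) .done)) .done)) (.node 0 2 .nil (.node 1 7 (.cons 0x8902345671 .nil) (.leaf 0x4320981765 0 (.leaf 0x2345671890 1 .done)) (.node 0 8 .nil (.node 3 9 (.cons 0x7654398012 .nil) (.node 0 4 (.cons 0x8765409321 .nil) (.node 0 5 (.cons 0x6781239054 .nil) .done .done) (.leaf 0x8093214567 0 (.leaf 0x876541239 2 .done))) (.node 0 4 .nil (.node 1 7 (.cons 0x9871230456 .nil) (.node 3 6 (.cons 0x9087236541 (.cons 0x9870412365 (.cons 0x9087145632 (.cons 0x7890412365 (.cons 0x2365417890 .nil))))) .done .done) (.node 3 9 (.cons 0x8765409321 .nil) (.leaf 0x2390456781 3 (.leaf 0x456781239 2 .done)) .done)) .done)) .done)) (.leaf 0x9876541230 2 .done))) .done)) (.leaf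 0x4560987321 2 .done)))) (.node 0 8 .nil (.node 1 9 (.cons 0x7654321980 .nil) (.leaf 0x2345670891 2 (.node 2 7 (.cons 0x3278906541 (.cons 0x9801276543 .nil)) (.node 4 8 (.cons 0x5672348091 (.cons 0x5672190843 .nil)) (.node 5 9 (.cons 0x3278419560 (.cons 0x7234806591 (.cons 0x1956723480 (.cons 0x6721809543 .nil)))) (.leaf 0x7659843210 2 .done) .done) (.node 1 3 (.cons 0x7890654132 .nil) (.node 2 9 (.cons 0x7892314560 .nil) (.leaf 0x8706541329 3 (.leaf 0x3145607892 2 .done)) (.node 7 9 (.cons 0x8790654132 (.cons 0x8097654312 .nil)) (.node 2 9 (.cons 0x6541329780 .nil) (.node 3 7 (.cons 0x6541237890 (.cons 0x5437601892 .nil)) .done (.leaf 0x5413297806 3 (.leaf 0x3290876541 3 .done))) .done) .done)) .done)) (.leaf 0x8912345670 3 .done))) (.node 0 3 (.cons 0x4567890321 .nil) (.node 1 3 (.cons 0x7890654132 .nil) (.node 0 4 .nil (.node 2 9 (.cons 0x7892314560 (.cons 0x5406789231 (.cons 0x7892314065 .nil))) (.leaf 0x4567892310 2 (.leaf 0x3145607892 2 .done)) (.node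 3 6 (.cons 0x5409876321 .nil) (.node 0 5 (.cons 0x7890563214 .nil) (.node 4 7 (.cons 0x5632147890 .nil) (.leaf 0x2189054763 1 (.leaf 0x2189054763 0 (.leaf 0x3650987412 2 (.leaf 0x6321478905 3 .done)))) .done) .done) .done)) (.node 3 6 .nil (.node 0 4 (.cons 0x5409876321 .nil) (.node 0 5 (.cons 0x7632189054 .nil) .done .done) (.node 0 4 (.cons 0x9870412365 .nil) (.node 3 8 (.cons 0x7654389012 .nil) (.node 0 5 (.cons 0x9870563214 .nil) (.node 0 2 .nil (.node 1 7 (.cons 0x9834567102 (.cons 0x9023871456 .nil)) (.leaf 0x4320981765 0 .done) .done) .done) .done) .done) .done)) .done)) (.node 0 4 .nil (.node 3 9 (.cons 0x1239876540 .nil) (.node 0 5 (.cons 0x6781239054 .nil) (.node 1 5 (.cons 0x7609815432 (.cons 0x4156078932 (.cons 0x4518760932 .nil))) .done .done) (.leaf 0x4567893210 2 (.leaf 0x2390456781 3 (.leaf 0x456781239 2 .done)))) (.node 3 9 (.cons 0x8765409321 .nil) (.node 1 7 (.cons 0x8712390456 .nil) (.node 0 2 (.cons 0x4560239871 .nil) (.node 0 5 (.cons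 0x9817605432 .nil) .done .done) (.node 0 5 .nil (.node 3 6 (.cons 0x9087123654 (.cons 0x9870563214 (.cons 0x7890563214 .nil))) (.leaf 0x541236789 0 .done) (.node 0 2 .nil (.node 1 5 (.cons 0x7609815432 (.cons 0x9815432067 .nil)) .done .done) .done)) .done)) (.leaf 0x2390456781 3 (.leaf 0x456781239 2 .done))) .done)) .done)) .done)) .done)))
noncomputable def tc9_4_18 : T := (.node 1 7 .nil (.node 2 8 (.cons 0x1765432890 .nil) (.node 5 9 (.cons 0x1432895670 (.cons 0x3412895670 .nil)) (.leaf 0x6701432895 2 (.node 0 8 (.cons 0x6598071432 .nil) (.node 3 6 (.cons 0x4123659870 (.cons 0x7012895634 (.cons 0x9087123654 (.cons 0x7014365982 .nil)))) (.node 3 9 (.cons 0x5670143982 .nil) (.node 0 6 (.cons 0x7609812345 (.cons 0x8706593214 (.cons 0x7065982341 .nil))) (.node 1 6 (.cons 0x7809321654 .nil) .done .done) (.leaf 0x1289345670 1 .done)) .done) .done) (.leaf 0x7659823410 0 .done))) (.node 3 9 (.cons 0x7654398210 (.cons 0x2893456710 .nil)) (.node 0 6 (.cons 0x7893214560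 (.cons 0x8712390654 (.cons 0x2398714560 .nil))) (.node 4 8 (.cons 0x5670984321 (.cons 0x5607148932 .nil)) (.leaf 0x2170654893 2 (.leaf 0x1706548932 3 .done)) .done) (.leaf 0x1289345670 1 (.node 0 4 (.cons 0x5678932140 (.cons 0x6540987123 (.cons 0x5671043982 .nil))) (.node 0 5 (.cons 0x4123987650 (.cons 0x6718905432 .nil)) (.leaf 0x1289340567 2 (.node 0 6 (.cons 0x7609812345 .nil) (.node 0 3 (.cons 0x9876541230 (.cons 0x9871456032 .nil)) (.leaf 0x1765430982 2 .done) .done) .done)) (.node 5 8 (.cons 0x6589071234 .nil) (.leaf 0x2340985671 0 (.node 2 6 (.cons 0x9340176285 (.cons 0x5890432671 (.cons 0x5893267140 .nil))) (.leaf 0x8562341709 0 .done) (.node 2 4 (.cons 0x8567124390 (.cons 0x6589071243 .nil)) (.node 0 5 (.cons 0x4123987650 (.cons 0x9340582176 (.cons 0x1423987650 .nil))) (.leaf 0x1243987650 2 (.leaf 0x9876501423 3 .done)) .done) .done))) .done)) .done))) (.node 0 3 (.cons 0x9876541230 .nil) (.leaf 0x4567128903 2 (.node 4 8 (.cons 0x5670984321 .nil)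 (.node 0 5 (.cons 0x6718905432 .nil) (.leaf 0x9843217650 3 (.leaf 0x6712348905 2 (.leaf 0x7650984321 0 .done))) (.node 4 6 (.cons 0x9870321465 (.cons 0x5643289071 .nil)) (.node 5 9 (.cons 0x3218764590 (.cons 0x6598234170 (.cons 0x8217095643 .nil))) (.leaf 0x1230789564 0 (.node 0 8 (.cons 0x7645908123 (.cons 0x9564170823 .nil)) .done .done)) .done) .done)) (.leaf 0x9821765430 3 (.leaf 0x5430982176 0 .done)))) (.leaf 0x6710982345 0 .done)))) (.node 2 7 (.cons 0x8901276543 .nil) (.node 0 8 (.cons 0x9801276543 .nil) (.node 3 7 (.cons 0x9801273456 .nil) (.node 7 9 (.cons 0x8097123456 .nil) (.node 2 8 (.cons 0x6543280971 .nil) (.node 1 6 (.cons 0x1654327980 .nil) (.node 1 3 (.cons 0x6543108972 .nil) (.node 2 6 (.cons 0x8972654310 .nil) (.leaf 0x4562798013 2 (.leaf 0x9726543108 2 .done)) .done) (.leaf 0x971654328 1 .done)) .done) (.node 5 7 (.cons 0x6754321890 .nil) (.node 4 7 .nil (.node 1 5 (.cons 0x8907651234 (.cons 0x8907432156 .nil)) (.node 6 9 (.cons 0x6908175432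 (.cons 0x5698012743 (.cons 0x5698074123 .nil))) (.leaf 0x7089651234 1 .done) .done) .done) .done) .done)) (.node 5 7 (.cons 0x6754321890 .nil) (.node 7 9 (.cons 0x8097123456 .nil) (.node 4 7 .nil (.node 1 5 (.cons 0x8907651234 (.cons 0x8907432156 .nil)) (.node 3 6 (.cons 0x9807563412 (.cons 0x6321547980 (.cons 0x9087456321 (.cons 0x9801274365 .nil)))) .done .done) .done) .done) .done) .done)) (.node 1 5 (.cons 0x9807651432 .nil) (.node 1 3 (.cons 0x9801345672 .nil) (.node 1 9 (.cons 0x5670891432 .nil) (.node 1 6 .nil (.node 2 9 (.cons 0x3456729801 (.cons 0x4561780923 .nil)) (.leaf 0x892765431 2 (.leaf 0x4329807651 2 .done)) .done) .done) .done) (.node 1 6 .nil (.node 0 3 (.cons 0x9876541230 (.cons 0x7890321654 (.cons 0x9803276154 .nil))) (.node 0 4 (.cons 0x7890456123 (.cons 0x5409876123 .nil)) (.node 1 9 (.cons 0x7234561980 (.cons 0x5672340891 .nil)) .done .done) .done) (.node 1 3 (.cons 0x9801345672 .nil) (.node 1 9 (.cons 0x5670891432 .nil) .done .done)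 .done)) .done)) .done)) (.node 1 5 (.cons 0x8907651234 .nil) (.node 4 8 (.cons 0x5670984321 .nil) (.node 2 4 .nil (.node 3 8 (.cons 0x7654389012 (.cons 0x9834210765 .nil)) (.leaf 0x2438907651 2 (.leaf 0x983421567 2 .done)) (.node 0 8 .nil (.node 1 9 (.cons 0x7654321980 .nil) (.leaf 0x2345670891 2 (.node 1 3 (.cons 0x9087654231 .nil) (.leaf 0x7654231908 0 .done) (.leaf 0x8912345670 3 .done))) (.node 1 3 (.cons 0x9087654231 .nil) (.node 1 9 (.cons 0x3245678091 .nil) (.leaf 0x6542319087 3 .done) .done) .done)) .done)) (.leaf 0x984321567 2 (.node 4 7 (.cons 0x8907432156 .nil) (.node 1 3 (.cons 0x5670984312 .nil) (.node 4 6 (.cons 0x2315647890 .nil) (.node 2 4 (.cons 0x6513247890 .nil) (.node 1 6 (.cons 0x5613247890 .nil) (.node 0 6 (.cons 0x5609874231 .nil) (.node 1 9 (.cons 0x5607891423 .nil) .done .done) .done) .done) .done) .done) .done) .done))) (.node 1 6 .nil (.node 0 5 (.cons 0x8905432761 .nil) (.leaf 0x3450981672 0 (.leaf 0x4327618905 2 (.node 4 8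 (.cons 0x5670984321 (.cons 0x7098432165 (.cons 0x3276154890 .nil))) (.node 3 6 (.cons 0x9843612705 (.cons 0x9054872163 (.cons 0x7216348905 (.cons 0x9872361450 .nil)))) .done .done) .done))) (.node 1 3 .nil (.node 4 8 (.cons 0x5670984321 (.cons 0x6723154890 (.cons 0x5670984312 .nil))) (.node 6 8 (.cons 0x9071234865 (.cons 0x4513276890 (.cons 0x5431276890 .nil))) (.node 5 8 (.cons 0x6721098543 (.cons 0x6721345890 .nil)) (.node 0 2 (.cons 0x9856702341 (.cons 0x9856702314 .nil)) (.node 0 6 (.cons 0x9067185432 (.cons 0x9854132760 (.cons 0x9065487132 .nil))) .done (.leaf 0x9854316720 2 .done)) .done) .done) .done) (.node 1 9 .nil (.node 0 8 (.cons 0x5670891432 .nil) (.leaf 0x2345670891 2 (.node 5 7 (.cons 0x6754321890 (.cons 0x6570891234 (.cons 0x6570891432 .nil))) (.node 5 8 (.cons 0x6721098543 (.cons 0x4321985670 (.cons 0x2341985670 .nil))) .done .done) .done)) .done) .done)) .done)) .done)) .done)) .done)) (.node 0 8 (.cons 0x9087654123 .nil) (.node 1 7 .nil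 (.node 2 8 (.cons 0x1765432890 .nil) (.node 3 9 (.cons 0x8765412390 (.cons 0x1456782390 .nil)) (.leaf 0x4567823901 0 (.leaf 0x1289345670 1 (.node 4 6 (.cons 0x7809321465 (.cons 0x9807123465 (.cons 0x5641780932 .nil))) (.node 2 5 (.cons 0x7125643980 (.cons 0x4652178093 (.cons 0x8907125643 .nil))) (.leaf 0x1256439807 3 .done) .done) .done))) (.node 4 8 (.cons 0x5670984321 .nil) (.node 0 5 (.cons 0x6718905432 .nil) (.leaf 0x9843217650 3 (.leaf 0x6712348905 2 (.leaf 0x7650984321 0 .done))) (.node 3 9 (.cons 0x7654398210 (.cons 0x2893456710 .nil)) (.node 0 6 (.cons 0x7609812345 (.cons 0x3906548712 (.cons 0x9328714560 .nil))) (.node 3 5 (.cons 0x6539078412 (.cons 0x4893560712 (.cons 0x9356071284 (.cons 0x9356071482 .nil)))) .done .done) (.leaf 0x1289345670 1 (.node 0 5 (.cons 0x3905678412 (.cons 0x9348217650 (.cons 0x6718905432 .nil))) (.leaf 0x9321487650 3 .done) .done))) .done)) (.leaf 0x6710982345 0 .done))) (.node 1 5 (.cons 0x8907651234 .nil) (.node 4 8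 (.cons 0x5670984321 .nil) (.node 2 8 .nil (.node 4 6 (.cons 0x9807123465 (.cons 0x9823465170 (.cons 0x7098215643 .nil))) .done (.node 3 8 (.cons 0x7654389012 .nil) (.node 2 9 (.cons 0x2983456710 .nil) (.leaf 0x4567832901 0 (.node 6 8 (.cons 0x7098651234 .nil) (.node 5 8 (.cons 0x5867092143 .nil) .done .done) (.leaf 0x4567832901 1 .done))) .done) .done)) (.leaf 0x984321567 2 (.node 1 3 (.cons 0x5670984312 .nil) (.node 4 6 (.cons 0x9807123465 .nil) (.node 1 9 (.cons 0x7089123465 .nil) (.node 1 6 .nil (.node 5 7 (.cons 0x6754321890 (.cons 0x2345761890 .nil)) (.leaf 0x1657098432 2 (.leaf 0x8075643219 0 .done)) .done) .done) (.node 0 4 (.cons 0x7890465132 .nil) (.node 4 7 (.cons 0x2315647890 .nil) .done .done) .done)) .done) .done))) (.node 4 8 (.cons 0x5670984321 .nil) (.leaf 0x7651234890 2 (.node 0 4 .nil (.node 3 8 (.cons 0x7654389012 (.cons 0x9832156704 (.cons 0x7651238904 .nil))) .done (.node 1 6 (.cons 0x5409876123 .nil) (.node 1 3 (.cons 0x4890765132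 .nil) (.node 1 9 .nil (.node 2 5 (.cons 0x9078413256 (.cons 0x1984325670 (.cons 0x8432567091 (.cons 0x6523489170 .nil)))) .done .done) .done) .done) .done)) (.node 4 6 (.cons 0x9807123465 .nil) (.node 0 5 (.cons 0x9812346705 .nil) (.node 3 9 (.cons 0x9321876450 .nil) (.node 2 5 (.cons 0x3489076521 .nil) (.leaf 0x1078934652 2 (.leaf 0x125643987 0 .done)) (.leaf 0x7812390546 3 (.node 1 3 (.cons 0x5670984312 .nil) (.node 1 9 (.cons 0x7089123465 .nil) .done .done) (.leaf 0x8764509321 2 .done)))) (.node 1 6 (.cons 0x7618905432 .nil) (.node 1 3 (.cons 0x5670984312 .nil) (.node 1 9 (.cons 0x4650789132 .nil) .done .done) .done) .done)) (.node 2 5 (.cons 0x3489076521 .nil) (.leaf 0x6709815234 0 (.leaf 0x6709815234 1 (.node 4 7 (.cons 0x6470981523 .nil) (.node 0 4 .nil (.node 1 3 (.cons 0x5670984312 (.cons 0x9871325640 .nil)) (.leaf 0x6409871325 2 .done) .done) .done) .done))) .done)) .done))) .done)) .done)) (.node 1 7 .nil (.node 2 9 (.cons 0x3290876541 (.cons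 0x6541780923 (.cons 0x8092341765 .nil))) (.node 3 9 (.cons 0x8765412390 (.cons 0x6541780932 .nil)) (.node 3 6 (.cons 0x5436710892 .nil) (.leaf 0x871456329 0 (.leaf 0x7809236541 1 (.node 0 2 (.cons 0x9023678145 (.cons 0x4563209871 .nil)) (.leaf 0x3456718902 2 (.leaf 0x3654178902 1 .done)) .done))) (.node 2 8 (.cons 0x1456782390 (.cons 0x2893456710 (.cons 0x6541782390 (.cons 0x9082341765 .nil)))) .done .done)) (.node 0 4 (.cons 0x6540987123 .nil) (.node 3 8 (.cons 0x7654389012 (.cons 0x7654012983 (.cons 0x9041238765 .nil))) (.node 4 6 (.cons 0x9238071465 (.cons 0x8329071465 (.cons 0x5643890712 .nil))) .done .done) (.node 0 2 (.cons 0x9802345671 .nil) (.leaf 0x4320981765 0 (.leaf 0x3456718902 2 (.node 0 3 (.cons 0x4567890321 .nil) (.node 3 6 (.cons 0x5409876321 (.cons 0x5408923671 (.cons 0x4563209871 .nil))) (.leaf 0x2098714563 2 .done) .done) .done))) .done)) .done)) (.node 1 5 (.cons 0x8907651234 .nil) (.node 1 3 (.cons 0x9087654132 .nil) (.node 1 9 (.cons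 0x2345671980 .nil) (.node 1 6 .nil (.node 2 9 (.cons 0x1765432980 (.cons 0x7165432980 (.cons 0x5416780923 .nil))) (.leaf 0x6710892345 0 .done) .done) .done) .done) (.node 1 6 .nil (.node 0 4 (.cons 0x7890456123 (.cons 0x5409876123 .nil)) (.node 2 9 (.cons 0x1765432980 (.cons 0x7165432980 (.cons 0x5416780923 (.cons 0x3298045671 .nil)))) (.leaf 0x6710892345 0 .done) .done) (.node 1 3 (.cons 0x9087654132 .nil) (.node 1 9 (.cons 0x2345671980 .nil) .done .done) .done)) .done)) .done)) .done)) (.node 0 6 (.cons 0x7890654123 .nil) tc9_4_17 .done)))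
noncomputable def uc9_4_4 : T := (.leaf 0x2345670981 2 (.leaf 0x3218907654 0 (.node 1 4 (.cons 0x3214567890 .nil) tc9_4_18 (.node 2 7 (.cons 0x8901276543 .nil) (.node 0 8 (.cons 0x9801276543 .nil) tc9_4_16 (.node 1 7 .nil tc9_4_15 (.node 2 8 .nil tc9_4_13 .done))) .done))))
theorem sub_c9_4_4 : root 9 refs9_4 [] 0x700000008703000000003060000040060500000000504000000004030000000030100000000102000000002018040000010 0xfe7fff77ffa7ff9fffcfffe7fff5fff9fff9feed 9 1 8 (.cons 0x7654321890 .nil) uc9_4_4 = true := by decide +kernel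
noncomputable def tc9_4_19 : T := (.node 1 6 (.cons 0x8907612345 .nil) (.node 1 3 .nil (.node 5 8 (.cons 0x6709854321 (.cons 0x4310985672 (.cons 0x4312765890 .nil))) (.node 4 8 (.cons 0x5672109843 (.cons 0x5672134890 .nil)) (.node 0 5 (.cons 0x6789054123 (.cons 0x4890567231 (.cons 0x6789054132 .nil))) (.leaf 0x6721348905 2 .done) .done) .done) (.node 3 8 (.cons 0x7654389012 .nil) (.leaf 0x1098345672 1 (.node 0 3 (.cons 0x4567890321 .nil) (.node 3 5 (.cons 0x8901276534 .nil) (.node 3 6 (.cons 0x5412367890 .nil) (.node 3 7 .nil (.node 0 6 (.cons 0x8906732145 .nil) (.node 3 9 (.cons 0x4539876012 .nil) .done .done) .done) .done) (.node 3 6 (.cons 0x5412367890 .nil) (.node 3 7 .nil (.node 0 4 (.cons 0x9810435672 (.cons 0x6540987321 .nil)) (.node 2 9 (.cons 0x2987635410 (.cons 0x4563789210 (.cons 0x1892376540 .nil))) (.leaf 0x1892765340 2 .done) .done) .done) .done) .done)) (.node 1 9 .nil (.node 2 4 (.cons 0x9810342765 (.cons 0x1987654230 (.cons 0x9187654230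 (.cons 0x8719032456 .nil)))) .done (.node 1 5 .nil (.node 6 8 (.cons 0x5143276890 (.cons 0x5143098672 .nil)) (.node 0 8 (.cons 0x9086543217 .nil) .done .done) .done) .done)) .done)) (.node 1 5 (.cons 0x4389015672 .nil) (.node 1 9 .nil (.node 0 4 (.cons 0x4098327651 (.cons 0x2387654091 (.cons 0x6540917832 .nil))) (.leaf 0x7238904156 2 .done) .done) .done) .done))) .done)) (.node 5 8 (.cons 0x6709854321 .nil) (.node 1 5 .nil (.node 3 8 (.cons 0x7654389012 (.cons 0x4516709832 .nil)) (.leaf 0x1098345672 1 (.node 4 8 (.cons 0x5489076123 (.cons 0x1567234890 .nil)) (.node 6 8 (.cons 0x9071234586 (.cons 0x5143276890 .nil)) .done .done) .done)) .done) (.node 1 5 (.cons 0x6723415890 .nil) (.node 1 3 (.cons 0x4589076132 .nil) (.node 1 9 .nil (.node 0 3 (.cons 0x4567890321 (.cons 0x6785419032 .nil)) (.leaf 0x9854167230 0 (.node 0 4 (.cons 0x5890416723 (.cons 0x9185672340 .nil)) (.leaf 0x9876540321 2 .done) .done)) .done) .done) .done) (.leaf 0x7098543216 1 .done)))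 .done)) (.node 5 8 (.cons 0x6709854321 .nil) (.node 3 8 (.cons 0x7654389012 .nil) (.leaf 0x1098345672 1 (.node 2 8 .nil (.node 0 8 (.cons 0x9082345671 .nil) .done (.node 1 5 .nil (.node 0 4 (.cons 0x9856721043 (.cons 0x8904327651 .nil)) (.leaf 0x3276518904 2 (.node 6 8 (.cons 0x9045687123 (.cons 0x5143276890 (.cons 0x7215689043 .nil))) .done .done)) (.node 0 8 .nil (.node 3 6 (.cons 0x5412367890 (.cons 0x9807632154 (.cons 0x9087632145 (.cons 0x9082367154 .nil)))) .done (.node 4 8 (.cons 0x6709845123 .nil) (.node 6 8 .nil (.node 3 5 (.cons 0x1276534890 (.cons 0x9086723514 (.cons 0x7210986534 (.cons 0x4153276890 .nil)))) .done .done) .done) .done)) .done)) .done)) (.node 4 8 (.cons 0x5672109843 .nil) (.node 3 5 (.cons 0x1276534890 .nil) (.leaf 0x2765348901 1 (.node 6 8 (.cons 0x7210986534 .nil) (.node 0 8 .nil (.node 1 6 (.cons 0x9854321670 (.cons 0x9807612345 .nil)) (.leaf 0x8907216534 0 .done) .done) .done) .done)) .done) .done))) (.node 3 8 (.cons 0x7654389012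 .nil) (.node 4 8 (.cons 0x5672109843 .nil) (.node 3 5 (.cons 0x1276534890 .nil) (.leaf 0x2765348901 1 (.node 6 8 (.cons 0x7210986534 .nil) (.node 0 8 .nil (.node 1 6 (.cons 0x7216534890 (.cons 0x9807612345 .nil)) (.leaf 0x8907216534 0 .done) .done) .done) .done)) .done) (.leaf 0x1098345672 1 (.node 0 8 .nil (.node 6 9 (.cons 0x4327185690 (.cons 0x5809671432 (.cons 0x7180965432 .nil))) (.leaf 0x1809654327 1 (.node 1 5 (.cons 0x6723415890 .nil) (.leaf 0x4327690851 3 (.leaf 0x8096723415 2 .done)) .done)) .done) .done))) (.node 1 3 (.cons 0x4312765890 .nil) (.node 1 6 (.cons 0x3458907612 .nil) (.node 3 7 .nil (.node 2 6 (.cons 0x9854312670 (.cons 0x9073458126 (.cons 0x3762145890 .nil))) (.leaf 0x7345890126 1 .done) (.node 3 6 (.cons 0x5412367890 .nil) (.node 3 5 (.cons 0x6721435890 .nil) (.node 0 3 (.cons 0x4567890321 .nil) (.node 3 8 (.cons 0x7654389012 .nil) (.leaf 0x1098345672 1 .done) .done) .done) .done) .done)) (.leaf 0x7098543216 1 .done)) (.node 1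 6 (.cons 0x3458907612 .nil) (.node 3 6 (.cons 0x5412367890 .nil) (.node 0 3 (.cons 0x4567890321 .nil) (.node 2 6 (.cons 0x3458907621 .nil) (.node 0 2 (.cons 0x9021458763 .nil) (.node 0 4 (.cons 0x3409856721 .nil) (.node 0 5 (.cons 0x6789054123 .nil) (.leaf 0x4123678905 1 .done) .done) .done) .done) (.leaf 0x9856721430 0 .done)) (.node 3 8 (.cons 0x7654389012 .nil) (.node 3 7 .nil (.node 0 6 (.cons 0x5890672143 (.cons 0x9065812734 (.cons 0x5890673412 (.cons 0x3760985412 .nil)))) .done .done) (.leaf 0x1098345672 1 .done)) .done)) (.leaf 0x7098543216 1 .done)) .done)) .done))) (.node 1 6 (.cons 0x8907612345 .nil) (.node 0 8 (.cons 0x9807612345 .nil) (.node 3 8 (.cons 0x7654389012 .nil) (.node 1 3 .nil (.node 5 8 (.cons 0x9854321670 (.cons 0x4310985672 (.cons 0x4312765890 .nil))) .done (.node 3 5 (.cons 0x8901276534 .nil) (.node 4 8 (.cons 0x5672109843 .nil) (.leaf 0x6721098435 0 (.leaf 0x2765348901 1 .done)) (.node 3 7 .nil (.node 0 5 (.cons 0x6789054123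 (.cons 0x8905412376 .nil)) (.node 6 9 (.cons 0x9678321450 (.cons 0x9614508732 (.cons 0x5437089612 .nil))) (.leaf 0x1238769054 0 (.leaf 0x1089654372 1 .done)) .done) .done) .done)) .done)) (.leaf 0x1098345672 1 (.node 6 8 (.cons 0x9086543217 .nil) (.node 4 8 (.cons 0x5672109843 .nil) (.node 5 8 (.cons 0x9854321670 .nil) .done .done) .done) .done))) (.node 1 5 (.cons 0x9807615432 .nil) (.node 1 3 .nil (.node 1 9 (.cons 0x8091765432 .nil) (.node 2 4 (.cons 0x8091765423 (.cons 0x7654231980 (.cons 0x9087654231 (.cons 0x9087132456 .nil)))) .done .done) .done) (.node 1 9 (.cons 0x8091765432 .nil) (.node 1 3 .nil (.node 2 4 (.cons 0x9807615423 (.cons 0x9801342765 (.cons 0x9087654231 (.cons 0x9087132456 .nil)))) .done .done) .done) .done)) .done)) (.node 1 9 .nil (.node 0 8 (.cons 0x8091765432 .nil) (.node 4 9 (.cons 0x6549087123 (.cons 0x5671809432 .nil)) (.node 3 5 (.cons 0x8901276534 (.cons 0x1276534980 (.cons 0x8094356721 .nil))) (.leaf 0x8076123549 0 (.node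 2 8 (.cons 0x4356728910 (.cons 0x6534908271 .nil)) (.leaf 0x9082716534 0 .done) .done)) .done) (.node 5 8 (.cons 0x6709854321 (.cons 0x6580917234 .nil)) (.node 0 4 (.cons 0x9854076123 (.cons 0x8765409123 (.cons 0x1985672340 .nil))) .done (.leaf 0x7098543216 1 .done)) .done)) (.node 1 5 .nil (.node 3 8 (.cons 0x7654389012 (.cons 0x4516709832 .nil)) (.node 5 8 (.cons 0x6723415890 .nil) (.node 1 3 .nil (.node 4 8 (.cons 0x5489076123 (.cons 0x2765134890 .nil)) .done .done) (.leaf 0x7098543216 1 .done)) (.node 4 6 (.cons 0x7098321645 (.cons 0x9078321546 (.cons 0x5189076432 (.cons 0x7215643890 .nil)))) (.node 4 7 (.cons 0x5674321890 (.cons 0x2347651890 (.cons 0x6512743890 .nil))) .done .done) (.leaf 0x1098345672 1 .done))) (.node 1 3 .nil (.node 5 8 (.cons 0x6709854321 (.cons 0x4589076132 (.cons 0x4312765890 .nil))) (.node 4 8 (.cons 0x5489076123 (.cons 0x5489076132 (.cons 0x5672134890 .nil))) (.node 2 4 (.cons 0x1324567890 .nil) (.node 3 8 (.cons 0x9834276510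 .nil) (.leaf 0x1098345672 1 .done) (.leaf 0x3167098542 0 (.leaf 0x9876542310 2 .done))) .done) .done) .done) .done)) .done)) .done)) .done)))
noncomputable def tc9_4_20 : T := (.node 1 6 (.cons 0x8907612345 .nil) (.node 1 8 (.cons 0x7654321890 .nil) (.node 1 5 .nil (.node 0 4 (.cons 0x8904327651 .nil) (.leaf 0x2340981567 0 (.leaf 0x3276518904 2 (.node 6 8 (.cons 0x9045687123 (.cons 0x7234098651 (.cons 0x7215689043 .nil))) (.node 3 6 (.cons 0x7890456321 (.cons 0x9872365140 .nil)) (.node 0 3 (.cons 0x9876541230 (.cons 0x9872304156 .nil)) (.node 3 8 (.cons 0x7654389012 (.cons 0x4389015672 .nil)) (.leaf 0x1098345672 1 .done) .done) .done) .done) .done))) (.node 1 3 .nil (.node 5 8 (.cons 0x6709854321 (.cons 0x4310985672 (.cons 0x4312765890 .nil))) (.node 4 8 (.cons 0x6709845123 (.cons 0x6709845132 (.cons 0x5672134890 .nil))) (.node 2 8 (.cons 0x7654310982 .nil) (.node 6 9 (.cons 0x1234589670 (.cons 0x7182345690 (.cons 0x2134589670 .nil))) (.leaf 0x1823456907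 1 .done) .done) .done) .done) (.node 1 9 .nil (.node 0 8 (.cons 0x5672341980 .nil) (.node 6 9 (.cons 0x7180965432 .nil) (.leaf 0x1809654327 1 (.node 3 5 (.cons 0x8901276534 (.cons 0x9801276534 (.cons 0x7218096534 (.cons 0x7214356980 (.cons 0x4356908172 .nil))))) .done .done)) (.node 3 8 (.cons 0x7654389012 .nil) (.node 0 4 (.cons 0x9834012765 (.cons 0x9123876540 (.cons 0x6704519832 .nil))) (.node 0 5 (.cons 0x8914327650 .nil) (.leaf 0x4327650891 0 (.leaf 0x2198340567 0 .done)) .done) (.node 0 4 (.cons 0x9832765140 (.cons 0x2387654091 (.cons 0x6540917832 .nil))) (.node 2 6 (.cons 0x5409876231 (.cons 0x4519832670 (.cons 0x7819045623 (.cons 0x5419832670 .nil)))) .done .done) .done)) .done)) .done) .done)) .done)) (.node 1 3 .nil (.node 5 8 (.cons 0x6709854321 (.cons 0x4310985672 (.cons 0x4312765890 .nil))) (.node 0 4 (.cons 0x9856721043 .nil) (.node 3 9 (.cons 0x4398567210 .nil) (.leaf 0x1276589340 0 (.leaf 0x1276589340 1 (.leaf 0x2390456781 3 (.leaf 0x456781239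 2 .done)))) (.node 5 7 (.cons 0x6754321890 (.cons 0x4098756132 (.cons 0x8904312756 .nil))) .done (.leaf 0x6721340985 2 .done))) (.node 4 8 (.cons 0x5672109843 (.cons 0x5672134890 .nil)) (.node 1 5 (.cons 0x6709845132 .nil) .done .done) .done)) (.node 1 5 .nil (.node 4 8 (.cons 0x5672109843 (.cons 0x1567234890 .nil)) (.node 3 6 (.cons 0x7210984365 (.cons 0x9078451236 .nil)) (.node 0 6 (.cons 0x9065487123 (.cons 0x9845123607 (.cons 0x7234890651 .nil))) (.node 3 7 (.cons 0x9065487321 (.cons 0x6510984372 .nil)) .done .done) (.node 2 4 (.cons 0x7890136542 (.cons 0x9078423615 (.cons 0x1542367890 .nil))) .done .done)) (.node 2 6 (.cons 0x5126709843 .nil) (.node 4 7 (.cons 0x1326547890 .nil) (.leaf 0x9874562310 2 .done) (.leaf 0x3451890762 1 (.node 0 6 (.cons 0x7609812345 (.cons 0x7609815432 .nil)) (.node 4 7 (.cons 0x5609847213 (.cons 0x3156098472 .nil)) .done .done) (.leaf 0x9843156270 0 .done)))) .done)) (.node 1 9 .nil (.node 0 5 (.cons 0x8914327650 .nil)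 (.node 0 8 (.cons 0x5672341980 .nil) (.leaf 0x2341980567 1 (.leaf 0x4327650891 0 .done)) (.node 6 8 (.cons 0x9054321867 (.cons 0x5432198670 (.cons 0x7681905432 .nil))) (.leaf 0x918672345 1 .done) (.node 0 4 (.cons 0x8765409123 (.cons 0x6504198723 .nil)) (.node 3 5 (.cons 0x8901276534 (.cons 0x9045321876 (.cons 0x6723518904 .nil))) (.leaf 0x8761235409 0 .done) .done) .done))) .done) .done)) .done)) .done)) (.node 1 5 .nil (.node 3 8 (.cons 0x7654389012 (.cons 0x4516709832 .nil)) (.node 0 4 (.cons 0x9832167045 (.cons 0x8904327651 .nil)) (.node 2 9 (.cons 0x7654389210 .nil) (.leaf 0x5104389276 2 (.leaf 0x1567298340 3 (.node 5 9 (.cons 0x4389567210 .nil) (.leaf 0x2104389567 2 (.leaf 0x7612389540 0 (.leaf 0x7612389540 1 .done))) .done))) (.node 7 9 (.cons 0x7983216540 (.cons 0x6154079832 (.cons 0x6512798340 .nil))) .done .done)) (.node 4 7 (.cons 0x7456123890 (.cons 0x6154709832 (.cons 0x6512743890 .nil))) .done (.leaf 0x1098345672 1 (.node 2 4 (.cons 0x7651098342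 .nil) (.leaf 0x9015672438 0 (.node 4 7 (.cons 0x5674389012 (.cons 0x2156743890 .nil)) (.node 7 9 (.cons 0x8342109765 (.cons 0x8342156790 .nil)) .done .done) (.leaf 0x9076154238 0 (.leaf 0x1098342765 1 .done)))) .done)))) (.node 5 8 (.cons 0x6709854321 .nil) (.node 3 5 (.cons 0x8901276534 .nil) (.node 4 8 (.cons 0x5489076123 .nil) (.leaf 0x2167098453 0 (.leaf 0x6123548907 1 (.leaf 0x6721098435 0 (.leaf 0x2765348901 1 .done)))) (.node 2 8 (.cons 0x9827653410 .nil) (.node 3 8 (.cons 0x7654389012 .nil) (.leaf 0x1098345672 1 (.node 0 8 (.cons 0x9807614532 .nil) (.node 4 8 (.cons 0x2765348901 .nil) (.leaf 0x9012765348 0 (.node 6 8 (.cons 0x9086517234 .nil) .done .done)) .done) .done)) (.leaf 0x3541670982 0 .done)) .done)) (.node 3 5 (.cons 0x8901276534 .nil) (.node 0 8 (.cons 0x9801276534 .nil) (.node 3 8 (.cons 0x7654389012 .nil) (.leaf 0x1098345672 1 (.node 1 3 (.cons 0x4589076132 .nil) (.node 1 8 (.cons 0x7654321890 .nil) .done .done) .done)) (.node 3 8 (.cons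 0x7654389012 .nil) (.node 5 7 (.cons 0x6572109834 .nil) (.node 4 7 (.cons 0x7456123890 .nil) (.node 7 9 (.cons 0x4356798012 .nil) .done .done) .done) (.leaf 0x1098345672 1 .done)) .done)) (.node 4 8 (.cons 0x5489076123 .nil) (.leaf 0x2167098453 0 (.leaf 0x6123548907 1 (.leaf 0x2765348901 1 .done))) .done)) (.leaf 0x7098543216 1 .done))) .done)) .done)) (.node 0 3 (.cons 0x4567890321 .nil) (.node 3 7 (.cons 0x6541237890 .nil) (.node 0 4 .nil (.node 3 6 (.cons 0x7890412365 (.cons 0x5632789041 .nil)) (.node 5 8 (.cons 0x6709854321 (.cons 0x9854367012 (.cons 0x7210985634 (.cons 0x7214365890 .nil)))) (.leaf 0x9076321458 0 .done) .done) (.node 0 6 (.cons 0x9873214560 .nil) (.leaf 0x1237890654 2 (.node 0 5 .nil (.node 1 8 (.cons 0x7654321890 (.cons 0x9812345076 (.cons 0x9812376054 (.cons 0x7650981234 .nil)))) .done (.node 0 2 .nil (.node 3 6 (.cons 0x5632789041 (.cons 0x7890236541 .nil)) (.leaf 0x1209873654 2 .done) .done) .done)) .done)) .done)) (.node 7 9 (.cons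 0x8790321456 .nil) (.node 5 7 .nil (.node 6 8 (.cons 0x3097865412 (.cons 0x8657903412 (.cons 0x1432756890 (.cons 0x3412756890 .nil)))) (.leaf 0x5723410986 2 .done) (.node 3 5 (.cons 0x8901276534 .nil) (.node 4 7 (.cons 0x8901274356 .nil) .done .done) .done)) .done) .done)) (.node 3 7 (.cons 0x6541237890 .nil) (.node 3 8 (.cons 0x7654389012 .nil) (.leaf 0x1098345672 1 (.node 0 8 .nil (.node 6 9 (.cons 0x4569873012 (.cons 0x7321456980 (.cons 0x5698014372 .nil))) (.leaf 0x1237809654 2 (.node 0 2 (.cons 0x9654120873 .nil) (.leaf 0x5698730214 1 .done) .done)) (.node 0 4 .nil (.node 1 5 (.cons 0x9804327651 (.cons 0x7651238904 .nil)) (.node 2 9 (.cons 0x8092345671 (.cons 0x6540129873 (.cons 0x6734510892 (.cons 0x8921045673 .nil)))) .done .done) (.node 0 6 (.cons 0x9873214560 .nil) (.leaf 0x1237890654 2 (.node 0 2 .nil (.node 6 9 (.cons 0x4569873012 (.cons 0x1456987320 (.cons 0x3789654120 .nil))) (.leaf 0x8730214569 2 .done) .done) .done)) .done)) .done)) (.node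 3 5 (.cons 0x8901276534 .nil) (.node 3 6 .nil (.node 5 8 (.cons 0x6709854321 (.cons 0x9854367012 (.cons 0x7210985634 (.cons 0x7214365890 .nil)))) .done (.node 0 5 (.cons 0x7890563214 .nil) (.node 4 7 (.cons 0x5632147890 .nil) (.leaf 0x3650987412 2 (.leaf 0x6321478905 3 .done)) (.node 5 7 (.cons 0x4123657890 .nil) (.node 0 6 (.cons 0x9873214560 .nil) (.leaf 0x5721438906 2 (.leaf 0x7560983412 0 .done)) .done) .done)) .done)) .done) .done))) (.node 7 9 .nil (.node 6 8 (.cons 0x5689014372 (.cons 0x7986543012 (.cons 0x8654309712 .nil))) (.leaf 0x7903214568 2 (.leaf 0x9786541230 0 .done)) (.node 4 7 (.cons 0x6547890321 .nil) (.node 5 7 .nil (.node 6 8 (.cons 0x8654309712 (.cons 0x9865721034 (.cons 0x9865743012 (.cons 0x1432756890 (.cons 0x3412756890 .nil))))) .done .done) .done) .done)) .done)) (.leaf 0x8903214567 0 (.leaf 0x9876541230 2 .done)))) (.node 1 8 (.cons 0x7654321890 .nil) tc9_4_19 .done)))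
noncomputable def tc9_4_21 : T := (.node 1 6 (.cons 0x8907612345 .nil) (.node 1 8 (.cons 0x7654321890 .nil) (.node 0 8 (.cons 0x9087654123 .nil) (.node 0 4 (.cons 0x9804321765 .nil) (.node 3 8 (.cons 0x7654389012 .nil) (.node 3 6 (.cons 0x9871236540 .nil) (.node 0 3 (.cons 0x4567890321 .nil) (.node 3 7 (.cons 0x6540987321 .nil) .done .done) (.leaf 0x5409871236 2 .done)) (.leaf 0x1098345672 1 (.node 0 3 (.cons 0x4567890321 .nil) (.node 3 7 (.cons 0x6540987321 .nil) .done .done) .done))) (.node 1 5 (.cons 0x8904327651 .nil) (.node 4 7 (.cons 0x6518904723 .nil) (.node 4 6 (.cons 0x8907645123 .nil) (.node 3 9 (.cons 0x7239815640 .nil) (.node 0 5 (.cons 0x6450789321 .nil) (.leaf 0x2398705461 2 (.leaf 0x2105643987 0 .done)) (.leaf 0x2154670893 0 (.leaf 0x8156407239 2 (.leaf 0x1893270465 0 .done)))) .done) .done) .done) .done)) (.node 1 3 (.cons 0x9087654132 .nil) (.node 1 9 (.cons 0x2345671980 .nil) (.node 1 5 .nil (.node 0 4 (.cons 0x9804327156 .nil) (.leaf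 0x2340981567 0 .done) .done) .done) .done) .done)) (.node 1 3 .nil (.node 5 8 (.cons 0x6709854321 (.cons 0x4310985672 (.cons 0x4312765890 .nil))) (.node 0 4 (.cons 0x9856721043 .nil) (.node 4 8 (.cons 0x5672109843 (.cons 0x5672134890 .nil)) (.node 5 7 (.cons 0x6754321890 (.cons 0x9048756132 (.cons 0x4098756132 (.cons 0x8904312756 .nil)))) .done .done) (.leaf 0x6721340985 2 .done)) (.node 2 8 (.cons 0x7654310982 .nil) (.node 3 6 (.cons 0x9821076345 (.cons 0x9014365827 .nil)) (.node 3 7 (.cons 0x9014372856 .nil) .done .done) (.leaf 0x1345672890 2 .done)) .done)) (.node 1 5 .nil (.node 0 4 (.cons 0x8904327651 .nil) (.node 3 5 (.cons 0x9045321876 .nil) (.leaf 0x8761235409 0 (.leaf 0x6789041235 2 .done)) (.node 3 6 (.cons 0x9871236540 (.cons 0x9870451236 (.cons 0x4098723651 .nil))) (.node 0 6 (.cons 0x7609812345 (.cons 0x7609815432 .nil)) (.node 3 7 (.cons 0x6540987321 (.cons 0x4518906732 .nil)) .done .done) .done) .done)) (.node 1 9 .nil (.node 0 8 (.cons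 0x9087654123 (.cons 0x2345671980 .nil)) (.node 3 6 (.cons 0x8907632154 (.cons 0x7809123654 (.cons 0x7809145632 .nil))) (.node 0 4 (.cons 0x8915407632 .nil) (.leaf 0x3219870456 0 .done) .done) (.node 0 4 (.cons 0x9804321765 (.cons 0x5671980432 .nil)) (.node 0 3 (.cons 0x4567890321 (.cons 0x8765419032 .nil)) (.node 0 5 (.cons 0x9805671234 (.cons 0x8917234056 .nil)) .done .done) .done) .done)) .done) .done)) .done)) .done)) (.node 1 5 .nil (.node 0 4 (.cons 0x8904327651 .nil) (.node 3 8 (.cons 0x7654389012 (.cons 0x9832167045 (.cons 0x7612389045 (.cons 0x9041238765 (.cons 0x4516709832 .nil))))) (.node 4 7 (.cons 0x6154709832 (.cons 0x6512743890 .nil)) .done .done) (.node 0 8 (.cons 0x9087654123 (.cons 0x9804327156 .nil)) (.node 7 9 (.cons 0x6517980432 .nil) (.leaf 0x2340897651 0 (.node 3 6 (.cons 0x9871236540 (.cons 0x8972156340 (.cons 0x4098723651 .nil))) (.leaf 0x1563408972 0 (.node 6 9 (.cons 0x3217896540 (.cons 0x8965172340 .nil)) .done .done)) .done))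 .done) .done)) (.node 5 8 (.cons 0x6709854321 .nil) (.node 3 5 (.cons 0x8901276534 .nil) (.node 4 8 (.cons 0x5489076123 .nil) (.leaf 0x2167098453 0 (.leaf 0x6123548907 1 (.leaf 0x6721098435 0 (.leaf 0x2765348901 1 .done)))) (.node 2 8 (.cons 0x4356728901 .nil) (.leaf 0x5341098276 2 (.leaf 0x3567289014 3 .done)) .done)) (.node 1 8 (.cons 0x7654321890 .nil) (.node 1 3 (.cons 0x4589076132 .nil) (.node 1 9 (.cons 0x8567234190 .nil) .done .done) (.node 1 3 (.cons 0x4589076132 .nil) (.node 1 9 (.cons 0x8567234190 .nil) .done .done) .done)) (.leaf 0x7098543216 1 .done))) .done)) .done)) (.node 0 3 (.cons 0x4567890321 .nil) (.node 3 7 (.cons 0x6541237890 .nil) (.node 7 9 (.cons 0x8790321456 .nil) (.node 5 7 .nil (.node 6 8 (.cons 0x3097865412 (.cons 0x8657903412 (.cons 0x1432756890 (.cons 0x3412756890 .nil)))) (.leaf 0x5723410986 2 .done) (.node 4 7 .nil (.node 0 6 (.cons 0x2378906541 (.cons 0x5609874123 .nil)) (.leaf 0x4560987321 2 (.node 1 5 (.cons 0x4156098723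 (.cons 0x8906514723 .nil)) .done .done)) .done) .done)) .done) .done) (.node 0 4 (.cons 0x9871230456 .nil) (.node 0 2 .nil (.node 1 8 (.cons 0x7654321890 .nil) (.leaf 0x2345671890 1 (.leaf 0x2345671890 0 .done)) (.node 1 8 (.cons 0x7654321890 .nil) (.node 3 9 (.cons 0x8765409321 .nil) (.node 0 6 (.cons 0x7890654123 .nil) (.node 5 7 (.cons 0x6754321890 .nil) (.node 0 8 (.cons 0x9081234576 .nil) (.node 0 5 .nil (.node 2 6 (.cons 0x6239087541 (.cons 0x4501267893 .nil)) (.leaf 0x1054398762 1 .done) .done) .done) (.leaf 0x9812345760 0 (.leaf 0x9812345760 1 .done))) (.node 0 5 (.cons 0x9817605432 .nil) .done .done)) (.leaf 0x2390456781 3 (.leaf 0x456781239 2 .done))) (.node 0 5 (.cons 0x7650981234 .nil) (.node 0 8 .nil (.node 3 7 (.cons 0x6541237890 (.cons 0x9087321456 (.cons 0x9802371456 .nil))) .done .done) .done) .done)) .done)) (.node 0 8 .nil (.node 3 9 (.cons 0x7654398012 .nil) (.node 0 2 (.cons 0x8932045671 .nil) (.node 0 5 (.cons 0x8932714056 .nil) .done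 .done) (.leaf 0x1089345672 1 (.leaf 0x8093214567 0 (.leaf 0x876541239 2 .done)))) (.node 1 8 (.cons 0x7654321890 .nil) (.node 1 5 (.cons 0x8904327651 .nil) (.node 0 5 (.cons 0x9805671234 .nil) (.node 0 6 (.cons 0x7890654123 .nil) (.node 0 2 .nil (.node 7 9 (.cons 0x8790654123 (.cons 0x8154320976 (.cons 0x8971203456 .nil))) .done .done) .done) .done) (.node 3 8 (.cons 0x4098327651 .nil) (.node 4 8 (.cons 0x6709845123 .nil) (.node 4 7 (.cons 0x6547890321 .nil) (.node 4 9 (.cons 0x6549871230 .nil) (.leaf 0x2156749083 2 .done) .done) .done) (.leaf 0x2389041567 3 .done)) .done)) .done) .done)) .done)) (.leaf 0x8903214567 0 (.leaf 0x9876541230 2 .done)))) (.node 1 8 (.cons 0x7654321890 .nil) (.node 5 8 (.cons 0x6709854321 .nil) (.node 3 8 (.cons 0x7654389012 .nil) (.leaf 0x1098345672 1 (.node 4 8 (.cons 0x5672109843 .nil) (.node 0 8 .nil (.node 1 5 (.cons 0x1567234890 (.cons 0x9084327651 .nil)) (.node 3 9 (.cons 0x4398567210 .nil) (.leaf 0x8093276514 2 (.leaf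 0x1089345672 1 (.leaf 0x7239084156 2 .done))) .done) .done) (.node 1 3 (.cons 0x5672134890 .nil) (.node 0 8 (.cons 0x9084312765 .nil) (.node 6 8 .nil (.node 3 5 (.cons 0x1276534890 (.cons 0x7210986534 (.cons 0x5341098672 .nil))) .done .done) .done) .done) .done)) (.node 4 8 (.cons 0x5672109843 .nil) (.node 3 5 (.cons 0x1276534890 .nil) (.leaf 0x2765348901 1 (.node 6 8 (.cons 0x7210986534 .nil) (.node 0 8 .nil (.node 1 6 (.cons 0x9854321670 (.cons 0x9084356127 .nil)) (.leaf 0x8907216534 0 .done) .done) .done) .done)) .done) .done))) (.node 3 8 (.cons 0x7654389012 .nil) (.node 4 8 (.cons 0x5672109843 .nil) (.node 3 5 (.cons 0x1276534890 .nil) (.leaf 0x2765348901 1 (.node 6 8 (.cons 0x7210986534 .nil) (.node 0 8 .nil (.node 1 6 (.cons 0x7216534890 (.cons 0x9084356127 .nil)) (.leaf 0x8907216534 0 .done) .done) .done) .done)) .done) (.leaf 0x1098345672 1 (.node 1 3 (.cons 0x4310985672 .nil) (.node 0 8 .nil (.node 1 5 (.cons 0x6723415890 .nil) (.node 1 6 (.cons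 0x2345890761 .nil) (.node 6 9 (.cons 0x2314587690 (.cons 0x7690854132 .nil)) (.leaf 0x2769085143 2 (.leaf 0x8096723415 2 .done)) .done) .done) .done) .done) .done))) (.node 1 3 (.cons 0x4312765890 .nil) (.node 1 6 (.cons 0x3458907612 .nil) (.node 3 7 .nil (.node 2 6 (.cons 0x3458907621 (.cons 0x9073458126 (.cons 0x3762145890 .nil))) (.leaf 0x7345890126 1 .done) (.node 3 6 (.cons 0x5412367890 .nil) (.node 2 6 (.cons 0x3458907621 .nil) (.node 6 8 (.cons 0x9076854312 .nil) (.node 0 8 (.cons 0x9085672134 .nil) (.node 3 8 (.cons 0x7654389012 .nil) (.leaf 0x1098345672 1 .done) .done) .done) (.leaf 0x7098543126 0 .done)) .done) .done)) (.leaf 0x7098543216 1 .done)) (.node 1 6 (.cons 0x3458907612 .nil) (.node 3 6 (.cons 0x5412367890 .nil) (.node 3 8 (.cons 0x7654389012 .nil) (.leaf 0x1098345672 1 (.node 1 5 (.cons 0x4389015672 .nil) (.node 1 9 (.cons 0x2198543670 .nil) .done .done) .done)) (.node 3 8 (.cons 0x7654389012 .nil) (.node 4 8 (.cons 0x5672109843 .nil)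 (.node 1 5 (.cons 0x1567234890 .nil) (.node 5 9 (.cons 0x4389567210 .nil) (.leaf 0x2348165907 1 (.leaf 0x2348165907 0 .done)) .done) .done) (.leaf 0x1098345672 1 .done)) .done)) (.leaf 0x7098543216 1 .done)) .done)) .done))) (.node 1 6 (.cons 0x8907612345 .nil) (.node 1 3 .nil (.node 5 8 (.cons 0x6709854321 (.cons 0x4310985672 (.cons 0x4312765890 .nil))) (.node 4 8 (.cons 0x5672109843 (.cons 0x5672134890 .nil)) (.node 4 9 (.cons 0x3498567210 (.cons 0x2765894310 .nil)) (.node 0 3 (.cons 0x8765490312 (.cons 0x5613094872 .nil)) (.leaf 0x8567210349 0 (.leaf 0x6589430127 1 .done)) .done) (.node 0 5 (.cons 0x6789054123 (.cons 0x9056132784 (.cons 0x4890567231 (.cons 0x6789054132 .nil)))) (.leaf 0x6721348905 2 .done) .done)) (.node 4 6 (.cons 0x9078546123 (.cons 0x9078546132 (.cons 0x7213465890 .nil))) (.node 4 8 (.cons 0x5672109843 (.cons 0x5672134890 .nil)) (.node 0 5 (.cons 0x6789054123 (.cons 0x4890567231 (.cons 0x6789054132 .nil))) (.leaf 0x6721348905 2 .done)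 .done) .done) .done)) (.node 3 8 (.cons 0x7654389012 .nil) (.node 3 5 (.cons 0x8901276534 .nil) (.node 4 8 (.cons 0x5672109843 .nil) (.node 1 9 .nil (.node 0 4 (.cons 0x9834012765 (.cons 0x9123876540 (.cons 0x6532784091 .nil))) .done (.node 1 5 .nil (.node 6 8 (.cons 0x8670912354 (.cons 0x5143276890 (.cons 0x9072153486 .nil))) .done .done) .done)) (.leaf 0x6721098435 0 (.leaf 0x2765348901 1 .done))) (.node 2 8 (.cons 0x4356728901 .nil) (.leaf 0x9014356728 2 (.node 1 5 (.cons 0x6728901534 .nil) (.node 1 9 (.cons 0x4532876190 .nil) .done .done) .done)) .done)) (.leaf 0x1098345672 1 (.node 1 5 (.cons 0x4389015672 .nil) (.node 1 9 .nil (.node 0 2 (.cons 0x9834567102 (.cons 0x4567832091 (.cons 0x7832091654 (.cons 0x4567198320 .nil)))) .done .done) .done) .done))) .done)) (.node 1 9 .nil (.node 0 8 (.cons 0x2345671980 .nil) (.node 0 4 (.cons 0x8765409123 .nil) (.node 3 7 (.cons 0x6540987321 (.cons 0x8732190456 (.cons 0x9804561732 .nil))) .done (.node 5 8 (.cons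 0x1985672340 (.cons 0x6589172340 .nil)) (.leaf 0x7658910432 0 (.leaf 0x7098543216 1 .done)) .done)) (.node 0 4 (.cons 0x8765409123 .nil) (.node 5 8 (.cons 0x6709854321 (.cons 0x9854076123 (.cons 0x5890416723 (.cons 0x3409856721 .nil)))) .done (.node 5 8 (.cons 0x6709854321 (.cons 0x1985672340 .nil)) (.leaf 0x7658910432 0 (.leaf 0x7098543216 1 .done)) .done)) .done)) (.node 1 5 .nil (.node 3 8 (.cons 0x7654389012 (.cons 0x4516709832 .nil)) (.node 5 8 (.cons 0x6723415890 .nil) (.node 4 8 (.cons 0x5489076123 (.cons 0x1567234890 .nil)) (.node 4 9 (.cons 0x5498321670 (.cons 0x2389451670 .nil)) .done .done) (.leaf 0x7098543216 1 .done)) (.node 4 7 (.cons 0x5674321890 (.cons 0x2347651890 (.cons 0x6512743890 .nil))) (.leaf 0x1238907456 1 .done) (.leaf 0x1098345672 1 .done))) (.node 1 3 .nil (.node 5 8 (.cons 0x6709854321 (.cons 0x4589076132 (.cons 0x4312765890 .nil))) (.node 4 8 (.cons 0x5489076123 (.cons 0x5489076132 (.cons 0x5672134890 .nil))) (.node 0 4 (.cons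 0x9854076123 (.cons 0x9854076132 .nil)) (.node 7 9 (.cons 0x9765812340 (.cons 0x9723165840 .nil)) (.leaf 0x1658409723 2 .done) .done) .done) (.node 4 8 (.cons 0x5489076123 (.cons 0x5489076132 (.cons 0x5672134890 .nil))) (.node 0 5 (.cons 0x6789054123 (.cons 0x6789054132 .nil)) (.node 6 8 (.cons 0x7689054123 (.cons 0x7689054132 .nil)) (.leaf 0x9054132768 0 .done) .done) .done) .done)) .done) .done)) .done)) .done)) .done)) .done)))
noncomputable def tc9_4_22 : T := (.node 5 8 (.cons 0x6709854321 (.cons 0x9856721043 (.cons 0x3409856721 .nil))) (.node 3 6 (.cons 0x7210985634 (.cons 0x9856340127 (.cons 0x4365890172 .nil))) (.node 7 9 (.cons 0x8563409721 .nil) (.leaf 0x436589721 2 .done) (.node 3 8 (.cons 0x7654389012 (.cons 0x9834012765 .nil)) (.leaf 0x1098345672 1 (.node 1 5 (.cons 0x9834015672 (.cons 0x4098327651 .nil)) (.node 2 4 (.cons 0x9017243856 .nil) (.leaf 0x6724389015 0 (.node 1 9 (.cons 0x4091567832 (.cons 0x8327651904 .nil)) (.leaf 0x5190427836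 3 (.leaf 0x427836519 2 .done)) (.leaf 0x3890156724 3 .done))) .done) .done)) .done)) (.node 3 8 (.cons 0x7654389012 (.cons 0x9834012765 .nil)) (.node 2 6 (.cons 0x9017265834 .nil) (.node 7 9 (.cons 0x7983456210 .nil) (.leaf 0x5621097834 2 (.node 0 8 (.cons 0x7908345621 .nil) (.node 5 7 (.cons 0x9834570126 (.cons 0x4380975621 .nil)) .done .done) .done)) (.leaf 0x3890172654 0 (.leaf 0x8907126543 0 .done))) (.leaf 0x1098345672 1 (.node 3 9 (.cons 0x1239876540 .nil) (.node 0 8 (.cons 0x7654398012 .nil) (.leaf 0x3980127654 0 .done) (.leaf 0x4567893210 2 (.leaf 0x4012765893 0 (.node 7 9 (.cons 0x5679834012 .nil) (.node 1 5 (.cons 0x2156798340 (.cons 0x8340976512 (.cons 0x7651238904 .nil))) (.node 0 6 (.cons 0x8906517234 .nil) (.leaf 0x1560438972 0 (.node 4 7 (.cons 0x2398740651 (.cons 0x9047832156 (.cons 0x8906517432 .nil))) .done (.leaf 0x5127983406 2 .done))) .done) .done) .done)))) .done))) .done)) (.node 0 3 (.cons 0x4567890321 .nil) (.node 0 2 (.cons 0x8902345671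 .nil) (.node 0 5 (.cons 0x8905432176 .nil) (.node 0 6 (.cons 0x9871230654 .nil) (.node 0 8 .nil (.node 3 5 (.cons 0x8901276534 (.cons 0x9801276534 .nil)) (.node 4 9 (.cons 0x8712356094 (.cons 0x6780945321 (.cons 0x8094356721 .nil))) (.leaf 0x6721089435 0 .done) (.node 1 4 (.cons 0x4178906532 (.cons 0x6789023541 (.cons 0x9801435672 .nil))) .done .done)) (.node 5 8 (.cons 0x6709854321 .nil) (.node 4 9 (.cons 0x3498567210 (.cons 0x7123498560 (.cons 0x5894321760 (.cons 0x3498567201 .nil)))) (.leaf 0x8567210349 0 .done) (.node 7 9 (.cons 0x4321798560 .nil) (.node 1 8 (.cons 0x1897654320 (.cons 0x6581790432 .nil)) (.leaf 0x4320981765 0 .done) (.node 1 6 (.cons 0x6120798543 (.cons 0x9085617234 .nil)) (.node 3 8 (.cons 0x9045678321 (.cons 0x7983021654 (.cons 0x6712389054 (.cons 0x6583409712 .nil)))) .done .done) .done)) (.leaf 0x1760985432 0 .done))) .done)) (.node 5 8 (.cons 0x6709854321 .nil) (.leaf 0x4321760985 2 (.leaf 0x3458906712 0 (.node 1 4 (.cons 0x9871456032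 .nil) (.node 2 4 (.cons 0x3427658901 .nil) (.node 1 6 (.cons 0x9854320761 (.cons 0x9854230716 .nil)) (.leaf 0x5617890324 3 (.leaf 0x7890324561 2 .done)) (.node 3 5 (.cons 0x6724358901 .nil) (.leaf 0x1789065324 1 (.leaf 0x1789065324 0 .done)) .done)) (.leaf 0x8902341765 0 .done)) (.leaf 0x9854321760 3 .done)))) .done)) (.node 1 8 (.cons 0x6509817234 (.cons 0x6718905432 .nil)) (.node 3 9 (.cons 0x9321876540 (.cons 0x9320456781 .nil)) (.leaf 0x8102765439 1 (.leaf 0x6781239045 0 .done)) (.node 0 8 .nil (.node 1 9 (.cons 0x8765409123 (.cons 0x6508917234 (.cons 0x6719805432 .nil))) (.node 3 8 (.cons 0x9123804567 (.cons 0x9176540832 .nil)) (.leaf 0x1098345672 1 .done) .done) .done) .done)) .done)) (.node 0 5 (.cons 0x8905432176 .nil) (.node 4 8 (.cons 0x5672109843 (.cons 0x3209845671 (.cons 0x3489056721 .nil))) (.leaf 0x3217650984 2 (.node 0 6 (.cons 0x7123489065 (.cons 0x5609843271 .nil)) .done (.leaf 0x2348905671 0 .done))) (.node 1 8 (.cons 0x6509817234 (.cons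 0x6718905432 .nil)) (.node 3 9 (.cons 0x9321876540 (.cons 0x6718932054 (.cons 0x4567189320 .nil))) (.leaf 0x6781239045 0 .done) (.node 2 9 (.cons 0x4329817650 .nil) (.leaf 0x6504329817 0 (.node 3 8 (.cons 0x9045678321 (.cons 0x6501729834 (.cons 0x6540923871 .nil))) (.leaf 0x1098345672 1 .done) (.node 3 8 (.cons 0x9045678321 (.cons 0x6710543892 .nil)) (.leaf 0x1098345672 1 (.node 2 6 (.cons 0x5438926710 .nil) (.node 1 5 (.cons 0x7629834510 (.cons 0x4510926783 (.cons 0x7265109834 (.cons 0x8329045176 .nil)))) .done (.leaf 0x7105438926 2 .done)) .done)) .done))) .done)) .done)) .done)) (.node 1 4 (.cons 0x3214567890 .nil) (.node 3 9 (.cons 0x8765409321 (.cons 0x8712390456 .nil)) (.node 0 6 (.cons 0x5412398760 .nil) (.node 0 5 (.cons 0x6789321450 .nil) (.node 0 8 (.cons 0x7608932145 (.cons 0x5417608932 .nil)) .done (.leaf 0x9321450678 2 .done)) (.node 0 5 (.cons 0x6789321450 (.cons 0x6054178932 .nil)) (.leaf 0x9321450678 0 .done) .done)) (.node 0 2 (.cons 0x1456789320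 (.cons 0x6541789320 .nil)) (.node 2 8 (.cons 0x5672893410 (.cons 0x2893456710 (.cons 0x6540932871 .nil))) (.node 4 8 (.cons 0x5672109843 (.cons 0x3209845671 (.cons 0x5671489302 .nil))) (.leaf 0x1230984567 0 .done) .done) .done) .done)) (.leaf 0x8903214567 0 (.node 3 9 (.cons 0x8765409321 (.cons 0x8712390456 .nil)) (.node 5 8 (.cons 0x6709854321 (.cons 0x4309856712 .nil)) (.node 0 6 (.cons 0x4589321760 .nil) (.leaf 0x2398540671 2 (.leaf 0x3217604589 3 .done)) (.node 3 6 (.cons 0x5412367890 (.cons 0x4365890172 .nil)) (.node 2 6 (.cons 0x9854362107 .nil) (.node 3 8 (.cons 0x9045678321 (.cons 0x9017265834 .nil)) .done (.leaf 0x4587126390 2 .done)) (.node 4 6 (.cons 0x9078546321 (.cons 0x1723465890 (.cons 0x2178546390 .nil))) (.leaf 0x1278546390 3 .done) .done)) (.node 2 4 (.cons 0x3427658901 (.cons 0x9856710342 (.cons 0x6589017243 .nil))) .done .done))) (.node 2 8 (.cons 0x2893456710 (.cons 0x6540932871 .nil)) (.node 3 6 (.cons 0x5412367890 (.cons 0x9821076345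 (.cons 0x5410936782 .nil))) .done (.node 3 6 (.cons 0x5412367890 .nil) (.node 2 9 (.cons 0x8921076345 (.cons 0x8710456392 (.cons 0x8293671045 .nil))) .done (.node 2 4 (.cons 0x5428763901 (.cons 0x8710936542 .nil)) (.node 0 2 (.cons 0x3987654201 (.cons 0x6542017893 .nil)) (.leaf 0x5420178936 2 .done) .done) .done)) .done)) .done)) .done))) (.node 1 4 (.cons 0x6541789032 .nil) (.node 2 4 (.cons 0x6542309871 .nil) (.node 3 9 (.cons 0x8765409321 (.cons 0x8712390456 (.cons 0x5678930142 .nil))) (.node 1 9 (.cons 0x5678914230 .nil) (.leaf 0x4567891032 2 (.node 2 9 (.cons 0x6541789230 .nil) .done .done)) .done) (.node 2 9 (.cons 0x1456789230 (.cons 0x6541789230 .nil)) (.node 3 8 (.cons 0x9045678321 (.cons 0x4567103892 .nil)) (.leaf 0x1038927654 0 (.leaf 0x1098345672 1 (.node 5 9 (.cons 0x9567832140 (.cons 0x8329567140 (.cons 0x8340956712 .nil))) (.node 0 6 (.cons 0x6078954123 (.cons 0x4178956032 (.cons 0x8956032714 .nil))) .done .done) .done))) .done) .done))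 (.node 2 4 (.cons 0x6542309871 .nil) (.node 2 6 (.cons 0x8903267145 .nil) (.leaf 0x7890326541 2 (.node 5 8 (.cons 0x6709854321 (.cons 0x9856724301 (.cons 0x3427658901 .nil))) (.node 1 8 (.cons 0x9810342765 .nil) (.node 2 5 (.cons 0x9810342567 (.cons 0x8903254176 .nil)) .done .done) (.node 1 9 (.cons 0x8562719034 (.cons 0x5876241903 .nil)) (.leaf 0x6724301985 1 .done) .done)) .done)) (.node 1 9 (.cons 0x8917654230 .nil) (.leaf 0x4567891032 2 (.node 0 5 (.cons 0x4230567891 (.cons 0x8917650324 .nil)) (.node 0 8 (.cons 0x9803245671 .nil) (.leaf 0x3245671980 0 (.node 5 9 (.cons 0x8956724301 (.cons 0x4230895671 (.cons 0x3421765980 .nil))) (.leaf 0x2417659803 3 .done) .done)) .done) .done)) .done)) .done)) .done))) (.node 5 8 (.cons 0x6709854321 (.cons 0x6589043271 .nil)) (.leaf 0x6712340985 2 (.node 3 8 (.cons 0x7654389012 .nil) (.node 5 9 (.cons 0x4389567210 (.cons 0x6598340172 .nil)) (.leaf 0x7659834012 2 (.node 0 2 (.cons 0x6598340271 (.cons 0x9832045671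 .nil)) (.node 1 4 (.cons 0x9856720143 .nil) (.leaf 0x7658901432 1 (.node 1 8 (.cons 0x5671890432 .nil) (.leaf 0x4320981765 0 .done) (.leaf 0x8902341765 0 .done))) (.node 1 9 (.cons 0x9178320456 (.cons 0x8543209176 (.cons 0x8567190234 (.cons 0x2389176540 .nil)))) .done .done)) .done)) (.node 2 6 (.cons 0x9834017265 (.cons 0x9045623871 .nil)) (.node 1 5 (.cons 0x9834015627 (.cons 0x8904327156 (.cons 0x6517238904 .nil))) (.node 7 9 (.cons 0x8340972651 .nil) (.leaf 0x5621097834 2 .done) .done) (.leaf 0x8907126543 0 .done)) (.leaf 0x1098345672 1 (.node 2 5 (.cons 0x7652109834 (.cons 0x9834017652 (.cons 0x4098325671 .nil))) (.node 1 4 (.cons 0x9041783256 .nil) (.leaf 0x7652389041 2 (.leaf 0x7658901432 1 (.leaf 0x983256714 3 .done))) (.node 1 6 (.cons 0x4098716523 (.cons 0x7165238904 .nil)) (.node 0 8 (.cons 0x9807612345 (.cons 0x9804327165 .nil)) .done (.leaf 0x5234098716 0 .done)) .done)) .done)))) (.node 0 3 (.cons 0x4567890321 (.cons 0x4309856712 .nil)) (.node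 2 8 (.cons 0x9034582176 .nil) (.node 1 3 (.cons 0x6540987132 .nil) (.node 2 9 (.cons 0x6589271340 (.cons 0x8543092176 (.cons 0x8923176540 .nil))) .done (.leaf 0x982765431 1 (.leaf 0x9045671328 0 .done))) (.node 1 9 (.cons 0x9178230456 (.cons 0x5671982340 (.cons 0x3289176540 .nil))) (.leaf 0x4567198230 3 .done) (.leaf 0x4567128903 2 .done))) (.node 2 6 (.cons 0x3458907621 (.cons 0x9854307126 .nil)) (.node 1 3 (.cons 0x4312765890 .nil) (.leaf 0x7265890431 3 (.node 0 8 (.cons 0x9085672134 .nil) (.node 4 9 (.cons 0x8567213490 (.cons 0x7126580943 (.cons 0x6217854903 (.cons 0x8712654903 .nil)))) .done .done) (.leaf 0x9856721340 0 (.leaf 0x4098562713 2 .done)))) (.node 1 8 (.cons 0x7189045623 (.cons 0x5409817623 (.cons 0x5671890432 .nil))) (.node 3 9 (.cons 0x5407623981 .nil) (.leaf 0x1893045627 0 (.leaf 0x1893265407 0 (.leaf 0x8172654039 2 .done))) .done) .done)) .done)) .done))) .done)))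
noncomputable def uc9_4_5 : T := (.node 0 4 (.cons 0x6540987123 .nil) tc9_4_22 (.node 1 4 (.cons 0x3214567890 .nil) tc9_4_21 (.node 1 4 (.cons 0x3214567890 .nil) tc9_4_20 .done)))
theorem sub_c9_4_5 : root 9 refs9_4 [] 0x700000008703000000003060004050060500000000504000000004030000000030100004000102000000002018050000010 0xfe7fff77ff87ff9fffcfffe7fff5ffe9fff9fedd 9 1 7 .nil uc9_4_5 = true := by decide +kernel
noncomputable def tc9_4_23 : T := (.node 1 4 (.cons 0x3214567890 .nil) (.node 0 3 (.cons 0x4567890321 .nil) (.node 3 9 (.cons 0x9321876540 .nil) (.node 1 9 (.cons 0x8765409123 .nil) (.node 1 6 (.cons 0x7890321654 .nil) (.node 1 3 .nil (.node 0 2 (.cons 0x4567890231 .nil) (.leaf 0x9876541320 2 (.leaf 0x8902314567 0 (.leaf 0x3145678902 3 .done))) .done) .done) .done) (.leaf 0x6781239045 0 (.node 7 9 (.cons 0x9781230456 .nil) (.node 4 9 (.cons 0x6549301872 .nil) (.node 1 9 (.cons 0x2391876540 .nil) (.node 2 4 (.cons 0x9301872456 .nil) (.node 6 9 (.cons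 0x8127965430 .nil) (.leaf 0x3018724569 2 .done) .done) .done) .done) .done) .done))) (.leaf 0x8903214567 0 (.leaf 0x9876541230 2 .done))) (.node 1 9 (.cons 0x8765409123 .nil) (.node 3 9 (.cons 0x9321876540 .nil) (.node 3 7 (.cons 0x8732190456 .nil) (.node 6 8 (.cons 0x9123786540 .nil) (.node 3 6 (.cons 0x5412367890 .nil) (.node 1 3 .nil (.node 0 5 (.cons 0x6789054123 (.cons 0x6789054132 .nil)) (.node 4 9 (.cons 0x5687321940 (.cons 0x4905687231 (.cons 0x9405687312 .nil))) .done (.leaf 0x4123678905 1 .done)) .done) (.node 2 9 (.cons 0x7819236540 .nil) (.leaf 0x8192365407 0 (.leaf 0x3291870456 3 .done)) .done)) (.node 2 9 (.cons 0x5439276810 .nil) (.node 0 2 (.cons 0x7345689102 .nil) (.node 0 5 (.cons 0x4056873291 .nil) (.leaf 0x9237865041 1 (.leaf 0x7293450186 3 .done)) (.leaf 0x5689102734 0 .done)) (.leaf 0x4568732910 1 .done)) (.leaf 0x5409123786 0 .done))) (.node 3 8 (.cons 0x9045678321 .nil) (.node 7 9 (.cons 0x6540978321 .nil) (.node 4 9 (.cons 0x6549012783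 .nil) (.node 3 6 (.cons 0x5412367890 .nil) (.leaf 0x7836549012 0 (.leaf 0x5490127836 3 (.leaf 0x8721094563 2 .done))) .done) .done) (.node 0 3 (.cons 0x4567890321 .nil) (.node 7 9 (.cons 0x9781230456 .nil) (.node 4 7 (.cons 0x6547890321 .nil) (.node 5 7 (.cons 0x6578321904 .nil) .done .done) .done) .done) .done)) .done)) (.leaf 0x6781239045 0 (.node 3 7 (.cons 0x8732190456 .nil) (.node 4 9 .nil (.node 0 3 (.cons 0x4567890321 (.cons 0x6549873012 (.cons 0x9403218765 .nil))) .done (.node 7 9 .nil (.node 2 8 (.cons 0x9345672810 (.cons 0x6543798210 (.cons 0x5679340182 .nil))) (.leaf 0x3456728109 2 .done) .done) .done)) .done) .done))) (.node 1 6 (.cons 0x8907612345 .nil) (.node 1 3 .nil (.node 5 8 (.cons 0x4321765890 (.cons 0x6709854312 .nil)) (.node 0 5 (.cons 0x6789054123 (.cons 0x6789054132 .nil)) (.node 6 8 (.cons 0x7689054123 (.cons 0x7689054132 (.cons 0x9072134586 .nil))) (.leaf 0x3145098672 0 .done) .done) (.node 2 6 (.cons 0x9185407623 (.cons 0x4589132670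 (.cons 0x9041326785 (.cons 0x7623145890 .nil)))) .done .done)) (.node 1 5 .nil (.node 3 8 (.cons 0x9045678321 (.cons 0x9045123876 .nil)) (.node 0 3 (.cons 0x4567890321 .nil) (.node 2 4 (.cons 0x8915423076 (.cons 0x6517890324 .nil)) (.leaf 0x3098761542 2 .done) .done) (.node 2 9 (.cons 0x9276543810 (.cons 0x6517832904 (.cons 0x4516783290 (.cons 0x4092387651 .nil)))) .done .done)) .done) .done)) .done) .done)) .done)) (.node 7 9 (.cons 0x6540978123 .nil) (.node 0 8 (.cons 0x6543279081 .nil) (.node 3 7 .nil (.node 6 8 (.cons 0x1865432790 (.cons 0x9018654372 .nil)) (.leaf 0x5432790186 0 (.leaf 0x5409732186 1 .done)) (.node 5 7 .nil (.node 4 6 (.cons 0x5643279081 (.cons 0x2346571890 (.cons 0x9081275643 .nil))) (.node 3 9 (.cons 0x8765409321 (.cons 0x7564398012 (.cons 0x5764398012 (.cons 0x9321875640 .nil)))) .done .done) (.node 4 7 .nil (.node 0 6 (.cons 0x9812374560 (.cons 0x5609817432 .nil)) (.leaf 0x9812347560 1 .done) .done) .done)) .done)) (.node 6 9 (.cons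 0x7234569081 .nil) (.node 6 8 (.cons 0x1865432790 .nil) (.leaf 0x5432790186 0 (.node 5 8 (.cons 0x4321765890 .nil) (.node 0 6 (.cons 0x9718560432 .nil) (.node 2 6 (.cons 0x9718562340 .nil) (.node 4 6 (.cons 0x9081723465 .nil) (.node 0 5 (.cons 0x9643270581 .nil) (.leaf 0x6432718905 1 .done) .done) .done) .done) .done) .done)) (.leaf 0x817234569 0 (.node 3 7 (.cons 0x8127345690 .nil) (.node 3 8 (.cons 0x7218345690 .nil) (.node 6 8 (.cons 0x1865432790 .nil) (.leaf 0x5432790186 0 (.node 0 6 (.cons 0x5437069812 .nil) (.node 2 6 (.cons 0x2654379810 .nil) (.leaf 0x1834562790 3 .done) .done) .done)) (.leaf 0x1270965438 2 .done)) .done) .done))) .done)) (.node 1 4 (.cons 0x3214567890 .nil) (.node 4 7 .nil (.node 0 6 (.cons 0x8127906543 (.cons 0x7432189065 (.cons 0x7456098123 (.cons 0x5609817432 .nil)))) .done (.node 1 6 (.cons 0x8907612345 .nil) (.node 4 6 .nil (.node 1 5 (.cons 0x8907645123 .nil) (.node 0 2 (.cons 0x8902347156 (.cons 0x8902347651 (.cons 0x5647189023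 .nil))) (.leaf 0x4320981567 0 .done) .done) (.node 4 8 (.cons 0x5671234890 .nil) (.node 1 5 .nil (.node 0 6 (.cons 0x5609817432 (.cons 0x7609843215 (.cons 0x7609845123 (.cons 0x5176098432 .nil)))) .done (.node 3 7 (.cons 0x6732154890 .nil) (.node 5 7 .nil (.node 0 6 (.cons 0x2189734560 (.cons 0x5760984321 .nil)) (.leaf 0x8906574321 0 (.leaf 0x8906751234 0 .done)) .done) .done) .done)) .done) .done)) (.node 3 7 (.cons 0x2374561890 .nil) (.node 0 2 (.cons 0x6543798120 .nil) (.leaf 0x4561890237 1 (.node 5 7 (.cons 0x6574320981 .nil) .done (.leaf 0x4561890237 0 .done))) .done) .done)) .done)) (.node 1 9 (.cons 0x8765409123 .nil) (.node 1 6 (.cons 0x8907612345 .nil) (.node 5 9 (.cons 0x8954321670 .nil) (.node 4 9 .nil (.node 0 5 (.cons 0x6789054123 (.cons 0x8945076123 (.cons 0x8172349056 .nil))) .done (.node 6 9 (.cons 0x8704596123 .nil) (.node 4 7 (.cons 0x5690478123 .nil) (.node 4 6 (.cons 0x3216459870 .nil) (.node 4 8 (.cons 0x5671234890 .nil) .done .done)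 .done) .done) .done)) (.node 0 8 (.cons 0x2345980761 .nil) (.leaf 0x7612345980 0 (.node 6 8 (.cons 0x4327186590 .nil) (.leaf 0x5904327186 2 (.leaf 0x9568172340 0 .done)) .done)) .done)) (.node 1 3 .nil (.node 2 8 (.cons 0x8213409765 .nil) (.node 0 3 (.cons 0x4561287903 (.cons 0x6543097281 .nil)) (.node 0 6 (.cons 0x8127906543 (.cons 0x3456097281 .nil)) (.leaf 0x7906543182 2 .done) .done) (.node 0 6 (.cons 0x8127906543 (.cons 0x9728134560 .nil)) (.leaf 0x3182790654 2 (.leaf 0x1827906543 3 .done)) (.leaf 0x4091328765 0 .done))) (.node 1 5 .nil (.node 3 8 (.cons 0x6543812790 (.cons 0x9045123876 (.cons 0x8340976512 .nil))) (.node 2 9 (.cons 0x5416783290 (.cons 0x6517832904 (.cons 0x4516783290 (.cons 0x4092387651 .nil)))) .done .done) .done) .done)) .done)) .done) .done)) .done)) (.node 1 4 (.cons 0x3214567890 .nil) (.node 1 9 (.cons 0x8765409123 .nil) (.node 3 9 (.cons 0x8765409321 .nil) (.node 1 3 .nil (.node 2 9 (.cons 0x8765409231 .nil) (.leaf 0x456781329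 2 (.leaf 0x3290456781 3 (.leaf 0x4092318765 0 .done))) (.node 1 6 (.cons 0x8761239045 .nil) (.node 1 5 .nil (.node 0 6 (.cons 0x5412398760 (.cons 0x7609815432 .nil)) (.node 2 6 (.cons 0x7623451890 .nil) (.node 3 5 (.cons 0x4539876210 (.cons 0x2678935410 .nil)) (.leaf 0x8706235419 0 .done) (.leaf 0x3451890762 1 .done)) .done) .done) .done) .done)) (.leaf 0x2390456781 3 (.leaf 0x456781239 2 .done))) (.node 1 6 (.cons 0x8907612345 .nil) (.node 3 9 (.cons 0x8765409321 .nil) (.node 1 3 .nil (.node 4 8 (.cons 0x7845612390 (.cons 0x8456723190 (.cons 0x6548721390 .nil))) (.node 0 8 (.cons 0x7809321654 (.cons 0x8091327654 .nil)) (.node 5 9 (.cons 0x9567804123 (.cons 0x9567804132 (.cons 0x8095672134 .nil))) .done .done) .done) .done) (.node 1 5 .nil (.node 2 8 (.cons 0x4516782390 .nil) (.leaf 0x9328761540 0 (.leaf 0x7823904516 3 (.leaf 0x3904516782 2 (.node 4 6 (.cons 0x8276439015 (.cons 0x5128907643 .nil)) (.node 0 5 (.cons 0x4650987123 (.cons 0x7645098123 (.cons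 0x5098176432 .nil))) .done .done) .done)))) (.node 1 3 .nil (.node 2 9 (.cons 0x8765409231 .nil) (.leaf 0x456781329 2 (.node 5 8 (.cons 0x4587612390 (.cons 0x6587132904 (.cons 0x6709854312 .nil))) (.node 3 6 (.cons 0x8729013654 .nil) (.leaf 0x1045876392 1 (.leaf 0x1045876392 0 .done)) .done) (.leaf 0x3290456781 3 .done))) .done) .done)) (.leaf 0x2390456781 3 (.leaf 0x456781239 2 .done)))) .done) .done)) (.node 0 3 (.cons 0x4567890321 .nil) (.node 1 9 (.cons 0x8765409123 .nil) (.node 3 9 (.cons 0x8765409321 .nil) (.node 3 7 (.cons 0x6541237890 .nil) (.node 3 8 (.cons 0x9045678321 .nil) (.node 0 8 (.cons 0x4567321980 .nil) (.node 3 6 (.cons 0x9087236541 .nil) (.leaf 0x5419087236 2 (.leaf 0x4563278091 0 .done)) .done) (.node 0 8 (.cons 0x4567321980 .nil) (.leaf 0x2380914567 0 .done) .done)) (.node 7 9 .nil (.node 6 8 (.cons 0x5409186732 (.cons 0x9786540321 (.cons 0x5687904123 (.cons 0x8654309721 .nil)))) (.leaf 0x9786541230 0 .done) (.node 4 7 (.cons 0x6547890321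 .nil) (.node 5 7 (.cons 0x6754321890 .nil) .done .done) .done)) .done)) (.leaf 0x2390456781 3 (.leaf 0x456781239 2 .done))) .done) (.leaf 0x8903214567 0 (.leaf 0x9876541230 2 .done))) .done)) .done)))
noncomputable def tc9_4_24 : T := (.node 1 8 (.cons 0x7654321890 .nil) tc9_4_23 (.node 3 7 (.cons 0x6540987321 .nil) (.node 1 6 (.cons 0x9873216540 .nil) (.node 0 8 (.cons 0x9807612345 .nil) (.node 7 9 (.cons 0x7980432165 .nil) (.node 2 5 (.cons 0x8971652340 .nil) (.leaf 0x3408971652 2 (.leaf 0x6179804325 3 (.node 0 2 .nil (.node 3 8 (.cons 0x7654389012 (.cons 0x7983456102 (.cons 0x5438976102 .nil))) (.leaf 0x2045617983 2 .done) .done) .done))) (.node 5 7 (.cons 0x3408975612 .nil) (.node 4 7 .nil (.node 5 9 (.cons 0x8954321670 (.cons 0x7432165980 (.cons 0x6598047321 .nil))) .done .done) .done) .done)) (.node 1 8 (.cons 0x7654321890 .nil) (.node 7 9 (.cons 0x9723456180 .nil) (.node 5 7 (.cons 0x8904321756 .nil) (.node 4 7 .nil (.node 0 3 (.cons 0x4567890321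 (.cons 0x9032187456 (.cons 0x6574309812 .nil))) .done .done) .done) (.leaf 0x4561809723 2 .done)) (.node 1 4 (.cons 0x3214567890 .nil) (.node 1 3 (.cons 0x9087654132 .nil) (.node 1 5 (.cons 0x9807615432 .nil) (.node 1 9 (.cons 0x9165408723 .nil) .done .done) .done) .done) .done)) .done)) (.node 3 6 (.cons 0x7890456321 .nil) (.node 5 7 (.cons 0x4098756321 .nil) (.node 7 9 (.cons 0x8790456123 .nil) (.node 4 7 .nil (.node 2 5 (.cons 0x9873652104 (.cons 0x9874012563 (.cons 0x4789012563 .nil))) (.node 1 8 (.cons 0x7654321890 (.cons 0x3652189740 (.cons 0x6325740981 .nil))) (.leaf 0x6521890473 1 .done) .done) .done) .done) (.node 7 9 (.cons 0x8790456123 .nil) (.node 4 7 .nil (.node 2 5 (.cons 0x9873652104 (.cons 0x9874012563 (.cons 0x4789012563 .nil))) (.node 3 8 (.cons 0x2387904561 (.cons 0x6389047521 (.cons 0x6523890471 .nil))) (.leaf 0x7521638904 1 .done) .done) .done) .done) .done)) (.node 2 4 (.cons 0x5632409871 .nil) (.node 1 4 (.cons 0x3214567890 .nil)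 (.node 2 5 (.cons 0x1452367890 .nil) (.leaf 0x8901452367 0 (.node 4 6 (.cons 0x5640987123 .nil) (.node 4 8 (.cons 0x5236714890 .nil) (.node 4 9 (.cons 0x8940173652 .nil) .done .done) .done) .done)) .done) (.node 1 4 (.cons 0x3214567890 .nil) (.node 1 5 (.cons 0x1542367890 .nil) (.node 0 6 (.cons 0x7890632451 .nil) (.node 0 3 (.cons 0x9876541230 .nil) (.node 3 5 (.cons 0x2453678901 .nil) .done .done) (.leaf 0x2360987154 2 .done)) (.leaf 0x9042365178 2 .done)) .done) .done)) .done)) (.leaf 0x4561237890 0 .done))) (.node 5 7 (.cons 0x8904321756 .nil) (.node 0 3 (.cons 0x4567890321 .nil) (.node 3 5 (.cons 0x6532178904 .nil) (.node 3 6 (.cons 0x7890456321 .nil) (.node 1 9 (.cons 0x7891236540 .nil) (.leaf 0x3219870456 0 (.node 3 9 (.cons 0x7893654012 .nil) (.leaf 0x1045639872 2 .done) (.leaf 0x2365407891 2 .done))) (.node 7 9 (.cons 0x8975634012 .nil) (.node 4 7 .nil (.node 5 8 (.cons 0x4321765890 .nil) (.node 0 5 (.cons 0x8905671234 .nil) (.node 1 8 (.cons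 0x2189756340 (.cons 0x3650479812 (.cons 0x9018563472 (.cons 0x6745098123 .nil)))) .done .done) (.leaf 0x4098563217 1 .done)) .done) .done) .done)) .done) (.node 0 8 (.cons 0x9804321756 .nil) (.node 7 9 .nil (.node 1 6 (.cons 0x2378904561 (.cons 0x5617980432 (.cons 0x8790456123 (.cons 0x8975612304 .nil)))) .done (.node 4 7 .nil (.node 3 6 (.cons 0x7890456321 .nil) (.node 2 5 (.cons 0x8971256340 (.cons 0x9801743652 (.cons 0x8974036521 .nil))) .done (.node 1 9 (.cons 0x6571980432 (.cons 0x8745632190 (.cons 0x8912304756 .nil))) (.leaf 0x7456321908 0 .done) .done)) .done) .done)) .done) .done)) (.node 7 9 .nil (.node 3 6 (.cons 0x7890456321 (.cons 0x8790456321 .nil)) (.node 2 8 (.cons 0x9821756340 (.cons 0x3456798210 (.cons 0x5436798210 (.cons 0x1289756340 .nil)))) (.leaf 0x5637982104 0 .done) (.node 1 8 (.cons 0x7654321890 (.cons 0x2189756340 .nil)) (.leaf 0x3657218904 1 (.node 2 6 (.cons 0x3457621890 (.cons 0x5798126340 .nil)) (.node 0 3 (.cons 0x4567890321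 .nil) (.node 3 8 (.cons 0x7654389012 (.cons 0x9754038126 (.cons 0x6218309754 .nil))) .done .done) .done) .done)) .done)) .done) .done)) .done)) (.node 1 8 (.cons 0x7654321890 .nil) (.node 1 6 (.cons 0x8907612345 .nil) (.node 1 4 (.cons 0x3214567890 .nil) (.node 1 3 .nil (.node 2 5 (.cons 0x9817652340 (.cons 0x6523178904 (.cons 0x9813254076 .nil))) (.leaf 0x3167890452 3 .done) (.node 1 5 (.cons 0x6789045132 .nil) (.node 2 5 (.cons 0x9817652340 .nil) (.leaf 0x3167890452 3 (.leaf 0x452316789 0 .done)) .done) .done)) (.node 1 3 .nil (.node 2 5 (.cons 0x9817652340 (.cons 0x6523178904 (.cons 0x9813254076 .nil))) (.leaf 0x3167890452 3 .done) (.node 1 9 (.cons 0x8723190456 .nil) (.node 1 5 .nil (.node 2 6 (.cons 0x7890456231 (.cons 0x8915407623 (.cons 0x5140987623 (.cons 0x9815407623 .nil)))) .done .done) .done) .done)) .done)) (.node 5 8 (.cons 0x4321765890 .nil) (.node 1 5 .nil (.node 3 8 (.cons 0x7654389012 (.cons 0x7615409832 (.cons 0x4516709832 .nil))) (.leaf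 0x6154098327 0 .done) (.node 0 5 (.cons 0x9817650432 .nil) (.node 2 5 (.cons 0x9817652340 .nil) (.node 0 8 (.cons 0x9804325671 .nil) (.node 1 9 (.cons 0x8917652340 .nil) (.node 1 3 (.cons 0x8723190456 .nil) (.node 1 4 (.cons 0x3214567890 .nil) .done .done) (.leaf 0x4325671980 1 .done)) .done) .done) .done) .done)) (.node 1 5 .nil (.node 2 6 (.cons 0x4326709851 .nil) (.leaf 0x3267158904 3 (.leaf 0x1762340985 0 .done)) (.node 1 3 (.cons 0x4589076132 .nil) (.node 1 4 (.cons 0x2341765890 .nil) (.node 1 9 (.cons 0x8723190456 .nil) .done .done) (.node 1 4 (.cons 0x2341765890 .nil) (.node 1 9 .nil (.node 0 3 (.cons 0x4567890321 (.cons 0x9187654032 (.cons 0x9187230456 (.cons 0x6587230914 .nil)))) .done .done) .done) .done)) (.node 1 9 .nil (.node 2 6 (.cons 0x4098715623 (.cons 0x1985432670 .nil)) (.leaf 0x8910762345 0 .done) (.node 1 3 (.cons 0x4589076132 .nil) (.node 1 4 (.cons 0x2341765890 .nil) .done .done) .done)) .done))) (.leaf 0x7098543216 1 .done))) .done))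 (.node 5 8 (.cons 0x4321765890 .nil) (.leaf 0x6712340985 2 (.node 0 8 .nil (.node 6 9 (.cons 0x4327185690 (.cons 0x7234569081 (.cons 0x7218096543 .nil))) (.node 1 4 (.cons 0x7234185690 (.cons 0x9085671432 (.cons 0x5809672341 .nil))) (.node 3 9 (.cons 0x5693278140 (.cons 0x5693278041 (.cons 0x5801439672 .nil))) (.leaf 0x5439081276 0 .done) .done) (.leaf 0x817234569 0 .done)) (.node 6 8 (.cons 0x9043271865 .nil) (.node 5 9 (.cons 0x9568172340 .nil) (.node 2 8 (.cons 0x9568271043 .nil) (.node 3 8 (.cons 0x7654389012 .nil) .done .done) (.leaf 0x2718659043 1 (.leaf 0x1723409568 0 .done))) (.node 5 9 (.cons 0x3409568172 .nil) (.leaf 0x432718659 0 (.node 1 9 (.cons 0x4327658091 .nil) (.node 1 3 (.cons 0x2768543190 .nil) (.node 6 9 (.cons 0x4327185690 .nil) (.leaf 0x723186954 2 (.leaf 0x7231869540 3 .done)) (.node 1 4 (.cons 0x2341765890 .nil) (.node 0 3 (.cons 0x9876541230 .nil) (.node 3 5 (.cons 0x9043568172 .nil) (.leaf 0x867235914 3 .done) .done) .done) .done))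 .done) (.node 5 7 (.cons 0x6571890432 .nil) (.node 3 7 (.cons 0x6590812734 .nil) (.node 7 9 (.cons 0x3456812790 .nil) .done .done) .done) .done))) .done)) .done)) (.node 0 8 .nil (.node 1 6 (.cons 0x3458907612 (.cons 0x9807612345 .nil)) (.node 3 9 (.cons 0x6540932781 (.cons 0x7809321654 (.cons 0x4390856721 .nil))) (.leaf 0x934567218 3 (.leaf 0x5439081276 0 .done)) (.leaf 0x7098543216 1 .done)) (.node 1 6 (.cons 0x3458907612 .nil) (.node 6 8 (.cons 0x9043271865 .nil) (.node 5 7 (.cons 0x6571890432 .nil) (.node 2 6 (.cons 0x9817562340 .nil) (.leaf 0x3409817562 0 (.node 1 3 (.cons 0x6709854312 .nil) (.leaf 0x7098543126 0 (.node 0 2 (.cons 0x9027685431 .nil) (.node 2 5 (.cons 0x9876132540 .nil) .done .done) .done)) .done)) (.node 2 6 (.cons 0x9816234570 .nil) (.leaf 0x7543261890 3 (.leaf 0x5709816234 2 .done)) .done)) .done) (.node 1 3 (.cons 0x6709854312 .nil) (.node 3 7 (.cons 0x9045618732 .nil) (.node 4 9 (.cons 0x9431276580 .nil) (.node 1 5 (.cons 0x9408723156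 .nil) (.node 1 4 (.cons 0x3214567890 .nil) (.node 1 9 (.cons 0x2319876540 .nil) .done .done) .done) (.leaf 0x2765809431 0 (.leaf 0x6721349085 1 .done))) .done) (.node 1 9 (.cons 0x6540918723 .nil) (.node 1 4 (.cons 0x3214567890 .nil) (.node 1 5 (.cons 0x6789045132 .nil) .done .done) .done) .done)) (.leaf 0x7098543216 1 .done))) .done)) .done))) (.node 2 5 (.cons 0x8904325671 .nil) (.node 0 8 (.cons 0x9804325671 .nil) (.node 2 8 (.cons 0x9825671043 .nil) (.node 2 6 .nil (.node 1 5 (.cons 0x9045187623 (.cons 0x4098715623 .nil)) (.node 3 7 (.cons 0x9825673401 (.cons 0x9801265437 (.cons 0x4376510982 .nil))) .done (.leaf 0x2670981543 2 .done)) (.node 0 2 .nil (.node 3 7 (.cons 0x9825673401 (.cons 0x9810254376 .nil)) (.node 1 9 (.cons 0x8917652340 (.cons 0x6540237891 .nil)) (.leaf 0x8256734019 3 .done) .done) .done) .done)) .done) (.node 2 8 (.cons 0x9825671043 .nil) (.node 3 7 (.cons 0x9801256734 .nil) (.node 4 7 (.cons 0x9801256743 .nil) (.node 2 4 (.cons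 0x9801243765 .nil) (.node 4 9 (.cons 0x5673498012 .nil) (.leaf 0x1089437652 1 .done) .done) .done) (.node 0 2 (.cons 0x9810254376 .nil) (.node 6 9 (.cons 0x2543769810 .nil) (.leaf 0x1896734520 0 (.leaf 0x7281096543 0 (.leaf 0x8102543769 2 (.leaf 0x7345201896 3 .done)))) .done) .done)) .done) .done)) (.node 1 6 (.cons 0x4098716523 .nil) (.node 1 3 (.cons 0x6523178904 .nil) (.node 1 4 (.cons 0x3214567890 .nil) (.node 2 9 (.cons 0x8765409231 .nil) (.node 1 5 (.cons 0x3298761540 .nil) (.node 1 9 (.cons 0x8765409132 .nil) .done .done) (.leaf 0x3290456781 3 (.leaf 0x4092318765 0 .done))) .done) (.node 1 9 (.cons 0x6198704523 .nil) (.node 1 4 (.cons 0x3214567890 .nil) (.node 1 5 .nil (.node 2 8 (.cons 0x5407619823 (.cons 0x6704519823 (.cons 0x9041567823 .nil))) .done .done) .done) .done) .done)) (.leaf 0x5234098716 0 (.node 5 8 (.cons 0x4321765890 .nil) (.leaf 0x6712340985 2 (.node 1 9 (.cons 0x6723458190 .nil) (.node 3 5 (.cons 0x7618904532 .nil) (.node 2 6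 (.cons 0x6235407891 .nil) (.leaf 0x4078916235 2 (.leaf 0x789162354 3 .done)) (.node 1 3 (.cons 0x4589076132 .nil) (.node 2 6 (.cons 0x7891326540 .nil) (.leaf 0x9870456231 2 (.leaf 0x918762354 3 .done)) .done) .done)) .done) (.leaf 0x7098543216 1 .done))) .done))) (.leaf 0x981765234 2 .done))) .done))) .done)))
noncomputable def tc9_4_25 : T := (.node 1 6 (.cons 0x8907612345 .nil) (.node 1 8 (.cons 0x7654321890 .nil) (.node 0 8 (.cons 0x9087654123 .nil) (.node 0 4 (.cons 0x9804321765 .nil) (.node 5 7 (.cons 0x4098756123 .nil) (.node 6 9 (.cons 0x3217896540 .nil) (.node 1 3 (.cons 0x4098756132 .nil) (.node 1 9 (.cons 0x6571980432 .nil) .done .done) (.leaf 0x814327569 2 (.leaf 0x8096572341 0 .done))) (.node 1 3 .nil (.node 2 6 (.cons 0x6218907543 (.cons 0x9804312657 .nil)) (.leaf 0x4562317890 0 .done) (.node 0 2 (.cons 0x8902134576 .nil) (.node 2 6 (.cons 0x6218907543 .nil) (.node 3 6 (.cons 0x9871236540 .nil) (.node 0 3 (.cons 0x4567890321 .nil) (.node 0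 6 (.cons 0x8906754312 .nil) .done .done) (.leaf 0x5409871236 2 .done)) .done) .done) .done)) .done)) (.node 5 9 (.cons 0x4321765980 .nil) (.leaf 0x956187234 3 (.leaf 0x7659804321 0 (.leaf 0x6187234095 2 (.leaf 0x1659043278 0 .done)))) .done)) (.node 1 3 (.cons 0x9087654132 .nil) (.node 1 9 (.cons 0x2345671980 .nil) (.node 1 5 .nil (.node 6 8 (.cons 0x9086723451 .nil) (.leaf 0x2768091543 0 (.leaf 0x7234519086 2 (.leaf 0x915432768 3 .done))) .done) .done) .done) .done)) (.node 5 7 (.cons 0x6754321890 .nil) (.node 0 4 (.cons 0x5761890432 .nil) (.node 0 2 (.cons 0x6754320981 .nil) (.node 0 8 (.cons 0x9087654123 .nil) (.node 1 3 (.cons 0x9087654132 .nil) (.node 1 5 (.cons 0x6751890234 .nil) (.node 1 9 (.cons 0x2345671980 .nil) .done .done) .done) .done) (.leaf 0x9816754320 2 .done)) (.node 1 3 .nil (.node 0 2 (.cons 0x6754320981 (.cons 0x9871320456 .nil)) (.node 5 9 (.cons 0x8167234095 (.cons 0x6598713204 (.cons 0x8956713204 (.cons 0x8956713402 .nil)))) .done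 (.leaf 0x9816754320 2 .done)) (.node 2 6 (.cons 0x9871326540 .nil) (.node 1 9 (.cons 0x7891326540 .nil) (.leaf 0x3265407891 2 .done) (.leaf 0x4562317890 0 .done)) .done)) .done)) (.node 4 7 .nil (.node 0 5 (.cons 0x4789056123 (.cons 0x6745098123 (.cons 0x5098167432 .nil))) (.leaf 0x3218905674 0 (.node 0 6 (.cons 0x3457609812 (.cons 0x5476098123 .nil)) (.node 0 3 (.cons 0x4567890321 (.cons 0x6547890321 .nil)) (.node 1 5 (.cons 0x7609815432 (.cons 0x6512309874 (.cons 0x8903215674 .nil))) .done .done) .done) .done)) (.node 0 4 .nil (.node 3 6 (.cons 0x9871236540 .nil) (.leaf 0x2178904563 3 (.node 1 9 (.cons 0x7891236540 (.cons 0x8912367045 .nil)) (.leaf 0x3219870456 0 .done) (.leaf 0x4098123675 0 (.leaf 0x5409871236 2 .done)))) (.node 3 7 (.cons 0x6540987321 .nil) (.node 2 6 (.cons 0x3457621890 .nil) (.node 7 9 (.cons 0x8973401265 .nil) .done (.leaf 0x9043756218 0 .done)) .done) .done)) .done)) .done)) .done)) (.node 1 5 .nil (.node 0 4 (.cons 0x6789045123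 .nil) (.node 3 8 (.cons 0x7654389012 (.cons 0x9832167045 (.cons 0x7612389045 (.cons 0x9041238765 (.cons 0x4516709832 .nil))))) (.node 6 9 (.cons 0x7832145690 (.cons 0x7832140965 (.cons 0x5407169832 (.cons 0x8345127096 .nil)))) .done .done) (.node 3 7 (.cons 0x6540987321 (.cons 0x6512378904 .nil)) (.node 2 8 (.cons 0x9823716540 (.cons 0x9823704516 (.cons 0x4516732890 (.cons 0x4376510982 .nil)))) (.node 2 6 (.cons 0x9826543710 (.cons 0x4098732651 .nil)) (.leaf 0x7345162890 3 .done) .done) .done) (.leaf 0x5678904321 0 .done))) (.node 5 8 (.cons 0x6709854321 .nil) (.node 0 4 (.cons 0x9854076123 .nil) (.node 3 7 (.cons 0x6540987321 .nil) (.node 6 9 (.cons 0x9658732140 .nil) (.node 5 7 (.cons 0x8965712340 .nil) (.node 2 8 (.cons 0x1756982340 .nil) (.node 2 6 (.cons 0x4375628901 .nil) (.leaf 0x3756289014 1 .done) (.leaf 0x7569823401 3 (.leaf 0x5710432896 2 .done))) (.leaf 0x9857043216 0 .done)) (.leaf 0x7321409658 0 (.leaf 0x8961237045 3 .done))) (.node 3 5 (.cons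 0x8907612354 .nil) (.node 0 3 (.cons 0x4567890321 .nil) (.node 4 7 (.cons 0x9856743012 .nil) (.node 0 2 (.cons 0x9856743021 .nil) (.node 2 5 (.cons 0x8903476521 .nil) .done .done) .done) .done) .done) .done)) (.node 1 3 (.cons 0x9854076132 .nil) (.node 1 8 (.cons 0x7654321890 .nil) (.node 1 9 (.cons 0x9185672340 .nil) .done .done) (.node 2 5 (.cons 0x4098765231 .nil) (.leaf 0x3256789041 3 .done) .done)) .done)) (.node 1 8 (.cons 0x7654321890 .nil) (.node 1 3 (.cons 0x4589076132 .nil) (.node 1 9 (.cons 0x6723458190 .nil) .done .done) (.node 1 3 (.cons 0x4589076132 .nil) (.node 1 9 (.cons 0x4327658190 .nil) .done .done) .done)) (.leaf 0x7098543216 1 .done))) .done)) .done)) (.node 0 3 (.cons 0x4567890321 .nil) (.node 3 7 (.cons 0x6541237890 .nil) (.node 0 4 .nil (.node 3 6 (.cons 0x9871236540 .nil) (.leaf 0x2178904563 3 (.node 2 9 (.cons 0x8921076345 (.cons 0x7892104563 (.cons 0x5401298763 .nil))) (.node 5 8 (.cons 0x6709854321 (.cons 0x9856734012 (.cons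 0x1765892340 (.cons 0x9214036587 .nil)))) (.leaf 0x1076345892 0 .done) (.leaf 0x1045637892 2 .done)) (.leaf 0x5409871236 2 .done))) (.node 1 3 .nil (.node 0 2 (.cons 0x9871320456 .nil) (.leaf 0x9876541320 2 (.leaf 0x8902314567 0 (.leaf 0x3145678902 3 .done))) (.node 1 8 (.cons 0x7654321890 .nil) (.node 1 9 (.cons 0x8190432765 .nil) (.node 1 5 (.cons 0x6789045132 .nil) (.node 1 6 (.cons 0x5409876132 .nil) .done .done) .done) .done) .done)) .done)) (.node 0 6 (.cons 0x2378906541 .nil) (.node 4 7 (.cons 0x5609874123 .nil) (.node 3 5 (.cons 0x3560987412 .nil) (.leaf 0x8906532147 3 (.node 1 8 (.cons 0x7654321890 .nil) (.leaf 0x4356098127 0 (.leaf 0x5347218906 1 .done)) .done)) .done) (.leaf 0x4560987321 2 (.node 0 4 .nil (.node 3 9 (.cons 0x2398714560 (.cons 0x5604178932 .nil)) (.leaf 0x4567893210 2 (.node 0 8 (.cons 0x9804321765 .nil) (.node 1 6 (.cons 0x8723906145 (.cons 0x8761239045 (.cons 0x5614098732 (.cons 0x9804561732 .nil)))) .done .done) .done)) .done)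 .done))) .done)) (.node 3 7 (.cons 0x6541237890 .nil) (.node 0 4 (.cons 0x9871230456 .nil) (.node 3 9 (.cons 0x8765409321 .nil) (.node 1 9 (.cons 0x8765409123 .nil) (.node 3 8 (.cons 0x9045678321 .nil) (.leaf 0x6783219045 0 (.leaf 0x7654091238 2 .done)) (.node 3 8 (.cons 0x9045678321 .nil) (.node 4 9 (.cons 0x6549871230 .nil) (.node 0 8 (.cons 0x1945672380 .nil) (.leaf 0x7654910832 0 (.leaf 0x5672380194 1 .done)) (.node 4 7 (.cons 0x6547890321 .nil) (.node 7 9 (.cons 0x8321976540 .nil) .done .done) .done)) (.node 0 8 (.cons 0x4567238091 .nil) (.leaf 0x2380914567 0 .done) .done)) .done)) (.node 1 8 (.cons 0x6541872390 .nil) (.leaf 0x456781239 2 (.node 7 9 (.cons 0x8123409765 .nil) (.node 4 7 (.cons 0x5674321890 .nil) (.node 5 7 (.cons 0x6578140932 .nil) .done .done) .done) .done)) .done)) (.node 4 7 (.cons 0x6547890321 .nil) (.node 4 9 (.cons 0x6549871230 .nil) (.node 2 4 (.cons 0x8901243765 .nil) (.node 3 9 (.cons 0x3987654210 .nil) (.leaf 0x4567893012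 0 .done) .done) .done) .done) .done)) (.node 4 7 (.cons 0x6547890321 .nil) (.node 5 7 .nil (.node 1 8 (.cons 0x7654321890 (.cons 0x6754321890 (.cons 0x6574309812 .nil))) .done .done) .done) .done)) (.leaf 0x8903214567 0 (.leaf 0x9876541230 2 .done)))) (.node 1 8 (.cons 0x7654321890 .nil) (.node 0 8 .nil (.node 6 9 (.cons 0x9654327180 (.cons 0x7218096543 .nil)) (.node 5 8 (.cons 0x1234589670 (.cons 0x6907234581 (.cons 0x6907218543 .nil))) .done (.leaf 0x3271809654 2 (.leaf 0x2170896543 0 .done))) (.node 5 7 .nil (.node 4 9 (.cons 0x5671234980 (.cons 0x6571234980 (.cons 0x6572349081 (.cons 0x6572180943 .nil)))) .done (.node 3 7 .nil (.node 2 4 (.cons 0x9801243765 (.cons 0x6542109873 .nil)) (.node 6 9 (.cons 0x4327569081 (.cons 0x8109657243 (.cons 0x8109654372 (.cons 0x8127345690 .nil)))) (.node 0 3 (.cons 0x9657180324 (.cons 0x4230896571 (.cons 0x7189654230 .nil))) .done .done) .done) (.node 2 4 (.cons 0x8901243765 .nil) (.node 7 9 (.cons 0x5679801243 .nil)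 (.node 3 5 (.cons 0x1243567980 .nil) (.node 5 8 (.cons 0x9856734210 .nil) (.leaf 0x3765890124 1 .done) (.leaf 0x2435679801 0 (.leaf 0x4210897653 2 .done))) .done) (.node 3 6 (.cons 0x5412367890 .nil) (.leaf 0x2109873654 0 (.leaf 0x2109873654 1 (.node 0 2 (.cons 0x9871024563 .nil) (.node 4 7 (.cons 0x9817456320 .nil) (.node 4 9 (.cons 0x7189456320 .nil) (.leaf 0x8170236549 0 .done) .done) .done) .done))) .done)) .done)) (.node 5 8 (.cons 0x6709854321 .nil) (.node 4 7 .nil (.node 0 3 (.cons 0x4567890321 (.cons 0x9032187456 (.cons 0x6547890321 .nil))) (.node 0 6 (.cons 0x9065478123 (.cons 0x9817456032 .nil)) (.leaf 0x9812347560 1 .done) .done) (.node 3 7 .nil (.node 2 4 (.cons 0x9801243765 (.cons 0x6542109873 .nil)) (.node 0 4 (.cons 0x6540987321 .nil) (.node 6 9 (.cons 0x1234589670 (.cons 0x5896701243 (.cons 0x9673214085 (.cons 0x3427569081 (.cons 0x8127345690 .nil))))) .done .done) .done) (.node 7 9 .nil (.node 0 4 (.cons 0x9856734012 (.cons 0x9765804321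 (.cons 0x6589734012 .nil))) .done .done) .done)) .done)) (.node 1 9 (.cons 0x4327658091 .nil) (.node 0 4 (.cons 0x8567234091 .nil) (.leaf 0x9185672340 3 (.node 1 6 (.cons 0x2345890761 .nil) (.leaf 0x916587234 0 (.node 1 3 (.cons 0x4589076132 .nil) (.node 1 5 (.cons 0x9085143276 .nil) .done .done) .done)) (.leaf 0x2340918567 0 .done))) (.node 1 5 (.cons 0x9085143276 .nil) (.node 1 6 (.cons 0x2345890761 .nil) (.node 1 3 .nil (.node 2 6 (.cons 0x6218907543 (.cons 0x4589132670 (.cons 0x7623145890 .nil))) .done .done) .done) .done) .done)) .done)) .done))) (.node 1 9 (.cons 0x2345671980 .nil) (.node 7 9 (.cons 0x6543279081 .nil) (.node 6 9 (.cons 0x9654327180 .nil) (.leaf 0x2345690817 3 (.node 6 8 (.cons 0x1865432790 .nil) (.leaf 0x5432790186 0 (.node 3 7 (.cons 0x8127345690 .nil) (.node 4 9 .nil (.node 0 3 (.cons 0x4567890321 (.cons 0x8765490321 (.cons 0x6549871230 .nil))) .done (.node 5 9 (.cons 0x1723495680 .nil) (.leaf 0x6801723495 2 .done) .done)) .done)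 .done)) .done)) (.node 1 3 (.cons 0x6543180972 .nil) (.node 1 6 (.cons 0x3456180972 .nil) (.leaf 0x816543279 2 .done) .done) .done)) (.node 1 3 (.cons 0x8091327654 .nil) (.node 2 4 (.cons 0x3245671980 .nil) (.leaf 0x6542319087 0 (.leaf 0x3190876542 3 .done)) (.node 1 6 (.cons 0x8907612345 .nil) (.node 1 5 .nil (.node 4 9 (.cons 0x6513278094 (.cons 0x8094315672 .nil)) (.leaf 0x2349081567 0 (.leaf 0x3276518094 2 .done)) .done) .done) .done)) .done)) .done))) (.node 4 7 (.cons 0x5674321890 .nil) (.node 0 5 (.cons 0x2347650981 .nil) (.node 5 7 .nil (.node 0 6 (.cons 0x8906754123 (.cons 0x5760981432 .nil)) (.leaf 0x9812347560 2 (.leaf 0x5743218906 3 .done)) (.node 0 4 .nil (.node 2 5 (.cons 0x3256740981 .nil) (.leaf 0x6718904325 3 (.node 3 9 (.cons 0x2567439810 (.cons 0x6752189340 (.cons 0x4012567893 (.cons 0x9325041876 .nil)))) (.leaf 0x4567893210 2 .done) (.leaf 0x3409817652 2 .done))) (.node 3 7 (.cons 0x6540987321 .nil) (.node 3 6 (.cons 0x9871236540 .nil)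 (.leaf 0x5721890436 3 (.node 7 9 (.cons 0x8790456321 .nil) .done (.leaf 0x436572189 0 .done))) .done) .done)) .done)) (.leaf 0x9812347650 2 (.leaf 0x8905674321 0 (.node 5 7 (.cons 0x6750981432 .nil) (.node 0 8 .nil (.node 4 9 (.cons 0x2349817650 (.cons 0x6572180943 (.cons 0x5672180943 .nil))) .done (.node 5 8 (.cons 0x6709854321 .nil) (.node 4 8 (.cons 0x9056723481 .nil) (.node 4 9 (.cons 0x2349817650 .nil) (.node 1 6 (.cons 0x9854321670 .nil) (.leaf 0x5094327816 1 (.node 1 9 (.cons 0x3481905672 .nil) .done .done)) .done) .done) .done) .done)) .done) .done)))) (.node 1 6 (.cons 0x8907612345 .nil) (.node 5 7 .nil (.node 0 6 (.cons 0x8906754123 (.cons 0x5760981432 .nil)) (.node 0 8 (.cons 0x9806543217 .nil) (.node 2 9 (.cons 0x1765432980 (.cons 0x3475618092 (.cons 0x8092345761 (.cons 0x8092341675 (.cons 0x5417608923 .nil))))) .done .done) (.node 3 8 (.cons 0x7654389012 (.cons 0x6754389012 .nil)) (.leaf 0x2145760983 2 (.leaf 0x1238906754 0 (.node 0 2 (.cons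 0x9834567102 (.cons 0x9023875416 .nil)) (.node 2 5 (.cons 0x9834106752 .nil) (.leaf 0x983412576 2 .done) .done) .done))) .done)) (.node 1 3 .nil (.node 0 2 (.cons 0x6574318902 (.cons 0x8902134765 (.cons 0x8902314576 .nil))) (.node 0 8 (.cons 0x9802345671 .nil) (.node 4 9 (.cons 0x6572349081 (.cons 0x6571894320 (.cons 0x5671894320 .nil))) .done .done) .done) (.node 1 9 .nil (.node 0 4 (.cons 0x8765409123 (.cons 0x8190432756 (.cons 0x8190432765 .nil))) (.node 0 8 (.cons 0x2345671980 .nil) (.node 2 6 (.cons 0x2657431890 (.cons 0x6234570891 (.cons 0x4326571980 (.cons 0x3189047562 .nil)))) .done .done) .done) (.node 1 5 .nil (.node 0 2 (.cons 0x6574318902 (.cons 0x8902156743 .nil)) (.node 4 6 (.cons 0x9817564320 (.cons 0x9815702346 (.cons 0x5189076432 .nil))) .done (.node 3 6 (.cons 0x2136547890 (.cons 0x8902367514 .nil)) (.leaf 0x4563120987 0 (.leaf 0x5478902136 2 .done)) .done)) .done) .done)) .done)) .done)) (.node 1 9 .nil (.node 4 8 (.cons 0x5489076123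 (.cons 0x5672348190 .nil)) (.node 0 5 (.cons 0x3476509812 (.cons 0x6705489123 (.cons 0x9184327650 .nil))) (.leaf 0x3481905672 3 (.leaf 0x2348190567 2 .done)) (.node 0 4 (.cons 0x8765409123 (.cons 0x8190432765 .nil)) (.node 0 8 (.cons 0x2345671980 .nil) .done .done) .done)) (.node 4 9 .nil (.node 3 8 (.cons 0x7654389012 (.cons 0x5498321670 (.cons 0x6549012783 .nil))) (.leaf 0x9456783210 2 (.node 0 5 (.cons 0x3476509812 (.cons 0x4905678123 (.cons 0x6170549832 (.cons 0x4905672381 (.cons 0x2349817650 .nil))))) .done .done)) (.node 1 5 (.cons 0x8156723490 .nil) (.node 1 3 .nil (.node 0 2 (.cons 0x5671894320 (.cons 0x6549871320 (.cons 0x8765132094 (.cons 0x8945671320 .nil)))) .done .done) .done) .done)) .done)) .done)) .done)) .done)) .done)))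
noncomputable def tc9_4_26 : T := (.node 3 7 (.cons 0x6540987321 .nil) (.node 2 9 (.cons 0x6540129873 (.cons 0x8921043765 (.cons 0x8921045673 .nil))) (.node 5 8 (.cons 0x6709854321 (.cons 0x6701298543 .nil)) (.node 3 8 (.cons 0x7654389012 (.cons 0x8345672901 .nil)) (.node 0 2 (.cons 0x8902345671 .nil) (.leaf 0x9834567120 3 (.node 4 6 (.cons 0x7346589201 (.cons 0x9856437120 .nil)) (.leaf 0x5892017346 2 (.leaf 0x2107346589 0 .done)) (.leaf 0x7120983456 0 .done))) (.node 2 5 (.cons 0x9834012567 (.cons 0x9837652104 .nil)) .done .done)) (.leaf 0x6734012985 1 (.node 0 6 (.cons 0x6073458921 .nil) (.leaf 0x7123458906 2 (.leaf 0x1760985432 0 (.node 1 3 (.cons 0x8543129076 (.cons 0x6073129854 (.cons 0x4589213760 (.cons 0x7658904312 .nil)))) .done (.leaf 0x9854321760 3 .done)))) .done))) (.node 1 9 (.cons 0x8912376540 .nil) (.node 6 8 (.cons 0x5437689210 (.cons 0x8654327190 .nil)) (.node 3 9 (.cons 0x5439867012 (.cons 0x1932786540 .nil)) (.node 2 5 (.cons 0x9867012543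 (.cons 0x4012567893 (.cons 0x8937652104 .nil))) (.leaf 0x1043987652 2 .done) .done) (.node 0 5 (.cons 0x9123786504 (.cons 0x7321986504 (.cons 0x8650917234 .nil))) (.leaf 0x3405689127 0 .done) (.leaf 0x5409123786 0 .done))) (.node 5 8 (.cons 0x6734589210 (.cons 0x7658912340 (.cons 0x8567234091 (.cons 0x2198567340 .nil)))) (.node 0 6 (.cons 0x9123785604 (.cons 0x7321985604 (.cons 0x6017345892 .nil))) (.leaf 0x3406589127 0 .done) .done) .done)) .done)) (.node 5 8 (.cons 0x6709854321 (.cons 0x9856734012 .nil)) (.node 4 6 (.cons 0x9046587321 (.cons 0x2173465890 .nil)) (.node 6 9 (.cons 0x5896437012 (.cons 0x5896432170 (.cons 0x5896407321 (.cons 0x8569043721 .nil)))) (.node 2 8 (.cons 0x4372856901 (.cons 0x9658273401 (.cons 0x6901728543 .nil))) (.leaf 0x6710982345 0 .done) .done) (.node 2 6 (.cons 0x9856210437 (.cons 0x3264589071 .nil)) (.node 3 6 (.cons 0x9854362107 .nil) (.leaf 0x7098546321 0 .done) (.leaf 0x9856217340 1 .done)) .done)) (.node 1 8 (.cons 0x9043276581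 .nil) (.node 2 9 (.cons 0x9273401856 (.cons 0x9276581043 .nil)) (.leaf 0x6734012985 1 (.node 3 6 (.cons 0x9276345810 (.cons 0x2985436710 (.cons 0x8543671092 .nil))) (.leaf 0x2763458109 2 .done) (.leaf 0x6734012985 0 .done))) (.leaf 0x981237654 0 (.node 1 9 (.cons 0x8567234091 .nil) (.node 0 3 (.cons 0x4567890321 .nil) (.leaf 0x5403219876 0 (.node 0 8 (.cons 0x6580917234 .nil) .done (.leaf 0x4567891230 2 .done))) (.leaf 0x7234091856 2 .done)) .done))) (.node 0 6 (.cons 0x4560987123 .nil) (.leaf 0x7123458906 2 (.leaf 0x1760985432 0 (.node 2 6 (.cons 0x3458907621 .nil) (.node 0 2 (.cons 0x6589021734 .nil) (.node 1 8 (.cons 0x9043721856 .nil) (.leaf 0x7654320981 2 (.leaf 0x9817654320 3 (.node 1 6 (.cons 0x3458907612 .nil) (.node 2 4 (.cons 0x9042165873 .nil) (.node 3 6 (.cons 0x5421098763 (.cons 0x5890243671 .nil)) .done .done) .done) .done))) .done) (.leaf 0x9856217340 1 .done)) (.leaf 0x9854321760 3 .done)))) .done))) (.node 2 8 (.cons 0x6543710982 .nil)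 (.node 7 9 (.cons 0x3456798210 .nil) (.node 3 8 (.cons 0x5679834012 .nil) (.node 2 6 (.cons 0x7983401265 .nil) (.node 5 8 (.cons 0x9721043856 (.cons 0x9017265834 (.cons 0x6583409721 .nil))) .done (.leaf 0x8907126543 0 .done)) (.leaf 0x2109765438 1 (.node 1 8 (.cons 0x5679812340 (.cons 0x9018273456 .nil)) (.node 2 5 (.cons 0x8976521043 (.cons 0x6732540981 .nil)) (.node 1 6 (.cons 0x4379825610 (.cons 0x8256109734 (.cons 0x4098732561 (.cons 0x5409816732 .nil)))) .done .done) .done) .done))) (.node 4 7 .nil (.node 3 6 (.cons 0x9821076345 (.cons 0x1236547890 (.cons 0x9012874563 .nil))) (.node 1 5 (.cons 0x8215634790 (.cons 0x6734510982 (.cons 0x4736510982 .nil))) (.leaf 0x8763215409 0 .done) .done) (.node 5 7 .nil (.node 3 9 (.cons 0x5674398210 (.cons 0x6754398210 (.cons 0x6574398210 .nil))) (.node 0 3 (.cons 0x6547893012 (.cons 0x9821034765 .nil)) (.node 3 6 (.cons 0x9821076345 (.cons 0x4098756321 .nil)) .done .done) .done) .done) .done)) .done)) (.node 3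 9 (.cons 0x7654398210 .nil) (.leaf 0x4567893210 2 (.leaf 0x4012893765 0 (.node 2 5 (.cons 0x4012567893 .nil) (.leaf 0x6789340125 3 (.leaf 0x1043987652 2 (.node 0 2 (.cons 0x9820173456 .nil) (.node 2 6 (.cons 0x9826543710 .nil) (.node 1 9 (.cons 0x7345628910 (.cons 0x5437628910 (.cons 0x1982376540 .nil))) .done .done) .done) .done))) .done))) (.node 1 8 (.cons 0x7654321890 .nil) (.node 2 9 (.cons 0x5673401892 (.cons 0x1892376540 .nil)) (.node 1 5 (.cons 0x8290154376 (.cons 0x6732890451 .nil)) (.node 0 6 (.cons 0x9281067345 (.cons 0x6098237154 (.cons 0x5432890671 .nil))) (.node 1 6 (.cons 0x8290167345 (.cons 0x5409823761 .nil)) .done .done) .done) (.leaf 0x5401892376 0 .done)) (.node 0 8 (.cons 0x9081723456 .nil) (.node 3 8 (.cons 0x7654389012 .nil) (.node 0 2 (.cons 0x8902345671 .nil) (.leaf 0x4567120983 2 (.node 7 9 (.cons 0x5679834012 (.cons 0x3897654021 .nil)) .done .done)) .done) .done) (.node 1 6 (.cons 0x5409823761 .nil) (.node 2 5 (.cons 0x9825437610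 (.cons 0x9810437652 (.cons 0x9825401673 .nil))) (.node 5 9 (.cons 0x2895437610 (.cons 0x1673289540 (.cons 0x5981670432 (.cons 0x8127659043 .nil)))) .done .done) (.node 2 4 (.cons 0x9042378165 .nil) (.node 5 9 (.cons 0x2437659810 (.cons 0x9561873240 (.cons 0x1895673240 (.cons 0x7618234095 (.cons 0x5904376182 .nil))))) .done .done) .done)) .done))) (.leaf 0x6710982345 0 .done)))) .done))) (.node 0 3 (.cons 0x4567890321 .nil) (.node 4 7 (.cons 0x6547890321 .nil) (.node 1 6 (.cons 0x9874561230 .nil) (.node 0 8 (.cons 0x9807612345 .nil) (.node 5 9 (.cons 0x8954321670 (.cons 0x6598032174 (.cons 0x6598034712 .nil))) (.node 4 6 (.cons 0x3216459870 (.cons 0x8095643271 .nil)) (.node 6 8 (.cons 0x9540786123 (.cons 0x2345986170 .nil)) .done .done) (.leaf 0x7612345980 0 .done)) (.node 2 6 (.cons 0x9874562103 (.cons 0x9803265471 .nil)) (.node 5 8 (.cons 0x9854321670 (.cons 0x9856217430 .nil)) (.node 1 9 (.cons 0x5623471980 (.cons 0x9176234085 (.cons 0x9176580432 (.cons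 0x6547198032 .nil)))) .done (.leaf 0x1265890347 1 .done)) .done) .done)) (.node 2 4 (.cons 0x6542309871 .nil) (.leaf 0x324561789 0 (.node 1 4 (.cons 0x3214567890 .nil) (.node 0 6 (.cons 0x9874560321 (.cons 0x3245609871 .nil)) (.node 3 5 (.cons 0x9874210653 (.cons 0x4235609871 .nil)) (.leaf 0x8714235609 0 (.node 4 9 (.cons 0x8760941235 (.cons 0x8716549032 (.cons 0x8712490653 .nil))) .done .done)) (.node 3 7 (.cons 0x8906542371 .nil) (.node 4 8 (.cons 0x5673489012 (.cons 0x5609842371 (.cons 0x5609842173 .nil))) .done .done) .done)) .done) (.leaf 0x3098716542 2 .done))) (.leaf 0x2309874561 2 (.leaf 0x3216547890 0 .done)))) (.node 2 6 (.cons 0x8903265471 .nil) (.node 3 7 (.cons 0x9873012654 .nil) (.node 3 8 (.cons 0x9045678321 (.cons 0x7621098345 .nil)) (.node 7 9 (.cons 0x9783045621 .nil) .done (.node 3 9 (.cons 0x8765409321 .nil) (.node 1 5 (.cons 0x9834510762 (.cons 0x4510938762 (.cons 0x6278390154 .nil))) (.node 1 9 (.cons 0x7832654091 .nil) (.leaf 0x7654091238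 2 .done) .done) .done) .done)) .done) (.node 7 9 (.cons 0x8971265430 .nil) (.node 3 9 (.cons 0x2654789301 .nil) (.node 4 6 (.cons 0x7893012645 (.cons 0x5462178930 .nil)) .done (.leaf 0x5621789304 0 .done)) .done) (.node 5 8 (.cons 0x6709854321 (.cons 0x1743265890 (.cons 0x2658903471 .nil))) (.node 6 9 (.cons 0x1234589670 (.cons 0x6985430712 .nil)) (.node 1 8 (.cons 0x5623471890 (.cons 0x9623047185 (.cons 0x9658174032 .nil))) .done (.node 1 4 (.cons 0x5896234170 (.cons 0x9623041785 .nil)) (.node 0 5 (.cons 0x4326985071 .nil) (.leaf 0x8962305417 0 (.node 2 8 (.cons 0x3289670541 (.cons 0x8271096543 (.cons 0x3289671450 .nil))) .done (.leaf 0x2341705896 0 .done))) .done) .done)) (.node 1 4 (.cons 0x7143265890 .nil) (.leaf 0x3265890714 0 (.node 0 2 (.cons 0x6714589023 .nil) (.leaf 0x8902341765 0 .done) .done)) .done)) .done))) (.node 2 6 (.cons 0x3098745621 (.cons 0x8903471265 .nil)) (.node 6 8 (.cons 0x5689034712 (.cons 0x9862170345 .nil)) (.leaf 0x986547123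 0 (.node 0 8 (.cons 0x9803471265 .nil) (.node 1 9 (.cons 0x5432689170 (.cons 0x5432768091 (.cons 0x7430891265 (.cons 0x7456219803 .nil)))) .done .done) .done)) (.node 0 2 (.cons 0x8902345671 .nil) (.node 0 6 (.cons 0x9871230654 .nil) (.node 5 8 (.cons 0x6709854321 (.cons 0x9856034712 .nil)) (.node 1 3 (.cons 0x9856021347 (.cons 0x8902134765 .nil)) (.node 1 6 (.cons 0x9874561203 .nil) .done (.leaf 0x987456213 0 .done)) (.leaf 0x9034712658 0 (.leaf 0x1760985432 0 .done))) (.node 5 8 (.cons 0x6709854321 .nil) (.leaf 0x4321760985 2 (.leaf 0x3458906712 0 (.leaf 0x9034712658 0 (.leaf 0x9854321760 3 .done)))) .done)) (.node 1 8 (.cons 0x7654321890 .nil) (.leaf 0x7654320981 2 (.node 0 6 (.cons 0x7189065432 .nil) (.node 0 8 (.cons 0x9081723456 .nil) .done .done) (.leaf 0x9817654320 3 (.leaf 0x9032654718 0 .done)))) .done)) .done)) .done))) (.node 3 9 (.cons 0x8765409321 (.cons 0x8712390456 .nil)) (.node 1 4 (.cons 0x3214567890 .nil) (.node 0 6 (.cons 0x5412398760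 .nil) (.node 0 5 (.cons 0x6789321450 .nil) (.node 0 8 (.cons 0x7608932145 (.cons 0x5417608932 .nil)) .done (.leaf 0x9321450678 2 .done)) (.node 0 5 (.cons 0x6789321450 (.cons 0x6054178932 .nil)) (.leaf 0x9321450678 0 .done) .done)) (.leaf 0x8903214567 0 (.node 5 8 (.cons 0x6709854321 (.cons 0x4309856712 .nil)) (.node 0 6 (.cons 0x4589321760 .nil) (.leaf 0x2398540671 2 (.leaf 0x3217604589 3 .done)) (.node 0 6 (.cons 0x9321785406 .nil) (.node 3 6 (.cons 0x9360127854 (.cons 0x9063214587 (.cons 0x9063278541 .nil))) .done (.node 3 7 (.cons 0x6098541732 .nil) (.node 3 8 (.cons 0x9045678321 (.cons 0x5417609832 .nil)) .done .done) (.leaf 0x3458906712 0 .done))) (.node 2 6 (.cons 0x3267145890 .nil) (.node 5 7 (.cons 0x8934576210 (.cons 0x2675890341 .nil)) .done (.leaf 0x7145890326 0 (.leaf 0x8901762345 0 .done))) .done))) .done))) (.node 2 8 (.cons 0x8276543901 (.cons 0x2893456710 (.cons 0x6540932871 .nil))) (.node 0 6 (.cons 0x5432890671 .nil) (.node 3 7 (.cons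 0x9821067345 .nil) .done (.node 3 8 (.cons 0x9045678321 (.cons 0x7123890654 .nil)) (.node 5 9 (.cons 0x4593827601 (.cons 0x6017283954 (.cons 0x6710459382 (.cons 0x2839540671 .nil)))) .done .done) .done)) (.leaf 0x6710982345 0 .done)) .done)) (.node 1 4 (.cons 0x6541789032 .nil) (.node 3 9 (.cons 0x8765409321 (.cons 0x8712390456 .nil)) (.node 2 9 (.cons 0x1456789230 (.cons 0x6541789230 .nil)) (.node 0 5 (.cons 0x6789321450 (.cons 0x6503298714 (.cons 0x8923056714 .nil))) .done (.node 1 9 (.cons 0x8765409123 .nil) (.node 6 8 (.cons 0x9145687230 (.cons 0x9178654032 (.cons 0x8654327190 (.cons 0x8654309172 .nil)))) (.leaf 0x329178654 2 .done) (.node 2 5 (.cons 0x4198765230 .nil) (.leaf 0x7652304198 0 (.node 0 5 (.cons 0x6789321450 .nil) (.node 2 4 (.cons 0x5678914230 .nil) (.leaf 0x9142305678 0 .done) .done) .done)) .done)) .done)) (.node 2 4 (.cons 0x5678930142 (.cons 0x6542309871 .nil)) (.node 2 9 (.cons 0x1456789230 (.cons 0x6541789230 .nil)) (.node 0 5 (.cons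 0x4123987650 .nil) (.node 4 6 (.cons 0x7893214650 (.cons 0x2398714650 .nil)) (.leaf 0x8932146507 2 .done) (.node 6 8 (.cons 0x9867054123 (.cons 0x5429867103 (.cons 0x9867142305 (.cons 0x3245098671 (.cons 0x5039867142 .nil))))) .done .done)) .done) .done) .done)) (.node 2 4 (.cons 0x6542309871 .nil) (.node 3 7 (.cons 0x8901243765 .nil) (.node 3 6 (.cons 0x5412367890 .nil) (.node 0 8 (.cons 0x9087632145 (.cons 0x9087123654 (.cons 0x9801243765 .nil))) .done (.leaf 0x2109873654 2 .done)) .done) (.node 1 9 (.cons 0x8917654230 .nil) (.leaf 0x4567891032 2 (.node 0 5 (.cons 0x4230567891 (.cons 0x8917650324 .nil)) (.node 2 5 (.cons 0x6789032541 (.cons 0x8903254176 .nil)) .done .done) .done)) .done)) .done)) .done))) (.node 1 8 (.cons 0x5671890432 .nil) (.node 0 2 (.cons 0x9817654023 .nil) (.node 7 9 (.cons 0x1897654320 (.cons 0x3456798120 .nil)) (.node 2 5 (.cons 0x1897652340 .nil) (.node 0 8 (.cons 0x6523408971 (.cons 0x9804325671 .nil)) .done (.leaf 0x9810432567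 2 (.node 1 3 (.cons 0x6540987132 (.cons 0x8904523176 .nil)) (.leaf 0x2045679813 2 (.leaf 0x6798134025 3 .done)) .done))) .done) (.node 6 9 (.cons 0x5432189670 (.cons 0x7189654023 (.cons 0x7189654320 .nil))) (.node 5 8 (.cons 0x6709854321 (.cons 0x9658172340 (.cons 0x9658172043 .nil))) (.node 1 4 (.cons 0x4178569023 .nil) (.leaf 0x9658714320 1 (.node 3 5 (.cons 0x8534109672 (.cons 0x4023569871 (.cons 0x6902358714 .nil))) (.leaf 0x6534027189 3 .done) .done)) .done) (.node 3 7 (.cons 0x8965437120 (.cons 0x5698173402 .nil)) (.leaf 0x8965437021 0 .done) .done)) (.leaf 0x7654320981 2 .done))) (.node 2 6 (.cons 0x7189043265 (.cons 0x7189045623 .nil)) (.node 5 7 (.cons 0x6234570981 (.cons 0x6218907543 .nil)) (.leaf 0x3409817562 0 .done) (.node 3 9 (.cons 0x6540932781 (.cons 0x1789326540 .nil)) (.node 2 5 (.cons 0x3987625401 (.cons 0x6254017893 .nil)) (.node 6 8 (.cons 0x8672109345 (.cons 0x9043271865 (.cons 0x6817254093 .nil))) (.node 0 5 (.cons 0x4501267893 (.cons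 0x9862345071 .nil)) (.leaf 0x4321768905 2 .done) .done) .done) (.leaf 0x1893265407 0 (.node 2 8 (.cons 0x5439826701 (.cons 0x5439826710 .nil)) (.leaf 0x6710982345 0 .done) .done))) .done)) (.node 0 2 (.cons 0x8902345671 .nil) (.leaf 0x4320981765 0 (.node 2 5 (.cons 0x6718904523 .nil) (.node 1 3 (.cons 0x9871320456 (.cons 0x9045231876 (.cons 0x6540987132 (.cons 0x4098765231 .nil)))) .done (.node 0 8 (.cons 0x9804325671 .nil) (.node 2 8 (.cons 0x9825671043 .nil) .done .done) .done)) (.leaf 0x9817654320 3 (.node 0 6 (.cons 0x7609812345 .nil) (.node 5 8 (.cons 0x6709854321 (.cons 0x9067185432 .nil)) (.leaf 0x6712340985 2 (.node 0 5 (.cons 0x8905432176 .nil) (.node 7 9 (.cons 0x8560971234 (.cons 0x6097185432 .nil)) (.leaf 0x5432189760 0 .done) .done) (.leaf 0x7123458906 2 .done))) (.node 5 7 (.cons 0x6754321890 .nil) (.node 2 5 (.cons 0x9817523406 .nil) (.node 3 6 (.cons 0x9817632045 (.cons 0x9045236781 .nil)) (.leaf 0x1098763452 1 (.leaf 0x9012543678 0 .done))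 .done) (.leaf 0x9812345760 0 (.leaf 0x9812345760 1 .done))) .done)) .done)))) .done))) .done)))
noncomputable def uc9_4_6 : T := (.node 0 4 (.cons 0x6540987123 .nil) tc9_4_26 (.node 1 4 (.cons 0x3214567890 .nil) tc9_4_25 (.node 0 4 (.cons 0x8904321765 .nil) tc9_4_24 .done)))
theorem sub_c9_4_6 : root 9 refs9_4 [] 0x700000008703000000003060007050060500000000504000000004030000000030100007000102000000002018050000010 0xfe7fff77ff17ff9fffcfffe7fff5ff79fff9fedd 9 1 7 .nil uc9_4_6 = true := by decide +kernel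
noncomputable def tc9_4_27 : T := (.node 0 4 .nil (.node 1 9 (.cons 0x5672340891 (.cons 0x3276540891 .nil)) (.node 1 7 (.cons 0x8091765432 (.cons 0x8904321765 .nil)) .done (.leaf 0x5403219876 0 (.node 3 9 (.cons 0x8934567210 (.cons 0x6540127893 (.cons 0x8934012765 .nil))) (.node 3 5 (.cons 0x6789123540 .nil) (.node 0 6 (.cons 0x4532760891 .nil) (.node 2 4 (.cons 0x4278935601 (.cons 0x6789012453 .nil)) (.node 2 6 (.cons 0x8762453910 .nil) (.leaf 0x7801935426 3 (.leaf 0x4539108762 2 .done)) .done) .done) (.node 1 6 (.cons 0x5432761980 (.cons 0x9870453216 (.cons 0x4016539872 (.cons 0x5408916723 .nil)))) (.leaf 0x453216789 0 .done) .done)) .done) .done))) (.node 1 7 (.cons 0x6540987123 .nil) (.node 3 7 (.cons 0x6540987321 .nil) (.node 0 5 .nil (.node 1 4 (.cons 0x3214567890 (.cons 0x9873214056 (.cons 0x6789054123 .nil))) .done (.node 1 4 (.cons 0x3214567890 .nil) (.node 1 5 (.cons 0x6512378904 .nil) (.node 0 6 (.cons 0x9873214065 .nil) (.node 0 2 .nil (.node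 1 3 (.cons 0x9801345672 .nil) (.leaf 0x7890231456 0 .done) .done) .done) .done) (.node 2 4 (.cons 0x8901243765 .nil) (.node 2 5 (.cons 0x8901256734 .nil) (.node 1 5 (.cons 0x6512378904 .nil) (.node 1 3 (.cons 0x9087654231 .nil) (.node 6 9 (.cons 0x4372569801 .nil) (.leaf 0x871324569 2 (.leaf 0x4132769805 3 (.leaf 0x5413276980 2 (.leaf 0x8096542317 0 .done)))) .done) .done) .done) .done) .done)) .done)) (.node 3 6 (.cons 0x7890456321 .nil) (.node 3 5 .nil (.node 2 9 (.cons 0x2987365401 (.cons 0x4536789210 (.cons 0x4356729801 (.cons 0x8921076354 .nil)))) (.leaf 0x5637892104 0 .done) (.node 3 9 (.cons 0x8934567210 .nil) (.node 1 3 (.cons 0x9801345672 .nil) (.node 1 9 (.cons 0x7891236540 .nil) (.leaf 0x3219870456 0 (.leaf 0x2365407891 2 .done)) .done) (.leaf 0x127893654 0 .done)) .done)) (.node 5 7 (.cons 0x4098756321 .nil) (.node 4 7 .nil (.node 5 8 (.cons 0x6709854321 (.cons 0x9856347210 .nil)) (.node 2 9 (.cons 0x3456729801 (.cons 0x7436589210 (.cons 0x3476589210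 (.cons 0x2985637401 .nil)))) (.leaf 0x7430129856 0 .done) .done) .done) .done) .done)) .done)) (.node 3 7 (.cons 0x6540987321 .nil) (.node 0 5 (.cons 0x8905671234 .nil) (.node 7 9 .nil (.node 1 6 (.cons 0x2378904561 (.cons 0x5617980432 (.cons 0x8790456123 (.cons 0x3279804561 .nil)))) .done (.node 5 7 (.cons 0x8904321756 .nil) (.node 4 7 .nil (.node 3 8 (.cons 0x9834567210 (.cons 0x9832174056 (.cons 0x6509832174 (.cons 0x6745098321 (.cons 0x4765098321 .nil))))) .done .done) .done) .done)) .done) .done) .done)) .done)) (.node 0 4 .nil (.node 3 9 (.cons 0x8934567210 (.cons 0x8934012765 .nil)) (.node 3 8 (.cons 0x9834567210 (.cons 0x9834012765 .nil)) (.node 1 9 (.cons 0x5672340891 (.cons 0x3276540891 .nil)) (.node 1 7 (.cons 0x8091765432 (.cons 0x8904321765 .nil)) .done (.node 1 5 (.cons 0x6789321540 (.cons 0x6723980451 .nil)) (.leaf 0x2340891567 0 (.node 1 7 (.cons 0x6543271980 (.cons 0x8904321765 .nil)) .done .done)) .done)) .done) (.node 6 9 (.cons 0x4569872103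 (.cons 0x3045698721 .nil)) (.node 7 9 (.cons 0x8972103456 .nil) (.node 6 8 (.cons 0x1279865430 .nil) (.leaf 0x3456897210 1 (.node 5 8 (.cons 0x6709854321 (.cons 0x5896704321 .nil)) (.node 1 5 (.cons 0x7896512304 (.cons 0x2704396851 .nil)) (.node 1 6 (.cons 0x9807615432 (.cons 0x9615807234 (.cons 0x4516893072 .nil))) .done (.leaf 0x769851234 3 .done)) .done) .done)) .done) (.node 3 8 (.cons 0x9834567210 (.cons 0x5407698321 (.cons 0x5401276983 (.cons 0x9834012765 .nil)))) .done .done)) .done)) (.node 0 5 .nil (.node 3 9 (.cons 0x8934567210 (.cons 0x8934501276 .nil)) (.node 1 8 (.cons 0x7654321890 (.cons 0x9321876504 (.cons 0x7650981234 .nil))) (.leaf 0x5672189340 3 (.leaf 0x2390456781 3 .done)) (.node 1 8 (.cons 0x2765439810 (.cons 0x9812345076 (.cons 0x4398105672 .nil))) (.node 1 4 (.cons 0x3214567890 (.cons 0x6789054123 .nil)) (.node 1 6 (.cons 0x9327816540 (.cons 0x9327816504 (.cons 0x6189327054 .nil))) (.leaf 0x8723904561 3 .done) .done) (.leaf 0x456781239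 2 .done)) .done)) (.node 4 7 (.cons 0x6547890321 .nil) (.node 7 9 (.cons 0x8972103456 .nil) (.node 4 6 (.cons 0x8972103465 .nil) (.node 1 7 (.cons 0x8971230564 .nil) (.node 3 7 .nil (.node 1 4 (.cons 0x3214567890 (.cons 0x8973214650 (.cons 0x8905412376 .nil))) .done .done) .done) (.node 1 7 .nil (.node 6 9 (.cons 0x4569872103 (.cons 0x4569803271 (.cons 0x8965430172 .nil))) .done (.node 3 7 .nil (.node 1 4 (.cons 0x3214567890 (.cons 0x8973056412 (.cons 0x6541237890 (.cons 0x8905412376 .nil)))) .done .done) .done)) .done)) (.node 6 8 (.cons 0x1279865430 .nil) (.leaf 0x3456897210 1 (.node 5 7 (.cons 0x9865721034 .nil) (.node 2 5 (.cons 0x9865274301 .nil) (.node 0 6 .nil (.node 1 5 (.cons 0x6890743251 (.cons 0x9860743251 .nil)) .done .done) .done) .done) (.node 4 9 (.cons 0x6549872103 .nil) (.node 5 9 (.cons 0x6895430721 .nil) (.node 2 4 .nil (.node 1 3 (.cons 0x9801345672 (.cons 0x9867054213 (.cons 0x9087654231 (.cons 0x7689054213 (.cons 0x8956724310 .nil)))))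 .done (.node 1 4 (.cons 0x3214567890 .nil) (.node 3 9 (.cons 0x8934567210 .nil) (.node 4 8 (.cons 0x6721054893 .nil) .done (.leaf 0x7054123986 0 .done)) .done) .done)) .done) (.node 3 9 (.cons 0x8934567210 .nil) (.node 5 8 (.cons 0x4398567210 .nil) (.leaf 0x1276589340 3 (.leaf 0x2104398567 2 .done)) (.node 5 9 (.cons 0x6895430721 .nil) (.node 0 2 (.cons 0x8934567201 .nil) (.node 0 6 (.cons 0x3459860721 .nil) .done .done) .done) .done)) .done)) .done))) .done)) (.node 0 6 .nil (.node 1 9 (.cons 0x8765409123 (.cons 0x7234560891 (.cons 0x5432760891 (.cons 0x8912743065 (.cons 0x8912745603 .nil))))) .done (.node 0 2 .nil (.node 1 6 (.cons 0x3098745612 (.cons 0x9874561203 .nil)) (.node 3 6 (.cons 0x9872103654 (.cons 0x9874563021 .nil)) (.node 4 9 (.cons 0x2789456301 (.cons 0x3654987201 .nil)) (.leaf 0x8721036549 2 (.node 1 3 (.cons 0x6547890312 (.cons 0x8761320945 (.cons 0x8943102765 .nil))) (.leaf 0x8720136549 3 .done) .done)) .done) (.node 3 8 (.cons 0x9834567210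 (.cons 0x9830216547 (.cons 0x5476120983 (.cons 0x5674389021 .nil)))) .done .done)) .done) .done)) .done)) .done)) .done)) (.node 3 9 (.cons 0x8934567210 .nil) (.node 1 7 (.cons 0x6543980172 .nil) (.node 1 3 (.cons 0x9801345672 .nil) (.node 1 4 (.cons 0x3214567890 .nil) (.leaf 0x8903214567 0 (.node 3 8 (.cons 0x9834567210 .nil) (.node 0 4 (.cons 0x6540127893 .nil) (.node 1 9 (.cons 0x6540872391 .nil) (.leaf 0x2190456783 3 (.leaf 0x4091238765 0 .done)) (.node 3 7 (.cons 0x6540987321 .nil) (.node 3 6 (.cons 0x4563987210 .nil) (.node 0 6 (.cons 0x4560127893 .nil) (.node 3 5 (.cons 0x9806723541 .nil) .done .done) .done) .done) .done)) .done) .done)) (.node 3 8 (.cons 0x9834567210 .nil) (.node 1 4 (.cons 0x3214567890 .nil) (.node 1 6 (.cons 0x4561780932 .nil) (.node 1 9 (.cons 0x8091765432 .nil) (.node 3 7 (.cons 0x2376541980 .nil) (.node 3 5 (.cons 0x6708914532 .nil) (.node 3 6 (.cons 0x4563987210 .nil) .done .done) .done) .done) (.node 0 4 (.cons 0x7239804561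 .nil) (.node 0 6 (.cons 0x7893214560 .nil) .done (.leaf 0x5617239804 0 .done)) .done)) (.leaf 0x8903214567 0 .done)) .done) .done)) (.node 0 4 (.cons 0x6540127893 .nil) (.node 0 6 (.cons 0x4560127893 .nil) (.node 0 5 (.cons 0x8905671234 .nil) (.node 0 2 .nil (.node 1 6 (.cons 0x9327804561 .nil) (.leaf 0x5439872016 3 (.node 1 4 (.cons 0x3214567890 (.cons 0x9802341765 .nil)) (.leaf 0x8903214567 0 (.node 1 3 (.cons 0x9801345672 .nil) (.leaf 0x7890231456 2 .done) .done)) .done)) .done) .done) .done) (.node 0 6 (.cons 0x4560127893 .nil) (.node 0 5 (.cons 0x8905671234 .nil) (.node 0 2 .nil (.node 3 6 (.cons 0x4563987210 (.cons 0x4563987201 .nil)) (.node 3 8 (.cons 0x9834567210 .nil) (.leaf 0x2098345671 1 .done) .done) .done) .done) (.node 0 5 (.cons 0x8905671234 .nil) (.node 0 2 .nil (.node 1 6 (.cons 0x7890456123 .nil) (.leaf 0x5439872016 3 (.node 1 4 (.cons 0x3214567890 (.cons 0x9802341765 .nil)) (.node 1 3 (.cons 0x9801345672 .nil) (.leaf 0x7890231456 2 .done)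 .done) .done)) .done) .done) .done)) .done)) .done)) (.node 3 8 (.cons 0x9834567210 .nil) (.node 5 8 (.cons 0x6709854321 .nil) (.node 2 5 (.cons 0x6725439801 .nil) (.node 0 5 (.cons 0x8934501276 .nil) (.node 0 6 (.cons 0x9387601254 .nil) (.node 3 6 (.cons 0x8936721054 .nil) (.node 4 8 (.cons 0x2763984501 .nil) (.leaf 0x5012763984 2 (.leaf 0x9845012763 3 .done)) .done) .done) .done) (.node 0 5 (.cons 0x8934501276 .nil) (.node 3 6 (.cons 0x4527639801 .nil) (.node 4 8 (.cons 0x9367254801 .nil) (.leaf 0x1093678452 0 (.node 0 2 (.cons 0x5487639021 .nil) (.node 1 5 (.cons 0x2154876390 .nil) (.leaf 0x4876390215 0 .done) .done) .done)) (.node 0 4 (.cons 0x8936725401 .nil) (.node 0 2 .nil (.node 1 8 (.cons 0x4527639810 (.cons 0x9810276345 .nil)) (.leaf 0x9367254018 0 .done) .done) .done) .done)) .done) .done)) (.node 6 8 (.cons 0x5439867210 .nil) (.node 1 3 (.cons 0x6709854312 .nil) (.node 2 6 (.cons 0x4587621390 .nil) (.node 1 8 (.cons 0x7621854390 .nil) (.leaf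 0x4581267093 2 (.node 1 4 (.cons 0x9856721430 .nil) (.node 1 6 (.cons 0x3458907612 .nil) (.leaf 0x7098543216 1 .done) (.leaf 0x8903214567 0 .done)) .done)) (.leaf 0x7098543126 0 .done)) (.node 2 6 (.cons 0x3458907621 .nil) (.leaf 0x4589076213 0 (.node 0 6 (.cons 0x9854312706 .nil) (.node 0 4 (.cons 0x9312785406 .nil) (.node 0 2 .nil (.node 1 9 (.cons 0x8543912760 (.cons 0x7602193854 .nil)) (.leaf 0x2067854391 1 .done) .done) .done) .done) .done)) .done)) .done) .done)) (.node 0 6 (.cons 0x9834560127 .nil) (.node 0 4 .nil (.node 1 9 (.cons 0x7832190654 (.cons 0x5672340891 (.cons 0x3276540891 .nil))) (.node 5 8 (.cons 0x6709854321 (.cons 0x6045872193 .nil)) (.leaf 0x1043985672 1 .done) .done) (.node 0 5 (.cons 0x8934501276 .nil) (.node 0 2 .nil (.node 1 3 (.cons 0x9801345672 .nil) (.node 3 6 (.cons 0x7890456321 .nil) (.node 4 9 (.cons 0x9456012783 (.cons 0x8760213945 .nil)) (.leaf 0x8720136549 3 .done) .done) (.node 4 9 (.cons 0x9456012783 (.cons 0x8765490231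 (.cons 0x8765490213 .nil))) .done .done)) .done) .done) .done)) (.node 7 9 (.cons 0x6543897210 .nil) (.leaf 0x1279834560 0 (.node 3 7 (.cons 0x9837210654 .nil) (.node 4 7 (.cons 0x7456098321 .nil) (.node 1 7 (.cons 0x3890654712 .nil) (.node 1 9 (.cons 0x3891274560 .nil) (.leaf 0x2745603891 2 (.leaf 0x7219830654 0 .done)) .done) .done) .done) (.leaf 0x8345601279 3 .done))) .done)) .done)) (.node 3 7 .nil (.node 0 4 (.cons 0x6540987321 .nil) (.node 1 7 (.cons 0x8904321765 .nil) (.node 2 8 (.cons 0x9082345671 (.cons 0x6540932871 (.cons 0x5672893401 .nil))) (.node 1 5 (.cons 0x6728934510 (.cons 0x9876512304 (.cons 0x8239045176 .nil))) (.node 3 6 (.cons 0x9870451236 .nil) (.leaf 0x451236789 0 .done) .done) .done) .done) (.node 0 6 (.cons 0x4560987321 .nil) (.node 1 9 (.cons 0x8765409123 (.cons 0x7234560891 (.cons 0x5432760891 .nil))) (.node 3 8 (.cons 0x9834560127 .nil) (.leaf 0x6783219045 0 (.leaf 0x2190456783 3 .done)) (.node 1 4 (.cons 0x3276541980 (.cons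 0x2376541980 (.cons 0x6541237890 (.cons 0x5419806723 .nil)))) .done .done)) (.node 1 4 (.cons 0x3214567890 (.cons 0x6541237890 (.cons 0x8906732145 .nil))) (.leaf 0x3214560987 0 .done) .done)) .done)) (.node 3 6 .nil (.node 5 8 (.cons 0x6709854321 (.cons 0x9854367012 .nil)) (.node 2 4 (.cons 0x7890124563 (.cons 0x5421098763 .nil)) (.leaf 0x124563789 2 (.node 1 9 (.cons 0x3245678091 (.cons 0x8724563910 (.cons 0x5423678091 (.cons 0x4278563910 (.cons 0x8542701936 .nil))))) .done .done)) (.leaf 0x6345890127 1 .done)) (.node 1 3 (.cons 0x9801345672 .nil) (.node 3 5 .nil (.node 2 4 (.cons 0x6542789310 (.cons 0x9870124536 (.cons 0x9876354210 .nil))) (.node 3 8 (.cons 0x9012453876 .nil) .done .done) .done) (.node 3 8 (.cons 0x9834567210 .nil) (.node 3 5 .nil (.node 2 9 (.cons 0x3456729801 (.cons 0x4536789210 (.cons 0x4356729801 (.cons 0x6729801354 .nil)))) (.leaf 0x8013456729 2 .done) .done) .done) .done)) .done)) .done)) .done))) .done)))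
noncomputable def tc9_4_28 : T := (.node 5 8 (.cons 0x6709854321 .nil) (.node 3 8 (.cons 0x9834567210 .nil) (.node 2 8 .nil (.node 7 9 (.cons 0x9765430182 .nil) (.node 1 7 (.cons 0x6580971234 .nil) (.node 3 5 (.cons 0x9801276534 (.cons 0x4356798012 (.cons 0x4356710982 .nil))) .done .done) (.leaf 0x2109765438 1 (.node 5 7 (.cons 0x6754389012 (.cons 0x9012834576 .nil)) (.node 1 4 (.cons 0x3214567890 (.cons 0x5679082143 (.cons 0x6541287903 .nil))) (.node 3 5 (.cons 0x9801276534 .nil) (.leaf 0x2809765341 0 .done) .done) .done) .done))) .done) (.node 3 5 (.cons 0x9801276534 .nil) (.node 3 6 .nil (.node 0 5 (.cons 0x9812345076 (.cons 0x9812367054 .nil)) (.node 1 4 (.cons 0x3214567890 (.cons 0x9078541236 (.cons 0x5412367890 .nil))) (.leaf 0x9876321450 0 .done) .done) (.node 3 7 .nil (.node 1 6 (.cons 0x8907612345 (.cons 0x6123709854 .nil)) (.node 4 9 (.cons 0x9456781230 (.cons 0x8732165490 (.cons 0x6123785490 (.cons 0x9437216580 .nil)))) (.leaf 0x7321654908 0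 .done) .done) .done) .done)) .done) .done)) (.node 0 5 (.cons 0x9812345076 .nil) (.node 3 5 (.cons 0x9801276534 .nil) (.node 0 4 .nil (.node 1 6 (.cons 0x2345890761 .nil) (.leaf 0x2167890453 3 (.leaf 0x8761235409 0 (.node 3 9 (.cons 0x8934567210 (.cons 0x6540127893 (.cons 0x1672398540 (.cons 0x2765893401 (.cons 0x5407618932 .nil))))) .done .done))) (.node 4 9 (.cons 0x9456781230 .nil) (.node 0 6 (.cons 0x6078945321 .nil) (.node 0 2 .nil (.node 3 7 (.cons 0x7321894560 (.cons 0x6589437201 (.cons 0x7320654981 .nil))) .done .done) .done) (.leaf 0x1089435672 1 (.node 0 2 (.cons 0x7653498021 .nil) (.node 1 7 (.cons 0x2176534980 .nil) (.node 4 7 (.cons 0x3567498021 .nil) .done (.leaf 0x6534980217 0 .done)) .done) .done))) .done)) .done) (.node 3 8 (.cons 0x9834567210 .nil) (.node 0 6 (.cons 0x9834560127 .nil) (.node 3 5 (.cons 0x9801276534 .nil) (.node 3 6 (.cons 0x9812367054 .nil) (.node 1 3 .nil (.node 4 9 (.cons 0x9456781230 (.cons 0x1327894560 (.cons 0x8945067231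 (.cons 0x4980567231 (.cons 0x5672134980 .nil))))) .done (.node 3 9 (.cons 0x8934567210 .nil) (.node 2 8 (.cons 0x6728931054 .nil) (.node 4 6 (.cons 0x3982764501 .nil) (.leaf 0x5013982764 2 (.leaf 0x546728931 0 (.leaf 0x7645013982 3 .done))) .done) .done) .done)) .done) .done) .done) (.node 6 8 .nil (.node 1 4 (.cons 0x3214567890 (.cons 0x9054123867 (.cons 0x9032145687 (.cons 0x7689054123 .nil)))) .done (.node 0 2 .nil (.node 1 7 (.cons 0x6712389054 (.cons 0x9021768345 (.cons 0x4320985671 .nil))) .done (.node 2 8 .nil (.node 5 7 (.cons 0x6754389012 (.cons 0x9012834576 .nil)) (.node 1 6 (.cons 0x2167543890 (.cons 0x9038216754 .nil)) (.node 4 9 (.cons 0x9456781230 (.cons 0x7561280943 (.cons 0x5761280943 (.cons 0x9450761823 (.cons 0x3094567821 .nil))))) .done (.leaf 0x9834576120 1 .done)) .done) .done) .done)) .done)) .done)) .done)) (.node 6 8 .nil (.node 1 9 (.cons 0x9127658034 (.cons 0x9127034586 (.cons 0x9127685430 .nil))) (.leaf 0x6854309127 0 (.leaf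 0x5867219034 1 .done)) (.node 0 6 .nil (.node 1 3 (.cons 0x6709854312 (.cons 0x9854312706 (.cons 0x9854312760 .nil))) (.node 1 9 (.cons 0x9127658034 (.cons 0x5432706891 (.cons 0x3458912760 .nil))) (.node 3 8 (.cons 0x9834567210 (.cons 0x9834560127 (.cons 0x9127603854 .nil))) .done .done) .done) (.node 0 2 .nil (.node 1 3 (.cons 0x6709854312 (.cons 0x9865431027 (.cons 0x9867201345 (.cons 0x7658902134 .nil)))) .done (.node 0 5 (.cons 0x9812345076 .nil) (.node 0 4 .nil (.node 1 3 (.cons 0x6709854312 (.cons 0x9854067213 (.cons 0x9856721340 .nil))) (.node 1 9 (.cons 0x4327650891 (.cons 0x7231986045 (.cons 0x7231986540 .nil))) (.leaf 0x6872319045 0 .done) .done) .done) .done) .done)) .done)) .done)) .done))) (.node 2 8 .nil (.node 4 7 (.cons 0x9032187456 .nil) (.node 3 9 (.cons 0x8934567210 (.cons 0x6547821093 (.cons 0x8210934765 .nil))) (.node 0 6 (.cons 0x9065478123 (.cons 0x5439827601 .nil)) (.leaf 0x2187456093 0 .done) (.node 1 4 (.cons 0x3214567890 (.cons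 0x9301456782 .nil)) (.leaf 0x7823901456 2 .done) .done)) (.node 6 9 (.cons 0x2309654781 (.cons 0x7456903281 (.cons 0x9654301827 .nil))) (.leaf 0x321874569 2 (.leaf 0x5690321874 3 .done)) (.node 7 9 (.cons 0x9728103456 .nil) (.node 2 6 (.cons 0x5621809743 (.cons 0x8126547903 .nil)) (.node 5 7 (.cons 0x6579081234 (.cons 0x9034756281 .nil)) .done .done) (.node 5 8 (.cons 0x9765821034 (.cons 0x4309765821 .nil)) (.node 1 4 (.cons 0x3214567890 (.cons 0x1432856790 .nil)) (.leaf 0x6790341285 2 (.node 1 9 (.cons 0x6785419032 .nil) (.leaf 0x6743091285 2 .done) .done)) .done) .done)) .done))) (.node 3 8 (.cons 0x9834567210 .nil) (.node 5 8 (.cons 0x6709854321 .nil) (.node 3 5 (.cons 0x9801276534 .nil) (.node 6 8 .nil (.node 5 7 (.cons 0x9012867543 (.cons 0x9034576821 .nil)) (.node 0 5 (.cons 0x9867054321 .nil) (.node 5 9 (.cons 0x9543072186 .nil) .done .done) .done) (.node 4 8 .nil (.node 1 6 (.cons 0x2345890761 (.cons 0x9078453216 (.cons 0x5489076123 .nil))) (.leaf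 0x8453216709 0 (.node 5 7 (.cons 0x9034576821 (.cons 0x9075348612 (.cons 0x9034821675 .nil))) .done .done)) .done) .done)) .done) (.node 4 8 .nil (.node 1 7 (.cons 0x9034582176 (.cons 0x9084321765 (.cons 0x5671234890 .nil))) .done (.node 6 8 .nil (.node 1 9 (.cons 0x9127658034 (.cons 0x9127685430 .nil)) (.leaf 0x6854309127 0 (.leaf 0x5867219034 1 .done)) .done) .done)) .done)) (.node 3 7 .nil (.node 0 6 (.cons 0x7321890654 (.cons 0x9810654372 .nil)) (.node 0 4 (.cons 0x6540987321 .nil) (.node 2 6 (.cons 0x9045623781 (.cons 0x9810437265 (.cons 0x7326540981 .nil))) .done .done) .done) (.node 3 6 .nil (.node 5 8 (.cons 0x6709854321 (.cons 0x9854367012 .nil)) (.leaf 0x6345890127 1 .done) (.node 3 5 (.cons 0x9801276534 .nil) (.node 3 9 (.cons 0x8934567210 .nil) (.node 1 3 .nil (.node 2 4 (.cons 0x6537890124 (.cons 0x9013876542 .nil)) (.leaf 0x9876542310 2 .done) .done) .done) .done) .done)) .done)) .done)) .done)) (.node 0 6 (.cons 0x7609812345 .nil) (.node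 2 8 .nil (.node 4 9 (.cons 0x8765490321 (.cons 0x3094567821 .nil)) (.leaf 0x2309456781 1 (.node 3 5 (.cons 0x9801276534 (.cons 0x7601289453 (.cons 0x3549827601 .nil))) (.node 3 6 (.cons 0x6354987210 (.cons 0x9821076345 (.cons 0x7289453601 .nil))) (.node 3 9 (.cons 0x8934567210 .nil) (.leaf 0x7821039456 2 .done) .done) .done) (.node 1 5 (.cons 0x1567234980 (.cons 0x9451823067 (.cons 0x7609451823 .nil))) (.node 1 7 (.cons 0x6517234980 (.cons 0x5490671823 (.cons 0x6517823094 .nil))) .done (.leaf 0x6728943015 1 .done)) .done))) (.node 0 2 .nil (.node 3 8 (.cons 0x9834567210 (.cons 0x9834567201 .nil)) (.node 5 8 (.cons 0x6709854321 .nil) (.node 1 7 (.cons 0x9023458176 (.cons 0x4320985671 .nil)) (.leaf 0x4320981765 0 .done) (.node 6 9 (.cons 0x9672185430 (.cons 0x9672034581 (.cons 0x5438967021 .nil))) (.leaf 0x1854309672 0 .done) .done)) .done) .done) .done)) (.node 0 4 .nil (.node 1 5 (.cons 0x9815432760 (.cons 0x9804321567 (.cons 0x9815406723 .nil))) (.leaf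 0x4327609815 2 (.node 1 9 (.cons 0x8915432706 (.cons 0x4065198723 .nil)) (.node 5 9 (.cons 0x1895432760 (.cons 0x8195403276 (.cons 0x3408956721 .nil))) .done .done) .done)) (.node 1 7 (.cons 0x6540987123 .nil) (.node 2 8 (.cons 0x9067182345 .nil) (.node 1 4 (.cons 0x3214567890 .nil) (.node 0 5 .nil (.node 2 9 (.cons 0x9230678145 (.cons 0x3298760541 (.cons 0x7605418923 .nil))) (.leaf 0x6054329817 2 .done) (.node 0 2 .nil (.node 3 9 (.cons 0x8934567210 (.cons 0x7893206541 (.cons 0x1456789320 .nil))) (.leaf 0x654398271 3 (.leaf 0x6017289345 2 .done)) .done) .done)) .done) .done) (.node 0 5 (.cons 0x8905671234 .nil) (.node 0 2 .nil (.node 5 9 (.cons 0x1895432760 (.cons 0x6720189543 .nil)) (.leaf 0x3271895604 1 (.leaf 0x671895432 0 .done)) .done) .done) .done)) .done)) .done)) .done)))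
noncomputable def tc9_4_29 : T := (.node 1 8 (.cons 0x7654321890 .nil) tc9_4_28 (.node 3 8 (.cons 0x9834567210 .nil) (.node 3 5 (.cons 0x9801276534 .nil) (.node 3 6 (.cons 0x9872103654 .nil) (.node 4 9 (.cons 0x4908765321 .nil) (.node 1 3 .nil (.node 6 8 (.cons 0x6870945321 (.cons 0x6870945312 .nil)) (.node 2 5 (.cons 0x9834521076 (.cons 0x6894527013 .nil)) (.leaf 0x1349865270 0 .done) .done) (.node 3 9 (.cons 0x8934567210 .nil) (.node 3 7 .nil (.node 2 6 (.cons 0x4562789301 (.cons 0x7389456210 .nil)) (.node 1 8 (.cons 0x3945627810 .nil) (.leaf 0x5623781094 0 .done) .done) .done) .done) .done)) (.node 1 6 (.cons 0x8761235490 .nil) (.leaf 0x3216780945 0 (.leaf 0x7612354908 3 (.leaf 0x2354908761 2 .done))) (.leaf 0x6721089435 0 (.leaf 0x2765349801 1 .done)))) (.node 4 9 (.cons 0x2789456301 .nil) (.leaf 0x7894563012 0 (.leaf 0x8721036549 2 (.leaf 0x6721089435 0 (.leaf 0x2765349801 1 .done)))) .done)) (.node 5 8 (.cons 0x6709854321 .nil) (.node 1 8 (.cons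 0x7654321890 .nil) (.node 2 8 .nil (.node 1 7 (.cons 0x4356710982 .nil) (.node 0 2 (.cons 0x6718902354 .nil) (.leaf 0x3456718902 2 .done) (.node 6 9 (.cons 0x5438967012 (.cons 0x4532817690 (.cons 0x5432817690 (.cons 0x6907128543 .nil)))) (.leaf 0x3017289654 2 .done) .done)) .done) .done) (.node 6 8 (.cons 0x9865430127 .nil) (.node 1 7 (.cons 0x9865430172 .nil) (.node 5 7 .nil (.node 1 8 (.cons 0x7654321890 (.cons 0x6754321890 .nil)) (.node 4 9 (.cons 0x2765349801 (.cons 0x2349086571 (.cons 0x6571809432 .nil))) (.leaf 0x3012756894 0 (.leaf 0x5490321786 3 .done)) .done) .done) (.node 5 7 .nil (.node 4 8 (.cons 0x5671234890 (.cons 0x6571234890 .nil)) (.node 6 9 (.cons 0x6985430721 (.cons 0x8965721034 (.cons 0x6984572103 (.cons 0x4308965721 .nil)))) .done .done) (.node 3 7 .nil (.node 0 5 (.cons 0x8905671234 .nil) (.node 1 4 (.cons 0x3214567890 (.cons 0x9805673214 (.cons 0x9085673412 (.cons 0x6541237890 (.cons 0x2376890541 .nil))))) .done .done) .done) .done))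 .done)) .done) .done)) .done)) (.node 3 9 (.cons 0x8934567210 .nil) (.node 0 4 (.cons 0x8934012765 .nil) (.node 1 8 (.cons 0x7654321890 .nil) (.leaf 0x6781239045 0 (.node 2 8 .nil (.node 1 3 (.cons 0x9827654310 .nil) (.leaf 0x7654093128 2 (.node 7 9 (.cons 0x6540978123 (.cons 0x2897654310 (.cons 0x9782130456 .nil))) .done (.leaf 0x4567289013 1 .done))) .done) .done)) (.node 2 8 (.cons 0x5672893401 .nil) (.node 1 8 (.cons 0x7654321890 .nil) (.node 1 3 .nil (.node 6 9 (.cons 0x5438967210 (.cons 0x5407698132 (.cons 0x7289654310 (.cons 0x4569872130 .nil)))) .done (.node 4 8 .nil (.node 3 5 (.cons 0x9801276534 .nil) (.leaf 0x8935672104 2 (.leaf 0x8435672109 0 .done)) (.node 5 8 (.cons 0x4398567210 .nil) (.node 6 8 (.cons 0x9865430127 .nil) .done .done) .done)) .done)) .done) .done) .done)) (.node 2 8 .nil (.node 7 9 (.cons 0x8972103456 .nil) (.leaf 0x2109765438 1 (.node 1 6 (.cons 0x8972165430 (.cons 0x7982165430 (.cons 0x5438216790 (.cons 0x7289301654 .nil))))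 (.node 3 6 (.cons 0x9872103654 (.cons 0x9821076345 (.cons 0x4563097821 .nil))) .done .done) .done)) (.node 1 8 (.cons 0x2765439810 .nil) (.node 1 6 (.cons 0x7289345610 .nil) (.node 4 7 (.cons 0x1654782390 .nil) (.leaf 0x8239016547 3 (.leaf 0x6547823901 0 (.node 1 3 (.cons 0x2874561390 .nil) (.node 1 7 (.cons 0x6543982710 .nil) .done .done) .done))) (.node 1 7 (.cons 0x6543982710 .nil) (.node 1 3 .nil (.node 4 7 (.cons 0x6547890321 (.cons 0x6547890312 .nil)) (.node 0 4 (.cons 0x6540932871 (.cons 0x9047823165 .nil)) .done .done) .done) .done) (.leaf 0x9827016543 1 .done))) .done) .done)) .done)) (.node 3 5 (.cons 0x9801276534 .nil) (.node 3 9 (.cons 0x8934567210 .nil) (.node 0 4 (.cons 0x6789354012 .nil) (.node 0 2 (.cons 0x9834567201 .nil) (.node 0 5 (.cons 0x8934501276 .nil) (.node 0 6 (.cons 0x4539876012 .nil) .done .done) .done) (.node 0 6 (.cons 0x4539876012 .nil) (.node 0 2 (.cons 0x9834567201 .nil) (.node 0 5 (.cons 0x8934501276 .nil) .done .done)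 (.node 0 2 (.cons 0x9834567201 .nil) (.node 0 5 (.cons 0x8934501276 .nil) .done .done) .done)) .done)) (.node 3 6 (.cons 0x9872103654 .nil) (.node 3 7 .nil (.node 2 4 (.cons 0x9801243567 (.cons 0x6542109873 .nil)) (.node 5 8 (.cons 0x4398567210 (.cons 0x6587390124 (.cons 0x9085673421 .nil))) .done (.leaf 0x1098736542 2 .done)) .done) .done) .done)) (.node 4 9 (.cons 0x4908765321 .nil) (.node 3 7 .nil (.node 6 8 (.cons 0x6870945321 .nil) (.node 0 2 (.cons 0x9834567201 (.cons 0x6549837201 .nil)) (.node 1 9 (.cons 0x2765438910 (.cons 0x7386549102 .nil)) (.leaf 0x273865491 3 (.leaf 0x7654389102 0 .done)) .done) (.leaf 0x3456890127 1 .done)) (.node 3 6 (.cons 0x3654987210 .nil) (.node 6 8 (.cons 0x5689437210 .nil) (.node 1 3 (.cons 0x6870945312 .nil) (.node 3 9 (.cons 0x8934567210 .nil) .done .done) .done) .done) .done)) (.node 3 9 (.cons 0x8934567210 .nil) (.node 3 6 (.cons 0x8763549012 .nil) (.node 3 7 .nil (.node 6 8 (.cons 0x9453012786 .nil) (.leaf 0x3456890127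 1 .done) .done) .done) .done) (.leaf 0x6721089435 0 (.leaf 0x2765349801 1 .done)))) .done)) .done))) (.node 2 8 (.cons 0x9827654301 .nil) (.node 1 8 (.cons 0x7654321890 .nil) (.node 2 9 (.cons 0x8927654301 .nil) (.leaf 0x345672981 1 (.leaf 0x345672981 0 (.node 3 8 (.cons 0x9834567210 .nil) (.node 0 2 .nil (.node 1 7 (.cons 0x4567189230 .nil) (.leaf 0x6543029817 2 (.leaf 0x2098345671 1 .done)) (.node 2 5 .nil (.node 1 4 (.cons 0x7654189230 (.cons 0x6789032541 .nil)) (.node 6 9 (.cons 0x5438967210 (.cons 0x1452387690 (.cons 0x7692541830 .nil))) (.leaf 0x1038769254 1 .done) (.leaf 0x9876541230 2 .done)) .done) .done)) .done) .done))) (.node 3 8 (.cons 0x9834567210 .nil) (.node 1 7 (.cons 0x9827103456 .nil) (.node 1 4 (.cons 0x3214567890 .nil) (.node 6 9 (.cons 0x9654178230 .nil) (.leaf 0x3017289654 2 (.leaf 0x345698271 3 (.node 6 8 (.cons 0x5432869071 .nil) (.node 4 8 (.cons 0x9084321765 .nil) (.node 5 8 (.cons 0x2345817690 .nil) .done .done) .done) (.leaf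 0x8714569032 0 .done)))) (.leaf 0x9876541230 2 .done)) (.node 3 7 .nil (.node 0 4 (.cons 0x8904321765 (.cons 0x6540987321 .nil)) (.node 0 6 (.cons 0x7609812345 .nil) (.leaf 0x9821734560 1 .done) .done) (.node 3 5 (.cons 0x9801276534 .nil) (.node 1 3 .nil (.node 5 9 (.cons 0x6598271034 (.cons 0x4310895672 (.cons 0x4312765980 .nil))) (.node 0 5 (.cons 0x8905671234 .nil) (.node 2 5 (.cons 0x9834521076 .nil) .done .done) .done) .done) .done) .done)) .done)) .done) .done)) (.node 1 8 (.cons 0x7654321890 .nil) (.node 3 8 (.cons 0x9834567210 .nil) (.node 2 9 (.cons 0x8927654301 .nil) (.node 2 4 .nil (.node 1 7 (.cons 0x8927103456 .nil) (.node 5 9 (.cons 0x6728954301 (.cons 0x6703245981 (.cons 0x3427659801 (.cons 0x9567180342 .nil)))) .done (.leaf 0x3245671890 2 .done)) (.node 1 4 (.cons 0x3214567890 .nil) (.leaf 0x9876541230 2 (.node 2 5 (.cons 0x6789032541 .nil) (.node 0 2 .nil (.node 5 9 (.cons 0x6728954301 (.cons 0x6702345981 (.cons 0x6702189543 .nil))) .done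 .done) .done) .done)) .done)) (.leaf 0x345672981 0 (.node 1 4 (.cons 0x7654189230 .nil) (.node 0 4 (.cons 0x7654032981 .nil) (.node 2 4 (.cons 0x7654298103 .nil) .done .done) (.leaf 0x9876541230 2 (.node 1 7 (.cons 0x4567189230 .nil) (.node 0 4 (.cons 0x7654032981 .nil) (.node 0 6 (.cons 0x7603298145 .nil) (.node 7 9 (.cons 0x6543897210 .nil) (.leaf 0x1279834560 0 (.node 2 4 (.cons 0x9718324560 .nil) (.leaf 0x5609718324 2 .done) (.leaf 0x8345601279 3 .done))) .done) (.leaf 0x2304567189 2 .done)) (.node 3 7 (.cons 0x4567301892 .nil) (.node 1 3 .nil (.node 0 4 (.cons 0x7654032981 .nil) (.leaf 0x6540318927 0 (.leaf 0x3189276540 3 .done)) .done) .done) .done)) .done))) .done))) .done) (.node 3 8 (.cons 0x9834567210 .nil) (.node 3 5 (.cons 0x9801276534 .nil) (.node 3 6 (.cons 0x9012876354 .nil) (.node 3 7 .nil (.node 2 6 (.cons 0x9810345627 (.cons 0x9810372654 .nil)) (.node 2 9 (.cons 0x7654389210 (.cons 0x4567389210 .nil)) (.leaf 0x5629018734 2 (.leaf 0x1092654378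 2 .done)) .done) .done) .done) (.node 3 9 (.cons 0x8934567210 .nil) (.node 0 6 (.cons 0x6012789354 .nil) (.node 0 5 (.cons 0x8934501276 .nil) (.node 3 6 (.cons 0x8936721054 .nil) (.node 2 5 (.cons 0x9387601254 .nil) (.node 4 8 (.cons 0x5487609321 .nil) (.leaf 0x936784521 0 (.leaf 0x2763984501 0 .done)) .done) .done) .done) (.node 0 5 (.cons 0x8934501276 .nil) (.node 2 5 (.cons 0x9834521076 .nil) (.node 1 5 .nil (.node 4 6 (.cons 0x6453987210 (.cons 0x9321508764 (.cons 0x8764512390 (.cons 0x7239815460 (.cons 0x5127643980 .nil))))) .done (.node 0 4 (.cons 0x6789321540 .nil) (.node 0 2 .nil (.node 4 8 (.cons 0x6725489301 (.cons 0x7602398451 (.cons 0x7602154893 .nil))) .done .done) .done) .done)) .done) .done) .done)) (.node 3 6 .nil (.node 0 4 (.cons 0x6539872104 (.cons 0x9045632187 (.cons 0x7890456321 .nil))) .done (.node 3 7 .nil (.node 0 4 (.cons 0x6539872104 (.cons 0x6540987321 .nil)) (.node 2 4 (.cons 0x6542109873 .nil) (.leaf 0x124563789 0 .done) .done)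 .done) .done)) .done)) .done)) .done) .done)) .done)) .done)))
noncomputable def tc9_4_30 : T := (.node 3 7 (.cons 0x9801273456 .nil) (.node 1 7 .nil (.node 6 9 (.cons 0x7210896543 (.cons 0x1723456980 .nil)) (.node 0 4 (.cons 0x5698043271 .nil) (.node 3 5 (.cons 0x7210896534 (.cons 0x4012789653 (.cons 0x4356980172 .nil))) (.node 1 9 (.cons 0x6789123540 (.cons 0x8912354076 .nil)) (.leaf 0x5403219876 0 .done) .done) .done) (.leaf 0x8965432710 3 (.node 2 8 (.cons 0x8217690345 .nil) (.node 0 4 (.cons 0x5698043721 .nil) (.node 1 3 (.cons 0x5431289670 (.cons 0x6540987132 .nil)) (.leaf 0x4098231765 1 .done) .done) (.leaf 0x6710982345 0 .done)) .done))) (.node 7 9 (.cons 0x8097123456 .nil) (.node 3 9 (.cons 0x8934567210 .nil) (.node 0 4 (.cons 0x6540127893 .nil) (.node 0 6 (.cons 0x4560127893 .nil) (.leaf 0x1278934560 2 (.node 0 5 .nil (.node 1 6 (.cons 0x1654327980 (.cons 0x6123987054 (.cons 0x4327980561 .nil))) .done .done) .done)) .done) (.node 4 9 (.cons 0x8765490321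 .nil) (.node 6 8 (.cons 0x5689437210 .nil) (.leaf 0x1039456872 2 (.node 5 7 (.cons 0x3498657210 .nil) (.leaf 0x6894301275 3 .done) (.leaf 0x394568721 3 (.node 5 7 (.cons 0x6809345712 .nil) (.node 4 7 .nil (.node 5 9 (.cons 0x6598012734 (.cons 0x6803954721 .nil)) .done .done) .done) .done)))) (.node 4 7 .nil (.node 6 9 (.cons 0x4569087123 (.cons 0x5698012743 (.cons 0x8096547123 .nil))) .done .done) .done)) .done)) (.node 1 6 (.cons 0x3456127980 .nil) (.node 3 6 (.cons 0x9087123654 .nil) (.node 5 7 (.cons 0x9807543216 .nil) (.node 0 5 (.cons 0x4379805612 .nil) (.node 4 7 (.cons 0x9805612374 .nil) .done .done) .done) .done) (.node 0 4 (.cons 0x5612798043 .nil) (.node 4 7 .nil (.node 0 5 (.cons 0x3479805612 .nil) (.leaf 0x1650897432 0 (.node 0 6 (.cons 0x3456089721 .nil) .done .done)) .done) .done) (.leaf 0x7216543089 2 .done))) .done)) .done)) (.node 6 9 (.cons 0x2734569801 .nil) (.node 3 6 .nil (.node 5 8 (.cons 0x6709854321 (.cons 0x9854367012 .nil)) (.node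 2 9 (.cons 0x6543729801 (.cons 0x6345892701 (.cons 0x4563729801 .nil))) (.leaf 0x4367012985 1 .done) (.leaf 0x6345890127 1 .done)) (.node 3 5 (.cons 0x7210896534 .nil) (.node 3 9 (.cons 0x8934567210 .nil) (.node 0 4 (.cons 0x4012789653 .nil) (.node 0 5 (.cons 0x8934501276 .nil) (.node 0 6 (.cons 0x6012789354 .nil) .done .done) .done) .done) .done) .done)) (.leaf 0x896543721 2 (.node 1 7 (.cons 0x1723456980 .nil) (.leaf 0x4569801723 1 (.node 0 4 (.cons 0x5698043271 .nil) (.node 0 5 (.cons 0x8905671234 .nil) (.node 0 2 .nil (.node 1 3 (.cons 0x9876540231 (.cons 0x4569872013 (.cons 0x8967201345 .nil))) (.leaf 0x8965431720 1 .done) (.node 0 6 .nil (.node 1 5 (.cons 0x4327156980 (.cons 0x8960723451 .nil)) (.node 1 8 (.cons 0x2345189670 (.cons 0x7609812345 .nil)) .done (.leaf 0x3271569804 1 .done)) .done) .done)) .done) .done) .done)) (.leaf 0x4569801273 2 .done)))) .done)) (.node 3 7 (.cons 0x9801273456 .nil) (.node 1 7 .nil (.node 6 9 (.cons 0x4569087321 (.cons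 0x1723456980 (.cons 0x8096543712 .nil))) (.node 5 8 (.cons 0x6709854321 (.cons 0x4309856712 .nil)) (.node 0 4 (.cons 0x5896704321 (.cons 0x9658043217 (.cons 0x5698043271 .nil))) .done (.node 0 4 (.cons 0x9658043271 (.cons 0x5698043271 .nil)) (.node 1 9 (.cons 0x8569104372 (.cons 0x4032765891 .nil)) (.leaf 0x7234019856 3 .done) .done) .done)) (.leaf 0x8965432710 3 .done)) (.node 1 8 (.cons 0x7654321890 .nil) (.node 5 8 (.cons 0x4321765890 .nil) (.node 3 8 (.cons 0x9834567210 .nil) (.node 4 8 (.cons 0x5671234890 .nil) (.node 5 7 (.cons 0x6754389012 .nil) (.node 5 9 (.cons 0x1276598430 .nil) (.node 1 6 (.cons 0x7216598430 .nil) (.leaf 0x4307216598 0 (.node 4 9 (.cons 0x8495612730 .nil) (.leaf 0x3012765894 0 (.leaf 0x3721659480 0 .done)) .done)) (.leaf 0x2765984301 1 .done)) .done) .done) .done) (.node 1 6 (.cons 0x3458907612 .nil) (.node 1 4 (.cons 0x9856721430 .nil) (.leaf 0x8903214567 0 (.node 5 7 (.cons 0x6758903412 .nil) (.node 2 6 (.cons 0x3458907621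 .nil) (.leaf 0x8903412675 0 (.leaf 0x985762143 1 .done)) .done) .done)) (.leaf 0x7098543216 1 .done)) .done)) (.node 0 4 (.cons 0x8904321765 .nil) (.node 1 4 (.cons 0x3214567890 .nil) (.node 0 5 (.cons 0x9876503214 .nil) (.node 0 2 .nil (.node 4 8 (.cons 0x5671234890 (.cons 0x9841765023 (.cons 0x5671209843 .nil))) .done .done) (.node 0 6 (.cons 0x7609812345 .nil) (.node 0 2 .nil (.node 3 9 (.cons 0x8934567210 (.cons 0x6502398714 (.cons 0x6789320541 (.cons 0x1456789320 .nil)))) .done .done) .done) .done)) (.leaf 0x8903214567 0 .done)) (.node 2 8 .nil (.node 5 9 (.cons 0x6598043271 (.cons 0x6598271043 (.cons 0x6734590182 (.cons 0x6590821734 .nil)))) (.leaf 0x7659823401 0 .done) (.node 1 9 (.cons 0x5672891043 .nil) (.node 6 8 (.cons 0x5689172340 .nil) (.leaf 0x3786540912 0 (.node 3 6 (.cons 0x1987236540 .nil) (.node 3 8 (.cons 0x9834567210 .nil) .done .done) (.leaf 0x5687321904 3 .done))) (.node 3 5 (.cons 0x9827653401 .nil) (.leaf 0x8276534019 3 (.leaf 0x2891043567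 2 (.node 3 6 (.cons 0x7236540891 .nil) (.node 3 8 (.cons 0x9834567210 .nil) .done .done) .done))) .done)) .done)) .done)) .done)) .done)) (.node 3 8 (.cons 0x9834567210 .nil) (.node 3 6 .nil (.node 4 7 (.cons 0x9087456321 .nil) (.leaf 0x9874563210 2 (.node 5 9 (.cons 0x6598034721 (.cons 0x4598367012 (.cons 0x6345980721 .nil))) (.leaf 0x6347210895 2 (.leaf 0x3659801274 0 .done)) .done)) (.node 3 9 (.cons 0x8934567210 .nil) (.node 3 5 .nil (.node 2 4 (.cons 0x6789012453 .nil) (.leaf 0x1098763542 2 (.node 4 8 (.cons 0x9365487210 (.cons 0x9035678421 .nil)) (.leaf 0x2109356784 1 (.leaf 0x5639012784 1 .done)) (.leaf 0x124536789 0 .done))) .done) (.node 4 7 (.cons 0x9087456321 .nil) (.node 1 7 (.cons 0x9087123654 .nil) (.node 1 9 (.cons 0x6547809123 .nil) (.node 1 3 .nil (.node 2 8 (.cons 0x6543728910 .nil) (.leaf 0x1345672890 1 (.leaf 0x1345672890 0 .done)) .done) (.leaf 0x2190874563 3 .done)) .done) (.node 1 3 (.cons 0x9087456312 .nil) (.node 3 5 .nil (.node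 1 9 (.cons 0x3654780912 (.cons 0x6534721980 (.cons 0x6530891274 .nil))) .done .done) .done) .done)) .done)) .done)) (.node 3 9 (.cons 0x8934567210 .nil) (.node 2 8 .nil (.node 3 6 (.cons 0x4563987210 (.cons 0x9821076345 (.cons 0x7821093654 .nil))) .done (.node 1 8 (.cons 0x7654321890 .nil) (.node 2 6 (.cons 0x7621098345 .nil) (.node 0 2 (.cons 0x9378102654 .nil) (.node 0 6 (.cons 0x4560127893 .nil) (.node 0 4 (.cons 0x9378104562 .nil) (.node 0 5 (.cons 0x9812345076 .nil) .done .done) .done) .done) (.node 0 4 (.cons 0x8937265401 .nil) (.leaf 0x5627398104 0 (.node 0 2 (.cons 0x7398102654 .nil) (.node 0 6 (.cons 0x4560127893 .nil) .done .done) .done)) .done)) .done) .done)) .done) .done)) .done)) (.node 3 7 (.cons 0x9801273456 .nil) (.node 1 7 .nil (.node 6 9 (.cons 0x4569087321 (.cons 0x4569803271 (.cons 0x1723456980 (.cons 0x8096543712 .nil)))) (.node 2 8 (.cons 0x9827654301 .nil) (.node 2 9 (.cons 0x8927654301 (.cons 0x8927103456 .nil)) (.node 1 8 (.cons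 0x4567189230 .nil) (.node 3 8 (.cons 0x9834567210 (.cons 0x4567103892 .nil)) .done .done) .done) (.leaf 0x6710982345 0 .done)) .done) (.node 0 4 (.cons 0x8904321765 .nil) (.node 0 5 (.cons 0x8905671234 .nil) (.node 1 8 (.cons 0x7654321890 .nil) (.node 1 4 (.cons 0x3214567890 .nil) (.leaf 0x9876541230 2 (.node 4 8 (.cons 0x5671234890 .nil) (.leaf 0x7650984321 0 (.node 5 8 (.cons 0x4321765890 .nil) (.node 0 2 (.cons 0x4320985671 .nil) (.leaf 0x8902341765 0 .done) .done) .done)) .done)) (.node 0 6 (.cons 0x7609812345 .nil) (.node 5 7 (.cons 0x6754321890 .nil) (.leaf 0x9812345760 0 (.leaf 0x9812345760 1 .done)) .done) .done)) .done) .done) .done)) (.node 3 9 (.cons 0x8934567210 .nil) (.node 0 4 (.cons 0x6540127893 .nil) (.node 0 6 (.cons 0x4560127893 .nil) (.leaf 0x1278934560 2 (.node 0 5 .nil (.node 6 8 (.cons 0x7865409321 (.cons 0x9867054321 (.cons 0x7210568934 (.cons 0x6893450721 .nil)))) (.leaf 0x543986721 1 .done) .done) .done)) .done) (.node 3 8 (.cons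 0x9834567210 .nil) (.node 3 6 .nil (.node 2 4 (.cons 0x8901243765 (.cons 0x8763901245 (.cons 0x9872456301 (.cons 0x5421098763 .nil)))) .done (.node 1 7 (.cons 0x9087123654 .nil) (.node 0 4 .nil (.node 1 9 (.cons 0x8910345672 (.cons 0x6540327891 .nil)) (.leaf 0x6783219045 0 (.leaf 0x4087219365 2 .done)) (.node 0 5 (.cons 0x8934501276 .nil) (.node 3 5 .nil (.node 2 4 (.cons 0x9837650124 (.cons 0x6537890124 (.cons 0x6789012453 .nil))) .done (.node 1 3 .nil (.node 2 8 (.cons 0x9827654301 .nil) (.leaf 0x1345672890 1 (.leaf 0x1345672890 0 .done)) .done) .done)) .done) .done)) .done) .done)) .done) .done)) .done)) .done)))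
noncomputable def uc9_4_7 : T := (.node 0 3 (.cons 0x4567890321 .nil) tc9_4_30 (.node 0 3 (.cons 0x4567890321 .nil) tc9_4_29 (.node 0 3 (.cons 0x4567890321 .nil) tc9_4_27 .done)))
theorem sub_c9_4_7 : root 9 refs9_4 [] 0x700000008703000000003060008050060500000000504000000004030000000030100008000102000000002018050000010 0xfe7fff77fe97ff9fffcfffe7fff5fef9fff9fedd 9 0 8 (.cons 0x9801276543 .nil) uc9_4_7 = true := by decide +kernel
noncomputable def tc9_4_31 : T := (.node 1 4 (.cons 0x3214567890 .nil) (.node 3 8 (.cons 0x7654389012 .nil) (.node 1 3 .nil (.node 5 8 (.cons 0x6712345890 (.cons 0x4310985672 (.cons 0x4312765890 .nil))) .done (.node 1 6 (.cons 0x9078321654 .nil) (.node 5 8 (.cons 0x6712345890 .nil) (.node 1 9 (.cons 0x8567234190 .nil) (.node 0 6 (.cons 0x2345890671 .nil) (.leaf 0x1906587234 0 (.leaf 0x9143278560 2 .done)) .done) (.node 0 6 (.cons 0x3458906712 .nil) (.leaf 0x1760985432 0 (.leaf 0x9854321760 3 .done)) .done)) .done) .done)) (.leaf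 0x1098345672 1 (.node 6 8 (.cons 0x5432176890 .nil) (.node 5 8 (.cons 0x6712345890 .nil) (.node 1 5 (.cons 0x2345176890 .nil) (.node 1 6 (.cons 0x9071685432 .nil) (.node 2 9 (.cons 0x6854329071 .nil) (.leaf 0x7092345861 0 (.leaf 0x3290716854 3 (.leaf 0x716854329 2 .done))) .done) .done) (.node 1 3 (.cons 0x4312765890 .nil) (.node 1 5 (.cons 0x2345176890 .nil) (.node 0 5 (.cons 0x2345098671 .nil) (.leaf 0x3450986712 0 (.node 0 3 (.cons 0x4567890321 .nil) (.node 5 9 (.cons 0x4123876590 .nil) (.leaf 0x4309586721 1 .done) .done) .done)) .done) .done) .done)) (.node 5 8 (.cons 0x6712345890 .nil) (.node 2 8 .nil (.node 3 9 (.cons 0x8765412390 (.cons 0x7093456821 (.cons 0x5439076821 (.cons 0x1456782390 .nil)))) .done (.node 0 8 (.cons 0x9087654123 .nil) (.node 4 8 (.cons 0x5672109843 .nil) .done .done) .done)) (.node 1 3 (.cons 0x4310985672 .nil) (.node 3 9 (.cons 0x8765412390 .nil) (.node 0 3 (.cons 0x4567890321 .nil) (.node 0 6 (.cons 0x2390678541 .nil) (.leaf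 0x3906785412 0 (.leaf 0x9321458760 2 .done)) .done) (.node 2 8 (.cons 0x1456782390 .nil) (.leaf 0x5410932876 2 (.leaf 0x4567823901 3 .done)) .done)) .done) .done)) .done)) (.node 2 9 (.cons 0x1456783290 .nil) (.leaf 0x4567832901 0 (.node 2 8 (.cons 0x9014382765 .nil) (.node 5 8 (.cons 0x6712345890 .nil) (.node 0 2 (.cons 0x9027658341 .nil) (.node 0 6 (.cons 0x3458906712 .nil) (.leaf 0x1760985432 0 (.leaf 0x9854321760 3 .done)) .done) .done) .done) (.leaf 0x4567832901 1 .done))) .done)))) (.node 3 7 (.cons 0x6541237890 .nil) (.node 0 6 (.cons 0x9873214560 .nil) (.leaf 0x1237890654 2 (.node 0 5 (.cons 0x8905432176 .nil) (.node 0 3 (.cons 0x4567890321 .nil) (.node 0 2 .nil (.node 5 8 (.cons 0x6712345890 (.cons 0x9854173206 (.cons 0x6712098543 .nil))) .done .done) (.leaf 0x8903214567 0 (.leaf 0x9876541230 2 .done))) (.node 5 7 .nil (.node 3 8 (.cons 0x7654389012 (.cons 0x6572109834 (.cons 0x4576098321 (.cons 0x7560983214 .nil)))) (.leaf 0x7560983412 0 .done)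 (.node 5 8 (.cons 0x6712345890 .nil) (.node 4 7 (.cons 0x6098547123 .nil) (.node 7 9 (.cons 0x8973214560 .nil) .done .done) .done) .done)) .done)) (.node 5 8 (.cons 0x6712345890 .nil) (.leaf 0x3458906712 0 (.node 5 7 (.cons 0x9814327560 .nil) (.node 5 9 (.cons 0x7234189560 .nil) (.leaf 0x3270659814 0 (.node 0 5 (.cons 0x9817605432 .nil) (.node 1 5 (.cons 0x8906715432 .nil) (.node 3 5 (.cons 0x6098714532 .nil) .done .done) .done) .done)) .done) (.leaf 0x9854321760 3 .done))) .done))) (.node 0 6 (.cons 0x2378906541 .nil) (.node 7 9 .nil (.node 5 8 (.cons 0x6712345890 (.cons 0x9706581234 (.cons 0x9706581432 .nil))) (.leaf 0x1760985432 0 .done) (.node 4 7 (.cons 0x5609874123 .nil) (.node 5 7 .nil (.node 3 8 (.cons 0x7654389012 (.cons 0x9834756012 (.cons 0x6754389012 .nil))) (.leaf 0x2147560983 0 .done) .done) .done) .done)) (.leaf 0x4560987321 2 (.node 5 8 (.cons 0x6712345890 .nil) (.leaf 0x3458906712 0 (.node 0 4 .nil (.node 3 9 (.cons 0x8709321456 (.cons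 0x9321870456 .nil)) (.leaf 0x4012765893 0 (.leaf 0x6781239045 0 .done)) (.node 0 3 (.cons 0x4567890321 .nil) (.node 0 2 (.cons 0x9817602345 .nil) (.node 0 5 (.cons 0x9817605432 .nil) .done .done) (.leaf 0x8903214567 0 .done)) .done)) (.leaf 0x9854321760 3 .done))) .done))) .done)) .done)) (.node 1 4 (.cons 0x3214567890 .nil) (.node 5 8 (.cons 0x6712345890 .nil) (.node 3 8 (.cons 0x7654389012 .nil) (.leaf 0x1098345672 1 (.node 4 7 (.cons 0x5674389012 .nil) (.node 2 8 .nil (.node 3 5 (.cons 0x8901276534 (.cons 0x9018274356 (.cons 0x6534728901 (.cons 0x9827653410 .nil)))) .done (.node 4 8 (.cons 0x5672109843 .nil) (.node 6 8 (.cons 0x5432176890 .nil) (.node 0 8 .nil (.node 1 3 (.cons 0x5672134890 (.cons 0x9084312765 .nil)) .done .done) .done) .done) .done)) (.node 7 9 .nil (.node 0 6 (.cons 0x9854321760 (.cons 0x9706581234 .nil)) (.leaf 0x1234560798 2 (.leaf 0x4321760985 2 .done)) (.node 5 7 .nil (.node 0 6 (.cons 0x9854321760 (.cons 0x2341897560 (.cons 0x9814327560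 .nil))) (.node 0 4 (.cons 0x9854067123 (.cons 0x2389756041 (.cons 0x9832140675 (.cons 0x6572340981 .nil)))) .done .done) .done) .done)) .done)) (.node 0 6 (.cons 0x9854321760 .nil) (.node 6 8 (.cons 0x5432176890 .nil) (.node 4 8 (.cons 0x5672109843 .nil) (.node 2 8 .nil (.node 6 9 (.cons 0x4569078123 (.cons 0x7096543281 .nil)) (.leaf 0x2817096543 0 .done) .done) .done) .done) (.node 3 7 (.cons 0x7321890654 .nil) (.node 0 2 (.cons 0x9832067145 .nil) (.node 7 9 (.cons 0x7983206541 .nil) (.leaf 0x2065417983 2 (.leaf 0x654179832 3 .done)) (.node 5 9 (.cons 0x2765983410 .nil) (.leaf 0x3895417602 0 (.leaf 0x1438956720 3 (.leaf 0x4102765983 2 (.leaf 0x4176023895 3 .done)))) .done)) .done) (.leaf 0x4321760985 2 .done))) .done))) (.node 3 8 (.cons 0x7654389012 .nil) (.node 2 8 .nil (.node 3 9 (.cons 0x2765893410 (.cons 0x9341072856 (.cons 0x9341076582 (.cons 0x5672893410 .nil)))) (.node 6 9 (.cons 0x9658143270 (.cons 0x1458239670 (.cons 0x7096543281 .nil))) (.leaf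 0x769345821 2 (.leaf 0x4396701285 2 .done)) .done) (.node 2 9 (.cons 0x7654389210 .nil) (.node 0 2 (.cons 0x9856720143 .nil) (.node 2 4 (.cons 0x3427658901 .nil) (.node 3 9 (.cons 0x9387654210 .nil) (.leaf 0x7201439856 3 (.leaf 0x934276581 3 (.leaf 0x6720143985 2 .done))) .done) .done) (.leaf 0x5670129834 0 .done)) .done)) (.leaf 0x1098345672 1 (.node 1 3 (.cons 0x4310985672 .nil) (.node 0 8 .nil (.node 3 5 (.cons 0x8901276534 (.cons 0x9801276534 .nil)) (.node 5 9 (.cons 0x9567083214 (.cons 0x3412765980 .nil)) (.leaf 0x6723410895 2 .done) .done) (.node 4 8 (.cons 0x9013485672 .nil) (.node 4 7 (.cons 0x5674389012 .nil) (.node 4 6 (.cons 0x9072346581 .nil) (.node 1 5 (.cons 0x9087645123 .nil) (.node 1 9 (.cons 0x2765843190 .nil) (.leaf 0x8564327091 0 .done) .done) .done) .done) .done) .done)) .done) .done))) (.node 0 6 (.cons 0x3458906712 .nil) (.leaf 0x1760985432 0 (.node 4 8 (.cons 0x5489067123 .nil) (.node 2 8 .nil (.node 3 9 (.cons 0x6581270934 (.cons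 0x6709345821 (.cons 0x9341285670 (.cons 0x5672893410 .nil)))) (.leaf 0x5821439076 1 .done) (.node 2 6 .nil (.node 3 9 (.cons 0x7654398210 (.cons 0x8543907126 (.cons 0x8543907621 (.cons 0x5843907621 (.cons 0x5439826710 .nil))))) .done (.node 1 6 .nil (.node 0 4 (.cons 0x3409856721 (.cons 0x7890456123 (.cons 0x7234098165 .nil))) .done (.node 6 8 (.cons 0x5432176890 .nil) (.node 4 6 (.cons 0x9072185643 .nil) (.node 6 9 (.cons 0x4569078123 .nil) .done .done) .done) .done)) .done)) .done)) (.node 4 7 (.cons 0x7456098123 .nil) (.node 4 6 (.cons 0x9072185643 .nil) (.node 7 9 (.cons 0x3465812790 .nil) (.node 3 7 (.cons 0x2379814560 .nil) (.node 1 6 (.cons 0x9072348165 .nil) (.node 5 7 (.cons 0x9075618432 .nil) .done .done) .done) .done) .done) .done) .done)) (.leaf 0x9854321760 3 .done))) .done))) (.node 3 8 (.cons 0x7654389012 .nil) (.node 1 3 .nil (.node 5 8 (.cons 0x6712345890 (.cons 0x4310985672 (.cons 0x4312765890 .nil))) .done (.node 5 8 (.cons 0x6712345890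 .nil) (.node 1 9 (.cons 0x8567234190 .nil) (.node 3 7 .nil (.node 2 6 (.cons 0x1762345890 (.cons 0x9018562734 .nil)) (.leaf 0x3726589014 0 (.leaf 0x5890143726 3 .done)) (.node 2 8 (.cons 0x8237654190 .nil) (.node 1 5 (.cons 0x6734510982 .nil) (.node 1 6 (.cons 0x5437610982 .nil) .done .done) .done) .done)) .done) (.node 2 8 (.cons 0x9076582134 .nil) (.node 2 9 (.cons 0x7654389210 .nil) (.node 4 8 (.cons 0x9076584312 .nil) (.leaf 0x5843129076 3 .done) (.leaf 0x5670129834 0 .done)) .done) .done)) .done)) (.leaf 0x1098345672 1 (.node 0 8 (.cons 0x9087654123 .nil) (.node 0 3 (.cons 0x4567890321 .nil) (.node 0 4 (.cons 0x9041238765 .nil) (.node 0 5 (.cons 0x9056783214 .nil) (.node 1 5 (.cons 0x8904327651 .nil) (.leaf 0x4327651890 1 .done) .done) .done) (.node 2 8 (.cons 0x9032876541 .nil) (.node 1 9 (.cons 0x9145678230 .nil) (.leaf 0x6782309145 2 (.leaf 0x8276543019 3 .done)) .done) .done)) (.node 1 3 (.cons 0x9087654132 .nil) (.node 2 9 (.cons 0x9231456780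 .nil) (.leaf 0x4567809231 0 (.node 2 8 .nil (.node 3 9 (.cons 0x8765412390 (.cons 0x1456782390 .nil)) (.leaf 0x4567823901 0 .done) (.node 5 8 (.cons 0x6712345890 .nil) (.node 6 8 (.cons 0x9213458670 .nil) .done .done) .done)) (.leaf 0x6541329087 1 .done))) .done) .done)) (.node 2 9 (.cons 0x1456783290 .nil) (.leaf 0x4567832901 0 (.node 2 8 (.cons 0x9014382765 .nil) (.node 5 8 (.cons 0x6712345890 .nil) (.node 0 6 (.cons 0x3458906712 .nil) (.leaf 0x1760985432 0 (.node 0 2 (.cons 0x9027658341 .nil) (.node 2 4 (.cons 0x5672438901 .nil) .done .done) (.leaf 0x9854321760 3 .done))) .done) .done) (.leaf 0x4567832901 1 .done))) .done)))) .done)) (.node 3 8 (.cons 0x7654389012 .nil) (.node 2 9 (.cons 0x7654389210 .nil) (.node 6 8 (.cons 0x5432176890 .nil) (.node 1 9 .nil (.node 0 5 (.cons 0x2345098671 (.cons 0x6832917054 (.cons 0x4389105672 .nil))) (.leaf 0x3450986712 0 .done) (.node 3 7 (.cons 0x4568370192 .nil) (.node 1 6 (.cons 0x8617092345 .nil) (.node 0 8 (.cons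 0x7345610892 .nil) (.leaf 0x1654372980 2 (.leaf 0x9801654372 3 .done)) (.node 2 8 (.cons 0x4561092873 .nil) (.node 1 5 (.cons 0x2345176890 .nil) (.node 0 2 (.cons 0x9867154320 .nil) (.node 0 6 (.cons 0x4519823760 .nil) (.leaf 0x2345170689 0 .done) .done) (.leaf 0x2867091543 0 .done)) .done) .done)) .done) .done)) (.node 3 7 (.cons 0x8654370921 .nil) (.node 1 9 .nil (.node 0 2 (.cons 0x9120768345 (.cons 0x4568370291 .nil)) (.leaf 0x8345672019 2 .done) (.node 2 8 .nil (.node 1 4 (.cons 0x2914568370 (.cons 0x8237654190 (.cons 0x3709145682 .nil))) (.node 0 5 (.cons 0x1437298650 (.cons 0x9827341056 (.cons 0x9827650143 .nil))) (.leaf 0x7298650143 1 .done) .done) (.node 0 2 (.cons 0x4568370291 .nil) (.node 1 6 (.cons 0x5437092861 .nil) (.node 0 8 (.cons 0x7345610892 .nil) (.leaf 0x1654372980 2 (.leaf 0x6108927345 0 .done)) (.node 0 5 (.cons 0x7345092861 .nil) (.leaf 0x4371682905 2 (.leaf 0x9286173450 3 .done)) .done)) .done) .done)) .done)) .done) .done)) (.node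 6 8 (.cons 0x5432176890 .nil) (.node 0 5 (.cons 0x2345098671 .nil) (.leaf 0x3450986712 0 (.node 0 2 (.cons 0x5432098671 .nil) (.node 2 8 .nil (.node 1 5 (.cons 0x2345176890 (.cons 0x9286701543 (.cons 0x7682901543 (.cons 0x9071543286 .nil)))) .done .done) .done) (.node 1 4 (.cons 0x3214567890 .nil) (.leaf 0x5672341890 0 (.leaf 0x567298341 3 (.leaf 0x8341056729 0 .done))) .done))) (.node 5 8 (.cons 0x6712345890 .nil) (.node 3 7 (.cons 0x6854370921 .nil) (.node 2 8 .nil (.node 1 6 (.cons 0x2907345861 (.cons 0x9285437016 (.cons 0x9016582734 .nil))) (.leaf 0x982734561 1 .done) .done) .done) (.node 3 7 .nil (.node 0 5 (.cons 0x3450986712 (.cons 0x6890543712 (.cons 0x6738921054 .nil))) .done (.node 2 8 .nil (.node 1 6 (.cons 0x8543290761 (.cons 0x7610928543 .nil)) (.leaf 0x3290761854 2 (.leaf 0x982734561 1 .done)) (.node 1 6 (.cons 0x8543290761 .nil) (.leaf 0x3290761854 2 (.node 0 2 (.cons 0x9028617345 .nil) (.node 0 5 (.cons 0x7345092861 .nil) (.leaf 0x4371682905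 0 .done) .done) (.leaf 0x982734561 1 .done))) .done)) .done)) .done)) .done)) (.leaf 0x5670129834 0 .done))) (.node 5 8 (.cons 0x6712345890 .nil) (.node 3 5 (.cons 0x8901276534 .nil) (.node 4 8 (.cons 0x5672109843 .nil) (.node 2 8 .nil (.node 6 9 (.cons 0x1235487690 (.cons 0x7690128435 (.cons 0x7690128453 (.cons 0x5348276901 (.cons 0x7096543821 .nil))))) .done .done) (.leaf 0x6721098435 0 (.leaf 0x2765348901 1 .done))) (.node 2 8 (.cons 0x4356728901 .nil) (.node 1 4 (.cons 0x3214567890 .nil) (.node 5 7 (.cons 0x6572109834 .nil) (.node 4 7 (.cons 0x5674321890 .nil) (.node 0 5 (.cons 0x2347650981 .nil) (.leaf 0x9812347650 2 (.leaf 0x8905674321 0 .done)) .done) .done) (.leaf 0x3567289014 3 (.leaf 0x9014356728 0 .done))) .done) .done)) (.node 1 4 (.cons 0x1432765890 .nil) (.node 1 3 (.cons 0x4310985672 .nil) (.node 3 5 (.cons 0x8901276534 .nil) (.node 0 8 (.cons 0x9801276534 .nil) (.node 4 8 (.cons 0x9843567210 .nil) (.node 4 7 (.cons 0x5674321890 .nil) (.node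 0 5 (.cons 0x3489056721 .nil) (.leaf 0x9812347650 2 (.leaf 0x8905674321 0 .done)) .done) .done) .done) .done) .done) (.leaf 0x7658901432 1 (.node 6 9 (.cons 0x4569078321 .nil) (.leaf 0x783214569 2 (.leaf 0x5690783214 3 (.leaf 0x7096541238 0 (.node 6 8 (.cons 0x5432176890 .nil) (.node 0 3 (.cons 0x4567890321 .nil) (.node 0 8 .nil (.node 1 9 (.cons 0x5869143072 .nil) (.leaf 0x6543219807 2 .done) .done) (.leaf 0x8903214567 0 (.leaf 0x9876541230 2 .done))) .done) .done)))) .done))) (.node 0 6 (.cons 0x3458906712 .nil) (.leaf 0x1760985432 0 (.node 4 7 (.cons 0x5674321890 .nil) (.node 3 7 (.cons 0x9837456012 .nil) (.node 5 7 (.cons 0x6572109834 .nil) .done .done) (.node 0 5 (.cons 0x2347650981 .nil) (.leaf 0x9812347650 2 (.node 5 7 (.cons 0x6572109834 .nil) (.node 3 7 .nil (.node 1 4 (.cons 0x3412765890 (.cons 0x9065837214 (.cons 0x6541237890 .nil))) (.leaf 0x5672341890 0 .done) .done) .done) .done)) (.leaf 0x983217456 1 .done))) (.leaf 0x9854321760 3 .done)))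 .done))) (.leaf 0x1098345672 1 (.node 6 8 (.cons 0x5432176890 .nil) (.node 5 8 (.cons 0x6712345890 .nil) (.node 3 7 (.cons 0x6589012734 .nil) (.node 3 5 (.cons 0x8901276534 .nil) (.node 4 8 (.cons 0x5672109843 .nil) (.node 0 8 .nil (.node 1 9 (.cons 0x6784532190 (.cons 0x9123456807 (.cons 0x4567321980 .nil))) .done .done) (.leaf 0x2765348901 1 .done)) .done) .done) (.node 0 6 (.cons 0x3458906712 .nil) (.leaf 0x1760985432 0 (.node 2 6 (.cons 0x5438901762 .nil) (.node 1 6 .nil (.node 0 2 (.cons 0x6712098543 (.cons 0x7612098543 .nil)) (.node 2 8 (.cons 0x9017628345 (.cons 0x9076128543 .nil)) .done .done) .done) .done) (.leaf 0x9854321760 3 .done))) .done)) (.node 5 8 (.cons 0x6712345890 .nil) (.node 4 8 (.cons 0x5672109843 .nil) (.node 3 7 .nil (.node 0 2 (.cons 0x7345689021 (.cons 0x5437689021 .nil)) (.leaf 0x9865437120 0 (.node 3 5 (.cons 0x9021735486 (.cons 0x6890217354 .nil)) .done .done)) (.node 1 9 (.cons 0x6548709123 .nil) (.node 1 3 (.cons 0x9072134865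 .nil) (.node 3 6 (.cons 0x9078456321 .nil) (.node 0 6 (.cons 0x9854321760 .nil) (.node 0 8 (.cons 0x7321980654 .nil) (.node 2 8 (.cons 0x9128654370 .nil) .done .done) (.leaf 0x4321760985 2 .done)) .done) .done) (.node 0 8 (.cons 0x4567321980 .nil) (.node 0 4 (.cons 0x8912376540 .nil) (.leaf 0x7321980456 0 .done) .done) .done)) .done)) (.node 0 4 (.cons 0x9856721043 .nil) (.node 3 7 (.cons 0x6540987321 .nil) (.node 0 8 .nil (.node 1 5 (.cons 0x9865127340 .nil) (.leaf 0x2156890437 3 (.node 1 9 (.cons 0x5689127340 (.cons 0x4567321980 .nil)) .done (.leaf 0x8651273409 0 .done))) .done) .done) (.node 1 9 (.cons 0x1985672340 .nil) (.node 4 9 (.cons 0x3498567210 .nil) (.node 0 8 (.cons 0x6580721943 .nil) (.node 2 8 (.cons 0x7091286543 .nil) .done .done) .done) (.node 2 9 (.cons 0x9234076581 .nil) (.node 2 8 .nil (.node 3 5 (.cons 0x3548670912 (.cons 0x3540917682 .nil)) (.leaf 0x2891043567 2 .done) .done) (.leaf 0x765819234 0 .done)) .done)) .done)) .done)) (.node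 3 7 (.cons 0x6589012734 .nil) (.node 3 5 (.cons 0x8901276534 .nil) (.node 3 6 (.cons 0x7210985634 .nil) (.node 4 7 (.cons 0x5674321890 .nil) (.node 1 3 (.cons 0x6589013472 .nil) (.node 0 3 (.cons 0x4567890321 .nil) (.node 3 9 (.cons 0x4568709312 .nil) .done .done) .done) (.leaf 0x9856347210 1 .done)) .done) .done) .done) .done)) .done)) .done)))) .done)))
noncomputable def tc9_4_32 : T := (.node 1 8 (.cons 0x7654321890 .nil) (.node 1 5 .nil (.node 0 4 (.cons 0x6789045123 (.cons 0x8904327651 .nil)) (.leaf 0x2340981567 0 (.node 3 8 (.cons 0x7654389012 (.cons 0x4389015672 .nil)) (.node 6 9 (.cons 0x3217896540 (.cons 0x9651238704 (.cons 0x8965172340 (.cons 0x7215698340 .nil)))) (.node 0 3 (.cons 0x4567890321 (.cons 0x6789032154 (.cons 0x8965172304 .nil))) (.node 0 8 (.cons 0x9087654123 (.cons 0x9670832154 (.cons 0x4089651723 .nil))) .done .done) .done) (.leaf 0x1098345672 1 (.node 0 3 (.cons 0x4567890321 (.cons 0x6789032154 .nil)) (.node 0 5 (.cons 0x9056783214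 .nil) (.node 4 9 (.cons 0x4983217650 (.cons 0x2387651490 (.cons 0x8349076512 .nil))) (.leaf 0x3214905678 1 .done) .done) .done) .done))) .done)) (.node 1 6 .nil (.node 0 4 (.cons 0x7890456123 (.cons 0x5409876123 (.cons 0x7234098165 .nil))) (.node 3 8 (.cons 0x7654389012 (.cons 0x9834012765 (.cons 0x7651238904 (.cons 0x4098327651 .nil)))) (.leaf 0x1098345672 1 .done) .done) (.node 1 9 .nil (.node 6 8 (.cons 0x7091865432 .nil) (.node 0 3 (.cons 0x4567890321 (.cons 0x9032145687 (.cons 0x7689032154 (.cons 0x8765419032 .nil)))) (.node 0 8 (.cons 0x2345671980 .nil) (.node 2 8 (.cons 0x3287654190 .nil) (.leaf 0x7654190328 0 .done) .done) .done) (.leaf 0x1234568709 0 (.node 5 8 (.cons 0x8567234190 .nil) (.node 1 3 (.cons 0x9076854312 .nil) .done (.node 0 8 (.cons 0x9087654123 (.cons 0x9123458076 (.cons 0x9143276580 .nil))) (.node 3 8 (.cons 0x7654389012 (.cons 0x5438670912 (.cons 0x2387654190 .nil))) .done .done) .done)) .done))) (.node 1 3 .nil (.node 5 8 (.cons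 0x8543219076 (.cons 0x4310985672 (.cons 0x4312765890 .nil))) (.node 0 4 (.cons 0x9856721043 .nil) (.node 5 7 (.cons 0x4098756123 (.cons 0x4098756132 (.cons 0x8904312756 .nil))) .done (.node 6 8 (.cons 0x9123458670 (.cons 0x7689045132 .nil)) (.leaf 0x9045132768 0 .done) (.leaf 0x6721340985 2 .done))) .done) .done) .done)) .done)) .done)) (.node 5 7 (.cons 0x6754321890 .nil) (.node 0 6 (.cons 0x2345760981 .nil) (.leaf 0x9812345760 0 (.node 1 6 (.cons 0x2345761890 .nil) (.node 0 2 (.cons 0x6754320981 .nil) (.node 0 5 .nil (.node 4 9 (.cons 0x8756149023 (.cons 0x8945067123 (.cons 0x4987165023 .nil))) (.leaf 0x5617894320 1 (.leaf 0x8167502349 2 .done)) .done) (.leaf 0x3457618902 3 .done)) .done) (.node 0 5 (.cons 0x9817605432 .nil) (.node 1 5 (.cons 0x7609815432 .nil) (.node 1 6 (.cons 0x2345761890 .nil) (.node 0 2 (.cons 0x6754320981 .nil) (.leaf 0x3457618902 3 (.leaf 0x9816754320 2 .done)) .done) .done) (.node 1 5 (.cons 0x7609815432 .nil) (.node 5 9 (.cons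 0x2345981760 .nil) (.node 0 2 (.cons 0x6754320981 .nil) (.leaf 0x1895432067 2 (.node 3 7 (.cons 0x6732189054 .nil) (.node 7 9 (.cons 0x8971543206 .nil) .done .done) .done)) .done) .done) .done)) .done))) (.node 0 6 (.cons 0x3457609812 .nil) (.leaf 0x9812345760 1 (.node 1 6 .nil (.node 0 4 (.cons 0x7890456123 (.cons 0x5409876123 .nil)) (.node 3 9 (.cons 0x8765412390 (.cons 0x8709321654 (.cons 0x8932176045 (.cons 0x5406718932 .nil)))) (.leaf 0x2390456781 3 .done) (.node 3 5 (.cons 0x9817604532 (.cons 0x4098723561 .nil)) (.leaf 0x6189045327 1 (.leaf 0x6189045327 0 (.leaf 0x7235614098 0 .done))) .done)) (.node 1 3 .nil (.node 4 8 (.cons 0x5672109843 (.cons 0x6572134890 (.cons 0x5672134890 .nil))) (.node 2 4 (.cons 0x8906754213 .nil) (.node 0 2 (.cons 0x9845760213 .nil) (.node 2 8 (.cons 0x6754312890 .nil) .done .done) (.leaf 0x9876542310 2 .done)) (.leaf 0x7560984312 0 .done)) (.node 1 5 .nil (.node 4 7 (.cons 0x5476098123 (.cons 0x8906745123 (.cons 0x8906513274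 .nil))) .done (.node 1 9 .nil (.node 6 8 (.cons 0x4312756890 (.cons 0x4568709132 .nil)) (.leaf 0x1234568709 0 (.node 5 9 (.cons 0x3459076812 .nil) (.leaf 0x4590768123 3 (.leaf 0x7095432186 0 .done)) .done)) .done) .done)) .done)) .done)) (.node 0 5 (.cons 0x9817605432 .nil) (.node 0 8 (.cons 0x9087654123 .nil) (.node 0 3 (.cons 0x4567890321 .nil) (.node 0 4 (.cons 0x9804321765 .nil) .done .done) .done) (.node 1 5 (.cons 0x7609815432 .nil) (.node 5 9 (.cons 0x2345981760 .nil) (.node 5 8 (.cons 0x6723418590 .nil) (.node 2 5 (.cons 0x9067814523 .nil) (.node 3 5 (.cons 0x9067814532 .nil) .done .done) .done) .done) .done) .done)) .done))) .done)) (.node 1 6 .nil (.node 0 4 (.cons 0x7890456123 (.cons 0x5409876123 .nil)) (.node 3 8 (.cons 0x7654389012 (.cons 0x9834012765 (.cons 0x9078321654 .nil))) (.leaf 0x1098345672 1 (.node 1 5 (.cons 0x4098327651 .nil) (.leaf 0x2389041567 2 .done) .done)) (.node 1 3 (.cons 0x7890456132 (.cons 0x5409876132 .nil)) .done .done))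 (.node 1 5 .nil (.node 0 4 (.cons 0x6789045123 (.cons 0x8904327651 .nil)) (.node 3 8 (.cons 0x7654389012 (.cons 0x9834012765 (.cons 0x7612389045 (.cons 0x4389015672 .nil)))) (.node 5 8 (.cons 0x9856721043 (.cons 0x9041658327 (.cons 0x3409856721 .nil))) .done .done) (.node 0 8 (.cons 0x9087654123 (.cons 0x9804327156 .nil)) (.node 6 9 (.cons 0x3217896540 (.cons 0x8965172340 .nil)) (.leaf 0x4327156980 0 (.node 3 5 (.cons 0x4351276980 (.cons 0x8096721534 (.cons 0x6980435172 .nil))) (.node 3 8 (.cons 0x4127835690 (.cons 0x7215698340 (.cons 0x2715698340 .nil))) .done .done) .done)) .done) .done)) (.node 0 5 (.cons 0x7650981234 .nil) (.node 4 7 (.cons 0x5674321890 .nil) (.node 3 7 .nil (.node 0 6 (.cons 0x6098745123 (.cons 0x8906154732 .nil)) (.node 4 8 (.cons 0x5672109843 (.cons 0x9847321506 (.cons 0x7321654890 (.cons 0x5160984732 (.cons 0x6512734890 .nil))))) .done .done) (.node 2 4 (.cons 0x4237650981 .nil) (.node 2 6 (.cons 0x8901562734 .nil) (.node 2 5 .nil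 (.node 0 4 (.cons 0x7325618904 (.cons 0x9817652340 .nil)) (.leaf 0x6718904325 3 .done) .done) .done) (.leaf 0x567324189 2 .done)) .done)) (.leaf 0x8905674321 0 (.node 1 3 .nil (.node 5 8 (.cons 0x9076581234 (.cons 0x4310985672 (.cons 0x4312765890 .nil))) (.node 3 8 (.cons 0x6509831274 (.cons 0x6745098312 .nil)) (.node 0 2 (.cons 0x9023876541 (.cons 0x7456138902 (.cons 0x5476138902 .nil))) .done .done) .done) (.node 1 9 .nil (.node 6 8 (.cons 0x3472156890 (.cons 0x8651907234 .nil)) (.leaf 0x1234568709 0 (.node 3 7 (.cons 0x4372156890 .nil) (.node 5 7 (.cons 0x2134576890 .nil) .done .done) .done)) .done) .done)) .done))) (.node 1 9 .nil (.node 0 8 (.cons 0x9087654123 (.cons 0x6508917234 (.cons 0x6719805432 .nil))) .done (.node 1 3 .nil (.node 2 4 (.cons 0x9056781423 (.cons 0x6789132450 (.cons 0x6789054231 .nil))) (.leaf 0x9876542310 2 .done) .done) .done)) .done)) .done)) .done)) .done))) (.node 3 7 (.cons 0x6541237890 .nil) (.node 0 3 (.cons 0x4567890321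 .nil) (.node 0 4 (.cons 0x9871230456 .nil) (.node 0 2 .nil (.node 1 8 (.cons 0x7654321890 .nil) (.leaf 0x2345671890 1 (.leaf 0x2345671890 0 .done)) (.node 0 5 .nil (.node 1 8 (.cons 0x7654321890 (.cons 0x7650981234 .nil)) (.node 0 6 (.cons 0x9817605432 .nil) (.node 5 7 (.cons 0x6754321890 .nil) (.leaf 0x9812345760 0 (.leaf 0x9812345760 1 .done)) .done) .done) (.node 0 6 (.cons 0x7890654123 .nil) (.node 0 8 .nil (.node 3 9 (.cons 0x8709321456 .nil) (.leaf 0x8093214567 0 (.leaf 0x876541239 2 .done)) .done) .done) .done)) .done)) (.node 4 7 (.cons 0x6547890321 .nil) (.node 4 9 (.cons 0x6549871230 .nil) (.node 4 8 (.cons 0x5672109843 .nil) (.node 5 7 (.cons 0x9843012756 .nil) (.node 7 9 .nil (.node 0 6 (.cons 0x8906572341 (.cons 0x7984560321 .nil)) (.leaf 0x3217984560 2 .done) .done) .done) .done) .done) .done) .done)) (.leaf 0x8903214567 0 (.leaf 0x9876541230 2 .done))) (.node 5 7 .nil (.node 6 8 (.cons 0x5689014372 (.cons 0x1432756890 (.cons 0x3412756890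 .nil))) (.leaf 0x5723410986 2 (.leaf 0x9865723410 3 .done)) (.node 0 3 (.cons 0x4567890321 .nil) (.node 4 7 (.cons 0x6547890321 .nil) (.node 7 9 .nil (.node 6 8 (.cons 0x3412756890 (.cons 0x7986543012 (.cons 0x2179865430 .nil))) (.leaf 0x7903214568 2 (.leaf 0x9786541230 0 .done)) .done) .done) (.node 0 6 (.cons 0x2378906541 .nil) (.node 4 7 (.cons 0x5609874123 .nil) (.node 7 9 .nil (.node 5 8 (.cons 0x5890674321 (.cons 0x6798543012 (.cons 0x4321798560 (.cons 0x2341798560 .nil)))) .done .done) .done) (.leaf 0x4560987321 2 (.node 0 4 .nil (.node 3 9 (.cons 0x2398714560 (.cons 0x5604178932 .nil)) (.leaf 0x4567893210 2 .done) .done) .done))) (.leaf 0x8903214567 0 .done))) .done)) .done)) (.node 1 8 (.cons 0x7654321890 .nil) (.node 0 4 .nil (.node 5 7 (.cons 0x6572340981 (.cons 0x6572189043 .nil)) (.node 0 6 (.cons 0x7560981234 (.cons 0x8906754123 (.cons 0x4327560981 .nil))) .done .done) (.node 0 5 (.cons 0x6789054123 .nil) (.node 3 6 (.cons 0x9871236540 .nil)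 (.node 1 5 .nil (.node 4 9 (.cons 0x9456321870 (.cons 0x1563278940 (.cons 0x3651278940 .nil))) .done (.node 1 3 .nil (.node 2 6 (.cons 0x9871326540 .nil) (.leaf 0x5409871326 2 (.leaf 0x4132678905 1 (.leaf 0x4562317890 0 .done))) (.node 1 6 (.cons 0x7890456123 .nil) (.node 1 9 (.cons 0x7891236540 .nil) .done .done) .done)) .done)) (.leaf 0x4123678905 1 (.node 1 5 .nil (.node 2 4 (.cons 0x9871563240 .nil) (.leaf 0x3678905142 2 (.leaf 0x6324150987 0 (.leaf 0x3651789042 1 .done))) (.node 1 3 .nil (.node 2 6 (.cons 0x9871326540 .nil) (.leaf 0x5409871326 2 (.node 6 8 (.cons 0x7689054123 (.cons 0x7689054132 (.cons 0x7213409865 .nil))) .done (.leaf 0x4132678905 1 (.leaf 0x4562317890 0 .done)))) .done) .done)) (.leaf 0x5409871236 2 .done)))) (.node 5 7 .nil (.node 0 6 (.cons 0x7560981234 (.cons 0x8906754123 .nil)) (.node 0 8 (.cons 0x9806712345 (.cons 0x9804321756 .nil)) .done .done) (.node 5 8 .nil (.node 0 6 (.cons 0x9850671432 (.cons 0x7609854123 .nil)) (.leaf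 0x2345890671 1 .done) (.node 6 9 (.cons 0x3217896540 .nil) (.leaf 0x8501432769 2 (.leaf 0x5896723410 0 (.leaf 0x7698501432 3 (.node 2 8 (.cons 0x3405698271 .nil) (.node 1 3 (.cons 0x2896713450 .nil) (.leaf 0x431728965 0 (.leaf 0x4056982713 2 .done)) .done) .done)))) .done)) .done)) .done)) (.node 4 7 .nil (.node 0 6 (.cons 0x9817234065 (.cons 0x7432189065 (.cons 0x7456098123 .nil))) .done (.node 5 7 (.cons 0x6572340981 .nil) (.node 4 8 (.cons 0x5672109843 .nil) (.node 4 9 (.cons 0x6549078123 .nil) (.node 4 6 .nil (.node 0 3 (.cons 0x6549871230 (.cons 0x5467890321 (.cons 0x5649871230 .nil))) (.leaf 0x7230981465 2 .done) (.node 2 4 .nil (.node 3 9 (.cons 0x5640932781 (.cons 0x1875642390 (.cons 0x6542390781 .nil))) (.leaf 0x8756423901 0 .done) .done) .done)) .done) .done) .done) .done)) .done))) (.node 4 7 (.cons 0x5674321890 .nil) (.node 0 5 (.cons 0x2347650981 .nil) (.leaf 0x9812347650 2 (.leaf 0x8905674321 0 (.node 0 4 (.cons 0x9817650432 .nil) (.node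 4 9 (.cons 0x2349817650 .nil) (.node 4 8 (.cons 0x5672109843 .nil) (.node 3 7 (.cons 0x6540987321 .nil) (.node 0 3 (.cons 0x4567890321 .nil) (.node 5 9 (.cons 0x3489567210 .nil) (.leaf 0x8430127659 2 (.leaf 0x6598430127 3 .done)) .done) .done) .done) .done) .done) .done))) (.node 4 9 (.cons 0x8123490765 .nil) (.node 5 7 (.cons 0x8123490756 .nil) (.node 0 4 .nil (.node 3 6 (.cons 0x5412367890 (.cons 0x9407812365 (.cons 0x5632178940 .nil))) (.node 0 5 (.cons 0x3650947812 .nil) (.node 2 9 (.cons 0x4781290563 (.cons 0x8175632940 .nil)) (.leaf 0x7810492365 0 .done) (.leaf 0x4123678905 1 .done)) (.leaf 0x5409871236 2 .done)) (.node 4 8 (.cons 0x5672109843 .nil) (.node 4 6 (.cons 0x5649078123 .nil) (.node 1 6 (.cons 0x8165709432 .nil) (.node 2 4 (.cons 0x8165709423 .nil) .done .done) .done) .done) .done)) .done) (.node 4 8 (.cons 0x5672109843 .nil) (.node 5 8 (.cons 0x2349076581 .nil) (.node 4 6 (.cons 0x7210985643 .nil) (.node 1 6 (.cons 0x3472165890 .nil) (.node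 1 3 (.cons 0x9485613270 .nil) (.leaf 0x5613270948 2 (.leaf 0x7231658490 2 .done)) .done) .done) (.node 3 8 (.cons 0x7654389012 .nil) (.node 5 7 (.cons 0x6572109834 .nil) .done (.leaf 0x1098345672 1 .done)) (.leaf 0x6709432185 1 .done))) (.node 0 4 .nil (.node 3 8 (.cons 0x7654389012 (.cons 0x9834012765 .nil)) (.leaf 0x1098345672 1 (.node 5 8 (.cons 0x2349076581 (.cons 0x9856721043 (.cons 0x3409856721 .nil))) .done .done)) .done) .done)) .done)) .done)) .done)) .done)))
noncomputable def tc9_4_33 : T := (.node 3 8 (.cons 0x7654389012 (.cons 0x9834012765 .nil)) (.node 6 9 (.cons 0x4569078321 (.cons 0x8321709654 (.cons 0x8345690712 .nil))) (.node 5 7 (.cons 0x7569834012 .nil) (.node 1 6 (.cons 0x9834016572 (.cons 0x9045612387 (.cons 0x4098327561 .nil))) .done (.leaf 0x4389657210 1 .done)) (.node 0 6 (.cons 0x7123890654 .nil) (.node 5 7 (.cons 0x2756983401 (.cons 0x4389065712 .nil)) (.node 1 6 (.cons 0x9834016572 (.cons 0x9045612387 (.cons 0x4098327561 .nil)))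 .done .done) .done) .done)) (.leaf 0x1098345672 1 (.node 1 8 (.cons 0x7654321890 .nil) (.node 5 9 (.cons 0x1895672340 (.cons 0x9567043812 .nil)) (.leaf 0x7659810432 0 (.node 1 5 (.cons 0x7651238904 .nil) (.node 3 5 (.cons 0x8901276534 (.cons 0x9810435672 .nil)) (.node 1 6 (.cons 0x9561238704 .nil) (.leaf 0x8761235409 0 (.node 7 9 (.cons 0x8976123540 (.cons 0x4079561832 (.cons 0x8340976512 .nil))) .done .done)) .done) .done) (.node 1 4 (.cons 0x9041238765 .nil) (.leaf 0x2389567041 0 (.leaf 0x3214095678 0 .done)) .done))) (.node 0 6 (.cons 0x7189065432 .nil) (.node 5 7 (.cons 0x9812340657 (.cons 0x6572340981 (.cons 0x6572189043 .nil))) .done (.leaf 0x9817234560 1 .done)) (.node 3 9 (.cons 0x1239876540 .nil) (.node 0 8 (.cons 0x7654398012 .nil) (.leaf 0x3980127654 0 (.leaf 0x9345672108 2 .done)) (.leaf 0x4567893210 2 (.node 1 5 (.cons 0x6789321540 (.cons 0x7651238904 .nil)) (.node 7 9 (.cons 0x8340976512 .nil) (.node 2 6 (.cons 0x8154326790 (.cons 0x5401267893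 (.cons 0x8154097623 .nil))) (.node 3 5 (.cons 0x8901276534 (.cons 0x6789354012 (.cons 0x6235409781 (.cons 0x9045326781 .nil)))) .done .done) .done) (.node 6 8 (.cons 0x6870932154 (.cons 0x9321540786 (.cons 0x4327156890 (.cons 0x7215689043 .nil)))) .done .done)) (.leaf 0x456781239 2 .done)))) .done))) (.node 1 5 (.cons 0x9834015672 (.cons 0x4098327651 .nil)) (.node 1 9 (.cons 0x4091567832 (.cons 0x8327651904 .nil)) (.node 2 6 (.cons 0x4562387091 (.cons 0x4562387190 .nil)) (.leaf 0x3890172654 0 (.leaf 0x5623871904 3 .done)) (.node 3 5 (.cons 0x8901276534 (.cons 0x6789123540 .nil)) (.node 5 8 (.cons 0x8543219076 (.cons 0x9856721043 (.cons 0x3409856721 .nil))) .done .done) .done)) (.node 4 6 (.cons 0x3278904651 (.cons 0x2715643890 .nil)) (.node 1 4 (.cons 0x3214567890 .nil) (.leaf 0x2389041567 2 (.node 1 9 (.cons 0x9156407832 (.cons 0x7238915640 .nil)) .done .done)) (.leaf 0x3271564098 0 .done)) .done)) .done)))) (.node 0 3 (.cons 0x4567890321 .nil) (.node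 0 2 (.cons 0x8902345671 .nil) (.node 0 5 (.cons 0x8905432176 .nil) (.node 0 6 (.cons 0x9871230654 .nil) (.node 4 8 (.cons 0x5672109843 (.cons 0x7123489065 .nil)) (.node 5 9 (.cons 0x3489567210 (.cons 0x7123489560 (.cons 0x3489567201 .nil))) (.node 1 3 (.cons 0x6789540213 (.cons 0x7602134895 (.cons 0x7659843120 .nil))) (.node 0 8 (.cons 0x9567208431 .nil) .done .done) .done) (.leaf 0x7650984321 0 (.node 2 5 (.cons 0x9843065217 (.cons 0x7125609843 .nil)) (.node 2 6 (.cons 0x7126548903 .nil) (.node 3 9 (.cons 0x9307845621 (.cons 0x8439067125 (.cons 0x7126503984 (.cons 0x4893056271 .nil)))) .done .done) .done) .done))) (.node 5 8 (.cons 0x6712345890 .nil) (.leaf 0x2340985671 0 (.leaf 0x4321760985 2 (.leaf 0x3458906712 0 (.node 1 4 (.cons 0x9871456032 .nil) (.leaf 0x7658901432 1 (.node 1 8 (.cons 0x7654321890 .nil) (.node 2 9 (.cons 0x7189234560 (.cons 0x5432981760 (.cons 0x5406718923 .nil))) .done (.leaf 0x4320981765 0 (.node 2 5 (.cons 0x9817604325 (.cons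 0x9043258176 (.cons 0x7189065234 .nil))) .done .done))) .done)) (.leaf 0x9854321760 3 .done))))) .done)) (.node 1 8 (.cons 0x6509817234 (.cons 0x6718905432 .nil)) (.node 4 9 (.cons 0x1894327650 (.cons 0x5672018943 (.cons 0x6503498172 .nil))) (.node 1 4 (.cons 0x9814327650 .nil) (.node 3 6 (.cons 0x9418723650 (.cons 0x8943650172 (.cons 0x8712365490 (.cons 0x8714905632 (.cons 0x9456320781 .nil))))) .done .done) .done) (.node 0 8 .nil (.node 1 4 (.cons 0x9814320567 (.cons 0x9087654123 .nil)) (.node 3 6 (.cons 0x5409876321 (.cons 0x9087145632 (.cons 0x4178905632 (.cons 0x9805632714 .nil)))) .done .done) .done) .done)) .done)) (.node 0 5 (.cons 0x8905432176 .nil) (.node 4 8 (.cons 0x5672109843 (.cons 0x3209845671 (.cons 0x3489056721 .nil))) (.leaf 0x3217650984 2 (.node 0 6 (.cons 0x7123489065 (.cons 0x5609843271 .nil)) .done .done)) (.node 4 8 (.cons 0x5672109843 (.cons 0x6509843271 (.cons 0x3209845671 .nil))) (.node 1 8 (.cons 0x6509817234 (.cons 0x6718905432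 .nil)) (.node 2 9 (.cons 0x3489276501 (.cons 0x6501729843 .nil)) (.leaf 0x7184329056 0 .done) .done) (.node 3 5 (.cons 0x1276534890 .nil) (.node 6 9 (.cons 0x8967210435 (.cons 0x7120356984 (.cons 0x8967123540 (.cons 0x4896530271 (.cons 0x8967120453 .nil))))) .done (.leaf 0x2765348901 1 .done)) .done)) .done)) .done)) (.node 1 4 (.cons 0x3214567890 .nil) (.node 4 8 (.cons 0x5672109843 .nil) (.leaf 0x1230984567 0 (.node 2 5 (.cons 0x9843017652 (.cons 0x6527109843 (.cons 0x9841765230 .nil))) (.leaf 0x3256714890 3 (.leaf 0x7652309841 0 .done)) (.node 4 9 (.cons 0x5678941230 .nil) (.node 0 6 (.cons 0x7894123065 .nil) (.node 3 5 (.cons 0x1276534890 (.cons 0x6530948712 (.cons 0x8941723560 .nil))) (.node 1 6 (.cons 0x9876123540 .nil) (.leaf 0x2167890453 3 (.leaf 0x8761235409 0 .done)) (.leaf 0x9067123548 0 .done)) (.leaf 0x7894560321 1 .done)) (.node 4 7 .nil (.node 0 5 (.cons 0x3489056721 (.cons 0x8941765032 (.cons 0x9874123056 .nil))) (.node 0 6 (.cons 0x4560987123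 (.cons 0x9874123065 (.cons 0x8906547123 .nil))) .done .done) .done) .done)) .done))) (.node 0 8 (.cons 0x9087654123 .nil) (.node 3 6 (.cons 0x5409876321 (.cons 0x9087123654 (.cons 0x9087145632 .nil))) (.node 3 8 (.cons 0x7654389012 .nil) (.leaf 0x1098345672 1 (.node 5 9 (.cons 0x1236789540 (.cons 0x6321789540 (.cons 0x6590832714 (.cons 0x4365980172 (.cons 0x6590834172 .nil))))) .done .done)) .done) (.node 3 9 (.cons 0x8765412390 (.cons 0x6541780932 .nil)) (.node 2 6 (.cons 0x5439801762 (.cons 0x8093267145 .nil)) (.leaf 0x871456239 0 (.leaf 0x7809326541 1 .done)) (.node 2 8 (.cons 0x1456782390 (.cons 0x2893456710 (.cons 0x6541782390 .nil))) (.leaf 0x4567823901 3 .done) .done)) .done)) (.leaf 0x8903214567 0 .done))) (.node 1 4 (.cons 0x6541789032 .nil) (.node 2 4 (.cons 0x6542309871 .nil) (.node 5 8 (.cons 0x9856724301 (.cons 0x3427658901 .nil)) (.leaf 0x2340985671 0 (.node 2 6 (.cons 0x9856271034 .nil) (.leaf 0x7265890341 3 (.leaf 0x8562714309 0 .done))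 (.node 1 9 (.cons 0x5678914230 .nil) (.leaf 0x4567891032 2 (.node 0 6 (.cons 0x5419876032 (.cons 0x5891427603 .nil)) (.leaf 0x1760985432 0 .done) (.leaf 0x6724301985 1 .done))) .done))) (.node 2 9 (.cons 0x1456789230 (.cons 0x6541789230 .nil)) (.node 0 5 (.cons 0x6789230541 (.cons 0x8923054176 .nil)) (.node 2 5 (.cons 0x6789254103 (.cons 0x8925430176 .nil)) (.node 6 8 (.cons 0x7689254103 (.cons 0x5430176892 (.cons 0x9867140325 (.cons 0x3254098671 (.cons 0x9865034172 .nil))))) .done .done) .done) (.node 3 8 (.cons 0x7654389012 (.cons 0x4567103892 .nil)) (.leaf 0x1038927654 0 (.leaf 0x1098345672 1 (.node 2 5 (.cons 0x7652983014 .nil) (.node 4 8 (.cons 0x5672984103 (.cons 0x9843017256 (.cons 0x5671092483 .nil))) (.leaf 0x7652984301 1 .done) (.leaf 0x1098342567 2 .done)) .done))) .done)) .done)) (.node 2 8 (.cons 0x9032876541 (.cons 0x9032871456 .nil)) (.node 1 9 (.cons 0x4567198230 .nil) (.leaf 0x3019827654 0 (.leaf 0x7654190328 3 (.leaf 0x6782309145 2 .done)))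 (.node 2 4 (.cons 0x6542309871 .nil) (.node 1 8 (.cons 0x9810342765 (.cons 0x9032418765 .nil)) (.node 2 6 (.cons 0x9826710345 (.cons 0x7189032654 .nil)) (.leaf 0x3098172654 0 .done) .done) (.node 2 9 (.cons 0x6542987103 (.cons 0x8924567103 .nil)) (.node 3 8 (.cons 0x7654389012 (.cons 0x7654389210 (.cons 0x9241038765 .nil))) (.leaf 0x5410923876 2 .done) .done) .done)) .done)) .done)) .done))) (.node 5 8 (.cons 0x6589043271 .nil) (.leaf 0x9856712340 3 (.leaf 0x6712340985 2 (.node 3 8 (.cons 0x7654389012 .nil) (.node 5 9 (.cons 0x4389567210 (.cons 0x6598340172 .nil)) (.leaf 0x7659834012 2 (.node 2 9 (.cons 0x7654389210 .nil) (.node 1 6 (.cons 0x3298716540 (.cons 0x9238716540 (.cons 0x8340716592 .nil))) (.leaf 0x5409238716 2 .done) (.node 0 2 (.cons 0x6598340271 (.cons 0x9832045671 .nil)) (.node 1 4 (.cons 0x9856720143 .nil) (.leaf 0x7658901432 1 (.node 0 6 (.cons 0x6071438592 (.cons 0x3895604172 .nil)) .done (.leaf 0x8902341765 0 .done))) .done) (.leaf 0x5670129834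 0 .done))) .done)) (.node 1 8 (.cons 0x5671890432 .nil) (.node 1 6 (.cons 0x9045617832 (.cons 0x7165409832 .nil)) (.node 0 6 (.cons 0x7123890654 .nil) (.node 1 4 (.cons 0x9065412387 (.cons 0x7890654123 (.cons 0x5890672341 .nil))) .done .done) .done) (.node 2 6 (.cons 0x9076234581 (.cons 0x9834017265 (.cons 0x9045623871 (.cons 0x5409817623 .nil)))) .done .done)) (.leaf 0x1098345672 1 (.node 2 5 (.cons 0x7652109834 (.cons 0x9834017652 (.cons 0x4098325671 .nil))) (.node 1 4 (.cons 0x9041783256 .nil) (.leaf 0x7652389041 2 (.leaf 0x7658901432 1 (.leaf 0x983256714 3 .done))) (.node 6 8 (.cons 0x9865271043 (.cons 0x3409865271 .nil)) (.node 3 7 (.cons 0x9865273401 (.cons 0x5437689012 (.cons 0x4372568901 .nil))) .done .done) .done)) .done)))) (.node 0 3 (.cons 0x4567890321 (.cons 0x4309856712 .nil)) (.node 0 6 (.cons 0x9871230654 .nil) (.node 0 2 (.cons 0x6712098543 .nil) (.node 0 5 (.cons 0x8905432176 .nil) .done .done) (.leaf 0x1760985432 0 (.node 0 2 (.cons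 0x6712098543 .nil) (.node 0 5 (.cons 0x8905432176 .nil) .done .done) .done))) (.node 2 8 (.cons 0x9034582176 .nil) (.node 1 3 (.cons 0x9045678231 (.cons 0x6540987132 (.cons 0x9076582134 .nil))) (.node 3 9 (.cons 0x4390765821 .nil) (.leaf 0x1045672893 2 (.leaf 0x139827654 0 (.leaf 0x8276540139 3 .done))) .done) (.leaf 0x1765430982 2 (.leaf 0x9821765430 3 (.node 1 8 (.cons 0x5671890432 .nil) (.node 5 9 (.cons 0x1895672340 (.cons 0x6598172340 (.cons 0x6718954032 .nil))) (.leaf 0x7659810432 0 .done) (.node 0 6 (.cons 0x9854306712 .nil) (.node 5 7 (.cons 0x9821067543 (.cons 0x4327560981 .nil)) .done (.leaf 0x1760985432 0 (.leaf 0x9817234560 1 .done))) .done)) .done)))) .done)) .done)))) .done)))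
noncomputable def uc9_4_8 : T := (.node 0 4 (.cons 0x6540987123 .nil) tc9_4_33 (.node 1 4 (.cons 0x3214567890 .nil) tc9_4_32 (.node 1 8 (.cons 0x7654321890 .nil) tc9_4_31 .done)))
theorem sub_c9_4_8 : root 9 refs9_4 [] 0x700000008703000000003060004070060500000000504000000004030000000030100004000102000000002018070000010 0xfe7fff77ff27ff9fffcfffe7fff5ffe9fff9fe7d 9 1 7 .nil uc9_4_8 = true := by decide +kernel
noncomputable def tc9_4_34 : T := (.node 1 8 (.cons 0x7654321890 .nil) (.node 1 6 (.cons 0x5409876123 .nil) (.node 1 5 (.cons 0x6789045123 .nil) (.node 3 5 (.cons 0x6789045321 .nil) (.leaf 0x2167890453 3 (.node 1 3 .nil (.node 2 5 (.cons 0x6789045231 .nil) (.leaf 0x4098761325 2 (.leaf 0x3167890452 3 (.leaf 0x452316789 0 .done))) (.node 1 9 .nil (.node 0 8 (.cons 0x8091672345 .nil) (.node 4 8 (.cons 0x9084516723 (.cons 0x9084356712 .nil)) .done (.node 4 8 (.cons 0x5671234890 (.cons 0x6723519084 (.cons 0x7653480912 .nil))) .done .done)) .done) .done))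 (.leaf 0x453216789 0 (.leaf 0x4098761235 2 .done)))) .done) (.node 1 5 (.cons 0x6789045123 .nil) (.node 4 8 (.cons 0x5671234890 .nil) (.node 0 8 (.cons 0x9084516723 .nil) (.node 0 3 (.cons 0x9876541230 .nil) (.node 0 5 (.cons 0x2348905671 .nil) (.leaf 0x7650984321 0 (.node 6 9 (.cons 0x7896541230 .nil) (.leaf 0x2305416987 1 (.leaf 0x2305416987 0 (.leaf 0x4327698051 3 .done))) .done)) (.leaf 0x2761548903 1 .done)) .done) (.node 4 7 .nil (.node 0 3 (.cons 0x9876541230 (.cons 0x6547890321 (.cons 0x7456189032 .nil))) (.node 2 8 (.cons 0x9034821567 (.cons 0x9821034765 .nil)) (.leaf 0x4765128903 1 .done) .done) (.node 3 7 (.cons 0x2374561890 .nil) (.node 0 2 (.cons 0x9816547320 .nil) (.leaf 0x4561890237 1 (.node 0 6 (.cons 0x5609817432 .nil) (.node 0 8 .nil (.node 2 9 (.cons 0x7345601892 (.cons 0x1654732980 .nil)) (.leaf 0x4561809237 0 .done) .done) .done) (.leaf 0x4561890237 0 .done))) .done) .done)) .done)) .done) .done)) (.node 1 6 (.cons 0x5409876123 .nil)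 (.node 3 5 (.cons 0x6789045321 .nil) (.leaf 0x2167890453 3 (.node 1 3 .nil (.node 2 5 (.cons 0x6789045231 .nil) (.leaf 0x4098761325 2 (.leaf 0x3167890452 3 (.leaf 0x452316789 0 (.node 1 5 (.cons 0x6789045123 .nil) (.node 0 5 (.cons 0x8905671234 .nil) (.node 2 4 (.cons 0x9054231876 (.cons 0x6509871324 .nil)) (.leaf 0x5098761324 2 .done) .done) .done) .done)))) (.node 1 5 (.cons 0x6789045123 .nil) (.node 1 9 .nil (.node 2 6 (.cons 0x4532678190 .nil) (.leaf 0x5326781904 0 (.node 0 3 (.cons 0x9876541230 (.cons 0x5403267891 .nil)) (.leaf 0x2678915403 2 .done) (.leaf 0x7819045326 3 (.leaf 0x3540918762 2 .done)))) .done) .done) .done)) (.leaf 0x453216789 0 (.leaf 0x4098761235 2 .done)))) (.node 0 6 (.cons 0x7609812345 .nil) (.node 5 7 (.cons 0x6754321890 .nil) (.node 1 9 (.cons 0x8912340675 .nil) (.node 1 5 (.cons 0x6789045123 .nil) (.node 1 3 .nil (.node 6 8 (.cons 0x4568709123 (.cons 0x4568709132 (.cons 0x5431276890 .nil))) (.leaf 0x1234568709 0 .done) .done)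 .done) .done) (.leaf 0x9812345760 0 (.leaf 0x9812345760 1 .done))) (.node 1 9 .nil (.node 0 5 (.cons 0x8905671234 (.cons 0x6054198723 (.cons 0x8914506723 .nil))) .done (.node 1 5 (.cons 0x8906723451 .nil) (.node 1 3 .nil (.node 2 4 (.cons 0x9067815423 (.cons 0x9067813245 (.cons 0x7890654231 .nil))) .done .done) .done) .done)) .done)) .done)) .done)) (.node 1 6 (.cons 0x5409876123 .nil) (.node 1 5 (.cons 0x6789045123 .nil) (.node 1 8 (.cons 0x7654321890 .nil) (.node 1 3 .nil (.node 6 8 (.cons 0x9076812345 (.cons 0x5431098672 (.cons 0x5431276890 .nil))) (.node 3 6 (.cons 0x5409876321 .nil) (.leaf 0x451236789 0 (.node 2 4 (.cons 0x4236517890 (.cons 0x7890136542 .nil)) (.leaf 0x3109872456 0 .done) .done)) .done) .done) .done) (.node 0 5 (.cons 0x8905671234 .nil) (.node 0 8 (.cons 0x9087654123 .nil) (.node 0 3 (.cons 0x4567890321 .nil) (.node 3 7 (.cons 0x8904512376 .nil) (.node 3 5 (.cons 0x9876123540 .nil) (.node 3 6 (.cons 0x5409876321 .nil) (.node 4 7 (.cons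 0x4789056321 .nil) (.node 2 5 (.cons 0x8904763251 .nil) (.node 2 8 (.cons 0x9823471650 .nil) (.leaf 0x7432890561 1 .done) .done) (.leaf 0x6509874123 1 .done)) .done) .done) .done) .done) (.node 4 9 (.cons 0x3276154980 .nil) (.leaf 0x3498056172 3 (.node 0 3 (.cons 0x8945167230 .nil) (.node 0 2 (.cons 0x4987165023 .nil) (.node 0 6 (.cons 0x3278945061 .nil) .done .done) .done) (.leaf 0x8056172349 2 .done))) .done)) (.node 1 8 (.cons 0x9816723450 .nil) (.node 0 8 (.cons 0x9805432761 .nil) (.node 2 8 (.cons 0x4328905671 .nil) (.node 0 6 (.cons 0x9816054327 .nil) (.node 6 9 (.cons 0x5043289671 .nil) (.leaf 0x8234051769 2 (.leaf 0x2896715043 0 (.leaf 0x7150432896 3 .done))) .done) .done) .done) (.leaf 0x5432761890 1 .done)) .done)) .done)) (.node 1 5 (.cons 0x6789045123 .nil) (.node 3 6 (.cons 0x9876321540 .nil) (.node 0 6 (.cons 0x9876045123 .nil) (.node 3 7 .nil (.node 0 8 (.cons 0x9087654123 (.cons 0x9087321456 (.cons 0x9804516732 .nil))) .done (.node 5 7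 (.cons 0x8904576123 .nil) (.node 7 9 (.cons 0x8976043215 .nil) .done .done) .done)) (.node 0 8 (.cons 0x9806723451 .nil) (.node 7 9 (.cons 0x6089723451 .nil) (.leaf 0x2798061543 3 (.leaf 0x8061543279 2 .done)) (.node 0 3 (.cons 0x4567890321 .nil) (.node 4 6 (.cons 0x9872306451 .nil) (.node 3 5 (.cons 0x6789045321 .nil) (.leaf 0x4612789035 3 (.leaf 0x9035461278 0 .done)) .done) .done) .done)) .done)) (.leaf 0x2367890451 3 (.leaf 0x8763215409 0 (.leaf 0x7890451236 2 .done)))) (.node 0 5 (.cons 0x8905671234 .nil) (.node 1 8 (.cons 0x7654321890 .nil) (.node 5 8 (.cons 0x4321765890 .nil) (.node 0 2 (.cons 0x4320985671 .nil) (.node 6 9 (.cons 0x4178569023 .nil) (.leaf 0x2096587143 0 (.leaf 0x234178569 2 (.leaf 0x5690234178 3 .done))) (.node 0 3 (.cons 0x4567890321 .nil) (.node 0 8 (.cons 0x9085671432 .nil) .done (.leaf 0x2761458903 1 .done)) .done)) (.node 4 8 (.cons 0x5671234890 .nil) (.node 1 3 (.cons 0x6721345890 .nil) (.node 1 9 (.cons 0x6548709123 .nil)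 .done .done) (.leaf 0x7650984321 0 .done)) .done)) (.node 1 9 .nil (.node 0 6 (.cons 0x7609812345 .nil) (.node 5 7 (.cons 0x6754321890 (.cons 0x8912340675 .nil)) (.leaf 0x9812345760 0 (.leaf 0x9812345760 1 .done)) (.node 1 3 (.cons 0x5406789132 .nil) .done .done)) .done) .done)) (.node 0 6 .nil (.node 4 8 (.cons 0x5671234890 (.cons 0x9843271506 (.cons 0x7123489065 (.cons 0x7156098432 .nil)))) (.leaf 0x9065172348 2 .done) (.node 0 3 (.cons 0x4567890321 .nil) (.node 0 8 (.cons 0x9087654123 .nil) .done .done) .done)) .done)) .done)) .done)) (.node 0 3 (.cons 0x4567890321 .nil) (.node 3 7 (.cons 0x6541237890 .nil) (.node 0 6 (.cons 0x9873214560 .nil) (.leaf 0x1237890654 2 (.node 0 5 (.cons 0x8905671234 .nil) (.node 0 8 (.cons 0x9806541237 .nil) (.node 0 2 .nil (.node 4 8 (.cons 0x5671234890 (.cons 0x9843205671 (.cons 0x9841732065 (.cons 0x5671209843 .nil)))) .done .done) .done) .done) (.node 0 5 (.cons 0x8905671234 .nil) (.node 0 2 (.cons 0x9873206541 .nil)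 (.node 0 8 .nil (.node 1 9 (.cons 0x2378914560 (.cons 0x6732198054 (.cons 0x4567321980 .nil))) .done .done) .done) .done) .done))) (.node 0 6 (.cons 0x2378906541 .nil) (.node 3 5 (.cons 0x6789045321 .nil) (.node 5 7 (.cons 0x9875321406 .nil) (.node 2 8 (.cons 0x2890657341 .nil) (.leaf 0x6573412890 2 (.node 7 9 (.cons 0x6043579821 .nil) .done (.leaf 0x5734128906 3 .done))) .done) (.node 4 7 (.cons 0x6547890321 .nil) (.leaf 0x1235609874 0 (.node 7 9 (.cons 0x8790653214 .nil) .done .done)) .done)) (.leaf 0x4560987321 2 (.node 0 5 (.cons 0x8905671234 .nil) (.node 0 2 .nil (.node 4 8 (.cons 0x5671234890 (.cons 0x9841732056 (.cons 0x5671209843 .nil))) (.leaf 0x7650984321 0 .done) (.node 0 8 .nil (.node 1 5 (.cons 0x8906723451 (.cons 0x9806723451 .nil)) (.node 2 5 (.cons 0x4178906523 (.cons 0x9806523417 .nil)) (.leaf 0x6098714325 1 .done) .done) .done) .done)) .done) .done))) .done)) (.leaf 0x8903214567 0 (.leaf 0x9876541230 2 .done))) .done)))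
noncomputable def tc9_4_35 : T := (.node 3 7 (.cons 0x6540987321 .nil) (.node 5 7 (.cons 0x8904321756 .nil) (.node 0 5 (.cons 0x8905671234 .nil) (.node 0 2 .nil (.node 1 8 (.cons 0x7654321890 (.cons 0x6571890234 (.cons 0x6754320981 .nil))) (.leaf 0x2345671890 2 .done) (.node 0 6 .nil (.node 5 8 (.cons 0x4321765890 (.cons 0x9856043217 (.cons 0x9854372106 (.cons 0x3458906721 .nil)))) .done (.node 0 3 (.cons 0x4567890321 .nil) (.node 0 8 .nil (.node 1 4 (.cons 0x3214567890 (.cons 0x9087654123 (.cons 0x9805412376 .nil))) (.node 2 9 (.cons 0x5604178923 (.cons 0x6571432980 (.cons 0x6571408923 .nil))) .done .done) .done) .done) .done)) .done)) .done) (.node 1 6 (.cons 0x9873216540 .nil) (.node 7 9 .nil (.node 0 8 (.cons 0x5432167980 (.cons 0x3408975612 (.cons 0x5617980432 .nil))) (.leaf 0x4561237980 2 .done) (.node 4 7 .nil (.node 0 5 (.cons 0x8971650432 .nil) (.node 1 8 (.cons 0x7654321890 (.cons 0x6745098123 .nil)) (.node 0 2 (.cons 0x7981654320 (.cons 0x5618974320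 .nil)) .done .done) (.node 1 8 (.cons 0x9816723450 (.cons 0x6509817432 .nil)) (.leaf 0x5432761890 1 .done) .done)) .done) .done)) (.node 7 9 (.cons 0x8790456123 .nil) (.node 4 7 .nil (.node 3 9 (.cons 0x8745612390 (.cons 0x8740932165 .nil)) (.node 2 4 (.cons 0x3987654210 (.cons 0x8765421093 .nil)) .done (.node 1 3 (.cons 0x8790456132 .nil) (.node 0 2 (.cons 0x8790231654 (.cons 0x8902134756 .nil)) (.node 3 6 (.cons 0x7890456321 (.cons 0x8902136574 .nil)) (.leaf 0x5478902136 2 .done) .done) .done) .done)) .done) .done) (.leaf 0x4561237890 0 .done))) .done)) (.node 5 7 (.cons 0x8904321756 .nil) (.node 0 3 (.cons 0x4567890321 .nil) (.node 7 9 .nil (.node 2 8 (.cons 0x9821034576 (.cons 0x3456798210 (.cons 0x6579821043 .nil))) (.leaf 0x1289765430 3 .done) (.node 4 7 .nil (.node 0 5 (.cons 0x8905671234 .nil) (.node 3 8 (.cons 0x7654389012 (.cons 0x9832174056 (.cons 0x6509832174 (.cons 0x4765098321 .nil)))) .done (.node 0 8 (.cons 0x9804321756 .nil) (.node 2 8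 (.cons 0x4328905671 (.cons 0x6509823471 .nil)) (.node 1 9 (.cons 0x4328917650 (.cons 0x6574321980 (.cons 0x6745032891 .nil))) (.leaf 0x7432891056 0 .done) .done) .done) .done)) .done) .done)) (.node 3 6 (.cons 0x7890456321 .nil) (.node 7 9 .nil (.node 1 6 (.cons 0x2378904561 (.cons 0x8790456123 (.cons 0x8975612304 .nil))) .done (.node 4 7 .nil (.node 0 2 (.cons 0x8971204365 .nil) (.node 5 9 (.cons 0x8954367210 (.cons 0x4789563012 (.cons 0x8956321740 (.cons 0x8956320471 .nil)))) .done .done) .done) .done)) (.node 3 5 (.cons 0x6532178904 .nil) (.node 5 8 (.cons 0x4321765890 .nil) (.node 0 2 (.cons 0x4320985671 .nil) (.node 0 5 (.cons 0x8905671234 .nil) .done .done) (.leaf 0x2763458901 0 .done)) .done) .done)) .done)) (.node 7 9 .nil (.node 3 6 (.cons 0x7890456321 (.cons 0x8790456321 .nil)) (.node 2 8 (.cons 0x9821756340 (.cons 0x3456798210 (.cons 0x1289756340 .nil))) (.leaf 0x5637982104 0 .done) (.node 0 3 (.cons 0x4567890321 .nil) (.node 2 8 (.cons 0x6754309821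 (.cons 0x3456798210 .nil)) (.leaf 0x1289765430 3 (.node 1 3 (.cons 0x4098756312 (.cons 0x6579821340 (.cons 0x8213409756 .nil))) (.node 3 5 (.cons 0x6532178904 (.cons 0x4356798210 (.cons 0x8210976534 .nil))) .done .done) .done)) .done) .done)) .done) .done)) .done)) (.node 1 4 (.cons 0x3214567890 .nil) tc9_4_34 (.node 0 5 (.cons 0x8905671234 .nil) (.node 5 8 (.cons 0x4321765890 .nil) (.leaf 0x6712340985 2 (.node 1 6 (.cons 0x1672345890 .nil) (.node 1 8 (.cons 0x7654321890 .nil) (.node 1 4 (.cons 0x2341765890 .nil) (.node 4 6 (.cons 0x9071856432 .nil) (.node 6 8 (.cons 0x9861723405 .nil) (.node 0 6 (.cons 0x9850617234 .nil) (.node 1 3 (.cons 0x4589067231 .nil) (.leaf 0x6098541327 2 .done) .done) .done) .done) (.node 0 2 (.cons 0x4320985671 .nil) (.leaf 0x8902341765 0 (.leaf 0x9856714320 2 .done)) .done)) (.node 2 9 (.cons 0x3458927610 .nil) (.node 0 3 (.cons 0x4567890321 .nil) (.leaf 0x2987165403 1 (.node 0 2 (.cons 0x4320985671 .nil) (.node 0 6 (.cons 0x9850617234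 .nil) .done .done) .done)) (.leaf 0x8543290761 3 (.leaf 0x5816709234 2 .done))) .done)) (.leaf 0x5432761098 0 (.node 3 5 (.cons 0x8904532761 .nil) (.node 1 5 (.cons 0x8904516723 .nil) (.node 2 5 (.cons 0x8904325671 .nil) (.node 0 2 (.cons 0x4320985671 .nil) (.node 0 3 (.cons 0x4567890321 .nil) (.node 0 8 (.cons 0x9804532761 .nil) .done .done) .done) .done) .done) (.node 1 5 (.cons 0x8904516723 .nil) (.node 2 5 (.cons 0x8904325671 .nil) (.node 1 8 (.cons 0x7654321890 .nil) (.node 0 2 (.cons 0x4320985671 .nil) (.node 0 3 (.cons 0x4567890321 .nil) (.node 0 6 (.cons 0x9876032154 .nil) .done .done) .done) (.leaf 0x981765234 2 .done)) .done) .done) .done)) .done))) (.node 3 6 (.cons 0x1276345890 .nil) (.node 0 6 (.cons 0x3458906721 .nil) (.node 0 3 (.cons 0x4567890321 .nil) (.node 0 8 (.cons 0x9801276345 .nil) .done .done) (.node 1 6 (.cons 0x9850436172 .nil) (.node 2 6 (.cons 0x9850436271 .nil) (.node 0 2 .nil (.node 1 9 (.cons 0x7263405891 (.cons 0x7198563402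 (.cons 0x7634589120 (.cons 0x3672045891 .nil)))) .done .done) .done) .done) .done)) (.leaf 0x2763458901 0 (.leaf 0x7210985436 2 (.leaf 0x4589012763 3 .done)))) .done))) (.node 0 6 .nil (.node 1 8 (.cons 0x7654321890 (.cons 0x7609812345 .nil)) (.node 5 9 (.cons 0x7189560432 (.cons 0x1895432760 (.cons 0x3459812760 .nil))) (.node 0 8 (.cons 0x9543218076 (.cons 0x9567081234 .nil)) (.node 1 6 (.cons 0x3276189540 .nil) (.leaf 0x3408956172 1 .done) .done) .done) (.node 5 7 (.cons 0x6571890432 (.cons 0x9817560432 (.cons 0x6098127543 .nil))) (.node 5 8 (.cons 0x4321765890 (.cons 0x3458906721 .nil)) (.leaf 0x6712340985 2 .done) .done) .done)) (.node 0 3 (.cons 0x4567890321 .nil) (.node 0 2 .nil (.node 5 8 (.cons 0x4321765890 (.cons 0x4320985671 .nil)) (.leaf 0x6712340985 2 (.node 1 6 (.cons 0x7165890432 .nil) (.leaf 0x3409856172 0 (.leaf 0x3409856172 1 (.node 4 7 (.cons 0x6547890321 (.cons 0x9856174023 (.cons 0x6589021743 .nil))) .done .done))) (.node 3 6 (.cons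 0x1276345890 .nil) (.node 4 9 (.cons 0x7894563012 (.cons 0x5632049871 (.cons 0x5894367120 (.cons 0x7894563021 .nil)))) .done (.leaf 0x2763458901 0 (.leaf 0x4589012763 3 .done))) .done))) .done) (.node 0 8 .nil (.node 3 6 (.cons 0x8901276345 (.cons 0x9801276345 .nil)) (.node 4 6 (.cons 0x5467890321 .nil) (.node 1 9 (.cons 0x5467891230 (.cons 0x7809123654 (.cons 0x7645089123 .nil))) (.leaf 0x6543219807 2 .done) (.node 1 3 (.cons 0x5467890312 (.cons 0x9805467213 (.cons 0x9087213645 .nil))) .done .done)) (.node 5 8 (.cons 0x4321765890 .nil) (.leaf 0x6712340985 2 (.leaf 0x985436721 0 (.node 5 9 (.cons 0x4321765980 .nil) (.leaf 0x6712340895 2 (.leaf 0x895436721 0 (.leaf 0x4598012763 3 .done))) (.leaf 0x4589012763 3 .done)))) .done)) (.node 0 2 .nil (.node 1 8 (.cons 0x7654321890 .nil) (.leaf 0x2345671890 2 (.node 5 7 (.cons 0x6754321890 (.cons 0x6754320981 .nil)) (.node 4 9 (.cons 0x6571234980 (.cons 0x6571208943 .nil)) (.leaf 0x3217560894 2 (.leaf 0x2349806571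 0 .done)) (.leaf 0x9812345760 1 .done)) .done)) .done) .done)) .done)) .done)) .done)) .done)))
noncomputable def tc9_4_36 : T := (.node 1 4 (.cons 0x3214567890 .nil) (.node 1 5 .nil (.node 0 4 (.cons 0x6789045123 .nil) (.node 3 6 (.cons 0x9078123654 (.cons 0x9045632187 (.cons 0x8901543672 .nil))) (.node 0 8 (.cons 0x9804321765 (.cons 0x9801543672 .nil)) (.node 2 9 (.cons 0x7892104563 .nil) (.node 0 6 (.cons 0x7189234560 .nil) (.leaf 0x3298170654 2 (.leaf 0x2981706543 3 .done)) (.leaf 0x6345129807 2 (.leaf 0x1543672980 0 .done))) .done) (.node 5 7 (.cons 0x9041875632 (.cons 0x7563409812 .nil)) .done .done)) (.node 3 7 (.cons 0x6540987321 (.cons 0x6512378904 .nil)) (.node 0 3 (.cons 0x4567890321 (.cons 0x6789032154 .nil)) (.node 0 2 (.cons 0x9023781456 .nil) (.node 0 6 (.cons 0x9065418732 (.cons 0x8906723451 .nil)) .done .done) .done) .done) (.leaf 0x5678904321 0 .done))) (.node 1 6 .nil (.node 0 4 (.cons 0x7890456123 (.cons 0x5409876123 (.cons 0x8904516723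 .nil))) (.node 3 8 (.cons 0x7654389012 (.cons 0x7651238904 (.cons 0x4516723890 .nil))) (.leaf 0x2761540983 2 (.node 5 9 (.cons 0x6783214590 (.cons 0x6123870954 (.cons 0x2387614590 (.cons 0x8345907612 .nil)))) .done .done)) .done) (.node 1 3 .nil (.node 6 8 (.cons 0x4513276890 (.cons 0x5431276890 .nil)) (.node 1 9 (.cons 0x8670912345 .nil) .done (.node 5 8 (.cons 0x6721098543 (.cons 0x6721345890 .nil)) (.node 0 5 (.cons 0x9867210543 .nil) (.node 0 6 (.cons 0x9850617234 (.cons 0x4589067231 (.cons 0x8906723154 .nil))) .done .done) .done) .done)) (.node 1 9 .nil (.node 6 8 (.cons 0x7091865432 .nil) (.node 0 3 (.cons 0x4567890321 (.cons 0x9032145687 (.cons 0x8765419032 .nil))) (.node 5 9 (.cons 0x7865903214 (.cons 0x8672309514 (.cons 0x8670954312 .nil))) .done .done) (.leaf 0x1234568709 0 (.node 0 5 (.cons 0x3450986721 .nil) (.node 3 6 (.cons 0x9054127863 (.cons 0x7219863450 (.cons 0x4509127863 (.cons 0x2719863450 .nil)))) .done (.node 2 8 (.cons 0x9076821345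 (.cons 0x9134507682 (.cons 0x4328917650 .nil))) .done .done)) .done))) .done) .done)) .done)) .done)) (.node 5 8 (.cons 0x6721098543 .nil) (.node 2 8 .nil (.node 6 9 (.cons 0x3458967210 (.cons 0x9654328170 .nil)) (.node 3 9 (.cons 0x7012856934 (.cons 0x5821076934 (.cons 0x2893456710 .nil))) (.node 0 4 (.cons 0x5896721043 (.cons 0x4078569321 .nil)) (.leaf 0x3965812704 0 .done) .done) (.leaf 0x8234569071 2 (.node 0 3 (.cons 0x1276985430 (.cons 0x7128965430 (.cons 0x9670345821 (.cons 0x9670341285 (.cons 0x9654307182 .nil))))) .done .done))) (.node 3 8 (.cons 0x7654389012 .nil) (.node 5 7 (.cons 0x6754389012 .nil) (.node 2 6 (.cons 0x2675438901 .nil) (.leaf 0x4389012675 1 (.leaf 0x4389012675 0 (.node 3 7 (.cons 0x6237541890 .nil) (.node 4 7 (.cons 0x5476210983 .nil) (.node 0 3 (.cons 0x4567890321 .nil) (.leaf 0x6218903745 2 (.node 0 8 (.cons 0x9803267145 .nil) .done .done)) .done) .done) .done))) (.node 4 7 .nil (.node 0 3 (.cons 0x4567890321 (.cons 0x6547890321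 (.cons 0x9856743012 .nil))) (.node 0 6 (.cons 0x5760982143 (.cons 0x3475609812 (.cons 0x5476098321 .nil))) .done .done) (.node 0 4 .nil (.node 1 5 (.cons 0x1567432890 (.cons 0x9043821576 (.cons 0x3289047651 .nil))) .done (.node 3 7 (.cons 0x6540987321 .nil) (.node 7 9 (.cons 0x6589734012 .nil) .done .done) .done)) .done)) .done)) (.node 0 2 (.cons 0x9834567102 .nil) (.node 2 9 (.cons 0x2983456710 .nil) (.leaf 0x5438920176 3 .done) (.node 2 9 (.cons 0x2983456710 .nil) (.node 2 5 (.cons 0x6725438901 .nil) (.node 2 6 (.cons 0x9014526783 .nil) (.node 2 4 .nil (.node 1 9 (.cons 0x4567198320 (.cons 0x9107658342 (.cons 0x8324567091 .nil))) .done .done) .done) .done) .done) .done)) .done)) .done)) (.node 1 6 (.cons 0x1672345890 .nil) (.leaf 0x5432761098 0 (.node 5 7 (.cons 0x2341675890 .nil) (.node 0 6 (.cons 0x6098127543 .nil) (.node 1 3 (.cons 0x4589067231 .nil) (.leaf 0x6098541327 0 .done) (.node 1 3 (.cons 0x6098134572 .nil) (.node 2 9 (.cons 0x7189234560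 .nil) (.leaf 0x4132906785 1 (.leaf 0x6543298170 3 (.leaf 0x5607189234 2 .done))) .done) .done)) .done) (.node 5 7 .nil (.node 0 3 (.cons 0x4567890321 (.cons 0x8903216754 (.cons 0x4167589032 (.cons 0x6189032754 .nil)))) (.leaf 0x9854167230 1 .done) (.node 3 7 (.cons 0x2376145890 .nil) (.node 0 6 (.cons 0x4375609812 .nil) (.node 1 5 (.cons 0x4327609851 .nil) (.leaf 0x672341589 2 .done) (.node 1 3 (.cons 0x6098134572 .nil) (.node 1 5 (.cons 0x8906723451 .nil) .done .done) .done)) (.node 4 7 (.cons 0x2374561890 .nil) .done .done)) .done)) .done))) (.node 3 6 (.cons 0x1276345890 .nil) (.node 5 7 .nil (.node 0 6 (.cons 0x3458906721 (.cons 0x7560981234 (.cons 0x8906754123 (.cons 0x9810634572 .nil)))) .done (.node 3 7 .nil (.node 0 2 (.cons 0x9810275436 (.cons 0x4376589021 .nil)) (.node 0 5 (.cons 0x9876321450 (.cons 0x8905412376 .nil)) .done (.leaf 0x9856734120 0 .done)) (.node 1 3 (.cons 0x6721345890 .nil) (.node 1 5 .nil (.node 0 4 (.cons 0x6512378904 .nil)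 (.leaf 0x7215890436 0 (.leaf 0x5678904321 0 .done)) (.node 0 5 (.cons 0x9876321450 .nil) (.node 5 9 (.cons 0x8954367210 .nil) .done .done) .done)) .done) .done)) .done)) (.leaf 0x2763458901 0 (.leaf 0x7210985436 2 (.leaf 0x4589012763 3 .done)))) .done))) .done)) (.node 1 4 (.cons 0x3214567890 .nil) (.node 5 7 (.cons 0x6754321890 .nil) (.node 0 6 (.cons 0x2345760981 .nil) (.leaf 0x9812345760 0 (.node 1 6 (.cons 0x2345761890 .nil) (.node 1 3 (.cons 0x4576098132 .nil) (.node 4 6 (.cons 0x8906457231 .nil) (.node 2 4 (.cons 0x4231657890 .nil) (.node 3 6 (.cons 0x9817542360 .nil) (.leaf 0x2457189063 1 (.node 0 2 (.cons 0x6754320981 .nil) (.node 5 9 (.cons 0x2789546310 .nil) (.leaf 0x3607189542 2 (.leaf 0x3678145902 0 (.leaf 0x6324598170 3 .done))) .done) .done)) .done) (.leaf 0x981327546 2 (.leaf 0x9064572318 0 .done))) .done) .done) (.node 3 7 .nil (.node 2 9 (.cons 0x5432981760 (.cons 0x8732906541 .nil)) (.leaf 0x7329065418 0 (.leaf 0x923781456 3 .done)) (.node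 1 3 .nil (.node 1 5 (.cons 0x6098723154 (.cons 0x8906723154 .nil)) .done (.node 2 4 (.cons 0x9871324560 .nil) (.node 0 3 (.cons 0x4567890321 .nil) (.node 3 9 (.cons 0x3987654210 .nil) (.leaf 0x8724560139 3 .done) .done) (.leaf 0x5609871324 2 .done)) .done)) .done)) .done))) (.node 0 6 (.cons 0x3457609812 .nil) (.leaf 0x9812345760 1 (.node 4 7 (.cons 0x5476098123 .nil) (.node 1 6 .nil (.node 0 4 (.cons 0x7890456123 (.cons 0x5409876123 .nil)) (.node 3 9 (.cons 0x8765412390 (.cons 0x8709321654 (.cons 0x8932176045 (.cons 0x5406718932 .nil)))) (.leaf 0x2390456781 3 .done) .done) (.node 1 3 (.cons 0x5476098132 .nil) (.node 3 7 .nil (.node 2 4 (.cons 0x5613247890 (.cons 0x6098124573 .nil)) (.leaf 0x3124560987 0 .done) (.node 7 9 .nil (.node 2 6 (.cons 0x3457621890 (.cons 0x5479813260 (.cons 0x8132609745 .nil))) .done .done) .done)) .done) .done)) .done) (.node 0 5 (.cons 0x9817605432 .nil) (.node 0 8 (.cons 0x9087654123 .nil) (.node 0 3 (.cons 0x4567890321 .nil)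 (.node 0 4 (.cons 0x9804321765 .nil) .done .done) .done) (.node 1 5 (.cons 0x8906723451 .nil) (.node 1 3 (.cons 0x6098723154 .nil) (.node 3 7 (.cons 0x6732189054 .nil) (.node 4 7 (.cons 0x4789065132 .nil) .done .done) .done) .done) .done)) .done))) .done)) (.node 3 7 (.cons 0x6541237890 .nil) (.node 5 7 (.cons 0x6754321890 .nil) (.node 1 3 .nil (.node 0 6 (.cons 0x2345760981 (.cons 0x4576098132 (.cons 0x7890654132 .nil))) (.leaf 0x9812345760 0 .done) (.node 0 6 (.cons 0x2345760981 .nil) (.leaf 0x9812345760 0 (.node 1 6 (.cons 0x2345761890 .nil) (.node 0 5 (.cons 0x6509873214 .nil) (.node 5 8 (.cons 0x6143275890 .nil) (.leaf 0x7234160985 2 (.leaf 0x9857234160 3 .done)) .done) .done) (.node 1 5 (.cons 0x8906723451 .nil) (.node 4 7 (.cons 0x8906514732 .nil) (.node 7 9 (.cons 0x8790654132 .nil) .done .done) .done) .done))) .done)) (.node 0 6 (.cons 0x8906573412 .nil) (.leaf 0x9812345760 1 (.node 4 7 (.cons 0x5476098123 .nil) (.node 7 9 .nil (.node 3 8 (.cons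 0x7654389012 (.cons 0x7983214560 (.cons 0x2389714560 .nil))) (.leaf 0x5412387906 3 .done) .done) .done) (.node 1 3 (.cons 0x7890654132 .nil) (.node 1 5 (.cons 0x8906723451 .nil) (.node 2 4 (.cons 0x5609873241 .nil) (.node 5 9 (.cons 0x8956734210 .nil) (.leaf 0x7895601423 0 (.leaf 0x8732410659 2 .done)) (.leaf 0x6098154237 0 .done)) .done) .done) .done))) .done)) (.node 5 7 (.cons 0x6754321890 .nil) (.node 0 6 (.cons 0x2378906541 .nil) (.leaf 0x9812345760 1 (.leaf 0x4560987321 2 (.node 4 7 .nil (.node 1 3 (.cons 0x7890654132 (.cons 0x5609874132 .nil)) (.node 2 9 (.cons 0x3298714560 (.cons 0x8745609231 (.cons 0x8741329065 (.cons 0x8132906745 .nil)))) .done .done) .done) .done))) .done) .done)) .done)) (.node 4 7 (.cons 0x5674321890 .nil) (.node 0 5 (.cons 0x2347650981 .nil) (.leaf 0x9812347650 2 (.leaf 0x8905674321 0 (.node 5 7 .nil (.node 0 6 (.cons 0x2347560981 .nil) (.leaf 0x9812347560 2 (.leaf 0x5743218906 3 (.leaf 0x8906574321 0 .done))) (.node 0 4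 (.cons 0x9817650432 .nil) (.node 3 7 (.cons 0x6540987321 .nil) (.node 3 6 (.cons 0x9871236540 .nil) (.leaf 0x1890436572 2 (.node 5 9 (.cons 0x2365904781 .nil) (.leaf 0x6321874095 2 (.leaf 0x3659047812 0 .done)) (.leaf 0x5409871236 2 .done))) .done) (.node 0 8 .nil (.node 5 9 (.cons 0x6718950432 .nil) (.leaf 0x812347659 2 (.leaf 0x8095674321 0 .done)) (.node 0 3 (.cons 0x4567890321 .nil) (.node 0 2 (.cons 0x5674320981 .nil) (.node 0 6 (.cons 0x9806543217 .nil) .done .done) .done) .done)) .done)) .done)) .done))) (.node 5 7 .nil (.node 4 9 (.cons 0x8123490765 (.cons 0x8123490756 .nil)) (.node 1 4 (.cons 0x3214567890 .nil) (.node 1 6 .nil (.node 3 8 (.cons 0x7654389012 (.cons 0x6109834572 (.cons 0x6754389012 .nil))) (.leaf 0x1238709456 2 .done) (.node 3 8 (.cons 0x7654389012 (.cons 0x9078321654 (.cons 0x6754389012 (.cons 0x5438901672 .nil)))) (.leaf 0x1238709456 2 .done) (.node 0 3 (.cons 0x4567890321 (.cons 0x6574309812 (.cons 0x8903216754 .nil))) (.node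 1 5 (.cons 0x8903476512 .nil) (.node 4 6 (.cons 0x3098746512 (.cons 0x6498751230 (.cons 0x6432751890 .nil))) .done .done) (.node 2 4 (.cons 0x9032418765 (.cons 0x5761894230 (.cons 0x3098165742 .nil))) .done .done)) .done))) (.node 0 6 (.cons 0x7890654123 (.cons 0x7560981432 .nil)) (.leaf 0x3418906572 2 (.node 3 7 (.cons 0x8906573214 (.cons 0x4189065732 .nil)) .done .done)) .done)) (.node 2 8 (.cons 0x5670943281 (.cons 0x6570943281 .nil)) (.node 7 9 (.cons 0x3456798210 .nil) (.node 3 9 (.cons 0x7654398210 (.cons 0x6754398210 .nil)) (.node 4 6 (.cons 0x8210793465 (.cons 0x4657812390 .nil)) (.leaf 0x7564932810 0 .done) .done) .done) .done) .done)) (.node 0 5 (.cons 0x3476509812 .nil) (.node 5 8 (.cons 0x6721098543 .nil) (.node 2 8 .nil (.node 3 6 (.cons 0x9854367210 (.cons 0x9821743650 (.cons 0x5436728901 .nil))) (.leaf 0x8127436509 0 (.node 4 9 (.cons 0x9432185670 (.cons 0x6570943281 (.cons 0x5763490182 (.cons 0x5670943281 .nil)))) .done .done)) (.node 1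 6 (.cons 0x6109827543 .nil) (.node 3 6 (.cons 0x9854367210 .nil) (.leaf 0x8127436509 0 (.leaf 0x7289016345 2 (.leaf 0x2890163457 3 .done))) (.node 3 7 (.cons 0x3745612890 .nil) (.node 7 9 .nil (.node 0 3 (.cons 0x4567890321 (.cons 0x4589761230 (.cons 0x4561798230 .nil))) .done .done) .done) .done)) .done)) (.node 3 6 (.cons 0x1276345890 .nil) (.leaf 0x8127436509 0 (.leaf 0x2763458901 0 (.leaf 0x7210985436 2 (.leaf 0x4589012763 3 .done)))) .done)) (.node 3 7 .nil (.node 1 4 (.cons 0x3214567890 (.cons 0x6541237890 (.cons 0x8905412376 .nil))) (.node 4 9 (.cons 0x8123490765 (.cons 0x8149056732 .nil)) (.node 0 6 (.cons 0x3217894560 (.cons 0x8732149065 (.cons 0x5609418732 .nil))) .done (.node 2 8 (.cons 0x6750941823 .nil) (.leaf 0x7328149056 0 (.leaf 0x1490567328 3 .done)) .done)) .done) (.node 7 9 .nil (.node 2 8 (.cons 0x3456798210 .nil) (.node 4 9 (.cons 0x6570943281 (.cons 0x5670943281 .nil)) (.node 1 4 (.cons 0x3214567890 (.cons 0x6750941823 (.cons 0x6573410982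 .nil))) .done .done) (.node 0 3 (.cons 0x4567890321 (.cons 0x6543017982 .nil)) (.node 2 4 (.cons 0x6573428901 (.cons 0x6579810342 (.cons 0x6579018243 .nil))) .done (.leaf 0x1289765430 3 .done)) .done)) .done) .done)) .done)) .done)) .done)) .done)))
noncomputable def tc9_4_37 : T := (.node 3 6 (.cons 0x8901276345 (.cons 0x5436728901 .nil)) (.node 0 4 (.cons 0x9871236540 .nil) (.node 0 5 (.cons 0x9827634501 .nil) (.node 4 6 (.cons 0x9872105463 .nil) (.node 3 9 (.cons 0x6398721054 (.cons 0x7893654012 (.cons 0x5467821093 (.cons 0x8712390564 .nil)))) (.leaf 0x5012789364 0 .done) (.leaf 0x7890546321 0 (.node 1 9 (.cons 0x7891236540 (.cons 0x9128705463 (.cons 0x7891236504 .nil))) (.node 3 7 (.cons 0x7346509821 (.cons 0x1982736450 .nil)) .done .done) .done))) (.node 3 9 (.cons 0x8936721054 (.cons 0x7893654012 (.cons 0x7639821054 .nil))) (.node 2 5 (.cons 0x4012567893 (.cons 0x7893652104 .nil)) (.leaf 0x125678934 0 .done) (.node 0 2 (.cons 0x4563987102 .nil) (.node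 1 4 (.cons 0x5678932041 (.cons 0x1456782390 (.cons 0x9365410782 .nil))) (.leaf 0x7823901456 2 .done) .done) .done)) .done)) (.node 5 9 (.cons 0x8954367210 (.cons 0x6321789540 .nil)) (.node 3 8 (.cons 0x4598367210 .nil) (.leaf 0x9540127638 2 (.node 0 2 (.cons 0x8954023671 .nil) (.leaf 0x9834567120 3 (.node 0 3 (.cons 0x4567890321 (.cons 0x4598276301 .nil)) (.node 4 6 (.cons 0x9872103645 (.cons 0x8321764590 (.cons 0x7289546301 .nil))) (.leaf 0x9546301728 2 .done) .done) (.leaf 0x7120983456 0 .done))) (.leaf 0x6389540127 3 (.leaf 0x5983672104 0 .done)))) (.node 0 2 (.cons 0x6320459871 (.cons 0x8954023671 .nil)) (.leaf 0x6345982017 0 .done) (.node 0 8 (.cons 0x5980436712 .nil) (.leaf 0x4367210895 0 (.node 0 2 (.cons 0x6345980271 (.cons 0x8954021763 .nil)) (.node 0 3 (.cons 0x4567890321 (.cons 0x6304598712 .nil)) .done .done) .done)) .done))) (.node 1 3 (.cons 0x9045678231 (.cons 0x6540987132 .nil)) (.leaf 0x4098231765 1 (.leaf 0x9045671328 0 .done)) .done)))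 (.node 4 9 (.cons 0x8712365490 (.cons 0x5490128763 .nil)) (.node 5 8 (.cons 0x6721098543 .nil) (.leaf 0x6785490123 2 (.node 0 4 (.cons 0x6540987123 (.cons 0x9045871236 .nil)) (.node 0 8 (.cons 0x5490876321 .nil) (.node 7 9 (.cons 0x7901285634 (.cons 0x6345827901 (.cons 0x4365809712 .nil))) .done .done) .done) (.node 1 3 (.cons 0x6310945872 .nil) (.leaf 0x6728549013 2 (.leaf 0x945827631 3 (.leaf 0x7631094582 0 .done))) (.leaf 0x2763458901 0 .done)))) (.node 1 3 (.cons 0x6549078231 (.cons 0x5490136782 .nil)) (.node 2 9 (.cons 0x7829456310 (.cons 0x8294310765 (.cons 0x8294567013 .nil))) .done (.node 2 4 (.cons 0x5678249013 (.cons 0x7824901365 .nil)) (.node 4 7 (.cons 0x5674312890 .nil) .done .done) .done)) (.node 3 7 (.cons 0x1287365490 .nil) (.node 1 3 (.cons 0x7821365490 (.cons 0x8213490765 .nil)) (.node 5 7 (.cons 0x6754310982 (.cons 0x6754312890 .nil)) .done .done) (.leaf 0x2873654901 2 (.leaf 0x5637821094 2 .done))) .done))) (.node 5 8 (.cons 0x6721098543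 .nil) (.node 1 5 (.cons 0x6728901543 .nil) (.leaf 0x7289015436 2 (.node 4 9 (.cons 0x5894367210 (.cons 0x9436582107 (.cons 0x9436701285 (.cons 0x4907823651 (.cons 0x4907821563 .nil))))) .done (.node 0 4 (.cons 0x6540987123 .nil) (.node 4 9 (.cons 0x9407856321 (.cons 0x7632158940 (.cons 0x3672158940 .nil))) (.leaf 0x6321589407 0 .done) (.node 5 7 (.cons 0x4098236751 (.cons 0x5763409821 .nil)) .done (.leaf 0x6712340985 2 .done))) .done))) (.node 4 7 (.cons 0x2174365890 .nil) (.node 3 7 .nil (.node 0 6 (.cons 0x6098543271 (.cons 0x9854372106 (.cons 0x9821065473 .nil))) .done (.node 0 6 (.cons 0x6098543271 .nil) (.node 5 7 (.cons 0x4360985721 .nil) .done (.node 3 9 (.cons 0x6012745893 (.cons 0x8932174560 (.cons 0x5476012893 .nil))) .done .done)) .done)) (.node 0 2 (.cons 0x6589023471 .nil) (.leaf 0x3658902174 2 (.node 0 6 (.cons 0x6098543271 .nil) (.node 1 5 (.cons 0x9851063472 (.cons 0x9015827436 (.cons 0x4723609851 .nil))) .done .done) .done)) .done)) (.node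 0 2 (.cons 0x4320985671 .nil) (.node 4 7 (.cons 0x9856347102 (.cons 0x2098563471 .nil)) (.node 1 5 (.cons 0x9820156347 (.cons 0x9015827634 (.cons 0x7436510982 (.cons 0x8902365174 .nil)))) .done .done) (.node 0 6 (.cons 0x6098543271 .nil) (.node 1 3 (.cons 0x9854310672 (.cons 0x9013458276 (.cons 0x6713209854 .nil))) (.leaf 0x985431276 0 .done) (.node 1 3 (.cons 0x9827601345 (.cons 0x9013458276 (.cons 0x4560987132 (.cons 0x6713209854 .nil)))) .done .done)) .done)) (.leaf 0x7210985436 2 .done)))) .done))) (.node 0 3 (.cons 0x4567890321 .nil) (.node 6 9 (.cons 0x7103456982 (.cons 0x7128965430 .nil)) (.node 3 9 (.cons 0x8210769345 (.cons 0x2893456710 .nil)) (.node 3 7 (.cons 0x4569873012 .nil) (.node 3 8 (.cons 0x7654389012 (.cons 0x9670128345 .nil)) .done .done) .done) (.node 3 9 (.cons 0x7654398210 (.cons 0x2893456710 .nil)) (.node 5 8 (.cons 0x6721098543 (.cons 0x8569071234 (.cons 0x9658217034 .nil))) (.leaf 0x769345821 2 .done) .done) (.leaf 0x172896543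 0 .done))) (.leaf 0x1765430982 2 (.node 3 9 (.cons 0x7654398210 (.cons 0x2893456710 .nil)) (.node 0 6 (.cons 0x7106543982 .nil) (.node 7 9 (.cons 0x3456798210 .nil) (.node 3 7 (.cons 0x9378210654 .nil) (.leaf 0x1065437982 1 (.leaf 0x6012897345 0 .done)) (.leaf 0x654397821 1 (.leaf 0x5601287934 0 .done))) (.leaf 0x9827106543 0 .done)) (.node 0 2 (.cons 0x8902345671 .nil) (.node 4 9 (.cons 0x5671034982 (.cons 0x5671289430 .nil)) (.node 1 8 (.cons 0x6549078123 (.cons 0x8123490765 .nil)) (.leaf 0x4320981765 0 .done) (.node 0 6 (.cons 0x7601289345 .nil) (.node 3 7 (.cons 0x1732894560 .nil) (.leaf 0x9456037128 3 .done) (.leaf 0x7894560321 1 .done)) .done)) (.leaf 0x8201765439 3 (.leaf 0x7102893456 0 .done))) .done)) (.node 2 4 (.cons 0x6542309871 .nil) (.node 3 7 (.cons 0x8901243765 .nil) (.node 3 6 (.cons 0x8901276345 .nil) (.node 3 8 (.cons 0x7654389012 (.cons 0x9012456387 .nil)) (.leaf 0x1245673890 1 (.leaf 0x1245673890 0 .done)) (.leaf 0x2109873654 2 .done))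 .done) (.node 3 9 (.cons 0x7654398210 (.cons 0x9301782456 .nil)) (.node 1 9 (.cons 0x8719032456 (.cons 0x4567198230 .nil)) (.node 2 5 (.cons 0x7652891034 (.cons 0x6710398254 .nil)) (.node 4 6 (.cons 0x7198256430 .nil) (.leaf 0x2564307198 0 (.leaf 0x3465289170 3 (.leaf 0x8930176452 0 .done))) .done) .done) (.node 5 8 (.cons 0x6721098543 (.cons 0x9342856710 (.cons 0x8567124390 .nil))) (.node 4 6 (.cons 0x4658709321 (.cons 0x9301785642 (.cons 0x1785642390 (.cons 0x9346582170 .nil)))) .done .done) .done)) .done)) .done)))) (.node 3 7 (.cons 0x6543710982 .nil) (.node 6 9 (.cons 0x7345698210 (.cons 0x2896543710 (.cons 0x8217096543 .nil))) (.node 5 8 (.cons 0x6721098543 (.cons 0x4328569071 .nil)) (.node 0 4 (.cons 0x5896721043 (.cons 0x6540987123 (.cons 0x5896712340 (.cons 0x9658234071 .nil)))) .done (.node 3 6 (.cons 0x1276345890 .nil) (.leaf 0x2763458901 0 (.leaf 0x4589012763 3 .done)) .done)) (.node 0 4 (.cons 0x6540987123 (.cons 0x1732896540 .nil)) (.node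 1 8 (.cons 0x7654321890 .nil) (.leaf 0x2345690718 3 (.node 3 5 (.cons 0x9045321876 (.cons 0x6982735401 .nil)) (.leaf 0x2189670453 2 (.leaf 0x1235407698 0 .done)) (.leaf 0x718234569 0 .done))) (.leaf 0x9823710456 2 .done)) .done)) (.node 0 3 (.cons 0x4567890321 .nil) (.node 2 4 (.cons 0x8901243765 .nil) (.node 4 6 (.cons 0x9873012465 (.cons 0x5643710982 (.cons 0x5643712890 .nil))) (.node 5 9 (.cons 0x8956734210 (.cons 0x6598243710 (.cons 0x8217346590 .nil))) (.leaf 0x2103789564 0 (.node 0 8 (.cons 0x4210895673 (.cons 0x8095467123 (.cons 0x4659082371 .nil))) (.leaf 0x1246598037 2 .done) .done)) .done) (.node 3 9 (.cons 0x8765421093 (.cons 0x6542871093 .nil)) (.node 3 6 (.cons 0x8763901245 (.cons 0x9017824563 .nil)) (.node 4 6 (.cons 0x9872103645 (.cons 0x5643710982 (.cons 0x5643712890 .nil))) .done (.node 4 9 (.cons 0x7821094563 (.cons 0x8712365490 (.cons 0x1782365490 .nil))) (.leaf 0x2873654901 2 .done) .done)) .done) .done)) (.leaf 0x9821765430 3 (.leaf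 0x5430982176 0 .done))) .done)) (.leaf 0x6710982345 0 .done))))
noncomputable def uc9_4_9 : T := (.node 2 8 (.cons 0x1765432890 .nil) tc9_4_37 (.node 1 8 (.cons 0x7654321890 .nil) tc9_4_36 (.node 0 4 (.cons 0x8904321765 .nil) tc9_4_35 .done)))
theorem sub_c9_4_9 : root 9 refs9_4 [] 0x700000008703000000003060005070060500000000504000000004030000000030100005000102000000002018070000010 0xfe7fff77ff17ff9fffcfffe7fff5ffd9fff9fe7d 9 1 7 .nil uc9_4_9 = true := by decide +kernel
noncomputable def tc9_4_38 : T := (.node 3 7 (.cons 0x6540987321 .nil) (.node 0 3 (.cons 0x4567890321 .nil) (.node 0 5 (.cons 0x8905671234 .nil) (.node 0 6 .nil (.node 1 8 (.cons 0x7654321890 (.cons 0x9812376054 (.cons 0x7609812345 .nil))) (.node 5 9 (.cons 0x8956721034 (.cons 0x8954372106 (.cons 0x4327189560 (.cons 0x7218956034 .nil)))) .done .done) (.node 0 8 (.cons 0x9801276543 .nil) (.node 0 2 .nil (.node 4 8 (.cons 0x5671234890 (.cons 0x5671209843 .nil)) (.node 5 9 (.cons 0x8956043271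 (.cons 0x1765984320 (.cons 0x3489567120 .nil))) (.leaf 0x8430217659 2 .done) (.leaf 0x7650984321 0 .done)) .done) .done) .done)) (.node 5 7 (.cons 0x8904321756 .nil) (.node 0 8 (.cons 0x9801276543 .nil) (.node 7 9 .nil (.node 5 8 (.cons 0x4321765890 (.cons 0x6589712340 (.cons 0x6589721034 .nil))) .done (.node 3 9 (.cons 0x8934567210 .nil) (.node 4 7 .nil (.node 0 6 (.cons 0x6089345721 .nil) (.node 1 6 (.cons 0x6127543980 (.cons 0x9874032165 (.cons 0x8745612390 .nil))) .done .done) .done) .done) .done)) .done) .done) .done)) (.node 0 5 (.cons 0x8905671234 .nil) (.node 3 9 (.cons 0x8934567210 .nil) (.node 0 6 (.cons 0x4560127893 .nil) (.leaf 0x1278934560 2 .done) (.node 3 6 (.cons 0x7890456321 .nil) (.leaf 0x127893654 0 (.node 0 6 .nil (.node 1 5 (.cons 0x7893215604 (.cons 0x6098732154 .nil)) (.node 6 9 (.cons 0x8965172304 (.cons 0x8965172340 (.cons 0x8736904512 .nil))) .done (.leaf 0x651278934 0 .done)) (.node 0 8 (.cons 0x9801276543 .nil) (.node 0 2 .nil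 (.node 1 8 (.cons 0x7654321890 .nil) (.leaf 0x2345671890 2 (.node 4 7 (.cons 0x7432189065 (.cons 0x9023654781 (.cons 0x9021874563 .nil))) .done .done)) .done) .done) .done)) .done)) .done)) .done) .done)) (.node 5 7 (.cons 0x8904321756 .nil) (.node 0 3 (.cons 0x4567890321 .nil) (.node 3 9 (.cons 0x8934567210 .nil) (.node 3 8 (.cons 0x9834567210 .nil) (.node 3 5 (.cons 0x6532178904 .nil) (.node 1 3 .nil (.node 0 8 (.cons 0x9801276543 (.cons 0x9804312756 (.cons 0x9801345672 .nil))) .done .done) .done) (.node 0 8 (.cons 0x9801276543 .nil) (.node 0 5 (.cons 0x8905671234 .nil) (.node 0 6 (.cons 0x9834065721 .nil) (.leaf 0x1278934560 2 .done) .done) .done) .done)) (.node 3 6 (.cons 0x7890456321 .nil) (.leaf 0x127893654 0 (.node 7 9 (.cons 0x8790456321 .nil) (.node 4 7 .nil (.node 1 6 (.cons 0x2378904561 (.cons 0x5612398740 (.cons 0x8903216745 .nil))) .done .done) .done) .done)) .done)) (.node 3 6 (.cons 0x7890456321 .nil) (.node 7 9 .nil (.node 2 8 (.cons 0x9821756340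 (.cons 0x5436798210 (.cons 0x1289756340 .nil))) (.leaf 0x5637982104 0 .done) (.node 3 9 (.cons 0x8934567210 .nil) (.node 1 9 (.cons 0x7891236540 .nil) (.node 1 6 (.cons 0x2378904561 .nil) (.node 4 7 (.cons 0x8745612390 .nil) .done .done) .done) .done) .done)) (.node 7 9 (.cons 0x8790456321 .nil) (.node 3 9 (.cons 0x8934567210 .nil) (.node 4 7 (.cons 0x8745639012 .nil) .done .done) .done) .done)) .done)) .done) .done)) (.node 0 3 (.cons 0x4567890321 .nil) (.node 4 7 (.cons 0x6547890321 .nil) (.node 5 7 .nil (.node 1 6 (.cons 0x2309874561 (.cons 0x9875403216 (.cons 0x8904576123 .nil))) (.node 3 5 (.cons 0x6789045321 .nil) (.leaf 0x2167890453 3 (.node 6 8 (.cons 0x9865430127 (.cons 0x5768904321 (.cons 0x4309865712 .nil))) (.node 7 9 (.cons 0x6897543012 .nil) (.leaf 0x3456897210 1 .done) (.node 0 8 (.cons 0x9801276543 .nil) (.node 4 9 (.cons 0x4908765321 (.cons 0x4908756123 .nil)) (.leaf 0x2765349801 1 .done) .done) .done)) (.leaf 0x4098761235 2 .done))) .done)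 (.node 7 9 (.cons 0x8972103456 .nil) (.node 3 7 .nil (.node 2 4 (.cons 0x8903421756 (.cons 0x6542109873 .nil)) (.node 1 4 (.cons 0x3214567890 (.cons 0x6541237890 .nil)) (.node 4 6 (.cons 0x8903465712 .nil) (.node 2 5 (.cons 0x4652178903 (.cons 0x8903712564 .nil)) (.node 6 8 (.cons 0x1743256890 (.cons 0x6897345210 (.cons 0x6890437521 (.cons 0x4371098652 .nil)))) .done .done) .done) .done) .done) .done) .done) .done)) (.node 5 7 .nil (.node 1 6 (.cons 0x3098745612 (.cons 0x9875403216 (.cons 0x8904576123 .nil))) (.node 2 6 (.cons 0x3098745621 (.cons 0x8903475621 .nil)) (.node 1 3 (.cons 0x6547890312 .nil) (.node 0 8 (.cons 0x9801276543 (.cons 0x9803126574 (.cons 0x9804576231 .nil))) .done (.leaf 0x987456213 0 .done)) .done) .done) (.node 0 5 (.cons 0x8905671234 .nil) (.node 7 9 (.cons 0x8972103456 .nil) (.node 3 7 .nil (.node 4 8 (.cons 0x5671234890 .nil) (.node 1 8 (.cons 0x7654321890 (.cons 0x6732189054 .nil)) (.node 2 6 (.cons 0x4326571890 (.cons 0x9847305621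 (.cons 0x3745621890 .nil))) (.leaf 0x7456218903 1 .done) .done) (.node 1 6 (.cons 0x3098745612 (.cons 0x6123798450 (.cons 0x8450973216 (.cons 0x7321654890 .nil)))) .done (.leaf 0x7650984321 0 .done))) .done) .done) .done) .done)) .done)) (.node 0 8 (.cons 0x9801276543 .nil) (.node 3 7 (.cons 0x9801273456 .nil) (.node 3 8 (.cons 0x9834567210 .nil) (.node 1 8 (.cons 0x7654321890 .nil) (.node 0 2 .nil (.node 5 8 (.cons 0x4321765890 (.cons 0x4320985671 (.cons 0x6734589021 .nil))) .done (.node 0 5 (.cons 0x8905671234 .nil) (.node 0 6 (.cons 0x7609812345 .nil) .done .done) .done)) .done) (.node 0 2 (.cons 0x9834567201 .nil) (.node 3 9 (.cons 0x8934567210 .nil) (.node 0 5 (.cons 0x8905671234 .nil) (.node 0 6 (.cons 0x4560127893 .nil) .done .done) .done) .done) .done)) (.node 1 8 (.cons 0x7654321890 .nil) (.node 1 4 (.cons 0x3214567890 .nil) (.node 1 6 (.cons 0x9801654372 .nil) (.node 1 5 (.cons 0x8904516732 .nil) (.node 4 7 (.cons 0x6512309874 .nil) (.node 5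 7 (.cons 0x8904576123 .nil) .done .done) .done) .done) (.leaf 0x8903214567 0 .done)) (.node 5 7 (.cons 0x6754321890 .nil) (.node 4 7 .nil (.node 0 5 (.cons 0x8905671234 (.cons 0x6745098123 .nil)) (.node 0 6 (.cons 0x3457609812 (.cons 0x5476098123 .nil)) .done .done) .done) .done) .done)) .done)) (.node 0 6 .nil (.node 3 9 (.cons 0x8934567210 (.cons 0x4560127893 .nil)) (.leaf 0x2106543987 1 (.node 4 9 (.cons 0x8943012765 (.cons 0x5608943271 .nil)) (.node 1 5 (.cons 0x6789045123 (.cons 0x2398760451 (.cons 0x3498065172 (.cons 0x8932760451 .nil)))) (.leaf 0x651278943 0 .done) .done) .done)) (.node 0 5 (.cons 0x8905671234 .nil) (.node 0 2 .nil (.node 1 4 (.cons 0x3214567890 (.cons 0x9802341765 .nil)) (.node 1 6 (.cons 0x5409876123 .nil) (.node 1 5 (.cons 0x6789045123 .nil) (.node 3 9 (.cons 0x8934567210 (.cons 0x9320876145 (.cons 0x8934567201 .nil))) (.leaf 0x2045167893 1 .done) .done) .done) (.leaf 0x8903214567 0 .done)) .done) .done) .done)) .done)) (.node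 0 8 (.cons 0x9801276543 .nil) (.node 3 7 (.cons 0x9801273456 .nil) (.node 0 5 (.cons 0x8905671234 .nil) (.node 3 9 (.cons 0x8934567210 .nil) (.node 0 6 (.cons 0x4560127893 .nil) (.leaf 0x1278934560 2 .done) (.node 3 8 (.cons 0x9834567210 .nil) (.node 3 6 (.cons 0x5409876321 .nil) (.node 4 8 (.cons 0x5671234890 .nil) (.leaf 0x7650984321 0 (.node 1 3 (.cons 0x4893127650 .nil) (.leaf 0x8931276504 2 .done) .done)) .done) .done) .done)) .done) .done) (.node 2 8 (.cons 0x9827654301 .nil) (.node 1 8 (.cons 0x7654321890 .nil) (.node 2 9 (.cons 0x8927654301 .nil) (.leaf 0x345672981 1 (.leaf 0x345672981 0 (.node 0 2 .nil (.node 3 8 (.cons 0x9834567210 .nil) (.leaf 0x2098345671 1 .done) .done) .done))) (.node 3 8 (.cons 0x9834567210 .nil) (.node 0 6 (.cons 0x7609812345 .nil) (.node 0 2 .nil (.node 1 9 (.cons 0x8910345672 .nil) (.node 4 7 (.cons 0x5476098123 (.cons 0x7456023891 (.cons 0x7456021983 .nil))) .done (.leaf 0x5670219834 0 .done)) .done) .done) .done) .done))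 (.node 3 8 (.cons 0x9834567210 .nil) (.node 1 8 (.cons 0x7654321890 .nil) (.node 0 6 .nil (.node 7 9 (.cons 0x6543018972 (.cons 0x5438976012 (.cons 0x1897234560 (.cons 0x9706543812 .nil)))) .done (.node 3 7 (.cons 0x7321890654 .nil) (.node 4 7 (.cons 0x7456098123 .nil) (.leaf 0x981237456 1 (.node 0 5 (.cons 0x8905671234 .nil) (.node 0 2 (.cons 0x9834712056 .nil) .done .done) .done)) .done) .done)) .done) (.node 0 6 (.cons 0x9834560127 .nil) (.node 1 8 (.cons 0x7654321890 .nil) (.node 1 4 (.cons 0x3214567890 .nil) (.node 1 6 (.cons 0x5409876123 .nil) .done (.leaf 0x9876541230 2 .done)) .done) .done) .done)) .done)) .done)) .done))) (.node 0 5 (.cons 0x8905671234 .nil) (.node 0 8 (.cons 0x9801276543 .nil) (.node 0 3 (.cons 0x4567890321 .nil) (.node 1 8 (.cons 0x7654321890 .nil) (.node 4 8 (.cons 0x5671234890 .nil) (.node 0 6 (.cons 0x7123489065 .nil) (.node 0 2 .nil (.node 3 8 (.cons 0x9834567210 (.cons 0x9834567201 .nil)) .done .done) .done) (.node 5 8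 (.cons 0x4321765890 .nil) (.node 5 9 (.cons 0x1276598430 .nil) (.leaf 0x2765984301 1 (.node 0 2 (.cons 0x4320985671 .nil) (.node 0 6 (.cons 0x3459806721 .nil) .done .done) .done)) .done) .done)) (.node 0 6 (.cons 0x9817234065 .nil) (.node 0 2 .nil (.node 3 7 (.cons 0x7321890654 (.cons 0x9810273456 .nil)) (.node 5 8 (.cons 0x4321765890 (.cons 0x4320985671 (.cons 0x6734589021 .nil))) (.leaf 0x6712340985 2 .done) .done) .done) .done) .done)) .done) (.node 0 3 (.cons 0x4567890321 .nil) (.node 5 8 (.cons 0x4321765890 .nil) (.leaf 0x6712340985 2 (.node 0 2 (.cons 0x4320985671 .nil) (.node 0 6 .nil (.node 1 8 (.cons 0x7654321890 (.cons 0x9817234065 (.cons 0x7609812345 .nil))) (.node 2 9 (.cons 0x5671892340 (.cons 0x7189234065 (.cons 0x3458927601 .nil))) (.leaf 0x4329817650 2 .done) .done) .done) .done) (.node 0 6 (.cons 0x9854306721 .nil) (.node 0 2 .nil (.node 3 9 (.cons 0x8934567210 (.cons 0x6589340271 (.cons 0x8934567201 .nil))) (.node 1 8 (.cons 0x7654321890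 .nil) (.leaf 0x2345671890 2 (.node 3 7 (.cons 0x7321890654 (.cons 0x9810273456 .nil)) .done (.node 4 6 (.cons 0x5467890321 (.cons 0x9346702185 (.cons 0x7643902185 .nil))) (.leaf 0x2789346501 3 .done) .done))) .done) .done) .done) .done))) .done) .done)) (.node 2 5 (.cons 0x8904325671 .nil) (.node 0 6 .nil (.node 1 8 (.cons 0x7654321890 (.cons 0x9817234065 (.cons 0x7609812345 .nil))) (.node 3 7 (.cons 0x9812376054 .nil) (.node 2 4 (.cons 0x9817650423 (.cons 0x6542109873 .nil)) (.node 2 9 (.cons 0x5671892340 (.cons 0x7189234065 (.cons 0x4056732981 (.cons 0x1892376540 .nil)))) .done .done) (.node 2 9 (.cons 0x5671892340 (.cons 0x8927345601 (.cons 0x4506732981 .nil))) (.leaf 0x654372981 0 (.leaf 0x654372981 1 .done)) .done)) .done) (.node 0 3 (.cons 0x4567890321 .nil) (.node 0 8 (.cons 0x9801276543 .nil) (.node 0 2 .nil (.node 1 8 (.cons 0x7654321890 .nil) (.leaf 0x2345671890 2 (.node 1 5 (.cons 0x9815604327 .nil) (.node 3 9 (.cons 0x8934567210 (.cons 0x6789320451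 (.cons 0x4023987651 (.cons 0x8934567201 .nil)))) .done .done) .done)) .done) .done) (.node 0 8 (.cons 0x9801276543 .nil) (.node 3 7 (.cons 0x9801273456 .nil) (.node 6 9 (.cons 0x2734569801 .nil) (.leaf 0x896543721 2 (.node 0 2 .nil (.node 1 8 (.cons 0x7654321890 .nil) (.leaf 0x2345671890 2 (.leaf 0x273456981 0 .done)) .done) (.leaf 0x4569801273 2 .done))) .done) .done) .done)) .done)) (.node 0 6 .nil (.node 1 8 (.cons 0x7654321890 (.cons 0x9817234065 (.cons 0x7609812345 .nil))) (.node 4 9 (.cons 0x9456078123 (.cons 0x7605498123 .nil)) (.node 3 6 (.cons 0x3652789401 (.cons 0x8943652710 .nil)) (.leaf 0x9405236718 1 (.leaf 0x498176325 0 .done)) (.leaf 0x5607189432 2 .done)) .done) (.node 0 3 (.cons 0x4567890321 .nil) (.node 0 8 (.cons 0x9801276543 .nil) (.node 0 2 .nil (.node 1 8 (.cons 0x7654321890 .nil) (.leaf 0x2345671890 2 (.node 4 8 (.cons 0x5671234890 (.cons 0x5671209843 .nil)) (.node 1 9 (.cons 0x6540327891 (.cons 0x5671984023 .nil)) (.leaf 0x8917650234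 3 .done) .done) .done)) .done) .done) (.node 0 8 (.cons 0x9801276543 .nil) (.node 3 7 (.cons 0x9801273456 .nil) (.node 0 2 .nil (.node 1 8 (.cons 0x7654321890 .nil) (.leaf 0x2345671890 2 (.node 4 8 (.cons 0x5671234890 (.cons 0x9843710256 (.cons 0x6520984371 .nil))) .done .done)) .done) .done) .done) .done)) .done)) .done)) .done)) .done)))
noncomputable def tc9_4_39 : T := (.node 0 3 (.cons 0x4567890321 .nil) (.node 4 7 (.cons 0x6547890321 .nil) (.node 5 7 .nil (.node 1 8 (.cons 0x7654321890 (.cons 0x2347560981 .nil)) (.leaf 0x6574321890 2 (.leaf 0x5743218906 3 .done)) (.node 7 9 (.cons 0x8972103456 .nil) (.node 3 7 .nil (.node 4 9 (.cons 0x8943065721 (.cons 0x8943721065 .nil)) (.node 5 8 (.cons 0x6712345890 (.cons 0x5894376012 (.cons 0x9856012734 .nil))) (.leaf 0x3721065894 0 .done) (.node 1 6 (.cons 0x2309874561 (.cons 0x2165498730 (.cons 0x8730945612 (.cons 0x8945612730 .nil)))) .done .done)) .done) .done) .done)) (.node 5 7 .nil (.node 1 8 (.cons 0x7654321890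 (.cons 0x3475609812 (.cons 0x6574309812 .nil))) (.leaf 0x2345760981 2 .done) (.node 7 9 (.cons 0x8972103456 .nil) (.node 3 7 .nil (.node 5 8 (.cons 0x6712345890 (.cons 0x9856012734 .nil)) (.node 0 5 (.cons 0x9850671234 .nil) (.node 4 9 (.cons 0x5894321760 (.cons 0x7349856012 (.cons 0x4985067321 .nil))) (.leaf 0x7605894321 0 .done) .done) (.leaf 0x1760985432 0 .done)) .done) .done) .done)) .done)) (.node 0 8 (.cons 0x9801276543 .nil) (.node 5 8 (.cons 0x6712345890 .nil) (.node 1 8 (.cons 0x7654321890 .nil) (.node 3 8 (.cons 0x9834567210 .nil) (.node 3 7 (.cons 0x9801273456 .nil) (.node 0 4 (.cons 0x9856734012 .nil) (.node 0 2 (.cons 0x9834567201 .nil) (.node 0 5 (.cons 0x9850671234 .nil) .done .done) .done) .done) .done) .done) (.node 0 5 (.cons 0x8905432176 .nil) (.node 0 2 .nil (.node 3 9 (.cons 0x8934567210 (.cons 0x4398567201 (.cons 0x8934567201 .nil))) (.node 0 4 (.cons 0x6540127893 .nil) (.node 4 7 (.cons 0x2743985601 .nil) (.leaf 0x3985601274 0 .done)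 .done) .done) .done) .done) (.leaf 0x1760985432 0 .done))) (.node 0 4 .nil (.node 1 9 (.cons 0x5672340891 (.cons 0x3276540891 .nil)) (.leaf 0x7891230456 0 (.leaf 0x2198765403 3 .done)) (.node 0 5 (.cons 0x8905432176 .nil) (.node 0 2 .nil (.node 6 8 (.cons 0x5432176890 .nil) (.node 5 9 (.cons 0x7689543012 (.cons 0x1768954320 (.cons 0x3459867120 .nil))) (.leaf 0x4302176895 3 .done) (.node 3 9 (.cons 0x8934567210 (.cons 0x8934567201 .nil)) (.leaf 0x2176893450 2 (.node 1 4 (.cons 0x3214567890 .nil) (.leaf 0x6893054127 2 (.node 1 5 (.cons 0x9867215430 (.cons 0x9320876514 (.cons 0x9341568027 .nil))) .done .done)) .done)) .done)) .done) .done) .done)) .done)) (.node 0 8 (.cons 0x9801276543 .nil) (.node 3 7 (.cons 0x9801273456 .nil) (.node 0 5 (.cons 0x8905432176 .nil) (.node 1 8 (.cons 0x7654321890 .nil) (.node 0 4 (.cons 0x9812376504 .nil) (.node 0 2 .nil (.node 7 9 (.cons 0x9708123456 (.cons 0x1897654320 (.cons 0x3456798120 .nil))) .done .done) .done) (.node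 2 8 (.cons 0x9827654301 .nil) (.node 3 8 (.cons 0x9834567210 .nil) (.node 0 2 .nil (.node 1 9 (.cons 0x8910345672 .nil) (.node 4 7 (.cons 0x5674321890 (.cons 0x5674320981 (.cons 0x6502198374 .nil))) .done (.leaf 0x5670219834 0 .done)) .done) .done) .done) .done)) .done) .done) (.node 3 7 .nil (.node 0 4 (.cons 0x6540987321 .nil) (.node 3 9 (.cons 0x6540127893 (.cons 0x8934012765 .nil)) (.node 5 8 (.cons 0x6712345890 (.cons 0x9856012734 (.cons 0x5893406721 .nil))) (.leaf 0x1043985672 1 (.leaf 0x4012765893 0 .done)) .done) .done) (.node 3 8 (.cons 0x9834567210 .nil) (.node 3 6 (.cons 0x9801276345 .nil) (.node 2 6 .nil (.node 1 4 (.cons 0x3214567890 (.cons 0x7890326541 .nil)) (.leaf 0x2309871456 0 (.leaf 0x2309871456 1 .done)) (.node 3 5 .nil (.node 4 8 (.cons 0x5489032671 (.cons 0x7356210984 (.cons 0x1762354890 (.cons 0x5348906712 .nil)))) .done (.node 1 3 .nil (.node 4 7 (.cons 0x4789065321 (.cons 0x9801354726 (.cons 0x4789065312 .nil))) .done .done) .done))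 .done)) .done) (.node 7 9 (.cons 0x6543897210 .nil) (.node 4 7 (.cons 0x9834721065 .nil) (.node 5 7 .nil (.node 1 4 (.cons 0x3214567890 (.cons 0x9065783214 .nil)) (.node 3 9 (.cons 0x8934567210 .nil) (.leaf 0x2145760893 2 .done) (.leaf 0x9876541230 2 .done)) .done) .done) (.leaf 0x3897210654 2 .done)) .done)) .done)) .done)) .done))) (.node 0 5 (.cons 0x8905432176 .nil) (.node 4 7 .nil (.node 3 8 (.cons 0x9834567210 (.cons 0x9832174506 (.cons 0x7456098321 (.cons 0x5476098321 (.cons 0x5674389012 .nil))))) (.leaf 0x9065471238 2 .done) (.node 3 7 .nil (.node 6 8 (.cons 0x5432176890 (.cons 0x9865012734 (.cons 0x6890543712 .nil))) (.node 7 9 (.cons 0x4379865012 .nil) (.leaf 0x8605432179 3 .done) (.leaf 0x3450986712 0 .done)) (.node 0 3 (.cons 0x4567890321 .nil) (.node 0 4 .nil (.node 3 9 (.cons 0x8934567210 (.cons 0x6540127893 .nil)) (.node 1 8 (.cons 0x2765439810 (.cons 0x5406718932 .nil)) (.leaf 0x981237654 0 (.leaf 0x6723981045 0 .done)) .done) .done) (.node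 1 4 (.cons 0x3214567890 .nil) (.node 0 4 (.cons 0x9873214056 .nil) (.node 4 6 (.cons 0x9873214650 .nil) (.node 1 6 (.cons 0x5409876123 .nil) (.node 2 6 (.cons 0x9871450326 .nil) .done .done) (.leaf 0x7890564123 0 .done)) .done) (.node 2 4 (.cons 0x8901243765 .nil) (.node 3 6 (.cons 0x9872456301 .nil) (.leaf 0x2109873654 0 (.leaf 0x2109873654 1 .done)) (.node 0 4 .nil (.node 1 6 (.cons 0x5423098761 (.cons 0x9873216504 .nil)) (.node 1 9 (.cons 0x8765419032 (.cons 0x6540327891 (.cons 0x8916504723 .nil))) .done .done) .done) .done)) (.leaf 0x9876541230 2 .done))) .done)) .done)) (.node 5 7 .nil (.node 6 8 (.cons 0x5432176890 (.cons 0x6890571234 .nil)) (.node 4 6 (.cons 0x6450987123 .nil) (.node 3 8 (.cons 0x9834567210 (.cons 0x6098321754 (.cons 0x4576098321 .nil))) (.node 4 9 (.cons 0x9465012783 (.cons 0x3217549860 (.cons 0x6490578321 .nil))) (.leaf 0x7506894321 0 .done) (.leaf 0x7546098321 2 .done)) (.leaf 0x5712346890 2 .done)) (.leaf 0x3450986712 0 (.node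 0 2 (.cons 0x3457689021 .nil) (.node 3 8 (.cons 0x9834567210 (.cons 0x6098321754 (.cons 0x4576098321 (.cons 0x5674389021 (.cons 0x9834567201 .nil))))) (.node 6 9 (.cons 0x9683450712 (.cons 0x7438965021 (.cons 0x5438967102 .nil))) .done .done) (.node 2 6 (.cons 0x7126890543 .nil) (.node 4 6 (.cons 0x6450987123 .nil) (.leaf 0x5712346890 1 (.node 1 8 (.cons 0x7654321890 (.cons 0x9817502346 (.cons 0x7564320981 .nil))) (.leaf 0x4320981756 2 .done) .done)) .done) .done)) .done))) (.node 3 7 .nil (.node 6 8 (.cons 0x5432176890 (.cons 0x9865012734 (.cons 0x6890543712 .nil))) (.node 7 9 (.cons 0x4379865012 .nil) .done (.leaf 0x3450986712 0 .done)) (.node 7 9 .nil (.node 3 8 (.cons 0x9834567210 (.cons 0x6543897210 .nil)) (.leaf 0x1279834560 3 (.node 4 6 (.cons 0x4650987321 (.cons 0x8973465012 (.cons 0x6450978321 .nil))) (.leaf 0x9721056438 0 .done) (.node 2 6 (.cons 0x5438901762 (.cons 0x4389726501 .nil)) (.node 1 6 (.cons 0x9832716054 (.cons 0x4506179832 .nil))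 (.leaf 0x3450162798 3 .done) .done) .done))) .done) .done)) .done)) .done))) (.node 2 6 (.cons 0x8905432671 .nil) (.node 5 7 .nil (.node 3 8 (.cons 0x9834567210 (.cons 0x6098321754 (.cons 0x4576098321 .nil))) (.node 0 4 (.cons 0x9832176045 (.cons 0x9832175406 .nil)) (.node 2 4 (.cons 0x9832450671 .nil) (.node 3 6 (.cons 0x5409876321 (.cons 0x4210987563 (.cons 0x8906324571 .nil))) .done .done) .done) (.node 0 4 (.cons 0x9834012765 (.cons 0x9834012756 .nil)) (.node 0 3 (.cons 0x4567890321 .nil) (.node 0 8 (.cons 0x9801276543 .nil) .done .done) .done) (.node 2 4 (.cons 0x5423890671 (.cons 0x6098324571 .nil)) (.node 1 6 (.cons 0x3245098761 (.cons 0x5761098342 .nil)) (.leaf 0x8324571609 2 .done) .done) .done))) (.node 5 8 (.cons 0x6712345890 .nil) (.node 4 7 .nil (.node 0 3 (.cons 0x4567890321 (.cons 0x6547890321 (.cons 0x9854760321 (.cons 0x9856743012 .nil)))) .done (.node 3 7 .nil (.node 0 4 (.cons 0x9854067123 (.cons 0x6540987321 (.cons 0x9854067321 .nil)))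 .done (.node 7 9 .nil (.node 0 3 (.cons 0x4567890321 (.cons 0x6032179854 (.cons 0x4589760321 .nil))) .done .done) .done)) .done)) (.node 4 7 (.cons 0x6098547123 .nil) (.node 3 7 .nil (.node 1 4 (.cons 0x3214567890 (.cons 0x6541237890 .nil)) (.leaf 0x3714589062 0 (.leaf 0x2376098541 0 .done)) (.node 7 9 (.cons 0x8562109734 .nil) .done .done)) .done) .done)) .done)) (.node 1 8 (.cons 0x7654321890 .nil) (.node 1 6 .nil (.node 0 4 (.cons 0x9817623405 (.cons 0x7890456123 (.cons 0x5409876123 .nil))) .done (.node 1 4 (.cons 0x3214567890 .nil) (.node 1 3 (.cons 0x7890562314 .nil) (.node 3 7 (.cons 0x6541237890 .nil) (.leaf 0x4560987321 2 .done) .done) .done) .done)) (.leaf 0x9054326718 2 (.node 0 8 (.cons 0x9801276543 .nil) (.node 6 9 (.cons 0x6980543271 .nil) (.node 1 6 (.cons 0x5432716980 .nil) (.leaf 0x3450896172 2 (.node 2 8 (.cons 0x7169082345 .nil) (.node 0 2 .nil (.node 1 3 (.cons 0x7698201345 (.cons 0x4569872013 .nil)) (.leaf 0x8965431720 0 .done) .done)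 .done) .done)) (.node 3 7 (.cons 0x1273456980 .nil) (.node 0 3 (.cons 0x4567890321 .nil) (.node 0 4 (.cons 0x5698043721 .nil) .done .done) (.leaf 0x4569801273 2 .done)) .done)) (.node 0 2 .nil (.node 4 7 (.cons 0x5674321890 (.cons 0x5674320981 .nil)) (.node 1 9 (.cons 0x6723450891 .nil) (.node 6 8 (.cons 0x6891723450 (.cons 0x5026891743 (.cons 0x5432098671 (.cons 0x6891720543 .nil)))) .done (.node 3 8 (.cons 0x9834567210 (.cons 0x6719832054 (.cons 0x9834567201 .nil))) (.leaf 0x276543891 0 .done) .done)) .done) (.node 2 8 .nil (.node 1 9 (.cons 0x6723450891 .nil) (.leaf 0x8234506719 2 (.node 1 3 (.cons 0x6723198054 (.cons 0x9823176054 .nil)) (.leaf 0x4567289013 1 (.node 3 9 (.cons 0x8934567210 (.cons 0x6728934501 (.cons 0x4398276501 (.cons 0x7289310654 .nil)))) .done .done)) .done)) .done) .done)) .done)) .done))) .done)) .done)) (.node 5 8 (.cons 0x6712345890 .nil) (.leaf 0x4321760985 2 (.leaf 0x3458906712 0 (.node 0 5 (.cons 0x8905432176 .nil) (.node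 0 3 (.cons 0x4567890321 .nil) (.node 0 4 .nil (.node 1 9 (.cons 0x8917234506 (.cons 0x1985672340 (.cons 0x6723045891 .nil))) (.leaf 0x2198765403 3 .done) .done) (.node 0 8 (.cons 0x9801276543 .nil) (.node 0 4 .nil (.node 1 9 (.cons 0x5432760891 (.cons 0x1985672340 (.cons 0x4032765891 .nil))) (.node 1 5 (.cons 0x9806723451 (.cons 0x9876512304 .nil)) (.leaf 0x6043278915 2 (.node 3 6 (.cons 0x6321789054 (.cons 0x7891236540 .nil)) (.leaf 0x4063278915 0 .done) .done)) .done) .done) .done) .done)) (.node 2 6 (.cons 0x1762345890 .nil) (.node 2 5 .nil (.node 3 8 (.cons 0x9834567210 (.cons 0x9834527106 (.cons 0x9834527601 (.cons 0x9017625834 .nil)))) (.leaf 0x4521760983 2 .done) (.node 5 9 .nil (.node 0 8 (.cons 0x9085432671 (.cons 0x6089543271 (.cons 0x6721089543 .nil))) (.leaf 0x3459806712 3 .done) (.node 5 7 .nil (.node 1 8 (.cons 0x7654321890 (.cons 0x6098175432 (.cons 0x6098175234 .nil))) (.node 0 2 (.cons 0x3459817602 .nil) (.leaf 0x8176023459 3 (.node 2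 4 (.cons 0x9817605423 (.cons 0x3420675981 .nil)) .done .done)) .done) .done) .done)) .done)) (.leaf 0x8901762345 0 (.node 5 7 .nil (.node 1 8 (.cons 0x7654321890 (.cons 0x6098175432 .nil)) (.node 2 9 (.cons 0x5432981760 (.cons 0x1892345760 .nil)) (.node 6 8 (.cons 0x5432176890 .nil) (.leaf 0x2345718609 0 (.node 0 3 (.cons 0x4567890321 (.cons 0x6890345712 (.cons 0x9218657034 .nil))) (.leaf 0x9817543062 0 .done) .done)) (.leaf 0x7601892345 0 .done)) (.leaf 0x981754326 2 .done)) (.node 5 9 .nil (.node 0 8 (.cons 0x9801276543 (.cons 0x6089543271 (.cons 0x6721089543 .nil))) (.leaf 0x3459806712 3 .done) (.node 2 5 .nil (.node 3 8 (.cons 0x9834567210 (.cons 0x9834527106 (.cons 0x9834527601 (.cons 0x7652109834 .nil)))) (.leaf 0x1762543890 2 .done) (.node 1 5 (.cons 0x8906715432 .nil) (.node 3 5 .nil (.node 1 4 (.cons 0x3267145890 (.cons 0x6098714532 .nil)) (.leaf 0x5326098714 0 .done) .done) .done) .done)) .done)) .done)) .done))) .done)) (.leaf 0x9854321760 3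 .done)))) .done)))
noncomputable def tc9_4_40 : T := (.node 3 9 (.cons 0x8934567210 (.cons 0x6540127893 (.cons 0x8934012765 .nil))) (.node 3 7 (.cons 0x6540987321 .nil) (.node 5 8 (.cons 0x4376589012 (.cons 0x9856734012 .nil)) (.node 1 6 (.cons 0x8761239045 (.cons 0x7321658904 .nil)) (.node 4 6 (.cons 0x6458712390 (.cons 0x2173465890 .nil)) (.leaf 0x8564372109 0 .done) (.leaf 0x5890437216 0 .done)) (.leaf 0x4012765893 0 (.node 0 6 (.cons 0x5893406721 (.cons 0x3985406721 .nil)) (.leaf 0x9854321760 3 .done) .done))) (.node 5 7 .nil (.node 1 6 (.cons 0x8761239045 (.cons 0x8932167540 (.cons 0x4098756123 .nil))) .done (.node 3 8 (.cons 0x9834567210 (.cons 0x9834012765 .nil)) (.node 7 9 (.cons 0x5679834012 .nil) .done (.node 0 6 (.cons 0x9834065721 (.cons 0x7123890654 (.cons 0x9834560172 .nil))) .done .done)) .done)) .done)) (.node 1 8 (.cons 0x2765439810 .nil) (.node 2 8 (.cons 0x9345670182 (.cons 0x6543982710 (.cons 0x5672893401 .nil))) (.node 0 2 (.cons 0x4567189320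 .nil) (.node 1 6 (.cons 0x5409328761 (.cons 0x5401672893 .nil)) (.leaf 0x278934561 2 .done) (.leaf 0x9345672018 0 .done)) .done) (.node 3 7 (.cons 0x6540987321 .nil) (.node 3 8 (.cons 0x9834567210 (.cons 0x9834012765 .nil)) (.node 3 6 (.cons 0x9078123654 (.cons 0x9365401872 .nil)) (.node 5 7 (.cons 0x9810436572 (.cons 0x9812756340 .nil)) .done .done) .done) (.leaf 0x981237654 0 .done)) (.leaf 0x456781239 2 (.leaf 0x6723981045 0 .done)))) .done)) (.node 0 3 (.cons 0x4567890321 .nil) (.node 0 8 (.cons 0x9801276543 .nil) (.node 6 8 (.cons 0x9865430127 (.cons 0x9865430172 .nil)) (.node 4 9 (.cons 0x9456870321 (.cons 0x9432170865 .nil)) (.node 0 5 (.cons 0x2349805671 .nil) (.leaf 0x8943217650 3 (.leaf 0x7650894321 0 (.node 1 6 (.cons 0x8716549032 (.cons 0x8945617230 .nil)) (.leaf 0x7234980561 1 .done) .done))) (.leaf 0x1786549032 0 .done)) (.node 6 9 (.cons 0x4569872103 (.cons 0x8965430172 .nil)) (.node 4 8 (.cons 0x7210348965 (.cons 0x8432170965 (.cons 0x5698430172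 .nil))) (.node 0 5 (.cons 0x5048967123 .nil) (.leaf 0x3217650984 2 (.leaf 0x3489650712 0 .done)) .done) (.node 5 8 (.cons 0x3217698540 (.cons 0x6985403271 .nil)) (.leaf 0x2340985671 0 (.node 3 6 (.cons 0x5409876321 (.cons 0x7123698540 (.cons 0x9045871236 (.cons 0x1723698540 .nil)))) (.node 1 6 (.cons 0x5409876123 .nil) (.node 3 9 (.cons 0x8934567210 (.cons 0x6854390712 (.cons 0x8540716932 .nil))) .done (.leaf 0x7230458961 2 .done)) .done) .done)) .done)) .done)) (.node 6 9 (.cons 0x4569872103 (.cons 0x4569803271 (.cons 0x8965430172 .nil))) (.node 5 8 (.cons 0x5896721043 (.cons 0x5896712340 (.cons 0x8569071234 .nil))) (.node 4 8 (.cons 0x9658430721 (.cons 0x9658430712 (.cons 0x3485690712 .nil))) .done .done) (.node 2 8 (.cons 0x8217096543 .nil) (.node 1 9 (.cons 0x6543271980 .nil) (.leaf 0x4328091765 0 (.leaf 0x2870345691 3 (.leaf 0x8276543019 0 .done))) (.leaf 0x4307128965 0 (.leaf 0x6710982345 0 .done))) .done)) .done)) (.node 0 8 (.cons 0x9801276543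 .nil) (.node 0 6 (.cons 0x9806543271 .nil) (.node 3 9 (.cons 0x8934567210 (.cons 0x4560127893 (.cons 0x6543980172 .nil))) (.leaf 0x2106543987 1 .done) (.node 5 8 (.cons 0x9856721034 (.cons 0x9854067123 (.cons 0x4309856712 .nil))) (.node 0 2 (.cons 0x4320985671 .nil) (.node 0 5 (.cons 0x8905432176 .nil) .done .done) .done) .done)) (.node 6 9 (.cons 0x1723456980 .nil) (.leaf 0x4569801723 0 (.node 5 8 (.cons 0x5896721043 (.cons 0x5896712340 (.cons 0x8569071234 (.cons 0x4309856712 .nil)))) .done (.leaf 0x8965432710 3 (.leaf 0x5432710896 2 (.node 3 8 (.cons 0x9834567210 (.cons 0x8345690712 .nil)) (.node 2 9 (.cons 0x7654389210 (.cons 0x8345692170 .nil)) (.leaf 0x4380712965 2 (.leaf 0x6710892345 0 (.leaf 0x5670129834 0 .done))) (.node 2 8 (.cons 0x8217096543 .nil) (.leaf 0x965438217 2 (.leaf 0x6710982345 0 .done)) .done)) .done))))) .done)) (.node 2 8 (.cons 0x9827654301 (.cons 0x9827103456 .nil)) (.node 2 9 (.cons 0x8927654301 (.cons 0x8927103456 .nil)) (.node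 5 8 (.cons 0x4301765892 (.cons 0x6589271034 .nil)) (.leaf 0x2340985671 0 (.node 1 4 (.cons 0x8567143290 (.cons 0x6541789032 .nil)) (.node 2 4 (.cons 0x5678924103 (.cons 0x8567109243 (.cons 0x6542309871 .nil))) .done .done) (.node 1 4 (.cons 0x2985671430 (.cons 0x8567143092 (.cons 0x6589271430 .nil))) .done .done))) (.node 3 8 (.cons 0x9834567210 (.cons 0x4567103892 .nil)) (.node 0 6 (.cons 0x9834560127 (.cons 0x7123890654 .nil)) (.leaf 0x1729834560 2 .done) (.node 0 8 (.cons 0x9801276543 .nil) (.node 1 8 (.cons 0x4567189230 .nil) .done .done) .done)) .done)) (.leaf 0x6710982345 0 .done)) .done))) (.node 0 3 (.cons 0x4567890321 .nil) (.node 6 9 (.cons 0x4569872103 (.cons 0x8965403271 (.cons 0x8965430172 .nil))) (.leaf 0x8712304569 2 (.node 2 8 (.cons 0x8217096543 .nil) (.node 1 3 (.cons 0x9045678231 .nil) (.node 0 5 (.cons 0x7698213450 .nil) (.node 3 9 (.cons 0x8934567210 (.cons 0x8934501276 (.cons 0x5672893401 .nil))) (.leaf 0x5672893104 0 .done) (.leaf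 0x1289670543 2 .done)) (.leaf 0x4098231765 1 (.leaf 0x9654031728 2 .done))) (.leaf 0x4307128965 0 (.leaf 0x6710982345 0 .done))) .done)) (.node 0 8 (.cons 0x9801276543 .nil) (.node 6 9 (.cons 0x7210896543 (.cons 0x5698043271 (.cons 0x1723456980 .nil))) (.leaf 0x8965432710 3 (.node 3 7 (.cons 0x1273456980 .nil) (.node 3 9 (.cons 0x8934567210 (.cons 0x6543980172 .nil)) (.node 1 6 (.cons 0x2398716540 (.cons 0x8716540932 (.cons 0x9804327165 (.cons 0x8932716540 .nil)))) .done .done) (.leaf 0x4569801273 2 .done)) .done)) (.node 6 8 (.cons 0x9867210345 (.cons 0x5430986712 .nil)) (.node 5 9 (.cons 0x7689543012 (.cons 0x6598043271 (.cons 0x4598671230 (.cons 0x2176895430 .nil)))) (.node 1 4 (.cons 0x2341765980 (.cons 0x8095671432 (.cons 0x9568071432 .nil))) (.node 2 4 (.cons 0x3427659801 (.cons 0x6598017243 .nil)) (.leaf 0x7689542301 2 .done) .done) .done) (.node 2 5 (.cons 0x9867254301 (.cons 0x4523098671 .nil)) (.node 1 5 (.cons 0x9804327156 (.cons 0x4517689032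 .nil)) (.node 2 9 (.cons 0x6789230451 (.cons 0x3456892710 (.cons 0x8671092543 (.cons 0x4517689230 .nil)))) (.leaf 0x1729865430 0 .done) .done) (.node 1 6 (.cons 0x9804325617 (.cons 0x4098716523 (.cons 0x7168903254 .nil))) (.leaf 0x5234098716 0 .done) .done)) .done)) .done)) (.node 5 8 (.cons 0x9856721034 (.cons 0x4309856712 .nil)) (.leaf 0x6712340985 2 (.node 4 7 (.cons 0x6589034712 .nil) (.node 0 6 (.cons 0x6098547123 .nil) (.node 2 6 (.cons 0x9856271043 .nil) (.leaf 0x347126589 0 (.node 3 9 (.cons 0x8934567210 (.cons 0x4560127893 (.cons 0x6271045893 (.cons 0x3985472601 .nil)))) .done .done)) .done) .done) (.node 4 9 (.cons 0x2765894301 (.cons 0x6589430172 .nil)) (.leaf 0x3012765894 0 (.node 2 6 (.cons 0x1726589430 .nil) (.leaf 0x5894301726 2 (.leaf 0x7265894301 3 (.leaf 0x8562710349 0 (.node 1 8 (.cons 0x5627189403 (.cons 0x5409817623 (.cons 0x5671890432 .nil))) (.node 0 6 (.cons 0x4560987123 .nil) (.node 2 9 (.cons 0x2943076581 (.cons 0x6581703492 (.cons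 0x3458927601 (.cons 0x5671892340 .nil)))) .done .done) .done) .done)))) .done)) .done))) .done))) .done)))
noncomputable def uc9_4_10 : T := (.node 0 4 (.cons 0x6540987123 .nil) tc9_4_40 (.node 0 6 (.cons 0x8906712345 .nil) tc9_4_39 (.node 0 4 (.cons 0x8904321765 .nil) tc9_4_38 .done)))
theorem sub_c9_4_10 : root 9 refs9_4 [] 0x700000008703000000003060008070060500000000504000000004030000000030100008000102000000002018070000010 0xfe7fff77fe37ff9fffcfffe7fff5fef9fff9fe7d 9 1 7 .nil uc9_4_10 = true := by decide +kernel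
def kn_c9_4 : List (Nat × Nat × Nat) := [(0x700000008703000004003060000020060500000000504000000004030000000030100000000102004000002018020000010, 0xfe7fff67ffb3ff9fffcfffe7fff5fff9ffe9fef9, 9), (0x700000008703000005003060000020060500000000504000000004030000000030100000000102005000002018020000010, 0xfe7fff57ffb3ff9fffcfffe7fff5fff9ffd9fef9, 9), (0x700000008703000006003060000020060500000000504000000004030000000030100000000102006000002018020000010, 0xfe7fff37ffb3ff9fffcfffe7fff5fff9ffb9fef9, 9), (0x700000008703000008003060000020060500000000504000000004030000000030100000000102008000002018020000010, 0xfe7ffe77ffb3ff9fffcfffe7fff5fff9fef9fef9, 9), (0x700000008703000000003060000040060500000000504000000004030000000030100000000102000000002018040000010, 0xfe7fff77ffa7ff9fffcfffe7fff5fff9fff9feed, 9), (0x700000008703000000003060004050060500000000504000000004030000000030100004000102000000002018050000010, 0xfe7fff77ff87ff9fffcfffe7fff5ffe9fff9fedd, 9), (0x700000008703000000003060007050060500000000504000000004030000000030100007000102000000002018050000010,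 0xfe7fff77ff17ff9fffcfffe7fff5ff79fff9fedd, 9), (0x700000008703000000003060008050060500000000504000000004030000000030100008000102000000002018050000010, 0xfe7fff77fe97ff9fffcfffe7fff5fef9fff9fedd, 9), (0x700000008703000000003060004070060500000000504000000004030000000030100004000102000000002018070000010, 0xfe7fff77ff27ff9fffcfffe7fff5ffe9fff9fe7d, 9), (0x700000008703000000003060005070060500000000504000000004030000000030100005000102000000002018070000010, 0xfe7fff77ff17ff9fffcfffe7fff5ffd9fff9fe7d, 9), (0x700000008703000000003060008070060500000000504000000004030000000030100008000102000000002018070000010, 0xfe7fff77fe37ff9fffcfffe7fff5fef9fff9fe7d, 9)]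
noncomputable def rc9_4 : T := (.node 2 7 (.cons 0x8901276543 .nil) (.cut 10 (.cut 9 (.cut 8 .done))) (.node 2 7 (.cons 0x8901276543 .nil) (.cut 7 (.cut 6 (.cut 5 .done))) (.cut 4 (.node 1 8 (.cons 0x7654321890 .nil) (.cut 3 (.cut 2 (.cut 1 (.cut 0 .done)))) .done))))
theorem ok_c9_4 : root 9 refs9_4 kn_c9_4 0x700000008703000000003060000000060500000000504000000004030000000030100000000102000000002018000000010 0xfe7fff77ffb7ff9fffcfffe7fff5fff9fff9fefd 9 0 7 (.cons 0x8907654321 .nil) rc9_4 = true := by decide +kernel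

end Pool.Agent.Hhelper35.Rainbow
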