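import Pool.Agent.Hhelper35.Rainbow.Pats

set_option autoImplicit false
set_option maxRecDepth 1000000

namespace Pool.Agent.Hhelper35.Rainbow

open T W

noncomputable def tc9_5_0 : T := (.leaf 0x6105432987 0 (.node 1 5 (.cons 0x4329876150 .nil) (.node 1 4 (.cons 0x3214567890 .nil) (.node 0 4 (.cons 0x5043298761 .nil) (.node 2 4 (.cons 0x5016789243 .nil) (.node 1 3 (.cons 0x4298765013 .nil) (.node 1 9 (.cons 0x8765409123 .nil) (.node 5 8 (.cons 0x7614329850 .nil) (.leaf 0x587619234 4 (.leaf 0x6785043291 1 .done)) .done) (.leaf 0x8765013429 1 .done)) .done) (.node 3 7 (.cons 0x9873216540 .nil) (.node 3 5 (.cons 0x4350167892 .nil) (.node 0 3 (.cons 0x4567890321 .nil) (.leaf 0x2145678903 0 (.node 5 7 (.cons 0x8923416750 .nil) (.node 5 9 (.cons 0x7895612304 .nil) .done .done) .done)) .done) (.leaf 0x2165409873 0 (.node 1 7 (.cons 0x6540987123 .nil) (.node 1 3 (.cons 0x7892316504 .nil) (.node 1 9 (.cons 0x4056198732 .nil) .done .done) .done) (.leaf 0x8904561237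 0 .done)))) .done)) (.node 0 4 (.cons 0x5043298761 .nil) (.node 0 3 (.cons 0x4567890321 .nil) (.leaf 0x2145678903 4 (.node 1 8 (.cons 0x9045678123 .nil) (.node 4 6 (.cons 0x8764329051 .nil) (.leaf 0x3290518764 0 (.node 1 3 (.cons 0x9046523187 .nil) (.node 3 9 (.cons 0x8765409321 .nil) (.leaf 0x456781239 0 .done) .done) (.leaf 0x7815092346 0 .done))) (.node 3 9 (.cons 0x8765409321 .nil) (.leaf 0x4093218765 1 (.leaf 0x456781239 3 .done)) .done)) (.leaf 0x8903214567 1 .done))) (.node 0 6 (.cons 0x7890654123 .nil) (.node 0 3 (.cons 0x4567890321 .nil) (.node 4 6 (.cons 0x8764329051 .nil) (.node 5 8 (.cons 0x1587643290 .nil) (.leaf 0x7643290158 2 (.node 1 9 (.cons 0x3458760912 .nil) (.node 5 9 (.cons 0x8760954321 .nil) .done (.leaf 0x7609123458 2 .done)) .done)) (.node 1 7 (.cons 0x3461789250 .nil) (.leaf 0x4617892503 3 (.leaf 0x9871643052 3 .done)) .done)) (.leaf 0x8903214567 1 .done)) (.node 5 7 (.cons 0x6143298750 .nil) (.node 3 5 (.cons 0x4350167892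 .nil) (.node 3 6 (.cons 0x5436789012 .nil) (.leaf 0x125436789 1 (.node 6 8 (.cons 0x4357689210 .nil) (.leaf 0x7689210435 0 .done) .done)) .done) (.node 5 8 (.cons 0x9067851234 .nil) (.node 3 5 (.cons 0x8921675340 .nil) (.node 2 8 (.cons 0x4357609821 .nil) (.leaf 0x9067534128 1 .done) .done) .done) .done)) .done)) .done)) .done)) (.node 1 4 (.cons 0x3214567890 .nil) (.node 5 9 (.cons 0x8761432950 .nil) (.node 5 8 (.cons 0x9234167850 .nil) (.node 3 5 (.cons 0x4350167892 .nil) (.node 5 7 .nil (.node 0 4 (.cons 0x8761295340 (.cons 0x8923405761 .nil)) (.node 0 3 (.cons 0x6785921430 (.cons 0x6758921034 (.cons 0x9875612304 .nil))) .done .done) .done) .done) .done) .done) (.node 1 9 .nil (.node 0 6 (.cons 0x7890654123 (.cons 0x8760912345 (.cons 0x7891605234 .nil))) (.leaf 0x9123450678 0 .done) (.node 0 4 (.cons 0x5043298761 .nil) (.node 5 8 (.cons 0x9234058761 .nil) (.leaf 0x587619234 4 (.leaf 0x6785043291 1 .done)) (.node 1 8 (.cons 0x7654098123 .nil)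 (.node 1 7 (.cons 0x8904567123 .nil) (.node 1 3 .nil (.node 2 4 (.cons 0x5016789243 (.cons 0x6789132450 (.cons 0x9056781324 .nil))) .done .done) .done) .done) .done)) .done)) .done)) .done)) (.node 1 4 (.cons 0x3298761450 .nil) (.node 1 5 .nil (.node 0 4 (.cons 0x9876150432 .nil) (.node 3 5 (.cons 0x6789210453 .nil) (.leaf 0x7610453298 1 (.leaf 0x2356789041 4 .done)) (.node 3 8 (.cons 0x9238761450 (.cons 0x7651238904 .nil)) (.node 0 6 (.cons 0x9238760541 (.cons 0x9238760514 .nil)) (.node 7 9 (.cons 0x1238976540 (.cons 0x8976150432 (.cons 0x8329760451 .nil))) (.leaf 0x4512389760 2 .done) .done) (.leaf 0x2905416783 0 (.node 1 7 (.cons 0x6715409832 .nil) (.leaf 0x9045671238 3 .done) .done))) (.leaf 0x8761504329 0 .done))) (.node 5 9 .nil (.node 0 8 (.cons 0x9087654123 (.cons 0x9508761432 (.cons 0x6780954123 .nil))) (.node 0 6 (.cons 0x8760954321 .nil) (.leaf 0x4598760123 0 (.node 1 7 (.cons 0x8906712345 .nil) (.leaf 0x9543217608 0 (.leaf 0x9543217608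 3 .done)) (.node 1 8 (.cons 0x6781450923 .nil) (.leaf 0x4325906781 1 (.leaf 0x7812345906 4 .done)) .done))) .done) (.node 5 8 .nil (.node 3 6 (.cons 0x8763290541 (.cons 0x7634589012 (.cons 0x2143678590 (.cons 0x1458763290 .nil)))) (.leaf 0x125436789 1 .done) (.node 2 8 .nil (.node 3 9 (.cons 0x8765412390 (.cons 0x7610543982 (.cons 0x2876143950 (.cons 0x1456782390 .nil)))) (.leaf 0x4567823901 1 .done) (.node 3 8 (.cons 0x9238761450 .nil) (.leaf 0x2905416783 0 (.node 3 5 (.cons 0x6782143590 .nil) (.node 5 7 .nil (.node 2 6 (.cons 0x7628341590 (.cons 0x9015762834 (.cons 0x1438267590 .nil))) .done .done) .done) .done)) .done)) .done)) .done)) .done)) (.node 0 3 (.cons 0x4567890321 .nil) (.leaf 0x2145678903 0 (.node 1 5 .nil (.node 0 4 (.cons 0x9876150432 .nil) (.leaf 0x6789230451 0 (.leaf 0x7651234098 0 (.leaf 0x8761504329 0 .done))) (.node 3 5 .nil (.node 2 4 (.cons 0x9876105342 .nil) (.leaf 0x9876103542 0 (.leaf 0x7890124356 3 (.leaf 0x7890124356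 0 .done))) (.node 5 8 .nil (.node 0 7 (.cons 0x8907654123 (.cons 0x9850761432 (.cons 0x6709854123 .nil))) (.leaf 0x1670589234 3 .done) (.node 5 7 .nil (.node 6 8 (.cons 0x7689210354 .nil) (.leaf 0x9867541230 4 (.leaf 0x7543012986 1 .done)) .done) .done)) .done)) .done)) (.node 0 4 .nil (.node 3 5 (.cons 0x6789210453 .nil) (.leaf 0x2987614053 3 (.leaf 0x7610453298 1 (.node 3 7 (.cons 0x8923761450 (.cons 0x8921045376 (.cons 0x8923761405 (.cons 0x6104529873 .nil)))) (.leaf 0x456129873 3 .done) .done))) (.node 2 4 .nil (.node 3 7 (.cons 0x8923761450 (.cons 0x9873012456 (.cons 0x8905673241 (.cons 0x9873016542 .nil)))) (.leaf 0x165429873 3 .done) (.node 2 8 .nil (.node 3 9 (.cons 0x3987654210 (.cons 0x7610543982 (.cons 0x7650142893 (.cons 0x5401678293 .nil)))) .done (.node 0 8 (.cons 0x7614508923 .nil) (.node 0 7 (.cons 0x8907654123 .nil) (.node 3 8 (.cons 0x7654123890 .nil) (.leaf 0x2145670983 3 (.node 1 8 (.cons 0x9045678123 .nil) (.node 1 9 (.cons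 0x2387654091 .nil) (.leaf 0x7654091238 3 .done) .done) .done)) .done) .done) .done)) .done)) .done)) (.leaf 0x2987614503 3 .done)))) (.node 0 3 (.cons 0x4567890321 .nil) (.node 0 4 .nil (.node 1 5 (.cons 0x9876150432 .nil) (.leaf 0x6789230451 3 (.leaf 0x516789234 0 (.leaf 0x4516789230 4 .done))) (.node 0 6 (.cons 0x7890654123 .nil) (.node 0 2 .nil (.node 3 7 (.cons 0x6541237890 (.cons 0x9873205614 (.cons 0x9873452016 .nil))) (.leaf 0x1237890654 3 .done) .done) .done) .done)) (.leaf 0x2145678903 4 (.node 0 4 .nil (.node 3 5 (.cons 0x6789210453 .nil) (.leaf 0x2167890453 0 (.leaf 0x7610453298 1 (.leaf 0x532987614 0 .done))) (.node 1 8 (.cons 0x9045678123 .nil) (.node 1 9 (.cons 0x8765409123 .nil) (.node 2 8 (.cons 0x7619823450 .nil) (.node 5 9 (.cons 0x4095678123 .nil) (.node 0 2 (.cons 0x3459876120 .nil) (.node 2 4 (.cons 0x7618950243 .nil) .done (.leaf 0x9876120345 1 .done)) .done) .done) .done) (.node 3 9 (.cons 0x8765409321 .nil) (.leaf 0x4093218765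 1 (.leaf 0x2390456781 4 (.leaf 0x456781239 3 .done))) .done)) (.node 0 6 (.cons 0x7890654123 .nil) (.node 0 2 .nil (.node 5 9 (.cons 0x8760954321 (.cons 0x3459876120 .nil)) (.leaf 0x4302167895 0 .done) (.node 0 7 (.cons 0x6145078923 .nil) (.node 0 8 .nil (.node 3 9 (.cons 0x6145078932 .nil) (.leaf 0x2390876541 4 (.leaf 0x8093214567 1 (.leaf 0x876541239 3 .done))) .done) .done) .done)) (.node 0 2 .nil (.node 5 9 (.cons 0x7895061432 (.cons 0x3459876120 .nil)) (.leaf 0x4302167895 0 .done) (.node 0 7 (.cons 0x6145078923 .nil) (.node 0 8 .nil (.node 3 9 (.cons 0x6145078932 .nil) (.leaf 0x2390876541 4 (.leaf 0x8093214567 1 (.leaf 0x876541239 3 .done))) .done) .done) .done)) .done)) .done))) (.leaf 0x8903214567 1 .done)))) .done))) .done)))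
noncomputable def tc9_5_1 : T := (.node 2 9 (.cons 0x1678923450 .nil) tc9_5_0 (.node 5 9 (.cons 0x8761234590 .nil) (.node 1 5 .nil (.node 2 6 (.cons 0x4326789051 .nil) (.node 2 9 (.cons 0x8761509234 .nil) (.node 2 8 (.cons 0x9051678234 .nil) (.node 3 7 (.cons 0x6734598210 (.cons 0x8954376210 (.cons 0x4376289501 (.cons 0x6254378901 .nil)))) (.node 5 8 (.cons 0x9012678543 .nil) (.leaf 0x2673458901 1 .done) .done) .done) .done) (.node 2 8 (.cons 0x9054328761 (.cons 0x9051678234 .nil)) (.node 2 9 (.cons 0x8761509234 .nil) (.node 3 8 (.cons 0x9261054387 (.cons 0x5438761092 .nil)) (.node 2 4 (.cons 0x9012456783 (.cons 0x7654210983 .nil)) .done (.leaf 0x6783450921 1 (.leaf 0x7612905438 3 .done))) .done) .done) (.leaf 0x9015432678 0 .done))) (.node 1 4 (.cons 0x3214567890 .nil) (.node 5 8 .nil (.node 2 9 (.cons 0x4329058761 .nil) (.leaf 0x6785432901 1 (.leaf 0x587614329 3 .done)) (.node 2 9 (.cons 0x3458761290 .nil) (.node 0 4 (.cons 0x6789234051 .nil)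 (.node 2 4 (.cons 0x3429058761 .nil) (.node 1 3 (.cons 0x9243167850 .nil) (.node 3 9 (.cons 0x3987654210 .nil) (.node 1 8 (.cons 0x2390456781 .nil) (.leaf 0x456781239 0 (.leaf 0x456781239 3 .done)) .done) (.leaf 0x8765013429 1 .done)) .done) (.leaf 0x2340516789 1 .done)) (.node 0 3 (.cons 0x4567890321 .nil) (.leaf 0x2145678903 0 (.leaf 0x1678543092 1 (.node 1 3 (.cons 0x8761329054 .nil) (.node 3 8 (.cons 0x7654123890 .nil) (.leaf 0x5416783290 4 (.node 3 9 (.cons 0x2167854390 .nil) .done .done)) .done) (.node 2 4 (.cons 0x9034216785 .nil) (.leaf 0x6124309587 3 (.node 0 2 (.cons 0x9021678543 .nil) (.node 0 6 .nil (.node 1 7 (.cons 0x6712098543 (.cons 0x8590671243 .nil)) (.leaf 0x6098543217 2 .done) .done) .done) .done)) .done)))) .done)) .done)) (.node 0 6 (.cons 0x7890654123 .nil) (.node 5 8 (.cons 0x7609854321 .nil) (.node 1 7 (.cons 0x3458906712 .nil) (.node 1 8 (.cons 0x7609812345 .nil) (.node 1 9 (.cons 0x8761905432 .nil) .done .done) (.leaf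 0x6098543217 2 .done)) .done) (.node 2 9 (.cons 0x4329876051 .nil) (.node 5 8 (.cons 0x4329058761 .nil) (.node 3 5 (.cons 0x4358761290 .nil) (.node 5 7 (.cons 0x8750923416 .nil) .done .done) .done) (.leaf 0x8760514329 0 .done)) .done)) .done)) .done)) (.node 0 8 (.cons 0x3459087612 .nil) (.node 5 8 .nil (.node 0 6 (.cons 0x7609854321 .nil) (.node 5 7 (.cons 0x9087543216 .nil) (.leaf 0x2345789061 2 (.node 1 8 (.cons 0x3459067812 .nil) (.node 0 3 (.cons 0x9543067812 (.cons 0x7603459812 (.cons 0x4309587612 .nil))) .done (.node 4 9 (.cons 0x7809456123 (.cons 0x6758123490 (.cons 0x4906578123 (.cons 0x6094325781 .nil)))) .done (.leaf 0x7609543218 2 .done))) .done)) (.node 1 5 (.cons 0x7609851234 .nil) (.node 4 7 (.cons 0x9087456123 (.cons 0x9061258743 .nil)) (.node 1 9 (.cons 0x6052347891 (.cons 0x5891234760 (.cons 0x9160587432 .nil))) (.node 0 4 (.cons 0x3406789512 (.cons 0x3219856740 .nil)) (.leaf 0x3258761904 4 .done) (.leaf 0x7605891234 1 .done))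 (.leaf 0x2347609851 1 (.leaf 0x6743215890 4 .done))) .done) .done)) (.node 5 7 (.cons 0x9087543216 .nil) (.node 3 8 (.cons 0x2167834590 .nil) (.node 0 4 (.cons 0x5904387612 .nil) (.node 1 8 (.cons 0x9045678123 .nil) (.node 2 8 (.cons 0x9054328761 .nil) .done .done) (.leaf 0x9521678340 4 .done)) (.node 4 8 .nil (.node 0 3 (.cons 0x4567890321 (.cons 0x7654890321 (.cons 0x5903487612 .nil))) (.leaf 0x7845903216 2 .done) (.node 6 8 .nil (.node 3 9 (.cons 0x7809321654 (.cons 0x8675439012 (.cons 0x6875439012 (.cons 0x6875210934 .nil)))) .done (.node 2 8 (.cons 0x9054328761 .nil) (.node 1 8 .nil (.node 0 4 (.cons 0x7861259043 (.cons 0x9045678123 (.cons 0x3409576812 .nil))) .done .done) .done) .done)) .done)) .done)) .done) .done)) (.leaf 0x7612345908 2 (.node 2 8 (.cons 0x9054328761 .nil) (.node 5 8 .nil (.node 2 6 (.cons 0x7621098543 .nil) (.node 3 9 (.cons 0x9345016782 (.cons 0x7628934501 (.cons 0x9345016287 .nil))) (.leaf 0x126785439 3 (.leaf 0x4390126785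 4 .done)) (.node 0 6 (.cons 0x7609854321 .nil) (.node 0 3 (.cons 0x4309587621 (.cons 0x7603459821 (.cons 0x9543061287 (.cons 0x4309587612 .nil)))) .done .done) .done)) .done) (.node 5 8 .nil (.node 1 9 (.cons 0x8761905432 (.cons 0x7619058234 .nil)) (.node 0 6 (.cons 0x7609854321 .nil) (.leaf 0x4321906785 2 (.leaf 0x2345876091 1 .done)) (.node 0 4 (.cons 0x7612859043 .nil) (.leaf 0x1904325876 1 (.leaf 0x3258761904 4 (.node 0 3 (.cons 0x4567890321 (.cons 0x7612859034 (.cons 0x4309587612 .nil))) (.node 4 6 (.cons 0x5903467821 (.cons 0x2195876430 (.cons 0x7643095821 (.cons 0x7852346190 (.cons 0x5876430912 .nil))))) .done .done) .done))) (.leaf 0x7619054328 1 .done))) (.node 1 5 (.cons 0x9051678234 .nil) (.node 3 5 (.cons 0x9087612354 .nil) (.node 5 7 .nil (.node 0 6 (.cons 0x4359067821 (.cons 0x8906754321 (.cons 0x8906751234 .nil))) .done .done) .done) .done) .done)) .done)) .done))) .done)) (.leaf 0x9054321678 0 (.node 3 6 (.cons 0x5436789012 .nil)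 (.node 2 6 .nil (.node 1 9 (.cons 0x7891054362 .nil) (.node 0 6 (.cons 0x8760912345 .nil) (.leaf 0x9123450678 0 .done) (.leaf 0x6234501987 0 (.node 1 7 (.cons 0x6178905234 .nil) (.node 1 8 (.cons 0x9054326781 .nil) (.leaf 0x5432671890 2 (.leaf 0x2345091876 0 .done)) (.leaf 0x543261789 0 .done)) .done))) (.node 5 9 (.cons 0x8762109543 .nil) (.node 1 9 (.cons 0x8762345091 .nil) (.node 2 7 (.cons 0x8954367210 .nil) (.node 0 6 (.cons 0x6054327891 .nil) (.leaf 0x3278916054 1 .done) (.leaf 0x1054362789 1 (.leaf 0x1054362789 2 .done))) (.node 2 9 (.cons 0x5436789210 .nil) (.node 1 8 (.cons 0x9054326781 .nil) (.node 3 9 (.cons 0x9345018762 .nil) (.leaf 0x8105439267 2 (.node 0 6 (.cons 0x9345260187 .nil) (.node 1 7 (.cons 0x9817605432 .nil) (.leaf 0x6054329817 3 .done) .done) .done)) (.leaf 0x2345091876 0 .done)) .done) .done)) (.node 5 8 (.cons 0x9012678543 .nil) (.node 0 6 .nil (.node 1 8 (.cons 0x9054326781 (.cons 0x7812609543 .nil)) (.leaf 0x7609543218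 2 .done) (.node 6 9 (.cons 0x7896345210 .nil) (.node 7 9 (.cons 0x1234589760 .nil) (.node 5 7 (.cons 0x8906754321 .nil) (.node 1 5 (.cons 0x4321589760 .nil) (.node 3 5 (.cons 0x4358976012 .nil) .done .done) .done) (.leaf 0x6798543210 0 .done)) .done) .done)) .done) .done)) (.node 5 8 (.cons 0x7621098543 .nil) (.node 0 6 .nil (.node 1 7 (.cons 0x8905432671 (.cons 0x9871605234 .nil)) (.node 4 7 (.cons 0x9874361052 (.cons 0x9874325061 (.cons 0x5234789061 (.cons 0x5216098743 .nil)))) .done (.leaf 0x8712543609 0 .done)) (.node 2 9 (.cons 0x5436789210 .nil) (.node 0 2 .nil (.node 1 9 (.cons 0x9123458760 (.cons 0x7619850234 (.cons 0x4502367891 .nil))) (.leaf 0x4367891205 3 .done) (.node 2 8 .nil (.node 5 9 (.cons 0x8760954321 (.cons 0x7634598210 (.cons 0x3459067821 .nil))) .done .done) .done)) (.node 0 2 .nil (.node 1 9 (.cons 0x9123458760 (.cons 0x7619850234 .nil)) (.leaf 0x4367891205 3 .done) (.node 2 8 .nil (.node 5 9 (.cons 0x8760954321 (.cons 0x7634598210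 (.cons 0x3459067821 .nil))) .done .done) .done)) .done)) .done)) (.node 3 7 (.cons 0x1267345890 .nil) (.leaf 0x2673458901 1 (.leaf 0x6210985437 3 (.leaf 0x4589012673 4 .done))) .done)) .done))) (.leaf 0x125436789 1 (.node 5 8 (.cons 0x7634589012 .nil) (.node 0 6 .nil (.node 4 7 (.cons 0x9874325061 (.cons 0x5234789061 (.cons 0x5216098743 .nil))) (.node 1 8 (.cons 0x7456321890 (.cons 0x5476321890 .nil)) (.leaf 0x9052347618 1 .done) (.node 1 7 (.cons 0x6178905234 (.cons 0x9871605234 .nil)) (.node 0 4 (.cons 0x9854067123 (.cons 0x9854063217 .nil)) .done .done) .done)) (.node 1 8 (.cons 0x9067812345 .nil) (.node 2 6 .nil (.node 1 9 (.cons 0x9123458760 .nil) (.leaf 0x6234501987 0 (.leaf 0x2345091876 0 .done)) (.node 1 9 (.cons 0x1987623450 .nil) (.leaf 0x6234501987 0 (.node 3 5 (.cons 0x8760912354 .nil) (.node 7 9 (.cons 0x7981054362 .nil) (.node 4 7 (.cons 0x6347985210 .nil) (.leaf 0x9743625018 4 (.leaf 0x3625018974 3 (.node 2 9 (.cons 0x7634589210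 .nil) (.leaf 0x634792581 0 .done) (.leaf 0x6347981052 1 .done)))) (.node 4 8 (.cons 0x9784352610 .nil) (.leaf 0x3526109784 3 (.leaf 0x5348790162 1 .done)) (.leaf 0x978123456 0 .done))) .done) .done)) .done)) (.node 5 9 (.cons 0x8760954321 .nil) (.node 1 9 (.cons 0x9123458760 .nil) (.node 3 5 (.cons 0x9067812354 .nil) (.node 1 5 .nil (.node 0 4 (.cons 0x7632189045 .nil) (.leaf 0x3251678904 4 (.node 2 9 (.cons 0x7634589210 .nil) (.leaf 0x7609234518 2 (.leaf 0x8761504329 0 .done)) .done)) .done) .done) .done) (.leaf 0x7609543218 2 .done)) .done)) .done)) (.node 0 6 .nil (.node 4 7 (.cons 0x7436125890 (.cons 0x9874325061 (.cons 0x9061258743 (.cons 0x5234789061 (.cons 0x5216098743 .nil))))) .done (.node 5 9 (.cons 0x8760954321 .nil) (.node 1 9 (.cons 0x3458760912 .nil) (.node 2 6 .nil (.node 3 7 (.cons 0x9061258734 (.cons 0x8954376210 (.cons 0x4378509162 (.cons 0x6254378901 .nil)))) (.leaf 0x6210985437 3 .done) (.node 0 3 (.cons 0x4567890321 .nil) (.leaf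 0x4301267895 0 (.node 0 7 (.cons 0x6234507891 .nil) (.leaf 0x8916234507 1 .done) .done)) .done)) (.leaf 0x7609123458 2 .done)) .done) .done)) .done)) (.node 0 6 .nil (.node 1 7 (.cons 0x6178905234 (.cons 0x9871063452 (.cons 0x4523609871 .nil))) (.leaf 0x634521789 0 .done) (.node 5 8 (.cons 0x9067854321 .nil) (.node 1 8 (.cons 0x9067812345 .nil) (.node 5 7 (.cons 0x4361098752 .nil) (.node 1 5 .nil (.node 0 4 (.cons 0x9876150432 .nil) (.leaf 0x8904325167 1 (.leaf 0x3251678904 4 (.leaf 0x5409876321 0 .done))) (.node 1 9 (.cons 0x9123458760 .nil) (.node 3 5 (.cons 0x8760912354 .nil) .done .done) .done)) (.node 5 9 (.cons 0x8760954321 .nil) (.node 1 9 (.cons 0x9123458760 .nil) (.node 2 4 (.cons 0x1634257890 .nil) (.leaf 0x8190632457 1 (.leaf 0x9187542360 2 (.leaf 0x3610987524 1 .done))) .done) .done) .done)) (.node 5 9 (.cons 0x8760954321 .nil) (.node 1 9 (.cons 0x9123458760 .nil) (.node 6 8 (.cons 0x7860912345 .nil) (.node 6 9 (.cons 0x7854321960 .nil)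 .done .done) .done) (.leaf 0x7609543218 2 .done)) .done)) (.node 5 9 (.cons 0x8760954321 .nil) (.node 1 9 (.cons 0x3458760912 .nil) (.node 6 8 (.cons 0x7860912345 .nil) (.node 3 9 (.cons 0x7852160934 .nil) (.node 3 8 (.cons 0x7832190654 .nil) (.node 4 7 (.cons 0x9065478321 .nil) (.leaf 0x2587439061 2 (.leaf 0x1259347860 1 (.node 4 8 (.cons 0x7845609123 .nil) .done (.leaf 0x5609123874 2 .done)))) .done) .done) .done) (.leaf 0x7609123458 2 .done)) .done) .done)) (.node 6 9 .nil (.node 1 7 (.cons 0x6178905234 (.cons 0x2543698710 (.cons 0x8710963452 .nil))) (.node 5 8 (.cons 0x7609854321 .nil) (.leaf 0x4587690123 0 (.leaf 0x6098543217 2 .done)) .done) (.node 5 9 .nil (.node 2 6 (.cons 0x3459876210 (.cons 0x8762109543 .nil)) (.node 1 7 (.cons 0x6178905234 (.cons 0x8954321760 .nil)) (.leaf 0x543261789 0 (.node 4 7 (.cons 0x8906325471 (.cons 0x2598743610 (.cons 0x8743610952 (.cons 0x5261098743 (.cons 0x3478905261 .nil))))) .done .done)) .done) (.node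 6 8 .nil (.node 2 7 (.cons 0x6345278901 (.cons 0x3459867210 (.cons 0x8672109543 .nil))) (.node 1 4 (.cons 0x3214567890 (.cons 0x7259863410 (.cons 0x9014368725 (.cons 0x5098672341 .nil)))) (.leaf 0x6341095278 1 .done) (.leaf 0x987254361 2 .done)) (.node 4 6 (.cons 0x7890523461 .nil) (.node 2 6 .nil (.node 5 8 (.cons 0x7609854321 .nil) (.node 3 7 (.cons 0x9860125437 (.cons 0x8954376210 .nil)) (.leaf 0x2673458901 1 (.leaf 0x6210985437 3 .done)) .done) .done) .done) .done)) .done)) .done)) .done))) .done)))) .done))))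
noncomputable def tc9_5_2 : T := (.node 6 8 (.cons 0x7689054321 .nil) (.node 1 7 (.cons 0x2345098671 .nil) (.node 0 6 .nil (.node 4 7 (.cons 0x9861743250 (.cons 0x5234789061 (.cons 0x5216098743 .nil))) (.node 1 9 (.cons 0x5234786190 (.cons 0x7198605432 (.cons 0x3254786091 .nil))) (.leaf 0x3250689174 1 .done) .done) (.node 1 5 .nil (.node 0 2 (.cons 0x9867150234 .nil) (.leaf 0x4367890215 0 (.leaf 0x5176890234 0 .done)) (.node 3 5 .nil (.node 4 7 (.cons 0x9861743250 (.cons 0x9016874352 (.cons 0x6109874352 (.cons 0x6125347890 .nil)))) .done (.node 5 7 (.cons 0x8905761234 .nil) (.node 5 9 (.cons 0x8760954321 .nil) .done .done) .done)) .done)) .done)) (.node 0 6 .nil (.node 5 9 (.cons 0x8716095234 .nil) (.leaf 0x4598760123 0 (.leaf 0x954321786 4 .done)) (.node 2 6 (.cons 0x9017862543 .nil) (.node 3 7 (.cons 0x7345268901 .nil) (.leaf 0x2689017345 3 (.node 1 5 (.cons 0x8901543762 .nil) (.node 5 8 (.cons 0x2673458901 .nil) (.leaf 0x4589012673 4 .done)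 .done) .done)) .done) .done)) (.leaf 0x5098671234 2 .done))) (.node 6 9 (.cons 0x7896345210 .nil) (.node 2 6 .nil (.node 1 3 (.cons 0x7689054312 .nil) (.node 3 5 (.cons 0x7890162534 .nil) (.node 4 6 (.cons 0x7890164352 .nil) (.leaf 0x125346789 1 .done) .done) (.leaf 0x4310987625 0 (.leaf 0x4312678905 4 .done))) (.node 0 6 .nil (.node 1 7 (.cons 0x3450986712 (.cons 0x9068712543 .nil)) (.node 2 9 (.cons 0x5436789210 .nil) (.node 4 6 (.cons 0x5298710643 .nil) .done (.leaf 0x8925436017 4 .done)) (.leaf 0x8712543609 0 .done)) (.node 4 6 .nil (.node 0 7 (.cons 0x9870125436 (.cons 0x9870125463 .nil)) (.node 5 9 (.cons 0x8762109543 (.cons 0x8709523461 (.cons 0x8709521643 .nil))) .done (.leaf 0x3452107896 0 .done)) .done) .done)) .done)) (.node 5 9 .nil (.node 0 6 (.cons 0x8760954321 .nil) (.leaf 0x4598760123 0 .done) (.node 0 6 .nil (.node 4 7 (.cons 0x3478952160 (.cons 0x5234789061 (.cons 0x5216098743 .nil))) (.leaf 0x8743601259 4 (.leaf 0x3601259874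 3 .done)) (.node 2 6 .nil (.node 1 3 (.cons 0x7689054312 (.cons 0x8762134590 .nil)) (.leaf 0x4310987625 0 (.leaf 0x4312678905 4 .done)) (.node 4 6 .nil (.node 3 7 (.cons 0x9068734521 (.cons 0x8734612590 (.cons 0x7346890521 .nil))) (.node 0 2 (.cons 0x7896345201 (.cons 0x9873645201 .nil)) (.node 0 7 (.cons 0x4361259870 (.cons 0x9870125463 .nil)) .done .done) .done) .done) .done)) .done)) .done)) .done)) .done)) (.leaf 0x125436789 1 (.node 5 8 (.cons 0x7634589012 .nil) (.node 6 8 (.cons 0x7689054321 .nil) (.node 1 7 (.cons 0x2345098671 .nil) (.node 2 7 (.cons 0x9854367210 .nil) (.node 6 9 (.cons 0x8967123450 .nil) (.node 1 3 (.cons 0x1345278690 .nil) (.leaf 0x8725431096 0 (.leaf 0x8725431096 3 .done)) .done) (.leaf 0x1276345890 0 (.leaf 0x8634527109 3 .done))) (.node 1 5 .nil (.node 2 9 (.cons 0x7634589210 (.cons 0x8671543290 (.cons 0x8671509234 .nil))) (.leaf 0x1092543687 3 .done) .done) (.leaf 0x5098671234 2 .done))) (.node 6 9 .nil (.node 0 7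 (.cons 0x7098634521 (.cons 0x7012589634 .nil)) (.leaf 0x4589670123 3 (.node 1 7 (.cons 0x7125436890 (.cons 0x8967123450 (.cons 0x3452178690 .nil))) .done (.leaf 0x5436987012 3 .done))) (.node 5 9 .nil (.node 0 6 (.cons 0x8760954321 .nil) (.leaf 0x4598760123 0 .done) (.node 0 6 .nil (.node 5 7 (.cons 0x8905761234 (.cons 0x4325789061 .nil)) (.leaf 0x612345789 0 .done) (.node 1 8 (.cons 0x3459067812 .nil) (.node 4 8 (.cons 0x7612348905 .nil) (.node 1 5 (.cons 0x7615098432 .nil) (.node 1 7 (.cons 0x7125436890 .nil) (.leaf 0x4871609523 3 (.leaf 0x617843259 3 .done)) .done) .done) (.leaf 0x7609543218 2 .done)) .done)) .done)) .done)) .done)) (.node 5 9 .nil (.node 2 6 (.cons 0x3459876210 (.cons 0x8762109543 .nil)) (.node 3 7 (.cons 0x9016258734 (.cons 0x6254378901 .nil)) (.leaf 0x4589012673 0 (.leaf 0x2109873456 3 (.leaf 0x6210985437 0 .done))) .done) (.node 5 7 (.cons 0x8905761234 .nil) (.node 6 9 .nil (.node 0 4 (.cons 0x7852340961 (.cons 0x5789612340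 (.cons 0x1698752340 .nil))) (.leaf 0x1257896340 2 .done) (.node 0 4 (.cons 0x1698752340 .nil) (.leaf 0x5789610432 1 (.node 4 9 (.cons 0x3216578940 .nil) (.node 0 8 (.cons 0x5761234980 .nil) (.leaf 0x3216750894 1 (.node 1 9 (.cons 0x4576321980 .nil) (.node 3 9 (.cons 0x4576398012 .nil) (.node 0 3 (.cons 0x6754980321 .nil) (.node 0 6 (.cons 0x4065789321 .nil) .done (.leaf 0x8945761230 3 .done)) .done) (.leaf 0x2367540891 3 .done)) .done)) .done) (.leaf 0x8752340169 2 .done))) .done)) (.node 4 8 (.cons 0x7612348905 .nil) (.node 6 8 (.cons 0x7689054321 .nil) (.node 6 9 .nil (.node 0 3 (.cons 0x4567890321 (.cons 0x7869034521 (.cons 0x2169578430 (.cons 0x4309687521 (.cons 0x9610348752 .nil))))) .done (.node 0 6 .nil (.node 1 3 (.cons 0x7689054312 (.cons 0x2134598760 (.cons 0x8760954312 (.cons 0x9068754312 .nil)))) .done (.node 4 6 .nil (.node 3 8 (.cons 0x2164387590 (.cons 0x2578346901 .nil)) (.leaf 0x7521096438 3 .done) .done) .done)) .done)) .done)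 (.node 0 2 (.cons 0x6120957843 .nil) (.leaf 0x1634875902 4 (.leaf 0x9578436120 3 (.leaf 0x5902163487 1 .done))) (.leaf 0x1675098432 3 .done))) .done)) .done)) (.node 5 9 .nil (.node 2 6 (.cons 0x3459876210 (.cons 0x8762109543 .nil)) (.node 3 7 (.cons 0x6254378901 .nil) (.node 0 4 (.cons 0x3409587612 (.cons 0x6540987321 (.cons 0x4098732561 .nil))) (.leaf 0x9852167340 3 .done) (.leaf 0x2109873456 3 (.leaf 0x2673458901 1 (.leaf 0x6210985437 3 .done)))) .done) (.node 6 8 (.cons 0x7689054321 .nil) (.node 2 6 .nil (.node 3 7 (.cons 0x9867345012 (.cons 0x4378952610 (.cons 0x6254378901 .nil))) (.leaf 0x2673458901 1 (.leaf 0x6210985437 3 .done)) (.node 0 6 .nil (.node 1 7 (.cons 0x9867123450 (.cons 0x4325987160 (.cons 0x8716095234 .nil))) (.leaf 0x6098543217 2 .done) (.node 5 7 (.cons 0x4325789061 .nil) (.node 1 5 (.cons 0x7890615234 .nil) (.node 3 5 .nil (.node 2 4 (.cons 0x2435987610 (.cons 0x7612435890 .nil)) (.leaf 0x1678905342 3 .done) .done) .done)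 (.node 4 8 (.cons 0x7612348905 .nil) (.node 1 5 (.cons 0x7843261590 .nil) (.node 3 5 (.cons 0x7843590162 .nil) .done .done) (.leaf 0x6123489057 4 .done)) .done)) .done)) .done)) (.node 1 7 (.cons 0x2176345890 .nil) (.node 0 6 (.cons 0x4325987160 .nil) (.node 5 7 (.cons 0x8905761234 .nil) (.node 1 5 .nil (.node 0 2 (.cons 0x9854367120 (.cons 0x9867150234 .nil)) (.leaf 0x9021543678 0 .done) .done) .done) .done) (.node 2 7 (.cons 0x1276345890 .nil) (.leaf 0x6345890127 2 (.leaf 0x3689017254 3 (.leaf 0x6890172543 4 .done))) (.leaf 0x5098671234 2 .done))) .done)) .done)) .done))) (.node 0 6 .nil (.node 1 7 (.cons 0x8905432176 (.cons 0x9871063452 (.cons 0x4523609871 .nil))) (.leaf 0x634521789 0 .done) (.node 6 8 (.cons 0x7689054321 .nil) (.node 1 8 (.cons 0x9067812345 .nil) (.node 5 9 (.cons 0x8760954321 .nil) (.leaf 0x954321876 0 (.node 2 6 (.cons 0x7812609543 .nil) (.node 6 9 .nil (.node 0 7 (.cons 0x9867054321 .nil) (.leaf 0x3218967054 3 (.leaf 0x2189670543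 4 (.leaf 0x6954321870 4 .done))) .done) .done) .done)) (.node 5 9 (.cons 0x8760954321 .nil) (.node 5 8 (.cons 0x9067854321 .nil) (.node 2 6 .nil (.node 3 7 (.cons 0x9867345012 (.cons 0x4378952610 (.cons 0x9018736254 .nil))) (.leaf 0x6210985437 3 .done) (.node 3 7 (.cons 0x1267345890 .nil) (.node 1 7 (.cons 0x9867123450 .nil) (.node 5 7 (.cons 0x4361098752 .nil) .done .done) (.leaf 0x2673458901 1 (.leaf 0x6210985437 3 .done))) .done)) .done) (.leaf 0x7609543218 2 .done)) .done)) (.node 6 9 .nil (.node 2 7 (.cons 0x6345278901 (.cons 0x8967210543 (.cons 0x8725436901 .nil))) (.node 1 4 (.cons 0x3214567890 (.cons 0x5278963410 .nil)) (.leaf 0x2789014365 3 (.leaf 0x2789014365 0 (.leaf 0x3698725014 2 .done))) (.leaf 0x987254361 2 .done)) (.node 4 6 .nil (.node 3 7 (.cons 0x9068734521 (.cons 0x7346890521 .nil)) (.leaf 0x2109873465 3 (.leaf 0x125463789 0 .done)) (.node 2 6 .nil (.node 1 3 (.cons 0x7689054312 .nil) (.leaf 0x6213450987 1 (.node 3 7 (.cons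 0x9068734521 .nil) (.leaf 0x2109873456 3 (.node 5 8 (.cons 0x7346985210 (.cons 0x9850126734 (.cons 0x9013458762 .nil))) .done .done)) (.leaf 0x4310987625 0 (.leaf 0x4312678905 4 .done)))) .done) .done)) .done)) .done)) .done)) .done))))
noncomputable def tc9_5_3 : T := (.node 6 8 (.cons 0x7689054321 .nil) (.node 1 5 (.cons 0x7689051234 .nil) (.node 4 7 (.cons 0x9867432150 .nil) (.node 5 8 (.cons 0x7612345890 .nil) (.node 3 5 (.cons 0x9867435012 .nil) (.node 5 9 (.cons 0x1234768950 .nil) (.node 6 9 (.cons 0x9687435210 .nil) (.leaf 0x5347869012 1 .done) .done) .done) (.node 0 7 (.cons 0x3458907612 .nil) (.leaf 0x6123458907 3 (.leaf 0x1670985432 1 (.node 5 9 (.cons 0x1234768950 .nil) (.node 1 7 (.cons 0x5098671234 .nil) (.leaf 0x2345098671 1 (.node 2 6 (.cons 0x4362598710 .nil) (.node 2 7 (.cons 0x3472598610 .nil) .done .done) .done)) .done) (.leaf 0x9854321670 4 .done)))) .done)) (.leaf 0x2347689051 3 (.leaf 0x8674321509 3 (.node 1 7 (.cons 0x9863471250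 .nil) (.leaf 0x2345098671 1 (.leaf 0x5217436890 1 (.leaf 0x2509863471 3 .done))) .done)))) (.node 3 5 .nil (.node 2 4 (.cons 0x7689012435 .nil) (.leaf 0x1098763542 0 (.leaf 0x7890124356 3 (.leaf 0x7890124356 0 .done))) (.node 3 8 .nil (.node 2 6 (.cons 0x9012678345 .nil) (.node 1 3 (.cons 0x4531098762 .nil) (.leaf 0x4312678905 4 (.leaf 0x2678905431 3 .done)) .done) (.node 2 6 .nil (.node 4 7 (.cons 0x7456123890 (.cons 0x9012654783 (.cons 0x9015268743 (.cons 0x9051268347 .nil)))) (.leaf 0x2347689051 1 .done) (.node 5 9 (.cons 0x8762109543 .nil) (.node 0 6 (.cons 0x7834590621 .nil) (.node 6 9 (.cons 0x7896345210 .nil) .done .done) .done) .done)) .done)) .done)) .done)) (.node 1 7 (.cons 0x2345098671 .nil) (.node 6 9 (.cons 0x7896345210 .nil) (.node 0 6 .nil (.node 1 4 (.cons 0x3214567890 (.cons 0x7890654123 .nil)) (.leaf 0x3250698714 1 .done) (.node 2 6 .nil (.node 0 4 (.cons 0x8967123405 (.cons 0x5269871043 .nil)) (.node 1 3 (.cons 0x9013452687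 .nil) (.leaf 0x5409871326 3 (.leaf 0x4312678905 4 (.leaf 0x2678905431 3 .done))) .done) .done) .done)) (.node 4 6 .nil (.node 0 8 (.cons 0x3450896712 (.cons 0x7125089643 (.cons 0x9805467123 .nil))) (.leaf 0x5432176980 1 .done) (.node 0 6 (.cons 0x3452178960 .nil) (.node 2 6 .nil (.node 0 3 (.cons 0x6987125430 (.cons 0x1789625430 .nil)) (.leaf 0x2178960345 2 (.node 1 5 (.cons 0x7896215430 .nil) (.leaf 0x4309876215 0 (.leaf 0x7623451098 1 .done)) .done)) .done) .done) .done)) .done)) (.node 6 9 (.cons 0x7896345210 .nil) (.node 2 6 (.cons 0x9017862543 .nil) (.node 0 6 .nil (.node 1 4 (.cons 0x5234178690 (.cons 0x7890654123 .nil)) (.node 1 5 (.cons 0x4325178690 .nil) .done .done) .done) .done) (.node 5 9 .nil (.node 0 6 (.cons 0x8760954321 (.cons 0x4325906871 .nil)) (.leaf 0x4598760123 0 .done) (.node 3 8 (.cons 0x8345096712 .nil) (.node 2 6 (.cons 0x5438712690 .nil) (.leaf 0x9054387126 0 (.node 1 3 (.cons 0x2543178690 .nil) (.node 2 4 (.cons 0x3871245690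 .nil) (.leaf 0x3178690524 1 (.leaf 0x9017834265 1 (.leaf 0x1095624387 2 .done))) .done) .done)) (.node 0 8 (.cons 0x9634521780 .nil) (.leaf 0x4521780963 0 (.node 3 7 (.cons 0x9086173254 .nil) (.node 2 8 (.cons 0x8254371690 .nil) (.leaf 0x1673452890 0 .done) .done) .done)) .done)) .done)) .done)) (.leaf 0x9054321768 1 (.leaf 0x5098671234 2 .done)))) (.node 6 9 (.cons 0x7896345210 .nil) (.node 5 8 (.cons 0x7612345890 .nil) (.node 0 7 (.cons 0x9854321670 .nil) (.leaf 0x1254369870 3 (.node 3 7 (.cons 0x7345216890 .nil) (.leaf 0x2168907345 2 (.node 2 4 (.cons 0x7342589610 .nil) (.leaf 0x6985012437 1 (.leaf 0x3701698524 4 (.leaf 0x6985012437 2 .done))) .done)) (.node 1 5 .nil (.node 0 4 (.cons 0x7698504321 (.cons 0x9678512340 (.cons 0x5123698704 (.cons 0x4078963251 .nil)))) .done (.node 3 5 (.cons 0x8907612354 .nil) (.node 5 7 (.cons 0x4369875210 .nil) (.node 5 9 .nil (.node 0 4 (.cons 0x9678512340 .nil) (.leaf 0x6789540123 3 (.node 0 2 (.cons 0x5789634021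 (.cons 0x8759634021 (.cons 0x9512043687 .nil))) .done (.leaf 0x3678952104 0 .done))) .done) .done) .done) .done)) (.leaf 0x4321670985 3 .done)))) (.node 2 6 .nil (.node 1 3 (.cons 0x7689054312 (.cons 0x9013458762 .nil)) (.leaf 0x4312678905 4 (.leaf 0x2678905431 3 .done)) (.node 5 9 (.cons 0x8762109543 .nil) (.node 4 6 .nil (.node 5 7 (.cons 0x4369875210 (.cons 0x3469875210 (.cons 0x8752109643 .nil))) .done (.node 0 6 .nil (.node 1 7 (.cons 0x3450986712 (.cons 0x9068712543 (.cons 0x5234609871 (.cons 0x3254609871 .nil)))) (.node 1 3 (.cons 0x8762134590 (.cons 0x8760954312 (.cons 0x2598713460 .nil))) (.leaf 0x4609871325 3 .done) .done) .done) .done)) .done) .done)) .done)) (.node 5 9 .nil (.node 0 6 (.cons 0x8760954321 (.cons 0x7895210634 .nil)) (.leaf 0x4598760123 0 .done) (.node 7 9 (.cons 0x8976345012 .nil) (.node 4 6 .nil (.node 3 5 (.cons 0x1253468790 .nil) (.leaf 0x2109786435 0 (.leaf 0x4687901253 0 .done)) (.node 3 5 (.cons 0x1253468790 .nil)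 (.leaf 0x2109786435 0 (.leaf 0x4687901253 0 .done)) .done)) (.node 4 6 .nil (.node 1 8 (.cons 0x3218976450 (.cons 0x7981236450 (.cons 0x7643218905 (.cons 0x7645098123 .nil)))) (.node 0 6 (.cons 0x3459067812 .nil) (.leaf 0x7812345906 2 .done) .done) (.node 0 6 .nil (.node 1 4 (.cons 0x8976321450 (.cons 0x8976054123 (.cons 0x7890654123 .nil))) .done (.node 2 6 .nil (.node 1 3 (.cons 0x3125468790 (.cons 0x8762134590 .nil)) (.leaf 0x4312678905 4 (.leaf 0x2678905431 3 .done)) .done) .done)) .done)) .done)) .done)) .done)) .done))) (.leaf 0x125436789 1 (.node 4 7 (.cons 0x4789012563 .nil) (.leaf 0x2109874365 3 (.node 1 4 (.cons 0x3214567890 .nil) (.node 2 4 .nil (.node 3 7 (.cons 0x9873652410 .nil) (.leaf 0x8736524109 0 (.leaf 0x2109873654 3 .done)) (.node 3 7 (.cons 0x8901245673 .nil) (.node 3 8 (.cons 0x9837654210 .nil) (.node 5 9 (.cons 0x4783659012 .nil) (.leaf 0x3659012478 3 (.node 6 9 (.cons 0x7389654210 .nil) (.node 0 2 (.cons 0x5987634120 .nil)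 (.node 0 6 (.cons 0x7895214360 .nil) .done (.leaf 0x7836590214 1 (.leaf 0x6789502143 4 .done))) .done) .done)) (.node 2 9 (.cons 0x9256387410 .nil) (.leaf 0x7836529014 3 (.node 1 5 (.cons 0x6738924510 .nil) (.node 3 5 (.cons 0x8354761092 .nil) .done .done) .done)) .done)) (.node 2 8 (.cons 0x3765428901 .nil) (.leaf 0x1673452890 0 (.node 1 5 (.cons 0x4289015673 .nil) (.leaf 0x2890156734 4 .done) (.node 1 3 (.cons 0x8901376542 .nil) (.leaf 0x7654289013 4 (.leaf 0x982456731 3 .done)) .done))) .done)) .done)) (.node 0 4 (.cons 0x7890412365 .nil) (.node 5 7 (.cons 0x4123657890 .nil) (.leaf 0x3657890412 3 (.node 5 9 (.cons 0x8741236590 .nil) (.node 0 6 (.cons 0x8743609521 .nil) (.node 2 6 (.cons 0x4362578901 .nil) (.node 2 8 (.cons 0x1675432890 .nil) (.leaf 0x7610982345 1 (.leaf 0x6095782143 2 .done)) .done) .done) .done) (.leaf 0x9875632140 3 .done))) .done) .done)) (.node 2 6 (.cons 0x5263478901 .nil) (.node 2 8 (.cons 0x7436109825 .nil) (.node 3 5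 (.cons 0x9826743501 .nil) (.node 1 5 (.cons 0x9874362510 .nil) (.node 1 3 (.cons 0x4765098231 .nil) (.node 2 4 (.cons 0x3652478901 .nil) (.leaf 0x987425631 4 (.leaf 0x9013652478 3 .done)) .done) .done) (.leaf 0x167435289 1 (.node 5 9 (.cons 0x3459876210 .nil) (.node 1 3 (.cons 0x1347628950 .nil) (.leaf 0x8267431059 0 (.node 4 9 (.cons 0x7628943501 .nil) (.leaf 0x136528749 3 (.leaf 0x1094782563 1 .done)) (.leaf 0x8267431059 3 .done))) .done) .done))) (.node 3 7 (.cons 0x6109825473 .nil) (.leaf 0x2890163745 1 (.node 3 5 (.cons 0x1674532890 .nil) (.node 1 3 (.cons 0x5476132890 .nil) (.node 2 4 (.cons 0x9824763501 .nil) (.leaf 0x987425631 4 (.leaf 0x9013652478 3 .done)) .done) (.leaf 0x6109823547 0 .done)) .done)) .done)) (.node 0 6 .nil (.node 1 5 (.cons 0x6347890152 (.cons 0x9874360152 .nil)) (.node 5 7 (.cons 0x8901634752 (.cons 0x9875210634 (.cons 0x4360987521 .nil))) .done .done) (.node 6 9 .nil (.node 3 7 (.cons 0x6987345210 (.cons 0x8734521096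 .nil)) (.leaf 0x5437896012 3 .done) (.node 6 8 (.cons 0x7689054321 .nil) (.node 4 6 .nil (.node 1 5 (.cons 0x6347890152 .nil) (.node 2 9 (.cons 0x6347892510 (.cons 0x7892510643 (.cons 0x3647892510 .nil))) (.leaf 0x5106347892 3 .done) (.leaf 0x6478901523 2 .done)) .done) .done) .done)) .done)) .done)) (.leaf 0x2109874365 0 .done)))) (.node 2 7 (.cons 0x6345278901 .nil) (.node 6 9 (.cons 0x8967210543 .nil) (.node 0 6 (.cons 0x9872543601 .nil) (.node 1 9 (.cons 0x6345278910 .nil) (.leaf 0x3452789106 1 (.node 2 6 .nil (.node 0 4 (.cons 0x5278963401 (.cons 0x5401987263 .nil)) (.node 1 5 (.cons 0x4369872510 (.cons 0x3267891540 .nil)) (.leaf 0x7623451098 1 .done) .done) .done) .done)) .done) (.node 5 9 .nil (.node 0 6 (.cons 0x9872543601 (.cons 0x8760954321 .nil)) (.leaf 0x7895436012 2 .done) (.node 3 8 (.cons 0x1276983450 .nil) (.node 6 8 (.cons 0x7689054321 .nil) (.node 0 6 (.cons 0x9872543601 .nil) (.node 2 6 (.cons 0x9834501267 .nil) .done .done)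 .done) (.leaf 0x4501276983 1 (.node 4 6 (.cons 0x7259834610 .nil) (.leaf 0x3895012764 3 (.leaf 0x7643895012 4 .done)) .done))) .done)) .done)) (.node 6 9 (.cons 0x8725436901 .nil) (.node 1 5 (.cons 0x8725109634 .nil) (.node 0 2 (.cons 0x9876345102 .nil) (.node 2 9 (.cons 0x2987634510 .nil) (.leaf 0x6345102987 3 (.node 0 4 (.cons 0x7896340152 .nil) (.node 0 3 (.cons 0x4567890321 .nil) (.node 4 7 (.cons 0x4789651230 .nil) (.leaf 0x3216547890 1 (.leaf 0x6512304789 1 (.leaf 0x1569874032 2 .done))) .done) (.leaf 0x6340152789 3 (.node 0 7 (.cons 0x6987043251 .nil) (.leaf 0x2516987043 3 .done) .done))) .done)) (.node 2 9 (.cons 0x2987634510 .nil) (.leaf 0x6345102987 0 .done) .done)) (.node 3 5 .nil (.node 4 8 (.cons 0x5123487690 (.cons 0x7698435012 (.cons 0x4872109653 (.cons 0x2153487690 .nil)))) (.leaf 0x9012784356 3 .done) (.node 0 6 (.cons 0x7896012534 .nil) (.node 2 6 .nil (.node 0 4 (.cons 0x8769043215 (.cons 0x7896210435 (.cons 0x7896253401 .nil)))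 .done (.node 4 6 (.cons 0x7896435210 .nil) (.node 6 8 (.cons 0x7689054321 .nil) .done .done) .done)) .done) .done)) .done)) (.node 1 8 (.cons 0x1872543690 .nil) (.node 6 8 (.cons 0x7689054321 .nil) (.node 5 9 (.cons 0x4368725901 .nil) (.node 3 8 (.cons 0x9672183450 .nil) (.node 2 6 (.cons 0x6278345901 .nil) (.leaf 0x3459016278 2 .done) .done) .done) .done) (.leaf 0x3452781096 3 (.leaf 0x3452781096 0 (.node 3 7 (.cons 0x6732189054 .nil) (.node 1 7 (.cons 0x4509817632 .nil) (.node 2 4 (.cons 0x3769812450 .nil) (.node 7 9 (.cons 0x1897632450 .nil) (.leaf 0x6324501897 0 (.leaf 0x8105423679 0 .done)) (.node 5 9 (.cons 0x8109542763 .nil) (.node 5 7 (.cons 0x8901752436 .nil) (.node 5 8 (.cons 0x7612345890 .nil) (.leaf 0x1763425890 0 .done) .done) .done) .done)) .done) (.node 4 6 (.cons 0x7645098123 .nil) (.leaf 0x2189054673 2 (.leaf 0x2189054673 1 .done)) .done)) .done)))) .done)) (.leaf 0x3610987254 0 (.node 1 5 .nil (.node 0 4 (.cons 0x6327890451 (.cons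 0x8904516723 .nil)) (.leaf 0x9872361540 0 (.leaf 0x7651234098 0 .done)) (.node 0 2 (.cons 0x9876345102 .nil) (.node 0 6 .nil (.node 2 9 (.cons 0x2987634510 (.cons 0x7892510634 .nil)) (.leaf 0x6015432987 0 .done) (.node 0 7 (.cons 0x8907612345 .nil) (.node 0 3 (.cons 0x4567890321 .nil) (.node 0 4 (.cons 0x9876043215 .nil) .done .done) .done) .done)) (.node 2 9 (.cons 0x2987634510 .nil) (.leaf 0x6345102987 3 .done) .done)) (.node 3 5 .nil (.node 4 8 (.cons 0x7254890163 (.cons 0x1672354890 .nil)) (.leaf 0x5327610984 0 (.leaf 0x984536721 1 (.leaf 0x5489012763 4 .done))) (.node 5 8 (.cons 0x7612345890 .nil) (.node 5 7 .nil (.node 2 8 (.cons 0x9015436782 (.cons 0x7528901634 .nil)) (.leaf 0x1634572890 3 .done) (.node 5 9 .nil (.node 0 6 (.cons 0x8760954321 (.cons 0x4359876012 .nil)) (.leaf 0x4598760123 0 .done) .done) .done)) (.node 0 7 (.cons 0x3458907612 .nil) (.leaf 0x6123458907 3 (.leaf 0x1670985432 1 (.leaf 0x9854321670 4 .done))) .done)) .done))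 .done))) .done)))) .done))))
noncomputable def tc9_5_4 : T := (.node 1 5 .nil (.node 1 7 .nil (.node 0 6 (.cons 0x8906712345 (.cons 0x6098715234 .nil)) (.leaf 0x2178906543 0 .done) (.node 4 6 (.cons 0x6432517890 .nil) (.leaf 0x7643215098 0 (.node 0 7 (.cons 0x8907645123 (.cons 0x8907152346 .nil)) (.node 1 8 (.cons 0x5467098123 .nil) (.leaf 0x2189076543 0 .done) .done) (.node 0 6 (.cons 0x5217890643 (.cons 0x3460987152 .nil)) (.leaf 0x5178906432 3 (.leaf 0x5178906432 0 .done)) .done))) (.node 1 8 (.cons 0x9054321876 .nil) (.node 0 8 (.cons 0x9087612345 (.cons 0x9087615432 .nil)) (.node 5 9 (.cons 0x8761234590 .nil) (.node 0 7 (.cons 0x6708951432 .nil) (.node 4 9 (.cons 0x8709456123 (.cons 0x5167809432 .nil)) (.leaf 0x8094325167 1 (.leaf 0x876152349 3 .done)) .done) (.leaf 0x7612345908 1 (.leaf 0x7612345908 2 .done))) (.node 0 2 (.cons 0x6789023451 .nil) (.node 5 9 (.cons 0x9541678023 (.cons 0x8761209543 .nil)) (.node 1 9 (.cons 0x8761902345 .nil)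 (.node 3 9 (.cons 0x9321450876 (.cons 0x1456789320 .nil)) (.leaf 0x4567893201 3 .done) .done) .done) (.leaf 0x3451678902 2 (.node 0 6 (.cons 0x9876023415 .nil) (.node 3 9 (.cons 0x9321450876 (.cons 0x7608932145 (.cons 0x7893214560 (.cons 0x4156789320 .nil)))) (.leaf 0x8760125439 0 .done) (.node 4 6 (.cons 0x5120987643 .nil) (.leaf 0x7643215098 0 (.node 7 9 (.cons 0x9781465023 (.cons 0x7980641523 (.cons 0x8976023415 (.cons 0x8790251643 .nil)))) .done .done)) .done)) .done))) .done)) (.node 6 9 (.cons 0x8769054321 (.cons 0x8769051234 .nil)) (.leaf 0x543218769 0 (.node 2 8 (.cons 0x1543287690 .nil) (.leaf 0x6782341509 1 (.node 0 7 (.cons 0x9610782543 (.cons 0x8709615234 .nil)) (.leaf 0x8234510769 0 .done) (.leaf 0x7690514328 3 .done))) (.node 4 6 (.cons 0x7812509643 (.cons 0x9051876432 .nil)) (.node 0 7 (.cons 0x8709612543 (.cons 0x8907643215 (.cons 0x5189076432 .nil))) .done .done) .done))) .done)) .done))) (.node 5 9 (.cons 0x8761234590 .nil) (.node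 3 5 .nil (.node 0 8 (.cons 0x2345908761 (.cons 0x9087612354 .nil)) (.node 2 6 (.cons 0x7809543261 (.cons 0x2678953410 .nil)) (.node 0 2 (.cons 0x3459876201 (.cons 0x4359876201 .nil)) (.leaf 0x3598762014 2 (.node 2 8 (.cons 0x1678234590 (.cons 0x4359016782 .nil)) .done .done)) (.node 0 2 (.cons 0x6789534102 .nil) (.leaf 0x9534102678 0 (.leaf 0x9534102678 3 .done)) .done)) (.leaf 0x7612345908 1 (.node 2 9 (.cons 0x5432908761 (.cons 0x9235416780 .nil)) (.node 0 7 (.cons 0x3298076541 (.cons 0x6708923541 .nil)) (.node 2 4 (.cons 0x9807651423 .nil) (.leaf 0x7890124356 0 .done) .done) (.leaf 0x923451678 4 .done)) .done))) (.node 5 8 .nil (.node 0 6 (.cons 0x7609854321 (.cons 0x7609851234 .nil)) (.node 0 2 (.cons 0x9587614320 (.cons 0x3206789541 .nil)) (.node 1 7 (.cons 0x8716095234 (.cons 0x8954176023 .nil)) (.leaf 0x2178906543 0 .done) .done) (.node 1 7 (.cons 0x8906715432 (.cons 0x9061785234 .nil)) (.leaf 0x9854321760 2 .done) .done)) (.node 5 7 .nil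 (.node 0 6 (.cons 0x8906754321 (.cons 0x8906751234 .nil)) (.node 1 7 (.cons 0x8716095234 .nil) (.leaf 0x6098543217 2 .done) (.node 1 8 (.cons 0x7609815432 (.cons 0x9061875432 (.cons 0x9061875234 .nil))) (.leaf 0x5760981234 1 .done) .done)) .done) .done)) .done)) (.node 1 8 (.cons 0x9054321876 .nil) (.node 0 8 (.cons 0x3459087612 .nil) (.leaf 0x7612345908 2 (.node 6 9 (.cons 0x8769054321 .nil) (.node 3 9 (.cons 0x9321450876 .nil) (.node 4 9 (.cons 0x5490876123 .nil) (.node 4 6 (.cons 0x7809321645 .nil) (.node 4 8 (.cons 0x7845612390 .nil) .done .done) .done) (.leaf 0x541239678 0 (.node 3 5 (.cons 0x9087612354 .nil) (.node 4 9 (.cons 0x9453216780 .nil) (.leaf 0x2167809453 1 .done) .done) .done))) (.leaf 0x2345096781 3 (.node 1 3 (.cons 0x9678054132 .nil) (.node 3 9 (.cons 0x2396780541 .nil) (.leaf 0x4508769321 2 (.node 4 9 (.cons 0x5087694132 .nil) (.leaf 0x1325087694 1 .done) .done)) .done) .done))) (.node 1 3 .nil (.node 2 9 (.cons 0x5432908761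 (.cons 0x7654132980 (.cons 0x9231450876 .nil))) (.leaf 0x923451678 4 .done) (.node 3 8 (.cons 0x2167834590 .nil) (.node 5 8 .nil (.node 0 6 (.cons 0x7609854321 (.cons 0x7609851234 .nil)) (.node 0 3 (.cons 0x9876541230 .nil) (.leaf 0x6541230987 1 (.leaf 0x8954123067 0 .done)) .done) .done) .done) .done)) .done))) (.node 6 9 (.cons 0x8769054321 .nil) (.leaf 0x543218769 0 (.node 1 3 .nil (.node 2 8 (.cons 0x3412876950 (.cons 0x4312876950 .nil)) (.leaf 0x7690543128 4 .done) (.node 1 7 .nil (.node 0 6 (.cons 0x8906712345 (.cons 0x5234178960 .nil)) (.leaf 0x2178906543 0 .done) (.node 1 9 .nil (.node 5 8 (.cons 0x4321967850 (.cons 0x2341967850 .nil)) (.node 0 7 (.cons 0x6709851234 (.cons 0x2341589670 .nil)) (.leaf 0x2341690785 3 .done) .done) .done) .done)) .done)) (.node 1 7 .nil (.node 0 6 (.cons 0x9605234187 (.cons 0x8906712345 (.cons 0x5234178960 .nil))) .done (.node 7 9 (.cons 0x6978143250 .nil) (.node 0 7 .nil (.node 0 6 (.cons 0x8960714523 (.cons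 0x6078952143 .nil)) .done (.node 2 8 (.cons 0x6709823451 .nil) (.node 1 9 (.cons 0x1967823450 .nil) (.leaf 0x8234501967 0 .done) (.leaf 0x5167098234 0 .done)) .done)) .done) .done)) .done))) (.node 6 9 (.cons 0x8769054321 .nil) (.leaf 0x543218769 3 (.leaf 0x7690543218 4 (.leaf 0x5096781234 1 .done))) .done))) .done)) .done)) (.node 1 5 .nil (.node 2 6 (.cons 0x1543267890 .nil) (.node 0 3 (.cons 0x4567890321 .nil) (.node 5 8 (.cons 0x9854301267 .nil) (.node 5 7 (.cons 0x8903457621 .nil) (.leaf 0x6758901432 4 .done) (.node 3 9 (.cons 0x2167854390 (.cons 0x4390587621 .nil)) (.leaf 0x2105439876 1 (.leaf 0x587621439 1 .done)) .done)) (.leaf 0x4309876215 0 (.node 0 2 (.cons 0x6789023451 .nil) (.leaf 0x3451678902 2 (.node 0 7 (.cons 0x8907654123 .nil) (.node 2 8 (.cons 0x9823076514 (.cons 0x4156709823 .nil)) .done .done) .done)) (.leaf 0x9876541230 0 .done)))) (.node 3 9 (.cons 0x5439876210 (.cons 0x2678934510 .nil)) (.node 0 3 (.cons 0x4567890321 .nil)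 (.node 6 9 (.cons 0x8769054321 (.cons 0x8769051234 (.cons 0x7896215430 .nil))) (.node 0 7 (.cons 0x3452698701 (.cons 0x8709615234 (.cons 0x8934510762 .nil))) (.node 0 8 (.cons 0x9087612345 (.cons 0x7809615234 (.cons 0x9087615432 .nil))) .done .done) .done) (.leaf 0x1267890345 0 (.leaf 0x9876541230 0 .done))) (.leaf 0x2105439876 1 (.node 4 6 (.cons 0x7893462510 (.cons 0x8764390512 .nil)) (.leaf 0x7643215098 0 .done) .done))) (.leaf 0x9015432678 0 (.node 4 9 (.cons 0x8762349051 (.cons 0x8762150943 .nil)) (.node 3 8 (.cons 0x7654123890 (.cons 0x9438762105 (.cons 0x7832165490 (.cons 0x4905678321 (.cons 0x7834901625 .nil))))) .done (.node 0 7 (.cons 0x8907654123 (.cons 0x8907623415 .nil)) (.node 4 8 (.cons 0x5670984123 (.cons 0x9078432516 (.cons 0x9051267843 .nil))) (.leaf 0x7651234890 0 .done) (.node 3 6 (.cons 0x5436789012 (.cons 0x6321549870 (.cons 0x8907632154 (.cons 0x8709451632 .nil)))) .done .done)) .done)) .done)))) (.node 0 7 (.cons 0x8907654123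 .nil) (.node 3 8 (.cons 0x7654123890 .nil) (.leaf 0x2145670983 3 (.leaf 0x1238907654 1 (.node 1 7 .nil (.node 4 6 (.cons 0x7146523890 (.cons 0x9052178346 .nil)) (.leaf 0x5238907146 3 (.leaf 0x2564170983 1 .done)) (.node 1 8 (.cons 0x9054321876 .nil) (.node 1 3 .nil (.node 4 8 (.cons 0x5670984123 (.cons 0x5670984132 .nil)) (.node 3 5 (.cons 0x9841235670 .nil) (.leaf 0x7653214890 3 (.node 2 4 (.cons 0x8907653241 .nil) (.leaf 0x3567098142 1 .done) .done)) (.leaf 0x984132567 3 .done)) .done) .done) .done)) (.node 1 7 (.cons 0x6523890714 .nil) (.node 4 6 (.cons 0x7098325641 .nil) (.node 2 6 (.cons 0x5417623890 .nil) (.node 0 2 (.cons 0x9832076514 .nil) (.node 4 9 (.cons 0x9451678320 .nil) (.leaf 0x3894156702 1 (.leaf 0x6783209451 1 (.leaf 0x8761549023 2 .done))) .done) (.leaf 0x3267145098 0 .done)) (.leaf 0x983256417 1 (.leaf 0x983256417 2 .done))) .done) .done)))) (.node 5 8 (.cons 0x6709854123 .nil) (.node 1 7 .nil (.node 0 2 (.cons 0x9023458761 (.cons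 0x4176589023 .nil)) (.leaf 0x9856714320 1 .done) (.node 0 2 (.cons 0x9023458761 .nil) (.leaf 0x9856714320 1 (.node 1 3 (.cons 0x6709854132 .nil) (.node 1 8 (.cons 0x9054321876 .nil) (.node 1 9 (.cons 0x2345876190 .nil) .done .done) .done) .done)) .done)) (.node 1 7 .nil (.node 0 6 (.cons 0x3458906712 .nil) (.leaf 0x2178906543 0 (.leaf 0x1760985432 1 (.leaf 0x9854321760 4 .done))) (.node 0 2 (.cons 0x9021678543 .nil) (.node 1 3 .nil (.node 2 6 (.cons 0x9058762134 .nil) (.leaf 0x985431762 2 (.node 6 9 (.cons 0x8769054321 (.cons 0x7896254310 (.cons 0x8769054312 .nil))) (.leaf 0x2543107896 3 (.leaf 0x8701345269 4 .done)) .done)) (.node 0 3 (.cons 0x4567890321 .nil) (.node 5 7 (.cons 0x6758903412 .nil) (.node 3 5 (.cons 0x6712098534 .nil) (.node 3 9 (.cons 0x2167854390 .nil) (.leaf 0x4587612093 1 .done) .done) .done) (.leaf 0x9876541230 0 .done)) .done)) (.node 5 7 (.cons 0x6758902143 .nil) (.node 3 5 (.cons 0x9021678534 .nil) (.node 5 9 (.cons 0x8761234590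 .nil) .done .done) .done) .done)) .done)) .done)) (.node 1 3 (.cons 0x8907654132 .nil) (.node 1 8 (.cons 0x9054321876 .nil) (.node 3 5 (.cons 0x4189076532 .nil) (.node 2 4 (.cons 0x4235670981 .nil) (.leaf 0x6709814235 1 (.leaf 0x6709814235 2 .done)) (.node 3 8 (.cons 0x7654123890 .nil) (.node 2 8 (.cons 0x3289076541 .nil) (.node 0 4 (.cons 0x9045328761 .nil) (.node 0 8 (.cons 0x9087612345 .nil) .done .done) .done) .done) .done)) (.node 6 9 (.cons 0x8769054321 .nil) (.leaf 0x543218769 3 (.leaf 0x7690543218 4 (.leaf 0x5096781234 1 (.node 2 8 (.cons 0x3450967821 .nil) (.leaf 0x6907825431 4 (.node 0 4 (.cons 0x9678215043 .nil) (.node 0 8 (.cons 0x7809612543 .nil) .done .done) .done)) .done)))) .done)) (.node 0 4 .nil (.node 4 6 (.cons 0x9870465231 (.cons 0x7890465231 (.cons 0x7890465213 .nil))) .done (.node 4 8 (.cons 0x5670984132 .nil) (.node 0 3 (.cons 0x4567890321 .nil) (.node 0 6 (.cons 0x9841325607 .nil) (.node 0 2 (.cons 0x9841320765 .nil) (.node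 0 8 (.cons 0x9087612345 .nil) .done .done) .done) .done) (.leaf 0x3148907652 3 (.leaf 0x984132567 3 .done))) .done)) .done)) .done))) .done)) (.node 0 3 (.cons 0x4567890321 .nil) (.leaf 0x2145678903 4 (.node 1 8 (.cons 0x9054321876 .nil) (.node 4 8 (.cons 0x9032165487 .nil) (.node 3 8 .nil (.node 0 4 (.cons 0x7654098321 .nil) (.node 1 9 (.cons 0x7845619032 (.cons 0x7840916523 (.cons 0x6783219054 .nil))) (.leaf 0x2304567891 0 .done) .done) (.node 0 8 (.cons 0x9087612345 .nil) (.node 2 8 .nil (.node 3 9 (.cons 0x5439016782 .nil) (.leaf 0x7821093456 0 (.node 4 9 (.cons 0x4905678321 (.cons 0x7821654903 .nil)) .done .done)) .done) .done) .done)) (.node 5 8 .nil (.node 4 9 (.cons 0x5876123490 .nil) (.leaf 0x3216785094 1 (.node 0 6 (.cons 0x7890654123 (.cons 0x7609854321 (.cons 0x9432185067 .nil))) (.node 0 7 (.cons 0x3218945670 (.cons 0x9432185076 (.cons 0x8549076123 .nil))) .done .done) (.node 1 7 (.cons 0x8716549032 (.cons 0x6178523490 (.cons 0x6178549032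 .nil))) .done .done))) (.node 2 9 (.cons 0x1678543290 .nil) (.node 5 9 (.cons 0x8761234590 .nil) (.node 3 8 (.cons 0x2167834590 .nil) (.node 0 4 (.cons 0x5904387612 .nil) (.leaf 0x9521678340 4 (.leaf 0x8340952167 1 .done)) .done) .done) (.leaf 0x6785432901 2 (.node 3 7 (.cons 0x6145873290 .nil) (.leaf 0x8456129037 3 (.node 6 8 (.cons 0x9012543786 .nil) (.node 2 8 .nil (.node 3 8 (.cons 0x9012837654 .nil) .done .done) .done) (.leaf 0x921654873 4 (.leaf 0x4873092165 1 .done)))) .done))) .done)) .done)) (.node 4 9 (.cons 0x4905678123 .nil) (.node 0 4 .nil (.node 3 5 (.cons 0x7653218940 (.cons 0x7653218904 .nil)) (.node 0 8 (.cons 0x9087612354 .nil) (.leaf 0x5321678094 1 .done) (.leaf 0x4098761235 3 .done)) (.node 0 8 (.cons 0x9087612345 .nil) (.node 3 8 (.cons 0x7612380945 .nil) (.node 0 7 (.cons 0x1238945670 .nil) (.leaf 0x8945670123 3 .done) (.node 3 9 (.cons 0x7816523904 .nil) (.node 2 8 (.cons 0x7823904165 .nil) (.node 4 8 (.cons 0x4876509321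 .nil) (.leaf 0x5093214876 2 .done) .done) .done) .done)) .done) .done)) (.leaf 0x8765094321 1 (.node 3 8 (.cons 0x7830945612 .nil) (.node 4 8 (.cons 0x9032165487 .nil) (.node 0 8 (.cons 0x9087612345 .nil) (.node 2 8 (.cons 0x7821654903 .nil) .done .done) .done) (.node 4 8 (.cons 0x9032165487 .nil) (.node 0 8 (.cons 0x9087612345 .nil) (.node 2 8 (.cons 0x7821654903 .nil) .done .done) .done) .done)) .done))) (.node 6 9 (.cons 0x8769054321 .nil) (.leaf 0x543218769 3 (.leaf 0x7690543218 4 (.leaf 0x5096781234 1 (.node 0 8 (.cons 0x7809612543 .nil) (.node 2 8 (.cons 0x3450967821 .nil) (.node 3 8 (.cons 0x7834521690 .nil) (.node 4 8 (.cons 0x9032165487 .nil) (.node 5 8 (.cons 0x7854309612 .nil) .done .done) .done) .done) (.node 5 9 (.cons 0x8761234590 .nil) (.leaf 0x4321678095 1 (.node 0 4 .nil (.node 3 7 (.cons 0x8734521690 (.cons 0x6904521873 (.cons 0x6187325904 (.cons 0x3781690452 .nil)))) (.leaf 0x4521690873 1 .done) (.node 4 9 .nil (.node 1 7 (.cons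 0x8904567123 (.cons 0x6549871230 (.cons 0x4908716523 .nil))) .done .done) .done)) .done)) .done)) .done)))) .done))) (.leaf 0x8903214567 1 (.leaf 0x9876541230 3 .done)))) .done)))
noncomputable def tc9_5_5 : T := (.node 2 6 (.cons 0x1543267890 .nil) (.node 3 7 (.cons 0x9873452610 .nil) (.leaf 0x8734526109 0 (.leaf 0x2109873456 3 (.node 6 9 (.cons 0x8769051234 (.cons 0x8734526901 .nil)) (.node 1 8 (.cons 0x9054321876 .nil) (.node 1 9 (.cons 0x4562378190 .nil) (.leaf 0x2345091876 3 (.leaf 0x2345091876 0 .done)) (.leaf 0x543218769 0 (.leaf 0x5269018734 1 .done))) (.node 1 8 (.cons 0x5437812690 .nil) (.leaf 0x2543781096 0 (.leaf 0x2543781096 3 .done)) .done)) (.node 4 6 (.cons 0x5264378901 .nil) (.leaf 0x987346251 0 (.leaf 0x987346251 3 (.node 0 2 (.cons 0x5120987643 .nil) (.leaf 0x3461520987 1 (.leaf 0x5167890234 0 .done)) .done))) .done)))) (.node 0 2 (.cons 0x9876154320 .nil) (.node 3 9 (.cons 0x8762109345 (.cons 0x5439876102 .nil)) (.leaf 0x4520167893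 0 (.leaf 0x1205439876 1 (.leaf 0x8761025439 0 .done))) (.node 6 8 (.cons 0x7689023451 (.cons 0x7689021543 .nil)) (.node 1 7 (.cons 0x5432176890 .nil) (.node 3 9 (.cons 0x8762109345 (.cons 0x4568712390 (.cons 0x7862543901 .nil))) (.leaf 0x5439017862 1 (.node 0 4 (.cons 0x9045687123 (.cons 0x4093256871 .nil)) (.leaf 0x7123904568 2 .done) .done)) (.leaf 0x6712345098 0 (.leaf 0x2098671543 2 .done))) (.node 4 7 (.cons 0x9015268743 (.cons 0x5120986743 .nil)) (.leaf 0x6743215098 0 (.node 5 9 (.cons 0x1598674320 (.cons 0x3476895120 .nil)) (.node 0 3 (.cons 0x4567890321 .nil) (.leaf 0x8674302159 4 (.node 0 4 (.cons 0x8956740321 (.cons 0x9874032156 .nil)) (.leaf 0x5986740321 1 .done) (.leaf 0x4768952103 0 .done))) .done) (.node 0 6 (.cons 0x9068743251 .nil) (.node 3 9 (.cons 0x4786521093 (.cons 0x4786512390 (.cons 0x6874390152 .nil))) (.leaf 0x4521067893 0 (.leaf 0x8760125439 0 .done)) .done) .done))) .done)) (.node 0 3 (.cons 0x4567890321 .nil) (.leaf 0x4512678903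 2 (.node 0 7 (.cons 0x9870321654 .nil) (.node 4 6 (.cons 0x9870321645 (.cons 0x8907645123 (.cons 0x5120987643 .nil))) (.node 1 8 (.cons 0x9078154623 (.cons 0x9051876432 (.cons 0x9032645187 .nil))) .done .done) (.node 4 9 (.cons 0x7894561230 (.cons 0x8943207615 (.cons 0x5167894320 (.cons 0x6152078943 .nil)))) (.leaf 0x6549870321 1 .done) .done)) (.node 2 9 (.cons 0x5430167892 (.cons 0x4516789230 .nil)) (.leaf 0x6154302987 3 .done) .done))) (.leaf 0x5167890234 0 .done)))) (.leaf 0x9015432678 0 (.node 3 6 (.cons 0x5436789012 (.cons 0x7890152634 .nil)) (.leaf 0x125436789 1 (.node 3 5 (.cons 0x4351098762 .nil) (.node 0 4 (.cons 0x9876210435 .nil) (.leaf 0x1267890435 2 (.leaf 0x1267890435 1 (.node 0 7 (.cons 0x9870432516 (.cons 0x8907632154 .nil)) (.node 0 6 (.cons 0x9870612345 .nil) .done .done) .done))) .done) .done)) .done)))) (.node 1 4 (.cons 0x3214567890 .nil) (.node 3 6 (.cons 0x5436789012 .nil) (.leaf 0x125436789 1 (.node 1 7 .nil (.node 0 6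 (.cons 0x8906715432 .nil) (.leaf 0x2178906543 0 (.leaf 0x2178906345 1 .done)) (.node 1 8 (.cons 0x9054321876 .nil) (.node 1 3 .nil (.node 6 9 (.cons 0x8769054321 (.cons 0x8769054312 .nil)) (.leaf 0x2345096781 3 (.node 6 8 (.cons 0x5234178690 (.cons 0x4317869052 .nil)) (.leaf 0x9052341786 0 .done) .done)) .done) (.node 6 9 (.cons 0x8769054321 .nil) (.leaf 0x7690543218 4 (.leaf 0x5096781234 1 (.node 4 6 (.cons 0x9054678123 .nil) (.node 0 6 (.cons 0x5234609871 .nil) (.node 6 8 (.cons 0x7152346890 .nil) .done .done) .done) .done))) .done)) (.node 1 8 (.cons 0x9054321876 .nil) (.node 0 7 (.cons 0x7098123654 .nil) (.node 0 6 .nil (.node 4 8 (.cons 0x4890765123 (.cons 0x9843251607 (.cons 0x7125489063 .nil))) (.leaf 0x7651234890 0 .done) (.node 4 6 (.cons 0x3254609871 .nil) (.node 6 9 (.cons 0x8769054321 .nil) (.leaf 0x2345096781 3 .done) .done) .done)) (.node 1 9 .nil (.node 2 6 (.cons 0x8907623451 .nil) (.leaf 0x9054326781 0 (.leaf 0x1987054326 4 .done))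 (.node 0 4 (.cons 0x4078916523 .nil) (.leaf 0x9165234078 3 (.node 1 3 (.cons 0x9870456132 .nil) .done .done)) .done)) .done)) (.node 1 9 .nil (.node 4 6 (.cons 0x5091876432 .nil) (.node 0 3 (.cons 0x4567890321 (.cons 0x9871645230 .nil)) (.leaf 0x4617890325 0 (.leaf 0x2178903645 1 .done)) (.node 0 3 (.cons 0x4567890321 (.cons 0x8765419032 .nil)) (.node 6 8 (.cons 0x9032145687 (.cons 0x7865419032 .nil)) .done (.leaf 0x2178903645 1 .done)) .done)) (.node 1 3 .nil (.node 4 6 (.cons 0x6452317890 .nil) (.node 0 3 (.cons 0x9871645230 .nil) (.leaf 0x4617890325 0 (.leaf 0x2178903645 1 .done)) (.node 0 3 (.cons 0x7890312564 .nil) (.node 4 7 (.cons 0x9874561230 .nil) (.leaf 0x6478903125 4 (.leaf 0x9874652130 1 .done)) (.leaf 0x9876452130 3 .done)) .done)) .done) .done)) .done)) .done))) (.node 4 7 (.cons 0x4789012563 .nil) (.leaf 0x2109874365 3 (.node 1 3 (.cons 0x4789013652 .nil) (.node 2 4 (.cons 0x3652478901 .nil) (.node 2 6 (.cons 0x1326547890 .nil) (.node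 5 9 (.cons 0x5987634210 .nil) (.node 3 8 (.cons 0x2678345901 .nil) (.leaf 0x6783459012 1 (.node 2 9 (.cons 0x5298743610 .nil) (.leaf 0x4567832901 2 (.leaf 0x1092654783 3 (.leaf 0x1634789250 1 .done))) .done)) (.node 0 2 (.cons 0x3459876120 .nil) (.leaf 0x4561320987 1 (.leaf 0x4789520163 2 (.leaf 0x8743610259 1 .done))) .done)) (.leaf 0x9874562310 0 .done)) (.leaf 0x9013652478 3 .done)) .done) (.leaf 0x2109874365 0 .done))) (.node 3 5 .nil (.node 2 4 (.cons 0x4210987653 .nil) (.node 1 3 (.cons 0x7890136542 (.cons 0x7890136524 .nil)) .done (.leaf 0x7890124356 3 (.node 2 9 (.cons 0x7892543610 (.cons 0x8763541092 .nil)) (.node 4 6 (.cons 0x8764350921 .nil) (.leaf 0x7892105346 0 .done) .done) .done))) (.node 3 8 .nil (.node 2 9 (.cons 0x7892543610 (.cons 0x7836529014 .nil)) (.leaf 0x4567832901 2 (.leaf 0x7834509216 1 .done)) (.node 0 6 (.cons 0x9065412387 .nil) (.node 0 3 (.cons 0x4567890321 .nil) (.node 1 3 .nil (.node 0 8 (.cons 0x9087654123 (.cons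 0x9087654132 .nil)) (.node 3 9 (.cons 0x8765412390 .nil) (.leaf 0x4123908765 2 .done) .done) .done) .done) (.node 0 3 (.cons 0x4567890321 .nil) (.node 3 9 (.cons 0x8765412390 .nil) (.node 1 3 .nil (.node 2 4 (.cons 0x9876012435 .nil) (.leaf 0x6542130987 1 (.leaf 0x9876542310 0 .done)) .done) .done) .done) .done)) (.node 3 7 .nil (.node 2 4 (.cons 0x9014256387 (.cons 0x8901245673 .nil)) (.leaf 0x8736542109 1 .done) (.node 6 8 (.cons 0x9012543786 .nil) (.node 2 8 (.cons 0x7634510982 .nil) (.node 2 7 (.cons 0x9827634510 .nil) (.leaf 0x1543672890 0 (.leaf 0x1543672890 3 .done)) (.node 2 7 (.cons 0x9872543610 .nil) (.leaf 0x1543672890 1 (.node 2 9 (.cons 0x9287635410 .nil) (.leaf 0x6354109287 0 .done) .done)) .done)) .done) .done)) .done))) .done)) .done)))) (.node 0 3 (.cons 0x4567890321 .nil) (.leaf 0x2145678903 4 (.node 1 8 (.cons 0x9054321876 .nil) (.node 4 9 (.cons 0x7894561230 .nil) (.node 0 4 .nil (.node 3 5 (.cons 0x7653218940 .nil) (.leaf 0x2167890453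 0 (.leaf 0x4098761235 0 .done)) (.node 1 9 (.cons 0x7891654032 .nil) (.node 1 7 (.cons 0x9871654032 .nil) (.node 2 9 (.cons 0x7892304561 .nil) (.leaf 0x6540329871 0 .done) .done) .done) .done)) (.leaf 0x8765094321 1 (.node 6 9 (.cons 0x8769054321 .nil) (.leaf 0x543218769 0 (.node 3 8 (.cons 0x7834961250 .nil) (.node 0 7 (.cons 0x6943870521 .nil) (.leaf 0x8705694123 4 (.leaf 0x5216943870 1 (.leaf 0x6507832149 1 .done))) (.node 2 7 (.cons 0x1694387250 .nil) (.leaf 0x3872501694 1 (.leaf 0x8349610527 3 (.node 6 8 (.cons 0x2768349051 .nil) (.leaf 0x512768349 1 .done) (.leaf 0x5278349610 4 .done)))) .done)) (.node 5 9 .nil (.node 0 7 (.cons 0x3078945612 (.cons 0x8705961432 (.cons 0x6123078954 .nil))) (.leaf 0x5078169432 0 .done) .done) .done))) .done))) (.node 6 9 (.cons 0x8769054321 .nil) (.leaf 0x543218769 3 (.leaf 0x7690543218 4 (.leaf 0x5096781234 1 (.node 5 9 .nil (.node 0 6 (.cons 0x7890654123 .nil) (.leaf 0x9543218760 3 (.leaf 0x7812345906 4 (.leaf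 0x5906781234 1 .done))) (.node 4 9 (.cons 0x7894561230 .nil) (.node 3 9 (.cons 0x6781239054 .nil) (.node 1 9 .nil (.node 0 4 (.cons 0x7891654032 .nil) (.node 0 2 (.cons 0x7618954023 (.cons 0x7895614023 (.cons 0x3204598761 .nil))) .done .done) .done) .done) .done) .done)) .done)))) .done)) (.leaf 0x8903214567 1 (.leaf 0x9876541230 3 .done)))) .done)) .done))
noncomputable def tc9_5_6 : T := (.node 1 6 (.cons 0x5432167890 .nil) (.node 1 5 .nil tc9_5_5 (.node 1 4 (.cons 0x3214567890 .nil) tc9_5_4 (.node 1 5 .nil (.node 0 7 (.cons 0x8907612345 (.cons 0x8907615432 .nil)) (.node 4 8 (.cons 0x5167098432 .nil) (.leaf 0x984325167 1 (.leaf 0x7651234890 0 (.node 6 9 (.cons 0x8769054321 (.cons 0x8769051234 .nil)) (.leaf 0x3215096784 0 (.node 2 8 (.cons 0x3450967821 .nil) (.leaf 0x3451670982 0 (.node 3 7 (.cons 0x7321654890 .nil) (.leaf 0x5128437690 2 (.leaf 0x2150967348 1 (.leaf 0x6548907321 0 .done))) (.leaf 0x9076154328 0 .done))) .done)) (.leaf 0x9076152348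 3 .done)))) (.node 0 2 (.cons 0x6789023451 .nil) (.leaf 0x9023451678 0 (.node 6 9 (.cons 0x8769054321 (.cons 0x8769051234 .nil)) (.node 1 8 (.cons 0x7698154320 .nil) (.leaf 0x5189670234 4 (.leaf 0x3209678154 0 (.leaf 0x5096781234 1 .done))) (.node 3 8 (.cons 0x7698345120 (.cons 0x4387690512 (.cons 0x4516709832 .nil))) (.node 1 7 (.cons 0x5438967120 (.cons 0x6905217834 .nil)) (.node 4 6 (.cons 0x3870964521 (.cons 0x7098325461 .nil)) (.leaf 0x7643215098 0 (.leaf 0x3871250964 3 .done)) .done) (.node 2 6 (.cons 0x7834509621 (.cons 0x7834512690 .nil)) (.leaf 0x1543870962 3 (.leaf 0x9621543870 4 .done)) .done)) .done)) (.node 1 4 (.cons 0x3214567890 .nil) (.leaf 0x7890234156 1 (.node 6 9 (.cons 0x8769054321 (.cons 0x8769051234 (.cons 0x8769023415 .nil))) (.node 5 8 (.cons 0x3415876902 .nil) (.leaf 0x4158769023 1 (.node 3 8 (.cons 0x4387690512 (.cons 0x5143876902 .nil)) (.leaf 0x9678345120 2 (.node 0 4 (.cons 0x7045216983 (.cons 0x3896704512 .nil)) (.leaf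 0x5123896704 3 (.leaf 0x7698321540 4 .done)) (.node 2 6 (.cons 0x7834509621 (.cons 0x7834512690 .nil)) (.leaf 0x1543870962 3 .done) .done))) .done)) .done) (.node 0 6 (.cons 0x7890654123 .nil) (.node 1 9 (.cons 0x2345198760 .nil) (.node 0 3 (.cons 0x4567890321 .nil) (.leaf 0x2145678903 4 (.node 4 7 (.cons 0x6547890321 (.cons 0x4789156032 (.cons 0x8743251906 (.cons 0x6514789023 .nil)))) (.leaf 0x5160987432 0 .done) .done)) (.leaf 0x6789154320 2 .done)) .done) .done))) .done))) .done)) (.node 1 4 (.cons 0x3214567890 .nil) (.node 5 8 (.cons 0x7612345890 .nil) (.node 3 5 .nil (.node 0 7 (.cons 0x2345890761 (.cons 0x8907612354 .nil)) (.node 2 9 (.cons 0x4329851670 (.cons 0x6785341092 (.cons 0x8532907614 .nil))) (.node 2 4 (.cons 0x6701589243 .nil) (.leaf 0x7890124356 3 .done) .done) (.node 4 8 (.cons 0x7612354890 .nil) (.node 1 3 (.cons 0x7098456132 (.cons 0x9078413256 .nil)) .done (.leaf 0x5321670984 3 (.leaf 0x3548907612 1 (.leaf 0x9845321670 4 .done))))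 .done)) (.node 5 9 .nil (.node 0 6 (.cons 0x4321598760 .nil) (.leaf 0x4598760123 0 (.node 0 2 (.cons 0x9876023451 (.cons 0x6785902341 .nil)) (.leaf 0x3415987602 4 (.leaf 0x6789514320 3 .done)) .done)) (.node 5 7 .nil (.node 6 9 (.cons 0x8769054321 .nil) (.node 0 8 (.cons 0x9087654123 (.cons 0x7580961432 (.cons 0x9085761432 (.cons 0x8096753214 .nil)))) .done (.node 0 8 (.cons 0x9087654123 (.cons 0x6908752341 .nil)) (.leaf 0x3416908752 1 (.node 1 3 (.cons 0x6908754132 (.cons 0x6908752314 .nil)) (.node 2 6 (.cons 0x7896254310 (.cons 0x8762134590 (.cons 0x8752690143 .nil))) (.leaf 0x7809543126 0 .done) .done) .done)) .done)) .done) .done)) .done)) (.node 0 7 (.cons 0x3458907612 .nil) (.leaf 0x1670985432 1 (.node 1 7 .nil (.node 0 6 (.cons 0x3458906712 .nil) (.leaf 0x2178906543 0 (.leaf 0x1760985432 1 (.leaf 0x9854321760 4 .done))) (.node 5 7 .nil (.node 6 8 (.cons 0x4325716890 .nil) (.leaf 0x2168907543 1 (.leaf 0x1234570986 3 (.node 6 9 (.cons 0x8769054321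 (.cons 0x1432578690 (.cons 0x3412578690 .nil))) .done .done))) (.node 3 5 (.cons 0x8907612354 .nil) (.node 5 9 .nil (.node 0 6 (.cons 0x4358906712 (.cons 0x4321598760 (.cons 0x8714325906 .nil))) .done .done) .done) .done)) .done)) (.leaf 0x9854321670 4 .done))) .done)) (.node 0 3 (.cons 0x4567890321 .nil) (.leaf 0x2145678903 4 (.node 0 6 (.cons 0x7890654123 .nil) (.node 4 9 (.cons 0x5123498760 .nil) (.node 0 4 (.cons 0x9876043215 .nil) (.node 0 7 (.cons 0x8907612345 .nil) (.node 0 8 (.cons 0x6708945123 .nil) .done .done) .done) (.node 0 7 (.cons 0x6078943251 .nil) (.leaf 0x5234987061 1 (.leaf 0x5234987061 2 .done)) (.leaf 0x1506789432 0 .done))) (.node 1 9 (.cons 0x2345198760 .nil) (.node 0 4 (.cons 0x5198760432 .nil) (.node 2 9 (.cons 0x1543298760 .nil) (.leaf 0x6015432987 0 (.node 1 3 (.cons 0x4513298760 .nil) (.leaf 0x5132987604 4 .done) .done)) .done) (.node 2 9 (.cons 0x1543298760 .nil) (.leaf 0x6015432987 0 (.node 6 9 (.cons 0x8769054321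 .nil) (.node 1 8 (.cons 0x3450967812 .nil) (.node 0 4 (.cons 0x8769215043 .nil) (.node 4 9 (.cons 0x4905678123 .nil) (.leaf 0x8765094321 1 .done) .done) .done) .done) .done)) .done)) .done)) (.leaf 0x8903214567 1 (.leaf 0x9876541230 3 .done)))) .done)) .done)) (.leaf 0x7612345098 0 .done)))) (.node 1 6 (.cons 0x5432167890 .nil) (.node 1 5 .nil (.node 6 8 (.cons 0x7689054321 (.cons 0x7689051234 .nil)) (.node 1 7 (.cons 0x2345098671 .nil) (.node 2 9 (.cons 0x6871092543 (.cons 0x8671543290 (.cons 0x8671509234 .nil))) (.node 0 4 (.cons 0x6871540923 (.cons 0x3298761540 .nil)) (.node 3 5 (.cons 0x6789210453 (.cons 0x1678923540 .nil)) (.leaf 0x7610453298 1 .done) (.leaf 0x7651234098 0 .done)) .done) (.leaf 0x9054321768 1 (.leaf 0x5098671234 2 .done))) (.node 0 2 (.cons 0x7689021543 .nil) (.node 5 9 (.cons 0x1678954320 (.cons 0x3459876120 .nil)) .done (.node 2 6 (.cons 0x1543267890 .nil) (.node 1 3 (.cons 0x7689054312 .nil) (.node 3 7 (.cons 0x4376890512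 (.cons 0x9873452610 .nil)) (.leaf 0x8734526109 0 (.leaf 0x2109873456 3 .done)) (.leaf 0x4310987625 0 (.leaf 0x4312678905 4 (.leaf 0x2678905431 3 .done)))) (.leaf 0x9015432678 0 (.node 3 6 (.cons 0x5436789012 (.cons 0x7890152634 .nil)) (.leaf 0x125436789 1 (.node 4 6 (.cons 0x7890152643 .nil) (.node 6 9 (.cons 0x8769023451 .nil) .done (.leaf 0x1234678905 2 .done)) .done)) .done))) (.node 2 6 (.cons 0x1543267890 .nil) (.node 1 3 (.cons 0x7689054312 .nil) (.node 3 7 (.cons 0x4376890512 (.cons 0x9873452610 .nil)) (.leaf 0x8734526109 0 (.leaf 0x2109873456 3 .done)) (.leaf 0x4310987625 0 (.leaf 0x4312678905 4 (.leaf 0x2678905431 3 .done)))) (.node 0 3 (.cons 0x4567890321 (.cons 0x9034512687 .nil)) (.node 2 7 (.cons 0x3450986721 .nil) (.node 3 7 (.cons 0x4376890512 .nil) (.leaf 0x9867345120 2 (.node 1 4 (.cons 0x9025143786 (.cons 0x5143768902 (.cons 0x9026873415 .nil))) .done .done)) (.leaf 0x6721543098 0 .done)) (.node 2 9 (.cons 0x5430167892 (.cons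 0x4516789230 .nil)) (.leaf 0x6154302987 3 .done) .done)) (.leaf 0x9015432678 0 .done))) (.leaf 0x5167890234 0 .done)))) .done)) (.node 1 4 (.cons 0x3214567890 .nil) (.node 0 3 (.cons 0x4567890321 .nil) (.leaf 0x2145678903 0 (.node 1 7 (.cons 0x8905432176 .nil) (.node 1 3 .nil (.node 6 8 (.cons 0x7689054321 (.cons 0x7689054312 .nil)) (.node 4 7 (.cons 0x9874561230 (.cons 0x7413256890 (.cons 0x6547890312 .nil))) (.leaf 0x2347689051 1 (.leaf 0x5612309874 0 .done)) (.leaf 0x9054321768 1 .done)) .done) (.node 6 8 (.cons 0x7689054321 .nil) (.node 4 7 (.cons 0x9874561230 .nil) (.leaf 0x2347689051 1 (.leaf 0x5612309874 0 (.leaf 0x6890512347 4 (.node 3 6 (.cons 0x7436890521 .nil) (.leaf 0x125436789 1 (.leaf 0x2509863471 0 (.node 0 6 (.cons 0x4523609871 .nil) (.node 4 6 (.cons 0x8905467123 .nil) .done .done) .done))) .done)))) (.leaf 0x5098671234 2 (.node 1 3 (.cons 0x7689054312 .nil) (.node 4 6 (.cons 0x8905467123 .nil) (.node 3 8 (.cons 0x7654123890 .nil)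 (.node 3 5 (.cons 0x9035468712 .nil) (.node 5 8 (.cons 0x9032178546 .nil) .done .done) (.leaf 0x7645098321 0 .done)) (.node 2 7 (.cons 0x3450986721 .nil) (.leaf 0x6890527134 3 (.leaf 0x6890527134 0 (.node 1 8 (.cons 0x9032781564 .nil) (.node 1 9 (.cons 0x3468725190 .nil) .done .done) .done))) .done)) .done) .done))) .done)) (.node 3 6 (.cons 0x5436789012 .nil) (.leaf 0x125436789 1 (.node 1 7 (.cons 0x8905432176 .nil) (.node 6 8 (.cons 0x7689054321 .nil) (.node 2 6 .nil (.node 5 7 (.cons 0x7521098634 (.cons 0x7526890143 (.cons 0x8903412675 .nil))) (.leaf 0x1263457890 1 .done) (.node 0 6 .nil (.node 4 6 (.cons 0x5234609871 (.cons 0x5217890643 .nil)) .done (.node 4 6 (.cons 0x5234609871 .nil) (.node 4 7 (.cons 0x5098674321 .nil) (.leaf 0x2347689051 1 (.node 6 9 (.cons 0x5210968743 .nil) .done (.leaf 0x6890512347 4 .done))) .done) .done)) .done)) (.leaf 0x9054321768 1 (.node 1 3 (.cons 0x7689054312 .nil) (.node 2 7 (.cons 0x3450986721 .nil) (.leaf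 0x4509867213 1 (.leaf 0x4509867213 2 (.node 0 7 (.cons 0x7098634521 .nil) (.leaf 0x6345217098 3 (.node 1 8 (.cons 0x9816705432 .nil) (.node 1 9 (.cons 0x8916705432 .nil) .done .done) .done)) .done))) .done) .done))) (.node 0 7 (.cons 0x8907654123 .nil) (.node 0 6 .nil (.node 5 9 (.cons 0x7895216034 .nil) (.leaf 0x4598760123 0 (.leaf 0x6123459870 0 .done)) (.node 1 3 (.cons 0x6098713254 .nil) (.node 1 8 (.cons 0x9067815432 .nil) (.node 1 9 (.cons 0x8760915432 .nil) .done .done) .done) .done)) (.node 1 3 (.cons 0x8907654132 .nil) (.node 1 8 (.cons 0x9816705432 .nil) (.node 1 9 (.cons 0x8916705432 .nil) .done .done) .done) .done)) .done)) (.node 0 6 .nil (.node 1 7 (.cons 0x8905432176 (.cons 0x4523609871 .nil)) (.node 5 8 (.cons 0x7658903214 (.cons 0x9850671234 (.cons 0x5890671432 (.cons 0x7143609852 .nil)))) .done .done) (.node 4 6 .nil (.node 1 7 (.cons 0x8905432176 (.cons 0x8905467123 .nil)) (.leaf 0x2178903465 0 .done) (.node 1 7 (.cons 0x4652178903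 .nil) (.leaf 0x2178903465 0 (.node 0 4 (.cons 0x9871632540 .nil) (.leaf 0x3617890452 0 (.node 0 7 (.cons 0x9870163452 .nil) .done .done)) .done)) .done)) .done)) .done))) (.leaf 0x9876541230 0 .done)))) (.node 1 7 (.cons 0x8905432176 .nil) (.node 6 8 (.cons 0x7689054321 .nil) (.node 1 8 .nil (.node 0 6 (.cons 0x7890654123 (.cons 0x9067812345 (.cons 0x9067815432 .nil))) .done (.node 1 9 .nil (.node 0 6 (.cons 0x7890654123 (.cons 0x8760912345 (.cons 0x8760915432 .nil))) .done (.node 1 3 .nil (.node 0 6 (.cons 0x7890654123 (.cons 0x7890654132 .nil)) (.node 4 9 (.cons 0x5490678123 (.cons 0x5490678132 (.cons 0x7860943125 .nil))) .done .done) .done) .done)) .done)) (.leaf 0x9054321768 1 (.node 1 3 (.cons 0x7689054312 .nil) (.node 3 6 (.cons 0x5436789012 .nil) (.leaf 0x125436789 1 (.node 4 7 (.cons 0x5632147890 .nil) (.leaf 0x2109874365 3 (.node 0 4 (.cons 0x7890412365 .nil) (.node 2 7 (.cons 0x5431276890 .nil) (.leaf 0x3651409872 1 (.leaf 0x9867213450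 2 .done)) .done) (.leaf 0x3650987412 3 (.leaf 0x2109874365 0 .done)))) (.node 2 7 (.cons 0x9872543610 .nil) (.leaf 0x3689052714 2 (.leaf 0x3689052714 1 (.leaf 0x9867213450 2 .done))) .done))) .done) .done))) (.node 1 8 .nil (.node 0 6 (.cons 0x7890654123 (.cons 0x9067812345 (.cons 0x9067815432 .nil))) (.node 5 9 (.cons 0x8760951234 .nil) (.leaf 0x7812345906 1 (.leaf 0x7812345906 2 .done)) .done) (.node 6 8 (.cons 0x7689054321 .nil) (.leaf 0x5098671234 2 (.node 1 3 (.cons 0x7689054312 .nil) (.node 1 9 .nil (.node 0 6 (.cons 0x7890654123 (.cons 0x7860912543 (.cons 0x8760915432 .nil))) (.node 0 4 (.cons 0x8765409123 (.cons 0x7891604325 .nil)) (.node 0 7 (.cons 0x6870912543 (.cons 0x8916705432 .nil)) .done .done) .done) .done) .done) .done)) .done)) .done)) .done)) .done)) (.leaf 0x4321678905 2 (.node 3 6 (.cons 0x5436789012 .nil) tc9_5_3 (.node 3 6 (.cons 0x5436789012 .nil) tc9_5_2 .done)))) (.node 1 6 (.cons 0x5432167890 .nil) tc9_5_1 .done)))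
noncomputable def uc9_5_0 : T := tc9_5_6
theorem sub_c9_5_0 : root 9 refs9_5 [] 0x700000008706000000006050000000050300000000304050000004030000000030100000050102000000002018000000010 0xfe7fff3fff9fffd7ffc7ffe7fff5ffd9fff9fefd 9 0 5 (.cons 0x6789054321 .nil) uc9_5_0 = true := by decide +kernel
noncomputable def tc9_5_7 : T := (.node 5 9 (.cons 0x2341678950 .nil) (.node 0 6 (.cons 0x7895061432 .nil) (.node 2 6 .nil (.node 1 5 (.cons 0x7890516234 .nil) (.leaf 0x8762341509 1 (.leaf 0x7623451098 1 .done)) (.node 1 9 (.cons 0x1987623450 .nil) (.leaf 0x6234501987 0 (.node 2 9 (.cons 0x8760541923 .nil) (.node 1 5 (.cons 0x6789234150 .nil) (.node 1 7 (.cons 0x4326178950 .nil) .done .done) .done) .done)) .done)) (.node 1 7 (.cons 0x8906712345 .nil) (.node 1 5 .nil (.node 2 6 (.cons 0x7890516234 .nil) (.leaf 0x8762341509 1 (.node 0 3 (.cons 0x9876541230 .nil) (.leaf 0x2103459876 1 (.node 0 4 (.cons 0x7895043261 .nil) (.leaf 0x7651234098 0 .done) (.leaf 0x1267895430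 3 .done))) (.leaf 0x3267890514 4 .done))) .done) (.node 5 8 (.cons 0x7609854321 .nil) (.node 3 5 (.cons 0x8906712354 .nil) (.node 1 5 .nil (.node 0 4 (.cons 0x9854067123 .nil) (.leaf 0x7651234098 0 (.node 2 9 (.cons 0x7601298543 (.cons 0x6789234150 .nil)) (.leaf 0x8761504329 0 .done) .done)) .done) .done) (.leaf 0x6098543217 2 .done)) .done)) .done)) (.node 1 8 (.cons 0x7618905234 .nil) (.node 4 7 (.cons 0x8905234761 .nil) (.node 6 9 (.cons 0x3218745690 .nil) (.node 0 6 (.cons 0x9065478123 .nil) (.node 5 7 (.cons 0x8169057432 .nil) (.node 5 8 (.cons 0x9067854321 .nil) .done .done) .done) (.leaf 0x1874325096 0 .done)) (.leaf 0x9052347618 0 (.node 5 8 (.cons 0x3476125890 .nil) (.node 0 3 (.cons 0x9876541230 .nil) (.node 3 8 (.cons 0x5216743890 .nil) (.leaf 0x9834761250 0 (.node 4 8 (.cons 0x5903487612 .nil) .done .done)) (.leaf 0x6541230987 1 (.leaf 0x2167430985 3 (.leaf 0x2167430985 0 .done)))) .done) .done))) (.node 1 7 .nil (.node 0 6 (.cons 0x8906712345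 .nil) (.leaf 0x2178906543 0 (.node 4 6 (.cons 0x3254671890 .nil) (.leaf 0x3250987164 0 (.leaf 0x981764325 1 (.leaf 0x1789052346 0 .done))) .done)) (.node 0 8 (.cons 0x9805234167 .nil) (.node 6 9 (.cons 0x4569087123 .nil) (.leaf 0x2178096543 3 (.node 5 7 (.cons 0x7523416980 .nil) (.node 5 8 (.cons 0x7169085234 .nil) .done .done) .done)) (.node 6 9 (.cons 0x7698052341 .nil) (.leaf 0x4325089671 1 (.leaf 0x2341769805 2 .done)) .done)) .done)) .done)) .done)) (.node 1 7 .nil (.node 6 8 (.cons 0x7689012543 (.cons 0x3452176890 .nil)) (.leaf 0x7123450986 0 (.leaf 0x2341768905 1 .done)) (.node 1 8 (.cons 0x7618905234 .nil) (.node 4 7 (.cons 0x8905234761 .nil) (.leaf 0x9052347618 0 (.node 1 5 .nil (.node 3 8 (.cons 0x5216743890 (.cons 0x2516743890 .nil)) (.node 2 9 (.cons 0x1674389250 .nil) (.node 0 6 (.cons 0x7438925061 .nil) (.leaf 0x3298716054 1 (.leaf 0x3298716054 2 .done)) (.leaf 0x3892501674 1 (.leaf 0x5298347610 4 .done))) (.leaf 0x9834761250 0 .done))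 .done) .done)) (.node 0 8 (.cons 0x9087654123 .nil) (.node 0 4 .nil (.node 3 9 (.cons 0x8765412390 (.cons 0x8932176540 (.cons 0x4056178932 (.cons 0x6718932504 (.cons 0x6718932540 .nil))))) .done (.node 0 6 .nil (.node 5 7 (.cons 0x6754098123 .nil) (.leaf 0x612345789 0 (.leaf 0x6098123457 2 .done)) (.node 5 9 (.cons 0x8760954321 .nil) (.node 2 6 (.cons 0x4326178950 .nil) (.leaf 0x3405987162 0 .done) (.leaf 0x7609543218 2 .done)) .done)) .done)) (.node 6 9 (.cons 0x4325089671 .nil) (.node 1 9 (.cons 0x6719805234 .nil) (.node 1 5 .nil (.node 4 6 (.cons 0x9805234671 .nil) (.leaf 0x3467890512 0 (.leaf 0x8052346719 0 (.node 4 9 (.cons 0x5678094123 (.cons 0x6715234980 .nil)) .done .done))) .done) .done) (.leaf 0x2341769805 1 (.node 5 9 .nil (.node 0 4 (.cons 0x5217698043 (.cons 0x4089567123 (.cons 0x6178950432 .nil))) .done (.node 1 5 .nil (.node 4 9 (.cons 0x5678094123 (.cons 0x6715089432 (.cons 0x6715234980 .nil))) .done .done) .done)) .done))) .done))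 .done)) (.node 1 8 (.cons 0x7618905234 .nil) (.node 5 8 (.cons 0x9058761432 .nil) (.node 1 5 .nil (.node 0 7 (.cons 0x9816705234 .nil) (.node 4 8 (.cons 0x7615234890 .nil) (.leaf 0x6152348907 0 (.node 3 7 (.cons 0x5216734890 (.cons 0x2516734890 .nil)) (.leaf 0x6734890521 0 (.node 6 8 (.cons 0x7689012543 (.cons 0x4376890152 .nil)) .done .done)) .done)) (.node 4 6 (.cons 0x9078564123 (.cons 0x9815076432 (.cons 0x9815234670 .nil))) (.leaf 0x3467890512 0 (.leaf 0x1589076432 0 .done)) .done)) .done) (.node 6 8 (.cons 0x7689012543 .nil) (.node 5 9 .nil (.node 0 2 (.cons 0x6871459023 (.cons 0x6785902143 .nil)) (.leaf 0x3416789502 0 (.leaf 0x6785902341 1 (.leaf 0x5987614320 0 .done))) (.node 0 7 (.cons 0x5907861432 .nil) (.node 0 6 (.cons 0x9543218706 .nil) (.node 6 9 (.cons 0x6954321870 .nil) (.leaf 0x1234596078 0 .done) .done) (.leaf 0x4325907861 1 .done)) .done)) .done) .done)) (.node 4 7 (.cons 0x8905234761 .nil) (.node 1 9 (.cons 0x8916743250 .nil)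 (.node 2 4 .nil (.node 0 8 (.cons 0x9805234761 (.cons 0x3247650891 (.cons 0x5089167423 .nil))) .done (.node 1 3 (.cons 0x9874231650 .nil) (.node 1 5 .nil (.node 3 6 (.cons 0x6324509871 (.cons 0x6324517890 .nil)) (.node 0 4 (.cons 0x9045632187 .nil) (.leaf 0x5123678904 2 .done) (.leaf 0x5163247890 1 .done)) .done) .done) .done)) .done) (.leaf 0x9052347618 0 (.node 3 8 (.cons 0x5216743890 .nil) (.node 2 9 (.cons 0x1674389250 .nil) (.node 4 8 (.cons 0x7841650923 .nil) (.node 5 8 (.cons 0x3476125890 .nil) (.node 6 8 (.cons 0x6871450923 .nil) .done .done) .done) (.leaf 0x3892501674 1 (.leaf 0x5298347610 4 .done))) (.leaf 0x9834761250 0 (.node 1 5 (.cons 0x2516743890 .nil) (.node 1 9 (.cons 0x2387654190 .nil) (.node 1 3 .nil (.node 0 4 (.cons 0x9876150432 (.cons 0x7409831652 .nil)) (.leaf 0x9047652138 0 .done) .done) .done) .done) .done))) .done))) .done)) .done))) (.node 2 6 .nil (.node 1 3 (.cons 0x4509876231 .nil) (.leaf 0x9013452678 1 (.node 1 5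 (.cons 0x7890516234 .nil) (.node 1 7 (.cons 0x8905417623 .nil) (.leaf 0x543261789 0 .done) (.leaf 0x7623451098 1 .done)) (.leaf 0x4526789013 4 (.leaf 0x8905431267 1 .done)))) (.node 1 9 (.cons 0x1987623450 .nil) (.node 5 9 (.cons 0x3459876210 .nil) (.node 0 7 (.cons 0x6234507891 .nil) (.node 0 4 (.cons 0x7891623405 .nil) (.node 5 7 (.cons 0x4326198750 .nil) (.node 0 6 (.cons 0x8706219543 .nil) (.node 6 8 (.cons 0x7543219860 .nil) (.leaf 0x3457068912 2 (.leaf 0x5432198607 1 .done)) .done) .done) .done) (.node 3 8 (.cons 0x5983412670 .nil) (.leaf 0x2145670983 3 (.leaf 0x1238907654 1 (.node 7 9 (.cons 0x4389762501 .nil) (.leaf 0x6250143897 4 (.leaf 0x3897625014 1 .done)) (.node 2 7 (.cons 0x1456723890 .nil) (.node 0 4 (.cons 0x5916278340 .nil) (.node 0 6 (.cons 0x1954387260 .nil) (.leaf 0x4387260195 3 .done) (.leaf 0x7261950438 2 .done)) (.leaf 0x4109832765 0 .done)) .done)))) (.leaf 0x8916234507 1 .done))) .done) (.node 0 3 (.cons 0x4567890321 .nil)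 (.leaf 0x2145678903 0 (.node 0 6 .nil (.node 5 8 (.cons 0x9854301267 (.cons 0x7603219854 .nil)) (.node 3 7 (.cons 0x8901254376 (.cons 0x8914506732 (.cons 0x6091237854 (.cons 0x7326058914 .nil)))) (.leaf 0x4589067321 0 .done) (.leaf 0x7609123458 2 .done)) (.node 3 6 (.cons 0x5436789012 .nil) (.node 6 8 (.cons 0x7689012543 .nil) (.node 4 6 .nil (.node 5 8 (.cons 0x9067854321 (.cons 0x7645891230 (.cons 0x7854609123 .nil))) .done .done) .done) .done) .done)) (.leaf 0x5419876230 4 (.leaf 0x2678914503 3 .done)))) .done)) (.node 1 9 (.cons 0x8762345091 .nil) (.node 5 9 (.cons 0x8762109543 .nil) (.node 0 6 .nil (.node 1 3 (.cons 0x8762134590 (.cons 0x2134598760 (.cons 0x8760954312 .nil))) .done (.node 1 8 (.cons 0x9054326781 .nil) (.node 4 9 (.cons 0x7618943250 .nil) (.node 6 9 (.cons 0x7819623450 .nil) .done .done) (.node 4 9 .nil (.node 3 5 (.cons 0x7609812354 (.cons 0x6781235490 (.cons 0x7816235094 .nil))) (.leaf 0x1235490678 3 .done) (.node 6 9 .nil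 (.node 1 3 (.cons 0x8762134590 (.cons 0x4509678132 .nil)) (.node 2 7 (.cons 0x8954312760 (.cons 0x3276981450 (.cons 0x8967250134 (.cons 0x8967231450 .nil)))) .done .done) .done) .done)) .done)) .done)) .done) (.node 1 8 (.cons 0x9054326781 .nil) (.node 1 7 .nil (.node 0 6 (.cons 0x9817605432 .nil) (.leaf 0x2178906543 0 .done) (.node 1 3 (.cons 0x8762319054 .nil) (.node 1 5 .nil (.node 0 3 (.cons 0x4567890321 .nil) (.leaf 0x2145678903 0 (.leaf 0x4512678903 2 (.node 3 8 (.cons 0x7654123890 (.cons 0x9015438762 .nil)) .done .done))) .done) .done) .done)) (.leaf 0x2345091876 0 .done)) .done)) .done))) (.leaf 0x3250987614 0 .done))))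
noncomputable def tc9_5_8 : T := (.node 2 6 .nil (.node 1 3 (.cons 0x4509876231 .nil) (.leaf 0x9013452678 1 (.leaf 0x4526789013 4 (.node 2 9 (.cons 0x7892610543 .nil) (.node 1 5 (.cons 0x4329876150 .nil) (.leaf 0x7623451098 1 (.node 4 7 (.cons 0x8925016743 (.cons 0x8926743105 (.cons 0x3478926150 .nil))) (.leaf 0x3261509874 3 (.leaf 0x2347890516 1 .done)) .done)) (.node 3 7 (.cons 0x8901254376 (.cons 0x8926731054 .nil)) (.node 4 8 (.cons 0x7613298450 (.cons 0x7629845013 (.cons 0x9261054873 (.cons 0x8450926731 .nil)))) (.leaf 0x1376298450 0 .done) (.node 4 8 (.cons 0x7613298450 (.cons 0x9843762501 (.cons 0x5267348901 .nil))) (.leaf 0x1052984376 2 (.leaf 0x2567348901 4 .done)) (.leaf 0x1629873450 1 .done))) .done)) (.leaf 0x8905431267 1 (.leaf 0x987625431 3 .done))))) (.node 5 9 (.cons 0x8762109543 .nil) (.node 0 6 (.cons 0x7895432160 .nil) (.node 3 6 (.cons 0x5436789012 .nil) (.node 1 5 .nil (.node 2 4 (.cons 0x7895016342 .nil) (.node 0 2 (.cons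 0x9876150234 .nil) (.leaf 0x4367895102 3 (.leaf 0x1209876345 0 (.leaf 0x5167890234 0 .done))) (.leaf 0x9876342150 3 .done)) (.node 2 4 (.cons 0x7895016342 .nil) (.node 1 7 (.cons 0x8906712345 .nil) (.node 5 8 (.cons 0x7609854321 .nil) (.leaf 0x6712345890 0 (.node 0 4 (.cons 0x7634098521 .nil) (.leaf 0x9587126340 2 (.leaf 0x3261789504 0 .done)) .done)) (.node 0 4 (.cons 0x6324059871 .nil) (.leaf 0x7895042361 4 (.leaf 0x8716324059 3 .done)) .done)) (.node 5 7 (.cons 0x8906754321 .nil) (.leaf 0x2109875634 3 (.leaf 0x2109875634 0 .done)) .done)) .done)) (.node 1 5 .nil (.node 0 2 (.cons 0x7895436102 (.cons 0x9876150234 .nil)) (.node 2 7 (.cons 0x2789543610 (.cons 0x9872015436 (.cons 0x8901527634 .nil))) (.leaf 0x5109872634 2 .done) (.leaf 0x5167890234 0 .done)) (.node 1 7 (.cons 0x8901763452 .nil) (.node 4 6 (.cons 0x2346178950 .nil) (.node 0 4 (.cons 0x6178950432 .nil) (.node 6 8 (.cons 0x4325098671 .nil) (.leaf 0x2340956871 0 .done) (.leaf 0x3261789504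 0 .done)) .done) (.node 3 5 (.cons 0x8906712354 .nil) (.node 5 8 (.cons 0x7609854321 .nil) (.leaf 0x6098543217 2 .done) .done) .done)) .done)) .done)) (.node 1 5 .nil (.node 4 7 (.cons 0x5987432160 (.cons 0x8743215906 (.cons 0x2347895160 .nil))) (.leaf 0x9874321605 1 (.leaf 0x8950612347 3 .done)) (.node 3 5 .nil (.node 2 4 (.cons 0x9876012435 .nil) (.leaf 0x1067895342 3 (.node 5 7 (.cons 0x9875342106 (.cons 0x9875342160 .nil)) .done .done)) (.node 2 4 (.cons 0x9876012435 .nil) (.leaf 0x1067895342 3 (.node 5 7 (.cons 0x9875342106 .nil) (.node 3 6 (.cons 0x5789063421 .nil) (.leaf 0x2436098751 1 (.leaf 0x987512436 4 .done)) .done) .done)) .done)) .done)) .done)) (.node 5 8 (.cons 0x9012678543 .nil) (.node 3 8 (.cons 0x1267834590 .nil) (.node 5 7 .nil (.node 0 6 (.cons 0x7834590621 (.cons 0x8906754321 (.cons 0x4387590621 .nil))) .done (.node 3 5 .nil (.node 0 8 (.cons 0x3459087621 (.cons 0x4359087621 .nil)) (.node 0 2 (.cons 0x3459876120 (.cons 0x4359876120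 .nil)) (.node 0 7 (.cons 0x6120789543 (.cons 0x6120789534 .nil)) .done .done) .done) .done) .done)) (.node 5 7 (.cons 0x6752109834 .nil) (.node 1 5 (.cons 0x4387621590 .nil) (.node 1 8 (.cons 0x9054326781 .nil) (.node 3 5 .nil (.node 0 4 (.cons 0x7612598340 (.cons 0x9045321876 (.cons 0x7621835904 .nil))) (.node 0 6 (.cons 0x9578340612 (.cons 0x7609812354 (.cons 0x7895340612 .nil))) .done .done) .done) .done) .done) .done) (.leaf 0x4387621095 0 .done))) (.node 3 8 (.cons 0x1267834590 .nil) (.node 0 6 (.cons 0x9834521067 .nil) (.node 3 5 .nil (.node 1 8 (.cons 0x9054326781 (.cons 0x7609812354 .nil)) (.node 7 9 (.cons 0x6798345210 (.cons 0x6210978534 (.cons 0x4538976012 (.cons 0x8109762534 .nil)))) .done .done) (.node 1 5 .nil (.node 0 2 (.cons 0x3459876120 (.cons 0x9876150234 .nil)) (.node 0 3 (.cons 0x2167895430 (.cons 0x8762159034 .nil)) .done (.leaf 0x5167890234 0 .done)) .done) .done)) (.node 0 8 (.cons 0x3459087621 .nil) (.node 1 8 (.cons 0x9054326781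 .nil) (.node 2 8 .nil (.node 3 9 (.cons 0x8762109345 (.cons 0x7610543982 (.cons 0x9345016287 (.cons 0x7610528934 .nil)))) (.leaf 0x7821093456 3 .done) .done) .done) .done) .done)) (.node 0 8 (.cons 0x3459087621 .nil) (.node 1 8 (.cons 0x9054326781 .nil) .done .done) (.leaf 0x4387621095 0 .done))) .done)) .done)) (.node 1 5 (.cons 0x4326789051 .nil) (.node 1 4 (.cons 0x3214567890 .nil) (.node 2 9 (.cons 0x1678923450 .nil) (.node 1 7 (.cons 0x6178923450 .nil) (.node 0 4 (.cons 0x4056178923 .nil) (.leaf 0x1789234056 1 (.leaf 0x8716504329 2 .done)) (.node 5 9 .nil (.node 0 4 (.cons 0x7895043261 .nil) (.leaf 0x8716234059 0 (.leaf 0x7612340598 1 .done)) (.node 4 9 (.cons 0x8762349051 .nil) (.node 3 8 (.cons 0x4387621590 .nil) (.leaf 0x1526783490 4 (.leaf 0x9054176238 1 (.node 0 7 (.cons 0x4389521670 .nil) (.leaf 0x6541238907 0 (.node 7 9 (.cons 0x4389761052 .nil) .done .done)) (.leaf 0x152678349 3 .done)))) .done) .done)) .done)) (.node 5 7 (.cons 0x8905762341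 .nil) (.node 2 7 .nil (.node 6 8 (.cons 0x7689012543 (.cons 0x3452768901 .nil)) (.leaf 0x4327689051 4 .done) (.node 3 5 .nil (.node 4 9 (.cons 0x8762349051 (.cons 0x7894350162 (.cons 0x8762153490 .nil))) (.leaf 0x6105349872 3 .done) (.node 4 7 (.cons 0x9874350162 .nil) (.leaf 0x1629874350 1 (.leaf 0x2109874356 0 .done)) .done)) .done)) (.node 1 8 (.cons 0x3418905762 .nil) (.node 5 8 (.cons 0x3412675890 .nil) (.node 7 9 (.cons 0x1432679850 .nil) (.leaf 0x8501432679 3 (.leaf 0x6798501432 4 .done)) .done) (.leaf 0x981432675 1 (.leaf 0x9057623418 3 .done))) .done)) .done)) (.node 1 7 (.cons 0x4178905623 .nil) (.node 6 8 (.cons 0x4325098671 .nil) (.leaf 0x3250986714 3 (.node 1 3 (.cons 0x4317689052 .nil) (.node 2 4 (.cons 0x3425098671 .nil) (.leaf 0x7689052431 2 (.leaf 0x7689052431 1 .done)) .done) .done)) (.node 1 8 (.cons 0x9051876234 .nil) (.node 1 3 (.cons 0x7890562314 .nil) (.node 1 9 .nil (.node 0 6 (.cons 0x7890654123 (.cons 0x8760912345 .nil))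 (.leaf 0x9123450678 0 .done) .done) .done) .done) .done)) .done)) (.node 5 9 .nil (.node 3 5 (.cons 0x4359876210 (.cons 0x8762109534 .nil)) .done (.node 1 4 (.cons 0x3214567890 .nil) (.node 5 8 (.cons 0x3412678590 .nil) (.node 3 5 (.cons 0x8762143590 .nil) (.node 5 7 .nil (.node 0 3 (.cons 0x9587621430 (.cons 0x9857621034 (.cons 0x8759034126 .nil))) (.leaf 0x7621430958 0 .done) .done) .done) .done) (.node 5 8 .nil (.node 0 7 (.cons 0x8907654123 (.cons 0x8590762143 (.cons 0x9850761432 (.cons 0x6709854123 .nil)))) .done (.node 7 9 (.cons 0x1432679850 .nil) (.leaf 0x8501432679 3 (.leaf 0x5897623410 1 (.leaf 0x6798501432 4 .done))) .done)) .done)) .done)) .done)) .done))) (.node 5 9 (.cons 0x8761234590 .nil) (.node 1 5 .nil (.node 2 6 (.cons 0x4326789051 .nil) (.node 3 7 (.cons 0x8901254376 (.cons 0x8734590126 (.cons 0x8734590162 .nil))) (.leaf 0x2109873456 3 (.node 4 8 (.cons 0x4873216590 (.cons 0x9843762501 (.cons 0x5267348901 .nil))) (.leaf 0x984376251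 3 (.leaf 0x2567348901 4 .done)) .done)) (.node 1 9 (.cons 0x4326789150 .nil) (.leaf 0x6234501987 0 (.node 2 9 (.cons 0x8761509234 .nil) (.node 3 8 (.cons 0x4509167832 (.cons 0x9261054387 (.cons 0x7834592610 .nil))) (.leaf 0x6783450921 1 (.leaf 0x7612905438 3 .done)) .done) .done)) .done)) (.node 1 4 (.cons 0x3214567890 .nil) (.node 5 8 .nil (.node 2 9 (.cons 0x4329058761 .nil) (.leaf 0x6785432901 1 (.leaf 0x587614329 3 .done)) (.node 2 9 (.cons 0x3458761290 .nil) (.node 0 4 (.cons 0x6789234051 .nil) (.node 1 9 (.cons 0x8761905432 .nil) (.node 3 5 (.cons 0x4358761290 .nil) (.node 5 7 .nil (.node 0 6 (.cons 0x4358760921 (.cons 0x8906754321 (.cons 0x8759061234 .nil))) .done .done) .done) .done) (.leaf 0x2340516789 1 .done)) (.node 1 9 (.cons 0x8761905432 .nil) (.node 1 3 (.cons 0x8761329054 .nil) (.node 0 3 (.cons 0x4567890321 .nil) (.leaf 0x2145678903 0 (.leaf 0x1678543092 1 (.node 3 8 (.cons 0x7654123890 .nil) (.leaf 0x5416783290 4 (.node 3 5 (.cons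 0x4538761092 .nil) (.node 5 7 (.cons 0x6758903412 .nil) .done .done) .done)) .done))) .done) .done) .done)) .done)) (.node 5 8 .nil (.node 0 6 (.cons 0x7890654123 (.cons 0x7609854321 (.cons 0x7859061234 .nil))) .done (.node 5 7 .nil (.node 0 6 (.cons 0x7890654123 (.cons 0x8906754321 (.cons 0x8759061234 .nil))) .done (.node 3 5 .nil (.node 0 6 (.cons 0x7890654123 (.cons 0x7890653214 .nil)) (.node 1 7 (.cons 0x3458906712 (.cons 0x4358906712 (.cons 0x8906712354 .nil))) .done .done) .done) .done)) .done)) .done)) .done)) (.node 0 8 (.cons 0x3459087612 .nil) (.node 5 8 .nil (.node 0 6 (.cons 0x7609854321 .nil) (.node 5 7 (.cons 0x9087543216 .nil) (.leaf 0x2345789061 2 (.node 1 8 (.cons 0x3459067812 .nil) (.node 0 3 (.cons 0x9543067812 (.cons 0x7603459812 (.cons 0x4309587612 .nil))) .done (.node 4 9 (.cons 0x7809456123 (.cons 0x6758123490 (.cons 0x4906578123 (.cons 0x7618523490 .nil)))) .done (.leaf 0x7609543218 2 .done))) .done)) (.node 1 5 (.cons 0x9067851234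 .nil) (.node 4 7 (.cons 0x9087456123 (.cons 0x9852106743 (.cons 0x3476098521 .nil))) (.leaf 0x2347609851 1 (.leaf 0x6743215890 4 .done)) (.node 4 7 (.cons 0x4789065123 (.cons 0x9852106743 (.cons 0x9061587432 (.cons 0x3476098521 .nil)))) (.leaf 0x651234789 0 .done) .done)) .done)) (.node 5 7 (.cons 0x9087543216 .nil) (.node 3 8 (.cons 0x2167834590 .nil) (.node 2 8 (.cons 0x9054328761 .nil) (.node 1 8 .nil (.node 0 4 (.cons 0x5904387612 (.cons 0x9045678123 (.cons 0x6759043812 .nil))) .done .done) .done) (.node 3 7 (.cons 0x9087321654 .nil) (.node 4 8 .nil (.node 0 3 (.cons 0x4567890321 (.cons 0x7654890321 (.cons 0x5903487612 .nil))) (.leaf 0x7845903216 2 .done) (.node 6 8 (.cons 0x9867345210 .nil) (.node 0 6 (.cons 0x9543780612 .nil) (.node 3 6 (.cons 0x5436789012 .nil) .done .done) .done) .done)) (.node 4 8 (.cons 0x8437612590 .nil) (.leaf 0x2567348901 4 .done) .done)) .done)) .done) .done)) (.leaf 0x7612345908 2 (.node 2 8 (.cons 0x9054328761 .nil)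 (.node 2 6 .nil (.node 3 9 (.cons 0x9345016782 (.cons 0x7628934501 (.cons 0x9345016287 .nil))) (.node 1 4 (.cons 0x2876143950 (.cons 0x5014398762 (.cons 0x7628934105 (.cons 0x7826143950 .nil)))) .done (.node 1 5 (.cons 0x4516780932 (.cons 0x2678934510 (.cons 0x7809326154 .nil))) .done .done)) (.node 0 6 .nil (.node 0 3 (.cons 0x9543067821 (.cons 0x7603459821 (.cons 0x9543061287 .nil))) (.node 1 4 (.cons 0x3214567890 (.cons 0x5987603412 (.cons 0x7603412895 (.cons 0x7890654123 .nil)))) .done .done) (.node 5 8 (.cons 0x7609854321 .nil) (.node 6 9 (.cons 0x7854321690 .nil) (.node 7 9 (.cons 0x6123458790 .nil) (.leaf 0x1234587906 2 (.leaf 0x1234587906 1 .done)) .done) .done) .done)) .done)) (.node 0 6 (.cons 0x7821609543 .nil) (.node 5 8 (.cons 0x7609854321 .nil) (.node 1 8 (.cons 0x7609812345 .nil) (.node 3 8 (.cons 0x2167834590 .nil) (.node 4 8 (.cons 0x9052348167 .nil) (.node 6 8 (.cons 0x7689012543 .nil) .done .done) .done) .done) .done) (.node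 0 2 (.cons 0x8761209543 .nil) (.node 0 7 (.cons 0x6128709543 .nil) .done .done) .done)) (.node 1 5 (.cons 0x9051678234 .nil) (.node 1 8 .nil (.node 7 9 (.cons 0x8167905234 .nil) (.leaf 0x976182345 4 (.leaf 0x1679054328 1 (.leaf 0x6182345097 3 .done))) (.node 1 4 (.cons 0x3214567890 .nil) (.node 5 8 (.cons 0x9058234167 .nil) .done .done) .done)) (.node 1 9 (.cons 0x8761905432 .nil) (.leaf 0x916782345 4 (.node 1 8 .nil (.node 7 9 (.cons 0x6150978234 .nil) (.leaf 0x1679054328 1 (.leaf 0x6182345097 3 .done)) (.node 1 4 (.cons 0x3214567890 .nil) (.node 1 3 (.cons 0x7650982314 .nil) .done .done) .done)) (.leaf 0x7619054328 1 .done))) .done)) .done))) .done))) .done)) (.leaf 0x9054321678 0 (.node 1 4 (.cons 0x3214567890 .nil) tc9_5_7 .done))))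
noncomputable def uc9_5_1 : T := tc9_5_8
theorem sub_c9_5_1 : root 9 refs9_5 [] 0x700000008706000000006050000000050300000000304060200004030000000030100000060102000000002018000200010 0xfe7fff3fff9fffd7ffa3ffe7fff5ffb9fff9fef9 9 1 6 (.cons 0x5432167890 .nil) uc9_5_1 = true := by decide +kernel
noncomputable def tc9_5_9 : T := (.node 1 6 (.cons 0x5432167890 .nil) (.node 7 9 (.cons 0x9786123450 .nil) (.leaf 0x3216879054 2 (.leaf 0x1234509786 1 (.node 2 6 (.cons 0x8790543261 .nil) (.node 0 8 (.cons 0x3459087612 .nil) (.leaf 0x7612345908 2 (.node 1 5 (.cons 0x8790516234 .nil) (.node 0 2 (.cons 0x9023458761 .nil) (.node 0 7 (.cons 0x9867012543 .nil) (.node 1 4 (.cons 0x3412598670 .nil) (.leaf 0x7052341689 3 (.leaf 0x7052341689 0 .done)) .done) .done) .done) .done)) .done) .done))) (.node 0 7 (.cons 0x2345890761 .nil) (.leaf 0x6123458907 0 (.node 7 9 (.cons 0x7986123450 .nil) (.node 0 8 .nil (.node 3 5 (.cons 0x9867012534 (.cons 0x4532167980 (.cons 0x8097612354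 .nil))) .done (.node 0 2 .nil (.node 1 5 (.cons 0x9851670234 .nil) (.leaf 0x9023451678 0 (.node 6 9 (.cons 0x9687051234 (.cons 0x4320967851 (.cons 0x8769023451 .nil))) .done .done)) (.node 1 8 (.cons 0x4581679023 .nil) (.leaf 0x5432097618 0 (.leaf 0x6790234581 0 .done)) .done)) .done)) (.leaf 0x3216897054 0 .done)) (.node 2 7 (.cons 0x1672345890 .nil) (.node 0 8 .nil (.node 3 6 (.cons 0x5436789012 .nil) (.leaf 0x2763459801 1 (.leaf 0x7210895436 3 (.leaf 0x4598012763 4 .done))) (.node 3 8 .nil (.node 4 7 (.cons 0x6743809521 .nil) (.leaf 0x1238907456 1 (.leaf 0x9832167450 2 (.leaf 0x9832167450 1 .done))) (.node 5 7 (.cons 0x6123890754 .nil) (.node 4 6 (.cons 0x3895461270 .nil) (.leaf 0x8346127590 1 (.leaf 0x3809572164 3 (.node 4 8 (.cons 0x3480957612 .nil) .done .done))) .done) .done)) .done)) (.node 0 8 (.cons 0x9085432761 .nil) (.node 0 2 .nil (.node 1 3 (.cons 0x4589076132 (.cons 0x6789543120 (.cons 0x8590276134 .nil))) (.leaf 0x7890213456 0 (.leaf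 0x4589027613 3 .done)) .done) .done) (.leaf 0x8901672345 1 .done))) (.node 3 9 (.cons 0x7689345210 .nil) (.leaf 0x6893452107 3 (.leaf 0x5439867012 3 (.node 7 9 (.cons 0x7986123450 .nil) (.node 2 9 (.cons 0x3452986701 .nil) (.node 1 9 .nil (.node 0 6 (.cons 0x2345876091 .nil) (.leaf 0x7854321906 0 (.leaf 0x8791234506 0 .done)) .done) .done) .done) (.node 3 6 (.cons 0x5436789012 .nil) (.node 2 6 .nil (.node 1 5 (.cons 0x8907615432 (.cons 0x2678934510 .nil)) (.leaf 0x7623451098 1 .done) (.node 0 6 .nil (.node 6 9 (.cons 0x7896054321 .nil) .done .done) .done)) (.node 6 9 .nil (.node 3 7 (.cons 0x9867345210 (.cons 0x8967345210 (.cons 0x9687345012 .nil))) .done .done) .done)) .done)))) .done)))) (.node 2 6 .nil (.node 3 9 (.cons 0x7689345210 .nil) (.leaf 0x4501267893 0 (.node 4 7 (.cons 0x1674325890 (.cons 0x3987456210 (.cons 0x9058743261 (.cons 0x5098743261 .nil)))) (.leaf 0x6109347852 0 .done) (.leaf 0x126785439 0 (.node 1 7 (.cons 0x2543986710 (.cons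 0x8934526710 (.cons 0x9345017862 .nil))) (.node 1 4 (.cons 0x7614325890 (.cons 0x6239871450 (.cons 0x9326871450 (.cons 0x3267145890 .nil)))) (.leaf 0x7862390541 0 .done) .done) .done)))) (.node 3 8 (.cons 0x1267834590 .nil) (.node 3 9 (.cons 0x7689345210 .nil) (.node 0 7 (.cons 0x4325890761 .nil) (.leaf 0x1254398670 4 (.leaf 0x8670125439 1 (.node 3 6 (.cons 0x4590783621 .nil) (.node 6 9 .nil (.node 1 4 (.cons 0x5412398670 (.cons 0x2369870541 (.cons 0x7832145690 (.cons 0x7096238541 (.cons 0x3269078541 .nil))))) .done .done) .done) (.leaf 0x6893452107 3 .done)))) (.leaf 0x126785439 0 (.node 1 8 (.cons 0x5439018762 .nil) (.node 3 6 (.cons 0x5436789012 .nil) (.node 4 7 (.cons 0x5476321890 .nil) (.leaf 0x6547839012 1 (.leaf 0x8390126547 4 (.leaf 0x9812367450 1 (.leaf 0x9812367450 2 .done)))) .done) .done) .done))) (.node 0 8 (.cons 0x3459087621 .nil) (.node 1 8 .nil (.node 0 4 (.cons 0x5904387621 (.cons 0x9045678123 (.cons 0x7654098123 (.cons 0x7625904381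 .nil)))) .done (.node 2 8 .nil (.node 1 3 (.cons 0x8762134590 (.cons 0x6782134590 (.cons 0x9013458267 .nil))) (.node 0 6 (.cons 0x2134598760 (.cons 0x9825431067 .nil)) (.leaf 0x2134590678 0 .done) .done) .done) .done)) .done) .done)) .done)) .done))) (.node 3 5 (.cons 0x7689012534 .nil) (.node 3 8 .nil (.node 5 7 (.cons 0x9012576834 .nil) (.node 1 5 (.cons 0x4321576890 .nil) (.node 4 9 (.cons 0x7689435210 (.cons 0x8675123490 (.cons 0x6875123490 (.cons 0x7683490152 .nil)))) .done .done) .done) (.node 5 7 .nil (.node 1 6 (.cons 0x5432167890 (.cons 0x9057861234 (.cons 0x7509861234 .nil))) (.node 1 5 (.cons 0x4321576890 .nil) (.node 4 9 (.cons 0x7689435210 (.cons 0x8675123490 (.cons 0x6875123490 .nil))) (.node 0 8 (.cons 0x7680943251 .nil) (.leaf 0x6751234908 2 .done) .done) .done) .done) (.node 1 5 .nil (.node 0 4 (.cons 0x7689043215 (.cons 0x7689043251 .nil)) (.node 1 7 (.cons 0x9043258671 .nil) (.leaf 0x4095217683 0 (.leaf 0x9043251768 0 (.leaf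 0x8671253409 1 .done))) (.leaf 0x7651234098 0 .done)) .done) .done)) .done)) (.node 5 7 .nil (.node 1 5 (.cons 0x4321576890 .nil) (.node 1 6 (.cons 0x5432167890 (.cons 0x9057861234 (.cons 0x7509861234 .nil))) .done .done) (.node 1 5 .nil (.node 0 4 (.cons 0x9867521043 (.cons 0x9867512340 (.cons 0x7689043251 .nil))) (.leaf 0x7651234098 0 .done) .done) .done)) .done)) (.node 3 7 (.cons 0x1254376890 .nil) (.node 0 8 (.cons 0x9801254376 .nil) (.node 3 8 .nil (.node 0 4 (.cons 0x6734089521 (.cons 0x9045678321 (.cons 0x7654098321 .nil))) (.node 1 7 (.cons 0x3452176890 (.cons 0x6712590834 (.cons 0x4098325671 .nil))) (.node 4 6 (.cons 0x6450987123 (.cons 0x7643809521 (.cons 0x5467123890 .nil))) (.leaf 0x2590834671 1 .done) .done) .done) (.node 5 7 .nil (.node 1 3 (.cons 0x9086752134 (.cons 0x2134576890 (.cons 0x4312576890 .nil))) (.node 2 6 (.cons 0x9873450126 (.cons 0x8762134590 (.cons 0x7625890134 .nil))) (.leaf 0x3126780954 1 .done) .done) (.node 3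 5 .nil (.node 1 7 (.cons 0x3452176890 (.cons 0x4352176890 .nil)) (.node 0 3 (.cons 0x4530986712 .nil) (.leaf 0x6712543098 0 (.node 0 4 (.cons 0x6734089521 (.cons 0x3540986712 .nil)) (.leaf 0x6712534098 0 .done) .done)) .done) .done) .done)) .done)) (.node 3 5 .nil (.node 2 4 (.cons 0x9801245376 .nil) (.node 6 9 (.cons 0x8967345210 (.cons 0x4537698012 (.cons 0x4210569873 .nil))) (.leaf 0x7698012453 0 .done) (.leaf 0x7890124356 3 (.leaf 0x7890124356 0 (.node 4 6 (.cons 0x9801254673 (.cons 0x9087645321 .nil)) (.leaf 0x5467890123 0 (.leaf 0x1246537890 1 (.node 6 9 (.cons 0x3789654210 (.cons 0x4537698012 (.cons 0x7352469801 .nil))) .done .done))) .done)))) (.node 5 7 .nil (.node 1 3 (.cons 0x2134576890 (.cons 0x4312576890 .nil)) (.node 2 6 (.cons 0x9873450126 (.cons 0x8762134590 (.cons 0x7625890134 .nil))) (.node 0 4 (.cons 0x9540876213 .nil) (.leaf 0x2678950431 0 (.leaf 0x1376890452 0 (.leaf 0x9867521340 2 .done))) .done) (.node 3 8 (.cons 0x6752109834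 .nil) (.node 0 4 (.cons 0x9045678321 (.cons 0x7654098321 .nil)) (.node 0 2 (.cons 0x6783459021 (.cons 0x6598731204 .nil)) .done (.leaf 0x9867521340 1 .done)) .done) .done)) .done) .done)) .done)) (.leaf 0x2543768901 2 (.node 4 8 (.cons 0x4890125673 .nil) (.leaf 0x1256734890 3 (.node 1 4 (.cons 0x5214376890 .nil) (.node 2 4 (.cons 0x6734258901 .nil) (.node 1 5 (.cons 0x9051243786 .nil) (.node 3 5 (.cons 0x9012487356 .nil) (.node 3 8 (.cons 0x9012456783 .nil) .done .done) .done) .done) (.node 0 8 (.cons 0x9087654123 .nil) (.leaf 0x4125908673 2 (.leaf 0x2143768095 1 .done)) (.leaf 0x3768905214 0 .done))) .done)) (.node 0 3 (.cons 0x4567890321 .nil) (.node 7 9 (.cons 0x8679034521 .nil) (.node 0 7 .nil (.node 1 6 (.cons 0x5432167890 (.cons 0x9870543216 (.cons 0x2345890761 (.cons 0x4325890761 .nil)))) (.leaf 0x734521689 0 .done) (.node 1 4 (.cons 0x3214567890 .nil) (.leaf 0x6790341258 3 (.node 0 8 (.cons 0x6790852341 .nil) (.node 0 2 .nil (.node 1 5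 (.cons 0x9086734152 .nil) (.leaf 0x8673451209 1 .done) .done) .done) (.leaf 0x2145678903 0 (.node 4 8 .nil (.node 1 3 (.cons 0x6890731452 (.cons 0x4876590312 .nil)) (.leaf 0x2548679031 0 (.leaf 0x976845213 0 .done)) (.node 0 2 (.cons 0x9730256841 .nil) (.node 0 8 .nil (.node 1 5 (.cons 0x4376890251 (.cons 0x6809734152 .nil)) (.leaf 0x8902514376 4 .done) .done) .done) .done)) .done)))) .done)) (.node 1 8 (.cons 0x4521867903 .nil) (.leaf 0x5218679034 1 (.leaf 0x2543097681 3 (.leaf 0x6790345218 4 (.node 4 9 (.cons 0x8765490321 .nil) (.leaf 0x376812549 0 (.leaf 0x2309456781 2 (.node 0 4 (.cons 0x6732540981 .nil) (.node 4 6 (.cons 0x3095467812 .nil) (.leaf 0x1876459032 2 (.node 0 8 .nil (.node 1 3 (.cons 0x7681309452 (.cons 0x2549768031 (.cons 0x2546809731 (.cons 0x4679085231 .nil)))) (.leaf 0x4679081325 3 .done) (.node 0 7 .nil (.node 1 3 (.cons 0x4679085231 (.cons 0x4980765231 (.cons 0x9076458132 (.cons 0x9073186452 .nil)))) (.leaf 0x7094523186 2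 .done) .done) .done)) .done)) .done) .done))) .done)))) .done)) (.node 1 4 (.cons 0x3214567890 .nil) (.leaf 0x6541230987 1 (.node 1 5 (.cons 0x7689034512 .nil) (.node 1 7 (.cons 0x3452176890 .nil) (.leaf 0x9867125430 2 (.node 2 6 (.cons 0x4589032671 .nil) (.leaf 0x7145890326 4 (.node 3 9 (.cons 0x8765412390 .nil) (.node 5 7 (.cons 0x1268754390 .nil) (.leaf 0x9345786210 2 .done) (.leaf 0x126785439 0 .done)) (.leaf 0x326714589 1 .done))) .done)) .done) (.node 1 5 (.cons 0x7689034512 .nil) (.node 5 7 .nil (.node 2 6 (.cons 0x1432675890 .nil) (.leaf 0x8901432675 3 (.leaf 0x5734126890 4 (.leaf 0x573412689 3 .done))) (.node 1 7 (.cons 0x3452176890 .nil) (.leaf 0x9867125430 2 (.node 3 5 (.cons 0x4530986712 .nil) .done .done)) .done)) (.node 5 7 .nil (.node 2 6 (.cons 0x1432675890 .nil) (.leaf 0x8901432675 3 (.leaf 0x5734126890 4 (.leaf 0x573412689 3 .done))) (.node 1 7 (.cons 0x3452176890 .nil) (.leaf 0x9867125430 2 (.node 3 5 (.cons 0x4530986712 .nil)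 .done .done)) .done)) .done)) (.leaf 0x2145678903 4 .done)))) (.node 5 7 (.cons 0x4309867521 .nil) (.node 1 4 (.cons 0x9867521430 .nil) (.node 4 8 (.cons 0x9841037652 .nil) (.node 6 9 (.cons 0x7301489652 .nil) (.leaf 0x1034896752 2 (.node 2 4 (.cons 0x1423789650 .nil) (.leaf 0x5698732410 1 .done) (.leaf 0x3012576984 1 .done))) .done) (.node 1 5 .nil (.node 2 4 (.cons 0x6789512430 (.cons 0x9037865142 .nil)) (.leaf 0x3768901524 3 .done) .done) (.leaf 0x3098675214 0 (.leaf 0x8903214567 1 .done)))) (.node 1 4 (.cons 0x3214567890 .nil) (.leaf 0x2576890341 4 (.node 0 8 (.cons 0x9087654123 .nil) (.node 0 7 .nil (.node 1 6 (.cons 0x5432167890 (.cons 0x8952167034 (.cons 0x2345890761 (.cons 0x4325890761 .nil)))) .done .done) .done) (.leaf 0x3098675214 3 (.leaf 0x8903214567 1 .done)))) .done)) .done))) .done)))) .done)))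
noncomputable def tc9_5_10 : T := (.node 0 4 (.cons 0x4098765123 .nil) (.node 3 5 (.cons 0x4098765321 .nil) (.node 1 8 (.cons 0x9045321876 .nil) (.node 3 7 (.cons 0x8901254376 (.cons 0x9852104376 .nil)) (.node 1 9 (.cons 0x8912376540 (.cons 0x8765321904 .nil)) (.node 6 8 (.cons 0x9867345210 (.cons 0x1259867340 (.cons 0x1986732540 (.cons 0x3768912540 .nil)))) .done .done) (.node 1 6 (.cons 0x9045618732 (.cons 0x7325618904 .nil)) (.leaf 0x8904561237 0 (.leaf 0x2354098761 0 .done)) .done)) (.node 3 7 (.cons 0x8901254376 (.cons 0x9852104376 .nil)) (.leaf 0x2189043765 2 (.leaf 0x6540981237 0 .done)) .done)) (.node 3 7 (.cons 0x8901254376 (.cons 0x9852104376 .nil)) (.node 1 6 (.cons 0x8952167340 .nil) (.leaf 0x4098761235 0 (.leaf 0x4098761235 3 (.leaf 0x4561237890 1 .done))) (.node 6 8 (.cons 0x7689012543 (.cons 0x8673409521 .nil)) (.leaf 0x4521098673 1 (.leaf 0x2543768901 2 .done)) .done)) .done)) (.leaf 0x7651234098 0 (.node 3 8 (.cons 0x7654098321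 (.cons 0x7651238904 .nil)) (.node 6 8 (.cons 0x7689012543 (.cons 0x7689043215 .nil)) (.node 0 6 (.cons 0x9851234067 .nil) (.node 1 7 (.cons 0x9871234506 (.cons 0x6095438712 (.cons 0x4325176890 (.cons 0x9854067123 .nil)))) .done (.node 7 9 (.cons 0x4560978321 (.cons 0x6798512340 (.cons 0x6097832154 .nil))) (.leaf 0x4321589760 1 .done) .done)) (.node 3 7 (.cons 0x1254376890 .nil) (.node 0 8 (.cons 0x9804567321 (.cons 0x6734089512 (.cons 0x9804512376 .nil))) (.node 2 6 (.cons 0x9873450126 (.cons 0x9087623451 (.cons 0x8951267340 .nil))) (.leaf 0x4089512673 0 .done) .done) (.leaf 0x2543768901 2 (.leaf 0x9045123768 1 (.node 2 8 (.cons 0x6734528901 (.cons 0x4098237651 (.cons 0x6732890451 .nil))) .done .done)))) .done)) (.node 2 6 (.cons 0x7625438901 (.cons 0x9015438762 (.cons 0x7625109834 .nil))) (.node 7 9 (.cons 0x4389762510 .nil) (.leaf 0x3897625104 1 (.leaf 0x6798340152 4 (.node 0 8 (.cons 0x3452679801 (.cons 0x7621598043 (.cons 0x3267980451 .nil)))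 .done .done))) .done) .done)) (.node 6 8 (.cons 0x7689012543 (.cons 0x7689043251 .nil)) (.node 1 7 (.cons 0x4325176890 .nil) (.node 6 9 (.cons 0x6987123450 (.cons 0x8967152340 .nil)) (.node 0 8 (.cons 0x5432176980 (.cons 0x5176980432 .nil)) (.leaf 0x2176980543 1 .done) .done) (.leaf 0x3251768904 2 (.node 0 3 (.cons 0x4567890321 (.cons 0x4517689032 .nil)) (.node 4 9 (.cons 0x8765490321 (.cons 0x8671549032 (.cons 0x6871549032 .nil))) .done (.node 4 6 (.cons 0x9852304671 (.cons 0x2159876430 (.cons 0x8764309512 (.cons 0x9851764032 .nil)))) (.leaf 0x1509876432 0 .done) .done)) .done))) (.node 0 3 (.cons 0x4567890321 (.cons 0x7689034512 .nil)) (.node 4 8 (.cons 0x6784309512 .nil) (.node 3 7 (.cons 0x1254376890 (.cons 0x4890125673 .nil)) (.leaf 0x2109843765 1 (.node 2 4 (.cons 0x1524376890 .nil) (.leaf 0x7342510986 1 (.node 3 5 (.cons 0x9012487653 .nil) .done (.leaf 0x5243768901 4 .done))) .done)) (.node 4 9 (.cons 0x8765490321 .nil) (.node 2 8 (.cons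 0x6782159034 (.cons 0x7682154903 .nil)) (.node 3 7 (.cons 0x1254376890 (.cons 0x3765498210 (.cons 0x7309486512 (.cons 0x6734528901 .nil)))) .done .done) .done) .done)) (.node 4 6 (.cons 0x9852103467 (.cons 0x2159876430 (.cons 0x8764309512 .nil))) (.leaf 0x9032154678 0 .done) .done)) .done)) .done)))) (.node 5 7 .nil (.node 3 5 .nil (.node 2 4 (.cons 0x4210987653 .nil) (.node 3 6 (.cons 0x8763421590 (.cons 0x9875012436 (.cons 0x9857634210 .nil))) (.leaf 0x1098763542 3 (.node 1 6 (.cons 0x5432167890 (.cons 0x9875016342 .nil)) (.leaf 0x4578901632 1 .done) .done)) (.leaf 0x7890124356 3 (.leaf 0x7890124356 0 (.node 6 8 (.cons 0x7689012543 (.cons 0x7689012534 .nil)) (.node 3 6 (.cons 0x5436789012 (.cons 0x7524368901 .nil)) (.node 2 9 (.cons 0x5436789210 (.cons 0x9243687510 (.cons 0x4536789210 .nil))) .done (.leaf 0x124536789 1 (.node 6 9 (.cons 0x7589634210 (.cons 0x7869015342 .nil)) .done .done))) (.node 1 4 (.cons 0x3214567890 (.cons 0x2143576890 .nil))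 (.node 1 6 (.cons 0x5432167890 (.cons 0x7534216890 .nil)) .done .done) .done)) .done)))) (.node 3 8 (.cons 0x6752109834 .nil) (.node 0 4 (.cons 0x9045678321 (.cons 0x7654098321 .nil)) (.node 2 6 (.cons 0x1267834590 (.cons 0x4387621590 .nil)) (.node 3 9 (.cons 0x8765123904 .nil) (.leaf 0x4501267893 0 (.leaf 0x4567893210 3 .done)) (.leaf 0x7621590438 0 .done)) (.node 4 7 (.cons 0x4765210983 .nil) (.leaf 0x2109834765 1 (.leaf 0x2109834765 2 (.node 4 8 (.cons 0x6752109843 .nil) (.node 1 8 (.cons 0x6752340981 .nil) (.node 0 6 (.cons 0x9067452183 (.cons 0x8906754321 (.cons 0x4387609512 .nil))) (.node 1 7 (.cons 0x9817604523 (.cons 0x9852340671 .nil)) .done .done) .done) .done) .done))) .done)) (.node 1 6 (.cons 0x5432167890 .nil) (.node 3 6 (.cons 0x5436789012 (.cons 0x8901257634 .nil)) (.node 4 8 (.cons 0x6752109843 .nil) (.node 0 3 (.cons 0x2167895430 (.cons 0x7654890321 (.cons 0x7612598430 .nil))) .done (.leaf 0x7521098436 1 (.leaf 0x2576348901 2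 .done))) (.node 6 9 (.cons 0x7896123450 (.cons 0x4321698750 .nil)) (.node 1 8 (.cons 0x2345187690 (.cons 0x4576321890 .nil)) (.node 0 4 (.cons 0x5187690432 (.cons 0x9618750432 (.cons 0x8157690432 (.cons 0x9816752340 .nil)))) .done .done) .done) .done)) (.node 0 4 (.cons 0x9857612340 .nil) (.leaf 0x9832167540 0 (.leaf 0x5761238904 0 (.leaf 0x7612340985 0 (.leaf 0x7612340985 3 .done)))) (.node 0 4 (.cons 0x9857612340 (.cons 0x8904325761 .nil)) (.node 2 4 (.cons 0x6124387590 (.cons 0x7890423561 .nil)) (.leaf 0x3516789042 0 .done) (.leaf 0x7561234098 0 .done)) .done))) .done)) .done)) (.node 3 5 .nil (.node 2 4 (.cons 0x4210987653 .nil) (.node 6 8 (.cons 0x7689012543 (.cons 0x3425768901 .nil)) (.node 3 7 (.cons 0x5243768901 .nil) (.leaf 0x2437689015 1 (.leaf 0x4521098673 1 .done)) (.node 3 7 (.cons 0x9051243786 .nil) (.node 1 7 (.cons 0x3452176890 (.cons 0x4352176890 .nil)) (.node 3 6 (.cons 0x9054217863 (.cons 0x9863712450 (.cons 0x8763421590 (.cons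 0x6324509871 .nil)))) .done .done) (.leaf 0x2543768901 2 .done)) .done)) (.leaf 0x7890124356 3 (.leaf 0x7890124356 0 (.node 3 7 (.cons 0x6537890124 .nil) (.node 4 6 (.cons 0x9873564210 .nil) (.leaf 0x2109873564 3 (.leaf 0x5467890123 0 (.node 2 8 (.cons 0x1287643590 (.cons 0x9012876453 .nil)) (.node 6 9 (.cons 0x3789654210 (.cons 0x5437698210 (.cons 0x1287346950 (.cons 0x1543287690 .nil)))) .done .done) (.leaf 0x1246537890 1 (.node 3 6 (.cons 0x9873654210 .nil) (.leaf 0x124536789 1 (.node 1 3 (.cons 0x7890135642 .nil) (.node 2 7 (.cons 0x9854367210 (.cons 0x3564278901 (.cons 0x6453109872 .nil))) (.leaf 0x135642789 0 .done) .done) (.leaf 0x2109873654 3 .done))) (.leaf 0x5378901246 4 .done)))))) (.node 6 8 (.cons 0x7689012543 (.cons 0x7689012534 .nil)) (.leaf 0x4521098673 1 (.leaf 0x2543768901 2 .done)) .done)) .done)))) .done) .done)) .done))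
noncomputable def tc9_5_11 : T := (.node 2 6 .nil (.node 3 7 (.cons 0x9867345210 (.cons 0x9873450126 .nil)) (.leaf 0x2673458901 1 (.leaf 0x6210985437 3 (.leaf 0x4589012673 4 .done))) (.node 1 6 (.cons 0x5432167890 .nil) (.node 0 7 (.cons 0x3458907612 .nil) (.leaf 0x6123458907 3 (.leaf 0x1670985432 1 (.node 0 2 (.cons 0x7612098543 .nil) (.node 2 7 .nil (.node 3 6 (.cons 0x5436789012 .nil) (.leaf 0x7210985436 3 (.leaf 0x4589012763 4 .done)) (.node 0 8 (.cons 0x1672345980 .nil) (.leaf 0x4327610895 0 .done) .done)) .done) (.leaf 0x9854321670 4 .done)))) (.node 3 8 (.cons 0x2678345901 .nil) (.node 1 8 (.cons 0x1876234590 .nil) (.node 4 8 .nil (.node 3 7 (.cons 0x9867345210 (.cons 0x2598437610 (.cons 0x4816732590 (.cons 0x8437625901 (.cons 0x9018452673 .nil))))) .done (.node 0 4 (.cons 0x7612589043 .nil) (.node 3 9 (.cons 0x7689345210 .nil) (.leaf 0x4093218765 1 (.leaf 0x2390456781 4 .done)) (.node 1 5 (.cons 0x7615234890 .nil) (.node 0 8 (.cons 0x7615980432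 .nil) (.node 1 4 (.cons 0x9514326780 .nil) (.leaf 0x8762341590 3 (.leaf 0x8762341590 0 .done)) .done) (.node 2 8 (.cons 0x4328761590 .nil) (.leaf 0x5904328761 1 .done) .done)) .done)) .done)) .done) (.leaf 0x7621095438 3 (.node 3 6 (.cons 0x5436789012 .nil) (.node 4 8 .nil (.node 3 7 (.cons 0x9867345210 (.cons 0x2598437610 (.cons 0x8437610952 (.cons 0x8437625901 .nil)))) .done (.node 2 4 (.cons 0x7610983425 .nil) (.node 7 9 (.cons 0x5243897610 .nil) (.leaf 0x4261059783 1 (.leaf 0x2501679834 4 (.leaf 0x6243879501 2 .done))) .done) .done)) .done) .done))) .done)) (.node 1 6 (.cons 0x5432167890 .nil) (.node 7 9 (.cons 0x9786123450 .nil) (.leaf 0x3216879054 2 (.leaf 0x1234509786 1 (.node 1 5 .nil (.node 0 4 (.cons 0x8762340951 (.cons 0x7986215043 .nil)) (.node 1 7 (.cons 0x6234059871 (.cons 0x1768952340 .nil)) (.leaf 0x5043261789 1 .done) (.leaf 0x8762340159 2 .done)) (.node 0 4 (.cons 0x1598762340 .nil) (.leaf 0x6789510432 1 (.node 3 5 (.cons 0x8976215340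 .nil) (.node 1 4 (.cons 0x9786214350 .nil) (.leaf 0x2687905341 4 .done) .done) (.leaf 0x8762340159 2 .done))) .done)) .done))) (.node 0 7 (.cons 0x3458907612 .nil) (.leaf 0x6123458907 3 (.leaf 0x1670985432 1 (.node 0 2 (.cons 0x7612098543 .nil) (.node 6 9 (.cons 0x3458769021 .nil) (.node 7 9 (.cons 0x7986123450 .nil) (.node 1 4 (.cons 0x3214567890 .nil) (.node 0 6 (.cons 0x3412589760 .nil) (.node 0 3 (.cons 0x9876541230 .nil) (.leaf 0x6541230987 1 (.leaf 0x8521430679 1 .done)) .done) (.leaf 0x9502341687 3 (.leaf 0x9502341687 0 .done))) .done) .done) .done) (.leaf 0x9854321670 4 .done)))) .done)) .done))) (.node 3 5 (.cons 0x7689012534 .nil) (.node 5 7 .nil (.node 1 6 (.cons 0x5432167890 (.cons 0x9057861234 (.cons 0x7509861234 .nil))) (.node 1 5 (.cons 0x4321576890 .nil) (.node 4 9 (.cons 0x7689435210 (.cons 0x8675123490 (.cons 0x6875123490 .nil))) (.node 2 6 (.cons 0x7862150943 (.cons 0x3490578621 .nil)) .done .done) .done) .done) (.node 1 5 .nil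 (.node 0 4 (.cons 0x7689043215 (.cons 0x7689043251 .nil)) (.node 1 7 (.cons 0x1768952340 (.cons 0x6712589043 .nil)) (.leaf 0x8671253409 1 .done) (.leaf 0x7651234098 0 .done)) .done) .done)) (.node 5 7 .nil (.node 1 5 (.cons 0x4321576890 .nil) (.node 1 6 (.cons 0x5432167890 (.cons 0x9057861234 (.cons 0x7509861234 .nil))) .done .done) (.node 1 5 .nil (.node 0 4 (.cons 0x9867521043 (.cons 0x9867512340 (.cons 0x7689043251 .nil))) (.leaf 0x7651234098 0 .done) .done) .done)) .done)) (.node 3 7 (.cons 0x2543768901 .nil) (.node 0 8 (.cons 0x9801254376 .nil) (.node 4 9 (.cons 0x4980125673 .nil) (.node 6 9 (.cons 0x8967345210 .nil) (.node 1 4 (.cons 0x4123789650 .nil) (.leaf 0x8941237650 3 (.node 3 5 (.cons 0x2143587690 .nil) (.leaf 0x6532149087 4 .done) (.node 5 7 (.cons 0x6573214980 .nil) (.node 2 6 (.cons 0x4376259801 .nil) (.node 3 5 (.cons 0x7896210534 .nil) .done (.leaf 0x895267341 4 .done)) .done) .done))) (.leaf 0x7345210896 1 .done)) (.node 0 6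 (.cons 0x1237894560 .nil) (.leaf 0x7894560123 0 (.node 5 7 (.cons 0x8906754321 .nil) (.node 1 7 (.cons 0x6809432571 .nil) (.node 0 4 (.cons 0x1732568940 .nil) (.leaf 0x6523710498 3 (.leaf 0x5689401732 4 .done)) (.leaf 0x6098543217 2 .done)) .done) .done)) (.leaf 0x2567349801 4 .done))) (.node 0 2 (.cons 0x9867345201 .nil) (.node 2 6 (.cons 0x9873450126 .nil) (.node 3 9 (.cons 0x5439876210 .nil) (.leaf 0x4501267893 0 (.node 3 8 (.cons 0x9543876201 .nil) (.node 5 7 (.cons 0x9345786201 .nil) (.node 3 5 .nil (.node 4 9 (.cons 0x4983765210 (.cons 0x6735498012 .nil)) (.leaf 0x3867521094 0 .done) .done) .done) .done) (.leaf 0x8762105439 0 .done))) (.node 6 9 (.cons 0x8967345210 .nil) (.leaf 0x3450126987 0 (.node 2 7 (.cons 0x3452768901 .nil) (.node 7 9 (.cons 0x4379862501 .nil) (.node 1 4 (.cons 0x8952673410 .nil) (.leaf 0x526897341 3 (.leaf 0x5014379862 1 (.leaf 0x3798625014 4 (.leaf 0x2598014376 2 .done)))) .done) .done) .done)) .done)) (.node 5 7 .nil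 (.node 1 4 (.cons 0x3214567890 (.cons 0x9867520143 (.cons 0x5768902341 .nil))) (.leaf 0x5768901432 2 (.leaf 0x2014376895 3 .done)) (.node 3 5 .nil (.node 1 4 (.cons 0x3214567890 (.cons 0x6789534102 (.cons 0x9021435876 .nil))) (.leaf 0x7341025986 3 (.leaf 0x2014376895 3 .done)) .done) .done)) .done)) .done)) (.leaf 0x4521098673 1 (.node 4 8 (.cons 0x4890125673 .nil) (.leaf 0x1256734890 3 (.node 3 8 .nil (.node 2 4 (.cons 0x5243768901 (.cons 0x9012456783 .nil)) (.leaf 0x8901245673 4 .done) (.node 3 5 .nil (.node 2 4 (.cons 0x5243768901 (.cons 0x9012487356 .nil)) (.leaf 0x7890124356 3 .done) (.node 3 6 (.cons 0x5436789012 .nil) (.node 1 5 (.cons 0x4376890152 .nil) (.node 5 7 .nil (.node 1 4 (.cons 0x6734125890 (.cons 0x6573214890 .nil)) (.leaf 0x5768901432 2 .done) .done) .done) .done) .done)) .done)) .done)) (.node 0 3 (.cons 0x4567890321 .nil) (.node 3 5 .nil (.node 2 4 (.cons 0x4210987653 .nil) (.node 1 5 (.cons 0x7689015243 .nil) (.node 1 9 (.cons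 0x6785430912 (.cons 0x7865423091 (.cons 0x7685243091 (.cons 0x6785421903 .nil)))) (.node 0 7 (.cons 0x2345198670 (.cons 0x9158670342 (.cons 0x3245198670 .nil))) .done .done) (.leaf 0x4251098673 3 .done)) (.leaf 0x7890124356 3 (.leaf 0x7890124356 0 (.node 2 6 (.cons 0x9034587621 (.cons 0x4265378901 .nil)) (.node 0 2 (.cons 0x3459876201 (.cons 0x4359876201 .nil)) (.node 1 9 (.cons 0x9126785430 (.cons 0x8910267354 (.cons 0x6201987354 (.cons 0x4265378910 (.cons 0x6245378910 .nil))))) .done .done) (.node 4 8 (.cons 0x2678435901 .nil) (.leaf 0x7621095348 3 (.leaf 0x6784359012 1 .done)) .done)) .done)))) (.node 3 6 (.cons 0x5436789012 .nil) (.node 0 6 .nil (.node 1 4 (.cons 0x3214567890 (.cons 0x2378906541 .nil)) (.leaf 0x8906541237 0 (.leaf 0x6098521437 1 (.leaf 0x2145678903 0 .done))) (.node 0 2 (.cons 0x7634589021 .nil) (.node 0 7 .nil (.node 1 4 (.cons 0x3214567890 (.cons 0x9854120763 (.cons 0x9867023541 (.cons 0x9870653214 .nil)))) (.leaf 0x6098521437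 1 .done) .done) .done) .done)) (.node 5 7 (.cons 0x8901257634 .nil) (.node 1 5 .nil (.node 0 4 (.cons 0x7634098521 (.cons 0x7634098512 .nil)) (.node 2 9 (.cons 0x6785430921 (.cons 0x4368751092 (.cons 0x6785129034 (.cons 0x4015367892 .nil)))) .done .done) .done) .done) .done)) .done)) (.node 1 4 (.cons 0x3214567890 .nil) (.leaf 0x6541230987 1 (.node 0 8 (.cons 0x9087654123 .nil) (.node 1 5 (.cons 0x6780951432 .nil) (.node 3 5 (.cons 0x9087653214 .nil) (.node 5 7 (.cons 0x9086752341 .nil) .done .done) .done) (.node 3 6 (.cons 0x2367809541 .nil) (.node 1 6 (.cons 0x5432167890 .nil) (.node 0 7 (.cons 0x3458907612 .nil) (.leaf 0x6123458907 3 (.leaf 0x1670985432 1 .done)) (.node 4 8 (.cons 0x7654890321 .nil) (.leaf 0x1673259084 3 (.leaf 0x952376148 4 .done)) .done)) (.leaf 0x7809541236 2 (.node 4 7 (.cons 0x4789056321 .nil) (.node 0 2 (.cons 0x2095876341 .nil) (.node 2 6 (.cons 0x2634789501 .nil) (.leaf 0x8950126347 4 .done) (.leaf 0x8763412095 1 .done))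 (.leaf 0x6509874123 2 .done)) .done))) .done)) (.node 4 8 (.cons 0x7654890321 .nil) (.node 3 8 (.cons 0x7654123890 .nil) (.node 3 9 (.cons 0x7654893012 .nil) (.node 0 7 (.cons 0x9845670321 .nil) (.node 7 9 (.cons 0x2397056841 .nil) (.leaf 0x3970568412 4 (.leaf 0x568412397 3 .done)) (.leaf 0x1238907654 1 (.node 1 5 (.cons 0x9845123076 .nil) (.node 0 4 (.cons 0x2567398401 .nil) (.leaf 0x3986704152 0 (.leaf 0x3986704152 3 .done)) (.node 0 2 (.cons 0x4893765201 .nil) (.node 1 7 (.cons 0x8417659320 .nil) (.leaf 0x259348671 1 (.leaf 0x3217654890 3 .done)) (.leaf 0x7684159320 0 .done)) .done)) .done))) .done) (.node 4 7 (.cons 0x5674123890 .nil) (.leaf 0x2109834765 2 (.leaf 0x9832147650 3 .done)) .done)) (.node 3 8 (.cons 0x7654123890 .nil) (.node 4 9 (.cons 0x7654983012 .nil) (.node 0 6 (.cons 0x9834521067 .nil) (.node 7 9 (.cons 0x6798345210 .nil) (.leaf 0x1254389760 1 (.leaf 0x1254389760 2 .done)) (.node 5 7 (.cons 0x2375609841 .nil) (.leaf 0x4890657321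 3 (.leaf 0x4890657321 0 .done)) .done)) .done) (.node 4 7 (.cons 0x5674123890 .nil) (.leaf 0x2109834765 1 (.leaf 0x2109834765 2 (.leaf 0x9832147650 3 .done))) .done)) .done)) (.leaf 0x2145678903 4 .done)))) (.node 0 8 .nil (.node 1 6 (.cons 0x5432167890 (.cons 0x9801673452 (.cons 0x2345908761 .nil))) (.leaf 0x954321678 0 (.node 1 4 (.cons 0x3214567890 (.cons 0x7614325980 (.cons 0x5908761432 .nil))) (.node 5 7 (.cons 0x6758903412 (.cons 0x2341675980 (.cons 0x8095761432 .nil))) .done (.leaf 0x8903214567 1 .done)) .done)) (.node 0 2 .nil (.node 1 6 (.cons 0x5432167890 (.cons 0x1678954320 (.cons 0x9021678543 (.cons 0x2098543761 .nil)))) (.node 1 4 (.cons 0x3214567890 (.cons 0x5987614320 (.cons 0x3416785902 (.cons 0x8902376541 .nil)))) (.leaf 0x8903214567 1 .done) .done) (.node 0 7 .nil (.node 1 4 (.cons 0x3214567890 (.cons 0x9852143076 (.cons 0x8907654123 .nil))) (.node 1 3 (.cons 0x6780954132 (.cons 0x9867013452 (.cons 0x6709854312 (.cons 0x9078654132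 .nil)))) .done (.leaf 0x8903214567 1 .done)) .done) .done)) .done)) .done))) .done)))) .done)))
noncomputable def tc9_5_12 : T := (.node 2 6 (.cons 0x3459876210 (.cons 0x8762109543 .nil)) (.node 1 5 (.cons 0x1543267890 .nil) (.node 0 3 (.cons 0x4567890321 .nil) (.node 3 9 (.cons 0x2678934510 .nil) (.leaf 0x4501267893 0 (.node 5 8 (.cons 0x9034587621 .nil) (.node 3 5 .nil (.node 0 4 (.cons 0x6789512340 (.cons 0x4098765321 .nil)) (.leaf 0x6215340987 1 (.leaf 0x3598762104 0 .done)) .done) .done) (.leaf 0x8762105439 0 .done))) (.leaf 0x6215430987 1 (.leaf 0x1267895430 0 (.leaf 0x4598762103 0 .done)))) (.leaf 0x7623451098 1 .done)) (.node 3 5 (.cons 0x4359876210 (.cons 0x8762109534 .nil)) (.node 3 6 (.cons 0x5436789012 (.cons 0x7895012634 (.cons 0x8763459012 .nil))) (.node 1 6 (.cons 0x5432167890 (.cons 0x8761234590 .nil)) (.node 2 4 (.cons 0x5342678901 (.cons 0x8762435901 (.cons 0x7895342610 .nil))) (.node 0 3 (.cons 0x4567890321 .nil) (.node 5 8 (.cons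 0x9587621034 (.cons 0x4309587621 .nil)) .done (.leaf 0x9542103678 0 .done)) .done) .done) .done) .done) .done)) (.node 5 8 .nil (.node 2 6 (.cons 0x9012678543 .nil) (.node 1 5 (.cons 0x1543267890 .nil) (.node 3 8 (.cons 0x7625438901 .nil) (.leaf 0x6783459012 1 (.node 1 6 (.cons 0x7834590162 (.cons 0x7612345890 .nil)) (.node 4 7 (.cons 0x4789056123 (.cons 0x7438952610 (.cons 0x9012654783 (.cons 0x9874326150 (.cons 0x3476125890 .nil))))) .done .done) (.leaf 0x7621095438 3 .done))) (.leaf 0x7623451098 1 .done)) (.node 3 9 (.cons 0x5439876210 .nil) (.leaf 0x4501267893 0 (.node 1 6 (.cons 0x5432167890 (.cons 0x7612345890 .nil)) (.node 0 7 (.cons 0x4562107893 (.cons 0x9345870126 (.cons 0x4395870162 (.cons 0x6123907854 (.cons 0x9345870162 .nil))))) .done (.node 4 7 (.cons 0x3987456210 (.cons 0x4785612390 (.cons 0x7439852610 (.cons 0x3476125890 .nil)))) (.leaf 0x5987432610 2 .done) .done)) (.leaf 0x8762109345 3 .done))) (.node 3 5 (.cons 0x9012678534 .nil)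 (.node 0 4 (.cons 0x2678953401 (.cons 0x9853401267 .nil)) (.node 1 9 (.cons 0x8765409123 (.cons 0x6785409123 .nil)) (.leaf 0x6234019587 4 (.leaf 0x8762190435 4 (.leaf 0x7853409126 3 .done))) (.node 1 5 (.cons 0x9043267851 .nil) .done .done)) .done) .done))) (.node 3 5 .nil (.node 2 4 (.cons 0x4210987653 .nil) (.node 1 5 .nil (.node 3 6 (.cons 0x2436789510 (.cons 0x5436789012 (.cons 0x5109876342 .nil))) (.leaf 0x1098763542 3 (.leaf 0x9015423678 0 .done)) (.node 6 8 (.cons 0x7689012543 (.cons 0x7689012534 .nil)) (.node 3 7 (.cons 0x5243768901 .nil) (.leaf 0x2437689015 1 (.leaf 0x4521098673 1 (.leaf 0x4251098673 3 .done))) (.node 1 7 (.cons 0x3452176890 (.cons 0x4352176890 .nil)) (.node 3 7 (.cons 0x9051243786 .nil) (.leaf 0x2543768901 2 (.node 6 9 (.cons 0x6987123450 (.cons 0x2437869051 .nil)) (.leaf 0x512437869 3 .done) .done)) (.node 3 6 (.cons 0x9054217863 (.cons 0x7124509863 (.cons 0x9051243687 (.cons 0x6324509871 .nil)))) (.leaf 0x1098763542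 0 .done) .done)) .done)) .done)) (.leaf 0x7890124356 3 (.leaf 0x7890124356 0 (.node 6 8 (.cons 0x7689012543 (.cons 0x7689012534 .nil)) (.node 3 7 (.cons 0x6537890124 .nil) (.node 4 6 (.cons 0x9873564210 .nil) (.leaf 0x2109873564 3 (.leaf 0x5467890123 0 (.node 2 8 (.cons 0x2876435901 (.cons 0x9012876453 .nil)) (.node 0 6 (.cons 0x2895437601 (.cons 0x9873560124 .nil)) (.leaf 0x4376012895 2 .done) .done) (.leaf 0x1246537890 1 (.leaf 0x5378901246 4 .done))))) (.leaf 0x4521098673 1 (.node 2 8 (.cons 0x6734528901 .nil) (.node 1 4 (.cons 0x3214567890 (.cons 0x9014287356 .nil)) (.leaf 0x8256734109 3 (.node 2 7 (.cons 0x3452768901 (.cons 0x6728953410 (.cons 0x1453276890 .nil))) (.leaf 0x986725341 4 .done) .done)) (.node 1 6 (.cons 0x1654237890 (.cons 0x4537610982 .nil)) (.leaf 0x8245376109 0 (.leaf 0x7345289016 4 (.leaf 0x9016734528 1 .done))) .done)) .done))) (.node 3 7 (.cons 0x6537890124 .nil) (.node 6 9 (.cons 0x3789654210 .nil) (.node 0 8 (.cons 0x5437698012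 (.cons 0x7356980124 (.cons 0x4537698012 .nil))) (.leaf 0x9673542108 0 .done) (.node 1 7 (.cons 0x3452176890 (.cons 0x5342178690 (.cons 0x4352176890 .nil))) (.leaf 0x9687124350 2 .done) .done)) (.leaf 0x2543768901 2 (.node 2 8 (.cons 0x6734528901 .nil) (.node 4 6 (.cons 0x2876435901 (.cons 0x7356428901 (.cons 0x7643528901 .nil))) (.leaf 0x7821095346 3 (.leaf 0x5467890123 0 .done)) (.node 1 6 (.cons 0x1654237890 (.cons 0x4537610982 .nil)) (.leaf 0x8245376109 0 (.leaf 0x7345289016 4 (.leaf 0x9016734528 1 .done))) .done)) .done))) .done)) .done)))) (.node 1 5 .nil (.node 5 7 .nil (.node 0 4 (.cons 0x4098765123 (.cons 0x8904321576 .nil)) (.node 1 6 (.cons 0x9875043216 (.cons 0x5432167890 (.cons 0x9857612340 .nil))) (.node 1 8 (.cons 0x9045321876 (.cons 0x6187590432 .nil)) .done .done) (.leaf 0x7651234098 0 (.node 0 6 (.cons 0x8906754321 (.cons 0x8906751234 .nil)) (.node 4 7 (.cons 0x9852106743 (.cons 0x9874321506 .nil)) (.leaf 0x651234789 0 (.node 1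 8 (.cons 0x6752340981 (.cons 0x9067812354 .nil)) (.leaf 0x7435218906 1 (.leaf 0x5189067432 0 .done)) .done)) (.node 1 8 (.cons 0x2345906781 (.cons 0x6752340981 .nil)) (.leaf 0x954321876 0 (.leaf 0x7543218906 3 .done)) .done)) .done))) (.node 6 8 (.cons 0x7689012543 .nil) (.node 0 4 (.cons 0x3409867521 (.cons 0x3409867512 (.cons 0x7689043251 .nil))) (.leaf 0x7651234098 0 .done) (.node 3 7 (.cons 0x2543768901 (.cons 0x4376890152 .nil)) (.node 3 6 (.cons 0x5436789012 .nil) (.node 0 2 (.cons 0x9867345201 (.cons 0x8902157634 .nil)) (.node 2 7 (.cons 0x9854367210 .nil) (.leaf 0x1276345890 0 (.node 2 9 (.cons 0x7634589210 (.cons 0x9201543786 (.cons 0x4376892510 .nil))) .done .done)) (.leaf 0x9021543678 0 .done)) (.node 2 4 (.cons 0x9873650124 (.cons 0x2436789510 (.cons 0x6342157890 .nil))) (.node 7 9 (.cons 0x4367985210 (.cons 0x8679015243 (.cons 0x4236879051 .nil))) .done .done) .done)) (.node 0 3 (.cons 0x4567890321 .nil) (.node 2 6 (.cons 0x8903457621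 (.cons 0x8901526734 .nil)) (.node 0 4 (.cons 0x1598762340 .nil) (.node 2 9 (.cons 0x6298734501 (.cons 0x6298734510 (.cons 0x8762953401 (.cons 0x8926730154 .nil)))) .done (.leaf 0x6789510432 1 (.leaf 0x8762340159 2 .done))) (.leaf 0x4512678903 2 .done)) (.node 4 7 (.cons 0x9852103476 (.cons 0x9867430152 .nil)) (.node 1 4 (.cons 0x3214567890 .nil) (.node 4 6 (.cons 0x8903467521 (.cons 0x8903467512 .nil)) (.leaf 0x321564789 0 .done) (.leaf 0x3098674152 3 (.leaf 0x8903214567 1 .done))) .done) .done)) .done)) (.node 0 3 (.cons 0x4567890321 (.cons 0x7689034512 .nil)) (.node 2 4 (.cons 0x6789510342 .nil) (.node 1 6 (.cons 0x5987610342 (.cons 0x9587610342 (.cons 0x9857612430 (.cons 0x8761095342 .nil)))) .done (.leaf 0x1243098675 0 (.node 7 9 (.cons 0x6798521034 (.cons 0x6879035124 .nil)) (.leaf 0x8651243097 0 .done) .done))) (.node 1 4 (.cons 0x3214567890 .nil) (.node 2 9 (.cons 0x1456789230 (.cons 0x4156789230 .nil)) (.leaf 0x4567892301 3 (.leaf 0x4567892301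 0 .done)) (.node 0 8 (.cons 0x9087654123 (.cons 0x6780951432 .nil)) (.node 2 8 (.cons 0x9032876541 (.cons 0x6782341590 .nil)) (.node 0 6 (.cons 0x8760951432 .nil) (.leaf 0x3415906782 3 (.leaf 0x3415906782 0 (.node 3 7 (.cons 0x1254376890 (.cons 0x9806732154 (.cons 0x7341590682 .nil))) .done .done))) .done) .done) (.leaf 0x9876541230 0 (.leaf 0x9876541230 3 .done)))) .done)) .done))) .done)) .done) .done)) (.node 6 8 (.cons 0x7689012543 .nil) tc9_5_11 .done))) (.node 5 8 .nil (.node 1 6 (.cons 0x5432167890 (.cons 0x7612345890 .nil)) (.node 2 6 (.cons 0x9012678543 .nil) (.node 1 5 (.cons 0x1543267890 .nil) (.leaf 0x7623451098 1 .done) (.node 1 4 (.cons 0x3214567890 (.cons 0x3412678590 .nil)) (.node 0 7 (.cons 0x8907654123 (.cons 0x8590762143 (.cons 0x6709854123 (.cons 0x5890762341 .nil)))) (.leaf 0x2345890761 1 .done) (.node 0 3 (.cons 0x2167895430 (.cons 0x4309587621 .nil)) (.leaf 0x2145678903 4 (.leaf 0x8903214567 1 (.leaf 0x9876541230 3 .done)))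 .done)) .done)) (.node 0 8 (.cons 0x3459087612 .nil) (.leaf 0x7612345908 2 (.node 0 2 (.cons 0x8761209543 .nil) (.node 3 6 (.cons 0x8763459021 (.cons 0x7634589012 (.cons 0x4367859021 .nil))) (.node 0 7 (.cons 0x9852107634 .nil) (.node 1 9 (.cons 0x8763459120 (.cons 0x4563219870 (.cons 0x4367859120 (.cons 0x6321987054 .nil)))) (.leaf 0x3458761902 2 .done) (.node 0 3 (.cons 0x4567890321 (.cons 0x4309587612 .nil)) (.node 7 9 (.cons 0x8976345210 (.cons 0x4367985210 (.cons 0x4589763012 .nil))) .done .done) .done)) (.node 0 3 (.cons 0x4567890321 (.cons 0x4309587612 .nil)) (.node 2 9 (.cons 0x7854361092 .nil) (.leaf 0x6785432901 1 (.leaf 0x6785432901 2 (.leaf 0x1678543092 1 .done))) .done) .done)) (.node 1 5 .nil (.node 4 6 (.cons 0x3467895120 (.cons 0x7643209851 (.cons 0x3467859021 (.cons 0x5120987643 .nil)))) .done (.node 0 6 (.cons 0x7609854321 .nil) (.node 1 4 (.cons 0x3214567890 (.cons 0x7890654123 .nil)) (.node 3 7 (.cons 0x8901254376 (.cons 0x3760895412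 (.cons 0x9085412376 (.cons 0x4123765890 (.cons 0x8951437602 .nil))))) .done .done) (.node 1 4 (.cons 0x3214567890 (.cons 0x9851432067 .nil)) (.node 2 9 (.cons 0x1543298760 (.cons 0x7854329061 (.cons 0x7854160923 .nil))) .done .done) .done)) .done)) .done)) (.node 1 5 (.cons 0x9087615432 .nil) (.node 0 6 (.cons 0x7609854321 .nil) (.node 1 4 (.cons 0x3214567890 (.cons 0x7890654123 .nil)) (.node 2 9 (.cons 0x9234516780 (.cons 0x9234516087 (.cons 0x7608923415 (.cons 0x7614580923 .nil)))) .done .done) (.node 4 7 (.cons 0x9806743251 (.cons 0x9852106743 (.cons 0x3476098521 .nil))) (.leaf 0x2347609851 1 (.leaf 0x6743215890 4 .done)) .done)) .done) .done))) (.node 4 7 (.cons 0x4789056123 (.cons 0x9058743216 (.cons 0x1674325890 (.cons 0x3476125890 .nil)))) (.node 0 3 (.cons 0x8952167430 (.cons 0x4309587612 (.cons 0x9852103476 .nil))) (.leaf 0x6125890347 1 (.node 0 4 (.cons 0x9874056123 (.cons 0x3409587612 (.cons 0x7612340985 .nil))) .done .done)) .done)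 .done))) (.node 1 5 .nil tc9_5_10 (.node 6 8 (.cons 0x7689012543 .nil) tc9_5_9 .done))) .done)))
noncomputable def uc9_5_2 : T := tc9_5_12
theorem sub_c9_5_2 : root 9 refs9_5 [] 0x700000008706000000006050000000050300000000304060500004030000000030100000060102000000002018000500010 0xfe7fff3fff9fffd7ff87ffe7fff5ffb9fff9fedd 9 5 9 .nil uc9_5_2 = true := by decide +kernel
noncomputable def tc9_5_13 : T := (.node 1 5 .nil (.node 0 7 (.cons 0x8907612345 (.cons 0x8907615432 .nil)) (.node 0 3 (.cons 0x9876541230 (.cons 0x8967034152 .nil)) (.leaf 0x6541230987 1 (.node 3 8 (.cons 0x5214389670 (.cons 0x4387690512 (.cons 0x2514389670 .nil))) (.leaf 0x2507698341 0 .done) .done)) (.node 0 2 (.cons 0x8769021543 .nil) (.leaf 0x9023451678 0 (.node 0 3 (.cons 0x9876541230 .nil) (.leaf 0x6541230987 1 (.node 0 8 (.cons 0x7698034125 (.cons 0x7698034152 .nil)) .done (.node 2 9 (.cons 0x1456789230 (.cons 0x4156789230 .nil)) (.leaf 0x4567892301 0 .done) .done))) (.node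 0 6 (.cons 0x9876023415 .nil) (.node 5 9 (.cons 0x6078954123 (.cons 0x6789514320 .nil)) .done .done) .done))) .done)) (.node 1 8 (.cons 0x3450967812 .nil) (.node 1 3 (.cons 0x8769054312 .nil) (.node 1 9 .nil (.node 0 8 (.cons 0x4567809132 .nil) (.leaf 0x4508769123 1 (.leaf 0x5432196780 3 (.leaf 0x7805432196 4 .done))) (.node 1 7 .nil (.node 0 4 (.cons 0x8904567123 (.cons 0x6540987123 (.cons 0x4098176523 .nil))) (.node 3 7 (.cons 0x5218967340 (.cons 0x6512378904 .nil)) (.leaf 0x6540981237 0 .done) .done) .done) .done)) .done) (.node 5 9 .nil (.node 0 6 (.cons 0x1234598760 .nil) (.leaf 0x4598760123 0 (.leaf 0x7812345906 4 (.leaf 0x5906781234 1 .done))) (.node 1 9 .nil (.node 0 8 (.cons 0x6780591432 .nil) (.leaf 0x4508769123 1 (.leaf 0x5432196780 3 (.node 0 7 (.cons 0x8907612345 (.cons 0x4198076523 (.cons 0x6708914523 .nil))) .done .done))) (.node 1 3 (.cons 0x8769054312 .nil) (.node 1 7 .nil (.node 0 6 (.cons 0x4590678132 (.cons 0x8952341760 (.cons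 0x6098715432 .nil))) .done .done) .done) .done)) .done)) .done)) .done)) (.node 0 7 (.cons 0x8907612345 .nil) (.node 0 6 .nil (.node 5 9 (.cons 0x1234598760 .nil) (.leaf 0x4598760123 0 (.node 1 5 (.cons 0x6078951234 .nil) (.node 4 6 (.cons 0x6432159870 (.cons 0x8907643251 .nil)) .done .done) (.node 2 8 (.cons 0x3450967821 (.cons 0x5906782341 (.cons 0x3287609541 .nil))) (.node 3 8 (.cons 0x1438259670 (.cons 0x7069528341 (.cons 0x9528341067 .nil))) (.leaf 0x4382596701 4 .done) (.node 1 7 (.cons 0x8259607143 (.cons 0x6095417823 .nil)) (.leaf 0x2178906543 0 .done) .done)) .done))) (.node 4 6 .nil (.node 5 8 (.cons 0x7612345890 (.cons 0x9852107643 (.cons 0x9078564123 (.cons 0x3467098521 .nil)))) (.node 5 9 (.cons 0x8590761432 (.cons 0x8709564123 .nil)) .done .done) (.node 6 8 (.cons 0x7689012543 .nil) (.node 3 6 (.cons 0x5436789012 .nil) (.node 2 6 .nil (.node 3 8 (.cons 0x9834670125 (.cons 0x7834509621 (.cons 0x7625438901 .nil))) (.node 5 9 (.cons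 0x8341259670 (.cons 0x5962143870 (.cons 0x4389526701 .nil))) .done .done) .done) .done) .done) .done)) .done)) (.node 6 8 (.cons 0x7689012543 .nil) (.node 4 6 .nil (.node 3 8 (.cons 0x7098321645 (.cons 0x7643890125 .nil)) (.node 1 8 (.cons 0x7690521834 (.cons 0x9054678123 .nil)) (.node 2 7 (.cons 0x8345096721 .nil) (.leaf 0x983452761 1 (.leaf 0x5438127690 2 (.leaf 0x3450967218 1 (.leaf 0x9054387216 1 .done)))) .done) (.node 1 9 (.cons 0x9145238670 (.cons 0x8764321905 (.cons 0x2387645091 .nil))) (.leaf 0x4523891076 1 .done) .done)) (.node 4 8 (.cons 0x5489076123 .nil) (.node 4 9 .nil (.node 3 8 (.cons 0x5678321490 .nil) (.leaf 0x6783214905 1 (.leaf 0x6705498321 3 .done)) (.node 0 4 .nil (.node 3 5 (.cons 0x1235498670 (.cons 0x9861235407 .nil)) (.leaf 0x7689453210 0 (.leaf 0x6789041235 3 .done)) .done) .done)) (.node 3 6 (.cons 0x3670984521 .nil) (.node 5 8 (.cons 0x7612345890 .nil) (.node 2 6 (.cons 0x9012634587 .nil) (.node 0 6 .nil (.node 1 9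 (.cons 0x2364587091 (.cons 0x9123450687 .nil)) (.leaf 0x912345876 0 (.leaf 0x8546321907 3 .done)) .done) .done) (.node 5 9 (.cons 0x8763459012 .nil) (.node 4 7 (.cons 0x3216895470 .nil) (.node 0 6 (.cons 0x8954706123 .nil) (.node 1 9 (.cons 0x1985234760 .nil) (.leaf 0x3219506874 3 (.leaf 0x591234786 3 .done)) .done) .done) .done) .done)) (.node 3 5 (.cons 0x4890763521 .nil) (.leaf 0x2536709841 0 (.leaf 0x9076123548 1 (.node 0 6 .nil (.node 1 7 (.cons 0x5217634890 (.cons 0x2534890671 .nil)) (.leaf 0x4890671253 3 .done) .done) .done))) .done)) .done)) .done)) (.node 0 8 (.cons 0x9087654123 .nil) (.node 1 8 (.cons 0x3450967812 .nil) (.node 0 2 (.cons 0x9678120543 .nil) (.node 2 8 (.cons 0x3450967821 .nil) (.node 3 8 .nil (.node 0 3 (.cons 0x7690382145 (.cons 0x7690382541 .nil)) .done (.node 2 9 (.cons 0x3814529670 .nil) (.leaf 0x4567832901 1 .done) .done)) .done) .done) (.node 2 8 (.cons 0x3450967821 .nil) (.node 3 8 .nil (.node 2 7 (.cons 0x7216908345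 .nil) (.leaf 0x983452761 1 (.leaf 0x9054387216 1 .done)) (.node 4 8 (.cons 0x5489076123 .nil) (.node 5 8 (.cons 0x7612345890 .nil) .done .done) .done)) .done) .done)) (.node 0 6 .nil (.node 3 8 (.cons 0x9834521067 (.cons 0x9065412387 .nil)) (.node 1 7 (.cons 0x9086714325 (.cons 0x9083256714 .nil)) (.leaf 0x2543890671 2 .done) .done) .done) .done)) (.node 0 8 (.cons 0x9087654123 .nil) (.node 3 8 (.cons 0x9076832541 .nil) (.node 0 2 (.cons 0x9678345021 .nil) (.node 0 6 (.cons 0x9834521067 .nil) .done .done) (.node 4 6 (.cons 0x7643890125 .nil) (.node 4 8 (.cons 0x5489076123 .nil) (.node 3 6 (.cons 0x3670984521 .nil) (.node 5 9 (.cons 0x7643895210 .nil) (.leaf 0x2590763841 4 (.leaf 0x763841259 3 .done)) .done) .done) .done) .done)) (.node 0 6 .nil (.node 3 8 (.cons 0x9076832541 (.cons 0x9834521067 (.cons 0x9065412387 .nil))) .done .done) .done)) .done))) (.node 5 8 (.cons 0x7612345890 .nil) (.leaf 0x4321670985 3 (.leaf 0x3458907612 1 (.node 6 8 (.cons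 0x7689012543 .nil) (.node 5 9 .nil (.node 0 3 (.cons 0x4567890321 (.cons 0x7689543012 (.cons 0x8765903214 .nil))) (.node 0 8 (.cons 0x9087654123 (.cons 0x6780954123 .nil)) (.leaf 0x3459807612 4 .done) .done) (.node 1 5 (.cons 0x8907615432 .nil) (.node 3 5 .nil (.node 0 2 (.cons 0x7023459861 (.cons 0x7869534120 (.cons 0x8769021453 .nil))) (.node 0 6 (.cons 0x7896021543 (.cons 0x7896021534 .nil)) .done .done) .done) .done) .done)) (.node 5 9 (.cons 0x8670952341 .nil) (.node 0 6 .nil (.node 2 7 (.cons 0x7234168590 (.cons 0x8954327061 (.cons 0x6095872341 .nil))) (.leaf 0x6859072341 4 (.leaf 0x1685907234 3 .done)) .done) .done) .done)) (.leaf 0x9854321670 4 .done)))) .done))) (.node 0 3 (.cons 0x4567890321 .nil) (.leaf 0x2145678903 4 (.node 0 6 (.cons 0x7890654123 .nil) (.node 1 5 .nil (.node 0 2 (.cons 0x8769021543 .nil) (.leaf 0x9023451678 0 (.node 0 7 (.cons 0x8907612345 (.cons 0x8907615432 .nil)) .done .done)) (.node 3 5 (.cons 0x7890653214 .nil)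 (.node 5 7 (.cons 0x4306987512 .nil) (.node 2 6 (.cons 0x7896215430 .nil) (.leaf 0x8753412609 3 (.leaf 0x7890621435 4 .done)) .done) .done) .done)) (.node 1 5 .nil (.node 2 7 (.cons 0x3278906541 (.cons 0x6987215430 (.cons 0x8721543096 (.cons 0x4156098723 .nil)))) (.leaf 0x5160987234 0 .done) (.node 1 8 (.cons 0x3450967812 .nil) (.node 0 4 (.cons 0x9815234067 .nil) (.node 4 9 (.cons 0x4905678123 .nil) (.leaf 0x8765094321 1 .done) .done) (.node 1 9 (.cons 0x2345198760 .nil) (.node 0 8 (.cons 0x7608915234 .nil) (.node 0 2 (.cons 0x9876023451 .nil) (.node 0 7 (.cons 0x6987034512 .nil) .done .done) .done) .done) .done)) .done)) .done)) (.leaf 0x8903214567 1 (.leaf 0x9876541230 3 .done)))) .done)))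
noncomputable def tc9_5_14 : T := (.node 3 8 (.cons 0x7654123890 .nil) (.leaf 0x2145670983 3 (.leaf 0x1238907654 1 (.node 4 7 (.cons 0x5674123890 .nil) (.leaf 0x2109834765 1 (.leaf 0x2109834765 2 (.node 0 4 .nil (.node 3 5 (.cons 0x8907653214 .nil) (.leaf 0x2167890453 4 (.leaf 0x2140987653 0 (.leaf 0x6789041235 0 .done))) (.node 4 9 (.cons 0x4905678321 .nil) (.node 4 6 (.cons 0x7643890125 .nil) (.node 4 8 (.cons 0x5670984123 .nil) .done .done) .done) .done)) (.node 0 4 (.cons 0x3890476521 .nil) (.node 1 3 (.cons 0x4765213890 .nil) (.leaf 0x5213890476 3 (.node 4 6 (.cons 0x7465213890 .nil) (.leaf 0x5213890746 2 (.node 4 9 (.cons 0x4905678321 .nil) .done .done)) .done)) (.node 4 9 (.cons 0x4905678321 .nil) (.node 4 6 (.cons 0x7643890125 .nil) (.node 4 8 (.cons 0x5670984123 .nil) .done .done) .done) .done)) .done)))) (.node 3 5 (.cons 0x8907653214 .nil) (.node 1 5 (.cons 0x4156709832 .nil) (.node 3 7 (.cons 0x8901254376 .nil) (.node 2 7 (.cons 0x1456723890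 .nil) (.node 1 7 (.cons 0x6710983452 .nil) (.node 2 6 (.cons 0x5417623890 .nil) (.leaf 0x3267145098 0 .done) .done) (.leaf 0x4109832765 0 .done)) .done) .done) (.node 1 5 (.cons 0x4156709832 .nil) (.node 1 7 (.cons 0x6710983452 .nil) (.node 2 6 (.cons 0x5417623890 .nil) (.node 1 9 (.cons 0x7625438910 .nil) (.leaf 0x8345267019 1 (.node 4 9 (.cons 0x3894526710 .nil) (.leaf 0x194387625 1 (.leaf 0x1052678349 3 (.leaf 0x2107894356 0 .done))) .done)) (.leaf 0x3267145098 0 .done)) .done) .done) .done)) .done)))) (.node 3 8 (.cons 0x7654123890 .nil) (.node 1 8 (.cons 0x9054321876 .nil) (.node 6 9 (.cons 0x7698345210 .nil) (.node 1 5 (.cons 0x4512389670 .nil) (.node 0 4 (.cons 0x5407698321 .nil) (.node 3 6 (.cons 0x7890456321 .nil) (.leaf 0x451236987 0 (.node 2 9 (.cons 0x2987634510 .nil) (.leaf 0x763892541 0 (.leaf 0x3450129678 0 (.leaf 0x4516329870 1 .done))) .done)) (.leaf 0x7698321540 2 .done)) .done) (.leaf 0x2345096781 3 (.node 7 9 (.cons 0x6798345210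 .nil) (.node 0 4 (.cons 0x5679832140 .nil) (.node 1 5 (.cons 0x9615407832 .nil) (.node 1 7 (.cons 0x2543896710 .nil) .done .done) (.leaf 0x3897650412 0 .done)) (.node 0 6 (.cons 0x1254389760 .nil) (.leaf 0x4389760125 2 (.leaf 0x8345210679 1 .done)) .done)) (.leaf 0x1450769832 1 .done)))) (.node 1 7 .nil (.node 0 4 (.cons 0x6540987123 (.cons 0x4098176523 .nil)) (.leaf 0x2176540983 0 .done) (.node 6 9 (.cons 0x7698345210 .nil) (.leaf 0x543218769 0 (.node 1 5 (.cons 0x8769051234 .nil) (.node 1 3 .nil (.node 0 4 (.cons 0x7698340125 (.cons 0x7652318904 .nil)) (.node 0 8 (.cons 0x9087612345 (.cons 0x7132569804 .nil)) .done .done) .done) .done) (.node 4 9 (.cons 0x8176943250 .nil) (.leaf 0x523814967 0 (.node 0 2 (.cons 0x7698345201 .nil) (.leaf 0x5438967102 1 (.node 2 7 (.cons 0x1834967250 .nil) (.leaf 0x6943810527 0 .done) .done)) .done)) (.leaf 0x1450769832 1 .done)))) .done)) (.node 6 9 (.cons 0x7698345210 .nil) (.leaf 0x543218769 3 (.leaf 0x7690543218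 4 (.leaf 0x5096781234 1 (.leaf 0x1450769832 1 .done)))) .done))) (.node 0 8 (.cons 0x9087612345 .nil) (.node 5 9 (.cons 0x8761234590 .nil) (.node 0 3 (.cons 0x4567890321 .nil) (.node 4 6 (.cons 0x8709546123 .nil) (.leaf 0x1238709546 1 (.node 1 9 (.cons 0x5461907832 .nil) (.leaf 0x916452387 4 (.leaf 0x6452387091 3 .done)) (.node 4 9 (.cons 0x7832165490 .nil) (.node 0 2 (.cons 0x7832094561 .nil) (.node 0 4 (.cons 0x9045612387 .nil) .done .done) .done) .done))) (.leaf 0x9876541230 0 .done)) (.leaf 0x7612345908 1 (.leaf 0x7612345908 2 .done))) (.node 0 4 (.cons 0x9045612387 .nil) (.node 1 7 (.cons 0x6540987123 .nil) (.node 1 5 (.cons 0x9087615432 .nil) (.node 3 6 (.cons 0x9871236540 .nil) (.node 2 9 (.cons 0x5436789210 .nil) (.leaf 0x3450129876 1 (.leaf 0x8092345167 3 (.leaf 0x892543671 3 .done))) (.leaf 0x4563217890 1 (.node 1 3 .nil (.node 2 6 (.cons 0x9801762543 (.cons 0x9807623145 .nil)) .done .done) (.leaf 0x5409871236 3 .done)))) .done) (.node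 1 3 .nil (.node 2 6 (.cons 0x9807623145 .nil) (.leaf 0x9013452678 1 (.leaf 0x7621345098 0 .done)) (.node 3 5 (.cons 0x6532178904 .nil) (.node 0 2 (.cons 0x8902356714 .nil) (.node 2 8 (.cons 0x4176532890 .nil) (.leaf 0x3567140982 3 (.leaf 0x9823567140 4 .done)) .done) .done) .done)) .done)) .done) .done)) (.leaf 0x9832145670 0 (.node 2 6 (.cons 0x7625438901 .nil) (.node 5 9 (.cons 0x3459876210 .nil) (.node 2 9 (.cons 0x7834592610 .nil) (.leaf 0x6107834592 3 (.node 3 5 (.cons 0x7629835410 .nil) (.leaf 0x1453892670 1 .done) .done)) (.leaf 0x4107623895 0 (.node 0 8 (.cons 0x3459087612 .nil) (.node 0 2 (.cons 0x2095438761 .nil) (.node 1 7 (.cons 0x9834526710 .nil) (.node 0 4 (.cons 0x3895671402 .nil) (.leaf 0x6714023895 2 .done) (.leaf 0x3417620598 3 .done)) .done) (.leaf 0x7612345908 2 .done)) .done))) (.node 2 9 (.cons 0x5438761092 .nil) (.node 0 2 .nil (.node 1 7 (.cons 0x4561783290 (.cons 0x9834520176 .nil)) (.node 2 4 (.cons 0x5671423890 .nil)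 (.leaf 0x7109834256 1 (.leaf 0x7109834256 2 .done)) .done) .done) (.node 1 7 (.cons 0x6710983452 .nil) (.node 1 5 (.cons 0x4516783290 .nil) (.node 3 5 (.cons 0x4538761092 .nil) (.node 4 7 (.cons 0x5389267410 .nil) (.leaf 0x983476251 4 (.leaf 0x9015267438 3 (.leaf 0x6298350147 3 .done))) .done) .done) (.node 4 8 (.cons 0x9056714832 .nil) (.leaf 0x7148329056 1 (.leaf 0x3290567148 4 (.leaf 0x1765092384 3 .done))) .done)) .done)) .done)) .done)))) (.node 0 4 .nil (.node 3 5 (.cons 0x4098765321 .nil) (.node 2 4 (.cons 0x8907653241 .nil) (.leaf 0x7890124356 3 (.leaf 0x7890124356 0 (.node 2 8 (.cons 0x3289076541 (.cons 0x6709823541 .nil)) (.node 1 8 (.cons 0x9078165423 (.cons 0x4189076532 (.cons 0x6709814532 .nil))) (.node 2 6 (.cons 0x7098145623 (.cons 0x9826701435 .nil)) .done .done) (.node 4 6 (.cons 0x9825346701 (.cons 0x7643528901 (.cons 0x9053467821 .nil))) .done .done)) .done))) (.leaf 0x2167890453 4 (.leaf 0x2140987653 0 (.leaf 0x6789041235 0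 .done)))) (.node 0 8 (.cons 0x9087612345 .nil) (.node 5 9 (.cons 0x8761234590 .nil) (.node 0 3 (.cons 0x4567890321 .nil) (.node 0 6 .nil (.node 2 6 (.cons 0x8709543261 .nil) (.node 1 3 (.cons 0x9870456231 .nil) (.leaf 0x789541326 0 (.leaf 0x8706213459 4 (.leaf 0x9870621345 3 .done))) (.node 1 5 (.cons 0x8709516234 (.cons 0x4326078951 .nil)) .done .done)) .done) .done) (.leaf 0x7612345908 1 (.leaf 0x7612345908 2 .done))) (.node 0 3 (.cons 0x4567890321 .nil) (.node 4 9 (.cons 0x5490876123 .nil) (.node 4 8 (.cons 0x7654890321 .nil) (.node 1 9 (.cons 0x7654891230 .nil) (.node 3 9 (.cons 0x2391654870 .nil) (.leaf 0x845239167 3 .done) (.leaf 0x6703219845 4 (.node 1 7 (.cons 0x9845671230 .nil) (.node 2 8 (.cons 0x1765498230 .nil) (.node 0 6 (.cons 0x3254980671 .nil) (.node 1 3 (.cons 0x6713254980 .nil) (.leaf 0x2549806713 0 (.leaf 0x8231654907 3 .done)) .done) (.leaf 0x7654982301 3 .done)) (.leaf 0x3217654890 3 .done)) .done))) (.node 4 6 .nil (.node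 1 5 (.cons 0x9803215467 .nil) (.leaf 0x7643215098 0 (.leaf 0x2154678903 4 .done)) (.node 3 9 (.cons 0x7612548093 .nil) (.node 2 4 (.cons 0x8709324561 .nil) (.node 4 7 (.cons 0x8745612390 .nil) .done .done) (.node 5 7 (.cons 0x8934675210 .nil) (.leaf 0x2108934675 3 (.leaf 0x6439801257 4 .done)) .done)) .done)) .done)) (.node 3 5 (.cons 0x3549087612 .nil) (.node 0 2 .nil (.node 0 6 (.cons 0x5349876021 .nil) .done (.node 0 6 (.cons 0x5349876021 .nil) .done .done)) (.leaf 0x876123549 1 (.node 2 9 (.cons 0x4532908761 .nil) (.leaf 0x5329087614 1 (.leaf 0x923541678 4 (.leaf 0x3541678092 3 .done))) .done))) .done)) (.node 0 2 .nil (.node 1 3 (.cons 0x8907654132 .nil) (.leaf 0x7890213456 3 (.node 3 8 (.cons 0x7654123890 (.cons 0x9832076541 .nil)) (.node 4 9 (.cons 0x8709456132 (.cons 0x7831654902 .nil)) (.leaf 0x2316549870 1 .done) .done) .done)) .done) .done)) .done)) .done)) .done)))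
noncomputable def tc9_5_15 : T := (.node 1 5 .nil (.node 2 6 (.cons 0x1543267890 .nil) (.node 1 3 (.cons 0x5431098762 .nil) (.leaf 0x4526789013 4 (.leaf 0x4312678905 0 (.node 4 7 (.cons 0x1326547890 (.cons 0x3126547890 .nil)) (.leaf 0x9874562310 3 (.leaf 0x6547890132 3 (.node 1 4 (.cons 0x3214567890 .nil) (.node 0 4 (.cons 0x7890456231 .nil) (.node 3 7 (.cons 0x8901254376 (.cons 0x8904123765 .nil)) (.leaf 0x2109873456 3 (.leaf 0x8904561237 0 .done)) (.node 3 7 (.cons 0x9873216540 (.cons 0x6512378904 .nil)) (.leaf 0x2109873456 3 (.leaf 0x8904561237 0 .done)) .done)) .done) .done))) (.leaf 0x987625431 3 .done)))) (.node 3 8 (.cons 0x9012678345 (.cons 0x9015438762 .nil)) (.node 5 9 (.cons 0x9543876210 .nil) (.node 2 9 (.cons 0x9210543876 .nil) (.node 3 5 (.cons 0x8762901534 .nil) .done (.node 0 3 (.cons 0x4567890321 (.cons 0x4516789230 .nil)) (.leaf 0x4512678903 2 (.node 4 9 (.cons 0x7894561230 (.cons 0x3876294510 .nil)) (.leaf 0x1549267830 1 (.leaf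 0x2678301549 4 .done)) (.node 4 6 (.cons 0x9210546783 (.cons 0x7830159264 (.cons 0x9215038764 .nil))) (.leaf 0x9032154678 0 .done) .done))) .done)) (.leaf 0x6783459012 1 (.node 0 4 (.cons 0x9512678340 .nil) (.leaf 0x7621590438 2 (.node 0 7 (.cons 0x9834521076 (.cons 0x6704389512 (.cons 0x9832154076 .nil))) (.leaf 0x4389512670 1 .done) (.node 3 7 (.cons 0x9873216540 (.cons 0x6512378904 .nil)) (.leaf 0x2165409873 0 (.leaf 0x8904561237 0 .done)) (.leaf 0x7621590438 1 .done)))) .done))) (.node 6 9 (.cons 0x8769054321 (.cons 0x8769051234 (.cons 0x7834510962 (.cons 0x7834512690 .nil)))) (.node 1 8 (.cons 0x9054321876 .nil) (.leaf 0x543218769 0 (.leaf 0x543218769 3 .done)) .done) (.node 4 7 (.cons 0x4765210983 (.cons 0x6743890152 .nil)) (.leaf 0x2109834765 1 (.leaf 0x2109834765 2 (.node 0 2 (.cons 0x4765120983 .nil) (.leaf 0x9834765120 3 (.leaf 0x8902156743 1 (.leaf 0x1567438902 4 (.leaf 0x5167890234 0 .done)))) .done))) .done))) (.node 3 5 (.cons 0x4351098762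 .nil) (.node 0 4 (.cons 0x9876210435 .nil) (.leaf 0x1267890435 2 (.leaf 0x1267890435 1 (.node 5 9 (.cons 0x7895162340 .nil) (.leaf 0x8762340159 2 (.node 0 2 (.cons 0x3459876120 (.cons 0x7895162043 (.cons 0x9876154023 .nil))) .done .done)) .done))) (.node 4 7 (.cons 0x4789012653 (.cons 0x8901526743 (.cons 0x6215347890 .nil))) (.leaf 0x2109874356 3 (.node 6 9 (.cons 0x8769054321 (.cons 0x8743510962 (.cons 0x8743512690 .nil))) (.node 1 8 (.cons 0x9054321876 .nil) (.node 0 6 (.cons 0x9065478123 (.cons 0x9062347815 .nil)) .done (.leaf 0x543218769 0 (.leaf 0x543218769 3 .done))) .done) .done)) .done)) .done))) (.node 1 8 (.cons 0x9054321876 .nil) (.node 6 8 (.cons 0x7689012543 .nil) (.node 1 4 (.cons 0x3214567890 .nil) (.node 1 3 (.cons 0x7689013452 .nil) (.node 1 9 (.cons 0x7681905234 .nil) (.node 1 7 .nil (.node 0 3 (.cons 0x4567890321 .nil) (.leaf 0x5430986712 1 (.node 0 6 (.cons 0x8906712345 .nil) (.leaf 0x2178906543 0 .done) (.leaf 0x2541768903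 1 .done))) .done) .done) .done) (.node 1 9 (.cons 0x7681905234 .nil) (.node 7 9 (.cons 0x4325097681 .nil) (.leaf 0x976814325 4 (.node 1 3 (.cons 0x7689013452 .nil) (.node 1 7 .nil (.node 0 2 (.cons 0x8976102543 (.cons 0x7145689023 (.cons 0x5417689023 .nil))) (.leaf 0x8902345176 3 .done) .done) .done) (.leaf 0x8679052341 1 .done))) .done) .done)) (.node 6 9 (.cons 0x8769054321 .nil) (.leaf 0x543218769 0 (.node 2 6 .nil (.node 1 3 (.cons 0x9054312687 .nil) (.leaf 0x9013452678 1 (.leaf 0x4526789013 4 (.leaf 0x4312678905 0 .done))) (.node 5 9 (.cons 0x8762109543 .nil) (.node 3 5 (.cons 0x4359018762 .nil) (.node 5 8 (.cons 0x9012678543 .nil) .done .done) (.node 7 9 (.cons 0x3451268790 .nil) (.node 1 7 (.cons 0x3452176890 .nil) (.node 1 3 (.cons 0x8762134590 .nil) (.node 1 4 (.cons 0x3214567890 .nil) .done .done) .done) (.node 0 4 (.cons 0x8796150432 .nil) (.leaf 0x1879043265 4 (.node 2 4 (.cons 0x3425097681 .nil) (.node 0 3 (.cons 0x2167895430 .nil)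 (.leaf 0x4512687903 1 (.leaf 0x9765243018 3 (.leaf 0x5967812430 4 .done))) .done) (.leaf 0x8156234097 3 .done))) .done)) .done)) .done)) (.node 4 6 (.cons 0x7815096432 .nil) (.node 1 4 (.cons 0x3214567890 .nil) (.node 2 6 (.cons 0x7815096234 .nil) (.node 3 6 (.cons 0x5436789012 .nil) (.node 0 6 .nil (.node 2 7 (.cons 0x5187234690 (.cons 0x1543278960 (.cons 0x9068721543 .nil))) (.leaf 0x8150964327 3 .done) .done) .done) .done) .done) (.node 1 4 (.cons 0x3214567890 .nil) (.node 1 7 (.cons 0x3452176890 .nil) (.node 7 9 (.cons 0x8123467905 .nil) (.node 1 3 (.cons 0x8679052134 .nil) (.node 2 8 (.cons 0x4328796150 .nil) (.leaf 0x3128679054 1 (.leaf 0x1345097682 3 (.leaf 0x6790543128 4 .done))) .done) (.node 5 8 (.cons 0x3217645890 .nil) (.leaf 0x1234679058 0 (.leaf 0x976432185 0 .done)) .done)) .done) .done) .done)) .done))) .done)) (.node 6 9 (.cons 0x8769054321 .nil) (.leaf 0x543218769 3 (.leaf 0x7690543218 4 (.leaf 0x5096781234 1 (.node 5 9 .nil (.node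 0 6 (.cons 0x1234598760 .nil) (.leaf 0x4598760123 0 (.leaf 0x9543218760 3 (.leaf 0x7812345906 4 (.leaf 0x5906781234 1 .done)))) (.node 6 8 (.cons 0x7689012543 .nil) (.node 3 5 (.cons 0x7689012534 .nil) (.node 2 6 .nil (.node 0 3 (.cons 0x4567890321 (.cons 0x7895430162 .nil)) (.leaf 0x4512678903 4 (.leaf 0x9876215430 3 (.leaf 0x8903451267 1 .done))) (.node 5 8 (.cons 0x9012678543 .nil) (.node 5 7 .nil (.node 4 9 (.cons 0x7689435210 (.cons 0x8675094321 (.cons 0x9435786210 .nil))) .done .done) .done) .done)) .done) (.node 1 4 (.cons 0x3214567890 .nil) (.node 4 6 (.cons 0x9054678123 .nil) (.node 3 5 (.cons 0x7645321890 .nil) (.node 3 7 (.cons 0x5467321890 .nil) (.leaf 0x4521098673 1 (.leaf 0x1237645098 3 (.node 0 6 (.cons 0x4523760981 .nil) (.node 0 8 (.cons 0x3769081452 .nil) (.leaf 0x1452376908 2 .done) .done) .done))) .done) .done) (.node 4 6 (.cons 0x9054678123 .nil) (.node 2 6 .nil (.node 0 3 (.cons 0x4567890321 (.cons 0x7895430162 (.cons 0x7815903264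 (.cons 0x7623098145 .nil)))) (.leaf 0x4512678903 4 .done) (.node 4 9 (.cons 0x7862349051 .nil) (.node 1 7 (.cons 0x8716234950 .nil) (.node 3 5 (.cons 0x5349017862 .nil) (.leaf 0x1786253490 4 .done) (.leaf 0x3490517862 4 .done)) .done) .done)) .done) .done)) .done)) .done)) .done)))) .done)) .done)) (.node 1 4 (.cons 0x3214567890 .nil) (.node 1 5 .nil (.node 0 3 (.cons 0x9876541230 .nil) (.leaf 0x6541230987 1 (.node 2 6 (.cons 0x1543267890 .nil) (.leaf 0x4309876215 0 (.node 6 9 (.cons 0x7896541230 (.cons 0x8769051234 (.cons 0x7896215430 .nil))) (.node 0 7 (.cons 0x9870321456 .nil) (.leaf 0x2154307896 3 (.node 4 6 (.cons 0x9870326451 .nil) (.leaf 0x2309876451 0 (.leaf 0x321546987 0 .done)) (.leaf 0x5412307896 3 .done))) (.node 2 8 (.cons 0x7823451690 (.cons 0x9678234150 (.cons 0x7823096154 .nil))) (.leaf 0x6782341509 1 .done) .done)) (.node 3 5 (.cons 0x4351098762 .nil) (.node 4 9 (.cons 0x5349876210 (.cons 0x2678943510 (.cons 0x8762150943 .nil)))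 (.node 0 7 (.cons 0x9870321456 (.cons 0x8943510762 .nil)) (.leaf 0x1562307894 3 (.leaf 0x1562307894 0 .done)) (.leaf 0x2105349876 1 .done)) .done) .done))) (.node 4 6 (.cons 0x7890321564 .nil) (.leaf 0x7643215098 0 (.leaf 0x9032154678 0 (.node 2 9 (.cons 0x8764329051 (.cons 0x5146789230 .nil)) (.node 1 8 (.cons 0x9230564187 (.cons 0x7643251890 (.cons 0x3290546781 .nil))) .done (.leaf 0x4150329876 1 .done)) (.node 4 7 (.cons 0x8903215674 .nil) (.node 1 8 (.cons 0x7465218903 .nil) (.leaf 0x2189034765 4 (.leaf 0x3256741890 1 .done)) (.leaf 0x321564789 0 (.node 1 8 (.cons 0x6743251890 .nil) (.leaf 0x3256741890 2 (.leaf 0x3256741890 1 .done)) .done))) .done)))) (.node 2 9 (.cons 0x1456789230 (.cons 0x4156789230 .nil)) (.leaf 0x4567892301 3 (.leaf 0x4567892301 0 .done)) .done)))) (.node 1 8 (.cons 0x9054321876 .nil) (.node 5 9 (.cons 0x8761234590 .nil) (.node 1 7 .nil (.node 0 6 (.cons 0x9506781432 (.cons 0x8906712345 (.cons 0x8952341760 (.cons 0x6098715432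 .nil)))) .done (.node 1 3 .nil (.node 2 6 (.cons 0x2678954310 .nil) (.leaf 0x9013452678 1 (.leaf 0x7621345098 0 .done)) (.node 1 9 .nil (.node 2 6 (.cons 0x4326781950 (.cons 0x8762341950 .nil)) (.node 0 3 (.cons 0x9876541230 (.cons 0x8716230954 (.cons 0x6230987154 .nil))) (.leaf 0x9876215430 3 .done) .done) .done) .done)) .done)) (.node 6 9 (.cons 0x8769054321 .nil) (.leaf 0x543218769 0 (.node 2 6 .nil (.node 1 3 (.cons 0x8762134590 .nil) (.leaf 0x9013452678 1 (.leaf 0x4312678905 0 .done)) (.node 1 3 .nil (.node 2 8 (.cons 0x3412876950 .nil) (.leaf 0x1345096782 3 (.leaf 0x7690543128 4 .done)) (.node 3 6 (.cons 0x5436789012 .nil) (.node 3 9 (.cons 0x5439876210 .nil) (.leaf 0x2105439876 1 .done) .done) .done)) .done)) (.node 1 7 (.cons 0x8176905234 .nil) (.node 7 9 .nil (.node 2 6 (.cons 0x7815096234 (.cons 0x4326978150 (.cons 0x8796234150 .nil))) .done (.node 0 7 (.cons 0x5234189670 .nil) (.node 2 6 (.cons 0x8796234150 .nil) (.node 0 8 (.cons 0x3254176980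 .nil) (.leaf 0x7962341508 3 (.leaf 0x9780514326 1 .done)) (.node 0 3 (.cons 0x9876541230 .nil) (.leaf 0x6541230987 1 (.leaf 0x4189526703 0 (.leaf 0x7621430598 0 .done))) .done)) .done) .done)) .done) .done))) .done)) (.node 6 9 (.cons 0x8769054321 .nil) (.leaf 0x543218769 3 (.leaf 0x7690543218 4 (.leaf 0x5096781234 1 (.node 5 9 (.cons 0x8761234590 .nil) (.node 1 7 .nil (.node 0 6 (.cons 0x8906712345 (.cons 0x8952341760 (.cons 0x6098715432 .nil))) (.leaf 0x2178906543 0 .done) (.node 1 3 (.cons 0x8769054312 .nil) (.node 1 9 .nil (.node 2 8 (.cons 0x1678234590 (.cons 0x6782341950 .nil)) (.leaf 0x4509678213 1 (.leaf 0x3450916782 3 .done)) .done) .done) .done)) .done) .done)))) .done)) .done)) (.node 0 7 (.cons 0x8907654123 .nil) tc9_5_14 (.node 0 3 (.cons 0x4567890321 .nil) (.leaf 0x2145678903 4 (.node 1 5 .nil (.node 2 6 (.cons 0x1543267890 .nil) (.leaf 0x4309876215 0 (.node 6 9 (.cons 0x8769054321 (.cons 0x8769051234 (.cons 0x7896215430 .nil))) (.node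 1 8 (.cons 0x9054321876 .nil) (.node 0 7 (.cons 0x5432189670 (.cons 0x2345189670 .nil)) (.leaf 0x2154307896 3 (.leaf 0x2189670543 1 .done)) (.leaf 0x543218769 0 (.leaf 0x543218769 3 .done))) (.node 0 7 (.cons 0x5143269870 .nil) (.leaf 0x8703451269 0 (.leaf 0x6234150789 1 (.node 3 9 (.cons 0x5439876210 (.cons 0x8934510762 (.cons 0x4156239870 .nil))) .done .done))) .done)) (.node 3 5 (.cons 0x4351098762 .nil) (.node 0 4 (.cons 0x9876210435 (.cons 0x7890415623 .nil)) (.leaf 0x1267890435 2 .done) .done) .done))) (.node 1 8 (.cons 0x9054321876 .nil) (.node 1 7 .nil (.node 0 4 (.cons 0x8904567123 (.cons 0x4098176523 .nil)) (.node 0 6 (.cons 0x8906712345 (.cons 0x9876043215 (.cons 0x9815234067 .nil))) .done .done) (.node 3 5 .nil (.node 0 6 (.cons 0x7890654123 (.cons 0x8906712354 (.cons 0x7890653214 (.cons 0x6098714532 .nil)))) .done (.node 2 6 (.cons 0x6235417890 .nil) (.node 5 7 (.cons 0x9875430126 .nil) (.node 4 6 (.cons 0x3467521890 .nil) (.leaf 0x9812576430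 2 (.leaf 0x9812576430 1 (.node 0 2 (.cons 0x7643520981 .nil) (.leaf 0x5346718902 4 (.node 3 9 (.cons 0x5439876210 .nil) (.leaf 0x5410267893 0 (.leaf 0x8762014539 0 .done)) .done)) .done))) .done) (.node 0 6 (.cons 0x6098714532 .nil) (.leaf 0x1789062354 4 (.node 0 2 (.cons 0x9876023451 .nil) (.node 0 8 (.cons 0x9087612345 .nil) .done .done) .done)) .done)) .done)) .done)) (.node 6 9 (.cons 0x8769054321 .nil) (.leaf 0x543218769 3 (.leaf 0x7690543218 4 (.leaf 0x5096781234 1 (.node 3 5 .nil (.node 2 4 (.cons 0x3542187690 .nil) (.leaf 0x1876903542 3 (.leaf 0x7890124356 3 .done)) (.node 5 7 (.cons 0x8754309612 .nil) (.node 5 8 (.cons 0x7854309612 .nil) (.node 5 9 (.cons 0x8761234590 .nil) .done .done) .done) .done)) .done)))) .done)) .done)) (.leaf 0x8903214567 1 (.leaf 0x9876541230 3 .done)))) .done))) (.node 6 9 (.cons 0x8769054321 .nil) (.node 1 8 (.cons 0x5096781234 .nil) (.leaf 0x3218769054 1 (.leaf 0x2345096781 3 (.node 1 5 (.cons 0x8769051234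 .nil) (.node 0 6 .nil (.node 4 7 (.cons 0x9815234760 (.cons 0x5218906743 .nil)) (.leaf 0x3251890674 3 (.node 3 5 (.cons 0x8967435210 (.cons 0x5347896012 (.cons 0x9810674352 .nil))) .done (.leaf 0x2347609815 1 .done))) (.node 0 4 (.cons 0x9815234067 .nil) (.node 7 9 (.cons 0x4325189760 .nil) (.leaf 0x1897604325 1 (.leaf 0x8152340679 3 (.node 4 9 (.cons 0x8769432150 .nil) (.node 2 6 (.cons 0x3497815062 .nil) (.leaf 0x8794326051 4 (.leaf 0x1879432605 3 .done)) (.leaf 0x8765094321 1 .done)) .done))) (.node 5 7 (.cons 0x6987512340 .nil) (.node 1 4 (.cons 0x6752341890 .nil) (.node 0 8 (.cons 0x8096752341 .nil) (.leaf 0x2576908143 2 .done) .done) (.leaf 0x8960432157 1 .done)) .done)) .done)) (.node 0 6 .nil (.node 4 7 (.cons 0x8743215096 (.cons 0x5123478960 (.cons 0x5234760981 (.cons 0x5218906743 .nil)))) (.leaf 0x651234789 0 .done) (.node 2 6 (.cons 0x7890623451 .nil) (.node 1 9 (.cons 0x7891543260 .nil) (.node 2 9 (.cons 0x7892601543 .nil) (.node 6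 8 (.cons 0x7689012543 .nil) (.node 2 4 (.cons 0x7869051243 .nil) (.node 3 7 (.cons 0x4519873260 .nil) (.leaf 0x2905437861 0 (.leaf 0x2543768901 2 (.leaf 0x8926015437 0 (.leaf 0x9687342150 2 .done)))) .done) .done) .done) .done) (.node 3 6 (.cons 0x5436789012 .nil) (.node 2 9 (.cons 0x5436789210 .nil) (.leaf 0x3450129876 1 (.node 1 9 .nil (.node 2 8 (.cons 0x7601982543 .nil) (.leaf 0x7634509128 0 (.leaf 0x1905436782 0 .done)) .done) .done)) .done) .done)) .done)) .done)) (.leaf 0x7690543218 4 .done)))) (.node 0 6 .nil (.node 5 9 (.cons 0x1234598760 .nil) (.leaf 0x4598760123 0 (.node 0 7 (.cons 0x8907612345 .nil) (.leaf 0x2345987061 1 (.node 1 4 (.cons 0x3214567890 (.cons 0x6078954123 (.cons 0x7890654123 .nil))) (.node 3 6 (.cons 0x4598706321 .nil) (.node 1 7 (.cons 0x8712345906 .nil) (.leaf 0x2178906543 0 (.node 0 2 (.cons 0x5432069871 (.cons 0x8714320695 .nil)) .done (.node 5 8 (.cons 0x8523417690 (.cons 0x2341785960 (.cons 0x4325890671 (.cons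 0x4360958712 .nil)))) .done .done))) (.leaf 0x7063214598 1 .done)) .done) (.node 1 5 (.cons 0x8907615432 .nil) (.node 0 4 (.cons 0x9876043215 .nil) (.leaf 0x3215987604 2 (.node 2 7 (.cons 0x8954327061 (.cons 0x8951607234 (.cons 0x3278960451 .nil))) (.node 0 8 (.cons 0x6159807234 .nil) (.leaf 0x1543270896 1 .done) (.leaf 0x6015432789 0 .done)) .done)) .done) .done))) (.node 1 4 (.cons 0x3214567890 (.cons 0x7890654123 .nil)) (.node 0 3 (.cons 0x5987603412 .nil) (.leaf 0x6541230987 1 (.leaf 0x8954123067 0 (.leaf 0x6789521430 4 .done))) (.node 3 8 (.cons 0x9834521067 (.cons 0x9065412387 (.cons 0x5906783412 .nil))) (.node 0 2 (.cons 0x7832096541 (.cons 0x4120956783 .nil)) (.node 1 7 (.cons 0x2543896710 (.cons 0x8325417690 .nil)) (.leaf 0x2178906543 0 (.leaf 0x8320965417 3 .done)) .done) (.node 1 9 (.cons 0x2387654190 (.cons 0x5419067832 .nil)) (.leaf 0x4190678325 4 (.leaf 0x678325419 3 .done)) .done)) .done)) .done))) (.node 0 7 (.cons 0x8907612345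 .nil) (.node 3 6 (.cons 0x5436789012 .nil) (.node 6 8 (.cons 0x7689012543 .nil) (.node 2 6 .nil (.node 1 3 (.cons 0x9054312687 .nil) (.leaf 0x9013452678 1 (.leaf 0x4526789013 4 (.leaf 0x987625431 3 .done))) (.node 4 6 .nil (.node 1 5 (.cons 0x7890643215 .nil) (.leaf 0x7643215098 0 (.node 5 9 (.cons 0x4321598760 (.cons 0x7895123460 .nil)) (.leaf 0x8706432159 4 .done) .done)) .done) .done)) .done) (.node 0 2 .nil (.node 1 5 (.cons 0x8769023451 .nil) (.leaf 0x9023451678 0 (.leaf 0x4367890215 4 (.leaf 0x215436789 1 .done))) (.node 2 6 .nil (.node 1 3 (.cons 0x7896201345 .nil) (.leaf 0x9013452678 1 (.node 1 4 (.cons 0x3214567890 (.cons 0x5413269870 (.cons 0x8709623145 .nil))) .done (.leaf 0x987625431 3 .done))) (.node 6 8 (.cons 0x7689012543 .nil) (.node 4 6 .nil (.node 1 5 (.cons 0x7896201543 (.cons 0x3207896451 (.cons 0x7890643215 .nil))) .done .done) .done) .done)) .done)) .done)) (.node 5 8 (.cons 0x7612345890 .nil) (.leaf 0x4321670985 3 (.leaf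 0x3458907612 1 (.node 1 5 (.cons 0x8907615432 .nil) (.node 1 8 (.cons 0x2345096781 .nil) (.node 5 7 (.cons 0x6189075432 .nil) (.node 1 4 (.cons 0x3214567890 .nil) (.node 4 7 (.cons 0x7432518960 .nil) (.leaf 0x8152347069 0 .done) .done) .done) (.node 0 4 (.cons 0x7698152340 .nil) (.leaf 0x8152340769 3 (.node 1 4 (.cons 0x3214567890 .nil) (.leaf 0x765234189 3 .done) .done)) (.leaf 0x5096781234 1 .done))) (.node 1 8 (.cons 0x2345096781 .nil) (.node 5 9 (.cons 0x2345981670 .nil) (.node 1 4 (.cons 0x3214567890 .nil) (.node 0 2 (.cons 0x3459816702 .nil) (.leaf 0x1895432076 3 (.node 1 3 (.cons 0x9678132054 .nil) (.leaf 0x2096785413 3 .done) .done)) .done) .done) (.node 1 4 (.cons 0x3214567890 .nil) (.leaf 0x7652341890 4 (.leaf 0x765234189 3 .done)) (.leaf 0x5096781234 1 .done))) .done)) (.leaf 0x9854321670 4 .done)))) .done)) .done)) (.node 1 4 (.cons 0x3214567890 .nil) tc9_5_13 .done))) (.leaf 0x7612345098 0 .done))))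
noncomputable def uc9_5_3 : T := tc9_5_15
theorem sub_c9_5_3 : root 9 refs9_5 [] 0x700000008706000000006050000000050300000000304060700004030000000030100000060102000000002018000700010 0xfe7fff3fff9fffd7ff27ffe7fff5ffb9fff9fe7d 9 1 6 (.cons 0x5432167890 .nil) uc9_5_3 = true := by decide +kernel
noncomputable def tc9_5_16 : T := (.node 1 8 .nil (.node 4 7 (.cons 0x5098167432 .nil) (.leaf 0x3476189052 4 (.node 6 9 (.cons 0x8769012543 (.cons 0x3452187690 .nil)) (.leaf 0x961874325 4 (.leaf 0x1874325096 3 .done)) (.leaf 0x1674325098 1 (.leaf 0x6189052347 3 .done)))) (.node 4 8 (.cons 0x9052348761 .nil) (.node 4 7 (.cons 0x9052347816 .nil) (.node 6 9 (.cons 0x3218745690 .nil) (.leaf 0x961874325 4 (.leaf 0x1874325096 3 (.leaf 0x8169052347 1 .done))) (.node 1 5 .nil (.node 2 6 (.cons 0x9052618743 .nil) (.leaf 0x8905162347 0 (.leaf 0x9015432678 0 .done)) (.node 1 9 (.cons 0x5234876190 .nil) (.node 1 3 (.cons 0x6784523190 .nil) (.node 1 7 .nil (.node 2 6 (.cons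 0x3267891450 (.cons 0x8905432671 .nil)) (.leaf 0x7623190548 0 .done) .done) .done) .done) .done)) .done)) (.node 1 9 (.cons 0x3487619052 .nil) (.leaf 0x5091678432 3 (.node 4 7 (.cons 0x9052347816 .nil) (.node 6 9 (.cons 0x3218745690 .nil) (.leaf 0x961874325 4 (.leaf 0x1874325096 3 (.leaf 0x8169052347 1 .done))) (.node 4 6 (.cons 0x9052346187 .nil) (.node 7 9 (.cons 0x5097816432 .nil) (.leaf 0x978164325 4 (.leaf 0x1879052346 1 .done)) (.node 0 6 (.cons 0x6091874523 .nil) (.node 0 4 (.cons 0x9047816523 .nil) (.node 4 9 (.cons 0x3256187490 .nil) .done .done) .done) .done)) .done)) .done)) .done)) (.node 1 9 (.cons 0x8761905234 .nil) (.node 4 8 (.cons 0x9052348761 .nil) (.node 1 7 (.cons 0x9052348716 .nil) (.node 2 4 (.cons 0x9056178423 .nil) (.node 0 8 .nil (.node 3 7 (.cons 0x7324890561 (.cons 0x4567321980 (.cons 0x9805673241 (.cons 0x2376541980 .nil)))) .done (.node 2 6 (.cons 0x7623419805 .nil) (.node 2 8 (.cons 0x7628910543 .nil) .done .done)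 .done)) .done) .done) (.node 0 8 (.cons 0x7619084325 .nil) (.node 5 7 (.cons 0x8432576190 .nil) (.node 1 7 .nil (.node 2 6 (.cons 0x7508916234 (.cons 0x8917623450 (.cons 0x8905432671 .nil))) .done (.node 4 7 (.cons 0x6198057432 .nil) (.node 4 9 (.cons 0x6549087123 .nil) (.node 0 6 (.cons 0x5789432160 .nil) (.leaf 0x3498750612 1 (.leaf 0x9432160578 2 .done)) .done) .done) .done)) (.leaf 0x4809167523 0 .done)) (.node 1 7 (.cons 0x4809176523 .nil) (.leaf 0x8091765234 2 .done) .done)) (.leaf 0x5091678432 3 .done))) (.node 5 9 (.cons 0x2341678950 .nil) (.node 1 5 .nil (.node 2 6 (.cons 0x7890516234 .nil) (.leaf 0x8762341509 1 (.node 0 3 (.cons 0x9876541230 .nil) (.node 6 9 (.cons 0x9678145032 (.cons 0x4518769032 (.cons 0x8769034512 .nil))) .done (.leaf 0x6541230987 1 (.leaf 0x4301267895 0 (.leaf 0x1267890345 0 .done)))) (.leaf 0x9015432678 0 .done))) .done) (.node 5 7 .nil (.node 0 4 (.cons 0x8761259043 (.cons 0x6754098123 (.cons 0x4098756123 .nil)))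 (.leaf 0x7561234098 0 .done) (.node 5 8 .nil (.node 0 6 (.cons 0x9067854321 (.cons 0x7609854321 .nil)) (.leaf 0x4321906785 2 .done) (.node 0 8 .nil (.node 0 6 (.cons 0x9123457806 (.cons 0x9806754321 .nil)) .done (.node 6 9 (.cons 0x3412596780 .nil) (.node 1 5 (.cons 0x4321576980 .nil) (.node 3 5 (.cons 0x4357698012 .nil) .done .done) (.node 0 3 (.cons 0x9876541230 .nil) (.leaf 0x7803412596 1 (.leaf 0x6541230987 1 (.leaf 0x4125967803 4 .done))) .done)) .done)) .done)) .done)) .done)) .done)) .done))) (.node 0 4 .nil (.node 3 5 (.cons 0x4098765321 .nil) (.leaf 0x7653214098 1 (.leaf 0x8761235409 1 (.leaf 0x2356789041 4 (.node 1 5 (.cons 0x9876150432 .nil) (.node 5 9 (.cons 0x8761259043 .nil) (.leaf 0x6123405987 0 .done) (.leaf 0x9043215678 1 .done)) .done)))) (.node 5 7 (.cons 0x8904321675 .nil) (.node 1 7 (.cons 0x8904567123 .nil) (.node 0 6 .nil (.node 3 5 (.cons 0x8904532176 (.cons 0x8906712354 (.cons 0x6098712354 .nil))) .done (.node 5 8 (.cons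 0x9857612340 .nil) (.node 0 7 (.cons 0x9857043216 .nil) (.node 2 7 (.cons 0x9058723416 .nil) .done .done) (.node 2 7 .nil (.node 1 3 (.cons 0x9067854312 (.cons 0x9850431672 (.cons 0x6721345890 .nil))) (.leaf 0x5431276098 3 .done) (.node 0 7 .nil (.node 1 8 (.cons 0x9816750432 .nil) (.node 2 9 (.cons 0x3458760921 (.cons 0x6705432981 (.cons 0x6129857043 .nil))) (.leaf 0x8167054329 0 .done) (.leaf 0x2189076543 0 .done)) .done) .done)) .done)) .done)) .done) (.node 5 8 (.cons 0x3409857612 .nil) (.leaf 0x4321675890 0 (.node 5 9 .nil (.node 0 6 (.cons 0x8760954321 .nil) (.leaf 0x4598760123 0 .done) (.node 3 5 (.cons 0x8904357612 .nil) (.node 1 5 .nil (.node 2 8 (.cons 0x9821675340 (.cons 0x9823405167 (.cons 0x6751289043 .nil))) (.node 3 6 (.cons 0x3675409821 (.cons 0x7632890451 .nil)) (.leaf 0x5123678904 2 (.leaf 0x4521098763 0 .done)) .done) .done) .done) .done)) .done)) .done)) (.node 5 7 (.cons 0x4098756123 .nil) (.node 1 7 (.cons 0x6540987123 .nil)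 (.node 6 9 (.cons 0x5789612340 .nil) (.node 1 9 (.cons 0x6198750432 .nil) (.node 0 6 (.cons 0x8960457123 .nil) (.node 0 8 (.cons 0x1234576980 .nil) (.leaf 0x1234578069 2 (.leaf 0x1234578069 1 .done)) .done) .done) (.node 3 8 (.cons 0x2543876901 .nil) (.leaf 0x5438769012 1 (.leaf 0x4521096783 3 (.node 4 9 (.cons 0x3216578940 .nil) (.node 0 6 (.cons 0x7560498321 .nil) (.leaf 0x2389406571 3 (.node 2 6 (.cons 0x9625783401 .nil) (.leaf 0x9405716238 2 .done) .done)) (.leaf 0x2567834901 0 .done)) (.node 7 9 (.cons 0x4097832561 .nil) (.leaf 0x3879041652 1 (.leaf 0x978325614 4 .done)) .done)))) (.leaf 0x8750432169 1 .done))) .done) (.node 3 6 (.cons 0x7890456321 .nil) (.leaf 0x1257890436 4 (.node 0 6 .nil (.node 1 8 (.cons 0x9045632187 (.cons 0x9063457812 .nil)) (.node 2 9 (.cons 0x8761432905 (.cons 0x7605432981 (.cons 0x9218754360 (.cons 0x9234187605 (.cons 0x9218754063 .nil))))) .done (.leaf 0x6098123457 2 .done)) (.node 0 3 (.cons 0x4567890321 .nil)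 (.node 0 8 (.cons 0x9087654123 .nil) (.node 0 2 .nil (.node 1 8 (.cons 0x3457609812 (.cons 0x9812067543 (.cons 0x9021875436 .nil))) .done .done) .done) .done) .done)) (.leaf 0x4521098763 0 (.leaf 0x4098752163 3 .done)))) .done)) .done))) (.leaf 0x3416789052 4 (.node 0 6 (.cons 0x7890654123 .nil) (.node 0 3 (.cons 0x4567890321 .nil) (.leaf 0x2145678903 4 (.node 2 4 (.cons 0x7890561423 .nil) (.node 2 6 .nil (.node 5 9 (.cons 0x8760954321 (.cons 0x7895016243 (.cons 0x7895034261 .nil))) (.leaf 0x4301267895 0 .done) (.node 5 7 (.cons 0x8901267543 .nil) (.node 0 4 (.cons 0x9875612304 .nil) (.node 4 9 (.cons 0x4987561230 .nil) (.leaf 0x5612304987 1 (.leaf 0x1657894032 2 .done)) .done) (.node 4 6 (.cons 0x5789034612 .nil) (.leaf 0x3098752164 3 (.leaf 0x346125789 1 .done)) .done)) .done)) (.node 0 4 .nil (.node 1 5 (.cons 0x9876150432 .nil) (.node 1 9 (.cons 0x8761905234 .nil) (.leaf 0x2304567891 0 (.node 3 6 (.cons 0x5436789012 (.cons 0x8763254091 .nil))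 (.leaf 0x2367890451 0 (.leaf 0x4521098763 0 .done)) .done)) (.leaf 0x9043215678 1 .done)) .done) .done)) (.leaf 0x8903214567 1 .done))) (.node 5 7 (.cons 0x8906754321 .nil) (.node 0 4 .nil (.node 1 9 (.cons 0x8912345760 (.cons 0x8916750432 .nil)) (.node 3 8 (.cons 0x9834576012 (.cons 0x9167832504 (.cons 0x9832140657 (.cons 0x6783254091 .nil)))) (.leaf 0x2540916783 0 .done) .done) (.node 0 3 (.cons 0x4567890321 .nil) (.node 2 6 (.cons 0x9875430126 .nil) (.node 6 9 (.cons 0x2341698750 .nil) (.node 0 8 (.cons 0x9614325780 .nil) (.leaf 0x2341690875 2 (.node 3 9 (.cons 0x5439876210 .nil) (.leaf 0x2398067541 4 (.leaf 0x893214576 1 .done)) .done)) (.leaf 0x3457896210 1 .done)) .done) (.leaf 0x8903214567 1 .done)) .done)) (.node 1 8 (.cons 0x3457609812 .nil) (.node 5 8 (.cons 0x7609854321 .nil) (.node 4 7 (.cons 0x3475890612 .nil) (.leaf 0x1609857432 1 (.leaf 0x1609857432 2 (.node 2 6 (.cons 0x9016258743 .nil) (.node 1 9 (.cons 0x1987623450 .nil) (.leaf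 0x6234501987 0 (.node 3 8 (.cons 0x9183254760 .nil) (.leaf 0x6745238190 3 (.leaf 0x6745238190 0 .done)) .done)) .done) .done))) .done) (.leaf 0x6098123457 2 .done)) .done)) .done)) .done))))
noncomputable def tc9_5_17 : T := (.node 0 8 (.cons 0x9087612345 .nil) (.node 3 8 (.cons 0x9012543876 .nil) (.node 2 8 (.cons 0x9054328761 .nil) (.node 5 9 (.cons 0x9528763410 .nil) (.leaf 0x3678259014 3 (.leaf 0x3678259014 0 (.node 5 8 .nil (.node 0 3 (.cons 0x9876541230 (.cons 0x7612859034 (.cons 0x4309587612 .nil))) (.node 0 4 (.cons 0x9567821403 (.cons 0x7612859043 .nil)) .done .done) .done) .done))) (.node 1 8 (.cons 0x9018763452 .nil) (.node 5 8 .nil (.node 2 9 (.cons 0x8763452901 (.cons 0x7618509234 (.cons 0x7854361092 (.cons 0x9258763410 .nil)))) .done (.node 6 8 .nil (.node 5 7 (.cons 0x9087543216 .nil) (.leaf 0x4576890123 0 .done) .done) .done)) .done) .done)) (.node 1 8 (.cons 0x9018763452 .nil) (.node 0 3 (.cons 0x9876541230 .nil) (.node 0 4 (.cons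 0x9045236781 .nil) (.node 4 9 (.cons 0x1876325490 .nil) (.leaf 0x2309456781 2 (.node 1 7 (.cons 0x5409817632 .nil) (.node 7 9 (.cons 0x5679832140 .nil) (.leaf 0x8321405679 3 (.leaf 0x6504123897 4 .done)) .done) (.leaf 0x2567834901 0 .done))) .done) (.leaf 0x6541230987 1 .done)) .done) .done)) (.node 5 9 (.cons 0x8761234590 .nil) (.node 2 7 (.cons 0x5980143672 .nil) (.leaf 0x143672598 0 (.node 2 9 (.cons 0x8763452901 .nil) (.node 1 7 (.cons 0x8710925436 .nil) (.node 7 9 (.cons 0x8059761432 .nil) (.leaf 0x2978056143 4 (.leaf 0x8056143297 3 .done)) .done) (.leaf 0x1678059234 3 .done)) (.leaf 0x143672598 3 .done))) (.node 0 6 .nil (.node 1 7 (.cons 0x6059871432 (.cons 0x9523608714 .nil)) (.leaf 0x2178906543 0 .done) (.node 1 7 (.cons 0x8906712345 .nil) (.node 5 8 (.cons 0x7609854321 .nil) (.leaf 0x6712345890 0 (.node 2 9 (.cons 0x3458761290 .nil) (.node 5 7 (.cons 0x8906754321 .nil) (.leaf 0x143675298 0 .done) (.leaf 0x671432985 1 (.leaf 0x1678059234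 0 .done))) .done)) (.node 4 6 (.cons 0x9523641780 .nil) (.leaf 0x5908714632 0 .done) .done)) .done)) (.leaf 0x7612345908 2 .done))) (.node 1 8 (.cons 0x9018763452 .nil) (.node 2 8 (.cons 0x9054328761 .nil) (.node 3 8 (.cons 0x9012543876 .nil) (.node 1 5 .nil (.node 2 6 (.cons 0x9054326187 (.cons 0x9876234150 .nil)) (.leaf 0x9015432678 0 .done) (.node 2 7 (.cons 0x9827634510 .nil) (.leaf 0x1543672890 0 (.leaf 0x1543672890 3 .done)) .done)) .done) (.node 1 9 (.cons 0x9145236780 .nil) (.leaf 0x916782345 4 (.node 5 9 (.cons 0x9528763410 .nil) (.leaf 0x3678259014 3 (.leaf 0x3678259014 0 (.node 6 9 (.cons 0x8769143250 .nil) (.leaf 0x1432508769 0 .done) .done))) (.leaf 0x7619054328 1 .done))) .done)) (.node 1 7 .nil (.node 4 6 (.cons 0x9052346781 (.cons 0x5098176432 .nil)) (.leaf 0x7189052346 3 .done) (.node 1 9 (.cons 0x9145236780 .nil) (.node 1 3 .nil (.node 0 2 (.cons 0x7632089145 (.cons 0x9876502314 .nil)) (.leaf 0x6541320987 1 (.leaf 0x1209876543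 0 .done)) (.node 1 5 .nil (.node 4 9 (.cons 0x5490876123 (.cons 0x7809451632 (.cons 0x6781523490 (.cons 0x2518763490 .nil)))) .done .done) .done)) (.node 4 6 (.cons 0x9052346781 .nil) (.node 2 4 (.cons 0x5098176423 .nil) (.node 0 4 (.cons 0x8719045236 .nil) (.node 5 7 (.cons 0x5764321890 .nil) (.leaf 0x3657819042 1 (.leaf 0x8190423657 4 .done)) .done) .done) (.leaf 0x5091876432 3 .done)) .done)) .done)) .done)) .done))) (.node 3 8 (.cons 0x7654123890 .nil) (.node 0 7 (.cons 0x9832145670 .nil) (.node 0 4 .nil (.node 1 9 (.cons 0x8761905432 (.cons 0x9123870456 (.cons 0x7650419832 (.cons 0x8763254091 .nil)))) .done (.node 3 7 (.cons 0x6540987321 .nil) (.node 0 3 (.cons 0x4567890321 .nil) (.node 2 4 (.cons 0x8905673241 .nil) (.node 1 7 (.cons 0x2365409871 .nil) (.leaf 0x5409871236 3 (.node 2 7 (.cons 0x9830127654 .nil) .done .done)) .done) .done) .done) .done)) (.leaf 0x2145670983 3 (.node 6 9 (.cons 0x9678345210 .nil) (.node 2 7 (.cons 0x5438967210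 .nil) (.leaf 0x4389672105 0 (.node 5 8 (.cons 0x2367098541 .nil) (.leaf 0x4589076321 0 (.node 0 6 (.cons 0x5890672143 .nil) (.node 6 8 (.cons 0x5098672341 .nil) .done .done) .done)) .done)) (.leaf 0x3896705412 1 (.leaf 0x7698321450 4 .done))) .done))) (.node 0 3 (.cons 0x4567890321 .nil) (.leaf 0x2145678903 0 (.node 3 9 .nil (.node 0 4 (.cons 0x9045612387 (.cons 0x8765409321 .nil)) (.leaf 0x9876540123 3 .done) (.node 1 3 .nil (.node 2 4 (.cons 0x7890136542 .nil) (.leaf 0x5678903124 3 (.leaf 0x6542130987 1 .done)) (.node 3 5 .nil (.node 0 8 (.cons 0x9087612345 (.cons 0x9087612354 .nil)) (.node 4 6 (.cons 0x7839012564 (.cons 0x9087643521 .nil)) (.leaf 0x5467890123 0 .done) .done) .done) .done)) .done)) (.node 0 8 (.cons 0x9087612345 .nil) (.node 0 7 (.cons 0x8907654123 .nil) (.node 0 4 (.cons 0x9045612387 .nil) (.node 3 7 (.cons 0x6540987321 .nil) (.node 0 6 (.cons 0x9806732145 .nil) (.node 6 9 (.cons 0x1237896540 .nil) (.leaf 0x3769805412 1 (.leaf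 0x8967321450 4 .done)) .done) .done) .done) .done) .done) .done))) (.node 0 7 (.cons 0x8907654123 .nil) (.leaf 0x6541238907 0 (.node 0 6 .nil (.node 5 7 (.cons 0x5760983412 .nil) (.leaf 0x9832145760 0 (.leaf 0x2345789061 2 .done)) (.node 0 3 (.cons 0x4567890321 .nil) (.leaf 0x2145678903 0 (.node 0 8 (.cons 0x9087612345 .nil) (.node 0 2 .nil (.node 1 3 (.cons 0x4567890231 .nil) (.leaf 0x9876541320 0 (.leaf 0x7890213456 3 .done)) .done) .done) .done)) .done)) (.leaf 0x9832145670 0 .done))) .done))) (.node 0 6 (.cons 0x7890654123 .nil) (.node 0 4 .nil (.node 1 5 (.cons 0x7890415632 .nil) (.node 2 7 (.cons 0x1456327890 (.cons 0x4156327890 .nil)) (.leaf 0x6327890415 3 (.leaf 0x9872365140 3 .done)) (.leaf 0x7890451236 3 (.leaf 0x9043215678 1 .done))) (.node 0 3 (.cons 0x4567890321 .nil) (.node 3 8 (.cons 0x9045678321 .nil) (.node 1 8 (.cons 0x9018763452 .nil) (.node 0 8 (.cons 0x9087612345 .nil) (.node 0 2 (.cons 0x7890236541 .nil) (.node 0 7 (.cons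 0x9832145607 .nil) .done .done) .done) (.node 3 9 (.cons 0x8765409321 .nil) (.leaf 0x4093218765 1 (.leaf 0x2390456781 4 .done)) .done)) (.node 3 9 (.cons 0x8765409321 .nil) (.node 1 8 (.cons 0x9018763452 .nil) (.node 1 3 .nil (.node 2 4 (.cons 0x9056142387 .nil) (.leaf 0x3167890542 4 (.leaf 0x9876542310 0 .done)) .done) (.leaf 0x4093218765 1 .done)) .done) .done)) (.leaf 0x8903214567 1 .done)) .done)) (.node 0 8 (.cons 0x9087612345 .nil) (.node 0 3 (.cons 0x4567890321 .nil) (.node 3 7 (.cons 0x6541237890 .nil) (.leaf 0x1237890654 3 (.node 3 8 (.cons 0x9012543876 .nil) (.node 6 8 (.cons 0x9032145687 .nil) (.node 0 4 (.cons 0x9041256873 .nil) (.node 5 8 (.cons 0x4098567321 .nil) .done .done) .done) .done) .done)) (.leaf 0x2145678903 4 .done)) (.node 1 8 (.cons 0x9018763452 .nil) (.node 0 7 .nil (.node 2 9 (.cons 0x9254367810 (.cons 0x6705432981 (.cons 0x9234507816 (.cons 0x8709236145 .nil)))) (.leaf 0x7054329816 3 .done) (.node 3 7 (.cons 0x6541237890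 .nil) (.leaf 0x1237890654 3 (.node 0 3 (.cons 0x4567890321 .nil) (.leaf 0x2145678903 4 (.node 3 8 (.cons 0x9078321456 .nil) .done .done)) .done)) .done)) (.node 0 7 .nil (.node 1 9 (.cons 0x4523678091 (.cons 0x8709145236 .nil)) (.node 2 4 (.cons 0x9018763425 (.cons 0x5423670891 (.cons 0x7098142365 .nil))) .done .done) (.node 0 3 (.cons 0x4567890321 .nil) (.leaf 0x2145678903 4 (.node 3 8 (.cons 0x9078321456 .nil) (.node 3 5 (.cons 0x7890653214 .nil) (.node 0 2 (.cons 0x7890236541 .nil) (.node 0 4 (.cons 0x7653218904 .nil) .done .done) .done) .done) .done)) .done)) .done)) .done)) .done)) .done)))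
noncomputable def tc9_5_18 : T := (.node 2 9 (.cons 0x1678923450 .nil) (.leaf 0x6105432987 0 (.node 2 6 (.cons 0x7892610543 .nil) (.node 3 7 (.cons 0x6105437892 .nil) (.node 5 7 (.cons 0x8901267543 .nil) (.node 0 6 (.cons 0x3457892160 .nil) (.node 5 9 (.cons 0x8954376210 .nil) (.node 1 5 (.cons 0x8751290634 .nil) (.node 3 5 (.cons 0x4357892160 .nil) .done .done) .done) .done) .done) (.leaf 0x162987345 3 (.leaf 0x1629873450 4 .done))) (.node 0 6 (.cons 0x7892345061 .nil) (.node 3 7 (.cons 0x6105437892 .nil) (.node 5 7 (.cons 0x8906754321 .nil) (.node 0 4 (.cons 0x3405789261 .nil) (.node 1 4 (.cons 0x3416298750 .nil) (.leaf 0x9265014378 1 (.node 1 5 (.cons 0x4326789051 .nil) (.node 5 9 (.cons 0x8957341260 .nil) .done .done) .done)) (.leaf 0x5401298736 4 .done)) .done) (.node 4 6 (.cons 0x5016437892 .nil) (.leaf 0x7346105298 3 (.node 6 8 (.cons 0x9250168734 .nil) (.node 6 9 (.cons 0x8769012543 .nil) .done .done) .done)) (.leaf 0x8926105437 1 .done)))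 .done) .done)) (.node 2 6 .nil (.node 3 9 (.cons 0x8761052934 (.cons 0x7893450162 (.cons 0x8762543901 .nil))) (.node 1 3 (.cons 0x4509876231 .nil) (.node 0 2 (.cons 0x9876132054 .nil) (.leaf 0x6134502987 2 (.leaf 0x1209876543 0 .done)) (.leaf 0x8905431267 1 (.leaf 0x987625431 0 .done))) .done) (.node 1 5 (.cons 0x4329876150 .nil) (.node 5 9 (.cons 0x8763459012 .nil) (.node 3 5 (.cons 0x4350167892 .nil) (.node 5 7 (.cons 0x8901267543 .nil) (.node 5 8 (.cons 0x7621098543 .nil) .done .done) .done) (.node 6 9 (.cons 0x8769012543 .nil) (.node 5 7 (.cons 0x8901267543 .nil) (.node 3 5 (.cons 0x4350167892 .nil) (.node 5 8 (.cons 0x7621098543 .nil) .done .done) .done) .done) .done)) (.node 5 8 (.cons 0x7621098543 .nil) (.node 3 5 (.cons 0x4350167892 .nil) (.node 5 7 (.cons 0x8901267543 .nil) (.node 5 9 (.cons 0x4367859210 .nil) .done .done) .done) (.node 3 7 (.cons 0x1267345890 .nil) (.node 1 4 (.cons 0x1437629850 .nil) (.leaf 0x7850921436 3 (.leaf 0x9267341058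 0 .done)) (.leaf 0x6210985437 3 (.leaf 0x4589012673 4 .done))) .done)) .done)) .done)) (.node 0 3 (.cons 0x4567890321 .nil) (.node 1 4 (.cons 0x3298761450 .nil) (.node 0 4 .nil (.node 1 5 (.cons 0x9876150432 .nil) (.leaf 0x6789230451 0 (.leaf 0x9043215678 1 (.leaf 0x4032987615 0 .done))) (.node 3 7 (.cons 0x9873216540 .nil) (.node 5 7 .nil (.node 3 8 (.cons 0x9238761450 (.cons 0x9238750416 (.cons 0x4576103892 .nil))) (.leaf 0x2905416783 0 .done) (.node 3 8 (.cons 0x4576129830 .nil) (.leaf 0x2905416783 0 (.leaf 0x9216754038 2 (.leaf 0x4578361290 2 .done))) .done)) (.node 1 7 (.cons 0x6540987123 .nil) (.node 0 7 (.cons 0x9870456123 .nil) (.node 3 9 (.cons 0x7893216540 .nil) (.node 0 2 (.cons 0x6178932054 .nil) (.node 0 6 (.cons 0x4506178932 .nil) .done .done) (.node 0 6 (.cons 0x5406178932 .nil) (.leaf 0x1789325406 3 .done) .done)) .done) .done) (.leaf 0x8904561237 0 .done))) .done)) (.node 1 5 .nil (.node 0 4 (.cons 0x9876150432 .nil) (.leaf 0x6789230451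 0 (.leaf 0x7651234098 0 (.leaf 0x8761504329 0 .done))) (.node 1 9 .nil (.node 0 8 (.cons 0x7614508923 (.cons 0x7809123654 (.cons 0x9167805234 .nil))) (.leaf 0x1908763452 1 .done) (.node 1 3 .nil (.node 2 4 (.cons 0x4231987650 .nil) (.leaf 0x5678903124 3 (.leaf 0x9876542310 3 .done)) .done) .done)) .done)) (.leaf 0x2145678903 4 .done))) (.node 2 6 .nil (.node 4 7 (.cons 0x9874561230 (.cons 0x9874562103 (.cons 0x5478926103 (.cons 0x3098745621 .nil)))) (.leaf 0x5612309874 0 .done) (.node 0 6 .nil (.node 4 7 (.cons 0x9874561230 (.cons 0x9874560321 (.cons 0x5478923061 (.cons 0x5478921603 .nil)))) (.leaf 0x5612309874 0 .done) (.node 0 2 .nil (.node 5 9 (.cons 0x8763459012 (.cons 0x3459876120 .nil)) (.leaf 0x4302167895 0 (.node 4 7 (.cons 0x9874561230 (.cons 0x5987432061 (.cons 0x9874561203 .nil))) (.leaf 0x9874321605 1 (.leaf 0x5612309874 0 .done)) .done)) .done) .done)) (.node 0 6 .nil (.node 4 7 (.cons 0x9874561230 (.cons 0x9874560321 (.cons 0x5478923061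 (.cons 0x5478921603 .nil)))) (.leaf 0x5612309874 0 .done) (.node 0 2 .nil (.node 6 9 (.cons 0x8769012543 (.cons 0x7896120345 .nil)) (.node 5 7 (.cons 0x8906754321 (.cons 0x2034578961 .nil)) (.leaf 0x4578961023 0 .done) .done) .done) .done)) .done))) (.node 1 4 (.cons 0x3298761450 .nil) (.leaf 0x2987614503 0 (.leaf 0x2987614503 3 (.leaf 0x8903214567 1 .done))) .done))) .done)))) (.leaf 0x4521098763 0 (.leaf 0x7890125436 0 (.node 2 9 (.cons 0x1678923450 .nil) (.leaf 0x6105432987 0 (.node 2 6 (.cons 0x7892610543 .nil) (.node 3 7 (.cons 0x6105437892 .nil) (.node 0 6 (.cons 0x7892345061 .nil) (.leaf 0x7892106543 0 (.node 6 8 (.cons 0x7863452901 .nil) (.node 6 9 (.cons 0x8769012543 .nil) .done .done) .done)) (.node 2 4 (.cons 0x8736542901 .nil) (.node 0 7 (.cons 0x3654298701 .nil) (.node 1 4 (.cons 0x3214567890 .nil) (.leaf 0x789234165 1 (.node 1 5 (.cons 0x4298701563 .nil) (.node 5 8 (.cons 0x9850761432 .nil) (.leaf 0x1073658924 1 (.leaf 0x2673458901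 1 .done)) .done) (.leaf 0x789234165 2 .done))) (.node 1 7 (.cons 0x3654298710 .nil) (.node 0 4 (.cons 0x5407892361 .nil) (.leaf 0x1789234056 1 (.node 5 8 (.cons 0x7045892361 .nil) (.leaf 0x173658924 1 (.leaf 0x3617045892 3 (.leaf 0x2673458901 1 .done))) (.leaf 0x8716504329 2 .done))) .done) .done)) .done) (.leaf 0x162987345 3 .done))) (.node 6 8 (.cons 0x7863452901 .nil) (.node 6 9 (.cons 0x8769012543 .nil) (.node 0 6 (.cons 0x7892345061 .nil) (.node 4 6 .nil (.node 0 7 (.cons 0x5436107892 (.cons 0x5078923461 (.cons 0x3298705461 .nil))) .done .done) .done) .done) .done) .done)) (.node 3 9 (.cons 0x8761052934 .nil) (.node 6 9 (.cons 0x8769012543 .nil) (.node 2 7 (.cons 0x8934501672 .nil) (.node 6 8 (.cons 0x5439867210 .nil) (.leaf 0x7689345012 0 .done) (.node 2 8 (.cons 0x7610543982 .nil) (.leaf 0x543982761 1 (.node 1 7 (.cons 0x1782543690 .nil) (.leaf 0x3452871096 3 (.leaf 0x3452871096 0 .done)) .done)) .done)) .done) (.node 2 6 (.cons 0x7893450162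 .nil) (.node 6 9 (.cons 0x8769012543 .nil) (.node 6 8 (.cons 0x7861052934 .nil) (.node 3 8 (.cons 0x1254387690 .nil) (.node 1 8 (.cons 0x3452187690 .nil) (.node 1 5 (.cons 0x4329876150 .nil) (.node 3 5 (.cons 0x4350167892 .nil) .done .done) (.leaf 0x187634529 0 .done)) .done) .done) .done) .done) .done)) (.node 1 4 (.cons 0x3298761450 .nil) (.node 1 8 (.cons 0x5418763290 .nil) (.leaf 0x4509236781 0 (.leaf 0x7632905418 0 (.node 0 8 (.cons 0x9087654123 .nil) (.node 1 7 (.cons 0x9087145632 .nil) (.leaf 0x8092365417 3 .done) (.node 5 9 (.cons 0x2367814590 .nil) (.leaf 0x1678059234 3 (.leaf 0x1678059234 0 (.node 0 2 (.cons 0x3459876120 .nil) (.leaf 0x4187632095 1 (.leaf 0x8145902367 2 .done)) .done))) .done)) .done))) (.node 1 5 .nil (.node 0 4 (.cons 0x8763290451 (.cons 0x7892361540 .nil)) (.node 2 4 (.cons 0x3678924510 .nil) (.leaf 0x8901542367 1 .done) .done) (.node 1 9 .nil (.node 0 8 (.cons 0x7614508923 (.cons 0x9167805234 (.cons 0x4523678091 .nil)))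 (.leaf 0x9125436780 0 .done) (.node 1 8 (.cons 0x9018763452 .nil) (.node 4 6 (.cons 0x8764325091 .nil) (.leaf 0x918764325 1 (.node 1 3 (.cons 0x8764319052 .nil) (.node 1 7 .nil (.node 0 2 (.cons 0x7632098145 (.cons 0x4563209871 .nil)) (.leaf 0x5178902364 3 (.leaf 0x9023654178 0 .done)) .done) .done) .done)) .done) .done)) .done)) (.node 2 7 (.cons 0x1456327890 .nil) (.node 2 4 .nil (.node 3 7 (.cons 0x6541237890 (.cons 0x9873241650 .nil)) (.leaf 0x124563789 0 .done) (.node 2 6 .nil (.node 3 9 (.cons 0x2789365410 (.cons 0x6278934501 (.cons 0x4105627893 .nil))) (.leaf 0x2650143987 0 .done) (.node 0 2 (.cons 0x7890236541 .nil) (.node 1 5 (.cons 0x4326789051 .nil) (.node 2 8 (.cons 0x9827634510 .nil) .done .done) .done) .done)) .done)) (.node 1 5 (.cons 0x4156327890 .nil) (.node 0 7 (.cons 0x5416329870 .nil) (.leaf 0x2361450789 0 (.node 2 8 (.cons 0x7634510982 .nil) (.leaf 0x1543672890 0 (.node 0 2 (.cons 0x7890236541 .nil) (.node 2 6 (.cons 0x9870541623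 .nil) .done .done) .done)) .done)) .done) .done)) .done))) .done)))) .done))))
noncomputable def uc9_5_4 : T := (.node 3 6 (.cons 0x5436789012 .nil) tc9_5_18 (.node 3 6 (.cons 0x5436789012 .nil) (.node 2 9 (.cons 0x5436789210 .nil) (.node 5 9 (.cons 0x8761234590 .nil) (.node 2 6 (.cons 0x7895436210 .nil) (.node 0 6 (.cons 0x7895436012 .nil) (.node 3 5 .nil (.node 0 4 (.cons 0x9876210435 .nil) (.leaf 0x1267895340 3 (.leaf 0x2104359876 1 (.leaf 0x1045367892 0 .done))) (.node 1 5 (.cons 0x4326789051 .nil) (.node 5 7 (.cons 0x8906754321 .nil) (.node 5 8 (.cons 0x7634589210 .nil) .done .done) .done) .done)) .done) .done) (.node 0 8 (.cons 0x3459087612 .nil) (.node 5 7 (.cons 0x9087543216 .nil) (.node 5 8 (.cons 0x7634589210 .nil) .done .done) (.leaf 0x7612345908 2 (.node 2 6 .nil (.node 1 7 (.cons 0x4508923671 (.cons 0x8926710543 .nil)) (.leaf 0x6345017892 3 (.leaf 0x6345017892 0 .done)) (.node 0 2 (.cons 0x8761209543 .nil) (.node 6 9 (.cons 0x8769012543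 .nil) (.node 2 8 (.cons 0x3452876901 .nil) (.node 2 4 .nil (.node 1 3 (.cons 0x9678254310 (.cons 0x7631245980 (.cons 0x7809613245 (.cons 0x8769013425 .nil)))) .done .done) .done) .done) .done) .done)) .done))) .done)) (.leaf 0x4367892105 3 (.node 1 4 (.cons 0x3214567890 .nil) (.node 2 6 .nil (.node 1 9 (.cons 0x8761905432 (.cons 0x7891054362 (.cons 0x3267891450 .nil))) (.leaf 0x6234501987 0 .done) (.node 0 6 (.cons 0x5067892341 .nil) (.node 1 5 (.cons 0x6789234150 .nil) (.node 2 4 .nil (.node 1 9 (.cons 0x5067891432 (.cons 0x1987632450 .nil)) (.leaf 0x3425019876 1 .done) (.node 4 8 (.cons 0x5092348761 .nil) (.node 0 2 (.cons 0x7634892015 .nil) (.node 5 7 (.cons 0x2984367510 .nil) (.leaf 0x1029843675 0 (.leaf 0x6348920157 0 .done)) .done) (.leaf 0x9051678432 3 .done)) .done)) (.leaf 0x4329876051 1 .done)) .done) .done)) (.leaf 0x143678925 0 (.node 2 6 (.cons 0x7892634105 .nil) (.node 2 4 (.cons 0x7892410563 .nil) (.node 1 3 (.cons 0x4298765013 .nil)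 (.node 3 5 (.cons 0x6789243501 .nil) (.leaf 0x2435016789 1 .done) (.leaf 0x8765013429 1 .done)) .done) .done) .done))) (.node 3 5 (.cons 0x4536789210 .nil) (.node 1 3 (.cons 0x4501367892 .nil) (.node 1 5 .nil (.node 2 6 (.cons 0x7892631054 (.cons 0x4326789051 .nil)) (.leaf 0x9015432678 0 .done) (.node 1 4 (.cons 0x3214567890 .nil) (.node 1 9 (.cons 0x8761905432 .nil) (.node 1 7 (.cons 0x8923671450 .nil) (.node 1 8 (.cons 0x7632981450 .nil) .done .done) .done) .done) .done)) (.node 3 8 (.cons 0x4509238761 .nil) (.node 0 3 (.cons 0x4567890321 .nil) (.node 2 4 (.cons 0x3678924501 .nil) (.node 3 9 (.cons 0x3987654210 .nil) (.leaf 0x1054293876 0 .done) (.leaf 0x6789245013 4 (.node 3 7 (.cons 0x9873654210 .nil) (.node 3 9 (.cons 0x7893654210 .nil) .done .done) .done))) .done) (.node 3 9 .nil (.node 0 4 (.cons 0x5409238761 (.cons 0x8765409321 (.cons 0x7893654012 .nil))) (.leaf 0x9876540123 0 .done) (.node 0 3 (.cons 0x4567890321 .nil) (.node 1 4 (.cons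 0x5416783290 .nil) (.leaf 0x6783290541 1 (.leaf 0x2145678903 0 (.node 3 7 (.cons 0x6541237890 .nil) .done .done))) .done) .done)) .done)) .done)) (.node 3 8 (.cons 0x4509238761 .nil) (.node 1 3 (.cons 0x4501367892 .nil) (.node 0 3 (.cons 0x4567890321 .nil) (.node 1 9 (.cons 0x8761905432 .nil) (.node 1 4 (.cons 0x3214567890 .nil) (.node 1 5 .nil (.node 2 4 (.cons 0x3678924501 .nil) (.leaf 0x5103678924 1 (.leaf 0x542987631 1 .done)) .done) .done) (.node 4 8 (.cons 0x3290548761 .nil) (.leaf 0x2905487613 4 (.leaf 0x3250916784 0 (.leaf 0x9231678450 3 (.leaf 0x7619052348 0 .done)))) .done)) .done) .done) (.node 1 4 (.cons 0x5416783290 .nil) (.leaf 0x6783290541 1 (.node 1 3 (.cons 0x4501367892 .nil) (.node 1 5 (.cons 0x4516783290 .nil) (.node 5 7 (.cons 0x2983675410 .nil) (.node 5 8 (.cons 0x7614583290 .nil) .done .done) .done) .done) (.node 0 3 (.cons 0x4567890321 .nil) (.node 0 4 (.cons 0x5409238761 .nil) (.node 5 7 (.cons 0x6145783290 .nil) (.leaf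 0x4012983675 3 (.leaf 0x6754012983 4 .done)) .done) (.leaf 0x2145678903 4 (.leaf 0x8903214567 1 .done))) .done))) .done)) .done)) .done)))) (.leaf 0x4521098763 0 (.leaf 0x7890125436 0 (.node 1 4 (.cons 0x3214567890 .nil) tc9_5_17 .done)))) (.leaf 0x9054321678 0 (.node 1 4 (.cons 0x3214567890 .nil) tc9_5_16 .done))))
theorem sub_c9_5_4 : root 9 refs9_5 [] 0x700000008706000000006050000000050300000000304070200004030000000030100000070102000000002018000200010 0xfe7fff3fff9fffd7ff63ffe7fff5ff79fff9fef9 9 1 6 (.cons 0x5432167890 .nil) uc9_5_4 = true := by decide +kernel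
noncomputable def tc9_5_19 : T := (.node 6 9 (.cons 0x8769012543 .nil) (.node 0 6 .nil (.node 1 7 (.cons 0x9871234506 .nil) (.leaf 0x2178906543 0 (.node 1 4 (.cons 0x3214567890 (.cons 0x7890654123 .nil)) (.node 2 9 (.cons 0x8763452901 (.cons 0x7892360541 .nil)) (.leaf 0x4506329871 0 (.node 3 7 (.cons 0x4105637892 .nil) (.leaf 0x541237896 3 (.leaf 0x541237896 0 .done)) .done)) (.leaf 0x2145678903 0 .done)) (.leaf 0x543217896 0 (.leaf 0x543217896 3 .done)))) (.node 1 6 (.cons 0x5432167890 .nil) (.node 0 7 (.cons 0x9870543216 .nil) (.leaf 0x1234507896 3 (.node 2 6 (.cons 0x9870543261 .nil) .done .done)) (.node 2 6 .nil (.node 3 7 (.cons 0x9873450126 .nil) (.node 2 4 (.cons 0x8901245673 (.cons 0x2456378901 .nil)) (.leaf 0x8736542109 1 .done) (.node 4 6 (.cons 0x9873462105 (.cons 0x5098734621 .nil)) .done .done)) (.node 3 9 (.cons 0x5439876210 .nil) (.node 6 8 (.cons 0x9054321687 .nil) (.node 4 6 .nil (.node 1 7 (.cons 0x6871254390 (.cons 0x9871234605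 (.cons 0x5217864390 (.cons 0x2364509871 .nil)))) .done .done) .done) (.leaf 0x8762105439 0 .done)) .done)) .done)) .done)) (.node 3 5 (.cons 0x8769012534 .nil) (.node 3 7 .nil (.node 2 6 (.cons 0x7896210534 (.cons 0x5012698734 (.cons 0x8901267345 .nil))) .done (.node 3 8 (.cons 0x5210967834 .nil) (.node 2 6 (.cons 0x7896210534 .nil) (.node 3 9 (.cons 0x5439876210 .nil) (.leaf 0x4501267893 0 .done) (.node 5 8 (.cons 0x7621098543 .nil) (.leaf 0x6210985437 0 (.leaf 0x6210985437 3 .done)) .done)) .done) .done)) (.node 1 5 .nil (.node 4 8 (.cons 0x5210967843 (.cons 0x7843690152 (.cons 0x1523487690 .nil))) (.leaf 0x2109678435 1 (.node 2 6 (.cons 0x9621503487 .nil) (.node 1 3 (.cons 0x9031265487 .nil) (.leaf 0x4526789013 0 (.leaf 0x987625431 0 .done)) (.leaf 0x9015432678 0 .done)) .done)) (.node 0 6 (.cons 0x7896051234 .nil) (.node 1 6 (.cons 0x5432167890 .nil) (.node 1 4 (.cons 0x3214567890 .nil) (.leaf 0x2145678903 0 (.node 5 7 (.cons 0x8906754321 .nil)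 (.node 5 8 (.cons 0x7609854321 .nil) (.node 0 7 (.cons 0x2587096341 .nil) (.leaf 0x8521436907 3 (.leaf 0x5870963412 1 .done)) .done) (.node 6 8 (.cons 0x3412578690 .nil) (.leaf 0x7521430968 0 (.leaf 0x9034125786 0 .done)) .done)) .done)) .done) .done) .done)) .done)) (.node 1 5 (.cons 0x8769034512 .nil) (.node 1 8 (.cons 0x3452187690 .nil) (.node 1 4 (.cons 0x3214567890 .nil) (.node 4 7 (.cons 0x3096547812 .nil) (.leaf 0x1874569032 1 (.leaf 0x5690321874 4 (.node 5 7 (.cons 0x6903457812 .nil) (.node 3 7 (.cons 0x4569037812 .nil) (.node 2 6 (.cons 0x1269873450 .nil) (.leaf 0x5437896210 1 (.leaf 0x5437896210 2 (.node 0 6 (.cons 0x9062341875 .nil) (.node 1 6 (.cons 0x2169873450 .nil) .done .done) .done))) (.node 4 6 (.cons 0x5218734690 .nil) (.leaf 0x3781250964 3 (.leaf 0x9643781250 4 .done)) .done)) .done) .done))) (.leaf 0x2145678903 0 .done)) (.leaf 0x9678125430 2 (.node 3 5 (.cons 0x4530967812 .nil) (.node 5 9 (.cons 0x6781230954 .nil) (.node 4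 9 (.cons 0x1876325490 .nil) (.node 4 6 (.cons 0x7645321890 .nil) (.leaf 0x7812309546 1 (.node 1 4 (.cons 0x3214567890 .nil) (.node 0 4 (.cons 0x9045236781 .nil) (.node 1 9 (.cons 0x4523678190 .nil) (.leaf 0x8763254091 1 .done) .done) .done) .done)) (.leaf 0x2309456781 2 .done)) .done) .done) .done))) (.node 5 9 .nil (.node 1 8 (.cons 0x3452187690 (.cons 0x2187695430 (.cons 0x4367810952 (.cons 0x6781230954 .nil)))) (.node 2 6 (.cons 0x7812690345 (.cons 0x3459876210 (.cons 0x7810952634 .nil))) (.leaf 0x1034598762 0 .done) .done) (.node 4 9 (.cons 0x8765490321 .nil) (.node 0 4 .nil (.node 1 7 (.cons 0x8904517632 .nil) (.leaf 0x5409871236 0 (.leaf 0x5409871236 3 (.node 2 8 (.cons 0x5430967821 (.cons 0x9045632871 (.cons 0x8234095176 (.cons 0x7632890451 .nil)))) (.leaf 0x4309678215 1 .done) (.node 3 8 (.cons 0x1254387690 (.cons 0x5671238940 (.cons 0x4096521783 (.cons 0x7651238904 .nil)))) .done .done)))) (.node 3 5 .nil (.node 1 8 (.cons 0x3452187690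 (.cons 0x4352187690 (.cons 0x4530967812 .nil))) (.node 0 7 (.cons 0x3218945670 (.cons 0x4981235670 .nil)) (.leaf 0x4981230765 0 .done) (.leaf 0x9043521876 0 .done)) (.node 3 7 .nil (.node 2 8 (.cons 0x5430967821 (.cons 0x3765498210 (.cons 0x4569037821 (.cons 0x4098237651 (.cons 0x6735498210 .nil))))) .done (.node 3 8 (.cons 0x1254387690 .nil) (.node 0 7 (.cons 0x6907834521 .nil) (.node 1 3 (.cons 0x6907831254 .nil) .done .done) .done) .done)) .done)) .done)) (.node 6 8 (.cons 0x7865490321 .nil) (.node 1 8 (.cons 0x3452187690 .nil) (.node 3 8 (.cons 0x1254387690 .nil) (.node 1 4 (.cons 0x5214387690 .nil) (.leaf 0x8341250967 1 (.leaf 0x3876905214 3 .done)) .done) (.leaf 0x9678125430 2 (.leaf 0x2309456781 2 .done))) (.node 4 7 (.cons 0x5123476890 .nil) (.leaf 0x3215687490 3 (.leaf 0x2156874903 4 (.node 1 3 (.cons 0x1325687490 .nil) (.leaf 0x8690521347 1 (.leaf 0x9687431250 2 (.node 3 7 (.cons 0x4378690521 .nil) (.leaf 0x1256873490 1 .done) .done)))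 (.leaf 0x1509867432 0 .done)))) .done)) .done)) .done)) .done)) .done))) (.node 1 4 (.cons 0x3214567890 .nil) (.leaf 0x6541230987 1 (.node 3 9 (.cons 0x8765412390 .nil) (.node 3 8 (.cons 0x9012543876 .nil) (.node 3 5 .nil (.node 4 6 (.cons 0x5346789012 .nil) (.leaf 0x7890125346 0 (.leaf 0x5467890123 0 (.leaf 0x3521098764 0 (.node 0 2 (.cons 0x5346789021 (.cons 0x3546789021 .nil)) (.node 1 7 (.cons 0x8903217654 (.cons 0x4563987102 (.cons 0x6435098712 (.cons 0x8903546712 .nil)))) .done .done) .done)))) .done) (.node 0 4 (.cons 0x9041238765 .nil) (.node 4 9 (.cons 0x5678321490 .nil) (.node 0 8 (.cons 0x9087654123 .nil) (.node 3 5 .nil (.node 2 7 (.cons 0x4983567210 .nil) (.leaf 0x9835672104 3 (.leaf 0x9835672104 0 (.leaf 0x5498012763 2 .done))) (.node 2 7 (.cons 0x4983567210 .nil) (.leaf 0x9835672104 3 (.leaf 0x9835672104 0 (.leaf 0x5498012763 2 .done))) .done)) .done) (.leaf 0x2567834901 0 .done)) .done) .done)) (.node 0 4 .nil (.node 1 5 (.cons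 0x8765123904 .nil) (.node 3 8 (.cons 0x9012543876 (.cons 0x9387652104 .nil)) (.node 4 8 (.cons 0x6784390152 (.cons 0x3904876521 .nil)) (.leaf 0x1256784390 1 .done) .done) (.leaf 0x7890451236 3 (.leaf 0x9043215678 1 .done))) (.node 4 8 (.cons 0x5678412390 .nil) (.leaf 0x1256784390 1 (.node 3 8 (.cons 0x9012543876 .nil) (.node 3 5 .nil (.node 0 6 (.cons 0x7841239065 (.cons 0x9065321487 .nil)) (.node 1 8 (.cons 0x4093256781 (.cons 0x9041876532 (.cons 0x9067812354 .nil))) .done .done) .done) .done) (.node 4 7 (.cons 0x8741239056 .nil) (.node 2 4 (.cons 0x2478936501 .nil) (.leaf 0x9365012478 0 (.node 3 7 (.cons 0x2456378901 .nil) (.leaf 0x124563789 0 .done) .done)) .done) .done))) .done)) .done)) (.node 1 5 .nil (.node 3 5 .nil (.node 2 4 (.cons 0x5109876342 (.cons 0x4210987653 .nil)) (.leaf 0x7890124356 3 (.leaf 0x8901542367 1 .done)) (.node 2 4 (.cons 0x5109876342 .nil) (.node 0 2 (.cons 0x9876354201 .nil) (.node 4 9 (.cons 0x3567894201 (.cons 0x6789435120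 .nil)) (.leaf 0x2103567894 1 .done) .done) (.node 4 6 (.cons 0x5123467890 .nil) (.node 2 9 (.cons 0x8763452901 (.cons 0x5346789210 (.cons 0x3546789210 .nil))) (.leaf 0x1053467892 0 (.leaf 0x1542987630 2 .done)) (.leaf 0x2154678903 2 (.leaf 0x1509876432 0 .done))) (.leaf 0x8901542367 1 .done))) .done)) (.node 3 5 .nil (.node 0 2 (.cons 0x9876345102 .nil) (.node 4 6 (.cons 0x9876435120 .nil) (.leaf 0x7890125346 0 (.leaf 0x5467890123 0 (.leaf 0x3467890215 4 .done))) (.node 4 6 (.cons 0x3546789021 .nil) (.leaf 0x7890125346 0 (.leaf 0x5467890123 0 (.node 0 4 (.cons 0x9876320451 .nil) (.node 1 6 (.cons 0x5432167890 (.cons 0x9876153204 .nil)) .done .done) .done))) .done)) .done) .done)) (.leaf 0x2145678903 4 .done)))) (.node 3 8 (.cons 0x9012543876 .nil) (.node 3 7 .nil (.node 2 4 (.cons 0x9837654210 (.cons 0x2456378901 .nil)) (.leaf 0x1245673890 0 (.leaf 0x8736542109 1 .done)) (.node 3 5 .nil (.node 6 9 (.cons 0x9678345210 (.cons 0x8769012534 .nil))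 (.node 0 7 (.cons 0x5438967012 (.cons 0x4538967012 .nil)) (.leaf 0x6983452107 0 .done) (.node 4 6 (.cons 0x5346789012 .nil) (.leaf 0x7890125346 0 (.leaf 0x5467890123 0 (.node 2 8 (.cons 0x6905437821 (.cons 0x9012876435 (.cons 0x9012876453 .nil))) (.node 1 8 (.cons 0x3452187690 (.cons 0x4352187690 .nil)) (.node 2 4 (.cons 0x2450963781 (.cons 0x9876530124 (.cons 0x8124537690 .nil))) .done .done) .done) (.leaf 0x3521098764 0 .done)))) .done)) (.node 3 9 .nil (.node 2 4 (.cons 0x3987654210 (.cons 0x8739012456 .nil)) (.node 1 3 (.cons 0x7890136542 .nil) .done (.leaf 0x1245678390 0 .done)) (.node 1 3 .nil (.node 2 4 (.cons 0x8739012456 (.cons 0x7890136542 .nil)) (.node 2 9 (.cons 0x8763452901 (.cons 0x5429876310 .nil)) (.leaf 0x4501367892 0 (.leaf 0x8763105429 0 .done)) (.leaf 0x9876542310 0 .done)) .done) .done)) .done)) .done)) (.node 3 9 .nil (.node 2 4 (.cons 0x3987654210 .nil) (.leaf 0x5421093876 0 (.node 1 4 (.cons 0x3214567890 (.cons 0x8765412390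 .nil)) (.node 0 4 (.cons 0x8765409321 .nil) (.leaf 0x1256789304 0 (.leaf 0x3987652140 0 .done)) (.leaf 0x8903214567 1 .done)) (.leaf 0x8930124567 1 .done))) (.node 6 9 (.cons 0x8769012543 .nil) (.node 3 5 (.cons 0x8769012534 .nil) (.node 3 7 .nil (.node 2 4 (.cons 0x9876530124 (.cons 0x8937654210 (.cons 0x8901245673 (.cons 0x2456378901 .nil)))) .done (.node 1 3 .nil (.node 2 4 (.cons 0x9876530124 (.cons 0x7890136542 .nil)) (.node 2 9 (.cons 0x8763452901 (.cons 0x7892456310 (.cons 0x5429876310 .nil))) .done (.leaf 0x9876542310 0 .done)) .done) .done)) .done) (.node 1 8 (.cons 0x3452187690 .nil) (.leaf 0x2187690345 0 (.node 3 5 (.cons 0x4352187690 .nil) (.node 3 7 (.cons 0x6905218734 .nil) (.node 1 3 .nil (.node 2 4 (.cons 0x9876530124 (.cons 0x7896503124 (.cons 0x8731245690 .nil))) (.leaf 0x9876542310 0 .done) .done) .done) .done) (.node 0 8 .nil (.node 1 4 (.cons 0x3214567890 (.cons 0x7654123980 (.cons 0x9087654123 (.cons 0x9081452367 .nil))))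 (.leaf 0x8903214567 1 .done) (.node 5 8 (.cons 0x4309678521 .nil) (.node 3 5 .nil (.node 2 4 (.cons 0x7658930124 (.cons 0x9876530124 .nil)) (.leaf 0x9678124530 3 (.leaf 0x9678124530 0 .done)) .done) (.node 1 4 (.cons 0x3214567890 .nil) (.leaf 0x2587690341 4 (.leaf 0x3096785214 3 (.leaf 0x341258769 1 (.leaf 0x8903214567 1 .done)))) .done)) .done)) .done))) .done)) .done)) .done)) .done)))
noncomputable def tc9_5_20 : T := (.node 1 4 (.cons 0x3214567890 .nil) (.leaf 0x6541230987 1 (.node 0 4 .nil (.node 3 5 (.cons 0x4098765321 .nil) (.leaf 0x7653214098 1 (.node 1 5 (.cons 0x4098765123 .nil) (.node 2 9 (.cons 0x4012987653 (.cons 0x6789210453 .nil)) (.leaf 0x5401298763 4 (.node 0 6 (.cons 0x9876045321 .nil) (.node 1 9 (.cons 0x7891235604 (.cons 0x6789123540 .nil)) (.leaf 0x3406789125 1 .done) (.node 1 8 (.cons 0x9812304567 (.cons 0x9045632187 (.cons 0x9067815234 (.cons 0x7604532981 .nil)))) .done .done)) (.leaf 0x129876534 3 .done))) (.leaf 0x9043215678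 1 .done)) (.leaf 0x6789041235 3 .done))) (.node 0 8 (.cons 0x9087654123 .nil) (.node 0 6 .nil (.node 3 9 (.cons 0x8765412390 .nil) (.leaf 0x125439876 1 (.node 5 8 (.cons 0x6785210934 (.cons 0x4390678521 .nil)) (.leaf 0x3906785214 0 (.node 3 5 (.cons 0x9087653214 .nil) (.node 1 9 (.cons 0x9140876532 (.cons 0x4532198760 .nil)) (.leaf 0x6045321987 0 (.leaf 0x8523419067 4 .done)) .done) .done)) (.node 1 8 (.cons 0x6781093452 (.cons 0x7814560932 (.cons 0x4523906781 .nil))) (.leaf 0x3906781452 0 .done) .done))) .done) (.node 1 5 (.cons 0x9087632154 .nil) (.node 4 9 (.cons 0x9451236780 .nil) (.leaf 0x6321549087 2 (.leaf 0x2367809451 1 (.node 0 2 (.cons 0x9451208763 .nil) (.node 0 6 (.cons 0x5120678943 .nil) .done .done) .done))) (.node 5 9 (.cons 0x4590876321 .nil) (.leaf 0x7809541236 2 (.node 0 2 (.cons 0x8763459021 .nil) (.node 0 6 .nil (.node 3 8 (.cons 0x4120956783 (.cons 0x7602159834 (.cons 0x9065412387 (.cons 0x4387609521 .nil)))) (.leaf 0x956783412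 1 .done) .done) .done) .done)) .done)) .done)) .done)) (.node 1 6 (.cons 0x5432167890 .nil) (.node 1 5 .nil (.node 2 6 (.cons 0x1543267890 .nil) (.node 4 6 (.cons 0x5123467890 .nil) (.node 0 2 (.cons 0x3209876451 .nil) (.node 1 3 (.cons 0x7890231564 .nil) (.leaf 0x987625431 0 .done) .done) (.leaf 0x1509876432 0 .done)) (.leaf 0x9015432678 0 (.node 3 5 (.cons 0x4351098762 .nil) (.node 5 8 (.cons 0x7623415890 (.cons 0x7621589034 .nil)) .done .done) .done))) .done) (.node 1 5 .nil (.node 0 4 (.cons 0x5167890432 .nil) (.node 3 5 (.cons 0x4098765321 .nil) (.leaf 0x8761235409 1 (.leaf 0x6789041235 0 .done)) (.leaf 0x7651234098 0 .done)) (.node 3 5 .nil (.node 2 4 (.cons 0x4210987653 .nil) (.leaf 0x1098763542 3 (.leaf 0x7890124356 3 (.leaf 0x124536789 1 .done))) (.node 5 7 .nil (.node 2 8 (.cons 0x9016782534 (.cons 0x9821034576 (.cons 0x9012875436 (.cons 0x6753410982 (.cons 0x4167532890 .nil))))) .done (.node 5 8 (.cons 0x4309857612 .nil) .done .done))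 .done)) .done)) .done)) (.leaf 0x2145678903 4 .done)))) (.node 3 7 .nil (.node 2 4 (.cons 0x8901245673 (.cons 0x6542109873 .nil)) (.leaf 0x124563789 1 (.leaf 0x5637890124 4 .done)) (.node 3 8 (.cons 0x9012543876 .nil) (.node 2 7 (.cons 0x9012783654 .nil) (.node 2 6 (.cons 0x9873450126 .nil) (.node 3 9 (.cons 0x5439876210 .nil) (.leaf 0x4501267893 0 (.node 2 8 (.cons 0x6782543901 .nil) (.node 3 5 (.cons 0x9012876354 .nil) (.node 0 2 (.cons 0x5439876201 .nil) (.node 1 5 (.cons 0x2678934510 .nil) (.leaf 0x4398762015 2 .done) .done) .done) .done) .done)) (.node 5 7 (.cons 0x8901267543 .nil) (.leaf 0x983457621 1 (.node 6 9 (.cons 0x6987345012 .nil) (.node 4 6 (.cons 0x1257834690 .nil) (.leaf 0x3875210964 3 (.leaf 0x8346901257 1 (.node 1 3 (.cons 0x4650987213 .nil) (.leaf 0x987213465 3 .done) .done))) (.leaf 0x4521096783 3 (.leaf 0x5437896210 2 .done))) .done)) .done)) (.node 2 8 (.cons 0x9012876345 .nil) (.node 1 3 .nil (.node 2 4 (.cons 0x9012456387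 .nil) (.leaf 0x9876542310 0 (.leaf 0x9876542310 3 .done)) (.node 3 9 .nil (.node 2 4 (.cons 0x9012456387 (.cons 0x8937654210 .nil)) (.leaf 0x8930124567 1 .done) (.node 3 5 .nil (.node 0 6 (.cons 0x9345287601 (.cons 0x4539827601 (.cons 0x9827601354 .nil))) .done .done) .done)) .done)) (.node 2 6 (.cons 0x9873450126 .nil) (.node 3 9 (.cons 0x5439876210 .nil) (.leaf 0x4501267893 0 (.node 1 3 (.cons 0x6278931054 .nil) (.node 0 2 (.cons 0x5439876201 .nil) (.node 1 5 (.cons 0x2678934510 .nil) (.leaf 0x4398762015 2 .done) .done) .done) .done)) (.node 5 7 (.cons 0x8901267543 .nil) (.leaf 0x983457621 1 (.node 6 9 (.cons 0x4369057821 .nil) (.node 0 2 .nil (.node 1 8 (.cons 0x3457621890 .nil) (.leaf 0x7543690218 4 (.leaf 0x218754369 1 .done)) .done) (.leaf 0x4521096783 3 (.leaf 0x5437896210 2 .done))) .done)) .done)) .done)) .done)) (.node 6 9 (.cons 0x2543876901 .nil) (.leaf 0x125438769 0 (.node 3 5 (.cons 0x8769012534 .nil) (.node 1 5 (.cons 0x4387690152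 .nil) (.node 1 6 (.cons 0x5432167890 .nil) (.node 5 8 (.cons 0x7612345890 .nil) (.node 5 7 (.cons 0x4309857612 .nil) (.node 5 9 (.cons 0x8763459012 .nil) .done .done) .done) .done) .done) .done) (.node 5 9 (.cons 0x8763459012 .nil) (.node 0 8 (.cons 0x6734598012 .nil) (.node 3 5 .nil (.node 2 4 (.cons 0x8956730124 (.cons 0x9876530124 (.cons 0x2453769801 .nil))) (.leaf 0x124536789 1 .done) .done) .done) (.node 5 8 .nil (.node 2 7 (.cons 0x6721098543 .nil) (.leaf 0x4369012785 3 (.leaf 0x3690127854 4 (.leaf 0x1098543672 1 .done))) (.node 4 9 (.cons 0x2587694301 .nil) (.node 0 8 (.cons 0x1237654980 .nil) (.leaf 0x7654980123 0 .done) (.node 0 6 (.cons 0x1237894560 .nil) (.node 0 2 (.cons 0x8954376021 .nil) (.node 0 8 (.cons 0x7809456321 .nil) .done .done) .done) .done)) .done)) .done)) (.leaf 0x7834521096 0 .done)))) .done)) (.node 3 8 (.cons 0x9012543876 .nil) (.node 3 5 .nil (.node 2 4 (.cons 0x9876530124 .nil) (.leaf 0x1098763542 3 (.node 0 2 (.cons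 0x9837654201 .nil) (.node 4 6 (.cons 0x3546789021 .nil) (.leaf 0x7890125346 0 (.leaf 0x5467890123 0 (.node 1 4 (.cons 0x3214567890 .nil) (.leaf 0x5367890214 4 (.node 0 4 (.cons 0x4098765321 .nil) (.leaf 0x7653214098 1 .done) (.leaf 0x214536789 1 .done))) .done))) .done) (.leaf 0x124536789 1 .done))) (.node 3 9 .nil (.node 2 4 (.cons 0x3987654210 .nil) (.node 0 4 (.cons 0x8765409321 .nil) (.leaf 0x9876540123 0 (.node 2 9 (.cons 0x8736542901 (.cons 0x7653892401 (.cons 0x6783925401 .nil))) (.leaf 0x5678392104 3 .done) .done)) (.leaf 0x1245678390 0 (.leaf 0x8930124567 1 .done))) (.node 1 3 .nil (.node 2 4 (.cons 0x8901376542 .nil) (.node 0 7 (.cons 0x9387012456 (.cons 0x9835421076 .nil)) (.node 1 4 (.cons 0x6541239870 (.cons 0x8709321456 (.cons 0x9832145670 .nil))) (.leaf 0x8903214567 1 .done) .done) (.node 0 2 (.cons 0x9873102456 .nil) (.leaf 0x4567893102 3 (.node 2 6 (.cons 0x9873105624 .nil) (.leaf 0x4509876213 0 .done) (.leaf 0x1398765420 4 .done)))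 (.leaf 0x9876542310 3 .done))) .done) .done)) .done)) (.node 3 9 .nil (.node 0 6 (.cons 0x5439876012 .nil) (.node 1 4 (.cons 0x3214567890 (.cons 0x8765412390 (.cons 0x2378906541 .nil))) (.leaf 0x8906541237 0 (.node 2 4 (.cons 0x9012456387 (.cons 0x3987654210 .nil)) (.leaf 0x8930124567 1 .done) .done)) (.leaf 0x1254398760 0 (.leaf 0x7893452106 0 .done))) (.node 6 9 (.cons 0x8769012543 .nil) (.node 3 5 (.cons 0x8769012534 .nil) (.node 5 7 (.cons 0x6901257834 .nil) (.node 1 3 .nil (.node 2 4 (.cons 0x8750963421 (.cons 0x8901376542 (.cons 0x6578903124 .nil))) (.node 0 4 (.cons 0x6904387521 (.cons 0x9657831240 (.cons 0x7569831240 (.cons 0x7896504231 .nil)))) .done .done) .done) .done) .done) (.leaf 0x4521096783 3 (.node 5 9 (.cons 0x8763459012 .nil) (.node 4 9 (.cons 0x7836549012 .nil) (.node 1 3 .nil (.node 0 7 (.cons 0x8709456321 (.cons 0x4569078312 (.cons 0x6907831254 .nil))) .done (.node 3 5 .nil (.node 1 8 (.cons 0x7812365490 (.cons 0x4352187690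 .nil)) (.node 0 6 (.cons 0x6094523781 (.cons 0x7609812354 .nil)) (.leaf 0x5321876094 1 .done) .done) .done) .done)) .done) .done) .done))) .done)) .done)) .done))) (.node 1 4 (.cons 0x3214567890 .nil) (.node 2 9 (.cons 0x1456789230 .nil) (.node 2 4 .nil (.node 3 7 (.cons 0x8924567301 (.cons 0x8924103765 .nil)) (.leaf 0x124563789 1 .done) (.node 3 7 (.cons 0x6542109873 .nil) (.node 1 5 .nil (.node 0 4 (.cons 0x8921045673 .nil) (.leaf 0x7651234098 0 (.leaf 0x5123678904 2 .done)) (.node 1 6 (.cons 0x5432167890 .nil) (.node 3 5 .nil (.node 4 7 (.cons 0x9874165032 (.cons 0x8924735610 (.cons 0x3561247890 .nil))) (.leaf 0x561234789 0 .done) .done) .done) .done)) (.leaf 0x2109873654 2 .done)) .done)) (.leaf 0x4567892301 3 (.node 1 5 (.cons 0x4156789230 .nil) (.node 3 5 (.cons 0x4103567892 .nil) (.node 2 4 (.cons 0x4298765301 .nil) (.leaf 0x6530142987 4 (.node 3 7 (.cons 0x6542109873 .nil) (.leaf 0x2109873654 2 .done) .done)) .done) .done) (.leaf 0x4567892301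 0 .done)))) (.node 0 8 (.cons 0x9087654123 .nil) (.node 3 8 (.cons 0x9012543876 .nil) (.node 3 5 (.cons 0x9087653214 .nil) (.node 0 4 .nil (.node 3 9 (.cons 0x8765412390 (.cons 0x9387652104 .nil)) (.leaf 0x4567893210 3 .done) (.node 3 7 (.cons 0x8904567321 .nil) (.node 0 6 .nil (.node 1 7 (.cons 0x9832176540 (.cons 0x9871234506 (.cons 0x8906712354 .nil))) .done .done) .done) .done)) .done) (.node 0 6 (.cons 0x9065412387 .nil) (.node 3 9 (.cons 0x8765412390 .nil) (.leaf 0x2145678093 1 (.node 0 4 .nil (.node 1 8 (.cons 0x7609812345 .nil) (.leaf 0x6781239045 1 (.leaf 0x2390456781 4 .done)) .done) .done)) .done) .done)) (.node 0 4 .nil (.node 1 5 (.cons 0x9087632154 .nil) (.leaf 0x2367890451 4 (.leaf 0x9043215678 1 .done)) (.node 3 7 (.cons 0x8904567321 .nil) (.node 3 5 .nil (.node 2 4 (.cons 0x9801245376 .nil) (.leaf 0x1098763542 3 (.leaf 0x7890124356 3 (.leaf 0x124536789 1 .done))) (.node 5 9 (.cons 0x4590876321 .nil) (.leaf 0x7809541236 2 (.node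 0 2 (.cons 0x8763459021 .nil) (.node 0 6 .nil (.node 2 9 (.cons 0x8921045673 (.cons 0x8921067345 (.cons 0x4560129873 (.cons 0x8921067354 .nil)))) .done .done) .done) .done)) .done)) (.node 3 9 (.cons 0x8765412390 .nil) (.leaf 0x4123908765 2 (.node 3 8 (.cons 0x7654098321 .nil) (.node 1 8 (.cons 0x7654098123 .nil) (.leaf 0x981237654 1 (.node 2 8 (.cons 0x9032876541 .nil) (.node 4 9 (.cons 0x5490876321 .nil) (.leaf 0x8736549012 4 (.leaf 0x2873654901 3 .done)) .done) .done)) .done) .done)) .done)) .done)) .done)) (.leaf 0x9876541230 0 (.leaf 0x9876541230 3 .done)))) .done)))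
noncomputable def tc9_5_21 : T := (.leaf 0x1054367892 0 (.node 3 7 (.cons 0x4563789210 .nil) (.node 2 6 .nil (.node 3 9 (.cons 0x8762543901 .nil) (.node 0 4 (.cons 0x7892104563 (.cons 0x8765409321 .nil)) (.leaf 0x9876540123 0 (.node 1 8 (.cons 0x6540923781 (.cons 0x6540187392 (.cons 0x9045623781 (.cons 0x4093256781 (.cons 0x9367810452 .nil))))) .done .done)) (.leaf 0x4501267893 0 (.leaf 0x8762105439 0 .done))) (.node 5 8 (.cons 0x7621098543 .nil) (.node 5 7 (.cons 0x6345789210 .nil) (.node 3 8 (.cons 0x2675438901 .nil) (.leaf 0x983457621 1 (.leaf 0x9012675438 3 (.node 3 5 .nil (.node 2 4 (.cons 0x4210987653 .nil) (.leaf 0x1098763542 0 (.leaf 0x7890124356 3 .done)) (.node 1 5 .nil (.node 0 7 (.cons 0x8926345701 .nil) (.leaf 0x3629870154 4 (.leaf 0x8345107629 0 .done)) .done) .done)) .done))) (.node 3 8 (.cons 0x1267543890 .nil) (.node 4 7 (.cons 0x3654789210 .nil) (.node 2 4 .nil (.node 3 9 (.cons 0x6501247893 .nil) (.leaf 0x5421093876 0 (.node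 0 3 (.cons 0x4567890321 (.cons 0x7658930124 (.cons 0x7892456301 .nil))) .done (.leaf 0x5421093876 3 .done))) .done) (.leaf 0x126547389 0 .done)) (.leaf 0x9012675438 0 (.node 3 5 .nil (.node 2 4 (.cons 0x4210987653 .nil) (.leaf 0x1098763542 0 (.leaf 0x7890124356 3 .done)) (.node 1 5 .nil (.node 0 7 (.cons 0x8907623451 .nil) (.leaf 0x4362987015 3 (.leaf 0x3629870154 4 (.leaf 0x8345107629 0 .done))) .done) .done)) .done))) .done)) (.node 1 6 (.cons 0x5432167890 .nil) (.node 2 4 .nil (.node 3 5 (.cons 0x7624358901 .nil) (.leaf 0x1098763542 0 (.leaf 0x4290167853 0 .done)) (.node 1 4 (.cons 0x3214567890 .nil) (.node 1 9 (.cons 0x2345876190 .nil) (.node 0 6 (.cons 0x7854329061 .nil) (.leaf 0x2437856019 0 (.node 6 9 (.cons 0x3425876910 .nil) (.leaf 0x5873426910 0 .done) .done)) (.node 0 4 (.cons 0x6378540192 .nil) (.leaf 0x9104587362 1 (.leaf 0x1926378540 3 .done)) .done)) (.node 0 3 (.cons 0x4567890321 .nil) (.leaf 0x2145678903 4 (.leaf 0x8903214567 1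 (.leaf 0x9876541230 3 .done))) .done)) .done)) (.node 2 4 (.cons 0x9016785243 .nil) (.leaf 0x1658734290 0 .done) .done)) (.leaf 0x2673458901 1 .done))) (.node 1 6 (.cons 0x5432167890 .nil) (.node 0 6 (.cons 0x7892106345 .nil) (.node 6 8 (.cons 0x9054321687 .nil) (.node 6 9 (.cons 0x7896345012 .nil) (.node 4 6 .nil (.node 0 8 (.cons 0x9210873654 (.cons 0x9210873645 .nil)) (.node 1 5 (.cons 0x7861543290 (.cons 0x5129643780 .nil)) (.leaf 0x6437805129 2 .done) .done) .done) .done) (.node 1 5 (.cons 0x6873451290 .nil) (.leaf 0x3451290687 3 (.node 6 9 (.cons 0x7896345012 .nil) (.node 4 6 .nil (.node 1 9 (.cons 0x6873450912 (.cons 0x8732190564 (.cons 0x7891236450 .nil))) .done .done) .done) .done)) .done)) (.node 6 8 (.cons 0x9054321687 .nil) (.node 6 9 (.cons 0x7896345012 .nil) (.node 4 6 .nil (.node 1 9 (.cons 0x6873450912 (.cons 0x8732190564 (.cons 0x7891236450 .nil))) .done .done) .done) .done) .done)) (.node 1 5 .nil (.node 0 4 (.cons 0x7892104563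 (.cons 0x7892634015 .nil)) (.leaf 0x7651234098 0 (.node 4 9 (.cons 0x8736549210 (.cons 0x8762510943 (.cons 0x7894362150 .nil))) .done .done)) (.node 1 4 (.cons 0x3214567890 .nil) (.node 5 8 (.cons 0x7612345890 .nil) (.node 4 6 (.cons 0x9264378510 .nil) (.leaf 0x2643785109 0 (.node 6 8 (.cons 0x7345861092 .nil) .done .done)) (.node 6 8 (.cons 0x7345861290 .nil) (.node 0 7 (.cons 0x9254368701 .nil) (.leaf 0x1670985432 1 (.node 2 7 (.cons 0x1685437290 .nil) (.leaf 0x3458610927 3 .done) (.leaf 0x9854321670 4 .done))) .done) .done)) (.node 0 3 (.cons 0x4567890321 .nil) (.leaf 0x2145678903 4 (.leaf 0x8903214567 1 (.leaf 0x9876541230 3 .done))) .done)) .done)) .done)) .done))) (.node 0 4 (.cons 0x7892104563 .nil) (.node 0 3 (.cons 0x4567890321 .nil) (.node 3 9 (.cons 0x8765409321 .nil) (.node 1 4 (.cons 0x3214567890 .nil) (.leaf 0x6541230987 1 (.node 3 5 .nil (.node 2 4 (.cons 0x9873650124 .nil) (.leaf 0x7890124356 3 .done) .done) (.leaf 0x2145678903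 4 .done))) .done) (.node 1 4 (.cons 0x3214567890 .nil) (.node 2 4 (.cons 0x7892456301 .nil) (.node 4 6 (.cons 0x9873214650 .nil) (.node 4 9 (.cons 0x4987365012 .nil) (.leaf 0x5637894210 2 .done) (.leaf 0x7890564123 1 .done)) .done) (.leaf 0x9876541230 0 (.leaf 0x9876541230 3 .done))) .done)) (.node 2 4 (.cons 0x9873650124 .nil) (.node 2 7 (.cons 0x9872105436 .nil) (.node 2 8 .nil (.node 7 9 (.cons 0x4056379821 .nil) (.leaf 0x1045637982 3 (.leaf 0x456379821 4 .done)) (.node 0 2 .nil (.node 1 5 (.cons 0x6789023451 .nil) (.leaf 0x4367892015 3 (.leaf 0x298763451 4 (.node 4 9 (.cons 0x4987365012 (.cons 0x8945102763 (.cons 0x4987365021 .nil))) .done .done))) .done) .done)) .done) .done) (.leaf 0x9873654012 3 .done))) (.node 3 8 (.cons 0x9012543876 .nil) (.node 5 7 (.cons 0x6345789210 .nil) (.node 2 7 (.cons 0x9872105436 .nil) (.node 2 6 .nil (.node 1 4 (.cons 0x2987365410 (.cons 0x3789265410 (.cons 0x7389014562 (.cons 0x1456237890 .nil)))) (.leaf 0x3890145627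 4 .done) (.node 1 5 (.cons 0x8901543762 .nil) (.node 3 5 .nil (.node 2 4 (.cons 0x6510983724 .nil) (.leaf 0x7890124356 3 .done) .done) .done) .done)) (.node 3 9 (.cons 0x6398721054 .nil) (.node 3 5 .nil (.node 0 4 (.cons 0x2987365401 .nil) (.leaf 0x3540129876 1 (.node 2 4 (.cons 0x4210987653 .nil) (.leaf 0x1098763542 0 (.leaf 0x7890124356 3 .done)) (.leaf 0x5367892104 3 .done))) .done) (.node 3 5 .nil (.node 4 6 (.cons 0x6439875012 (.cons 0x9012783546 (.cons 0x8901276453 .nil))) (.leaf 0x983546721 1 (.leaf 0x2789364501 2 .done)) (.node 1 5 .nil (.node 0 2 (.cons 0x4563789201 .nil) (.node 2 4 (.cons 0x7893650124 (.cons 0x8937651024 .nil)) .done (.leaf 0x3678920154 4 .done)) .done) .done)) .done)) .done)) (.node 4 7 (.cons 0x3654789210 .nil) (.node 2 4 .nil (.node 3 5 (.cons 0x4210987653 .nil) (.leaf 0x1098763542 0 (.node 3 9 (.cons 0x8935674210 .nil) (.leaf 0x5421093876 0 .done) .done)) (.node 2 6 .nil (.node 1 3 (.cons 0x8901376542 (.cons 0x8731092654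 (.cons 0x8926547310 .nil))) (.leaf 0x987625431 0 .done) (.node 0 2 (.cons 0x4563789201 .nil) (.node 2 7 (.cons 0x6542738901 .nil) .done .done) .done)) .done)) (.node 2 6 (.cons 0x9012654783 .nil) (.node 3 5 .nil (.node 2 4 (.cons 0x4210987653 .nil) (.leaf 0x1098763542 0 (.leaf 0x7890124356 3 .done)) (.node 3 9 (.cons 0x8745639210 .nil) (.node 2 4 (.cons 0x7893650124 .nil) (.node 0 3 (.cons 0x6542987301 .nil) (.node 1 3 (.cons 0x6542987310 .nil) .done .done) .done) .done) .done)) (.node 3 5 (.cons 0x9012653874 .nil) (.node 5 9 (.cons 0x7895012634 .nil) (.leaf 0x3621059874 3 .done) .done) .done)) .done)) .done)) (.node 3 5 .nil (.node 2 4 (.cons 0x7653890124 .nil) (.leaf 0x1098763542 0 (.leaf 0x7890124356 3 .done)) (.node 3 9 .nil (.node 0 3 (.cons 0x4567890321 .nil) (.node 2 4 (.cons 0x7653890124 (.cons 0x3987654210 .nil)) (.leaf 0x1245678930 0 .done) .done) .done) .done)) .done)) .done))) (.node 2 6 .nil (.node 3 9 (.cons 0x8762543901 .nil) (.node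 2 7 (.cons 0x6398721054 .nil) (.node 0 4 (.cons 0x8765409321 .nil) (.node 1 5 (.cons 0x4098765123 .nil) (.leaf 0x2367890451 0 (.leaf 0x7634015298 0 (.leaf 0x9043215678 1 .done))) (.leaf 0x9876540123 0 (.leaf 0x5639872104 0 .done))) .done) (.leaf 0x4501267893 0 (.node 4 7 (.cons 0x4789210563 (.cons 0x3987456210 (.cons 0x8745621093 .nil))) (.leaf 0x129874365 0 (.node 1 3 (.cons 0x4789213650 (.cons 0x8745621390 (.cons 0x4789056213 .nil))) (.leaf 0x9056213478 1 .done) .done)) .done))) (.node 6 9 (.cons 0x7896345012 .nil) (.node 3 8 (.cons 0x2543876901 .nil) (.leaf 0x4521096783 3 (.node 5 7 (.cons 0x8901267543 .nil) (.node 4 7 (.cons 0x8743692501 .nil) (.leaf 0x574389621 3 (.leaf 0x129874365 0 (.leaf 0x8347501269 3 .done))) (.leaf 0x9012675438 3 (.leaf 0x9012675438 0 .done))) (.node 7 9 (.cons 0x8345267901 .nil) (.node 4 7 (.cons 0x8743692501 .nil) (.leaf 0x547983621 1 (.leaf 0x5012638974 3 (.leaf 0x129874365 0 (.leaf 0x9745012638 4 .done)))) (.node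 2 7 (.cons 0x2789634501 .nil) (.node 1 6 (.cons 0x1698723450 .nil) (.leaf 0x7234501698 0 (.leaf 0x3897261054 1 .done)) (.node 0 2 .nil (.node 1 4 (.cons 0x3214567890 (.cons 0x9023876541 (.cons 0x6389720541 (.cons 0x5410278963 .nil)))) (.leaf 0x2567834109 0 .done) .done) .done)) .done)) .done))) (.node 0 2 (.cons 0x7896345021 .nil) (.node 2 7 (.cons 0x1278963450 .nil) (.node 3 8 (.cons 0x1254387690 .nil) (.node 2 8 .nil (.node 1 3 (.cons 0x6987213450 (.cons 0x5431287690 .nil)) (.leaf 0x4312876905 4 (.leaf 0x2876905431 3 .done)) .done) (.node 5 7 (.cons 0x8901267543 .nil) (.leaf 0x9012675438 3 (.leaf 0x9012675438 0 .done)) (.leaf 0x7834521096 0 .done))) .done) .done) .done)) .done)) (.node 2 7 (.cons 0x9872105436 .nil) (.node 3 5 (.cons 0x4536789210 .nil) (.node 1 5 .nil (.node 0 2 (.cons 0x6789023451 .nil) (.leaf 0x4367890215 0 (.node 0 4 (.cons 0x5401298763 .nil) (.leaf 0x7651234098 0 (.node 1 3 (.cons 0x4098765132 .nil) (.leaf 0x4513678920 1 (.leaf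 0x5402987631 3 .done)) .done)) (.node 5 9 (.cons 0x4367895102 (.cons 0x4367895120 .nil)) .done .done))) (.node 5 9 .nil (.node 0 8 (.cons 0x6721089534 .nil) (.leaf 0x6780129543 1 (.leaf 0x1089543672 0 (.leaf 0x7634592108 3 .done))) (.node 6 9 (.cons 0x7896345012 .nil) (.node 3 8 (.cons 0x5438967210 .nil) (.node 5 7 (.cons 0x6983457210 .nil) (.node 5 8 (.cons 0x3458967210 .nil) .done .done) (.leaf 0x9672105438 0 (.leaf 0x125438769 0 .done))) (.leaf 0x127896345 1 (.node 0 2 (.cons 0x7896345021 .nil) (.node 2 6 .nil (.node 0 4 (.cons 0x5401298763 .nil) (.leaf 0x6789510432 1 (.leaf 0x8762340159 2 .done)) (.node 0 4 (.cons 0x1598762340 .nil) (.leaf 0x6789510432 1 (.leaf 0x8762340159 2 .done)) .done)) (.node 5 7 (.cons 0x4369875021 .nil) (.node 1 4 (.cons 0x6789514320 .nil) (.leaf 0x214369875 1 (.leaf 0x143678952 0 (.leaf 0x3698750214 4 .done))) .done) .done)) .done))) (.node 6 9 (.cons 0x7896345012 .nil) (.node 3 8 (.cons 0x5438967210 .nil) (.node 5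 7 (.cons 0x6983457210 .nil) (.node 5 8 (.cons 0x3458967210 .nil) .done .done) (.leaf 0x9672105438 0 (.leaf 0x125438769 0 .done))) (.leaf 0x127896345 1 (.node 7 9 .nil (.node 2 8 (.cons 0x3452876901 (.cons 0x4369782501 .nil)) (.leaf 0x4369782105 1 .done) (.node 2 4 (.cons 0x8796342501 .nil) (.node 5 8 (.cons 0x5897634210 .nil) (.leaf 0x4367985012 1 .done) (.node 2 8 (.cons 0x4369782501 .nil) (.node 1 4 (.cons 0x3214567890 .nil) (.leaf 0x967825341 2 (.node 4 9 (.cons 0x3496782510 .nil) .done .done)) .done) .done)) .done)) .done))) .done))) .done)) (.node 3 7 (.cons 0x6378921054 .nil) (.node 0 3 (.cons 0x4567890321 .nil) (.node 5 7 (.cons 0x8921036754 .nil) (.node 4 7 (.cons 0x8921036745 .nil) (.node 5 9 (.cons 0x8954301276 .nil) (.node 0 2 (.cons 0x4536789201 .nil) (.node 0 7 (.cons 0x8954367012 .nil) (.node 2 8 (.cons 0x7634598210 .nil) (.leaf 0x5982107634 1 .done) .done) .done) .done) .done) .done) (.node 3 8 (.cons 0x9012543876 .nil) (.node 0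 2 (.cons 0x4536789201 .nil) (.node 0 4 (.cons 0x2987635401 .nil) (.node 3 9 (.cons 0x8765409321 .nil) (.node 6 9 (.cons 0x6927835401 .nil) (.leaf 0x127896345 1 (.leaf 0x4521096783 3 (.leaf 0x2104569387 0 .done))) .done) (.node 1 3 (.cons 0x5401367892 .nil) (.leaf 0x4013678925 3 .done) .done)) .done) .done) .done)) (.node 3 8 (.cons 0x9012543876 .nil) (.node 3 9 .nil (.node 0 4 (.cons 0x2987635401 (.cons 0x8765409321 (.cons 0x8763925401 .nil))) (.leaf 0x9876540123 0 .done) (.node 6 9 (.cons 0x7896345012 .nil) (.leaf 0x127896345 1 (.leaf 0x4521096783 3 (.node 0 3 (.cons 0x4567890321 .nil) (.node 1 3 (.cons 0x6987213450 .nil) .done .done) .done))) .done)) .done) .done)) .done)) (.node 3 5 (.cons 0x4536789210 .nil) (.node 1 5 .nil (.node 0 2 (.cons 0x6789023451 .nil) (.leaf 0x4367890215 0 (.node 0 4 (.cons 0x5401298763 (.cons 0x8927635104 .nil)) (.leaf 0x7651234098 0 .done) .done)) (.node 2 6 .nil (.node 1 7 (.cons 0x6234509871 .nil) (.leaf 0x5017892634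 1 (.leaf 0x543629871 3 (.node 4 8 (.cons 0x7635489210 (.cons 0x1762354890 .nil)) (.leaf 0x5326710984 0 (.node 3 7 (.cons 0x6378921054 (.cons 0x9012654873 .nil)) (.leaf 0x984537621 1 .done) (.leaf 0x7210984356 3 .done))) .done))) (.node 0 2 .nil (.node 1 9 (.cons 0x6789154320 .nil) (.leaf 0x8763450219 0 (.leaf 0x2054367891 0 (.leaf 0x3452019876 1 (.node 6 9 (.cons 0x7896345012 (.cons 0x8967201534 (.cons 0x7896345021 .nil))) .done .done)))) .done) .done)) .done)) (.node 0 2 (.cons 0x4536789201 .nil) (.node 2 6 .nil (.node 1 4 (.cons 0x2987635410 (.cons 0x8762901453 (.cons 0x7892635410 .nil))) (.leaf 0x3526789014 0 (.leaf 0x2789014356 0 .done)) .done) .done) .done)) .done)) .done))))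
noncomputable def uc9_5_5 : T := (.node 2 9 (.cons 0x5436789210 .nil) tc9_5_21 (.node 0 3 (.cons 0x4567890321 .nil) tc9_5_20 (.leaf 0x4521098763 0 (.leaf 0x7890125436 0 (.node 0 3 (.cons 0x4567890321 .nil) tc9_5_19 .done)))))
theorem sub_c9_5_5 : root 9 refs9_5 [] 0x700000008706000000006050000000050300000000304070500004030000000030100000070102000000002018000500010 0xfe7fff3fff9fffd7ff47ffe7fff5ff79fff9fedd 9 3 6 (.cons 0x5436789012 .nil) uc9_5_5 = true := by decide +kernel
noncomputable def tc9_5_22 : T := (.node 3 6 (.cons 0x5436789012 .nil) (.node 2 6 .nil (.node 3 7 (.cons 0x9867345012 .nil) (.leaf 0x2109873456 3 (.node 5 8 (.cons 0x9012634587 .nil) (.node 3 9 (.cons 0x7689345012 (.cons 0x8762543901 .nil)) (.leaf 0x1093458762 1 (.node 4 7 (.cons 0x4739865012 (.cons 0x3987456210 (.cons 0x4785612390 (.cons 0x6109347852 (.cons 0x6125874390 .nil))))) .done .done)) (.leaf 0x6210985437 0 (.leaf 0x6210985437 3 .done))) (.node 1 8 (.cons 0x9018734526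 .nil) (.node 2 9 (.cons 0x9254376810 (.cons 0x4563781092 (.cons 0x9250186734 .nil))) (.leaf 0x7345290186 4 .done) (.node 1 9 (.cons 0x7689123450 (.cons 0x7345019862 .nil)) (.node 0 6 (.cons 0x8190673254 .nil) (.node 1 3 (.cons 0x9067813254 .nil) (.leaf 0x4526789013 0 (.leaf 0x4312678905 4 .done)) .done) .done) .done)) .done))) (.node 6 9 (.cons 0x8769012543 .nil) (.node 0 6 .nil (.node 5 9 (.cons 0x8763459012 .nil) (.node 4 7 (.cons 0x7432168950 (.cons 0x5987432160 (.cons 0x8743216095 (.cons 0x8743259061 .nil)))) (.leaf 0x1605987432 3 .done) (.node 1 8 (.cons 0x2187634590 .nil) (.node 3 7 (.cons 0x9867345012 (.cons 0x7345981260 (.cons 0x6095218734 (.cons 0x4378160952 .nil)))) .done (.leaf 0x7609543218 2 .done)) .done)) .done) (.node 3 8 (.cons 0x1254387690 .nil) (.node 1 8 (.cons 0x3452187690 .nil) (.node 4 6 (.cons 0x7645098123 .nil) (.node 0 6 .nil (.node 7 9 (.cons 0x4563879012 .nil) (.leaf 0x2543879601 0 (.leaf 0x2543879601 3 (.leaf 0x5067981234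 2 .done))) .done) .done) .done) (.node 5 7 (.cons 0x8901267543 .nil) (.node 3 7 (.cons 0x9867345012 .nil) (.node 0 3 (.cons 0x4567890321 .nil) (.node 3 5 .nil (.node 2 4 (.cons 0x5789612430 .nil) (.leaf 0x7890124356 3 (.leaf 0x124536789 1 .done)) .done) .done) .done) (.leaf 0x9012675438 3 (.leaf 0x9012675438 0 .done))) (.leaf 0x7834521096 0 .done))) .done)) .done)) (.leaf 0x4521098763 0 (.node 1 8 (.cons 0x9018763452 .nil) (.node 3 8 (.cons 0x9012543876 .nil) (.node 0 6 .nil (.node 1 9 (.cons 0x7689123450 (.cons 0x7819063254 .nil)) (.leaf 0x2190678345 0 .done) (.node 0 3 (.cons 0x4567890321 .nil) (.node 3 9 (.cons 0x7689345012 .nil) (.node 1 9 (.cons 0x7689123450 .nil) (.node 0 4 (.cons 0x8763254091 .nil) (.leaf 0x9045236781 0 .done) .done) .done) .done) .done)) .done) (.node 1 7 (.cons 0x9867123450 .nil) (.node 2 4 (.cons 0x9817632450 .nil) (.node 1 5 .nil (.node 0 4 (.cons 0x9045236781 (.cons 0x9045187632 (.cons 0x5167890432 .nil))) (.leaf 0x5409876321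 0 .done) (.node 1 9 (.cons 0x7689123450 .nil) (.node 1 4 (.cons 0x3214567890 .nil) (.node 1 3 .nil (.node 2 9 (.cons 0x5418763290 (.cons 0x7892456310 (.cons 0x5429876310 .nil))) (.leaf 0x187634529 0 .done) .done) .done) .done) .done)) (.leaf 0x3671890542 3 (.leaf 0x5423671890 4 .done))) (.node 2 4 (.cons 0x7632450981 .nil) (.leaf 0x6324509817 3 (.node 2 6 .nil (.node 3 7 (.cons 0x9867345012 .nil) (.leaf 0x2109873456 3 (.node 5 8 (.cons 0x4210985673 (.cons 0x9017854362 .nil)) (.leaf 0x6210985437 0 (.leaf 0x2437658901 4 .done)) .done)) .done) (.leaf 0x542367189 3 .done))) .done)) .done)) .done))) (.node 3 6 (.cons 0x5436789012 .nil) (.node 3 8 (.cons 0x9012543876 .nil) (.node 0 6 .nil (.node 7 9 (.cons 0x8976345012 (.cons 0x9783601254 (.cons 0x6097834521 .nil))) (.node 4 8 (.cons 0x7612348905 (.cons 0x5067984321 .nil)) (.node 1 8 (.cons 0x9763481250 (.cons 0x9760521843 .nil)) (.leaf 0x2509763481 3 .done) .done) (.leaf 0x3879061254 1 .done)) (.node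 1 8 (.cons 0x9067812345 .nil) (.node 4 8 (.cons 0x7612348905 .nil) (.node 5 8 (.cons 0x9067854321 .nil) .done .done) (.node 3 5 (.cons 0x9067812354 .nil) (.node 5 9 (.cons 0x8760954321 .nil) (.node 0 3 (.cons 0x4567890321 .nil) (.node 0 8 .nil (.node 1 4 (.cons 0x7861432590 (.cons 0x9087654123 .nil)) (.node 7 9 (.cons 0x4597812360 (.cons 0x9768052341 (.cons 0x4597806321 (.cons 0x6143259780 (.cons 0x4361259780 .nil))))) .done (.leaf 0x3259087614 1 (.leaf 0x8903214567 1 .done))) .done) .done) (.leaf 0x7609543218 2 .done)) .done) .done)) .done)) (.node 2 6 .nil (.node 5 9 (.cons 0x7895436210 (.cons 0x4387625901 .nil)) (.leaf 0x7621095438 0 (.node 4 7 (.cons 0x4765098321 (.cons 0x1267438950 (.cons 0x5098347621 .nil))) (.leaf 0x2674389501 3 (.leaf 0x8347621059 3 .done)) .done)) (.node 5 7 (.cons 0x8901267543 .nil) (.node 6 9 (.cons 0x4389675012 .nil) (.node 1 7 (.cons 0x2345098671 .nil) (.node 3 7 (.cons 0x8901267345 .nil) (.node 5 8 (.cons 0x2673458901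 .nil) (.leaf 0x985437621 1 (.leaf 0x4589012673 4 .done)) .done) (.leaf 0x5098671234 2 .done)) .done) (.leaf 0x9012675438 3 (.leaf 0x9012675438 0 .done))) .done)) .done)) (.node 0 6 .nil (.node 1 7 (.cons 0x2345098671 .nil) (.node 5 7 (.cons 0x8905761234 .nil) (.node 1 8 (.cons 0x9061875234 .nil) (.node 5 9 (.cons 0x8763459012 (.cons 0x2187634590 .nil)) (.leaf 0x2345906781 2 .done) (.node 5 9 (.cons 0x8763459012 (.cons 0x7812360954 .nil)) (.leaf 0x7609543218 2 .done) .done)) (.node 1 3 (.cons 0x8906754312 (.cons 0x6098754312 .nil)) (.node 1 8 (.cons 0x9063457812 .nil) (.leaf 0x6098123457 2 .done) .done) .done)) (.node 5 9 (.cons 0x8763459012 (.cons 0x2345906871 .nil)) (.node 1 9 (.cons 0x8671905432 .nil) (.node 2 8 (.cons 0x5432867190 (.cons 0x8234591760 (.cons 0x6095432871 .nil))) (.leaf 0x7682345091 3 (.leaf 0x7160954328 0 .done)) (.leaf 0x4321987605 2 (.node 4 8 (.cons 0x5487632190 (.cons 0x7605489123 (.cons 0x7843259061 .nil))) (.leaf 0x9123678450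 1 .done) .done))) (.leaf 0x954321786 4 .done)) (.leaf 0x5098671234 2 .done))) .done) (.leaf 0x4521098763 0 .done))) (.node 6 9 (.cons 0x8769012543 .nil) (.node 2 6 .nil (.node 3 8 (.cons 0x9012543876 (.cons 0x9834501267 .nil)) (.node 1 7 (.cons 0x7125438690 (.cons 0x9054386217 .nil)) (.node 3 9 (.cons 0x2176893450 (.cons 0x8762543901 .nil)) (.node 4 8 (.cons 0x9348671250 (.cons 0x5267843901 .nil)) (.leaf 0x1256784390 1 .done) .done) (.leaf 0x5269017834 1 .done)) (.node 4 9 (.cons 0x7683490521 (.cons 0x5267834901 .nil)) (.node 1 5 (.cons 0x1543267890 .nil) (.leaf 0x943876251 0 (.leaf 0x2678349015 0 (.node 4 7 (.cons 0x4765098321 (.cons 0x9834762105 (.cons 0x5621094783 (.cons 0x5162347890 (.cons 0x5098347621 .nil))))) .done .done))) (.leaf 0x2567834901 0 .done)) (.leaf 0x125438769 0 .done))) (.node 3 6 (.cons 0x5436789012 .nil) (.node 2 7 (.cons 0x3450986721 .nil) (.node 2 8 (.cons 0x9012876345 .nil) (.node 2 9 .nil (.node 3 7 (.cons 0x9012873654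 (.cons 0x1298673450 (.cons 0x8926734501 .nil))) .done (.node 0 2 .nil (.node 5 9 (.cons 0x3459876210 (.cons 0x7863459021 (.cons 0x3459876201 (.cons 0x8763459021 .nil)))) .done .done) .done)) (.node 0 2 .nil (.node 5 9 (.cons 0x3459876210 (.cons 0x7863459021 (.cons 0x3459876201 (.cons 0x8763459021 .nil)))) .done (.node 2 9 .nil (.node 1 5 (.cons 0x9021543687 (.cons 0x7863451290 .nil)) (.node 0 3 (.cons 0x4567890321 (.cons 0x7689215034 (.cons 0x9287630154 .nil))) .done .done) .done) .done)) .done)) (.node 1 3 (.cons 0x7689054312 .nil) (.leaf 0x6890543127 1 (.leaf 0x9867213450 2 (.node 0 6 .nil (.node 4 6 (.cons 0x5460987231 .nil) .done (.node 4 6 (.cons 0x5460987231 .nil) .done .done)) .done))) .done)) (.node 3 9 (.cons 0x5439876210 .nil) (.node 0 6 (.cons 0x7860934521 .nil) (.node 0 3 (.cons 0x4567890321 .nil) (.node 0 7 (.cons 0x6870934521 .nil) (.leaf 0x8612543907 4 (.leaf 0x3907861254 1 .done)) .done) .done) (.node 4 6 (.cons 0x8764390125 .nil)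 (.node 0 6 .nil (.node 1 8 (.cons 0x9018763452 (.cons 0x9812345067 .nil)) (.node 4 7 (.cons 0x5647812390 (.cons 0x9061874325 (.cons 0x4781256093 .nil))) (.leaf 0x2509347681 3 .done) (.node 1 9 (.cons 0x4523678190 (.cons 0x7860912543 .nil)) .done .done)) .done) .done) .done)) .done)) .done)) (.node 3 8 (.cons 0x2543876901 .nil) (.leaf 0x5438769012 1 (.leaf 0x4521096783 3 (.node 4 9 (.cons 0x7683490521 .nil) (.node 3 9 .nil (.node 0 4 (.cons 0x8765409321 .nil) (.node 0 8 (.cons 0x2543967801 .nil) (.leaf 0x9345216780 3 (.leaf 0x7612543908 4 (.leaf 0x3908761254 1 .done))) (.leaf 0x9876540123 3 (.leaf 0x5678394012 3 .done))) (.node 0 6 (.cons 0x7860934521 .nil) (.node 3 6 (.cons 0x5436789012 .nil) (.node 4 6 (.cons 0x7839012564 .nil) .done (.leaf 0x4521098763 0 .done)) .done) .done)) (.node 0 6 .nil (.node 5 7 (.cons 0x8905761234 (.cons 0x5789432160 (.cons 0x8752349061 (.cons 0x6094387521 .nil)))) .done (.node 3 6 (.cons 0x5436789012 .nil) (.node 0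 4 (.cons 0x9401256387 .nil) (.node 0 7 (.cons 0x1236549870 .nil) (.leaf 0x6549870123 0 (.node 1 5 (.cons 0x6321549870 .nil) (.leaf 0x4987063215 4 (.leaf 0x2360789451 3 .done)) .done)) .done) (.leaf 0x4521098763 0 .done)) .done)) (.leaf 0x2567834901 0 .done))) (.node 4 8 (.cons 0x7612348905 .nil) (.node 5 8 .nil (.node 0 4 (.cons 0x9043216785 (.cons 0x7852340961 (.cons 0x9043258761 .nil))) (.node 0 6 (.cons 0x9067854321 .nil) .done .done) (.node 5 9 (.cons 0x7612348950 .nil) (.node 0 6 .nil (.node 0 3 (.cons 0x9521603487 .nil) (.leaf 0x7612590348 2 (.node 1 5 (.cons 0x9678430152 (.cons 0x4306789512 .nil)) .done .done)) (.node 1 8 (.cons 0x3459067812 .nil) (.leaf 0x7609543218 2 .done) .done)) .done) .done)) (.node 0 6 .nil (.node 1 9 (.cons 0x7860912543 (.cons 0x4523876091 .nil)) (.leaf 0x7834521906 0 (.node 3 7 (.cons 0x8673452190 (.cons 0x7321984560 (.cons 0x9065487321 (.cons 0x7348609125 .nil)))) .done .done)) (.node 5 8 (.cons 0x9067854321 .nil)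 (.node 1 8 (.cons 0x9067812345 .nil) (.node 1 5 (.cons 0x7843251690 .nil) (.node 3 5 (.cons 0x9067812354 .nil) .done .done) .done) .done) .done)) .done)) .done)))) .done)) .done)))
noncomputable def tc9_5_23 : T := (.node 2 6 .nil (.node 1 3 (.cons 0x5431098762 .nil) (.node 2 4 (.cons 0x1324567890 .nil) (.node 5 7 (.cons 0x8967501243 (.cons 0x8967501342 .nil)) (.node 1 5 (.cons 0x1543267890 .nil) (.node 3 5 (.cons 0x7896243510 .nil) .done .done) (.node 3 8 (.cons 0x9834501267 (.cons 0x4389057621 .nil)) (.leaf 0x2438967501 3 (.leaf 0x6983421057 3 .done)) .done)) (.leaf 0x9876542310 0 (.leaf 0x9876542310 3 .done))) (.leaf 0x4526789013 0 (.node 1 4 (.cons 0x3214567890 .nil) (.node 1 5 (.cons 0x1543267890 .nil) (.node 4 8 (.cons 0x5210967843 (.cons 0x1523487690 .nil)) (.node 0 7 (.cons 0x7056984123 (.cons 0x4870965123 (.cons 0x9078456231 .nil))) (.leaf 0x8432156907 0 (.leaf 0x2516907843 1 .done)) (.leaf 0x1509678432 0 .done)) (.node 0 3 (.cons 0x9876541230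 .nil) (.node 4 7 (.cons 0x5698741230 (.cons 0x3098745621 .nil)) (.node 5 8 (.cons 0x9658741230 (.cons 0x9621034785 (.cons 0x1587432690 (.cons 0x3478512690 .nil)))) .done (.leaf 0x3056987412 0 .done)) (.leaf 0x9876215430 3 (.leaf 0x8903451267 1 .done))) .done)) (.node 3 7 (.cons 0x6541237890 (.cons 0x1456237890 .nil)) (.leaf 0x2109873456 3 (.node 4 8 (.cons 0x4890567321 (.cons 0x9843762105 (.cons 0x7326509841 (.cons 0x5098437621 .nil)))) .done .done)) .done)) (.leaf 0x4312678905 4 (.leaf 0x987625431 0 .done))))) (.node 3 6 (.cons 0x5436789012 .nil) (.node 6 8 (.cons 0x7689054321 .nil) (.node 0 6 .nil (.node 1 9 (.cons 0x5432198760 .nil) (.node 0 3 (.cons 0x9103452687 (.cons 0x5430198762 .nil)) (.leaf 0x1987625430 0 .done) (.leaf 0x4321987605 2 (.node 4 8 (.cons 0x5487632190 (.cons 0x7605489123 .nil)) (.node 1 7 (.cons 0x2345098671 (.cons 0x7123489605 (.cons 0x9065487123 .nil))) (.leaf 0x9054321768 1 .done) (.leaf 0x9123678450 1 .done)) .done)))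 .done) (.node 2 7 (.cons 0x3450986721 .nil) (.node 2 8 (.cons 0x9012876345 .nil) (.node 4 6 .nil (.node 3 7 (.cons 0x9012873654 (.cons 0x7346982105 (.cons 0x5287346901 .nil))) .done (.node 4 8 (.cons 0x5210967843 .nil) (.node 5 9 (.cons 0x3487695210 .nil) (.node 0 6 .nil (.node 0 7 (.cons 0x5960784321 (.cons 0x9548706321 (.cons 0x5984327061 .nil))) .done .done) (.leaf 0x7634895012 4 (.leaf 0x2763489501 3 .done))) .done) .done)) (.node 0 2 .nil (.node 1 5 (.cons 0x9021543687 .nil) (.leaf 0x9023451678 0 (.leaf 0x4367890215 4 .done)) (.node 2 4 .nil (.node 3 7 (.cons 0x8967342105 (.cons 0x5428901673 .nil)) (.leaf 0x124563789 1 .done) (.node 2 9 .nil (.node 3 7 (.cons 0x8901245673 (.cons 0x1298673450 (.cons 0x8926734501 .nil))) .done .done) .done)) .done)) .done)) (.node 1 3 (.cons 0x7689054312 .nil) (.leaf 0x6890543127 1 (.node 0 6 .nil (.node 4 6 (.cons 0x5460987231 .nil) .done (.node 4 6 (.cons 0x5460987231 .nil) .done .done)) (.node 4 7 (.cons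 0x5098674312 .nil) (.leaf 0x1347689052 1 (.node 1 7 (.cons 0x3450986712 .nil) (.node 1 4 (.cons 0x3214567890 .nil) (.node 0 3 (.cons 0x4567890321 .nil) (.node 0 4 (.cons 0x5698712304 .nil) (.leaf 0x8712304569 3 .done) (.leaf 0x9876541230 3 .done)) .done) .done) (.leaf 0x6890521347 4 (.leaf 0x3125098674 3 .done)))) .done))) .done)) .done)) (.node 6 8 (.cons 0x7689054321 .nil) (.node 3 5 (.cons 0x8769012534 .nil) (.node 1 5 .nil (.node 4 8 (.cons 0x9678435210 (.cons 0x7698432150 (.cons 0x7843690152 (.cons 0x1523487690 .nil)))) .done (.node 5 8 (.cons 0x7612345890 .nil) (.node 2 7 (.cons 0x9872634510 .nil) (.leaf 0x8901672345 1 (.leaf 0x5109872634 1 .done)) .done) .done)) (.node 3 9 (.cons 0x5439876210 .nil) (.node 1 5 .nil (.node 0 4 (.cons 0x7869043521 (.cons 0x7869043512 (.cons 0x8769043251 .nil))) (.leaf 0x5409876321 0 .done) (.node 5 8 (.cons 0x7612345890 .nil) (.node 1 4 (.cons 0x1432587690 .nil) (.node 2 7 (.cons 0x9627853410 .nil) (.leaf 0x8901672345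 1 (.leaf 0x1435872690 0 .done)) (.leaf 0x5876901432 1 .done)) .done) .done)) .done) .done)) .done) .done)) .done)) (.node 3 8 (.cons 0x2543876901 .nil) (.leaf 0x5438769012 1 (.leaf 0x4521096783 3 (.node 1 5 (.cons 0x4387690152 .nil) (.node 1 4 (.cons 0x3214567890 .nil) (.node 1 3 (.cons 0x8769013452 .nil) (.node 3 9 (.cons 0x8765412390 .nil) (.node 4 9 (.cons 0x5678321490 .nil) (.node 5 9 (.cons 0x4123876590 .nil) (.node 0 4 (.cons 0x6783409521 .nil) (.leaf 0x3409521678 0 .done) .done) (.leaf 0x2567834901 0 .done)) .done) .done) (.node 1 3 (.cons 0x8769013452 .nil) (.node 3 6 (.cons 0x5436789012 .nil) (.node 3 7 (.cons 0x6541237890 .nil) (.node 2 6 (.cons 0x1456237890 .nil) (.node 0 3 (.cons 0x4567890321 .nil) (.node 3 5 (.cons 0x4109873562 .nil) .done .done) .done) .done) .done) .done) .done)) (.node 5 9 .nil (.node 1 4 (.cons 0x3214567890 (.cons 0x2596783410 (.cons 0x4123876590 .nil))) .done (.node 0 4 (.cons 0x6783409521 .nil) (.node 2 6 (.cons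 0x5904387621 .nil) (.node 4 7 (.cons 0x1267438950 .nil) (.leaf 0x8321569047 3 (.leaf 0x8347621059 3 (.leaf 0x965123874 4 .done))) (.leaf 0x4095126783 2 .done)) (.node 4 9 (.cons 0x4901256783 .nil) (.node 2 4 (.cons 0x5243876901 .nil) (.node 3 7 (.cons 0x5673894210 .nil) (.leaf 0x4561237890 1 (.leaf 0x6501249837 0 (.node 0 7 (.cons 0x5983421670 .nil) (.leaf 0x5612407389 1 (.leaf 0x2438950761 1 (.node 0 3 (.cons 0x4567890321 .nil) (.leaf 0x2451698703 2 .done) .done))) .done))) .done) .done) (.leaf 0x3409521678 0 .done))) .done)) .done)) (.node 3 6 (.cons 0x5436789012 .nil) (.node 2 6 .nil (.node 5 9 (.cons 0x7895436210 .nil) (.node 0 6 (.cons 0x8760954321 .nil) (.node 0 7 (.cons 0x8907612345 .nil) (.leaf 0x1263459870 0 (.node 1 5 (.cons 0x4321598760 (.cons 0x7098326154 .nil)) .done (.leaf 0x8954362107 0 .done))) .done) (.leaf 0x4387621095 0 .done)) (.node 6 8 (.cons 0x7689054321 .nil) (.node 4 6 .nil (.node 3 5 (.cons 0x7890126435 .nil) (.leaf 0x7890125346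 0 .done) (.node 0 6 .nil (.node 1 9 (.cons 0x7860912543 (.cons 0x4523876091 .nil)) (.leaf 0x7834521906 0 (.node 5 8 (.cons 0x5876432190 (.cons 0x7605891234 .nil)) (.leaf 0x912345876 0 .done) .done)) .done) .done)) .done) .done)) (.node 0 3 (.cons 0x4567890321 .nil) (.node 1 3 (.cons 0x8769013452 .nil) (.node 3 5 .nil (.node 4 6 (.cons 0x5346789012 .nil) (.leaf 0x7890125346 0 (.leaf 0x5467890123 0 (.node 2 7 (.cons 0x5438901672 (.cons 0x8905346721 (.cons 0x6453098721 .nil))) (.leaf 0x3546127890 2 .done) .done))) .done) (.node 3 7 .nil (.node 2 4 (.cons 0x9013876524 (.cons 0x2456987301 (.cons 0x2456738901 (.cons 0x7389016542 .nil)))) .done (.node 3 5 .nil (.node 2 4 (.cons 0x2456987301 .nil) (.leaf 0x7890124356 3 (.node 2 7 (.cons 0x8965427301 (.cons 0x4276538901 (.cons 0x6724538901 .nil))) .done (.leaf 0x124536789 1 .done))) .done) .done)) .done)) (.node 0 6 .nil (.node 1 9 (.cons 0x4523876091 .nil) (.leaf 0x7834521906 0 (.leaf 0x4321987605 2 (.node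 5 8 (.cons 0x7612345890 (.cons 0x7605891234 .nil)) (.leaf 0x912345876 0 (.node 3 7 (.cons 0x2167345890 (.cons 0x4376058912 .nil)) .done .done)) .done))) .done) .done)) (.leaf 0x7890125436 0 .done))) .done)))) (.node 3 8 (.cons 0x1254387690 .nil) (.node 6 8 (.cons 0x7689054321 .nil) (.node 2 6 (.cons 0x9834501267 .nil) (.node 5 9 (.cons 0x3459876210 .nil) (.node 1 5 (.cons 0x7689051234 .nil) (.node 3 5 .nil (.node 0 4 (.cons 0x9534012687 (.cons 0x7869043521 .nil)) (.leaf 0x1267895340 3 (.leaf 0x9045321678 0 .done)) (.node 0 3 (.cons 0x4567890321 .nil) (.leaf 0x2103459876 1 (.node 4 7 (.cons 0x9867432150 .nil) (.leaf 0x3216547890 1 (.leaf 0x2347689051 3 (.leaf 0x8674321509 3 (.node 5 7 (.cons 0x1269875430 .nil) .done .done)))) (.leaf 0x1267895430 3 .done))) .done)) .done) (.node 2 7 (.cons 0x1276983450 .nil) (.node 4 6 (.cons 0x2764389501 .nil) (.leaf 0x7643895012 4 (.node 3 6 (.cons 0x5436789012 .nil) (.node 0 6 .nil (.node 1 9 (.cons 0x5019834672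 (.cons 0x7834521960 (.cons 0x4387601952 .nil))) (.leaf 0x6725019834 1 .done) .done) .done) .done)) (.node 7 9 (.cons 0x6798345012 .nil) (.node 3 5 (.cons 0x8976210534 .nil) (.node 4 6 (.cons 0x8790125346 .nil) (.leaf 0x125346879 3 (.leaf 0x125346879 0 .done)) .done) .done) .done)) .done)) .done) (.node 3 6 (.cons 0x5436789012 .nil) (.node 5 8 (.cons 0x7612345890 .nil) (.node 5 9 (.cons 0x8763459012 .nil) (.node 3 5 .nil (.node 4 6 (.cons 0x5346789012 .nil) (.leaf 0x7890125346 0 (.leaf 0x5467890123 0 .done)) .done) .done) (.node 0 7 (.cons 0x3458907612 .nil) (.leaf 0x6123458907 3 (.leaf 0x1670985432 1 (.node 4 8 (.cons 0x5489076123 .nil) (.node 3 7 (.cons 0x9612548370 .nil) (.leaf 0x2169073845 2 (.node 7 9 (.cons 0x3845216970 .nil) (.node 0 6 (.cons 0x2584379061 .nil) (.node 0 8 (.cons 0x4809732561 .nil) .done .done) .done) .done)) .done) (.leaf 0x9854321670 4 .done)))) .done)) (.leaf 0x7890125436 0 .done)) .done)) (.node 5 8 (.cons 0x7612345890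 .nil) (.node 0 7 (.cons 0x9854321670 .nil) (.node 1 5 (.cons 0x6907834512 .nil) (.node 2 6 (.cons 0x5438709621 .nil) (.node 0 3 (.cons 0x7896215430 .nil) (.node 1 4 (.cons 0x9678521430 .nil) (.node 4 7 (.cons 0x5126987430 .nil) (.leaf 0x3216547098 0 (.leaf 0x2150347896 1 .done)) (.leaf 0x3096785214 0 .done)) (.leaf 0x6215430789 0 .done)) (.leaf 0x7096215438 2 .done)) .done) (.node 3 5 .nil (.node 4 8 (.cons 0x5348907612 .nil) (.leaf 0x2169078435 0 (.leaf 0x7843521096 0 .done)) (.node 0 3 (.cons 0x4567890321 .nil) (.node 1 8 (.cons 0x3452187690 .nil) (.leaf 0x9678125430 2 (.node 1 5 (.cons 0x8769034512 .nil) (.node 5 9 (.cons 0x6781230954 .nil) .done .done) .done)) .done) .done)) (.leaf 0x5216907834 1 (.leaf 0x4321670985 3 .done)))) (.node 6 8 (.cons 0x7689054321 .nil) (.node 2 6 .nil (.node 1 7 (.cons 0x9867123450 (.cons 0x7126983450 (.cons 0x5438712690 .nil))) (.leaf 0x2543871096 0 (.leaf 0x2543871096 3 .done)) (.node 3 5 .nil (.node 1 4 (.cons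 0x3214567890 (.cons 0x9014358762 .nil)) (.leaf 0x3526789014 0 (.leaf 0x3412678905 4 .done)) (.node 5 9 (.cons 0x4359876210 .nil) (.node 1 5 .nil (.node 0 4 (.cons 0x9876210435 (.cons 0x9043267851 (.cons 0x7896215340 (.cons 0x7834096251 .nil)))) .done .done) .done) .done)) .done)) (.node 2 6 .nil (.node 1 7 (.cons 0x5098671234 (.cons 0x7126983450 (.cons 0x5438712690 .nil))) (.leaf 0x2543871096 0 (.leaf 0x2543871096 3 .done)) (.node 5 9 (.cons 0x3459876210 .nil) (.node 1 5 (.cons 0x7689051234 .nil) (.node 3 5 .nil (.node 0 4 (.cons 0x9534012687 (.cons 0x7869043521 .nil)) (.leaf 0x1267895340 3 (.leaf 0x9045321678 0 .done)) .done) .done) .done) .done)) .done)) (.node 0 7 (.cons 0x6907834521 .nil) (.leaf 0x6123458907 3 (.leaf 0x1670985432 1 (.leaf 0x5216907834 1 (.leaf 0x9854321670 4 .done)))) .done))) (.node 1 4 (.cons 0x5214387690 .nil) (.node 6 8 (.cons 0x7689054321 .nil) (.node 2 6 .nil (.node 5 9 (.cons 0x9526783410 .nil) (.leaf 0x7621095438 0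 (.leaf 0x3876259014 3 .done)) (.node 1 5 .nil (.node 0 2 (.cons 0x7698341205 .nil) (.leaf 0x8341520967 1 (.node 2 7 (.cons 0x9867210543 (.cons 0x4389672150 .nil)) .done .done)) (.node 1 8 (.cons 0x3452187690 .nil) (.node 1 9 (.cons 0x7689123450 .nil) (.node 1 7 (.cons 0x9867123450 .nil) (.node 2 8 (.cons 0x8217690543 .nil) (.leaf 0x967128345 3 .done) .done) .done) .done) .done)) .done)) (.node 1 7 (.cons 0x2345098671 .nil) (.node 1 5 .nil (.node 2 4 (.cons 0x8342176905 (.cons 0x9015243867 (.cons 0x7150968342 .nil))) .done (.node 1 3 .nil (.node 2 4 (.cons 0x7150968342 .nil) (.leaf 0x9876542310 0 (.leaf 0x9876542310 3 .done)) .done) .done)) (.leaf 0x9054321768 1 (.leaf 0x5098671234 2 .done))) .done)) (.leaf 0x3876905214 0 (.node 1 5 .nil (.node 2 4 (.cons 0x7698342150 .nil) (.leaf 0x3876905124 0 (.node 4 9 (.cons 0x4901256783 (.cons 0x6783490152 .nil)) .done .done)) (.node 1 8 (.cons 0x3452187690 .nil) (.node 0 4 (.cons 0x7698340512 .nil) (.node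 0 3 (.cons 0x4567890321 .nil) (.node 3 9 (.cons 0x8765409321 .nil) (.leaf 0x4093218765 1 (.leaf 0x456781239 3 .done)) (.leaf 0x9876541230 3 .done)) (.node 1 7 (.cons 0x3871409652 .nil) (.leaf 0x417832569 1 (.leaf 0x4096523871 3 .done)) .done)) .done) .done)) .done))) (.leaf 0x7834521096 0 .done)))) .done)))
noncomputable def uc9_5_6 : T := (.node 3 6 (.cons 0x5436789012 .nil) (.node 1 5 .nil (.node 2 6 (.cons 0x1543267890 .nil) (.node 1 3 (.cons 0x5431098762 .nil) (.node 1 4 (.cons 0x3214567890 .nil) (.node 3 9 (.cons 0x8765412390 (.cons 0x8762543901 .nil)) (.node 3 8 (.cons 0x9012543876 (.cons 0x9834501267 (.cons 0x7839014562 .nil))) (.node 4 7 (.cons 0x4765098321 (.cons 0x3987456210 (.cons 0x5621478390 .nil))) (.leaf 0x9012654783 1 .done) .done) (.node 5 8 (.cons 0x7621058934 (.cons 0x9012634587 (.cons 0x5876214390 .nil))) (.leaf 0x126785439 0 .done) .done)) (.node 0 3 (.cons 0x4567890321 (.cons 0x7890326541 .nil)) (.leaf 0x4309876215 0 (.leaf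 0x8903214567 1 .done)) .done)) (.leaf 0x4312678905 4 (.leaf 0x987625431 0 .done))) (.leaf 0x9015432678 0 (.node 0 2 (.cons 0x9876154320 .nil) (.node 5 9 (.cons 0x1678954320 (.cons 0x3459876120 .nil)) (.node 0 6 (.cons 0x7895432061 .nil) .done .done) (.node 6 8 (.cons 0x7689054321 (.cons 0x9021543687 .nil)) (.node 1 7 (.cons 0x9023451786 (.cons 0x9023687154 .nil)) (.leaf 0x3209867154 0 .done) .done) (.leaf 0x5167890234 0 .done))) .done))) (.node 5 9 (.cons 0x8763459012 .nil) (.node 1 4 (.cons 0x3214567890 .nil) (.node 1 7 (.cons 0x8905432176 .nil) (.node 1 8 .nil (.node 0 2 (.cons 0x1678954320 (.cons 0x4187659023 (.cons 0x4590236781 .nil))) (.leaf 0x4367812095 1 .done) (.node 2 8 (.cons 0x2876345901 .nil) (.node 0 6 (.cons 0x4328950671 .nil) (.leaf 0x5982341760 0 (.leaf 0x7143289506 0 .done)) (.leaf 0x3459012876 3 (.node 0 6 (.cons 0x5906782341 .nil) (.leaf 0x3415906782 1 (.node 2 6 (.cons 0x3267814590 .nil) (.leaf 0x3260987154 0 .done) .done))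 .done))) .done)) (.node 1 8 .nil (.node 0 2 (.cons 0x1678954320 (.cons 0x4187659023 (.cons 0x4590236781 .nil))) (.leaf 0x4367812095 1 .done) (.node 0 6 (.cons 0x4325906781 .nil) (.leaf 0x9523418760 4 (.leaf 0x7814325906 3 .done)) .done)) .done)) (.node 3 5 .nil (.node 2 4 (.cons 0x2435987610 .nil) (.leaf 0x1098763542 3 (.leaf 0x7890124356 3 (.leaf 0x124536789 1 .done))) (.node 0 3 (.cons 0x4567890321 .nil) (.node 3 8 (.cons 0x7654123890 .nil) (.node 2 6 (.cons 0x4387625901 .nil) (.node 5 7 (.cons 0x8901267543 .nil) (.leaf 0x9012675438 0 .done) (.leaf 0x952678341 2 .done)) (.node 6 9 (.cons 0x2543876901 .nil) (.leaf 0x125438769 0 (.node 5 7 (.cons 0x8341096752 .nil) (.node 5 8 (.cons 0x7690143852 .nil) .done .done) (.leaf 0x7834521096 0 .done))) .done)) (.node 1 3 .nil (.node 0 2 (.cons 0x1678954320 (.cons 0x4598761320 .nil)) (.leaf 0x1209876543 0 .done) .done) (.leaf 0x9876541230 0 .done))) .done)) .done)) (.node 1 8 (.cons 0x2187634590 .nil) (.node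 6 8 (.cons 0x7689054321 .nil) (.node 1 7 (.cons 0x2345098671 .nil) (.node 0 6 (.cons 0x9068715432 .nil) (.node 1 3 (.cons 0x8760952134 .nil) (.node 1 4 (.cons 0x3214567890 .nil) .done .done) .done) (.leaf 0x5098671234 2 .done)) (.node 1 3 (.cons 0x7689054312 .nil) (.node 1 4 (.cons 0x3214567890 .nil) (.node 1 7 (.cons 0x3450986712 .nil) (.node 1 9 .nil (.node 0 8 (.cons 0x9087654123 (.cons 0x7809123654 (.cons 0x7619805432 .nil))) (.leaf 0x1908763452 1 .done) .done) .done) .done) .done) .done)) (.node 1 7 (.cons 0x8905432176 .nil) (.node 1 4 (.cons 0x3214567890 .nil) (.node 0 3 (.cons 0x2167895430 .nil) (.node 2 4 (.cons 0x3678124590 .nil) (.leaf 0x8124590367 3 (.node 4 9 (.cons 0x7894561230 .nil) (.node 2 7 (.cons 0x1654987230 .nil) (.node 4 7 (.cons 0x9874561230 .nil) (.leaf 0x5098123674 1 .done) (.leaf 0x6549872301 0 (.leaf 0x5498167230 2 .done))) .done) .done)) (.node 0 2 (.cons 0x3459876120 .nil) (.leaf 0x9876120345 3 (.node 1 3 (.cons 0x8763120954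 .nil) .done .done)) (.leaf 0x9876541230 0 .done))) .done) (.node 3 7 (.cons 0x6732189054 .nil) (.node 5 7 .nil (.node 0 6 (.cons 0x9812376054 (.cons 0x6098751234 .nil)) (.leaf 0x5760981234 1 .done) (.node 3 5 .nil (.node 4 6 (.cons 0x9812376450 (.cons 0x7645321890 (.cons 0x4671890532 (.cons 0x8905346712 .nil)))) .done .done) .done)) (.node 2 4 (.cons 0x9816732450 .nil) (.node 0 3 (.cons 0x2167895430 .nil) (.leaf 0x8124590367 3 (.node 0 6 (.cons 0x5987603421 .nil) (.node 7 9 (.cons 0x8976123450 .nil) (.leaf 0x5423609781 0 .done) .done) .done)) (.leaf 0x3761890542 3 (.leaf 0x5423761890 4 .done))) .done)) .done)) .done)) .done)) .done)) (.leaf 0x4521098763 0 (.leaf 0x7890125436 0 (.node 6 8 (.cons 0x7689054321 .nil) (.node 1 5 (.cons 0x7689051234 .nil) (.node 1 8 (.cons 0x9018763452 .nil) (.node 1 7 (.cons 0x4509817632 .nil) (.leaf 0x2345098671 1 (.node 1 9 (.cons 0x4523678190 .nil) (.node 1 4 (.cons 0x3214567890 .nil) (.node 1 3 .nil (.node 4 7 (.cons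 0x5098674321 (.cons 0x6745098132 (.cons 0x5098674312 .nil))) (.leaf 0x1347689052 1 .done) .done) .done) .done) .done)) .done) .done) (.node 6 9 (.cons 0x8769012543 .nil) (.node 1 5 .nil (.node 4 6 (.cons 0x5123467890 .nil) (.node 0 4 (.cons 0x4098765123 .nil) (.leaf 0x7651234098 0 (.leaf 0x5409876321 0 (.node 2 9 (.cons 0x8763452901 (.cons 0x5167892340 (.cons 0x3298761540 .nil))) (.leaf 0x3405167892 1 .done) .done))) (.leaf 0x1234678905 2 .done)) (.node 2 6 (.cons 0x7890154362 .nil) (.node 2 7 (.cons 0x3450986721 .nil) (.leaf 0x1543627890 4 (.node 2 9 (.cons 0x8763452901 .nil) (.node 0 2 (.cons 0x7892016345 .nil) .done .done) .done)) .done) .done)) (.node 1 5 .nil (.node 4 8 (.cons 0x5210967843 (.cons 0x7698432150 (.cons 0x7843690152 (.cons 0x1523487690 .nil)))) .done (.node 2 6 (.cons 0x7890154362 .nil) (.node 3 5 (.cons 0x8769012534 .nil) (.node 5 8 (.cons 0x7621098543 .nil) (.node 3 7 (.cons 0x7345126890 .nil) (.node 2 4 (.cons 0x5124378690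 .nil) (.leaf 0x1587342690 1 (.leaf 0x3786905124 0 .done)) (.leaf 0x6210985437 0 .done)) .done) .done) .done) .done)) .done)) .done)) .done)))) (.leaf 0x4321678905 2 (.node 6 9 (.cons 0x8769012543 .nil) tc9_5_23 (.node 6 8 (.cons 0x7689054321 .nil) tc9_5_22 .done))))
theorem sub_c9_5_6 : root 9 refs9_5 [] 0x700000008706000000006050000000050300000000304070600004030000000030100000070102000000002018000600010 0xfe7fff3fff9fffd7ff27ffe7fff5ff79fff9febd 9 1 6 (.cons 0x5432167890 .nil) uc9_5_6 = true := by decide +kernel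
noncomputable def tc9_5_24 : T := (.node 3 9 (.cons 0x6789345210 .nil) (.node 0 3 (.cons 0x4567890321 .nil) (.node 2 6 .nil (.node 0 7 (.cons 0x6254398701 .nil) (.leaf 0x9870126543 3 (.node 1 5 (.cons 0x8907632154 .nil) (.leaf 0x7623451098 1 (.leaf 0x9876215430 0 (.leaf 0x9876215430 3 .done))) .done)) (.node 1 6 (.cons 0x5432167890 .nil) (.node 2 7 (.cons 0x8901276345 .nil) (.node 6 8 (.cons 0x4568721093 .nil) (.leaf 0x9012786543 3 (.leaf 0x9012786543 0 .done)) (.node 0 7 (.cons 0x4561239870 .nil) (.node 2 8 (.cons 0x9825436701 .nil) (.node 2 9 (.cons 0x8925436701 .nil) (.node 0 2 .nil (.node 1 3 (.cons 0x8925431076 .nil) (.leaf 0x7890213456 0 .done) .done) .done) .done) .done) .done)) .done) .done)) (.node 2 6 (.cons 0x9876254301 .nil) (.node 1 6 (.cons 0x5432167890 .nil) (.node 1 4 (.cons 0x3214567890 .nil) (.node 2 7 (.cons 0x4561039872 .nil) (.node 6 8 (.cons 0x7865412390 .nil) (.leaf 0x9012786543 3 (.leaf 0x9012786543 0 .done)) (.node 0 7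 (.cons 0x4561239870 .nil) (.node 1 7 (.cons 0x8712390654 .nil) .done .done) .done)) (.leaf 0x9876541230 0 (.leaf 0x9876541230 3 .done))) .done) .done) .done)) (.leaf 0x2106789345 3 (.node 0 3 (.cons 0x4567890321 .nil) (.node 2 6 .nil (.node 4 7 (.cons 0x6547890321 (.cons 0x2654789301 (.cons 0x3098745621 .nil))) (.leaf 0x5621039874 3 (.node 6 9 (.cons 0x5269874301 .nil) (.node 7 9 (.cons 0x8976345210 (.cons 0x8974526301 .nil)) (.node 1 5 (.cons 0x8974301526 (.cons 0x8974362510 .nil)) (.leaf 0x4309876215 0 (.leaf 0x7623451098 1 .done)) .done) .done) .done)) (.node 1 6 (.cons 0x2543987610 .nil) (.node 0 2 (.cons 0x6789345201 .nil) (.node 0 4 (.cons 0x5267893401 .nil) (.node 0 5 (.cons 0x9876123450 .nil) .done .done) (.leaf 0x7893452016 2 .done)) .done) .done)) (.node 2 6 .nil (.node 1 5 (.cons 0x2678934510 .nil) (.node 4 9 (.cons 0x4987652103 .nil) (.node 0 2 (.cons 0x6789345201 .nil) (.leaf 0x4398762015 2 (.node 0 4 (.cons 0x9876512304 .nil) (.leaf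 0x6512304987 0 (.leaf 0x6512304987 3 .done)) (.leaf 0x9021543678 0 .done))) (.leaf 0x349876251 3 (.leaf 0x7894301526 3 .done))) (.leaf 0x7623451098 1 (.leaf 0x9876215430 0 (.leaf 0x9876215430 3 .done)))) (.node 1 6 (.cons 0x2543987610 .nil) (.node 1 4 (.cons 0x5267893410 .nil) (.node 2 8 (.cons 0x1456782390 .nil) (.leaf 0x5410932876 3 (.leaf 0x4567823901 4 .done)) (.node 2 7 (.cons 0x8901276345 .nil) (.node 2 4 (.cons 0x4256789301 .nil) (.node 4 9 (.cons 0x4987652103 .nil) (.node 0 4 (.cons 0x5267893401 .nil) (.node 4 6 (.cons 0x9876430125 .nil) .done .done) .done) .done) (.node 6 8 (.cons 0x3986725410 .nil) (.leaf 0x7254103986 3 (.leaf 0x2768930145 1 .done)) .done)) (.leaf 0x8903214567 1 .done))) .done) .done)) .done)) .done))) (.node 1 6 (.cons 0x5432167890 .nil) (.node 2 6 .nil (.node 0 3 (.cons 0x4567890321 (.cons 0x9876254301 .nil)) (.node 1 5 (.cons 0x1543267890 .nil) (.node 6 9 (.cons 0x8769034512 .nil) (.node 0 2 (.cons 0x7896154320 .nil)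 (.node 1 8 (.cons 0x9625430187 (.cons 0x4518769032 .nil)) (.leaf 0x3209678154 0 .done) (.leaf 0x9021543678 0 .done)) .done) (.leaf 0x7623451098 1 (.leaf 0x4512678903 0 (.node 1 4 (.cons 0x3214567890 .nil) (.node 5 8 (.cons 0x7634589012 (.cons 0x9062341587 (.cons 0x9034587621 .nil))) .done (.leaf 0x2145678903 0 .done)) .done)))) (.node 4 7 (.cons 0x9874561230 (.cons 0x9874562103 (.cons 0x3098745621 .nil))) (.leaf 0x5612309874 0 (.node 6 9 (.cons 0x7896254301 .nil) (.node 1 7 (.cons 0x6987125430 (.cons 0x8712690345 .nil)) (.node 7 9 (.cons 0x8976345210 (.cons 0x8974526301 .nil)) .done (.leaf 0x5269871034 1 .done)) .done) .done)) .done)) (.node 2 7 (.cons 0x8901276345 .nil) (.node 5 8 (.cons 0x7634589012 .nil) (.node 4 7 (.cons 0x4721098563 .nil) (.leaf 0x8901274365 0 (.node 1 7 .nil (.node 0 8 (.cons 0x9801254367 (.cons 0x9085471236 (.cons 0x9801763452 .nil))) .done (.node 0 7 (.cons 0x6321709854 .nil) (.node 7 9 (.cons 0x8976345210 .nil) (.leaf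 0x2634587901 0 .done) .done) .done)) (.node 7 9 (.cons 0x8976345210 .nil) (.node 2 8 (.cons 0x3628547901 .nil) (.node 1 7 (.cons 0x9017458263 .nil) (.node 0 7 .nil (.node 1 5 (.cons 0x1547632890 (.cons 0x9851607432 .nil)) .done .done) .done) .done) (.leaf 0x2634587901 0 .done)) (.leaf 0x8901274365 3 .done)))) (.node 1 4 (.cons 0x9852763410 .nil) (.leaf 0x3672589014 2 (.node 0 3 (.cons 0x4567890321 .nil) (.leaf 0x2145678903 0 (.node 3 9 (.cons 0x6789345210 .nil) (.leaf 0x126785439 0 (.node 0 8 (.cons 0x9345267801 .nil) (.node 1 7 (.cons 0x9852341760 .nil) (.leaf 0x3417609852 1 (.leaf 0x2671458093 1 .done)) .done) .done)) (.leaf 0x9876541230 0 .done))) (.node 2 4 (.cons 0x7241098563 .nil) (.node 3 7 (.cons 0x6541237890 .nil) (.leaf 0x1237890654 3 (.leaf 0x1098563724 1 (.leaf 0x1098563724 2 .done))) .done) .done))) (.node 1 7 (.cons 0x2176345890 .nil) (.node 5 7 .nil (.node 1 5 (.cons 0x8906751234 (.cons 0x6098751234 .nil)) .done (.node 5 9 (.cons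 0x8762109543 .nil) (.node 1 5 (.cons 0x4367215890 .nil) (.node 1 4 (.cons 0x3214567890 .nil) (.leaf 0x3415789062 4 .done) .done) (.node 6 8 (.cons 0x6871234590 .nil) (.leaf 0x3459068712 4 .done) .done)) .done)) (.node 2 4 (.cons 0x3671245890 .nil) (.node 0 2 (.cons 0x7634589021 .nil) (.leaf 0x9854367120 2 (.node 2 9 .nil (.node 0 8 (.cons 0x9801254367 (.cons 0x7634529801 .nil)) (.leaf 0x5298017634 2 .done) (.node 2 8 .nil (.node 0 4 (.cons 0x5890436721 (.cons 0x9045821763 (.cons 0x5409823671 .nil))) (.node 0 7 (.cons 0x9870456123 (.cons 0x9076345821 (.cons 0x9825436701 .nil))) .done .done) .done) .done)) .done)) (.node 5 7 (.cons 0x7589063421 .nil) (.leaf 0x634217589 3 (.node 6 8 (.cons 0x1754236890 .nil) (.node 0 7 (.cons 0x5423689071 .nil) (.node 3 7 (.cons 0x6371245890 .nil) (.leaf 0x1245890637 1 .done) .done) .done) .done)) .done)) .done)) .done))) (.node 0 2 .nil (.node 3 9 (.cons 0x6789345210 (.cons 0x6789345201 .nil)) (.leaf 0x4520167893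 4 (.leaf 0x8761025439 3 .done)) (.node 2 4 .nil (.node 3 5 (.cons 0x9876012534 .nil) (.node 3 9 (.cons 0x6789345210 (.cons 0x8765390124 (.cons 0x5243987601 .nil))) (.node 0 3 (.cons 0x4567890321 (.cons 0x7893016542 .nil)) .done .done) (.node 3 9 (.cons 0x6789345210 (.cons 0x5243987601 .nil)) (.node 4 7 (.cons 0x6539874210 (.cons 0x8742109356 (.cons 0x2478935610 (.cons 0x3560987421 .nil)))) .done .done) (.leaf 0x9012453678 3 .done))) (.node 2 9 .nil (.node 0 5 (.cons 0x9876123450 (.cons 0x1678923450 .nil)) (.leaf 0x4501298763 0 (.leaf 0x8923450167 1 .done)) (.node 2 8 .nil (.node 3 9 (.cons 0x6789345210 (.cons 0x7610289345 .nil)) (.node 5 7 (.cons 0x6012578934 (.cons 0x9345782610 .nil)) (.leaf 0x3457826109 3 (.leaf 0x2893457610 1 .done)) .done) .done) .done)) .done)) (.node 0 3 (.cons 0x4567890321 .nil) (.node 0 7 .nil (.node 5 9 (.cons 0x8762109543 (.cons 0x8954321670 (.cons 0x6123459870 (.cons 0x6120789543 .nil)))) (.node 1 8 (.cons 0x1876234590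 (.cons 0x4598163270 (.cons 0x4367018952 (.cons 0x7023618954 .nil)))) .done .done) (.node 0 5 (.cons 0x9876123450 .nil) (.node 0 4 .nil (.node 3 9 (.cons 0x6789345210 (.cons 0x7893216540 (.cons 0x4012567893 (.cons 0x8936725401 .nil)))) .done .done) .done) .done)) (.node 1 4 (.cons 0x3214567890 .nil) (.node 2 8 (.cons 0x9032876541 .nil) (.node 2 9 (.cons 0x6789254301 .nil) (.node 2 4 .nil (.node 1 7 (.cons 0x8925430176 .nil) (.leaf 0x2309871654 1 .done) .done) .done) .done) (.leaf 0x9876541230 0 (.leaf 0x9876541230 3 .done))) .done)) .done))) .done)) .done)) (.node 2 6 .nil (.node 0 3 (.cons 0x4567890321 (.cons 0x9876254301 .nil)) (.node 5 8 (.cons 0x7634589012 (.cons 0x9034587621 .nil)) (.node 0 5 (.cons 0x6789054321 .nil) (.leaf 0x4321678905 2 (.node 3 5 (.cons 0x9876012534 .nil) .done .done)) (.node 0 5 (.cons 0x6789054321 .nil) (.leaf 0x4321678905 2 (.node 3 5 (.cons 0x9876012534 .nil) .done .done)) .done)) (.node 6 9 (.cons 0x7896254301 .nil)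 (.node 1 7 (.cons 0x6987125430 .nil) (.leaf 0x8960345217 3 (.node 5 9 (.cons 0x8761234590 (.cons 0x6259871034 .nil)) (.leaf 0x4301267895 0 (.node 3 7 (.cons 0x6012598734 (.cons 0x9873012654 (.cons 0x8734590126 (.cons 0x4378952601 .nil)))) .done .done)) (.leaf 0x5269871034 1 .done))) .done) .done)) .done) .done)) (.node 3 9 (.cons 0x6789345210 .nil) (.leaf 0x5439876012 3 (.node 0 3 (.cons 0x4567890321 .nil) (.node 0 4 (.cons 0x4012567893 .nil) (.node 0 5 (.cons 0x6789054321 .nil) (.node 6 9 .nil (.node 1 3 (.cons 0x9876013452 (.cons 0x7896013452 .nil)) (.node 1 7 (.cons 0x8904567123 (.cons 0x8712345096 (.cons 0x4325069871 (.cons 0x4506987132 .nil)))) .done .done) (.node 3 5 .nil (.node 4 6 (.cons 0x9876435210 .nil) (.leaf 0x7890125346 3 (.leaf 0x5467890123 0 (.leaf 0x3467890125 4 .done))) (.node 3 7 (.cons 0x8904567321 .nil) (.node 1 3 (.cons 0x9876013452 .nil) (.node 3 8 (.cons 0x7654098321 .nil) .done .done) .done) .done)) .done)) .done) (.node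 0 5 (.cons 0x6789054321 .nil) (.node 6 9 .nil (.node 1 7 (.cons 0x4065239871 (.cons 0x3217896540 (.cons 0x5234069871 (.cons 0x3254069871 .nil)))) (.node 0 8 (.cons 0x9801254367 .nil) (.leaf 0x2178043965 2 (.leaf 0x2178045693 2 .done)) .done) (.node 1 4 (.cons 0x3214567890 .nil) (.node 1 3 (.cons 0x9876013452 .nil) (.node 1 8 (.cons 0x9678125430 .nil) (.leaf 0x7690345218 1 (.node 0 8 (.cons 0x9678034521 .nil) (.node 1 9 (.cons 0x8769125430 .nil) (.leaf 0x2196780345 4 .done) .done) .done)) .done) (.node 4 7 (.cons 0x8740396521 .nil) (.node 4 8 (.cons 0x1239847650 .nil) (.leaf 0x3905678412 3 (.leaf 0x9321487650 4 .done)) (.leaf 0x5639874012 4 (.leaf 0x2563987401 3 .done))) (.leaf 0x2145678903 0 .done))) .done)) .done) .done)) (.node 0 4 (.cons 0x4012567893 .nil) (.node 6 9 (.cons 0x8769340125 .nil) (.node 4 6 (.cons 0x7893012564 .nil) (.node 0 5 (.cons 0x6789054321 .nil) (.node 1 6 (.cons 0x7896125430 .nil) (.leaf 0x4321678905 2 (.node 6 8 (.cons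 0x7689054321 .nil) .done .done)) .done) .done) .done) (.node 0 5 (.cons 0x6789054321 .nil) (.node 6 9 (.cons 0x8769054321 .nil) (.node 3 5 .nil (.node 4 6 (.cons 0x7893012564 .nil) (.leaf 0x5467890123 0 (.leaf 0x3467890125 4 .done)) (.node 3 8 (.cons 0x7654098321 .nil) (.node 1 3 (.cons 0x8769054312 .nil) (.node 3 7 (.cons 0x8904567321 .nil) .done .done) .done) .done)) .done) .done) .done)) .done)) (.node 0 3 (.cons 0x4567890321 .nil) (.node 0 5 (.cons 0x6789054321 .nil) (.node 0 4 .nil (.node 1 5 (.cons 0x9876043251 .nil) (.node 1 9 (.cons 0x4325198760 (.cons 0x3254067891 .nil)) (.leaf 0x6043251987 0 (.leaf 0x5403219876 1 .done)) (.leaf 0x2154098763 0 (.node 2 6 (.cons 0x7890623451 (.cons 0x5267893401 .nil)) (.leaf 0x439876251 2 .done) .done))) (.node 1 6 (.cons 0x2543987610 .nil) (.node 0 2 (.cons 0x6789345201 .nil) (.node 0 7 (.cons 0x2398704561 .nil) (.node 0 8 (.cons 0x9805432167 .nil) .done .done) (.leaf 0x7893452016 2 .done)) (.leaf 0x4321678905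 2 (.node 2 6 (.cons 0x7893401625 .nil) (.node 2 7 (.cons 0x4016527893 .nil) (.leaf 0x8934016527 1 (.node 0 2 (.cons 0x6789345201 .nil) (.node 0 7 (.cons 0x4078932561 .nil) .done .done) .done)) .done) .done))) .done)) (.node 3 5 .nil (.node 4 6 (.cons 0x9876435210 .nil) (.leaf 0x7890125346 3 (.leaf 0x5467890123 0 (.leaf 0x3467890125 4 (.node 4 9 (.cons 0x8765490321 .nil) (.node 0 4 (.cons 0x4098765321 .nil) (.node 1 5 (.cons 0x2153467890 .nil) (.leaf 0x2154098763 0 (.leaf 0x9043215678 1 .done)) .done) (.leaf 0x5349876012 3 .done)) .done)))) .done) .done)) (.node 0 5 (.cons 0x6789054321 .nil) (.node 3 5 .nil (.node 4 6 (.cons 0x9876435210 .nil) (.leaf 0x7890125346 3 (.leaf 0x5467890123 0 (.leaf 0x3467890125 4 (.node 6 9 (.cons 0x8769054321 .nil) (.node 1 8 (.cons 0x4396781052 (.cons 0x9053467812 .nil)) (.leaf 0x3218769054 1 (.leaf 0x2345096781 3 (.leaf 0x7690543218 4 .done))) .done) .done)))) .done) (.node 0 4 .nil (.node 1 5 (.cons 0x9876043251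 .nil) (.node 2 6 (.cons 0x4398762510 .nil) (.leaf 0x4309876215 0 (.node 0 2 (.cons 0x6789345201 .nil) (.leaf 0x3987620154 4 (.leaf 0x9021543678 0 .done)) .done)) (.leaf 0x2154098763 0 (.node 2 6 (.cons 0x7890623451 (.cons 0x5267893401 .nil)) (.leaf 0x439876251 2 .done) .done))) (.node 1 6 (.cons 0x2543987610 .nil) (.node 0 2 (.cons 0x6789345201 .nil) (.node 0 7 (.cons 0x9870321654 .nil) (.node 0 8 (.cons 0x9805432167 .nil) .done .done) (.leaf 0x7893452016 2 .done)) (.leaf 0x4321678905 2 (.node 6 9 .nil (.node 1 7 (.cons 0x8905432176 (.cons 0x4569871230 (.cons 0x8712309654 (.cons 0x4523069871 .nil)))) .done (.node 0 7 (.cons 0x6987034521 .nil) (.node 0 2 (.cons 0x6789345201 .nil) (.node 0 8 (.cons 0x9801254367 .nil) .done .done) (.leaf 0x8961254307 3 .done)) .done)) .done))) .done)) .done)) (.node 0 8 (.cons 0x9801254367 .nil) (.node 7 9 (.cons 0x8976345210 .nil) (.leaf 0x1254367980 1 (.leaf 0x1254367980 2 (.node 6 9 .nil (.node 3 7 (.cons 0x4569087321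 .nil) (.leaf 0x5437896012 3 (.leaf 0x1254376980 4 .done)) (.node 2 6 .nil (.node 1 6 (.cons 0x1625439780 .nil) (.leaf 0x4397801625 3 .done) (.node 1 6 (.cons 0x2543987610 .nil) (.leaf 0x4397801625 3 .done) .done)) .done)) .done))) (.node 0 7 .nil (.node 1 4 (.cons 0x3214567890 (.cons 0x9807632145 (.cons 0x6708932541 .nil))) (.node 1 6 (.cons 0x2543987610 .nil) (.node 2 4 (.cons 0x4256789301 (.cons 0x5423980761 (.cons 0x1654239870 .nil))) .done (.leaf 0x7809325416 3 .done)) (.leaf 0x8903214567 1 .done)) (.node 3 7 .nil (.node 2 4 (.cons 0x4256789301 (.cons 0x8901245673 (.cons 0x6542109873 .nil))) (.leaf 0x5421098736 0 .done) (.node 3 8 .nil (.node 2 4 (.cons 0x4256789301 (.cons 0x2456783901 (.cons 0x9837654210 .nil))) (.leaf 0x1245673890 4 .done) (.node 1 3 (.cons 0x9876013452 .nil) (.node 3 5 .nil (.node 4 6 (.cons 0x9310876452 (.cons 0x9087645321 (.cons 0x9087645312 .nil))) (.leaf 0x5467890123 0 .done) .done) .done) .done)) .done)) .done)) .done))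 .done))) .done))) .done)))
noncomputable def tc9_5_25 : T := (.leaf 0x7612345098 0 (.node 0 6 (.cons 0x9876012543 .nil) (.node 6 8 (.cons 0x7689054321 .nil) (.node 5 8 (.cons 0x9067854321 .nil) (.node 3 8 .nil (.node 4 7 (.cons 0x9061234785 (.cons 0x9834761052 (.cons 0x9834761250 .nil))) (.leaf 0x2389054761 2 (.leaf 0x1674389052 3 .done)) (.node 2 8 (.cons 0x9821054367 .nil) (.node 1 8 (.cons 0x9067812345 .nil) (.node 4 8 (.cons 0x7612348905 .nil) (.node 3 7 (.cons 0x9843761250 .nil) (.leaf 0x1673489052 3 (.leaf 0x8437612509 3 .done)) .done) .done) .done) .done)) (.node 2 6 .nil (.node 3 7 (.cons 0x1267345890 .nil) (.node 1 9 (.cons 0x3458760912 (.cons 0x2543768910 (.cons 0x9106873452 .nil))) (.leaf 0x7609123458 2 .done) (.leaf 0x2673458901 1 (.leaf 0x6210985437 3 (.leaf 0x4589012673 4 .done)))) (.node 3 7 (.cons 0x1267345890 .nil) (.leaf 0x2673458901 1 (.leaf 0x6210985437 3 (.leaf 0x4589012673 4 .done))) .done)) .done)) (.node 5 8 (.cons 0x9067854321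 .nil) (.node 1 8 (.cons 0x9067812345 .nil) (.node 4 8 (.cons 0x7612348905 .nil) (.node 7 9 (.cons 0x1679843250 .nil) (.leaf 0x8432501679 3 (.leaf 0x6798432501 4 (.leaf 0x5432189760 2 (.leaf 0x5432189760 1 .done)))) .done) (.node 5 9 (.cons 0x8760954321 .nil) (.node 0 4 (.cons 0x1678952340 .nil) (.leaf 0x8952340167 2 (.node 1 5 (.cons 0x9876152340 .nil) (.node 3 5 (.cons 0x9876104352 .nil) .done .done) .done)) (.leaf 0x7609543218 2 .done)) .done)) (.node 2 6 .nil (.node 5 7 (.cons 0x8905761234 .nil) (.leaf 0x4362109875 0 (.node 1 3 (.cons 0x7689054312 (.cons 0x9013458762 (.cons 0x6213457890 .nil))) (.leaf 0x2134578906 0 .done) .done)) (.node 6 9 .nil (.node 3 8 (.cons 0x7621098345 (.cons 0x9601254387 .nil)) (.leaf 0x7690125438 3 .done) (.node 4 6 .nil (.node 1 7 (.cons 0x1762345890 (.cons 0x8905467123 .nil)) (.node 0 2 (.cons 0x9867120543 (.cons 0x9850234617 (.cons 0x9850234671 .nil))) (.node 1 8 (.cons 0x9067812345 (.cons 0x7189645023 (.cons 0x7645098123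 .nil))) .done .done) (.leaf 0x5432671098 1 .done)) .done) .done)) .done)) .done)) .done)) (.node 6 8 (.cons 0x7689054321 .nil) (.node 6 9 .nil (.node 3 8 (.cons 0x7698345012 .nil) (.leaf 0x4387690125 4 (.node 0 7 (.cons 0x4569078321 .nil) (.leaf 0x1254369870 4 (.leaf 0x9870125436 1 (.node 1 4 (.cons 0x3214567890 (.cons 0x8967054123 (.cons 0x7832145690 (.cons 0x7069832541 (.cons 0x5412369870 .nil))))) .done .done))) (.leaf 0x7690125438 3 (.leaf 0x6783452109 1 .done)))) (.node 3 9 (.cons 0x6789345210 .nil) (.leaf 0x5439876012 3 (.node 2 6 .nil (.node 1 5 (.cons 0x4398760152 (.cons 0x7890623451 .nil)) (.leaf 0x7623451098 1 .done) (.node 4 6 .nil (.node 5 8 (.cons 0x9012678543 .nil) (.leaf 0x4390125876 3 (.leaf 0x126785439 0 .done)) .done) .done)) (.node 3 7 (.cons 0x8967345210 .nil) (.node 3 5 .nil (.node 4 6 (.cons 0x9876435210 .nil) (.leaf 0x7890125346 3 (.leaf 0x3467890125 4 .done)) (.node 0 3 (.cons 0x4567890321 .nil) (.node 3 8 (.cons 0x7698345210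 .nil) .done .done) .done)) (.node 3 8 (.cons 0x7698345210 .nil) (.node 0 3 (.cons 0x4567890321 .nil) (.node 3 5 .nil (.node 4 6 (.cons 0x4653789012 .nil) (.leaf 0x7890125346 3 (.leaf 0x3467890125 4 .done)) .done) .done) .done) .done)) .done))) .done)) .done) .done)) (.node 1 5 .nil (.node 0 4 (.cons 0x9876152340 .nil) (.leaf 0x2367890451 0 (.leaf 0x7651234098 0 (.leaf 0x6152340987 1 .done))) (.node 0 6 (.cons 0x9876012543 .nil) (.node 2 6 .nil (.node 4 7 (.cons 0x4789056123 (.cons 0x5098743261 .nil)) (.leaf 0x6234789051 2 (.leaf 0x561234789 0 (.node 1 3 (.cons 0x3126547890 .nil) (.leaf 0x4509876213 0 (.leaf 0x9056213478 1 .done)) .done))) (.node 5 8 (.cons 0x9067854321 .nil) (.node 5 7 (.cons 0x8901267543 .nil) (.node 3 8 (.cons 0x1267543890 .nil) (.node 5 9 (.cons 0x8760954321 .nil) (.node 3 5 .nil (.node 0 4 (.cons 0x9875043612 (.cons 0x8904357612 (.cons 0x9876104352 .nil))) .done .done) .done) (.leaf 0x9012675438 0 .done)) .done) (.node 3 7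 (.cons 0x1267345890 .nil) (.leaf 0x2673458901 1 (.leaf 0x6210985437 3 (.leaf 0x4589012673 4 .done))) .done)) .done)) (.node 5 7 (.cons 0x8906754321 .nil) (.node 5 8 (.cons 0x7609854321 .nil) (.node 1 7 (.cons 0x3458906712 .nil) (.node 6 8 (.cons 0x9860543217 .nil) (.node 5 9 (.cons 0x8954321760 .nil) (.node 3 5 .nil (.node 0 4 (.cons 0x7168950432 (.cons 0x9043587612 (.cons 0x9876104352 .nil))) .done .done) .done) .done) (.leaf 0x6098543217 2 .done)) .done) (.node 5 8 (.cons 0x7609854321 .nil) (.node 2 6 .nil (.node 3 8 (.cons 0x9834521067 (.cons 0x7543890621 .nil)) (.leaf 0x9012675438 0 .done) (.node 5 9 (.cons 0x8762109543 .nil) (.node 3 5 .nil (.node 0 4 (.cons 0x9875043612 (.cons 0x9876104352 .nil)) (.leaf 0x7612354098 0 .done) .done) .done) .done)) .done) .done)) (.node 6 9 (.cons 0x7896345012 .nil) (.node 6 8 .nil (.node 3 7 (.cons 0x8967345210 .nil) (.leaf 0x4376890125 4 (.leaf 0x6890125437 3 (.leaf 0x8673452109 1 .done))) (.node 4 6 .nil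 (.node 0 8 (.cons 0x7698012543 (.cons 0x9087643215 (.cons 0x9087645123 .nil))) .done (.node 2 6 .nil (.node 1 9 (.cons 0x8760915432 (.cons 0x7891062543 .nil)) (.node 3 7 (.cons 0x8967345210 (.cons 0x9054378621 (.cons 0x9051268734 (.cons 0x8732645091 .nil)))) .done .done) .done) .done)) .done)) (.node 6 8 .nil (.node 3 7 (.cons 0x4378961250 (.cons 0x4378690512 .nil)) (.leaf 0x4376890125 4 (.leaf 0x8673452109 1 .done)) .done) .done)) .done))) (.node 0 6 (.cons 0x9876012543 .nil) (.node 5 9 (.cons 0x8760954321 .nil) (.node 0 4 (.cons 0x1678952340 .nil) (.leaf 0x5987610432 1 (.node 3 5 (.cons 0x9876104352 .nil) (.node 2 9 (.cons 0x5436789210 .nil) (.leaf 0x1054367892 0 (.leaf 0x1043529876 2 (.leaf 0x4016789253 1 (.node 1 3 (.cons 0x5401367892 .nil) (.node 1 9 (.cons 0x8763540192 .nil) .done .done) .done)))) .done) .done)) (.node 5 8 (.cons 0x9067854321 .nil) (.node 3 5 .nil (.node 0 4 (.cons 0x7895043612 (.cons 0x9876104352 .nil)) (.leaf 0x6125340987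 1 .done) (.node 5 7 .nil (.node 0 4 (.cons 0x7895043612 (.cons 0x2340985761 .nil)) (.node 1 3 (.cons 0x2598761340 (.cons 0x4098756132 .nil)) .done .done) .done) .done)) .done) .done)) (.node 2 6 .nil (.node 0 3 (.cons 0x4567890321 (.cons 0x9876254301 .nil)) (.leaf 0x4512678903 0 (.leaf 0x9876215430 0 .done)) (.node 5 9 (.cons 0x8762109543 .nil) (.node 5 8 (.cons 0x7609854321 .nil) (.node 5 7 (.cons 0x8906754321 .nil) (.node 3 5 .nil (.node 0 4 (.cons 0x1678952340 (.cons 0x9043587612 (.cons 0x9876104352 .nil))) .done .done) .done) .done) (.node 6 9 (.cons 0x7896345012 .nil) (.node 5 8 (.cons 0x7609854321 .nil) (.node 5 7 (.cons 0x8906754321 .nil) (.node 3 5 .nil (.node 0 4 (.cons 0x7895043612 (.cons 0x9876104352 .nil)) (.leaf 0x7612354098 0 .done) .done) .done) .done) .done) .done)) .done)) (.node 1 9 (.cons 0x7891605234 .nil) (.node 1 3 (.cons 0x9876013452 .nil) (.node 1 4 (.cons 0x3214567890 .nil) (.node 1 7 (.cons 0x8906715432 .nil) (.node 1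 8 (.cons 0x7609815432 .nil) .done .done) .done) .done) (.node 0 4 (.cons 0x3254067891 .nil) (.node 3 8 (.cons 0x9045678321 .nil) (.leaf 0x2190456783 0 (.node 0 3 (.cons 0x4567890321 .nil) (.node 1 4 (.cons 0x3254198760 .nil) (.leaf 0x6541230987 1 (.leaf 0x2145678903 4 .done)) .done) (.leaf 0x7654091238 0 .done))) (.node 1 3 (.cons 0x4523198760 .nil) (.leaf 0x2540678913 3 (.leaf 0x5231987604 1 .done)) .done)) .done)) .done))) .done))) (.node 0 6 (.cons 0x9876012543 .nil) (.node 2 6 .nil (.node 1 9 (.cons 0x8760912345 (.cons 0x7891054362 .nil)) (.leaf 0x6234501987 0 (.node 5 8 (.cons 0x9067854321 .nil) (.node 1 8 (.cons 0x9067812345 .nil) (.node 1 7 (.cons 0x9058716234 .nil) (.node 0 4 (.cons 0x9123604587 (.cons 0x8904567123 (.cons 0x9871236540 .nil))) .done .done) .done) (.leaf 0x7609123458 2 .done)) .done)) (.node 5 8 (.cons 0x9067854321 .nil) (.node 5 9 (.cons 0x8760954321 .nil) (.node 3 5 .nil (.node 2 4 (.cons 0x9876105243 .nil) (.leaf 0x7890124356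 0 (.leaf 0x8905342167 1 .done)) (.node 3 7 (.cons 0x8901267345 .nil) (.node 1 5 .nil (.node 0 4 (.cons 0x8952104376 (.cons 0x6512378904 .nil)) (.leaf 0x6152340987 1 .done) .done) (.leaf 0x985437621 1 .done)) .done)) (.node 5 7 (.cons 0x8901267543 .nil) (.node 1 8 (.cons 0x7623450981 .nil) (.node 1 7 (.cons 0x9817623450 .nil) (.leaf 0x5432671890 0 .done) (.leaf 0x7609543218 2 .done)) .done) .done)) (.node 3 7 (.cons 0x1267345890 .nil) (.leaf 0x2673458901 1 (.leaf 0x6210985437 3 (.leaf 0x4589012673 4 .done))) .done)) .done)) (.node 5 8 (.cons 0x7609854321 .nil) (.node 5 7 (.cons 0x8906754321 .nil) (.node 1 7 (.cons 0x8906712345 .nil) (.node 1 8 (.cons 0x9817605432 .nil) (.node 0 8 (.cons 0x9806712345 .nil) (.node 2 8 (.cons 0x9823450671 .nil) .done .done) .done) (.node 2 7 (.cons 0x9854360127 .nil) (.node 0 7 .nil (.node 4 7 (.cons 0x9852347061 (.cons 0x9852160743 .nil)) (.leaf 0x8561234709 0 .done) .done) .done) .done)) (.node 4 7 (.cons 0x3475890612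 .nil) (.leaf 0x1609857432 1 (.leaf 0x1609857432 2 (.node 1 8 (.cons 0x3457609812 .nil) (.node 1 7 (.cons 0x9852347160 .nil) (.leaf 0x3471609852 1 (.node 2 6 (.cons 0x3260985471 .nil) (.node 1 9 (.cons 0x9187623450 .nil) (.node 5 9 (.cons 0x1623478590 .nil) .done (.leaf 0x3261905874 2 .done)) .done) .done)) (.leaf 0x6098123457 2 .done)) .done))) .done)) (.node 5 7 (.cons 0x8906754321 .nil) (.node 1 7 (.cons 0x3458906712 .nil) (.node 1 4 (.cons 0x9876143250 .nil) (.leaf 0x3416789052 0 (.node 2 4 (.cons 0x9876105243 .nil) (.node 2 6 .nil (.node 0 3 (.cons 0x4567890321 (.cons 0x9034587621 (.cons 0x9854306217 (.cons 0x9850341762 .nil)))) .done .done) (.node 3 7 (.cons 0x9873654210 .nil) (.leaf 0x2109873654 1 (.leaf 0x612437589 3 .done)) .done)) (.node 3 7 (.cons 0x6541237890 .nil) (.node 0 7 (.cons 0x9852143706 .nil) (.node 2 7 (.cons 0x3458906721 .nil) .done .done) (.leaf 0x4560987321 3 .done)) .done))) (.leaf 0x6098543217 2 .done)) .done) .done))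 .done)) .done))))
noncomputable def tc9_5_26 : T := (.node 0 5 (.cons 0x6789054321 .nil) (.node 1 5 .nil (.node 0 7 (.cons 0x8907612345 (.cons 0x8907615432 .nil)) (.node 4 6 (.cons 0x9078512346 (.cons 0x7098516432 .nil)) (.leaf 0x7643215098 0 (.leaf 0x1589076432 0 .done)) (.node 0 4 (.cons 0x9870451236 .nil) (.leaf 0x2367890451 0 (.node 3 8 (.cons 0x7654098321 (.cons 0x7651238904 (.cons 0x4516709832 .nil))) .done (.node 0 6 (.cons 0x9876012543 (.cons 0x9876043251 .nil)) .done .done))) .done)) .done) (.node 2 8 (.cons 0x9821054367 .nil) (.node 3 8 .nil (.node 2 6 (.cons 0x9012678345 .nil) (.node 2 4 (.cons 0x9012456783 (.cons 0x7654210983 .nil)) (.node 3 7 (.cons 0x7389016542 .nil) (.leaf 0x124567389 3 (.leaf 0x2109873654 1 .done)) .done) .done) (.node 6 8 (.cons 0x7689054321 .nil) (.node 3 5 .nil (.node 4 6 (.cons 0x9012876435 .nil) (.leaf 0x7890125346 3 (.leaf 0x8764352109 1 .done)) (.node 1 5 .nil (.node 4 6 (.cons 0x9012876435 (.cons 0x7643289051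 .nil)) (.leaf 0x1234678905 2 .done) .done) .done)) .done) .done)) (.node 1 5 .nil (.node 0 4 (.cons 0x7615409823 .nil) (.leaf 0x2367890451 0 (.leaf 0x7651234098 0 (.node 0 7 (.cons 0x9870456321 (.cons 0x9870451236 (.cons 0x8907615432 .nil))) (.node 3 7 (.cons 0x6540987321 (.cons 0x6512378904 (.cons 0x4516732890 .nil))) .done (.leaf 0x9076154328 0 .done)) .done))) (.node 3 5 .nil (.node 4 6 (.cons 0x9012876453 .nil) (.leaf 0x7890125346 3 (.leaf 0x8764352109 1 (.node 0 7 (.cons 0x8907612345 (.cons 0x7098534612 (.cons 0x8907612354 (.cons 0x4532890761 .nil)))) (.node 3 7 (.cons 0x4673509821 (.cons 0x4537610982 .nil)) .done .done) .done))) (.node 3 8 .nil (.node 2 4 (.cons 0x7610982453 (.cons 0x9012456783 (.cons 0x7654210983 .nil))) (.node 3 7 (.cons 0x9873654210 .nil) (.leaf 0x124567389 3 (.leaf 0x2109873654 1 .done)) .done) (.node 3 7 (.cons 0x4537610982 .nil) (.node 0 3 (.cons 0x4567890321 .nil) (.node 1 3 .nil (.node 2 4 (.cons 0x7610982453 (.cons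 0x9013542876 .nil)) (.leaf 0x9876542310 0 (.leaf 0x9876542310 3 .done)) .done) .done) .done) .done)) .done)) .done)) .done)) (.leaf 0x9054321678 0 .done))) (.node 2 7 (.cons 0x1672345890 .nil) (.node 2 6 .nil (.node 3 9 (.cons 0x6789345210 (.cons 0x6278543901 .nil)) (.node 0 7 (.cons 0x2345890761 (.cons 0x4398526701 (.cons 0x8934526701 .nil))) (.node 1 4 (.cons 0x3214567890 (.cons 0x1458932670 (.cons 0x7014589362 .nil))) (.leaf 0x5267014398 2 .done) .done) (.leaf 0x126785439 0 (.leaf 0x934587261 4 .done))) (.node 6 8 .nil (.node 3 9 (.cons 0x6789345210 (.cons 0x7689345210 (.cons 0x4568721093 .nil))) (.leaf 0x127685439 0 (.leaf 0x8721093456 3 .done)) (.node 6 9 .nil (.node 3 8 (.cons 0x4569012783 .nil) (.leaf 0x4387690125 4 (.leaf 0x7690125438 3 .done)) (.node 0 6 (.cons 0x9876012543 .nil) (.node 4 6 .nil (.node 3 9 (.cons 0x6789345210 (.cons 0x5872643901 .nil)) (.node 2 8 (.cons 0x6728543901 .nil) (.leaf 0x5439016728 3 (.leaf 0x7285439016 4 .done))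 (.leaf 0x2106789345 3 .done)) .done) .done) .done)) .done)) .done)) (.leaf 0x8901672345 1 (.node 0 7 (.cons 0x2345890761 .nil) (.leaf 0x6123458907 0 (.node 0 6 (.cons 0x9876012543 .nil) (.node 0 5 (.cons 0x6789054321 .nil) (.node 0 2 .nil (.node 1 9 (.cons 0x4325891670 .nil) (.leaf 0x5891027634 1 (.leaf 0x276345891 4 (.leaf 0x5432091678 0 .done))) (.node 0 3 (.cons 0x4567890321 .nil) (.node 0 4 (.cons 0x9852340761 .nil) .done .done) .done)) (.node 0 2 .nil (.node 1 9 (.cons 0x4325891670 .nil) (.leaf 0x5891027634 1 (.leaf 0x276345891 4 (.leaf 0x5432091678 0 .done))) (.node 0 3 (.cons 0x4567890321 .nil) (.node 0 4 (.cons 0x9852340761 .nil) .done .done) .done)) .done)) (.node 3 9 (.cons 0x6789345210 .nil) (.node 4 6 (.cons 0x2589346701 .nil) (.leaf 0x764398521 3 (.leaf 0x9346701258 3 .done)) (.leaf 0x5439876012 3 (.node 1 5 (.cons 0x4398760152 .nil) (.node 1 3 (.cons 0x9876013452 .nil) (.node 1 4 (.cons 0x9852341670 .nil) (.node 1 7 (.cons 0x4560987132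 .nil) .done .done) .done) (.node 4 6 (.cons 0x9870643251 .nil) (.leaf 0x985164327 0 (.leaf 0x5278934601 0 .done)) .done)) (.node 0 8 (.cons 0x7610893452 .nil) (.leaf 0x9801672543 4 (.node 3 7 .nil (.node 0 4 (.cons 0x9852340761 (.cons 0x8904567321 (.cons 0x6540987321 .nil))) (.leaf 0x5216739804 0 .done) (.node 2 8 (.cons 0x9016734582 .nil) (.node 1 7 (.cons 0x7160982345 .nil) (.node 5 7 (.cons 0x4572893610 .nil) (.leaf 0x8906175432 4 .done) .done) (.node 2 9 (.cons 0x5436789210 .nil) (.leaf 0x3761092854 3 (.leaf 0x3761092854 0 .done)) .done)) .done)) .done)) .done)))) .done)) (.node 2 8 (.cons 0x5432890761 .nil) (.node 7 9 (.cons 0x5436107982 .nil) (.leaf 0x1079825436 1 (.node 3 8 .nil (.node 0 6 (.cons 0x3452897061 (.cons 0x7906128345 .nil)) (.leaf 0x8345210679 1 .done) (.node 3 7 (.cons 0x9825437016 .nil) (.node 4 9 (.cons 0x9456378210 .nil) (.node 5 7 (.cons 0x6573821094 .nil) .done (.leaf 0x7285490163 4 (.leaf 0x8736549012 1 .done))) .done)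 .done)) .done)) (.node 1 5 (.cons 0x8907615432 .nil) (.node 3 8 .nil (.node 4 9 (.cons 0x7615823490 (.cons 0x5498367210 (.cons 0x5498361072 (.cons 0x3894527610 (.cons 0x9438251670 .nil))))) .done (.node 6 8 (.cons 0x9072386154 .nil) (.node 6 9 (.cons 0x7016983452 .nil) (.leaf 0x169834527 1 (.leaf 0x8345270169 4 .done)) .done) .done)) (.leaf 0x982345167 3 .done)) .done)) .done))) .done))) (.node 0 7 (.cons 0x3458907612 .nil) (.leaf 0x6123458907 3 (.leaf 0x1670985432 1 (.node 2 6 .nil (.node 3 7 (.cons 0x2167345890 .nil) (.leaf 0x2673458901 1 (.leaf 0x6210985437 3 (.leaf 0x4589012673 4 .done))) (.node 2 7 .nil (.node 5 9 (.cons 0x8762109543 (.cons 0x8954367210 (.cons 0x6345987210 .nil))) (.node 3 8 (.cons 0x2678345901 (.cons 0x6278345901 (.cons 0x4389527610 (.cons 0x9834527610 .nil)))) .done .done) (.node 0 2 (.cons 0x7612098543 .nil) (.node 1 9 (.cons 0x7634589120 .nil) (.leaf 0x5891207634 1 (.leaf 0x2198543670 4 (.node 2 9 (.cons 0x5436789210 .nil)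 (.node 2 4 .nil (.node 0 3 (.cons 0x4567890321 (.cons 0x9124587630 (.cons 0x9854216307 (.cons 0x7612430985 (.cons 0x7892456301 .nil))))) .done .done) .done) .done))) (.node 3 7 (.cons 0x2167345890 .nil) (.node 5 7 .nil (.node 3 8 (.cons 0x9012678345 (.cons 0x6123890754 .nil)) (.leaf 0x7621098345 0 (.leaf 0x5438902167 1 .done)) (.node 7 9 (.cons 0x7985436120 .nil) (.node 1 7 (.cons 0x8902345716 .nil) (.node 4 7 (.cons 0x9854702163 .nil) .done .done) .done) .done)) (.node 2 8 (.cons 0x9825437610 .nil) (.leaf 0x1673452890 2 .done) .done)) .done)) .done)) (.node 6 8 .nil (.node 3 7 (.cons 0x2167345890 .nil) (.leaf 0x4376890125 4 (.leaf 0x6890125437 3 (.leaf 0x8673452109 1 .done))) (.node 0 6 (.cons 0x9876012543 .nil) (.node 0 2 (.cons 0x7612098543 .nil) (.node 1 9 (.cons 0x7634589120 .nil) (.leaf 0x5891207634 1 (.leaf 0x2198543670 4 (.leaf 0x7609123458 2 .done))) (.node 0 5 (.cons 0x6789054321 .nil) (.node 2 8 (.cons 0x9821054367 .nil) (.node 2 9 (.cons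 0x5436789210 .nil) (.node 0 4 (.cons 0x3670458921 .nil) (.node 0 3 (.cons 0x7689254301 .nil) (.node 0 8 .nil (.node 1 7 (.cons 0x3452986710 (.cons 0x3298045671 (.cons 0x9217634580 .nil))) (.leaf 0x9054321768 1 .done) .done) .done) .done) .done) .done) (.leaf 0x9054321678 0 .done)) .done)) .done) .done)) .done))) (.leaf 0x9854321670 4 .done)))) .done)))
noncomputable def tc9_5_27 : T := (.node 0 6 (.cons 0x9876012543 .nil) (.node 5 7 (.cons 0x8906754321 .nil) (.node 5 8 (.cons 0x7609854321 .nil) (.node 7 9 (.cons 0x6123458790 .nil) (.leaf 0x1234587906 2 (.leaf 0x1234587906 1 (.node 5 9 (.cons 0x8761234590 .nil) (.node 3 5 .nil (.node 1 8 (.cons 0x3452189760 (.cons 0x4352189760 (.cons 0x7609812354 .nil))) (.leaf 0x6754321890 0 .done) .done) .done) .done))) (.node 2 6 .nil (.node 1 3 (.cons 0x7609854312 (.cons 0x7621345890 (.cons 0x9058762134 .nil))) (.node 4 7 (.cons 0x3126547890 .nil) (.leaf 0x9874562310 3 (.leaf 0x6547890132 3 (.leaf 0x621347589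 1 .done))) .done) (.node 5 9 (.cons 0x8761234590 .nil) (.node 2 9 (.cons 0x5436789210 .nil) (.leaf 0x3450129876 1 (.node 0 2 (.cons 0x9021678543 .nil) (.node 2 8 (.cons 0x7634598210 .nil) .done .done) .done)) (.node 6 8 (.cons 0x7861234590 .nil) (.node 6 9 (.cons 0x8769054321 .nil) (.node 4 6 .nil (.node 0 3 (.cons 0x4567890321 (.cons 0x9875264301 (.cons 0x7859034612 (.cons 0x7895264301 .nil)))) .done .done) .done) .done) .done)) .done)) .done)) (.node 5 8 (.cons 0x7609854321 .nil) (.node 7 9 (.cons 0x6123458790 .nil) (.leaf 0x1234587906 2 (.leaf 0x1234587906 1 (.node 2 6 (.cons 0x1623458790 .nil) (.leaf 0x9785432610 2 .done) .done))) (.node 2 6 .nil (.node 3 8 (.cons 0x9834521067 (.cons 0x7543890621 .nil)) (.leaf 0x9012675438 0 .done) (.node 3 8 (.cons 0x9834521067 .nil) (.node 2 8 (.cons 0x3457609821 .nil) (.node 2 9 (.cons 0x5436789210 .nil) (.node 0 8 (.cons 0x8092167543 .nil) (.node 0 3 (.cons 0x4567890321 .nil) (.node 0 2 (.cons 0x7634589201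 .nil) (.node 0 4 (.cons 0x5763408921 .nil) .done .done) .done) .done) (.leaf 0x3450129876 1 .done)) .done) (.node 1 8 (.cons 0x3457609812 .nil) (.node 0 3 (.cons 0x4567890321 .nil) (.node 0 2 (.cons 0x9023458761 .nil) (.node 0 8 (.cons 0x9087612345 .nil) .done .done) (.node 1 4 (.cons 0x9834125760 .nil) (.leaf 0x9876541230 0 (.leaf 0x9876541230 3 .done)) .done)) (.node 2 7 (.cons 0x9812754360 .nil) (.leaf 0x4572189063 3 (.leaf 0x8127543609 3 .done)) (.leaf 0x6098123457 2 .done))) .done)) .done)) .done)) .done)) (.node 2 6 .nil (.node 0 3 (.cons 0x4567890321 (.cons 0x9876254301 .nil)) (.node 1 4 (.cons 0x3214567890 .nil) (.leaf 0x6541230987 1 (.node 1 5 (.cons 0x1543267890 .nil) (.node 5 7 (.cons 0x8906751432 (.cons 0x8903457621 .nil)) .done (.leaf 0x4512678903 4 .done)) (.leaf 0x2145678903 4 .done))) (.node 1 3 (.cons 0x9876254310 .nil) (.node 5 9 (.cons 0x8761234590 (.cons 0x7895436210 (.cons 0x4310678952 (.cons 0x4312598760 .nil)))) (.leaf 0x4301267895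 0 .done) (.leaf 0x4312678905 0 (.node 4 7 (.cons 0x6547890321 (.cons 0x9874562103 (.cons 0x3098745621 .nil))) (.leaf 0x312654789 0 (.node 3 9 (.cons 0x6789345210 .nil) (.leaf 0x126547893 0 (.leaf 0x5261039874 1 .done)) .done)) .done))) .done)) (.node 5 7 (.cons 0x8901267543 .nil) (.node 3 8 (.cons 0x2675438901 .nil) (.leaf 0x983457621 1 (.leaf 0x9012675438 3 (.node 0 7 (.cons 0x9834526701 .nil) (.node 0 8 (.cons 0x9087612345 .nil) (.node 0 2 .nil (.node 1 9 (.cons 0x7625438910 (.cons 0x6345789102 (.cons 0x9163208754 .nil))) (.leaf 0x4387619025 3 (.leaf 0x7891025436 1 .done)) .done) .done) .done) .done))) (.node 3 8 (.cons 0x1267543890 .nil) (.node 5 8 (.cons 0x7621098543 .nil) (.node 3 5 (.cons 0x9876012534 .nil) (.node 0 3 (.cons 0x4567890321 .nil) (.node 2 9 (.cons 0x5436789210 .nil) (.leaf 0x3450129876 1 (.leaf 0x6785432901 2 (.leaf 0x345298761 4 .done))) .done) .done) .done) (.leaf 0x9012675438 0 (.node 5 8 (.cons 0x7621098543 .nil) (.node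 3 5 (.cons 0x9876012534 .nil) (.node 1 5 .nil (.node 0 2 (.cons 0x9875120634 (.cons 0x9023876154 .nil)) (.leaf 0x4367890215 0 .done) .done) .done) .done) .done))) .done)) .done)) (.node 3 9 (.cons 0x6789345210 .nil) (.node 0 3 (.cons 0x4567890321 .nil) (.node 1 3 (.cons 0x9876013452 .nil) (.node 6 9 (.cons 0x8769054321 .nil) (.node 1 8 (.cons 0x7601893452 .nil) (.leaf 0x3218769054 1 (.leaf 0x2345096781 3 (.leaf 0x7690543218 4 .done))) (.node 0 4 (.cons 0x7896521304 .nil) (.node 4 6 .nil (.node 0 7 (.cons 0x6987034521 (.cons 0x8934670125 (.cons 0x3078964521 .nil))) .done .done) .done) .done)) .done) (.node 1 3 (.cons 0x9876013452 .nil) (.node 2 9 (.cons 0x5436789210 .nil) (.leaf 0x3450129876 1 (.node 6 9 (.cons 0x8769054321 .nil) (.node 1 9 (.cons 0x8769125034 .nil) (.node 0 7 (.cons 0x6078913254 .nil) (.node 4 6 (.cons 0x7891325460 .nil) (.leaf 0x5231987064 2 .done) .done) .done) .done) (.leaf 0x8760134529 4 .done))) .done) .done)) (.leaf 0x5439876012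 3 (.node 1 3 (.cons 0x9876013452 .nil) (.node 1 5 (.cons 0x4398760152 .nil) (.node 1 4 (.cons 0x3214567890 .nil) (.node 0 3 (.cons 0x9876541230 .nil) (.node 1 9 (.cons 0x7891456032 .nil) (.node 1 7 (.cons 0x9871456032 .nil) (.node 1 8 (.cons 0x9054321876 .nil) .done .done) .done) .done) .done) .done) (.node 2 9 (.cons 0x5436789210 .nil) (.leaf 0x5431067892 3 (.leaf 0x3450129876 1 (.leaf 0x8760134529 4 .done))) .done)) (.node 2 8 (.cons 0x9345287610 .nil) (.leaf 0x1093452876 0 (.node 3 8 .nil (.node 0 4 (.cons 0x9340167825 (.cons 0x7654098321 (.cons 0x9045612387 .nil))) .done (.node 0 8 (.cons 0x9087612345 .nil) (.node 0 2 (.cons 0x6789345201 .nil) (.node 0 3 (.cons 0x4567890321 .nil) (.node 0 7 (.cons 0x9078321654 .nil) .done .done) (.leaf 0x3452016789 2 .done)) .done) .done)) (.node 0 4 (.cons 0x5409328761 .nil) (.node 0 2 (.cons 0x6789345201 .nil) (.leaf 0x3452016789 2 (.node 0 3 (.cons 0x4567890321 .nil) (.node 0 8 (.cons 0x9087612345 .nil)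 .done .done) .done)) (.node 0 8 (.cons 0x9087612345 .nil) (.node 0 2 (.cons 0x6789345201 .nil) (.node 0 3 (.cons 0x4567890321 .nil) .done .done) .done) .done)) .done))) .done)))) .done))) (.leaf 0x4321678905 2 (.node 1 5 .nil (.node 2 6 (.cons 0x1543267890 .nil) (.node 3 9 (.cons 0x6789345210 .nil) (.leaf 0x4501267893 0 (.node 1 3 (.cons 0x9876254310 .nil) (.node 5 8 (.cons 0x7854390162 (.cons 0x7621345890 .nil)) .done (.leaf 0x2678905431 0 .done)) (.leaf 0x8762105439 0 (.node 0 8 (.cons 0x9087612345 (.cons 0x4516780932 (.cons 0x9087615432 .nil))) (.node 2 8 (.cons 0x7826109345 (.cons 0x4516782390 .nil)) .done .done) .done)))) (.leaf 0x9015432678 0 (.node 0 4 (.cons 0x9876251043 .nil) (.leaf 0x2367890451 0 (.leaf 0x7651234098 0 (.node 5 8 (.cons 0x7623409851 (.cons 0x7621589043 .nil)) .done .done))) .done))) (.node 5 9 (.cons 0x8761234590 .nil) (.node 0 8 (.cons 0x2345908761 .nil) (.leaf 0x7612345908 1 (.node 3 5 (.cons 0x9087612354 .nil) (.node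 1 4 (.cons 0x3214567890 .nil) (.node 0 3 (.cons 0x9876541230 .nil) (.leaf 0x6541230987 1 (.node 4 9 (.cons 0x5678941230 .nil) (.leaf 0x3087614952 1 (.leaf 0x3087614952 2 (.leaf 0x7809453216 2 .done))) (.node 2 9 (.cons 0x5436789210 .nil) (.leaf 0x1054367892 0 (.leaf 0x4567892301 3 (.leaf 0x3016789254 3 (.leaf 0x4567892301 0 .done)))) .done))) (.node 0 3 (.cons 0x4567890321 .nil) (.leaf 0x2145678903 4 (.leaf 0x8903214567 1 (.leaf 0x9876541230 3 .done))) .done)) .done) (.node 2 9 (.cons 0x5436789210 .nil) (.leaf 0x1054367892 0 (.leaf 0x4329087615 1 (.leaf 0x923451678 4 (.node 3 5 (.cons 0x4536789210 .nil) (.node 0 3 (.cons 0x4567890321 .nil) (.node 1 4 (.cons 0x3214567890 .nil) (.leaf 0x6541230987 1 (.leaf 0x2145678903 4 .done)) (.node 0 6 (.cons 0x9876012543 .nil) (.node 4 6 (.cons 0x2598764301 .nil) (.node 1 4 (.cons 0x3214567890 .nil) (.leaf 0x7641035298 1 (.leaf 0x8903214567 1 .done)) (.leaf 0x8764301259 3 .done)) .done) .done)) .done) .done))))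 .done))) (.node 0 8 (.cons 0x3459087612 .nil) (.leaf 0x7612345908 2 (.node 5 8 .nil (.node 0 6 (.cons 0x9876012543 (.cons 0x7609854321 (.cons 0x7609851234 .nil))) (.node 1 7 (.cons 0x8906715432 .nil) (.node 2 9 (.cons 0x5436789210 (.cons 0x7634589210 (.cons 0x9234587160 (.cons 0x4329851760 .nil)))) (.leaf 0x5061789234 3 .done) (.leaf 0x9854321760 1 (.leaf 0x9854321760 2 .done))) .done) (.node 3 5 (.cons 0x9087612354 .nil) (.node 5 7 .nil (.node 0 6 (.cons 0x9876012543 (.cons 0x8906754321 (.cons 0x8906751234 .nil))) (.node 6 9 (.cons 0x7896345012 (.cons 0x4369875012 .nil)) (.leaf 0x1234578096 1 .done) .done) .done) .done) .done)) (.node 5 8 .nil (.node 0 6 (.cons 0x9876012543 (.cons 0x7609854321 (.cons 0x7609851234 .nil))) .done .done) .done))) .done)) .done)) (.node 0 6 (.cons 0x9876012543 .nil) (.node 5 8 (.cons 0x7609854321 .nil) (.node 7 9 (.cons 0x6123458790 .nil) (.leaf 0x1234587906 2 (.leaf 0x1234587906 1 (.node 2 6 (.cons 0x1623458790 .nil)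 (.leaf 0x9785432610 2 .done) (.node 5 9 (.cons 0x8761234590 .nil) (.node 1 5 .nil (.node 0 4 (.cons 0x4098765123 .nil) (.leaf 0x2367890451 0 (.leaf 0x7651234098 0 (.node 2 8 (.cons 0x7634598210 (.cons 0x9051678234 (.cons 0x7982154063 .nil))) .done .done))) .done) .done) .done)))) (.node 5 7 (.cons 0x8906754321 .nil) (.node 2 6 .nil (.node 1 3 (.cons 0x7609854312 (.cons 0x7621345890 (.cons 0x9876250134 .nil))) (.leaf 0x8905431267 1 .done) (.node 2 7 (.cons 0x3458906721 .nil) (.node 2 9 (.cons 0x5436789210 .nil) (.node 5 9 (.cons 0x8761234590 .nil) (.node 0 7 (.cons 0x1298543670 .nil) (.node 1 4 (.cons 0x5892143670 .nil) (.leaf 0x7058921436 0 (.node 1 5 (.cons 0x4326789051 .nil) .done (.leaf 0x8950143627 4 .done))) .done) .done) (.leaf 0x4367892105 3 .done)) .done) .done)) .done) .done)) (.node 2 6 .nil (.node 5 7 (.cons 0x8901267543 .nil) (.node 1 5 (.cons 0x8906751234 (.cons 0x6098751234 .nil)) .done (.leaf 0x4362109875 0 (.node 5 9 (.cons 0x8761234590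 (.cons 0x7895436210 .nil)) (.node 0 3 (.cons 0x4567890321 (.cons 0x8903457621 .nil)) (.node 3 5 (.cons 0x9876012534 (.cons 0x4357890621 .nil)) .done (.leaf 0x4301267895 0 .done)) .done) .done))) (.node 5 8 (.cons 0x7621098543 .nil) (.node 0 8 (.cons 0x9087612345 .nil) (.node 2 8 (.cons 0x9054328761 .nil) (.node 0 7 (.cons 0x9078543216 .nil) (.node 1 5 (.cons 0x9051678234 .nil) (.node 5 7 (.cons 0x8901267543 .nil) (.node 5 9 (.cons 0x8761234590 .nil) .done .done) .done) .done) .done) .done) (.node 3 7 (.cons 0x1267345890 .nil) (.leaf 0x2673458901 1 (.leaf 0x6210985437 3 (.leaf 0x4589012673 4 .done))) .done)) .done)) .done)) .done))))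
noncomputable def uc9_5_7 : T := (.node 1 6 (.cons 0x5432167890 .nil) (.node 0 5 (.cons 0x6789054321 .nil) tc9_5_27 (.node 5 8 (.cons 0x7612345890 .nil) tc9_5_26 (.node 0 5 (.cons 0x6789054321 .nil) tc9_5_25 .done))) (.leaf 0x4367890125 4 (.node 0 6 (.cons 0x9876012543 .nil) tc9_5_24 (.leaf 0x7890125436 3 (.leaf 0x8763452109 1 .done)))))
theorem sub_c9_5_7 : root 9 refs9_5 [] 0x700000008706000000006050000000050300000000304080000004030000000030100000080102000000002018000000010 0xfe7fff3fff9fffd7fee7ffe7fff5fef9fff9fefd 9 3 6 (.cons 0x9876345210 .nil) uc9_5_7 = true := by decide +kernel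
def kn_c9_5 : List (Nat × Nat × Nat) := [(0x700000008706000000006050000000050300000000304050000004030000000030100000050102000000002018000000010, 0xfe7fff3fff9fffd7ffc7ffe7fff5ffd9fff9fefd, 9), (0x700000008706000000006050000000050300000000304060200004030000000030100000060102000000002018000200010, 0xfe7fff3fff9fffd7ffa3ffe7fff5ffb9fff9fef9, 9), (0x700000008706000000006050000000050300000000304060500004030000000030100000060102000000002018000500010, 0xfe7fff3fff9fffd7ff87ffe7fff5ffb9fff9fedd, 9), (0x700000008706000000006050000000050300000000304060700004030000000030100000060102000000002018000700010, 0xfe7fff3fff9fffd7ff27ffe7fff5ffb9fff9fe7d, 9), (0x700000008706000000006050000000050300000000304070200004030000000030100000070102000000002018000200010, 0xfe7fff3fff9fffd7ff63ffe7fff5ff79fff9fef9, 9), (0x700000008706000000006050000000050300000000304070500004030000000030100000070102000000002018000500010, 0xfe7fff3fff9fffd7ff47ffe7fff5ff79fff9fedd, 9), (0x700000008706000000006050000000050300000000304070600004030000000030100000070102000000002018000600010,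 0xfe7fff3fff9fffd7ff27ffe7fff5ff79fff9febd, 9), (0x700000008706000000006050000000050300000000304080000004030000000030100000080102000000002018000000010, 0xfe7fff3fff9fffd7fee7ffe7fff5fef9fff9fefd, 9)]
noncomputable def rc9_5 : T := (.cut 7 (.node 0 5 (.cons 0x6789054321 .nil) (.cut 6 (.cut 5 (.cut 4 .done))) (.node 0 5 (.cons 0x6789054321 .nil) (.cut 3 (.cut 2 (.cut 1 .done))) (.cut 0 .done))))
theorem ok_c9_5 : root 9 refs9_5 kn_c9_5 0x700000008706000000006050000000050300000000304000000004030000000030100000000102000000002018000000010 0xfe7fff3fff9fffd7ffe7ffe7fff5fff9fff9fefd 9 2 5 (.cons 0x6789012543 .nil) rc9_5 = true := by decide +kernel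

end Pool.Agent.Hhelper35.Rainbow
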