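import Pool.Agent.Hhelper35.Rainbow.Pats

set_option autoImplicit false
set_option maxRecDepth 1000000

namespace Pool.Agent.Hhelper35.Rainbow

open T W

noncomputable def tc9_6_0 : T := (.node 1 8 .nil (.node 0 5 (.cons 0x7650981234 .nil) (.node 4 7 (.cons 0x5674321890 .nil) (.node 3 5 (.cons 0x8901235674 .nil) .done (.leaf 0x2347650981 2 (.leaf 0x3218905674 4 (.node 4 9 (.cons 0x2387654901 (.cons 0x7654901832 (.cons 0x6789432150 .nil))) (.leaf 0x5678943210 5 (.node 0 2 (.cons 0x7651894320 (.cons 0x6789432051 .nil)) (.leaf 0x9876510234 2 (.node 5 9 (.cons 0x2095674381 .nil) (.leaf 0x8765943201 3 (.leaf 0x956743812 1 .done)) .done)) .done)) (.leaf 0x6743218905 5 .done))))) (.node 3 9 (.cons 0x7654390812 .nil) (.node 2 8 (.cons 0x7654390821 .nil) (.leaf 0x7654390128 3 (.node 3 5 (.cons 0x6782109354 .nil) (.node 1 4 (.cons 0x7682390541 (.cons 0x7865412390 (.cons 0x7680935412 (.cons 0x7682145390 .nil)))) .done .done) .done)) (.node 4 7 (.cons 0x6547810932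 .nil) (.node 0 6 (.cons 0x7439806512 (.cons 0x9065874321 .nil)) (.leaf 0x1239874560 3 .done) (.node 6 9 (.cons 0x8745693210 (.cons 0x2396547810 .nil)) (.node 0 7 (.cons 0x4568709321 (.cons 0x9658123470 .nil)) (.leaf 0x9321807456 5 .done) (.node 0 2 (.cons 0x7456938102 (.cons 0x7812096543 (.cons 0x5693478120 .nil))) (.leaf 0x7456932018 0 (.node 1 6 (.cons 0x9816743205 .nil) (.leaf 0x547816932 1 .done) .done)) .done)) (.leaf 0x3218905674 1 (.leaf 0x6509812347 1 .done)))) (.node 2 6 (.cons 0x9345126780 (.cons 0x9326781054 (.cons 0x7621809345 .nil))) (.leaf 0x7809345126 2 .done) .done))) .done)) (.node 0 5 (.cons 0x9054321876 .nil) (.node 3 5 .nil (.node 4 8 (.cons 0x7650984321 .nil) (.node 4 6 (.cons 0x7643218905 (.cons 0x7643509812 (.cons 0x9018764532 .nil))) (.node 7 9 (.cons 0x1234897650 (.cons 0x2153467980 (.cons 0x8109764532 (.cons 0x8123546790 .nil)))) (.leaf 0x5679843210 2 .done) .done) .done) .done) (.node 0 6 (.cons 0x9067812345 .nil) (.node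 4 8 .nil (.node 5 7 (.cons 0x5760981234 (.cons 0x9067548123 .nil)) (.leaf 0x4890675123 2 .done) (.node 2 8 .nil (.node 3 9 (.cons 0x7654390821 (.cons 0x9345128067 .nil)) (.node 2 4 (.cons 0x7651243980 (.cons 0x7608934215 .nil)) (.leaf 0x932456781 3 .done) (.leaf 0x2876543901 2 .done)) .done) .done)) (.node 0 7 .nil (.node 1 9 (.cons 0x8765432190 (.cons 0x4568709123 .nil)) (.leaf 0x2190786543 5 (.leaf 0x786543219 4 .done)) (.node 3 5 .nil (.node 1 9 (.cons 0x8765432190 (.cons 0x8670912354 (.cons 0x6870912354 .nil))) (.node 2 4 (.cons 0x7856091243 (.cons 0x9187605342 (.cons 0x2453867091 (.cons 0x6870912453 (.cons 0x8760912435 .nil))))) .done .done) (.node 4 8 (.cons 0x9076845321 .nil) (.node 2 8 .nil (.node 1 7 (.cons 0x9065871234 (.cons 0x9082176534 (.cons 0x4356712890 .nil))) .done .done) .done) .done)) .done)) .done)) .done)) .done)) (.node 4 8 (.cons 0x7651234890 .nil) (.node 0 7 (.cons 0x9843215670 .nil) (.leaf 0x1234890765 0 (.node 2 8 .nil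 (.node 3 9 (.cons 0x9348076512 (.cons 0x7654390821 .nil)) (.leaf 0x2876543901 2 (.leaf 0x2876543901 3 .done)) (.node 1 8 .nil (.node 2 4 (.cons 0x7651098324 (.cons 0x9018324567 .nil)) (.node 6 9 (.cons 0x7832456901 (.cons 0x7096581234 (.cons 0x7096518342 (.cons 0x7810965423 .nil)))) .done .done) .done) .done)) (.leaf 0x3215670984 1 .done))) (.node 3 5 (.cons 0x9012354876 .nil) (.node 0 4 (.cons 0x5678904321 .nil) (.node 4 9 (.cons 0x4987653210 .nil) (.node 2 4 (.cons 0x7651098324 .nil) (.node 2 8 .nil (.node 1 7 (.cons 0x7123568940 (.cons 0x9821765340 .nil)) (.leaf 0x2894017653 2 (.leaf 0x2890435671 4 (.leaf 0x6712890435 5 .done))) .done) .done) (.leaf 0x6532104987 2 (.leaf 0x3567894012 3 .done))) (.leaf 0x2340987651 2 (.leaf 0x9876512340 5 .done))) .done) .done)) (.node 1 9 (.cons 0x8765432190 .nil) (.node 4 8 .nil (.node 0 7 (.cons 0x5486709123 (.cons 0x8432190765 .nil)) (.leaf 0x9076548321 1 (.leaf 0x4321907658 4 .done)) (.node 2 8 .nil (.node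 0 7 (.cons 0x9107654832 (.cons 0x6709154382 (.cons 0x8234567091 .nil))) (.node 3 9 (.cons 0x5670843912 (.cons 0x6512870934 (.cons 0x6782154390 .nil))) .done .done) (.node 1 8 .nil (.node 0 7 (.cons 0x9107654832 (.cons 0x8190765432 .nil)) (.node 2 4 (.cons 0x3421567890 (.cons 0x9018324567 .nil)) (.leaf 0x9076832451 2 .done) (.leaf 0x9182345670 2 .done)) .done) .done)) (.node 2 8 .nil (.node 0 7 (.cons 0x5486709123 (.cons 0x6709154382 (.cons 0x8234567091 .nil))) (.node 1 8 (.cons 0x7654328190 .nil) (.leaf 0x2345670918 4 .done) .done) (.node 1 8 .nil (.node 0 7 (.cons 0x5486709123 (.cons 0x9182345670 .nil)) (.leaf 0x4328190765 4 (.leaf 0x3281907654 5 .done)) .done) .done)) .done))) (.node 0 7 (.cons 0x4568709123 .nil) (.leaf 0x9123456870 3 (.node 3 7 (.cons 0x4568732190 .nil) (.node 1 7 .nil (.node 0 4 (.cons 0x9123786540 (.cons 0x7190456832 (.cons 0x9045687123 .nil))) (.leaf 0x8732190456 1 (.node 2 6 (.cons 0x2651987340 (.cons 0x7190834562 (.cons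 0x9043265871 .nil))) (.leaf 0x7890432651 2 .done) .done)) (.node 3 5 .nil (.node 0 4 (.cons 0x9123786540 (.cons 0x5321768904 (.cons 0x9045321786 (.cons 0x6789043512 (.cons 0x6871904532 .nil))))) .done (.node 3 9 (.cons 0x4539086712 .nil) (.node 2 7 (.cons 0x4539086721 .nil) (.node 2 9 (.cons 0x4567832901 .nil) (.node 0 4 (.cons 0x8921567340 .nil) (.node 1 4 (.cons 0x6541927380 .nil) (.leaf 0x5678329014 4 .done) (.leaf 0x2937680451 3 (.leaf 0x8732190456 1 (.leaf 0x6712354098 2 .done)))) .done) .done) .done) .done)) .done)) (.node 3 9 .nil (.node 0 4 (.cons 0x5678904321 (.cons 0x8673904512 (.cons 0x7865409321 .nil))) (.node 0 2 (.cons 0x8673902154 (.cons 0x6873902154 .nil)) (.leaf 0x8765120439 2 .done) (.leaf 0x3987654012 1 .done)) (.node 1 7 (.cons 0x8093456712 .nil) (.node 1 8 (.cons 0x7654390812 .nil) (.node 2 8 (.cons 0x9345671280 .nil) (.node 4 8 (.cons 0x9348215670 .nil) .done .done) .done) .done) .done)) .done)) (.node 0 5 .nil (.node 1 6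 (.cons 0x8709165432 .nil) (.leaf 0x3216789054 2 (.leaf 0x2345098761 4 (.node 4 8 (.cons 0x5619078432 (.cons 0x9165078432 .nil)) (.leaf 0x3219056784 2 .done) .done))) (.node 0 6 .nil (.node 1 8 (.cons 0x7650981234 (.cons 0x9187065432 (.cons 0x9067812345 .nil))) .done (.node 4 8 (.cons 0x7650984321 .nil) (.node 1 8 (.cons 0x7650981234 .nil) (.node 2 8 (.cons 0x6543287091 .nil) .done .done) (.node 1 8 (.cons 0x7650981234 .nil) (.node 2 8 (.cons 0x6543287091 .nil) .done .done) .done)) .done)) .done)) .done))) (.node 0 6 (.cons 0x8760912345 .nil) (.node 0 5 .nil (.node 4 7 (.cons 0x7458609123 (.cons 0x8912347605 .nil)) (.leaf 0x6745091238 1 (.leaf 0x1985067432 4 (.leaf 0x9123476058 5 .done))) (.node 1 8 (.cons 0x6781905432 .nil) (.node 2 8 (.cons 0x6782345091 .nil) (.node 1 6 (.cons 0x9054328761 .nil) (.node 1 7 (.cons 0x9067154382 .nil) .done .done) .done) .done) .done)) (.node 2 6 (.cons 0x2678345190 .nil) (.node 3 6 (.cons 0x5436780912 .nil) (.node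 1 6 .nil (.node 0 7 (.cons 0x7091236854 (.cons 0x9078543216 (.cons 0x9162345870 .nil))) .done .done) .done) (.node 3 6 (.cons 0x5436780912 .nil) (.node 1 6 .nil (.node 0 7 (.cons 0x8345190762 (.cons 0x9078543216 (.cons 0x6190785432 .nil))) .done .done) .done) .done)) (.leaf 0x4321906785 4 .done))) .done))) .done)))
noncomputable def tc9_6_1 : T := (.node 1 9 (.cons 0x8765432190 (.cons 0x6785432190 .nil)) (.node 0 7 (.cons 0x4586709123 (.cons 0x8567091234 .nil)) (.leaf 0x9123458670 3 (.node 0 4 (.cons 0x5678904321 (.cons 0x7658904321 (.cons 0x7685409123 .nil))) (.node 3 7 (.cons 0x9045687321 (.cons 0x4586732190 (.cons 0x4376580912 .nil))) (.node 6 9 (.cons 0x5698732104 .nil) (.leaf 0x123789654 2 (.leaf 0x5876901234 3 .done)) .done) .done) .done)) (.node 0 7 (.cons 0x4568709123 (.cons 0x6587091234 .nil)) (.leaf 0x9123456870 3 (.node 0 6 (.cons 0x7856091234 .nil) (.leaf 0x4321906785 3 (.node 4 7 (.cons 0x7432198560 (.cons 0x5890674321 .nil)) (.leaf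 0x9856743210 5 (.leaf 0x1906587432 4 .done)) .done)) .done)) (.node 6 9 (.cons 0x1234587690 .nil) (.node 1 8 (.cons 0x7812345690 (.cons 0x5432187690 .nil)) (.node 4 8 (.cons 0x7845690123 (.cons 0x5487690123 .nil)) .done .done) (.node 4 9 (.cons 0x2387654901 (.cons 0x6785490123 .nil)) (.node 1 7 (.cons 0x3217865490 (.cons 0x8543217690 (.cons 0x6587123490 .nil))) (.node 0 4 (.cons 0x5678904321 (.cons 0x9856712340 (.cons 0x5896712340 .nil))) (.node 0 6 (.cons 0x9456017832 (.cons 0x9432178560 .nil)) .done .done) .done) (.node 0 4 (.cons 0x5678904321 (.cons 0x7658904321 .nil)) (.node 1 6 (.cons 0x7890432165 (.cons 0x9043216587 .nil)) (.node 1 7 (.cons 0x9045687123 (.cons 0x8543217690 (.cons 0x9043217856 .nil))) .done .done) (.node 3 7 (.cons 0x5896732104 .nil) (.leaf 0x458673219 4 (.leaf 0x6732104589 1 (.leaf 0x458673219 1 .done))) .done)) .done)) (.leaf 0x5876901234 3 .done))) .done))) (.node 1 5 (.cons 0x4321567890 .nil) (.node 4 8 (.cons 0x7651234890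 .nil) (.node 0 4 (.cons 0x5678904321 .nil) (.node 3 5 .nil (.node 1 7 (.cons 0x9856712340 (.cons 0x9804356712 (.cons 0x5321768904 (.cons 0x9048653217 (.cons 0x8904356712 .nil))))) .done (.node 1 8 .nil (.node 2 7 (.cons 0x9045672381 .nil) (.leaf 0x4098127653 0 (.leaf 0x4098127653 1 (.leaf 0x3409815672 1 (.leaf 0x4098127653 4 .done)))) (.node 2 8 .nil (.node 1 7 (.cons 0x9856712340 (.cons 0x5671289043 .nil)) (.leaf 0x4098217653 1 (.leaf 0x4098217653 4 .done)) .done) .done)) .done)) (.node 3 5 .nil (.node 4 9 (.cons 0x2387654901 .nil) (.leaf 0x945678321 1 (.leaf 0x5321094876 1 (.leaf 0x5321094876 4 .done))) (.node 2 8 .nil (.node 3 7 (.cons 0x5123768904 (.cons 0x9082154376 (.cons 0x9082156734 .nil))) (.leaf 0x1237689045 2 .done) (.node 1 8 .nil (.node 3 9 (.cons 0x9321045876 (.cons 0x7654390812 .nil)) (.node 0 7 (.cons 0x8907651234 (.cons 0x4518670932 .nil)) (.node 3 7 (.cons 0x5123768904 .nil) (.leaf 0x1237689045 2 .done) .done) .done) .done) .done))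 .done)) (.leaf 0x9876512340 5 .done))) (.node 0 4 (.cons 0x5678904321 .nil) (.node 3 5 (.cons 0x9012354876 .nil) (.node 2 8 .nil (.node 1 7 (.cons 0x9856712340 (.cons 0x5671289043 .nil)) (.leaf 0x4098217653 1 (.leaf 0x4321765890 0 (.leaf 0x4098217653 4 .done))) (.node 1 8 .nil (.node 2 7 (.cons 0x9015483276 (.cons 0x9045672381 .nil)) (.leaf 0x4098127653 1 (.leaf 0x3409815672 1 (.leaf 0x4098127653 4 .done))) .done) .done)) .done) (.leaf 0x2340987651 2 (.leaf 0x9876512340 5 .done))) .done)) (.node 0 4 (.cons 0x5678904321 .nil) (.leaf 0x2340987651 4 (.node 4 8 .nil (.node 3 7 (.cons 0x9045687321 .nil) (.leaf 0x6732109845 1 (.leaf 0x2109845673 0 (.node 1 9 (.cons 0x8765432190 (.cons 0x5673480912 .nil)) (.node 2 5 (.cons 0x6780912543 (.cons 0x9084376521 .nil)) (.leaf 0x843765219 2 .done) (.leaf 0x456873219 1 .done)) .done))) (.node 3 5 (.cons 0x9012354876 .nil) (.node 1 8 .nil (.node 7 9 (.cons 0x1235486790 (.cons 0x4532186790 (.cons 0x6790184532 (.cons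 0x6540978123 .nil)))) (.node 0 2 (.cons 0x3548679021 (.cons 0x2097654381 (.cons 0x8120976534 .nil))) (.leaf 0x4567902183 1 .done) .done) .done) .done) .done)) (.node 3 5 .nil (.node 1 6 (.cons 0x5340987612 .nil) (.leaf 0x7890453216 5 (.leaf 0x3216789045 2 (.leaf 0x2354098761 4 (.node 4 9 (.cons 0x2387654901 (.cons 0x7809435612 (.cons 0x9401678532 .nil))) (.leaf 0x945678321 1 (.node 2 5 (.cons 0x9401678352 .nil) (.leaf 0x3521678094 1 (.leaf 0x7612534908 0 .done)) .done)) .done)))) (.node 1 8 (.cons 0x9045321867 .nil) (.node 0 5 (.cons 0x9054321876 .nil) (.node 0 7 (.cons 0x9076812354 .nil) (.node 1 7 (.cons 0x5321768904 .nil) (.leaf 0x3217689045 2 (.node 2 8 (.cons 0x4356712890 .nil) (.leaf 0x9821765340 5 .done) .done)) .done) .done) .done) .done)) (.leaf 0x8904321567 4 .done)))) (.node 1 9 (.cons 0x8765432190 .nil) (.node 4 8 .nil (.node 0 7 (.cons 0x4321985670 (.cons 0x5486709123 (.cons 0x9123485670 .nil))) (.leaf 0x3485670912 2 .done) (.node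 2 8 .nil (.node 3 9 (.cons 0x6782154390 .nil) (.node 0 4 (.cons 0x7658912340 (.cons 0x7651289043 (.cons 0x9321045876 .nil))) (.leaf 0x3987654012 1 .done) (.leaf 0x2876543901 2 .done)) (.node 1 8 .nil (.node 0 7 (.cons 0x4321985670 (.cons 0x8190765432 .nil)) (.node 0 4 (.cons 0x7658912340 .nil) (.leaf 0x8912340765 1 (.leaf 0x8912340765 4 .done)) (.leaf 0x9182345670 2 .done)) .done) .done)) (.node 2 8 .nil (.node 0 7 (.cons 0x4321985670 (.cons 0x6709154382 (.cons 0x8234567091 .nil))) (.node 1 8 (.cons 0x7654328190 .nil) (.leaf 0x3281907654 2 .done) .done) (.node 1 8 .nil (.node 2 4 (.cons 0x3421567890 (.cons 0x9018324567 .nil)) (.node 0 7 (.cons 0x2438915670 (.cons 0x8190765432 .nil)) (.leaf 0x1983245670 1 (.node 2 7 (.cons 0x2765438091 (.cons 0x4567238190 .nil)) (.leaf 0x4380912765 1 .done) .done)) .done) .done) .done)) .done))) (.node 0 7 (.cons 0x4568709123 .nil) (.leaf 0x9123456870 3 (.node 3 7 (.cons 0x4568732190 .nil) (.node 1 7 .nil (.node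 0 4 (.cons 0x9123786540 (.cons 0x9856712340 (.cons 0x9045687123 .nil))) (.leaf 0x8732190456 1 (.leaf 0x6712340985 4 .done)) (.node 1 8 .nil (.node 0 6 (.cons 0x7819065432 .nil) (.node 2 7 (.cons 0x9127806543 .nil) (.leaf 0x4560912783 2 (.leaf 0x1980654372 1 .done)) (.node 2 7 (.cons 0x5608912734 (.cons 0x7238190654 .nil)) .done .done)) .done) .done)) (.node 3 9 .nil (.node 0 4 (.cons 0x5678904321 (.cons 0x8673904512 (.cons 0x7865409321 (.cons 0x9321045876 .nil)))) (.leaf 0x3987654012 1 .done) (.node 1 8 (.cons 0x7654390812 .nil) (.node 2 8 (.cons 0x4512867390 .nil) (.node 4 8 (.cons 0x2154867390 .nil) .done .done) .done) .done)) .done)) (.node 2 8 (.cons 0x6543287091 .nil) (.node 4 8 .nil (.node 2 6 (.cons 0x7809126543 (.cons 0x9107845623 (.cons 0x5623487091 .nil))) (.leaf 0x9078432651 2 .done) (.node 1 8 .nil (.node 1 4 (.cons 0x5670981432 .nil) (.node 2 4 (.cons 0x3421567890 (.cons 0x7091865423 .nil)) .done .done) .done) .done)) (.node 1 8 .nil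 (.node 1 6 (.cons 0x9076182345 .nil) (.leaf 0x7823456190 1 (.node 2 9 (.cons 0x4329165870 (.cons 0x6709281543 .nil)) (.leaf 0x8709234561 0 .done) .done)) .done) .done)) .done))) (.node 0 6 (.cons 0x9123458760 .nil) (.node 1 8 .nil (.node 5 7 (.cons 0x4321985760 (.cons 0x8190675432 (.cons 0x4576091832 .nil))) .done (.node 7 9 (.cons 0x8543219760 .nil) (.leaf 0x5432187906 2 (.leaf 0x5432187906 3 (.node 2 8 (.cons 0x7609154382 .nil) (.node 4 8 (.cons 0x7906548123 .nil) .done .done) .done))) .done)) (.node 2 6 (.cons 0x2678345190 .nil) (.node 3 6 (.cons 0x5436780912 .nil) (.node 1 6 .nil (.node 3 9 (.cons 0x5439126780 (.cons 0x7809345612 .nil)) .done .done) .done) (.node 3 6 (.cons 0x5436780912 .nil) (.node 3 7 (.cons 0x9126734580 .nil) (.leaf 0x4376219085 1 (.leaf 0x6219085437 0 .done)) .done) .done)) (.leaf 0x3458760912 2 .done))) .done))) .done))) (.node 1 5 (.cons 0x4321567890 .nil) tc9_6_0 .done)))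
noncomputable def tc9_6_2 : T := (.node 3 7 (.cons 0x5673210984 .nil) (.node 4 9 (.cons 0x9456873210 .nil) (.leaf 0x945678321 1 (.node 0 5 (.cons 0x7650984321 (.cons 0x9450123786 .nil)) (.leaf 0x6732105498 1 (.leaf 0x3768945012 0 .done)) (.node 3 5 (.cons 0x7653210984 .nil) (.node 0 3 (.cons 0x9456873012 (.cons 0x9487653012 .nil)) (.node 2 5 (.cons 0x7301256894 .nil) (.leaf 0x6730125498 1 (.leaf 0x6730125498 4 (.leaf 0x3768945210 0 .done))) (.node 2 5 (.cons 0x5210376894 (.cons 0x9452103786 .nil)) (.leaf 0x6730125498 1 (.leaf 0x3768945210 0 .done)) .done)) (.leaf 0x8490123567 1 .done)) (.leaf 0x3786549012 2 .done)))) (.leaf 0x6732109845 1 (.leaf 0x2109845673 0 (.node 3 6 (.cons 0x9012365487 .nil) (.node 2 9 (.cons 0x4567832901 (.cons 0x7654832901 (.cons 0x5436780921 .nil))) (.node 1 9 (.cons 0x8765432190 (.cons 0x5673480912 (.cons 0x5436780912 .nil))) (.node 4 9 (.cons 0x8490123765 (.cons 0x8763210945 .nil)) (.leaf 0x873654921 4 .done) .done) (.node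 1 3 (.cons 0x7654809213 (.cons 0x7809213654 .nil)) (.leaf 0x8456731290 5 (.leaf 0x7809213456 3 .done)) .done)) (.node 5 9 (.cons 0x6590123784 .nil) (.leaf 0x2109548763 0 (.node 3 9 (.cons 0x7684593210 .nil) (.node 2 4 (.cons 0x7395680124 (.cons 0x7680124593 .nil)) (.leaf 0x7659012483 3 (.leaf 0x7659012483 2 .done)) (.node 2 7 (.cons 0x6543908721 (.cons 0x6593721084 (.cons 0x6723845901 .nil))) (.leaf 0x9365487210 1 .done) .done)) (.leaf 0x4590123678 1 (.leaf 0x8765901234 3 (.node 1 8 (.cons 0x7632184590 .nil) (.node 5 8 (.cons 0x9012376584 .nil) .done .done) .done))))) .done)) .done)))) (.node 3 6 (.cons 0x9012365487 .nil) (.node 1 8 .nil (.node 7 9 (.cons 0x6548790123 (.cons 0x5436790812 (.cons 0x7901845632 .nil))) (.node 0 2 (.cons 0x2097654381 (.cons 0x8120976345 (.cons 0x7902184365 .nil))) (.node 5 8 (.cons 0x2185436790 .nil) (.leaf 0x9763458120 0 .done) (.leaf 0x4567902183 4 .done)) (.leaf 0x2365487901 1 .done)) (.node 5 8 .nil (.node 7 9 (.cons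 0x5436790812 (.cons 0x2185436790 (.cons 0x4581097632 (.cons 0x4581236790 .nil)))) (.node 4 7 (.cons 0x7489012365 (.cons 0x9018547632 .nil)) (.node 0 4 (.cons 0x5678904321 (.cons 0x7658904321 .nil)) (.node 3 9 (.cons 0x6397458012 .nil) (.leaf 0x2104765893 4 .done) (.leaf 0x3679854012 0 .done)) (.leaf 0x123674589 4 .done)) .done) (.node 2 8 .nil (.node 3 9 (.cons 0x7654390821 .nil) (.node 0 4 (.cons 0x5678904321 (.cons 0x6785409321 .nil)) (.node 7 9 (.cons 0x1239768540 (.cons 0x7901284563 (.cons 0x5401867932 .nil))) (.leaf 0x2365487901 1 .done) (.leaf 0x3987654012 1 .done)) (.leaf 0x2876543901 2 (.leaf 0x2876543901 3 .done))) .done) .done)) .done)) (.node 3 7 (.cons 0x9012378456 .nil) (.node 1 8 .nil (.node 5 8 .nil (.node 4 9 (.cons 0x2387654901 (.cons 0x7654901832 (.cons 0x6785490123 .nil))) (.node 0 2 (.cons 0x5673498120 (.cons 0x7856349021 (.cons 0x5678120943 (.cons 0x5876349021 .nil)))) .done (.node 0 4 (.cons 0x5678904321 (.cons 0x2376589401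 .nil)) (.leaf 0x3765894012 2 .done) .done)) (.node 2 8 .nil (.node 3 9 (.cons 0x7654390812 (.cons 0x7654390821 .nil)) (.leaf 0x2876543901 2 (.leaf 0x2876543901 3 .done)) (.node 2 4 (.cons 0x9018324567 .nil) (.node 3 5 (.cons 0x9087653421 .nil) (.node 4 9 (.cons 0x7654901832 (.cons 0x6782109453 (.cons 0x6782354901 .nil))) (.leaf 0x7821094536 1 .done) (.leaf 0x9876534210 5 (.leaf 0x8901243567 4 .done))) (.node 3 9 (.cons 0x7654390812 .nil) (.leaf 0x7654239018 3 (.node 0 6 (.cons 0x9324560187 .nil) (.node 1 4 (.cons 0x9067854123 .nil) (.leaf 0x2390678541 5 (.leaf 0x5876093214 4 .done)) (.node 7 9 (.cons 0x4568793210 (.cons 0x9760183245 (.cons 0x7938106542 (.cons 0x6542397810 (.cons 0x9732184560 .nil))))) .done .done)) (.node 0 6 (.cons 0x4587609321 (.cons 0x7609321854 .nil)) (.node 1 9 (.cons 0x7609182345 (.cons 0x7819065432 .nil)) (.leaf 0x4587601932 1 .done) .done) .done))) .done)) .done)) .done)) (.node 0 6 (.cons 0x9067812345 .nil) (.node 7 9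 (.cons 0x6548790123 .nil) (.node 1 7 (.cons 0x7123489065 .nil) (.node 5 8 (.cons 0x6097123485 .nil) (.leaf 0x2179065843 4 .done) (.node 1 6 .nil (.node 0 5 (.cons 0x9056348712 (.cons 0x9786123450 .nil)) (.leaf 0x7612345098 2 .done) .done) .done)) (.leaf 0x8790123654 1 (.leaf 0x6012379845 4 (.leaf 0x6012379845 1 .done)))) (.node 2 8 .nil (.node 1 9 (.cons 0x8765432190 (.cons 0x7609182345 (.cons 0x7823456091 (.cons 0x3456782190 .nil)))) .done (.node 5 8 .nil (.node 0 4 (.cons 0x5678904321 (.cons 0x7658904321 .nil)) (.node 1 9 (.cons 0x8765432190 (.cons 0x7609185432 (.cons 0x5876340912 .nil))) (.node 0 7 (.cons 0x9123456870 (.cons 0x6587091234 .nil)) .done .done) .done) .done) .done)) .done)) .done)) (.node 7 9 (.cons 0x6548790123 .nil) (.leaf 0x8790123654 1 (.node 6 9 (.cons 0x7845690123 .nil) (.node 1 8 (.cons 0x5437690812 .nil) (.node 2 6 (.cons 0x3265487901 .nil) (.node 2 8 (.cons 0x5437690821 .nil) .done .done) .done) (.node 4 9 (.cons 0x2387654901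 .nil) (.leaf 0x945678321 1 (.node 1 6 (.cons 0x5490167832 .nil) (.node 2 5 (.cons 0x9732548610 .nil) (.node 0 4 (.cons 0x5678904321 .nil) (.leaf 0x8973256104 4 (.leaf 0x1652379840 5 .done)) (.leaf 0x7325486109 2 (.leaf 0x3790168452 4 (.leaf 0x9637845210 1 .done)))) .done) .done)) (.leaf 0x2378456901 1 .done))) (.node 1 6 (.cons 0x3216548790 .nil) (.node 2 7 (.cons 0x1654832790 .nil) (.node 5 8 (.cons 0x9085437612 .nil) (.node 2 8 (.cons 0x9082167345 .nil) (.node 1 8 .nil (.node 0 4 (.cons 0x5678904321 (.cons 0x7904812365 (.cons 0x5409761832 (.cons 0x9045816732 .nil)))) .done .done) .done) .done) (.leaf 0x6548327901 1 .done)) (.node 0 3 (.cons 0x6548790321 .nil) (.leaf 0x5487903216 4 (.leaf 0x5487903216 1 .done)) .done)) .done))) .done)) .done)) (.node 3 6 (.cons 0x9012367845 .nil) (.node 3 5 (.cons 0x9012354876 .nil) (.node 5 7 (.cons 0x5763210984 .nil) (.leaf 0x123675489 4 (.leaf 0x123675489 1 (.node 1 8 .nil (.node 7 9 (.cons 0x9763548012 (.cons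 0x5436790812 (.cons 0x5481097632 .nil))) (.node 0 2 (.cons 0x4356798120 (.cons 0x8120976345 .nil)) (.leaf 0x4536790218 1 (.leaf 0x4567902183 4 (.node 4 9 (.cons 0x4987653210 (.cons 0x4976538102 (.cons 0x6357948120 (.cons 0x5763209481 .nil)))) .done .done))) .done) (.node 5 8 .nil (.node 4 7 (.cons 0x4756321890 .nil) (.node 0 4 (.cons 0x9812365740 (.cons 0x7658904321 (.cons 0x9856321047 .nil))) (.node 4 9 (.cons 0x4987653210 (.cons 0x7498563210 .nil)) (.leaf 0x3567894012 0 (.leaf 0x5490123678 1 .done)) .done) (.leaf 0x123674589 4 (.leaf 0x123674589 1 .done))) .done) .done)) .done))) (.node 3 9 .nil (.node 0 4 (.cons 0x5678904321 (.cons 0x9321045687 .nil)) (.node 5 7 (.cons 0x5763210984 (.cons 0x9367548012 (.cons 0x8457639012 .nil))) (.leaf 0x123675489 1 (.leaf 0x2398675401 2 .done)) (.leaf 0x3987654012 1 .done)) (.node 5 8 .nil (.node 4 7 (.cons 0x6532109874 (.cons 0x9367458012 (.cons 0x8547639012 .nil))) (.leaf 0x123674589 1 .done) (.node 5 7 (.cons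 0x5763210984 .nil) (.node 2 5 (.cons 0x6780934521 .nil) (.node 3 7 (.cons 0x9376801254 .nil) (.node 0 3 .nil (.node 1 5 (.cons 0x4321567890 (.cons 0x4309876512 .nil)) .done .done) .done) .done) (.leaf 0x123675489 4 (.leaf 0x123675489 1 .done))) .done)) .done)) .done)) (.node 1 8 .nil (.node 1 6 .nil (.node 0 5 (.cons 0x7650981234 (.cons 0x7890561234 .nil)) (.leaf 0x7612345098 2 .done) (.node 0 5 (.cons 0x7612348905 (.cons 0x7650981234 .nil)) (.node 4 7 (.cons 0x6509874321 (.cons 0x9056347812 .nil)) (.node 3 9 (.cons 0x7439805612 (.cons 0x7654390812 .nil)) (.node 2 7 (.cons 0x5612743980 .nil) (.leaf 0x4398056127 5 (.leaf 0x6127439805 2 (.leaf 0x1650893472 4 .done))) (.node 6 9 (.cons 0x1234789650 (.cons 0x6932187450 .nil)) (.leaf 0x1054786932 0 (.leaf 0x7896501234 2 .done)) .done)) (.leaf 0x9812347650 4 .done)) (.node 0 6 (.cons 0x9065432187 .nil) (.node 2 6 (.cons 0x9054326781 .nil) (.node 1 9 (.cons 0x6781905432 .nil) (.leaf 0x5091876234 4 (.node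 2 8 (.cons 0x7821906543 .nil) .done .done)) .done) .done) .done)) (.node 3 9 (.cons 0x7654390812 .nil) (.node 2 4 (.cons 0x9018324567 (.cons 0x7839016542 .nil)) (.node 0 4 (.cons 0x9321045687 .nil) (.node 1 5 (.cons 0x9832401567 (.cons 0x7651098324 .nil)) (.leaf 0x2340987651 4 .done) (.leaf 0x3987654012 1 .done)) (.leaf 0x7654239018 3 .done)) (.node 2 4 (.cons 0x7839016542 (.cons 0x9018324567 .nil)) (.node 4 7 (.cons 0x6547810932 .nil) (.node 6 9 (.cons 0x5487690123 .nil) (.leaf 0x965478321 1 (.leaf 0x5478012396 3 (.leaf 0x7456901238 0 .done))) (.node 0 5 (.cons 0x7893421650 (.cons 0x3476509812 (.cons 0x9056347812 (.cons 0x9365018742 .nil)))) .done .done)) (.node 5 9 (.cons 0x7809563421 (.cons 0x7812436590 (.cons 0x7810956324 .nil))) (.node 0 7 (.cons 0x8709345612 (.cons 0x9543218670 (.cons 0x7095618342 .nil))) (.leaf 0x4365907812 3 .done) (.leaf 0x2367845901 1 .done)) .done)) (.node 2 6 (.cons 0x5439087621 (.cons 0x7621809345 .nil)) (.node 0 4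 (.cons 0x5678904321 (.cons 0x5409326781 .nil)) (.node 3 7 (.cons 0x9376218045 .nil) (.leaf 0x6732189045 5 .done) (.node 7 9 (.cons 0x9786540123 (.cons 0x5634097812 (.cons 0x3265409781 (.cons 0x6540978123 .nil)))) .done .done)) .done) .done))) .done))) (.node 0 6 (.cons 0x9065432187 .nil) (.node 0 4 (.cons 0x5678904321 .nil) (.node 1 6 (.cons 0x7890432165 .nil) (.node 1 5 (.cons 0x4321567890 .nil) (.node 1 4 (.cons 0x9014567832 .nil) (.node 1 3 (.cons 0x9087654312 .nil) (.node 1 9 (.cons 0x8765432190 .nil) .done .done) .done) (.leaf 0x2340987651 2 .done)) .done) (.node 4 9 (.cons 0x2387654901 .nil) (.leaf 0x945678321 1 (.node 3 7 (.cons 0x9456873210 .nil) (.node 1 6 (.cons 0x5610498732 .nil) (.node 4 6 (.cons 0x5649873210 .nil) .done .done) (.leaf 0x2109456873 2 .done)) (.node 4 6 .nil (.node 0 5 (.cons 0x7890564321 .nil) (.node 3 5 (.cons 0x9487635012 (.cons 0x7648901235 (.cons 0x7890123564 .nil))) .done .done) .done) .done))) .done)) (.node 0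 4 (.cons 0x5678904321 .nil) (.node 5 8 (.cons 0x7658904321 .nil) (.node 2 8 .nil (.node 1 9 (.cons 0x8765432190 (.cons 0x5432876091 (.cons 0x3456782190 .nil))) (.node 3 7 (.cons 0x4098567321 (.cons 0x9106732845 (.cons 0x4582376091 .nil))) .done .done) .done) .done) (.node 0 5 .nil (.node 1 9 (.cons 0x8765432190 .nil) (.leaf 0x2340567891 4 (.leaf 0x3219876504 2 (.leaf 0x548763219 1 .done))) (.node 2 8 .nil (.node 3 9 (.cons 0x9321054867 (.cons 0x7654390821 .nil)) (.leaf 0x2876543901 2 (.leaf 0x2876543901 3 .done)) (.node 5 8 .nil (.node 1 9 (.cons 0x8765432190 (.cons 0x6785432190 (.cons 0x7856340912 .nil))) (.node 0 7 (.cons 0x7043219865 (.cons 0x9123458670 (.cons 0x8567091234 .nil))) .done .done) .done) .done)) .done)) .done)) .done)) .done)) .done)) .done)))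
noncomputable def uc9_6_0 : T := (.node 1 9 (.cons 0x8765432190 (.cons 0x7865432190 .nil)) (.node 0 7 (.cons 0x8670912345 .nil) (.node 4 8 (.cons 0x9107654832 .nil) (.leaf 0x9076548321 4 (.leaf 0x7091238456 0 .done)) (.leaf 0x2345687091 2 (.node 5 8 (.cons 0x7685432190 .nil) (.leaf 0x3458670912 2 (.leaf 0x4321907685 4 (.node 2 8 (.cons 0x5432867091 .nil) (.node 3 9 (.cons 0x7654391280 (.cons 0x7019328654 .nil)) (.node 0 4 (.cons 0x5678904321 (.cons 0x7685409321 (.cons 0x7685409123 .nil))) (.node 5 7 (.cons 0x6754391280 (.cons 0x7568912340 .nil)) (.leaf 0x1932867540 2 .done) .done) .done) (.node 3 7 (.cons 0x9107328654 (.cons 0x4586732190 .nil)) (.node 4 8 (.cons 0x9107328456 .nil) (.leaf 0x7321908456 1 .done) (.leaf 0x6821907345 4 .done)) .done)) .done))) .done))) (.node 4 9 (.cons 0x2387654901 (.cons 0x7865490123 .nil)) (.leaf 0x945678321 1 (.node 7 9 (.cons 0x1234568790 .nil) (.node 1 8 (.cons 0x6543218790 .nil) (.node 4 8 (.cons 0x6548790123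 .nil) (.leaf 0x976548321 0 .done) .done) (.leaf 0x5687901234 3 (.node 1 4 (.cons 0x9014567832 (.cons 0x3214568790 .nil)) (.node 2 9 (.cons 0x9238765410 .nil) (.leaf 0x5678329014 4 (.leaf 0x5678329014 1 .done)) (.node 2 5 (.cons 0x6780912543 (.cons 0x7680912543 (.cons 0x7683254190 .nil))) (.node 0 6 (.cons 0x8325419760 .nil) (.leaf 0x5419760832 1 (.leaf 0x8760194523 2 (.leaf 0x1945238760 5 .done))) (.leaf 0x4523867901 1 .done)) .done)) .done))) (.node 5 7 (.cons 0x8675432190 .nil) (.leaf 0x4321908675 1 (.node 2 5 (.cons 0x6780912543 (.cons 0x7680912543 .nil)) (.node 0 6 (.cons 0x1943257860 .nil) (.leaf 0x5234910687 4 (.leaf 0x3457860912 2 .done)) (.node 2 9 (.cons 0x4567832901 (.cons 0x4576832910 .nil)) (.node 0 4 (.cons 0x5678904321 (.cons 0x5768912340 .nil)) (.node 0 6 (.cons 0x3257860491 (.cons 0x1923457860 .nil)) (.leaf 0x5432910687 1 .done) (.leaf 0x5768329104 1 .done)) .done) .done)) (.node 0 6 (.cons 0x8760912345 .nil) (.leaf 0x9123457860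 4 (.leaf 0x1906875432 2 (.leaf 0x8754321906 5 .done))) (.node 1 8 (.cons 0x2345768190 .nil) (.node 0 2 (.cons 0x9456781023 (.cons 0x9186754320 (.cons 0x6875432091 .nil))) (.node 1 6 (.cons 0x2345786190 .nil) (.leaf 0x3457861902 0 (.leaf 0x3457861902 1 (.node 3 9 (.cons 0x2394567810 (.cons 0x9320186754 (.cons 0x2093457861 .nil))) .done .done))) (.leaf 0x6754320918 4 .done)) (.node 0 7 (.cons 0x9078123456 .nil) (.node 6 9 (.cons 0x2345709681 .nil) (.leaf 0x8123456907 2 (.leaf 0x8123456907 3 .done)) (.node 0 2 (.cons 0x8675432091 (.cons 0x6875432091 .nil)) (.node 1 4 (.cons 0x9014567832 (.cons 0x5678941023 (.cons 0x9075681432 (.cons 0x5678902143 .nil)))) .done (.leaf 0x3457681902 0 .done)) .done)) .done)) (.leaf 0x6809123457 1 .done))))) .done))) (.node 4 9 (.cons 0x2387654901 (.cons 0x7865490123 .nil)) (.leaf 0x945678321 1 (.node 3 7 (.cons 0x8673210945 .nil) (.leaf 0x2109456873 0 (.leaf 0x8732109456 1 (.node 0 5 (.cons 0x8673450912 (.cons 0x6873450912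 .nil)) (.node 1 6 (.cons 0x9450167832 (.cons 0x8761234905 .nil)) (.leaf 0x2345098761 4 .done) (.node 1 5 (.cons 0x4321567890 (.cons 0x9086734512 .nil)) (.node 0 6 (.cons 0x5123498760 .nil) (.leaf 0x3498760512 0 (.leaf 0x3498760512 4 .done)) (.node 0 6 (.cons 0x7860943215 .nil) (.node 5 7 (.cons 0x7512349860 .nil) (.leaf 0x945768321 0 (.leaf 0x9432157860 4 (.leaf 0x6754901238 1 .done))) .done) .done)) .done)) (.node 2 5 (.cons 0x6783254901 (.cons 0x7683254901 (.cons 0x4378652190 .nil))) (.node 0 4 (.cons 0x5678904321 (.cons 0x9125687340 .nil)) (.leaf 0x6521904378 5 (.node 1 5 (.cons 0x4321567890 (.cons 0x7689401523 (.cons 0x9401523786 .nil))) .done .done)) (.node 5 8 (.cons 0x6785490123 .nil) (.leaf 0x1237685490 2 (.node 3 6 (.cons 0x3678094521 .nil) (.leaf 0x4901236785 1 (.node 0 3 (.cons 0x8765430912 (.cons 0x7865430912 .nil)) (.node 2 7 (.cons 0x4527683091 .nil) (.leaf 0x1903456872 4 (.leaf 0x8721903456 5 (.leaf 0x4309127685 1 .done))) .done)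 .done)) .done)) .done)) .done)))) (.node 1 5 (.cons 0x4321567890 .nil) (.node 0 2 (.cons 0x1567894320 .nil) (.node 3 7 (.cons 0x2089437651 (.cons 0x5102376894 .nil)) (.leaf 0x6732015498 1 (.leaf 0x6512089437 2 .done)) (.leaf 0x9876510234 2 (.leaf 0x7894320156 3 (.node 3 9 (.cons 0x8765102394 (.cons 0x7865102394 .nil)) (.node 7 9 (.cons 0x8021567934 (.cons 0x2154397680 .nil)) (.leaf 0x6802154397 4 .done) (.node 0 3 (.cons 0x8765194302 (.cons 0x7865194302 .nil)) (.node 2 7 (.cons 0x5103276894 (.cons 0x2768039451 .nil)) (.leaf 0x1032768945 0 (.leaf 0x6723015498 1 .done)) .done) .done)) .done)))) (.node 0 4 (.cons 0x5678904321 (.cons 0x7689043215 .nil)) (.node 2 4 (.cons 0x7651098324 (.cons 0x9015423867 .nil)) (.node 4 7 (.cons 0x9832476510 (.cons 0x5123476890 .nil)) (.node 0 5 (.cons 0x3421987650 .nil) (.leaf 0x1509867432 1 (.leaf 0x9867432150 0 .done)) .done) (.node 7 9 (.cons 0x6542387901 (.cons 0x4510976832 .nil)) (.leaf 0x5423867901 1 .done) .done))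 (.leaf 0x2340987651 2 .done)) (.node 0 4 (.cons 0x5678904321 .nil) (.leaf 0x2340987651 4 (.node 3 7 (.cons 0x5687340912 .nil) (.leaf 0x5409123786 0 (.node 0 2 (.cons 0x6510237894 (.cons 0x7320156894 (.cons 0x9451023786 (.cons 0x9120437865 .nil)))) .done (.leaf 0x456873219 4 .done))) (.node 6 9 (.cons 0x7869045123 .nil) (.node 0 3 (.cons 0x8765430912 (.cons 0x7865430912 .nil)) (.node 4 7 (.cons 0x6512347890 (.cons 0x7498651032 (.cons 0x7430986512 .nil))) .done (.node 4 7 (.cons 0x6512347890 (.cons 0x9478651032 (.cons 0x9034786512 .nil))) .done .done)) .done) .done))) .done))) .done))) .done))) (.node 4 8 .nil tc9_6_2 (.node 5 8 .nil tc9_6_1 .done)))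
theorem sub_c9_6_0 : root 9 refs9_6 [] 0x400000008407000200307060000000060500000000504000000004010000200010300000000302000000002018300000010 0xfeefff63ff3fff9fffcfffedfff1fff3fff9fef5 9 6 8 .nil uc9_6_0 = true := by decide +kernel
noncomputable def tc9_6_3 : T := (.node 1 6 (.cons 0x9087612345 .nil) (.node 1 4 (.cons 0x9014567832 .nil) (.node 1 8 .nil (.node 4 9 (.cons 0x2387654901 (.cons 0x7654901832 .nil)) (.node 0 2 (.cons 0x9451023876 (.cons 0x7654381902 .nil)) (.node 2 9 (.cons 0x6783294510 .nil) (.leaf 0x923876541 5 (.leaf 0x3876541092 4 .done)) (.leaf 0x6781902345 3 .done)) (.node 0 2 (.cons 0x1567894320 (.cons 0x7651894320 .nil)) (.leaf 0x9876510234 2 (.leaf 0x6781902345 3 .done)) .done)) .done) (.node 4 9 (.cons 0x2387654901 .nil) (.leaf 0x945678321 1 (.node 1 7 (.cons 0x6549017832 .nil) (.node 6 9 (.cons 0x5410967832 .nil) (.node 2 5 (.cons 0x6943251780 .nil) (.leaf 0x4109678325 3 (.node 0 2 (.cons 0x8715694320 .nil) (.leaf 0x6915432087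 1 (.node 0 6 (.cons 0x7894321560 .nil) (.node 4 6 (.cons 0x9643251780 .nil) (.leaf 0x8346520917 2 .done) .done) .done)) (.node 0 6 (.cons 0x7894321560 .nil) (.node 3 6 (.cons 0x4963251780 .nil) (.leaf 0x1908763452 1 .done) (.leaf 0x8714906523 2 .done)) .done))) (.node 0 3 (.cons 0x8765430912 .nil) (.leaf 0x2154967803 0 (.node 1 3 .nil (.node 0 2 (.cons 0x4965178320 .nil) (.leaf 0x1345678902 2 (.leaf 0x8023154967 1 .done)) .done) (.leaf 0x8032154967 1 .done))) .done)) .done) (.node 6 9 (.cons 0x5410967832 .nil) (.node 7 9 (.cons 0x8097612345 .nil) (.node 2 9 (.cons 0x4567832901 .nil) (.node 3 9 (.cons 0x4512396780 .nil) (.node 5 9 (.cons 0x6780954321 .nil) .done .done) (.leaf 0x923876541 1 .done)) .done) .done) .done))) .done)) (.node 1 7 .nil (.node 2 5 (.cons 0x6780912543 (.cons 0x6719083452 .nil)) (.node 0 2 (.cons 0x8345671902 (.cons 0x6520917834 .nil)) (.node 1 4 (.cons 0x9014567832 .nil) (.leaf 0x914387652 4 (.leaf 0x8765419023 5 (.leaf 0x7832091456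 4 .done))) .done) (.node 2 6 (.cons 0x5438091762 .nil) (.leaf 0x8091762543 0 (.leaf 0x8091762543 1 .done)) .done)) (.node 1 4 (.cons 0x9014567832 .nil) (.node 3 6 (.cons 0x5436780912 .nil) (.node 2 5 (.cons 0x9125436780 .nil) (.node 2 6 (.cons 0x8345267190 .nil) (.node 6 8 (.cons 0x2543867190 .nil) (.node 4 6 (.cons 0x5238901764 .nil) (.node 3 5 (.cons 0x4352176890 .nil) (.node 1 3 (.cons 0x7809135462 .nil) .done .done) .done) .done) .done) (.node 3 5 .nil (.node 2 4 (.cons 0x7834256190 .nil) (.leaf 0x3421908765 5 (.leaf 0x9876534210 3 .done)) (.node 7 9 (.cons 0x6345219780 .nil) (.node 4 7 (.cons 0x5674109832 .nil) (.leaf 0x3890147652 4 (.node 2 4 (.cons 0x5243619780 .nil) (.leaf 0x7980163524 5 (.leaf 0x3524798016 2 .done)) .done)) (.node 0 5 (.cons 0x5089763214 .nil) (.leaf 0x7632145089 2 (.leaf 0x3679805412 3 .done)) .done)) .done)) (.leaf 0x1908763452 1 .done))) (.node 3 5 .nil (.node 2 4 (.cons 0x8765342190 .nil) (.leaf 0x6789014235 1 (.leaf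 0x3421908765 5 (.leaf 0x9876534210 2 (.leaf 0x9876534210 3 .done)))) (.node 2 5 (.cons 0x6780912543 .nil) (.node 1 3 .nil (.node 0 4 (.cons 0x9876512340 (.cons 0x5678904312 .nil)) (.leaf 0x1340987652 2 (.leaf 0x9876521340 5 .done)) .done) (.leaf 0x912543678 0 .done)) .done)) .done)) (.node 1 8 .nil (.node 0 2 (.cons 0x7654381902 .nil) (.node 4 9 (.cons 0x2387654901 (.cons 0x7654901832 (.cons 0x9451023876 (.cons 0x1567894320 .nil)))) .done (.node 7 9 (.cons 0x6541097832 (.cons 0x6543209781 .nil)) (.leaf 0x8790234561 1 .done) (.leaf 0x6781902345 3 .done))) .done) .done)) .done)) .done)) (.node 0 4 (.cons 0x5678904321 .nil) (.node 1 6 (.cons 0x9087612345 .nil) (.node 1 4 (.cons 0x9014567832 .nil) (.node 1 8 .nil (.node 2 7 (.cons 0x9045672381 .nil) (.node 0 2 (.cons 0x9165438720 .nil) (.leaf 0x6781902345 3 .done) (.node 3 5 (.cons 0x8912765340 .nil) (.leaf 0x1980435672 2 (.leaf 0x4098127653 1 .done)) (.leaf 0x3409815672 1 (.leaf 0x918327654 5 .done))))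 .done) (.node 1 7 (.cons 0x8904321765 .nil) (.node 5 9 (.cons 0x9543216780 .nil) (.node 4 6 (.cons 0x8712346590 .nil) (.leaf 0x1780956432 4 (.leaf 0x7123465908 5 .done)) (.node 1 8 (.cons 0x8176590432 .nil) (.node 2 8 (.cons 0x3456782190 .nil) (.leaf 0x5904328176 1 (.leaf 0x956718234 0 .done)) .done) (.leaf 0x2167809543 1 .done))) .done) .done)) (.node 1 7 (.cons 0x8904321765 .nil) (.node 1 8 .nil (.node 0 2 (.cons 0x5671983402 .nil) (.node 2 7 (.cons 0x6543872091 (.cons 0x9045672381 .nil)) (.leaf 0x3409815672 1 (.leaf 0x918327654 5 .done)) (.leaf 0x6781902345 3 .done)) (.node 1 4 (.cons 0x9014567832 .nil) (.node 1 3 .nil (.node 2 5 (.cons 0x2567198340 .nil) (.node 2 8 (.cons 0x3456782190 (.cons 0x7654091382 .nil)) .done (.leaf 0x1340987652 4 (.leaf 0x6789043125 5 .done))) .done) .done) .done)) (.node 1 4 (.cons 0x9014567832 .nil) (.node 1 8 .nil (.node 2 5 (.cons 0x6780912543 (.cons 0x9045238176 .nil)) (.leaf 0x8904325671 1 (.node 3 7 (.cons 0x5673409812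 .nil) (.leaf 0x6732189045 5 (.leaf 0x1890437652 4 (.leaf 0x1890437652 1 .done))) .done)) (.node 1 3 .nil (.node 5 8 (.cons 0x7658904321 (.cons 0x7658904312 .nil)) (.leaf 0x4321765890 0 (.leaf 0x2340985671 1 .done)) .done) .done)) (.node 7 9 (.cons 0x6541097832 .nil) (.node 1 8 (.cons 0x6790815432 .nil) (.node 2 8 (.cons 0x3456782190 .nil) (.leaf 0x3280976154 1 (.leaf 0x976154328 0 .done)) .done) (.node 2 4 (.cons 0x5614238790 .nil) (.leaf 0x7908324516 1 (.leaf 0x7908324516 4 .done)) .done)) .done)) .done)) .done)) (.leaf 0x2340987651 2 (.node 4 8 (.cons 0x7651234890 .nil) (.node 0 7 (.cons 0x9843215670 .nil) (.node 4 7 (.cons 0x4765109832 .nil) (.node 1 4 (.cons 0x9014567832 .nil) (.node 1 8 .nil (.node 2 4 (.cons 0x7651098324 (.cons 0x5670918342 .nil)) .done .done) .done) (.node 2 4 (.cons 0x8901567423 .nil) (.leaf 0x9015674238 2 (.node 0 2 (.cons 0x8902347651 .nil) (.node 1 8 (.cons 0x2347651890 .nil) (.leaf 0x4320981567 2 .done) .done) (.leaf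 0x1098324765 3 .done))) .done)) (.leaf 0x3215670984 1 .done)) (.node 1 8 .nil (.node 6 9 (.cons 0x7845690123 (.cons 0x7690812345 (.cons 0x7690815432 .nil))) (.node 4 7 (.cons 0x2380967451 (.cons 0x2381547690 (.cons 0x2347651890 .nil))) (.node 0 2 (.cons 0x9832015674 (.cons 0x7654381902 .nil)) (.node 0 3 (.cons 0x7489651230 (.cons 0x7456918302 .nil)) (.leaf 0x9654783021 2 .done) (.leaf 0x6781902345 3 .done)) .done) .done) (.node 1 4 (.cons 0x9014567832 .nil) (.node 4 9 (.cons 0x2387654901 .nil) (.leaf 0x945678321 1 (.node 1 6 (.cons 0x9087612345 .nil) (.node 1 7 .nil (.node 0 5 (.cons 0x9056123487 (.cons 0x8716509432 (.cons 0x9056178432 .nil))) .done .done) .done) .done)) .done) .done)) .done)) (.leaf 0x9876512340 5 .done)))) (.node 0 4 (.cons 0x5678904321 .nil) (.leaf 0x2340987651 4 (.node 0 3 (.cons 0x8765430912 .nil) (.node 0 2 .nil (.node 3 5 (.cons 0x4356789120 .nil) (.node 2 4 (.cons 0x9102456783 .nil) (.leaf 0x9024387651 4 (.leaf 0x9876534210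 3 .done)) .done) (.node 3 5 .nil (.node 2 4 (.cons 0x5678342091 .nil) (.leaf 0x3421908765 5 (.leaf 0x9024387651 4 (.leaf 0x9876534210 3 .done))) (.node 4 9 (.cons 0x4987653210 .nil) (.leaf 0x945678321 1 (.node 2 4 (.cons 0x5678342091 .nil) (.node 2 6 (.cons 0x2678354910 .nil) (.leaf 0x3549102678 1 (.node 4 7 (.cons 0x7426519830 .nil) (.leaf 0x5621987403 3 (.leaf 0x5621987403 2 .done)) .done)) (.leaf 0x9024387651 4 .done)) (.leaf 0x3567894012 2 .done))) .done)) .done)) (.node 0 2 .nil (.node 3 6 (.cons 0x5436780912 (.cons 0x9120876345 .nil)) (.node 2 4 (.cons 0x9102456783 .nil) (.leaf 0x9024387651 4 (.node 5 7 (.cons 0x6578904321 (.cons 0x6578912043 (.cons 0x8367542091 .nil))) (.leaf 0x2043657891 3 (.leaf 0x4021987563 2 .done)) .done)) .done) (.node 1 8 (.cons 0x7654381902 .nil) (.node 4 8 (.cons 0x5678430912 .nil) (.node 2 5 (.cons 0x9034876521 .nil) (.leaf 0x6784309125 2 (.node 3 6 (.cons 0x5436780912 .nil) (.leaf 0x1908763452 1 (.leaf 0x912543678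 0 .done)) .done)) .done) .done) .done)) .done)) (.node 1 8 .nil (.node 3 5 (.cons 0x7653409812 .nil) (.node 2 4 (.cons 0x9018324567 .nil) (.leaf 0x1908765342 4 (.leaf 0x3421908765 5 (.leaf 0x9876534210 2 (.leaf 0x9876534210 3 .done)))) (.node 2 5 (.cons 0x3409876521 (.cons 0x7652189043 .nil)) (.node 2 7 (.cons 0x6512789043 .nil) (.node 3 6 (.cons 0x9872156340 .nil) (.leaf 0x912543678 0 (.leaf 0x1563409872 2 .done)) (.leaf 0x1890435672 4 (.leaf 0x6721890435 5 .done))) .done) .done)) (.node 4 8 .nil (.node 0 7 (.cons 0x9078432156 .nil) (.leaf 0x2348907651 4 (.node 0 5 (.cons 0x7650984321 .nil) (.node 0 6 (.cons 0x9065123487 .nil) (.node 7 9 (.cons 0x9760812345 (.cons 0x5067981234 .nil)) (.leaf 0x4567901238 0 .done) .done) .done) .done)) (.node 2 8 (.cons 0x3456782190 .nil) (.node 2 5 (.cons 0x3409876521 .nil) (.node 3 9 (.cons 0x1256789340 .nil) (.leaf 0x2567893401 0 (.leaf 0x2567893401 4 (.leaf 0x2567893401 1 .done))) (.node 6 8 (.cons 0x7680912543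 .nil) (.node 5 8 .nil (.node 1 3 (.cons 0x5678904312 (.cons 0x7658904312 .nil)) (.leaf 0x4098765213 3 (.node 1 6 (.cons 0x7619083452 (.cons 0x9085432167 .nil)) .done .done)) .done) .done) .done)) .done) .done)) .done)) (.leaf 0x8904321567 4 .done)))) .done)))
noncomputable def tc9_6_4 : T := (.node 1 4 (.cons 0x9014567832 .nil) (.leaf 0x5678329014 4 (.node 3 9 .nil (.node 1 5 (.cons 0x4321567890 (.cons 0x6780934512 .nil)) (.node 4 6 (.cons 0x9238015467 (.cons 0x9321087645 (.cons 0x7645108392 .nil))) (.leaf 0x7809321546 2 .done) (.node 2 5 (.cons 0x7652389014 .nil) (.node 4 6 (.cons 0x9321087645 (.cons 0x2546783910 (.cons 0x8764523910 .nil))) (.leaf 0x7645239108 1 .done) (.node 2 8 (.cons 0x1287654390 .nil) (.leaf 0x145678239 1 (.leaf 0x7654390128 3 (.node 0 7 (.cons 0x8325419076 (.cons 0x6543907821 .nil)) (.node 4 8 (.cons 0x7654832901 (.cons 0x2567093841 .nil)) (.leaf 0x7652148390 3 .done) (.node 1 6 (.cons 0x4523876190 (.cons 0x5239807614 (.cons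 0x7821654390 .nil))) (.leaf 0x3907821654 4 .done) .done)) .done))) .done)) .done)) (.node 4 9 (.cons 0x2387654901 .nil) (.node 4 8 (.cons 0x7654832901 .nil) (.node 4 6 .nil (.node 1 5 (.cons 0x4321567890 (.cons 0x9238015467 .nil)) (.leaf 0x923876451 5 (.leaf 0x6451092387 2 .done)) (.node 6 9 (.cons 0x7845693210 .nil) (.node 5 9 (.cons 0x6780954321 .nil) (.node 7 9 (.cons 0x6548793210 .nil) .done .done) .done) .done)) (.node 0 4 (.cons 0x5678904321 .nil) (.node 4 6 .nil (.node 1 5 (.cons 0x4321567890 (.cons 0x9238015467 .nil)) (.leaf 0x923876451 5 (.leaf 0x6451092387 2 .done)) (.node 5 9 (.cons 0x2387645910 .nil) (.leaf 0x876459321 2 (.node 5 7 (.cons 0x4657893210 .nil) (.leaf 0x3987564012 0 (.leaf 0x6578932104 1 (.node 7 9 (.cons 0x5467923801 .nil) .done .done))) .done)) .done)) .done) .done)) (.node 5 9 (.cons 0x6780954321 .nil) (.node 6 9 .nil (.node 1 3 (.cons 0x6780954312 (.cons 0x2134596780 .nil)) (.node 2 5 (.cons 0x7652389014 (.cons 0x4523876910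 (.cons 0x7690832541 .nil))) (.leaf 0x876945231 2 .done) .done) (.node 7 9 .nil (.node 2 6 (.cons 0x3459087621 (.cons 0x3801459762 .nil)) (.leaf 0x3879014562 1 .done) .done) .done)) (.node 1 6 (.cons 0x7614590832 .nil) (.leaf 0x2167809543 1 (.node 1 3 (.cons 0x8765490132 .nil) (.node 1 7 (.cons 0x6714590832 .nil) (.node 1 5 (.cons 0x4321567890 .nil) (.node 2 5 (.cons 0x4987652310 .nil) (.leaf 0x8094325167 1 .done) .done) .done) .done) (.leaf 0x7809543216 0 .done))) .done)) .done)) .done)) (.leaf 0x923876541 5 (.leaf 0x6541092387 2 .done)))) (.node 4 9 (.cons 0x2387654901 .nil) (.leaf 0x945678321 1 (.node 1 4 (.cons 0x9014567832 .nil) (.leaf 0x5678329014 1 (.node 3 9 .nil (.node 2 8 (.cons 0x3945678210 .nil) (.leaf 0x145678239 1 (.node 0 7 (.cons 0x2839076541 (.cons 0x8239076541 .nil)) (.leaf 0x6541283907 0 (.node 3 5 (.cons 0x8214935670 .nil) (.leaf 0x2807653941 5 (.leaf 0x941283567 0 .done)) .done)) .done)) (.node 5 9 (.cons 0x6780954321 .nil)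 (.node 7 9 .nil (.node 4 8 (.cons 0x8456793210 (.cons 0x6548790123 .nil)) (.leaf 0x976548321 1 .done) (.node 6 9 .nil (.node 2 4 (.cons 0x5423876910 (.cons 0x5423876901 .nil)) (.node 1 6 (.cons 0x2345908761 .nil) (.leaf 0x7832459016 1 (.leaf 0x2387901654 0 (.leaf 0x8324561097 1 .done))) .done) .done) .done)) (.node 1 6 (.cons 0x7614590832 .nil) (.leaf 0x2167809543 1 (.node 3 6 (.cons 0x4590876321 .nil) (.node 2 5 (.cons 0x5216780943 .nil) (.leaf 0x125493678 2 (.node 0 2 (.cons 0x7836549201 .nil) (.node 3 5 (.cons 0x4953678021 .nil) (.leaf 0x9412087635 1 .done) .done) .done)) .done) (.leaf 0x7809543216 0 .done))) .done)) .done)) (.node 3 9 .nil (.node 0 4 (.cons 0x5678904321 .nil) (.node 1 8 (.cons 0x2187654390 .nil) (.node 0 2 (.cons 0x5678120943 .nil) (.leaf 0x3456781902 2 .done) (.node 7 9 (.cons 0x8104567932 (.cons 0x8123976540 .nil)) .done .done)) (.leaf 0x3987654012 1 .done)) (.node 4 8 .nil (.node 7 9 (.cons 0x6541097832 .nil) (.node 1 8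 (.cons 0x2397654810 .nil) (.node 0 7 (.cons 0x5670934812 .nil) (.leaf 0x9076548123 1 (.node 3 6 (.cons 0x8790145632 (.cons 0x9210784563 (.cons 0x5634870921 .nil))) .done .done)) .done) (.leaf 0x4567901238 0 .done)) (.node 7 9 (.cons 0x8456793210 .nil) (.node 5 9 (.cons 0x6780954321 .nil) (.node 6 9 (.cons 0x7693210845 .nil) .done .done) (.node 5 9 (.cons 0x6780954321 .nil) (.node 6 9 (.cons 0x7693210845 .nil) .done .done) .done)) .done)) .done)) .done))) (.node 2 8 (.cons 0x3287654901 .nil) (.node 3 9 .nil (.node 1 4 (.cons 0x9014567832 .nil) (.leaf 0x5678329014 1 (.node 2 7 (.cons 0x5672389014 .nil) (.leaf 0x3890145672 1 (.leaf 0x1456728390 5 (.node 7 9 (.cons 0x2839765410 .nil) .done .done))) (.leaf 0x9321456780 3 (.node 0 2 (.cons 0x5678902143 (.cons 0x9382014567 (.cons 0x5678201493 .nil))) .done .done)))) (.node 1 8 (.cons 0x7654932810 .nil) (.node 0 7 (.cons 0x8239456701 .nil) (.leaf 0x2394567018 3 (.node 7 9 (.cons 0x6543218790 .nil) (.node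 5 9 (.cons 0x6780954321 .nil) (.node 6 9 (.cons 0x7812345690 .nil) .done .done) .done) (.leaf 0x2394567018 2 .done))) (.node 4 8 .nil (.node 7 9 (.cons 0x3976548210 .nil) (.leaf 0x976548321 1 (.leaf 0x4567901238 0 .done)) (.node 1 4 (.cons 0x9014567832 .nil) (.leaf 0x5678329014 1 (.node 5 8 (.cons 0x6785432190 .nil) (.node 6 8 .nil (.node 0 4 (.cons 0x5678904321 .nil) (.node 1 7 (.cons 0x8239456710 (.cons 0x3294568710 (.cons 0x5687129043 .nil))) .done .done) .done) .done) .done)) .done)) .done)) .done)) (.node 3 9 .nil (.node 1 4 (.cons 0x9014567832 .nil) (.leaf 0x5678329014 1 (.node 0 7 (.cons 0x2839076541 (.cons 0x8239076541 .nil)) (.leaf 0x6541283907 0 (.node 5 8 (.cons 0x6785432190 (.cons 0x1493285670 (.cons 0x8567093412 .nil))) (.leaf 0x934128567 4 .done) .done)) (.leaf 0x9321456780 3 (.node 0 2 (.cons 0x5678902143 .nil) (.node 0 4 (.cons 0x5678904321 .nil) (.node 1 3 (.cons 0x1328765490 .nil) (.leaf 0x6541390287 0 (.leaf 0x9312876540 5 (.leaf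 0x9314567820 1 (.leaf 0x7654901328 2 .done)))) .done) (.leaf 0x6783902145 2 .done)) .done)))) (.node 1 3 (.cons 0x1328765490 .nil) (.node 3 5 .nil (.node 0 4 (.cons 0x5678904321 (.cons 0x6782190453 .nil)) (.leaf 0x3567894012 3 (.leaf 0x3567894012 2 .done)) (.node 1 5 (.cons 0x4321567890 .nil) (.node 2 5 (.cons 0x4987652310 .nil) (.node 0 3 (.cons 0x4987652301 .nil) (.node 3 6 (.cons 0x8763254910 .nil) .done .done) .done) (.node 3 6 (.cons 0x9087634512 .nil) (.leaf 0x1290876345 1 .done) .done)) .done)) (.node 3 5 .nil (.node 0 4 (.cons 0x5678904321 (.cons 0x6782190453 .nil)) (.leaf 0x3567894012 3 (.leaf 0x3567894012 2 .done)) (.node 0 4 (.cons 0x2356789401 .nil) (.leaf 0x3567894012 3 (.leaf 0x3567894012 2 (.node 0 2 (.cons 0x4987653201 .nil) (.node 2 5 (.cons 0x6789125340 .nil) .done (.leaf 0x4356789120 2 .done)) .done))) .done)) (.leaf 0x7654901328 2 .done))) .done)) .done)) .done))) (.node 1 4 (.cons 0x1456783290 .nil) (.node 2 8 .nil (.node 3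 9 (.cons 0x1287654390 .nil) (.leaf 0x5678239014 0 (.leaf 0x5678239014 4 (.leaf 0x2876543901 2 .done))) (.node 2 6 .nil (.node 7 9 (.cons 0x9762380145 .nil) (.leaf 0x5623879014 1 (.leaf 0x5623879014 4 (.leaf 0x5623879014 0 .done))) (.node 2 5 .nil (.node 1 7 (.cons 0x8345267190 .nil) (.leaf 0x3452671908 4 (.leaf 0x3452671908 1 .done)) (.node 1 5 (.cons 0x4321567890 .nil) (.node 2 4 (.cons 0x7651098324 .nil) (.node 4 7 (.cons 0x4765109832 .nil) (.node 3 6 (.cons 0x1256347890 .nil) (.leaf 0x1524763890 5 (.leaf 0x152476389 4 .done)) (.leaf 0x1098324765 3 .done)) .done) (.node 0 2 (.cons 0x6783451902 .nil) (.leaf 0x3451902678 1 .done) .done)) .done)) (.node 1 6 (.cons 0x9087612345 .nil) (.node 7 9 (.cons 0x5416792380 .nil) (.node 2 5 (.cons 0x2543809761 .nil) (.node 0 2 (.cons 0x1438976520 .nil) (.leaf 0x8976520143 4 .done) (.leaf 0x9083452167 2 .done)) (.node 1 5 (.cons 0x9761543280 .nil) (.node 2 5 (.cons 0x5234167980 .nil) (.node 4 7 (.cons 0x9832567410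 .nil) (.leaf 0x2389014765 0 (.leaf 0x8325674109 1 .done)) .done) (.leaf 0x7615432809 4 .done)) .done)) (.node 2 7 .nil (.node 3 9 (.cons 0x5439087612 (.cons 0x5416729380 (.cons 0x8721654390 .nil))) .done (.node 2 5 (.cons 0x2543876190 .nil) (.node 4 7 (.cons 0x9832567410 .nil) (.leaf 0x8325674109 1 (.node 7 9 (.cons 0x2543809761 .nil) (.leaf 0x834521679 1 .done) .done)) (.node 0 2 (.cons 0x5438761902 .nil) (.node 1 5 (.cons 0x4321567890 .nil) (.node 2 4 (.cons 0x5167243890 .nil) .done .done) .done) .done)) .done)) .done)) .done))) (.node 1 8 .nil (.node 0 5 (.cons 0x6783291450 (.cons 0x7650981234 (.cons 0x6781905432 .nil))) (.node 0 4 (.cons 0x5678904321 (.cons 0x7654092381 (.cons 0x3290456781 .nil))) (.node 1 3 (.cons 0x2904567831 .nil) (.leaf 0x6540923187 4 (.leaf 0x5678132904 5 (.node 4 8 (.cons 0x5678409213 .nil) .done .done))) .done) (.node 3 6 (.cons 0x8763450912 .nil) (.leaf 0x1905436782 1 (.leaf 0x1290543678 1 (.leaf 0x912876345 0 .done)))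 .done)) (.node 4 8 .nil (.node 1 7 (.cons 0x1765483290 .nil) (.leaf 0x3845671092 1 (.leaf 0x3845671092 4 .done)) .done) .done)) .done))) (.leaf 0x3876541092 1 (.leaf 0x3876541092 4 (.node 0 3 (.cons 0x2903876541 .nil) (.node 3 5 (.cons 0x2143567890 .nil) (.node 0 4 (.cons 0x3567892140 .nil) (.node 4 9 (.cons 0x4987653210 .nil) (.leaf 0x945678321 1 (.leaf 0x3567894012 2 .done)) (.leaf 0x9876530412 1 .done)) (.node 3 9 .nil (.node 0 2 (.cons 0x5678902143 .nil) (.node 0 4 (.cons 0x5678904321 .nil) (.leaf 0x3987654012 1 .done) (.leaf 0x6783902145 2 .done)) .done) .done)) (.leaf 0x5412903876 2 (.node 2 5 (.cons 0x3412567890 .nil) (.node 4 9 (.cons 0x6783254910 .nil) (.leaf 0x945678321 1 (.leaf 0x3876529410 2 (.node 2 8 (.cons 0x3287654901 .nil) (.node 0 2 (.cons 0x5678902143 .nil) (.node 3 7 (.cons 0x8941025673 .nil) (.leaf 0x1025673894 4 (.leaf 0x1025673894 0 .done)) .done) .done) .done))) (.leaf 0x4125678903 4 (.node 2 8 (.cons 0x9034128765 .nil)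 (.node 0 2 (.cons 0x5678902143 .nil) (.node 1 7 (.cons 0x5671438902 .nil) (.node 1 5 (.cons 0x4321567890 .nil) (.node 0 4 (.cons 0x5678904321 .nil) (.leaf 0x2340987651 2 (.leaf 0x9876512340 5 .done)) .done) (.leaf 0x983417652 1 .done)) .done) .done) .done))) .done))) .done)))) .done)))
noncomputable def tc9_6_5 : T := (.node 1 8 .nil (.node 3 9 (.cons 0x2187654390 .nil) (.node 6 9 (.cons 0x7690812345 (.cons 0x2154396780 (.cons 0x4510876932 (.cons 0x4512396780 .nil)))) .done (.node 2 9 (.cons 0x4567832901 .nil) (.node 4 9 (.cons 0x6783294510 .nil) (.node 0 6 (.cons 0x3876015492 (.cons 0x9234518760 .nil)) (.node 2 7 (.cons 0x5127608943 (.cons 0x2765493810 (.cons 0x5183492760 (.cons 0x3815492760 .nil)))) .done (.leaf 0x8760154923 4 (.node 2 4 (.cons 0x9245106783 (.cons 0x7601839245 (.cons 0x9018324567 .nil))) (.node 2 5 (.cons 0x7609254381 .nil) (.leaf 0x4390678125 1 (.leaf 0x1876093452 1 .done)) .done) .done))) (.node 0 6 (.cons 0x8760154923 (.cons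 0x9234518760 .nil)) (.leaf 0x1549238760 4 (.leaf 0x7601549238 5 (.leaf 0x5106783294 2 .done))) .done)) (.node 1 4 (.cons 0x7654183290 .nil) (.leaf 0x7832901456 0 (.node 0 3 (.cons 0x2903876541 .nil) (.leaf 0x1876543092 2 (.node 2 5 (.cons 0x3412567890 (.cons 0x7652903814 .nil)) (.leaf 0x8143092567 4 .done) .done)) .done)) .done)) (.node 2 9 (.cons 0x4567832901 .nil) (.node 0 7 (.cons 0x8709123456 (.cons 0x2907654381 (.cons 0x4329815670 .nil))) (.node 4 9 (.cons 0x2387654901 (.cons 0x2943815670 .nil)) (.leaf 0x1832945670 5 .done) .done) (.node 1 4 (.cons 0x7654183290 .nil) (.leaf 0x7832901456 0 (.node 0 3 (.cons 0x2903876541 (.cons 0x7654183092 .nil)) (.leaf 0x1876543092 2 (.node 2 5 (.cons 0x3412567890 (.cons 0x7652903814 .nil)) (.leaf 0x8143092567 4 .done) .done)) .done)) .done)) .done))) (.node 1 4 (.cons 0x9014567832 .nil) (.node 1 6 (.cons 0x9087612345 .nil) (.node 2 9 (.cons 0x3456781290 .nil) (.node 2 7 (.cons 0x1834567290 .nil) (.leaf 0x6543810927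 4 (.leaf 0x3890145672 1 (.leaf 0x9276543810 5 (.node 0 4 (.cons 0x9832765140 .nil) (.node 1 7 (.cons 0x6540927183 .nil) (.node 1 3 .nil (.node 4 8 (.cons 0x7654832901 .nil) (.leaf 0x6548310927 2 .done) .done) .done) (.leaf 0x6723890415 2 (.leaf 0x6723890415 3 .done))) .done)))) (.node 3 9 (.cons 0x2187654390 .nil) (.node 3 6 (.cons 0x5436781290 .nil) (.node 6 8 (.cons 0x7865432190 .nil) (.node 1 7 (.cons 0x5417683290 .nil) (.node 1 3 .nil (.node 5 7 (.cons 0x1457683290 (.cons 0x4576809312 (.cons 0x8675413290 .nil))) (.leaf 0x4132908675 0 .done) .done) .done) .done) .done) .done) (.leaf 0x3876541092 1 .done))) .done) (.node 2 9 (.cons 0x3456781290 .nil) (.node 1 7 (.cons 0x8329017654 .nil) (.node 1 6 (.cons 0x9087612345 .nil) (.node 1 3 .nil (.node 0 7 (.cons 0x2907654381 (.cons 0x8134567092 .nil)) (.node 2 4 (.cons 0x5671834290 (.cons 0x5670138924 .nil)) (.leaf 0x3107654298 3 .done) .done) .done) .done) .done) (.node 3 9 (.cons 0x2187654390 .nil)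 (.node 3 5 .nil (.node 2 4 (.cons 0x7653421890 .nil) (.node 0 4 (.cons 0x7653409812 (.cons 0x6789215340 (.cons 0x9876510423 .nil))) (.leaf 0x2401567893 1 .done) (.leaf 0x8765324109 2 (.leaf 0x9876534210 2 .done))) (.node 0 3 (.cons 0x9034567812 .nil) (.node 1 3 .nil (.node 0 6 (.cons 0x9238760154 (.cons 0x8760921345 (.cons 0x5431876092 .nil))) (.node 5 8 (.cons 0x7609218543 .nil) (.leaf 0x9213458760 0 .done) .done) .done) .done) .done)) .done) (.leaf 0x7832901456 0 .done))) .done)) .done)) (.node 0 4 (.cons 0x5678904321 .nil) (.node 1 8 .nil (.node 2 9 (.cons 0x4567832901 (.cons 0x7654092381 .nil)) (.node 2 7 (.cons 0x9045672381 .nil) (.leaf 0x5672901834 2 (.leaf 0x6543810927 4 (.leaf 0x3409815672 1 (.leaf 0x9276543810 5 .done)))) (.node 7 9 (.cons 0x6790815432 .nil) (.leaf 0x4018329765 2 (.node 0 2 (.cons 0x4381567902 .nil) (.leaf 0x3456781902 3 (.leaf 0x4567902183 4 .done)) (.node 2 4 (.cons 0x6790832451 .nil) (.node 0 6 (.cons 0x1978324560 (.cons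 0x7918324065 (.cons 0x3815429760 (.cons 0x5432906781 .nil)))) .done (.leaf 0x8324567901 4 .done)) .done))) .done)) (.node 1 4 (.cons 0x9014567832 .nil) (.node 6 8 (.cons 0x7865432190 .nil) (.node 1 6 (.cons 0x9087612345 .nil) (.node 1 7 (.cons 0x8904321765 .nil) (.node 5 8 (.cons 0x7658904321 .nil) (.leaf 0x4098567123 0 (.leaf 0x6589043217 1 .done)) .done) .done) (.node 3 5 (.cons 0x7689041235 .nil) (.node 4 9 (.cons 0x4987653210 .nil) (.leaf 0x6532104987 2 (.leaf 0x3567894012 3 .done)) (.node 5 8 (.cons 0x7658904321 .nil) (.node 1 3 (.cons 0x7658904312 .nil) (.node 0 3 .nil (.node 2 9 (.cons 0x4567832901 (.cons 0x7685412903 (.cons 0x6785430921 (.cons 0x6785412903 .nil)))) .done .done) .done) .done) .done)) .done)) (.node 4 8 (.cons 0x7651234890 .nil) (.node 1 6 (.cons 0x9087612345 .nil) (.node 1 7 (.cons 0x8904321765 .nil) (.node 1 3 .nil (.node 5 8 (.cons 0x7658904321 (.cons 0x7658904312 .nil)) (.leaf 0x2340985671 1 .done) .done) .done) .done)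 .done) .done)) (.node 3 5 (.cons 0x7653409812 .nil) (.node 4 9 (.cons 0x4987653210 .nil) (.node 1 4 (.cons 0x9014567832 .nil) (.node 2 4 (.cons 0x7651098324 .nil) (.node 4 8 (.cons 0x7651234890 .nil) .done .done) .done) (.leaf 0x6532104987 2 (.leaf 0x3567894012 3 .done))) (.node 0 3 (.cons 0x9034567812 .nil) (.node 0 2 (.cons 0x9021876543 .nil) (.node 2 7 (.cons 0x5672189043 .nil) (.leaf 0x4098127653 1 (.node 2 4 (.cons 0x7651098324 .nil) (.node 2 5 (.cons 0x7652189043 .nil) (.node 3 7 (.cons 0x5673409812 .nil) (.leaf 0x8125673409 2 .done) .done) .done) (.leaf 0x4098127653 4 (.node 3 9 (.cons 0x2187654390 .nil) (.leaf 0x5672183904 0 (.leaf 0x7654093812 1 .done)) .done)))) .done) .done) .done)) .done))) (.leaf 0x2340987651 2 (.node 1 4 (.cons 0x9014567832 .nil) (.node 4 8 (.cons 0x7651234890 .nil) (.node 4 7 (.cons 0x4765109832 .nil) (.node 4 9 (.cons 0x2387654901 .nil) (.leaf 0x945678321 1 (.node 2 4 (.cons 0x7651098324 .nil) (.node 4 6 .nil (.node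 2 7 (.cons 0x5108946723 (.cons 0x9015648327 (.cons 0x9083276451 .nil))) (.leaf 0x3890154672 1 .done) .done) .done) .done)) (.node 2 4 (.cons 0x8901567423 .nil) (.leaf 0x9015674238 2 (.leaf 0x1098324765 3 .done)) .done)) .done) (.node 4 9 (.cons 0x2387654901 .nil) (.leaf 0x945678321 1 (.node 4 7 (.cons 0x4765109832 .nil) (.node 4 8 (.cons 0x7651234890 .nil) (.node 2 4 (.cons 0x9832476510 .nil) (.node 2 9 (.cons 0x6547832910 .nil) (.node 4 6 (.cons 0x5467832901 .nil) .done (.leaf 0x7832901456 0 .done)) .done) .done) .done) .done)) .done)) (.leaf 0x9876512340 5 .done)))) (.node 3 9 (.cons 0x6780934512 .nil) (.node 2 9 (.cons 0x4567832901 .nil) (.node 0 3 (.cons 0x4309876512 .nil) (.node 2 4 (.cons 0x3421567890 .nil) (.leaf 0x1567890342 2 (.node 0 7 (.cons 0x2438907651 .nil) (.leaf 0x6512438907 4 (.leaf 0x9834215670 5 (.node 1 8 (.cons 0x9018324567 .nil) (.node 0 2 (.cons 0x4398156702 .nil) (.node 2 6 (.cons 0x8154392670 .nil) (.leaf 0x7834510926 4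 (.leaf 0x5180762934 2 .done)) .done) .done) .done))) (.node 3 6 (.cons 0x8763451290 .nil) (.node 3 5 .nil (.node 4 6 (.cons 0x5467832901 (.cons 0x7890124653 (.cons 0x7892463510 .nil))) (.leaf 0x3512908764 0 .done) .done) (.node 5 9 (.cons 0x6780954321 .nil) (.leaf 0x876342159 4 (.leaf 0x8095124367 2 .done)) .done)) .done))) (.node 4 8 (.cons 0x9034876512 .nil) (.leaf 0x7651290348 5 (.leaf 0x3092156784 4 (.leaf 0x348765129 2 .done))) .done)) (.node 1 4 (.cons 0x1456783290 .nil) (.node 1 8 .nil (.node 0 3 (.cons 0x4309876512 .nil) (.leaf 0x1876543092 2 (.node 2 4 (.cons 0x9241567830 (.cons 0x7651830924 .nil)) (.leaf 0x3876514290 2 (.leaf 0x3876514290 3 .done)) .done)) .done) (.leaf 0x3876541092 1 (.leaf 0x7832901456 0 .done))) .done)) (.node 2 9 (.cons 0x4567832901 .nil) (.node 2 6 (.cons 0x8762154390 .nil) (.node 1 8 .nil (.node 0 7 (.cons 0x9267083451 (.cons 0x4381567092 (.cons 0x2907654381 (.cons 0x8154392670 .nil)))) .done (.node 4 9 (.cons 0x2678394510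 .nil) (.node 4 8 (.cons 0x7629384510 .nil) (.node 2 4 (.cons 0x9387624510 .nil) (.node 6 9 (.cons 0x5423876901 .nil) (.leaf 0x967832451 5 (.leaf 0x7832451096 4 .done)) .done) .done) (.node 0 7 (.cons 0x9267083451 .nil) (.leaf 0x1832945670 5 (.leaf 0x5670183294 2 (.leaf 0x4519267083 4 .done))) .done)) .done)) (.node 0 2 .nil (.node 1 4 (.cons 0x9014567832 (.cons 0x7651438920 (.cons 0x7651438902 (.cons 0x9026783415 .nil)))) .done (.node 1 8 .nil (.node 0 5 (.cons 0x8762150934 (.cons 0x7650981234 (.cons 0x4390518762 .nil))) .done (.node 1 6 (.cons 0x7615438092 .nil) (.node 1 4 (.cons 0x9014567832 .nil) (.node 2 4 (.cons 0x7834265190 .nil) (.node 2 5 (.cons 0x9014523876 .nil) (.node 0 6 (.cons 0x5124398760 .nil) (.leaf 0x4523876091 2 (.leaf 0x1542938760 3 .done)) .done) .done) .done) .done) .done)) .done)) (.leaf 0x7621543908 1 .done))) (.node 1 4 (.cons 0x1456783290 .nil) (.node 1 8 .nil (.node 0 3 (.cons 0x4309876512 .nil) (.node 4 7 (.cons 0x8903476512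 (.cons 0x6745183092 (.cons 0x5674309812 (.cons 0x5674189230 .nil)))) .done (.leaf 0x1876543092 2 (.node 2 4 (.cons 0x9241567830 (.cons 0x7651830924 .nil)) (.leaf 0x3876514290 2 (.leaf 0x3876514290 3 .done)) .done))) .done) (.leaf 0x3876541092 1 (.leaf 0x7832901456 0 .done))) .done)) .done)) .done)))
noncomputable def uc9_6_1 : T := (.leaf 0x4321908765 3 (.node 1 5 (.cons 0x4321567890 .nil) tc9_6_5 (.node 2 9 (.cons 0x4567832901 .nil) tc9_6_4 (.node 1 5 (.cons 0x4321567890 .nil) tc9_6_3 .done))))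
theorem sub_c9_6_1 : root 9 refs9_6 [] 0x400000008407000200507060000000060500000000504000000004010000200010300000000302000000002018500000010 0xfeefff4bff3fff9fffcfffedfff1fff3fff9fedd 9 1 9 (.cons 0x8765432190 .nil) uc9_6_1 = true := by decide +kernel
noncomputable def tc9_6_6 : T := (.node 2 9 (.cons 0x4567832901 .nil) (.node 1 4 (.cons 0x9014567832 .nil) (.leaf 0x5678329014 1 (.node 3 9 .nil (.node 2 4 (.cons 0x3421567890 (.cons 0x6783901542 .nil)) (.leaf 0x5124390876 4 (.node 2 6 (.cons 0x9014562387 .nil) (.node 0 4 (.cons 0x5678904321 (.cons 0x5126789340 (.cons 0x7839265401 .nil))) (.leaf 0x3987654012 1 .done) (.leaf 0x9345126780 4 (.leaf 0x3901542678 2 .done))) .done)) (.node 2 6 (.cons 0x8762154390 .nil) (.node 1 6 (.cons 0x7832901654 .nil) (.node 4 7 (.cons 0x6293874510 .nil) (.node 0 5 (.cons 0x4398762150 .nil) (.leaf 0x4321980567 3 (.leaf 0x4321980567 2 .done)) (.node 3 6 (.cons 0x9263874510 .nil) (.leaf 0x1547836290 0 .done) (.leaf 0x923874561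 4 (.leaf 0x923874561 0 .done)))) .done) (.node 2 4 (.cons 0x3421567890 .nil) (.leaf 0x3901542678 1 (.node 3 7 (.cons 0x5109837624 .nil) (.leaf 0x6245109837 2 (.node 6 9 (.cons 0x5423876901 .nil) (.node 1 3 (.cons 0x7809654312 .nil) (.node 3 6 (.cons 0x5124367890 .nil) .done .done) (.leaf 0x967832451 5 (.leaf 0x7832451096 4 .done))) .done)) .done)) (.leaf 0x9345126780 4 (.leaf 0x9345126780 1 .done)))) .done)) (.leaf 0x923876541 1 .done))) (.node 3 6 (.cons 0x8763451290 .nil) (.node 1 6 .nil (.node 0 5 (.cons 0x4367892150 .nil) (.node 2 4 (.cons 0x3421567890 (.cons 0x9016542387 .nil)) (.leaf 0x3876150924 1 (.node 0 7 (.cons 0x2438907651 (.cons 0x5167098342 (.cons 0x8342907615 (.cons 0x7089243615 .nil)))) (.leaf 0x6389245107 4 .done) .done)) (.leaf 0x7612345098 2 .done)) (.node 0 5 (.cons 0x4367892150 .nil) (.node 2 4 (.cons 0x5167834290 .nil) (.leaf 0x3876150924 1 (.node 1 7 (.cons 0x5671098324 .nil) (.leaf 0x6542389017 1 (.leaf 0x983245671 1 .done))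 (.node 0 2 .nil (.node 1 7 (.cons 0x8905671234 (.cons 0x6715029834 .nil)) (.leaf 0x8902436517 1 .done) (.node 0 3 (.cons 0x4309876512 .nil) (.node 2 6 (.cons 0x1543876290 .nil) (.leaf 0x1543098762 1 (.node 1 3 (.cons 0x4513876290 .nil) (.node 0 4 (.cons 0x5129876340 .nil) (.leaf 0x9267831540 4 (.leaf 0x2904513876 2 .done)) .done) .done)) .done) .done)) .done))) (.node 0 6 (.cons 0x2906783451 .nil) (.leaf 0x9215438760 1 (.node 0 4 (.cons 0x5129876340 .nil) (.leaf 0x9876340512 1 (.node 5 7 (.cons 0x9087561234 .nil) (.node 2 5 (.cons 0x4387615290 .nil) (.leaf 0x3876152904 1 (.leaf 0x3876152904 4 (.node 5 8 (.cons 0x6758912340 .nil) .done .done))) (.node 6 8 (.cons 0x2386754091 .nil) (.leaf 0x4091238675 0 .done) .done)) .done)) .done)) .done)) .done)) (.node 3 9 .nil (.node 2 6 (.cons 0x1543876290 .nil) (.leaf 0x7834510926 4 (.leaf 0x9345126780 4 (.leaf 0x9345126780 1 .done))) (.node 2 8 (.cons 0x7638290154 .nil) (.node 1 8 .nil (.node 0 7 (.cons 0x9283670154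 (.cons 0x6543907812 (.cons 0x9281543670 .nil))) (.leaf 0x4328190765 4 (.leaf 0x1543670928 1 .done)) (.node 4 8 (.cons 0x7638451092 .nil) (.node 4 9 (.cons 0x7638294510 .nil) (.node 3 5 (.cons 0x6781094532 .nil) (.node 5 7 (.cons 0x9457632810 .nil) (.leaf 0x6328109457 4 (.leaf 0x3675490182 2 .done)) .done) .done) .done) .done)) (.node 4 7 (.cons 0x1547638290 .nil) (.leaf 0x3674510928 2 (.node 3 5 (.cons 0x4763512890 .nil) (.node 5 8 (.cons 0x5890123674 .nil) .done .done) (.leaf 0x6382901547 4 (.leaf 0x5476382901 5 .done)))) .done)) .done)) (.leaf 0x9215436780 0 .done))) (.node 1 4 (.cons 0x1456783290 .nil) (.node 1 6 .nil (.node 1 7 (.cons 0x9087123456 .nil) (.node 4 7 (.cons 0x3290874561 .nil) (.leaf 0x3874561092 4 (.leaf 0x6547832901 4 .done)) (.leaf 0x871654329 4 .done)) (.node 1 7 (.cons 0x9087123456 .nil) (.node 1 8 .nil (.node 1 3 (.cons 0x4567813290 .nil) (.node 0 4 (.cons 0x5678904321 (.cons 0x7654092381 (.cons 0x3290456781 .nil))) (.leaf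 0x9231876540 4 (.leaf 0x5678132904 5 .done)) .done) .done) .done) .done)) (.leaf 0x3876541092 4 (.leaf 0x7832901456 0 .done))) .done))) (.node 2 9 (.cons 0x4567832901 .nil) (.node 3 9 .nil (.node 1 4 (.cons 0x9014567832 .nil) (.leaf 0x5678329014 4 (.node 0 2 (.cons 0x7651438902 (.cons 0x8765120934 .nil)) (.node 2 6 (.cons 0x9026783451 (.cons 0x9387620154 .nil)) (.leaf 0x9345126780 4 (.leaf 0x9345126780 1 .done)) .done) (.leaf 0x9321456780 0 .done))) (.node 2 6 (.cons 0x8762154390 .nil) (.node 4 9 (.cons 0x2678394510 .nil) (.node 0 5 (.cons 0x4398762150 .nil) (.node 0 3 (.cons 0x4309876512 .nil) (.node 0 2 (.cons 0x5493876201 .nil) (.node 2 8 (.cons 0x6782154390 .nil) (.node 5 8 (.cons 0x3945876210 .nil) (.leaf 0x1267854930 5 .done) .done) .done) .done) (.node 0 4 (.cons 0x5126789340 .nil) (.leaf 0x6789340512 1 (.leaf 0x8762150439 0 .done)) .done)) (.node 0 2 (.cons 0x8762015493 .nil) (.node 2 8 (.cons 0x6782154390 .nil) (.node 2 7 (.cons 0x6278015493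 .nil) (.node 1 4 (.cons 0x8341567290 .nil) (.leaf 0x5678329014 4 (.node 0 4 (.cons 0x9156278340 .nil) (.node 4 6 (.cons 0x2783465190 .nil) .done .done) (.leaf 0x3809276514 1 .done))) .done) .done) (.leaf 0x7620154938 4 .done)) .done)) (.leaf 0x9345126780 4 (.leaf 0x9345126780 1 .done))) .done)) (.node 3 6 (.cons 0x8763451290 .nil) (.node 4 9 (.cons 0x2387654901 .nil) (.leaf 0x945678321 1 (.node 3 7 (.cons 0x9456378012 .nil) (.node 0 5 (.cons 0x4367892150 .nil) (.node 0 2 (.cons 0x7836549102 .nil) (.node 0 3 (.cons 0x4309876512 .nil) .done .done) (.node 0 4 (.cons 0x5129876340 .nil) (.leaf 0x9876340512 1 (.node 4 8 (.cons 0x9236784501 .nil) (.leaf 0x5019236784 2 .done) .done)) .done)) (.leaf 0x1087365492 3 .done)) (.node 3 9 .nil (.node 0 4 (.cons 0x5129876340 (.cons 0x8763921045 .nil)) (.node 0 5 (.cons 0x4367892150 .nil) (.leaf 0x9876340512 1 .done) (.leaf 0x3921540876 1 .done)) (.node 5 9 .nil (.node 4 6 (.cons 0x5467832901 (.cons 0x7801295463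 .nil)) (.leaf 0x954678321 0 .done) (.node 6 9 (.cons 0x7809654321 .nil) (.node 7 9 (.cons 0x6345129780 .nil) .done .done) .done)) .done)) .done))) (.node 3 9 .nil (.node 2 6 (.cons 0x1543876290 .nil) (.leaf 0x7834510926 4 (.leaf 0x9345126780 4 (.leaf 0x9345126780 1 .done))) .done) (.leaf 0x9215436780 0 .done))) (.node 1 4 (.cons 0x1456783290 .nil) (.node 1 7 (.cons 0x9087123456 .nil) (.node 1 8 .nil (.node 0 3 (.cons 0x4309876512 .nil) (.node 4 7 (.cons 0x8903476512 (.cons 0x5674309812 (.cons 0x5674189230 .nil))) .done (.leaf 0x7812903456 3 (.node 2 4 (.cons 0x9241567830 (.cons 0x7651830924 .nil)) (.leaf 0x3876514290 2 (.leaf 0x3876514290 3 .done)) .done))) .done) (.node 1 6 .nil (.node 2 4 (.cons 0x3421567890 (.cons 0x9016542387 (.cons 0x3876154290 .nil))) (.node 0 7 (.cons 0x3892415670 (.cons 0x5167098342 (.cons 0x8709165432 .nil))) (.leaf 0x9834215670 5 .done) .done) (.node 1 8 .nil (.node 0 4 (.cons 0x5678904321 (.cons 0x7654092381 (.cons 0x7618329045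 (.cons 0x3290456781 .nil)))) (.leaf 0x8329045671 5 .done) (.node 1 3 .nil (.node 0 4 (.cons 0x5678904321 (.cons 0x6783154092 (.cons 0x2904567831 (.cons 0x5678923140 .nil)))) (.leaf 0x9045678312 1 .done) .done) .done)) .done)) .done)) (.leaf 0x3876541092 1 (.leaf 0x7832901456 0 .done))) .done))) (.node 5 8 (.cons 0x6785432190 .nil) (.node 1 8 .nil (.node 0 5 (.cons 0x7650981234 (.cons 0x6781905432 .nil)) (.node 1 6 (.cons 0x7890561234 .nil) (.leaf 0x3216789054 2 (.leaf 0x2345098761 4 (.node 4 9 (.cons 0x2387654901 (.cons 0x7654901832 (.cons 0x2349167850 .nil))) (.leaf 0x5678943210 5 (.leaf 0x7612349058 0 .done)) .done))) .done) .done) (.node 1 7 (.cons 0x9087123456 .nil) (.node 1 8 .nil (.node 0 5 (.cons 0x7650981234 (.cons 0x6781905432 .nil)) (.node 2 4 (.cons 0x3421567890 (.cons 0x9105423876 (.cons 0x9018324567 (.cons 0x6789051243 .nil)))) (.node 6 9 (.cons 0x9654238710 (.cons 0x7105698324 (.cons 0x3421789650 (.cons 0x6917805432 (.cons 0x6917832450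 .nil))))) .done .done) .done) .done) (.node 0 6 (.cons 0x4587609123 .nil) (.leaf 0x9123458760 0 (.node 0 2 (.cons 0x6783451902 .nil) (.node 0 3 (.cons 0x4309876512 .nil) (.node 3 7 (.cons 0x8902156734 .nil) (.node 3 6 (.cons 0x4587632190 .nil) (.node 1 6 (.cons 0x7619023854 .nil) (.node 4 6 (.cons 0x7645832091 .nil) (.leaf 0x9023854671 2 (.leaf 0x2091764583 3 .done)) .done) .done) .done) .done) (.node 0 3 (.cons 0x4309876512 .nil) (.node 2 6 (.cons 0x2678345190 .nil) (.node 2 8 (.cons 0x7651289034 .nil) .done (.leaf 0x3451902678 0 (.leaf 0x5438762091 1 .done))) .done) .done)) (.leaf 0x7609123458 1 (.node 0 5 .nil (.node 1 6 (.cons 0x7890561234 .nil) (.node 1 8 (.cons 0x9187605432 .nil) .done (.leaf 0x3216789054 2 (.leaf 0x2345098761 4 .done))) (.node 1 8 (.cons 0x7650981234 .nil) (.node 2 8 (.cons 0x5432876091 .nil) (.node 4 8 (.cons 0x7650984321 .nil) (.node 3 9 (.cons 0x6782154390 .nil) (.leaf 0x4821765093 1 (.leaf 0x4512876093 2 .done)) .done)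 .done) .done) .done)) .done)))) .done)) .done)) .done)))
noncomputable def tc9_6_7 : T := (.node 1 8 .nil (.node 7 9 (.cons 0x8123456790 .nil) (.node 0 4 (.cons 0x9876512340 (.cons 0x8976512340 .nil)) (.node 6 8 (.cons 0x7908654321 .nil) (.leaf 0x5687901234 5 (.leaf 0x9786543210 2 (.node 1 4 (.cons 0x7908654123 (.cons 0x3214568790 .nil)) (.node 3 5 (.cons 0x2143567890 (.cons 0x8679045321 (.cons 0x6879045321 .nil))) .done .done) .done))) (.leaf 0x1567980432 4 (.leaf 0x5679804321 5 .done))) (.node 0 2 (.cons 0x2097654381 .nil) (.node 4 9 (.cons 0x2387654901 (.cons 0x7654901832 (.cons 0x9451023876 (.cons 0x1567894320 .nil)))) (.leaf 0x5678943201 5 .done) (.leaf 0x4567902183 1 (.node 1 9 (.cons 0x8765432190 .nil) (.node 2 7 (.cons 0x6519720834 (.cons 0x4567238190 .nil)) (.node 4 7 (.cons 0x6519743802 (.cons 0x8190234765 .nil)) .done .done) (.node 0 7 (.cons 0x8709123456 .nil) (.node 4 6 (.cons 0x2346519870 (.cons 0x9187023465 (.cons 0x7819023465 .nil)))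 (.node 2 5 (.cons 0x5238901764 (.cons 0x4325670981 (.cons 0x7902564381 .nil))) (.leaf 0x7643815209 2 .done) (.leaf 0x5198702346 4 .done)) .done) .done)) .done))) (.node 1 6 (.cons 0x7908165432 .nil) (.node 2 5 (.cons 0x7908165234 (.cons 0x4325618790 .nil)) (.node 4 9 (.cons 0x2387654901 (.cons 0x7654901832 (.cons 0x7832561094 (.cons 0x6152349780 .nil)))) (.leaf 0x8761094523 2 .done) (.node 4 7 (.cons 0x9087432165 .nil) (.leaf 0x8165234790 0 (.node 5 7 (.cons 0x9087561234 .nil) .done .done)) .done)) (.node 6 9 (.cons 0x7809654321 .nil) (.node 5 8 (.cons 0x8543217690 .nil) (.leaf 0x1769085432 5 (.leaf 0x2176908543 4 .done)) (.node 1 4 (.cons 0x9014567832 .nil) (.node 0 2 (.cons 0x8976514320 (.cons 0x7690238145 (.cons 0x8143209765 .nil))) (.leaf 0x5679802341 5 .done) (.node 0 2 (.cons 0x7832096541 .nil) (.leaf 0x9654178320 5 (.node 0 6 (.cons 0x5189760234 (.cons 0x5609781432 .nil)) (.leaf 0x3206798154 2 (.leaf 0x2345189760 4 .done)) (.leaf 0x8320965417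 2 .done))) .done)) .done)) .done)) (.leaf 0x1234567908 2 .done)))) (.node 1 4 (.cons 0x9014567832 .nil) (.node 1 9 (.cons 0x8765432190 .nil) (.node 5 8 .nil (.node 6 9 (.cons 0x7809654321 (.cons 0x8543217690 (.cons 0x2385417690 .nil))) (.leaf 0x5432176908 2 (.leaf 0x5876901234 3 .done)) (.node 6 8 (.cons 0x7865432190 .nil) (.node 0 7 (.cons 0x9123456870 .nil) (.node 4 8 (.cons 0x9076584123 .nil) (.node 2 8 .nil (.node 3 9 (.cons 0x2187654390 .nil) (.leaf 0x7093214856 4 (.leaf 0x2876543901 3 .done)) .done) .done) (.leaf 0x5432190786 2 (.leaf 0x5432190786 3 .done))) .done) .done)) .done) (.node 1 9 (.cons 0x8765432190 .nil) (.node 5 8 .nil (.node 6 9 (.cons 0x7809654321 .nil) (.leaf 0x5432176908 2 (.leaf 0x5876901234 3 (.node 0 2 (.cons 0x7832096541 (.cons 0x4583209671 .nil)) (.node 0 7 (.cons 0x2387096541 (.cons 0x8567091234 .nil)) (.leaf 0x8541967023 4 (.leaf 0x5419670238 5 .done)) (.leaf 0x9023854176 1 .done)) .done))) (.node 6 8 .nil (.node 0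 5 (.cons 0x5098671234 (.cons 0x8671905432 .nil)) (.node 5 7 (.cons 0x6809175432 .nil) (.leaf 0x9123457680 4 .done) (.leaf 0x1768905432 3 .done)) (.node 4 8 .nil (.node 0 7 (.cons 0x9123456807 (.cons 0x4856709123 (.cons 0x2348915670 .nil))) (.leaf 0x6709123485 1 .done) (.node 2 8 .nil (.node 3 9 (.cons 0x2187654390 .nil) (.leaf 0x2876543901 2 (.leaf 0x2876543901 3 .done)) .done) .done)) .done)) .done)) .done) .done)) .done)) (.node 1 6 .nil (.node 2 9 (.cons 0x4567832901 (.cons 0x7832901654 .nil)) (.leaf 0x3290871654 5 (.leaf 0x8092345617 2 (.leaf 0x871654329 4 .done))) (.node 6 9 (.cons 0x7809654321 .nil) (.node 1 3 (.cons 0x7809654312 .nil) (.node 1 9 (.cons 0x8765432190 .nil) (.node 1 4 (.cons 0x9014567832 .nil) (.node 3 5 (.cons 0x2143567890 .nil) (.node 3 9 .nil (.node 2 7 (.cons 0x8721345690 (.cons 0x6934512780 (.cons 0x6541278093 .nil))) (.leaf 0x5439087216 3 .done) .done) .done) .done) .done) (.node 1 9 (.cons 0x8765432190 .nil) (.node 1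 4 (.cons 0x9014567832 .nil) (.node 1 8 .nil (.node 0 3 (.cons 0x5678903412 .nil) (.node 2 7 (.cons 0x3456908721 (.cons 0x9654308127 (.cons 0x8127690345 (.cons 0x9038145672 .nil)))) .done (.node 2 5 (.cons 0x3412567890 (.cons 0x7812569034 .nil)) (.leaf 0x4125678903 4 (.leaf 0x7652143098 4 .done)) .done)) .done) .done) .done) .done)) (.node 4 6 (.cons 0x9087123465 .nil) (.node 3 6 .nil (.node 4 9 (.cons 0x2349651780 (.cons 0x7801549632 (.cons 0x5634908712 .nil))) (.leaf 0x945678321 1 (.node 0 7 (.cons 0x6512349870 (.cons 0x8701549632 (.cons 0x2156349870 (.cons 0x4987015632 .nil)))) .done .done)) (.node 2 6 .nil (.node 4 9 (.cons 0x2349651780 (.cons 0x7832654901 (.cons 0x7801549623 (.cons 0x5621780943 .nil)))) (.leaf 0x945678321 1 .done) (.node 2 5 (.cons 0x4325690871 .nil) (.node 6 8 .nil (.node 4 9 (.cons 0x2349651780 (.cons 0x7123490865 (.cons 0x5687123490 (.cons 0x7152349680 (.cons 0x7125680943 .nil))))) .done (.node 0 6 .nil (.node 1 8 (.cons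 0x7180965234 (.cons 0x9067812345 .nil)) .done .done) .done)) (.node 0 6 .nil (.node 1 4 (.cons 0x8714325690 (.cons 0x7890652143 .nil)) (.leaf 0x652341789 4 (.leaf 0x652341789 1 .done)) (.node 6 8 .nil (.node 0 4 (.cons 0x9876512340 (.cons 0x9687152340 (.cons 0x9043256871 .nil))) (.node 1 9 (.cons 0x8765432190 (.cons 0x7865432190 (.cons 0x7860912543 (.cons 0x7190438652 .nil)))) .done .done) .done) .done)) .done)) .done)) .done)) (.node 0 6 .nil (.node 4 9 (.cons 0x2349651780 (.cons 0x7894321560 (.cons 0x5123498760 .nil))) (.leaf 0x945678321 1 .done) (.node 4 9 (.cons 0x2349651780 .nil) (.leaf 0x945678321 1 (.node 1 4 (.cons 0x5690871432 .nil) (.node 1 8 (.cons 0x7812349065 .nil) (.node 1 9 (.cons 0x8765432190 .nil) .done .done) .done) (.node 0 2 (.cons 0x8769451023 .nil) (.leaf 0x1549678320 3 (.node 0 3 (.cons 0x8769451032 .nil) (.node 0 5 (.cons 0x6789432150 .nil) (.leaf 0x4987605123 5 (.leaf 0x3498760512 4 .done)) .done) .done)) .done))) .done))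 .done)) (.leaf 0x871234569 2 .done))) (.node 6 9 (.cons 0x7809654321 .nil) (.node 1 8 .nil (.node 0 7 (.cons 0x7089651234 .nil) (.node 2 4 (.cons 0x5107698324 (.cons 0x9670183245 (.cons 0x9018324567 (.cons 0x7690183245 .nil)))) (.node 5 7 (.cons 0x2438961570 (.cons 0x2438175690 (.cons 0x4238175690 .nil))) (.leaf 0x9075423816 2 .done) .done) (.leaf 0x5432187096 2 (.leaf 0x3456907812 3 .done))) (.node 1 9 (.cons 0x8765432190 .nil) (.node 5 7 (.cons 0x8123457690 .nil) (.leaf 0x1234576908 5 (.node 1 4 (.cons 0x8096571432 .nil) (.node 2 8 (.cons 0x1823457690 .nil) (.leaf 0x3417569082 1 (.leaf 0x965714328 1 .done)) .done) (.leaf 0x2180967543 4 .done))) .done) .done)) (.node 3 7 (.cons 0x9087345612 .nil) (.node 2 7 (.cons 0x9087216543 .nil) (.node 1 8 .nil (.node 0 2 (.cons 0x9651780234 (.cons 0x9618027345 .nil)) (.node 0 6 (.cons 0x9608723451 (.cons 0x9608154327 .nil)) .done .done) (.node 1 4 (.cons 0x5690871432 .nil) (.node 1 3 (.cons 0x5431690872 .nil)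 (.node 1 9 (.cons 0x6915432780 .nil) .done .done) (.node 1 3 (.cons 0x5431690872 .nil) (.node 1 9 (.cons 0x6915432780 .nil) .done .done) .done)) .done)) (.node 2 9 (.cons 0x4329651780 .nil) (.node 2 5 (.cons 0x4325690871 .nil) (.node 1 4 (.cons 0x8714325690 .nil) (.leaf 0x3256908714 1 (.leaf 0x923876541 5 (.node 1 3 (.cons 0x4569087231 .nil) (.leaf 0x9087231456 4 (.leaf 0x9087231456 1 .done)) .done))) .done) (.node 4 7 (.cons 0x6547832901 .nil) (.leaf 0x8329016547 1 (.node 2 5 (.cons 0x4387165290 .nil) (.node 1 4 (.cons 0x8732965410 .nil) (.leaf 0x5692378014 2 (.leaf 0x5698014732 0 (.leaf 0x923876541 1 .done))) .done) (.leaf 0x5610923874 1 .done))) (.leaf 0x4561290873 5 .done))) .done)) (.node 2 5 (.cons 0x2543780961 .nil) (.leaf 0x873452169 1 (.node 1 8 (.cons 0x2543781690 .nil) (.node 1 4 (.cons 0x8714325690 .nil) (.leaf 0x3256908714 1 (.node 2 9 (.cons 0x4329651780 .nil) (.leaf 0x923876541 5 (.node 0 6 (.cons 0x7806923451 .nil) (.leaf 0x1254378906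 2 (.node 4 9 (.cons 0x6783294510 .nil) (.leaf 0x945678321 1 (.leaf 0x8760154923 4 .done)) .done)) (.leaf 0x3876541092 4 .done))) .done)) .done) (.leaf 0x7809612543 0 .done))) .done)) (.leaf 0x871234569 2 .done))) .done))) (.node 6 9 (.cons 0x7809654321 .nil) (.leaf 0x4569087123 4 (.node 1 8 .nil (.node 7 9 (.cons 0x8123456790 .nil) (.node 6 8 (.cons 0x7908654321 .nil) (.leaf 0x5687901234 5 (.leaf 0x9086543217 4 .done)) (.node 0 3 (.cons 0x6978034512 (.cons 0x5430967812 .nil)) (.node 5 8 (.cons 0x6790345812 (.cons 0x6790321854 .nil)) .done (.node 2 4 (.cons 0x6978034215 (.cons 0x6790183245 (.cons 0x7812430965 .nil))) (.leaf 0x3087965124 0 (.node 3 5 (.cons 0x2453876901 (.cons 0x7690183542 .nil)) (.leaf 0x9012453876 2 .done) .done)) .done)) (.node 1 6 (.cons 0x7908165432 .nil) (.node 5 7 (.cons 0x9087561234 .nil) (.node 2 5 (.cons 0x7908165234 (.cons 0x4325618790 .nil)) (.node 4 9 (.cons 0x2387654901 (.cons 0x7654901832 (.cons 0x2561783490 (.cons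 0x6152349780 .nil)))) .done .done) .done) .done) (.leaf 0x1234567908 2 .done)))) (.node 1 9 (.cons 0x8765432190 .nil) (.node 1 4 (.cons 0x9014567832 .nil) (.node 1 3 (.cons 0x7809654312 .nil) (.node 1 6 .nil (.node 0 5 (.cons 0x3450967812 (.cons 0x7890561432 .nil)) (.node 2 7 (.cons 0x3456908721 (.cons 0x7238905614 .nil)) (.leaf 0x4509672183 4 (.leaf 0x3276189054 5 (.leaf 0x6190872345 5 .done))) (.leaf 0x1678905432 3 .done)) .done) .done) .done) (.node 1 4 (.cons 0x9014567832 .nil) (.node 1 3 (.cons 0x7809654312 .nil) (.node 1 6 .nil (.node 0 5 (.cons 0x3450967812 .nil) (.node 5 7 (.cons 0x6750981234 .nil) (.leaf 0x875432169 2 (.leaf 0x8096123457 4 .done)) (.leaf 0x1678905432 3 (.leaf 0x7612345098 2 .done))) .done) .done) .done) .done)) .done)) (.node 1 8 .nil (.node 7 9 (.cons 0x8123456790 .nil) (.node 6 8 (.cons 0x7908654321 .nil) (.leaf 0x5687901234 5 (.leaf 0x9786543210 2 (.leaf 0x9086543217 4 .done))) (.node 0 6 (.cons 0x7960815432 .nil) (.node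 4 9 (.cons 0x2387654901 (.cons 0x7654901832 (.cons 0x7894321560 .nil))) (.leaf 0x1560879432 1 .done) (.node 4 9 (.cons 0x2387654901 (.cons 0x7654901832 (.cons 0x7812349065 .nil))) (.leaf 0x1560879432 1 .done) (.leaf 0x8123456097 2 .done))) (.leaf 0x1234567908 2 .done))) (.node 1 4 (.cons 0x9014567832 .nil) (.node 1 9 (.cons 0x8765432190 .nil) (.node 2 9 (.cons 0x4567832901 .nil) (.node 3 9 (.cons 0x6543908712 .nil) (.node 4 9 (.cons 0x2387654901 .nil) (.node 4 6 (.cons 0x7801546932 .nil) (.node 4 8 (.cons 0x2396784510 .nil) .done .done) .done) .done) (.node 4 9 (.cons 0x6783294510 .nil) (.node 4 6 (.cons 0x9238764510 .nil) (.node 4 8 (.cons 0x3296784510 .nil) .done .done) .done) (.leaf 0x3876541092 1 .done))) .done) (.node 1 9 (.cons 0x8765432190 .nil) (.node 2 9 (.cons 0x4567832901 .nil) (.node 3 9 (.cons 0x6543908712 .nil) (.node 2 6 (.cons 0x2693451780 .nil) (.leaf 0x5438710926 1 (.leaf 0x934562178 5 (.leaf 0x9017834562 1 (.node 2 5 (.cons 0x6254178390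 .nil) (.node 0 2 (.cons 0x7896514320 .nil) (.leaf 0x9834176520 0 (.node 4 9 (.cons 0x5187694320 .nil) (.leaf 0x2094381765 2 .done) .done)) .done) .done)))) .done) (.node 4 9 (.cons 0x6783294510 .nil) (.node 0 6 (.cons 0x7806923451 .nil) (.leaf 0x9234517806 1 (.leaf 0x8760154923 4 (.node 2 7 (.cons 0x8345192760 .nil) (.leaf 0x3451927608 4 (.leaf 0x3451927608 1 (.node 1 3 (.cons 0x8723145690 .nil) (.leaf 0x8729065413 4 .done) .done))) .done))) .done) (.leaf 0x3876541092 4 .done))) .done) .done)) .done)) (.leaf 0x8096543217 4 .done)))) .done)))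
noncomputable def tc9_6_8 : T := (.node 1 7 (.cons 0x9087123456 .nil) tc9_6_7 (.node 4 8 (.cons 0x7651234890 .nil) (.node 0 7 (.cons 0x9843215670 .nil) (.leaf 0x1234890765 0 (.node 0 3 .nil (.node 4 7 (.cons 0x4765109832 (.cons 0x8903476512 (.cons 0x9847651032 .nil))) (.leaf 0x3215674890 0 .done) (.node 0 2 .nil (.node 7 9 (.cons 0x9708432156 (.cons 0x3489765120 (.cons 0x1567984320 .nil))) (.leaf 0x8430215679 4 (.leaf 0x6798430215 5 .done)) (.node 0 4 (.cons 0x5678904321 .nil) (.node 2 8 (.cons 0x7651289043 .nil) (.node 3 7 (.cons 0x8904376512 .nil) (.node 2 7 (.cons 0x9804372156 .nil) .done (.leaf 0x1289043765 1 .done)) .done) (.leaf 0x9876512340 5 .done)) .done)) (.node 3 7 .nil (.node 0 4 (.cons 0x5678904321 (.cons 0x9840123765 (.cons 0x8904376512 (.cons 0x9840156732 .nil)))) .done (.node 0 4 (.cons 0x5678904321 .nil) (.node 0 2 .nil (.node 4 7 (.cons 0x4765109832 (.cons 0x2098347651 (.cons 0x8902347651 .nil))) (.node 6 8 (.cons 0x5123476890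 (.cons 0x5120986743 (.cons 0x9023867451 .nil))) .done .done) .done) (.node 3 5 .nil (.node 2 7 (.cons 0x9804372156 (.cons 0x8904351276 (.cons 0x9840351276 .nil))) .done (.node 1 3 (.cons 0x5678904312 .nil) (.node 2 5 (.cons 0x3409876521 .nil) (.node 3 9 (.cons 0x1256789340 .nil) (.leaf 0x2567893401 0 .done) (.leaf 0x6789043125 2 .done)) .done) .done)) (.leaf 0x9876512340 5 .done))) .done)) .done))) (.node 2 4 (.cons 0x2438907651 .nil) (.node 0 4 (.cons 0x5678904321 .nil) (.node 4 7 (.cons 0x5674238901 .nil) (.leaf 0x9015674238 2 .done) (.leaf 0x9876512340 5 .done)) (.leaf 0x9076512438 2 (.leaf 0x7098342156 3 .done))) (.leaf 0x3215670984 1 .done)))) (.node 0 4 (.cons 0x5678904321 .nil) (.node 3 5 (.cons 0x9012354876 .nil) (.node 4 9 (.cons 0x4987653210 .nil) (.node 2 4 (.cons 0x7651098324 .nil) (.node 1 4 (.cons 0x9014567832 .nil) (.node 4 6 (.cons 0x7894653210 .nil) (.node 4 7 (.cons 0x9832476510 .nil) .done .done) .done) .done) (.leaf 0x6532104987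 2 (.leaf 0x3567894012 3 .done))) (.node 2 4 (.cons 0x7651098324 .nil) (.node 2 8 .nil (.node 4 7 (.cons 0x9832476510 (.cons 0x3476512890 (.cons 0x1567432890 .nil))) .done (.node 2 5 .nil (.node 4 6 (.cons 0x7890123564 (.cons 0x7648901523 .nil)) (.node 2 7 (.cons 0x1527643890 (.cons 0x9015276483 .nil)) .done .done) .done) .done)) (.node 1 4 (.cons 0x9014567832 .nil) (.node 1 8 .nil (.node 2 7 (.cons 0x9015483276 (.cons 0x9045672381 .nil)) (.leaf 0x4098127653 1 (.leaf 0x3409815672 1 (.leaf 0x4098127653 4 .done))) (.node 1 6 (.cons 0x9016542387 .nil) (.node 1 7 (.cons 0x8904321765 .nil) (.node 5 8 (.cons 0x7658904321 .nil) (.leaf 0x4321765890 0 (.leaf 0x2340985671 1 .done)) .done) .done) .done)) (.node 4 9 (.cons 0x2387654901 .nil) (.node 4 6 (.cons 0x7890123564 .nil) (.node 4 7 (.cons 0x9874653210 .nil) .done .done) .done) .done)) .done)) .done)) (.node 4 7 (.cons 0x4765109832 .nil) (.node 1 4 (.cons 0x9014567832 .nil) (.node 2 4 (.cons 0x9832476510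 .nil) (.node 4 9 (.cons 0x2389476510 .nil) (.node 4 6 .nil (.node 0 5 (.cons 0x9832476501 .nil) (.node 2 9 (.cons 0x4567832901 (.cons 0x3298746501 (.cons 0x5467832901 .nil))) (.leaf 0x3876541092 4 .done) .done) .done) .done) .done) .done) (.node 4 9 (.cons 0x2387654901 .nil) (.leaf 0x945678321 1 (.node 1 4 (.cons 0x9014567832 .nil) (.node 2 4 (.cons 0x8901567423 .nil) (.leaf 0x9015674238 2 .done) .done) .done)) .done)) (.leaf 0x9876512340 5 .done))) (.node 0 7 (.cons 0x3489076512 .nil) (.node 0 4 (.cons 0x5678904321 .nil) (.node 0 2 (.cons 0x7651209843 .nil) (.node 0 3 .nil (.node 2 9 (.cons 0x4567832901 .nil) (.leaf 0x3489215670 0 (.node 2 4 (.cons 0x7651098324 .nil) (.node 3 7 (.cons 0x9210378456 .nil) (.leaf 0x6512489037 3 .done) (.leaf 0x3098765124 3 .done)) (.leaf 0x4309215678 3 (.node 1 4 (.cons 0x1456783290 (.cons 0x9203841567 .nil)) (.leaf 0x3876541092 4 (.leaf 0x7832901456 0 .done)) .done)))) .done) .done) (.leaf 0x9876512340 5 .done))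 (.leaf 0x6512348907 0 (.node 2 4 (.cons 0x2438907651 .nil) (.node 4 7 (.cons 0x9832476510 .nil) (.leaf 0x1098324765 1 (.node 4 6 .nil (.node 5 7 (.cons 0x1234657890 .nil) (.leaf 0x8901234657 4 (.leaf 0x6578901234 5 (.leaf 0x6423890157 1 .done))) (.node 0 4 (.cons 0x5678904321 .nil) (.node 1 4 (.cons 0x9014567832 .nil) (.node 4 9 (.cons 0x2387654901 .nil) .done .done) .done) .done)) .done)) (.node 0 4 (.cons 0x5678904321 .nil) (.node 4 7 (.cons 0x5674238901 .nil) (.node 1 7 (.cons 0x5671098324 .nil) (.leaf 0x983245671 1 (.node 4 6 (.cons 0x9087123465 .nil) (.node 0 2 (.cons 0x7651209843 .nil) (.node 4 9 (.cons 0x2389476510 .nil) (.leaf 0x5102389476 4 .done) .done) .done) .done)) (.leaf 0x9015674238 2 .done)) (.leaf 0x9876512340 5 .done)) (.leaf 0x9076512438 2 (.leaf 0x7098342156 3 .done)))) (.leaf 0x9076512348 1 .done)))) .done))) (.node 0 4 (.cons 0x5678904321 .nil) (.leaf 0x2340987651 4 (.node 1 4 (.cons 0x9014567832 .nil) (.node 4 7 (.cons 0x6512347890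 .nil) (.node 4 8 .nil (.node 0 6 (.cons 0x3478906512 (.cons 0x9065123487 .nil)) (.leaf 0x1560987432 4 (.node 0 7 (.cons 0x9078432156 .nil) (.leaf 0x2348907651 4 (.node 7 9 (.cons 0x2384567901 .nil) (.leaf 0x976548321 1 (.leaf 0x8432156097 2 (.leaf 0x4567901238 0 .done))) .done)) (.leaf 0x8906512347 4 .done))) .done) (.node 4 8 .nil (.node 0 6 (.cons 0x2347890651 (.cons 0x9065123487 .nil)) (.leaf 0x5123478906 5 (.leaf 0x8906512347 2 (.node 0 7 (.cons 0x9870651432 (.cons 0x9078432156 .nil)) (.node 7 9 (.cons 0x2384567901 .nil) (.leaf 0x976548321 1 (.leaf 0x3487906512 3 (.leaf 0x4567901238 0 .done))) .done) .done))) (.node 4 9 (.cons 0x2387654901 .nil) (.leaf 0x945678321 1 (.node 2 4 (.cons 0x6510987423 .nil) (.node 4 6 .nil (.node 2 9 (.cons 0x9238765410 (.cons 0x5467832901 .nil)) (.leaf 0x3876451092 4 .done) .done) .done) .done)) .done)) .done)) (.node 1 9 (.cons 0x8765432190 .nil) (.node 2 9 (.cons 0x4567832901 .nil) (.node 0 2 .nil (.node 1 8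 (.cons 0x9021876543 .nil) (.leaf 0x3456781902 2 (.node 7 9 (.cons 0x4567923810 (.cons 0x1834567920 (.cons 0x5679814320 (.cons 0x9765418320 .nil)))) .done .done)) (.node 2 5 (.cons 0x7652389014 .nil) (.node 6 9 (.cons 0x4523876910 .nil) (.leaf 0x5238769104 1 (.leaf 0x5238769104 4 (.node 1 7 (.cons 0x5238967140 .nil) (.leaf 0x2345690871 5 (.leaf 0x871234569 2 (.leaf 0x8096543217 4 .done))) .done))) (.node 2 7 (.cons 0x5672389014 .nil) (.node 2 6 .nil (.node 0 7 (.cons 0x8325419076 (.cons 0x9834156270 (.cons 0x8709154326 .nil))) .done .done) (.leaf 0x3890145672 1 .done)) .done)) .done)) (.node 2 4 .nil (.node 1 3 (.cons 0x9013876542 .nil) (.leaf 0x987654231 1 (.leaf 0x2456789013 1 (.node 1 7 (.cons 0x9087123456 (.cons 0x6542901783 .nil)) (.leaf 0x6542389017 1 .done) .done))) (.node 3 9 .nil (.node 0 5 (.cons 0x9105423876 (.cons 0x1243987650 (.cons 0x4239876501 .nil))) (.leaf 0x9876501243 5 .done) (.node 0 3 .nil (.node 4 7 (.cons 0x6512347890 (.cons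 0x8930124765 (.cons 0x9874230156 .nil))) .done (.node 0 7 (.cons 0x9832410765 .nil) (.node 1 3 (.cons 0x8709213456 .nil) (.node 1 8 (.cons 0x9381076542 .nil) (.leaf 0x3924567018 1 .done) .done) (.node 4 6 (.cons 0x9870156423 .nil) (.leaf 0x5107893246 0 (.leaf 0x2465107893 1 .done)) .done)) .done)) .done)) .done)) (.leaf 0x3876541092 1 .done))) (.node 0 3 (.cons 0x8765430912 .nil) (.node 3 5 .nil (.node 2 4 (.cons 0x8765342190 .nil) (.leaf 0x6789014235 1 (.leaf 0x5342190876 4 (.leaf 0x9876534210 2 .done))) (.node 0 2 (.cons 0x4356789120 .nil) (.leaf 0x7653402198 5 .done) .done)) (.node 2 8 (.cons 0x3456782190 .nil) (.leaf 0x6782190345 4 (.leaf 0x9128765430 4 (.node 0 2 (.cons 0x7654190283 .nil) (.node 2 5 (.cons 0x7652389014 .nil) (.node 1 7 (.cons 0x4389176520 .nil) (.leaf 0x9834025671 3 (.node 3 7 (.cons 0x2837654190 .nil) (.leaf 0x5673820914 2 .done) (.leaf 0x917654382 4 .done))) .done) .done) .done))) .done)) .done)) (.node 0 2 (.cons 0x5678902143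 .nil) (.node 0 3 (.cons 0x5678903412 .nil) (.node 2 5 (.cons 0x3412567890 .nil) (.node 1 7 (.cons 0x9834176520 .nil) (.node 4 7 (.cons 0x6512347890 .nil) (.node 0 6 (.cons 0x2347890651 .nil) (.leaf 0x8906512347 2 (.node 6 9 (.cons 0x8965174320 .nil) (.leaf 0x3406987152 0 (.leaf 0x8960432517 1 (.leaf 0x2345690871 5 .done))) .done)) .done) (.leaf 0x4389025671 0 (.leaf 0x6714389025 1 .done))) (.leaf 0x7652143098 4 .done)) .done) (.node 0 3 (.cons 0x5678903412 .nil) (.node 3 5 (.cons 0x2143567890 .nil) (.node 2 5 (.cons 0x3412567890 .nil) (.node 1 9 (.cons 0x8765432190 .nil) (.node 4 7 (.cons 0x6512347890 .nil) (.node 4 8 (.cons 0x9102384765 .nil) .done (.node 0 7 (.cons 0x2567098341 .nil) (.node 4 8 (.cons 0x2356748910 .nil) (.leaf 0x6702198435 4 .done) .done) .done)) (.leaf 0x3419025678 2 .done)) (.leaf 0x6789034125 5 .done)) .done) .done) .done)) .done))) (.node 2 5 (.cons 0x3409876521 .nil) (.node 3 9 (.cons 0x1256789340 .nil) (.leaf 0x2567893401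 0 (.leaf 0x2567893401 4 (.leaf 0x2567893401 1 .done))) (.node 3 5 .nil (.node 1 4 (.cons 0x9014567832 .nil) (.node 2 4 (.cons 0x1243567890 .nil) (.leaf 0x6789014235 0 (.leaf 0x9876534210 2 (.leaf 0x9876534210 3 .done))) (.leaf 0x5678904123 2 (.node 2 6 (.cons 0x7625389041 .nil) (.leaf 0x7890145326 1 (.leaf 0x3409876215 2 (.leaf 0x3409876215 3 .done))) .done))) (.node 3 7 (.cons 0x8904376521 .nil) (.node 4 7 (.cons 0x6512347890 .nil) (.node 1 4 (.cons 0x9832567410 .nil) (.leaf 0x8325674109 2 (.leaf 0x2389014765 3 .done)) (.node 4 9 (.cons 0x4987653210 .nil) (.leaf 0x6532104987 4 (.leaf 0x5678940123 5 (.node 4 8 (.cons 0x3256748901 .nil) (.node 1 4 (.cons 0x9014567832 .nil) (.node 4 6 (.cons 0x8901523746 .nil) .done .done) .done) .done))) .done)) (.node 1 3 (.cons 0x5678904312 .nil) (.node 3 6 (.cons 0x7890436512 .nil) .done (.leaf 0x4098765213 3 .done)) .done)) .done)) (.node 1 3 (.cons 0x5678904312 .nil) (.leaf 0x6789043125 3 (.node 1 4 (.cons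 0x9014567832 .nil) (.node 2 9 (.cons 0x9238765410 .nil) (.leaf 0x5678329014 4 (.leaf 0x5678329014 1 (.node 1 9 (.cons 0x8765432190 .nil) (.node 2 8 (.cons 0x3456782190 .nil) (.node 0 3 (.cons 0x9128765430 .nil) (.leaf 0x7821903456 5 (.leaf 0x6782190345 4 .done)) .done) .done) .done))) (.node 3 5 (.cons 0x6789041253 .nil) (.node 1 9 (.cons 0x2198765340 .nil) (.node 3 6 (.cons 0x9876352140 .nil) (.node 0 3 (.cons 0x8765430912 .nil) (.node 3 7 (.cons 0x6543780912 .nil) .done .done) .done) .done) .done) .done)) (.node 3 6 (.cons 0x7890436512 .nil) (.leaf 0x2136789045 2 (.leaf 0x1254098763 4 (.node 3 7 .nil (.node 1 4 (.cons 0x9014567832 (.cons 0x2567389041 .nil)) (.leaf 0x2563789041 4 .done) (.node 0 3 .nil (.node 1 9 (.cons 0x8765432190 (.cons 0x8912567304 (.cons 0x8765430912 .nil))) .done (.node 3 5 .nil (.node 1 4 (.cons 0x9014567832 .nil) (.leaf 0x2536789041 4 (.leaf 0x5678904123 2 .done)) .done) .done)) .done)) .done))) (.leaf 0x6789043125 2 .done))))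 .done))) (.leaf 0x8904321567 4 .done)))) (.node 1 9 (.cons 0x8765432190 .nil) tc9_6_6 .done))))
noncomputable def uc9_6_2 : T := tc9_6_8
theorem sub_c9_6_2 : root 9 refs9_6 [] 0x400000008407000200607060000000060500000000504000000004010000200010300000000302000000002018600000010 0xfeefff2bff3fff9fffcfffedfff1fff3fff9febd 9 1 5 (.cons 0x4321567890 .nil) uc9_6_2 = true := by decide +kernel
noncomputable def tc9_6_9 : T := (.node 0 5 .nil (.node 6 8 (.cons 0x7683450912 (.cons 0x7683219054 .nil)) (.node 0 7 (.cons 0x8670912345 (.cons 0x5438670912 .nil)) (.leaf 0x2345687091 2 .done) (.node 4 7 (.cons 0x8912347650 (.cons 0x9105476832 .nil)) (.leaf 0x3219805674 5 (.node 3 9 (.cons 0x5476801932 (.cons 0x9321054786 (.cons 0x8674501932 .nil))) .done (.leaf 0x6508912347 4 .done))) .done)) (.node 1 8 (.cons 0x7650981234 .nil) (.node 1 6 .nil (.node 2 9 (.cons 0x7654329180 (.cons 0x7809234561 (.cons 0x5432908761 .nil))) (.node 7 9 (.cons 0x4321897650 (.cons 0x9761805432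 (.cons 0x8345097612 .nil))) (.leaf 0x5081679234 1 .done) .done) (.node 0 6 (.cons 0x9067834512 .nil) (.node 1 7 (.cons 0x8091765432 .nil) (.node 6 8 (.cons 0x5098671234 .nil) (.node 2 8 (.cons 0x7654328091 .nil) (.node 5 8 (.cons 0x6719085432 .nil) .done .done) .done) .done) .done) .done)) (.node 2 8 (.cons 0x7654328091 .nil) (.node 4 8 (.cons 0x7650984321 .nil) (.node 6 8 .nil (.node 0 7 (.cons 0x9078123456 (.cons 0x8670912345 (.cons 0x5438670912 .nil))) (.leaf 0x2345687091 2 .done) (.node 5 8 .nil (.node 0 3 (.cons 0x4309876512 (.cons 0x7658430912 .nil)) (.node 0 4 (.cons 0x5678904321 (.cons 0x7685409123 .nil)) .done .done) .done) .done)) .done) (.node 1 4 (.cons 0x7654190823 .nil) (.node 4 8 (.cons 0x7650984321 .nil) (.node 2 7 (.cons 0x5672341980 .nil) (.leaf 0x6723419805 5 (.leaf 0x3419805672 4 (.node 5 8 (.cons 0x9143276580 .nil) (.node 6 8 (.cons 0x9051276834 .nil) .done .done) .done))) .done) (.node 1 7 (.cons 0x8091765432 .nil) (.node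 4 7 (.cons 0x8905674321 .nil) (.node 1 3 (.cons 0x8905674312 .nil) (.node 1 6 (.cons 0x5098347612 .nil) .done .done) (.node 1 3 (.cons 0x4765098231 .nil) (.leaf 0x982314765 5 .done) .done)) (.leaf 0x917654328 4 .done)) .done)) .done)) .done)) (.node 1 6 (.cons 0x7890561234 .nil) (.node 1 7 (.cons 0x8091765432 .nil) (.node 1 4 .nil (.node 2 7 (.cons 0x5672341980 (.cons 0x8091432765 (.cons 0x8091456723 .nil))) (.leaf 0x8905614327 5 .done) (.node 1 8 .nil (.node 4 7 (.cons 0x9874321650 .nil) (.node 2 6 (.cons 0x7432650891 (.cons 0x9081762345 (.cons 0x9180562347 .nil))) (.node 3 9 (.cons 0x2674519380 (.cons 0x7456239180 (.cons 0x7814562390 .nil))) .done .done) (.leaf 0x9812347650 0 (.leaf 0x8905612347 5 .done))) .done) .done)) (.node 4 6 (.cons 0x7890564321 .nil) (.node 1 8 .nil (.node 2 9 (.cons 0x6783451290 (.cons 0x7180923465 .nil)) (.leaf 0x8092345671 2 (.leaf 0x817654329 4 .done)) (.node 1 3 .nil (.node 0 4 (.cons 0x5678904321 (.cons 0x5678904312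 .nil)) (.node 1 4 (.cons 0x9087654132 .nil) .done .done) .done) .done)) (.node 6 8 (.cons 0x9056871234 .nil) (.node 4 7 (.cons 0x9874321650 .nil) (.node 6 9 (.cons 0x1234789650 .nil) (.leaf 0x7896501234 2 .done) (.leaf 0x9123867450 3 (.leaf 0x8905612347 5 .done))) .done) (.leaf 0x564321789 4 .done))) .done)) (.node 0 6 (.cons 0x9067834512 .nil) (.node 0 3 (.cons 0x4309876512 .nil) (.node 0 2 (.cons 0x9021543876 .nil) (.node 0 4 (.cons 0x5678904321 .nil) (.node 0 7 .nil (.node 4 6 (.cons 0x7890564321 (.cons 0x9870564321 .nil)) (.leaf 0x564321987 4 .done) .done) .done) .done) .done) (.node 5 9 (.cons 0x6783210954 .nil) (.node 6 9 (.cons 0x2154387690 .nil) (.node 6 8 .nil (.node 5 7 (.cons 0x8345760912 (.cons 0x4576832190 .nil)) (.leaf 0x3457680912 2 .done) (.node 1 8 .nil (.node 4 7 (.cons 0x2386745910 (.cons 0x6905478123 (.cons 0x9056187432 .nil))) (.leaf 0x3216509874 2 (.leaf 0x9812347650 0 .done)) (.node 1 4 (.cons 0x5412387690 .nil) (.leaf 0x2387690541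 3 (.node 0 7 (.cons 0x9507861432 .nil) (.leaf 0x8123456907 3 (.node 2 9 (.cons 0x7861432950 .nil) (.leaf 0x3416870592 4 (.leaf 0x5923416870 5 .done)) .done)) .done)) .done)) .done)) .done) (.node 6 9 (.cons 0x2154387690 .nil) (.node 2 5 (.cons 0x4523876901 .nil) (.leaf 0x4387609125 2 (.node 0 2 (.cons 0x2096783451 .nil) (.node 1 8 (.cons 0x5432096781 .nil) (.node 5 8 (.cons 0x7691854320 .nil) .done (.leaf 0x9023451876 4 .done)) (.leaf 0x3876902154 3 .done)) .done)) .done) .done)) .done)) .done)) .done))) (.node 1 8 .nil (.node 3 9 (.cons 0x4567810932 .nil) (.node 2 4 (.cons 0x3421567890 (.cons 0x9324567801 .nil)) (.node 1 7 (.cons 0x5671089324 .nil) (.leaf 0x893245671 1 (.leaf 0x2390817654 5 .done)) (.leaf 0x1093876542 3 (.leaf 0x3910876542 1 .done))) (.node 2 7 (.cons 0x6543278091 (.cons 0x4390815672 (.cons 0x4567239081 .nil))) (.node 0 4 (.cons 0x5678904321 (.cons 0x5672189340 .nil)) (.node 0 5 (.cons 0x9834051276 .nil) (.leaf 0x8127650439 0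 .done) (.leaf 0x2398104567 2 (.leaf 0x8193276540 1 .done))) (.leaf 0x9345672180 0 .done)) .done)) (.node 1 6 (.cons 0x7809165432 .nil) (.node 1 4 .nil (.node 2 9 (.cons 0x6783451290 (.cons 0x3290876541 .nil)) (.leaf 0x4109238765 3 (.node 3 6 (.cons 0x8763451290 (.cons 0x9236780145 (.cons 0x5143678092 (.cons 0x8763290145 .nil)))) .done .done)) (.node 1 7 .nil (.node 2 9 (.cons 0x6783451290 (.cons 0x9234567180 .nil)) (.leaf 0x7654329081 1 (.leaf 0x7654329081 0 .done)) (.node 1 3 .nil (.node 2 7 (.cons 0x6543278091 .nil) (.node 0 4 (.cons 0x5678904321 (.cons 0x9804315672 (.cons 0x5678904312 .nil))) (.node 2 6 (.cons 0x7809132654 .nil) (.leaf 0x4315627890 5 (.leaf 0x3190872654 4 .done)) .done) (.node 2 9 (.cons 0x6783451290 (.cons 0x4567809231 .nil)) (.leaf 0x5438092761 2 .done) (.leaf 0x5619087234 1 .done))) .done) .done)) .done)) (.node 1 7 .nil (.node 2 9 (.cons 0x6783451290 (.cons 0x9234567180 .nil)) (.leaf 0x7654329081 1 (.leaf 0x7654329081 0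 .done)) (.node 0 6 (.cons 0x9067834512 .nil) (.node 2 7 (.cons 0x6543278091 .nil) (.leaf 0x1543890672 5 (.node 0 7 (.cons 0x8709123456 .nil) (.node 2 6 (.cons 0x8709126543 .nil) (.leaf 0x7834562190 5 (.node 1 3 (.cons 0x7809132654 .nil) (.node 1 4 (.cons 0x7809145623 .nil) .done .done) .done)) .done) (.leaf 0x672154389 2 .done))) (.node 0 7 (.cons 0x8709123456 .nil) (.node 2 7 (.cons 0x6543278091 .nil) (.node 1 3 (.cons 0x9134560872 .nil) (.node 0 3 (.cons 0x4309876512 .nil) (.node 1 4 (.cons 0x9872143065 .nil) .done .done) .done) (.leaf 0x912783456 3 .done)) .done) .done)) .done)) .done)) .done)) (.node 0 5 .nil (.node 4 6 (.cons 0x9012387645 (.cons 0x7643890512 .nil)) (.leaf 0x7832190546 5 (.leaf 0x546783219 2 (.node 1 7 (.cons 0x8905671234 .nil) (.node 1 6 (.cons 0x9167805432 .nil) (.leaf 0x2345098761 4 (.node 2 8 (.cons 0x9105467823 (.cons 0x7823461905 (.cons 0x3287645091 .nil))) (.leaf 0x4328091765 2 .done) .done)) (.leaf 0x5643217890 5 (.leaf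 0x564321789 4 .done))) .done))) (.node 1 8 (.cons 0x7650981234 .nil) (.node 1 7 (.cons 0x8905671234 .nil) (.node 1 6 .nil (.node 2 7 (.cons 0x6721509834 (.cons 0x5089167234 .nil)) (.leaf 0x3276198054 5 (.leaf 0x6198054327 4 .done)) (.node 0 6 (.cons 0x9067834512 .nil) (.node 0 3 (.cons 0x4309876512 .nil) (.node 1 3 .nil (.node 0 2 (.cons 0x9021543876 .nil) (.node 0 4 (.cons 0x5678904321 (.cons 0x5678904312 .nil)) .done .done) .done) .done) (.node 5 8 (.cons 0x6785432190 .nil) (.leaf 0x4321906785 1 (.leaf 0x7609123458 1 .done)) .done)) .done)) .done) (.node 0 6 (.cons 0x9067834512 .nil) (.node 0 3 (.cons 0x4309876512 .nil) (.node 0 2 (.cons 0x9021543876 .nil) (.node 0 4 (.cons 0x5678904321 .nil) (.node 0 7 (.cons 0x9078123456 .nil) .done .done) .done) .done) (.node 5 8 (.cons 0x6785432190 .nil) (.node 4 8 (.cons 0x7650984321 .nil) (.node 2 8 .nil (.node 3 9 (.cons 0x2193458760 (.cons 0x7654821093 (.cons 0x4567823901 .nil))) (.leaf 0x2876543901 2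 .done) (.node 2 5 (.cons 0x9067834521 .nil) (.node 6 8 (.cons 0x7860912543 .nil) .done .done) .done)) .done) (.leaf 0x7609123458 1 .done)) .done)) .done)) (.node 1 7 (.cons 0x6509871234 .nil) (.node 0 3 (.cons 0x4309876512 .nil) (.node 0 4 (.cons 0x5678904321 .nil) (.node 0 2 (.cons 0x9021543876 .nil) (.node 0 6 (.cons 0x9067834512 .nil) (.node 0 7 .nil (.node 2 6 (.cons 0x5432678091 (.cons 0x5126709834 .nil)) (.leaf 0x1543890762 5 (.leaf 0x762154389 2 .done)) .done) .done) .done) (.node 0 6 (.cons 0x9067834512 .nil) (.node 0 2 (.cons 0x9021543876 .nil) (.node 0 7 .nil (.node 2 6 (.cons 0x5432678091 (.cons 0x5126709834 .nil)) (.leaf 0x1543890762 5 (.leaf 0x762154389 2 .done)) .done) .done) .done) .done)) (.node 5 8 (.cons 0x6785432190 .nil) (.node 0 6 (.cons 0x9123458760 .nil) (.node 4 7 (.cons 0x5891234760 .nil) (.leaf 0x8912347605 1 (.leaf 0x8912347605 0 (.leaf 0x8912347605 4 .done))) (.node 0 4 (.cons 0x5678904321 .nil) (.node 2 5 (.cons 0x9067834521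 .nil) (.leaf 0x8917652340 5 (.leaf 0x891765234 4 .done)) (.node 0 7 .nil (.node 4 6 (.cons 0x9871234650 (.cons 0x9870564321 (.cons 0x5891234670 .nil))) (.leaf 0x5643217890 5 .done) .done) .done)) .done)) (.node 0 6 (.cons 0x9067834512 .nil) (.leaf 0x9123458760 0 (.leaf 0x7609123458 1 .done)) .done)) .done)) (.node 4 6 (.cons 0x7890564321 .nil) (.leaf 0x2346509871 4 (.node 1 6 (.cons 0x7890561234 .nil) (.node 5 8 (.cons 0x6785432190 .nil) (.node 2 5 (.cons 0x9176432580 .nil) (.leaf 0x1764325809 4 (.leaf 0x6719085234 0 .done)) (.node 2 5 (.cons 0x9083467152 .nil) (.leaf 0x6719085234 3 (.node 5 9 (.cons 0x2345916780 .nil) (.node 3 5 (.cons 0x4671908532 .nil) (.node 5 7 (.cons 0x4325761980 .nil) .done .done) .done) .done)) .done)) .done) (.node 2 9 (.cons 0x6783451290 .nil) (.leaf 0x921783465 5 (.leaf 0x1783465092 4 (.node 1 3 (.cons 0x5467831290 .nil) (.leaf 0x8312905467 5 (.leaf 0x2905467831 4 (.node 2 5 (.cons 0x9087134652 .nil) (.node 3 9 (.cons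 0x9387645210 .nil) (.leaf 0x6452109387 4 (.leaf 0x7801932546 5 .done)) (.node 1 8 (.cons 0x9081765234 .nil) (.node 1 4 (.cons 0x3290876541 .nil) (.node 1 6 (.cons 0x7890561234 .nil) .done .done) .done) .done)) .done))) .done))) (.leaf 0x564321789 4 .done)))) .done)) .done))) .done)))
noncomputable def tc9_6_10 : T := (.node 4 7 (.cons 0x6512347890 .nil) (.node 0 5 .nil (.node 1 6 (.cons 0x9054387612 .nil) (.leaf 0x2347890561 4 (.leaf 0x3216789054 2 (.leaf 0x3216509874 2 .done))) (.node 4 6 (.cons 0x9012387645 .nil) (.node 6 9 (.cons 0x7438960512 .nil) (.node 2 7 (.cons 0x3465127890 .nil) (.node 0 3 (.cons 0x7890346512 .nil) (.leaf 0x8903465127 2 (.node 0 7 .nil (.node 2 6 (.cons 0x9623874510 (.cons 0x9623870154 (.cons 0x9078346215 .nil))) (.leaf 0x3874510962 2 .done) .done) .done)) (.node 1 4 (.cons 0x8723415690 .nil) (.leaf 0x5143278096 1 (.leaf 0x7234156908 0 .done)) (.leaf 0x8960512743 1 .done))) (.node 0 7 (.cons 0x3870964512 .nil) (.leaf 0x9645123870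 1 (.node 4 8 (.cons 0x4870965123 .nil) (.node 3 7 (.cons 0x1237845690 .nil) (.leaf 0x8456901237 0 .done) .done) .done)) .done)) (.node 2 9 (.cons 0x3298746510 .nil) (.leaf 0x923876451 5 (.node 1 3 (.cons 0x5647892310 .nil) (.node 6 9 (.cons 0x3296547801 .nil) (.leaf 0x5478013296 1 (.node 0 7 (.cons 0x2987056431 .nil) (.leaf 0x8921346507 4 (.leaf 0x8312964507 4 .done)) .done)) (.leaf 0x6478923105 2 (.leaf 0x7465013298 3 .done))) (.node 3 6 (.cons 0x6347892150 .nil) (.node 3 5 (.cons 0x6478923510 .nil) (.node 1 3 (.cons 0x8921347605 .nil) (.node 4 8 (.cons 0x9847653210 .nil) (.leaf 0x3129056784 4 (.leaf 0x1348765092 2 .done)) .done) (.leaf 0x9235106478 2 .done)) (.node 5 9 (.cons 0x8746329510 .nil) (.leaf 0x3295108746 2 (.node 1 8 (.cons 0x9547601832 .nil) (.leaf 0x5476018329 1 (.leaf 0x7812905436 1 .done)) (.leaf 0x2364780159 4 .done))) .done)) (.leaf 0x3876451092 4 .done)))) .done)) .done)) (.node 0 5 .nil (.node 1 8 (.cons 0x9812347605 .nil) (.leaf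 0x3218905674 4 (.node 5 8 (.cons 0x9850674321 .nil) (.node 1 4 (.cons 0x5890674123 (.cons 0x9850674123 .nil)) (.node 3 5 (.cons 0x6743509812 .nil) (.leaf 0x2358906741 5 (.leaf 0x8906741235 4 .done)) .done) .done) .done)) (.node 0 4 (.cons 0x5678904321 .nil) (.node 5 8 (.cons 0x5890674321 .nil) (.node 0 7 (.cons 0x9851234706 .nil) (.node 0 3 .nil (.node 6 9 (.cons 0x7432158960 (.cons 0x7430698512 (.cons 0x8745123096 .nil))) (.leaf 0x4321589607 2 .done) .done) .done) (.node 0 3 .nil (.node 1 4 (.cons 0x5890674123 (.cons 0x9876503412 (.cons 0x7658903214 (.cons 0x5678903412 .nil)))) .done (.node 0 7 .nil (.node 6 9 (.cons 0x6903215874 (.cons 0x6907834512 (.cons 0x6907832154 .nil))) (.leaf 0x8704321569 2 .done) .done) .done)) .done)) .done) .done)) (.leaf 0x1560987432 4 (.leaf 0x5123478906 5 .done)))) (.node 1 9 (.cons 0x8765432190 .nil) (.node 4 9 (.cons 0x8765490123 .nil) (.leaf 0x2109456783 3 (.node 5 8 (.cons 0x5876094321 .nil) (.node 0 4 (.cons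 0x7658912340 .nil) (.leaf 0x2340987651 4 (.node 4 8 (.cons 0x9065123487 .nil) (.node 1 8 .nil (.node 2 5 (.cons 0x7608523491 .nil) (.node 3 5 (.cons 0x6781094532 .nil) (.leaf 0x7812354906 5 .done) (.leaf 0x9067815234 4 .done)) .done) .done) (.node 0 7 (.cons 0x4321985670 .nil) (.leaf 0x1985670432 0 .done) .done))) (.leaf 0x943215876 3 (.leaf 0x943215876 2 .done))) (.node 4 8 (.cons 0x9065123487 .nil) (.node 5 9 (.cons 0x6783210954 .nil) (.node 3 9 (.cons 0x7654801932 .nil) (.node 7 9 (.cons 0x6548793210 .nil) (.leaf 0x1234879065 3 (.leaf 0x8793210654 1 .done)) .done) (.node 1 4 (.cons 0x6783214590 .nil) (.leaf 0x7832145906 5 .done) .done)) (.node 0 4 (.cons 0x5678904321 .nil) (.leaf 0x2340987651 4 (.node 1 4 .nil (.node 5 9 (.cons 0x6783210954 (.cons 0x6783214590 .nil)) (.leaf 0x7832145906 3 .done) (.node 4 7 (.cons 0x6512347890 .nil) (.node 2 4 (.cons 0x6510987423 .nil) (.node 4 6 (.cons 0x9012387645 .nil) .done .done) .done) .done)) .done)) .done))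 (.node 3 9 .nil (.node 1 8 (.cons 0x7815609432 (.cons 0x2394567810 (.cons 0x2187654390 .nil))) .done (.node 0 3 .nil (.node 1 8 (.cons 0x7815609432 (.cons 0x9456781032 (.cons 0x9034567812 .nil))) .done (.node 0 5 .nil (.node 1 6 (.cons 0x5490167832 (.cons 0x9450167832 (.cons 0x9054387612 .nil))) .done (.node 5 9 (.cons 0x6783210954 .nil) (.node 1 4 (.cons 0x6783214590 .nil) (.node 0 7 (.cons 0x6507893412 .nil) (.node 2 5 (.cons 0x3256789410 .nil) (.leaf 0x8914325670 4 (.leaf 0x6783259410 5 .done)) .done) (.leaf 0x7832145906 5 (.leaf 0x8760954123 4 .done))) .done) .done)) .done)) .done)) .done)))) (.node 5 8 (.cons 0x6785432190 .nil) (.node 4 8 (.cons 0x9065123487 .nil) (.node 7 9 (.cons 0x5609784321 .nil) (.node 5 7 (.cons 0x9065784321 .nil) (.node 2 6 (.cons 0x6215438790 .nil) (.node 3 5 (.cons 0x5348791260 .nil) (.node 0 3 (.cons 0x9784562103 .nil) (.node 3 9 (.cons 0x3978456210 .nil) (.leaf 0x6548793012 2 .done) .done) .done) (.leaf 0x9062348751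 2 (.leaf 0x915784326 4 .done))) (.leaf 0x2190657843 5 .done)) (.node 5 7 (.cons 0x9065784321 .nil) (.node 2 8 (.cons 0x4328790651 .nil) (.node 2 5 (.cons 0x6091257843 .nil) (.node 0 5 .nil (.node 1 6 (.cons 0x9167805432 (.cons 0x4389057612 (.cons 0x9054387612 .nil))) (.leaf 0x9784325061 1 .done) .done) .done) .done) (.leaf 0x2190657843 5 .done)) (.leaf 0x651234879 2 .done))) (.node 1 8 .nil (.node 4 9 (.cons 0x8765490123 (.cons 0x7812349065 (.cons 0x7815609432 .nil))) (.node 0 7 (.cons 0x1234985670 .nil) (.leaf 0x8943210765 4 (.node 2 9 (.cons 0x6701294583 (.cons 0x7065812943 .nil)) (.leaf 0x7092183456 2 .done) .done)) .done) .done) .done)) (.leaf 0x1906785432 2 (.node 0 5 .nil (.node 4 6 (.cons 0x9012387645 .nil) (.leaf 0x7832190546 5 (.leaf 0x5091238764 4 (.leaf 0x546783219 2 (.leaf 0x9058764321 2 .done)))) (.node 2 5 .nil (.node 1 7 (.cons 0x8905671234 (.cons 0x6719805234 (.cons 0x6712509834 .nil))) (.node 4 9 (.cons 0x6517809432 (.cons 0x8094325671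 (.cons 0x6523490871 (.cons 0x8349052176 (.cons 0x6783254901 .nil))))) .done .done) (.node 0 3 .nil (.node 4 9 (.cons 0x8765490123 (.cons 0x1256789430 (.cons 0x4987652301 .nil))) (.leaf 0x2567894301 0 (.leaf 0x2109456783 3 .done)) (.node 0 2 .nil (.node 1 6 (.cons 0x7619805234 (.cons 0x9167802345 (.cons 0x9167802543 .nil))) (.leaf 0x2091678543 0 .done) (.node 0 4 (.cons 0x5678904321 .nil) (.node 0 7 .nil (.node 3 6 (.cons 0x5219876340 (.cons 0x9870436512 (.cons 0x6340789152 .nil))) (.leaf 0x5409123678 1 .done) .done) .done) .done)) .done)) .done)) (.node 0 7 .nil (.node 4 9 (.cons 0x8765490123 (.cons 0x6709458321 .nil)) (.leaf 0x2109456783 3 (.leaf 0x1560789432 4 (.leaf 0x5123498706 5 .done))) (.node 0 4 (.cons 0x5678904321 .nil) (.leaf 0x2340987651 4 (.node 0 2 .nil (.node 1 6 (.cons 0x9054387612 (.cons 0x9167802345 (.cons 0x9021678345 .nil))) (.leaf 0x2091678543 0 .done) (.node 0 3 .nil (.node 1 4 (.cons 0x9876503412 (.cons 0x7658903214 (.cons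 0x5678903412 .nil))) (.node 2 6 (.cons 0x9054387621 (.cons 0x5419087623 .nil)) (.leaf 0x7854190326 3 .done) .done) .done) .done)) .done)) .done)) .done))) .done))) (.node 0 5 (.cons 0x6783450912 .nil) (.node 1 8 (.cons 0x7650981234 .nil) (.node 0 3 (.cons 0x8765430912 .nil) (.node 0 2 .nil (.node 3 9 (.cons 0x7654391802 (.cons 0x9320187654 .nil)) (.node 0 4 (.cons 0x7650439812 .nil) (.leaf 0x7812390456 1 .done) .done) (.node 0 4 (.cons 0x5678904321 .nil) (.node 0 7 .nil (.node 2 5 (.cons 0x6783452190 (.cons 0x6521987034 .nil)) (.node 2 6 (.cons 0x5438762190 (.cons 0x5621987034 .nil)) (.leaf 0x1267054389 5 .done) .done) .done) .done) .done)) .done) .done) (.node 1 8 .nil (.node 5 9 (.cons 0x6783210954 .nil) (.node 4 7 (.cons 0x6512347890 (.cons 0x9506743812 (.cons 0x8123476095 (.cons 0x5906743812 (.cons 0x9065187432 .nil))))) .done (.leaf 0x7812345906 2 (.node 2 9 (.cons 0x6783450921 (.cons 0x7654329081 (.cons 0x6781290543 .nil))) (.node 1 4 (.cons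 0x6783214590 .nil) (.node 0 7 (.cons 0x6507892143 .nil) (.leaf 0x8143295607 4 .done) (.node 5 7 (.cons 0x6750983412 (.cons 0x9234180657 (.cons 0x4329065781 .nil))) .done (.leaf 0x7832145906 5 .done))) .done) .done))) (.node 1 6 (.cons 0x9054387612 .nil) (.node 5 8 .nil (.node 4 9 (.cons 0x8765490123 (.cons 0x7856094321 (.cons 0x5876094321 (.cons 0x7610945832 .nil)))) (.leaf 0x2349067851 2 .done) (.node 2 8 (.cons 0x3456782190 .nil) (.node 0 7 (.cons 0x9076123854 .nil) (.node 1 7 (.cons 0x9082345617 .nil) (.node 1 3 .nil (.node 0 2 (.cons 0x9134567802 .nil) (.leaf 0x5431902876 4 (.leaf 0x1345678902 2 .done)) .done) .done) .done) .done) .done)) .done) .done)) .done)) .done))) (.node 0 4 (.cons 0x5678904321 .nil) (.leaf 0x2340987651 4 (.node 0 5 .nil (.node 1 9 (.cons 0x8765432190 (.cons 0x6783450912 .nil)) (.leaf 0x2340567891 4 (.leaf 0x3219876504 2 .done)) (.node 1 8 (.cons 0x7650981234 .nil) (.node 4 8 (.cons 0x7650984321 .nil) (.node 6 8 .nil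 (.node 1 7 (.cons 0x3489056712 (.cons 0x5098671234 (.cons 0x9043217865 (.cons 0x9054386712 .nil)))) .done (.node 5 8 .nil (.node 1 6 (.cons 0x7890432165 (.cons 0x9043216587 .nil)) (.node 7 9 (.cons 0x4321897650 (.cons 0x8543216790 (.cons 0x4583216790 .nil))) (.leaf 0x5832167904 2 (.leaf 0x3218976504 5 .done)) .done) .done) .done)) .done) (.node 4 8 (.cons 0x7650984321 .nil) (.node 0 3 (.cons 0x9034567812 .nil) (.node 0 2 (.cons 0x9021876543 .nil) (.node 0 7 .nil (.node 2 4 (.cons 0x7890651243 (.cons 0x5670981243 .nil)) .done .done) .done) .done) .done) .done)) .done)) (.node 4 7 (.cons 0x6512347890 .nil) (.node 0 5 .nil (.node 1 6 (.cons 0x9876123405 .nil) (.leaf 0x2347890561 4 (.leaf 0x2345098761 4 (.leaf 0x3216509874 2 .done))) (.node 2 5 (.cons 0x9834760521 .nil) (.node 3 5 (.cons 0x9876043521 .nil) (.node 1 9 (.cons 0x8912347650 .nil) (.leaf 0x4067891253 0 (.node 3 7 (.cons 0x4378906512 .nil) (.node 0 7 .nil (.node 1 4 (.cons 0x2534198760 (.cons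 0x9807652341 (.cons 0x9834125076 .nil))) .done .done) .done) (.leaf 0x4067891253 1 .done))) .done) (.node 2 9 (.cons 0x3478921560 .nil) (.leaf 0x8347605129 3 (.node 3 9 (.cons 0x8745601293 .nil) (.node 5 8 (.cons 0x4765893210 .nil) (.leaf 0x3921067458 1 (.leaf 0x1239856740 5 .done)) (.leaf 0x654783921 1 .done)) (.node 2 7 (.cons 0x9834721506 .nil) (.node 0 7 .nil (.node 1 9 (.cons 0x8912347650 (.cons 0x6519807432 .nil)) (.node 0 2 (.cons 0x8912056743 .nil) (.leaf 0x1983476502 2 .done) .done) .done) .done) .done))) .done)) .done)) (.node 0 5 .nil (.node 4 9 (.cons 0x8765490123 .nil) (.leaf 0x6501234987 4 (.leaf 0x5678943210 5 (.node 1 3 (.cons 0x8765490132 (.cons 0x4987650132 (.cons 0x8905674312 .nil))) (.node 1 6 (.cons 0x5490167832 (.cons 0x9450167832 (.cons 0x5098347612 .nil))) .done .done) .done))) (.node 2 5 (.cons 0x6743890521 .nil) (.node 3 5 (.cons 0x9876043521 .nil) (.node 1 9 (.cons 0x6743891250 .nil) (.leaf 0x4067891253 0 (.node 5 8 (.cons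 0x6785432190 .nil) (.node 1 8 (.cons 0x3476509812 .nil) (.node 1 4 (.cons 0x2534198760 .nil) (.node 0 2 (.cons 0x4352067891 .nil) (.leaf 0x5341987602 4 (.leaf 0x3520678914 2 .done)) .done) .done) (.leaf 0x7609123458 1 .done)) (.leaf 0x4067891253 1 .done))) .done) (.node 1 4 (.cons 0x6741250983 .nil) (.node 4 8 (.cons 0x7650984321 .nil) (.node 2 4 (.cons 0x7890651243 .nil) (.node 4 6 (.cons 0x9012387645 .nil) (.node 4 9 (.cons 0x3876094521 .nil) .done .done) .done) .done) (.node 3 5 (.cons 0x6741253890 .nil) (.leaf 0x1253890674 4 (.node 5 7 (.cons 0x5760983412 .nil) (.leaf 0x8906752143 5 .done) .done)) .done)) .done)) .done)) (.leaf 0x8906512347 2 .done))) .done))) .done)))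
noncomputable def tc9_6_11 : T := (.node 0 7 (.cons 0x8907651234 .nil) (.node 6 8 (.cons 0x7865432190 .nil) (.node 1 8 .nil (.node 2 6 (.cons 0x9154326807 .nil) (.leaf 0x762345189 2 (.node 5 9 (.cons 0x4321598670 (.cons 0x8159076234 .nil)) (.leaf 0x1234590768 5 (.leaf 0x2186709543 4 .done)) (.leaf 0x7098154326 4 .done))) (.node 1 6 (.cons 0x7809165432 .nil) (.node 4 8 (.cons 0x7651234890 .nil) (.node 5 8 (.cons 0x6709851234 .nil) (.node 5 9 (.cons 0x4321598670 .nil) (.leaf 0x8432165907 2 (.leaf 0x8432165907 3 .done)) .done) .done) .done) .done)) (.leaf 0x9123456870 2 (.leaf 0x9123456870 3 .done))) (.node 4 8 (.cons 0x7651234890 .nil) (.node 0 6 (.cons 0x9123487065 .nil) (.node 1 8 .nil (.node 2 7 (.cons 0x6543278091 (.cons 0x9180654327 (.cons 0x9081543276 .nil))) (.leaf 0x5609187234 1 .done) (.node 6 8 (.cons 0x7865432190 .nil) (.node 0 3 (.cons 0x9034567812 .nil) (.node 1 4 (.cons 0x9032145687 .nil) (.node 0 4 (.cons 0x5678904321 .nil) (.node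 0 5 (.cons 0x9123487056 .nil) .done .done) .done) .done) .done) .done)) (.node 2 7 (.cons 0x6543278091 .nil) (.leaf 0x1543890672 5 (.node 0 5 (.cons 0x9123487056 .nil) (.node 2 9 (.cons 0x5438760921 .nil) (.node 0 2 .nil (.node 1 8 (.cons 0x7654329081 (.cons 0x9021876543 .nil)) .done .done) (.leaf 0x8076519234 4 .done)) .done) (.leaf 0x912783456 3 .done))) .done)) (.node 3 7 (.cons 0x9012378456 .nil) (.node 2 7 (.cons 0x6543278091 .nil) (.node 6 8 (.cons 0x7865432190 .nil) (.node 1 8 (.cons 0x9081543276 .nil) (.node 1 7 .nil (.node 2 9 (.cons 0x3456781290 (.cons 0x7192345680 .nil)) (.leaf 0x1708654329 1 .done) .done) .done) (.leaf 0x4519086723 2 (.node 4 9 (.cons 0x9486512370 .nil) (.leaf 0x2156849073 1 (.leaf 0x2156849073 4 (.leaf 0x6832154907 2 (.leaf 0x6832154907 3 .done)))) .done))) (.node 2 8 .nil (.node 4 9 (.cons 0x6723809451 (.cons 0x9456732801 (.cons 0x9451082376 (.cons 0x6519437082 (.cons 0x4982376510 .nil))))) .done (.node 6 8 (.cons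 0x7865432190 .nil) (.node 2 9 (.cons 0x9215684370 .nil) (.leaf 0x4865129073 0 (.leaf 0x4865129073 4 .done)) (.node 4 9 (.cons 0x9486512370 .nil) (.leaf 0x2156849073 1 (.leaf 0x2156849073 4 (.leaf 0x8076519432 4 (.leaf 0x6832154907 3 .done)))) .done)) .done)) .done)) (.node 6 9 (.cons 0x2378456901 .nil) (.leaf 0x965487321 1 (.node 0 6 .nil (.node 2 5 (.cons 0x1254387690 (.cons 0x7834521960 .nil)) (.leaf 0x6078345219 1 (.node 1 4 (.cons 0x6907384152 (.cons 0x4198732560 (.cons 0x8906732514 .nil))) (.leaf 0x8325419067 5 .done) .done)) (.node 4 6 (.cons 0x9012387645 .nil) (.node 2 7 (.cons 0x7234651980 .nil) (.leaf 0x1564327089 4 (.leaf 0x1564327089 1 (.leaf 0x6519807234 0 .done))) (.node 2 8 (.cons 0x2843709651 .nil) (.node 2 9 (.cons 0x1569284370 .nil) (.leaf 0x8437015692 5 (.leaf 0x154678329 1 (.leaf 0x3876451092 1 .done))) (.leaf 0x6519078234 1 .done)) .done)) .done)) (.node 3 9 .nil (.node 1 8 (.cons 0x7096518432 (.cons 0x2187654390 .nil)) (.node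 2 4 (.cons 0x5423876901 (.cons 0x5693248701 (.cons 0x7018423965 (.cons 0x5423967810 .nil)))) .done .done) (.node 1 8 (.cons 0x7096518432 .nil) (.node 1 3 (.cons 0x7845690132 .nil) (.node 1 6 (.cons 0x7809165432 .nil) (.node 2 8 (.cons 0x2873456190 .nil) (.node 1 4 (.cons 0x4156732890 .nil) (.leaf 0x8237096514 4 .done) .done) .done) .done) (.node 2 7 (.cons 0x8127654390 .nil) (.leaf 0x1548327690 2 (.leaf 0x9345672180 0 (.leaf 0x9345672180 1 .done))) .done)) .done)) (.leaf 0x8456901237 0 .done)))) .done)) (.leaf 0x6512348907 0 .done))) (.node 2 6 (.cons 0x8709126543 .nil) (.leaf 0x1543890762 5 (.leaf 0x7098345126 4 (.node 0 5 .nil (.node 0 4 (.cons 0x5678904321 .nil) (.leaf 0x2340567891 2 (.leaf 0x2340987651 2 (.leaf 0x3219876504 4 .done))) (.node 3 5 (.cons 0x8709126534 .nil) (.node 0 4 (.cons 0x5678904321 .nil) (.leaf 0x3562198704 4 (.leaf 0x7891265340 5 .done)) (.node 0 6 .nil (.node 5 7 (.cons 0x4326578091 (.cons 0x4321987560 (.cons 0x6091238754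 .nil))) .done (.node 0 4 (.cons 0x5678904321 .nil) (.node 0 2 .nil (.node 1 4 (.cons 0x4109876532 (.cons 0x6534198702 (.cons 0x2098765341 .nil))) .done .done) .done) .done)) .done)) .done)) (.leaf 0x762154389 2 .done)))) .done))) (.node 0 6 (.cons 0x8760912345 .nil) (.node 5 8 (.cons 0x6785432190 .nil) (.node 0 4 (.cons 0x5678904321 .nil) (.leaf 0x2340987651 2 (.node 0 7 (.cons 0x8907651234 .nil) (.node 4 8 (.cons 0x7651234890 .nil) (.node 3 7 (.cons 0x9012378456 .nil) (.node 7 9 (.cons 0x6798512340 .nil) (.leaf 0x1065489732 0 (.leaf 0x6012379845 4 (.leaf 0x6012379845 1 .done))) (.node 2 4 (.cons 0x5891067324 .nil) (.leaf 0x1567324890 2 (.leaf 0x1067324589 1 .done)) .done)) (.leaf 0x6512348907 0 .done)) (.node 0 5 (.cons 0x7605891234 .nil) (.node 4 7 (.cons 0x5891234760 .nil) (.node 0 2 (.cons 0x9802347651 .nil) (.leaf 0x3476519802 0 .done) (.leaf 0x8912347605 4 .done)) .done) .done)) (.node 0 5 (.cons 0x7605891234 .nil) (.node 4 7 (.cons 0x5891234760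 .nil) (.node 2 5 (.cons 0x6743251980 .nil) (.leaf 0x7608915234 1 .done) (.leaf 0x8912347605 1 (.leaf 0x8912347605 4 .done))) .done) .done))) (.node 0 5 .nil (.node 4 6 (.cons 0x9012387645 (.cons 0x7643890512 .nil)) (.leaf 0x7832190546 5 (.leaf 0x912346785 4 .done)) (.node 0 4 (.cons 0x5678904321 .nil) (.leaf 0x2340987651 2 (.node 0 7 (.cons 0x8907651234 .nil) (.node 4 8 (.cons 0x7651234890 .nil) (.node 2 8 (.cons 0x6782190543 .nil) (.node 2 5 (.cons 0x7605219843 .nil) (.node 3 5 (.cons 0x7605348912 .nil) (.node 2 7 (.cons 0x2760534891 .nil) (.leaf 0x3276019845 1 .done) .done) .done) .done) (.leaf 0x6512348907 0 .done)) .done) .done)) .done)) (.leaf 0x9123458760 4 (.leaf 0x9123458760 0 .done)))) (.node 0 7 (.cons 0x8907651234 .nil) (.node 4 8 (.cons 0x7651234890 .nil) (.leaf 0x1234890765 0 (.node 0 4 (.cons 0x5678904321 .nil) (.node 0 2 .nil (.node 1 4 (.cons 0x9802341567 (.cons 0x5678902143 .nil)) (.leaf 0x9876514320 5 .done) (.node 0 3 .nil (.node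 1 4 (.cons 0x5678903412 .nil) (.node 2 9 (.cons 0x3290876541 .nil) (.leaf 0x923415678 5 (.leaf 0x4109238765 3 .done)) (.node 0 5 (.cons 0x9876503412 .nil) .done .done)) .done) .done)) (.node 1 4 .nil (.node 2 9 (.cons 0x3290876541 .nil) (.leaf 0x923415678 5 (.leaf 0x4109238765 3 (.leaf 0x4329087651 2 .done))) (.node 0 5 .nil (.node 2 6 (.cons 0x5432678091 (.cons 0x9834051267 (.cons 0x7623419805 (.cons 0x9145087623 .nil)))) .done (.node 4 7 (.cons 0x6509874321 .nil) (.node 1 6 (.cons 0x2347890561 .nil) (.node 1 8 (.cons 0x2347651890 .nil) .done .done) .done) .done)) .done)) .done)) (.node 0 4 (.cons 0x5678904321 .nil) (.node 4 9 (.cons 0x8765490123 .nil) (.leaf 0x2109456783 3 (.node 4 6 (.cons 0x8907643215 .nil) (.node 4 7 .nil (.node 0 2 (.cons 0x7651209843 .nil) (.leaf 0x8023476519 1 .done) .done) .done) .done)) (.leaf 0x2340987651 2 .done)) .done))) (.node 2 6 (.cons 0x5432678091 .nil) (.leaf 0x1543890762 5 (.leaf 0x7098345126 4 (.leaf 0x762154389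 2 .done))) .done)) (.node 0 5 .nil (.node 4 6 (.cons 0x9012387645 .nil) (.leaf 0x7832190546 5 (.leaf 0x5091238764 4 (.node 2 7 (.cons 0x5127609834 (.cons 0x4672389051 .nil)) (.leaf 0x3890512764 2 (.leaf 0x6451098327 1 (.node 4 9 (.cons 0x8094327651 (.cons 0x8349051276 .nil)) (.leaf 0x6501234987 4 (.leaf 0x5678943210 5 .done)) .done))) .done))) (.node 2 5 (.cons 0x9067834521 .nil) (.node 3 5 (.cons 0x4352198760 .nil) (.node 5 8 (.cons 0x6785432190 .nil) (.node 5 7 (.cons 0x4389067512 .nil) (.node 5 9 (.cons 0x6783210954 .nil) .done .done) (.leaf 0x7609123458 1 .done)) .done) (.node 1 6 (.cons 0x7890561234 .nil) (.node 2 9 (.cons 0x5432916780 .nil) (.leaf 0x4329167805 2 (.node 3 7 (.cons 0x8734560921 .nil) (.leaf 0x9160873452 1 (.node 0 7 (.cons 0x8907651234 .nil) (.node 2 7 (.cons 0x5127609834 .nil) (.leaf 0x1543890672 5 .done) .done) (.leaf 0x6192543780 0 .done))) .done)) (.node 1 3 (.cons 0x9067831254 .nil) (.node 1 7 (.cons 0x6509871234 .nil)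 (.node 1 4 (.cons 0x6780914523 .nil) (.node 1 8 .nil (.node 2 7 (.cons 0x5609872143 (.cons 0x9081543276 (.cons 0x9081567234 .nil))) (.leaf 0x1543890672 5 .done) .done) .done) .done) (.node 4 9 (.cons 0x3876094521 .nil) (.leaf 0x2549067831 2 (.leaf 0x2109456783 3 (.leaf 0x5213876094 4 (.leaf 0x945213876 5 .done)))) .done)) .done)) .done)) .done)) .done))) (.node 0 5 (.cons 0x6783450912 .nil) (.node 1 6 (.cons 0x7890561234 .nil) (.node 5 9 (.cons 0x6783210954 .nil) (.node 4 9 (.cons 0x7894321650 .nil) (.node 6 9 .nil (.node 1 7 (.cons 0x7165089432 (.cons 0x9617805432 .nil)) (.leaf 0x9654321780 2 .done) (.node 4 7 (.cons 0x9612387450 .nil) (.leaf 0x5476908321 5 (.node 7 9 (.cons 0x6150897432 .nil) .done (.leaf 0x9674512380 2 (.leaf 0x5478321690 1 .done)))) .done)) (.leaf 0x2109456783 3 (.node 3 5 .nil (.node 2 6 (.cons 0x5438762190 (.cons 0x7805349162 (.cons 0x4538762190 .nil))) (.leaf 0x1094538762 4 .done) (.node 6 9 (.cons 0x8769453210 .nil) (.leaf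 0x3549678012 0 (.node 4 7 (.cons 0x9612387450 .nil) (.leaf 0x5476908321 5 (.leaf 0x9674512380 2 (.leaf 0x5478321690 1 .done))) .done)) .done)) .done))) (.node 2 5 (.cons 0x6783452190 .nil) (.node 1 4 (.cons 0x6783214590 .nil) (.node 1 8 .nil (.node 6 9 (.cons 0x7812345690 .nil) (.leaf 0x4321876905 3 (.node 5 7 (.cons 0x8321096754 (.cons 0x2183457690 (.cons 0x4576901832 .nil))) .done (.leaf 0x4321876905 2 .done))) .done) (.node 0 6 (.cons 0x9125438760 .nil) (.leaf 0x9541238760 4 (.leaf 0x7832145906 5 (.leaf 0x5906783214 2 .done))) .done)) .done) .done)) (.node 0 6 (.cons 0x5438760912 .nil) (.node 2 5 (.cons 0x6783452190 .nil) (.leaf 0x3452190678 4 (.node 5 9 (.cons 0x6783210954 .nil) (.node 2 6 (.cons 0x5438762190 .nil) (.node 0 3 (.cons 0x8765430912 .nil) (.node 2 4 (.cons 0x3876245910 .nil) (.node 5 7 (.cons 0x8345760912 .nil) (.leaf 0x8091675243 1 (.leaf 0x8091675243 4 .done)) (.leaf 0x8301954267 1 (.leaf 0x7610954238 1 .done))) .done) .done)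 .done) .done)) (.node 2 7 (.cons 0x5127609834 .nil) (.leaf 0x1543890672 5 (.node 1 7 (.cons 0x6509871234 .nil) (.node 6 8 (.cons 0x9086723451 .nil) (.leaf 0x7234519086 1 (.node 1 3 (.cons 0x9086723154 .nil) (.node 1 8 (.cons 0x9081543276 .nil) .done .done) .done)) .done) (.node 0 7 (.cons 0x8907651234 .nil) (.node 1 7 (.cons 0x6509871234 .nil) (.node 0 4 (.cons 0x5678904321 .nil) (.node 4 6 (.cons 0x9871234650 .nil) (.leaf 0x7219056438 3 (.leaf 0x5643217890 5 .done)) .done) .done) .done) (.leaf 0x672154389 2 .done)))) .done)) .done)) (.node 0 6 (.cons 0x5438760912 .nil) (.node 0 4 (.cons 0x5678904321 .nil) (.leaf 0x2340987651 2 (.node 0 7 (.cons 0x8907651234 .nil) (.node 0 3 (.cons 0x8765430912 .nil) (.node 0 2 .nil (.node 4 7 (.cons 0x6743890512 (.cons 0x9802347651 (.cons 0x8902156743 (.cons 0x8902347651 .nil)))) .done .done) .done) .done) .done)) (.node 0 7 (.cons 0x8907651234 .nil) (.node 1 6 (.cons 0x9054387612 .nil) (.node 0 4 (.cons 0x5678904321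 .nil) (.node 0 3 (.cons 0x8765430912 .nil) (.node 0 2 .nil (.node 2 9 (.cons 0x7619208345 (.cons 0x7802916543 .nil)) (.leaf 0x6154329807 2 (.leaf 0x7834509216 2 .done)) .done) .done) (.leaf 0x2340987651 2 .done)) .done) .done) .done)) .done)) .done)))
noncomputable def tc9_6_12 : T := (.node 0 5 (.cons 0x7650981234 .nil) (.node 1 6 (.cons 0x9054387612 .nil) (.leaf 0x2345098761 4 (.node 4 9 (.cons 0x8765490123 (.cons 0x6789432150 (.cons 0x5094387612 .nil))) (.leaf 0x6501234987 4 (.leaf 0x5678943210 5 (.node 0 6 (.cons 0x9451067832 .nil) (.node 2 7 (.cons 0x5106723894 (.cons 0x5189432760 (.cons 0x9451832760 .nil))) (.leaf 0x3276015498 1 (.leaf 0x6723498150 1 .done)) (.leaf 0x8760512349 2 .done)) .done))) .done)) (.node 4 7 (.cons 0x6509874321 .nil) (.node 6 9 (.cons 0x1234789650 (.cons 0x7432189650 .nil)) (.node 0 2 (.cons 0x9678345120 (.cons 0x7690218345 (.cons 0x9650218743 .nil))) (.node 3 5 (.cons 0x6987435021 (.cons 0x5347698120 .nil)) (.leaf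 0x8967435021 2 .done) .done) (.leaf 0x7896501234 2 (.node 0 3 (.cons 0x4789650321 (.cons 0x9650321874 .nil)) (.node 2 9 (.cons 0x7654329081 (.cons 0x7456923081 (.cons 0x5476923081 .nil))) (.leaf 0x6923081547 1 .done) .done) .done))) (.node 6 9 (.cons 0x6987432150 (.cons 0x6905478123 .nil)) (.node 5 8 (.cons 0x3218547690 .nil) (.leaf 0x4769058123 5 .done) (.node 0 6 (.cons 0x3478960512 .nil) (.node 5 8 (.cons 0x9067458123 .nil) (.leaf 0x6743215890 3 .done) (.node 0 3 (.cons 0x6987430512 .nil) (.node 5 9 (.cons 0x6783210954 (.cons 0x9518067432 (.cons 0x8123095476 .nil))) (.leaf 0x7812345906 2 .done) .done) .done)) (.leaf 0x4321876905 2 .done))) (.leaf 0x9812347650 0 (.leaf 0x9812347650 4 .done)))) (.node 2 9 (.cons 0x6783450921 (.cons 0x7654329081 (.cons 0x6781290543 .nil))) (.node 3 9 (.cons 0x4567810932 .nil) (.node 2 4 (.cons 0x1243987650 (.cons 0x7650981243 (.cons 0x6789342150 .nil))) (.node 3 5 (.cons 0x4235678901 .nil) (.leaf 0x9876534210 5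 (.leaf 0x8901243567 4 .done)) .done) (.node 2 4 (.cons 0x7651089324 (.cons 0x7650981243 .nil)) (.leaf 0x5678109324 2 (.node 2 7 (.cons 0x6724398051 (.cons 0x4398127650 (.cons 0x8127650934 (.cons 0x4567239081 .nil)))) .done .done)) .done)) (.node 2 6 (.cons 0x9054387621 (.cons 0x9054381267 .nil)) (.node 3 9 (.cons 0x9387621054 (.cons 0x4567810932 .nil)) (.node 4 7 (.cons 0x4765108932 (.cons 0x2189347650 (.cons 0x3926745081 (.cons 0x1839267450 .nil)))) (.leaf 0x6293810547 1 .done) (.node 4 7 (.cons 0x9326547801 (.cons 0x9326547810 .nil)) (.node 1 9 (.cons 0x9126783450 .nil) (.leaf 0x3265478019 5 (.leaf 0x8019326547 2 (.leaf 0x874562391 4 .done))) (.leaf 0x8109326547 4 (.leaf 0x1874562390 2 .done))) .done)) (.node 0 6 (.cons 0x9065432187 .nil) (.node 1 9 (.cons 0x7608329154 (.cons 0x8760912345 (.cons 0x5438760912 .nil))) (.node 2 7 (.cons 0x6543278091 (.cons 0x9127834506 (.cons 0x9154327806 .nil))) .done .done) (.node 7 9 (.cons 0x4389760512 (.cons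 0x9760815432 (.cons 0x4518329760 .nil))) (.leaf 0x5432187906 2 .done) .done)) .done)) .done)) .done))) (.node 1 9 (.cons 0x8765432190 .nil) (.node 2 8 (.cons 0x7654328091 .nil) (.node 4 8 .nil (.node 2 7 (.cons 0x4327651980 (.cons 0x9156723480 (.cons 0x3276548091 .nil))) (.leaf 0x8432765190 0 .done) (.node 1 3 .nil (.node 2 7 (.cons 0x4327651980 (.cons 0x3190845672 .nil)) (.leaf 0x4319082765 0 (.leaf 0x1345672809 4 .done)) (.node 1 6 .nil (.node 2 7 (.cons 0x4327651980 (.cons 0x8091672345 .nil)) (.leaf 0x6190872345 5 (.leaf 0x5619087234 4 .done)) (.node 1 7 (.cons 0x9176543280 .nil) (.node 1 4 .nil (.node 2 7 (.cons 0x4327651980 (.cons 0x8091432765 (.cons 0x8091456723 .nil))) .done .done) .done) .done)) .done)) .done)) (.node 1 7 (.cons 0x8091765432 .nil) (.node 1 4 (.cons 0x7654190823 .nil) (.node 5 8 (.cons 0x6719085432 .nil) (.node 4 8 .nil (.node 2 7 (.cons 0x4327651980 (.cons 0x9108456723 (.cons 0x9156723480 .nil))) .done (.node 6 8 .nil (.node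 0 7 (.cons 0x9078123456 (.cons 0x5438670912 .nil)) (.leaf 0x1907685432 2 .done) .done) .done)) .done) .done) (.leaf 0x917654328 4 (.node 1 4 (.cons 0x7654190823 .nil) (.node 0 7 (.cons 0x9078123456 .nil) (.node 6 9 (.cons 0x7812345690 .nil) (.leaf 0x8123456907 2 (.leaf 0x5196708234 4 (.leaf 0x8123456907 3 .done))) (.node 5 8 (.cons 0x8567091234 .nil) (.node 4 8 (.cons 0x3485670912 .nil) (.node 4 7 (.cons 0x2347651980 .nil) (.node 6 8 (.cons 0x5681907432 .nil) .done .done) .done) .done) .done)) .done) .done))) .done)) (.node 5 8 (.cons 0x6785432190 .nil) (.node 0 6 (.cons 0x3458760912 .nil) (.leaf 0x9123458760 4 (.leaf 0x1906785432 2 (.node 2 9 (.cons 0x9215438760 .nil) (.leaf 0x4387609215 2 (.leaf 0x8345129067 3 (.node 6 9 (.cons 0x2345196780 .nil) (.node 2 6 (.cons 0x9154326780 .nil) (.node 2 8 (.cons 0x7691543280 .nil) .done (.leaf 0x8762345190 4 .done)) (.node 7 9 (.cons 0x6543218790 .nil) (.node 4 9 (.cons 0x2387694510 .nil) (.node 1 4 (.cons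 0x3290876541 .nil) (.node 2 5 (.cons 0x3412567890 .nil) (.leaf 0x967832541 3 (.leaf 0x967832541 2 .done)) .done) (.leaf 0x2109456783 3 .done)) .done) .done)) .done))) .done))) (.node 0 6 (.cons 0x4587609123 .nil) (.leaf 0x9123458760 0 (.node 5 7 (.cons 0x9065781234 .nil) (.node 0 7 (.cons 0x9078123456 .nil) (.node 2 8 .nil (.node 3 9 (.cons 0x4390657812 (.cons 0x4391576082 (.cons 0x4390657821 (.cons 0x4567823901 .nil)))) .done (.node 4 8 .nil (.node 2 5 (.cons 0x9152348067 (.cons 0x6091257843 .nil)) (.leaf 0x6784325190 4 .done) (.node 4 9 (.cons 0x3490657812 .nil) (.node 1 4 (.cons 0x3857609412 .nil) .done (.leaf 0x2109456783 3 (.leaf 0x657812349 2 .done))) .done)) .done)) .done) (.node 2 8 .nil (.node 1 4 (.cons 0x9065781432 (.cons 0x4190675823 .nil)) (.leaf 0x8756091432 4 .done) (.node 2 5 (.cons 0x6091875234 .nil) (.node 4 8 (.cons 0x8432576091 .nil) (.leaf 0x5760918432 1 .done) (.node 6 8 (.cons 0x4325786091 .nil) (.node 3 5 (.cons 0x7860912534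 .nil) (.node 4 8 (.cons 0x9106753284 .nil) .done .done) .done) .done)) .done)) .done)) (.leaf 0x7609123458 1 .done))) .done)) (.node 2 8 (.cons 0x3456782190 .nil) (.node 0 3 (.cons 0x9128765430 .nil) (.node 4 8 .nil (.node 7 9 (.cons 0x8219765430 (.cons 0x9765482301 (.cons 0x4897651230 .nil))) (.leaf 0x4823019765 4 .done) (.node 5 8 .nil (.node 2 7 (.cons 0x4308915672 (.cons 0x8543091276 (.cons 0x9034856721 (.cons 0x6721903854 .nil)))) .done (.node 6 8 .nil (.node 7 9 (.cons 0x8219765430 (.cons 0x4586790321 (.cons 0x7903218654 .nil))) (.leaf 0x5687901234 3 .done) .done) .done)) .done)) (.node 4 8 .nil (.node 2 6 (.cons 0x5438762190 (.cons 0x7843091265 (.cons 0x7845621903 .nil))) (.node 7 9 (.cons 0x2679154380 (.cons 0x9762384510 (.cons 0x6548790321 .nil))) (.leaf 0x4832679015 1 .done) .done) (.node 6 8 (.cons 0x7865430912 .nil) (.node 5 8 .nil (.node 6 9 (.cons 0x7821965430 (.cons 0x7690123854 .nil)) (.leaf 0x5876901234 3 .done) .done) .done) .done))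 (.leaf 0x6782190345 4 .done))) (.node 2 5 (.cons 0x6783452190 .nil) (.node 1 7 (.cons 0x6719083452 .nil) (.node 1 4 .nil (.node 0 3 (.cons 0x8765430912 .nil) (.leaf 0x2145678903 2 (.leaf 0x4567823091 2 (.leaf 0x4125678903 4 .done))) (.node 1 3 (.cons 0x9082314567 .nil) (.node 1 6 (.cons 0x7619083452 .nil) .done .done) .done)) (.node 4 9 (.cons 0x8094325671 .nil) (.node 1 3 (.cons 0x7654908231 .nil) (.node 1 6 (.cons 0x7619083452 .nil) .done .done) (.leaf 0x2109456783 3 (.leaf 0x943256718 1 (.leaf 0x5234908176 0 .done)))) .done)) (.node 0 5 (.cons 0x6783450912 .nil) (.node 0 6 (.cons 0x5438760912 .nil) (.node 0 3 (.cons 0x8765430912 .nil) (.node 4 8 (.cons 0x7650984321 .nil) (.node 7 9 (.cons 0x1234897650 .nil) (.leaf 0x4879125603 2 (.leaf 0x8430652197 4 (.leaf 0x1256034879 5 .done))) (.node 5 8 .nil (.node 2 4 (.cons 0x9124385067 (.cons 0x7609124385 (.cons 0x5876091243 .nil))) (.node 1 3 (.cons 0x7650984312 (.cons 0x7654280913 (.cons 0x5678091342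 .nil))) .done .done) .done) .done)) .done) (.node 2 9 (.cons 0x9215438760 .nil) (.leaf 0x4387609215 2 (.node 5 8 (.cons 0x3458760921 .nil) (.node 1 3 (.cons 0x6785431290 .nil) (.leaf 0x9213458760 2 (.leaf 0x2906785431 4 .done)) .done) .done)) .done)) (.node 5 8 .nil (.node 6 9 (.cons 0x7812345690 (.cons 0x7690123854 .nil)) (.leaf 0x5876901234 3 (.node 0 4 (.cons 0x9876512340 (.cons 0x7658904321 .nil)) (.leaf 0x2387690451 3 (.node 1 6 (.cons 0x9054387612 (.cons 0x7612340985 (.cons 0x9043216785 .nil))) .done .done)) .done)) .done) .done)) .done)) .done)) .done))) (.node 3 9 (.cons 0x2187654390 .nil) (.node 2 7 (.cons 0x8127654390 .nil) (.node 1 9 (.cons 0x2765439180 .nil) (.node 1 3 .nil (.node 2 6 (.cons 0x7265439180 (.cons 0x7809132654 .nil)) (.node 2 9 (.cons 0x3456781290 (.cons 0x7629081345 (.cons 0x4567293180 .nil))) .done (.leaf 0x3190872654 4 .done)) (.node 0 3 (.cons 0x9034567812 .nil) (.node 2 9 (.cons 0x3456781290 .nil) (.node 1 6 (.cons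 0x5439276180 .nil) (.node 0 5 (.cons 0x4398127650 .nil) (.node 6 9 (.cons 0x9672183450 .nil) (.leaf 0x7801543296 4 (.leaf 0x2967801543 5 (.leaf 0x1834509672 2 .done))) (.leaf 0x4392761805 1 .done)) .done) (.leaf 0x1876543092 2 .done)) .done) .done)) (.node 1 4 (.cons 0x5672398014 .nil) (.node 5 8 (.cons 0x6785432190 .nil) (.node 5 9 (.cons 0x1432765980 .nil) (.leaf 0x8956723410 1 (.leaf 0x2765980143 0 (.node 1 6 (.cons 0x9541672380 .nil) (.node 1 7 (.cons 0x6714590832 .nil) .done .done) .done))) (.node 0 6 (.cons 0x4580672391 .nil) (.leaf 0x9123458760 0 (.leaf 0x2760854193 4 (.leaf 0x5806723914 4 .done))) .done)) (.leaf 0x2398014567 2 .done)) .done)) (.leaf 0x9345672180 0 (.leaf 0x9345672180 4 (.leaf 0x9345672180 1 .done)))) (.node 1 9 (.cons 0x8765432190 .nil) (.node 1 6 .nil (.node 2 7 (.cons 0x4327651980 (.cons 0x9327801654 (.cons 0x8091672345 .nil))) (.leaf 0x9345612780 2 (.leaf 0x5619087234 4 .done)) (.node 1 7 (.cons 0x8091765432 .nil) (.node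 1 3 .nil (.node 2 9 (.cons 0x3456781290 (.cons 0x4567809231 .nil)) (.node 6 9 (.cons 0x1543296780 (.cons 0x4513296780 .nil)) (.leaf 0x7801543296 4 (.leaf 0x2967801543 5 .done)) .done) .done) .done) .done)) (.node 2 9 (.cons 0x3456781290 .nil) (.node 1 7 (.cons 0x8092345671 .nil) (.node 1 3 (.cons 0x7654318092 .nil) (.node 1 6 .nil (.node 0 7 (.cons 0x4329807651 (.cons 0x5167089234 (.cons 0x8709345612 .nil))) .done .done) .done) .done) (.node 2 6 (.cons 0x9154326780 .nil) (.node 1 7 .nil (.node 0 3 (.cons 0x9034567812 (.cons 0x7180392654 .nil)) (.node 0 6 (.cons 0x8760912345 (.cons 0x9238067154 (.cons 0x5439178062 .nil))) .done .done) (.node 1 3 (.cons 0x4567809231 .nil) (.node 1 4 (.cons 0x3290876541 .nil) (.node 4 8 (.cons 0x7654809231 .nil) (.leaf 0x2317654809 4 .done) .done) .done) .done)) (.node 1 7 (.cons 0x7180934562 .nil) (.node 0 7 (.cons 0x6543907812 .nil) (.leaf 0x6234519807 3 (.node 1 6 (.cons 0x8709345612 .nil) .done .done)) .done)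 (.leaf 0x8762345190 4 .done))) .done)) .done)) (.node 0 2 (.cons 0x2093456781 .nil) (.leaf 0x6543902187 3 (.leaf 0x4567812093 2 (.node 4 8 (.cons 0x9320154876 .nil) (.node 6 9 (.cons 0x5487693201 .nil) (.leaf 0x239678451 0 (.node 2 4 (.cons 0x4239876510 .nil) (.node 4 6 (.cons 0x5102398764 .nil) (.node 4 7 (.cons 0x8932476510 .nil) (.node 4 9 (.cons 0x8765490123 .nil) (.leaf 0x2109456783 3 .done) (.leaf 0x1567423980 0 .done)) .done) (.node 2 8 (.cons 0x1543967820 .nil) (.node 6 8 (.cons 0x7865423901 .nil) .done .done) .done)) (.leaf 0x7693201548 1 .done))) (.node 6 9 (.cons 0x9678023451 .nil) (.node 1 6 (.cons 0x7845610932 .nil) (.node 0 6 (.cons 0x9345187602 .nil) (.node 2 9 (.cons 0x6781543920 .nil) (.leaf 0x3451876029 3 (.node 0 4 (.cons 0x9876512340 .nil) (.node 5 7 (.cons 0x2183457690 .nil) (.leaf 0x9675438120 2 (.leaf 0x6043892157 4 (.leaf 0x3210967548 2 .done))) .done) .done)) .done) .done) (.leaf 0x5102396784 0 (.leaf 0x5102396784 1 .done)))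 .done)) (.node 4 8 (.cons 0x9320156784 .nil) (.node 4 9 (.cons 0x5678493201 .nil) (.node 2 4 (.cons 0x4239876510 .nil) (.node 1 4 (.cons 0x5678143902 .nil) (.node 2 8 (.cons 0x4567823901 .nil) (.leaf 0x7823901456 1 .done) .done) (.leaf 0x7810932456 1 .done)) (.leaf 0x2109456783 3 (.node 3 5 (.cons 0x9021876534 .nil) (.leaf 0x1209435678 3 (.node 5 8 (.cons 0x6785490123 .nil) (.node 0 3 (.cons 0x6785490321 .nil) (.node 6 8 (.cons 0x7685490321 .nil) .done .done) .done) .done)) (.leaf 0x156784932 1 .done)))) (.node 5 8 .nil (.node 1 4 (.cons 0x5678143902 (.cons 0x7658143902 (.cons 0x6785410932 .nil))) .done (.node 2 8 (.cons 0x4567823901 .nil) (.node 2 4 (.cons 0x4239876510 .nil) (.node 0 7 (.cons 0x2439815670 .nil) (.leaf 0x1893420765 1 (.node 6 8 (.cons 0x9386701542 .nil) .done .done)) (.leaf 0x7810932456 1 .done)) .done) .done)) .done)) .done)))) .done))) .done)))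
noncomputable def uc9_6_3 : T := (.node 1 8 .nil tc9_6_12 (.node 1 9 (.cons 0x8765432190 .nil) tc9_6_11 (.node 0 6 (.cons 0x7890651234 .nil) tc9_6_10 (.node 1 9 (.cons 0x8765432190 .nil) tc9_6_9 .done))))
theorem sub_c9_6_3 : root 9 refs9_6 [] 0x400000008407000500207060000000060500000000504000000004010000500010300000000302000000002018200000010 0xfeefff4bff3fff9fffcfffedffd5fff3fff9fef9 9 1 5 (.cons 0x4321567890 .nil) uc9_6_3 = true := by decide +kernel
noncomputable def tc9_6_13 : T := (.node 1 5 (.cons 0x4321567890 .nil) (.node 1 3 (.cons 0x9087654312 .nil) (.node 1 6 .nil (.node 4 9 (.cons 0x5678094312 (.cons 0x5490167832 .nil)) (.leaf 0x2109456783 3 (.node 0 5 (.cons 0x6789432150 (.cons 0x7890561234 (.cons 0x2349876150 .nil))) (.node 7 9 (.cons 0x6543218790 (.cons 0x8345097612 (.cons 0x2345618790 (.cons 0x8321679054 .nil)))) .done .done) (.node 2 5 (.cons 0x8765213490 (.cons 0x9083452167 (.cons 0x3876125490 .nil))) (.leaf 0x167832549 2 .done)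 .done))) (.node 1 4 .nil (.node 6 9 (.cons 0x7812345690 (.cons 0x5410967832 (.cons 0x5412387690 .nil))) .done (.node 1 7 .nil (.node 0 5 (.cons 0x9054387612 (.cons 0x8905671234 (.cons 0x6509871234 .nil))) (.node 2 6 (.cons 0x9876234150 (.cons 0x7189056234 (.cons 0x8326719054 .nil))) (.leaf 0x8714326509 2 (.leaf 0x4326789051 4 .done)) .done) .done) .done)) .done)) .done) (.node 1 3 (.cons 0x9087654312 .nil) (.node 2 9 (.cons 0x9213456780 .nil) (.leaf 0x4567809213 2 (.node 3 6 (.cons 0x8763451290 .nil) (.leaf 0x4512908763 1 (.leaf 0x7809215436 1 (.node 2 8 (.cons 0x1543678290 .nil) (.leaf 0x7634510928 4 (.node 2 7 (.cons 0x6345187290 .nil) (.node 1 4 (.cons 0x8763290145 .nil) (.node 3 5 (.cons 0x9145367280 .nil) (.leaf 0x6354190827 5 (.leaf 0x4190827635 4 .done)) .done) (.leaf 0x912765438 3 .done)) .done)) .done))) (.node 1 4 .nil (.node 3 5 (.cons 0x4109876532 .nil) (.node 6 9 (.cons 0x7812345690 (.cons 0x4538769012 (.cons 0x5410967832 .nil))) .done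 (.leaf 0x921435678 5 (.leaf 0x8092143567 4 .done))) (.node 2 8 .nil (.node 0 4 (.cons 0x5678904321 (.cons 0x7651289043 (.cons 0x7654082913 .nil))) (.node 3 7 (.cons 0x9213780456 (.cons 0x9043782156 (.cons 0x4567319280 .nil))) .done .done) (.node 2 7 (.cons 0x8091276543 .nil) (.node 4 8 .nil (.node 0 3 (.cons 0x4309876512 (.cons 0x9213084567 (.cons 0x9034876512 (.cons 0x7654803192 .nil)))) (.leaf 0x1567843092 2 .done) (.node 5 8 (.cons 0x6721908543 .nil) (.node 6 8 .nil (.node 0 3 (.cons 0x4309876512 (.cons 0x9276845130 (.cons 0x9034512786 (.cons 0x5190348672 (.cons 0x4586723091 .nil))))) .done .done) .done) .done)) (.leaf 0x912765438 3 .done)) .done)) .done)) .done))) (.node 1 6 .nil (.node 0 5 (.cons 0x7890561234 .nil) (.node 4 9 (.cons 0x5678094312 (.cons 0x8765094312 (.cons 0x5490167832 .nil))) (.leaf 0x5678943210 5 (.leaf 0x2349056781 4 .done)) (.node 7 9 (.cons 0x6543218790 (.cons 0x8345097612 (.cons 0x2345618790 (.cons 0x8321679054 .nil))))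 (.node 1 7 (.cons 0x8905671234 .nil) (.node 4 7 (.cons 0x8905674321 (.cons 0x5098347612 .nil)) (.leaf 0x3890547612 5 .done) .done) .done) (.leaf 0x7612345098 2 .done))) (.node 1 4 .nil (.node 3 9 (.cons 0x8765410932 .nil) (.leaf 0x7654123908 3 (.node 5 9 (.cons 0x6783210954 (.cons 0x6783214590 .nil)) (.node 0 2 (.cons 0x7619543802 (.cons 0x7895614320 (.cons 0x5987614320 (.cons 0x8765902341 .nil)))) (.leaf 0x6789023415 5 .done) .done) .done)) (.node 1 7 .nil (.node 2 9 (.cons 0x6783451290 .nil) (.leaf 0x921765438 5 (.node 0 5 (.cons 0x9216780543 (.cons 0x8905671234 (.cons 0x6509871234 .nil))) (.node 0 4 (.cons 0x5678904321 (.cons 0x8904321765 (.cons 0x9871650432 .nil))) .done .done) (.leaf 0x7129083456 2 .done))) .done) .done)) .done)) .done)) .done)) (.node 0 6 (.cons 0x8760912345 .nil) (.node 5 8 (.cons 0x6785432190 .nil) (.node 7 9 (.cons 0x8543219760 .nil) (.leaf 0x5432187906 2 (.leaf 0x5432187906 3 (.node 4 8 (.cons 0x7906548123 .nil) (.node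 5 7 (.cons 0x4321985760 .nil) (.node 1 5 (.cons 0x4321567890 .nil) (.node 0 4 (.cons 0x5678904321 .nil) (.leaf 0x2340987651 2 (.node 4 7 (.cons 0x5891234760 .nil) (.leaf 0x1890657432 2 .done) .done)) .done) (.node 2 8 (.cons 0x8234576091 .nil) (.leaf 0x5760918234 1 .done) .done)) .done) .done))) (.leaf 0x9123458760 1 (.leaf 0x9123458760 0 .done))) (.node 0 7 (.cons 0x9078123456 .nil) (.node 6 9 (.cons 0x7812345690 .nil) (.node 4 9 (.cons 0x8765490123 .nil) (.leaf 0x2109456783 3 (.node 4 7 (.cons 0x8321096745 .nil) (.node 4 6 (.cons 0x9012387645 .nil) (.node 4 8 (.cons 0x7690123845 .nil) .done .done) (.node 4 6 (.cons 0x9012387645 .nil) (.node 4 8 (.cons 0x7690123845 .nil) .done .done) .done)) (.node 4 8 (.cons 0x7690123845 .nil) (.node 4 6 (.cons 0x9012387645 .nil) (.node 4 7 (.cons 0x8321096745 .nil) .done .done) .done) .done))) (.leaf 0x8123456907 2 (.node 4 9 (.cons 0x8765490123 .nil) (.node 3 9 .nil (.node 2 7 (.cons 0x1872345690 (.cons 0x4569327810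 .nil)) (.leaf 0x1083945672 2 (.leaf 0x934567218 2 .done)) (.node 2 9 (.cons 0x3456780921 .nil) (.node 5 9 (.cons 0x6783210954 .nil) (.node 7 9 (.cons 0x6543218790 .nil) .done .done) .done) .done)) (.leaf 0x2109456783 3 (.node 7 9 (.cons 0x6543218790 .nil) (.node 5 7 (.cons 0x3490657812 .nil) (.leaf 0x1875609432 4 (.node 1 5 (.cons 0x4321567890 .nil) (.node 2 5 (.cons 0x4523876901 .nil) (.leaf 0x6078152349 4 (.leaf 0x6078152349 0 (.node 3 6 (.cons 0x4563218790 .nil) (.leaf 0x1908763452 1 (.leaf 0x912543678 0 .done)) .done))) (.node 0 4 (.cons 0x5678904321 .nil) (.node 4 6 (.cons 0x8321546790 .nil) (.leaf 0x1546790832 4 .done) (.leaf 0x2340987651 2 (.leaf 0x9876512340 5 .done))) .done)) (.leaf 0x657812349 4 .done))) .done) .done))) (.leaf 0x8123456907 3 .done)))) (.node 7 9 (.cons 0x6543218790 .nil) (.node 4 9 (.cons 0x8765490123 .nil) (.node 5 7 (.cons 0x9065781234 .nil) (.node 3 7 (.cons 0x9437560812 .nil) (.node 1 7 .nil (.node 0 5 (.cons 0x6057943812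 (.cons 0x8905671234 (.cons 0x6509871234 .nil))) .done .done) .done) (.node 5 8 (.cons 0x6785432190 .nil) (.node 2 7 (.cons 0x3497218560 .nil) (.leaf 0x4327065819 2 (.node 4 7 (.cons 0x9476012385 .nil) (.node 5 9 (.cons 0x4321958760 .nil) (.node 0 5 (.cons 0x8947650123 .nil) (.node 2 5 (.cons 0x1258349760 .nil) .done .done) (.leaf 0x6012385947 2 .done)) .done) (.leaf 0x3491856072 4 .done))) (.node 4 8 (.cons 0x5760948321 .nil) (.node 3 7 (.cons 0x9481237560 .nil) (.node 2 8 (.cons 0x6732854910 .nil) (.node 2 9 (.cons 0x3456780921 .nil) (.leaf 0x129456738 2 .done) .done) (.leaf 0x1237560948 4 .done)) .done) .done)) .done)) (.leaf 0x2109456783 3 (.node 6 9 (.cons 0x7812345690 .nil) (.leaf 0x3456907812 3 (.node 5 7 (.cons 0x2349065781 .nil) (.leaf 0x8123490657 5 (.node 2 6 (.cons 0x3456218790 .nil) (.node 5 9 (.cons 0x6234591870 .nil) (.node 4 7 (.cons 0x5974381260 .nil) (.leaf 0x8956234701 3 (.leaf 0x8956234701 2 .done)) (.leaf 0x7062345918 1 .done))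 (.node 3 7 (.cons 0x8126543790 .nil) (.leaf 0x5490187326 2 (.leaf 0x1265437908 0 .done)) .done)) .done)) .done)) .done))) (.node 5 7 (.cons 0x9065781234 .nil) (.node 4 9 (.cons 0x9432187560 .nil) (.node 2 9 (.cons 0x3456780921 .nil) (.node 3 9 (.cons 0x6754938012 .nil) (.node 2 5 (.cons 0x9438067521 .nil) (.leaf 0x7608349125 3 (.node 2 6 (.cons 0x1894326570 .nil) (.leaf 0x4938012675 1 (.leaf 0x5701894326 2 .done)) .done)) .done) .done) (.leaf 0x2109456783 3 (.leaf 0x1875609432 4 (.leaf 0x8123490657 5 .done)))) (.node 2 9 (.cons 0x3456780921 .nil) (.node 1 7 (.cons 0x8092176543 .nil) (.node 1 5 (.cons 0x4321567890 .nil) (.node 0 5 (.cons 0x6507189234 .nil) (.node 5 9 (.cons 0x6712954380 .nil) (.leaf 0x7608345921 1 .done) .done) .done) (.leaf 0x921765438 3 .done)) (.node 1 5 (.cons 0x4321567890 .nil) (.node 1 4 (.cons 0x6514329870 .nil) (.leaf 0x921438756 3 (.node 4 9 (.cons 0x3490657812 .nil) (.node 0 2 (.cons 0x8943207651 .nil) (.node 4 6 (.cons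 0x9834675120 .nil) (.leaf 0x8970234651 1 (.leaf 0x8346751209 2 .done)) (.leaf 0x3498156702 3 .done)) (.leaf 0x657812349 2 .done)) .done)) (.node 1 3 (.cons 0x9087654312 .nil) (.leaf 0x4567809213 2 (.node 4 8 (.cons 0x6578431290 .nil) (.leaf 0x3215670984 1 (.leaf 0x7560921348 2 .done)) .done)) .done)) .done)) .done)) .done)) .done)) (.node 2 8 (.cons 0x5432876091 .nil) (.node 4 8 .nil (.node 0 5 (.cons 0x7650984321 .nil) (.leaf 0x2348765091 2 (.node 2 5 (.cons 0x6780912543 (.cons 0x3254876091 .nil)) (.node 1 7 (.cons 0x9176082543 (.cons 0x5234891760 (.cons 0x9065234817 .nil))) (.leaf 0x9843217650 0 .done) .done) .done)) (.node 5 8 (.cons 0x6785432190 .nil) (.node 6 8 .nil (.node 5 7 (.cons 0x6091875432 .nil) (.leaf 0x3457860912 2 (.leaf 0x8754321906 5 (.node 2 5 (.cons 0x6780912543 (.cons 0x7680912543 .nil)) (.node 1 4 (.cons 0x7890652341 (.cons 0x9014576832 .nil)) (.leaf 0x3257860914 4 (.node 0 2 (.cons 0x5678902143 (.cons 0x8675432091 (.cons 0x6875209143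 .nil))) (.leaf 0x3457681902 0 .done) .done)) .done) .done))) .done) .done) .done)) (.node 5 8 (.cons 0x6785432190 .nil) (.leaf 0x3458760912 2 (.node 2 7 (.cons 0x9065432781 .nil) (.leaf 0x4327819065 2 (.node 0 7 (.cons 0x9078123456 .nil) (.node 6 8 .nil (.node 5 7 (.cons 0x6091875432 .nil) (.leaf 0x3457860912 2 (.leaf 0x8754321906 5 (.leaf 0x6809123457 1 .done))) (.node 4 8 .nil (.node 0 5 (.cons 0x7650984321 .nil) (.leaf 0x2348765091 2 (.node 3 5 (.cons 0x4532876091 (.cons 0x9106784532 (.cons 0x7653210984 .nil))) .done .done)) .done) .done)) .done) (.leaf 0x8190654327 5 .done))) .done)) .done)) .done))) (.node 1 5 (.cons 0x4321567890 .nil) (.node 2 8 (.cons 0x3456782190 .nil) (.node 1 3 (.cons 0x9087654312 .nil) (.node 7 9 (.cons 0x9765431280 .nil) (.leaf 0x1345679082 0 (.node 3 9 (.cons 0x4567931082 .nil) (.node 0 3 (.cons 0x9128765430 .nil) (.leaf 0x6782190345 4 (.node 0 6 (.cons 0x7821934560 .nil) (.leaf 0x5432187906 3 (.node 1 6 (.cons 0x2345618790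 .nil) .done .done)) .done)) .done) (.leaf 0x1345679082 1 .done))) (.node 1 6 .nil (.node 0 5 (.cons 0x6783450912 (.cons 0x7890561234 .nil)) (.node 7 9 (.cons 0x6791283450 (.cons 0x9761280543 (.cons 0x2345618790 (.cons 0x8321679054 .nil)))) .done (.leaf 0x7612345098 2 .done)) (.node 1 4 .nil (.node 6 9 (.cons 0x7812345690 (.cons 0x5410967832 (.cons 0x5412387690 .nil))) .done (.node 1 7 .nil (.node 0 5 (.cons 0x6783450912 (.cons 0x8905671234 (.cons 0x6509871234 .nil))) (.node 0 4 (.cons 0x9876512340 (.cons 0x9823405671 (.cons 0x9823405617 .nil))) .done .done) .done) .done)) .done)) .done)) (.node 2 5 (.cons 0x6783452190 .nil) (.node 1 6 (.cons 0x9083452167 .nil) (.node 1 3 (.cons 0x9087654312 .nil) (.node 1 7 (.cons 0x9083452176 .nil) (.node 1 4 .nil (.node 0 3 (.cons 0x8765430912 (.cons 0x9032876541 .nil)) (.leaf 0x2145678903 2 (.leaf 0x4567823091 2 .done)) .done) .done) .done) (.node 1 7 (.cons 0x9083452176 .nil) (.node 1 3 (.cons 0x9087654312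 .nil) (.node 1 4 .nil (.node 0 3 (.cons 0x8765430912 (.cons 0x9032876541 .nil)) (.leaf 0x4567823091 2 (.leaf 0x4125678903 4 .done)) .done) .done) .done) .done)) (.node 0 5 (.cons 0x6783450912 .nil) (.node 0 6 (.cons 0x5438760912 .nil) (.node 1 6 .nil (.node 7 9 (.cons 0x6543218790 (.cons 0x2345618790 (.cons 0x8321679054 .nil))) (.leaf 0x4521679083 5 .done) (.node 2 6 (.cons 0x5438762190 .nil) (.node 3 6 (.cons 0x7638219054 .nil) (.node 6 8 (.cons 0x7683450912 .nil) .done .done) .done) .done)) (.node 6 8 (.cons 0x7683450912 .nil) (.node 4 8 (.cons 0x7650984321 .nil) (.node 1 7 (.cons 0x2348905671 .nil) (.leaf 0x984321765 4 (.node 1 3 (.cons 0x9087654312 .nil) (.node 1 4 (.cons 0x7890652341 .nil) (.leaf 0x652341789 1 .done) .done) .done)) .done) .done) .done)) (.node 5 8 .nil (.node 6 9 (.cons 0x7812345690 (.cons 0x7690123854 .nil)) (.leaf 0x5876901234 3 (.node 1 4 (.cons 0x5412387690 (.cons 0x3214587690 .nil)) (.leaf 0x9678321450 2 .done) .done))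 .done) .done)) .done)) .done)) (.node 4 8 (.cons 0x7651234890 .nil) (.node 2 8 (.cons 0x3456782190 .nil) (.node 0 7 (.cons 0x9843215670 .nil) (.leaf 0x1234890765 0 (.node 6 8 .nil (.node 4 9 (.cons 0x8765490123 (.cons 0x7683210945 (.cons 0x5687094321 (.cons 0x8670943215 .nil)))) (.leaf 0x6832154907 3 .done) (.node 5 8 .nil (.node 4 6 (.cons 0x9012387645 (.cons 0x5834670912 (.cons 0x9076438512 .nil))) .done .done) .done)) (.leaf 0x3215670984 1 .done))) .done) (.node 0 7 (.cons 0x2348907651 .nil) (.node 0 4 (.cons 0x5678904321 .nil) (.node 4 9 (.cons 0x8765490123 .nil) (.leaf 0x2109456783 3 (.node 1 4 .nil (.node 0 2 (.cons 0x5678902143 .nil) (.leaf 0x9876514320 5 (.leaf 0x4320987651 2 (.leaf 0x3415678902 4 .done))) (.node 1 3 (.cons 0x9087654312 .nil) (.node 1 6 (.cons 0x5167098432 .nil) .done .done) .done)) .done)) (.leaf 0x2340987651 2 .done)) (.leaf 0x6512348907 4 (.node 0 5 (.cons 0x6783450912 .nil) (.node 1 6 (.cons 0x9078165432 .nil) (.node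 1 4 (.cons 0x8907651432 .nil) (.node 4 9 (.cons 0x7894321650 .nil) (.leaf 0x3216507894 1 (.leaf 0x2109456783 3 .done)) .done) (.node 7 9 (.cons 0x6543218790 .nil) (.node 1 3 (.cons 0x9087654312 .nil) (.node 1 7 (.cons 0x9056178432 .nil) .done .done) (.leaf 0x6509784321 3 .done)) .done)) .done) .done))) .done)) .done)) .done)))
noncomputable def tc9_6_14 : T := (.node 0 4 (.cons 0x5678904321 .nil) (.node 0 5 (.cons 0x9812340567 .nil) (.node 7 9 (.cons 0x5679812340 .nil) (.node 6 8 (.cons 0x6879054321 .nil) (.node 0 6 (.cons 0x9781234506 .nil) (.node 5 8 (.cons 0x7658904321 .nil) (.node 2 8 (.cons 0x1543286790 .nil) (.node 4 8 (.cons 0x7651234890 .nil) .done .done) .done) .done) (.node 3 5 (.cons 0x9768123540 .nil) (.node 4 9 (.cons 0x4987653210 .nil) (.leaf 0x2109456783 3 (.leaf 0x6532104987 2 (.leaf 0x3567894012 3 .done))) (.leaf 0x4097681235 1 .done)) .done)) (.leaf 0x4321897650 1 (.leaf 0x4321897650 4 (.node 4 6 (.cons 0x8321546790 .nil) (.leaf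 0x1546790832 4 (.node 1 6 (.cons 0x3879054612 .nil) (.node 4 8 (.cons 0x7651234890 .nil) (.node 2 5 (.cons 0x9012546783 .nil) (.leaf 0x1643879052 4 (.node 2 8 (.cons 0x3821546790 .nil) .done .done)) (.leaf 0x6509784321 3 .done)) .done) (.leaf 0x9764512380 4 .done))) .done)))) (.node 5 8 (.cons 0x7658904321 .nil) (.node 4 8 (.cons 0x7651234890 .nil) (.node 0 7 (.cons 0x2348907651 .nil) (.node 5 9 (.cons 0x7659812340 .nil) (.leaf 0x4321895670 1 (.node 0 6 (.cons 0x4590678321 .nil) (.node 1 7 (.cons 0x9817650432 .nil) (.node 0 2 (.cons 0x9567184023 .nil) (.node 0 3 (.cons 0x9567184032 .nil) .done .done) (.leaf 0x4098567123 0 .done)) .done) .done)) (.leaf 0x6512348907 4 .done)) .done) (.node 1 7 (.cons 0x9817650432 .nil) (.leaf 0x2340985671 1 (.node 1 6 (.cons 0x9045832167 .nil) (.node 2 9 (.cons 0x5438761290 .nil) (.leaf 0x6504329817 4 (.leaf 0x4387612905 3 (.node 0 6 (.cons 0x9234506781 .nil) (.node 1 9 (.cons 0x6781923450 .nil) (.leaf 0x3291876054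 4 .done) .done) (.leaf 0x567189234 0 .done)))) .done) (.leaf 0x6589043217 1 .done))) .done)) .done)) (.leaf 0x2340987651 2 (.node 0 7 (.cons 0x8907651234 .nil) (.node 4 8 (.cons 0x7651234890 .nil) (.node 1 4 .nil (.node 2 8 (.cons 0x7651432890 .nil) (.leaf 0x6514328907 4 (.leaf 0x6514328907 0 .done)) (.node 1 6 (.cons 0x9078432165 .nil) (.node 1 3 (.cons 0x9087654312 .nil) (.node 1 9 (.cons 0x8765432190 .nil) (.node 1 7 .nil (.node 0 5 (.cons 0x9056123487 (.cons 0x6509871234 (.cons 0x9056178432 .nil))) .done .done) .done) .done) .done) .done)) (.leaf 0x6512348907 4 .done)) (.node 2 9 (.cons 0x4329815670 .nil) (.leaf 0x3298156704 5 (.node 1 6 (.cons 0x9234561870 .nil) (.leaf 0x3290781654 4 (.node 2 8 (.cons 0x4328907651 .nil) (.leaf 0x5167092834 4 .done) .done)) (.node 0 5 (.cons 0x6705189234 .nil) (.node 4 7 (.cons 0x6509874321 .nil) (.node 3 7 (.cons 0x8092154376 .nil) (.node 4 8 (.cons 0x7651234890 .nil) (.leaf 0x921567348 5 (.leaf 0x7348092156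 2 .done)) .done) (.node 0 2 (.cons 0x8902156743 .nil) (.leaf 0x9834765120 1 (.leaf 0x1567438902 1 .done)) .done)) .done) (.leaf 0x8156704329 4 .done)))) .done)) (.leaf 0x9876512340 5 .done)))) (.node 1 3 (.cons 0x9087654312 .nil) (.node 1 9 (.cons 0x8765432190 .nil) (.node 5 8 (.cons 0x6785432190 .nil) (.node 1 4 .nil (.node 0 6 (.cons 0x2345876091 (.cons 0x5876091432 (.cons 0x7890651432 .nil))) (.leaf 0x9123458760 1 .done) (.node 1 6 (.cons 0x2345876190 .nil) (.node 1 7 .nil (.node 2 9 (.cons 0x3456780921 (.cons 0x8092176543 .nil)) (.leaf 0x921765438 5 (.leaf 0x7129083456 2 .done)) .done) .done) .done)) (.node 2 8 (.cons 0x9082134567 .nil) (.node 0 6 (.cons 0x4587609123 .nil) (.leaf 0x9123458760 0 (.node 4 8 (.cons 0x9065123487 .nil) (.node 6 8 .nil (.node 0 7 (.cons 0x4586709132 .nil) (.leaf 0x9123458670 0 (.node 2 9 (.cons 0x3456780921 (.cons 0x5486709231 .nil)) (.leaf 0x768451329 1 .done) .done)) .done) .done) (.node 6 8 (.cons 0x7860915432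 .nil) .done .done))) .done) .done)) (.node 0 5 (.cons 0x6783450912 .nil) (.node 1 4 .nil (.node 0 6 (.cons 0x5438760912 (.cons 0x7890651432 .nil)) (.node 5 9 (.cons 0x6783210954 (.cons 0x6783214590 .nil)) (.leaf 0x7832145906 3 .done) .done) (.node 0 4 (.cons 0x5678904321 .nil) (.node 1 6 (.cons 0x7890432165 .nil) (.node 1 7 (.cons 0x8905671234 .nil) .done .done) (.leaf 0x8904321567 4 .done)) .done)) (.node 1 4 .nil (.node 2 8 (.cons 0x3456782190 (.cons 0x7650982314 .nil)) (.leaf 0x5091432876 4 .done) (.node 1 6 (.cons 0x5098761432 .nil) (.node 1 7 .nil (.node 2 8 (.cons 0x3456782190 (.cons 0x9056178234 .nil)) (.leaf 0x9056714328 4 .done) .done) .done) .done)) .done)) .done)) (.node 0 4 (.cons 0x5678904321 .nil) (.leaf 0x2340987651 4 (.node 4 8 .nil (.node 5 9 (.cons 0x6783210954 (.cons 0x7659084312 (.cons 0x2134876590 (.cons 0x4876590132 .nil)))) (.node 0 6 (.cons 0x4590678321 (.cons 0x7609548321 (.cons 0x9065123487 .nil))) (.node 2 7 (.cons 0x4327890651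 (.cons 0x9560487231 (.cons 0x6095132784 (.cons 0x9065132784 .nil)))) (.leaf 0x6590843127 1 .done) .done) .done) (.node 1 6 (.cons 0x7890432165 .nil) (.node 5 8 .nil (.node 7 9 (.cons 0x5438097612 (.cons 0x8543216790 (.cons 0x6587904312 (.cons 0x4583216790 .nil)))) (.leaf 0x5832167904 3 .done) (.node 6 8 .nil (.node 7 9 (.cons 0x4583216790 (.cons 0x7904586123 (.cons 0x5687904312 .nil))) (.leaf 0x5687901234 3 (.leaf 0x8651234097 2 .done)) .done) .done)) (.node 0 5 (.cons 0x9054387612 .nil) (.node 1 7 (.cons 0x2348905671 .nil) (.leaf 0x984321765 4 .done) (.node 0 3 .nil (.node 2 9 (.cons 0x5438761290 (.cons 0x9218034567 (.cons 0x8761290345 .nil))) (.leaf 0x4387612905 3 (.leaf 0x5678129034 3 .done)) (.node 3 5 (.cons 0x7890435612 .nil) (.node 0 6 (.cons 0x7890651234 .nil) (.node 0 2 (.cons 0x9021678345 .nil) (.node 0 7 (.cons 0x9870435612 .nil) .done .done) .done) .done) .done)) .done)) .done)) .done)) (.node 1 6 .nil (.node 2 5 (.cons 0x9087652134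 (.cons 0x9083452167 .nil)) (.leaf 0x8904325167 1 (.leaf 0x987615234 0 .done)) (.node 5 8 (.cons 0x7612340985 .nil) (.node 2 7 (.cons 0x5890432761 .nil) (.leaf 0x8904327615 1 (.leaf 0x8904327615 4 (.node 5 9 (.cons 0x9581672340 .nil) (.node 0 7 (.cons 0x4321895670 .nil) (.leaf 0x9812340765 2 .done) (.leaf 0x6723409581 2 (.leaf 0x2761859043 3 .done))) (.leaf 0x985167234 0 .done)))) (.node 2 8 .nil (.node 3 9 (.cons 0x6785409321 (.cons 0x7654390821 (.cons 0x4567823901 .nil))) (.leaf 0x2876543901 2 .done) (.node 4 8 .nil (.node 3 7 (.cons 0x9082165437 (.cons 0x9016548237 .nil)) (.leaf 0x6732109845 1 .done) (.node 6 8 .nil (.node 0 7 (.cons 0x9076123854 (.cons 0x9078651234 .nil)) (.node 1 4 (.cons 0x9076145832 .nil) (.node 1 7 (.cons 0x5617098234 (.cons 0x9071682345 .nil)) .done .done) .done) .done) .done)) .done)) .done)) (.node 0 5 (.cons 0x9054387612 .nil) (.node 1 7 (.cons 0x8905671234 .nil) (.node 6 8 (.cons 0x5098671234 .nil) (.leaf 0x3217689054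 5 (.node 1 4 (.cons 0x9054123867 .nil) (.node 1 9 (.cons 0x8765432190 .nil) .done .done) .done)) .done) (.node 1 7 .nil (.node 1 4 (.cons 0x8905671432 .nil) .done (.node 1 9 (.cons 0x8765432190 .nil) (.node 1 4 .nil (.node 0 2 (.cons 0x9021678345 (.cons 0x9814320567 .nil)) (.leaf 0x4320567891 4 (.node 4 9 (.cons 0x9432056781 .nil) (.leaf 0x2109456783 3 (.leaf 0x567819432 0 (.leaf 0x6502349187 1 .done))) .done)) .done) .done) .done)) .done)) .done))) (.leaf 0x8904321567 4 .done)))) .done)) (.node 1 9 (.cons 0x8765432190 .nil) (.node 1 3 (.cons 0x9087654312 .nil) (.node 1 4 .nil (.node 3 9 (.cons 0x8765410932 .nil) (.leaf 0x7654123908 3 .done) (.node 3 9 .nil (.node 2 4 (.cons 0x3421567890 .nil) (.node 0 5 (.cons 0x7650891243 (.cons 0x7650893421 (.cons 0x4239876501 .nil))) (.leaf 0x8934210567 4 .done) (.leaf 0x3245678109 1 (.leaf 0x1093876542 3 .done))) (.node 2 8 (.cons 0x4567823901 .nil) (.leaf 0x932876541 0 (.leaf 0x7823901456 1 .done)) .done))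 .done)) (.node 1 6 .nil (.node 1 7 .nil (.node 0 5 (.cons 0x7890561234 (.cons 0x8905671234 .nil)) (.leaf 0x7612345098 2 .done) (.node 0 5 (.cons 0x7890561234 .nil) (.node 6 8 (.cons 0x8671905432 (.cons 0x7683219054 .nil)) .done (.node 4 7 (.cons 0x9812347650 (.cons 0x5098347612 .nil)) (.node 2 9 (.cons 0x6743892150 (.cons 0x7809216543 (.cons 0x5089216743 (.cons 0x9216745083 .nil)))) .done (.leaf 0x3890547612 5 .done)) (.leaf 0x7612345098 2 .done))) .done)) .done) .done)) (.node 1 3 (.cons 0x9087654312 .nil) (.node 1 4 .nil (.node 3 9 (.cons 0x8765410932 .nil) (.leaf 0x7654123908 3 .done) (.node 3 9 .nil (.node 2 8 (.cons 0x9082134567 .nil) (.leaf 0x932876541 0 (.leaf 0x7823901456 1 .done)) (.node 2 8 (.cons 0x4567823901 .nil) (.leaf 0x932876541 0 (.leaf 0x7823901456 1 .done)) .done)) .done)) (.node 1 7 .nil (.node 6 8 (.cons 0x7865432190 (.cons 0x2345687190 .nil)) (.node 0 3 (.cons 0x4309876512 (.cons 0x9032178654 (.cons 0x4568719032 .nil))) (.node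 2 8 (.cons 0x7651289034 .nil) (.node 0 2 (.cons 0x9021543876 .nil) (.node 2 9 (.cons 0x6783451290 (.cons 0x8092176543 .nil)) (.leaf 0x7129083456 2 .done) (.leaf 0x9178654320 3 .done)) .done) .done) .done) (.node 1 6 .nil (.node 0 7 (.cons 0x8709123456 (.cons 0x8709165432 .nil)) (.node 4 8 (.cons 0x9078432165 (.cons 0x5619078432 .nil)) (.node 0 5 (.cons 0x7650984321 (.cons 0x7890561234 .nil)) (.leaf 0x2348905671 4 (.leaf 0x7612345098 2 .done)) .done) .done) (.node 1 4 .nil (.node 3 9 (.cons 0x8765410932 .nil) (.leaf 0x7654123908 3 (.node 2 5 (.cons 0x9087652134 (.cons 0x7652143980 .nil)) (.node 0 3 (.cons 0x4309876512 .nil) (.leaf 0x1430987652 2 (.leaf 0x9876521430 5 .done)) (.leaf 0x1439087652 4 (.leaf 0x6521439087 5 .done))) .done)) .done) .done)) .done)) .done)) (.node 1 7 .nil (.node 2 9 (.cons 0x6783451290 (.cons 0x8092176543 .nil)) (.leaf 0x921765438 5 (.leaf 0x7129083456 2 .done)) (.node 1 6 .nil (.node 2 9 (.cons 0x6783451290 (.cons 0x7612908345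 (.cons 0x7809216543 .nil))) (.node 1 3 (.cons 0x9087654312 .nil) (.node 2 8 (.cons 0x9082134567 .nil) (.node 7 9 (.cons 0x8097654312 (.cons 0x3456128790 (.cons 0x1654328790 .nil))) .done .done) (.leaf 0x876543129 2 .done)) .done) (.node 1 3 (.cons 0x9087654312 .nil) (.node 1 4 .nil (.node 3 9 (.cons 0x8765410932 .nil) (.leaf 0x7654123908 3 (.node 2 8 (.cons 0x7654390821 (.cons 0x7654128093 .nil)) (.leaf 0x934567128 3 .done) .done)) .done) .done) .done)) .done)) .done))) .done)))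
noncomputable def uc9_6_4 : T := (.node 3 9 (.cons 0x7654390812 (.cons 0x4567810932 .nil)) (.node 2 8 (.cons 0x7654390821 .nil) (.leaf 0x7654390128 3 (.node 2 9 (.cons 0x3456780921 .nil) (.node 4 8 (.cons 0x7654801293 (.cons 0x7654810923 .nil)) .done (.node 4 6 (.cons 0x9012387645 (.cons 0x5467801293 (.cons 0x5467839012 (.cons 0x5467810923 .nil)))) (.node 2 4 (.cons 0x5678093421 .nil) (.node 3 5 (.cons 0x6780129354 (.cons 0x4235678901 .nil)) (.leaf 0x9876534210 5 (.leaf 0x8901243567 4 .done)) (.leaf 0x7654239018 3 .done)) .done) (.node 1 4 (.cons 0x3921456780 .nil) (.node 3 7 (.cons 0x8145673290 .nil) (.leaf 0x4129083765 3 (.leaf 0x1456732908 5 .done)) (.node 0 3 (.cons 0x4567803921 .nil) (.leaf 0x9214567803 4 (.leaf 0x1876543092 2 (.node 3 7 (.cons 0x6541293780 (.cons 0x6541873290 .nil)) .done (.leaf 0x8765412930 5 .done)))) (.leaf 0x932876541 0 (.leaf 0x5410932876 1 .done)))) .done))) (.node 2 4 (.cons 0x5678093421 .nil) (.node 3 5 (.cons 0x4235678901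 .nil) (.node 6 9 (.cons 0x9678354210 (.cons 0x5423876901 .nil)) (.leaf 0x124539678 4 (.node 0 4 (.cons 0x9678123540 (.cons 0x9876532401 .nil)) (.leaf 0x2187690453 2 (.leaf 0x2187690453 3 .done)) .done)) (.leaf 0x9876534210 5 (.leaf 0x8901243567 4 .done))) (.leaf 0x7654239018 3 (.node 3 7 (.cons 0x5673980124 (.cons 0x9081243765 .nil)) (.node 1 9 (.cons 0x4567328190 (.cons 0x3765428190 .nil)) (.leaf 0x4567391082 4 (.leaf 0x4567391082 1 .done)) .done) (.leaf 0x1093876542 3 (.node 0 4 (.cons 0x5678904321 .nil) (.node 1 5 (.cons 0x4321567890 .nil) (.node 1 7 (.cons 0x8217654093 .nil) (.leaf 0x4093281765 4 (.leaf 0x932817654 5 .done)) (.leaf 0x934215678 3 (.leaf 0x2340987651 4 (.leaf 0x3908765124 2 .done)))) (.node 6 8 (.cons 0x9321045687 .nil) (.node 5 7 (.cons 0x6578904321 (.cons 0x6578932104 .nil)) (.leaf 0x6754239018 5 (.leaf 0x4239018675 4 (.leaf 0x2457681093 2 .done))) .done) (.leaf 0x3987654012 1 .done))) .done))))) .done))) (.node 0 5 (.cons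 0x7650981234 .nil) (.node 1 6 (.cons 0x9054387612 .nil) (.leaf 0x3216789054 2 (.leaf 0x2345098761 4 (.node 4 7 (.cons 0x9347805612 (.cons 0x8743905612 (.cons 0x6547810932 .nil))) (.node 2 9 (.cons 0x3456780921 .nil) (.leaf 0x6129347805 2 (.leaf 0x3478056129 5 (.leaf 0x1650874392 4 .done))) (.leaf 0x3218905674 4 .done)) .done))) (.node 4 7 (.cons 0x6509874321 (.cons 0x6547810932 .nil)) (.node 6 9 (.cons 0x8745693210 (.cons 0x7432189650 (.cons 0x2396547810 .nil))) (.node 0 2 (.cons 0x3478965021 (.cons 0x7690218345 (.cons 0x5693478120 .nil))) (.node 0 3 (.cons 0x8745693012 (.cons 0x7430569812 (.cons 0x9650347812 .nil))) (.node 3 6 (.cons 0x9638745012 (.cons 0x9634502187 (.cons 0x7436981205 (.cons 0x9634781205 .nil)))) .done .done) .done) (.node 0 3 (.cons 0x4789650321 (.cons 0x7456930812 (.cons 0x9650321874 .nil))) (.leaf 0x8745690321 1 .done) .done)) (.node 6 9 (.cons 0x6905478123 .nil) (.leaf 0x4321876905 3 (.node 5 7 (.cons 0x8321096754 (.cons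 0x6981234750 (.cons 0x2183457690 (.cons 0x4576901832 .nil)))) (.leaf 0x6908123457 4 .done) (.node 2 6 (.cons 0x7809345621 (.cons 0x5096218743 .nil)) (.leaf 0x8109326547 4 (.node 1 7 (.cons 0x6543908712 .nil) (.leaf 0x5439087126 3 (.leaf 0x9054387126 2 (.node 3 7 (.cons 0x8905621734 (.cons 0x4371890562 .nil)) (.leaf 0x8126547390 0 (.leaf 0x962187345 4 .done)) .done))) (.leaf 0x8109326547 1 .done))) (.leaf 0x4321876905 2 .done)))) (.leaf 0x9812347650 0 .done))) (.node 4 7 (.cons 0x6547810932 .nil) (.node 0 6 (.cons 0x5601239874 .nil) (.leaf 0x1239874560 3 (.node 2 6 (.cons 0x7809345621 (.cons 0x4789326501 (.cons 0x3908745621 .nil))) (.leaf 0x932654781 0 .done) (.leaf 0x9321874560 0 .done))) (.node 0 6 (.cons 0x5601239874 .nil) (.node 2 9 (.cons 0x3456780921 (.cons 0x1892347650 (.cons 0x5067432981 (.cons 0x7456081293 .nil)))) .done (.node 5 9 (.cons 0x6783210954 (.cons 0x7439560812 (.cons 0x2187439560 (.cons 0x4781239560 .nil)))) .done .done)) (.leaf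 0x3218905674 1 (.leaf 0x6509812347 1 .done)))) .done))) .done)) (.node 1 5 (.cons 0x4321567890 .nil) tc9_6_14 (.node 1 9 (.cons 0x8765432190 .nil) tc9_6_13 .done)))
theorem sub_c9_6_4 : root 9 refs9_6 [] 0x400000008407000500307060000000060500000000504000000004010000500010300000000302000000002018300000010 0xfeefff47ff3fff9fffcfffedffd5fff3fff9fef5 9 1 8 .nil uc9_6_4 = true := by decide +kernel
noncomputable def tc9_6_15 : T := (.node 1 9 (.cons 0x8765432190 .nil) (.node 2 9 (.cons 0x3456781290 .nil) (.node 4 9 (.cons 0x8765490123 .nil) (.node 6 9 (.cons 0x7809654321 .nil) (.node 5 9 (.cons 0x6783210954 .nil) (.node 7 9 .nil (.node 0 6 (.cons 0x4590678321 .nil) (.leaf 0x4560978123 4 (.leaf 0x3219780654 4 (.node 0 2 (.cons 0x9021876543 (.cons 0x8120976543 .nil)) (.leaf 0x1978345602 3 .done) .done))) .done) .done) (.node 5 9 (.cons 0x6783210954 .nil) (.node 7 9 .nil (.node 0 2 (.cons 0x9021876543 (.cons 0x8120976543 .nil)) (.node 2 6 (.cons 0x5490126783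 (.cons 0x7934562180 (.cons 0x5438126790 .nil))) .done .done) .done) .done) .done)) (.node 4 8 .nil (.node 1 3 (.cons 0x8765490132 (.cons 0x5678490132 .nil)) (.node 1 5 (.cons 0x4321567890 (.cons 0x7651234890 .nil)) .done .done) (.node 2 8 (.cons 0x3287654901 .nil) (.node 2 7 (.cons 0x8127654390 .nil) (.node 0 3 (.cons 0x1827654930 .nil) (.leaf 0x7654930182 4 (.leaf 0x7654930182 0 .done)) (.leaf 0x3908127654 2 .done)) .done) .done)) .done)) (.node 6 9 (.cons 0x7809654321 .nil) (.node 5 9 (.cons 0x6783210954 .nil) (.node 4 9 (.cons 0x8765490123 .nil) (.node 7 9 .nil (.node 1 3 (.cons 0x7809654312 (.cons 0x2134569780 .nil)) (.node 3 6 (.cons 0x8763210945 (.cons 0x9780123654 .nil)) (.leaf 0x879456321 0 .done) .done) .done) .done) .done) (.node 5 9 (.cons 0x6783210954 .nil) (.node 4 9 (.cons 0x8765490123 .nil) (.node 7 9 .nil (.node 2 6 (.cons 0x1267834590 (.cons 0x7934562180 (.cons 0x5438126790 .nil))) (.node 3 6 (.cons 0x8763210945 (.cons 0x9780123654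 .nil)) .done .done) .done) .done) .done) .done)) .done)) (.node 4 9 (.cons 0x8765490123 .nil) (.leaf 0x2109456783 3 (.node 6 9 (.cons 0x7809654321 .nil) (.node 7 9 .nil (.node 4 8 (.cons 0x8456793210 .nil) (.node 1 7 (.cons 0x7108456932 .nil) (.node 3 6 (.cons 0x5634908712 (.cons 0x3654978012 .nil)) (.leaf 0x2109784563 0 .done) .done) (.leaf 0x976548321 3 .done)) (.node 2 9 (.cons 0x3456781290 .nil) (.node 5 9 (.cons 0x6783210954 .nil) .done .done) .done)) (.node 1 7 (.cons 0x4569087123 .nil) (.leaf 0x2345690871 5 (.leaf 0x871234569 2 .done)) .done)) (.node 6 9 (.cons 0x7809654321 .nil) (.node 4 8 .nil (.node 2 7 (.cons 0x8127654390 (.cons 0x5483967210 (.cons 0x5672184390 .nil))) (.leaf 0x4810932765 1 (.node 1 3 (.cons 0x6549087231 (.cons 0x7213965480 (.cons 0x3127845690 (.cons 0x5678490132 .nil)))) .done .done)) (.node 2 8 (.cons 0x3287654901 .nil) (.node 4 6 (.cons 0x9012387645 .nil) (.node 5 8 (.cons 0x6785432190 .nil) (.node 7 9 (.cons 0x8456793210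 .nil) (.leaf 0x6458321097 4 .done) .done) .done) .done) .done)) (.node 1 7 (.cons 0x4569087123 .nil) (.leaf 0x2345690871 5 (.leaf 0x871234569 2 .done)) .done)) .done))) .done)) (.node 1 9 (.cons 0x8765432190 .nil) (.node 2 9 (.cons 0x3456781290 .nil) (.node 4 9 (.cons 0x8765490123 .nil) (.node 6 9 (.cons 0x7809654321 .nil) (.node 5 9 (.cons 0x6783210954 .nil) (.node 7 9 .nil (.node 0 2 (.cons 0x9021876543 (.cons 0x8120976543 .nil)) (.node 0 6 (.cons 0x4590678321 .nil) (.leaf 0x3978120654 2 (.leaf 0x7934560218 3 .done)) .done) .done) .done) (.node 5 9 (.cons 0x6783210954 .nil) (.node 7 9 .nil (.node 0 2 (.cons 0x9021876543 (.cons 0x8120976543 .nil)) (.node 1 4 (.cons 0x5412387690 (.cons 0x3214569780 .nil)) (.leaf 0x956781432 3 (.leaf 0x956781432 2 .done)) .done) .done) .done) .done)) (.node 1 6 (.cons 0x5490167832 .nil) (.node 0 5 (.cons 0x9450167832 .nil) (.leaf 0x4501678329 1 (.node 3 6 (.cons 0x5436781290 .nil) (.leaf 0x4509218763 1 (.leaf 0x7812905436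 1 (.node 4 8 (.cons 0x5487632901 .nil) (.node 1 3 (.cons 0x8765490132 .nil) (.node 2 5 (.cons 0x9487652310 .nil) (.leaf 0x136784925 2 (.leaf 0x1325678490 4 (.leaf 0x4523876109 1 (.leaf 0x7652310948 4 .done)))) .done) .done) .done))) (.leaf 0x1678329450 0 .done))) (.node 1 3 (.cons 0x8765490132 .nil) (.node 1 7 (.cons 0x5617809432 .nil) (.node 1 5 (.cons 0x4321567890 .nil) (.node 1 4 .nil (.node 0 2 (.cons 0x9021876543 .nil) (.leaf 0x4320987651 4 (.node 0 5 (.cons 0x9431876502 (.cons 0x8761432905 .nil)) (.leaf 0x4318765029 3 (.leaf 0x4318765029 2 .done)) .done)) .done) .done) .done) .done) .done)) .done)) (.node 6 9 (.cons 0x7809654321 .nil) (.node 5 9 (.cons 0x6783210954 .nil) (.node 4 9 (.cons 0x8765490123 .nil) (.node 7 9 .nil (.node 1 3 (.cons 0x7809654312 (.cons 0x2134569780 .nil)) (.node 4 8 (.cons 0x4876590132 (.cons 0x6548793210 .nil)) (.leaf 0x976548321 3 .done) .done) .done) .done) .done) (.node 5 9 (.cons 0x6783210954 .nil) (.node 4 9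 (.cons 0x8765490123 .nil) (.node 7 9 .nil (.node 4 6 (.cons 0x3876459012 (.cons 0x8321097645 .nil)) (.leaf 0x7832109546 2 (.node 2 5 (.cons 0x4523876901 (.cons 0x6452109783 .nil)) (.leaf 0x4678390125 5 (.leaf 0x125467839 2 .done)) .done)) .done) .done) .done) .done)) .done)) (.node 2 9 (.cons 0x3456781290 .nil) (.node 4 9 (.cons 0x8765490123 .nil) (.node 6 9 (.cons 0x7809654321 .nil) (.node 5 9 (.cons 0x6783210954 .nil) (.node 7 9 .nil (.node 4 6 (.cons 0x1238764590 (.cons 0x8321097645 .nil)) (.node 5 7 (.cons 0x6457921083 (.cons 0x6457923801 .nil)) (.leaf 0x9801234657 4 .done) .done) .done) .done) (.node 1 7 (.cons 0x4569087123 .nil) (.leaf 0x2345690871 5 (.leaf 0x871234569 2 .done)) .done)) (.node 6 9 (.cons 0x7809654321 .nil) (.node 5 9 (.cons 0x6783210954 .nil) (.node 7 9 .nil (.node 4 6 (.cons 0x1238764590 (.cons 0x8321097645 .nil)) (.node 5 7 (.cons 0x6457921083 (.cons 0x6457923801 .nil)) (.leaf 0x9801234657 4 .done) .done) .done) .done)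 (.node 1 7 (.cons 0x4569087123 .nil) (.leaf 0x2345690871 5 (.leaf 0x871234569 2 .done)) .done)) .done)) (.node 2 8 .nil (.node 0 5 (.cons 0x6782190543 (.cons 0x6782345091 .nil)) (.node 6 9 (.cons 0x7809654321 (.cons 0x7690543812 .nil)) (.leaf 0x5432196780 4 (.leaf 0x5432196780 0 .done)) (.node 7 9 (.cons 0x6790543812 (.cons 0x6790543821 .nil)) (.node 6 9 (.cons 0x7809654321 (.cons 0x7690543821 .nil)) (.node 1 7 (.cons 0x8905671234 (.cons 0x1796543280 .nil)) (.node 3 7 (.cons 0x7345690812 (.cons 0x4569732801 .nil)) .done .done) .done) .done) .done)) (.node 2 6 (.cons 0x7812654390 .nil) (.node 2 5 .nil (.node 0 6 (.cons 0x8760912345 (.cons 0x7812560934 (.cons 0x9067834521 .nil))) (.leaf 0x4521876093 2 .done) (.node 2 4 .nil (.node 6 9 (.cons 0x7809654321 (.cons 0x5421096783 (.cons 0x5423876901 .nil))) .done (.node 0 2 (.cons 0x9021876543 .nil) (.node 2 7 .nil (.node 0 3 (.cons 0x9034567812 (.cons 0x5672189034 .nil)) (.node 1 4 (.cons 0x7629038145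 (.cons 0x6541872930 (.cons 0x8145672903 (.cons 0x6541872903 .nil)))) .done .done) .done) .done) .done)) .done)) (.node 4 8 .nil (.node 0 5 (.cons 0x7812650934 (.cons 0x7650984321 (.cons 0x7843905621 .nil))) (.node 3 5 (.cons 0x4350918762 (.cons 0x9105326784 (.cons 0x7653210984 .nil))) .done .done) (.node 2 7 (.cons 0x6548723901 .nil) (.node 1 6 (.cons 0x7845610932 .nil) (.leaf 0x3278456109 1 (.node 5 8 (.cons 0x6785432190 .nil) (.node 6 8 (.cons 0x7239016845 .nil) .done .done) .done)) .done) .done)) .done)) .done)) .done)) .done)) (.node 0 3 (.cons 0x9034567812 .nil) (.node 2 8 (.cons 0x4567823901 .nil) (.node 4 8 .nil (.node 7 9 (.cons 0x4567930182 (.cons 0x2845679301 (.cons 0x8456790321 .nil))) (.leaf 0x4821039765 4 .done) (.node 2 4 (.cons 0x8765423901 .nil) (.node 5 8 .nil (.node 1 7 (.cons 0x5671098423 (.cons 0x4239856710 (.cons 0x8542390176 (.cons 0x9017658423 .nil)))) .done (.node 6 8 .nil (.node 7 9 (.cons 0x3976542810 (.cons 0x4586790321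 (.cons 0x5421097683 .nil))) (.leaf 0x6542810397 2 .done) .done) .done)) (.node 6 8 (.cons 0x7865423901 .nil) (.node 5 8 .nil (.node 1 7 (.cons 0x1786542390 (.cons 0x9032176854 (.cons 0x6587109324 .nil))) (.node 4 7 (.cons 0x5674309812 (.cons 0x6589301742 .nil)) (.leaf 0x8901234765 4 .done) .done) .done) .done) (.leaf 0x7810932456 1 .done))) .done)) (.node 2 7 (.cons 0x5672189034 .nil) (.node 3 7 .nil (.node 2 4 (.cons 0x8765423901 (.cons 0x1824567390 .nil)) (.leaf 0x9376542810 4 (.leaf 0x9376542810 0 .done)) (.node 1 7 (.cons 0x9087123456 .nil) (.node 2 5 (.cons 0x7652189034 .nil) (.node 0 6 (.cons 0x8176093452 .nil) (.leaf 0x1760934528 2 (.leaf 0x9345281760 5 (.leaf 0x7182543906 4 .done))) (.node 2 4 (.cons 0x8765423901 .nil) (.node 3 5 (.cons 0x4276539810 .nil) (.node 3 6 (.cons 0x5428176390 .nil) .done .done) (.leaf 0x7810932456 1 .done)) .done)) .done) .done)) (.leaf 0x1890345672 1 (.node 0 2 (.cons 0x2093456781 .nil) (.node 2 6 (.cons 0x5439026781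 .nil) (.node 3 6 (.cons 0x9021876345 .nil) (.node 2 4 (.cons 0x8765423901 .nil) (.node 3 7 (.cons 0x1824567390 .nil) (.leaf 0x4567390182 0 .done) (.node 2 5 (.cons 0x7810936524 .nil) (.node 2 9 (.cons 0x3456781290 .nil) .done .done) .done)) .done) (.node 2 9 (.cons 0x3456781290 .nil) (.node 2 4 (.cons 0x8765423901 .nil) (.node 2 5 (.cons 0x7652189034 .nil) .done .done) .done) .done)) .done) .done))) .done)) (.node 0 2 (.cons 0x2093456781 .nil) (.leaf 0x6543902187 3 (.node 3 6 (.cons 0x9021876345 .nil) (.node 3 7 .nil (.node 6 9 (.cons 0x7809654321 (.cons 0x7345690812 (.cons 0x4569087321 .nil))) (.node 2 4 (.cons 0x8765423901 (.cons 0x2456937801 (.cons 0x5673421890 .nil))) (.node 2 8 (.cons 0x4567823901 .nil) (.leaf 0x3901824567 5 (.leaf 0x9376542810 4 .done)) .done) .done) .done) (.node 5 9 (.cons 0x4309567812 .nil) (.node 3 7 (.cons 0x8120954376 .nil) (.node 2 4 (.cons 0x8765423901 .nil) (.leaf 0x1876590342 5 (.node 0 5 (.cons 0x9812437650 .nil)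 (.leaf 0x2437650981 2 (.node 0 6 (.cons 0x7609543812 .nil) (.leaf 0x3760218954 4 .done) .done)) (.leaf 0x342187659 2 .done))) .done) (.node 2 4 (.cons 0x8765423901 .nil) (.leaf 0x8124309567 4 (.leaf 0x342187659 4 (.node 3 7 .nil (.node 2 8 (.cons 0x4567823901 .nil) (.leaf 0x3901824567 5 (.leaf 0x9376542810 4 .done)) (.node 3 5 .nil (.node 0 6 (.cons 0x9378106542 (.cons 0x7890653421 .nil)) (.node 4 6 (.cons 0x4659873210 (.cons 0x9354678102 (.cons 0x9873564210 .nil))) .done .done) .done) .done)) .done))) (.leaf 0x4590218763 1 (.leaf 0x1209543678 0 .done)))) .done)) .done)) .done)) .done)))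
noncomputable def tc9_6_16 : T := (.node 3 9 (.cons 0x4567823901 .nil) (.node 0 4 (.cons 0x5678904321 .nil) (.node 7 9 (.cons 0x8104567932 (.cons 0x8123976540 .nil)) (.leaf 0x1045679328 0 (.leaf 0x1804567932 1 .done)) (.leaf 0x7812390456 1 (.node 2 5 (.cons 0x1256789340 (.cons 0x7652189340 (.cons 0x6783904521 .nil))) (.node 1 5 (.cons 0x4321567890 (.cons 0x7651289043 .nil)) (.node 2 4 (.cons 0x3421567890 .nil) (.leaf 0x5124390876 4 (.leaf 0x3245678109 1 (.leaf 0x9342156780 4 .done))) .done) .done) (.leaf 0x3987654012 1 .done)))) (.node 4 8 (.cons 0x7654821093 (.cons 0x7654823901 .nil)) .done (.leaf 0x2876543901 2 .done))) (.node 1 5 (.cons 0x4321567890 .nil) (.node 4 8 (.cons 0x7651234890 .nil) (.node 0 7 (.cons 0x3489076512 .nil) (.node 0 4 (.cons 0x5678904321 .nil) (.node 0 2 (.cons 0x7651209843 .nil) (.node 3 9 (.cons 0x5678439021 .nil) (.node 2 7 (.cons 0x8456721093 .nil) (.node 0 3 (.cons 0x5672103984 .nil) (.node 3 5 (.cons 0x4893567210 .nil)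 (.leaf 0x1276539840 5 (.leaf 0x2104893567 4 .done)) .done) .done) (.leaf 0x2093487651 2 (.leaf 0x4390215678 5 .done))) .done) (.leaf 0x9876512340 5 .done)) (.leaf 0x6512348907 0 (.node 6 8 (.cons 0x9076834512 .nil) (.node 2 6 (.cons 0x5126709834 .nil) (.leaf 0x1543890762 5 (.leaf 0x7098345126 4 (.node 5 8 (.cons 0x9076215834 .nil) .done .done))) .done) (.leaf 0x9076512348 1 .done)))) (.node 6 8 .nil (.node 7 9 (.cons 0x6790154832 (.cons 0x2154386790 (.cons 0x4510976832 (.cons 0x4512386790 .nil)))) (.node 5 8 (.cons 0x1234586790 .nil) (.leaf 0x9768543210 3 .done) .done) (.node 5 8 .nil (.node 6 9 (.cons 0x7809654321 (.cons 0x7690123854 .nil)) (.leaf 0x5876901234 3 (.node 1 7 (.cons 0x2384517690 .nil) (.node 0 2 (.cons 0x7690238451 (.cons 0x9021768543 (.cons 0x4851769023 .nil))) (.node 0 4 (.cons 0x5678904321 (.cons 0x7658904321 .nil)) (.leaf 0x6904583217 2 .done) .done) (.leaf 0x871234569 2 (.leaf 0x8096543217 4 .done))) .done)) .done) .done)) .done))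 (.node 0 4 (.cons 0x5678904321 .nil) (.leaf 0x2340987651 4 (.node 4 9 (.cons 0x8765490123 .nil) (.node 1 4 .nil (.node 0 2 (.cons 0x5678902143 .nil) (.leaf 0x8902341567 4 (.leaf 0x4320987651 4 (.node 5 9 (.cons 0x6783210954 (.cons 0x8765902143 (.cons 0x9567814320 (.cons 0x6783214590 .nil)))) .done .done))) (.node 1 9 (.cons 0x8765432190 .nil) (.node 1 7 (.cons 0x9087123456 .nil) (.node 4 8 .nil (.node 3 5 (.cons 0x2143567890 (.cons 0x7653210984 (.cons 0x1765328490 .nil))) (.leaf 0x6532109487 1 .done) (.node 1 3 (.cons 0x5671328490 .nil) (.node 2 7 (.cons 0x5672310984 .nil) (.leaf 0x6723109845 1 (.leaf 0x3109845672 0 .done)) .done) .done)) .done) .done) .done)) (.leaf 0x2109456783 3 (.node 1 4 .nil (.node 0 3 (.cons 0x3094567821 (.cons 0x5678214903 (.cons 0x9032876541 .nil))) (.leaf 0x2145678903 2 .done) (.node 1 3 (.cons 0x3128765490 .nil) (.node 0 5 (.cons 0x8765094312 .nil) (.leaf 0x9431287650 5 (.leaf 0x6782134905 4 (.node 0 3 (.cons 0x3094567821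 .nil) (.node 0 2 (.cons 0x9431876502 .nil) (.node 1 9 (.cons 0x8765432190 .nil) (.leaf 0x567819432 1 .done) .done) .done) .done))) .done) .done)) (.node 1 3 (.cons 0x1328765490 .nil) (.node 3 9 (.cons 0x2394567810 .nil) (.node 4 8 .nil (.node 0 7 (.cons 0x5670948231 (.cons 0x5670984312 (.cons 0x9076548231 .nil))) (.leaf 0x2348907651 4 .done) (.node 0 7 (.cons 0x5670984312 .nil) (.leaf 0x8213907654 3 (.leaf 0x1284567093 2 (.node 1 4 (.cons 0x5670982314 .nil) .done .done))) .done)) .done) (.leaf 0x7654901328 2 .done)) .done)))) (.node 1 3 (.cons 0x5678904312 .nil) (.node 3 9 (.cons 0x3904567821 .nil) (.node 1 6 (.cons 0x7821654093 .nil) (.node 4 8 .nil (.node 3 7 (.cons 0x6540937821 (.cons 0x9048213765 .nil)) (.leaf 0x6732109845 1 (.leaf 0x937821654 4 .done)) (.node 2 7 (.cons 0x6548723901 .nil) (.leaf 0x6723109845 1 (.leaf 0x3109845672 0 (.node 3 6 (.cons 0x7890436512 .nil) (.leaf 0x1563409872 4 (.leaf 0x436512789 4 .done)) .done))) .done)) (.node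 3 7 (.cons 0x4561287390 .nil) (.leaf 0x8216540937 4 (.leaf 0x2873904561 2 (.leaf 0x9378216540 5 .done))) .done)) (.node 1 4 (.cons 0x1456782390 .nil) (.leaf 0x7823901456 1 .done) .done)) (.node 5 9 (.cons 0x8765904312 .nil) (.leaf 0x956782134 5 (.leaf 0x6782134095 4 (.node 1 4 (.cons 0x4132876590 .nil) (.node 4 6 (.cons 0x2387645901 .nil) (.leaf 0x3876459012 3 (.node 4 8 (.cons 0x4876590132 .nil) .done .done)) (.leaf 0x8765904132 2 .done)) (.node 4 8 .nil (.node 3 7 (.cons 0x8409567312 .nil) (.node 6 9 (.cons 0x7809654321 (.cons 0x2183769540 (.cons 0x4096513782 .nil))) (.leaf 0x5690123784 1 .done) (.leaf 0x6732109845 1 (.leaf 0x6590482137 1 .done))) (.node 5 8 .nil (.node 4 9 (.cons 0x5678490132 (.cons 0x7658490132 (.cons 0x6785490123 .nil))) (.leaf 0x2109456783 3 .done) (.node 6 8 .nil (.node 1 4 (.cons 0x6783214590 (.cons 0x7683214590 .nil)) (.node 4 9 (.cons 0x5678490132 (.cons 0x7683210945 (.cons 0x7865490123 .nil))) .done .done) .done) .done))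 .done)) .done)))) .done)) (.leaf 0x8904321567 4 .done)))) (.node 1 7 (.cons 0x9087123456 .nil) (.node 1 9 (.cons 0x8765432190 .nil) (.node 5 8 .nil (.node 4 7 (.cons 0x1234765890 .nil) (.leaf 0x9856743210 5 (.node 0 5 (.cons 0x8912347650 .nil) (.leaf 0x4321980567 3 (.leaf 0x4321980567 2 .done)) (.leaf 0x1908567432 4 (.leaf 0x9123476580 5 .done)))) (.node 6 8 (.cons 0x2345867190 .nil) (.node 0 5 (.cons 0x7683450912 .nil) (.node 4 8 (.cons 0x7650984321 .nil) .done .done) .done) .done)) (.node 1 4 .nil (.node 0 2 (.cons 0x9021543876 .nil) (.leaf 0x6789023415 5 (.node 2 9 (.cons 0x6783451290 .nil) (.leaf 0x4109238765 3 .done) (.leaf 0x7651432098 4 .done))) (.node 5 8 .nil (.node 0 6 (.cons 0x9067834512 (.cons 0x5890671234 (.cons 0x7856091234 (.cons 0x5890671432 .nil)))) (.node 3 9 (.cons 0x7609382145 (.cons 0x8543906712 (.cons 0x6714582390 .nil))) .done .done) (.node 6 8 (.cons 0x7865432190 .nil) (.node 4 8 .nil (.node 0 5 (.cons 0x7650984321 .nil)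 (.leaf 0x2348905671 4 .done) .done) .done) .done)) .done)) .done)) (.node 1 6 .nil (.node 2 9 (.cons 0x6783451290 .nil) (.leaf 0x3290871654 5 (.node 0 5 (.cons 0x8716509234 .nil) (.node 4 6 (.cons 0x7643890512 (.cons 0x8712905643 (.cons 0x6438715092 .nil))) (.leaf 0x2346509871 4 .done) (.node 4 8 (.cons 0x7650984321 (.cons 0x5617843290 .nil)) (.leaf 0x9056178432 1 .done) .done)) (.leaf 0x8092345617 2 .done))) (.node 6 9 (.cons 0x2154387690 .nil) (.node 1 3 (.cons 0x7809654312 .nil) (.node 1 9 (.cons 0x8765432190 .nil) (.node 1 4 .nil (.node 0 2 (.cons 0x5438769021 .nil) (.leaf 0x6789023415 5 (.node 5 8 (.cons 0x6785432190 (.cons 0x7614320985 .nil)) .done (.leaf 0x7651432098 4 .done))) .done) .done) .done) (.node 1 4 (.cons 0x5690871432 .nil) (.node 1 3 (.cons 0x7823145690 .nil) .done (.node 1 3 (.cons 0x5413287690 .nil) (.node 1 9 (.cons 0x8765432190 .nil) .done .done) .done)) (.leaf 0x871234569 2 .done))) .done)) .done)) .done))) .done))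
noncomputable def uc9_6_5 : T := (.node 0 5 (.cons 0x7650981234 .nil) (.node 1 6 (.cons 0x9054387612 .nil) (.leaf 0x3216789054 2 (.leaf 0x2345098761 4 (.node 4 9 (.cons 0x8765490123 (.cons 0x8761234905 (.cons 0x5094387612 .nil))) (.leaf 0x6501234987 4 (.leaf 0x5678943210 5 (.node 4 7 (.cons 0x9087432165 .nil) (.leaf 0x3216509874 2 (.leaf 0x3218905674 4 (.node 1 3 (.cons 0x4987650132 (.cons 0x8905674312 (.cons 0x6509874312 .nil))) .done .done))) .done))) .done))) (.node 6 9 (.cons 0x7809654321 (.cons 0x7690543812 .nil)) (.node 0 2 (.cons 0x5438769021 (.cons 0x7690218345 .nil)) (.node 5 7 (.cons 0x2183457690 .nil) (.leaf 0x9675438120 2 (.leaf 0x4576902183 5 (.node 1 5 (.cons 0x6751890234 .nil) (.node 3 9 (.cons 0x8769345120 (.cons 0x4567810932 .nil)) (.leaf 0x1205439678 2 (.node 4 6 (.cons 0x9012387645 (.cons 0x3964578102 (.cons 0x9815764320 .nil))) (.leaf 0x8102396457 0 .done) .done)) (.leaf 0x4518769023 5 .done)) (.leaf 0x6902183457 4 .done))))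 (.node 1 5 (.cons 0x2154387690 .nil) (.node 3 9 (.cons 0x7802156934 (.cons 0x4567810932 .nil)) (.node 2 6 (.cons 0x9054387621 (.cons 0x9054381267 (.cons 0x7621839054 .nil))) (.node 7 9 (.cons 0x8397621054 (.cons 0x8126793450 (.cons 0x4501839762 .nil))) (.leaf 0x1834509762 2 .done) .done) (.node 0 7 (.cons 0x8702156934 (.cons 0x4396518702 .nil)) (.leaf 0x8123456907 2 .done) .done)) (.leaf 0x9678345120 2 (.node 0 7 (.cons 0x6907834512 .nil) (.leaf 0x8123456907 2 (.node 4 6 (.cons 0x7834690215 (.cons 0x7098156432 (.cons 0x9023465187 .nil))) (.node 1 9 (.cons 0x8190765432 .nil) (.leaf 0x4320789156 4 .done) .done) .done)) .done))) .done)) (.node 2 4 (.cons 0x5423876901 (.cons 0x7650981243 (.cons 0x7810965423 .nil))) (.node 3 9 (.cons 0x1243987650 (.cons 0x7693810542 .nil)) (.leaf 0x5678934210 5 .done) (.node 1 3 (.cons 0x5096781342 .nil) (.node 0 2 (.cons 0x9876502134 (.cons 0x7698134205 (.cons 0x9678134205 .nil))) .done (.leaf 0x6905423187 4 (.leaf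 0x9678132450 5 .done))) .done)) (.node 1 7 (.cons 0x4569087123 .nil) (.leaf 0x2345690871 5 (.node 0 4 (.cons 0x5678904321 (.cons 0x5409678123 .nil)) (.node 1 5 (.cons 0x4512387690 .nil) (.leaf 0x2387690451 2 (.node 2 7 (.cons 0x6721509834 (.cons 0x9812765043 .nil)) (.node 3 5 (.cons 0x6908712354 (.cons 0x9672183504 (.cons 0x8176904532 .nil))) (.leaf 0x4098127653 4 .done) (.leaf 0x6518904327 1 .done)) (.leaf 0x2340987651 4 .done))) (.node 1 5 (.cons 0x7651890432 .nil) (.node 2 9 (.cons 0x1567892340 (.cons 0x7651892340 (.cons 0x3296781540 .nil))) (.node 0 7 (.cons 0x6923870451 (.cons 0x4078156923 .nil)) .done .done) (.leaf 0x8904321567 4 .done)) .done)) (.leaf 0x871234569 2 (.leaf 0x8096543217 4 .done)))) .done))) (.node 4 7 (.cons 0x5674321890 .nil) (.node 6 9 (.cons 0x7809654321 (.cons 0x8321096745 .nil)) (.node 3 5 (.cons 0x4538769012 (.cons 0x8354769012 (.cons 0x6532109874 .nil))) (.node 0 2 (.cons 0x5438769021 (.cons 0x7435698021 (.cons 0x9653478021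 .nil))) (.node 3 7 (.cons 0x4735698012 .nil) (.leaf 0x8120965437 4 (.leaf 0x4569021873 5 .done)) .done) .done) (.node 5 8 (.cons 0x1234765890 .nil) (.leaf 0x6743210985 4 (.leaf 0x4769012385 4 (.leaf 0x7458321096 2 .done))) (.leaf 0x2387456901 1 .done))) (.node 3 9 (.cons 0x9321087456 (.cons 0x4765018932 (.cons 0x4567810932 .nil))) (.node 6 9 (.cons 0x8745693210 (.cons 0x9674501832 (.cons 0x2396547810 .nil))) (.node 0 2 (.cons 0x5438769021 (.cons 0x7690218345 (.cons 0x5693478120 .nil))) (.node 1 6 (.cons 0x7816934502 (.cons 0x9816743205 .nil)) (.leaf 0x547816932 1 .done) .done) (.node 2 4 (.cons 0x7690542381 (.cons 0x3245096781 .nil)) (.leaf 0x3965018742 5 (.leaf 0x7810569324 4 .done)) .done)) .done) (.leaf 0x3218905674 1 (.leaf 0x6509812347 1 (.node 3 9 (.cons 0x6547810932 (.cons 0x4567810932 .nil)) (.node 2 8 (.cons 0x6547823901 .nil) (.leaf 0x7654390128 3 (.node 2 6 (.cons 0x9326547801 (.cons 0x9018326745 .nil)) (.node 1 9 (.cons 0x8762345091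 (.cons 0x5438762190 .nil)) (.leaf 0x5478019326 4 (.leaf 0x5478019326 0 .done)) (.node 1 4 (.cons 0x4105678932 (.cons 0x7650981432 (.cons 0x8741093265 (.cons 0x6782390541 (.cons 0x7809341265 .nil))))) .done .done)) .done)) (.node 2 6 (.cons 0x9018326745 (.cons 0x7456239081 .nil)) (.node 1 9 (.cons 0x8762345091 (.cons 0x5438762190 .nil)) (.leaf 0x4387621905 3 .done) (.leaf 0x5478109326 2 (.node 1 9 (.cons 0x5623478190 (.cons 0x6781905432 .nil)) (.node 4 9 (.cons 0x8765490123 (.cons 0x5094326781 .nil)) (.leaf 0x2109456783 3 .done) .done) .done))) .done)) .done))))) .done))) (.node 2 8 .nil tc9_6_16 (.node 3 9 (.cons 0x2187654390 .nil) tc9_6_15 .done)))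
theorem sub_c9_6_5 : root 9 refs9_6 [] 0x400000008407000500607060000000060500000000504000000004010000500010300000000302000000002018600000010 0xfeefff0fff3fff9fffcfffedffd5fff3fff9febd 9 1 8 .nil uc9_6_5 = true := by decide +kernel
noncomputable def tc9_6_17 : T := (.node 3 9 .nil (.node 0 8 (.cons 0x9087654321 (.cons 0x8012396745 (.cons 0x7456938012 .nil))) (.leaf 0x3965478012 1 .done) (.node 4 6 .nil (.node 3 5 (.cons 0x9874653210 .nil) (.leaf 0x2109874653 4 (.node 0 4 (.cons 0x9876401235 (.cons 0x5398764012 .nil)) (.leaf 0x3567894012 3 (.leaf 0x3567894012 2 .done)) (.leaf 0x1235647890 2 (.leaf 0x987645321 1 .done)))) (.node 4 8 .nil (.node 3 5 (.cons 0x8764539012 (.cons 0x9847653210 .nil)) (.leaf 0x4532109678 1 (.node 0 5 (.cons 0x7650984321 (.cons 0x7489650123 .nil)) (.leaf 0x1239678450 0 (.node 2 6 (.cons 0x7832654901 (.cons 0x5093487621 (.cons 0x3905487621 .nil))) (.leaf 0x8935012674 4 .done) .done)) .done)) (.node 3 5 (.cons 0x8764539012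 .nil) (.leaf 0x4532109678 1 (.node 2 8 (.cons 0x3287654901 .nil) (.node 1 8 (.cons 0x2356749810 .nil) (.node 0 8 (.cons 0x2356749801 .nil) (.node 0 3 (.cons 0x9456782301 .nil) (.node 0 6 (.cons 0x5493287601 .nil) .done .done) .done) .done) (.leaf 0x9354678210 1 .done)) (.node 3 7 .nil (.node 0 5 (.cons 0x9837465012 (.cons 0x8965012374 (.cons 0x4738965012 .nil))) (.leaf 0x6732105489 1 .done) (.node 3 6 (.cons 0x9012367845 .nil) (.node 1 6 (.cons 0x9016784532 .nil) (.node 2 9 (.cons 0x6784532901 .nil) (.node 0 3 (.cons 0x2987465301 .nil) (.node 1 3 (.cons 0x2987465310 .nil) .done .done) (.leaf 0x3548761092 1 .done)) .done) .done) .done)) .done))) .done)) .done)) .done)) (.node 4 6 .nil (.node 3 5 (.cons 0x9874653210 .nil) (.leaf 0x2109874653 4 (.node 0 4 (.cons 0x9876401235 .nil) (.leaf 0x3567894012 3 (.leaf 0x3567894012 2 (.node 2 7 (.cons 0x1278345690 (.cons 0x9645387210 .nil)) (.node 3 9 (.cons 0x5398764012 .nil) (.leaf 0x1046539872 4 (.node 0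 8 (.cons 0x9087654321 .nil) (.leaf 0x1083965472 1 (.leaf 0x6938012745 0 .done)) .done)) (.leaf 0x8354690127 1 .done)) .done))) (.leaf 0x1235647890 2 (.leaf 0x987645321 1 .done)))) (.node 7 9 (.cons 0x5647983210 .nil) (.node 3 9 .nil (.node 0 5 (.cons 0x6479832105 (.cons 0x8932105674 (.cons 0x6501239874 .nil))) (.leaf 0x8974650123 5 (.leaf 0x3897465012 4 .done)) (.node 1 9 (.cons 0x8765432190 .nil) (.node 2 9 (.cons 0x3874569210 .nil) (.node 5 9 (.cons 0x7465983210 .nil) .done .done) .done) .done)) (.node 5 9 (.cons 0x7465983210 .nil) (.node 3 9 .nil (.node 0 8 (.cons 0x1234765980 (.cons 0x8012395476 .nil)) (.leaf 0x5678012394 3 (.leaf 0x5478012396 0 .done)) (.node 1 9 (.cons 0x8765432190 .nil) (.node 2 9 (.cons 0x3874569210 .nil) .done .done) .done)) (.node 0 6 (.cons 0x1234789560 .nil) (.leaf 0x7895601234 5 (.node 0 7 (.cons 0x8956470123 .nil) (.leaf 0x2107465983 4 (.node 2 7 (.cons 0x1278345690 .nil) (.node 1 5 (.cons 0x4321567890 .nil) (.leaf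 0x2746015983 1 (.leaf 0x2746015983 4 (.node 1 7 (.cons 0x2178345690 .nil) .done .done))) .done) (.leaf 0x6470123895 4 .done))) .done)) .done)) .done)) .done)) (.node 1 7 (.cons 0x6549017832 .nil) (.node 7 9 .nil (.node 6 8 (.cons 0x9745683210 .nil) (.node 0 5 (.cons 0x9683217450 (.cons 0x4509687123 .nil)) (.leaf 0x1238690547 3 (.leaf 0x1768905432 3 (.leaf 0x6712345098 2 .done))) (.leaf 0x5687901234 5 (.leaf 0x9786543210 2 (.node 4 6 (.cons 0x5647983210 .nil) (.node 2 9 (.cons 0x7109238645 (.cons 0x5468710923 .nil)) (.node 3 5 (.cons 0x8764532901 .nil) (.leaf 0x2109874653 4 (.leaf 0x8645329017 3 (.leaf 0x1235647890 2 .done))) .done) (.node 1 4 (.cons 0x7832145690 (.cons 0x7901456832 .nil)) (.node 0 6 (.cons 0x5601238974 .nil) (.node 1 9 (.cons 0x2386547910 (.cons 0x7834560912 .nil)) .done (.leaf 0x9783214560 4 .done)) .done) .done)) .done)))) (.node 1 9 (.cons 0x8765432190 .nil) (.node 0 8 (.cons 0x7456912380 .nil) (.leaf 0x4321908765 3 (.node 0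 7 (.cons 0x8321965470 .nil) (.leaf 0x6912380745 0 (.node 1 8 (.cons 0x2381965470 .nil) (.node 2 8 (.cons 0x9182345670 .nil) (.leaf 0x7654328190 1 (.leaf 0x7654328190 0 .done)) .done) .done)) (.node 0 7 (.cons 0x8321965470 .nil) (.leaf 0x6912380745 4 .done) .done))) (.node 5 9 .nil (.node 0 4 (.cons 0x5678904321 (.cons 0x8956740123 (.cons 0x6598740123 .nil))) (.leaf 0x1238956740 2 (.node 2 6 (.cons 0x1265438790 (.cons 0x3871269540 (.cons 0x7401265983 (.cons 0x7834095621 .nil)))) .done .done)) (.node 2 9 .nil (.node 0 8 (.cons 0x6954712380 (.cons 0x3456780921 (.cons 0x6547801923 .nil))) (.leaf 0x7659801234 5 .done) (.node 3 9 .nil (.node 0 8 (.cons 0x6954712380 (.cons 0x8012395476 (.cons 0x6547801932 .nil))) (.leaf 0x5678012394 3 .done) .done) .done)) .done)) .done)) .done)) (.node 4 6 (.cons 0x5649017832 .nil) (.node 7 9 (.cons 0x5647983210 .nil) (.node 2 7 (.cons 0x8327109465 .nil) (.node 5 8 (.cons 0x1723856490 .nil) (.leaf 0x3856490172 1 (.leaf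 0x9465832710 0 (.leaf 0x976458321 2 (.node 3 9 .nil (.node 0 4 (.cons 0x5678904321 (.cons 0x6587123904 (.cons 0x6785409321 (.cons 0x6540938721 .nil)))) .done (.node 3 7 .nil (.node 4 8 (.cons 0x5674893210 (.cons 0x8456739012 .nil)) (.leaf 0x2378456901 0 .done) (.node 0 7 (.cons 0x4569078321 .nil) (.node 5 7 (.cons 0x8321097546 .nil) .done .done) .done)) .done)) .done)))) .done) (.node 0 5 (.cons 0x3897465012 .nil) (.node 2 8 (.cons 0x5643821790 .nil) (.leaf 0x3821790564 1 (.node 1 6 (.cons 0x3821697450 .nil) (.leaf 0x5438216790 2 (.node 2 7 (.cons 0x9834721650 .nil) (.leaf 0x9056172834 2 .done) .done)) (.leaf 0x9712834650 0 .done))) (.leaf 0x4650123897 2 (.node 2 9 (.cons 0x7465012983 .nil) (.node 5 9 (.cons 0x7465983210 .nil) (.node 0 6 (.cons 0x1234789560 .nil) (.leaf 0x7895601234 5 (.node 0 7 (.cons 0x4569078321 .nil) (.leaf 0x2107465983 4 .done) .done)) .done) (.leaf 0x5092178346 2 (.leaf 0x1290564387 5 .done))) (.leaf 0x6479832105 4 .done))))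 .done)) (.node 4 8 .nil (.node 3 7 (.cons 0x5673210984 .nil) (.node 0 3 (.cons 0x5487690321 .nil) (.leaf 0x6903217845 2 (.node 1 5 (.cons 0x4321567890 (.cons 0x9487651032 (.cons 0x7651234890 (.cons 0x2156437890 (.cons 0x9034876512 .nil))))) .done (.leaf 0x9654871230 4 .done))) (.leaf 0x2109845673 0 (.leaf 0x8456901237 0 .done))) (.node 3 5 (.cons 0x1235487690 .nil) (.node 0 4 (.cons 0x2356789401 .nil) (.leaf 0x3567894012 3 (.leaf 0x3567894012 2 .done)) (.node 2 7 (.cons 0x9835647210 .nil) (.leaf 0x3890127465 2 (.node 2 8 (.cons 0x1728356490 .nil) (.leaf 0x1765328490 2 .done) .done)) (.leaf 0x4876901235 0 .done))) .done)) .done)) (.node 2 6 (.cons 0x7832654901 .nil) (.node 3 9 (.cons 0x2654938710 .nil) (.node 7 9 .nil (.node 0 8 (.cons 0x2174569380 (.cons 0x6547938012 .nil)) (.leaf 0x9380126547 2 (.leaf 0x3974562108 4 .done)) (.node 1 9 (.cons 0x7832654910 .nil) (.node 2 9 (.cons 0x6543871290 .nil) .done .done) .done)) (.node 7 9 .nil (.node 0 2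 (.cons 0x9456201783 .nil) (.node 6 8 (.cons 0x8671209345 (.cons 0x9745683201 .nil)) (.leaf 0x9786543210 2 .done) (.node 6 8 (.cons 0x9021786543 (.cons 0x3456879021 .nil)) (.leaf 0x934568712 5 .done) (.leaf 0x1783456902 3 (.leaf 0x1783945620 3 .done)))) .done) .done)) (.node 7 9 (.cons 0x8345621790 .nil) (.node 2 9 (.cons 0x6543871290 .nil) (.node 0 2 (.cons 0x4569021783 .nil) (.leaf 0x1783456902 3 (.node 0 6 (.cons 0x9065438712 .nil) (.node 4 6 (.cons 0x9021783465 .nil) .done (.leaf 0x5438712906 2 .done)) .done)) .done) .done) (.leaf 0x9017832654 4 .done))) .done))) .done)))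
noncomputable def tc9_6_18 : T := (.node 6 9 (.cons 0x9654783210 .nil) tc9_6_17 (.node 6 9 (.cons 0x7832109654 .nil) (.node 3 9 .nil (.node 2 6 (.cons 0x7832654901 .nil) (.leaf 0x8390126547 4 (.node 1 8 (.cons 0x2394567810 (.cons 0x2187654390 .nil)) (.node 3 5 (.cons 0x8109476235 (.cons 0x8109674532 .nil)) (.leaf 0x1876235490 3 .done) (.node 0 6 (.cons 0x9067812345 (.cons 0x5439067812 .nil)) (.node 0 8 (.cons 0x9087654321 .nil) (.leaf 0x5678012394 3 .done) .done) .done)) (.leaf 0x9387456210 0 .done))) (.node 1 9 (.cons 0x8765432190 .nil) (.node 2 9 .nil (.node 1 6 (.cons 0x7832945610 (.cons 0x7834561290 .nil)) (.leaf 0x8329016547 4 (.node 1 7 (.cons 0x6549017832 (.cons 0x6549238710 (.cons 0x6543871290 .nil))) .done .done)) (.node 7 9 .nil (.node 6 8 (.cons 0x7865432190 (.cons 0x5479683210 .nil)) (.leaf 0x9786543210 2 (.leaf 0x9012386547 4 (.leaf 0x9012386547 1 .done))) (.node 5 9 .nil (.node 4 6 (.cons 0x8764593210 .nil) (.leaf 0x2109546783 0 (.node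 2 6 (.cons 0x1265438790 (.cons 0x7839546210 (.cons 0x5901264783 .nil))) .done .done)) .done) .done)) .done)) (.node 1 7 (.cons 0x6549017832 .nil) (.node 1 6 .nil (.node 5 8 (.cons 0x8547690123 (.cons 0x2394587610 (.cons 0x2167854390 (.cons 0x4587610932 (.cons 0x4587612390 .nil))))) .done (.node 1 3 (.cons 0x8765490132 .nil) (.node 1 5 (.cons 0x4321567890 .nil) (.node 1 4 .nil (.node 0 6 (.cons 0x2349871560 (.cons 0x7890651432 .nil)) (.node 2 7 (.cons 0x6543872190 (.cons 0x9065412783 .nil)) (.leaf 0x8390654127 5 .done) .done) .done) .done) .done) .done)) (.node 1 6 .nil (.node 5 8 (.cons 0x8547690123 (.cons 0x2394587610 (.cons 0x2167854390 (.cons 0x4587610932 (.cons 0x4587612390 .nil))))) .done (.node 7 9 (.cons 0x2387945610 .nil) (.node 4 6 (.cons 0x5649017832 .nil) (.node 2 9 (.cons 0x7832945610 .nil) (.node 5 9 (.cons 0x2178346590 .nil) .done .done) .done) .done) .done)) .done)) .done)) .done)) (.leaf 0x8321096547 1 (.leaf 0x2387456901 0 .done)))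 (.node 3 9 (.cons 0x6547839012 .nil) (.node 6 9 (.cons 0x3874569012 .nil) (.node 1 9 (.cons 0x8765432190 .nil) (.node 5 9 .nil (.node 4 6 (.cons 0x8764590123 .nil) (.leaf 0x123874659 4 (.leaf 0x1238746590 5 (.node 2 6 (.cons 0x7832654901 .nil) (.leaf 0x4562109387 4 (.node 4 8 (.cons 0x7483901265 (.cons 0x7483956210 (.cons 0x6784590123 .nil))) .done (.node 1 3 (.cons 0x8765490132 (.cons 0x6213874590 (.cons 0x4783126590 .nil))) (.node 0 2 (.cons 0x7834569021 (.cons 0x8956743120 (.cons 0x6598743120 (.cons 0x8769543120 (.cons 0x1387495620 .nil))))) .done .done) .done))) .done))) (.node 2 9 .nil (.node 1 6 (.cons 0x7832945610 .nil) (.leaf 0x5478329016 5 (.leaf 0x9016547832 2 (.leaf 0x923874561 4 .done))) (.node 7 9 .nil (.node 2 8 (.cons 0x3287654901 (.cons 0x6547938210 .nil)) (.node 1 6 (.cons 0x7456128390 (.cons 0x2387945610 (.cons 0x3821654790 .nil))) (.node 0 4 (.cons 0x5678904321 (.cons 0x8790432165 .nil)) (.leaf 0x2387904561 4 (.leaf 0x1238796540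 1 .done)) .done) .done) .done) .done)) .done)) (.node 1 7 (.cons 0x2178345690 .nil) (.node 1 3 (.cons 0x8765490132 .nil) (.node 1 6 .nil (.node 0 2 (.cons 0x9654387120 (.cons 0x7438902165 (.cons 0x5617894320 .nil))) (.leaf 0x8345690217 3 (.leaf 0x8345690217 2 .done)) (.node 0 2 (.cons 0x9654387120 .nil) (.node 7 9 (.cons 0x8345697120 .nil) (.node 0 4 (.cons 0x5678904321 .nil) (.node 1 4 (.cons 0x6541238790 .nil) .done (.leaf 0x9783216540 1 .done)) .done) (.node 5 7 (.cons 0x2165743890 .nil) (.leaf 0x4389021657 5 (.leaf 0x6120983475 4 .done)) (.leaf 0x8345690217 3 (.leaf 0x8345690217 2 .done)))) .done)) .done) (.node 1 3 (.cons 0x8765490132 .nil) (.node 1 6 .nil (.node 0 5 (.cons 0x4987650132 (.cons 0x7438905612 (.cons 0x3478905612 (.cons 0x8761905432 .nil)))) (.leaf 0x1678905432 3 .done) (.node 4 6 (.cons 0x5649017832 .nil) (.node 3 5 .nil (.node 0 2 (.cons 0x7834569021 (.cons 0x8947653102 (.cons 0x7894653201 (.cons 0x8769453102 (.cons 0x8764910235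 .nil))))) .done (.node 1 4 (.cons 0x4109876532 .nil) (.node 2 7 (.cons 0x9872356410 .nil) (.node 0 2 (.cons 0x1435698720 .nil) (.leaf 0x5698720143 0 (.node 2 9 (.cons 0x8765492310 .nil) (.leaf 0x8746531029 4 .done) (.leaf 0x7201653894 5 (.leaf 0x5698720143 4 .done)))) (.leaf 0x8901465327 5 (.leaf 0x5327890146 2 .done))) .done) .done)) .done) .done)) .done) .done)) .done)) (.node 2 6 (.cons 0x7832654901 .nil) (.leaf 0x4562109387 4 (.node 1 7 (.cons 0x5621743890 .nil) (.leaf 0x4562387109 4 (.node 7 9 .nil (.node 0 8 (.cons 0x9087654321 (.cons 0x7908345621 .nil)) (.node 3 5 (.cons 0x8354712690 (.cons 0x4798356210 .nil)) (.leaf 0x7453801269 2 .done) (.leaf 0x4380971265 2 .done)) .done) (.node 4 6 (.cons 0x5649017832 .nil) (.node 4 8 (.cons 0x7109483265 .nil) (.node 3 5 (.cons 0x5384712690 .nil) (.node 0 4 (.cons 0x2356789401 .nil) (.leaf 0x3567894012 3 (.leaf 0x3567894012 2 .done)) (.leaf 0x4876901235 0 .done)) .done) .done) .done))) (.node 4 8 (.cons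 0x7483901265 .nil) (.node 7 9 (.cons 0x8456793210 .nil) (.node 4 6 .nil (.node 1 5 (.cons 0x4321567890 (.cons 0x5126438790 .nil)) (.leaf 0x3879015462 0 (.leaf 0x3879015462 1 (.leaf 0x9015623874 2 .done))) (.node 2 9 .nil (.node 1 6 (.cons 0x7832945610 (.cons 0x7834561290 .nil)) (.leaf 0x5478329016 5 .done) (.node 1 9 (.cons 0x8765432190 .nil) (.node 5 9 (.cons 0x7483956210 .nil) .done .done) .done)) .done)) .done) (.node 3 5 (.cons 0x1235487690 .nil) (.node 0 4 (.cons 0x2356789401 .nil) (.leaf 0x3567894012 3 (.leaf 0x3567894012 2 .done)) (.leaf 0x4876901235 0 .done)) .done)) .done))) .done)) (.node 6 9 (.cons 0x3874569012 .nil) (.leaf 0x1096547832 2 (.node 1 9 (.cons 0x8765432190 .nil) (.node 1 3 (.cons 0x8765490132 .nil) (.node 1 6 .nil (.node 0 5 (.cons 0x4987650132 (.cons 0x7438905612 (.cons 0x3478905612 .nil))) (.leaf 0x1678905432 3 (.leaf 0x7612345098 2 .done)) (.node 1 7 (.cons 0x2178345690 .nil) (.node 7 9 .nil (.node 0 4 (.cons 0x5678904321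 (.cons 0x8790432165 .nil)) (.leaf 0x2387904561 4 (.leaf 0x1238796540 1 .done)) (.node 1 4 (.cons 0x6541238790 .nil) (.node 0 6 (.cons 0x4560978321 .nil) (.leaf 0x5412387906 5 (.leaf 0x7906541238 2 .done)) .done) .done)) .done) .done)) (.node 1 6 .nil (.node 2 8 (.cons 0x3287654901 (.cons 0x5493287610 (.cons 0x5490167823 .nil))) (.leaf 0x7654901328 2 .done) (.node 7 9 (.cons 0x2387945610 .nil) (.node 2 9 (.cons 0x7832945610 .nil) (.node 5 9 .nil (.node 0 2 (.cons 0x1654978320 (.cons 0x7438956120 (.cons 0x7834596120 (.cons 0x3874956102 .nil)))) .done .done) .done) .done) .done)) .done)) (.node 7 9 .nil (.node 0 4 (.cons 0x5678904321 .nil) (.node 4 6 (.cons 0x7983210465 .nil) (.node 1 6 (.cons 0x2387945610 .nil) (.node 2 4 (.cons 0x3879654210 .nil) (.leaf 0x5610978324 1 (.leaf 0x3879016542 1 .done)) (.leaf 0x2387904561 4 .done)) .done) (.node 1 6 (.cons 0x7890432165 (.cons 0x2387945610 (.cons 0x8790432165 .nil))) (.node 0 8 (.cons 0x9087654321 (.cons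 0x8097612345 (.cons 0x7908345612 .nil))) (.node 2 8 (.cons 0x3287654901 (.cons 0x7916543280 (.cons 0x5432809761 (.cons 0x3821654790 .nil)))) .done .done) .done) (.leaf 0x1238796540 1 .done))) (.node 2 9 .nil (.node 1 6 (.cons 0x4561238790 (.cons 0x7832945610 .nil)) (.leaf 0x9016547832 2 (.leaf 0x923874561 4 .done)) (.node 5 9 .nil (.node 4 6 (.cons 0x8764593210 .nil) (.leaf 0x123874659 4 (.node 0 8 (.cons 0x9087654321 (.cons 0x6780954321 .nil)) (.leaf 0x5932108764 4 (.leaf 0x3954678012 0 .done)) .done)) .done) .done)) .done)) .done)) (.node 7 9 .nil (.node 6 8 (.cons 0x3865479012 .nil) (.node 1 6 (.cons 0x2387945610 (.cons 0x2165438790 .nil)) (.node 2 7 (.cons 0x8327945610 (.cons 0x7238610945 (.cons 0x5472168390 .nil))) (.leaf 0x1093865472 4 .done) (.node 2 5 (.cons 0x3874901652 (.cons 0x4978325610 (.cons 0x8674521093 (.cons 0x5216874390 .nil)))) (.leaf 0x9478325610 5 .done) .done)) (.leaf 0x5687901234 5 (.leaf 0x9786543210 2 (.node 0 8 (.cons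 0x9087654321 .nil) (.node 1 6 (.cons 0x9087612345 (.cons 0x2387945610 (.cons 0x8097612345 (.cons 0x2165438790 .nil)))) (.node 0 4 (.cons 0x5678904321 (.cons 0x8790432165 .nil)) (.leaf 0x2387904561 4 .done) .done) (.node 1 6 (.cons 0x5439087612 (.cons 0x2387945610 (.cons 0x7908345612 (.cons 0x2165438790 .nil)))) (.node 0 4 (.cons 0x5678904321 (.cons 0x8790432165 .nil)) (.leaf 0x2387904561 4 (.node 2 5 (.cons 0x6780934521 (.cons 0x4978325610 (.cons 0x5234097861 .nil))) (.leaf 0x9401652387 5 (.leaf 0x9478325610 5 .done)) .done)) .done) .done)) .done)))) .done) .done))) .done)) .done)))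
noncomputable def tc9_6_19 : T := (.node 0 8 (.cons 0x9087654321 .nil) (.node 1 8 (.cons 0x7690812345 .nil) (.node 1 6 (.cons 0x9087612345 .nil) (.node 1 7 (.cons 0x8096712345 .nil) (.node 2 8 (.cons 0x3456782190 .nil) (.node 2 6 (.cons 0x7834562190 .nil) (.node 3 6 (.cons 0x5436780912 .nil) (.node 0 6 (.cons 0x5490632871 .nil) (.node 6 8 (.cons 0x5490178632 .nil) .done .done) .done) .done) .done) .done) .done) .done) (.node 0 6 (.cons 0x7834560912 .nil) (.node 1 6 .nil (.node 2 7 (.cons 0x6543872190 (.cons 0x7216908345 (.cons 0x5612780943 .nil))) (.leaf 0x3872190654 4 (.leaf 0x9127834560 4 .done)) (.node 1 8 (.cons 0x7812349065 .nil) (.node 2 6 (.cons 0x7834562190 .nil) (.node 5 7 (.cons 0x8123457690 .nil) (.leaf 0x2349065781 3 (.node 1 4 (.cons 0x9065783412 .nil) (.node 0 7 (.cons 0x5612349870 .nil) (.leaf 0x9834126570 4 (.leaf 0x8907562143 2 .done)) .done) (.leaf 0x9675432180 2 (.leaf 0x6908123457 4 .done)))) .done) .done) .done)) (.node 0 7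 (.cons 0x6543870912 .nil) (.node 0 4 (.cons 0x5678904321 .nil) (.node 0 3 (.cons 0x8765430912 .nil) (.node 2 8 (.cons 0x3456782190 .nil) (.leaf 0x6782190345 4 (.leaf 0x9128765430 4 (.node 6 8 (.cons 0x7865490123 .nil) (.node 0 2 (.cons 0x7021968345 .nil) (.node 0 5 (.cons 0x7865034912 .nil) .done .done) .done) .done))) .done) .done) (.node 2 7 (.cons 0x6543872190 .nil) (.node 2 6 (.cons 0x7834562190 .nil) (.node 1 7 (.cons 0x5621780943 .nil) (.node 2 5 (.cons 0x8345271960 .nil) (.leaf 0x3452719608 2 (.leaf 0x7254380691 5 (.leaf 0x1769083452 1 .done))) .done) (.leaf 0x1907834562 2 .done)) (.node 2 9 (.cons 0x3456780921 .nil) (.node 1 7 (.cons 0x4560923871 .nil) (.node 2 5 (.cons 0x1789432560 .nil) (.leaf 0x4380691725 4 (.leaf 0x3452719608 2 (.leaf 0x7254380691 5 .done))) .done) .done) (.leaf 0x5438721906 5 .done))) .done)) .done)) (.node 0 6 (.cons 0x7834560912 .nil) (.node 1 6 .nil (.node 0 7 (.cons 0x6543870912 (.cons 0x9078345612 .nil)) (.node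 5 8 (.cons 0x7856094321 (.cons 0x9432160785 (.cons 0x7096123854 .nil))) (.leaf 0x1690785432 5 .done) .done) (.node 1 8 (.cons 0x7812349065 .nil) (.node 2 6 (.cons 0x7834562190 .nil) (.node 2 9 (.cons 0x7801654923 .nil) (.node 1 7 (.cons 0x3265490871 .nil) (.node 2 7 (.cons 0x6543872190 .nil) (.leaf 0x3872190654 4 .done) .done) .done) .done) .done) .done)) (.node 0 7 (.cons 0x6543870912 .nil) (.node 0 4 (.cons 0x5678904321 .nil) (.node 0 3 (.cons 0x8765430912 .nil) (.node 2 8 (.cons 0x3456782190 .nil) (.leaf 0x6782190345 4 (.leaf 0x9128765430 4 (.node 6 8 (.cons 0x7865490123 .nil) (.node 0 2 (.cons 0x7021968345 .nil) (.node 0 5 (.cons 0x7865034912 .nil) .done .done) .done) .done))) .done) .done) (.node 1 7 (.cons 0x9065438712 .nil) (.node 2 9 (.cons 0x9217834560 .nil) (.leaf 0x4387129065 3 (.node 1 4 (.cons 0x7145692380 .nil) (.leaf 0x8329654170 3 (.node 4 7 (.cons 0x1745692380 .nil) (.leaf 0x1096547832 2 (.leaf 0x5692380174 2 .done)) .done)) .done))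 (.node 1 8 .nil (.node 2 7 (.cons 0x6543872190 (.cons 0x5694327081 .nil)) (.node 1 4 (.cons 0x5694180723 (.cons 0x9081456723 .nil)) .done .done) (.node 1 6 (.cons 0x8709432165 .nil) (.node 2 6 (.cons 0x7834562190 .nil) (.node 2 5 (.cons 0x7196254380 .nil) (.leaf 0x1708345269 1 (.leaf 0x8094325617 4 (.leaf 0x8094325617 0 .done))) (.leaf 0x1907834562 2 .done)) .done) .done)) .done)) .done)) .done)) .done))) (.node 4 7 (.cons 0x2387456901 .nil) (.leaf 0x3874569012 2 (.leaf 0x8321096547 4 (.leaf 0x5690123874 5 (.node 1 6 (.cons 0x9016547832 .nil) (.node 1 8 .nil (.node 1 5 (.cons 0x2347651890 .nil) (.node 0 6 (.cons 0x2347890651 (.cons 0x9065187432 .nil)) (.leaf 0x5123478906 5 (.leaf 0x8906512347 2 .done)) .done) (.node 1 7 (.cons 0x4569017832 .nil) (.node 1 4 .nil (.node 0 2 (.cons 0x5432096781 (.cons 0x8714320965 .nil)) (.leaf 0x6902387145 4 (.leaf 0x8320965417 4 (.node 1 5 (.cons 0x2345187690 .nil) (.leaf 0x3415678902 4 (.leaf 0x9678154320 5 .done))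 .done))) (.node 1 3 .nil (.node 0 4 (.cons 0x5678904321 (.cons 0x5678904312 .nil)) (.node 2 8 (.cons 0x3456782190 (.cons 0x9678231045 (.cons 0x5674132890 .nil))) .done .done) .done) .done)) .done) .done)) (.node 0 6 (.cons 0x7834560912 .nil) (.node 1 8 (.cons 0x7812349065 .nil) (.node 1 5 (.cons 0x4321567890 .nil) (.node 3 6 (.cons 0x4789015632 .nil) (.node 2 6 (.cons 0x7834562190 .nil) (.node 2 8 (.cons 0x3456782190 .nil) (.node 0 3 (.cons 0x9154782630 .nil) (.leaf 0x9126547830 1 (.node 0 7 (.cons 0x5496328701 .nil) (.leaf 0x4516907823 2 .done) (.leaf 0x4567821903 5 .done))) .done) .done) .done) .done) (.node 1 4 .nil (.node 5 7 (.cons 0x8756094321 (.cons 0x9065783412 (.cons 0x8756094123 .nil))) (.leaf 0x2349065781 3 .done) (.node 1 5 (.cons 0x2345187690 .nil) (.node 2 9 (.cons 0x7832965410 .nil) (.leaf 0x923478156 1 (.node 0 2 (.cons 0x7896514320 .nil) (.leaf 0x4320967815 2 (.node 5 7 (.cons 0x6923875410 .nil) (.leaf 0x2349065781 3 (.leaf 0x9601457832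 5 (.leaf 0x2096187543 0 .done))) .done)) (.leaf 0x3874561092 1 .done))) .done) .done)) .done)) (.node 4 6 .nil (.node 0 7 (.cons 0x6543870912 (.cons 0x5643870912 .nil)) (.node 1 5 (.cons 0x4321567890 (.cons 0x9645107832 .nil)) (.leaf 0x7096451238 2 .done) .done) (.node 6 8 (.cons 0x7865490123 .nil) (.node 2 6 (.cons 0x7834562190 .nil) (.node 1 5 (.cons 0x4321567890 .nil) (.leaf 0x6238749015 4 (.node 3 6 (.cons 0x4789015632 .nil) .done .done)) .done) .done) .done)) .done)) (.node 1 7 (.cons 0x4569017832 .nil) (.node 1 5 (.cons 0x4321567890 .nil) (.node 1 8 (.cons 0x2347651890 .nil) (.node 1 4 .nil (.node 5 9 (.cons 0x6781234590 (.cons 0x2387416590 .nil)) .done .done) .done) (.node 0 6 (.cons 0x2347890651 .nil) (.leaf 0x5123478906 5 (.leaf 0x8906512347 2 .done)) .done)) (.node 1 8 .nil (.node 0 2 (.cons 0x5674320981 (.cons 0x9023478165 (.cons 0x5432096781 .nil))) (.node 2 6 (.cons 0x5438719620 (.cons 0x9018326547 (.cons 0x3874562091 .nil))) .done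 (.leaf 0x6781902345 3 .done)) (.node 1 5 (.cons 0x4321567890 .nil) (.node 1 3 .nil (.node 2 8 (.cons 0x3456782190 (.cons 0x5613287490 .nil)) (.leaf 0x3109456782 3 .done) .done) (.node 0 6 (.cons 0x2347890651 .nil) (.leaf 0x5123478906 5 (.leaf 0x8906512347 2 .done)) .done)) .done)) .done)) .done))) .done)))) (.node 4 7 (.cons 0x1238745690 .nil) (.node 1 4 (.cons 0x7832145690 .nil) (.node 2 4 .nil (.node 3 5 (.cons 0x4235678901 .nil) (.leaf 0x6789014235 1 (.node 0 3 (.cons 0x2196547830 (.cons 0x8769124530 (.cons 0x5691247830 .nil))) (.leaf 0x2103567894 2 (.leaf 0x5421903876 4 .done)) (.leaf 0x9876534210 5 .done))) (.node 0 4 (.cons 0x5678904321 .nil) (.node 2 9 .nil (.node 3 5 (.cons 0x1298765340 (.cons 0x8921047653 (.cons 0x8923567410 .nil))) (.leaf 0x4783569210 3 .done) (.node 3 5 (.cons 0x8921047653 .nil) (.node 4 6 (.cons 0x7894653210 .nil) (.node 4 8 .nil (.node 0 3 (.cons 0x8769124530 (.cons 0x2196784530 (.cons 0x5678430912 (.cons 0x5674892301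 .nil)))) (.leaf 0x8476530129 5 .done) .done) .done) (.leaf 0x1047653892 3 (.leaf 0x4012983567 2 .done))) .done)) (.node 1 5 (.cons 0x4321567890 .nil) (.node 2 9 (.cons 0x1567892340 .nil) (.node 5 9 (.cons 0x6789510423 .nil) (.node 1 6 (.cons 0x8761095423 .nil) (.leaf 0x2459016783 1 .done) .done) .done) (.leaf 0x8904321567 4 .done)) .done)) .done)) (.node 1 7 .nil (.node 0 5 (.cons 0x8769054123 (.cons 0x4712389650 (.cons 0x6509871234 (.cons 0x6905417832 .nil)))) (.leaf 0x9054123876 1 .done) (.node 2 4 .nil (.node 0 3 (.cons 0x2196547830 (.cons 0x5691247830 .nil)) (.leaf 0x9654217830 4 (.leaf 0x8712456903 5 (.leaf 0x6903871245 2 .done))) (.node 1 8 .nil (.node 0 7 (.cons 0x4569078321 (.cons 0x5670981243 (.cons 0x7096542381 .nil))) (.leaf 0x8123456907 3 .done) (.node 0 4 (.cons 0x5678904321 .nil) (.node 0 7 (.cons 0x4569078321 .nil) (.node 4 6 (.cons 0x5469078321 .nil) (.node 1 5 (.cons 0x4321567890 .nil) (.leaf 0x9078321546 2 (.leaf 0x7096451238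 3 .done)) .done) (.leaf 0x9078321456 1 .done)) (.node 1 5 (.cons 0x4321567890 .nil) (.leaf 0x9876512340 5 (.leaf 0x965178324 3 .done)) .done)) .done)) .done)) .done)) .done)) (.leaf 0x2387456901 0 (.node 1 8 .nil (.node 0 2 (.cons 0x3874569021 (.cons 0x7456902183 .nil)) (.node 3 7 (.cons 0x8732109456 (.cons 0x4569023781 .nil)) (.node 0 3 (.cons 0x8765430912 (.cons 0x7456903812 (.cons 0x4569187302 .nil))) (.leaf 0x1203745698 2 (.leaf 0x2187654903 3 .done)) (.leaf 0x9654738120 5 (.leaf 0x6902183745 4 .done))) (.leaf 0x8765432091 2 (.leaf 0x6781902345 3 .done))) (.node 1 5 (.cons 0x4321567890 .nil) (.node 1 4 (.cons 0x7832145690 .nil) (.node 0 4 (.cons 0x5678904321 .nil) (.node 0 2 (.cons 0x3874569021 .nil) (.node 1 3 (.cons 0x2138745690 .nil) (.leaf 0x9654783120 2 .done) (.leaf 0x9834765120 5 (.leaf 0x1567438902 4 .done))) (.leaf 0x9876512340 5 .done)) .done) (.node 0 4 (.cons 0x5678904321 .nil) (.leaf 0x2340987651 4 (.node 1 4 (.cons 0x7832145690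 .nil) (.node 1 6 (.cons 0x7832169045 .nil) (.node 0 6 (.cons 0x3478906512 .nil) (.leaf 0x1560987432 4 (.node 0 8 (.cons 0x9087654321 .nil) (.node 6 8 (.cons 0x7865490123 .nil) .done .done) (.leaf 0x8906512347 4 .done))) .done) .done) (.leaf 0x8904321567 4 .done))) .done)) (.node 5 9 (.cons 0x6781234590 .nil) (.node 3 5 (.cons 0x4532187690 .nil) (.node 0 4 (.cons 0x2198765340 .nil) (.leaf 0x2187690453 2 (.node 1 5 (.cons 0x4321567890 .nil) (.node 2 5 (.cons 0x6789125340 .nil) (.node 5 7 (.cons 0x6904578321 .nil) (.node 2 8 (.cons 0x3456782190 .nil) (.node 1 6 (.cons 0x1675982340 .nil) (.leaf 0x4578321690 1 (.leaf 0x2895761043 4 (.leaf 0x2895761043 1 .done))) .done) .done) .done) .done) (.leaf 0x3567894012 4 .done))) (.node 2 9 (.cons 0x6781092354 .nil) (.node 3 9 (.cons 0x6547839012 .nil) .done .done) .done)) (.node 3 5 (.cons 0x4532187690 .nil) (.node 0 4 (.cons 0x2198765340 .nil) (.leaf 0x2187690453 2 (.node 5 7 (.cons 0x6904578321 .nil) (.node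 2 6 (.cons 0x7834562190 .nil) (.node 1 5 (.cons 0x1598762340 .nil) (.leaf 0x2678951043 4 (.leaf 0x2678951043 1 .done)) (.node 0 2 (.cons 0x4356789120 .nil) (.node 1 3 (.cons 0x4789653120 .nil) (.leaf 0x8904756213 4 (.leaf 0x9654783120 2 .done)) (.leaf 0x7653402198 5 .done)) (.leaf 0x7810954326 2 .done))) .done) (.leaf 0x3567894012 4 .done))) (.node 4 8 (.cons 0x3567489012 .nil) (.leaf 0x1235674890 1 (.node 3 9 (.cons 0x6547839012 .nil) (.node 7 9 (.cons 0x6790184532 .nil) .done .done) .done)) .done)) .done)) .done))) (.leaf 0x5478321096 1 .done)))) .done)))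
noncomputable def tc9_6_20 : T := (.node 1 8 .nil (.node 3 9 (.cons 0x4567810932 .nil) (.node 0 4 (.cons 0x5678904321 .nil) (.node 2 4 (.cons 0x8765421093 .nil) (.leaf 0x5421093876 1 (.leaf 0x7654239018 3 (.leaf 0x1093876542 0 .done))) (.leaf 0x5678123904 3 (.leaf 0x3987654012 1 .done))) (.node 2 9 (.cons 0x3456781290 .nil) (.node 1 3 (.cons 0x8765431290 .nil) (.leaf 0x4312908765 5 (.leaf 0x2908765431 4 .done)) (.node 0 4 (.cons 0x5678904321 (.cons 0x3290456781 .nil)) (.node 0 6 (.cons 0x8760912345 (.cons 0x7812349065 .nil)) (.node 3 7 (.cons 0x8732109456 (.cons 0x3781294560 (.cons 0x5609437812 (.cons 0x6549018732 .nil)))) (.leaf 0x2189045673 4 .done) (.node 0 3 (.cons 0x9034567812 .nil) (.node 1 4 (.cons 0x8760329145 (.cons 0x5678903412 .nil)) .done (.leaf 0x2187654903 3 .done)) .done)) (.leaf 0x5678123904 2 .done)) .done)) .done)) (.node 2 8 .nil (.node 1 3 (.cons 0x9013287654 .nil) (.node 3 9 (.cons 0x4567823901 .nil) (.node 4 8 (.cons 0x7654821093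 (.cons 0x7654823901 .nil)) .done .done) (.leaf 0x945678231 5 (.leaf 0x8231094567 2 .done))) (.node 2 9 .nil (.node 0 3 (.cons 0x9230187654 .nil) (.leaf 0x1876549230 4 (.leaf 0x2301876549 5 (.leaf 0x8103294567 2 .done))) (.node 3 9 .nil (.node 0 4 (.cons 0x5678904321 (.cons 0x3904567821 .nil)) (.node 1 7 (.cons 0x8904321765 (.cons 0x8217654093 .nil)) (.leaf 0x938217654 2 .done) (.leaf 0x3987654012 1 .done)) (.node 0 2 (.cons 0x9320187654 .nil) (.node 6 8 (.cons 0x7865490123 .nil) (.node 1 7 (.cons 0x7186543920 .nil) (.node 1 3 (.cons 0x7680921345 .nil) (.node 1 6 (.cons 0x9087612345 .nil) .done .done) (.leaf 0x5439021786 4 .done)) (.node 5 8 (.cons 0x6785432190 .nil) (.node 4 8 .nil (.node 3 7 (.cons 0x7329456810 (.cons 0x5486732910 (.cons 0x5486732901 .nil))) (.leaf 0x8102937654 2 .done) .done) .done) .done)) (.leaf 0x8102394567 2 .done)) .done)) .done)) .done)) (.node 3 9 (.cons 0x2187654390 .nil) (.node 2 9 (.cons 0x3456781290 .nil) (.node 2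 8 .nil (.node 1 3 (.cons 0x9013287654 .nil) (.node 0 4 (.cons 0x5678904321 (.cons 0x5678904312 (.cons 0x8765409231 .nil))) (.leaf 0x9045678132 1 .done) (.leaf 0x2876549013 4 (.leaf 0x8231094567 2 .done))) (.node 4 8 .nil (.node 2 7 (.cons 0x8127654390 (.cons 0x5672184390 .nil)) (.leaf 0x4810932765 1 .done) (.node 5 8 (.cons 0x6785432190 .nil) (.node 6 8 (.cons 0x7865490123 .nil) .done .done) .done)) .done)) .done) (.node 0 2 (.cons 0x2093456781 .nil) (.leaf 0x6543902187 3 (.leaf 0x4567812093 2 (.node 0 3 (.cons 0x9034567812 .nil) (.node 3 5 (.cons 0x9021876534 .nil) (.node 0 4 (.cons 0x5678904321 .nil) (.leaf 0x5678940123 5 (.leaf 0x3567894012 4 .done)) .done) .done) .done))) .done)) .done))) (.node 1 8 .nil (.node 3 9 (.cons 0x7654390812 (.cons 0x4567810932 .nil)) (.node 2 4 (.cons 0x5678093421 .nil) (.leaf 0x5421093876 1 (.leaf 0x7654239018 3 (.node 3 7 (.cons 0x6549378012 (.cons 0x9081243765 (.cons 0x6549018732 .nil))) (.leaf 0x4218093765 4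 .done) (.leaf 0x1093876542 0 .done)))) .done) (.node 2 9 (.cons 0x3456780921 .nil) (.node 3 9 (.cons 0x7654392180 .nil) (.node 1 7 (.cons 0x2934567180 .nil) (.node 0 2 (.cons 0x7654392081 .nil) (.leaf 0x3920817654 2 (.node 1 3 (.cons 0x9087654312 .nil) (.node 1 4 (.cons 0x8765410932 .nil) (.node 1 6 (.cons 0x7618029345 .nil) .done .done) .done) (.leaf 0x8102394567 2 .done))) (.node 1 4 (.cons 0x8765410932 .nil) (.node 7 9 (.cons 0x3456792180 .nil) (.node 0 6 (.cons 0x3218794560 .nil) (.node 5 8 (.cons 0x6785432190 .nil) (.leaf 0x9123458760 1 (.leaf 0x9123458760 0 .done)) (.leaf 0x9783214560 1 (.leaf 0x5438712906 3 .done))) .done) .done) .done)) .done) (.node 2 8 .nil (.node 1 3 (.cons 0x9087654312 (.cons 0x9082134567 .nil)) (.leaf 0x8231094567 2 .done) (.node 1 3 (.cons 0x9087654312 .nil) (.node 4 8 (.cons 0x7654809213 .nil) (.node 5 8 (.cons 0x6785432190 .nil) (.node 6 8 (.cons 0x7865490123 .nil) .done .done) .done) (.node 1 7 .nil (.node 3 6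 (.cons 0x5436780912 (.cons 0x3654921780 (.cons 0x7129083654 (.cons 0x8710945632 .nil)))) .done (.node 7 9 .nil (.node 3 6 (.cons 0x4563871290 (.cons 0x8794563210 (.cons 0x5436790821 (.cons 0x2365497810 .nil)))) .done (.node 1 4 (.cons 0x6541097832 .nil) (.node 1 6 (.cons 0x4561097832 .nil) .done .done) .done)) .done)) .done)) .done)) .done)) .done)) (.node 2 9 .nil (.node 1 3 (.cons 0x9231087654 .nil) (.leaf 0x876549231 4 (.leaf 0x2945678013 5 (.leaf 0x8013294567 2 .done))) (.node 3 9 .nil (.node 2 4 (.cons 0x9324567801 .nil) (.leaf 0x5421093876 1 (.leaf 0x1093876542 0 .done)) (.node 1 8 (.cons 0x7654329081 .nil) (.node 1 7 (.cons 0x9234567180 .nil) (.leaf 0x2345671809 4 (.node 0 2 (.cons 0x8176543920 .nil) (.leaf 0x4567180293 2 (.node 6 9 (.cons 0x2178345690 .nil) (.node 2 8 (.cons 0x4567823901 .nil) (.node 6 8 (.cons 0x7865490123 .nil) .done .done) (.leaf 0x1783456902 3 .done)) (.leaf 0x8102394567 2 .done))) .done)) (.node 2 4 (.cons 0x8765423901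 .nil) (.node 1 4 (.cons 0x5678932410 .nil) (.node 3 5 (.cons 0x9801423567 .nil) (.node 1 3 (.cons 0x7654318092 .nil) (.node 3 7 (.cons 0x9801423765 .nil) (.node 5 9 (.cons 0x7659243180 .nil) (.leaf 0x1087659423 3 (.leaf 0x2410895673 4 .done)) .done) .done) (.node 7 9 (.cons 0x4235679801 .nil) (.leaf 0x897653241 2 (.leaf 0x6798014235 5 .done)) .done)) .done) (.leaf 0x7810932456 1 .done)) .done)) .done)) (.node 2 8 .nil (.node 1 3 (.cons 0x4567809231 .nil) (.leaf 0x2876549013 4 (.leaf 0x945678231 5 (.leaf 0x8231094567 2 .done))) (.node 1 8 .nil (.node 1 7 (.cons 0x9081765432 .nil) (.leaf 0x5671809234 4 (.leaf 0x817654329 4 (.node 1 4 (.cons 0x7654180923 .nil) (.node 0 3 (.cons 0x9230876541 (.cons 0x9230814567 .nil)) (.leaf 0x7812903456 3 (.leaf 0x2187654903 3 .done)) .done) .done))) (.node 5 8 (.cons 0x6785432190 .nil) (.node 6 8 (.cons 0x7865490123 .nil) .done .done) .done)) (.node 0 6 (.cons 0x8760912345 .nil) (.node 5 8 (.cons 0x6785432190 .nil)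 (.node 1 8 .nil (.node 7 9 (.cons 0x8543219760 (.cons 0x7906543812 (.cons 0x2345819760 .nil))) .done (.node 4 8 .nil (.node 0 3 (.cons 0x9034567812 .nil) (.leaf 0x7812903456 3 (.node 5 9 (.cons 0x4309567812 (.cons 0x7659034812 (.cons 0x7603485912 .nil))) (.leaf 0x8765901234 3 .done) .done)) .done) .done)) (.leaf 0x9123458760 4 (.leaf 0x9123458760 0 .done))) (.node 1 8 (.cons 0x7812349065 .nil) (.node 5 8 (.cons 0x6785432190 .nil) (.leaf 0x1906785432 2 (.node 6 8 (.cons 0x7865490123 .nil) (.node 4 8 .nil (.node 1 5 (.cons 0x4321567890 (.cons 0x7651234890 (.cons 0x9065123487 .nil))) (.node 0 3 (.cons 0x4309876512 (.cons 0x6784512903 .nil)) (.leaf 0x6512903487 3 .done) .done) .done) .done) .done)) (.node 0 3 (.cons 0x9034567812 .nil) (.node 0 2 (.cons 0x9021876543 .nil) (.node 3 9 (.cons 0x2187654390 .nil) (.leaf 0x4567812093 2 .done) .done) (.leaf 0x7812903456 3 .done)) .done)) (.node 2 7 (.cons 0x9065438721 .nil) (.leaf 0x4387219065 3 (.node 1 5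 (.cons 0x4321567890 .nil) (.leaf 0x7215609438 4 (.leaf 0x651278349 4 (.node 0 4 (.cons 0x5678904321 .nil) (.leaf 0x2340987651 4 (.node 0 7 .nil (.node 0 5 (.cons 0x6507894321 .nil) (.node 2 5 (.cons 0x8760912543 (.cons 0x3498706521 .nil)) .done .done) .done) .done)) (.node 2 6 (.cons 0x3490872651 .nil) (.node 2 4 (.cons 0x3421567890 .nil) (.node 0 4 (.cons 0x5678904321 .nil) (.node 0 7 (.cons 0x8907651243 .nil) .done .done) .done) (.leaf 0x915432678 4 .done)) .done)))) .done)) .done))) .done))) .done))) .done)))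
noncomputable def tc9_6_21 : T := (.leaf 0x4321908765 3 (.node 2 9 (.cons 0x3456780921 .nil) (.node 3 9 .nil (.node 2 4 (.cons 0x5678093421 .nil) (.leaf 0x5421093876 1 (.node 0 5 (.cons 0x7650891243 (.cons 0x7650893421 (.cons 0x4239876501 .nil))) (.leaf 0x8934210567 4 .done) (.node 0 4 (.cons 0x5678904321 .nil) (.node 4 7 (.cons 0x9012387456 (.cons 0x5674210893 (.cons 0x6547839012 .nil))) (.node 5 8 (.cons 0x3247658901 (.cons 0x9321045876 (.cons 0x6785409321 .nil))) (.node 1 4 (.cons 0x7658901423 (.cons 0x7658932410 .nil)) (.node 2 7 (.cons 0x8091276543 (.cons 0x3985672410 (.cons 0x8567241093 (.cons 0x6541278390 .nil)))) .done .done) .done) .done) (.leaf 0x3987654012 1 .done)) .done))) (.node 1 8 (.cons 0x4567810932 .nil) (.node 2 8 (.cons 0x4567823901 .nil) (.node 2 4 (.cons 0x9324567810 .nil) (.node 2 7 (.cons 0x6549327810 .nil) (.node 5 8 (.cons 0x1934276580 .nil) (.node 6 8 (.cons 0x7865490123 .nil) .done .done) .done) (.leaf 0x3245678109 1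 .done)) .done) (.node 2 8 (.cons 0x4567823901 .nil) (.node 4 8 (.cons 0x7654823910 .nil) (.node 2 4 (.cons 0x8765423901 .nil) (.node 2 7 (.cons 0x1934567280 .nil) (.leaf 0x8276543910 5 (.node 7 9 (.cons 0x3284567910 .nil) (.node 0 3 (.cons 0x8219765430 .nil) (.leaf 0x2765481903 4 (.node 0 4 (.cons 0x9328765401 .nil) .done (.leaf 0x6791280345 1 .done))) .done) .done)) .done) .done) (.node 1 4 (.cons 0x1456782390 .nil) (.node 0 7 (.cons 0x8239145670 .nil) (.leaf 0x4193280765 0 (.leaf 0x9145670823 4 (.node 0 3 (.cons 0x7654193082 .nil) (.leaf 0x6703289145 2 (.leaf 0x2891456703 5 (.node 1 3 (.cons 0x6549078231 .nil) .done .done))) .done))) (.node 3 5 (.cons 0x2143567890 .nil) (.node 2 6 (.cons 0x8762935410 .nil) (.node 1 5 (.cons 0x1543926780 .nil) (.leaf 0x9267801543 2 .done) (.leaf 0x5392678014 0 (.leaf 0x7629354108 1 .done))) (.node 0 2 (.cons 0x3902876541 .nil) (.node 2 4 (.cons 0x8765423901 .nil) (.node 0 7 (.cons 0x1428935670 .nil) (.leaf 0x3982410765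 4 (.leaf 0x6534128907 4 (.leaf 0x5670982143 2 .done))) .done) (.leaf 0x4120987653 2 (.leaf 0x1435678902 4 .done))) .done)) .done)) .done)) .done)) .done)) (.node 1 3 (.cons 0x9087654312 .nil) (.node 6 9 (.cons 0x7832109654 .nil) (.node 1 6 .nil (.node 0 3 (.cons 0x9213087654 (.cons 0x7803165492 .nil)) (.leaf 0x1294567803 4 (.leaf 0x2130876549 2 (.node 2 7 (.cons 0x1278345690 (.cons 0x9430872165 (.cons 0x5438721690 (.cons 0x5612780943 .nil)))) .done .done))) (.node 1 8 .nil (.node 0 4 (.cons 0x7831296540 (.cons 0x9231876540 .nil)) (.node 0 6 (.cons 0x7806549213 (.cons 0x7813294560 .nil)) .done (.leaf 0x7813290456 4 .done)) (.node 5 9 (.cons 0x6781234590 .nil) (.node 1 7 (.cons 0x2178345690 .nil) (.node 1 4 .nil (.node 0 3 (.cons 0x5430967812 (.cons 0x6780314592 (.cons 0x4130876592 (.cons 0x6541783092 .nil)))) (.leaf 0x1294567803 4 .done) .done) .done) .done) .done)) .done)) (.node 4 7 (.cons 0x2387456901 .nil) (.leaf 0x3874569012 2 (.leaf 0x8321096547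 4 (.leaf 0x5690123874 5 (.node 1 6 (.cons 0x1654783290 .nil) (.leaf 0x7832901654 0 (.node 1 5 (.cons 0x4321567890 .nil) (.node 0 6 (.cons 0x4789231560 .nil) (.leaf 0x5123478906 5 (.node 0 4 (.cons 0x6513298740 .nil) (.leaf 0x2340987651 4 (.node 0 7 (.cons 0x9078345612 .nil) .done .done)) .done)) .done) .done)) .done)))) .done)) (.leaf 0x7809213456 3 (.node 6 9 (.cons 0x7832109654 .nil) (.node 1 6 .nil (.node 2 7 (.cons 0x1278345690 (.cons 0x5438721690 (.cons 0x5612780943 .nil))) (.node 0 3 (.cons 0x5672198034 (.cons 0x3087294561 .nil)) (.leaf 0x6103278945 4 (.leaf 0x7230165498 4 .done)) .done) (.node 5 9 .nil (.node 0 2 (.cons 0x7834569021 (.cons 0x7834596120 (.cons 0x7802165943 .nil))) (.leaf 0x1349567802 4 (.node 1 8 (.cons 0x7812096543 (.cons 0x6781234590 .nil)) .done .done)) (.node 1 8 .nil (.node 0 7 (.cons 0x5612349870 (.cons 0x2349561870 (.cons 0x3294561870 .nil))) (.leaf 0x8123456907 2 .done) (.node 2 6 (.cons 0x1876234590 .nil) (.node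 0 6 (.cons 0x2345906781 .nil) (.leaf 0x7812345906 2 (.node 3 6 (.cons 0x4590187632 .nil) .done .done)) (.leaf 0x7810954326 2 .done)) .done)) .done)) .done)) (.node 4 7 (.cons 0x2387456901 .nil) (.leaf 0x3874569012 2 (.leaf 0x8321096547 4 (.leaf 0x5690123874 5 (.node 2 5 (.cons 0x8091347652 .nil) (.node 2 8 (.cons 0x9134765280 .nil) (.node 0 4 (.cons 0x5678904321 .nil) (.node 2 4 (.cons 0x7832456901 .nil) .done (.leaf 0x1983256740 2 .done)) .done) (.leaf 0x1349087652 2 (.node 4 6 (.cons 0x3256478901 .nil) (.leaf 0x2564789013 2 (.leaf 0x5231098746 4 (.leaf 0x7890132564 5 .done))) .done))) .done)))) .done)) .done))) .done)) (.node 2 9 .nil (.node 1 3 (.cons 0x9231087654 .nil) (.leaf 0x876549231 4 (.leaf 0x7654312908 5 (.leaf 0x8013294567 2 .done))) (.node 2 8 (.cons 0x7654328091 .nil) (.node 2 4 .nil (.node 3 9 (.cons 0x8765423901 .nil) (.leaf 0x5421093876 1 .done) (.node 3 9 .nil (.node 0 7 (.cons 0x8219345670 .nil) (.node 1 4 (.cons 0x5670891432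 .nil) (.leaf 0x5678239014 3 (.leaf 0x7809321456 1 (.leaf 0x5670823914 2 .done))) (.leaf 0x4391280765 0 (.leaf 0x9345670821 4 .done))) (.node 1 8 (.cons 0x4567810932 .nil) (.node 4 8 (.cons 0x7654823910 .nil) (.node 1 4 (.cons 0x9328765410 .nil) (.node 5 8 (.cons 0x7658932410 .nil) (.node 6 8 (.cons 0x7865490123 .nil) .done .done) .done) .done) (.node 0 2 (.cons 0x7654391820 .nil) (.leaf 0x4567812093 2 (.node 0 7 (.cons 0x2819345670 .nil) (.node 0 3 (.cons 0x9034567812 .nil) (.node 2 7 (.cons 0x5672189034 .nil) (.leaf 0x3945672810 5 .done) .done) (.leaf 0x9345670281 2 .done)) .done)) .done)) .done)) .done)) (.node 3 9 .nil (.node 2 4 (.cons 0x9324567801 .nil) (.leaf 0x5421093876 1 (.node 1 7 (.cons 0x8091765432 (.cons 0x4567193280 (.cons 0x3908245671 .nil))) (.leaf 0x893245671 1 (.leaf 0x917654328 4 .done)) .done)) (.node 1 4 (.cons 0x1456782390 .nil) (.node 0 7 (.cons 0x8239145670 .nil) (.leaf 0x4193280765 4 (.leaf 0x1932807654 5 (.node 2 4 (.cons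 0x5678932410 .nil) (.node 1 5 (.cons 0x3982415670 .nil) (.node 2 5 (.cons 0x7652341980 .nil) (.leaf 0x9807652341 2 .done) (.leaf 0x2438907651 2 .done)) .done) .done))) (.leaf 0x7823901456 1 (.node 1 8 (.cons 0x4567810932 .nil) (.node 1 7 (.cons 0x8091765432 .nil) (.node 0 7 (.cons 0x9180765432 .nil) (.leaf 0x8192345670 2 (.node 0 2 (.cons 0x3902876541 .nil) (.leaf 0x3201876549 5 (.leaf 0x5439182076 1 (.leaf 0x8102394567 2 .done))) .done)) (.leaf 0x917654328 4 .done)) (.node 1 7 (.cons 0x8091765432 .nil) (.node 0 4 (.cons 0x8239176540 .nil) (.node 1 5 (.cons 0x4321567890 .nil) (.leaf 0x2340987651 4 .done) (.leaf 0x7193280456 4 .done)) (.leaf 0x917654328 4 .done)) .done)) .done))) .done)) .done)) (.node 2 8 (.cons 0x7654328091 .nil) (.node 7 9 (.cons 0x1976543280 .nil) (.node 3 7 (.cons 0x9108237654 .nil) (.leaf 0x194567328 4 (.node 2 7 .nil (.node 1 4 (.cons 0x3290876541 (.cons 0x5672341980 .nil)) (.leaf 0x9083276541 4 (.node 0 5 (.cons 0x9143765082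 (.cons 0x8905672143 (.cons 0x6509872143 (.cons 0x6508273491 .nil)))) .done .done)) .done) (.leaf 0x1945673280 5 .done))) (.node 0 3 (.cons 0x8219765430 .nil) (.node 6 9 (.cons 0x7832109654 .nil) (.node 4 7 (.cons 0x2387456901 .nil) (.leaf 0x3874569012 2 (.leaf 0x8321096547 4 (.node 5 9 (.cons 0x4765982301 .nil) .done .done))) .done) (.leaf 0x9765430821 4 (.leaf 0x6791280345 0 .done))) (.leaf 0x6543280197 2 .done))) (.node 6 9 (.cons 0x7832109654 .nil) (.node 1 6 (.cons 0x7619082345 .nil) (.node 5 9 (.cons 0x7619543280 .nil) (.node 3 9 (.cons 0x4593287610 .nil) (.node 1 3 (.cons 0x5431287690 .nil) (.node 0 5 (.cons 0x7894321650 .nil) (.leaf 0x2876905431 1 (.leaf 0x2876905431 4 (.leaf 0x2876905431 0 .done))) .done) .done) .done) (.node 0 6 .nil (.node 1 5 (.cons 0x3451287690 (.cons 0x7894321560 (.cons 0x7890651234 (.cons 0x9067821543 .nil)))) .done (.node 2 6 .nil (.node 0 7 (.cons 0x8709432165 (.cons 0x5438709621 (.cons 0x9078345621 .nil))) (.leaf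 0x2654387091 2 .done) (.node 2 7 (.cons 0x1278345690 .nil) (.node 3 7 (.cons 0x9456237801 .nil) (.leaf 0x5491087326 4 (.leaf 0x4562378019 5 (.node 0 2 (.cons 0x7834569021 .nil) (.node 1 8 (.cons 0x9456237810 .nil) (.leaf 0x4569021873 3 (.leaf 0x4569021873 2 .done)) .done) .done))) .done) .done)) .done)) .done)) (.node 4 7 (.cons 0x2387456901 .nil) (.leaf 0x3874569012 2 (.leaf 0x8321096547 4 (.leaf 0x5690123874 5 (.node 1 5 (.cons 0x1543287690 .nil) (.node 0 3 (.cons 0x9678230154 .nil) (.leaf 0x5103287694 4 (.node 1 6 (.cons 0x1654783290 .nil) (.leaf 0x7832901654 0 (.node 1 8 (.cons 0x4518769230 .nil) .done .done)) (.leaf 0x8230154967 4 .done))) (.leaf 0x2876901543 2 (.node 1 6 (.cons 0x1654783290 .nil) (.node 5 9 (.cons 0x7619543280 .nil) .done (.leaf 0x7832901654 0 .done)) .done))) .done)))) .done)) .done)) .done))) .done)))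
noncomputable def tc9_6_22 : T := (.node 1 9 (.cons 0x8765432190 .nil) (.node 4 7 (.cons 0x3874569012 .nil) (.node 2 9 (.cons 0x3874569210 .nil) (.node 4 6 .nil (.node 3 5 (.cons 0x8947653210 (.cons 0x7835469210 (.cons 0x2356478910 .nil))) (.leaf 0x1235647890 2 .done) (.node 0 6 (.cons 0x7498321065 .nil) (.node 7 9 (.cons 0x5601238974 .nil) (.leaf 0x6012389745 2 (.node 0 3 (.cons 0x9654783012 .nil) (.node 5 9 (.cons 0x6954783012 .nil) (.node 1 4 (.cons 0x6541238790 .nil) (.leaf 0x2387906541 4 (.node 2 7 (.cons 0x1278345690 .nil) (.leaf 0x659832741 3 .done) .done)) .done) (.leaf 0x1038745692 1 (.leaf 0x4783012965 0 .done))) .done)) (.node 5 9 (.cons 0x8743219560 .nil) (.leaf 0x3210659478 1 (.leaf 0x3210659478 4 .done)) .done)) .done)) (.node 4 6 .nil (.node 5 9 (.cons 0x7465983210 .nil) (.leaf 0x2109546783 0 (.leaf 0x3874659012 2 .done)) (.node 0 6 (.cons 0x7498321065 .nil) (.node 7 9 (.cons 0x5601238974 .nil) (.node 2 7 (.cons 0x1278345690 .nil)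 (.node 1 7 (.cons 0x2178345690 .nil) (.node 0 7 (.cons 0x8912347065 .nil) (.node 3 7 (.cons 0x8371290654 .nil) .done .done) .done) .done) (.leaf 0x6012389745 2 .done)) (.node 5 9 (.cons 0x8743219560 .nil) (.leaf 0x3210659478 1 .done) .done)) .done)) .done)) (.leaf 0x8321096547 1 (.node 3 9 (.cons 0x6547839012 .nil) (.node 2 9 .nil (.node 0 3 (.cons 0x7830129654 .nil) (.leaf 0x8301296547 5 (.leaf 0x1296547830 4 (.leaf 0x2103874569 2 (.node 1 4 (.cons 0x7830145692 .nil) (.node 1 8 (.cons 0x9230187654 (.cons 0x3456781290 .nil)) (.leaf 0x4567812903 5 .done) (.leaf 0x923876541 0 .done)) .done)))) (.node 7 9 .nil (.node 0 4 (.cons 0x5678904321 .nil) (.node 2 4 (.cons 0x3879654210 .nil) (.node 3 5 (.cons 0x8769354210 (.cons 0x8901247653 (.cons 0x4235678901 .nil))) (.leaf 0x1096783542 0 .done) (.node 1 6 (.cons 0x3874561290 (.cons 0x8790432165 .nil)) (.leaf 0x3879016542 0 (.leaf 0x3879016542 1 .done)) .done)) (.leaf 0x1238796540 1 (.leaf 0x5697832104 1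 .done))) (.node 5 9 .nil (.node 4 6 (.cons 0x8764593210 .nil) (.leaf 0x123874659 4 (.node 1 7 (.cons 0x2178345690 (.cons 0x6459017832 (.cons 0x4659017832 .nil))) (.node 0 2 (.cons 0x9654387120 (.cons 0x6598347120 (.cons 0x1789564320 (.cons 0x6954387120 (.cons 0x8719564320 .nil))))) .done .done) .done)) .done) .done)) .done)) (.node 1 4 (.cons 0x8765410932 .nil) (.node 1 8 (.cons 0x4567810932 .nil) (.node 2 4 (.cons 0x5678932410 .nil) (.leaf 0x932456781 3 (.node 4 6 (.cons 0x5467810932 .nil) (.node 1 7 (.cons 0x2178345690 .nil) (.node 5 9 (.cons 0x6781234590 .nil) (.leaf 0x7832465901 0 .done) .done) .done) .done)) (.node 1 5 (.cons 0x4321567890 .nil) (.node 0 2 (.cons 0x7834569021 .nil) (.leaf 0x6543902187 3 (.leaf 0x4567812093 2 (.leaf 0x9834765120 5 (.leaf 0x1567438902 4 .done)))) .done) .done)) (.node 2 8 (.cons 0x4567823901 .nil) (.node 0 6 (.cons 0x3910654782 .nil) (.leaf 0x9106547823 2 (.leaf 0x1932874560 4 (.leaf 0x5601932874 5 .done))) (.node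 5 9 .nil (.node 4 6 (.cons 0x5467823901 (.cons 0x3287645901 .nil)) (.leaf 0x1238746590 5 .done) (.node 2 9 .nil (.node 1 6 (.cons 0x2938745610 .nil) (.leaf 0x5478329016 5 (.leaf 0x9016547832 2 (.leaf 0x923874561 4 .done))) .done) .done)) (.leaf 0x7823901456 1 .done))) .done)) .done)) (.node 4 6 .nil (.node 5 7 (.cons 0x7564983210 .nil) (.leaf 0x8901234657 4 (.leaf 0x9875643210 2 (.node 2 5 (.cons 0x3256478910 (.cons 0x7465238901 (.cons 0x3256478901 .nil))) (.node 1 4 (.cons 0x3412567890 .nil) (.leaf 0x7832569014 4 (.leaf 0x983256741 2 .done)) .done) .done))) (.node 2 9 (.cons 0x6547832901 .nil) (.node 3 9 .nil (.node 0 8 (.cons 0x9087654321 (.cons 0x9321087645 (.cons 0x5467801293 .nil))) (.leaf 0x3945678012 1 .done) (.node 2 4 (.cons 0x8765423901 .nil) (.node 7 9 .nil (.node 0 5 (.cons 0x7891234650 (.cons 0x2389746501 (.cons 0x6450129783 .nil))) (.leaf 0x6501238794 1 (.leaf 0x4697832105 1 .done)) (.node 5 9 .nil (.node 0 2 (.cons 0x7834569021 (.cons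 0x7465983201 (.cons 0x9564783201 .nil))) .done .done) .done)) .done) .done)) (.node 1 6 (.cons 0x1654783290 .nil) (.leaf 0x3874561092 1 (.leaf 0x7832901654 0 .done)) .done)) .done)) .done)))) (.node 3 9 .nil (.node 2 4 (.cons 0x7839654210 .nil) (.leaf 0x5421093876 1 (.node 4 7 (.cons 0x3874569012 (.cons 0x6547839012 .nil)) (.node 0 5 (.cons 0x8947650123 (.cons 0x8932105674 (.cons 0x6501239874 (.cons 0x6501247893 .nil)))) (.leaf 0x6938742105 4 .done) (.leaf 0x8321096547 1 (.node 2 9 (.cons 0x6547832901 .nil) (.node 1 6 (.cons 0x1654783290 (.cons 0x8742390165 .nil)) (.node 2 8 (.cons 0x9328745610 .nil) (.leaf 0x5478239016 0 (.leaf 0x7654390128 3 (.leaf 0x3287456109 1 .done))) (.leaf 0x3874561092 1 .done)) .done) .done))) (.leaf 0x1093876542 0 .done))) (.node 1 8 (.cons 0x4567810932 .nil) (.node 2 8 (.cons 0x7654932810 .nil) (.node 1 4 (.cons 0x8765410932 .nil) (.leaf 0x932876541 3 (.node 1 7 (.cons 0x2178345690 .nil) (.node 1 3 (.cons 0x5431287690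 .nil) (.node 1 6 .nil (.node 0 7 (.cons 0x8107654932 (.cons 0x5438709612 (.cons 0x9078345612 .nil))) (.leaf 0x5612387094 2 .done) .done) .done) .done) .done)) (.node 5 8 (.cons 0x6785432190 .nil) (.node 0 6 (.cons 0x3458760912 .nil) (.leaf 0x9123458760 4 (.leaf 0x1906785432 2 (.leaf 0x7854321906 5 .done))) (.node 6 8 .nil (.node 2 7 (.cons 0x1278345690 (.cons 0x3276854910 (.cons 0x5493276810 .nil))) (.node 1 5 (.cons 0x4387215690 (.cons 0x4327685190 (.cons 0x7215683490 .nil))) (.leaf 0x2349015867 5 .done) .done) .done) .done)) .done)) (.node 1 7 (.cons 0x2178345690 .nil) (.node 0 2 (.cons 0x9654387120 .nil) (.leaf 0x6543902187 3 (.leaf 0x4567812093 2 (.leaf 0x8345690217 3 (.leaf 0x8345690217 2 .done)))) (.node 2 4 (.cons 0x8765423901 .nil) (.node 7 9 (.cons 0x3879654210 .nil) (.node 1 4 (.cons 0x5678932410 .nil) (.node 0 6 (.cons 0x4560978321 .nil) (.leaf 0x5412387906 5 (.leaf 0x9783214560 4 (.leaf 0x7906541238 2 .done))) .done) .done) (.node 1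 4 (.cons 0x8765410932 .nil) (.node 4 6 (.cons 0x8710932465 .nil) (.node 2 9 (.cons 0x3456781290 .nil) (.node 7 9 .nil (.node 0 6 (.cons 0x8760912345 (.cons 0x7906543812 (.cons 0x5609781243 .nil))) .done .done) .done) .done) .done) (.leaf 0x7810932456 1 .done))) .done)) .done)) .done)) .done)) (.node 4 7 (.cons 0x2387456901 .nil) (.leaf 0x3874569012 2 (.leaf 0x8321096547 4 (.leaf 0x5690123874 5 (.node 3 9 .nil (.node 2 4 (.cons 0x7832456901 .nil) (.node 0 5 (.cons 0x8932476501 (.cons 0x1243987650 (.cons 0x4239876501 .nil))) (.node 1 8 (.cons 0x5423967810 (.cons 0x2187654390 .nil)) (.leaf 0x7654239018 3 (.leaf 0x5674321890 4 .done)) (.leaf 0x8934210567 4 .done)) (.node 1 8 (.cons 0x7810965423 (.cons 0x2187654390 .nil)) (.node 0 2 (.cons 0x5674981023 (.cons 0x8102394765 .nil)) (.leaf 0x3201874569 5 (.leaf 0x8102396547 2 .done)) (.leaf 0x932456781 3 .done)) (.leaf 0x1093876542 0 .done))) (.node 1 9 (.cons 0x8765432190 .nil) (.node 2 9 (.cons 0x6547832901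 .nil) (.node 1 6 (.cons 0x1654783290 .nil) (.node 7 9 .nil (.node 0 2 (.cons 0x5619874320 (.cons 0x5610238974 .nil)) (.leaf 0x1654798320 4 (.leaf 0x3201654798 5 (.leaf 0x3201654978 1 .done))) (.node 5 9 .nil (.node 0 2 (.cons 0x9783456120 (.cons 0x1659874320 (.cons 0x7832016954 (.cons 0x4387956120 .nil)))) (.leaf 0x1695478320 5 .done) .done) .done)) (.leaf 0x3874561092 1 (.leaf 0x7832901654 0 (.node 7 9 (.cons 0x2165438790 .nil) (.node 5 9 .nil (.node 4 6 (.cons 0x8764593210 .nil) (.leaf 0x123874659 1 .done) .done) .done) .done)))) .done) (.node 2 9 (.cons 0x6547832901 .nil) (.node 1 6 (.cons 0x9016547832 .nil) (.leaf 0x5478329016 0 (.leaf 0x165478329 1 (.node 1 8 (.cons 0x5618743290 .nil) (.node 3 6 (.cons 0x9236547810 .nil) (.node 1 7 (.cons 0x4569017832 .nil) (.node 4 6 (.cons 0x5469017832 .nil) (.node 2 5 (.cons 0x4523967810 .nil) (.leaf 0x3256109478 1 (.leaf 0x1096452387 3 (.node 0 3 (.cons 0x8176945230 .nil) (.leaf 0x2301874569 5 (.leaf 0x4765230189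 3 (.node 2 8 (.cons 0x3654782910 .nil) (.leaf 0x4567821903 5 .done) .done))) .done))) .done) .done) (.leaf 0x2365478109 1 .done)) (.node 5 9 (.cons 0x6781234590 .nil) (.node 2 5 (.cons 0x9016523874 .nil) (.leaf 0x3256109478 1 (.node 7 9 (.cons 0x8325610974 .nil) .done .done)) .done) .done)) .done))) (.node 1 6 (.cons 0x1654783290 .nil) (.node 7 9 .nil (.node 0 2 (.cons 0x3874561920 (.cons 0x5610238974 .nil)) (.leaf 0x1654798320 4 (.leaf 0x3201654798 5 (.leaf 0x3201654978 1 .done))) .done) (.leaf 0x3874561092 1 (.leaf 0x7832901654 0 .done))) .done)) .done)) .done)) .done)))) (.node 4 7 (.cons 0x1238745690 .nil) (.node 1 4 (.cons 0x7832145690 .nil) (.node 2 4 .nil (.node 3 5 (.cons 0x8947653210 (.cons 0x4235678901 .nil)) (.node 0 4 (.cons 0x9876532401 .nil) (.node 0 8 (.cons 0x9087654321 (.cons 0x7653249801 .nil)) (.leaf 0x9801235674 5 .done) (.leaf 0x6532104987 4 .done)) (.leaf 0x9876534210 5 .done)) (.node 0 4 (.cons 0x5678904321 .nil) (.node 4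 6 .nil (.node 5 7 (.cons 0x6574983210 (.cons 0x3214657890 .nil)) (.leaf 0x9875643210 2 (.leaf 0x4578321096 1 .done)) (.node 4 8 .nil (.node 3 5 (.cons 0x8947653210 (.cons 0x9847653210 .nil)) (.leaf 0x6532109487 1 (.leaf 0x4876901235 0 .done)) .done) .done)) (.node 4 8 .nil (.node 3 5 (.cons 0x8947653210 (.cons 0x9847653210 .nil)) (.leaf 0x6532109487 1 (.leaf 0x4876901235 0 .done)) (.node 4 6 .nil (.node 5 7 (.cons 0x6574983210 (.cons 0x3214657890 .nil)) (.leaf 0x9875643210 2 (.leaf 0x4578321096 1 .done)) .done) .done)) .done)) .done)) (.node 2 4 .nil (.node 1 7 (.cons 0x3871245690 .nil) (.leaf 0x5423871096 1 (.node 0 7 (.cons 0x4569078321 (.cons 0x3870965421 .nil)) (.node 1 3 (.cons 0x7831245690 .nil) (.leaf 0x987654231 1 (.leaf 0x2456789013 1 (.leaf 0x2456907831 4 .done))) (.leaf 0x9078321456 1 .done)) .done)) (.node 0 4 (.cons 0x5678904321 .nil) (.node 4 8 .nil (.node 3 5 (.cons 0x8947653210 (.cons 0x9847653210 .nil)) (.leaf 0x6532109487 1 (.leaf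 0x4876901235 0 .done)) (.node 4 6 .nil (.node 0 5 (.cons 0x8947650123 (.cons 0x9832105647 (.cons 0x7890564321 .nil))) (.node 3 5 (.cons 0x8947653210 (.cons 0x9876410532 .nil)) (.leaf 0x1235647890 2 .done) .done) .done) .done)) (.node 1 5 (.cons 0x4321567890 .nil) (.node 3 7 (.cons 0x1569873240 .nil) (.leaf 0x4237896510 2 (.leaf 0x2401569873 4 (.leaf 0x8732401569 5 .done))) (.leaf 0x9876512340 5 (.leaf 0x8904321567 4 (.node 1 9 (.cons 0x8765432190 .nil) (.node 1 7 .nil (.node 0 5 (.cons 0x8947650123 (.cons 0x4712389650 (.cons 0x6509871234 .nil))) .done (.node 2 9 (.cons 0x6517834092 .nil) (.node 0 6 (.cons 0x3874512960 .nil) (.node 7 9 (.cons 0x5601238974 .nil) (.leaf 0x1065479832 3 (.leaf 0x6012389745 2 .done)) (.node 5 9 (.cons 0x8743219560 .nil) (.leaf 0x3210659478 1 .done) (.leaf 0x4512906783 1 .done))) .done) .done)) .done) .done)))) .done)) .done)) (.node 4 6 .nil (.node 3 5 (.cons 0x8947653210 .nil) (.node 0 7 (.cons 0x4569078321 (.cons 0x5469078321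 .nil)) (.leaf 0x8709654123 1 (.leaf 0x6532107894 4 (.leaf 0x3564987012 0 .done))) (.leaf 0x1235647890 2 (.leaf 0x987645321 1 .done))) (.node 4 8 .nil (.node 3 5 (.cons 0x8947653210 (.cons 0x9847653210 .nil)) (.leaf 0x6532109487 1 (.leaf 0x4876901235 0 .done)) (.node 0 4 (.cons 0x5678904321 .nil) (.node 2 4 .nil (.node 1 5 (.cons 0x3215698740 (.cons 0x7890156423 .nil)) (.node 3 5 (.cons 0x8947653210 (.cons 0x4235678901 .nil)) (.leaf 0x9876534210 5 .done) (.leaf 0x2340987651 2 .done)) .done) .done) .done)) .done)) .done))) (.leaf 0x2387456901 0 (.node 3 9 (.cons 0x6547839012 .nil) (.node 1 9 (.cons 0x8765432190 .nil) (.node 2 9 .nil (.node 1 4 (.cons 0x7832145690 .nil) (.node 0 3 (.cons 0x5692147830 (.cons 0x5678923014 .nil)) (.leaf 0x1456789230 1 (.leaf 0x4569210387 4 .done)) (.leaf 0x923876541 0 .done)) .done) (.node 7 9 .nil (.node 6 8 (.cons 0x7945683210 .nil) (.node 3 7 (.cons 0x5683749012 .nil) (.node 0 5 (.cons 0x3749865012 (.cons 0x8673945012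 .nil)) (.node 0 8 (.cons 0x8054967321 (.cons 0x6549738012 .nil)) (.leaf 0x3765498012 0 .done) (.leaf 0x1056894732 1 (.leaf 0x9865012374 0 .done))) (.leaf 0x945687321 1 .done)) (.leaf 0x9786543210 2 (.node 0 6 (.cons 0x7834560912 .nil) (.node 1 4 (.cons 0x7832145690 .nil) (.leaf 0x3214560978 2 (.leaf 0x5412387906 5 (.leaf 0x2387906541 4 .done))) (.leaf 0x1238794560 0 (.node 0 8 (.cons 0x9087654321 .nil) (.node 1 8 (.cons 0x5439067812 .nil) (.node 0 2 (.cons 0x3874569021 (.cons 0x8120679345 (.cons 0x7945681023 (.cons 0x7943812065 .nil)))) .done .done) .done) .done))) .done))) (.node 0 7 (.cons 0x4569078321 .nil) (.node 4 6 (.cons 0x5469078321 .nil) (.node 5 9 (.cons 0x8764593210 .nil) (.node 2 9 .nil (.node 0 5 (.cons 0x9645078321 (.cons 0x7465012983 (.cons 0x3870546921 .nil))) (.leaf 0x3987645012 1 .done) .done) .done) (.node 1 5 (.cons 0x4321567890 .nil) (.node 0 8 (.cons 0x4512396780 .nil) (.leaf 0x1234980765 1 (.leaf 0x9451238076 3 .done)) (.leaf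 0x9078321546 2 (.leaf 0x7096451238 3 .done))) .done)) (.node 5 9 .nil (.node 1 8 (.cons 0x8123490765 (.cons 0x8123495670 (.cons 0x6781234590 .nil))) .done (.node 2 9 .nil (.node 0 3 (.cons 0x8765430912 .nil) (.leaf 0x4569210387 4 (.node 1 8 (.cons 0x6590781234 (.cons 0x2918765430 .nil)) (.leaf 0x4567812903 5 .done) .done)) .done) .done)) .done)) .done)) .done)) (.node 2 6 (.cons 0x2654783901 .nil) (.node 3 5 (.cons 0x7498356210 .nil) (.node 7 9 .nil (.node 0 8 (.cons 0x9087654321 (.cons 0x8012354976 (.cons 0x7945621083 (.cons 0x7945623801 .nil)))) .done (.node 0 7 (.cons 0x4569078321 .nil) (.node 3 7 .nil (.node 0 8 (.cons 0x9087654321 (.cons 0x6210837945 .nil)) (.node 1 5 (.cons 0x4321567890 (.cons 0x9621547380 (.cons 0x6908732154 (.cons 0x5126734980 .nil)))) .done (.leaf 0x9476532108 1 .done)) .done) (.leaf 0x8947012653 0 .done)) .done)) (.node 2 4 (.cons 0x8765423901 .nil) (.node 7 9 (.cons 0x4798356210 .nil) (.node 2 9 .nil (.node 1 6 (.cons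 0x7834561290 .nil) (.leaf 0x5478329016 5 (.leaf 0x9016547832 2 (.leaf 0x923874561 4 .done))) .done) .done) (.leaf 0x1098356742 3 .done)) .done)) (.node 7 9 .nil (.node 0 8 (.cons 0x9087654321 (.cons 0x7908345621 .nil)) (.node 1 8 (.cons 0x4567810932 (.cons 0x2654793810 .nil)) (.leaf 0x4567908123 1 .done) (.node 1 7 (.cons 0x6549710832 .nil) (.leaf 0x4380971265 2 (.leaf 0x832654971 3 .done)) .done)) (.node 2 9 .nil (.node 1 6 (.cons 0x2938745610 (.cons 0x7834561290 .nil)) (.leaf 0x5478329016 5 (.leaf 0x923874561 4 .done)) (.node 1 9 (.cons 0x8765432190 .nil) (.node 5 9 .nil (.node 3 6 (.cons 0x8362109745 (.cons 0x4783659012 .nil)) (.leaf 0x4590126387 2 .done) .done) .done) .done)) .done)) (.leaf 0x7839012654 4 .done))) .done)) (.leaf 0x5478321096 1 .done)))) .done)))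
noncomputable def uc9_6_6 : T := (.node 6 9 (.cons 0x7832109654 .nil) tc9_6_22 (.node 1 9 (.cons 0x8765432190 .nil) (.node 0 8 (.cons 0x9087654321 .nil) tc9_6_21 (.node 0 8 (.cons 0x9087654321 .nil) tc9_6_20 (.node 6 9 (.cons 0x7832109654 .nil) tc9_6_19 .done))) (.leaf 0x2109456783 0 (.leaf 0x5490123876 1 (.node 4 7 (.cons 0x9012387456 .nil) tc9_6_18 .done)))))
theorem sub_c9_6_6 : root 9 refs9_6 [] 0x400000008407000600007060000000060500000000504000000004010000600010300000000302000000002018000000010 0xfeefff2fff3fff9fffcfffedffb5fff3fff9fefd 9 4 9 (.cons 0x8765490123 .nil) uc9_6_6 = true := by decide +kernel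
noncomputable def tc9_6_23 : T := (.node 1 9 (.cons 0x2387654910 .nil) (.node 1 5 (.cons 0x4321567890 .nil) (.node 0 2 (.cons 0x1567894320 .nil) (.node 4 7 (.cons 0x5674983201 .nil) (.node 2 5 (.cons 0x8947652310 .nil) (.node 3 5 (.cons 0x8947653201 .nil) (.node 0 5 (.cons 0x1328947650 .nil) (.node 2 4 (.cons 0x3249876510 .nil) (.node 2 7 (.cons 0x4983105672 .nil) (.leaf 0x3105672498 3 .done) .done) .done) .done) .done) (.leaf 0x9832015674 1 (.node 2 5 (.cons 0x2567498310 .nil) (.leaf 0x8947652013 0 .done) .done))) (.leaf 0x9876510234 2 (.leaf 0x7894320156 3 (.node 3 9 (.cons 0x8765102394 .nil) (.node 6 8 (.cons 0x7865194320 .nil) (.node 2 7 (.cons 0x3491568720 .nil) (.node 0 3 (.cons 0x7286549130 .nil) (.leaf 0x4568723019 4 (.leaf 0x5687230194 5 .done)) (.node 5 8 (.cons 0x9431586720 .nil) (.leaf 0x2094315867 1 (.leaf 0x132768549 4 .done)) .done)) (.node 1 7 (.cons 0x2345687190 .nil) (.leaf 0x9178654320 5 (.node 0 8 (.cons 0x9087654321 .nil) (.node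 6 9 (.cons 0x2349651780 .nil) (.leaf 0x3496517802 2 (.leaf 0x5178023496 5 (.leaf 0x871234569 2 .done))) (.leaf 0x2349156780 3 (.node 2 7 (.cons 0x2765134980 .nil) (.leaf 0x4315672089 4 (.leaf 0x1349802765 0 .done)) .done))) (.leaf 0x6871902345 2 .done))) .done)) .done) .done)))) (.node 3 9 .nil (.node 0 4 (.cons 0x5678904321 (.cons 0x6782154093 (.cons 0x3904567821 .nil))) (.node 0 7 (.cons 0x9834076512 (.cons 0x9382154076 (.cons 0x2839407651 (.cons 0x8213907654 .nil)))) (.node 1 4 (.cons 0x6541907823 (.cons 0x6541932870 .nil)) (.leaf 0x7823901456 1 .done) .done) (.leaf 0x9312876540 5 .done)) (.node 2 9 .nil (.node 0 4 (.cons 0x5678904321 (.cons 0x7651298340 (.cons 0x9210456783 .nil))) (.leaf 0x1293876540 2 (.node 0 7 (.cons 0x6549107832 (.cons 0x4928315670 (.cons 0x1382945670 (.cons 0x9283154076 .nil)))) .done .done)) (.node 1 8 (.cons 0x7654923810 .nil) (.node 5 9 (.cons 0x6781234590 .nil) (.node 6 9 (.cons 0x5432187690 .nil) (.node 7 9 .nil (.node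 0 2 (.cons 0x7834569120 (.cons 0x6549783201 (.cons 0x6794513820 (.cons 0x4976513820 .nil)))) .done .done) .done) .done) .done) .done)) .done)) .done)) (.node 3 9 .nil (.node 1 8 (.cons 0x2187654390 .nil) (.node 2 9 (.cons 0x7654923810 .nil) (.node 0 4 (.cons 0x5678904321 (.cons 0x3904567821 .nil)) (.node 3 7 (.cons 0x9045673281 .nil) (.leaf 0x2189045673 4 (.leaf 0x2819045673 2 .done)) (.leaf 0x9312876540 5 (.leaf 0x1293876540 1 .done))) .done) (.node 0 4 (.cons 0x5678904321 (.cons 0x3904567821 .nil)) (.node 7 9 (.cons 0x1283976540 .nil) (.node 0 8 (.cons 0x9087654321 .nil) (.node 1 5 (.cons 0x4321567890 (.cons 0x6780154932 (.cons 0x6793804512 .nil))) .done (.leaf 0x5678012394 3 (.leaf 0x4567912380 5 .done))) .done) (.leaf 0x9312876540 5 (.leaf 0x9321876540 0 .done))) .done)) (.node 3 5 .nil (.node 0 4 (.cons 0x5678904321 (.cons 0x6782190453 .nil)) (.leaf 0x3567894012 3 (.leaf 0x3567894012 2 (.node 3 6 (.cons 0x4536782190 .nil) (.leaf 0x7821904536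 0 (.leaf 0x5367821904 1 .done)) .done))) (.node 5 8 (.cons 0x6785432190 .nil) (.node 2 5 (.cons 0x6783254910 .nil) (.node 0 6 (.cons 0x4532876091 .nil) (.leaf 0x1945238760 0 (.leaf 0x7601945238 1 (.leaf 0x4321906785 1 (.leaf 0x4321906785 4 .done)))) (.node 2 9 .nil (.node 0 7 (.cons 0x4983256701 (.cons 0x1382945670 .nil)) (.leaf 0x4928310765 4 (.leaf 0x9456701382 5 (.node 0 8 (.cons 0x9087654321 (.cons 0x3456780921 .nil)) (.leaf 0x2945678013 3 .done) .done))) .done) .done)) (.node 0 6 (.cons 0x4532876091 .nil) (.leaf 0x9123458760 4 (.leaf 0x1906785432 2 (.node 2 9 (.cons 0x4538760192 .nil) (.node 4 7 (.cons 0x1928354760 .nil) (.leaf 0x6745382910 5 (.leaf 0x129387456 4 (.leaf 0x1293874560 5 .done))) .done) (.leaf 0x7854321906 5 .done)))) .done)) .done)) .done)) (.node 0 2 (.cons 0x7654913820 .nil) (.leaf 0x4567832019 3 (.leaf 0x4567832019 2 (.node 3 5 (.cons 0x6783549102 .nil) (.node 1 5 (.cons 0x4321567890 .nil) (.node 1 6 (.cons 0x5167894320 .nil)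 (.node 3 6 (.cons 0x5102367894 .nil) (.node 1 7 (.cons 0x8231765490 .nil) (.node 0 3 (.cons 0x8765430912 .nil) (.node 1 4 (.cons 0x9415678230 .nil) (.leaf 0x3287651490 3 .done) .done) .done) .done) .done) .done) (.node 3 6 (.cons 0x4536782091 .nil) (.node 2 6 (.cons 0x5491026783 .nil) (.leaf 0x1026783549 4 (.node 0 3 (.cons 0x8765430912 .nil) (.node 4 7 (.cons 0x6547821903 .nil) (.node 2 4 (.cons 0x4235678901 .nil) (.leaf 0x9103562478 2 .done) (.leaf 0x1983547620 5 (.leaf 0x912874563 1 .done))) .done) .done)) .done) .done)) (.node 1 5 (.cons 0x4321567890 .nil) (.node 1 6 .nil (.node 0 3 (.cons 0x8765194302 (.cons 0x7823094561 (.cons 0x9451678230 .nil))) (.node 1 4 (.cons 0x9032876145 .nil) (.leaf 0x8765419032 5 .done) .done) (.node 1 7 (.cons 0x8231765490 .nil) (.node 1 4 (.cons 0x9410238765 .nil) (.node 1 8 .nil (.node 2 5 (.cons 0x1943876520 (.cons 0x7816523490 .nil)) (.node 0 7 (.cons 0x4982315670 (.cons 0x4325670981 .nil)) (.leaf 0x9832567014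 2 .done) .done) .done) .done) .done) .done)) (.node 3 5 .nil (.node 0 4 (.cons 0x5678904321 (.cons 0x7653820491 (.cons 0x6782190453 (.cons 0x7653128904 .nil)))) (.leaf 0x3567894012 2 .done) (.node 1 8 (.cons 0x4356781902 .nil) (.node 1 4 (.cons 0x8765341902 .nil) (.node 5 9 (.cons 0x4387659120 .nil) (.node 0 4 (.cons 0x5678904321 .nil) (.leaf 0x2340987651 4 (.leaf 0x1204387659 2 (.node 4 7 (.cons 0x4765983210 .nil) (.leaf 0x9832104765 2 .done) (.leaf 0x3402195678 5 .done)))) (.leaf 0x6783201495 2 .done)) .done) .done) .done)) .done)) .done)))) .done))) (.node 6 8 (.cons 0x7865490132 .nil) (.node 2 7 (.cons 0x3109456872 .nil) (.leaf 0x5490132786 2 (.node 2 9 (.cons 0x7865431290 .nil) (.node 1 8 (.cons 0x7654923810 .nil) (.node 1 9 (.cons 0x2387654910 .nil) (.node 6 9 (.cons 0x5432187690 .nil) (.node 7 9 (.cons 0x2134568790 .nil) .done .done) .done) .done) (.node 0 2 (.cons 0x9456783201 .nil) (.node 7 9 (.cons 0x2134568790 .nil) (.node 0 6 (.cons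 0x1297834560 .nil) (.leaf 0x9782134560 4 (.node 1 7 (.cons 0x6549238710 .nil) (.leaf 0x6710238945 1 (.leaf 0x2831794560 3 .done)) .done)) (.leaf 0x3865497201 2 .done)) (.node 1 8 .nil (.node 0 3 (.cons 0x7865430921 (.cons 0x7654903281 .nil)) (.node 1 7 (.cons 0x6549238710 .nil) (.leaf 0x8712903456 5 (.leaf 0x8230945671 2 (.leaf 0x2903456871 4 .done))) (.leaf 0x1876549230 2 .done)) (.node 2 5 (.cons 0x7865209431 .nil) (.node 2 6 (.cons 0x5490187623 .nil) (.node 3 6 (.cons 0x9452786310 .nil) (.leaf 0x1876325490 3 (.leaf 0x7863109452 2 .done)) .done) (.node 3 7 (.cons 0x5209437681 .nil) (.leaf 0x1094523768 3 (.leaf 0x1094523768 2 .done)) .done)) .done)) .done)) .done)) (.node 1 8 .nil (.node 0 5 (.cons 0x2786509431 (.cons 0x7650981234 (.cons 0x6509432781 (.cons 0x6509431872 .nil)))) (.node 1 9 (.cons 0x8190567234 (.cons 0x6781905432 .nil)) (.node 0 2 (.cons 0x9456783201 (.cons 0x7209431865 .nil)) (.leaf 0x4567832019 2 (.leaf 0x8765432091 2 .done))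 .done) .done) (.node 1 9 (.cons 0x2387654910 .nil) (.node 0 8 (.cons 0x9087654321 .nil) (.leaf 0x9108327654 2 (.leaf 0x3801945672 5 .done)) (.node 0 2 (.cons 0x9456783201 .nil) (.leaf 0x4567832019 3 (.leaf 0x4567832019 2 (.node 3 5 (.cons 0x6783549102 .nil) (.node 4 8 (.cons 0x2765384910 .nil) (.leaf 0x1948356720 2 .done) (.node 2 6 (.cons 0x5490187623 .nil) (.leaf 0x1026783549 4 (.node 3 7 (.cons 0x4537628190 .nil) (.node 5 8 (.cons 0x2673854910 .nil) (.leaf 0x1945837620 3 .done) .done) .done)) .done)) .done))) .done)) .done)) .done))) (.node 2 7 (.cons 0x9013278654 .nil) (.node 4 7 .nil (.node 0 6 (.cons 0x5601327894 (.cons 0x8947231065 (.cons 0x5609478231 (.cons 0x5609874312 .nil)))) .done (.node 2 6 (.cons 0x9013268745 .nil) (.node 2 4 (.cons 0x9013245687 .nil) (.node 2 5 (.cons 0x9013254786 .nil) .done .done) (.node 5 8 (.cons 0x7856231094 .nil) (.leaf 0x9013265874 2 (.leaf 0x1094785623 3 .done)) .done)) (.node 2 6 (.cons 0x5621347890 .nil)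 (.node 2 5 (.cons 0x6521347890 .nil) (.node 5 8 (.cons 0x7431265890 .nil) (.node 0 5 (.cons 0x6509874312 .nil) (.leaf 0x1389472650 1 (.node 4 6 (.cons 0x5649872310 .nil) (.leaf 0x1327894650 2 .done) .done)) .done) .done) (.node 3 9 (.cons 0x6547821390 .nil) (.node 0 2 (.cons 0x9456783201 .nil) (.leaf 0x7201398654 5 (.node 1 7 (.cons 0x2865471390 .nil) (.leaf 0x8654713902 5 (.leaf 0x6820931745 4 .done)) (.leaf 0x3102745689 2 .done))) (.node 0 6 (.cons 0x5609874312 .nil) (.leaf 0x1287456093 2 (.leaf 0x8213906547 3 .done)) .done)) .done)) .done))) (.leaf 0x3109456872 3 (.node 5 8 (.cons 0x6587231094 .nil) (.node 4 6 (.cons 0x3278564901 .nil) (.node 0 5 (.cons 0x7894650132 .nil) (.node 4 7 (.cons 0x2389476501 .nil) (.leaf 0x123894765 1 (.node 2 6 (.cons 0x5621347890 .nil) (.leaf 0x1389472650 4 .done) .done)) (.leaf 0x4650132789 4 (.leaf 0x3105649872 4 .done))) (.leaf 0x9013278564 2 (.node 3 9 (.cons 0x1278564390 .nil) (.node 2 5 (.cons 0x9465278310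 .nil) (.node 0 7 (.cons 0x8564390721 .nil) (.node 0 8 (.cons 0x9087654321 .nil) (.node 1 6 (.cons 0x9431652780 .nil) (.leaf 0x7089345216 4 (.leaf 0x7016493852 4 (.leaf 0x9461072583 4 .done))) .done) (.node 4 8 (.cons 0x6584390721 .nil) (.leaf 0x2139076548 1 .done) (.leaf 0x1325649870 5 .done))) (.leaf 0x6490138725 4 .done)) (.leaf 0x2785643901 3 .done)) .done))) (.node 1 8 .nil (.node 1 5 (.cons 0x8156723490 .nil) (.node 0 2 (.cons 0x1567894320 (.cons 0x7651894320 .nil)) (.leaf 0x9876510234 2 (.leaf 0x7894320156 3 .done)) .done) (.node 0 8 (.cons 0x9087654321 .nil) (.node 4 8 .nil (.node 0 5 (.cons 0x9054321876 (.cons 0x9483276501 .nil)) (.node 1 9 (.cons 0x2387654910 (.cons 0x5672384910 (.cons 0x6509134872 .nil))) .done .done) .done) .done) .done)) .done)) .done))) .done)) (.node 5 8 (.cons 0x6785490132 .nil) (.node 2 6 (.cons 0x8762310945 .nil) (.leaf 0x4901326785 1 (.node 1 8 .nil (.node 5 7 (.cons 0x3182675490 (.cons 0x8132675490 .nil)) (.node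 0 4 (.cons 0x5678904321 (.cons 0x7562389401 (.cons 0x5762389401 (.cons 0x8904312675 .nil)))) (.leaf 0x9401326758 1 .done) (.node 0 7 (.cons 0x6231075894 (.cons 0x7094326581 (.cons 0x5490762813 .nil))) (.leaf 0x2349810756 1 (.node 0 8 (.cons 0x9087654321 .nil) (.leaf 0x2675498013 0 (.leaf 0x7623108945 4 .done)) .done)) (.leaf 0x6238109457 4 .done))) (.node 2 5 .nil (.node 0 7 (.cons 0x5490762813 (.cons 0x9452670183 (.cons 0x8134907625 (.cons 0x5267013894 (.cons 0x5267098134 .nil))))) .done (.node 1 5 (.cons 0x6782315490 .nil) (.node 4 8 (.cons 0x7651234890 .nil) (.node 0 8 (.cons 0x9087654321 .nil) (.node 6 8 (.cons 0x7682315490 .nil) .done .done) .done) .done) .done)) .done)) (.node 1 8 .nil (.node 0 5 (.cons 0x7650981234 (.cons 0x5094318762 .nil)) (.node 1 6 (.cons 0x7850943162 .nil) (.leaf 0x3216789054 2 (.leaf 0x2345098761 4 .done)) (.node 5 7 (.cons 0x1875623490 .nil) (.leaf 0x6234901875 4 (.leaf 0x2657810943 2 (.leaf 0x8756234901 5 (.node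 4 8 (.cons 0x5762318490 .nil) (.leaf 0x7623184905 0 (.leaf 0x7623184905 4 .done)) .done)))) .done)) (.node 1 5 (.cons 0x6782315490 .nil) (.node 0 2 (.cons 0x1567894320 .nil) (.node 2 5 (.cons 0x5267813490 .nil) .done (.leaf 0x9876510234 2 (.leaf 0x7894320156 3 .done))) (.node 4 8 (.cons 0x7651234890 .nil) (.node 0 8 (.cons 0x9087654321 .nil) (.node 6 8 (.cons 0x7682315490 .nil) .done .done) .done) .done)) .done)) .done))) (.node 1 8 .nil (.node 2 9 (.cons 0x6785431290 (.cons 0x7654923810 .nil)) (.node 0 6 (.cons 0x7832945601 (.cons 0x7812906543 .nil)) (.node 2 7 (.cons 0x9458310672 (.cons 0x9067218543 (.cons 0x5813490672 .nil))) (.leaf 0x3127609854 4 .done) (.leaf 0x1345876092 2 (.node 3 7 (.cons 0x6549237810 .nil) (.leaf 0x4560921873 4 (.leaf 0x1873294560 2 (.node 6 8 (.cons 0x4568732901 .nil) .done .done))) .done))) (.node 0 5 (.cons 0x6783294501 (.cons 0x7650981234 .nil)) (.node 1 6 (.cons 0x7816509432 .nil) (.leaf 0x2945016783 3 (.node 2 7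 (.cons 0x3854927610 (.cons 0x7234981650 (.cons 0x6509432781 .nil))) .done (.leaf 0x4923876105 2 .done))) (.node 1 4 (.cons 0x7650981432 .nil) (.leaf 0x7814329056 2 (.leaf 0x3290567814 5 (.leaf 0x8765092341 4 .done))) .done)) .done)) (.node 1 5 (.cons 0x6782315490 .nil) (.node 0 2 (.cons 0x1567894320 .nil) (.node 1 9 (.cons 0x2387654910 .nil) (.node 0 8 (.cons 0x9087654321 .nil) (.leaf 0x4321908765 3 (.node 4 7 (.cons 0x2347651980 .nil) (.leaf 0x3476519802 5 (.leaf 0x9832015674 1 (.leaf 0x6519802347 4 .done))) .done)) (.leaf 0x4567832019 3 .done)) (.leaf 0x9876510234 2 (.leaf 0x7894320156 3 (.node 4 8 (.cons 0x9487651023 .nil) (.node 3 9 (.cons 0x8765102394 .nil) (.leaf 0x1023948765 3 (.node 0 8 (.cons 0x9087654321 .nil) (.node 6 8 (.cons 0x7865102394 .nil) .done .done) .done)) .done) .done)))) (.node 4 8 (.cons 0x7651234890 .nil) (.node 0 8 (.cons 0x9087654321 .nil) (.node 6 8 (.cons 0x7682315490 .nil) .done .done) .done) .done)) .done)) (.node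 2 6 (.cons 0x9013267854 .nil) (.leaf 0x7623109458 1 (.leaf 0x3109458762 0 (.node 6 8 .nil (.node 2 7 (.cons 0x9013276854 .nil) (.leaf 0x3109458672 0 (.leaf 0x6723109458 1 (.node 3 5 (.cons 0x8672354901 (.cons 0x6872354901 .nil)) (.node 1 8 (.cons 0x5490186723 .nil) (.leaf 0x945326781 4 (.leaf 0x9018762354 2 .done)) .done) .done))) (.node 1 8 .nil (.node 5 7 (.cons 0x1875623490 .nil) (.leaf 0x6234901875 4 (.leaf 0x2657810943 2 (.leaf 0x8756234901 5 (.node 0 5 (.cons 0x7650981234 (.cons 0x6231875094 (.cons 0x5094318762 .nil))) (.node 1 6 (.cons 0x7890561234 .nil) (.leaf 0x3216789054 2 (.leaf 0x2345098761 4 .done)) .done) .done)))) (.node 0 8 (.cons 0x9087654321 .nil) (.node 1 9 (.cons 0x2387654910 .nil) (.leaf 0x4321908765 3 (.node 0 2 (.cons 0x9456783201 .nil) (.leaf 0x4567832019 3 (.leaf 0x4567832019 2 .done)) .done)) .done) .done)) .done)) .done))) .done))) (.leaf 0x7654901328 2 .done))))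
noncomputable def tc9_6_24 : T := (.node 1 8 .nil (.node 3 7 (.cons 0x8109456732 .nil) (.node 3 6 (.cons 0x7823654901 .nil) (.node 2 7 (.cons 0x9456723810 .nil) (.leaf 0x5490187236 2 (.leaf 0x945637281 3 (.leaf 0x945637281 2 (.leaf 0x9456327810 3 .done)))) (.leaf 0x7821094563 4 (.node 1 7 (.cons 0x6549017823 .nil) (.leaf 0x8236549017 4 (.node 6 8 (.cons 0x7328654901 .nil) (.leaf 0x5490123786 5 (.node 1 9 (.cons 0x4568732190 (.cons 0x6543782190 .nil)) (.node 0 7 (.cons 0x6549107382 (.cons 0x4568237091 .nil)) (.leaf 0x9128654370 3 .done) .done) .done)) (.leaf 0x2871094563 2 (.leaf 0x945632871 5 .done)))) .done))) (.node 3 6 (.cons 0x7823654901 .nil) (.node 2 7 (.cons 0x9456723810 .nil) (.leaf 0x945637281 0 (.leaf 0x4901827365 1 (.node 1 5 (.cons 0x8156723490 (.cons 0x6518723490 (.cons 0x7281563490 .nil))) (.node 0 2 (.cons 0x1567894320 (.cons 0x7651894320 .nil)) (.leaf 0x7894320156 3 .done) .done) (.leaf 0x4901827365 4 .done)))) (.node 2 5 (.cons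 0x8109452376 .nil) (.node 4 8 (.cons 0x5236784901 .nil) (.node 1 3 (.cons 0x7652134890 (.cons 0x7849013652 .nil)) .done .done) (.leaf 0x1876325490 3 (.leaf 0x7810945236 2 .done))) (.node 1 7 (.cons 0x6549017823 .nil) (.leaf 0x8236549017 4 (.leaf 0x2871094563 2 (.leaf 0x945632871 5 .done))) .done))) (.leaf 0x1094567328 3 (.leaf 0x1094567328 2 .done)))) (.node 0 8 (.cons 0x9087654321 .nil) (.node 4 8 .nil (.node 3 5 (.cons 0x6781094532 (.cons 0x7653210984 .nil)) (.node 1 3 (.cons 0x9087654312 (.cons 0x5678490132 .nil)) (.node 2 7 (.cons 0x6532784901 (.cons 0x9084567213 .nil)) (.node 1 9 (.cons 0x2387654910 .nil) (.leaf 0x4567219083 4 (.leaf 0x5431908276 0 .done)) (.leaf 0x6723109845 1 (.leaf 0x3109845672 0 .done))) .done) (.node 6 9 (.cons 0x5432187690 (.cons 0x7690184532 .nil)) (.node 3 7 (.cons 0x1287345690 .nil) (.leaf 0x2109845673 0 (.node 2 9 (.cons 0x3456780921 (.cons 0x5673480921 (.cons 0x6784532901 .nil))) (.node 1 3 (.cons 0x7821345690 (.cons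 0x7654809213 .nil)) (.leaf 0x876543129 2 .done) .done) .done)) (.leaf 0x4876901235 0 .done)) .done)) .done) (.node 4 8 .nil (.node 3 5 (.cons 0x6781094532 (.cons 0x7653210984 .nil)) (.node 0 5 (.cons 0x9054321876 (.cons 0x7650984321 .nil)) (.node 1 3 (.cons 0x8765490132 (.cons 0x7650984312 (.cons 0x9056784312 .nil))) .done .done) (.node 6 9 (.cons 0x5432187690 (.cons 0x7690184532 .nil)) (.node 3 7 (.cons 0x1287345690 .nil) (.leaf 0x2109845673 0 (.node 3 6 (.cons 0x7823654901 .nil) (.node 1 7 (.cons 0x6549017823 (.cons 0x5637109482 .nil)) (.leaf 0x4563287109 4 .done) .done) .done)) (.leaf 0x4876901235 0 .done)) .done)) (.node 6 8 .nil (.node 1 9 (.cons 0x2387654910 (.cons 0x7865432190 .nil)) (.node 2 7 (.cons 0x8327654910 (.cons 0x5432768091 .nil)) (.leaf 0x6549108327 4 (.leaf 0x3801945672 5 (.leaf 0x5672380194 2 .done))) (.node 0 3 (.cons 0x8765430912 (.cons 0x7865430912 .nil)) (.node 1 3 (.cons 0x8765490132 (.cons 0x7865490132 .nil)) (.node 1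 7 (.cons 0x6549017823 (.cons 0x9456823017 .nil)) .done .done) (.leaf 0x1903456782 4 (.node 1 3 (.cons 0x8765490132 (.cons 0x7865490132 .nil)) (.node 2 5 (.cons 0x7652134890 (.cons 0x7681094523 (.cons 0x7681325490 .nil))) (.leaf 0x6784309125 2 .done) .done) .done))) .done)) (.node 5 8 .nil (.node 4 7 (.cons 0x1234765890 .nil) (.leaf 0x9856743210 5 (.node 1 7 (.cons 0x6549017823 .nil) (.node 4 6 (.cons 0x5649017823 (.cons 0x7109465823 .nil)) .done (.node 3 6 (.cons 0x7823654901 .nil) (.node 0 4 (.cons 0x5678904321 (.cons 0x7658904321 (.cons 0x9856321047 (.cons 0x5890436712 .nil)))) .done (.leaf 0x9017823654 4 (.leaf 0x945632871 5 .done))) .done)) (.leaf 0x8901234765 4 .done))) .done) .done)) .done)) .done)) (.node 0 8 (.cons 0x9087654321 .nil) (.node 4 8 .nil (.node 0 2 (.cons 0x9456783201 .nil) (.node 1 7 (.cons 0x6549017823 (.cons 0x9483201765 .nil)) (.leaf 0x6710238945 1 (.leaf 0x238945671 0 .done)) (.node 1 5 (.cons 0x4321567890 (.cons 0x9487651023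 (.cons 0x7651234890 .nil))) (.node 3 5 (.cons 0x2094356781 (.cons 0x7653210984 .nil)) (.node 3 7 (.cons 0x6518734902 (.cons 0x6510948732 .nil)) (.leaf 0x2109845673 0 .done) .done) .done) .done)) .done) (.node 4 8 .nil (.node 1 5 (.cons 0x4321567890 (.cons 0x7651234890 .nil)) (.node 0 2 (.cons 0x1567894320 (.cons 0x9487651023 .nil)) (.node 1 7 (.cons 0x6549017823 (.cons 0x9483201765 .nil)) (.leaf 0x238945671 0 .done) (.leaf 0x7894320156 3 .done)) (.node 0 7 (.cons 0x9078432156 .nil) (.leaf 0x2348907651 4 (.node 6 9 (.cons 0x6945107832 (.cons 0x9670123845 (.cons 0x6907845123 .nil))) (.leaf 0x8432156907 2 .done) (.node 0 5 (.cons 0x7650984321 .nil) (.node 1 6 (.cons 0x9078216543 (.cons 0x7823490561 .nil)) (.leaf 0x3216789054 2 (.leaf 0x2345098761 4 .done)) .done) .done))) .done)) (.node 6 8 .nil (.node 1 9 (.cons 0x2387654910 (.cons 0x7865432190 .nil)) (.node 2 7 (.cons 0x8327654910 (.cons 0x5432768091 .nil)) (.leaf 0x6549108327 4 (.leaf 0x3801945672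 5 (.leaf 0x5672380194 2 .done))) (.node 5 8 (.cons 0x6785432190 .nil) (.node 0 6 (.cons 0x5491067832 .nil) (.leaf 0x9123458760 0 (.node 2 5 (.cons 0x6783254910 (.cons 0x7683254910 .nil)) (.leaf 0x7601945238 1 .done) (.leaf 0x7609123458 1 .done))) .done) .done)) (.node 5 8 .nil (.node 1 9 (.cons 0x2387654910 (.cons 0x6785432190 .nil)) (.node 2 7 (.cons 0x8327654910 (.cons 0x6723854910 (.cons 0x4327658091 .nil))) (.leaf 0x6549108327 4 (.leaf 0x5672380194 2 .done)) (.node 0 7 (.cons 0x6549107832 (.cons 0x6587091234 .nil)) (.leaf 0x9123456870 3 (.node 0 6 (.cons 0x7856091234 .nil) (.leaf 0x4321906785 3 (.node 1 7 (.cons 0x6549017823 (.cons 0x5890671234 (.cons 0x9067123485 .nil))) (.leaf 0x3217609854 4 .done) .done)) .done)) .done)) .done) .done)) .done)) .done)) .done))) (.node 3 5 (.cons 0x6782354901 .nil) (.node 4 8 (.cons 0x7653210984 .nil) (.node 1 8 .nil (.node 4 7 (.cons 0x8901235674 (.cons 0x2356749810 .nil)) (.node 6 8 (.cons 0x9018674532 .nil)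 (.node 0 2 (.cons 0x9456783201 (.cons 0x9021867435 .nil)) (.leaf 0x1894765320 0 (.node 0 5 (.cons 0x6743509812 .nil) (.leaf 0x3218905674 4 (.leaf 0x3218905674 1 .done)) .done)) (.leaf 0x2354768901 2 .done)) (.node 2 4 (.cons 0x9835674210 (.cons 0x7653249810 .nil)) (.leaf 0x1247653890 1 .done) .done)) (.node 0 8 (.cons 0x9087654321 .nil) (.node 6 8 (.cons 0x7682354901 .nil) (.node 5 8 .nil (.node 1 7 (.cons 0x1768235490 .nil) (.node 0 4 (.cons 0x5678904321 (.cons 0x9856712340 (.cons 0x6710498532 .nil))) (.leaf 0x7104982356 2 .done) (.node 2 6 (.cons 0x7628109453 (.cons 0x4985326710 (.cons 0x9458326710 (.cons 0x2671853490 .nil)))) .done (.leaf 0x2354901768 2 .done))) .done) .done) .done) .done)) (.node 4 7 (.cons 0x3567489012 .nil) (.node 1 8 (.cons 0x2356749810 .nil) (.node 0 8 (.cons 0x2356749801 .nil) (.node 6 8 (.cons 0x7682354901 .nil) (.node 5 8 .nil (.node 0 4 (.cons 0x5678904321 (.cons 0x7658904321 (.cons 0x9853210476 .nil))) (.node 1 7 (.cons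 0x9865321740 (.cons 0x9043217856 .nil)) (.leaf 0x8653217409 1 (.leaf 0x5689047123 0 .done)) .done) .done) .done) .done) .done) (.node 6 8 (.cons 0x7682354901 .nil) (.node 0 8 (.cons 0x9087654321 .nil) (.node 1 8 (.cons 0x9018674532 .nil) .done .done) (.leaf 0x2354768901 2 .done)) .done)) .done)) (.node 1 3 (.cons 0x8765490132 .nil) (.leaf 0x945678231 3 (.node 3 9 .nil (.node 1 5 (.cons 0x4321567890 (.cons 0x6782394510 (.cons 0x6782154390 .nil))) (.node 1 6 (.cons 0x5490167823 (.cons 0x5493287610 .nil)) (.node 0 5 (.cons 0x5094328761 .nil) (.leaf 0x7823945016 2 (.leaf 0x3287615094 4 .done)) (.node 0 8 (.cons 0x9087654321 (.cons 0x7809345612 (.cons 0x7615439082 .nil))) (.leaf 0x5678012394 3 .done) .done)) .done) (.node 1 9 (.cons 0x2387654910 .nil) (.node 2 9 .nil (.node 0 8 (.cons 0x9087654321 (.cons 0x3456780921 .nil)) (.leaf 0x9213456780 4 (.leaf 0x7654312908 5 .done)) (.node 6 9 .nil (.node 4 7 (.cons 0x6532109874 (.cons 0x4789653210 (.cons 0x8745321096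 (.cons 0x5476938210 .nil)))) .done (.node 5 9 .nil (.node 0 4 (.cons 0x5678904321 (.cons 0x7695401283 (.cons 0x3876954012 (.cons 0x6783129540 .nil)))) (.leaf 0x3876594012 2 .done) .done) .done)) .done)) (.node 0 3 (.cons 0x8765430912 .nil) (.leaf 0x9128765430 4 (.leaf 0x4567821903 5 .done)) .done)) .done)) (.node 4 8 (.cons 0x5678490132 .nil) (.node 3 6 (.cons 0x9012365487 .nil) (.node 1 6 (.cons 0x5490167823 .nil) (.leaf 0x4532876109 1 (.node 1 8 (.cons 0x7632810945 .nil) .done .done)) (.node 7 9 (.cons 0x2365487901 .nil) (.leaf 0x978456321 1 (.node 3 7 (.cons 0x9012378456 .nil) (.node 1 7 (.cons 0x9017845632 .nil) (.node 4 7 (.cons 0x6532109874 .nil) .done .done) .done) (.leaf 0x5487901236 0 .done))) .done)) (.node 4 6 (.cons 0x7890123564 .nil) (.node 4 7 (.cons 0x9874653210 .nil) (.node 3 7 .nil (.node 1 6 (.cons 0x5490167823 (.cons 0x8237610945 (.cons 0x6109453782 .nil))) .done (.node 3 6 .nil (.node 2 5 (.cons 0x3109487652 (.cons 0x5210984763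 .nil)) (.leaf 0x4890125367 4 (.leaf 0x3647890125 1 .done)) (.node 2 5 (.cons 0x3109487652 .nil) (.leaf 0x4890125367 4 (.node 1 6 (.cons 0x5238947610 .nil) (.node 0 5 (.cons 0x9834761250 .nil) (.leaf 0x4761250983 4 (.leaf 0x6743890521 0 .done)) .done) (.leaf 0x9847635210 0 .done))) .done)) .done)) .done) (.node 1 6 (.cons 0x5490167823 .nil) (.leaf 0x4532876109 1 (.node 3 7 (.cons 0x7356489012 .nil) (.node 2 7 (.cons 0x4356127890 .nil) (.leaf 0x4890127356 4 (.leaf 0x4890127356 1 (.leaf 0x9846537210 0 .done))) (.node 1 8 (.cons 0x9018237645 .nil) (.node 3 6 (.cons 0x7810945632 .nil) .done .done) .done)) .done)) .done)) .done)) .done))) (.node 1 6 (.cons 0x5490167823 .nil) (.leaf 0x7823549016 0 (.node 6 9 (.cons 0x4532876901 .nil) (.node 1 9 (.cons 0x2387654910 .nil) (.node 1 3 (.cons 0x5431287690 .nil) (.node 1 4 (.cons 0x4109876532 .nil) (.leaf 0x5328769014 1 (.node 0 2 (.cons 0x7834569120 .nil) (.leaf 0x6789021435 5 (.node 1 8 (.cons 0x7812096543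 .nil) .done (.leaf 0x7653412098 4 .done))) .done)) (.node 0 5 (.cons 0x3450967821 .nil) (.leaf 0x2876905431 1 (.leaf 0x2876905431 4 (.leaf 0x2876905431 0 .done))) .done)) (.node 1 3 (.cons 0x5431287690 .nil) (.node 1 4 (.cons 0x4109876532 .nil) (.leaf 0x5328769014 1 (.node 0 2 (.cons 0x5438769120 .nil) (.leaf 0x6789021435 5 (.node 1 8 (.cons 0x7812096543 .nil) .done (.leaf 0x7653412098 4 .done))) .done)) (.node 0 5 (.cons 0x2196783450 .nil) (.leaf 0x2876905431 1 (.leaf 0x2876905431 4 (.leaf 0x2876905431 0 .done))) .done)) .done)) (.node 1 4 (.cons 0x1453287690 .nil) (.node 2 4 (.cons 0x9876532410 .nil) (.node 4 7 (.cons 0x5328901674 .nil) (.node 7 9 (.cons 0x8976532410 .nil) (.node 1 7 (.cons 0x8901765324 .nil) (.node 3 7 (.cons 0x8237610945 .nil) .done .done) .done) (.node 2 9 (.cons 0x9283547610 .nil) (.leaf 0x5476109283 2 .done) .done)) (.leaf 0x8765324109 1 .done)) (.node 0 7 (.cons 0x9654123870 .nil) (.leaf 0x2145690783 3 (.leaf 0x2145690783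 2 (.leaf 0x5416907823 2 (.node 1 8 (.cons 0x9076182345 .nil) (.node 4 8 .nil (.node 2 7 (.cons 0x6532789014 (.cons 0x1487235690 (.cons 0x7235614890 .nil))) (.leaf 0x3276109845 1 .done) .done) .done) .done)))) (.leaf 0x7823541096 1 (.leaf 0x7823541096 4 .done)))) .done)) (.node 3 6 .nil (.node 4 8 (.cons 0x9012365487 .nil) (.node 0 5 (.cons 0x5094328761 (.cons 0x7650984321 (.cons 0x9056123487 (.cons 0x9054367821 .nil)))) .done (.node 3 9 (.cons 0x7639012845 (.cons 0x7845639012 (.cons 0x5487639012 .nil))) .done .done)) (.node 1 8 (.cons 0x7632810945 .nil) (.node 1 3 (.cons 0x8765490132 .nil) (.node 2 7 (.cons 0x5618723490 .nil) (.leaf 0x5490187236 2 (.node 3 7 (.cons 0x6549018732 .nil) .done (.leaf 0x9456327810 3 .done))) .done) (.node 4 8 .nil (.node 7 9 (.cons 0x4536790182 (.cons 0x2845367901 .nil)) (.leaf 0x4832109765 1 (.leaf 0x2365487901 1 .done)) (.node 0 8 (.cons 0x9087654321 .nil) (.node 5 8 (.cons 0x7632854901 .nil) (.node 6 8 .nil (.node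 1 3 (.cons 0x8765490132 (.cons 0x7865490132 .nil)) (.node 1 7 (.cons 0x1763285490 .nil) (.leaf 0x6823549017 0 .done) .done) .done) .done) .done) .done)) .done)) .done)) (.leaf 0x167823549 1 .done)))) .done))) (.node 1 3 (.cons 0x1328765490 .nil) tc9_6_23 .done)))
noncomputable def uc9_6_7 : T := tc9_6_24
theorem sub_c9_6_7 : root 9 refs9_6 [] 0x400020008407000800007060000000060500000000504000020004010000800010300000000302000000002018000000010 0xfeebfe6fff3fff9fffcfffe9fef5fff3fff9fefd 9 2 8 (.cons 0x3287654901 .nil) uc9_6_7 = true := by decide +kernel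
noncomputable def tc9_6_25 : T := (.node 1 8 .nil (.node 0 7 (.cons 0x9218345670 (.cons 0x3810765492 .nil)) (.node 4 8 (.cons 0x9238456701 .nil) (.leaf 0x3291076548 2 (.node 0 3 (.cons 0x9456783012 .nil) (.leaf 0x5678123094 2 (.node 6 9 (.cons 0x5487690123 (.cons 0x5483296701 (.cons 0x7812309654 .nil))) .done (.leaf 0x2945670381 3 (.leaf 0x2945670381 2 (.leaf 0x4567812903 3 .done))))) .done)) (.leaf 0x4381290765 1 (.leaf 0x8107654923 4 .done))) (.node 6 9 (.cons 0x7812345690 .nil) (.node 7 9 (.cons 0x6543218790 .nil) (.node 3 6 (.cons 0x4563218790 .nil) (.node 4 6 .nil (.node 0 5 (.cons 0x4501967832 (.cons 0x8321976450 (.cons 0x7890564321 (.cons 0x9105467832 .nil)))) (.leaf 0x6450192387 2 .done) (.node 5 9 .nil (.node 0 4 (.cons 0x5678904321 (.cons 0x7659832104 (.cons 0x7895640123 (.cons 0x2387695401 .nil)))) (.leaf 0x5904321876 4 .done) (.node 3 9 .nil (.node 0 4 (.cons 0x5678904321 (.cons 0x7893210465 .nil)) (.node 1 4 (.cons 0x5679832140 .nil)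 .done (.leaf 0x9781236540 1 (.leaf 0x3987654012 1 .done))) .done) .done)) .done)) (.node 0 6 (.cons 0x4560978123 .nil) (.node 5 8 (.cons 0x4583219760 .nil) (.leaf 0x9123458760 4 (.leaf 0x9123458760 1 (.leaf 0x9123458760 0 .done))) (.node 3 7 (.cons 0x8376549210 .nil) (.leaf 0x921873456 5 (.node 6 8 (.cons 0x7329018654 .nil) (.node 4 7 (.cons 0x7456923810 .nil) (.leaf 0x5473290186 1 (.leaf 0x9237456810 0 .done)) .done) .done)) .done)) .done)) .done) (.node 7 9 (.cons 0x6543218790 .nil) (.node 0 7 (.cons 0x4569078123 .nil) (.leaf 0x8123456907 3 (.node 5 9 (.cons 0x6590781234 .nil) (.node 2 6 (.cons 0x1265943870 .nil) (.node 3 9 (.cons 0x4562397810 .nil) .done (.leaf 0x5943870126 2 .done)) .done) (.node 2 6 (.cons 0x1834562970 .nil) (.leaf 0x7926543810 2 (.leaf 0x9701834562 4 .done)) .done))) .done) .done)) (.node 3 9 (.cons 0x2187654390 .nil) (.node 6 8 .nil (.node 0 7 (.cons 0x9218345670 (.cons 0x5492107683 (.cons 0x7012938654 .nil))) (.leaf 0x1078654932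 1 (.leaf 0x5687012394 0 .done)) (.node 6 9 .nil (.node 0 5 (.cons 0x7683291054 (.cons 0x2196783450 (.cons 0x4501967832 .nil))) (.leaf 0x4509678123 1 (.node 1 7 (.cons 0x6871905432 (.cons 0x4321789650 (.cons 0x2178349650 .nil))) .done .done)) (.node 0 8 (.cons 0x9087654321 .nil) (.node 1 7 (.cons 0x4568710932 .nil) (.leaf 0x2345690871 5 (.leaf 0x871234569 2 .done)) (.node 5 9 (.cons 0x6780954321 .nil) (.node 7 9 .nil (.node 0 4 (.cons 0x5678904321 (.cons 0x5401976832 (.cons 0x1238796540 (.cons 0x8329765401 .nil)))) .done .done) .done) .done)) .done)) (.node 6 9 .nil (.node 0 4 (.cons 0x5678904321 (.cons 0x9654012387 (.cons 0x9678321045 (.cons 0x5401967832 .nil)))) (.node 5 8 (.cons 0x6785432190 (.cons 0x7691045832 .nil)) (.node 3 7 (.cons 0x8376549210 (.cons 0x6901237854 (.cons 0x7385694012 .nil))) (.leaf 0x4091237685 0 .done) .done) .done) (.node 7 9 .nil (.node 0 8 (.cons 0x9087654321 (.cons 0x4567923801 .nil)) (.leaf 0x4567908123 4 (.leaf 0x4567908123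 1 .done)) (.node 5 9 .nil (.node 0 6 (.cons 0x7839456012 (.cons 0x2195438760 .nil)) (.leaf 0x9543218760 0 (.node 0 2 (.cons 0x9021876543 (.cons 0x7834956021 (.cons 0x4596783201 .nil))) .done .done)) .done) .done)) .done)) .done))) (.node 2 4 (.cons 0x7654293810 .nil) (.node 0 7 (.cons 0x9218345670 .nil) (.leaf 0x4381290765 1 (.leaf 0x1839245670 5 (.leaf 0x6542938107 4 (.leaf 0x5670183924 2 .done)))) (.node 6 9 .nil (.node 0 7 (.cons 0x9218345670 (.cons 0x5438129670 (.cons 0x5690781243 (.cons 0x2456938701 (.cons 0x9654238701 .nil))))) .done (.node 6 8 (.cons 0x7865423901 .nil) (.node 7 9 (.cons 0x3245687901 .nil) .done .done) .done)) (.leaf 0x7810932456 1 .done))) .done)) .done))) (.node 3 6 (.cons 0x7836549210 .nil) (.node 0 7 (.cons 0x6549210783 .nil) (.node 2 5 (.cons 0x5210763894 .nil) (.node 5 8 (.cons 0x1258943670 .nil) (.node 0 6 (.cons 0x7063498521 .nil) (.node 3 5 (.cons 0x7835601294 .nil) (.node 4 7 (.cons 0x2947835601 .nil) (.leaf 0x9210653874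 1 (.leaf 0x8743219065 5 .done)) .done) (.leaf 0x4321906785 1 (.leaf 0x4321906785 4 .done))) (.leaf 0x2107634985 1 (.leaf 0x9436701258 1 (.node 0 2 (.cons 0x7638549120 .nil) (.leaf 0x4583670219 3 (.node 0 6 (.cons 0x7063854921 .nil) (.leaf 0x7609123458 1 (.node 1 7 (.cons 0x6385492170 .nil) (.leaf 0x654923871 0 (.leaf 0x8710654923 1 (.leaf 0x3854921706 3 .done))) .done)) .done)) .done)))) (.node 3 9 (.cons 0x8394521076 .nil) (.node 3 7 (.cons 0x4983765210 .nil) (.node 0 3 (.cons 0x9456783012 .nil) (.node 3 5 (.cons 0x6701253894 .nil) .done .done) .done) .done) (.leaf 0x7638945210 0 .done))) (.node 0 6 (.cons 0x5607834921 .nil) (.node 3 9 (.cons 0x7839210654 .nil) (.node 3 5 (.cons 0x6538701294 .nil) (.node 0 3 (.cons 0x9456783012 .nil) (.node 3 7 (.cons 0x8734560921 .nil) .done .done) .done) .done) (.node 1 7 (.cons 0x3871065492 .nil) (.leaf 0x654923871 0 (.node 3 9 (.cons 0x4560178392 .nil) (.node 1 8 (.cons 0x4567810932 .nil) (.node 6 9 (.cons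 0x7812345690 .nil) (.node 7 9 (.cons 0x6543218790 .nil) .done .done) .done) .done) .done)) .done)) (.leaf 0x5492107836 1 (.leaf 0x9456387012 0 .done)))) (.node 0 3 (.cons 0x9456783012 .nil) (.leaf 0x1294567830 1 (.node 7 9 (.cons 0x6549783012 .nil) (.node 3 7 .nil (.node 6 8 (.cons 0x4568732901 .nil) (.leaf 0x5490123786 1 (.leaf 0x7301294568 5 (.leaf 0x4568730129 2 .done))) (.node 4 7 (.cons 0x5638749210 .nil) (.node 0 7 (.cons 0x6549210783 .nil) (.node 0 5 (.cons 0x6507834921 .nil) (.node 1 7 (.cons 0x8905671234 .nil) (.node 2 6 (.cons 0x2654978301 .nil) (.leaf 0x126738945 4 (.leaf 0x3762105498 4 (.leaf 0x1789034562 2 .done))) .done) (.leaf 0x6501294783 1 (.node 1 4 (.cons 0x7836501492 .nil) (.leaf 0x563298741 4 (.leaf 0x5014789236 2 .done)) .done))) (.leaf 0x8701294563 1 .done)) .done) .done)) (.node 1 3 .nil (.node 0 2 (.cons 0x6549783021 .nil) (.leaf 0x1345678902 2 (.node 0 8 (.cons 0x9087654321 (.cons 0x9087654312 .nil)) (.node 1 6 (.cons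 0x4561329780 (.cons 0x5497613802 .nil)) (.leaf 0x3879456120 3 .done) .done) (.leaf 0x6783120945 2 .done))) (.node 3 5 .nil (.node 2 4 (.cons 0x3567894210 (.cons 0x7653894210 .nil)) (.leaf 0x8942103567 2 (.leaf 0x9876534210 3 .done)) (.node 3 9 .nil (.node 0 4 (.cons 0x5678904321 .nil) (.node 0 5 (.cons 0x4056798321 .nil) (.node 2 4 (.cons 0x4213897650 (.cons 0x1243987650 .nil)) (.leaf 0x8976504213 3 .done) .done) (.leaf 0x1293876540 1 (.leaf 0x3987654012 1 .done))) .done) .done)) .done)) .done)) (.node 3 7 .nil (.node 0 8 (.cons 0x9087654321 (.cons 0x6543780921 .nil)) (.node 2 6 (.cons 0x9456210873 (.cons 0x9456210837 (.cons 0x3780945621 .nil))) (.leaf 0x873456219 2 .done) (.leaf 0x3765492108 1 .done)) (.node 0 7 (.cons 0x6549210783 .nil) (.node 0 2 .nil (.node 1 3 (.cons 0x5678943120 .nil) (.leaf 0x8765492013 1 (.leaf 0x294567831 1 (.leaf 0x5490213876 2 .done))) (.node 2 8 (.cons 0x9456738201 .nil) (.node 2 4 (.cons 0x5673894201 .nil) (.node 2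 5 (.cons 0x4983765201 .nil) (.node 2 6 (.cons 0x8376201945 .nil) .done .done) .done) (.leaf 0x3765491028 4 .done)) .done)) (.leaf 0x8701294563 1 .done)) .done)) (.leaf 0x8765492103 1 .done)))) (.node 1 8 (.cons 0x7810923654 .nil) (.node 4 8 (.cons 0x7845632901 .nil) (.node 1 5 (.cons 0x4321567890 .nil) (.leaf 0x4876329015 4 (.leaf 0x923678451 5 (.leaf 0x8451092367 2 .done))) (.node 5 8 (.cons 0x6785432190 .nil) (.node 0 6 (.cons 0x3458760912 .nil) (.leaf 0x9123458760 4 (.leaf 0x1906785432 2 (.node 7 9 (.cons 0x1297834560 .nil) (.leaf 0x8345601297 1 (.node 3 9 (.cons 0x7839210654 .nil) (.node 6 9 (.cons 0x7812345690 .nil) .done .done) .done)) .done))) (.node 0 4 (.cons 0x5678904321 .nil) (.node 1 4 (.cons 0x2367854190 .nil) (.node 1 7 (.cons 0x2945638710 .nil) (.leaf 0x923654871 3 (.leaf 0x6589043217 1 .done)) .done) (.leaf 0x9045876321 1 (.leaf 0x5876321904 0 .done))) .done)) .done)) (.node 3 9 (.cons 0x2187654390 .nil) (.node 3 5 .nil (.node 2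 4 (.cons 0x7810924563 (.cons 0x3567894210 (.cons 0x7653894210 (.cons 0x9018763542 .nil)))) .done (.node 1 3 .nil (.node 2 8 (.cons 0x7654938210 (.cons 0x5490136782 (.cons 0x3128765490 .nil))) .done (.node 0 3 (.cons 0x9456783012 .nil) (.node 3 7 (.cons 0x6543781290 .nil) .done .done) .done)) .done)) .done) .done)) .done))) (.node 0 3 (.cons 0x1294567830 .nil) (.leaf 0x4567830129 0 (.leaf 0x4567830129 4 (.leaf 0x4567830129 1 (.node 7 9 .nil (.node 0 4 (.cons 0x5678904321 (.cons 0x5679832104 (.cons 0x9783210456 .nil))) (.node 6 9 (.cons 0x9678321045 .nil) (.leaf 0x1238796540 0 (.node 2 5 (.cons 0x4523876910 (.cons 0x8301256794 (.cons 0x6978325401 .nil))) (.node 4 8 (.cons 0x3254876910 (.cons 0x4879652301 .nil)) (.leaf 0x1967845230 5 .done) .done) .done)) (.leaf 0x3897654012 1 .done)) (.node 6 9 .nil (.node 0 4 (.cons 0x5678904321 (.cons 0x2387965401 (.cons 0x9678321045 (.cons 0x5401967832 .nil)))) (.node 1 8 (.cons 0x1832976540 (.cons 0x7812345690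 .nil)) (.node 3 7 (.cons 0x9218376540 .nil) (.leaf 0x4092183765 1 .done) .done) .done) (.node 5 9 (.cons 0x4956783012 .nil) (.node 3 9 .nil (.node 0 4 (.cons 0x5678904321 .nil) (.leaf 0x3876540129 1 (.leaf 0x3876540129 4 (.leaf 0x3876540129 0 (.leaf 0x3987654012 1 .done)))) .done) .done) .done)) .done)) (.node 7 9 .nil (.node 0 4 (.cons 0x5678904321 (.cons 0x5679832104 (.cons 0x9783210456 .nil))) (.node 6 9 (.cons 0x9678321045 .nil) (.leaf 0x1238796540 0 (.node 5 9 (.cons 0x8321045976 .nil) (.node 6 8 (.cons 0x6879540123 .nil) (.node 1 8 (.cons 0x6543218790 .nil) (.node 0 8 (.cons 0x9087654321 .nil) (.leaf 0x4567908123 4 .done) .done) (.leaf 0x9786543210 2 (.leaf 0x4012386795 1 .done))) .done) .done)) .done) (.node 6 9 .nil (.node 2 5 (.cons 0x6783019452 (.cons 0x8769103254 .nil)) (.node 0 8 (.cons 0x9087654321 (.cons 0x7809654321 (.cons 0x7694521083 (.cons 0x7691254380 .nil)))) .done (.leaf 0x8769452103 1 .done)) (.node 5 9 .nil (.node 4 6 (.cons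 0x8764591032 (.cons 0x2387645910 .nil)) (.leaf 0x7832109546 1 .done) (.node 3 9 .nil (.node 0 4 (.cons 0x5678904321 .nil) (.leaf 0x3876540129 1 (.leaf 0x3876540129 4 (.leaf 0x3876540129 0 .done))) .done) .done)) .done)) .done)) .done))))) .done)))
noncomputable def tc9_6_26 : T := (.node 1 8 .nil (.node 0 7 (.cons 0x8709123456 (.cons 0x9218345670 (.cons 0x3810765492 .nil))) (.leaf 0x4381290765 1 (.leaf 0x8107654923 4 .done)) (.node 5 9 (.cons 0x6781234590 .nil) (.node 6 9 (.cons 0x5432187690 .nil) (.node 2 6 (.cons 0x1876234590 .nil) (.node 3 9 (.cons 0x4593267810 .nil) (.node 7 9 .nil (.node 0 4 (.cons 0x7832196540 (.cons 0x6795401832 (.cons 0x1238796540 (.cons 0x8329765401 .nil)))) (.leaf 0x7954018326 0 .done) .done) .done) (.leaf 0x7810954326 2 .done)) .done) (.node 6 9 (.cons 0x5432187690 .nil) (.node 7 9 .nil (.node 0 5 (.cons 0x2345096781 (.cons 0x8123450976 (.cons 0x6792183450 (.cons 0x6792381054 .nil)))) (.leaf 0x4321876905 2 .done) (.node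 3 9 .nil (.node 2 4 (.cons 0x7832456910 (.cons 0x5423967810 .nil)) (.leaf 0x932456781 3 (.node 0 4 (.cons 0x5678904321 .nil) (.node 2 5 (.cons 0x7652104983 (.cons 0x4523967810 .nil)) (.leaf 0x1049387652 1 .done) (.leaf 0x1293876540 5 (.leaf 0x3987654012 1 .done))) .done)) .done) .done)) .done) .done)) (.node 3 9 (.cons 0x2187654390 .nil) (.node 3 7 (.cons 0x8376549210 .nil) (.node 0 8 (.cons 0x9087654321 .nil) (.leaf 0x1294567380 3 (.node 1 3 .nil (.node 0 2 (.cons 0x9021876543 .nil) (.node 5 7 (.cons 0x6754921083 (.cons 0x6578943120 (.cons 0x6578902134 (.cons 0x6754318092 (.cons 0x6754921380 .nil))))) .done (.leaf 0x6783120945 2 .done)) (.node 3 6 (.cons 0x7638012945 .nil) (.node 1 5 (.cons 0x4321567890 .nil) (.node 6 8 (.cons 0x5129437680 .nil) (.node 0 3 (.cons 0x2156789430 .nil) (.node 3 5 (.cons 0x4921537680 .nil) .done .done) .done) .done) .done) .done)) (.node 1 7 (.cons 0x8092345671 .nil) (.leaf 0x5671083294 4 (.leaf 0x4329081765 1 .done))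 .done))) (.node 7 9 .nil (.node 0 6 (.cons 0x5493876012 (.cons 0x2197834560 (.cons 0x4560197832 .nil))) (.leaf 0x4560978123 4 (.leaf 0x1238794560 1 .done)) (.node 6 9 .nil (.node 2 4 (.cons 0x9245673810 (.cons 0x8732456910 (.cons 0x8732456901 (.cons 0x5429673810 .nil)))) .done (.node 5 9 .nil (.node 4 6 (.cons 0x8764593210 .nil) (.leaf 0x7832109546 1 (.leaf 0x5901238764 1 .done)) .done) .done)) .done)) .done)) (.node 2 4 (.cons 0x7654293810 .nil) (.node 0 7 (.cons 0x9218345670 .nil) (.leaf 0x4381290765 1 (.leaf 0x1839245670 5 (.leaf 0x6542938107 4 (.leaf 0x5670183924 2 .done)))) (.node 0 7 (.cons 0x9218345670 .nil) (.leaf 0x4381290765 1 (.node 5 9 (.cons 0x4381295670 .nil) (.node 6 9 (.cons 0x5690781243 .nil) .done .done) (.leaf 0x3924567018 4 (.node 4 8 (.cons 0x9238456701 .nil) (.leaf 0x3291076548 4 (.leaf 0x2384567019 2 .done)) .done)))) (.leaf 0x7810932456 1 .done))) .done)) .done))) (.node 3 5 (.cons 0x6783549210 .nil) (.node 0 3 (.cons 0x9456783012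 .nil) (.leaf 0x1294567830 5 (.node 1 3 .nil (.node 2 8 (.cons 0x3128765490 .nil) (.leaf 0x7654903128 1 (.leaf 0x5490132876 1 .done)) (.node 3 6 .nil (.node 2 8 (.cons 0x5678213490 (.cons 0x7821094563 (.cons 0x5490367821 .nil))) .done (.node 3 7 .nil (.node 0 8 (.cons 0x9087654321 (.cons 0x6543780912 .nil)) (.leaf 0x1294567380 5 (.leaf 0x3765492108 4 .done)) .done) .done)) .done)) (.node 3 6 .nil (.node 4 8 (.cons 0x7653210984 (.cons 0x9012365487 (.cons 0x9012367845 (.cons 0x5487632901 .nil)))) .done (.node 3 9 .nil (.node 2 8 (.cons 0x3945678210 .nil) (.leaf 0x6782103945 2 (.node 0 2 (.cons 0x7836549102 .nil) (.node 1 8 (.cons 0x7638102945 (.cons 0x2187654390 .nil)) (.leaf 0x9345678120 3 .done) .done) (.leaf 0x7654930128 4 .done))) .done) .done)) (.leaf 0x8765492103 4 .done)))) (.node 0 6 (.cons 0x5492106783 .nil) (.node 4 6 (.cons 0x7890123564 .nil) (.node 0 7 (.cons 0x5643219870 .nil) (.node 6 8 (.cons 0x7865432190 .nil) (.leaf 0x9123456870 2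 (.node 6 9 (.cons 0x6945387012 .nil) (.leaf 0x3210789645 2 .done) (.leaf 0x9123456870 3 .done))) (.leaf 0x1235649870 1 (.node 6 9 (.cons 0x2196543870 .nil) (.leaf 0x783546921 4 (.leaf 0x7835469210 5 .done)) (.leaf 0x8946532107 1 .done)))) (.node 6 9 .nil (.node 0 4 (.cons 0x5678904321 (.cons 0x9654012387 (.cons 0x9678321045 .nil))) .done (.node 6 8 (.cons 0x7865432190 .nil) (.node 7 9 (.cons 0x7921068354 .nil) (.node 4 7 (.cons 0x2974538601 .nil) (.leaf 0x683547921 4 (.node 0 4 (.cons 0x7832196540 .nil) (.node 4 8 (.cons 0x5483297601 .nil) .done .done) .done)) .done) .done) .done)) .done)) (.node 4 7 (.cons 0x9478356012 .nil) (.node 3 6 (.cons 0x8749210635 .nil) (.node 4 6 (.cons 0x9874653210 .nil) (.node 5 8 (.cons 0x7638549210 .nil) (.leaf 0x2106358749 3 (.leaf 0x647853291 5 (.node 0 3 (.cons 0x6035874921 .nil) (.leaf 0x8749123065 4 (.leaf 0x8765492103 4 .done)) .done))) .done) (.node 0 2 (.cons 0x7836549102 .nil) (.leaf 0x6320198745 2 (.leaf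 0x3654789102 4 .done)) .done)) (.node 0 3 (.cons 0x9456783012 .nil) (.node 2 5 (.cons 0x7834912560 .nil) (.leaf 0x9830125674 1 (.leaf 0x9830125674 4 (.leaf 0x3894765210 0 .done))) (.node 4 8 (.cons 0x7843219065 .nil) (.node 7 9 (.cons 0x5609784321 .nil) (.node 2 4 (.cons 0x6542387910 .nil) (.leaf 0x1978324560 0 (.leaf 0x1978324560 4 .done)) (.node 3 6 (.cons 0x1236548790 .nil) (.leaf 0x2365487901 1 (.leaf 0x5487901236 0 .done)) .done)) (.node 1 6 (.cons 0x5487610923 .nil) (.leaf 0x2354876109 1 (.node 4 6 (.cons 0x7890123564 .nil) (.node 2 7 (.cons 0x3564987210 .nil) (.leaf 0x1278946530 1 (.leaf 0x165327489 2 (.leaf 0x8946530127 0 .done))) .done) (.node 0 2 (.cons 0x7890216534 .nil) (.leaf 0x1653478902 5 (.leaf 0x8902165347 2 .done)) .done))) .done)) (.leaf 0x8765492103 4 .done))) (.leaf 0x8356012947 2 .done))) (.node 7 9 (.cons 0x2197834560 .nil) (.node 2 4 (.cons 0x6542387910 .nil) (.node 0 7 (.cons 0x9870653421 .nil) (.leaf 0x8912435607 1 (.leaf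 0x6534219870 1 .done)) (.leaf 0x9106542387 2 (.node 0 2 (.cons 0x2065438791 .nil) (.node 4 8 (.cons 0x9765483201 .nil) (.leaf 0x238456791 0 (.node 2 8 (.cons 0x7821906543 .nil) (.node 6 8 (.cons 0x7865432190 .nil) .done .done) .done)) (.leaf 0x8345602197 4 .done)) .done))) (.node 0 2 (.cons 0x4560219783 .nil) (.leaf 0x5602197834 2 (.leaf 0x6543879120 4 (.leaf 0x1978345602 5 .done))) .done)) (.leaf 0x9453876012 4 .done)))) (.node 1 8 (.cons 0x6781092354 .nil) (.node 4 8 (.cons 0x6784532901 .nil) (.node 3 6 (.cons 0x9012365487 .nil) (.node 3 9 .nil (.node 0 8 (.cons 0x9087654321 .nil) (.node 2 7 (.cons 0x8109453672 (.cons 0x6543912780 .nil)) (.leaf 0x1276549380 5 (.leaf 0x6549380127 4 .done)) (.leaf 0x5678012394 0 .done)) .done) (.node 1 6 (.cons 0x2945387610 .nil) (.leaf 0x5329016784 0 (.node 1 3 .nil (.node 2 6 (.cons 0x3549018762 (.cons 0x8762945310 (.cons 0x2678135490 .nil))) .done .done) (.leaf 0x5329016784 1 .done))) .done)) (.node 4 6 (.cons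 0x8764532901 .nil) (.node 1 6 (.cons 0x2945387610 .nil) (.leaf 0x923548761 0 (.node 3 6 (.cons 0x5487632901 .nil) (.node 1 3 .nil (.node 0 2 (.cons 0x6783549201 (.cons 0x7894653102 (.cons 0x8764920135 .nil))) (.leaf 0x1354678920 2 .done) .done) .done) (.leaf 0x7610923548 1 .done))) (.leaf 0x5329018764 4 .done)) .done)) (.node 3 9 (.cons 0x2187654390 .nil) (.node 3 6 (.cons 0x5436781290 .nil) (.node 0 3 (.cons 0x9456783012 .nil) (.leaf 0x1294567830 5 (.node 1 3 .nil (.node 2 8 (.cons 0x7654938210 (.cons 0x3128765490 .nil)) (.leaf 0x5490132876 1 .done) .done) .done)) .done) .done) .done)) .done))) (.node 0 3 (.cons 0x1294567830 .nil) (.leaf 0x4567830129 0 (.leaf 0x4567830129 4 (.leaf 0x4567830129 1 (.node 5 9 (.cons 0x4956783012 .nil) (.node 6 9 .nil (.node 0 7 (.cons 0x8709123456 (.cons 0x8321076954 (.cons 0x2196543870 (.cons 0x4569107832 .nil)))) .done (.node 7 9 .nil (.node 0 4 (.cons 0x5678904321 (.cons 0x5679832104 (.cons 0x2387965401 (.cons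 0x8321045976 (.cons 0x6540197832 .nil))))) .done (.node 3 9 .nil (.node 0 4 (.cons 0x5678904321 .nil) (.leaf 0x3876540129 1 (.leaf 0x3876540129 4 (.leaf 0x3876540129 0 (.leaf 0x3987654012 1 .done)))) .done) .done)) .done)) (.node 6 9 .nil (.node 0 7 (.cons 0x8709123456 (.cons 0x2196543870 (.cons 0x4569107832 .nil))) (.node 7 9 (.cons 0x4569783210 .nil) .done .done) (.node 3 9 .nil (.node 0 4 (.cons 0x5678904321 .nil) (.leaf 0x3876540129 1 (.leaf 0x3876540129 4 (.leaf 0x3876540129 0 (.leaf 0x3987654012 1 .done)))) (.node 7 9 .nil (.node 0 4 (.cons 0x5678904321 (.cons 0x5679832104 (.cons 0x9783210456 (.cons 0x6540197832 .nil)))) (.leaf 0x1238796540 0 .done) .done) .done)) .done)) .done)) (.node 3 9 .nil (.node 0 4 (.cons 0x5678904321 .nil) (.leaf 0x3876540129 1 (.leaf 0x3876540129 4 (.leaf 0x3876540129 0 .done))) (.node 3 6 .nil (.node 2 8 (.cons 0x7654938210 (.cons 0x7821094563 (.cons 0x5490128763 .nil))) .done (.node 3 7 .nil (.node 0 8 (.cons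 0x9087654321 (.cons 0x6543780912 .nil)) (.leaf 0x4567380129 4 (.leaf 0x4567380129 1 .done)) (.node 1 3 .nil (.node 0 8 (.cons 0x9087654321 (.cons 0x9087654312 .nil)) (.leaf 0x9456780312 0 (.leaf 0x9456780312 4 .done)) .done) .done)) .done)) (.node 3 7 .nil (.node 0 8 (.cons 0x9087654321 (.cons 0x6543780912 .nil)) (.leaf 0x4567380129 4 (.leaf 0x4567380129 1 .done)) (.node 3 6 .nil (.node 2 8 (.cons 0x7821094563 (.cons 0x5490128763 .nil)) (.leaf 0x1094563782 3 .done) (.node 1 3 .nil (.node 0 8 (.cons 0x9087654321 (.cons 0x9087654312 .nil)) (.leaf 0x9456780312 0 (.leaf 0x9456780312 4 .done)) .done) .done)) .done)) .done))) .done))))) .done)))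
noncomputable def tc9_6_27 : T := (.node 6 9 (.cons 0x7809654321 .nil) (.node 4 7 (.cons 0x7456910832 .nil) (.node 0 5 (.cons 0x8912347650 .nil) (.leaf 0x4321980567 3 (.node 4 6 .nil (.node 3 5 (.cons 0x9801235647 (.cons 0x9874653210 .nil)) (.leaf 0x2109874653 4 (.leaf 0x987645321 1 .done)) (.node 0 6 (.cons 0x7432198065 .nil) (.node 3 6 (.cons 0x7436508912 .nil) .done .done) .done)) (.leaf 0x4321980567 2 .done))) (.node 2 7 (.cons 0x7238019654 .nil) (.leaf 0x9108327456 0 (.node 4 8 .nil (.node 0 5 (.cons 0x8349127650 (.cons 0x7650984321 (.cons 0x8432765091 .nil))) (.leaf 0x2194380567 2 .done) (.node 0 5 (.cons 0x8349127650 .nil) (.leaf 0x6723849105 4 (.leaf 0x2194380567 2 (.leaf 0x7650194832 2 .done))) .done)) (.leaf 0x9108327456 1 .done))) (.node 4 8 .nil (.node 7 9 (.cons 0x6547910832 .nil) (.leaf 0x4832109765 1 (.node 0 2 (.cons 0x7691023845 (.cons 0x9102384765 .nil)) (.leaf 0x6548320197 4 (.node 0 3 (.cons 0x9456783012 (.cons 0x5679483021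 .nil)) (.leaf 0x7654830219 1 (.leaf 0x9765480321 1 .done)) .done)) .done)) (.node 0 4 (.cons 0x5678904321 .nil) (.node 5 9 (.cons 0x2389567401 .nil) (.leaf 0x8321047659 4 (.node 7 9 (.cons 0x6547910832 .nil) (.node 3 7 (.cons 0x5673894012 .nil) (.node 1 8 (.cons 0x2183765940 .nil) (.leaf 0x7659048123 1 .done) .done) .done) .done)) .done) .done)) .done))) (.node 1 7 (.cons 0x4569087123 .nil) (.leaf 0x2345690871 5 (.node 4 7 (.cons 0x7456912380 .nil) (.node 0 5 (.cons 0x8912347650 .nil) (.leaf 0x4321980567 3 (.node 1 4 (.cons 0x7809654123 .nil) (.node 0 7 (.cons 0x9654123870 .nil) (.leaf 0x2145690783 2 (.node 1 3 (.cons 0x8709654132 .nil) (.node 2 8 (.cons 0x5678213490 .nil) (.leaf 0x3128765094 4 (.leaf 0x6782134905 4 .done)) .done) .done)) .done) (.leaf 0x4321980567 2 .done))) (.node 7 9 (.cons 0x6547910832 .nil) .done .done)) (.leaf 0x871234569 2 (.leaf 0x8096543217 4 .done)))) .done)) (.leaf 0x4321908765 3 (.node 2 9 (.cons 0x3876549210 .nil)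 (.node 6 8 .nil (.node 0 7 (.cons 0x6549210783 (.cons 0x8670912345 (.cons 0x7019238654 .nil))) (.leaf 0x2345687091 2 .done) (.node 6 9 .nil (.node 0 7 (.cons 0x6549210783 (.cons 0x5438076912 (.cons 0x4569238701 .nil))) (.node 4 8 (.cons 0x8432190765 (.cons 0x5690784321 (.cons 0x5487690123 .nil))) .done .done) (.node 7 9 (.cons 0x2197654380 .nil) (.node 0 2 (.cons 0x6791208345 .nil) (.leaf 0x8345679120 0 (.node 5 9 (.cons 0x7683201954 .nil) (.node 3 9 .nil (.node 2 7 (.cons 0x9127654380 (.cons 0x4567219380 .nil)) (.leaf 0x5672108394 2 (.leaf 0x1276549380 5 .done)) .done) .done) (.leaf 0x1208345679 1 .done))) (.node 5 9 .nil (.node 0 7 (.cons 0x6549210783 (.cons 0x6708345912 (.cons 0x4380765912 .nil))) .done .done) .done)) .done)) (.node 6 9 .nil (.node 0 7 (.cons 0x6549210783 (.cons 0x5438076912 (.cons 0x4569238701 .nil))) (.node 0 2 (.cons 0x8349120765 (.cons 0x7691208345 .nil)) (.node 0 4 (.cons 0x5678904321 (.cons 0x9654012387 (.cons 0x9678321045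 (.cons 0x7832965401 .nil)))) .done .done) .done) (.node 2 8 .nil (.node 0 7 (.cons 0x4569238701 (.cons 0x8234567091 .nil)) (.leaf 0x4382190765 1 (.node 2 5 (.cons 0x8349125670 .nil) (.leaf 0x6701943825 4 (.leaf 0x6708349125 4 (.leaf 0x7652194380 2 .done))) .done)) (.node 0 2 (.cons 0x9120834567 .nil) (.node 7 9 (.cons 0x2197654380 .nil) (.leaf 0x8345679120 0 (.leaf 0x8345679120 1 .done)) (.node 5 9 (.cons 0x7659120834 .nil) (.node 7 9 (.cons 0x2197654380 .nil) (.leaf 0x1208345679 1 .done) .done) .done)) .done)) .done)) .done))) (.node 7 9 (.cons 0x2197654380 .nil) (.node 3 9 .nil (.node 2 7 (.cons 0x9127654380 (.cons 0x4567219380 .nil)) (.leaf 0x5672108394 2 (.leaf 0x1276549380 5 .done)) (.node 5 9 .nil (.node 0 7 (.cons 0x6549387012 (.cons 0x6708345912 (.cons 0x4380765912 .nil))) .done (.node 6 9 .nil (.node 0 2 (.cons 0x2083456791 (.cons 0x4569783201 .nil)) (.node 2 4 (.cons 0x8324567910 (.cons 0x7801245693 .nil)) (.leaf 0x1976542380 4 .done)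 (.leaf 0x6543802197 1 .done)) .done) .done)) .done)) (.node 0 4 (.cons 0x8321976540 .nil) (.node 0 2 (.cons 0x4567912083 .nil) (.node 0 5 (.cons 0x4056798321 .nil) (.node 2 4 (.cons 0x7650198324 .nil) (.node 4 7 (.cons 0x4765019832 .nil) (.leaf 0x9105674238 0 (.leaf 0x9105674238 4 .done)) .done) .done) (.node 0 5 (.cons 0x9438765021 .nil) (.leaf 0x2194387650 1 (.leaf 0x6783491205 1 .done)) .done)) (.leaf 0x1976540832 4 (.leaf 0x7912380456 0 (.node 2 7 (.cons 0x9127654380 .nil) (.leaf 0x6540198327 1 (.node 0 5 (.cons 0x8349127650 .nil) (.node 4 7 (.cons 0x8905674321 .nil) (.node 4 6 (.cons 0x3805467921 .nil) (.node 3 5 (.cons 0x6783549210 .nil) (.leaf 0x8354679210 5 (.leaf 0x6453801297 2 .done)) .done) (.leaf 0x123894765 4 .done)) (.leaf 0x2194380567 4 .done)) .done)) .done)))) .done)) (.node 1 3 (.cons 0x9087654312 .nil) (.leaf 0x876543129 2 (.leaf 0x7809213456 3 (.node 0 3 (.cons 0x1294567830 .nil) (.leaf 0x4567830129 0 (.leaf 0x4567830129 4 (.leaf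 0x4567830129 1 (.node 3 7 .nil (.node 2 4 (.cons 0x5673421980 (.cons 0x5673894210 .nil)) (.leaf 0x8376542910 1 (.leaf 0x8376542910 4 (.leaf 0x8376542910 0 .done))) (.node 7 9 (.cons 0x2197654380 .nil) (.node 6 9 .nil (.node 0 4 (.cons 0x5678312940 (.cons 0x5408376921 (.cons 0x2387965401 (.cons 0x9678321045 .nil)))) .done .done) .done) .done)) .done)))) .done))) .done))) (.node 4 8 .nil (.node 7 9 (.cons 0x4567910832 (.cons 0x2384567910 .nil)) (.leaf 0x4832109765 1 (.node 0 3 (.cons 0x9456783012 (.cons 0x8456790321 (.cons 0x6548790321 .nil))) (.leaf 0x9765480321 2 (.leaf 0x9765480321 3 .done)) .done)) (.node 2 8 (.cons 0x7654328091 .nil) (.node 6 9 (.cons 0x7845690123 .nil) (.node 0 4 (.cons 0x5678904321 .nil) (.node 2 4 (.cons 0x9108324567 .nil) (.node 4 6 .nil (.node 3 5 (.cons 0x3567894210 (.cons 0x7823546901 .nil)) (.node 0 7 (.cons 0x2835496701 (.cons 0x5389467012 (.cons 0x9467012835 (.cons 0x5346709821 .nil)))) .done (.leaf 0x987645321 1 .done))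 .done) .done) (.node 1 4 (.cons 0x5410967823 .nil) (.node 2 4 (.cons 0x9108324567 .nil) (.node 2 5 (.cons 0x7652341980 .nil) (.leaf 0x4019678325 4 (.leaf 0x452387691 2 (.leaf 0x3254019678 5 .done))) .done) .done) .done)) (.node 3 7 (.cons 0x1237845690 .nil) (.leaf 0x2378456901 1 (.node 2 9 (.cons 0x3876549210 .nil) (.node 5 9 (.cons 0x6590123784 .nil) (.node 7 9 (.cons 0x4567910832 .nil) (.node 0 7 (.cons 0x6549210783 .nil) (.node 3 6 (.cons 0x7836549210 .nil) (.leaf 0x5492107836 1 (.leaf 0x978456321 1 .done)) .done) .done) .done) .done) (.leaf 0x8456901237 0 .done))) .done)) (.node 5 8 .nil (.node 0 4 (.cons 0x5678904321 (.cons 0x7658904321 .nil)) (.node 0 7 (.cons 0x3821945670 (.cons 0x2194385670 .nil)) (.leaf 0x1985670432 3 .done) .done) (.node 6 8 .nil (.node 0 7 (.cons 0x3821945670 (.cons 0x3458670912 (.cons 0x7091234865 .nil))) (.node 2 9 (.cons 0x3876549210 (.cons 0x3456870921 .nil)) (.node 0 3 (.cons 0x7654912830 (.cons 0x7685430921 (.cons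 0x7685430912 .nil))) (.leaf 0x1294567830 5 (.node 4 7 (.cons 0x5674912830 (.cons 0x5476801923 (.cons 0x5867430912 (.cons 0x5476832910 .nil)))) .done .done)) .done) .done) .done) .done)) .done)) (.node 6 9 (.cons 0x5487690123 .nil) (.node 2 8 (.cons 0x7654328091 .nil) (.node 2 9 (.cons 0x3876549210 .nil) (.node 7 9 (.cons 0x4567910832 .nil) (.node 0 4 (.cons 0x8321976540 .nil) (.node 0 2 (.cons 0x7691023845 .nil) (.node 0 5 (.cons 0x6791238450 .nil) (.leaf 0x2194387650 1 (.node 0 6 (.cons 0x5483219760 .nil) .done .done)) .done) (.leaf 0x9123804567 5 .done)) .done) (.node 0 3 (.cons 0x1294567830 .nil) (.leaf 0x4567830129 0 (.leaf 0x4567830129 4 (.leaf 0x4567830129 1 (.node 7 9 (.cons 0x4567910832 .nil) (.node 0 7 (.cons 0x4567083291 .nil) (.node 0 2 (.cons 0x7028345691 .nil) (.leaf 0x7654389120 4 (.leaf 0x1983456702 5 .done)) .done) .done) .done)))) .done)) (.node 1 4 (.cons 0x7654190823 .nil) (.node 3 7 (.cons 0x9145673280 .nil) (.node 3 9 (.cons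 0x7654193280 .nil) (.node 0 7 (.cons 0x3821945670 .nil) (.leaf 0x6932870145 3 (.node 1 7 (.cons 0x8091765432 .nil) (.leaf 0x917654328 4 .done) .done)) .done) (.leaf 0x8237654190 4 (.leaf 0x5673280914 4 .done))) (.node 0 4 (.cons 0x5678904321 .nil) (.node 2 4 (.cons 0x9108324567 .nil) (.node 4 6 .nil (.node 3 5 (.cons 0x3567894210 (.cons 0x7648901235 (.cons 0x7890123564 (.cons 0x7890146532 .nil)))) .done .done) .done) .done) .done)) .done)) (.node 3 5 (.cons 0x1235487690 .nil) (.node 4 7 (.cons 0x8901235674 .nil) (.leaf 0x1235674890 3 (.node 6 8 (.cons 0x9012354867 .nil) (.node 7 9 (.cons 0x3548679012 .nil) (.leaf 0x123548679 2 .done) .done) .done)) (.leaf 0x2354876901 1 (.leaf 0x4876901235 0 .done))) .done)) .done))) .done))))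
noncomputable def uc9_6_8 : T := (.node 0 8 (.cons 0x9087654321 .nil) tc9_6_27 (.node 2 9 (.cons 0x3876549210 .nil) tc9_6_26 (.node 2 9 (.cons 0x3876549210 .nil) tc9_6_25 .done)))
theorem sub_c9_6_8 : root 9 refs9_6 [] 0x400030008407000800007060000000060500000000504000030004010000800010300000000302000000002018000000010 0xfee7fe6fff3fff9fffcfffe5fef5fff3fff9fefd 9 1 9 (.cons 0x8765432190 .nil) uc9_6_8 = true := by decide +kernel
noncomputable def tc9_6_28 : T := (.node 1 8 .nil (.node 0 2 (.cons 0x9021876543 .nil) (.node 0 3 (.cons 0x8765430912 .nil) (.leaf 0x2194567830 4 (.node 2 9 (.cons 0x3456781290 .nil) (.node 0 7 (.cons 0x9218345670 (.cons 0x2918345670 .nil)) (.leaf 0x2198345670 4 (.leaf 0x3456702918 5 .done)) (.node 0 5 (.cons 0x7650981234 (.cons 0x6781290543 (.cons 0x6783450291 .nil))) .done (.leaf 0x1876543092 2 .done))) (.leaf 0x1203876549 2 (.leaf 0x2187654903 3 (.leaf 0x5430912876 4 .done))))) (.node 0 7 (.cons 0x5670219834 (.cons 0x9183456702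 .nil)) (.leaf 0x2198345670 4 (.node 3 7 (.cons 0x6543782190 (.cons 0x6549018732 .nil)) (.node 0 6 (.cons 0x5607834912 .nil) (.leaf 0x2873456091 4 (.leaf 0x8219065437 5 .done)) .done) (.leaf 0x6702198345 5 .done))) (.leaf 0x8765432091 2 (.leaf 0x6781902345 3 .done)))) (.node 0 8 (.cons 0x9087654321 .nil) (.node 4 8 .nil (.node 7 9 (.cons 0x6549783210 .nil) (.leaf 0x4832109765 1 (.node 1 3 (.cons 0x9087654312 (.cons 0x8456790132 (.cons 0x6548790132 .nil))) (.node 3 7 (.cons 0x6543782190 .nil) (.leaf 0x2109845673 0 .done) .done) (.node 0 3 (.cons 0x8765430912 (.cons 0x2197654830 (.cons 0x6548790321 (.cons 0x5678430912 .nil)))) (.leaf 0x1903456782 4 (.leaf 0x9765481230 4 .done)) .done))) (.node 6 8 (.cons 0x7865490123 .nil) (.node 5 8 .nil (.node 0 4 (.cons 0x5678904321 (.cons 0x7658904321 .nil)) (.node 3 6 (.cons 0x5876340912 .nil) (.leaf 0x458763219 4 (.leaf 0x5409123678 0 (.leaf 0x945876321 1 .done))) .done) .done) .done) .done)) (.node 4 8 .nil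 (.node 7 9 (.cons 0x6549783210 .nil) (.leaf 0x4832109765 1 (.node 1 3 (.cons 0x8456790132 (.cons 0x6548790132 .nil)) (.leaf 0x976548231 2 (.node 3 7 (.cons 0x6543782190 .nil) (.leaf 0x2109845673 0 .done) .done)) (.node 0 3 (.cons 0x8765430912 (.cons 0x2197654830 (.cons 0x6548790321 (.cons 0x5678430912 .nil)))) (.leaf 0x1903456782 4 .done) .done))) (.node 6 8 (.cons 0x7865490123 .nil) (.node 5 8 .nil (.node 0 4 (.cons 0x5678904321 (.cons 0x7658904321 .nil)) (.node 3 6 (.cons 0x5876340912 .nil) (.leaf 0x458763219 4 (.leaf 0x5409123678 0 (.leaf 0x945876321 1 .done))) .done) .done) .done) .done)) .done)) .done)) (.node 0 3 (.cons 0x8765430912 .nil) (.node 3 6 (.cons 0x5436782190 .nil) (.node 0 5 (.cons 0x6782190543 .nil) (.node 3 5 .nil (.node 0 4 (.cons 0x5678904321 .nil) (.leaf 0x7821904536 1 (.leaf 0x5678940123 5 (.leaf 0x3567894012 4 .done))) (.node 3 7 (.cons 0x8732109456 .nil) (.node 3 9 .nil (.node 2 4 (.cons 0x4235678901 (.cons 0x6782453910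 .nil)) (.leaf 0x1245678390 1 .done) .done) .done) .done)) (.leaf 0x7821905436 0 (.leaf 0x7821905436 4 .done))) (.node 1 8 (.cons 0x7810945632 .nil) (.node 2 7 (.cons 0x2783654910 .nil) (.node 0 2 (.cons 0x5436782091 .nil) (.leaf 0x6549102783 4 (.leaf 0x6549102783 1 .done)) (.node 3 7 (.cons 0x8732109456 .nil) (.node 3 9 .nil (.node 0 4 (.cons 0x5678904321 (.cons 0x9387654012 .nil)) (.leaf 0x9321876540 0 (.leaf 0x3987654012 1 .done)) .done) .done) (.leaf 0x3654901872 3 .done))) .done) .done)) (.leaf 0x1903456782 2 (.node 1 8 .nil (.node 3 7 (.cons 0x8732109456 (.cons 0x6549018732 .nil)) (.node 3 6 (.cons 0x5436782190 (.cons 0x7810945632 .nil)) (.node 0 5 (.cons 0x6782190543 (.cons 0x7650981234 (.cons 0x6509437812 (.cons 0x7634509182 .nil)))) (.node 2 7 (.cons 0x7218905634 .nil) (.leaf 0x9054367281 1 (.leaf 0x5490187236 2 (.leaf 0x9456327810 3 .done))) .done) .done) .done) (.node 3 7 (.cons 0x8732109456 .nil) (.node 3 6 (.cons 0x5436782190 .nil)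 (.node 1 3 .nil (.node 0 8 (.cons 0x9087654321 (.cons 0x9087654312 .nil)) (.node 2 7 (.cons 0x5436728091 (.cons 0x6549087231 .nil)) (.leaf 0x4319082765 3 .done) .done) .done) (.node 2 7 (.cons 0x2783654910 .nil) (.node 0 2 (.cons 0x5436782091 .nil) (.node 0 7 (.cons 0x5670219834 .nil) (.leaf 0x6702198345 5 (.node 2 4 (.cons 0x5670243891 .nil) .done .done)) (.leaf 0x6549102783 4 (.leaf 0x6549102783 1 .done))) (.leaf 0x3654901872 3 .done)) .done)) (.node 2 6 (.cons 0x2654378190 .nil) (.leaf 0x7326549018 2 (.leaf 0x5490187326 5 (.leaf 0x3781094562 4 (.node 2 9 .nil (.node 0 4 (.cons 0x5678904321 (.cons 0x7381926540 (.cons 0x9210456783 (.cons 0x9238765401 .nil)))) .done (.node 3 9 .nil (.node 0 4 (.cons 0x7381926540 (.cons 0x2654093781 .nil)) (.leaf 0x6540937812 2 (.leaf 0x3987654012 1 .done)) .done) .done)) .done)))) .done)) .done)) (.leaf 0x9128765430 4 (.leaf 0x4567821903 5 .done))))) (.node 6 8 (.cons 0x7865490123 .nil) (.node 0 6 (.cons 0x9456012387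 .nil) (.node 3 7 (.cons 0x7382194560 .nil) (.node 5 8 (.cons 0x8543760912 .nil) (.node 2 7 (.cons 0x9068543721 .nil) (.leaf 0x5437219068 3 (.node 0 7 (.cons 0x7065491283 .nil) (.leaf 0x6583491270 5 (.leaf 0x4912837065 2 .done)) .done)) (.node 4 8 (.cons 0x5482190673 .nil) (.node 3 5 (.cons 0x7354906821 .nil) (.leaf 0x9128453760 3 (.node 2 6 (.cons 0x6237854901 .nil) (.leaf 0x7862109453 4 (.node 0 5 (.cons 0x7834912650 .nil) (.leaf 0x2678435091 1 .done) .done)) .done)) .done) .done)) (.node 3 6 .nil (.node 0 4 (.cons 0x5678904321 (.cons 0x5409128763 .nil)) (.leaf 0x2873654091 4 (.leaf 0x8219045637 5 .done)) (.node 4 6 (.cons 0x8732109465 .nil) (.node 0 5 (.cons 0x3782194650 .nil) (.leaf 0x2105649873 4 (.leaf 0x4650123789 4 (.node 5 8 (.cons 0x9465873210 .nil) (.node 0 8 (.cons 0x9087654321 .nil) (.node 1 8 (.cons 0x7810945632 .nil) .done .done) .done) .done))) .done) .done)) (.node 0 7 (.cons 0x2837065491 .nil) (.leaf 0x4912837065 4 (.leaf 0x9128370654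 5 (.node 3 6 (.cons 0x3654907821 .nil) (.node 2 6 (.cons 0x8732654901 .nil) (.node 0 3 (.cons 0x1945628730 .nil) (.leaf 0x5628730194 2 (.node 1 6 (.cons 0x5491628730 .nil) .done .done)) .done) .done) .done))) .done))) (.node 1 8 (.cons 0x7812349065 .nil) (.node 5 8 (.cons 0x7856094321 .nil) (.node 0 8 (.cons 0x9087654321 .nil) (.node 4 8 .nil (.node 3 5 (.cons 0x7653210984 (.cons 0x7843560912 .nil)) (.node 0 4 (.cons 0x5678904321 .nil) (.node 2 4 (.cons 0x2435876091 .nil) (.leaf 0x6785342190 2 .done) (.leaf 0x5678940123 5 (.leaf 0x3567894012 4 .done))) .done) .done) .done) .done) (.node 5 9 (.cons 0x6781234590 .nil) (.node 4 8 .nil (.node 0 7 (.cons 0x3459076812 (.cons 0x9548321076 .nil)) (.leaf 0x8495670123 5 (.leaf 0x3849567012 4 .done)) (.node 0 8 (.cons 0x9087654321 .nil) (.node 5 8 (.cons 0x7856094321 .nil) .done .done) .done)) (.leaf 0x7812345906 2 (.node 4 8 .nil (.node 3 7 (.cons 0x3786549012 .nil) (.leaf 0x2109845673 0 (.leaf 0x4873210659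 2 (.leaf 0x8495601237 4 .done))) (.node 0 8 (.cons 0x9087654321 .nil) (.node 5 8 (.cons 0x7856094321 .nil) .done .done) .done)) .done))) .done)) (.node 2 9 (.cons 0x7832945601 .nil) (.node 1 7 (.cons 0x9456017832 .nil) (.node 0 8 (.cons 0x9087654321 .nil) (.node 6 9 (.cons 0x9654321780 .nil) (.leaf 0x2345690871 5 .done) (.node 1 5 (.cons 0x2349871560 .nil) (.node 2 7 (.cons 0x8943271560 .nil) (.leaf 0x4380672915 4 (.leaf 0x1723498065 1 .done)) (.leaf 0x892345176 1 .done)) .done)) (.leaf 0x4560178329 5 (.node 1 5 (.cons 0x4321567890 .nil) (.node 0 8 (.cons 0x9087654321 .nil) (.node 6 9 (.cons 0x7809654321 .nil) (.leaf 0x871234569 2 .done) (.node 3 7 (.cons 0x7386549210 .nil) (.leaf 0x4512908673 5 (.leaf 0x8673451290 2 .done)) .done)) (.leaf 0x6094328715 0 (.leaf 0x7156094328 1 .done))) .done))) (.node 1 7 (.cons 0x9456017832 .nil) (.node 3 9 (.cons 0x1782394560 .nil) (.leaf 0x6549328710 3 (.node 1 4 (.cons 0x1456782390 .nil) (.node 1 5 (.cons 0x2349871560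 .nil) (.node 2 4 (.cons 0x2456783910 .nil) (.node 4 6 (.cons 0x7893246510 .nil) .done .done) .done) (.leaf 0x7823901456 1 .done)) .done)) (.node 1 8 (.cons 0x5432906781 .nil) (.node 2 7 (.cons 0x9065432781 .nil) (.node 2 4 (.cons 0x5429106783 .nil) (.node 2 5 (.cons 0x5243891760 .nil) (.node 6 9 (.cons 0x2543871960 .nil) (.leaf 0x3871069452 1 (.leaf 0x7832549601 0 .done)) .done) .done) (.leaf 0x6091872345 2 .done)) .done) (.leaf 0x3871065492 2 .done))) .done)) .done))) (.node 0 6 (.cons 0x9456012387 .nil) (.node 3 6 .nil (.node 0 4 (.cons 0x5678904321 (.cons 0x5409128763 .nil)) (.node 3 7 (.cons 0x7382194560 .nil) (.node 4 8 (.cons 0x5482190673 (.cons 0x9012367845 .nil)) .done (.leaf 0x2873654091 4 (.leaf 0x5637821904 4 .done))) (.node 1 5 (.cons 0x4321567890 (.cons 0x7894015632 .nil)) (.leaf 0x9876512340 5 (.leaf 0x8904321567 4 .done)) .done)) (.node 3 7 (.cons 0x7382194560 .nil) (.node 5 8 (.cons 0x8543760912 .nil) (.node 1 6 (.cons 0x5490168732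 .nil) (.node 2 6 .nil (.node 0 5 (.cons 0x7894321650 (.cons 0x3782619450 .nil)) (.leaf 0x7326105498 1 .done) .done) .done) (.leaf 0x7609128543 3 .done)) (.node 2 6 (.cons 0x8732654901 .nil) (.node 0 3 (.cons 0x1945628730 .nil) (.leaf 0x5628730194 2 (.node 1 6 (.cons 0x5491628730 .nil) .done .done)) .done) .done)) .done)) (.node 3 6 .nil (.node 1 7 (.cons 0x8712349065 (.cons 0x5490178632 .nil)) (.node 0 2 (.cons 0x9456871023 .nil) (.leaf 0x6320178945 4 (.node 5 7 (.cons 0x2194387560 (.cons 0x4365789021 .nil)) (.leaf 0x3875602194 2 (.leaf 0x6578349120 5 .done)) (.leaf 0x7102365498 4 .done))) (.leaf 0x3654901782 2 .done)) (.node 6 9 .nil (.node 1 8 (.cons 0x7812349065 (.cons 0x7812345690 (.cons 0x5432187690 .nil))) .done (.node 7 9 (.cons 0x6549783210 .nil) (.node 2 6 .nil (.node 0 3 (.cons 0x8765430912 (.cons 0x8762190345 (.cons 0x7830194562 .nil))) (.leaf 0x2103879456 2 .done) (.node 1 6 .nil (.node 0 5 (.cons 0x3268794501 (.cons 0x7945016832 (.cons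 0x2345097861 (.cons 0x6105497832 .nil)))) (.leaf 0x1678905432 3 .done) .done) .done)) (.node 1 6 (.cons 0x2387945610 .nil) (.node 2 6 .nil (.node 0 7 (.cons 0x5612349870 (.cons 0x9456210783 .nil)) (.node 0 5 (.cons 0x7894321650 (.cons 0x5076219834 (.cons 0x3870549621 (.cons 0x5078943261 .nil)))) (.leaf 0x2198345076 4 .done) .done) .done) .done) .done)) .done)) .done)) (.node 7 9 (.cons 0x6549783210 .nil) (.leaf 0x8794560123 5 (.leaf 0x5497832106 2 (.node 6 9 .nil (.node 1 8 (.cons 0x7812345690 (.cons 0x5432187690 .nil)) (.node 0 2 (.cons 0x3879456021 (.cons 0x7945602183 (.cons 0x7834569120 (.cons 0x5438769120 .nil)))) (.leaf 0x6781902345 3 .done) .done) (.node 5 9 .nil (.node 0 4 (.cons 0x5678904321 (.cons 0x7659832104 (.cons 0x9540123876 .nil))) (.leaf 0x3876594012 4 .done) (.node 3 9 (.cons 0x7839456012 .nil) (.node 2 9 .nil (.node 0 3 (.cons 0x8765430912 (.cons 0x4560387921 (.cons 0x4567830192 .nil))) (.leaf 0x1294567830 4 (.node 1 8 (.cons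 0x5439067812 (.cons 0x7812906543 .nil)) (.leaf 0x9218765430 4 .done) .done)) .done) .done) .done)) .done)) .done))) .done))) .done)) .done)))
noncomputable def tc9_6_29 : T := (.node 6 9 (.cons 0x7809654321 .nil) (.node 6 8 (.cons 0x7865490123 .nil) (.node 0 6 (.cons 0x9456012387 .nil) (.node 3 6 .nil (.node 4 7 (.cons 0x7498321065 .nil) (.node 0 5 (.cons 0x8912347650 (.cons 0x7436508912 .nil)) (.leaf 0x4321980567 2 .done) (.leaf 0x3219087456 4 (.leaf 0x123654789 2 (.node 2 9 (.cons 0x9236547801 .nil) (.leaf 0x5478019236 4 (.leaf 0x4780192365 5 (.node 7 9 (.cons 0x6549783210 .nil) (.leaf 0x1236549780 3 .done) .done))) .done)))) (.node 3 7 (.cons 0x2378654901 .nil) (.node 1 6 (.cons 0x5437809612 .nil) (.node 4 6 .nil (.node 2 5 (.cons 0x9452378610 (.cons 0x9645210873 (.cons 0x9645210837 (.cons 0x3780964521 .nil)))) (.leaf 0x8732549016 0 .done) .done) .done) (.node 4 6 .nil (.node 5 7 (.cons 0x8756321094 (.cons 0x7564321980 .nil)) (.leaf 0x9875643210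 2 (.leaf 0x2190875643 5 .done)) (.node 1 6 .nil (.node 0 5 (.cons 0x2378946501 .nil) (.leaf 0x1678905432 3 (.leaf 0x7612345098 2 .done)) .done) .done)) .done)) .done)) (.node 1 8 (.cons 0x7812349065 .nil) (.node 5 9 (.cons 0x6781234590 .nil) (.leaf 0x7812345906 2 (.node 5 8 (.cons 0x7856094321 .nil) (.node 4 8 .nil (.node 3 7 (.cons 0x2378654901 (.cons 0x5843760912 .nil)) (.leaf 0x4873210659 2 (.leaf 0x8495601237 4 .done)) .done) .done) .done)) (.node 5 8 (.cons 0x7856094321 .nil) (.node 5 9 (.cons 0x7832106594 .nil) (.node 3 9 (.cons 0x2187654390 .nil) (.node 2 9 (.cons 0x3456781290 .nil) (.node 7 9 (.cons 0x6549783210 .nil) .done .done) .done) .done) .done) .done)) .done)) (.node 2 8 .nil (.node 1 3 (.cons 0x7809654312 (.cons 0x7821345690 (.cons 0x5431287690 .nil))) (.leaf 0x8231094567 2 .done) (.node 1 8 .nil (.node 0 7 (.cons 0x5438219670 (.cons 0x8190765432 .nil)) (.leaf 0x8123456907 2 (.leaf 0x9182345670 2 (.node 0 6 (.cons 0x9456012387 (.cons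 0x7812349065 (.cons 0x7609182345 .nil))) (.node 2 7 (.cons 0x3865491270 (.cons 0x5607218943 (.cons 0x9438127065 (.cons 0x9456072183 .nil)))) .done .done) .done))) (.node 2 9 (.cons 0x3456781290 .nil) (.node 5 9 .nil (.node 0 4 (.cons 0x5678904321 (.cons 0x7695401283 (.cons 0x7683219540 .nil))) (.leaf 0x8765940123 5 (.leaf 0x3876594012 4 .done)) (.node 3 9 (.cons 0x2187654390 .nil) (.node 7 9 (.cons 0x6549783210 .nil) .done .done) .done)) .done) .done)) .done)) .done)) (.node 3 9 .nil (.node 2 9 (.cons 0x4567839210 .nil) (.node 2 4 (.cons 0x9387654210 .nil) (.node 0 7 (.cons 0x5694238701 (.cons 0x6549387012 (.cons 0x5670198324 .nil))) (.leaf 0x6542387019 2 (.leaf 0x1983245670 1 .done)) (.node 1 8 (.cons 0x5423967810 (.cons 0x2187654390 .nil)) (.leaf 0x7654239018 3 .done) (.leaf 0x1245678390 1 .done))) (.node 0 4 (.cons 0x5678904321 (.cons 0x1293876540 .nil)) (.leaf 0x3876540129 1 (.leaf 0x3876540129 0 (.leaf 0x3987654012 1 .done))) .done)) (.node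 2 9 .nil (.node 1 8 (.cons 0x3456781290 .nil) (.node 0 6 (.cons 0x9456012387 (.cons 0x7812349065 (.cons 0x5439067812 .nil))) (.node 7 9 (.cons 0x6549783210 .nil) (.leaf 0x5432187906 2 (.leaf 0x1234567908 2 .done)) .done) (.node 0 3 (.cons 0x8765430921 .nil) (.leaf 0x8301294567 5 (.leaf 0x1294567830 4 (.leaf 0x9218765430 4 (.leaf 0x4567812903 5 .done)))) .done)) (.node 7 9 (.cons 0x6549783210 .nil) (.node 5 9 .nil (.node 0 4 (.cons 0x5678904321 (.cons 0x7659832104 (.cons 0x2387695401 (.cons 0x6783954012 .nil)))) (.leaf 0x3876594012 4 .done) .done) .done) .done)) .done)) (.node 1 7 (.cons 0x4569087123 .nil) (.leaf 0x2345690871 5 (.node 7 9 (.cons 0x6549783210 .nil) (.node 5 9 .nil (.node 0 4 (.cons 0x5678904321 (.cons 0x8321769540 (.cons 0x1238769540 .nil))) (.leaf 0x8765940123 5 (.leaf 0x3876594012 4 .done)) (.node 2 9 .nil (.node 0 4 (.cons 0x5678904321 (.cons 0x8329540176 (.cons 0x6783295401 (.cons 0x9210456783 (.cons 0x9238765401 .nil))))) .done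 (.node 3 9 .nil (.node 0 4 (.cons 0x6783295401 (.cons 0x8397654012 (.cons 0x9387654012 .nil))) (.node 1 6 (.cons 0x4592387610 (.cons 0x2165439780 (.cons 0x7809345612 .nil))) (.leaf 0x7832954016 3 .done) (.leaf 0x3987654012 1 .done)) .done) .done)) .done)) (.node 2 4 (.cons 0x8324567910 .nil) (.leaf 0x5679108324 1 (.node 1 8 (.cons 0x9765423810 .nil) (.node 2 9 (.cons 0x3456781290 .nil) (.node 3 9 (.cons 0x2456793810 .nil) .done .done) .done) (.leaf 0x3801976542 1 .done))) .done)) (.leaf 0x871234569 2 (.leaf 0x8096543217 4 .done)))) .done))) (.leaf 0x4321908765 3 (.node 2 9 (.cons 0x3456780921 .nil) (.node 3 9 .nil (.node 2 4 (.cons 0x9380124567 .nil) (.node 3 5 (.cons 0x4235678901 .nil) (.leaf 0x9876534210 5 (.leaf 0x8901243567 4 .done)) (.node 0 5 (.cons 0x7650891243 (.cons 0x7650893421 (.cons 0x4239876501 .nil))) (.leaf 0x8934210567 4 .done) .done)) (.node 3 6 (.cons 0x5436780921 .nil) (.node 2 7 (.cons 0x9127654380 .nil) (.node 4 8 (.cons 0x8456723910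 .nil) (.leaf 0x7239108456 1 (.node 3 5 (.cons 0x4356721980 .nil) (.node 0 3 (.cons 0x5672198034 .nil) (.leaf 0x1032765489 1 (.node 3 7 (.cons 0x5637210894 .nil) (.leaf 0x2108945637 0 .done) .done)) .done) .done)) (.node 7 9 (.cons 0x6549783210 .nil) (.leaf 0x6380127945 2 (.leaf 0x8365497210 3 .done)) (.leaf 0x1276543809 1 .done))) (.node 1 5 (.cons 0x4321567890 .nil) (.leaf 0x7809215436 4 (.node 1 3 (.cons 0x9087654312 .nil) (.node 1 8 (.cons 0x4567810932 .nil) .done .done) (.leaf 0x7809215436 1 .done))) .done)) .done)) (.node 1 3 (.cons 0x9087654312 .nil) (.leaf 0x876543129 2 (.leaf 0x7809213456 3 (.node 3 7 (.cons 0x8732109456 .nil) (.node 3 9 .nil (.node 0 4 (.cons 0x5678904321 (.cons 0x7654083921 .nil)) (.leaf 0x3876540129 0 (.leaf 0x3987654012 1 .done)) (.node 7 9 (.cons 0x6549783210 .nil) (.node 5 9 .nil (.node 0 4 (.cons 0x5678904321 (.cons 0x6738045921 (.cons 0x9540123876 .nil))) (.leaf 0x3876594012 4 .done) .done) .done) .done)) (.node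 1 8 (.cons 0x6549018732 .nil) (.node 2 6 (.cons 0x8732654901 .nil) (.leaf 0x7326549018 2 (.leaf 0x5490187326 5 (.leaf 0x3781094562 4 .done))) (.node 4 8 .nil (.node 0 7 (.cons 0x8432190765 .nil) (.leaf 0x3845670192 1 (.leaf 0x3845670192 0 .done)) (.node 0 7 (.cons 0x1923845670 .nil) (.leaf 0x3845670192 0 (.leaf 0x3845670192 4 .done)) .done)) .done)) .done)) .done))) .done)) (.node 6 8 (.cons 0x7865490123 .nil) (.node 4 8 .nil (.node 2 7 (.cons 0x9108327654 (.cons 0x9108456723 (.cons 0x5672348091 (.cons 0x3276548091 .nil)))) (.node 0 7 (.cons 0x8432190765 .nil) (.node 1 6 (.cons 0x8091672345 (.cons 0x5612349870 (.cons 0x8709432165 .nil))) .done (.node 5 8 (.cons 0x3458672190 .nil) (.leaf 0x4321907658 1 (.leaf 0x6709123485 1 .done)) .done)) .done) (.node 0 4 (.cons 0x5678904321 .nil) (.node 0 6 (.cons 0x9456012387 .nil) (.node 2 4 (.cons 0x9108324567 .nil) (.node 1 8 (.cons 0x7812349065 .nil) (.node 2 8 (.cons 0x7654328091 .nil) (.node 5 8 (.cons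 0x7658904321 .nil) .done .done) .done) .done) .done) (.node 3 9 (.cons 0x9387654012 .nil) (.node 2 9 (.cons 0x9210456783 .nil) (.leaf 0x4567839210 1 .done) (.node 1 4 (.cons 0x8765410932 .nil) (.node 1 6 (.cons 0x5487610932 .nil) (.node 0 6 (.cons 0x9456012387 .nil) (.node 3 6 (.cons 0x9012367845 .nil) .done .done) .done) .done) .done)) .done)) .done)) (.node 2 8 (.cons 0x7654328091 .nil) (.node 5 8 .nil (.node 0 4 (.cons 0x5678904321 (.cons 0x7658904321 (.cons 0x7685409123 .nil))) (.node 0 7 (.cons 0x5670438912 (.cons 0x4586709123 (.cons 0x6587094321 .nil))) .done .done) (.node 4 8 .nil (.node 0 7 (.cons 0x5486709123 (.cons 0x3485670912 .nil)) (.leaf 0x1907658432 2 (.node 0 2 (.cons 0x7021945683 .nil) (.leaf 0x7654389120 4 (.leaf 0x1983456702 5 (.node 3 9 (.cons 0x6543907821 .nil) (.leaf 0x2193485670 2 (.leaf 0x8456702193 1 .done)) .done))) .done)) (.node 1 8 .nil (.node 0 5 (.cons 0x7684509123 (.cons 0x7650981234 .nil)) (.node 4 7 (.cons 0x6509874321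 .nil) (.node 3 9 (.cons 0x6501239874 (.cons 0x4567810932 .nil)) (.node 0 2 (.cons 0x3476589120 (.cons 0x9180234765 .nil)) (.leaf 0x8674502391 5 (.leaf 0x1867450239 4 .done)) .done) (.leaf 0x9812347650 0 (.leaf 0x9812347650 4 .done))) .done) .done) .done)) .done)) (.node 4 8 .nil (.node 2 7 (.cons 0x9108327654 (.cons 0x9108456723 (.cons 0x5672348091 (.cons 0x3276548091 .nil)))) .done (.node 5 8 .nil (.node 0 4 (.cons 0x5678904321 (.cons 0x7658904321 (.cons 0x7685409123 .nil))) .done (.node 1 8 .nil (.node 2 9 (.cons 0x7654329180 .nil) (.node 1 7 (.cons 0x2917654380 .nil) (.leaf 0x2380176549 5 (.leaf 0x4329081765 4 (.leaf 0x3290817654 5 .done))) (.node 0 3 (.cons 0x7865490321 (.cons 0x7654812903 .nil)) (.leaf 0x1876543092 2 (.leaf 0x7812903456 3 (.leaf 0x2187654903 3 .done))) .done)) .done) .done)) .done)) .done)) .done)) .done))))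
noncomputable def uc9_6_9 : T := (.node 0 8 (.cons 0x9087654321 .nil) tc9_6_29 (.node 2 9 .nil (.node 1 8 (.cons 0x3456781290 .nil) (.node 3 9 (.cons 0x4567810932 .nil) (.node 4 8 (.cons 0x7654839210 (.cons 0x7654810932 .nil)) (.node 0 4 (.cons 0x5678904321 (.cons 0x9210456783 (.cons 0x9238765401 .nil))) (.node 0 6 (.cons 0x8760912345 (.cons 0x7812349065 (.cons 0x7601293845 (.cons 0x7832945601 .nil)))) .done .done) .done) .done) (.leaf 0x5432901876 1 .done)) (.node 3 9 .nil (.node 1 8 (.cons 0x2187654390 .nil) (.node 0 7 (.cons 0x9218345670 (.cons 0x9238107654 .nil)) (.leaf 0x3294567018 4 (.leaf 0x4381290765 1 (.node 4 8 (.cons 0x7654839210 (.cons 0x5670923481 .nil)) (.node 0 4 (.cons 0x5678904321 (.cons 0x9387654012 (.cons 0x9238104567 .nil))) (.node 3 7 (.cons 0x6549018732 .nil) (.leaf 0x2189045673 4 .done) .done) .done) .done))) (.node 0 4 (.cons 0x5678904321 (.cons 0x9387654012 .nil)) (.node 4 7 (.cons 0x9832104765 (.cons 0x8932104765 (.cons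 0x6547810932 .nil))) (.node 0 6 (.cons 0x8760912345 (.cons 0x7839456012 .nil)) (.node 2 6 (.cons 0x7839456210 .nil) (.leaf 0x8109326547 0 (.leaf 0x8109326547 4 (.leaf 0x8109326547 1 .done))) (.leaf 0x8123906547 1 .done)) (.node 0 6 (.cons 0x8760912345 (.cons 0x5609347812 (.cons 0x7839456012 (.cons 0x7456018392 .nil)))) .done .done)) (.leaf 0x9321876540 0 (.leaf 0x3987654012 1 .done))) .done)) (.node 2 4 (.cons 0x8765423901 .nil) (.node 1 8 (.cons 0x9324567810 .nil) (.node 7 9 (.cons 0x6549783210 .nil) (.node 6 9 (.cons 0x7812345690 .nil) (.node 5 9 .nil (.node 0 4 (.cons 0x5678932401 (.cons 0x7659832104 (.cons 0x1238769540 .nil))) (.leaf 0x8765940123 5 (.leaf 0x3876594012 4 .done)) .done) .done) (.node 6 9 (.cons 0x7812345690 .nil) (.node 5 9 .nil (.node 0 4 (.cons 0x5678932401 (.cons 0x7659832104 (.cons 0x3876954012 .nil))) (.leaf 0x8765940123 5 (.leaf 0x3876594012 4 .done)) .done) .done) .done)) (.node 0 7 (.cons 0x9218345670 .nil) (.leaf 0x4381290765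 1 (.leaf 0x1839245670 5 (.leaf 0x6542938107 4 (.leaf 0x5670183924 2 .done)))) .done)) (.node 1 8 (.cons 0x4567810932 .nil) (.leaf 0x932456781 0 (.leaf 0x7810932456 1 .done)) .done)) .done)) (.node 7 9 (.cons 0x6549783210 .nil) (.node 3 9 .nil (.node 0 4 (.cons 0x5678904321 (.cons 0x8397654012 (.cons 0x1293876540 .nil))) (.leaf 0x3876540129 0 (.leaf 0x3987654012 1 .done)) (.node 5 9 .nil (.node 0 4 (.cons 0x5678904321 (.cons 0x7659832104 (.cons 0x9540123876 .nil))) (.leaf 0x8765940123 5 (.leaf 0x3876594012 4 .done)) (.node 6 9 .nil (.node 1 8 (.cons 0x7812345690 .nil) (.node 0 2 (.cons 0x6783201954 (.cons 0x9765438120 (.cons 0x4596783201 (.cons 0x4320956781 .nil)))) (.leaf 0x5438120976 2 .done) (.node 0 2 (.cons 0x9021876543 (.cons 0x7812096543 (.cons 0x4596783201 .nil))) (.node 0 4 (.cons 0x5679834021 (.cons 0x2387695401 (.cons 0x5401967832 .nil))) (.node 5 7 (.cons 0x7569834021 .nil) (.leaf 0x4381209675 1 (.leaf 0x6940123875 4 (.leaf 0x6902183457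 1 .done))) .done) (.node 3 5 (.cons 0x9021876534 (.cons 0x7812096534 .nil)) .done .done)) .done)) .done) .done)) (.node 5 9 .nil (.node 0 4 (.cons 0x5678904321 (.cons 0x7659832104 (.cons 0x9540123876 .nil))) (.leaf 0x8765940123 5 (.leaf 0x3876594012 4 .done)) (.node 6 9 .nil (.node 1 8 (.cons 0x4567810932 (.cons 0x7812345690 .nil)) (.node 0 2 (.cons 0x2093456781 (.cons 0x7812096543 (.cons 0x7695438120 .nil))) (.leaf 0x6543902187 3 (.node 0 7 (.cons 0x9567021834 (.cons 0x2183459670 .nil)) (.leaf 0x8349567021 4 .done) .done)) .done) .done) .done)) .done))) (.node 3 9 .nil (.node 0 4 (.cons 0x5678904321 (.cons 0x1293876540 .nil)) (.leaf 0x3876540129 1 (.leaf 0x3876540129 0 (.leaf 0x3987654012 1 .done))) (.node 5 9 .nil (.node 0 4 (.cons 0x5678904321 (.cons 0x7659832104 (.cons 0x9540123876 .nil))) (.leaf 0x8765940123 5 (.leaf 0x3876594012 4 .done)) (.node 6 9 .nil (.node 0 4 (.cons 0x5678904321 (.cons 0x3876954012 (.cons 0x5401967832 .nil))) (.node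 2 4 (.cons 0x5679832401 (.cons 0x3876954210 .nil)) (.node 4 7 (.cons 0x3895674012 .nil) (.leaf 0x123895674 4 (.leaf 0x5690123874 2 .done)) .done) (.leaf 0x5697832104 2 .done)) .done) .done)) .done)) .done)) .done))) (.node 2 8 (.cons 0x3456782190 .nil) tc9_6_28 .done)))
theorem sub_c9_6_9 : root 9 refs9_6 [] 0x400060008407000800007060000000060500000000504000060004010000800010300000000302000000002018000000010 0xfeaffe6fff3fff9fffcfffadfef5fff3fff9fefd 9 1 9 (.cons 0x8765432190 .nil) uc9_6_9 = true := by decide +kernel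
noncomputable def tc9_6_30 : T := (.node 0 5 (.cons 0x7650123894 .nil) (.node 4 7 (.cons 0x5674983210 .nil) (.leaf 0x2105674983 2 (.node 2 4 (.cons 0x5670124983 .nil) (.node 3 5 (.cons 0x4983567012 .nil) (.leaf 0x124983567 4 (.node 1 4 (.cons 0x9876532410 .nil) (.node 2 7 (.cons 0x2765389410 .nil) (.node 3 7 (.cons 0x8905673412 .nil) .done (.leaf 0x5672143890 4 .done)) .done) .done)) .done) (.node 7 9 (.cons 0x9783210456 .nil) (.node 2 4 (.cons 0x9832476501 .nil) (.node 3 5 (.cons 0x4983567012 .nil) (.leaf 0x124983567 4 (.node 1 4 (.cons 0x9876532410 .nil) (.leaf 0x8765324109 2 (.node 4 6 (.cons 0x8976423501 .nil) .done .done)) .done)) (.node 1 9 (.cons 0x8765432190 .nil) (.leaf 0x3891056742 2 (.leaf 0x567423891 5 .done)) .done)) (.node 1 4 (.cons 0x4123897650 .nil) (.leaf 0x9765041238 5 (.node 5 7 (.cons 0x6578904321 .nil) (.node 4 8 (.cons 0x7650984321 .nil) (.node 2 4 (.cons 0x9832476501 .nil) (.node 4 6 (.cons 0x9875640123 .nil) .done .done)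 .done) .done) (.leaf 0x8976504123 4 .done))) .done)) .done))) (.node 0 8 (.cons 0x9087654321 .nil) (.node 5 7 (.cons 0x6578904321 .nil) (.node 4 7 (.cons 0x5674983210 .nil) (.leaf 0x3894765012 0 (.node 1 5 (.cons 0x2389476510 .nil) (.leaf 0x2340987651 2 (.node 0 6 (.cons 0x9875604321 .nil) (.leaf 0x5123478906 5 (.leaf 0x2349806751 0 .done)) (.node 0 2 (.cons 0x5674983201 .nil) (.leaf 0x6749832015 2 (.leaf 0x6749832015 3 .done)) .done))) .done)) (.node 1 8 (.cons 0x6754908123 .nil) (.node 2 8 (.cons 0x9456701283 .nil) (.node 1 9 (.cons 0x3821945670 .nil) (.node 5 8 (.cons 0x6785432190 .nil) (.node 0 6 (.cons 0x8321945760 .nil) (.leaf 0x9123458760 4 (.leaf 0x1906785432 2 .done)) .done) (.node 0 6 (.cons 0x9457608321 .nil) (.leaf 0x8067549123 1 (.node 0 2 (.cons 0x6754912083 .nil) (.node 0 3 (.cons 0x7654912830 .nil) .done .done) .done)) .done)) .done) (.node 3 6 (.cons 0x4098756321 .nil) (.leaf 0x945763218 1 (.leaf 0x945763218 4 (.node 1 4 (.cons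 0x2365789041 .nil) (.leaf 0x5789041236 0 (.node 2 4 (.cons 0x5670124983 .nil) (.node 1 9 (.cons 0x1987563240 .nil) (.node 2 9 (.cons 0x3456781290 .nil) (.node 1 6 (.cons 0x7561238940 .nil) (.leaf 0x549238761 2 (.leaf 0x2167549083 1 (.leaf 0x9045781632 2 .done))) (.leaf 0x7836542910 1 .done)) .done) .done) .done)) .done))) .done)) .done)) .done) .done)) (.node 0 8 (.cons 0x9087654321 .nil) (.node 0 5 (.cons 0x7650123894 .nil) (.node 4 7 (.cons 0x5674983210 .nil) (.leaf 0x2105674983 2 (.node 4 8 (.cons 0x7650984321 .nil) (.node 1 8 (.cons 0x2347650981 .nil) (.node 2 8 (.cons 0x9456701283 .nil) (.node 0 2 (.cons 0x5674983201 .nil) (.node 0 3 (.cons 0x9456703821 .nil) (.node 0 6 (.cons 0x9067812345 .nil) .done .done) .done) .done) .done) .done) .done)) (.node 2 4 (.cons 0x5670124983 .nil) (.node 3 5 (.cons 0x4983567012 .nil) (.node 4 7 (.cons 0x5674983210 .nil) (.node 4 8 (.cons 0x2356748901 .nil) (.node 1 4 (.cons 0x8907653412 .nil) (.node 2 8 (.cons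 0x4765328901 .nil) (.leaf 0x982356741 4 (.leaf 0x5328901476 4 .done)) .done) .done) .done) (.leaf 0x124983567 4 .done)) (.node 5 7 (.cons 0x6570124983 .nil) (.node 4 7 (.cons 0x5674983210 .nil) (.node 1 7 (.cons 0x6571234980 .nil) (.node 0 6 (.cons 0x7560894321 .nil) (.leaf 0x2349806571 4 (.leaf 0x2349806571 0 .done)) (.node 6 9 (.cons 0x7809654321 .nil) (.node 2 5 (.cons 0x7125694380 .nil) (.node 1 8 (.cons 0x8176509432 .nil) (.leaf 0x4718096523 2 (.node 4 8 (.cons 0x3256748901 .nil) .done .done)) (.leaf 0x4710832569 2 .done)) (.leaf 0x1783249650 1 (.leaf 0x871234569 2 .done))) .done)) .done) (.node 5 8 .nil (.node 0 6 (.cons 0x5760498321 (.cons 0x9406758321 .nil)) (.node 1 7 (.cons 0x9834217065 (.cons 0x9856071243 (.cons 0x5890671234 (.cons 0x8567123490 .nil)))) .done .done) (.node 5 9 (.cons 0x9540123876 .nil) (.node 3 5 (.cons 0x4983567012 .nil) (.node 0 3 (.cons 0x6570389421 .nil) (.node 1 5 (.cons 0x6751238940 .nil) (.node 1 4 (.cons 0x8907653412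 .nil) (.node 2 5 (.cons 0x3412567890 .nil) .done .done) .done) .done) .done) .done) .done)) .done)) .done)) .done)) (.node 4 7 (.cons 0x5674983210 .nil) (.node 0 5 (.cons 0x8947650123 .nil) (.leaf 0x2105674983 2 (.leaf 0x1238947650 4 .done)) (.node 0 5 (.cons 0x2389476501 .nil) (.node 2 4 (.cons 0x9832476501 .nil) (.node 3 5 (.cons 0x7653249801 .nil) (.leaf 0x124983567 4 (.node 0 6 .nil (.node 1 9 (.cons 0x4235678910 (.cons 0x2435607891 (.cons 0x8760912345 .nil))) (.leaf 0x6534219870 5 .done) (.node 0 2 (.cons 0x5674983201 .nil) (.node 0 3 .nil (.node 1 5 (.cons 0x2389476510 (.cons 0x8943076512 (.cons 0x9874230156 (.cons 0x9876512430 .nil)))) .done .done) .done) .done)) .done)) (.node 1 9 (.cons 0x8765432190 .nil) (.node 0 2 (.cons 0x5674983201 .nil) (.node 0 6 (.cons 0x9106547832 .nil) .done .done) (.leaf 0x3891056742 4 (.leaf 0x5019832476 4 .done))) .done)) (.node 0 2 (.cons 0x5674983201 .nil) (.node 1 9 (.cons 0x8765432190 .nil) (.node 6 9 (.cons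 0x2387456910 .nil) (.leaf 0x4569102387 2 (.leaf 0x1965478320 5 (.leaf 0x5478320196 4 .done))) (.node 0 6 (.cons 0x8760912345 .nil) (.node 0 3 .nil (.node 2 5 (.cons 0x8947652301 (.cons 0x4983076521 .nil)) (.leaf 0x8947652103 2 .done) .done) .done) (.leaf 0x6702198345 5 .done))) (.node 1 5 (.cons 0x2389476510 .nil) (.node 0 3 (.cons 0x8943076512 .nil) (.node 0 6 (.cons 0x9876043215 .nil) .done .done) (.node 1 8 (.cons 0x2347651890 .nil) (.leaf 0x3476518902 4 (.leaf 0x3476518902 0 (.node 1 6 (.cons 0x2347890561 .nil) (.leaf 0x8905612347 5 (.node 2 9 (.cons 0x4389215670 .nil) (.leaf 0x3892156704 2 (.leaf 0x783492165 5 (.leaf 0x1567043892 5 .done))) .done)) .done))) (.leaf 0x6749832015 3 .done))) .done)) .done)) .done)) .done)) (.node 4 7 (.cons 0x5674983210 .nil) (.node 0 5 (.cons 0x8947650123 .nil) (.leaf 0x2105674983 2 (.leaf 0x1238947650 4 .done)) (.node 0 5 (.cons 0x7650123894 .nil) (.node 1 5 (.cons 0x4321567890 .nil) (.node 1 7 (.cons 0x5671049832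 .nil) (.node 2 5 (.cons 0x7652389401 .nil) (.leaf 0x3894017652 1 (.node 3 7 (.cons 0x8940156732 .nil) (.node 5 7 .nil (.node 0 8 (.cons 0x7651234980 (.cons 0x8094321756 (.cons 0x6751234980 .nil))) .done .done) .done) .done)) .done) (.leaf 0x8904321567 4 (.node 0 6 (.cons 0x9834760512 .nil) (.node 2 6 (.cons 0x9834762150 .nil) (.node 2 4 (.cons 0x3421567890 .nil) (.node 2 5 (.cons 0x7652389401 .nil) (.node 2 7 (.cons 0x5672389401 .nil) (.leaf 0x4015672389 2 .done) .done) .done) (.leaf 0x4762150983 4 (.leaf 0x5126743890 4 .done))) .done) .done))) (.node 0 8 (.cons 0x9087654321 .nil) (.node 1 5 (.cons 0x4321567890 .nil) (.node 1 7 (.cons 0x5671049832 .nil) (.node 3 7 (.cons 0x8940156732 .nil) (.node 5 7 (.cons 0x6751234980 .nil) (.node 1 6 (.cons 0x6123894750 .nil) (.leaf 0x2167549083 1 (.leaf 0x7549083216 0 .done)) .done) .done) .done) (.leaf 0x9876512340 5 (.node 1 8 .nil (.node 2 5 (.cons 0x7652389401 (.cons 0x3498125670 (.cons 0x7652340981 .nil)))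 (.leaf 0x7652183490 2 .done) (.node 2 8 (.cons 0x9456701283 .nil) (.node 2 7 (.cons 0x5672389401 .nil) (.node 2 5 (.cons 0x7652389401 .nil) (.node 2 6 (.cons 0x9087621543 .nil) (.node 1 9 (.cons 0x4389125670 .nil) (.leaf 0x783491265 5 .done) .done) .done) (.leaf 0x4015672389 2 .done)) .done) .done)) .done))) .done) .done)) .done)) .done)))
noncomputable def tc9_6_31 : T := (.leaf 0x1238945670 0 (.node 1 8 (.cons 0x8123490765 .nil) (.node 5 8 (.cons 0x8567094321 .nil) (.leaf 0x943218567 3 (.node 1 9 (.cons 0x8765432190 .nil) (.node 1 4 (.cons 0x9410765832 .nil) (.node 1 7 (.cons 0x6581709432 .nil) (.node 1 5 (.cons 0x4321567890 .nil) (.node 4 8 (.cons 0x7651234890 .nil) (.node 0 4 (.cons 0x5678904321 .nil) (.leaf 0x2340987651 2 (.node 0 8 (.cons 0x9087654321 .nil) .done (.leaf 0x9876512340 5 .done))) (.leaf 0x6512348907 0 .done)) .done) .done) (.node 1 7 (.cons 0x6581709432 .nil) (.node 1 5 (.cons 0x4321567890 .nil) (.node 0 2 (.cons 0x1765894320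 .nil) (.node 3 5 (.cons 0x2143567890 .nil) (.leaf 0x4120987653 4 .done) (.leaf 0x5894320176 3 (.leaf 0x9856710234 2 .done))) .done) .done) .done)) (.node 1 7 (.cons 0x6581709432 .nil) (.node 1 5 (.cons 0x4321567890 .nil) (.node 1 4 (.cons 0x9410765832 .nil) (.node 4 8 (.cons 0x7651234890 .nil) (.leaf 0x6512348907 0 .done) .done) .done) (.node 1 4 (.cons 0x9410765832 .nil) (.node 3 7 (.cons 0x2376589410 .nil) (.node 1 5 (.cons 0x4321567890 .nil) (.node 4 7 (.cons 0x5674983210 .nil) (.node 0 2 (.cons 0x9834765120 .nil) (.leaf 0x6743890215 0 (.leaf 0x1498567320 3 (.leaf 0x4765120983 4 .done))) .done) .done) .done) .done) .done)) .done)) (.leaf 0x943218567 2 .done))) (.node 1 9 (.cons 0x8765432190 .nil) (.node 3 7 .nil (.node 6 8 (.cons 0x7865432190 (.cons 0x5490186732 (.cons 0x4568732190 .nil))) (.leaf 0x1094568732 2 .done) (.node 3 9 .nil (.node 2 8 (.cons 0x7654938210 .nil) (.node 0 6 (.cons 0x9067812345 (.cons 0x5439067812 (.cons 0x7823456091 .nil)))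 (.node 0 3 (.cons 0x9034567821 .nil) (.node 0 8 (.cons 0x7654938012 .nil) (.leaf 0x3945678012 1 .done) (.leaf 0x4567821903 2 .done)) .done) (.leaf 0x9382107654 2 (.leaf 0x3945670128 4 .done))) (.node 1 4 (.cons 0x8765410932 .nil) (.node 2 4 (.cons 0x5678932410 .nil) (.leaf 0x932456781 3 (.node 2 9 .nil (.node 0 5 (.cons 0x4105678932 (.cons 0x3412987650 (.cons 0x1432987650 .nil))) (.leaf 0x9324105678 2 (.leaf 0x2987650143 0 .done)) (.node 5 9 (.cons 0x6781234590 .nil) (.node 6 9 (.cons 0x3876954210 .nil) .done .done) .done)) .done)) (.node 2 8 (.cons 0x4567823901 .nil) (.leaf 0x5410932876 1 (.node 2 9 (.cons 0x2938765410 .nil) (.node 2 4 (.cons 0x8765423901 .nil) (.node 2 7 .nil (.node 0 5 (.cons 0x4239876501 (.cons 0x9834127650 (.cons 0x6507283941 (.cons 0x8349127056 (.cons 0x4983276501 .nil))))) .done .done) (.leaf 0x932456781 3 .done)) .done) .done)) .done)) .done)) (.node 3 9 .nil (.node 2 8 (.cons 0x8237654901 .nil) (.leaf 0x9382107654 2 (.leaf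 0x3945670128 4 .done)) (.node 2 9 .nil (.node 4 6 (.cons 0x8709123465 (.cons 0x5467839210 (.cons 0x5467810923 .nil))) (.node 0 5 (.cons 0x7891234650 (.cons 0x5018923764 (.cons 0x9237810546 (.cons 0x6738105492 (.cons 0x8705643291 .nil))))) .done .done) (.node 2 8 (.cons 0x8237654901 .nil) (.node 7 9 .nil (.node 0 6 (.cons 0x9067812345 (.cons 0x2197834560 (.cons 0x5497601832 .nil))) (.leaf 0x2379456018 3 .done) (.node 5 9 (.cons 0x6781234590 .nil) (.node 6 9 (.cons 0x5432187690 .nil) .done .done) .done)) .done) .done)) .done)) .done))) (.node 2 8 (.cons 0x3456782190 .nil) (.node 1 7 .nil (.node 0 5 (.cons 0x7650123894 (.cons 0x8905671234 (.cons 0x6509871234 (.cons 0x9438217056 (.cons 0x6507194382 .nil))))) .done (.node 1 5 (.cons 0x4321567890 .nil) (.node 4 8 (.cons 0x7651234890 .nil) (.leaf 0x6512348907 0 (.leaf 0x6512348907 4 .done)) (.node 1 4 .nil (.node 5 9 (.cons 0x6781234590 (.cons 0x6590782341 (.cons 0x8321495670 .nil))) .done .done) .done))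 .done)) (.node 1 7 .nil (.node 0 8 (.cons 0x9087654321 (.cons 0x9087123456 (.cons 0x3280945671 .nil))) (.node 2 9 (.cons 0x3456780921 .nil) (.leaf 0x1765492380 1 (.leaf 0x1765492380 4 .done)) .done) (.node 1 5 (.cons 0x4321567890 .nil) (.node 4 8 (.cons 0x7651234890 .nil) (.node 1 4 .nil (.node 2 5 (.cons 0x8349125670 .nil) (.leaf 0x6701498325 1 (.leaf 0x3894107652 1 .done)) .done) (.leaf 0x6512348907 0 (.leaf 0x6512348907 4 .done))) (.node 1 4 .nil (.node 0 3 (.cons 0x7654912830 (.cons 0x5671498230 .nil)) (.leaf 0x2145678903 2 (.leaf 0x4567823091 2 (.node 5 9 (.cons 0x6781234590 (.cons 0x6782309541 (.cons 0x8321495670 .nil))) .done .done))) .done) .done)) .done)) .done)) .done)) (.node 1 9 (.cons 0x8765432190 .nil) (.node 3 9 (.cons 0x2187654390 .nil) (.node 2 9 (.cons 0x3456781290 .nil) (.node 0 3 (.cons 0x7654921830 .nil) (.node 3 7 (.cons 0x8129037654 .nil) (.node 2 7 (.cons 0x5672189034 .nil) (.node 0 5 (.cons 0x3498127650 .nil) (.leaf 0x8127650349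 0 (.node 0 6 (.cons 0x4506783921 .nil) (.node 4 7 (.cons 0x5674983210 .nil) (.leaf 0x9832105674 4 (.leaf 0x6547832910 4 .done)) .done) (.leaf 0x8127650349 1 .done))) (.leaf 0x1890345672 1 .done)) .done) (.leaf 0x1876543092 2 (.leaf 0x9456703812 5 .done))) .done) (.node 0 2 (.cons 0x2093456781 .nil) (.leaf 0x6543902187 3 (.leaf 0x4567812093 2 (.node 2 7 (.cons 0x2765493810 .nil) (.leaf 0x4938102765 2 (.node 2 9 (.cons 0x3456781290 .nil) .done .done)) .done))) .done)) (.node 5 8 (.cons 0x6785432190 .nil) (.leaf 0x943218567 0 (.node 1 7 .nil (.node 0 2 (.cons 0x6785432091 (.cons 0x4320985671 (.cons 0x9458320176 .nil))) (.leaf 0x5894320176 3 .done) (.node 0 2 (.cons 0x1765894320 .nil) (.node 1 4 (.cons 0x9856714320 .nil) (.node 2 9 (.cons 0x3456781290 .nil) (.node 3 9 (.cons 0x2187654390 .nil) (.leaf 0x6543902187 3 .done) (.leaf 0x3856701492 3 .done)) .done) (.leaf 0x5894320176 3 (.leaf 0x9856710234 2 .done))) .done)) (.node 0 6 (.cons 0x4587609123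 .nil) (.leaf 0x9123458760 0 (.leaf 0x7609123458 1 (.node 6 8 .nil (.node 3 7 (.cons 0x1237685490 .nil) (.leaf 0x2109458673 1 (.leaf 0x6854901237 1 .done)) .done) .done))) .done))) .done)) .done))) (.node 0 4 (.cons 0x5678904321 .nil) tc9_6_30 (.node 4 7 (.cons 0x5674983210 .nil) (.node 0 5 (.cons 0x8947650123 .nil) (.leaf 0x2105674983 2 (.leaf 0x1238947650 4 (.leaf 0x6501238947 5 .done))) (.node 0 4 (.cons 0x5678904321 .nil) (.node 0 5 (.cons 0x7650123894 .nil) (.node 7 9 (.cons 0x9783210456 .nil) (.node 2 4 (.cons 0x1243897650 .nil) (.node 1 4 (.cons 0x2143897650 .nil) (.node 2 7 (.cons 0x9834127650 .nil) (.node 3 7 (.cons 0x8905673412 .nil) .done (.leaf 0x5672143890 4 .done)) .done) .done) (.node 1 4 (.cons 0x4123897650 .nil) (.leaf 0x9765041238 5 (.leaf 0x8976504123 4 .done)) .done)) (.leaf 0x9832105674 4 .done)) (.node 3 7 (.cons 0x5673894012 .nil) (.node 0 5 (.cons 0x7650123894 .nil) (.node 2 5 (.cons 0x4983256701 .nil) (.node 2 7 (.cons 0x9834056721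 .nil) (.node 3 5 (.cons 0x1276538940 .nil) (.leaf 0x4983567210 0 (.node 3 9 (.cons 0x1256789340 .nil) (.leaf 0x2567893401 4 (.leaf 0x2567893401 1 .done)) .done)) .done) (.leaf 0x1049837652 0 (.node 2 7 (.cons 0x9834056721 .nil) (.node 1 7 (.cons 0x9834056712 .nil) (.node 2 9 (.cons 0x4389217650 .nil) (.leaf 0x8340567129 2 (.node 5 7 (.cons 0x6750438921 .nil) .done .done)) .done) .done) .done))) (.node 0 8 (.cons 0x9087654321 .nil) (.node 0 3 .nil (.node 2 5 (.cons 0x4983256701 .nil) (.leaf 0x9830125674 1 (.leaf 0x6521049837 1 (.leaf 0x3894765210 0 .done))) (.node 3 5 (.cons 0x7653894012 .nil) (.node 3 6 .nil (.node 5 7 (.cons 0x5763210894 (.cons 0x6389475012 (.cons 0x8094576321 .nil))) (.leaf 0x2108945763 0 .done) .done) .done) .done)) .done) .done)) .done) .done)) (.node 0 4 (.cons 0x5678904321 .nil) (.node 5 7 (.cons 0x6578904321 .nil) (.node 1 5 (.cons 0x4321567890 .nil) (.leaf 0x2340987651 2 (.node 1 8 (.cons 0x9456701832 .nil) (.node 0 8 (.cons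 0x9087654321 .nil) (.node 0 6 (.cons 0x9875604321 .nil) (.leaf 0x1560987432 4 (.node 1 9 (.cons 0x6578912340 .nil) (.leaf 0x4065789123 1 .done) .done)) .done) (.node 2 9 (.cons 0x3456781290 .nil) (.leaf 0x765492381 1 (.leaf 0x765492381 4 (.node 1 9 (.cons 0x6578912340 .nil) (.node 7 9 (.cons 0x9783210456 .nil) .done .done) .done))) .done)) (.node 0 5 (.cons 0x3894765012 .nil) (.node 1 8 (.cons 0x3476509812 .nil) (.node 1 9 (.cons 0x6578912340 .nil) (.node 7 9 (.cons 0x6543218790 .nil) (.node 1 4 (.cons 0x4123897650 .nil) (.leaf 0x9765041238 5 .done) .done) .done) (.node 1 7 (.cons 0x8905671234 .nil) (.node 1 4 (.cons 0x5670149832 .nil) (.node 1 6 (.cons 0x9875612340 .nil) (.leaf 0x4321657890 3 .done) .done) .done) .done)) .done) .done))) (.node 7 9 (.cons 0x9783210456 .nil) (.node 0 5 (.cons 0x3894765012 .nil) (.node 3 7 .nil (.node 2 9 (.cons 0x1298347650 (.cons 0x6501298374 (.cons 0x6504738921 .nil))) .done (.node 1 7 (.cons 0x6571238940 .nil)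 (.node 0 6 (.cons 0x7560498321 .nil) (.leaf 0x5604983217 5 (.node 2 7 (.cons 0x3894065721 .nil) .done .done)) .done) .done)) (.node 0 8 (.cons 0x9087654321 .nil) (.node 1 6 (.cons 0x7561238940 .nil) (.leaf 0x9407561238 2 (.leaf 0x2167549083 1 (.node 5 8 (.cons 0x6794583210 .nil) (.node 0 6 (.cons 0x4975832160 .nil) (.node 2 9 (.cons 0x5834792160 .nil) (.leaf 0x6107492385 3 (.leaf 0x1605834792 2 .done)) .done) (.leaf 0x3409785612 3 .done)) (.leaf 0x7549083216 0 .done)))) .done) .done)) .done) .done)) (.node 0 5 (.cons 0x3894765012 .nil) (.node 0 2 (.cons 0x9834765021 .nil) (.node 0 3 (.cons 0x5674983012 .nil) (.node 0 8 (.cons 0x9087654321 .nil) (.node 0 6 .nil (.node 1 8 (.cons 0x3476509812 (.cons 0x9065432187 (.cons 0x9067812345 .nil))) .done .done) .done) .done) (.node 0 3 (.cons 0x5674983012 .nil) (.node 0 8 (.cons 0x9087654321 .nil) (.node 0 6 .nil (.node 1 8 (.cons 0x3476509812 (.cons 0x9065432187 (.cons 0x9067812345 .nil))) .done .done) .done)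 .done) .done)) (.leaf 0x1238947650 1 (.node 0 8 (.cons 0x9087654321 .nil) (.node 4 8 .nil (.node 3 7 (.cons 0x4983765012 (.cons 0x9483765012 .nil)) (.leaf 0x2109845673 0 .done) (.node 5 8 .nil (.node 3 7 (.cons 0x4983765012 (.cons 0x8549012376 (.cons 0x2376584901 .nil))) .done (.node 5 7 .nil (.node 1 6 (.cons 0x9045876123 (.cons 0x3216758940 (.cons 0x9834057612 (.cons 0x9087561234 .nil)))) (.leaf 0x7589043216 1 .done) (.node 4 6 (.cons 0x7564980123 .nil) (.node 1 4 (.cons 0x5670149832 .nil) (.node 2 4 (.cons 0x7650124983 .nil) .done .done) .done) .done)) .done)) .done)) .done) .done))) .done)) .done))) .done))))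
noncomputable def uc9_6_10 : T := tc9_6_31
theorem sub_c9_6_10 : root 9 refs9_6 [] 0x400070008407000800007060000000060500000000504000070004010000800010300000000302000000002018000000010 0xfe6ffe6fff3fff9fffcfff6dfef5fff3fff9fefd 9 0 7 (.cons 0x5670123894 .nil) uc9_6_10 = true := by decide +kernel
def kn_c9_6 : List (Nat × Nat × Nat) := [(0x400000008407000200307060000000060500000000504000000004010000200010300000000302000000002018300000010, 0xfeefff63ff3fff9fffcfffedfff1fff3fff9fef5, 9), (0x400000008407000200507060000000060500000000504000000004010000200010300000000302000000002018500000010, 0xfeefff4bff3fff9fffcfffedfff1fff3fff9fedd, 9), (0x400000008407000200607060000000060500000000504000000004010000200010300000000302000000002018600000010, 0xfeefff2bff3fff9fffcfffedfff1fff3fff9febd, 9), (0x400000008407000500207060000000060500000000504000000004010000500010300000000302000000002018200000010, 0xfeefff4bff3fff9fffcfffedffd5fff3fff9fef9, 9), (0x400000008407000500307060000000060500000000504000000004010000500010300000000302000000002018300000010,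 0xfeefff47ff3fff9fffcfffedffd5fff3fff9fef5, 9), (0x400000008407000500607060000000060500000000504000000004010000500010300000000302000000002018600000010, 0xfeefff0fff3fff9fffcfffedffd5fff3fff9febd, 9), (0x400000008407000600007060000000060500000000504000000004010000600010300000000302000000002018000000010, 0xfeefff2fff3fff9fffcfffedffb5fff3fff9fefd, 9), (0x400020008407000800007060000000060500000000504000020004010000800010300000000302000000002018000000010, 0xfeebfe6fff3fff9fffcfffe9fef5fff3fff9fefd, 9), (0x400030008407000800007060000000060500000000504000030004010000800010300000000302000000002018000000010, 0xfee7fe6fff3fff9fffcfffe5fef5fff3fff9fefd, 9), (0x400060008407000800007060000000060500000000504000060004010000800010300000000302000000002018000000010, 0xfeaffe6fff3fff9fffcfffadfef5fff3fff9fefd, 9), (0x400070008407000800007060000000060500000000504000070004010000800010300000000302000000002018000000010, 0xfe6ffe6fff3fff9fffcfff6dfef5fff3fff9fefd, 9)]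
noncomputable def rc9_6 : T := (.node 4 9 (.cons 0x9456783210 .nil) (.cut 10 (.cut 9 (.leaf 0x7832109456 1 (.cut 8 (.cut 7 .done))))) (.cut 6 (.node 0 8 (.cons 0x9087654321 .nil) (.cut 5 (.cut 4 (.cut 3 .done))) (.node 0 8 (.cons 0x9087654321 .nil) (.cut 2 (.cut 1 (.cut 0 .done))) .done))))
theorem ok_c9_6 : root 9 refs9_6 kn_c9_6 0x400000008407000000007060000000060500000000504000000004010000000010300000000302000000002018000000010 0xfeefff6fff3fff9fffcfffedfff5fff3fff9fefd 9 3 8 (.cons 0x9012387654 .nil) rc9_6 = true := by decide +kernel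

end Pool.Agent.Hhelper35.Rainbow
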