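import Pool.Agent.Hhelper35.Rainbow.Pats

set_option autoImplicit false
set_option maxRecDepth 1000000

namespace Pool.Agent.Hhelper35.Rainbow

open T W

noncomputable def tc9_7_0 : T := (.node 1 9 .nil (.node 0 8 (.cons 0x9087632145 (.cons 0x7809123654 (.cons 0x5419087632 .nil))) (.leaf 0x4321908765 0 .done) (.node 1 3 .nil (.node 2 4 (.cons 0x5678924310 .nil) (.node 3 5 (.cons 0x4356789210 .nil) (.leaf 0x9012435678 0 (.leaf 0x8901243567 2 (.leaf 0x987635421 6 .done))) (.node 0 8 (.cons 0x7654321980 (.cons 0x9087654231 .nil)) (.node 3 8 (.cons 0x9013876542 .nil) (.leaf 0x138765429 5 .done) (.leaf 0x4231908765 4 .done)) (.leaf 0x9876542310 2 (.leaf 0x9876542310 5 .done)))) (.node 3 5 (.cons 0x4356789210 .nil) (.node 3 8 .nil (.node 0 4 (.cons 0x5678921043 (.cons 0x9045678321 (.cons 0x7654098321 .nil))) (.leaf 0x9123876540 0 (.leaf 0x5678321904 3 .done)) (.node 3 9 .nil (.node 0 8 (.cons 0x7654321980 .nil) (.leaf 0x9321456780 1 (.leaf 0x7654392108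 5 .done)) (.node 3 7 .nil (.node 2 4 (.cons 0x8901245673 (.cons 0x6542109873 .nil)) (.leaf 0x124563789 3 (.leaf 0x4210983765 0 .done)) .done) .done)) (.node 3 9 .nil (.node 0 8 (.cons 0x7654321980 .nil) (.leaf 0x9321456780 1 (.leaf 0x1293456780 6 .done)) (.node 3 7 .nil (.node 0 4 (.cons 0x5678921043 (.cons 0x8904567321 (.cons 0x6540987321 .nil))) (.leaf 0x4012987653 0 (.node 0 6 (.cons 0x5439876012 (.cons 0x8906732145 .nil)) .done .done)) .done) .done)) .done))) (.node 2 6 (.cons 0x1453267890 .nil) (.leaf 0x9014532678 2 (.node 2 8 (.cons 0x9014536782 .nil) (.leaf 0x3541092876 2 (.node 3 7 (.cons 0x4537628910 .nil) (.node 3 9 (.cons 0x2678935410 .nil) .done .done) .done)) .done)) .done)) .done)) (.node 0 6 (.cons 0x7891234560 .nil) (.node 2 6 .nil (.node 3 7 (.cons 0x8906732145 (.cons 0x2654378910 .nil)) (.leaf 0x2109873456 3 .done) (.node 3 7 (.cons 0x8906732145 .nil) (.node 2 7 .nil (.node 4 8 (.cons 0x7845632190 (.cons 0x9012784563 (.cons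 0x5634872910 (.cons 0x3654872190 .nil)))) .done (.node 0 7 (.cons 0x6543219870 .nil) (.node 4 7 (.cons 0x8745632190 .nil) (.node 2 8 (.cons 0x3654782190 .nil) (.leaf 0x3287091456 2 (.leaf 0x9128745630 3 .done)) .done) .done) .done)) (.node 0 2 (.cons 0x6543789102 .nil) (.leaf 0x7345620198 6 (.leaf 0x8734562019 5 (.node 0 7 (.cons 0x6543219870 .nil) (.node 2 7 (.cons 0x8910654372 .nil) .done .done) .done))) .done)) .done)) (.node 0 5 (.cons 0x5067892341 .nil) (.node 0 7 (.cons 0x6543219870 .nil) (.node 0 8 (.cons 0x7809123654 .nil) (.node 1 5 (.cons 0x5143298760 .nil) (.node 1 3 .nil (.node 0 2 (.cons 0x7891320654 .nil) (.leaf 0x9876541320 1 (.leaf 0x6543120987 3 .done)) .done) (.leaf 0x2987605143 2 .done)) .done) .done) (.leaf 0x4123678905 4 (.node 0 8 (.cons 0x7809123654 .nil) (.node 0 7 (.cons 0x6543219870 .nil) (.node 0 4 (.cons 0x5678921043 .nil) (.node 0 2 .nil (.node 3 5 (.cons 0x4356789210 (.cons 0x4356789201 .nil)) (.leaf 0x298765341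 4 .done) .done) .done) .done) .done) .done))) .done)) .done))) (.node 0 5 (.cons 0x6789054123 .nil) (.leaf 0x4123678905 1 (.node 3 7 (.cons 0x8921056734 .nil) (.node 4 8 (.cons 0x7650129843 .nil) (.node 2 8 (.cons 0x9012845637 .nil) (.node 6 9 (.cons 0x1237845690 .nil) (.leaf 0x543769821 4 (.leaf 0x4501289673 3 .done)) (.node 2 6 (.cons 0x9012654873 .nil) (.node 0 6 (.cons 0x9065487321 .nil) (.node 0 7 (.cons 0x7098456321 .nil) (.node 2 7 (.cons 0x7210984563 .nil) .done .done) .done) .done) .done)) (.leaf 0x567348921 4 (.leaf 0x6501298437 3 .done))) (.node 6 8 (.cons 0x4509867321 .nil) (.leaf 0x6890541237 0 (.leaf 0x9210543768 0 (.leaf 0x7345012986 3 (.leaf 0x5098673214 4 .done)))) (.node 3 8 (.cons 0x7650129834 .nil) (.node 4 7 (.cons 0x7456389012 .nil) (.node 0 7 (.cons 0x8907632145 .nil) (.node 7 9 (.cons 0x8365479012 .nil) (.node 2 8 (.cons 0x1283654790 .nil) (.node 5 9 (.cons 0x7634598210 .nil) (.leaf 0x9543670128 0 (.leaf 0x4367012895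 4 .done)) (.leaf 0x9765034128 3 .done)) .done) .done) (.leaf 0x9210567438 3 .done)) (.node 7 9 (.cons 0x6798345012 .nil) (.node 0 7 (.cons 0x8907632145 .nil) (.node 2 7 (.cons 0x9834501276 .nil) (.node 2 8 (.cons 0x5436798210 .nil) (.leaf 0x1289763450 6 .done) .done) .done) (.node 2 8 (.cons 0x4305679821 .nil) (.leaf 0x1430567982 0 (.leaf 0x9765034128 3 .done)) .done)) .done)) .done))) (.node 3 5 (.cons 0x4356789210 .nil) (.node 0 8 (.cons 0x9210876534 .nil) (.node 4 9 (.cons 0x8765349210 .nil) (.node 1 9 (.cons 0x6780912354 .nil) (.node 4 6 (.cons 0x9087645321 .nil) (.leaf 0x2190876453 2 (.node 0 4 (.cons 0x5678921043 .nil) (.node 0 6 (.cons 0x7891234560 .nil) .done .done) (.leaf 0x1908764532 0 .done))) .done) (.leaf 0x1294356780 3 (.node 2 5 (.cons 0x2567894301 .nil) (.leaf 0x9430125678 0 (.node 1 5 (.cons 0x6789415230 .nil) (.node 2 6 (.cons 0x5349267801 .nil) (.leaf 0x6294351087 0 .done) .done) .done)) (.leaf 0x3567801294 6 .done)))) (.node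 1 6 (.cons 0x9087614532 .nil) (.leaf 0x7809235416 4 (.node 0 6 .nil (.node 1 5 (.cons 0x6780923514 (.cons 0x7608923415 .nil)) (.leaf 0x2987605143 1 .done) (.node 0 7 (.cons 0x9870561234 .nil) (.node 3 7 (.cons 0x6501298734 .nil) (.node 4 6 (.cons 0x2987346501 .nil) (.node 1 5 (.cons 0x8764153290 .nil) (.leaf 0x9234615078 0 (.leaf 0x1532908764 0 .done)) (.leaf 0x3789210564 0 .done)) .done) .done) .done)) (.leaf 0x1678092354 0 .done))) .done)) (.node 2 6 (.cons 0x1453267890 .nil) (.leaf 0x145326789 0 (.node 4 7 (.cons 0x6501298743 .nil) (.node 2 7 (.cons 0x8901453672 .nil) (.node 3 7 (.cons 0x6298735014 .nil) .done .done) (.leaf 0x5012987436 3 (.leaf 0x5362987410 2 .done))) .done)) .done)) (.node 0 6 (.cons 0x5067892341 .nil) (.node 2 6 (.cons 0x3267890541 .nil) (.node 1 3 (.cons 0x9876231450 .nil) (.node 3 5 (.cons 0x4356789210 .nil) (.node 2 5 (.cons 0x6789250143 .nil) (.leaf 0x4105298763 1 (.node 5 9 (.cons 0x8760592341 .nil) (.node 1 5 (.cons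 0x6789234150 .nil) (.node 5 8 (.cons 0x3412958760 .nil) .done .done) .done) .done)) .done) (.leaf 0x4509876231 3 .done)) .done) .done) .done)))) (.node 3 7 .nil (.node 0 6 (.cons 0x8906732145 .nil) (.leaf 0x2378906541 2 (.leaf 0x2378906541 1 .done)) (.node 3 5 (.cons 0x4356789210 .nil) (.node 2 5 (.cons 0x5298763410 .nil) (.node 0 5 (.cons 0x2367890541 .nil) (.leaf 0x4509876321 2 (.leaf 0x7634105298 2 .done)) (.leaf 0x8901452367 3 (.node 0 5 (.cons 0x2367890541 .nil) (.leaf 0x7634105298 3 (.leaf 0x4509876321 2 (.node 0 7 (.cons 0x8925367014 .nil) (.node 2 7 (.cons 0x8901453672 .nil) .done .done) .done))) .done))) (.node 3 8 .nil (.node 0 6 (.cons 0x7892106534 (.cons 0x9067832145 (.cons 0x7609832145 .nil))) .done (.node 3 9 .nil (.node 0 8 (.cons 0x4567809321 .nil) (.leaf 0x6780129345 3 (.leaf 0x9321456780 1 (.leaf 0x7654392108 5 .done))) (.node 1 3 .nil (.node 0 2 (.cons 0x4567890231 .nil) (.leaf 0x9876541320 1 (.node 4 9 (.cons 0x5678943012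 (.cons 0x8765490231 (.cons 0x8765490213 .nil))) (.leaf 0x1209456783 4 .done) (.leaf 0x6543120987 3 (.leaf 0x3209876541 2 (.node 2 5 (.cons 0x5298763410 (.cons 0x9876310254 .nil)) (.leaf 0x3678902541 4 (.leaf 0x3678902541 3 .done)) .done))))) .done) .done)) .done)) .done)) (.node 3 8 .nil (.node 0 5 (.cons 0x2367890541 (.cons 0x9210567834 (.cons 0x7650129834 .nil))) (.leaf 0x4509876321 2 (.node 0 6 (.cons 0x5067892341 (.cons 0x9067832145 (.cons 0x7609832145 .nil))) .done .done)) (.node 3 9 .nil (.node 0 8 (.cons 0x4567809321 .nil) (.leaf 0x6780129345 3 (.leaf 0x1293456780 6 (.leaf 0x7654392108 5 .done))) (.node 3 5 (.cons 0x4356789210 .nil) (.node 1 3 .nil (.node 4 8 (.cons 0x5367841092 (.cons 0x4876531092 (.cons 0x4876531290 .nil))) .done .done) .done) .done)) .done)) .done))) .done)))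
noncomputable def tc9_7_1 : T := (.node 4 7 (.cons 0x8921034765 .nil) (.node 0 7 (.cons 0x8921076543 .nil) (.node 3 7 .nil (.node 0 6 (.cons 0x8906732145 .nil) (.leaf 0x1065437892 2 (.leaf 0x2378906541 1 (.leaf 0x3456012987 1 .done))) (.node 3 8 (.cons 0x7654389210 .nil) (.node 3 9 (.cons 0x6547839012 .nil) (.node 0 8 .nil (.node 1 9 (.cons 0x6547832190 (.cons 0x6547809123 .nil)) (.leaf 0x8912345670 2 .done) (.node 1 7 (.cons 0x1765432980 .nil) (.leaf 0x3298017654 0 (.node 2 6 (.cons 0x5439876210 .nil) (.leaf 0x1083926547 4 (.node 2 7 (.cons 0x3456729801 .nil) .done (.leaf 0x8017456293 3 .done))) .done)) .done)) .done) (.node 3 9 .nil (.node 2 4 (.cons 0x8765421093 .nil) (.leaf 0x4210938765 0 (.leaf 0x1093876542 4 .done)) (.node 1 9 .nil (.node 0 2 (.cons 0x6543789102 .nil) (.leaf 0x8765430219 1 (.leaf 0x6789120345 5 .done)) (.node 1 7 .nil (.node 0 8 (.cons 0x6547809321 (.cons 0x6543710892 (.cons 0x1765432980 .nil))) .done (.node 1 8 (.cons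 0x6547812390 .nil) (.node 0 8 (.cons 0x6547809321 .nil) (.node 3 6 (.cons 0x9236547180 .nil) (.leaf 0x2908174563 6 (.leaf 0x5471809236 5 .done)) .done) .done) .done)) .done)) .done)) .done)) .done)) (.node 3 7 .nil (.node 0 6 (.cons 0x8906732145 .nil) (.leaf 0x1065437892 2 (.leaf 0x2378906541 1 .done)) (.node 3 8 (.cons 0x7654389210 .nil) (.leaf 0x9834567012 2 (.node 3 9 .nil (.node 2 6 (.cons 0x5410938762 .nil) (.leaf 0x8934562107 2 (.leaf 0x3987012654 1 (.leaf 0x8934562107 5 .done))) (.node 2 6 (.cons 0x7893456210 .nil) (.leaf 0x8390126547 0 (.leaf 0x3987012654 1 (.leaf 0x8934562107 5 .done))) .done)) .done)) .done)) .done)) (.node 4 9 (.cons 0x5678943012 .nil) (.node 2 4 .nil (.node 1 5 (.cons 0x8903247651 (.cons 0x8924765103 .nil)) (.leaf 0x6510342987 2 (.leaf 0x2156789034 2 (.leaf 0x342987651 1 .done))) (.node 2 5 (.cons 0x8925674301 .nil) (.node 1 9 .nil (.node 5 9 (.cons 0x8765910342 (.cons 0x8765912430 .nil)) .done (.node 0 2 (.cons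 0x6520198743 .nil) (.node 3 6 (.cons 0x2563478910 .nil) (.leaf 0x1987436520 2 (.leaf 0x1987436520 5 (.leaf 0x1987436520 1 .done))) .done) .done)) (.leaf 0x5210349876 0 .done)) .done)) (.node 4 8 .nil (.node 1 5 (.cons 0x2156789430 (.cons 0x3094876512 (.cons 0x2309847651 (.cons 0x1567489230 .nil)))) (.leaf 0x4892301567 1 .done) (.node 2 4 .nil (.node 1 5 (.cons 0x2156789430 (.cons 0x8765124903 (.cons 0x8903247651 (.cons 0x8924765103 .nil)))) (.leaf 0x342987651 1 .done) (.node 2 5 (.cons 0x1256789430 .nil) (.node 0 2 (.cons 0x5678943021 .nil) (.node 1 5 (.cons 0x2156789430 .nil) (.leaf 0x3498765120 3 (.leaf 0x3498765120 4 (.node 0 4 (.cons 0x8923047651 .nil) (.leaf 0x1567894032 4 .done) .done))) .done) (.node 3 8 (.cons 0x7654389210 .nil) (.node 3 7 (.cons 0x6529847301 .nil) (.node 0 4 (.cons 0x3049876521 .nil) (.node 1 8 (.cons 0x5674301892 .nil) (.leaf 0x9256743018 2 (.leaf 0x6730498125 2 .done)) .done) .done) (.leaf 0x2983014765 3 .done))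 .done)) .done)) .done)) .done)) (.node 5 8 (.cons 0x1298567430 .nil) (.leaf 0x9210347658 5 (.leaf 0x2985674301 3 (.leaf 0x6743012985 6 (.node 4 9 (.cons 0x5678943012 .nil) (.node 2 4 .nil (.node 1 3 (.cons 0x7658903124 .nil) (.leaf 0x985674213 5 (.leaf 0x7654213098 3 (.leaf 0x9031247658 3 .done))) (.node 2 5 (.cons 0x9876521034 .nil) (.node 3 6 (.cons 0x5412367890 .nil) (.leaf 0x7890365214 6 (.leaf 0x7890365214 0 (.node 1 9 (.cons 0x6521987430 .nil) (.node 0 2 (.cons 0x1987436520 .nil) (.leaf 0x3478910256 2 .done) .done) .done))) (.leaf 0x5210349876 0 .done)) .done)) (.node 5 9 .nil (.node 0 6 (.cons 0x7603412985 (.cons 0x9587603412 .nil)) (.leaf 0x4598760123 1 (.leaf 0x6034129587 0 .done)) (.node 4 8 .nil (.node 3 7 (.cons 0x4856730921 .nil) (.leaf 0x9845673210 2 (.leaf 0x9845673210 1 (.leaf 0x9845673012 3 .done))) (.node 2 4 .nil (.node 1 3 (.cons 0x8742130956 (.cons 0x7658903124 .nil)) (.leaf 0x985674213 5 (.leaf 0x9031247658 3 .done)) (.node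 2 5 (.cons 0x2567894301 .nil) (.node 2 6 (.cons 0x1265987430 .nil) (.leaf 0x5987430126 4 .done) .done) .done)) .done)) .done)) .done)) .done)))) .done))) (.node 0 6 (.cons 0x7892106543 .nil) (.node 3 7 (.cons 0x6543789210 .nil) (.node 3 6 (.cons 0x5412367890 .nil) (.node 1 3 .nil (.node 0 2 (.cons 0x4567890231 .nil) (.leaf 0x4567892013 5 (.leaf 0x6543120987 3 (.node 0 7 (.cons 0x8907632145 (.cons 0x6543107892 .nil)) .done .done))) (.node 3 5 .nil (.node 4 6 (.cons 0x7892103465 (.cons 0x5309876412 .nil)) (.node 1 7 (.cons 0x5643017892 (.cons 0x8714609235 (.cons 0x4653017892 .nil))) .done .done) (.node 3 8 (.cons 0x9067832145 .nil) (.node 3 9 (.cons 0x8760932145 .nil) .done .done) .done)) .done)) (.node 4 6 (.cons 0x7892103465 .nil) (.node 2 4 (.cons 0x8736542901 .nil) (.node 3 8 (.cons 0x7836542901 .nil) (.node 2 5 (.cons 0x1452367890 .nil) (.node 0 5 (.cons 0x2367890541 .nil) (.leaf 0x4509876321 2 (.node 5 9 (.cons 0x8760954123 .nil) (.leaf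 0x954123876 2 .done) .done)) (.node 7 9 (.cons 0x2456387901 .nil) (.leaf 0x6014529783 3 (.leaf 0x1063879254 4 (.leaf 0x978321456 2 (.leaf 0x8365421097 2 .done)))) .done)) (.node 5 9 (.cons 0x4590678321 .nil) (.leaf 0x5906783214 0 (.leaf 0x7609541238 4 (.node 2 5 (.cons 0x6789521430 .nil) (.leaf 0x3412598760 4 (.leaf 0x6452109837 5 .done)) .done))) .done)) .done) (.node 5 7 (.cons 0x1298756430 .nil) (.leaf 0x2987564301 4 (.leaf 0x5789210346 0 (.node 3 8 (.cons 0x2906387541 .nil) (.node 1 3 (.cons 0x8754136092 .nil) (.node 3 5 (.cons 0x5309876412 .nil) .done .done) (.node 5 9 (.cons 0x4590678321 .nil) (.leaf 0x5906783214 0 (.leaf 0x7609541238 4 .done)) .done)) .done))) .done)) .done)) (.leaf 0x8921065437 0 (.node 3 6 (.cons 0x5412367890 .nil) (.node 3 9 (.cons 0x8760932145 .nil) (.node 3 8 (.cons 0x9067832145 .nil) (.node 5 8 (.cons 0x7632145890 .nil) (.leaf 0x5876093214 0 (.leaf 0x7609321458 4 (.node 1 6 (.cons 0x2987345610 .nil) (.leaf 0x923785416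 5 (.node 2 4 (.cons 0x3789245610 .nil) (.leaf 0x7301654298 2 (.leaf 0x3016542987 0 .done)) .done)) .done))) .done) .done) .done) .done))) (.node 3 6 (.cons 0x5412367890 .nil) (.node 3 7 (.cons 0x6543789210 .nil) (.node 5 8 (.cons 0x4589067321 .nil) (.leaf 0x5890673214 0 (.node 4 9 (.cons 0x6378549210 .nil) (.node 3 9 (.cons 0x4589376012 .nil) (.node 0 2 (.cons 0x7602398541 .nil) (.node 0 7 (.cons 0x4985670321 .nil) (.leaf 0x6589412307 0 .done) (.leaf 0x5876392014 5 .done)) .done) (.node 4 6 (.cons 0x7892103465 .nil) (.node 4 7 (.cons 0x2947856301 .nil) (.leaf 0x365874921 2 .done) .done) (.leaf 0x5873601294 6 .done))) (.leaf 0x4376012985 3 (.node 4 8 (.cons 0x5489067321 .nil) (.node 3 8 (.cons 0x7609832145 .nil) (.node 3 9 (.cons 0x2145876390 .nil) (.node 0 2 (.cons 0x9854376021 .nil) (.leaf 0x1458763902 4 (.node 0 8 (.cons 0x7654398012 .nil) .done .done)) .done) .done) (.node 4 6 (.cons 0x7892103465 .nil) (.node 4 7 (.cons 0x4785630921 .nil)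 (.node 5 7 (.cons 0x1298756430 .nil) (.leaf 0x2987564301 4 (.leaf 0x5789210346 0 .done)) .done) .done) .done)) .done)))) (.node 1 6 (.cons 0x2987345610 .nil) (.node 2 6 (.cons 0x8736290145 .nil) (.node 1 9 .nil (.node 0 8 (.cons 0x9263780145 (.cons 0x7809123654 (.cons 0x7608912345 (.cons 0x5419087632 .nil)))) .done (.node 1 3 (.cons 0x4562987310 .nil) (.node 3 8 (.cons 0x7389260145 .nil) (.node 3 9 .nil (.node 0 4 (.cons 0x3789265401 (.cons 0x8739265401 (.cons 0x7893104562 .nil))) (.leaf 0x9876540123 5 .done) .done) .done) .done) .done)) .done) (.node 2 4 (.cons 0x3789245610 .nil) (.leaf 0x7301654298 2 (.leaf 0x3016542987 0 .done)) .done)) .done)) (.node 3 7 (.cons 0x6543789210 .nil) (.node 3 8 (.cons 0x7609832145 .nil) (.node 5 7 (.cons 0x8906754123 .nil) (.node 2 4 (.cons 0x4298756301 .nil) (.leaf 0x7563014298 2 (.leaf 0x5630142987 0 .done)) (.leaf 0x3890675412 0 (.node 5 8 (.cons 0x9857603412 .nil) (.node 1 8 (.cons 0x4563781092 .nil) (.node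 6 8 (.cons 0x9068375412 .nil) (.leaf 0x4129068375 3 .done) .done) (.leaf 0x3760985412 0 .done)) .done))) (.node 5 7 (.cons 0x4576098321 .nil) (.leaf 0x8921067543 2 (.leaf 0x6098321457 4 (.node 4 7 (.cons 0x5476098321 .nil) (.node 0 7 (.cons 0x6075438921 .nil) (.node 0 2 (.cons 0x9834576021 .nil) (.node 1 9 (.cons 0x2198345760 .nil) (.node 0 5 (.cons 0x2367890541 .nil) (.leaf 0x4509876321 2 (.node 5 9 (.cons 0x8763209541 .nil) .done .done)) (.leaf 0x6754389120 3 .done)) .done) .done) .done) .done))) .done)) (.node 3 8 (.cons 0x7609832145 .nil) (.node 3 9 .nil (.node 5 8 (.cons 0x4589067321 (.cons 0x4589376012 .nil)) (.leaf 0x4376012985 3 (.leaf 0x9321458760 2 .done)) (.node 3 5 .nil (.node 0 2 (.cons 0x9876354102 .nil) (.leaf 0x3541029876 0 (.leaf 0x7635412098 2 (.leaf 0x5367892014 5 .done))) (.node 0 5 (.cons 0x2367890541 .nil) (.leaf 0x4509876321 2 (.node 1 3 (.cons 0x6789054132 .nil) .done .done)) .done)) .done)) .done) .done)) .done)) (.node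 3 7 (.cons 0x6543789210 .nil) (.node 3 6 (.cons 0x5412367890 .nil) (.node 0 7 (.cons 0x8907632145 .nil) (.node 0 8 (.cons 0x9210873456 .nil) (.node 6 9 (.cons 0x8734569210 .nil) (.leaf 0x3780129654 5 (.node 0 5 (.cons 0x6789054123 .nil) (.leaf 0x4123678905 1 (.node 6 8 (.cons 0x9867054321 .nil) (.leaf 0x2145098673 3 (.node 0 2 (.cons 0x9654378021 .nil) (.node 0 4 (.cons 0x9210456873 .nil) .done .done) .done)) .done)) .done)) .done) .done) .done) (.leaf 0x9873456012 5 (.node 3 6 (.cons 0x5412367890 .nil) (.node 2 4 (.cons 0x8736542901 .nil) (.node 4 7 .nil (.node 1 8 (.cons 0x4563781092 .nil) (.leaf 0x7365429018 6 (.leaf 0x6329018745 6 (.leaf 0x7812903654 6 .done))) (.node 1 8 (.cons 0x3654781290 .nil) (.leaf 0x7365429018 6 (.node 4 6 (.cons 0x5642901873 .nil) (.node 4 9 (.cons 0x5678943012 .nil) (.node 3 5 (.cons 0x1876532490 .nil) (.leaf 0x1094235678 0 (.leaf 0x8109423567 2 .done)) .done) .done) (.leaf 0x7812903654 6 .done))) .done)) (.node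 4 6 (.cons 0x7892103465 .nil) (.node 4 9 (.cons 0x5678943012 .nil) (.node 5 7 (.cons 0x1298756430 .nil) (.node 2 5 (.cons 0x2567894301 .nil) (.node 4 7 (.cons 0x8749256301 .nil) .done .done) (.leaf 0x2987564301 4 (.node 4 8 (.cons 0x4875630921 .nil) (.leaf 0x365784129 3 .done) .done))) .done) .done) .done)) (.node 0 7 (.cons 0x8907632145 .nil) (.node 3 9 (.cons 0x8701293456 .nil) (.node 2 5 (.cons 0x6789345210 .nil) (.leaf 0x7893452106 2 (.node 6 8 (.cons 0x7689345210 .nil) (.leaf 0x1254398670 3 (.leaf 0x1254398670 4 (.leaf 0x2934568701 6 .done))) (.leaf 0x9876012543 1 .done))) .done) (.node 0 8 .nil (.node 1 9 (.cons 0x7654321980 .nil) (.leaf 0x4321980765 1 (.leaf 0x8912345670 2 .done)) (.node 0 5 (.cons 0x6789054123 .nil) (.leaf 0x4123678905 1 (.node 0 2 (.cons 0x6543789201 .nil) (.node 0 4 .nil (.node 1 6 (.cons 0x2987345610 (.cons 0x8732904561 (.cons 0x5610437892 .nil))) (.leaf 0x8904561237 2 .done) .done) .done) .done)) .done)) .done))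 .done)) .done))) .done))) (.leaf 0x1298765430 2 (.node 3 6 (.cons 0x5412367890 .nil) tc9_7_0 .done))))
noncomputable def uc9_7_0 : T := tc9_7_1
theorem sub_c9_7_0 : root 9 refs9_7 [] 0x800000003807000000007060000000060500000000504000000004030500000030104000000102000000502013000004010 0xfef7fe7fff3fff9fffcfffc7ffe5fff9ffd9ffe5 9 2 9 (.cons 0x3456789210 .nil) uc9_7_0 = true := by decide +kernel
noncomputable def tc9_7_2 : T := (.node 0 2 .nil (.node 1 9 (.cons 0x1987654320 .nil) (.leaf 0x8765430219 5 (.leaf 0x6543201987 1 (.leaf 0x4567891023 5 .done))) (.node 2 4 .nil (.node 3 5 (.cons 0x4356789210 .nil) (.node 1 6 (.cons 0x5423098761 .nil) (.node 0 5 (.cons 0x6789054123 (.cons 0x3429876501 .nil)) (.leaf 0x2167890543 3 .done) (.leaf 0x2453098761 5 (.leaf 0x7890354216 6 (.leaf 0x4216789035 3 .done)))) (.leaf 0x9012435678 0 (.leaf 0x8901243567 2 (.node 1 6 (.cons 0x2354167890 (.cons 0x5324167890 (.cons 0x9876103542 .nil))) (.leaf 0x9035421678 5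 .done) .done)))) (.node 0 4 (.cons 0x5678921043 .nil) (.node 0 5 (.cons 0x6789054123 .nil) (.node 3 5 (.cons 0x4356789210 .nil) (.node 0 8 (.cons 0x9210876534 .nil) (.node 0 6 .nil (.node 1 9 (.cons 0x8765409123 (.cons 0x7891234560 .nil)) (.leaf 0x4321987605 1 .done) (.node 0 7 .nil (.node 1 5 (.cons 0x5143298760 (.cons 0x9807651234 .nil)) (.leaf 0x2987605143 1 .done) .done) .done)) (.node 1 9 (.cons 0x5678043291 .nil) (.leaf 0x2435678019 0 (.leaf 0x4190876235 2 .done)) .done)) (.leaf 0x4012987653 0 (.node 2 5 (.cons 0x6789253410 .nil) (.node 0 6 (.cons 0x7892435601 .nil) (.leaf 0x1067892534 2 (.node 1 9 (.cons 0x3254198760 .nil) (.leaf 0x6032541987 2 (.leaf 0x325419876 0 .done)) .done)) .done) .done))) (.node 0 6 (.cons 0x5067892341 .nil) (.node 0 7 .nil (.node 1 9 (.cons 0x8765043291 (.cons 0x8912345670 (.cons 0x6543219870 .nil))) .done .done) .done) .done)) (.node 1 5 (.cons 0x1567892340 .nil) (.leaf 0x9876510432 0 (.leaf 0x9234015678 6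 (.leaf 0x8923401567 5 (.node 0 6 (.cons 0x5140678923 .nil) (.node 2 5 (.cons 0x9876041523 .nil) .done .done) .done)))) .done)) .done)) (.node 2 4 .nil (.node 3 5 (.cons 0x4356789210 .nil) (.node 1 6 (.cons 0x5423098761 .nil) (.node 0 5 (.cons 0x6789054123 (.cons 0x3429876501 .nil)) (.leaf 0x2167890543 4 .done) (.leaf 0x2453098761 5 (.leaf 0x7890354216 6 (.leaf 0x4216789035 3 .done)))) (.leaf 0x9012435678 0 (.leaf 0x8901243567 2 (.node 1 6 (.cons 0x2354167890 (.cons 0x5324167890 (.cons 0x9876103542 .nil))) (.leaf 0x9035421678 5 .done) .done)))) (.node 2 5 .nil (.node 4 6 (.cons 0x5467890321 (.cons 0x5298764301 (.cons 0x3098764521 .nil))) .done (.node 4 6 (.cons 0x5467890321 .nil) (.node 1 9 (.cons 0x1987645230 .nil) (.leaf 0x6452301987 1 (.leaf 0x5467891032 5 .done)) (.node 3 9 (.cons 0x1254678930 .nil) (.node 2 7 (.cons 0x8934567210 .nil) (.node 0 8 (.cons 0x7654398012 .nil) (.leaf 0x1089345672 2 (.leaf 0x4398012765 1 .done)) .done) (.leaf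 0x125467893 0 (.leaf 0x8764521039 3 .done))) .done)) .done)) .done)) .done))) (.node 0 2 .nil (.node 1 9 (.cons 0x1987654320 .nil) (.leaf 0x8765430219 5 (.leaf 0x6543201987 1 (.leaf 0x4567891023 5 .done))) (.node 2 4 .nil (.node 3 5 (.cons 0x4356789210 .nil) (.node 6 9 (.cons 0x8769035421 .nil) (.node 5 8 (.cons 0x9854301267 (.cons 0x2967853410 (.cons 0x9678543021 .nil))) (.leaf 0x9201435876 2 (.leaf 0x5876903214 0 .done)) (.node 2 8 (.cons 0x3542876901 (.cons 0x9678245301 .nil)) (.leaf 0x9014532876 2 .done) .done)) (.leaf 0x9012435678 0 (.leaf 0x8901243567 2 (.node 1 6 (.cons 0x2354167890 (.cons 0x5324167890 (.cons 0x9876103542 .nil))) (.leaf 0x3016789245 5 .done) .done)))) (.node 2 5 .nil (.node 1 6 (.cons 0x3254167890 .nil) (.node 0 5 (.cons 0x6789250143 .nil) (.leaf 0x2167890543 4 (.leaf 0x2167890543 3 .done)) (.leaf 0x3016789254 5 (.leaf 0x8761254309 5 (.leaf 0x8761034529 5 .done)))) (.node 0 4 (.cons 0x5678921043 .nil) (.node 2 7 .nil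 (.node 3 8 (.cons 0x7654098321 (.cons 0x9834012765 (.cons 0x5672983401 .nil))) (.leaf 0x1276543890 3 .done) (.node 2 8 .nil (.node 3 7 (.cons 0x8904567321 (.cons 0x9821043765 (.cons 0x5410982673 .nil))) (.node 3 6 (.cons 0x5412367890 .nil) (.leaf 0x2109873654 1 (.leaf 0x124563789 2 .done)) .done) .done) .done)) (.node 1 5 (.cons 0x1567892340 .nil) (.leaf 0x9876510432 0 (.leaf 0x9234015678 6 (.leaf 0x8923401567 5 .done))) .done)) .done)) .done)) (.node 2 4 .nil (.node 3 5 (.cons 0x4356789210 .nil) (.node 0 5 (.cons 0x6789054123 (.cons 0x3429876501 .nil)) (.node 3 6 (.cons 0x5412367890 .nil) (.leaf 0x6321450987 0 (.node 1 5 (.cons 0x7892015634 (.cons 0x7892436510 (.cons 0x9876301542 .nil))) .done .done)) .done) (.leaf 0x9012435678 0 (.leaf 0x8901243567 2 (.node 1 6 (.cons 0x2354167890 (.cons 0x5324167890 (.cons 0x9876103542 .nil))) (.leaf 0x3016789245 5 .done) .done)))) (.node 2 5 .nil (.node 4 6 (.cons 0x5467890321 (.cons 0x5298764301 (.cons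 0x3098764521 .nil))) .done (.node 4 6 (.cons 0x5467890321 .nil) (.node 1 9 (.cons 0x1987645230 .nil) (.leaf 0x6452301987 1 (.leaf 0x5467891032 5 .done)) (.node 3 9 (.cons 0x1254678930 .nil) (.node 2 7 (.cons 0x8934567210 .nil) (.node 0 8 (.cons 0x7654398012 .nil) (.leaf 0x1089345672 2 (.leaf 0x4398012765 1 .done)) .done) (.leaf 0x125467893 0 (.leaf 0x8764521039 3 .done))) .done)) .done)) .done)) .done))) (.node 5 9 (.cons 0x6789543012 .nil) (.node 1 9 .nil (.node 0 5 (.cons 0x6789054123 (.cons 0x3267891450 .nil)) (.node 4 8 (.cons 0x9210567843 (.cons 0x1923487650 (.cons 0x9126784503 .nil))) (.leaf 0x5091234876 2 .done) (.leaf 0x9876230541 3 .done)) (.node 3 9 .nil (.node 0 8 (.cons 0x4567809321 .nil) (.leaf 0x6780129345 3 (.leaf 0x9321456780 1 (.node 2 7 (.cons 0x8954301276 (.cons 0x8012765934 .nil)) (.leaf 0x1089345672 2 .done) (.leaf 0x7654392108 5 .done)))) (.node 4 9 (.cons 0x5498762103 .nil) (.node 6 9 .nil (.node 3 5 (.cons 0x4356789210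 (.cons 0x7896210354 .nil)) (.node 2 8 (.cons 0x7826935410 .nil) (.leaf 0x1035496782 0 (.leaf 0x7694530128 3 .done)) .done) .done) .done) .done)) .done)) (.leaf 0x4301267895 0 (.node 3 9 .nil (.node 0 4 (.cons 0x5678921043 (.cons 0x8765409321 .nil)) (.leaf 0x9876540123 2 (.leaf 0x9876540123 5 (.node 0 8 (.cons 0x1459326780 .nil) (.leaf 0x6780129345 3 (.leaf 0x9321456780 1 (.node 1 5 (.cons 0x1567892340 (.cons 0x4159326780 (.cons 0x7623980415 .nil))) (.leaf 0x8923401567 5 (.leaf 0x8762395140 3 .done)) .done))) .done))) (.node 3 5 (.cons 0x4356789210 .nil) (.node 4 9 (.cons 0x8765349210 .nil) (.leaf 0x2103549876 4 (.node 6 9 .nil (.node 2 8 (.cons 0x7654398210 .nil) (.leaf 0x9014532876 2 (.leaf 0x7694530128 3 .done)) .done) .done)) (.node 6 9 (.cons 0x7896210354 .nil) (.node 4 9 (.cons 0x5498762103 .nil) (.node 1 9 .nil (.node 0 4 (.cons 0x5678921043 (.cons 0x8762304591 (.cons 0x5403267891 .nil))) (.node 0 7 (.cons 0x3541269870 (.cons 0x8912340765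 (.cons 0x6235419870 .nil))) (.leaf 0x6214530789 5 .done) .done) .done) .done) .done) .done)) (.node 0 7 (.cons 0x6543987012 .nil) (.node 2 7 (.cons 0x6543987210 .nil) (.node 2 8 (.cons 0x6287014593 .nil) (.node 4 8 (.cons 0x6548709321 .nil) (.node 1 9 (.cons 0x1932654870 .nil) (.leaf 0x6548701932 4 .done) (.node 1 9 (.cons 0x3912654870 .nil) (.node 4 9 (.cons 0x5498762103 .nil) .done .done) .done)) .done) .done) (.node 1 9 .nil (.node 0 8 (.cons 0x9123456780 .nil) (.leaf 0x2345670891 5 (.leaf 0x5432190876 2 (.leaf 0x3219807654 6 .done))) (.node 4 9 (.cons 0x5498762103 .nil) (.node 0 8 (.cons 0x7654321980 .nil) (.node 6 9 .nil (.node 3 7 (.cons 0x1459623780 .nil) (.leaf 0x5410873269 3 (.leaf 0x3780129654 0 .done)) .done) (.leaf 0x3219807654 6 .done)) .done) .done)) (.leaf 0x8934562107 5 .done))) .done))) (.node 2 7 .nil (.node 6 9 (.cons 0x8967210345 .nil) (.leaf 0x1278965430 6 (.leaf 0x1278965430 0 .done)) (.node 0 2 (.cons 0x6789543021 .nil)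 (.node 2 5 .nil (.node 1 6 (.cons 0x2167895430 .nil) (.leaf 0x3016789254 5 (.leaf 0x9032541678 2 (.leaf 0x8761254309 5 .done))) (.node 2 4 .nil (.node 0 5 (.cons 0x6789054123 (.cons 0x3429876501 .nil)) (.node 1 6 (.cons 0x2167895430 (.cons 0x8761245903 (.cons 0x5987612430 .nil))) (.leaf 0x3421678950 1 .done) .done) .done) .done)) (.node 2 5 .nil (.node 1 6 (.cons 0x2167895430 .nil) (.leaf 0x3016789254 5 (.leaf 0x9032541678 2 (.leaf 0x8761254309 5 .done))) (.node 2 4 .nil (.node 0 5 (.cons 0x6789054123 (.cons 0x3429876501 .nil)) (.node 1 6 (.cons 0x2167895430 (.cons 0x8761245903 (.cons 0x5987612430 .nil))) (.leaf 0x3421678950 1 .done) .done) .done) .done)) .done)) (.node 2 8 .nil (.node 6 9 (.cons 0x7698210345 .nil) (.leaf 0x1034596782 0 (.node 2 5 (.cons 0x9678254301 (.cons 0x7698254301 .nil)) (.node 0 6 (.cons 0x3452789601 (.cons 0x9543067821 (.cons 0x7603459821 .nil))) (.node 1 6 (.cons 0x3452789610 (.cons 0x9610345287 (.cons 0x7612895430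 .nil))) .done .done) .done) .done)) (.node 7 9 .nil (.node 6 9 (.cons 0x3456978210 .nil) (.leaf 0x2103456978 5 (.leaf 0x1287965430 0 .done)) (.node 6 9 .nil (.node 0 5 (.cons 0x6789054123 (.cons 0x8769054123 (.cons 0x8967210543 (.cons 0x6987210543 .nil)))) (.node 1 9 (.cons 0x3267891450 .nil) (.leaf 0x6230541987 5 (.leaf 0x2678914503 6 .done)) .done) (.node 5 7 (.cons 0x8967543012 .nil) (.node 0 7 (.cons 0x7012896543 .nil) (.node 3 7 (.cons 0x7345698210 .nil) .done .done) (.leaf 0x128967543 5 .done)) .done)) .done)) .done)) .done))) .done)))) .done)))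
noncomputable def tc9_7_3 : T := (.node 3 6 (.cons 0x5436789210 .nil) (.node 3 8 (.cons 0x9054123876 .nil) (.node 6 9 (.cons 0x8769054123 .nil) (.node 0 8 (.cons 0x9087632145 .nil) (.node 5 9 (.cons 0x8763459210 .nil) (.node 2 6 (.cons 0x9876210345 .nil) (.node 4 7 (.cons 0x3478956210 .nil) (.leaf 0x1087436592 1 (.leaf 0x3478012956 2 (.leaf 0x8956210347 3 .done))) (.leaf 0x4301267895 0 .done)) (.leaf 0x7632145908 4 (.leaf 0x7632145908 3 .done))) (.node 0 7 .nil (.node 1 7 (.cons 0x8321709654 (.cons 0x4569832170 .nil)) (.leaf 0x9654321708 3 .done) (.node 0 6 .nil (.node 1 5 (.cons 0x6789032154 (.cons 0x7608923451 (.cons 0x9870651234 (.cons 0x9876032154 .nil)))) .done .done) .done)) .done)) (.leaf 0x2145096783 5 (.leaf 0x543876921 1 (.leaf 0x4501296783 5 .done)))) (.node 3 7 .nil (.node 6 8 (.cons 0x5437689210 .nil) (.leaf 0x4501298673 2 (.leaf 0x5012986734 0 (.leaf 0x4123768905 2 (.leaf 0x4123768905 5 .done)))) (.node 4 9 (.cons 0x4905678321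 .nil) (.leaf 0x6501294387 0 (.node 2 8 (.cons 0x2873654901 .nil) (.leaf 0x6549012873 3 (.leaf 0x6549012873 4 .done)) (.node 4 6 (.cons 0x5467890321 .nil) (.node 5 7 (.cons 0x5764389210 .nil) (.leaf 0x8921057643 0 (.node 7 9 (.cons 0x8346792105 .nil) (.node 0 7 .nil (.node 1 8 (.cons 0x9218346750 (.cons 0x5643218970 (.cons 0x5076492381 .nil))) .done .done) .done) .done)) (.node 6 9 (.cons 0x8769054123 .nil) (.leaf 0x2105438769 1 (.node 4 8 (.cons 0x5096784123 .nil) (.node 0 7 (.cons 0x9650784321 .nil) (.node 1 9 (.cons 0x7843219650 .nil) (.leaf 0x6321907845 4 (.leaf 0x8432196507 0 .done)) .done) .done) .done)) .done)) (.leaf 0x8765094123 3 .done)))) .done)) (.node 3 7 .nil (.node 2 6 (.cons 0x9267834501 (.cons 0x5410983762 .nil)) (.leaf 0x1098734562 2 (.node 1 9 (.cons 0x6783450192 (.cons 0x8376291054 .nil)) (.leaf 0x543876291 3 (.leaf 0x2678345019 0 .done)) .done)) (.node 1 6 (.cons 0x4509238761 .nil) (.leaf 0x3290541678 2 (.node 0 7 .nil (.node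 1 9 (.cons 0x6783450192 (.cons 0x8912345670 (.cons 0x6543219870 .nil))) .done (.node 0 6 .nil (.node 1 5 (.cons 0x6789032154 (.cons 0x7601543892 (.cons 0x6078923451 (.cons 0x9876032154 .nil)))) .done (.node 5 7 (.cons 0x2983457601 .nil) (.leaf 0x6012983457 5 (.leaf 0x4576012983 6 .done)) .done)) .done)) (.node 0 7 .nil (.node 3 9 (.cons 0x4501678392 (.cons 0x8934567012 (.cons 0x4561239870 .nil))) .done (.node 3 9 (.cons 0x4501678392 .nil) (.node 2 8 (.cons 0x7654398210 .nil) (.node 4 9 (.cons 0x5498761230 .nil) (.leaf 0x8210945637 0 (.leaf 0x8736549012 6 (.leaf 0x2873654901 5 .done))) (.leaf 0x6543982107 2 (.leaf 0x6543982107 5 .done))) (.node 2 6 (.cons 0x7893456210 .nil) (.leaf 0x4162398705 3 (.leaf 0x3987012654 1 .done)) .done)) .done)) .done))) .done)) .done))) (.leaf 0x4501298763 2 (.leaf 0x7892105436 2 (.node 3 8 (.cons 0x9054123876 .nil) (.node 6 9 (.cons 0x8769054123 .nil) (.node 3 9 .nil (.node 4 6 (.cons 0x5467890321 .nil) (.leaf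 0x1293876450 1 (.leaf 0x9210546783 5 .done)) (.node 1 9 (.cons 0x8763450192 .nil) (.node 0 6 (.cons 0x7891234560 .nil) (.node 0 7 (.cons 0x6543219870 .nil) (.leaf 0x3219870654 2 .done) .done) .done) .done)) (.leaf 0x2145096783 5 (.leaf 0x4501296783 5 .done))) (.node 1 8 (.cons 0x4509236781 .nil) (.leaf 0x3290541876 2 (.node 2 8 (.cons 0x9287634501 .nil) (.node 1 5 (.cons 0x2987634510 .nil) (.node 6 8 (.cons 0x7689032154 .nil) (.node 2 5 (.cons 0x1452367890 .nil) (.node 2 7 (.cons 0x8927634510 .nil) (.leaf 0x5127689034 5 (.leaf 0x8672154309 5 .done)) .done) .done) (.node 0 2 (.cons 0x5436789201 .nil) (.leaf 0x1543678920 0 (.leaf 0x9876345102 3 .done)) .done)) .done) .done)) .done)) .done)))) (.node 3 6 (.cons 0x5436789210 .nil) (.leaf 0x4123678905 4 (.node 3 7 (.cons 0x8905412376 .nil) (.node 6 8 (.cons 0x7689054123 .nil) (.leaf 0x2145098673 3 (.node 0 7 (.cons 0x9867054123 .nil) (.node 1 7 (.cons 0x9867123054 .nil) (.node 2 7 .nil (.node 1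 8 (.cons 0x5436729810 .nil) (.node 4 6 (.cons 0x5467890321 (.cons 0x9032187645 (.cons 0x3298176450 (.cons 0x8129054673 .nil)))) .done (.leaf 0x1892763450 0 (.leaf 0x9276345018 4 .done))) .done) .done) (.node 4 7 (.cons 0x9867450321 .nil) (.node 1 3 (.cons 0x3129867450 .nil) (.node 0 2 (.cons 0x5470298631 .nil) (.leaf 0x1365478902 2 (.leaf 0x9874563120 2 (.node 1 5 (.cons 0x2986315470 .nil) (.leaf 0x9863154702 0 (.leaf 0x9863154702 6 .done)) .done))) (.leaf 0x8674503129 4 .done)) .done) .done)) (.leaf 0x543768921 4 (.leaf 0x4501298673 3 .done)))) (.node 4 8 (.cons 0x4890567321 .nil) (.leaf 0x9210567348 0 (.leaf 0x3765012984 3 (.node 0 7 (.cons 0x8907632145 .nil) (.node 1 7 (.cons 0x5489036712 .nil) (.node 2 7 (.cons 0x5489036721 .nil) .done .done) (.node 5 8 (.cons 0x7634589210 .nil) (.leaf 0x9854367012 2 (.leaf 0x4123670985 2 (.node 4 7 .nil (.node 1 3 (.cons 0x4890567312 (.cons 0x8547631092 (.cons 0x6509847312 .nil))) .done (.node 1 7 (.cons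 0x2985436710 .nil) (.node 1 8 (.cons 0x1854763290 .nil) (.leaf 0x6745810923 0 (.leaf 0x7632901854 5 .done)) .done) .done)) .done))) .done)) .done))) (.node 0 7 (.cons 0x8907632145 .nil) (.node 5 8 (.cons 0x7634589210 .nil) (.node 6 9 (.cons 0x6907854123 .nil) (.node 3 5 (.cons 0x6907853214 .nil) (.node 4 8 (.cons 0x5348769210 .nil) (.leaf 0x3509678412 2 (.leaf 0x5096784123 0 .done)) .done) (.leaf 0x785436921 2 (.leaf 0x7854369210 0 .done))) (.leaf 0x6701298543 2 (.leaf 0x6321458907 5 (.leaf 0x6321458907 2 .done)))) (.node 7 9 .nil (.node 1 8 (.cons 0x6734501892 (.cons 0x6507981234 (.cons 0x4321897650 (.cons 0x6798123054 .nil)))) .done (.node 4 7 .nil (.node 1 8 (.cons 0x6734501892 (.cons 0x7456321890 (.cons 0x9812347650 (.cons 0x9812305476 .nil)))) .done (.node 5 7 .nil (.node 4 8 (.cons 0x4890756321 .nil) (.leaf 0x2148905763 3 (.leaf 0x5763012984 4 (.leaf 0x4892105763 0 .done))) (.node 1 7 .nil (.node 4 8 (.cons 0x3675489210 (.cons 0x7123654890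 (.cons 0x5489036712 .nil))) (.leaf 0x5763012984 4 .done) .done) .done)) .done)) .done)) .done)) .done))) (.leaf 0x6321450987 0 (.node 3 7 (.cons 0x8905412376 .nil) (.node 6 8 (.cons 0x7689054123 .nil) (.leaf 0x2145098673 3 (.node 2 8 (.cons 0x7632890541 .nil) (.node 1 7 (.cons 0x8905417632 .nil) (.leaf 0x982367145 5 (.leaf 0x9054176328 0 .done)) (.node 1 8 (.cons 0x7634501892 .nil) (.node 2 7 (.cons 0x8927634501 .nil) (.leaf 0x5018927634 3 .done) .done) .done)) (.leaf 0x4501298673 3 .done))) (.node 4 8 (.cons 0x4890567321 .nil) (.leaf 0x9210567348 0 (.leaf 0x3765012984 3 (.node 3 8 .nil (.node 1 7 (.cons 0x8905417632 (.cons 0x2905483671 (.cons 0x4501763892 .nil))) .done (.node 3 5 (.cons 0x6735098412 .nil) (.node 2 5 (.cons 0x1452367890 .nil) (.leaf 0x8901452367 3 (.node 1 3 (.cons 0x4529876310 .nil) (.node 3 9 (.cons 0x6739841250 .nil) .done .done) .done)) .done) .done)) .done))) .done)) .done)))) (.node 3 6 (.cons 0x5436789210 .nil) (.leaf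 0x2105436789 3 (.node 0 7 (.cons 0x8907632145 .nil) (.node 5 8 (.cons 0x7634589210 .nil) (.leaf 0x6701298543 2 (.leaf 0x6321458907 5 (.leaf 0x6321458907 2 .done))) (.node 5 8 (.cons 0x7634589210 .nil) (.node 4 7 (.cons 0x3674589210 .nil) (.leaf 0x6301298547 6 (.node 7 9 (.cons 0x4589763012 .nil) (.node 4 9 (.cons 0x5894123670 .nil) (.leaf 0x8941236705 2 (.node 1 6 (.cons 0x5612349870 .nil) (.node 1 8 (.cons 0x5816329470 .nil) (.leaf 0x2905478163 3 (.leaf 0x923618745 4 .done)) (.leaf 0x2349870561 3 (.leaf 0x5078943216 0 .done))) .done)) .done) (.leaf 0x8547630129 3 .done))) (.leaf 0x763458921 0 (.node 1 7 (.cons 0x4589036712 .nil) (.node 0 8 (.cons 0x9217634580 .nil) (.leaf 0x7634580921 3 .done) (.node 2 4 (.cons 0x9854217630 .nil) (.leaf 0x1763098542 0 (.node 2 7 (.cons 0x3672145890 .nil) (.node 0 2 .nil (.node 0 8 (.cons 0x9802367145 .nil) .done .done) .done) (.leaf 0x5890367124 3 .done))) .done)) .done))) (.node 5 8 (.cons 0x7634589210 .nil)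 (.leaf 0x4123670985 2 (.node 0 8 .nil (.node 7 9 (.cons 0x2976345801 .nil) (.leaf 0x4567980123 1 (.leaf 0x9763458012 0 (.leaf 0x6345801297 4 .done))) (.node 0 6 .nil (.node 3 7 (.cons 0x2985437601 .nil) (.leaf 0x2378906541 2 (.leaf 0x673458921 3 (.leaf 0x6012985437 5 .done))) (.node 1 9 (.cons 0x1923458760 .nil) (.leaf 0x4587601923 3 (.leaf 0x4587601923 4 (.node 0 2 (.cons 0x7634589201 .nil) (.node 0 4 (.cons 0x5678912340 .nil) .done .done) .done))) .done)) .done)) (.node 0 8 .nil (.node 7 9 (.cons 0x1297634580 .nil) (.leaf 0x4567980123 1 (.leaf 0x2976345801 2 (.leaf 0x1450897632 3 .done))) (.node 0 6 .nil (.node 3 7 (.cons 0x1298543760 .nil) (.leaf 0x4589210673 2 (.leaf 0x4560129873 2 (.leaf 0x6012985437 2 .done))) (.node 3 9 (.cons 0x1293458760 .nil) (.leaf 0x8541239067 0 (.leaf 0x2106785439 2 (.leaf 0x4587601293 2 .done))) .done)) .done)) .done))) .done))) (.node 4 7 (.cons 0x4789056321 .nil) (.leaf 0x3650129874 2 (.node 3 7 .nil (.node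 2 4 (.cons 0x8901245673 (.cons 0x6542109873 .nil)) (.node 0 4 (.cons 0x8904567321 .nil) (.node 4 6 (.cons 0x5098736412 .nil) (.leaf 0x9210564378 0 .done) .done) (.leaf 0x7890124563 2 .done)) (.node 0 7 .nil (.node 5 8 (.cons 0x6709854123 .nil) (.leaf 0x6321458907 0 (.leaf 0x7632145890 2 (.leaf 0x7012985436 5 (.leaf 0x7012985436 2 .done)))) (.node 2 7 (.cons 0x9872105634 .nil) (.node 1 7 .nil (.node 0 4 (.cons 0x8904567123 .nil) (.leaf 0x2178904563 2 (.leaf 0x2178904563 1 .done)) .done) .done) .done)) .done)) (.node 3 7 .nil (.node 2 4 (.cons 0x3650987421 (.cons 0x8905637421 (.cons 0x6542109873 .nil))) (.leaf 0x7890124563 2 .done) (.node 3 5 (.cons 0x6350987412 .nil) (.node 1 3 (.cons 0x4789056312 .nil) (.node 3 9 .nil (.node 2 4 (.cons 0x5631247890 (.cons 0x8765421093 (.cons 0x8739012456 .nil))) (.leaf 0x1243987650 2 .done) (.node 3 8 .nil (.node 0 2 (.cons 0x9874365021 (.cons 0x9021387456 (.cons 0x4765389021 .nil))) (.leaf 0x2098356741 0 .done)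 .done) .done)) .done) (.node 2 6 (.cons 0x1453267890 .nil) (.leaf 0x145326789 0 (.leaf 0x9014532678 2 (.node 5 9 (.cons 0x3621478950 .nil) (.node 2 5 (.cons 0x4109876352 .nil) (.node 4 8 (.cons 0x4876352901 .nil) (.leaf 0x3529014876 5 (.leaf 0x5367841092 0 .done)) .done) (.leaf 0x362147895 0 .done)) .done))) .done)) (.node 3 8 .nil (.node 1 6 (.cons 0x6145098732 (.cons 0x6129054783 .nil)) (.node 0 7 (.cons 0x8921634705 (.cons 0x9834705612 .nil)) (.leaf 0x743892165 0 .done) (.leaf 0x5478361290 0 .done)) (.node 1 3 (.cons 0x4789056312 .nil) (.node 3 5 (.cons 0x6350987412 .nil) (.node 2 8 (.cons 0x5367412890 .nil) (.node 3 9 (.cons 0x6509312874 .nil) .done (.leaf 0x1476350982 5 .done)) .done) (.node 3 9 .nil (.node 1 6 (.cons 0x6145098732 (.cons 0x2165478390 .nil)) (.node 2 6 (.cons 0x9873261450 (.cons 0x1265478390 .nil)) (.leaf 0x3450162987 0 .done) .done) .done) .done)) .done)) .done))) .done))) (.leaf 0x4509876321 2 .done)))) (.node 1 6 (.cons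 0x1678923450 .nil) (.leaf 0x2345016789 0 (.leaf 0x9234501678 2 (.node 2 6 (.cons 0x3267890541 .nil) (.node 0 6 .nil (.node 1 9 (.cons 0x8762910543 (.cons 0x7891234560 .nil)) (.leaf 0x6054321987 2 .done) (.node 3 6 (.cons 0x5436789210 .nil) (.node 4 6 (.cons 0x5467890321 .nil) (.node 6 9 .nil (.node 3 8 (.cons 0x9267834501 (.cons 0x7832690541 .nil)) (.leaf 0x9678345012 1 .done) .done) .done) .done) .done)) (.node 0 6 .nil (.node 3 7 (.cons 0x8926734501 .nil) (.leaf 0x4560129873 2 (.leaf 0x8921065437 2 (.leaf 0x987321456 1 .done))) (.node 3 6 (.cons 0x5436789210 .nil) (.node 4 6 (.cons 0x5467890321 .nil) (.node 6 9 .nil (.node 0 2 (.cons 0x5436789201 (.cons 0x7896143205 .nil)) (.node 0 7 (.cons 0x1234569870 .nil) (.leaf 0x4569870123 5 .done) .done) .done) .done) .done) .done)) (.node 1 9 (.cons 0x3267891450 .nil) (.leaf 0x6230541987 5 (.leaf 0x2678914503 6 .done)) .done))) (.node 0 4 (.cons 0x9876123045 .nil) (.node 0 7 .nil (.node 1 9 (.cons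 0x8765409123 (.cons 0x8912345670 (.cons 0x6543219870 .nil))) (.node 3 9 (.cons 0x2398761450 (.cons 0x8934567012 (.cons 0x4561239870 .nil))) (.leaf 0x6540789321 5 .done) .done) (.node 0 6 .nil (.node 1 9 (.cons 0x8765409123 (.cons 0x7891234560 (.cons 0x5067891432 .nil))) (.leaf 0x6054321987 2 .done) (.node 1 7 (.cons 0x8923450671 .nil) (.node 3 7 (.cons 0x8906732145 .nil) (.node 0 2 (.cons 0x9876145023 .nil) (.node 0 8 .nil (.node 1 5 (.cons 0x6789032154 (.cons 0x4516732980 (.cons 0x7329806154 .nil))) .done .done) .done) .done) .done) .done)) .done)) (.node 1 8 (.cons 0x7654098123 .nil) (.node 3 7 (.cons 0x8904567321 .nil) (.node 1 7 (.cons 0x8904567123 .nil) (.node 0 7 .nil (.node 1 3 (.cons 0x6789054132 (.cons 0x8923167054 .nil)) .done .done) .done) (.leaf 0x981237654 3 (.node 0 8 (.cons 0x5408923761 .nil) (.node 3 8 (.cons 0x7654098321 .nil) .done .done) .done))) (.node 1 7 (.cons 0x9817650432 .nil) (.node 0 7 (.cons 0x9812340765 .nil) (.node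 3 7 (.cons 0x8904567321 .nil) (.leaf 0x6540981237 2 .done) .done) .done) .done)) (.node 3 7 (.cons 0x9873216540 .nil) (.leaf 0x2165409873 2 (.node 0 7 (.cons 0x9870456123 .nil) (.node 1 7 (.cons 0x6540987123 .nil) .done .done) (.leaf 0x8904561237 2 .done))) .done))) .done)))) .done))))
noncomputable def tc9_7_4 : T := (.node 0 7 (.cons 0x8921076543 .nil) (.node 3 8 (.cons 0x7654389210 .nil) (.node 6 9 (.cons 0x4569078321 .nil) (.leaf 0x3870129654 2 (.node 1 8 (.cons 0x7018345692 .nil) (.node 1 7 .nil (.node 0 8 (.cons 0x1765432980 .nil) (.leaf 0x7129803456 0 .done) (.node 0 8 (.cons 0x4569238071 .nil) (.leaf 0x7083296541 2 .done) .done)) (.node 1 7 (.cons 0x4569238170 .nil) (.node 0 4 (.cons 0x7045692381 .nil) (.leaf 0x8329654071 3 (.node 3 9 (.cons 0x2396540781 .nil) (.leaf 0x781239654 4 .done) (.leaf 0x2381704569 4 .done))) .done) .done)) (.node 2 4 (.cons 0x3870965421 .nil) (.node 1 7 (.cons 0x8345692170 .nil) (.leaf 0x8712456903 6 (.leaf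 0x4217830965 3 .done)) (.node 4 9 (.cons 0x6549078321 .nil) (.node 0 2 (.cons 0x9654387021 .nil) (.node 1 5 (.cons 0x1567894320 .nil) (.leaf 0x4987651023 2 (.leaf 0x4987651023 5 (.leaf 0x8943201567 1 (.node 0 4 (.cons 0x3204987651 .nil) (.node 1 7 (.cons 0x8345692170 .nil) (.leaf 0x983217654 3 .done) .done) .done)))) .done) .done) .done)) .done))) (.leaf 0x6701298345 2 (.node 1 9 (.cons 0x8345670192 .nil) (.node 2 6 (.cons 0x4562387091 .nil) (.leaf 0x9078326541 2 (.leaf 0x3870192654 2 (.leaf 0x8701926543 0 .done))) (.node 1 8 (.cons 0x4567092381 .nil) (.node 1 7 (.cons 0x2983456710 .nil) (.node 2 4 (.cons 0x3892456710 .nil) (.node 3 7 (.cons 0x8376542901 .nil) (.leaf 0x924567381 4 .done) (.leaf 0x9830176542 3 .done)) .done) (.leaf 0x7092381456 2 .done)) .done)) .done))) (.node 3 7 .nil (.node 0 6 (.cons 0x8906732145 .nil) (.leaf 0x1065437892 2 (.leaf 0x2378906541 1 (.leaf 0x3456012987 1 .done))) (.node 1 7 .nil (.node 0 8 (.cons 0x1765432980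 .nil) (.leaf 0x7129803456 0 (.leaf 0x5432980176 3 .done)) (.node 5 7 (.cons 0x8921034576 .nil) (.node 1 8 (.cons 0x6754301892 .nil) (.node 0 8 .nil (.node 3 6 (.cons 0x5412367890 (.cons 0x5763410892 (.cons 0x5417632980 .nil))) (.leaf 0x814576329 2 .done) (.node 2 7 (.cons 0x3456729801 .nil) (.node 1 3 (.cons 0x4567132980 .nil) (.leaf 0x4310892765 2 (.leaf 0x892765431 1 .done)) .done) .done)) (.node 1 9 .nil (.node 0 4 (.cons 0x8765409123 (.cons 0x8912340765 (.cons 0x8732190456 .nil))) (.leaf 0x7891230456 3 (.leaf 0x9876540321 4 .done)) (.node 5 9 (.cons 0x6789543012 .nil) (.node 0 8 (.cons 0x4376592180 .nil) (.node 4 9 (.cons 0x6549087321 .nil) (.node 6 9 (.cons 0x4569087321 .nil) (.leaf 0x3780129654 2 .done) .done) (.node 2 6 (.cons 0x1267895430 .nil) (.leaf 0x1034598762 0 (.leaf 0x3780192654 2 (.leaf 0x7801926543 0 .done))) .done)) .done) .done)) .done)) (.node 0 8 (.cons 0x6754308921 .nil) (.node 4 8 (.cons 0x5670129843 .nil) (.node 1 8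 (.cons 0x1845673290 .nil) (.leaf 0x6732901845 5 .done) (.node 1 8 (.cons 0x3765481290 .nil) (.leaf 0x2903765481 5 .done) .done)) (.node 2 7 (.cons 0x3456729801 .nil) (.node 1 3 (.cons 0x4567132980 .nil) (.leaf 0x4310892765 2 (.node 1 8 (.cons 0x4567329081 .nil) (.node 3 8 (.cons 0x7654389210 .nil) .done .done) (.leaf 0x892765431 1 .done))) .done) .done)) .done)) .done)) (.node 3 8 (.cons 0x7654389210 .nil) (.node 3 5 (.cons 0x8921076534 .nil) (.node 4 8 (.cons 0x5670129843 .nil) (.leaf 0x765348921 4 (.leaf 0x6701298435 3 .done)) (.node 0 8 .nil (.node 1 8 (.cons 0x4567329081 .nil) (.node 1 9 (.cons 0x9123456780 .nil) (.leaf 0x2345670891 5 (.leaf 0x3219807654 3 .done)) (.leaf 0x7329081456 1 .done)) (.node 4 8 (.cons 0x4890765321 .nil) (.node 5 8 (.cons 0x6709853214 .nil) (.node 4 7 (.cons 0x6745892103 .nil) (.node 1 5 (.cons 0x3489215670 .nil) (.leaf 0x4892156703 6 (.node 3 6 (.cons 0x5412367890 .nil) (.leaf 0x921563847 4 (.leaf 0x2103674589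 4 .done)) .done)) .done) .done) .done) .done)) .done)) (.node 3 9 .nil (.node 0 8 (.cons 0x4567809321 .nil) (.node 2 5 (.cons 0x6521078934 (.cons 0x6789301254 .nil)) (.leaf 0x1437652980 0 (.leaf 0x143765298 2 .done)) (.leaf 0x9321456780 1 (.leaf 0x7809321456 2 .done))) (.node 1 9 .nil (.node 0 2 (.cons 0x6543789102 .nil) (.leaf 0x8765430219 5 (.leaf 0x7654302198 6 .done)) (.node 3 5 (.cons 0x8921076534 .nil) (.node 4 8 (.cons 0x4876532190 .nil) (.node 3 6 (.cons 0x5412367890 .nil) (.node 1 3 .nil (.node 0 2 (.cons 0x8920137654 .nil) (.leaf 0x4567892013 1 (.leaf 0x1376548920 5 (.leaf 0x3209876541 2 .done))) .done) .done) (.leaf 0x765348921 4 (.leaf 0x6701298435 3 .done))) (.node 3 6 (.cons 0x5412367890 .nil) (.node 1 3 .nil (.node 0 2 (.cons 0x8920137654 .nil) (.leaf 0x4567892013 1 (.node 2 4 (.cons 0x7653890124 .nil) (.leaf 0x9876542310 5 .done) (.leaf 0x3209876541 2 .done))) .done) .done) .done)) .done)) .done)) .done)) .done))) (.node 3 8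 (.cons 0x7654389210 .nil) (.leaf 0x9834567012 2 (.node 1 8 (.cons 0x1892345670 .nil) (.leaf 0x5432981076 3 (.node 0 8 .nil (.node 1 7 (.cons 0x6543298071 .nil) (.leaf 0x7129803456 0 (.node 6 8 (.cons 0x5417680923 (.cons 0x9217680345 .nil)) .done (.leaf 0x3298017654 0 .done))) (.node 3 7 .nil (.node 6 9 (.cons 0x4569087321 .nil) (.leaf 0x8073296541 5 (.leaf 0x3780129654 2 (.leaf 0x8073296541 2 (.leaf 0x7081456923 1 .done)))) (.node 6 9 (.cons 0x4569087321 .nil) (.leaf 0x3780129654 2 (.leaf 0x8073296541 2 (.leaf 0x7081456923 1 .done))) .done)) .done)) .done)) (.node 1 8 (.cons 0x1892345670 .nil) (.leaf 0x5432981076 3 (.node 2 4 (.cons 0x5670189243 .nil) (.node 3 9 (.cons 0x2456783901 .nil) (.leaf 0x5421093876 3 (.node 0 8 (.cons 0x9342108765 .nil) (.node 0 5 (.cons 0x4398765012 .nil) (.node 4 7 (.cons 0x4765092381 .nil) (.leaf 0x923814765 3 .done) (.leaf 0x1243987650 6 .done)) .done) .done)) (.node 1 9 .nil (.node 0 4 (.cons 0x5670432981 (.cons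 0x2387654091 .nil)) (.leaf 0x9045678321 2 .done) (.node 3 9 .nil (.node 0 4 (.cons 0x5670432981 (.cons 0x8765409321 .nil)) (.leaf 0x9876540123 2 .done) (.node 3 7 (.cons 0x6542109873 .nil) (.node 3 6 (.cons 0x5412367890 .nil) (.node 1 3 .nil (.node 0 2 (.cons 0x7654389201 .nil) (.leaf 0x7654318920 5 (.leaf 0x6543102987 2 .done)) .done) .done) .done) .done)) .done)) .done)) (.node 1 7 (.cons 0x2983456710 .nil) (.node 5 8 (.cons 0x6714583290 .nil) (.node 1 5 (.cons 0x6789032154 .nil) (.node 4 7 (.cons 0x8903215476 .nil) (.node 4 8 (.cons 0x1765483290 .nil) .done .done) .done) (.node 6 8 (.cons 0x9217685430 .nil) (.leaf 0x7129034586 1 .done) .done)) (.node 3 7 .nil (.node 4 8 (.cons 0x1237654890 .nil) (.leaf 0x9845673210 2 (.leaf 0x1298456730 4 (.leaf 0x4892103765 0 .done))) (.node 5 8 (.cons 0x6738541092 .nil) (.node 0 5 (.cons 0x6789054123 .nil) (.node 3 6 (.cons 0x5418923670 .nil) (.leaf 0x4123678905 1 (.leaf 0x7632145098 2 .done)) (.node 0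 6 (.cons 0x4329856071 .nil) (.leaf 0x2341706589 3 (.node 0 8 (.cons 0x9805671234 .nil) .done .done)) .done)) (.node 6 8 (.cons 0x3768541290 .nil) (.leaf 0x7309214586 2 .done) .done)) .done)) .done)) .done))) .done))) .done))) (.leaf 0x1298765430 6 (.node 0 5 (.cons 0x6789054123 .nil) tc9_7_3 (.node 2 6 (.cons 0x9876210345 .nil) tc9_7_2 .done))))
noncomputable def uc9_7_1 : T := tc9_7_4
theorem sub_c9_7_1 : root 9 refs9_7 [] 0x800000003807000000007060000000060500000000504000000004030500000030105000000102000000502013000005010 0xfef7fe7fff3fff9fffcfffc7ffd5fff9ffd9ffd5 9 2 9 (.cons 0x3456789210 .nil) uc9_7_1 = true := by decide +kernel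
noncomputable def tc9_7_5 : T := (.node 3 6 (.cons 0x5412367890 .nil) (.node 4 8 (.cons 0x7654890321 .nil) (.node 0 4 .nil (.node 3 9 (.cons 0x7845639012 (.cons 0x5678934012 .nil)) (.leaf 0x4567893210 5 (.leaf 0x4567893210 2 (.node 1 8 (.cons 0x6781450932 (.cons 0x9812304567 .nil)) (.leaf 0x456781239 2 .done) .done))) (.node 0 6 .nil (.node 3 9 (.cons 0x7845639012 (.cons 0x7893456012 (.cons 0x5439876012 .nil))) (.node 2 5 (.cons 0x4398765210 (.cons 0x5239876041 .nil)) (.leaf 0x3987652104 5 (.leaf 0x8760125439 2 .done)) (.leaf 0x4506789321 2 .done)) (.node 0 7 (.cons 0x9078456321 .nil) (.node 0 8 (.cons 0x9087632145 .nil) .done .done) .done)) .done)) (.node 0 4 .nil (.node 3 9 (.cons 0x5678934012 .nil) (.node 2 8 (.cons 0x9821034567 (.cons 0x7821093654 (.cons 0x9345012876 .nil))) (.leaf 0x1287654390 2 (.node 0 6 (.cons 0x9328760541 .nil) (.node 5 7 (.cons 0x8903214576 (.cons 0x6754103982 (.cons 0x6754128930 .nil))) (.leaf 0x3982145760 3 .done)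 .done) .done)) (.leaf 0x4567893210 5 (.leaf 0x4567893210 2 (.node 1 8 (.cons 0x6781450932 (.cons 0x9045632187 (.cons 0x9812304567 .nil))) (.leaf 0x456781239 2 .done) .done)))) (.node 0 8 (.cons 0x9087632145 .nil) (.node 3 8 (.cons 0x9054123876 .nil) (.node 1 8 (.cons 0x9045632187 .nil) (.node 1 3 .nil (.node 2 9 (.cons 0x3456789210 (.cons 0x7650923184 (.cons 0x7845631092 (.cons 0x6784509231 (.cons 0x4876509231 .nil))))) .done .done) (.node 7 9 (.cons 0x4567981230 .nil) (.leaf 0x2365409781 3 (.leaf 0x6321879045 4 (.leaf 0x3218976540 6 (.leaf 0x3218976540 0 .done)))) .done)) (.node 4 9 (.cons 0x5490876321 .nil) (.node 1 7 (.cons 0x2384905671 .nil) (.leaf 0x9483217650 6 (.node 1 3 (.cons 0x8490567132 .nil) (.node 1 9 (.cons 0x9123450876 .nil) .done .done) (.leaf 0x9056712384 0 .done))) (.leaf 0x8765094123 3 .done)) .done)) (.node 1 8 (.cons 0x9045632187 .nil) (.node 3 8 (.cons 0x9054123876 .nil) (.node 6 9 (.cons 0x4509678321 .nil) (.leaf 0x541238769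 5 (.leaf 0x7690541238 6 (.node 0 6 .nil (.node 5 7 (.cons 0x8903214576 (.cons 0x7541896032 .nil)) (.leaf 0x6098321457 4 (.leaf 0x7541236098 0 .done)) .done) (.leaf 0x5096783214 3 .done)))) .done) (.node 7 9 (.cons 0x4567981230 .nil) (.leaf 0x2365409781 3 (.leaf 0x6321879045 4 (.leaf 0x3218976540 6 (.leaf 0x3218976540 0 .done)))) .done)) .done)) .done)) (.node 1 3 (.cons 0x7654890312 .nil) (.node 3 5 .nil (.node 2 6 (.cons 0x7621489035 .nil) (.leaf 0x6214530987 0 (.leaf 0x9014532678 2 (.node 7 9 (.cons 0x7984562130 (.cons 0x1267984530 (.cons 0x8976214530 .nil))) (.leaf 0x6210354897 3 (.leaf 0x8453012679 0 .done)) .done))) (.node 2 6 (.cons 0x1453267890 .nil) (.leaf 0x9014532678 2 (.node 1 9 (.cons 0x3509148762 .nil) (.leaf 0x532678419 3 (.node 1 8 (.cons 0x9053267814 .nil) (.node 0 4 (.cons 0x5678912340 .nil) (.node 7 9 (.cons 0x4567981230 .nil) (.leaf 0x2365409781 3 (.leaf 0x3218976540 6 (.leaf 0x3218976540 0 .done))) (.leaf 0x9876504321 0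 .done)) .done) .done)) (.node 3 9 (.cons 0x2678935410 .nil) (.node 3 8 (.cons 0x9387621054 .nil) (.node 3 7 .nil (.node 0 4 (.cons 0x2678935401 (.cons 0x6540987321 (.cons 0x9873104562 .nil))) .done .done) .done) (.node 1 9 (.cons 0x2678419350 .nil) (.node 0 2 (.cons 0x9348765021 .nil) (.leaf 0x1934876502 0 (.leaf 0x8762014539 1 (.leaf 0x5678439120 3 .done))) .done) .done)) .done))) .done)) (.node 4 7 (.cons 0x5674890312 .nil) (.node 2 5 (.cons 0x7652130984 .nil) (.node 0 7 (.cons 0x9843125670 .nil) (.leaf 0x2134890765 5 (.node 2 4 (.cons 0x9056784213 .nil) (.node 1 7 (.cons 0x3098456712 .nil) (.node 5 9 (.cons 0x8763214590 .nil) (.leaf 0x712489563 4 (.leaf 0x712489563 3 (.leaf 0x4210789563 3 .done))) .done) .done) (.leaf 0x1256709843 0 .done))) (.leaf 0x1309847652 1 (.leaf 0x6521309847 2 .done))) (.node 4 6 .nil (.node 3 5 (.cons 0x1235467890 .nil) (.leaf 0x9876453210 1 (.leaf 0x9876453210 5 (.leaf 0x4678905321 1 .done))) (.node 4 9 .nil (.node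 2 8 (.cons 0x9821034567 (.cons 0x6509478231 (.cons 0x5490128763 (.cons 0x7654982103 .nil)))) (.leaf 0x5678213490 1 .done) (.node 0 4 .nil (.node 1 8 (.cons 0x7812365490 (.cons 0x9045632187 (.cons 0x9812304567 .nil))) .done .done) .done)) .done)) .done)) .done)) .done))) (.leaf 0x7632145098 2 (.node 0 6 .nil (.node 3 9 (.cons 0x7893456012 (.cons 0x5439876012 .nil)) (.node 0 4 (.cons 0x8765409321 .nil) (.leaf 0x9876540123 5 (.node 2 5 (.cons 0x1452367890 (.cons 0x7890632541 .nil)) (.leaf 0x3987652104 5 (.leaf 0x1067893452 2 .done)) .done)) (.node 2 5 (.cons 0x4398765210 (.cons 0x7890632541 .nil)) (.node 0 4 (.cons 0x5678934012 .nil) (.node 1 7 (.cons 0x2365409871 (.cons 0x9871234065 .nil)) (.leaf 0x5409871236 1 (.leaf 0x6043987125 3 .done)) (.leaf 0x3987652104 5 .done)) (.leaf 0x9876052143 0 .done)) .done)) (.node 3 5 .nil (.node 2 6 (.cons 0x7890145362 .nil) (.leaf 0x6214530987 0 (.leaf 0x145326789 0 (.leaf 0x9014532678 2 (.node 6 8 (.cons 0x7689032145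 (.cons 0x7689035412 .nil)) .done .done)))) (.node 6 9 (.cons 0x8769054123 .nil) (.node 3 8 (.cons 0x9054123876 .nil) (.leaf 0x541238769 5 (.leaf 0x541238769 2 .done)) (.node 6 8 (.cons 0x7689032145 .nil) (.node 3 8 (.cons 0x3876905412 .nil) (.leaf 0x5096783214 3 (.node 1 8 (.cons 0x9054187632 .nil) (.node 2 8 (.cons 0x9821034567 .nil) (.node 0 2 (.cons 0x9678341205 .nil) (.node 3 9 (.cons 0x1287693450 .nil) (.node 1 7 (.cons 0x3456987120 .nil) (.leaf 0x3209871456 1 (.leaf 0x7120543968 0 (.leaf 0x3209871456 5 .done))) .done) .done) .done) .done) .done)) .done) .done)) .done)) .done)) .done))) (.node 3 6 (.cons 0x5412367890 .nil) (.node 3 5 .nil (.node 4 6 (.cons 0x1235467890 .nil) (.leaf 0x9876453210 1 (.node 2 4 (.cons 0x6789012453 .nil) (.leaf 0x1098763542 5 (.node 0 4 (.cons 0x6789045321 .nil) (.node 3 9 (.cons 0x5678934012 .nil) (.leaf 0x4567893210 5 (.leaf 0x4567893210 2 (.node 1 8 (.cons 0x1876542390 (.cons 0x9045632187 (.cons 0x9812304567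 .nil))) (.leaf 0x4567810932 0 .done) .done))) (.node 2 9 (.cons 0x3456789210 (.cons 0x4356789210 .nil)) (.leaf 0x6534012987 1 (.leaf 0x3567892104 5 (.leaf 0x3567892104 2 .done))) .done)) (.leaf 0x124536789 3 .done))) (.leaf 0x3509876412 2 (.leaf 0x5098764123 0 .done)))) (.node 2 6 (.cons 0x1453267890 .nil) (.leaf 0x9014532678 2 (.node 1 6 (.cons 0x2354167890 .nil) (.node 0 2 (.cons 0x6789023541 .nil) (.leaf 0x3541678902 1 (.leaf 0x9023541678 2 .done)) (.node 0 6 .nil (.node 1 7 (.cons 0x6235098714 .nil) (.leaf 0x2345609871 2 (.node 3 7 (.cons 0x9873216054 .nil) (.leaf 0x2378906541 2 .done) .done)) (.node 6 8 (.cons 0x7689032145 .nil) (.node 2 7 (.cons 0x2768903541 .nil) (.leaf 0x986721453 6 (.node 0 2 (.cons 0x9876145320 .nil) (.node 0 4 (.cons 0x5326789041 .nil) .done .done) (.leaf 0x986721453 0 .done))) .done) .done)) .done)) (.node 1 6 (.cons 0x2354167890 .nil) (.node 0 2 (.cons 0x6789023541 .nil) (.leaf 0x3541678902 1 (.leaf 0x9023541678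 2 (.node 1 9 (.cons 0x4356789102 .nil) (.node 0 6 (.cons 0x7891453260 .nil) (.node 0 7 (.cons 0x6543219870 .nil) (.leaf 0x1453260789 5 (.leaf 0x4198706235 0 .done)) .done) (.node 0 4 (.cons 0x5326789140 .nil) (.leaf 0x7623504198 0 (.leaf 0x8912340567 5 .done)) .done)) .done))) (.node 4 7 (.cons 0x9874162350 .nil) (.leaf 0x1623509874 2 (.leaf 0x6509874321 3 (.node 0 6 .nil (.node 2 9 (.cons 0x3456789210 (.cons 0x7892106543 (.cons 0x2987435061 (.cons 0x3506298741 .nil)))) (.leaf 0x6014532987 2 .done) (.node 6 8 (.cons 0x7689032145 .nil) (.node 5 7 (.cons 0x3098675412 .nil) (.leaf 0x4123098675 3 (.node 5 8 .nil (.node 1 7 (.cons 0x9871450623 .nil) (.leaf 0x7145890326 0 .done) .done) .done)) .done) .done)) .done))) .done)) .done))) .done)) (.node 4 7 (.cons 0x4789056321 .nil) (.leaf 0x563214789 2 (.node 0 4 .nil (.node 1 9 (.cons 0x5678912340 .nil) (.leaf 0x8912340567 2 (.leaf 0x4321987650 1 (.node 5 7 (.cons 0x8903214576 (.cons 0x8756321904 (.cons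 0x9875041236 (.cons 0x2198756340 .nil)))) .done .done))) (.node 0 6 .nil (.node 1 9 (.cons 0x8765409123 (.cons 0x7891234560 .nil)) (.leaf 0x4321987605 1 (.leaf 0x8912345067 2 .done)) (.node 4 8 (.cons 0x7654890321 .nil) (.node 1 8 (.cons 0x9045678123 .nil) (.node 2 5 (.cons 0x6325098741 .nil) (.leaf 0x8903256741 0 (.leaf 0x9814765230 5 (.leaf 0x8903256741 6 .done))) (.node 6 8 (.cons 0x7689032145 .nil) (.node 5 8 (.cons 0x9041236785 .nil) (.node 3 8 (.cons 0x9045678321 .nil) (.node 6 9 (.cons 0x5409678321 .nil) (.node 1 6 (.cons 0x7614589032 .nil) (.node 4 6 (.cons 0x9054612387 .nil) .done .done) .done) .done) .done) .done) .done)) (.node 6 8 (.cons 0x7689032145 .nil) (.node 5 8 (.cons 0x9041236785 .nil) (.node 1 8 (.cons 0x9045678123 .nil) (.node 5 9 (.cons 0x7689541230 .nil) (.leaf 0x3659047812 3 (.leaf 0x956321874 6 .done)) (.node 2 5 (.cons 0x6325098741 .nil) (.leaf 0x8903256741 0 (.leaf 0x9814765230 5 (.leaf 0x8903256741 6 .done))) .done))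 .done) .done) .done)) .done)) .done)) (.node 3 5 (.cons 0x6350987412 .nil) (.node 1 3 (.cons 0x4789056312 .nil) (.node 2 6 (.cons 0x3126547890 .nil) (.node 0 6 .nil (.node 1 9 (.cons 0x2198743650 .nil) (.leaf 0x4321987605 1 (.leaf 0x8912345067 2 .done)) (.node 5 7 (.cons 0x6098754132 .nil) (.leaf 0x3145789062 4 (.node 1 8 (.cons 0x6754189032 .nil) (.leaf 0x7623098145 2 (.node 6 8 (.cons 0x2309867541 .nil) (.leaf 0x6890321457 0 .done) .done)) .done)) .done)) (.leaf 0x6214789053 0 (.leaf 0x4562130987 3 .done))) .done) (.node 2 6 (.cons 0x1453267890 .nil) (.leaf 0x145326789 0 (.leaf 0x9014532678 2 (.node 2 9 (.cons 0x3456789210 .nil) (.leaf 0x5362987410 1 (.leaf 0x8926350147 2 (.node 3 9 (.cons 0x2678935410 .nil) (.node 1 3 (.cons 0x4789056312 .nil) (.node 4 8 (.cons 0x9267845310 .nil) (.leaf 0x1354876290 1 (.node 0 7 (.cons 0x8930745621 .nil) (.node 1 6 (.cons 0x5487613290 .nil) (.leaf 0x9261078453 5 .done) (.leaf 0x9870126543 3 (.leaf 0x3107845629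 5 (.leaf 0x8934562107 5 .done)))) .done)) .done) .done) (.node 1 6 (.cons 0x3478921650 .nil) (.leaf 0x5612987430 6 (.node 0 2 (.cons 0x4356789201 .nil) (.leaf 0x3541678902 1 (.leaf 0x9023541678 2 .done)) .done)) .done)))) .done))) .done)) .done))) (.leaf 0x4509876321 2 .done))) (.node 0 6 .nil (.node 1 9 (.cons 0x7891234560 (.cons 0x5067891432 .nil)) (.node 0 4 (.cons 0x8765409123 .nil) (.leaf 0x8912340567 3 .done) (.leaf 0x6054321987 2 .done)) (.node 3 6 (.cons 0x5412367890 .nil) (.node 0 4 .nil (.node 1 9 (.cons 0x5678912340 .nil) (.node 2 6 (.cons 0x3267890541 (.cons 0x3267891450 .nil)) (.leaf 0x9105432678 2 .done) (.leaf 0x6504321987 2 (.leaf 0x5043219876 0 .done))) (.node 5 7 (.cons 0x4098756321 .nil) (.leaf 0x412365789 2 (.leaf 0x4123657890 0 (.node 1 3 (.cons 0x4098756312 .nil) (.node 3 5 (.cons 0x6357890412 .nil) (.node 5 8 (.cons 0x9067854123 .nil) (.node 3 9 (.cons 0x9321458760 .nil) (.leaf 0x5876093214 0 (.leaf 0x4587609321 2 .done))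 .done) .done) (.node 2 4 (.cons 0x4213657890 .nil) (.leaf 0x6578904213 4 (.leaf 0x6578904213 3 .done)) .done)) .done))) .done)) (.node 0 4 .nil (.node 3 9 (.cons 0x8760932145 (.cons 0x5678934012 .nil)) (.leaf 0x4567893210 5 (.leaf 0x4567893210 2 .done)) (.node 1 7 (.cons 0x2365409871 .nil) (.leaf 0x5409871236 1 (.node 4 8 (.cons 0x7654890321 .nil) (.node 2 5 (.cons 0x1452367890 .nil) (.leaf 0x8903256714 0 (.leaf 0x9841765230 5 (.leaf 0x8901452367 3 (.leaf 0x8903256714 6 .done)))) (.leaf 0x2309845671 0 .done)) (.leaf 0x5409871236 5 .done))) .done)) .done)) (.node 3 6 (.cons 0x5412367890 .nil) (.node 3 5 .nil (.node 2 9 (.cons 0x3456789210 (.cons 0x7892106534 (.cons 0x4356789210 .nil))) (.leaf 0x6053412987 2 (.node 0 4 (.cons 0x6789045321 .nil) (.leaf 0x1298763540 5 (.leaf 0x7653214098 2 (.leaf 0x2104536789 3 .done))) .done)) (.node 1 3 (.cons 0x6789054132 .nil) (.node 1 8 (.cons 0x9054187632 .nil) (.node 1 9 (.cons 0x5067891432 .nil) (.node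 5 9 (.cons 0x8763214590 .nil) (.node 2 8 (.cons 0x3678214590 .nil) (.leaf 0x5903678214 5 (.leaf 0x9541287630 6 (.node 5 8 (.cons 0x7605891432 .nil) .done .done))) .done) .done) (.node 1 7 (.cons 0x8903217654 .nil) (.node 1 5 (.cons 0x9876051432 .nil) (.node 5 9 (.cons 0x8763214590 .nil) (.node 2 5 (.cons 0x3412598760 .nil) (.leaf 0x1430678952 5 (.leaf 0x9876034125 6 .done)) .done) .done) .done) .done)) .done) .done)) (.node 6 8 (.cons 0x7689032145 .nil) (.node 2 6 (.cons 0x3267890541 .nil) (.node 1 8 (.cons 0x9054187623 .nil) (.node 1 9 (.cons 0x7689145032 .nil) (.node 0 8 (.cons 0x7654321980 .nil) (.node 1 6 (.cons 0x7619805432 .nil) .done .done) (.node 5 8 (.cons 0x9143267850 .nil) (.leaf 0x5876234190 0 .done) .done)) (.node 1 3 (.cons 0x6789054132 .nil) (.node 3 5 (.cons 0x9053267814 .nil) (.node 4 9 (.cons 0x7894356012 .nil) (.leaf 0x941876235 6 (.node 1 7 (.cons 0x9867145032 .nil) (.node 2 4 (.cons 0x9817650324 .nil) (.leaf 0x5671894230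 2 .done) .done) (.leaf 0x1876235094 5 (.leaf 0x8149053267 3 .done)))) .done) (.leaf 0x4509876231 4 .done)) .done)) (.node 6 9 .nil (.node 0 7 (.cons 0x9867032145 .nil) (.leaf 0x4569870123 1 (.leaf 0x4569870123 2 .done)) (.node 4 6 .nil (.node 3 5 (.cons 0x7890641235 .nil) (.leaf 0x9876453210 1 (.leaf 0x4678905321 4 .done)) (.node 1 6 .nil (.node 0 4 (.cons 0x7890456123 .nil) (.node 1 9 (.cons 0x7891234065 (.cons 0x5678912340 .nil)) (.leaf 0x6504321987 2 .done) .done) .done) .done)) .done)) .done)) (.node 6 9 .nil (.node 0 7 (.cons 0x1234569870 .nil) (.leaf 0x4569870123 5 (.leaf 0x4569870123 1 (.leaf 0x4569870123 2 .done))) (.node 4 6 .nil (.node 3 5 (.cons 0x7689035412 (.cons 0x7890641235 .nil)) (.leaf 0x4678905321 4 .done) (.node 2 6 (.cons 0x3267890541 .nil) (.node 1 9 (.cons 0x3267891450 .nil) (.leaf 0x4503267891 3 (.node 0 4 (.cons 0x5678912340 .nil) (.leaf 0x8912340567 3 .done) .done)) .done) .done)) .done)) .done)) .done)) .done))) .done)))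
noncomputable def uc9_7_2 : T := tc9_7_5
theorem sub_c9_7_2 : root 9 refs9_7 [] 0x800000003807000000007060000000060500000000504000000004030500000030107000000102000000502013000007010 0xfef7fe7fff3fff9fffcfffc7ff75fff9ffd9ff75 9 0 5 (.cons 0x6789054123 .nil) uc9_7_2 = true := by decide +kernel
noncomputable def tc9_7_6 : T := (.node 2 9 (.cons 0x3456789210 .nil) (.node 0 6 .nil (.node 3 7 (.cons 0x8921067345 .nil) (.leaf 0x1065437892 2 (.leaf 0x1065437892 1 (.leaf 0x987321456 1 .done))) (.node 0 5 (.cons 0x6789054123 .nil) (.node 0 4 .nil (.node 1 9 (.cons 0x8765409123 .nil) (.leaf 0x9123405678 0 (.leaf 0x5403219876 3 .done)) (.node 2 4 .nil (.node 1 3 (.cons 0x7890654231 .nil) (.leaf 0x5678903124 1 (.leaf 0x7654213098 5 .done)) (.node 2 6 .nil (.node 3 5 (.cons 0x7896534012 (.cons 0x7890623541 (.cons 0x1453267890 .nil))) .done (.node 2 5 (.cons 0x7896521043 .nil) (.node 1 6 (.cons 0x7890456123 .nil) (.node 1 7 (.cons 0x5698712340 .nil) (.leaf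 0x2360987145 2 (.leaf 0x569871234 0 .done)) .done) .done) .done)) .done)) .done)) (.node 0 4 (.cons 0x7896504321 .nil) (.node 3 5 .nil (.node 2 4 (.cons 0x7896501243 (.cons 0x7896534210 .nil)) (.leaf 0x5421098763 2 .done) (.node 2 6 (.cons 0x1453267890 .nil) (.leaf 0x145326789 0 (.node 1 6 (.cons 0x2354167890 .nil) (.node 1 7 (.cons 0x4178962350 .nil) (.leaf 0x5326987140 4 (.leaf 0x5326987140 3 .done)) .done) .done)) .done)) .done) .done)) .done)) (.leaf 0x5430129876 3 (.node 0 6 .nil (.node 3 7 (.cons 0x8906732145 .nil) (.leaf 0x2378906541 2 (.node 5 9 (.cons 0x8954376012 (.cons 0x8760345921 .nil)) (.leaf 0x4598760123 2 (.node 1 6 (.cons 0x8732160954 (.cons 0x4598732160 .nil)) .done (.leaf 0x3067895412 0 .done))) (.leaf 0x8921065437 2 (.leaf 0x987321456 1 .done)))) (.node 0 5 (.cons 0x6789054123 .nil) (.node 0 4 .nil (.node 1 5 (.cons 0x1543298760 (.cons 0x7896512340 (.cons 0x3298760451 .nil))) (.leaf 0x2156789043 2 .done) (.node 0 2 .nil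 (.node 1 5 (.cons 0x7896512340 (.cons 0x7896023415 .nil)) (.leaf 0x4510298763 2 (.leaf 0x298763451 1 .done)) (.node 0 7 (.cons 0x5698704321 .nil) (.node 0 8 .nil (.node 1 5 (.cons 0x7896512340 (.cons 0x9651234087 (.cons 0x9807632154 .nil))) (.leaf 0x8923451067 3 .done) .done) .done) .done)) .done)) (.node 0 4 (.cons 0x7896504321 .nil) (.node 3 5 .nil (.node 1 8 (.cons 0x7654098123 (.cons 0x7653218904 (.cons 0x7604532981 .nil))) (.leaf 0x923541876 2 .done) (.node 2 6 (.cons 0x1453267890 .nil) (.leaf 0x145326789 0 (.node 1 6 (.cons 0x2354167890 .nil) (.node 1 7 (.cons 0x4178962350 .nil) (.leaf 0x5326987140 4 (.leaf 0x5326987140 3 .done)) .done) .done)) .done)) .done) .done)) .done)) .done))) (.node 0 6 .nil (.node 3 9 (.cons 0x7893456012 (.cons 0x5439876012 .nil)) (.node 0 4 (.cons 0x8765409321 .nil) (.leaf 0x9876540123 2 (.leaf 0x9876540123 5 (.node 2 5 (.cons 0x8769032541 (.cons 0x8769301452 .nil)) (.leaf 0x3987652104 2 (.leaf 0x3987652104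 5 (.leaf 0x8934012567 1 .done))) .done))) (.node 0 5 (.cons 0x4398765012 .nil) (.leaf 0x9321450678 0 (.leaf 0x8932145067 2 (.node 2 4 (.cons 0x5678934210 (.cons 0x7893421065 .nil)) (.leaf 0x6789342105 5 (.leaf 0x6789342105 2 .done)) .done))) .done)) (.node 0 7 (.cons 0x8907632145 .nil) (.node 1 3 .nil (.node 0 2 (.cons 0x7896543102 .nil) (.leaf 0x9876541320 1 (.leaf 0x6543120987 3 .done)) (.node 3 5 .nil (.node 2 6 (.cons 0x5431078962 (.cons 0x4531078962 .nil)) (.leaf 0x145326789 0 .done) (.node 2 6 (.cons 0x1453267890 .nil) (.leaf 0x145326789 0 (.node 2 5 (.cons 0x8769032541 .nil) (.leaf 0x1078962543 4 (.leaf 0x1078962543 3 (.node 3 7 (.cons 0x3789625410 .nil) (.leaf 0x6254103789 3 .done) .done))) .done)) .done)) (.node 1 8 (.cons 0x5418769032 .nil) (.node 1 9 .nil (.node 0 8 (.cons 0x9123456780 .nil) (.leaf 0x4321980765 1 (.leaf 0x4321980765 5 .done)) (.node 0 8 (.cons 0x7654321980 .nil) (.leaf 0x4321980765 5 .done) .done)) (.node 5 8 (.cons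 0x7632145890 .nil) (.leaf 0x4123096785 2 (.node 1 7 (.cons 0x2367145890 .nil) (.node 0 2 (.cons 0x7632098541 .nil) (.node 1 6 (.cons 0x9854320761 .nil) .done (.leaf 0x9854176320 0 .done)) .done) (.node 6 8 .nil (.node 1 9 (.cons 0x2198543670 (.cons 0x5432198670 .nil)) (.node 2 5 (.cons 0x9678145230 (.cons 0x9867012543 (.cons 0x7869032541 (.cons 0x7869145230 .nil)))) (.leaf 0x4187690325 2 .done) .done) .done) .done))) .done)) .done))) (.node 0 5 (.cons 0x6789054123 .nil) (.node 6 8 (.cons 0x7689054123 .nil) (.node 3 9 (.cons 0x7689321450 .nil) (.leaf 0x2145076893 0 (.leaf 0x8670541239 3 (.node 0 4 (.cons 0x5678934012 .nil) (.node 1 6 (.cons 0x7890456123 .nil) (.node 2 6 (.cons 0x7893401265 .nil) .done .done) .done) .done))) (.node 3 7 (.cons 0x3768905412 .nil) (.leaf 0x5098673214 4 (.leaf 0x9054123768 3 .done)) .done)) (.node 0 4 .nil (.node 1 9 (.cons 0x7891234065 (.cons 0x5678912340 .nil)) (.leaf 0x8912340567 2 (.leaf 0x4321987650 1 .done))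 (.node 0 8 .nil (.node 5 9 (.cons 0x6780954123 .nil) (.leaf 0x4123670895 2 (.leaf 0x321459678 3 (.leaf 0x954123678 2 .done))) (.node 0 2 .nil (.node 1 7 (.cons 0x5069871432 (.cons 0x4320569871 (.cons 0x6987145023 .nil))) (.leaf 0x6543201789 1 .done) .done) .done)) .done)) .done)) .done)) .done)) (.node 5 8 (.cons 0x7632145890 .nil) (.leaf 0x4123096785 5 (.leaf 0x1458769032 3 (.leaf 0x7690321458 6 (.node 3 5 (.cons 0x8769035412 .nil) (.node 1 3 .nil (.node 0 2 (.cons 0x7896543120 (.cons 0x7631209854 .nil)) (.leaf 0x9876541320 1 (.leaf 0x6543120987 3 (.node 0 7 (.cons 0x4356987021 (.cons 0x4589076312 .nil)) (.leaf 0x8965341207 5 .done) .done))) (.node 1 8 (.cons 0x9032187654 .nil) (.node 4 8 .nil (.node 2 4 (.cons 0x7842135690 (.cons 0x9031248567 (.cons 0x7842130965 .nil))) .done (.node 3 8 .nil (.node 2 4 (.cons 0x7812456903 (.cons 0x9012456783 (.cons 0x7654210983 (.cons 0x7830965421 .nil)))) .done (.node 2 8 (.cons 0x5412876903 .nil) (.leaf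 0x7690354128 0 (.node 3 7 (.cons 0x4569037812 .nil) (.node 3 9 (.cons 0x5412876930 .nil) .done .done) .done)) .done)) .done)) (.node 1 7 .nil (.node 4 8 (.cons 0x7123654890 .nil) (.leaf 0x2176548903 2 (.leaf 0x5690321784 6 .done)) (.node 1 6 .nil (.node 0 5 (.cons 0x6789054123 .nil) (.leaf 0x2167890543 4 (.node 2 7 (.cons 0x3672145890 (.cons 0x8721690354 (.cons 0x2789614350 .nil))) (.leaf 0x5416327890 4 .done) .done)) .done) .done)) .done)) .done)) (.node 2 6 (.cons 0x1453267890 .nil) (.leaf 0x145326789 0 (.node 5 9 (.cons 0x2678953410 .nil) (.leaf 0x1267859034 1 (.leaf 0x1267859034 5 .done)) (.node 0 5 (.cons 0x6789054123 .nil) (.node 5 9 .nil (.node 0 6 (.cons 0x9587603412 .nil) (.leaf 0x4598760123 2 (.leaf 0x4598760321 3 .done)) (.node 2 5 .nil (.node 1 8 (.cons 0x9032187654 (.cons 0x4187690352 .nil)) (.leaf 0x4523096781 5 (.leaf 0x5418769032 3 .done)) (.node 1 5 .nil (.node 2 8 (.cons 0x2876903541 (.cons 0x9678215430 (.cons 0x4153096782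 .nil))) (.leaf 0x9035412876 5 .done) (.node 5 7 .nil (.node 2 8 (.cons 0x2876903541 (.cons 0x6957821430 .nil)) (.leaf 0x5410982367 3 (.leaf 0x6754128903 1 .done)) .done) .done)) .done)) .done)) (.node 3 7 (.cons 0x3789621450 .nil) (.leaf 0x6214503789 3 (.leaf 0x6214503789 4 .done)) .done)) .done))) .done)) .done)))) .done)))
noncomputable def tc9_7_7 : T := (.node 6 9 (.cons 0x8769032145 .nil) tc9_7_6 (.node 0 5 (.cons 0x6789054123 .nil) (.leaf 0x6321450987 0 (.node 4 7 (.cons 0x4789056321 .nil) (.leaf 0x563214789 2 (.node 0 4 .nil (.node 1 9 (.cons 0x5678912340 .nil) (.leaf 0x8912340567 2 (.leaf 0x4321987650 1 (.leaf 0x5403219876 3 .done))) (.node 3 7 (.cons 0x8904567321 .nil) (.node 0 7 .nil (.node 3 8 (.cons 0x7654098321 .nil) (.leaf 0x2389076541 2 (.leaf 0x7098321456 1 .done)) (.node 7 9 .nil (.node 1 8 (.cons 0x7654098123 (.cons 0x5679812340 (.cons 0x3218976540 .nil))) (.leaf 0x5403218976 3 .done) (.node 4 9 (.cons 0x8765490321 .nil) (.node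 2 7 (.cons 0x5634987210 .nil) (.leaf 0x1056349872 2 (.node 3 8 (.cons 0x7654098321 .nil) (.leaf 0x2798365041 4 (.leaf 0x3897214056 0 .done)) .done)) .done) .done)) .done)) .done) .done)) (.node 3 5 (.cons 0x6350987412 .nil) (.node 1 3 (.cons 0x4789056312 .nil) (.node 1 9 (.cons 0x2198743650 .nil) (.node 6 9 (.cons 0x8745690312 .nil) (.node 4 9 (.cons 0x8765490321 .nil) (.node 1 8 (.cons 0x5630947812 .nil) (.node 2 5 (.cons 0x7894365210 .nil) (.leaf 0x9678145230 1 (.leaf 0x7690325418 5 .done)) (.leaf 0x8123094567 0 .done)) .done) (.node 5 8 (.cons 0x2147635890 .nil) (.leaf 0x1458769032 3 (.leaf 0x7690321458 6 (.node 2 9 (.cons 0x3456789210 .nil) (.leaf 0x5430129876 3 (.leaf 0x367854129 2 (.node 6 8 (.cons 0x7685309214 .nil) (.leaf 0x1290358674 3 (.node 2 5 (.cons 0x7689253410 .nil) (.leaf 0x1478652903 0 (.leaf 0x3147865290 2 .done)) .done)) .done))) .done))) .done)) (.node 0 4 (.cons 0x5678912340 .nil) (.node 1 8 (.cons 0x7654098123 .nil) (.node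 4 9 (.cons 0x9456781230 .nil) (.leaf 0x8123094567 0 (.node 7 9 (.cons 0x3218976540 .nil) (.leaf 0x4032189765 2 .done) .done)) .done) (.leaf 0x8912340567 5 .done)) .done)) .done) (.node 2 6 (.cons 0x1453267890 .nil) (.leaf 0x145326789 0 (.leaf 0x9014532678 2 (.node 5 9 (.cons 0x3621478950 .nil) (.node 2 5 (.cons 0x4109876352 .nil) (.node 2 9 (.cons 0x3456789210 .nil) (.leaf 0x5430129876 3 (.node 4 8 (.cons 0x9267845301 .nil) (.leaf 0x3529014876 5 (.leaf 0x5367841092 0 .done)) (.node 0 6 (.cons 0x3506298741 .nil) (.leaf 0x1435298760 1 (.leaf 0x7601435298 2 .done)) .done))) .done) (.leaf 0x6214789503 4 .done)) .done))) .done)) .done))) (.node 0 6 .nil (.node 1 9 (.cons 0x7891234560 (.cons 0x5067891432 .nil)) (.node 2 6 (.cons 0x3267891450 .nil) (.leaf 0x1054326789 0 (.leaf 0x9105432678 2 .done)) (.leaf 0x6054321987 2 .done)) (.node 1 3 (.cons 0x6789054132 .nil) (.node 0 4 .nil (.node 1 9 (.cons 0x5678912340 .nil) (.node 2 6 (.cons 0x3267890541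 (.cons 0x3267891450 .nil)) (.leaf 0x1054326789 0 .done) (.leaf 0x5403219876 3 .done)) (.node 5 7 (.cons 0x4098756321 .nil) (.leaf 0x412365789 2 (.leaf 0x4123657890 0 (.node 3 5 (.cons 0x6357890412 .nil) (.node 5 8 (.cons 0x7609854123 .nil) (.node 1 5 (.cons 0x4150987632 .nil) (.node 2 4 (.cons 0x3657890421 .nil) (.leaf 0x1365789042 0 (.leaf 0x4236789051 0 .done)) .done) .done) .done) .done))) .done)) (.node 2 6 (.cons 0x3267890541 .nil) (.leaf 0x4509876231 4 (.leaf 0x4509876231 3 .done)) .done)) .done)) .done))) (.node 0 5 (.cons 0x2367890541 .nil) (.node 3 7 (.cons 0x8905412376 .nil) (.node 6 8 (.cons 0x4509867321 .nil) (.leaf 0x6890541237 0 (.node 1 8 (.cons 0x6732189054 .nil) (.node 0 6 .nil (.node 7 9 (.cons 0x6054379812 .nil) (.leaf 0x5412379860 6 (.leaf 0x2345067981 3 (.leaf 0x3456097812 0 .done))) (.node 0 7 (.cons 0x9867054123 .nil) (.node 6 9 (.cons 0x8967345012 .nil) (.node 5 8 (.cons 0x9032145876 .nil) (.leaf 0x321458769 5 (.leaf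 0x321458769 2 .done)) (.node 2 9 (.cons 0x3456789210 .nil) (.node 2 6 (.cons 0x7018926543 .nil) (.leaf 0x1073456298 5 .done) (.leaf 0x1054376892 4 (.leaf 0x4307812965 5 (.leaf 0x9210543768 0 .done)))) .done)) .done) .done)) (.node 4 9 (.cons 0x1237689450 .nil) (.leaf 0x7689450123 1 (.node 1 7 (.cons 0x9456871230 .nil) (.leaf 0x8654903217 0 (.node 2 7 (.cons 0x4981723650 .nil) (.node 2 9 (.cons 0x3456789210 .nil) (.leaf 0x6372945018 4 (.leaf 0x2943650187 0 (.leaf 0x1037865492 5 .done))) (.leaf 0x8945012736 3 .done)) .done)) (.node 2 5 (.cons 0x1452367890 .nil) (.leaf 0x9418765230 2 (.leaf 0x8901452367 3 (.leaf 0x4187652309 0 .done))) (.leaf 0x1876549032 0 .done)))) .done)) (.leaf 0x5098673214 4 .done))) (.node 0 6 .nil (.node 5 9 (.cons 0x4378956012 (.cons 0x8950673412 .nil)) (.leaf 0x4598760123 2 (.leaf 0x3067895412 0 .done)) (.node 6 8 (.cons 0x7689054123 .nil) (.node 3 5 .nil (.node 2 6 (.cons 0x7890145362 .nil) (.leaf 0x7621453098 2 (.leaf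 0x145326789 0 (.leaf 0x9014532678 2 .done))) (.node 6 9 (.cons 0x8769032145 .nil) (.node 5 8 (.cons 0x9032145876 .nil) (.leaf 0x321458769 5 (.leaf 0x321458769 2 .done)) (.node 2 7 (.cons 0x9687214530 .nil) (.node 5 8 (.cons 0x2143769850 .nil) (.leaf 0x7690321458 6 (.node 2 9 (.cons 0x3456789210 .nil) (.leaf 0x4129850673 5 (.leaf 0x5430129876 3 (.leaf 0x5368729014 3 (.leaf 0x8763092145 3 .done)))) .done)) (.leaf 0x3506987214 2 (.leaf 0x5069872143 0 .done))) .done)) .done)) (.leaf 0x9054123768 3 .done)) .done)) .done)) (.leaf 0x4509876321 2 (.node 2 9 (.cons 0x3456789210 .nil) (.node 0 7 (.cons 0x8921076543 .nil) (.node 3 7 .nil (.node 0 4 (.cons 0x8904567321 (.cons 0x6540987321 .nil)) (.node 1 7 (.cons 0x8923405671 .nil) (.leaf 0x5409871236 1 (.leaf 0x5409871236 5 .done)) .done) (.node 0 4 (.cons 0x8921043765 .nil) (.node 5 8 (.cons 0x4376589210 .nil) (.node 6 9 (.cons 0x8769032145 .nil) (.node 0 6 .nil (.node 1 5 (.cons 0x8967043215 (.cons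 0x9607851234 (.cons 0x7069851234 (.cons 0x8923760514 .nil)))) .done .done) (.leaf 0x4123096785 5 .done)) (.leaf 0x9210763458 2 (.node 0 6 (.cons 0x5892143760 .nil) (.leaf 0x4129850673 2 .done) .done))) (.node 1 7 (.cons 0x2365409871 .nil) (.leaf 0x5409871236 1 (.leaf 0x5409871236 5 .done)) .done)) .done)) (.node 0 6 .nil (.node 1 9 (.cons 0x7891234560 (.cons 0x5067891432 .nil)) (.leaf 0x3219870654 3 .done) (.node 3 7 (.cons 0x8906732145 .nil) (.node 0 4 .nil (.node 1 5 (.cons 0x8906732154 (.cons 0x8904512376 (.cons 0x9870432156 (.cons 0x8923670415 .nil)))) (.leaf 0x2156789043 2 .done) (.node 1 7 (.cons 0x2365409871 .nil) (.leaf 0x5409871236 1 (.leaf 0x5409871236 5 .done)) .done)) .done) .done)) .done)) (.leaf 0x5430129876 3 (.node 1 6 (.cons 0x1678923450 .nil) (.leaf 0x2345016789 0 (.leaf 0x9234501678 2 (.node 0 6 .nil (.node 5 7 (.cons 0x8906754123 .nil) (.leaf 0x9875436012 3 (.leaf 0x614329875 5 (.leaf 0x8921063457 5 (.leaf 0x6057892341 3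 .done)))) (.node 0 4 (.cons 0x5043298761 .nil) (.node 1 7 (.cons 0x8923450671 .nil) (.leaf 0x5409871236 1 (.leaf 0x5409871236 5 .done)) .done) .done)) (.node 1 8 (.cons 0x9032187654 .nil) (.node 1 9 (.cons 0x8761923054 .nil) (.node 4 8 (.cons 0x9230548761 .nil) (.leaf 0x3291678450 5 (.leaf 0x2305487619 0 .done)) (.node 0 4 (.cons 0x5678912340 .nil) (.node 1 7 (.cons 0x8917650432 .nil) (.node 0 6 (.cons 0x5067891432 .nil) (.node 1 5 (.cons 0x2987634510 .nil) (.leaf 0x8760514329 0 .done) .done) .done) (.leaf 0x8912340567 3 .done)) .done)) (.node 6 8 .nil (.node 1 7 (.cons 0x1768923450 .nil) (.leaf 0x9234501768 2 (.leaf 0x2345017689 0 .done)) (.node 1 7 .nil (.node 0 4 (.cons 0x9817650432 (.cons 0x2365409871 .nil)) (.leaf 0x5409871236 2 .done) (.node 5 8 (.cons 0x9032145876 .nil) (.node 0 4 (.cons 0x9236178540 .nil) (.leaf 0x1632904587 0 (.leaf 0x7163290458 2 .done)) (.node 6 9 (.cons 0x9678541230 .nil) (.leaf 0x2103458769 1 (.node 2 8 .nil (.node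 1 3 (.cons 0x6789054132 (.cons 0x9286713450 .nil)) (.leaf 0x1328769054 0 .done) (.node 7 9 (.cons 0x5032879614 .nil) (.leaf 0x3012879654 5 (.leaf 0x3012879654 2 .done)) .done)) .done)) .done)) .done)) .done)) .done)) .done)))) (.node 2 5 (.cons 0x5298763410 .nil) (.leaf 0x7634105298 2 (.leaf 0x6341052987 0 (.leaf 0x8901452367 3 (.node 5 8 (.cons 0x9258763014 .nil) (.node 6 9 (.cons 0x7852963014 .nil) (.node 4 7 (.cons 0x9258741036 .nil) (.leaf 0x1296587430 5 (.leaf 0x2103478569 0 (.leaf 0x2965874301 6 .done))) (.leaf 0x4123096785 5 .done)) (.node 6 9 (.cons 0x5876921430 .nil) (.leaf 0x321458769 2 (.leaf 0x2143058769 0 .done)) .done)) .done)))) .done)))) .done))) .done)))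
noncomputable def uc9_7_3 : T := tc9_7_7
theorem sub_c9_7_3 : root 9 refs9_7 [] 0x800000003807000000007060000000060500000000504000000004030500000030108000000102000000502013000008010 0xfef7fe7fff3fff9fffcfffc7fef5fff9ffd9fef5 9 3 6 (.cons 0x5412367890 .nil) uc9_7_3 = true := by decide +kernel
noncomputable def tc9_7_8 : T := (.node 3 6 (.cons 0x5436789210 .nil) (.node 0 7 (.cons 0x8921076345 .nil) (.node 2 7 .nil (.node 4 8 (.cons 0x7098412365 (.cons 0x5489012763 (.cons 0x5632709841 (.cons 0x5489036721 .nil)))) .done (.node 0 6 (.cons 0x7890654123 .nil) (.node 2 6 (.cons 0x9876210345 .nil) (.node 5 7 (.cons 0x8907563214 .nil) (.node 1 6 (.cons 0x6145789032 .nil) (.leaf 0x7890326145 3 .done) (.node 2 8 (.cons 0x9821436570 .nil) (.node 0 8 (.cons 0x9807563412 .nil) (.node 1 6 (.cons 0x3614572980 .nil) (.leaf 0x6145729803 0 .done) .done) .done) .done)) .done) (.node 1 3 (.cons 0x9872314560 .nil) (.node 2 5 (.cons 0x3452987601 .nil) (.leaf 0x678925431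 1 (.leaf 0x678925431 5 (.leaf 0x678925431 2 .done))) .done) .done)) .done)) (.node 2 7 (.cons 0x8907236541 .nil) (.node 7 9 .nil (.node 2 8 (.cons 0x7098236541 (.cons 0x8210973654 (.cons 0x1456328970 .nil))) .done (.node 0 8 (.cons 0x5634127980 .nil) (.node 0 5 (.cons 0x8972143650 .nil) (.leaf 0x4501298763 2 (.node 2 8 (.cons 0x8214563790 .nil) (.node 6 8 (.cons 0x3412798650 .nil) (.leaf 0x4127986503 5 (.leaf 0x543768921 4 (.leaf 0x4501298673 3 .done))) .done) .done)) (.node 0 5 (.cons 0x8972143650 .nil) (.leaf 0x4501298763 2 (.leaf 0x4127980563 5 (.leaf 0x1436508972 0 .done))) .done)) .done)) (.node 5 7 .nil (.node 1 8 (.cons 0x9814563270 (.cons 0x4576321890 (.cons 0x4189075632 (.cons 0x6329814570 .nil)))) .done (.node 2 8 (.cons 0x4576309821 .nil) (.node 7 9 (.cons 0x8210973654 .nil) (.node 1 7 (.cons 0x4563289071 .nil) (.node 4 7 (.cons 0x5634798210 .nil) .done .done) .done) (.leaf 0x3098214576 4 .done)) .done)) .done)) .done)) (.node 0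 5 (.cons 0x6789210543 .nil) (.leaf 0x7892105436 2 (.node 6 8 (.cons 0x7689210543 .nil) (.node 4 7 (.cons 0x5632147890 .nil) (.node 1 9 (.cons 0x3219867450 .nil) (.leaf 0x6891230547 3 (.node 0 4 (.cons 0x5678912340 .nil) (.node 1 8 (.cons 0x9045678123 .nil) (.node 3 9 (.cons 0x1239867450 .nil) (.leaf 0x4093218765 3 (.leaf 0x5476893210 5 (.leaf 0x456781239 5 .done))) .done) (.leaf 0x9876504321 6 .done)) .done)) (.leaf 0x3650987412 5 (.leaf 0x6321478905 6 .done))) (.leaf 0x543768921 4 (.leaf 0x4501298673 3 .done))) (.node 0 8 (.cons 0x9087321456 .nil) (.node 0 7 .nil (.node 1 9 (.cons 0x8912345670 (.cons 0x6507891234 .nil)) (.leaf 0x2345670891 3 .done) (.node 0 4 (.cons 0x7890412365 .nil) (.node 0 6 (.cons 0x7890654123 .nil) (.node 0 2 .nil (.node 5 7 (.cons 0x4123657890 (.cons 0x9875634120 .nil)) (.leaf 0x1029875634 3 .done) .done) .done) (.node 5 7 (.cons 0x4123657890 .nil) (.node 5 8 (.cons 0x6329857041 .nil) (.leaf 0x436758921 6 (.leaf 0x129857634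 0 .done)) (.leaf 0x1236578904 6 .done)) .done)) .done)) (.node 6 8 (.cons 0x9210543786 .nil) (.node 6 9 (.cons 0x8732145690 .nil) (.leaf 0x5412378096 3 (.leaf 0x543786921 5 (.leaf 0x5437869210 6 .done))) (.node 1 3 (.cons 0x6873129054 .nil) (.node 5 8 (.cons 0x4586731290 .nil) (.node 0 4 (.cons 0x9213768540 .nil) (.node 7 9 (.cons 0x9785632140 .nil) (.leaf 0x4586792130 0 (.leaf 0x6321409785 3 (.leaf 0x5403129768 5 .done))) (.leaf 0x6731290458 3 .done)) .done) .done) .done)) .done)) (.leaf 0x9876345012 1 .done)))) (.node 2 7 (.cons 0x1456327890 .nil) (.node 0 7 .nil (.node 1 8 (.cons 0x9078145632 .nil) (.leaf 0x4563270981 0 (.leaf 0x9072365418 3 (.leaf 0x7092365418 5 (.leaf 0x4563290781 6 .done)))) (.node 7 9 .nil (.node 2 8 (.cons 0x9014563782 .nil) (.leaf 0x1289765430 6 (.leaf 0x7982103456 3 .done)) (.node 5 7 .nil (.node 0 6 (.cons 0x7890654123 (.cons 0x8921067543 .nil)) (.leaf 0x4578906321 1 (.leaf 0x9875436012 4 .done)) (.node 2 5 (.cons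 0x9872563410 .nil) (.leaf 0x6527890143 6 (.node 1 7 (.cons 0x8925436710 .nil) (.node 4 7 (.cons 0x8901472563 .nil) .done .done) (.leaf 0x8725634109 3 .done))) .done)) .done)) .done)) (.node 2 8 (.cons 0x9014563782 .nil) (.node 3 8 .nil (.node 4 9 (.cons 0x2873654901 (.cons 0x3894567210 .nil)) (.leaf 0x5490128376 6 (.leaf 0x5637821094 2 .done)) (.node 0 8 (.cons 0x9087321456 .nil) (.node 1 3 .nil (.node 2 4 (.cons 0x9087654231 .nil) (.leaf 0x1365427890 0 (.leaf 0x9876542310 2 .done)) (.node 3 5 (.cons 0x6729801354 .nil) (.node 3 9 (.cons 0x2789365410 .nil) .done .done) .done)) .done) .done)) (.node 3 8 .nil (.node 2 4 (.cons 0x9014287365 (.cons 0x9012456783 (.cons 0x7654210983 .nil))) .done (.node 0 8 (.cons 0x9087321456 .nil) (.node 2 4 (.cons 0x9014287365 .nil) (.node 2 6 (.cons 0x9087326541 .nil) (.node 5 8 (.cons 0x9267345801 .nil) (.leaf 0x9014587362 0 (.leaf 0x9263785410 6 .done)) .done) (.node 1 7 (.cons 0x9836542710 .nil) (.leaf 0x8365427109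 3 (.leaf 0x6389017245 4 .done)) .done)) .done) .done)) .done)) .done)) .done))) (.node 0 6 (.cons 0x7890654123 .nil) (.node 0 7 .nil (.node 3 9 (.cons 0x8760129345 (.cons 0x8934567012 (.cons 0x6543987012 .nil))) (.leaf 0x4560789321 5 .done) (.node 7 9 (.cons 0x8790654123 .nil) (.node 3 8 (.cons 0x3879065412 .nil) (.leaf 0x5609783214 4 (.node 3 6 (.cons 0x5436789210 .nil) (.node 3 9 (.cons 0x8760129345 .nil) (.node 2 6 (.cons 0x7893456210 .nil) (.leaf 0x3987012654 1 (.leaf 0x8934562107 5 .done)) .done) .done) .done)) .done) .done)) (.leaf 0x5412378906 0 (.node 2 7 .nil (.node 5 9 (.cons 0x6789543012 (.cons 0x8954301276 (.cons 0x1432789560 (.cons 0x3412789560 .nil)))) (.leaf 0x7895601432 3 .done) (.node 2 4 .nil (.node 3 6 (.cons 0x5436789210 (.cons 0x5637890142 .nil)) (.leaf 0x2109873654 4 (.node 5 8 (.cons 0x7634589210 (.cons 0x7365890124 (.cons 0x9854210367 (.cons 0x7365890142 (.cons 0x7630985421 .nil))))) .done .done)) (.node 3 8 (.cons 0x7654210983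 .nil) (.node 0 8 (.cons 0x9801243765 .nil) (.node 0 7 .nil (.node 1 9 (.cons 0x6541908723 (.cons 0x8912345670 .nil)) (.leaf 0x7654321980 3 .done) .done) .done) (.leaf 0x2109837654 0 .done)) .done)) (.node 2 6 (.cons 0x9876210345 .nil) (.node 3 6 (.cons 0x5436789210 .nil) (.node 2 4 .nil (.node 5 8 (.cons 0x7634589210 (.cons 0x7365890124 (.cons 0x9854210367 (.cons 0x9856372410 (.cons 0x7630985421 .nil))))) .done (.node 3 8 (.cons 0x7654210983 .nil) (.node 3 9 (.cons 0x7839012654 .nil) (.node 3 5 (.cons 0x4106539872 .nil) (.leaf 0x1065398724 1 .done) .done) (.leaf 0x2109837654 0 .done)) .done)) (.node 2 4 (.cons 0x5637890142 .nil) (.node 0 2 (.cons 0x5436789201 .nil) (.node 2 5 (.cons 0x4109873652 .nil) .done .done) .done) .done)) (.node 2 4 .nil (.node 3 6 (.cons 0x5436789210 (.cons 0x5637890142 .nil)) (.leaf 0x2109873654 4 .done) (.node 2 5 .nil (.node 4 6 (.cons 0x5641237890 (.cons 0x1465237890 (.cons 0x3098764521 .nil))) .done (.node 0 2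 .nil (.node 3 6 (.cons 0x5436789210 (.cons 0x5436789201 .nil)) (.leaf 0x1209873654 4 .done) .done) .done)) .done)) .done)) .done))) (.node 0 7 .nil (.node 1 9 (.cons 0x8912345670 (.cons 0x5607891432 .nil)) (.node 0 8 (.cons 0x9123456780 .nil) (.leaf 0x5432190876 2 (.leaf 0x2345670891 3 .done)) .done) (.node 2 7 (.cons 0x3278906541 .nil) (.node 1 9 (.cons 0x3278914560 .nil) (.node 3 8 (.cons 0x7238914560 .nil) (.leaf 0x5607238914 3 (.node 0 4 (.cons 0x1983276540 .nil) (.node 1 3 (.cons 0x9872314560 .nil) (.leaf 0x456729831 5 .done) .done) .done)) (.leaf 0x2789145603 1 .done)) .done) .done)) .done)))) (.node 3 6 (.cons 0x5436789210 .nil) (.node 0 6 (.cons 0x2378906541 .nil) (.leaf 0x4560987321 5 (.node 0 7 .nil (.node 1 9 (.cons 0x8912345670 .nil) (.leaf 0x3219870654 5 (.node 3 9 (.cons 0x8934567012 (.cons 0x6543987012 .nil)) (.leaf 0x1239870654 5 .done) .done)) (.node 2 6 (.cons 0x1456237890 .nil) (.node 5 8 (.cons 0x6378541092 .nil) (.leaf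 0x926378541 5 (.leaf 0x9014587362 0 (.node 1 6 (.cons 0x7854163290 .nil) (.node 1 8 (.cons 0x5437629810 .nil) (.leaf 0x3265418907 5 (.leaf 0x3265418907 1 .done)) .done) (.leaf 0x9263785410 6 .done)))) (.node 3 5 (.cons 0x6298735410 .nil) (.leaf 0x9260145378 5 (.node 1 6 (.cons 0x4537892610 .nil) (.node 0 4 (.cons 0x6298735401 .nil) (.node 1 3 (.cons 0x8926731045 .nil) (.node 3 8 (.cons 0x7654098321 .nil) .done .done) (.leaf 0x1629873540 0 .done)) .done) .done)) .done)) .done)) (.node 1 3 (.cons 0x7890654132 .nil) (.node 1 9 .nil (.node 0 2 (.cons 0x8732091456 (.cons 0x6543789102 (.cons 0x7891432065 .nil))) (.leaf 0x8765430219 5 (.leaf 0x7891203456 0 .done)) (.node 0 7 (.cons 0x5607891432 .nil) (.node 0 4 (.cons 0x5678912340 .nil) (.node 0 5 (.cons 0x4321987650 .nil) (.leaf 0x2105436789 3 .done) .done) (.node 2 5 (.cons 0x7891432560 .nil) (.leaf 0x4310678925 2 (.leaf 0x4325607891 3 (.leaf 0x6523419870 6 (.leaf 0x9876013452 2 .done)))) .done))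 .done)) (.node 2 5 (.cons 0x3452987601 .nil) (.leaf 0x678925431 1 (.leaf 0x678925431 5 (.leaf 0x678925431 2 (.node 1 9 (.cons 0x4523067891 .nil) (.node 4 9 (.cons 0x7894132560 .nil) (.leaf 0x367894521 6 (.leaf 0x125498763 0 .done)) .done) .done)))) .done)) .done))) (.node 0 7 (.cons 0x8921076345 .nil) (.node 3 9 (.cons 0x8709321456 .nil) (.node 6 8 (.cons 0x4568709321 .nil) (.leaf 0x7093214568 5 (.leaf 0x5412390786 6 (.leaf 0x786541239 3 (.leaf 0x2934568701 0 .done)))) (.node 3 8 (.cons 0x9078321456 .nil) (.node 6 9 (.cons 0x4569078321 .nil) (.leaf 0x7096541238 3 (.node 7 9 .nil (.node 0 6 (.cons 0x5438706921 .nil) (.leaf 0x9783214560 5 (.leaf 0x7906541238 3 .done)) .done) .done)) .done) .done)) (.node 7 9 .nil (.node 5 8 (.cons 0x7634589210 (.cons 0x4365897012 (.cons 0x4123658970 (.cons 0x2143658970 .nil)))) (.leaf 0x763458921 0 .done) (.node 0 6 (.cons 0x2378906541 .nil) (.node 3 8 (.cons 0x3879065412 .nil) (.leaf 0x5609783214 4 (.leaf 0x654123879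 3 .done)) (.node 5 7 (.cons 0x8907563214 .nil) (.node 4 7 (.cons 0x8907412365 .nil) (.node 4 8 (.cons 0x7098412365 .nil) (.leaf 0x3657098412 5 (.leaf 0x6321489075 6 .done)) .done) (.node 6 9 (.cons 0x6987541230 .nil) (.leaf 0x4578960321 0 .done) .done)) .done)) .done)) .done)) (.node 3 8 .nil (.node 2 4 (.cons 0x5637890142 (.cons 0x9012456783 (.cons 0x2456738901 .nil))) .done (.node 0 6 (.cons 0x2378906541 .nil) (.node 7 9 (.cons 0x4560978321 .nil) (.leaf 0x7906541238 0 (.leaf 0x5609783214 4 .done)) (.leaf 0x4560987321 5 (.node 3 9 .nil (.node 0 4 (.cons 0x7890412365 (.cons 0x8765409321 .nil)) (.leaf 0x9876540123 2 .done) (.node 1 3 (.cons 0x7890654132 .nil) (.node 3 5 .nil (.node 0 4 (.cons 0x7890412365 .nil) (.leaf 0x7892104536 2 (.node 1 7 (.cons 0x8904567123 (.cons 0x6098714532 (.cons 0x4178906532 (.cons 0x8923540671 .nil)))) .done .done)) .done) .done) .done)) .done))) .done)) .done))) .done)))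
noncomputable def tc9_7_9 : T := (.node 3 7 (.cons 0x6541237890 .nil) (.node 0 7 (.cons 0x8921076543 .nil) (.node 0 8 (.cons 0x9087321456 .nil) (.node 0 2 .nil (.node 6 9 (.cons 0x8732145690 (.cons 0x5698702341 (.cons 0x9654378021 .nil))) (.leaf 0x3780129654 2 .done) (.node 2 4 .nil (.node 3 5 (.cons 0x8921076534 (.cons 0x9870124356 (.cons 0x8924356701 .nil))) (.leaf 0x9012435678 0 .done) (.node 6 9 (.cons 0x8732145690 .nil) (.leaf 0x3780129654 2 (.node 4 9 (.cons 0x6549087321 .nil) (.node 4 8 (.cons 0x5670129843 .nil) (.node 3 8 (.cons 0x7654389210 .nil) (.node 4 7 (.cons 0x5674389210 .nil) .done .done) .done) .done) (.node 2 8 (.cons 0x3782145690 .nil) (.leaf 0x7821456903 6 (.leaf 0x4128730965 3 .done)) .done))) .done)) .done)) (.node 1 7 (.cons 0x1765432980 .nil) (.leaf 0x4329801765 2 (.node 2 7 (.cons 0x3456729801 .nil) (.node 1 3 (.cons 0x4567132980 .nil) (.leaf 0x4310892765 2 (.leaf 0x892765431 1 .done)) .done) .done)) .done)) (.node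 3 8 (.cons 0x7654389210 .nil) (.leaf 0x9834567012 2 (.node 0 8 (.cons 0x9087321456 .nil) (.node 4 7 (.cons 0x5674389210 .nil) (.node 0 5 (.cons 0x7650129834 .nil) (.leaf 0x3892105674 2 (.leaf 0x3892105674 5 .done)) (.node 0 5 (.cons 0x1298347650 .nil) (.node 1 3 (.cons 0x8312905674 .nil) (.node 1 5 (.cons 0x6789032154 .nil) (.node 5 7 (.cons 0x6570143892 .nil) .done .done) .done) (.leaf 0x8347650129 3 .done)) .done)) .done) (.node 0 8 (.cons 0x9087321456 .nil) (.node 6 9 (.cons 0x8732145690 .nil) (.leaf 0x3780129654 2 (.node 2 8 (.cons 0x7345692801 .nil) (.leaf 0x928376541 3 (.node 0 5 (.cons 0x9650143782 .nil) (.leaf 0x6501437829 2 (.node 0 2 (.cons 0x7654389201 .nil) (.node 1 7 (.cons 0x2983456710 .nil) (.leaf 0x8320965417 0 (.leaf 0x8234170569 0 (.leaf 0x829654371 2 .done))) .done) .done)) (.node 5 8 (.cons 0x4582967301 .nil) (.leaf 0x2967301458 3 .done) .done))) (.node 2 8 (.cons 0x3782145690 .nil) (.leaf 0x928376541 3 (.leaf 0x7821456903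 6 (.leaf 0x4128730965 3 .done))) .done))) (.node 6 8 (.cons 0x7386541092 .nil) (.node 1 9 (.cons 0x8654192370 .nil) (.leaf 0x7329145680 4 (.node 2 8 (.cons 0x4567382901 .nil) (.node 0 2 (.cons 0x7654389201 .nil) (.node 0 4 (.cons 0x5678912340 .nil) (.node 0 6 (.cons 0x5607891432 .nil) .done .done) .done) (.leaf 0x928376541 3 .done)) .done)) (.node 4 8 (.cons 0x5486730921 .nil) (.node 5 9 (.cons 0x7341295680 .nil) (.leaf 0x6807341295 3 (.leaf 0x843765921 2 (.leaf 0x8437659210 0 .done))) .done) .done)) .done)) .done))) .done)) (.node 0 7 (.cons 0x8921076543 .nil) (.node 3 8 (.cons 0x7654389210 .nil) (.node 6 9 (.cons 0x4569078321 .nil) (.leaf 0x3870129654 2 (.leaf 0x7096541238 3 (.node 3 9 (.cons 0x8709321456 .nil) (.node 4 9 (.cons 0x6549078321 .nil) (.node 2 4 (.cons 0x3870965421 .nil) (.node 7 9 (.cons 0x6542109783 .nil) .done .done) .done) .done) .done))) (.node 3 9 (.cons 0x8709321456 .nil) (.node 6 8 (.cons 0x4568709321 .nil) (.leaf 0x3921078654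 2 (.leaf 0x9210786543 0 (.node 4 8 (.cons 0x5673489210 .nil) (.node 3 5 (.cons 0x3548670921 .nil) (.leaf 0x9214865370 1 (.leaf 0x1290735684 2 .done)) .done) .done))) .done) .done)) (.node 3 8 (.cons 0x7654389210 .nil) (.leaf 0x9834567012 2 (.node 3 9 .nil (.node 0 4 (.cons 0x8921043765 (.cons 0x8765409321 .nil)) (.leaf 0x9876540123 2 .done) (.node 2 6 (.cons 0x7893456210 .nil) (.node 5 9 (.cons 0x6789543012 .nil) (.node 0 2 (.cons 0x7654389201 .nil) (.leaf 0x3789562014 5 (.leaf 0x7341026598 0 .done)) (.leaf 0x1034598762 0 .done)) (.leaf 0x3987012654 1 (.leaf 0x8934562107 5 .done))) .done)) .done)) .done)) (.node 0 7 (.cons 0x8921076543 .nil) (.node 3 8 (.cons 0x7654389210 .nil) (.node 6 9 (.cons 0x4569078321 .nil) (.leaf 0x3870129654 2 (.leaf 0x7096541238 3 (.node 3 9 (.cons 0x8709321456 .nil) (.node 1 9 (.cons 0x2196543870 .nil) (.node 7 9 .nil (.node 0 6 (.cons 0x5432198760 (.cons 0x7983456012 .nil)) (.leaf 0x9783214560 5 (.leaf 0x3456012978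 1 .done)) .done) .done) .done) .done))) (.leaf 0x6701298345 2 .done)) (.node 0 6 (.cons 0x2378906541 .nil) (.node 1 8 (.cons 0x9065418732 .nil) (.leaf 0x923781456 6 (.leaf 0x6092378145 5 (.node 2 4 (.cons 0x3765429810 .nil) (.node 3 8 (.cons 0x7654389210 .nil) (.leaf 0x5429018376 1 (.leaf 0x2456738109 2 .done)) (.node 3 5 (.cons 0x6735429810 .nil) (.node 4 8 (.cons 0x5670129843 .nil) (.leaf 0x765348921 4 (.leaf 0x6701298435 3 .done)) (.leaf 0x7601892453 6 (.leaf 0x4298106735 5 .done))) .done)) .done))) (.leaf 0x4560987321 5 (.node 0 8 .nil (.node 1 7 (.cons 0x8923417065 (.cons 0x8092371456 (.cons 0x5432980671 (.cons 0x6541732980 .nil)))) .done (.node 3 8 (.cons 0x7654389210 .nil) (.node 0 5 (.cons 0x7650129834 .nil) (.node 0 2 .nil (.node 1 7 (.cons 0x6543710892 (.cons 0x9871456023 .nil)) (.leaf 0x6710298345 2 (.leaf 0x298345671 1 .done)) .done) (.node 4 7 (.cons 0x5674389210 .nil) (.leaf 0x6501298347 6 (.leaf 0x3892105674 5 (.leaf 0x8347650129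 3 .done))) .done)) .done) .done)) .done))) .done)) .done))) (.leaf 0x1298765430 6 (.node 3 7 (.cons 0x6541237890 .nil) tc9_7_8 (.node 0 4 (.cons 0x5678921043 .nil) (.node 1 9 (.cons 0x8765409123 .nil) (.node 0 7 (.cons 0x8912345670 .nil) (.node 0 8 (.cons 0x7654321980 .nil) (.node 3 7 (.cons 0x6541237890 .nil) (.node 6 9 (.cons 0x8732145690 .nil) (.node 0 2 (.cons 0x5698702341 .nil) (.node 0 6 (.cons 0x7890654123 .nil) .done .done) (.leaf 0x8734569210 4 .done)) (.node 0 6 (.cons 0x2378906541 .nil) (.leaf 0x4560987321 5 (.node 3 8 (.cons 0x9045678321 .nil) (.node 1 3 (.cons 0x7890654132 .nil) (.node 3 5 (.cons 0x4356789210 .nil) (.leaf 0x4012987653 0 (.node 3 9 (.cons 0x8765409321 .nil) .done .done)) .done) .done) .done)) .done)) (.leaf 0x3219807654 6 .done)) (.node 1 5 (.cons 0x6514329870 .nil) (.node 6 8 (.cons 0x9234156870 .nil) (.leaf 0x1568709234 3 (.node 1 3 (.cons 0x9231407865 .nil) (.node 1 6 (.cons 0x5614329870 .nil) .done .done) (.leaf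 0x5143290786 5 (.node 6 9 (.cons 0x5143078692 .nil) (.node 3 9 (.cons 0x2934156870 .nil) (.node 2 8 (.cons 0x1982345670 .nil) (.leaf 0x345192867 5 (.leaf 0x3076829154 0 (.node 2 4 (.cons 0x8769032451 .nil) (.leaf 0x5103967824 1 (.leaf 0x8245103967 2 .done)) .done))) .done) .done) .done)))) (.node 3 9 (.cons 0x8765409321 .nil) (.node 3 8 (.cons 0x9045678321 .nil) (.node 3 7 (.cons 0x6541237890 .nil) (.node 1 3 .nil (.node 1 8 (.cons 0x9045678123 .nil) (.leaf 0x3290456781 6 .done) .done) .done) (.node 3 5 (.cons 0x4356789210 .nil) (.node 3 6 (.cons 0x4156329870 .nil) (.leaf 0x1563298704 3 (.leaf 0x5140789236 5 .done)) (.leaf 0x4012987653 0 .done)) .done)) (.node 1 8 (.cons 0x2390456781 .nil) (.leaf 0x456781239 5 (.leaf 0x456781239 2 .done)) .done)) .done)) .done)) (.node 3 8 (.cons 0x9045678321 .nil) (.leaf 0x2190456783 2 (.node 1 8 (.cons 0x9045678123 .nil) (.node 3 7 (.cons 0x6541237890 .nil) (.node 1 7 .nil (.node 3 6 (.cons 0x8763219045 (.cons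 0x2365417890 .nil)) (.leaf 0x5632178904 2 .done) (.node 3 5 (.cons 0x4356789210 .nil) (.leaf 0x4012987653 0 (.node 4 6 (.cons 0x4653217890 .nil) (.node 5 8 (.cons 0x8546732190 .nil) (.node 0 2 (.cons 0x5891764320 .nil) (.leaf 0x5467320918 2 (.leaf 0x5467320918 5 .done)) (.leaf 0x2309854671 0 .done)) (.leaf 0x7123564098 2 (.leaf 0x7123564098 5 .done))) (.node 0 7 (.cons 0x6534107892 .nil) (.node 2 6 (.cons 0x7892653410 .nil) (.leaf 0x7623540918 2 (.leaf 0x5341078926 0 (.leaf 0x9870143562 3 .done))) .done) .done))) .done)) (.node 7 9 .nil (.node 3 6 (.cons 0x8763219045 .nil) (.leaf 0x2187904563 6 (.leaf 0x4563218790 3 .done)) (.node 3 6 (.cons 0x5638790412 .nil) (.node 0 2 (.cons 0x8790214563 .nil) (.leaf 0x1456387902 6 (.leaf 0x9783654120 5 .done)) (.node 6 9 (.cons 0x5692378140 .nil) (.node 1 5 (.cons 0x9678154032 .nil) (.node 5 7 (.cons 0x3296578140 .nil) (.leaf 0x4032965781 2 .done) (.leaf 0x6923045187 2 .done)) .done) .done)) .done)) .done))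 .done) (.leaf 0x7654091238 2 .done))) .done)) (.node 0 2 .nil (.node 1 9 (.cons 0x1987654320 .nil) (.leaf 0x8765430219 5 (.leaf 0x6543201987 1 (.leaf 0x4567891023 2 .done))) (.node 0 6 (.cons 0x7890654123 .nil) (.node 0 7 .nil (.node 3 8 (.cons 0x7654098321 .nil) (.node 6 9 (.cons 0x9654387021 .nil) (.leaf 0x4569870123 5 (.leaf 0x5690783214 6 (.leaf 0x7096541238 3 .done))) (.leaf 0x983214567 3 (.leaf 0x9076541238 5 .done))) (.node 0 5 (.cons 0x6507892341 .nil) (.node 0 8 .nil (.node 3 7 (.cons 0x6541237890 (.cons 0x9087321456 .nil)) (.node 4 6 (.cons 0x5641237890 (.cons 0x9087321465 .nil)) (.leaf 0x4650129873 0 (.leaf 0x9873214650 4 .done)) .done) .done) .done) .done)) (.node 0 7 (.cons 0x5607892341 .nil) (.node 0 5 .nil (.node 1 6 (.cons 0x9876123054 .nil) (.leaf 0x4329870561 5 (.leaf 0x2167890543 6 (.leaf 0x3416507892 3 (.leaf 0x8761234509 3 .done)))) (.node 0 8 .nil (.node 1 5 (.cons 0x7892341560 (.cons 0x9234156087 (.cons 0x9807651234 .nil)))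 (.node 3 7 (.cons 0x6541237890 (.cons 0x9237806514 (.cons 0x4089237651 .nil))) .done .done) .done) .done)) .done) .done)) (.node 0 5 .nil (.node 3 7 (.cons 0x6541237890 (.cons 0x6509873214 (.cons 0x6501437892 .nil))) (.node 0 7 (.cons 0x6507892341 .nil) (.node 1 6 (.cons 0x9876123054 .nil) (.leaf 0x4329870561 5 (.leaf 0x2167890543 6 (.leaf 0x3416507892 3 (.leaf 0x8761234509 3 .done)))) .done) .done) (.node 0 6 (.cons 0x7890654123 .nil) (.node 0 7 .nil (.node 3 5 (.cons 0x4356789210 (.cons 0x8921076534 (.cons 0x6534107892 .nil))) (.node 3 8 (.cons 0x7654098321 .nil) (.leaf 0x983214567 3 (.leaf 0x9076541238 5 .done)) .done) (.node 0 8 .nil (.node 1 9 (.cons 0x6543207891 (.cons 0x7654321980 (.cons 0x9123450876 .nil))) .done .done) .done)) (.node 0 7 (.cons 0x5607892341 .nil) (.node 0 8 .nil (.node 1 9 (.cons 0x5607891432 (.cons 0x7654321980 (.cons 0x9123450876 .nil))) .done .done) .done) .done)) (.node 0 8 .nil (.node 1 7 (.cons 0x8923405671 (.cons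 0x9234178056 (.cons 0x9804321765 (.cons 0x9804567123 .nil)))) (.node 1 8 (.cons 0x7650432981 .nil) (.leaf 0x3405671892 1 (.leaf 0x432981765 2 .done)) .done) (.node 0 6 (.cons 0x7890654123 .nil) (.node 0 7 (.cons 0x6507892341 .nil) .done .done) .done)) .done))) .done))) (.node 1 5 (.cons 0x1567892340 .nil) (.leaf 0x9876510432 0 (.leaf 0x9234015678 6 (.node 4 6 (.cons 0x9876451230 .nil) (.leaf 0x5123098764 0 (.node 1 6 (.cons 0x9876154032 .nil) (.leaf 0x5403298761 0 (.node 0 6 (.cons 0x7890654123 .nil) (.node 0 7 (.cons 0x6514078923 .nil) (.node 3 6 (.cons 0x7892365140 .nil) (.leaf 0x3651407892 0 .done) .done) .done) .done)) (.node 0 5 (.cons 0x5034678921 .nil) (.leaf 0x6789215034 3 (.node 4 8 (.cons 0x7648921503 .nil) (.node 1 8 (.cons 0x7650432981 .nil) (.node 1 7 (.cons 0x8923405671 .nil) (.node 4 7 (.cons 0x9812347650 .nil) .done (.leaf 0x3405671892 1 .done)) .done) .done) (.node 4 8 .nil (.node 3 7 (.cons 0x1298734650 (.cons 0x3784650921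 .nil)) (.leaf 0x9845673210 5 (.leaf 0x3789210564 0 .done)) (.node 4 7 (.cons 0x6478921503 .nil) (.node 0 7 (.cons 0x3465078921 .nil) (.node 3 7 (.cons 0x1298734650 .nil) (.leaf 0x3789210564 0 .done) .done) .done) .done)) .done))) .done))) .done))) .done))) .done))))
noncomputable def uc9_7_4 : T := tc9_7_9
theorem sub_c9_7_4 : root 9 refs9_7 [] 0x800000003807000000007060000000060500000000504000000004030600000030105000000102000000602013000005010 0xfef7fe7fff3fff9fffcfffa7ffd5fff9ffb9ffd5 9 2 9 (.cons 0x3456789210 .nil) uc9_7_4 = true := by decide +kernel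
noncomputable def tc9_7_10 : T := (.node 3 6 (.cons 0x5436789210 .nil) (.node 2 4 .nil (.node 3 5 (.cons 0x8763542901 .nil) (.leaf 0x1098763542 5 (.leaf 0x9012435678 0 .done)) (.node 2 7 (.cons 0x9872103456 .nil) (.node 3 7 (.cons 0x6541237890 .nil) (.node 0 7 .nil (.node 3 8 (.cons 0x9012456783 .nil) (.leaf 0x983214567 3 (.leaf 0x9076541238 5 .done)) (.node 4 7 (.cons 0x6547890321 .nil) (.node 7 9 .nil (.node 6 8 (.cons 0x5478630921 (.cons 0x9786542103 (.cons 0x3097865421 .nil))) (.leaf 0x7903214568 5 (.leaf 0x1297863450 0 .done)) .done) .done) .done)) (.node 7 9 .nil (.node 6 8 (.cons 0x6873290541 (.cons 0x9786542103 (.cons 0x3097865421 .nil))) (.leaf 0x7903214568 5 (.leaf 0x1297863450 0 .done)) (.node 0 2 (.cons 0x8790214563 .nil) (.node 3 8 (.cons 0x2145638790 .nil) (.leaf 0x4120978365 5 (.leaf 0x1456387902 6 .done)) .done) .done)) .done)) (.node 6 9 (.cons 0x7896543012 .nil) (.leaf 0x5430127896 2 (.leaf 0x8721034569 2 (.node 3 9 (.cons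 0x8724569301 .nil) (.node 3 5 (.cons 0x8729635410 .nil) (.node 0 8 (.cons 0x7654398012 .nil) (.leaf 0x4108729635 5 (.leaf 0x2780145369 5 (.leaf 0x9345672108 2 .done))) .done) (.node 3 8 (.cons 0x5693872410 .nil) (.leaf 0x7839650142 6 (.node 1 9 (.cons 0x6783450192 .nil) (.node 1 3 (.cons 0x9013876542 .nil) (.node 3 7 (.cons 0x6541237890 .nil) .done .done) .done) .done)) .done)) (.node 3 8 (.cons 0x1296783450 .nil) (.leaf 0x5438769210 3 (.node 4 9 (.cons 0x3872149650 .nil) (.leaf 0x6501294387 0 (.node 5 9 (.cons 0x9567834210 .nil) (.leaf 0x3421095678 0 (.leaf 0x8342109567 2 .done)) .done)) (.node 1 6 (.cons 0x3872961450 .nil) (.leaf 0x8729614503 0 (.node 2 6 (.cons 0x9267834501 .nil) (.node 7 9 (.cons 0x3897265410 .nil) (.leaf 0x8972654103 2 (.leaf 0x5627983014 1 .done)) .done) (.leaf 0x8729614503 6 .done))) .done))) .done)))) .done)) (.node 0 2 .nil (.node 1 9 (.cons 0x1987654320 .nil) (.leaf 0x8765430219 2 (.leaf 0x6543201987 1 (.node 4 8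 (.cons 0x9123487650 (.cons 0x7841902365 (.cons 0x9120567843 .nil))) (.leaf 0x912348765 0 .done) .done))) (.node 0 8 (.cons 0x9210876345 .nil) (.node 5 9 (.cons 0x8763459210 .nil) (.leaf 0x4123678095 0 (.leaf 0x7634592108 0 (.leaf 0x876321459 3 (.node 0 7 (.cons 0x6598702143 .nil) (.node 1 8 (.cons 0x3245670981 .nil) (.leaf 0x3418702956 5 (.leaf 0x4563290781 6 .done)) .done) .done)))) (.node 1 7 (.cons 0x9087145632 .nil) (.leaf 0x871456329 3 (.node 0 6 (.cons 0x7890654123 .nil) (.node 3 7 (.cons 0x6541237890 .nil) (.leaf 0x5412378906 0 (.leaf 0x4560987321 5 .done)) .done) (.leaf 0x8092365417 5 (.leaf 0x4563290871 6 .done)))) .done)) .done)) .done))) (.leaf 0x4501298763 2 (.leaf 0x7892105436 2 (.node 3 5 .nil (.node 0 2 (.cons 0x5436789201 .nil) (.leaf 0x1453678920 0 (.leaf 0x9876354102 3 .done)) (.node 1 5 (.cons 0x2987634510 .nil) (.node 2 4 (.cons 0x3678924510 .nil) (.node 3 9 (.cons 0x8763924510 .nil) (.node 3 8 (.cons 0x9012456783 .nil)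 (.node 4 8 (.cons 0x4876509321 .nil) (.leaf 0x935678421 5 (.leaf 0x9356784210 6 .done)) .done) .done) (.leaf 0x1542987630 5 .done)) .done) .done)) .done)))) (.node 0 6 (.cons 0x7890654123 .nil) (.node 0 2 .nil (.node 1 9 (.cons 0x1987654320 .nil) (.leaf 0x8765430219 2 (.leaf 0x6543201987 1 (.node 0 4 (.cons 0x5678912340 .nil) (.node 3 5 (.cons 0x6789045321 (.cons 0x4356789102 .nil)) (.leaf 0x2198765340 3 .done) (.leaf 0x9876504321 6 .done)) .done))) (.node 2 7 (.cons 0x9872103456 .nil) (.node 2 4 .nil (.node 3 9 (.cons 0x8760129345 (.cons 0x5678934210 (.cons 0x5678934201 .nil))) (.node 1 9 (.cons 0x5678910243 .nil) (.node 0 8 (.cons 0x7654398012 (.cons 0x8019345672 .nil)) (.leaf 0x4321908765 0 .done) (.node 3 5 (.cons 0x2435678910 .nil) (.leaf 0x8765342019 1 (.leaf 0x4356789102 2 .done)) .done)) .done) (.node 2 6 .nil (.node 3 7 (.cons 0x6541237890 (.cons 0x1456237890 .nil)) (.leaf 0x2109873456 3 (.node 3 8 (.cons 0x7654210983 (.cons 0x9834501267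 (.cons 0x7629834501 .nil))) .done .done)) (.node 2 8 .nil (.node 3 7 (.cons 0x6541237890 (.cons 0x9821054376 (.cons 0x9821056734 (.cons 0x3765428901 .nil)))) .done (.node 2 5 .nil (.node 4 9 (.cons 0x7894562103 (.cons 0x3498765201 .nil)) (.node 1 3 (.cons 0x5678943120 (.cons 0x8760945213 .nil)) (.leaf 0x2134987650 6 (.node 3 9 (.cons 0x7893012654 (.cons 0x4398765210 (.cons 0x4398765201 .nil))) .done (.leaf 0x4987650213 5 .done))) .done) .done) .done)) .done)) .done)) (.node 6 9 (.cons 0x7896543012 .nil) (.leaf 0x5430127896 2 (.leaf 0x8721034569 2 (.node 3 5 (.cons 0x7896534102 .nil) (.leaf 0x7201435698 0 (.leaf 0x8720143569 2 .done)) (.node 2 6 .nil (.node 1 7 (.cons 0x2178965430 .nil) (.leaf 0x345629871 1 (.leaf 0x1789654302 0 (.leaf 0x8710345629 2 .done))) (.node 3 6 (.cons 0x5436789210 .nil) (.node 4 9 (.cons 0x6549872103 .nil) (.leaf 0x2103654987 1 (.leaf 0x127894563 2 .done)) (.node 4 6 .nil (.node 3 8 (.cons 0x9278360145 (.cons 0x7645098321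 (.cons 0x7643892105 .nil))) .done .done) .done)) .done)) .done)))) .done)) .done)) (.node 3 5 (.cons 0x7890653214 .nil) (.node 1 5 .nil (.node 4 8 (.cons 0x9210678435 (.cons 0x9843215067 (.cons 0x4876092351 (.cons 0x9215348760 .nil)))) .done (.node 0 2 .nil (.node 3 6 (.cons 0x5436789210 (.cons 0x5436789201 .nil)) (.leaf 0x298763451 1 .done) (.node 3 6 (.cons 0x5436789210 .nil) (.node 1 6 (.cons 0x7890321654 .nil) (.node 2 5 .nil (.node 3 9 (.cons 0x4398765210 (.cons 0x7893410652 .nil)) (.leaf 0x8760125439 3 .done) (.node 5 9 (.cons 0x8760129534 .nil) (.node 2 8 (.cons 0x3459287610 .nil) (.leaf 0x3592876014 4 (.leaf 0x8295341067 0 .done)) (.node 5 7 (.cons 0x8759216034 .nil) (.node 2 6 (.cons 0x6298754301 .nil) (.leaf 0x2601435789 0 .done) .done) .done)) .done)) .done) (.node 2 4 (.cons 0x3678924510 .nil) (.leaf 0x1542987630 5 .done) .done)) .done)) .done)) (.node 1 5 (.cons 0x4351067892 .nil) (.node 4 8 (.cons 0x4876092351 .nil) (.node 2 5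 (.cons 0x4352987601 .nil) (.node 5 9 (.cons 0x9512348760 .nil) (.node 0 2 (.cons 0x7895602143 .nil) (.node 2 4 (.cons 0x5342987601 .nil) (.node 1 7 (.cons 0x5324890671 .nil) (.leaf 0x3065987124 3 (.leaf 0x3560987142 3 (.leaf 0x6059843217 3 .done))) .done) .done) .done) (.leaf 0x9876014352 5 .done)) (.leaf 0x923514876 4 (.leaf 0x923514876 3 .done))) (.node 2 4 (.cons 0x5342987601 .nil) (.leaf 0x678924351 1 (.leaf 0x678924351 5 .done)) .done)) .done)) (.node 1 5 (.cons 0x1543298760 .nil) (.node 1 8 (.cons 0x9234518760 .nil) (.node 1 7 (.cons 0x8923450671 .nil) (.leaf 0x3450671892 2 (.node 3 6 (.cons 0x5436789210 .nil) (.leaf 0x541789236 0 (.node 1 3 (.cons 0x7890654132 .nil) (.node 1 6 (.cons 0x7890321654 .nil) .done .done) (.leaf 0x2987145063 3 .done))) .done)) (.leaf 0x7609234518 5 (.node 4 9 (.cons 0x3294518760 .nil) (.leaf 0x2945187603 2 (.node 3 5 .nil (.node 0 4 (.cons 0x9235406781 (.cons 0x6789045321 .nil)) (.leaf 0x1298765340 2 .done)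 (.node 3 7 (.cons 0x6541237890 .nil) (.leaf 0x1450673298 0 (.leaf 0x8145067329 2 (.node 0 4 (.cons 0x2376504981 .nil) (.node 2 4 (.cons 0x1894237650 .nil) (.leaf 0x1560987324 0 .done) (.leaf 0x7321894056 5 .done)) .done))) .done)) (.leaf 0x5187603294 1 .done))) .done))) (.node 0 4 (.cons 0x3298760451 .nil) (.node 1 8 (.cons 0x7605432981 .nil) (.node 3 9 (.cons 0x8765409321 .nil) (.leaf 0x4093218765 3 (.leaf 0x2390456781 6 (.leaf 0x456781239 5 .done))) (.node 1 9 (.cons 0x8765409123 .nil) (.node 3 8 (.cons 0x9045678321 .nil) (.leaf 0x4091238765 3 (.leaf 0x4519238760 3 .done)) .done) .done)) (.node 3 6 (.cons 0x5436789210 .nil) (.leaf 0x2367890451 6 (.node 0 8 (.cons 0x9804512367 .nil) (.node 0 7 (.cons 0x8921076345 .nil) (.node 0 2 .nil (.node 1 3 (.cons 0x4513298760 (.cons 0x9876023154 .nil)) (.leaf 0x8902314567 0 (.leaf 0x298765431 2 .done)) .done) .done) .done) (.leaf 0x8763215409 3 .done))) .done)) .done)) .done))) (.node 1 6 (.cons 0x1678923450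 .nil) (.leaf 0x2345016789 0 (.leaf 0x9234501678 2 (.node 1 9 .nil (.node 0 6 (.cons 0x7890654123 (.cons 0x8760543291 .nil)) (.leaf 0x9123450678 2 .done) (.node 0 6 (.cons 0x7890654123 .nil) (.node 3 9 (.cons 0x8760129345 .nil) (.node 2 4 (.cons 0x5678934210 .nil) (.leaf 0x6789342105 5 (.leaf 0x6789342105 2 .done)) (.node 6 9 (.cons 0x7896543012 .nil) (.node 4 9 .nil (.node 1 8 (.cons 0x9234506781 (.cons 0x5490678123 (.cons 0x3294506781 .nil))) .done .done) .done) .done)) (.node 0 4 (.cons 0x5043298761 .nil) (.node 1 5 (.cons 0x4329876150 .nil) (.node 5 7 (.cons 0x6143298750 .nil) (.node 3 8 (.cons 0x9045678321 .nil) (.leaf 0x1067543892 1 (.node 0 8 (.cons 0x7654321980 .nil) (.node 3 9 (.cons 0x8765409321 .nil) (.leaf 0x8067541239 5 .done) .done) (.leaf 0x6012983457 5 .done))) (.leaf 0x1432987506 3 .done)) (.leaf 0x6789234051 3 .done)) (.node 1 5 (.cons 0x4329876150 .nil) (.leaf 0x5167892340 0 (.leaf 0x8761504329 4 .done)) .done)) .done)) .done))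 (.node 4 7 (.cons 0x9874561230 .nil) (.leaf 0x5612309874 2 (.leaf 0x8903216547 2 (.node 3 5 (.cons 0x6103547892 .nil) (.node 1 5 (.cons 0x6154789230 .nil) (.node 0 6 (.cons 0x5478923061 .nil) (.leaf 0x6032987451 0 (.node 3 6 (.cons 0x5436789210 .nil) (.leaf 0x9876345012 1 (.node 0 7 (.cons 0x5416329870 .nil) (.leaf 0x2361450789 2 (.leaf 0x3614507892 0 (.node 0 8 (.cons 0x7634510892 .nil) (.node 4 9 (.cons 0x7894561230 .nil) (.leaf 0x9432156708 0 (.leaf 0x1678094532 0 .done)) .done) .done))) .done)) (.leaf 0x3298745160 4 .done))) .done) (.node 1 5 (.cons 0x6154789230 .nil) (.node 0 8 (.cons 0x1674532980 .nil) (.node 0 7 (.cons 0x6145078923 .nil) (.node 4 9 (.cons 0x7894561230 .nil) (.leaf 0x6123549807 1 (.leaf 0x6123549807 5 .done)) (.node 4 8 (.cons 0x4890765321 .nil) (.leaf 0x532984167 5 .done) .done)) (.node 2 6 (.cons 0x5347629801 .nil) (.leaf 0x1035478926 5 (.leaf 0x2674351089 0 (.leaf 0x3476298015 4 .done))) .done)) .done) .done)) (.node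 3 5 (.cons 0x6129874530 .nil) (.node 6 8 (.cons 0x9216874530 .nil) (.leaf 0x3547861290 6 (.node 3 6 (.cons 0x5436789210 .nil) (.node 0 6 (.cons 0x7860923541 .nil) (.node 4 6 (.cons 0x7892305461 .nil) .done (.leaf 0x1298745306 3 .done)) (.leaf 0x9876345012 1 .done)) (.leaf 0x5309216874 5 .done))) (.node 0 8 (.cons 0x3547612980 .nil) (.leaf 0x1674530892 2 (.node 0 6 (.cons 0x5347608921 .nil) (.leaf 0x612987453 0 (.node 1 5 (.cons 0x6743512980 .nil) (.leaf 0x674351298 0 .done) .done)) .done)) .done)) .done)))) .done)))) .done)))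
noncomputable def tc9_7_11 : T := (.node 3 6 .nil (.node 0 5 (.cons 0x4509876321 .nil) (.leaf 0x1298763450 6 (.leaf 0x4123678905 0 (.leaf 0x4367892105 5 .done))) (.node 1 6 (.cons 0x7890321654 .nil) (.node 6 9 (.cons 0x7896543012 .nil) (.node 2 6 .nil (.node 3 7 (.cons 0x6543789210 (.cons 0x8735410962 (.cons 0x1456237890 .nil))) (.node 0 5 (.cons 0x6509873214 (.cons 0x4378926501 .nil)) (.node 7 9 (.cons 0x8790653214 (.cons 0x8976210543 (.cons 0x8973412650 .nil))) .done .done) .done) (.node 2 5 .nil (.node 3 7 (.cons 0x6543789210 (.cons 0x3789625410 (.cons 0x2569873410 (.cons 0x4378925601 .nil)))) .done (.node 5 9 .nil (.node 2 7 (.cons 0x2789654301 (.cons 0x8954367210 (.cons 0x6598721034 .nil))) (.leaf 0x5601432789 5 .done) (.node 7 9 (.cons 0x8790653214 .nil) (.node 0 8 (.cons 0x1453269780 .nil) (.leaf 0x6235410879 2 (.leaf 0x9763452108 5 .done)) (.node 4 8 (.cons 0x3489765210 .nil) (.leaf 0x7921065348 0 (.leaf 0x321654879 3 (.node 6 8 (.cons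 0x4356879210 .nil) .done .done))) .done)) .done)) .done)) .done)) (.node 2 6 .nil (.node 1 7 (.cons 0x2178965430 (.cons 0x8712690354 .nil)) (.leaf 0x8712654309 2 (.node 4 9 (.cons 0x6549871230 (.cons 0x8712694530 (.cons 0x1789456230 .nil))) (.leaf 0x3217894560 1 .done) .done)) (.node 2 5 .nil (.node 3 9 (.cons 0x7893012654 (.cons 0x6789345210 (.cons 0x4398765210 (.cons 0x7893410652 .nil)))) .done (.node 5 9 .nil (.node 2 7 (.cons 0x1278965430 (.cons 0x8954367210 (.cons 0x6598721034 .nil))) (.leaf 0x5601432789 5 .done) (.node 0 5 .nil (.node 2 7 (.cons 0x1278965430 (.cons 0x6059872341 (.cons 0x3412789650 .nil))) (.leaf 0x5601432789 5 .done) .done) .done)) .done)) .done)) .done)) (.node 4 7 (.cons 0x9874561230 .nil) (.leaf 0x5612309874 2 (.leaf 0x8903216547 2 (.node 1 3 (.cons 0x5609874132 .nil) (.node 2 5 (.cons 0x3478925601 .nil) (.leaf 0x4789256013 6 (.leaf 0x4789065231 4 .done)) (.node 2 6 (.cons 0x5629874310 .nil) (.node 1 8 (.cons 0x9032654781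 .nil) (.node 0 8 (.cons 0x9087413265 .nil) (.node 3 8 (.cons 0x3874562901 .nil) .done .done) .done) .done) .done)) (.leaf 0x8906532147 0 .done)))) .done)) (.node 3 7 (.cons 0x6543789210 .nil) (.node 2 5 (.cons 0x6378901452 .nil) (.node 3 8 (.cons 0x6738901254 .nil) (.node 4 7 (.cons 0x9834765210 .nil) (.node 1 3 (.cons 0x8745631092 .nil) (.node 3 9 (.cons 0x8390125674 .nil) .done .done) (.leaf 0x1256743890 0 (.leaf 0x8906532147 0 .done))) .done) (.node 2 6 (.cons 0x9873625410 .nil) (.node 1 5 (.cons 0x8736290154 .nil) (.node 1 6 (.cons 0x4529873610 .nil) (.node 4 7 (.cons 0x9874561230 .nil) (.leaf 0x5612309874 2 (.node 5 8 (.cons 0x4732985160 .nil) (.leaf 0x7326098514 5 (.leaf 0x3741589062 6 (.leaf 0x7362901458 4 .done))) (.leaf 0x8906532147 0 .done))) .done) .done) (.leaf 0x9014526378 0 .done)) .done)) (.node 3 8 .nil (.node 2 4 (.cons 0x5637890142 (.cons 0x7836542901 (.cons 0x7654210983 (.cons 0x9012453876 .nil)))) .done (.node 0 8 .nil (.node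 4 6 (.cons 0x5643789210 (.cons 0x9087321465 (.cons 0x4653780921 .nil))) (.leaf 0x873564129 2 .done) (.node 0 5 (.cons 0x6509873214 .nil) (.node 4 8 (.cons 0x4890567321 .nil) (.node 2 5 (.cons 0x4109873652 .nil) (.node 1 5 .nil (.node 0 4 (.cons 0x6537840921 (.cons 0x2904873651 (.cons 0x2367890451 .nil))) .done .done) .done) .done) .done) .done)) .done)) .done)) .done))) (.node 2 5 .nil (.node 3 9 (.cons 0x6789345210 (.cons 0x4398765210 (.cons 0x7893410652 .nil))) (.leaf 0x8760125439 3 .done) (.node 0 5 .nil (.node 3 6 (.cons 0x4509876321 .nil) (.leaf 0x1298763450 6 (.leaf 0x541236789 3 (.node 3 9 (.cons 0x6789345012 (.cons 0x4398765012 .nil)) (.node 0 4 (.cons 0x8765409321 .nil) (.leaf 0x9876540123 2 (.leaf 0x9876540123 1 (.leaf 0x3987652104 2 .done))) .done) .done))) (.node 5 9 .nil (.node 4 7 (.cons 0x6547890321 (.cons 0x8953476012 .nil)) (.leaf 0x5603214789 5 (.leaf 0x6012987435 3 (.node 2 8 (.cons 0x7412890653 (.cons 0x1289534760 .nil))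 (.leaf 0x9534760128 4 (.leaf 0x2895347601 0 .done)) .done))) (.node 0 8 .nil (.node 7 9 (.cons 0x6087952143 (.cons 0x4356798012 (.cons 0x9780652341 .nil))) (.leaf 0x4567980123 1 .done) (.node 0 2 (.cons 0x7895602143 .nil) (.node 2 4 (.cons 0x7895603421 .nil) (.node 1 5 (.cons 0x3421598760 .nil) (.leaf 0x8951243067 5 .done) .done) .done) .done)) .done)) .done)) (.node 1 5 .nil (.node 0 7 (.cons 0x4329870651 .nil) (.leaf 0x8706514329 6 (.leaf 0x6514329870 5 (.node 4 9 (.cons 0x5123498760 (.cons 0x6078941523 (.cons 0x7894306512 .nil))) (.leaf 0x8943215607 2 (.leaf 0x1234987065 1 .done)) .done))) (.node 1 6 (.cons 0x7890321654 .nil) (.node 0 5 .nil (.node 0 8 (.cons 0x9805432167 .nil) (.node 1 9 (.cons 0x7806519234 (.cons 0x6789123450 (.cons 0x4321987650 .nil))) .done .done) (.node 0 8 .nil (.node 7 9 (.cons 0x5432167980 (.cons 0x4356798012 (.cons 0x4329780651 (.cons 0x7980653412 .nil)))) (.leaf 0x4567980123 1 .done) (.node 0 7 (.cons 0x9807612345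 .nil) (.node 5 9 (.cons 0x7612345980 .nil) (.leaf 0x6123459807 5 .done) .done) .done)) .done)) (.node 4 7 (.cons 0x9874561230 .nil) (.leaf 0x5612309874 2 (.leaf 0x8903216547 2 (.leaf 0x6012987435 3 (.node 0 8 (.cons 0x7435608921 .nil) (.node 3 9 (.cons 0x2165478930 .nil) (.node 4 8 (.cons 0x1253984760 .nil) (.leaf 0x3906784512 3 .done) (.leaf 0x2539806741 5 (.leaf 0x893521476 5 .done))) (.node 7 9 (.cons 0x4329780651 .nil) (.leaf 0x5608792341 0 (.leaf 0x5143297806 6 (.leaf 0x6514329780 5 .done))) .done)) .done)))) .done)) .done)) .done))) (.node 2 4 (.cons 0x7892435601 .nil) (.node 3 8 (.cons 0x9012456783 .nil) (.node 0 8 .nil (.node 3 9 (.cons 0x8765421093 (.cons 0x7654398012 (.cons 0x9342108765 .nil))) .done (.node 3 9 (.cons 0x8765421093 .nil) (.node 2 7 (.cons 0x8934567210 .nil) (.leaf 0x4398012765 1 (.leaf 0x9345672108 5 (.leaf 0x9345672108 2 .done))) (.node 4 8 (.cons 0x2487653901 .nil) (.leaf 0x7653901248 3 .done) .done)) .done)) (.node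 5 9 (.cons 0x9567834210 .nil) (.leaf 0x3421095678 0 (.node 6 9 (.cons 0x7896543012 .nil) (.node 3 9 (.cons 0x8765421093 .nil) (.node 2 6 (.cons 0x5439876210 .nil) (.node 7 9 (.cons 0x9783562410 .nil) (.leaf 0x5624109783 2 (.leaf 0x6241097835 0 .done)) .done) .done) (.node 5 7 (.cons 0x1423875690 .nil) (.leaf 0x9657832410 3 (.leaf 0x8756901423 6 .done)) .done)) .done)) .done)) (.node 1 7 (.cons 0x4178906532 .nil) (.node 3 8 (.cons 0x7654210983 .nil) (.node 3 7 (.cons 0x6543789210 .nil) (.node 0 8 (.cons 0x9801243765 .nil) (.node 3 9 (.cons 0x8093245671 .nil) (.node 1 8 (.cons 0x4567180932 .nil) (.leaf 0x817654239 2 (.leaf 0x7654239081 1 .done)) .done) .done) .done) (.node 3 7 (.cons 0x6543789210 .nil) (.node 0 7 (.cons 0x9834210765 .nil) (.node 1 3 (.cons 0x8907654231 .nil) (.node 2 6 (.cons 0x3456298701 .nil) (.leaf 0x5431078926 5 (.leaf 0x9870134562 6 .done)) .done) .done) .done) .done)) (.leaf 0x3560178924 6 (.leaf 0x5342987106 5 (.leaf 0x6532417890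 4 .done)))) (.node 3 6 (.cons 0x2453678901 .nil) (.leaf 0x987635421 6 (.leaf 0x9012453678 5 .done)) .done))) .done)))
noncomputable def tc9_7_12 : T := (.node 3 7 (.cons 0x6543789210 .nil) (.node 3 8 (.cons 0x9065412387 .nil) (.node 0 8 (.cons 0x9087321456 .nil) (.node 1 8 .nil (.node 4 9 (.cons 0x5490678321 (.cons 0x8123765490 (.cons 0x5490678123 (.cons 0x6549037812 .nil)))) (.node 2 5 (.cons 0x6529437801 (.cons 0x7609452381 .nil)) (.node 1 3 (.cons 0x7652318094 .nil) (.leaf 0x8760945231 3 .done) (.leaf 0x6018734925 0 .done)) .done) (.node 2 8 .nil (.node 3 6 (.cons 0x4563782901 .nil) (.leaf 0x5637829014 6 (.node 4 9 (.cons 0x5490678321 (.cons 0x8210945673 (.cons 0x7365492810 (.cons 0x6549037821 .nil)))) (.leaf 0x2109456378 1 .done) (.leaf 0x7829014563 5 .done))) .done) .done)) (.node 0 5 .nil (.node 1 6 (.cons 0x7890321654 (.cons 0x7612389054 .nil)) (.leaf 0x8761234509 3 (.node 4 7 (.cons 0x9874561230 (.cons 0x9874503216 (.cons 0x9238745061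 (.cons 0x9216054783 .nil)))) .done .done)) (.node 0 4 .nil (.node 1 5 (.cons 0x9067832154 (.cons 0x9045123876 .nil)) (.node 1 8 (.cons 0x9812340567 .nil) (.leaf 0x5673218904 3 .done) .done) (.node 3 5 (.cons 0x6789045321 .nil) (.node 1 6 (.cons 0x2354098761 .nil) (.leaf 0x4098761235 1 (.node 5 9 (.cons 0x5987612340 .nil) (.leaf 0x6123405987 3 .done) (.leaf 0x4098761235 2 .done))) .done) .done)) .done)) .done)) (.node 7 9 (.cons 0x8790654123 .nil) (.leaf 0x8321456097 0 (.node 0 8 (.cons 0x9087321456 .nil) (.node 2 8 .nil (.node 3 5 (.cons 0x8790653214 (.cons 0x4356798210 .nil)) (.leaf 0x8790653412 3 .done) (.node 1 8 .nil (.node 0 4 (.cons 0x5679812340 (.cons 0x6540923781 .nil)) (.leaf 0x5673218904 3 .done) .done) .done)) (.node 1 5 (.cons 0x4329780651 .nil) (.leaf 0x8792341560 5 (.leaf 0x7806514329 0 (.node 1 7 (.cons 0x9234560871 .nil) (.node 0 7 .nil (.node 1 9 (.cons 0x7806543291 (.cons 0x8912345670 .nil)) .done .done) .done) .done))) .done))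 (.node 1 8 (.cons 0x1879234560 .nil) (.node 1 3 (.cons 0x8790654132 .nil) (.node 2 8 (.cons 0x2897654310 .nil) (.leaf 0x6541328790 4 .done) .done) (.node 2 8 (.cons 0x3287906541 .nil) (.node 0 8 (.cons 0x9087321456 .nil) (.node 0 5 .nil (.node 1 6 (.cons 0x5416097823 (.cons 0x1679823450 (.cons 0x9782341605 .nil))) .done (.node 6 9 (.cons 0x8734569210 .nil) (.leaf 0x5412378096 3 (.leaf 0x1823796054 4 (.leaf 0x4501289673 3 .done))) .done)) .done) .done) .done)) (.leaf 0x654123879 3 .done)))) (.node 3 5 .nil (.node 4 8 (.cons 0x9067845321 .nil) (.node 3 9 (.cons 0x8456739012 (.cons 0x5487609321 (.cons 0x7843921065 .nil))) .done (.node 1 3 (.cons 0x9067845312 .nil) (.leaf 0x1354876092 0 (.node 1 9 (.cons 0x6548730912 (.cons 0x3548760912 .nil)) (.leaf 0x1906784532 0 .done) .done)) .done)) (.node 3 6 .nil (.node 0 5 (.cons 0x4509876321 .nil) (.leaf 0x1298763450 6 (.leaf 0x4367892105 5 .done)) (.node 0 5 (.cons 0x7890563214 .nil) (.node 4 7 (.cons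 0x5634789210 .nil) (.leaf 0x9874365012 5 (.node 1 3 (.cons 0x8745609231 .nil) (.node 3 9 .nil (.node 0 4 (.cons 0x7890412365 .nil) (.leaf 0x9876540123 2 (.leaf 0x9876540123 1 .done)) .done) .done) (.leaf 0x8905632147 3 .done))) .done) .done)) .done)) .done))) (.leaf 0x8921065437 0 (.node 3 8 (.cons 0x9065412387 .nil) (.node 0 5 (.cons 0x6509873214 .nil) (.node 5 9 (.cons 0x4590678321 .nil) (.node 7 9 (.cons 0x6798345012 .nil) (.node 1 8 (.cons 0x6798123450 .nil) (.leaf 0x5432189760 0 (.leaf 0x5432189760 6 .done)) (.node 3 5 (.cons 0x6097835412 .nil) (.node 1 5 (.cons 0x9067832154 .nil) (.node 1 3 (.cons 0x8792134560 .nil) (.node 1 6 (.cons 0x2167983450 .nil) (.leaf 0x2978345061 3 .done) .done) .done) .done) .done)) (.node 0 2 (.cons 0x6598734120 .nil) (.node 0 4 (.cons 0x8734065921 .nil) (.node 0 7 (.cons 0x6078345921 .nil) .done .done) (.leaf 0x7341206598 0 .done)) .done)) (.node 0 7 .nil (.node 1 6 (.cons 0x4165098732 (.cons 0x4329870561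 (.cons 0x9870321654 .nil))) (.leaf 0x8705614329 0 .done) (.node 0 4 .nil (.node 5 9 (.cons 0x4590678321 (.cons 0x8956734012 (.cons 0x8734065921 .nil))) .done (.node 5 9 (.cons 0x4590678321 .nil) (.node 0 8 (.cons 0x6708954321 .nil) (.node 1 7 (.cons 0x4321765980 .nil) (.leaf 0x3217659804 3 (.leaf 0x6598043217 6 .done)) .done) (.node 0 2 (.cons 0x6598734120 .nil) (.leaf 0x7341206598 0 .done) .done)) .done)) .done)) .done)) (.node 3 6 .nil (.node 0 5 (.cons 0x6509873214 .nil) (.leaf 0x4123678905 0 (.leaf 0x4367892105 5 .done)) (.node 3 5 .nil (.node 4 8 (.cons 0x9067845321 (.cons 0x4873560921 .nil)) (.leaf 0x653784129 5 .done) (.node 1 3 .nil (.node 2 4 (.cons 0x9013876542 .nil) (.leaf 0x5678903124 2 (.leaf 0x9876542310 2 (.leaf 0x9876542310 1 .done))) (.node 3 9 .nil (.node 1 7 (.cons 0x4560923871 (.cons 0x4560178392 .nil)) (.node 2 4 (.cons 0x6542901783 (.cons 0x2456783901 (.cons 0x8390176542 .nil))) (.leaf 0x7839012456 2 .done) .done) .done)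 .done)) .done)) .done)) .done)) (.node 3 8 (.cons 0x9065412387 .nil) (.node 2 8 (.cons 0x9287345601 .nil) (.node 1 9 (.cons 0x8734560192 .nil) (.leaf 0x654378291 3 (.leaf 0x2873456019 0 (.node 1 8 (.cons 0x4560923781 .nil) (.node 1 6 (.cons 0x2987345610 .nil) (.node 0 8 (.cons 0x7345610892 .nil) (.node 4 8 (.cons 0x5609148732 .nil) (.node 0 5 (.cons 0x4321987650 .nil) (.node 2 5 (.cons 0x7384529061 .nil) (.leaf 0x9148732560 5 (.leaf 0x1906523784 6 .done)) .done) .done) .done) .done) .done) .done))) (.node 1 9 (.cons 0x8734560192 .nil) (.leaf 0x654378291 4 (.node 0 5 (.cons 0x6789123450 .nil) (.node 2 5 (.cons 0x8734529106 .nil) (.node 3 5 (.cons 0x8760912354 .nil) .done .done) (.leaf 0x1234506789 0 .done)) (.leaf 0x9106543782 0 .done))) .done)) (.node 7 9 (.cons 0x8790654123 .nil) (.leaf 0x8321456097 0 (.node 3 6 .nil (.node 0 5 (.cons 0x8790563214 .nil) (.leaf 0x1298763450 6 (.leaf 0x4123678905 0 (.leaf 0x4367892105 5 .done))) (.node 3 5 (.cons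 0x8790653214 .nil) (.node 2 8 (.cons 0x9287345601 .nil) (.node 4 8 (.cons 0x6534879210 .nil) (.leaf 0x976354821 2 (.leaf 0x9763548210 0 .done)) (.node 1 3 (.cons 0x9287310654 .nil) (.node 1 8 (.cons 0x4560923781 .nil) .done .done) .done)) .done) .done)) (.leaf 0x654123879 3 .done))) .done)) .done)))) (.node 3 7 (.cons 0x6543789210 .nil) (.node 3 6 .nil (.node 0 5 (.cons 0x4509876321 .nil) (.leaf 0x1298763450 6 (.leaf 0x3450129876 3 (.leaf 0x4367892105 5 .done))) (.node 0 5 (.cons 0x7890563214 .nil) (.node 0 4 (.cons 0x7890412365 .nil) (.node 1 5 (.cons 0x6789045123 .nil) (.node 3 5 (.cons 0x6789045321 .nil) (.node 1 6 (.cons 0x2354098761 .nil) (.leaf 0x4098761235 5 (.leaf 0x4098761235 2 .done)) .done) (.leaf 0x8763215409 3 .done)) (.node 4 7 (.cons 0x5634789210 .nil) (.leaf 0x8921056347 0 (.node 4 8 (.cons 0x9056321487 .nil) (.node 0 8 (.cons 0x9087321456 .nil) (.node 1 8 (.cons 0x9218743650 .nil) (.node 6 9 (.cons 0x8734569210 .nil) (.leaf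 0x2378104569 0 (.leaf 0x5437801296 0 .done)) .done) .done) .done) .done)) .done)) (.node 4 7 (.cons 0x5634789210 .nil) (.leaf 0x9874365012 5 (.node 1 6 (.cons 0x2309874561 .nil) (.node 3 8 (.cons 0x1654783290 .nil) (.leaf 0x6547832901 0 (.leaf 0x5610923874 5 .done)) (.node 1 7 (.cons 0x4178905632 .nil) (.node 2 6 (.cons 0x6298710543 .nil) (.leaf 0x7105436298 1 .done) (.node 2 4 (.cons 0x7892436501 .nil) (.node 2 6 (.cons 0x9871432650 .nil) .done (.leaf 0x3650178924 0 (.leaf 0x9871056342 3 .done))) .done)) .done)) (.leaf 0x8905632147 3 .done))) .done)) (.node 3 5 .nil (.node 4 7 (.cons 0x6547890321 (.cons 0x8906745321 .nil)) (.leaf 0x3560987412 5 (.leaf 0x5321478906 6 .done)) (.node 2 8 (.cons 0x4563782901 .nil) (.leaf 0x5637829014 0 (.node 3 8 .nil (.node 2 4 (.cons 0x8736542901 (.cons 0x7836542901 (.cons 0x7654210983 .nil))) (.node 5 9 (.cons 0x4109563782 (.cons 0x8376095421 .nil)) (.leaf 0x6012459837 5 .done) .done) (.node 1 8 (.cons 0x4563781092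 .nil) (.node 0 8 (.cons 0x9087321456 .nil) (.node 1 5 (.cons 0x7609832154 .nil) (.node 0 5 .nil (.node 1 6 (.cons 0x7890321654 .nil) (.leaf 0x8761234509 3 .done) .done) .done) .done) .done) .done)) (.node 2 7 (.cons 0x1456327890 .nil) (.node 5 9 (.cons 0x7289541063 .nil) (.node 1 8 (.cons 0x1895432760 .nil) (.node 0 5 (.cons 0x6327890541 .nil) (.node 2 5 (.cons 0x6378109254 .nil) .done .done) (.leaf 0x3276018954 0 .done)) (.leaf 0x6372895410 6 .done)) (.node 2 5 (.cons 0x9872563410 .nil) (.leaf 0x6527890143 6 .done) .done)) .done))) .done)) .done))) (.node 3 8 .nil (.node 0 7 (.cons 0x9078321456 .nil) (.leaf 0x2389076541 6 (.leaf 0x3892107654 3 (.node 2 7 (.cons 0x9872103456 (.cons 0x9832706541 .nil)) (.leaf 0x5672109834 3 (.leaf 0x1276543890 6 .done)) .done))) (.node 2 8 (.cons 0x9821067345 .nil) (.node 0 8 .nil (.node 3 9 (.cons 0x7601289345 (.cons 0x7654398012 .nil)) (.leaf 0x876541239 5 .done) (.node 4 8 (.cons 0x5489067321 .nil) (.node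 0 5 .nil (.node 6 8 (.cons 0x9860541237 .nil) (.leaf 0x4123768905 0 .done) (.node 6 8 (.cons 0x9054123786 .nil) (.node 0 7 (.cons 0x9860732145 .nil) (.node 7 9 (.cons 0x5412379860 .nil) (.leaf 0x4123798605 6 (.leaf 0x1450689732 5 .done)) .done) .done) .done)) .done) .done)) (.node 1 8 .nil (.node 2 7 (.cons 0x9872103456 .nil) (.leaf 0x1065437298 5 (.node 4 7 (.cons 0x6547890321 (.cons 0x9032187456 (.cons 0x5609814723 (.cons 0x9812743065 .nil)))) .done .done)) (.node 0 5 (.cons 0x9812345067 .nil) (.node 3 9 (.cons 0x6781239054 .nil) (.node 0 7 (.cons 0x8934567012 .nil) (.leaf 0x1289345670 6 (.leaf 0x6543982107 5 .done)) (.node 2 5 (.cons 0x4528937601 .nil) (.node 3 5 (.cons 0x7609812354 .nil) .done .done) .done)) (.node 0 8 .nil (.node 1 9 (.cons 0x4506732891 (.cons 0x7654321980 .nil)) (.node 6 9 (.cons 0x7328960541 .nil) (.leaf 0x873456921 5 (.leaf 0x8734569210 6 .done)) .done) .done) .done)) .done)) .done)) (.node 4 8 (.cons 0x5489067321 .nil)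 (.node 3 5 (.cons 0x7609845321 .nil) (.node 1 7 (.cons 0x7145609832 .nil) (.node 2 7 (.cons 0x7298345601 .nil) (.leaf 0x6098327145 3 (.node 6 9 (.cons 0x2965438710 .nil) (.leaf 0x8721034569 2 (.leaf 0x7123096548 2 (.leaf 0x7123096548 5 .done))) .done)) (.leaf 0x671235489 3 (.leaf 0x2354890671 6 .done))) (.node 3 9 .nil (.node 1 5 (.cons 0x7609845123 (.cons 0x6784512390 .nil)) (.leaf 0x4512390678 2 .done) (.node 3 6 (.cons 0x7635489012 .nil) (.node 1 3 .nil (.node 2 4 (.cons 0x5678934210 (.cons 0x9013876542 .nil)) (.leaf 0x9876542310 2 .done) .done) .done) .done)) .done)) (.node 4 7 (.cons 0x6547890321 .nil) (.node 1 6 (.cons 0x1654783290 .nil) (.leaf 0x8329016547 6 (.leaf 0x7832901654 5 (.leaf 0x5612309874 2 .done))) (.node 4 6 .nil (.node 5 7 (.cons 0x2983754601 .nil) (.leaf 0x8903214657 5 (.leaf 0x645738921 4 (.leaf 0x7546012983 0 .done))) (.node 3 6 .nil (.node 0 5 (.cons 0x6378450921 .nil) (.leaf 0x1298736450 3 (.leaf 0x4367892105 5 .done))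 (.node 1 6 (.cons 0x2309874561 .nil) (.node 2 6 .nil (.node 0 5 (.cons 0x2987436501 (.cons 0x9873261450 .nil)) (.leaf 0x7362145098 2 .done) .done) .done) .done)) .done)) .done)) .done)) .done))) (.leaf 0x5412378906 0 (.leaf 0x4560987321 5 .done)))) (.node 3 5 (.cons 0x7890653214 .nil) tc9_7_11 (.node 3 7 (.cons 0x6543789210 .nil) (.node 0 8 (.cons 0x9087321456 .nil) (.node 0 7 .nil (.node 3 8 (.cons 0x9078321456 .nil) (.leaf 0x2389076541 6 (.leaf 0x983214567 3 (.leaf 0x4567012983 3 .done))) (.node 1 7 (.cons 0x1789234560 .nil) (.node 2 7 (.cons 0x3278906541 .nil) (.node 1 3 (.cons 0x9872314560 .nil) (.leaf 0x6541327890 4 (.node 1 9 (.cons 0x3278914560 .nil) (.leaf 0x2306541987 2 .done) .done)) .done) (.node 1 5 (.cons 0x4329870651 .nil) (.node 6 9 (.cons 0x8734569210 .nil) (.leaf 0x2345178069 6 (.leaf 0x8069234517 3 (.leaf 0x871543296 5 .done))) (.leaf 0x8706514329 0 .done)) .done)) .done)) (.node 0 7 .nil (.node 3 8 (.cons 0x9078321456 .nil)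 (.leaf 0x2389076541 6 (.leaf 0x9210765438 0 (.leaf 0x4567012983 3 .done))) (.node 2 7 (.cons 0x3278906541 .nil) (.node 1 7 (.cons 0x1789234560 .nil) (.node 1 8 (.cons 0x4560923781 .nil) (.node 2 8 (.cons 0x9287345601 .nil) (.node 1 9 (.cons 0x8734560192 .nil) (.leaf 0x654378291 4 (.leaf 0x9106543782 0 .done)) .done) .done) .done) (.node 6 9 (.cons 0x8734569210 .nil) (.leaf 0x5430127896 2 (.leaf 0x8721034569 2 (.leaf 0x5437801296 0 .done))) .done)) .done)) .done)) (.leaf 0x9873456012 5 (.node 0 5 (.cons 0x6509873214 .nil) (.node 4 6 (.cons 0x5643789210 .nil) (.node 0 7 .nil (.node 3 8 (.cons 0x9078321456 .nil) (.leaf 0x2389076541 6 (.leaf 0x9210765438 0 (.leaf 0x4567012983 3 .done))) (.node 0 8 (.cons 0x9087321465 .nil) (.node 1 5 (.cons 0x6078923451 .nil) (.node 5 9 (.cons 0x8734659210 .nil) (.leaf 0x3467089512 2 (.leaf 0x4659210873 5 .done)) (.node 0 2 (.cons 0x9873206514 .nil) (.node 2 4 (.cons 0x9873241560 .nil) (.leaf 0x3789065142 4 .done)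 .done) .done)) .done) .done)) (.leaf 0x5012987346 0 (.leaf 0x3789210564 3 .done))) (.node 1 5 (.cons 0x4156098732 .nil) (.node 2 4 (.cons 0x5609873241 .nil) (.node 2 5 (.cons 0x4378925601 .nil) (.node 2 7 (.cons 0x3278906541 .nil) (.node 3 5 (.cons 0x6098723541 .nil) (.node 5 9 (.cons 0x8734295601 .nil) (.node 0 2 (.cons 0x6598734120 .nil) (.node 1 7 (.cons 0x1789234560 .nil) (.leaf 0x8956023417 2 .done) .done) .done) .done) .done) .done) (.leaf 0x1560987324 0 (.leaf 0x3789065142 3 .done))) (.node 2 4 (.cons 0x9873241560 .nil) (.leaf 0x4237890651 0 (.node 3 8 (.cons 0x7654210983 .nil) (.node 0 8 (.cons 0x9801243765 .nil) (.node 1 8 (.cons 0x7342981065 .nil) .done .done) (.leaf 0x2109837654 0 .done)) (.leaf 0x3789065142 4 .done))) .done)) .done)) (.node 0 5 .nil (.node 3 6 (.cons 0x7890563214 .nil) (.leaf 0x1298763450 6 (.leaf 0x541236789 3 (.node 1 6 (.cons 0x2987345610 (.cons 0x4165098732 .nil)) (.leaf 0x2167890543 6 (.node 2 6 (.cons 0x1456237890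 (.cons 0x4378926501 .nil)) (.leaf 0x7345016298 2 .done) .done)) .done))) (.node 3 5 .nil (.node 4 7 (.cons 0x6547890321 .nil) (.node 1 7 (.cons 0x1789234560 (.cons 0x6098714532 (.cons 0x4178906532 .nil))) (.node 0 4 (.cons 0x9871230456 (.cons 0x6789045321 .nil)) (.node 0 8 (.cons 0x6540892371 (.cons 0x9804532176 (.cons 0x9087412356 .nil))) .done .done) .done) (.leaf 0x9874356012 5 (.leaf 0x8906532147 3 .done))) (.node 1 5 .nil (.node 0 7 (.cons 0x6078923451 (.cons 0x4329870651 .nil)) (.leaf 0x8706514329 6 .done) (.node 2 5 .nil (.node 3 9 (.cons 0x6789345210 (.cons 0x4398765210 .nil)) (.leaf 0x7893452106 5 .done) .done) .done)) .done)) (.node 3 5 .nil (.node 0 4 (.cons 0x6789045321 .nil) (.node 3 9 (.cons 0x5678934012 .nil) (.leaf 0x4567893210 1 (.leaf 0x4567893210 2 .done)) (.leaf 0x5340129876 3 .done)) (.node 2 5 .nil (.node 1 3 (.cons 0x7890654132 (.cons 0x9876013452 (.cons 0x7890652314 .nil))) (.leaf 0x5431067892 3 .done) (.node 1 5 .nil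 (.node 0 7 (.cons 0x6078923451 (.cons 0x4329870651 .nil)) (.leaf 0x8706514329 6 (.leaf 0x6514329870 5 .done)) .done) .done)) .done)) .done))) .done)))) .done))))
noncomputable def uc9_7_5 : T := (.leaf 0x1034567892 2 (.node 0 6 (.cons 0x7890654123 .nil) tc9_7_12 (.node 0 5 (.cons 0x6789210543 .nil) tc9_7_10 (.node 3 5 (.cons 0x4356789210 .nil) (.node 0 4 (.cons 0x5678921043 .nil) (.node 1 9 (.cons 0x8765409123 .nil) (.node 3 8 (.cons 0x9045678321 .nil) (.leaf 0x4091238765 3 (.node 0 8 (.cons 0x7654321980 .nil) (.node 1 8 (.cons 0x9045678123 .nil) (.node 1 5 .nil (.node 4 7 (.cons 0x6547890321 (.cons 0x6510347892 (.cons 0x6512987430 .nil))) (.leaf 0x1238904765 1 .done) .done) .done) (.node 0 7 (.cons 0x8912345670 .nil) (.leaf 0x4321980765 5 (.leaf 0x3219807654 6 .done)) .done)) (.node 1 5 (.cons 0x4092387651 .nil) (.leaf 0x8329041567 4 .done) .done))) (.node 0 5 (.cons 0x6789123450 .nil) (.node 1 5 .nil (.node 0 6 (.cons 0x5432198760 (.cons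 0x7892341560 .nil)) (.node 4 8 (.cons 0x6784532190 (.cons 0x9843215067 (.cons 0x3290487651 .nil))) (.leaf 0x1906784532 3 .done) .done) (.node 1 8 (.cons 0x9045678123 .nil) (.node 3 8 (.cons 0x9045678321 .nil) (.node 5 9 (.cons 0x9567812340 .nil) (.leaf 0x2187659043 1 (.leaf 0x438765921 5 (.leaf 0x4387659210 6 .done))) (.leaf 0x7654091238 2 .done)) .done) .done)) (.node 0 6 (.cons 0x5432198760 .nil) (.leaf 0x9123450678 2 (.node 0 7 (.cons 0x6507892341 .nil) (.node 0 8 (.cons 0x9210876534 .nil) .done .done) .done)) .done)) .done)) (.node 0 5 .nil (.node 3 7 (.cons 0x6541237890 (.cons 0x6509873214 (.cons 0x6501437892 .nil))) (.node 4 6 (.cons 0x7892103465 (.cons 0x8735092146 .nil)) (.node 3 8 (.cons 0x7654098321 (.cons 0x9056412387 (.cons 0x7832905641 .nil))) .done (.leaf 0x8921056437 3 .done)) .done) (.node 0 8 (.cons 0x9210876534 .nil) (.node 0 2 .nil (.node 1 9 (.cons 0x6780912354 .nil) (.leaf 0x6543201987 1 (.leaf 0x4567891023 2 .done)) (.node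 0 6 (.cons 0x7890654123 .nil) (.node 0 7 (.cons 0x6507892341 .nil) .done .done) .done)) (.node 0 6 (.cons 0x7890654123 .nil) (.node 0 7 (.cons 0x6507892341 .nil) (.node 0 2 .nil (.node 1 9 (.cons 0x4320567891 .nil) (.leaf 0x8765430219 2 (.leaf 0x6543201987 1 (.leaf 0x4567891023 2 .done))) .done) .done) .done) .done)) .done)) (.leaf 0x1298765340 3 (.node 1 8 (.cons 0x4092356781 .nil) (.node 1 9 (.cons 0x6781904532 .nil) (.node 0 8 (.cons 0x7654321980 .nil) (.node 4 8 (.cons 0x7653219084 .nil) (.node 4 9 (.cons 0x8765349210 .nil) (.leaf 0x7801294356 6 .done) .done) .done) .done) (.leaf 0x5329041876 3 (.leaf 0x5329041876 4 .done))) .done)))) (.node 0 4 (.cons 0x5678921043 .nil) (.leaf 0x4012987653 0 (.node 0 2 .nil (.node 1 9 (.cons 0x1987654320 .nil) (.leaf 0x8765430219 2 (.leaf 0x6543201987 1 (.leaf 0x4567891023 2 .done))) (.node 0 5 .nil (.node 3 6 (.cons 0x7890563214 .nil) (.leaf 0x7892105436 3 (.leaf 0x4501298763 0 (.node 0 7 (.cons 0x6507892341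 .nil) (.leaf 0x8921436507 5 (.leaf 0x5634129870 6 .done)) .done))) (.node 2 4 (.cons 0x3429876501 .nil) (.node 0 6 (.cons 0x7890654123 .nil) (.node 2 7 (.cons 0x9872103456 .nil) (.node 0 7 (.cons 0x6507892341 .nil) (.node 0 8 .nil (.node 1 6 (.cons 0x7892341650 (.cons 0x9234165087 (.cons 0x9807612345 (.cons 0x9807612354 .nil)))) .done .done) .done) .done) .done) .done) .done)) (.node 2 4 .nil (.node 0 8 (.cons 0x9801243567 (.cons 0x7653429801 .nil)) (.node 0 7 (.cons 0x8924356701 .nil) (.leaf 0x2143567089 2 (.leaf 0x1435670892 0 .done)) .done) (.node 2 7 (.cons 0x9872103456 .nil) (.node 3 9 (.cons 0x8765421093 .nil) (.node 2 6 (.cons 0x5439876210 .nil) (.node 0 5 (.cons 0x6789345012 .nil) (.leaf 0x1054398762 2 (.leaf 0x9345012678 1 .done)) .done) (.node 3 8 (.cons 0x2456783901 .nil) (.leaf 0x4567839012 6 (.leaf 0x4567839012 0 .done)) .done)) .done) .done)) .done))) (.leaf 0x1298765340 4 (.node 1 5 (.cons 0x1567892340 .nil) (.leaf 0x9876510432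 0 (.node 0 5 .nil (.node 1 6 (.cons 0x7890321654 .nil) (.leaf 0x2987615043 6 (.leaf 0x9234051678 5 (.leaf 0x2987615043 0 .done))) (.node 1 8 (.cons 0x9234056781 .nil) (.node 6 9 (.cons 0x9678123450 .nil) (.leaf 0x1234509678 5 (.leaf 0x8769234051 3 (.leaf 0x7815043296 5 .done))) (.node 2 7 (.cons 0x8927653401 .nil) (.node 1 7 (.cons 0x4098176532 .nil) (.node 4 7 (.cons 0x4765321890 .nil) (.node 2 4 (.cons 0x3567421890 .nil) (.leaf 0x981765324 1 (.leaf 0x9812476530 4 .done)) .done) .done) (.leaf 0x435672981 1 (.leaf 0x435672981 2 .done))) .done)) .done)) .done)) .done)))) (.node 0 2 (.cons 0x4356789201 .nil) (.node 2 6 (.cons 0x7892653410 .nil) (.node 0 5 .nil (.node 3 6 (.cons 0x7890563214 .nil) (.leaf 0x7892105436 3 (.leaf 0x4501298763 0 .done)) (.node 2 4 .nil (.node 3 8 (.cons 0x7650129834 (.cons 0x7624538901 (.cons 0x9834210567 .nil))) .done (.node 3 6 (.cons 0x2453678901 .nil) (.leaf 0x987635421 6 (.node 0 4 (.cons 0x2987653401 .nil) (.node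 0 6 (.cons 0x5342987601 .nil) .done .done) .done)) .done)) .done)) (.node 0 7 (.cons 0x6534107892 .nil) (.node 2 7 (.cons 0x9872103456 .nil) .done (.leaf 0x1435629870 6 (.leaf 0x9870143562 3 .done))) .done)) (.leaf 0x1435678920 0 (.node 2 7 (.cons 0x9872103456 .nil) (.node 2 6 (.cons 0x7892653410 .nil) (.node 2 4 .nil (.node 3 8 (.cons 0x6538729014 (.cons 0x7624538901 (.cons 0x9014278356 .nil))) .done .done) (.node 0 7 (.cons 0x6534107892 .nil) (.leaf 0x1435629870 6 (.leaf 0x9870143562 3 .done)) .done)) (.node 2 6 (.cons 0x7892653410 .nil) (.node 2 4 .nil (.node 1 3 (.cons 0x8765310924 (.cons 0x6789013542 .nil)) (.leaf 0x987624531 6 (.leaf 0x4531098762 3 (.leaf 0x6789031245 0 .done))) (.node 0 8 (.cons 0x7653429801 .nil) (.node 7 9 (.cons 0x8792653410 .nil) (.leaf 0x8012435679 5 (.leaf 0x1435629780 3 (.leaf 0x6798012435 6 .done))) (.node 0 4 (.cons 0x2987653401 .nil) (.node 1 8 (.cons 0x7653429810 .nil) (.node 3 9 (.cons 0x6724539810 .nil)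 (.leaf 0x4093218765 3 (.leaf 0x5390187624 6 .done)) (.leaf 0x5329041876 3 (.leaf 0x5329041876 4 .done))) .done) .done)) .done)) (.node 2 8 .nil (.node 0 7 (.cons 0x6534107892 (.cons 0x9287014356 (.cons 0x9826534107 .nil))) (.leaf 0x5341078926 0 .done) (.node 2 5 .nil (.node 0 6 (.cons 0x7890654123 (.cons 0x7892560143 .nil)) (.leaf 0x3529876014 4 (.leaf 0x3529876014 3 .done)) (.node 2 4 .nil (.node 1 6 (.cons 0x4532098761 (.cons 0x9876102435 (.cons 0x9876102453 .nil))) (.node 1 7 (.cons 0x8901762453 (.cons 0x6532417890 .nil)) (.leaf 0x324561789 3 .done) .done) .done) .done)) .done)) .done)) .done)) .done))) .done))) .done))))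
theorem sub_c9_7_5 : root 9 refs9_7 [] 0x800000003807000000007060000000060500000000504000000004030600000030106000000102000000602013000006010 0xfef7fe7fff3fff9fffcfffa7ffb5fff9ffb9ffb5 9 2 9 (.cons 0x3456789210 .nil) uc9_7_5 = true := by decide +kernel
noncomputable def tc9_7_13 : T := (.node 3 7 (.cons 0x6541237890 .nil) (.node 3 6 (.cons 0x5436789210 .nil) (.node 0 5 (.cons 0x6789210543 .nil) (.node 5 8 (.cons 0x4589067321 .nil) (.node 4 9 (.cons 0x8765490321 .nil) (.node 1 9 (.cons 0x4589123760 .nil) (.node 0 4 (.cons 0x5678912340 .nil) (.leaf 0x2376045891 6 (.leaf 0x8912340567 5 .done)) .done) (.leaf 0x367854921 2 (.leaf 0x3678549210 0 .done))) (.leaf 0x9067321458 3 (.node 4 7 (.cons 0x5632147890 .nil) (.leaf 0x3650129874 2 (.leaf 0x8563092147 2 (.leaf 0x1290365874 2 .done))) .done))) (.leaf 0x9876345012 1 .done)) (.node 6 9 (.cons 0x8769210345 .nil) (.node 6 8 (.cons 0x9032145687 .nil) (.node 7 9 (.cons 0x9786541230 .nil) (.leaf 0x5412309786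 3 (.leaf 0x1456879032 4 .done)) (.node 5 8 (.cons 0x4589067321 .nil) (.node 4 7 (.cons 0x4785690321 .nil) (.leaf 0x6903214785 3 (.leaf 0x8743012965 2 (.leaf 0x965874123 4 .done))) (.node 1 9 (.cons 0x4589123760 .nil) (.node 3 9 (.cons 0x4589376012 .nil) (.node 2 4 (.cons 0x9124586730 .nil) (.leaf 0x124589376 5 (.leaf 0x8542106739 5 .done)) .done) .done) (.leaf 0x9067321458 3 .done))) .done)) (.node 0 2 (.cons 0x5436789201 .nil) (.node 2 8 (.cons 0x7821456903 .nil) (.leaf 0x7309654128 0 (.node 0 5 (.cons 0x2987634501 .nil) (.node 1 6 (.cons 0x5437896120 .nil) (.leaf 0x2345016789 0 (.node 2 6 (.cons 0x9628730541 .nil) (.leaf 0x987326145 2 .done) (.leaf 0x541692873 4 .done))) .done) .done)) (.node 0 5 (.cons 0x2987634501 .nil) (.leaf 0x3789650214 0 (.leaf 0x4378965021 2 .done)) .done)) .done)) .done)) (.leaf 0x5412378906 0 (.leaf 0x4560987321 5 .done))) (.node 3 6 (.cons 0x5436789210 .nil) (.node 0 7 (.cons 0x8921076345 .nil) (.node 5 8 (.cons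 0x7634589210 .nil) (.leaf 0x8543670129 0 (.node 6 9 (.cons 0x4587692103 .nil) (.node 6 8 (.cons 0x7098632145 .nil) (.node 2 7 (.cons 0x1458963270 .nil) (.leaf 0x4589632701 3 (.leaf 0x1036927854 3 (.node 2 6 (.cons 0x9623078541 .nil) (.node 3 5 (.cons 0x9863541270 .nil) (.node 4 6 (.cons 0x8729645301 .nil) .done (.leaf 0x8635412709 5 .done)) .done) .done))) .done) (.node 6 8 (.cons 0x7098632145 .nil) (.node 5 7 (.cons 0x2368907541 .nil) (.leaf 0x4123689075 6 (.node 3 7 (.cons 0x6921458730 .nil) (.node 7 9 (.cons 0x6321458970 .nil) .done .done) (.leaf 0x9075412368 3 .done))) .done) .done)) (.leaf 0x4367012985 4 (.node 5 9 (.cons 0x4306785921 .nil) (.leaf 0x2143067859 2 (.node 3 5 (.cons 0x7890653214 .nil) (.node 2 5 (.cons 0x4352987601 .nil) (.node 3 7 (.cons 0x6541237890 .nil) (.node 3 9 (.cons 0x9341258706 .nil) .done .done) (.leaf 0x3529876014 6 (.leaf 0x9876014352 5 .done))) .done) (.leaf 0x8760341295 2 .done))) .done)))) (.node 7 9 (.cons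 0x8790321456 .nil) (.node 1 9 (.cons 0x5607891432 .nil) (.node 0 8 (.cons 0x7654321980 .nil) (.node 2 8 (.cons 0x1982345670 .nil) (.leaf 0x6701982345 3 (.node 2 7 (.cons 0x8907236541 .nil) (.node 1 8 (.cons 0x7098145632 .nil) (.leaf 0x3654189072 6 (.leaf 0x6327098145 5 .done)) .done) .done)) (.leaf 0x4321980765 3 .done)) .done) (.node 2 8 (.cons 0x7098236541 .nil) (.leaf 0x5630978214 2 (.leaf 0x6309782145 0 (.node 6 9 (.cons 0x8769210345 .nil) (.node 4 9 (.cons 0x8765490321 .nil) (.node 3 7 (.cons 0x3765498210 .nil) (.leaf 0x4982103765 2 (.leaf 0x9821037654 0 .done)) .done) .done) .done))) .done)) .done)) (.node 6 9 (.cons 0x8769210345 .nil) (.node 1 9 .nil (.node 0 7 (.cons 0x5607891432 .nil) (.leaf 0x3219870654 5 (.node 0 8 (.cons 0x9123456780 .nil) (.leaf 0x4321980765 1 (.leaf 0x5432190876 2 (.leaf 0x4321980765 5 .done))) .done)) (.node 6 8 (.cons 0x9032145687 .nil) (.node 7 9 (.cons 0x9786541230 .nil) (.leaf 0x5412309786 3 (.leaf 0x1456879032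 4 .done)) (.node 3 9 .nil (.node 5 7 (.cons 0x2903687541 (.cons 0x8756093214 (.cons 0x6875412930 (.cons 0x2143987560 .nil)))) (.leaf 0x9306875412 3 .done) (.node 3 5 (.cons 0x7890653214 .nil) (.node 2 6 (.cons 0x7893456210 .nil) (.node 2 7 (.cons 0x6543987210 .nil) (.node 4 6 (.cons 0x5643987210 .nil) .done (.leaf 0x1278934560 2 .done)) (.node 0 7 (.cons 0x6543987012 .nil) (.leaf 0x9870126543 3 (.leaf 0x8934562107 5 .done)) .done)) .done) .done)) .done)) .done)) (.node 6 8 (.cons 0x9032145687 .nil) (.node 7 9 (.cons 0x9786541230 .nil) (.node 3 7 (.cons 0x5412968730 .nil) (.node 0 5 (.cons 0x2987634501 .nil) (.leaf 0x4129687305 3 (.node 2 6 (.cons 0x1269873450 .nil) (.node 1 8 (.cons 0x9621873450 .nil) (.leaf 0x2690543781 5 (.leaf 0x6218734509 3 .done)) (.leaf 0x5437896210 4 .done)) (.leaf 0x3786921450 0 .done))) .done) (.leaf 0x5412309786 3 .done)) .done) .done)) .done)) (.node 3 6 (.cons 0x5436789210 .nil) (.node 0 7 (.cons 0x8921076345 .nil)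 (.node 5 8 (.cons 0x7634589210 .nil) (.leaf 0x8543670129 0 (.node 1 7 (.cons 0x7145892360 .nil) (.node 1 5 (.cons 0x1543298760 .nil) (.node 0 4 (.cons 0x9854076321 .nil) (.node 1 9 (.cons 0x4589123670 .nil) (.leaf 0x2367045891 6 .done) .done) .done) (.leaf 0x8923607145 2 (.leaf 0x9236071458 0 .done))) (.leaf 0x4367012985 4 (.node 0 4 .nil (.node 1 3 (.cons 0x4589076312 .nil) (.leaf 0x5409213678 1 (.node 1 5 (.cons 0x1543298760 (.cons 0x7604315892 (.cons 0x3298760451 .nil))) (.leaf 0x2156789043 2 .done) .done)) (.node 2 4 (.cons 0x3670985421 .nil) (.node 1 3 (.cons 0x4589076312 .nil) (.node 1 9 (.cons 0x2198543670 .nil) (.leaf 0x1906785423 0 (.node 2 5 (.cons 0x7891432560 .nil) (.leaf 0x6013452987 3 (.leaf 0x8914325607 5 (.leaf 0x1987065234 1 .done))) .done)) (.leaf 0x6709854213 4 .done)) .done) .done)) .done)))) (.node 6 9 (.cons 0x8769210345 .nil) (.node 1 9 (.cons 0x5607891432 .nil) (.node 6 8 (.cons 0x9032145687 .nil) (.node 7 9 (.cons 0x9786541230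 .nil) (.leaf 0x5412309786 3 (.leaf 0x1456879032 4 .done)) (.node 5 8 (.cons 0x7634589210 .nil) (.node 2 7 (.cons 0x7298543601 .nil) (.node 3 5 (.cons 0x4358729601 .nil) (.leaf 0x7291435860 4 .done) (.leaf 0x658914327 5 .done)) (.node 4 9 (.cons 0x7856941230 .nil) (.leaf 0x3078569412 2 (.leaf 0x785694123 0 .done)) (.leaf 0x763458921 0 .done))) .done)) .done) (.node 7 9 (.cons 0x8790321456 .nil) (.node 5 8 (.cons 0x7634589210 .nil) (.leaf 0x4301296785 5 (.leaf 0x1430785692 2 (.leaf 0x763458921 0 (.node 0 2 (.cons 0x2079856341 .nil) (.leaf 0x8563412079 3 (.node 0 5 (.cons 0x4367058921 .nil) (.leaf 0x8921436705 4 .done) .done)) .done)))) .done) .done)) .done)) (.node 6 9 (.cons 0x8769210345 .nil) (.node 1 9 .nil (.node 2 8 (.cons 0x9145603287 .nil) (.leaf 0x8230914567 0 (.node 5 8 (.cons 0x9210345876 (.cons 0x4587603291 (.cons 0x6785430192 .nil))) (.leaf 0x2103458769 2 .done) (.leaf 0x1287654309 2 .done))) (.node 6 8 (.cons 0x9032145687 .nil) (.node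 7 9 (.cons 0x9786541230 .nil) (.leaf 0x5412309786 3 (.leaf 0x1456879032 4 .done)) (.node 0 5 (.cons 0x4321987650 .nil) (.node 0 4 (.cons 0x5678912340 .nil) (.node 4 8 (.cons 0x7634892105 .nil) (.node 5 7 (.cons 0x2341987560 .nil) (.leaf 0x432198675 3 (.leaf 0x576348921 6 (.leaf 0x9036875412 3 (.leaf 0x6348921057 5 .done)))) .done) .done) (.node 4 6 (.cons 0x7891234650 .nil) (.node 1 6 (.cons 0x7892345061 .nil) (.node 1 7 (.cons 0x6054329871 .nil) (.leaf 0x2345061789 2 (.leaf 0x3450617892 0 .done)) .done) .done) .done)) .done)) .done)) (.node 6 8 (.cons 0x9032145687 .nil) (.node 7 9 (.cons 0x9786541230 .nil) (.node 0 7 (.cons 0x5412968703 .nil) (.node 0 4 (.cons 0x7890412365 .nil) (.node 3 5 (.cons 0x7869214530 .nil) (.leaf 0x4129687035 3 (.leaf 0x798653214 0 (.leaf 0x786921453 0 .done))) .done) .done) (.leaf 0x5412309786 3 .done)) .done) .done)) .done)) .done)))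
noncomputable def tc9_7_14 : T := (.node 3 7 (.cons 0x6541237890 .nil) (.node 0 7 (.cons 0x8921076543 .nil) (.node 0 6 (.cons 0x7890654123 .nil) (.node 5 8 (.cons 0x6734589210 .nil) (.leaf 0x8543760129 0 (.node 4 9 (.cons 0x8765490321 .nil) (.node 0 4 (.cons 0x9854067321 .nil) (.node 1 3 (.cons 0x4076589231 .nil) (.leaf 0x8567041329 5 (.node 1 9 (.cons 0x6785491230 .nil) .done .done)) .done) (.node 6 8 (.cons 0x5437689210 .nil) (.leaf 0x376854921 1 (.node 7 9 (.cons 0x2309786541 .nil) (.leaf 0x8654123097 0 .done) (.leaf 0x5867301294 2 .done))) (.leaf 0x8941237065 6 .done))) (.leaf 0x4376012985 4 (.node 5 9 (.cons 0x8954376012 .nil) (.node 0 5 (.cons 0x8921054376 .nil) (.node 0 4 (.cons 0x6598704321 .nil) (.node 1 3 (.cons 0x4312985670 .nil) (.node 3 5 (.cons 0x6789045321 .nil) .done (.leaf 0x2985670431 4 .done)) .done) .done) (.node 7 9 (.cons 0x8790321456 .nil) (.node 6 8 (.cons 0x5437689210 .nil) (.node 6 9 (.cons 0x9658703412 .nil) .done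 (.leaf 0x1456879032 4 (.leaf 0x8654123097 0 .done))) .done) .done)) .done)))) (.node 2 7 (.cons 0x3278906541 .nil) (.node 1 7 (.cons 0x8923417065 .nil) (.node 2 4 .nil (.node 3 5 (.cons 0x8923560714 (.cons 0x8901245376 (.cons 0x8924537106 (.cons 0x8924356701 .nil)))) .done (.node 0 2 (.cons 0x9871456023 .nil) (.node 0 5 (.cons 0x8923714506 .nil) (.node 0 4 .nil (.node 1 5 (.cons 0x9870651432 .nil) (.leaf 0x2156789043 2 .done) .done) .done) .done) .done)) .done) (.node 1 9 (.cons 0x3278914560 .nil) (.leaf 0x327891456 0 (.leaf 0x6032789145 2 .done)) .done)) .done)) (.node 0 6 (.cons 0x7890654123 .nil) (.node 0 5 (.cons 0x8921054376 .nil) (.node 0 4 .nil (.node 5 8 (.cons 0x6734589210 (.cons 0x9854067321 .nil)) (.leaf 0x4376012985 4 (.leaf 0x4012985673 2 .done)) (.node 0 8 .nil (.node 1 3 (.cons 0x4567089231 .nil) (.leaf 0x892314567 0 (.leaf 0x8076541329 5 (.leaf 0x6708921345 2 .done))) (.node 0 2 .nil (.node 3 8 (.cons 0x7654389210 (.cons 0x7654389201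 .nil)) (.leaf 0x9834567012 2 .done) .done) .done)) .done)) .done) (.node 0 5 (.cons 0x8921054376 .nil) (.node 6 8 (.cons 0x5437689210 .nil) (.leaf 0x5412376890 2 (.leaf 0x7345012986 4 (.node 6 9 (.cons 0x8967345012 .nil) (.node 3 6 (.cons 0x7368905412 .nil) (.node 1 3 (.cons 0x4509867312 .nil) (.node 2 4 (.cons 0x3768905421 .nil) (.leaf 0x7689054213 3 (.node 0 4 .nil (.node 1 5 (.cons 0x5134298670 (.cons 0x8769042315 (.cons 0x3768921540 .nil))) .done .done) .done)) .done) .done) .done) .done))) (.node 6 8 (.cons 0x5437689210 .nil) (.node 1 6 (.cons 0x5416892370 .nil) (.leaf 0x7329861450 1 (.leaf 0x7329861450 5 .done)) (.leaf 0x543768921 0 (.node 5 8 (.cons 0x6734589210 .nil) (.node 2 5 (.cons 0x9870652341 .nil) (.node 5 7 (.cons 0x5734129860 .nil) (.leaf 0x9214375068 3 .done) .done) (.leaf 0x673458921 0 .done)) .done))) .done)) .done)) .done)) (.node 0 6 (.cons 0x7890654123 .nil) (.leaf 0x5412378906 0 (.node 0 7 (.cons 0x8921076543 .nil) (.node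 0 2 .nil (.node 1 3 (.cons 0x4567890231 .nil) (.leaf 0x4567892013 1 (.node 3 6 (.cons 0x8921076345 (.cons 0x7890236541 .nil)) .done (.leaf 0x7890213456 3 .done))) (.node 0 8 .nil (.node 7 9 (.cons 0x8790321456 (.cons 0x8034567921 .nil)) (.node 2 6 (.cons 0x8790326541 (.cons 0x8014379265 (.cons 0x9780326541 .nil))) .done .done) (.node 0 4 (.cons 0x8921043765 .nil) (.node 0 5 (.cons 0x6509873214 .nil) .done .done) .done)) .done)) (.node 7 9 (.cons 0x8790321456 .nil) (.node 1 9 (.cons 0x5607891432 .nil) (.node 0 5 (.cons 0x4321987650 .nil) (.node 4 8 (.cons 0x5673489210 .nil) (.leaf 0x8437650129 0 (.leaf 0x3765012984 4 (.node 1 8 (.cons 0x6798123450 .nil) (.leaf 0x921845673 4 (.leaf 0x7981234506 5 .done)) .done))) (.node 1 8 (.cons 0x1892345670 .nil) (.node 0 8 .nil (.node 1 3 (.cons 0x4567089231 .nil) (.leaf 0x892314567 0 (.leaf 0x8076541329 5 .done)) .done) (.node 4 6 (.cons 0x7891234650 .nil) (.leaf 0x7329814650 4 (.leaf 0x7329814650 3 (.leaf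 0x3465012987 2 (.leaf 0x9873214650 4 .done)))) .done)) .done)) .done) (.node 6 8 (.cons 0x3097865412 .nil) (.leaf 0x1456879032 4 (.leaf 0x8654123097 0 (.node 0 5 (.cons 0x7341298650 .nil) (.node 4 8 (.cons 0x5673489210 .nil) (.leaf 0x8437650129 0 (.leaf 0x3765012984 4 .done)) (.node 0 2 (.cons 0x5689207341 .nil) (.node 0 8 (.cons 0x8034567921 .nil) .done .done) .done)) .done))) .done)) .done)) (.node 0 7 (.cons 0x8921076543 .nil) (.node 0 4 (.cons 0x8921043765 .nil) (.node 0 5 (.cons 0x6509873214 .nil) (.node 5 8 (.cons 0x4376589210 .nil) (.leaf 0x8567340129 0 (.leaf 0x6734012985 4 (.node 2 7 (.cons 0x1437298560 .nil) (.leaf 0x3410658927 5 (.node 1 9 (.cons 0x2198567340 .nil) (.leaf 0x327891456 0 (.leaf 0x6032789145 2 .done)) .done)) .done))) .done) .done) .done) .done))) (.node 0 6 (.cons 0x2378906541 .nil) (.leaf 0x4560987321 5 (.node 0 7 (.cons 0x8921076543 .nil) (.node 3 6 (.cons 0x8921076345 .nil) (.node 3 5 (.cons 0x7890653214 .nil) (.node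 4 7 (.cons 0x4789065321 .nil) (.leaf 0x653214789 5 (.node 3 8 (.cons 0x7654389210 .nil) (.node 5 7 (.cons 0x6754389210 .nil) (.leaf 0x1298345760 3 (.node 0 2 (.cons 0x9874356021 .nil) (.node 1 7 (.cons 0x8921743560 .nil) (.leaf 0x4712098365 2 (.leaf 0x2098365471 1 .done)) .done) .done)) (.leaf 0x1298345670 1 .done)) .done)) .done) .done) .done) (.node 0 7 (.cons 0x8921076543 .nil) (.node 3 6 (.cons 0x8921076345 .nil) (.node 3 5 .nil (.node 2 4 (.cons 0x6789012453 .nil) (.leaf 0x1098763542 1 (.leaf 0x5421098763 2 .done)) (.node 3 8 (.cons 0x7654389210 .nil) (.node 1 3 (.cons 0x7890654132 .nil) (.node 3 9 .nil (.node 2 5 (.cons 0x7890652314 (.cons 0x6783901254 (.cons 0x6078932541 .nil))) .done .done) .done) (.leaf 0x1298345670 1 .done)) .done)) (.node 0 4 (.cons 0x7890412365 .nil) (.node 1 8 (.cons 0x2376540981 .nil) (.node 5 7 (.cons 0x1892345760 .nil) (.leaf 0x2189045763 3 (.leaf 0x6018923457 2 (.leaf 0x1236578904 6 .done))) (.leaf 0x6540981237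 2 (.leaf 0x4567321890 1 .done))) .done) .done)) (.node 1 9 (.cons 0x5607891432 .nil) (.node 7 9 (.cons 0x8790321456 .nil) (.node 4 9 (.cons 0x8765490321 .nil) (.node 6 8 (.cons 0x3097865412 .nil) (.node 1 8 (.cons 0x8129765430 .nil) (.node 6 9 (.cons 0x5694187032 .nil) .done .done) (.leaf 0x1456879032 4 (.node 5 9 (.cons 0x9568703412 .nil) (.leaf 0x3078659214 3 .done) .done))) .done) .done) (.node 6 9 .nil (.node 2 5 (.cons 0x7891432560 .nil) (.leaf 0x7896523410 6 (.leaf 0x6523419870 6 (.leaf 0x6987034125 6 .done))) (.node 2 5 (.cons 0x7891432560 .nil) (.node 7 9 (.cons 0x8791432560 .nil) (.node 4 9 (.cons 0x8765490321 .nil) (.node 0 8 (.cons 0x2569143780 .nil) (.leaf 0x5234910876 2 (.leaf 0x2349108765 0 .done)) .done) .done) (.leaf 0x6523419870 6 (.leaf 0x6987034125 6 .done))) .done)) .done)) .done)) .done))) .done))) (.leaf 0x5430129876 3 (.node 0 6 (.cons 0x7890654123 .nil) tc9_7_13 (.node 4 8 (.cons 0x9210348765 .nil) (.node 0 4 (.cons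 0x5678921043 .nil) (.node 1 8 (.cons 0x7654098123 .nil) (.node 4 9 (.cons 0x8765490321 .nil) (.node 3 7 (.cons 0x6541237890 .nil) (.leaf 0x2189045673 2 (.node 2 4 .nil (.node 0 5 (.cons 0x6509873214 (.cons 0x9873421056 (.cons 0x3429876501 .nil))) .done (.node 3 5 (.cons 0x4356789210 .nil) (.leaf 0x1094235678 0 (.leaf 0x8109423567 2 (.node 2 7 (.cons 0x8927653401 .nil) (.leaf 0x435672981 1 (.leaf 0x435672981 2 .done)) .done))) .done)) (.leaf 0x6540981237 2 .done))) (.leaf 0x1876549032 0 .done)) (.node 2 8 .nil (.node 4 9 (.cons 0x9456781230 (.cons 0x5678294301 (.cons 0x3094567821 .nil))) .done (.node 3 7 (.cons 0x9812376540 .nil) (.node 5 8 (.cons 0x7658921043 .nil) (.leaf 0x4012985673 5 (.leaf 0x4012985673 2 .done)) (.node 3 8 (.cons 0x7654098321 .nil) (.node 5 8 (.cons 0x4098567321 .nil) (.node 2 4 (.cons 0x3765890421 .nil) (.node 1 3 (.cons 0x7658921340 .nil) (.leaf 0x7658904213 4 (.leaf 0x138765429 2 .done)) .done) .done) .done) (.leaf 0x4567321890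 1 .done))) .done)) .done)) (.node 1 5 (.cons 0x1567892340 .nil) (.leaf 0x9876510432 0 (.leaf 0x9234015678 6 (.node 1 8 (.cons 0x9032187654 .nil) (.node 4 9 (.cons 0x8765490321 .nil) (.node 5 9 (.cons 0x6784590321 .nil) (.node 1 6 (.cons 0x9230487615 .nil) (.leaf 0x9548761230 0 (.node 0 6 (.cons 0x7890654123 .nil) (.node 1 7 (.cons 0x4321789560 .nil) (.leaf 0x5604321789 5 (.leaf 0x6598712340 0 .done)) .done) .done)) (.leaf 0x348765921 5 (.leaf 0x3487659210 6 .done))) (.leaf 0x1876549032 0 .done)) .done) .done))) .done)) (.node 1 9 (.cons 0x5678430192 .nil) (.node 4 9 (.cons 0x8765490321 .nil) (.node 0 4 (.cons 0x5678921043 .nil) (.node 2 4 .nil (.node 1 3 (.cons 0x5678429013 .nil) (.leaf 0x5678903124 1 (.leaf 0x7654213098 2 (.leaf 0x7654213098 5 .done))) (.node 3 9 (.cons 0x8765421093 .nil) (.node 5 9 (.cons 0x2956784301 .nil) (.node 7 9 (.cons 0x8790321456 .nil) (.node 0 5 (.cons 0x8792143056 .nil) (.node 4 7 (.cons 0x6501298743 .nil) .done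 .done) .done) (.leaf 0x6784301295 3 .done)) (.node 1 8 (.cons 0x1876542390 .nil) (.leaf 0x4239018765 6 (.leaf 0x4567810932 0 (.leaf 0x7812309456 2 .done))) .done)) .done)) .done) (.node 6 9 .nil (.node 1 5 (.cons 0x8765129430 (.cons 0x7841569230 .nil)) (.leaf 0x9678451230 4 .done) (.node 5 9 (.cons 0x2956784301 .nil) (.node 7 9 (.cons 0x8790321456 .nil) (.node 3 9 .nil (.node 0 4 (.cons 0x5678921043 .nil) (.leaf 0x9876540123 2 (.leaf 0x9876540123 1 .done)) .done) .done) .done) .done)) .done)) (.node 7 9 (.cons 0x8790321456 .nil) (.node 5 9 (.cons 0x2956784301 .nil) (.leaf 0x2103487659 0 (.node 3 9 .nil (.node 0 4 (.cons 0x5678921043 .nil) (.leaf 0x9876540123 2 (.leaf 0x9876540123 1 .done)) (.node 4 9 (.cons 0x8765490321 .nil) (.node 6 9 .nil (.node 2 8 (.cons 0x7654398210 (.cons 0x2879654301 (.cons 0x9678210345 (.cons 0x1456978230 .nil)))) .done .done) .done) .done)) (.leaf 0x6784301295 3 .done))) (.node 4 9 (.cons 0x8765490321 .nil) (.node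 0 4 (.cons 0x5678921043 .nil) (.node 6 9 .nil (.node 5 8 (.cons 0x6587921430 (.cons 0x7856921034 (.cons 0x4587691230 (.cons 0x7856921430 .nil)))) .done (.node 5 9 (.cons 0x2956784301 .nil) (.node 3 9 .nil (.node 0 5 (.cons 0x6789123450 .nil) (.leaf 0x1293487650 0 (.node 2 4 (.cons 0x3429876501 (.cons 0x8765421093 .nil)) .done .done)) .done) .done) .done)) .done) .done) .done)) .done)) (.node 3 5 (.cons 0x4356789210 .nil) (.leaf 0x921487653 4 (.node 5 9 (.cons 0x1295678430 .nil) (.leaf 0x2956784301 6 (.leaf 0x6784301295 5 (.node 7 9 (.cons 0x8790321456 .nil) (.node 6 8 (.cons 0x7865921430 .nil) (.node 4 7 (.cons 0x6534789210 .nil) (.leaf 0x6874123095 3 (.leaf 0x8659032147 5 .done)) (.node 0 6 (.cons 0x3068795412 .nil) (.node 3 7 (.cons 0x4129568730 .nil) (.leaf 0x5412378906 0 (.leaf 0x4560987321 5 .done)) (.node 4 7 (.cons 0x6534789210 .nil) (.leaf 0x3560129874 5 (.leaf 0x5347892106 3 .done)) (.leaf 0x8795412306 3 .done))) (.leaf 0x321456879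 3 .done))) (.node 0 7 (.cons 0x8703412956 .nil) (.node 6 8 (.cons 0x7865921430 .nil) (.leaf 0x3412956870 4 (.leaf 0x5412309786 3 (.leaf 0x3412956870 3 .done))) (.node 2 6 (.cons 0x3412659870 .nil) (.node 1 9 (.cons 0x9126534870 .nil) (.node 6 9 (.cons 0x4356987012 .nil) .done (.leaf 0x3487091265 0 .done)) (.leaf 0x4126598703 3 (.leaf 0x5987034126 6 .done))) .done)) .done)) .done))) (.leaf 0x5309214876 0 .done))) .done))) .done))))
noncomputable def uc9_7_6 : T := tc9_7_14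
theorem sub_c9_7_6 : root 9 refs9_7 [] 0x800000003807000000007060000000060500000000504000000004030600000030108000000102000000602013000008010 0xfef7fe7fff3fff9fffcfffa7fef5fff9ffb9fef5 9 2 9 (.cons 0x3456789210 .nil) uc9_7_6 = true := by decide +kernel
noncomputable def tc9_7_15 : T := (.node 3 7 .nil (.node 2 4 (.cons 0x6542109873 .nil) (.node 1 3 (.cons 0x1324567890 .nil) (.leaf 0x7654213098 3 (.node 3 9 (.cons 0x8765421093 .nil) (.leaf 0x6542103987 2 (.leaf 0x5421093876 5 .done)) .done)) (.leaf 0x5421098376 2 (.leaf 0x1098376542 1 .done))) (.node 0 6 (.cons 0x8906732145 .nil) (.node 6 9 (.cons 0x4569078321 .nil) (.leaf 0x783214569 2 (.node 0 5 (.cons 0x8905412376 .nil) (.node 3 9 .nil (.node 2 4 (.cons 0x8765421093 .nil) (.leaf 0x5421093876 2 (.leaf 0x8930124567 3 (.leaf 0x1093876542 1 .done))) (.node 5 9 (.cons 0x8954376012 .nil) (.node 0 2 (.cons 0x8954376021 .nil) (.node 1 3 (.cons 0x6789543120 .nil) (.leaf 0x2134598760 2 .done) .done)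 .done) .done)) (.node 6 8 (.cons 0x5412376890 .nil) (.leaf 0x3768905412 3 (.leaf 0x7321450986 5 (.leaf 0x9867321450 6 .done))) .done)) (.node 1 3 (.cons 0x4569078312 .nil) (.node 0 2 (.cons 0x9654387021 .nil) (.node 1 5 (.cons 0x6987345120 .nil) (.leaf 0x4378960215 5 (.node 4 7 (.cons 0x2154738960 .nil) (.leaf 0x3896021547 0 (.leaf 0x5120347896 0 .done)) .done)) (.node 4 7 (.cons 0x2138745690 .nil) (.leaf 0x4783120965 0 (.leaf 0x1387456902 4 .done)) .done)) .done) .done))) (.node 2 7 (.cons 0x7238906541 .nil) (.node 1 7 (.cons 0x7145609832 .nil) (.node 0 8 .nil (.node 3 9 (.cons 0x4567123980 .nil) (.leaf 0x2145678093 2 (.leaf 0x3980127654 0 .done)) (.node 0 4 (.cons 0x9832714065 .nil) (.node 0 2 (.cons 0x9832065417 .nil) (.node 0 5 (.cons 0x8905412376 .nil) .done .done) .done) .done)) .done) (.node 1 7 (.cons 0x9832714560 .nil) (.leaf 0x6098327145 2 .done) .done)) .done)) (.node 4 7 (.cons 0x8903214765 .nil) (.node 5 8 (.cons 0x7658903214 .nil)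 (.leaf 0x3214765890 1 (.node 0 8 .nil (.node 7 9 (.cons 0x5679803412 .nil) (.leaf 0x4567980123 1 (.leaf 0x1238097654 3 .done)) (.node 2 7 (.cons 0x6541098372 .nil) (.node 2 8 (.cons 0x1456732890 .nil) (.node 2 6 (.cons 0x5890326741 .nil) (.leaf 0x1098372654 3 (.node 0 2 (.cons 0x8902376541 .nil) (.node 2 9 (.cons 0x3456789210 .nil) (.leaf 0x1298765430 2 .done) .done) .done)) .done) (.node 2 6 (.cons 0x9837265410 .nil) (.node 2 4 (.cons 0x7658903241 .nil) (.node 3 9 (.cons 0x7623908541 .nil) (.leaf 0x2109387456 1 (.leaf 0x1039856724 5 .done)) .done) (.leaf 0x983726541 0 (.leaf 0x1098372654 2 .done))) .done)) .done)) (.leaf 0x1230985674 2 .done))) (.node 5 7 .nil (.node 0 6 (.cons 0x8906754123 .nil) (.leaf 0x9832147560 5 (.leaf 0x8906574123 3 (.node 2 7 (.cons 0x6098327541 (.cons 0x9834106572 .nil)) (.node 1 7 (.cons 0x4175609832 .nil) (.leaf 0x983271456 0 .done) .done) .done))) (.node 0 6 (.cons 0x9830657412 .nil) (.node 1 7 (.cons 0x3890654712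 .nil) (.leaf 0x983217456 4 (.node 2 5 (.cons 0x9834712560 .nil) (.leaf 0x7125609834 3 (.leaf 0x1743890652 5 (.node 3 6 (.cons 0x4789036521 .nil) (.leaf 0x2563098741 5 .done) .done))) .done)) (.node 0 8 .nil (.node 2 9 (.cons 0x3456789210 (.cons 0x5674308921 (.cons 0x6574129803 (.cons 0x3298067541 (.cons 0x5673410892 .nil))))) .done (.node 4 6 (.cons 0x9803214675 .nil) (.node 0 4 .nil (.node 1 6 (.cons 0x9078321654 .nil) (.leaf 0x987321654 1 (.leaf 0x8904561237 2 .done)) (.node 1 6 (.cons 0x2378904561 .nil) (.leaf 0x987321654 1 (.leaf 0x8904561237 2 .done)) .done)) .done) .done)) .done)) .done)) .done)) .done))) (.node 0 8 .nil (.node 7 9 (.cons 0x5679803412 .nil) (.leaf 0x4567980123 1 (.leaf 0x1238097654 3 (.node 2 5 (.cons 0x9876521034 .nil) (.leaf 0x8976523410 0 (.node 1 3 (.cons 0x8097654132 (.cons 0x6798013452 .nil)) (.node 0 2 (.cons 0x8976543102 .nil) (.leaf 0x3145678902 2 (.leaf 0x4567980231 3 .done)) .done) (.leaf 0x9801432567 5 (.leaf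 0x897652143 3 .done)))) .done))) (.node 5 8 (.cons 0x6709854123 .nil) (.node 3 7 .nil (.node 0 4 (.cons 0x6540987321 .nil) (.leaf 0x6732140985 2 (.node 1 9 (.cons 0x8765409123 (.cons 0x8732190456 (.cons 0x9140856732 .nil))) (.leaf 0x2190456783 2 .done) .done)) (.node 1 8 (.cons 0x9081456732 .nil) (.node 1 3 .nil (.node 2 8 (.cons 0x9082376541 .nil) (.leaf 0x9823145670 2 .done) .done) (.node 2 8 (.cons 0x9082376541 .nil) (.node 6 8 .nil (.node 1 9 (.cons 0x8091456732 (.cons 0x4568732190 (.cons 0x5419086732 .nil))) .done (.node 4 8 .nil (.node 2 9 (.cons 0x3456789210 (.cons 0x9210376584 (.cons 0x7309214865 (.cons 0x5673290841 .nil)))) .done .done) .done)) .done) .done)) (.node 1 8 (.cons 0x2376541890 .nil) (.node 0 2 (.cons 0x8902376541 .nil) (.leaf 0x3765418902 5 (.leaf 0x7320981456 3 (.leaf 0x9814567320 6 .done))) (.node 2 8 (.cons 0x1456732890 .nil) (.node 6 8 .nil (.node 2 5 (.cons 0x9876521034 (.cons 0x9014528673 (.cons 0x9867012543 (.cons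 0x6890732541 .nil)))) .done (.node 4 8 .nil (.node 0 5 (.cons 0x6732890541 .nil) (.node 3 5 (.cons 0x6735410982 (.cons 0x6709845321 .nil)) .done (.leaf 0x6509841237 2 (.leaf 0x9841237650 1 .done))) .done) .done)) .done) .done)) .done))) (.node 4 8 .nil (.node 5 9 (.cons 0x7659843012 .nil) (.leaf 0x3214895670 1 (.leaf 0x2309567841 1 (.leaf 0x6590321487 2 .done))) (.node 2 9 (.cons 0x3456789210 .nil) (.node 1 7 (.cons 0x1765432980 .nil) (.node 4 7 (.cons 0x1298567430 .nil) (.leaf 0x6589032147 2 (.node 1 5 (.cons 0x8921567430 .nil) (.leaf 0x4308921567 5 (.leaf 0x3476512980 0 .done)) .done)) (.leaf 0x3298017654 0 (.node 2 7 (.cons 0x9856721430 .nil) (.leaf 0x1276589034 2 (.node 1 3 (.cons 0x4567132980 .nil) (.node 1 5 (.cons 0x6708923451 .nil) (.node 5 9 (.cons 0x6713295480 .nil) (.leaf 0x6723410895 5 .done) .done) (.leaf 0x892765431 4 .done)) .done)) .done))) (.node 2 7 (.cons 0x9856721430 .nil) (.leaf 0x1276589034 2 (.node 5 9 (.cons 0x1432765980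 .nil) (.leaf 0x7659801432 3 (.leaf 0x6723410895 5 .done)) (.node 2 8 .nil (.node 3 7 (.cons 0x6543789210 (.cons 0x9082376541 (.cons 0x1456732890 .nil))) .done (.node 3 7 (.cons 0x6543789210 .nil) (.node 1 8 (.cons 0x9081456732 .nil) (.leaf 0x4567329081 5 .done) (.node 1 8 (.cons 0x2376541890 .nil) (.node 6 8 (.cons 0x3729865410 .nil) .done .done) .done)) .done)) .done))) (.leaf 0x1298765430 2 (.leaf 0x8921430765 2 .done)))) .done)) .done)) .done)) (.node 0 8 .nil (.node 7 9 (.cons 0x5679803412 .nil) (.leaf 0x4567980123 1 (.leaf 0x8032145679 2 (.leaf 0x1238097654 3 .done))) (.node 2 8 (.cons 0x3289076541 .nil) (.node 2 9 (.cons 0x3456789210 .nil) (.node 1 8 (.cons 0x1892345670 .nil) (.node 5 8 (.cons 0x7658903214 .nil) (.node 4 7 (.cons 0x2985674301 .nil) (.leaf 0x347658921 3 (.leaf 0x3012985674 5 (.leaf 0x6743012985 6 .done))) (.node 5 9 (.cons 0x1432895670 .nil) (.node 1 5 (.cons 0x9823415670 .nil) (.node 1 3 (.cons 0x8907654132 .nil) (.node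 2 6 (.cons 0x1345892670 .nil) (.leaf 0x7013458926 2 (.leaf 0x8541326709 0 .done)) .done) .done) (.leaf 0x8956701432 6 .done)) .done)) .done) (.node 1 8 .nil (.node 0 6 (.cons 0x7892106543 (.cons 0x9234560781 (.cons 0x7065432981 .nil))) .done (.node 0 6 (.cons 0x7065418923 .nil) (.node 7 9 (.cons 0x4560978321 .nil) (.leaf 0x4123879065 0 (.leaf 0x1456079238 2 (.leaf 0x6543879210 4 .done))) (.node 3 7 (.cons 0x6543789210 .nil) (.node 1 7 (.cons 0x8923456071 .nil) (.leaf 0x4329817065 0 (.node 1 3 (.cons 0x8907654132 .nil) (.node 1 9 (.cons 0x8192370654 .nil) .done .done) .done)) (.leaf 0x8923706541 4 .done)) .done)) .done)) (.leaf 0x1298765430 2 .done))) (.node 1 9 (.cons 0x3289145670 .nil) (.node 1 8 .nil (.node 2 9 (.cons 0x3456789210 (.cons 0x1892345670 .nil)) (.leaf 0x1298765430 2 (.leaf 0x6701892345 3 .done)) (.node 0 6 (.cons 0x7891234560 .nil) (.node 1 6 (.cons 0x2345619870 .nil) (.node 1 5 (.cons 0x9823076514 .nil) (.node 1 3 (.cons 0x9823145670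 .nil) (.node 1 7 (.cons 0x6541709832 .nil) .done .done) .done) .done) (.node 3 7 (.cons 0x6541982370 .nil) (.node 5 7 (.cons 0x9806754321 .nil) (.leaf 0x2198067543 2 (.leaf 0x1980675432 0 .done)) (.leaf 0x9823706541 4 .done)) .done)) .done)) (.leaf 0x8230765419 3 (.node 1 8 .nil (.node 2 9 (.cons 0x3456789210 (.cons 0x1892345670 .nil)) (.node 0 6 (.cons 0x7892106543 (.cons 0x9234560781 (.cons 0x7065432981 .nil))) .done (.leaf 0x1298765430 2 .done)) .done) .done))) .done)) .done)) .done)))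
noncomputable def tc9_7_16 : T := (.node 0 7 (.cons 0x8907654123 .nil) tc9_7_15 (.node 3 7 .nil (.node 2 4 (.cons 0x6542109873 .nil) (.node 3 9 (.cons 0x8765421093 .nil) (.leaf 0x6542103987 2 (.leaf 0x5421039876 0 (.leaf 0x4567839012 6 .done))) (.leaf 0x4210983765 0 (.node 3 6 (.cons 0x5421098763 .nil) (.leaf 0x1098736542 5 (.leaf 0x1098736542 1 (.node 0 6 (.cons 0x7609832145 .nil) (.leaf 0x5412378906 2 (.node 0 2 (.cons 0x8902376541 .nil) (.leaf 0x4120983765 3 (.leaf 0x1456738902 5 (.node 1 5 (.cons 0x1542367890 (.cons 0x6378901542 .nil)) (.leaf 0x7632451098 3 (.node 0 8 (.cons 0x9806732451 .nil) (.node 5 7 (.cons 0x9083214576 (.cons 0x9803241576 (.cons 0x9803675142 .nil))) .done .done) .done)) .done))) .done)) .done))) .done))) (.node 0 7 (.cons 0x8907654123 .nil) (.node 3 6 (.cons 0x8907632145 .nil) (.node 5 8 (.cons 0x4589076321 .nil) (.leaf 0x5890763214 0 (.node 3 9 (.cons 0x4589367012 .nil) (.node 1 3 .nil (.node 2 4 (.cons 0x9854210763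 .nil) (.leaf 0x124589367 5 (.leaf 0x9876542310 5 (.leaf 0x8542107639 5 .done))) .done) (.node 3 5 .nil (.node 2 8 (.cons 0x9821076345 .nil) (.leaf 0x2890763541 0 (.leaf 0x7098214536 4 .done)) (.node 1 3 .nil (.node 0 2 (.cons 0x6702398541 .nil) (.leaf 0x3145678902 2 (.leaf 0x6543120987 3 (.node 1 6 (.cons 0x2398541670 .nil) (.leaf 0x3985416702 2 (.leaf 0x3985416702 1 (.leaf 0x3985416702 5 .done))) .done))) .done) .done)) .done)) (.leaf 0x7098541236 4 (.node 1 3 (.cons 0x4589076312 .nil) (.node 4 7 (.cons 0x5476389012 .nil) (.leaf 0x6589032147 2 (.node 0 2 (.cons 0x9854367021 .nil) (.leaf 0x1365478902 2 (.node 6 9 (.cons 0x2145837690 .nil) (.leaf 0x3120769854 0 (.node 0 6 (.cons 0x9067385412 .nil) (.node 2 9 (.cons 0x3456789210 .nil) (.leaf 0x654783129 2 (.leaf 0x1298765430 2 (.leaf 0x8921430765 2 .done))) .done) (.leaf 0x4312076985 2 .done))) (.leaf 0x9874563120 2 .done))) .done)) .done) .done)))) (.node 0 6 (.cons 0x7609832145 .nil) (.node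 4 6 .nil (.node 2 5 (.cons 0x8907632541 (.cons 0x9012546783 (.cons 0x7645210983 .nil))) (.leaf 0x125467389 5 (.leaf 0x6452109837 5 .done)) (.node 4 7 (.cons 0x8903214765 .nil) (.node 1 3 .nil (.node 0 2 (.cons 0x6547890231 .nil) (.leaf 0x9876541320 2 (.leaf 0x6543120987 3 .done)) (.node 2 6 (.cons 0x1326547890 .nil) (.leaf 0x9874562310 2 (.leaf 0x9874562310 1 (.node 3 9 (.cons 0x2654789310 .nil) (.node 0 2 (.cons 0x6547890231 .nil) (.node 3 5 (.cons 0x9835476201 .nil) .done (.leaf 0x4562013987 1 .done)) .done) .done))) .done)) .done) .done)) (.node 4 7 (.cons 0x5476098321 .nil) (.node 1 3 .nil (.node 0 2 (.cons 0x6547890231 .nil) (.leaf 0x9876541320 2 (.leaf 0x3145678902 2 .done)) (.node 1 5 (.cons 0x2389067451 .nil) (.leaf 0x6098321547 3 (.node 1 7 (.cons 0x8906547132 .nil) (.node 1 8 (.cons 0x5674189032 .nil) .done .done) .done)) .done)) (.node 1 3 (.cons 0x5476098312 .nil) (.node 2 7 (.cons 0x5410983672 .nil) (.leaf 0x1389065472 2 (.node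 2 4 (.cons 0x9872456310 .nil) (.node 4 6 (.cons 0x5647890312 .nil) .done (.leaf 0x1365427890 0 (.leaf 0x3109872456 5 .done))) .done)) .done) .done)) .done)) .done)) (.node 1 3 (.cons 0x8907654132 .nil) (.node 0 8 .nil (.node 2 9 (.cons 0x3456789210 (.cons 0x9210873456 (.cons 0x5670892341 .nil))) (.leaf 0x8076541329 3 (.leaf 0x1298765430 2 .done)) (.node 2 8 (.cons 0x3289076541 .nil) (.node 1 8 .nil (.node 2 9 (.cons 0x3456789210 (.cons 0x1892345670 .nil)) (.leaf 0x3814567092 0 (.leaf 0x1298765430 2 .done)) (.node 1 5 (.cons 0x9823415670 .nil) (.node 2 9 (.cons 0x3456789210 .nil) (.leaf 0x3076541892 0 (.node 1 6 (.cons 0x1654329870 .nil) (.node 0 5 (.cons 0x4329870561 .nil) (.node 2 5 (.cons 0x6709832541 .nil) (.leaf 0x7098325416 2 .done) .done) .done) (.leaf 0x1298765430 2 .done))) .done) .done)) (.node 1 9 (.cons 0x3289145670 .nil) (.leaf 0x8230765419 3 (.node 1 8 .nil (.node 2 9 (.cons 0x3456789210 (.cons 0x1892345670 .nil)) (.leaf 0x3814567092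 0 (.leaf 0x1298765430 2 .done)) .done) .done)) .done)) .done)) .done) .done)) (.node 2 8 (.cons 0x1456732890 .nil) (.leaf 0x5410982376 3 (.node 2 9 (.cons 0x3456789210 .nil) (.node 0 7 (.cons 0x8907654123 .nil) (.leaf 0x7012983456 0 (.node 0 2 (.cons 0x8902376541 .nil) (.node 5 9 (.cons 0x2895673410 .nil) (.leaf 0x1437659820 1 (.leaf 0x1437659820 5 (.node 1 8 (.cons 0x9567341820 .nil) (.leaf 0x3765418902 2 (.node 4 9 (.cons 0x3765941820 .nil) (.leaf 0x1029456738 4 (.leaf 0x7812034956 2 (.leaf 0x1495673028 2 .done))) .done)) .done))) (.node 2 5 (.cons 0x9825673410 .nil) (.leaf 0x6734109825 5 (.node 1 8 (.cons 0x2376541890 .nil) (.node 2 6 (.cons 0x9837625410 .nil) (.leaf 0x1073456298 2 .done) (.leaf 0x4567320981 5 .done)) .done)) .done)) .done)) (.node 3 9 .nil (.node 0 7 (.cons 0x8907654123 (.cons 0x8701293456 .nil)) (.leaf 0x1289345670 2 .done) (.node 0 7 (.cons 0x8934567012 .nil) (.node 6 9 (.cons 0x8701296543 .nil) (.node 5 9 (.cons 0x2895673410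 .nil) (.node 2 5 (.cons 0x9825673410 .nil) (.leaf 0x6734109825 5 (.leaf 0x7014382596 3 (.leaf 0x1076952834 4 .done))) (.node 6 8 (.cons 0x4307865921 .nil) (.leaf 0x3214590768 0 (.leaf 0x7095412386 3 (.leaf 0x2143078659 2 .done))) .done)) (.leaf 0x783456921 5 (.leaf 0x7834569210 6 .done))) (.leaf 0x1289345670 2 .done)) .done)) (.leaf 0x1298765430 2 .done))) (.node 3 9 (.cons 0x2893765410 .nil) (.node 0 7 (.cons 0x8934567012 .nil) (.leaf 0x5670128934 3 (.node 3 6 (.cons 0x8907632145 .nil) (.node 3 5 (.cons 0x6701289354 .nil) (.node 4 6 (.cons 0x5467012893 .nil) (.leaf 0x9821076453 3 (.leaf 0x2893546701 4 .done)) .done) .done) .done)) (.node 0 2 (.cons 0x8902376541 .nil) (.leaf 0x1456739820 1 (.node 2 9 (.cons 0x3456789210 .nil) (.leaf 0x1298765430 2 (.node 2 6 (.cons 0x7893456210 .nil) (.node 5 8 (.cons 0x2985673410 .nil) (.leaf 0x2901458376 0 (.leaf 0x6290145837 2 (.node 1 9 (.cons 0x4562873910 .nil) (.leaf 0x6738541902 3 .done) .done))) .done)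 .done)) (.node 2 5 (.cons 0x6738901452 .nil) (.node 4 6 (.cons 0x9012546783 .nil) (.leaf 0x1093876452 5 (.leaf 0x938764521 6 (.leaf 0x125467839 0 .done))) (.node 2 6 (.cons 0x7893456210 .nil) (.leaf 0x983762541 2 (.node 2 9 (.cons 0x3456789210 .nil) (.leaf 0x1298765430 2 .done) .done)) .done)) (.leaf 0x8201456739 2 .done)))) .done)) .done))) .done))) (.node 2 7 (.cons 0x1456723890 .nil) (.node 3 7 .nil (.node 2 4 (.cons 0x6542109873 .nil) (.node 1 3 (.cons 0x9013876542 (.cons 0x9013872456 .nil)) (.node 3 9 (.cons 0x6542783901 .nil) (.leaf 0x6542103987 2 .done) .done) (.leaf 0x7389012456 2 .done)) (.node 0 7 (.cons 0x2389076541 .nil) (.node 4 7 (.cons 0x8903214765 .nil) (.node 3 9 (.cons 0x8390145672 .nil) (.node 4 8 (.cons 0x2765483901 .nil) (.leaf 0x2109384567 0 (.leaf 0x7210938456 2 .done)) (.node 6 8 (.cons 0x9345687210 .nil) (.leaf 0x1278654390 1 (.node 2 5 (.cons 0x7412568930 .nil) (.node 2 6 (.cons 0x7893456210 .nil) (.leaf 0x3987012654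 1 .done) (.leaf 0x3986521470 0 (.leaf 0x9307412568 5 .done))) (.leaf 0x5687210934 2 .done))) .done)) .done) .done) .done)) (.leaf 0x4109832765 2 (.leaf 0x1098327654 0 (.node 0 7 (.cons 0x2389076541 .nil) (.leaf 0x6541238907 1 (.node 0 8 .nil (.node 5 9 (.cons 0x4103895672 (.cons 0x6708954321 (.cons 0x7659803412 .nil))) (.leaf 0x8034127659 5 (.leaf 0x895672143 3 .done)) (.node 3 7 .nil (.node 6 9 (.cons 0x7345698012 (.cons 0x3721456980 .nil)) (.node 1 7 (.cons 0x9654172380 .nil) (.leaf 0x6908327145 2 .done) (.leaf 0x1089654372 1 (.leaf 0x5698012734 2 .done))) (.node 3 6 (.cons 0x8907632145 .nil) (.node 4 8 (.cons 0x5489076321 .nil) (.node 3 5 (.cons 0x9845367210 .nil) (.leaf 0x4890127635 5 .done) (.node 3 5 (.cons 0x9841276530 .nil) (.node 6 9 (.cons 0x7214896530 .nil) (.leaf 0x873214569 2 (.leaf 0x2148965307 0 (.leaf 0x1270356984 5 .done))) .done) .done)) .done) .done)) .done)) (.node 2 9 (.cons 0x3456789210 .nil) (.node 2 5 (.cons 0x9876521034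 .nil) (.node 5 7 .nil (.node 2 6 (.cons 0x9875621034 .nil) (.leaf 0x4109832675 2 (.leaf 0x1098326754 0 .done)) (.node 2 6 .nil (.node 3 9 (.cons 0x7893456210 (.cons 0x5439876210 .nil)) (.leaf 0x8934562107 2 .done) (.node 5 8 (.cons 0x7658903214 .nil) (.node 3 9 (.cons 0x7014398562 .nil) (.leaf 0x6270143985 2 (.leaf 0x2701439856 0 .done)) (.node 4 7 (.cons 0x9856741230 .nil) (.node 1 5 .nil (.node 0 2 (.cons 0x7654389201 (.cons 0x9834157620 .nil)) (.leaf 0x2015674389 0 .done) (.node 4 6 (.cons 0x7298301564 .nil) (.leaf 0x321564789 5 (.leaf 0x3892746510 6 .done)) .done)) (.leaf 0x3214765890 1 .done)) .done)) .done)) .done)) (.node 2 4 (.cons 0x9830142765 .nil) (.node 3 9 (.cons 0x2456783901 .nil) (.leaf 0x5421093876 3 (.node 2 6 (.cons 0x5439876210 .nil) (.node 0 2 (.cons 0x7654389201 .nil) (.node 2 8 (.cons 0x3289076541 .nil) .done .done) .done) .done)) (.node 5 9 (.cons 0x4103895672 .nil) (.leaf 0x142765983 5 (.leaf 0x1038956724 0 .done)) .done))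 .done)) (.node 3 6 (.cons 0x7298365410 .nil) (.node 3 7 (.cons 0x6543789210 .nil) (.node 0 6 (.cons 0x7892106543 .nil) (.node 1 3 (.cons 0x8907654132 .nil) (.node 4 7 (.cons 0x3892745601 .nil) (.leaf 0x654729831 4 (.leaf 0x7456013892 0 .done)) .done) .done) .done) (.leaf 0x729836541 0 .done)) (.leaf 0x1298765430 2 (.node 0 5 (.cons 0x7650143892 .nil) (.node 2 5 (.cons 0x7652983410 .nil) (.node 3 5 (.cons 0x4356789210 .nil) (.node 2 6 (.cons 0x4356298701 .nil) (.leaf 0x5341078926 5 .done) .done) (.leaf 0x9834107652 2 .done)) (.leaf 0x6729834105 2 (.leaf 0x1438927650 2 .done))) .done)))) .done))) .done)))) .done)))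
noncomputable def uc9_7_7 : T := tc9_7_16
theorem sub_c9_7_7 : root 9 refs9_7 [] 0x800000003807000000007060000000060500000000504000000004030700000030104000000102000000702013000004010 0xfef7fe7fff3fff9fffcfff67ffe5fff9ff79ffe5 9 3 8 (.cons 0x7654123890 .nil) uc9_7_7 = true := by decide +kernel
noncomputable def tc9_7_17 : T := (.node 0 7 (.cons 0x8907654123 .nil) (.node 0 4 .nil (.node 1 9 (.cons 0x5678912340 .nil) (.leaf 0x7891230456 3 (.leaf 0x2198765403 6 (.leaf 0x2190456783 2 .done))) (.node 3 7 (.cons 0x6540987321 .nil) (.node 1 7 (.cons 0x6540987123 .nil) (.node 2 7 .nil (.node 1 8 (.cons 0x3276541890 .nil) (.node 4 6 (.cons 0x5467890321 (.cons 0x9032187645 (.cons 0x5641098372 (.cons 0x5641273890 .nil)))) .done (.leaf 0x9032765418 2 (.leaf 0x4567230981 2 .done))) (.node 1 3 .nil (.node 6 9 (.cons 0x4569078321 (.cons 0x1327896540 (.cons 0x3127896540 .nil))) (.leaf 0x2130456987 5 (.leaf 0x783214569 2 .done)) (.node 3 9 (.cons 0x6540127893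 .nil) (.node 3 6 (.cons 0x7890456321 .nil) (.node 2 9 (.cons 0x3456789210 .nil) (.leaf 0x1298765430 6 (.leaf 0x1456389270 3 (.node 3 5 (.cons 0x4356789210 .nil) .done .done))) .done) (.node 3 6 (.cons 0x2789365401 .nil) (.node 7 9 (.cons 0x4563897210 .nil) (.leaf 0x8365401279 0 .done) .done) .done)) .done)) .done)) (.node 3 6 (.cons 0x9871236540 .nil) (.node 1 3 .nil (.node 6 9 (.cons 0x3217896540 (.cons 0x2317896540 (.cons 0x4569078312 .nil))) (.leaf 0x1230456987 5 (.leaf 0x783214569 2 .done)) .done) (.leaf 0x4563217890 3 (.leaf 0x5409871236 5 .done))) .done)) (.node 1 6 (.cons 0x2378904561 .nil) (.node 3 6 (.cons 0x7890456321 .nil) (.node 2 6 (.cons 0x7389014562 .nil) (.node 2 7 (.cons 0x6541098372 .nil) (.node 4 7 (.cons 0x7456389012 .nil) (.leaf 0x9836547210 4 .done) (.leaf 0x1098372654 2 .done)) (.node 2 9 (.cons 0x3456789210 .nil) (.leaf 0x1456298370 0 (.leaf 0x1298765430 6 (.leaf 0x4107389265 5 (.leaf 0x1456298370 6 .done)))) .done))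 (.node 5 7 (.cons 0x4098756321 .nil) (.node 2 9 (.cons 0x3456789210 .nil) (.leaf 0x1043657892 5 (.leaf 0x8756340129 6 (.leaf 0x129875634 3 (.node 1 3 .nil (.node 0 2 (.cons 0x8902376541 .nil) (.leaf 0x6543120987 3 .done) .done) .done)))) (.leaf 0x1409875632 0 .done)) .done)) (.leaf 0x987321654 1 (.leaf 0x8904561237 2 .done))) .done)) (.node 0 8 .nil (.node 3 9 (.cons 0x7654398012 .nil) (.leaf 0x2145678093 2 (.leaf 0x6541239807 2 (.leaf 0x6541239807 1 .done))) (.node 4 6 (.cons 0x5467890321 .nil) (.node 1 5 (.cons 0x6789032154 .nil) (.node 1 3 .nil (.node 2 4 (.cons 0x5678904231 .nil) (.leaf 0x987651324 2 (.leaf 0x9876542310 5 (.leaf 0x9876542310 1 .done))) (.node 1 6 (.cons 0x9078321654 .nil) (.node 1 8 (.cons 0x9032187645 .nil) (.node 1 7 .nil (.node 2 5 (.cons 0x4098765231 (.cons 0x9804325671 (.cons 0x6523178904 (.cons 0x9804176523 .nil)))) .done .done) .done) .done) .done)) (.leaf 0x2309876451 4 (.leaf 0x5123098764 0 .done))) (.node 4 8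 .nil (.node 3 7 (.cons 0x5673214890 .nil) (.leaf 0x9845673210 2 (.node 0 5 (.cons 0x2376509841 .nil) (.node 1 6 (.cons 0x9078321654 (.cons 0x9032167845 (.cons 0x9876123054 .nil))) (.leaf 0x8761234509 3 .done) (.leaf 0x6509841237 2 (.leaf 0x9841237650 1 .done))) .done)) (.node 4 7 .nil (.node 0 6 (.cons 0x7456098321 .nil) (.node 0 5 (.cons 0x9805674321 .nil) (.node 1 5 (.cons 0x3098764512 (.cons 0x9067845123 (.cons 0x9876032154 .nil))) .done .done) .done) .done) .done)) .done)) .done)) .done))) (.leaf 0x1238907654 3 (.node 1 3 (.cons 0x8907654132 .nil) (.node 3 7 .nil (.node 2 4 (.cons 0x6542109873 .nil) (.node 2 6 (.cons 0x7389012654 (.cons 0x9837014562 .nil)) (.node 1 9 (.cons 0x4562387091 (.cons 0x8709132456 (.cons 0x9107834265 .nil))) (.leaf 0x2387091456 3 .done) (.leaf 0x1098734562 2 .done)) (.leaf 0x5421098376 2 (.leaf 0x1098376542 1 .done))) (.node 0 8 .nil (.node 3 9 (.cons 0x7654398012 .nil) (.leaf 0x2145678093 2 (.leaf 0x876541239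 2 .done)) (.node 1 5 (.cons 0x9807651432 .nil) (.node 0 4 (.cons 0x6512378904 .nil) (.node 4 6 (.cons 0x4651237890 .nil) (.leaf 0x7321564098 5 (.leaf 0x7321564098 2 .done)) (.node 1 7 (.cons 0x6541709832 .nil) (.node 1 9 (.cons 0x5670891432 .nil) (.node 1 6 (.cons 0x5619870432 .nil) (.node 1 8 .nil (.node 2 5 (.cons 0x8914325670 (.cons 0x9187043256 (.cons 0x9816523704 (.cons 0x9814073256 .nil)))) .done .done) .done) .done) (.node 3 6 (.cons 0x9871236540 .nil) (.leaf 0x4563217890 3 (.leaf 0x5409871236 5 .done)) .done)) .done)) (.node 1 7 (.cons 0x6541709832 .nil) (.node 1 8 .nil (.node 2 5 (.cons 0x9807652341 (.cons 0x6523709814 .nil)) (.node 4 6 (.cons 0x9876451230 (.cons 0x9032187645 (.cons 0x9032546781 (.cons 0x9073814652 .nil)))) .done (.leaf 0x6709814325 3 .done)) .done) .done) .done)) .done)) .done)) (.node 0 8 .nil (.node 3 9 (.cons 0x7654398012 .nil) (.leaf 0x2145678093 2 (.leaf 0x876541239 2 .done)) (.node 3 7 .nil (.node 2 4 (.cons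 0x6542109873 .nil) (.node 5 9 (.cons 0x6789543012 (.cons 0x4376598012 (.cons 0x6598701342 (.cons 0x2143765980 .nil)))) (.leaf 0x6598012437 2 .done) (.leaf 0x5421098376 2 (.leaf 0x1098376542 1 .done))) (.node 2 8 (.cons 0x3289076541 .nil) (.node 1 8 .nil (.node 0 4 (.cons 0x9045678123 .nil) (.leaf 0x5673218904 3 (.leaf 0x9812376540 0 .done)) (.node 2 9 (.cons 0x3456789210 .nil) (.node 1 5 (.cons 0x4329807651 .nil) (.node 1 6 (.cons 0x7016543892 .nil) .done (.leaf 0x892341567 5 .done)) (.leaf 0x1298765430 6 (.leaf 0x2981456703 0 .done))) .done)) (.node 1 9 (.cons 0x3289145670 .nil) (.leaf 0x2891456703 3 (.node 1 8 .nil (.node 0 4 (.cons 0x9823140765 (.cons 0x9045678123 .nil)) (.leaf 0x9812376540 0 .done) .done) .done)) .done)) .done)) .done)) .done)) .done))) (.node 0 7 (.cons 0x8907654123 .nil) (.leaf 0x6541238907 2 (.node 0 8 .nil (.node 3 9 (.cons 0x7654398012 .nil) (.leaf 0x2145670893 5 (.leaf 0x1239807654 3 (.leaf 0x876541239 2 .done)))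 (.node 2 8 .nil (.node 3 7 (.cons 0x1456732890 .nil) (.leaf 0x4128903765 3 (.leaf 0x4128903765 4 .done)) (.node 4 8 (.cons 0x5670984123 .nil) (.node 0 4 .nil (.node 1 5 (.cons 0x6789032154 (.cons 0x9870432156 .nil)) (.leaf 0x2156789043 2 (.node 2 9 (.cons 0x3456789210 (.cons 0x3298407651 (.cons 0x5678921043 .nil))) (.leaf 0x1298765430 6 .done) .done)) (.node 1 8 (.cons 0x9045678123 .nil) (.node 4 6 (.cons 0x5467890321 .nil) (.node 6 8 (.cons 0x7689032145 .nil) .done .done) .done) .done)) (.node 4 6 (.cons 0x5467890321 .nil) (.node 1 5 (.cons 0x6789032154 .nil) (.node 1 8 (.cons 0x9032187645 .nil) (.node 6 8 (.cons 0x7689032145 .nil) (.node 5 8 .nil (.node 2 9 (.cons 0x3456789210 (.cons 0x9215843076 (.cons 0x9210785643 (.cons 0x9210346785 .nil)))) .done .done) .done) .done) (.leaf 0x2309876451 4 (.leaf 0x5123098764 0 .done))) (.node 6 8 (.cons 0x7689032145 .nil) (.node 1 8 .nil (.node 5 9 (.cons 0x7689541230 (.cons 0x4321895670 (.cons 0x2341895670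 .nil))) (.leaf 0x321876459 3 (.leaf 0x4678123095 0 .done)) .done) .done) .done)) .done)) (.node 6 8 (.cons 0x7689032145 .nil) (.node 5 8 .nil (.node 6 9 (.cons 0x7698543012 (.cons 0x5896703412 .nil)) (.leaf 0x2309678541 4 (.node 2 6 (.cons 0x9876210345 (.cons 0x9854301267 .nil)) (.node 7 9 (.cons 0x9780126543 (.cons 0x9708562341 (.cons 0x8541267903 .nil))) (.leaf 0x1267903854 1 .done) .done) .done)) (.node 4 8 (.cons 0x5670984123 .nil) (.node 1 8 .nil (.node 2 5 (.cons 0x7689032541 (.cons 0x9032541867 .nil)) (.leaf 0x6709814325 3 (.node 3 7 (.cons 0x6730985412 (.cons 0x9073256814 (.cons 0x2376541890 .nil))) .done .done)) .done) .done) .done)) (.node 5 8 .nil (.node 6 9 (.cons 0x7698543012 .nil) (.leaf 0x2309678541 4 (.node 2 5 (.cons 0x9678521034 (.cons 0x7698521034 .nil)) (.node 3 7 (.cons 0x4378965210 (.cons 0x9037685412 .nil)) (.leaf 0x5689073412 4 .done) .done) (.leaf 0x6903214587 0 .done))) (.node 4 8 (.cons 0x5670984123 .nil) (.node 1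 8 .nil (.node 4 6 (.cons 0x5467890321 (.cons 0x9032187645 .nil)) (.node 2 5 (.cons 0x9867034125 (.cons 0x9032546781 (.cons 0x7645230981 (.cons 0x7098146523 .nil)))) .done .done) .done) .done) .done)) .done)) .done))) (.node 6 8 (.cons 0x7689032145 .nil) (.node 2 8 .nil (.node 3 7 (.cons 0x9082376541 (.cons 0x1456732890 .nil)) (.leaf 0x4128903765 3 .done) (.node 5 8 .nil (.node 6 9 (.cons 0x7698543012 (.cons 0x5896703412 .nil)) (.leaf 0x2309678541 4 (.node 1 6 (.cons 0x9032167854 .nil) (.node 2 5 (.cons 0x9678521034 (.cons 0x7698521034 (.cons 0x9803254167 .nil))) .done .done) (.leaf 0x6903214587 0 .done))) (.node 4 8 (.cons 0x5670984123 .nil) (.node 1 8 .nil (.node 3 7 (.cons 0x6730985412 (.cons 0x9081456732 (.cons 0x2376541890 .nil))) .done .done) .done) .done)) (.node 2 9 (.cons 0x3456789210 .nil) (.node 2 7 (.cons 0x3456729801 .nil) (.node 1 8 (.cons 0x9081456723 .nil) (.node 1 9 (.cons 0x5670891432 .nil) (.leaf 0x192765438 2 (.node 5 8 (.cons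 0x9143276580 .nil) (.leaf 0x8567234190 0 .done) .done)) .done) (.node 1 7 (.cons 0x1765432980 .nil) (.node 1 3 (.cons 0x7654310892 .nil) (.node 1 8 (.cons 0x9234567180 .nil) .done .done) (.leaf 0x4329801765 2 .done)) .done)) (.leaf 0x1298765430 6 (.node 1 8 .nil (.node 3 7 (.cons 0x5673410892 (.cons 0x9081456732 (.cons 0x2376541890 .nil))) .done (.node 4 8 (.cons 0x5670984123 .nil) (.node 5 8 .nil (.node 3 7 (.cons 0x5673410892 (.cons 0x3765841290 (.cons 0x2985673410 .nil))) .done .done) .done) .done)) .done))) .done))) (.node 4 6 (.cons 0x5467890321 .nil) (.node 1 5 (.cons 0x9807651432 .nil) (.node 1 3 .nil (.node 2 4 (.cons 0x9083241567 .nil) (.leaf 0x9876542310 5 (.leaf 0x9876542310 1 .done)) (.node 0 4 .nil (.node 2 9 (.cons 0x3456789210 (.cons 0x7043129865 (.cons 0x9215687043 (.cons 0x9234087651 .nil)))) (.leaf 0x8765129043 5 .done) (.node 2 4 (.cons 0x9083241567 .nil) (.node 4 8 (.cons 0x5670984123 .nil) .done .done) .done)) .done)) (.leaf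 0x2309876451 4 (.leaf 0x5123098764 0 .done))) (.node 1 5 (.cons 0x2309876451 .nil) (.node 1 3 .nil (.node 2 4 (.cons 0x9083241567 (.cons 0x9087654231 .nil)) (.leaf 0x9876542310 5 (.leaf 0x9876542310 1 .done)) (.node 5 8 (.cons 0x7098564132 .nil) (.node 4 8 (.cons 0x9078465132 .nil) (.node 0 5 (.cons 0x7650983214 .nil) (.node 2 5 (.cons 0x9807652341 .nil) (.node 2 8 (.cons 0x9032876451 .nil) .done .done) .done) .done) (.node 2 9 (.cons 0x3456789210 .nil) (.node 1 7 (.cons 0x1764589230 .nil) (.leaf 0x4329801765 2 (.leaf 0x9854671032 2 .done)) (.leaf 0x1298765430 6 (.leaf 0x7641589230 1 (.leaf 0x4670329851 5 .done)))) .done)) .done)) (.node 2 9 (.cons 0x3456789210 .nil) (.leaf 0x892341567 5 (.leaf 0x1298765430 6 (.node 1 9 (.cons 0x2346519870 .nil) (.node 6 9 (.cons 0x4321569870 .nil) (.node 2 7 (.cons 0x5672341980 .nil) (.leaf 0x3415698072 6 (.leaf 0x896514327 5 .done)) .done) .done) (.leaf 0x4329807651 5 .done)))) (.leaf 0x7890321546 3 .done)))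 .done)) .done)) .done))) (.node 3 7 .nil (.node 2 8 (.cons 0x3289076541 .nil) (.leaf 0x5410982376 3 (.node 2 4 (.cons 0x5670983241 (.cons 0x6542109873 .nil)) (.node 5 9 (.cons 0x9567834210 (.cons 0x6734598210 (.cons 0x8376590142 .nil))) (.leaf 0x8342109567 2 (.leaf 0x4283765901 2 .done)) .done) (.leaf 0x1456730982 5 .done))) (.node 1 3 (.cons 0x8907654132 .nil) (.node 0 8 .nil (.node 3 9 (.cons 0x7654398012 .nil) (.leaf 0x2145678093 2 (.leaf 0x876541239 2 .done)) (.node 0 4 .nil (.node 2 5 (.cons 0x9834107652 (.cons 0x9834012567 (.cons 0x9832567041 .nil))) (.node 1 9 (.cons 0x8325670914 (.cons 0x5678912340 .nil)) (.leaf 0x8765219043 5 .done) (.leaf 0x1409837652 1 .done)) (.node 0 5 (.cons 0x7650983214 .nil) (.node 4 7 (.cons 0x5674123890 .nil) (.node 2 4 (.cons 0x5670983241 .nil) (.node 3 6 (.cons 0x8905476321 .nil) (.node 1 8 (.cons 0x5476321890 .nil) (.node 3 9 (.cons 0x8765409321 .nil) (.leaf 0x456781239 5 .done) (.leaf 0x2367450981 2 .done))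 (.leaf 0x124563789 2 .done)) .done) (.leaf 0x8905674123 3 .done)) .done) .done)) .done)) .done) .done)) .done))) (.node 2 7 (.cons 0x1456723890 .nil) (.node 3 7 .nil (.node 2 4 (.cons 0x6542109873 .nil) (.node 2 6 (.cons 0x9876210345 .nil) (.leaf 0x983726541 6 (.leaf 0x1098734562 2 (.node 5 9 (.cons 0x6789543012 (.cons 0x7624598301 (.cons 0x6210378954 (.cons 0x8954103762 (.cons 0x8954126730 .nil))))) .done .done))) (.leaf 0x7389012456 2 .done)) (.node 0 7 (.cons 0x2389076541 .nil) (.node 3 9 (.cons 0x8390145672 .nil) (.node 4 8 (.cons 0x5673214890 .nil) (.leaf 0x2109384567 0 (.leaf 0x7210938456 2 (.node 0 5 (.cons 0x3765098412 .nil) (.leaf 0x6732148905 5 (.leaf 0x7650984123 3 (.node 0 8 (.cons 0x3908456721 .nil) (.node 3 5 (.cons 0x4809356721 .nil) (.leaf 0x1480935672 0 .done) .done) .done))) .done))) (.node 6 8 (.cons 0x9345687210 .nil) (.leaf 0x1278654390 1 (.node 2 6 (.cons 0x7893456210 .nil) (.node 1 3 (.cons 0x8907654132 .nil) (.node 3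 6 (.cons 0x8721093654 .nil) .done .done) (.leaf 0x3987012654 1 .done)) (.leaf 0x5687210934 2 .done))) .done)) .done) .done)) (.leaf 0x4109832765 2 (.leaf 0x1098327654 0 (.node 0 7 (.cons 0x2389076541 .nil) (.leaf 0x6541238907 1 (.node 0 8 .nil (.node 1 9 (.cons 0x9145672380 .nil) (.leaf 0x4567230891 2 (.leaf 0x3219807654 3 (.leaf 0x7238091456 0 (.leaf 0x8032765419 2 .done)))) (.node 3 7 .nil (.node 6 9 (.cons 0x5410389672 (.cons 0x7345698012 (.cons 0x3721456980 .nil))) (.leaf 0x1089654372 1 (.leaf 0x5698012734 2 .done)) (.node 1 7 .nil (.node 0 4 (.cons 0x2389045671 .nil) (.leaf 0x9045671238 2 (.leaf 0x5671238904 1 (.node 2 5 (.cons 0x9834107652 (.cons 0x6523890714 .nil)) (.leaf 0x1765238904 4 (.leaf 0x2567140983 0 .done)) .done))) (.node 7 9 (.cons 0x8097321456 .nil) (.node 5 7 (.cons 0x8903214576 .nil) (.node 4 7 .nil (.node 3 6 (.cons 0x1456327980 (.cons 0x9801274563 .nil)) (.leaf 0x9874563210 1 .done) .done) .done) (.node 5 7 (.cons 0x8903214576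 .nil) (.node 6 8 (.cons 0x2309867541 .nil) (.leaf 0x3098675412 4 (.leaf 0x5412379086 1 (.leaf 0x6890321457 0 .done))) .done) .done)) .done)) .done)) .done)) (.node 5 7 (.cons 0x8903214576 .nil) (.node 3 7 .nil (.node 2 6 (.cons 0x9876210345 .nil) (.node 2 4 (.cons 0x6542109873 .nil) (.node 1 5 (.cons 0x6789032154 .nil) (.leaf 0x4238907651 5 (.leaf 0x2415670983 3 .done)) (.leaf 0x7389012456 2 .done)) (.leaf 0x983726541 0 (.leaf 0x1098734562 2 .done))) (.node 1 7 .nil (.node 0 4 (.cons 0x8904123765 (.cons 0x6540987123 .nil)) (.leaf 0x5671238904 1 .done) (.node 2 5 (.cons 0x6714523890 .nil) (.node 0 5 (.cons 0x6714509832 .nil) (.node 2 6 (.cons 0x9834526710 .nil) (.leaf 0x541762389 0 (.leaf 0x7109834526 5 .done)) .done) (.node 0 5 (.cons 0x6714509832 .nil) (.node 4 6 (.cons 0x9873465210 .nil) (.leaf 0x7645098321 2 (.leaf 0x987346521 0 (.leaf 0x5273890146 2 .done))) .done) .done)) .done)) .done)) (.node 6 8 (.cons 0x3098675412 .nil) (.leaf 0x9032145768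 3 (.node 5 9 (.cons 0x7689541230 .nil) (.leaf 0x8670321459 5 (.leaf 0x4598670321 6 (.node 5 8 .nil (.node 2 6 (.cons 0x2678954301 (.cons 0x9854301267 (.cons 0x9857621430 .nil))) (.leaf 0x1267589034 2 .done) (.node 0 8 (.cons 0x6723089541 .nil) (.node 2 8 (.cons 0x3289076541 .nil) (.node 1 8 .nil (.node 2 6 (.cons 0x2678954301 (.cons 0x4590326781 (.cons 0x9812675430 (.cons 0x2675981430 .nil)))) .done .done) .done) .done) .done)) .done))) (.node 3 5 (.cons 0x9867214530 .nil) (.leaf 0x4127689035 3 (.node 3 9 (.cons 0x5412768930 .nil) (.node 0 5 (.cons 0x9867214503 .nil) (.leaf 0x2145039867 4 (.node 0 4 (.cons 0x6540127893 .nil) (.node 1 9 (.cons 0x3912786540 .nil) (.leaf 0x7654091238 2 (.leaf 0x7654091238 5 .done)) .done) .done)) (.node 3 6 (.cons 0x8903675412 .nil) (.node 3 7 .nil (.node 0 5 (.cons 0x4398765012 (.cons 0x4127398650 .nil)) (.leaf 0x4123768905 5 .done) .done) .done) .done)) (.node 1 5 (.cons 0x6789032154 .nil) (.node 0 5 (.cons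 0x9867214503 .nil) (.node 2 5 (.cons 0x9830145276 .nil) .done .done) (.node 4 6 (.cons 0x9876451230 .nil) (.leaf 0x5123098764 0 (.leaf 0x7890321546 3 .done)) .done)) .done))) .done))) .done)) .done))) .done)))) .done)))
noncomputable def uc9_7_8 : T := tc9_7_17
theorem sub_c9_7_8 : root 9 refs9_7 [] 0x800000003807000000007060000000060500000000504000000004030700000030105000000102000000702013000005010 0xfef7fe7fff3fff9fffcfff67ffd5fff9ff79ffd5 9 3 8 (.cons 0x7654123890 .nil) uc9_7_8 = true := by decide +kernel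
noncomputable def tc9_7_18 : T := (.node 1 3 .nil (.node 2 4 (.cons 0x1324567890 .nil) (.leaf 0x5678903124 2 (.node 2 9 (.cons 0x3456789210 .nil) (.leaf 0x1034567892 2 (.leaf 0x1092456783 3 (.node 0 2 (.cons 0x4567890231 .nil) (.leaf 0x4567892013 2 (.leaf 0x6543120987 3 (.node 0 8 (.cons 0x9087654231 .nil) (.node 3 9 (.cons 0x7654398012 (.cons 0x9342108765 .nil)) (.leaf 0x4567839012 6 .done) .done) .done))) (.leaf 0x138765429 5 .done)))) (.leaf 0x9876542310 5 (.leaf 0x9876542310 1 .done)))) (.node 3 9 .nil (.node 2 4 (.cons 0x8765421093 .nil) (.leaf 0x4210938765 0 (.leaf 0x1093876542 4 (.leaf 0x1039876542 2 .done))) (.node 0 8 (.cons 0x7654398012 .nil) (.node 2 8 (.cons 0x7654398210 .nil) (.node 3 6 .nil (.node 3 7 (.cons 0x9012873654 (.cons 0x7365410982 .nil)) .done (.node 3 7 (.cons 0x7365410982 .nil) (.node 3 5 .nil (.node 2 9 (.cons 0x3456789210 (.cons 0x7829016354 (.cons 0x4356789210 .nil))) .done .done) .done) .done)) (.node 0 7 (.cons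 0x8934567012 .nil) (.leaf 0x5670128934 3 (.node 3 6 (.cons 0x8907632145 .nil) (.node 3 5 (.cons 0x6701289354 .nil) (.node 3 7 (.cons 0x4567398210 .nil) .done .done) .done) (.leaf 0x6543982107 5 .done))) .done)) (.node 2 7 (.cons 0x8934567210 .nil) (.node 4 8 (.cons 0x8456721093 .nil) (.node 0 7 (.cons 0x8934567012 .nil) (.leaf 0x2165487093 3 (.leaf 0x6123907845 4 .done)) (.leaf 0x7210938456 3 .done)) (.leaf 0x4398012765 1 (.leaf 0x9345672108 5 (.leaf 0x9345672108 2 .done)))) .done)) (.node 3 7 .nil (.node 3 6 (.cons 0x4563789012 .nil) (.node 2 4 (.cons 0x7638901245 (.cons 0x8739016542 .nil)) (.leaf 0x5421098736 2 (.leaf 0x1098736542 1 .done)) .done) (.node 3 6 .nil (.node 2 4 (.cons 0x7890124563 (.cons 0x5421098763 .nil)) (.leaf 0x124563789 5 (.node 3 5 (.cons 0x9012453876 .nil) (.leaf 0x4210987635 0 .done) .done)) (.node 3 5 .nil (.node 2 4 (.cons 0x7638901245 (.cons 0x9012453876 (.cons 0x8761093542 .nil))) (.node 6 9 (.cons 0x7896543012 (.cons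 0x7896534210 (.cons 0x7835421690 .nil))) .done .done) .done) .done)) .done)) .done))) .done)) (.node 1 3 .nil (.node 2 4 (.cons 0x1324567890 .nil) (.leaf 0x5678903124 2 (.node 2 9 (.cons 0x3456789210 .nil) (.leaf 0x1034567892 2 (.leaf 0x1092456783 3 (.node 0 2 (.cons 0x4567890231 .nil) (.leaf 0x4567892013 2 (.leaf 0x6543120987 3 (.node 0 8 (.cons 0x9087654231 .nil) (.node 3 9 (.cons 0x7654398012 (.cons 0x9342108765 .nil)) (.leaf 0x4567839012 6 .done) .done) .done))) (.leaf 0x138765429 5 .done)))) (.leaf 0x9876542310 5 (.leaf 0x9876542310 1 .done)))) (.node 3 7 .nil (.node 0 4 (.cons 0x8904567321 .nil) (.leaf 0x2378904561 2 (.leaf 0x2378904561 1 (.node 2 4 (.cons 0x6542109873 .nil) (.node 3 5 (.cons 0x5324098761 .nil) (.leaf 0x9012435678 0 .done) (.leaf 0x4210983765 0 .done)) (.node 2 8 (.cons 0x9045678231 (.cons 0x7328904165 (.cons 0x5673289041 .nil))) (.leaf 0x5412890376 1 .done) .done)))) (.node 0 8 .nil (.node 3 9 (.cons 0x7654398012 .nil)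 (.leaf 0x2145678093 2 (.leaf 0x876541239 2 .done)) (.node 3 9 .nil (.node 2 4 (.cons 0x8765421093 .nil) (.leaf 0x4210938765 0 (.leaf 0x1093876542 4 (.leaf 0x1039876542 2 .done))) (.node 2 8 (.cons 0x7654398210 .nil) (.node 3 6 .nil (.node 0 7 (.cons 0x8934567012 (.cons 0x8907632145 (.cons 0x7098236541 .nil))) (.leaf 0x2145637098 5 .done) (.node 2 7 (.cons 0x8934567210 .nil) (.leaf 0x145637289 5 (.leaf 0x1089345672 2 (.leaf 0x1456372890 6 .done))) .done)) (.node 0 4 (.cons 0x7654012893 .nil) (.leaf 0x9821045673 0 (.node 0 7 (.cons 0x8934567012 .nil) (.leaf 0x5670128934 3 (.leaf 0x6543982107 5 .done)) (.leaf 0x8937654012 5 .done))) .done)) (.node 3 5 .nil (.node 0 4 (.cons 0x8904123765 (.cons 0x6789045321 .nil)) (.leaf 0x7612354098 2 (.node 2 9 (.cons 0x3456789210 (.cons 0x5340167892 (.cons 0x4356789210 .nil))) (.leaf 0x6534012987 1 (.leaf 0x3567892104 5 .done)) .done)) (.node 3 6 .nil (.node 2 4 (.cons 0x9801243567 (.cons 0x7890124563 (.cons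 0x5421098763 .nil))) (.leaf 0x4210987635 0 .done) .done) .done)) .done))) (.node 4 8 (.cons 0x5673214890 .nil) (.node 1 9 (.cons 0x4567809132 .nil) (.node 2 4 (.cons 0x9087654231 .nil) (.leaf 0x5678091324 2 (.leaf 0x3190876542 2 .done)) (.node 0 6 (.cons 0x5432198760 .nil) (.node 0 4 (.cons 0x8904123765 .nil) (.node 0 7 (.cons 0x8907654123 .nil) .done .done) (.node 5 7 (.cons 0x8912345760 .nil) (.leaf 0x3457608912 3 (.leaf 0x3214890657 3 (.leaf 0x6098412375 0 (.leaf 0x6754321980 6 .done)))) .done)) .done)) (.node 0 5 (.cons 0x3765098412 .nil) (.leaf 0x6732148905 5 (.leaf 0x7650984123 3 .done)) .done)) .done))) (.node 3 5 .nil (.node 2 6 (.cons 0x5410983762 (.cons 0x9012678354 (.cons 0x7621098354 .nil))) (.node 4 7 (.cons 0x6547890321 (.cons 0x9874530126 (.cons 0x4789035612 .nil))) (.leaf 0x7453890126 0 .done) .done) (.node 3 6 .nil (.node 2 4 (.cons 0x2456378901 (.cons 0x5421098763 .nil)) (.leaf 0x1098763542 4 (.leaf 0x4210987635 0 .done))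 .done) .done)) .done))) .done)) (.node 4 7 (.cons 0x9874561230 .nil) (.leaf 0x5612309874 2 (.leaf 0x8903216547 2 (.node 2 9 (.cons 0x3456789210 .nil) (.leaf 0x1034567892 2 (.node 3 7 (.cons 0x6543789210 .nil) (.node 1 3 .nil (.node 0 6 (.cons 0x7892106543 (.cons 0x8745609231 (.cons 0x5601347892 .nil))) (.leaf 0x9874560132 2 (.leaf 0x9874560132 5 .done)) (.node 1 7 .nil (.node 2 6 (.cons 0x5629874310 (.cons 0x8903265471 .nil)) (.leaf 0x5623098714 2 (.leaf 0x3098714562 1 .done)) (.node 1 9 .nil (.node 0 8 (.cons 0x9210873456 (.cons 0x4561923780 .nil)) (.leaf 0x1654780329 5 .done) .done) .done)) .done)) (.node 1 3 .nil (.node 0 6 (.cons 0x7892106543 (.cons 0x8745609231 (.cons 0x5601347892 .nil))) (.leaf 0x9874560132 2 (.leaf 0x9874560132 5 .done)) (.node 0 8 (.cons 0x9231654780 .nil) (.leaf 0x6132908745 0 (.leaf 0x5613290874 2 .done)) .done)) .done)) (.node 1 5 (.cons 0x6154789230 .nil) (.node 1 3 .nil (.node 0 2 (.cons 0x8902314765 .nil) (.leaf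 0x4567892013 2 (.leaf 0x3145678902 2 (.leaf 0x6543120987 3 .done))) (.node 1 8 .nil (.node 0 6 (.cons 0x5478923061 (.cons 0x9230618745 (.cons 0x9067451832 (.cons 0x9234518760 .nil)))) (.leaf 0x3298745160 3 .done) (.node 1 9 .nil (.node 2 6 (.cons 0x5478926103 (.cons 0x3265478190 (.cons 0x8326745190 .nil))) (.leaf 0x9874562301 1 .done) .done) .done)) .done)) (.node 1 9 .nil (.node 0 2 (.cons 0x5476198320 (.cons 0x6519874320 .nil)) (.leaf 0x8765430219 2 (.leaf 0x7654302198 0 .done)) (.node 1 8 .nil (.node 2 6 (.cons 0x5478926103 (.cons 0x9032654781 (.cons 0x7456230981 (.cons 0x7418903265 .nil)))) .done .done) .done)) .done)) (.leaf 0x6547892301 2 .done)))) (.node 1 3 (.cons 0x6547890312 .nil) (.node 2 6 (.cons 0x3098745621 .nil) (.node 1 5 (.cons 0x9038745126 .nil) (.node 4 6 .nil (.node 0 7 (.cons 0x8907654123 (.cons 0x9078321546 (.cons 0x9870321645 (.cons 0x9078326451 .nil)))) (.node 3 9 (.cons 0x2165478930 (.cons 0x8390746215 (.cons 0x5126478390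 (.cons 0x7839015462 .nil)))) .done .done) (.node 1 8 .nil (.node 7 9 (.cons 0x1546238790 (.cons 0x3264518790 (.cons 0x5418326790 .nil))) (.leaf 0x381265479 2 .done) (.node 1 9 (.cons 0x7832645190 .nil) (.node 1 7 (.cons 0x8719032645 .nil) .done .done) .done)) .done)) .done) (.leaf 0x2654789031 0 (.node 3 5 (.cons 0x4789035621 .nil) (.node 0 2 (.cons 0x9835476120 .nil) (.node 0 5 (.cons 0x9874305621 .nil) (.node 1 5 (.cons 0x4762153890 .nil) (.leaf 0x983267415 4 .done) .done) (.leaf 0x7453890216 3 (.leaf 0x7453890216 4 .done))) (.leaf 0x9035621478 5 .done)) .done))) (.node 4 6 (.cons 0x5647890312 .nil) (.node 3 9 (.cons 0x2165478930 .nil) (.node 2 6 (.cons 0x3098745621 .nil) (.node 2 5 (.cons 0x9012546783 .nil) (.node 3 5 (.cons 0x1267453890 .nil) (.node 3 6 .nil (.node 0 5 (.cons 0x9054678321 .nil) (.leaf 0x7638905214 4 .done) .done) .done) (.leaf 0x125467839 5 (.leaf 0x6452109387 5 .done))) (.node 3 5 (.cons 0x4789035621 .nil) (.leaf 0x2653098741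 5 (.leaf 0x9035621478 5 .done)) .done)) (.node 2 5 (.cons 0x2546783901 .nil) (.leaf 0x7839012546 5 (.leaf 0x8764521093 0 (.leaf 0x8390125467 6 (.leaf 0x5213098746 0 .done)))) .done)) (.node 2 5 (.cons 0x2564789031 .nil) (.node 1 8 (.cons 0x9031874652 .nil) (.node 1 5 .nil (.node 0 2 (.cons 0x9874561203 (.cons 0x6745120983 (.cons 0x3209876451 (.cons 0x9874302156 .nil)))) .done .done) .done) (.node 0 4 (.cons 0x8904765213 .nil) (.leaf 0x7652138904 2 (.node 1 8 (.cons 0x7640981325 .nil) (.node 4 8 (.cons 0x3125674890 .nil) .done .done) .done)) (.leaf 0x9874652130 4 (.leaf 0x7890312564 3 .done)))) .done)) .done)) .done)))) .done)))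
noncomputable def tc9_7_19 : T := (.node 1 6 (.cons 0x7890321654 .nil) tc9_7_18 (.node 0 7 (.cons 0x8907654123 .nil) (.leaf 0x6541238907 2 (.leaf 0x9832145670 2 (.node 0 5 (.cons 0x7650983214 .nil) (.node 3 5 (.cons 0x8907653214 .nil) (.node 3 9 .nil (.node 2 8 (.cons 0x9821076534 (.cons 0x9345012876 .nil)) (.leaf 0x3982107654 3 (.leaf 0x1289345670 6 .done)) (.node 2 9 (.cons 0x3456789210 .nil) (.leaf 0x1034567892 2 (.node 4 8 (.cons 0x4890765321 .nil) (.leaf 0x6709841235 0 (.leaf 0x9210765348 0 (.leaf 0x3567012984 3 (.node 1 9 (.cons 0x2198435670 .nil) (.node 0 2 (.cons 0x7653489120 .nil) (.leaf 0x8435670219 3 (.leaf 0x8435670219 4 .done)) .done) .done)))) (.node 0 4 (.cons 0x5678921043 .nil) (.leaf 0x1298765340 4 (.node 1 5 (.cons 0x1567892340 .nil) (.leaf 0x8923401567 5 (.node 0 6 (.cons 0x4512398760 .nil) (.leaf 0x9321540678 5 .done) .done)) .done)) .done))) (.node 3 6 .nil (.node 2 4 (.cons 0x7653890124 (.cons 0x7890124563 (.cons 0x5421098763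 .nil))) (.leaf 0x4210987635 0 .done) (.node 3 7 .nil (.node 2 8 (.cons 0x5670143982 (.cons 0x9012873654 (.cons 0x2893765410 .nil))) (.leaf 0x9821456730 2 .done) (.node 6 8 (.cons 0x5412376890 .nil) (.node 7 9 (.cons 0x7986541230 .nil) (.node 0 2 (.cons 0x5679834120 .nil) (.leaf 0x3897650214 2 (.node 1 3 (.cons 0x8679314502 .nil) .done .done)) .done) (.leaf 0x4123768905 2 (.leaf 0x4123768905 5 .done))) .done)) .done)) .done))) (.node 2 4 (.cons 0x8907653241 .nil) (.node 5 9 (.cons 0x9567834210 .nil) (.leaf 0x3421095678 0 (.leaf 0x8342109567 2 (.node 2 7 (.cons 0x4109835672 .nil) (.leaf 0x3890142765 2 (.node 2 8 (.cons 0x3412895670 .nil) (.node 6 9 (.cons 0x9653428701 .nil) (.leaf 0x5430127896 2 (.leaf 0x8721034569 2 (.leaf 0x8270143569 2 .done))) (.leaf 0x4128956703 5 .done)) .done)) .done))) (.node 2 9 (.cons 0x3456789210 .nil) (.leaf 0x1034567892 2 (.node 3 6 (.cons 0x5436789210 .nil) (.node 1 6 (.cons 0x9870165342 .nil) (.leaf 0x8924356107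 2 (.node 0 8 (.cons 0x7614532980 .nil) (.leaf 0x3541670892 2 (.node 3 7 (.cons 0x5416732980 .nil) (.leaf 0x4167329805 1 .done) .done)) .done)) (.leaf 0x4501298763 2 .done)) (.node 4 9 (.cons 0x4905678321 .nil) (.leaf 0x7832149056 0 (.node 0 4 (.cons 0x2987653401 .nil) (.node 4 8 (.cons 0x2356709841 .nil) (.node 3 7 (.cons 0x9056738412 .nil) (.leaf 0x9214837650 0 (.leaf 0x921483765 2 .done)) .done) .done) (.leaf 0x5678349210 4 .done))) .done))) (.node 3 6 (.cons 0x2453678901 .nil) (.leaf 0x987635421 6 (.leaf 0x9012453678 5 .done)) .done))) .done)) (.node 3 5 (.cons 0x8907653214 .nil) (.node 1 3 .nil (.node 2 4 (.cons 0x9834210567 .nil) (.node 0 2 (.cons 0x4567890231 .nil) (.leaf 0x9876541320 2 (.node 5 9 (.cons 0x9567834210 (.cons 0x6789543102 (.cons 0x6789543120 .nil))) (.leaf 0x8342109567 2 .done) .done)) (.leaf 0x9876542310 5 (.leaf 0x9876542310 1 .done))) (.node 3 7 .nil (.node 2 9 (.cons 0x3456789210 (.cons 0x6543789210 (.cons 0x8921054376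 (.cons 0x8921056734 .nil)))) (.leaf 0x1034567892 2 .done) (.node 3 9 .nil (.node 2 8 (.cons 0x1456732890 (.cons 0x6782109354 (.cons 0x2893765410 .nil))) (.leaf 0x3982107654 3 .done) (.node 2 8 (.cons 0x7654398210 .nil) (.leaf 0x3982107654 3 (.node 3 6 (.cons 0x9012876354 .nil) .done (.leaf 0x1289345670 6 .done))) .done)) .done)) .done)) (.node 2 4 (.cons 0x8907653241 .nil) (.node 5 9 (.cons 0x9567834210 .nil) (.leaf 0x8342109567 2 (.node 0 2 (.cons 0x7659834120 .nil) (.node 0 4 (.cons 0x3876590421 .nil) (.node 0 8 .nil (.node 1 3 (.cons 0x6789543120 (.cons 0x9543120876 (.cons 0x6780954213 .nil))) .done .done) .done) .done) .done)) (.node 5 9 (.cons 0x6598701243 .nil) (.node 3 7 (.cons 0x6542109873 .nil) (.node 3 6 (.cons 0x4365987012 .nil) (.node 3 9 (.cons 0x8739012456 .nil) (.node 1 3 .nil (.node 0 2 (.cons 0x4567890231 .nil) (.leaf 0x9876541320 2 (.leaf 0x3145678902 2 (.node 2 8 (.cons 0x7012895634 .nil) (.leaf 0x3145670982 5 .done) .done)))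 .done) .done) .done) (.node 6 8 (.cons 0x5412376890 .nil) (.leaf 0x2376890541 1 (.leaf 0x9867321450 2 (.node 1 3 (.cons 0x4509867312 .nil) (.node 3 9 (.cons 0x7865421390 .nil) (.leaf 0x1245687093 3 .done) .done) .done))) .done)) (.node 2 8 (.cons 0x3412895670 .nil) (.leaf 0x4128956703 5 (.leaf 0x5982143076 5 .done)) .done)) (.node 3 6 (.cons 0x2453678901 .nil) (.leaf 0x987635421 6 (.leaf 0x9012453678 5 .done)) .done))) .done)) (.node 0 8 .nil (.node 1 9 (.cons 0x7650891432 .nil) (.leaf 0x2345670891 5 (.leaf 0x3219807654 3 (.node 0 6 (.cons 0x7608912345 .nil) (.leaf 0x1234506789 0 .done) .done))) (.node 0 4 .nil (.node 1 9 (.cons 0x5678912340 .nil) (.leaf 0x2387654091 2 (.leaf 0x5043219876 0 (.node 0 6 (.cons 0x5432198760 .nil) (.leaf 0x1234506789 0 (.leaf 0x9123450678 2 .done)) .done))) (.node 0 2 .nil (.node 1 9 (.cons 0x8765409123 (.cons 0x4320567891 .nil)) (.leaf 0x4567891023 5 (.leaf 0x4567891023 2 .done)) (.node 0 6 .nil (.node 1 7 (.cons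 0x4176509832 (.cons 0x9871230654 .nil)) (.leaf 0x2345609871 2 (.node 5 9 (.cons 0x4095678321 (.cons 0x8954321760 (.cons 0x6034598712 .nil))) (.leaf 0x412387659 2 .done) .done)) .done) .done)) .done)) .done)) .done))) (.node 0 5 (.cons 0x7650983214 .nil) (.node 0 8 .nil (.node 7 9 (.cons 0x9765083412 .nil) (.leaf 0x4567980123 1 (.leaf 0x832145679 2 (.leaf 0x1230897654 3 .done))) (.node 0 4 .nil (.node 2 5 (.cons 0x9834107652 (.cons 0x9834012567 (.cons 0x9832567041 .nil))) (.node 1 5 (.cons 0x4156709832 .nil) (.node 2 4 (.cons 0x9832415670 .nil) (.leaf 0x1567098324 0 (.leaf 0x3890765142 3 .done)) .done) .done) .done) .done)) (.node 4 7 (.cons 0x5674123890 .nil) (.node 0 8 (.cons 0x9083214765 .nil) (.node 0 4 .nil (.node 1 5 (.cons 0x4156709832 (.cons 0x9047832156 .nil)) (.leaf 0x2156789043 2 (.node 6 9 (.cons 0x8745690321 (.cons 0x7698045123 (.cons 0x7896512304 .nil))) (.leaf 0x321569874 5 (.leaf 0x321569874 2 .done)) .done)) .done) .done) (.node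 3 7 .nil (.node 2 8 (.cons 0x3289076541 (.cons 0x9821054376 .nil)) (.leaf 0x5410982376 3 (.leaf 0x5412890376 1 .done)) (.node 1 3 (.cons 0x8907654132 .nil) (.node 0 4 .nil (.node 1 9 (.cons 0x8732190456 (.cons 0x5678912340 .nil)) (.leaf 0x9123405678 0 .done) (.node 2 4 (.cons 0x5670983241 .nil) (.node 3 6 (.cons 0x8905476321 .nil) (.node 1 8 (.cons 0x5476321890 .nil) (.node 3 9 (.cons 0x8765409321 .nil) (.leaf 0x5409321876 1 .done) (.leaf 0x2367450981 2 .done)) (.leaf 0x124563789 2 .done)) .done) .done)) .done) .done)) (.leaf 0x8905674123 3 .done))) .done)) .done)))) (.node 2 7 (.cons 0x1456723890 .nil) (.node 0 8 (.cons 0x9083276541 .nil) (.node 0 7 (.cons 0x2389076541 .nil) (.node 3 7 .nil (.node 2 4 (.cons 0x5670983241 (.cons 0x6542109873 .nil)) (.leaf 0x7389012456 2 .done) (.node 3 9 (.cons 0x8390145672 .nil) (.node 2 8 (.cons 0x7654398210 .nil) (.leaf 0x3982107654 3 (.leaf 0x8276541093 0 (.leaf 0x1289345670 6 .done))) (.node 0 2 .nil (.node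 1 9 (.cons 0x8327654190 (.cons 0x9102783456 .nil)) (.leaf 0x4567891023 2 .done) (.node 1 7 (.cons 0x9834567102 .nil) (.node 0 4 (.cons 0x9832045671 .nil) (.node 1 9 (.cons 0x4567198320 .nil) (.leaf 0x5402389176 2 (.leaf 0x4023891765 0 .done)) (.node 0 5 (.cons 0x4398765012 .nil) (.node 0 6 (.cons 0x9871230654 .nil) .done .done) .done)) .done) .done)) .done)) .done)) (.node 0 4 .nil (.node 1 7 (.cons 0x5671409832 (.cons 0x9871230456 .nil)) (.leaf 0x9045671238 2 (.leaf 0x4098321765 1 .done)) (.node 1 9 (.cons 0x8327654190 .nil) (.node 0 6 (.cons 0x7891234560 .nil) (.node 5 7 (.cons 0x9806754321 .nil) (.leaf 0x2198067543 2 (.leaf 0x1980675432 0 .done)) (.leaf 0x3219870654 2 .done)) (.leaf 0x7654091238 2 (.leaf 0x7654091238 5 .done))) .done)) .done)) (.node 0 7 (.cons 0x2389076541 .nil) (.node 3 7 .nil (.node 2 8 (.cons 0x9014567283 .nil) (.leaf 0x5410982376 3 (.leaf 0x9821456730 2 (.leaf 0x5412890376 1 .done))) (.node 0 2 .nil (.node 1 9 (.cons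 0x8327654190 (.cons 0x9102783456 .nil)) (.leaf 0x4567891023 2 (.leaf 0x2389145670 1 .done)) (.node 1 7 (.cons 0x9834567102 .nil) (.node 0 4 (.cons 0x9832045671 .nil) (.node 1 9 (.cons 0x4567198320 .nil) (.leaf 0x5402389176 2 (.leaf 0x4023891765 0 (.leaf 0x7654091238 5 .done))) (.node 0 5 (.cons 0x8905673214 .nil) (.node 0 6 (.cons 0x9871230654 .nil) .done .done) .done)) .done) .done)) .done)) (.node 4 7 (.cons 0x6547890321 .nil) (.node 3 7 .nil (.node 2 8 (.cons 0x3289076541 .nil) (.leaf 0x5410982376 3 (.leaf 0x9821456730 2 (.leaf 0x5412890376 1 .done))) (.node 2 4 (.cons 0x5673890142 .nil) (.node 2 5 (.cons 0x9807652341 .nil) (.node 1 6 (.cons 0x1674523890 .nil) (.leaf 0x3890165247 6 (.leaf 0x2389016745 0 (.leaf 0x8374256109 5 .done))) (.leaf 0x3890142567 3 .done)) .done) .done)) (.node 5 7 .nil (.node 0 6 (.cons 0x2389067541 .nil) (.node 1 7 (.cons 0x5417609832 (.cons 0x9871230654 .nil)) (.leaf 0x6098327145 5 .done) (.leaf 0x7541238906 1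 (.leaf 0x9067541238 2 .done))) (.node 2 5 (.cons 0x9807652341 .nil) (.node 1 9 (.cons 0x3476521980 .nil) (.leaf 0x6708914325 0 (.leaf 0x8912567430 6 (.leaf 0x2567430891 5 .done))) (.node 1 5 (.cons 0x9807651432 .nil) (.node 2 4 (.cons 0x9083241567 .nil) (.node 6 9 (.cons 0x9675142380 .nil) (.leaf 0x896574123 3 (.leaf 0x1034569872 1 (.leaf 0x154238769 0 (.leaf 0x1423809675 3 .done)))) .done) .done) .done)) .done)) .done)) .done)) .done)) (.leaf 0x4109832765 2 (.leaf 0x1098327654 0 (.node 6 9 (.cons 0x7896543012 .nil) (.leaf 0x5430127896 2 (.leaf 0x8721034569 2 (.node 0 8 (.cons 0x7230896541 .nil) (.node 1 7 (.cons 0x8965417230 .nil) (.node 2 8 (.cons 0x4569032871 .nil) (.leaf 0x9654178230 1 (.node 3 5 (.cons 0x1453276980 .nil) (.leaf 0x967145328 4 (.node 4 8 (.cons 0x2354809671 .nil) (.leaf 0x3548096712 3 (.leaf 0x967123548 6 .done)) .done)) .done)) (.node 3 5 (.cons 0x1453276980 .nil) (.node 1 3 (.cons 0x5413276980 .nil) (.node 3 7 (.cons 0x8965410372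 .nil) .done .done) (.node 4 6 (.cons 0x8964530172 .nil) (.node 2 8 (.cons 0x5469032871 .nil) (.leaf 0x5301728964 2 (.node 2 9 (.cons 0x3456789210 .nil) (.leaf 0x1034567892 2 (.leaf 0x6710928354 0 (.leaf 0x6453829017 6 .done))) .done)) (.node 3 9 (.cons 0x1276453980 .nil) (.leaf 0x5467210893 2 (.leaf 0x8012764539 2 .done)) .done)) .done)) (.leaf 0x2308965417 5 .done))) (.node 1 7 (.cons 0x8965417230 .nil) (.node 2 8 (.cons 0x4569032871 .nil) (.leaf 0x9654178230 1 (.node 5 8 (.cons 0x3285417690 .nil) (.node 4 9 (.cons 0x3271496580 .nil) (.node 2 5 (.cons 0x9083256714 .nil) (.leaf 0x3809417652 4 (.node 3 5 (.cons 0x8235417690 .nil) (.leaf 0x6908235417 3 .done) .done)) (.leaf 0x2714965803 1 (.leaf 0x6941723085 2 .done))) (.leaf 0x1458230967 3 (.leaf 0x4176903285 5 .done))) .done)) (.leaf 0x2308965417 3 (.node 7 9 (.cons 0x6541038972 .nil) (.node 3 7 (.cons 0x8965410372 .nil) (.node 2 8 (.cons 0x9014567382 .nil) (.node 2 9 (.cons 0x3456789210 .nil)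 (.leaf 0x1034567892 2 (.leaf 0x5410928376 0 .done)) (.leaf 0x4103728965 4 .done)) .done) (.node 0 6 (.cons 0x2798306541 .nil) (.leaf 0x5412798306 3 (.leaf 0x3897214560 0 .done)) .done)) .done))) .done)) (.node 0 8 (.cons 0x7214569803 .nil) (.node 3 5 (.cons 0x3541276980 .nil) (.node 3 7 (.cons 0x8965412730 .nil) (.node 1 3 (.cons 0x4569872130 .nil) (.node 0 4 (.cons 0x3045698721 .nil) (.leaf 0x2789654031 3 (.node 0 5 (.cons 0x8905412376 .nil) (.node 2 5 (.cons 0x4098765231 .nil) (.leaf 0x3140987652 2 .done) .done) .done)) .done) (.leaf 0x3721456980 0 .done)) (.leaf 0x2769803541 2 .done)) (.node 5 7 (.cons 0x7569803412 .nil) (.leaf 0x896572143 6 (.node 0 7 (.cons 0x2389076541 .nil) (.leaf 0x6541238907 1 (.node 3 7 (.cons 0x8965412730 .nil) (.leaf 0x2145698037 3 (.node 7 9 (.cons 0x6541038972 .nil) .done .done)) .done)) (.leaf 0x8034127569 5 .done))) .done)) .done)))) .done)))) .done)))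
noncomputable def uc9_7_9 : T := tc9_7_19
theorem sub_c9_7_9 : root 9 refs9_7 [] 0x800000003807000000007060000000060500000000504000000004030700000030106000000102000000702013000006010 0xfef7fe7fff3fff9fffcfff67ffb5fff9ff79ffb5 9 3 8 (.cons 0x7654123890 .nil) uc9_7_9 = true := by decide +kernel
noncomputable def tc9_7_20 : T := (.node 5 9 (.cons 0x4590678321 .nil) (.node 1 6 .nil (.node 4 7 (.cons 0x8321674590 (.cons 0x8903216745 .nil)) (.leaf 0x2165478903 6 (.leaf 0x2165478903 0 (.leaf 0x1609547832 4 .done))) (.node 3 6 .nil (.node 0 7 (.cons 0x8907654123 (.cons 0x8954367012 .nil)) (.node 2 4 (.cons 0x8956701243 (.cons 0x7890124563 (.cons 0x5421098763 .nil))) (.leaf 0x1076598342 4 .done) (.node 2 8 (.cons 0x3289076541 (.cons 0x7098236541 .nil)) (.leaf 0x6345982107 5 (.leaf 0x6345982107 2 .done)) .done)) (.node 6 9 .nil (.node 2 5 (.cons 0x7638901452 (.cons 0x9678345210 (.cons 0x9601254387 (.cons 0x7698301254 .nil)))) .done (.node 4 6 .nil (.node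 1 5 (.cons 0x9067832154 (.cons 0x9064512387 .nil)) (.node 2 7 (.cons 0x5410983672 (.cons 0x5983467210 (.cons 0x3895467210 .nil))) (.leaf 0x9645127830 1 (.leaf 0x4672103895 3 .done)) (.leaf 0x6451230987 3 .done)) .done) .done)) .done)) (.node 1 5 (.cons 0x9067832154 .nil) (.node 1 7 (.cons 0x8903217654 .nil) (.node 0 7 (.cons 0x4598321670 .nil) (.node 2 4 (.cons 0x8956701243 .nil) (.leaf 0x1076598342 4 (.leaf 0x4210765983 0 (.node 3 5 (.cons 0x6789012453 .nil) (.node 4 6 (.cons 0x6453217890 .nil) (.leaf 0x7123546098 2 (.leaf 0x7123546098 5 .done)) (.node 0 2 (.cons 0x9876102453 .nil) (.node 0 8 (.cons 0x6712345980 .nil) (.leaf 0x7614235980 3 .done) .done) .done)) .done))) (.node 0 4 (.cons 0x7612389540 .nil) (.node 0 5 .nil (.node 2 6 (.cons 0x7045983261 (.cons 0x9834501267 (.cons 0x7621059834 .nil))) .done .done) (.leaf 0x3895407612 0 .done)) .done)) (.node 0 7 (.cons 0x4598321670 .nil) (.node 0 8 (.cons 0x4321765980 .nil) (.leaf 0x9543216708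 5 (.leaf 0x7612345980 6 (.leaf 0x5980761234 3 .done))) (.node 0 4 (.cons 0x8956712340 .nil) (.node 0 5 (.cons 0x9871234056 .nil) .done (.leaf 0x3895407612 0 .done)) .done)) .done)) (.node 1 8 .nil (.node 2 7 (.cons 0x3276541890 .nil) (.leaf 0x672381459 5 (.leaf 0x5672189034 5 (.leaf 0x6721834590 6 (.leaf 0x3098145672 0 (.leaf 0x6541890327 3 .done))))) (.node 0 5 .nil (.node 4 9 (.cons 0x5490678321 (.cons 0x9450612387 (.cons 0x3216789450 (.cons 0x7605943812 .nil)))) (.leaf 0x8760594321 0 .done) (.node 0 7 (.cons 0x4598321670 .nil) (.node 0 8 (.cons 0x6708954321 .nil) (.leaf 0x9543216708 5 .done) (.node 2 4 (.cons 0x4238950761 .nil) (.leaf 0x1076598342 4 (.leaf 0x4210765983 0 (.node 4 9 (.cons 0x6512349870 .nil) (.leaf 0x5123498706 0 (.leaf 0x5123498706 6 (.leaf 0x1560789432 5 .done))) .done))) .done)) .done)) .done)) .done)) .done))) (.leaf 0x4123876095 0 (.leaf 0x678321459 3 (.node 2 9 (.cons 0x3456789210 .nil) (.node 0 7 (.cons 0x8907654123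 .nil) (.node 3 6 (.cons 0x8907632145 .nil) (.node 1 6 (.cons 0x8954307612 .nil) (.node 2 6 (.cons 0x8954307621 .nil) .done .done) (.node 5 8 (.cons 0x2985436701 .nil) (.leaf 0x4589076321 2 (.leaf 0x9210763458 2 (.node 6 9 .nil (.node 0 2 (.cons 0x9543876021 (.cons 0x7834596021 (.cons 0x5896702341 .nil))) .done (.node 1 6 (.cons 0x8954307612 .nil) (.node 2 6 (.cons 0x3458926701 .nil) .done .done) .done)) .done))) .done)) (.leaf 0x1298345670 4 (.node 0 5 .nil (.node 2 6 (.cons 0x5438926701 (.cons 0x7621438950 (.cons 0x9832670541 .nil))) .done (.node 0 8 (.cons 0x7608345921 .nil) (.node 1 8 (.cons 0x1892345670 .nil) (.leaf 0x5432981076 3 (.node 0 2 (.cons 0x9543876021 .nil) (.node 0 4 (.cons 0x7604592183 .nil) .done .done) .done)) .done) .done)) .done))) (.node 2 4 (.cons 0x3876095421 .nil) (.node 3 9 (.cons 0x8765421093 .nil) (.node 0 5 (.cons 0x4398765012 .nil) (.node 1 3 (.cons 0x6783124590 .nil) (.node 3 5 (.cons 0x8765390124 .nil) (.node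 3 7 (.cons 0x6543789210 .nil) .done .done) (.leaf 0x2459067831 0 .done)) (.leaf 0x6789342105 5 .done)) (.leaf 0x4567839012 6 .done)) (.node 1 3 (.cons 0x4590678312 .nil) (.leaf 0x5906783124 3 (.leaf 0x954213876 4 (.node 4 9 (.cons 0x5490678321 .nil) (.node 3 9 .nil (.node 0 2 (.cons 0x9543876021 .nil) (.node 1 8 (.cons 0x7659812034 (.cons 0x7812065934 (.cons 0x3954218760 .nil))) .done .done) .done) .done) .done))) .done)) (.leaf 0x6783459210 3 (.node 0 5 (.cons 0x4387605921 .nil) (.leaf 0x9214387605 5 (.leaf 0x6783412950 6 .done)) .done)))) .done)))) (.node 5 7 (.cons 0x6754123890 .nil) (.node 0 8 (.cons 0x9083214576 .nil) (.node 0 5 .nil (.node 1 9 (.cons 0x6789123450 (.cons 0x4321987650 .nil)) (.node 4 8 (.cons 0x7654890321 (.cons 0x5760914832 (.cons 0x6754830912 .nil))) .done (.leaf 0x3219876054 5 .done)) (.node 0 7 (.cons 0x8907654123 .nil) (.node 3 5 .nil (.node 2 6 (.cons 0x7623890541 (.cons 0x9012678354 (.cons 0x7621098354 .nil))) (.leaf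 0x1453890762 4 .done) (.node 0 4 .nil (.node 1 6 (.cons 0x7614509832 (.cons 0x9870453216 .nil)) (.leaf 0x453216789 3 .done) (.node 0 2 .nil (.node 1 9 (.cons 0x8765409123 (.cons 0x4320567891 .nil)) (.leaf 0x4567891023 5 (.leaf 0x4567891023 2 .done)) .done) .done)) .done)) .done) .done)) (.node 0 7 (.cons 0x8907654123 .nil) (.node 0 5 .nil (.node 1 9 (.cons 0x6754190832 (.cons 0x6789123450 (.cons 0x4321987650 .nil))) (.leaf 0x3219876054 5 .done) (.node 1 5 .nil (.node 4 9 (.cons 0x8321490675 (.cons 0x7894321560 (.cons 0x5123498760 .nil))) (.leaf 0x7832154906 4 (.leaf 0x7832154906 3 .done)) (.node 1 7 (.cons 0x8903217654 .nil) (.node 0 2 (.cons 0x9802341765 .nil) (.node 0 4 (.cons 0x9871234056 .nil) .done .done) .done) .done)) .done)) .done) .done)) (.node 1 5 .nil (.node 4 9 (.cons 0x6754983012 (.cons 0x7894321560 (.cons 0x5123498760 (.cons 0x2389415760 (.cons 0x4983067512 .nil))))) .done (.node 4 9 (.cons 0x6783215490 .nil) (.node 1 6 .nil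 (.node 0 4 (.cons 0x9832140675 (.cons 0x9406123875 (.cons 0x5789406123 (.cons 0x9406157832 .nil)))) .done (.node 2 6 (.cons 0x9830126754 .nil) (.node 3 6 (.cons 0x9457836210 .nil) (.node 2 4 (.cons 0x9830124576 .nil) (.node 3 5 (.cons 0x2498753601 .nil) (.leaf 0x4987536012 0 .done) .done) .done) (.leaf 0x8301267549 6 .done)) .done)) (.node 5 8 (.cons 0x3214985760 .nil) (.node 0 5 (.cons 0x5067894321 .nil) (.node 0 8 (.cons 0x6754980321 .nil) .done .done) (.leaf 0x6758941230 3 (.leaf 0x6785123490 5 .done))) (.leaf 0x7832154906 4 (.leaf 0x7832154906 3 .done)))) (.node 1 9 .nil (.node 0 4 (.cons 0x9832140675 (.cons 0x8765409123 (.cons 0x4065789123 (.cons 0x8912304576 (.cons 0x7891560432 .nil))))) .done (.node 4 8 (.cons 0x6754891230 .nil) (.node 7 9 (.cons 0x3214897560 .nil) (.leaf 0x8975603214 6 (.leaf 0x6579841230 3 (.node 4 9 (.cons 0x7894321560 .nil) (.node 5 9 (.cons 0x4123895760 .nil) (.node 6 9 (.cons 0x4576983012 .nil) .done .done) .done)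 .done))) (.leaf 0x3219845760 6 (.leaf 0x3219845760 0 .done))) (.node 1 8 .nil (.node 4 9 (.cons 0x7894321560 (.cons 0x7560321894 (.cons 0x6754981230 .nil))) (.leaf 0x3218945760 6 (.leaf 0x5678123094 3 .done)) (.node 0 5 (.cons 0x4321987650 .nil) (.node 1 6 .nil (.node 0 4 (.cons 0x5678912340 (.cons 0x7890456123 (.cons 0x5409876123 .nil))) (.leaf 0x9876504321 0 .done) (.node 1 3 .nil (.node 4 8 (.cons 0x9123487650 (.cons 0x4876509132 (.cons 0x7654890312 .nil))) (.leaf 0x5091234876 2 .done) .done) .done)) (.node 1 6 (.cons 0x7614509832 .nil) (.node 1 3 .nil (.node 2 4 (.cons 0x9054238761 (.cons 0x8765091324 (.cons 0x6789054231 .nil))) (.leaf 0x9876542310 5 .done) .done) .done) .done)) .done)) .done))) .done))) (.leaf 0x9832145760 4 (.leaf 0x9832145760 3 .done)))) (.node 0 5 .nil (.node 6 9 (.cons 0x7698345012 .nil) (.node 0 7 (.cons 0x8907654123 .nil) (.leaf 0x4569870123 1 (.leaf 0x4569870123 2 (.node 1 9 (.cons 0x6507891234 (.cons 0x6789123450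 (.cons 0x4321987650 .nil))) .done .done))) (.leaf 0x7832145096 0 (.node 4 6 (.cons 0x9054678321 .nil) (.node 0 7 (.cons 0x5076983412 .nil) (.leaf 0x5412389670 4 (.node 1 5 (.cons 0x8967034512 .nil) (.leaf 0x6451238907 3 (.leaf 0x2154678903 6 (.leaf 0x6451230987 3 .done))) .done)) .done) .done))) (.node 4 6 (.cons 0x9054678321 .nil) (.node 3 6 .nil (.node 0 4 (.cons 0x7890456321 (.cons 0x5409876321 .nil)) (.node 2 4 (.cons 0x7890124563 (.cons 0x5421098763 .nil)) .done .done) (.node 1 6 .nil (.node 2 9 (.cons 0x3456789210 .nil) (.leaf 0x8761290543 0 (.leaf 0x5092387614 3 (.leaf 0x541678329 5 (.leaf 0x3290541678 6 .done)))) (.node 6 8 (.cons 0x9054123867 .nil) (.node 6 9 (.cons 0x4509678321 .nil) (.node 2 6 .nil (.node 5 7 (.cons 0x6754123890 (.cons 0x9830126754 (.cons 0x1457623890 .nil))) (.leaf 0x5762109834 0 .done) .done) .done) .done) .done)) .done)) (.node 1 9 (.cons 0x3876450912 .nil) (.node 6 9 (.cons 0x4509678321 .nil) (.node 2 9 (.cons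 0x3456789210 .nil) (.node 1 8 (.cons 0x9234506781 .nil) (.node 1 3 (.cons 0x9054678312 .nil) (.node 3 6 (.cons 0x5436789210 .nil) (.leaf 0x7892105436 2 .done) .done) (.leaf 0x543291876 3 .done)) (.leaf 0x3450129678 2 .done)) (.leaf 0x7832145096 0 .done)) (.leaf 0x546783219 3 (.leaf 0x2387645091 0 .done))) .done)) (.node 0 8 .nil (.node 3 9 (.cons 0x4567809321 .nil) (.leaf 0x2145678093 2 (.node 2 7 (.cons 0x6543987210 (.cons 0x7239806541 .nil)) (.leaf 0x3456012789 1 (.node 1 6 (.cons 0x9872345061 (.cons 0x7809321654 (.cons 0x7239806145 .nil))) (.node 1 9 (.cons 0x6054327891 .nil) (.leaf 0x3278916054 6 .done) .done) (.node 5 9 (.cons 0x5983410672 (.cons 0x1432765980 (.cons 0x3412765980 .nil))) (.leaf 0x7659801432 3 .done) .done))) (.node 2 7 (.cons 0x6501278934 .nil) (.leaf 0x6721089345 2 (.leaf 0x1089345672 1 (.leaf 0x8934127650 2 (.leaf 0x8934127650 5 .done)))) (.leaf 0x876541239 2 .done)))) (.node 0 7 (.cons 0x8907654123 .nil) (.node 6 8 (.cons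 0x9076832145 .nil) (.node 5 9 (.cons 0x9541238670 .nil) (.leaf 0x2386709541 5 (.leaf 0x3214590768 6 (.leaf 0x3214590768 0 .done))) (.node 0 2 .nil (.node 3 7 (.cons 0x9865021437 (.cons 0x8902376541 .nil)) (.leaf 0x4120983765 3 .done) (.node 0 4 .nil (.node 1 5 (.cons 0x9876023451 (.cons 0x9045123876 .nil)) (.node 3 7 (.cons 0x5412098673 (.cons 0x8904123765 (.cons 0x9804156732 .nil))) .done .done) .done) .done)) .done)) (.node 0 4 .nil (.node 1 5 (.cons 0x9045123876 .nil) (.node 1 9 (.cons 0x6078915432 (.cons 0x2345198760 (.cons 0x5678912340 .nil))) .done (.node 3 6 (.cons 0x8907632145 .nil) (.leaf 0x2367890451 6 (.leaf 0x8763215409 3 .done)) .done)) (.node 0 2 .nil (.node 1 9 (.cons 0x8765409123 (.cons 0x5432067891 .nil)) (.leaf 0x4567891023 5 (.leaf 0x2190456783 6 .done)) .done) .done)) .done)) .done)) .done))) .done)))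
noncomputable def tc9_7_21 : T := (.node 2 8 (.cons 0x9821034567 .nil) (.node 4 8 (.cons 0x7654890321 .nil) (.node 0 8 .nil (.node 3 9 (.cons 0x4567809321 .nil) (.leaf 0x2145678093 2 (.node 7 9 (.cons 0x8976543012 .nil) (.leaf 0x8976541230 6 (.node 2 6 (.cons 0x5439876210 (.cons 0x7908326541 (.cons 0x7621089345 (.cons 0x9708326541 .nil)))) (.node 1 9 (.cons 0x7091483265 (.cons 0x8079143265 .nil)) (.leaf 0x6543219807 2 .done) .done) (.leaf 0x5679803214 3 .done))) (.leaf 0x6541239807 2 (.leaf 0x6541239807 1 .done)))) (.node 1 8 .nil (.node 2 7 (.cons 0x9032765481 .nil) (.node 6 9 (.cons 0x4569078321 (.cons 0x5690723841 (.cons 0x8327096541 .nil))) (.leaf 0x965418327 6 (.leaf 0x4569072381 3 .done)) (.leaf 0x3098145672 0 (.leaf 0x6541890327 3 .done))) (.node 0 6 .nil (.node 1 9 (.cons 0x9184567032 (.cons 0x7891234560 (.cons 0x5432198760 .nil))) (.leaf 0x6543219870 2 .done) (.node 1 7 (.cons 0x2309845671 .nil) (.node 2 7 (.cons 0x7238906541 .nil)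 (.node 1 5 (.cons 0x3276514890 .nil) (.node 0 5 (.cons 0x3276509841 .nil) (.node 1 3 (.cons 0x5672314890 .nil) (.leaf 0x9841327650 1 .done) .done) (.leaf 0x2309841567 2 .done)) (.leaf 0x983271456 0 .done)) (.node 2 7 (.cons 0x7238906541 .nil) (.leaf 0x6098327145 2 .done) .done)) .done)) .done)) .done)) (.node 2 7 (.cons 0x3098456721 .nil) (.node 0 5 (.cons 0x9843056721 .nil) (.node 0 2 .nil (.node 1 9 (.cons 0x5672198430 .nil) (.leaf 0x4567891023 5 (.leaf 0x4567891023 2 (.leaf 0x3489127650 1 .done))) .done) (.node 3 9 (.cons 0x8934105672 .nil) (.node 0 6 (.cons 0x5439876012 .nil) (.node 0 8 (.cons 0x9805672341 .nil) .done .done) (.leaf 0x4105672893 4 (.leaf 0x9341056728 0 .done))) .done)) (.node 1 7 (.cons 0x3098456712 .nil) (.node 4 7 (.cons 0x9830127456 .nil) (.node 5 7 (.cons 0x9821034576 .nil) (.node 6 9 (.cons 0x1289675430 .nil) (.node 7 9 (.cons 0x8976543012 .nil) (.leaf 0x128345697 3 .done) (.leaf 0x389654721 1 (.leaf 0x7543012896 0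 (.leaf 0x5698301274 2 .done)))) .done) .done) (.leaf 0x2309845671 0 .done)) .done)) .done)) (.node 4 7 (.cons 0x9821034765 .nil) (.node 2 7 .nil (.node 6 9 (.cons 0x4569078321 (.cons 0x8327096541 .nil)) (.leaf 0x2103896547 5 (.leaf 0x783214569 2 (.leaf 0x2103896547 2 .done))) (.node 6 9 (.cons 0x4569078321 .nil) (.leaf 0x2103896547 5 (.leaf 0x783214569 2 (.node 1 7 (.cons 0x4569830172 .nil) (.node 3 7 (.cons 0x2738965410 .nil) (.node 0 2 (.cons 0x8902376541 .nil) (.leaf 0x1456983720 4 (.leaf 0x2014569837 0 .done)) .done) .done) (.leaf 0x2103896547 2 .done)))) .done)) (.node 3 5 (.cons 0x1476532890 .nil) (.node 2 7 (.cons 0x9014728356 .nil) (.node 6 9 (.cons 0x4569078321 .nil) (.leaf 0x7283569014 0 (.leaf 0x783214569 2 (.node 5 8 (.cons 0x9672853410 .nil) (.node 0 6 (.cons 0x9607238541 .nil) (.node 3 6 (.cons 0x9638541072 .nil) .done .done) (.leaf 0x5827690143 0 (.leaf 0x8543012769 0 .done))) (.leaf 0x4728356901 2 .done)))) (.node 5 7 .nil (.node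 6 9 (.cons 0x9653827410 (.cons 0x9657012834 (.cons 0x9657014382 .nil))) (.leaf 0x389654721 1 (.leaf 0x5698301274 2 .done)) (.node 6 9 (.cons 0x9653827410 .nil) (.node 7 9 (.cons 0x8976543012 .nil) (.leaf 0x128345697 5 (.node 1 7 (.cons 0x4710965382 .nil) (.node 3 7 (.cons 0x4569837210 .nil) .done .done) .done)) (.leaf 0x389654721 1 (.node 2 9 (.cons 0x3456789210 .nil) (.leaf 0x6928341075 2 (.node 4 9 (.cons 0x9435678210 .nil) (.leaf 0x1072835694 2 (.leaf 0x6538270149 2 .done)) (.leaf 0x4382965701 1 .done))) (.leaf 0x5698301274 2 .done)))) .done)) .done)) (.leaf 0x1098235674 0 .done)) (.node 3 5 (.cons 0x3567412890 .nil) (.node 0 6 (.cons 0x9065382147 .nil) (.node 3 6 (.cons 0x9074128365 .nil) (.node 7 9 (.cons 0x6538214790 .nil) (.leaf 0x4128356097 3 (.node 3 7 (.cons 0x5609837412 .nil) (.node 3 9 (.cons 0x8214765390 .nil) .done .done) (.leaf 0x653821479 0 .done))) .done) (.node 3 6 (.cons 0x9074128365 .nil) (.node 0 8 (.cons 0x9082147653 .nil)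 (.node 0 2 (.cons 0x7412098365 .nil) (.node 0 5 (.cons 0x9874365021 .nil) .done .done) .done) .done) .done)) (.node 5 7 .nil (.node 6 9 (.cons 0x4569078321 (.cons 0x9657012834 (.cons 0x9657014382 .nil))) (.leaf 0x783214569 2 (.leaf 0x382147569 0 .done)) (.node 2 7 (.cons 0x9827653410 .nil) (.node 0 2 (.cons 0x9820143567 .nil) (.node 0 5 .nil (.node 1 3 (.cons 0x6547890213 (.cons 0x6741350982 (.cons 0x9874312056 .nil))) (.leaf 0x6509823147 4 .done) .done) .done) .done) .done)) .done)) .done))) (.node 7 9 (.cons 0x8976543012 .nil) (.node 3 7 (.cons 0x9821037654 .nil) (.node 2 7 .nil (.node 3 9 (.cons 0x3982765410 .nil) (.leaf 0x5672893014 5 .done) .done) (.node 2 7 (.cons 0x6541098372 .nil) (.node 2 6 (.cons 0x7389014562 .nil) (.leaf 0x1098372654 3 (.node 2 9 (.cons 0x3456789210 .nil) (.node 0 2 (.cons 0x6543789201 .nil) (.node 1 8 (.cons 0x7345629810 .nil) (.leaf 0x3456298107 3 (.leaf 0x9023765418 2 .done)) .done) .done) .done)) .done) .done))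 (.leaf 0x8210345679 0 (.leaf 0x6543012897 3 (.node 0 6 (.cons 0x9706541283 .nil) (.node 4 7 (.cons 0x7412389065 .nil) (.node 5 7 (.cons 0x2143897560 .nil) (.node 0 4 (.cons 0x3045679821 .nil) (.leaf 0x5604123897 3 (.leaf 0x6579832140 5 .done)) (.node 2 7 (.cons 0x9834106572 .nil) (.node 3 7 (.cons 0x9821037654 .nil) .done .done) .done)) (.node 5 7 (.cons 0x2143897560 .nil) (.leaf 0x3890657412 5 .done) .done)) (.node 6 9 (.cons 0x3821456970 .nil) (.node 0 5 .nil (.node 1 8 (.cons 0x2189765430 (.cons 0x7698123450 (.cons 0x4305679812 .nil))) .done (.node 0 4 (.cons 0x3045679821 .nil) (.node 0 2 (.cons 0x8976543021 .nil) (.node 0 8 (.cons 0x5679802143 .nil) .done .done) .done) .done)) (.leaf 0x7038214569 2 .done)) .done)) .done)))) .done))) (.node 5 8 (.cons 0x6709854123 .nil) (.node 3 6 (.cons 0x9854123670 .nil) (.node 3 5 .nil (.node 2 8 (.cons 0x9821034567 (.cons 0x9012876354 .nil)) (.leaf 0x3670982145 0 .done) (.node 3 7 .nil (.node 0 6 (.cons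 0x4560987321 .nil) (.leaf 0x2145890673 1 (.leaf 0x9873214560 2 (.leaf 0x4123760985 2 .done))) (.node 3 9 .nil (.node 0 4 (.cons 0x9856732140 (.cons 0x8765409321 .nil)) (.leaf 0x9876540123 5 (.leaf 0x3765890412 1 .done)) (.node 1 3 .nil (.node 2 4 (.cons 0x9367854210 (.cons 0x6789013542 .nil)) (.node 2 8 (.cons 0x6782453901 (.cons 0x9013542876 (.cons 0x9013567824 .nil))) .done (.leaf 0x9876542310 5 .done)) .done) .done)) .done)) .done)) (.leaf 0x7632145890 2 (.node 6 9 (.cons 0x3214589670 .nil) (.node 1 8 (.cons 0x5432189670 .nil) (.node 2 5 (.cons 0x7632541890 .nil) (.leaf 0x125438967 3 (.leaf 0x3670981452 5 (.leaf 0x4189076325 6 .done))) (.node 2 8 (.cons 0x9821034567 .nil) (.node 3 5 (.cons 0x7635410982 .nil) (.node 0 5 (.cons 0x8967054321 .nil) (.leaf 0x9812345076 2 (.node 3 7 (.cons 0x5437698210 .nil) (.leaf 0x8967345012 1 .done) .done)) .done) .done) .done)) (.leaf 0x7698541230 6 (.leaf 0x5896703214 3 .done))) .done))) (.node 3 6 (.cons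 0x2367098541 .nil) (.leaf 0x3670985412 0 (.node 1 3 (.cons 0x6709854132 .nil) (.node 2 6 (.cons 0x3267098541 .nil) (.node 3 5 .nil (.node 4 8 (.cons 0x7654890321 (.cons 0x9012678453 (.cons 0x5367098412 .nil))) .done .done) (.leaf 0x7098541326 3 (.leaf 0x3145890762 0 .done))) (.node 3 9 .nil (.node 2 4 (.cons 0x5890763241 (.cons 0x8765421093 .nil)) (.leaf 0x1245678930 6 (.leaf 0x1093876542 1 .done)) (.node 3 7 .nil (.node 2 4 (.cons 0x5890763241 (.cons 0x7365890142 .nil)) (.leaf 0x7890124563 2 (.leaf 0x1098376542 1 .done)) (.node 3 5 .nil (.node 2 4 (.cons 0x5890763241 (.cons 0x7635890142 .nil)) (.leaf 0x7890124536 2 (.node 1 6 (.cons 0x8739016542 (.cons 0x6107893542 .nil)) (.leaf 0x3589076142 3 .done) .done)) .done) .done)) .done)) .done)) (.node 3 5 .nil (.node 4 6 (.cons 0x8907645321 .nil) (.leaf 0x9876453210 1 (.leaf 0x4670985321 0 (.leaf 0x7098532146 4 .done))) (.node 0 5 .nil (.node 2 8 (.cons 0x9821034567 (.cons 0x7632890541 (.cons 0x9823670541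 .nil))) (.node 5 9 (.cons 0x2895076341 .nil) (.leaf 0x7059821436 3 (.leaf 0x8214367059 6 .done)) .done) (.node 1 5 .nil (.node 4 6 (.cons 0x9078321546 .nil) (.leaf 0x2389076451 2 (.leaf 0x6451230987 0 .done)) (.node 2 5 (.cons 0x8907632541 .nil) (.node 1 8 (.cons 0x4523670981 .nil) (.leaf 0x3670981452 5 (.node 0 8 .nil (.node 1 9 (.cons 0x8910763452 (.cons 0x6780912354 .nil)) (.leaf 0x3670891452 2 .done) .done) .done)) .done) .done)) .done)) .done)) .done))) (.node 4 8 (.cons 0x7654890321 .nil) (.node 2 8 (.cons 0x9821034567 .nil) (.node 1 8 .nil (.node 2 7 (.cons 0x3276541890 .nil) (.node 6 9 (.cons 0x5432189670 (.cons 0x5430769812 .nil)) (.leaf 0x5430127896 3 (.leaf 0x7210345896 3 (.leaf 0x8543012769 0 .done))) (.leaf 0x5672189034 5 (.leaf 0x6541890327 3 .done))) (.node 6 8 .nil (.node 5 7 (.cons 0x6754890321 (.cons 0x9075412386 .nil)) (.leaf 0x5768903214 0 (.leaf 0x9867541230 4 .done)) (.node 0 8 .nil (.node 7 9 (.cons 0x4567981230 .nil)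 (.leaf 0x8976541230 6 (.node 0 5 (.cons 0x9765082341 .nil) (.leaf 0x9823410567 5 (.leaf 0x8976501432 6 .done)) (.leaf 0x5679803214 3 .done))) .done) .done)) .done)) (.node 7 9 (.cons 0x8976543012 .nil) (.leaf 0x8210345679 0 (.leaf 0x6543012897 3 (.node 1 8 (.cons 0x2189765430 .nil) (.node 6 8 .nil (.node 5 7 (.cons 0x6754890321 (.cons 0x9075412386 .nil)) (.leaf 0x5768903214 0 (.leaf 0x9867541230 4 .done)) (.node 0 8 .nil (.node 3 9 (.cons 0x3976541280 .nil) (.leaf 0x4123980765 1 (.leaf 0x4128039765 0 (.leaf 0x8932145670 2 (.leaf 0x876541239 2 .done)))) .done) .done)) .done) .done))) .done)) (.node 0 8 .nil (.node 3 9 (.cons 0x4567809321 .nil) (.leaf 0x4123980765 1 (.node 7 9 (.cons 0x8976543012 .nil) (.leaf 0x8976541230 6 (.node 1 7 (.cons 0x2309845671 (.cons 0x6541790832 (.cons 0x9803217654 .nil))) (.node 2 5 (.cons 0x6789345210 (.cons 0x9084176523 (.cons 0x6523417980 .nil))) (.leaf 0x841765239 3 (.leaf 0x6714890325 3 .done)) .done) (.leaf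 0x5679803214 3 .done))) (.leaf 0x8932145670 2 (.leaf 0x876541239 2 .done)))) (.node 6 8 .nil (.node 5 7 (.cons 0x9075412386 .nil) (.node 4 6 (.cons 0x9083214657 .nil) (.leaf 0x9832146570 5 .done) (.leaf 0x5768903214 0 (.leaf 0x9867541230 4 .done))) (.node 2 8 (.cons 0x9821034567 .nil) (.node 1 8 .nil (.node 2 7 (.cons 0x9032765481 .nil) (.node 1 3 (.cons 0x9084132765 (.cons 0x6721309854 (.cons 0x5672314890 .nil))) .done (.leaf 0x3098145672 0 (.leaf 0x6541890327 3 .done))) .done) .done) .done)) .done)) .done)) .done))) (.leaf 0x1238907654 3 (.node 2 8 (.cons 0x3289076541 .nil) (.node 3 5 (.cons 0x6709823541 .nil) (.node 1 6 (.cons 0x5416709823 .nil) (.node 0 6 .nil (.node 3 9 (.cons 0x6782109354 (.cons 0x5439876012 .nil)) (.leaf 0x678214539 5 (.leaf 0x6093541287 3 .done)) (.node 0 8 .nil (.node 1 9 (.cons 0x4561907832 (.cons 0x6780912354 (.cons 0x5670891432 .nil))) (.node 2 5 (.cons 0x4325607891 .nil) (.leaf 0x6708914325 0 (.leaf 0x652341987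 3 (.leaf 0x6078914325 5 .done))) .done) .done) .done)) (.leaf 0x7098235416 5 (.leaf 0x4532890761 6 .done))) (.node 3 6 (.cons 0x7635410982 .nil) (.node 0 6 (.cons 0x7609823541 .nil) (.node 0 8 .nil (.node 7 9 (.cons 0x8976543012 (.cons 0x8097632145 (.cons 0x2809763541 .nil))) (.leaf 0x8976541230 6 .done) .done) .done) (.node 0 6 (.cons 0x7609823541 .nil) (.node 1 6 (.cons 0x7614532890 .nil) (.node 2 6 (.cons 0x7098326541 .nil) (.node 7 9 (.cons 0x7983456210 .nil) (.leaf 0x4123879065 0 (.leaf 0x6543897012 2 (.node 2 4 (.cons 0x1679824530 .nil) (.leaf 0x5301679824 5 (.leaf 0x3542897610 3 .done)) .done))) .done) .done) .done) .done)) .done)) (.node 0 8 .nil (.node 7 9 (.cons 0x8976543012 .nil) (.node 3 9 (.cons 0x5670143982 .nil) (.node 2 5 (.cons 0x4398765210 (.cons 0x6798012543 .nil)) (.node 2 9 (.cons 0x3456789210 .nil) (.leaf 0x6780129345 2 (.leaf 0x3925678014 6 .done)) (.leaf 0x4107652893 1 (.leaf 0x9807652143 3 .done))) (.leaf 0x876541239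 2 .done)) (.leaf 0x8976541230 6 (.leaf 0x5679803214 3 .done))) (.node 1 8 .nil (.node 2 9 (.cons 0x3456789210 (.cons 0x1892345670 .nil)) (.node 1 6 (.cons 0x9234561870 (.cons 0x7032981654 .nil)) (.leaf 0x8709234561 5 .done) (.node 2 7 (.cons 0x9072381456 .nil) (.leaf 0x345672981 4 (.leaf 0x6541890327 3 .done)) .done)) (.node 0 4 (.cons 0x9812304567 .nil) (.node 0 2 (.cons 0x9814567023 .nil) (.node 0 5 .nil (.node 1 6 (.cons 0x9870234561 .nil) (.leaf 0x2167890543 6 (.leaf 0x8761234509 3 .done)) .done) .done) (.node 0 2 (.cons 0x9814567023 .nil) (.node 0 5 .nil (.node 1 6 (.cons 0x7890456123 .nil) (.leaf 0x2167890543 6 (.leaf 0x8761234509 3 .done)) .done) .done) .done)) .done)) .done)) (.node 7 9 (.cons 0x8976543012 .nil) (.node 1 9 (.cons 0x3289145670 .nil) (.node 0 6 (.cons 0x7891234560 .nil) (.node 4 7 (.cons 0x9065478321 .nil) (.node 3 7 (.cons 0x6541982370 .nil) (.node 4 9 (.cons 0x3287065491 .nil) (.leaf 0x376549821 6 (.leaf 0x128945673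 0 .done)) .done) (.leaf 0x5609123874 4 .done)) (.leaf 0x3219870654 2 .done)) (.node 3 9 .nil (.node 0 4 (.cons 0x5678912340 (.cons 0x8765409321 .nil)) (.leaf 0x9876540123 5 (.leaf 0x9876540123 1 .done)) (.node 2 7 (.cons 0x3982765410 .nil) (.node 1 8 (.cons 0x8145672390 .nil) (.node 4 9 (.cons 0x8276549301 .nil) (.leaf 0x3018276549 3 (.leaf 0x5672810394 0 .done)) .done) (.leaf 0x9827654103 5 .done)) .done)) .done)) (.leaf 0x8210345679 0 (.node 1 8 (.cons 0x2189765430 .nil) (.node 0 6 (.cons 0x5430679812 .nil) (.node 5 9 (.cons 0x9543218760 .nil) (.leaf 0x2187609543 3 (.leaf 0x8123459067 4 (.node 3 5 (.cons 0x6709814532 .nil) (.node 1 3 (.cons 0x4567982130 .nil) (.node 1 9 (.cons 0x2197834560 .nil) (.node 2 6 (.cons 0x7819543260 .nil) (.leaf 0x3459187062 3 (.leaf 0x781954326 0 .done)) .done) .done) .done) .done))) (.node 0 8 .nil (.node 1 9 (.cons 0x3289145670 (.cons 0x5670891432 .nil)) (.node 2 5 (.cons 0x6798125430 (.cons 0x7980652143 .nil))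 (.leaf 0x7603452189 6 (.leaf 0x6708914325 0 .done)) .done) .done) .done)) (.node 2 5 (.cons 0x9814325670 .nil) (.node 0 8 (.cons 0x9765218034 .nil) (.node 4 9 (.cons 0x8125679430 .nil) (.leaf 0x3081256794 2 (.node 4 7 (.cons 0x6521830974 .nil) (.node 5 8 (.cons 0x6709418523 .nil) (.leaf 0x3094765812 5 (.leaf 0x947658123 6 .done)) .done) (.leaf 0x1832567094 2 .done))) .done) (.leaf 0x6709814325 3 (.node 0 5 (.cons 0x4305679812 .nil) (.node 0 6 (.cons 0x3418970652 .nil) (.node 0 2 (.cons 0x8976543021 .nil) (.node 0 8 (.cons 0x7980652143 .nil) .done .done) .done) .done) .done))) .done)) .done))) .done))) .done))))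
noncomputable def tc9_7_22 : T := (.node 0 7 (.cons 0x8907654123 .nil) tc9_7_21 (.node 0 6 (.cons 0x7609832145 .nil) tc9_7_20 (.node 0 7 (.cons 0x8907654123 .nil) (.leaf 0x6541238907 2 (.leaf 0x9832145670 2 (.node 0 5 (.cons 0x7650983214 .nil) (.node 0 6 .nil (.node 1 9 (.cons 0x7891234560 (.cons 0x5432198760 .nil)) (.leaf 0x3219870654 3 (.node 0 4 (.cons 0x7891234065 .nil) (.node 1 5 (.cons 0x6789045123 (.cons 0x9870651234 (.cons 0x9876045123 .nil))) .done (.leaf 0x9876504321 0 .done)) .done)) (.node 3 6 .nil (.node 0 4 (.cons 0x7890456321 (.cons 0x5409876321 .nil)) (.node 3 5 (.cons 0x8907653214 .nil) (.leaf 0x2140987653 2 (.leaf 0x6789041235 2 .done)) .done) (.node 4 6 .nil (.node 1 5 (.cons 0x3215467890 .nil) (.node 0 4 (.cons 0x9870432156 (.cons 0x6789045123 .nil)) .done (.leaf 0x2154678903 6 (.leaf 0x6451230987 3 .done))) (.node 4 9 (.cons 0x4905678321 .nil) (.node 1 5 (.cons 0x6512349870 .nil) (.leaf 0x7894321560 3 (.leaf 0x7894321560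 4 .done)) (.leaf 0x7832149056 0 (.node 4 7 (.cons 0x5674123890 .nil) (.node 6 8 .nil (.node 7 9 (.cons 0x8976543012 (.cons 0x8679054123 .nil)) (.leaf 0x6832147905 3 .done) (.node 1 8 (.cons 0x7650941832 .nil) (.node 6 9 (.cons 0x3218745690 .nil) (.leaf 0x8705694321 0 (.leaf 0x8705694321 6 .done)) (.node 0 8 (.cons 0x9083214765 .nil) (.node 2 8 (.cons 0x9821034567 .nil) .done .done) .done)) .done)) (.leaf 0x1238905674 1 .done)) .done))) .done)) .done)) .done)) (.node 4 7 (.cons 0x5674123890 .nil) (.node 4 6 (.cons 0x9870564321 .nil) (.node 1 9 (.cons 0x2387465091 .nil) (.leaf 0x5078912346 0 (.node 0 6 (.cons 0x5432198760 .nil) (.node 3 6 (.cons 0x8745091236 .nil) .done .done) (.leaf 0x5643219870 6 .done))) (.node 1 9 (.cons 0x3874650912 .nil) (.node 0 6 (.cons 0x7891234560 .nil) (.leaf 0x3219870654 4 (.node 6 8 (.cons 0x9056832147 .nil) (.node 7 9 (.cons 0x8654791230 .nil) (.node 1 7 (.cons 0x3054689712 .nil) (.leaf 0x2305468971 0 .done) (.leaf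 0x3214790568 6 (.leaf 0x3214790568 0 .done))) .done) .done)) (.leaf 0x2387465091 0 (.leaf 0x564783219 3 .done))) .done)) (.node 7 9 (.cons 0x8976543012 .nil) (.node 3 7 .nil (.node 0 2 (.cons 0x5679834102 .nil) (.leaf 0x1456738902 2 (.node 2 8 (.cons 0x2897654301 (.cons 0x9821037654 .nil)) (.leaf 0x5410982376 3 .done) .done)) (.node 1 7 (.cons 0x8903217654 .nil) (.node 2 7 (.cons 0x6501438972 .nil) .done .done) .done)) (.node 1 5 (.cons 0x8903215476 .nil) (.node 3 5 (.cons 0x8907653214 .nil) (.node 1 7 (.cons 0x8903217654 .nil) (.node 1 6 (.cons 0x9870561234 .nil) (.node 4 9 (.cons 0x8945671230 .nil) (.leaf 0x2349870561 3 (.leaf 0x8705612349 6 .done)) .done) .done) .done) (.node 1 7 (.cons 0x8903217654 .nil) (.node 1 6 (.cons 0x9870561234 .nil) (.node 4 9 (.cons 0x7894321650 .nil) (.leaf 0x2349870561 3 (.leaf 0x8705612349 6 .done)) .done) .done) .done)) .done)) (.leaf 0x9832147650 1 (.leaf 0x9832147650 5 .done)))) (.node 0 6 .nil (.node 1 9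 (.cons 0x7891234560 (.cons 0x5432198760 .nil)) (.leaf 0x3219870654 3 (.node 1 7 (.cons 0x4176509832 .nil) (.leaf 0x2345609871 2 (.node 2 9 (.cons 0x3456789210 (.cons 0x8923450671 (.cons 0x6054329871 .nil))) (.node 1 5 (.cons 0x8923415076 (.cons 0x8760519234 (.cons 0x9870651234 .nil))) (.leaf 0x2987603451 5 .done) .done) (.node 2 4 (.cons 0x9832417650 (.cons 0x9832417605 .nil)) (.leaf 0x1765098324 0 (.leaf 0x3890567142 3 .done)) .done))) .done)) (.node 3 6 .nil (.node 0 4 (.cons 0x7890456321 (.cons 0x5409876321 .nil)) (.node 2 9 (.cons 0x3456789210 (.cons 0x5436789210 (.cons 0x5678921043 .nil))) (.leaf 0x6345012987 1 (.leaf 0x4367892105 5 .done)) .done) (.node 3 5 (.cons 0x8907653214 .nil) (.node 3 7 .nil (.node 2 8 (.cons 0x9821034567 (.cons 0x7365410982 (.cons 0x6732890541 (.cons 0x9821037654 .nil)))) .done (.node 6 8 (.cons 0x5412376890 .nil) (.leaf 0x7321450986 5 (.leaf 0x9867321450 6 .done)) .done)) (.node 3 9 .nil (.node 0 4 (.cons 0x8765409321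 .nil) (.node 1 5 (.cons 0x7651238904 .nil) (.leaf 0x9876321540 1 (.leaf 0x2156789043 2 (.leaf 0x7890451236 5 .done))) (.leaf 0x9876540123 5 (.leaf 0x9876540123 1 .done))) (.node 5 8 (.cons 0x4587609321 .nil) (.leaf 0x2390678541 3 (.node 0 2 (.cons 0x9345876021 .nil) (.leaf 0x1439856702 5 (.node 1 9 (.cons 0x2193458760 .nil) (.node 2 6 (.cons 0x5439876210 .nil) (.leaf 0x9345012678 1 (.leaf 0x3419870562 6 (.leaf 0x5078914326 5 .done))) (.leaf 0x6785439120 4 .done)) .done)) .done)) .done)) .done)) .done)) .done)) .done))) (.node 0 5 (.cons 0x7650983214 .nil) (.node 1 5 (.cons 0x4156709832 .nil) (.node 4 7 (.cons 0x5674123890 .nil) (.node 0 6 (.cons 0x9065123874 .nil) (.node 2 6 (.cons 0x7098326514 .nil) (.node 3 7 .nil (.node 2 4 (.cons 0x5670983241 (.cons 0x6542109873 .nil)) (.leaf 0x987342156 0 .done) (.node 6 8 (.cons 0x5412376890 .nil) (.node 1 6 .nil (.node 0 4 (.cons 0x9047832156 (.cons 0x7890456123 (.cons 0x5409876123 .nil))) .done .done)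 (.leaf 0x4123768905 2 (.leaf 0x4123768905 5 .done))) .done)) (.leaf 0x3890741562 6 (.leaf 0x1562389074 3 .done))) .done) (.leaf 0x1238905674 1 (.node 3 5 (.cons 0x2147653890 .nil) (.node 3 6 .nil (.node 0 2 (.cons 0x2098356741 (.cons 0x3654789021 (.cons 0x9874365120 .nil))) (.leaf 0x3478902156 0 .done) (.node 1 3 (.cons 0x8907654132 .nil) (.node 3 7 .nil (.node 2 8 (.cons 0x3289076541 (.cons 0x6547309821 (.cons 0x6735410982 (.cons 0x9821037654 .nil)))) .done .done) .done) .done)) .done) .done))) (.node 2 4 (.cons 0x9832415670 .nil) (.leaf 0x1567098324 0 (.node 0 6 (.cons 0x9832415607 .nil) (.node 1 6 (.cons 0x7098324165 .nil) (.node 1 9 (.cons 0x8709165423 .nil) (.leaf 0x7091654238 3 (.leaf 0x783245619 5 (.node 0 2 (.cons 0x9832076514 .nil) (.node 0 4 (.cons 0x5678912340 .nil) .done .done) .done))) .done) .done) (.leaf 0x3890765142 3 .done))) .done)) (.node 0 8 .nil (.node 7 9 (.cons 0x8976543012 .nil) (.leaf 0x832145679 2 (.leaf 0x8976541230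 6 (.leaf 0x5679803214 3 .done))) (.node 0 4 .nil (.node 2 5 (.cons 0x9834107652 (.cons 0x9834012567 (.cons 0x9832567041 .nil))) (.node 1 9 (.cons 0x8325670914 (.cons 0x5678912340 .nil)) (.leaf 0x6704198325 0 (.leaf 0x8765219043 5 .done)) .done) (.node 4 7 (.cons 0x5674123890 .nil) (.node 2 4 (.cons 0x5670983241 .nil) (.node 3 7 (.cons 0x6542109873 .nil) (.node 3 6 (.cons 0x7890124563 .nil) (.leaf 0x124563789 2 .done) .done) .done) (.leaf 0x9832147650 5 .done)) .done)) .done)) .done)) .done)))) (.node 2 7 (.cons 0x1456723890 .nil) (.node 2 4 .nil (.node 1 3 (.cons 0x9013876542 (.cons 0x9013872456 .nil)) (.leaf 0x5678903124 5 (.leaf 0x6542130987 0 (.leaf 0x6789031245 6 .done))) (.node 3 7 (.cons 0x6542109873 .nil) (.node 3 9 (.cons 0x6542783901 .nil) (.node 6 8 (.cons 0x9345687210 .nil) (.leaf 0x1278654390 1 (.node 1 6 (.cons 0x4561093872 .nil) (.node 0 6 (.cons 0x7893456012 .nil) (.node 3 6 (.cons 0x7890124563 .nil) .done (.leaf 0x3456012789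 1 .done)) (.leaf 0x938724561 2 .done)) (.leaf 0x5687210934 2 .done))) (.node 2 8 (.cons 0x9014567283 .nil) (.leaf 0x3901456728 0 (.node 3 6 (.cons 0x7890124563 .nil) (.node 1 3 (.cons 0x9013872456 .nil) (.node 3 5 .nil (.node 4 6 (.cons 0x5642783901 (.cons 0x8724653901 (.cons 0x5376412890 .nil))) .done .done) .done) .done) (.leaf 0x7654109382 3 .done))) .done)) (.node 3 6 (.cons 0x7890124563 .nil) (.leaf 0x2109873654 4 .done) .done)) (.node 3 6 (.cons 0x5421098763 .nil) (.node 3 5 (.cons 0x6789012453 .nil) (.node 3 9 (.cons 0x8390145672 .nil) (.node 5 8 (.cons 0x4587639012 .nil) (.node 3 7 (.cons 0x9854210376 .nil) (.node 1 3 .nil (.node 0 2 (.cons 0x9385410276 .nil) (.node 4 7 (.cons 0x6745893012 (.cons 0x6547890231 (.cons 0x6547890213 .nil))) .done (.leaf 0x3145672098 3 .done)) .done) .done) (.node 0 2 (.cons 0x4587639021 .nil) (.leaf 0x2093678541 0 (.leaf 0x9367854120 4 .done)) .done)) (.node 5 8 (.cons 0x4109385672 .nil) (.leaf 0x1427658390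 6 (.leaf 0x1093856724 0 .done)) .done)) .done) (.node 3 9 (.cons 0x8390145672 .nil) (.node 0 6 (.cons 0x7893456012 .nil) (.node 1 6 (.cons 0x4561093872 .nil) (.leaf 0x7839016542 1 .done) (.leaf 0x3456012789 1 .done)) (.node 3 7 .nil (.node 5 8 (.cons 0x9014276385 (.cons 0x9854210376 (.cons 0x6730985421 .nil))) (.node 5 9 (.cons 0x5987634210 (.cons 0x8590142736 .nil)) (.leaf 0x2763859014 6 (.leaf 0x4276385901 5 .done)) .done) .done) .done)) .done)) .done))) (.leaf 0x4109832765 2 (.leaf 0x1098327654 0 (.node 3 9 (.cons 0x8930127654 .nil) (.node 0 6 (.cons 0x7893456012 .nil) (.node 3 6 (.cons 0x4563987210 .nil) (.node 2 6 (.cons 0x7893456210 .nil) (.node 2 9 (.cons 0x3456789210 .nil) (.node 0 5 (.cons 0x7629834501 .nil) (.node 1 7 (.cons 0x5438926710 .nil) (.leaf 0x4389267105 3 (.leaf 0x8345017629 4 (.node 1 9 (.cons 0x4560193872 .nil) .done .done))) (.leaf 0x9876345012 1 .done)) (.leaf 0x8927654103 2 .done)) .done) .done) (.leaf 0x1278934560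 2 (.leaf 0x5439872106 2 .done))) (.node 2 9 (.cons 0x3456789210 .nil) (.node 2 5 (.cons 0x6789345210 .nil) (.node 2 6 (.cons 0x5439876210 .nil) (.node 0 6 (.cons 0x5439876012 .nil) (.node 3 6 (.cons 0x8763901254 .nil) .done (.leaf 0x7893452106 2 .done)) .done) (.node 0 6 (.cons 0x5439876012 .nil) (.leaf 0x3452106789 3 (.node 2 6 (.cons 0x5439876210 .nil) (.node 0 2 (.cons 0x7654389201 .nil) (.node 2 4 (.cons 0x5426783901 .nil) .done .done) .done) (.node 0 5 (.cons 0x8932760541 .nil) (.node 3 5 (.cons 0x8935410672 .nil) .done .done) .done))) .done)) (.node 1 9 .nil (.node 0 6 (.cons 0x5439876012 (.cons 0x7834560192 .nil)) (.leaf 0x1927834560 5 (.leaf 0x9106543872 3 .done)) (.node 3 6 (.cons 0x7298365410 .nil) (.node 1 6 (.cons 0x7298301654 .nil) (.node 3 7 (.cons 0x6543789210 .nil) (.node 0 7 (.cons 0x2389076541 .nil) (.leaf 0x6541238907 1 (.leaf 0x2701456389 2 (.node 0 6 (.cons 0x5439876012 .nil) (.node 1 3 (.cons 0x4561329870 .nil) (.node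 3 5 (.cons 0x7298356014 .nil) .done .done) .done) .done))) .done) .done) (.node 3 7 (.cons 0x6543789210 .nil) (.node 6 8 (.cons 0x9273865410 .nil) (.node 4 9 (.cons 0x3786549210 .nil) (.node 1 3 (.cons 0x2945687310 .nil) (.node 0 6 (.cons 0x1327894560 .nil) (.leaf 0x7894560132 2 (.leaf 0x7894560132 5 .done)) .done) (.leaf 0x6549210378 5 .done)) (.leaf 0x3865410927 2 .done)) .done) .done)) .done)) (.leaf 0x8927654103 2 .done))) (.node 3 6 .nil (.node 0 4 (.cons 0x5678934012 (.cons 0x7890456321 (.cons 0x5409876321 .nil))) (.node 1 9 (.cons 0x2387654091 (.cons 0x9104563872 (.cons 0x8763219045 .nil))) .done (.leaf 0x7893654012 5 .done)) (.node 3 5 .nil (.node 2 4 (.cons 0x5678934210 (.cons 0x8765390124 (.cons 0x6789012453 .nil))) (.leaf 0x124536789 3 .done) (.node 1 3 .nil (.node 2 4 (.cons 0x5678934210 (.cons 0x9013876542 .nil)) (.leaf 0x9876542310 5 (.leaf 0x9876542310 1 .done)) (.node 3 7 .nil (.node 2 4 (.cons 0x5678934210 (.cons 0x6542109873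 .nil)) (.node 2 6 (.cons 0x9013876245 .nil) (.leaf 0x983726541 0 (.leaf 0x1098734562 2 .done)) (.leaf 0x1098736542 5 .done)) .done) .done)) .done)) .done)) .done))) .done)))) .done))))
noncomputable def uc9_7_10 : T := tc9_7_22
theorem sub_c9_7_10 : root 9 refs9_7 [] 0x800000003807000000007060000000060500000000504000000004030700000030107000000102000000702013000007010 0xfef7fe7fff3fff9fffcfff67ff75fff9ff79ff75 9 3 8 (.cons 0x7654123890 .nil) uc9_7_10 = true := by decide +kernel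
noncomputable def tc9_7_23 : T := (.node 3 6 (.cons 0x7890456321 .nil) (.node 2 6 .nil (.node 3 7 (.cons 0x6540987321 (.cons 0x9873401265 (.cons 0x5629873401 .nil))) (.leaf 0x2109873456 3 .done) (.node 2 8 .nil (.node 3 5 (.cons 0x4356789210 (.cons 0x9287653410 .nil)) (.leaf 0x2901435678 6 (.leaf 0x8290143567 5 .done)) (.node 4 7 (.cons 0x9012874563 .nil) (.node 2 4 .nil (.node 3 5 (.cons 0x4356789210 .nil) (.leaf 0x9012435678 0 (.leaf 0x8901243567 2 (.leaf 0x987635421 6 .done))) (.node 3 7 (.cons 0x6540987321 .nil) (.node 4 9 (.cons 0x7821094563 .nil) (.leaf 0x8736549012 6 (.leaf 0x2873654901 5 .done)) (.node 2 5 (.cons 0x6529873401 .nil) (.node 2 7 (.cons 0x9827345610 .nil) .done .done) .done)) .done)) (.node 3 7 (.cons 0x1654732890 .nil) (.leaf 0x1098237456 0 (.leaf 0x6109823745 2 .done)) (.node 4 6 .nil (.node 3 5 (.cons 0x4356789210 (.cons 0x7829014653 .nil)) (.leaf 0x9876453210 2 (.leaf 0x9876453210 5 .done)) (.node 4 8 .nil (.node 1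 9 (.cons 0x3654782190 (.cons 0x7845632190 (.cons 0x5487632190 .nil))) .done (.node 4 9 (.cons 0x7821094563 .nil) (.node 2 4 .nil (.node 3 5 (.cons 0x4356789210 (.cons 0x5367842901 .nil)) (.leaf 0x9012435678 0 (.leaf 0x8901243567 2 .done)) .done) .done) .done)) .done)) .done))) (.node 2 4 .nil (.node 3 5 (.cons 0x4356789210 (.cons 0x7610982453 .nil)) (.leaf 0x9012435678 0 (.leaf 0x8901243567 2 .done)) (.node 0 8 (.cons 0x9087654123 .nil) (.node 3 8 (.cons 0x7654210983 .nil) (.node 0 6 (.cons 0x9065412387 .nil) (.node 7 9 (.cons 0x6541238790 .nil) (.leaf 0x8321456097 3 (.node 1 5 (.cons 0x6328790451 .nil) (.leaf 0x9782361540 2 (.leaf 0x7823615409 0 .done)) (.leaf 0x654123879 0 .done))) .done) (.node 3 7 (.cons 0x2456738901 .nil) (.leaf 0x4210983765 2 (.leaf 0x2109837654 0 .done)) .done)) (.node 2 7 .nil (.node 1 3 (.cons 0x9087654132 (.cons 0x9087231456 (.cons 0x9801342765 .nil))) (.leaf 0x892765431 3 .done) (.node 2 5 (.cons 0x9256780143 .nil)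 (.node 0 2 .nil (.node 1 9 (.cons 0x7801925634 (.cons 0x7619802345 .nil)) (.leaf 0x4567891023 5 .done) .done) .done) .done)) .done)) .done)) .done))) .done)) (.node 5 7 (.cons 0x4098756321 .nil) (.node 6 9 (.cons 0x8756921043 .nil) (.node 0 6 .nil (.node 1 9 (.cons 0x8756321904 (.cons 0x7891234560 (.cons 0x5432198760 .nil))) .done (.node 2 6 .nil (.node 3 7 (.cons 0x6540987321 (.cons 0x5629873401 .nil)) (.leaf 0x2109873456 3 .done) (.node 2 7 (.cons 0x9872104365 .nil) (.node 3 7 (.cons 0x6540987321 .nil) (.node 1 3 (.cons 0x9873104562 .nil) (.leaf 0x7892654013 5 (.leaf 0x8731045629 3 .done)) .done) .done) .done)) .done)) (.node 3 8 (.cons 0x1296578340 .nil) (.leaf 0x7569210438 5 (.leaf 0x4387569210 6 (.leaf 0x5783401296 3 .done))) .done)) (.leaf 0x2365789041 4 (.leaf 0x7563214098 0 (.node 7 9 (.cons 0x8790412365 .nil) (.node 1 9 (.cons 0x2198756340 .nil) (.node 1 3 (.cons 0x6578921340 .nil) (.node 3 8 (.cons 0x7561298340 .nil) (.node 0 6 (.cons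 0x7891234560 .nil) (.leaf 0x2387906541 4 (.leaf 0x8321456097 3 .done)) (.node 0 2 (.cons 0x4365789120 .nil) (.leaf 0x3876541902 3 (.leaf 0x9145678320 0 (.leaf 0x8756340219 3 .done))) .done)) .done) .done) (.node 4 7 .nil (.node 0 3 (.cons 0x4567890321 (.cons 0x8921034765 (.cons 0x8903216745 .nil))) (.leaf 0x2165478903 2 (.leaf 0x9874561230 2 .done)) (.node 3 7 (.cons 0x8921657340 .nil) (.node 2 7 (.cons 0x9872104365 .nil) (.node 0 7 (.cons 0x8921657043 .nil) (.node 1 7 (.cons 0x6540987123 .nil) .done .done) .done) .done) .done)) .done)) .done)))) (.node 6 9 .nil (.node 3 7 (.cons 0x6540987321 (.cons 0x8734012965 (.cons 0x5698734012 .nil))) (.leaf 0x4569873210 2 .done) (.node 4 6 .nil (.node 1 7 (.cons 0x2365409871 (.cons 0x5640987123 .nil)) (.node 1 5 (.cons 0x2364517890 (.cons 0x5178923640 .nil)) (.node 2 4 (.cons 0x1542367890 .nil) (.leaf 0x3240987156 2 .done) .done) (.leaf 0x5409871236 5 .done)) .done) .done)) .done))) (.node 5 7 (.cons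 0x9875612340 .nil) (.leaf 0x2165789043 1 (.node 1 7 (.cons 0x6540987123 .nil) (.node 3 6 (.cons 0x7890456321 .nil) (.node 3 7 (.cons 0x6540987321 .nil) (.node 2 7 .nil (.node 3 5 (.cons 0x4356789210 (.cons 0x4098723561 .nil)) (.leaf 0x6532789041 6 (.leaf 0x7235614098 3 .done)) (.node 0 7 (.cons 0x9870432165 .nil) (.node 7 9 (.cons 0x8790456321 .nil) (.node 4 7 .nil (.node 5 8 (.cons 0x1297856340 (.cons 0x3658740921 .nil)) (.leaf 0x8563401297 0 (.leaf 0x4098561237 4 .done)) .done) .done) .done) .done)) (.leaf 0x987321654 1 .done)) (.node 1 3 .nil (.node 2 4 (.cons 0x5678924310 .nil) (.leaf 0x9240136578 6 (.leaf 0x9876542310 2 (.leaf 0x9876542310 1 .done))) (.node 2 7 .nil (.node 1 8 (.cons 0x7236540981 .nil) (.leaf 0x436572981 6 (.leaf 0x4563271890 2 .done)) (.node 3 7 (.cons 0x6540987321 .nil) (.node 0 7 (.cons 0x9870432165 .nil) (.node 1 5 (.cons 0x6512378904 .nil) (.node 1 8 (.cons 0x4329815670 .nil) (.leaf 0x5189234076 2 .done) .done) .done)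 (.leaf 0x987321654 1 .done)) .done)) .done)) (.leaf 0x8921043657 3 .done))) .done) (.node 3 6 (.cons 0x2987563401 .nil) (.node 7 9 (.cons 0x8790456321 .nil) (.node 5 8 (.cons 0x6340129785 .nil) (.leaf 0x2104365879 3 (.leaf 0x2104365879 4 (.node 0 5 (.cons 0x6340587921 .nil) (.leaf 0x7850436129 5 (.node 1 8 (.cons 0x6798123450 .nil) (.node 0 6 (.cons 0x9234187560 .nil) (.leaf 0x8143290657 5 .done) (.leaf 0x5812976340 6 (.leaf 0x9218504367 3 .done))) .done)) .done))) (.node 4 7 .nil (.node 5 8 (.cons 0x1297856340 (.cons 0x9210478563 (.cons 0x3658740921 .nil))) (.leaf 0x8563401297 0 .done) (.node 3 7 (.cons 0x6540987321 .nil) (.node 2 4 (.cons 0x3240987561 .nil) (.node 1 8 (.cons 0x4092365781 .nil) (.leaf 0x2375618904 6 (.node 0 3 (.cons 0x4567890321 .nil) (.leaf 0x9816754230 5 (.leaf 0x2457618903 6 (.leaf 0x8903245761 3 .done))) (.leaf 0x4237561890 5 .done))) .done) .done) .done)) .done)) (.leaf 0x4012987563 3 (.node 1 7 (.cons 0x2365409871 .nil)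 (.node 2 4 (.cons 0x3240987561 .nil) (.node 5 8 (.cons 0x5892436710 .nil) (.leaf 0x2361758904 6 (.leaf 0x4236710985 2 (.leaf 0x4092365871 4 .done))) (.node 1 3 (.cons 0x4098756132 .nil) (.node 1 5 (.cons 0x1542367890 .nil) (.node 0 6 (.cons 0x8906754231 .nil) (.node 0 7 (.cons 0x4365107892 .nil) (.leaf 0x1563429870 6 .done) (.leaf 0x3245178906 6 .done)) (.leaf 0x2409875163 3 .done)) (.node 0 6 (.cons 0x6098754231 .nil) (.leaf 0x7542316098 2 (.leaf 0x5423160987 0 .done)) .done)) .done)) (.leaf 0x5409871236 5 .done)) .done))) (.leaf 0x8756123409 2 .done)))) (.node 3 7 (.cons 0x9873216540 .nil) (.leaf 0x2165409873 2 (.node 1 7 (.cons 0x6540987123 .nil) (.node 0 7 (.cons 0x9870456123 .nil) (.node 2 7 .nil (.node 3 9 (.cons 0x7893216540 (.cons 0x8934567210 (.cons 0x6543987210 .nil))) (.leaf 0x4561239870 1 .done) (.node 3 9 (.cons 0x7893216540 .nil) (.node 0 8 (.cons 0x7654398012 .nil) (.leaf 0x4123908765 4 (.leaf 0x2145678093 3 (.leaf 0x9345672108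 2 .done))) (.node 0 6 (.cons 0x7893456012 .nil) (.node 0 5 (.cons 0x9871234056 .nil) (.node 1 3 (.cons 0x4310567892 .nil) (.node 4 8 (.cons 0x9321654870 .nil) (.leaf 0x923148765 4 (.leaf 0x2905678413 3 (.leaf 0x5672984310 3 .done))) .done) .done) (.leaf 0x1278934560 2 (.leaf 0x5439872106 2 .done))) (.leaf 0x4561239870 1 .done))) .done)) (.node 4 7 .nil (.node 3 5 (.cons 0x4356789210 (.cons 0x8904712356 (.cons 0x6534789210 (.cons 0x1653298740 .nil)))) (.leaf 0x7401653298 3 .done) (.node 7 9 .nil (.node 0 8 (.cons 0x9087654123 .nil) (.leaf 0x4567980123 2 (.leaf 0x9732165408 2 .done)) .done) .done)) .done)) .done) (.node 1 7 (.cons 0x6540987123 .nil) (.node 0 7 (.cons 0x9870456123 .nil) (.node 2 7 .nil (.node 3 9 (.cons 0x7893216540 (.cons 0x8934567210 (.cons 0x6543987210 .nil))) (.leaf 0x4561239870 2 (.leaf 0x4561239870 1 .done)) (.node 3 9 (.cons 0x7893216540 .nil) (.node 0 8 (.cons 0x7654398012 .nil) (.leaf 0x4123908765 4 (.leaf 0x2145678093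 3 (.leaf 0x9345672108 2 .done))) (.node 0 6 (.cons 0x7893456012 .nil) (.node 0 5 (.cons 0x9873216504 .nil) (.node 0 2 (.cons 0x6178932054 .nil) (.node 0 3 (.cons 0x4567890321 .nil) .done .done) .done) (.leaf 0x1278934560 2 (.leaf 0x5439872106 2 .done))) (.leaf 0x4561239870 2 (.leaf 0x4561239870 1 .done)))) .done)) (.node 1 5 (.cons 0x6512378904 .nil) (.node 4 7 (.cons 0x8904732156 .nil) (.node 6 8 (.cons 0x7043298651 .nil) (.leaf 0x3407156892 1 (.leaf 0x986512374 5 (.leaf 0x432986517 5 .done))) .done) (.node 1 3 (.cons 0x9870456132 .nil) (.node 1 9 .nil (.node 0 6 (.cons 0x4329870651 (.cons 0x8706519234 (.cons 0x7891234065 .nil))) (.leaf 0x5143298706 2 .done) .done) .done) .done)) .done)) .done) (.leaf 0x8904561237 2 .done)))) .done)))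
noncomputable def tc9_7_24 : T := (.node 3 8 (.cons 0x7654098321 .nil) (.node 7 9 (.cons 0x6541238790 .nil) (.node 4 7 .nil (.node 0 5 (.cons 0x6501438792 (.cons 0x6501298743 (.cons 0x6509238741 .nil))) (.leaf 0x5012983476 0 .done) (.node 4 6 .nil (.node 0 5 (.cons 0x6501438792 (.cons 0x2978346501 (.cons 0x6450987123 (.cons 0x7832905641 .nil)))) .done (.node 0 6 (.cons 0x2387906541 .nil) (.leaf 0x9783214560 0 (.node 5 7 (.cons 0x1465783290 .nil) (.leaf 0x8329014657 6 (.node 0 7 (.cons 0x9078321456 .nil) (.node 2 7 (.cons 0x3892756401 .nil) .done .done) .done)) .done)) .done)) .done)) (.node 4 7 .nil (.node 0 5 (.cons 0x6501298743 (.cons 0x6509238741 .nil)) (.leaf 0x1298347650 4 (.leaf 0x5012983476 0 .done)) (.node 0 6 (.cons 0x5609238741 .nil) (.node 1 5 (.cons 0x4387921560 .nil) (.leaf 0x9238741560 4 (.leaf 0x9238741560 3 (.leaf 0x9215604387 3 .done))) (.node 2 5 (.cons 0x9783412560 .nil) (.leaf 0x6097834125 2 (.leaf 0x3897125604 4 (.node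 1 3 (.cons 0x6529874310 .nil) (.node 3 6 (.cons 0x2145638790 .nil) (.leaf 0x9014783652 3 (.leaf 0x1092563874 4 .done)) (.leaf 0x652314789 0 .done)) (.leaf 0x9834065217 3 .done)))) (.leaf 0x654123879 0 .done))) .done)) .done)) (.node 4 6 .nil (.node 0 5 (.cons 0x9054123876 (.cons 0x9054678321 (.cons 0x6450987123 (.cons 0x5092387641 .nil)))) .done (.node 6 9 (.cons 0x5412387690 .nil) (.node 4 7 .nil (.node 0 5 (.cons 0x8967123450 (.cons 0x8347692105 (.cons 0x6501298743 .nil))) (.leaf 0x9834765012 2 .done) (.node 4 8 .nil (.node 0 5 (.cons 0x8967123450 (.cons 0x7690548321 (.cons 0x3290567841 .nil))) (.leaf 0x4832176905 6 .done) (.node 2 8 .nil (.node 3 5 (.cons 0x4356789210 (.cons 0x1283547690 (.cons 0x1764532890 (.cons 0x7829014653 (.cons 0x9287653410 .nil))))) .done (.node 2 7 (.cons 0x5438967210 .nil) (.node 0 5 (.cons 0x8967123450 .nil) (.node 3 9 (.cons 0x1283967450 .nil) (.leaf 0x8210547693 5 (.leaf 0x6745012839 6 .done)) (.leaf 0x3450127698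 3 (.leaf 0x4389672105 5 .done))) .done) .done)) .done)) .done)) (.node 0 5 (.cons 0x5092387641 .nil) (.node 1 5 (.cons 0x4387692150 .nil) (.node 0 6 (.cons 0x7609832154 .nil) (.node 4 7 (.cons 0x8347692150 .nil) (.leaf 0x9832154760 3 .done) .done) (.leaf 0x5129678340 0 (.leaf 0x6921504387 4 .done))) (.leaf 0x4123876905 3 (.leaf 0x9678321450 0 .done))) .done)) (.node 4 7 .nil (.node 0 5 (.cons 0x5092146783 (.cons 0x6501298743 .nil)) (.node 1 9 (.cons 0x3876450912 (.cons 0x8321905476 .nil)) (.node 3 6 (.cons 0x7836450912 (.cons 0x8745632190 (.cons 0x5476389012 (.cons 0x8743650192 .nil)))) (.leaf 0x9874563210 1 .done) .done) (.leaf 0x9834765012 2 .done)) (.node 3 7 (.cons 0x8904567321 .nil) (.node 4 8 .nil (.node 0 3 (.cons 0x4567890321 (.cons 0x5648730921 (.cons 0x9032148765 .nil))) (.leaf 0x9845671230 1 .done) (.node 5 7 (.cons 0x6754098321 .nil) (.node 6 9 (.cons 0x1238967540 .nil) (.leaf 0x8967540123 2 (.leaf 0x483756921 5 .done)) (.node 1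 6 (.cons 0x5761298340 .nil) (.leaf 0x4092165738 0 (.leaf 0x483756129 5 (.leaf 0x4837561290 6 .done))) .done)) .done)) (.node 4 8 .nil (.node 0 5 (.cons 0x5092146783 (.cons 0x9210567843 (.cons 0x3290567841 .nil))) (.leaf 0x1298437650 2 .done) (.node 2 8 (.cons 0x9821043765 .nil) (.node 1 8 (.cons 0x7654098123 .nil) (.node 0 8 (.cons 0x9087654123 .nil) (.node 5 8 (.cons 0x4098567321 .nil) (.leaf 0x2376589041 0 .done) .done) .done) .done) .done)) .done)) .done)) .done))) (.leaf 0x2389045671 2 (.leaf 0x4098321765 1 .done)))) (.node 3 8 (.cons 0x7654098321 .nil) (.leaf 0x983217654 3 (.node 3 7 (.cons 0x8904567321 .nil) (.node 1 8 (.cons 0x7654098123 .nil) (.node 2 8 .nil (.node 3 5 (.cons 0x4356789210 (.cons 0x9287653410 .nil)) (.leaf 0x2901435678 6 (.leaf 0x8290143567 5 .done)) (.node 5 8 (.cons 0x9856712340 .nil) (.leaf 0x437658921 3 (.node 1 3 (.cons 0x7658921340 .nil) (.node 1 6 (.cons 0x9045837612 .nil) (.leaf 0x8376129045 4 .done) .done) .done))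 .done)) (.node 1 6 (.cons 0x7612389045 .nil) (.node 2 8 .nil (.node 3 5 (.cons 0x4356789210 (.cons 0x9287653410 .nil)) (.leaf 0x2901435678 6 (.leaf 0x8290143567 5 .done)) (.node 5 8 (.cons 0x9856712340 .nil) (.leaf 0x437658921 3 (.node 6 9 (.cons 0x9654378210 .nil) (.leaf 0x8734569012 3 (.leaf 0x7128569043 1 .done)) .done)) .done)) .done) .done)) (.node 1 8 (.cons 0x2376540981 .nil) (.node 1 3 .nil (.node 2 8 (.cons 0x4567310982 .nil) (.leaf 0x9045671328 5 (.leaf 0x4567312890 1 .done)) (.node 2 8 (.cons 0x4567310982 .nil) (.node 2 4 (.cons 0x9824567310 .nil) (.leaf 0x1376542890 5 (.leaf 0x1376542890 1 .done)) .done) .done)) (.leaf 0x4567321890 1 .done)) .done)) (.node 0 5 (.cons 0x9056783214 .nil) (.node 3 5 (.cons 0x4356789210 .nil) (.node 2 4 (.cons 0x7653890124 .nil) (.node 2 5 (.cons 0x9834012567 .nil) (.node 1 5 (.cons 0x7651238904 .nil) (.node 5 9 (.cons 0x8956712340 .nil) (.node 0 8 (.cons 0x1432956780 .nil) (.leaf 0x5923410876 5 (.leaf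 0x9567801432 6 (.leaf 0x9567801432 0 .done))) (.node 0 2 (.cons 0x9567834120 .nil) (.leaf 0x7834120956 3 .done) .done)) .done) .done) (.node 4 7 (.cons 0x5674098321 .nil) (.node 4 9 (.cons 0x5678321490 .nil) (.node 0 7 (.cons 0x8921076534 .nil) (.node 4 8 (.cons 0x7653489210 .nil) (.leaf 0x3489210765 2 .done) .done) (.leaf 0x5678349210 4 .done)) (.leaf 0x9835674210 4 .done)) .done)) (.node 4 6 (.cons 0x4653217890 .nil) (.leaf 0x1235640987 0 (.leaf 0x1789046532 6 .done)) (.node 2 8 (.cons 0x9287653410 .nil) (.leaf 0x7653289041 0 (.leaf 0x7653289041 6 (.node 1 8 (.cons 0x4187653290 .nil) (.node 5 8 (.cons 0x9856712340 .nil) (.node 4 8 (.cons 0x1487653290 .nil) (.node 3 7 (.cons 0x1298567340 .nil) (.node 0 8 (.cons 0x9087654123 .nil) (.node 6 8 (.cons 0x9045681237 .nil) .done .done) (.leaf 0x4012985673 2 .done)) (.leaf 0x4876532901 0 .done)) .done) (.leaf 0x9235678140 4 .done)) .done))) .done))) (.node 4 6 (.cons 0x9871234650 .nil) (.leaf 0x7890564321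 3 (.node 7 9 (.cons 0x5679834012 .nil) (.leaf 0x8790564123 6 (.leaf 0x5097832146 3 (.node 6 8 (.cons 0x3412978650 .nil) (.leaf 0x8650432179 0 (.node 2 6 (.cons 0x9783412650 .nil) (.leaf 0x5097834126 2 (.node 6 9 (.cons 0x2143879650 .nil) .done (.leaf 0x2650438971 0 .done))) .done)) .done))) .done)) (.node 1 8 (.cons 0x9234187650 .nil) (.node 0 8 (.cons 0x9087654123 .nil) (.node 0 7 (.cons 0x9234187056 .nil) (.node 6 9 (.cons 0x7814329650 .nil) (.leaf 0x3296507814 3 (.leaf 0x2341870569 5 (.node 5 7 (.cons 0x9657043812 .nil) (.leaf 0x6570438129 6 (.leaf 0x438129657 5 .done)) .done))) .done) .done) (.leaf 0x3405671892 4 (.node 7 9 (.cons 0x3218976540 .nil) (.leaf 0x1405679238 1 (.leaf 0x1405679238 5 (.node 0 8 (.cons 0x9087654123 .nil) (.node 1 6 (.cons 0x3416508792 .nil) (.leaf 0x4165087923 2 .done) (.node 1 6 (.cons 0x9234167805 .nil) (.node 2 8 (.cons 0x9823405671 .nil) (.node 0 2 (.cons 0x5679834021 .nil) (.node 0 7 (.cons 0x3456128970 .nil)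 .done .done) .done) .done) .done)) .done))) .done))) .done))) (.leaf 0x9045671238 5 .done)))) (.node 1 5 .nil (.node 0 8 (.cons 0x9087654123 (.cons 0x9804321567 (.cons 0x9234156780 .nil))) (.leaf 0x5143290876 5 (.leaf 0x1432908765 6 .done)) (.node 1 6 .nil (.node 3 5 (.cons 0x4356789210 .nil) (.node 3 7 (.cons 0x8904567321 .nil) (.leaf 0x5612378904 0 (.node 0 5 (.cons 0x9876123450 .nil) (.node 1 9 (.cons 0x6789123450 .nil) (.leaf 0x2340567891 3 .done) (.leaf 0x2167890543 3 (.node 2 4 (.cons 0x3429876501 (.cons 0x4237890561 (.cons 0x3245098761 .nil))) .done .done))) (.leaf 0x6540987321 5 .done))) (.leaf 0x5321678904 0 (.node 2 4 (.cons 0x8924017653 (.cons 0x7892435610 (.cons 0x5342987610 .nil))) .done .done))) (.node 1 8 (.cons 0x7654098123 .nil) (.node 1 3 .nil (.node 0 8 (.cons 0x9087654123 (.cons 0x9087654132 .nil)) (.leaf 0x9231456780 0 (.node 5 9 (.cons 0x7659804321 (.cons 0x4089567132 (.cons 0x7659804312 .nil))) (.leaf 0x8043217659 5 .done)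 .done)) (.node 1 9 .nil (.node 3 8 (.cons 0x9832176540 (.cons 0x2389176540 .nil)) (.node 0 8 (.cons 0x9087654123 .nil) (.leaf 0x4321908765 0 (.node 0 7 (.cons 0x4329807651 (.cons 0x8076519234 (.cons 0x6708915432 (.cons 0x8912340765 .nil)))) .done .done)) .done) .done) .done)) (.node 1 3 .nil (.node 2 4 (.cons 0x5678924310 .nil) (.node 3 5 (.cons 0x8924017653 .nil) (.node 4 8 (.cons 0x5671329840 (.cons 0x4876531290 .nil)) (.leaf 0x5310924876 2 .done) (.leaf 0x8901243567 2 .done)) (.leaf 0x9876542310 5 (.leaf 0x9876542310 1 .done))) (.node 1 9 .nil (.node 3 8 (.cons 0x9832176540 (.cons 0x2389176540 .nil)) (.node 0 8 (.cons 0x9087654123 .nil) (.leaf 0x5432190876 2 (.node 0 7 (.cons 0x4329807651 (.cons 0x8076519234 (.cons 0x6708915432 (.cons 0x8912340765 .nil)))) .done .done)) .done) .done) .done)) .done)) .done)) (.node 1 8 (.cons 0x7654098123 .nil) (.node 1 9 .nil (.node 0 8 (.cons 0x9087654123 .nil) (.leaf 0x5432190876 2 (.node 3 8 (.cons 0x9832176540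 (.cons 0x2389176540 .nil)) (.node 0 6 (.cons 0x9065412387 (.cons 0x7832190654 .nil)) (.node 0 5 (.cons 0x9234187605 (.cons 0x9187605432 .nil)) .done .done) .done) (.node 0 6 (.cons 0x9234156087 (.cons 0x7806519234 .nil)) (.node 0 7 (.cons 0x9870651234 .nil) (.leaf 0x3219870654 1 (.leaf 0x4321980765 5 .done)) .done) .done))) (.node 1 3 .nil (.node 0 5 (.cons 0x4310567892 .nil) (.leaf 0x2987650431 3 (.node 4 8 (.cons 0x9210567843 (.cons 0x5671329840 (.cons 0x9213487650 .nil))) (.leaf 0x5092134876 2 .done) .done)) (.node 1 6 .nil (.node 3 7 (.cons 0x8904567321 (.cons 0x5409816732 .nil)) (.node 5 7 (.cons 0x6754098123 (.cons 0x5761892340 .nil)) (.node 0 5 (.cons 0x3405761892 .nil) (.leaf 0x8923405761 3 (.node 3 8 (.cons 0x9832176540 (.cons 0x7561298340 .nil)) (.leaf 0x6750438921 3 .done) .done)) .done) (.leaf 0x5612378904 0 .done)) .done) .done)) .done)) (.node 3 7 (.cons 0x8904567321 .nil) (.node 2 7 .nil (.node 3 8 (.cons 0x9832176540 (.cons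 0x5672983401 .nil)) (.leaf 0x1276543890 3 (.leaf 0x1276543890 4 .done)) (.node 2 4 .nil (.node 3 5 (.cons 0x4356789210 (.cons 0x9817653240 .nil)) (.leaf 0x9012435678 0 .done) (.node 3 6 (.cons 0x7890124563 .nil) (.node 1 6 .nil (.node 0 3 (.cons 0x4567890321 (.cons 0x7890321654 (.cons 0x9871654230 .nil))) (.leaf 0x6542309871 0 (.leaf 0x6178903245 6 .done)) .done) (.leaf 0x2109873654 1 (.leaf 0x124563789 2 .done))) .done)) .done)) (.leaf 0x2189045673 2 (.node 4 6 (.cons 0x4651237890 .nil) (.leaf 0x3789046512 6 (.leaf 0x3215640987 0 .done)) (.leaf 0x6540981237 2 .done)))) .done)) .done))) .done)))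
noncomputable def uc9_7_11 : T := (.node 1 7 (.cons 0x8904567123 .nil) tc9_7_24 (.node 1 6 (.cons 0x7890456123 .nil) tc9_7_23 (.node 3 5 (.cons 0x4356789210 .nil) (.leaf 0x1298765340 3 (.leaf 0x1298765340 4 (.node 1 5 (.cons 0x6789045123 .nil) (.node 1 6 (.cons 0x5409876123 .nil) (.node 0 5 (.cons 0x9876123405 .nil) (.node 1 3 .nil (.node 4 8 (.cons 0x9210567843 (.cons 0x5678413290 (.cons 0x9213487650 .nil))) (.leaf 0x5092134876 2 .done) (.node 3 9 (.cons 0x8765412390 .nil) (.node 0 7 (.cons 0x8934567012 .nil) (.node 0 3 (.cons 0x4567890321 .nil) (.node 1 9 (.cons 0x8765419032 .nil) (.node 2 8 (.cons 0x7654398210 .nil) (.leaf 0x3982107654 3 (.leaf 0x3091456782 3 (.leaf 0x1289345670 6 .done))) .done) .done) (.node 0 8 (.cons 0x4329807651 .nil) (.leaf 0x5143298076 2 (.leaf 0x2145678093 3 .done)) .done)) (.node 2 8 (.cons 0x5678293410 .nil) (.leaf 0x5410932876 5 (.leaf 0x3928765014 5 (.leaf 0x6782934105 5 .done))) .done)) .done)) (.node 1 3 (.cons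 0x4310567892 .nil) (.node 5 9 (.cons 0x5987612340 .nil) (.node 5 8 (.cons 0x6785092314 .nil) (.node 1 8 (.cons 0x9234187650 .nil) (.node 1 9 (.cons 0x6785041923 .nil) .done .done) .done) .done) .done) .done)) (.node 4 7 (.cons 0x6534789210 .nil) (.node 6 8 (.cons 0x1478653290 .nil) (.leaf 0x4786532901 3 (.node 0 8 (.cons 0x9235614780 .nil) (.node 0 7 (.cons 0x9870453216 .nil) (.node 1 9 (.cons 0x9168704532 .nil) (.leaf 0x3291568074 3 (.leaf 0x2347086519 5 .done)) (.node 6 9 (.cons 0x7896123540 .nil) (.leaf 0x3216987045 1 (.leaf 0x896512347 3 .done)) .done)) (.node 6 9 (.cons 0x7896123540 .nil) (.leaf 0x3569087412 5 (.leaf 0x8096532147 5 .done)) .done)) (.node 0 7 (.cons 0x9214356870 .nil) (.leaf 0x2153407689 3 (.node 0 8 (.cons 0x9235614780 .nil) (.node 4 8 (.cons 0x9843215670 .nil) .done (.leaf 0x9235167408 5 .done)) .done)) .done))) (.node 0 3 (.cons 0x8921567430 .nil) (.leaf 0x1298740356 3 (.leaf 0x1298740356 4 (.node 0 8 (.cons 0x3476512980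 .nil) (.leaf 0x1567430892 3 (.node 0 5 (.cons 0x6129874053 .nil) (.node 0 7 (.cons 0x4329807651 .nil) .done .done) .done)) (.node 0 5 (.cons 0x6129874053 .nil) (.node 0 2 (.cons 0x8920347651 .nil) (.leaf 0x3561478920 4 (.node 0 7 (.cons 0x9870453216 .nil) (.node 0 8 (.cons 0x3476512980 .nil) .done .done) .done)) .done) .done)))) .done)) .done)) (.node 3 6 (.cons 0x9876321540 .nil) (.leaf 0x2367890451 6 (.node 1 6 (.cons 0x5409876123 .nil) (.node 1 3 .nil (.node 0 6 (.cons 0x9876045123 (.cons 0x9876045132 .nil)) (.leaf 0x4513298760 0 .done) (.node 1 7 .nil (.node 0 6 (.cons 0x9876045123 (.cons 0x4356017892 .nil)) (.node 3 9 (.cons 0x6789321540 .nil) (.leaf 0x5406789321 5 .done) .done) .done) .done)) .done) (.leaf 0x8763215409 3 (.leaf 0x7890451236 5 .done)))) .done)) (.node 1 6 (.cons 0x2354098761 .nil) (.leaf 0x4098761235 1 (.node 5 8 (.cons 0x6785329041 .nil) (.leaf 0x3290416785 2 (.node 2 4 (.cons 0x5324098761 .nil) (.node 7 9 (.cons 0x1679853240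 .nil) (.leaf 0x5897610423 3 (.leaf 0x6798532401 6 (.node 1 5 (.cons 0x4098761532 .nil) (.node 5 9 (.cons 0x5987612340 .nil) (.node 0 5 (.cons 0x9876123405 .nil) (.node 2 5 (.cons 0x6789253401 .nil) .done .done) .done) (.leaf 0x3240987615 2 .done)) .done))) (.node 4 7 (.cons 0x1653247890 .nil) (.leaf 0x8901653247 3 (.node 4 8 (.cons 0x1487653290 .nil) (.leaf 0x4876532901 0 .done) .done)) .done)) (.leaf 0x7614092358 2 .done))) (.leaf 0x4098761235 2 .done))) .done)))) (.node 1 5 (.cons 0x1567892340 .nil) (.leaf 0x9234015678 6 (.leaf 0x8923401567 5 (.node 3 8 (.cons 0x9238765140 .nil) (.node 1 6 (.cons 0x7832904165 .nil) (.node 1 7 (.cons 0x7165409832 .nil) (.node 2 7 (.cons 0x7238904561 .nil) (.leaf 0x4098327165 5 (.leaf 0x4098327165 2 .done)) (.node 1 8 (.cons 0x5678140923 .nil) (.node 1 3 .nil (.node 0 5 (.cons 0x7618923405 .nil) (.leaf 0x9876504312 0 (.leaf 0x4132987650 0 (.leaf 0x8921340567 5 .done))) .done) .done) .done)) (.node 1 8 (.cons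 0x5678140923 .nil) (.node 1 7 .nil (.node 0 6 (.cons 0x9065412387 (.cons 0x9238715604 (.cons 0x7123890654 .nil))) .done .done) .done) .done)) (.leaf 0x2904156783 6 (.leaf 0x7651409238 5 (.leaf 0x6783290415 3 .done)))) .done))) .done))))
theorem sub_c9_7_11 : root 9 refs9_7 [] 0x800000403807000000007060000000060500000000504000000004030800000030100400000102000000802013000000010 0xfee7fe7fff3fff9fffcffee7fff5ffe9fef9fff5 9 0 4 (.cons 0x5678921043 .nil) uc9_7_11 = true := by decide +kernel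
noncomputable def tc9_7_25 : T := (.node 3 9 (.cons 0x8765412390 (.cons 0x7654398210 (.cons 0x1456782390 .nil))) (.leaf 0x4567823901 3 (.node 0 5 (.cons 0x4398765012 (.cons 0x7650128934 (.cons 0x9341056782 .nil))) (.leaf 0x3928765014 2 (.leaf 0x8214390567 1 .done)) .done)) (.node 0 8 (.cons 0x9087654123 .nil) (.node 0 5 (.cons 0x6789210543 .nil) (.node 3 6 (.cons 0x5436789210 .nil) (.node 3 7 (.cons 0x6542109873 .nil) (.node 3 8 (.cons 0x9210543876 .nil) (.node 0 2 (.cons 0x9023876541 .nil) (.node 0 3 (.cons 0x4567890321 .nil) (.leaf 0x1298765430 2 .done) .done) .done) (.leaf 0x2109873654 4 (.node 1 8 (.cons 0x9018736542 .nil) (.node 3 8 (.cons 0x9210543876 .nil) .done (.leaf 0x7365429018 5 .done)) .done))) (.leaf 0x4501298763 2 (.leaf 0x7892105436 2 (.node 1 7 (.cons 0x9087145632 .nil) (.node 0 2 (.cons 0x5436789201 .nil) (.node 5 8 (.cons 0x1458763290 .nil) (.leaf 0x6785410923 3 (.leaf 0x4587632901 6 (.leaf 0x7632098541 3 .done))) .done)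 (.leaf 0x8092365417 5 (.leaf 0x4563290871 6 .done))) .done)))) (.node 0 3 (.cons 0x4567890321 .nil) (.node 0 2 .nil (.node 1 9 (.cons 0x1987654320 .nil) (.node 0 4 (.cons 0x7650432891 .nil) (.leaf 0x7891230456 2 .done) (.leaf 0x6543201987 1 (.leaf 0x4567891023 5 (.node 0 4 (.cons 0x5678912340 .nil) (.node 4 7 (.cons 0x8912347650 (.cons 0x8912056743 .nil)) (.leaf 0x9805674321 6 .done) (.leaf 0x9876504321 6 .done)) .done)))) .done) (.node 0 4 .nil (.node 3 9 (.cons 0x8765412390 (.cons 0x5678934012 (.cons 0x5678239041 .nil))) (.leaf 0x4567893210 1 (.leaf 0x4567893210 5 .done)) (.node 3 8 .nil (.node 4 7 (.cons 0x9821056743 (.cons 0x6745098321 (.cons 0x9056741283 .nil))) .done (.node 0 2 (.cons 0x9023876541 .nil) (.node 2 7 (.cons 0x6729834501 .nil) (.node 2 5 .nil (.node 1 6 (.cons 0x5416783290 (.cons 0x9830167254 (.cons 0x5298761043 .nil))) (.leaf 0x7892543016 3 .done) .done) .done) .done) .done)) .done)) (.leaf 0x1298765430 2 (.leaf 0x4567892103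 2 .done)))) (.node 1 9 (.cons 0x9143287650 .nil) (.node 3 8 (.cons 0x6783290541 .nil) (.node 6 9 (.cons 0x5412387690 .nil) (.leaf 0x3876905412 4 (.node 3 7 (.cons 0x2378096541 .nil) (.leaf 0x8096541237 3 (.node 7 9 (.cons 0x8234197650 .nil) (.leaf 0x2341976508 0 .done) (.leaf 0x1982437650 4 .done))) (.leaf 0x9678321450 0 .done))) (.node 1 6 (.cons 0x1678923450 .nil) (.leaf 0x7832905416 2 (.node 1 8 (.cons 0x6781450923 .nil) (.node 4 8 (.cons 0x7650914823 .nil) (.node 1 7 (.cons 0x4328917650 .nil) (.node 6 8 (.cons 0x9056871423 .nil) .done .done) .done) .done) .done)) .done)) (.leaf 0x2876509143 3 (.node 1 6 (.cons 0x1678923450 .nil) (.leaf 0x9234501678 2 (.node 0 2 (.cons 0x4320567891 .nil) (.node 3 8 (.cons 0x9238761450 .nil) (.leaf 0x7614509238 2 (.node 0 3 (.cons 0x4567890321 .nil) (.node 1 7 (.cons 0x8903217654 .nil) (.node 1 8 (.cons 0x6781450923 .nil) .done .done) (.leaf 0x5416789230 2 (.leaf 0x1298765430 2 .done))) .done)) (.leaf 0x3205678914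 2 .done)) .done)) .done))) .done))) (.node 3 9 (.cons 0x8765412390 .nil) (.leaf 0x4123908765 4 (.node 3 8 .nil (.node 2 7 (.cons 0x6543987210 .nil) (.leaf 0x5672109834 3 (.node 0 6 (.cons 0x7893456012 (.cons 0x9387210654 (.cons 0x7601298345 .nil))) (.leaf 0x1278934560 2 (.leaf 0x5439872106 2 .done)) .done)) (.node 4 8 .nil (.node 3 7 (.cons 0x6542109873 (.cons 0x6548739012 .nil)) (.leaf 0x9845673210 1 (.leaf 0x9845673210 5 .done)) (.node 6 8 (.cons 0x7865412390 .nil) (.node 2 6 (.cons 0x7893456210 .nil) (.node 2 7 (.cons 0x6543987210 .nil) (.leaf 0x938726541 0 .done) (.node 0 2 (.cons 0x9023876541 .nil) (.node 2 7 (.cons 0x6543987210 .nil) (.node 0 6 (.cons 0x7893456012 .nil) (.leaf 0x1278934560 2 (.leaf 0x5439872106 2 .done)) .done) .done) .done)) .done) .done)) .done)) (.leaf 0x9321456780 0 (.node 3 5 (.cons 0x4109356782 .nil) (.leaf 0x5390142876 0 (.leaf 0x1093567824 4 (.node 3 8 .nil (.node 0 5 (.cons 0x9341056782 (.cons 0x9210543876 (.cons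 0x6783290541 .nil))) (.node 2 7 (.cons 0x4398276501 (.cons 0x6542783901 (.cons 0x9382765014 .nil))) .done .done) .done) .done))) .done)))) (.node 0 4 .nil (.node 3 9 (.cons 0x8765412390 (.cons 0x5678934012 (.cons 0x5678239041 .nil))) (.leaf 0x4567893210 1 (.leaf 0x4567893210 5 .done)) (.node 3 8 (.cons 0x7654098321 .nil) (.node 0 3 (.cons 0x4567890321 .nil) (.node 0 2 .nil (.node 1 9 (.cons 0x7654320891 (.cons 0x9143208765 .nil)) (.node 0 5 (.cons 0x6789210543 .nil) (.leaf 0x8234190567 5 .done) (.leaf 0x4567891023 5 .done)) .done) (.node 0 2 .nil (.node 1 9 (.cons 0x7654320891 (.cons 0x9143208765 .nil)) (.leaf 0x8765430219 5 (.leaf 0x4567891023 5 .done)) (.node 0 6 (.cons 0x9065412387 .nil) (.node 0 7 (.cons 0x9078321456 .nil) .done .done) .done)) (.leaf 0x1298765430 2 .done))) (.node 0 5 (.cons 0x6789210543 .nil) (.node 0 2 .nil (.node 1 9 (.cons 0x6780543291 (.cons 0x7654320891 (.cons 0x9143208765 .nil))) (.leaf 0x4567891023 5 .done) .done)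 (.node 0 3 (.cons 0x4567890321 .nil) (.node 0 6 (.cons 0x9067832145 .nil) (.node 5 9 (.cons 0x6783214590 .nil) (.node 4 9 (.cons 0x8765490321 .nil) (.leaf 0x2103495678 0 (.leaf 0x2876594301 6 .done)) (.leaf 0x7832145906 4 (.leaf 0x7832145906 3 .done))) .done) (.leaf 0x1298765430 2 .done)) .done)) .done)) (.node 4 8 .nil (.node 3 7 (.cons 0x6542109873 .nil) (.node 3 9 (.cons 0x8765412390 (.cons 0x8456739012 (.cons 0x6548739012 (.cons 0x5678412390 .nil)))) (.leaf 0x6739012845 5 .done) (.leaf 0x9845673210 1 (.leaf 0x9845673210 5 (.node 3 9 (.cons 0x8765412390 (.cons 0x5673901482 (.cons 0x5678412390 .nil))) (.node 0 3 (.cons 0x4567890321 (.cons 0x7654890321 (.cons 0x9032148765 .nil))) (.node 2 6 (.cons 0x7893456210 (.cons 0x2654873901 (.cons 0x7390148265 (.cons 0x9301265487 .nil)))) .done .done) .done) .done)))) (.node 4 7 .nil (.node 0 3 (.cons 0x4567890321 (.cons 0x9821034765 (.cons 0x6547890321 .nil))) (.node 0 5 (.cons 0x6789210543 (.cons 0x9821056743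 .nil)) (.node 3 6 (.cons 0x5436789210 (.cons 0x9821056347 (.cons 0x4789056321 (.cons 0x9056328741 .nil)))) .done .done) (.leaf 0x1298765430 2 .done)) (.node 4 9 .nil (.node 0 5 (.cons 0x6789210543 (.cons 0x7650128943 .nil)) (.leaf 0x4987650123 2 (.leaf 0x4987650123 1 .done)) (.node 4 6 .nil (.node 3 5 (.cons 0x7653498210 .nil) (.node 1 5 (.cons 0x6789045123 (.cons 0x9280153467 (.cons 0x6478290153 (.cons 0x7649280153 .nil)))) .done (.leaf 0x9876453210 2 (.leaf 0x9876453210 5 (.node 1 6 (.cons 0x8761453290 .nil) (.leaf 0x4098761235 1 (.leaf 0x7809235416 2 (.leaf 0x4098761235 2 .done))) .done)))) .done) .done)) .done)) .done)) .done))) .done))) (.node 2 7 .nil (.node 3 9 (.cons 0x8765412390 (.cons 0x8934567210 (.cons 0x6543987210 .nil))) (.node 0 4 (.cons 0x5678934012 (.cons 0x8934012765 .nil)) (.node 2 5 (.cons 0x4398765210 .nil) (.node 0 5 (.cons 0x4398765012 (.cons 0x6501278934 .nil)) (.node 4 8 (.cons 0x9348765210 (.cons 0x8412765093 .nil))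 (.leaf 0x3905678412 5 .done) (.node 2 6 (.cons 0x7893426501 .nil) (.leaf 0x5014398726 5 (.leaf 0x562789341 3 .done)) .done)) (.leaf 0x9340125678 3 .done)) (.node 1 5 (.cons 0x9328765140 (.cons 0x8934015672 (.cons 0x6510439872 (.cons 0x6510427893 .nil)))) .done .done)) (.node 3 6 (.cons 0x5436789210 (.cons 0x8724563901 (.cons 0x8724109365 .nil))) (.node 0 8 (.cons 0x2390876541 (.cons 0x9365410827 (.cons 0x9367280145 (.cons 0x5436729801 .nil)))) (.node 5 8 (.cons 0x7634589210 (.cons 0x8541092763 .nil)) (.leaf 0x1093658724 4 (.leaf 0x4392765801 5 .done)) .done) .done) .done)) (.node 2 5 .nil (.node 3 9 (.cons 0x8765412390 (.cons 0x4398765210 .nil)) (.node 0 7 (.cons 0x8934567012 (.cons 0x8934521076 .nil)) (.leaf 0x1289345670 6 (.leaf 0x6543982107 5 .done)) (.node 6 8 (.cons 0x9345687210 .nil) (.leaf 0x1278654390 1 (.node 0 7 (.cons 0x2390786541 (.cons 0x6870932541 (.cons 0x9341078652 .nil))) (.leaf 0x1439256870 1 .done) (.leaf 0x5687210934 2 .done)))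 (.node 0 2 (.cons 0x4398765201 .nil) (.leaf 0x256789341 0 .done) .done))) (.node 2 6 .nil (.node 3 7 (.cons 0x6542109873 .nil) (.leaf 0x2109873456 3 (.node 3 5 (.cons 0x6537890124 (.cons 0x4265378901 .nil)) (.node 3 8 (.cons 0x9012678354 (.cons 0x4538762901 .nil)) (.leaf 0x926783541 5 (.leaf 0x926783541 1 .done)) (.leaf 0x7890142653 6 .done)) (.node 3 9 (.cons 0x8765412390 (.cons 0x7893456210 (.cons 0x8739014265 .nil))) (.node 0 7 (.cons 0x6542893701 .nil) (.leaf 0x4562107893 2 (.leaf 0x1289345670 6 .done)) .done) .done))) (.node 0 2 .nil (.node 1 3 (.cons 0x4567890231 .nil) (.leaf 0x4567892013 2 (.node 7 9 (.cons 0x8976543102 (.cons 0x8976543120 .nil)) (.leaf 0x6543102897 3 (.leaf 0x8201345679 0 .done)) (.node 1 5 (.cons 0x6789201543 .nil) (.node 0 6 (.cons 0x1543298760 .nil) (.leaf 0x2345106789 0 (.leaf 0x9234510678 2 .done)) (.node 3 6 (.cons 0x5436789210 (.cons 0x5436789201 .nil)) (.leaf 0x298763451 5 (.leaf 0x298763451 1 .done)) .done))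 (.leaf 0x7890213456 3 (.leaf 0x298765431 2 .done))))) .done) .done)) .done)) (.node 3 7 (.cons 0x6542109873 .nil) (.node 3 6 (.cons 0x5436789210 .nil) (.node 0 7 (.cons 0x8921076345 .nil) (.node 0 3 (.cons 0x4567890321 .nil) (.node 3 5 (.cons 0x9821076354 .nil) (.node 3 9 (.cons 0x6782935410 .nil) (.node 1 3 (.cons 0x6531098724 .nil) (.node 3 8 (.cons 0x6783541092 .nil) .done .done) .done) .done) (.leaf 0x1298765430 2 (.leaf 0x4567892103 2 .done))) (.node 7 9 (.cons 0x3654289701 .nil) (.node 1 3 (.cons 0x1365428970 .nil) (.leaf 0x8245631079 2 (.leaf 0x4289701365 1 (.leaf 0x8245631079 5 .done))) .done) .done)) (.leaf 0x2109873654 1 (.leaf 0x124563789 2 .done))) (.node 1 7 .nil (.node 0 3 (.cons 0x4567890321 (.cons 0x8903217654 (.cons 0x6542309871 .nil))) (.node 3 6 (.cons 0x5436789210 .nil) (.node 0 7 (.cons 0x8921076345 .nil) (.node 5 8 (.cons 0x7634589210 (.cons 0x8541709236 (.cons 0x9856342710 (.cons 0x6371245890 .nil)))) .done .done) (.leaf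 0x2178903654 1 (.leaf 0x7124563098 2 .done))) (.node 1 6 (.cons 0x7890321654 .nil) (.node 2 6 (.cons 0x4562309871 .nil) (.leaf 0x326541789 3 (.leaf 0x5621789034 2 .done)) (.leaf 0x9871654230 1 (.leaf 0x5617890324 2 .done))) (.leaf 0x1298765430 2 .done))) (.node 0 3 (.cons 0x4567890321 .nil) (.node 0 7 .nil (.node 3 6 (.cons 0x5436789210 (.cons 0x8921076345 (.cons 0x9870124365 .nil))) (.node 1 5 (.cons 0x2987634510 (.cons 0x9824510736 (.cons 0x6345107892 .nil))) .done .done) (.node 0 5 (.cons 0x6789210543 .nil) (.node 0 2 .nil (.node 1 3 (.cons 0x4567890231 .nil) (.leaf 0x4567892013 2 (.node 7 9 (.cons 0x6542897013 (.cons 0x8976543120 .nil)) .done (.node 6 9 (.cons 0x9654132870 (.cons 0x4569871320 (.cons 0x7896543120 .nil))) (.leaf 0x3456987021 1 (.leaf 0x1328709654 5 .done)) (.leaf 0x298765431 2 .done)))) .done) (.node 1 6 (.cons 0x6123789054 .nil) (.node 1 5 (.cons 0x8923451670 .nil) .done (.node 4 9 (.cons 0x7894321650 .nil) (.leaf 0x3216507894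 2 (.node 1 8 (.cons 0x2309456781 .nil) (.leaf 0x5490321876 2 (.leaf 0x4903218765 0 .done)) (.leaf 0x8705612349 2 .done))) .done)) .done)) .done)) (.node 7 9 (.cons 0x8976543012 .nil) (.leaf 0x6543012897 3 (.node 0 2 (.cons 0x8976543021 .nil) (.node 1 8 (.cons 0x2189765430 .nil) (.leaf 0x3456798120 4 (.leaf 0x3456798120 3 (.node 1 3 (.cons 0x4567982130 .nil) (.node 3 8 (.cons 0x9765412830 .nil) (.node 1 6 (.cons 0x5416792830 .nil) (.leaf 0x9024561387 3 .done) .done) .done) .done))) .done) .done)) (.node 7 9 (.cons 0x8790321456 .nil) (.node 4 7 (.cons 0x6547890321 .nil) (.node 4 9 (.cons 0x6549871230 .nil) (.node 3 9 (.cons 0x8765412390 .nil) (.node 0 8 (.cons 0x3217654980 .nil) (.leaf 0x9321456780 0 (.leaf 0x6712308945 0 (.node 3 8 (.cons 0x5672380941 .nil) .done .done))) .done) .done) .done) (.node 4 7 (.cons 0x6547890321 .nil) (.node 4 9 (.cons 0x6549871230 .nil) (.node 4 6 (.cons 0x9872103465 .nil) (.node 5 9 (.cons 0x1278956430 .nil) (.node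 3 8 (.cons 0x3872146590 .nil) (.leaf 0x1465903872 1 (.leaf 0x6412783095 5 .done)) (.leaf 0x5987210346 0 .done)) .done) .done) .done) .done)) (.leaf 0x1298765430 2 (.leaf 0x4567892103 2 .done))))) .done)) (.node 7 9 .nil (.node 0 3 (.cons 0x4567890321 (.cons 0x6542897301 (.cons 0x8790321456 .nil))) (.node 1 6 (.cons 0x1654237890 (.cons 0x3798245610 .nil)) (.node 0 2 (.cons 0x9873420165 (.cons 0x8973420165 .nil)) .done (.leaf 0x1654289730 0 .done)) (.leaf 0x7982103456 3 (.leaf 0x1298765430 2 .done))) (.node 4 7 .nil (.node 3 6 (.cons 0x5436789210 .nil) (.node 3 9 (.cons 0x8765412390 (.cons 0x9365478210 (.cons 0x8742109365 .nil))) (.node 0 7 (.cons 0x6542893701 .nil) (.leaf 0x5670128934 3 (.leaf 0x2107456398 5 .done)) .done) (.leaf 0x9874563210 2 (.leaf 0x9874563210 1 .done))) (.node 0 7 .nil (.node 3 9 (.cons 0x8765412390 (.cons 0x6542893701 (.cons 0x6543987012 .nil))) (.node 1 9 (.cons 0x8912345670 (.cons 0x6543219870 .nil)) (.node 0 4 (.cons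 0x1982376540 (.cons 0x5678239140 .nil)) .done .done) .done) (.node 0 2 .nil (.node 1 6 (.cons 0x1654237890 (.cons 0x8920167345 (.cons 0x9873420165 .nil))) (.leaf 0x7892016543 3 .done) (.node 3 9 (.cons 0x8765412390 .nil) (.node 0 8 (.cons 0x3976541280 .nil) (.leaf 0x3980127654 3 (.leaf 0x4123908765 4 (.leaf 0x2937654108 0 (.leaf 0x9345672108 5 .done)))) (.leaf 0x5410289376 2 (.node 0 4 (.cons 0x5678934012 .nil) (.node 2 5 (.cons 0x4398765210 .nil) (.leaf 0x3987652104 2 .done) .done) .done))) .done)) .done)) .done)) .done)) .done))) .done))) .done)))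
noncomputable def tc9_7_26 : T := (.node 3 5 (.cons 0x1235467890 .nil) (.leaf 0x9876453210 1 (.node 0 8 (.cons 0x9087654123 (.cons 0x9087645321 (.cons 0x9210876435 .nil))) (.node 0 3 (.cons 0x4567890321 (.cons 0x5467890321 .nil)) (.node 0 5 (.cons 0x6789210543 .nil) (.node 1 7 (.cons 0x8903217654 (.cons 0x8903217645 (.cons 0x9087123564 (.cons 0x8923054671 .nil)))) .done .done) (.leaf 0x1298765430 2 (.leaf 0x4567892103 2 .done))) (.node 1 9 (.cons 0x5346780192 .nil) (.node 0 3 (.cons 0x4567890321 (.cons 0x5467890321 .nil)) (.node 1 7 (.cons 0x8903217645 (.cons 0x8091765324 (.cons 0x3245671980 .nil))) .done (.leaf 0x2914567803 0 (.leaf 0x1298765430 2 .done))) (.leaf 0x5467801923 4 (.leaf 0x5467801923 3 .done))) .done)) (.leaf 0x9876453210 2 (.leaf 0x9876453210 5 (.node 3 8 (.cons 0x6783541092 (.cons 0x5387641092 .nil)) (.node 2 6 (.cons 0x7835462901 .nil) (.node 1 7 (.cons 0x7109835624 (.cons 0x7109835642 .nil)) (.leaf 0x3871092645 5 (.node 2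 7 (.cons 0x6453872901 .nil) (.leaf 0x5389017246 1 .done) .done)) (.leaf 0x1453876290 1 .done)) (.node 0 5 (.cons 0x6789210543 (.cons 0x9054678321 (.cons 0x7645098321 .nil))) (.leaf 0x9876435012 3 .done) .done)) .done))))) (.node 3 6 (.cons 0x5436789210 .nil) (.node 0 3 (.cons 0x4567890321 .nil) (.node 0 6 .nil (.node 1 5 (.cons 0x1543298760 .nil) (.leaf 0x9215430678 3 (.node 3 7 (.cons 0x8901245673 (.cons 0x8906732154 .nil)) (.leaf 0x8921065437 2 (.node 1 8 (.cons 0x7324560981 (.cons 0x5423760981 (.cons 0x4518923760 .nil))) (.leaf 0x3781456092 3 (.leaf 0x7329065418 5 .done)) .done)) (.leaf 0x8923451067 3 (.leaf 0x2987603451 5 .done)))) (.node 0 5 (.cons 0x6789210543 .nil) (.node 6 8 (.cons 0x7689210345 .nil) (.node 2 6 .nil (.node 3 5 (.cons 0x7689210354 (.cons 0x8762901453 .nil)) (.node 1 7 (.cons 0x7103546892 (.cons 0x5346298710 (.cons 0x3546298710 .nil))) (.leaf 0x6453017892 4 .done) .done) .done) (.node 6 9 (.cons 0x8769210543 .nil) (.node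 1 6 .nil (.node 0 4 (.cons 0x7890456123 (.cons 0x5409876123 .nil)) (.node 1 9 (.cons 0x7891234065 (.cons 0x5678912340 .nil)) .done .done) (.node 2 6 .nil (.node 3 9 (.cons 0x8765412390 (.cons 0x7893456210 (.cons 0x8762934501 .nil))) (.node 4 8 (.cons 0x5678412390 (.cons 0x9348762105 .nil)) (.leaf 0x3921056784 2 .done) .done) .done) .done)) .done) .done)) (.leaf 0x2105436789 3 (.node 1 6 (.cons 0x1678923450 .nil) (.leaf 0x9234501678 2 (.node 2 6 .nil (.node 3 8 (.cons 0x9238761450 (.cons 0x9267834105 (.cons 0x5410926783 .nil))) (.leaf 0x2905416783 2 (.leaf 0x7614509238 2 .done)) .done) .done)) .done))) .done)) (.node 0 4 .nil (.node 3 5 (.cons 0x6789045321 .nil) (.leaf 0x1298763540 5 (.leaf 0x2356789041 6 (.leaf 0x2104536789 0 .done))) (.node 4 7 (.cons 0x6547890321 .nil) (.node 1 5 (.cons 0x6789045123 .nil) (.node 3 5 (.cons 0x6789045321 .nil) (.node 1 6 (.cons 0x8761453290 .nil) (.node 0 8 (.cons 0x6780923541 .nil) (.node 2 6 (.cons 0x1534762980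 .nil) (.leaf 0x9801534762 3 .done) (.leaf 0x7809235416 2 .done)) (.leaf 0x4098761235 2 .done)) .done) (.leaf 0x451236789 3 (.leaf 0x2367890451 6 .done))) .done) .done)) (.node 0 4 .nil (.node 1 5 (.cons 0x2309876451 .nil) (.node 1 9 (.cons 0x5678912340 .nil) (.leaf 0x7891230456 3 (.leaf 0x2198765403 6 .done)) (.leaf 0x451236789 3 (.leaf 0x7890321546 3 .done))) (.node 3 7 (.cons 0x6540987321 .nil) (.node 1 5 (.cons 0x2309876451 .nil) (.leaf 0x987321564 3 (.node 5 8 (.cons 0x9856734210 .nil) (.leaf 0x2463785109 0 (.node 0 6 (.cons 0x5892437601 .nil) (.leaf 0x8924376015 3 (.leaf 0x7329064158 0 .done)) (.leaf 0x6734210985 3 .done))) (.leaf 0x7890321546 3 .done))) (.node 1 6 (.cons 0x2378904561 .nil) (.node 1 5 (.cons 0x2309876451 .nil) (.node 0 6 (.cons 0x6015437892 .nil) (.node 0 2 (.cons 0x8920167345 .nil) (.node 0 7 (.cons 0x8709236451 .nil) .done .done) .done) (.leaf 0x7890321546 3 .done)) (.leaf 0x987321654 1 (.leaf 0x8904561237 2 .done)))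 .done)) .done)) (.leaf 0x1298765430 2 (.leaf 0x4567892103 2 .done))))) (.node 1 6 .nil (.node 0 5 (.cons 0x6789210543 (.cons 0x1678923450 .nil)) (.leaf 0x4501298763 2 (.leaf 0x2167890543 4 (.leaf 0x8923450167 3 .done))) (.node 6 9 .nil (.node 0 3 (.cons 0x4567890321 (.cons 0x8769210345 (.cons 0x7896543012 (.cons 0x8769032145 .nil)))) (.leaf 0x1298765430 2 (.leaf 0x4567892103 2 .done)) (.node 0 6 .nil (.node 3 7 (.cons 0x8901245673 .nil) (.leaf 0x4560129873 2 (.node 5 8 (.cons 0x7634589210 (.cons 0x9854210673 (.cons 0x3290678541 (.cons 0x3760985421 .nil)))) (.leaf 0x2376098541 3 .done) (.leaf 0x8921065437 2 (.node 1 8 (.cons 0x7324560981 (.cons 0x5423760981 (.cons 0x5429810673 .nil))) (.leaf 0x3781456092 3 .done) .done)))) (.node 0 3 (.cons 0x4567890321 .nil) (.node 0 2 (.cons 0x7896543021 .nil) (.node 1 7 (.cons 0x2178965430 .nil) (.leaf 0x1789654302 0 (.node 0 4 (.cons 0x3045698712 .nil) (.node 2 5 (.cons 0x6452987103 .nil) (.leaf 0x4630178925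 2 (.leaf 0x1254036987 6 (.leaf 0x4036987125 5 .done))) .done) .done)) .done) (.node 5 8 (.cons 0x7634589210 .nil) (.leaf 0x4123096785 5 (.leaf 0x1458769032 3 (.leaf 0x7690321458 6 (.node 1 3 (.cons 0x9213458760 .nil) (.node 3 9 (.cons 0x1293458760 .nil) (.leaf 0x2106785439 2 (.leaf 0x4587601293 2 .done)) .done) .done)))) (.leaf 0x1298765430 2 (.leaf 0x4567892103 2 .done)))) .done)) .done)) (.node 6 9 .nil (.node 0 3 (.cons 0x4567890321 (.cons 0x8769210345 (.cons 0x7896543012 (.cons 0x8769032145 .nil)))) (.leaf 0x1298765430 2 (.leaf 0x4567892103 2 .done)) (.node 3 9 (.cons 0x8765412390 .nil) (.node 0 6 (.cons 0x7893456012 .nil) (.node 2 6 (.cons 0x7893456210 .nil) .done .done) (.node 2 8 (.cons 0x1456782390 .nil) (.leaf 0x5410932876 5 (.leaf 0x4567823901 0 (.node 0 6 (.cons 0x5410678293 .nil) (.node 2 6 .nil (.node 0 3 (.cons 0x7654289301 (.cons 0x9301456287 (.cons 0x9876210345 .nil))) (.leaf 0x1298765430 2 .done) .done) .done) .done))) .done))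 (.node 4 9 .nil (.node 0 3 (.cons 0x4567890321 (.cons 0x8765490321 (.cons 0x7894561230 (.cons 0x5498761230 (.cons 0x5678943012 .nil))))) (.leaf 0x4567892103 2 .done) (.node 3 9 (.cons 0x8765412390 .nil) (.node 0 4 (.cons 0x5678934012 .nil) (.node 0 5 (.cons 0x4398765012 .nil) (.leaf 0x4501298763 2 (.node 4 8 (.cons 0x5678412390 .nil) (.leaf 0x9321487650 6 .done) (.leaf 0x1243987650 2 (.leaf 0x6789342105 2 .done)))) .done) (.node 2 8 (.cons 0x1456782390 .nil) (.leaf 0x5410932876 5 (.leaf 0x4567823901 0 (.node 0 4 .nil (.node 1 7 (.cons 0x3982456710 (.cons 0x5401763982 (.cons 0x5671042893 .nil))) .done (.node 2 5 (.cons 0x1678932540 .nil) (.leaf 0x7610452398 3 (.node 1 5 (.cons 0x2398761540 .nil) (.node 0 2 (.cons 0x5402398761 .nil) (.leaf 0x4516789320 6 (.leaf 0x3987615402 5 .done)) .done) .done)) .done)) .done))) .done)) .done)) .done))) .done))) (.node 0 5 (.cons 0x6789210543 .nil) (.leaf 0x7892105436 2 (.node 0 6 .nil (.node 3 8 (.cons 0x7654210983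 (.cons 0x9065412387 (.cons 0x9067832145 .nil))) (.node 3 7 (.cons 0x2456738901 .nil) (.leaf 0x4560129873 2 (.leaf 0x4210983765 2 .done)) .done) (.node 0 3 (.cons 0x4567890321 .nil) (.node 2 6 .nil (.node 1 7 (.cons 0x5462309871 (.cons 0x5462987103 .nil)) (.leaf 0x326541789 3 (.leaf 0x8710345629 2 .done)) (.node 6 8 (.cons 0x7689210543 .nil) (.node 1 6 (.cons 0x7890321654 .nil) (.node 6 9 (.cons 0x7896543012 .nil) .done .done) .done) .done)) (.node 1 5 (.cons 0x2309876451 .nil) (.node 2 6 (.cons 0x7890326451 .nil) (.node 6 8 (.cons 0x7689210543 .nil) (.node 3 7 (.cons 0x3789264510 .nil) (.leaf 0x4501298673 3 (.node 1 8 (.cons 0x3768145092 .nil) (.leaf 0x543762981 5 (.leaf 0x9267345018 6 (.leaf 0x9054186732 0 .done))) .done)) .done) .done) (.leaf 0x7890321546 3 .done)) (.leaf 0x4567892103 2 .done))) .done)) (.node 4 7 (.cons 0x4789056321 .nil) (.node 1 5 (.cons 0x2364789051 .nil) (.leaf 0x7890512364 0 (.leaf 0x8746321509 5 .done)) (.leaf 0x6509874123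 4 .done)) (.leaf 0x9876345012 1 .done)))) .done))) (.node 4 9 .nil (.node 3 8 (.cons 0x7654210983 (.cons 0x5678321490 .nil)) (.leaf 0x9456783210 1 (.leaf 0x9456783210 5 (.node 3 7 (.cons 0x2456738901 .nil) (.node 0 8 (.cons 0x9087654123 (.cons 0x6549087321 (.cons 0x5678094123 .nil))) (.node 1 8 (.cons 0x9018376542 (.cons 0x5673810942 .nil)) (.leaf 0x924567381 6 (.leaf 0x3765429018 5 .done)) .done) (.leaf 0x4210983765 2 (.leaf 0x2109837654 0 .done))) .done))) (.node 3 9 (.cons 0x8765412390 .nil) (.node 0 8 (.cons 0x7654398012 .nil) (.node 0 3 (.cons 0x4567890321 .nil) (.node 1 8 (.cons 0x5467812903 .nil) (.leaf 0x2309456781 4 (.node 1 9 .nil (.node 2 8 (.cons 0x7654398210 .nil) (.leaf 0x7654190328 4 .done) .done) (.leaf 0x8123094567 0 .done))) (.node 1 9 .nil (.node 0 4 (.cons 0x8765409123 .nil) (.leaf 0x7891230456 3 (.leaf 0x9876540321 4 .done)) (.node 0 4 (.cons 0x5678912340 .nil) (.node 0 5 (.cons 0x4321987650 .nil) (.leaf 0x9876504321 0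 (.leaf 0x9876504321 6 .done)) .done) .done)) (.leaf 0x1298765430 2 (.leaf 0x4567892103 2 .done)))) (.leaf 0x4123908765 4 (.leaf 0x2145678093 3 (.node 2 7 (.cons 0x8934567210 .nil) (.node 1 9 (.cons 0x8019345672 .nil) (.node 0 4 (.cons 0x5678912340 .nil) (.node 4 8 (.cons 0x8456721093 .nil) .done .done) .done) (.leaf 0x9345672108 5 (.leaf 0x9345672108 2 .done))) .done)))) (.node 0 4 (.cons 0x5678934012 .nil) (.node 4 8 (.cons 0x5678412390 .nil) (.node 0 5 (.cons 0x2390567841 .nil) (.node 4 7 .nil (.node 6 8 (.cons 0x1239478650 .nil) (.leaf 0x3921056874 2 (.leaf 0x5687493210 2 .done)) .done) (.leaf 0x3905678412 5 (.leaf 0x1243987650 2 (.leaf 0x6789342105 2 .done)))) .done) (.node 2 5 (.cons 0x4398765210 .nil) (.leaf 0x3987652104 2 (.leaf 0x8934012567 1 (.node 1 9 (.cons 0x8765239140 .nil) (.node 1 5 (.cons 0x8765140932 .nil) (.node 1 3 (.cons 0x4013987652 .nil) (.node 1 6 (.cons 0x9876132540 .nil) (.leaf 0x8761325409 3 (.node 1 8 (.cons 0x9325678140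 .nil) (.leaf 0x6781409325 3 .done) .done)) .done) .done) .done) .done))) .done)) (.node 2 8 (.cons 0x1456782390 .nil) (.leaf 0x5410932876 5 (.leaf 0x4567823901 0 (.node 2 7 .nil (.node 3 8 (.cons 0x7654210983 (.cons 0x6541093872 (.cons 0x8390142765 .nil))) (.leaf 0x1276543890 4 .done) (.node 2 6 .nil (.node 3 7 (.cons 0x8901245673 (.cons 0x5628739410 .nil)) (.leaf 0x2109873456 3 .done) (.node 0 2 .nil (.node 3 8 (.cons 0x6549012783 .nil) (.leaf 0x5412093876 5 (.leaf 0x4567839021 6 (.leaf 0x4567839021 0 .done))) (.node 2 5 .nil (.node 0 8 (.cons 0x2390876541 (.cons 0x6780932541 (.cons 0x7652439801 .nil))) (.leaf 0x7801439256 2 .done) .done) .done)) .done)) (.node 2 6 .nil (.node 0 5 (.cons 0x8934276501 (.cons 0x8762934501 (.cons 0x4398726501 (.cons 0x3498726501 .nil)))) (.leaf 0x562789341 0 .done) (.node 2 5 .nil (.node 0 6 (.cons 0x5601278943 (.cons 0x7825601493 (.cons 0x3498725601 .nil))) (.leaf 0x652789341 0 .done) (.node 0 2 .nil (.node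 1 3 (.cons 0x7826549310 (.cons 0x8720931465 (.cons 0x5467890213 .nil))) (.leaf 0x3102876549 0 (.leaf 0x298765431 2 .done)) .done) .done)) .done)) .done))) .done))) .done))) (.node 4 7 .nil (.node 3 6 (.cons 0x5436789210 .nil) (.node 0 3 (.cons 0x4567890321 (.cons 0x6547890321 .nil)) (.node 2 8 (.cons 0x9821034567 (.cons 0x9012874563 (.cons 0x9821034765 .nil))) (.node 3 9 (.cons 0x8765412390 (.cons 0x9365478210 .nil)) (.leaf 0x7456390128 6 .done) .done) (.node 3 8 (.cons 0x7654210983 (.cons 0x5674210983 .nil)) (.node 2 5 (.cons 0x3098764521 .nil) (.leaf 0x8749012563 5 (.leaf 0x7490125638 6 (.node 0 6 (.cons 0x9065412387 (.cons 0x7456098321 (.cons 0x5294783601 (.cons 0x9254783601 .nil)))) .done .done))) (.node 3 7 (.cons 0x2456738901 .nil) (.leaf 0x2109837654 0 .done) .done)) (.leaf 0x1298765430 2 (.leaf 0x4567892103 2 .done)))) (.leaf 0x9874563210 2 (.leaf 0x9874563210 1 (.node 3 8 (.cons 0x7654210983 (.cons 0x5674210983 .nil)) (.node 0 6 (.cons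 0x9065412387 (.cons 0x9065478321 (.cons 0x7456098321 .nil))) (.node 1 5 (.cons 0x2987634510 (.cons 0x9874321560 (.cons 0x7429836015 .nil))) (.leaf 0x3290651478 6 .done) .done) (.node 3 5 (.cons 0x8763541092 (.cons 0x6745389012 .nil)) (.node 2 6 (.cons 0x2678354901 .nil) (.leaf 0x5387621094 0 (.leaf 0x126745389 5 (.leaf 0x4762109835 5 .done))) (.node 0 6 (.cons 0x9067832145 (.cons 0x5476098321 (.cons 0x4789065321 .nil))) (.node 1 9 (.cons 0x7835460912 (.cons 0x8321906745 (.cons 0x8745609123 (.cons 0x5387460912 .nil)))) .done .done) .done)) .done)) .done)))) (.node 0 4 .nil (.node 3 9 (.cons 0x8765412390 (.cons 0x5678934012 .nil)) (.leaf 0x4567893210 1 (.leaf 0x4567893210 5 .done)) (.node 4 8 .nil (.node 3 7 (.cons 0x6540987321 .nil) (.node 3 9 (.cons 0x8765412390 (.cons 0x8456739012 (.cons 0x6548739012 (.cons 0x5678412390 .nil)))) .done (.leaf 0x9845673210 5 (.node 1 6 (.cons 0x2378904561 .nil) (.node 0 7 (.cons 0x2370984561 .nil) (.leaf 0x6548907321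 5 (.leaf 0x6548907321 1 (.leaf 0x6548907321 2 .done))) (.leaf 0x987321654 1 (.leaf 0x8904561237 2 .done))) .done))) .done) .done)) .done)) .done))) .done)))
noncomputable def uc9_7_12 : T := (.node 3 5 (.cons 0x6789012453 .nil) (.node 3 6 (.cons 0x8763541092 .nil) (.leaf 0x1098763542 5 (.leaf 0x1098763542 1 (.node 0 8 (.cons 0x9087654123 (.cons 0x9087653214 (.cons 0x6780923541 .nil))) (.leaf 0x9214536780 1 (.node 3 8 (.cons 0x6783541092 .nil) (.node 3 9 (.cons 0x8765412390 .nil) (.leaf 0x4123908765 4 (.leaf 0x5421093876 5 .done)) .done) .done)) .done))) (.node 3 6 (.cons 0x5436789210 (.cons 0x8763542901 .nil)) (.node 0 3 (.cons 0x4567890321 .nil) (.node 3 9 (.cons 0x8765412390 (.cons 0x5678934210 .nil)) (.leaf 0x4567893012 3 .done) (.node 1 6 (.cons 0x5423098761 .nil) (.node 0 5 (.cons 0x6789210543 (.cons 0x1678923450 .nil)) (.leaf 0x2167890543 4 (.leaf 0x8923450167 3 .done)) (.leaf 0x7890354216 6 (.leaf 0x4216789035 3 .done))) (.leaf 0x1298765430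 2 (.leaf 0x4567892103 2 .done)))) (.node 3 8 (.cons 0x9012453876 (.cons 0x6783542901 .nil)) (.node 0 6 (.cons 0x9210678345 (.cons 0x7601298345 .nil)) (.leaf 0x2906783541 5 (.leaf 0x8760921453 5 .done)) (.node 1 6 (.cons 0x8761092453 .nil) (.leaf 0x5429016783 2 (.node 6 9 (.cons 0x7832145690 .nil) (.leaf 0x5421096783 5 (.leaf 0x2453876901 1 .done)) (.leaf 0x5429016783 1 .done))) .done)) .done)) (.leaf 0x9012435678 0 (.leaf 0x8901243567 2 (.node 3 6 (.cons 0x5436789210 (.cons 0x8763542901 .nil)) (.leaf 0x9012453678 5 (.node 0 5 (.cons 0x6789210543 .nil) (.leaf 0x7892105436 2 (.leaf 0x536789241 0 (.node 1 6 (.cons 0x8761453290 (.cons 0x3542987610 .nil)) (.node 0 8 (.cons 0x6780923541 (.cons 0x9087653241 .nil)) (.leaf 0x4532908761 1 (.leaf 0x4532908761 2 .done)) .done) .done))) .done)) .done))))) (.node 4 6 .nil tc9_7_26 (.node 2 8 .nil tc9_7_25 .done)))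
theorem sub_c9_7_12 : root 9 refs9_7 [] 0x800000503807000000007060000000060500000000504000000004030800000030100500000102000000802013000000010 0xfed7fe7fff3fff9fffcffee7fff5ffd9fef9fff5 9 2 4 .nil uc9_7_12 = true := by decide +kernel
noncomputable def tc9_7_27 : T := (.leaf 0x5430129876 3 (.node 3 9 (.cons 0x8765412390 .nil) (.node 1 3 .nil (.node 2 4 (.cons 0x1324567890 .nil) (.leaf 0x5678903124 5 (.leaf 0x9876542310 2 (.leaf 0x9876542310 1 .done))) (.node 3 8 .nil (.node 0 6 (.cons 0x5439876012 (.cons 0x9210654387 (.cons 0x7832906541 .nil))) (.node 3 6 (.cons 0x7836541092 .nil) (.node 0 7 (.cons 0x9210783456 .nil) (.leaf 0x6541238907 3 (.leaf 0x2907836541 3 (.leaf 0x8365412907 6 .done))) .done) .done) (.node 3 7 (.cons 0x6543789210 .nil) (.node 3 6 .nil (.node 0 4 (.cons 0x9041238765 (.cons 0x7890456321 (.cons 0x5409876321 .nil))) (.node 1 5 (.cons 0x9041567832 .nil) (.leaf 0x4092387651 3 (.leaf 0x6783290415 0 .done)) .done) (.node 3 5 .nil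 (.node 2 4 (.cons 0x8736542901 (.cons 0x7653890124 (.cons 0x2453678901 .nil))) .done .done) .done)) (.node 3 6 (.cons 0x8736541092 .nil) (.node 3 5 .nil (.node 2 4 (.cons 0x8736542901 (.cons 0x7653890124 (.cons 0x6789012453 .nil))) .done .done) .done) .done)) (.node 3 5 .nil (.node 2 6 (.cons 0x5439876210 (.cons 0x8762109354 (.cons 0x7835629014 (.cons 0x4539876210 .nil)))) (.node 2 5 (.cons 0x6789345210 .nil) (.leaf 0x938762541 1 (.leaf 0x3901452678 2 .done)) .done) (.node 3 6 (.cons 0x7836541092 .nil) (.node 3 7 (.cons 0x6543789210 .nil) .done .done) .done)) .done))) (.node 3 7 (.cons 0x6543789210 .nil) (.node 3 6 .nil (.node 0 4 (.cons 0x7890456321 (.cons 0x5409876321 .nil)) (.leaf 0x2104563789 5 (.node 2 5 (.cons 0x6789345210 (.cons 0x8763901254 (.cons 0x7892563104 .nil))) (.leaf 0x3256789041 6 .done) .done)) (.node 3 8 (.cons 0x7836541092 .nil) (.node 3 5 .nil (.node 0 6 (.cons 0x5439876012 (.cons 0x7892106534 .nil)) (.node 7 9 (.cons 0x6541238790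 (.cons 0x8792106534 .nil)) (.leaf 0x9783214560 0 (.leaf 0x6543879210 4 .done)) .done) .done) .done) .done)) (.node 3 6 (.cons 0x8736541092 .nil) (.node 3 8 .nil (.node 0 7 (.cons 0x9210783456 .nil) (.leaf 0x6541238907 3 (.leaf 0x2907836541 3 (.leaf 0x3892107654 3 .done))) (.node 3 5 .nil (.node 0 6 (.cons 0x2987345601 (.cons 0x7892106534 .nil)) (.node 2 8 (.cons 0x4563782901 (.cons 0x9067823541 (.cons 0x6537829014 (.cons 0x9354106782 .nil)))) .done .done) .done) .done)) .done) .done)) .done))) (.node 2 4 (.cons 0x5678934210 .nil) (.node 0 5 (.cons 0x4398765012 .nil) (.node 2 5 (.cons 0x4398765210 .nil) (.node 0 6 (.cons 0x7892106543 .nil) (.node 2 6 .nil (.node 0 7 (.cons 0x8934210765 (.cons 0x3456298701 .nil)) (.leaf 0x8701265439 2 .done) (.node 0 8 (.cons 0x9087654123 .nil) (.node 7 9 (.cons 0x8976543012 .nil) (.node 5 8 (.cons 0x7658934210 .nil) (.node 1 3 (.cons 0x6297854310 .nil) (.leaf 0x8976013425 5 (.leaf 0x8976013425 2 .done)) (.leaf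 0x1034589762 0 .done)) (.leaf 0x6210879345 2 (.leaf 0x6210879345 5 .done))) (.leaf 0x9321456780 0 (.node 1 7 (.cons 0x5671089342 .nil) (.leaf 0x893425671 1 (.leaf 0x6710893425 2 (.node 3 6 (.cons 0x9236541780 .nil) (.leaf 0x4563290871 3 .done) .done))) .done))) .done)) (.node 4 6 .nil (.node 0 7 (.cons 0x8934210765 .nil) (.leaf 0x9870125643 3 (.leaf 0x1256439870 6 .done)) (.node 0 7 (.cons 0x8705643921 .nil) (.node 4 7 (.cons 0x8741065293 .nil) (.node 2 8 (.cons 0x4765289301 .nil) (.leaf 0x7410398256 2 (.node 6 8 (.cons 0x3925687410 .nil) (.leaf 0x5012934786 3 .done) .done)) .done) (.node 1 3 (.cons 0x5643129870 .nil) (.leaf 0x4650789213 5 (.leaf 0x2987056431 6 .done)) .done)) .done)) .done)) .done) (.leaf 0x1243987650 2 (.leaf 0x6789342105 2 .done))) (.node 3 6 (.cons 0x5421098763 .nil) (.node 3 5 (.cons 0x6789012453 .nil) (.node 0 6 (.cons 0x7892106543 .nil) (.node 4 7 (.cons 0x4789065321 .nil) (.node 1 3 (.cons 0x8745631092 .nil) (.node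 3 7 (.cons 0x6543789210 .nil) .done .done) (.leaf 0x5609874123 4 .done)) (.node 3 7 (.cons 0x6543789210 .nil) (.leaf 0x9873456012 5 (.node 0 5 (.cons 0x4398765012 .nil) (.node 0 2 (.cons 0x6543789201 .nil) (.node 0 4 (.cons 0x5678934012 .nil) (.node 0 8 (.cons 0x9087654123 .nil) (.leaf 0x9321456780 0 .done) .done) .done) .done) .done)) .done)) (.leaf 0x987635421 6 .done)) (.node 2 8 (.cons 0x7829014563 .nil) (.node 5 7 (.cons 0x9287563410 .nil) (.leaf 0x2875634109 3 (.node 0 2 (.cons 0x8756392014 .nil) (.node 2 7 (.cons 0x8729014563 .nil) .done .done) (.leaf 0x8290143657 5 (.node 4 7 (.cons 0x8290365741 .nil) (.node 0 4 (.cons 0x3657829041 .nil) (.node 1 5 (.cons 0x1542367890 .nil) (.leaf 0x367514289 0 (.leaf 0x3098241576 5 (.node 1 9 (.cons 0x4765198230 .nil) (.leaf 0x5198230476 2 (.leaf 0x3289156740 1 .done)) .done))) .done) .done) .done)))) (.node 0 4 (.cons 0x5678934012 .nil) (.node 0 5 (.cons 0x4398765012 .nil) (.node 0 6 (.cons 0x7892106543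 .nil) (.node 0 2 .nil (.node 1 9 (.cons 0x8763245091 (.cons 0x5436789102 .nil)) (.leaf 0x6543201987 1 .done) .done) .done) (.node 0 7 (.cons 0x8709236541 .nil) (.leaf 0x8293654107 5 (.leaf 0x2870145639 3 (.node 0 8 (.cons 0x7809236541 .nil) (.leaf 0x9321456780 0 .done) .done))) .done)) (.node 2 5 (.cons 0x4398765210 .nil) (.leaf 0x3987652104 2 (.leaf 0x3987652104 5 .done)) .done)) .done)) .done)) .done)) (.node 2 8 (.cons 0x1456782390 .nil) (.leaf 0x4567823901 6 (.leaf 0x4567823901 0 (.node 7 9 (.cons 0x8976543012 .nil) (.node 2 7 (.cons 0x4567289301 .nil) (.node 3 7 (.cons 0x6543789210 .nil) (.node 0 7 (.cons 0x6541078293 .nil) (.node 3 6 (.cons 0x7829365410 .nil) (.leaf 0x782936541 0 .done) .done) .done) (.leaf 0x8930145672 0 .done)) (.leaf 0x8210345679 0 (.node 3 8 (.cons 0x9765412830 .nil) (.node 5 9 .nil (.node 0 6 (.cons 0x3879065412 (.cons 0x2143879560 .nil)) (.leaf 0x4598760123 5 (.leaf 0x654123879 0 .done)) (.node 6 9 (.cons 0x7965412830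 .nil) (.node 0 6 (.cons 0x3879065412 .nil) (.node 3 6 (.cons 0x7829365410 .nil) .done (.leaf 0x654123879 0 .done)) .done) .done)) (.node 5 9 (.cons 0x6795412830 .nil) (.node 2 5 (.cons 0x6783901452 .nil) (.node 2 6 (.cons 0x7628395410 .nil) (.leaf 0x938762541 1 (.node 6 9 (.cons 0x9678345210 .nil) .done .done)) .done) .done) (.leaf 0x7654128309 3 .done))) .done))) .done))) .done))) (.node 0 8 (.cons 0x9087654123 .nil) (.node 3 9 (.cons 0x8765412390 .nil) (.leaf 0x4123908765 4 (.node 1 3 .nil (.node 2 4 (.cons 0x1324567890 .nil) (.leaf 0x5678903124 2 (.leaf 0x9876542310 2 (.leaf 0x9876542310 1 .done))) (.node 1 9 .nil (.node 3 5 (.cons 0x6780912354 (.cons 0x6780914532 .nil)) (.node 2 6 (.cons 0x5439876210 (.cons 0x8762109354 (.cons 0x4539876210 .nil))) (.leaf 0x1453908762 1 (.leaf 0x7809145326 4 .done)) .done) (.node 1 6 (.cons 0x7890321654 .nil) (.node 0 4 (.cons 0x5678912340 .nil) (.node 1 7 (.cons 0x8904567123 .nil) (.node 3 8 (.cons 0x7654098321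 .nil) (.leaf 0x2389045671 2 (.leaf 0x4098321765 1 .done)) .done) (.node 0 5 (.cons 0x4321987650 .nil) (.leaf 0x9876504321 0 (.leaf 0x9876504321 6 .done)) .done)) .done) .done)) (.node 3 8 .nil (.node 0 7 (.cons 0x9210783456 .nil) (.leaf 0x6541238907 3 (.leaf 0x3892107654 3 (.node 3 6 (.cons 0x7836541092 .nil) (.leaf 0x8365412907 6 (.leaf 0x5412907836 5 .done)) .done))) (.node 1 9 (.cons 0x2387654190 .nil) (.node 3 7 (.cons 0x6543789210 .nil) (.node 1 6 (.cons 0x7890321654 .nil) (.node 3 6 (.cons 0x7836541092 .nil) (.node 3 5 .nil (.node 0 4 (.cons 0x9804532167 (.cons 0x7619804532 .nil)) (.leaf 0x7653214098 3 .done) .done) .done) .done) .done) .done) .done)) .done))) (.leaf 0x9321456780 0 (.node 2 8 (.cons 0x1456782390 .nil) (.leaf 0x4567823901 0 (.node 3 8 .nil (.node 2 7 (.cons 0x9872103456 .nil) (.leaf 0x5672109834 3 (.leaf 0x4109382765 5 (.leaf 0x1276543890 6 .done))) (.node 2 5 (.cons 0x6780932541 .nil) (.node 1 6 (.cons 0x4523908761 .nil)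 (.leaf 0x932541678 1 (.node 2 6 (.cons 0x9345267801 .nil) (.node 6 9 (.cons 0x2543967801 .nil) (.node 1 9 (.cons 0x3452196780 .nil) (.leaf 0x4521967803 4 (.leaf 0x3452678019 1 .done)) .done) .done) (.leaf 0x3908761452 2 .done))) (.node 4 7 (.cons 0x9834765210 .nil) (.leaf 0x2109834765 5 (.leaf 0x1256743890 0 (.leaf 0x6528390147 5 .done))) .done)) .done)) .done)) .done)))) (.node 3 9 (.cons 0x8765412390 .nil) (.leaf 0x2145678093 3 (.node 3 8 .nil (.node 0 6 (.cons 0x5439876012 (.cons 0x9210654387 (.cons 0x7832906541 .nil))) (.node 7 9 (.cons 0x8790321456 (.cons 0x7921438065 .nil)) (.node 0 5 (.cons 0x6789345012 (.cons 0x6501297834 (.cons 0x6501438792 .nil))) .done (.leaf 0x5412387906 3 .done)) .done) (.node 3 5 (.cons 0x9087653214 .nil) (.node 3 7 (.cons 0x6543789210 .nil) (.node 3 6 (.cons 0x7836541092 .nil) (.node 1 3 .nil (.node 2 4 (.cons 0x9013876542 .nil) (.leaf 0x5678903124 2 (.leaf 0x9876542310 2 (.leaf 0x9876542310 1 .done))) .done)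 .done) .done) (.node 1 3 .nil (.node 2 4 (.cons 0x9801243567 .nil) (.leaf 0x9876542310 2 (.leaf 0x9876542310 1 .done)) (.node 3 6 (.cons 0x7836541092 .nil) (.node 3 7 (.cons 0x6543789210 .nil) .done .done) .done)) .done)) .done)) (.node 2 4 (.cons 0x5678934210 .nil) (.node 3 8 (.cons 0x7654210983 .nil) (.node 2 8 .nil (.node 0 4 (.cons 0x5678934012 (.cons 0x5678239041 .nil)) (.node 3 5 (.cons 0x6789045321 (.cons 0x4109356782 .nil)) (.leaf 0x6539014287 2 (.leaf 0x2140935678 3 .done)) .done) (.node 2 5 (.cons 0x4398765210 .nil) (.node 0 5 (.cons 0x4398765012 .nil) (.node 4 8 (.cons 0x9348765210 .nil) (.leaf 0x1256784390 1 (.leaf 0x3905678412 5 (.leaf 0x9321487650 6 .done))) (.leaf 0x6789342105 2 .done)) .done) .done)) (.node 3 7 (.cons 0x6543789210 .nil) (.node 3 5 (.cons 0x9087653214 .nil) (.node 3 6 (.cons 0x7836541092 .nil) .done .done) (.leaf 0x4210983765 2 .done)) .done)) (.node 0 5 (.cons 0x4398765012 .nil) (.node 3 5 (.cons 0x6789012453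 .nil) (.node 2 5 (.cons 0x4398765210 .nil) (.node 2 8 .nil (.node 4 7 (.cons 0x6547890321 (.cons 0x9082356741 (.cons 0x8214765390 .nil))) .done .done) .done) (.node 3 6 (.cons 0x2453678901 .nil) (.leaf 0x987635421 6 (.leaf 0x9012453678 5 .done)) .done)) (.leaf 0x9342105678 3 (.node 2 8 (.cons 0x9341056782 .nil) (.leaf 0x1056782934 4 .done) .done))) .done)) (.node 2 5 (.cons 0x9341087652 .nil) (.leaf 0x8014392567 3 (.node 2 4 (.cons 0x7652439801 .nil) (.node 3 5 (.cons 0x6789012453 .nil) (.node 4 9 (.cons 0x4908765321 .nil) (.leaf 0x6532149087 6 (.node 5 9 (.cons 0x9534210876 .nil) .done .done)) .done) .done) (.leaf 0x1087652934 4 .done))) .done)))) (.node 1 3 (.cons 0x9087654132 .nil) (.node 1 6 (.cons 0x7890321654 .nil) (.node 1 7 (.cons 0x6541780923 .nil) (.node 1 9 .nil (.node 0 5 (.cons 0x9234165087 (.cons 0x7805619234 (.cons 0x6719805432 .nil))) .done .done) (.node 3 6 (.cons 0x9236541780 .nil) (.leaf 0x2908714563 6 (.leaf 0x4563290871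 3 .done)) .done)) (.node 1 7 (.cons 0x6541780923 .nil) (.node 1 5 .nil (.node 0 6 (.cons 0x7892106543 (.cons 0x9234517806 (.cons 0x9806715432 (.cons 0x9234156087 .nil)))) .done (.node 1 8 .nil (.node 3 7 (.cons 0x6543789210 (.cons 0x6541873290 .nil)) (.leaf 0x814567329 3 (.leaf 0x1809237654 4 .done)) (.node 1 9 .nil (.node 0 7 (.cons 0x9870321654 .nil) (.node 6 8 (.cons 0x9210786543 (.cons 0x7086543192 .nil)) .done (.leaf 0x3219807654 6 .done)) .done) .done)) .done)) (.node 1 9 .nil (.node 0 2 (.cons 0x7654320891 (.cons 0x9143208765 .nil)) (.leaf 0x8765430219 2 (.leaf 0x7654302198 0 (.leaf 0x9802345671 3 .done))) (.node 3 5 (.cons 0x6780914532 .nil) (.node 4 6 (.cons 0x8764532190 .nil) (.leaf 0x923564178 4 (.leaf 0x2908714653 3 (.leaf 0x7645321908 6 .done))) (.node 3 9 (.cons 0x8765412390 .nil) (.node 2 5 (.cons 0x4398765210 .nil) (.leaf 0x8014392567 3 (.node 0 4 (.cons 0x9804325671 .nil) (.leaf 0x8917652340 6 (.leaf 0x9340125678 3 .done))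 (.leaf 0x1087652934 4 .done))) .done) .done)) .done)) .done)) .done)) (.leaf 0x2908765413 0 (.node 1 7 (.cons 0x6541780923 .nil) (.node 3 8 .nil (.node 0 7 (.cons 0x9210783456 .nil) (.leaf 0x6541238907 3 (.leaf 0x3892107654 3 .done)) (.node 1 9 .nil (.node 0 5 (.cons 0x9054123876 (.cons 0x6783219054 (.cons 0x6719805432 .nil))) .done (.node 0 7 (.cons 0x8912345670 .nil) (.node 3 7 (.cons 0x6543789210 .nil) (.node 3 9 (.cons 0x8765412390 .nil) .done .done) (.leaf 0x3219807654 6 .done)) .done)) .done)) (.node 1 6 (.cons 0x7890321654 .nil) (.node 3 6 (.cons 0x9236541780 .nil) (.leaf 0x2908714563 6 (.leaf 0x4563290871 3 .done)) .done) .done)) .done))) .done))) (.leaf 0x1298765430 6 (.node 5 9 (.cons 0x8765903214 .nil) (.node 3 9 (.cons 0x8765412390 .nil) (.node 2 5 (.cons 0x6789345210 .nil) (.node 4 9 (.cons 0x5678943012 .nil) (.node 0 6 (.cons 0x5439876012 .nil) (.node 1 9 .nil (.node 0 8 (.cons 0x9087654123 (.cons 0x9123456087 (.cons 0x7806543291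 .nil))) (.leaf 0x2349108765 0 .done) (.node 0 8 (.cons 0x1943256780 .nil) (.leaf 0x5234910876 2 (.leaf 0x2349108765 0 (.node 1 6 (.cons 0x4523908761 .nil) (.leaf 0x932541678 1 (.leaf 0x3908761452 2 .done)) .done))) .done)) (.leaf 0x1254398760 2 (.leaf 0x7893452106 2 .done))) (.leaf 0x2567894301 0 .done)) (.node 1 5 .nil (.node 4 6 (.cons 0x3987645210 (.cons 0x4678930152 (.cons 0x7892156430 .nil))) (.leaf 0x9301254678 2 .done) (.node 0 6 (.cons 0x5439876012 .nil) (.node 0 5 (.cons 0x6789345012 .nil) (.node 5 8 (.cons 0x6785412390 .nil) (.node 1 9 (.cons 0x2193458760 .nil) (.node 0 2 (.cons 0x9345876021 .nil) (.leaf 0x3205678914 2 (.leaf 0x6785439120 4 .done)) .done) .done) .done) (.node 5 8 (.cons 0x6785412390 .nil) (.leaf 0x9321458760 5 (.leaf 0x9321458760 2 .done)) (.leaf 0x9876012543 1 .done))) .done)) .done)) (.node 2 8 (.cons 0x1456782390 .nil) (.leaf 0x4567823901 6 (.leaf 0x4567823901 0 (.node 2 5 (.cons 0x9876521034 .nil) (.node 4 9 (.cons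 0x5678943012 .nil) (.node 4 8 (.cons 0x7659843012 .nil) (.node 2 7 (.cons 0x8276593014 .nil) (.node 3 7 (.cons 0x6543789210 .nil) (.node 2 6 (.cons 0x2654873901 .nil) (.leaf 0x7845621093 0 (.leaf 0x8739012654 5 .done)) .done) (.leaf 0x4895672103 0 .done)) (.leaf 0x3095678412 5 (.leaf 0x956784123 6 .done))) (.leaf 0x2567894301 0 .done)) .done) .done))) .done)) (.node 2 4 (.cons 0x8765903241 .nil) (.node 4 6 (.cons 0x7892103465 .nil) (.node 4 8 (.cons 0x2309567841 .nil) (.node 0 4 .nil (.node 3 9 (.cons 0x8765412390 .nil) (.leaf 0x4567893210 1 (.leaf 0x4567893210 2 .done)) (.node 4 9 (.cons 0x5678943012 .nil) (.node 4 7 .nil (.node 1 5 (.cons 0x2156789430 (.cons 0x8903215674 (.cons 0x2309874651 (.cons 0x1564789230 .nil)))) .done .done) .done) .done)) (.leaf 0x1230956784 0 (.leaf 0x7659032148 3 .done))) (.node 4 9 (.cons 0x5678943012 .nil) (.node 3 9 (.cons 0x8765412390 .nil) (.node 4 7 .nil (.node 5 8 (.cons 0x7856412903 (.cons 0x9032147856 (.cons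 0x4765893012 (.cons 0x3098567421 .nil)))) .done (.node 4 8 (.cons 0x2309567841 .nil) (.node 0 4 .nil (.node 0 8 (.cons 0x7654398012 .nil) (.leaf 0x4123908765 4 (.node 1 7 (.cons 0x8956710342 (.cons 0x8932176540 .nil)) (.leaf 0x4089321765 2 (.leaf 0x893217654 0 .done)) .done)) .done) .done) .done)) .done) .done) .done)) (.node 4 9 (.cons 0x5678943012 .nil) (.node 3 9 (.cons 0x8765412390 .nil) (.node 1 9 .nil (.node 0 2 (.cons 0x8765914320 .nil) (.leaf 0x8765430219 1 (.leaf 0x6789120345 5 (.leaf 0x6789120345 2 .done))) (.node 0 4 (.cons 0x5678912340 .nil) (.node 4 8 (.cons 0x2309567841 .nil) (.node 4 6 (.cons 0x7892103465 .nil) (.node 3 8 (.cons 0x7830921465 .nil) (.node 6 9 (.cons 0x7832145690 .nil) .done .done) .done) (.leaf 0x7659032148 3 .done)) (.node 0 5 (.cons 0x4321987650 .nil) (.leaf 0x9876504321 0 (.leaf 0x9876504321 6 (.leaf 0x8912340567 5 .done))) .done)) .done)) .done) (.node 4 7 .nil (.node 2 8 (.cons 0x5678214903 (.cons 0x6592874103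 .nil)) (.leaf 0x6743012895 4 .done) (.node 4 8 (.cons 0x2309567841 .nil) (.node 4 6 (.cons 0x7892103465 .nil) (.node 0 4 .nil (.node 2 8 (.cons 0x5678214903 (.cons 0x3287659041 (.cons 0x9567823041 .nil))) .done .done) .done) .done) .done)) .done)) .done)) (.node 0 8 (.cons 0x9567803412 .nil) (.node 4 8 (.cons 0x3095678412 .nil) (.leaf 0x1487659032 6 (.leaf 0x7659032148 5 (.node 4 6 (.cons 0x7892103465 .nil) (.node 5 7 (.cons 0x6578412903 .nil) (.node 6 9 (.cons 0x1296578430 .nil) (.leaf 0x7569210348 3 (.leaf 0x5784301296 5 .done)) (.node 3 7 (.cons 0x6543789210 .nil) (.node 6 9 (.cons 0x8734569210 .nil) (.leaf 0x3780129654 5 (.leaf 0x8096541237 3 .done)) (.node 0 6 (.cons 0x9806457321 .nil) (.leaf 0x8921065437 0 (.leaf 0x9873456012 5 .done)) (.leaf 0x5648921037 3 .done))) (.leaf 0x3012987564 3 .done))) (.node 3 6 (.cons 0x7841290365 .nil) (.node 1 7 (.cons 0x3654871290 .nil) (.leaf 0x9217845630 3 (.node 0 4 (.cons 0x8712956340 .nil) (.node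 0 6 (.cons 0x7892106543 .nil) .done (.leaf 0x9217804365 0 .done)) (.leaf 0x8712903654 6 .done))) (.node 5 7 (.cons 0x2987564301 .nil) (.leaf 0x921487563 4 (.leaf 0x8921034657 3 (.leaf 0x921487563 3 .done))) .done)) .done)) .done))) (.leaf 0x3412956780 4 (.leaf 0x8034129567 0 .done))) .done))) (.leaf 0x4567892103 5 .done))))))
noncomputable def uc9_7_13 : T := tc9_7_27
theorem sub_c9_7_13 : root 9 refs9_7 [] 0x800000603807000000007060000000060500000000504000000004030800000030100600000102000000802013000000010 0xfeb7fe7fff3fff9fffcffee7fff5ffb9fef9fff5 9 0 3 (.cons 0x4567890321 .nil) uc9_7_13 = true := by decide +kernel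
noncomputable def tc9_7_28 : T := (.node 3 6 (.cons 0x5421098763 .nil) (.node 3 5 (.cons 0x6789012453 .nil) (.node 3 8 (.cons 0x7654389210 (.cons 0x6745389012 (.cons 0x5674389210 .nil))) (.leaf 0x1098356742 4 (.leaf 0x3890124765 0 .done)) (.node 0 6 (.cons 0x4789065321 .nil) (.leaf 0x1065347892 2 (.leaf 0x5321478906 4 (.leaf 0x4356012987 1 .done))) (.leaf 0x987635421 6 .done))) (.leaf 0x9874563210 2 (.leaf 0x9874563210 1 (.node 3 8 (.cons 0x7654389210 (.cons 0x5674389210 .nil)) (.node 0 6 (.cons 0x9065412387 (.cons 0x9065478321 (.cons 0x7456098321 (.cons 0x7438921065 .nil)))) .done (.node 0 5 (.cons 0x9054123876 (.cons 0x6745098321 .nil)) (.node 6 9 (.cons 0x5412387690 (.cons 0x8347692105 .nil)) (.leaf 0x5438769210 4 .done) (.leaf 0x1298367450 0 (.leaf 0x9834765012 2 .done))) .done)) .done)))) (.node 0 7 (.cons 0x8921076543 .nil) (.node 3 8 (.cons 0x7654389210 .nil) (.node 4 8 .nil (.node 3 7 (.cons 0x5673489210 .nil) (.leaf 0x9845673210 2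 (.leaf 0x9845673210 1 .done)) (.node 4 9 (.cons 0x6549078321 .nil) (.node 3 7 (.cons 0x6548370921 .nil) (.node 1 6 (.cons 0x8329074561 .nil) (.leaf 0x738456129 2 (.leaf 0x2387094561 2 (.leaf 0x7384561290 0 .done))) (.node 0 4 (.cons 0x8921043765 .nil) (.node 4 6 (.cons 0x5648370921 .nil) .done .done) .done)) .done) .done)) (.leaf 0x7012983456 0 (.leaf 0x6701298345 2 (.node 0 2 (.cons 0x7654389201 .nil) (.node 1 7 (.cons 0x2983456710 .nil) (.node 6 9 (.cons 0x7832096541 .nil) (.node 1 9 (.cons 0x2387654190 .nil) (.node 1 6 (.cons 0x3209874561 .nil) (.leaf 0x3870916542 2 (.leaf 0x7832456190 1 .done)) .done) (.leaf 0x8320965417 0 (.leaf 0x8714569023 6 .done))) (.leaf 0x3892017654 4 (.leaf 0x9834567102 3 .done))) (.node 1 5 (.cons 0x8920156743 .nil) (.node 2 7 (.cons 0x6724510983 .nil) (.node 2 8 (.cons 0x9283456701 .nil) (.node 4 8 (.cons 0x3209847651 .nil) (.node 3 7 (.cons 0x9843765120 .nil) (.leaf 0x1209843765 5 (.leaf 0x1092837654 4 .done))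 .done) .done) .done) (.leaf 0x298347651 1 (.node 4 9 (.cons 0x9415678320 .nil) (.node 1 6 (.cons 0x2387094561 .nil) (.node 5 7 (.cons 0x1675423890 .nil) (.leaf 0x941657832 4 .done) (.leaf 0x7094561238 1 .done)) (.leaf 0x8765149023 4 .done)) .done))) .done)) .done)))) (.node 0 8 (.cons 0x9087654123 .nil) (.node 3 7 (.cons 0x9087321456 .nil) (.node 6 9 (.cons 0x4569087321 .nil) (.leaf 0x3780129654 2 (.leaf 0x8096541237 3 (.node 4 9 (.cons 0x6549087321 .nil) (.node 1 6 (.cons 0x8732165490 .nil) (.leaf 0x5612378094 2 (.leaf 0x7321654908 1 (.node 3 5 (.cons 0x6123549870 .nil) (.node 1 8 (.cons 0x7345692180 .nil) (.leaf 0x5376908124 5 (.leaf 0x3769081245 6 .done)) (.leaf 0x2453780961 5 (.leaf 0x8735421690 5 .done))) .done))) .done) .done))) (.node 0 4 (.cons 0x8921043765 .nil) (.node 5 8 (.cons 0x4376589210 .nil) (.leaf 0x8567340129 0 (.leaf 0x6734012985 4 (.leaf 0x2376589041 0 .done))) .done) .done)) (.node 1 5 (.cons 0x1567432980 .nil) (.node 0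 2 (.cons 0x9802347651 .nil) (.node 1 9 (.cons 0x2347651980 .nil) (.leaf 0x3476519802 5 (.leaf 0x3476519802 1 (.node 0 3 (.cons 0x4567890321 .nil) (.node 0 4 (.cons 0x5678912340 .nil) (.node 0 5 (.cons 0x4321987650 .nil) (.leaf 0x8912340567 3 .done) .done) (.leaf 0x1034567892 2 (.leaf 0x6543012987 1 .done))) .done))) (.node 1 9 (.cons 0x2347651980 .nil) (.node 4 9 (.cons 0x7651234980 .nil) (.node 0 4 (.cons 0x9804321567 .nil) (.node 4 6 (.cons 0x8907645123 .nil) .done .done) .done) (.leaf 0x8023476519 2 (.leaf 0x5674320891 2 .done))) .done)) (.leaf 0x4329801567 2 (.node 1 7 .nil (.node 0 4 (.cons 0x3298047651 (.cons 0x8904567123 (.cons 0x6540987123 .nil))) .done (.node 1 6 .nil (.node 5 8 (.cons 0x3290856741 (.cons 0x7416580923 (.cons 0x8541670923 (.cons 0x3458921670 .nil)))) .done (.node 5 9 (.cons 0x8954321670 .nil) (.node 4 6 (.cons 0x7809564123 .nil) (.node 4 9 (.cons 0x5678094123 .nil) .done .done) (.leaf 0x7612345980 3 (.leaf 0x7612345980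 4 .done))) .done)) .done)) .done))) (.node 1 7 (.cons 0x1765432980 .nil) (.leaf 0x3298017654 0 (.node 3 8 (.cons 0x7654389210 .nil) (.node 6 9 (.cons 0x7145692380 .nil) (.node 1 6 (.cons 0x5432980761 .nil) (.node 0 6 (.cons 0x9238065417 .nil) (.node 1 9 (.cons 0x8329174560 .nil) (.leaf 0x7456083291 0 (.leaf 0x4783219065 0 .done)) .done) .done) (.leaf 0x8321456907 3 (.leaf 0x8071456923 2 .done))) (.node 1 3 (.cons 0x4567132980 .nil) (.node 1 5 (.cons 0x6708923451 .nil) (.node 1 6 (.cons 0x5432980761 .nil) (.node 1 8 (.cons 0x7654180923 .nil) .done .done) .done) (.leaf 0x3145678092 0 (.node 2 5 (.cons 0x8925674310 .nil) (.leaf 0x6743108925 2 (.leaf 0x9801347652 2 (.node 0 4 (.cons 0x3298045671 .nil) (.leaf 0x3176540892 0 (.leaf 0x1389256740 2 .done)) .done))) .done))) (.leaf 0x1298345670 1 .done))) .done)) .done))) (.node 4 8 (.cons 0x5670129843 .nil) (.node 3 8 (.cons 0x7654389210 .nil) (.leaf 0x1298345670 4 (.node 0 4 (.cons 0x9041238765 .nil)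 (.node 2 8 (.cons 0x5674109283 .nil) (.node 2 7 (.cons 0x9834012765 .nil) (.node 0 2 (.cons 0x5674389201 .nil) (.node 2 5 (.cons 0x9834012567 .nil) .done .done) .done) .done) .done) (.node 1 8 (.cons 0x7654183290 .nil) (.leaf 0x9238145670 4 (.node 0 5 (.cons 0x1892347650 .nil) (.leaf 0x2905674183 3 (.node 0 4 (.cons 0x9812340567 .nil) .done (.leaf 0x4329810567 2 (.leaf 0x3298105674 0 .done)))) (.leaf 0x1832907654 0 .done))) .done))) (.node 4 9 .nil (.node 1 5 (.cons 0x3489215670 (.cons 0x8943215670 (.cons 0x6512349870 .nil))) (.node 3 8 (.cons 0x7654389210 (.cons 0x5678321490 (.cons 0x8329415670 .nil))) (.leaf 0x9456783210 1 (.leaf 0x9456783210 5 .done)) .done) (.node 0 4 .nil (.node 3 5 (.cons 0x1298435670 .nil) (.leaf 0x6701298435 3 (.leaf 0x2356789041 6 (.leaf 0x1043567892 1 (.leaf 0x6534012987 2 .done)))) (.node 4 6 .nil (.node 0 3 (.cons 0x4567890321 (.cons 0x5467890321 .nil)) (.node 1 5 (.cons 0x3489215670 (.cons 0x3215649870 .nil)) (.leaf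 0x2154678903 2 (.leaf 0x2156498703 6 .done)) (.leaf 0x1034567892 2 (.leaf 0x6543012987 1 .done))) .done) .done)) .done)) .done)) .done))) (.node 4 9 .nil (.node 3 8 (.cons 0x7654389210 (.cons 0x5678321490 .nil)) (.leaf 0x9456783210 1 (.leaf 0x9456783210 5 (.node 0 2 (.cons 0x7654389201 (.cons 0x5678320941 .nil)) (.node 1 9 (.cons 0x5678349102 .nil) (.leaf 0x8765491023 2 (.leaf 0x8765491023 5 .done)) (.node 1 7 (.cons 0x2983456710 .nil) (.node 6 9 (.cons 0x7832096541 .nil) (.node 0 5 (.cons 0x3478965021 .nil) (.leaf 0x4987650123 2 (.leaf 0x4987650123 5 (.leaf 0x7149650238 0 .done))) (.leaf 0x8320965417 0 (.leaf 0x8714569023 6 .done))) (.leaf 0x3892017654 4 (.leaf 0x9834567102 3 .done))) .done)) .done))) (.node 4 8 .nil (.node 3 7 (.cons 0x5673489210 .nil) (.leaf 0x9845673210 2 (.node 0 3 (.cons 0x4567890321 (.cons 0x7654890321 (.cons 0x9032148765 .nil))) (.leaf 0x1034567892 2 (.node 1 8 (.cons 0x1845673290 .nil) (.leaf 0x7654810923 0 (.leaf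 0x7329018456 6 (.leaf 0x6732901845 5 (.leaf 0x4812903765 6 .done)))) (.leaf 0x6543012987 1 .done))) (.leaf 0x9845673210 1 (.node 0 3 (.cons 0x4567890321 (.cons 0x7654890321 (.cons 0x9032148765 .nil))) (.node 1 8 (.cons 0x5674812903 .nil) (.leaf 0x7654810923 0 (.leaf 0x7329018456 6 (.leaf 0x8123094567 0 .done))) (.leaf 0x1034567892 2 (.leaf 0x9845673012 4 .done))) .done)))) (.node 0 4 .nil (.node 3 9 (.cons 0x8765412390 (.cons 0x5678934012 .nil)) (.leaf 0x4567893210 2 (.node 2 8 (.cons 0x1456782390 (.cons 0x5678239041 .nil)) (.leaf 0x5410932876 5 (.node 3 7 (.cons 0x8293765410 (.cons 0x8293765401 (.cons 0x8921043765 .nil))) (.leaf 0x4012893765 5 .done) .done)) .done)) (.node 4 6 .nil (.node 0 3 (.cons 0x4567890321 (.cons 0x5467890321 .nil)) (.node 1 8 (.cons 0x7654098123 (.cons 0x9032187645 (.cons 0x7812309465 .nil))) (.node 3 5 (.cons 0x6789012453 .nil) (.leaf 0x9876453210 2 (.leaf 0x9876453210 5 (.leaf 0x4653092187 3 .done))) (.leaf 0x8123094567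 0 .done)) (.leaf 0x1034567892 2 (.node 1 5 (.cons 0x8921567430 (.cons 0x3098746512 (.cons 0x7894651230 .nil))) (.node 5 7 (.cons 0x6578943012 (.cons 0x8756490321 (.cons 0x8903246751 .nil))) (.leaf 0x1034657892 5 .done) .done) (.leaf 0x6543012987 1 .done)))) .done) .done)) .done)) (.node 4 8 .nil (.node 0 3 (.cons 0x4567890321 (.cons 0x7654890321 (.cons 0x9032148765 .nil))) (.node 1 8 (.cons 0x5674812903 .nil) (.leaf 0x5490321876 2 (.leaf 0x4903218765 0 (.node 0 7 (.cons 0x8921076543 (.cons 0x5670329481 (.cons 0x9230765481 .nil))) (.node 1 5 (.cons 0x8154923076 (.cons 0x6709845123 .nil)) (.leaf 0x8490321567 2 .done) .done) .done))) (.leaf 0x1034567892 2 (.node 3 7 (.cons 0x5673489210 .nil) (.leaf 0x9845673210 2 (.node 1 8 (.cons 0x1845673290 .nil) (.leaf 0x7654810923 0 (.leaf 0x7329018456 6 (.leaf 0x6732901845 5 (.leaf 0x4812903765 6 .done)))) (.leaf 0x9845673012 4 .done))) (.leaf 0x6543012987 1 .done)))) (.node 0 4 .nil (.node 3 9 (.cons 0x8765412390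 (.cons 0x5678934012 .nil)) (.leaf 0x4567893210 5 (.leaf 0x4567893210 2 .done)) (.node 4 6 .nil (.node 0 3 (.cons 0x4567890321 (.cons 0x5467890321 .nil)) (.node 3 5 (.cons 0x6789012453 .nil) (.leaf 0x9876453210 2 (.leaf 0x9876453210 5 (.node 3 6 (.cons 0x2453678901 .nil) (.leaf 0x9012453678 5 (.node 5 7 (.cons 0x7563489210 .nil) (.leaf 0x124635789 2 (.leaf 0x1246357890 0 .done)) .done)) .done))) (.leaf 0x1034567892 2 (.node 5 8 (.cons 0x1298567430 .nil) (.leaf 0x2985674301 3 (.leaf 0x6743012985 6 (.node 3 8 (.cons 0x7654389210 (.cons 0x7641290385 .nil)) (.leaf 0x1290385674 0 .done) .done))) (.leaf 0x6543012987 1 .done)))) .done) .done)) .done)) .done))) .done)))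
noncomputable def tc9_7_29 : T := (.node 3 9 (.cons 0x8765412390 (.cons 0x6789345210 (.cons 0x4398765210 .nil))) (.node 0 6 (.cons 0x7893456012 .nil) (.node 0 7 (.cons 0x6543987012 (.cons 0x6521078934 .nil)) (.node 1 6 (.cons 0x6107893452 .nil) (.leaf 0x4398706125 5 (.node 2 6 (.cons 0x7893456210 .nil) (.leaf 0x3987016254 5 (.leaf 0x9870126543 3 .done)) (.leaf 0x3987061254 6 (.leaf 0x3452160789 0 .done)))) (.node 2 6 (.cons 0x7893456210 .nil) (.leaf 0x3987012654 1 (.leaf 0x8934562107 5 .done)) .done)) (.node 3 8 (.cons 0x7654389210 (.cons 0x9834521067 .nil)) (.node 0 4 (.cons 0x9041238765 (.cons 0x7652983401 .nil)) (.leaf 0x4012567893 0 .done) (.node 1 9 (.cons 0x2387654190 (.cons 0x6783254190 .nil)) (.node 0 3 (.cons 0x4567890321 (.cons 0x9876521034 .nil)) (.leaf 0x8765241903 6 (.leaf 0x1903876524 3 .done)) .done) .done)) (.leaf 0x4521067893 0 (.leaf 0x5439876012 5 .done)))) (.node 3 8 (.cons 0x7654389210 (.cons 0x6783901452 (.cons 0x4109387652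 .nil))) (.node 2 6 (.cons 0x7839014562 .nil) (.leaf 0x9014526783 5 (.leaf 0x1093876254 1 (.node 0 7 (.cons 0x9387014562 (.cons 0x9387014526 (.cons 0x6524398701 .nil))) (.leaf 0x5629387014 5 (.leaf 0x9834567012 2 .done)) .done))) .done) .done)) (.node 0 2 .nil (.node 1 9 (.cons 0x1987654320 .nil) (.node 0 8 (.cons 0x9087654123 .nil) (.leaf 0x5432190876 2 (.leaf 0x4321908765 0 (.node 5 9 (.cons 0x2341956780 (.cons 0x9567802143 .nil)) (.leaf 0x8023419567 2 .done) (.node 0 7 (.cons 0x8076543291 .nil) (.leaf 0x4321980765 5 (.leaf 0x3219807654 6 .done)) .done)))) (.leaf 0x4567891023 5 (.leaf 0x4567891023 2 (.node 0 5 (.cons 0x4320567891 .nil) (.leaf 0x3205678914 5 (.node 1 3 (.cons 0x4567890231 .nil) (.leaf 0x4567892013 1 (.node 3 5 (.cons 0x4356789102 .nil) (.node 0 8 (.cons 0x9087653214 (.cons 0x4190876532 .nil)) (.leaf 0x9142356780 3 .done) .done) (.leaf 0x134567892 2 (.leaf 0x7890213456 3 .done)))) .done)) .done)))) (.node 0 4 .nil (.node 3 5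 (.cons 0x6789045321 .nil) (.leaf 0x7653214098 3 (.leaf 0x2356789041 6 (.leaf 0x1043567892 1 (.leaf 0x6534012987 2 .done)))) (.node 0 3 (.cons 0x4567890321 .nil) (.node 0 7 (.cons 0x8921076543 .nil) (.node 3 7 (.cons 0x8904567321 .nil) (.node 0 6 (.cons 0x8921067345 .nil) (.node 0 5 (.cons 0x8921054376 .nil) (.node 0 8 (.cons 0x9087654123 .nil) .done .done) .done) (.node 3 8 (.cons 0x7654389210 .nil) (.node 0 6 (.cons 0x9065412387 .nil) (.node 0 8 (.cons 0x8092376541 .nil) .done .done) (.leaf 0x1298345670 4 (.node 2 8 (.cons 0x8290145673 .nil) (.leaf 0x1456738290 2 .done) .done))) .done)) (.node 3 7 (.cons 0x8904567321 .nil) (.node 0 6 (.cons 0x8921067345 .nil) (.node 0 5 (.cons 0x8921054376 .nil) (.node 0 8 (.cons 0x9087654123 .nil) .done .done) .done) (.node 5 8 (.cons 0x4376589210 .nil) (.leaf 0x3214098567 5 (.leaf 0x8567340129 0 (.leaf 0x6734012985 4 (.leaf 0x2376589041 0 .done)))) .done)) .done)) (.leaf 0x1034567892 2 (.node 0 8 (.cons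 0x9087654123 .nil) (.node 3 8 (.cons 0x7654389210 .nil) (.node 0 5 (.cons 0x9054123876 .nil) (.node 0 7 (.cons 0x8921076543 .nil) (.leaf 0x7012983456 0 .done) .done) (.node 1 7 (.cons 0x2983456710 .nil) (.leaf 0x4098321765 1 (.leaf 0x9045671238 5 (.node 1 9 (.cons 0x2389176540 .nil) (.leaf 0x8320456719 5 (.node 0 5 (.cons 0x6789123450 .nil) (.node 0 6 (.cons 0x5432198760 .nil) (.leaf 0x1234506789 0 .done) .done) (.leaf 0x3891765402 3 .done))) .done))) .done)) (.node 0 7 (.cons 0x8921076543 .nil) (.node 0 6 .nil (.node 1 9 (.cons 0x8076543291 (.cons 0x7891234560 (.cons 0x5432198760 .nil))) (.leaf 0x6543219870 2 .done) .done) .done) .done)) (.leaf 0x6543012987 1 .done)))) (.node 0 7 (.cons 0x8921076543 .nil) (.node 3 8 (.cons 0x7654389210 .nil) (.node 0 8 (.cons 0x9087654123 .nil) (.node 0 3 (.cons 0x4567890321 .nil) (.node 0 6 (.cons 0x9065412387 .nil) .done .done) .done) (.leaf 0x7012983456 0 (.leaf 0x6701298345 2 (.node 3 7 (.cons 0x8376541092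 .nil) (.node 4 7 .nil (.node 0 5 (.cons 0x8921054376 .nil) (.leaf 0x4765012983 4 (.node 0 8 (.cons 0x9087654123 (.cons 0x9256743801 .nil)) .done .done)) (.node 4 6 (.cons 0x8376452901 .nil) (.node 0 6 (.cons 0x8921067345 .nil) (.node 1 6 (.cons 0x9078324561 .nil) (.node 2 6 (.cons 0x8376290145 .nil) .done .done) .done) .done) .done)) (.node 0 3 (.cons 0x4567890321 .nil) (.node 3 6 (.cons 0x7890124563 .nil) (.leaf 0x2109873654 4 .done) (.leaf 0x1034567892 2 .done)) .done)) .done)))) (.node 0 8 (.cons 0x9087654123 .nil) (.node 3 8 (.cons 0x7654389210 .nil) (.leaf 0x1298345670 4 (.node 0 5 (.cons 0x9056783214 .nil) (.node 1 5 (.cons 0x8923407651 .nil) (.leaf 0x4092387651 5 (.leaf 0x6783290415 6 .done)) .done) (.node 1 8 (.cons 0x7654183290 .nil) (.leaf 0x9238145670 4 (.node 1 9 (.cons 0x9187652340 .nil) (.leaf 0x2567819043 5 (.leaf 0x2567819043 2 .done)) (.leaf 0x1832907654 0 .done))) .done))) .done) .done)) .done))) (.node 2 6 .nil (.node 3 9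 (.cons 0x8765412390 (.cons 0x7893456210 (.cons 0x5439876210 .nil))) (.node 0 7 (.cons 0x8921076543 (.cons 0x5624398701 .nil)) (.leaf 0x1265439870 1 (.leaf 0x8701265439 2 .done)) (.node 3 8 (.cons 0x7654389210 (.cons 0x7839014562 (.cons 0x4526783901 (.cons 0x7839014265 .nil)))) .done .done)) (.node 2 7 .nil (.node 3 8 (.cons 0x7654389210 .nil) (.leaf 0x1276543890 3 (.leaf 0x1276543890 4 (.node 0 5 (.cons 0x9056783214 (.cons 0x4389276501 .nil)) (.leaf 0x567298341 0 (.node 4 6 (.cons 0x9056412387 (.cons 0x9834650127 (.cons 0x7298346501 (.cons 0x9056412783 .nil)))) .done .done)) (.node 5 9 (.cons 0x9567834102 .nil) (.leaf 0x2014389567 5 (.node 1 6 (.cons 0x7895610243 (.cons 0x7245610983 (.cons 0x3427895610 .nil))) .done (.leaf 0x4387659201 3 .done))) .done)))) (.node 2 8 .nil (.node 0 3 (.cons 0x4567890321 (.cons 0x9821034567 (.cons 0x9032876541 .nil))) (.node 1 9 (.cons 0x3287654190 .nil) (.leaf 0x5678219034 1 (.leaf 0x2876541903 3 (.leaf 0x2876541903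 4 (.leaf 0x6543019287 2 .done)))) (.leaf 0x1034567892 2 (.node 5 9 (.cons 0x6789543012 (.cons 0x6782309541 (.cons 0x6782145903 .nil))) (.leaf 0x4301267895 0 .done) .done))) .done) .done)) .done)) .done))) (.node 2 8 .nil (.node 3 9 (.cons 0x8765412390 (.cons 0x1456782390 .nil)) (.leaf 0x4567823901 3 (.node 0 3 (.cons 0x4567890321 (.cons 0x9821034567 (.cons 0x9032876541 .nil))) (.node 1 9 (.cons 0x3287654190 .nil) (.leaf 0x5678219034 1 (.leaf 0x2876541903 3 (.leaf 0x6543019287 2 .done))) (.leaf 0x1034567892 2 (.node 4 9 (.cons 0x5678943012 (.cons 0x5678230941 (.cons 0x5678214903 .nil))) .done .done))) (.node 0 5 (.cons 0x4398765012 (.cons 0x7650128934 (.cons 0x9341056782 .nil))) (.node 0 3 (.cons 0x4567890321 (.cons 0x9821034567 (.cons 0x9032876541 .nil))) (.leaf 0x1034567892 2 (.node 6 9 (.cons 0x8769032145 (.cons 0x7824396501 (.cons 0x5412876903 .nil))) .done .done)) (.leaf 0x1439287650 1 .done)) .done))) (.node 3 8 (.cons 0x7654389210 .nil)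 (.node 0 8 (.cons 0x9087654123 .nil) (.node 0 7 (.cons 0x8921076543 .nil) (.node 0 2 .nil (.node 6 9 (.cons 0x7832145690 (.cons 0x7832096541 (.cons 0x9654387021 .nil))) (.leaf 0x3870129654 2 .done) .done) (.node 5 8 (.cons 0x6701298543 .nil) (.node 1 7 (.cons 0x9234176580 .nil) (.leaf 0x1765809234 0 (.node 1 8 .nil (.node 1 6 (.cons 0x8541670923 .nil) (.leaf 0x5816709234 3 (.leaf 0x7618543290 6 .done)) .done) .done)) (.node 5 9 (.cons 0x6708592143 .nil) (.node 3 6 (.cons 0x1298543670 .nil) (.leaf 0x2958076341 2 (.node 0 2 (.cons 0x9854367021 .nil) (.node 0 3 (.cons 0x4567890321 .nil) (.leaf 0x6543012987 1 .done) .done) (.leaf 0x7012985436 2 (.leaf 0x9580763412 0 .done)))) (.node 1 6 (.cons 0x3458921670 .nil) (.leaf 0x761432958 3 (.leaf 0x4329580761 6 (.leaf 0x7085923416 5 .done))) .done)) .done)) (.leaf 0x9834567012 2 .done))) (.node 1 7 (.cons 0x1765432980 .nil) (.leaf 0x4329801765 2 (.leaf 0x3298017654 0 (.node 1 8 (.cons 0x7654180923 .nil)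 (.node 2 7 (.cons 0x3456729801 .nil) (.node 3 7 (.cons 0x8092376541 .nil) (.leaf 0x923765418 1 (.node 0 7 (.cons 0x8921076543 .nil) (.node 6 9 (.cons 0x5698734210 .nil) (.leaf 0x2710834569 2 (.leaf 0x7834569012 3 (.leaf 0x8071456923 2 .done))) .done) (.leaf 0x6732908145 2 .done))) (.node 1 3 (.cons 0x4567132980 .nil) (.leaf 0x3108927654 0 (.leaf 0x892765431 4 .done)) .done)) .done) .done))) .done)) (.node 0 7 (.cons 0x8921076543 .nil) (.leaf 0x6701298345 2 (.leaf 0x1298345670 1 (.node 0 2 .nil (.node 5 9 (.cons 0x4123876590 (.cons 0x9567834102 (.cons 0x9567834120 .nil))) (.leaf 0x8341209567 2 .done) (.node 2 7 .nil (.node 0 5 (.cons 0x9056783214 (.cons 0x4389276501 .nil)) (.leaf 0x567298341 0 (.node 0 8 (.cons 0x9087654123 (.cons 0x3456729801 .nil)) .done .done)) .done) .done)) (.node 1 8 (.cons 0x1892345670 .nil) (.leaf 0x5432981076 3 (.leaf 0x6709238145 3 .done)) .done)))) (.node 0 2 (.cons 0x7654389201 .nil) (.node 1 9 (.cons 0x2387654190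 .nil) (.leaf 0x3876541902 3 (.leaf 0x3876541902 4 (.node 2 6 .nil (.node 0 5 (.cons 0x4321987650 (.cons 0x7832650914 (.cons 0x7891056243 .nil))) (.leaf 0x9142387650 3 .done) (.node 2 7 .nil (.node 0 6 (.cons 0x7832419065 (.cons 0x7243891065 (.cons 0x5601987243 .nil))) .done .done) .done)) .done))) (.node 0 8 (.cons 0x9087654123 .nil) (.node 5 8 (.cons 0x9201438567 .nil) (.node 4 8 .nil (.node 1 5 (.cons 0x9023876514 (.cons 0x9023841567 .nil)) (.node 3 7 (.cons 0x8376541092 (.cons 0x5673489210 .nil)) (.leaf 0x298437651 5 (.leaf 0x9845673210 1 .done)) .done) .done) .done) .done) .done)) .done))) (.node 2 6 .nil (.node 3 9 (.cons 0x8765412390 (.cons 0x7893456210 (.cons 0x5439876210 .nil))) (.node 3 7 (.cons 0x6542109873 (.cons 0x8739014265 .nil)) (.node 0 3 (.cons 0x4567890321 (.cons 0x9876210345 .nil)) (.node 3 6 (.cons 0x7890124563 .nil) (.leaf 0x124563789 2 .done) (.leaf 0x1034567892 2 (.leaf 0x6543012987 1 .done))) (.leaf 0x2109873456 3 .done))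 (.node 3 5 (.cons 0x4109356782 (.cons 0x7826539014 .nil)) (.leaf 0x5390142876 0 (.leaf 0x1093567824 4 .done)) .done)) (.node 0 2 .nil (.node 1 9 (.cons 0x1987654320 .nil) (.node 0 3 (.cons 0x8765419032 .nil) (.leaf 0x2876541903 0 (.leaf 0x9145678230 3 (.leaf 0x1034567892 2 (.leaf 0x8765430219 5 (.leaf 0x8765430219 1 .done))))) (.leaf 0x4567891023 5 (.leaf 0x4567891023 2 (.node 3 8 (.cons 0x7654389210 (.cons 0x7654389201 .nil)) (.node 3 9 (.cons 0x8765412390 (.cons 0x9341028765 .nil)) (.node 5 8 (.cons 0x9345876210 (.cons 0x9345876201 (.cons 0x6785412093 .nil))) .done .done) (.leaf 0x238765419 5 .done)) .done)))) (.node 2 7 .nil (.node 3 8 (.cons 0x7654389210 .nil) (.leaf 0x1276543890 3 (.leaf 0x1276543890 4 (.node 3 6 (.cons 0x7890124563 (.cons 0x7245638901 (.cons 0x9014278365 .nil))) .done .done))) .done) .done)) .done)) .done))) .done)))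
noncomputable def uc9_7_14 : T := (.node 3 9 (.cons 0x8765412390 (.cons 0x5678934210 .nil)) (.node 3 8 (.cons 0x7654389210 .nil) (.node 0 3 (.cons 0x4567890321 .nil) (.node 5 9 (.cons 0x6783214590 (.cons 0x6783095421 .nil)) (.node 1 8 (.cons 0x9032187654 (.cons 0x3241876590 .nil)) (.leaf 0x5903241876 5 (.leaf 0x2956781034 0 .done)) .done) (.node 1 3 (.cons 0x1324567890 .nil) (.leaf 0x5678903124 5 (.leaf 0x6789031245 6 .done)) (.leaf 0x5421039876 0 (.leaf 0x4567893012 5 .done)))) (.node 5 9 (.cons 0x4123876590 (.cons 0x1423876590 .nil)) (.node 0 7 (.cons 0x8341295670 .nil) (.leaf 0x6701298345 2 (.leaf 0x1298345670 1 (.node 3 6 (.cons 0x1243659870 .nil) (.leaf 0x9870124563 3 (.leaf 0x4210789563 3 (.leaf 0x5421078936 0 (.leaf 0x5987012436 0 .done)))) (.node 1 5 (.cons 0x8329076514 (.cons 0x4238907651 (.cons 0x9078324156 .nil))) (.node 2 6 (.cons 0x9387015624 (.cons 0x5624398701 (.cons 0x1426593870 .nil))) .done .done) .done)))) .done) (.leaf 0x5421093876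 3 .done))) (.node 3 8 (.cons 0x7654389210 .nil) (.node 1 3 (.cons 0x1324567890 .nil) (.node 0 8 (.cons 0x9087654123 (.cons 0x9087654132 .nil)) (.leaf 0x4132908765 4 (.leaf 0x3145678092 3 .done)) (.node 0 7 (.cons 0x8921076543 (.cons 0x8907654231 .nil)) (.node 6 9 (.cons 0x7832145690 (.cons 0x3870965421 .nil)) (.leaf 0x3870129654 2 (.leaf 0x965421387 2 .done)) (.node 5 8 (.cons 0x6785412390 (.cons 0x6709854231 (.cons 0x6709854213 .nil))) (.node 3 6 (.cons 0x4589210763 (.cons 0x9367854210 .nil)) (.leaf 0x1245893670 3 (.leaf 0x9210763458 2 .done)) .done) (.leaf 0x2138907654 3 .done))) (.node 0 3 (.cons 0x4567890321 .nil) (.leaf 0x7654213098 5 (.leaf 0x6789031245 6 (.leaf 0x4567893012 2 .done))) .done))) (.node 5 9 (.cons 0x4123876590 (.cons 0x1423876590 .nil)) (.leaf 0x8342109567 2 (.node 0 5 (.cons 0x6789345012 (.cons 0x9834210567 (.cons 0x9056783241 .nil))) (.node 1 6 (.cons 0x8761239054 (.cons 0x8761243950 (.cons 0x4216783950 .nil))) (.leaf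 0x2450938761 2 .done) (.node 7 9 (.cons 0x6509783214 (.cons 0x6509783241 .nil)) (.leaf 0x1243897650 1 .done) .done)) .done)) (.node 1 7 (.cons 0x2983456710 (.cons 0x3892456710 .nil)) (.leaf 0x4238901765 2 (.leaf 0x2389017654 0 .done)) .done))) (.node 3 8 (.cons 0x7654389210 (.cons 0x5678390142 .nil)) (.leaf 0x5421093876 5 (.leaf 0x4567839012 6 .done)) .done))) (.node 2 5 .nil tc9_7_29 (.node 4 7 .nil tc9_7_28 .done)))
theorem sub_c9_7_14 : root 9 refs9_7 [] 0x800000703807000000007060000000060500000000504000000004030800000030100700000102000000802013000000010 0xfe77fe7fff3fff9fffcffee7fff5ff79fef9fff5 9 2 4 .nil uc9_7_14 = true := by decide +kernel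
def kn_c9_7 : List (Nat × Nat × Nat) := [(0x800000003807000000007060000000060500000000504000000004030500000030104000000102000000502013000004010, 0xfef7fe7fff3fff9fffcfffc7ffe5fff9ffd9ffe5, 9), (0x800000003807000000007060000000060500000000504000000004030500000030105000000102000000502013000005010, 0xfef7fe7fff3fff9fffcfffc7ffd5fff9ffd9ffd5, 9), (0x800000003807000000007060000000060500000000504000000004030500000030107000000102000000502013000007010, 0xfef7fe7fff3fff9fffcfffc7ff75fff9ffd9ff75, 9), (0x800000003807000000007060000000060500000000504000000004030500000030108000000102000000502013000008010, 0xfef7fe7fff3fff9fffcfffc7fef5fff9ffd9fef5, 9), (0x800000003807000000007060000000060500000000504000000004030600000030105000000102000000602013000005010, 0xfef7fe7fff3fff9fffcfffa7ffd5fff9ffb9ffd5, 9), (0x800000003807000000007060000000060500000000504000000004030600000030106000000102000000602013000006010, 0xfef7fe7fff3fff9fffcfffa7ffb5fff9ffb9ffb5, 9), (0x800000003807000000007060000000060500000000504000000004030600000030108000000102000000602013000008010,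 0xfef7fe7fff3fff9fffcfffa7fef5fff9ffb9fef5, 9), (0x800000003807000000007060000000060500000000504000000004030700000030104000000102000000702013000004010, 0xfef7fe7fff3fff9fffcfff67ffe5fff9ff79ffe5, 9), (0x800000003807000000007060000000060500000000504000000004030700000030105000000102000000702013000005010, 0xfef7fe7fff3fff9fffcfff67ffd5fff9ff79ffd5, 9), (0x800000003807000000007060000000060500000000504000000004030700000030106000000102000000702013000006010, 0xfef7fe7fff3fff9fffcfff67ffb5fff9ff79ffb5, 9), (0x800000003807000000007060000000060500000000504000000004030700000030107000000102000000702013000007010, 0xfef7fe7fff3fff9fffcfff67ff75fff9ff79ff75, 9), (0x800000403807000000007060000000060500000000504000000004030800000030100400000102000000802013000000010, 0xfee7fe7fff3fff9fffcffee7fff5ffe9fef9fff5, 9), (0x800000503807000000007060000000060500000000504000000004030800000030100500000102000000802013000000010, 0xfed7fe7fff3fff9fffcffee7fff5ffd9fef9fff5,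 9), (0x800000603807000000007060000000060500000000504000000004030800000030100600000102000000802013000000010, 0xfeb7fe7fff3fff9fffcffee7fff5ffb9fef9fff5, 9), (0x800000703807000000007060000000060500000000504000000004030800000030100700000102000000802013000000010, 0xfe77fe7fff3fff9fffcffee7fff5ff79fef9fff5, 9)]
noncomputable def rc9_7 : T := (.node 2 9 (.cons 0x3456789210 .nil) (.cut 14 (.cut 13 (.cut 12 (.cut 11 .done)))) (.node 0 3 (.cons 0x4567890321 .nil) (.leaf 0x2145678903 2 (.cut 10 (.cut 9 (.cut 8 (.cut 7 (.leaf 0x9876541230 2 .done)))))) (.node 0 3 (.cons 0x4567890321 .nil) (.cut 6 (.leaf 0x2145678903 6 (.cut 5 (.cut 4 (.leaf 0x8903214567 3 (.leaf 0x9876541230 5 .done)))))) (.node 0 3 (.cons 0x4567890321 .nil) (.cut 3 (.cut 2 (.leaf 0x2309876541 2 (.cut 1 (.cut 0 (.leaf 0x9876541230 1 .done)))))) .done))))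
theorem ok_c9_7 : root 9 refs9_7 kn_c9_7 0x800000003807000000007060000000060500000000504000000004030000000030100000000102000000002013000000010 0xfef7fe7fff3fff9fffcfffe7fff5fff9fff9fff5 9 1 4 (.cons 0x3214567890 .nil) rc9_7 = true := by decide +kernel

end Pool.Agent.Hhelper35.Rainbow
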