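import Pool.Agent.Hhelper35.Rainbow.Pats

set_option autoImplicit false
set_option maxRecDepth 1000000

namespace Pool.Agent.Hhelper35.Rainbow

open T W

noncomputable def tc9_8_0 : T := (.node 3 8 (.cons 0x7651243890 .nil) (.node 4 8 (.cons 0x2093487651 .nil) (.node 1 8 (.cons 0x7654239810 .nil) (.node 0 7 (.cons 0x2439815670 .nil) (.leaf 0x1893420765 3 (.leaf 0x8934207651 1 (.node 2 8 (.cons 0x3428907651 .nil) (.node 1 3 (.cons 0x8907651342 .nil) (.leaf 0x1567098243 0 (.node 1 4 (.cons 0x2398765410 .nil) (.node 1 6 (.cons 0x5167843902 .nil) .done (.leaf 0x8209341567 1 .done)) (.leaf 0x7098243156 2 .done))) .done) .done))) .done) (.leaf 0x4876512093 1 (.node 1 8 (.cons 0x7654239810 .nil) (.node 1 9 (.cons 0x5678432091 .nil) (.node 0 8 (.cons 0x7654321980 .nil) (.node 1 7 (.cons 0x8932456710 .nil) (.leaf 0x6542398017 5 (.node 5 8 (.cons 0x4239856710 .nil) (.leaf 0x7658024391 4 .done) .done)) .done) (.leaf 0x8432091567 4 .done)) (.node 0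 7 (.cons 0x2439815670 .nil) (.leaf 0x1893420765 3 (.leaf 0x8934207651 1 (.node 1 7 (.cons 0x8932456710 .nil) (.node 5 8 (.cons 0x9017658423 .nil) (.leaf 0x176584239 1 .done) (.node 3 5 (.cons 0x7653248901 .nil) (.leaf 0x984235671 3 (.leaf 0x984235671 2 .done)) .done)) .done))) .done)) .done))) (.node 4 9 (.cons 0x8765493201 .nil) (.node 4 8 (.cons 0x2093487651 .nil) (.leaf 0x4876512093 1 (.node 2 6 (.cons 0x9387620154 .nil) (.node 1 4 (.cons 0x2398765410 .nil) (.node 2 8 (.cons 0x9328765410 .nil) (.leaf 0x5143902876 3 (.leaf 0x6782390145 4 .done)) (.node 2 8 (.cons 0x4390287651 .nil) (.leaf 0x934156782 2 (.leaf 0x7820934156 3 .done)) .done)) (.leaf 0x5493876201 3 .done)) .done)) (.node 1 8 (.cons 0x7654239810 .nil) (.leaf 0x239456781 2 (.node 0 7 (.cons 0x2439815670 .nil) (.leaf 0x1893420765 3 (.leaf 0x8934207651 1 (.node 2 6 (.cons 0x8762015493 .nil) (.leaf 0x7620154938 3 (.node 0 3 (.cons 0x9830762451 .nil) (.leaf 0x9302678154 3 (.node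 3 5 (.cons 0x6789453210 .nil) (.leaf 0x2498153076 6 (.leaf 0x9810765324 0 .done)) .done)) .done)) .done))) .done)) (.leaf 0x4902156783 1 .done))) (.node 0 7 (.cons 0x9834215670 .nil) (.leaf 0x1243890765 2 (.leaf 0x4215670983 6 (.leaf 0x4215670983 3 .done))) .done))) (.node 3 7 (.cons 0x6512098734 .nil) (.node 0 3 (.cons 0x4309876512 .nil) (.node 3 6 (.cons 0x7890215634 .nil) (.node 3 8 (.cons 0x7651243890 .nil) (.node 3 5 .nil (.node 4 7 (.cons 0x9874365120 (.cons 0x6534789021 .nil)) (.node 1 6 (.cons 0x7893201654 .nil) (.leaf 0x8902165347 1 (.leaf 0x1023987456 0 .done)) (.leaf 0x983567421 6 .done)) .done) (.node 2 8 (.cons 0x7651289034 .nil) (.node 4 7 (.cons 0x3982476510 .nil) (.leaf 0x1039824765 3 (.leaf 0x398247651 1 (.leaf 0x3476512890 3 .done))) (.node 4 7 (.cons 0x9874365120 .nil) (.leaf 0x1289034765 3 (.leaf 0x2890347651 1 (.node 1 3 (.cons 0x3156742890 .nil) (.leaf 0x4289031567 1 .done) .done))) .done)) .done)) .done) (.node 2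 6 (.cons 0x9876215430 .nil) (.leaf 0x1267890345 7 (.node 3 6 (.cons 0x7890215634 .nil) (.node 1 6 (.cons 0x7893201654 .nil) (.node 0 7 (.cons 0x8932456701 .nil) (.node 3 8 (.cons 0x7651243890 .nil) (.leaf 0x2438907651 4 (.leaf 0x4215670983 6 .done)) (.node 0 6 (.cons 0x9876034512 .nil) (.node 0 8 (.cons 0x7654239801 .nil) .done .done) .done)) .done) .done) (.leaf 0x9301542678 4 .done))) .done)) (.node 4 6 (.cons 0x7890215643 .nil) (.node 4 7 (.cons 0x6547893201 .nil) (.node 1 6 (.cons 0x3987456102 .nil) (.node 3 6 (.cons 0x5634789021 .nil) (.node 3 8 (.cons 0x7651243890 .nil) (.node 5 7 (.cons 0x9836574210 .nil) (.leaf 0x1657438902 4 (.leaf 0x4389021657 7 (.leaf 0x5742109836 1 .done))) .done) .done) (.leaf 0x239874561 3 .done)) (.node 1 6 (.cons 0x9874561023 .nil) (.leaf 0x2016547893 4 (.leaf 0x239874561 6 .done)) .done)) (.node 1 7 (.cons 0x8932456710 .nil) (.node 4 7 (.cons 0x6547893201 .nil) (.node 1 6 (.cons 0x9874561023 .nil) (.leaf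 0x2016547893 4 (.leaf 0x239874561 6 .done)) .done) (.node 5 8 (.cons 0x4239856710 .nil) (.node 3 5 (.cons 0x4653987102 .nil) (.leaf 0x6420178935 3 (.node 0 3 (.cons 0x4309876512 .nil) (.node 3 6 (.cons 0x7890215634 .nil) (.node 3 8 (.cons 0x7651243890 .nil) .done .done) .done) .done)) (.leaf 0x7102465893 0 (.node 3 5 (.cons 0x1246735890 .nil) (.leaf 0x6420178935 3 (.leaf 0x2467358901 1 (.leaf 0x4210985376 6 .done))) .done))) .done)) (.leaf 0x987346512 5 .done))) (.node 1 7 (.cons 0x8932456710 .nil) (.node 0 8 (.cons 0x7654239801 .nil) (.node 3 8 (.cons 0x7651243890 .nil) (.node 0 7 (.cons 0x8932456701 .nil) (.leaf 0x2438907651 4 (.node 5 7 (.cons 0x6754239801 .nil) (.node 5 8 (.cons 0x6715809342 .nil) (.node 4 8 (.cons 0x2489376510 .nil) (.leaf 0x5671093248 0 .done) .done) .done) .done)) .done) (.leaf 0x6542398017 5 (.node 6 9 (.cons 0x4378965120 .nil) (.node 1 9 (.cons 0x2437651980 .nil) (.node 1 4 (.cons 0x2398765410 .nil) (.node 1 6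 (.cons 0x7893201654 .nil) (.node 1 8 (.cons 0x7654239810 .nil) .done .done) .done) (.leaf 0x8024376519 3 .done)) (.leaf 0x7342089651 0 (.node 1 9 (.cons 0x2437651980 .nil) (.leaf 0x234569178 6 (.leaf 0x2087196543 1 (.leaf 0x8024376519 3 .done))) .done))) .done))) (.node 1 4 (.cons 0x2398765410 .nil) (.node 2 8 (.cons 0x9328765410 .nil) (.leaf 0x3901456782 7 (.node 1 8 (.cons 0x7654239810 .nil) (.node 3 8 (.cons 0x7651243890 .nil) (.node 4 7 (.cons 0x3982476510 .nil) (.node 1 3 (.cons 0x5674289310 .nil) (.node 1 6 (.cons 0x3987456102 .nil) (.leaf 0x239874561 3 .done) .done) (.node 1 6 (.cons 0x9874561023 .nil) (.leaf 0x2016547893 4 (.leaf 0x239874561 6 .done)) .done)) .done) .done) (.leaf 0x6782390145 4 .done))) (.node 1 8 (.cons 0x7654239810 .nil) (.node 1 9 .nil (.node 0 5 (.cons 0x7650189324 (.cons 0x8765091234 (.cons 0x8910567324 .nil))) (.node 4 8 (.cons 0x2489376510 (.cons 0x2198437650 (.cons 0x5673248910 .nil))) (.leaf 0x1984376502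 4 .done) .done) (.node 1 6 (.cons 0x7893201654 .nil) (.node 1 3 .nil (.node 0 7 (.cons 0x2439815670 (.cons 0x8931076542 (.cons 0x8907651342 .nil))) (.node 2 8 (.cons 0x4289376510 .nil) (.leaf 0x7013982456 1 (.leaf 0x6513428907 2 .done)) .done) .done) .done) .done)) .done) .done)) .done)) .done))) (.node 3 6 (.cons 0x9876345120 .nil) (.leaf 0x4512098763 1 (.node 0 6 (.cons 0x2067893451 .nil) (.leaf 0x2154398760 1 (.leaf 0x7893451206 4 (.node 1 9 (.cons 0x5432067891 .nil) (.leaf 0x6023451987 6 (.leaf 0x678915432 7 (.node 0 8 (.cons 0x7654239801 .nil) (.node 1 7 (.cons 0x8932456710 .nil) (.node 0 7 (.cons 0x8932456701 .nil) (.node 7 9 (.cons 0x8976345120 .nil) (.leaf 0x2154367980 5 .done) .done) (.leaf 0x2398017654 5 .done)) (.node 0 7 (.cons 0x8932456701 .nil) (.node 3 7 (.cons 0x2456739801 .nil) (.leaf 0x4210893765 3 (.leaf 0x2108937654 1 .done)) .done) .done)) .done))) .done))) (.node 4 6 (.cons 0x5467893201 .nil) (.node 2 6 (.cons 0x1543987620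 .nil) (.node 2 9 (.cons 0x8764510293 .nil) (.node 2 5 (.cons 0x8764390251 .nil) (.node 1 6 (.cons 0x8761520934 .nil) (.node 2 7 (.cons 0x8934516720 .nil) (.node 2 8 (.cons 0x7615439820 .nil) .done .done) .done) .done) .done) .done) (.node 3 8 (.cons 0x7651243890 .nil) (.node 0 7 (.cons 0x8932456701 .nil) (.leaf 0x6512438907 0 (.leaf 0x2438907651 4 (.node 0 6 (.cons 0x2067893451 .nil) (.leaf 0x2154398760 1 (.node 1 6 (.cons 0x9832456107 .nil) (.node 7 9 (.cons 0x6542389701 .nil) (.leaf 0x1543897602 5 (.leaf 0x4561079832 4 (.leaf 0x6542389701 0 .done))) .done) .done)) .done))) (.node 3 7 .nil (.node 2 5 (.cons 0x3987645201 (.cons 0x1256437890 .nil)) (.leaf 0x7389015246 4 (.leaf 0x9837645210 0 .done)) (.node 4 8 (.cons 0x7639842015 .nil) (.node 2 6 (.cons 0x1543987620 .nil) (.leaf 0x6510937842 0 (.leaf 0x3901562487 6 .done)) (.node 4 7 (.cons 0x8936742015 .nil) (.node 5 8 (.cons 0x2476398510 .nil) (.leaf 0x1589367420 3 (.leaf 0x9367420158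 2 .done)) .done) .done)) .done)) .done)) (.leaf 0x4678932015 1 .done))) .done))) .done)))
noncomputable def tc9_8_1 : T := (.node 4 8 (.cons 0x5678423901 .nil) (.node 1 8 (.cons 0x9324567810 .nil) (.leaf 0x932456781 1 (.node 0 8 (.cons 0x9324567801 .nil) (.node 3 8 .nil (.node 0 2 (.cons 0x4567893201 (.cons 0x7651209834 .nil)) (.node 6 9 (.cons 0x7815693420 (.cons 0x7693801542 (.cons 0x7839654201 .nil))) (.leaf 0x9678015423 1 .done) .done) .done) (.leaf 0x876512439 1 (.node 1 6 (.cons 0x7842390165 .nil) (.node 1 7 .nil (.node 0 6 (.cons 0x7106548932 .nil) (.leaf 0x3217890654 4 (.leaf 0x7106542398 4 .done)) (.node 1 4 (.cons 0x2398765410 .nil) (.node 1 3 (.cons 0x9087651342 .nil) (.node 1 9 (.cons 0x8765423910 .nil) .done .done) .done) .done)) (.node 1 4 (.cons 0x2398765410 .nil) (.node 1 9 (.cons 0x8765423910 .nil) (.node 1 3 (.cons 0x9087651342 .nil) (.node 1 7 .nil (.node 0 2 (.cons 0x4567893201 (.cons 0x9802345671 (.cons 0x9802345617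 .nil))) (.leaf 0x9320176548 4 .done) .done) .done) .done) .done) .done)) .done))) .done)) (.leaf 0x2390156784 1 (.node 3 5 (.cons 0x2487653901 .nil) (.node 1 8 (.cons 0x9324567810 .nil) (.node 0 8 (.cons 0x9324567801 .nil) (.node 1 9 (.cons 0x8765423910 .nil) (.leaf 0x3245678019 5 (.node 1 4 (.cons 0x2398765410 .nil) (.node 4 6 (.cons 0x9087643512 .nil) (.node 0 4 (.cons 0x2398765401 .nil) (.node 4 9 (.cons 0x3567849012 .nil) .done .done) .done) .done) .done)) (.node 5 8 .nil (.node 4 7 (.cons 0x1234765890 .nil) (.leaf 0x9856743210 7 (.leaf 0x8901234765 6 (.leaf 0x932476581 7 .done))) (.node 5 7 (.cons 0x6578109324 .nil) (.node 4 7 .nil (.node 6 8 (.cons 0x9018657423 .nil) (.leaf 0x1093247568 4 (.leaf 0x5742390186 1 .done)) (.node 1 4 (.cons 0x2398765410 .nil) (.node 0 7 (.cons 0x8567093241 .nil) (.leaf 0x4239076581 1 (.leaf 0x4239076581 7 .done)) .done) .done)) .done) .done)) .done)) (.leaf 0x932456781 1 (.node 0 2 (.cons 0x4567893201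 .nil) (.node 7 9 (.cons 0x9765348120 .nil) (.leaf 0x3481209765 6 (.node 0 8 (.cons 0x9324567801 .nil) (.node 1 6 (.cons 0x3978016542 .nil) (.leaf 0x8016542397 6 (.leaf 0x4561087932 6 .done)) (.leaf 0x2439765180 5 (.leaf 0x8024397651 1 .done))) (.leaf 0x4356790218 1 .done))) (.node 1 6 (.cons 0x7893201654 .nil) (.node 1 7 (.cons 0x5617843902 .nil) (.node 2 5 (.cons 0x7843902561 .nil) (.leaf 0x2093487165 0 (.leaf 0x8439025617 3 .done)) .done) (.node 4 7 (.cons 0x6547893201 .nil) (.leaf 0x1023987456 0 (.leaf 0x2016547893 4 .done)) .done)) (.node 4 6 (.cons 0x5467893201 .nil) (.node 0 6 (.cons 0x2067893451 .nil) (.leaf 0x2154398760 1 (.leaf 0x7893451206 4 (.node 0 4 (.cons 0x2398765401 .nil) (.node 0 8 (.cons 0x9324567801 .nil) .done .done) .done))) (.leaf 0x4678932015 1 .done)) .done))) .done))) (.leaf 0x4876539012 7 (.leaf 0x8421093567 6 .done))) (.leaf 0x7651093248 4 .done)))) (.node 0 2 (.cons 0x4567893201 .nil) tc9_8_0 (.node 0 2 (.cons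 0x4567893201 .nil) (.node 1 4 (.cons 0x2398765410 .nil) (.node 2 8 (.cons 0x9328765410 .nil) (.leaf 0x3901456782 7 (.node 3 8 (.cons 0x9021567834 .nil) (.node 1 8 (.cons 0x9320187654 .nil) (.node 4 8 (.cons 0x2093487651 .nil) (.leaf 0x4876512093 1 (.node 1 9 (.cons 0x4391567820 .nil) (.node 1 6 (.cons 0x7893245610 .nil) (.node 1 7 (.cons 0x6542398710 .nil) .done .done) (.leaf 0x8432091567 4 .done)) .done)) .done) (.node 1 8 (.cons 0x9320187654 .nil) (.node 4 9 (.cons 0x5678239410 .nil) (.leaf 0x1209438765 5 (.leaf 0x239456781 2 (.leaf 0x4902156783 1 .done))) .done) .done)) (.leaf 0x6782390145 4 .done))) (.leaf 0x1456789320 1 (.node 4 8 (.cons 0x2093487651 .nil) (.leaf 0x4876512093 1 (.node 1 9 (.cons 0x5678432091 .nil) (.node 4 9 (.cons 0x8765493201 .nil) (.node 1 8 (.cons 0x3945678102 .nil) (.node 3 8 (.cons 0x5678349021 .nil) (.leaf 0x4902156783 1 (.leaf 0x7651209438 4 .done)) (.leaf 0x187654932 3 .done)) .done) (.leaf 0x8432091567 4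 .done)) .done)) .done))) (.node 1 7 (.cons 0x6542398710 .nil) (.node 3 7 (.cons 0x6512437890 .nil) (.node 1 6 (.cons 0x7893245610 .nil) (.node 0 7 (.cons 0x6542398701 .nil) (.leaf 0x5423987016 4 (.leaf 0x5423987016 5 .done)) (.node 2 6 (.cons 0x8715624390 .nil) (.node 6 8 (.cons 0x9378624510 .nil) (.leaf 0x3786245109 4 (.leaf 0x2687390154 7 (.leaf 0x5423901786 1 .done))) (.node 6 8 (.cons 0x9324568710 .nil) (.node 2 5 (.cons 0x1786524390 .nil) (.leaf 0x2568710934 1 .done) (.node 2 9 (.cons 0x1543768920 .nil) (.leaf 0x2986734510 1 .done) .done)) .done)) .done)) (.node 0 6 (.cons 0x9873421560 .nil) (.node 3 6 .nil (.node 0 4 (.cons 0x2398765401 (.cons 0x9876321045 (.cons 0x9873651042 .nil))) (.leaf 0x6378904215 7 .done) (.node 1 6 (.cons 0x7893245610 .nil) (.node 2 6 (.cons 0x8715624390 .nil) (.node 2 7 (.cons 0x8724390651 .nil) (.node 2 8 (.cons 0x6517824390 .nil) (.leaf 0x8243906517 1 .done) .done) .done) .done) .done)) (.leaf 0x2437890651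 6 (.leaf 0x4378906512 7 .done))) .done)) (.node 0 6 (.cons 0x7893245601 .nil) (.node 2 8 (.cons 0x6715439820 .nil) (.node 2 9 (.cons 0x1543928760 .nil) (.node 7 9 (.cons 0x8793245601 .nil) (.node 1 3 (.cons 0x8976543120 .nil) (.leaf 0x9782456013 6 (.leaf 0x654287931 7 (.node 3 8 (.cons 0x5609783421 .nil) (.leaf 0x4215609783 4 .done) (.leaf 0x7931065428 4 .done)))) .done) .done) (.leaf 0x7154398206 4 (.leaf 0x5176028934 5 .done))) (.leaf 0x8932456017 4 (.node 3 7 (.cons 0x6512437890 .nil) (.node 0 7 (.cons 0x6542398701 .nil) (.node 1 8 (.cons 0x2076543981 .nil) (.leaf 0x4567021893 4 (.node 1 6 (.cons 0x7893245610 .nil) (.node 2 5 (.cons 0x9342561870 .nil) (.leaf 0x4390781652 6 (.node 3 6 (.cons 0x2456398701 .nil) (.leaf 0x1789063425 3 (.leaf 0x1789063425 2 .done)) .done)) (.leaf 0x5423987016 4 .done)) .done)) .done) (.leaf 0x4378906512 7 .done)) .done))) (.node 4 8 (.cons 0x7654893201 .nil) (.node 1 8 .nil (.node 0 4 (.cons 0x2398765401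 (.cons 0x9043218765 (.cons 0x5671893402 .nil))) (.leaf 0x8176540239 7 .done) (.node 3 8 (.cons 0x7651209834 .nil) (.node 1 4 (.cons 0x2398765410 .nil) (.node 2 8 (.cons 0x9328765410 .nil) (.leaf 0x6782390145 4 .done) (.node 1 6 (.cons 0x7893245610 .nil) (.node 3 6 (.cons 0x7639845102 .nil) (.node 5 7 (.cons 0x9845763210 .nil) (.node 2 6 (.cons 0x8439026751 .nil) (.leaf 0x1578426390 4 (.leaf 0x4390267518 1 .done)) (.leaf 0x1236754890 1 (.leaf 0x9324875610 5 .done))) .done) .done) .done)) .done) .done)) (.leaf 0x239845671 7 (.leaf 0x2017654893 6 .done))) .done))) (.node 3 6 (.cons 0x9876345120 .nil) (.leaf 0x4512098763 1 (.node 0 6 (.cons 0x7893245601 .nil) (.leaf 0x2154398760 1 (.leaf 0x7893451206 4 (.node 1 9 (.cons 0x5432067891 .nil) (.leaf 0x6023451987 6 (.leaf 0x678915432 7 (.node 3 7 (.cons 0x6512437890 .nil) (.leaf 0x2456019873 6 (.node 6 9 (.cons 0x5423789601 .nil) (.node 0 3 (.cons 0x4309876512 .nil) (.node 3 5 (.cons 0x6987354210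 .nil) (.leaf 0x7896012453 2 .done) (.leaf 0x5698730124 1 .done)) (.leaf 0x8732451069 6 .done)) (.leaf 0x8732456019 7 .done))) .done))) .done))) (.node 1 6 (.cons 0x7893245610 .nil) (.node 4 6 (.cons 0x5467893201 .nil) (.node 0 6 (.cons 0x7893245601 .nil) (.leaf 0x7893451206 4 (.node 1 4 (.cons 0x2398765410 .nil) (.node 1 9 (.cons 0x5432067891 .nil) (.leaf 0x6023451987 6 (.leaf 0x678915432 7 .done)) .done) .done)) (.node 5 7 (.cons 0x5789364201 .nil) (.leaf 0x3642015789 3 (.leaf 0x6420157893 1 (.node 4 8 (.cons 0x9361578420 .nil) (.leaf 0x9324875610 5 (.node 5 9 (.cons 0x4367895120 .nil) (.node 4 7 (.cons 0x2478936510 .nil) (.node 3 8 (.cons 0x2384765901 .nil) (.leaf 0x956748321 5 (.leaf 0x956748321 4 .done)) (.leaf 0x9847632015 4 .done)) (.leaf 0x8432095167 4 .done)) .done)) .done))) (.leaf 0x4678932015 1 .done))) (.node 0 7 (.cons 0x6542398701 .nil) (.node 2 8 (.cons 0x7615439820 .nil) (.leaf 0x6154398207 4 (.leaf 0x5167028934 5 .done))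 (.leaf 0x5423987016 4 (.leaf 0x5423987016 5 .done))) .done)) .done))) .done))) (.node 0 3 (.cons 0x4309876512 .nil) (.node 0 6 (.cons 0x5423987601 .nil) (.node 3 6 (.cons 0x5124367890 .nil) (.node 0 2 (.cons 0x4567893201 .nil) (.node 0 5 (.cons 0x9876342150 .nil) (.leaf 0x4367890512 3 .done) .done) .done) (.node 3 5 (.cons 0x2453987601 .nil) (.leaf 0x6012453987 4 (.node 6 9 (.cons 0x8769301542 .nil) (.node 3 7 (.cons 0x9873542106 .nil) (.leaf 0x124537896 6 (.leaf 0x2106987354 2 .done)) (.node 5 9 .nil (.node 3 6 (.cons 0x5124367890 (.cons 0x7895360124 .nil)) (.leaf 0x9542103678 0 .done) (.node 0 5 (.cons 0x6789324501 .nil) (.node 1 6 (.cons 0x5423987610 .nil) (.leaf 0x542398761 1 (.node 3 6 (.cons 0x5124367890 .nil) (.leaf 0x4367890512 3 .done) (.leaf 0x7893245016 4 .done))) .done) .done)) .done)) .done)) (.leaf 0x678932451 1 .done))) (.node 0 6 (.cons 0x5423987601 .nil) (.node 3 6 (.cons 0x5124367890 .nil) (.node 0 2 (.cons 0x4567893201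 .nil) (.node 0 5 (.cons 0x9876342150 .nil) (.leaf 0x4367890512 3 .done) .done) .done) (.node 0 2 (.cons 0x4567893201 .nil) (.node 4 8 (.cons 0x2093487651 .nil) (.node 0 4 (.cons 0x2398765401 .nil) (.node 1 4 (.cons 0x2398765410 .nil) (.node 2 8 (.cons 0x9328765410 .nil) (.node 1 9 (.cons 0x4391567820 .nil) (.leaf 0x2876519340 3 (.leaf 0x2876519340 6 (.leaf 0x2876519340 2 .done))) (.leaf 0x6782390145 4 .done)) (.leaf 0x1456789320 1 .done)) .done) (.leaf 0x4876512093 1 (.node 0 4 (.cons 0x2398765401 .nil) (.node 1 4 (.cons 0x2398765410 .nil) (.node 2 8 (.cons 0x9328765410 .nil) (.leaf 0x5143902876 3 (.node 2 6 (.cons 0x3987624510 .nil) (.node 4 6 (.cons 0x7642893015 .nil) .done (.leaf 0x6245103987 1 .done)) (.leaf 0x6782390145 4 .done))) (.leaf 0x1456789320 1 .done)) .done) .done))) (.node 3 6 (.cons 0x5124367890 .nil) (.node 3 5 (.cons 0x2453987601 .nil) (.node 6 9 (.cons 0x7896012453 .nil) (.node 3 7 (.cons 0x9873456021 .nil) (.leaf 0x124537896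 6 (.leaf 0x2106987354 2 .done)) (.node 1 7 (.cons 0x3542178960 .nil) (.leaf 0x2065439871 0 (.leaf 0x5306987124 3 (.leaf 0x3069871245 1 .done))) .done)) .done) (.node 0 5 (.cons 0x9876342150 .nil) (.node 2 6 (.cons 0x3987624510 .nil) (.leaf 0x1542678930 5 (.node 1 8 (.cons 0x6781509342 .nil) (.node 6 9 (.cons 0x8769324501 .nil) (.leaf 0x542396781 0 .done) (.leaf 0x1509342678 0 (.leaf 0x4390518762 6 .done))) (.leaf 0x6245103987 1 .done))) (.leaf 0x4367890512 3 .done)) .done)) .done)) (.leaf 0x678932451 1 .done))) (.leaf 0x3098765124 1 (.node 2 6 (.cons 0x3987624510 .nil) (.leaf 0x3015426789 1 (.leaf 0x9301542678 3 (.node 3 6 (.cons 0x5124367890 .nil) (.node 1 6 (.cons 0x5423987610 .nil) (.node 0 6 (.cons 0x5423987601 .nil) (.node 3 5 (.cons 0x4267893510 .nil) (.leaf 0x6012453987 4 (.node 4 6 (.cons 0x7890123564 .nil) (.node 2 9 (.cons 0x8763924510 .nil) (.leaf 0x6451032987 6 (.leaf 0x4678923015 7 (.node 6 9 (.cons 0x7896012453 .nil) .done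 .done))) .done) .done)) (.leaf 0x678932451 1 .done)) .done) (.node 1 6 (.cons 0x5423987610 .nil) (.node 0 5 (.cons 0x6789324501 .nil) (.leaf 0x1243678905 2 (.node 2 8 (.cons 0x7639824510 .nil) (.node 0 2 (.cons 0x4567893201 .nil) (.node 2 5 (.cons 0x8761524390 .nil) (.node 0 8 (.cons 0x7624398051 .nil) (.leaf 0x9087615243 3 (.leaf 0x7615243908 2 .done)) .done) .done) (.leaf 0x9051678243 3 .done)) (.leaf 0x3245016789 5 (.leaf 0x542398761 1 .done)))) .done) .done)) (.leaf 0x8762154309 4 .done)))) .done)))) .done))))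
noncomputable def uc9_8_0 : T := tc9_8_1
theorem sub_c9_8_0 : root 9 refs9_8 [] 0x800002004807000000007060000000060500000000504003000004010002000010300000000302000003002014000000010 0xfeebfe7fff3fff9fffc7ffedfff1fff3fff1ffed 9 2 4 (.cons 0x3421567890 .nil) uc9_8_0 = true := by decide +kernel
noncomputable def tc9_8_2 : T := (.node 4 7 (.cons 0x6512347890 .nil) (.node 4 6 (.cons 0x8746510932 .nil) (.node 6 9 (.cons 0x8743215690 .nil) (.node 2 6 .nil (.node 0 4 (.cons 0x2398765401 (.cons 0x7893265401 (.cons 0x7890432651 .nil))) (.leaf 0x3265104789 6 .done) (.node 0 4 (.cons 0x2398765401 .nil) (.leaf 0x6239874015 2 (.leaf 0x3265104789 6 (.leaf 0x3265104789 0 .done))) .done)) .done) (.node 2 7 (.cons 0x1564327890 .nil) (.node 3 7 (.cons 0x4651098732 .nil) (.node 2 4 (.cons 0x9873246510 .nil) (.leaf 0x1564237890 5 (.node 1 7 (.cons 0x6542398710 .nil) (.leaf 0x5423987106 4 .done) .done)) .done) (.leaf 0x3465109872 1 (.node 2 5 .nil (.node 1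 3 (.cons 0x4651327890 (.cons 0x9876452310 .nil)) (.leaf 0x2564789013 2 .done) (.node 0 2 (.cons 0x4567893201 .nil) (.node 1 6 (.cons 0x7893201654 .nil) (.leaf 0x239874561 2 (.node 6 9 (.cons 0x8743215690 .nil) (.node 1 8 (.cons 0x1874569320 .nil) (.node 0 4 (.cons 0x1876932540 .nil) (.leaf 0x6723518904 1 (.leaf 0x9678104523 1 .done)) (.leaf 0x6932018745 1 .done)) .done) .done)) (.node 1 7 (.cons 0x2346517890 .nil) (.node 1 3 (.cons 0x4651327890 .nil) (.node 3 7 (.cons 0x4651098732 .nil) .done .done) (.leaf 0x5643209871 1 (.node 2 8 (.cons 0x4356712890 .nil) (.leaf 0x8201764539 1 (.leaf 0x289345176 3 .done)) .done))) .done)) .done)) .done))) .done)) (.node 3 7 .nil (.node 4 8 (.cons 0x7653210984 (.cons 0x9845601237 (.cons 0x7348906512 .nil))) (.leaf 0x3210984765 3 .done) (.node 4 8 (.cons 0x7653210984 .nil) (.node 5 9 (.cons 0x8954760123 .nil) (.node 2 4 (.cons 0x9563784210 .nil) (.node 3 8 (.cons 0x1243876590 .nil) (.leaf 0x9567834210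 7 .done) (.leaf 0x1095637842 3 .done)) (.leaf 0x2374895601 4 .done)) (.node 2 7 (.cons 0x9843721560 .nil) (.node 2 5 (.cons 0x8932547601 .nil) (.node 2 6 (.cons 0x6239874510 .nil) (.leaf 0x8726510934 4 .done) .done) (.node 0 4 (.cons 0x2398765401 .nil) (.leaf 0x8721563904 4 (.leaf 0x8937215604 7 (.leaf 0x8904321567 6 .done))) .done)) (.leaf 0x3210984765 3 .done))) .done)) (.leaf 0x1560987432 6 (.leaf 0x5123478906 7 .done)))) (.node 3 7 (.cons 0x4378906512 .nil) (.node 4 7 (.cons 0x6512347890 .nil) (.node 0 3 .nil (.node 2 4 (.cons 0x7890651243 .nil) (.leaf 0x8765421039 1 (.leaf 0x8930124567 7 (.leaf 0x7893012456 6 .done))) (.node 0 4 (.cons 0x2398765401 .nil) (.leaf 0x2340987651 6 (.node 0 8 (.cons 0x9087432156 .nil) (.node 0 7 .nil (.node 2 4 (.cons 0x7890651243 (.cons 0x8932456701 (.cons 0x6542398701 .nil))) .done .done) .done) (.leaf 0x8904321567 6 .done))) .done)) (.node 0 3 .nil (.node 2 6 (.cons 0x9873451260 (.cons 0x4789301562 (.cons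 0x9873062154 .nil))) (.leaf 0x8745621039 1 .done) (.node 2 6 (.cons 0x9873451260 .nil) (.leaf 0x8745621039 1 (.leaf 0x7893012654 6 (.node 0 2 (.cons 0x4567893201 .nil) (.node 1 4 (.cons 0x2398765410 .nil) (.leaf 0x2653098741 4 (.leaf 0x1456789320 1 (.leaf 0x7890356214 1 .done))) (.leaf 0x1563478902 4 (.leaf 0x9874365120 1 .done))) .done))) .done)) (.leaf 0x8906512347 4 .done))) (.node 1 3 .nil (.node 2 4 (.cons 0x9873421560 (.cons 0x7893106542 .nil)) (.node 2 7 (.cons 0x8724390651 .nil) (.leaf 0x3106542789 5 (.leaf 0x8906543127 7 .done)) (.leaf 0x6512437890 5 (.node 2 7 (.cons 0x8935427601 .nil) (.leaf 0x3106542789 2 (.leaf 0x8906543127 7 .done)) .done))) (.node 0 5 (.cons 0x9876054312 .nil) (.node 2 5 .nil (.node 0 4 (.cons 0x2398765401 (.cons 0x9873406521 (.cons 0x6789325401 .nil))) (.leaf 0x2340987651 6 (.leaf 0x9876521340 5 .done)) (.node 0 3 (.cons 0x9876031254 .nil) (.node 0 4 (.cons 0x2398765401 .nil) (.leaf 0x2340987651 6 (.node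 0 2 (.cons 0x4567893201 .nil) (.node 2 9 (.cons 0x4378921560 .nil) (.leaf 0x3789215604 2 (.leaf 0x4506789213 3 .done)) .done) (.leaf 0x8904321567 6 .done))) .done) .done)) (.node 2 9 (.cons 0x4378921560 .nil) (.leaf 0x6054312987 3 (.leaf 0x543129876 1 (.node 0 3 (.cons 0x5430678921 .nil) (.node 3 8 (.cons 0x7601298354 .nil) .done .done) (.node 0 4 (.cons 0x2398765401 .nil) (.node 3 8 (.cons 0x9213876045 .nil) (.node 5 9 (.cons 0x2134598760 .nil) (.leaf 0x1295406783 6 .done) .done) (.leaf 0x2340987651 6 (.leaf 0x2987340651 1 (.leaf 0x1298734065 3 .done)))) .done)))) .done)) .done)) .done)) (.node 3 7 .nil (.node 2 4 (.cons 0x9873245601 (.cons 0x9873245106 .nil)) (.leaf 0x8906512437 6 (.leaf 0x9873421560 1 (.leaf 0x9873421560 7 .done))) (.node 4 7 (.cons 0x6512347890 .nil) (.node 0 7 .nil (.node 4 9 (.cons 0x6015498732 (.cons 0x8945670123 (.cons 0x6549870123 (.cons 0x8945321076 (.cons 0x8709436512 .nil))))) .done (.node 4 6 (.cons 0x8746510932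 .nil) (.node 2 8 (.cons 0x4356709821 .nil) (.leaf 0x9073465128 6 (.leaf 0x5109328746 0 (.leaf 0x5109328746 6 (.leaf 0x5109328746 3 .done)))) (.node 0 3 (.cons 0x7890346512 .nil) (.node 0 4 (.cons 0x2398765401 .nil) (.leaf 0x2340987651 6 (.node 0 8 (.cons 0x9087432156 .nil) .done .done)) .done) .done)) .done)) (.leaf 0x8906512347 6 (.node 1 3 .nil (.node 2 4 (.cons 0x6510987423 (.cons 0x8901324765 (.cons 0x9876013245 .nil))) (.node 7 9 (.cons 0x8790651342 (.cons 0x8790651324 .nil)) (.node 0 8 (.cons 0x9324567801 (.cons 0x6542397801 (.cons 0x6798012354 (.cons 0x8097653421 .nil)))) .done .done) (.leaf 0x6098742315 1 .done)) (.node 0 3 .nil (.node 2 4 (.cons 0x6510987423 .nil) (.node 1 8 (.cons 0x9324567810 (.cons 0x9301876542 .nil)) (.leaf 0x932456781 1 .done) (.leaf 0x8765421039 1 (.leaf 0x8930124567 7 (.leaf 0x7893012456 6 .done)))) (.node 3 8 .nil (.node 4 6 (.cons 0x7465109832 .nil) (.node 0 2 (.cons 0x4567893201 (.cons 0x5467893201 .nil))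 (.leaf 0x1564789320 5 (.leaf 0x239876451 1 .done)) (.node 2 7 (.cons 0x3465127890 (.cons 0x4651093872 .nil)) (.leaf 0x5109832746 4 (.leaf 0x6453890127 3 .done)) .done)) .done) .done)) .done)) .done))) (.node 1 3 .nil (.node 4 9 (.cons 0x7894560132 (.cons 0x5498760132 .nil)) (.node 0 5 (.cons 0x8765094321 .nil) (.leaf 0x1236789450 6 (.leaf 0x4501236789 7 .done)) (.node 0 8 (.cons 0x7654980123 .nil) (.node 3 8 (.cons 0x7654983210 .nil) (.node 2 7 (.cons 0x5498327601 .nil) (.leaf 0x4983276015 7 (.leaf 0x9451067238 6 (.leaf 0x5601327894 6 .done))) .done) (.leaf 0x2108945673 4 (.leaf 0x9801237654 7 .done))) (.node 2 7 (.cons 0x8721563490 (.cons 0x8945310672 .nil)) (.leaf 0x3106549872 0 (.leaf 0x6549872310 4 .done)) .done))) (.node 2 5 (.cons 0x9876013254 .nil) (.node 0 3 .nil (.node 2 4 (.cons 0x9876013245 .nil) (.leaf 0x8765421039 1 (.leaf 0x8930124567 7 (.leaf 0x7893012456 6 .done))) (.node 3 8 .nil (.node 4 9 (.cons 0x5498760132 (.cons 0x7654983210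 (.cons 0x9452387601 (.cons 0x1256783490 .nil)))) (.leaf 0x2567834901 4 .done) .done) .done)) (.node 5 9 (.cons 0x4598760132 .nil) (.node 1 9 (.cons 0x4523198760 .nil) (.node 1 4 (.cons 0x2398765410 .nil) (.node 0 3 (.cons 0x8765903412 .nil) (.node 3 8 (.cons 0x2143876590 .nil) .done .done) (.node 0 3 (.cons 0x5678903412 .nil) (.leaf 0x6789034125 1 .done) .done)) .done) .done) .done)) .done)) .done))) .done)))
noncomputable def tc9_8_3 : T := (.node 3 7 .nil (.node 4 9 (.cons 0x8765321094 (.cons 0x8945673210 (.cons 0x6549873210 (.cons 0x8734906512 .nil)))) (.leaf 0x8732106549 0 .done) (.node 7 9 (.cons 0x8790651234 .nil) (.node 6 9 .nil (.node 0 2 (.cons 0x4567893201 (.cons 0x8796021543 .nil)) (.leaf 0x2154378960 0 (.leaf 0x4378960215 2 .done)) (.node 0 4 (.cons 0x6987321540 .nil) (.leaf 0x2340987651 6 (.leaf 0x2378960451 2 (.node 0 7 (.cons 0x6987045123 .nil) (.leaf 0x2154078963 1 .done) (.leaf 0x7321540698 3 (.leaf 0x8904321567 6 .done)))))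 .done)) (.node 4 8 (.cons 0x4879065123 .nil) (.leaf 0x651234879 4 (.node 0 7 (.cons 0x6321548970 .nil) (.leaf 0x1548970632 5 (.leaf 0x4512360798 4 .done)) (.node 2 4 (.cons 0x2487653901 .nil) (.node 0 3 (.cons 0x6512487903 .nil) (.leaf 0x2487903651 4 .done) (.leaf 0x6539012487 6 (.leaf 0x5390124876 7 (.leaf 0x5678421093 1 .done)))) (.leaf 0x5609784321 5 .done)))) .done)) (.node 1 3 .nil (.node 0 4 (.cons 0x2398765401 (.cons 0x5678904312 (.cons 0x9876540132 .nil))) (.leaf 0x2340987651 6 (.node 2 5 (.cons 0x4312567890 .nil) (.node 0 3 (.cons 0x4309876521 .nil) (.node 1 6 (.cons 0x7893256104 (.cons 0x9876125430 .nil)) .done .done) (.leaf 0x1340987652 4 (.leaf 0x6789043125 1 .done))) (.node 2 5 (.cons 0x6789325401 .nil) (.node 4 8 (.cons 0x9012356784 (.cons 0x7652134890 (.cons 0x7652310984 .nil))) (.node 7 9 (.cons 0x7984563210 (.cons 0x5609784312 .nil)) (.leaf 0x654879321 3 (.leaf 0x654879321 0 .done)) .done) (.node 5 8 (.cons 0x9854012367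 (.cons 0x7631258904 .nil)) (.node 1 4 (.cons 0x9041325876 (.cons 0x7631409852 .nil)) (.node 1 9 (.cons 0x6732589140 .nil) (.leaf 0x6732589140 0 (.leaf 0x5406789132 6 .done)) .done) .done) .done)) .done))) (.node 0 3 .nil (.node 4 6 (.cons 0x7890346512 .nil) (.node 0 2 (.cons 0x5467893201 .nil) (.leaf 0x239876451 1 (.leaf 0x6437890215 6 .done)) (.node 2 9 (.cons 0x5467892310 (.cons 0x5467892301 .nil)) (.leaf 0x3015467892 6 (.node 0 5 (.cons 0x9876450132 .nil) (.leaf 0x3105467892 4 (.leaf 0x4501329876 7 (.leaf 0x1329876450 6 .done))) (.leaf 0x8923015467 7 .done))) .done)) (.node 3 8 .nil (.node 4 9 (.cons 0x8765321094 (.cons 0x7654983210 (.cons 0x9456012387 (.cons 0x7834906512 .nil)))) (.node 0 4 (.cons 0x2398765401 (.cons 0x9832104567 .nil)) (.node 2 6 (.cons 0x5401398762 (.cons 0x9401267835 .nil)) (.leaf 0x7835490126 2 .done) (.leaf 0x8904321567 6 .done)) .done) .done) .done)) .done)) .done))) (.node 3 7 (.cons 0x4378906512 .nil) (.node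 6 9 (.cons 0x2154378960 .nil) (.node 4 7 (.cons 0x6512347890 .nil) (.node 4 6 (.cons 0x8746510932 .nil) (.node 2 6 (.cons 0x9873264510 .nil) (.leaf 0x6237890154 1 (.node 0 4 (.cons 0x6987321540 .nil) (.leaf 0x2340987651 6 (.leaf 0x6239874015 2 (.leaf 0x3265104789 6 .done))) .done)) .done) (.node 7 9 .nil (.node 0 8 (.cons 0x2154736980 (.cons 0x3654798012 (.cons 0x7980634512 .nil))) (.leaf 0x9745632108 3 .done) .done) (.leaf 0x8906512347 4 .done))) .done) (.node 6 9 .nil (.node 0 2 (.cons 0x4567893201 (.cons 0x7896021543 .nil)) (.node 4 8 (.cons 0x9012356784 (.cons 0x7845693201 (.cons 0x9678453210 (.cons 0x4873965102 (.cons 0x7843209651 .nil))))) .done (.leaf 0x1206987345 3 (.leaf 0x6987345120 2 .done))) (.node 1 3 .nil (.node 2 9 (.cons 0x4378921560 (.cons 0x7892134560 (.cons 0x5431298760 .nil))) (.node 0 7 (.cons 0x8921560734 (.cons 0x8923107654 .nil)) (.node 0 2 (.cons 0x4567893201 (.cons 0x9876021345 .nil)) (.node 1 7 (.cons 0x2065439871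 .nil) (.leaf 0x654317892 3 (.leaf 0x5439871206 4 .done)) .done) (.leaf 0x4312987065 2 .done)) .done) (.node 0 5 (.cons 0x9876054312 .nil) (.node 5 9 (.cons 0x2134598760 .nil) (.node 7 9 (.cons 0x8976054312 .nil) (.node 3 8 (.cons 0x6798321054 .nil) (.node 0 3 .nil (.node 2 4 (.cons 0x9873421560 (.cons 0x8769542130 (.cons 0x8956730124 (.cons 0x8796035421 (.cons 0x6789542103 .nil))))) .done .done) .done) .done) .done) (.node 2 9 (.cons 0x4378921560 .nil) (.leaf 0x6054312987 3 (.leaf 0x543129876 1 (.node 0 3 (.cons 0x5430678921 .nil) (.node 3 8 (.cons 0x9210678354 .nil) .done .done) .done))) .done)) .done)) .done)) .done)) (.node 3 7 .nil (.node 2 4 (.cons 0x9873245601 (.cons 0x9873245106 .nil)) (.leaf 0x8906512437 6 (.leaf 0x9873421560 1 (.leaf 0x9873421560 7 .done))) (.node 6 9 (.cons 0x4510698732 .nil) (.node 4 6 .nil (.node 0 2 (.cons 0x6987345120 (.cons 0x8739645102 (.cons 0x5467893201 .nil))) (.leaf 0x239876451 1 (.leaf 0x4698732015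 3 .done)) (.node 4 7 (.cons 0x6512347890 .nil) (.leaf 0x8906512347 6 (.node 0 3 .nil (.node 2 4 (.cons 0x3789601542 (.cons 0x8967301245 (.cons 0x7896542103 .nil))) (.leaf 0x7893012456 6 .done) (.node 1 6 (.cons 0x9874561032 .nil) (.node 1 3 .nil (.node 0 2 (.cons 0x6987345120 (.cons 0x8743156902 .nil)) (.leaf 0x3156478902 5 (.leaf 0x231564789 1 .done)) .done) .done) .done)) .done)) .done)) (.node 0 3 .nil (.node 2 4 (.cons 0x1542378960 (.cons 0x7896032451 .nil)) (.leaf 0x5423789601 3 (.leaf 0x8765421039 1 (.leaf 0x8930124567 7 .done))) (.node 1 3 .nil (.node 0 4 (.cons 0x6987321540 (.cons 0x7896045132 (.cons 0x7896540312 .nil))) (.leaf 0x7321540698 4 (.leaf 0x2340987651 6 .done)) (.node 3 8 .nil (.node 4 7 (.cons 0x6512347890 (.cons 0x4783215690 .nil)) (.leaf 0x8906512347 6 (.node 0 4 (.cons 0x6987321540 (.cons 0x2387409651 (.cons 0x9832104567 .nil))) (.leaf 0x1238740965 1 (.node 1 4 (.cons 0x2398765410 (.cons 0x2387415690 (.cons 0x5674109832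 (.cons 0x5387690412 .nil)))) .done .done)) .done)) .done) .done)) .done)) .done)) (.node 1 3 .nil (.node 4 9 (.cons 0x8765321094 (.cons 0x7894560132 (.cons 0x5498760132 .nil))) (.node 0 8 (.cons 0x7654980123 .nil) (.node 3 8 (.cons 0x7654983210 .nil) (.node 2 7 (.cons 0x5498327601 .nil) (.leaf 0x4983276015 7 (.leaf 0x9451067238 6 (.leaf 0x5601327894 6 .done))) .done) (.leaf 0x2108945673 4 (.leaf 0x9801237654 7 .done))) (.node 2 7 (.cons 0x4327890651 .nil) (.leaf 0x3106549872 0 (.node 2 6 (.cons 0x8726094351 (.cons 0x8726094315 (.cons 0x5134987260 (.cons 0x3154987260 .nil)))) .done (.leaf 0x6549872310 4 .done))) .done)) (.node 2 5 (.cons 0x9876013254 .nil) (.node 0 5 .nil (.node 4 6 (.cons 0x5098764312 .nil) (.node 4 9 (.cons 0x5649873210 (.cons 0x5106498732 .nil)) (.leaf 0x6501234987 6 (.leaf 0x1237894650 3 .done)) (.leaf 0x546789321 6 .done)) (.node 4 6 (.cons 0x5098764312 .nil) (.leaf 0x3125098764 4 (.node 0 2 (.cons 0x9873465120 .nil)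 (.node 0 3 (.cons 0x7890346512 .nil) (.node 3 8 (.cons 0x9021564387 .nil) .done .done) (.leaf 0x6437890215 6 (.leaf 0x9876452013 3 .done))) .done)) .done)) (.node 1 9 (.cons 0x4523198760 .nil) (.node 5 9 (.cons 0x4598760132 .nil) (.node 1 4 (.cons 0x2398765410 .nil) (.node 0 3 (.cons 0x8765903412 .nil) (.node 3 8 (.cons 0x2143876590 .nil) .done .done) (.node 0 3 (.cons 0x5678903412 .nil) (.leaf 0x6789034125 1 .done) .done)) .done) (.node 0 2 (.cons 0x3456789120 .nil) (.leaf 0x1987602543 3 (.leaf 0x1987602543 6 (.leaf 0x1987602543 2 (.leaf 0x678913452 0 .done)))) .done)) .done)) .done)) .done))) .done)))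
noncomputable def tc9_8_4 : T := (.node 2 4 (.cons 0x1243567890 .nil) (.node 1 4 (.cons 0x2143567890 .nil) (.leaf 0x6789014235 6 (.leaf 0x6789014235 3 (.leaf 0x1098765324 0 .done))) (.node 1 4 (.cons 0x2398765410 (.cons 0x2143567890 .nil)) (.node 1 9 (.cons 0x8765423910 (.cons 0x8765342190 .nil)) (.node 4 7 (.cons 0x6512347890 (.cons 0x8901476532 .nil)) (.node 5 8 (.cons 0x6785342190 (.cons 0x6741098532 (.cons 0x6741235890 .nil))) .done (.node 4 6 (.cons 0x2354678910 .nil) (.leaf 0x2109874653 0 .done) .done)) .done) (.node 5 8 (.cons 0x6785390142 (.cons 0x9014235876 .nil)) (.node 0 6 (.cons 0x5876093241 (.cons 0x9067853214 (.cons 0x7609853214 (.cons 0x9067853241 .nil)))) (.leaf 0x4239067851 7 .done) .done) .done)) (.node 1 4 (.cons 0x2398765410 (.cons 0x2143567890 .nil)) (.node 0 4 (.cons 0x2398765401 .nil) (.node 0 2 (.cons 0x4567893201 .nil) (.node 4 9 (.cons 0x8765493201 (.cons 0x6789453210 (.cons 0x8765349021 .nil))) .done (.node 4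 6 (.cons 0x5467893201 (.cons 0x5346789021 (.cons 0x9876453201 .nil))) .done .done)) (.node 4 7 (.cons 0x6512347890 (.cons 0x8901247653 .nil)) (.node 2 6 (.cons 0x1562347890 (.cons 0x9874015326 .nil)) (.leaf 0x3409876215 5 (.node 1 8 (.cons 0x7654239810 (.cons 0x7653421890 .nil)) (.leaf 0x7623518904 1 (.leaf 0x4762351890 3 .done)) .done)) .done) (.leaf 0x5678904123 5 (.leaf 0x8904321567 6 .done)))) (.node 1 8 (.cons 0x7654239810 (.cons 0x7653421890 .nil)) (.node 0 7 (.cons 0x8932456701 (.cons 0x9812435670 (.cons 0x9810765324 .nil))) (.node 0 2 (.cons 0x4567893201 .nil) (.leaf 0x2098765341 1 (.node 1 7 (.cons 0x8932456710 (.cons 0x8935420176 .nil)) .done .done)) (.leaf 0x3421890765 2 .done)) .done) .done)) (.leaf 0x9876534210 4 (.leaf 0x9876534210 5 .done))))) (.node 3 6 .nil (.node 4 7 (.cons 0x6512347890 (.cons 0x2156347890 (.cons 0x4789015632 .nil))) (.leaf 0x5632109874 0 (.node 4 9 (.cons 0x8765321094 (.cons 0x7894563210 .nil)) (.node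 2 4 (.cons 0x7890156324 .nil) (.leaf 0x5109874236 0 (.leaf 0x156324789 4 (.node 0 4 (.cons 0x2398765401 (.cons 0x7890436512 .nil)) (.node 0 7 (.cons 0x6542398701 (.cons 0x2456398701 .nil)) (.leaf 0x3654987012 2 .done) (.leaf 0x8904321567 6 .done)) .done))) (.node 2 8 (.cons 0x1287653490 (.cons 0x9453678210 (.cons 0x6351287490 .nil))) (.node 0 6 (.cons 0x9874510632 .nil) (.leaf 0x9478215360 2 (.leaf 0x3609478215 3 (.leaf 0x1547890632 3 .done))) (.leaf 0x7653490128 5 .done)) .done)) .done)) (.node 0 6 (.cons 0x7890651234 .nil) tc9_8_3 (.node 3 7 .nil (.node 4 9 (.cons 0x8765321094 (.cons 0x8945673210 (.cons 0x6549873210 .nil))) (.node 0 6 (.cons 0x5498760123 (.cons 0x4378906512 (.cons 0x6015498732 .nil))) (.leaf 0x8732106549 0 (.leaf 0x1235498760 6 .done)) (.node 0 6 (.cons 0x7890651234 (.cons 0x8734906512 (.cons 0x4378906512 .nil))) (.node 2 8 (.cons 0x1287653490 (.cons 0x6537821094 (.cons 0x5498210673 (.cons 0x7349821560 .nil)))) (.leaf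 0x6735498210 6 .done) (.leaf 0x5498732106 3 .done)) .done)) (.node 1 3 .nil (.node 3 8 .nil (.node 4 7 (.cons 0x6512347890 .nil) (.node 6 9 (.cons 0x8743215690 (.cons 0x4783215690 .nil)) (.node 0 4 (.cons 0x2398765401 (.cons 0x5678904312 (.cons 0x9876540132 (.cons 0x9832104567 (.cons 0x7698321045 .nil))))) (.node 5 8 (.cons 0x7409658321 (.cons 0x7409658312 .nil)) (.leaf 0x967458321 1 .done) .done) (.leaf 0x7832109654 4 .done)) (.node 2 4 (.cons 0x2478936510 (.cons 0x6510938742 (.cons 0x5674210983 (.cons 0x9012478356 .nil)))) (.leaf 0x124765389 6 .done) (.node 2 4 (.cons 0x9874236510 (.cons 0x8901324765 .nil)) (.leaf 0x3651098742 1 (.node 2 6 (.cons 0x1562347890 (.cons 0x9015623874 .nil)) (.leaf 0x5310987426 1 (.leaf 0x5478901326 1 .done)) (.leaf 0x7890156324 4 .done))) .done))) (.node 0 3 .nil (.node 2 4 (.cons 0x2456789310 (.cons 0x2456789301 .nil)) (.node 5 9 (.cons 0x8765903421 (.cons 0x8765901324 (.cons 0x8765903124 .nil))) (.node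 1 8 (.cons 0x9324567810 (.cons 0x9301876542 .nil)) (.leaf 0x932456781 1 (.node 4 7 (.cons 0x6512347890 (.cons 0x2189567430 (.cons 0x4765981032 .nil))) .done .done)) .done) (.leaf 0x8765421039 1 (.leaf 0x8930124567 7 (.leaf 0x7893012456 6 .done)))) (.node 4 8 (.cons 0x9012356784 .nil) (.node 4 9 (.cons 0x8765321094 .nil) (.node 0 8 (.cons 0x7654980123 (.cons 0x7654980132 .nil)) (.leaf 0x4980123765 6 .done) (.node 0 4 (.cons 0x2398765401 (.cons 0x5678904312 (.cons 0x9876540132 .nil))) (.node 0 7 (.cons 0x6549870123 (.cons 0x6549870132 .nil)) (.leaf 0x9870123654 6 .done) .done) (.leaf 0x3210948765 1 .done))) (.node 2 5 (.cons 0x9845210376 (.cons 0x7652134890 (.cons 0x7652130984 .nil))) .done (.node 4 7 (.cons 0x6512347890 .nil) (.node 2 7 (.cons 0x9845672301 .nil) (.node 6 9 (.cons 0x9654783210 .nil) (.leaf 0x2301569847 3 (.leaf 0x7832109654 4 (.leaf 0x2301569847 6 .done))) (.leaf 0x6548901327 7 .done)) (.node 2 5 (.cons 0x8903476521 (.cons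 0x3109847652 (.cons 0x2567489031 .nil))) .done .done)) .done))) .done)) .done)) (.node 0 3 .nil (.node 2 4 (.cons 0x2456789301 .nil) (.node 4 7 (.cons 0x8742390156 (.cons 0x2478936510 (.cons 0x9874236510 .nil))) .done (.node 1 4 (.cons 0x2398765410 (.cons 0x5678903412 .nil)) (.node 1 9 (.cons 0x8765423910 (.cons 0x2198765430 .nil)) .done .done) (.leaf 0x8765421039 1 (.leaf 0x8930124567 7 (.leaf 0x7893012456 6 .done))))) (.node 3 8 .nil (.node 4 7 (.cons 0x6512347890 .nil) (.node 6 9 (.cons 0x8743215690 (.cons 0x9654783012 (.cons 0x4783215690 .nil))) (.node 0 4 (.cons 0x2398765401 (.cons 0x9832104567 (.cons 0x7698321045 .nil))) (.node 0 7 (.cons 0x9870436512 .nil) (.leaf 0x3896547012 3 .done) (.leaf 0x8904321567 6 .done)) .done) (.node 2 4 (.cons 0x2478936510 (.cons 0x6510938742 (.cons 0x5674210983 (.cons 0x9012478356 .nil)))) (.leaf 0x124765389 6 .done) (.node 2 4 (.cons 0x9874236510 (.cons 0x5674238901 .nil)) (.leaf 0x3651098742 1 (.node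 6 9 (.cons 0x8742356901 (.cons 0x2478356901 .nil)) (.leaf 0x965387421 3 (.leaf 0x8356901247 2 .done)) (.leaf 0x7890156324 4 .done))) .done))) .done) .done)) .done)) .done)) .done))) (.node 3 6 .nil (.node 4 7 (.cons 0x6512347890 (.cons 0x2156347890 (.cons 0x4789015632 .nil))) (.leaf 0x5632109874 0 (.node 4 8 (.cons 0x7653210984 (.cons 0x5367489012 .nil)) (.node 0 4 (.cons 0x2398765401 (.cons 0x7890436512 .nil)) (.node 0 2 (.cons 0x4567893201 .nil) (.leaf 0x1563478902 7 (.leaf 0x9874365120 6 (.node 6 9 (.cons 0x7896345120 (.cons 0x8740963215 .nil)) (.leaf 0x3201547896 3 .done) .done))) (.leaf 0x2340987651 6 (.leaf 0x8904321567 6 .done))) (.leaf 0x3210984765 3 .done)) .done)) (.node 0 6 (.cons 0x7890651234 .nil) tc9_8_2 (.node 3 7 .nil (.node 0 6 (.cons 0x7890651234 (.cons 0x4378906512 .nil)) (.node 4 9 (.cons 0x8945673210 (.cons 0x6549873210 (.cons 0x8734906512 .nil))) (.leaf 0x2106549873 4 (.leaf 0x8732106549 0 .done)) (.node 4 7 (.cons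 0x6512347890 .nil) (.node 4 6 (.cons 0x8746510932 (.cons 0x2156437890 (.cons 0x4651098732 .nil))) .done (.node 4 8 (.cons 0x7653210984 (.cons 0x9845601237 (.cons 0x7348906512 .nil))) (.leaf 0x3210984765 3 .done) (.leaf 0x1560987432 6 (.leaf 0x5123478906 7 .done)))) (.node 2 4 (.cons 0x9873245601 (.cons 0x9873245106 .nil)) (.leaf 0x8906512437 6 (.leaf 0x9873421560 1 (.leaf 0x9873421560 7 .done))) .done))) (.node 1 3 .nil (.node 0 4 (.cons 0x2398765401 (.cons 0x5678904312 (.cons 0x9876540132 .nil))) (.node 5 9 (.cons 0x8765904321 (.cons 0x8765904312 .nil)) (.node 1 8 (.cons 0x4095678123 .nil) (.leaf 0x2187659043 7 (.node 2 5 (.cons 0x9325678104 .nil) (.node 2 8 (.cons 0x9328765401 .nil) (.node 1 4 (.cons 0x2398765410 .nil) (.node 1 9 (.cons 0x8765401932 .nil) (.leaf 0x3910456782 3 (.leaf 0x456782391 2 .done)) (.leaf 0x3140956782 3 (.leaf 0x956782314 2 .done))) (.leaf 0x1287659043 7 (.node 1 9 (.cons 0x1932876540 .nil) (.leaf 0x6782319045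 3 (.leaf 0x6782319045 0 (.leaf 0x456782391 0 .done))) .done))) .done) (.leaf 0x7659043218 6 .done))) .done) (.leaf 0x2340987651 6 (.node 6 9 (.cons 0x7896540123 .nil) (.node 2 7 (.cons 0x6540139872 .nil) (.leaf 0x456987231 2 (.leaf 0x2310456987 0 (.node 5 7 (.cons 0x6578904321 (.cons 0x8965721340 (.cons 0x8965723104 .nil))) (.node 0 8 (.cons 0x4089657213 (.cons 0x4089657231 .nil)) (.leaf 0x9657213408 4 (.leaf 0x4312756980 1 .done)) .done) (.leaf 0x5401327896 6 .done)))) (.leaf 0x2104569873 0 (.leaf 0x2104569873 3 .done))) (.node 0 3 .nil (.node 5 9 (.cons 0x6789540123 (.cons 0x6789540312 .nil)) .done (.node 4 7 (.cons 0x6512347890 .nil) (.node 0 2 (.cons 0x9874365120 (.cons 0x8902134765 .nil)) (.node 2 4 (.cons 0x2478936510 .nil) (.leaf 0x9365102478 0 (.leaf 0x8931024567 1 .done)) .done) (.node 2 4 (.cons 0x9874236510 (.cons 0x8901324765 .nil)) (.leaf 0x3651098742 1 (.node 2 8 (.cons 0x4765328901 .nil) (.leaf 0x5310982476 0 (.leaf 0x1356742890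 2 (.leaf 0x5310982476 6 .done))) .done)) .done)) .done)) .done)))) (.node 0 3 .nil (.node 2 4 (.cons 0x2456789301 .nil) (.node 0 7 (.cons 0x8907653421 (.cons 0x9870156324 .nil)) (.node 4 7 (.cons 0x2478936510 (.cons 0x9874236510 .nil)) .done .done) (.node 1 4 (.cons 0x2398765410 (.cons 0x5678903412 .nil)) (.node 1 9 (.cons 0x8765423910 (.cons 0x2198765430 .nil)) .done .done) (.leaf 0x8765421039 1 (.leaf 0x8930124567 7 (.leaf 0x7893012456 6 .done))))) (.node 3 8 .nil (.node 4 7 (.cons 0x6512347890 (.cons 0x4765389012 .nil)) (.node 0 4 (.cons 0x2398765401 (.cons 0x9832104567 .nil)) (.node 1 9 (.cons 0x8765401932 (.cons 0x5678340912 .nil)) (.leaf 0x6783219045 3 .done) (.node 2 5 (.cons 0x3409876521 (.cons 0x9043876521 (.cons 0x6740983521 .nil))) .done (.leaf 0x8904321567 6 .done))) (.node 2 4 (.cons 0x9874236510 (.cons 0x5674238901 .nil)) (.leaf 0x3651098742 1 (.node 1 6 (.cons 0x7893245610 (.cons 0x7423890165 .nil)) (.leaf 0x5324789016 1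 (.leaf 0x987423561 4 .done)) (.leaf 0x7890156324 4 .done))) .done)) .done) .done)) .done)) (.node 3 8 .nil (.node 4 7 (.cons 0x6512347890 (.cons 0x4765389012 .nil)) (.node 6 9 (.cons 0x8743215690 (.cons 0x4783215690 .nil)) (.node 0 7 (.cons 0x8347096512 .nil) (.node 4 8 (.cons 0x7483210965 (.cons 0x5489670123 (.cons 0x6984510732 .nil))) (.leaf 0x1569078432 6 .done) (.leaf 0x3896547012 3 .done)) (.leaf 0x7832109654 4 .done)) (.node 2 4 (.cons 0x9874236510 (.cons 0x5674238901 .nil)) (.leaf 0x3651098742 1 (.node 1 6 (.cons 0x7893245610 (.cons 0x7423890165 .nil)) (.leaf 0x5324789016 1 (.leaf 0x987423561 4 .done)) (.leaf 0x7890156324 4 .done))) .done)) (.node 0 3 .nil (.node 2 4 (.cons 0x2456789301 .nil) (.node 4 7 (.cons 0x8742390156 (.cons 0x2478936510 (.cons 0x9874236510 .nil))) .done (.node 1 8 (.cons 0x9324567810 (.cons 0x9301876542 .nil)) (.leaf 0x932456781 1 (.node 5 9 (.cons 0x4239567810 (.cons 0x9567812430 .nil)) (.node 0 4 (.cons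 0x7659812304 (.cons 0x6789540321 (.cons 0x2403956781 .nil))) (.node 1 9 (.cons 0x8765423910 (.cons 0x2198765430 .nil)) (.leaf 0x2304567891 6 (.leaf 0x3219876540 4 .done)) (.leaf 0x8904321567 6 .done)) .done) .done)) (.leaf 0x8765421039 1 (.leaf 0x8930124567 7 (.leaf 0x7893012456 6 .done))))) (.node 1 3 .nil (.node 0 4 (.cons 0x2398765401 (.cons 0x5678904312 (.cons 0x9876540132 .nil))) (.leaf 0x2340987651 6 (.node 6 9 (.cons 0x7896540123 .nil) (.leaf 0x3210456987 0 (.node 2 7 (.cons 0x8721569034 (.cons 0x8721340965 (.cons 0x5698721340 (.cons 0x3127896540 .nil)))) .done (.node 0 6 (.cons 0x4512378960 (.cons 0x5406987312 .nil)) (.leaf 0x2378960451 6 (.leaf 0x6987321540 0 .done)) .done))) (.node 5 9 (.cons 0x6789540123 .nil) (.node 2 6 (.cons 0x7895126340 (.cons 0x8762134095 (.cons 0x3126789540 .nil))) (.leaf 0x1304598762 3 .done) (.node 1 6 (.cons 0x3216789540 .nil) (.node 4 8 (.cons 0x4876590321 (.cons 0x4876590312 (.cons 0x5904876132 .nil)))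 .done (.leaf 0x2304598761 3 (.leaf 0x7895403216 3 .done))) .done)) .done))) .done) .done)) .done)) .done))) .done))) .done)))
noncomputable def uc9_8_1 : T := tc9_8_4
theorem sub_c9_8_1 : root 9 refs9_8 [] 0x800002004807000000007060000000060500000000504006000004010002000010300000000302000006002014000000010 0xfeebfe7fff3fff9fff8fffedfff1fff3ffb9ffed 9 3 5 .nil uc9_8_1 = true := by decide +kernel
noncomputable def tc9_8_5 : T := (.node 0 3 .nil (.node 1 9 (.cons 0x2198765430 .nil) (.leaf 0x8765403219 1 (.leaf 0x3456789120 5 (.leaf 0x3456789120 4 .done))) (.node 3 8 (.cons 0x9832104567 .nil) (.node 3 5 .nil (.node 2 4 (.cons 0x1243567890 .nil) (.node 0 7 (.cons 0x8907651234 (.cons 0x8932451076 (.cons 0x8907651243 (.cons 0x9832451076 .nil)))) .done (.leaf 0x9876534210 4 (.leaf 0x9876534210 5 .done))) (.node 3 7 .nil (.node 4 8 (.cons 0x7651234890 (.cons 0x2156734890 (.cons 0x4890156732 .nil))) (.leaf 0x1237654890 5 .done) (.node 1 3 .nil (.node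 2 4 (.cons 0x2456789310 .nil) (.node 0 7 (.cons 0x8907651234 (.cons 0x8932451076 (.cons 0x8907651243 (.cons 0x9832451076 .nil)))) .done (.leaf 0x8931024567 1 (.leaf 0x7893102456 3 .done))) .done) .done)) .done)) (.node 3 5 .nil (.node 2 4 (.cons 0x1243567890 .nil) (.node 0 7 (.cons 0x8907651234 (.cons 0x8932451076 (.cons 0x9834215670 .nil))) (.leaf 0x4215670983 3 .done) (.leaf 0x9876534210 4 (.leaf 0x9876534210 5 .done))) (.node 3 7 .nil (.node 4 8 (.cons 0x7651234890 (.cons 0x2156734890 (.cons 0x4890156732 .nil))) (.leaf 0x1237654890 5 (.leaf 0x1567348902 3 .done)) (.node 1 3 .nil (.node 2 4 (.cons 0x2456789310 .nil) (.node 0 7 (.cons 0x8907651234 (.cons 0x9834215670 .nil)) (.leaf 0x4215670983 3 .done) (.leaf 0x8931024567 1 (.leaf 0x7893102456 3 .done))) .done) .done)) .done)) .done)) (.node 0 7 (.cons 0x8907651234 .nil) (.node 0 6 .nil (.node 2 4 (.cons 0x8907651243 (.cons 0x7893245601 (.cons 0x5423987601 .nil))) .done (.node 0 8 .nil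 (.node 1 7 (.cons 0x8904321765 (.cons 0x9806715432 (.cons 0x9804321765 .nil))) (.leaf 0x7654089321 0 .done) (.node 3 8 (.cons 0x4389076512 .nil) (.node 0 5 .nil (.node 1 9 (.cons 0x5670438912 (.cons 0x6789123450 (.cons 0x7650438912 .nil))) (.leaf 0x2340567891 4 .done) .done) .done) .done)) .done)) (.node 0 6 .nil (.node 1 9 (.cons 0x7891234560 (.cons 0x5432198760 (.cons 0x5430678912 .nil))) (.node 0 5 (.cons 0x8765091234 .nil) (.leaf 0x4321987650 0 (.leaf 0x1987650432 4 .done)) .done) (.node 0 8 .nil (.node 4 9 (.cons 0x8765493201 .nil) (.leaf 0x876549321 6 (.leaf 0x876549321 2 (.leaf 0x8076512349 3 .done))) (.node 0 5 .nil (.node 1 9 (.cons 0x5430678912 (.cons 0x6789123450 .nil)) (.leaf 0x2340567891 4 (.node 1 8 (.cons 0x7654018932 (.cons 0x6781934502 (.cons 0x4391876502 .nil))) .done .done)) .done) .done)) .done)) .done)) .done))) (.node 2 4 .nil (.node 3 5 (.cons 0x1243567890 .nil) (.node 1 4 (.cons 0x2143567890 .nil) (.leaf 0x6789014235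 6 (.node 4 9 (.cons 0x6789453210 .nil) (.leaf 0x6532104987 4 .done) (.leaf 0x1098765324 0 .done))) (.leaf 0x9876534210 1 (.leaf 0x8901243567 6 .done))) (.node 2 5 .nil (.node 1 8 (.cons 0x9324567810 (.cons 0x7652398104 (.cons 0x1876524390 .nil))) (.leaf 0x5243901876 6 (.leaf 0x2439018765 7 .done)) (.node 2 7 (.cons 0x8932765401 .nil) (.node 1 8 (.cons 0x9324567810 .nil) (.node 4 8 (.cons 0x6723984510 .nil) (.node 1 4 (.cons 0x2398765410 .nil) (.node 3 8 (.cons 0x1425678390 .nil) (.leaf 0x7652410938 6 .done) .done) (.leaf 0x9015678423 6 (.leaf 0x932487651 7 .done))) (.leaf 0x932456781 1 (.leaf 0x3981045672 6 (.leaf 0x4018932765 6 .done)))) (.node 4 8 (.cons 0x4893276510 .nil) (.node 1 8 (.cons 0x9324567810 .nil) (.leaf 0x932456781 1 (.node 5 9 (.cons 0x4239567810 .nil) (.leaf 0x3240187659 6 (.node 3 8 (.cons 0x1276598340 .nil) (.leaf 0x9567834210 7 .done) .done)) (.leaf 0x456723981 7 .done))) (.leaf 0x6723984015 0 (.leaf 0x6723984015 6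 (.leaf 0x6723984015 2 .done)))) .done)) .done)) (.node 1 6 (.cons 0x5423987610 .nil) (.node 0 5 (.cons 0x6789324501 .nil) (.node 2 5 .nil (.node 1 7 (.cons 0x8904321765 (.cons 0x8932540176 (.cons 0x8932567104 (.cons 0x8716520934 .nil)))) .done (.node 2 8 .nil (.node 1 4 (.cons 0x2398765410 (.cons 0x2876509341 .nil)) (.leaf 0x8239014567 5 .done) (.node 2 7 (.cons 0x8932765401 .nil) (.node 1 4 (.cons 0x2398765410 .nil) (.node 4 9 (.cons 0x4932876501 .nil) (.leaf 0x8765014932 3 .done) (.node 0 3 (.cons 0x7652893041 .nil) (.node 2 6 (.cons 0x1452678930 .nil) (.leaf 0x9301452678 6 .done) .done) .done)) .done) .done)) .done)) (.node 2 8 (.cons 0x5093428761 .nil) (.leaf 0x934287615 1 (.leaf 0x9051678243 6 .done)) (.leaf 0x542398761 1 .done))) (.node 4 7 (.cons 0x6547893201 .nil) (.leaf 0x239874561 2 (.leaf 0x239874561 3 (.leaf 0x239874561 6 .done))) (.node 4 7 (.cons 0x6547893201 .nil) (.node 5 8 (.cons 0x7658904321 .nil) (.leaf 0x4785612093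 4 (.leaf 0x7439021658 6 (.node 1 7 (.cons 0x2340985671 .nil) (.leaf 0x2340985671 0 (.node 2 7 (.cons 0x1654398720 .nil) (.leaf 0x6172043985 6 .done) .done)) (.leaf 0x6587439021 7 .done)))) (.node 4 9 .nil (.node 3 5 (.cons 0x2453987610 (.cons 0x8765321094 .nil)) (.leaf 0x2104987653 6 .done) (.node 1 4 (.cons 0x2398765410 .nil) (.node 2 8 (.cons 0x9328765410 .nil) (.node 0 3 (.cons 0x9821567430 .nil) (.node 3 5 (.cons 0x6742893510 .nil) (.leaf 0x4012893567 6 .done) (.leaf 0x1567430982 3 .done)) (.leaf 0x6782390145 4 .done)) .done) .done)) (.leaf 0x5478932016 7 .done))) .done))) .done))) (.node 2 4 .nil (.node 0 3 (.cons 0x2456789301 .nil) (.node 3 5 (.cons 0x1243567890 .nil) (.leaf 0x9876534210 1 (.leaf 0x8901243567 6 .done)) (.leaf 0x4215678903 6 (.leaf 0x4567893012 4 .done))) (.node 4 8 (.cons 0x7651234890 .nil) (.node 1 8 (.cons 0x9324567810 .nil) (.leaf 0x932456781 1 (.node 3 8 (.cons 0x9832104567 .nil) (.node 2 8 .nil (.node 0 7 (.cons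 0x8907651234 (.cons 0x9342815670 (.cons 0x4328907651 .nil))) (.leaf 0x6512348907 0 .done) (.node 2 5 (.cons 0x7652398104 .nil) (.node 2 7 (.cons 0x8932765401 .nil) (.node 3 5 .nil (.node 1 4 (.cons 0x2398765410 (.cons 0x1428765390 .nil)) (.leaf 0x6532140987 1 .done) (.node 4 9 (.cons 0x8765321094 .nil) (.leaf 0x5321094876 0 (.leaf 0x5321094876 3 .done)) .done)) .done) .done) .done)) .done) (.node 0 8 (.cons 0x9324567801 .nil) (.node 2 7 (.cons 0x8156724390 .nil) (.leaf 0x456723981 7 (.leaf 0x1567243908 2 .done)) .done) .done))) (.node 4 7 (.cons 0x8932015476 .nil) (.node 3 8 (.cons 0x2156743890 .nil) (.leaf 0x9834765120 7 (.leaf 0x4765120983 6 .done)) (.node 4 6 (.cons 0x5467893201 .nil) (.node 1 4 (.cons 0x2398765410 .nil) (.node 4 9 .nil (.node 3 5 (.cons 0x5346789021 (.cons 0x8765321094 .nil)) (.leaf 0x2104987653 6 .done) .done) .done) .done) .done)) (.leaf 0x9015678423 6 (.leaf 0x932487651 7 .done)))) (.node 2 7 (.cons 0x8932765401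 .nil) (.node 2 5 .nil (.node 1 4 (.cons 0x2398765410 (.cons 0x8765239014 (.cons 0x6789325410 (.cons 0x3412567890 .nil)))) .done (.node 1 8 (.cons 0x7654018932 .nil) (.node 2 8 .nil (.node 0 7 (.cons 0x6542398701 (.cons 0x6702893451 (.cons 0x4328907651 .nil))) .done (.node 3 8 (.cons 0x9832104567 .nil) (.node 0 7 (.cons 0x6542398701 .nil) (.node 2 6 (.cons 0x9834512670 .nil) (.leaf 0x7098345126 3 .done) (.node 2 6 (.cons 0x7098156234 .nil) (.node 4 7 (.cons 0x7456239810 .nil) (.leaf 0x2398107456 3 (.leaf 0x981562347 2 .done)) .done) .done)) .done) .done)) (.leaf 0x6540189327 1 (.leaf 0x6540189327 7 (.node 3 7 (.cons 0x5673409812 .nil) (.leaf 0x4098125673 0 (.leaf 0x8125673409 4 .done)) .done)))) .done)) (.node 4 8 (.cons 0x4893276510 .nil) (.leaf 0x6723984015 0 (.leaf 0x6723984015 6 (.leaf 0x6723984015 2 .done))) (.node 2 5 .nil (.node 1 4 (.cons 0x2398765410 (.cons 0x8765239014 (.cons 0x6789325410 (.cons 0x3412567890 .nil)))) .done (.node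 3 5 .nil (.node 1 4 (.cons 0x2398765410 (.cons 0x2143567890 .nil)) (.leaf 0x7653241098 1 (.leaf 0x6532140987 1 .done)) (.node 0 3 .nil (.node 1 9 (.cons 0x2198765430 .nil) (.leaf 0x8765430219 4 (.leaf 0x2034567891 1 (.leaf 0x3019876542 4 .done))) (.node 2 8 .nil (.node 0 7 (.cons 0x6542398701 (.cons 0x6702893451 (.cons 0x4328907651 .nil))) .done (.node 3 8 (.cons 0x9832104567 .nil) (.node 0 7 (.cons 0x6542398701 .nil) (.node 2 6 (.cons 0x9834512670 .nil) (.leaf 0x7098345126 3 .done) (.node 0 6 (.cons 0x7893245601 .nil) (.node 1 9 (.cons 0x9125438760 .nil) (.leaf 0x8345219067 4 (.leaf 0x2760453891 3 (.leaf 0x4076519823 1 .done))) .done) .done)) .done) .done)) .done)) .done)) .done)) .done))) .done))) .done)))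
noncomputable def tc9_8_6 : T := (.leaf 0x3215678904 6 (.node 0 2 (.cons 0x4567893201 .nil) tc9_8_5 (.leaf 0x2340987651 4 (.node 0 7 (.cons 0x8907651234 .nil) (.node 4 8 (.cons 0x7651234890 .nil) (.leaf 0x6512348907 0 (.leaf 0x6512348907 2 (.leaf 0x6512348907 6 .done))) (.node 0 8 .nil (.node 2 4 (.cons 0x8907651243 (.cons 0x9324567801 (.cons 0x7654239801 .nil))) (.leaf 0x8076512439 4 .done) (.node 0 2 (.cons 0x4567893201 .nil) (.node 0 3 .nil (.node 1 9 (.cons 0x6543078912 (.cons 0x2198765430 .nil)) (.leaf 0x7891230456 6 (.leaf 0x3456789120 4 .done)) (.node 3 8 (.cons 0x4389076512 .nil) (.node 6 9 (.cons 0x2154389670 .nil) (.node 0 5 (.cons 0x7698321054 .nil) (.node 5 7 (.cons 0x4576983210 .nil) (.leaf 0x4012389675 1 (.leaf 0x6983210457 4 .done)) .done) (.leaf 0x2154389670 0 (.leaf 0x5120769834 4 .done))) (.node 2 9 (.cons 0x4389215670 .nil) (.leaf 0x8340765129 6 (.leaf 0x3892156704 4 (.node 3 6 (.cons 0x8921543670 .nil) (.leaf 0x3451298076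 0 .done) (.leaf 0x1567043892 7 .done)))) .done)) .done)) (.node 1 4 (.cons 0x2398765410 .nil) (.node 2 8 (.cons 0x9328765410 .nil) (.leaf 0x3901456782 7 (.node 1 8 (.cons 0x2076543981 .nil) (.node 3 8 (.cons 0x9834567021 .nil) .done (.leaf 0x4567021893 5 .done)) (.leaf 0x6782390145 4 .done))) (.leaf 0x239876541 1 (.leaf 0x5678932014 4 .done))) .done)) (.node 4 8 (.cons 0x7651234890 .nil) (.node 1 4 (.cons 0x2398765410 .nil) (.node 2 8 (.cons 0x9328765410 .nil) (.leaf 0x3901456782 7 (.node 7 9 (.cons 0x9765143280 .nil) (.leaf 0x3415679082 2 (.node 0 6 (.cons 0x7932841560 .nil) (.leaf 0x8239706514 7 (.leaf 0x4823970651 6 .done)) .done)) (.leaf 0x6782390145 4 .done))) (.node 0 2 (.cons 0x4567893201 .nil) (.leaf 0x5678932014 5 (.leaf 0x5678932014 4 (.node 2 5 (.cons 0x3412567890 .nil) (.node 1 8 (.cons 0x2567814390 .nil) (.leaf 0x9341876520 5 (.leaf 0x8143902567 1 .done)) (.node 0 3 (.cons 0x5678903412 .nil) (.leaf 0x7652143098 6 (.leaf 0x6789034125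 7 .done)) .done)) .done))) .done)) (.node 1 4 (.cons 0x2398765410 .nil) (.node 4 7 .nil (.node 5 8 (.cons 0x6587410932 (.cons 0x6740985123 .nil)) (.leaf 0x9856743210 7 .done) (.node 2 8 (.cons 0x9328765410 .nil) (.node 2 4 (.cons 0x8901567423 .nil) (.node 4 6 (.cons 0x7465109823 .nil) .done .done) (.leaf 0x3901456782 7 (.node 6 8 (.cons 0x7689043215 .nil) (.node 5 7 (.cons 0x9328675140 .nil) (.leaf 0x1234098675 4 (.leaf 0x1409328675 6 .done)) .done) (.leaf 0x6782390145 4 .done)))) .done)) (.node 2 4 (.cons 0x8907651243 .nil) (.node 1 8 (.cons 0x9324567810 .nil) (.leaf 0x932456781 1 (.node 0 2 (.cons 0x4567893201 .nil) (.leaf 0x239876541 1 (.leaf 0x5189342076 6 .done)) .done)) (.node 4 9 .nil (.node 0 5 (.cons 0x8765094321 .nil) (.node 1 8 (.cons 0x7654239810 (.cons 0x7650189324 .nil)) (.leaf 0x3218765094 6 .done) (.leaf 0x8943210567 6 .done)) .done) .done)) .done)) .done)) .done))) (.node 4 8 (.cons 0x7651234890 .nil) (.node 0 8 .nil (.node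 4 9 (.cons 0x7654980123 .nil) (.leaf 0x3215670894 3 (.leaf 0x8076512349 3 .done)) (.node 1 4 (.cons 0x2398765410 .nil) (.node 2 8 (.cons 0x9328765410 .nil) (.leaf 0x3901456782 7 (.node 2 7 (.cons 0x9341567280 .nil) (.leaf 0x3415672809 3 (.leaf 0x1439082765 2 (.node 1 8 (.cons 0x6723981540 .nil) (.node 3 8 (.cons 0x9072384156 .nil) .done .done) .done))) (.leaf 0x6782390145 4 .done))) (.node 0 2 (.cons 0x4567893201 .nil) (.leaf 0x5678932014 5 (.leaf 0x5678932014 4 (.node 4 7 (.cons 0x6547893201 .nil) (.node 2 8 (.cons 0x4328907651 .nil) (.leaf 0x5109328476 0 (.leaf 0x5109328476 6 (.leaf 0x5109328476 3 .done))) .done) .done))) .done)) .done)) (.leaf 0x9076512348 3 (.node 0 8 .nil (.node 4 9 (.cons 0x7654980123 .nil) (.leaf 0x3215670894 3 (.leaf 0x876549321 6 (.leaf 0x8076512349 3 .done))) (.node 0 2 (.cons 0x4567893201 .nil) (.node 1 9 (.cons 0x5678432091 .nil) (.node 1 4 (.cons 0x2398765410 .nil) (.node 1 6 (.cons 0x2345619870 .nil) (.node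 2 5 (.cons 0x4325619870 .nil) (.leaf 0x8704325619 4 (.leaf 0x789165234 0 .done)) (.leaf 0x1654320789 1 .done)) (.leaf 0x5678932014 5 .done)) (.node 2 6 (.cons 0x8915432670 .nil) (.leaf 0x9154326708 3 (.leaf 0x9154326708 6 (.leaf 0x5198076234 2 .done))) (.leaf 0x4876519023 7 .done))) (.node 1 4 (.cons 0x2398765410 .nil) (.node 1 7 (.cons 0x9845671023 .nil) (.node 2 8 (.cons 0x9328765410 .nil) (.leaf 0x3901456782 7 (.node 1 9 (.cons 0x4328915670 .nil) (.leaf 0x3289156704 5 (.node 0 3 (.cons 0x2198765430 .nil) (.node 3 7 (.cons 0x9845673201 .nil) (.leaf 0x8456732019 7 .done) .done) .done)) (.leaf 0x6782390145 4 .done))) (.leaf 0x2017654893 6 (.leaf 0x5671023984 6 .done))) (.leaf 0x239876541 1 (.leaf 0x5678932014 4 .done))) .done)) (.node 6 8 (.cons 0x7689043215 .nil) (.node 5 9 (.cons 0x7689512340 .nil) (.leaf 0x1234076895 1 (.leaf 0x8670432159 4 (.node 3 6 (.cons 0x1236789540 .nil) (.leaf 0x2367895401 7 (.node 5 8 (.cons 0x9854012367 .nil)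 (.node 2 5 (.cons 0x6789325401 .nil) (.node 0 5 .nil (.node 1 4 (.cons 0x2398765410 .nil) (.leaf 0x2140598763 3 (.leaf 0x5239014876 4 (.leaf 0x598763214 2 .done))) .done) .done) .done) .done)) .done))) (.node 5 7 (.cons 0x4098675123 .nil) (.leaf 0x1234098675 4 (.leaf 0x6890432157 1 (.node 5 8 .nil (.node 1 6 (.cons 0x5401678932 (.cons 0x9043216785 (.cons 0x9851670432 .nil))) (.node 2 7 (.cons 0x1567234890 (.cons 0x4093276851 (.cons 0x2761589340 .nil))) (.leaf 0x9851672340 5 .done) .done) (.node 2 5 (.cons 0x6789325401 .nil) (.node 3 5 .nil (.node 1 4 (.cons 0x2398765410 (.cons 0x9087653412 (.cons 0x2143567890 .nil))) (.leaf 0x5239014876 4 .done) .done) .done) .done)) .done))) .done)) .done))) .done))) .done))) (.node 3 5 .nil (.node 4 9 (.cons 0x6789453210 .nil) (.node 0 5 (.cons 0x8765094321 .nil) (.leaf 0x8943210567 6 (.node 0 8 (.cons 0x2394567801 .nil) (.leaf 0x3215678094 6 (.node 3 8 (.cons 0x9456783210 .nil) (.leaf 0x1238765490 6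 (.node 0 7 (.cons 0x9834076512 .nil) (.node 2 8 (.cons 0x7651289043 (.cons 0x8239451076 (.cons 0x2839407651 .nil))) .done (.leaf 0x1238945670 6 .done)) .done)) (.node 6 9 (.cons 0x7698012354 .nil) (.leaf 0x2108769453 0 (.leaf 0x2108769453 3 .done)) .done))) .done)) (.leaf 0x6532104987 6 (.leaf 0x5678940123 7 .done))) (.node 3 7 (.cons 0x8904376512 .nil) (.node 1 3 (.cons 0x5678904312 .nil) (.node 2 5 (.cons 0x3409876521 .nil) (.node 3 8 .nil (.node 2 9 (.cons 0x8765340921 (.cons 0x7654012983 (.cons 0x9210453876 (.cons 0x6738921540 .nil)))) .done (.node 2 8 (.cons 0x9043567821 .nil) (.node 3 6 (.cons 0x7890436521 .nil) (.node 0 3 .nil (.node 4 7 (.cons 0x9836521047 (.cons 0x9823015476 .nil)) (.leaf 0x7430982156 1 .done) .done) .done) (.leaf 0x1289043765 3 .done)) .done)) (.node 1 4 (.cons 0x2398765410 .nil) (.node 3 8 (.cons 0x2567839041 .nil) (.node 2 8 (.cons 0x9328765410 .nil) (.node 1 6 (.cons 0x7825614093 .nil) (.leaf 0x3782561409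 1 (.leaf 0x9378256140 3 .done)) (.leaf 0x3901456782 7 .done)) .done) (.node 0 6 (.cons 0x1452398760 .nil) (.leaf 0x3987601452 7 (.leaf 0x9325410678 6 (.leaf 0x3987601452 1 .done))) .done)) .done)) (.node 2 5 (.cons 0x9876521340 .nil) (.node 0 5 (.cons 0x9876504312 .nil) (.node 0 7 (.cons 0x8907651234 .nil) (.node 4 8 (.cons 0x7651234890 .nil) (.leaf 0x6512348907 0 (.node 0 6 (.cons 0x7601548932 .nil) (.node 3 6 (.cons 0x7890436521 .nil) .done .done) (.leaf 0x6512348907 6 .done))) .done) .done) (.leaf 0x6789043125 5 .done)) .done)) (.node 3 6 .nil (.node 2 9 (.cons 0x8921567340 (.cons 0x7892104563 (.cons 0x5401298763 .nil))) (.leaf 0x1045637892 6 (.leaf 0x4536789210 3 .done)) (.node 1 3 (.cons 0x5678904312 .nil) (.node 0 3 .nil (.node 2 4 (.cons 0x8937651042 .nil) (.leaf 0x2430987651 1 (.leaf 0x8765421039 1 (.leaf 0x8930124567 7 (.leaf 0x7893012456 6 .done)))) (.node 3 8 .nil (.node 2 7 (.cons 0x6540139872 (.cons 0x9836721045 (.cons 0x9830451276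 .nil))) (.node 2 6 (.cons 0x7893104562 (.cons 0x9830451267 .nil)) (.leaf 0x3104562789 2 .done) .done) .done) .done)) (.node 0 3 .nil (.node 2 4 (.cons 0x8937651042 .nil) (.leaf 0x2430987651 1 (.leaf 0x8765421039 1 (.leaf 0x8930124567 7 (.leaf 0x7893012456 6 .done)))) (.node 3 8 .nil (.node 2 9 (.cons 0x8921567340 (.cons 0x7654012983 (.cons 0x7638921045 .nil))) (.leaf 0x129837654 4 (.node 0 6 (.cons 0x5406789213 (.cons 0x9213876045 (.cons 0x7604513892 .nil))) .done .done)) .done) .done)) .done)) .done)) .done)) (.node 2 5 (.cons 0x3409876521 .nil) (.node 1 3 (.cons 0x5678904312 .nil) (.node 1 4 (.cons 0x2398765410 .nil) (.node 4 8 (.cons 0x7651234890 .nil) (.node 3 8 (.cons 0x9043876521 .nil) (.node 4 9 (.cons 0x2567839401 .nil) (.leaf 0x6521049387 4 .done) .done) (.leaf 0x5239014876 4 .done)) (.node 4 8 (.cons 0x7651234890 .nil) (.leaf 0x1093256784 0 (.node 4 7 (.cons 0x6532109874 .nil) (.node 4 6 (.cons 0x7890123564 .nil) (.node 2 4 (.cons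 0x7651098423 .nil) (.node 4 9 (.cons 0x3256784901 .nil) .done .done) .done) .done) .done)) .done)) (.leaf 0x4098765213 4 (.leaf 0x2567890431 1 .done))) (.node 1 3 (.cons 0x5678904312 .nil) (.leaf 0x6789043125 4 (.node 2 6 (.cons 0x1398762540 .nil) (.leaf 0x3987625401 7 (.leaf 0x9310452678 6 (.node 3 6 (.cons 0x9876312540 .nil) (.leaf 0x2136789045 6 (.node 0 6 (.cons 0x2540678931 .nil) (.leaf 0x5406789312 6 (.node 5 9 (.cons 0x5987621340 .nil) (.node 1 9 (.cons 0x7891265340 .nil) (.node 0 7 (.cons 0x6543219870 .nil) (.leaf 0x4356219870 3 (.node 1 4 (.cons 0x2398765410 .nil) (.leaf 0x7895341260 3 .done) .done)) .done) .done) .done)) .done)) .done))) (.leaf 0x6789043125 5 .done))) .done)) .done))) (.leaf 0x9876512340 7 .done))))))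
noncomputable def uc9_8_2 : T := tc9_8_6
theorem sub_c9_8_2 : root 9 refs9_8 [] 0x800002004807000000007060000000060500000000504007000004010002000010300000000302000007002014000000010 0xfeebfe7fff3fff9fff4fffedfff1fff3ff79ffed 9 0 4 (.cons 0x2398765401 .nil) uc9_8_2 = true := by decide +kernel
noncomputable def tc9_8_7 : T := (.node 0 4 (.cons 0x2398765401 (.cons 0x6789325401 (.cons 0x3409876521 .nil))) (.node 1 8 (.cons 0x9043218765 (.cons 0x9325401876 (.cons 0x9325678104 .nil))) (.node 1 4 (.cons 0x2398765410 (.cons 0x6789325410 (.cons 0x3412567890 .nil))) (.node 0 7 (.cons 0x8932541076 (.cons 0x8907652143 (.cons 0x8907652341 .nil))) (.leaf 0x3418907652 4 .done) .done) (.node 2 4 (.cons 0x6781524390 .nil) (.leaf 0x8765243901 1 (.leaf 0x8765243901 7 .done)) .done)) (.leaf 0x3215678904 4 (.node 1 7 (.cons 0x6540178932 (.cons 0x6523987104 (.cons 0x6521789043 .nil))) (.node 6 8 (.cons 0x9043215687 (.cons 0x9043251786 (.cons 0x6871523904 .nil)))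 (.node 7 9 (.cons 0x9786512340 .nil) (.leaf 0x5123409786 4 (.leaf 0x2156879043 5 .done)) (.leaf 0x5401768932 7 .done)) .done) (.leaf 0x9876512340 1 .done)))) (.node 2 4 (.cons 0x8765109324 .nil) (.node 0 2 (.cons 0x4567893201 .nil) (.node 0 4 (.cons 0x2398765401 .nil) (.leaf 0x3215678904 4 (.node 4 7 (.cons 0x6547893201 .nil) (.node 3 8 (.cons 0x1256743890 .nil) (.node 6 9 (.cons 0x3896745210 .nil) (.leaf 0x7421096538 0 (.node 0 3 (.cons 0x7896543021 .nil) (.leaf 0x1254769830 2 (.node 5 9 (.cons 0x3876954210 .nil) (.leaf 0x6954210387 3 .done) .done)) (.leaf 0x2478356901 2 .done))) (.leaf 0x1256743890 0 .done)) (.node 1 6 (.cons 0x4789016532 .nil) (.leaf 0x3561098742 4 (.leaf 0x5324789016 6 (.leaf 0x987423561 7 .done))) .done)) (.node 4 7 (.cons 0x6547893201 .nil) (.node 1 6 (.cons 0x8932547610 .nil) (.leaf 0x1023987456 0 (.node 2 6 (.cons 0x7890435621 .nil) (.leaf 0x4789352610 3 .done) (.leaf 0x8932016547 6 .done))) (.node 1 6 (.cons 0x7890435612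 .nil) (.leaf 0x3561098742 4 (.leaf 0x5324789016 6 (.leaf 0x987423561 7 .done))) .done)) (.leaf 0x9876512340 1 .done)))) (.node 0 4 (.cons 0x2398765401 .nil) (.leaf 0x3215678904 4 (.node 0 8 (.cons 0x9324567801 .nil) (.node 6 9 (.cons 0x7809653421 .nil) (.leaf 0x215439678 3 (.leaf 0x2154396780 1 (.node 1 3 (.cons 0x5420876931 .nil) (.leaf 0x876931542 3 (.leaf 0x876931542 0 (.node 7 9 (.cons 0x4213569780 .nil) (.leaf 0x8042135697 3 (.leaf 0x6531240879 3 .done)) .done))) .done))) (.node 0 5 .nil (.node 1 6 (.cons 0x7890432165 (.cons 0x2054398761 .nil)) (.leaf 0x542398761 6 (.leaf 0x7893245016 7 .done)) (.node 1 8 (.cons 0x9324567810 .nil) (.leaf 0x5093421876 6 (.leaf 0x932456781 1 (.node 5 9 (.cons 0x4239567810 .nil) (.node 0 7 (.cons 0x6593240781 .nil) (.node 1 6 (.cons 0x7816593240 .nil) (.leaf 0x3956187042 2 (.leaf 0x8165932407 3 .done)) .done) .done) (.leaf 0x567812439 1 .done)))) .done)) .done)) (.node 3 8 (.cons 0x9043876512 .nil) (.node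 2 9 (.cons 0x8765129043 .nil) (.leaf 0x4092156783 4 (.leaf 0x1290438765 7 .done)) (.node 2 9 (.cons 0x9215678340 .nil) (.leaf 0x6783924015 1 (.node 2 6 (.cons 0x7890435621 .nil) (.node 2 7 (.cons 0x6534098721 .nil) .done .done) .done)) .done)) (.leaf 0x9876512340 1 .done)))) .done)) (.node 4 8 (.cons 0x4876510932 .nil) (.node 0 2 (.cons 0x4567893201 .nil) (.node 1 4 (.cons 0x2398765410 .nil) (.leaf 0x1456789320 1 (.leaf 0x5678932014 5 .done)) (.node 6 9 (.cons 0x2396784510 .nil) (.leaf 0x3201548769 3 (.leaf 0x7845102396 3 (.node 0 5 (.cons 0x4876905123 .nil) (.leaf 0x9678432150 1 (.node 2 9 (.cons 0x6784329051 .nil) .done .done)) .done))) .done)) (.node 0 2 (.cons 0x4567893201 .nil) (.node 0 4 (.cons 0x2398765401 .nil) (.leaf 0x3215678904 4 (.node 1 4 (.cons 0x2398765410 .nil) (.leaf 0x1456789320 1 .done) (.leaf 0x9876512340 1 .done))) (.leaf 0x7843902156 5 .done)) (.leaf 0x5109324876 5 .done))) (.node 4 8 (.cons 0x4876510932 .nil) (.leaf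 0x5109324876 0 (.node 0 2 (.cons 0x4567893201 .nil) (.node 0 4 (.cons 0x2398765401 .nil) (.leaf 0x3215678904 4 (.node 1 4 (.cons 0x2398765410 .nil) (.leaf 0x1456789320 1 .done) (.leaf 0x9876512340 1 .done))) (.leaf 0x4876512093 4 .done)) (.leaf 0x156784239 4 .done))) .done))) (.node 5 9 .nil (.node 0 4 (.cons 0x2398765401 (.cons 0x8765904321 (.cons 0x6789540123 .nil))) (.leaf 0x3215678904 4 (.node 1 6 (.cons 0x7890432165 (.cons 0x7895612340 .nil)) (.node 2 6 (.cons 0x7893265401 .nil) (.node 1 7 (.cons 0x6540178932 (.cons 0x8710459326 (.cons 0x6598712340 (.cons 0x8712659043 .nil)))) .done (.node 1 7 (.cons 0x6540178932 (.cons 0x6598712340 .nil)) (.leaf 0x2659871043 3 (.leaf 0x178932654 3 .done)) .done)) (.node 2 7 (.cons 0x4356127890 (.cons 0x8721659043 .nil)) (.leaf 0x9872165340 6 (.leaf 0x6127890435 6 .done)) .done)) (.node 3 6 (.cons 0x4598763210 .nil) (.leaf 0x5987632104 1 (.leaf 0x5401236789 7 (.leaf 0x9540123678 6 (.node 3 8 (.cons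 0x9043876512 (.cons 0x6783409512 .nil)) .done .done)))) (.leaf 0x9876512340 1 .done)))) (.node 2 9 .nil (.node 4 8 (.cons 0x4876510932 (.cons 0x3487651290 (.cons 0x1567843290 .nil))) (.leaf 0x5109234876 3 (.leaf 0x1092348765 1 .done)) (.node 4 9 (.cons 0x8765123490 .nil) (.node 0 5 (.cons 0x6789450123 .nil) (.node 3 6 (.cons 0x5498763210 .nil) (.leaf 0x4501236789 7 (.leaf 0x9450123678 6 (.node 2 4 (.cons 0x5012498763 .nil) (.node 1 8 (.cons 0x9324567810 .nil) (.leaf 0x3942501876 2 (.leaf 0x932456781 1 (.leaf 0x4936781052 6 (.leaf 0x567812439 1 .done)))) (.leaf 0x124987635 6 .done)) .done))) (.node 5 8 (.cons 0x6785123490 .nil) (.node 0 6 (.cons 0x3490678512 .nil) (.leaf 0x4906785123 4 (.leaf 0x9432158760 6 (.node 5 7 .nil (.node 3 6 (.cons 0x5498763210 (.cons 0x8754921063 (.cons 0x8945763210 (.cons 0x8751294360 .nil)))) .done .done) .done))) .done) .done)) (.node 3 8 (.cons 0x2156783490 .nil) (.node 2 8 .nil (.node 0 4 (.cons 0x2398765401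 (.cons 0x9328765401 (.cons 0x9043287651 .nil))) (.leaf 0x3215678904 4 (.leaf 0x8765104932 3 (.leaf 0x8765104932 6 .done))) (.node 0 4 (.cons 0x2398765401 .nil) (.leaf 0x6782394015 2 (.leaf 0x3215678904 4 (.leaf 0x8765104932 3 (.leaf 0x8765104932 6 (.leaf 0x9876512340 1 .done))))) .done)) (.node 0 2 (.cons 0x9438765120 .nil) (.leaf 0x6783490215 6 (.node 2 8 (.cons 0x7651028394 .nil) (.node 2 4 (.cons 0x2493876510 .nil) (.node 4 6 (.cons 0x9328764510 .nil) (.leaf 0x2390154678 6 (.node 1 9 (.cons 0x8765423910 .nil) (.node 0 3 (.cons 0x1987645230 .nil) (.leaf 0x7645230198 5 (.leaf 0x6491520387 4 .done)) .done) .done)) .done) .done) (.leaf 0x7834902156 7 .done))) .done)) .done)) (.node 4 9 (.cons 0x8765123490 .nil) (.node 2 4 (.cons 0x8765109324 .nil) (.node 1 9 (.cons 0x8765423910 .nil) (.node 3 8 (.cons 0x2456783910 .nil) (.node 0 5 (.cons 0x6783910542 .nil) (.leaf 0x2438765091 6 (.leaf 0x4219056783 7 .done)) (.node 1 8 (.cons 0x9324567810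 .nil) (.node 2 8 .nil (.node 0 2 (.cons 0x3456789120 .nil) (.leaf 0x6543910287 6 (.leaf 0x5678201934 7 .done)) .done) (.leaf 0x932456781 1 .done)) .done)) .done) (.node 1 4 (.cons 0x2398765410 .nil) (.node 0 6 (.cons 0x1452398760 .nil) (.leaf 0x3987601452 7 (.leaf 0x9325410678 6 (.node 1 7 (.cons 0x8932456710 .nil) (.leaf 0x6534217890 5 (.leaf 0x3560987124 4 .done)) (.leaf 0x3987601452 1 .done)))) (.node 0 3 (.cons 0x5678903412 .nil) (.leaf 0x7652143098 6 (.leaf 0x6789034125 7 (.node 0 4 (.cons 0x2398765401 .nil) (.node 1 9 (.cons 0x8765401932 .nil) .done (.leaf 0x9876512340 1 .done)) .done))) .done)) .done)) (.node 6 9 .nil (.node 0 8 (.cons 0x3490876512 (.cons 0x7809651234 (.cons 0x4510876932 (.cons 0x3451296780 (.cons 0x1543296780 .nil))))) .done (.node 7 9 .nil (.node 4 6 (.cons 0x7890123564 (.cons 0x8790123564 .nil)) (.node 0 8 (.cons 0x3490876512 (.cons 0x8015467932 (.cons 0x8015467923 .nil))) (.leaf 0x5679801234 7 (.leaf 0x9801235467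 7 .done)) (.node 4 8 (.cons 0x4876510932 (.cons 0x6512348790 (.cons 0x6487901532 .nil))) .done .done)) .done) .done)) .done)) .done))) (.node 5 8 .nil (.node 4 9 (.cons 0x8765123490 (.cons 0x6785123490 .nil)) (.node 3 7 (.cons 0x8945673210 (.cons 0x8567321094 (.cons 0x4985673210 .nil))) (.node 4 6 (.cons 0x7890123564 (.cons 0x8510946732 .nil)) (.node 2 4 (.cons 0x8765109324 (.cons 0x7856423901 (.cons 0x5876423901 .nil))) .done (.leaf 0x1237645890 7 .done)) .done) (.node 3 7 (.cons 0x6549873210 (.cons 0x6587321094 .nil)) (.node 4 6 (.cons 0x7890123564 (.cons 0x7856490123 (.cons 0x9854673210 (.cons 0x6490158732 .nil)))) (.leaf 0x1237645890 7 .done) (.node 0 4 (.cons 0x2398765401 (.cons 0x9401237856 (.cons 0x7658904321 (.cons 0x9043215876 .nil)))) (.leaf 0x7658940123 1 (.leaf 0x3765894012 3 .done)) .done)) .done)) (.node 5 7 .nil (.node 0 5 .nil (.node 4 9 (.cons 0x8765123490 (.cons 0x6789450123 .nil)) (.leaf 0x6501234987 6 (.leaf 0x5678943210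 7 .done)) (.node 4 8 (.cons 0x7650984321 (.cons 0x6750984321 .nil)) (.node 2 4 (.cons 0x8765109324 (.cons 0x6578423901 .nil)) (.node 0 8 (.cons 0x7654239801 (.cons 0x6754239801 .nil)) (.node 3 6 (.cons 0x9012365784 (.cons 0x7563210984 .nil)) (.leaf 0x4210893675 3 (.leaf 0x2108936754 1 .done)) .done) (.leaf 0x5109324876 0 .done)) (.node 0 2 (.cons 0x4567893201 .nil) (.node 1 3 (.cons 0x4876520931 (.cons 0x6750984312 .nil)) (.leaf 0x2095678431 4 (.leaf 0x4876590213 1 .done)) (.leaf 0x4876512093 4 (.leaf 0x7843902156 5 .done))) .done)) .done)) .done) .done)) .done))) .done)))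
noncomputable def tc9_8_8 : T := (.node 0 4 (.cons 0x2398765401 (.cons 0x6789325401 (.cons 0x3409876521 .nil))) (.node 1 8 (.cons 0x9043218765 (.cons 0x9325401876 (.cons 0x9325678104 .nil))) (.node 1 4 (.cons 0x2398765410 (.cons 0x6789325410 (.cons 0x3412567890 .nil))) (.node 0 7 (.cons 0x8932541076 (.cons 0x8907652143 (.cons 0x8907652341 .nil))) (.leaf 0x3418907652 4 .done) .done) (.node 2 4 (.cons 0x6781524390 .nil) (.leaf 0x8765243901 1 (.leaf 0x8765243901 7 .done)) .done)) (.leaf 0x3215678904 4 (.node 1 7 (.cons 0x6540178932 (.cons 0x6523987104 (.cons 0x6521789043 .nil))) (.node 6 8 (.cons 0x9043215687 (.cons 0x4352176890 (.cons 0x9043251786 (.cons 0x6871523904 .nil)))) (.leaf 0x4352176890 0 .done) .done) (.leaf 0x9876512340 1 .done)))) (.node 2 4 (.cons 0x8765109324 .nil) (.node 0 2 (.cons 0x4567893201 .nil) (.node 1 4 (.cons 0x2398765410 .nil) (.node 4 6 .nil (.node 1 7 (.cons 0x8932017654 (.cons 0x6452398710 (.cons 0x4652398710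 (.cons 0x3465217890 .nil)))) .done (.node 1 6 .nil (.node 0 4 (.cons 0x2398765401 (.cons 0x7890432165 (.cons 0x5401678932 (.cons 0x7890432561 .nil)))) .done (.node 4 7 (.cons 0x4789325610 .nil) (.node 0 4 (.cons 0x2398765401 .nil) (.node 4 8 (.cons 0x7654893201 .nil) (.leaf 0x3210984765 3 .done) (.leaf 0x9876512340 1 .done)) (.node 0 4 (.cons 0x2398765401 .nil) (.leaf 0x2561047893 1 (.leaf 0x2398740165 7 .done)) .done)) .done)) (.node 4 7 (.cons 0x3256478901 .nil) (.node 1 6 (.cons 0x8932016745 .nil) (.node 1 7 (.cons 0x8932017654 .nil) (.node 2 6 (.cons 0x8901746253 .nil) (.node 6 8 (.cons 0x9867453210 .nil) (.leaf 0x5243901786 6 .done) .done) .done) (.node 0 6 (.cons 0x8743906152 .nil) (.leaf 0x1253478906 6 .done) .done)) (.node 3 8 (.cons 0x6524783901 .nil) (.leaf 0x4210983567 1 (.leaf 0x7421098356 3 (.node 3 6 (.cons 0x1256347890 .nil) (.node 1 8 (.cons 0x9324567810 .nil) (.leaf 0x9018742563 4 (.leaf 0x932456781 1 (.leaf 0x936524781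 6 .done))) .done) .done))) .done)) .done))) (.leaf 0x239876541 1 (.node 4 7 (.cons 0x8901235674 .nil) (.node 3 8 (.cons 0x6524783901 .nil) (.leaf 0x4210983567 1 (.leaf 0x7421098356 3 (.node 0 4 (.cons 0x2398765401 .nil) (.node 2 9 (.cons 0x4765389210 .nil) (.leaf 0x1298356740 3 (.leaf 0x8356740129 2 .done)) (.leaf 0x9876512340 1 .done)) .done))) (.node 2 8 (.cons 0x4765328901 .nil) (.node 4 6 (.cons 0x9328764510 .nil) (.leaf 0x2390154678 6 (.leaf 0x3287645109 1 .done)) (.node 2 6 (.cons 0x8901476235 .nil) (.node 0 4 (.cons 0x2398765401 .nil) (.node 1 8 (.cons 0x9324567810 .nil) (.leaf 0x5623904781 5 (.leaf 0x8156239047 1 .done)) (.node 0 5 (.cons 0x7628935041 .nil) (.node 5 8 (.cons 0x4158762390 .nil) (.leaf 0x9014762358 3 (.leaf 0x1587623904 7 .done)) .done) .done)) .done) (.leaf 0x3289014765 7 .done))) .done)) (.leaf 0x5678932014 4 .done)))) (.node 0 4 (.cons 0x2398765401 .nil) (.leaf 0x3215678904 4 (.node 0 3 .nil (.node 1 9 (.cons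 0x8765423910 (.cons 0x2198765430 .nil)) (.leaf 0x2304567891 6 (.leaf 0x2034567891 1 (.leaf 0x3219876540 4 .done))) (.node 3 6 .nil (.node 1 7 (.cons 0x6540178932 (.cons 0x4365217890 .nil)) (.leaf 0x8904365217 4 (.leaf 0x2563409871 1 .done)) (.node 3 7 (.cons 0x9873210456 .nil) (.node 6 9 (.cons 0x7896540123 .nil) (.leaf 0x3210456987 0 (.node 0 8 (.cons 0x9324567801 .nil) (.leaf 0x2154396780 1 (.leaf 0x4537698012 0 .done)) (.node 5 9 (.cons 0x7895632104 .nil) (.node 3 8 (.cons 0x1243876590 .nil) (.leaf 0x5901243876 6 .done) .done) .done))) .done) .done)) .done)) (.node 2 8 (.cons 0x7653409821 .nil) (.node 2 7 (.cons 0x8904356721 .nil) (.node 1 8 (.cons 0x9324567810 .nil) (.leaf 0x9043567218 4 (.leaf 0x932456781 1 (.leaf 0x2765340981 1 .done))) .done) (.node 1 4 (.cons 0x2398765410 .nil) (.leaf 0x8765140932 1 (.leaf 0x8239041567 7 (.leaf 0x7823904156 6 .done))) .done)) (.leaf 0x9876512340 1 .done)))) .done)) (.node 0 2 (.cons 0x4567893201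 .nil) (.node 1 4 (.cons 0x2398765410 .nil) (.node 4 9 (.cons 0x8765123490 .nil) (.node 0 4 (.cons 0x2398765401 .nil) (.node 4 8 (.cons 0x4876510932 .nil) (.node 1 9 (.cons 0x2348765190 .nil) (.leaf 0x3487651902 4 (.node 0 3 (.cons 0x2198765430 .nil) (.leaf 0x7654302198 1 (.leaf 0x7654302198 7 .done)) .done)) .done) (.leaf 0x9876512340 1 .done)) (.node 1 8 (.cons 0x7654239810 .nil) (.node 4 8 (.cons 0x4876510932 .nil) (.node 1 9 (.cons 0x2348765190 .nil) (.leaf 0x3487651902 4 .done) .done) (.leaf 0x187654932 3 (.leaf 0x4902187653 1 .done))) .done)) (.node 0 4 (.cons 0x2398765401 .nil) (.node 4 9 (.cons 0x8765123490 .nil) (.node 1 8 (.cons 0x7654239810 .nil) (.node 3 8 (.cons 0x2156783490 .nil) (.leaf 0x9438765120 6 (.leaf 0x6783490215 6 .done)) (.leaf 0x187654932 3 (.leaf 0x4902187653 1 .done))) .done) (.node 4 9 (.cons 0x8765123490 .nil) (.node 4 8 (.cons 0x4876510932 .nil) (.node 1 9 (.cons 0x2348765190 .nil) (.leaf 0x3487651902 4 (.node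 0 3 (.cons 0x2198765430 .nil) (.leaf 0x7654302198 1 (.leaf 0x7654302198 7 .done)) .done)) .done) .done) (.leaf 0x9876512340 1 .done))) (.leaf 0x5678932014 5 .done))) (.node 2 9 .nil (.node 4 8 (.cons 0x4876510932 (.cons 0x3487651290 (.cons 0x1567843290 .nil))) (.leaf 0x5109234876 3 (.leaf 0x1092348765 1 .done)) (.node 5 9 .nil (.node 0 6 (.cons 0x3459876021 .nil) (.leaf 0x5987601234 1 (.leaf 0x5987601234 7 (.leaf 0x9543210678 6 (.node 1 3 (.cons 0x4598760132 .nil) (.leaf 0x7895431206 6 (.leaf 0x2459876013 1 (.leaf 0x678954231 4 .done))) .done)))) (.node 6 9 (.cons 0x8769320154 .nil) (.node 7 9 .nil (.node 0 8 (.cons 0x7654239801 (.cons 0x8097651243 (.cons 0x3245679801 .nil))) (.leaf 0x5679801234 7 .done) (.node 4 9 (.cons 0x8765123490 .nil) (.node 1 9 .nil (.node 4 8 (.cons 0x6798453210 (.cons 0x2348765190 .nil)) (.leaf 0x3201548769 3 (.leaf 0x7651902348 3 .done)) .done) .done) .done)) .done) .done)) .done)) .done)) (.node 4 8 (.cons 0x4876510932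 .nil) (.leaf 0x5109324876 0 (.node 3 6 (.cons 0x5109367842 .nil) (.node 5 9 (.cons 0x5901248763 .nil) (.node 0 5 (.cons 0x6789324501 .nil) (.node 0 8 (.cons 0x2459367801 .nil) (.leaf 0x9512436780 3 (.leaf 0x7639542108 4 .done)) .done) (.leaf 0x2487635901 6 .done)) (.leaf 0x1524876390 3 .done)) (.leaf 0x156784239 4 .done))) .done))) (.node 5 9 .nil (.node 0 4 (.cons 0x2398765401 (.cons 0x8765904321 (.cons 0x6789540123 .nil))) (.leaf 0x3215678904 4 (.node 1 7 (.cons 0x6540178932 (.cons 0x6598712340 .nil)) (.node 0 6 (.cons 0x6045239871 (.cons 0x8954321760 .nil)) (.leaf 0x5987601234 7 (.leaf 0x1789560432 1 (.node 0 8 (.cons 0x9087651234 (.cons 0x6780951234 .nil)) (.node 2 4 (.cons 0x2439087651 (.cons 0x8095342176 (.cons 0x3245987601 .nil))) (.leaf 0x9806712435 6 .done) .done) .done))) (.node 3 6 (.cons 0x5634098712 (.cons 0x2178956340 .nil)) (.leaf 0x1789043652 4 .done) .done)) (.node 3 6 (.cons 0x4598763210 .nil) (.leaf 0x5987632104 1 (.leaf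 0x5401236789 7 (.node 2 8 (.cons 0x7653409821 (.cons 0x9512876340 .nil)) (.leaf 0x1590436782 6 (.node 3 7 (.cons 0x6735982104 .nil) (.leaf 0x2895673401 6 (.leaf 0x2895673401 3 .done)) .done)) .done))) (.leaf 0x9876512340 1 .done)))) (.node 2 9 .nil (.node 4 8 (.cons 0x4876510932 (.cons 0x3487651290 (.cons 0x1567843290 .nil))) (.leaf 0x5109234876 3 (.leaf 0x1092348765 1 .done)) (.node 4 9 (.cons 0x8765123490 .nil) (.node 0 6 (.cons 0x8760154932 .nil) (.leaf 0x1235498760 4 (.node 5 8 (.cons 0x6785123490 .nil) (.leaf 0x9432158760 6 (.leaf 0x9432158760 2 .done)) (.leaf 0x7894532106 1 (.node 0 5 (.cons 0x6789450123 .nil) (.node 3 6 (.cons 0x5498763210 .nil) (.leaf 0x4501236789 7 (.node 2 4 (.cons 0x5012498763 .nil) (.leaf 0x1053678942 6 (.leaf 0x124987635 4 .done)) .done)) .done) .done)))) (.node 6 9 .nil (.node 4 8 (.cons 0x4876510932 (.cons 0x7843215690 (.cons 0x7698453210 .nil))) (.node 0 2 (.cons 0x4567893201 (.cons 0x7843209651 (.cons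 0x7698453201 .nil))) (.node 0 4 (.cons 0x2398765401 (.cons 0x7896540123 (.cons 0x8769043215 .nil))) (.leaf 0x3215678904 4 .done) .done) .done) (.node 7 9 .nil (.node 4 8 (.cons 0x4876510932 (.cons 0x6512348790 (.cons 0x6798453210 .nil))) (.node 2 4 (.cons 0x7653248901 (.cons 0x8423567901 (.cons 0x6510978423 (.cons 0x8423510976 .nil)))) .done .done) (.node 1 9 .nil (.node 4 8 (.cons 0x6798453210 (.cons 0x2348765190 .nil)) (.node 0 6 (.cons 0x3215487960 (.cons 0x7845601932 .nil)) (.leaf 0x5321067984 1 (.leaf 0x5489760123 7 (.leaf 0x3548976012 6 .done))) (.node 0 5 (.cons 0x4876905123 .nil) (.leaf 0x9678432150 1 (.leaf 0x3219056784 7 .done)) .done)) .done) .done)) .done)) .done)) (.node 4 9 (.cons 0x8765123490 .nil) (.node 2 4 (.cons 0x8765109324 .nil) (.node 1 9 (.cons 0x8765423910 .nil) (.node 0 8 (.cons 0x9324567801 .nil) (.node 6 9 (.cons 0x7809651234 .nil) (.node 7 9 (.cons 0x6542397801 .nil) .done .done) (.leaf 0x1234908765 5 (.leaf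 0x2435678091 6 (.leaf 0x4219087653 7 .done)))) .done) (.node 1 4 (.cons 0x2398765410 .nil) (.node 0 6 (.cons 0x1452398760 .nil) (.leaf 0x3987601452 7 (.leaf 0x9325410678 6 (.node 2 8 (.cons 0x1543928760 .nil) (.leaf 0x6782934510 4 .done) (.leaf 0x3987601452 1 .done)))) (.node 0 2 (.cons 0x4567893201 .nil) (.leaf 0x5678932014 5 (.leaf 0x5678932014 4 .done)) .done)) .done)) (.node 1 9 .nil (.node 0 2 (.cons 0x4567893201 .nil) (.leaf 0x7654320198 5 (.leaf 0x5678910234 4 (.node 0 4 (.cons 0x2398765401 (.cons 0x8765401932 (.cons 0x8765190432 .nil))) (.leaf 0x3215678904 4 (.node 0 3 (.cons 0x2198765430 .nil) (.leaf 0x7891230456 6 (.leaf 0x7891230456 3 .done)) .done)) .done))) (.node 6 9 .nil (.node 0 8 (.cons 0x7654321980 (.cons 0x7809651234 (.cons 0x4510876932 (.cons 0x3451296780 (.cons 0x1543296780 .nil))))) .done (.node 7 9 .nil (.node 4 8 (.cons 0x4876510932 (.cons 0x6512348790 (.cons 0x6798453210 .nil))) (.node 0 2 (.cons 0x4567893201 (.cons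 0x8456791023 (.cons 0x8432097651 .nil))) (.node 0 3 (.cons 0x1548769230 (.cons 0x8456791032 .nil)) (.leaf 0x1548769230 0 .done) .done) .done) .done) .done)) .done)) .done)) .done))) (.node 5 7 .nil (.node 4 6 (.cons 0x1234657890 .nil) (.leaf 0x8901234657 6 (.leaf 0x9875643210 1 (.leaf 0x9875643210 7 (.node 0 4 (.cons 0x2398765401 (.cons 0x6578904321 .nil)) (.node 0 2 (.cons 0x4567893201 (.cons 0x3465789021 .nil)) (.node 1 3 (.cons 0x8765904312 (.cons 0x2134657890 (.cons 0x8902134675 .nil))) (.leaf 0x4657890213 5 .done) (.node 1 8 (.cons 0x4093256781 (.cons 0x9043218756 (.cons 0x4675398102 .nil))) (.leaf 0x7643902518 4 (.leaf 0x5209346781 1 .done)) .done)) (.leaf 0x3215678904 4 (.node 1 6 (.cons 0x1678932540 (.cons 0x8904321675 .nil)) (.node 1 8 (.cons 0x3904678152 (.cons 0x6753409812 .nil)) (.leaf 0x5239046781 3 (.leaf 0x2357640981 1 .done)) .done) (.leaf 0x9876512340 1 .done)))) (.node 4 8 (.cons 0x4876510932 (.cons 0x2357648901 .nil))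 (.node 0 6 (.cons 0x9065123487 (.cons 0x9065784321 (.cons 0x7560984321 .nil))) (.node 2 6 (.cons 0x4875623901 .nil) (.leaf 0x157846239 4 (.leaf 0x5109326487 5 (.leaf 0x1578439062 0 .done))) .done) (.node 1 4 (.cons 0x2398765410 (.cons 0x8901467532 .nil)) (.node 0 2 (.cons 0x4567893201 (.cons 0x6753489021 .nil)) (.leaf 0x1456789320 1 (.node 1 3 (.cons 0x7654893102 (.cons 0x4657890132 (.cons 0x6754893102 .nil))) (.node 1 8 (.cons 0x7651843902 (.cons 0x7564320981 (.cons 0x3257641890 .nil))) .done .done) (.leaf 0x4876512093 4 .done))) (.node 2 6 (.cons 0x7893265410 (.cons 0x3901487562 .nil)) (.leaf 0x1098435762 1 (.leaf 0x7534890126 4 .done)) .done)) .done)) .done))))) (.node 0 5 .nil (.node 4 9 (.cons 0x8765123490 (.cons 0x6789450123 .nil)) (.leaf 0x6501234987 6 (.leaf 0x5678943210 7 .done)) (.node 5 8 .nil (.node 4 7 (.cons 0x6509874321 .nil) (.leaf 0x9856743210 1 (.leaf 0x8901234765 6 (.node 0 2 (.cons 0x4567893201 (.cons 0x3476589021 (.cons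 0x6743589021 .nil))) (.node 0 4 (.cons 0x2398765401 (.cons 0x7658904321 (.cons 0x9043215876 .nil))) (.leaf 0x9876512340 1 .done) .done) .done))) .done) .done)) .done)) .done))) .done)))
noncomputable def uc9_8_3 : T := (.node 2 4 (.cons 0x8765109324 .nil) (.node 4 8 (.cons 0x5678423901 (.cons 0x2487653901 .nil)) (.node 4 9 (.cons 0x8765123490 (.cons 0x6789453210 .nil)) (.node 0 4 (.cons 0x2398765401 .nil) (.node 1 4 (.cons 0x2398765410 (.cons 0x2143567890 .nil)) .done (.leaf 0x6532104987 6 (.leaf 0x3567894012 2 .done))) (.leaf 0x5321094876 3 .done)) (.node 6 9 (.cons 0x2396784510 (.cons 0x7698453210 (.cons 0x2153487690 .nil))) (.leaf 0x7842351096 6 .done) (.node 4 7 (.cons 0x2356748901 .nil) (.leaf 0x2109847653 1 (.leaf 0x3210984765 3 (.node 4 6 (.cons 0x3564789012 .nil) (.leaf 0x2109874653 0 (.node 4 9 (.cons 0x8765123490 (.cons 0x6789453210 .nil)) (.leaf 0x5321094876 4 .done) .done)) .done))) .done))) (.node 4 9 (.cons 0x8765123490 (.cons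 0x6789453210 .nil)) (.node 1 4 (.cons 0x2398765410 (.cons 0x2143567890 .nil)) (.node 0 4 (.cons 0x2398765401 .nil) (.leaf 0x7653214098 3 (.leaf 0x5678940123 7 (.leaf 0x3567894012 6 .done))) .done) (.node 4 8 (.cons 0x4876510932 (.cons 0x7653248901 .nil)) (.leaf 0x5321094876 3 (.leaf 0x3210948765 1 .done)) .done)) (.leaf 0x9876534210 4 (.leaf 0x9876534210 5 .done)))) (.node 2 5 .nil tc9_8_8 (.node 2 5 .nil tc9_8_7 .done)))
theorem sub_c9_8_3 : root 9 refs9_8 [] 0x800002004807000000007060000000060500000000504008000004010002000010300000000302000008002014000000010 0xfeebfe7fff3fff9ffecfffedfff1fff3fef9ffed 9 3 5 .nil uc9_8_3 = true := by decide +kernel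
noncomputable def tc9_8_9 : T := (.node 0 8 (.cons 0x9087651234 .nil) (.node 4 8 .nil (.node 0 5 (.cons 0x6789321054 (.cons 0x7650984321 (.cons 0x6784390512 .nil))) (.node 2 6 (.cons 0x9326784501 (.cons 0x7623984501 (.cons 0x4876239051 .nil))) (.leaf 0x3901548762 7 (.leaf 0x9348762150 0 .done)) .done) (.node 5 8 (.cons 0x9043215876 .nil) (.node 0 2 (.cons 0x9021567843 .nil) (.node 1 4 (.cons 0x9320145876 .nil) (.node 6 9 (.cons 0x4587693201 .nil) (.leaf 0x3409678512 2 (.leaf 0x7690432158 3 (.leaf 0x239678541 5 (.leaf 0x6932014587 1 .done)))) (.node 2 4 (.cons 0x6785109324 .nil) (.node 4 9 (.cons 0x8765123490 .nil) (.node 2 6 (.cons 0x8762394510 .nil) (.leaf 0x1549326780 3 (.leaf 0x1549326780 0 .done)) .done) .done) .done)) (.node 0 5 (.cons 0x6784390512 .nil) (.node 5 7 (.cons 0x8439021576 .nil) (.node 3 8 (.cons 0x6751209384 .nil) (.node 6 9 (.cons 0x4839675120 .nil) (.leaf 0x3409678512 2 (.leaf 0x7690432158 3 (.leaf 0x2157693840 1 (.leaf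 0x1204839675 6 .done)))) .done) .done) .done) .done)) (.node 4 6 (.cons 0x5467893210 .nil) (.leaf 0x2158764093 3 (.leaf 0x5123904678 2 (.node 2 8 (.cons 0x9328764510 .nil) (.leaf 0x7645109328 6 (.node 6 8 .nil (.node 4 7 (.cons 0x9087432156 .nil) (.leaf 0x2158674093 3 .done) .done) .done)) .done))) .done)) (.node 5 8 (.cons 0x9043215876 .nil) (.node 6 9 (.cons 0x2396784510 .nil) (.leaf 0x432158769 6 (.node 0 2 (.cons 0x8769345120 .nil) (.leaf 0x4876932015 2 (.node 3 8 (.cons 0x7693845102 .nil) (.node 1 7 (.cons 0x6715843902 .nil) (.node 0 5 (.cons 0x9678340512 .nil) (.leaf 0x7698345021 2 .done) (.leaf 0x239845671 4 (.leaf 0x6548932017 1 .done))) .done) .done)) (.node 4 7 (.cons 0x2347809651 .nil) (.leaf 0x874321569 4 (.leaf 0x8096512347 6 .done)) (.leaf 0x7690432158 7 .done)))) (.node 4 6 (.cons 0x5467893210 .nil) (.leaf 0x2158764093 3 (.leaf 0x5123904678 2 (.leaf 0x6785123904 0 .done))) .done)) .done))) (.node 2 6 (.cons 0x9345126780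 .nil) (.leaf 0x7809345126 6 (.node 0 7 (.cons 0x5439807621 .nil) (.node 0 2 (.cons 0x9345120876 .nil) (.node 2 4 (.cons 0x9087651243 .nil) (.node 0 6 .nil (.node 5 8 (.cons 0x9345807621 (.cons 0x9324587601 .nil)) (.leaf 0x934215876 2 (.leaf 0x8760934215 0 .done)) (.node 4 6 (.cons 0x5467893210 .nil) (.node 6 9 (.cons 0x2154396780 .nil) (.leaf 0x5120876934 6 .done) .done) .done)) .done) .done) (.leaf 0x8934512670 1 .done)) (.node 5 9 (.cons 0x4395126780 .nil) (.node 4 8 (.cons 0x7621593480 .nil) (.node 0 7 (.cons 0x8076215934 .nil) (.leaf 0x3951267084 4 (.leaf 0x5934807621 5 .done)) (.node 6 8 (.cons 0x7689540123 .nil) (.node 5 8 (.cons 0x9043215876 .nil) (.node 0 5 (.cons 0x6789321054 .nil) (.node 3 5 (.cons 0x7623598401 .nil) .done .done) .done) .done) .done)) (.leaf 0x8762159340 3 (.leaf 0x8762159340 0 (.leaf 0x8762159340 2 (.node 3 6 (.cons 0x1236789540 .nil) (.leaf 0x2367895401 7 (.node 1 6 (.cons 0x3216789540 .nil) (.node 0 3 (.cons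 0x6789540321 .nil) (.leaf 0x7895403216 3 (.leaf 0x459876123 0 (.node 1 4 (.cons 0x5987623041 .nil) (.leaf 0x7623041598 0 (.node 2 9 (.cons 0x4567892301 .nil) (.leaf 0x3014567892 6 (.node 7 9 (.cons 0x4308792651 .nil) (.leaf 0x3415629780 3 (.leaf 0x4156297803 1 .done)) .done)) .done)) .done))) .done) (.leaf 0x7895401236 6 .done))) .done))))) (.leaf 0x8762154390 4 .done)))) (.node 1 4 (.cons 0x9087651432 .nil) (.node 2 9 (.cons 0x4329087651 .nil) (.node 3 7 (.cons 0x4567329801 .nil) (.leaf 0x6541089237 4 (.leaf 0x2980145673 1 (.node 5 7 (.cons 0x6754108932 .nil) (.node 4 7 (.cons 0x8092347651 .nil) (.node 0 7 .nil (.node 1 3 (.cons 0x8921345670 .nil) (.node 1 6 (.cons 0x5761340892 (.cons 0x8076154392 .nil)) .done (.leaf 0x8076541329 4 (.leaf 0x6708921345 6 .done))) .done) .done) (.node 7 9 (.cons 0x8097651432 .nil) (.node 2 8 (.cons 0x9823765410 .nil) (.node 0 2 (.cons 0x6541028973 .nil) (.node 0 7 (.cons 0x9823701456 .nil) .done .done)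 (.leaf 0x8237654109 1 (.leaf 0x3415679082 0 (.leaf 0x6732890145 5 .done)))) .done) .done)) .done))) (.node 2 4 (.cons 0x9324510876 .nil) (.node 1 9 (.cons 0x9108765423 .nil) (.node 0 2 (.cons 0x3456789120 .nil) (.node 1 7 (.cons 0x9802345671 .nil) (.leaf 0x4320891765 3 (.leaf 0x3208917654 1 .done)) .done) .done) .done) (.leaf 0x876514329 3 .done))) (.node 2 9 (.cons 0x4329087651 .nil) (.leaf 0x3290876514 7 (.node 4 8 .nil (.node 0 5 (.cons 0x6789321054 (.cons 0x7650984321 (.cons 0x6784390512 .nil))) (.node 1 7 (.cons 0x6509871234 .nil) (.node 0 6 (.cons 0x9871234506 (.cons 0x9321067845 (.cons 0x7601239845 .nil))) (.leaf 0x8432906517 6 .done) (.leaf 0x9843217650 0 (.leaf 0x9843217650 2 .done))) .done) (.node 2 4 (.cons 0x9324510876 .nil) (.node 1 9 (.cons 0x9108765423 .nil) (.leaf 0x6542391087 1 (.node 0 2 (.cons 0x3456789120 .nil) (.node 1 7 (.cons 0x9802345671 .nil) (.leaf 0x4320891765 3 (.leaf 0x3208917654 1 .done)) .done) .done)) (.node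 4 9 (.cons 0x8765123490 .nil) (.node 4 6 (.cons 0x5467893210 .nil) (.node 2 5 (.cons 0x9325467801 .nil) (.node 1 9 (.cons 0x1932546780 .nil) (.leaf 0x6452391087 4 (.leaf 0x876452391 0 .done)) .done) .done) .done) .done)) .done)) (.leaf 0x876514329 6 .done))) (.node 2 9 (.cons 0x4329087651 .nil) (.leaf 0x5678092341 6 (.leaf 0x5678092341 3 (.node 4 8 .nil (.node 0 3 (.cons 0x5678903412 (.cons 0x5678412903 .nil)) (.leaf 0x6512903487 5 (.leaf 0x1567843092 4 .done)) (.node 3 8 .nil (.node 0 3 (.cons 0x9214567830 (.cons 0x7654129830 .nil)) (.leaf 0x5412903876 1 .done) (.node 4 9 (.cons 0x8765123490 .nil) (.node 0 7 (.cons 0x4923807651 .nil) (.leaf 0x8329415670 7 (.leaf 0x6701238945 7 .done)) (.node 7 9 (.cons 0x6512348790 .nil) (.node 6 9 (.cons 0x7843215690 .nil) (.node 5 8 (.cons 0x7694015832 .nil) (.leaf 0x432158769 6 (.leaf 0x432158769 3 .done)) .done) .done) .done)) .done)) .done)) .done))) .done))) .done))) (.node 0 7 (.cons 0x8907651234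 .nil) (.node 4 8 (.cons 0x7651234890 .nil) (.leaf 0x6512348907 0 (.leaf 0x6512348907 2 (.leaf 0x6512348907 6 .done))) (.node 0 8 (.cons 0x6708934512 .nil) (.node 2 6 (.cons 0x8934512670 .nil) (.leaf 0x2154398076 0 (.leaf 0x4398076215 2 (.leaf 0x9345126708 6 (.leaf 0x9345126708 3 .done)))) (.node 3 8 (.cons 0x4389076512 .nil) (.node 4 8 (.cons 0x7651234890 .nil) (.node 6 8 (.cons 0x2154398670 .nil) (.node 0 2 (.cons 0x7651209843 .nil) (.node 5 9 (.cons 0x7684395120 .nil) (.leaf 0x1598670432 7 (.node 7 9 (.cons 0x8679512043 .nil) (.leaf 0x4021597683 6 (.leaf 0x9512043867 0 .done)) (.leaf 0x8670432159 6 (.leaf 0x1207684395 6 .done)))) (.leaf 0x7689345120 3 (.leaf 0x1543986702 3 .done))) (.node 0 2 (.cons 0x7651209843 .nil) (.leaf 0x5120768934 4 (.node 1 9 (.cons 0x7654320891 .nil) (.node 3 7 (.cons 0x9867321540 .nil) (.leaf 0x1237689045 6 (.leaf 0x6734890215 3 (.leaf 0x9865437021 7 .done))) (.leaf 0x8345670219 1 .done)) (.leaf 0x1543986702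 6 .done))) .done)) .done) (.node 2 9 (.cons 0x4389215670 .nil) (.leaf 0x8340765129 6 (.leaf 0x3892156704 4 (.leaf 0x1567043892 7 .done))) .done)) .done)) (.node 4 8 (.cons 0x7651234890 .nil) (.node 0 8 .nil (.node 4 9 (.cons 0x7654980123 .nil) (.leaf 0x3215670894 3 (.leaf 0x8076512349 3 (.leaf 0x876549321 5 .done))) (.node 2 6 (.cons 0x7621543980 .nil) (.node 1 9 (.cons 0x5439126780 .nil) (.leaf 0x4870193265 1 (.node 1 4 (.cons 0x8907651432 .nil) (.node 1 7 (.cons 0x6517098432 .nil) (.leaf 0x984326517 3 (.leaf 0x5623489071 3 .done)) .done) .done)) (.node 2 4 (.cons 0x8932451076 .nil) (.node 1 4 (.cons 0x8907651432 .nil) (.node 4 7 (.cons 0x5476210893 .nil) .done .done) .done) (.leaf 0x8934512670 5 (.leaf 0x8934512670 4 .done)))) .done)) (.leaf 0x9076512348 3 (.node 2 6 (.cons 0x7623984510 .nil) (.leaf 0x7015489326 1 (.node 3 7 (.cons 0x4890156732 .nil) (.node 4 7 .nil (.node 3 8 (.cons 0x9832654701 .nil) (.leaf 0x1238904765 4 (.leaf 0x2156740983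 6 .done)) (.node 4 6 (.cons 0x5467893210 .nil) (.node 1 4 (.cons 0x8907651432 .nil) (.node 2 4 (.cons 0x7651098423 .nil) .done .done) .done) .done)) (.node 2 9 (.cons 0x4892376510 .nil) (.leaf 0x8401567329 7 (.leaf 0x7329840156 4 .done)) .done)) (.node 5 7 (.cons 0x4893267510 .nil) (.node 6 8 (.cons 0x4867510932 .nil) (.node 0 8 (.cons 0x4390867512 .nil) (.node 3 7 (.cons 0x4890156732 .nil) (.node 3 8 (.cons 0x9043867512 .nil) .done .done) .done) (.leaf 0x1234098675 4 .done)) (.leaf 0x1576239840 7 (.leaf 0x6239840157 6 .done))) (.leaf 0x3984510762 4 .done)))) .done))) .done))) (.node 4 7 (.cons 0x6512347890 .nil) (.node 4 6 (.cons 0x5467893210 .nil) (.node 2 4 .nil (.node 0 6 (.cons 0x7890651234 (.cons 0x7890651243 (.cons 0x5423987601 .nil))) (.leaf 0x4239876015 5 .done) (.node 1 4 .nil (.node 0 2 (.cons 0x5678902143 .nil) (.leaf 0x8902341567 6 (.leaf 0x1456789320 4 (.leaf 0x4320987651 6 .done))) (.node 4 8 .nil (.node 0 7 (.cons 0x8932107645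 .nil) (.leaf 0x6548932107 1 (.leaf 0x984321567 0 .done)) (.node 4 9 .nil (.node 0 8 (.cons 0x9087432156 .nil) (.leaf 0x1239456780 6 (.leaf 0x7801239456 7 .done)) .done) .done)) .done)) .done)) (.node 3 7 (.cons 0x2156437890 .nil) (.node 1 4 .nil (.node 0 2 (.cons 0x9873465120 .nil) (.leaf 0x1456789320 4 (.leaf 0x4320987651 6 (.leaf 0x6437890215 6 .done))) (.node 2 4 .nil (.node 3 5 (.cons 0x8764210935 (.cons 0x4235678901 .nil)) (.leaf 0x1246537890 7 (.leaf 0x9876534210 7 .done)) (.node 4 9 .nil (.node 0 5 (.cons 0x3987645012 (.cons 0x8765094321 (.cons 0x6501249873 (.cons 0x8941056732 .nil)))) (.leaf 0x9876501234 7 .done) (.node 4 8 .nil (.node 0 7 (.cons 0x9078432156 .nil) (.leaf 0x2348907651 6 (.leaf 0x6548932107 1 (.leaf 0x984321567 0 .done))) .done) .done)) .done)) .done)) (.node 1 4 .nil (.node 0 2 (.cons 0x2098734651 (.cons 0x9873201456 .nil)) (.leaf 0x1456789320 4 (.leaf 0x4320987651 6 .done)) (.node 2 4 (.cons 0x3789015642 .nil)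 (.node 2 8 (.cons 0x9823765410 .nil) (.leaf 0x8237654109 1 (.node 4 9 (.cons 0x5673289410 .nil) (.node 4 8 .nil (.node 0 7 (.cons 0x5670149823 .nil) (.leaf 0x6548932107 1 .done) .done) .done) (.leaf 0x6732890145 5 .done))) .done) .done)) .done)) (.node 2 4 (.cons 0x7890156423 .nil) (.node 3 7 (.cons 0x4651098732 .nil) (.leaf 0x1564237890 5 (.node 1 4 (.cons 0x8901423765 .nil) (.node 0 7 (.cons 0x6451078932 .nil) (.node 4 8 (.cons 0x5673248901 .nil) (.node 3 8 (.cons 0x5670983421 .nil) (.node 4 9 (.cons 0x6510738942 .nil) .done .done) .done) .done) .done) .done)) (.node 3 7 (.cons 0x5642378901 .nil) (.node 0 2 (.cons 0x5467893201 .nil) (.node 4 8 .nil (.node 0 7 (.cons 0x6451078932 .nil) (.leaf 0x6548932107 1 (.leaf 0x984321567 0 .done)) (.node 4 9 (.cons 0x2378946510 .nil) (.node 1 4 .nil (.node 2 5 (.cons 0x9873251046 .nil) (.leaf 0x1465237890 5 (.leaf 0x2564109873 1 .done)) .done) .done) .done)) (.leaf 0x239876451 1 .done)) (.leaf 0x987324651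 5 .done)) .done)) .done))) (.node 0 6 (.cons 0x3478906512 .nil) (.node 7 9 (.cons 0x8790651234 .nil) (.node 0 7 .nil (.node 4 6 (.cons 0x5467893210 (.cons 0x8932107645 (.cons 0x6451078932 .nil))) .done .done) (.node 4 8 (.cons 0x4879065123 .nil) (.leaf 0x651234879 4 (.leaf 0x5609784321 5 .done)) .done)) (.leaf 0x1560987432 6 (.node 0 7 (.cons 0x6078934512 .nil) (.node 0 2 (.cons 0x5439876021 .nil) (.node 0 5 (.cons 0x6789321054 .nil) (.node 5 7 (.cons 0x8934576021 .nil) (.node 2 5 (.cons 0x1254398760 .nil) (.node 1 8 (.cons 0x9345218760 .nil) (.leaf 0x2067543981 2 (.node 5 9 (.cons 0x3476598120 .nil) (.leaf 0x6781259340 3 (.leaf 0x6781259340 0 .done)) (.leaf 0x2543906781 7 .done))) .done) .done) .done) (.node 3 7 (.cons 0x9873456021 .nil) (.node 2 4 (.cons 0x9873421560 .nil) (.node 2 9 (.cons 0x4378921560 .nil) (.node 2 5 (.cons 0x1254398760 .nil) (.node 5 7 (.cons 0x8921573406 .nil) (.node 1 9 (.cons 0x7891206543 .nil) (.node 5 9 (.cons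 0x4378956021 .nil) .done .done) .done) .done) (.leaf 0x1298734065 3 .done)) (.leaf 0x6512437890 5 .done)) (.node 1 9 (.cons 0x2065437891 .nil) (.leaf 0x2065437891 0 (.leaf 0x5437891206 4 .done)) .done)) .done)) (.node 0 8 .nil (.node 2 6 (.cons 0x7893451260 (.cons 0x9345126087 (.cons 0x5476210893 .nil))) (.leaf 0x3987062154 5 (.leaf 0x8934512607 4 .done)) (.node 4 8 .nil (.node 0 5 (.cons 0x6789321054 (.cons 0x9056784321 (.cons 0x7650984321 .nil))) .done (.node 0 2 (.cons 0x5439876021 .nil) (.node 1 9 (.cons 0x5678432091 .nil) (.leaf 0x8432091567 0 (.leaf 0x8432091567 6 .done)) (.node 2 6 (.cons 0x7893451260 .nil) (.node 4 6 (.cons 0x5467893210 .nil) (.node 5 7 (.cons 0x6754893201 .nil) (.leaf 0x5109326487 0 (.leaf 0x9326487510 2 .done)) .done) (.leaf 0x3987062154 5 (.leaf 0x8934512607 4 .done))) .done)) .done)) .done)) .done)) (.leaf 0x8906512347 6 .done)))) (.node 0 6 (.cons 0x2347890651 .nil) (.node 0 7 .nil (.node 2 6 (.cons 0x6239874510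 (.cons 0x8907432651 .nil)) (.leaf 0x3987062154 7 (.leaf 0x3451260789 1 .done)) (.node 2 6 (.cons 0x6239874510 .nil) (.node 4 6 (.cons 0x5467893210 .nil) (.node 4 8 (.cons 0x7489015623 .nil) (.node 7 9 (.cons 0x5609784321 .nil) (.leaf 0x651234879 4 .done) .done) .done) (.leaf 0x3987062154 7 (.leaf 0x3451260789 1 .done))) .done)) (.leaf 0x5123478906 7 (.leaf 0x8906512347 4 (.node 2 4 (.cons 0x5423987601 .nil) (.node 1 4 (.cons 0x7890651432 .nil) (.node 2 5 (.cons 0x4523987601 .nil) (.node 1 9 (.cons 0x8760193245 .nil) (.node 0 2 (.cons 0x3456789120 .nil) (.node 3 6 (.cons 0x9874563201 .nil) (.node 5 9 (.cons 0x6789540123 .nil) (.leaf 0x2104598763 1 (.leaf 0x2367895401 7 .done)) (.leaf 0x8745632019 1 (.leaf 0x3651098742 1 .done))) .done) .done) (.leaf 0x3987601452 4 .done)) (.node 2 5 (.cons 0x3412567890 .nil) (.leaf 0x678932541 4 (.node 0 3 (.cons 0x5678903412 .nil) (.leaf 0x7652143098 6 (.leaf 0x6789034125 7 (.leaf 0x6789034125 1 .done)))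 .done)) .done)) (.leaf 0x4239876015 1 (.node 1 9 (.cons 0x7891065423 .nil) (.node 3 7 (.cons 0x9873245601 .nil) (.node 0 7 (.cons 0x8912345670 .nil) (.node 0 8 (.cons 0x7654321980 .nil) (.node 2 9 (.cons 0x8019237456 .nil) (.node 7 9 .nil (.node 1 8 (.cons 0x6547329180 .nil) (.leaf 0x2456018973 6 (.leaf 0x2456018973 3 (.leaf 0x1065423798 0 .done))) .done) .done) .done) .done) (.leaf 0x654237891 6 .done)) (.node 3 7 (.cons 0x9873245601 .nil) (.leaf 0x1065423789 0 (.leaf 0x6019873245 4 .done)) .done)) .done))) .done)))) .done))) (.node 0 2 (.cons 0x6789345120 .nil) (.node 0 6 (.cons 0x2154398760 .nil) (.leaf 0x2154398760 0 (.leaf 0x4398760215 4 (.node 2 4 (.cons 0x3421567890 .nil) (.leaf 0x678932451 4 (.node 0 3 (.cons 0x4309876512 .nil) (.leaf 0x4215678903 1 (.node 0 8 (.cons 0x9345120876 .nil) (.node 0 7 .nil (.node 1 6 (.cons 0x5439807612 (.cons 0x5160789342 .nil)) (.leaf 0x8932456107 3 (.leaf 0x9870615423 1 .done)) .done) .done) .done))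 .done)) .done))) (.node 0 6 (.cons 0x2154398760 .nil) (.node 2 6 (.cons 0x5126789043 .nil) (.node 0 5 (.cons 0x4398762150 .nil) (.leaf 0x8762150439 3 (.leaf 0x8762150439 2 .done)) (.node 0 3 (.cons 0x4512678930 .nil) (.node 0 5 (.cons 0x6789321054 .nil) (.node 0 7 (.cons 0x8934512076 .nil) (.node 0 8 .nil (.node 1 9 (.cons 0x6543078912 (.cons 0x7654321980 (.cons 0x9123456087 .nil))) .done .done) .done) .done) (.node 1 9 (.cons 0x5403267891 .nil) (.leaf 0x6230451987 3 (.leaf 0x2304519876 1 .done)) .done)) .done)) (.leaf 0x4398760215 5 (.node 2 4 (.cons 0x3421567890 .nil) (.leaf 0x678932451 5 (.node 2 9 .nil (.node 1 7 (.cons 0x8934517602 (.cons 0x8715609243 (.cons 0x8920671543 (.cons 0x3429871560 .nil)))) .done (.node 2 5 (.cons 0x4523987601 .nil) (.node 2 6 (.cons 0x5126789043 .nil) (.node 0 5 (.cons 0x4398762150 .nil) (.leaf 0x8762150439 3 .done) .done) .done) .done)) .done)) .done))) (.node 2 4 (.cons 0x3421567890 .nil) (.node 0 8 (.cons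 0x9087651243 .nil) (.node 1 9 (.cons 0x5678091243 .nil) (.node 2 9 .nil (.node 0 3 (.cons 0x4309876512 (.cons 0x8765129034 (.cons 0x7654308921 (.cons 0x4567892301 .nil)))) .done (.node 3 5 (.cons 0x9087653421 .nil) (.node 1 4 (.cons 0x9087653412 .nil) (.leaf 0x876534129 4 .done) (.node 2 5 .nil (.node 0 6 (.cons 0x2154398760 (.cons 0x7608934521 (.cons 0x4523987601 .nil))) (.leaf 0x3452106789 1 .done) .done) (.leaf 0x4219087653 6 (.leaf 0x6534219087 7 .done)))) .done)) (.node 0 7 (.cons 0x6543219870 .nil) (.node 0 6 (.cons 0x7891234560 .nil) (.node 0 3 (.cons 0x4309876512 .nil) (.node 0 5 (.cons 0x6789321054 .nil) .done .done) (.node 0 3 (.cons 0x4309876512 .nil) (.node 0 5 (.cons 0x6789321054 .nil) .done .done) .done)) (.node 6 8 (.cons 0x9107865423 .nil) (.node 4 7 (.cons 0x6512098743 .nil) (.node 1 4 .nil (.node 2 5 (.cons 0x2514398670 .nil) (.leaf 0x3986702514 2 (.leaf 0x8934152076 6 .done)) (.node 2 5 (.cons 0x2514398670 .nil) (.leaf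 0x3986702514 2 (.leaf 0x8934152076 6 .done)) .done)) .done) (.leaf 0x1932456870 3 (.leaf 0x9324568701 1 .done))) .done)) .done)) (.node 1 9 (.cons 0x9108765423 .nil) (.leaf 0x6542391087 1 (.node 2 9 (.cons 0x3429087651 .nil) (.node 1 3 (.cons 0x9087651342 .nil) (.leaf 0x5678092431 6 (.node 1 4 (.cons 0x7654108923 .nil) .done (.leaf 0x6513429087 4 .done))) (.node 1 3 (.cons 0x9087651342 .nil) (.node 0 3 (.cons 0x6780392451 .nil) (.node 3 6 (.cons 0x3678921540 .nil) (.leaf 0x9215403678 5 (.leaf 0x9245108763 1 .done)) .done) (.leaf 0x876513429 3 (.leaf 0x1567809243 0 .done))) .done)) .done)) .done)) (.node 2 9 .nil (.node 0 3 (.cons 0x4309876512 (.cons 0x8765129034 (.cons 0x4567892301 .nil))) (.node 3 6 (.cons 0x7890215634 (.cons 0x8763409215 (.cons 0x5129876340 .nil))) (.node 3 5 (.cons 0x6789043512 .nil) (.leaf 0x153678924 4 (.leaf 0x1042987635 6 .done)) .done) .done) (.node 2 5 .nil (.node 0 6 (.cons 0x2154398760 (.cons 0x1254398760 (.cons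 0x4523987601 .nil))) (.leaf 0x3452106789 1 (.leaf 0x9345210678 3 .done)) (.node 2 6 (.cons 0x5126789043 .nil) (.node 0 5 (.cons 0x4398762150 .nil) (.node 3 5 (.cons 0x9876215340 .nil) (.node 5 9 (.cons 0x6789540123 .nil) (.node 7 9 (.cons 0x8976215043 .nil) (.node 6 9 (.cons 0x7896215340 .nil) (.node 5 7 (.cons 0x8967540123 .nil) (.node 5 8 (.cons 0x3405897621 .nil) .done .done) .done) .done) .done) (.leaf 0x4098762153 3 .done)) (.leaf 0x8762150439 2 .done)) .done) .done)) .done)) .done)) .done))) .done))))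
noncomputable def tc9_8_10 : T := (.node 1 9 .nil (.node 0 5 (.cons 0x6789321054 (.cons 0x8765091234 (.cons 0x8764501932 .nil))) (.leaf 0x1239876450 5 (.leaf 0x1987650432 4 .done)) (.node 0 6 (.cons 0x7891234560 .nil) (.node 1 6 .nil (.node 2 5 (.cons 0x1254398760 (.cons 0x7893452160 .nil)) (.leaf 0x4016789325 1 (.leaf 0x3987610452 4 .done)) (.node 6 8 (.cons 0x7689321045 .nil) (.node 0 7 (.cons 0x6543219870 .nil) (.leaf 0x1234560789 3 (.node 2 5 (.cons 0x7864523910 .nil) (.leaf 0x8709152346 1 (.leaf 0x4687019325 5 (.leaf 0x6870915234 3 .done))) (.node 2 5 (.cons 0x7864523910 .nil) (.leaf 0x1932546870 2 (.node 1 7 (.cons 0x9325468710 .nil) (.leaf 0x932546871 1 (.leaf 0x8645239017 4 (.node 0 5 (.cons 0x2509346871 .nil) (.leaf 0x5093468712 1 .done) .done))) (.leaf 0x4523910786 3 .done))) .done))) (.node 0 7 (.cons 0x4512398670 .nil) (.leaf 0x2398670451 6 (.leaf 0x2398670451 3 (.leaf 0x7689321540 0 .done))) .done)) .done)) (.node 0 5 (.cons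 0x6789321054 .nil) (.node 0 3 .nil (.node 2 4 (.cons 0x5423987601 .nil) (.leaf 0x1039876542 4 (.leaf 0x3019876542 6 .done)) (.node 3 5 .nil (.node 1 4 (.cons 0x5410678932 (.cons 0x9876014532 (.cons 0x2143567890 .nil))) .done (.node 3 8 (.cons 0x9832104567 .nil) (.node 3 7 (.cons 0x4560198732 .nil) (.node 1 3 .nil (.node 2 5 (.cons 0x4523987601 .nil) (.leaf 0x1340987652 6 (.leaf 0x6789043125 7 .done)) .done) .done) .done) .done)) .done)) (.leaf 0x1239876450 5 (.node 0 7 (.cons 0x6543219870 .nil) (.node 4 8 (.cons 0x7651234890 .nil) (.leaf 0x6512348907 0 (.node 1 4 (.cons 0x5410678932 .nil) (.node 0 3 (.cons 0x5678903412 .nil) (.node 0 8 (.cons 0x9321087645 .nil) .done .done) .done) (.leaf 0x6512348907 2 (.leaf 0x6512348907 6 .done)))) (.node 0 8 (.cons 0x9321087645 .nil) (.node 5 8 (.cons 0x7856432190 .nil) (.leaf 0x3467098512 3 (.leaf 0x9123465870 5 .done)) .done) .done)) .done))) .done)) (.node 1 6 .nil (.node 0 5 (.cons 0x6789321054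 (.cons 0x7890561234 (.cons 0x2167893450 (.cons 0x4501678932 .nil)))) (.node 4 8 (.cons 0x7651234890 (.cons 0x9056123487 (.cons 0x5093487612 .nil))) (.leaf 0x8761239054 0 (.leaf 0x3216784509 3 .done)) .done) (.node 7 9 (.cons 0x8976540123 .nil) (.node 4 9 .nil (.node 0 8 (.cons 0x8015467932 .nil) (.leaf 0x1239456780 6 (.node 0 2 (.cons 0x3456789120 (.cons 0x8023497615 .nil)) (.leaf 0x3208976154 3 .done) (.leaf 0x7801239456 7 (.node 2 5 (.cons 0x9325467801 (.cons 0x7801649325 .nil)) (.leaf 0x6493251087 1 (.leaf 0x876452391 0 .done)) .done)))) (.node 5 9 (.cons 0x8764593210 .nil) (.node 0 6 (.cons 0x7894560123 .nil) (.node 3 7 (.cons 0x6549873210 .nil) (.leaf 0x4560123789 6 (.leaf 0x5498732106 1 .done)) (.node 1 4 (.cons 0x5410678932 .nil) (.node 2 4 (.cons 0x5423987601 .nil) .done .done) .done)) .done) .done)) (.node 1 8 (.cons 0x3218976540 .nil) (.node 3 5 (.cons 0x4653218790 .nil) (.leaf 0x2187904653 6 (.leaf 0x6532187904 7 (.node 1 4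 (.cons 0x2356418790 .nil) (.node 1 7 (.cons 0x8179046532 .nil) (.node 1 3 .nil (.node 0 2 (.cons 0x3456789120 .nil) (.leaf 0x5402318976 4 (.leaf 0x3209781465 3 (.leaf 0x3189765402 7 .done))) .done) .done) .done) .done))) (.node 1 7 (.cons 0x8904321765 .nil) (.node 1 4 .nil (.node 3 5 (.cons 0x6798123540 (.cons 0x4109876532 .nil)) (.leaf 0x1235678904 4 (.leaf 0x2140987653 6 .done)) (.node 1 3 .nil (.node 0 6 (.cons 0x5406798123 (.cons 0x5406798132 .nil)) (.node 2 5 (.cons 0x1254398760 (.cons 0x8793125460 (.cons 0x4521398760 .nil))) (.leaf 0x3125678904 4 .done) .done) .done) .done)) .done) .done)) .done)) .done)) .done))) (.node 0 3 (.cons 0x5467893012 .nil) (.node 0 6 .nil (.node 4 8 (.cons 0x7651234890 (.cons 0x7609843215 (.cons 0x7601548932 .nil))) (.node 5 7 (.cons 0x8932104576 (.cons 0x9065784321 .nil)) (.leaf 0x4890675123 1 (.leaf 0x9321067548 4 (.leaf 0x2398457601 5 .done))) .done) (.node 2 5 (.cons 0x3987645210 .nil) (.node 5 8 (.cons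 0x1258764390 .nil) (.node 0 5 (.cons 0x8764390521 .nil) (.node 0 7 (.cons 0x6439078521 .nil) (.node 0 8 .nil (.node 1 7 (.cons 0x9034658712 (.cons 0x9804321765 .nil)) (.leaf 0x1234098567 0 (.leaf 0x4098567123 2 .done)) .done) .done) .done) (.leaf 0x2587643901 7 (.leaf 0x7643901258 6 (.node 1 7 (.cons 0x6712398540 .nil) (.leaf 0x4589321760 4 (.leaf 0x2340985671 3 (.node 4 9 (.cons 0x3217658940 .nil) (.leaf 0x2176589403 4 (.node 6 8 (.cons 0x1768523940 .nil) (.leaf 0x493258671 0 .done) .done)) (.leaf 0x6589043217 3 .done)))) .done)))) (.node 0 5 (.cons 0x3987645012 .nil) (.node 0 2 (.cons 0x6789345021 .nil) (.node 0 7 (.cons 0x6452107893 .nil) .done .done) .done) (.leaf 0x4678930125 2 .done))) .done)) (.node 2 5 (.cons 0x3987645210 .nil) (.node 2 7 (.cons 0x5643098721 .nil) (.node 0 2 .nil (.node 1 9 (.cons 0x3456789120 .nil) (.leaf 0x8765430219 3 (.leaf 0x5432019876 7 .done)) .done) (.leaf 0x3465127890 5 (.node 0 6 (.cons 0x5460398721 .nil)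 (.leaf 0x4603987215 7 (.leaf 0x9306451278 4 .done)) .done))) (.node 1 7 (.cons 0x3465217890 .nil) (.node 2 7 (.cons 0x5643098721 .nil) (.node 4 7 .nil (.node 3 8 (.cons 0x5127643890 (.cons 0x9832104765 (.cons 0x4765109832 .nil))) .done (.node 1 3 (.cons 0x3109874652 .nil) (.leaf 0x8746523109 6 .done) .done)) (.leaf 0x3465127890 5 (.node 0 6 (.cons 0x5460398721 .nil) (.leaf 0x4603987215 7 (.leaf 0x9306451278 4 .done)) .done))) (.leaf 0x8903465217 4 (.leaf 0x2564309871 1 (.node 3 5 (.cons 0x8904356712 .nil) (.node 2 8 (.cons 0x9354678210 .nil) (.leaf 0x6782109354 4 (.node 0 5 (.cons 0x7643982150 .nil) (.leaf 0x2893405671 4 (.node 5 7 (.cons 0x6457893012 .nil) (.leaf 0x2104675398 3 .done) .done)) (.leaf 0x7645390128 6 .done))) (.node 3 8 (.cons 0x9832104567 .nil) (.node 3 7 (.cons 0x1256437890 .nil) (.node 1 3 .nil (.node 0 2 (.cons 0x9834021765 (.cons 0x9876453102 .nil)) (.leaf 0x8931025467 1 .done) .done) .done) .done) .done)) .done))))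 (.leaf 0x4678930125 3 .done))) (.node 0 6 .nil (.node 1 9 (.cons 0x4567891032 (.cons 0x7891234560 .nil)) (.node 2 4 (.cons 0x9876542301 .nil) (.leaf 0x5106789324 1 (.leaf 0x8765423019 7 (.leaf 0x7891032456 6 .done))) .done) (.node 1 6 .nil (.node 0 5 (.cons 0x3987645012 (.cons 0x7890561234 (.cons 0x2167893450 .nil))) .done (.node 0 5 (.cons 0x3987645012 .nil) (.node 4 7 (.cons 0x9874321650 .nil) (.leaf 0x3216509874 6 (.node 5 8 (.cons 0x6743215890 .nil) (.leaf 0x7432158906 6 (.leaf 0x7432158906 2 (.leaf 0x7432158906 3 .done))) (.leaf 0x8905612347 7 .done))) (.node 0 7 (.cons 0x8907651234 .nil) (.node 5 8 (.cons 0x7658904321 .nil) (.leaf 0x1589076432 3 (.leaf 0x7098512346 2 (.node 1 7 (.cons 0x6712398540 .nil) (.node 4 7 (.cons 0x5893216740 .nil) (.leaf 0x589321674 1 .done) (.leaf 0x6589043217 3 .done)) .done))) .done) .done)) .done)) .done)) .done))) (.node 0 2 (.cons 0x5467893201 .nil) (.leaf 0x1546789320 1 (.node 0 3 .nil (.node 1 9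 (.cons 0x2198765430 .nil) (.leaf 0x8765403219 1 (.leaf 0x2304567891 4 .done)) (.node 0 6 .nil (.node 1 9 (.cons 0x7891234560 (.cons 0x7891206543 .nil)) (.node 0 5 (.cons 0x2398764501 .nil) (.leaf 0x1987650432 4 (.node 2 4 (.cons 0x6789324501 (.cons 0x6789105423 .nil)) (.leaf 0x5106789324 1 .done) .done)) .done) (.node 0 5 (.cons 0x2398764501 .nil) (.node 0 7 (.cons 0x8907651234 .nil) (.node 0 8 (.cons 0x7608934512 .nil) .done .done) .done) .done)) (.node 2 4 (.cons 0x9876542301 .nil) (.node 2 5 .nil (.node 1 4 (.cons 0x9876541032 (.cons 0x7890146523 (.cons 0x3412567890 .nil))) (.leaf 0x9876521430 5 .done) (.node 2 9 (.cons 0x4567892301 .nil) (.node 1 4 (.cons 0x9876541032 .nil) (.leaf 0x3014567892 6 (.node 4 7 (.cons 0x8903251476 .nil) (.node 2 8 (.cons 0x3476512890 .nil) (.leaf 0x7430982156 4 (.leaf 0x3476512890 0 .done)) .done) (.leaf 0x6541032987 6 .done))) .done) .done)) (.node 1 9 (.cons 0x4567891032 .nil) (.leaf 0x3019876542 6 (.leaf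 0x7891032456 6 .done)) .done)) .done))) (.node 1 9 (.cons 0x5467891023 .nil) (.node 4 9 .nil (.node 3 5 (.cons 0x9876453201 (.cons 0x8765321094 (.cons 0x6789453201 .nil))) (.leaf 0x2104987653 6 .done) (.node 3 5 (.cons 0x9876453201 .nil) (.node 4 8 (.cons 0x7651234890 .nil) (.leaf 0x5321094876 3 (.leaf 0x3210948765 1 .done)) (.node 4 7 (.cons 0x2356478901 .nil) (.leaf 0x123564789 3 (.node 1 4 (.cons 0x7890146532 .nil) (.node 4 8 (.cons 0x7651234890 .nil) (.node 2 4 .nil (.node 0 3 (.cons 0x9876542301 .nil) (.leaf 0x5678930124 1 (.leaf 0x5423019876 5 .done)) .done) .done) .done) .done)) (.leaf 0x2019876453 6 .done))) .done)) (.node 3 5 (.cons 0x9876453201 .nil) (.node 2 8 (.cons 0x2876453910 .nil) (.leaf 0x4539102876 6 (.leaf 0x5467820193 1 (.node 0 6 (.cons 0x4539128760 .nil) (.leaf 0x9128760453 5 (.node 4 9 (.cons 0x8765321094 .nil) (.node 3 7 (.cons 0x6549873210 .nil) (.leaf 0x5498732106 1 (.leaf 0x6739821540 3 .done)) .done) .done))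 .done))) (.leaf 0x8764532019 7 (.leaf 0x7891023546 6 .done))) .done)) .done))) .done)))
noncomputable def tc9_8_11 : T := (.node 4 6 (.cons 0x5467893210 .nil) (.node 0 6 .nil (.node 4 9 (.cons 0x8765123490 (.cons 0x7894560123 (.cons 0x8760154932 .nil))) (.node 2 8 (.cons 0x7821560943 (.cons 0x5128760943 (.cons 0x3945128760 .nil))) (.leaf 0x5106782394 6 (.leaf 0x5106782394 0 .done)) .done) (.node 6 9 (.cons 0x8769321045 .nil) (.node 5 8 (.cons 0x7645893210 .nil) (.leaf 0x4012396785 6 (.node 0 7 (.cons 0x3985467012 .nil) (.leaf 0x4670123985 4 (.leaf 0x6458932107 6 .done)) (.node 2 4 (.cons 0x8769324510 .nil) (.node 1 6 (.cons 0x7851609342 .nil) (.node 3 6 (.cons 0x7893601245 .nil) (.node 3 7 (.cons 0x7324658901 .nil) (.leaf 0x4215609873 4 (.leaf 0x8906512437 1 .done)) .done) .done) (.leaf 0x5109324678 2 .done)) (.leaf 0x7854012396 7 .done)))) (.node 0 8 (.cons 0x4512396780 .nil) (.leaf 0x2396780451 2 (.leaf 0x2396780451 3 (.leaf 0x8769321540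 0 .done))) .done)) (.node 6 9 (.cons 0x8769321045 .nil) (.node 2 4 (.cons 0x5423987601 .nil) (.node 4 9 (.cons 0x8765123490 .nil) (.node 7 9 (.cons 0x8793245106 .nil) (.node 1 6 (.cons 0x8793245160 .nil) (.node 5 8 (.cons 0x7645893210 .nil) (.leaf 0x1045876932 2 (.leaf 0x2397851604 1 (.leaf 0x7854012396 3 (.leaf 0x3240615879 6 .done)))) .done) .done) .done) (.node 0 3 (.cons 0x8769034215 .nil) (.node 0 2 (.cons 0x8769345120 .nil) (.node 0 5 (.cons 0x8769051243 .nil) (.node 2 8 (.cons 0x7820693451 .nil) (.leaf 0x3905128764 3 (.leaf 0x2150934678 0 .done)) .done) .done) (.node 5 8 (.cons 0x7645893210 .nil) (.leaf 0x1045876932 2 (.leaf 0x4215876903 5 (.leaf 0x7854012396 3 (.leaf 0x8512430967 1 .done)))) .done)) .done)) (.node 0 8 (.cons 0x4512396780 .nil) (.leaf 0x2396780451 2 (.leaf 0x2396780451 3 (.node 2 6 (.cons 0x9345126780 .nil) (.leaf 0x7809345126 6 (.node 6 8 .nil (.node 0 7 (.cons 0x8932107645 .nil) (.leaf 0x2396870451 3 .done) .done)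 .done)) .done))) .done)) .done))) (.node 0 3 (.cons 0x5467893012 .nil) (.node 2 5 (.cons 0x3987645210 .nil) (.node 0 6 .nil (.node 4 9 (.cons 0x8765123490 (.cons 0x7894560123 (.cons 0x8760154932 .nil))) (.node 3 7 (.cons 0x8945673210 .nil) (.node 0 8 (.cons 0x7608934521 .nil) (.leaf 0x6452108937 0 (.leaf 0x1234908765 5 (.leaf 0x5467398012 2 .done))) (.leaf 0x3210654987 0 (.leaf 0x654987321 2 .done))) .done) (.node 0 2 (.cons 0x8764390215 .nil) (.node 0 5 (.cons 0x3987645012 .nil) (.node 0 8 (.cons 0x7645210893 .nil) (.node 0 7 .nil (.node 1 9 (.cons 0x8912345670 (.cons 0x6543219870 (.cons 0x6708912543 .nil))) (.leaf 0x4321980765 5 .done) .done) .done) .done) (.node 3 5 (.cons 0x5346789021 .nil) (.leaf 0x8902153467 1 (.node 2 4 (.cons 0x5423987601 .nil) (.node 3 7 (.cons 0x8937645210 .nil) (.leaf 0x124653789 3 (.leaf 0x1246537890 1 .done)) .done) .done)) .done)) .done)) (.leaf 0x1254678930 7 (.leaf 0x4678930125 6 .done))) (.node 2 5 (.cons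 0x3987645210 .nil) (.node 0 2 (.cons 0x8764390215 .nil) (.node 3 5 (.cons 0x5346789021 .nil) (.node 2 4 (.cons 0x4235678901 .nil) (.node 3 7 (.cons 0x8937645210 .nil) (.leaf 0x124653789 3 (.leaf 0x1246537890 1 .done)) .done) .done) .done) (.node 1 7 (.cons 0x3465217890 .nil) (.leaf 0x8903465217 4 (.leaf 0x2564309871 1 (.node 7 9 (.cons 0x8790346512 .nil) (.node 0 7 (.cons 0x6452107893 .nil) (.node 4 7 .nil (.node 0 2 (.cons 0x8764390215 .nil) (.node 3 8 (.cons 0x9834567120 (.cons 0x3897465201 (.cons 0x6520983471 .nil))) .done .done) .done) .done) (.node 5 7 (.cons 0x6457893012 .nil) (.node 2 6 (.cons 0x9871265430 .nil) (.leaf 0x6217890345 1 (.node 0 2 (.cons 0x8764390215 .nil) (.node 0 7 (.cons 0x6452107893 .nil) .done .done) (.leaf 0x1039875462 0 (.leaf 0x1789034562 5 .done)))) .done) .done)) .done))) (.leaf 0x4678930125 3 .done))) (.node 2 5 (.cons 0x3987645210 .nil) (.leaf 0x9876452103 3 (.leaf 0x9876452103 6 (.node 0 6 .nil (.node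 1 3 (.cons 0x8764093125 (.cons 0x7893125460 .nil)) (.leaf 0x2540678931 4 (.leaf 0x9876045213 1 .done)) (.node 1 6 .nil (.node 0 5 (.cons 0x3987645012 (.cons 0x7890561234 (.cons 0x2167893450 .nil))) .done (.node 0 5 (.cons 0x3987645012 .nil) (.node 4 7 (.cons 0x3987461250 .nil) (.leaf 0x6125039874 7 (.leaf 0x8905612347 7 .done)) (.node 5 7 (.cons 0x8932106754 .nil) (.node 5 8 (.cons 0x2158764390 .nil) (.node 6 9 (.cons 0x7856904321 .nil) (.leaf 0x4012396785 6 (.leaf 0x4012396785 3 .done)) .done) .done) .done)) .done)) .done)) .done))) .done))) (.node 2 8 (.cons 0x9328764510 .nil) (.node 4 7 (.cons 0x9015647823 .nil) (.node 2 4 (.cons 0x8764239015 .nil) (.node 0 2 (.cons 0x5467893201 .nil) (.node 4 8 .nil (.node 6 9 (.cons 0x7823964510 (.cons 0x5120967843 .nil)) (.leaf 0x1548769320 2 (.leaf 0x1548769320 0 .done)) (.node 0 8 (.cons 0x9087651234 .nil) (.node 5 8 (.cons 0x9023467851 .nil) (.leaf 0x9324678510 6 .done) .done) .done)) .done) .done)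 (.leaf 0x6510932874 1 .done)) (.leaf 0x7645109328 6 (.node 5 9 (.cons 0x4678239510 .nil) (.leaf 0x6782395104 3 (.node 0 6 (.cons 0x7823951064 .nil) (.node 4 7 (.cons 0x6478239510 .nil) (.leaf 0x1593287460 4 (.leaf 0x1593287460 5 .done)) (.node 6 8 (.cons 0x7865904321 .nil) (.node 6 9 (.cons 0x8769321045 .nil) (.node 1 9 (.cons 0x7821956043 .nil) (.node 4 9 (.cons 0x8765123490 .nil) .done .done) .done) .done) .done)) (.leaf 0x8764015932 2 (.leaf 0x9328764015 0 (.node 1 8 (.cons 0x6781239540 .nil) (.node 3 8 (.cons 0x4095678321 .nil) (.node 1 4 (.cons 0x2387659041 .nil) (.leaf 0x4095678321 0 (.leaf 0x7659041238 3 (.node 0 3 (.cons 0x2876415930 .nil) (.node 2 5 (.cons 0x3412567890 .nil) (.node 5 7 (.cons 0x3982576410 .nil) (.leaf 0x398257641 1 (.leaf 0x1039825764 3 .done)) (.leaf 0x1430987652 6 .done)) (.leaf 0x412876593 0 .done)) .done))) .done) (.leaf 0x2187659043 7 (.leaf 0x7659043218 6 .done))) .done))))) (.leaf 0x6782390154 4 .done))))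 .done))) (.leaf 0x3215678904 6 (.node 0 6 (.cons 0x7890651234 .nil) (.node 4 7 (.cons 0x6512347890 .nil) (.node 4 6 (.cons 0x5467893210 .nil) (.node 6 9 (.cons 0x8769321045 .nil) (.node 6 8 (.cons 0x9043215687 .nil) (.node 7 9 (.cons 0x9786512340 .nil) (.leaf 0x5123409786 4 (.leaf 0x2156879043 5 .done)) (.node 7 9 (.cons 0x6879321540 .nil) (.leaf 0x4512397860 2 (.node 3 6 (.cons 0x2369874510 .nil) (.node 2 6 (.cons 0x3269874510 .nil) (.node 2 8 (.cons 0x9632874510 .nil) (.leaf 0x6328745109 4 (.leaf 0x3690154782 6 .done)) .done) (.node 5 8 (.cons 0x2158793640 .nil) (.leaf 0x6321589740 7 (.leaf 0x3604798512 6 .done)) .done)) .done)) .done)) (.node 0 3 (.cons 0x6987451230 .nil) (.leaf 0x4789603215 7 (.leaf 0x5478960321 6 .done)) .done)) (.node 2 7 (.cons 0x1564327890 .nil) (.node 4 8 (.cons 0x9015648723 .nil) (.leaf 0x7239015648 4 (.leaf 0x6510932784 1 .done)) (.leaf 0x3465109872 1 (.node 6 9 (.cons 0x8769321045 .nil) (.node 3 8 (.cons 0x6938721540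 .nil) (.node 7 9 (.cons 0x3879654012 .nil) (.leaf 0x123897456 3 .done) (.leaf 0x1569043872 5 (.leaf 0x5406938721 4 .done))) (.node 0 3 (.cons 0x6987451230 .nil) (.leaf 0x4789603215 7 (.leaf 0x5478960321 6 .done)) .done)) .done))) .done)) (.leaf 0x1560987432 6 (.leaf 0x5123478906 7 .done))) (.node 0 7 (.cons 0x6078934512 .nil) (.node 4 7 (.cons 0x6512347890 .nil) (.node 0 2 (.cons 0x5439876021 .nil) (.node 0 5 (.cons 0x6789321054 .nil) (.node 3 5 (.cons 0x4539876012 .nil) (.node 2 5 (.cons 0x1254398760 .nil) (.node 1 3 (.cons 0x4521398760 .nil) (.leaf 0x2540678931 4 (.leaf 0x9876045213 1 .done)) .done) (.node 2 4 (.cons 0x6789324501 .nil) (.leaf 0x4210678935 1 (.leaf 0x1067893542 5 .done)) .done)) .done) (.node 1 7 (.cons 0x9871206543 .nil) (.leaf 0x2065439871 6 (.node 1 9 (.cons 0x7891206543 .nil) (.node 0 8 (.cons 0x7654321980 .nil) (.leaf 0x4321980765 6 .done) (.node 3 7 (.cons 0x6543789120 .nil) (.leaf 0x4560219873 6 (.leaf 0x5437891206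 4 .done)) .done)) .done)) .done)) (.leaf 0x8906512347 4 .done)) (.node 0 5 (.cons 0x6789321054 .nil) (.node 2 5 (.cons 0x1254398760 .nil) (.node 2 6 (.cons 0x7893451260 .nil) (.node 4 6 (.cons 0x5467893210 .nil) (.node 1 8 (.cons 0x9325467810 .nil) (.leaf 0x7645239018 4 (.node 2 9 (.cons 0x7815293460 .nil) (.node 6 9 (.cons 0x5692340781 .nil) (.leaf 0x781569234 5 .done) (.leaf 0x5187064392 2 .done)) (.leaf 0x2543906781 7 .done))) .done) (.leaf 0x3987062154 5 (.leaf 0x8934512607 4 .done))) (.node 1 3 (.cons 0x4521398760 .nil) (.node 3 7 (.cons 0x4378906512 .nil) (.node 2 9 (.cons 0x4378921560 .nil) (.node 4 8 (.cons 0x7348921560 .nil) (.leaf 0x765489231 7 (.leaf 0x7013298456 6 (.node 2 6 (.cons 0x7893451260 .nil) (.leaf 0x4315629078 7 (.leaf 0x3987062154 5 .done)) (.leaf 0x765489231 1 .done)))) (.leaf 0x6043789215 3 .done)) .done) (.leaf 0x2540678931 4 (.leaf 0x9876045213 1 .done))) .done)) .done) .done)) (.node 4 7 (.cons 0x6512347890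 .nil) (.node 2 4 (.cons 0x5423987601 .nil) (.leaf 0x4239876015 1 (.node 1 9 (.cons 0x7891065423 .nil) (.node 1 4 (.cons 0x7890651432 .nil) (.node 1 7 (.cons 0x9871065423 .nil) (.leaf 0x654239871 3 (.node 2 9 (.cons 0x4329871560 .nil) (.leaf 0x651789234 0 .done) .done)) .done) (.node 1 4 (.cons 0x7890651432 .nil) (.node 2 5 (.cons 0x4523987601 .nil) (.leaf 0x4106789325 1 (.node 0 2 (.cons 0x3456789120 .nil) (.node 1 3 (.cons 0x5431987602 .nil) (.leaf 0x4520678913 3 (.leaf 0x9876025431 3 .done)) .done) (.leaf 0x3987601452 4 .done))) .done) .done)) .done)) (.leaf 0x8906512347 6 (.node 7 9 (.cons 0x8790432156 .nil) (.node 0 7 .nil (.node 4 9 (.cons 0x8945670123 (.cons 0x6549870123 .nil)) (.leaf 0x3498706512 7 .done) (.node 1 9 (.cons 0x6078915432 .nil) (.node 6 9 (.cons 0x8769321045 .nil) (.node 3 6 (.cons 0x4512369870 .nil) (.node 0 8 (.cons 0x7654321980 .nil) (.node 2 8 (.cons 0x8236915470 .nil) (.leaf 0x9782156340 6 (.leaf 0x5128790436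 6 (.leaf 0x1547082369 1 .done))) (.leaf 0x4321980765 3 .done)) (.leaf 0x5123698704 5 (.leaf 0x6321540789 1 .done))) .done) .done) .done)) (.node 6 8 (.cons 0x6879321540 .nil) (.leaf 0x2156879043 5 (.leaf 0x8651234097 1 (.leaf 0x3215406879 3 .done))) .done)) .done))) .done))) (.node 5 8 (.cons 0x9321045876 .nil) (.node 6 9 (.cons 0x7856904321 .nil) (.node 0 6 (.cons 0x2154398760 .nil) (.node 4 6 (.cons 0x5467893210 .nil) (.node 1 7 (.cons 0x9043217856 .nil) (.leaf 0x432178569 1 (.node 0 7 (.cons 0x6985432170 .nil) (.leaf 0x6985432170 0 .done) (.node 1 6 (.cons 0x9043216587 .nil) (.node 2 7 (.cons 0x9327854610 .nil) (.node 1 8 (.cons 0x7239645810 .nil) (.node 0 2 (.cons 0x6789345120 .nil) (.leaf 0x4678932015 4 (.node 5 9 (.cons 0x1789564320 .nil) (.leaf 0x8710234659 6 (.leaf 0x2187659043 7 .done)) (.leaf 0x4615872093 3 .done))) .done) (.leaf 0x8546109327 3 (.leaf 0x6127854390 4 .done))) .done) .done))) .done) (.node 0 5 (.cons 0x6789321054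 .nil) (.node 4 6 (.cons 0x5467893210 .nil) (.node 0 3 (.cons 0x5467893012 .nil) (.node 0 2 (.cons 0x6789345120 .nil) (.node 1 9 (.cons 0x5432067891 .nil) (.leaf 0x678915432 7 .done) .done) .done) .done) .done) .done)) (.leaf 0x1045876932 2 (.leaf 0x4012396785 6 (.leaf 0x4012396785 3 .done)))) (.node 1 9 (.cons 0x6785401932 .nil) (.node 2 9 (.cons 0x8765129043 .nil) (.node 5 9 (.cons 0x8765904321 .nil) (.node 3 8 (.cons 0x4095678321 .nil) (.node 6 9 (.cons 0x2396785401 .nil) (.leaf 0x7854012396 3 (.node 1 8 (.cons 0x6781239540 .nil) (.leaf 0x2187659043 7 (.node 1 6 (.cons 0x8761239540 .nil) (.node 2 4 (.cons 0x9324587610 .nil) (.leaf 0x6109324587 4 (.leaf 0x5876109324 0 .done)) .done) .done)) .done)) (.leaf 0x7651290438 1 .done)) .done) (.node 3 8 (.cons 0x6783921540 .nil) (.leaf 0x5129043876 6 (.node 5 9 (.cons 0x8765904321 .nil) (.node 4 9 (.cons 0x3876512940 .nil) (.leaf 0x8321049567 3 (.leaf 0x8321049567 6 .done)) .done) .done)) .done))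 (.node 2 9 (.cons 0x8765129043 .nil) (.node 5 9 (.cons 0x8765904321 .nil) (.node 1 8 (.cons 0x6781239540 .nil) (.leaf 0x2187659043 7 (.node 6 9 (.cons 0x2396785401 .nil) (.leaf 0x7854012396 3 (.node 7 9 (.cons 0x1856792340 .nil) (.leaf 0x8567923401 2 .done) .done)) .done)) .done) (.node 3 8 (.cons 0x6783921540 .nil) (.leaf 0x5129043876 6 (.node 5 9 (.cons 0x8765904321 .nil) (.node 4 9 (.cons 0x3876512940 .nil) (.leaf 0x3210495678 1 (.leaf 0x3876594012 7 .done)) .done) .done)) .done)) .done)) (.node 6 9 (.cons 0x1239678540 .nil) (.leaf 0x3210458769 6 (.node 0 6 (.cons 0x2154398760 .nil) (.node 1 7 (.cons 0x4589321760 .nil) (.node 5 7 (.cons 0x8932106754 .nil) (.node 0 5 (.cons 0x6789321054 .nil) (.node 4 6 (.cons 0x5467893210 .nil) (.leaf 0x564321789 6 .done) .done) .done) (.leaf 0x6712398540 7 (.leaf 0x3217604589 4 .done))) (.node 4 6 (.cons 0x5467893210 .nil) (.node 6 8 .nil (.node 7 9 (.cons 0x1239768540 .nil) (.leaf 0x3210458679 6 (.leaf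 0x6854012397 7 (.leaf 0x6879043215 6 .done))) (.node 1 6 (.cons 0x9321678540 .nil) (.node 3 6 (.cons 0x4093678512 .nil) .done .done) .done)) .done) .done)) (.leaf 0x7854012396 7 (.node 2 9 (.cons 0x8765129043 .nil) (.node 1 9 .nil (.node 3 8 (.cons 0x9043876512 (.cons 0x7832196540 (.cons 0x9104567832 .nil))) (.leaf 0x1045678329 4 .done) (.node 5 9 (.cons 0x8765904321 .nil) (.node 5 7 .nil (.node 6 8 (.cons 0x8675129340 (.cons 0x8675401293 (.cons 0x6875401932 .nil))) (.leaf 0x4012396875 3 .done) (.node 2 5 .nil (.node 0 6 (.cons 0x7891234560 (.cons 0x1254398760 (.cons 0x4523987601 .nil))) (.leaf 0x9345210678 3 .done) (.node 0 2 (.cons 0x6789345120 .nil) (.node 2 4 (.cons 0x3421567890 .nil) .done .done) .done)) .done)) .done) .done)) (.node 1 9 .nil (.node 3 8 (.cons 0x9043876512 (.cons 0x7832196540 (.cons 0x9104567832 .nil))) (.leaf 0x7651290438 1 .done) (.node 5 9 (.cons 0x8765904321 .nil) (.node 3 8 (.cons 0x9043876512 .nil) (.node 7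 9 (.cons 0x1238796540 .nil) (.leaf 0x1045697832 1 .done) (.leaf 0x7651290438 1 (.node 2 8 (.cons 0x3967821540 .nil) (.node 2 7 (.cons 0x4567238910 .nil) (.leaf 0x1904382765 4 (.leaf 0x3276540198 7 (.leaf 0x915672834 5 .done))) (.node 0 3 (.cons 0x8769304512 .nil) (.leaf 0x396782154 1 (.node 0 8 (.cons 0x7654321980 .nil) (.leaf 0x4087693215 3 (.node 0 7 (.cons 0x8912345670 .nil) (.leaf 0x4321980765 3 (.leaf 0x2915670438 1 .done)) .done)) .done)) .done)) .done))) .done) .done)) .done)) .done)))) .done))) .done))))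
noncomputable def tc9_8_12 : T := (.node 1 5 (.cons 0x4321567890 .nil) tc9_8_11 (.node 1 5 (.cons 0x4321567890 .nil) (.leaf 0x3215678904 4 (.node 4 6 (.cons 0x5467893210 .nil) tc9_8_10 (.leaf 0x2340987651 6 (.node 0 3 (.cons 0x4309876512 .nil) (.node 3 7 (.cons 0x8904376512 .nil) (.node 0 5 (.cons 0x6789321054 .nil) (.node 0 2 (.cons 0x6789345120 .nil) (.node 0 6 (.cons 0x2154398760 .nil) (.node 4 6 (.cons 0x5467893210 .nil) (.leaf 0x1239876450 5 (.node 1 7 (.cons 0x2346509871 .nil) (.leaf 0x564321789 6 (.node 5 8 (.cons 0x7658904321 .nil) (.leaf 0x2340985671 0 (.leaf 0x2340985671 3 .done)) .done)) .done)) (.node 1 9 (.cons 0x5432067891 .nil) (.leaf 0x6023451987 6 (.leaf 0x678915432 7 .done)) .done)) .done) (.node 0 6 (.cons 0x2154398760 .nil) (.node 0 7 .nil (.node 1 9 (.cons 0x8912345670 (.cons 0x6543219870 .nil)) (.leaf 0x2345607891 1 .done) (.node 0 2 (.cons 0x6789345120 .nil) (.node 0 8 (.cons 0x9804376512 .nil) .done .done) .done))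 .done) .done)) (.node 0 2 (.cons 0x6789345120 .nil) (.node 0 5 (.cons 0x6789321054 .nil) (.node 0 6 (.cons 0x2154398760 .nil) (.node 1 9 (.cons 0x2065437891 .nil) (.leaf 0x2065437891 0 (.node 2 4 (.cons 0x6542378910 .nil) (.node 5 8 (.cons 0x6785124390 .nil) (.leaf 0x8560912437 1 (.leaf 0x6091243785 5 .done)) (.leaf 0x3789106542 0 .done)) .done)) .done) .done) (.node 0 6 (.cons 0x2154398760 .nil) (.node 0 7 .nil (.node 1 9 (.cons 0x8910456732 (.cons 0x8912345670 (.cons 0x6543219870 .nil))) .done .done) (.node 1 9 (.cons 0x5432067891 .nil) (.leaf 0x6023451987 6 (.leaf 0x678915432 7 .done)) .done)) .done)) .done)) (.node 0 5 (.cons 0x6789321054 .nil) (.node 0 2 (.cons 0x6789345120 .nil) (.node 0 6 (.cons 0x2154398760 .nil) (.node 2 4 (.cons 0x3421567890 .nil) (.node 0 8 (.cons 0x9087651243 .nil) (.node 0 7 .nil (.node 1 9 (.cons 0x8760543912 (.cons 0x8912345670 (.cons 0x6543219870 .nil))) .done .done) .done) (.node 3 5 (.cons 0x7890653421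 .nil) (.leaf 0x4210678935 1 (.leaf 0x9876012453 4 .done)) .done)) (.node 1 9 (.cons 0x5432067891 .nil) (.leaf 0x6023451987 6 (.leaf 0x678915432 7 .done)) .done)) .done) (.node 0 2 (.cons 0x6789345120 .nil) (.node 0 6 (.cons 0x2154398760 .nil) (.leaf 0x4398760215 4 .done) (.node 0 8 .nil (.node 5 7 (.cons 0x8932104576 (.cons 0x6754089321 .nil)) (.node 0 7 (.cons 0x9807654321 .nil) (.node 1 9 (.cons 0x6543078912 (.cons 0x7654321980 (.cons 0x6578091234 .nil))) .done .done) .done) (.node 0 6 (.cons 0x2154398760 .nil) (.node 0 7 .nil (.node 2 8 (.cons 0x9345128760 (.cons 0x9345128706 (.cons 0x9821567043 (.cons 0x6704512893 .nil)))) .done .done) .done) .done)) .done)) .done)) (.node 2 4 (.cons 0x3421567890 .nil) (.node 0 6 (.cons 0x2154398760 .nil) (.node 5 8 (.cons 0x6785124390 .nil) (.leaf 0x1243906785 3 (.leaf 0x7609342158 3 (.node 0 5 (.cons 0x6789321054 .nil) (.node 0 2 (.cons 0x6789345120 .nil) (.node 0 7 (.cons 0x6704589321 .nil) (.node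 0 8 (.cons 0x9087651243 .nil) .done .done) .done) .done) .done))) (.node 4 6 (.cons 0x5467893210 .nil) (.node 5 8 (.cons 0x6785124390 .nil) (.leaf 0x4239015876 3 (.leaf 0x2390158764 1 (.node 6 8 (.cons 0x7685124093 .nil) (.node 5 7 (.cons 0x2157689340 .nil) (.node 0 2 (.cons 0x6789345120 .nil) (.leaf 0x3402157689 4 (.leaf 0x1576893402 7 .done)) (.leaf 0x9321045768 4 .done)) .done) .done))) .done) .done)) (.leaf 0x9876512430 4 (.leaf 0x9876512430 5 .done))) .done))) .done)))) (.leaf 0x1239876540 4 (.node 1 5 (.cons 0x4321567890 .nil) tc9_8_9 (.leaf 0x5678932104 1 (.node 1 5 (.cons 0x4321567890 .nil) (.leaf 0x9876512340 1 (.leaf 0x9876512340 7 (.leaf 0x8904321567 6 (.node 1 9 .nil (.node 0 5 (.cons 0x6789321054 (.cons 0x8765091234 .nil)) (.leaf 0x9876504321 7 (.leaf 0x8912340567 6 .done)) (.node 1 6 (.cons 0x5401678932 .nil) (.node 0 6 (.cons 0x2154398760 .nil) (.node 4 6 (.cons 0x5467893210 .nil) (.node 4 9 .nil (.node 0 5 (.cons 0x3987645012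 (.cons 0x8765094321 .nil)) (.leaf 0x8943210567 6 .done) (.node 4 8 (.cons 0x7601239845 .nil) (.node 5 7 (.cons 0x8756123490 .nil) (.leaf 0x4890675123 3 (.node 0 8 (.cons 0x7654321980 .nil) (.node 1 4 (.cons 0x9087561432 .nil) .done (.leaf 0x8094321657 1 .done)) (.leaf 0x7609843215 0 .done))) .done) .done)) .done) (.node 4 6 (.cons 0x5467893210 .nil) (.node 2 5 (.cons 0x1254398760 .nil) (.node 2 4 (.cons 0x3421567890 .nil) (.node 3 5 (.cons 0x7890653421 .nil) (.leaf 0x4210678935 1 (.node 0 3 (.cons 0x4309876512 .nil) (.node 3 7 (.cons 0x6512437890 .nil) (.leaf 0x2437890651 6 (.leaf 0x9873421560 6 .done)) (.leaf 0x4215678903 1 .done)) (.leaf 0x9876012453 4 .done))) (.node 3 5 (.cons 0x4539876012 .nil) (.leaf 0x1067893542 5 (.leaf 0x1067893542 4 (.node 2 6 (.cons 0x1534267890 .nil) (.leaf 0x2678901534 1 (.node 0 3 (.cons 0x4512678930 .nil) (.leaf 0x7621540398 6 (.leaf 0x6215403987 7 (.leaf 0x3098765124 1 .done))) .done)) .done))) .done))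 (.leaf 0x452398761 4 (.node 2 9 (.cons 0x3298765401 .nil) (.node 1 3 (.cons 0x1329876540 .nil) (.node 0 7 (.cons 0x8912345670 .nil) (.leaf 0x6543129870 6 (.leaf 0x8923165407 1 .done)) (.leaf 0x8765401329 5 .done)) .done) (.leaf 0x3254016789 7 .done)))) .done) .done)) (.node 2 5 (.cons 0x2516789340 .nil) (.leaf 0x7893254016 7 (.leaf 0x7893254016 1 (.node 1 7 (.cons 0x9871652340 .nil) (.leaf 0x6523409871 0 (.node 4 7 (.cons 0x9874016523 .nil) (.leaf 0x165239874 6 (.leaf 0x1047893256 4 .done)) .done)) (.node 2 9 (.cons 0x3298765401 .nil) (.node 1 3 (.cons 0x4098765231 .nil) (.leaf 0x456789231 5 (.node 1 4 (.cons 0x5239876140 .nil) (.leaf 0x7652314098 1 (.node 1 8 .nil (.node 2 6 (.cons 0x7890431562 (.cons 0x7815629043 (.cons 0x7623981045 .nil))) .done .done) .done)) .done)) .done) .done)))) .done)) (.node 2 9 (.cons 0x3298765401 .nil) (.node 4 9 .nil (.node 0 5 (.cons 0x6789321054 (.cons 0x8765094321 .nil)) (.leaf 0x9876501234 7 (.leaf 0x8943210567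 6 .done)) (.node 1 8 (.cons 0x7654018923 .nil) (.node 3 7 (.cons 0x8923765401 .nil) (.leaf 0x6540189237 1 (.leaf 0x2981045673 4 (.node 4 8 .nil (.node 0 6 (.cons 0x7891234560 (.cons 0x9106548732 (.cons 0x7601239845 .nil))) (.leaf 0x4560192378 4 .done) (.node 0 8 (.cons 0x4567329801 .nil) (.node 1 4 (.cons 0x8923765410 .nil) (.leaf 0x5673298014 5 (.node 4 6 (.cons 0x5467893210 .nil) (.node 2 8 (.cons 0x9823765410 .nil) (.leaf 0x4673928015 0 (.leaf 0x6732890145 5 .done)) .done) .done)) .done) .done)) .done))) (.node 3 7 (.cons 0x2981567340 .nil) (.leaf 0x6540189237 7 (.node 1 6 (.cons 0x5401678932 .nil) (.node 1 3 (.cons 0x9876540132 .nil) (.node 3 6 (.cons 0x7891045632 .nil) (.node 2 7 (.cons 0x4563278910 .nil) (.node 0 7 (.cons 0x6543219870 .nil) (.leaf 0x4329815670 3 (.node 2 5 (.cons 0x6789325401 .nil) (.leaf 0x431892567 6 (.leaf 0x3254016789 7 .done)) .done)) (.leaf 0x1987236540 5 (.leaf 0x2789104563 1 .done))) .done) .done) (.node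 4 6 (.cons 0x5467893210 .nil) (.node 0 6 (.cons 0x7891234560 .nil) (.node 0 7 (.cons 0x6543219870 .nil) (.leaf 0x1234560789 3 (.leaf 0x4329815670 3 .done)) .done) .done) .done)) (.leaf 0x9237654018 4 .done))) .done)) .done)) (.node 1 3 (.cons 0x1329876540 .nil) (.node 1 8 (.cons 0x9231876540 .nil) (.leaf 0x2318765409 6 (.node 2 8 (.cons 0x6782931540 .nil) (.leaf 0x5134092876 6 (.leaf 0x1567829043 7 .done)) .done)) (.node 0 3 (.cons 0x4309876512 .nil) (.node 4 8 (.cons 0x6784512930 .nil) (.leaf 0x5129034876 6 (.leaf 0x1290348765 7 (.leaf 0x1567843092 1 .done))) (.node 1 6 (.cons 0x7892304561 .nil) (.node 1 7 (.cons 0x8923176540 .nil) (.node 1 4 .nil (.node 0 2 (.cons 0x6789345120 .nil) (.leaf 0x1456789320 4 (.leaf 0x6789023415 7 (.node 3 5 (.cons 0x6789021534 (.cons 0x8765329041 (.cons 0x4109876532 .nil))) .done .done))) .done) (.leaf 0x2304561789 5 .done)) (.node 2 5 (.cons 0x7891652340 .nil) (.leaf 0x7893254016 7 (.leaf 0x7893254016 1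 (.node 0 7 (.cons 0x6543219870 .nil) (.leaf 0x4325619870 6 (.node 1 7 (.cons 0x9871652340 .nil) (.leaf 0x2304561789 2 .done) (.leaf 0x8704325619 7 .done))) .done))) .done)) .done)) (.leaf 0x8765401329 5 .done))) .done)) .done))) .done)))) .done))))))
noncomputable def uc9_8_4 : T := tc9_8_12
theorem sub_c9_8_4 : root 9 refs9_8 [] 0x800005004807000000007060000000060500000000504000000004010005000010300000000302000000002014000000010 0xfecffe7fff3fff9fffcfffedffd5fff3fff9ffed 9 0 4 (.cons 0x5678904321 .nil) uc9_8_4 = true := by decide +kernel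
noncomputable def tc9_8_13 : T := (.node 0 2 .nil (.node 1 4 (.cons 0x5678902143 .nil) (.node 1 9 (.cons 0x3456789120 .nil) (.leaf 0x6543201987 6 (.leaf 0x5678910234 1 .done)) (.leaf 0x2014567893 4 (.leaf 0x239876541 6 .done))) (.node 2 7 (.cons 0x6512789043 .nil) (.node 2 9 .nil (.node 0 3 (.cons 0x4309876512 (.cons 0x8765129034 (.cons 0x6789215430 (.cons 0x4567892301 .nil)))) .done (.node 3 6 (.cons 0x7890436512 .nil) (.leaf 0x8904365127 1 (.node 2 6 .nil (.node 4 7 (.cons 0x6547893210 (.cons 0x3987456210 (.cons 0x8936274510 .nil))) .done (.node 1 6 (.cons 0x7890432165 .nil) (.node 4 7 (.cons 0x6547893210 .nil) (.node 2 8 (.cons 0x7456398210 .nil) (.node 0 7 (.cons 0x5634709821 .nil) (.leaf 0x2156347098 3 (.leaf 0x6547012893 2 .done)) .done) (.node 2 8 (.cons 0x6398274510 .nil) (.leaf 0x7456109328 3 .done) .done)) .done) .done)) (.leaf 0x8904365127 7 (.node 1 7 (.cons 0x1789236540 .nil) (.leaf 0x456329871 0 (.leaf 0x6329871045 4 .done))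 .done)))) .done)) (.node 0 6 (.cons 0x4398721560 .nil) (.leaf 0x6512789340 0 (.leaf 0x8721560439 2 (.leaf 0x8721560439 6 .done))) (.node 2 9 .nil (.node 0 3 (.cons 0x4309876512 (.cons 0x8765129034 (.cons 0x6789215430 (.cons 0x4567892301 .nil)))) .done (.node 1 9 .nil (.node 0 3 (.cons 0x6789215430 (.cons 0x6540327891 .nil)) (.leaf 0x8912304567 1 (.leaf 0x7891203456 1 .done)) (.node 1 4 .nil (.node 3 5 (.cons 0x6789235410 .nil) (.leaf 0x6789014235 4 (.leaf 0x1435678902 4 (.leaf 0x2410987653 1 .done))) (.node 2 6 .nil (.node 4 7 (.cons 0x6547893210 (.cons 0x3987456210 (.cons 0x8742651093 .nil))) .done (.node 1 6 (.cons 0x7890432165 .nil) (.node 4 7 (.cons 0x6547893210 .nil) (.node 4 8 (.cons 0x7651209843 .nil) (.node 3 5 (.cons 0x4789356210 .nil) (.leaf 0x2784091653 3 (.leaf 0x6109235487 4 (.leaf 0x478935621 1 .done))) .done) (.node 2 8 (.cons 0x9328745610 .nil) (.leaf 0x7456109328 3 .done) .done)) .done) .done)) .done)) .done)) .done))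 .done))) (.node 0 6 (.cons 0x9876021543 .nil) (.node 0 7 (.cons 0x8709342156 .nil) (.node 0 8 (.cons 0x9087651243 .nil) (.node 0 3 (.cons 0x4309876512 .nil) (.node 0 5 .nil (.node 1 6 (.cons 0x2165439870 (.cons 0x4398705612 .nil)) (.leaf 0x1650789342 1 .done) .done) .done) .done) (.node 1 6 (.cons 0x6154398702 .nil) (.leaf 0x5423987016 7 (.leaf 0x789324561 6 .done)) .done)) (.node 3 6 (.cons 0x9876345120 .nil) (.leaf 0x4512098763 1 (.node 1 6 (.cons 0x7890432165 .nil) (.node 2 6 .nil (.node 4 7 (.cons 0x6547893210 (.cons 0x3987456210 (.cons 0x8742651093 .nil))) (.leaf 0x8932106547 0 .done) (.node 2 9 (.cons 0x7892156340 .nil) (.node 2 7 (.cons 0x9872156340 .nil) (.node 1 9 .nil (.node 0 3 (.cons 0x4309876512 (.cons 0x6789154302 .nil)) (.leaf 0x8912304567 1 .done) (.node 0 5 (.cons 0x6789123450 .nil) (.leaf 0x5432198760 0 (.leaf 0x9123450678 3 .done)) .done)) .done) .done) .done)) .done) (.node 2 7 (.cons 0x9872365401 .nil) (.leaf 0x4365127890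 7 (.node 4 6 (.cons 0x1546398720 .nil) (.leaf 0x3987201546 2 .done) .done)) .done))) (.leaf 0x4398760215 7 (.leaf 0x5439876021 6 .done)))) .done))) (.node 0 2 .nil (.node 1 9 (.cons 0x3456789120 .nil) (.node 0 3 (.cons 0x4567891032 .nil) (.leaf 0x2456789103 1 (.node 0 5 (.cons 0x8765091234 .nil) (.leaf 0x8912340567 4 .done) (.leaf 0x8765430219 6 .done))) (.leaf 0x6543201987 6 (.leaf 0x5678910234 1 .done))) (.node 3 8 (.cons 0x7651243890 .nil) (.node 4 9 (.cons 0x8765120943 .nil) (.node 2 9 .nil (.node 3 7 (.cons 0x9873210456 (.cons 0x8734092156 (.cons 0x6512987340 (.cons 0x6738924510 .nil)))) .done (.node 2 6 .nil (.node 0 3 (.cons 0x4309876512 (.cons 0x5498762301 .nil)) (.leaf 0x4987623015 4 .done) (.node 2 7 (.cons 0x6512789043 .nil) (.node 0 3 (.cons 0x5126789430 .nil) (.node 0 5 (.cons 0x3498762150 .nil) (.leaf 0x6789430512 3 .done) (.node 1 4 (.cons 0x1456789230 .nil) (.node 1 6 (.cons 0x7615429830 .nil) (.leaf 0x5492038761 3 .done)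 .done) .done)) .done) .done)) .done)) (.leaf 0x4902156783 1 (.node 2 6 (.cons 0x9451026783 .nil) (.leaf 0x4510267839 1 (.leaf 0x5493876201 6 .done)) .done))) (.node 0 7 (.cons 0x9834215670 .nil) (.leaf 0x1243890765 2 (.leaf 0x4215670983 6 (.leaf 0x4215670983 3 .done))) (.node 0 7 (.cons 0x9832456701 .nil) (.node 6 9 (.cons 0x5423896701 .nil) (.leaf 0x769832451 4 (.node 1 7 (.cons 0x9832456710 .nil) (.leaf 0x8396542017 0 (.node 3 7 (.cons 0x3789654012 .nil) (.leaf 0x2104569873 0 .done) .done)) (.leaf 0x7015423896 6 (.leaf 0x8967015423 7 .done)))) (.leaf 0x9834215670 7 (.node 0 5 .nil (.node 1 9 (.cons 0x7654238910 (.cons 0x6789123450 .nil)) (.leaf 0x2340567891 6 .done) (.node 0 3 (.cons 0x4309876512 .nil) (.node 2 6 (.cons 0x9876215430 .nil) (.node 0 6 (.cons 0x9876034512 .nil) (.node 0 8 (.cons 0x7089342651 .nil) .done .done) (.leaf 0x8762154309 4 .done)) .done) .done)) .done))) .done))) (.node 2 9 .nil (.node 3 6 (.cons 0x9876345120 (.cons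 0x7892156340 (.cons 0x1543678920 .nil))) (.leaf 0x2987634510 7 (.leaf 0x9201543678 6 .done)) (.node 2 7 (.cons 0x6512789043 .nil) (.node 3 6 (.cons 0x9876345120 .nil) (.leaf 0x4512098763 1 (.node 0 6 (.cons 0x9876021543 .nil) (.node 0 3 (.cons 0x4309876512 .nil) (.node 1 6 (.cons 0x7892304561 .nil) (.leaf 0x7892034516 6 .done) .done) (.leaf 0x4398760215 7 (.leaf 0x5439876021 6 .done))) (.leaf 0x1563409872 6 (.leaf 0x436512789 6 .done)))) (.node 0 6 (.cons 0x4398721560 .nil) (.leaf 0x6512789340 0 (.node 3 6 (.cons 0x9876345120 .nil) (.leaf 0x4512098763 1 (.node 5 9 (.cons 0x4367895120 .nil) (.leaf 0x1204367895 6 (.node 1 6 (.cons 0x1678954320 .nil) (.leaf 0x2789561043 6 .done) .done)) (.leaf 0x4365127890 7 .done))) (.leaf 0x4398760215 7 (.leaf 0x5439876021 6 .done)))) .done)) .done)) .done))) (.node 1 4 .nil (.node 3 5 (.cons 0x4109876532 .nil) (.leaf 0x6789041235 1 (.leaf 0x1098765324 4 (.leaf 0x1098765324 5 .done))) (.node 4 7 (.cons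 0x6547893210 .nil) (.node 4 8 .nil (.node 0 2 (.cons 0x9021567843 (.cons 0x7651209843 .nil)) (.node 3 7 (.cons 0x9873210456 (.cons 0x9873402156 .nil)) (.leaf 0x1567348902 5 (.leaf 0x2109845673 6 (.leaf 0x3765120984 1 .done))) .done) (.node 4 6 .nil (.node 0 5 (.cons 0x6789051243 .nil) (.leaf 0x4678905123 2 (.leaf 0x2105467893 4 (.leaf 0x6478932105 3 .done))) (.node 4 9 .nil (.node 0 5 (.cons 0x6789051243 (.cons 0x8765094321 .nil)) (.leaf 0x9876501234 7 (.node 1 6 (.cons 0x9876105423 (.cons 0x5016789423 .nil)) .done .done)) .done) .done)) .done)) (.node 4 8 .nil (.node 0 2 (.cons 0x6547893201 (.cons 0x9021567843 (.cons 0x7651209843 .nil))) .done (.node 4 6 .nil (.node 0 2 (.cons 0x6547893201 .nil) (.leaf 0x6478932015 5 (.leaf 0x6478932015 4 .done)) (.node 1 6 (.cons 0x2398745610 .nil) (.node 4 9 .nil (.node 0 5 (.cons 0x6789051243 (.cons 0x8765094321 (.cons 0x5016789423 .nil))) (.leaf 0x9876501234 7 .done) .done) .done) .done)) .done))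 .done)) (.node 1 6 (.cons 0x7890432165 .nil) (.node 1 9 .nil (.node 0 2 (.cons 0x3456789120 .nil) (.node 4 7 (.cons 0x6547893210 (.cons 0x8743902156 (.cons 0x8743902165 (.cons 0x6547893201 .nil)))) .done (.leaf 0x7654320198 5 (.leaf 0x5678910234 4 .done))) (.node 1 7 .nil (.node 0 6 (.cons 0x5432198760 (.cons 0x2178934560 (.cons 0x4560178932 .nil))) (.leaf 0x3987106542 6 .done) (.node 1 3 .nil (.node 0 2 (.cons 0x9876543120 .nil) (.node 0 6 (.cons 0x7893456021 (.cons 0x5432067891 .nil)) (.leaf 0x3987156024 4 .done) (.leaf 0x7651342098 3 (.leaf 0x6513420987 1 .done))) .done) .done)) .done)) (.node 1 9 .nil (.node 0 2 (.cons 0x3456789120 .nil) (.node 0 5 (.cons 0x8765091234 (.cons 0x7891650432 .nil)) (.leaf 0x4205167893 4 .done) (.leaf 0x7654320198 5 (.leaf 0x5678910234 4 .done))) (.node 1 7 .nil (.node 0 6 (.cons 0x5432198760 (.cons 0x2178934560 (.cons 0x4560178932 .nil))) (.leaf 0x3987106542 3 (.leaf 0x3987106542 6 .done)) (.node 1 3 .nil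 (.node 0 2 (.cons 0x9876543120 .nil) (.node 2 9 (.cons 0x4567892310 .nil) (.leaf 0x3104567892 6 (.leaf 0x8765401329 7 .done)) (.leaf 0x7651342098 3 (.leaf 0x6513420987 1 .done))) .done) .done)) .done)) .done)) .done))) .done)))
noncomputable def tc9_8_14 : T := (.node 2 4 .nil (.node 3 5 (.cons 0x4235678901 .nil) (.node 1 4 (.cons 0x2143567890 .nil) (.leaf 0x6789014235 3 (.leaf 0x1098765324 0 .done)) (.leaf 0x9876534210 1 (.leaf 0x9876534210 7 .done))) (.node 4 6 .nil (.node 3 7 (.cons 0x9873210456 (.cons 0x9873210465 (.cons 0x4651098732 .nil))) (.leaf 0x9873215640 4 .done) (.node 1 4 .nil (.node 0 2 (.cons 0x7890215643 .nil) (.leaf 0x1456789320 5 (.leaf 0x2014567893 1 .done)) (.node 4 8 .nil (.node 3 5 (.cons 0x8746539012 (.cons 0x7846539012 (.cons 0x7653210984 (.cons 0x7653248901 .nil)))) .done (.node 4 9 .nil (.node 0 8 (.cons 0x9087432156 .nil) (.leaf 0x1239456780 4 (.leaf 0x7654932108 1 .done)) .done) .done)) .done)) (.node 2 9 (.cons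 0x8746510923 .nil) (.node 2 7 (.cons 0x1564327890 .nil) (.leaf 0x3465109872 1 (.node 0 2 (.cons 0x7890234651 .nil) (.node 2 5 (.cons 0x8746523901 .nil) .done .done) .done)) (.node 2 7 (.cons 0x1564327890 .nil) (.node 0 2 (.cons 0x7890234651 .nil) (.node 2 5 (.cons 0x8746523901 .nil) .done .done) (.leaf 0x3465109872 1 .done)) .done)) .done))) (.node 1 4 .nil (.node 0 2 (.cons 0x5678902143 .nil) (.leaf 0x8902341567 6 (.leaf 0x1456789320 5 (.leaf 0x4320987651 6 .done))) (.node 4 6 .nil (.node 3 7 (.cons 0x9873210456 (.cons 0x9873210465 (.cons 0x4651098732 .nil))) (.leaf 0x9873215640 4 .done) (.node 4 9 .nil (.node 0 8 (.cons 0x9087432156 .nil) (.leaf 0x1239456780 4 (.leaf 0x7654932108 1 (.node 1 6 (.cons 0x7890432165 (.cons 0x7801654932 (.cons 0x5610874932 .nil))) .done .done))) (.node 4 8 .nil (.node 3 5 (.cons 0x8746539012 (.cons 0x2356784901 (.cons 0x7653210984 .nil))) (.node 0 7 (.cons 0x9078432156 .nil) (.leaf 0x2348907651 6 (.leaf 0x9841235670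 2 (.node 2 9 (.cons 0x8476532901 .nil) (.leaf 0x1076532984 3 (.leaf 0x6532901487 2 .done)) (.leaf 0x984321567 0 .done)))) .done) .done) .done)) (.node 2 7 (.cons 0x1564327890 .nil) (.leaf 0x3465109872 1 (.node 2 9 (.cons 0x8746510923 .nil) (.node 0 2 (.cons 0x7890234651 .nil) (.node 2 5 (.cons 0x8746523901 .nil) .done .done) .done) .done)) .done))) (.node 0 2 (.cons 0x5678902143 .nil) (.node 3 5 (.cons 0x2143567890 .nil) (.node 4 8 (.cons 0x9012356784 .nil) (.node 2 9 (.cons 0x8765341290 .nil) (.node 4 9 (.cons 0x2356784901 .nil) .done (.leaf 0x4876532901 0 .done)) .done) (.leaf 0x1435678902 6 (.leaf 0x7653412098 6 .done))) (.node 3 5 (.cons 0x2143567890 .nil) (.leaf 0x1435678902 4 (.node 4 8 (.cons 0x7653210984 .nil) (.node 2 9 (.cons 0x8476532901 .nil) (.node 2 5 (.cons 0x3412567890 .nil) (.node 2 7 (.cons 0x6527841093 .nil) (.node 2 6 (.cons 0x7265398410 .nil) .done .done) .done) .done) .done) (.leaf 0x6789021435 7 .done))) .done))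 .done))) .done))) (.node 0 6 (.cons 0x7890651234 .nil) (.node 4 8 (.cons 0x9065123487 .nil) (.node 2 7 (.cons 0x5609348721 .nil) (.node 2 4 .nil (.node 3 5 (.cons 0x6539012784 (.cons 0x9012487653 (.cons 0x4235678901 .nil))) (.leaf 0x9876534210 7 .done) (.node 4 6 (.cons 0x5648721093 .nil) (.node 3 7 (.cons 0x9378456012 .nil) (.leaf 0x1564237890 5 (.node 3 6 (.cons 0x9365487210 .nil) (.leaf 0x5109842736 5 (.leaf 0x3651098427 1 .done)) .done)) .done) .done)) (.node 4 9 (.cons 0x5601278493 .nil) (.node 5 8 (.cons 0x7210658493 .nil) (.node 1 4 (.cons 0x3276589410 .nil) (.leaf 0x5872394106 3 .done) (.node 3 7 (.cons 0x8945673210 .nil) (.leaf 0x4937210658 4 (.leaf 0x9485601273 6 .done)) .done)) (.node 4 6 (.cons 0x3278946510 .nil) (.node 1 8 (.cons 0x9432781560 .nil) (.leaf 0x7239456018 1 (.node 1 6 (.cons 0x5610498723 .nil) (.node 3 5 (.cons 0x9872165340 .nil) (.leaf 0x498723561 4 (.leaf 0x498723561 5 (.leaf 0x4356127890 7 .done))) .done) .done))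 .done) .done)) (.leaf 0x1560934872 1 .done))) (.node 7 9 (.cons 0x2397845601 .nil) (.node 4 9 .nil (.node 0 8 (.cons 0x5678094321 .nil) (.leaf 0x6512349780 5 (.leaf 0x1239456780 4 (.leaf 0x7654932108 1 .done))) (.node 1 9 (.cons 0x7845601932 .nil) (.node 2 4 (.cons 0x8790651243 .nil) (.node 2 5 (.cons 0x5234876091 .nil) (.leaf 0x3910678452 1 (.leaf 0x8760915234 3 .done)) .done) .done) .done)) (.node 0 7 .nil (.node 1 6 (.cons 0x7890432165 (.cons 0x7016548932 (.cons 0x9870432165 (.cons 0x2165439870 .nil)))) .done (.node 0 8 .nil (.node 1 9 (.cons 0x8706543912 (.cons 0x7654321980 (.cons 0x6087915432 (.cons 0x7806543912 .nil)))) .done (.node 0 2 (.cons 0x6543987021 .nil) (.node 1 8 (.cons 0x1897654320 .nil) (.node 3 8 (.cons 0x4567983201 .nil) .done (.leaf 0x9345670218 1 .done)) .done) .done)) .done)) (.leaf 0x5609784321 5 .done))) .done)) (.leaf 0x8932106547 0 (.leaf 0x8932106547 6 (.leaf 0x3987456012 2 .done)))) (.node 0 6 (.cons 0x3987456012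 .nil) (.node 0 2 (.cons 0x6512098743 .nil) (.node 3 6 (.cons 0x2156347890 .nil) (.node 0 7 (.cons 0x8936547012 .nil) (.node 2 8 (.cons 0x7456398210 .nil) (.leaf 0x9074365128 3 (.leaf 0x7439065128 4 (.leaf 0x1563470982 3 (.leaf 0x9365470128 6 .done)))) (.node 2 8 (.cons 0x7456398210 .nil) (.leaf 0x6547012893 2 (.leaf 0x4563982107 3 (.leaf 0x7436512890 0 (.leaf 0x1560934782 1 .done)))) .done)) (.node 2 5 (.cons 0x4789365210 .nil) (.node 2 6 (.cons 0x3987456210 .nil) (.node 6 8 (.cons 0x1256874390 .nil) (.leaf 0x5210934786 6 (.leaf 0x7439012568 7 .done)) .done) (.leaf 0x6398740125 3 .done)) (.leaf 0x4789021563 7 .done))) (.node 3 6 (.cons 0x2156347890 .nil) (.leaf 0x9874365120 7 (.node 0 7 .nil (.node 1 6 (.cons 0x7890432165 (.cons 0x2165439870 .nil)) (.node 2 4 (.cons 0x5639874210 .nil) (.leaf 0x5423987016 7 (.leaf 0x9870124563 3 .done)) .done) (.node 0 3 (.cons 0x6547893012 .nil) (.node 2 6 (.cons 0x3987456210 .nil) (.node 0 5 (.cons 0x4789365012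 .nil) (.node 0 8 (.cons 0x7456210893 .nil) .done .done) (.leaf 0x5478930126 6 .done)) .done) .done)) (.node 0 3 (.cons 0x6547893012 .nil) (.node 2 9 (.cons 0x7892365401 .nil) (.node 3 8 (.cons 0x5476389201 .nil) (.leaf 0x1065478392 4 (.leaf 0x1065478392 5 .done)) (.node 1 7 (.cons 0x1789236540 .nil) (.leaf 0x456329871 0 (.node 7 9 (.cons 0x8790651234 .nil) (.node 0 7 .nil (.node 1 6 (.cons 0x3615478920 (.cons 0x8920745163 (.cons 0x9870432165 (.cons 0x2165439870 .nil)))) .done .done) .done) (.leaf 0x6329871045 4 .done))) .done)) .done) .done))) .done)) (.leaf 0x1560987432 6 (.node 0 2 (.cons 0x7893456021 .nil) (.node 6 8 (.cons 0x5687439021 .nil) (.node 3 6 (.cons 0x2156347890 .nil) (.node 1 6 (.cons 0x8743902165 .nil) (.node 2 6 (.cons 0x3987456210 .nil) (.node 0 3 (.cons 0x1265478930 .nil) (.leaf 0x5478930126 6 (.leaf 0x3987456210 0 (.node 0 5 (.cons 0x9347865021 .nil) (.node 1 9 (.cons 0x5687439120 .nil) (.leaf 0x4391205687 4 (.leaf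 0x2193478650 7 .done)) .done) .done))) .done) .done) (.leaf 0x1563478902 6 (.leaf 0x7436512098 6 .done))) (.leaf 0x7439021568 4 (.leaf 0x5120934786 1 .done))) (.node 3 6 (.cons 0x2156347890 .nil) (.leaf 0x1563478902 4 (.node 3 8 (.cons 0x5674389021 .nil) (.node 2 5 (.cons 0x9836745210 .nil) (.node 0 5 (.cons 0x9836745012 .nil) (.node 0 8 (.cons 0x7456398012 .nil) .done .done) (.leaf 0x9836745210 0 .done)) (.node 6 9 (.cons 0x7438965120 .nil) (.node 0 7 (.cons 0x2074389651 .nil) (.leaf 0x743896512 1 (.node 2 9 (.cons 0x6078921543 .nil) (.leaf 0x4512987063 5 (.leaf 0x9215436078 1 .done)) (.node 0 5 (.cons 0x9834765021 .nil) (.node 0 3 (.cons 0x6547893012 .nil) (.node 0 8 (.cons 0x7456398012 .nil) .done .done) .done) .done))) (.node 3 7 (.cons 0x4738965120 .nil) (.leaf 0x2104569873 3 (.leaf 0x7389651204 1 (.leaf 0x8965401237 3 .done))) .done)) (.leaf 0x4389021567 3 .done))) (.node 2 5 (.cons 0x4789365210 .nil) (.node 0 5 (.cons 0x4789365012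 .nil) (.node 2 4 (.cons 0x5639874210 .nil) (.leaf 0x4789365012 0 .done) .done) (.leaf 0x6398740125 3 .done)) (.leaf 0x4789021563 7 .done)))) (.node 3 6 (.cons 0x2156347890 .nil) (.leaf 0x9874365120 1 (.leaf 0x9874365120 7 (.node 0 8 .nil (.node 4 9 (.cons 0x7894360215 (.cons 0x7654980123 .nil)) (.leaf 0x3210876549 0 (.leaf 0x876549321 4 .done)) (.node 1 6 (.cons 0x7890432165 .nil) (.node 5 8 (.cons 0x2165874390 .nil) (.leaf 0x3902165874 6 (.leaf 0x9347856120 7 .done)) (.node 7 9 (.cons 0x5432089761 .nil) (.leaf 0x4320897615 6 (.leaf 0x2345167980 2 (.node 0 7 (.cons 0x8970456123 .nil) (.node 3 8 (.cons 0x7983216540 .nil) (.leaf 0x4561238970 3 .done) .done) .done))) .done)) .done)) (.node 6 9 (.cons 0x3698745102 .nil) (.node 3 7 (.cons 0x8963745102 .nil) (.node 2 8 (.cons 0x7451028963 .nil) (.leaf 0x4736982015 7 (.leaf 0x4510289637 1 (.leaf 0x5473698201 6 .done))) (.leaf 0x3210456987 0 (.leaf 0x1206987345 2 .done))) (.node 0 3 (.cons 0x7896540321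 .nil) (.leaf 0x5478963021 5 (.leaf 0x5478963021 4 .done)) .done)) .done)))) .done))) (.leaf 0x5478932106 3 .done)))) (.node 0 6 (.cons 0x2398745601 .nil) (.node 0 2 (.cons 0x6547893201 .nil) (.node 1 8 (.cons 0x5674320981 .nil) (.node 4 8 (.cons 0x9065123487 .nil) (.node 3 7 (.cons 0x5673489021 .nil) (.leaf 0x2098437651 6 (.node 7 9 (.cons 0x3978456012 .nil) (.node 0 3 (.cons 0x8976543021 .nil) (.leaf 0x4567981203 3 .done) (.node 3 5 (.cons 0x7653489021 .nil) (.leaf 0x5481206793 0 (.node 2 6 (.cons 0x9845376210 .nil) (.leaf 0x7481532609 3 (.leaf 0x7354890126 6 .done)) (.leaf 0x218453976 3 .done))) .done)) (.leaf 0x2098437651 3 .done))) .done) (.leaf 0x2347651890 2 (.leaf 0x4320981567 3 .done))) (.node 0 7 .nil (.node 1 6 (.cons 0x2398745610 (.cons 0x9870432165 (.cons 0x2165439870 .nil))) (.leaf 0x3987456102 4 .done) (.node 2 4 (.cons 0x6510987423 .nil) (.node 6 8 (.cons 0x5687423901 .nil) (.leaf 0x5124390786 1 (.leaf 0x6874239015 1 (.leaf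 0x7093421568 4 (.leaf 0x7423901568 5 .done)))) (.node 2 9 (.cons 0x8706543921 .nil) (.node 2 6 (.cons 0x1265439870 .nil) (.node 1 6 (.cons 0x2398745610 .nil) (.leaf 0x3987456102 4 (.node 1 8 (.cons 0x9345607812 .nil) (.node 4 6 (.cons 0x5187460923 .nil) .done (.leaf 0x7815609234 3 .done)) .done)) .done) .done) .done)) .done)) .done)) (.leaf 0x5123478906 7 (.leaf 0x8906512347 4 (.node 2 4 (.cons 0x7893245601 .nil) (.node 6 8 (.cons 0x5687423901 .nil) (.node 1 8 (.cons 0x9324560187 .nil) (.node 4 8 .nil (.node 7 9 (.cons 0x8793245601 (.cons 0x3248790651 .nil)) (.leaf 0x3978456012 3 (.leaf 0x8456012397 2 .done)) (.node 0 8 .nil (.node 1 9 (.cons 0x5687423910 (.cons 0x7654321980 (.cons 0x5678091243 .nil))) .done .done) .done)) (.node 0 8 .nil (.node 6 9 (.cons 0x7896540123 (.cons 0x7809651243 (.cons 0x3247809651 .nil))) (.leaf 0x5690874321 7 .done) (.node 4 8 .nil (.node 3 5 (.cons 0x6539018742 (.cons 0x9012356784 (.cons 0x2356748901 .nil)))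 (.leaf 0x8421093567 4 .done) .done) .done)) .done)) (.leaf 0x6874239015 1 (.leaf 0x7423901568 5 .done))) (.node 3 8 (.cons 0x5674238901 .nil) (.node 7 9 (.cons 0x5423897601 .nil) (.leaf 0x2451067983 6 (.leaf 0x4238976015 7 (.node 3 7 (.cons 0x9873210456 .nil) (.node 4 8 (.cons 0x8423790651 .nil) (.node 0 8 (.cons 0x6512480973 .nil) .done .done) (.node 1 8 (.cons 0x4237981560 .nil) (.leaf 0x2379815604 7 (.leaf 0x2379815604 1 .done)) .done)) .done))) (.node 3 7 (.cons 0x9873210456 .nil) (.node 3 6 (.cons 0x4789015632 .nil) (.node 6 9 (.cons 0x7423896510 .nil) (.leaf 0x2104569873 0 (.leaf 0x2104569873 3 .done)) .done) (.node 7 9 (.cons 0x8973245106 .nil) (.node 0 7 (.cons 0x6512438970 .nil) (.leaf 0x3421560798 6 .done) (.node 1 7 (.cons 0x4238971560 .nil) (.leaf 0x3240651798 6 (.leaf 0x2389715604 7 (.leaf 0x2389715604 1 .done))) .done)) .done)) (.leaf 0x983247651 6 .done))) (.node 4 8 .nil (.node 3 6 (.cons 0x4789015632 (.cons 0x7489015632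 .nil)) (.node 0 7 (.cons 0x9078432156 (.cons 0x9365487012 .nil)) (.leaf 0x2348907651 6 (.node 6 9 (.cons 0x7896540123 (.cons 0x5489670123 (.cons 0x9632154870 .nil))) (.leaf 0x1078456932 3 .done) .done)) (.leaf 0x7890156324 4 .done)) (.node 4 9 .nil (.node 3 5 (.cons 0x3567849012 .nil) (.leaf 0x8760153249 7 (.leaf 0x2104987653 4 (.node 1 4 (.cons 0x7890651432 .nil) (.leaf 0x7890142356 7 (.leaf 0x7890142356 1 .done)) .done))) (.node 1 4 (.cons 0x7890651432 .nil) (.node 4 6 .nil (.node 3 7 (.cons 0x8945673210 (.cons 0x5648739012 (.cons 0x9873246015 .nil))) (.leaf 0x9873215640 4 .done) .done) .done) .done)) .done)) .done))) .done)))) .done))))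
noncomputable def tc9_8_15 : T := (.node 3 5 .nil (.node 4 9 (.cons 0x8765123490 (.cons 0x6789453210 (.cons 0x6780943512 .nil))) (.leaf 0x6532104987 0 (.leaf 0x3567894012 4 .done)) (.node 4 8 (.cons 0x7653210984 .nil) (.node 4 9 (.cons 0x8765123490 .nil) (.leaf 0x1234908765 5 (.node 1 4 .nil (.node 0 2 (.cons 0x7653489021 .nil) (.leaf 0x1456789320 5 (.leaf 0x3415678902 4 .done)) (.node 1 9 .nil (.node 0 2 (.cons 0x7653489021 .nil) (.leaf 0x7654320198 5 (.leaf 0x5678910234 4 .done)) (.node 1 6 (.cons 0x7890432165 .nil) (.node 1 7 (.cons 0x2176534890 .nil) (.node 1 3 .nil (.node 2 9 (.cons 0x3487651290 .nil) (.leaf 0x3104567892 6 (.leaf 0x8765401329 7 .done)) .done) .done) .done) .done)) .done)) (.node 4 7 (.cons 0x6547893210 .nil) (.node 4 6 (.cons 0x9087643215 .nil) (.node 6 9 (.cons 0x8745693210 .nil) (.leaf 0x1087456932 3 (.leaf 0x2354769801 5 .done)) .done) (.node 0 6 (.cons 0x7843906512 .nil) (.node 0 3 (.cons 0x9034876512 .nil) (.node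 1 4 (.cons 0x9876541032 .nil) (.node 4 6 (.cons 0x9087643215 .nil) .done .done) .done) (.leaf 0x8932106547 0 (.leaf 0x8932106547 6 (.leaf 0x3987456012 2 .done)))) .done)) .done))) (.node 3 8 .nil (.node 2 9 (.cons 0x1567843290 (.cons 0x7651092384 .nil)) (.leaf 0x438765129 1 (.leaf 0x1567834092 4 .done)) (.node 6 8 (.cons 0x9043215687 .nil) (.node 4 7 (.cons 0x6547893210 .nil) (.node 2 9 (.cons 0x1567843290 .nil) (.leaf 0x6809215347 5 (.leaf 0x6745392108 1 (.leaf 0x8674539210 3 .done))) (.leaf 0x3210984765 3 (.node 2 9 (.cons 0x4765389210 .nil) (.node 3 7 (.cons 0x9215437680 .nil) (.leaf 0x6809215437 4 (.leaf 0x4512908673 1 (.node 4 9 (.cons 0x8765123490 .nil) (.leaf 0x9451086732 1 .done) .done))) (.leaf 0x1298356740 3 (.leaf 0x8356740129 2 .done))) .done))) (.node 4 7 (.cons 0x6547893210 .nil) (.leaf 0x2156874093 3 (.leaf 0x3210984765 3 (.leaf 0x7865123904 0 .done))) .done)) .done)) .done)) (.node 3 8 .nil (.node 4 9 (.cons 0x8765123490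 (.cons 0x7654983210 (.cons 0x2156783490 (.cons 0x4901567832 .nil)))) (.node 0 6 (.cons 0x2354987601 (.cons 0x7601238945 (.cons 0x9451067832 .nil))) (.leaf 0x6783215490 0 (.leaf 0x1238760945 3 .done)) .done) (.node 5 7 (.cons 0x6578904321 .nil) (.node 0 5 .nil (.node 1 9 (.cons 0x6789123450 .nil) (.node 0 2 (.cons 0x9120438756 .nil) (.leaf 0x5678910234 4 .done) (.leaf 0x2340567891 6 (.node 0 2 (.cons 0x9120567834 (.cons 0x7650219834 .nil)) .done .done))) (.node 5 9 (.cons 0x6780951234 .nil) (.node 4 8 (.cons 0x7650984321 .nil) (.node 0 2 (.cons 0x9021567843 .nil) (.node 0 3 (.cons 0x9034876512 .nil) .done .done) (.node 1 7 (.cons 0x2348905671 .nil) (.leaf 0x984321765 6 (.leaf 0x9056712348 1 .done)) .done)) .done) .done)) (.node 3 6 (.cons 0x4098756321 .nil) (.node 3 7 (.cons 0x9873210456 .nil) (.node 0 3 .nil (.node 1 9 (.cons 0x8756321904 (.cons 0x2198765430 .nil)) (.leaf 0x2304567891 6 (.leaf 0x3219876540 4 .done)) (.node 1 3 .nil (.node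 2 9 (.cons 0x8756312904 .nil) (.node 1 6 (.cons 0x7610892354 (.cons 0x7892356104 (.cons 0x4351678092 .nil))) .done (.leaf 0x3104567892 6 (.leaf 0x1329876540 4 (.leaf 0x8765401329 7 .done)))) .done) .done)) .done) (.node 1 9 (.cons 0x4576321980 .nil) (.leaf 0x8912367540 7 (.leaf 0x2367540891 6 (.node 0 3 (.cons 0x2198765430 .nil) (.node 3 7 (.cons 0x6375408912 .nil) (.node 1 3 .nil (.node 2 4 (.cons 0x7563891240 .nil) (.leaf 0x1365789042 7 (.leaf 0x1245763089 3 (.leaf 0x9042136578 4 .done))) .done) .done) .done) .done))) .done)) .done)) .done)) .done))) (.node 2 4 (.cons 0x9087651243 .nil) (.node 3 5 (.cons 0x9087653421 .nil) (.node 0 5 .nil (.node 1 9 (.cons 0x5678091243 (.cons 0x6789123450 (.cons 0x8765091243 .nil))) (.leaf 0x2340567891 6 .done) (.node 1 9 (.cons 0x5678091243 .nil) (.node 0 7 (.cons 0x8912345670 .nil) (.node 0 3 (.cons 0x7654308912 .nil) (.node 0 6 (.cons 0x7893210654 .nil) (.node 0 2 .nil (.node 1 4 (.cons 0x5678902143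 .nil) (.leaf 0x9876514320 1 (.leaf 0x239876541 6 .done)) .done) .done) .done) (.leaf 0x4321980765 3 .done)) (.node 0 6 (.cons 0x5432198760 .nil) (.leaf 0x1234506789 1 (.leaf 0x9123450678 3 .done)) (.leaf 0x2435678091 6 .done))) .done)) (.node 1 9 (.cons 0x2435678091 .nil) (.leaf 0x6534219087 7 (.node 2 6 (.cons 0x4532678910 .nil) (.leaf 0x915342678 6 (.leaf 0x9087624351 1 (.node 4 8 (.cons 0x4876235190 .nil) (.leaf 0x2351904876 5 (.node 0 5 (.cons 0x6789123450 .nil) (.node 1 7 (.cons 0x3267198450 .nil) (.leaf 0x9056712348 1 (.leaf 0x8715623904 3 .done)) .done) .done)) .done))) (.leaf 0x7653421908 6 .done))) .done)) (.node 1 4 .nil (.node 0 2 (.cons 0x5678902143 .nil) (.leaf 0x9876514320 1 (.leaf 0x1456789320 5 (.leaf 0x2014567893 1 .done))) (.node 4 8 .nil (.node 3 5 (.cons 0x7653210984 (.cons 0x7653248901 .nil)) (.node 0 5 (.cons 0x7650984321 .nil) (.node 2 6 (.cons 0x5098762341 (.cons 0x9087621435 (.cons 0x9876235014 (.cons 0x9051487623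 .nil)))) .done .done) .done) (.node 4 9 (.cons 0x8765123490 .nil) (.node 4 6 (.cons 0x7809346512 .nil) (.node 4 7 (.cons 0x6547893210 .nil) .done .done) .done) .done)) (.node 0 2 (.cons 0x5678902143 .nil) (.node 3 5 (.cons 0x2143567890 .nil) (.leaf 0x1435678902 6 (.leaf 0x7653412098 6 .done)) (.node 2 9 .nil (.node 0 3 (.cons 0x5678903412 (.cons 0x7654308921 (.cons 0x4567892301 .nil))) (.leaf 0x5678923014 5 .done) (.node 2 5 (.cons 0x3412567890 .nil) (.node 0 3 (.cons 0x5678903412 .nil) (.node 0 7 (.cons 0x8703921456 .nil) (.node 2 6 (.cons 0x4562398701 .nil) (.leaf 0x7014562398 4 (.leaf 0x1078932654 0 .done)) .done) (.leaf 0x1430987652 6 (.leaf 0x8903412567 6 .done))) .done) .done)) .done)) .done))) (.leaf 0x3908765124 1 .done))) (.node 1 4 (.cons 0x9087651432 .nil) (.node 2 9 (.cons 0x4329087651 .nil) (.node 3 7 (.cons 0x4567329801 .nil) (.leaf 0x6541089237 4 (.node 2 7 (.cons 0x9801456723 .nil) (.node 0 7 .nil (.node 1 6 (.cons 0x9327801654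 (.cons 0x9870432165 (.cons 0x2165439870 .nil))) .done (.node 1 3 (.cons 0x8921345670 .nil) (.leaf 0x6708921345 6 .done) .done)) (.leaf 0x1089327654 5 (.node 4 8 (.cons 0x9084156723 .nil) (.leaf 0x932765148 7 (.leaf 0x5148093276 4 .done)) .done))) (.leaf 0x2980145673 1 (.node 1 9 (.cons 0x6540198732 .nil) (.node 2 6 (.cons 0x9154326780 .nil) (.leaf 0x8762345190 4 (.node 4 9 (.cons 0x5194326780 .nil) (.node 7 9 (.cons 0x9780432651 .nil) (.leaf 0x2340879156 3 .done) (.leaf 0x2651049873 4 .done)) (.leaf 0x7809154326 6 .done))) (.node 1 6 (.cons 0x7890432165 .nil) (.node 1 7 (.cons 0x1765432980 .nil) (.node 1 3 .nil (.node 0 7 (.cons 0x9870432165 (.cons 0x8076543192 (.cons 0x8921345670 .nil))) .done .done) .done) .done) .done)) .done)))) (.node 2 7 (.cons 0x9801456723 .nil) (.node 1 9 (.cons 0x8091432765 .nil) (.node 2 4 (.cons 0x6542780193 .nil) .done .done) (.leaf 0x1089327654 5 (.node 4 8 (.cons 0x9084156723 .nil) (.leaf 0x932765148 7 (.leaf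 0x5148093276 4 .done)) .done))) (.leaf 0x876514329 3 .done))) (.node 4 8 .nil (.node 0 6 (.cons 0x7893210654 (.cons 0x9321065487 (.cons 0x7843906512 .nil))) (.node 7 9 (.cons 0x8790432156 (.cons 0x5489760123 .nil)) (.leaf 0x1065487932 3 (.leaf 0x654879321 1 (.leaf 0x5123487906 5 .done))) .done) (.node 2 9 (.cons 0x3487651290 .nil) (.node 4 9 (.cons 0x8765123490 .nil) (.node 0 2 (.cons 0x9021567843 .nil) (.node 2 4 (.cons 0x8765109423 .nil) .done (.leaf 0x9348765120 1 .done)) .done) (.node 6 9 (.cons 0x1543296780 .nil) (.node 4 9 (.cons 0x8765123490 .nil) (.node 4 7 (.cons 0x6547893210 .nil) (.node 1 9 (.cons 0x6547801932 .nil) (.node 2 6 (.cons 0x3451926780 .nil) (.leaf 0x874562391 6 (.leaf 0x874562391 2 (.leaf 0x874562391 0 .done))) .done) .done) .done) (.leaf 0x7801543296 6 (.leaf 0x2967801543 7 (.node 3 7 (.cons 0x1237896540 .nil) (.leaf 0x2104569873 3 (.leaf 0x965123784 4 (.node 0 5 (.cons 0x4056987321 .nil) (.leaf 0x2378965041 4 (.node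 6 8 (.cons 0x4051296873 .nil) (.leaf 0x4051296873 0 .done) .done)) (.leaf 0x8965401237 3 .done)))) .done)))) (.leaf 0x7809234156 2 .done))) .done)) (.node 4 8 .nil (.node 0 6 (.cons 0x7893210654 (.cons 0x9321065487 (.cons 0x7843906512 .nil))) (.node 7 9 (.cons 0x8790432156 (.cons 0x5489760123 .nil)) (.leaf 0x1065487932 3 (.leaf 0x654879321 1 (.leaf 0x5123487906 5 .done))) .done) (.node 3 8 .nil (.node 2 9 (.cons 0x4329087651 (.cons 0x7651438092 .nil)) (.leaf 0x438765129 1 (.leaf 0x1567834092 4 .done)) (.node 4 9 (.cons 0x8765123490 .nil) (.node 0 7 (.cons 0x8945670123 .nil) (.node 6 9 (.cons 0x5123487690 .nil) (.leaf 0x1078456932 2 (.leaf 0x7012396548 6 (.leaf 0x7012396548 3 .done))) (.leaf 0x1238945670 6 (.leaf 0x6701238945 7 .done))) (.node 4 7 (.cons 0x6547893210 .nil) (.node 6 9 (.cons 0x8745693210 .nil) (.leaf 0x3965478012 3 (.leaf 0x5478012396 2 (.node 0 7 (.cons 0x6932154870 .nil) (.node 3 7 (.cons 0x1237896540 .nil) (.leaf 0x8965401237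 3 .done) (.leaf 0x4965123870 1 .done)) .done))) .done) .done)) .done)) .done)) .done))) .done)))
noncomputable def tc9_8_16 : T := (.node 0 6 (.cons 0x7893210654 .nil) (.leaf 0x8932106547 0 (.leaf 0x8932106547 6 (.leaf 0x3987456012 2 .done))) (.node 0 6 (.cons 0x3987456012 .nil) (.node 4 6 .nil (.node 0 5 (.cons 0x7890564321 .nil) (.leaf 0x1239874650 3 (.leaf 0x4501239876 7 (.leaf 0x6478932105 3 .done))) (.node 0 3 (.cons 0x6547893012 .nil) (.node 0 2 .nil (.node 1 3 (.cons 0x8902134765 (.cons 0x5647893102 .nil)) (.leaf 0x9874560213 3 (.leaf 0x2065478931 3 .done)) (.node 0 7 .nil (.node 6 9 (.cons 0x3456987021 (.cons 0x8704569321 .nil)) (.leaf 0x5698701234 7 .done) (.node 0 5 .nil (.node 1 7 (.cons 0x5643209871 (.cons 0x6450178932 (.cons 0x4650178932 .nil))) (.leaf 0x564321789 6 .done) (.node 0 8 .nil (.node 1 5 (.cons 0x4321567890 (.cons 0x9087651234 .nil)) (.leaf 0x3215678904 6 (.node 1 7 (.cons 0x2346517890 (.cons 0x9087156432 (.cons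 0x9806712345 (.cons 0x5608934712 .nil)))) .done .done)) .done) .done)) .done)) .done)) (.node 0 7 .nil (.node 6 9 (.cons 0x8704569321 .nil) (.leaf 0x5698701234 7 (.leaf 0x7896543210 4 .done)) (.node 0 2 .nil (.node 1 5 (.cons 0x4321567890 (.cons 0x8743902156 (.cons 0x8902156743 (.cons 0x7890234651 .nil)))) (.leaf 0x4678932015 7 .done) (.node 0 8 .nil (.node 7 9 (.cons 0x8793210456 (.cons 0x6540879321 .nil)) (.leaf 0x5679801234 4 .done) (.node 0 5 .nil (.node 1 7 (.cons 0x5643209871 (.cons 0x4650178932 .nil)) (.leaf 0x564321789 6 .done) .done) .done)) .done)) .done)) .done)) .done)) (.node 4 6 .nil (.node 0 5 (.cons 0x7890564321 .nil) (.leaf 0x1239874650 3 (.leaf 0x2105467893 4 (.leaf 0x6478932105 3 .done))) (.node 2 4 .nil (.node 3 5 (.cons 0x8742109356 (.cons 0x8901247653 (.cons 0x4235678901 .nil))) (.leaf 0x1067893542 6 .done) (.node 1 4 .nil (.node 0 2 (.cons 0x7893456021 .nil) (.node 1 5 (.cons 0x4321567890 .nil) (.leaf 0x3415678902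 4 (.leaf 0x3215678904 6 (.leaf 0x4320987651 6 (.leaf 0x6789023415 7 .done)))) (.leaf 0x2014567893 1 .done)) (.node 1 7 (.cons 0x2178934560 .nil) (.node 4 8 (.cons 0x5609348712 .nil) (.node 4 9 .nil (.node 3 5 (.cons 0x7890653421 (.cons 0x2356784901 (.cons 0x8490176532 (.cons 0x8710942356 .nil)))) .done .done) .done) (.node 2 5 (.cons 0x4398712560 .nil) (.node 3 8 (.cons 0x6521093874 .nil) (.leaf 0x5210938746 0 (.leaf 0x1256478390 2 (.leaf 0x5210938746 3 .done))) (.leaf 0x6521789340 7 (.leaf 0x7125604398 4 .done))) .done)) .done)) (.node 3 5 (.cons 0x9876012453 .nil) (.node 2 8 (.cons 0x6539012874 .nil) (.leaf 0x5390128746 3 (.leaf 0x5390128746 6 (.leaf 0x9356478210 2 .done))) (.node 3 8 (.cons 0x4765389012 .nil) (.node 0 3 (.cons 0x6547893012 .nil) (.node 1 4 (.cons 0x9876541032 .nil) (.node 2 9 (.cons 0x6745389210 .nil) (.leaf 0x3014567892 6 (.leaf 0x8354760129 2 .done)) .done) .done) (.node 2 9 (.cons 0x4765389210 .nil) (.leaf 0x6740129835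 4 (.leaf 0x4765389210 0 .done)) (.leaf 0x3890124765 1 .done))) (.leaf 0x678935421 7 .done))) .done))) (.node 6 8 (.cons 0x9321045687 .nil) (.node 5 9 (.cons 0x8765904321 .nil) (.leaf 0x3210478659 1 (.node 1 5 (.cons 0x4321567890 .nil) (.node 2 8 (.cons 0x6512874390 .nil) (.node 1 6 (.cons 0x7821659043 .nil) (.node 1 9 (.cons 0x7823465190 .nil) (.node 1 3 (.cons 0x8765904312 .nil) (.node 1 7 (.cons 0x2178659340 .nil) .done .done) .done) .done) (.leaf 0x7439065128 1 (.leaf 0x6510932874 4 .done))) (.leaf 0x3215678904 6 (.node 1 8 (.cons 0x3409567812 .nil) (.leaf 0x2340956781 1 (.node 3 6 (.cons 0x2156347890 .nil) (.node 0 2 (.cons 0x7865934021 .nil) (.leaf 0x1563478902 4 (.node 2 8 (.cons 0x9365478210 .nil) (.node 7 9 (.cons 0x9782364510 .nil) (.leaf 0x3645109782 6 (.leaf 0x5436097821 1 (.leaf 0x2156879043 5 .done))) (.leaf 0x7456390128 3 .done)) (.leaf 0x9874365120 1 .done))) (.node 0 7 (.cons 0x8936547012 .nil) (.node 2 8 (.cons 0x7456398210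 .nil) (.leaf 0x9074365128 3 (.leaf 0x9543670128 4 (.leaf 0x9365470128 6 .done))) (.node 7 9 (.cons 0x9786512340 .nil) (.node 2 8 (.cons 0x7456398210 .nil) (.leaf 0x6547012893 2 (.leaf 0x4563982107 3 (.leaf 0x795128634 1 .done))) (.leaf 0x2156879043 5 .done)) .done)) .done)) .done)) .done))) (.leaf 0x6874012395 4 (.node 1 8 (.cons 0x4095678123 .nil) (.node 6 9 (.cons 0x7812340965 .nil) (.node 5 7 (.cons 0x9043218756 .nil) (.node 0 8 (.cons 0x3475690812 .nil) (.node 4 8 (.cons 0x5769084321 .nil) .done (.leaf 0x9657432180 2 .done)) (.leaf 0x3409657812 5 .done)) .done) (.leaf 0x2187659043 7 (.leaf 0x7659043218 6 .done))) .done)))) (.node 7 9 (.cons 0x1239786540 .nil) (.leaf 0x3210456879 4 (.leaf 0x8654012397 1 (.node 1 7 (.cons 0x9321786540 .nil) (.node 1 5 (.cons 0x4321567890 .nil) (.leaf 0x3215678904 6 (.leaf 0x6874093215 4 (.node 5 8 (.cons 0x4390658712 .nil) (.node 6 9 (.cons 0x4321785690 .nil) (.leaf 0x432178569 1 .done) (.node 2 4 (.cons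 0x3421567890 .nil) (.leaf 0x7109324658 0 (.leaf 0x7109324658 2 (.node 0 5 (.cons 0x5093246871 .nil) (.leaf 0x6423905178 4 (.leaf 0x1786423905 0 .done)) .done))) .done)) .done))) (.leaf 0x3217865409 6 (.node 2 5 (.cons 0x4652398710 .nil) (.node 1 5 (.cons 0x4321567890 .nil) (.leaf 0x3215678904 6 (.leaf 0x6874093215 4 (.node 1 8 (.cons 0x6521874390 .nil) (.leaf 0x7465239018 1 (.leaf 0x7439065218 1 .done)) .done))) (.leaf 0x6521789340 7 (.leaf 0x6401789325 3 (.leaf 0x7125604398 4 .done)))) .done))) .done))) .done)) .done))) (.leaf 0x5478932106 3 .done))) (.node 1 5 (.cons 0x4321567890 .nil) (.node 4 6 (.cons 0x8746510932 .nil) (.node 2 8 (.cons 0x6510932874 .nil) (.leaf 0x5109328746 2 (.leaf 0x5109328746 0 (.leaf 0x5109328746 6 (.leaf 0x5109328746 3 .done)))) (.node 1 6 (.cons 0x2398745610 .nil) (.node 0 6 (.cons 0x2398745601 .nil) (.node 6 8 (.cons 0x4786510932 .nil) (.node 2 4 (.cons 0x9324786510 .nil) (.leaf 0x3901568742 3 (.leaf 0x7865109324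 3 (.node 5 9 (.cons 0x6874239510 .nil) (.leaf 0x3956874012 7 (.leaf 0x6874012395 6 (.node 5 7 (.cons 0x5742398610 .nil) (.leaf 0x423957861 6 (.leaf 0x423957861 0 .done)) (.leaf 0x8659321047 4 .done)))) .done))) (.node 2 4 (.cons 0x1568742390 .nil) (.leaf 0x3901568742 6 (.node 1 7 (.cons 0x9321786540 .nil) (.leaf 0x3217865409 6 (.leaf 0x8710654239 3 (.node 2 8 (.cons 0x7821564390 .nil) (.leaf 0x651782439 3 (.leaf 0x1564782390 4 .done)) .done))) (.leaf 0x9324786510 4 .done))) .done)) .done) (.node 2 5 (.cons 0x4789325610 .nil) (.leaf 0x1652398740 4 (.leaf 0x6104789325 6 (.leaf 0x3987401652 7 .done))) .done)) .done)) (.leaf 0x3215678904 6 (.node 0 6 (.cons 0x2398745601 .nil) (.leaf 0x5123478906 7 (.leaf 0x8906512347 4 (.node 4 6 .nil (.node 0 5 (.cons 0x7890564321 .nil) (.leaf 0x1239876450 6 (.leaf 0x2105467893 4 (.leaf 0x4501239876 7 .done))) (.node 1 4 (.cons 0x7890651432 .nil) (.node 2 4 (.cons 0x7893245601 .nil) (.node 1 7 (.cons 0x4560178932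 .nil) (.leaf 0x654239871 2 (.leaf 0x8710654239 3 (.node 1 9 (.cons 0x7891065423 .nil) (.node 0 7 (.cons 0x8912345670 .nil) (.node 0 2 (.cons 0x6543987120 .nil) (.node 1 8 (.cons 0x5674320981 .nil) (.leaf 0x2347651890 2 .done) .done) .done) .done) .done))) .done) (.node 4 9 .nil (.node 2 7 (.cons 0x4327890651 (.cons 0x8723945601 (.cons 0x6015498723 .nil))) (.leaf 0x5609872341 6 (.node 0 3 (.cons 0x6541278930 (.cons 0x6032789451 .nil)) (.leaf 0x2145603987 1 .done) .done)) (.node 2 4 (.cons 0x7893245601 .nil) (.node 4 8 .nil (.node 3 5 (.cons 0x6789453210 (.cons 0x9012356784 (.cons 0x2356748901 .nil))) (.leaf 0x948765321 3 .done) .done) .done) .done)) .done)) (.node 1 4 (.cons 0x7890651432 .nil) (.node 4 9 .nil (.node 2 7 (.cons 0x3465127890 (.cons 0x8723945601 (.cons 0x6015498723 .nil))) (.leaf 0x6514327890 4 (.leaf 0x1560987234 0 .done)) (.node 2 4 (.cons 0x7893245601 .nil) (.node 4 8 .nil (.node 3 5 (.cons 0x6789453210 (.cons 0x7846539012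 (.cons 0x2356748901 .nil))) (.leaf 0x948765321 3 .done) .done) .done) .done)) (.node 4 9 .nil (.node 2 7 (.cons 0x3465127890 (.cons 0x8723945601 (.cons 0x6015498723 .nil))) (.node 0 3 (.cons 0x9872156430 (.cons 0x8947230156 .nil)) (.leaf 0x1278903465 7 .done) (.leaf 0x987234156 2 .done)) (.node 2 4 (.cons 0x7893245601 .nil) (.node 1 7 (.cons 0x4560178932 .nil) (.leaf 0x654239871 2 (.leaf 0x8710654239 3 (.node 1 9 (.cons 0x7891065423 .nil) .done .done))) .done) .done)) .done)) .done))) .done))) (.node 4 6 .nil (.node 0 2 (.cons 0x6547893201 (.cons 0x7890215643 (.cons 0x5120987643 .nil))) (.leaf 0x6478932015 4 .done) (.node 2 4 (.cons 0x3421567890 .nil) (.node 0 3 (.cons 0x4309876512 .nil) (.leaf 0x4215678903 1 (.node 2 6 (.cons 0x9876215430 .nil) (.leaf 0x1267890345 7 (.node 1 6 (.cons 0x2398745610 .nil) (.node 3 6 (.cons 0x5632478901 .nil) (.leaf 0x987423651 5 .done) .done) (.leaf 0x8762154309 4 .done))) (.leaf 0x9876512430 4 .done)))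 (.node 1 4 .nil (.node 0 2 (.cons 0x6547893201 .nil) (.leaf 0x6789023415 7 (.leaf 0x6789023415 1 .done)) (.node 1 6 (.cons 0x2398745610 .nil) (.node 5 8 (.cons 0x4785610932 .nil) (.node 4 9 (.cons 0x7856123490 .nil) (.node 7 9 (.cons 0x4321658790 .nil) (.leaf 0x432165879 1 (.leaf 0x8561234097 4 .done)) .done) (.leaf 0x6109324785 0 (.leaf 0x9324785610 4 .done))) (.node 2 5 (.cons 0x4789325610 .nil) (.node 1 8 (.cons 0x6523901874 .nil) (.leaf 0x1093256478 0 .done) (.leaf 0x1652398740 4 (.leaf 0x6104789325 6 (.leaf 0x3987401652 7 .done)))) .done)) .done)) .done)) (.node 0 6 (.cons 0x2398745601 .nil) (.node 0 3 (.cons 0x4309876512 .nil) (.node 2 6 (.cons 0x9876215430 .nil) (.leaf 0x1267890345 7 (.node 5 7 (.cons 0x6457893012 .nil) (.leaf 0x1039875462 2 (.node 4 8 (.cons 0x9845760321 .nil) (.leaf 0x621574893 6 (.leaf 0x6215748930 7 .done)) .done)) (.leaf 0x8762154309 4 .done))) (.node 2 4 (.cons 0x3421567890 .nil) (.node 0 5 .nil (.node 1 6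 (.cons 0x2398745610 .nil) (.leaf 0x3216789054 6 (.leaf 0x8905612347 7 .done)) (.node 1 6 (.cons 0x2398745610 .nil) (.leaf 0x8905612347 1 (.leaf 0x8905612347 7 .done)) .done)) (.leaf 0x9876512430 4 (.leaf 0x9876512430 5 .done))) .done)) (.node 0 3 (.cons 0x4309876512 .nil) (.node 0 2 (.cons 0x6547893201 .nil) (.node 0 5 .nil (.node 1 6 (.cons 0x2398745610 (.cons 0x9874320561 .nil)) (.leaf 0x3216789054 6 (.node 1 9 (.cons 0x6547891023 (.cons 0x6789123450 .nil)) .done .done)) .done) (.node 3 6 (.cons 0x9876345120 .nil) (.leaf 0x4512098763 1 (.node 2 4 (.cons 0x2478936510 .nil) (.leaf 0x9365102478 6 (.leaf 0x3987420156 1 .done)) .done)) .done)) (.node 0 7 .nil (.node 6 9 (.cons 0x8967034512 (.cons 0x8704569321 .nil)) (.leaf 0x5698701234 7 .done) (.node 2 6 (.cons 0x9876215430 .nil) (.leaf 0x1267890345 7 (.node 0 2 (.cons 0x6547893201 .nil) (.node 0 8 (.cons 0x7456239801 .nil) .done .done) (.node 6 8 (.cons 0x9321045687 .nil) (.node 7 9 (.cons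 0x1239786540 .nil) (.leaf 0x3210456879 4 (.leaf 0x3045126879 6 .done)) .done) (.leaf 0x8762154309 4 .done)))) .done)) .done)) .done)) .done))) .done)))) .done)))
noncomputable def uc9_8_5 : T := (.node 4 7 (.cons 0x6547893210 .nil) tc9_8_16 (.leaf 0x2104567893 4 (.node 1 5 (.cons 0x4321567890 .nil) (.node 0 8 (.cons 0x9087651234 .nil) tc9_8_15 (.leaf 0x2340987651 4 (.node 4 7 (.cons 0x6547893210 .nil) tc9_8_14 (.node 2 4 (.cons 0x3421567890 .nil) tc9_8_13 .done)))) (.leaf 0x1239876540 6 (.leaf 0x5401239876 7 (.node 1 5 (.cons 0x4321567890 .nil) (.leaf 0x9876512340 1 (.leaf 0x9876512340 7 (.leaf 0x8904321567 6 (.node 1 9 .nil (.node 0 5 (.cons 0x8765091234 .nil) (.node 4 9 (.cons 0x6789450123 .nil) (.leaf 0x6501234987 6 (.node 4 6 (.cons 0x7890564321 .nil) (.leaf 0x1239876450 6 (.node 5 8 (.cons 0x7856432190 .nil) (.leaf 0x8764321905 0 (.leaf 0x2346785091 3 .done)) (.node 1 6 (.cons 0x7890561234 .nil) (.leaf 0x3216789054 6 (.node 0 7 (.cons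 0x4398705612 .nil) (.leaf 0x5612349870 2 (.node 3 8 (.cons 0x9832107645 (.cons 0x7643890512 (.cons 0x9834670512 (.cons 0x5467019832 .nil)))) .done .done)) .done)) .done))) .done)) (.leaf 0x9876504321 7 (.leaf 0x8912340567 6 .done))) (.node 2 9 (.cons 0x3298765401 .nil) (.node 1 3 (.cons 0x9876540132 .nil) (.leaf 0x456789231 4 (.node 0 3 (.cons 0x6789215430 .nil) (.node 0 6 (.cons 0x3451298760 .nil) (.leaf 0x3451298760 0 (.node 0 7 (.cons 0x8912345670 .nil) (.node 0 8 (.cons 0x7654321980 .nil) (.node 0 2 (.cons 0x7893456021 .nil) (.node 0 5 (.cons 0x3450678921 .nil) .done .done) .done) .done) .done)) (.node 0 6 (.cons 0x3451298760 .nil) (.node 1 6 (.cons 0x5401678923 .nil) (.node 0 5 (.cons 0x5043298761 .nil) (.leaf 0x8923405167 4 .done) .done) (.leaf 0x9215430678 4 .done)) .done)) (.leaf 0x2987654013 1 .done))) (.node 1 3 (.cons 0x1329876540 .nil) (.node 2 8 (.cons 0x9043156782 .nil) (.leaf 0x5134092876 6 (.leaf 0x1567829043 7 (.node 1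 8 (.cons 0x9231876540 .nil) (.node 5 9 (.cons 0x9567823104 .nil) (.node 6 9 (.cons 0x7813296540 .nil) (.node 0 7 (.cons 0x8912345670 .nil) (.leaf 0x5407813296 6 (.leaf 0x4328915670 3 (.node 3 5 (.cons 0x7653289104 .nil) (.node 0 3 (.cons 0x4309876512 .nil) (.node 0 8 (.cons 0x7654321980 .nil) .done .done) .done) .done))) .done) .done) (.leaf 0x2318765409 6 .done)) .done))) (.leaf 0x8765401329 4 (.leaf 0x8765401329 5 .done))) .done)) (.node 1 7 (.cons 0x6540178932 .nil) (.node 1 3 (.cons 0x9876540132 .nil) (.node 2 9 (.cons 0x3298765401 .nil) (.node 1 6 .nil (.node 2 5 (.cons 0x6789104523 (.cons 0x8761904325 (.cons 0x7890432561 (.cons 0x8716523904 .nil)))) .done (.node 2 6 (.cons 0x7893265401 .nil) (.node 1 8 (.cons 0x7654018923 .nil) (.node 1 4 .nil (.node 0 7 (.cons 0x7043298165 (.cons 0x8709341265 .nil)) (.leaf 0x7014562398 1 .done) .done) .done) (.leaf 0x3265401789 3 .done)) .done)) (.node 0 3 (.cons 0x4309876512 .nil) (.node 4 8 (.cons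 0x9034876512 .nil) (.leaf 0x5129034876 6 (.leaf 0x1290348765 7 (.leaf 0x1567843092 1 .done))) (.node 1 6 (.cons 0x5403298761 .nil) (.node 2 6 (.cons 0x9876215430 .nil) (.leaf 0x1267890345 7 (.node 3 8 (.cons 0x7629830451 .nil) (.leaf 0x1762983045 1 (.leaf 0x5176298304 3 .done)) .done)) .done) .done)) .done)) (.node 2 9 (.cons 0x2987651340 .nil) (.node 4 9 (.cons 0x5678940132 .nil) (.node 4 7 (.cons 0x6547893210 .nil) (.node 0 6 (.cons 0x5432198760 .nil) (.node 1 8 (.cons 0x7654018923 .nil) (.node 4 8 (.cons 0x7843906512 .nil) .done .done) (.leaf 0x8932106547 0 (.leaf 0x8932106547 6 .done))) .done) .done) (.leaf 0x8765401329 5 .done)) .done)) (.node 1 8 .nil (.node 2 5 (.cons 0x6789104523 (.cons 0x9043256781 (.cons 0x9817652340 .nil))) (.leaf 0x3409817652 6 (.leaf 0x918765234 3 .done)) (.node 1 3 (.cons 0x9876540132 .nil) (.node 1 4 .nil (.node 0 2 (.cons 0x6517893402 .nil) (.leaf 0x1456789320 5 (.leaf 0x6789023415 7 (.leaf 0x6789023415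 1 (.leaf 0x2014567893 1 .done)))) (.node 1 6 .nil (.node 2 5 (.cons 0x6789104523 (.cons 0x8761904325 (.cons 0x9871652340 .nil))) (.leaf 0x4325617890 4 (.node 4 8 (.cons 0x9048765231 (.cons 0x9048761325 (.cons 0x7840931652 .nil))) .done .done)) .done) .done)) (.node 1 4 .nil (.node 0 2 (.cons 0x6517893402 .nil) (.leaf 0x1456789320 5 (.leaf 0x6789023415 7 (.leaf 0x6789023415 1 (.leaf 0x2014567893 1 .done)))) (.node 1 6 .nil (.node 2 5 (.cons 0x6789104523 (.cons 0x8761904325 (.cons 0x9871652340 .nil))) (.leaf 0x4325617890 4 (.node 0 8 (.cons 0x9804523167 .nil) (.leaf 0x4523916780 5 (.leaf 0x8045239167 1 .done)) .done)) .done) .done)) .done)) .done)) .done)) .done))) .done)))) .done))))))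
theorem sub_c9_8_5 : root 9 refs9_8 [] 0x800006004807000000007060000000060500000000504000000004010006000010300000000302000000002014000000010 0xfeaffe7fff3fff9fffcfffedffb5fff3fff9ffed 9 0 4 (.cons 0x5678904321 .nil) uc9_8_5 = true := by decide +kernel
noncomputable def tc9_8_17 : T := (.node 4 7 .nil (.node 5 8 (.cons 0x6584709321 .nil) (.leaf 0x9856743210 7 (.leaf 0x1239856740 7 (.leaf 0x7658901234 4 .done))) (.node 5 7 (.cons 0x8932104576 .nil) (.node 6 8 (.cons 0x2398675401 .nil) (.leaf 0x9321045768 4 (.leaf 0x7540123986 1 (.node 4 9 .nil (.node 3 6 (.cons 0x9876321045 (.cons 0x2365784901 (.cons 0x9487012365 .nil))) .done (.node 0 8 .nil (.node 1 5 (.cons 0x4321567890 (.cons 0x2349087651 .nil)) (.leaf 0x943215678 7 (.leaf 0x8094321567 6 (.node 2 4 (.cons 0x3421567890 (.cons 0x9087651243 .nil)) (.leaf 0x6512439807 2 .done) .done))) (.node 0 2 (.cons 0x7654398021 .nil) (.node 0 6 .nil (.node 1 7 (.cons 0x2176543980 (.cons 0x5439806712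 (.cons 0x9843206571 .nil))) .done .done) (.node 1 7 (.cons 0x2176543980 .nil) (.leaf 0x8932017456 4 (.leaf 0x8934567120 5 .done)) .done)) .done)) .done)) (.node 5 8 .nil (.node 1 6 (.cons 0x9078432165 (.cons 0x9043216785 (.cons 0x2340985761 (.cons 0x4016758932 (.cons 0x7093485612 .nil))))) .done (.node 1 5 (.cons 0x7689321540 .nil) (.node 3 5 (.cons 0x8674093512 .nil) (.node 5 9 (.cons 0x6590784321 .nil) (.node 0 3 (.cons 0x6789540321 .nil) (.node 0 8 (.cons 0x8093476512 .nil) .done .done) .done) .done) (.leaf 0x4512398670 7 (.leaf 0x3215407689 4 .done))) .done)) .done)))) (.node 0 8 (.cons 0x6754089321 .nil) (.node 2 7 (.cons 0x1276543980 .nil) (.node 1 7 (.cons 0x2176543980 .nil) (.node 0 2 (.cons 0x7654398021 .nil) (.node 3 7 (.cons 0x4567398012 .nil) (.node 7 9 (.cons 0x6548973201 .nil) .done .done) (.leaf 0x8934567120 5 .done)) .done) (.leaf 0x1089345672 1 .done)) (.node 5 8 .nil (.node 1 6 (.cons 0x8932167540 (.cons 0x8576123904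 (.cons 0x4098576123 (.cons 0x7093485612 .nil)))) (.leaf 0x893216754 1 .done) (.node 6 8 (.cons 0x1239867540 .nil) (.leaf 0x2398675401 5 (.node 1 5 (.cons 0x7689321540 .nil) (.node 1 4 (.cons 0x8567093412 .nil) (.node 0 3 (.cons 0x7658903412 .nil) (.node 2 7 (.cons 0x1274568930 .nil) (.leaf 0x1039865472 1 (.leaf 0x3980145672 1 .done)) .done) .done) (.leaf 0x4512398670 7 (.leaf 0x3215407689 4 .done))) .done)) .done)) .done)) .done)) (.node 5 7 (.cons 0x8932104576 .nil) (.node 4 9 .nil (.node 1 5 (.cons 0x4321567890 (.cons 0x8765123490 (.cons 0x8709432156 .nil))) (.node 3 8 (.cons 0x4765109832 (.cons 0x2389476510 .nil)) (.leaf 0x1238765490 6 (.leaf 0x5670948321 3 .done)) .done) (.node 6 9 (.cons 0x5690784321 .nil) (.node 3 6 (.cons 0x8936754012 .nil) (.node 2 8 (.cons 0x2847563901 .nil) (.leaf 0x7540128936 6 (.leaf 0x5639012847 5 (.leaf 0x4576398210 2 .done))) (.node 1 5 (.cons 0x4321567890 .nil) (.node 2 8 (.cons 0x6570934821 .nil) (.leaf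 0x9367540128 7 (.leaf 0x5109328476 6 (.leaf 0x5109328476 3 .done))) (.node 3 7 (.cons 0x6510984732 .nil) (.node 6 8 (.cons 0x3986754012 .nil) (.node 0 2 (.cons 0x9867345120 .nil) (.leaf 0x9867345120 0 (.node 1 8 (.cons 0x2347651890 .nil) (.leaf 0x9023476518 3 (.leaf 0x5674320981 3 .done)) .done)) (.leaf 0x6890432157 1 .done)) .done) (.leaf 0x784321569 4 .done))) .done)) (.node 0 3 (.cons 0x9654870321 .nil) (.node 3 5 (.cons 0x4870965321 .nil) (.node 1 7 (.cons 0x4569871230 .nil) (.node 7 9 (.cons 0x6532109784 .nil) .done (.leaf 0x3217840965 4 .done)) (.node 1 4 (.cons 0x7896541230 .nil) (.leaf 0x6907841235 6 (.leaf 0x965321487 2 .done)) .done)) (.node 1 9 (.cons 0x3219654870 .nil) (.leaf 0x7845691230 3 (.leaf 0x7845691230 2 .done)) .done)) .done)) .done)) (.node 0 8 (.cons 0x6754089321 .nil) (.node 2 7 (.cons 0x1276543980 .nil) (.node 3 7 (.cons 0x4567398012 .nil) (.node 2 4 (.cons 0x7654210893 .nil) (.leaf 0x9801245673 1 (.node 5 9 (.cons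 0x1243765980 .nil) (.node 3 6 (.cons 0x2473659801 .nil) (.node 1 6 (.cons 0x8932167540 .nil) (.leaf 0x895736124 3 (.leaf 0x5612437089 3 (.leaf 0x7216390845 4 .done))) (.leaf 0x459876321 6 .done)) (.leaf 0x6734210895 6 (.leaf 0x7659801243 4 .done))) .done)) .done) (.leaf 0x1089345672 1 .done)) (.node 5 8 .nil (.node 1 4 (.cons 0x7654108932 (.cons 0x8567410932 (.cons 0x6758904123 (.cons 0x8567093412 .nil)))) .done (.node 6 8 (.cons 0x1239867540 .nil) (.leaf 0x2398675401 5 (.node 1 5 (.cons 0x7689321540 .nil) (.node 2 7 (.cons 0x1568472390 .nil) (.leaf 0x9327486510 4 (.leaf 0x4723901568 7 .done)) (.leaf 0x4512398670 7 (.leaf 0x3215407689 4 .done))) .done)) .done)) .done)) .done)) .done))) (.node 0 3 (.cons 0x7654893012 .nil) (.node 2 7 (.cons 0x3984567210 .nil) (.node 0 2 .nil (.node 1 5 (.cons 0x4321567890 (.cons 0x9021567843 (.cons 0x7651209843 .nil))) (.leaf 0x2093487651 6 (.leaf 0x215678439 4 .done)) (.node 1 7 (.cons 0x5671209843 .nil)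 (.node 3 5 (.cons 0x9843567120 .nil) (.leaf 0x6534890217 7 (.leaf 0x8435671209 4 .done)) (.node 0 8 (.cons 0x2176543980 .nil) (.node 0 5 (.cons 0x6721054893 .nil) (.node 0 6 (.cons 0x8934506721 .nil) .done .done) .done) .done)) .done)) (.leaf 0x8930127654 4 (.leaf 0x3984567210 0 .done))) (.node 2 7 (.cons 0x3984567210 .nil) (.leaf 0x4893012765 2 (.leaf 0x9845672103 6 (.node 0 8 .nil (.node 1 4 (.cons 0x9876541032 (.cons 0x5672148093 (.cons 0x9803276541 .nil))) (.leaf 0x3214567089 6 .done) (.node 0 2 .nil (.node 1 5 (.cons 0x4321567890 (.cons 0x9021567843 (.cons 0x7651209843 .nil))) (.leaf 0x2093487651 6 (.leaf 0x215678439 4 .done)) (.node 2 5 (.cons 0x8439076521 .nil) (.node 1 8 (.cons 0x7652184390 .nil) (.leaf 0x9348125670 5 (.leaf 0x1843907652 1 .done)) (.node 3 5 (.cons 0x7653489021 .nil) (.node 2 9 (.cons 0x4567892301 .nil) (.node 0 6 (.cons 0x5348760921 .nil) (.leaf 0x1293548760 4 .done) .done) .done) .done)) .done)) .done)) .done)))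 .done)) (.node 4 7 .nil (.node 0 5 (.cons 0x8905674321 (.cons 0x6509874321 .nil)) (.leaf 0x1239847650 1 (.leaf 0x6748932105 4 (.node 0 6 (.cons 0x5609874321 .nil) (.leaf 0x2106547893 6 (.node 5 8 (.cons 0x1234765890 .nil) (.leaf 0x9856743210 7 (.leaf 0x9321067458 1 (.leaf 0x4760123985 4 (.node 1 5 (.cons 0x4321567890 (.cons 0x8476510932 (.cons 0x6740985123 (.cons 0x6512347890 .nil)))) (.leaf 0x4760985123 0 .done) .done)))) (.leaf 0x4560123987 6 .done))) .done))) (.node 0 2 (.cons 0x7654893201 .nil) (.node 1 7 (.cons 0x2398456710 .nil) (.node 1 9 (.cons 0x8456701932 .nil) (.node 4 9 .nil (.node 0 6 (.cons 0x7891234560 .nil) (.leaf 0x1234560789 3 (.node 3 5 (.cons 0x9845320176 (.cons 0x2356784901 (.cons 0x6017894532 (.cons 0x8945320176 .nil)))) .done .done)) .done) (.node 2 8 (.cons 0x8219345670 .nil) (.leaf 0x765482391 3 (.leaf 0x765482391 6 (.leaf 0x765482391 2 (.leaf 0x765482391 0 .done)))) .done)) (.node 4 9 .nil (.node 5 8 (.cons 0x3476589021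 (.cons 0x6587094321 (.cons 0x3498567120 .nil))) (.leaf 0x4856710239 3 .done) (.node 5 9 (.cons 0x1765984320 .nil) (.leaf 0x7659843201 4 (.leaf 0x6710234895 6 (.node 5 7 (.cons 0x8932104576 .nil) (.node 3 6 (.cons 0x7894563210 .nil) (.leaf 0x2367895401 7 (.node 6 8 (.cons 0x1756894320 .nil) (.leaf 0x7540123986 1 (.node 1 5 (.cons 0x7689321540 .nil) (.leaf 0x2048951763 2 (.leaf 0x4512398670 7 (.leaf 0x7156849320 3 (.leaf 0x2048951763 0 .done)))) .done)) (.leaf 0x7895401236 6 .done))) .done) .done))) .done)) .done)) (.node 1 7 (.cons 0x2398456710 .nil) (.node 1 9 (.cons 0x8456701932 .nil) (.node 4 9 .nil (.node 2 8 (.cons 0x9328456701 .nil) (.leaf 0x3284567019 7 (.node 0 5 (.cons 0x1289347650 (.cons 0x6507821943 (.cons 0x6507823491 .nil))) (.leaf 0x9876501234 7 .done) (.leaf 0x5482391076 4 .done))) .done) (.node 2 8 (.cons 0x8219345670 .nil) (.leaf 0x765482391 6 (.leaf 0x765482391 2 (.leaf 0x765482391 0 .done))) .done)) (.leaf 0x8932017654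 5 .done)) .done)) .done)) .done)))
noncomputable def tc9_8_18 : T := (.node 4 8 (.cons 0x7654893210 .nil) tc9_8_17 (.node 4 8 (.cons 0x7654893210 .nil) (.leaf 0x9845670123 7 (.node 0 3 (.cons 0x7654893012 .nil) (.node 0 2 (.cons 0x8934567021 .nil) (.node 3 5 (.cons 0x7653489021 .nil) (.node 1 7 (.cons 0x5671209843 .nil) (.leaf 0x4890217653 3 (.node 1 3 .nil (.node 2 5 (.cons 0x9034876521 (.cons 0x9031256784 .nil)) (.leaf 0x3489025671 6 .done) (.node 3 6 (.cons 0x9876321045 .nil) (.node 3 7 (.cons 0x5673489021 .nil) .done .done) .done)) (.leaf 0x4890217653 6 .done))) (.node 1 7 (.cons 0x2098435671 .nil) (.node 0 5 (.cons 0x8439056712 .nil) (.node 5 8 (.cons 0x2176584390 .nil) (.leaf 0x1765843902 2 .done) .done) (.leaf 0x2098435671 0 (.leaf 0x8435671209 4 .done))) .done)) (.node 3 6 (.cons 0x9876321045 .nil) (.node 2 9 (.cons 0x5678430921 .nil) (.node 0 8 .nil (.node 1 5 (.cons 0x4321567890 (.cons 0x9087651234 (.cons 0x6708921543 (.cons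 0x9215430876 .nil)))) (.leaf 0x7089215436 0 .done) (.node 6 8 (.cons 0x7689321045 .nil) (.node 0 5 (.cons 0x7684503921 .nil) (.node 1 5 (.cons 0x7684512930 .nil) (.leaf 0x5129307684 1 (.leaf 0x2984367051 4 (.leaf 0x348765129 4 .done))) .done) .done) .done)) (.node 0 8 (.cons 0x7654803921 .nil) (.node 1 7 (.cons 0x8456712930 .nil) (.node 0 5 (.cons 0x8439056712 .nil) (.node 3 5 (.cons 0x4876530921 .nil) (.leaf 0x489217635 6 (.leaf 0x4053671298 4 .done)) .done) (.leaf 0x4803921765 3 (.leaf 0x8039217654 1 .done))) .done) .done)) (.node 3 5 .nil (.node 2 9 (.cons 0x5678430921 (.cons 0x9210354876 (.cons 0x4876530921 .nil))) .done (.node 0 6 .nil (.node 1 9 (.cons 0x5678430912 (.cons 0x7891234560 (.cons 0x5432198760 (.cons 0x7891206543 .nil)))) .done (.node 4 6 (.cons 0x7890123564 .nil) (.node 1 6 (.cons 0x9870216543 .nil) (.node 6 8 (.cons 0x7689321045 .nil) (.node 2 6 (.cons 0x7045398621 .nil) .done .done) (.leaf 0x4561207893 6 .done)) .done)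 .done)) .done)) .done)) .done)) (.node 0 2 (.cons 0x8934567021 .nil) (.node 2 7 (.cons 0x3984567210 .nil) (.node 0 8 .nil (.node 7 9 (.cons 0x3976548021 .nil) (.leaf 0x6543210897 6 (.leaf 0x5679801234 4 .done)) (.node 0 5 (.cons 0x6721054893 .nil) (.node 0 6 .nil (.node 1 5 (.cons 0x4321567890 (.cons 0x8439067215 (.cons 0x7890651234 (.cons 0x8934512760 .nil)))) .done .done) .done) .done)) (.leaf 0x8930127654 4 (.leaf 0x3984567210 0 .done))) (.node 3 5 (.cons 0x7653489021 .nil) (.node 1 7 (.cons 0x5671209843 .nil) (.node 5 8 (.cons 0x2176584390 .nil) (.node 2 5 (.cons 0x9034871256 .nil) (.node 0 5 (.cons 0x8439056712 .nil) (.node 5 7 (.cons 0x8932104576 .nil) .done .done) .done) (.leaf 0x4856712093 3 (.leaf 0x1765843902 2 .done))) (.leaf 0x2098435671 6 (.leaf 0x6534890217 7 .done))) (.node 1 7 (.cons 0x2098435671 .nil) (.node 5 8 (.cons 0x2176584390 .nil) (.node 5 7 (.cons 0x8932104576 .nil) (.node 0 5 (.cons 0x8439056712 .nil) (.node 2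 5 (.cons 0x9034871256 .nil) .done .done) .done) (.leaf 0x1765843902 2 .done)) (.leaf 0x2098435671 0 (.leaf 0x8435671209 4 .done))) .done)) .done)) (.node 2 7 (.cons 0x3984567210 .nil) (.node 0 8 .nil (.node 1 4 (.cons 0x9876541032 .nil) (.node 5 8 (.cons 0x7658093214 .nil) (.leaf 0x934127658 2 (.leaf 0x8567210934 1 .done)) (.leaf 0x6541089327 4 (.leaf 0x893276541 7 .done))) (.node 5 8 (.cons 0x1276584390 .nil) (.leaf 0x8567210934 1 (.node 0 2 (.cons 0x8934567021 .nil) (.node 0 5 (.cons 0x8439056721 .nil) (.node 0 6 (.cons 0x7604589321 .nil) .done .done) .done) .done)) .done)) (.leaf 0x4893012765 2 (.leaf 0x9845672103 6 (.node 0 8 .nil (.node 1 4 (.cons 0x9876541032 (.cons 0x5672148093 (.cons 0x9803276541 (.cons 0x6541270893 .nil)))) .done (.node 3 6 (.cons 0x4563980721 .nil) (.node 7 9 (.cons 0x1279365480 .nil) (.leaf 0x8456397210 6 (.node 4 7 (.cons 0x5639084721 .nil) (.node 5 7 (.cons 0x4809365721 .nil) .done .done) .done)) (.node 1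 4 (.cons 0x9876541032 .nil) (.node 3 8 (.cons 0x5672148390 .nil) (.node 0 5 (.cons 0x5048936721 .nil) (.node 7 9 (.cons 0x5639721480 .nil) (.leaf 0x2148056397 7 (.leaf 0x3650841279 6 .done)) (.leaf 0x6721483905 0 .done)) .done) (.leaf 0x1270893654 0 (.leaf 0x9807214563 3 .done))) .done)) .done)) .done)))) .done))) (.leaf 0x6548932107 4 .done))) (.node 4 8 (.cons 0x7654893210 .nil) (.leaf 0x3984567012 6 (.leaf 0x6548932107 6 (.node 2 4 (.cons 0x8932456701 .nil) (.node 1 8 (.cons 0x4567018932 .nil) (.leaf 0x5670189324 7 (.leaf 0x5670189324 1 (.node 5 9 (.cons 0x7659324810 .nil) (.leaf 0x3248107659 6 (.node 3 8 (.cons 0x1243876590 .nil) (.leaf 0x5901243876 6 (.leaf 0x9567834210 7 .done)) (.node 4 7 .nil (.node 0 2 (.cons 0x7654893201 (.cons 0x1895674320 .nil)) (.node 0 5 (.cons 0x9324810567 (.cons 0x9812347650 (.cons 0x2189347650 .nil))) (.leaf 0x4398120567 4 .done) .done) (.node 4 9 (.cons 0x3249567810 .nil) (.node 0 3 (.cons 0x8103956742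 .nil) (.leaf 0x1876594230 6 (.node 0 2 (.cons 0x5674398120 .nil) (.node 1 4 (.cons 0x7659814320 .nil) (.leaf 0x8956702341 7 .done) .done) .done)) .done) .done)) (.leaf 0x2395670184 4 .done)))) (.node 0 8 .nil (.node 2 7 (.cons 0x5672481093 .nil) (.leaf 0x1809345672 6 (.leaf 0x1089345672 1 (.leaf 0x8127654390 4 .done))) (.node 5 8 (.cons 0x7658124390 .nil) (.node 1 6 (.cons 0x7612398540 .nil) (.leaf 0x4589321670 4 (.leaf 0x4589321670 5 (.node 6 8 (.cons 0x7689321045 .nil) .done .done))) .done) .done)) .done)))) (.node 0 2 (.cons 0x7654893201 .nil) (.node 0 3 .nil (.node 1 9 (.cons 0x5678432091 (.cons 0x2198765430 .nil)) (.leaf 0x324567891 4 (.leaf 0x3456789120 4 .done)) (.node 3 5 (.cons 0x7653248901 .nil) (.node 4 9 (.cons 0x2356784901 .nil) (.leaf 0x5321094876 4 (.node 1 7 (.cons 0x2398456710 .nil) (.node 4 7 .nil (.node 0 5 (.cons 0x8905674321 .nil) (.leaf 0x1239847650 1 (.leaf 0x6748932105 4 .done)) .done) (.leaf 0x984235671 3 (.leaf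 0x6532489017 3 (.leaf 0x6548932017 5 .done)))) .done)) (.node 1 7 (.cons 0x2398456710 .nil) (.leaf 0x6532489017 7 (.leaf 0x984235671 6 (.node 0 8 (.cons 0x9801765324 .nil) (.node 1 9 (.cons 0x2435671980 .nil) (.leaf 0x4356719802 2 (.leaf 0x4356719802 6 (.node 2 6 (.cons 0x7891265430 .nil) (.leaf 0x3078912654 3 (.leaf 0x789126543 1 .done)) .done))) .done) (.leaf 0x9017653248 4 .done)))) .done)) .done)) (.node 0 8 .nil (.node 1 7 (.cons 0x2398456710 (.cons 0x2176543980 .nil)) (.leaf 0x5671089324 6 (.node 7 9 (.cons 0x2397654801 .nil) (.leaf 0x6543210897 6 (.leaf 0x6548012397 6 (.leaf 0x5679321084 4 .done))) (.leaf 0x8017654239 6 .done))) (.node 0 3 .nil (.node 1 9 (.cons 0x6543207891 (.cons 0x2198765430 .nil)) (.leaf 0x324567891 4 (.node 1 7 (.cons 0x2398456710 (.cons 0x9842301765 (.cons 0x8903421765 .nil))) (.node 2 9 (.cons 0x2930845671 .nil) (.leaf 0x4567129803 5 .done) .done) .done)) (.node 3 5 (.cons 0x7653248901 .nil) (.node 1 7 (.cons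 0x2398456710 .nil) (.leaf 0x2489017653 6 (.node 0 5 (.cons 0x6710548932 .nil) (.node 0 6 (.cons 0x5439806712 .nil) .done .done) (.leaf 0x2489017653 2 (.leaf 0x1098423567 0 .done)))) (.node 1 7 (.cons 0x2398456710 .nil) (.leaf 0x6532489017 7 (.leaf 0x984235671 6 (.leaf 0x8932017654 5 (.leaf 0x9017653248 4 .done)))) .done)) .done)) .done)) .done)) (.node 4 9 .nil (.node 1 8 (.cons 0x4567018932 .nil) (.node 1 6 (.cons 0x9870165423 (.cons 0x5618709432 (.cons 0x5610789423 .nil))) (.node 3 8 (.cons 0x9832456107 .nil) (.leaf 0x1238765490 6 (.node 2 5 (.cons 0x7098165234 (.cons 0x3256784901 (.cons 0x4983256701 (.cons 0x5238940761 .nil)))) .done .done)) (.leaf 0x165423987 3 .done)) (.leaf 0x3981076542 4 (.node 2 5 (.cons 0x7652394810 (.cons 0x1894325670 .nil)) (.leaf 0x6701849325 7 (.leaf 0x9325670184 4 .done)) (.leaf 0x765423981 7 .done)))) (.node 4 7 .nil (.node 0 5 (.cons 0x8905674321 (.cons 0x6509874321 .nil)) (.leaf 0x1239847650 1 (.node 1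 9 (.cons 0x2348765091 (.cons 0x8743219056 .nil)) (.leaf 0x7843219056 7 .done) (.leaf 0x6748932105 4 .done))) (.node 1 4 .nil (.node 2 5 (.cons 0x8476523901 (.cons 0x9014876523 (.cons 0x8907652341 .nil))) (.leaf 0x9325670148 4 .done) (.node 4 6 .nil (.node 1 8 (.cons 0x5670981432 (.cons 0x5467018932 (.cons 0x7018932465 .nil))) (.node 1 5 (.cons 0x4321567890 (.cons 0x9078156432 .nil)) (.leaf 0x156423987 3 .done) (.leaf 0x765423981 7 .done)) .done) .done)) .done)) .done)) .done))) .done))) .done)))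
noncomputable def tc9_8_19 : T := (.node 4 8 (.cons 0x7654893210 .nil) (.leaf 0x6512348907 0 (.node 0 6 (.cons 0x7609843215 .nil) (.node 5 7 (.cons 0x6754893210 .nil) (.node 4 7 .nil (.node 3 8 (.cons 0x9832104567 (.cons 0x7438906512 (.cons 0x9832104765 (.cons 0x4765109832 .nil)))) .done (.node 4 6 .nil (.node 0 2 (.cons 0x8902347651 (.cons 0x3465789021 (.cons 0x8902157643 .nil))) .done (.node 2 4 (.cons 0x8901567423 .nil) (.node 1 6 (.cons 0x3421657890 .nil) (.node 3 6 (.cons 0x2157634890 .nil) (.leaf 0x5109874236 1 .done) .done) .done) .done)) .done)) (.node 0 5 .nil (.node 4 6 (.cons 0x7890564321 .nil) (.leaf 0x3984675012 5 (.leaf 0x3215098764 4 (.leaf 0x7890512346 1 .done))) (.node 3 5 (.cons 0x7609843512 .nil) (.node 0 2 (.cons 0x6754893201 .nil) (.node 2 7 (.cons 0x5127609843 .nil) (.leaf 0x1534890672 7 (.leaf 0x672153489 4 .done)) .done) .done) .done)) (.leaf 0x9845760123 5 .done))) (.node 2 7 (.cons 0x5489327601 .nil) (.node 0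 2 .nil (.node 1 7 (.cons 0x5176098432 (.cons 0x9843206715 (.cons 0x8934567120 .nil))) .done (.node 0 8 (.cons 0x9806723451 .nil) (.node 0 5 .nil (.node 1 6 (.cons 0x7612348905 .nil) (.leaf 0x2398450761 4 (.leaf 0x6150984327 1 (.leaf 0x7239845016 1 (.leaf 0x548932761 4 .done)))) .done) .done) .done)) (.node 0 5 (.cons 0x9843276051 .nil) (.node 6 9 (.cons 0x7234896051 .nil) (.node 0 3 (.cons 0x5127698430 .nil) (.leaf 0x9672150348 3 .done) (.node 1 7 (.cons 0x5176098432 .nil) (.leaf 0x517234896 4 (.leaf 0x5069843271 6 .done)) .done)) (.node 0 8 (.cons 0x4398056721 .nil) (.node 3 6 (.cons 0x9843672150 .nil) (.leaf 0x7215098436 1 (.node 3 8 (.cons 0x9834056721 .nil) (.node 1 9 (.cons 0x5198432760 .nil) (.leaf 0x4056721983 5 (.leaf 0x3891045672 4 (.leaf 0x456723891 7 .done))) .done) .done)) .done) .done)) (.leaf 0x3984510672 1 .done))) .done)) (.leaf 0x6512348907 2 (.leaf 0x6512348907 6 .done)))) (.node 0 2 .nil (.node 1 9 (.cons 0x3456789120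 .nil) (.node 0 3 (.cons 0x4567891032 .nil) (.leaf 0x3456789120 0 (.leaf 0x8765430219 3 .done)) (.leaf 0x5432019876 7 (.leaf 0x5678910234 1 .done))) (.node 0 3 .nil (.node 1 9 (.cons 0x2198765430 .nil) (.leaf 0x8765403219 1 (.leaf 0x3456789120 5 (.leaf 0x3456789120 4 .done))) (.node 0 8 .nil (.node 1 7 (.cons 0x8904321765 (.cons 0x9804321765 (.cons 0x2176543980 .nil))) (.leaf 0x5671239804 4 .done) (.node 2 7 (.cons 0x1276543980 .nil) (.leaf 0x1089345672 1 (.node 2 5 (.cons 0x6708934521 .nil) (.node 2 4 (.cons 0x7654210893 .nil) (.node 2 9 (.cons 0x6708921543 .nil) .done .done) .done) .done)) (.node 0 5 .nil (.node 0 6 (.cons 0x9876054321 .nil) (.node 4 6 (.cons 0x8907643215 .nil) (.leaf 0x3215098764 4 (.leaf 0x7890512346 1 .done)) .done) (.node 0 6 .nil (.node 1 9 (.cons 0x6708915432 (.cons 0x7891234560 (.cons 0x5432198760 .nil))) (.node 1 7 (.cons 0x4567108932 .nil) (.leaf 0x2345609871 6 (.node 2 5 (.cons 0x9804325671 (.cons 0x6078912543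 .nil)) (.leaf 0x1987603452 2 .done) .done)) .done) .done) .done)) .done))) (.node 2 4 (.cons 0x9876542301 .nil) (.node 1 9 (.cons 0x4567891032 .nil) (.node 0 6 (.cons 0x7891234560 .nil) (.node 2 5 (.cons 0x6078912543 .nil) (.node 2 9 (.cons 0x4567892301 .nil) (.node 0 5 (.cons 0x3450678921 .nil) (.node 0 8 (.cons 0x7608921543 .nil) .done .done) .done) .done) .done) (.leaf 0x3019876542 4 (.leaf 0x8765423019 7 .done))) (.node 1 9 (.cons 0x4567891032 .nil) (.leaf 0x3019876542 6 (.node 0 6 (.cons 0x5432198760 .nil) (.node 0 5 (.cons 0x6789123450 .nil) (.node 2 5 (.cons 0x3452198760 .nil) (.leaf 0x678912543 0 .done) .done) .done) (.leaf 0x7891032456 6 .done))) .done)) .done))) (.node 0 8 .nil (.node 1 7 (.cons 0x8904321765 (.cons 0x9804321765 (.cons 0x2176543980 .nil))) (.leaf 0x5671239804 4 .done) (.node 2 5 (.cons 0x6708934521 .nil) (.node 2 7 (.cons 0x1276543980 .nil) (.leaf 0x1089345672 1 (.node 2 4 (.cons 0x7654210893 .nil) (.node 2 9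 (.cons 0x6708921543 .nil) .done .done) .done)) (.node 2 7 (.cons 0x1276543980 .nil) (.node 2 4 (.cons 0x7654210893 .nil) (.node 2 9 (.cons 0x6708921543 .nil) .done .done) (.leaf 0x1089345672 1 .done)) .done)) (.node 0 3 .nil (.node 2 4 (.cons 0x7654239801 .nil) (.leaf 0x2430987651 1 (.leaf 0x3098765124 5 .done)) (.node 0 6 .nil (.node 1 9 (.cons 0x6708915432 (.cons 0x7891234560 (.cons 0x5432198760 (.cons 0x7891206543 .nil)))) .done (.node 0 5 .nil (.node 4 6 (.cons 0x8907643215 .nil) (.leaf 0x3215098764 4 (.leaf 0x7890512346 1 .done)) .done) .done)) .done)) .done))) .done))) (.node 4 8 (.cons 0x7654893210 .nil) (.leaf 0x9845670123 7 (.node 2 4 (.cons 0x8907651243 .nil) (.node 4 7 .nil (.node 3 8 (.cons 0x4389076512 (.cons 0x9832104765 (.cons 0x4765109832 .nil))) (.leaf 0x1567098342 4 .done) (.node 0 2 (.cons 0x8934567021 .nil) (.node 2 5 (.cons 0x6748901523 .nil) (.node 2 8 (.cons 0x1289345670 .nil) (.node 3 8 (.cons 0x4389076512 .nil)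 (.leaf 0x1567098342 4 (.node 0 8 .nil (.node 1 9 (.cons 0x7654019832 (.cons 0x7651908342 .nil)) (.leaf 0x3476519082 6 (.leaf 0x3910765428 3 .done)) .done) .done)) .done) .done) (.node 6 8 (.cons 0x5476893201 .nil) (.leaf 0x9320154768 1 (.leaf 0x7451023986 4 (.leaf 0x8670215439 1 (.leaf 0x2076893451 5 .done)))) .done)) .done)) (.node 3 6 (.cons 0x5489367012 .nil) (.node 0 6 (.cons 0x7609843215 .nil) (.node 1 7 (.cons 0x5176098432 .nil) (.node 5 7 (.cons 0x6754893210 .nil) (.node 1 4 (.cons 0x6578901423 .nil) (.leaf 0x987563241 3 .done) (.node 1 9 (.cons 0x5784236091 .nil) (.node 2 8 (.cons 0x9178234560 .nil) (.leaf 0x7063912845 3 (.leaf 0x639128457 1 .done)) (.leaf 0x4236091578 0 (.leaf 0x4236091578 3 .done))) .done)) (.leaf 0x2456017893 6 (.leaf 0x2456017893 3 .done))) .done) (.leaf 0x2107893654 2 (.leaf 0x124563987 3 .done))) .done)) (.node 0 2 (.cons 0x8934567021 .nil) (.node 0 6 .nil (.node 1 8 (.cons 0x2189345670 (.cons 0x7065439812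 .nil)) (.node 1 7 (.cons 0x8439021765 .nil) (.leaf 0x2345609871 6 (.node 2 7 (.cons 0x3984567210 (.cons 0x5127609843 .nil)) (.leaf 0x6098154327 3 .done) .done)) (.leaf 0x7654398120 4 .done)) (.node 0 5 .nil (.node 1 9 (.cons 0x6789123450 .nil) (.leaf 0x6502193487 7 (.leaf 0x2340567891 4 (.node 0 3 (.cons 0x2198765430 .nil) (.leaf 0x7654302198 1 (.leaf 0x7654302198 7 .done)) .done))) (.node 0 3 (.cons 0x7654893012 .nil) (.node 0 8 .nil (.node 1 7 (.cons 0x6509871234 (.cons 0x9806715432 (.cons 0x9348021765 .nil))) (.leaf 0x5671239804 4 .done) .done) .done) .done)) .done)) (.node 1 6 (.cons 0x9870216543 .nil) (.node 5 7 (.cons 0x9021657843 .nil) (.leaf 0x2093487561 6 (.leaf 0x934875612 7 (.node 1 7 (.cons 0x8904321765 .nil) (.node 0 6 (.cons 0x6021754893 .nil) (.node 2 5 (.cons 0x3489067152 .nil) (.leaf 0x5176098432 0 .done) .done) (.node 3 6 (.cons 0x4893657120 .nil) (.leaf 0x2175639840 7 (.leaf 0x2175639840 1 .done)) .done)) .done))) (.node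 1 7 (.cons 0x8904321765 .nil) (.node 5 7 (.cons 0x8439021756 .nil) (.node 4 7 (.cons 0x3984756102 .nil) (.leaf 0x1023984756 6 .done) (.node 3 7 (.cons 0x4893756120 .nil) (.leaf 0x1204893756 6 (.leaf 0x2165739840 7 (.leaf 0x2165739840 1 .done))) .done)) (.node 1 8 (.cons 0x2189345670 .nil) (.node 5 8 (.cons 0x7658904321 .nil) (.leaf 0x2340985671 0 (.leaf 0x2340985671 3 .done)) .done) .done)) (.leaf 0x4561207893 6 .done))) (.node 6 8 (.cons 0x5439867021 .nil) (.node 3 6 (.cons 0x7634890215 .nil) (.node 0 6 .nil (.node 5 7 (.cons 0x6751209843 (.cons 0x3984576021 .nil)) (.leaf 0x1067548932 5 (.leaf 0x5760123984 1 .done)) (.node 4 6 .nil (.node 3 5 (.cons 0x9867021534 (.cons 0x7890123564 (.cons 0x9876453201 .nil))) .done .done) .done)) (.node 4 6 .nil (.node 5 8 (.cons 0x7658904321 (.cons 0x7645893201 (.cons 0x3985467021 .nil))) (.leaf 0x9854670123 7 .done) (.node 0 6 .nil (.node 1 9 (.cons 0x8915436702 (.cons 0x7891234560 (.cons 0x5432198760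 .nil))) (.leaf 0x6023451987 4 .done) .done) .done)) .done)) (.leaf 0x8670215439 1 (.leaf 0x2076893451 5 .done))) .done))) (.leaf 0x6548932107 4 .done)))) (.node 4 8 (.cons 0x7654893210 .nil) (.leaf 0x3984567012 6 (.node 2 4 (.cons 0x8932456701 .nil) (.node 1 8 (.cons 0x4567018932 .nil) (.leaf 0x5670189324 7 (.node 4 7 .nil (.node 0 2 (.cons 0x9815670234 .nil) (.leaf 0x5674320981 3 (.node 2 9 (.cons 0x4329815670 (.cons 0x6518923470 .nil)) (.leaf 0x8156704329 3 .done) .done)) (.node 1 4 (.cons 0x8907651432 .nil) (.node 2 8 (.cons 0x3476512890 .nil) (.node 0 2 (.cons 0x5674398120 .nil) (.node 2 9 (.cons 0x4329815670 .nil) (.leaf 0x8156704329 3 .done) .done) (.leaf 0x9076514328 6 .done)) .done) .done)) (.node 1 4 (.cons 0x8907651432 .nil) (.node 2 5 (.cons 0x6709843251 .nil) (.node 1 6 (.cons 0x5167098432 .nil) (.leaf 0x3489076152 4 (.leaf 0x3489076152 5 .done)) (.node 3 7 (.cons 0x5673409812 .nil) (.node 5 7 (.cons 0x6754893210 .nil) (.node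 4 7 .nil (.node 0 5 (.cons 0x9056781243 (.cons 0x6748125093 (.cons 0x6509874321 .nil))) .done .done) .done) (.leaf 0x4098125673 0 (.leaf 0x8125673409 4 .done))) .done)) .done) .done))) (.node 1 8 (.cons 0x4567018932 .nil) (.node 2 6 (.cons 0x5489326701 .nil) (.leaf 0x7015489326 4 (.node 4 7 (.cons 0x5623470981 .nil) (.leaf 0x5470189326 3 (.leaf 0x981562347 2 .done)) (.node 4 7 (.cons 0x9815623470 .nil) (.leaf 0x3981074562 3 (.leaf 0x3981074562 0 .done)) (.leaf 0x3984510762 1 .done)))) (.node 2 9 (.cons 0x4329815670 .nil) (.node 1 6 (.cons 0x8923451670 .nil) (.node 0 8 (.cons 0x6708923451 .nil) (.leaf 0x1543298076 0 (.leaf 0x4516708923 4 .done)) (.leaf 0x165423987 3 .done)) (.leaf 0x8156704329 3 .done)) (.leaf 0x765423981 7 .done))) .done)) (.leaf 0x6548932107 6 (.node 2 4 (.cons 0x8932456701 .nil) (.node 1 8 (.cons 0x4567018932 .nil) (.leaf 0x5670189324 7 (.leaf 0x5670189324 1 (.node 4 6 .nil (.node 0 5 (.cons 0x9324810567 (.cons 0x7890564321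 .nil)) (.leaf 0x1234678905 0 (.leaf 0x6450123987 6 .done)) (.node 3 8 (.cons 0x9832104567 .nil) (.node 5 7 (.cons 0x9381075642 .nil) (.leaf 0x124657839 6 (.leaf 0x2109387564 2 (.node 1 6 (.cons 0x7561238904 .nil) (.node 4 7 (.cons 0x6574098321 .nil) (.leaf 0x983216574 3 .done) .done) .done))) (.node 6 9 (.cons 0x4510769832 .nil) (.leaf 0x1542389670 6 (.leaf 0x5423896701 7 .done)) .done)) .done)) (.node 5 8 (.cons 0x7658124390 .nil) (.node 1 7 (.cons 0x2398456710 .nil) (.leaf 0x1234098567 0 (.node 2 6 (.cons 0x5489326710 .nil) (.leaf 0x934265817 7 (.leaf 0x934265817 1 (.leaf 0x9071856243 6 .done))) (.leaf 0x4239017658 2 .done))) (.node 1 4 (.cons 0x8567093241 .nil) (.leaf 0x9076581423 4 (.leaf 0x7093241856 5 .done)) .done)) .done)))) (.node 1 8 (.cons 0x4567018932 .nil) (.node 1 6 (.cons 0x9870165423 .nil) (.node 2 9 (.cons 0x9234561870 .nil) (.node 0 2 (.cons 0x7654893201 .nil) (.node 1 9 (.cons 0x5678432091 .nil) (.leaf 0x4876519023 7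 .done) .done) (.leaf 0x5618709234 0 .done)) (.node 5 8 (.cons 0x7658904321 .nil) (.node 4 7 (.cons 0x6518907432 .nil) (.node 2 5 (.cons 0x8476523901 .nil) (.leaf 0x932567481 5 (.leaf 0x5239018476 1 .done)) (.leaf 0x4701658932 1 (.node 4 9 (.cons 0x5610789423 .nil) (.node 0 8 (.cons 0x5167089432 .nil) (.node 2 9 (.cons 0x6708923451 .nil) (.leaf 0x7089234516 2 .done) .done) .done) .done))) (.node 1 7 (.cons 0x2398456710 .nil) (.leaf 0x7165893240 1 (.leaf 0x2340985671 3 (.leaf 0x6589043217 3 .done))) .done)) (.leaf 0x165423987 3 .done))) (.leaf 0x3981076542 4 (.node 2 9 (.cons 0x4329815670 .nil) (.node 0 2 (.cons 0x7654893201 .nil) (.node 4 9 (.cons 0x2349815670 .nil) (.leaf 0x765189432 0 .done) .done) (.leaf 0x8156704329 3 .done)) (.leaf 0x765423981 7 .done)))) (.node 6 8 (.cons 0x5423986701 .nil) (.node 1 8 (.cons 0x4567018932 .nil) (.leaf 0x3981076542 6 (.node 3 8 (.cons 0x9832451076 .nil) (.node 2 8 (.cons 0x4328907651 .nil) (.node 1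 4 (.cons 0x8907651432 .nil) (.leaf 0x1567098234 0 (.leaf 0x9076514328 6 (.node 4 6 (.cons 0x5189076432 .nil) (.node 4 7 (.cons 0x9012387465 .nil) .done .done) .done))) .done) .done) (.leaf 0x7018932456 6 .done))) (.leaf 0x7015423986 4 (.leaf 0x9324510768 1 .done))) .done))) .done)))) .done))))
noncomputable def tc9_8_20 : T := (.node 0 7 (.cons 0x8932107654 .nil) (.node 0 8 (.cons 0x9087651234 .nil) (.node 0 2 .nil (.node 1 7 (.cons 0x8934567120 .nil) (.leaf 0x8934567120 0 (.leaf 0x3980217654 4 .done)) (.node 0 3 .nil (.node 2 4 (.cons 0x5678903421 .nil) (.leaf 0x6542103987 6 (.leaf 0x124567893 6 (.leaf 0x3098765124 4 .done))) (.node 0 6 .nil (.node 4 7 (.cons 0x9087432156 .nil) (.leaf 0x2106547893 0 (.leaf 0x8906512347 1 .done)) (.node 0 5 .nil (.node 4 6 (.cons 0x8932107645 .nil) (.leaf 0x3215098764 6 (.leaf 0x7890512346 7 .done)) .done) .done)) .done)) .done)) (.node 0 2 (.cons 0x7654398021 .nil) (.node 1 7 (.cons 0x2176543980 .nil)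 (.node 2 4 (.cons 0x5671243980 .nil) (.leaf 0x4215678093 1 (.node 0 6 .nil (.node 3 5 (.cons 0x9802176534 .nil) (.leaf 0x5421067893 0 (.leaf 0x6012453987 6 .done)) (.node 0 5 (.cons 0x4398056712 .nil) (.node 0 3 .nil (.node 2 9 (.cons 0x8043921765 .nil) (.leaf 0x3089217654 5 (.leaf 0x2980345671 1 .done)) .done) .done) .done)) .done)) (.leaf 0x6543980217 5 .done)) (.node 1 7 (.cons 0x2176543980 .nil) (.leaf 0x8934567120 5 (.node 0 3 (.cons 0x9871203456 .nil) (.node 4 7 (.cons 0x8093476512 .nil) (.node 0 6 (.cons 0x9871206543 .nil) (.node 0 5 .nil (.node 1 6 (.cons 0x9871654302 (.cons 0x9874320561 .nil)) .done .done) .done) .done) .done) .done)) .done)) (.node 1 7 (.cons 0x4567108932 .nil) (.node 0 3 .nil (.node 2 4 (.cons 0x7654239801 .nil) (.leaf 0x8017654239 6 (.leaf 0x124567893 6 (.leaf 0x3098765124 4 .done))) (.node 0 2 .nil (.node 1 9 (.cons 0x9154320876 (.cons 0x3456789120 .nil)) (.leaf 0x8765430219 3 (.leaf 0x5432019876 7 .done))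 (.node 0 5 .nil (.node 4 9 (.cons 0x8765123490 (.cons 0x6789450123 (.cons 0x6503498712 (.cons 0x8943205671 .nil)))) (.leaf 0x5678943210 7 .done) (.node 0 6 .nil (.node 1 9 (.cons 0x7654320891 (.cons 0x7891234560 (.cons 0x5432198760 .nil))) (.leaf 0x3208917654 1 .done) .done) .done)) .done)) .done)) (.node 0 3 .nil (.node 2 4 (.cons 0x7654239801 (.cons 0x8903421765 .nil)) (.leaf 0x124567893 6 (.leaf 0x3098765124 4 .done)) (.node 0 2 (.cons 0x8934567120 .nil) (.node 2 6 (.cons 0x9871265430 .nil) (.leaf 0x6217890345 1 (.node 0 5 (.cons 0x9871265034 .nil) (.node 0 6 .nil (.node 1 9 (.cons 0x7654320891 (.cons 0x7891234560 (.cons 0x5432198760 .nil))) .done .done) .done) (.leaf 0x1789034562 5 .done))) .done) .done)) .done)) .done))) (.node 4 8 (.cons 0x7654893210 .nil) (.leaf 0x9845670123 7 (.node 4 7 .nil (.node 0 5 (.cons 0x9051234876 (.cons 0x8905674321 (.cons 0x6509874321 .nil))) (.leaf 0x3984765012 6 .done) (.node 2 8 (.cons 0x1289345670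 .nil) (.node 0 8 (.cons 0x9087651234 .nil) (.node 0 6 (.cons 0x7065439821 .nil) (.node 5 7 (.cons 0x6754893210 .nil) (.leaf 0x4893210675 4 .done) .done) .done) (.leaf 0x1567482390 7 (.leaf 0x1093284765 1 .done))) .done)) (.node 0 2 (.cons 0x8934567021 .nil) (.node 3 5 (.cons 0x7653489021 .nil) (.node 1 7 (.cons 0x5671209843 .nil) (.node 4 7 (.cons 0x6532109874 .nil) (.node 4 6 (.cons 0x2356478901 .nil) (.node 2 5 (.cons 0x8907125346 .nil) (.node 5 7 .nil (.node 0 6 (.cons 0x3984521760 .nil) (.leaf 0x7548932106 6 .done) .done) .done) .done) .done) (.leaf 0x4890217653 6 .done)) (.node 1 7 (.cons 0x2098435671 .nil) (.leaf 0x2098435671 0 (.leaf 0x8435671209 4 .done)) .done)) (.leaf 0x215678439 1 (.node 0 3 (.cons 0x7654893012 .nil) (.node 2 9 (.cons 0x3487651290 .nil) (.node 3 5 (.cons 0x9021534876 .nil) (.node 2 4 (.cons 0x4235678901 .nil) (.node 1 8 (.cons 0x2189345670 .nil) (.leaf 0x6709812435 1 (.node 5 9 (.cons 0x8765904321 .nil) (.leaf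 0x2340956781 1 (.leaf 0x2187659043 7 .done)) (.leaf 0x1893456702 1 .done))) .done) .done) (.leaf 0x1567843092 4 .done)) (.node 2 9 (.cons 0x3487651290 .nil) (.leaf 0x4876512903 4 (.node 1 4 (.cons 0x1456789230 .nil) (.leaf 0x8765410329 1 (.leaf 0x8923014567 7 (.leaf 0x7892301456 6 .done))) .done)) .done)) .done))) (.leaf 0x6548932107 4 .done)))) (.node 4 8 (.cons 0x7654893210 .nil) (.leaf 0x3984567012 6 (.node 5 7 (.cons 0x6754893210 .nil) (.node 4 7 .nil (.node 0 5 (.cons 0x9051234876 (.cons 0x8905674321 (.cons 0x6509874321 .nil))) .done .done) (.node 0 6 (.cons 0x1239845760 .nil) (.leaf 0x4893210675 4 (.leaf 0x9845760123 5 .done)) .done)) (.leaf 0x6548932107 6 (.node 4 7 (.cons 0x8476510932 .nil) (.node 2 4 (.cons 0x8932456701 .nil) (.node 1 7 (.cons 0x2398456710 .nil) (.node 0 2 (.cons 0x7654893201 .nil) (.leaf 0x8932017654 5 (.node 2 5 (.cons 0x4893256710 .nil) (.node 2 9 (.cons 0x1567843290 .nil) (.node 7 9 (.cons 0x8401793256 .nil)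 (.node 0 6 (.cons 0x7106523984 .nil) (.node 0 3 (.cons 0x2560348971 .nil) (.leaf 0x4897125603 1 .done) (.leaf 0x9847106523 4 .done)) .done) .done) (.leaf 0x3256710489 3 .done)) .done)) (.node 3 5 (.cons 0x7653248901 .nil) (.leaf 0x1098423567 0 (.leaf 0x9017653248 4 .done)) .done)) (.node 4 9 (.cons 0x8765123490 .nil) (.node 7 9 (.cons 0x6510978423 .nil) (.node 2 9 (.cons 0x1567843290 .nil) (.node 0 2 (.cons 0x7654893201 .nil) (.node 1 9 (.cons 0x2348765190 .nil) (.leaf 0x234876519 1 .done) .done) .done) .done) .done) .done)) (.node 4 6 .nil (.node 2 8 (.cons 0x8215674390 (.cons 0x9078234651 (.cons 0x7648239015 .nil))) (.leaf 0x1567482390 5 (.leaf 0x6510932847 4 .done)) (.node 0 6 .nil (.node 2 8 (.cons 0x8215674390 (.cons 0x9065128743 (.cons 0x5476012893 .nil))) (.leaf 0x1567482390 5 (.leaf 0x6510932847 4 .done)) (.node 2 4 (.cons 0x8932456701 .nil) (.node 2 8 (.cons 0x8215674390 .nil) (.node 0 8 (.cons 0x8093476512 .nil) (.node 6 9 (.cons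 0x7693284510 .nil) (.leaf 0x8096512347 6 (.leaf 0x3284510769 4 .done)) .done) (.leaf 0x1567482390 5 (.leaf 0x6510932847 4 .done))) (.node 3 5 (.cons 0x9876012453 .nil) (.leaf 0x5421067893 0 (.leaf 0x6012453987 6 .done)) .done)) .done)) .done)) .done)) .done)))) .done))) (.leaf 0x3215678904 6 (.node 3 5 .nil (.node 1 4 (.cons 0x2143567890 .nil) (.leaf 0x7653214098 6 (.leaf 0x1235678904 0 (.leaf 0x7653214098 3 .done))) (.node 4 7 (.cons 0x6512347890 .nil) (.node 0 7 (.cons 0x8932107654 .nil) (.node 4 8 (.cons 0x7654893210 .nil) (.leaf 0x9845670123 7 (.node 2 4 (.cons 0x9012487653 .nil) (.node 1 4 .nil (.node 0 6 (.cons 0x7890651234 (.cons 0x7890651432 .nil)) (.node 5 8 (.cons 0x6745893210 (.cons 0x7658901423 (.cons 0x5890674123 .nil))) .done .done) .done) (.leaf 0x1093567842 4 .done)) (.leaf 0x6548932107 4 .done))) (.node 4 8 (.cons 0x7654893210 .nil) (.leaf 0x3984567012 6 (.leaf 0x6548932107 6 (.node 4 9 (.cons 0x2356784901 .nil) (.leaf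 0x5321094876 4 (.node 7 9 (.cons 0x8790432156 .nil) (.node 1 4 (.cons 0x9014876532 .nil) (.node 0 8 (.cons 0x3214567980 .nil) (.leaf 0x3567908412 6 (.leaf 0x3567908412 3 (.leaf 0x976532148 0 .done))) .done) .done) .done)) .done))) .done)) (.node 0 6 (.cons 0x3478906512 .nil) (.leaf 0x1560987432 6 (.node 0 7 (.cons 0x8932107654 .nil) (.node 3 6 (.cons 0x2156347890 .nil) (.node 3 7 (.cons 0x4378906512 .nil) (.node 7 9 (.cons 0x8790432156 .nil) (.node 5 7 .nil (.node 2 8 (.cons 0x8215639740 (.cons 0x4756398210 (.cons 0x1289345760 (.cons 0x6075128934 .nil)))) (.leaf 0x4756398210 0 .done) .done) .done) .done) (.node 6 9 (.cons 0x4510789632 .nil) (.node 6 8 (.cons 0x7068934512 .nil) (.leaf 0x2154078693 4 .done) .done) .done)) (.node 4 8 (.cons 0x7654893210 .nil) (.leaf 0x3984567012 6 (.node 5 7 (.cons 0x6754893210 .nil) (.leaf 0x9845760123 5 .done) (.node 4 9 (.cons 0x2356784901 .nil) (.leaf 0x5321094876 4 (.node 1 4 (.cons 0x9014876532 .nil)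 (.node 2 9 (.cons 0x4876532901 .nil) (.leaf 0x923567841 3 (.leaf 0x6532901487 2 .done)) .done) .done)) .done))) .done)) (.leaf 0x8906512347 6 .done))) (.node 0 6 (.cons 0x2347890651 .nil) (.leaf 0x5123478906 7 (.leaf 0x8906512347 4 (.node 3 6 (.cons 0x4789015632 .nil) (.node 2 9 (.cons 0x4789236510 .nil) (.leaf 0x1563298740 1 (.leaf 0x1563298740 7 (.node 1 8 (.cons 0x9236518740 .nil) (.leaf 0x7409236518 6 (.node 2 5 (.cons 0x4765239810 .nil) (.leaf 0x6740189325 6 .done) (.leaf 0x4781563290 4 .done))) .done))) .done) .done))) .done))) (.node 5 9 (.cons 0x8765904321 .nil) (.node 1 9 .nil (.node 3 8 (.cons 0x2195678340 .nil) (.leaf 0x6783219045 6 (.node 2 8 (.cons 0x3409567821 (.cons 0x9104532876 .nil)) (.leaf 0x1045678239 4 (.node 0 3 (.cons 0x6782195403 .nil) (.node 0 8 (.cons 0x7654082193 (.cons 0x7654082391 .nil)) (.leaf 0x4321956780 7 .done) .done) .done)) (.leaf 0x1238765409 6 .done))) (.node 0 5 (.cons 0x6789123450 .nil) (.node 0 6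 (.cons 0x5432198760 .nil) (.leaf 0x9123450678 4 (.node 6 9 (.cons 0x8769104532 .nil) (.node 5 8 (.cons 0x3219678540 .nil) (.node 2 6 (.cons 0x4532678910 .nil) (.node 0 3 (.cons 0x8762195430 .nil) (.node 0 8 (.cons 0x3459126780 .nil) (.leaf 0x4087691235 3 (.leaf 0x2195430876 4 .done)) (.leaf 0x4587691230 7 .done)) (.leaf 0x3540198762 6 (.leaf 0x7623540198 7 .done))) .done) .done) .done)) .done) .done)) (.node 1 8 (.cons 0x4095678123 .nil) (.leaf 0x2187659043 7 (.node 5 8 .nil (.node 7 9 (.cons 0x8790432156 (.cons 0x8540123976 (.cons 0x2185679340 (.cons 0x4018567932 .nil)))) .done (.node 2 9 (.cons 0x7658129340 .nil) (.node 2 4 (.cons 0x4235678901 .nil) (.node 7 9 (.cons 0x4235679810 .nil) (.leaf 0x3240189765 6 (.leaf 0x2356798104 1 (.leaf 0x2401897653 7 .done))) (.node 1 4 (.cons 0x4109876532 .nil) (.leaf 0x7890142356 1 (.node 0 2 (.cons 0x2098765341 .nil) (.leaf 0x6789021435 7 .done) .done)) .done)) (.node 3 6 (.cons 0x5876340921 .nil)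 (.leaf 0x9215876340 6 (.leaf 0x2904367851 7 .done)) .done)) .done)) (.leaf 0x7659043218 6 .done))) .done)) .done))) (.node 0 3 (.cons 0x4309876512 .nil) (.node 2 4 (.cons 0x3421567890 .nil) (.node 0 2 .nil (.node 1 9 (.cons 0x3456789120 .nil) (.leaf 0x8765430219 3 (.leaf 0x5432019876 7 (.leaf 0x5678910234 1 .done))) (.node 0 7 (.cons 0x8907651243 .nil) (.node 3 8 (.cons 0x7651243890 .nil) (.node 2 9 (.cons 0x6543078921 .nil) (.leaf 0x4092156783 4 (.leaf 0x1290438765 7 .done)) (.leaf 0x4215670983 6 (.leaf 0x9834215670 7 .done))) (.node 3 8 (.cons 0x7651243890 .nil) (.node 2 9 (.cons 0x8765129043 .nil) (.leaf 0x4092156783 4 (.leaf 0x1290438765 7 .done)) (.leaf 0x4215670983 3 (.node 3 6 (.cons 0x9876345120 .nil) (.leaf 0x4512098763 1 (.node 4 8 (.cons 0x7654893210 .nil) (.leaf 0x3984567012 6 (.node 2 5 (.cons 0x4893670152 .nil) (.node 3 5 (.cons 0x6789021534 .nil) .done (.leaf 0x6701524893 1 (.leaf 0x7639842510 6 .done))) (.leaf 0x6548932107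 6 .done))) .done)) .done))) .done)) .done)) (.node 2 9 (.cons 0x8765129043 .nil) (.node 0 2 .nil (.node 1 9 (.cons 0x3456789120 .nil) (.leaf 0x8765430219 3 (.leaf 0x5432019876 7 .done)) (.node 1 9 .nil (.node 3 8 (.cons 0x9043876512 (.cons 0x9104567832 .nil)) (.leaf 0x1238765409 6 (.leaf 0x7651290438 7 .done)) (.node 0 6 (.cons 0x7891234560 .nil) (.node 0 5 (.cons 0x3450678921 .nil) (.node 0 7 (.cons 0x6543219870 .nil) (.node 0 8 (.cons 0x6708934512 .nil) .done .done) .done) (.node 0 5 .nil (.node 1 7 (.cons 0x6034517892 (.cons 0x8719234506 (.cons 0x6051789243 .nil))) (.leaf 0x2456017893 6 .done) .done) .done)) .done)) .done)) (.node 3 8 (.cons 0x9043876512 .nil) (.leaf 0x1290438765 7 (.node 4 9 (.cons 0x3876512940 .nil) (.leaf 0x4921567830 1 (.node 5 9 (.cons 0x8765904321 .nil) (.leaf 0x8321049567 3 (.node 6 9 .nil (.node 0 2 (.cons 0x2043876951 .nil) (.leaf 0x438769512 0 (.leaf 0x6783402159 3 .done)) .done) .done)) (.node 5 9 (.cons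 0x2387659401 .nil) (.leaf 0x8321049567 6 .done) .done))) (.node 3 5 .nil (.node 1 4 (.cons 0x5678329041 (.cons 0x6783514092 .nil)) (.leaf 0x1235678904 0 .done) (.node 4 8 (.cons 0x7654893210 .nil) (.node 4 9 (.cons 0x8765321094 .nil) (.leaf 0x3210948765 1 (.leaf 0x3567849012 7 .done)) (.node 1 4 (.cons 0x3567841290 .nil) (.leaf 0x2903567841 6 (.leaf 0x9214876530 4 .done)) .done)) .done)) .done))) .done)) (.leaf 0x3098765124 1 .done))) (.node 0 7 (.cons 0x8932107654 .nil) (.node 0 2 (.cons 0x8934567021 .nil) (.node 2 6 (.cons 0x9876215430 .nil) (.leaf 0x1267890345 7 (.node 0 6 (.cons 0x9876034512 .nil) (.node 0 5 (.cons 0x9876215034 .nil) (.node 0 8 .nil (.node 2 4 (.cons 0x3421567890 .nil) (.leaf 0x4215678093 1 (.leaf 0x8934215670 5 .done)) .done) .done) .done) (.leaf 0x8762154309 4 .done))) (.node 2 4 (.cons 0x3421567890 .nil) (.node 3 8 (.cons 0x7651243890 .nil) (.leaf 0x2438907651 4 (.leaf 0x4215670983 6 (.leaf 0x9834215670 7 .done)))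 (.node 2 9 (.cons 0x6789215430 .nil) (.node 2 8 (.cons 0x1289345670 .nil) (.node 0 8 (.cons 0x9340821567 .nil) (.node 3 8 (.cons 0x9043876512 .nil) (.leaf 0x5129043876 6 .done) .done) .done) .done) .done)) .done)) (.node 2 6 (.cons 0x9876215430 .nil) (.leaf 0x1267890345 7 (.node 0 6 (.cons 0x9876034512 .nil) (.node 0 8 (.cons 0x9803451267 .nil) (.node 0 2 .nil (.node 1 8 (.cons 0x4567018932 (.cons 0x7602189345 (.cons 0x4398156702 .nil))) .done .done) .done) .done) (.node 0 5 (.cons 0x9876215034 .nil) (.node 0 6 (.cons 0x9876034512 .nil) (.node 0 2 .nil (.node 1 8 (.cons 0x4567018932 (.cons 0x7026518934 (.cons 0x7602189345 (.cons 0x4398156702 .nil)))) .done (.node 0 8 .nil (.node 4 7 (.cons 0x8905674321 (.cons 0x5126743980 .nil)) (.leaf 0x4762150893 1 .done) .done) .done)) .done) (.node 1 9 (.cons 0x4326507891 .nil) (.node 0 2 (.cons 0x6543207891 .nil) (.node 0 6 (.cons 0x7891234560 .nil) (.node 0 8 .nil (.node 1 4 (.cons 0x5623419870 (.cons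 0x7089143265 (.cons 0x5143980762 .nil))) .done .done) .done) .done) (.node 1 6 (.cons 0x6198705432 .nil) (.leaf 0x7054326198 6 (.leaf 0x789162345 7 .done)) .done)) .done)) (.leaf 0x8762154309 4 .done)))) .done)) (.node 2 4 (.cons 0x3421567890 .nil) (.node 1 9 (.cons 0x4567891032 .nil) (.leaf 0x324567891 4 (.node 1 4 (.cons 0x9876541032 .nil) (.node 2 9 (.cons 0x4567892301 .nil) (.node 0 2 (.cons 0x6789154302 .nil) (.node 0 7 (.cons 0x8907651243 .nil) (.node 1 8 (.cons 0x2189345670 .nil) (.leaf 0x1893456702 1 .done) .done) .done) (.leaf 0x8923014567 7 .done)) .done) .done)) (.leaf 0x9876512430 4 (.leaf 0x9876512430 5 .done))) .done))) .done))))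
noncomputable def tc9_8_21 : T := (.node 1 5 (.cons 0x4321567890 .nil) tc9_8_20 (.node 1 5 (.cons 0x4321567890 .nil) (.leaf 0x3215678904 4 (.node 0 7 (.cons 0x8907651234 .nil) tc9_8_19 (.leaf 0x2340987651 6 (.node 2 4 (.cons 0x3421567890 .nil) (.node 0 8 (.cons 0x9087651243 .nil) (.node 0 2 .nil (.node 4 8 (.cons 0x7654893210 (.cons 0x7654893201 .nil)) (.leaf 0x1209348765 5 (.leaf 0x215678439 4 .done)) (.node 2 8 (.cons 0x7651289043 .nil) (.node 0 7 (.cons 0x4398215670 .nil) (.leaf 0x7651289340 0 (.leaf 0x8215670439 6 (.leaf 0x8215670439 3 .done))) (.node 5 8 (.cons 0x7658904321 .nil) (.node 2 7 .nil (.node 1 6 (.cons 0x7610239854 (.cons 0x8516720934 (.cons 0x4398516720 .nil))) (.leaf 0x9345167208 1 .done) (.node 1 9 (.cons 0x1985672340 .nil) (.leaf 0x2765891043 3 (.leaf 0x2765891043 6 .done)) .done)) .done) .done)) .done)) (.leaf 0x1243908765 5 (.leaf 0x4215678093 4 (.node 1 9 (.cons 0x9108765423 .nil) (.node 1 4 (.cons 0x7654108932 .nil)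 (.node 1 7 (.cons 0x4567108932 .nil) (.node 1 3 (.cons 0x9087651342 .nil) (.node 1 8 (.cons 0x7651809342 .nil) .done .done) (.leaf 0x893245671 7 .done)) .done) (.node 1 7 (.cons 0x4567108932 .nil) (.node 5 8 (.cons 0x7658904321 .nil) (.leaf 0x1234098567 0 (.node 4 8 (.cons 0x7654893210 .nil) (.leaf 0x2176584093 6 (.leaf 0x7123904856 2 (.leaf 0x8567123904 0 .done))) .done)) (.leaf 0x893245671 7 .done)) .done)) .done)))) (.node 0 2 .nil (.node 4 8 (.cons 0x7654893210 (.cons 0x7654893201 .nil)) (.leaf 0x1209348765 5 (.leaf 0x215678439 4 .done)) (.node 4 8 (.cons 0x7654893210 .nil) (.leaf 0x1209348765 5 (.leaf 0x215678439 4 (.node 1 9 (.cons 0x5678432091 .nil) (.leaf 0x8432091567 4 (.node 4 9 (.cons 0x8765120943 .nil) (.node 3 8 (.cons 0x5678349021 .nil) (.node 4 6 (.cons 0x9021564387 .nil) (.node 7 9 (.cons 0x2156438790 .nil) (.leaf 0x8346512097 4 (.leaf 0x215643879 1 .done)) .done) (.leaf 0x4902156783 1 (.leaf 0x7651209438 4 .done))) .done)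 .done)) .done))) (.node 2 8 (.cons 0x7651289043 .nil) (.node 0 7 (.cons 0x4398215670 .nil) (.leaf 0x7651289340 0 (.leaf 0x8215670439 6 (.leaf 0x8215670439 3 .done))) (.node 2 9 .nil (.node 3 7 (.cons 0x6512437890 (.cons 0x8921567340 (.cons 0x8923765401 .nil))) (.node 0 8 (.cons 0x9087342156 (.cons 0x6512908734 (.cons 0x8012937654 .nil))) (.leaf 0x5673408921 4 .done) (.leaf 0x1289043765 3 .done)) .done) .done)) .done))) (.node 0 3 (.cons 0x4309876512 .nil) (.node 0 2 .nil (.node 1 9 (.cons 0x3456789120 .nil) (.leaf 0x3456789120 0 (.leaf 0x5432019876 7 (.leaf 0x5678910234 1 .done))) (.node 0 5 (.cons 0x6789051243 .nil) (.node 3 6 (.cons 0x5124367890 .nil) (.leaf 0x4367890512 3 (.node 2 9 (.cons 0x3678924510 .nil) (.node 1 9 (.cons 0x5423678910 .nil) (.leaf 0x542367891 1 (.node 4 8 (.cons 0x7654893210 .nil) (.leaf 0x5129034876 6 (.leaf 0x1567843092 1 (.leaf 0x9154876302 5 .done))) .done)) .done) .done)) .done) .done)) (.leaf 0x3098765124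 1 (.node 2 9 (.cons 0x6789215430 .nil) (.node 0 2 .nil (.node 1 9 (.cons 0x3456789120 .nil) (.leaf 0x8765430219 6 (.leaf 0x5678910234 1 .done)) (.node 0 6 (.cons 0x9876034512 .nil) (.leaf 0x1543067892 1 (.node 0 7 (.cons 0x8932107654 .nil) (.node 4 8 (.cons 0x7654893210 .nil) (.leaf 0x9845670123 7 (.leaf 0x215678439 4 (.leaf 0x6548932107 4 .done))) .done) .done)) .done)) (.node 2 8 (.cons 0x7651289043 .nil) (.node 3 7 (.cons 0x8904376512 .nil) (.node 0 6 (.cons 0x9876034512 .nil) (.leaf 0x3451298760 1 (.node 3 5 (.cons 0x4530678921 .nil) (.leaf 0x5421067893 0 (.leaf 0x6012453987 6 .done)) (.node 1 3 (.cons 0x3154298760 .nil) (.leaf 0x8924513067 4 (.leaf 0x678924513 0 .done)) .done))) (.leaf 0x8215673409 1 (.node 1 8 (.cons 0x1892376540 .nil) (.leaf 0x3765401892 4 (.leaf 0x3765401892 5 .done)) .done))) (.node 0 7 (.cons 0x4398215670 .nil) (.leaf 0x7651289340 0 (.leaf 0x8215670439 6 (.leaf 0x8215670439 3 .done))) .done)) .done)) (.leaf 0x9876512430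 5 .done)))) .done))) .done)))) (.leaf 0x2104567893 6 (.node 0 7 (.cons 0x8932107654 .nil) tc9_8_18 (.leaf 0x6540123987 6 (.node 1 5 (.cons 0x4321567890 .nil) (.leaf 0x9876512340 1 (.leaf 0x9876512340 7 (.leaf 0x8904321567 6 (.node 1 9 .nil (.node 0 5 (.cons 0x8765091234 .nil) (.node 0 3 (.cons 0x4309876512 .nil) (.node 4 8 (.cons 0x7654893210 (.cons 0x5678430912 .nil)) (.node 0 7 (.cons 0x8932107654 .nil) (.node 0 8 (.cons 0x6708934512 .nil) (.leaf 0x4321980765 3 .done) (.leaf 0x9845670123 7 .done)) (.leaf 0x2348765091 6 .done)) (.leaf 0x9876540321 4 (.leaf 0x9876540321 5 .done))) (.leaf 0x9876504321 7 (.leaf 0x8912340567 6 .done))) (.node 2 9 (.cons 0x3298765401 .nil) (.node 1 3 (.cons 0x9876540132 .nil) (.leaf 0x456789231 4 (.node 1 8 (.cons 0x7654018932 .nil) (.node 0 3 (.cons 0x6789215430 .nil) (.node 0 6 (.cons 0x7891234560 .nil) (.leaf 0x3451298760 0 (.node 5 9 (.cons 0x2134598760 .nil) (.leaf 0x4306781295 0 (.node 4 9 (.cons 0x4956781230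 .nil) (.node 3 8 (.cons 0x9456783012 .nil) (.leaf 0x129456783 6 (.leaf 0x7830129456 7 .done)) .done) .done)) .done)) (.node 1 7 .nil (.node 6 9 (.cons 0x2178965430 (.cons 0x4569871032 (.cons 0x4569871230 .nil))) (.leaf 0x5403217896 7 .done) (.node 1 6 (.cons 0x5401678923 .nil) (.node 1 4 .nil (.node 0 2 (.cons 0x7651893402 .nil) (.leaf 0x7651432098 6 (.leaf 0x6789023415 7 .done)) .done) .done) .done)) .done)) .done) (.leaf 0x2987654013 1 .done))) (.node 1 3 (.cons 0x1329876540 .nil) (.node 1 8 (.cons 0x9231876540 .nil) (.leaf 0x2318765409 6 (.node 2 8 (.cons 0x9043156782 .nil) (.leaf 0x5134092876 6 (.leaf 0x1567829043 7 .done)) .done)) (.leaf 0x8765401329 4 (.leaf 0x8765401329 5 .done))) .done)) (.node 1 8 (.cons 0x7654018932 .nil) (.node 1 3 (.cons 0x9876540132 .nil) (.node 2 9 (.cons 0x3298765401 .nil) (.leaf 0x456789231 5 (.node 2 8 (.cons 0x9043156782 .nil) (.leaf 0x1567829043 7 (.node 4 8 (.cons 0x7654893210 .nil) (.leaf 0x9048765132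 6 (.node 0 8 (.cons 0x7651392804 .nil) (.node 1 7 (.cons 0x5671392840 .nil) (.node 1 6 (.cons 0x9231678045 .nil) (.node 1 4 .nil (.node 0 2 (.cons 0x8402931765 .nil) (.leaf 0x7651432098 6 (.leaf 0x6789023415 7 (.leaf 0x6789023415 1 .done))) .done) .done) .done) .done) .done)) .done)) .done)) (.node 2 9 (.cons 0x2987651340 .nil) (.node 1 7 (.cons 0x6540178923 .nil) (.node 4 9 (.cons 0x5678940132 .nil) (.node 4 8 (.cons 0x7654893210 .nil) (.node 4 7 .nil (.node 2 5 (.cons 0x3104987652 (.cons 0x8174093256 .nil)) (.leaf 0x6740189325 1 (.leaf 0x9401325678 1 .done)) .done) .done) .done) .done) (.leaf 0x8765401329 5 .done)) .done)) (.node 1 7 .nil (.node 0 5 (.cons 0x6789123450 (.cons 0x9817650432 (.cons 0x6509871234 .nil))) (.node 2 9 (.cons 0x3298765401 (.cons 0x6540178923 .nil)) (.leaf 0x567819234 3 .done) .done) (.node 1 3 (.cons 0x9876540132 .nil) (.node 2 7 (.cons 0x2765189340 .nil) (.leaf 0x3981045672 6 (.node 1 6 .nil (.node 0 5 (.cons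 0x6789123450 (.cons 0x8916723405 (.cons 0x9872340561 .nil))) (.leaf 0x8723405619 0 .done) (.node 1 4 .nil (.node 0 2 (.cons 0x8934027651 .nil) (.leaf 0x7651432098 6 (.leaf 0x6789023415 7 (.leaf 0x6789023415 1 (.node 5 7 (.cons 0x6751893402 (.cons 0x8902341675 (.cons 0x6578904132 .nil))) .done .done)))) .done) .done)) (.node 1 4 (.cons 0x5672398140 .nil) (.node 1 6 (.cons 0x9872316540 .nil) .done .done) .done))) .done) .done)) .done)) .done))) .done)))) .done))))))
noncomputable def uc9_8_6 : T := tc9_8_21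
theorem sub_c9_8_6 : root 9 refs9_8 [] 0x800007004807000000007060000000060500000000504000000004010007000010300000000302000000002014000000010 0xfe6ffe7fff3fff9fffcfffedff75fff3fff9ffed 9 0 4 (.cons 0x5678904321 .nil) uc9_8_6 = true := by decide +kernel
def kn_c9_8 : List (Nat × Nat × Nat) := [(0x800002004807000000007060000000060500000000504003000004010002000010300000000302000003002014000000010, 0xfeebfe7fff3fff9fffc7ffedfff1fff3fff1ffed, 9), (0x800002004807000000007060000000060500000000504006000004010002000010300000000302000006002014000000010, 0xfeebfe7fff3fff9fff8fffedfff1fff3ffb9ffed, 9), (0x800002004807000000007060000000060500000000504007000004010002000010300000000302000007002014000000010, 0xfeebfe7fff3fff9fff4fffedfff1fff3ff79ffed, 9), (0x800002004807000000007060000000060500000000504008000004010002000010300000000302000008002014000000010, 0xfeebfe7fff3fff9ffecfffedfff1fff3fef9ffed, 9), (0x800005004807000000007060000000060500000000504000000004010005000010300000000302000000002014000000010,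 0xfecffe7fff3fff9fffcfffedffd5fff3fff9ffed, 9), (0x800006004807000000007060000000060500000000504000000004010006000010300000000302000000002014000000010, 0xfeaffe7fff3fff9fffcfffedffb5fff3fff9ffed, 9), (0x800007004807000000007060000000060500000000504000000004010007000010300000000302000000002014000000010, 0xfe6ffe7fff3fff9fffcfffedff75fff3fff9ffed, 9)]
noncomputable def rc9_8 : T := (.cut 6 (.cut 5 (.cut 4 (.node 1 5 (.cons 0x4321567890 .nil) (.cut 3 (.cut 2 (.cut 1 (.cut 0 .done)))) .done))))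
theorem ok_c9_8 : root 9 refs9_8 kn_c9_8 0x800000004807000000007060000000060500000000504000000004010000000010300000000302000000002014000000010 0xfeeffe7fff3fff9fffcfffedfff5fff3fff9ffed 9 3 9 (.cons 0x4567893210 .nil) rc9_8 = true := by decide +kernel

noncomputable def tc9_9_0 : T := (.node 2 5 (.cons 0x3452167890 .nil) (.node 3 5 (.cons 0x8761094352 .nil) (.node 1 5 (.cons 0x2349876510 .nil) (.node 1 3 .nil (.node 0 8 (.cons 0x9432567801 (.cons 0x6780945231 (.cons 0x9431087652 .nil))) (.leaf 0x9452316780 3 .done) (.node 1 8 (.cons 0x9432567810 .nil) (.node 3 6 (.cons 0x1876325490 .nil) (.leaf 0x8763254901 5 (.node 1 4 (.cons 0x5236781490 .nil) (.leaf 0x2367814905 1 (.leaf 0x2367814905 3 .done)) .done)) .done) .done)) (.node 2 8 (.cons 0x6782309451 .nil) (.leaf 0x3094516782 1 (.leaf 0x4516782309 5 (.node 1 3 (.cons 0x3167825490 .nil) (.leaf 0x8254903167 4 (.node 2 9 (.cons 0x5492876130 .nil) (.leaf 0x3167829450 3 (.leaf 0x3167829450 7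 (.node 0 2 (.cons 0x6789451320 .nil) (.leaf 0x6134502987 6 (.leaf 0x3167892054 5 .done)) .done))) .done)) (.leaf 0x4901678253 5 .done)))) .done)) (.node 5 8 (.cons 0x6785234901 .nil) (.node 1 5 (.cons 0x2349876510 .nil) (.node 1 3 (.cons 0x6785231094 .nil) (.node 1 8 (.cons 0x9432567810 .nil) (.node 1 9 (.cons 0x8765234910 .nil) (.node 0 8 (.cons 0x9432567801 .nil) (.leaf 0x5678032194 3 .done) .done) .done) .done) .done) (.node 5 7 .nil (.node 0 6 (.cons 0x8906754321 .nil) (.leaf 0x4578906123 4 (.leaf 0x987543216 1 .done)) (.node 1 5 (.cons 0x2349876510 .nil) (.node 5 9 .nil (.node 0 8 (.cons 0x9432567801 .nil) (.leaf 0x9543216780 3 (.leaf 0x7809543216 4 .done)) .done) .done) .done)) .done)) .done)) (.leaf 0x4521678903 4 (.node 0 7 (.cons 0x6523498701 .nil) (.leaf 0x789432561 2 (.node 3 5 .nil (.node 0 4 (.cons 0x2356789401 .nil) (.leaf 0x9876125340 7 (.leaf 0x3567894012 6 (.leaf 0x3567894012 5 .done))) (.node 0 6 (.cons 0x7894325601 .nil)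 (.node 3 7 (.cons 0x6125437890 .nil) (.node 0 2 (.cons 0x5678943201 .nil) (.node 4 6 (.cons 0x9873461052 .nil) (.leaf 0x1025378946 3 .done) .done) (.leaf 0x1254378906 2 (.leaf 0x2160987345 7 .done))) (.node 0 2 (.cons 0x5678943201 .nil) (.node 2 9 (.cons 0x4329876501 .nil) (.node 4 8 (.cons 0x5678492301 .nil) (.leaf 0x1076534892 5 (.leaf 0x1076534892 6 (.leaf 0x921678453 6 .done))) (.node 5 8 (.cons 0x7658943201 .nil) (.node 1 5 (.cons 0x2349876510 .nil) (.node 5 7 (.cons 0x8902167543 .nil) .done .done) (.leaf 0x2903458761 2 .done)) .done)) .done) .done)) .done)) .done)) (.leaf 0x1678903452 3 .done)))) (.node 2 5 (.cons 0x3452167890 .nil) (.node 3 5 (.cons 0x8761094352 .nil) (.node 3 9 (.cons 0x8761254390 .nil) (.node 4 8 (.cons 0x5216784390 .nil) (.node 1 8 (.cons 0x9432567810 .nil) (.node 6 9 (.cons 0x5234967810 .nil) (.leaf 0x1052349678 4 (.node 0 6 (.cons 0x7843906125 .nil) (.node 5 7 (.cons 0x4576981230 .nil) (.leaf 0x9348752160 8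 (.leaf 0x184967523 7 .done)) .done) .done)) (.node 3 6 (.cons 0x1876325490 .nil) (.leaf 0x7810945236 7 (.leaf 0x8763254901 5 .done)) .done)) (.leaf 0x6784390521 7 (.leaf 0x9348761250 7 .done))) .done) .done) (.node 1 8 (.cons 0x7652349810 .nil) (.node 0 7 (.cons 0x8943256701 .nil) (.node 3 8 (.cons 0x7612543890 .nil) (.node 2 8 (.cons 0x7612890345 .nil) (.node 1 3 (.cons 0x9452831670 .nil) (.leaf 0x9452831670 0 .done) (.node 1 5 (.cons 0x2349876510 .nil) (.leaf 0x2834907615 8 (.leaf 0x7615283490 5 .done)) .done)) (.leaf 0x6125438907 4 (.leaf 0x6125438907 3 .done))) (.node 0 8 (.cons 0x7652349801 .nil) (.node 1 7 (.cons 0x8943256710 .nil) (.leaf 0x6523498017 5 (.node 0 6 (.cons 0x6071894523 .nil) (.node 3 9 (.cons 0x6712543980 .nil) (.leaf 0x7125439806 1 (.leaf 0x7125439806 3 .done)) .done) .done)) .done) (.leaf 0x9432567018 5 .done))) (.node 1 7 (.cons 0x8943256710 .nil) (.node 0 8 (.cons 0x7652349801 .nil) (.node 5 8 (.cons 0x8523490176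 .nil) (.node 6 8 (.cons 0x2309458671 .nil) (.leaf 0x6710943258 0 (.leaf 0x9432586710 8 .done)) (.node 4 8 .nil (.node 2 9 (.cons 0x4329876501 (.cons 0x9234871056 (.cons 0x3017658492 (.cons 0x9217658430 .nil)))) .done .done) .done)) (.leaf 0x6523498017 6 (.leaf 0x6523498017 5 .done))) (.node 0 6 (.cons 0x3254981760 .nil) (.leaf 0x4981760325 4 (.leaf 0x4981760325 3 .done)) .done)) (.node 0 7 (.cons 0x8943256701 .nil) (.leaf 0x2567018943 6 (.leaf 0x5670321894 5 (.leaf 0x765234981 2 .done))) .done))) (.leaf 0x4521678903 8 (.leaf 0x1678903452 7 .done)))) (.node 4 6 .nil (.node 5 7 (.cons 0x6457890321 (.cons 0x9875643012 .nil)) (.leaf 0x987546123 3 (.leaf 0x6432109875 1 .done)) (.node 4 7 .nil (.node 2 9 (.cons 0x7892165430 (.cons 0x8923476501 (.cons 0x5612987430 .nil))) (.leaf 0x3478921650 0 (.leaf 0x3478921650 2 .done)) (.node 2 7 (.cons 0x9872165430 .nil) (.leaf 0x1654309872 4 (.node 1 4 (.cons 0x9876501432 .nil) (.node 3 8 (.cons 0x5672389410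 .nil) (.leaf 0x8327650149 2 (.leaf 0x4167238905 8 (.leaf 0x4509832761 2 .done))) (.node 3 9 (.cons 0x4561278930 .nil) (.node 4 8 (.cons 0x7216548930 .nil) (.leaf 0x7650148932 2 .done) (.node 2 4 (.cons 0x3987241650 .nil) (.leaf 0x9305614278 4 .done) .done)) .done)) (.node 2 5 (.cons 0x1652789430 .nil) (.leaf 0x4301652789 5 (.node 2 4 (.cons 0x9872430561 .nil) (.node 2 9 (.cons 0x7892165430 .nil) (.node 2 6 (.cons 0x3054789261 .nil) .done .done) .done) (.node 2 4 (.cons 0x9872430561 .nil) (.node 1 4 (.cons 0x9876501432 .nil) (.node 2 9 (.cons 0x7892165430 .nil) (.leaf 0x8765014329 4 .done) .done) .done) (.leaf 0x1678903452 4 .done)))) .done))) (.node 0 7 (.cons 0x9870345612 .nil) (.node 5 7 .nil (.node 0 2 (.cons 0x5678943201 (.cons 0x8902167543 .nil)) (.leaf 0x1657894302 1 .done) (.node 2 4 (.cons 0x6578942301 .nil) (.leaf 0x5789423016 8 (.node 0 2 (.cons 0x5678943201 .nil) (.node 0 4 .nil (.node 1 9 (.cons 0x8756491032 (.cons 0x3219876540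 .nil)) (.leaf 0x2304567891 4 (.leaf 0x4657891230 2 .done)) .done) (.node 3 9 (.cons 0x6547893021 .nil) (.leaf 0x216547893 7 (.leaf 0x2039874561 5 .done)) .done)) (.leaf 0x5789423016 0 .done))) .done)) (.node 0 6 .nil (.node 2 9 (.cons 0x7892165430 (.cons 0x5601298743 (.cons 0x3065478921 (.cons 0x5603478921 .nil)))) (.leaf 0x5612987034 3 .done) (.node 0 4 .nil (.node 1 9 (.cons 0x6540789123 (.cons 0x3219876540 .nil)) (.node 0 2 (.cons 0x5678943201 .nil) (.leaf 0x7654320198 5 .done) (.leaf 0x2304567891 4 .done)) .done) .done)) .done)) .done))) (.node 5 7 (.cons 0x8901234675 .nil) (.node 6 9 (.cons 0x8754309612 .nil) (.node 1 8 (.cons 0x4965781032 .nil) (.leaf 0x9645781230 8 (.leaf 0x9032187546 2 (.leaf 0x1230964578 0 .done))) (.node 6 8 (.cons 0x9034578612 .nil) (.node 1 8 (.cons 0x9032186457 .nil) (.node 0 4 (.cons 0x9657812340 .nil) (.leaf 0x4321875690 1 (.leaf 0x1875690432 3 .done)) (.node 2 9 (.cons 0x7892165430 .nil) (.leaf 0x7501892346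 2 (.leaf 0x1687543092 4 (.leaf 0x6750189234 4 .done))) .done)) (.node 2 9 (.cons 0x7892165430 .nil) (.leaf 0x7543092168 1 (.leaf 0x4578612903 3 (.leaf 0x7543092168 7 .done))) .done)) .done)) (.node 2 4 (.cons 0x6578942301 .nil) (.leaf 0x7561032498 7 (.node 3 6 (.cons 0x3612457890 .nil) (.leaf 0x7542163098 5 (.leaf 0x987542163 1 (.node 5 8 (.cons 0x4675890123 .nil) (.node 4 7 (.cons 0x1236475890 .nil) (.node 0 4 (.cons 0x7589046321 .nil) (.node 0 7 (.cons 0x9870345612 .nil) .done .done) (.leaf 0x4758901236 2 (.leaf 0x9857463210 6 .done))) (.leaf 0x2109857643 0 .done)) .done))) (.leaf 0x5789423016 0 .done))) (.node 0 7 (.cons 0x9870345612 .nil) (.node 2 9 (.cons 0x7892165430 .nil) (.node 4 7 (.cons 0x8923476501 .nil) (.node 6 8 (.cons 0x7568921034 .nil) (.leaf 0x8921034756 1 (.leaf 0x3012986574 7 (.leaf 0x3012986574 4 .done))) .done) (.leaf 0x3456129870 1 (.leaf 0x9210346578 2 (.leaf 0x3456129870 4 .done)))) (.node 2 9 (.cons 0x7892165430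 .nil) (.leaf 0x5612987034 3 (.node 1 4 (.cons 0x9876501432 .nil) (.leaf 0x5014329876 5 (.node 6 9 (.cons 0x3214569870 .nil) (.leaf 0x5698703214 8 (.leaf 0x8703214569 7 .done)) (.leaf 0x3298765014 8 .done))) (.leaf 0x9210346578 2 (.leaf 0x8921654307 4 .done)))) .done)) .done))) .done))) .done)))
noncomputable def tc9_9_1 : T := (.node 2 5 (.cons 0x8761094325 .nil) (.node 5 8 (.cons 0x6785234901 .nil) (.leaf 0x1094325876 1 (.node 5 7 .nil (.node 4 6 (.cons 0x9012587643 (.cons 0x3467589012 .nil)) (.leaf 0x1098756432 4 .done) (.node 4 8 (.cons 0x9054876123 .nil) (.node 2 9 (.cons 0x9234875610 .nil) (.leaf 0x7843290165 2 (.leaf 0x7843290165 8 (.leaf 0x8756109234 7 (.node 0 8 (.cons 0x9432567801 .nil) (.node 1 5 (.cons 0x2349876510 .nil) (.leaf 0x923451678 8 (.leaf 0x8092345167 7 .done)) .done) .done)))) (.node 3 9 (.cons 0x9321678450 .nil) (.leaf 0x7612390548 0 (.leaf 0x3948761052 2 (.node 2 4 (.cons 0x5876124390 .nil) (.leaf 0x8761243905 2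 (.leaf 0x8761243905 8 .done)) .done))) .done)) .done)) (.node 5 7 .nil (.node 4 6 (.cons 0x2346758901 .nil) (.leaf 0x3210985764 4 (.leaf 0x1098756432 4 .done)) (.node 0 2 (.cons 0x5678943201 .nil) (.node 1 7 (.cons 0x9856710234 .nil) (.leaf 0x234985671 3 (.leaf 0x6710234985 4 .done)) (.node 0 8 (.cons 0x9432567801 .nil) (.node 3 9 (.cons 0x6780934521 .nil) (.node 1 7 (.cons 0x2176543980 .nil) (.node 0 6 (.cons 0x5439806712 .nil) (.leaf 0x7125439806 5 (.leaf 0x8934521760 2 .done)) (.leaf 0x8934567120 5 .done)) (.leaf 0x4390876125 4 (.leaf 0x7809345216 3 .done))) .done) .done)) .done)) .done))) (.node 1 5 (.cons 0x2349876510 .nil) (.node 5 9 (.cons 0x8761234590 .nil) (.node 5 8 (.cons 0x5876109432 .nil) (.node 2 6 (.cons 0x7894326510 .nil) (.node 3 5 .nil (.node 1 4 (.cons 0x6789054123 (.cons 0x7623589014 (.cons 0x5326789410 (.cons 0x3541267890 .nil)))) .done (.node 1 8 (.cons 0x7652349810 .nil) (.node 4 8 (.cons 0x5326784901 .nil) (.leaf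 0x2109534876 1 (.leaf 0x126784359 5 .done)) (.leaf 0x3549018762 8 (.leaf 0x3267810945 2 .done))) .done)) (.node 0 7 (.cons 0x1562349870 .nil) (.leaf 0x4326510789 7 (.leaf 0x7894326510 0 (.leaf 0x3498701562 8 .done))) .done)) .done) .done) (.node 5 9 (.cons 0x8761234590 .nil) (.node 0 2 (.cons 0x5678943201 .nil) (.leaf 0x6789432015 5 (.node 5 8 (.cons 0x5876109432 .nil) (.node 0 8 (.cons 0x7652349801 .nil) (.node 3 9 (.cons 0x5439087612 .nil) (.node 1 7 (.cons 0x8943256710 .nil) (.node 3 6 (.cons 0x2154367890 .nil) (.leaf 0x3205498716 0 (.leaf 0x1209876345 4 .done)) (.leaf 0x8934567120 5 .done)) (.leaf 0x876125439 4 .done)) .done) .done) .done)) .done) .done)) (.node 5 8 (.cons 0x5876109432 .nil) (.node 1 5 (.cons 0x2349876510 .nil) (.node 5 9 (.cons 0x8761234590 .nil) .done .done) (.leaf 0x1094325876 5 .done)) .done))) (.node 0 7 (.cons 0x8907612345 .nil) (.node 5 8 (.cons 0x7612345890 .nil) (.leaf 0x6123458907 1 (.leaf 0x6123458907 7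 (.leaf 0x6123458907 4 .done))) (.node 4 7 (.cons 0x8905476123 .nil) (.node 5 7 .nil (.node 4 6 (.cons 0x8901234675 .nil) (.node 0 2 (.cons 0x5678943201 (.cons 0x6578943201 .nil)) (.leaf 0x234987561 2 (.node 5 8 (.cons 0x7612345890 .nil) (.leaf 0x9432016758 3 (.leaf 0x7589432016 4 (.leaf 0x3210985764 4 .done))) .done)) (.leaf 0x1098756432 4 .done)) (.node 2 8 (.cons 0x1675432890 .nil) (.node 5 8 (.cons 0x7612345890 .nil) (.node 4 8 (.cons 0x5761098432 .nil) (.node 3 8 (.cons 0x5438907612 .nil) (.leaf 0x6745098321 4 (.node 2 5 (.cons 0x9843257610 .nil) (.leaf 0x2167098345 1 (.leaf 0x7098345216 3 .done)) .done)) .done) .done) (.leaf 0x3457610982 4 (.leaf 0x9016754328 4 (.node 4 6 .nil (.node 1 5 (.cons 0x2349876510 (.cons 0x3287649051 (.cons 0x7516432890 .nil))) (.leaf 0x5764328901 0 .done) (.node 1 4 (.cons 0x5761432890 .nil) (.node 3 6 (.cons 0x4509876321 .nil) (.leaf 0x541236789 5 (.leaf 0x4509876321 1 (.leaf 0x1475098236 4 .done))) (.node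 3 6 (.cons 0x9876321450 .nil) (.leaf 0x2367890541 8 (.leaf 0x7890541236 7 (.leaf 0x8763214509 5 .done))) .done)) .done)) .done)))) .done)) (.node 0 8 (.cons 0x9805476123 .nil) (.node 4 8 .nil (.node 3 5 (.cons 0x8947610532 (.cons 0x9843567012 (.cons 0x9847610532 .nil))) (.leaf 0x2167489053 6 (.leaf 0x5321674890 2 .done)) (.node 5 8 (.cons 0x7612345890 .nil) (.node 5 7 (.cons 0x7561089432 .nil) (.node 2 9 (.cons 0x5892347610 .nil) (.leaf 0x5761092348 7 (.leaf 0x5761092348 4 (.node 6 9 (.cons 0x2349657801 .nil) (.leaf 0x4578096123 5 (.leaf 0x875694321 0 .done)) (.leaf 0x6758432901 3 .done)))) .done) .done) .done)) (.node 3 8 (.cons 0x9832167450 .nil) (.leaf 0x8321674509 2 (.node 2 5 (.cons 0x9834521670 .nil) (.leaf 0x6105238947 6 (.node 6 9 (.cons 0x1254389670 .nil) (.leaf 0x7698345210 8 (.leaf 0x8345210769 7 (.node 1 5 (.cons 0x2349876510 .nil) (.node 1 7 (.cons 0x8943256710 .nil) (.node 7 9 (.cons 0x4325679801 .nil) .done .done) (.leaf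 0x5234769801 0 (.leaf 0x4769801523 7 .done))) .done))) (.leaf 0x2501674983 2 .done))) (.node 2 5 (.cons 0x1674983250 .nil) (.leaf 0x2167098345 1 (.leaf 0x7098345216 3 (.leaf 0x9076125438 7 .done))) .done))) .done)) .done)) (.node 5 8 (.cons 0x7612345890 .nil) (.leaf 0x3458907612 5 (.leaf 0x9854321670 8 (.node 1 5 (.cons 0x2349876510 .nil) (.node 5 7 .nil (.node 2 8 (.cons 0x9432876510 .nil) (.leaf 0x3490156782 7 (.leaf 0x3457610982 4 (.leaf 0x9016754328 4 (.leaf 0x1670982345 0 .done)))) (.node 2 8 (.cons 0x9432876510 .nil) (.leaf 0x3490156782 7 (.node 1 3 (.cons 0x7613289450 .nil) (.leaf 0x2894507613 7 (.node 0 2 (.cons 0x5678943201 .nil) (.leaf 0x3205498761 4 (.node 1 7 (.cons 0x9856710234 .nil) (.leaf 0x6710234985 4 .done) (.node 3 5 (.cons 0x2894357610 .nil) (.leaf 0x4982016753 6 (.node 2 6 (.cons 0x7534982610 .nil) (.leaf 0x1075349826 4 (.leaf 0x7851094326 4 (.leaf 0x3498756201 1 .done))) .done)) .done))) .done)) (.node 0 8 (.cons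 0x7615490823 .nil) (.node 0 3 (.cons 0x6782309451 .nil) (.leaf 0x2309451678 4 (.node 0 2 (.cons 0x5678943201 .nil) (.node 0 4 (.cons 0x9401567823 .nil) (.node 0 6 (.cons 0x3287609451 .nil) .done .done) .done) .done)) (.node 3 7 (.cons 0x8237615490 .nil) (.leaf 0x9451673280 7 (.leaf 0x9451673280 1 (.leaf 0x9451673280 4 .done))) .done)) (.leaf 0x1670982345 0 .done)))) .done)) (.node 2 6 (.cons 0x7894326510 .nil) (.leaf 0x1562349870 5 (.leaf 0x5107894326 7 (.leaf 0x3498701562 8 .done))) (.node 0 2 (.cons 0x5678943201 .nil) (.leaf 0x6789432015 5 (.node 3 6 (.cons 0x2154367890 .nil) (.leaf 0x1543678902 6 (.leaf 0x6345120987 2 (.node 1 7 (.cons 0x4367158902 .nil) (.node 5 7 (.cons 0x8902157634 .nil) .done (.leaf 0x234985671 3 (.leaf 0x6710234985 4 .done))) .done))) (.node 5 7 (.cons 0x6578943201 .nil) (.node 2 8 (.cons 0x5432890761 .nil) (.leaf 0x7615432890 7 (.leaf 0x5761094328 1 (.node 2 7 (.cons 0x1672345890 .nil) (.node 3 6 (.cons 0x2154367890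 .nil) (.leaf 0x7201563498 2 (.leaf 0x8720156349 4 (.leaf 0x1209876345 4 .done))) (.leaf 0x6109854327 4 .done)) .done))) .done) .done))) .done))) .done))) .done))) (.node 0 2 (.cons 0x5678943201 .nil) (.node 1 5 (.cons 0x2349876510 .nil) (.node 2 6 (.cons 0x8762349015 .nil) (.node 5 8 (.cons 0x3209458761 .nil) (.node 2 5 .nil (.node 0 3 (.cons 0x8761549032 (.cons 0x4523098761 .nil)) (.leaf 0x6125430987 2 (.leaf 0x8945230167 5 .done)) .done) (.leaf 0x5109432678 1 (.leaf 0x3490158762 4 .done))) (.node 1 8 (.cons 0x5187623490 .nil) (.node 5 8 (.cons 0x1587623490 .nil) (.node 1 3 (.cons 0x2678513490 .nil) (.leaf 0x2094587613 0 (.leaf 0x2678513490 0 .done)) (.node 1 3 (.cons 0x4987650132 .nil) (.leaf 0x231678549 7 (.leaf 0x7613209458 7 .done)) .done)) (.leaf 0x7623490518 6 (.leaf 0x1876234905 2 .done))) .done)) (.leaf 0x234987651 2 (.node 2 5 .nil (.node 0 3 (.cons 0x4523098761 .nil) (.leaf 0x1678945230 1 (.leaf 0x6125430987 2 (.leaf 0x8945230167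 5 .done))) (.node 2 6 (.cons 0x7894326510 .nil) (.node 0 7 (.cons 0x1562349870 .nil) (.leaf 0x7894326510 0 (.leaf 0x3498701562 8 .done)) .done) .done)) (.leaf 0x6789432015 5 .done)))) (.node 2 5 .nil (.node 0 3 (.cons 0x4523098761 .nil) (.leaf 0x1678945230 1 (.leaf 0x7612543098 4 (.leaf 0x8945230167 5 .done))) (.node 5 8 (.cons 0x7658943201 .nil) (.leaf 0x2349016785 4 (.leaf 0x7610943258 4 (.node 5 7 .nil (.node 2 4 (.cons 0x3249876501 (.cons 0x3249875610 .nil)) (.node 3 5 (.cons 0x8942357610 .nil) (.leaf 0x7894235016 1 .done) .done) (.node 1 7 (.cons 0x9856710234 .nil) (.node 4 7 (.cons 0x9856743201 .nil) (.node 1 3 (.cons 0x9854761320 .nil) (.leaf 0x6745890231 4 (.leaf 0x2098547613 4 (.node 2 4 (.cons 0x3249876501 .nil) (.leaf 0x2498765013 2 .done) .done))) .done) (.leaf 0x234985671 3 .done)) .done)) .done))) (.node 0 7 (.cons 0x6523498701 .nil) (.node 1 7 (.cons 0x6523498710 .nil) (.node 5 8 (.cons 0x7658943201 .nil) (.leaf 0x234985671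 4 (.leaf 0x234985671 3 .done)) (.node 3 6 (.cons 0x2563498710 .nil) (.leaf 0x5201789436 8 (.node 1 8 (.cons 0x6187094523 .nil) (.node 4 7 (.cons 0x8905476321 .nil) (.leaf 0x8123674509 2 .done) (.leaf 0x2549078163 6 .done)) (.node 4 7 (.cons 0x1632547890 .nil) (.leaf 0x1632547890 0 .done) (.leaf 0x9436520178 5 .done)))) .done)) (.node 1 7 (.cons 0x6523498710 .nil) (.node 6 8 (.cons 0x9432568710 .nil) (.node 5 7 (.cons 0x3457689021 .nil) (.node 5 8 (.cons 0x7658943201 .nil) .done .done) (.node 1 5 (.cons 0x2349876510 .nil) (.leaf 0x234517689 2 (.leaf 0x986715432 8 .done)) (.leaf 0x9432568710 0 .done))) (.node 5 8 (.cons 0x7658943201 .nil) (.leaf 0x234985671 4 (.leaf 0x234985671 3 .done)) .done)) (.leaf 0x1652349870 2 .done))) .done))) (.node 5 7 (.cons 0x6578943201 .nil) (.node 0 7 (.cons 0x3207894561 .nil) (.node 3 9 (.cons 0x6543987021 .nil) (.leaf 0x216543987 7 (.leaf 0x2078934561 2 (.node 3 7 (.cons 0x1654987320 .nil) (.node 1 7 .nil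 (.node 3 8 (.cons 0x9456178320 .nil) (.leaf 0x8945617023 1 (.leaf 0x7165490238 7 (.leaf 0x1783209456 5 .done))) .done) (.leaf 0x2378945610 8 .done)) .done))) (.node 1 9 (.cons 0x6543207891 .nil) (.leaf 0x234561987 7 (.leaf 0x2078916543 2 (.leaf 0x2078916543 0 .done))) .done)) (.node 0 7 (.cons 0x3207894561 .nil) (.node 4 7 .nil (.node 5 9 (.cons 0x8956743210 (.cons 0x6598743210 .nil)) (.leaf 0x6102347895 2 .done) (.node 1 7 .nil (.node 3 7 (.cons 0x1654987320 .nil) (.leaf 0x2378945610 8 (.node 0 4 (.cons 0x5409876123 (.cons 0x8940237165 .nil)) (.node 1 4 (.cons 0x8941732056 .nil) (.leaf 0x2378941650 3 (.leaf 0x2378941650 1 .done)) .done) .done)) .done) .done)) (.node 1 9 (.cons 0x6543207891 .nil) (.leaf 0x234561987 7 (.leaf 0x2078916543 2 (.leaf 0x2078916543 0 .done))) .done)) (.leaf 0x6102349875 2 .done))) .done))) (.leaf 0x9876123450 3 .done))))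
noncomputable def tc9_9_2 : T := (.node 1 5 (.cons 0x2349876510 .nil) (.node 4 8 (.cons 0x9843210567 .nil) (.node 3 8 (.cons 0x2387615490 .nil) (.node 4 7 (.cons 0x2389054761 .nil) (.leaf 0x6745098321 4 (.node 3 5 (.cons 0x4532167890 .nil) (.node 0 3 (.cons 0x8761549032 .nil) (.node 2 5 (.cons 0x9487610325 .nil) (.node 3 6 (.cons 0x9487632510 .nil) (.leaf 0x1523678490 3 (.leaf 0x7632510948 4 .done)) .done) .done) .done) .done)) (.node 2 8 (.cons 0x9432876510 .nil) (.node 4 7 (.cons 0x3289476501 .nil) (.node 2 7 (.cons 0x9483276150 .nil) (.node 5 8 (.cons 0x6723498501 .nil) (.leaf 0x947612385 4 (.leaf 0x167234985 4 .done)) (.leaf 0x5167238490 3 .done)) (.node 1 3 (.cons 0x6782315490 .nil) (.leaf 0x6749823105 4 (.leaf 0x7498231056 2 .done)) .done)) .done) .done)) (.node 4 7 (.cons 0x8905476123 .nil) (.node 0 4 (.cons 0x5409876123 .nil) (.node 4 6 .nil (.node 2 5 (.cons 0x7894016523 (.cons 0x8764901523 .nil)) (.leaf 0x7643251098 2 .done)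 (.node 0 3 (.cons 0x8761549032 .nil) (.node 2 8 (.cons 0x9432876510 .nil) (.leaf 0x7615490328 5 (.leaf 0x3094516782 2 (.node 2 7 (.cons 0x9456187230 .nil) (.node 5 8 (.cons 0x6723498501 .nil) (.leaf 0x4903216785 2 (.leaf 0x167234985 4 .done)) (.leaf 0x9810567234 4 .done)) .done))) (.node 2 4 (.cons 0x5423098761 .nil) (.leaf 0x5167890324 2 .done) .done)) .done)) .done) (.node 1 7 (.cons 0x8905432176 .nil) (.node 1 9 .nil (.node 0 8 (.cons 0x9805476123 (.cons 0x6745089123 (.cons 0x6780915432 .nil))) .done (.node 1 4 .nil (.node 2 5 (.cons 0x8947610523 (.cons 0x3256789410 .nil)) (.node 3 5 (.cons 0x4532167890 (.cons 0x2354167890 .nil)) .done .done) .done) .done)) .done) .done)) .done)) (.node 0 2 (.cons 0x5678943201 .nil) (.leaf 0x6789432015 5 (.node 1 9 .nil (.node 0 4 (.cons 0x5409876123 .nil) (.leaf 0x4321987650 0 (.leaf 0x1987650432 7 .done)) (.node 0 3 (.cons 0x6789034512 .nil) (.node 0 4 (.cons 0x5409876123 .nil) (.node 3 5 (.cons 0x4532167890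 .nil) (.leaf 0x9876123540 5 (.node 5 8 (.cons 0x2309458761 .nil) (.leaf 0x4903216785 2 .done) .done)) .done) (.node 2 6 (.cons 0x3451267890 .nil) (.leaf 0x345126789 2 (.leaf 0x9034512678 4 (.node 2 4 (.cons 0x5423098761 .nil) (.leaf 0x6789032451 5 (.node 5 7 (.cons 0x6578943201 .nil) (.leaf 0x5423098167 1 (.leaf 0x9034267518 5 (.leaf 0x6102349875 2 .done))) (.leaf 0x6789032451 6 .done))) .done))) .done)) .done)) (.node 1 9 .nil (.node 0 4 (.cons 0x5409876123 .nil) (.leaf 0x4321987650 0 (.node 0 3 (.cons 0x6789034512 (.cons 0x7891654032 .nil)) (.leaf 0x8912304567 2 .done) (.leaf 0x1987650432 7 .done))) (.node 1 7 (.cons 0x8905432176 .nil) (.node 1 4 (.cons 0x5678941023 .nil) (.node 4 7 (.cons 0x8905476123 .nil) (.node 4 8 (.cons 0x9843210567 .nil) .done .done) .done) (.node 1 3 (.cons 0x8945023176 .nil) (.node 1 4 (.cons 0x5678941023 .nil) .done .done) .done)) .done)) .done))) .done)) (.node 1 7 (.cons 0x8905432176 .nil) (.node 4 7 (.cons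 0x8905476123 .nil) (.node 3 7 (.cons 0x2376189450 .nil) (.node 3 8 (.cons 0x9832167450 .nil) (.leaf 0x8321674509 2 (.node 3 5 (.cons 0x4532167890 .nil) (.node 2 8 (.cons 0x1678235490 .nil) (.leaf 0x167498235 5 (.leaf 0x3549016782 8 .done)) (.node 0 3 (.cons 0x7618945032 .nil) (.node 0 6 (.cons 0x9874532160 .nil) (.leaf 0x5478906123 8 (.leaf 0x3547890612 7 .done)) .done) .done)) .done)) (.node 2 7 (.cons 0x3276189450 .nil) (.node 3 8 (.cons 0x9832167450 .nil) (.leaf 0x8321674509 2 (.node 1 4 (.cons 0x6723890541 .nil) (.leaf 0x2765014983 3 (.leaf 0x2765014983 4 (.leaf 0x1056723894 1 .done))) .done)) .done) .done)) (.node 4 8 (.cons 0x9843210567 .nil) (.node 7 9 (.cons 0x6798123450 .nil) (.node 0 7 (.cons 0x9812345076 .nil) (.node 5 7 (.cons 0x6750189432 .nil) .done .done) (.leaf 0x3210567984 5 .done)) .done) .done)) (.node 4 7 (.cons 0x8905476123 .nil) (.node 3 8 (.cons 0x7612389054 .nil) (.node 2 5 (.cons 0x9478325610 .nil) (.leaf 0x4783256109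 2 (.leaf 0x7490165238 7 (.node 2 8 (.cons 0x6712890543 .nil) (.node 3 6 (.cons 0x6382509471 .nil) (.leaf 0x9052836174 5 (.leaf 0x7128905436 5 (.leaf 0x4509821763 2 (.leaf 0x5094716382 1 .done)))) .done) .done))) (.leaf 0x6745098321 4 (.node 2 8 (.cons 0x6712890543 .nil) (.node 3 5 (.cons 0x9478235610 .nil) (.leaf 0x4782356109 2 (.leaf 0x7490165328 7 (.leaf 0x3287490165 0 .done))) (.node 3 9 (.cons 0x8239476501 .nil) (.node 1 3 (.cons 0x7650132894 .nil) (.node 3 6 (.cons 0x8905436712 .nil) (.leaf 0x4509821763 0 .done) (.leaf 0x2310567498 4 .done)) (.leaf 0x2394765018 8 .done)) .done)) .done))) (.node 3 8 (.cons 0x9832167450 .nil) (.leaf 0x8321674509 2 (.node 2 7 (.cons 0x3276189450 .nil) (.leaf 0x7234981056 2 (.node 1 4 (.cons 0x6723890541 .nil) (.leaf 0x3890541672 4 (.leaf 0x2765014983 3 (.leaf 0x2765014983 4 .done))) (.node 3 7 (.cons 0x2376189450 .nil) (.node 0 3 (.cons 0x7618945032 .nil) (.node 3 5 (.cons 0x4981672350 .nil) .done .done)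 .done) .done))) (.node 2 4 (.cons 0x9834217650 .nil) (.leaf 0x7124389056 7 (.node 3 9 (.cons 0x8932167450 .nil) (.node 2 6 (.cons 0x7623498105 .nil) (.node 5 9 (.cons 0x5943267810 .nil) (.leaf 0x6234950187 0 (.leaf 0x2678105943 7 (.leaf 0x6234950187 8 .done))) (.node 2 7 (.cons 0x3276189450 .nil) (.leaf 0x7234981056 2 (.node 2 8 (.cons 0x5016749823 .nil) (.node 2 9 (.cons 0x4389217650 .nil) .done .done) .done)) .done)) (.node 0 6 (.cons 0x5478932160 .nil) (.leaf 0x6123987450 0 (.leaf 0x9321605478 8 (.leaf 0x3987450612 7 .done))) .done)) (.leaf 0x8342176509 7 .done))) .done))) .done)) .done)) (.node 1 7 (.cons 0x8905432176 .nil) (.node 1 5 (.cons 0x2349876510 .nil) (.node 6 8 (.cons 0x7689054321 .nil) (.node 1 9 (.cons 0x8671905432 .nil) (.node 5 8 (.cons 0x2345867190 .nil) (.node 0 8 (.cons 0x7654321980 .nil) (.node 2 8 (.cons 0x5432867190 .nil) (.node 4 8 (.cons 0x9843210567 .nil) .done (.leaf 0x7682345091 7 .done)) .done) .done) .done)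 (.leaf 0x2345098671 5 .done)) .done) (.node 6 8 (.cons 0x9867123450 .nil) (.node 2 5 (.cons 0x9867105234 .nil) (.node 1 5 (.cons 0x2349876510 .nil) (.node 5 8 (.cons 0x6785234901 .nil) (.node 2 6 (.cons 0x7894326510 .nil) (.leaf 0x2671058943 2 (.node 0 6 (.cons 0x5178943260 .nil) (.leaf 0x6234987150 0 (.leaf 0x4987150623 7 .done)) .done)) .done) .done) (.leaf 0x3250176894 4 (.leaf 0x7105234986 3 .done))) (.node 2 5 (.cons 0x1768943250 .nil) (.leaf 0x5234986710 2 (.node 1 5 (.cons 0x2349876510 .nil) (.node 3 5 (.cons 0x4532167890 .nil) (.node 5 8 (.cons 0x6785109432 .nil) (.node 2 6 (.cons 0x4985017623 .nil) (.node 1 3 (.cons 0x1326785490 .nil) (.leaf 0x8762310945 2 (.leaf 0x8549013267 8 .done)) (.leaf 0x2671058943 2 .done)) .done) .done) .done) (.node 0 2 (.cons 0x5678943201 .nil) (.node 2 6 (.cons 0x7621890543 .nil) (.node 5 8 (.cons 0x5894326710 .nil) (.node 6 9 (.cons 0x8967123450 .nil) (.leaf 0x234965871 8 .done) (.leaf 0x3267105894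 4 .done)) .done) (.node 5 7 (.cons 0x6578943201 .nil) (.node 2 7 (.cons 0x8943276501 .nil) (.node 3 7 (.cons 0x1654987320 .nil) (.leaf 0x2378945610 8 .done) .done) (.leaf 0x1689432057 2 (.leaf 0x6102349875 2 .done))) .done)) .done))) .done)) .done)) .done)))
noncomputable def tc9_9_3 : T := (.leaf 0x4321678905 6 (.node 0 2 (.cons 0x5678943201 .nil) (.node 2 5 .nil (.node 0 7 (.cons 0x8907612345 (.cons 0x8907612543 .nil)) (.leaf 0x5234987016 5 (.leaf 0x5234987016 6 .done)) (.node 0 7 (.cons 0x6523498701 .nil) (.leaf 0x5234987016 5 (.node 3 8 (.cons 0x5438907612 .nil) (.node 7 9 (.cons 0x2165438970 .nil) (.leaf 0x1654389702 6 (.leaf 0x1654389702 5 .done)) (.node 7 9 (.cons 0x6125438970 .nil) (.node 5 9 (.cons 0x8765943201 .nil) (.node 1 9 (.cons 0x6783459120 .nil) (.node 0 6 (.cons 0x7891234560 .nil) (.leaf 0x7891234560 0 (.leaf 0x9543876021 1 .done)) .done) .done) (.node 4 6 (.cons 0x5216438970 .nil) (.leaf 0x7983461250 8 (.leaf 0x7983461250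 0 .done)) .done)) (.leaf 0x983452167 5 (.leaf 0x9076125438 7 .done)))) (.leaf 0x5234987016 6 .done))) (.node 2 7 (.cons 0x8943276501 .nil) (.node 5 8 (.cons 0x5894327610 .nil) (.leaf 0x7234985016 1 (.leaf 0x7234985016 4 (.leaf 0x7234985016 3 .done))) (.node 2 6 .nil (.node 1 5 (.cons 0x2349876510 (.cons 0x8762349015 (.cons 0x7894326510 (.cons 0x3451267890 .nil)))) .done .done) .done)) .done))) (.node 5 7 (.cons 0x6578943201 .nil) (.node 2 5 .nil (.node 0 7 (.cons 0x8907612345 (.cons 0x8907612543 .nil)) (.leaf 0x5234987016 5 (.leaf 0x5234987016 6 .done)) (.node 2 7 (.cons 0x8943276501 .nil) (.node 5 8 (.cons 0x5894327610 .nil) (.leaf 0x7234985016 1 (.leaf 0x7234985016 4 (.leaf 0x7234985016 3 .done))) (.node 2 8 (.cons 0x8234901675 .nil) (.node 1 8 (.cons 0x1894327650 .nil) (.node 0 7 (.cons 0x5618943270 .nil) (.leaf 0x8943270561 7 (.leaf 0x8943270561 3 (.leaf 0x8943270561 4 .done))) (.leaf 0x2765018943 2 (.node 0 3 (.cons 0x4987652301 .nil)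 (.leaf 0x5672189430 6 (.leaf 0x2756189430 4 .done)) .done))) .done) .done)) .done)) (.leaf 0x234987561 5 (.node 3 8 (.cons 0x2167543890 .nil) (.node 1 3 (.cons 0x6578943102 .nil) (.node 2 6 (.cons 0x3498756201 .nil) (.node 2 5 (.cons 0x6257834901 .nil) (.node 0 8 (.cons 0x6780945231 .nil) (.leaf 0x3254908761 4 (.node 2 7 (.cons 0x6127543890 .nil) (.leaf 0x945276138 2 (.leaf 0x9083167254 7 .done)) (.leaf 0x3254908761 3 .done))) .done) (.leaf 0x7562013498 5 (.leaf 0x5789431026 7 .done))) (.node 1 7 (.cons 0x8905432176 .nil) (.node 2 6 (.cons 0x3498756201 .nil) (.node 2 5 (.cons 0x6257834901 .nil) (.node 4 6 (.cons 0x9462578310 .nil) (.leaf 0x1783256490 6 .done) .done) (.node 4 7 (.cons 0x7498326501 .nil) (.leaf 0x3265017498 5 .done) (.leaf 0x3498756201 1 .done))) (.node 0 7 (.cons 0x2389456170 .nil) (.leaf 0x7165498320 1 (.node 2 4 (.cons 0x9832456170 .nil) (.leaf 0x5617098324 2 (.leaf 0x3890716542 5 (.node 1 8 (.cons 0x7650189432 .nil)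 (.node 4 8 (.cons 0x9845617023 .nil) .done .done) .done))) .done)) .done)) .done)) (.leaf 0x4576120983 7 (.leaf 0x5438902167 5 (.node 4 7 (.cons 0x9834756120 .nil) (.leaf 0x5612098347 2 (.node 6 9 (.cons 0x5743896120 .nil) (.leaf 0x7502169834 8 (.leaf 0x9834750216 0 (.leaf 0x4750216983 7 .done))) .done)) .done)))) (.leaf 0x234987561 6 .done)))) (.node 0 7 (.cons 0x8907612345 .nil) (.node 5 8 (.cons 0x7612345890 .nil) (.leaf 0x6123458907 1 (.leaf 0x6123458907 3 (.leaf 0x6123458907 7 (.leaf 0x6123458907 4 .done)))) (.node 2 5 (.cons 0x8907612543 .nil) (.node 5 8 (.cons 0x7612345890 .nil) (.node 3 5 (.cons 0x4987653201 .nil) (.node 3 8 (.cons 0x5438907612 .nil) (.node 4 8 (.cons 0x9843210567 .nil) (.node 7 9 (.cons 0x3489765012 .nil) (.leaf 0x2016794835 2 (.leaf 0x2538497610 8 .done)) .done) (.leaf 0x2167098345 1 .done)) .done) (.leaf 0x943258761 7 (.leaf 0x943258761 3 (.leaf 0x943258761 4 .done)))) (.node 3 8 (.cons 0x5438907612 .nil) (.node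 0 8 .nil (.node 1 3 (.cons 0x9456780231 (.cons 0x7613208945 .nil)) (.node 1 9 (.cons 0x8765491320 .nil) (.leaf 0x7654913208 2 (.leaf 0x5678091234 2 (.leaf 0x8019432567 7 .done))) .done) (.node 0 6 (.cons 0x7894325601 .nil) (.node 0 3 .nil (.node 1 9 (.cons 0x7832065491 (.cons 0x6543078912 (.cons 0x4567891230 (.cons 0x2198765430 .nil)))) .done .done) .done) .done)) (.node 2 8 (.cons 0x7016528943 .nil) (.node 2 6 (.cons 0x9834507621 .nil) (.node 2 7 (.cons 0x8943276501 .nil) (.node 5 8 (.cons 0x5894327610 .nil) (.leaf 0x7234985016 7 (.leaf 0x7234985016 4 (.leaf 0x7234985016 3 .done))) .done) .done) .done) (.leaf 0x983452167 5 (.leaf 0x9076125438 7 .done)))) .done)) (.node 5 8 (.cons 0x7612345890 .nil) (.leaf 0x3458907612 5 (.node 0 3 (.cons 0x7612309854 .nil) (.node 0 6 .nil (.node 1 3 (.cons 0x4589076132 (.cons 0x7894560231 (.cons 0x5498760231 .nil))) .done (.node 0 8 .nil (.node 1 9 (.cons 0x7089165432 (.cons 0x2308765491 .nil)) (.leaf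 0x7654321980 1 (.leaf 0x4567809123 4 .done)) (.node 0 4 .nil (.node 1 9 (.cons 0x7089165432 (.cons 0x3219876540 .nil)) (.leaf 0x5403219876 5 (.leaf 0x456789123 1 .done)) .done) .done)) .done)) (.node 0 8 .nil (.node 1 3 (.cons 0x4589076132 (.cons 0x9456780231 (.cons 0x7613208945 .nil))) .done (.node 0 4 .nil (.node 1 9 (.cons 0x3219876540 .nil) (.leaf 0x9123405678 2 (.leaf 0x4321987650 6 (.leaf 0x8765403219 4 .done))) (.node 0 6 .nil (.node 1 9 (.cons 0x6785409123 (.cons 0x7891234560 (.cons 0x7891230654 .nil))) (.leaf 0x7609123458 3 .done) .done) .done)) .done)) .done)) (.leaf 0x9854321670 8 (.node 2 5 (.cons 0x7610985234 .nil) (.node 4 7 (.cons 0x3209854761 .nil) (.node 3 5 (.cons 0x4987653201 .nil) (.node 4 6 (.cons 0x7894653201 .nil) (.node 1 3 (.cons 0x7894653102 .nil) (.leaf 0x8902135467 2 (.leaf 0x8902135467 8 .done)) .done) .done) (.leaf 0x3476109852 4 (.leaf 0x6109852347 3 .done))) (.node 3 5 (.cons 0x4987653201 .nil) (.node 4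 7 (.cons 0x3209854761 .nil) (.node 1 3 (.cons 0x7613209854 .nil) (.leaf 0x2098547613 7 (.leaf 0x6745890231 8 .done)) (.node 3 7 (.cons 0x4589023761 .nil) (.node 1 4 (.cons 0x5678941023 .nil) (.leaf 0x237614589 5 (.leaf 0x3209854167 1 (.leaf 0x9876532014 2 .done))) .done) (.leaf 0x6109852347 1 .done))) .done) .done)) .done)))) .done))) .done))) (.node 1 8 (.cons 0x7650189432 .nil) tc9_9_2 (.node 2 5 (.cons 0x3452167890 .nil) (.node 1 5 (.cons 0x2349876510 .nil) (.node 3 5 (.cons 0x8761094352 .nil) (.node 0 2 (.cons 0x5678943201 .nil) (.node 5 7 (.cons 0x6578943201 .nil) (.leaf 0x5789432016 2 (.node 5 8 (.cons 0x6785234901 .nil) (.node 3 7 (.cons 0x9873456120 .nil) (.leaf 0x4561209873 4 (.node 5 9 (.cons 0x8734952016 .nil) .done (.leaf 0x8902165437 4 .done))) .done) .done)) (.node 2 6 (.cons 0x7894326510 .nil) (.node 4 6 (.cons 0x7894651023 .nil) (.node 1 4 (.cons 0x6789023541 .nil) (.leaf 0x9023541678 5 (.node 5 9 (.cons 0x6789532014 .nil)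 (.leaf 0x1467895320 8 (.leaf 0x146789532 7 .done)) .done)) .done) (.node 0 7 (.cons 0x1562349870 .nil) (.leaf 0x4326510789 7 (.leaf 0x7894326510 0 (.leaf 0x3498701562 8 .done))) .done)) .done)) .done) (.node 1 8 (.cons 0x9432567810 .nil) (.node 1 9 (.cons 0x8765234910 .nil) (.node 2 7 (.cons 0x8943276501 .nil) (.node 1 7 (.cons 0x8905432176 .nil) (.node 2 8 (.cons 0x7612890543 .nil) (.node 0 2 (.cons 0x5678943201 .nil) (.node 3 5 (.cons 0x7894356102 .nil) (.leaf 0x7610534982 2 (.leaf 0x8720165349 4 .done)) .done) (.node 1 3 (.cons 0x5287613490 .nil) (.leaf 0x6134905287 8 .done) .done)) .done) (.leaf 0x9810567234 4 (.node 3 8 (.cons 0x8349052761 .nil) (.leaf 0x2509438167 7 (.leaf 0x2509438167 3 (.leaf 0x2509438167 1 .done))) .done))) .done) (.node 1 7 (.cons 0x8905432176 .nil) (.node 4 8 (.cons 0x6784901523 .nil) (.node 3 6 (.cons 0x4512367890 .nil) (.leaf 0x1094876325 3 (.node 0 4 (.cons 0x6789045123 .nil) (.leaf 0x5123678904 3 (.leaf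 0x9045123678 4 .done)) (.leaf 0x3251094876 1 (.leaf 0x9015236784 4 .done)))) (.node 4 7 .nil (.node 3 8 (.cons 0x6783251094 (.cons 0x5098347612 .nil)) (.leaf 0x1674389052 8 (.leaf 0x1674389052 0 .done)) (.node 6 8 (.cons 0x7689054321 .nil) (.node 3 9 (.cons 0x9348765210 .nil) (.leaf 0x6521093487 2 (.leaf 0x523947681 6 (.leaf 0x9325018674 2 .done))) (.node 1 9 (.cons 0x8765234910 .nil) (.leaf 0x8674325019 1 (.leaf 0x4325019867 5 .done)) (.leaf 0x2345098671 5 .done))) .done)) .done)) .done) .done)) .done)) (.node 0 2 (.cons 0x5678943201 .nil) (.node 0 3 (.cons 0x5430987612 .nil) (.node 0 4 .nil (.node 1 9 (.cons 0x3219876540 .nil) (.leaf 0x9123405678 2 (.leaf 0x432567891 3 (.leaf 0x4321987650 6 .done))) (.node 3 9 (.cons 0x5678934012 .nil) (.leaf 0x1043987652 3 (.node 5 8 (.cons 0x9021678543 .nil) (.node 1 5 (.cons 0x2349876510 .nil) (.node 4 6 (.cons 0x4678512390 .nil) (.leaf 0x1587640932 2 (.leaf 0x5123904678 7 .done)) .done) (.leaf 0x216785439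 7 (.leaf 0x216785439 4 .done))) .done)) .done)) (.leaf 0x8903452167 5 .done)) (.node 3 5 (.cons 0x4987653201 .nil) (.node 1 5 (.cons 0x2349876510 .nil) (.node 0 3 (.cons 0x5430987612 .nil) (.node 3 8 (.cons 0x2094538761 .nil) (.leaf 0x6783549021 5 (.node 1 3 (.cons 0x7894561302 .nil) (.node 2 8 (.cons 0x3549028761 .nil) (.leaf 0x4531678209 7 (.leaf 0x5490287613 2 .done)) (.node 0 6 (.cons 0x2315498760 .nil) (.leaf 0x4987602315 8 (.leaf 0x4987602315 2 .done)) .done)) (.leaf 0x7612094538 7 .done))) (.leaf 0x8903452167 5 .done)) .done) (.node 0 3 (.cons 0x5430987612 .nil) (.node 0 6 (.cons 0x7894325601 .nil) (.node 3 7 (.cons 0x6125437890 .nil) (.leaf 0x5437890612 7 (.node 0 7 (.cons 0x6523498701 .nil) (.node 3 6 (.cons 0x2563498701 .nil) (.node 4 6 (.cons 0x5216437890 .nil) (.leaf 0x2164378905 5 .done) .done) .done) .done)) .done) (.node 3 7 (.cons 0x6125437890 .nil) (.leaf 0x216549873 4 (.node 3 8 (.cons 0x2054983761 .nil) (.leaf 0x7612054983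 5 .done) (.node 2 7 (.cons 0x3498725610 .nil) (.leaf 0x4301652789 4 (.node 3 6 (.cons 0x5278943610 .nil) (.leaf 0x1634987250 8 (.node 3 9 (.cons 0x7893021654 .nil) .done .done)) .done)) .done))) .done)) .done)) .done)) (.node 0 3 (.cons 0x4987652301 .nil) (.leaf 0x1678903452 3 (.leaf 0x1678903452 4 (.leaf 0x987612543 1 .done))) .done))) .done))))
noncomputable def tc9_9_4 : T := (.leaf 0x567894321 2 (.node 1 6 (.cons 0x5432167890 .nil) tc9_9_3 (.node 1 6 (.cons 0x5432167890 .nil) (.node 5 8 (.cons 0x5876109432 .nil) (.node 2 5 (.cons 0x4901678523 .nil) (.leaf 0x9016785234 5 (.node 1 5 (.cons 0x2349876510 .nil) (.node 5 9 (.cons 0x8761234590 .nil) .done .done) .done)) (.node 5 9 (.cons 0x8761234590 .nil) (.node 1 5 (.cons 0x2349876510 .nil) (.node 0 8 (.cons 0x7659801234 .nil) (.node 2 5 (.cons 0x3254908761 .nil) (.node 0 2 (.cons 0x5678943201 .nil) (.node 1 7 (.cons 0x3208945671 .nil) (.leaf 0x234985671 4 (.node 3 9 (.cons 0x8934567120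 .nil) (.leaf 0x2176543980 5 (.node 4 7 (.cons 0x8956743210 .nil) (.leaf 0x6508749321 0 (.leaf 0x9801234765 4 .done)) .done)) .done)) .done) .done) (.leaf 0x4321678095 5 .done)) .done) (.node 1 5 (.cons 0x2349876510 .nil) (.node 2 5 (.cons 0x3490167852 .nil) (.node 4 8 (.cons 0x3216784590 .nil) (.node 5 7 .nil (.node 2 6 (.cons 0x7894326501 (.cons 0x5784901623 (.cons 0x8750943261 .nil))) (.leaf 0x984326751 5 .done) (.node 2 6 (.cons 0x7894326501 .nil) (.leaf 0x984326751 5 (.leaf 0x7510984326 1 (.node 2 9 (.cons 0x9234875610 .nil) (.leaf 0x7843290165 2 (.leaf 0x7843290165 8 .done)) .done))) .done)) (.node 0 3 (.cons 0x9548761230 .nil) (.leaf 0x7845903216 8 (.leaf 0x3216784590 0 (.leaf 0x6784590321 7 .done))) .done)) .done) .done) .done)) (.node 2 5 (.cons 0x9016785234 .nil) (.node 3 5 .nil (.node 4 6 (.cons 0x5346789012 .nil) (.leaf 0x7890125346 4 (.leaf 0x9012354678 4 .done)) (.node 0 8 (.cons 0x9432567801 .nil) (.node 0 2 (.cons 0x5678943201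 .nil) (.node 1 7 (.cons 0x3208945671 .nil) (.leaf 0x234985671 3 (.leaf 0x6710234985 4 (.node 3 9 (.cons 0x8934567120 .nil) (.leaf 0x2176543980 5 (.node 0 4 (.cons 0x2043985671 .nil) (.leaf 0x2176589340 2 (.leaf 0x3985671204 5 .done)) .done)) .done))) .done) (.node 3 9 (.cons 0x6780934521 .nil) (.leaf 0x4390876125 4 (.leaf 0x7809345216 3 .done)) .done)) .done)) (.node 3 5 .nil (.node 4 6 (.cons 0x7643258901 (.cons 0x5346789012 .nil)) (.leaf 0x9012354678 4 .done) (.node 2 6 (.cons 0x7894326501 .nil) (.node 1 8 (.cons 0x7652349810 .nil) (.leaf 0x2354901876 7 (.node 0 2 (.cons 0x5678943201 .nil) (.node 5 9 (.cons 0x4953267810 .nil) (.leaf 0x2018765943 7 (.leaf 0x234956781 8 .done)) .done) (.leaf 0x3549018762 8 (.leaf 0x3267810945 2 .done)))) (.node 1 7 (.cons 0x8943256710 .nil) (.node 6 8 (.cons 0x5234986710 .nil) (.leaf 0x2501768943 8 (.leaf 0x2349867105 2 .done)) (.leaf 0x3498710562 2 (.leaf 0x7894326501 0 .done))) .done)) .done)) (.leaf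 0x8761094325 1 .done))) .done))) (.node 4 6 .nil (.node 1 5 (.cons 0x2349876510 (.cons 0x3215467890 .nil)) (.node 2 5 (.cons 0x8764901523 .nil) (.leaf 0x7890152346 8 (.leaf 0x2346789015 0 .done)) (.leaf 0x4678905123 4 .done)) (.node 2 6 (.cons 0x7894326501 .nil) (.node 4 7 (.cons 0x9874321056 .nil) (.node 6 9 (.cons 0x7896501234 .nil) (.node 5 9 (.cons 0x8764321095 .nil) (.node 3 5 (.cons 0x6987435012 .nil) (.node 2 5 (.cons 0x8769012534 .nil) .done (.leaf 0x6987435012 0 .done)) (.node 3 6 (.cons 0x6321059874 .nil) (.leaf 0x598746321 7 (.leaf 0x5987463210 8 .done)) .done)) (.leaf 0x2347896501 5 .done)) (.node 1 7 (.cons 0x6501789432 .nil) (.node 6 9 (.cons 0x3478965012 .nil) (.node 2 8 (.cons 0x3496501782 .nil) (.leaf 0x5017823496 2 (.leaf 0x8710569432 0 (.leaf 0x5694328710 8 .done))) (.node 6 8 (.cons 0x5096871234 .nil) (.leaf 0x3217869054 2 (.leaf 0x3217869054 8 .done)) .done)) (.leaf 0x9871056234 7 (.node 3 6 (.cons 0x9874365012 .nil)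 (.leaf 0x7890546321 4 (.node 0 4 (.cons 0x2365049871 .nil) (.node 7 9 (.cons 0x8971236504 .nil) (.node 2 4 (.cons 0x1789423650 .nil) (.node 4 8 (.cons 0x7984321650 .nil) (.leaf 0x9712365048 2 .done) (.leaf 0x7894236501 6 .done)) .done) .done) .done)) .done))) .done)) (.node 1 7 (.cons 0x1789432650 .nil) (.leaf 0x4326501789 7 (.node 4 7 (.cons 0x9874321056 .nil) (.node 3 6 (.cons 0x5098743621 .nil) (.node 1 5 (.cons 0x2349876510 .nil) (.leaf 0x4789051263 7 (.leaf 0x5098743621 1 (.node 1 3 (.cons 0x9874312650 .nil) (.leaf 0x2134789056 4 (.node 1 4 (.cons 0x7890514362 .nil) .done .done)) .done))) .done) .done) (.leaf 0x3498710562 2 (.leaf 0x7894326501 0 .done)))) .done)) (.node 6 9 (.cons 0x7896501234 .nil) (.node 4 7 (.cons 0x4789650123 .nil) (.leaf 0x3210569874 1 (.node 2 6 (.cons 0x7894326501 .nil) (.node 3 6 (.cons 0x1236987450 .nil) (.leaf 0x9874501236 3 (.node 2 7 (.cons 0x9872105643 .nil) (.node 1 3 (.cons 0x3105649872 .nil) (.leaf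 0x987213645 4 (.leaf 0x987213645 1 (.leaf 0x2789465013 0 .done))) (.node 3 9 (.cons 0x1278934650 .nil) (.leaf 0x5643987210 3 (.leaf 0x8934650127 4 .done)) .done)) .done)) (.node 1 7 (.cons 0x1789432650 .nil) (.leaf 0x4326501789 7 (.leaf 0x3498710562 2 (.leaf 0x7894326501 0 .done))) .done)) .done)) (.node 4 7 (.cons 0x1234789650 .nil) (.leaf 0x3210569874 7 (.leaf 0x2347896501 5 .done)) .done)) .done))) (.leaf 0x5098761234 2 (.leaf 0x4509876123 4 .done)))) (.node 1 6 (.cons 0x5432167890 .nil) tc9_9_1 (.leaf 0x8765012349 6 (.node 1 6 (.cons 0x5432167890 .nil) (.leaf 0x543216789 2 (.leaf 0x9054321678 4 (.node 3 5 (.cons 0x4532167890 .nil) (.node 0 8 (.cons 0x2354908761 .nil) (.node 5 8 (.cons 0x4901678532 .nil) (.node 4 6 (.cons 0x2358764901 .nil) (.leaf 0x3587649012 2 (.leaf 0x5321094678 7 (.leaf 0x3587649012 0 .done))) (.node 2 6 (.cons 0x2678534901 .nil) (.leaf 0x3587621094 2 (.leaf 0x5349012678 7 (.node 2 8 (.cons 0x1678235490 .nil) (.node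 1 8 .nil (.node 1 5 (.cons 0x2349876510 .nil) (.leaf 0x6234905187 3 (.leaf 0x3267815094 7 .done)) .done) (.leaf 0x3549016782 8 .done)) .done))) .done)) (.leaf 0x9453216780 2 (.node 5 8 (.cons 0x4901678532 .nil) (.node 1 8 .nil (.node 0 6 (.cons 0x9067812345 (.cons 0x7609812345 .nil)) (.leaf 0x9453218760 2 .done) (.node 4 8 .nil (.node 2 8 (.cons 0x1678235490 .nil) (.leaf 0x3549016782 8 (.node 1 4 (.cons 0x9053284167 .nil) (.leaf 0x3287614905 1 (.leaf 0x3287614905 3 (.node 1 5 (.cons 0x2349876510 (.cons 0x7615328490 .nil)) .done .done))) .done)) .done) .done)) (.node 4 6 (.cons 0x2358764901 .nil) (.leaf 0x3587649012 2 (.leaf 0x5321094678 7 (.leaf 0x3587649012 0 .done))) .done)) .done))) (.node 0 3 .nil (.node 2 5 (.cons 0x4987652301 .nil) (.leaf 0x1678945230 1 (.leaf 0x7610325498 5 (.leaf 0x8943012567 4 .done))) (.node 5 8 (.cons 0x2309458761 .nil) (.node 4 8 (.cons 0x7612354890 .nil) (.node 0 7 (.cons 0x9845321670 .nil) (.leaf 0x2354890761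 3 (.leaf 0x5321670984 4 .done)) (.node 2 9 (.cons 0x7653489210 .nil) (.node 1 8 (.cons 0x7650189234 .nil) (.node 4 7 (.cons 0x3298167450 .nil) (.leaf 0x7432981056 2 (.leaf 0x1032947856 6 .done)) .done) (.leaf 0x921678453 8 (.node 1 8 (.cons 0x1876549230 .nil) (.leaf 0x329456781 0 .done) (.leaf 0x6129035487 5 .done)))) .done)) (.leaf 0x4903216785 2 (.node 4 8 (.cons 0x7612354890 .nil) (.node 7 9 (.cons 0x9784561230 .nil) (.node 0 4 (.cons 0x5409876123 .nil) (.leaf 0x5321048976 2 (.leaf 0x5679840123 8 .done)) (.node 0 7 (.cons 0x6534897012 .nil) (.node 0 8 (.cons 0x4356798012 .nil) .done .done) (.leaf 0x6123097845 0 .done))) (.node 0 7 (.cons 0x9845321670 .nil) (.leaf 0x2354890761 3 (.leaf 0x5321670984 4 .done)) .done)) .done))) (.node 0 7 (.cons 0x2307894561 .nil) (.leaf 0x3216549870 4 (.node 0 8 .nil (.node 1 3 (.cons 0x4509876132 (.cons 0x5490876132 .nil)) (.node 0 2 (.cons 0x7613208945 .nil) (.leaf 0x2316789450 1 .done) .done) (.node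 4 8 (.cons 0x7612354890 .nil) (.node 1 8 (.cons 0x4981076532 .nil) (.node 1 3 (.cons 0x4509876132 .nil) (.node 2 4 (.cons 0x8942356701 .nil) (.leaf 0x3567018942 4 (.leaf 0x9810765324 4 (.leaf 0x3167890542 2 .done))) .done) .done) (.leaf 0x2354890761 3 .done)) .done)) (.leaf 0x8945612307 4 .done))) .done))) (.node 0 4 (.cons 0x7894016532 .nil) (.node 0 3 .nil (.node 2 5 (.cons 0x4987652301 .nil) (.leaf 0x1678945230 1 (.leaf 0x7610325498 5 (.leaf 0x9430125678 2 .done))) (.node 3 9 (.cons 0x8761239045 .nil) (.node 5 8 (.cons 0x9045876123 .nil) (.leaf 0x2390458761 8 (.leaf 0x8761239045 0 .done)) .done) .done)) (.leaf 0x5321678904 2 (.node 3 9 (.cons 0x7893216540 .nil) (.node 0 7 (.cons 0x4987016532 .nil) (.node 0 3 .nil (.node 2 5 (.cons 0x7894016523 (.cons 0x4987652301 .nil)) (.leaf 0x7610325498 5 (.leaf 0x9430125678 2 .done)) .done) (.leaf 0x2165407893 4 (.leaf 0x2165407893 1 .done))) (.node 4 7 (.cons 0x5612398740 .nil) (.node 0 7 (.cons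 0x4987016532 .nil) (.node 2 4 (.cons 0x7894235610 .nil) (.leaf 0x5324987016 7 (.leaf 0x8942356107 7 .done)) (.node 2 4 (.cons 0x7894235610 .nil) (.leaf 0x3561078942 0 (.leaf 0x789356124 0 .done)) .done)) (.leaf 0x8932165047 6 (.leaf 0x4789321650 2 .done))) .done)) (.leaf 0x9876123540 5 .done)))) .done))) (.node 0 3 (.cons 0x5430987612 .nil) tc9_9_0 .done)))) .done))))))
noncomputable def uc9_9_0 : T := tc9_9_4
theorem sub_c9_9_0 : root 9 refs9_9 [] 0x800020005807000000007060000000060500000000501000020001040000000040300000000302000000002015000000010 0xfedbfe7fff3fff9fffddffe9ffe7fff3fff9ffdd 9 0 5 (.cons 0x2349876501 .nil) uc9_9_0 = true := by decide +kernel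
noncomputable def tc9_9_5 : T := (.node 0 8 (.cons 0x9087612345 .nil) (.node 3 5 (.cons 0x3549087612 .nil) (.leaf 0x7809453216 6 (.node 1 3 (.cons 0x6789054312 .nil) (.node 3 8 (.cons 0x9054387612 .nil) (.node 3 9 (.cons 0x4398765012 .nil) (.node 2 7 (.cons 0x8943567210 .nil) (.leaf 0x5672108943 5 (.leaf 0x872165493 7 (.node 3 6 (.cons 0x1278945630 .nil) .done (.leaf 0x6534980127 7 .done)))) .done) (.node 2 5 (.cons 0x3498765210 .nil) (.leaf 0x7834905216 3 (.leaf 0x3876125094 7 (.leaf 0x2167834905 1 .done))) .done)) .done) (.node 5 8 .nil (.node 3 9 (.cons 0x4398765012 (.cons 0x7612390854 (.cons 0x4390587612 .nil))) .done (.node 3 8 (.cons 0x9054387612 .nil) (.node 2 8 (.cons 0x5349016782 .nil) (.node 7 9 (.cons 0x5612879430 .nil) (.node 0 6 (.cons 0x5497830612 .nil) (.leaf 0x1234587906 5 (.node 4 6 (.cons 0x3216458790 .nil) (.leaf 0x1230978546 5 .done) .done)) (.leaf 0x6503497821 8 (.leaf 0x1650349782 7 .done))) .done) (.node 2 5 (.cons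 0x3498765210 .nil) (.leaf 0x7834905216 3 (.leaf 0x3876125094 4 (.leaf 0x2167834905 1 .done))) .done)) .done)) .done))) (.node 3 8 (.cons 0x9054387612 .nil) (.node 1 3 (.cons 0x6789054312 .nil) (.node 4 8 .nil (.node 2 9 (.cons 0x9216783450 (.cons 0x7650129843 (.cons 0x7613290845 (.cons 0x5092167843 .nil)))) (.leaf 0x8345092167 2 .done) (.node 1 4 .nil (.node 2 9 (.cons 0x9216783450 (.cons 0x7654132980 (.cons 0x3412987650 .nil))) (.leaf 0x6501432987 4 (.leaf 0x5014329876 2 .done)) (.node 5 8 .nil (.node 2 5 (.cons 0x6785210943 .nil) (.leaf 0x6109432587 3 (.leaf 0x167852349 7 (.node 7 9 (.cons 0x6125497830 (.cons 0x4580976132 (.cons 0x2165879430 .nil))) (.leaf 0x4523167908 1 .done) .done))) (.node 1 5 (.cons 0x9087615432 .nil) (.node 2 9 (.cons 0x9216783450 .nil) (.leaf 0x4329087615 7 (.leaf 0x8345092167 2 (.node 1 9 (.cons 0x7803291654 .nil) .done (.leaf 0x8092345167 7 .done)))) .done) .done)) .done)) .done)) .done) (.node 2 5 (.cons 0x3498765210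 .nil) (.leaf 0x7834905216 3 (.leaf 0x3876125094 4 (.leaf 0x3876125094 7 (.leaf 0x2167834905 1 .done)))) .done)) .done)) (.node 1 3 (.cons 0x6789054312 .nil) (.node 2 6 (.cons 0x3450987621 .nil) (.node 4 6 .nil (.node 5 7 (.cons 0x6578943012 (.cons 0x6457890321 .nil)) (.leaf 0x6432109875 1 (.node 1 9 (.cons 0x8762190543 (.cons 0x2346578910 (.cons 0x8754623091 .nil))) .done .done)) (.node 0 6 .nil (.node 1 9 (.cons 0x8762190543 (.cons 0x7891234560 (.cons 0x7891230654 .nil))) .done (.node 6 9 (.cons 0x8769054312 .nil) (.node 3 6 .nil (.node 1 5 (.cons 0x5109876432 (.cons 0x7890632154 (.cons 0x4512367890 .nil))) .done .done) .done) .done)) .done)) (.node 5 8 (.cons 0x3126785490 .nil) (.node 0 7 (.cons 0x3078945621 .nil) (.leaf 0x6123458907 1 (.node 0 8 (.cons 0x5490876213 .nil) (.node 0 6 (.cons 0x7854906213 .nil) (.node 3 7 (.cons 0x1265498730 .nil) (.leaf 0x9458731260 0 (.leaf 0x8945621037 5 (.leaf 0x9458731260 8 .done))) .done) .done) (.leaf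 0x3458907612 5 .done))) (.leaf 0x4903126785 5 (.node 3 5 (.cons 0x8762135490 .nil) (.node 0 8 (.cons 0x7653498012 .nil) (.node 2 7 (.cons 0x8943567210 .nil) (.leaf 0x5672108943 5 (.node 3 7 (.cons 0x1265498730 .nil) (.leaf 0x8945621037 5 (.leaf 0x3089456127 0 .done)) (.leaf 0x6534980127 7 .done))) .done) .done) .done))) (.node 5 8 (.cons 0x5876213490 .nil) (.leaf 0x2134905876 3 (.leaf 0x8762134905 1 (.leaf 0x3126785094 4 .done))) .done))) (.node 2 6 (.cons 0x9876213450 .nil) (.leaf 0x1345098762 2 (.leaf 0x7890543126 5 (.node 1 7 (.cons 0x5621789430 .nil) (.leaf 0x2650349871 7 (.leaf 0x6217894305 5 (.node 6 9 (.cons 0x2178965430 .nil) (.node 1 9 (.cons 0x7891265034 .nil) (.node 1 4 (.cons 0x7896541230 .nil) (.node 0 7 (.cons 0x6543219870 .nil) (.node 5 8 (.cons 0x3491265870 .nil) (.leaf 0x1269458703 8 (.leaf 0x2145876903 6 (.leaf 0x1307854962 0 .done))) (.leaf 0x3214569870 5 (.leaf 0x8965412307 2 .done))) .done) .done) (.node 4 6 .nil (.node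 1 5 (.cons 0x7890512643 (.cons 0x3215467890 .nil)) (.leaf 0x2309876451 4 (.leaf 0x4678905123 6 .done)) (.node 3 6 .nil (.node 0 2 (.cons 0x2034569871 (.cons 0x8902176345 (.cons 0x5498763120 .nil))) (.leaf 0x2136789450 1 .done) .done) .done)) .done)) .done))) .done))) .done)) (.leaf 0x9876123450 6 (.node 0 8 .nil (.node 5 9 (.cons 0x7659801234 .nil) (.leaf 0x1087659432 4 (.leaf 0x1087659432 3 (.leaf 0x7809543216 3 (.leaf 0x1087659432 1 .done)))) (.node 0 7 (.cons 0x9870345612 .nil) (.node 2 9 (.cons 0x7892165430 .nil) (.node 0 2 .nil (.node 1 7 (.cons 0x6549871203 .nil) (.leaf 0x345617892 1 (.leaf 0x345617892 3 .done)) .done) (.leaf 0x3456129870 1 (.node 0 4 (.cons 0x7892165403 .nil) (.node 0 2 .nil (.node 1 9 (.cons 0x7654089123 .nil) (.leaf 0x6543201987 4 (.leaf 0x5432019876 2 .done)) .done) (.node 1 3 (.cons 0x1329876540 .nil) (.leaf 0x6789231045 7 (.leaf 0x6789231045 4 (.leaf 0x3298765401 1 .done))) .done)) (.leaf 0x3456129870 4 .done))))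 (.node 5 7 (.cons 0x6578943012 .nil) (.node 2 5 (.cons 0x3498765210 .nil) (.node 3 7 (.cons 0x8943765210 .nil) (.leaf 0x2108943765 7 (.leaf 0x1256734980 0 .done)) (.node 2 9 (.cons 0x7892165430 .nil) (.leaf 0x1654307892 1 (.node 6 8 (.cons 0x9034578612 .nil) (.leaf 0x7543092168 7 (.leaf 0x1290345786 8 .done)) (.node 2 8 (.cons 0x9034578216 .nil) (.node 6 9 (.cons 0x9612875430 .nil) (.node 1 7 (.cons 0x3452896170 .nil) (.leaf 0x7169825430 2 (.leaf 0x8961703452 6 .done)) (.leaf 0x128756943 7 (.leaf 0x1034965782 0 .done))) .done) .done))) (.leaf 0x1678903452 4 .done))) (.node 4 6 (.cons 0x6457890321 .nil) (.leaf 0x987546123 4 (.leaf 0x987546123 7 (.node 7 9 .nil (.node 1 4 (.cons 0x9875641032 (.cons 0x9780321456 (.cons 0x3214567980 .nil))) (.node 0 6 (.cons 0x6098754123 (.cons 0x9780654123 (.cons 0x7980654123 .nil))) .done (.leaf 0x2308976541 4 .done)) (.node 2 7 (.cons 0x9872165430 .nil) (.leaf 0x1654309872 4 (.node 4 7 .nil (.node 2 9 (.cons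 0x7892165430 (.cons 0x7456129803 (.cons 0x6501298743 (.cons 0x5647892301 .nil)))) .done (.node 1 7 .nil (.node 2 6 (.cons 0x3450987621 (.cons 0x9456217803 (.cons 0x8903264571 (.cons 0x5462309871 (.cons 0x5621789430 .nil))))) .done .done) .done)) .done)) .done)) .done))) .done)) .done)) (.node 0 7 (.cons 0x9870345612 .nil) (.node 2 9 (.cons 0x7892165430 .nil) (.node 1 7 (.cons 0x1765432980 .nil) (.leaf 0x892345671 1 (.node 1 9 (.cons 0x8076543291 .nil) (.node 6 8 (.cons 0x9123456870 .nil) (.leaf 0x2190786543 5 (.leaf 0x719234568 4 .done)) .done) .done)) (.leaf 0x3456129870 1 (.node 0 4 (.cons 0x7892165403 .nil) (.node 0 2 .nil (.node 1 9 (.cons 0x7654320891 .nil) (.leaf 0x8765430219 4 (.leaf 0x5432019876 2 .done)) .done) .done) (.leaf 0x3456129870 4 .done)))) (.node 2 9 (.cons 0x7892165430 .nil) (.leaf 0x5612987034 3 (.node 2 5 (.cons 0x3498765210 .nil) (.node 5 7 (.cons 0x6578943012 .nil) (.node 2 4 (.cons 0x3429875610 .nil) (.leaf 0x1657892430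 6 (.node 1 9 (.cons 0x3491087652 .nil) (.leaf 0x5678019432 7 (.node 0 6 (.cons 0x4329875601 .nil) (.leaf 0x4578916032 6 (.leaf 0x4578916032 5 .done)) .done)) .done)) .done) (.node 1 7 (.cons 0x3498017652 .nil) (.leaf 0x5671089432 7 (.node 3 8 (.cons 0x7612543890 .nil) (.leaf 0x7612543890 1 (.node 3 7 (.cons 0x8943765210 .nil) (.leaf 0x5673498012 7 (.node 0 2 (.cons 0x1654378920 .nil) (.leaf 0x7345610298 7 .done) .done)) .done)) .done)) (.leaf 0x1678903452 4 .done))) (.node 5 7 (.cons 0x6578943012 .nil) (.node 6 8 (.cons 0x9034578612 .nil) (.node 3 8 (.cons 0x6129038754 .nil) (.node 0 6 (.cons 0x6038754921 .nil) (.leaf 0x5783061294 2 (.leaf 0x5492160387 8 .done)) (.node 0 4 (.cons 0x6578304921 .nil) (.leaf 0x5783049216 2 (.leaf 0x5612940387 8 .done)) .done)) (.leaf 0x1290345786 8 .done)) (.node 7 9 .nil (.node 0 4 (.cons 0x7892165403 (.cons 0x8792165403 .nil)) (.node 1 8 (.cons 0x6579810432 (.cons 0x3218976540 .nil)) (.leaf 0x2304567981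 4 (.leaf 0x1897650432 2 .done)) .done) (.node 2 7 (.cons 0x9872165430 .nil) (.leaf 0x1654309872 4 (.node 3 7 (.cons 0x4561298730 .nil) (.node 1 7 .nil (.node 0 6 (.cons 0x8730654921 (.cons 0x8712945603 (.cons 0x8906712345 .nil))) .done .done) .done) .done)) .done)) .done)) (.leaf 0x8921654307 4 .done)))) .done)) .done))) .done))))
noncomputable def tc9_9_6 : T := (.leaf 0x1056789432 4 (.node 0 4 .nil (.node 1 9 (.cons 0x3219876540 .nil) (.leaf 0x9123405678 2 (.leaf 0x2304567891 4 (.leaf 0x4321987650 6 .done))) (.node 0 2 .nil (.node 1 9 (.cons 0x3456789120 .nil) (.leaf 0x8765430219 4 (.leaf 0x6543201987 4 (.leaf 0x5432019876 2 (.node 3 8 (.cons 0x9123876540 .nil) (.node 1 3 (.cons 0x9876543120 .nil) (.leaf 0x4567890213 4 (.leaf 0x2134987650 8 (.node 1 6 (.cons 0x5432167890 (.cons 0x9834502167 .nil)) (.leaf 0x4321678905 6 .done) .done))) (.leaf 0x9456783021 6 (.leaf 0x1238765409 5 .done))) .done)))) (.node 2 5 (.cons 0x3498765210 .nil)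 (.node 3 5 .nil (.node 1 6 (.cons 0x5432167890 (.cons 0x8761209453 (.cons 0x4532167890 .nil))) (.leaf 0x5321678904 3 (.node 2 4 (.cons 0x3567894210 .nil) (.leaf 0x1098765342 4 (.leaf 0x1249876530 8 (.leaf 0x3421678905 8 (.leaf 0x6124350987 5 .done)))) .done)) (.node 2 6 (.cons 0x8762534901 .nil) (.node 5 7 (.cons 0x6578943012 .nil) (.leaf 0x1034987562 5 (.leaf 0x1034987562 6 .done)) (.node 2 8 (.cons 0x6782534901 .nil) (.node 1 6 (.cons 0x5432167890 .nil) (.leaf 0x1094352876 1 (.node 2 7 (.cons 0x7289435610 .nil) (.node 1 8 (.cons 0x3549816720 .nil) (.leaf 0x9453027618 6 (.node 1 9 (.cons 0x6781904532 .nil) (.leaf 0x918762354 8 .done) (.leaf 0x3526781094 5 .done))) .done) (.leaf 0x5349016782 4 (.leaf 0x5349016782 7 .done)))) (.node 2 7 (.cons 0x6728943501 .nil) .done .done)) .done)) .done)) (.node 0 7 (.cons 0x6521078943 .nil) (.node 0 6 .nil (.node 1 7 (.cons 0x6549871203 (.cons 0x3065498712 .nil)) (.leaf 0x652349871 3 (.leaf 0x4987125603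 6 .done)) (.node 3 6 (.cons 0x7894365210 .nil) (.leaf 0x1256349870 6 (.node 4 6 (.cons 0x9870125643 .nil) .done (.leaf 0x3652107894 2 .done))) .done)) (.node 0 6 .nil (.node 1 7 (.cons 0x6549871203 (.cons 0x3065498712 (.cons 0x6098712543 .nil))) (.leaf 0x652349871 3 (.leaf 0x4987125603 6 .done)) (.node 0 8 .nil (.node 1 9 (.cons 0x7654321980 .nil) (.leaf 0x7654321980 1 (.node 5 9 (.cons 0x6780954321 .nil) (.leaf 0x1087659432 4 (.leaf 0x8043219567 5 (.leaf 0x1087659432 1 .done))) (.leaf 0x5670891234 5 .done))) .done) .done)) .done)) .done)) .done)) (.node 4 8 (.cons 0x9843210567 .nil) (.node 7 9 (.cons 0x8976501234 .nil) (.node 4 6 (.cons 0x7984650123 .nil) (.node 5 9 (.cons 0x8764321095 .nil) (.node 4 7 (.cons 0x6598743210 .nil) (.node 0 6 (.cons 0x7895601234 .nil) (.node 0 8 (.cons 0x4659780123 .nil) (.leaf 0x7956432108 2 .done) (.leaf 0x4789560123 2 .done)) .done) (.node 5 8 (.cons 0x2346785901 .nil) (.leaf 0x3467859012 2 (.leaf 0x3467859012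 0 .done)) .done)) (.node 3 5 (.cons 0x7984653210 .nil) (.node 5 8 (.cons 0x6785349012 .nil) (.leaf 0x5321097648 1 (.leaf 0x1097648532 3 (.leaf 0x9012358467 7 .done))) (.node 5 9 .nil (.node 0 7 (.cons 0x2356489701 (.cons 0x8465970123 .nil)) (.leaf 0x4659870123 2 .done) (.node 0 7 (.cons 0x2356489701 .nil) (.node 3 7 (.cons 0x5648973210 .nil) (.node 3 8 (.cons 0x6594387012 .nil) (.leaf 0x7956483210 8 .done) (.leaf 0x8973210564 7 .done)) (.leaf 0x4659870123 2 .done)) .done)) .done)) .done)) (.node 2 8 (.cons 0x4328976501 .nil) (.node 1 6 (.cons 0x1679823450 .nil) (.leaf 0x3289761054 7 (.node 4 6 .nil (.node 1 3 (.cons 0x1328976450 .nil) (.leaf 0x3289764501 1 (.leaf 0x6798231054 7 (.leaf 0x9764501328 3 .done))) (.node 1 4 (.cons 0x8976501432 .nil) (.node 4 7 .nil (.node 5 9 (.cons 0x8234679501 (.cons 0x6598743210 (.cons 0x8230164795 .nil))) .done .done) .done) .done)) (.leaf 0x6798234501 1 (.node 2 7 (.cons 0x9872165430 .nil) (.leaf 0x1654309872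 4 (.node 3 9 (.cons 0x4561278930 .nil) (.node 0 7 (.cons 0x3984561270 .nil) (.leaf 0x7612893450 0 (.leaf 0x5612703984 8 .done)) (.leaf 0x8721654039 5 .done)) (.node 1 8 (.cons 0x3498127650 .nil) (.leaf 0x2765034981 8 .done) .done))) .done)))) (.node 1 4 (.cons 0x8976501432 .nil) (.leaf 0x1056798234 1 (.leaf 0x9765014328 3 (.leaf 0x9765014328 7 .done))) (.node 1 7 (.cons 0x3498217650 .nil) (.leaf 0x4982176503 8 (.node 2 6 (.cons 0x7984326501 .nil) (.leaf 0x9843265017 2 (.node 5 7 (.cons 0x6578943012 .nil) (.node 4 7 .nil (.node 1 5 (.cons 0x7984326510 (.cons 0x8974326510 (.cons 0x1562897430 .nil))) (.leaf 0x7982651034 5 .done) .done) (.leaf 0x1034987562 5 (.leaf 0x1034987562 6 .done))) (.leaf 0x8971056234 7 .done))) (.leaf 0x4982176503 0 (.leaf 0x4982176503 2 .done)))) .done))) (.leaf 0x3210567984 5 .done))) (.node 4 7 .nil (.node 5 9 (.cons 0x6598743210 (.cons 0x6748950123 .nil)) (.node 4 6 (.cons 0x8764321095 .nil) (.node 0 7 (.cons 0x5984670123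 .nil) (.node 2 6 (.cons 0x7894301265 (.cons 0x8703495621 .nil)) (.leaf 0x1034789562 6 (.leaf 0x6210347895 2 .done)) (.leaf 0x4659870123 2 .done)) .done) (.node 3 9 (.cons 0x8932105674 .nil) (.leaf 0x2105674893 6 (.leaf 0x9321056748 2 (.node 7 9 (.cons 0x8976501234 .nil) (.node 1 6 (.cons 0x3216798450 (.cons 0x8974561230 (.cons 0x9874561230 .nil))) (.leaf 0x4503216798 5 (.leaf 0x548976123 1 .done)) .done) .done))) .done)) (.node 4 6 .nil (.node 1 5 (.cons 0x9876510432 (.cons 0x3215467890 .nil)) (.node 2 5 (.cons 0x3498765210 (.cons 0x7894652103 .nil)) (.leaf 0x7643251098 2 .done) (.leaf 0x1234678905 0 (.leaf 0x4678903215 4 .done))) (.node 1 6 (.cons 0x5432167890 .nil) (.leaf 0x4321678905 6 (.node 3 8 (.cons 0x7612389054 .nil) (.leaf 0x6745098321 4 (.node 2 7 (.cons 0x9872304561 .nil) (.leaf 0x3056127498 7 (.leaf 0x3056127498 3 (.leaf 0x3056127498 1 .done))) .done)) (.node 1 7 (.cons 0x8905432176 .nil) (.node 2 7 (.cons 0x9872165430 .nil)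 (.node 3 5 (.cons 0x6127890354 .nil) (.leaf 0x4612789035 2 (.node 0 7 (.cons 0x9870345612 .nil) (.node 5 7 (.cons 0x6578943012 .nil) .done .done) .done)) (.node 3 7 (.cons 0x8943765012 .nil) (.node 7 9 (.cons 0x8972165034 .nil) (.leaf 0x2165034897 5 .done) .done) .done)) (.node 6 9 (.cons 0x4569871230 .nil) (.leaf 0x5403217896 8 (.node 2 4 (.cons 0x1789654230 .nil) (.leaf 0x1789654230 1 .done) (.leaf 0x321769845 2 .done))) .done)) .done))) .done)) .done)) .done)) .done))) (.node 0 8 .nil (.node 5 9 (.cons 0x7659801234 .nil) (.leaf 0x1087659432 4 (.leaf 0x1087659432 3 (.leaf 0x1087659432 1 .done))) (.node 0 2 .nil (.node 1 3 (.cons 0x9802134567 (.cons 0x6789450213 .nil)) (.leaf 0x4567890213 4 (.leaf 0x7650213498 5 .done)) (.node 0 7 .nil (.node 1 9 (.cons 0x9120876543 (.cons 0x8912345670 (.cons 0x6543219870 .nil))) (.node 1 6 (.cons 0x5432167890 (.cons 0x8907612345 (.cons 0x9870345612 .nil))) (.node 2 9 (.cons 0x9216543087 (.cons 0x3456708921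 (.cons 0x8703492165 .nil))) (.leaf 0x5430789216 5 .done) .done) .done) (.node 0 6 .nil (.node 1 9 (.cons 0x9120876543 (.cons 0x7891234560 (.cons 0x7891230654 .nil))) (.leaf 0x2345607891 1 .done) (.node 0 4 .nil (.node 1 9 (.cons 0x9120876543 (.cons 0x3219876540 .nil)) (.leaf 0x2304567891 4 (.node 2 6 (.cons 0x7894301265 (.cons 0x3265407891 (.cons 0x5623407891 .nil))) .done .done)) .done) .done)) .done)) (.node 2 5 (.cons 0x3498765210 .nil) (.node 2 6 (.cons 0x7894301265 .nil) (.node 5 7 (.cons 0x6578943012 .nil) (.leaf 0x6210349875 2 (.leaf 0x8943012657 5 .done)) (.node 1 7 (.cons 0x5621789430 .nil) (.node 5 9 (.cons 0x8712659430 .nil) (.leaf 0x5621780349 0 (.node 3 6 (.cons 0x4509876321 .nil) (.leaf 0x8095436217 6 (.leaf 0x9087126345 5 (.node 0 7 (.cons 0x6598701234 .nil) (.node 1 4 (.cons 0x1432659870 .nil) (.leaf 0x9562341078 5 (.leaf 0x4509876321 1 (.leaf 0x7890541236 7 .done))) .done) .done))) (.leaf 0x7803495621 8 .done))) (.leaf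 0x9871265034 7 (.node 3 6 (.cons 0x2178945630 .nil) (.leaf 0x3654987120 2 (.node 3 5 (.cons 0x4987126530 .nil) (.node 1 6 (.cons 0x5432167890 .nil) (.node 3 9 (.cons 0x7654398021 .nil) (.leaf 0x7809345216 3 .done) (.leaf 0x9876123450 3 .done)) .done) (.leaf 0x9456302178 6 .done))) (.leaf 0x6217894305 7 .done)))) .done)) (.node 5 8 .nil (.node 0 7 (.cons 0x6521078943 .nil) (.leaf 0x1076589432 4 (.leaf 0x8567012349 3 .done)) (.node 5 9 .nil (.node 4 7 (.cons 0x9856743201 (.cons 0x8956743201 .nil)) (.leaf 0x4765980123 2 (.node 0 6 (.cons 0x8760954321 .nil) (.node 1 7 (.cons 0x3498567102 (.cons 0x3065498712 (.cons 0x6098712543 .nil))) (.leaf 0x176589432 4 .done) (.leaf 0x3478956012 4 .done)) .done)) (.node 4 7 (.cons 0x8956743210 .nil) (.leaf 0x4765980123 2 (.node 2 4 (.cons 0x7659801243 .nil) (.node 3 9 (.cons 0x7654398021 .nil) (.leaf 0x876593421 8 (.leaf 0x124395678 2 .done)) .done) (.leaf 0x6598012347 6 .done))) .done)) .done)) .done))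 .done))) (.node 1 6 (.cons 0x5432167890 .nil) (.node 5 9 (.cons 0x8761234590 .nil) (.leaf 0x4321678095 5 (.node 0 7 (.cons 0x6598701234 .nil) (.node 6 8 (.cons 0x7861234590 .nil) (.leaf 0x9543216870 5 (.leaf 0x9543216870 6 (.node 0 2 (.cons 0x3495687021 .nil) (.node 0 4 (.cons 0x9568704321 .nil) .done .done) .done))) (.node 4 6 (.cons 0x7895643210 .nil) (.leaf 0x4659870123 2 (.leaf 0x5987012346 6 .done)) .done)) (.node 4 8 (.cons 0x5901678432 .nil) (.node 3 9 (.cons 0x8761239054 .nil) (.node 2 8 (.cons 0x1678234590 .nil) (.node 3 8 (.cons 0x7612839450 .nil) (.node 2 5 (.cons 0x3498765210 .nil) (.leaf 0x4952876103 5 (.leaf 0x9430167825 7 (.leaf 0x8349052167 8 .done))) .done) (.leaf 0x7610954328 7 (.node 0 7 (.cons 0x2870349561 .nil) (.leaf 0x4307821659 5 (.leaf 0x8703495612 8 .done)) .done))) (.leaf 0x1239054876 7 .done)) (.node 3 9 (.cons 0x9321678450 .nil) (.leaf 0x7612390548 0 (.node 3 8 .nil (.node 0 2 (.cons 0x5021678493 (.cons 0x4938765021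 .nil)) (.leaf 0x4387612095 5 .done) .done) .done)) .done)) .done))) (.node 0 7 (.cons 0x8907612345 .nil) (.node 5 8 (.cons 0x7612345890 .nil) (.leaf 0x6123458907 1 (.leaf 0x6123458907 7 .done)) (.node 0 6 .nil (.node 1 9 (.cons 0x6543078912 (.cons 0x7891234560 (.cons 0x7891230654 .nil))) .done (.node 3 8 (.cons 0x5438907612 .nil) (.node 0 2 (.cons 0x7612054983 .nil) (.node 1 9 (.cons 0x7654320891 .nil) (.leaf 0x9120765438 2 (.leaf 0x2076543891 6 .done)) .done) (.node 2 5 (.cons 0x3498765210 .nil) (.leaf 0x2167098345 1 (.leaf 0x7098345216 3 (.leaf 0x9076125438 7 .done))) .done)) .done)) .done)) (.node 0 2 (.cons 0x7894561203 .nil) (.node 0 7 (.cons 0x3078945612 .nil) (.node 0 4 (.cons 0x5409876123 .nil) (.node 0 6 .nil (.node 5 7 (.cons 0x6578943012 .nil) (.leaf 0x1065789432 3 (.leaf 0x8756012349 4 .done)) .done) .done) .done) (.node 0 4 (.cons 0x5409876123 .nil) (.node 0 7 (.cons 0x3078945612 .nil) (.node 0 6 .nil (.node 5 7 (.cons 0x6578943012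 .nil) (.leaf 0x1065789432 3 (.leaf 0x8756012349 4 .done)) .done) .done) .done) .done)) (.leaf 0x9876123450 3 .done)))) .done))) (.node 1 6 (.cons 0x5432167890 .nil) tc9_9_5 (.leaf 0x8765012349 3 .done)))))
noncomputable def tc9_9_7 : T := (.leaf 0x1056789432 4 (.node 1 6 (.cons 0x5432167890 .nil) (.node 3 6 (.cons 0x7894365012 .nil) (.node 3 5 .nil (.node 4 6 (.cons 0x1235467890 .nil) (.node 0 8 (.cons 0x9087612345 (.cons 0x3549087612 .nil)) (.node 2 5 (.cons 0x3498765210 .nil) (.leaf 0x7890125346 4 (.leaf 0x3521678094 4 (.leaf 0x7612534908 3 .done))) (.leaf 0x876123549 2 .done)) (.leaf 0x9012354678 4 .done)) (.node 2 8 (.cons 0x9435678210 .nil) (.leaf 0x1094356782 4 (.node 4 6 .nil (.node 5 9 (.cons 0x8761234590 (.cons 0x3594678210 (.cons 0x9501643287 .nil))) (.leaf 0x6432105987 1 .done) (.node 6 9 (.cons 0x5349678210 .nil) (.node 4 7 (.cons 0x2874963501 .nil) (.leaf 0x3210569874 1 (.leaf 0x9635012874 4 (.leaf 0x569874321 5 .done))) (.node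 4 7 (.cons 0x1234789650 .nil) (.leaf 0x3210569874 7 (.leaf 0x2347896501 5 (.leaf 0x8965012347 8 .done))) .done)) .done)) (.node 2 5 (.cons 0x3498765210 .nil) (.node 2 6 (.cons 0x8762109435 .nil) (.node 2 7 (.cons 0x2789436501 .nil) (.leaf 0x4365012789 4 (.node 5 8 (.cons 0x1267853490 .nil) (.leaf 0x1034985672 3 (.leaf 0x1034985672 1 .done)) .done)) .done) .done) (.leaf 0x7653490128 4 .done)))) .done)) (.node 0 2 (.cons 0x7894365021 .nil) (.node 2 7 (.cons 0x1278943650 .nil) (.node 5 8 (.cons 0x9436127850 .nil) (.leaf 0x1034985672 7 (.leaf 0x1034985672 3 (.leaf 0x1034985672 1 .done))) (.leaf 0x2789436501 2 (.node 5 8 (.cons 0x1276589430 .nil) (.leaf 0x8509436127 2 (.node 1 4 (.cons 0x9856721430 .nil) (.leaf 0x2765890341 7 (.leaf 0x3412765890 8 (.node 5 9 (.cons 0x9587634120 .nil) (.leaf 0x6341209587 7 (.leaf 0x3678590214 0 (.node 1 3 (.cons 0x8765943102 .nil) (.node 3 9 (.cons 0x2167854390 .nil) .done .done) .done))) .done))) (.leaf 0x943612785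 6 .done))) .done))) (.node 2 6 .nil (.node 1 7 (.cons 0x2178943650 (.cons 0x6217890543 .nil)) (.leaf 0x349871265 2 (.leaf 0x543261789 5 .done)) (.node 2 5 (.cons 0x3498765210 .nil) (.node 3 5 (.cons 0x8761209453 .nil) (.node 1 4 (.cons 0x6789023541 .nil) (.leaf 0x6532014987 5 (.node 1 8 (.cons 0x5218763490 .nil) (.leaf 0x5349018762 3 (.leaf 0x5349018762 4 (.leaf 0x5349018762 7 .done))) (.leaf 0x4532098761 0 .done))) .done) .done) .done)) .done)) .done)) (.node 6 9 (.cons 0x7896501234 .nil) (.node 4 7 (.cons 0x4789650123 .nil) (.leaf 0x3210569874 1 (.node 1 8 (.cons 0x5476981230 .nil) (.node 0 7 (.cons 0x7032189654 .nil) (.node 5 8 (.cons 0x7612345890 .nil) (.leaf 0x6123458907 3 (.leaf 0x6123458907 7 (.leaf 0x6123458907 4 .done))) (.leaf 0x9812307456 1 (.leaf 0x1896547032 3 (.leaf 0x9812307456 7 .done)))) (.leaf 0x3218967450 5 (.leaf 0x2305476981 7 (.node 2 7 (.cons 0x9812765430 .nil) (.leaf 0x6543098127 2 (.node 3 6 (.cons 0x1236987450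 .nil) (.node 5 8 (.cons 0x7612345890 .nil) (.leaf 0x1058749632 5 (.leaf 0x7850123694 8 .done)) (.leaf 0x9874501236 3 (.leaf 0x2789436501 2 .done))) (.leaf 0x1890345672 5 .done))) .done)))) (.leaf 0x569874321 5 .done))) (.node 4 6 .nil (.node 3 7 (.cons 0x6450987321 .nil) (.node 1 7 (.cons 0x5017896432 (.cons 0x6450987123 .nil)) (.leaf 0x4321789056 3 (.node 2 8 (.cons 0x9821765430 (.cons 0x2896173450 (.cons 0x1289456730 (.cons 0x7349821650 .nil)))) (.leaf 0x9034567128 2 .done) .done)) (.leaf 0x2105649873 1 (.leaf 0x5461237890 5 (.leaf 0x6450987321 1 (.leaf 0x5649873210 5 .done))))) (.node 3 6 (.cons 0x7894365012 .nil) (.node 2 6 .nil (.node 1 7 (.cons 0x2178943650 (.cons 0x8712634905 (.cons 0x1789623450 (.cons 0x6217890543 .nil)))) (.leaf 0x7896234501 1 .done) (.node 0 2 (.cons 0x7894365021 .nil) (.node 2 5 (.cons 0x3498765210 .nil) (.node 5 9 (.cons 0x8764321095 .nil) (.node 3 8 (.cons 0x1238764590 .nil) (.node 0 4 (.cons 0x7836594021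 .nil) (.node 1 7 (.cons 0x4956387120 .nil) (.leaf 0x8349652017 1 (.leaf 0x9563871204 4 (.leaf 0x9652017834 5 (.leaf 0x7836594021 1 .done)))) .done) (.leaf 0x6783210954 5 (.leaf 0x7645901238 7 .done))) .done) .done) .done) .done)) .done) .done)) (.node 4 7 (.cons 0x1234789650 .nil) (.leaf 0x3210569874 7 (.leaf 0x2347896501 5 (.leaf 0x8965012347 8 .done))) .done))) (.leaf 0x5098761234 2 (.leaf 0x4509876123 4 .done)))) (.node 2 5 (.cons 0x3498765210 .nil) (.node 0 2 .nil (.node 1 3 (.cons 0x6789450213 .nil) (.leaf 0x4987652013 4 (.leaf 0x7650213498 5 (.node 1 5 (.cons 0x6789021543 .nil) (.leaf 0x6789432015 3 (.node 1 6 (.cons 0x5432167890 .nil) (.node 1 4 (.cons 0x6789054123 .nil) (.node 3 6 (.cons 0x9876321450 (.cons 0x9876320541 (.cons 0x5021498763 .nil))) .done .done) (.leaf 0x2098761543 6 (.leaf 0x9023451678 5 .done))) .done)) .done))) (.node 0 8 .nil (.node 1 9 (.cons 0x7654321980 .nil) (.leaf 0x5678019432 3 (.leaf 0x5678019432 4 (.leaf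 0x2567803491 3 .done))) (.node 5 8 (.cons 0x7658943012 .nil) (.node 3 6 (.cons 0x4509876321 .nil) (.leaf 0x2109436785 1 (.node 3 5 .nil (.node 2 4 (.cons 0x9801243567 (.cons 0x2498763501 .nil)) (.leaf 0x1098765342 4 .done) .done) (.leaf 0x2109436785 4 .done))) (.node 3 5 .nil (.node 1 6 (.cons 0x5432167890 (.cons 0x4532167890 .nil)) (.leaf 0x167852349 4 (.leaf 0x2534908761 3 (.leaf 0x9876123450 3 .done))) (.node 5 7 .nil (.node 0 6 (.cons 0x7894356012 .nil) (.leaf 0x1065789432 4 (.leaf 0x8756012349 3 .done)) (.node 5 9 .nil (.node 4 6 (.cons 0x6435789012 (.cons 0x2346785901 (.cons 0x7895643201 .nil))) (.leaf 0x3210958764 4 .done) (.node 1 5 .nil (.node 3 6 (.cons 0x2587634901 (.cons 0x9087634512 (.cons 0x7894365102 (.cons 0x7894365120 .nil)))) .done .done) .done)) .done)) .done)) .done)) (.node 1 9 (.cons 0x3491087652 .nil) (.leaf 0x5678019432 7 (.leaf 0x5678019432 4 (.node 0 4 (.cons 0x3219876540 .nil) (.node 3 8 (.cons 0x9438765210 .nil)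 (.leaf 0x4901256783 4 (.node 0 6 (.cons 0x9438760125 .nil) (.node 0 7 (.cons 0x8912307654 .nil) .done .done) (.leaf 0x1238765409 5 .done))) .done) .done))) .done))) .done)) (.node 0 2 .nil (.node 1 5 (.cons 0x6789021543 .nil) (.leaf 0x6789432015 3 (.leaf 0x156789432 4 (.leaf 0x2034987651 4 .done))) (.node 2 4 .nil (.node 1 3 (.cons 0x6789054213 .nil) (.leaf 0x9876503124 4 (.leaf 0x1056789423 1 (.leaf 0x8765013249 4 (.leaf 0x8765013249 7 .done)))) (.node 0 4 .nil (.node 3 9 (.cons 0x4056789321 .nil) (.node 4 6 (.cons 0x8764509321 (.cons 0x7893246501 .nil)) (.leaf 0x2398764501 3 .done) (.leaf 0x1043987652 6 (.leaf 0x8765401239 3 .done))) (.node 0 7 .nil (.node 1 9 (.cons 0x5678910432 (.cons 0x8912345670 (.cons 0x6543219870 (.cons 0x8912307654 .nil)))) .done (.node 0 6 .nil (.node 3 5 (.cons 0x9870124356 (.cons 0x7894356012 .nil)) (.leaf 0x2106789435 0 (.node 1 9 (.cons 0x8765349102 (.cons 0x7891234560 (.cons 0x7891065324 .nil))) (.leaf 0x653421987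 7 .done) .done)) .done) .done)) .done)) (.node 2 7 (.cons 0x8943012765 .nil) (.node 5 8 (.cons 0x7658943012 .nil) (.leaf 0x9430127658 4 (.leaf 0x6721034985 4 (.node 3 5 (.cons 0x6724985301 .nil) (.node 2 8 (.cons 0x9435678210 .nil) (.leaf 0x1094356782 4 (.leaf 0x7653490128 4 .done)) (.node 0 6 (.cons 0x7894356012 .nil) (.node 5 9 (.cons 0x5987601243 .nil) .done (.leaf 0x5349872106 4 .done)) .done)) .done))) (.node 5 8 (.cons 0x1276589430 .nil) (.leaf 0x3498567210 3 (.node 1 4 (.cons 0x9856721430 .nil) (.leaf 0x7214309856 5 (.leaf 0x2765890341 7 (.leaf 0x3412765890 8 .done))) (.node 1 8 (.cons 0x5672189430 .nil) (.node 1 9 (.cons 0x6785432091 .nil) (.leaf 0x2765819430 8 (.leaf 0x276581943 7 .done)) (.leaf 0x9812765034 4 (.node 0 7 (.cons 0x3076549812 .nil) (.node 3 9 (.cons 0x3945678120 .nil) (.leaf 0x1893076542 7 (.leaf 0x7039812456 7 (.leaf 0x6781203945 4 .done))) (.leaf 0x6549812307 5 .done)) (.leaf 0x2765034981 3 .done)))) .done)))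 .done)) .done))) (.node 0 8 (.cons 0x7652108943 .nil) (.node 5 8 (.cons 0x7658943012 .nil) (.node 2 7 (.cons 0x9803456721 .nil) (.leaf 0x2103498567 1 (.node 2 4 .nil (.node 1 3 (.cons 0x8945031276 .nil) (.leaf 0x1056789423 1 (.leaf 0x8765013249 4 (.leaf 0x8765013249 7 .done))) (.node 4 7 (.cons 0x9801256743 .nil) (.node 0 4 .nil (.node 3 9 (.cons 0x2567439801 (.cons 0x4056789321 .nil)) (.leaf 0x8012567439 5 (.leaf 0x8765401239 3 .done)) .done) .done) .done)) (.leaf 0x9430127658 4 (.leaf 0x3498567210 3 .done)))) (.node 5 9 .nil (.node 4 6 (.cons 0x7643258901 (.cons 0x2346785901 (.cons 0x7895643201 .nil))) (.leaf 0x3210958764 4 .done) (.node 3 5 .nil (.node 2 4 (.cons 0x6789421053 .nil) (.leaf 0x1098765342 4 (.leaf 0x1035678942 4 .done)) (.node 2 9 (.cons 0x8765349210 .nil) (.node 1 9 (.cons 0x7654308912 .nil) (.node 2 7 (.cons 0x4327658910 .nil) (.leaf 0x4567219803 6 (.leaf 0x1034985672 1 (.node 2 6 (.cons 0x2678534901 .nil) (.node 0 4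 (.cons 0x1985672340 .nil) (.leaf 0x5672340198 5 (.node 0 6 (.cons 0x7895601234 .nil) .done .done)) .done) .done))) .done) (.leaf 0x8765349210 1 .done)) .done)) .done)) .done)) (.node 5 8 (.cons 0x7658943012 .nil) (.node 2 7 (.cons 0x8943012765 .nil) (.leaf 0x2103498567 1 (.node 3 5 (.cons 0x6725349801 .nil) (.node 1 5 (.cons 0x6725108943 .nil) (.node 2 6 (.cons 0x3451267890 .nil) (.leaf 0x2109435876 1 (.leaf 0x6215430987 2 (.leaf 0x9435876210 3 .done))) .done) (.node 1 6 (.cons 0x8943527610 .nil) (.leaf 0x7253498016 5 (.leaf 0x894352761 2 (.leaf 0x9872016534 5 (.leaf 0x9876123450 3 .done)))) .done)) (.leaf 0x9430127658 4 (.leaf 0x3498567210 3 .done)))) (.node 2 7 (.cons 0x9856721034 .nil) (.node 5 7 .nil (.node 1 6 (.cons 0x5432167890 (.cons 0x8903216754 (.cons 0x8903457612 .nil))) (.leaf 0x165789432 4 (.leaf 0x8016752349 7 .done)) (.node 4 7 (.cons 0x9856743012 .nil) (.node 2 4 .nil (.node 1 3 (.cons 0x6578943102 .nil) (.leaf 0x1056789423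 1 (.leaf 0x8765013249 4 (.leaf 0x8765013249 7 .done))) .done) .done) .done)) (.leaf 0x1034985672 3 (.leaf 0x6721034985 4 (.node 1 4 (.cons 0x9856721430 .nil) (.leaf 0x7214309856 5 (.leaf 0x2765890341 7 (.leaf 0x3412765890 8 (.node 3 6 (.cons 0x9876321450 .nil) (.leaf 0x2367890541 8 (.leaf 0x7890541236 7 (.leaf 0x8763214509 5 .done))) .done)))) .done)))) .done)) .done)) .done))) (.leaf 0x1034987652 4 .done))) (.node 5 8 (.cons 0x7658943012 .nil) (.node 2 7 (.cons 0x8943012765 .nil) (.leaf 0x2103498567 1 (.node 3 5 .nil (.node 6 8 (.cons 0x1276894530 .nil) (.leaf 0x2768945301 5 (.leaf 0x7210354986 7 (.leaf 0x9453012768 8 (.leaf 0x8672105349 2 .done)))) (.node 2 8 (.cons 0x9435678210 .nil) (.node 2 5 (.cons 0x3498765210 .nil) (.node 2 6 (.cons 0x3450987621 .nil) (.leaf 0x2109435876 1 (.leaf 0x9435876210 3 .done)) .done) (.leaf 0x7653490128 4 .done)) (.node 3 9 (.cons 0x4398765012 .nil) (.node 4 6 (.cons 0x7893465012 .nil) (.leaf 0x7210564398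 2 (.node 2 4 (.cons 0x9876501243 .nil) (.leaf 0x1056789342 6 (.node 2 8 (.cons 0x9827643501 .nil) (.node 1 6 (.cons 0x1672894530 .nil) (.leaf 0x9827610354 2 (.leaf 0x9453016728 8 (.leaf 0x6728945301 0 .done))) (.node 1 7 (.cons 0x5671289430 .nil) (.leaf 0x6503498217 8 (.leaf 0x5098217643 0 (.node 2 6 (.cons 0x9853462710 .nil) (.leaf 0x6435890172 0 (.leaf 0x5890172643 7 .done)) .done))) .done)) .done)) (.node 0 6 (.cons 0x6054398721 .nil) (.node 1 6 (.cons 0x6127893450 .nil) (.leaf 0x9345061278 0 (.leaf 0x9876123450 6 (.node 2 5 (.cons 0x3498765210 .nil) (.leaf 0x4398725016 7 (.leaf 0x4398725016 3 (.leaf 0x1678903452 7 .done))) .done))) (.node 4 7 (.cons 0x1239874560 .nil) (.leaf 0x3210654789 7 .done) .done)) .done))) (.node 3 6 .nil (.node 6 9 (.cons 0x7210589634 .nil) (.leaf 0x2789634501 3 (.leaf 0x3698721054 4 .done)) (.node 3 7 .nil (.node 2 5 (.cons 0x3498765210 (.cons 0x8943765210 (.cons 0x6378521094 .nil))) (.leaf 0x2109436785 1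 .done) .done) .done)) .done)) .done))) (.leaf 0x9430127658 4 (.leaf 0x3498567210 3 .done)))) (.node 2 7 (.cons 0x4985672103 .nil) (.leaf 0x127658943 5 (.leaf 0x1034985672 7 (.node 0 8 (.cons 0x3089456721 .nil) (.node 0 2 .nil (.node 1 7 (.cons 0x6712309854 .nil) (.leaf 0x217658943 5 (.leaf 0x2034985671 7 (.node 3 8 (.cons 0x1276549830 .nil) (.node 1 6 (.cons 0x5432167890 (.cons 0x9458302167 (.cons 0x9834502167 (.cons 0x7612038945 .nil)))) .done (.leaf 0x9456712038 2 (.leaf 0x217654983 5 .done))) .done))) (.node 2 5 (.cons 0x3498765210 .nil) (.node 2 6 (.cons 0x3450987621 .nil) (.node 0 4 .nil (.node 1 3 (.cons 0x8945672130 (.cons 0x9876213405 .nil)) (.leaf 0x1304985672 2 (.leaf 0x498567213 6 .done)) (.node 0 7 .nil (.node 1 3 (.cons 0x8945672130 (.cons 0x5621349870 .nil)) (.leaf 0x2650789431 5 (.leaf 0x4987056213 2 .done)) .done) .done)) .done) (.leaf 0x1034987652 4 .done)) .done)) (.node 1 3 (.cons 0x8945672130 .nil) (.node 6 8 (.cons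 0x7685490312 .nil) (.leaf 0x1309458672 6 (.node 3 6 (.cons 0x2136785490 .nil) (.node 0 2 (.cons 0x2094587631 .nil) (.node 0 7 .nil (.node 1 4 (.cons 0x9803276541 (.cons 0x2367098541 (.cons 0x5689412703 (.cons 0x9854123076 .nil)))) .done .done) (.leaf 0x945876312 1 .done)) .done) .done)) (.leaf 0x5498031276 6 (.leaf 0x9456721308 5 .done))) .done)) (.node 1 8 (.cons 0x5672189430 .nil) (.node 0 8 .nil (.node 1 3 (.cons 0x4985672130 .nil) (.leaf 0x6721349805 6 (.leaf 0x3127650894 2 .done)) (.node 4 8 (.cons 0x9843056721 .nil) (.node 2 8 .nil (.node 1 6 (.cons 0x5432167890 (.cons 0x7612854903 (.cons 0x7612890543 (.cons 0x7612890345 .nil)))) (.leaf 0x9876123450 6 .done) .done) .done) .done)) (.leaf 0x8127650349 2 (.node 1 6 (.cons 0x5432167890 .nil) (.node 1 3 (.cons 0x4985672130 .nil) (.node 4 6 (.cons 0x9872134650 .nil) (.node 3 5 (.cons 0x5346721890 .nil) (.node 1 5 (.cons 0x8905127643 .nil) (.node 2 5 (.cons 0x3498765210 .nil) (.leaf 0x1034987652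 4 .done) .done) (.leaf 0x3467218905 0 .done)) (.leaf 0x8721346509 7 .done)) (.node 4 6 (.cons 0x5894672130 .nil) (.leaf 0x3127649850 0 (.leaf 0x3127649850 8 .done)) .done)) (.node 4 7 (.cons 0x3216745890 .nil) (.node 5 7 (.cons 0x6754309812 .nil) (.node 0 7 (.cons 0x4589076123 .nil) (.node 7 9 (.cons 0x2189765430 .nil) .done .done) .done) (.leaf 0x7458903216 2 (.leaf 0x9854761230 6 .done))) (.leaf 0x9876123450 6 .done))) .done))) .done)))) (.node 2 5 (.cons 0x3498765210 .nil) (.node 5 7 .nil (.node 2 6 (.cons 0x3450987621 (.cons 0x4326758901 .nil)) (.node 1 4 (.cons 0x7623098541 (.cons 0x6758901432 (.cons 0x3014985762 .nil))) (.leaf 0x7589014326 7 (.leaf 0x1098576234 1 .done)) (.leaf 0x5789430126 4 .done)) (.node 2 7 (.cons 0x2765894301 .nil) (.leaf 0x1034985672 1 (.node 4 8 (.cons 0x6754890321 .nil) (.node 1 6 (.cons 0x5432167890 .nil) (.leaf 0x167852349 4 (.leaf 0x9845761230 8 (.leaf 0x9876123450 6 (.leaf 0x984576123 7 .done)))) (.node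 1 9 (.cons 0x6754891230 .nil) (.node 0 6 (.cons 0x3219845760 .nil) (.leaf 0x6754891230 0 (.leaf 0x4891230675 7 (.node 3 5 (.cons 0x6721984350 .nil) (.leaf 0x4891276053 6 .done) .done))) (.leaf 0x8430567219 2 (.leaf 0x2765034891 5 .done))) .done)) .done)) .done)) (.node 0 8 (.cons 0x7652108943 .nil) (.node 4 8 .nil (.node 7 9 (.cons 0x5679843210 .nil) (.node 3 6 (.cons 0x5634978012 (.cons 0x7634890521 .nil)) (.leaf 0x5210879436 2 (.leaf 0x4978012563 5 .done)) (.leaf 0x6501234897 8 (.leaf 0x4897652103 5 (.leaf 0x4897650123 5 .done)))) (.node 3 8 .nil (.node 4 7 (.cons 0x6743258901 .nil) (.leaf 0x6521098347 2 (.leaf 0x8947652103 5 .done)) (.node 2 8 .nil (.node 1 6 (.cons 0x5432167890 (.cons 0x7612890543 (.cons 0x7612890345 .nil))) (.node 0 7 (.cons 0x2583490761 (.cons 0x3076549821 (.cons 0x3498256701 .nil))) (.leaf 0x9438521670 3 .done) (.leaf 0x9876123450 6 .done)) (.node 1 8 .nil (.node 0 7 (.cons 0x3076549821 (.cons 0x9438125670 (.cons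 0x3076549812 (.cons 0x3498107652 .nil)))) .done (.node 2 7 (.cons 0x9812765430 .nil) (.leaf 0x6543098127 2 (.leaf 0x1034985672 1 (.leaf 0x1890345672 5 .done))) .done)) .done)) .done)) .done)) (.node 3 7 (.cons 0x8943765210 .nil) (.node 6 8 (.cons 0x2586734901 .nil) (.leaf 0x943768521 4 (.leaf 0x943768521 1 .done)) (.leaf 0x2108943765 7 (.leaf 0x1256734980 2 (.leaf 0x1256734980 0 .done)))) .done)) (.leaf 0x1034987652 4 (.node 5 7 .nil (.node 2 6 (.cons 0x3450987621 (.cons 0x4326758901 .nil)) (.node 4 6 (.cons 0x2346758901 .nil) (.leaf 0x3210985764 4 (.leaf 0x987564321 2 .done)) (.leaf 0x5789430126 4 .done)) (.node 2 7 (.cons 0x2765894301 .nil) (.leaf 0x1034985672 1 (.node 3 5 .nil (.node 0 8 (.cons 0x4980356721 .nil) (.leaf 0x6534980127 4 (.leaf 0x8943567210 1 .done)) (.node 1 5 .nil (.node 0 2 (.cons 0x6720349851 .nil) (.leaf 0x6789432015 3 (.leaf 0x8765102349 1 (.leaf 0x8765102349 4 .done))) (.node 5 9 .nil (.node 4 6 (.cons 0x6435098721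 (.cons 0x2346785901 .nil)) (.leaf 0x3210958764 4 (.leaf 0x7895012346 6 .done)) .done) .done)) .done)) .done)) .done)) .done)))) .done))) (.leaf 0x8765012349 3 .done)))))
noncomputable def tc9_9_8 : T := (.node 5 8 (.cons 0x6785210943 .nil) (.node 3 5 .nil (.node 4 8 (.cons 0x9487653012 .nil) (.leaf 0x5210948763 1 (.leaf 0x1253678490 3 (.leaf 0x5210948763 4 .done))) (.node 2 6 (.cons 0x8762534901 .nil) (.node 1 3 (.cons 0x8762531094 .nil) (.node 0 7 (.cons 0x3126549870 .nil) (.leaf 0x4562130789 5 (.node 3 9 (.cons 0x4562139870 .nil) (.node 0 6 (.cons 0x9870654312 .nil) (.node 6 9 (.cons 0x2134569870 .nil) .done .done) .done) (.leaf 0x6549870312 6 .done))) (.node 0 2 (.cons 0x1354987620 .nil) (.leaf 0x9876201354 8 (.leaf 0x8945310267 7 .done)) .done)) (.node 2 7 (.cons 0x9430127856 .nil) (.node 6 9 (.cons 0x7856943012 .nil) (.leaf 0x127856943 7 (.leaf 0x1034965872 0 .done)) (.node 1 8 (.cons 0x1876253490 .nil) (.node 0 2 (.cons 0x1894536720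 .nil) (.leaf 0x5498102763 2 (.leaf 0x3549810276 4 .done)) (.leaf 0x6309458127 1 (.leaf 0x3526781094 5 .done))) .done)) .done)) .done)) (.leaf 0x5210943678 1 (.node 2 7 (.cons 0x1276345890 .nil) (.leaf 0x6345890127 5 (.leaf 0x1098543672 2 (.node 2 6 (.cons 0x9034587621 .nil) (.node 1 3 (.cons 0x9031267854 .nil) (.node 0 7 (.cons 0x3126549870 .nil) (.leaf 0x4562130789 5 (.node 0 6 (.cons 0x9870654312 .nil) (.node 6 8 (.cons 0x5278609431 .nil) (.node 6 9 (.cons 0x2134569870 .nil) .done .done) .done) (.leaf 0x6549870312 6 .done))) (.leaf 0x2678549031 3 .done)) .done) .done))) (.leaf 0x943678521 3 .done)))) (.node 3 8 (.cons 0x9438765210 .nil) (.leaf 0x4901256783 4 (.node 3 7 .nil (.node 0 8 (.cons 0x9437801256 .nil) (.node 1 9 (.cons 0x7654321980 (.cons 0x7801943652 (.cons 0x4523678091 .nil))) (.leaf 0x5678019432 3 .done) (.leaf 0x7652108943 5 (.node 6 8 (.cons 0x9086734521 .nil) (.leaf 0x4901256873 4 (.leaf 0x9012568734 2 (.node 0 5 (.cons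 0x6789054321 (.cons 0x8673490521 (.cons 0x6873490521 .nil))) (.node 1 3 (.cons 0x8673125094 (.cons 0x6873125094 .nil)) .done (.leaf 0x8765012349 3 .done)) .done))) (.leaf 0x5673498012 1 .done)))) (.node 2 8 (.cons 0x5287634901 .nil) (.node 4 8 .nil (.node 3 9 (.cons 0x3948765210 .nil) (.leaf 0x7652109348 4 (.leaf 0x6521093487 2 (.leaf 0x6784930125 2 .done))) (.node 5 8 (.cons 0x2587634901 .nil) (.node 1 3 (.cons 0x6785490312 .nil) (.node 0 6 (.cons 0x2584906731 .nil) (.leaf 0x9485213760 8 (.leaf 0x3760948521 5 (.leaf 0x7312584906 7 .done))) (.node 2 6 (.cons 0x3094587621 .nil) (.node 1 8 (.cons 0x7621854903 .nil) (.leaf 0x2673094581 5 .done) (.leaf 0x945876213 6 (.leaf 0x945876213 5 .done))) .done)) (.node 1 8 .nil (.node 2 9 (.cons 0x4367852901 (.cons 0x5678129430 .nil)) (.leaf 0x6543092187 2 (.leaf 0x5678103492 1 .done)) (.node 0 8 .nil (.node 1 6 (.cons 0x5432167890 (.cons 0x9087612345 (.cons 0x9085216734 (.cons 0x9087612543 .nil))))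 .done .done) .done)) .done)) .done)) (.node 1 3 (.cons 0x9456782130 .nil) (.leaf 0x2549013678 8 (.leaf 0x8254901367 7 .done)) (.node 1 5 (.cons 0x1528763490 .nil) (.node 1 9 (.cons 0x5678219430 .nil) (.node 0 7 (.cons 0x3498215670 .nil) (.leaf 0x5634910782 5 (.leaf 0x3652870194 6 (.leaf 0x2156703498 2 .done))) (.node 7 9 (.cons 0x8215679430 .nil) (.node 3 5 (.cons 0x4912876530 .nil) (.node 5 9 (.cons 0x6783495210 .nil) .done .done) .done) .done)) (.node 6 8 (.cons 0x7863490152 .nil) (.node 2 6 (.cons 0x7862154903 .nil) (.leaf 0x1549037862 4 .done) (.node 2 7 (.cons 0x2789436510 .nil) (.leaf 0x7251094368 2 (.node 0 2 (.cons 0x7894365102 .nil) (.node 2 6 (.cons 0x8726309451 .nil) .done (.leaf 0x6349872015 4 .done)) .done)) .done)) (.leaf 0x7634901528 5 (.leaf 0x7634901528 6 .done)))) .done))) .done)) (.node 3 7 .nil (.node 6 8 (.cons 0x8673490125 .nil) (.leaf 0x4901256873 4 (.leaf 0x9012568734 2 (.node 0 8 (.cons 0x9437801256 .nil) (.node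 1 9 (.cons 0x7652194380 (.cons 0x6873452190 (.cons 0x4523678091 .nil))) (.leaf 0x5678019432 3 .done) (.leaf 0x7652108943 5 (.leaf 0x5673498012 1 .done))) .done))) (.node 2 8 (.cons 0x5287634901 .nil) (.node 1 7 (.cons 0x9436528710 .nil) (.leaf 0x943652871 2 (.node 4 6 (.cons 0x5287109463 .nil) (.node 3 5 (.cons 0x5364901782 .nil) (.leaf 0x1094635287 6 (.node 0 2 (.cons 0x9465387120 .nil) (.leaf 0x3564902178 8 (.leaf 0x8356490217 7 .done)) .done)) (.node 5 7 (.cons 0x9465712830 .nil) (.leaf 0x9823645710 5 (.leaf 0x9823645710 6 .done)) .done)) (.leaf 0x8256349017 5 .done))) (.node 5 9 (.cons 0x8765943012 .nil) (.node 3 5 .nil (.node 4 6 (.cons 0x1253876490 .nil) (.leaf 0x7890125346 4 (.leaf 0x123546789 2 (.leaf 0x9012354678 4 .done))) (.node 3 9 .nil (.node 0 5 (.cons 0x9436782501 (.cons 0x4936782501 (.cons 0x4398765012 .nil))) (.leaf 0x8765012349 3 .done) .done) .done)) (.node 4 7 (.cons 0x6598743210 .nil) (.node 6 8 (.cons 0x9568743210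 .nil) (.leaf 0x1234786590 7 (.leaf 0x1234786590 4 .done)) (.node 0 6 (.cons 0x7825943601 .nil) (.leaf 0x659874321 2 (.node 4 6 (.cons 0x7895643210 .nil) (.leaf 0x2378954601 6 (.leaf 0x2378954601 5 .done)) (.leaf 0x8956012347 6 .done))) .done)) (.leaf 0x128765943 7 (.leaf 0x1034956782 0 .done)))) (.node 1 3 (.cons 0x9456782130 .nil) (.leaf 0x2549013678 8 (.leaf 0x8254901367 7 .done)) .done))) .done)) .done))) (.node 5 8 (.cons 0x1258763490 .nil) (.leaf 0x2109436785 4 (.node 2 6 (.cons 0x3094587621 .nil) (.node 3 7 (.cons 0x8549037621 .nil) (.node 3 8 (.cons 0x9438765210 .nil) (.leaf 0x4901256783 4 (.node 1 7 (.cons 0x4901762583 .nil) (.leaf 0x9017625834 7 (.node 1 8 (.cons 0x9458126730 .nil) (.leaf 0x4581267309 7 (.leaf 0x7625490381 5 (.leaf 0x6218549037 7 .done))) (.leaf 0x2671094385 7 .done))) .done)) (.node 1 8 (.cons 0x5218763490 .nil) (.node 5 7 (.cons 0x2657349810 .nil) (.node 6 9 (.cons 0x2569437810 .nil) (.leaf 0x5781269034 8 (.node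 1 4 (.cons 0x3678521490 .nil) (.node 4 6 (.cons 0x3469018752 .nil) .done (.leaf 0x1096785234 0 (.leaf 0x6785234109 7 .done))) .done)) .done) (.leaf 0x945812673 2 (.leaf 0x5267349018 0 .done))) .done)) (.node 3 8 (.cons 0x9438765210 .nil) (.leaf 0x4901256783 4 (.node 1 5 (.cons 0x9451267830 .nil) (.leaf 0x4512678309 4 (.node 3 7 (.cons 0x8730945126 .nil) (.node 1 3 (.cons 0x6785490312 .nil) (.node 4 8 (.cons 0x7631258490 .nil) (.leaf 0x7310948526 1 (.leaf 0x9015263784 4 .done)) .done) .done) (.leaf 0x7621549038 3 .done))) (.node 1 5 (.cons 0x2678309451 .nil) (.node 1 3 (.cons 0x1387625490 .nil) (.leaf 0x2549013876 8 (.node 3 7 (.cons 0x8376251094 .nil) .done .done)) (.leaf 0x943876251 5 (.leaf 0x2678349015 2 .done))) .done))) .done)) (.node 2 6 (.cons 0x9034587621 .nil) (.node 3 7 (.cons 0x1267345890 .nil) (.node 0 5 (.cons 0x6789054321 .nil) (.leaf 0x3762105894 7 (.leaf 0x3762105894 4 (.leaf 0x3762105894 1 (.leaf 0x8765012349 3 .done))))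 (.leaf 0x4589012673 2 .done)) (.node 1 3 (.cons 0x9031267854 .nil) (.leaf 0x312678549 4 (.node 6 8 (.cons 0x7862130945 .nil) (.node 3 7 (.cons 0x1378625490 .nil) (.leaf 0x8625490137 6 (.node 3 5 (.cons 0x7862531094 .nil) (.node 3 9 (.cons 0x6785210934 .nil) .done .done) .done)) .done) (.leaf 0x2678549031 3 .done))) .done)) (.leaf 0x7634901258 4 .done)))) .done)))
noncomputable def uc9_9_1 : T := (.node 2 5 (.cons 0x3498765210 .nil) (.node 3 6 (.cons 0x8763490125 .nil) tc9_9_8 (.leaf 0x1256789430 8 (.node 0 2 .nil (.node 1 5 (.cons 0x6789021543 .nil) (.leaf 0x6789432015 3 (.leaf 0x156789432 4 (.leaf 0x2156789430 8 (.leaf 0x7651203498 5 .done)))) (.node 0 5 (.cons 0x6789054321 .nil) (.node 5 9 (.cons 0x8765943012 .nil) (.node 2 8 (.cons 0x9430128765 .nil) (.node 0 7 (.cons 0x6521078943 .nil) (.node 4 8 (.cons 0x7659843210 .nil) (.leaf 0x4895670123 2 (.leaf 0x9567012348 6 .done)) (.node 4 8 (.cons 0x7659843210 .nil) (.leaf 0x3489567012 4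 (.node 1 6 (.cons 0x5432167890 .nil) (.leaf 0x5610789432 4 (.node 5 8 (.cons 0x7612345890 .nil) (.leaf 0x9854321670 8 .done) (.node 1 4 (.cons 0x3289541670 .nil) (.leaf 0x7014328956 5 (.leaf 0x6703289541 7 (.leaf 0x3289567014 8 (.leaf 0x7614598230 5 .done)))) (.leaf 0x9876123450 3 .done)))) .done)) .done)) (.leaf 0x4301287659 2 (.leaf 0x3495678210 7 .done))) (.node 5 8 .nil (.node 1 6 (.cons 0x5432167890 (.cons 0x7612345890 (.cons 0x3094587612 (.cons 0x9034587612 .nil)))) (.leaf 0x7854903216 6 .done) (.node 3 5 .nil (.node 2 4 (.cons 0x9012435876 (.cons 0x6789421053 .nil)) (.leaf 0x1098765342 4 .done) (.node 3 6 (.cons 0x7894365210 .nil) (.node 1 7 (.cons 0x2563498710 .nil) (.leaf 0x4589021763 5 (.leaf 0x4589021763 6 (.leaf 0x5634987102 5 (.leaf 0x3652017894 6 .done)))) (.node 0 7 (.cons 0x1256349870 .nil) (.leaf 0x3652107894 2 (.node 3 7 (.cons 0x6734589021 .nil) (.node 0 4 (.cons 0x6378940521 .nil) (.node 0 8 (.cons 0x7653498012 .nil)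 .done .done) .done) .done)) .done)) .done)) .done)) .done)) (.node 0 7 (.cons 0x6521078943 .nil) (.node 0 6 .nil (.node 1 9 (.cons 0x7891234560 .nil) (.leaf 0x1987605432 2 (.leaf 0x2345607891 4 (.leaf 0x6789123450 6 .done))) (.node 0 8 .nil (.node 1 9 (.cons 0x7891065234 (.cons 0x7654321980 (.cons 0x3087654912 .nil))) (.leaf 0x876549123 5 .done) (.node 0 4 .nil (.node 1 9 (.cons 0x7891065234 (.cons 0x6540789123 (.cons 0x3219876540 .nil))) (.leaf 0x432567891 3 .done) .done) .done)) .done)) (.node 0 6 .nil (.node 1 9 (.cons 0x7891234560 .nil) (.leaf 0x1987605432 2 (.leaf 0x2345607891 1 (.leaf 0x6789123450 6 .done))) (.node 0 8 .nil (.node 1 9 (.cons 0x7654321980 (.cons 0x3087654912 .nil)) (.leaf 0x7654321980 1 (.leaf 0x876549123 5 .done)) (.node 0 4 .nil (.node 1 9 (.cons 0x3219876540 .nil) (.node 1 6 (.cons 0x7089165432 .nil) (.leaf 0x5610789432 4 (.leaf 0x9165432078 4 .done)) (.leaf 0x432567891 3 (.leaf 0x5403219876 5 .done))) .done) .done))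 .done)) .done)) (.leaf 0x8765012349 3 .done))) (.node 0 5 (.cons 0x6789054321 .nil) (.node 2 8 (.cons 0x7650128943 .nil) (.node 5 9 (.cons 0x8765943012 .nil) (.leaf 0x128765943 7 (.leaf 0x1034956782 0 .done)) (.node 3 5 .nil (.node 1 6 (.cons 0x5432167890 (.cons 0x8761209453 (.cons 0x4532167890 (.cons 0x7612890534 .nil)))) (.leaf 0x2035498761 4 .done) (.node 5 9 (.cons 0x1287659430 .nil) (.node 1 9 (.cons 0x5678219430 .nil) (.node 2 9 .nil (.node 1 4 (.cons 0x6789023541 .nil) (.leaf 0x1432987650 2 (.leaf 0x9876534102 5 (.leaf 0x3298765014 6 .done))) .done) (.leaf 0x3491287650 5 .done)) .done) .done)) .done)) (.node 0 7 (.cons 0x6521078943 .nil) (.node 0 6 .nil (.node 1 9 (.cons 0x8765491203 (.cons 0x7891234560 .nil)) (.leaf 0x2345607891 1 (.leaf 0x6789123450 6 .done)) (.node 1 6 (.cons 0x5432167890 .nil) (.leaf 0x5610789432 4 (.leaf 0x9876123450 6 (.node 3 7 (.cons 0x6125437890 .nil) (.node 0 8 (.cons 0x9806125437 .nil) (.node 0 4 .nil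 (.node 1 9 (.cons 0x8916073452 (.cons 0x3219876540 .nil)) (.leaf 0x432567891 3 (.leaf 0x5403219876 5 .done)) .done) .done) (.leaf 0x2160987345 7 .done)) .done))) .done)) .done) (.leaf 0x8765012349 3 .done))) .done))) (.leaf 0x7652103498 5 .done)))) (.node 0 5 (.cons 0x6789054321 .nil) tc9_9_7 (.node 0 5 (.cons 0x6789054321 .nil) tc9_9_6 (.node 2 5 (.cons 0x3498765210 .nil) (.leaf 0x4987652103 4 (.leaf 0x4987652103 7 (.leaf 0x8943012567 3 (.leaf 0x5678943012 1 .done)))) .done))))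
theorem sub_c9_9_1 : root 9 refs9_9 [] 0x800030005807000000007060000000060500000000501000030001040000000040300000000302000000002015000000010 0xfed7fe7fff3fff9fffddffe5ffe7fff3fff9ffdd 9 0 3 (.cons 0x5678943012 .nil) uc9_9_1 = true := by decide +kernel
noncomputable def tc9_9_9 : T := (.node 2 6 (.cons 0x3450987621 .nil) (.node 0 6 (.cons 0x7894321065 .nil) (.node 1 3 (.cons 0x6789054312 .nil) (.node 4 6 (.cons 0x7890546213 .nil) (.node 0 3 (.cons 0x7890312645 .nil) (.node 3 5 (.cons 0x5346789012 .nil) (.node 3 7 (.cons 0x5462137890 .nil) (.leaf 0x2137890546 7 (.node 3 9 (.cons 0x4398765012 .nil) .done .done)) .done) .done) .done) (.leaf 0x7890543126 5 .done)) .done) (.node 1 3 (.cons 0x7894312650 .nil) (.node 0 7 (.cons 0x3498705621 .nil) (.leaf 0x5621349870 3 (.node 0 6 (.cons 0x7894321065 .nil) (.node 0 3 (.cons 0x6549870321 .nil) (.node 1 7 (.cons 0x3498712650 .nil) (.node 1 5 (.cons 0x5178943260 .nil) (.leaf 0x9432605178 7 (.leaf 0x1789432605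 0 .done)) (.leaf 0x7126503498 2 .done)) .done) .done) (.leaf 0x8705621349 4 .done))) (.node 0 7 (.cons 0x3498705621 .nil) (.node 5 7 (.cons 0x6578943210 .nil) (.node 1 7 (.cons 0x3498712650 .nil) (.node 0 3 (.cons 0x5621789430 .nil) (.leaf 0x8712650349 4 (.node 1 4 (.cons 0x1498756230 .nil) (.leaf 0x5623014987 8 .done) .done)) .done) (.node 0 2 (.cons 0x6578943201 .nil) (.leaf 0x6134987502 2 (.leaf 0x1657894320 2 (.node 2 7 (.cons 0x8905436721 .nil) (.node 2 8 (.cons 0x9432875610 .nil) (.leaf 0x7823490165 8 .done) .done) .done))) .done)) (.leaf 0x789431265 2 (.node 0 6 (.cons 0x9876054312 .nil) (.node 0 8 (.cons 0x9087612345 .nil) (.node 0 3 (.cons 0x7894560321 .nil) (.node 1 7 (.cons 0x3498712650 .nil) (.node 6 8 (.cons 0x9456871230 .nil) (.leaf 0x3217865490 2 (.leaf 0x3217865490 8 .done)) (.leaf 0x7126503498 2 .done)) .done) .done) .done) .done))) .done)) .done)) (.node 0 6 (.cons 0x7894321065 .nil) (.node 5 7 (.cons 0x6578943210 .nil)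 (.node 4 6 .nil (.node 5 9 (.cons 0x8761234590 .nil) (.leaf 0x6432105987 7 (.leaf 0x4678950123 0 (.node 5 8 (.cons 0x7609854321 (.cons 0x7859016432 .nil)) (.leaf 0x3467859012 2 .done) .done))) (.node 2 6 (.cons 0x3450987621 .nil) (.node 6 9 (.cons 0x8756943210 .nil) (.node 2 9 (.cons 0x8761290543 .nil) (.node 3 9 (.cons 0x4398765012 .nil) .done .done) .done) (.node 6 8 (.cons 0x3490578621 .nil) (.node 6 9 (.cons 0x8756943210 .nil) .done .done) .done)) .done)) (.leaf 0x1234987560 5 (.node 4 6 .nil (.node 5 9 (.cons 0x8761234590 .nil) (.leaf 0x6432105987 7 (.leaf 0x4678950123 0 .done)) (.node 5 8 (.cons 0x7609854321 .nil) (.node 1 7 (.cons 0x8906712345 .nil) (.node 7 9 (.cons 0x6123458790 .nil) (.leaf 0x1234587906 5 (.node 0 2 (.cons 0x6578943201 .nil) (.leaf 0x4589712063 5 (.leaf 0x1657894320 2 (.leaf 0x978543612 1 .done))) (.leaf 0x1234587906 6 .done))) (.leaf 0x5890671234 2 (.leaf 0x4589067123 4 .done))) (.node 5 9 (.cons 0x8761234590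 .nil) (.node 0 3 (.cons 0x9032167854 .nil) (.leaf 0x9458761230 2 (.node 0 8 (.cons 0x7659801234 .nil) (.leaf 0x4321678095 5 .done) .done)) .done) .done)) .done)) .done))) (.node 3 9 (.cons 0x4398765012 .nil) (.node 2 9 (.cons 0x8761290543 .nil) (.node 5 9 (.cons 0x8761234590 .nil) (.node 1 9 .nil (.node 0 7 (.cons 0x8701659432 (.cons 0x8706549123 .nil)) (.leaf 0x2198706543 2 .done) (.node 5 8 (.cons 0x7854906123 .nil) (.node 7 9 (.cons 0x6123458790 .nil) (.leaf 0x612345879 2 .done) (.node 3 7 (.cons 0x1237894560 .nil) (.leaf 0x8549061237 2 (.node 0 3 (.cons 0x2198765430 .nil) (.leaf 0x9458761230 2 (.node 1 3 (.cons 0x6789054312 .nil) .done .done)) (.leaf 0x2160945873 5 .done))) .done)) .done)) .done) (.node 2 6 (.cons 0x3450987621 .nil) (.node 4 6 .nil (.node 2 7 (.cons 0x2789436501 (.cons 0x8934672105 .nil)) (.leaf 0x4365012789 4 (.leaf 0x2105643987 1 .done)) (.node 6 9 .nil (.node 0 7 (.cons 0x8705612943 (.cons 0x8701234965 .nil)) (.node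 0 8 (.cons 0x7805612943 (.cons 0x7809612345 .nil)) .done .done) .done) .done)) .done) .done)) (.node 3 8 (.cons 0x9054387612 .nil) (.node 2 9 (.cons 0x8761290543 .nil) (.node 0 8 (.cons 0x9087612345 .nil) (.node 5 8 (.cons 0x4390587612 .nil) (.node 0 4 (.cons 0x7856123940 .nil) (.node 0 7 (.cons 0x4932165870 .nil) .done (.leaf 0x6123904587 6 .done)) .done) .done) (.leaf 0x1290543876 4 .done)) (.node 3 7 (.cons 0x1237894560 .nil) (.node 2 9 (.cons 0x9216783450 .nil) (.node 0 7 (.cons 0x6705438921 .nil) (.leaf 0x5438921670 6 .done) (.node 2 7 (.cons 0x1638729450 .nil) (.leaf 0x612783945 3 (.node 0 3 (.cons 0x7894560321 .nil) (.leaf 0x5492167830 4 (.leaf 0x5612789430 4 .done)) .done)) .done)) .done) .done)) .done)) .done)) (.node 2 6 (.cons 0x3450987621 .nil) (.node 2 9 (.cons 0x8761290543 .nil) (.node 3 8 (.cons 0x9054387612 .nil) (.leaf 0x1290543876 4 (.node 3 7 (.cons 0x8905437621 .nil) (.node 4 8 (.cons 0x1294873650 .nil) (.node 1 8 (.cons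 0x4921873650 .nil) (.leaf 0x3450981267 0 (.node 5 7 (.cons 0x6578943210 .nil) (.leaf 0x7362184905 0 (.leaf 0x1263750948 2 .done)) .done)) (.leaf 0x7365012948 8 .done)) (.node 0 8 (.cons 0x1654923780 .nil) (.leaf 0x8732945610 0 (.leaf 0x9237801654 2 (.leaf 0x2945610873 7 .done))) .done)) (.node 0 7 (.cons 0x1654923870 .nil) (.node 3 7 (.cons 0x8905437621 .nil) (.node 1 8 (.cons 0x9812673450 .nil) (.leaf 0x9054376218 2 (.leaf 0x6294507381 1 (.leaf 0x4507381629 5 (.leaf 0x2673450981 5 .done)))) .done) (.leaf 0x9238701654 2 (.leaf 0x2945610783 7 .done))) .done))) (.node 3 8 (.cons 0x7834921650 .nil) (.node 2 7 (.cons 0x1278943650 .nil) (.node 6 9 (.cons 0x6905438721 .nil) (.leaf 0x8345096127 4 (.leaf 0x1278349650 3 (.leaf 0x7210569438 4 .done))) (.node 2 8 (.cons 0x7821634905 .nil) (.node 0 8 (.cons 0x7805612943 .nil) (.node 1 5 (.cons 0x6349872150 .nil) (.leaf 0x923451678 8 (.leaf 0x8092345167 7 (.leaf 0x872943615 6 .done))) .done) .done)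 (.leaf 0x2789436501 2 .done))) (.node 7 9 (.cons 0x1267983450 .nil) (.leaf 0x2679834501 7 (.node 4 8 (.cons 0x5092167843 .nil) (.node 1 7 (.cons 0x2178943650 .nil) (.node 2 7 (.cons 0x1278943650 .nil) (.node 3 7 (.cons 0x8734921650 .nil) (.node 4 7 (.cons 0x9834762105 .nil) .done .done) (.leaf 0x2789436501 2 .done)) (.node 0 4 (.cons 0x5632178940 .nil) (.leaf 0x7123650498 7 (.leaf 0x1236504987 8 (.leaf 0x4987123650 0 .done))) .done)) (.node 1 5 (.cons 0x5167843290 .nil) (.leaf 0x4329051678 8 (.leaf 0x8432905167 7 (.leaf 0x1678432905 0 .done))) .done)) (.leaf 0x3897621054 7 .done))) (.leaf 0x3876129054 2 .done))) .done)) (.node 2 9 (.cons 0x8761290543 .nil) (.node 3 9 (.cons 0x4398765012 .nil) (.node 2 4 (.cons 0x2439876501 .nil) (.node 0 2 (.cons 0x7894365021 .nil) (.node 2 5 (.cons 0x4367890521 .nil) .done .done) (.leaf 0x8765012439 5 .done)) .done) (.node 2 8 (.cons 0x7821634905 .nil) (.node 3 8 (.cons 0x7834921650 .nil) (.node 0 8 (.cons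 0x7805612943 .nil) (.node 3 7 (.cons 0x8734921650 .nil) (.leaf 0x8732165490 8 (.leaf 0x5612943780 5 .done)) (.node 1 5 (.cons 0x4367890512 .nil) (.leaf 0x923451678 8 (.leaf 0x8092345167 7 (.node 0 4 (.cons 0x3405678921 .nil) (.leaf 0x7632154098 4 (.leaf 0x6321540987 2 .done)) .done))) .done)) (.leaf 0x3876129054 2 .done)) (.node 2 7 (.cons 0x1278943650 .nil) (.node 3 8 (.cons 0x7834921650 .nil) (.node 6 9 (.cons 0x6905438721 .nil) (.leaf 0x7210569438 1 (.leaf 0x1278349650 3 (.leaf 0x7210569438 4 .done))) (.leaf 0x3876129054 2 .done)) .done) .done)) .done)) .done)) .done)))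
noncomputable def tc9_9_10 : T := (.node 3 6 (.cons 0x7894365012 .nil) tc9_9_9 (.node 0 7 (.cons 0x8907612345 .nil) (.node 5 8 (.cons 0x7612345890 .nil) (.leaf 0x6123458907 1 (.leaf 0x6123458907 3 (.leaf 0x6123458907 4 .done))) (.node 0 6 (.cons 0x7894321065 .nil) (.node 3 6 (.cons 0x1236549870 .nil) (.node 4 6 (.cons 0x5649870123 .nil) (.node 2 7 (.cons 0x2789436501 .nil) (.leaf 0x4365012789 4 (.node 3 8 (.cons 0x9456078321 .nil) (.leaf 0x5072163894 3 (.leaf 0x8945072163 1 (.leaf 0x7054983612 7 .done))) (.node 2 6 (.cons 0x3450987621 .nil) (.node 3 7 (.cons 0x8943721650 .nil) (.node 2 9 (.cons 0x8734921056 .nil) (.node 6 8 (.cons 0x8673450921 .nil) (.leaf 0x2943786501 2 .done) .done) (.node 2 8 (.cons 0x9821673450 .nil) (.leaf 0x9054376128 2 (.leaf 0x8945073612 1 .done)) .done)) .done) .done))) .done) (.node 2 6 (.cons 0x3450987621 .nil) (.node 3 9 (.cons 0x8706549321 .nil) (.node 2 9 .nil (.node 3 8 (.cons 0x9456078321 (.cons 0x7612983450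 .nil)) (.leaf 0x8921670543 0 (.leaf 0x3450921678 1 .done)) (.node 1 3 (.cons 0x4312987650 .nil) (.node 0 4 (.cons 0x3405678921 .nil) (.leaf 0x4056789213 2 (.leaf 0x5678921340 6 .done)) (.node 4 6 (.cons 0x7892134650 .nil) (.leaf 0x7892134650 1 (.leaf 0x9870564312 5 .done)) (.leaf 0x7890543126 5 .done))) .done)) (.node 1 8 (.cons 0x2394560781 .nil) (.leaf 0x4560781239 1 (.leaf 0x4560781239 4 (.leaf 0x6549321870 3 (.node 5 9 (.cons 0x8760954321 .nil) (.leaf 0x4590678123 4 (.leaf 0x7609543218 3 .done)) .done)))) .done)) .done) .done)) (.node 0 8 (.cons 0x7089456123 .nil) (.node 5 7 (.cons 0x6578943210 .nil) (.node 1 7 (.cons 0x5601789432 .nil) (.node 2 5 (.cons 0x7894325601 .nil) (.leaf 0x8943256017 0 (.leaf 0x8943256017 8 (.leaf 0x9871065234 7 .done))) (.node 1 9 (.cons 0x8756019432 .nil) (.node 6 9 (.cons 0x8756943210 .nil) (.leaf 0x4578096123 5 (.node 0 4 (.cons 0x3219876540 .nil) (.leaf 0x6578043219 8 (.leaf 0x5691234087 7 .done)) .done))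 .done) .done)) (.node 0 2 (.cons 0x6578943201 .nil) (.leaf 0x234987561 2 (.node 0 3 (.cons 0x6549870321 .nil) (.node 0 4 .nil (.node 1 9 (.cons 0x8703219456 (.cons 0x3219876540 .nil)) (.leaf 0x456789123 1 .done) .done) .done) .done)) .done)) .done) .done)) (.node 5 7 (.cons 0x6578943210 .nil) (.node 0 8 (.cons 0x9432108756 .nil) (.node 5 8 (.cons 0x7612345890 .nil) (.node 1 5 (.cons 0x8907615432 .nil) (.node 2 8 (.cons 0x5432890761 .nil) (.node 2 5 (.cons 0x6523498701 .nil) (.node 1 8 (.cons 0x9810765234 .nil) (.node 1 9 (.cons 0x5432891670 .nil) (.leaf 0x7619823450 5 .done) .done) .done) (.leaf 0x982345167 7 .done)) .done) (.node 2 8 (.cons 0x5432890761 .nil) (.node 2 7 (.cons 0x7234985610 .nil) (.leaf 0x9856107234 4 (.node 1 8 (.cons 0x5618943270 .nil) (.leaf 0x6189432705 8 (.node 1 9 (.cons 0x5432891670 .nil) (.leaf 0x7619823450 5 .done) .done)) .done)) (.leaf 0x5761094328 4 (.node 3 8 (.cons 0x9057612834 .nil) (.leaf 0x2167509438 5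 .done) .done))) .done)) (.node 0 6 (.cons 0x7894321065 .nil) (.node 5 8 (.cons 0x7612345890 .nil) (.leaf 0x3458907612 5 (.node 3 8 (.cons 0x9083216754 .nil) (.node 6 8 (.cons 0x7586109432 .nil) (.node 3 7 (.cons 0x7321654980 .nil) (.leaf 0x945732168 2 (.leaf 0x9086123754 7 .done)) (.node 1 5 (.cons 0x6875123490 .nil) (.leaf 0x9432157860 2 (.leaf 0x9432157860 8 .done)) .done)) (.leaf 0x2167549083 7 (.leaf 0x1238094576 5 .done))) .done)) .done) .done)) (.node 5 8 (.cons 0x7612345890 .nil) (.leaf 0x3458907612 5 (.node 5 9 .nil (.node 4 6 (.cons 0x2346785901 .nil) (.leaf 0x4678950123 2 (.leaf 0x5987012346 3 (.leaf 0x7895012346 6 .done))) (.node 4 8 (.cons 0x7659843210 .nil) (.node 0 3 (.cons 0x9845761230 .nil) (.node 0 6 (.cons 0x4987560123 .nil) (.node 1 9 (.cons 0x9123067845 .nil) (.leaf 0x6032195487 2 (.leaf 0x678459123 7 .done)) .done) (.leaf 0x5761230984 7 (.leaf 0x5761230984 4 .done))) (.leaf 0x9567012348 3 .done)) .done)) .done)) .done))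 .done))) (.leaf 0x9876123450 6 (.node 5 7 (.cons 0x6578943210 .nil) (.node 2 5 (.cons 0x3452167890 .nil) (.node 0 7 (.cons 0x8907612543 .nil) (.node 0 3 (.cons 0x6549870321 .nil) (.leaf 0x5498703216 7 (.leaf 0x5498703216 3 (.leaf 0x5498703216 4 (.node 0 8 (.cons 0x9432108756 .nil) (.node 3 8 (.cons 0x7612543890 .nil) (.leaf 0x7612543890 1 (.node 3 9 (.cons 0x4398765012 .nil) (.node 2 4 (.cons 0x8394216570 .nil) (.leaf 0x7561249380 2 (.leaf 0x7561249380 8 .done)) .done) .done)) .done) .done)))) (.node 3 8 (.cons 0x7612543890 .nil) (.leaf 0x5438907612 5 (.leaf 0x4521670983 7 (.node 3 5 .nil (.node 2 6 (.cons 0x5623498701 (.cons 0x4350987621 .nil)) (.node 1 8 (.cons 0x9810765234 (.cons 0x6235490781 .nil)) (.leaf 0x5490781623 4 (.leaf 0x5490781623 7 .done)) (.leaf 0x8943562107 7 .done)) (.node 1 5 (.cons 0x6510789432 .nil) (.node 5 8 .nil (.node 3 7 (.cons 0x8943701652 (.cons 0x6107349852 (.cons 0x4376125890 .nil))) .done .done) .done) .done))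 (.node 3 7 (.cons 0x8943701652 .nil) (.node 1 7 (.cons 0x6712509834 .nil) (.node 2 7 (.cons 0x6501278943 .nil) (.node 0 3 (.cons 0x6549871230 .nil) (.leaf 0x4521678903 4 (.leaf 0x2789430561 4 (.leaf 0x8721650349 3 .done))) .done) .done) .done) .done)))) .done)) (.node 0 3 (.cons 0x5430987612 .nil) (.node 5 8 (.cons 0x9034587612 .nil) (.node 1 5 .nil (.node 6 8 (.cons 0x9034521687 (.cons 0x6875109432 (.cons 0x6875123490 .nil))) .done (.node 3 5 .nil (.node 0 4 (.cons 0x6789045321 .nil) (.leaf 0x5321049876 2 (.leaf 0x3521678904 8 (.leaf 0x3567894012 7 .done))) (.node 5 9 .nil (.node 2 8 (.cons 0x6109435782 (.cons 0x7821659430 .nil)) (.leaf 0x1034956782 6 .done) .done) .done)) .done)) (.node 3 5 .nil (.node 0 4 (.cons 0x6789045321 .nil) (.leaf 0x5321049876 2 (.leaf 0x3521678904 8 (.leaf 0x3567894012 7 .done))) (.node 5 9 .nil (.node 0 8 (.cons 0x9432108756 .nil) (.leaf 0x9543216780 3 (.leaf 0x8012349567 2 .done)) (.node 1 5 .nil (.node 4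 6 (.cons 0x8764590321 (.cons 0x9015876432 (.cons 0x5109876432 .nil))) (.leaf 0x2154678903 3 .done) .done) .done)) .done)) .done)) (.leaf 0x4521678903 8 (.node 0 7 (.cons 0x9870345612 .nil) (.node 2 9 (.cons 0x7892165430 .nil) (.leaf 0x5612987034 3 (.node 0 8 (.cons 0x9432108756 .nil) (.node 1 9 (.cons 0x6578019432 .nil) (.node 4 8 (.cons 0x3219845670 .nil) (.leaf 0x2198456703 3 (.leaf 0x5489123076 4 .done)) .done) .done) (.leaf 0x8921654307 4 .done))) (.node 0 8 (.cons 0x9432108756 .nil) (.node 2 9 (.cons 0x7892165430 .nil) (.leaf 0x1654307892 1 (.node 6 8 (.cons 0x9034578612 .nil) (.leaf 0x7543092168 7 (.leaf 0x1290345786 8 .done)) (.node 2 8 (.cons 0x9034578216 .nil) (.node 6 9 (.cons 0x8756943210 .nil) (.leaf 0x4321087569 2 (.leaf 0x5782169034 5 (.leaf 0x8754309612 1 .done))) .done) .done))) .done) .done)) (.leaf 0x8903452167 5 .done)))) (.node 0 3 (.cons 0x5430987612 .nil) (.leaf 0x1678903452 3 (.leaf 0x1678903452 7 (.leaf 0x1678903452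 4 (.leaf 0x987612543 1 .done)))) .done))) (.node 0 7 .nil (.node 2 5 (.cons 0x3452167890 (.cons 0x8907612543 .nil)) (.leaf 0x789432561 5 (.leaf 0x789432561 6 .done)) (.node 2 7 (.cons 0x6501278943 .nil) (.node 1 7 .nil (.node 0 6 (.cons 0x4987560123 (.cons 0x8906712345 (.cons 0x3217894560 (.cons 0x5601789432 .nil)))) .done .done) (.node 0 3 (.cons 0x5612789430 .nil) (.leaf 0x2789430561 4 (.leaf 0x8721650349 3 (.leaf 0x3498721650 1 .done))) .done)) (.node 2 5 (.cons 0x3452167890 .nil) (.leaf 0x789432561 5 (.node 3 8 (.cons 0x7612543890 .nil) (.leaf 0x5438907612 5 (.leaf 0x4521670983 7 (.node 2 4 (.cons 0x9876501243 .nil) (.leaf 0x6109834257 6 (.leaf 0x6109834257 5 .done)) (.node 2 4 (.cons 0x5243890761 .nil) (.node 0 4 (.cons 0x6578940123 .nil) (.node 4 6 (.cons 0x5764098321 .nil) (.node 1 5 (.cons 0x2389046751 .nil) (.leaf 0x2346789015 0 (.leaf 0x4098321576 1 .done)) .done) .done) (.node 1 9 (.cons 0x5243891670 .nil) (.leaf 0x2438916705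 0 (.leaf 0x2438916705 8 .done)) .done)) .done)))) (.leaf 0x789432561 6 .done))) .done))) (.node 0 2 (.cons 0x6578943201 .nil) (.leaf 0x5789432016 5 (.node 3 8 (.cons 0x2098345761 .nil) (.leaf 0x983457612 5 (.node 2 9 (.cons 0x1675438920 .nil) (.leaf 0x167543892 2 (.node 1 4 (.cons 0x5761438920 .nil) (.leaf 0x2983416750 8 (.leaf 0x2983416750 0 (.leaf 0x9205761438 7 .done))) .done)) (.node 6 8 (.cons 0x7568943201 .nil) (.node 1 7 (.cons 0x4986571023 .nil) (.leaf 0x2017568943 5 (.leaf 0x234986571 7 (.node 0 7 (.cons 0x6549832071 .nil) (.node 0 3 (.cons 0x6549871230 .nil) (.node 0 6 (.cons 0x3217894560 .nil) (.leaf 0x7894560321 5 .done) .done) .done) .done))) (.node 2 6 (.cons 0x3450987621 .nil) (.node 2 5 (.cons 0x3452167890 .nil) (.node 7 9 (.cons 0x1625438790 .nil) (.leaf 0x162543879 2 (.leaf 0x8345261097 5 (.node 1 4 (.cons 0x7983416520 .nil) (.node 5 8 (.cons 0x5834167902 .nil) (.leaf 0x1679025834 4 .done) (.leaf 0x9783416250 8 (.leaf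 0x9765021438 5 .done))) .done))) (.leaf 0x2610943875 1 .done)) (.node 1 7 (.cons 0x1756894320 .nil) (.node 2 9 (.cons 0x3492178650 .nil) (.leaf 0x8710562943 5 .done) (.leaf 0x234986571 1 (.node 0 7 (.cons 0x6549832071 .nil) (.node 1 9 (.cons 0x4567198320 .nil) (.leaf 0x6238701945 6 .done) .done) .done))) .done)) .done)) (.leaf 0x9021675438 7 .done)))) (.leaf 0x5789432016 6 (.node 0 7 .nil (.node 2 5 (.cons 0x3452167890 (.cons 0x8907612543 .nil)) (.leaf 0x789432561 5 (.leaf 0x789432561 6 .done)) (.node 2 7 (.cons 0x6501278943 .nil) (.node 3 7 (.cons 0x3789456120 .nil) (.node 3 6 (.cons 0x4987563201 .nil) (.leaf 0x7210563498 2 (.node 5 8 (.cons 0x2758943610 .nil) (.leaf 0x7201634985 4 (.leaf 0x2105894367 6 .done)) (.node 2 5 (.cons 0x5278943610 .nil) (.leaf 0x3498725016 7 (.leaf 0x3498725016 3 (.leaf 0x3498725016 4 .done))) .done))) .done) (.node 0 3 (.cons 0x5612789430 .nil) (.leaf 0x2789430561 4 (.leaf 0x8721650349 3 (.leaf 0x3498721650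 1 .done))) .done)) .done)) .done)))) .done))) .done))))
noncomputable def tc9_9_11 : T := (.node 0 7 (.cons 0x4589076123 .nil) (.leaf 0x6123458907 3 (.node 0 8 (.cons 0x7089456123 .nil) (.node 0 6 (.cons 0x7894321065 .nil) (.node 3 7 (.cons 0x8945612370 .nil) (.node 6 8 (.cons 0x7321685490 .nil) (.leaf 0x3709458612 4 (.node 4 7 (.cons 0x5861237490 .nil) (.node 0 3 (.cons 0x9854761230 .nil) (.leaf 0x7458903216 2 (.leaf 0x6745890321 4 .done)) (.leaf 0x8612374905 3 (.leaf 0x8612374905 7 .done))) .done)) (.leaf 0x9456123708 5 (.leaf 0x6094587321 1 (.leaf 0x9061237854 5 .done)))) (.node 6 8 .nil (.node 3 5 (.cons 0x8907612354 (.cons 0x6870945321 (.cons 0x7012356894 .nil))) (.leaf 0x945321687 3 .done) (.node 3 6 (.cons 0x1236549870 .nil) (.node 1 8 (.cons 0x9456321870 .nil) (.leaf 0x3218709456 5 (.node 6 9 (.cons 0x5496321870 .nil) (.leaf 0x7812369450 1 (.leaf 0x7812369450 3 .done)) .done)) .done) .done)) .done)) (.node 0 3 (.cons 0x6549870321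 .nil) (.node 0 6 (.cons 0x7894321065 .nil) (.node 6 8 (.cons 0x9456870321 .nil) (.node 3 6 (.cons 0x1236549870 .nil) (.node 4 6 (.cons 0x5649870123 .nil) (.node 3 5 (.cons 0x7894356012 .nil) (.leaf 0x2109467853 3 .done) .done) .done) .done) .done) (.node 0 2 .nil (.node 1 5 (.cons 0x6789021543 .nil) (.leaf 0x9023451678 4 (.leaf 0x5432098761 1 .done)) (.node 0 6 (.cons 0x7894321065 .nil) (.node 0 4 .nil (.node 3 5 (.cons 0x7894356012 .nil) (.leaf 0x2354098761 4 (.leaf 0x4098761235 3 .done)) .done) .done) .done)) .done)) .done)) (.leaf 0x9076123458 4 (.node 2 5 (.cons 0x6523498701 .nil) (.leaf 0x5234987016 2 (.node 0 8 .nil (.node 1 9 (.cons 0x8910765234 .nil) (.leaf 0x5670891234 5 (.leaf 0x4567809123 4 .done)) (.node 1 5 (.cons 0x8907615432 .nil) (.node 5 7 (.cons 0x6578943210 .nil) (.node 4 7 (.cons 0x3216745890 .nil) (.node 3 9 (.cons 0x6587493210 .nil) (.leaf 0x5476123908 6 (.leaf 0x6521089347 5 (.leaf 0x2567439801 6 .done))) (.node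 0 3 (.cons 0x9854761230 .nil) (.node 0 2 (.cons 0x8902167543 .nil) (.node 0 6 (.cons 0x3498756012 .nil) .done .done) (.leaf 0x7458903216 2 .done)) .done)) .done) (.node 2 8 (.cons 0x5432890761 .nil) (.leaf 0x6709823451 2 (.leaf 0x7615432890 7 (.node 2 6 (.cons 0x3451267890 .nil) (.leaf 0x789432651 5 (.node 0 3 (.cons 0x6789034512 .nil) (.leaf 0x7621543098 4 (.leaf 0x6215430987 2 .done)) .done)) .done))) .done)) .done)) .done)) .done)))) (.node 0 7 (.cons 0x3458907612 .nil) (.leaf 0x6123458907 7 (.node 0 8 (.cons 0x7089456123 .nil) (.node 4 8 (.cons 0x5489076123 .nil) (.node 3 9 (.cons 0x5489321670 .nil) (.leaf 0x4893216705 7 (.node 3 6 (.cons 0x1236549870 .nil) (.node 1 8 (.cons 0x9456321870 .nil) (.leaf 0x3218709456 5 (.leaf 0x2365490781 7 .done)) (.node 1 4 (.cons 0x5632149870 .nil) (.node 0 2 (.cons 0x2078563941 .nil) (.node 1 5 (.cons 0x2398451670 .nil) (.leaf 0x4516702398 8 .done) (.leaf 0x5639412078 7 .done)) (.leaf 0x6507894123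 4 .done)) .done)) (.leaf 0x1239845076 7 .done))) .done) .done) (.node 3 6 (.cons 0x5634987012 .nil) (.node 2 5 (.cons 0x8907612543 .nil) (.leaf 0x125876349 5 (.leaf 0x5210789436 2 (.leaf 0x1078943652 6 .done))) (.node 2 5 (.cons 0x2563498701 .nil) (.node 3 5 (.cons 0x6534987012 .nil) (.node 2 6 (.cons 0x7852634901 .nil) (.leaf 0x1078943562 5 (.node 1 5 (.cons 0x8709436251 .nil) (.node 2 4 (.cons 0x7894236510 .nil) (.leaf 0x9876324510 4 (.leaf 0x9876324510 1 .done)) .done) .done)) .done) (.leaf 0x4987012563 5 (.node 3 8 (.cons 0x5438907612 .nil) (.leaf 0x1670983452 4 (.leaf 0x7612543890 3 (.node 3 7 (.cons 0x2167345890 .nil) (.node 6 8 (.cons 0x8612549073 .nil) (.leaf 0x3709452168 0 .done) (.node 0 6 (.cons 0x8945216073 .nil) (.leaf 0x2160738945 5 (.leaf 0x7389452160 8 .done)) .done)) .done))) .done))) (.node 2 6 (.cons 0x5621078943 .nil) (.node 1 5 (.cons 0x2156349870 .nil) (.leaf 0x9436215870 3 (.leaf 0x9436215870 4 .done)) (.node 3 5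 (.cons 0x6534987012 .nil) (.leaf 0x1078943562 6 (.leaf 0x1078943562 5 (.node 0 3 (.cons 0x3078945621 .nil) (.node 1 3 (.cons 0x3126549870 .nil) (.leaf 0x1265498703 0 (.leaf 0x4987031265 8 .done)) (.node 0 2 (.cons 0x5634987021 .nil) (.node 3 9 (.cons 0x6785439021 .nil) .done .done) .done)) .done))) .done)) .done))) (.leaf 0x9854321670 8 .done)))) (.node 1 9 .nil (.node 0 2 (.cons 0x6785432091 (.cons 0x7658910234 .nil)) (.leaf 0x3458761902 3 (.leaf 0x1987654320 1 .done)) (.node 2 9 .nil (.node 4 7 (.cons 0x5890167432 (.cons 0x5892347610 (.cons 0x6501298743 .nil))) (.leaf 0x8923476105 2 (.leaf 0x4329850167 0 .done)) (.node 2 5 (.cons 0x7610985234 .nil) (.node 1 5 .nil (.node 0 2 (.cons 0x6789021543 .nil) (.leaf 0x9023451678 4 (.leaf 0x1567894320 7 .done)) (.node 5 9 .nil (.node 0 8 (.cons 0x6780954321 .nil) (.leaf 0x2345908761 3 (.leaf 0x8012349567 2 (.node 4 7 (.cons 0x5890167432 (.cons 0x8590167432 .nil)) (.leaf 0x3476109852 4 (.leaf 0x6109852347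 3 (.leaf 0x6598012347 6 .done))) .done))) .done) .done)) (.node 0 2 .nil (.node 1 5 (.cons 0x6789021543 .nil) (.leaf 0x9023451678 4 (.leaf 0x5432098761 1 .done)) (.node 7 9 (.cons 0x6587943201 .nil) (.leaf 0x234978561 8 (.node 5 7 (.cons 0x6578943210 .nil) (.node 4 8 (.cons 0x6758432901 .nil) (.leaf 0x7584329016 5 (.leaf 0x5761092348 7 .done)) (.node 4 7 (.cons 0x5890167432 .nil) (.node 5 9 (.cons 0x8590167432 .nil) .done (.leaf 0x8901674325 4 .done)) .done)) (.leaf 0x234978561 0 .done))) .done)) .done)) (.node 2 7 (.cons 0x7234985610 .nil) (.node 6 9 (.cons 0x7896501234 .nil) (.node 3 8 (.cons 0x5694387210 .nil) (.leaf 0x9612783450 8 (.leaf 0x9054387216 2 (.leaf 0x3872105694 2 .done))) (.node 4 8 (.cons 0x9016723485 .nil) (.node 7 9 (.cons 0x8432796105 .nil) (.leaf 0x4850169723 4 .done) (.node 3 9 (.cons 0x2784396501 .nil) (.leaf 0x2105693487 2 .done) .done)) .done)) (.node 0 7 (.cons 0x2345890761 .nil) (.leaf 0x6123458907 4 (.leaf 0x9856107234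 5 (.node 7 9 (.cons 0x6105897234 .nil) (.node 4 7 (.cons 0x5890167432 .nil) (.node 1 7 (.cons 0x8509234716 .nil) .done .done) .done) (.node 7 9 (.cons 0x6105897234 .nil) (.node 4 7 (.cons 0x8923470561 .nil) (.node 1 7 (.cons 0x8509234716 .nil) .done .done) .done) .done)))) (.leaf 0x6109854327 4 .done))) .done))) (.node 0 2 (.cons 0x3456789120 .nil) (.node 7 9 (.cons 0x6587943201 .nil) (.leaf 0x2016587943 7 (.node 1 8 (.cons 0x8167902345 .nil) (.leaf 0x5432097618 1 (.node 0 3 (.cons 0x2198765430 .nil) (.leaf 0x3456789120 0 (.node 2 9 (.cons 0x8765430291 .nil) (.leaf 0x345678192 6 (.node 2 5 (.cons 0x4301987652 .nil) (.node 5 9 (.cons 0x8167954320 .nil) .done .done) (.leaf 0x9203456781 2 .done))) .done)) (.leaf 0x2097618543 5 .done))) (.leaf 0x234978561 0 .done))) (.node 2 5 (.cons 0x7610985234 .nil) (.node 4 7 (.cons 0x9856743201 .nil) (.leaf 0x4765891023 2 (.leaf 0x3476109852 4 (.leaf 0x6109852347 3 (.node 6 9 (.cons 0x2347896501 .nil)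 (.leaf 0x569874321 5 (.node 1 4 (.cons 0x7896501432 .nil) (.leaf 0x967852341 8 (.leaf 0x3258769014 7 .done)) (.leaf 0x8965012347 8 .done))) .done)))) (.node 4 7 (.cons 0x9856743201 .nil) (.leaf 0x4765891023 2 (.leaf 0x8901674325 4 (.node 2 9 (.cons 0x3476589201 .nil) (.node 1 3 (.cons 0x1347658920 .nil) (.leaf 0x3476589201 1 (.leaf 0x8567431029 7 (.leaf 0x8567431029 4 .done))) .done) (.leaf 0x7610985234 1 .done)))) .done)) (.node 1 4 (.cons 0x7614589023 .nil) (.node 3 6 (.cons 0x9023678541 .nil) (.leaf 0x6785419023 0 (.leaf 0x4190236785 8 (.leaf 0x4587632091 2 .done))) (.node 1 3 (.cons 0x7613209854 .nil) (.node 3 6 (.cons 0x4587631902 .nil) (.node 2 4 (.cons 0x7891056342 .nil) (.leaf 0x4209136785 2 (.leaf 0x913678542 6 .done)) (.node 4 7 (.cons 0x2198743650 .nil) (.leaf 0x1205634789 4 (.leaf 0x2056347891 2 (.leaf 0x6132098547 4 .done))) .done)) (.node 4 7 (.cons 0x3209854761 .nil) (.leaf 0x2098547613 7 (.leaf 0x2098547613 1 (.leaf 0x2098547613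 3 .done))) .done)) .done)) .done))) .done))) .done)))
noncomputable def tc9_9_12 : T := (.node 5 7 (.cons 0x6578943210 .nil) (.node 0 6 (.cons 0x4987560123 .nil) (.leaf 0x1234987560 5 (.node 1 7 (.cons 0x3217894560 .nil) (.node 3 6 (.cons 0x4987563210 .nil) (.leaf 0x6321789450 2 (.node 0 3 (.cons 0x7894560321 .nil) (.node 6 8 (.cons 0x6894571230 .nil) (.leaf 0x945786123 0 (.leaf 0x7123068945 0 .done)) (.node 6 8 (.cons 0x3216875490 .nil) (.leaf 0x5786123094 7 (.leaf 0x2168754903 7 .done)) .done)) (.leaf 0x7123605498 6 .done))) (.node 0 3 (.cons 0x7894560321 .nil) (.leaf 0x654987123 1 (.leaf 0x8945603217 4 (.node 0 7 .nil (.node 3 8 (.cons 0x6123875490 .nil) (.leaf 0x5607123894 3 (.leaf 0x654983217 4 (.leaf 0x2160945783 5 .done))) .done) .done))) .done)) (.leaf 0x5789432106 2 (.node 0 7 .nil (.node 5 8 (.cons 0x9078543216 .nil) (.leaf 0x9432165870 1 (.leaf 0x1670985432 2 (.leaf 0x3490785612 5 .done))) (.node 1 7 (.cons 0x5601789432 .nil)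 (.node 2 5 (.cons 0x7894325601 .nil) (.leaf 0x8943256017 0 (.leaf 0x8943256017 8 .done)) .done) .done)) .done)))) (.node 0 7 .nil (.node 5 8 (.cons 0x9078543216 .nil) (.leaf 0x9432165870 1 (.leaf 0x2167098543 4 (.leaf 0x3490785612 5 .done))) (.node 0 3 (.cons 0x6549870321 .nil) (.leaf 0x2165498703 4 (.node 0 2 .nil (.node 1 3 (.cons 0x8902134576 .nil) (.leaf 0x4567890213 4 (.node 0 6 (.cons 0x9876021345 .nil) (.leaf 0x9431206578 5 (.leaf 0x3498756021 1 .done)) .done)) (.node 2 6 (.cons 0x3498756210 .nil) (.node 2 9 (.cons 0x6578921034 .nil) (.node 6 8 (.cons 0x3457689021 .nil) (.leaf 0x1290345786 4 (.leaf 0x7543092168 4 (.node 1 3 (.cons 0x7568943120 .nil) (.leaf 0x7568943120 1 (.leaf 0x5786213490 6 .done)) .done))) .done) (.leaf 0x5789430126 3 .done)) .done)) (.leaf 0x7894561230 4 .done))) (.node 2 5 (.cons 0x6523498701 .nil) (.node 2 6 (.cons 0x3498756210 .nil) (.node 1 3 (.cons 0x1326549870 .nil) (.node 0 2 (.cons 0x8902134576 .nil)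 (.node 0 3 (.cons 0x6578943012 .nil) .done .done) (.node 0 6 (.cons 0x3498756012 .nil) (.leaf 0x5789062134 8 (.leaf 0x5789062134 2 .done)) (.leaf 0x789456231 0 .done))) (.node 0 3 (.cons 0x1265789430 .nil) (.leaf 0x5789430126 4 (.leaf 0x5789430126 3 .done)) .done)) (.leaf 0x6107894325 2 (.node 2 6 (.cons 0x3498756210 .nil) (.node 1 8 (.cons 0x3457621890 .nil) (.node 2 9 (.cons 0x9234561870 .nil) (.leaf 0x6187092345 0 .done) (.leaf 0x4981075623 5 (.leaf 0x756234981 8 (.node 2 9 (.cons 0x6781290543 .nil) (.node 3 6 (.cons 0x7812943650 .nil) (.leaf 0x3678129054 2 (.leaf 0x5634921870 8 .done)) .done) .done)))) (.node 0 3 (.cons 0x1265789430 .nil) (.leaf 0x5789430126 4 (.leaf 0x5789430126 3 .done)) .done)) .done))) .done))) (.node 0 2 (.cons 0x6578943201 .nil) (.node 2 5 (.cons 0x8752349016 .nil) (.node 4 6 (.cons 0x6432578901 .nil) (.leaf 0x4325789016 0 (.leaf 0x5789016432 7 (.leaf 0x7523461098 2 .done))) (.node 2 9 .nil (.node 0 4 (.cons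 0x5678921043 (.cons 0x5678923401 .nil)) (.leaf 0x1657892340 2 .done) (.node 2 6 .nil (.node 2 8 (.cons 0x9432875610 .nil) (.leaf 0x7823490165 8 (.node 3 5 (.cons 0x8753261094 .nil) (.node 0 4 (.cons 0x1298765340 .nil) (.leaf 0x5321049876 2 (.leaf 0x3567894012 7 .done)) (.leaf 0x4901628753 4 (.leaf 0x7826109435 4 .done))) .done)) .done) .done)) .done)) (.leaf 0x1657894320 2 (.node 2 5 (.cons 0x8752349016 .nil) (.node 4 8 (.cons 0x6752348901 .nil) (.node 2 8 (.cons 0x9432875610 .nil) (.leaf 0x7823490165 8 (.node 2 6 .nil (.node 1 9 (.cons 0x6752348910 (.cons 0x5762348910 (.cons 0x8762190543 .nil))) (.leaf 0x2675019843 6 .done) .done) .done)) (.leaf 0x5761098432 7 (.leaf 0x7523489016 2 .done))) (.node 4 6 (.cons 0x6432578901 .nil) (.leaf 0x4325789016 0 (.leaf 0x5789016432 7 (.leaf 0x7523461098 2 .done))) .done)) .done))) .done))) (.leaf 0x4321678905 3 (.node 0 7 (.cons 0x3216549870 .nil) (.node 0 3 (.cons 0x7894561230 .nil) (.node 0 2 .nil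 (.node 1 9 (.cons 0x8912307654 (.cons 0x3456789120 .nil)) (.leaf 0x6543201987 4 .done) (.node 3 9 (.cons 0x8761239054 .nil) (.node 4 7 (.cons 0x1654789320 .nil) (.leaf 0x3201654789 7 (.node 3 5 (.cons 0x4532167890 .nil) (.node 0 6 (.cons 0x9874532160 .nil) (.leaf 0x5478906123 8 (.leaf 0x3547890612 7 .done)) .done) (.leaf 0x2398745610 2 (.leaf 0x2398745610 8 .done)))) (.node 4 8 (.cons 0x7849321650 .nil) (.node 7 9 (.cons 0x5489761230 .nil) (.leaf 0x3216798450 2 (.leaf 0x3216798450 8 .done)) (.leaf 0x8761239054 0 (.leaf 0x2167845093 2 .done))) .done)) .done)) (.node 0 2 .nil (.node 1 9 (.cons 0x3456789120 .nil) (.leaf 0x8765430219 4 (.leaf 0x6543201987 4 .done)) (.node 5 7 (.cons 0x6578943210 .nil) (.node 2 6 (.cons 0x3498756210 .nil) (.leaf 0x1265789430 4 (.leaf 0x5789430126 3 .done)) (.node 3 5 (.cons 0x4532167890 .nil) (.node 4 8 (.cons 0x7612354890 .nil) (.leaf 0x2354890761 3 (.node 2 6 (.cons 0x2675348901 .nil) (.leaf 0x3489012675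 5 (.node 1 5 (.cons 0x7621534890 .nil) (.leaf 0x3489076215 2 (.leaf 0x2670984351 5 .done)) .done)) (.leaf 0x9845321670 4 .done))) .done) .done)) .done)) (.leaf 0x7894561230 1 .done))) (.node 0 6 (.cons 0x7894321065 .nil) (.node 0 4 (.cons 0x5409876123 .nil) (.node 5 7 (.cons 0x6578943210 .nil) (.leaf 0x1234987560 5 (.node 0 3 (.cons 0x7894561230 .nil) (.node 3 5 (.cons 0x4532167890 .nil) (.node 4 8 (.cons 0x7612354890 .nil) (.leaf 0x5321670984 4 (.node 2 6 (.cons 0x2675348901 .nil) (.leaf 0x3489012675 5 (.node 1 8 (.cons 0x6234905781 .nil) (.leaf 0x8750943261 0 (.leaf 0x9057816234 2 .done)) .done)) .done)) .done) .done) .done)) .done) (.node 0 4 (.cons 0x5409876123 .nil) (.node 0 3 (.cons 0x7894561230 .nil) (.node 1 7 (.cons 0x5601789432 .nil) (.node 0 8 .nil (.node 1 9 (.cons 0x6543078912 (.cons 0x7654321980 .nil)) (.leaf 0x4567809123 4 .done) (.node 0 2 .nil (.node 1 3 (.cons 0x9456087132 .nil) (.leaf 0x1654987023 1 (.leaf 0x4987023165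 3 .done)) .done) .done)) (.node 2 5 (.cons 0x3254987160 .nil) (.leaf 0x8943256017 0 (.leaf 0x8943256017 8 (.leaf 0x9871065234 7 .done))) .done)) .done) .done) .done)) (.node 0 3 (.cons 0x7894561230 .nil) (.node 0 4 (.cons 0x5409876123 .nil) (.node 0 6 (.cons 0x7894321065 .nil) .done .done) (.leaf 0x6549870321 5 .done)) .done))) (.node 2 5 (.cons 0x3452167890 .nil) (.node 2 9 (.cons 0x8761290543 .nil) (.node 0 2 .nil (.node 1 9 (.cons 0x3456789120 .nil) (.node 0 4 (.cons 0x5678910432 .nil) (.node 0 3 (.cons 0x5430987612 .nil) (.leaf 0x8765430219 4 (.leaf 0x9876540321 4 .done)) (.leaf 0x1987652340 7 .done)) (.leaf 0x6543201987 4 .done)) (.node 3 7 (.cons 0x9873456120 .nil) (.leaf 0x4561209873 4 (.node 1 9 .nil (.node 0 6 (.cons 0x7894321065 (.cons 0x8732194506 (.cons 0x5437891602 .nil))) (.leaf 0x8912065437 0 .done) (.node 6 9 (.cons 0x5437896120 .nil) (.node 1 8 (.cons 0x2345096781 .nil) (.leaf 0x2345096781 1 (.leaf 0x6920543781 4 (.leaf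 0x5096781234 5 .done))) (.node 1 8 (.cons 0x7812349650 .nil) (.leaf 0x2345096781 7 (.leaf 0x3218769054 5 (.leaf 0x7690543218 8 .done))) .done)) .done)) (.node 0 3 (.cons 0x5430987612 .nil) (.node 3 9 (.cons 0x7893456120 .nil) (.node 3 8 (.cons 0x7612543890 .nil) (.leaf 0x1290543876 4 (.node 0 7 (.cons 0x9834521670 .nil) (.leaf 0x7612543890 1 (.leaf 0x2543890761 3 .done)) .done)) .done) .done) (.leaf 0x8902165437 4 .done)))) .done)) (.node 3 5 (.cons 0x8761290534 .nil) (.node 3 8 (.cons 0x7834921650 .nil) (.node 0 7 (.cons 0x9834521670 .nil) (.leaf 0x7612543890 1 (.leaf 0x2543890761 3 (.leaf 0x4521670983 7 .done))) (.leaf 0x3876129054 2 (.node 0 7 (.cons 0x4356129870 .nil) (.leaf 0x5612943870 6 (.node 1 4 (.cons 0x9834125670 .nil) (.leaf 0x2143890765 8 (.leaf 0x3890765214 7 (.node 0 6 (.cons 0x4356078921 .nil) (.leaf 0x9214356078 7 (.node 2 4 (.cons 0x7890612453 .nil) (.node 2 6 (.cons 0x9438705621 .nil) .done .done) (.leaf 0x789214356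 0 .done))) .done))) (.leaf 0x7056129438 2 .done))) .done))) (.node 3 9 .nil (.node 0 8 (.cons 0x7805612943 (.cons 0x7805612934 (.cons 0x7652108934 .nil))) (.leaf 0x1678054392 6 (.leaf 0x876129345 2 .done)) (.node 0 3 (.cons 0x5430987612 .nil) (.node 0 2 (.cons 0x7894356102 .nil) (.node 1 4 (.cons 0x6789023541 .nil) (.node 4 7 (.cons 0x5612987430 .nil) (.leaf 0x1203987456 3 (.leaf 0x216547893 7 (.leaf 0x216547893 4 .done))) (.leaf 0x9023541678 5 (.leaf 0x1023567894 0 .done))) .done) .done) .done)) .done)) .done)) (.node 0 3 (.cons 0x5430987612 .nil) (.leaf 0x4521678903 8 (.node 0 6 (.cons 0x7890612543 .nil) (.node 5 7 (.cons 0x6578943210 .nil) (.leaf 0x1234987560 5 (.node 1 8 (.cons 0x3457609812 .nil) (.leaf 0x1890675432 2 (.node 0 2 (.cons 0x9812067543 .nil) (.node 2 6 (.cons 0x3498756210 .nil) (.leaf 0x1265789430 4 (.leaf 0x5789430126 3 .done)) .done) (.leaf 0x6098123457 6 .done))) (.node 0 2 (.cons 0x6578943201 .nil) (.node 3 7 (.cons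 0x3789456120 .nil) (.leaf 0x4561203789 1 (.node 1 8 (.cons 0x2345760981 .nil) (.leaf 0x5732061894 7 (.leaf 0x7549816023 0 (.node 2 7 (.cons 0x9872165430 .nil) (.leaf 0x1654309872 4 (.leaf 0x2756018943 2 .done)) .done))) (.leaf 0x2160987345 7 .done))) .done) .done))) (.node 0 2 .nil (.node 3 7 (.cons 0x1237894560 .nil) (.leaf 0x4561209873 4 (.leaf 0x6125437890 0 (.leaf 0x8945601237 7 (.leaf 0x8902165437 4 .done)))) (.node 3 7 (.cons 0x1237894560 .nil) (.node 3 5 (.cons 0x8735490612 .nil) (.node 2 8 (.cons 0x5490612873 .nil) (.leaf 0x4906128735 4 (.leaf 0x4906128735 7 (.leaf 0x2160945378 1 .done))) (.node 5 8 (.cons 0x6094587321 .nil) (.leaf 0x7612098543 1 (.node 5 7 (.cons 0x6578943210 .nil) (.node 1 5 (.cons 0x8732154906 .nil) (.node 5 9 (.cons 0x8732106594 .nil) .done .done) .done) .done)) .done)) (.leaf 0x6125437890 0 (.leaf 0x8945601237 7 (.node 6 8 (.cons 0x5094378612 .nil) (.leaf 0x7349052168 7 (.node 5 7 (.cons 0x6578943210 .nil)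 (.leaf 0x8750943216 4 (.node 2 6 (.cons 0x3498756210 .nil) (.leaf 0x1265789430 4 .done) (.node 0 8 (.cons 0x2089437561 .nil) (.leaf 0x3498021657 6 (.node 1 7 (.cons 0x1756894320 .nil) (.leaf 0x2306549871 4 (.leaf 0x234986571 1 (.leaf 0x6520894371 4 .done))) .done)) .done))) .done)) .done)))) .done)) (.node 1 7 (.cons 0x5601789432 .nil) (.leaf 0x652349871 7 (.leaf 0x8943256017 8 (.leaf 0x6017894325 5 .done))) .done))) (.leaf 0x8903452167 5 .done))) (.node 0 3 (.cons 0x5430987612 .nil) (.leaf 0x1678903452 7 (.leaf 0x1678903452 4 (.leaf 0x987612543 1 .done))) .done))) .done))))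
noncomputable def tc9_9_13 : T := (.node 1 6 (.cons 0x5432167890 .nil) tc9_9_12 (.leaf 0x1234987650 6 (.node 1 6 (.cons 0x5432167890 .nil) (.node 0 8 (.cons 0x9087612345 .nil) (.node 3 5 (.cons 0x9087612354 .nil) (.leaf 0x4908761235 2 (.node 0 3 (.cons 0x9456123087 .nil) (.node 1 9 (.cons 0x9123087654 .nil) (.leaf 0x1230876549 0 (.leaf 0x8032194567 2 (.leaf 0x876549123 7 .done))) (.node 3 6 .nil (.node 1 5 (.cons 0x4512367890 (.cons 0x2154367890 .nil)) (.leaf 0x4908763215 2 .done) (.node 3 9 .nil (.node 3 7 (.cons 0x9456123780 .nil) (.leaf 0x8732165490 8 (.node 0 2 (.cons 0x7802165493 .nil) (.node 1 5 (.cons 0x7894365120 .nil) (.leaf 0x9876345120 3 (.leaf 0x5102349876 2 .done)) (.leaf 0x8739456120 4 (.leaf 0x1654937802 4 .done))) .done)) .done) .done)) .done)) (.node 0 3 (.cons 0x9456123087 .nil) (.node 1 9 (.cons 0x9123087654 .nil) (.leaf 0x1230876549 0 (.leaf 0x8032194567 2 (.leaf 0x876549123 7 .done))) (.node 1 7 (.cons 0x6178094532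 .nil) (.node 3 7 (.cons 0x9456123780 .nil) (.leaf 0x8732165490 8 (.node 3 6 .nil (.node 0 6 (.cons 0x7894321065 .nil) (.leaf 0x8712360549 3 (.leaf 0x8712360549 7 .done)) .done) .done)) (.leaf 0x8032176549 2 (.leaf 0x894567123 7 .done))) .done)) .done))) (.node 5 8 .nil (.node 0 7 (.cons 0x9432107856 .nil) (.leaf 0x9432165870 1 (.leaf 0x2165870943 5 (.leaf 0x3498567012 4 .done))) (.node 0 3 (.cons 0x9032167854 .nil) (.leaf 0x9458761230 2 (.node 3 9 (.cons 0x4587612390 .nil) (.node 2 4 (.cons 0x1678542390 .nil) (.node 5 9 (.cons 0x8761234590 .nil) (.leaf 0x876593421 8 (.leaf 0x876593421 2 .done)) (.node 2 5 (.cons 0x7652439801 .nil) (.node 3 5 (.cons 0x9801243567 .nil) .done .done) (.leaf 0x1678542390 0 .done))) (.node 2 5 (.cons 0x9087612543 .nil) (.leaf 0x7809345216 3 (.leaf 0x876125439 4 .done)) .done)) (.node 3 9 (.cons 0x4587612390 .nil) (.node 4 7 (.cons 0x4765893210 .nil) (.node 3 6 (.cons 0x9478563210 .nil) (.leaf 0x9478563210 0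 .done) (.leaf 0x1674580932 5 (.node 2 9 (.cons 0x3016587492 .nil) (.node 3 6 (.cons 0x9874365012 .nil) (.leaf 0x2987436501 2 .done) (.leaf 0x6587492301 6 .done)) (.leaf 0x5476123908 8 .done)))) (.node 2 5 (.cons 0x9087612543 .nil) (.leaf 0x7809345216 3 (.leaf 0x876125439 4 .done)) .done)) .done))) (.node 2 5 (.cons 0x9087612543 .nil) (.node 3 5 .nil (.node 2 4 (.cons 0x9801243567 .nil) (.leaf 0x1098765342 4 (.node 2 7 (.cons 0x9432785610 (.cons 0x6127809453 (.cons 0x9435612780 .nil))) .done .done)) (.node 3 9 (.cons 0x6780934521 .nil) (.node 3 6 (.cons 0x9087634521 .nil) (.node 6 8 (.cons 0x9054321687 .nil) (.node 7 9 (.cons 0x2349785610 .nil) (.leaf 0x8012563497 4 (.leaf 0x4365210879 4 (.leaf 0x8612345097 2 .done))) .done) .done) (.leaf 0x7809345216 3 .done)) .done)) (.leaf 0x3490167852 4 (.leaf 0x8761094325 4 .done))) .done))) (.node 5 9 (.cons 0x8761234590 .nil) (.leaf 0x4321678095 5 (.node 5 8 .nil (.node 0 7 (.cons 0x9432107856 .nil)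 (.leaf 0x9432165870 1 (.leaf 0x2165870943 5 (.leaf 0x4985670123 2 .done))) (.node 4 8 (.cons 0x3216784590 .nil) (.node 0 3 (.cons 0x9548761230 .nil) (.leaf 0x7845903216 8 (.leaf 0x3216784590 0 .done)) .done) .done)) (.leaf 0x876123459 2 (.node 4 8 (.cons 0x5901678432 .nil) (.node 2 9 (.cons 0x5923487610 .nil) (.leaf 0x9234876105 2 (.node 2 5 (.cons 0x9523487610 .nil) (.node 7 9 (.cons 0x6523497801 .nil) (.leaf 0x879432561 7 (.leaf 0x3497801652 7 .done)) (.node 7 9 (.cons 0x8432597610 .nil) (.leaf 0x5610879432 0 (.leaf 0x8432597610 0 .done)) .done)) (.leaf 0x8432950167 6 .done))) (.node 2 5 (.cons 0x3487610952 .nil) (.leaf 0x7610952348 4 (.leaf 0x7610952348 1 (.node 5 8 .nil (.node 0 7 (.cons 0x8701659432 (.cons 0x9432107856 .nil)) (.leaf 0x2165870943 5 (.leaf 0x4985670123 2 .done)) .done) .done))) .done)) .done)))) .done))) (.node 5 8 (.cons 0x7612345890 .nil) tc9_9_11 (.leaf 0x5098761234 2 (.leaf 0x4509876123 4 .done)))) (.leaf 0x5012349876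 2 (.node 1 6 (.cons 0x5432167890 .nil) tc9_9_10 (.node 1 6 (.cons 0x5432167890 .nil) (.leaf 0x543216789 2 (.leaf 0x9054321678 4 (.node 0 3 (.cons 0x7894561230 .nil) (.node 0 7 (.cons 0x3216549870 .nil) (.leaf 0x4561230789 5 (.node 0 4 (.cons 0x5409876123 .nil) (.node 0 6 (.cons 0x7894321065 .nil) .done .done) .done)) (.node 0 4 (.cons 0x5409876123 .nil) (.node 0 6 (.cons 0x7894321065 .nil) (.node 0 7 (.cons 0x3216549870 .nil) (.node 3 9 (.cons 0x8761239045 .nil) (.node 0 2 .nil (.node 1 4 (.cons 0x9876501432 (.cons 0x8932076541 (.cons 0x5416789320 (.cons 0x5678934102 .nil)))) .done (.node 0 8 .nil (.node 1 9 (.cons 0x7891206543 (.cons 0x7654321980 (.cons 0x7654308912 .nil))) .done .done) .done)) (.node 5 8 (.cons 0x7856123940 .nil) (.leaf 0x1239045876 7 (.leaf 0x2390458761 8 (.leaf 0x8761239045 0 .done))) .done)) .done) .done) (.node 0 6 (.cons 0x7894321065 .nil) (.node 3 5 (.cons 0x4532167890 .nil) (.node 0 7 (.cons 0x3216549870 .nil)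 (.node 5 7 (.cons 0x6578943210 .nil) (.node 2 6 (.cons 0x3498756210 .nil) (.node 4 8 (.cons 0x9845670321 .nil) (.node 2 9 (.cons 0x4329876501 .nil) (.leaf 0x1053294876 0 (.leaf 0x4356789210 4 .done)) (.leaf 0x7621098435 5 .done)) (.leaf 0x5789430126 4 .done)) .done) .done) (.leaf 0x9876123540 5 .done)) .done) .done)) (.node 0 7 (.cons 0x3216549870 .nil) (.leaf 0x3216549870 1 (.node 0 8 .nil (.node 1 9 (.cons 0x7654321980 .nil) (.leaf 0x2345670891 4 (.leaf 0x8076543219 4 .done)) (.node 3 5 (.cons 0x4532167890 .nil) (.node 5 7 (.cons 0x6578943210 .nil) (.node 2 6 (.cons 0x3498756210 .nil) (.leaf 0x1265789430 4 (.node 4 8 (.cons 0x5762109843 .nil) (.node 2 9 (.cons 0x4329876501 .nil) (.leaf 0x1053294876 0 (.leaf 0x8765349210 4 .done)) (.leaf 0x7621098435 5 .done)) (.leaf 0x5789430126 3 .done))) .done) (.node 4 8 (.cons 0x7612354890 .nil) (.leaf 0x2354890761 3 (.leaf 0x9845321670 4 .done)) .done)) .done)) (.node 0 8 .nil (.node 1 9 (.cons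 0x6543078912 (.cons 0x7654321980 .nil)) (.leaf 0x4567809123 4 .done) (.node 1 7 (.cons 0x6501789432 .nil) (.node 3 6 (.cons 0x9456321780 .nil) (.leaf 0x8712365490 8 (.leaf 0x8712365490 2 (.leaf 0x7809456321 7 (.node 5 7 (.cons 0x6578943210 .nil) (.node 0 4 (.cons 0x1236578940 .nil) (.leaf 0x7563210498 7 (.leaf 0x5789401236 8 .done)) .done) .done)))) (.node 2 6 (.cons 0x3261789450 .nil) (.leaf 0x8943265017 2 (.leaf 0x8943265017 0 (.node 1 3 (.cons 0x5621349870 .nil) (.leaf 0x7894312650 8 (.leaf 0x7894312650 2 .done)) .done))) .done)) .done)) .done))) .done))) (.node 1 9 .nil (.node 0 6 (.cons 0x7894321065 (.cons 0x8760912345 .nil)) (.leaf 0x9123450678 4 (.node 0 7 (.cons 0x8706549123 .nil) (.leaf 0x2198706543 8 (.leaf 0x7891234560 0 .done)) .done)) (.node 1 4 (.cons 0x9876501432 .nil) (.node 2 9 (.cons 0x4329876501 .nil) (.leaf 0x1056789234 1 (.node 1 7 (.cons 0x6501789432 .nil) (.node 2 6 (.cons 0x8917623450 .nil) (.leaf 0x8943265017 2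 (.leaf 0x8943265017 0 (.leaf 0x9871056234 7 .done))) (.node 1 8 (.cons 0x9234187650 .nil) (.leaf 0x4329056781 3 (.node 2 7 (.cons 0x8910567234 .nil) (.node 6 8 (.cons 0x9186723450 .nil) (.leaf 0x5432768190 4 (.leaf 0x5432768190 1 (.leaf 0x9432786501 0 .done))) (.node 4 8 (.cons 0x7650198432 .nil) (.leaf 0x9105672348 3 (.leaf 0x3489105672 4 .done)) .done)) .done)) .done)) .done)) (.node 2 9 (.cons 0x4329876501 .nil) (.leaf 0x8765014329 7 (.leaf 0x7892341056 5 .done)) .done)) (.node 1 7 (.cons 0x6501789432 .nil) (.node 2 9 (.cons 0x4329876501 .nil) (.node 2 6 (.cons 0x7894326501 .nil) (.node 1 8 (.cons 0x9054326781 .nil) (.leaf 0x2345091876 4 (.node 5 9 (.cons 0x9501876234 .nil) (.node 2 4 (.cons 0x9501876243 .nil) (.node 0 7 (.cons 0x6705432981 .nil) (.leaf 0x6189234507 2 (.node 4 7 (.cons 0x8923476501 .nil) (.leaf 0x9234765018 6 .done) .done)) .done) .done) .done)) (.node 1 4 (.cons 0x3267890541 .nil) (.node 3 7 (.cons 0x4987326501 .nil)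 (.leaf 0x562378941 8 (.leaf 0x562378941 2 (.leaf 0x562378941 0 .done))) (.node 1 3 (.cons 0x9876231450 .nil) (.leaf 0x8762314509 2 (.leaf 0x8905413267 8 .done)) .done)) (.leaf 0x4326501789 7 .done))) (.node 1 4 (.cons 0x1432987650 .nil) (.node 0 4 (.cons 0x3219876540 .nil) (.node 1 8 (.cons 0x9234056781 .nil) (.leaf 0x5043291876 7 (.leaf 0x567819234 8 .done)) (.node 0 8 (.cons 0x7650892341 .nil) (.leaf 0x1432980567 0 (.node 0 7 (.cons 0x9807654123 .nil) .done .done)) .done)) (.leaf 0x7892341056 5 .done)) .done)) (.node 2 6 (.cons 0x7894326501 .nil) (.leaf 0x8943265017 2 (.leaf 0x8943265017 0 (.leaf 0x9871056234 7 (.node 2 9 (.cons 0x4329876501 .nil) (.node 1 8 (.cons 0x6718923450 .nil) (.node 0 6 (.cons 0x8923450671 .nil) (.leaf 0x9234506718 1 (.node 6 8 (.cons 0x1768923450 .nil) (.leaf 0x7689234501 4 (.node 6 9 (.cons 0x7189605432 .nil) .done .done)) (.leaf 0x9234506718 7 .done))) .done) .done) .done)))) .done)) .done))) .done)))) .done))))))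
noncomputable def uc9_9_2 : T := tc9_9_13
theorem sub_c9_9_2 : root 9 refs9_9 [] 0x800060005807000000007060000000060500000000501000060001040000000040300000000302000000002015000000010 0xfe9ffe7fff3fff9fffddffadffe7fff3fff9ffdd 9 0 5 (.cons 0x6789054321 .nil) uc9_9_2 = true := by decide +kernel
noncomputable def tc9_9_14 : T := (.leaf 0x4321678905 6 (.node 3 5 .nil (.node 0 4 (.cons 0x9876534012 .nil) (.leaf 0x6532104987 4 (.leaf 0x5321678904 3 (.leaf 0x6532104987 1 (.leaf 0x3567894012 3 .done)))) (.node 2 5 (.cons 0x7610985234 .nil) (.node 0 2 (.cons 0x7658943201 .nil) (.node 1 9 (.cons 0x6785432091 .nil) (.node 2 4 .nil (.node 6 9 (.cons 0x7856910234 (.cons 0x4235876901 (.cons 0x2435876901 .nil))) (.node 1 5 (.cons 0x8769023451 (.cons 0x8769015324 (.cons 0x8769015342 .nil))) .done (.leaf 0x7853421096 4 .done)) (.node 2 7 (.cons 0x1672345890 .nil) (.leaf 0x6109854327 4 (.node 2 9 .nil (.node 4 7 (.cons 0x5890167432 (.cons 0x6587432910 (.cons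 0x8534761092 (.cons 0x8923476501 .nil)))) .done (.node 2 6 .nil (.node 0 4 (.cons 0x5890432761 (.cons 0x6278534091 (.cons 0x7891043265 .nil))) (.leaf 0x3587261904 7 .done) .done) .done)) .done)) .done)) (.leaf 0x5432091678 4 (.leaf 0x5432091678 7 .done))) (.node 0 7 (.cons 0x2349856701 .nil) (.leaf 0x6123458907 4 (.node 2 8 (.cons 0x5670128943 .nil) (.leaf 0x2107653498 0 (.leaf 0x7653498210 7 .done)) (.node 4 7 (.cons 0x3209854761 .nil) (.node 1 3 (.cons 0x8945670231 .nil) (.leaf 0x2098547613 7 (.leaf 0x6745890231 8 .done)) (.node 3 7 (.cons 0x4985673201 .nil) (.node 1 4 (.cons 0x1498567320 .nil) (.leaf 0x5673201498 7 (.leaf 0x4985673201 0 (.node 2 6 (.cons 0x7341625890 .nil) (.leaf 0x3416258907 6 (.leaf 0x2614370985 2 .done)) .done))) .done) (.leaf 0x6109852347 1 .done))) .done))) .done)) (.node 4 7 (.cons 0x5890167432 .nil) (.node 5 9 (.cons 0x8590167432 .nil) (.node 6 8 (.cons 0x9568743210 .nil) (.leaf 0x1234786590 7 (.leaf 0x1234786590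 4 (.leaf 0x1234786590 1 .done))) (.node 5 7 .nil (.node 4 6 (.cons 0x8764359012 .nil) (.leaf 0x1098756432 4 (.leaf 0x987564321 2 .done)) .done) .done)) (.leaf 0x8901674325 4 (.node 5 7 .nil (.node 2 6 (.cons 0x8576234901 .nil) (.leaf 0x6109857432 1 (.leaf 0x9857432610 3 .done)) .done) (.leaf 0x7610985234 1 .done)))) .done)) (.node 2 5 (.cons 0x7610985234 .nil) (.node 4 7 (.cons 0x5890167432 .nil) (.node 0 2 (.cons 0x7658943201 .nil) (.node 2 4 .nil (.node 3 9 (.cons 0x5678934210 .nil) (.node 0 4 (.cons 0x5678934012 .nil) (.leaf 0x3987652104 4 .done) (.leaf 0x934258761 4 (.leaf 0x9342105678 2 .done))) (.node 2 7 (.cons 0x1672345890 .nil) (.leaf 0x6109854327 4 (.node 2 8 (.cons 0x9016743285 .nil) (.node 2 6 .nil (.node 0 7 (.cons 0x2349856701 (.cons 0x4358907261 .nil)) (.leaf 0x3562107894 1 (.leaf 0x6534987012 3 .done)) .done) .done) .done)) .done)) (.node 1 3 (.cons 0x7613209854 .nil) (.node 3 8 (.cons 0x9476583201 .nil) (.node 5 9 (.cons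 0x6749583201 .nil) (.leaf 0x238594761 2 (.leaf 0x238594761 8 .done)) (.node 1 5 (.cons 0x6749023851 .nil) (.leaf 0x238516749 2 (.leaf 0x947615832 8 .done)) .done)) (.leaf 0x6745890231 8 .done)) .done)) (.leaf 0x3476109852 4 (.leaf 0x6109852347 3 (.node 0 7 (.cons 0x2349856701 .nil) (.leaf 0x6123458907 4 (.node 0 2 (.cons 0x7658943201 .nil) (.node 7 9 (.cons 0x7985610234 .nil) (.leaf 0x6102347985 6 (.node 0 8 (.cons 0x4325809761 .nil) (.node 3 9 (.cons 0x6780934521 .nil) (.leaf 0x934521678 4 .done) .done) .done)) .done) (.node 2 6 (.cons 0x9870126534 .nil) (.leaf 0x126534987 7 (.node 3 8 (.cons 0x5438907612 .nil) (.node 1 9 (.cons 0x1943852670 .nil) (.leaf 0x8345076219 5 (.leaf 0x8526701943 7 (.node 2 8 (.cons 0x9823476501 .nil) (.leaf 0x567432891 5 (.leaf 0x128943567 7 .done)) .done))) (.leaf 0x2167098345 1 .done)) .done)) .done))) .done)))) (.node 4 7 (.cons 0x5890167432 .nil) (.node 5 9 (.cons 0x8590167432 .nil) (.node 5 7 .nil (.node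 4 6 (.cons 0x6435789012 .nil) (.leaf 0x3210985764 4 (.leaf 0x987564321 2 .done)) .done) .done) (.leaf 0x8901674325 4 (.node 2 6 (.cons 0x9874356210 .nil) (.node 4 6 (.cons 0x6478901253 .nil) (.node 1 3 (.cons 0x1325467890 .nil) (.leaf 0x7645231098 5 (.leaf 0x5264789013 4 .done)) .done) (.leaf 0x9874356210 1 .done)) (.leaf 0x7610985234 1 .done)))) .done)) .done))) (.node 3 5 (.cons 0x4532167890 .nil) (.node 0 8 (.cons 0x9087612354 .nil) (.node 0 3 .nil (.node 4 8 (.cons 0x7610948532 (.cons 0x9845032167 (.cons 0x9035487612 .nil))) .done (.node 3 8 (.cons 0x7612389054 .nil) (.node 0 7 (.cons 0x5498321670 .nil) (.leaf 0x7612389450 1 (.leaf 0x8321670549 3 (.leaf 0x8321670549 4 .done))) (.node 3 7 (.cons 0x7321654980 .nil) (.node 2 4 (.cons 0x5894237610 .nil) (.node 0 4 (.cons 0x5894016732 .nil) (.node 2 5 (.cons 0x4985237610 .nil) (.leaf 0x8376125049 7 (.leaf 0x8376125049 3 .done)) .done) (.leaf 0x1673249850 8 (.leaf 0x6105894237 7 .done)))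 .done) .done)) .done)) (.leaf 0x2354908761 6 (.node 6 8 (.cons 0x7689054321 .nil) (.node 3 8 (.cons 0x7612389054 .nil) (.node 4 8 (.cons 0x7610948532 .nil) (.node 1 8 .nil (.node 2 7 (.cons 0x9485327610 (.cons 0x9432765810 (.cons 0x6721809453 (.cons 0x9435672180 .nil)))) (.leaf 0x1089435672 7 .done) .done) .done) (.node 0 7 (.cons 0x5498321670 .nil) (.leaf 0x7612389450 1 (.leaf 0x8321670549 3 (.leaf 0x8321670549 7 .done))) .done)) .done) .done))) (.node 3 8 (.cons 0x7612389054 .nil) (.node 0 7 (.cons 0x5498321670 .nil) (.leaf 0x7612389450 1 (.leaf 0x8321670549 3 (.leaf 0x8321670549 4 (.leaf 0x8321670549 7 .done)))) (.node 6 8 (.cons 0x7689054321 .nil) (.node 3 9 .nil (.node 4 7 (.cons 0x6123547890 (.cons 0x2168745390 (.cons 0x8932167450 (.cons 0x8934765012 .nil)))) (.leaf 0x3890547612 2 .done) (.node 6 9 .nil (.node 4 7 (.cons 0x6123547890 (.cons 0x8745321690 (.cons 0x2347698501 .nil))) (.leaf 0x6985012347 7 (.leaf 0x569874321 2 .done))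 (.node 0 3 .nil (.node 0 7 (.cons 0x8945670321 .nil) (.node 2 4 (.cons 0x5832490761 (.cons 0x9032458761 (.cons 0x7610324985 .nil))) (.leaf 0x1687093542 1 .done) (.leaf 0x1654987032 3 (.leaf 0x5612307894 7 .done))) (.node 0 6 (.cons 0x7890612354 .nil) (.node 4 7 (.cons 0x6123547890 .nil) (.node 0 4 (.cons 0x2358740961 .nil) (.leaf 0x6904785321 5 (.leaf 0x9876123540 5 .done)) (.leaf 0x3547890612 7 (.leaf 0x9874532160 7 (.leaf 0x3890547612 2 .done)))) .done) .done)) .done)) .done)) .done) .done)) .done)) (.node 6 8 (.cons 0x7689054321 .nil) (.node 1 7 (.cons 0x2349856710 .nil) (.node 0 3 (.cons 0x2309458671 .nil) (.leaf 0x9458671230 5 (.node 0 8 (.cons 0x5490867123 .nil) (.node 3 5 (.cons 0x8671235490 .nil) (.node 2 7 (.cons 0x9872165430 .nil) (.leaf 0x1089435672 7 (.leaf 0x127653498 5 (.node 2 8 (.cons 0x9432856710 .nil) (.leaf 0x3490176582 5 (.leaf 0x9435827610 0 .done)) .done))) .done) .done) (.node 2 5 (.cons 0x3452167890 .nil) (.node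 3 5 (.cons 0x8671235490 .nil) (.node 1 5 (.cons 0x8671549032 .nil) (.node 2 4 (.cons 0x6789032451 .nil) (.leaf 0x6510324987 1 (.leaf 0x8761542309 5 .done)) .done) .done) (.leaf 0x8903452167 5 (.leaf 0x987612543 1 .done))) .done))) (.node 0 3 (.cons 0x5498671230 .nil) (.leaf 0x3217689450 1 (.leaf 0x8671230549 4 (.leaf 0x7689450321 3 .done))) (.node 1 9 .nil (.node 0 2 (.cons 0x7658943201 (.cons 0x6785432091 .nil)) (.node 0 4 (.cons 0x5678910432 .nil) (.leaf 0x9123405678 2 (.leaf 0x4321987650 0 (.leaf 0x1987650432 7 .done))) (.leaf 0x1987654320 1 .done)) (.node 1 5 .nil (.node 0 2 (.cons 0x7658943201 .nil) (.leaf 0x7615432098 4 (.leaf 0x3201567894 4 (.leaf 0x1567894320 3 .done))) (.node 1 4 (.cons 0x7689054123 .nil) (.node 1 8 .nil (.node 0 6 (.cons 0x7891234560 (.cons 0x9067812345 (.cons 0x9067815432 .nil))) .done .done) .done) .done)) .done)) .done))) (.node 1 7 (.cons 0x2349856710 .nil) (.leaf 0x2345098671 5 (.node 2 6 (.cons 0x5894326710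 .nil) (.leaf 0x1762349850 5 (.node 1 4 (.cons 0x7623410985 .nil) (.node 4 6 (.cons 0x9850176432 .nil) (.node 6 9 (.cons 0x8967123450 .nil) (.node 2 5 (.cons 0x3452167890 .nil) (.leaf 0x8769014325 5 (.leaf 0x3410967852 2 (.node 0 3 (.cons 0x9417685230 .nil) (.leaf 0x7103258946 5 (.leaf 0x2301764985 8 (.leaf 0x6714903258 8 .done))) .done))) .done) .done) (.node 1 9 .nil (.node 0 4 (.cons 0x9867123405 (.cons 0x9176850432 (.cons 0x5678910432 .nil))) (.leaf 0x1987650432 7 .done) (.node 1 8 .nil (.node 0 7 (.cons 0x2349856701 (.cons 0x9076234581 (.cons 0x3218945670 (.cons 0x5432670981 .nil)))) (.leaf 0x9185432670 2 .done) .done) .done)) .done)) (.leaf 0x7105894326 7 .done))) (.leaf 0x6890543217 2 .done))) .done)) .done))))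
noncomputable def tc9_9_15 : T := (.node 3 5 .nil (.node 0 4 (.cons 0x9876534012 .nil) (.leaf 0x6532104987 4 (.leaf 0x6532104987 1 (.leaf 0x3567894012 3 .done))) (.node 5 7 .nil (.node 6 8 (.cons 0x4357689012 (.cons 0x8675094321 .nil)) (.leaf 0x9012345768 4 (.leaf 0x2105768943 5 .done)) (.node 2 5 .nil (.node 4 6 (.cons 0x8901235764 (.cons 0x5210987643 (.cons 0x5234678901 .nil))) (.node 1 6 (.cons 0x5432167890 (.cons 0x7610985234 (.cons 0x3452167890 .nil))) (.node 4 7 (.cons 0x4761098532 (.cons 0x3258947610 (.cons 0x8901253476 .nil))) (.leaf 0x985234761 5 .done) .done) .done) (.node 1 5 .nil (.node 4 6 (.cons 0x8901235764 (.cons 0x9015876432 (.cons 0x5109876432 .nil))) (.leaf 0x5109876432 1 .done) (.node 5 9 .nil (.node 4 6 (.cons 0x8901235764 (.cons 0x2346785901 .nil)) (.leaf 0x7859012346 4 (.node 1 7 (.cons 0x2349856710 (.cons 0x8710952346 (.cons 0x6432598710 .nil))) .done .done)) .done) .done)) .done)) (.node 0 7 (.cons 0x2349856701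 .nil) (.node 1 7 (.cons 0x2349856710 .nil) (.node 0 2 (.cons 0x7658943201 .nil) (.leaf 0x1765894320 2 (.leaf 0x3498567102 5 .done)) (.node 2 6 (.cons 0x5894326710 .nil) (.node 1 8 (.cons 0x3218945670 .nil) (.leaf 0x943267581 6 (.leaf 0x8109432675 2 (.node 0 8 (.cons 0x9432671085 .nil) (.node 1 6 (.cons 0x5432167890 .nil) (.leaf 0x4321678905 3 (.node 4 8 (.cons 0x7612354890 .nil) (.leaf 0x2354890761 3 .done) .done)) .done) .done))) (.leaf 0x1762349850 7 (.node 0 4 (.cons 0x5894017623 .nil) (.leaf 0x2358940176 8 (.leaf 0x2671049853 0 (.node 1 8 (.cons 0x9817623540 .nil) (.node 0 8 (.cons 0x9804532671 .nil) (.node 4 8 (.cons 0x6709845321 .nil) (.leaf 0x1267534890 4 .done) .done) (.leaf 0x4532671890 6 (.leaf 0x4532671890 5 .done))) .done))) (.leaf 0x4326710589 7 .done)))) .done)) (.node 0 3 .nil (.node 2 5 (.cons 0x8943256701 .nil) (.leaf 0x1034987652 3 (.leaf 0x6521034987 4 .done)) (.node 0 4 .nil (.node 2 9 (.cons 0x6578921034 (.cons 0x6578921043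 .nil)) (.leaf 0x9210435678 2 (.node 0 8 (.cons 0x7653408921 .nil) (.node 1 3 (.cons 0x7658049231 (.cons 0x6753129804 .nil)) (.leaf 0x2987650431 4 .done) .done) .done)) (.node 2 9 (.cons 0x5678921043 .nil) (.leaf 0x1043567892 6 (.leaf 0x9210435678 2 (.node 7 9 (.cons 0x8976534012 .nil) (.node 4 8 (.cons 0x4897653210 .nil) (.leaf 0x5679840123 8 (.leaf 0x5679840123 2 .done)) .done) .done))) .done)) .done)) .done)) .done))) (.node 1 6 (.cons 0x5432167890 .nil) (.node 5 7 (.cons 0x8576109432 .nil) (.node 2 5 (.cons 0x9016785234 .nil) (.node 5 9 (.cons 0x8761234590 .nil) (.node 1 5 .nil (.node 0 2 (.cons 0x7658943201 .nil) (.leaf 0x3201567894 4 (.leaf 0x1567894320 3 .done)) .done) .done) .done) (.node 5 9 (.cons 0x8761234590 .nil) (.node 2 5 (.cons 0x9016785234 .nil) (.node 1 5 .nil (.node 0 2 (.cons 0x7658943201 .nil) (.leaf 0x3201567894 4 (.leaf 0x1567894320 3 .done)) .done) .done) .done) .done)) (.leaf 0x4321678905 3 (.node 0 4 (.cons 0x5409876123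 .nil) (.node 3 9 (.cons 0x7893216540 .nil) (.node 4 8 (.cons 0x2390548761 .nil) (.leaf 0x6784509321 7 (.node 3 7 (.cons 0x9873216540 .nil) (.leaf 0x2165409873 7 (.node 2 5 (.cons 0x4985237610 .nil) (.leaf 0x3258940167 8 (.leaf 0x9852376104 5 .done)) (.node 3 8 (.cons 0x5094837612 .nil) (.node 0 7 (.cons 0x5498321670 .nil) (.leaf 0x8704561239 4 (.leaf 0x4985612370 7 (.leaf 0x3216705498 8 .done))) .done) .done))) .done)) (.node 4 8 (.cons 0x9054876123 .nil) (.node 2 4 (.cons 0x4239058761 .nil) (.node 3 8 (.cons 0x7610942385 .nil) .done .done) (.leaf 0x8761239054 0 .done)) .done)) (.leaf 0x9876123540 5 (.node 2 5 (.cons 0x9876523401 .nil) (.node 1 9 (.cons 0x5678910432 .nil) (.leaf 0x432567891 6 (.leaf 0x9104325678 2 .done)) (.node 1 3 (.cons 0x6789045231 .nil) (.leaf 0x4098761325 5 (.leaf 0x4098761325 6 (.node 5 7 (.cons 0x8940132576 .nil) (.node 5 9 (.cons 0x2316789540 .nil) .done .done) .done))) .done)) .done))) (.node 2 5 (.cons 0x3452167890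 .nil) (.node 1 5 .nil (.node 0 2 (.cons 0x7658943201 .nil) (.leaf 0x3201567894 4 (.leaf 0x1567894320 3 .done)) (.node 3 8 (.cons 0x7612543890 .nil) (.node 0 7 (.cons 0x9834521670 .nil) (.leaf 0x7612543890 1 (.leaf 0x2543890761 3 (.leaf 0x4521670983 7 .done))) (.node 5 7 (.cons 0x8349057612 .nil) (.node 4 6 (.cons 0x1257643890 .nil) (.leaf 0x2576438901 6 (.leaf 0x4675210983 2 .done)) .done) .done)) .done)) (.node 0 3 (.cons 0x5430987612 .nil) (.leaf 0x1678903452 7 (.leaf 0x987612543 1 .done)) .done)) .done)))) .done))) (.node 1 6 (.cons 0x5432167890 .nil) tc9_9_14 (.leaf 0x1234987650 3 (.leaf 0x6501234987 4 (.node 5 9 .nil (.node 4 6 (.cons 0x2346785901 .nil) (.leaf 0x4678950123 2 (.leaf 0x7859012346 4 (.leaf 0x7895012346 6 .done))) (.node 3 9 (.cons 0x4398765012 .nil) (.node 2 4 (.cons 0x2439876501 .nil) (.node 1 9 (.cons 0x8765019342 .nil) (.node 0 4 (.cons 0x3219876540 .nil) (.node 0 3 (.cons 0x4567891230 .nil) (.leaf 0x8912304567 2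 (.leaf 0x3219876540 0 .done)) (.node 2 9 (.cons 0x5678923401 .nil) (.node 1 5 (.cons 0x1567892340 .nil) (.node 3 5 (.cons 0x4019876532 .nil) (.leaf 0x2401987653 2 .done) (.leaf 0x9234015678 2 .done)) .done) .done)) (.node 0 8 (.cons 0x5678019342 .nil) (.node 0 4 .nil (.node 2 5 (.cons 0x8765243910 (.cons 0x8765240193 .nil)) (.leaf 0x9340125678 2 .done) (.node 2 5 (.cons 0x8765243910 .nil) (.leaf 0x9104325678 2 (.node 2 8 (.cons 0x5678243910 .nil) (.leaf 0x3428765019 7 (.node 2 9 (.cons 0x5678923401 .nil) .done .done)) .done)) .done)) (.node 0 3 (.cons 0x2198765430 .nil) (.leaf 0x876542193 1 (.leaf 0x4567803912 3 (.leaf 0x4567803912 7 .done))) .done)) .done)) (.node 3 7 (.cons 0x8943765012 .nil) (.node 6 9 (.cons 0x7896501243 .nil) (.leaf 0x4210569873 1 (.leaf 0x1243789650 3 (.leaf 0x4210569873 7 .done))) (.node 2 6 (.cons 0x7893426501 .nil) (.leaf 0x6734985012 0 (.leaf 0x9437621058 2 (.leaf 0x9850126734 8 (.node 1 7 (.cons 0x2349856710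 .nil) (.leaf 0x3426501789 7 (.leaf 0x4398710562 2 (.node 0 2 (.cons 0x7658943201 .nil) (.leaf 0x6589432017 5 (.leaf 0x6589432017 6 (.node 2 9 .nil (.node 0 6 (.cons 0x4378950621 (.cons 0x7106589243 (.cons 0x5601789243 .nil))) (.leaf 0x2437106589 5 .done) .done) .done))) .done))) .done)))) (.node 1 6 (.cons 0x9873421650 .nil) (.leaf 0x1243789056 1 (.node 2 7 (.cons 0x1672345890 .nil) (.node 4 8 (.cons 0x5098437612 .nil) (.leaf 0x3276109584 5 (.node 2 5 (.cons 0x5216734890 .nil) (.leaf 0x934852761 8 (.leaf 0x2167348905 0 .done)) .done)) (.node 3 6 (.cons 0x2763498501 .nil) (.leaf 0x7634985012 8 .done) (.leaf 0x6109854327 4 .done))) (.leaf 0x9876123450 6 (.node 1 9 .nil (.node 0 2 (.cons 0x4378956120 (.cons 0x9165873420 (.cons 0x7658910234 .nil))) (.leaf 0x1987654320 1 .done) (.node 6 9 (.cons 0x1243789650 .nil) (.node 2 9 .nil (.node 0 4 (.cons 0x2165987340 (.cons 0x3785619240 (.cons 0x5678923401 .nil))) .done .done) .done) .done)) .done))))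 .done))) (.leaf 0x8765012439 5 .done))) (.node 2 9 .nil (.node 0 4 (.cons 0x8765043921 (.cons 0x5678923401 .nil)) (.node 1 9 (.cons 0x3219876540 .nil) (.node 1 7 (.cons 0x2349856710 .nil) (.leaf 0x1765892340 2 (.node 2 5 (.cons 0x8765219340 (.cons 0x9852340176 (.cons 0x6710498523 .nil))) .done (.leaf 0x6589234017 6 .done))) .done) (.node 4 8 (.cons 0x1293487650 .nil) (.leaf 0x5678439210 6 (.node 2 4 (.cons 0x1243987650 .nil) (.node 1 6 (.cons 0x5432167890 (.cons 0x1678543290 (.cons 0x5876109243 .nil))) (.leaf 0x5093421678 1 (.leaf 0x9876123450 6 .done)) .done) (.leaf 0x4876501293 2 .done))) .done)) (.node 1 9 .nil (.node 0 6 (.cons 0x7895601234 (.cons 0x2345876091 .nil)) (.leaf 0x9123450678 7 (.node 0 7 (.cons 0x2349856701 (.cons 0x8567019432 .nil)) (.leaf 0x2198706543 2 .done) (.leaf 0x6789123450 0 .done))) (.node 1 6 (.cons 0x5432167890 .nil) (.node 3 8 (.cons 0x9054387612 .nil) (.leaf 0x1290543876 4 (.node 2 7 (.cons 0x9438501672 .nil)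 (.leaf 0x583492761 3 (.leaf 0x7610583492 1 (.leaf 0x8501672943 7 .done))) .done)) (.node 2 6 (.cons 0x3450987621 .nil) (.node 1 4 (.cons 0x2143987650 .nil) (.leaf 0x958762341 8 (.node 7 9 (.cons 0x9785623410 .nil) (.leaf 0x6234109785 1 .done) (.leaf 0x3267859014 7 .done))) (.node 2 7 (.cons 0x1672345890 .nil) (.node 0 8 (.cons 0x9432765801 .nil) (.node 0 2 (.cons 0x3456789120 .nil) (.node 2 5 (.cons 0x7610985234 .nil) .done .done) (.leaf 0x9167234580 2 .done)) (.node 2 4 (.cons 0x1243987650 .nil) (.leaf 0x7610589342 5 (.node 2 8 (.cons 0x7612890543 .nil) .done .done)) .done)) .done)) (.leaf 0x9876123450 6 .done))) .done)) .done)) .done)) (.node 5 7 .nil (.node 4 6 (.cons 0x2346758901 .nil) (.leaf 0x3210985764 4 (.node 3 8 (.cons 0x1238764590 .nil) (.leaf 0x946758321 6 (.leaf 0x6783210954 5 (.node 0 4 (.cons 0x5904678321 (.cons 0x6409578321 .nil)) (.node 0 6 (.cons 0x8906754321 .nil) (.leaf 0x1234987560 3 (.leaf 0x5601234987 4 .done)) .done)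 .done))) (.leaf 0x1098756432 4 (.leaf 0x987564321 2 .done)))) (.node 0 7 (.cons 0x2349856701 .nil) (.node 0 8 .nil (.node 1 6 (.cons 0x5432167890 (.cons 0x4590876123 (.cons 0x8094576123 .nil))) (.node 7 9 (.cons 0x2349765801 .nil) (.leaf 0x6543210897 4 (.leaf 0x6580123497 8 (.leaf 0x8976123450 8 (.leaf 0x1679805432 5 .done)))) (.leaf 0x7809543216 3 .done)) (.node 1 7 (.cons 0x2349856710 .nil) (.node 3 7 (.cons 0x6549807321 .nil) (.node 1 6 (.cons 0x5432167890 .nil) (.leaf 0x894561237 4 (.leaf 0x894561237 7 (.leaf 0x9876123450 6 (.node 2 7 (.cons 0x5610894372 .nil) (.node 2 8 (.cons 0x2894376501 .nil) (.node 2 5 (.cons 0x5289437610 .nil) (.leaf 0x7349825016 7 (.leaf 0x7349825016 1 .done)) (.leaf 0x1056734982 0 .done)) .done) .done)))) (.node 2 7 (.cons 0x6508943721 .nil) .done .done)) (.node 0 2 (.cons 0x7658943201 .nil) (.leaf 0x6589432017 5 (.leaf 0x6589432017 6 .done)) .done)) .done)) (.node 2 5 (.cons 0x8943256701 .nil) (.node 1 5 .nil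 (.node 2 6 (.cons 0x8576234901 (.cons 0x9015876234 .nil)) (.leaf 0x9876234510 3 (.leaf 0x9432670158 6 .done)) (.node 1 8 (.cons 0x6758109432 .nil) (.leaf 0x8107652349 2 (.leaf 0x765234981 6 (.node 1 9 (.cons 0x8910765234 .nil) .done .done))) .done)) (.node 1 5 .nil (.node 2 6 (.cons 0x8576234901 (.cons 0x9015876234 (.cons 0x8907623451 .nil))) (.leaf 0x9876234510 3 (.leaf 0x9432670158 6 .done)) (.node 3 5 .nil (.node 0 4 (.cons 0x6789532104 .nil) (.leaf 0x6532104987 4 (.node 4 6 (.cons 0x5346789012 .nil) (.leaf 0x2109876435 1 (.leaf 0x3598764012 5 .done)) (.leaf 0x6532104987 1 .done))) .done) .done)) .done)) .done)) .done)) .done))) .done)))))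
noncomputable def tc9_9_16 : T := (.node 0 7 (.cons 0x3498567012 .nil) (.node 5 7 .nil (.node 6 8 (.cons 0x8675094321 .nil) (.leaf 0x9012345768 4 (.leaf 0x2105768943 5 (.node 0 6 (.cons 0x8906754321 .nil) (.leaf 0x1234985760 4 (.node 1 6 (.cons 0x5432167890 .nil) (.leaf 0x4578906123 6 (.leaf 0x4321678905 3 (.node 0 3 (.cons 0x8945670321 (.cons 0x8903216754 (.cons 0x6123098754 .nil))) (.node 2 4 (.cons 0x5423098761 (.cons 0x3249865701 (.cons 0x3016758942 .nil))) (.leaf 0x5761032498 1 .done) .done) .done))) .done)) .done))) (.node 3 5 .nil (.node 0 4 (.cons 0x9876534012 .nil) (.leaf 0x6532104987 4 (.leaf 0x6532104987 1 (.leaf 0x3567894012 3 .done))) (.node 0 3 (.cons 0x8945670321 .nil) (.node 0 8 .nil (.node 1 6 (.cons 0x5432167890 (.cons 0x9087612345 .nil)) (.leaf 0x4321678905 3 (.leaf 0x5612307894 4 (.leaf 0x7089453216 3 .done))) (.node 0 2 .nil (.node 1 3 (.cons 0x9021345876 (.cons 0x6758943102 .nil)) (.leaf 0x4567890213 4 .done) (.node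 0 4 .nil (.node 1 9 (.cons 0x7654320891 (.cons 0x6578910432 (.cons 0x3219876540 .nil))) (.leaf 0x8765403219 4 .done) (.node 0 6 .nil (.node 1 8 (.cons 0x3218945670 (.cons 0x7560189432 (.cons 0x5760189432 (.cons 0x7609812354 .nil)))) .done .done) .done)) .done)) .done)) (.node 1 8 (.cons 0x3218945670 .nil) (.node 0 8 .nil (.node 1 9 (.cons 0x9123456780 .nil) (.leaf 0x2345670891 4 (.leaf 0x5678091234 2 (.leaf 0x8076543219 4 .done))) .done) (.leaf 0x7654981230 4 (.leaf 0x7654981230 1 .done))) .done)) (.node 4 6 (.cons 0x9870123564 .nil) (.node 5 9 (.cons 0x3467859012 .nil) (.node 3 8 (.cons 0x1238945670 .nil) (.leaf 0x6783210954 5 (.leaf 0x7645901238 7 (.node 1 5 (.cons 0x4983215670 .nil) (.node 2 5 (.cons 0x9012587643 .nil) .done .done) .done))) .done) (.leaf 0x123564987 7 (.leaf 0x123564987 4 .done))) .done))) .done)) (.node 5 7 .nil (.node 0 6 (.cons 0x8906754321 .nil) (.leaf 0x1234985760 4 (.leaf 0x5601234987 4 (.leaf 0x7589432106 4 .done)))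 (.node 7 9 .nil (.node 6 8 (.cons 0x8679054321 .nil) (.leaf 0x4321058679 4 (.leaf 0x3210568794 1 (.leaf 0x3210568794 4 (.leaf 0x3210568794 7 .done)))) (.node 5 9 .nil (.node 4 8 (.cons 0x9501234876 .nil) (.node 1 9 (.cons 0x6501978432 (.cons 0x6784509123 .nil)) (.leaf 0x7843219056 3 .done) (.leaf 0x1234876590 3 (.leaf 0x9567012348 6 .done))) (.node 2 5 .nil (.node 1 8 (.cons 0x8105679432 (.cons 0x8105234976 .nil)) (.leaf 0x9432567018 5 (.leaf 0x765234981 2 .done)) (.node 1 5 .nil (.node 0 4 (.cons 0x8976523401 (.cons 0x9876510432 .nil)) (.node 0 8 (.cons 0x4325679801 (.cons 0x7651089432 .nil)) (.leaf 0x7651234980 0 .done) .done) .done) .done)) .done)) (.node 2 7 (.cons 0x3498567210 .nil) (.node 0 3 (.cons 0x7658943012 .nil) (.leaf 0x1276589430 4 (.node 0 8 (.cons 0x8056794321 .nil) (.node 3 7 (.cons 0x1237654980 .nil) (.leaf 0x2108945673 4 (.leaf 0x6549801237 4 .done)) (.node 0 4 .nil (.node 1 5 (.cons 0x7651089432 (.cons 0x8976512340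 .nil)) (.leaf 0x894327651 4 .done) .done) .done)) (.leaf 0x4985672103 4 .done))) (.node 0 3 (.cons 0x7658943012 .nil) (.node 6 9 (.cons 0x1276985430 .nil) (.leaf 0x2769854301 5 (.leaf 0x7210345896 7 (.leaf 0x8543012769 8 .done))) (.node 3 6 (.cons 0x5894367210 .nil) (.node 2 5 (.cons 0x9012587634 .nil) (.node 4 8 (.cons 0x1258436790 .nil) (.leaf 0x2584367901 7 (.leaf 0x1236758490 4 (.leaf 0x6348521097 7 .done))) (.leaf 0x1094367852 5 .done)) (.leaf 0x1276349850 3 (.node 4 6 (.cons 0x2758946301 .nil) (.leaf 0x5721036498 7 (.leaf 0x7589463012 8 .done)) (.leaf 0x4367210589 4 .done)))) (.leaf 0x8943012765 3 .done))) .done)) .done))) (.node 3 5 (.cons 0x8943567012 .nil) (.node 0 3 (.cons 0x7658943012 .nil) (.node 0 4 .nil (.node 1 9 (.cons 0x6543078912 (.cons 0x6578910432 (.cons 0x3219876540 .nil))) (.leaf 0x8765403219 4 .done) (.node 0 8 .nil (.node 7 9 (.cons 0x8056794321 .nil) (.leaf 0x6543210897 4 (.leaf 0x6580123497 4 .done)) (.node 4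 7 (.cons 0x6743589012 .nil) (.node 4 6 (.cons 0x7643589012 .nil) (.node 2 7 (.cons 0x3498567210 .nil) (.node 1 7 (.cons 0x3217654980 .nil) (.node 0 2 (.cons 0x8902176453 .nil) (.node 0 6 (.cons 0x8906712354 .nil) .done .done) .done) (.leaf 0x1098534672 6 (.leaf 0x3498567210 1 .done))) .done) (.leaf 0x3210894765 1 .done)) .done)) .done)) (.node 2 7 (.cons 0x3498567210 .nil) (.leaf 0x4985672103 4 (.leaf 0x8943012765 3 (.leaf 0x7658943012 1 (.node 7 9 .nil (.node 2 8 (.cons 0x5670128943 .nil) (.leaf 0x4976582103 7 (.leaf 0x7943012856 3 (.leaf 0x8567943012 1 .done))) (.node 2 9 (.cons 0x8921076534 .nil) (.node 0 4 (.cons 0x6578923401 .nil) (.node 4 8 (.cons 0x4897653210 .nil) (.leaf 0x9210765348 2 (.leaf 0x3567984012 5 .done)) .done) .done) .done)) .done)))) .done)) (.node 0 3 (.cons 0x7658943012 .nil) (.node 2 7 (.cons 0x3498567210 .nil) (.leaf 0x1276589430 4 (.node 6 9 (.cons 0x1276985430 .nil) (.leaf 0x2769854301 5 (.leaf 0x7210345896 7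 (.leaf 0x8543012769 8 (.node 1 8 (.cons 0x3496721850 .nil) (.leaf 0x2345096781 7 (.leaf 0x3218769054 5 (.leaf 0x7690543218 8 .done))) .done)))) (.node 0 2 .nil (.node 1 3 (.cons 0x6721309854 (.cons 0x9021345876 (.cons 0x6758943102 .nil))) .done (.node 2 9 (.cons 0x7658921034 .nil) (.node 7 9 .nil (.node 0 8 (.cons 0x4567980321 .nil) (.leaf 0x6543210897 4 (.leaf 0x3497658012 1 .done)) .done) .done) .done)) (.leaf 0x6589430127 3 .done)))) (.node 2 7 (.cons 0x3498567210 .nil) (.leaf 0x4985672103 4 (.leaf 0x8943012765 3 (.leaf 0x7658943012 1 (.node 0 8 (.cons 0x6534980721 .nil) (.node 1 6 (.cons 0x8943561270 .nil) (.leaf 0x4327561089 5 (.leaf 0x4321678905 3 (.leaf 0x2708943561 5 (.leaf 0x5349807216 2 .done)))) (.node 0 6 (.cons 0x8943560721 .nil) (.node 1 7 (.cons 0x3217654980 .nil) (.leaf 0x1760985432 2 (.leaf 0x8945671230 3 (.leaf 0x8945671230 1 .done))) .done) .done)) .done)))) .done)) .done)) .done))) (.leaf 0x6589432107 4 .done))) (.node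 0 3 (.cons 0x7658943012 .nil) (.node 2 7 (.cons 0x3498567210 .nil) (.node 3 5 (.cons 0x8534901276 .nil) (.node 6 8 (.cons 0x7689054321 .nil) (.node 1 3 (.cons 0x3127685490 .nil) (.leaf 0x6854903127 6 (.node 1 8 (.cons 0x7681230945 .nil) (.node 5 7 (.cons 0x8675490321 .nil) (.node 0 7 (.cons 0x3498567012 .nil) (.node 1 7 (.cons 0x3094586712 .nil) .done (.leaf 0x6589432107 4 .done)) (.leaf 0x2309457681 1 .done)) .done) .done)) (.leaf 0x943586721 6 (.leaf 0x4901276853 5 .done))) (.node 5 7 .nil (.node 2 6 (.cons 0x9034587621 .nil) (.node 3 8 (.cons 0x9438567210 .nil) (.leaf 0x4901267583 2 (.leaf 0x5762109438 5 (.node 1 4 (.cons 0x9058341276 (.cons 0x5762143890 .nil)) (.leaf 0x3267589014 2 (.leaf 0x9834126750 6 (.leaf 0x1438905762 2 .done))) .done))) (.leaf 0x5762103498 5 (.leaf 0x7589430126 7 .done))) (.node 0 7 (.cons 0x3498567012 .nil) (.node 1 7 (.cons 0x8905432176 .nil) (.node 5 9 .nil (.node 6 8 (.cons 0x9867123450 (.cons 0x2176859430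 .nil)) (.leaf 0x6859430127 2 (.leaf 0x5943012768 6 .done)) (.node 2 5 .nil (.node 1 6 (.cons 0x5432167890 (.cons 0x8907612543 (.cons 0x3452167890 .nil))) (.leaf 0x4321678905 6 (.leaf 0x7612543098 4 .done)) .done) .done)) .done) (.leaf 0x6589432107 4 .done)) .done)) .done)) (.node 3 6 (.cons 0x5894367210 .nil) (.node 1 6 (.cons 0x5432167890 .nil) (.leaf 0x4321678905 6 (.node 6 8 (.cons 0x7689054321 .nil) (.node 1 9 (.cons 0x1986723450 .nil) (.leaf 0x3276891054 7 (.node 0 8 (.cons 0x5436721980 .nil) (.leaf 0x8912763450 0 (.node 0 6 (.cons 0x8912760543 .nil) (.node 0 7 (.cons 0x3498567012 .nil) (.leaf 0x6589432107 4 .done) .done) .done)) .done)) (.node 1 9 (.cons 0x5867219430 .nil) (.leaf 0x8503491276 8 (.leaf 0x1276850349 0 .done)) .done)) (.node 2 9 (.cons 0x6785430921 .nil) (.leaf 0x4309216785 6 (.node 0 2 (.cons 0x7634589021 .nil) (.node 2 4 (.cons 0x7634210985 .nil) (.node 2 5 (.cons 0x3452167890 .nil) .done .done) .done) (.leaf 0x2903458761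 2 .done))) .done))) (.node 3 5 .nil (.node 0 4 (.cons 0x9876534012 .nil) (.leaf 0x6532104987 4 (.leaf 0x6532104987 1 (.leaf 0x3567894012 3 .done))) (.node 3 9 (.cons 0x6721058934 .nil) (.node 3 7 .nil (.node 1 6 (.cons 0x5432167890 (.cons 0x2167345890 (.cons 0x8549037612 (.cons 0x8905437612 .nil)))) (.leaf 0x4321678905 6 .done) .done) .done) .done)) (.leaf 0x3672105894 2 .done))) (.leaf 0x5672103498 5 (.leaf 0x6589430127 7 .done)))) (.node 0 7 (.cons 0x3498567012 .nil) (.node 0 2 .nil (.node 1 7 (.cons 0x8905432176 (.cons 0x9871203456 .nil)) (.leaf 0x234985671 4 (.node 1 9 (.cons 0x3456789120 .nil) (.leaf 0x8765430219 4 (.leaf 0x5432019876 2 .done)) .done)) (.node 2 7 (.cons 0x3498567210 .nil) (.node 0 8 .nil (.node 1 7 (.cons 0x8905432176 (.cons 0x3217654980 .nil)) (.leaf 0x894567123 1 .done) (.node 0 6 .nil (.node 1 5 (.cons 0x7651089432 (.cons 0x3276089451 .nil)) (.leaf 0x3498015672 7 (.leaf 0x2349851067 2 .done)) (.node 0 4 .nil (.node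 1 9 (.cons 0x6723450891 (.cons 0x3219876540 .nil)) (.leaf 0x4321987650 6 (.leaf 0x8765403219 4 .done)) .done) .done)) .done)) (.leaf 0x3498567210 1 .done)) .done)) (.node 0 2 .nil (.node 1 7 (.cons 0x8905432176 (.cons 0x9871203456 .nil)) (.node 6 9 (.cons 0x4569870321 (.cons 0x7896543021 (.cons 0x9658712034 .nil))) (.leaf 0x2034569871 7 (.leaf 0x2034569871 1 .done)) (.leaf 0x234985671 4 .done)) (.node 2 7 (.cons 0x3498567210 .nil) (.node 3 9 (.cons 0x6785439021 .nil) (.node 1 6 (.cons 0x5432167890 .nil) (.leaf 0x4321678905 6 (.leaf 0x5439021678 7 (.leaf 0x6785439021 0 (.leaf 0x4390216785 8 .done)))) (.node 4 6 (.cons 0x1276439850 .nil) (.leaf 0x7210589346 5 (.node 0 6 (.cons 0x4398506721 .nil) (.node 0 8 (.cons 0x5089346721 .nil) .done .done) (.leaf 0x3985012764 2 .done))) .done)) (.leaf 0x3498567210 1 .done)) .done)) (.node 3 5 (.cons 0x8943567012 .nil) (.node 2 8 (.cons 0x5670128943 .nil) (.leaf 0x6701289435 2 (.leaf 0x2107653498 0 (.node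 1 3 (.cons 0x3128945670 .nil) (.leaf 0x5498213076 4 (.leaf 0x1289456703 1 .done)) (.leaf 0x7653498210 7 .done)))) (.node 3 9 .nil (.node 2 4 (.cons 0x7658934210 .nil) (.node 1 8 (.cons 0x6705439812 (.cons 0x7653249810 .nil)) (.leaf 0x765324981 2 (.leaf 0x9423567018 5 .done)) (.leaf 0x1243985670 8 (.leaf 0x9342107658 5 (.leaf 0x9342105678 5 .done)))) (.node 3 8 .nil (.node 2 9 (.cons 0x6543078921 .nil) (.leaf 0x3492107658 5 (.leaf 0x1076543892 2 .done)) (.node 3 7 .nil (.node 0 4 (.cons 0x9856734012 .nil) (.node 1 6 (.cons 0x5432167890 (.cons 0x2167345890 (.cons 0x2354098761 (.cons 0x8905437612 .nil)))) (.leaf 0x4098761235 7 .done) (.leaf 0x1237658940 4 (.leaf 0x9856732104 4 .done))) (.node 0 8 (.cons 0x9437658012 .nil) (.node 1 8 (.cons 0x9456732180 .nil) (.leaf 0x8123765490 2 .done) (.node 2 9 (.cons 0x8567349210 .nil) (.leaf 0x5673492108 4 (.leaf 0x7658012943 3 .done)) .done)) .done)) .done)) .done)) .done)) (.leaf 0x6589432107 4 .done))))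 (.node 2 7 (.cons 0x3498567210 .nil) (.leaf 0x4985672103 4 (.leaf 0x8943012765 3 (.leaf 0x7658943012 1 (.node 0 8 .nil (.node 1 3 (.cons 0x9431276580 .nil) (.leaf 0x7213490856 5 (.leaf 0x2765809431 7 (.leaf 0x4908567213 8 (.leaf 0x3127650894 2 .done)))) (.node 4 8 (.cons 0x9843210567 .nil) (.node 1 8 .nil (.node 1 4 (.cons 0x9814305672 .nil) (.leaf 0x7234189056 3 (.leaf 0x8143276509 4 .done)) (.node 2 8 .nil (.node 0 7 (.cons 0x3218945670 (.cons 0x9456703281 (.cons 0x5670128943 .nil))) (.leaf 0x7654981230 1 .done) .done) .done)) (.node 1 9 (.cons 0x1984327650 .nil) (.node 1 5 (.cons 0x6723489051 .nil) (.node 2 9 (.cons 0x9234876510 .nil) (.leaf 0x8765109234 7 .done) (.node 1 4 (.cons 0x8941567230 .nil) (.leaf 0x5672308941 4 (.leaf 0x9803276514 4 (.node 3 9 (.cons 0x8934127650 .nil) (.leaf 0x9341276508 2 .done) .done))) .done)) (.leaf 0x2765019843 2 (.node 7 9 (.cons 0x2348976501 .nil) (.leaf 0x567984321 6 (.node 3 7 (.cons 0x6508912734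 .nil) (.node 1 6 (.cons 0x9437216580 .nil) (.leaf 0x4321678905 6 (.leaf 0x1273490856 0 (.leaf 0x4372165809 2 .done))) (.node 2 6 (.cons 0x5894376210 .nil) (.leaf 0x7345089126 0 (.node 1 7 (.cons 0x7198034562 .nil) (.leaf 0x345627198 7 (.leaf 0x3089172654 0 .done)) (.leaf 0x1267349850 8 .done))) .done)) .done)) .done))) .done)) (.node 3 7 (.cons 0x1237654980 .nil) (.node 0 7 (.cons 0x3498567012 .nil) (.node 1 7 (.cons 0x3217654980 .nil) (.leaf 0x8945671230 3 (.leaf 0x8945671230 1 .done)) .done) (.leaf 0x2108945673 4 .done)) .done))) .done)))) .done))) (.leaf 0x1234987650 3 (.leaf 0x6501234987 4 (.node 1 6 (.cons 0x5432167890 .nil) (.leaf 0x543216789 2 (.leaf 0x9054321678 4 (.node 1 8 (.cons 0x7650189432 .nil) (.node 0 8 .nil (.node 1 9 (.cons 0x9123456780 .nil) (.node 0 6 (.cons 0x3458760912 .nil) (.leaf 0x9123450678 4 (.node 0 7 (.cons 0x3498567012 .nil) (.leaf 0x1234560789 4 (.leaf 0x2345670891 4 .done)) .done)) (.leaf 0x4567809123 4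 .done)) (.node 3 7 (.cons 0x1237654980 .nil) (.node 0 7 (.cons 0x3498567012 .nil) (.node 1 7 (.cons 0x3217654980 .nil) (.node 2 7 (.cons 0x3498567210 .nil) (.leaf 0x9810567234 4 (.node 0 3 (.cons 0x1276589430 .nil) (.leaf 0x6589430127 3 (.leaf 0x3498567210 1 .done)) .done)) .done) .done) (.leaf 0x2108945673 4 (.leaf 0x6549801237 4 (.node 1 9 .nil (.node 0 4 (.cons 0x5409876123 (.cons 0x3765804912 (.cons 0x4056198732 .nil))) (.leaf 0x5678912340 1 .done) (.node 1 4 (.cons 0x5673214980 .nil) (.node 2 9 (.cons 0x4329876501 .nil) (.leaf 0x5014329876 5 (.leaf 0x1056789234 1 (.leaf 0x4180567329 4 .done))) (.node 2 9 (.cons 0x3298761450 .nil) (.leaf 0x3298765014 8 (.leaf 0x8765014329 7 (.leaf 0x7892341056 5 .done))) .done)) .done)) .done)))) .done)) (.node 5 7 (.cons 0x6750189432 .nil) (.node 1 7 .nil (.node 0 2 (.cons 0x7618945023 (.cons 0x6712098543 (.cons 0x6718945023 .nil))) (.leaf 0x234981765 2 (.leaf 0x5894320176 2 .done)) (.node 0 7 (.cons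 0x3498567012 .nil) (.node 0 8 (.cons 0x8094576123 .nil) (.node 3 6 (.cons 0x5498123670 .nil) (.leaf 0x894563217 4 (.leaf 0x894563217 7 (.node 6 9 (.cons 0x6908754321 .nil) (.leaf 0x1087569432 5 (.leaf 0x7081236945 3 .done)) (.leaf 0x894563217 3 .done)))) .done) .done) .done)) (.node 2 7 (.cons 0x3498567210 .nil) (.leaf 0x7234981056 2 (.node 0 3 (.cons 0x6754981230 .nil) (.leaf 0x3054981672 2 (.node 6 9 (.cons 0x4576981230 .nil) (.leaf 0x7210345896 7 (.leaf 0x8543012769 8 (.node 0 4 (.cons 0x5409876123 .nil) (.leaf 0x8123045769 0 (.node 1 7 (.cons 0x5698712340 .nil) (.leaf 0x6504321789 4 (.node 4 7 (.cons 0x8965740321 .nil) (.leaf 0x6123098547 5 (.leaf 0x5890321674 2 .done)) .done)) (.leaf 0x1896754032 7 .done))) .done))) (.leaf 0x5498167230 6 .done))) (.node 0 3 (.cons 0x6754981230 .nil) (.leaf 0x6589430127 7 (.leaf 0x6589430127 3 (.leaf 0x3498567210 1 .done))) .done))) .done)) .done)) (.node 1 4 (.cons 0x9876501432 .nil) (.node 2 9 (.cons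 0x4329876501 .nil) (.leaf 0x5014329876 5 (.leaf 0x1056789234 1 (.node 3 6 (.cons 0x5876341290 .nil) (.leaf 0x7850921436 7 (.node 2 7 (.cons 0x3498567210 .nil) (.node 1 8 (.cons 0x9234187650 .nil) (.leaf 0x4329056781 3 (.leaf 0x7234981056 2 (.node 0 3 (.cons 0x7654981230 .nil) (.leaf 0x6503294187 5 (.leaf 0x2941876503 8 .done)) .done))) (.leaf 0x6345890127 5 (.leaf 0x1098543672 2 .done))) (.node 2 5 (.cons 0x1436785290 .nil) (.leaf 0x4367852901 1 (.leaf 0x4367852901 3 (.leaf 0x4367852901 7 (.node 0 3 (.cons 0x7658943012 .nil) (.leaf 0x1678903452 3 (.leaf 0x1678903452 7 (.leaf 0x1678903452 4 .done))) .done)))) (.leaf 0x8763412905 5 .done)))) .done))) (.node 1 9 .nil (.node 2 8 (.cons 0x6782345091 .nil) (.node 0 8 (.cons 0x9123456780 .nil) (.leaf 0x9123456780 1 (.node 0 3 (.cons 0x7654980321 (.cons 0x6785430912 (.cons 0x7612890345 .nil))) (.leaf 0x2194567803 5 .done) .done)) (.leaf 0x3450916782 1 (.leaf 0x194328765 5 (.leaf 0x9105678234 1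 (.leaf 0x916782345 5 .done))))) (.node 1 8 (.cons 0x7650189432 .nil) (.node 1 7 .nil (.node 0 2 (.cons 0x6712098543 (.cons 0x6718945023 .nil)) (.leaf 0x6589432017 4 (.leaf 0x234981765 2 (.leaf 0x5894320176 2 .done))) (.node 5 7 (.cons 0x6750189432 .nil) (.node 0 7 (.cons 0x3498567012 .nil) (.node 0 4 (.cons 0x3219876540 .nil) (.node 3 8 (.cons 0x9123876540 .nil) (.leaf 0x2190456783 7 (.node 4 8 .nil (.node 0 2 (.cons 0x9438567102 (.cons 0x9176548320 (.cons 0x9483201756 (.cons 0x9483201765 .nil)))) .done .done) (.leaf 0x1238765409 5 .done))) .done) .done) .done) .done)) .done) .done)) (.node 2 9 (.cons 0x4329876501 .nil) (.leaf 0x3298765014 8 (.leaf 0x8765014329 7 (.leaf 0x7892341056 5 .done))) .done))) .done)))) .done)))))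
noncomputable def tc9_9_17 : T := (.node 3 8 (.cons 0x1238945670 .nil) (.node 2 8 .nil (.node 1 3 (.cons 0x3128945670 .nil) (.leaf 0x9456701328 4 (.leaf 0x4567013289 2 (.node 3 5 (.cons 0x4982356701 .nil) (.node 2 4 (.cons 0x9876534210 .nil) (.leaf 0x1076538942 3 (.leaf 0x9421076538 4 (.leaf 0x9423567018 8 .done))) (.leaf 0x2107653498 5 (.leaf 0x4982107653 1 .done))) .done))) (.node 3 7 (.cons 0x4985673210 .nil) (.node 6 8 (.cons 0x9456812370 .nil) (.leaf 0x7321865490 8 (.leaf 0x8673210945 2 .done)) (.node 2 6 (.cons 0x1894562370 .nil) (.node 1 9 (.cons 0x8194562370 .nil) (.node 0 8 (.cons 0x7326549180 .nil) (.leaf 0x6549180732 6 (.node 5 7 (.cons 0x1945762380 .nil) (.leaf 0x3801945762 7 (.leaf 0x8326754910 8 .done)) .done)) (.node 0 2 (.cons 0x3456789120 .nil) (.leaf 0x4378190265 5 (.leaf 0x3854910267 7 .done)) .done)) (.leaf 0x3701894562 5 (.leaf 0x5498107326 2 .done))) (.node 0 4 (.cons 0x1237658940 .nil) (.leaf 0x5673210498 7 (.leaf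 0x4985673210 0 (.node 0 8 .nil (.node 1 9 (.cons 0x4912376580 .nil) (.leaf 0x2345670891 4 (.leaf 0x5678091234 2 (.leaf 0x8076543219 4 .done))) (.node 4 8 .nil (.node 0 5 (.cons 0x6789054321 (.cons 0x9481237056 (.cons 0x9843210567 .nil))) (.leaf 0x1234987650 3 .done) .done) .done)) (.node 2 9 (.cons 0x5678923401 .nil) (.node 1 5 (.cons 0x3289407651 .nil) (.node 1 9 (.cons 0x9156782340 .nil) (.leaf 0x2876519043 6 (.leaf 0x7823409156 5 .done)) (.leaf 0x432987651 6 (.leaf 0x5104329876 2 .done))) (.node 1 3 (.cons 0x1329876540 .nil) (.leaf 0x6789231045 7 (.leaf 0x6789231045 4 .done)) .done)) .done)))) .done))) .done)) (.leaf 0x9456701238 4 (.node 2 8 .nil (.node 3 5 (.cons 0x4982356701 .nil) (.node 4 6 (.cons 0x9012358764 (.cons 0x5346789012 (.cons 0x7018946532 .nil))) (.leaf 0x2107894653 3 .done) (.leaf 0x2107653498 5 (.node 1 3 (.cons 0x3128945670 .nil) (.leaf 0x9456701328 4 (.leaf 0x4567013289 2 (.node 0 5 (.cons 0x6789054321 (.cons 0x6705498213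 (.cons 0x6705498231 .nil))) (.node 6 8 (.cons 0x9450768213 (.cons 0x9450768231 .nil)) .done (.leaf 0x1234987650 3 .done)) .done))) (.leaf 0x4982107653 1 .done)))) (.node 3 7 (.cons 0x4985673210 .nil) (.node 6 8 (.cons 0x9456812370 .nil) (.leaf 0x7321865490 8 (.leaf 0x8673210945 2 .done)) (.node 0 6 (.cons 0x7065498123 .nil) (.leaf 0x2189456073 5 (.leaf 0x8123706549 6 (.node 4 6 (.cons 0x5894673210 .nil) (.node 2 4 (.cons 0x5894210673 .nil) (.node 0 4 (.cons 0x5670498321 .nil) (.node 0 8 (.cons 0x9467321085 .nil) .done .done) .done) (.node 2 5 (.cons 0x5234678901 .nil) (.leaf 0x189465237 5 (.leaf 0x8107325649 6 (.leaf 0x7601258943 2 .done))) .done)) (.node 1 3 (.cons 0x7065498132 .nil) (.node 1 7 (.cons 0x9458231760 .nil) (.leaf 0x6094582317 4 .done) (.node 2 7 (.cons 0x4589067231 .nil) (.node 1 7 (.cons 0x4589067132 .nil) (.node 2 4 (.cons 0x5894237601 .nil) (.leaf 0x6098542317 1 .done) .done) (.leaf 0x2706549813 2 .done)) .done)) .done))))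 (.node 3 9 .nil (.node 4 8 (.cons 0x7658493210 .nil) (.leaf 0x2107658493 7 (.leaf 0x1239485670 8 (.leaf 0x1239485670 2 .done))) (.node 0 3 (.cons 0x8945670321 .nil) (.node 6 8 (.cons 0x7685490321 .nil) (.node 1 5 (.cons 0x4983215670 .nil) (.leaf 0x8215493076 5 (.leaf 0x2867039451 7 (.leaf 0x4512867039 8 .done))) (.node 1 7 (.cons 0x2309458671 .nil) (.leaf 0x9458671230 6 (.leaf 0x5490321768 5 (.node 2 4 (.cons 0x9421765830 .nil) (.leaf 0x1765830942 5 (.leaf 0x9038567124 2 .done)) .done))) .done)) (.node 3 6 .nil (.node 4 7 (.cons 0x6745890321 (.cons 0x5894763210 .nil)) (.leaf 0x5632107498 1 (.leaf 0x1098547632 2 .done)) (.node 3 5 .nil (.node 1 6 (.cons 0x4561239870 (.cons 0x8907612354 (.cons 0x4532167890 (.cons 0x3549821670 .nil)))) .done .done) .done)) .done)) .done)) .done))) .done)) .done))) (.node 0 3 (.cons 0x8945670321 .nil) (.node 1 7 (.cons 0x8549032176 .nil) (.node 3 8 (.cons 0x1238945670 .nil) (.node 0 6 (.cons 0x7065498321 .nil)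 (.leaf 0x7123894560 2 (.node 1 3 (.cons 0x7065498312 .nil) (.node 1 6 (.cons 0x5432167890 .nil) (.leaf 0x2309458761 6 .done) .done) (.leaf 0x5498321706 5 .done))) (.leaf 0x9456701238 4 (.node 0 6 (.cons 0x8549067123 .nil) (.leaf 0x7123854906 3 (.leaf 0x9067123854 4 (.node 2 8 (.cons 0x3285490671 .nil) (.node 0 2 (.cons 0x9458176023 .nil) (.node 5 9 (.cons 0x6095432871 .nil) (.leaf 0x5432067189 1 (.leaf 0x6023459817 7 (.leaf 0x1782349560 4 .done))) .done) .done) .done))) .done))) (.node 2 8 (.cons 0x6712854903 .nil) (.node 3 6 (.cons 0x3654982170 .nil) (.leaf 0x712894563 0 (.node 0 2 (.cons 0x3654982071 .nil) (.node 1 4 (.cons 0x7632098541 .nil) (.leaf 0x985417632 8 (.node 1 9 (.cons 0x2365419870 .nil) (.node 0 8 (.cons 0x7194563082 .nil) (.leaf 0x1945678032 4 (.leaf 0x9456780321 2 .done)) .done) .done)) .done) (.leaf 0x5490367128 2 .done))) (.node 3 8 (.cons 0x1238945670 .nil) (.node 2 6 (.cons 0x3894562170 .nil) (.node 3 6 (.cons 0x5498123670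 .nil) (.leaf 0x1763094582 7 (.leaf 0x9036712854 7 (.leaf 0x2170945836 5 .done))) (.leaf 0x7126549830 7 (.leaf 0x4562170389 7 .done))) (.leaf 0x9456701238 4 .done)) .done)) .done)) (.node 1 7 (.cons 0x6712309854 .nil) (.node 6 8 (.cons 0x3217685490 .nil) (.leaf 0x5867123094 4 (.node 1 3 (.cons 0x2317685490 .nil) (.node 2 8 (.cons 0x9456823170 .nil) (.node 0 2 (.cons 0x3209458671 .nil) (.node 1 9 (.cons 0x3286549170 .nil) (.leaf 0x3286549170 1 (.leaf 0x786549132 4 .done)) .done) (.leaf 0x7132865490 6 .done)) .done) (.leaf 0x2176854903 3 .done))) (.node 2 8 (.cons 0x9821765430 .nil) (.leaf 0x9034567128 2 (.node 0 5 (.cons 0x3498217650 .nil) (.leaf 0x5671289430 1 (.leaf 0x1234987650 3 (.leaf 0x8217650349 7 (.leaf 0x8217650349 4 .done)))) .done)) .done)) (.leaf 0x2189456703 4 (.leaf 0x7654981230 4 .done)))) (.node 0 3 (.cons 0x8945670321 .nil) (.leaf 0x765498123 1 (.node 2 7 (.cons 0x9812765430 .nil) (.leaf 0x6543098127 2 (.node 1 7 (.cons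 0x6712309854 .nil) (.node 6 8 (.cons 0x3217685490 .nil) (.node 2 5 (.cons 0x4901768523 .nil) (.leaf 0x9017685234 5 (.node 1 5 (.cons 0x7689015234 .nil) (.node 1 3 (.cons 0x6894513270 .nil) (.node 1 4 (.cons 0x7689014325 .nil) .done .done) .done) (.leaf 0x1094325867 6 .done))) (.leaf 0x2176854903 3 .done)) .done) (.leaf 0x1890345672 5 .done))) (.leaf 0x9456703218 3 (.node 0 8 .nil (.node 3 9 (.cons 0x8076549321 .nil) (.leaf 0x9456708123 1 (.leaf 0x765493218 4 (.leaf 0x6708123945 3 .done))) (.node 1 7 (.cons 0x4985671032 .nil) (.node 6 8 (.cons 0x3217685490 .nil) (.node 2 5 (.cons 0x4901768523 .nil) (.leaf 0x9017685234 5 (.node 4 8 (.cons 0x9485671032 .nil) (.node 1 4 (.cons 0x7658941032 .nil) (.node 1 5 (.cons 0x7689015234 .nil) .done .done) .done) (.leaf 0x1094325867 6 .done))) (.node 5 7 (.cons 0x9432175680 .nil) (.leaf 0x4908657123 8 (.leaf 0x3490865712 7 .done)) .done)) (.node 2 7 (.cons 0x4985672301 .nil) (.node 3 6 (.cons 0x3672185490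 .nil) (.leaf 0x945812763 1 (.leaf 0x5812763094 5 (.node 3 7 (.cons 0x4985673210 .nil) .done .done))) (.node 1 4 (.cons 0x1498567230 .nil) (.leaf 0x5672301498 7 (.leaf 0x4985672301 0 .done)) .done)) .done)) .done)) .done)))) .done)))
noncomputable def uc9_9_3 : T := (.node 0 7 (.cons 0x8943210765 .nil) (.leaf 0x9432107658 1 (.leaf 0x9432107658 4 (.leaf 0x9432107658 7 (.leaf 0x3498567012 3 .done)))) (.node 0 7 (.cons 0x4985670123 .nil) (.leaf 0x2107658943 5 (.node 1 8 (.cons 0x3218945670 .nil) tc9_9_17 (.leaf 0x6701234985 8 (.node 5 7 .nil (.node 0 6 (.cons 0x8906754321 .nil) (.leaf 0x1234985760 7 (.leaf 0x2106758943 5 (.leaf 0x5601234987 4 (.leaf 0x7601234985 8 .done)))) (.node 0 5 (.cons 0x6789054321 .nil) (.node 2 5 (.cons 0x8943256701 .nil) (.node 1 5 .nil (.node 4 6 (.cons 0x8576490123 (.cons 0x5109876432 .nil)) (.leaf 0x152346789 5 (.leaf 0x5109876432 1 .done)) (.node 1 6 (.cons 0x5432167890 .nil) (.leaf 0x4321678905 6 (.node 2 8 (.cons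 0x5432890761 .nil) (.leaf 0x7615432890 7 (.node 3 5 (.cons 0x4351670982 .nil) (.node 5 9 .nil (.node 0 4 (.cons 0x7615340982 (.cons 0x6782159043 (.cons 0x7043289561 (.cons 0x8216759043 .nil)))) .done .done) .done) .done)) (.leaf 0x165234987 4 .done))) .done)) .done) (.leaf 0x1234987650 3 (.node 3 7 (.cons 0x4985673210 .nil) (.node 0 8 .nil (.node 1 6 (.cons 0x5432167890 (.cons 0x9087612345 (.cons 0x9805437612 (.cons 0x8094576123 .nil)))) (.leaf 0x7580943216 4 .done) (.node 0 4 (.cons 0x7658940123 .nil) (.node 4 6 (.cons 0x5894673210 .nil) (.node 0 3 (.cons 0x5894673012 .nil) (.node 4 7 (.cons 0x6745890321 .nil) .done .done) (.leaf 0x8946732105 5 .done)) .done) .done)) (.node 0 4 (.cons 0x1237658940 .nil) (.leaf 0x5673210498 7 (.leaf 0x4985673210 0 .done)) .done)) .done))) (.node 0 5 (.cons 0x6789054321 .nil) (.node 0 4 (.cons 0x7658940123 .nil) (.node 0 3 .nil (.node 1 6 (.cons 0x5432167890 (.cons 0x9032167854 (.cons 0x8903457612 (.cons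 0x5430987612 .nil)))) (.leaf 0x2309458761 6 .done) (.node 0 8 .nil (.node 7 9 (.cons 0x4567980321 (.cons 0x8056794321 .nil)) (.leaf 0x6543210897 4 .done) (.node 1 8 (.cons 0x6754309812 .nil) (.node 2 6 (.cons 0x8903457621 .nil) (.leaf 0x189432657 5 (.leaf 0x8107562349 6 (.leaf 0x9034576218 5 (.leaf 0x3098126754 6 .done)))) (.node 2 5 (.cons 0x8943256701 .nil) (.leaf 0x8107652349 2 (.node 2 8 (.cons 0x6754309821 .nil) (.node 0 2 (.cons 0x9812034576 .nil) (.node 2 9 (.cons 0x7654308921 .nil) .done .done) .done) .done)) .done)) .done)) .done)) (.node 3 7 (.cons 0x4985673210 .nil) (.leaf 0x9856732104 2 (.leaf 0x8940123765 7 (.node 2 5 (.cons 0x8943256701 .nil) (.node 3 9 (.cons 0x5678934012 .nil) (.leaf 0x1043987652 6 (.leaf 0x9340125678 2 .done)) (.node 3 9 (.cons 0x5678934012 .nil) (.node 1 6 (.cons 0x5432167890 .nil) (.node 4 6 (.cons 0x7854612390 .nil) (.leaf 0x937852164 4 .done) (.leaf 0x4321678905 3 (.leaf 0x165234987 4 (.node 0 3 (.cons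 0x5430987612 .nil) (.leaf 0x4521678903 8 .done) .done)))) (.leaf 0x8934012567 4 .done)) .done)) .done))) .done)) (.node 2 5 (.cons 0x8943256701 .nil) (.node 1 5 .nil (.node 4 6 (.cons 0x5109876432 .nil) (.leaf 0x6432150987 2 (.leaf 0x1234678905 6 (.leaf 0x7890152346 4 .done))) (.node 3 5 .nil (.node 4 6 (.cons 0x9870156432 (.cons 0x9012358764 (.cons 0x5346789012 .nil))) (.leaf 0x5321094678 5 .done) (.node 5 9 .nil (.node 4 6 (.cons 0x9870156432 (.cons 0x4678590123 (.cons 0x8764325901 .nil))) (.leaf 0x5987012346 3 .done) .done) .done)) .done)) (.node 1 5 .nil (.node 4 6 (.cons 0x5109876432 .nil) (.leaf 0x6432150987 2 (.leaf 0x152346789 5 (.leaf 0x5109876432 1 .done))) (.node 3 5 .nil (.node 4 6 (.cons 0x9012358764 (.cons 0x5346789012 .nil)) (.leaf 0x2109876435 1 (.leaf 0x5321094678 5 .done)) (.node 5 9 .nil (.node 4 6 (.cons 0x4678590123 .nil) (.node 1 6 (.cons 0x7890164352 .nil) (.leaf 0x4610987523 4 (.leaf 0x987523461 3 .done)) (.leaf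 0x5987012346 3 (.leaf 0x958764321 5 .done))) .done) .done)) .done)) .done)) (.leaf 0x1234987650 3 .done))) .done))) .done)))) (.node 0 5 (.cons 0x6789054321 .nil) tc9_9_16 (.node 0 5 (.cons 0x6789054321 .nil) tc9_9_15 .done))))
theorem sub_c9_9_3 : root 9 refs9_9 [] 0x800070005807000000007060000000060500000000501000070001040000000040300000000302000000002015000000010 0xfe5ffe7fff3fff9fffddff6dffe7fff3fff9ffdd 9 5 8 (.cons 0x7658943210 .nil) uc9_9_3 = true := by decide +kernel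
def kn_c9_9 : List (Nat × Nat × Nat) := [(0x800020005807000000007060000000060500000000501000020001040000000040300000000302000000002015000000010, 0xfedbfe7fff3fff9fffddffe9ffe7fff3fff9ffdd, 9), (0x800030005807000000007060000000060500000000501000030001040000000040300000000302000000002015000000010, 0xfed7fe7fff3fff9fffddffe5ffe7fff3fff9ffdd, 9), (0x800060005807000000007060000000060500000000501000060001040000000040300000000302000000002015000000010, 0xfe9ffe7fff3fff9fffddffadffe7fff3fff9ffdd, 9), (0x800070005807000000007060000000060500000000501000070001040000000040300000000302000000002015000000010, 0xfe5ffe7fff3fff9fffddff6dffe7fff3fff9ffdd, 9)]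
noncomputable def rc9_9 : T := (.cut 3 (.cut 2 (.cut 1 (.cut 0 .done))))
theorem ok_c9_9 : root 9 refs9_9 kn_c9_9 0x800000005807000000007060000000060500000000501000000001040000000040300000000302000000002015000000010 0xfedffe7fff3fff9fffddffedffe7fff3fff9ffdd 9 4 9 (.cons 0x5678943210 .nil) rc9_9 = true := by decide +kernel

end Pool.Agent.Hhelper35.Rainbow
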