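import Pool.Agent.Hhelper35.Rainbow.Pats

set_option autoImplicit false
set_option maxRecDepth 1000000

namespace Pool.Agent.Hhelper35.Rainbow

open T W

noncomputable def tc9_10_0 : T := (.node 1 7 (.cons 0x8091765432 .nil) (.node 1 4 (.cons 0x3214567890 .nil) (.node 1 5 (.cons 0x7651908234 .nil) (.node 2 4 (.cons 0x3245671980 .nil) (.leaf 0x8765142390 9 (.leaf 0x8093241567 1 (.node 0 4 (.cons 0x8765123904 .nil) (.node 1 3 (.cons 0x9804567132 .nil) (.node 1 8 (.cons 0x7654098123 .nil) .done .done) .done) .done))) .done) (.node 1 8 .nil (.node 0 7 (.cons 0x9180765432 .nil) (.leaf 0x6543218907 6 (.leaf 0x9182345670 8 (.leaf 0x9812345670 3 (.leaf 0x1907654328 6 .done)))) (.node 1 3 .nil (.node 2 4 (.cons 0x3245671980 (.cons 0x7654231980 .nil)) (.leaf 0x9876542310 5 (.leaf 0x9876542310 8 .done)) .done) .done)) .done)) (.leaf 0x9082345671 8 (.node 2 9 .nil (.node 1 8 (.cons 0x7654329180 .nil) (.leaf 0x3290817654 9 (.leaf 0x5432901876 8 (.leaf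 0x4329018765 9 .done))) (.node 1 6 (.cons 0x7809234561 .nil) (.leaf 0x3290871654 6 (.node 1 5 (.cons 0x7651908234 .nil) (.node 4 7 (.cons 0x9156743280 .nil) (.node 2 5 (.cons 0x6529347801 .nil) (.node 1 4 (.cons 0x1476523980 .nil) (.leaf 0x5239801476 5 (.leaf 0x2398014765 3 .done)) (.leaf 0x9108256743 0 .done)) (.leaf 0x8234765190 4 (.leaf 0x6743280915 5 (.node 2 6 (.cons 0x1562934780 .nil) (.leaf 0x9347801562 8 (.node 2 5 (.cons 0x3476528091 .nil) (.node 4 8 (.cons 0x5678439012 .nil) (.leaf 0x6719084325 4 (.node 1 4 (.cons 0x3214567890 .nil) (.node 1 8 (.cons 0x7439265180 .nil) .done .done) (.leaf 0x2109348765 1 .done))) .done) .done)) .done)))) (.node 1 4 (.cons 0x3214567890 .nil) (.node 2 5 (.cons 0x9341087652 .nil) (.leaf 0x8014392567 6 (.node 0 5 (.cons 0x4123987650 .nil) (.node 4 8 (.cons 0x9321487650 .nil) (.leaf 0x5093214876 5 (.leaf 0x932148765 3 (.leaf 0x1093487652 3 .done))) .done) (.leaf 0x1087652934 7 .done))) (.node 4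 7 (.cons 0x3290874561 .nil) (.node 2 4 (.cons 0x5610874293 .nil) (.node 2 5 (.cons 0x6529347801 .nil) (.leaf 0x3910825674 3 (.leaf 0x9108256743 0 .done)) .done) (.leaf 0x9082347651 5 (.leaf 0x8091567432 4 .done))) .done)) .done)) .done)) (.node 1 6 (.cons 0x5432908761 .nil) (.node 1 5 (.cons 0x9234516780 .nil) (.node 1 4 (.cons 0x3214567890 .nil) (.node 1 3 .nil (.node 0 5 (.cons 0x9234508761 (.cons 0x7613298054 (.cons 0x9231678054 .nil))) .done .done) .done) (.leaf 0x2908761543 5 .done)) (.node 1 5 (.cons 0x6780923451 .nil) (.node 6 9 (.cons 0x1543296780 .nil) (.leaf 0x2345108769 3 (.node 6 8 .nil (.node 5 7 (.cons 0x1923457680 .nil) (.leaf 0x4321908675 8 (.leaf 0x6801923457 8 (.leaf 0x4576801923 9 (.leaf 0x6754321908 9 .done)))) (.node 2 6 (.cons 0x9267801543 .nil) (.node 4 6 (.cons 0x5108764392 .nil) (.node 3 5 (.cons 0x9287643510 .nil) (.leaf 0x2876435109 5 (.leaf 0x2876435109 8 (.leaf 0x7829015346 4 .done))) .done) .done) .done))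 .done)) (.node 4 7 (.cons 0x5674328091 .nil) (.node 2 5 (.cons 0x8019347652 .nil) (.leaf 0x3910825674 3 (.node 1 4 (.cons 0x1476523980 .nil) (.leaf 0x2398014765 3 .done) (.leaf 0x9108256743 0 .done))) (.node 1 4 (.cons 0x3214567890 .nil) (.node 0 7 (.cons 0x9143280765 .nil) (.node 0 5 (.cons 0x4123987650 .nil) (.node 0 2 (.cons 0x7654198023 .nil) (.node 0 4 (.cons 0x5678932140 .nil) .done .done) .done) .done) .done) (.leaf 0x9082347651 5 (.leaf 0x8091567432 4 .done)))) .done)) .done)) .done))) (.leaf 0x917654328 6 .done)))) (.node 6 8 (.cons 0x7865432190 .nil) (.node 1 8 .nil (.node 2 9 (.cons 0x7654329081 .nil) (.node 0 7 (.cons 0x9123456870 .nil) (.leaf 0x2107865439 8 (.leaf 0x4568701923 3 (.leaf 0x7865432910 1 .done))) (.leaf 0x8765432901 6 .done)) (.node 1 4 (.cons 0x3214567890 .nil) (.node 1 3 .nil (.node 2 4 (.cons 0x9087654231 .nil) (.leaf 0x5678091324 5 (.leaf 0x9876542310 5 (.leaf 0x9876542310 8 (.leaf 0x9876542310 4 .done))))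 (.node 1 5 .nil (.node 2 6 (.cons 0x9081543267 .nil) (.leaf 0x7809154326 0 (.leaf 0x5190876234 5 .done)) (.node 1 6 (.cons 0x7809165432 .nil) (.node 1 7 .nil (.node 0 6 (.cons 0x9067812345 .nil) (.leaf 0x6091782345 3 (.leaf 0x9178234560 7 .done)) .done) .done) .done)) .done)) (.node 3 8 (.cons 0x7654123890 .nil) (.node 0 7 (.cons 0x9123456870 .nil) (.node 0 3 (.cons 0x4567890321 .nil) (.node 0 5 (.cons 0x9867054123 .nil) (.leaf 0x8932145076 5 (.leaf 0x768932145 0 .done)) .done) (.leaf 0x1238907654 6 (.leaf 0x6541238907 2 .done))) .done) .done)) .done)) (.node 0 7 (.cons 0x3456870912 .nil) (.leaf 0x9123456870 6 (.node 5 8 (.cons 0x6587091234 .nil) (.node 1 8 .nil (.node 0 4 (.cons 0x9123407856 (.cons 0x7654098123 .nil)) (.leaf 0x8123904567 7 (.node 4 9 (.cons 0x5678210943 (.cons 0x9432185670 .nil)) (.leaf 0x8567094321 3 (.leaf 0x1856709432 5 .done)) .done)) (.node 4 8 (.cons 0x5678439012 .nil) (.node 3 8 .nil (.node 1 4 (.cons 0x3214567890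 (.cons 0x7654123890 .nil)) (.leaf 0x9832145670 1 .done) .done) .done) .done)) (.node 4 6 (.cons 0x9078564321 .nil) (.node 4 8 (.cons 0x5678439012 .nil) (.node 1 4 (.cons 0x3214567890 .nil) (.node 3 8 (.cons 0x7654123890 .nil) (.leaf 0x2145670983 8 .done) .done) .done) (.leaf 0x3219078564 6 (.leaf 0x5870912346 3 .done))) .done)) (.node 2 7 (.cons 0x3456872190 .nil) (.node 6 9 (.cons 0x1965432780 .nil) (.node 1 8 (.cons 0x7234569180 .nil) (.leaf 0x5691807234 7 (.node 0 6 (.cons 0x9067812345 .nil) (.node 5 9 (.cons 0x6781234590 .nil) (.leaf 0x7812345906 6 (.leaf 0x7812345906 7 .done)) .done) .done)) (.leaf 0x5432780196 6 .done)) (.node 2 9 .nil (.node 1 3 (.cons 0x7865431290 .nil) (.leaf 0x4567829013 3 (.leaf 0x7865431290 1 (.leaf 0x7654312908 1 (.leaf 0x928765431 6 .done)))) (.node 1 8 (.cons 0x7654329081 .nil) (.node 1 7 (.cons 0x9234567180 .nil) (.leaf 0x2345671809 8 .done) (.node 6 9 (.cons 0x5432187690 .nil) (.node 0 5 (.cons 0x2345096781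 .nil) (.node 0 6 (.cons 0x9067812345 .nil) (.node 5 9 (.cons 0x6781234590 .nil) (.leaf 0x7812345906 7 .done) .done) (.leaf 0x4321876905 6 .done)) .done) .done)) .done)) .done)) .done))) .done)) (.node 1 4 (.cons 0x3214567890 .nil) (.node 2 9 (.cons 0x5678014392 .nil) (.node 2 5 (.cons 0x9341087652 .nil) (.node 0 4 (.cons 0x5678932140 .nil) (.leaf 0x7652104398 2 (.node 4 8 (.cons 0x9348765210 .nil) (.leaf 0x3901256784 9 (.leaf 0x6784390125 6 .done)) (.leaf 0x7652104398 5 .done))) (.leaf 0x9341087652 2 (.leaf 0x1087652934 6 .done))) (.node 2 5 (.cons 0x9341087652 .nil) (.leaf 0x8014392567 6 (.node 2 4 (.cons 0x7652410893 .nil) (.node 4 7 (.cons 0x1476523980 .nil) (.leaf 0x6523980147 6 (.node 1 8 (.cons 0x8125674390 .nil) (.node 4 8 (.cons 0x5678439012 .nil) .done .done) .done)) .done) (.leaf 0x1087652934 7 .done))) .done)) (.node 7 9 (.cons 0x5679082341 .nil) (.node 1 5 (.cons 0x8234156790 .nil) (.node 1 3 .nil (.node 2 4 (.cons 0x7651423980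 .nil) (.leaf 0x9876542310 2 (.leaf 0x9876542310 8 (.leaf 0x9876542310 4 .done))) (.node 1 8 .nil (.node 0 3 (.cons 0x4156798230 .nil) (.node 0 4 (.cons 0x3289765140 (.cons 0x6798154032 .nil)) (.leaf 0x3218976540 9 .done) (.leaf 0x3097654182 3 .done)) .done) .done)) (.leaf 0x2341567908 4 (.node 2 4 (.cons 0x4239087651 .nil) (.leaf 0x8765142390 3 (.node 3 6 (.cons 0x5634287901 .nil) (.leaf 0x5190876324 6 (.leaf 0x978243651 6 (.leaf 0x9154236780 7 .done))) (.node 0 4 (.cons 0x8765123904 .nil) (.node 1 6 (.cons 0x7890456123 .nil) (.leaf 0x1678093245 3 (.node 5 7 (.cons 0x4098756123 .nil) (.leaf 0x2165789043 7 (.leaf 0x7561234098 3 .done)) .done)) .done) .done))) .done))) (.node 1 5 (.cons 0x6780915432 .nil) (.node 1 3 .nil (.node 2 4 (.cons 0x7651423980 .nil) (.leaf 0x9876542310 2 (.leaf 0x9876542310 8 (.leaf 0x9876542310 4 .done))) (.node 0 6 (.cons 0x8790654312 .nil) (.leaf 0x5431287906 3 (.node 5 8 (.cons 0x6785432190 .nil) (.leaf 0x912345876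 2 (.leaf 0x1906785432 6 .done)) (.leaf 0x9782134560 6 .done))) .done)) (.leaf 0x4328097651 5 (.leaf 0x6790823415 5 .done))) .done)) (.node 1 8 .nil (.node 2 9 (.cons 0x7654329081 .nil) (.node 1 3 (.cons 0x4567809231 .nil) (.leaf 0x8765413290 9 (.leaf 0x8092314567 1 .done)) (.node 0 3 (.cons 0x4567890321 .nil) (.leaf 0x2145678903 9 (.node 7 9 (.cons 0x6543097812 .nil) (.node 1 3 (.cons 0x6543108792 .nil) (.node 2 4 (.cons 0x1324567980 .nil) (.leaf 0x8976542310 5 (.leaf 0x5679081324 8 (.leaf 0x8976542310 4 .done))) .done) (.node 0 6 (.cons 0x5609782341 (.cons 0x5609781432 .nil)) (.leaf 0x5432187906 7 (.leaf 0x1879234560 1 .done)) .done)) (.leaf 0x9218765430 3 .done))) .done)) (.node 1 5 (.cons 0x6780915432 .nil) (.node 7 9 (.cons 0x4328097651 .nil) (.leaf 0x2341567908 8 (.leaf 0x3280976514 3 .done)) (.node 2 4 (.cons 0x4239087651 .nil) (.leaf 0x8765142390 9 (.leaf 0x8093241567 1 (.node 0 4 (.cons 0x8765123904 .nil) (.node 1 7 (.cons 0x8904567123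 .nil) (.node 5 8 (.cons 0x6785432190 .nil) (.leaf 0x1234098567 8 (.leaf 0x2176589043 1 .done)) .done) .done) .done))) .done)) .done)) .done))) .done)))
noncomputable def tc9_10_1 : T := (.node 1 4 (.cons 0x3214567890 .nil) (.leaf 0x6541230987 6 (.node 1 9 (.cons 0x8765432190 .nil) (.node 0 4 .nil (.node 3 5 (.cons 0x9012876534 (.cons 0x7653289041 .nil)) (.leaf 0x6782190435 3 (.leaf 0x2140987653 5 .done)) (.node 3 6 (.cons 0x5409876321 .nil) (.node 0 7 (.cons 0x4563219870 .nil) (.node 4 9 (.cons 0x5678210943 .nil) (.node 0 2 (.cons 0x7820194365 .nil) (.node 0 6 (.cons 0x7891236045 .nil) (.node 5 7 (.cons 0x2875634910 .nil) (.leaf 0x8201943657 5 (.leaf 0x3657089412 8 (.leaf 0x9143287560 5 (.leaf 0x8075632149 8 .done)))) .done) .done) (.node 0 5 (.cons 0x7821943650 .nil) (.leaf 0x1943650782 8 (.leaf 0x5634912870 2 .done)) .done)) (.leaf 0x3219870456 4 (.leaf 0x3219870456 5 .done))) (.node 1 5 (.cons 0x2367890451 .nil) (.leaf 0x7890451236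 8 (.leaf 0x7890451236 5 .done)) .done)) (.node 1 5 (.cons 0x9043287651 .nil) (.node 0 2 (.cons 0x4023987651 .nil) (.node 3 6 (.cons 0x9876320451 .nil) (.leaf 0x3204519876 1 (.leaf 0x5402367891 9 .done)) (.leaf 0x4156789320 3 .done)) (.leaf 0x8234091567 6 .done)) .done))) (.node 1 8 .nil (.node 4 9 (.cons 0x5678210943 .nil) (.leaf 0x321876549 3 (.node 0 5 (.cons 0x7650941823 (.cons 0x6781905432 .nil)) (.leaf 0x567812349 3 .done) (.leaf 0x5678123094 6 .done))) (.node 7 9 (.cons 0x4567981230 .nil) (.node 2 4 (.cons 0x1897654230 .nil) (.leaf 0x8976542301 2 (.leaf 0x8976542301 8 (.leaf 0x8976542301 4 .done))) (.node 5 8 (.cons 0x6785432190 .nil) (.leaf 0x9765821430 4 (.node 2 7 (.cons 0x8567214390 .nil) (.leaf 0x9341276580 1 (.node 6 9 (.cons 0x9672185430 .nil) (.leaf 0x1803456972 6 (.leaf 0x8543096721 1 .done)) (.leaf 0x9341276580 9 .done))) .done)) .done)) .done)) .done)) (.leaf 0x2145678903 9 (.node 0 5 (.cons 0x6789054123 .nil) (.node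 1 8 .nil (.node 2 4 (.cons 0x4239056781 .nil) (.leaf 0x7650934218 8 (.leaf 0x5678142390 3 (.leaf 0x6781243905 9 (.leaf 0x6781243905 3 .done)))) (.node 0 4 (.cons 0x9321876504 .nil) (.node 4 8 (.cons 0x7654890321 .nil) (.leaf 0x9056784123 6 .done) .done) .done)) (.node 0 4 .nil (.node 3 6 (.cons 0x5412367890 .nil) (.leaf 0x3678905412 3 (.node 1 5 (.cons 0x9051432876 (.cons 0x7632890415 (.cons 0x8765123904 .nil))) (.leaf 0x7890451236 8 (.leaf 0x5409876321 2 .done)) .done)) .done) .done)) .done)))) (.node 6 9 (.cons 0x7809654321 .nil) (.node 1 7 (.cons 0x9087123456 .nil) (.node 1 8 .nil (.node 5 7 (.cons 0x6980321754 (.cons 0x8123096754 .nil)) (.leaf 0x1234576908 3 (.leaf 0x1234576908 9 .done)) (.node 5 7 (.cons 0x8123457690 .nil) (.leaf 0x2180967543 8 (.leaf 0x1234576908 3 (.leaf 0x1234576908 9 .done))) .done)) (.leaf 0x1234569087 1 (.leaf 0x5432178096 3 (.leaf 0x5690871234 9 .done)))) (.node 3 8 .nil (.node 2 7 (.cons 0x4567210983 .nil)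 (.leaf 0x4569012783 8 (.leaf 0x5672109834 8 (.leaf 0x7834569012 1 (.leaf 0x5690127834 9 .done)))) (.node 3 7 .nil (.node 3 6 (.cons 0x4563789012 .nil) (.node 2 4 (.cons 0x9801245637 (.cons 0x9837654210 (.cons 0x6542109873 .nil))) (.leaf 0x1245673890 5 (.leaf 0x1098736542 4 .done)) .done) (.node 1 8 .nil (.node 2 5 (.cons 0x8765210934 (.cons 0x9678103452 (.cons 0x9018256734 (.cons 0x4523096781 .nil)))) (.node 0 7 (.cons 0x4325690781 .nil) (.leaf 0x6543218907 6 (.node 2 7 (.cons 0x4396527810 (.cons 0x6901872543 .nil)) (.leaf 0x965432781 2 .done) .done)) .done) (.node 3 6 .nil (.node 2 4 (.cons 0x9876301245 (.cons 0x2456378901 (.cons 0x5421098763 .nil))) (.leaf 0x1098736542 1 (.node 5 7 (.cons 0x2457698301 (.cons 0x7563980124 (.cons 0x7542369081 (.cons 0x3675421890 .nil)))) .done .done)) (.node 3 5 (.cons 0x9012876534 .nil) (.node 1 3 .nil (.node 2 4 (.cons 0x7824356901 (.cons 0x8901376542 (.cons 0x7824310965 .nil))) (.leaf 0x9876542310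 2 (.leaf 0x9876542310 4 .done)) .done) .done) .done)) .done)) .done)) (.node 3 7 .nil (.node 2 4 (.cons 0x2456738901 (.cons 0x6542109873 .nil)) (.leaf 0x1098376542 0 (.node 1 3 (.cons 0x7310896542 (.cons 0x2456987310 .nil)) (.node 1 5 (.cons 0x7801569342 (.cons 0x8967301542 (.cons 0x6987301542 .nil))) (.leaf 0x1037698245 2 .done) .done) (.leaf 0x7389012456 5 .done))) (.node 3 6 .nil (.node 2 4 (.cons 0x9876301245 (.cons 0x9801245637 (.cons 0x9873654210 (.cons 0x5421098763 .nil)))) (.leaf 0x1245637890 9 .done) (.node 3 5 (.cons 0x9012876534 .nil) (.node 1 3 .nil (.node 2 4 (.cons 0x7824356901 (.cons 0x7310896542 (.cons 0x2456987310 .nil))) (.leaf 0x9876542310 2 (.leaf 0x9876542310 4 .done)) .done) .done) .done)) .done)) .done))) (.node 1 8 (.cons 0x5430967812 .nil) (.node 1 3 (.cons 0x7809654312 .nil) (.node 1 5 (.cons 0x8769034512 .nil) (.node 1 4 (.cons 0x3214567890 .nil) (.node 1 9 (.cons 0x8765432190 .nil) .done .done) (.node 2 5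 (.cons 0x9678125430 .nil) (.node 0 4 (.cons 0x7804396521 .nil) (.leaf 0x7652104398 2 (.leaf 0x5678934012 4 .done)) (.leaf 0x4309678125 6 (.node 6 8 (.cons 0x7869034521 .nil) (.node 1 7 (.cons 0x2543096871 .nil) (.node 3 6 (.cons 0x8712543690 .nil) (.leaf 0x4521780963 5 .done) (.leaf 0x3096871254 7 .done)) .done) .done))) .done)) (.node 0 4 (.cons 0x7821340965 .nil) (.node 3 8 (.cons 0x7654098321 .nil) (.node 1 7 (.cons 0x2389045671 .nil) (.leaf 0x4098321765 4 (.leaf 0x9045671238 8 (.leaf 0x7654098321 2 .done))) .done) (.node 0 2 (.cons 0x9678120345 .nil) (.node 1 7 (.cons 0x3456908712 .nil) (.leaf 0x8932045671 5 (.node 2 5 (.cons 0x9678125430 .nil) (.leaf 0x3409652871 8 (.leaf 0x3409652871 2 (.node 2 9 (.cons 0x3045296781 .nil) (.leaf 0x8104392567 7 (.leaf 0x9254031876 3 .done)) .done))) (.leaf 0x6540239817 5 .done))) (.node 1 9 (.cons 0x8765432190 .nil) (.leaf 0x6540239187 5 (.leaf 0x3204567819 0 .done)) .done)) .done)) .done)) (.node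 1 7 (.cons 0x3456908712 .nil) (.leaf 0x2345690871 3 (.node 1 9 (.cons 0x8765432190 .nil) (.node 1 5 (.cons 0x8769034512 .nil) (.leaf 0x7690345128 6 (.node 1 3 (.cons 0x7809654312 .nil) (.node 1 4 (.cons 0x3214567890 .nil) .done .done) (.node 4 8 (.cons 0x4876512390 .nil) (.leaf 0x1548769032 6 (.leaf 0x7690321548 9 (.node 2 5 (.cons 0x1256784390 .nil) (.leaf 0x6784390125 6 (.leaf 0x1093487652 3 (.node 6 8 (.cons 0x7869034521 .nil) (.node 0 7 (.cons 0x9687034521 .nil) (.leaf 0x5219687034 8 (.leaf 0x2543078691 1 .done)) (.leaf 0x3096871254 7 .done)) .done))) .done))) .done))) (.node 1 4 (.cons 0x3214567890 .nil) (.node 1 3 (.cons 0x7809654312 .nil) (.node 1 5 (.cons 0x8769034512 .nil) (.node 1 6 .nil (.node 5 7 (.cons 0x2143965780 (.cons 0x4328756190 (.cons 0x4390875612 .nil))) (.leaf 0x1690345782 6 .done) .done) .done) .done) (.node 1 5 (.cons 0x8769034512 .nil) (.leaf 0x7690345128 6 (.node 0 4 (.cons 0x8765123904 .nil) (.node 1 3 (.cons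 0x7809654312 .nil) (.node 1 6 (.cons 0x7823409165 .nil) .done .done) .done) .done)) .done)) .done)) (.leaf 0x8096543217 6 .done))) .done)) .done))) (.node 1 4 (.cons 0x3214567890 .nil) (.leaf 0x9876541230 2 (.leaf 0x9876541230 5 (.leaf 0x9876541230 8 (.leaf 0x9876541230 4 .done)))) .done)))
noncomputable def tc9_10_2 : T := (.node 2 7 (.cons 0x8721093456 .nil) (.node 0 6 (.cons 0x4560127893 .nil) (.leaf 0x5601278934 5 (.leaf 0x1278934560 4 (.node 2 6 .nil (.node 1 9 (.cons 0x8765432190 .nil) (.node 3 7 (.cons 0x4562109873 .nil) (.leaf 0x126543789 6 (.leaf 0x2109873456 7 (.leaf 0x6219087345 8 (.leaf 0x3456219087 1 .done)))) (.leaf 0x7265439108 6 (.leaf 0x6278019345 7 .done))) (.node 0 2 .nil (.node 1 8 (.cons 0x7812390654 .nil) (.leaf 0x7654390218 3 (.leaf 0x2093456781 6 .done)) (.node 2 9 .nil (.node 1 8 (.cons 0x7812390654 .nil) (.node 0 3 (.cons 0x4567890321 .nil) (.leaf 0x3456781290 1 (.leaf 0x6781290345 8 (.node 0 4 (.cons 0x6540127893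 (.cons 0x7654032981 .nil)) .done .done))) (.leaf 0x7293456018 7 .done)) .done) .done)) .done)) (.node 0 4 (.cons 0x6540127893 .nil) (.node 0 5 .nil (.node 4 6 (.cons 0x7821093465 (.cons 0x9346501287 .nil)) (.leaf 0x7210564398 8 .done) (.node 0 2 .nil (.node 1 8 (.cons 0x9345601872 .nil) (.leaf 0x7654390218 3 (.leaf 0x2093456781 6 .done)) (.node 2 9 (.cons 0x8729345601 .nil) (.node 1 8 (.cons 0x9345601872 .nil) (.node 0 3 (.cons 0x4567890321 .nil) (.node 0 7 .nil (.node 1 4 (.cons 0x3214567890 (.cons 0x7065418923 .nil)) (.leaf 0x789321456 2 .done) .done) .done) (.leaf 0x3456018729 8 .done)) .done) .done)) .done)) (.node 3 6 (.cons 0x4563987210 .nil) (.leaf 0x1278936540 5 (.leaf 0x1278936540 8 (.node 0 3 (.cons 0x4567890321 .nil) (.node 1 4 (.cons 0x3214567890 .nil) (.leaf 0x6541230987 6 (.node 2 4 (.cons 0x3987245601 .nil) (.node 1 3 (.cons 0x7890654231 .nil) (.node 1 6 (.cons 0x5409876123 .nil) (.node 3 5 (.cons 0x6789045321 .nil) (.leaf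 0x4098761235 8 .done) .done) (.leaf 0x4278931065 3 .done)) .done) (.leaf 0x2145678903 9 .done))) .done) .done))) .done)) .done)))) (.node 2 9 .nil (.node 1 8 (.cons 0x1876543290 .nil) (.node 0 2 (.cons 0x9023456781 .nil) (.leaf 0x9345678120 3 (.leaf 0x1876543902 6 .done)) (.node 0 2 (.cons 0x9201876543 .nil) (.leaf 0x9345678102 3 (.leaf 0x1876543920 6 .done)) (.leaf 0x4329018765 9 .done))) (.node 1 9 (.cons 0x8765432190 .nil) (.node 1 8 .nil (.node 0 2 (.cons 0x9023456781 .nil) (.leaf 0x3456781902 6 (.leaf 0x1876543902 6 .done)) (.node 5 8 (.cons 0x6785432190 .nil) (.node 0 6 (.cons 0x2345876091 .nil) (.leaf 0x9123458760 5 (.leaf 0x4581067293 3 (.leaf 0x4581067293 1 (.leaf 0x4392760185 9 .done)))) (.node 0 6 (.cons 0x6093458721 .nil) (.leaf 0x9123458760 8 (.leaf 0x1906785432 6 (.node 1 6 (.cons 0x6127854390 .nil) (.leaf 0x5439061278 9 (.leaf 0x1278543906 1 .done)) (.leaf 0x7854321906 9 .done)))) .done)) .done)) (.node 6 9 (.cons 0x7809654321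 .nil) (.node 1 7 (.cons 0x2345690871 .nil) (.leaf 0x2345690871 1 (.node 2 4 (.cons 0x3245690871 .nil) (.node 0 3 (.cons 0x4567890321 .nil) (.leaf 0x6930178245 8 (.leaf 0x5421039876 1 (.leaf 0x5421039876 3 (.leaf 0x4567893012 8 .done)))) (.node 3 5 (.cons 0x7824356901 .nil) (.leaf 0x1782435690 3 (.node 4 9 (.cons 0x6549087123 .nil) (.leaf 0x2109435678 7 (.node 7 9 (.cons 0x8210976534 .nil) .done .done)) (.leaf 0x178243569 5 .done))) .done)) .done)) (.node 1 7 (.cons 0x3456908712 .nil) (.leaf 0x2345690871 3 (.leaf 0x8096543217 6 .done)) .done)) .done)) .done)) (.node 1 8 .nil (.node 0 4 (.cons 0x7654098123 (.cons 0x6540932781 .nil)) (.node 5 9 (.cons 0x3409567821 .nil) (.leaf 0x1287659340 7 (.leaf 0x432187659 3 (.node 1 9 (.cons 0x8765432190 .nil) (.leaf 0x8765910432 3 (.leaf 0x7823401956 8 (.leaf 0x9567823401 1 .done))) .done))) (.node 0 7 (.cons 0x4567098123 .nil) (.leaf 0x6543218907 6 (.leaf 0x9812345670 3 (.node 1 6 (.cons 0x4561870932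 .nil) (.leaf 0x9327816540 2 (.leaf 0x9327816540 4 (.node 1 9 (.cons 0x8190765432 .nil) (.leaf 0x1907654328 3 .done) .done))) .done))) .done)) (.node 6 8 (.cons 0x7865439012 .nil) (.node 1 4 (.cons 0x1456872390 .nil) (.leaf 0x7865410932 3 (.node 0 3 (.cons 0x4567890321 .nil) (.leaf 0x2145678903 9 (.node 3 8 .nil (.node 2 4 (.cons 0x7245683901 .nil) (.node 1 7 (.cons 0x9087123456 (.cons 0x5687109342 .nil)) (.leaf 0x4239017865 9 .done) (.leaf 0x5678390124 9 (.leaf 0x1093876542 8 .done))) .done) (.leaf 0x8903214567 6 (.leaf 0x9876541230 8 .done)))) (.leaf 0x8723901456 8 .done))) (.node 4 8 (.cons 0x6548721093 .nil) (.node 3 6 (.cons 0x8721093654 .nil) (.leaf 0x1278456390 4 (.leaf 0x7210936548 2 (.node 6 9 (.cons 0x7809654321 .nil) (.node 1 7 (.cons 0x2178654390 .nil) (.leaf 0x1234569087 1 (.leaf 0x5432178096 3 .done)) (.node 0 4 (.cons 0x1872396540 .nil) (.node 3 7 (.cons 0x9812376540 .nil) (.leaf 0x9654018273 6 (.leaf 0x2810456937 3 (.leaf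 0x4567321890 4 .done))) (.leaf 0x3278104569 3 .done)) .done)) (.leaf 0x7210936548 5 .done)))) (.node 1 6 (.cons 0x1654872390 .nil) (.leaf 0x7845610932 3 (.leaf 0x8723901654 8 (.leaf 0x6548723901 1 .done))) .done)) .done)) (.node 1 7 (.cons 0x9087123456 .nil) (.node 6 9 (.cons 0x9654321780 .nil) (.node 5 7 (.cons 0x8123457690 .nil) (.leaf 0x1234576908 3 (.leaf 0x1234576908 9 .done)) (.leaf 0x3217809654 8 (.leaf 0x2345690871 1 (.leaf 0x2345690871 3 .done)))) (.node 1 9 (.cons 0x8765432190 .nil) (.node 1 3 .nil (.node 5 9 (.cons 0x6781234590 (.cons 0x4310956782 (.cons 0x4312876590 .nil))) .done (.node 1 4 (.cons 0x3214567890 .nil) (.node 0 3 (.cons 0x4567890321 .nil) (.leaf 0x2145678903 9 (.node 3 7 (.cons 0x6541237890 .nil) (.node 0 7 .nil (.node 0 6 (.cons 0x9870654132 .nil) (.leaf 0x4560987321 8 (.leaf 0x7893214560 8 (.leaf 0x5412398706 9 .done))) .done) .done) (.leaf 0x8903214567 6 (.leaf 0x9876541230 8 .done)))) .done) .done)) .done)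 .done)) .done))) .done))) (.node 1 9 (.cons 0x8765432190 .nil) (.leaf 0x4321908765 7 (.node 2 9 .nil (.node 1 3 (.cons 0x8765431092 .nil) (.leaf 0x4567829013 3 (.leaf 0x4312908765 9 (.node 6 8 (.cons 0x7865439012 (.cons 0x7865439210 (.cons 0x7680921345 .nil))) (.node 1 7 (.cons 0x2934568710 .nil) (.node 0 2 (.cons 0x8671902345 (.cons 0x9023456871 .nil)) (.leaf 0x8654392017 7 .done) (.leaf 0x4568710923 3 (.leaf 0x7865432901 1 .done))) .done) (.leaf 0x2908765431 8 .done)))) (.node 5 9 (.cons 0x6780954321 .nil) (.node 4 9 (.cons 0x5678210943 .nil) (.node 3 5 (.cons 0x1287653490 .nil) (.node 6 9 .nil (.node 0 4 (.cons 0x6789123540 (.cons 0x7698045321 (.cons 0x9653401287 (.cons 0x5340196782 .nil)))) .done (.node 2 4 (.cons 0x6782435910 .nil) (.leaf 0x1087695342 2 (.node 7 9 (.cons 0x8796534210 .nil) .done (.leaf 0x7695342108 6 .done))) .done)) (.node 7 9 (.cons 0x8210976534 .nil) (.node 6 9 .nil (.node 1 7 (.cons 0x8217653490 (.cons 0x5349671280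 (.cons 0x8096712354 .nil))) .done .done) .done) .done)) .done) (.node 4 9 (.cons 0x5678210943 .nil) (.node 2 6 (.cons 0x3459087621 .nil) (.node 7 9 (.cons 0x8793456210 .nil) (.leaf 0x8012654397 3 .done) (.node 3 8 (.cons 0x7839012654 .nil) (.node 7 9 (.cons 0x8345679210 .nil) (.leaf 0x2108345679 6 .done) (.node 3 5 (.cons 0x2876534901 .nil) (.leaf 0x8765349012 7 (.node 0 3 (.cons 0x4567890321 .nil) (.node 1 3 (.cons 0x4312876590 .nil) (.leaf 0x7809543126 6 .done) .done) .done)) .done)) .done)) .done) .done)) .done)) (.leaf 0x9123456780 3 .done))) (.node 1 9 (.cons 0x8765432190 .nil) (.node 1 7 (.cons 0x8091765432 .nil) (.node 2 9 .nil (.node 0 6 (.cons 0x9234560871 .nil) (.leaf 0x6543921780 1 (.leaf 0x5439287106 3 (.leaf 0x3921780654 8 (.leaf 0x1782934560 6 .done)))) (.node 2 7 (.cons 0x8721093456 .nil) (.node 0 2 (.cons 0x4567198023 .nil) (.node 4 9 (.cons 0x5671943280 .nil) (.node 3 8 (.cons 0x1765498320 .nil) (.leaf 0x7654983201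 2 (.leaf 0x7654983201 5 .done)) (.node 1 3 (.cons 0x5678213490 .nil) (.leaf 0x4980231765 3 (.leaf 0x2089456713 0 .done)) .done)) (.node 6 9 (.cons 0x9654320871 .nil) (.leaf 0x3208719654 4 (.leaf 0x6543208719 2 (.leaf 0x234569178 5 .done))) .done)) .done) .done)) (.leaf 0x9082345671 8 (.node 2 9 .nil (.node 1 8 (.cons 0x7654329180 .nil) (.leaf 0x3290817654 9 (.leaf 0x5432901876 8 (.leaf 0x4329018765 9 .done))) (.node 1 6 (.cons 0x5432908761 .nil) (.node 2 7 (.cons 0x9345610872 .nil) (.leaf 0x1087293456 0 (.node 0 7 (.cons 0x4561239870 .nil) (.node 5 8 (.cons 0x7619234580 .nil) (.node 1 3 (.cons 0x8091327654 .nil) (.node 3 8 (.cons 0x4567238091 .nil) .done .done) (.leaf 0x4329167085 6 (.leaf 0x761923458 3 .done))) .done) .done)) (.node 2 4 (.cons 0x7809324561 .nil) (.leaf 0x8716542390 9 (.leaf 0x8093245617 1 (.leaf 0x871654239 8 .done))) .done)) .done)) (.leaf 0x917654328 6 .done)))) (.node 2 9 .nil (.node 1 3 (.cons 0x4567809231 .nil)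 (.leaf 0x4567829013 3 (.node 0 4 (.cons 0x7654089231 .nil) (.leaf 0x4567892310 2 (.leaf 0x9876540132 8 (.leaf 0x9876540132 4 .done))) (.leaf 0x7654312908 1 (.leaf 0x6780921345 8 .done)))) (.node 1 8 (.cons 0x7654329081 .nil) (.node 1 7 (.cons 0x9234567180 .nil) (.leaf 0x2345671809 8 (.leaf 0x2345671809 5 .done)) (.node 1 4 (.cons 0x3214567890 .nil) (.node 3 7 (.cons 0x1456732980 .nil) (.leaf 0x892376541 0 (.leaf 0x4108923765 5 (.leaf 0x1089237654 3 (.node 2 6 (.cons 0x5432678091 .nil) (.node 6 8 (.cons 0x7865439012 .nil) (.node 2 7 (.cons 0x1865437290 .nil) (.leaf 0x9273456810 5 (.node 3 8 (.cons 0x2983765410 .nil) (.leaf 0x5672938014 9 (.leaf 0x5410839276 1 .done)) .done)) .done) (.leaf 0x7810926543 3 .done)) .done)))) (.node 5 8 (.cons 0x6785432190 .nil) (.node 1 5 (.cons 0x6780915432 .nil) (.node 3 8 (.cons 0x7654123890 .nil) (.node 6 8 (.cons 0x7865439012 .nil) (.node 4 8 .nil (.node 0 3 (.cons 0x4567890321 (.cons 0x7654890321 (.cons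 0x9032156784 .nil))) .done .done) .done) .done) .done) (.node 6 8 (.cons 0x7865439012 .nil) (.node 0 6 (.cons 0x3458760912 .nil) (.leaf 0x9123458760 8 (.leaf 0x1906785432 6 (.node 0 7 (.cons 0x9345687012 .nil) (.leaf 0x4392107865 6 (.leaf 0x4128567093 6 .done)) .done))) .done) .done)) .done)) .done)) .done)) (.leaf 0x7654321908 6 .done))) .done)))
noncomputable def tc9_10_3 : T := (.node 5 8 (.cons 0x7658210934 .nil) (.node 1 8 .nil (.node 2 9 (.cons 0x9210345876 .nil) (.leaf 0x9218765430 3 (.leaf 0x8765432901 6 .done)) (.node 0 4 (.cons 0x9340128567 .nil) (.node 7 9 (.cons 0x4397658210 .nil) (.leaf 0x1285679340 4 (.leaf 0x1285679340 5 (.node 1 9 (.cons 0x1976582340 .nil) (.leaf 0x5823401976 8 (.leaf 0x9765823401 1 .done)) (.leaf 0x1285679340 2 .done)))) (.node 4 8 .nil (.node 0 7 (.cons 0x9348567012 (.cons 0x8456709321 .nil)) (.leaf 0x9845670123 5 .done) (.node 4 7 (.cons 0x9347658210 .nil) (.node 4 6 (.cons 0x5467890321 .nil) (.node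 1 7 (.cons 0x9854671230 .nil) (.leaf 0x3217645890 8 (.node 2 7 (.cons 0x9854672103 .nil) (.leaf 0x6458930127 3 .done) .done)) .done) (.leaf 0x3901285674 5 .done)) .done)) .done)) .done)) (.node 4 7 (.cons 0x2856743901 .nil) (.node 3 5 (.cons 0x4765398210 .nil) (.node 0 4 (.cons 0x5674012893 .nil) (.leaf 0x9821047653 1 (.leaf 0x8935674012 8 .done)) (.node 5 9 .nil (.node 1 6 (.cons 0x7456123980 (.cons 0x4598761230 (.cons 0x8954761230 (.cons 0x9561234780 (.cons 0x4761039582 .nil))))) .done (.node 5 7 .nil (.node 6 8 (.cons 0x5476893012 (.cons 0x4576893012 .nil)) (.leaf 0x5743901286 9 .done) (.node 0 5 (.cons 0x4765012893 .nil) (.node 1 5 (.cons 0x6782159034 .nil) (.node 2 5 (.cons 0x8930125476 .nil) .done .done) .done) .done)) .done)) .done)) (.leaf 0x934765821 4 (.node 0 4 .nil (.node 3 5 (.cons 0x9012876534 (.cons 0x2893567401 .nil)) (.leaf 0x9821047653 8 .done) (.node 3 8 (.cons 0x7654098321 .nil) (.node 1 8 (.cons 0x5674390182 .nil)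 (.node 0 5 (.cons 0x9054321876 .nil) (.node 0 2 .nil (.node 1 4 (.cons 0x3214567890 (.cons 0x5674102893 .nil)) (.leaf 0x5093281476 2 .done) .done) .done) .done) .done) .done)) (.leaf 0x6743901285 5 .done)))) (.node 4 7 (.cons 0x1285674390 .nil) (.leaf 0x6743901285 9 (.leaf 0x3901285674 8 (.node 0 4 .nil (.node 1 8 (.cons 0x5674390182 .nil) (.node 1 5 (.cons 0x6789032154 (.cons 0x3289047651 (.cons 0x9328156740 .nil))) (.leaf 0x4093281567 5 .done) (.leaf 0x4093218765 6 .done)) (.node 3 7 (.cons 0x8904567321 .nil) (.node 1 9 (.cons 0x9128567340 .nil) (.leaf 0x6582190437 1 (.leaf 0x6582190437 3 (.leaf 0x5673409128 8 .done))) (.node 0 7 (.cons 0x4390765821 .nil) (.node 0 2 .nil (.node 1 3 (.cons 0x5674098231 (.cons 0x9856731204 (.cons 0x6547890231 .nil))) .done .done) .done) .done)) .done)) (.node 2 9 (.cons 0x6785430921 .nil) (.node 5 9 .nil (.node 1 6 (.cons 0x9034587612 (.cons 0x4598761230 (.cons 0x7612859034 (.cons 0x3478095612 (.cons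 0x8761230954 .nil))))) .done (.node 4 9 (.cons 0x5678210943 .nil) (.node 1 9 (.cons 0x8765432190 .nil) (.node 7 9 .nil (.node 2 6 (.cons 0x9034587621 (.cons 0x9780126543 (.cons 0x8543097621 .nil))) (.leaf 0x126543978 8 .done) .done) .done) .done) .done)) (.node 1 9 (.cons 0x8765432190 .nil) (.node 4 9 (.cons 0x5678210943 .nil) (.node 5 9 .nil (.node 1 3 (.cons 0x6785431290 (.cons 0x2876594310 (.cons 0x6590874312 .nil))) .done .done) .done) (.node 7 9 .nil (.node 2 6 (.cons 0x9034587621 (.cons 0x9780126543 (.cons 0x8543097621 .nil))) (.leaf 0x126543978 8 .done) (.node 6 9 (.cons 0x7809654321 .nil) (.node 1 7 (.cons 0x3456908712 .nil) (.leaf 0x2345690871 3 (.node 1 8 (.cons 0x5430967812 .nil) (.node 4 9 (.cons 0x5678210943 .nil) (.node 5 9 (.cons 0x2187695430 .nil) .done .done) .done) (.leaf 0x8096543217 6 .done))) .done) .done)) .done)) .done)) .done)))) .done))) (.node 5 8 (.cons 0x7658210934 .nil) (.node 1 8 .nil (.node 0 7 (.cons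 0x8123907654 .nil) (.leaf 0x6543218907 6 (.node 0 4 (.cons 0x6704589321 (.cons 0x7654098123 .nil)) (.node 1 5 (.cons 0x9043281567 (.cons 0x7651823904 .nil)) (.node 2 6 (.cons 0x5407623981 (.cons 0x9326704581 .nil)) (.leaf 0x5407623981 0 (.leaf 0x8154076239 5 .done)) .done) .done) (.node 2 4 (.cons 0x9342856701 (.cons 0x1893245670 (.cons 0x3245670981 .nil))) (.leaf 0x189324567 3 (.leaf 0x7018932456 5 .done)) .done))) (.node 3 8 .nil (.node 2 4 (.cons 0x7658930124 (.cons 0x7654210983 .nil)) (.leaf 0x6542109387 8 (.leaf 0x124567839 8 (.node 2 7 (.cons 0x8390127654 .nil) (.node 0 4 (.cons 0x9340128567 (.cons 0x7654098321 .nil)) (.leaf 0x7658934012 4 .done) (.leaf 0x5672109834 8 .done)) .done))) (.node 3 5 (.cons 0x9012876534 .nil) (.node 4 8 .nil (.node 0 7 (.cons 0x8456709321 .nil) (.leaf 0x9845670123 5 (.leaf 0x9845670123 4 (.leaf 0x7093218456 3 .done))) (.node 6 8 .nil (.node 0 5 (.cons 0x7650934821 (.cons 0x9054321867 (.cons 0x7681239054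 .nil))) (.node 2 7 (.cons 0x9345018672 (.cons 0x9345867210 (.cons 0x4509327681 .nil))) (.leaf 0x1093458672 5 .done) .done) .done) .done)) .done) .done)) .done)) (.node 4 7 (.cons 0x2856743901 .nil) (.node 1 4 (.cons 0x3214567890 .nil) (.node 2 9 (.cons 0x1476589230 .nil) (.leaf 0x4765892301 5 (.leaf 0x4765892301 8 .done)) (.leaf 0x8903214567 6 (.node 4 8 (.cons 0x5674893012 .nil) (.node 2 7 (.cons 0x6547210893 .nil) (.node 3 6 (.cons 0x5412367890 .nil) (.node 6 8 (.cons 0x2768543901 .nil) .done (.leaf 0x1089365472 1 .done)) (.node 3 8 (.cons 0x1276548390 .nil) (.leaf 0x1276548390 2 (.leaf 0x7210938456 6 .done)) .done)) .done) .done))) (.leaf 0x934765821 4 (.node 1 8 (.cons 0x5674390182 .nil) (.node 2 9 (.cons 0x5674392810 .nil) (.node 5 9 .nil (.node 0 4 (.cons 0x2304765981 .nil) (.leaf 0x1287659340 6 (.leaf 0x9567401823 9 .done)) (.node 4 9 (.cons 0x2187659430 .nil) (.node 0 4 (.cons 0x3409567821 .nil) (.node 1 4 (.cons 0x3412876590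 .nil) (.leaf 0x8903214567 6 .done) .done) .done) .done)) (.node 1 6 (.cons 0x1678543290 .nil) (.leaf 0x5432901678 8 (.leaf 0x4587610923 3 (.leaf 0x6785432901 1 .done))) .done)) (.node 3 8 .nil (.node 5 9 (.cons 0x6781234590 .nil) (.leaf 0x128347659 5 (.leaf 0x6743821095 5 .done)) (.node 3 5 (.cons 0x9012876534 .nil) (.node 1 3 .nil (.node 2 4 (.cons 0x7658243901 (.cons 0x5674289310 (.cons 0x5674289013 .nil))) (.leaf 0x9876542310 8 (.leaf 0x9876542310 4 .done)) .done) .done) .done)) .done)) (.leaf 0x6743901285 5 .done)))) (.node 4 7 (.cons 0x1285674390 .nil) (.leaf 0x6743901285 9 (.leaf 0x3901285674 8 (.node 1 8 (.cons 0x5674390182 .nil) (.node 0 7 (.cons 0x4390765821 .nil) (.node 0 4 .nil (.node 1 5 (.cons 0x3289047651 (.cons 0x9328156740 .nil)) (.leaf 0x7651234098 6 (.leaf 0x4093281567 5 .done)) (.node 3 7 (.cons 0x9812376540 .nil) (.node 1 9 (.cons 0x9128567340 .nil) (.leaf 0x6582190437 1 (.leaf 0x6582190437 3 (.leaf 0x5673409128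 8 .done))) .done) .done)) (.node 4 8 (.cons 0x9321845670 .nil) (.leaf 0x7093218456 5 .done) .done)) (.node 4 8 .nil (.node 0 7 (.cons 0x4390765821 (.cons 0x8456709321 .nil)) (.leaf 0x9845670123 4 .done) (.node 0 7 (.cons 0x1239845670 .nil) (.leaf 0x9845670123 4 (.node 1 4 (.cons 0x7658214390 .nil) (.node 3 8 (.cons 0x7654123890 .nil) (.leaf 0x6541238907 4 .done) (.leaf 0x8903214567 6 .done)) .done)) .done)) .done)) (.node 5 9 .nil (.node 1 6 (.cons 0x7439082165 (.cons 0x7439561280 (.cons 0x3478095612 .nil))) (.leaf 0x5903478216 6 (.leaf 0x9543216780 8 .done)) (.node 3 6 (.cons 0x1287436590 .nil) (.leaf 0x4782109563 3 (.node 3 5 (.cons 0x9012876534 .nil) (.node 4 9 (.cons 0x9435678210 .nil) (.node 0 6 (.cons 0x1235498760 .nil) (.leaf 0x5498760123 4 (.leaf 0x5498760123 8 .done)) (.leaf 0x8765349012 7 .done)) .done) .done)) (.node 1 4 (.cons 0x7658214390 .nil) (.node 0 7 (.cons 0x8932145670 .nil) (.leaf 0x8214390765 8 (.node 1 8 (.cons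 0x4182395670 .nil) (.node 0 5 (.cons 0x3982147650 .nil) (.node 1 3 (.cons 0x6593147082 .nil) (.leaf 0x5098213476 6 .done) .done) .done) (.leaf 0x7658214390 1 .done))) (.node 3 5 (.cons 0x3567412890 .nil) (.node 5 7 (.cons 0x6574390821 .nil) (.node 1 5 (.cons 0x8215674390 .nil) (.node 4 6 (.cons 0x3098746512 .nil) (.node 0 7 (.cons 0x3982156470 .nil) (.leaf 0x1564703982 9 (.leaf 0x7465128930 1 .done)) (.leaf 0x3098746512 1 .done)) .done) .done) (.leaf 0x4128903567 8 .done)) (.leaf 0x8903214567 6 (.leaf 0x8765901432 6 .done)))) .done))) .done)))) .done))) (.node 1 4 (.cons 0x3214567890 .nil) (.leaf 0x9876541230 2 (.leaf 0x9876541230 5 (.leaf 0x9876541230 8 (.leaf 0x9876541230 4 .done)))) .done)))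
noncomputable def tc9_10_4 : T := (.node 0 8 (.cons 0x9087654321 .nil) (.node 0 3 (.cons 0x4567890321 .nil) tc9_10_3 (.node 1 9 (.cons 0x8765432190 .nil) (.node 2 9 .nil (.node 1 3 (.cons 0x8765431092 .nil) (.leaf 0x4567829013 3 (.leaf 0x4312908765 9 (.leaf 0x928765431 6 (.leaf 0x2908765431 8 .done)))) (.node 5 9 (.cons 0x6780954321 .nil) (.node 4 9 (.cons 0x5678210943 .nil) (.node 1 8 .nil (.node 0 7 (.cons 0x8709123456 (.cons 0x8123907654 .nil)) (.leaf 0x9812345670 3 (.node 2 4 (.cons 0x3428765901 (.cons 0x7659342810 (.cons 0x3245670981 .nil))) (.leaf 0x189324567 3 .done) .done)) (.node 1 4 (.cons 0x1432876590 .nil) (.node 2 4 (.cons 0x7659342810 .nil) (.node 0 3 (.cons 0x9567824301 .nil) (.leaf 0x6542103987 2 (.leaf 0x6542103987 5 (.leaf 0x4567893012 4 .done))) (.node 1 3 (.cons 0x5678213490 .nil) (.leaf 0x3109567824 3 (.leaf 0x956782431 7 .done)) .done)) (.leaf 0x8765901432 6 .done)) .done)) .done) (.node 4 9 (.cons 0x5678210943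 .nil) (.node 1 8 .nil (.node 0 4 (.cons 0x3409567821 (.cons 0x7654098123 .nil)) (.leaf 0x9321876540 3 .done) (.node 1 5 (.cons 0x1567823490 .nil) (.leaf 0x2349015678 3 (.node 5 8 (.cons 0x7658210934 .nil) (.node 3 5 (.cons 0x2876534901 .nil) (.leaf 0x8765349012 7 (.node 3 8 .nil (.node 0 6 (.cons 0x3459218760 (.cons 0x7832190654 .nil)) (.leaf 0x3459210678 8 (.leaf 0x6783459210 1 (.leaf 0x8760921543 8 .done))) .done) .done)) (.node 1 6 (.cons 0x1678543290 .nil) (.leaf 0x5432901678 8 (.leaf 0x4587610923 3 .done)) .done)) .done)) .done)) .done) .done)) .done)) (.node 2 9 .nil (.node 1 3 (.cons 0x8765431092 .nil) (.leaf 0x4567829013 3 (.leaf 0x4312908765 9 (.leaf 0x9213456780 6 (.leaf 0x2908765431 8 .done)))) (.node 5 9 (.cons 0x6780954321 .nil) (.node 4 9 (.cons 0x5678210943 .nil) (.node 3 5 (.cons 0x1287653490 .nil) (.node 6 9 .nil (.node 0 4 (.cons 0x6789123540 (.cons 0x7698045321 (.cons 0x9653401287 (.cons 0x7829653401 .nil)))) .done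 (.node 2 4 (.cons 0x6782435910 .nil) (.leaf 0x1087695342 2 (.node 7 9 (.cons 0x6795342801 .nil) .done (.leaf 0x7695342108 6 .done))) .done)) (.node 6 9 (.cons 0x7821096534 .nil) (.node 1 6 (.cons 0x7821653490 .nil) (.leaf 0x6780954321 0 (.leaf 0x954321678 5 (.node 4 7 (.cons 0x3561287490 .nil) (.leaf 0x5321690874 1 (.leaf 0x8210965347 3 (.leaf 0x3569012874 6 .done))) .done))) .done) .done)) .done) (.node 4 9 (.cons 0x5678210943 .nil) (.node 6 9 .nil (.node 3 5 (.cons 0x2876534901 (.cons 0x7821096534 .nil)) (.leaf 0x8765349012 7 (.node 2 5 (.cons 0x4352876910 .nil) (.leaf 0x125439678 6 (.node 3 8 (.cons 0x7652834901 (.cons 0x7834569210 (.cons 0x7834569012 .nil))) .done (.leaf 0x1087693452 8 .done))) .done)) (.node 1 6 (.cons 0x3459087612 .nil) (.leaf 0x1678095432 3 (.node 7 9 (.cons 0x8097612345 .nil) .done (.leaf 0x7809543216 7 .done))) .done)) .done) .done)) .done)) (.leaf 0x9123456780 3 .done))) (.node 1 9 (.cons 0x8765432190 .nil)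 (.node 2 9 .nil (.node 1 3 (.cons 0x4567809231 .nil) (.leaf 0x4567829013 3 (.node 0 4 (.cons 0x7654089231 .nil) (.leaf 0x4567892310 2 (.leaf 0x9876540132 8 (.leaf 0x9876540132 4 .done))) (.leaf 0x928765431 6 (.leaf 0x6780921345 8 .done)))) (.node 2 7 (.cons 0x6543278091 .nil) (.node 1 4 (.cons 0x1456723980 .nil) (.leaf 0x893276541 0 (.node 5 9 (.cons 0x4395672801 .nil) (.node 2 4 (.cons 0x3428765901 .nil) (.node 1 3 (.cons 0x4310956782 .nil) (.node 0 4 (.cons 0x7659823140 .nil) (.node 2 6 (.cons 0x8762954310 .nil) (.leaf 0x4598762310 4 (.leaf 0x4598762310 8 .done)) .done) (.leaf 0x3109567824 3 (.leaf 0x956782431 7 .done))) .done) (.leaf 0x827659341 2 .done)) (.leaf 0x7239801456 5 .done))) (.node 1 8 (.cons 0x4567239081 .nil) (.node 1 4 (.cons 0x9327654180 .nil) (.leaf 0x4567239081 2 (.leaf 0x7239081456 4 .done)) (.node 1 4 (.cons 0x3214567890 .nil) (.leaf 0x7239081456 7 (.leaf 0x7239081456 6 .done)) .done)) .done)) .done)) (.node 2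 9 .nil (.node 1 3 (.cons 0x4567809231 .nil) (.leaf 0x4567829013 3 (.node 0 4 (.cons 0x7654089231 .nil) (.leaf 0x4567892310 2 (.leaf 0x9876540132 8 (.leaf 0x9876540132 4 .done))) (.leaf 0x7654312908 3 (.leaf 0x6780921345 8 .done)))) (.node 4 9 (.cons 0x5678210943 .nil) (.node 1 5 (.cons 0x1567823490 .nil) (.node 0 3 (.cons 0x4567890321 .nil) (.node 3 5 (.cons 0x2876534901 .nil) (.node 5 9 .nil (.node 4 7 (.cons 0x6534782901 (.cons 0x6743951082 (.cons 0x6590347821 .nil))) (.leaf 0x829347651 6 .done) (.node 6 9 (.cons 0x2345196780 .nil) (.node 7 9 (.cons 0x4397651082 .nil) .done .done) .done)) .done) (.leaf 0x4301567829 9 (.leaf 0x5103492876 6 .done))) (.leaf 0x2349015678 3 (.leaf 0x8234901567 5 (.node 1 7 (.cons 0x6543290871 .nil) (.node 0 4 (.cons 0x8932176540 .nil) (.node 2 4 (.cons 0x1765423980 .nil) (.leaf 0x893245671 0 (.leaf 0x7108932456 5 .done)) (.leaf 0x1239804567 3 (.leaf 0x7123980456 5 .done))) (.node 1 6 (.cons 0x7809234561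 .nil) (.leaf 0x3290871654 6 (.node 4 6 (.cons 0x5643290871 .nil) (.leaf 0x7809234651 6 (.node 5 7 (.cons 0x8091675432 .nil) (.leaf 0x916754328 3 (.leaf 0x916754328 1 (.node 5 9 .nil (.node 1 3 (.cons 0x5643178092 (.cons 0x2876594310 (.cons 0x7821346590 .nil))) .done .done) .done))) .done)) .done)) .done)) .done)))) (.node 5 9 .nil (.node 1 4 (.cons 0x3214567890 (.cons 0x7659341082 (.cons 0x7659082341 .nil))) (.node 1 6 (.cons 0x7809234561 (.cons 0x2345916780 (.cons 0x7809561432 .nil))) (.leaf 0x954321678 2 (.leaf 0x5908761234 6 .done)) .done) (.node 7 9 .nil (.node 1 4 (.cons 0x1432876590 (.cons 0x5679341082 (.cons 0x5679082341 .nil))) (.node 0 6 (.cons 0x7890654123 (.cons 0x8790654123 .nil)) (.leaf 0x8795601432 3 (.leaf 0x6597823410 1 .done)) .done) (.node 6 9 .nil (.node 1 7 (.cons 0x6543290871 .nil) (.node 0 3 (.cons 0x4567890321 (.cons 0x4569871230 .nil)) (.leaf 0x1782965430 6 (.leaf 0x6921780345 8 .done)) (.leaf 0x9654321780 7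 .done)) .done) .done)) .done)) .done)) .done)) (.leaf 0x7654321908 6 .done))) .done))) (.node 0 8 (.cons 0x9087654321 .nil) tc9_10_2 (.leaf 0x128765439 6 (.node 0 8 (.cons 0x9087654321 .nil) (.node 0 3 (.cons 0x4567890321 .nil) tc9_10_1 (.node 1 9 (.cons 0x8765432190 .nil) (.leaf 0x4321908765 7 (.node 1 8 .nil (.node 0 4 (.cons 0x7654098123 .nil) (.node 5 9 (.cons 0x6780954321 (.cons 0x3409567821 .nil)) (.leaf 0x2104395678 1 (.node 1 4 (.cons 0x5678932140 .nil) (.node 3 5 (.cons 0x9012876534 .nil) (.leaf 0x6782190435 3 (.leaf 0x4091287653 6 (.leaf 0x2140987653 5 .done))) (.leaf 0x8765901432 6 .done)) .done)) (.leaf 0x8123904567 7 (.node 2 5 (.cons 0x8765210934 (.cons 0x9340187652 (.cons 0x4093256781 .nil))) (.leaf 0x3409187652 7 (.node 0 7 (.cons 0x8709123456 .nil) (.leaf 0x9812345670 3 (.node 4 6 (.cons 0x9325640781 (.cons 0x7812564390 .nil)) (.leaf 0x6407819325 3 (.leaf 0x8125643907 1 .done)) .done)) .done)) .done))) (.node 1 4 (.cons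 0x3214567890 .nil) (.node 1 5 .nil (.node 2 4 (.cons 0x8765109342 .nil) (.leaf 0x3908765124 8 (.leaf 0x1243908765 9 (.leaf 0x5109342876 7 (.leaf 0x156782439 6 .done)))) (.node 1 6 (.cons 0x9087612345 .nil) (.node 1 7 .nil (.node 0 4 (.cons 0x8765123904 (.cons 0x6540987123 (.cons 0x5671409823 .nil))) .done (.node 1 3 .nil (.node 5 9 (.cons 0x6780954321 (.cons 0x4310956782 (.cons 0x4312876590 .nil))) (.leaf 0x6123459087 3 .done) .done) .done)) .done) .done)) (.node 0 3 (.cons 0x4567890321 .nil) (.node 1 3 .nil (.node 2 4 (.cons 0x1324567890 .nil) (.leaf 0x5678903124 8 (.leaf 0x9876542310 2 (.leaf 0x9876542310 5 (.leaf 0x9876542310 8 .done)))) .done) (.leaf 0x2309876541 5 (.leaf 0x9876541230 4 .done))) .done)) .done)) (.node 0 3 (.cons 0x4567890321 .nil) (.node 1 4 (.cons 0x3214567890 .nil) (.leaf 0x6541230987 6 (.node 7 9 .nil (.node 3 8 (.cons 0x7654123890 (.cons 0x4567983012 (.cons 0x6543879012 (.cons 0x5679014382 .nil)))) .done (.node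 1 5 (.cons 0x8234156790 .nil) (.node 1 6 (.cons 0x4516798032 .nil) (.node 2 4 (.cons 0x6798032451 .nil) (.leaf 0x7651034289 6 (.leaf 0x2308976154 2 (.leaf 0x7980324516 8 .done))) (.node 2 4 (.cons 0x6798032451 .nil) (.leaf 0x7651034289 6 (.leaf 0x324516798 6 (.leaf 0x5167980324 9 .done))) .done)) (.node 1 8 .nil (.node 0 2 (.cons 0x6543209781 (.cons 0x8145679023 .nil)) (.leaf 0x3456781902 6 .done) (.node 2 4 (.cons 0x1897654230 .nil) (.leaf 0x8976542301 2 (.leaf 0x8976542301 8 (.leaf 0x8976542301 4 .done))) .done)) (.leaf 0x2809765143 5 .done))) (.node 3 5 (.cons 0x8214356790 .nil) (.node 3 6 (.cons 0x2145367980 .nil) (.node 0 2 (.cons 0x2089763541 .nil) (.leaf 0x897635412 0 (.leaf 0x7635412089 5 .done)) .done) (.node 0 6 (.cons 0x4356097821 .nil) (.leaf 0x3560978214 6 (.leaf 0x9782143560 9 (.node 5 8 (.cons 0x6785432190 .nil) (.leaf 0x2856790341 5 (.leaf 0x9765821430 4 (.leaf 0x7854321906 9 .done))) .done))) (.leaf 0x8097653412 3 .done)))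 .done))) (.leaf 0x2145678903 9 .done))) (.node 1 3 .nil (.node 2 4 (.cons 0x1324567890 .nil) (.leaf 0x5678903124 5 (.leaf 0x9876542310 2 (.leaf 0x9876542310 5 (.leaf 0x9876542310 8 (.leaf 0x9876542310 4 .done))))) (.node 1 4 (.cons 0x3214567890 .nil) (.node 3 8 (.cons 0x7654123890 .nil) (.node 3 5 (.cons 0x9012876534 .nil) (.node 3 6 .nil (.node 2 4 (.cons 0x9801245367 (.cons 0x7890124563 (.cons 0x5421098763 .nil))) (.leaf 0x1098763542 7 .done) .done) .done) .done) (.node 1 8 .nil (.node 0 4 (.cons 0x7654098123 .nil) (.node 1 5 (.cons 0x8765123904 .nil) (.leaf 0x2156789043 9 .done) (.node 2 9 (.cons 0x1329876540 .nil) (.leaf 0x4567892310 4 (.leaf 0x4567892310 8 .done)) .done)) .done) .done)) (.node 3 5 (.cons 0x9012876534 .nil) (.node 0 4 (.cons 0x6789123540 .nil) (.node 3 8 (.cons 0x7654098321 .nil) (.node 1 7 (.cons 0x2389045671 .nil) (.node 0 2 (.cons 0x9832045671 .nil) (.leaf 0x4567198320 9 .done) (.leaf 0x9045671238 8 (.leaf 0x7654098321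 2 .done))) .done) (.node 2 6 (.cons 0x1987623540 .nil) (.node 2 9 (.cons 0x9287653401 .nil) (.node 0 6 (.cons 0x4532198760 .nil) (.leaf 0x9123540678 5 (.node 0 7 (.cons 0x8913267045 .nil) (.node 5 8 (.cons 0x7623198540 .nil) (.leaf 0x912345876 2 (.leaf 0x7623198540 2 (.leaf 0x1906785432 6 .done))) .done) (.leaf 0x1235406789 3 .done))) (.leaf 0x1043567829 1 .done)) (.leaf 0x9104532678 5 (.leaf 0x1045326789 3 .done))) .done)) (.node 1 4 (.cons 0x3214567890 .nil) (.node 2 9 (.cons 0x9287653410 .nil) (.leaf 0x3567829014 4 (.leaf 0x3567829014 8 .done)) (.node 2 9 (.cons 0x4356782901 .nil) (.leaf 0x143567829 5 (.node 3 6 .nil (.node 1 5 (.cons 0x9087632154 .nil) (.leaf 0x2908763451 3 (.leaf 0x4367809215 6 .done)) (.node 3 8 .nil (.node 0 7 (.cons 0x9210783654 .nil) (.leaf 0x2389076541 9 (.node 5 9 (.cons 0x4123659870 (.cons 0x7659012834 (.cons 0x6590783412 .nil))) .done (.leaf 0x983214567 1 .done))) .done) .done)) .done)) .done)) .done))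 .done))) (.node 1 4 (.cons 0x3214567890 .nil) (.leaf 0x9876541230 2 (.leaf 0x9876541230 5 (.leaf 0x9876541230 8 .done))) .done))) .done))) (.node 1 9 (.cons 0x8765432190 .nil) tc9_10_0 .done))) (.leaf 0x4567821093 3 .done)))))
noncomputable def uc9_10_0 : T := tc9_10_4
theorem sub_c9_10_0 : root 9 refs9_10 [] 0x300000008307000040007060000000060500000000504000000004030000000030100040000102000000002018000000010 0xfef7ff67ff3fff9fffcfffe7fff5ffe9fff9fefd 9 3 9 (.cons 0x8765439012 .nil) uc9_10_0 = true := by decide +kernel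
noncomputable def tc9_10_5 : T := (.node 1 4 (.cons 0x3214567890 .nil) (.node 0 3 (.cons 0x9876541230 .nil) (.leaf 0x6541230987 6 (.node 2 7 (.cons 0x3276541980 .nil) (.leaf 0x8914567230 6 (.leaf 0x8914567230 7 (.node 1 3 (.cons 0x8091327654 .nil) (.node 3 8 (.cons 0x9145672380 .nil) (.node 3 7 (.cons 0x2376541980 .nil) (.node 0 2 (.cons 0x8914567320 .nil) (.leaf 0x6541980237 7 (.node 0 7 (.cons 0x9870321456 .nil) (.node 1 7 (.cons 0x8091765432 .nil) .done .done) .done)) .done) .done) .done) .done))) (.node 1 3 .nil (.node 2 4 (.cons 0x7654231980 .nil) (.leaf 0x987654213 2 (.leaf 0x9876542310 5 (.leaf 0x9876542310 8 .done))) (.node 1 5 .nil (.node 2 4 (.cons 0x9803241567 .nil) (.leaf 0x6789034215 8 (.leaf 0x7651243098 3 .done)) (.node 1 6 (.cons 0x4516780932 .nil) (.node 1 8 .nil (.node 0 2 (.cons 0x7654198023 .nil) (.node 2 4 (.cons 0x6780932451 .nil) (.leaf 0x7809324516 2 .done) (.leaf 0x218765439 3 (.leaf 0x1876543902 7 .done)))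 .done) .done) .done)) .done)) .done))) (.node 0 3 (.cons 0x4567890321 .nil) (.leaf 0x2145678903 9 (.node 1 5 .nil (.node 6 9 (.cons 0x7809651432 (.cons 0x1543287690 (.cons 0x3451287690 .nil))) (.leaf 0x7823451096 6 .done) (.node 1 3 .nil (.node 2 4 (.cons 0x7654231980 .nil) (.leaf 0x5678903124 5 (.leaf 0x9876542310 5 .done)) (.node 1 6 (.cons 0x7890321654 .nil) (.node 1 8 .nil (.node 0 5 (.cons 0x8761239054 (.cons 0x6781239054 .nil)) (.node 2 4 (.cons 0x9324516780 (.cons 0x9324508167 (.cons 0x7618093245 .nil))) .done .done) .done) .done) .done)) (.node 1 6 (.cons 0x4516780932 .nil) (.node 1 7 (.cons 0x8091765432 .nil) (.node 0 5 .nil (.node 2 6 (.cons 0x8091762345 (.cons 0x9326145087 .nil)) (.leaf 0x1054398762 4 (.leaf 0x7621054398 5 .done)) (.node 2 7 (.cons 0x4508932761 .nil) (.node 6 8 (.cons 0x4519327680 .nil) (.leaf 0x6721054398 2 (.leaf 0x5012768934 5 .done)) (.leaf 0x5089327614 2 (.leaf 0x5089327614 8 .done))) .done)) (.leaf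 0x9082345671 6 .done)) (.node 2 4 (.cons 0x6780932451 .nil) (.leaf 0x7809324516 8 (.node 2 6 (.cons 0x8762109345 .nil) (.node 2 5 (.cons 0x9345267801 .nil) (.leaf 0x4391087625 8 .done) (.node 5 7 (.cons 0x6239087541 .nil) (.leaf 0x2390875416 8 (.leaf 0x9326145780 4 (.leaf 0x8091675432 7 .done))) .done)) .done)) .done)) .done))) (.leaf 0x8903214567 6 .done))) (.node 1 7 (.cons 0x8091765432 .nil) (.node 0 3 (.cons 0x4567890321 .nil) (.node 4 8 (.cons 0x9845671230 .nil) (.node 0 7 (.cons 0x3219845670 .nil) (.leaf 0x4891230765 8 (.leaf 0x8456703219 9 (.leaf 0x7654891230 1 .done))) (.leaf 0x9032176548 3 (.node 0 2 (.cons 0x9845671203 .nil) (.leaf 0x3984567120 3 (.node 0 6 (.cons 0x5489306712 .nil) (.node 2 5 (.cons 0x6712548930 .nil) (.leaf 0x671932548 6 (.leaf 0x7608452391 7 (.leaf 0x4521760398 9 (.leaf 0x2084391765 0 .done)))) .done) (.leaf 0x1765489302 6 .done))) .done))) (.leaf 0x2309876541 5 (.node 2 4 (.cons 0x3245671980 .nil) (.leaf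 0x8917654230 6 (.node 3 7 (.cons 0x8901245673 .nil) (.node 1 3 (.cons 0x8901376542 .nil) (.leaf 0x982456731 8 .done) .done) (.leaf 0x8917654230 7 .done))) .done))) (.leaf 0x9082345671 6 (.node 1 6 (.cons 0x7619082345 .nil) (.node 1 5 .nil (.node 2 9 (.cons 0x4329087651 .nil) (.leaf 0x6780923451 0 (.leaf 0x3290876514 5 .done)) (.node 1 3 .nil (.node 2 4 (.cons 0x8091765423 (.cons 0x7654231980 (.cons 0x9087132456 .nil))) (.leaf 0x9876542310 5 .done) (.node 0 3 (.cons 0x4567890321 .nil) (.node 0 5 (.cons 0x6789054123 .nil) (.node 1 8 (.cons 0x6781239054 .nil) .done .done) (.leaf 0x2309876541 5 .done)) .done)) .done)) (.node 5 7 (.cons 0x6754328091 .nil) (.node 6 9 (.cons 0x1967543280 .nil) (.leaf 0x7543280196 7 (.node 0 3 (.cons 0x8219675430 .nil) (.leaf 0x3457691280 2 (.leaf 0x2309876541 5 (.leaf 0x7691280345 4 .done))) .done)) (.node 5 9 (.cons 0x5908761432 .nil) (.node 0 6 (.cons 0x4328759061 .nil) (.leaf 0x6095782341 3 (.leaf 0x9578234160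 7 .done)) (.node 0 6 (.cons 0x3459067821 .nil) (.node 1 3 (.cons 0x6782134590 .nil) (.leaf 0x2134590678 5 (.leaf 0x9067541328 6 .done)) (.node 1 8 (.cons 0x6754328190 .nil) (.leaf 0x2345760918 5 (.node 5 8 (.cons 0x4328576190 .nil) (.leaf 0x5876093214 3 .done) .done)) .done)) .done)) (.leaf 0x8091675432 7 .done))) .done)) .done))) .done))) (.node 2 7 (.cons 0x6543278091 .nil) (.node 2 6 (.cons 0x9108726543 .nil) (.leaf 0x193456278 8 (.node 6 9 (.cons 0x1965432780 .nil) (.node 2 9 .nil (.node 1 3 (.cons 0x9672801345 (.cons 0x7692801345 (.cons 0x4567298013 .nil))) (.leaf 0x928765431 8 .done) .done) (.leaf 0x5432780196 6 (.node 0 3 (.cons 0x8721965430 .nil) (.node 1 5 (.cons 0x3451287690 .nil) (.leaf 0x5430827691 2 (.leaf 0x2803451967 8 (.leaf 0x2876903451 5 .done))) (.leaf 0x3456912780 1 (.leaf 0x6912780345 8 .done))) .done))) (.node 3 7 (.cons 0x4562378091 .nil) (.node 1 4 (.cons 0x3214567890 .nil) (.leaf 0x8732654190 5 (.leaf 0x8091456237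 0 (.node 0 3 (.cons 0x4567890321 .nil) (.node 1 3 (.cons 0x7809132654 .nil) (.node 4 7 (.cons 0x9132654780 .nil) (.leaf 0x5623190874 4 (.leaf 0x8745623190 5 .done)) .done) (.leaf 0x2309876541 5 .done)) .done))) (.node 1 4 (.cons 0x8732654190 .nil) (.leaf 0x2654190873 4 (.node 5 8 (.cons 0x7623908541 .nil) (.leaf 0x5410937628 0 (.node 0 6 (.cons 0x6014589372 .nil) (.leaf 0x5893726014 5 (.leaf 0x8937260145 3 .done)) (.leaf 0x9376285410 3 .done))) (.node 4 7 (.cons 0x3265478091 .nil) (.node 1 3 (.cons 0x3190874562 .nil) (.leaf 0x8745623190 5 (.leaf 0x8091326547 0 (.node 5 9 (.cons 0x3267809541 .nil) (.leaf 0x2678095413 8 (.leaf 0x7623145908 4 (.leaf 0x2678095413 2 .done))) .done))) .done) .done))) .done)) .done))) (.node 1 6 (.cons 0x7809165432 .nil) (.node 2 9 .nil (.node 1 3 (.cons 0x4567809231 .nil) (.leaf 0x4567829013 9 (.leaf 0x7654312908 1 (.leaf 0x928765431 8 .done))) (.node 5 8 (.cons 0x6785439012 .nil) (.leaf 0x7293458016 3 (.leaf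 0x6108543927 0 (.leaf 0x6729345801 5 .done))) .done)) (.leaf 0x6190872345 3 (.node 1 8 .nil (.node 0 6 (.cons 0x9065432187 .nil) (.node 1 5 (.cons 0x4512398760 (.cons 0x9081567234 (.cons 0x8760932154 .nil))) .done (.leaf 0x6091872345 3 (.leaf 0x9187234560 7 .done))) (.node 6 8 (.cons 0x7865432190 .nil) (.node 5 8 (.cons 0x6785439012 .nil) (.node 0 7 (.cons 0x3456870912 .nil) (.leaf 0x9123456870 6 (.node 4 8 (.cons 0x6548709123 .nil) .done .done)) .done) .done) .done)) (.leaf 0x8091654327 7 .done)))) (.node 1 6 (.cons 0x7809165432 .nil) (.node 1 4 (.cons 0x3214567890 .nil) (.node 1 8 (.cons 0x9081456723 .nil) (.leaf 0x932765418 5 .done) (.node 3 6 (.cons 0x5412367890 .nil) (.leaf 0x9087236541 8 (.node 0 5 (.cons 0x6789054123 .nil) (.leaf 0x6321450987 3 (.leaf 0x987632145 0 (.leaf 0x7632145098 5 .done))) (.leaf 0x9087236541 5 .done))) .done)) (.leaf 0x5619087234 5 (.leaf 0x8091654327 4 (.node 1 5 (.cons 0x4516780932 .nil) (.node 2 9 (.cons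 0x6780154392 .nil) (.node 1 8 (.cons 0x7654329081 .nil) (.node 1 7 (.cons 0x8092345671 .nil) (.leaf 0x8092345671 2 .done) .done) (.node 2 6 (.cons 0x9345108762 .nil) (.leaf 0x1087629345 1 (.leaf 0x154392678 8 .done)) .done)) (.node 4 8 (.cons 0x5487612390 .nil) (.node 0 6 (.cons 0x9327608451 .nil) (.leaf 0x845193276 0 (.leaf 0x1932760845 3 .done)) (.node 0 7 (.cons 0x9078456123 .nil) (.node 3 6 (.cons 0x4563278091 .nil) (.node 2 4 (.cons 0x9807632451 .nil) (.leaf 0x5198076324 5 (.leaf 0x893672451 5 .done)) (.leaf 0x4890763215 3 (.leaf 0x7098451236 0 (.leaf 0x5489076321 5 .done)))) (.leaf 0x9321654870 3 .done)) (.leaf 0x5480932761 5 .done))) .done)) .done)))) .done))) (.leaf 0x7654321908 6 .done)))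
noncomputable def tc9_10_6 : T := (.node 0 3 (.cons 0x4567890321 .nil) (.node 1 4 (.cons 0x3214567890 .nil) (.leaf 0x6541230987 6 (.node 1 9 (.cons 0x8765432190 .nil) (.node 1 5 .nil (.node 0 4 (.cons 0x6789045123 .nil) (.leaf 0x7651234098 6 (.leaf 0x5678904321 7 .done)) (.node 1 3 .nil (.node 2 4 (.cons 0x1324567890 .nil) (.leaf 0x5678903124 8 (.leaf 0x9876542310 2 (.leaf 0x9876542310 8 .done))) (.node 1 8 .nil (.node 2 7 (.cons 0x6543278190 .nil) (.leaf 0x6543098127 8 (.leaf 0x6541890327 6 (.leaf 0x3098145672 3 (.node 0 4 (.cons 0x6789321540 (.cons 0x6540918723 .nil)) (.node 0 6 (.cons 0x4512398760 (.cons 0x7819065432 .nil)) (.leaf 0x9187234560 4 (.leaf 0x4512398760 1 .done)) .done) .done)))) .done) .done)) (.node 4 6 (.cons 0x8764512390 .nil) (.leaf 0x9321546780 2 (.leaf 0x9321546780 8 (.leaf 0x9321546780 5 .done))) .done))) (.node 1 8 .nil (.node 0 5 (.cons 0x8765091234 (.cons 0x6781239054 .nil)) (.node 2 7 (.cons 0x6723981450 (.cons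 0x4189056723 (.cons 0x8145093276 .nil))) (.leaf 0x6543098127 8 .done) .done) (.node 7 9 (.cons 0x4567981230 .nil) (.node 2 4 (.cons 0x1897654230 .nil) (.leaf 0x8976542301 2 (.leaf 0x8976542301 8 .done)) (.node 1 6 (.cons 0x8216790345 .nil) (.node 0 4 (.cons 0x3045679812 .nil) (.node 3 5 (.cons 0x6789045321 .nil) (.leaf 0x2167890453 9 (.leaf 0x453216789 6 (.leaf 0x4098761235 8 .done))) (.leaf 0x5679812304 6 .done)) .done) .done)) .done)) .done)) (.leaf 0x2145678903 9 (.node 0 5 (.cons 0x6789054123 .nil) (.node 0 4 .nil (.node 1 8 (.cons 0x6781239054 (.cons 0x9812304567 (.cons 0x9043218765 .nil))) .done (.node 0 2 .nil (.node 1 8 (.cons 0x6781239054 .nil) (.leaf 0x7654390218 9 (.leaf 0x218765439 6 .done)) (.node 0 6 .nil (.node 1 8 (.cons 0x6781239054 (.cons 0x9321876054 .nil)) (.node 5 9 (.cons 0x4321876590 (.cons 0x5906781432 (.cons 0x3459067821 .nil))) (.leaf 0x7609543218 0 (.leaf 0x2145987603 7 .done)) .done) .done) .done)) .done))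 (.node 0 4 .nil (.node 1 8 (.cons 0x9812304567 (.cons 0x9043218765 .nil)) (.node 2 7 (.cons 0x9814503276 .nil) (.leaf 0x6543098127 8 (.leaf 0x1890345672 9 (.node 6 8 (.cons 0x9032768145 .nil) (.node 2 9 (.cons 0x7689230541 (.cons 0x7681054392 (.cons 0x4329056781 .nil))) (.leaf 0x8145039276 5 .done) (.leaf 0x7239054186 6 (.leaf 0x1450932768 3 .done))) .done))) .done) .done) .done)) .done)))) (.node 3 7 .nil (.node 6 9 (.cons 0x7809654321 (.cons 0x8210967345 .nil)) (.node 5 8 (.cons 0x6785439012 .nil) (.leaf 0x8210967345 0 (.leaf 0x967345821 5 (.leaf 0x9673458210 3 .done))) (.leaf 0x8734569012 1 (.node 1 5 (.cons 0x3451287690 (.cons 0x8215437690 .nil)) (.leaf 0x9678215430 2 (.leaf 0x9678215430 5 (.node 4 6 (.cons 0x8764512390 (.cons 0x2154693780 .nil)) (.node 1 7 (.cons 0x3456908712 .nil) (.leaf 0x2345690871 3 (.leaf 0x5469082371 6 (.leaf 0x2809654371 3 .done))) (.leaf 0x8730964512 6 .done)) .done))) .done))) (.node 3 6 (.cons 0x9012876345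 .nil) (.node 3 8 .nil (.node 2 4 (.cons 0x9801245637 (.cons 0x9837654210 .nil)) (.leaf 0x5678390124 3 (.leaf 0x1245673890 9 .done)) (.node 1 3 .nil (.node 2 4 (.cons 0x9801245637 .nil) (.leaf 0x9876542310 2 (.leaf 0x9876542310 5 (.leaf 0x9876542310 8 .done))) (.node 3 5 .nil (.node 2 6 (.cons 0x8762109345 (.cons 0x4539876210 (.cons 0x8762109354 .nil))) (.node 4 9 (.cons 0x7365498012 (.cons 0x6735498210 (.cons 0x4987356210 (.cons 0x7809435621 .nil)))) (.leaf 0x3490128765 9 .done) .done) .done) .done)) .done)) (.node 3 8 .nil (.node 2 4 (.cons 0x9837654210 .nil) (.node 1 3 (.cons 0x7631098245 (.cons 0x7890136542 .nil)) .done (.leaf 0x5678390124 3 (.leaf 0x1245673890 9 .done))) .done) .done)) (.node 3 6 (.cons 0x9012876345 .nil) (.node 3 8 .nil (.node 2 4 (.cons 0x2456738901 .nil) (.node 1 3 (.cons 0x8901376542 .nil) (.leaf 0x982456731 8 .done) (.leaf 0x5678390124 3 (.leaf 0x1098376542 1 .done))) .done) (.node 7 9 (.cons 0x8210976345 .nil)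 (.node 5 8 (.cons 0x6785439012 .nil) (.leaf 0x8210976345 0 (.leaf 0x976345821 5 (.leaf 0x9763458210 3 .done))) (.node 1 5 (.cons 0x8215436790 .nil) (.leaf 0x3451280976 6 (.leaf 0x2154367908 9 (.node 4 6 (.cons 0x8790346512 .nil) (.leaf 0x7903465128 9 (.node 2 7 (.cons 0x7289015463 .nil) (.leaf 0x5109827364 8 (.leaf 0x5109827364 2 (.leaf 0x5109827364 4 .done))) (.leaf 0x7903465128 3 .done))) (.node 4 6 (.cons 0x8764512390 .nil) (.leaf 0x9321546780 2 (.leaf 0x9321546780 8 (.leaf 0x9321546780 5 .done))) .done)))) .done)) .done)) .done))) (.node 1 4 (.cons 0x3214567890 .nil) (.leaf 0x9876541230 2 (.leaf 0x9876541230 5 (.leaf 0x9876541230 8 (.leaf 0x9876541230 4 .done)))) .done))) (.node 1 9 (.cons 0x8765432190 .nil) (.leaf 0x2345678091 6 (.node 1 8 .nil (.node 0 2 (.cons 0x9023456781 .nil) (.leaf 0x3456781902 7 (.node 2 9 (.cons 0x1876543290 .nil) (.node 1 3 (.cons 0x8765431092 .nil) (.leaf 0x4567809213 3 (.node 6 8 (.cons 0x7682901345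 (.cons 0x7681209345 .nil)) (.node 0 3 (.cons 0x4567890321 (.cons 0x9210345687 (.cons 0x7865430192 .nil))) .done .done) (.leaf 0x928765431 8 .done))) (.leaf 0x8765432901 7 .done)) (.leaf 0x218765439 3 (.leaf 0x1876543902 7 .done)))) (.node 1 5 (.cons 0x9087651234 .nil) (.node 1 4 (.cons 0x3214567890 .nil) (.node 0 3 (.cons 0x4567890321 .nil) (.node 1 3 .nil (.node 2 4 (.cons 0x1324567890 .nil) (.leaf 0x5678903124 8 (.leaf 0x9876542310 2 (.leaf 0x9876542310 5 (.leaf 0x9876542310 8 .done)))) (.node 1 7 (.cons 0x8903217654 .nil) (.node 1 6 .nil (.node 0 4 (.cons 0x9812304567 (.cons 0x7890456123 (.cons 0x7615409823 .nil))) .done .done) .done) .done)) (.leaf 0x2309876541 5 (.leaf 0x9876541230 4 .done))) .done) (.node 4 6 (.cons 0x8764512390 .nil) (.node 0 5 (.cons 0x1239876450 .nil) (.leaf 0x9876450123 5 (.leaf 0x9876450123 8 (.node 4 9 (.cons 0x5123946780 .nil) (.leaf 0x6512349087 9 (.node 2 9 (.cons 0x7805643291 .nil) (.node 2 6 (.cons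 0x9345018762 .nil) (.leaf 0x1054392678 6 (.leaf 0x1054392678 7 .done)) (.node 2 5 (.cons 0x3987645210 .nil) (.leaf 0x8764932510 6 (.leaf 0x3925018764 6 (.node 7 9 (.cons 0x5643219780 .nil) (.leaf 0x2564397801 9 .done) .done))) .done)) (.leaf 0x8764932150 4 .done))) .done))) (.leaf 0x932154678 2 (.leaf 0x3908764512 6 (.node 6 8 (.cons 0x7865432190 .nil) (.node 3 8 (.cons 0x2154678390 .nil) (.node 4 8 (.cons 0x6784512390 .nil) .done .done) .done) .done)))) .done)) .done)) (.node 0 3 (.cons 0x4567890321 .nil) (.node 1 4 (.cons 0x3214567890 .nil) (.leaf 0x6541230987 6 (.node 1 3 .nil (.node 2 4 (.cons 0x1324567890 .nil) (.leaf 0x5678903124 8 (.leaf 0x9876542310 2 (.leaf 0x9876542310 8 .done))) (.node 1 6 .nil (.node 0 5 (.cons 0x8765091234 (.cons 0x8761239054 (.cons 0x9054328761 .nil))) (.node 4 7 (.cons 0x8743219056 (.cons 0x6123987450 (.cons 0x8903216745 (.cons 0x5476128903 .nil)))) (.leaf 0x2165478903 3 .done) .done) (.node 1 5 (.cons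 0x9087651234 .nil) (.node 1 8 .nil (.node 4 9 (.cons 0x5678094321 (.cons 0x7618230945 .nil)) (.leaf 0x321876549 3 (.leaf 0x5678123094 6 .done)) .done) .done) .done)) (.node 1 8 .nil (.node 4 9 (.cons 0x5678094321 .nil) (.leaf 0x321876549 3 (.node 0 2 (.cons 0x3209456781 .nil) (.leaf 0x9456781320 7 (.leaf 0x218765439 3 .done)) (.leaf 0x5678123094 6 .done))) (.node 1 5 (.cons 0x9087651234 .nil) (.node 1 6 .nil (.node 0 4 (.cons 0x9812304567 (.cons 0x7890456123 (.cons 0x5409876123 (.cons 0x7890456132 .nil)))) .done .done) .done) .done)) .done))) (.leaf 0x2145678903 9 (.node 1 7 (.cons 0x8903217654 .nil) (.node 1 3 .nil (.node 2 4 (.cons 0x1324567890 .nil) (.leaf 0x5678903124 8 (.leaf 0x9876542310 2 (.leaf 0x9876542310 5 (.leaf 0x9876542310 8 .done)))) (.node 1 8 .nil (.node 0 2 (.cons 0x9023456781 .nil) (.node 0 4 (.cons 0x9817654032 .nil) (.node 7 9 (.cons 0x8971230456 (.cons 0x8790213456 .nil)) (.leaf 0x3218976540 9 .done) .done) (.leaf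 0x218765439 3 (.leaf 0x1876543902 7 .done))) .done) .done)) (.node 4 8 (.cons 0x5678432190 .nil) (.node 0 7 (.cons 0x9845670321 .nil) (.leaf 0x3219845670 8 (.leaf 0x6703219845 9 .done)) (.leaf 0x1230984567 1 (.node 0 4 .nil (.node 1 5 (.cons 0x2348765190 (.cons 0x6789321540 .nil)) (.leaf 0x2156789043 9 (.node 2 6 (.cons 0x7843265190 (.cons 0x5401267893 (.cons 0x9048715623 (.cons 0x7840915623 .nil)))) (.leaf 0x487156239 6 .done) .done)) (.node 3 6 (.cons 0x5412367890 .nil) (.leaf 0x2365409871 5 (.node 5 9 (.cons 0x2365904871 .nil) (.leaf 0x3659048712 6 (.leaf 0x7821095436 2 (.leaf 0x7821095436 8 (.leaf 0x2876345901 4 .done)))) (.leaf 0x5409871236 4 .done))) .done)) (.node 0 5 (.cons 0x3487650912 .nil) (.node 3 6 (.cons 0x5412367890 .nil) (.node 0 2 (.cons 0x9120563487 .nil) (.node 7 9 (.cons 0x2197843650 .nil) (.leaf 0x8436502197 5 (.leaf 0x1205634879 5 .done)) .done) (.leaf 0x987632145 0 (.leaf 0x4509876321 5 .done))) (.node 2 5 (.cons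 0x3487652190 .nil) (.leaf 0x6521903487 9 (.node 0 6 (.cons 0x8452176093 .nil) (.node 1 8 (.cons 0x3906718452 .nil) (.leaf 0x9067184523 3 (.leaf 0x932548176 8 .done)) .done) (.leaf 0x1903487652 8 .done))) (.leaf 0x7650912348 8 .done))) .done)))) .done)) .done)))) (.node 1 3 .nil (.node 2 4 (.cons 0x1324567890 .nil) (.leaf 0x5678903124 5 (.leaf 0x9876542310 2 (.leaf 0x9876542310 5 (.leaf 0x9876542310 8 .done)))) (.node 1 4 (.cons 0x3214567890 .nil) (.node 3 8 (.cons 0x7654123890 .nil) (.node 1 6 (.cons 0x7890321654 .nil) (.node 1 5 (.cons 0x9087651234 .nil) (.node 1 8 .nil (.node 7 9 (.cons 0x8790321654 (.cons 0x4561879032 (.cons 0x6543097812 .nil))) .done .done) .done) .done) .done) (.node 1 8 .nil (.node 0 5 (.cons 0x8765091234 (.cons 0x6781239054 .nil)) (.node 4 8 (.cons 0x7650918432 .nil) (.leaf 0x9123487650 1 (.leaf 0x1905678432 8 .done)) (.node 1 6 (.cons 0x9054328167 .nil) (.leaf 0x3287619054 1 .done) .done)) .done) (.leaf 0x2309876541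 5 .done))) (.node 1 4 (.cons 0x3214567890 .nil) (.node 1 6 (.cons 0x7890321654 .nil) (.node 1 5 (.cons 0x9087651234 .nil) (.node 1 8 .nil (.node 7 9 (.cons 0x8790321654 (.cons 0x4561879032 (.cons 0x6543097812 .nil))) .done .done) .done) .done) (.node 1 5 (.cons 0x9087651234 .nil) (.node 1 8 .nil (.node 1 6 (.cons 0x7890321654 .nil) (.node 7 9 (.cons 0x8790321654 (.cons 0x4561879032 (.cons 0x6543097812 .nil))) .done .done) .done) (.node 1 6 (.cons 0x7890321654 .nil) (.node 4 6 (.cons 0x8764512390 .nil) (.leaf 0x932154678 2 (.leaf 0x3908764512 6 (.node 4 9 (.cons 0x7894561230 .nil) (.leaf 0x6512349087 9 (.node 2 7 (.cons 0x1654987230 .nil) (.leaf 0x6549872301 2 (.leaf 0x6549872301 5 (.leaf 0x6549872301 4 .done))) .done)) .done))) .done) .done)) (.leaf 0x2309876541 5 .done))) .done))) (.node 1 4 (.cons 0x3214567890 .nil) (.leaf 0x9876541230 2 (.leaf 0x9876541230 5 (.leaf 0x9876541230 8 (.leaf 0x9876541230 4 .done)))) .done))) .done)))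 (.node 1 9 (.cons 0x8765432190 .nil) tc9_10_5 .done)))
noncomputable def tc9_10_7 : T := (.node 5 9 (.cons 0x9543678210 .nil) (.node 2 9 .nil (.node 1 3 (.cons 0x8765431092 .nil) (.leaf 0x4567829013 9 (.leaf 0x9013456782 6 (.node 0 8 (.cons 0x9087654321 (.cons 0x7801295634 .nil)) (.leaf 0x9213456780 8 (.leaf 0x7654312908 9 .done)) (.leaf 0x928765431 8 .done)))) (.node 1 9 (.cons 0x8765432190 .nil) (.node 3 5 .nil (.node 0 4 (.cons 0x7639821045 (.cons 0x9821045367 (.cons 0x6789045321 .nil))) (.node 7 9 (.cons 0x6345978210 .nil) (.leaf 0x453679821 3 (.leaf 0x4536798210 0 .done)) (.leaf 0x9876354012 2 .done)) (.node 0 5 (.cons 0x7639821054 .nil) (.node 7 9 (.cons 0x6345978210 .nil) (.leaf 0x543679821 6 (.node 0 6 (.cons 0x1287954360 .nil) (.leaf 0x9782106345 3 (.leaf 0x5978210634 5 (.node 5 8 (.cons 0x6785432190 .nil) (.leaf 0x3458760912 6 (.leaf 0x7854321906 9 .done)) .done))) .done)) (.node 4 9 (.cons 0x8763219450 .nil) (.leaf 0x2105493678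 3 (.leaf 0x2876394501 9 .done)) .done)) .done)) .done) .done)) (.leaf 0x8763459012 6 (.node 1 3 (.cons 0x6782134590 .nil) (.node 0 6 (.cons 0x3459067821 .nil) (.node 3 5 .nil (.node 4 7 (.cons 0x5476398210 (.cons 0x6745398210 (.cons 0x8906745321 (.cons 0x3547609821 .nil)))) (.node 2 6 (.cons 0x1326547890 (.cons 0x4789013562 (.cons 0x8267453901 .nil))) .done .done) (.node 3 8 (.cons 0x7609543821 .nil) (.node 0 3 (.cons 0x4567890321 .nil) (.node 3 7 .nil (.node 1 4 (.cons 0x2145987630 (.cons 0x6735410982 (.cons 0x8906732145 .nil))) (.leaf 0x3214560987 6 .done) .done) .done) .done) .done)) (.leaf 0x3128760954 3 (.leaf 0x954312876 0 (.node 6 9 .nil (.node 0 3 (.cons 0x4567890321 .nil) (.leaf 0x7695430128 6 (.leaf 0x1287695430 2 .done)) (.node 1 9 (.cons 0x8765432190 .nil) (.node 6 8 (.cons 0x7682109345 .nil) (.node 5 8 (.cons 0x6785432190 .nil) (.leaf 0x3458760912 6 (.leaf 0x4321906785 8 (.node 3 5 .nil (.node 1 4 (.cons 0x3214567890 (.cons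 0x2354198760 (.cons 0x7609823541 .nil))) .done .done) .done))) .done) .done) .done)) .done)))) (.node 0 6 (.cons 0x3459067821 .nil) (.leaf 0x9543128760 4 (.node 0 8 (.cons 0x9087654321 .nil) (.node 0 3 (.cons 0x4567890321 .nil) (.node 1 4 (.cons 0x3214567890 .nil) (.leaf 0x9876541230 2 (.leaf 0x9876541230 5 (.leaf 0x9876541230 8 .done))) .done) (.node 2 6 (.cons 0x8762134590 .nil) (.leaf 0x954312678 2 (.leaf 0x5908762134 6 .done)) .done)) (.leaf 0x7609543128 5 (.node 6 9 .nil (.node 0 5 (.cons 0x7639821054 (.cons 0x9634501287 .nil)) (.leaf 0x4509678213 5 (.leaf 0x1287693450 8 .done)) (.node 1 9 (.cons 0x8765432190 .nil) (.node 2 9 (.cons 0x7829106345 .nil) .done .done) .done)) .done)))) (.node 0 4 (.cons 0x8765904312 .nil) (.node 3 5 (.cons 0x9821045367 .nil) (.node 7 9 (.cons 0x5401289763 .nil) (.leaf 0x1045367982 4 (.leaf 0x9821045367 2 (.leaf 0x4012897635 8 .done))) (.node 3 8 (.cons 0x7654098321 .nil) (.node 0 3 (.cons 0x4567890321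 .nil) (.node 3 7 (.cons 0x8904567321 .nil) .done .done) .done) .done)) (.leaf 0x1340956782 6 (.node 3 5 (.cons 0x6789045321 .nil) (.node 0 3 (.cons 0x4567890321 .nil) (.node 1 4 (.cons 0x3214567890 .nil) (.leaf 0x9876541230 2 (.leaf 0x9876541230 5 (.leaf 0x9876541230 8 .done))) .done) (.node 1 6 (.cons 0x2354098761 .nil) (.leaf 0x4098761235 4 (.leaf 0x4098761235 8 .done)) .done)) (.leaf 0x9567821340 9 .done)))) .done))) .done))) (.node 5 9 (.cons 0x6782109543 .nil) (.leaf 0x7821095436 2 (.leaf 0x7821095436 8 (.leaf 0x2876345901 4 .done))) (.node 2 9 (.cons 0x5436782901 .nil) (.node 5 9 (.cons 0x2876345901 .nil) (.node 1 9 (.cons 0x8765432190 .nil) (.node 4 9 .nil (.node 3 8 (.cons 0x5678349012 .nil) (.node 2 4 (.cons 0x7654210983 .nil) (.leaf 0x6542109387 8 .done) (.leaf 0x9456783210 2 (.leaf 0x9456783210 4 .done))) (.node 6 9 .nil (.node 3 8 (.cons 0x7834569210 (.cons 0x7834569012 .nil)) (.node 2 4 (.cons 0x7654210983 .nil) (.leaf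 0x7659012438 8 (.leaf 0x6542109387 8 .done)) (.node 5 7 (.cons 0x6345782901 (.cons 0x4387569210 .nil)) (.leaf 0x8210963457 5 (.leaf 0x2109675438 5 .done)) .done)) (.node 7 9 .nil (.node 3 8 (.cons 0x6543879210 (.cons 0x6543879012 .nil)) (.node 2 4 (.cons 0x7654210983 .nil) (.leaf 0x7659012438 8 (.leaf 0x6542109387 8 .done)) (.leaf 0x2109765438 2 .done)) .done) .done)) .done)) (.node 0 8 (.cons 0x9087654321 .nil) (.node 6 9 (.cons 0x7809654321 .nil) (.node 1 7 (.cons 0x3456908712 .nil) (.leaf 0x2345690871 3 (.node 2 5 (.cons 0x2543690871 .nil) (.node 2 4 (.cons 0x5243691780 .nil) (.node 3 5 (.cons 0x7635428901 .nil) (.leaf 0x4289017635 5 .done) .done) (.leaf 0x963452178 6 (.leaf 0x1780963452 2 .done))) (.leaf 0x8096543217 6 .done))) .done) (.node 6 9 .nil (.node 1 5 (.cons 0x9015436782 (.cons 0x7829634510 (.cons 0x7809651234 .nil))) (.node 4 7 (.cons 0x1547632890 (.cons 0x1596743280 (.cons 0x8096743215 (.cons 0x5128096743 .nil)))) (.leaf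 0x5109823674 5 .done) (.leaf 0x967823451 2 .done)) (.node 6 8 (.cons 0x7682109345 .nil) (.node 4 9 (.cons 0x5678094321 .nil) (.node 7 9 (.cons 0x5439768210 .nil) .done .done) .done) .done)) (.leaf 0x7654321908 6 .done))) .done)) (.leaf 0x4367821095 5 .done)) (.node 5 9 (.cons 0x2876345901 .nil) (.node 1 9 (.cons 0x8765432190 .nil) (.node 3 5 .nil (.node 1 4 (.cons 0x3214567890 (.cons 0x7635410982 .nil)) (.leaf 0x5367829014 2 (.leaf 0x9014356782 6 .done)) (.node 6 9 .nil (.node 1 5 (.cons 0x9015436782 .nil) (.node 0 5 (.cons 0x8769123450 .nil) (.leaf 0x2105439678 6 (.leaf 0x1287693450 8 (.node 1 8 (.cons 0x4329056781 (.cons 0x7693450182 (.cons 0x7812345690 (.cons 0x7690518234 .nil)))) .done .done))) (.leaf 0x967823451 2 .done)) (.node 4 9 (.cons 0x8765349210 .nil) (.node 7 9 .nil (.node 0 4 (.cons 0x6789123540 (.cons 0x2897635401 (.cons 0x8792104356 .nil))) (.node 0 6 (.cons 0x4532198760 (.cons 0x8976045321 (.cons 0x6012879534 (.cons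 0x8210679354 .nil)))) .done .done) .done) .done) .done)) .done)) .done) (.node 6 9 .nil (.node 1 5 (.cons 0x9015436782 .nil) (.leaf 0x4367829015 2 (.node 0 8 (.cons 0x9087654321 (.cons 0x7809654321 (.cons 0x7690823451 .nil))) (.node 4 7 (.cons 0x1547632890 (.cons 0x1596743280 (.cons 0x8096743215 (.cons 0x5128096743 .nil)))) (.leaf 0x5109823674 5 .done) .done) (.node 0 8 (.cons 0x9087654321 (.cons 0x7809654321 (.cons 0x7809651234 .nil))) (.node 1 7 (.cons 0x6517809234 (.cons 0x4329651780 (.cons 0x6908715432 (.cons 0x4517823690 .nil)))) (.leaf 0x9654321780 6 .done) .done) (.leaf 0x967823451 2 .done)))) (.node 6 8 (.cons 0x7682109345 .nil) (.node 7 9 (.cons 0x5439768210 .nil) (.node 1 9 (.cons 0x8765432190 .nil) (.node 4 9 .nil (.node 0 5 (.cons 0x6879123450 (.cons 0x7865012943 (.cons 0x7682105493 .nil))) (.leaf 0x1286793450 9 .done) .done) .done) .done) (.node 1 9 (.cons 0x8765432190 .nil) (.node 1 8 .nil (.node 0 7 (.cons 0x5687091234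 (.cons 0x8123907654 .nil)) (.leaf 0x8123456907 6 (.leaf 0x9812345670 3 (.leaf 0x9654321870 3 .done))) (.node 3 8 .nil (.node 2 4 (.cons 0x3429567810 (.cons 0x7659243810 .nil)) (.leaf 0x6542109387 8 (.leaf 0x6783421095 3 .done)) (.node 7 9 (.cons 0x6543879012 .nil) (.node 4 9 .nil (.node 0 5 (.cons 0x3450967821 (.cons 0x7634928105 (.cons 0x7865094321 (.cons 0x7639450182 .nil)))) .done .done) .done) .done)) .done)) (.node 7 9 .nil (.node 0 6 (.cons 0x8760912345 .nil) (.node 1 8 (.cons 0x7609543281 (.cons 0x1823459760 (.cons 0x6543218790 .nil))) .done (.node 3 5 (.cons 0x8760912354 (.cons 0x8210679354 (.cons 0x4356879012 .nil))) .done .done)) .done) .done)) .done)) .done)) (.leaf 0x4367821095 5 .done))) .done)) .done)))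
noncomputable def uc9_10_1 : T := (.node 3 6 (.cons 0x9012876345 .nil) tc9_10_7 (.leaf 0x1093456782 6 (.node 0 8 (.cons 0x9087654321 .nil) tc9_10_6 (.leaf 0x128765439 8 (.leaf 0x4390128765 9 .done)))))
theorem sub_c9_10_1 : root 9 refs9_10 [] 0x300000008307000050007060000000060500000000504000000004030000000030100050000102000000002018000000010 0xfef7ff57ff3fff9fffcfffe7fff5ffd9fff9fefd 9 3 9 (.cons 0x8765439012 .nil) uc9_10_1 = true := by decide +kernel
noncomputable def tc9_10_8 : T := (.node 3 9 (.cons 0x8765439012 .nil) (.node 1 4 (.cons 0x3214567890 .nil) (.node 0 3 (.cons 0x9876541230 .nil) (.leaf 0x6541230987 6 (.node 1 3 .nil (.node 2 4 (.cons 0x7654231980 .nil) (.leaf 0x5678091324 8 (.leaf 0x9876542310 5 (.leaf 0x9876542310 4 .done))) (.node 1 6 .nil (.node 2 7 (.cons 0x3276541980 (.cons 0x9345610872 (.cons 0x8091672345 .nil))) (.leaf 0x9345612780 6 (.leaf 0x5619087234 8 .done)) (.node 1 7 (.cons 0x8091765432 .nil) (.node 1 8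 .nil (.node 2 9 (.cons 0x9230876145 .nil) (.leaf 0x8765432901 6 (.leaf 0x8765432901 7 .done)) .done) .done) .done)) .done)) (.node 1 3 .nil (.node 2 4 (.cons 0x7654231980 .nil) (.leaf 0x987654213 2 (.leaf 0x9876542310 5 (.leaf 0x9876542310 4 .done))) (.node 3 8 .nil (.node 2 7 (.cons 0x3276541980 (.cons 0x9108345672 (.cons 0x9145672380 .nil))) (.leaf 0x4380912765 8 (.leaf 0x127654389 8 .done)) (.node 3 7 (.cons 0x2376541980 .nil) (.node 0 2 (.cons 0x8914567320 .nil) (.leaf 0x6541980237 7 (.node 2 4 (.cons 0x2456738910 .nil) (.leaf 0x8376542019 7 .done) (.node 4 9 (.cons 0x5678941230 .nil) (.leaf 0x1028376549 8 (.leaf 0x194567382 6 (.node 3 5 (.cons 0x2149876530 .nil) (.leaf 0x214987653 3 .done) .done))) .done))) .done) .done)) .done)) .done))) (.node 0 3 (.cons 0x4567890321 .nil) (.leaf 0x2145678903 9 (.node 1 5 (.cons 0x6789032154 .nil) (.node 1 3 .nil (.node 2 4 (.cons 0x7654231980 .nil) (.leaf 0x5678091324 8 (.leaf 0x9876542310 5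 (.leaf 0x9876542310 4 .done))) (.node 1 6 .nil (.node 2 7 (.cons 0x6723089154 (.cons 0x9345610872 (.cons 0x8091672345 (.cons 0x9087234165 .nil)))) (.leaf 0x5619087234 8 .done) (.node 1 7 (.cons 0x8091765432 .nil) (.node 1 8 .nil (.node 2 9 (.cons 0x9230876154 .nil) (.leaf 0x8765432901 6 (.leaf 0x8765432901 7 .done)) .done) .done) .done)) .done)) (.node 0 4 .nil (.node 3 6 (.cons 0x7893654012 (.cons 0x7890412365 .nil)) (.node 2 7 (.cons 0x8721093456 (.cons 0x4563987210 (.cons 0x9087236514 (.cons 0x9087236541 .nil)))) (.leaf 0x4190872365 9 .done) (.leaf 0x2154098763 5 (.leaf 0x7890451236 5 .done))) (.node 3 8 (.cons 0x7654098321 .nil) (.node 6 8 (.cons 0x7865439012 .nil) (.node 1 8 (.cons 0x7654098123 .nil) (.node 0 6 (.cons 0x7890654123 .nil) (.node 4 8 (.cons 0x7845609321 .nil) (.node 0 7 (.cons 0x7065483912 .nil) (.node 5 8 (.cons 0x3485670912 .nil) .done .done) .done) .done) .done) (.node 5 8 (.cons 0x7685430912 .nil) .done .done))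 (.node 1 3 .nil (.node 1 7 (.cons 0x9804567132 .nil) (.leaf 0x2389045671 5 (.leaf 0x982317654 6 .done)) (.node 2 7 (.cons 0x4567231980 .nil) (.leaf 0x6540891327 8 (.node 1 6 (.cons 0x8091672345 .nil) (.node 1 7 (.cons 0x9804567132 .nil) .done .done) (.leaf 0x3198045672 9 (.leaf 0x5672319804 6 .done)))) .done)) .done)) .done)) .done)) (.leaf 0x8903214567 6 .done))) (.node 1 3 .nil (.node 2 4 (.cons 0x7654231980 .nil) (.leaf 0x5678091324 8 (.leaf 0x9876542310 5 .done)) (.node 1 7 (.cons 0x8091765432 .nil) (.node 1 8 .nil (.node 2 9 (.cons 0x7654329180 .nil) (.leaf 0x3290817654 9 (.leaf 0x8765432901 6 (.leaf 0x8765432901 7 .done))) .done) (.node 1 6 (.cons 0x4561780932 .nil) (.node 1 8 .nil (.node 2 4 (.cons 0x7654231980 (.cons 0x9081765423 .nil)) (.leaf 0x7809324561 8 .done) .done) .done) .done)) (.node 1 7 (.cons 0x8091765432 .nil) (.node 1 8 .nil (.node 2 9 (.cons 0x7654329180 .nil) (.node 0 6 (.cons 0x5417608923 (.cons 0x7812390654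 .nil)) (.leaf 0x6543921780 1 (.leaf 0x3921780654 8 .done)) (.leaf 0x8765432901 6 (.leaf 0x8765432901 7 .done))) .done) (.node 1 6 (.cons 0x4561780932 .nil) (.node 1 8 .nil (.node 2 9 (.cons 0x7801654392 .nil) (.leaf 0x8765432901 6 (.leaf 0x8765432901 7 .done)) .done) .done) .done)) .done))) .done))) (.leaf 0x1093456782 8 (.node 2 9 .nil (.node 1 3 (.cons 0x4567809231 .nil) (.leaf 0x5431092876 8 (.node 0 4 (.cons 0x7654089132 (.cons 0x7654089231 .nil)) (.leaf 0x9876540132 8 (.leaf 0x9876540132 4 .done)) (.leaf 0x7654312908 3 (.leaf 0x9013456782 8 .done)))) (.node 6 9 (.cons 0x7821096543 .nil) (.node 3 7 (.cons 0x2873456901 .nil) (.node 7 9 (.cons 0x6543791082 .nil) (.node 0 6 (.cons 0x8219734560 .nil) (.leaf 0x6543791280 2 (.leaf 0x3791280654 4 (.leaf 0x9734560821 8 .done))) .done) (.leaf 0x8734569012 9 (.node 1 6 (.cons 0x5432908761 .nil) (.leaf 0x5437829016 2 (.node 7 9 .nil (.node 0 3 (.cons 0x4567890321 .nil) (.node 1 4 (.cons 0x3214567890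 (.cons 0x8976541230 .nil)) (.leaf 0x2145678903 9 (.leaf 0x7980321456 8 .done)) (.leaf 0x4569782103 6 (.leaf 0x1287965430 3 .done))) (.node 4 9 (.cons 0x5610943782 .nil) (.node 5 9 .nil (.node 0 4 (.cons 0x5612879043 (.cons 0x8761234095 .nil)) (.leaf 0x9561287340 7 .done) .done) .done) .done)) (.leaf 0x7829016543 6 .done))) .done))) (.node 3 7 (.cons 0x1287345690 .nil) (.node 0 7 (.cons 0x8219654370 .nil) (.leaf 0x9654370821 5 (.leaf 0x9654370821 8 (.leaf 0x5691280734 4 .done))) (.leaf 0x2873456901 8 (.leaf 0x5437821096 8 .done))) .done)) .done)) (.leaf 0x5439012876 8 .done)))) (.node 3 9 (.cons 0x8765439012 .nil) (.node 5 9 .nil (.node 3 6 (.cons 0x7821095634 .nil) (.leaf 0x1095436782 8 (.leaf 0x1095436782 5 (.leaf 0x1095436782 2 .done))) (.node 6 9 (.cons 0x7821096543 .nil) (.node 3 5 (.cons 0x7821096534 .nil) (.node 2 9 .nil (.node 1 3 (.cons 0x4567809231 .nil) (.leaf 0x5431092876 8 (.leaf 0x9013456782 8 (.leaf 0x6780921345 8 .done)))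 (.node 5 8 (.cons 0x4358769210 .nil) (.node 6 8 (.cons 0x7865432190 .nil) (.node 5 7 (.cons 0x8675439210 .nil) (.node 1 5 (.cons 0x6780923451 .nil) (.node 1 6 (.cons 0x3458761290 .nil) (.leaf 0x923451678 7 .done) .done) .done) .done) .done) .done)) (.node 2 9 .nil (.node 1 3 (.cons 0x4567809231 .nil) (.leaf 0x5431092876 8 (.node 0 4 (.cons 0x7654089231 .nil) (.leaf 0x4567892310 2 (.leaf 0x9876540132 8 (.leaf 0x9876540132 4 .done))) (.leaf 0x9013456782 8 (.leaf 0x6780921345 8 .done)))) (.node 7 9 .nil (.node 1 6 (.cons 0x5432908761 (.cons 0x2345619780 (.cons 0x7908234561 .nil))) (.leaf 0x978234561 1 .done) (.node 4 9 .nil (.node 3 8 (.cons 0x5678349012 .nil) (.node 0 6 (.cons 0x3456097821 (.cons 0x7906543821 (.cons 0x7832190654 .nil))) .done (.leaf 0x9456783210 2 (.leaf 0x9456783210 8 .done))) .done) .done)) .done)) .done)) (.node 3 7 (.cons 0x1287345690 .nil) (.node 2 4 (.cons 0x8937654210 .nil) (.leaf 0x9376542108 5 (.node 3 8 (.cons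 0x9837654210 .nil) (.leaf 0x1245673890 7 (.leaf 0x1245673890 6 .done)) (.leaf 0x7398012456 4 .done))) (.leaf 0x2873456901 8 (.node 7 9 .nil (.node 1 6 (.cons 0x7809165432 (.cons 0x2345619780 (.cons 0x7908234561 .nil))) (.node 6 8 (.cons 0x7865432190 (.cons 0x7934568210 .nil)) .done (.leaf 0x978234561 1 .done)) (.node 4 9 .nil (.node 0 7 (.cons 0x3456907821 .nil) (.node 3 8 (.cons 0x6549123870 .nil) (.leaf 0x5670128394 5 (.leaf 0x9456783210 8 .done)) .done) .done) .done)) (.leaf 0x5437821096 8 .done)))) .done)) (.node 6 9 (.cons 0x7821096543 .nil) (.node 5 8 .nil (.node 4 7 (.cons 0x5690128743 (.cons 0x7439658210 .nil)) (.node 0 6 (.cons 0x8547609321 .nil) (.leaf 0x9854760123 5 (.leaf 0x6745893210 2 .done)) (.leaf 0x1093476582 1 (.leaf 0x1093476582 3 .done))) (.node 6 8 (.cons 0x7865432190 .nil) (.node 4 8 .nil (.node 0 7 (.cons 0x4321965870 (.cons 0x5843967012 (.cons 0x9348567012 (.cons 0x8456709321 .nil)))) .done (.node 0 7 (.cons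 0x4321965870 .nil) (.leaf 0x9123456870 6 (.node 0 4 (.cons 0x7856912340 .nil) (.node 2 4 (.cons 0x5687091243 .nil) (.leaf 0x2107658934 2 .done) (.leaf 0x7856912340 0 .done)) (.node 3 6 (.cons 0x8709123654 .nil) (.leaf 0x7091236548 5 (.leaf 0x7091236548 4 .done)) .done))) .done)) .done) .done)) (.node 5 8 .nil (.node 4 7 (.cons 0x6587432190 .nil) (.node 3 6 (.cons 0x7456398210 (.cons 0x1287436590 .nil)) (.leaf 0x9874563210 8 .done) (.leaf 0x1285674390 9 (.node 0 6 (.cons 0x7856091234 (.cons 0x8547609321 .nil)) (.leaf 0x9854760123 5 (.leaf 0x6745893210 2 .done)) (.leaf 0x1093476582 1 (.leaf 0x1093476582 3 .done))))) (.node 6 8 (.cons 0x7865432190 .nil) (.node 3 8 .nil (.node 2 5 (.cons 0x2543876901 .nil) (.leaf 0x7690125438 9 (.leaf 0x7834521096 3 (.leaf 0x8769012543 8 .done))) (.node 2 5 (.cons 0x2543876901 .nil) (.leaf 0x7834521096 3 (.leaf 0x8769012543 8 .done)) .done)) (.node 4 8 .nil (.node 0 7 (.cons 0x7093456821 (.cons 0x9348567012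 (.cons 0x8456709321 .nil))) (.leaf 0x9845670123 4 .done) (.node 4 9 .nil (.node 1 8 (.cons 0x5678123490 .nil) (.node 0 4 (.cons 0x7654098123 .nil) (.leaf 0x9321876540 3 .done) .done) .done) .done)) .done)) .done)) .done)) .done))) (.leaf 0x1093456782 8 (.node 3 7 (.cons 0x9012873456 .nil) (.node 2 9 (.cons 0x6543780192 .nil) (.node 2 6 (.cons 0x9108734562 .nil) (.leaf 0x9108734562 0 (.leaf 0x3780192654 5 (.leaf 0x7801926543 3 .done))) (.node 3 8 .nil (.node 2 4 (.cons 0x9837654210 .nil) (.node 1 3 (.cons 0x9801376542 .nil) (.leaf 0x7809132456 0 .done) (.leaf 0x5678390124 1 .done)) (.node 1 3 .nil (.node 2 4 (.cons 0x9801376542 .nil) (.leaf 0x5678091324 5 (.leaf 0x9876542310 2 .done)) (.node 0 3 (.cons 0x4567890321 .nil) (.node 1 4 (.cons 0x3214567890 .nil) (.node 2 4 (.cons 0x9801376542 .nil) (.node 3 5 (.cons 0x6735429801 .nil) (.node 3 6 (.cons 0x2987635410 .nil) .done .done) .done) (.leaf 0x2309876541 5 .done)) .done) .done)) .done))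 .done)) (.node 6 9 (.cons 0x7821096543 .nil) (.leaf 0x8210965437 1 (.leaf 0x8734569012 9 (.leaf 0x2873456901 8 .done))) (.node 2 9 (.cons 0x6543782901 .nil) (.node 6 9 (.cons 0x2873456901 .nil) (.node 2 5 (.cons 0x8765210934 .nil) (.node 2 4 (.cons 0x9342567801 .nil) (.leaf 0x3910876524 5 .done) (.node 5 9 .nil (.node 2 4 (.cons 0x8765934210 .nil) (.leaf 0x7659342108 8 (.leaf 0x7659342108 5 .done)) (.node 5 7 (.cons 0x6578210934 .nil) (.node 5 8 .nil (.node 1 4 (.cons 0x2875693410 (.cons 0x7658014392 (.cons 0x6758014392 .nil))) (.leaf 0x3765829014 9 .done) .done) .done) .done)) .done)) (.leaf 0x5437821096 8 .done)) (.node 1 6 (.cons 0x5432908761 .nil) (.leaf 0x5437829016 2 (.node 1 5 (.cons 0x6780923451 .nil) (.node 6 9 (.cons 0x6928734510 .nil) (.leaf 0x2345108769 3 (.leaf 0x5437821096 8 .done)) (.leaf 0x923451678 4 .done)) (.node 7 9 .nil (.node 6 8 (.cons 0x7865432190 .nil) (.leaf 0x4568790123 8 (.leaf 0x5437901286 6 .done)) (.node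 4 7 (.cons 0x5619087432 .nil) (.node 2 5 (.cons 0x9165234780 .nil) (.node 4 8 (.cons 0x9348765210 .nil) (.leaf 0x3901256784 9 (.leaf 0x6784390125 6 .done)) (.leaf 0x1652347809 6 (.leaf 0x6190874325 8 .done))) (.node 2 5 (.cons 0x7809165234 .nil) (.node 4 9 (.cons 0x9437825610 .nil) (.leaf 0x2561094378 3 (.leaf 0x8256109437 5 .done)) (.node 4 8 (.cons 0x1652843790 .nil) (.leaf 0x1256784390 9 (.leaf 0x1093487652 3 .done)) (.leaf 0x7809165234 2 .done))) .done)) .done)) (.leaf 0x7829016543 6 .done)))) .done)) .done))) (.leaf 0x5439012876 8 .done)))) (.node 5 8 (.cons 0x6785432190 .nil) (.node 0 6 (.cons 0x9123458760 .nil) (.leaf 0x9123458760 2 (.node 1 8 .nil (.node 2 9 (.cons 0x7654329081 .nil) (.node 1 3 (.cons 0x4567809231 .nil) (.node 0 4 (.cons 0x9123406785 (.cons 0x7654089231 .nil)) (.leaf 0x9876540132 8 (.leaf 0x9876540132 4 .done)) (.leaf 0x7654312908 1 (.leaf 0x7654312908 3 (.leaf 0x6780921345 8 .done)))) (.leaf 0x8765432901 7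 .done)) (.node 3 8 .nil (.node 0 4 (.cons 0x9043218765 (.cons 0x7654098321 .nil)) (.node 1 7 (.cons 0x6540987123 .nil) (.leaf 0x9832176540 1 (.leaf 0x9832176540 3 .done)) (.node 2 4 (.cons 0x7654210983 .nil) (.node 5 9 (.cons 0x4321958760 (.cons 0x3421958760 .nil)) (.leaf 0x1095678342 8 (.leaf 0x432195876 3 (.leaf 0x7659012438 8 .done))) (.node 3 9 (.cons 0x3987654210 .nil) (.leaf 0x6542109387 8 (.leaf 0x5678390124 9 (.leaf 0x5678390124 1 (.leaf 0x5439012876 8 .done)))) .done)) .done)) (.node 4 8 .nil (.node 5 7 (.cons 0x9123485760 .nil) (.leaf 0x3219065784 8 (.leaf 0x2190657843 9 (.leaf 0x7843219065 1 (.leaf 0x2348756091 3 .done)))) (.node 6 8 .nil (.node 2 5 (.cons 0x5219067843 (.cons 0x9012543867 .nil)) (.node 1 5 (.cons 0x6780915432 (.cons 0x7680915432 .nil)) (.node 4 7 (.cons 0x4789065123 (.cons 0x9068743215 (.cons 0x5190687432 .nil))) (.leaf 0x1906874325 5 .done) .done) .done) .done) .done)) .done)) .done)) (.node 1 8 .nil (.node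 2 9 (.cons 0x7654329081 .nil) (.node 1 3 (.cons 0x4567809231 .nil) (.node 0 4 (.cons 0x7654089231 .nil) (.leaf 0x4567892310 2 (.leaf 0x9876540132 8 (.leaf 0x9876540132 4 .done))) (.leaf 0x7654312908 1 (.leaf 0x7654312908 3 (.leaf 0x6780921345 8 .done)))) (.leaf 0x8765432901 7 .done)) (.node 0 5 (.cons 0x9056781234 .nil) (.node 6 8 .nil (.node 3 7 (.cons 0x9012873456 (.cons 0x4509867321 .nil)) (.leaf 0x1905437682 5 (.leaf 0x912867345 4 (.leaf 0x3450912867 2 .done))) (.node 3 7 (.cons 0x8673450912 .nil) (.leaf 0x1905437682 5 (.node 3 8 (.cons 0x7683450912 .nil) .done (.leaf 0x912867345 4 (.leaf 0x3450912867 2 .done)))) .done)) (.node 0 4 (.cons 0x9043218765 .nil) (.node 3 8 (.cons 0x7654098321 .nil) (.node 0 3 (.cons 0x4567890321 .nil) (.node 3 7 (.cons 0x6732198540 .nil) (.node 2 9 (.cons 0x8921045673 .nil) (.node 1 4 (.cons 0x1456732980 .nil) (.leaf 0x892376541 0 (.leaf 0x3298014567 3 .done)) (.leaf 0x9210456738 3 .done)) (.leaf 0x6540981237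 5 .done)) .done) .done) (.node 4 8 (.cons 0x5487609123 .nil) (.node 6 8 .nil (.node 3 5 (.cons 0x6789045321 (.cons 0x7689045321 .nil)) (.node 1 6 (.cons 0x2354098761 .nil) (.leaf 0x4098761235 5 (.leaf 0x4098761235 4 .done)) .done) .done) .done) .done)) .done)) .done)) .done))) (.node 0 6 (.cons 0x3458760912 .nil) (.leaf 0x9123458760 8 (.leaf 0x1906785432 6 (.node 4 8 (.cons 0x5487609123 .nil) (.node 1 8 .nil (.node 2 9 (.cons 0x7654329081 .nil) (.node 1 3 (.cons 0x6785431290 .nil) (.leaf 0x6785431290 1 (.leaf 0x7654312908 1 (.leaf 0x7654312908 3 (.leaf 0x6780921345 8 .done)))) (.leaf 0x8765432901 7 .done)) (.node 6 8 .nil (.node 0 7 (.cons 0x3458670912 .nil) (.leaf 0x9123458670 8 (.node 5 9 (.cons 0x3219548760 (.cons 0x8670954321 (.cons 0x6870954321 .nil))) (.node 1 6 (.cons 0x7095432861 .nil) (.leaf 0x6870954321 0 .done) .done) (.leaf 0x1907685432 6 .done))) .done) .done)) (.node 2 9 .nil (.node 1 3 (.cons 0x6785431290 .nil) (.leaf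 0x5431092876 8 (.leaf 0x6785431290 1 (.leaf 0x7654312908 1 (.leaf 0x7654312908 3 (.leaf 0x6780921345 8 .done))))) (.node 1 8 (.cons 0x7654329081 .nil) (.node 1 7 (.cons 0x9234567180 .nil) (.leaf 0x2345671809 8 (.leaf 0x2345671809 5 .done)) (.node 1 7 (.cons 0x8092345671 .nil) (.leaf 0x2345671809 6 (.node 3 8 .nil (.node 0 4 (.cons 0x7658129043 (.cons 0x7654098321 .nil)) (.leaf 0x9832176540 3 .done) (.node 0 4 (.cons 0x9238045671 .nil) (.leaf 0x4083291765 3 (.leaf 0x8329176540 7 .done)) .done)) .done)) .done)) (.node 2 6 (.cons 0x3458762190 .nil) (.node 0 3 (.cons 0x9126785430 .nil) (.leaf 0x7854309126 3 (.leaf 0x3458762190 1 (.node 3 9 (.cons 0x5487609321 .nil) (.node 0 7 (.cons 0x8543912670 .nil) (.leaf 0x3912670854 6 .done) (.node 0 7 (.cons 0x6219345870 .nil) (.leaf 0x6219345870 1 .done) (.leaf 0x5439012876 8 .done))) (.leaf 0x8762190345 8 .done)))) (.node 2 4 .nil (.node 3 5 (.cons 0x9067845321 (.cons 0x9243567801 (.cons 0x8765342901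 .nil))) (.leaf 0x4210987653 1 (.leaf 0x912435876 1 .done)) (.node 3 9 (.cons 0x3987654210 .nil) (.node 1 7 (.cons 0x1765423980 .nil) (.leaf 0x893245671 0 (.leaf 0x2398017654 3 (.leaf 0x917623458 6 .done))) (.node 0 3 (.cons 0x4567890321 .nil) (.node 1 7 (.cons 0x9803245671 .nil) (.leaf 0x3085671924 7 (.node 0 2 (.cons 0x6587120934 .nil) (.node 0 7 (.cons 0x9342658071 .nil) .done .done) (.leaf 0x8034291765 6 .done))) (.leaf 0x5421039876 1 (.leaf 0x5421039876 3 .done))) (.leaf 0x5439012876 8 .done))) .done)) .done)) .done))) .done)) .done))) .done)) (.leaf 0x7654321908 6 .done))))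
noncomputable def tc9_10_9 : T := (.leaf 0x2345678091 6 (.node 3 9 (.cons 0x8765439012 .nil) (.node 5 9 .nil (.node 3 6 (.cons 0x7821095634 .nil) (.leaf 0x1095436782 8 (.leaf 0x1095436782 5 (.leaf 0x1095436782 2 .done))) (.node 4 9 (.cons 0x5678094321 .nil) (.node 1 4 (.cons 0x3214567890 .nil) (.node 2 9 (.cons 0x1432956780 .nil) (.leaf 0x8765923410 1 .done) (.node 1 5 (.cons 0x9087651234 .nil) (.node 1 8 (.cons 0x7659081432 .nil) (.node 1 3 .nil (.node 2 4 (.cons 0x9567801342 .nil) (.leaf 0x956782431 4 .done) (.node 2 4 (.cons 0x8765901342 .nil) (.leaf 0x5901342876 5 .done) .done)) .done) (.leaf 0x6780943215 1 .done)) .done)) (.node 6 9 (.cons 0x7821096543 .nil) (.node 3 5 (.cons 0x7821096534 .nil) (.node 2 9 (.cons 0x1294356780 .nil) (.leaf 0x8765349210 6 .done) (.node 0 3 (.cons 0x4567890321 .nil) (.node 7 9 .nil (.node 1 6 (.cons 0x7809435612 (.cons 0x2165349780 .nil)) (.leaf 0x9782165430 9 (.leaf 0x978234561 1 .done)) (.node 2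 9 .nil (.node 1 5 (.cons 0x3490876512 (.cons 0x3492156780 .nil)) (.node 1 6 (.cons 0x7809435612 (.cons 0x8761034592 .nil)) (.leaf 0x9543016782 8 .done) (.leaf 0x876512943 0 .done)) .done) .done)) (.node 1 4 (.cons 0x3214567890 .nil) (.leaf 0x9876541230 2 (.leaf 0x9876541230 5 (.leaf 0x9876541230 4 .done))) .done)) .done)) .done) .done)) (.node 4 9 (.cons 0x5678094321 .nil) (.node 1 4 (.cons 0x3214567890 .nil) (.node 1 5 (.cons 0x9087651234 .nil) (.node 2 9 (.cons 0x3412956780 .nil) (.node 6 9 (.cons 0x7821096543 .nil) (.node 7 9 (.cons 0x7965143280 .nil) .done .done) .done) (.leaf 0x6780943215 1 .done)) (.node 1 5 (.cons 0x9087651234 .nil) (.node 2 4 .nil (.node 0 3 (.cons 0x6789451230 (.cons 0x9512430876 (.cons 0x9803241567 .nil))) (.leaf 0x6542103987 2 .done) (.node 0 3 (.cons 0x6789451230 .nil) (.leaf 0x6542103987 2 (.leaf 0x2430876591 6 (.leaf 0x4567893012 4 .done))) .done)) (.leaf 0x6780943215 1 .done)) .done)) (.node 1 5 (.cons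 0x2349087651 .nil) (.leaf 0x5678094321 1 (.leaf 0x943215678 9 (.node 6 9 (.cons 0x7821096543 .nil) (.node 5 7 (.cons 0x6578091234 .nil) (.node 2 6 (.cons 0x1943265780 .nil) (.leaf 0x8019432657 5 (.leaf 0x194326578 3 (.node 0 4 (.cons 0x8756912340 .nil) (.node 7 9 (.cons 0x8043219756 .nil) (.node 1 7 (.cons 0x8904567123 .nil) (.node 3 8 (.cons 0x4938265710 .nil) (.leaf 0x1756283940 5 (.leaf 0x1756283940 8 (.leaf 0x9045671238 8 .done))) .done) .done) (.leaf 0x3965782104 3 (.node 1 6 (.cons 0x8932167540 .nil) (.leaf 0x2398045761 4 (.leaf 0x439576128 6 .done)) .done))) .done))) (.node 1 4 (.cons 0x1432875690 .nil) (.node 0 7 (.cons 0x8932145670 .nil) (.leaf 0x8932145670 2 (.leaf 0x4932807651 7 .done)) (.node 1 6 (.cons 0x9082341657 .nil) (.node 7 9 (.cons 0x9756143280 .nil) (.leaf 0x1432809756 2 .done) .done) (.leaf 0x8756901432 6 .done))) .done)) .done) .done))) .done)) .done))) (.leaf 0x1093456782 8 (.node 3 7 (.cons 0x9012873456 .nil)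 (.node 1 3 .nil (.node 2 9 (.cons 0x8765431092 .nil) (.leaf 0x5431092876 8 (.leaf 0x1345678092 6 (.leaf 0x5431092876 2 .done))) (.node 3 6 .nil (.node 4 7 (.cons 0x7456310982 (.cons 0x7456312890 .nil)) (.leaf 0x9874563210 8 (.node 0 7 (.cons 0x8709123456 (.cons 0x8709123654 .nil)) (.leaf 0x3128907456 5 .done) .done)) (.node 1 4 (.cons 0x3214567890 .nil) (.node 1 5 (.cons 0x9087651234 .nil) (.node 2 4 (.cons 0x2456378910 .nil) (.node 1 7 (.cons 0x9824563710 .nil) (.leaf 0x4289017365 7 (.leaf 0x8245637109 6 .done)) (.node 0 2 (.cons 0x7891456320 .nil) (.leaf 0x3789102456 5 (.leaf 0x3789102456 8 .done)) .done)) .done) (.node 0 3 (.cons 0x4567890321 .nil) (.leaf 0x2309876541 5 (.node 3 8 .nil (.node 2 4 (.cons 0x2456378910 (.cons 0x9837654210 .nil)) (.leaf 0x5678390124 1 .done) .done) .done)) .done)) .done)) (.node 1 4 (.cons 0x3214567890 .nil) (.node 0 3 (.cons 0x9876541230 .nil) (.leaf 0x6541230987 6 (.node 1 8 .nil (.node 2 9 (.cons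 0x1876543290 .nil) (.node 5 9 (.cons 0x7659081234 (.cons 0x1432956780 (.cons 0x3412956780 .nil))) .done (.leaf 0x345678129 3 (.leaf 0x8765432901 6 .done))) .done) (.leaf 0x9876541230 2 .done))) (.node 3 8 (.cons 0x7654123890 .nil) (.node 2 7 (.cons 0x1456723890 .nil) (.leaf 0x4109832765 5 (.leaf 0x1098327654 3 (.node 3 6 (.cons 0x9014563827 .nil) (.node 0 3 (.cons 0x4567890321 .nil) (.node 3 5 .nil (.node 2 4 (.cons 0x8390142765 (.cons 0x6789012453 .nil)) (.leaf 0x3567890124 1 .done) .done) .done) .done) .done))) .done) .done)) .done))) (.node 6 9 (.cons 0x7821096543 .nil) (.leaf 0x8210965437 1 (.leaf 0x8734569012 9 (.leaf 0x2873456901 8 .done))) (.node 2 9 (.cons 0x6543782901 .nil) (.node 6 9 (.cons 0x2873456901 .nil) (.node 5 9 .nil (.node 4 6 (.cons 0x7809123465 (.cons 0x7346592801 .nil)) (.leaf 0x956437821 7 (.leaf 0x4659012873 3 .done)) (.node 4 9 (.cons 0x5678094321 .nil) (.node 7 9 .nil (.node 1 5 (.cons 0x9087651234 (.cons 0x6510829734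 (.cons 0x8097651234 .nil))) (.leaf 0x6780943215 1 .done) .done) .done) .done)) (.leaf 0x5437821096 8 .done)) (.node 6 9 (.cons 0x2873456901 .nil) (.node 1 6 (.cons 0x9016543782 .nil) (.leaf 0x5437829016 2 (.node 3 6 .nil (.node 2 4 (.cons 0x2456378910 (.cons 0x7365428901 .nil)) (.leaf 0x1098736542 1 .done) (.node 5 9 (.cons 0x8763459210 .nil) (.node 4 9 (.cons 0x5678094321 .nil) (.node 0 5 (.cons 0x5087634921 .nil) (.node 7 9 (.cons 0x7943650821 .nil) .done (.leaf 0x4905612873 6 (.leaf 0x6128734905 9 .done))) .done) (.leaf 0x8763459210 1 .done)) .done)) (.leaf 0x7829016543 6 .done))) (.node 7 9 .nil (.node 6 8 (.cons 0x7865432190 .nil) (.leaf 0x4568790123 8 (.leaf 0x5437901286 6 .done)) (.node 4 9 (.cons 0x5678094321 .nil) (.node 5 9 .nil (.node 4 6 (.cons 0x7809123465 (.cons 0x5921087643 .nil)) (.leaf 0x4659012873 3 .done) .done) .done) .done)) (.leaf 0x5437821096 8 .done))) .done)) .done))) (.leaf 0x5439012876 8 .done)))) (.node 1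 8 .nil (.node 2 9 (.cons 0x1876543290 .nil) (.node 5 8 (.cons 0x6785432190 .nil) (.node 0 6 (.cons 0x9123458760 (.cons 0x1923458760 .nil)) (.leaf 0x5432910678 8 (.leaf 0x6785432910 1 .done)) (.node 0 6 (.cons 0x2345876091 (.cons 0x7609185432 .nil)) (.leaf 0x6785432910 1 (.leaf 0x4587601923 9 .done)) (.node 0 6 (.cons 0x3458760912 .nil) (.leaf 0x9123458760 8 (.node 5 9 (.cons 0x7659081234 .nil) (.node 4 7 (.cons 0x6590874321 (.cons 0x6592108743 (.cons 0x6095478123 .nil))) (.leaf 0x812347659 8 (.leaf 0x1809567432 4 .done)) (.node 1 4 (.cons 0x1432956780 (.cons 0x7659081432 .nil)) (.leaf 0x9567801432 6 .done) .done)) (.leaf 0x7854321906 9 .done))) .done))) (.node 0 3 (.cons 0x4567890321 .nil) (.node 4 9 (.cons 0x5678094321 .nil) (.leaf 0x321876549 3 (.node 0 2 (.cons 0x3209456781 .nil) (.leaf 0x3456781902 6 (.node 1 5 (.cons 0x7651809432 (.cons 0x6781549023 .nil)) (.leaf 0x5678094321 1 (.leaf 0x8094321567 8 .done)) .done)) (.leaf 0x5678123094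 6 .done))) (.leaf 0x345678129 3 (.node 3 8 (.cons 0x7654381092 .nil) (.node 0 2 (.cons 0x9023456781 .nil) (.leaf 0x3456781902 6 (.node 7 9 (.cons 0x8345679210 (.cons 0x2976543810 .nil)) (.leaf 0x2018345679 3 (.leaf 0x6543801297 9 .done)) .done)) .done) (.leaf 0x4567812903 7 .done)))) (.leaf 0x8765432901 7 .done))) (.node 5 8 (.cons 0x6785432190 .nil) (.node 0 6 (.cons 0x2345876091 .nil) (.leaf 0x9123458760 5 (.node 0 2 (.cons 0x6785432091 .nil) (.node 6 8 (.cons 0x7685432091 .nil) (.node 4 8 (.cons 0x5487609123 .nil) (.node 3 8 .nil (.node 1 4 (.cons 0x3214567890 (.cons 0x7654123890 (.cons 0x9065412387 .nil))) .done .done) .done) .done) (.node 1 6 (.cons 0x2345876190 .nil) (.leaf 0x3458761902 4 (.leaf 0x3458761902 5 .done)) .done)) (.node 1 7 (.cons 0x9065432871 .nil) (.leaf 0x4328719065 1 (.leaf 0x4328719065 3 .done)) .done))) (.node 0 6 (.cons 0x3458760912 .nil) (.leaf 0x9123458760 8 (.node 1 4 (.cons 0x3214567890 .nil) (.node 3 8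 (.cons 0x7654123890 .nil) (.node 5 9 (.cons 0x4590678321 .nil) (.node 4 8 (.cons 0x7659084321 .nil) (.node 1 7 (.cons 0x2384590671 .nil) (.leaf 0x7609548321 1 (.leaf 0x9548321760 8 .done)) .done) (.leaf 0x4123876095 3 (.leaf 0x678321459 6 .done))) (.node 2 7 (.cons 0x1456723890 .nil) (.leaf 0x4190672385 8 (.leaf 0x4109832765 5 (.leaf 0x1098327654 3 (.leaf 0x9145832760 4 .done)))) .done)) (.node 3 8 (.cons 0x9065412387 .nil) (.node 4 8 (.cons 0x5487609123 .nil) (.node 6 8 .nil (.node 0 7 (.cons 0x3458670912 .nil) (.leaf 0x9123458670 8 (.node 3 9 (.cons 0x8765439012 (.cons 0x7865439012 .nil)) (.leaf 0x4123907865 7 (.leaf 0x9321456870 3 (.leaf 0x5439012876 8 .done))) (.leaf 0x6854321907 9 .done))) .done) .done) (.node 6 8 .nil (.node 0 7 (.cons 0x3458670912 .nil) (.leaf 0x9123458670 8 (.node 3 9 (.cons 0x8765439012 (.cons 0x7865439012 .nil)) (.leaf 0x4123907865 7 (.leaf 0x9321456870 3 .done)) (.leaf 0x6854321907 9 .done))) .done) .done))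 .done)) (.leaf 0x7854321906 9 .done))) .done)) .done)) (.node 3 9 (.cons 0x8765439012 .nil) (.node 6 9 (.cons 0x7821096543 .nil) (.node 2 9 .nil (.node 1 3 (.cons 0x7829654310 .nil) (.leaf 0x5431092876 8 (.node 0 3 (.cons 0x4567890321 .nil) (.node 1 8 (.cons 0x5430187692 .nil) (.node 0 2 (.cons 0x7813209654 .nil) (.node 1 7 (.cons 0x3456928710 (.cons 0x8176902345 .nil)) (.leaf 0x8296543017 7 .done) .done) (.leaf 0x4329018765 9 .done)) (.node 1 4 (.cons 0x3214567890 (.cons 0x1456789230 .nil)) (.leaf 0x9876541032 5 (.leaf 0x7892301456 4 .done)) .done)) (.leaf 0x9013456782 8 .done))) (.node 7 9 .nil (.node 0 3 (.cons 0x4567890321 .nil) (.leaf 0x4569782103 6 (.leaf 0x1287965430 3 (.node 1 4 (.cons 0x3214567890 .nil) (.leaf 0x9876541230 2 (.leaf 0x9876541230 5 (.leaf 0x9876541230 8 (.leaf 0x9876541230 4 .done)))) .done))) (.node 4 9 (.cons 0x5678094321 .nil) (.node 5 9 .nil (.node 1 6 (.cons 0x3456128790 .nil) (.leaf 0x3216780954 6 (.leaf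 0x2345908761 8 (.leaf 0x7612345908 9 .done))) .done) .done) .done)) .done)) (.node 3 7 (.cons 0x1287345690 .nil) (.node 2 9 .nil (.node 0 4 (.cons 0x5691287340 (.cons 0x8921045673 (.cons 0x6540129873 .nil))) (.leaf 0x1289376540 5 (.leaf 0x5673982104 5 .done)) (.node 0 4 (.cons 0x5691287340 .nil) (.node 0 5 (.cons 0x4378219650 .nil) (.leaf 0x5691287340 1 (.node 5 7 (.cons 0x8219657340 .nil) (.leaf 0x4375691280 6 (.leaf 0x3408219657 8 .done)) (.leaf 0x2196504378 3 .done))) (.node 4 9 (.cons 0x5678094321 .nil) (.node 1 5 (.cons 0x2349087651 .nil) (.leaf 0x5678094321 1 (.leaf 0x943215678 9 (.leaf 0x8094321567 8 (.node 4 7 (.cons 0x6547398210 .nil) (.leaf 0x1569374082 5 (.leaf 0x1569374082 8 .done)) .done)))) .done) (.leaf 0x1289376540 5 (.leaf 0x5673982104 5 .done)))) .done)) (.leaf 0x2873456901 8 (.node 5 9 (.cons 0x6590128734 .nil) (.node 4 6 (.cons 0x7809564321 .nil) (.leaf 0x3782109564 6 (.leaf 0x5901287346 3 (.node 2 9 (.cons 0x5643782901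 .nil) (.node 4 9 (.cons 0x5678094321 .nil) .done .done) .done))) (.node 2 9 .nil (.node 1 4 (.cons 0x3214567890 (.cons 0x6592873410 .nil)) (.leaf 0x9567801432 7 (.leaf 0x9567801432 6 (.node 2 6 (.cons 0x5926780143 .nil) (.leaf 0x3410956287 5 (.leaf 0x4109562873 3 (.leaf 0x1095628734 0 .done))) .done))) (.node 7 9 .nil (.node 4 9 (.cons 0x5678094321 .nil) (.node 1 5 (.cons 0x4378215690 (.cons 0x6512349780 (.cons 0x8097651234 .nil))) (.node 0 4 (.cons 0x5690437821 .nil) (.leaf 0x6904378215 8 (.leaf 0x7340965128 8 (.leaf 0x8796512340 6 .done))) (.leaf 0x6780943215 3 .done)) .done) .done) .done)) .done)) (.leaf 0x5437821096 8 .done)))) .done)) (.node 0 3 (.cons 0x4567890321 .nil) (.node 1 4 (.cons 0x3214567890 .nil) (.leaf 0x6541230987 6 (.node 3 5 .nil (.node 4 9 (.cons 0x5678094321 .nil) (.leaf 0x1094356782 8 (.leaf 0x5349012876 8 (.leaf 0x5678094123 6 .done))) (.node 1 3 .nil (.node 2 4 (.cons 0x1324567890 .nil) (.leaf 0x5678903124 8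 (.leaf 0x9876542310 2 (.leaf 0x9876542310 4 .done))) (.node 3 8 (.cons 0x7654123890 .nil) (.node 3 7 (.cons 0x9012873456 .nil) (.node 3 6 .nil (.node 0 7 (.cons 0x2389076541 (.cons 0x8907632145 (.cons 0x7098236541 .nil))) (.leaf 0x2145637098 8 .done) .done) .done) .done) .done)) (.node 3 8 (.cons 0x7654123890 .nil) (.node 0 7 (.cons 0x9832145670 .nil) (.leaf 0x4123890765 4 (.node 4 6 (.cons 0x4653287091 .nil) (.node 2 4 (.cons 0x8701935642 .nil) (.node 5 7 (.cons 0x7564123980 .nil) (.leaf 0x1239807564 4 (.leaf 0x9824675301 9 .done)) .done) (.leaf 0x2870914653 5 (.leaf 0x8709146532 3 .done))) (.node 0 2 (.cons 0x9832076541 .nil) (.leaf 0x8320765419 8 (.leaf 0x6702389145 8 .done)) .done))) (.node 1 3 .nil (.node 2 4 (.cons 0x6789013542 .nil) (.leaf 0x5678903124 8 (.leaf 0x9876542310 2 .done)) (.node 1 8 .nil (.node 0 6 (.cons 0x7609832145 (.cons 0x7812390654 .nil)) (.node 2 7 (.cons 0x4560139872 (.cons 0x7239814560 (.cons 0x6723541890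 (.cons 0x4560932781 .nil)))) (.leaf 0x3098145672 3 .done) .done) .done) .done)) .done)) .done))) (.leaf 0x2145678903 9 (.node 1 3 .nil (.node 2 4 (.cons 0x1324567890 .nil) (.leaf 0x5678903124 8 (.leaf 0x9876542310 2 (.leaf 0x9876542310 5 .done))) (.node 1 8 .nil (.node 1 7 (.cons 0x8903217654 .nil) (.node 0 6 (.cons 0x8712390654 (.cons 0x7812390654 .nil)) (.node 2 5 (.cons 0x8760914325 (.cons 0x9814523067 (.cons 0x7609814523 (.cons 0x9067814523 .nil)))) .done .done) .done) .done) .done)) .done)))) (.node 0 7 .nil (.node 1 6 (.cons 0x4561239870 (.cons 0x8709321654 .nil)) (.leaf 0x8234561907 7 (.leaf 0x5439078216 6 .done)) (.node 0 2 .nil (.node 1 8 (.cons 0x9023456781 .nil) (.node 2 9 (.cons 0x1876543290 .nil) (.node 3 8 (.cons 0x4567092381 .nil) (.leaf 0x9218345670 0 .done) (.leaf 0x8765432901 6 .done)) (.leaf 0x7654390218 3 (.leaf 0x2093456781 6 .done))) (.node 0 6 .nil (.node 1 8 (.cons 0x9321870654 (.cons 0x9067812345 .nil)) (.node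 1 7 (.cons 0x4560987123 .nil) (.leaf 0x6543209817 6 (.node 4 7 (.cons 0x1239874560 (.cons 0x8190234765 (.cons 0x5609128743 .nil))) (.leaf 0x9874560123 8 .done) .done)) .done) (.node 0 5 (.cons 0x8765091234 .nil) (.node 0 4 .nil (.node 3 8 (.cons 0x7654098321 .nil) (.node 2 4 (.cons 0x9387012456 .nil) (.leaf 0x1093876542 8 .done) (.leaf 0x6783219045 6 (.leaf 0x7654091238 8 .done))) .done) .done) .done)) .done)) (.node 1 6 (.cons 0x9078234561 .nil) (.node 1 3 .nil (.node 0 4 (.cons 0x7893216540 (.cons 0x9823165407 (.cons 0x9870456132 .nil))) .done (.node 1 4 (.cons 0x3214567890 .nil) (.node 0 4 (.cons 0x7893216540 .nil) (.node 7 9 (.cons 0x4561328970 .nil) (.node 3 5 (.cons 0x8976123540 .nil) (.leaf 0x9761235408 8 (.leaf 0x6798045321 4 .done)) (.leaf 0x456132897 3 .done)) .done) (.leaf 0x3289076541 5 .done)) .done)) (.leaf 0x3287091654 6 (.node 1 3 (.cons 0x9078231654 .nil) (.node 1 8 (.cons 0x4561870932 .nil) (.node 0 6 (.cons 0x9067812345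 .nil) (.node 1 7 (.cons 0x9823170654 .nil) .done .done) .done) (.node 4 7 (.cons 0x8745612390 .nil) (.leaf 0x5613289074 5 (.leaf 0x982316547 5 (.node 0 6 (.cons 0x7456098213 .nil) (.node 0 2 (.cons 0x8745612093 .nil) (.node 3 8 (.cons 0x2165478390 .nil) (.leaf 0x5478390216 4 (.node 7 9 (.cons 0x2831654790 .nil) (.leaf 0x283165479 3 .done) .done)) .done) .done) .done))) .done)) .done))) .done))) (.node 1 4 (.cons 0x3214567890 .nil) (.leaf 0x9876541230 2 (.leaf 0x9876541230 5 (.leaf 0x9876541230 8 (.leaf 0x9876541230 4 .done)))) .done))) (.leaf 0x1093456782 8 (.leaf 0x5439012876 8 .done)))) .done))))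
noncomputable def tc9_10_10 : T := (.node 0 3 (.cons 0x9876541230 .nil) (.leaf 0x6541230987 6 (.node 3 9 (.cons 0x8765439012 .nil) (.node 1 8 .nil (.node 0 7 (.cons 0x8932145670 (.cons 0x8123907654 (.cons 0x2398145670 .nil))) (.leaf 0x9812345670 3 .done) (.node 1 3 .nil (.node 2 4 (.cons 0x1324567890 .nil) (.leaf 0x5678903124 5 (.leaf 0x9876542310 5 (.leaf 0x9876542310 4 .done))) .done) .done)) (.node 0 4 (.cons 0x5678932140 .nil) (.node 1 8 (.cons 0x7654098123 .nil) (.node 3 7 (.cons 0x8904567321 .nil) (.node 1 7 (.cons 0x8904567123 .nil) (.node 3 8 (.cons 0x7654098321 .nil) (.leaf 0x7654098321 2 .done) .done) (.leaf 0x2189045673 5 (.leaf 0x6540981237 5 .done))) .done) (.node 0 5 (.cons 0x4123987650 .nil) (.leaf 0x3987650412 8 (.leaf 0x3987650412 5 .done)) .done)) (.leaf 0x5439012876 8 .done))) (.node 3 9 (.cons 0x8765439012 .nil) (.node 1 8 .nil (.node 0 7 (.cons 0x8932145670 (.cons 0x8123907654 (.cons 0x2398145670 .nil))) .done (.node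 2 9 .nil (.node 1 3 (.cons 0x8765431092 .nil) (.leaf 0x5431092876 8 (.leaf 0x9213456780 6 .done)) (.node 1 7 .nil (.node 6 9 (.cons 0x7821096543 (.cons 0x1782345690 .nil)) (.leaf 0x7123456908 6 .done) (.node 4 8 (.cons 0x8456712390 .nil) (.node 1 5 (.cons 0x1567843290 .nil) (.leaf 0x4329015678 9 (.leaf 0x8432901567 8 .done)) (.leaf 0x7123908456 6 .done)) .done)) .done)) .done)) (.node 1 8 .nil (.node 0 2 (.cons 0x9023456781 .nil) (.leaf 0x3456781902 6 (.leaf 0x9345678120 3 (.leaf 0x1876543902 6 .done))) (.node 1 3 .nil (.node 2 4 (.cons 0x1324567890 .nil) (.leaf 0x987654213 2 (.leaf 0x9876542310 5 (.leaf 0x9876542310 4 .done))) (.node 1 6 (.cons 0x9087612345 .nil) (.node 1 7 .nil (.node 0 4 (.cons 0x9043218765 (.cons 0x8904567123 (.cons 0x6540987123 (.cons 0x8904567132 .nil)))) .done .done) .done) .done)) .done)) (.leaf 0x5439012876 8 .done))) (.leaf 0x9876541230 2 .done)))) (.node 2 9 .nil (.node 1 3 (.cons 0x8765431092 .nil) (.leaf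 0x5431092876 8 (.leaf 0x4312908765 9 (.leaf 0x9213456780 6 (.leaf 0x2908765431 8 .done)))) (.node 3 9 (.cons 0x8765439012 .nil) (.node 5 9 (.cons 0x6780954321 .nil) (.node 1 6 (.cons 0x2345908761 .nil) (.leaf 0x6780954321 0 (.node 0 7 (.cons 0x4328709561 .nil) (.leaf 0x956143287 0 (.node 3 8 (.cons 0x7654123890 .nil) (.node 6 9 (.cons 0x2380769541 .nil) (.leaf 0x6708321459 1 .done) (.leaf 0x6541238907 5 (.leaf 0x6541238907 4 .done))) (.leaf 0x6143287095 5 .done))) (.node 4 9 (.cons 0x5490876123 .nil) (.node 6 9 (.cons 0x7821096543 .nil) (.node 7 9 .nil (.node 0 3 (.cons 0x4567890321 .nil) (.leaf 0x5679803214 3 (.leaf 0x8976541230 0 (.leaf 0x9876541230 5 .done))) .done) .done) .done) .done))) (.node 1 6 (.cons 0x3459087612 .nil) (.leaf 0x1678095432 3 (.node 1 3 (.cons 0x6780954312 .nil) (.node 1 8 .nil (.node 0 2 (.cons 0x9543120876 .nil) (.leaf 0x9187654320 3 (.leaf 0x1876543902 6 .done)) .done) .done) (.leaf 0x7809543216 7 .done)))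 .done)) (.node 3 8 (.cons 0x7654123890 .nil) (.node 7 9 (.cons 0x8345679210 .nil) (.node 3 7 (.cons 0x4567389210 .nil) (.node 6 9 (.cons 0x7821096543 .nil) (.leaf 0x2873456901 8 .done) .done) (.leaf 0x6543801297 3 .done)) (.node 5 8 (.cons 0x6785432190 .nil) (.node 2 5 (.cons 0x8765210934 .nil) (.node 1 8 (.cons 0x7654381092 .nil) (.node 4 7 (.cons 0x8567439210 .nil) (.leaf 0x3901476528 9 (.leaf 0x3810925674 2 (.leaf 0x4109382567 1 (.leaf 0x9382567410 8 .done)))) .done) .done) (.node 0 7 (.cons 0x2389076541 .nil) (.leaf 0x4128567093 8 (.leaf 0x6541238907 4 (.leaf 0x934128567 1 .done))) .done)) .done)) (.leaf 0x5439012876 8 .done))) (.node 3 9 (.cons 0x8765439012 .nil) (.node 6 9 (.cons 0x7821096543 .nil) (.node 7 9 .nil (.node 0 3 (.cons 0x4567890321 .nil) (.leaf 0x4569782103 6 (.leaf 0x8976541230 0 (.leaf 0x9876541230 5 .done))) (.node 5 9 (.cons 0x6780954321 .nil) (.node 4 9 .nil (.node 1 5 (.cons 0x6780945123 .nil) (.leaf 0x9432156780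 3 (.leaf 0x9432156780 1 .done)) .done) .done) .done)) (.node 3 7 (.cons 0x1287345690 .nil) (.node 0 5 (.cons 0x6912873450 .nil) (.node 4 6 (.cons 0x8912376450 .nil) (.node 1 7 (.cons 0x5467123980 .nil) (.leaf 0x2398054671 9 (.leaf 0x4671239805 6 .done)) (.leaf 0x5467321980 5 .done)) (.leaf 0x1450896732 6 (.leaf 0x4123769805 8 (.leaf 0x8967321450 9 .done)))) (.leaf 0x2873456901 8 (.node 0 3 (.cons 0x4567890321 .nil) (.node 0 4 (.cons 0x5690437821 .nil) (.node 4 6 (.cons 0x9012873465 .nil) (.node 5 9 (.cons 0x9564378210 .nil) (.leaf 0x3782109564 6 (.leaf 0x8734659012 7 .done)) .done) .done) (.leaf 0x9876541230 5 .done)) (.leaf 0x5437821096 8 .done)))) .done)) (.node 0 3 (.cons 0x4567890321 .nil) (.node 0 2 .nil (.node 1 3 (.cons 0x4567890231 .nil) (.leaf 0x9876541320 5 (.leaf 0x4567890213 1 (.node 1 8 (.cons 0x9023456781 .nil) (.leaf 0x3456781902 6 (.leaf 0x7654390218 3 .done)) .done))) (.node 0 6 (.cons 0x8760912345 .nil) (.node 0 7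 (.cons 0x8907654123 .nil) (.node 1 8 (.cons 0x8143290765 .nil) (.node 5 8 (.cons 0x9234185670 .nil) (.leaf 0x9234185670 1 (.leaf 0x1906785432 6 .done)) (.node 2 5 (.cons 0x4189076523 .nil) (.leaf 0x2567098143 3 (.leaf 0x6709814325 7 .done)) .done)) .done) (.node 1 7 (.cons 0x9065432871 .nil) (.node 3 5 (.cons 0x9806714532 .nil) (.leaf 0x6089235417 7 (.node 0 4 (.cons 0x8923567140 .nil) (.leaf 0x8923567140 1 .done) .done)) (.leaf 0x4328719065 1 (.leaf 0x4328719065 3 .done))) .done)) .done)) (.node 1 3 .nil (.node 0 7 (.cons 0x8907654123 (.cons 0x8907654132 .nil)) (.leaf 0x6541328907 2 .done) (.node 3 8 (.cons 0x7654123890 .nil) (.node 3 7 (.cons 0x9012873456 .nil) (.node 6 9 (.cons 0x7821096543 .nil) (.leaf 0x8210965437 1 (.leaf 0x8734569012 9 (.leaf 0x2873456901 8 .done))) .done) .done) .done)) (.leaf 0x9876541230 5 .done))) (.leaf 0x5439012876 8 .done))) .done))) (.node 0 3 (.cons 0x4567890321 .nil) (.leaf 0x2145678903 9 (.node 3 9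 (.cons 0x8765439012 .nil) (.node 2 9 .nil (.node 1 3 (.cons 0x8765431092 .nil) (.leaf 0x5431092876 8 (.leaf 0x4312908765 9 (.leaf 0x2908765431 8 .done))) (.node 6 9 (.cons 0x7821096543 .nil) (.node 4 9 .nil (.node 3 5 (.cons 0x8765349210 .nil) (.leaf 0x2108765349 8 (.leaf 0x1294356780 3 .done)) (.node 7 9 .nil (.node 5 9 (.cons 0x6780954321 .nil) (.node 1 6 (.cons 0x7890321654 (.cons 0x6123459780 (.cons 0x8097612345 (.cons 0x8790321654 .nil)))) (.leaf 0x7809543216 0 .done) .done) .done) .done)) (.node 3 7 (.cons 0x1287345690 .nil) (.node 0 2 (.cons 0x3789654120 .nil) (.leaf 0x5698730214 7 (.leaf 0x5698730214 6 .done)) (.leaf 0x2873456901 8 (.node 2 5 (.cons 0x8734125690 .nil) (.node 4 9 (.cons 0x6521037894 .nil) (.node 1 3 (.cons 0x8765294310 .nil) (.leaf 0x1349256780 3 .done) .done) (.leaf 0x7341256908 1 (.leaf 0x7341256908 9 .done))) (.leaf 0x5437821096 8 .done)))) .done)) .done)) (.node 2 9 .nil (.node 1 8 (.cons 0x1876543290 .nil)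 (.node 7 9 (.cons 0x6543097812 .nil) (.node 2 6 (.cons 0x8792654301 (.cons 0x5432679081 (.cons 0x5623418790 (.cons 0x3265418790 .nil)))) .done .done) (.leaf 0x7654309218 3 (.leaf 0x4567810923 3 .done))) (.node 2 5 (.cons 0x8765210934 .nil) (.node 0 4 (.cons 0x4012567893 .nil) (.leaf 0x7652104398 2 (.leaf 0x5678934012 4 .done)) (.node 0 2 .nil (.node 1 3 (.cons 0x4567890231 .nil) (.leaf 0x9876541320 8 (.leaf 0x4567890213 1 (.leaf 0x3209876541 1 .done))) (.node 2 6 .nil (.node 1 5 (.cons 0x8762345190 .nil) (.leaf 0x7809345126 4 (.leaf 0x1267809345 2 (.leaf 0x876215439 5 .done))) (.node 4 9 (.cons 0x7894562103 .nil) (.node 1 7 (.cons 0x1789456230 .nil) (.leaf 0x7894562301 2 (.leaf 0x6549871032 5 (.leaf 0x4562301789 4 .done))) (.node 6 9 (.cons 0x7821096543 .nil) (.node 3 6 (.cons 0x3678094521 .nil) (.node 4 6 (.cons 0x7821093465 .nil) .done .done) .done) .done)) .done)) .done)) .done)) .done)) (.leaf 0x5439012876 8 .done))) (.leaf 0x8903214567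 6 (.leaf 0x9876541230 8 .done)))) .done)))
noncomputable def uc9_10_2 : T := (.node 1 9 (.cons 0x8765432190 .nil) (.leaf 0x4321908765 7 (.node 3 9 (.cons 0x8765439012 .nil) (.node 5 9 (.cons 0x6780954321 .nil) (.node 1 6 (.cons 0x2345908761 .nil) (.leaf 0x6780954321 0 (.leaf 0x954321678 5 (.node 6 9 (.cons 0x7821096543 .nil) (.node 1 8 .nil (.node 0 7 (.cons 0x3456907821 (.cons 0x8123907654 .nil)) (.leaf 0x9812345670 3 (.leaf 0x9654321870 3 .done)) (.node 1 3 (.cons 0x7821345690 .nil) (.node 0 7 (.cons 0x3456907821 .nil) (.leaf 0x2870965431 6 (.node 1 7 (.cons 0x4328716590 .nil) .done (.leaf 0x9654312870 9 .done))) .done) .done)) .done) (.node 5 8 (.cons 0x7612390854 .nil) (.node 3 5 (.cons 0x9087612354 .nil) (.node 4 9 (.cons 0x7612394580 .nil) (.node 0 3 (.cons 0x9458761230 .nil) (.node 0 7 (.cons 0x8549321670 .nil) (.leaf 0x2394580761 8 (.leaf 0x3945807612 9 .done)) (.leaf 0x6785490321 8 .done)) (.leaf 0x876123549 6 .done)) .done)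 (.node 4 7 (.cons 0x3908547612 .nil) (.node 0 5 (.cons 0x6745089321 .nil) (.leaf 0x4761239805 6 (.leaf 0x8932167450 3 (.node 5 7 (.cons 0x8093216754 .nil) .done .done))) (.leaf 0x6123908547 6 (.leaf 0x5809321674 3 (.node 4 9 (.cons 0x5490876123 .nil) (.node 3 7 (.cons 0x8216547390 .nil) (.leaf 0x4561280937 5 (.node 2 4 (.cons 0x8542167390 .nil) (.leaf 0x6124580937 6 (.node 3 8 (.cons 0x7456128390 .nil) (.leaf 0x1245673890 4 (.leaf 0x4210983765 2 (.leaf 0x4210983765 5 .done))) .done)) (.leaf 0x9082165473 5 (.node 2 4 (.cons 0x8732456190 .nil) (.leaf 0x9085421673 3 (.leaf 0x4580937612 1 .done)) .done)))) .done) .done)))) .done)) .done)))) (.node 1 6 (.cons 0x3459087612 .nil) (.leaf 0x1678095432 3 (.node 3 7 (.cons 0x8095437612 .nil) (.leaf 0x954376128 3 (.leaf 0x954376128 1 (.leaf 0x9082167345 8 (.node 0 3 (.cons 0x4567890321 .nil) (.node 1 4 (.cons 0x3214567890 .nil) (.node 0 2 (.cons 0x6541987320 .nil) (.node 0 4 (.cons 0x7328904561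 .nil) (.node 0 6 (.cons 0x2378914560 .nil) (.leaf 0x1987320654 8 (.leaf 0x6541987320 1 .done)) .done) (.leaf 0x6739820145 3 (.leaf 0x3761459802 2 .done))) (.leaf 0x2309876541 5 .done)) (.node 4 7 (.cons 0x1654732890 .nil) (.leaf 0x5903478216 9 (.leaf 0x4309561287 1 (.leaf 0x5903478216 3 .done))) .done)) .done)))) (.node 6 9 (.cons 0x7821096543 .nil) (.node 3 6 .nil (.node 0 7 (.cons 0x8709123456 (.cons 0x4365907821 (.cons 0x8709123654 .nil))) (.leaf 0x9543612870 9 .done) (.node 1 3 (.cons 0x6780954312 .nil) (.node 0 6 (.cons 0x8760954312 .nil) (.node 2 6 (.cons 0x8762134590 .nil) (.node 2 7 (.cons 0x6345912780 .nil) (.leaf 0x3459127806 2 (.node 0 2 (.cons 0x4598763120 .nil) (.node 2 9 (.cons 0x1295436780 .nil) .done .done) (.leaf 0x3459127806 5 .done))) .done) (.leaf 0x1345906782 5 .done)) .done) .done)) .done) (.leaf 0x7809543216 7 .done)))) .done)) (.leaf 0x1093456782 8 (.node 2 5 (.cons 0x8765210934 .nil) (.node 6 9 (.cons 0x9678012543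 .nil) (.leaf 0x2108769345 4 (.node 0 4 (.cons 0x7825693401 .nil) (.leaf 0x7652104398 2 (.node 3 6 (.cons 0x7890456321 .nil) (.node 3 7 (.cons 0x2873456901 .nil) (.leaf 0x8734569012 9 (.node 0 7 (.cons 0x4563219870 .nil) (.node 2 7 (.cons 0x8725693401 .nil) (.leaf 0x1963452780 8 (.leaf 0x1045639872 8 .done)) (.leaf 0x4563219870 2 .done)) .done)) (.node 4 7 (.cons 0x9801254763 .nil) (.leaf 0x5210478936 3 (.leaf 0x5210478936 1 (.leaf 0x893674521 6 (.leaf 0x2563987401 8 .done)))) .done)) (.leaf 0x5678934012 4 .done))) (.leaf 0x2108769345 5 .done))) (.node 4 8 (.cons 0x5678439012 .nil) (.leaf 0x1256784390 9 (.leaf 0x1093487652 1 (.leaf 0x1093487652 3 .done))) (.node 3 7 (.cons 0x9012873456 .nil) (.node 5 7 (.cons 0x6578210934 .nil) (.node 4 6 (.cons 0x2875643901 .nil) (.node 5 9 (.cons 0x6780954321 .nil) (.node 2 6 (.cons 0x7593462801 .nil) (.leaf 0x9108752643 7 (.leaf 0x126734598 6 .done)) (.leaf 0x8764395210 7 .done)) (.leaf 0x934657821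 7 (.node 3 6 (.cons 0x9108736452 .nil) (.node 2 9 (.cons 0x6452910873 .nil) (.node 1 3 (.cons 0x9087645231 .nil) (.leaf 0x7645298013 4 .done) (.leaf 0x4529108736 8 .done)) .done) (.leaf 0x6439012875 3 .done)))) (.node 4 6 (.cons 0x1287564390 .nil) (.leaf 0x5782109346 3 (.leaf 0x3901287564 6 (.node 3 6 (.cons 0x6345780912 .nil) (.node 1 3 (.cons 0x9087645231 .nil) (.node 7 9 (.cons 0x4563798210 .nil) (.leaf 0x6452879013 1 (.leaf 0x5280197364 9 .done)) .done) .done) (.node 1 3 (.cons 0x9087645213 .nil) (.node 3 6 (.cons 0x9125463780 .nil) (.leaf 0x1254637809 3 .done) (.leaf 0x7645213908 6 .done)) .done)))) .done)) (.node 6 9 (.cons 0x7821096543 .nil) (.leaf 0x8210965437 1 (.leaf 0x8734569012 9 (.leaf 0x2873456901 8 .done))) (.node 6 9 (.cons 0x2873456901 .nil) (.node 2 9 (.cons 0x6543782901 .nil) (.node 1 6 (.cons 0x9016543782 .nil) (.leaf 0x5437829016 2 (.node 1 8 (.cons 0x4523769081 .nil) (.node 3 8 (.cons 0x4529673810 .nil) .done .done)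 (.leaf 0x7829016543 6 .done))) .done) (.node 3 8 .nil (.node 2 7 (.cons 0x2783456910 .nil) (.leaf 0x4569012783 8 (.leaf 0x7834569012 1 (.leaf 0x127654389 8 .done))) (.node 3 6 .nil (.node 1 4 (.cons 0x3214567890 (.cons 0x7365410982 (.cons 0x5412367890 .nil))) (.leaf 0x5287369014 4 .done) (.node 0 3 (.cons 0x4567890321 .nil) (.node 3 5 .nil (.node 4 6 (.cons 0x4652873901 (.cons 0x9352108764 (.cons 0x4678093521 .nil))) .done .done) .done) .done)) .done)) (.leaf 0x5437821096 8 .done))) .done))) .done))) (.leaf 0x5439012876 8 .done)))) (.node 1 4 (.cons 0x3214567890 .nil) tc9_10_10 (.leaf 0x9123456780 3 .done)))) (.node 1 9 (.cons 0x8765432190 .nil) tc9_10_9 (.node 1 9 (.cons 0x8765432190 .nil) tc9_10_8 .done)))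
theorem sub_c9_10_2 : root 9 refs9_10 [] 0x300000008307000060007060000000060500000000504000000004030000000030100060000102000000002018000000010 0xfef7ff37ff3fff9fffcfffe7fff5ffb9fff9fefd 9 0 8 (.cons 0x9087654321 .nil) uc9_10_2 = true := by decide +kernel
noncomputable def tc9_10_11 : T := (.node 2 4 (.cons 0x5678109342 .nil) (.leaf 0x8765423901 1 (.leaf 0x8765423901 3 (.leaf 0x8765423901 9 (.leaf 0x7810932456 8 .done)))) (.node 3 8 .nil (.node 2 4 (.cons 0x7654210983 .nil) (.leaf 0x4567839012 1 (.leaf 0x8390124567 9 (.leaf 0x7839012456 8 .done))) (.node 0 8 (.cons 0x9087654321 .nil) (.node 0 3 (.cons 0x4567890321 .nil) (.node 0 6 (.cons 0x9065432187 .nil) (.node 7 9 (.cons 0x6543218790 .nil) (.leaf 0x2187906543 7 (.leaf 0x8210345679 1 (.leaf 0x9781234560 3 .done))) (.node 6 8 .nil (.node 2 7 (.cons 0x4567289301 .nil) (.leaf 0x4390127865 9 (.leaf 0x4568721093 3 (.leaf 0x7865439012 1 .done))) (.node 4 8 (.cons 0x7654890321 .nil) (.node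 5 8 .nil (.node 1 9 (.cons 0x2876543910 (.cons 0x7658091234 (.cons 0x6785432190 .nil))) (.leaf 0x7854321906 6 .done) .done) .done) .done)) .done)) (.node 1 9 (.cons 0x2876543910 .nil) (.leaf 0x2345678091 6 (.node 7 9 (.cons 0x6543218790 .nil) (.node 3 7 .nil (.node 6 9 (.cons 0x7812345690 (.cons 0x7301289654 (.cons 0x2187345690 .nil))) .done (.node 1 7 .nil (.node 2 6 (.cons 0x7810934562 (.cons 0x7103982654 (.cons 0x9301782654 .nil))) (.leaf 0x3901782654 5 .done) (.node 2 7 (.cons 0x6543901872 .nil) (.node 0 7 (.cons 0x9078123456 .nil) (.node 6 9 (.cons 0x7812345690 .nil) (.leaf 0x3456907812 7 (.leaf 0x9654321870 3 .done)) .done) .done) .done)) .done)) (.node 0 6 (.cons 0x3456097812 .nil) (.leaf 0x5432187906 6 (.leaf 0x9781234560 3 (.node 2 5 (.cons 0x6782543910 .nil) (.node 1 6 (.cons 0x9782165430 .nil) (.leaf 0x2167908345 9 (.leaf 0x3456128790 7 (.leaf 0x9160345287 5 (.leaf 0x9761254380 6 .done)))) (.leaf 0x4528760193 9 (.leaf 0x8760193452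 8 .done))) .done))) .done)) (.node 6 9 (.cons 0x7812345690 .nil) (.node 0 6 (.cons 0x9065432187 .nil) (.node 7 9 (.cons 0x6543218790 .nil) (.leaf 0x2187906543 7 (.leaf 0x9781234560 3 .done)) (.node 0 5 (.cons 0x4391056782 .nil) (.node 4 8 (.cons 0x5678432190 .nil) (.leaf 0x9123487650 9 (.leaf 0x1905678432 8 .done)) (.node 2 4 (.cons 0x5678243910 .nil) (.leaf 0x6501934287 5 (.leaf 0x5019342876 3 (.leaf 0x3910567824 0 .done))) .done)) .done)) (.node 0 7 (.cons 0x9654307821 .nil) (.leaf 0x2870345691 6 (.leaf 0x8219654307 8 (.leaf 0x3456912870 9 .done))) .done)) .done))) .done)) (.node 4 8 .nil (.node 2 5 (.cons 0x9012543876 .nil) (.leaf 0x4390125678 9 (.leaf 0x8439012567 8 (.leaf 0x5678439012 1 .done))) (.node 5 8 .nil (.node 2 6 (.cons 0x7810934562 .nil) (.leaf 0x5439012678 8 (.leaf 0x4587621093 3 (.leaf 0x6785439012 1 .done))) .done) .done)) .done)) (.node 0 8 (.cons 0x9087654321 .nil) (.node 1 9 (.cons 0x2876543910 .nil) (.leaf 0x4321908765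 7 (.node 1 4 (.cons 0x3214567890 .nil) (.node 0 3 (.cons 0x9876541230 .nil) (.leaf 0x6541230987 6 (.node 1 3 .nil (.node 2 4 (.cons 0x9012438765 (.cons 0x7654289310 .nil)) (.leaf 0x9876542310 8 (.leaf 0x9876542310 4 .done)) (.node 1 6 (.cons 0x7890321654 .nil) (.node 5 9 (.cons 0x6780954321 .nil) (.leaf 0x6123459087 3 (.leaf 0x7809543216 0 (.node 6 9 (.cons 0x7896541230 .nil) (.node 5 7 (.cons 0x3214576980 .nil) (.leaf 0x2308967541 5 (.leaf 0x2180967543 5 (.leaf 0x3089675412 3 .done))) .done) .done))) (.node 1 5 (.cons 0x4516780932 .nil) .done .done)) .done)) .done)) (.node 1 3 .nil (.node 0 7 (.cons 0x8907654123 (.cons 0x9823145670 .nil)) (.leaf 0x3145670982 8 (.leaf 0x6541238907 5 .done)) (.node 3 7 (.cons 0x2893765410 .nil) (.node 0 2 (.cons 0x9345678201 .nil) (.node 1 5 (.cons 0x6739820154 .nil) (.node 1 7 (.cons 0x4567102893 .nil) (.leaf 0x2017654398 8 .done) .done) (.leaf 0x1934567820 3 (.leaf 0x9820145673 8 (.node 2 4 (.cons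 0x2456789310 .nil) (.leaf 0x8931024567 3 (.leaf 0x7893102456 5 .done)) .done)))) .done) .done)) .done)) (.leaf 0x9123456780 3 .done))) (.node 5 8 .nil (.node 2 6 (.cons 0x7810934562 .nil) (.leaf 0x5439012678 8 (.leaf 0x4587621093 3 (.leaf 0x6785439012 1 .done))) (.node 6 8 .nil (.node 2 7 (.cons 0x6543901872 .nil) (.leaf 0x4390127865 9 (.leaf 0x4568721093 3 (.leaf 0x7865439012 1 .done))) .done) .done)) .done)) .done))) (.node 3 8 .nil (.node 2 4 (.cons 0x7654210983 .nil) (.leaf 0x4567839012 1 (.leaf 0x8390124567 9 (.leaf 0x7839012456 8 .done))) (.node 0 8 (.cons 0x9087654321 .nil) (.node 0 3 (.cons 0x4567890321 .nil) (.node 1 4 (.cons 0x3214567890 .nil) (.leaf 0x6541230987 6 (.node 3 5 .nil (.node 0 6 (.cons 0x9067812345 (.cons 0x9067812354 (.cons 0x7609814532 .nil))) .done (.node 2 7 (.cons 0x3982765410 .nil) (.node 0 6 (.cons 0x8935410672 .nil) (.leaf 0x4106728935 6 (.node 0 7 (.cons 0x8907654123 .nil) (.leaf 0x6541238907 2 .done)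 .done)) (.leaf 0x9827654103 8 (.node 4 9 (.cons 0x7653214980 .nil) (.leaf 0x3018276549 6 (.leaf 0x1082765394 6 (.leaf 0x5672810394 3 .done))) .done))) .done)) (.leaf 0x2145678903 9 .done))) (.node 1 9 (.cons 0x2876543910 .nil) (.leaf 0x2345678091 6 (.node 5 9 (.cons 0x6781234590 .nil) (.node 6 8 (.cons 0x7865432190 .nil) (.node 4 8 (.cons 0x7659084321 .nil) (.node 5 8 .nil (.node 2 6 (.cons 0x7826543910 .nil) (.leaf 0x5439012678 8 (.leaf 0x4587621093 3 (.leaf 0x6785439012 1 .done))) .done) .done) (.node 0 7 (.cons 0x9543076821 .nil) (.leaf 0x5912867034 5 (.leaf 0x8654321907 3 .done)) .done)) (.node 0 6 (.cons 0x9543067821 .nil) (.node 6 9 (.cons 0x1287695430 .nil) (.node 2 6 (.cons 0x7826543910 .nil) (.node 0 2 (.cons 0x9345678201 .nil) (.node 2 5 (.cons 0x6781093452 .nil) (.leaf 0x1093452678 7 .done) .done) .done) .done) (.leaf 0x5912876034 5 (.leaf 0x678123459 3 .done))) .done)) (.node 6 9 (.cons 0x5432187690 .nil) (.node 5 9 (.cons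 0x6781234590 .nil) (.node 0 6 (.cons 0x9067812345 .nil) (.node 0 7 (.cons 0x5439670182 .nil) (.node 0 5 (.cons 0x9670543281 .nil) (.leaf 0x4328196705 1 .done) .done) (.leaf 0x4321876095 6 .done)) (.leaf 0x2103459678 5 .done)) (.node 7 9 (.cons 0x6543879012 .nil) (.node 6 8 .nil (.node 2 5 (.cons 0x3452187690 (.cons 0x7681093452 (.cons 0x7869034521 .nil))) (.leaf 0x1097683452 4 .done) (.node 4 8 (.cons 0x5678432190 .nil) (.node 5 8 .nil (.node 0 7 (.cons 0x9670345821 .nil) (.leaf 0x1907658432 8 (.leaf 0x6912854307 5 (.leaf 0x5670912348 8 .done))) .done) .done) .done)) .done) .done)) .done))) .done)) (.node 4 8 .nil (.node 2 5 (.cons 0x6781093452 .nil) (.leaf 0x4390125678 9 (.leaf 0x8439012567 8 (.leaf 0x5678439012 1 .done))) (.node 5 8 .nil (.node 2 6 (.cons 0x5439018762 .nil) (.leaf 0x5439012678 8 (.leaf 0x4587621093 3 (.leaf 0x6785439012 1 .done))) .done) .done)) .done)) (.node 0 8 (.cons 0x9087654321 .nil) (.node 0 3 (.cons 0x4567890321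 .nil) (.node 1 4 (.cons 0x3214567890 .nil) (.leaf 0x6541230987 6 (.node 3 6 .nil (.node 2 4 (.cons 0x7654289301 (.cons 0x7890124563 (.cons 0x5421098763 .nil))) .done (.node 3 7 (.cons 0x2893765410 .nil) (.node 2 7 (.cons 0x3982765410 .nil) (.leaf 0x9827654103 8 (.node 6 9 (.cons 0x5432187690 .nil) (.leaf 0x827396541 7 (.node 0 5 (.cons 0x9382765014 .nil) (.node 4 9 (.cons 0x5672839410 .nil) (.leaf 0x3018276549 6 (.leaf 0x8394105672 6 (.leaf 0x3827650149 8 .done))) (.leaf 0x7812345096 6 .done)) (.leaf 0x2801456937 6 .done))) .done)) .done) .done)) (.leaf 0x2145678903 9 .done))) (.node 3 7 .nil (.node 1 4 (.cons 0x3214567890 (.cons 0x2893765410 (.cons 0x6541237890 .nil))) (.node 2 6 (.cons 0x5439018762 (.cons 0x7398014562 (.cons 0x9378014562 .nil))) (.leaf 0x1098734562 8 .done) .done) (.node 3 6 .nil (.node 2 4 (.cons 0x9012438765 (.cons 0x9801245637 (.cons 0x9873654210 (.cons 0x5421098763 .nil)))) .done (.node 1 3 .nil (.node 2 4 (.cons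 0x9012438765 (.cons 0x7654289310 .nil)) (.leaf 0x9876542310 8 (.leaf 0x9876542310 4 .done)) (.node 3 5 .nil (.node 2 4 (.cons 0x9012438765 (.cons 0x7653890124 (.cons 0x6789012453 .nil))) (.node 7 9 (.cons 0x8973654210 (.cons 0x4536798210 (.cons 0x8790124356 .nil))) (.leaf 0x5637980124 7 .done) .done) .done) .done)) .done)) .done)) .done)) (.node 6 8 .nil (.node 2 7 (.cons 0x5439018672 .nil) (.leaf 0x5439012786 8 (.leaf 0x4390127865 9 (.leaf 0x4568721093 3 (.leaf 0x7865439012 1 .done)))) (.node 5 8 .nil (.node 2 6 (.cons 0x5439018762 .nil) (.leaf 0x5439012678 8 (.leaf 0x4587621093 3 (.leaf 0x6785439012 1 .done))) (.node 4 8 .nil (.node 2 5 (.cons 0x6781093452 .nil) (.leaf 0x4390125678 9 (.leaf 0x5678439012 1 .done)) .done) .done)) .done)) .done)) .done))) (.node 3 8 .nil (.node 2 4 (.cons 0x5678109342 (.cons 0x7654210983 .nil)) (.leaf 0x8390124567 9 (.leaf 0x7839012456 8 .done)) (.node 0 8 (.cons 0x9087654321 .nil) (.node 0 3 (.cons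 0x4567890321 .nil) (.node 3 5 .nil (.node 4 9 (.cons 0x5678123490 (.cons 0x2187653490 .nil)) (.leaf 0x7653490128 1 (.leaf 0x7653490128 3 (.leaf 0x7653490128 9 .done))) (.node 1 3 .nil (.node 2 4 (.cons 0x7654289301 (.cons 0x7654289310 .nil)) (.leaf 0x9876542310 8 (.leaf 0x9876542310 4 .done)) (.node 1 4 (.cons 0x3214567890 .nil) (.leaf 0x6541230987 6 (.node 0 7 (.cons 0x8907654123 .nil) (.leaf 0x1238907654 6 (.leaf 0x6541238907 2 (.node 0 4 (.cons 0x9814076532 .nil) (.node 2 4 (.cons 0x9814235670 .nil) (.leaf 0x1890765324 6 .done) .done) .done))) (.leaf 0x2145678903 9 .done))) .done)) .done)) (.node 1 9 (.cons 0x2876543910 .nil) (.leaf 0x4321908765 7 (.node 5 9 (.cons 0x4321876590 .nil) (.node 4 9 (.cons 0x5678123490 .nil) (.node 2 5 (.cons 0x4390187652 .nil) (.node 2 4 (.cons 0x7659342810 .nil) (.leaf 0x8109342567 2 .done) (.node 1 5 (.cons 0x6782510394 .nil) (.node 1 4 (.cons 0x4187652390 .nil) (.node 0 4 (.cons 0x6781523940 .nil)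 (.leaf 0x932567814 2 (.leaf 0x5678940321 3 .done)) .done) .done) .done)) (.leaf 0x2876594301 9 .done)) (.node 1 6 (.cons 0x3459087612 .nil) (.leaf 0x1678095432 3 (.node 5 8 (.cons 0x9085432167 .nil) (.node 6 8 (.cons 0x7865432190 .nil) (.node 2 7 (.cons 0x3456872190 .nil) (.leaf 0x9127865430 8 (.leaf 0x854327619 8 (.leaf 0x5809167234 4 .done))) .done) .done) (.leaf 0x7809543216 7 .done))) .done)) (.node 0 2 (.cons 0x9345678201 .nil) (.node 1 7 (.cons 0x4567102893 .nil) (.leaf 0x5671028934 8 (.node 0 6 (.cons 0x5439106782 .nil) (.node 2 6 (.cons 0x9012654387 .nil) (.node 2 7 (.cons 0x9012783456 .nil) (.node 3 7 (.cons 0x4567398201 .nil) (.node 2 4 (.cons 0x8937654201 .nil) (.leaf 0x3981024567 6 .done) .done) .done) .done) (.node 2 5 (.cons 0x6782543910 .nil) (.leaf 0x4528760193 9 (.leaf 0x8760193452 8 .done)) .done)) .done)) (.leaf 0x1934567820 3 (.node 1 3 (.cons 0x9310287654 .nil) (.node 2 4 (.cons 0x2456789310 .nil) (.leaf 0x9310245678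 0 (.leaf 0x8931024567 3 (.leaf 0x7893102456 5 .done))) (.node 4 9 (.cons 0x5678123490 .nil) (.node 3 5 (.cons 0x6782019354 .nil) (.node 3 6 (.cons 0x7635498012 .nil) .done .done) (.leaf 0x3102876549 3 (.leaf 0x5678201394 6 .done))) .done)) .done))) .done))) .done)) (.node 5 8 .nil (.node 2 6 (.cons 0x9012654387 .nil) (.leaf 0x5439012678 8 (.leaf 0x4587621093 3 (.leaf 0x6785439012 1 .done))) (.node 6 8 .nil (.node 2 7 (.cons 0x9012783456 .nil) (.leaf 0x4390127865 9 (.leaf 0x4568721093 3 (.leaf 0x7865439012 1 .done))) .done) .done)) .done)) (.node 0 8 (.cons 0x9087654321 .nil) (.node 0 3 (.cons 0x4567890321 .nil) (.node 1 4 (.cons 0x3214567890 .nil) (.leaf 0x6541230987 6 (.node 2 7 (.cons 0x3982765410 .nil) (.node 2 4 (.cons 0x7654289301 .nil) (.node 1 7 (.cons 0x4567103982 .nil) (.leaf 0x1039824567 1 (.leaf 0x8930176542 3 .done)) .done) (.leaf 0x9827654103 8 (.node 6 8 (.cons 0x7239086541 .nil) (.node 1 7 (.cons 0x4567103982 .nil) (.leaf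 0x5417239086 6 (.leaf 0x2390865417 9 .done)) (.node 2 5 (.cons 0x1452768390 .nil) (.leaf 0x7683901452 5 (.leaf 0x4109386725 5 .done)) .done)) .done))) (.leaf 0x2145678903 9 (.node 0 4 (.cons 0x9043218765 .nil) (.node 0 5 (.cons 0x6789054123 .nil) (.node 6 9 (.cons 0x7809654321 .nil) (.leaf 0x541238769 8 (.leaf 0x7690541238 9 (.leaf 0x5096783214 6 .done))) .done) .done) .done)))) (.node 3 7 .nil (.node 2 4 (.cons 0x5678109342 (.cons 0x8901245673 (.cons 0x6542109873 .nil))) (.node 3 6 (.cons 0x5421098763 .nil) (.leaf 0x1098736542 5 (.leaf 0x1098736542 4 .done)) .done) (.node 3 6 .nil (.node 2 4 (.cons 0x5678109342 (.cons 0x7638901245 (.cons 0x9873654210 (.cons 0x5421098763 .nil)))) .done (.node 1 7 (.cons 0x9087123456 .nil) (.node 1 9 (.cons 0x2876543910 .nil) (.node 2 7 (.cons 0x8276543910 .nil) (.leaf 0x1934567280 7 (.leaf 0x1934567280 6 .done)) (.node 1 3 .nil (.node 2 4 (.cons 0x5428936710 (.cons 0x7654289310 .nil)) (.leaf 0x9876542310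 8 (.leaf 0x9876542310 4 .done)) .done) .done)) (.node 6 9 (.cons 0x7809654321 .nil) (.leaf 0x871234569 8 (.leaf 0x8096543217 6 .done)) .done)) .done)) .done)) .done)) (.node 6 8 .nil (.node 2 7 (.cons 0x9012768345 .nil) (.leaf 0x5439012786 8 (.leaf 0x4390127865 9 (.leaf 0x4568721093 3 (.leaf 0x7865439012 1 .done)))) (.node 5 8 .nil (.node 2 6 (.cons 0x9012678345 .nil) (.leaf 0x5439012678 8 (.leaf 0x4587621093 3 (.leaf 0x6785439012 1 .done))) (.node 4 8 .nil (.node 2 5 (.cons 0x4390187652 .nil) (.leaf 0x4390125678 9 (.leaf 0x5678439012 1 .done)) .done) .done)) .done)) .done)) .done))) .done))))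
noncomputable def uc9_10_3 : T := (.leaf 0x7654390128 1 (.leaf 0x7654390128 3 (.leaf 0x7654390128 9 (.leaf 0x6782109345 8 (.node 1 8 .nil tc9_10_11 .done)))))
theorem sub_c9_10_3 : root 9 refs9_10 [] 0x300000008307000080007060000000060500000000504000000004030000000030100080000102000000002018000000010 0xfef7fe77ff3fff9fffcfffe7fff5fef9fff9fefd 9 3 9 (.cons 0x9345678210 .nil) uc9_10_3 = true := by decide +kernel
def kn_c9_10 : List (Nat × Nat × Nat) := [(0x300000008307000040007060000000060500000000504000000004030000000030100040000102000000002018000000010, 0xfef7ff67ff3fff9fffcfffe7fff5ffe9fff9fefd, 9), (0x300000008307000050007060000000060500000000504000000004030000000030100050000102000000002018000000010, 0xfef7ff57ff3fff9fffcfffe7fff5ffd9fff9fefd, 9), (0x300000008307000060007060000000060500000000504000000004030000000030100060000102000000002018000000010, 0xfef7ff37ff3fff9fffcfffe7fff5ffb9fff9fefd, 9), (0x300000008307000080007060000000060500000000504000000004030000000030100080000102000000002018000000010,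 0xfef7fe77ff3fff9fffcfffe7fff5fef9fff9fefd, 9)]
noncomputable def rc9_10 : T := (.cut 3 (.cut 2 (.cut 1 (.cut 0 .done))))
theorem ok_c9_10 : root 9 refs9_10 kn_c9_10 0x300000008307000000007060000000060500000000504000000004030000000030100000000102000000002018000000010 0xfef7ff77ff3fff9fffcfffe7fff5fff9fff9fefd 9 2 8 (.cons 0x9012876543 .nil) rc9_10 = true := by decide +kernel

noncomputable def tc9_11_0 : T := (.node 4 9 (.cons 0x7658943210 .nil) (.leaf 0x4985670123 4 (.node 5 7 (.cons 0x6758943210 .nil) (.node 7 9 .nil (.node 0 8 (.cons 0x9743210856 .nil) (.leaf 0x6543210897 6 (.leaf 0x8976543210 1 (.leaf 0x8012349765 4 .done))) (.node 2 5 (.cons 0x4325678901 .nil) (.node 1 4 (.cons 0x5678901432 .nil) (.leaf 0x3256789014 6 (.node 0 4 (.cons 0x6758940123 .nil) (.node 2 4 (.cons 0x6578901423 .nil) (.node 2 7 (.cons 0x9856723401 .nil) (.node 1 9 (.cons 0x6785234910 .nil) (.node 1 7 (.cons 0x9856710432 .nil) (.node 3 7 (.cons 0x4019856732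 .nil) .done .done) (.leaf 0x8910432765 6 .done)) .done) .done) .done) (.leaf 0x987652341 6 .done))) (.node 2 4 (.cons 0x9856701243 .nil) (.node 1 4 (.cons 0x5678901432 .nil) (.node 0 4 (.cons 0x6758940123 .nil) (.node 2 9 (.cons 0x7658923401 .nil) (.node 1 9 (.cons 0x7658910432 .nil) (.node 2 7 (.cons 0x9856723401 .nil) (.leaf 0x8910432765 6 .done) .done) .done) .done) (.leaf 0x987652341 5 .done)) .done) .done)) .done)) .done) (.node 5 7 .nil (.node 1 4 (.cons 0x5678901432 (.cons 0x6578901432 .nil)) (.node 2 5 (.cons 0x9876523410 .nil) (.leaf 0x3256789014 6 (.node 4 6 (.cons 0x2346578901 .nil) (.leaf 0x3210987564 6 (.node 1 6 (.cons 0x7890165234 .nil) (.leaf 0x4325789016 2 (.leaf 0x165234789 6 (.node 2 4 (.cons 0x9856701243 (.cons 0x6109875243 .nil)) .done .done))) .done)) (.leaf 0x6789014325 5 .done))) (.node 0 6 (.cons 0x8906754123 (.cons 0x9857601432 .nil)) (.node 7 9 (.cons 0x1234589760 (.cons 0x3214589760 .nil)) (.node 1 8 (.cons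 0x7654321890 (.cons 0x9743218560 .nil)) (.leaf 0x7906581234 10 (.leaf 0x4790658123 9 .done)) .done) (.leaf 0x1067589432 6 .done)) .done)) (.node 2 5 (.cons 0x4325678901 .nil) (.node 3 8 (.cons 0x2567834901 .nil) (.node 4 8 (.cons 0x9012384756 .nil) (.node 6 9 (.cons 0x5234876901 .nil) (.node 3 5 (.cons 0x9674853210 .nil) (.leaf 0x967485321 0 .done) (.leaf 0x3847569012 10 (.leaf 0x2384756901 9 .done))) .done) (.node 4 8 (.cons 0x6752109483 .nil) (.node 6 9 (.cons 0x7694385210 .nil) (.node 1 4 (.cons 0x1452387690 .nil) (.leaf 0x3256789014 6 (.node 1 7 (.cons 0x4871096523 .nil) (.leaf 0x8432569017 6 .done) .done)) (.leaf 0x3847569012 4 (.leaf 0x2384756901 6 .done))) .done) (.leaf 0x943876521 1 .done))) (.node 5 9 .nil (.node 6 8 (.cons 0x2347865901 .nil) (.leaf 0x123478659 6 (.leaf 0x1234768590 9 (.leaf 0x1234768590 6 (.leaf 0x1234768590 3 .done)))) (.node 6 9 (.cons 0x8743256901 .nil) (.node 2 4 (.cons 0x9856701243 .nil) (.node 1 4 (.cons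 0x5678901432 .nil) (.node 3 5 (.cons 0x7896532410 .nil) (.leaf 0x7014235698 4 .done) (.node 3 5 (.cons 0x6987014253 .nil) (.node 0 5 .nil (.node 1 3 (.cons 0x8907654312 (.cons 0x7896501324 .nil)) (.leaf 0x569874231 5 .done) .done) .done) .done)) (.node 3 5 (.cons 0x4210769853 .nil) (.leaf 0x4210769853 3 .done) .done)) (.node 1 8 (.cons 0x1874325690 .nil) (.leaf 0x5234781096 0 (.leaf 0x8743256901 3 (.leaf 0x5234781096 9 (.leaf 0x5234781096 6 .done)))) .done)) .done)) .done)) .done)) (.leaf 0x8567012349 8 .done)))) (.leaf 0x4321098567 3 (.node 5 7 .nil (.node 4 6 (.cons 0x2346578901 .nil) (.leaf 0x3210987564 6 (.node 0 8 (.cons 0x9801234657 (.cons 0x9801234675 .nil)) (.node 1 9 (.cons 0x2346578910 (.cons 0x6745809123 .nil)) (.leaf 0x2345670891 0 (.leaf 0x5678091234 7 (.leaf 0x856743219 6 .done))) .done) (.leaf 0x5789012346 6 (.leaf 0x985764321 7 .done)))) (.node 2 5 (.cons 0x4325678901 .nil) (.node 1 4 (.cons 0x5678901432 .nil) (.leaf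 0x3256789014 6 (.node 1 5 .nil (.node 2 6 (.cons 0x9875623410 .nil) (.leaf 0x3267890154 6 (.leaf 0x9876234510 5 (.leaf 0x6234109875 4 .done))) (.node 1 8 (.cons 0x7654321890 .nil) (.leaf 0x2345670981 0 (.node 3 6 (.cons 0x5436709812 .nil) (.leaf 0x4521890763 10 (.node 0 6 (.cons 0x9812345760 .nil) (.node 3 9 (.cons 0x6745812390 .nil) (.leaf 0x2185476093 7 (.leaf 0x674581239 4 (.leaf 0x5239067814 7 (.leaf 0x932541876 10 .done)))) (.leaf 0x4321890675 7 .done)) (.leaf 0x763452189 7 (.leaf 0x7098125436 9 .done)))) .done)) .done)) (.node 1 8 (.cons 0x7654321890 .nil) (.leaf 0x2345670981 0 (.node 0 8 .nil (.node 1 9 (.cons 0x6780914523 .nil) (.leaf 0x2345670891 0 (.leaf 0x856743219 6 .done)) (.node 6 9 (.cons 0x1234576980 .nil) (.node 0 3 (.cons 0x8967541230 .nil) (.leaf 0x3096547812 0 (.node 3 5 (.cons 0x8096745321 .nil) (.leaf 0x4769081235 6 .done) (.leaf 0x8967541230 3 .done))) (.leaf 0x8109652347 8 (.leaf 0x143258769 9 (.node 1 5 (.cons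 0x4321576980 .nil) (.leaf 0x8096743215 3 .done) .done)))) .done)) (.node 1 5 .nil (.node 0 2 (.cons 0x6789023451 .nil) (.node 1 3 (.cons 0x9023145876 .nil) (.leaf 0x7890231456 9 (.leaf 0x2098765431 1 .done)) (.leaf 0x3209876514 6 (.leaf 0x9876514320 5 .done))) (.node 2 6 (.cons 0x7890156234 .nil) (.leaf 0x3265109874 6 (.leaf 0x5109874326 5 (.node 0 5 (.cons 0x5098762341 .nil) (.leaf 0x1432678905 2 .done) .done))) .done)) .done))) (.leaf 0x987652341 6 .done)))) (.node 1 6 (.cons 0x7890165234 .nil) (.leaf 0x5234789016 5 (.node 1 5 .nil (.node 2 8 (.cons 0x3456709821 (.cons 0x6709821543 .nil)) (.node 3 8 (.cons 0x9012385674 (.cons 0x6709834512 (.cons 0x4389076512 .nil))) (.node 2 4 (.cons 0x9834210756 .nil) (.leaf 0x3890765124 4 .done) .done) (.leaf 0x5674328901 7 .done)) (.node 5 9 .nil (.node 4 8 (.cons 0x9016523487 (.cons 0x7659843210 (.cons 0x6759843210 .nil))) (.leaf 0x4895670123 4 (.leaf 0x1095678432 3 .done)) (.node 1 8 (.cons 0x7654321890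 .nil) (.leaf 0x2345670981 0 (.node 2 9 (.cons 0x7816543290 .nil) (.leaf 0x8165432907 7 (.node 2 6 (.cons 0x7098126543 .nil) (.leaf 0x3478109562 7 (.node 0 5 (.cons 0x9056234781 .nil) (.node 3 5 (.cons 0x7098126534 .nil) .done .done) .done)) (.leaf 0x8165432907 8 .done))) (.node 0 6 (.cons 0x9812345760 .nil) (.node 3 9 (.cons 0x6745812390 .nil) (.leaf 0x2185476093 7 (.leaf 0x5239061874 7 (.leaf 0x932547816 10 .done))) (.leaf 0x4321890675 7 .done)) .done))) .done)) .done)) (.leaf 0x165234789 6 (.node 3 7 (.cons 0x4378901652 .nil) (.node 4 6 (.cons 0x1237645890 .nil) (.node 6 8 (.cons 0x7345216890 .nil) (.node 1 4 (.cons 0x6732145890 .nil) (.leaf 0x3709865214 0 (.node 2 4 (.cons 0x3761245890 .nil) .done .done)) .done) (.leaf 0x985467321 1 .done)) (.node 2 4 (.cons 0x1652437890 .nil) (.node 3 9 (.cons 0x7893425610 .nil) (.node 4 6 (.cons 0x1246589370 .nil) (.leaf 0x5893701246 5 .done) (.leaf 0x8934256107 6 (.leaf 0x765893421 8 .done)))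 (.node 1 5 (.cons 0x6152437890 .nil) (.node 3 5 (.cons 0x4216735890 .nil) (.node 0 5 .nil (.node 2 8 (.cons 0x9824357610 (.cons 0x9824350167 (.cons 0x9051678243 .nil))) .done .done) .done) .done) .done)) .done)) .done)))) .done)) .done)) (.node 1 8 (.cons 0x7654321890 .nil) (.leaf 0x2345670981 0 (.node 0 8 .nil (.node 7 9 (.cons 0x6547908123 .nil) (.leaf 0x6543210897 6 (.leaf 0x8012345679 6 (.leaf 0x3218097654 7 .done))) (.node 4 8 .nil (.node 5 9 (.cons 0x6590187432 (.cons 0x8476590123 .nil)) (.leaf 0x123487659 6 (.node 2 6 (.cons 0x7098126543 (.cons 0x7481095623 .nil)) (.leaf 0x3478109562 7 (.leaf 0x5901874326 4 (.node 3 8 (.cons 0x2659074381 .nil) (.leaf 0x8347095621 4 (.leaf 0x4765901238 8 .done)) .done))) .done)) (.node 5 9 (.cons 0x7659843210 .nil) (.leaf 0x8432107659 9 (.leaf 0x6701234895 10 (.node 2 8 (.cons 0x8234765901 .nil) (.leaf 0x7659018234 0 (.node 2 6 (.cons 0x3470956281 .nil) (.leaf 0x3478109562 7 (.leaf 0x5901874326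 4 (.node 3 8 (.cons 0x9074562183 .nil) .done .done))) .done)) .done))) .done)) (.node 0 6 .nil (.node 5 7 (.cons 0x8906754321 .nil) (.leaf 0x9812347560 0 (.leaf 0x4321890657 2 (.leaf 0x2189067543 6 .done))) (.node 7 9 (.cons 0x2345609781 .nil) (.leaf 0x3456097812 9 (.leaf 0x3456097812 0 (.leaf 0x3456097812 6 .done))) (.node 1 7 (.cons 0x7189065432 .nil) (.node 2 7 (.cons 0x9817234560 .nil) (.leaf 0x6543271890 4 (.leaf 0x5609817234 9 (.leaf 0x6543271890 10 .done))) (.node 2 7 (.cons 0x7234560981 .nil) (.node 3 7 (.cons 0x4376589012 .nil) (.node 7 9 (.cons 0x1897234560 .nil) (.leaf 0x8972345601 10 .done) .done) (.leaf 0x5609817234 0 (.leaf 0x6098172345 2 .done))) (.node 5 7 .nil (.node 6 8 (.cons 0x7568901234 .nil) (.leaf 0x9012345768 6 (.leaf 0x7543210986 6 (.leaf 0x2347568901 7 .done))) (.node 1 5 .nil (.node 2 7 (.cons 0x7234560981 (.cons 0x8906723451 .nil)) (.leaf 0x1890672345 4 .done) (.node 0 5 .nil (.node 4 8 (.cons 0x3217654890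 (.cons 0x9843210567 (.cons 0x9843210576 .nil))) .done (.node 0 4 (.cons 0x8904567123 .nil) (.node 4 8 (.cons 0x3217654890 .nil) (.node 3 5 (.cons 0x9843567012 .nil) (.node 2 4 (.cons 0x9842356710 .nil) (.leaf 0x1765324890 6 .done) .done) .done) .done) .done)) .done)) .done)) .done))) .done))) .done))) (.node 5 7 (.cons 0x6754321890 .nil) (.node 0 6 (.cons 0x9812345760 .nil) (.node 1 7 .nil (.node 2 8 (.cons 0x3456709821 (.cons 0x9065432871 .nil)) (.leaf 0x3456710982 6 (.leaf 0x9017654328 6 (.node 6 8 (.cons 0x7123456890 .nil) (.leaf 0x4568907123 7 (.leaf 0x5432170986 9 (.leaf 0x9865432170 10 .done))) .done))) (.node 4 8 (.cons 0x3217654890 .nil) (.node 0 3 (.cons 0x9845671230 .nil) (.leaf 0x5671230984 6 (.leaf 0x5671230984 0 (.leaf 0x7654890321 5 .done))) (.node 3 6 (.cons 0x7123654890 .nil) (.leaf 0x9845632170 2 (.node 2 4 (.cons 0x9842365710 .nil) (.node 3 9 (.cons 0x7658934210 .nil) (.leaf 0x3906548712 0 (.leaf 0x1243985670 8 (.leaf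 0x9342107658 4 .done))) (.leaf 0x8901756324 10 .done)) (.leaf 0x8907123654 9 .done))) .done)) .done)) (.node 1 7 .nil (.node 0 2 (.cons 0x6543209871 (.cons 0x6712098543 .nil)) (.leaf 0x4320981765 7 (.leaf 0x3456718902 9 .done)) (.node 4 8 (.cons 0x3217654890 .nil) (.node 5 9 (.cons 0x7659843210 .nil) (.leaf 0x8432107659 9 (.leaf 0x6701234895 10 (.node 0 3 (.cons 0x9845671230 .nil) (.node 3 5 (.cons 0x9843567012 .nil) (.leaf 0x2189067453 7 .done) (.leaf 0x5671230984 6 (.leaf 0x5671230984 0 (.leaf 0x7654890321 5 .done)))) .done))) (.node 3 9 (.cons 0x8567439012 .nil) (.leaf 0x4581239067 10 (.leaf 0x5601239847 0 (.leaf 0x657489321 5 (.leaf 0x5601239847 9 .done)))) .done)) .done)) (.leaf 0x4321890675 7 .done))) (.node 1 7 .nil (.node 0 2 (.cons 0x6543209871 (.cons 0x6712098543 .nil)) (.leaf 0x4320981765 7 (.leaf 0x3456718902 9 (.node 0 6 (.cons 0x4576098123 .nil) (.leaf 0x5432178906 5 (.leaf 0x9854321760 10 .done)) .done))) (.node 1 4 (.cons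 0x5678901432 .nil) (.node 1 3 (.cons 0x8907654312 .nil) (.node 1 5 .nil (.node 0 2 (.cons 0x9023451876 (.cons 0x6789023451 .nil)) (.leaf 0x8902341567 7 (.node 1 6 (.cons 0x9871654320 .nil) (.leaf 0x2098761543 4 (.leaf 0x987615432 1 .done)) (.leaf 0x9876514320 9 .done))) .done) .done) (.node 2 5 (.cons 0x4325678901 .nil) (.leaf 0x987652341 0 (.leaf 0x987652341 6 (.leaf 0x987652341 5 .done))) .done)) .done)) .done)) (.node 5 7 .nil (.node 6 8 (.cons 0x7568901234 .nil) (.leaf 0x9012345768 6 (.leaf 0x7543210986 6 (.leaf 0x2347568901 7 .done))) (.node 1 7 .nil (.node 6 8 (.cons 0x7123456890 .nil) (.leaf 0x4568907123 7 (.leaf 0x5432170986 9 (.node 0 4 (.cons 0x7654098123 (.cons 0x9865712340 .nil)) (.node 3 5 (.cons 0x9047681235 (.cons 0x9043586712 (.cons 0x4356890712 (.cons 0x6718904532 .nil)))) .done (.leaf 0x7568904321 4 .done)) .done))) (.node 3 7 (.cons 0x4567321890 .nil) (.node 0 6 (.cons 0x3458906712 .nil) (.leaf 0x7123458906 9 (.node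 7 9 .nil (.node 0 8 (.cons 0x6547908123 .nil) (.leaf 0x6543210897 6 (.leaf 0x8976543210 1 .done)) (.node 2 7 .nil (.node 0 4 (.cons 0x7654098123 (.cons 0x6589043721 (.cons 0x3276540981 .nil))) (.node 0 3 (.cons 0x9812304576 (.cons 0x4567230981 .nil)) (.leaf 0x4567218903 3 (.node 1 6 (.cons 0x5890437612 (.cons 0x6127985403 (.cons 0x9032781654 (.cons 0x2789034561 .nil)))) .done .done)) .done) .done) .done)) (.leaf 0x9854321760 10 .done))) .done) .done)) (.node 5 9 .nil (.node 0 8 (.cons 0x6745908123 .nil) (.leaf 0x6743218095 9 (.leaf 0x7659081234 4 .done)) (.node 6 8 (.cons 0x2347865901 .nil) (.leaf 0x1234786590 4 (.leaf 0x956874321 1 .done)) (.node 0 8 .nil (.node 7 9 (.cons 0x1234567980 .nil) (.leaf 0x6543210897 6 (.leaf 0x8012345679 6 (.leaf 0x976543218 10 .done))) (.node 2 8 (.cons 0x8234765901 .nil) (.leaf 0x7659018234 8 (.node 3 6 (.cons 0x1823674590 .nil) (.node 7 9 (.cons 0x9745632180 .nil) (.leaf 0x3218097456 2 (.leaf 0x6321809745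 0 .done)) (.leaf 0x2810954763 9 (.leaf 0x8236745901 7 (.node 1 5 (.cons 0x4763281590 .nil) (.leaf 0x7098215436 6 (.leaf 0x7098215436 9 (.leaf 0x7098215436 3 .done))) .done)))) (.node 6 8 .nil (.node 1 3 (.cons 0x8907654312 (.cons 0x2865907431 (.cons 0x2318674590 .nil))) (.leaf 0x3470956821 1 (.leaf 0x956821347 6 .done)) (.node 3 8 (.cons 0x4765901832 .nil) (.node 2 6 (.cons 0x1832674590 .nil) (.leaf 0x3859012674 9 (.leaf 0x8590126743 10 .done)) .done) .done)) .done))) (.node 2 8 (.cons 0x8234765901 .nil) (.leaf 0x7659018234 8 (.node 4 8 .nil (.node 3 6 (.cons 0x2367459081 (.cons 0x9084576321 .nil)) (.leaf 0x5632109847 6 (.leaf 0x7548901236 6 (.leaf 0x2180954763 4 .done))) (.node 3 8 (.cons 0x4765901832 .nil) (.node 6 8 (.cons 0x7432865901 .nil) .done .done) .done)) (.node 6 8 .nil (.node 1 3 (.cons 0x8907654312 (.cons 0x2865907431 (.cons 0x2318674590 .nil))) (.leaf 0x3470956821 1 (.leaf 0x956821347 6 .done)) (.node 3 8 (.cons 0x4765901832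 .nil) (.node 4 8 (.cons 0x9012384756 .nil) .done .done) .done)) .done))) .done))) .done))) .done))) .done)))) .done))))
noncomputable def tc9_11_1 : T := (.node 0 6 (.cons 0x2347895601 .nil) (.leaf 0x1234789560 4 (.node 4 8 (.cons 0x7489560123 .nil) (.node 0 8 (.cons 0x9801234765 .nil) (.node 1 8 (.cons 0x7654321890 .nil) (.leaf 0x2345670981 0 (.node 3 7 (.cons 0x4567321890 .nil) (.node 6 9 (.cons 0x6954732180 .nil) (.leaf 0x2374596081 0 (.leaf 0x9547321806 3 (.leaf 0x7321806954 5 .done))) (.leaf 0x7321065984 0 (.node 0 4 (.cons 0x6598123740 .nil) (.leaf 0x1237654098 9 (.leaf 0x2189045673 4 .done)) .done))) .done)) .done) (.node 0 8 (.cons 0x9801234765 .nil) (.node 1 8 (.cons 0x7654321890 .nil) (.leaf 0x2345670981 0 (.node 1 9 (.cons 0x7456089123 .nil) (.node 3 5 (.cons 0x8912354760 .nil) (.leaf 0x2198067453 5 (.leaf 0x4532198067 6 (.leaf 0x674895321 6 .done))) (.node 3 7 (.cons 0x4567321890 .nil) (.leaf 0x2106598473 8 (.leaf 0x8065473219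 9 (.leaf 0x6089123745 5 .done))) .done)) .done)) .done) .done)) (.node 2 9 (.cons 0x3476589210 .nil) (.node 1 5 (.cons 0x3476015892 .nil) (.leaf 0x4760158923 4 (.node 1 8 (.cons 0x6781543290 .nil) (.leaf 0x9234518760 3 (.node 5 7 (.cons 0x9810657432 .nil) (.leaf 0x2981065743 0 .done) (.leaf 0x9234518760 0 (.leaf 0x9234518760 9 .done)))) (.leaf 0x1067432985 2 .done))) (.node 0 3 (.cons 0x9856743012 .nil) (.node 3 6 (.cons 0x8956347012 .nil) (.node 2 4 (.cons 0x2436598701 .nil) (.leaf 0x4365987012 2 (.leaf 0x9563421078 4 (.leaf 0x9870124365 10 .done))) (.node 3 7 (.cons 0x4376589012 .nil) (.node 2 6 (.cons 0x1267345890 .nil) (.leaf 0x7345890126 7 (.node 3 8 (.cons 0x4738592601 .nil) (.leaf 0x126598347 9 (.node 1 9 (.cons 0x8743265910 .nil) (.leaf 0x4387091265 7 (.leaf 0x8345621907 3 .done)) .done)) .done)) .done) .done)) (.leaf 0x5892103476 7 (.node 3 6 (.cons 0x1298547630 .nil) (.leaf 0x129854763 0 (.node 4 6 (.cons 0x2958746301 .nil)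 (.leaf 0x3012958746 7 .done) (.node 3 7 (.cons 0x4376589012 .nil) (.node 6 9 (.cons 0x5896743012 .nil) (.node 4 6 (.cons 0x8546730921 .nil) (.node 1 6 (.cons 0x2347895610 .nil) (.node 2 6 (.cons 0x8956210743 .nil) .done (.leaf 0x7461032958 7 .done)) .done) .done) .done) .done))) .done))) (.node 0 3 (.cons 0x1298567430 .nil) (.leaf 0x3476589210 3 (.leaf 0x8567430129 9 (.leaf 0x8567430129 6 .done))) .done))) .done))) (.node 0 8 (.cons 0x4765980123 .nil) (.node 5 7 (.cons 0x9801234756 .nil) (.node 6 9 (.cons 0x7432108965 .nil) (.node 4 8 .nil (.node 7 9 (.cons 0x6579084321 .nil) (.leaf 0x1097658432 7 (.leaf 0x123485679 9 .done)) (.node 0 5 (.cons 0x6748950123 .nil) (.node 0 4 (.cons 0x8956740123 .nil) (.node 0 3 (.cons 0x9856743012 .nil) (.node 2 5 (.cons 0x4325678901 .nil) (.leaf 0x7430125896 0 (.leaf 0x2103476985 3 .done)) .done) .done) .done) .done)) (.leaf 0x4321089657 7 (.leaf 0x2347569801 8 .done))) .done) (.leaf 0x1234765980 7 (.node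 1 8 (.cons 0x7654321890 .nil) (.leaf 0x2345670981 0 (.node 5 7 .nil (.node 0 6 (.cons 0x9810657432 .nil) (.leaf 0x9812347560 3 (.leaf 0x7543218906 3 .done)) (.node 4 8 .nil (.node 2 9 (.cons 0x3476589210 (.cons 0x6578432901 (.cons 0x6570921843 .nil))) (.node 3 6 (.cons 0x8129075436 (.cons 0x3674859210 (.cons 0x6329574810 (.cons 0x9075634812 .nil)))) (.leaf 0x6598470123 2 .done) .done) (.node 0 6 (.cons 0x5984760123 .nil) (.node 7 9 (.cons 0x2345609781 .nil) (.leaf 0x3456097812 9 (.leaf 0x3456097812 6 .done)) (.node 0 5 (.cons 0x6748950123 .nil) (.node 2 5 (.cons 0x3259847601 .nil) (.node 1 5 (.cons 0x9843251067 .nil) .done .done) .done) .done)) .done)) .done)) (.node 5 7 (.cons 0x6754321890 .nil) (.node 4 8 .nil (.node 3 6 (.cons 0x5436709812 (.cons 0x7632184590 (.cons 0x4810957632 (.cons 0x4812367590 .nil)))) (.leaf 0x6598470123 2 .done) (.node 3 6 (.cons 0x7489563210 .nil) (.leaf 0x6598470123 2 (.leaf 0x4701236598 10 (.node 0 6 (.cons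 0x3218954760 .nil) (.node 3 7 (.cons 0x6598473210 .nil) (.leaf 0x6095481237 2 (.leaf 0x4895601237 10 .done)) .done) (.node 2 5 (.cons 0x4325678901 .nil) (.leaf 0x7098125436 6 (.leaf 0x7098125436 3 .done)) .done)))) .done)) .done) .done))) .done))) (.node 1 8 (.cons 0x2347659810 .nil) (.leaf 0x2345670981 0 (.node 2 6 (.cons 0x7432659810 .nil) (.node 3 7 (.cons 0x9812654370 .nil) (.leaf 0x4562189073 7 (.leaf 0x981265437 4 (.node 4 8 .nil (.node 0 5 (.cons 0x9812650734 (.cons 0x9843705621 (.cons 0x4890567321 .nil))) (.node 3 5 (.cons 0x9843567012 (.cons 0x9843562107 .nil)) (.leaf 0x1235674890 7 .done) .done) (.node 2 4 (.cons 0x1895624370 .nil) (.node 0 8 (.cons 0x2347659801 .nil) (.node 1 4 (.cons 0x2659814370 .nil) (.leaf 0x7659081423 0 .done) .done) (.leaf 0x4265981073 0 .done)) .done)) .done))) (.leaf 0x1895623470 10 (.node 4 8 .nil (.node 0 3 (.cons 0x9856743012 (.cons 0x9562301847 (.cons 0x7489562301 (.cons 0x5984762301 .nil))))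 (.node 1 5 (.cons 0x9015678432 (.cons 0x9847651032 .nil)) (.leaf 0x7623015984 8 (.leaf 0x2674895103 7 .done)) .done) (.node 0 8 (.cons 0x2347659801 .nil) (.node 1 4 (.cons 0x5678901432 .nil) (.node 2 8 (.cons 0x3456709821 .nil) (.leaf 0x2341095678 2 (.leaf 0x143287659 4 .done)) (.node 2 5 (.cons 0x4325678901 .nil) (.leaf 0x987652341 0 (.leaf 0x987652341 6 (.leaf 0x987652341 5 .done))) .done)) .done) .done)) (.leaf 0x1895623470 2 .done)))) (.node 4 8 .nil (.node 3 5 (.cons 0x9843567012 .nil) (.leaf 0x1235674890 7 (.node 2 6 (.cons 0x9534810762 (.cons 0x7623481095 (.cons 0x9532674810 (.cons 0x2670953481 .nil)))) (.leaf 0x3590184762 7 .done) (.leaf 0x2109847653 9 .done))) (.node 0 8 (.cons 0x2347659801 .nil) (.node 0 2 (.cons 0x8956743201 .nil) (.leaf 0x7432018956 8 (.leaf 0x234765981 4 (.node 2 4 (.cons 0x3247659801 .nil) (.node 1 4 (.cons 0x5678901432 .nil) (.node 2 5 (.cons 0x6743259810 .nil) (.leaf 0x987652341 0 (.leaf 0x987652341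 5 (.node 3 6 (.cons 0x4763259810 .nil) (.leaf 0x1890763452 9 (.leaf 0x1890763452 6 (.leaf 0x6709812543 3 (.node 1 7 (.cons 0x2436718590 .nil) (.leaf 0x958176342 1 (.leaf 0x2095817634 4 .done)) .done)))) .done))) .done) .done) .done))) .done) .done)) (.node 0 8 (.cons 0x2347659801 .nil) (.node 1 7 (.cons 0x6598017432 .nil) (.node 5 7 (.cons 0x9801234756 .nil) (.node 4 8 .nil (.node 0 3 (.cons 0x9856743012 (.cons 0x9567481032 (.cons 0x6754890321 .nil))) (.leaf 0x9845671230 0 .done) (.node 2 6 (.cons 0x3267184590 .nil) (.leaf 0x5980174326 10 (.leaf 0x958432671 9 (.node 6 9 (.cons 0x2345690871 .nil) (.leaf 0x6980123475 0 (.node 0 5 (.cons 0x3267489501 .nil) (.leaf 0x1769058432 4 .done) .done)) (.leaf 0x9584326710 10 .done)))) .done)) .done) (.node 0 6 (.cons 0x3458906712 .nil) (.leaf 0x7123458906 9 (.node 0 5 (.cons 0x8905432176 .nil) (.node 0 2 (.cons 0x8956743201 .nil) (.node 0 3 (.cons 0x9856743012 .nil) (.node 0 4 (.cons 0x7654098123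 .nil) .done .done) .done) .done) (.leaf 0x9854321760 10 .done))) .done)) (.node 4 8 .nil (.node 3 5 (.cons 0x9843567012 .nil) (.leaf 0x1235674890 7 (.node 2 9 (.cons 0x3476589210 (.cons 0x6709218453 (.cons 0x4876532901 (.cons 0x8435670921 .nil)))) (.leaf 0x6701298435 4 .done) (.leaf 0x2109847653 9 .done))) (.node 2 4 (.cons 0x3247659810 .nil) (.node 3 8 (.cons 0x9567423810 .nil) (.node 0 4 (.cons 0x7654098123 .nil) (.node 3 7 (.cons 0x4567321890 .nil) (.leaf 0x8109567324 3 (.node 2 6 (.cons 0x1267345890 .nil) (.leaf 0x7345890126 7 (.leaf 0x1098543762 4 (.node 1 3 (.cons 0x4267318590 .nil) (.leaf 0x8137624095 6 (.leaf 0x2659073184 6 .done)) .done))) (.leaf 0x2189045673 4 .done))) .done) (.leaf 0x2476590183 6 .done)) (.node 0 3 (.cons 0x9856743012 .nil) (.node 4 9 (.cons 0x2309456781 .nil) (.leaf 0x6549032187 9 .done) (.node 2 9 (.cons 0x3476589210 .nil) (.node 3 5 (.cons 0x6742359810 .nil) (.node 6 8 (.cons 0x2435986701 .nil) (.leaf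 0x7012435986 7 (.leaf 0x9534210768 4 .done)) (.node 1 6 (.cons 0x5980167432 .nil) (.leaf 0x7853429016 3 (.node 3 7 (.cons 0x4561873290 .nil) (.leaf 0x854376129 4 (.leaf 0x6180954237 7 .done)) (.leaf 0x3429016785 7 .done))) .done)) (.leaf 0x5892103476 7 (.leaf 0x8567430129 9 .done))) (.leaf 0x3018956742 4 .done))) .done)) .done)) .done)) .done)))) .done)))
noncomputable def tc9_11_2 : T := (.node 4 9 (.cons 0x7658943210 .nil) (.leaf 0x4985670123 4 (.node 2 4 (.cons 0x9856701243 .nil) (.node 2 5 (.cons 0x4325678901 .nil) (.node 1 4 (.cons 0x5678901432 .nil) (.node 4 8 .nil (.node 3 7 (.cons 0x9843701256 .nil) (.leaf 0x1098437652 5 (.leaf 0x1098437652 9 (.leaf 0x2109845673 6 (.leaf 0x1098437652 0 .done)))) (.node 3 7 (.cons 0x5673489012 .nil) (.leaf 0x1098437652 9 (.node 4 6 (.cons 0x9852107346 .nil) (.node 0 4 .nil (.node 1 9 (.cons 0x6523478910 (.cons 0x6732198540 .nil)) (.leaf 0x4019852376 7 .done) .done) .done) (.leaf 0x1098437652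 0 .done))) .done)) (.leaf 0x987652341 5 .done)) (.node 1 4 (.cons 0x5678901432 .nil) (.leaf 0x6789014325 0 (.node 5 7 (.cons 0x6758943210 .nil) (.node 1 5 .nil (.node 0 2 (.cons 0x9874320156 (.cons 0x6789023451 .nil)) (.leaf 0x3498765102 6 .done) (.node 2 6 (.cons 0x9874326510 .nil) (.node 3 6 (.cons 0x5894367012 .nil) (.leaf 0x1078943625 8 (.leaf 0x1076349852 1 (.leaf 0x2589436701 4 .done))) (.leaf 0x3478901562 10 .done)) .done)) .done) .done)) .done)) (.node 2 5 (.cons 0x4325678901 .nil) (.node 5 7 (.cons 0x6758943210 .nil) (.node 7 9 (.cons 0x6589701243 .nil) (.node 3 9 (.cons 0x4398567012 .nil) (.node 4 8 (.cons 0x6574893210 .nil) (.node 2 7 (.cons 0x6527843901 .nil) (.node 3 5 (.cons 0x7653489012 .nil) (.leaf 0x1098435672 3 .done) .done) .done) (.leaf 0x8567012439 7 .done)) .done) .done) (.node 1 4 (.cons 0x5678901432 .nil) (.leaf 0x6789014325 9 (.node 4 8 .nil (.node 1 3 (.cons 0x8907654312 (.cons 0x9013256784 (.cons 0x6709845213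 .nil))) (.leaf 0x2567849013 6 (.leaf 0x1325674890 4 .done)) .done) .done)) .done)) .done)) (.node 2 5 (.cons 0x4325678901 .nil) (.node 3 8 (.cons 0x2567834901 .nil) (.node 5 7 .nil (.node 2 6 (.cons 0x7098345621 (.cons 0x3894756210 (.cons 0x4389075621 .nil))) (.leaf 0x4387562109 7 .done) (.node 3 5 .nil (.node 2 4 (.cons 0x9856701243 (.cons 0x9853421076 .nil)) (.leaf 0x1098765342 1 .done) (.node 5 9 (.cons 0x8956743210 .nil) (.node 0 6 (.cons 0x2347895601 .nil) (.leaf 0x1234789560 4 (.node 1 9 (.cons 0x3874910652 .nil) (.leaf 0x2387491065 4 (.leaf 0x5238749106 6 .done)) (.leaf 0x5749832106 9 .done))) .done) .done)) .done)) (.node 5 7 (.cons 0x8349012576 .nil) (.node 4 8 (.cons 0x6752109483 .nil) (.node 0 8 (.cons 0x9801234765 .nil) (.node 3 6 (.cons 0x9847563210 .nil) (.node 2 4 (.cons 0x5763894210 .nil) (.node 0 3 (.cons 0x7658943012 .nil) (.leaf 0x9421036758 2 (.node 0 5 (.cons 0x4983675012 .nil) (.leaf 0x7638942105 9 .done) (.leaf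 0x4985763012 9 .done))) .done) (.leaf 0x1094836752 8 (.leaf 0x9012576384 7 (.leaf 0x5748901236 10 .done)))) .done) .done) .done) (.leaf 0x943876521 1 .done))) (.node 2 4 (.cons 0x9856701243 .nil) (.node 4 6 .nil (.node 3 7 (.cons 0x9852107346 (.cons 0x8907346521 .nil)) (.leaf 0x5210987346 6 (.node 1 8 (.cons 0x7654321890 (.cons 0x3781094652 (.cons 0x9018734652 .nil))) (.leaf 0x6437098125 9 (.leaf 0x4652189073 10 .done)) .done)) (.node 6 9 (.cons 0x8965210743 .nil) (.node 5 9 (.cons 0x8956743210 .nil) (.node 3 9 (.cons 0x4398567012 .nil) (.leaf 0x1076589342 7 (.leaf 0x1076589342 8 (.node 0 6 (.cons 0x9874325601 .nil) (.node 1 8 (.cons 0x2347659810 .nil) (.leaf 0x6074398125 0 (.leaf 0x743981256 2 (.leaf 0x9076581243 4 (.node 1 6 (.cons 0x9874325610 .nil) (.leaf 0x9342561870 3 .done) .done)))) .done) .done))) .done) (.node 3 9 (.cons 0x4398567012 .nil) (.leaf 0x1076589342 7 (.leaf 0x1076589342 8 (.node 5 9 (.cons 0x8956743210 .nil) (.node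 1 9 (.cons 0x6523478910 .nil) (.node 2 6 (.cons 0x5623478910 .nil) (.leaf 0x4391078562 6 (.leaf 0x5870193426 6 .done)) (.node 3 6 (.cons 0x4236785910 .nil) (.leaf 0x7852436910 6 (.leaf 0x7852436910 5 .done)) .done)) .done) .done))) .done)) .done)) (.node 3 5 (.cons 0x9853421076 .nil) (.node 6 9 (.cons 0x5896701243 .nil) (.leaf 0x4210769853 3 (.leaf 0x4210769853 6 (.leaf 0x4210769853 9 .done))) (.node 6 9 (.cons 0x2435896701 .nil) (.leaf 0x769853421 7 (.node 5 9 (.cons 0x8956743210 .nil) (.node 3 8 (.cons 0x4765983210 .nil) (.node 4 8 .nil (.node 0 6 (.cons 0x9874325601 (.cons 0x9560123847 .nil)) (.leaf 0x674895321 0 .done) .done) (.leaf 0x743896521 8 (.leaf 0x8347012569 4 .done))) .done) (.leaf 0x8967012435 10 .done))) .done)) .done)) (.node 1 4 (.cons 0x5678901432 .nil) (.leaf 0x6789014325 9 (.leaf 0x6789014325 0 (.leaf 0x1098765234 3 .done))) .done))) (.leaf 0x8567012349 8 .done)))) (.leaf 0x9012347658 0 (.node 0 8 (.cons 0x9801234765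 .nil) (.node 5 7 (.cons 0x9801234756 .nil) (.node 1 8 (.cons 0x7654321890 .nil) (.leaf 0x2345670981 0 (.node 6 9 (.cons 0x8123457690 .nil) (.leaf 0x1234576908 7 (.node 2 5 (.cons 0x4325678901 .nil) (.node 0 3 (.cons 0x7698125430 .nil) (.leaf 0x3452189670 3 (.leaf 0x8125430769 0 (.leaf 0x8125430769 6 .done))) (.node 3 8 (.cons 0x7438965210 .nil) (.leaf 0x9652107438 0 (.node 4 6 (.cons 0x7521834690 .nil) (.leaf 0x5218346907 3 (.leaf 0x5218346907 6 .done)) .done)) .done)) (.leaf 0x4321089657 7 (.leaf 0x2347569801 8 .done)))) (.node 4 8 .nil (.node 6 9 (.cons 0x7432108965 (.cons 0x9657480123 (.cons 0x7569084321 .nil))) (.leaf 0x7690123485 6 (.leaf 0x4321089657 7 .done)) (.node 6 9 (.cons 0x4857690123 .nil) (.node 0 3 (.cons 0x7456980321 .nil) (.leaf 0x4576903218 6 (.leaf 0x967548123 3 (.node 1 7 (.cons 0x3217456980 .nil) (.leaf 0x8965471230 9 (.leaf 0x8965471230 6 .done)) .done))) (.leaf 0x7690123485 6 (.leaf 0x4321089657 7 (.leaf 0x2347569801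 8 .done)))) .done)) .done))) .done) (.node 1 8 (.cons 0x7654321890 .nil) (.leaf 0x2345670981 0 (.node 5 7 .nil (.node 4 6 (.cons 0x9018756432 .nil) (.leaf 0x3210987564 6 (.leaf 0x5789012346 6 (.leaf 0x985764321 7 .done))) (.node 4 8 .nil (.node 3 7 (.cons 0x6543709812 .nil) (.leaf 0x2109845673 6 (.node 6 9 (.cons 0x8096754321 (.cons 0x4812375690 (.cons 0x2184375690 (.cons 0x7569018432 (.cons 0x5769084321 .nil))))) .done .done)) (.node 2 5 (.cons 0x4325678901 .nil) (.node 3 7 (.cons 0x9843765210 .nil) (.leaf 0x4890125673 9 (.node 4 6 (.cons 0x9812564370 .nil) (.node 2 9 (.cons 0x6573481290 .nil) (.leaf 0x734658129 9 (.leaf 0x7092185643 7 (.leaf 0x8109234657 5 (.leaf 0x1290734658 10 .done)))) (.leaf 0x3709812564 7 .done)) .done)) (.node 3 7 (.cons 0x5673489012 .nil) (.node 4 6 (.cons 0x1237645890 .nil) (.node 1 7 (.cons 0x9085467123 .nil) (.node 1 4 (.cons 0x6732145890 .nil) (.node 1 9 (.cons 0x6523478910 .nil) (.leaf 0x854673219 0 .done)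 .done) .done) (.leaf 0x985467321 1 .done)) (.leaf 0x1098437652 0 .done)) .done)) .done)) .done)) (.node 5 7 .nil (.node 4 6 (.cons 0x9801234675 .nil) (.leaf 0x3210987564 6 (.node 6 8 (.cons 0x9086754321 .nil) (.leaf 0x9012345768 6 (.leaf 0x7543210986 6 (.node 1 9 (.cons 0x7645809123 .nil) (.leaf 0x3219086754 7 (.leaf 0x2346758091 6 (.leaf 0x912345768 10 .done))) .done))) (.leaf 0x5789012346 6 (.leaf 0x985764321 7 .done)))) (.node 6 8 (.cons 0x9086754321 .nil) (.node 1 9 (.cons 0x9123457680 .nil) (.leaf 0x7543219086 3 (.node 0 5 (.cons 0x7689123450 .nil) (.node 2 6 (.cons 0x9874326501 .nil) (.leaf 0x8743265019 2 (.leaf 0x7891056234 9 (.node 3 6 (.cons 0x7054368912 .nil) (.leaf 0x5074362198 1 (.leaf 0x9850743621 6 .done)) .done))) (.node 2 8 (.cons 0x9823476501 .nil) (.leaf 0x8234765019 4 (.leaf 0x3476501982 8 .done)) .done)) (.leaf 0x7543219086 9 .done))) (.node 1 9 (.cons 0x5768091234 .nil) (.leaf 0x3219086754 7 (.leaf 0x2345768091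 9 (.leaf 0x912345768 10 .done))) .done)) .done)) .done))) .done)) (.node 5 9 (.cons 0x8956743210 .nil) tc9_11_1 .done))))
noncomputable def uc9_11_0 : T := (.node 5 8 (.cons 0x9856743210 .nil) tc9_11_2 (.node 5 8 (.cons 0x7658901234 .nil) tc9_11_0 (.node 5 8 (.cons 0x7658901234 .nil) (.leaf 0x1234765890 5 (.node 4 8 .nil (.node 3 5 (.cons 0x9843567012 .nil) (.leaf 0x3210984765 3 (.leaf 0x8901235674 0 (.leaf 0x984765321 5 .done))) (.node 5 9 (.cons 0x7659843210 .nil) (.leaf 0x6701234895 10 (.node 7 9 (.cons 0x5679843210 .nil) (.node 0 5 (.cons 0x4897650123 .nil) (.leaf 0x2105679843 7 (.node 3 6 (.cons 0x8905476321 .nil) (.leaf 0x9501236748 4 (.leaf 0x2105984763 1 (.node 1 8 (.cons 0x7654321890 .nil) (.leaf 0x7450981236 0 (.leaf 0x7450981236 9 (.node 3 5 (.cons 0x4897653210 .nil) (.node 6 9 (.cons 0x6985347012 .nil) (.node 0 2 (.cons 0x5347698120 .nil) (.leaf 0x7698120534 9 (.leaf 0x7698120534 0 (.leaf 0x2189674350 3 .done))) .done) (.node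 2 9 (.cons 0x4356781092 .nil) (.leaf 0x6701298435 4 (.leaf 0x2107653489 2 (.leaf 0x7653489210 9 .done))) .done)) .done))) (.node 1 8 (.cons 0x7654321890 .nil) (.node 2 5 (.cons 0x4325678901 .nil) (.leaf 0x7098125436 6 (.leaf 0x7098125436 9 .done)) (.leaf 0x2189054763 10 (.leaf 0x9054763218 9 .done))) .done)))) (.node 3 5 (.cons 0x4897653210 .nil) (.node 5 7 .nil (.node 4 6 (.cons 0x6479853210 .nil) (.leaf 0x4321098576 3 (.leaf 0x5789012346 6 (.leaf 0x9012346758 9 .done))) (.node 2 5 (.cons 0x4325678901 .nil) (.node 1 5 .nil (.node 0 6 (.cons 0x8953476012 (.cons 0x8906745123 .nil)) (.leaf 0x7432158906 3 .done) .done) .done) .done)) (.node 2 9 (.cons 0x5670129843 .nil) (.leaf 0x6701298435 4 (.leaf 0x2107653489 2 (.leaf 0x7653489210 9 .done))) .done)) .done))) (.node 2 4 .nil (.node 3 7 (.cons 0x8956734210 .nil) (.leaf 0x1098567342 5 (.leaf 0x3421098567 3 .done)) (.node 3 8 (.cons 0x2438765901 .nil) (.leaf 0x9012438765 7 (.node 1 5 (.cons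 0x4389076512 .nil) (.leaf 0x1567098342 4 (.node 2 8 (.cons 0x6743821590 .nil) (.node 4 9 (.cons 0x8349076512 .nil) (.leaf 0x3490765128 10 (.leaf 0x1094328765 7 .done)) (.node 1 3 (.cons 0x8907654312 .nil) (.leaf 0x7659013428 5 (.leaf 0x7659013428 0 (.leaf 0x7659013428 6 .done))) .done)) (.leaf 0x6709834215 8 .done))) .done)) (.node 1 4 (.cons 0x5678901432 .nil) (.node 6 9 (.cons 0x7856901432 .nil) (.node 2 9 (.cons 0x5670129843 .nil) (.node 3 5 (.cons 0x5329678410 .nil) (.leaf 0x9210765348 0 (.leaf 0x2107653489 2 (.node 0 5 (.cons 0x1234897650 .nil) (.leaf 0x8769235014 0 (.node 1 6 (.cons 0x8416792350 .nil) (.leaf 0x532984761 8 (.leaf 0x6105329847 4 .done)) .done)) .done))) .done) (.node 2 7 (.cons 0x3489567210 .nil) (.leaf 0x2341096587 2 (.leaf 0x965872341 10 (.leaf 0x1096587234 9 .done))) .done)) (.node 2 5 (.cons 0x4325678901 .nil) (.leaf 0x987652341 0 (.leaf 0x987652341 6 (.node 2 9 (.cons 0x5670129843 .nil) (.node 3 5 (.cons 0x9843567012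 .nil) (.leaf 0x9210765348 0 (.leaf 0x2107653489 2 (.node 0 5 (.cons 0x1234897650 .nil) (.node 0 2 .nil (.node 1 3 (.cons 0x8907654312 (.cons 0x6589702134 (.cons 0x9567843102 (.cons 0x6798413520 .nil)))) (.leaf 0x134876592 6 .done) .done) .done) .done))) .done) .done))) .done)) .done))) .done)) (.node 0 5 (.cons 0x9843210567 .nil) (.node 3 5 (.cons 0x9843567012 .nil) (.node 2 5 (.cons 0x4325678901 .nil) (.node 5 7 .nil (.node 4 6 (.cons 0x2346578901 .nil) (.leaf 0x3210987564 6 (.leaf 0x4321098576 3 (.leaf 0x5789012346 6 (.leaf 0x9012346758 9 .done)))) .done) .done) .done) (.node 2 5 (.cons 0x4325678901 .nil) (.node 3 5 (.cons 0x9843567012 .nil) (.node 5 7 .nil (.node 4 6 (.cons 0x2346578901 .nil) (.leaf 0x3210987564 6 (.leaf 0x4321098576 3 (.leaf 0x5789012346 6 (.leaf 0x9012346758 9 .done)))) .done) .done) (.node 3 5 (.cons 0x9843567012 .nil) (.node 5 7 .nil (.node 4 6 (.cons 0x2346578901 .nil) (.leaf 0x3210987564 6 (.leaf 0x4321098576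 3 (.leaf 0x5789012346 6 (.leaf 0x9012346758 9 .done)))) .done) .done) .done)) .done)) .done))) (.node 1 8 (.cons 0x7654321890 .nil) (.leaf 0x2345670981 0 (.node 0 8 .nil (.node 5 9 (.cons 0x7659801234 .nil) (.leaf 0x1234765980 5 (.leaf 0x3210895674 3 (.leaf 0x3210895674 0 (.leaf 0x3210895674 6 .done)))) (.node 0 6 (.cons 0x7609812345 .nil) (.node 5 9 (.cons 0x2345906781 .nil) (.node 3 7 (.cons 0x5673489012 .nil) (.leaf 0x5906732184 10 (.leaf 0x9548123760 9 (.leaf 0x7609548123 2 .done))) (.leaf 0x6095432187 9 (.node 0 5 .nil (.node 6 8 (.cons 0x2347689501 (.cons 0x5098674321 .nil)) (.leaf 0x3476895012 8 .done) .done) .done))) (.node 0 5 .nil (.node 6 8 (.cons 0x9867432105 (.cons 0x5098674321 .nil)) (.node 5 9 (.cons 0x5986743210 .nil) (.leaf 0x4321095867 0 (.leaf 0x4321095867 6 (.leaf 0x4321095867 9 .done))) .done) (.node 5 7 (.cons 0x6754321890 .nil) (.leaf 0x4321890675 7 (.node 2 5 (.cons 0x4325678901 .nil) (.node 4 9 (.cons 0x4981067523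 .nil) (.leaf 0x9810675234 2 (.leaf 0x6018943257 4 .done)) .done) .done)) .done)) .done)) .done)) (.node 0 8 .nil (.node 5 9 (.cons 0x7659801234 .nil) (.leaf 0x1234765980 5 (.leaf 0x3210895674 3 (.leaf 0x3210895674 0 (.leaf 0x3210895674 6 .done)))) (.node 2 8 (.cons 0x3456709821 .nil) (.node 2 5 (.cons 0x4325678901 .nil) (.node 3 9 (.cons 0x1289345670 .nil) (.node 4 9 (.cons 0x8765234901 .nil) (.node 3 6 (.cons 0x5476321890 .nil) (.leaf 0x1074936528 7 (.leaf 0x8109476325 3 (.leaf 0x5281074936 3 (.node 0 5 (.cons 0x6394705281 .nil) (.leaf 0x2189054763 10 (.leaf 0x2189054763 4 .done)) .done)))) .done) (.leaf 0x8210765439 7 (.leaf 0x4567012893 4 (.leaf 0x4876521093 6 .done)))) (.node 1 4 (.cons 0x5678901432 .nil) (.leaf 0x6789014325 5 (.leaf 0x6789014325 9 (.leaf 0x6789014325 0 .done))) .done)) (.node 3 8 .nil (.node 2 5 (.cons 0x4325678901 .nil) (.leaf 0x3890125674 9 (.leaf 0x3890125674 6 (.leaf 0x2109834765 3 .done))) (.node 6 8 .nil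 (.node 5 9 (.cons 0x4389567012 .nil) (.leaf 0x4321095867 0 (.leaf 0x4321095867 6 (.leaf 0x4321095867 9 .done))) .done) .done)) .done)) .done)) .done))) .done))) (.leaf 0x3210985674 3 (.leaf 0x3210985674 0 .done)))) .done)))
theorem sub_c9_11_0 : root 9 refs9_11 [] 0x700000008702000000002060000030060500000000501000000001040000000040300000000302000000002018030000010 0xfe7fff7bffb3ff9fffddffedffe7fff3fff9fef5 9 4 7 (.cons 0x8901234765 .nil) uc9_11_0 = true := by decide +kernel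
noncomputable def tc9_11_3 : T := (.node 4 9 (.cons 0x7658943210 .nil) (.leaf 0x3210765894 1 (.leaf 0x7012349856 4 (.node 4 7 (.cons 0x9856743210 .nil) (.node 2 5 (.cons 0x4325678901 .nil) (.node 3 8 (.cons 0x2567834901 .nil) (.node 3 5 (.cons 0x6538947012 .nil) (.node 2 6 (.cons 0x2653894701 .nil) (.leaf 0x8947012653 7 (.leaf 0x8947012653 8 (.node 2 7 (.cons 0x3498567210 .nil) (.node 1 6 (.cons 0x9832165470 .nil) (.leaf 0x8349016527 5 (.leaf 0x5612389074 6 (.leaf 0x8349016527 9 .done))) .done) .done))) .done) (.node 5 7 (.cons 0x8349012576 .nil) (.node 1 5 (.cons 0x6783490152 .nil) (.node 4 6 (.cons 0x5467098321 .nil) (.leaf 0x2389076451 7 (.node 6 9 (.cons 0x7694385210 .nil) (.leaf 0x1523896470 10 (.leaf 0x1074698325 4 .done)) .done)) .done) .done) (.leaf 0x943876521 1 .done))) (.node 1 9 (.cons 0x6523478910 .nil) (.node 6 8 (.cons 0x3219865470 .nil) (.node 3 9 (.cons 0x7439865210 .nil) (.leaf 0x1256893470 9 (.leaf 0x1256893470 0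 (.leaf 0x1256893470 3 .done))) (.node 0 5 (.cons 0x7432198650 .nil) (.leaf 0x2198650743 9 (.leaf 0x5689123470 3 (.leaf 0x2198650743 0 .done))) .done)) (.node 7 9 .nil (.node 0 6 (.cons 0x9874325601 (.cons 0x8543219760 (.cons 0x8974325601 .nil))) (.leaf 0x1897432560 4 .done) (.node 4 6 (.cons 0x3219854670 .nil) (.node 0 6 (.cons 0x1978523460 .nil) (.leaf 0x8523460197 9 (.leaf 0x6432587910 3 .done)) (.node 0 3 (.cons 0x1897465230 .nil) (.node 0 4 (.cons 0x3049765812 .nil) (.leaf 0x1856794032 8 (.leaf 0x1856794032 7 .done)) (.leaf 0x6479810325 9 (.leaf 0x4652301897 10 (.leaf 0x4652301897 4 .done)))) .done)) .done)) .done)) (.node 1 4 (.cons 0x5678901432 .nil) (.leaf 0x6789014325 9 (.leaf 0x6789014325 0 (.leaf 0x1098765234 3 .done))) .done))) (.node 5 7 .nil (.node 6 8 (.cons 0x7568901234 .nil) (.leaf 0x9012345768 6 (.node 0 6 (.cons 0x8906754321 .nil) (.node 7 9 (.cons 0x1234589760 .nil) (.node 0 4 (.cons 0x7985604321 (.cons 0x5897604321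 .nil)) (.node 1 9 (.cons 0x7658910432 (.cons 0x9106587432 (.cons 0x6758910432 .nil))) .done .done) .done) (.leaf 0x1067589432 6 (.leaf 0x8576012349 5 .done))) (.leaf 0x2347568901 7 .done))) (.node 1 5 .nil (.node 0 2 (.cons 0x6789023451 .nil) (.leaf 0x6789432015 5 (.leaf 0x8765102349 3 (.leaf 0x8765102349 6 .done))) (.node 2 8 (.cons 0x3490156782 .nil) (.leaf 0x5109432876 5 (.leaf 0x156782349 9 (.leaf 0x156782349 0 .done))) (.node 1 4 (.cons 0x5678901432 .nil) (.node 2 5 (.cons 0x9876523410 .nil) (.leaf 0x3256789014 6 (.leaf 0x6789014325 5 .done)) (.node 1 9 .nil (.node 0 2 (.cons 0x8765432091 (.cons 0x6547819023 .nil)) (.leaf 0x3476589102 6 (.node 2 5 (.cons 0x4325678901 (.cons 0x6785201943 .nil)) (.leaf 0x1098765234 3 .done) .done)) .done) .done)) .done))) .done)) (.leaf 0x1234765890 5 .done))) (.node 0 2 (.cons 0x7658943201 .nil) (.node 1 7 (.cons 0x2349856710 .nil) (.leaf 0x234985671 4 (.node 1 3 (.cons 0x4985670132 .nil) (.leaf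 0x8765490231 4 (.leaf 0x2094567813 7 (.node 1 9 (.cons 0x8765432091 .nil) (.node 6 8 (.cons 0x2345687190 .nil) (.leaf 0x8654320917 4 (.leaf 0x9132076854 0 .done)) (.leaf 0x4567819023 2 .done)) .done))) (.node 0 6 (.cons 0x9854321760 .nil) (.leaf 0x4321760985 6 (.leaf 0x4321760985 9 .done)) (.leaf 0x6589432017 7 .done)))) (.node 1 7 (.cons 0x2349856710 .nil) (.leaf 0x9432017658 8 (.leaf 0x3498567102 7 (.node 0 6 (.cons 0x9854321760 .nil) (.node 1 6 (.cons 0x7890234561 .nil) (.node 5 9 (.cons 0x6178954320 .nil) (.leaf 0x6178954320 1 (.leaf 0x2061789543 6 (.leaf 0x617895432 4 .done))) (.node 6 8 (.cons 0x5432176890 .nil) (.node 6 9 (.cons 0x9602345871 .nil) (.node 3 7 (.cons 0x4567321890 .nil) (.leaf 0x2069458173 7 (.leaf 0x1854960237 4 (.leaf 0x6120987345 6 .done))) .done) .done) .done)) (.leaf 0x4321760985 6 (.leaf 0x4321760985 9 .done))) (.node 2 5 (.cons 0x4325678901 .nil) (.node 5 7 .nil (.node 1 6 (.cons 0x7890234561 (.cons 0x9875610234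 .nil)) (.leaf 0x3498576102 7 .done) .done) (.node 1 4 (.cons 0x5678901432 .nil) (.leaf 0x6789014325 5 (.leaf 0x6789014325 9 (.leaf 0x6789014325 0 (.leaf 0x1098765234 3 .done)))) .done)) .done)))) (.node 5 7 (.cons 0x6758943201 .nil) (.node 1 5 (.cons 0x6789023451 .nil) (.node 2 5 (.cons 0x4325678901 .nil) (.node 1 4 (.cons 0x5678901432 .nil) (.leaf 0x6789014325 5 (.leaf 0x6789014325 9 (.leaf 0x1098765234 3 (.node 3 8 (.cons 0x4567098321 .nil) (.leaf 0x5670983214 6 (.leaf 0x5670983214 0 (.leaf 0x5670983214 3 .done))) .done)))) .done) (.node 1 6 (.cons 0x5432098761 .nil) (.leaf 0x987615432 4 (.leaf 0x987615432 10 .done)) .done)) (.node 4 7 (.cons 0x9856743210 .nil) (.node 3 5 (.cons 0x2356749810 .nil) (.node 2 4 (.cons 0x3249856701 .nil) (.leaf 0x6781094235 6 (.leaf 0x8109423567 1 .done)) (.node 6 8 (.cons 0x2356894701 .nil) (.leaf 0x9470123568 4 (.node 1 4 (.cons 0x9865321470 .nil) (.leaf 0x1235689074 3 (.leaf 0x8653214709 9 (.leaf 0x8653214709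 6 (.leaf 0x5689074123 5 .done)))) .done)) (.leaf 0x1894765320 7 .done))) (.node 3 9 (.cons 0x2394765810 .nil) (.leaf 0x2018567493 4 (.node 0 6 (.cons 0x9321854760 .nil) (.leaf 0x5812390674 0 (.node 0 4 (.cons 0x6704589321 .nil) (.node 1 6 (.cons 0x4589321670 .nil) (.leaf 0x5893216704 0 (.leaf 0x5893216704 6 .done)) .done) (.node 2 4 (.cons 0x6758934210 .nil) (.leaf 0x7589342106 6 (.leaf 0x4398576012 3 .done)) .done))) (.leaf 0x4765810239 7 .done))) (.leaf 0x1234765890 5 .done))) .done)) .done))) .done)))) (.node 4 7 (.cons 0x8901234765 .nil) (.leaf 0x9012347658 0 (.leaf 0x4321098567 3 (.node 4 8 .nil (.node 3 5 (.cons 0x6745321890 .nil) (.leaf 0x8901235674 6 (.leaf 0x8901235674 0 (.leaf 0x984765321 5 .done))) (.node 3 8 (.cons 0x4567098321 .nil) (.node 0 8 .nil (.node 5 9 (.cons 0x7659843210 .nil) (.leaf 0x3210895674 3 (.leaf 0x3210895674 0 (.leaf 0x3210895674 6 .done))) (.node 2 8 .nil (.node 1 5 (.cons 0x6709832154 (.cons 0x9015678234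 .nil)) (.leaf 0x3289015674 5 (.leaf 0x3289015674 0 .done)) (.node 6 8 .nil (.node 1 4 (.cons 0x5678901432 (.cons 0x9076832145 (.cons 0x7098654123 .nil))) (.leaf 0x5670983214 0 .done) .done) .done)) .done)) (.node 1 4 (.cons 0x5678901432 .nil) (.node 2 8 (.cons 0x9014328765 .nil) (.node 5 9 (.cons 0x7659843210 .nil) (.leaf 0x3410956782 4 (.leaf 0x3410956782 2 (.node 0 2 (.cons 0x7659843201 .nil) (.leaf 0x9023814765 6 (.node 2 4 (.cons 0x3248956701 .nil) .done .done)) .done))) .done) (.leaf 0x983214567 7 (.leaf 0x5670983214 3 .done))) .done)) (.node 0 8 .nil (.node 5 9 (.cons 0x7659801234 .nil) (.leaf 0x1234765980 5 (.leaf 0x3210895674 3 (.leaf 0x3210895674 0 (.leaf 0x3210895674 6 .done)))) (.node 3 8 (.cons 0x4567098321 .nil) (.node 4 9 (.cons 0x1238945670 .nil) (.node 3 7 (.cons 0x4567321890 .nil) (.node 6 8 (.cons 0x7321865490 .nil) (.leaf 0x9073218654 6 .done) (.node 0 4 (.cons 0x7654098123 .nil) (.leaf 0x1237654098 9 (.leaf 0x2189045673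 4 .done)) .done)) (.leaf 0x765498321 1 .done)) (.node 2 8 .nil (.node 1 5 (.cons 0x9015678234 .nil) (.leaf 0x3289015674 6 (.leaf 0x3289015674 5 (.leaf 0x3289015674 0 .done))) (.node 6 8 .nil (.node 5 9 (.cons 0x5986743210 .nil) (.node 0 5 (.cons 0x9054768123 (.cons 0x6743289501 .nil)) (.leaf 0x7432105986 9 .done) (.leaf 0x4321095867 0 (.leaf 0x4321095867 6 (.leaf 0x4321095867 9 .done)))) .done) .done)) .done)) .done)) .done))) (.leaf 0x1098567432 5 .done)))) (.node 6 8 .nil (.node 5 7 (.cons 0x7568901234 .nil) (.leaf 0x9012345768 6 (.leaf 0x9867543210 1 (.leaf 0x123457689 4 .done))) (.node 4 8 .nil (.node 1 5 (.cons 0x9015678432 .nil) (.node 1 6 (.cons 0x7098456123 .nil) (.node 0 8 (.cons 0x9087615432 .nil) (.node 2 9 (.cons 0x7809234561 (.cons 0x3290784561 (.cons 0x8761543290 .nil))) (.leaf 0x156784329 6 (.leaf 0x3487651092 6 .done)) .done) (.node 3 7 (.cons 0x4567321890 .nil) (.leaf 0x5489073216 5 (.leaf 0x5489073216 9 (.leaf 0x2109845673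 6 (.leaf 0x5489073216 0 .done)))) .done)) (.node 2 9 (.cons 0x4329876510 .nil) (.leaf 0x6784329015 0 (.leaf 0x6784329015 3 (.leaf 0x6784329015 5 (.node 7 9 (.cons 0x5679843210 .nil) (.leaf 0x1097658432 7 (.leaf 0x123485679 9 (.node 0 2 (.cons 0x9876510234 .nil) (.node 0 3 (.cons 0x9845123076 (.cons 0x4892307651 .nil)) (.leaf 0x2156798430 3 (.leaf 0x5679203481 6 .done)) (.leaf 0x6510234897 1 (.leaf 0x7984320156 4 .done))) .done))) .done)))) (.leaf 0x2348907651 6 .done))) (.node 1 6 (.cons 0x7098456123 .nil) (.node 0 8 .nil (.node 1 9 (.cons 0x7809165432 .nil) (.leaf 0x2345670891 6 (.node 0 2 (.cons 0x3458761902 .nil) (.leaf 0x7619023458 10 (.leaf 0x7619023458 4 (.leaf 0x6785432091 9 .done))) (.leaf 0x8076543219 6 .done))) (.node 3 8 (.cons 0x4567098321 .nil) (.node 2 8 .nil (.node 1 3 (.cons 0x9078456132 (.cons 0x9078231654 .nil)) (.leaf 0x9821345670 1 (.node 3 7 (.cons 0x4567321890 (.cons 0x9012856734 .nil)) (.leaf 0x2165489073 6 .done)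 .done)) .done) .done) .done)) (.node 3 7 (.cons 0x4567321890 .nil) (.leaf 0x5489073216 5 (.leaf 0x5489073216 9 (.leaf 0x7098456123 3 (.leaf 0x5489073216 0 .done)))) .done)) (.node 1 6 (.cons 0x5489076123 .nil) (.node 3 8 (.cons 0x4567098321 .nil) (.node 0 8 .nil (.node 7 9 (.cons 0x3458097612 (.cons 0x7908345612 .nil)) (.leaf 0x6543210897 6 (.leaf 0x976543218 10 .done)) .done) (.node 5 9 (.cons 0x5901678432 .nil) (.leaf 0x2167095483 9 (.leaf 0x6123845907 5 (.leaf 0x2167095483 0 .done))) .done)) (.node 3 5 (.cons 0x6709845321 .nil) (.leaf 0x7098453216 6 (.leaf 0x7098453216 9 (.leaf 0x7098453216 3 (.node 3 6 (.cons 0x5489076321 .nil) (.node 4 6 .nil (.node 5 7 (.cons 0x9018467532 .nil) (.leaf 0x3210987564 6 (.leaf 0x984675321 0 .done)) (.node 0 6 .nil (.node 1 7 (.cons 0x9067184532 (.cons 0x3458906712 .nil)) (.leaf 0x9845321760 5 (.leaf 0x4890671235 9 .done)) .done) .done)) (.node 3 8 (.cons 0x4567098321 .nil) (.node 0 8 .nil (.node 2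 7 (.cons 0x7216543890 (.cons 0x9083456127 .nil)) (.node 3 9 (.cons 0x4398567210 .nil) (.leaf 0x1270893456 7 .done) (.leaf 0x4389072165 4 (.leaf 0x983456127 1 .done))) .done) .done) .done)) .done)))) .done)) .done))) (.node 3 8 (.cons 0x4567098321 .nil) (.node 4 9 (.cons 0x1238945670 .nil) (.node 5 7 (.cons 0x6570123894 .nil) (.node 4 7 (.cons 0x3476589012 .nil) (.node 5 9 (.cons 0x1238659470 .nil) (.leaf 0x6832107495 4 (.node 2 6 (.cons 0x7495623810 .nil) (.leaf 0x5947018326 5 (.leaf 0x3265947018 6 (.node 3 9 (.cons 0x7493856210 .nil) (.leaf 0x4701265839 10 (.leaf 0x5839470126 7 .done)) .done))) .done)) (.leaf 0x3210985674 0 (.node 2 5 (.cons 0x9834765210 .nil) (.node 3 9 (.cons 0x1256839470 .nil) (.leaf 0x4701256839 7 (.node 2 8 (.cons 0x6528394701 .nil) (.leaf 0x4390182567 4 (.leaf 0x7439018256 6 .done)) (.node 0 4 (.cons 0x9381256740 .nil) (.leaf 0x1256740938 6 (.leaf 0x1256740938 9 (.leaf 0x1256740938 0 .done))) .done))) (.node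 1 3 (.cons 0x7431256890 .nil) (.leaf 0x9865213470 0 (.leaf 0x9865213470 5 (.leaf 0x9865213470 9 .done))) (.leaf 0x1256743890 6 .done))) .done))) (.node 4 8 (.cons 0x9483210756 .nil) (.node 0 8 (.cons 0x7568094321 .nil) (.node 2 8 (.cons 0x6578234901 .nil) .done .done) .done) .done)) (.node 4 8 .nil (.node 1 9 (.cons 0x3219845670 .nil) (.node 0 8 (.cons 0x7654321980 .nil) (.leaf 0x1238076549 5 (.leaf 0x4321908765 7 .done)) (.leaf 0x5483219076 7 (.leaf 0x8456709123 3 .done))) (.node 3 6 (.cons 0x7098456321 .nil) (.node 2 5 (.cons 0x1876325490 .nil) (.leaf 0x6349012587 8 (.leaf 0x7810945236 9 (.leaf 0x8763254901 10 (.leaf 0x8763254901 2 .done)))) (.node 1 7 (.cons 0x2365489071 .nil) (.leaf 0x5489071236 5 (.leaf 0x5489071236 9 (.leaf 0x7098456321 3 (.node 0 2 (.cons 0x9834567120 .nil) (.node 1 9 (.cons 0x8765432091 .nil) (.node 2 4 (.cons 0x2456389170 .nil) (.leaf 0x719836542 1 .done) .done) (.leaf 0x4567120983 9 (.leaf 0x4567120983 6 .done)))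 .done)))) .done)) .done)) (.leaf 0x1076549832 4 (.leaf 0x765498321 1 .done)))) (.node 0 8 .nil (.node 7 9 (.cons 0x1234567980 .nil) (.leaf 0x6543210897 6 (.leaf 0x8012345679 6 (.node 4 7 (.cons 0x6547098321 (.cons 0x9801234765 .nil)) (.node 2 6 (.cons 0x3812654790 (.cons 0x9743801265 (.cons 0x7908345621 (.cons 0x3809745621 .nil)))) .done (.leaf 0x3210985674 0 .done)) (.leaf 0x976543218 10 .done)))) (.node 4 8 .nil (.node 0 3 (.cons 0x9032184567 .nil) (.node 7 9 (.cons 0x5679843210 .nil) (.leaf 0x1097658432 7 (.leaf 0x123485679 9 (.leaf 0x6548123097 7 (.leaf 0x321845679 4 .done)))) (.node 1 9 (.cons 0x3219845670 .nil) (.leaf 0x7654891230 5 (.leaf 0x7654891230 0 (.leaf 0x7654891230 6 (.leaf 0x765483219 6 .done)))) .done)) (.node 2 8 .nil (.node 1 3 (.cons 0x7654312890 .nil) (.leaf 0x9076543128 6 (.leaf 0x9821345670 1 (.leaf 0x765431289 4 (.node 1 4 (.cons 0x5678901432 (.cons 0x9014328765 .nil)) (.node 6 9 (.cons 0x3287096541 .nil) (.leaf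 0x2870965413 4 (.leaf 0x8231456907 9 (.leaf 0x2870965413 2 (.leaf 0x2314569078 10 .done)))) (.leaf 0x5670983214 6 .done)) .done)))) .done) .done)) .done)) (.node 0 8 .nil (.node 7 9 (.cons 0x1234567980 .nil) (.leaf 0x6543210897 6 (.leaf 0x8012345679 6 (.node 4 7 (.cons 0x3476589012 (.cons 0x9801234765 .nil)) (.node 1 5 (.cons 0x6709832154 (.cons 0x6790834512 (.cons 0x3479086512 .nil))) (.leaf 0x1568097432 4 .done) (.leaf 0x3210985674 0 .done)) (.leaf 0x976543218 10 .done)))) (.node 4 8 .nil (.node 1 5 (.cons 0x6709832154 (.cons 0x9015678432 .nil)) (.node 3 9 (.cons 0x4893215670 .nil) (.leaf 0x2107654893 6 (.node 1 6 (.cons 0x2390784561 .nil) (.leaf 0x7093216548 2 (.node 2 5 (.cons 0x7612543890 (.cons 0x7843901652 .nil)) (.leaf 0x4389076125 4 (.leaf 0x8452167093 7 .done)) .done)) (.leaf 0x8456701239 6 .done))) (.leaf 0x2348907651 6 .done)) (.node 2 8 .nil (.node 1 3 (.cons 0x7654312890 .nil) (.leaf 0x9076543128 6 (.leaf 0x9821345670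 1 (.leaf 0x765431289 4 (.node 1 4 (.cons 0x5678901432 (.cons 0x9014328765 .nil)) (.leaf 0x7098231456 3 (.leaf 0x5670983214 0 .done)) .done)))) .done) .done)) .done)) .done))) .done))) .done)))
noncomputable def tc9_11_4 : T := (.node 5 9 (.cons 0x2345906781 .nil) (.leaf 0x3459067812 9 (.node 0 2 .nil (.node 1 9 (.cons 0x1987654320 .nil) (.leaf 0x3456781902 9 (.leaf 0x5432019876 4 (.leaf 0x4567819023 10 .done))) (.node 2 5 (.cons 0x4325678901 .nil) (.node 0 8 .nil (.node 4 7 (.cons 0x8901234765 (.cons 0x4765980123 (.cons 0x6745908123 (.cons 0x9801256743 .nil)))) (.leaf 0x3210895674 3 .done) (.node 5 8 (.cons 0x7658901234 .nil) (.node 4 8 (.cons 0x7609548123 .nil) (.node 0 5 (.cons 0x9843210567 .nil) (.node 0 3 (.cons 0x9845670321 .nil) (.node 0 4 (.cons 0x9876523401 .nil) .done .done) .done) .done) .done) .done)) (.node 4 6 (.cons 0x5467098123 .nil) (.leaf 0x6781095234 2 (.node 1 6 (.cons 0x7890234561 .nil) (.node 1 7 (.cons 0x9871654320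 .nil) (.leaf 0x6543209871 3 (.node 1 9 (.cons 0x7891654320 .nil) (.leaf 0x5619870234 7 .done) .done)) (.node 1 7 (.cons 0x6543209871 .nil) (.leaf 0x2345617890 10 (.leaf 0x234561789 9 (.leaf 0x2098716543 2 .done))) .done)) (.leaf 0x1095234678 9 .done))) .done)) (.node 2 9 (.cons 0x5432906781 .nil) (.node 1 5 (.cons 0x6789023451 .nil) (.node 1 9 (.cons 0x6789154320 .nil) (.leaf 0x2345198760 4 .done) (.leaf 0x3451876092 7 (.node 1 9 .nil (.node 5 8 (.cons 0x7658901234 (.cons 0x7856019234 .nil)) (.leaf 0x7609123458 2 .done) (.node 1 4 (.cons 0x5678901432 .nil) (.node 0 5 (.cons 0x9876501432 .nil) (.leaf 0x5014329876 4 (.leaf 0x1432987650 8 .done)) (.node 2 4 (.cons 0x3245906781 .nil) (.node 0 3 (.cons 0x9542306781 .nil) (.leaf 0x8195423067 6 (.leaf 0x1954230678 4 .done)) .done) .done)) .done)) (.leaf 0x8154329067 10 .done)))) (.node 1 5 (.cons 0x6789023451 .nil) (.leaf 0x1876092345 2 (.leaf 0x678154329 4 (.leaf 0x923451876 10 (.node 1 6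 (.cons 0x5432098761 .nil) (.leaf 0x987615432 4 (.node 1 9 .nil (.node 0 5 (.cons 0x9187605432 .nil) (.leaf 0x678192345 2 (.leaf 0x8192345067 9 (.leaf 0x1876054329 10 .done))) (.node 2 6 (.cons 0x7819062345 .nil) (.node 0 3 (.cons 0x9876203451 .nil) (.node 1 4 (.cons 0x7892651430 .nil) (.leaf 0x3078914562 4 (.leaf 0x8926514307 0 .done)) (.leaf 0x5430267891 7 .done)) .done) .done)) .done)) .done)))) .done)) .done))) (.leaf 0x6095432187 9 (.node 0 2 .nil (.node 1 9 (.cons 0x1987654320 .nil) (.leaf 0x3456781902 9 (.leaf 0x5432019876 4 (.leaf 0x4320918765 4 (.leaf 0x4567819023 10 .done)))) (.node 0 8 .nil (.node 1 9 (.cons 0x7654321980 .nil) (.leaf 0x2345670891 6 (.node 2 7 (.cons 0x8723456091 (.cons 0x4327659801 (.cons 0x6723459081 .nil))) (.node 1 6 (.cons 0x7890234561 (.cons 0x1672345980 .nil)) (.leaf 0x895432761 1 (.leaf 0x4598016723 4 .done)) (.leaf 0x8190654327 4 .done)) (.leaf 0x5678091234 7 (.leaf 0x8076543219 6 .done)))) (.node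 0 5 .nil (.node 1 6 (.cons 0x7890234561 .nil) (.node 2 9 (.cons 0x5432906781 (.cons 0x1678923450 .nil)) (.leaf 0x6789234501 5 (.leaf 0x8167054329 8 .done)) (.leaf 0x5098761234 8 (.node 1 7 (.cons 0x6543209871 .nil) (.leaf 0x2345617890 4 (.leaf 0x234561789 6 .done)) .done))) .done) .done)) (.node 1 7 (.cons 0x8176095432 .nil) (.node 4 8 (.cons 0x2348956710 .nil) (.node 0 5 (.cons 0x9843210567 .nil) (.node 7 9 (.cons 0x5679843210 .nil) (.node 5 8 (.cons 0x2348597601 .nil) (.leaf 0x2106795843 0 (.leaf 0x1067958432 2 .done)) (.leaf 0x1234897650 6 (.leaf 0x1234897650 3 .done))) (.node 5 7 (.cons 0x6754321890 .nil) (.node 0 8 (.cons 0x9081234576 .nil) (.node 7 9 (.cons 0x5679843210 .nil) (.leaf 0x8432105679 9 (.leaf 0x5432179806 9 (.leaf 0x4897650123 7 .done))) .done) .done) .done)) (.node 2 7 (.cons 0x6598432710 .nil) (.node 0 8 (.cons 0x6723459081 .nil) (.node 3 6 (.cons 0x9845632170 .nil) (.leaf 0x4598021763 6 (.leaf 0x5489071236 5 (.leaf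 0x7120895436 6 .done))) .done) (.leaf 0x3489560172 9 .done)) (.leaf 0x9567102348 6 .done))) (.node 0 8 (.cons 0x6718095432 .nil) (.node 2 6 (.cons 0x8176234590 .nil) (.leaf 0x9543267180 2 (.leaf 0x5908176234 9 (.leaf 0x9543267180 10 .done))) (.node 5 7 (.cons 0x6754321890 .nil) (.node 4 8 (.cons 0x6759843201 .nil) (.node 2 9 (.cons 0x8432956710 .nil) (.leaf 0x1765923480 10 (.leaf 0x5760184329 0 (.leaf 0x1765923480 2 .done))) (.node 2 7 (.cons 0x9572348106 .nil) (.node 1 6 (.cons 0x9572348160 .nil) (.leaf 0x7165908432 10 (.leaf 0x1023489576 1 (.leaf 0x4895761023 4 .done))) .done) .done)) (.node 1 3 (.cons 0x8902134576 .nil) (.node 1 4 (.cons 0x5678901432 .nil) (.node 1 5 (.cons 0x6789023451 .nil) (.node 1 6 (.cons 0x5432098761 .nil) (.leaf 0x2098761543 3 .done) .done) (.node 3 8 (.cons 0x6754389021 .nil) (.leaf 0x5670983214 6 (.leaf 0x5670983214 3 .done)) .done)) (.node 0 3 (.cons 0x6754309812 .nil) (.node 2 6 (.cons 0x8176234590 .nil)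 (.node 1 6 (.cons 0x9875431620 .nil) (.leaf 0x5789026134 5 (.leaf 0x8754316209 6 .done)) (.leaf 0x981267543 1 (.leaf 0x3098126754 4 .done))) .done) .done)) .done)) .done)) (.node 3 8 (.cons 0x2176543890 .nil) (.leaf 0x4567120983 6 (.node 2 9 (.cons 0x2906543871 .nil) (.leaf 0x3456092178 3 (.leaf 0x3456092178 0 (.leaf 0x3456092178 6 .done))) (.leaf 0x9021765438 6 .done))) .done))) .done))) .done)))) (.node 0 8 .nil (.node 1 9 (.cons 0x7654321980 .nil) (.leaf 0x2345670891 6 (.node 1 4 (.cons 0x5678901432 (.cons 0x9807654123 .nil)) (.node 1 3 (.cons 0x9087654132 .nil) (.node 2 4 (.cons 0x6542319870 .nil) (.leaf 0x987654231 3 (.leaf 0x8901324567 7 (.leaf 0x789132456 3 .done))) (.node 2 4 (.cons 0x6542319870 .nil) (.leaf 0x5670891324 6 (.leaf 0x8706542319 7 (.leaf 0x789132456 3 .done))) .done)) (.node 3 8 (.cons 0x4567098321 .nil) (.leaf 0x7654123890 5 (.leaf 0x5670983214 6 (.leaf 0x5670983214 3 .done))) .done)) (.leaf 0x5678091234 7 (.leaf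 0x8076543219 6 .done)))) (.node 3 8 (.cons 0x4567098321 .nil) (.node 4 9 (.cons 0x1238945670 .nil) (.node 1 3 (.cons 0x7065498312 .nil) (.node 2 9 (.cons 0x2945607831 .nil) (.leaf 0x783129456 10 (.leaf 0x9456078312 2 (.leaf 0x6078312945 9 .done))) (.node 2 7 (.cons 0x3894560721 .nil) (.leaf 0x5607213894 8 (.node 5 8 (.cons 0x6587234901 .nil) (.node 3 9 (.cons 0x8394560721 .nil) (.leaf 0x1276093458 3 (.leaf 0x1276093458 0 (.leaf 0x8127065493 0 .done))) (.node 4 8 (.cons 0x9012765843 .nil) .done .done)) (.node 5 8 (.cons 0x3458906721 .nil) (.leaf 0x9067213458 9 (.leaf 0x4589067213 10 .done)) (.leaf 0x2706549831 4 .done)))) .done)) (.node 0 5 (.cons 0x6705498321 .nil) (.node 1 6 (.cons 0x5498321670 .nil) (.leaf 0x7612389450 10 (.node 7 9 (.cons 0x9760543812 .nil) (.leaf 0x1238079456 6 (.node 2 9 (.cons 0x7809234561 .nil) (.node 1 7 (.cons 0x7129834560 .nil) (.leaf 0x4560712983 1 (.leaf 0x7165432908 0 .done)) (.leaf 0x5067921834 1 .done))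 .done)) (.leaf 0x2389450761 9 .done))) (.node 1 6 (.cons 0x5498321670 .nil) (.leaf 0x9450761238 7 (.node 7 9 (.cons 0x8167905432 .nil) (.leaf 0x1238079456 6 (.node 4 8 (.cons 0x5097618432 .nil) (.node 2 5 (.cons 0x4325678901 .nil) (.leaf 0x1679052348 5 (.leaf 0x1679052348 0 (.leaf 0x1679052348 6 (.node 0 3 (.cons 0x5216794830 .nil) (.leaf 0x3849761250 3 (.leaf 0x6794830521 9 .done)) .done)))) .done) .done)) (.leaf 0x5498321670 3 .done))) .done)) (.leaf 0x1076549832 4 (.leaf 0x765498321 1 .done)))) (.node 1 4 (.cons 0x5678901432 .nil) (.node 4 8 .nil (.node 3 9 (.cons 0x8932145670 (.cons 0x5670148932 .nil)) (.leaf 0x2390765481 10 (.leaf 0x9321456708 0 .done)) (.node 4 7 (.cons 0x8901234765 .nil) (.node 4 6 (.cons 0x5467098123 .nil) (.node 0 4 (.cons 0x9832140765 .nil) (.node 1 7 .nil (.node 0 2 (.cons 0x6543209871 .nil) (.leaf 0x4320981765 7 (.leaf 0x1765438902 5 .done)) (.node 0 2 (.cons 0x8902176543 .nil) (.leaf 0x1765438902 5 .done)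 .done)) .done) .done) (.node 5 8 (.cons 0x7658901234 .nil) (.leaf 0x1234765890 5 (.leaf 0x3210985674 3 .done)) .done)) .done)) (.node 2 8 (.cons 0x9014328765 .nil) (.node 2 5 (.cons 0x4325678901 .nil) (.node 5 9 (.cons 0x9567823410 .nil) (.leaf 0x8234109567 0 (.node 4 6 (.cons 0x5467098123 .nil) (.leaf 0x6781095234 2 (.leaf 0x1095234678 9 .done)) (.node 0 2 (.cons 0x2095678341 .nil) (.leaf 0x7834120956 4 .done) (.leaf 0x2341095678 2 .done)))) (.node 6 8 (.cons 0x9014325687 .nil) (.node 5 8 (.cons 0x9076583214 .nil) (.node 4 8 .nil (.node 1 7 (.cons 0x7125609834 .nil) (.leaf 0x3489017652 5 (.leaf 0x1098432567 3 .done)) .done) .done) .done) (.leaf 0x6789014325 9 .done))) (.node 5 8 (.cons 0x9076583214 .nil) (.node 4 9 (.cons 0x7658943210 .nil) (.leaf 0x3210765894 1 (.leaf 0x7012349856 4 (.leaf 0x8567094123 4 (.leaf 0x3856709412 6 .done)))) (.node 4 8 .nil (.node 3 9 (.cons 0x1456782390 .nil) (.leaf 0x2390765481 10 (.leaf 0x9328765410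 0 (.leaf 0x8456701239 6 .done))) (.node 3 9 (.cons 0x1239845670 .nil) (.node 3 7 (.cons 0x2873906541 .nil) (.leaf 0x6541287390 5 (.leaf 0x4560937821 3 (.leaf 0x4560937821 6 .done))) (.leaf 0x9328765410 0 (.leaf 0x8456701239 6 .done))) .done)) .done)) .done)) (.leaf 0x983214567 7 (.leaf 0x5670983214 3 .done)))) .done)) .done)) (.node 5 7 (.cons 0x6754321890 .nil) (.leaf 0x4321890675 7 (.node 0 8 (.cons 0x9081234576 .nil) (.node 6 9 (.cons 0x8123457690 .nil) (.leaf 0x1234576908 7 (.node 3 8 (.cons 0x2183457690 .nil) (.node 0 2 (.cons 0x9675438120 .nil) (.node 1 9 (.cons 0x8765432091 .nil) (.node 1 3 (.cons 0x4569138702 .nil) (.node 2 4 (.cons 0x2438756910 .nil) (.leaf 0x7569102438 0 (.leaf 0x783196542 1 (.leaf 0x9138702456 6 .done))) .done) (.leaf 0x4320918765 4 .done)) (.leaf 0x9675438120 3 .done)) (.node 0 2 (.cons 0x8120967543 .nil) (.leaf 0x1209675438 6 (.leaf 0x9675438120 5 .done)) .done)) (.leaf 0x1234576908 8 .done))) (.node 0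 5 .nil (.node 6 9 (.cons 0x8123457690 .nil) (.leaf 0x9675432180 4 (.leaf 0x6905432187 0 (.node 1 4 (.cons 0x5678901432 (.cons 0x9876501432 (.cons 0x5096781432 (.cons 0x6905781432 .nil)))) (.node 3 8 (.cons 0x4567098321 (.cons 0x7650983412 .nil)) (.leaf 0x7654123890 5 (.leaf 0x5670983214 6 .done)) .done) .done))) (.node 2 5 (.cons 0x4325678901 .nil) (.node 5 8 (.cons 0x7658901234 .nil) (.node 1 5 (.cons 0x7609815432 .nil) (.node 3 5 (.cons 0x6709812354 .nil) (.node 5 9 (.cons 0x7601895234 .nil) .done .done) .done) .done) (.node 1 4 (.cons 0x5678901432 .nil) (.leaf 0x6789014325 5 (.leaf 0x6789014325 9 (.leaf 0x6789014325 0 (.node 3 8 (.cons 0x4567098321 .nil) (.leaf 0x7654123890 5 (.leaf 0x5670983214 6 (.leaf 0x5670983214 3 .done))) .done)))) .done)) .done)) .done)) (.leaf 0x6098123457 4 .done))) .done)))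
noncomputable def tc9_11_5 : T := (.node 2 5 (.cons 0x9876523410 .nil) (.node 5 8 (.cons 0x7658901234 .nil) (.node 2 8 .nil (.node 5 9 (.cons 0x4123895670 (.cons 0x7659823410 .nil)) (.leaf 0x3287659014 5 (.leaf 0x3287659014 0 .done)) (.node 0 8 (.cons 0x9807654123 .nil) (.node 4 8 .nil (.node 1 5 (.cons 0x9015678432 .nil) (.node 2 4 (.cons 0x9083421567 .nil) (.leaf 0x983421567 1 .done) (.leaf 0x6709843215 6 .done)) .done) .done) .done)) (.node 0 8 (.cons 0x9807654123 .nil) (.node 4 8 .nil (.node 1 9 (.cons 0x4325678910 .nil) (.leaf 0x2190765483 6 (.node 3 7 (.cons 0x4376589012 (.cons 0x8456732190 .nil)) (.leaf 0x7321908456 4 (.leaf 0x2109845673 6 .done)) (.leaf 0x6709123845 5 .done))) .done) .done) .done)) (.leaf 0x3256789014 6 (.node 6 9 (.cons 0x7896523410 .nil) (.node 1 6 (.cons 0x7890165234 .nil) (.node 0 2 (.cons 0x9023456187 .nil) (.node 1 9 (.cons 0x8765432091 .nil) (.leaf 0x5432091876 3 (.leaf 0x5432091876 9 .done)) (.node 1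 5 (.cons 0x6789023451 .nil) (.leaf 0x2098761543 9 (.leaf 0x987615432 10 .done)) .done)) (.node 1 9 .nil (.node 0 2 (.cons 0x8765432091 .nil) (.leaf 0x3456781902 5 (.leaf 0x9023456781 6 .done)) (.node 2 9 (.cons 0x5678923410 .nil) (.node 0 5 (.cons 0x1432987650 .nil) (.leaf 0x5678923410 1 (.node 1 7 (.cons 0x4389056712 .nil) (.node 0 8 (.cons 0x9807654123 .nil) (.node 1 3 (.cons 0x6908713254 .nil) .done .done) .done) (.leaf 0x9234105678 4 .done))) .done) .done)) .done)) (.leaf 0x8701432569 10 (.leaf 0x5234107896 9 (.leaf 0x2569870143 7 .done)))) (.leaf 0x6789014325 5 .done)))) (.node 5 8 (.cons 0x9076583214 .nil) (.node 4 9 (.cons 0x7658943210 .nil) (.leaf 0x3210765894 1 (.leaf 0x7012349856 4 (.leaf 0x8567094123 4 (.leaf 0x3856709412 6 .done)))) (.node 4 7 (.cons 0x4765890123 .nil) (.node 3 6 (.cons 0x9812365470 .nil) (.node 6 8 .nil (.node 3 9 (.cons 0x4765893210 (.cons 0x1239865470 (.cons 0x7685412390 .nil))) (.leaf 0x8654701239 9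 .done) (.node 0 8 (.cons 0x9801234765 .nil) (.node 4 8 .nil (.node 3 7 (.cons 0x9085412376 (.cons 0x9012376584 .nil)) (.leaf 0x2109845673 6 .done) .done) .done) .done)) (.leaf 0x5632189074 6 (.node 2 9 (.cons 0x1892365470 .nil) (.leaf 0x3654701892 9 (.leaf 0x8923654701 10 (.leaf 0x6329810745 7 (.node 4 6 (.cons 0x5641870923 .nil) (.node 0 6 (.cons 0x7814329065 .nil) (.node 7 9 (.cons 0x4123856790 .nil) (.leaf 0x3456097812 9 (.leaf 0x3456097812 3 .done)) .done) .done) .done)))) .done))) (.leaf 0x3210985674 3 (.node 2 5 (.cons 0x1256743890 .nil) (.leaf 0x6743890125 8 (.node 4 9 (.cons 0x7658321490 .nil) (.leaf 0x3214907658 8 (.leaf 0x943256781 6 (.node 4 6 (.cons 0x7094652381 .nil) (.node 3 9 (.cons 0x9381256470 .nil) (.leaf 0x2564709381 9 (.leaf 0x5218390746 2 .done)) .done) .done))) (.node 3 6 (.cons 0x2563478901 .nil) (.leaf 0x5214709836 7 (.node 2 9 (.cons 0x3856741290 .nil) (.leaf 0x8709236541 8 (.node 0 2 (.cons 0x5674389021 .nil)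 (.node 1 9 (.cons 0x8765432091 .nil) (.leaf 0x5432091876 3 (.leaf 0x5432091876 9 .done)) (.node 1 3 (.cons 0x8765413290 .nil) (.leaf 0x6745890213 2 (.leaf 0x9854763120 0 .done)) .done)) (.leaf 0x8743652901 3 .done))) (.leaf 0x8907412563 4 .done))) .done))) .done))) (.node 0 8 .nil (.node 7 9 (.cons 0x2143856790 (.cons 0x5679083412 .nil)) (.leaf 0x8012345679 6 (.leaf 0x3218097654 7 .done)) (.node 4 8 .nil (.node 3 9 (.cons 0x6541870932 .nil) (.leaf 0x5841239076 4 (.leaf 0x6709321485 1 (.leaf 0x8456701239 6 .done))) (.node 4 7 (.cons 0x3476589012 .nil) (.leaf 0x3210985674 0 (.node 4 9 (.cons 0x3856709412 .nil) (.node 2 8 (.cons 0x9014328765 .nil) (.node 3 9 (.cons 0x1239845670 .nil) (.leaf 0x9328765410 0 (.leaf 0x8456701239 6 .done)) .done) (.leaf 0x1490765832 6 (.leaf 0x6709412385 5 .done))) .done)) .done)) .done)) .done))) (.node 1 9 .nil (.node 0 8 (.cons 0x7654321980 .nil) (.leaf 0x2345670891 6 (.leaf 0x4321908765 7 (.leaf 0x8912345670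 1 .done))) (.node 3 6 (.cons 0x7098123654 .nil) (.node 5 8 (.cons 0x9854123670 .nil) (.node 4 8 .nil (.node 1 5 (.cons 0x9015678432 .nil) (.node 2 4 (.cons 0x4238765190 (.cons 0x9870156324 .nil)) (.leaf 0x7098324156 6 .done) (.leaf 0x4890763215 9 .done)) (.node 4 9 (.cons 0x7658943210 .nil) (.leaf 0x3210765894 1 (.node 1 3 (.cons 0x4985670132 .nil) (.node 2 5 (.cons 0x4325678901 .nil) (.node 0 8 (.cons 0x9145236780 .nil) (.leaf 0x5236780914 7 .done) (.leaf 0x948312567 6 (.leaf 0x1098765234 3 .done))) .done) .done)) .done)) (.leaf 0x2145890763 8 (.leaf 0x8541236709 4 .done))) (.node 4 7 (.cons 0x2365478190 .nil) (.leaf 0x5632189074 6 (.node 5 8 (.cons 0x4765832190 .nil) (.node 0 2 (.cons 0x9145876320 .nil) (.leaf 0x7854190236 6 (.leaf 0x8541902367 4 (.leaf 0x9187456320 8 .done))) (.node 4 9 (.cons 0x1238567490 .nil) (.node 2 4 (.cons 0x7856324901 .nil) (.node 5 9 (.cons 0x9587632410 .nil) (.leaf 0x3678590142 2 (.leaf 0x6324109587 9 .done))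 .done) (.leaf 0x945632187 6 (.leaf 0x5674901238 8 .done))) (.leaf 0x6709854123 1 .done))) (.node 2 5 (.cons 0x8763254190 .nil) (.leaf 0x6743890125 8 (.node 0 6 (.cons 0x8760914523 .nil) (.leaf 0x1906783254 7 (.leaf 0x9145238760 9 .done)) (.node 6 9 (.cons 0x8709632541 .nil) (.leaf 0x781452369 9 (.leaf 0x3690781452 10 (.leaf 0x7096325418 7 .done))) (.leaf 0x2567438901 4 .done)))) .done))) (.node 0 6 .nil (.node 5 7 (.cons 0x9814570632 (.cons 0x5760983412 .nil)) (.leaf 0x9832145760 6 (.leaf 0x7609832145 1 .done)) (.node 7 9 (.cons 0x2345609781 .nil) (.leaf 0x3456097812 9 (.leaf 0x3456097812 3 (.leaf 0x3456097812 6 .done))) (.node 0 8 .nil (.node 2 5 (.cons 0x4325678901 (.cons 0x7632541980 (.cons 0x6780914523 .nil))) (.leaf 0x4198076325 10 (.leaf 0x1098765234 3 .done)) (.node 6 9 .nil (.node 5 7 (.cons 0x5760983412 (.cons 0x2369814570 (.cons 0x8096754321 .nil))) (.leaf 0x1809675432 4 .done) (.node 2 8 .nil (.node 1 3 (.cons 0x4567823190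 .nil) (.leaf 0x7098231456 5 (.leaf 0x7098231456 6 .done)) (.node 5 9 (.cons 0x1459823670 .nil) (.leaf 0x7632895410 0 (.leaf 0x7632895410 9 (.leaf 0x7632895410 6 .done))) (.node 5 7 (.cons 0x1457632890 .nil) (.leaf 0x9823675410 3 (.leaf 0x9823675410 0 (.leaf 0x9823675410 9 .done))) .done))) .done)) .done)) .done))) .done))) (.node 0 8 .nil (.node 7 9 (.cons 0x1234567980 .nil) (.leaf 0x6543210897 6 (.leaf 0x8012345679 6 (.leaf 0x3218097654 7 .done))) (.node 0 2 .nil (.node 1 3 (.cons 0x8765431902 .nil) (.leaf 0x9876541320 5 (.leaf 0x7890231456 9 .done)) (.node 2 5 (.cons 0x4325678901 .nil) (.leaf 0x1438765209 0 (.node 2 4 (.cons 0x5678342091 .nil) (.node 0 3 (.cons 0x5678910342 .nil) (.leaf 0x5421983076 0 (.leaf 0x4301987652 6 .done)) .done) (.leaf 0x1098765234 3 .done))) (.node 1 7 (.cons 0x6543209871 .nil) (.node 1 6 (.cons 0x9871654320 .nil) (.node 1 3 .nil (.node 2 4 (.cons 0x9078165423 (.cons 0x6542078913 (.cons 0x9078132456 .nil)))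 .done .done) (.leaf 0x2345617890 10 .done)) (.node 1 6 (.cons 0x7890234561 .nil) (.leaf 0x6543209871 3 (.leaf 0x234561789 9 .done)) .done)) .done))) (.node 4 8 .nil (.node 0 3 (.cons 0x9845670321 .nil) (.leaf 0x8456703219 0 (.leaf 0x765489123 3 (.leaf 0x8456703219 5 (.leaf 0x8456703219 9 (.node 1 7 (.cons 0x6548907123 .nil) (.leaf 0x9845671230 6 (.leaf 0x9845671230 3 (.leaf 0x9845671230 0 .done))) .done))))) (.node 5 8 (.cons 0x6709854123 .nil) (.node 0 3 (.cons 0x9845670321 .nil) (.leaf 0x765489123 3 (.leaf 0x8456703219 5 (.leaf 0x8456703219 9 (.node 0 6 (.cons 0x7609854123 .nil) (.node 3 6 (.cons 0x7632145890 .nil) (.leaf 0x2145890763 8 .done) .done) .done)))) .done) .done)) .done))) .done))) (.leaf 0x5670983214 3 .done))))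
noncomputable def uc9_11_1 : T := (.leaf 0x2345670981 6 (.node 3 8 (.cons 0x4567098321 .nil) (.node 4 9 (.cons 0x1238945670 .nil) (.node 5 8 (.cons 0x7658901234 .nil) (.node 0 6 (.cons 0x7065498321 .nil) (.node 7 9 (.cons 0x2345609781 .nil) (.leaf 0x3456097812 9 (.leaf 0x3456097812 3 (.leaf 0x3456097812 6 .done))) (.node 1 3 (.cons 0x7065498312 .nil) (.node 2 9 (.cons 0x2945607831 .nil) (.leaf 0x783129456 10 (.leaf 0x9456078312 2 (.leaf 0x6078312945 9 .done))) (.node 2 7 (.cons 0x3894560721 .nil) (.node 2 5 (.cons 0x3498725601 .nil) (.leaf 0x4987256013 10 (.leaf 0x4987256013 4 .done)) (.leaf 0x1276098543 6 (.leaf 0x6098543127 5 (.node 3 7 (.cons 0x4589067312 .nil) (.leaf 0x6098127345 7 .done) .done)))) .done)) (.node 3 6 (.cons 0x7098123654 .nil) (.node 1 7 (.cons 0x6549832170 .nil) (.leaf 0x5498321706 8 (.leaf 0x5498321706 7 (.node 1 3 (.cons 0x4589067132 .nil) .done (.node 0 2 (.cons 0x9834567120 .nil) (.node 1 9 (.cons 0x8765432091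 .nil) (.leaf 0x5432091876 3 (.leaf 0x5432091876 6 .done)) (.leaf 0x4567120983 9 (.leaf 0x4567120983 6 .done))) .done)))) (.node 4 7 (.cons 0x4765890123 .nil) (.leaf 0x2189074563 5 (.leaf 0x2189074563 9 (.leaf 0x3210985674 3 (.leaf 0x7098123654 3 .done)))) .done)) .done))) (.node 5 7 (.cons 0x6570123894 .nil) (.node 0 8 .nil (.node 1 9 (.cons 0x6754321980 .nil) (.leaf 0x2345670891 6 (.leaf 0x832194567 2 (.leaf 0x8076543219 6 .done))) (.node 4 8 .nil (.node 3 7 (.cons 0x4376589012 (.cons 0x9073218456 .nil)) (.leaf 0x2109845673 6 (.node 7 9 (.cons 0x5679843210 .nil) (.leaf 0x1097658432 7 (.leaf 0x123485679 9 (.node 0 5 (.cons 0x4389765012 (.cons 0x6509734812 .nil)) (.leaf 0x1234897650 6 (.leaf 0x6798432105 6 .done)) .done))) .done)) .done) .done)) (.node 4 8 (.cons 0x9483210756 .nil) (.node 0 8 .nil (.node 1 9 (.cons 0x8091234576 (.cons 0x6754809123 .nil)) (.leaf 0x2345670891 6 (.leaf 0x8076543219 6 .done)) .done) .done) .done)) .done))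 (.node 1 4 (.cons 0x9832145670 .nil) (.node 4 7 (.cons 0x6547098123 .nil) (.node 2 4 .nil (.node 1 3 (.cons 0x9078132456 .nil) (.leaf 0x987654231 3 (.leaf 0x7654213890 6 .done)) (.node 2 5 (.cons 0x9876523410 .nil) (.node 3 6 (.cons 0x7098123654 .nil) (.node 1 6 (.cons 0x5234987610 .nil) (.leaf 0x3254907816 10 (.leaf 0x8709452361 9 .done)) (.node 5 7 (.cons 0x6325701894 .nil) (.node 1 7 (.cons 0x6325498170 .nil) (.node 2 7 (.cons 0x9814563270 .nil) (.leaf 0x7236541890 4 .done) .done) .done) (.leaf 0x2189074563 9 .done))) (.leaf 0x3256789014 6 (.leaf 0x6789014325 5 .done))) .done)) (.node 4 8 .nil (.node 3 5 (.cons 0x9841076532 .nil) (.leaf 0x7653214890 7 (.node 2 9 (.cons 0x5674389210 (.cons 0x9210748356 (.cons 0x9235678410 .nil))) (.leaf 0x7653849210 6 .done) (.leaf 0x2109847653 3 .done))) .done) .done)) (.node 4 8 .nil (.node 3 9 (.cons 0x6541870932 (.cons 0x8412390765 .nil)) (.node 2 6 (.cons 0x8709326541 (.cons 0x7841093265 (.cons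 0x5623907841 .nil))) (.leaf 0x5418709326 7 (.leaf 0x3907814562 4 .done)) (.leaf 0x8456701239 6 .done)) (.node 4 7 (.cons 0x6547098123 .nil) (.node 3 6 (.cons 0x9812365470 .nil) (.leaf 0x5632189074 6 (.node 2 9 (.cons 0x1892365470 .nil) (.leaf 0x3654701892 9 (.leaf 0x6329810745 7 (.node 4 6 (.cons 0x5641870923 .nil) .done .done))) (.leaf 0x2189074563 5 .done))) .done) .done)) (.leaf 0x7654123890 5 .done))) (.leaf 0x1076549832 4 (.leaf 0x765498321 1 .done)))) (.node 0 8 .nil (.node 7 9 (.cons 0x1234567980 .nil) (.leaf 0x6543210897 6 (.leaf 0x8012345679 6 (.node 1 3 (.cons 0x2134567980 (.cons 0x8097654312 .nil)) (.node 2 4 (.cons 0x5679801243 (.cons 0x9078132456 .nil)) (.leaf 0x987654231 3 (.leaf 0x8901324567 7 (.leaf 0x3189076542 6 .done))) .done) (.leaf 0x3218097654 7 .done)))) (.node 4 8 .nil (.node 1 5 (.cons 0x6709832154 (.cons 0x9015678432 .nil)) (.node 2 9 (.cons 0x4329876510 .nil) (.leaf 0x6784329015 0 (.leaf 0x6784329015 3 (.leaf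 0x6784329015 5 (.node 3 9 (.cons 0x1239845670 .nil) (.leaf 0x2107654893 6 (.leaf 0x6512934807 2 (.leaf 0x8456701239 6 .done))) .done)))) (.node 1 9 (.cons 0x3219845670 .nil) (.leaf 0x7091238456 7 (.node 0 3 (.cons 0x6784519032 .nil) (.node 5 8 (.cons 0x6703219854 .nil) .done (.leaf 0x2198456703 6 (.leaf 0x7654891230 6 .done))) (.leaf 0x765483219 9 .done))) (.leaf 0x6709843215 6 .done))) (.node 5 8 (.cons 0x7658901234 .nil) (.node 2 8 .nil (.node 1 3 (.cons 0x9082134567 .nil) (.leaf 0x9076543128 6 (.leaf 0x9821345670 1 .done)) (.node 6 8 .nil (.node 1 4 (.cons 0x5678901432 (.cons 0x9076832145 .nil)) (.node 3 9 (.cons 0x1239845670 .nil) (.leaf 0x4123907685 8 (.leaf 0x8456701239 6 (.leaf 0x9321458670 4 .done))) (.leaf 0x5670983214 0 .done)) .done) .done)) .done) .done)) .done)) (.node 1 4 (.cons 0x5678901432 .nil) tc9_11_5 .done))) (.node 0 6 (.cons 0x7609812345 .nil) tc9_11_4 (.node 5 8 (.cons 0x7658901234 .nil) tc9_11_3 (.leaf 0x9076543218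 6 .done)))))
theorem sub_c9_11_1 : root 9 refs9_11 [] 0x700000008702000000002060000040060500000000501000000001040000000040300000000302000000002018040000010 0xfe7fff7bffabff9fffddffedffe7fff3fff9feed 9 1 8 (.cons 0x7654321890 .nil) uc9_11_1 = true := by decide +kernel
noncomputable def tc9_11_6 : T := (.node 0 8 (.cons 0x9807612345 .nil) (.node 0 3 (.cons 0x9854307612 .nil) (.node 2 9 (.cons 0x3458921670 .nil) (.leaf 0x345892167 4 (.leaf 0x7612985430 1 (.node 3 7 (.cons 0x3745612980 .nil) (.leaf 0x2165473089 6 (.leaf 0x6129803745 5 .done)) (.node 1 8 (.cons 0x7654321890 .nil) (.node 4 8 (.cons 0x7658430921 .nil) (.node 7 9 (.cons 0x5679843210 .nil) (.leaf 0x3485679210 0 .done) .done) (.leaf 0x3092185674 2 .done)) .done)))) (.node 0 4 .nil (.node 2 9 (.cons 0x3458921670 (.cons 0x7892340165 (.cons 0x5892167043 .nil))) (.node 3 5 (.cons 0x1678923540 .nil) (.leaf 0x8921670435 6 (.leaf 0x6789235401 3 (.leaf 0x6789235401 9 (.leaf 0x6789235401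 0 .done)))) (.leaf 0x761298543 1 .done)) (.node 0 2 .nil (.node 1 3 (.cons 0x6709854312 .nil) (.leaf 0x3120985674 4 (.leaf 0x2098765431 1 (.leaf 0x7890213456 4 .done))) (.node 0 5 .nil (.node 1 4 (.cons 0x3209876541 (.cons 0x9876145023 .nil)) (.node 1 3 (.cons 0x4567890231 (.cons 0x9876132054 .nil)) (.leaf 0x8902314567 4 .done) .done) .done) .done)) .done)) .done)) (.node 1 8 (.cons 0x7654321890 .nil) (.node 1 3 (.cons 0x6709854312 .nil) (.node 6 8 (.cons 0x9076854312 .nil) (.node 2 6 (.cons 0x3458907621 .nil) (.node 1 4 (.cons 0x9087654132 .nil) (.node 5 9 (.cons 0x8954321670 .nil) (.leaf 0x4590876231 6 (.leaf 0x4109587623 1 (.leaf 0x6590187432 6 .done))) .done) (.leaf 0x7098543126 7 .done)) .done) (.node 1 4 (.cons 0x5678901432 .nil) (.node 1 5 .nil (.node 2 6 (.cons 0x7621345890 (.cons 0x9087623154 (.cons 0x4513267890 .nil))) (.leaf 0x8901562347 9 .done) (.node 1 7 .nil (.node 0 2 (.cons 0x6789023154 (.cons 0x9871654320 .nil)) (.leaf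 0x3456718902 5 .done) .done) .done)) .done) .done)) (.node 1 3 (.cons 0x6709854312 .nil) (.node 1 4 (.cons 0x9087654132 .nil) (.node 6 8 (.cons 0x9076854312 .nil) (.node 2 9 (.cons 0x3458921670 .nil) (.leaf 0x3129076854 9 (.node 2 6 (.cons 0x1345876290 .nil) (.leaf 0x8762901345 7 (.leaf 0x7098543126 7 .done)) (.leaf 0x7092134586 9 (.leaf 0x8092314567 7 .done)))) .done) .done) (.node 1 4 (.cons 0x5678901432 .nil) (.node 1 5 .nil (.node 0 2 (.cons 0x9023451876 (.cons 0x9870234516 .nil)) (.leaf 0x9876154320 1 .done) (.node 1 7 .nil (.node 0 2 (.cons 0x9871654320 .nil) (.leaf 0x4320981765 7 (.leaf 0x3456718902 9 .done)) .done) .done)) .done) .done)) .done)) .done)) (.leaf 0x1670985432 4 (.leaf 0x7098543216 8 (.node 3 7 (.cons 0x4376589012 .nil) (.node 3 8 (.cons 0x5674389012 .nil) (.node 0 8 .nil (.node 2 5 (.cons 0x4325678901 (.cons 0x9807612543 (.cons 0x9807345216 .nil))) (.leaf 0x5210983476 4 (.leaf 0x1670983452 6 .done)) (.node 1 8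 (.cons 0x7654321890 .nil) (.leaf 0x4321890765 5 (.node 1 3 (.cons 0x6709854312 .nil) (.node 1 7 .nil (.node 0 2 (.cons 0x6543209871 .nil) (.leaf 0x9834567120 6 (.leaf 0x1765438902 6 .done)) (.node 0 3 (.cons 0x8903217654 .nil) (.node 4 8 (.cons 0x3217654890 .nil) (.leaf 0x7654890321 5 .done) .done) .done)) .done) .done)) .done)) (.node 2 5 (.cons 0x7612543890 .nil) (.leaf 0x8347652109 4 (.leaf 0x2109834765 1 (.leaf 0x4389076125 10 (.leaf 0x1670983452 9 .done)))) (.node 2 5 (.cons 0x1256743890 .nil) (.leaf 0x6743890125 8 (.leaf 0x2167098345 3 (.leaf 0x9076125438 9 (.leaf 0x2567438901 4 .done)))) .done))) (.node 2 4 (.cons 0x7658901243 .nil) (.leaf 0x3765890124 4 (.node 7 9 (.cons 0x8567901243 .nil) (.node 3 8 (.cons 0x5674389012 .nil) (.node 5 9 (.cons 0x9583421076 .nil) (.node 0 2 (.cons 0x4201659783 .nil) (.leaf 0x2016597834 4 (.node 0 8 (.cons 0x6597421083 .nil) (.node 4 8 (.cons 0x6548097321 .nil) (.leaf 0x973216548 5 .done) .done)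 .done)) (.node 6 9 (.cons 0x2438596701 .nil) (.leaf 0x2438596701 2 .done) .done)) (.leaf 0x4210976583 2 (.leaf 0x7901243856 0 (.node 2 5 (.cons 0x1256743890 .nil) (.leaf 0x6743890125 8 (.leaf 0x9076125438 9 (.leaf 0x2567438901 4 .done))) .done)))) (.node 0 3 (.cons 0x8567903421 .nil) (.node 1 8 (.cons 0x3421856790 .nil) (.leaf 0x4321890765 5 (.node 0 2 (.cons 0x5618790243 .nil) (.node 3 5 (.cons 0x2435618790 .nil) (.leaf 0x9781653420 3 (.leaf 0x9781653420 6 .done)) .done) (.leaf 0x2430976581 9 (.leaf 0x5679034218 10 .done)))) (.node 1 8 (.cons 0x3421856790 .nil) (.leaf 0x9765812430 2 (.leaf 0x9765812430 10 (.leaf 0x7903421856 9 (.node 0 4 (.cons 0x7654098123 .nil) (.leaf 0x9812376540 4 .done) .done)))) .done)) .done)) (.leaf 0x1098567342 7 (.node 5 7 (.cons 0x6758901243 .nil) (.node 1 7 .nil (.node 0 2 (.cons 0x6543209871 .nil) (.leaf 0x987165432 1 (.leaf 0x7165432098 6 (.node 0 6 (.cons 0x9857601243 .nil) (.leaf 0x5432178906 5 (.leaf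 0x9854321760 10 .done)) .done))) (.node 4 8 (.cons 0x3217654890 .nil) (.node 0 3 (.cons 0x9845671230 .nil) (.leaf 0x5671230984 6 (.leaf 0x7654890321 5 .done)) (.node 6 9 (.cons 0x7569843210 .nil) (.leaf 0x1234896570 9 (.leaf 0x1234896570 0 (.leaf 0x1234896570 3 .done))) .done)) .done)) (.node 3 6 (.cons 0x4210985763 .nil) (.node 7 9 (.cons 0x5897634210 .nil) (.node 0 5 (.cons 0x1243679850 .nil) (.leaf 0x1243679850 3 (.node 2 9 (.cons 0x1298543670 .nil) (.leaf 0x4365012987 8 (.leaf 0x543612987 7 .done)) (.node 0 3 (.cons 0x9857630124 .nil) (.node 6 8 (.cons 0x7542168903 .nil) (.leaf 0x5421689037 2 (.leaf 0x5421689037 4 .done)) .done) .done))) .done) (.leaf 0x985763421 8 (.leaf 0x8901243675 7 .done))) .done)) .done)))) (.node 7 9 .nil (.node 4 8 (.cons 0x5679843210 .nil) (.leaf 0x1097658432 7 (.leaf 0x1097658432 8 (.node 0 8 (.cons 0x1234567980 .nil) (.leaf 0x6543210897 6 (.leaf 0x5432108976 4 (.node 1 4 (.cons 0x2143765890 (.cons 0x3214567980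 (.cons 0x8097654123 .nil))) (.node 1 8 (.cons 0x7654321890 .nil) (.leaf 0x4321890765 5 .done) .done) .done))) .done))) (.node 3 8 (.cons 0x5674389012 .nil) (.node 2 9 (.cons 0x5674389210 .nil) (.node 0 5 (.cons 0x9834765012 .nil) (.leaf 0x543892167 4 (.node 4 6 (.cons 0x6450798321 .nil) (.leaf 0x4507983216 3 (.leaf 0x8970546123 0 (.leaf 0x1056479832 1 .done))) (.node 4 6 (.cons 0x1298374650 .nil) (.leaf 0x6129837054 2 (.leaf 0x8921645073 4 (.leaf 0x9837054612 9 .done))) (.leaf 0x6743892105 0 .done)))) (.node 0 5 (.cons 0x7612983450 .nil) (.leaf 0x7612983450 1 (.node 4 6 (.cons 0x6450798321 .nil) (.leaf 0x4507983216 3 (.leaf 0x8970546123 0 (.leaf 0x1056479832 1 .done))) (.leaf 0x8921670543 6 (.leaf 0x9834765012 3 .done)))) (.node 0 5 (.cons 0x1298347650 .nil) (.leaf 0x5674389210 3 (.leaf 0x8347650129 5 (.leaf 0x8347650129 6 (.leaf 0x761298345 1 .done)))) .done))) (.node 2 7 (.cons 0x7216543890 .nil) (.node 2 5 (.cons 0x4325678901 .nil)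 (.leaf 0x5210983476 4 (.node 4 6 (.cons 0x6437098521 .nil) (.leaf 0x9073461258 4 (.leaf 0x4370985216 2 (.node 3 9 (.cons 0x4398567210 .nil) (.node 0 4 (.cons 0x3897216540 .nil) (.leaf 0x1276589340 8 (.leaf 0x4012765893 4 .done)) (.leaf 0x8527016439 0 .done)) .done))) (.leaf 0x1670983452 6 .done))) (.leaf 0x3456127098 7 .done)) (.node 2 5 (.cons 0x7612543890 .nil) (.leaf 0x8347652109 4 (.leaf 0x2109834765 1 (.leaf 0x4389076125 10 (.leaf 0x1670983452 9 .done)))) .done))) .done)) .done))) .done))))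
noncomputable def tc9_11_7 : T := (.node 2 5 (.cons 0x4325678901 .nil) (.node 1 4 (.cons 0x5678901432 .nil) (.leaf 0x3256789014 6 (.node 5 7 (.cons 0x6578901432 .nil) (.node 1 5 .nil (.node 2 6 (.cons 0x4109875623 .nil) (.leaf 0x3267890154 6 (.leaf 0x9876234510 5 (.node 4 8 (.cons 0x9015234876 (.cons 0x5126709843 .nil)) (.leaf 0x9843215670 6 .done) .done))) (.node 1 7 .nil (.node 0 4 (.cons 0x9856710432 .nil) (.leaf 0x6712340985 6 (.leaf 0x1765890432 5 .done)) (.node 3 7 .nil (.node 2 6 (.cons 0x4109875623 (.cons 0x1456237890 (.cons 0x2651437890 .nil))) (.leaf 0x6237890145 0 .done) (.node 2 7 .nil (.node 0 4 (.cons 0x8904376512 (.cons 0x9856721043 (.cons 0x9856723401 .nil))) .done .done) .done)) .done)) .done)) (.node 1 5 .nil (.node 2 6 (.cons 0x3410987562 .nil) (.leaf 0x3267890154 6 (.leaf 0x9876234510 5 (.leaf 0x8901432657 7 .done))) (.node 1 7 .nil (.node 0 4 (.cons 0x9856710432 .nil) (.leaf 0x6712340985 6 (.leaf 0x1765890432 5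 .done)) (.node 3 7 .nil (.node 2 6 (.cons 0x3410987562 (.cons 0x1456237890 (.cons 0x4156237890 .nil))) (.leaf 0x6237890145 0 .done) (.node 7 9 (.cons 0x8790143256 .nil) (.node 2 7 .nil (.node 0 4 (.cons 0x6589732140 (.cons 0x9856721043 (.cons 0x9856723401 .nil))) .done .done) .done) .done)) .done)) .done)) .done)) (.node 0 2 .nil (.node 1 3 (.cons 0x4567890231 .nil) (.leaf 0x9876541320 5 (.leaf 0x7890231456 9 (.leaf 0x7890231456 6 (.leaf 0x2098765431 1 .done)))) (.node 2 4 .nil (.node 3 5 (.cons 0x4235678901 .nil) (.leaf 0x6789012435 6 (.leaf 0x4210987653 6 (.leaf 0x9014235678 7 .done))) (.node 4 6 .nil (.node 1 5 (.cons 0x7890156432 (.cons 0x8907645123 .nil)) (.leaf 0x7643215890 6 (.leaf 0x7643215890 5 .done)) (.node 3 9 (.cons 0x5893467012 .nil) (.leaf 0x1076439852 9 (.leaf 0x1076439852 6 (.leaf 0x1076439852 3 (.leaf 0x1076439852 0 .done)))) (.node 1 9 (.cons 0x5891076432 .nil) (.leaf 0x3467019852 9 (.leaf 0x3467019852 0 (.leaf 0x1076432589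 3 .done))) .done))) .done)) (.node 1 3 (.cons 0x4567890231 .nil) (.leaf 0x7890231456 9 (.leaf 0x7890231456 6 (.leaf 0x3209876541 3 .done))) .done))) (.leaf 0x987652341 6 .done)))) (.node 1 6 (.cons 0x9854321670 .nil) (.leaf 0x5234789016 5 (.node 4 8 (.cons 0x9016523487 .nil) (.node 5 7 (.cons 0x9016578432 .nil) (.node 3 8 (.cons 0x9075483216 .nil) (.node 6 9 (.cons 0x1234589670 .nil) (.leaf 0x1238457096 7 (.leaf 0x2109657483 1 (.leaf 0x3847569012 4 (.leaf 0x2384756901 6 .done)))) (.node 6 9 (.cons 0x1234589670 .nil) (.leaf 0x2169075483 9 (.leaf 0x7096123845 9 (.leaf 0x4756901238 8 (.node 1 8 (.cons 0x1874325690 .nil) (.leaf 0x8743256901 3 (.leaf 0x5234781096 9 (.leaf 0x5234781096 6 .done))) .done)))) .done)) (.node 7 9 (.cons 0x5610978432 .nil) (.leaf 0x6109784325 8 (.node 2 9 (.cons 0x3487561092 .nil) (.leaf 0x6109234875 1 (.node 3 7 (.cons 0x1654873290 .nil) (.leaf 0x8732901654 10 .done) .done)) .done)) .done)) (.node 7 9 (.cons 0x8790165234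 .nil) (.leaf 0x165234879 7 (.node 2 4 (.cons 0x8790165243 .nil) (.node 1 4 (.cons 0x5678901432 .nil) (.node 4 9 (.cons 0x7658943210 .nil) (.node 5 7 (.cons 0x6578901432 .nil) (.node 5 9 (.cons 0x5901678432 .nil) .done .done) .done) (.leaf 0x987652341 5 .done)) .done) (.node 1 4 (.cons 0x5678901432 .nil) (.node 6 9 (.cons 0x7896523410 .nil) (.node 0 3 (.cons 0x4589670321 .nil) (.leaf 0x2307698541 6 (.node 2 4 (.cons 0x9658742301 .nil) .done (.leaf 0x7698541230 5 .done))) (.leaf 0x4107896523 7 (.leaf 0x5234107896 3 .done))) (.node 0 2 (.cons 0x9785614320 .nil) (.leaf 0x6143209785 4 (.leaf 0x1658790234 9 .done)) (.leaf 0x987652341 5 .done))) .done))) (.node 3 7 (.cons 0x5673489012 .nil) (.leaf 0x1098437652 6 (.leaf 0x1098437652 0 .done)) .done))) (.leaf 0x165234789 6 (.node 3 8 (.cons 0x5438907612 .nil) (.node 6 8 (.cons 0x7098612543 .nil) (.node 3 9 (.cons 0x4786523901 .nil) (.leaf 0x4521683907 6 (.node 2 8 (.cons 0x3907452861 .nil) (.leaf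 0x1093478256 9 (.leaf 0x165287439 4 .done)) (.leaf 0x4709386125 1 .done))) (.node 6 9 (.cons 0x1234589670 .nil) (.node 1 4 (.cons 0x3214589670 .nil) (.node 0 3 (.cons 0x4589670321 .nil) (.leaf 0x2307698541 6 (.leaf 0x7698541230 5 .done)) (.node 3 5 (.cons 0x9685321470 .nil) (.leaf 0x7412358690 4 (.leaf 0x4709685321 9 .done)) (.leaf 0x7410965238 6 .done))) (.node 2 9 (.cons 0x3458921670 .nil) (.leaf 0x4701692583 6 (.leaf 0x9610743852 3 (.leaf 0x4701692583 9 .done))) .done)) .done)) (.leaf 0x4389076125 10 (.leaf 0x9076125438 9 .done))) .done)))) (.node 1 4 (.cons 0x5678901432 .nil) (.leaf 0x6789014325 5 (.leaf 0x6789014325 0 (.leaf 0x1098765234 3 (.node 5 7 .nil (.node 2 6 (.cons 0x4326578901 .nil) (.leaf 0x987562341 5 (.leaf 0x987562341 0 (.leaf 0x987562341 6 (.leaf 0x987562341 3 .done)))) (.node 4 8 .nil (.node 5 9 (.cons 0x7659843210 .nil) (.leaf 0x1234895670 5 (.leaf 0x123487659 6 (.leaf 0x1234895670 0 .done))) (.node 0 4 .nil (.node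 1 7 (.cons 0x8904567123 .nil) (.leaf 0x6712340985 6 (.node 3 7 (.cons 0x6573489012 (.cons 0x8904125673 .nil)) .done .done)) (.node 4 9 (.cons 0x7658943210 .nil) (.node 4 6 .nil (.node 1 3 (.cons 0x9467852310 (.cons 0x7890132564 (.cons 0x1325467890 .nil))) (.leaf 0x132564789 6 (.leaf 0x2564789013 5 .done)) (.node 2 4 .nil (.node 1 3 (.cons 0x6578901342 .nil) (.leaf 0x987654231 3 (.leaf 0x6789013425 5 (.leaf 0x7654231098 7 (.leaf 0x1098765243 3 .done)))) .done) .done)) .done) .done)) (.node 4 9 (.cons 0x7658943210 .nil) (.node 0 4 .nil (.node 1 9 (.cons 0x6704589123 .nil) (.leaf 0x8765234019 5 (.leaf 0x198765234 6 .done)) (.node 1 7 (.cons 0x9856710432 .nil) (.node 2 9 (.cons 0x7658923401 .nil) (.leaf 0x432985671 8 (.leaf 0x9234017658 4 .done)) (.node 0 3 (.cons 0x8903217654 .nil) (.leaf 0x2176548903 5 (.leaf 0x9032176548 6 .done)) .done)) .done)) (.node 4 6 (.cons 0x3258946701 .nil) (.node 3 6 (.cons 0x4985236701 .nil) (.leaf 0x125763489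 7 (.node 1 7 (.cons 0x2349856710 .nil) (.node 0 2 (.cons 0x7658943201 .nil) (.leaf 0x234985671 4 (.leaf 0x9432017658 8 .done)) (.leaf 0x984523671 1 .done)) (.leaf 0x4985236701 2 .done))) .done) .done)) .done))) .done)) .done)))) .done))) (.leaf 0x4321098567 3 (.node 1 6 (.cons 0x4589076123 .nil) (.node 0 8 (.cons 0x9807612345 .nil) (.node 1 8 (.cons 0x7654321890 .nil) (.node 1 4 (.cons 0x5678901432 .nil) (.node 1 3 .nil (.node 0 2 (.cons 0x4567890231 .nil) (.leaf 0x9876541320 9 (.leaf 0x1345678902 3 .done)) (.node 3 6 (.cons 0x4589076321 .nil) (.leaf 0x7098541236 3 (.node 0 3 (.cons 0x9032185476 .nil) (.node 0 4 (.cons 0x9854076123 .nil) (.node 3 7 (.cons 0x7365890412 .nil) (.node 3 8 (.cons 0x9012385674 .nil) .done .done) .done) .done) .done)) .done)) (.node 2 5 (.cons 0x4325678901 .nil) (.leaf 0x987652341 0 (.leaf 0x987652341 6 (.leaf 0x987652341 5 .done))) .done)) (.node 0 3 (.cons 0x7654309812 .nil) (.node 2 9 (.cons 0x2903456781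 .nil) (.leaf 0x6543092187 3 (.leaf 0x6543092187 0 (.leaf 0x6543092187 9 (.leaf 0x6543092187 6 .done)))) (.node 2 7 (.cons 0x3456721890 .nil) (.node 5 7 (.cons 0x9807543216 .nil) (.node 0 4 (.cons 0x9854076123 .nil) (.node 4 6 (.cons 0x9801275643 .nil) (.node 1 7 (.cons 0x9801723465 .nil) (.node 2 4 (.cons 0x9854230761 .nil) (.leaf 0x1890324567 4 (.leaf 0x7189032456 6 .done)) .done) .done) .done) .done) (.leaf 0x981276543 1 (.leaf 0x3098127654 4 .done))) .done)) .done)) (.node 6 8 .nil (.node 5 7 (.cons 0x9861234570 .nil) (.leaf 0x9012345768 6 (.leaf 0x9867543210 1 (.leaf 0x1098657432 7 .done))) (.node 1 8 (.cons 0x7654321890 .nil) (.node 5 9 (.cons 0x8954321670 .nil) (.leaf 0x4321865907 8 (.node 2 6 (.cons 0x3478109562 .nil) (.leaf 0x8109562347 8 (.node 6 9 (.cons 0x5690187432 .nil) (.node 3 6 (.cons 0x4589076321 .nil) (.leaf 0x8547096321 7 .done) .done) .done)) (.leaf 0x4321865907 7 .done))) (.node 1 4 (.cons 0x5678901432 .nil) (.node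 3 6 (.cons 0x4589076321 .nil) (.node 0 4 (.cons 0x9854076123 .nil) (.node 1 3 (.cons 0x9854076132 .nil) .done .done) (.leaf 0x7098541236 3 .done)) (.node 2 5 (.cons 0x4325678901 .nil) (.leaf 0x987652341 0 (.leaf 0x987652341 6 (.leaf 0x987652341 5 .done))) .done)) .done)) .done)) .done)) (.leaf 0x2167098543 6 (.node 0 8 .nil (.node 3 9 (.cons 0x2390874561 (.cons 0x6745809321 (.cons 0x4765809321 .nil))) (.leaf 0x2167458093 6 (.leaf 0x854761239 6 .done)) (.node 1 8 (.cons 0x7654321890 .nil) (.leaf 0x4321890765 5 (.node 3 8 (.cons 0x9012385674 .nil) (.node 7 9 (.cons 0x9745612380 .nil) (.leaf 0x2165479083 6 (.leaf 0x2165479083 3 (.leaf 0x2165479083 5 .done))) (.node 3 7 .nil (.node 4 6 (.cons 0x9807321645 .nil) (.leaf 0x2109854673 6 (.leaf 0x1098564732 7 (.leaf 0x985467321 1 .done))) (.node 5 7 (.cons 0x6754321890 .nil) (.node 1 7 .nil (.node 0 6 (.cons 0x3457609812 (.cons 0x9806543712 .nil)) (.leaf 0x5432178906 5 (.leaf 0x6098123457 4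 .done)) .done) .done) .done)) .done)) (.node 0 3 (.cons 0x7654309812 .nil) (.node 2 9 (.cons 0x3290874561 .nil) (.leaf 0x6543092187 3 (.leaf 0x6543092187 0 (.leaf 0x6543092187 9 (.leaf 0x6543092187 6 .done)))) (.node 2 7 (.cons 0x3456721890 .nil) (.node 1 7 (.cons 0x9803271654 .nil) .done (.leaf 0x981276543 1 (.leaf 0x3098127654 4 .done))) .done)) .done))) (.node 1 8 (.cons 0x7654321890 .nil) (.leaf 0x4321890765 5 (.node 4 8 (.cons 0x5489076123 .nil) (.node 5 9 (.cons 0x7659843210 .nil) (.node 6 8 (.cons 0x2347865901 .nil) (.leaf 0x956874321 1 .done) (.leaf 0x1234895670 6 (.leaf 0x1234895670 0 .done))) (.node 1 4 (.cons 0x5678901432 .nil) (.node 2 5 (.cons 0x9876523410 .nil) (.node 3 9 (.cons 0x6708934521 .nil) (.leaf 0x7089345216 1 (.leaf 0x6125439807 4 (.leaf 0x6521089347 7 (.leaf 0x2567439801 8 .done)))) (.leaf 0x3256789014 6 (.node 6 9 (.cons 0x7896523410 .nil) (.leaf 0x4107896523 7 (.leaf 0x5234107896 3 (.leaf 0x5234781096 0 .done)))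 .done))) (.node 2 5 (.cons 0x4325678901 .nil) (.leaf 0x987652341 0 (.leaf 0x987652341 6 (.leaf 0x987652341 5 .done))) .done)) .done)) (.node 0 6 (.cons 0x9067458123 .nil) (.node 5 9 (.cons 0x2345906781 .nil) (.leaf 0x3459067812 9 (.leaf 0x6095432187 9 (.node 0 5 .nil (.node 6 9 (.cons 0x3218547690 (.cons 0x4769058123 .nil)) (.leaf 0x6905432187 0 .done) (.node 0 3 (.cons 0x8167459032 .nil) (.node 0 4 .nil (.node 1 7 (.cons 0x8176095432 (.cons 0x8956710432 .nil)) (.leaf 0x6589043217 6 .done) .done) .done) .done)) .done))) (.node 5 7 (.cons 0x6754321890 .nil) (.leaf 0x4321890675 7 (.leaf 0x6098123457 4 .done)) .done)) .done))) .done))) (.leaf 0x7098543216 5 .done)))) (.node 1 6 (.cons 0x3458907612 .nil) (.node 0 8 (.cons 0x9807612345 .nil) (.node 1 8 (.cons 0x7654321890 .nil) (.node 4 8 .nil (.node 5 9 (.cons 0x8954321670 (.cons 0x8476590123 .nil)) (.leaf 0x123487659 6 (.leaf 0x1234895670 0 .done)) (.node 5 9 (.cons 0x7659843210 .nil)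 (.node 0 2 (.cons 0x7895610234 .nil) (.node 1 9 (.cons 0x8765432091 .nil) (.leaf 0x8432019567 6 (.leaf 0x8432019567 9 .done)) (.leaf 0x1659874320 5 .done)) (.leaf 0x1234895670 9 (.leaf 0x1234895670 0 .done))) .done)) (.node 6 8 .nil (.node 5 9 (.cons 0x8954321670 (.cons 0x2347865901 (.cons 0x9547086123 .nil))) (.leaf 0x3476859012 2 .done) (.node 1 7 .nil (.node 2 9 (.cons 0x3458921670 (.cons 0x6580921743 .nil)) (.leaf 0x3456170892 9 (.leaf 0x1780923456 1 (.leaf 0x5617809234 6 .done))) (.node 7 9 (.cons 0x5680974321 .nil) (.node 3 6 (.cons 0x8097456321 .nil) (.leaf 0x2365479081 10 (.leaf 0x5479081236 9 .done)) (.node 1 5 (.cons 0x8097432156 .nil) (.leaf 0x5123479086 4 (.leaf 0x2347908651 8 .done)) .done)) .done)) .done)) .done)) (.node 6 8 .nil (.node 1 7 (.cons 0x7123456890 .nil) (.node 0 6 (.cons 0x2345609871 .nil) (.leaf 0x5432178906 5 (.leaf 0x9065432178 6 (.leaf 0x9854321760 10 .done))) (.leaf 0x5689071234 4 (.leaf 0x4568907123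 6 .done))) (.node 1 8 (.cons 0x7654321890 .nil) (.node 5 9 (.cons 0x8954321670 .nil) (.leaf 0x4321865907 8 (.node 1 5 .nil (.node 2 6 (.cons 0x3458907621 (.cons 0x9078154326 .nil)) (.leaf 0x9876234510 5 .done) (.node 4 8 (.cons 0x9015678432 .nil) (.leaf 0x8670951234 1 (.leaf 0x9512348670 4 .done)) .done)) (.leaf 0x4321865907 7 .done))) (.node 1 3 (.cons 0x6709854312 .nil) (.node 3 6 (.cons 0x9081236745 .nil) (.node 0 3 (.cons 0x9854307612 .nil) (.node 3 5 (.cons 0x9807612354 .nil) (.node 3 8 .nil (.node 2 5 (.cons 0x4325678901 .nil) (.leaf 0x2543890761 4 (.leaf 0x1098347652 9 (.leaf 0x125674389 7 .done))) .done) .done) .done) .done) (.node 2 6 (.cons 0x3458907621 .nil) (.leaf 0x4589076213 7 (.node 1 4 (.cons 0x5678901432 .nil) (.node 2 5 (.cons 0x4325678901 .nil) (.leaf 0x987652341 0 (.leaf 0x987652341 6 (.leaf 0x987652341 5 .done))) .done) .done)) .done)) .done)) .done)) .done)) (.leaf 0x1670985432 4 (.leaf 0x7098543216 8 (.node 3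 7 (.cons 0x4376589012 .nil) (.node 5 7 .nil (.node 6 8 (.cons 0x6890754321 .nil) (.leaf 0x9012345768 6 (.leaf 0x7543210986 6 (.leaf 0x4570986123 3 (.leaf 0x2347568901 7 .done)))) (.node 1 7 .nil (.node 0 2 (.cons 0x6543209871 .nil) (.leaf 0x987165432 1 (.leaf 0x7165432098 6 (.node 0 6 (.cons 0x2345609871 .nil) (.node 1 4 (.cons 0x9873206541 (.cons 0x8906754123 .nil)) (.node 3 9 (.cons 0x1456789320 (.cons 0x6541789320 (.cons 0x8932145760 .nil))) (.leaf 0x2065417893 6 (.leaf 0x1206739854 2 .done)) .done) (.leaf 0x5432178906 5 (.leaf 0x9854321760 10 .done))) .done))) .done) .done)) (.node 5 7 .nil (.node 6 8 (.cons 0x6890754321 .nil) (.leaf 0x9012345768 6 (.leaf 0x7543210986 6 (.leaf 0x4570986123 3 (.leaf 0x2347568901 7 .done)))) (.node 2 7 .nil (.node 3 8 (.cons 0x5438907612 (.cons 0x7216543890 .nil)) (.leaf 0x4567210983 0 (.node 2 5 (.cons 0x7612543890 .nil) (.leaf 0x6125438907 7 (.leaf 0x1098345276 0 (.leaf 0x1670983452 9 .done))) .done))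 (.node 1 7 .nil (.node 0 2 (.cons 0x4376589021 (.cons 0x6543209871 .nil)) (.leaf 0x7165432098 6 .done) .done) .done)) (.node 2 7 .nil (.node 3 8 (.cons 0x5438907612 (.cons 0x7216543890 .nil)) (.leaf 0x4567210983 0 (.node 6 9 (.cons 0x5834769012 .nil) (.leaf 0x4721096583 3 (.leaf 0x4721096583 9 (.leaf 0x2743856901 5 .done))) .done)) (.node 1 7 .nil (.node 0 2 (.cons 0x4376589021 (.cons 0x6543209871 .nil)) (.leaf 0x7165432098 6 (.node 0 6 (.cons 0x2345609871 .nil) (.node 1 9 (.cons 0x1987234560 (.cons 0x3458912760 .nil)) (.leaf 0x9872345601 2 .done) (.leaf 0x5432178906 5 (.leaf 0x9854321760 10 .done))) .done)) .done) .done)) .done))) .done)) .done)))) .done))))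
noncomputable def tc9_11_8 : T := (.node 3 5 .nil (.node 2 4 (.cons 0x4235678901 .nil) (.leaf 0x6789012435 6 (.leaf 0x1098765342 1 (.leaf 0x7890124356 4 .done))) (.node 3 7 .nil (.node 4 8 (.cons 0x5673489012 .nil) (.leaf 0x6521098437 6 (.leaf 0x3210984567 7 (.leaf 0x2109843765 1 .done))) (.node 0 3 .nil (.node 1 7 (.cons 0x8903217654 (.cons 0x8903456712 .nil)) (.node 0 6 (.cons 0x2345609871 .nil) (.leaf 0x5432178906 5 (.leaf 0x4321760985 0 (.leaf 0x9065432178 6 (.leaf 0x4321760985 9 .done)))) .done) (.node 1 7 .nil (.node 0 6 (.cons 0x2345609871 .nil) (.leaf 0x2345890671 5 (.leaf 0x5432178906 5 (.leaf 0x4321760985 0 (.leaf 0x9065432178 6 .done)))) (.node 2 7 .nil (.node 6 8 (.cons 0x6890712354 (.cons 0x9865347210 .nil)) (.leaf 0x9012743568 4 (.leaf 0x5347210986 7 .done)) (.node 1 5 .nil (.node 4 8 (.cons 0x3217654890 (.cons 0x6517230984 (.cons 0x6715489032 .nil))) (.leaf 0x9015672348 6 .done) (.node 5 7 .nil (.node 1 8 (.cons 0x7654321890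 (.cons 0x6754321890 .nil)) (.node 4 6 (.cons 0x8907215346 (.cons 0x9018756432 (.cons 0x3465721890 .nil))) (.leaf 0x9812346570 9 .done) .done) .done) .done)) .done)) (.node 2 4 (.cons 0x9856710342 .nil) (.node 0 2 (.cons 0x8902176543 .nil) (.node 2 9 (.cons 0x4301765892 .nil) (.leaf 0x7103429856 2 (.node 1 4 (.cons 0x2985671430 .nil) (.leaf 0x9856714302 0 (.leaf 0x9856714302 9 .done)) .done)) .done) (.node 6 9 (.cons 0x1234589670 .nil) (.leaf 0x4301769852 0 (.leaf 0x342589671 5 (.leaf 0x4301769852 6 (.leaf 0x4301769852 9 .done)))) .done)) .done))) .done)) (.node 2 7 .nil (.node 6 8 (.cons 0x9865347210 .nil) (.node 1 4 (.cons 0x5678901432 (.cons 0x9014325687 (.cons 0x6534109872 .nil))) (.node 1 7 (.cons 0x6890712354 .nil) (.leaf 0x4568907123 6 .done) (.leaf 0x1432765890 0 .done)) (.leaf 0x9012743568 4 (.leaf 0x5347210986 7 .done))) (.node 7 9 .nil (.node 0 8 (.cons 0x9801234765 (.cons 0x6532108974 (.cons 0x6534798012 .nil))) (.leaf 0x5432108976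 4 .done) (.node 5 7 .nil (.node 4 9 (.cons 0x7658943210 (.cons 0x6758943210 .nil)) (.node 6 8 (.cons 0x7865234901 .nil) (.leaf 0x1234986570 9 (.leaf 0x1234986570 6 (.leaf 0x1234986570 3 .done))) (.node 0 2 (.cons 0x7658943201 .nil) (.node 1 6 (.cons 0x8947235610 (.cons 0x9875610234 (.cons 0x8947561023 (.cons 0x8902165734 .nil)))) (.leaf 0x3498576102 7 .done) .done) .done)) .done) .done)) .done)) .done))) (.node 3 7 .nil (.node 4 8 (.cons 0x5673489012 .nil) (.leaf 0x6521098437 6 (.leaf 0x3210984567 7 (.leaf 0x2109843765 1 .done))) (.node 0 3 .nil (.node 1 7 (.cons 0x8903217654 (.cons 0x8903456712 .nil)) (.node 0 6 (.cons 0x2345609871 .nil) (.leaf 0x5432178906 5 (.leaf 0x4321760985 0 (.leaf 0x9065432178 6 (.leaf 0x4321760985 9 .done)))) .done) (.node 0 8 (.cons 0x9801234765 .nil) (.node 0 2 .nil (.node 1 9 (.cons 0x8091237654 (.cons 0x6745320891 (.cons 0x8910235674 (.cons 0x6702198543 .nil)))) (.leaf 0x5432019876 4 .done) .done) (.node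 3 9 (.cons 0x5674398012 .nil) (.leaf 0x2108934765 1 (.node 0 2 (.cons 0x5674398021 .nil) (.node 1 4 (.cons 0x2567809341 .nil) (.node 2 7 (.cons 0x9341276580 .nil) (.leaf 0x6721439085 6 .done) (.leaf 0x5398021476 0 (.leaf 0x2089356741 2 (.leaf 0x987652341 6 .done)))) .done) .done)) .done)) .done)) (.node 2 7 .nil (.node 4 8 (.cons 0x2765348901 .nil) (.node 1 5 (.cons 0x6510987234 (.cons 0x6709845123 (.cons 0x2156734890 .nil))) (.leaf 0x9843215670 6 .done) (.node 1 4 (.cons 0x5678901432 (.cons 0x8901435672 .nil)) (.node 1 7 (.cons 0x6532710984 (.cons 0x6534890172 .nil)) .done (.leaf 0x1432765890 0 .done)) (.leaf 0x9012765348 7 .done))) (.node 0 2 .nil (.node 1 9 (.cons 0x8910235674 (.cons 0x4376589120 .nil)) (.node 0 4 (.cons 0x8910472356 (.cons 0x2198567340 (.cons 0x7658910432 .nil))) (.leaf 0x6589104327 9 .done) (.leaf 0x5432019876 4 (.leaf 0x234765891 8 .done))) (.node 1 7 (.cons 0x6543209871 .nil) (.node 1 6 (.cons 0x9854321670 .nil)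 (.leaf 0x6543209871 3 (.leaf 0x234561789 9 (.leaf 0x234561789 6 .done))) (.node 0 3 (.cons 0x8903456712 .nil) (.node 2 8 (.cons 0x3456712890 .nil) (.leaf 0x4567128903 6 (.leaf 0x4567128903 0 .done)) .done) .done)) .done)) .done)) .done))) .done))) (.node 1 6 (.cons 0x9874325610 .nil) (.node 4 9 (.cons 0x7658943210 .nil) (.leaf 0x8701652349 10 (.node 2 4 .nil (.node 3 7 (.cons 0x9856734210 .nil) (.node 3 9 (.cons 0x7658934210 .nil) (.leaf 0x8701652439 10 (.leaf 0x4256107893 9 (.leaf 0x8934210765 6 .done))) (.leaf 0x5243789016 5 (.leaf 0x6734210985 6 .done))) (.node 1 4 (.cons 0x5678901432 .nil) (.node 4 8 .nil (.node 1 5 (.cons 0x9015678432 (.cons 0x6709845123 .nil)) (.leaf 0x9843215670 6 (.leaf 0x9843215670 5 .done)) (.node 3 7 (.cons 0x5673489012 .nil) (.leaf 0x1098437652 9 (.leaf 0x1098437652 0 .done)) .done)) (.leaf 0x987652341 5 .done)) .done)) (.node 5 9 (.cons 0x8956743210 .nil) (.node 4 6 (.cons 0x4610789523 .nil) (.leaf 0x6107895234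 2 (.leaf 0x8701643259 4 .done)) (.node 6 8 (.cons 0x6895234701 .nil) (.leaf 0x8952347016 2 (.leaf 0x3259861074 4 (.node 3 5 (.cons 0x6107894352 .nil) (.node 6 9 (.cons 0x1234589670 .nil) (.node 2 6 (.cons 0x5261078943 .nil) (.node 1 3 (.cons 0x4789652310 .nil) (.leaf 0x2587013496 0 (.leaf 0x2587013496 5 .done)) .done) .done) .done) .done))) .done)) (.leaf 0x3256107894 9 .done)))) (.leaf 0x5234789016 8 (.leaf 0x1652347890 4 (.node 3 8 (.cons 0x5438907612 .nil) (.node 3 7 (.cons 0x4378901652 .nil) (.node 6 8 (.cons 0x7098612543 .nil) (.leaf 0x4521689073 2 (.leaf 0x4521689073 4 .done)) (.node 2 7 (.cons 0x7216543890 .nil) (.leaf 0x3456127098 7 (.node 0 2 (.cons 0x4378902561 .nil) (.node 0 3 (.cons 0x9854307612 .nil) (.node 2 9 (.cons 0x3478925610 .nil) (.leaf 0x3892745610 7 (.leaf 0x9256103478 4 .done)) .done) .done) .done)) .done)) (.leaf 0x4389076125 10 (.leaf 0x9076125438 9 .done))) .done)))) (.node 1 4 (.cons 0x5678901432 .nil) (.leaf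 0x6789014325 9 (.leaf 0x6789014325 0 (.leaf 0x1098765234 3 (.node 1 5 .nil (.node 0 2 (.cons 0x9874320156 .nil) (.leaf 0x987651432 3 (.leaf 0x5678902341 5 .done)) (.node 1 7 .nil (.node 0 6 (.cons 0x2345609871 .nil) (.leaf 0x2345890671 5 (.leaf 0x5432178906 5 (.leaf 0x4321760985 0 (.leaf 0x9065432178 6 (.leaf 0x4321760985 9 .done))))) (.node 1 6 (.cons 0x9854321670 .nil) (.node 5 7 .nil (.node 2 6 (.cons 0x4326578901 .nil) (.leaf 0x987562341 5 (.leaf 0x987562341 6 (.leaf 0x987562341 3 .done))) (.node 5 9 (.cons 0x8956743210 .nil) (.node 4 6 (.cons 0x5987016432 .nil) (.leaf 0x9870164325 0 (.leaf 0x9870164325 6 .done)) (.node 0 2 (.cons 0x8956743201 .nil) (.node 1 8 (.cons 0x2347659810 .nil) (.leaf 0x3476598102 7 (.leaf 0x7432018956 8 .done)) (.node 0 5 .nil (.node 2 8 (.cons 0x9015678234 (.cons 0x6743289501 (.cons 0x4328950761 .nil))) .done .done) .done)) .done)) .done)) .done) .done)) (.node 2 7 (.cons 0x6510987234 .nil) (.node 0 2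 (.cons 0x9874320156 .nil) (.node 1 7 (.cons 0x6543209871 .nil) (.node 1 6 (.cons 0x9854321670 .nil) (.node 2 6 (.cons 0x9874326510 .nil) (.leaf 0x3478901562 10 .done) (.leaf 0x234561789 7 .done)) .done) .done) (.node 0 3 (.cons 0x9856721430 .nil) (.node 3 7 .nil (.node 0 2 (.cons 0x9874320156 .nil) (.leaf 0x6734120985 0 .done) .done) (.leaf 0x6721430985 0 (.leaf 0x6721430985 9 .done))) .done)) .done))) .done)))) .done)))
noncomputable def tc9_11_9 : T := (.node 5 8 (.cons 0x9856743210 .nil) (.node 2 5 (.cons 0x4325678901 .nil) tc9_11_8 (.leaf 0x9012347658 0 (.node 0 8 (.cons 0x9801234765 .nil) (.node 5 7 (.cons 0x9801234756 .nil) (.node 1 6 (.cons 0x4589076123 .nil) (.node 6 9 (.cons 0x7089612345 .nil) (.leaf 0x4321698075 4 (.leaf 0x4321698075 10 (.leaf 0x4321089657 7 (.leaf 0x2347569801 8 .done)))) (.leaf 0x2167098543 6 (.node 6 9 (.cons 0x5470896123 .nil) (.node 3 5 (.cons 0x7435698012 .nil) (.leaf 0x896123547 9 (.leaf 0x8074532169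 4 (.node 0 3 (.cons 0x9803216547 .nil) (.node 7 9 (.cons 0x3216547980 .nil) (.leaf 0x2165479803 6 (.leaf 0x2165479803 5 .done)) .done) .done))) (.leaf 0x4321089657 7 (.leaf 0x2347569801 8 .done))) (.leaf 0x7098543216 5 .done)))) (.node 1 6 (.cons 0x4589076123 .nil) (.node 5 9 (.cons 0x8956743210 .nil) (.node 0 2 (.cons 0x6598743201 .nil) (.node 2 6 (.cons 0x1623459870 .nil) (.leaf 0x1078954326 0 (.node 1 5 (.cons 0x4326159870 .nil) (.node 1 9 (.cons 0x9156234780 .nil) (.leaf 0x2347809156 9 (.leaf 0x3265190874 2 (.leaf 0x3265190874 4 .done))) .done) .done)) (.leaf 0x1659874320 0 .done)) (.node 1 8 (.cons 0x2347659810 .nil) (.node 0 2 (.cons 0x7618954320 .nil) (.leaf 0x7432018956 8 (.leaf 0x5981670234 9 .done)) (.node 0 5 .nil (.node 2 9 (.cons 0x6129807543 (.cons 0x1678923450 .nil)) (.leaf 0x567432981 7 (.leaf 0x6789234501 5 (.leaf 0x761892345 8 .done))) (.node 0 3 (.cons 0x7654309812 .nil) (.node 0 4 (.cons 0x9856740123 .nil) (.node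 3 9 (.cons 0x4765893210 .nil) (.leaf 0x7658932104 4 (.leaf 0x7401239856 10 (.leaf 0x761239854 2 .done))) .done) .done) .done)) .done)) .done)) (.leaf 0x2167098543 6 (.node 7 9 (.cons 0x3216547980 .nil) (.node 0 3 (.cons 0x6547980321 .nil) (.leaf 0x2165479803 6 (.leaf 0x8974561230 6 .done)) (.node 0 3 (.cons 0x5612308974 .nil) (.leaf 0x2165479803 5 (.node 6 9 (.cons 0x3475698012 .nil) (.node 3 5 (.cons 0x7435698012 .nil) (.leaf 0x896123547 9 (.leaf 0x5470896123 2 (.leaf 0x8074532169 4 .done))) (.leaf 0x6980123475 4 .done)) .done)) .done)) (.leaf 0x7098543216 5 .done)))) .done)) (.node 1 8 (.cons 0x7654321890 .nil) (.leaf 0x4321890765 5 (.node 4 8 .nil (.node 1 5 (.cons 0x9015678432 .nil) (.leaf 0x9843215670 6 (.leaf 0x9843215670 3 (.leaf 0x9843215670 5 .done))) (.node 1 4 (.cons 0x5678901432 .nil) (.node 3 6 (.cons 0x4589076321 .nil) (.leaf 0x2145890763 10 (.node 6 9 (.cons 0x9632185470 .nil) (.leaf 0x5812369074 0 (.leaf 0x5812369074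 5 (.leaf 0x5812369074 9 (.leaf 0x5812369074 3 .done)))) (.leaf 0x7098541236 9 (.leaf 0x763214589 7 .done)))) (.node 2 5 (.cons 0x4325678901 .nil) (.leaf 0x987652341 0 (.leaf 0x987652341 6 (.leaf 0x987652341 5 .done))) .done)) .done)) (.node 4 8 .nil (.node 5 9 (.cons 0x8956743210 .nil) (.leaf 0x123487659 6 (.leaf 0x1234895670 6 (.leaf 0x1234895670 0 .done))) (.node 1 4 (.cons 0x5678901432 .nil) (.node 3 6 (.cons 0x4589076321 .nil) (.leaf 0x2145890763 10 (.node 0 4 (.cons 0x9856740123 .nil) (.node 7 9 (.cons 0x9748563210 .nil) (.node 0 6 (.cons 0x7609812345 .nil) (.node 5 7 (.cons 0x6321845790 .nil) (.leaf 0x3218457906 3 (.leaf 0x3218457906 0 .done)) .done) (.leaf 0x458123679 4 (.leaf 0x6321854097 7 .done))) .done) (.leaf 0x7098541236 9 (.leaf 0x763214589 7 .done)))) (.node 2 5 (.cons 0x4325678901 .nil) (.leaf 0x987652341 0 (.leaf 0x987652341 6 (.leaf 0x987652341 5 .done))) .done)) .done)) .done))) .done)) (.node 0 8 (.cons 0x9801234765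 .nil) (.node 4 8 .nil (.node 5 9 (.cons 0x8956743210 .nil) (.leaf 0x123487659 6 (.leaf 0x1234895670 9 (.leaf 0x1234895670 0 .done))) (.node 1 8 (.cons 0x7654321890 .nil) (.leaf 0x4321890765 5 (.node 3 7 (.cons 0x4567321890 .nil) (.node 0 3 (.cons 0x9856743012 .nil) (.node 2 4 (.cons 0x7654230981 .nil) (.node 2 9 (.cons 0x3476589210 .nil) (.leaf 0x4765892103 6 (.leaf 0x4765892103 9 (.leaf 0x9856743012 3 (.node 1 4 (.cons 0x5674189230 .nil) (.leaf 0x3092418567 1 (.leaf 0x6730924185 6 .done)) .done)))) (.leaf 0x1098567342 7 .done)) .done) (.node 0 4 (.cons 0x7654098123 .nil) (.leaf 0x1237654098 9 (.leaf 0x981237654 2 (.leaf 0x2189045673 4 .done))) .done)) .done)) .done)) (.node 3 7 (.cons 0x4376589012 .nil) (.node 0 3 (.cons 0x9856743012 .nil) (.node 2 9 (.cons 0x3476589210 .nil) (.node 1 6 (.cons 0x3458907612 .nil) (.node 6 8 (.cons 0x9216854370 .nil) (.leaf 0x3709216854 9 .done) (.leaf 0x1670985432 4 (.leaf 0x7098543216 8 (.node 1 7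 (.cons 0x9803217456 .nil) (.node 0 2 (.cons 0x5610298743 .nil) (.node 2 4 (.cons 0x6587342901 .nil) (.leaf 0x3098716542 3 .done) .done) .done) .done)))) (.leaf 0x1298567430 10 (.leaf 0x5892103476 7 (.leaf 0x8567430129 9 .done)))) (.node 2 9 (.cons 0x3476589210 .nil) (.leaf 0x4765892103 6 (.leaf 0x4765892103 9 (.leaf 0x9856743012 3 (.node 4 8 (.cons 0x9084567321 .nil) (.node 1 6 (.cons 0x7348561290 .nil) (.leaf 0x7348561290 2 (.leaf 0x1670985432 4 (.leaf 0x7098543216 8 (.node 1 7 (.cons 0x6584371290 .nil) (.node 2 7 (.cons 0x6548903271 .nil) .done .done) .done)))) (.node 1 8 (.cons 0x4376581290 .nil) (.leaf 0x4321890765 5 (.node 2 4 (.cons 0x7658901243 .nil) (.node 1 4 (.cons 0x8567341290 .nil) (.node 3 5 (.cons 0x3567412980 .nil) (.leaf 0x1298035674 4 (.leaf 0x4129803567 6 .done)) .done) (.leaf 0x1098567342 7 .done)) .done)) .done)) .done)))) .done)) (.node 0 2 (.cons 0x4376589021 .nil) (.node 1 8 (.cons 0x7654321890 .nil) (.leaf 0x4321890765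 5 (.node 1 9 (.cons 0x8765432091 .nil) (.leaf 0x5432091876 3 (.leaf 0x5432091876 6 (.leaf 0x5432091876 9 .done))) (.node 1 9 (.cons 0x8765432091 .nil) (.node 3 6 (.cons 0x7456321980 .nil) (.node 4 9 (.cons 0x8567349021 .nil) (.leaf 0x9120856374 3 (.leaf 0x5802194736 0 (.leaf 0x7349021856 9 .done))) (.leaf 0x8912365470 4 (.leaf 0x9807456321 9 .done))) (.leaf 0x4320918765 4 (.leaf 0x4567819023 10 .done))) .done))) (.node 1 6 (.cons 0x7890234561 .nil) (.node 1 7 (.cons 0x9871654320 .nil) (.leaf 0x6543209871 3 (.node 4 6 (.cons 0x7346589021 .nil) (.leaf 0x2098564371 9 (.leaf 0x2098564371 5 (.leaf 0x2098564371 3 .done))) (.node 7 9 (.cons 0x4379856120 .nil) (.node 0 4 (.cons 0x4021658973 .nil) (.leaf 0x8561204379 3 (.leaf 0x8561204379 0 (.leaf 0x6589734021 5 .done))) .done) .done))) (.leaf 0x1670985432 4 (.leaf 0x7098543216 8 (.node 3 9 (.cons 0x7456120893 .nil) (.leaf 0x6120893745 9 (.leaf 0x6120893745 3 (.leaf 0x6120893745 6 .done))) .done))))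 .done)) .done)) .done)) .done)))) (.node 5 8 (.cons 0x6709854321 .nil) tc9_11_7 (.node 5 8 (.cons 0x6709854321 .nil) (.node 2 5 (.cons 0x4325678901 .nil) (.node 3 8 (.cons 0x5674389012 .nil) (.leaf 0x5210983476 4 (.leaf 0x2109834765 1 (.node 0 2 (.cons 0x5674389021 .nil) (.node 5 7 (.cons 0x6574389021 .nil) (.node 1 7 (.cons 0x6543209871 .nil) (.node 1 6 (.cons 0x9871654320 .nil) (.node 7 9 (.cons 0x9743856120 .nil) (.leaf 0x5612097438 2 .done) (.leaf 0x2345617890 10 (.leaf 0x2345617890 4 .done))) (.node 1 6 (.cons 0x9854321670 .nil) (.leaf 0x6543209871 3 (.leaf 0x234561789 9 (.leaf 0x234561789 6 .done))) .done)) .done) (.node 1 5 (.cons 0x2156743890 .nil) (.node 2 6 (.cons 0x3478901562 .nil) (.leaf 0x8901562347 6 (.leaf 0x8901562347 9 .done)) (.node 4 6 (.cons 0x8907645123 .nil) (.leaf 0x8321546709 4 (.leaf 0x6709832154 1 (.node 1 9 (.cons 0x8347652190 .nil) (.leaf 0x3467019852 9 (.leaf 0x3467019852 5 (.leaf 0x1076432589 3 .done)))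 .done))) (.leaf 0x2098347651 4 .done))) .done)) .done))) (.node 0 3 (.cons 0x9856743012 .nil) (.node 2 9 (.cons 0x3476589210 .nil) (.leaf 0x7430129856 7 (.node 0 2 .nil (.node 1 3 (.cons 0x9874310256 .nil) (.leaf 0x4765892013 3 (.leaf 0x5892013476 7 (.leaf 0x7890213456 4 .done))) .done) (.leaf 0x3476589210 3 .done))) (.node 2 9 (.cons 0x3476589210 .nil) (.leaf 0x1298567430 10 (.leaf 0x5892103476 7 (.leaf 0x8567430129 9 .done))) (.node 2 9 (.cons 0x3476589210 .nil) (.leaf 0x4765892103 9 (.leaf 0x9856743012 3 (.node 3 5 .nil (.node 0 6 (.cons 0x6074358921 .nil) (.leaf 0x8534760129 6 (.leaf 0x6743589210 3 (.leaf 0x8534760129 9 (.leaf 0x8534760129 5 .done)))) (.node 7 9 .nil (.node 2 6 (.cons 0x3479856210 .nil) (.leaf 0x4798562103 6 (.leaf 0x9743012658 5 (.leaf 0x4798562103 9 (.leaf 0x6589743012 3 .done)))) (.node 5 7 .nil (.node 3 8 (.cons 0x5674389012 (.cons 0x6574389012 .nil)) (.node 4 6 (.cons 0x8352109746 .nil) (.leaf 0x1098346752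 6 (.leaf 0x1098346752 9 (.leaf 0x1098346752 3 .done))) (.node 3 6 (.cons 0x2563478901 .nil) (.node 0 4 (.cons 0x1256389740 (.cons 0x8975632104 .nil)) (.leaf 0x1256389740 2 .done) .done) .done)) .done) .done)) .done)) .done))) .done))) (.node 1 4 (.cons 0x5678901432 .nil) (.leaf 0x6789014325 5 (.leaf 0x6789014325 9 (.leaf 0x6789014325 0 (.leaf 0x1098765234 3 .done)))) .done))) (.leaf 0x1098567432 5 (.node 1 6 (.cons 0x4589076123 .nil) (.node 0 8 (.cons 0x9807612345 .nil) (.node 5 7 (.cons 0x9807543216 .nil) (.node 7 9 (.cons 0x6579801234 .nil) (.node 4 6 (.cons 0x4657980123 .nil) (.node 0 3 (.cons 0x3089745612 .nil) (.leaf 0x7456123089 0 (.node 0 4 (.cons 0x7980456123 .nil) .done .done)) (.leaf 0x897564321 7 .done)) (.node 4 6 (.cons 0x1234657980 .nil) (.leaf 0x2346579801 7 (.leaf 0x5798012346 10 .done)) .done)) (.node 6 9 (.cons 0x7089612345 .nil) (.leaf 0x4321698075 4 (.leaf 0x4321698075 10 (.leaf 0x3457089612 9 (.leaf 0x4321698075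 2 .done)))) .done)) (.node 6 8 .nil (.node 5 7 (.cons 0x9861234570 .nil) (.leaf 0x9012345768 6 (.leaf 0x9867543210 1 (.leaf 0x123457689 4 .done))) (.node 3 6 (.cons 0x4589076321 .nil) (.node 2 6 .nil (.node 1 3 (.cons 0x3126745890 .nil) (.leaf 0x7098543126 5 (.leaf 0x9076213458 9 .done)) (.node 1 8 (.cons 0x7654321890 .nil) (.node 3 9 (.cons 0x4589321670 .nil) (.node 0 6 (.cons 0x3985470612 .nil) (.leaf 0x7458932160 0 .done) (.node 2 5 (.cons 0x7612543980 .nil) (.leaf 0x9362547810 1 (.leaf 0x9018745263 6 (.leaf 0x4398076125 10 .done))) (.leaf 0x4709362185 8 (.leaf 0x3907458126 4 .done)))) (.node 0 6 (.cons 0x7609812345 .nil) (.node 0 3 (.cons 0x9036745812 .nil) (.node 1 3 (.cons 0x2654789031 .nil) .done .done) .done) .done)) .done)) (.node 1 4 (.cons 0x2367098541 .nil) (.leaf 0x7098541236 9 (.leaf 0x7098541236 3 (.leaf 0x7098541236 0 .done))) .done)) .done)) .done)) (.leaf 0x2167098543 6 (.node 4 8 (.cons 0x5489076123 .nil) (.node 5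 9 (.cons 0x7659843210 .nil) (.node 2 5 (.cons 0x4325678901 .nil) (.node 3 8 (.cons 0x9834765210 .nil) (.node 5 7 (.cons 0x6574389012 .nil) (.node 6 9 (.cons 0x7438965210 .nil) (.leaf 0x5210743896 1 (.leaf 0x3845709612 6 (.node 0 5 (.cons 0x5076984321 .nil) (.leaf 0x2169834705 6 (.leaf 0x7438961250 6 .done)) .done))) .done) (.leaf 0x8347652109 4 (.leaf 0x6743890125 8 .done))) (.node 3 8 (.cons 0x5674389012 .nil) (.leaf 0x5210983476 4 (.leaf 0x2109834765 1 (.node 6 8 (.cons 0x6834709521 .nil) (.node 0 8 (.cons 0x9083476521 .nil) (.node 1 9 (.cons 0x8347652190 .nil) (.leaf 0x834765219 4 (.leaf 0x2190768345 6 .done)) .done) .done) .done))) .done)) (.leaf 0x1234895670 6 (.leaf 0x1234895670 0 .done))) (.node 1 8 (.cons 0x7654321890 .nil) (.leaf 0x4321890765 5 (.node 5 7 (.cons 0x6754321890 .nil) (.node 6 9 (.cons 0x7569843210 .nil) (.leaf 0x1234896570 6 (.leaf 0x1234896570 0 (.leaf 0x1234896570 3 .done))) (.node 0 8 (.cons 0x9081234576 .nil)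 (.node 3 8 (.cons 0x5674389012 .nil) (.node 6 9 (.cons 0x9612384570 .nil) (.leaf 0x8457096123 2 (.leaf 0x3845709612 0 (.leaf 0x5784321096 6 .done))) (.node 6 9 (.cons 0x8123457690 .nil) (.leaf 0x7096123845 9 (.node 0 6 (.cons 0x7609812345 .nil) (.node 5 9 (.cons 0x2345906781 .nil) (.leaf 0x3459067812 9 (.leaf 0x6095432187 9 .done)) .done) (.leaf 0x5784321096 6 .done))) .done)) .done) .done)) (.node 0 8 .nil (.node 5 9 (.cons 0x6708954321 .nil) (.node 6 8 (.cons 0x1234598670 .nil) (.leaf 0x4590768123 0 .done) (.leaf 0x1089567432 5 (.leaf 0x7089543216 8 (.leaf 0x6598012347 6 .done)))) .done) .done))) (.node 5 7 (.cons 0x3216754890 .nil) (.node 0 3 (.cons 0x9845761230 .nil) (.node 3 5 (.cons 0x7612354890 .nil) (.leaf 0x5321670984 4 (.node 5 9 (.cons 0x6759843210 .nil) (.leaf 0x3095487612 7 (.leaf 0x4590321678 10 .done)) .done)) (.leaf 0x9845761230 1 (.leaf 0x6754890321 6 .done))) (.node 4 9 (.cons 0x6758490123 .nil) (.node 3 6 (.cons 0x4589076321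 .nil) (.leaf 0x3210948576 1 (.node 2 5 (.cons 0x4325678901 .nil) (.node 1 8 (.cons 0x9452361870 .nil) (.leaf 0x3218549076 7 (.leaf 0x3618709452 7 (.leaf 0x7816325490 10 .done))) (.leaf 0x1094875236 7 .done)) (.leaf 0x948576321 6 (.leaf 0x9485763210 4 .done)))) (.node 6 9 (.cons 0x4857690123 .nil) (.leaf 0x7690123485 6 (.node 0 3 (.cons 0x4857690321 .nil) (.node 5 9 (.cons 0x2309548761 .nil) (.leaf 0x3095487612 7 (.leaf 0x4590321678 10 .done)) (.leaf 0x321675489 4 (.node 1 4 (.cons 0x3214857690 .nil) (.leaf 0x9675841230 3 (.leaf 0x9675841230 9 (.leaf 0x9675841230 6 .done))) .done))) .done)) .done)) .done)) .done))) (.leaf 0x7098543216 5 .done)))) (.node 1 6 (.cons 0x3458907612 .nil) tc9_11_6 .done)))) .done)))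
noncomputable def uc9_11_2 : T := tc9_11_9
theorem sub_c9_11_2 : root 9 refs9_11 [] 0x700000008702000000002060000050060500000000501000000001040000000040300000000302000000002018050000010 0xfe7fff7bff9bff9fffddffedffe7fff3fff9fedd 9 4 7 (.cons 0x8901234765 .nil) uc9_11_2 = true := by decide +kernel
noncomputable def tc9_11_10 : T := (.node 4 7 (.cons 0x8901234765 .nil) (.leaf 0x9012347658 0 (.node 4 8 .nil (.node 3 5 (.cons 0x7653210984 .nil) (.leaf 0x3210984765 3 (.leaf 0x8901235674 6 (.leaf 0x8901235674 0 (.leaf 0x984765321 5 .done)))) (.node 1 4 (.cons 0x5678901432 .nil) (.node 2 5 (.cons 0x4325678901 .nil) (.node 2 4 .nil (.node 3 7 (.cons 0x9843765210 .nil) (.leaf 0x9012437658 0 (.leaf 0x9012437658 6 .done)) (.node 0 4 (.cons 0x9876523401 .nil) (.node 4 9 .nil (.node 1 6 (.cons 0x7856109432 .nil) (.leaf 0x1652349870 0 (.leaf 0x9078561234 7 (.node 0 3 (.cons 0x9843012567 (.cons 0x7894301652 .nil)) (.node 0 8 (.cons 0x9803452167 (.cons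 0x7612549803 .nil)) .done .done) .done))) .done) .done) .done)) (.node 4 9 (.cons 0x9432567810 .nil) (.leaf 0x7652349018 0 (.leaf 0x7652349018 3 .done)) (.leaf 0x6789014325 9 .done))) (.node 2 5 (.cons 0x4325678901 .nil) (.node 6 9 (.cons 0x7896523410 .nil) (.leaf 0x1432569870 6 (.leaf 0x1432569870 9 (.node 4 9 (.cons 0x7018569432 .nil) .done (.leaf 0x1432569870 3 .done)))) (.node 4 9 (.cons 0x9432567810 .nil) (.leaf 0x7652349018 3 .done) (.leaf 0x6789014325 0 .done))) .done)) .done)) (.leaf 0x1098567432 5 .done))) (.node 4 7 (.cons 0x4765890123 .nil) (.node 5 7 .nil (.node 0 6 (.cons 0x9812345760 .nil) (.leaf 0x4321890675 5 (.leaf 0x2345760981 6 (.leaf 0x2345760981 0 (.leaf 0x6754321890 3 .done)))) (.node 5 9 (.cons 0x8956743210 .nil) (.node 1 5 .nil (.node 4 8 (.cons 0x9015678432 .nil) (.leaf 0x6512348907 6 (.leaf 0x6512348907 3 (.leaf 0x6512348907 0 (.leaf 0x6512348907 5 .done)))) (.node 2 5 (.cons 0x4325678901 .nil) (.node 0 5 .nil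 (.node 4 9 (.cons 0x8765109432 (.cons 0x6789432501 (.cons 0x7650189432 .nil))) (.leaf 0x8765012349 0 .done) (.node 0 6 (.cons 0x2347895601 .nil) (.node 3 5 .nil (.node 1 4 (.cons 0x9876523410 (.cons 0x9874106532 (.cons 0x6014789532 .nil))) (.leaf 0x987652341 0 .done) .done) (.leaf 0x5987432106 7 .done)) .done)) .done) .done)) (.node 0 2 (.cons 0x8956743201 .nil) (.node 0 5 .nil (.node 1 7 (.cons 0x6543209871 (.cons 0x8905432176 .nil)) (.node 6 8 (.cons 0x9865012347 .nil) (.leaf 0x3476895012 8 (.leaf 0x8674321059 4 (.leaf 0x6890543217 4 .done))) .done) .done) (.node 1 5 (.cons 0x6789023451 .nil) (.node 6 8 (.cons 0x5986743201 .nil) (.leaf 0x234768951 6 (.leaf 0x234768951 3 .done)) (.node 0 5 .nil (.node 6 9 (.cons 0x2347896510 (.cons 0x7698120543 (.cons 0x6987432051 .nil))) (.leaf 0x3478965102 4 .done) .done) .done)) (.leaf 0x1895674320 0 .done))) .done)) .done)) (.leaf 0x3210985674 3 (.node 5 7 .nil (.node 0 6 (.cons 0x9812345760 .nil)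 (.leaf 0x4321890675 5 (.leaf 0x2345760981 6 (.leaf 0x2345760981 0 (.leaf 0x6754321890 3 .done)))) (.node 2 5 (.cons 0x4325678901 .nil) (.node 4 9 (.cons 0x9432567810 .nil) (.leaf 0x7652349018 0 (.leaf 0x7652349018 6 (.leaf 0x7652349018 3 .done))) (.node 4 8 .nil (.node 3 7 (.cons 0x9012376584 .nil) (.leaf 0x1098437652 5 (.leaf 0x2109845673 6 (.leaf 0x1098437652 0 .done))) (.node 3 8 (.cons 0x5674389012 .nil) (.node 2 8 .nil (.node 1 3 (.cons 0x9013478256 .nil) (.leaf 0x4310982567 6 (.leaf 0x2134567098 6 .done)) (.node 1 5 (.cons 0x3476512890 .nil) (.node 2 9 (.cons 0x8765109234 .nil) (.leaf 0x3290156784 6 (.leaf 0x5109234876 5 .done)) (.node 0 3 (.cons 0x5674309821 .nil) (.leaf 0x9821567430 8 (.leaf 0x3098215674 4 .done)) .done)) .done)) (.node 6 8 (.cons 0x9074386521 .nil) (.node 6 9 (.cons 0x7569843210 .nil) (.leaf 0x2107569843 7 (.leaf 0x8347096521 2 (.node 1 4 (.cons 0x9652341870 .nil) (.node 7 9 (.cons 0x6579843210 .nil) (.leaf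 0x4109786523 8 (.leaf 0x7901432568 4 .done)) (.leaf 0x6523418709 4 .done)) .done))) .done) .done)) (.node 2 8 .nil (.node 1 3 (.cons 0x9013478256 .nil) (.leaf 0x4310982567 6 (.leaf 0x2134567098 6 (.node 0 6 (.cons 0x9843210675 (.cons 0x5476098213 (.cons 0x9821345760 (.cons 0x9825743106 .nil)))) .done .done))) (.node 3 8 (.cons 0x5674389012 .nil) (.node 6 8 .nil (.node 1 7 (.cons 0x5432176890 (.cons 0x9071238654 .nil)) (.leaf 0x5689017432 6 .done) (.node 0 8 .nil (.node 1 9 (.cons 0x6754321980 .nil) (.leaf 0x7654321908 3 (.leaf 0x6543219807 3 (.leaf 0x6543219807 9 (.leaf 0x6543219807 5 .done)))) .done) .done)) .done) .done)) .done))) .done)) .done)) .done))) (.node 4 7 (.cons 0x3476589012 .nil) (.node 5 7 .nil (.node 0 6 (.cons 0x9812345760 .nil) (.leaf 0x4321890675 5 (.leaf 0x2345760981 6 (.leaf 0x2345760981 0 (.leaf 0x6754321890 3 .done)))) (.node 5 9 (.cons 0x8956743210 .nil) (.node 0 5 .nil (.node 6 9 (.cons 0x2347896501 .nil) (.leaf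 0x7432105896 7 (.leaf 0x8501234769 4 (.leaf 0x5432189670 7 (.leaf 0x5432189670 8 (.leaf 0x8743210569 4 .done))))) (.node 0 6 (.cons 0x2347895601 .nil) (.node 2 9 (.cons 0x3476589210 .nil) (.node 6 8 (.cons 0x3458670921 .nil) (.node 0 3 (.cons 0x3067458921 .nil) (.leaf 0x1298567430 10 (.node 1 4 (.cons 0x6895741230 .nil) (.leaf 0x1230986754 2 (.leaf 0x2306895741 7 (.leaf 0x9867541230 10 (.leaf 0x986754123 9 .done)))) .done)) .done) (.leaf 0x8105674329 0 (.node 0 3 (.cons 0x1298567430 .nil) (.leaf 0x8567430129 9 (.leaf 0x8567430129 6 .done)) .done))) (.leaf 0x5987432106 7 .done)) .done)) (.node 0 5 .nil (.node 6 9 (.cons 0x2347896501 .nil) (.leaf 0x7432105896 7 (.leaf 0x8501234769 4 (.leaf 0x5432189670 7 (.leaf 0x8743210569 4 .done)))) (.node 0 2 (.cons 0x8956743201 .nil) (.node 1 5 (.cons 0x6789023451 .nil) (.node 6 8 (.cons 0x5986743201 .nil) (.leaf 0x234768951 9 (.leaf 0x234768951 3 .done)) .done) (.leaf 0x1895674320 0 .done)) .done))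 .done)) .done)) (.leaf 0x3210985674 0 (.node 1 7 .nil (.node 0 2 (.cons 0x6543209871 (.cons 0x6712098543 .nil)) (.leaf 0x2345671890 3 (.leaf 0x5671890234 5 .done)) (.node 1 4 (.cons 0x5678901432 .nil) (.node 1 3 .nil (.node 2 8 (.cons 0x9014328765 (.cons 0x5674312890 .nil)) (.leaf 0x6543128907 3 (.leaf 0x6543128907 0 (.leaf 0x6543128907 9 .done))) (.node 1 5 .nil (.node 2 6 (.cons 0x2651347890 .nil) (.leaf 0x987432651 5 (.leaf 0x3267890154 6 (.leaf 0x8901562347 0 (.leaf 0x9876234510 5 .done)))) (.node 5 7 .nil (.node 0 6 (.cons 0x3458906712 .nil) (.leaf 0x2345760981 6 (.leaf 0x2345760981 0 (.leaf 0x9854321760 10 .done))) (.node 3 7 (.cons 0x4376589012 .nil) (.node 3 8 (.cons 0x5674389012 .nil) (.node 2 5 (.cons 0x4325678901 .nil) (.leaf 0x2109834765 1 (.node 0 5 (.cons 0x8905432176 .nil) (.node 5 9 (.cons 0x8765901432 .nil) .done .done) .done)) .done) .done) .done)) .done)) .done)) (.node 1 3 .nil (.node 2 8 (.cons 0x9078231456 (.cons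 0x5674312890 .nil)) (.leaf 0x6543128907 5 (.leaf 0x6543128907 3 (.leaf 0x6543128907 0 .done))) (.node 1 5 .nil (.node 2 6 (.cons 0x7890143265 .nil) (.leaf 0x3267890154 6 (.leaf 0x8901562347 0 (.leaf 0x9876234510 5 (.leaf 0x8901562347 9 .done)))) (.node 5 7 (.cons 0x6578901432 .nil) (.node 3 7 (.cons 0x4376589012 .nil) (.node 0 2 (.cons 0x4376589021 .nil) (.node 1 6 (.cons 0x7890234561 .nil) (.node 1 9 (.cons 0x6578910234 .nil) .done .done) (.leaf 0x2098567341 4 (.leaf 0x9856734120 8 .done))) .done) .done) .done)) .done)) .done)) (.node 5 7 .nil (.node 0 6 (.cons 0x9812345760 .nil) (.leaf 0x4321890675 5 (.leaf 0x2345760981 6 (.leaf 0x2345760981 0 (.leaf 0x6754321890 3 .done)))) (.node 4 8 (.cons 0x3217654890 .nil) (.node 7 9 (.cons 0x6579843210 .nil) (.node 0 6 (.cons 0x5432189760 .nil) (.leaf 0x8432106579 6 (.leaf 0x8432106579 9 (.leaf 0x3489756012 5 .done))) (.node 3 7 (.cons 0x4376589012 .nil) (.node 2 7 .nil (.node 0 3 (.cons 0x8903217654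 (.cons 0x6548903271 .nil)) (.leaf 0x2765430981 6 .done) .done) .done) .done)) (.node 3 8 (.cons 0x4567123890 .nil) (.node 6 9 (.cons 0x5769843210 .nil) (.leaf 0x3217096548 9 (.leaf 0x3217096548 0 (.leaf 0x3217096548 6 (.node 6 8 (.cons 0x9071238654 .nil) (.node 0 8 .nil (.node 1 9 (.cons 0x3865470912 (.cons 0x8075691234 (.cons 0x6754321980 (.cons 0x4380756912 .nil)))) .done .done) .done) .done)))) (.node 0 4 (.cons 0x8904567123 .nil) (.leaf 0x1238904567 7 (.node 0 3 (.cons 0x9817654032 .nil) (.leaf 0x9032176548 6 (.node 3 7 (.cons 0x4376589012 .nil) .done .done)) .done)) .done)) .done)) .done)) .done))) .done))) .done)))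
def kn_c9_11 : List (Nat × Nat × Nat) := [(0x700000008702000000002060000030060500000000501000000001040000000040300000000302000000002018030000010, 0xfe7fff7bffb3ff9fffddffedffe7fff3fff9fef5, 9), (0x700000008702000000002060000040060500000000501000000001040000000040300000000302000000002018040000010, 0xfe7fff7bffabff9fffddffedffe7fff3fff9feed, 9), (0x700000008702000000002060000050060500000000501000000001040000000040300000000302000000002018050000010, 0xfe7fff7bff9bff9fffddffedffe7fff3fff9fedd, 9)]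
noncomputable def rc9_11 : T := (.node 1 8 (.cons 0x7654321890 .nil) (.node 5 8 (.cons 0x7658901234 .nil) tc9_11_10 (.leaf 0x6543218907 3 (.leaf 0x6543218907 0 (.leaf 0x6543218907 9 (.leaf 0x6543218907 5 .done))))) (.cut 2 (.cut 1 (.cut 0 .done))))
theorem ok_c9_11 : root 9 refs9_11 kn_c9_11 0x700000008702000000002060000000060500000000501000000001040000000040300000000302000000002018000000010 0xfe7fff7bffbbff9fffddffedffe7fff3fff9fefd 9 0 7 (.cons 0x8907654321 .nil) rc9_11 = true := by decide +kernel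

noncomputable def tc9_12_0 : T := (.node 4 6 .nil (.node 5 7 (.cons 0x6457890123 .nil) (.leaf 0x8901234657 10 (.leaf 0x6578901234 11 (.node 1 7 (.cons 0x6543217890 (.cons 0x5643217890 .nil)) (.node 3 5 (.cons 0x2354678901 .nil) (.leaf 0x2109876453 1 (.leaf 0x1098746532 0 (.node 2 7 (.cons 0x8901274563 (.cons 0x6453278901 (.cons 0x4653278901 .nil))) (.node 1 6 (.cons 0x1645327890 .nil) (.leaf 0x3278901645 7 (.leaf 0x987235461 2 .done)) .done) .done))) (.leaf 0x7123456098 1 .done)) (.leaf 0x4632109875 0 .done)))) (.node 4 8 .nil (.node 5 7 (.cons 0x2367548901 .nil) (.leaf 0x9012367548 10 (.leaf 0x6321098475 0 (.leaf 0x123657489 8 (.leaf 0x984576321 3 .done)))) (.node 5 7 (.cons 0x2367548901 .nil) (.leaf 0x984576321 5 (.leaf 0x984576321 11 (.leaf 0x984576321 3 .done))) (.node 0 7 .nil (.node 1 7 (.cons 0x6543217890 .nil) (.leaf 0x8456321709 1 (.leaf 0x2365489071 3 (.leaf 0x7123456098 1 (.node 7 9 (.cons 0x8970123645 .nil) (.leaf 0x8456321079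 1 .done) .done)))) (.node 7 9 (.cons 0x8790654321 .nil) (.node 1 5 (.cons 0x2348790651 .nil) (.leaf 0x7906512348 11 (.leaf 0x9784321560 10 (.leaf 0x5609784321 3 (.node 1 6 .nil (.node 0 2 (.cons 0x5612098743 .nil) (.leaf 0x987615432 3 (.leaf 0x6789023451 11 .done)) (.node 0 5 (.cons 0x3478905612 .nil) (.leaf 0x1650987432 10 (.leaf 0x8905612347 10 .done)) .done)) .done)))) (.node 6 9 (.cons 0x5469870123 .nil) (.node 3 5 (.cons 0x5321078964 .nil) (.node 0 4 (.cons 0x3569874012 .nil) (.node 1 6 (.cons 0x8970453216 .nil) (.node 2 5 (.cons 0x4352169870 .nil) (.leaf 0x1074896352 2 (.leaf 0x9847012536 7 (.leaf 0x1698704352 6 .done))) .done) .done) (.leaf 0x3210789645 4 (.leaf 0x789645321 6 .done))) (.node 1 6 .nil (.node 0 5 (.cons 0x8970546321 (.cons 0x8970546123 .nil)) (.leaf 0x8905432167 10 (.leaf 0x8705432169 8 .done)) (.node 0 5 (.cons 0x8970546321 .nil) (.leaf 0x1650987432 10 (.node 1 8 (.cons 0x5463218970 .nil) (.node 1 7 (.cons 0x6543217890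 .nil) (.node 0 2 (.cons 0x3654798120 .nil) (.leaf 0x5481790236 10 (.leaf 0x4563209718 5 .done)) .done) (.leaf 0x2364507981 5 (.leaf 0x7906543218 1 .done))) (.leaf 0x8905612347 10 .done))) .done)) .done)) .done)) (.node 1 7 (.cons 0x6543217890 .nil) (.node 2 7 (.cons 0x9845632710 .nil) (.leaf 0x2365489017 4 (.leaf 0x8456327109 10 (.node 7 9 (.cons 0x2365489710 .nil) (.node 4 9 (.cons 0x5649870123 .nil) (.node 5 8 (.cons 0x7985463210 .nil) (.node 0 4 (.cons 0x2367985401 .nil) (.leaf 0x458976321 5 .done) (.leaf 0x6321079854 0 (.leaf 0x7123498560 9 .done))) .done) .done) .done))) (.node 4 9 (.cons 0x5649870123 .nil) (.node 1 4 .nil (.node 2 5 (.cons 0x8907436521 (.cons 0x8941076523 (.cons 0x8907652341 (.cons 0x8907412563 .nil)))) (.leaf 0x2541098763 1 .done) (.node 0 4 .nil (.node 1 3 (.cons 0x4567890132 (.cons 0x9876540132 .nil)) (.node 2 5 (.cons 0x6521347890 (.cons 0x9876523104 (.cons 0x4098765231 .nil))) (.leaf 0x2541098763 1 (.leaf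 0x9041325678 8 .done)) .done) .done) .done)) (.node 3 5 (.cons 0x9870123564 .nil) (.node 5 7 (.cons 0x8946321075 .nil) (.node 5 8 (.cons 0x1236498570 .nil) (.leaf 0x2364985701 1 .done) .done) (.leaf 0x3210789465 4 (.leaf 0x789465321 6 .done))) .done)) (.leaf 0x7123456098 1 .done))) .done))) .done))) .done)) (.node 6 9 .nil (.node 0 7 (.cons 0x8709654321 .nil) (.leaf 0x5698701234 11 (.leaf 0x5698701234 5 .done)) (.node 1 7 (.cons 0x6543217890 .nil) (.leaf 0x3217890654 10 (.node 0 8 (.cons 0x3456908712 .nil) (.leaf 0x7123456908 8 (.node 0 7 .nil (.node 1 5 (.cons 0x3478906512 (.cons 0x9870651234 .nil)) (.leaf 0x1560987432 1 (.node 2 8 (.cons 0x9821074563 (.cons 0x2890763451 (.cons 0x5634709821 (.cons 0x3654709821 .nil)))) (.leaf 0x1563470982 5 .done) .done)) (.node 1 6 .nil (.node 5 8 (.cons 0x8543690712 .nil) (.leaf 0x4321690785 11 (.leaf 0x785432169 8 (.leaf 0x7096123458 10 .done))) (.node 0 5 (.cons 0x3450789612 .nil) (.leaf 0x4321698705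 11 (.node 6 8 (.cons 0x9861234507 .nil) (.node 0 2 (.cons 0x8712096543 .nil) (.node 2 6 (.cons 0x9087126543 .nil) .done .done) .done) (.leaf 0x8705432169 8 .done))) .done)) .done)) (.leaf 0x9654321780 5 .done))) (.node 0 7 .nil (.node 1 8 (.cons 0x5634709812 .nil) (.leaf 0x2365470981 5 (.leaf 0x7654321890 1 (.node 2 5 (.cons 0x2543671890 (.cons 0x8963452170 .nil)) (.leaf 0x6347098125 8 (.leaf 0x7098125436 3 (.leaf 0x1890743652 5 .done))) .done))) (.node 6 8 (.cons 0x9078654321 .nil) (.node 1 9 (.cons 0x9123456870 .nil) (.node 4 8 (.cons 0x5489017632 .nil) (.node 5 7 (.cons 0x2367548901 .nil) (.leaf 0x984576321 5 (.leaf 0x984576321 3 .done)) (.node 4 9 (.cons 0x9456870123 .nil) (.node 3 9 (.cons 0x9321078654 .nil) (.node 3 8 (.cons 0x7456389012 .nil) (.node 0 8 (.cons 0x5680743912 .nil) (.node 2 5 (.cons 0x8652193470 .nil) (.leaf 0x8367452109 8 (.leaf 0x983674521 0 (.leaf 0x4890176325 1 (.leaf 0x6521934708 7 .done)))) .done) .done) (.leaf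 0x786549321 6 .done)) .done) .done)) (.leaf 0x5432190786 5 .done)) (.node 1 9 (.cons 0x4568709123 .nil) (.leaf 0x2190786543 11 (.leaf 0x7091234568 8 .done)) .done)) .done)) (.node 4 6 (.cons 0x5643217890 .nil) (.node 6 8 .nil (.node 0 7 (.cons 0x9078654321 .nil) (.leaf 0x5432170986 5 (.leaf 0x986543217 2 .done)) (.node 2 6 .nil (.node 1 3 (.cons 0x5609874312 .nil) (.leaf 0x8745623109 7 (.leaf 0x7456231098 5 (.node 0 5 (.cons 0x9871234650 (.cons 0x9054786213 (.cons 0x7450986213 (.cons 0x2678905431 (.cons 0x4326509871 .nil))))) .done .done))) (.node 1 6 .nil (.node 0 2 (.cons 0x8902174365 (.cons 0x5432098761 .nil)) (.leaf 0x3456178902 11 .done) .done) .done)) .done)) (.node 1 6 .nil (.node 0 2 (.cons 0x8902174365 (.cons 0x5432098761 .nil)) (.node 0 5 (.cons 0x8905634712 .nil) (.leaf 0x3450987612 10 (.leaf 0x8905432167 10 (.leaf 0x8905612347 10 .done))) (.leaf 0x3456178902 11 .done)) (.node 6 8 .nil (.node 0 7 (.cons 0x9078654321 .nil)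 (.leaf 0x5432170986 5 (.leaf 0x986543217 2 .done)) (.node 2 6 .nil (.node 1 3 (.cons 0x5609874312 .nil) (.leaf 0x7456231098 5 (.node 0 5 (.cons 0x7450986312 (.cons 0x9054786213 (.cons 0x7450986213 (.cons 0x2678905431 (.cons 0x4326509871 .nil))))) .done .done)) .done) .done)) .done)) .done)) .done)))) (.node 0 7 .nil (.node 1 8 (.cons 0x5634709812 .nil) (.leaf 0x2365470981 5 (.leaf 0x7654321890 1 (.node 2 5 (.cons 0x3478906521 (.cons 0x3698125470 (.cons 0x8125470963 (.cons 0x4523670981 .nil)))) (.leaf 0x7098125436 3 .done) (.leaf 0x7096543218 10 .done)))) (.node 1 8 (.cons 0x4569078123 .nil) (.leaf 0x2345690781 11 (.node 1 7 (.cons 0x6543217890 .nil) (.leaf 0x3217890654 10 (.node 4 8 (.cons 0x7096321845 .nil) (.node 3 9 (.cons 0x1239654870 .nil) (.node 7 9 (.cons 0x7984563210 .nil) .done (.leaf 0x8701239654 8 (.leaf 0x784569321 4 .done))) (.node 2 5 (.cons 0x3478906521 .nil) (.leaf 0x963254817 5 (.leaf 0x963254817 3 (.leaf 0x9071845236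 10 (.leaf 0x963254817 11 .done)))) .done)) .done)) (.leaf 0x781234569 8 (.leaf 0x7096543218 10 .done)))) (.node 1 7 (.cons 0x6543217890 .nil) (.leaf 0x3217890654 10 (.node 0 8 (.cons 0x4569087123 .nil) (.leaf 0x871234569 5 (.node 0 3 (.cons 0x8712309654 .nil) (.node 4 8 (.cons 0x3217845690 .nil) (.leaf 0x8456903217 5 (.node 5 7 (.cons 0x8457123690 .nil) (.leaf 0x984576321 5 (.leaf 0x984576321 3 .done)) .done)) .done) .done)) (.node 7 9 .nil (.node 6 8 (.cons 0x1234568790 .nil) (.node 0 2 (.cons 0x8902174365 (.cons 0x5689021743 .nil)) (.node 3 9 (.cons 0x5687439021 .nil) (.leaf 0x217865439 8 (.leaf 0x4568712093 5 .done)) .done) (.leaf 0x5687901234 11 (.leaf 0x9786543210 8 .done))) .done) .done))) .done))) .done))) (.node 6 9 .nil (.node 0 7 (.cons 0x8709654321 .nil) (.leaf 0x5698701234 11 (.leaf 0x5698701234 5 (.leaf 0x7896543210 3 .done))) (.node 1 7 (.cons 0x6543217890 .nil) (.leaf 0x2345609871 5 (.node 1 6 .nil (.node 5 7 (.cons 0x6123457890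 .nil) (.node 4 6 (.cons 0x6457890123 .nil) (.leaf 0x9875643210 3 (.leaf 0x9875643210 5 .done)) (.leaf 0x4578906123 11 (.leaf 0x8906123457 10 .done))) (.node 4 6 .nil (.node 5 7 (.cons 0x6457890123 .nil) (.leaf 0x8901234657 10 (.leaf 0x6578901234 11 (.leaf 0x4632109875 0 .done))) (.node 2 6 .nil (.node 1 3 (.cons 0x7890654312 (.cons 0x7890621345 (.cons 0x5621347890 .nil))) .done (.node 6 8 .nil (.node 3 9 (.cons 0x5439068712 (.cons 0x4568710932 .nil)) (.node 0 8 (.cons 0x8093621745 (.cons 0x4562390871 .nil)) (.leaf 0x1780934562 8 .done) .done) .done) .done)) .done)) .done)) (.node 2 5 (.cons 0x6098712543 .nil) (.node 7 9 (.cons 0x8971254360 .nil) (.node 5 7 (.cons 0x8906345712 .nil) (.node 2 7 (.cons 0x3456098721 .nil) (.node 0 7 .nil (.node 2 8 (.cons 0x7128906345 (.cons 0x3654709821 .nil)) (.leaf 0x5436098217 4 .done) .done) .done) .done) .done) (.leaf 0x1254360987 0 (.node 4 8 (.cons 0x5489017632 .nil) (.node 0 5 (.cons 0x1769843250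 .nil) (.node 2 9 (.cons 0x5489236710 .nil) (.leaf 0x1763298450 5 (.leaf 0x1763298450 3 .done)) (.leaf 0x9843250176 8 .done)) (.node 5 7 (.cons 0x2367548901 .nil) (.leaf 0x984576321 5 (.leaf 0x984576321 11 (.leaf 0x984576321 3 .done))) (.leaf 0x4890176325 1 .done))) (.leaf 0x1789063452 7 .done)))) (.node 4 6 (.cons 0x5643217890 .nil) (.node 6 8 .nil (.node 0 7 (.cons 0x9078654321 .nil) (.leaf 0x5432170986 5 (.leaf 0x986543217 2 .done)) (.node 2 6 .nil (.node 1 3 (.cons 0x7890654312 (.cons 0x7890621345 .nil)) (.leaf 0x8745623109 7 (.leaf 0x7456231098 5 .done)) (.node 1 6 .nil (.node 0 2 (.cons 0x8902174365 (.cons 0x5432098761 (.cons 0x5612098743 .nil))) (.leaf 0x3456178902 11 .done) .done) .done)) .done)) (.node 1 6 .nil (.node 0 2 (.cons 0x8902174365 (.cons 0x5432098761 (.cons 0x5612098743 .nil))) (.node 0 5 (.cons 0x8905634712 .nil) (.leaf 0x3450987612 10 (.leaf 0x8905612347 10 .done)) (.leaf 0x3456178902 11 .done)) (.node 2 6 .nil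 (.node 1 3 (.cons 0x7890654312 (.cons 0x7890621345 .nil)) (.leaf 0x7456231098 5 .done) (.node 6 8 .nil (.node 0 7 (.cons 0x9078654321 .nil) (.leaf 0x5432170986 5 (.leaf 0x986543217 2 .done)) .done) .done)) .done)) .done)) .done)))) (.node 1 7 (.cons 0x6543217890 .nil) (.leaf 0x2345609871 5 (.node 0 8 (.cons 0x4569087123 .nil) (.leaf 0x7123456908 9 (.node 0 7 .nil (.node 4 8 (.cons 0x3217845690 (.cons 0x9845632107 .nil)) (.leaf 0x3217098456 10 (.leaf 0x2365489071 3 .done)) (.node 6 8 .nil (.node 7 9 (.cons 0x1234568790 .nil) (.leaf 0x3217908654 9 (.leaf 0x9786543210 5 .done)) (.node 4 6 (.cons 0x9087123465 .nil) (.node 2 8 (.cons 0x9082174365 .nil) (.node 5 7 (.cons 0x4576328901 .nil) (.leaf 0x5436098217 3 (.leaf 0x6098217543 10 .done)) (.node 5 9 (.cons 0x7809564321 .nil) (.leaf 0x4701236895 5 (.leaf 0x1280956347 0 (.leaf 0x956347128 0 .done))) .done)) .done) .done)) .done)) (.node 4 8 (.cons 0x3217845690 .nil) (.node 7 9 (.cons 0x7984563210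 .nil) (.node 2 9 (.cons 0x6543290871 .nil) (.leaf 0x7108456329 4 (.node 5 8 (.cons 0x8563471290 .nil) (.leaf 0x7436580921 5 (.leaf 0x7129085634 11 .done)) .done)) (.node 0 7 (.cons 0x5632107984 .nil) (.leaf 0x6321079845 3 .done) .done)) (.node 5 7 (.cons 0x8457123690 .nil) (.leaf 0x984576321 5 (.leaf 0x984576321 3 .done)) .done)) .done))) (.node 2 5 (.cons 0x6098712543 .nil) (.node 7 9 (.cons 0x8971254360 .nil) (.node 0 8 (.cons 0x1256347980 .nil) (.leaf 0x6345217980 8 (.leaf 0x4365210897 1 (.node 0 7 (.cons 0x4523698071 .nil) (.node 1 8 (.cons 0x4569078123 .nil) (.leaf 0x2345690781 11 (.leaf 0x781234569 8 (.leaf 0x7096543218 10 .done))) .done) .done))) .done) (.leaf 0x1254360987 0 (.node 4 8 (.cons 0x5489017632 .nil) (.node 7 9 (.cons 0x7984563210 .nil) (.node 0 7 (.cons 0x5489632170 .nil) (.node 0 5 (.cons 0x7123698450 .nil) (.leaf 0x3698450712 8 .done) .done) .done) (.node 5 7 (.cons 0x2367548901 .nil) (.leaf 0x984576321 5 (.leaf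 0x984576321 11 (.leaf 0x984576321 3 .done))) (.leaf 0x4890176325 1 .done))) (.leaf 0x1789063452 7 .done)))) (.node 7 9 .nil (.node 6 8 (.cons 0x1234568790 .nil) (.node 0 7 (.cons 0x9078654321 .nil) (.leaf 0x986543217 2 .done) (.leaf 0x5687901234 11 (.leaf 0x7901234568 10 .done))) (.node 0 7 .nil (.node 1 8 (.cons 0x5436079812 .nil) (.leaf 0x2365470981 5 (.node 2 5 (.cons 0x3698125470 (.cons 0x8125470963 (.cons 0x4523670981 .nil))) (.leaf 0x2543607981 1 (.leaf 0x7098125436 3 .done)) (.leaf 0x7096543218 10 .done))) (.node 1 8 (.cons 0x4569078123 .nil) (.leaf 0x2345690781 11 (.node 4 8 (.cons 0x7096321845 .nil) (.node 3 9 (.cons 0x1239654870 .nil) (.leaf 0x8701239654 8 (.leaf 0x784569321 4 .done)) (.node 2 5 (.cons 0x7096325481 .nil) (.leaf 0x963254817 5 (.leaf 0x963254817 3 (.leaf 0x9071845236 10 (.leaf 0x963254817 11 .done)))) .done)) (.leaf 0x7096543218 10 .done))) .done)) .done)) .done)))) .done))) .done)))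
noncomputable def tc9_12_1 : T := (.node 5 7 (.cons 0x6457890123 .nil) (.leaf 0x8901234657 10 (.leaf 0x6578901234 11 (.leaf 0x9875643210 8 (.leaf 0x4632109875 0 .done)))) (.node 2 4 (.cons 0x3245678901 .nil) (.node 1 3 (.cons 0x4567890132 .nil) (.node 3 7 .nil (.node 4 8 (.cons 0x7365489012 .nil) (.leaf 0x984567321 8 (.leaf 0x9012376548 10 (.node 6 9 (.cons 0x8745690123 .nil) (.leaf 0x123784569 7 (.leaf 0x965487321 0 (.leaf 0x5487321096 7 .done))) .done))) (.node 1 7 (.cons 0x6543217890 .nil) (.node 0 7 .nil (.node 1 8 (.cons 0x9810765423 .nil) (.leaf 0x6543218907 3 (.leaf 0x5632189074 5 (.leaf 0x6547098123 10 .done))) (.node 7 9 (.cons 0x8976542310 .nil) (.node 0 5 (.cons 0x9871234650 .nil) (.node 6 9 (.cons 0x5469873210 .nil) (.leaf 0x8732105469 4 (.leaf 0x7321054698 0 .done)) (.leaf 0x3217890564 9 (.node 0 8 (.cons 0x1324567980 .nil) (.leaf 0x9713246508 10 (.leaf 0x5642317980 11 .done)) .done))) .done) .done)) (.node 0 7 .nil (.node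 1 8 (.cons 0x9810765423 .nil) (.leaf 0x6543218907 3 (.leaf 0x5632189074 5 (.leaf 0x5632189074 3 .done))) (.node 7 9 (.cons 0x8976542310 .nil) (.node 3 8 (.cons 0x7654238901 .nil) (.node 1 8 (.cons 0x8123654790 .nil) (.node 5 9 (.cons 0x6459873210 .nil) (.leaf 0x7423810956 0 (.leaf 0x7895643210 8 (.leaf 0x3874659012 9 .done))) .done) (.node 1 5 (.cons 0x1564238970 .nil) (.leaf 0x5642389701 4 (.leaf 0x8324651079 10 .done)) .done)) .done) .done)) .done)) (.node 1 4 (.cons 0x8901423765 .nil) (.node 1 7 (.cons 0x6543217890 .nil) (.node 7 9 (.cons 0x8976542310 .nil) (.node 0 7 (.cons 0x8970123645 .nil) .done (.node 1 8 (.cons 0x8123654790 .nil) (.node 5 7 (.cons 0x8901457632 .nil) (.node 2 5 (.cons 0x3425671890 .nil) (.leaf 0x2541098763 1 (.node 0 3 (.cons 0x6789032541 .nil) (.leaf 0x6718903425 6 (.leaf 0x981765243 4 (.leaf 0x6718903425 1 .done))) .done)) .done) .done) .done)) .done) (.node 1 7 (.cons 0x6543217890 .nil) (.node 0 4 (.cons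 0x9876540132 .nil) (.node 5 9 (.cons 0x4659873210 .nil) (.leaf 0x1237895640 6 (.leaf 0x1237895640 7 (.leaf 0x1237895640 1 (.leaf 0x1237895640 4 .done)))) (.node 4 8 (.cons 0x5673248901 .nil) (.node 4 9 (.cons 0x5649873210 .nil) .done .done) .done)) .done) .done)) .done))) (.leaf 0x2456789013 5 (.node 1 4 .nil (.node 2 5 (.cons 0x9876452310 .nil) (.leaf 0x2567890143 1 (.leaf 0x2541098763 1 (.leaf 0x4678901325 5 .done))) (.node 1 7 (.cons 0x6543217890 .nil) (.node 0 6 (.cons 0x9871234560 .nil) (.node 1 8 (.cons 0x9065432187 .nil) (.node 1 6 .nil (.node 0 2 (.cons 0x5432098761 .nil) (.leaf 0x2345617890 3 (.leaf 0x6178902345 11 .done)) .done) .done) (.leaf 0x3217890654 10 (.leaf 0x2345609871 5 .done))) (.node 1 8 .nil (.node 3 9 (.cons 0x8109324765 (.cons 0x6547810932 .nil)) (.leaf 0x2456781093 5 .done) (.node 3 7 .nil (.node 5 8 (.cons 0x6731098542 (.cons 0x9856423710 .nil)) (.leaf 0x985673241 10 (.leaf 0x7658901423 10 .done)) (.node 1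 9 .nil (.node 0 6 (.cons 0x7890654321 (.cons 0x8743219065 (.cons 0x2198734560 .nil))) (.leaf 0x5601987324 11 .done) (.node 1 5 .nil (.node 0 2 (.cons 0x8910237654 (.cons 0x6789023451 (.cons 0x4320987651 .nil))) (.leaf 0x5678902341 6 .done) (.node 1 6 .nil (.node 0 4 (.cons 0x8910456732 (.cons 0x5617890432 .nil)) (.leaf 0x1237890456 10 .done) .done) .done)) .done)) .done)) .done)) .done)) .done)) (.leaf 0x987654231 8 .done)))) (.node 1 5 (.cons 0x6789015423 .nil) (.node 4 8 .nil (.node 5 7 (.cons 0x2367548901 .nil) (.leaf 0x9012367548 10 (.leaf 0x123657489 10 (.leaf 0x123657489 1 .done))) (.node 5 8 (.cons 0x7632458901 .nil) (.node 1 4 .nil (.node 2 7 (.cons 0x7210984563 (.cons 0x7236589014 .nil)) (.leaf 0x1456327890 9 (.leaf 0x5410987236 8 .done)) (.node 0 8 (.cons 0x9801542367 .nil) (.node 7 9 (.cons 0x8976324510 .nil) (.node 5 7 (.cons 0x8975463210 .nil) (.leaf 0x1236457980 7 (.leaf 0x1236457980 4 .done)) (.node 2 9 (.cons 0x7632980154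 .nil) (.leaf 0x7451089236 1 (.node 5 9 (.cons 0x2364795801 .nil) (.leaf 0x3647958012 5 (.leaf 0x3647958012 3 .done)) .done)) (.leaf 0x8015423679 5 (.leaf 0x6324510897 8 .done)))) (.node 4 9 (.cons 0x7632498015 .nil) (.node 2 7 (.cons 0x8901456723 .nil) (.leaf 0x156327498 7 (.leaf 0x2365108947 4 (.leaf 0x156327498 1 .done))) .done) .done)) .done)) (.node 1 7 (.cons 0x1763245890 .nil) (.leaf 0x4236710985 5 (.leaf 0x7632458901 3 (.leaf 0x4589017632 11 .done))) .done)) (.node 5 8 (.cons 0x7632458901 .nil) (.node 1 7 (.cons 0x6543217890 .nil) (.leaf 0x9017632458 8 (.node 5 7 (.cons 0x6342175890 .nil) (.leaf 0x9842365710 10 .done) (.node 1 4 .nil (.node 2 7 (.cons 0x7236548901 (.cons 0x7214365890 .nil)) (.leaf 0x1456327890 9 (.leaf 0x5410987236 8 .done)) (.node 5 7 .nil (.node 0 8 (.cons 0x9801542367 (.cons 0x9801236457 (.cons 0x9801576324 .nil))) .done (.node 7 9 (.cons 0x8976324510 .nil) (.node 0 7 (.cons 0x3645897012 .nil) (.leaf 0x6321079854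 0 .done) (.node 0 6 (.cons 0x1579842360 .nil) (.leaf 0x9842360157 1 (.leaf 0x6324897510 4 (.leaf 0x9842360157 6 .done))) .done)) .done)) .done)) .done))) (.node 1 7 (.cons 0x1763245890 .nil) (.leaf 0x4236710985 5 (.leaf 0x7632458901 3 (.leaf 0x4589017632 11 .done))) .done)) .done))) (.leaf 0x2451098763 10 (.node 1 4 .nil (.node 0 2 (.cons 0x5678902341 .nil) (.leaf 0x9876514320 11 (.leaf 0x3415678902 10 (.node 2 7 (.cons 0x8901456723 .nil) (.node 1 6 (.cons 0x3456127890 .nil) (.leaf 0x7234561098 8 (.leaf 0x987234561 4 .done)) (.leaf 0x1456327890 9 (.node 3 8 (.cons 0x9012387456 (.cons 0x9832014567 .nil)) (.leaf 0x7209834156 0 (.leaf 0x9834156720 0 (.leaf 0x1098327654 9 .done))) (.leaf 0x5410987236 8 .done)))) .done))) (.node 4 8 .nil (.node 5 7 (.cons 0x2367548901 .nil) (.leaf 0x9012367548 10 (.leaf 0x5632109847 4 (.leaf 0x123657489 10 (.leaf 0x123657489 1 .done)))) (.node 0 4 .nil (.node 3 7 (.cons 0x8901542376 (.cons 0x9873210456 (.cons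 0x9873210465 .nil))) (.node 1 7 (.cons 0x6543217890 .nil) (.leaf 0x4563217890 8 (.node 5 7 (.cons 0x4890175632 (.cons 0x9840175632 (.cons 0x8904365712 .nil))) (.leaf 0x9842365710 10 .done) .done)) .done) (.node 4 9 .nil (.node 3 7 (.cons 0x8901542376 (.cons 0x6549873210 (.cons 0x5649873210 .nil))) (.node 0 7 (.cons 0x5649870123 .nil) (.node 1 7 (.cons 0x6517098432 .nil) (.leaf 0x8456321709 1 .done) (.leaf 0x6549870123 3 .done)) .done) .done) .done)) .done)) .done)) (.leaf 0x9015423678 10 .done)))) .done)) (.node 6 9 (.cons 0x8745690123 .nil) (.node 0 6 (.cons 0x7890654321 .nil) (.node 1 6 .nil (.node 0 5 (.cons 0x2345098761 .nil) (.node 5 8 (.cons 0x1234785690 .nil) (.leaf 0x7856901234 11 (.leaf 0x9658743210 8 (.leaf 0x8743216905 3 (.leaf 0x2169058743 11 .done)))) (.leaf 0x3450987612 10 (.leaf 0x8905432167 10 (.node 5 8 (.cons 0x1234785690 .nil) (.leaf 0x7856901234 11 (.leaf 0x9658743210 8 (.leaf 0x2169058743 5 .done))) .done)))) (.node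 1 7 (.cons 0x6543217890 .nil) (.leaf 0x7123456098 1 (.node 5 8 (.cons 0x1234785690 .nil) (.leaf 0x7856901234 11 (.leaf 0x9658743210 8 (.node 2 4 (.cons 0x3247856901 .nil) (.node 4 8 (.cons 0x9017485632 .nil) (.node 5 7 (.cons 0x2367548901 .nil) (.leaf 0x984576321 5 (.node 2 9 (.cons 0x2906348571 .nil) (.leaf 0x7109236584 6 (.leaf 0x4360921758 3 (.leaf 0x4360921758 5 .done))) (.leaf 0x984576321 3 .done))) .done) (.leaf 0x5890174236 7 (.leaf 0x8901742365 5 .done))) (.node 6 8 .nil (.node 0 4 (.cons 0x7123658904 (.cons 0x7123409865 (.cons 0x9047123685 .nil))) (.leaf 0x3658904712 9 .done) .done) .done)))) (.node 2 6 (.cons 0x3456217890 .nil) (.node 6 8 .nil (.node 0 7 (.cons 0x5436890712 .nil) (.leaf 0x4568907123 10 (.leaf 0x4568907123 1 .done)) .done) .done) .done))) .done)) .done) (.node 3 8 (.cons 0x1238745690 .nil) (.node 6 8 .nil (.node 7 9 (.cons 0x8632109745 .nil) (.leaf 0x3210974568 2 (.leaf 0x9786543210 5 (.node 2 8 (.cons 0x5479012863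 .nil) (.leaf 0x1097456382 0 (.leaf 0x9745638210 4 .done)) .done))) (.node 0 6 (.cons 0x7890654321 .nil) (.node 1 8 (.cons 0x3218745690 .nil) (.node 5 9 (.cons 0x1234786590 .nil) (.leaf 0x3459067812 8 (.leaf 0x954321876 11 (.leaf 0x7865901234 9 .done))) (.node 0 3 (.cons 0x8745690321 .nil) (.leaf 0x7456903218 10 (.leaf 0x7456903218 7 (.node 3 5 (.cons 0x9012356874 .nil) (.node 3 7 (.cons 0x9065437812 .nil) (.node 2 6 (.cons 0x4537812690 .nil) (.leaf 0x4537890126 11 .done) (.node 1 7 (.cons 0x6543217890 .nil) (.node 0 4 (.cons 0x3217896540 .nil) (.leaf 0x7896540321 1 (.leaf 0x7896540321 6 .done)) (.leaf 0x7123456098 1 .done)) .done)) .done) .done))) .done)) .done) .done)) (.leaf 0x2387456901 7 (.node 3 9 (.cons 0x5647839012 .nil) (.node 2 5 (.cons 0x9012564783 .nil) (.leaf 0x6478390125 3 (.node 7 9 (.cons 0x1256438790 .nil) (.leaf 0x125643879 1 (.node 6 8 (.cons 0x7864521093 .nil) (.node 0 8 (.cons 0x5479368012 .nil) (.node 1 8 (.cons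 0x3218745690 .nil) (.leaf 0x2543679081 3 .done) (.leaf 0x1086397452 7 (.leaf 0x9368012547 6 .done))) .done) .done)) (.node 1 4 (.cons 0x7652389014 .nil) (.leaf 0x7652389014 4 (.leaf 0x983256741 0 (.leaf 0x2389014765 8 .done))) (.leaf 0x9387465210 1 .done)))) (.node 0 3 (.cons 0x8745690321 .nil) (.node 0 6 (.cons 0x7890654321 .nil) (.node 1 3 (.cons 0x4567890132 .nil) (.node 3 5 .nil (.node 3 7 (.cons 0x6453789012 .nil) .done .done) (.node 2 5 (.cons 0x5213874690 .nil) (.leaf 0x7890132546 8 (.leaf 0x8390125647 11 (.leaf 0x8746521093 5 (.leaf 0x9876452310 9 .done)))) .done)) .done) (.node 1 8 (.cons 0x3218745690 .nil) (.leaf 0x4781230965 8 (.node 6 8 (.cons 0x5478690321 .nil) (.node 2 8 (.cons 0x6547823901 .nil) (.node 1 6 (.cons 0x1654782390 .nil) (.leaf 0x8239016547 5 (.leaf 0x7823901654 7 .done)) .done) .done) (.leaf 0x7456903218 10 .done))) .done)) .done)) (.leaf 0x7456901238 6 .done)))) .done)) .done)))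
noncomputable def tc9_12_2 : T := (.leaf 0x2345609871 5 (.node 5 7 .nil (.node 4 6 (.cons 0x6457890123 .nil) (.leaf 0x8901234657 10 (.leaf 0x9875643210 3 (.leaf 0x9875643210 11 .done))) (.node 2 7 (.cons 0x3456098721 .nil) (.node 1 5 (.cons 0x6098721543 .nil) (.leaf 0x4512789063 11 (.leaf 0x7215436098 8 .done)) (.node 3 7 .nil (.node 1 4 (.cons 0x5609872143 (.cons 0x8901456732 .nil)) (.node 2 9 (.cons 0x3298765410 (.cons 0x8923765410 (.cons 0x3789214560 .nil))) (.node 5 8 (.cons 0x9236785410 (.cons 0x9214587360 .nil)) (.leaf 0x5873609214 5 (.leaf 0x6378541290 9 .done)) .done) (.leaf 0x2378906541 1 .done)) (.node 0 7 .nil (.node 7 9 (.cons 0x8790123654 .nil) (.node 6 9 (.cons 0x8712345690 .nil) (.node 0 8 (.cons 0x6980754321 .nil) (.leaf 0x2345698071 8 (.leaf 0x3456908712 9 .done)) (.leaf 0x8701234569 10 .done)) .done) .done) .done)) (.node 7 9 (.cons 0x8790123654 .nil) (.node 2 9 (.cons 0x8712906543 .nil) (.node 3 8 (.cons 0x9065438712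 .nil) (.leaf 0x3456092178 3 (.leaf 0x921783456 11 (.leaf 0x6092178345 10 (.node 4 8 (.cons 0x2975483601 .nil) (.leaf 0x9210638457 7 (.leaf 0x2106384579 5 .done)) .done)))) (.node 2 8 (.cons 0x5436097821 .nil) (.node 1 5 (.cons 0x9782154360 .nil) (.leaf 0x6345128790 9 (.leaf 0x1543609782 5 .done)) (.node 3 9 (.cons 0x8745639012 .nil) (.node 0 7 (.cons 0x6075439821 .nil) (.node 3 7 (.cons 0x6012893754 .nil) .done .done) (.leaf 0x6547821093 5 .done)) .done)) .done)) (.node 2 9 (.cons 0x8712906543 .nil) (.node 3 8 (.cons 0x9065438712 .nil) (.leaf 0x3456092178 3 (.leaf 0x921783456 11 (.leaf 0x6092178345 10 (.node 4 8 (.cons 0x3845609271 .nil) (.leaf 0x5671092384 0 (.leaf 0x7109238456 4 .done)) .done)))) (.node 0 7 .nil (.node 1 3 (.cons 0x7890654312 (.cons 0x9870654312 (.cons 0x8921345706 .nil))) (.leaf 0x987213456 9 (.leaf 0x2987065431 1 .done)) (.node 3 7 .nil (.node 1 4 (.cons 0x8763290145 (.cons 0x8901456732 .nil)) (.node 5 8 (.cons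 0x9236785410 (.cons 0x9214587360 .nil)) (.leaf 0x5873609214 5 (.leaf 0x6378541290 9 .done)) (.leaf 0x2378906541 1 .done)) .done) .done)) .done)) .done)) .done))) (.node 7 9 (.cons 0x8790123654 .nil) (.node 2 7 (.cons 0x3456098721 .nil) (.node 3 9 (.cons 0x1278934560 .nil) (.leaf 0x2106543987 7 (.node 3 7 .nil (.node 4 9 (.cons 0x8945601273 .nil) (.leaf 0x5601237894 11 (.node 1 9 (.cons 0x8723654910 (.cons 0x8912734560 .nil)) (.node 2 8 (.cons 0x7823654901 (.cons 0x4563782190 .nil)) (.leaf 0x5637821094 5 (.leaf 0x8736549012 3 .done)) .done) .done)) .done) (.leaf 0x654398721 2 .done))) (.node 0 7 .nil (.node 6 8 (.cons 0x9078654321 .nil) (.node 1 5 (.cons 0x8790634512 (.cons 0x3472156890 (.cons 0x2154368790 .nil))) (.node 0 3 (.cons 0x9865127430 .nil) (.leaf 0x3068972154 5 (.leaf 0x1568903472 5 (.leaf 0x9865127430 2 .done))) .done) (.node 4 6 (.cons 0x8790123645 (.cons 0x5468970123 .nil)) .done (.leaf 0x3217098654 10 (.leaf 0x2345689071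 11 .done)))) .done) .done)) (.node 2 7 (.cons 0x3456098721 .nil) (.node 3 9 (.cons 0x1278934560 .nil) (.leaf 0x2106543987 7 (.node 3 7 .nil (.node 2 6 (.cons 0x8712609345 (.cons 0x8901265473 .nil)) (.leaf 0x1098734562 1 (.node 2 8 (.cons 0x9012874563 .nil) (.leaf 0x3456098217 8 (.leaf 0x128745639 10 .done)) .done)) .done) (.leaf 0x654398721 2 .done))) (.node 1 5 (.cons 0x6098721543 .nil) (.node 0 7 .nil (.node 2 9 (.cons 0x8712906543 .nil) (.node 3 8 (.cons 0x1543892760 (.cons 0x7065438921 (.cons 0x6512983470 (.cons 0x6072983451 .nil)))) (.leaf 0x6729834510 11 .done) (.leaf 0x6078921543 2 .done)) .done) (.leaf 0x4512789063 11 (.leaf 0x7215436098 8 .done))) .done)) .done)) .done))) (.node 2 5 (.cons 0x6098712543 .nil) (.node 7 9 (.cons 0x8790123654 .nil) (.node 0 7 .nil (.node 1 3 (.cons 0x7890654312 (.cons 0x9870654312 (.cons 0x8970652134 (.cons 0x9870652134 .nil)))) .done (.node 2 7 (.cons 0x3456098721 .nil) (.node 5 7 .nil (.node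 2 8 (.cons 0x9012874563 (.cons 0x9063457821 .nil)) (.leaf 0x4571289063 5 .done) .done) .done) .done)) (.node 5 7 .nil (.node 2 8 (.cons 0x9012874563 (.cons 0x9063457821 .nil)) (.leaf 0x4571289063 5 (.leaf 0x4571289063 3 .done)) (.node 2 7 (.cons 0x3456098721 .nil) (.node 0 7 .nil (.node 6 9 (.cons 0x3452178960 (.cons 0x8960712543 .nil)) (.leaf 0x8701234569 10 .done) .done) .done) .done)) .done)) (.node 7 9 (.cons 0x8790123654 .nil) (.node 3 7 .nil (.node 2 4 (.cons 0x3245678901 .nil) (.leaf 0x5637890124 11 (.node 5 8 (.cons 0x9063458712 (.cons 0x1243798560 (.cons 0x8563790124 (.cons 0x6098542173 .nil)))) (.leaf 0x7985601243 8 .done) (.leaf 0x1098736542 10 .done))) (.node 2 7 (.cons 0x3456098721 .nil) (.node 5 7 .nil (.node 4 6 (.cons 0x6457890123 .nil) (.leaf 0x8901234657 10 (.leaf 0x9875643210 3 (.leaf 0x9875643210 11 .done))) .done) .done) .done)) (.node 5 7 .nil (.node 4 6 (.cons 0x6457890123 .nil) (.leaf 0x8901234657 10 (.leaf 0x9875643210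 3 (.leaf 0x9875643210 11 .done))) (.node 2 7 (.cons 0x3456098721 .nil) (.node 3 7 .nil (.node 2 4 (.cons 0x3245678901 .nil) (.leaf 0x5637890124 11 (.node 1 8 (.cons 0x4563218790 (.cons 0x3798124560 (.cons 0x9812437560 (.cons 0x8124563790 .nil)))) .done (.leaf 0x1098736542 10 .done))) .done) .done) .done)) .done)) (.leaf 0x4521789063 11 (.leaf 0x1789063452 10 .done)))) (.node 7 9 (.cons 0x8790123654 .nil) (.node 3 7 .nil (.node 2 4 (.cons 0x3245678901 .nil) (.leaf 0x5637890124 11 (.node 1 6 (.cons 0x5437890612 .nil) (.node 0 5 (.cons 0x6509871234 (.cons 0x8790543216 .nil)) (.leaf 0x3450987612 10 (.leaf 0x8905612347 10 .done)) (.leaf 0x5423789016 7 (.leaf 0x3245610987 0 .done))) (.node 5 8 (.cons 0x8542367901 (.cons 0x6012458973 (.cons 0x8542109736 (.cons 0x6589017324 .nil)))) (.leaf 0x124589736 5 .done) (.leaf 0x1098736542 10 .done)))) (.node 3 5 (.cons 0x4356098712 .nil) (.node 2 8 (.cons 0x6534712890 .nil) (.leaf 0x1743560982 7 (.leaf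 0x9821743560 0 (.leaf 0x9065347128 7 (.leaf 0x5609821743 0 .done)))) (.node 4 6 (.cons 0x5643217890 .nil) (.node 2 4 (.cons 0x3245678901 .nil) (.leaf 0x6098712435 8 (.leaf 0x6098712435 9 (.node 0 5 (.cons 0x9871234650 .nil) (.node 1 5 (.cons 0x8790634512 .nil) (.leaf 0x4236789015 10 (.leaf 0x2451098763 8 (.leaf 0x987632451 11 .done))) (.leaf 0x3217890564 9 .done)) .done))) (.node 2 8 (.cons 0x2897354601 .nil) (.leaf 0x1064537982 3 (.leaf 0x3546012897 1 (.leaf 0x1098235647 2 (.leaf 0x7465328901 5 .done)))) .done)) .done)) .done)) (.node 4 8 (.cons 0x1236548790 .nil) (.node 4 6 (.cons 0x5643217890 .nil) (.node 0 7 (.cons 0x8907123465 .nil) (.node 5 8 (.cons 0x7123465890 .nil) (.leaf 0x1234658907 7 (.leaf 0x1234658907 1 (.leaf 0x1234658907 10 .done))) (.node 5 8 (.cons 0x7123465890 .nil) (.leaf 0x4321709856 0 (.node 0 5 (.cons 0x3217984650 .nil) (.leaf 0x6432178905 1 (.node 0 3 (.cons 0x5648971230 .nil) (.leaf 0x8971230564 10 (.leaf 0x7984650321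 6 .done)) .done)) (.leaf 0x2170985643 8 .done))) .done)) .done) (.node 5 9 (.cons 0x2367845901 .nil) (.leaf 0x954876321 11 (.leaf 0x8459012367 8 (.node 3 5 (.cons 0x4356098712 .nil) (.node 2 9 (.cons 0x1297845360 .nil) (.node 0 8 (.cons 0x6534712980 .nil) (.leaf 0x8921743560 2 (.leaf 0x7435608921 5 .done)) (.leaf 0x6354879210 9 (.leaf 0x6354879210 8 .done))) (.node 2 4 (.cons 0x3245678901 .nil) (.leaf 0x1765324890 8 (.leaf 0x8710956324 4 (.leaf 0x6710984235 4 .done))) .done)) .done))) (.leaf 0x8456321097 1 .done))) .done)) .done))))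
noncomputable def tc9_12_3 : T := (.node 3 9 (.cons 0x6547893210 .nil) (.leaf 0x4560123987 10 (.leaf 0x9874560123 3 (.leaf 0x5478932106 5 (.node 4 6 .nil (.node 3 5 (.cons 0x2354678901 .nil) (.leaf 0x2109876453 1 (.node 0 7 (.cons 0x9870123546 (.cons 0x9870123564 .nil)) (.node 4 9 (.cons 0x6549870123 .nil) (.leaf 0x6532107894 4 (.leaf 0x3210789456 4 (.leaf 0x5321078946 0 .done))) (.node 4 9 (.cons 0x7894653210 .nil) (.node 6 9 (.cons 0x8709654321 .nil) (.leaf 0x1235469870 6 (.leaf 0x1235469870 4 .done)) (.leaf 0x1235649870 6 (.leaf 0x1235649870 7 .done))) .done)) (.leaf 0x1235647890 8 .done))) (.node 2 4 (.cons 0x3245678901 .nil) (.node 1 6 (.cons 0x2398745610 .nil) (.node 0 2 (.cons 0x6547893201 .nil) (.leaf 0x239874561 5 (.leaf 0x8932016547 9 (.node 1 4 (.cons 0x5678902341 .nil) (.node 2 6 (.cons 0x5410987623 .nil) (.node 2 7 (.cons 0x3456098721 .nil) (.node 1 5 (.cons 0x2789345160 .nil) (.leaf 0x5102398746 1 (.leaf 0x4512789063 11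 (.leaf 0x2789345160 4 .done))) .done) .done) (.node 1 5 (.cons 0x4320987651 .nil) (.leaf 0x5102398746 1 (.leaf 0x987651432 10 .done)) .done)) .done))) (.node 6 9 .nil (.node 0 5 (.cons 0x9874321650 .nil) (.leaf 0x7896501234 11 (.leaf 0x7896501234 5 (.leaf 0x3478905612 11 .done))) (.node 6 8 (.cons 0x7865423901 .nil) (.node 2 6 .nil (.node 0 5 (.cons 0x9874321650 .nil) (.leaf 0x2398745016 8 (.leaf 0x2398745016 9 (.leaf 0x3478905612 11 .done))) .done) .done) .done)) .done)) (.node 1 5 (.cons 0x6789015423 .nil) (.leaf 0x4236789015 10 (.node 4 9 .nil (.node 3 7 (.cons 0x8734906512 .nil) (.leaf 0x5601237894 11 (.leaf 0x7894560123 3 .done)) (.node 1 4 .nil (.node 0 2 (.cons 0x6547893201 (.cons 0x5678902341 .nil)) (.leaf 0x1456789320 9 (.leaf 0x3415678902 8 .done)) .done) .done)) (.leaf 0x2451098763 8 (.leaf 0x987632451 11 .done)))) .done)) .done)) .done)))) (.node 1 7 (.cons 0x6543217890 .nil) (.leaf 0x2345609871 5 (.node 2 5 (.cons 0x6098712543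 .nil) (.node 0 7 .nil (.node 6 9 (.cons 0x3452178960 (.cons 0x8960712543 .nil)) (.leaf 0x8701234569 10 (.node 1 8 (.cons 0x3218745690 .nil) (.leaf 0x7654321890 1 (.leaf 0x781234569 8 (.leaf 0x7096543218 10 .done))) .done)) (.node 2 7 (.cons 0x3456098721 .nil) (.node 7 9 (.cons 0x8790123654 .nil) (.node 5 7 .nil (.node 2 8 (.cons 0x9063457821 .nil) (.leaf 0x4571289063 11 (.leaf 0x4571289063 5 .done)) .done) .done) .done) .done)) (.node 0 7 .nil (.node 1 8 (.cons 0x9078123456 .nil) (.leaf 0x6543218907 3 (.leaf 0x7654321890 1 (.node 4 9 (.cons 0x1876523490 (.cons 0x5634907812 (.cons 0x6523490781 .nil))) (.leaf 0x1236549078 3 (.leaf 0x3210789456 4 .done)) (.node 6 9 (.cons 0x8745690123 .nil) (.leaf 0x4569078123 10 (.leaf 0x8701234569 10 (.leaf 0x7096543218 10 .done))) .done)))) (.node 3 7 .nil (.node 2 4 (.cons 0x3245678901 .nil) (.leaf 0x5637890124 11 (.node 5 8 (.cons 0x9063458712 (.cons 0x9856073421 (.cons 0x6589073421 (.cons 0x6098542173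 .nil)))) (.leaf 0x7124589063 11 .done) (.leaf 0x1098736542 10 .done))) (.node 2 7 (.cons 0x3456098721 .nil) (.node 7 9 (.cons 0x8790123654 .nil) (.node 5 7 .nil (.node 4 6 (.cons 0x8907564321 .nil) (.leaf 0x8901234657 10 (.leaf 0x9875643210 3 .done)) .done) .done) .done) .done)) .done)) (.leaf 0x4521789063 11 (.leaf 0x1789063452 10 .done)))) (.node 4 6 (.cons 0x5643217890 .nil) (.node 2 4 (.cons 0x3245678901 .nil) (.node 0 7 .nil (.node 6 8 (.cons 0x9078654321 .nil) (.leaf 0x5432170986 5 (.node 5 9 (.cons 0x1234786590 (.cons 0x8956432170 .nil)) (.leaf 0x7895643210 8 (.leaf 0x7865901234 9 (.leaf 0x4632107895 0 .done))) (.leaf 0x9071234568 8 .done))) (.node 3 7 .nil (.node 4 9 (.cons 0x8736549012 .nil) (.leaf 0x5601237894 11 (.leaf 0x8732106549 10 (.node 5 8 (.cons 0x4901785632 (.cons 0x6589423710 (.cons 0x8563710942 (.cons 0x9856423710 .nil)))) (.leaf 0x9423710658 8 .done) .done))) (.node 3 5 (.cons 0x4356098712 .nil) (.node 1 3 (.cons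 0x7890654312 .nil) (.node 2 7 (.cons 0x3456098721 .nil) (.leaf 0x987213456 9 .done) .done) (.leaf 0x6098712435 9 .done)) .done)) .done)) (.node 1 5 (.cons 0x6789015423 .nil) (.leaf 0x4236789015 10 (.node 0 5 (.cons 0x9871234650 .nil) (.leaf 0x3217890564 9 (.node 3 5 (.cons 0x4356098712 .nil) (.leaf 0x1789065342 9 (.node 2 8 (.cons 0x5342890671 .nil) (.node 5 8 (.cons 0x9853246710 .nil) (.leaf 0x4358906712 10 (.leaf 0x3246710985 8 .done)) (.leaf 0x4356098217 4 (.leaf 0x5176098243 1 .done))) .done)) .done)) (.leaf 0x2451098763 8 (.leaf 0x987632451 11 .done)))) .done)) (.node 0 7 (.cons 0x8907123465 .nil) (.node 5 8 (.cons 0x7123465890 .nil) (.leaf 0x7123465890 4 (.leaf 0x4321709856 0 (.node 3 7 (.cons 0x4658901732 .nil) (.node 0 5 (.cons 0x6509871234 .nil) (.leaf 0x6432178905 1 (.node 3 5 (.cons 0x4356098712 .nil) .done .done)) .done) (.leaf 0x2170985643 8 .done)))) .done) .done)) (.node 5 7 .nil (.node 4 6 (.cons 0x6457890123 .nil) (.leaf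 0x8901234657 10 (.leaf 0x9875643210 3 (.leaf 0x9875643210 11 .done))) (.node 3 7 .nil (.node 2 4 (.cons 0x3245678901 .nil) (.leaf 0x5637890124 11 (.node 3 8 (.cons 0x9837542106 (.cons 0x9837560124 .nil)) (.leaf 0x1765423890 1 (.node 2 9 (.cons 0x6547832901 (.cons 0x4298375601 .nil)) (.leaf 0x3892456017 10 (.leaf 0x7836542901 1 .done)) .done)) (.leaf 0x1098736542 10 .done))) (.node 1 5 (.cons 0x6098734512 .nil) (.node 2 5 (.cons 0x6098734521 .nil) (.node 1 8 (.cons 0x2543760981 .nil) (.leaf 0x6734521890 1 (.node 7 9 (.cons 0x5436097812 .nil) (.leaf 0x4360978125 3 (.leaf 0x4360978125 5 .done)) (.node 2 4 (.cons 0x3425671890 .nil) (.leaf 0x2437609815 1 (.node 3 9 (.cons 0x1893425760 .nil) (.leaf 0x7601893425 8 (.leaf 0x675243981 4 (.leaf 0x4390678152 11 .done))) .done)) .done))) (.node 2 7 (.cons 0x3456098721 .nil) (.node 0 7 .nil (.node 2 6 (.cons 0x3456217890 (.cons 0x8907126543 .nil)) (.leaf 0x1543789062 1 .done) .done) .done) .done))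 (.node 0 7 .nil (.node 6 8 (.cons 0x4510986732 (.cons 0x9860734512 (.cons 0x7098651234 (.cons 0x6890732154 .nil)))) .done (.node 2 7 (.cons 0x3456098721 .nil) (.node 7 9 (.cons 0x8790123654 .nil) .done .done) .done)) .done)) (.node 7 9 (.cons 0x8790123654 .nil) (.node 0 7 .nil (.node 2 7 (.cons 0x3456098721 .nil) (.node 1 3 (.cons 0x7890654312 (.cons 0x9870654312 .nil)) (.node 2 8 (.cons 0x5436097821 (.cons 0x9823107654 (.cons 0x9821345706 .nil))) (.leaf 0x8213456079 5 .done) (.leaf 0x987213456 9 .done)) .done) .done) (.node 2 7 (.cons 0x3456098721 .nil) (.node 1 5 (.cons 0x4378906512 .nil) (.node 2 4 (.cons 0x3245678901 .nil) (.node 0 7 .nil (.node 5 9 (.cons 0x1243789560 (.cons 0x8956073421 .nil)) (.leaf 0x8734210659 10 (.leaf 0x7895601243 8 .done)) .done) (.leaf 0x1560987342 5 .done)) (.leaf 0x4512789063 11 .done)) .done) .done)) .done))) (.node 7 9 (.cons 0x8790123654 .nil) (.node 2 7 (.cons 0x3456098721 .nil) (.node 3 9 (.cons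 0x1278934560 .nil) (.leaf 0x2106543987 7 (.node 3 7 .nil (.node 1 9 (.cons 0x8912734560 .nil) (.node 0 4 (.cons 0x5604398721 (.cons 0x8910456723 (.cons 0x8754091236 (.cons 0x6540198723 .nil)))) .done .done) .done) (.leaf 0x654398721 2 .done))) (.node 0 7 .nil (.node 1 8 (.cons 0x5436097812 .nil) (.leaf 0x7654321890 1 (.node 4 6 (.cons 0x8790123645 (.cons 0x6457098123 .nil)) (.leaf 0x4570981236 2 .done) (.node 6 9 (.cons 0x8745690123 (.cons 0x8123470965 .nil)) (.leaf 0x8701234569 10 (.leaf 0x781234569 8 .done)) .done))) .done) .done)) (.node 2 7 (.cons 0x3456098721 .nil) (.node 3 9 (.cons 0x1278934560 .nil) (.leaf 0x2106543987 7 (.node 3 7 .nil (.node 1 9 (.cons 0x8912734560 .nil) (.node 0 4 (.cons 0x8910456723 (.cons 0x8754091236 (.cons 0x6540198723 .nil))) (.leaf 0x5632789104 7 .done) .done) .done) (.leaf 0x654398721 2 .done))) (.node 0 7 .nil (.node 1 8 (.cons 0x9078123456 .nil) (.leaf 0x6543218907 3 (.leaf 0x7654321890 1 (.node 4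 6 (.cons 0x6457098123 .nil) (.leaf 0x9812364570 5 (.leaf 0x4570981236 2 .done)) (.node 6 9 (.cons 0x8745690123 (.cons 0x8123470965 .nil)) (.leaf 0x781234569 8 .done) .done)))) .done) .done)) .done)) .done))) .done)))) (.leaf 0x8901236547 1 (.node 1 7 (.cons 0x6543217890 .nil) tc9_12_2 .done))))
noncomputable def tc9_12_4 : T := (.node 3 8 (.cons 0x9012387456 .nil) (.leaf 0x3210965478 2 (.node 5 8 (.cons 0x2385476901 .nil) (.node 1 8 (.cons 0x5476901832 .nil) (.node 0 7 (.cons 0x9658123470 .nil) (.node 1 9 (.cons 0x2385476910 .nil) (.node 4 9 (.cons 0x2367854910 .nil) (.leaf 0x1078549632 8 (.leaf 0x3210785496 0 .done)) (.leaf 0x4785609123 10 .done)) (.leaf 0x1856907432 11 .done)) (.node 2 5 (.cons 0x8325476901 .nil) (.leaf 0x967452381 6 (.leaf 0x967452381 7 (.leaf 0x967452381 4 .done))) .done)) (.leaf 0x4769012385 7 (.node 1 9 (.cons 0x2347856091 .nil) (.leaf 0x8743219065 3 (.leaf 0x5874321906 1 (.node 2 6 (.cons 0x7458326901 .nil) (.node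 1 6 .nil (.node 2 4 (.cons 0x3245678901 (.cons 0x7610983245 (.cons 0x9016324587 .nil))) .done .done) (.node 1 7 (.cons 0x1745832690 .nil) (.leaf 0x3217890654 10 (.leaf 0x3854710962 5 (.leaf 0x8326901745 10 .done))) .done)) .done))) (.leaf 0x9674583210 0 .done)))) (.node 4 6 (.cons 0x9012387465 .nil) (.node 5 9 (.cons 0x9564783210 .nil) (.leaf 0x7832109564 8 (.leaf 0x3874659012 9 (.node 1 6 (.cons 0x4783216590 .nil) (.node 1 7 (.cons 0x6543217890 .nil) (.leaf 0x3217890654 10 (.node 0 3 (.cons 0x6459871230 .nil) (.leaf 0x9871230645 7 (.leaf 0x9871230645 10 (.leaf 0x7895460321 6 .done))) (.node 1 9 (.cons 0x8743219065 .nil) (.node 0 5 (.cons 0x9871234650 .nil) (.node 1 4 (.cons 0x2387641950 .nil) (.node 1 5 (.cons 0x7890651234 .nil) (.leaf 0x3215609874 10 .done) .done) (.leaf 0x3217890564 9 (.leaf 0x6478321950 2 (.leaf 0x3874605912 5 .done)))) .done) .done))) .done) .done))) (.node 3 9 (.cons 0x5647839012 .nil) (.node 3 7 .nil (.node 2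 4 (.cons 0x3245678901 (.cons 0x7389012465 .nil)) (.leaf 0x5637890124 11 (.leaf 0x1098736542 10 .done)) (.node 4 9 (.cons 0x6549873210 .nil) (.leaf 0x1237894560 1 .done) .done)) (.node 1 6 (.cons 0x8745610932 .nil) (.node 2 6 (.cons 0x8745623901 .nil) (.node 1 8 (.cons 0x1874562390 .nil) (.leaf 0x932654781 2 (.node 2 5 (.cons 0x7438125690 .nil) (.leaf 0x1874390652 3 (.leaf 0x8390125647 11 (.leaf 0x8746521093 5 .done))) .done)) .done) .done) .done)) .done)) (.leaf 0x965478321 7 .done)))) (.node 3 8 (.cons 0x3874569012 .nil) (.node 6 8 .nil (.node 5 9 (.cons 0x9560123874 .nil) (.leaf 0x2109547863 9 (.leaf 0x7865901234 9 (.node 4 9 (.cons 0x1238749560 (.cons 0x7863210945 .nil)) (.leaf 0x3210659478 10 (.leaf 0x2387495601 3 .done)) .done))) (.node 5 8 (.cons 0x9065874321 .nil) (.node 1 9 (.cons 0x3478560912 .nil) (.node 0 7 (.cons 0x9123865470 .nil) (.leaf 0x8321907456 5 (.node 1 5 (.cons 0x7890651234 .nil) (.leaf 0x3215609874 10 (.node 2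 5 (.cons 0x7065219834 .nil) (.leaf 0x652198347 8 (.leaf 0x6074389125 10 (.node 5 9 (.cons 0x8347065912 .nil) (.node 2 8 (.cons 0x2834706591 .nil) (.leaf 0x6074382195 4 (.leaf 0x6074382195 1 .done)) .done) .done))) .done)) .done)) (.leaf 0x2347856091 5 (.node 1 8 .nil (.node 0 2 (.cons 0x9023456781 (.cons 0x7654320981 (.cons 0x7812096345 .nil))) (.leaf 0x3476581902 3 .done) (.node 1 3 (.cons 0x9065874312 .nil) (.node 2 8 (.cons 0x2856743190 .nil) (.node 0 8 (.cons 0x7431280965 .nil) (.node 4 8 (.cons 0x7654890132 .nil) .done .done) .done) .done) .done)) .done))) (.node 1 9 (.cons 0x2347856091 .nil) (.node 0 7 (.cons 0x9123865470 .nil) (.leaf 0x8321907456 5 (.node 0 8 (.cons 0x7456809123 .nil) (.node 2 5 (.cons 0x7809634521 .nil) (.leaf 0x652198347 8 (.leaf 0x6910832547 1 (.leaf 0x6074389125 10 (.node 1 3 (.cons 0x2547691380 .nil) (.leaf 0x2547680913 5 (.leaf 0x9086745231 8 .done)) .done)))) .done) .done)) (.leaf 0x8743219065 3 (.leaf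 0x5874321906 1 .done))) .done)) .done)) (.leaf 0x2109654783 2 (.leaf 0x6901238745 5 (.node 1 6 (.cons 0x9016547832 .nil) (.node 2 9 (.cons 0x9238745610 .nil) (.leaf 0x5478329016 10 (.leaf 0x5478329016 4 (.leaf 0x5478329016 1 (.node 2 6 .nil (.node 1 3 (.cons 0x4567890132 (.cons 0x5478310962 .nil)) (.leaf 0x4562901387 6 (.leaf 0x132654789 7 .done)) (.node 4 6 .nil (.node 1 5 (.cons 0x4783290651 .nil) (.leaf 0x3874651092 10 (.leaf 0x3874651092 7 (.leaf 0x5647832901 4 .done))) .done) .done)) .done)))) (.node 1 9 (.cons 0x8743219065 .nil) (.node 5 8 (.cons 0x9065874321 .nil) (.node 4 9 (.cons 0x2367854910 .nil) (.node 3 7 (.cons 0x7321065894 .nil) (.leaf 0x3210658947 4 (.leaf 0x5601237498 1 (.leaf 0x5601237498 7 .done))) (.node 0 2 (.cons 0x7854369120 .nil) (.leaf 0x1945876320 7 (.leaf 0x5491023678 0 (.leaf 0x3678549102 7 .done))) .done)) (.leaf 0x2347856091 5 (.leaf 0x2190658743 11 .done))) (.node 2 9 (.cons 0x6547832901 .nil) (.node 1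 7 (.cons 0x6543217890 .nil) (.leaf 0x3217890654 10 (.node 6 8 (.cons 0x5687432190 .nil) (.leaf 0x923865471 5 (.leaf 0x923865471 3 .done)) (.node 2 4 (.cons 0x3245678901 .nil) (.node 0 3 (.cons 0x9876542301 .nil) (.leaf 0x4567103892 8 (.node 0 7 (.cons 0x9832456107 .nil) .done .done)) (.leaf 0x3871092456 7 .done)) .done))) (.leaf 0x923874561 0 (.leaf 0x3874561092 7 .done))) .done)) .done)) .done)))) (.node 3 8 (.cons 0x1238745690 .nil) (.node 6 8 .nil (.node 5 9 (.cons 0x9560123874 .nil) (.leaf 0x2109547863 9 (.leaf 0x5901236874 5 (.leaf 0x7865901234 9 .done))) (.node 1 8 (.cons 0x3218745690 .nil) (.node 4 8 (.cons 0x9012365487 .nil) (.node 0 8 .nil (.node 1 7 (.cons 0x6543217890 .nil) (.leaf 0x3217890654 10 (.leaf 0x871234569 8 (.leaf 0x4569083217 6 .done))) .done) .done) (.node 0 3 (.cons 0x8745690321 .nil) (.leaf 0x6903218745 8 (.leaf 0x2187456903 11 (.leaf 0x9654781230 10 .done))) .done)) .done)) (.leaf 0x2387456901 7 (.node 6 8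 .nil (.node 5 9 (.cons 0x6590123874 .nil) (.leaf 0x2109547863 9 (.leaf 0x5901236874 5 (.leaf 0x7865901234 9 .done))) (.node 1 8 (.cons 0x3218745690 .nil) (.node 0 3 (.cons 0x8745690321 .nil) (.leaf 0x2309654781 0 (.node 0 7 .nil (.node 1 9 (.cons 0x5478691230 (.cons 0x8691230745 .nil)) (.leaf 0x5432190786 5 (.leaf 0x4568709123 10 .done)) (.node 2 6 (.cons 0x9078126345 .nil) (.node 5 7 (.cons 0x4578123690 .nil) (.leaf 0x4362189075 7 (.leaf 0x981263457 7 .done)) .done) .done)) (.leaf 0x9654781230 7 .done))) (.node 0 3 (.cons 0x8745690321 .nil) (.leaf 0x965478123 4 (.leaf 0x7456903218 10 (.node 2 6 .nil (.node 1 5 (.cons 0x4783215690 .nil) (.leaf 0x3215609874 10 (.leaf 0x2678901543 9 (.leaf 0x2678901543 8 .done))) (.node 1 6 .nil (.node 2 9 (.cons 0x5609218743 (.cons 0x9230168745 (.cons 0x5618743092 .nil))) .done .done) .done)) .done))) .done)) (.node 1 8 (.cons 0x3218745690 .nil) (.node 0 3 (.cons 0x9654781230 .nil) (.node 0 7 (.cons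 0x7032189654 .nil) (.node 1 3 (.cons 0x4567890132 .nil) (.node 0 2 (.cons 0x5478690213 .nil) (.node 7 9 (.cons 0x3456879021 .nil) (.leaf 0x2097865431 8 (.leaf 0x213456879 10 .done)) .done) .done) (.leaf 0x1896547032 7 .done)) (.leaf 0x4781230965 8 (.leaf 0x9654781230 4 .done))) (.node 0 3 (.cons 0x8745690321 .nil) (.leaf 0x2309654781 0 (.node 3 7 .nil (.node 1 4 (.cons 0x8901456732 (.cons 0x5609873412 .nil)) (.leaf 0x9873214560 10 (.leaf 0x9873214560 4 .done)) (.node 1 3 (.cons 0x5478690312 .nil) (.node 0 7 (.cons 0x7098654312 .nil) (.node 2 7 (.cons 0x7213456890 .nil) (.leaf 0x2134568907 3 (.leaf 0x5431270986 5 (.leaf 0x5689072134 11 .done))) .done) .done) .done)) (.leaf 0x9654781230 7 .done))) .done)) .done))) (.leaf 0x7456901238 6 .done)))) .done)))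
noncomputable def tc9_12_5 : T := (.node 4 8 (.cons 0x9012365487 .nil) (.node 5 9 (.cons 0x1234789560 .nil) (.leaf 0x954876321 11 (.leaf 0x8459012367 8 (.leaf 0x7895601234 8 (.leaf 0x4876321095 10 .done)))) (.node 4 6 .nil (.node 5 7 (.cons 0x5789064321 .nil) (.leaf 0x8901234657 10 (.node 1 5 (.cons 0x9874321560 .nil) (.leaf 0x1234609875 4 (.node 3 7 (.cons 0x7348906512 (.cons 0x8901546732 .nil)) (.node 2 5 (.cons 0x9012563784 .nil) (.leaf 0x8467325109 5 (.leaf 0x9846732510 7 .done)) .done) (.leaf 0x4609875123 6 .done))) (.leaf 0x9875643210 8 (.node 1 5 (.cons 0x9874321560 .nil) (.leaf 0x2346098751 0 (.leaf 0x643215789 8 (.node 0 8 (.cons 0x9806512347 (.cons 0x9087546321 .nil)) (.node 3 7 (.cons 0x7348906512 (.cons 0x8901546732 (.cons 0x9801564732 .nil))) .done .done) (.leaf 0x4609875123 4 .done)))) .done)))) (.node 2 4 (.cons 0x3245678901 .nil) (.node 1 4 .nil (.node 3 5 (.cons 0x9874106532 .nil) (.leaf 0x6789014235 8 (.node 2 7 (.cons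 0x9012784563 .nil) (.node 1 5 (.cons 0x8906723415 .nil) (.leaf 0x3215609874 8 (.leaf 0x6098723415 3 .done)) (.leaf 0x4127890653 8 (.leaf 0x8906534127 11 .done))) (.leaf 0x2410987653 5 .done))) (.node 1 8 (.cons 0x9018765423 .nil) (.node 3 9 (.cons 0x6547893210 .nil) (.leaf 0x7654239018 4 (.leaf 0x7654239018 7 (.leaf 0x7654239018 10 (.leaf 0x7654239018 1 .done)))) (.node 4 9 (.cons 0x5678109423 .nil) (.node 0 4 .nil (.node 2 5 (.cons 0x6789014523 (.cons 0x7652340981 (.cons 0x9041876325 .nil))) (.leaf 0x2541098763 5 .done) .done) .done) .done)) .done)) (.node 1 5 (.cons 0x9874321560 .nil) (.leaf 0x4236789015 10 (.leaf 0x3215609874 8 (.leaf 0x2451098763 8 (.leaf 0x987632451 11 .done)))) .done)) .done)) (.node 2 4 (.cons 0x3245678901 .nil) (.node 0 2 .nil (.node 1 9 (.cons 0x5602198743 .nil) (.leaf 0x3654789102 1 (.leaf 0x6543201987 10 (.leaf 0x5678910234 5 (.leaf 0x9876543201 3 .done)))) (.node 2 9 (.cons 0x7845632901 .nil) (.node 1 7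 (.cons 0x6543217890 .nil) (.node 1 5 (.cons 0x9874321560 .nil) (.node 2 5 (.cons 0x9065234871 .nil) (.node 5 7 (.cons 0x9236015784 .nil) (.node 5 8 (.cons 0x4587632901 .nil) .done .done) .done) (.leaf 0x4329065178 10 (.leaf 0x1784329065 3 .done))) (.node 1 8 (.cons 0x7654320981 .nil) (.leaf 0x2345671890 6 (.leaf 0x4320981765 4 (.leaf 0x4320981765 7 .done))) (.leaf 0x923654871 11 (.leaf 0x4871092365 8 .done)))) (.node 1 7 (.cons 0x6543217890 .nil) (.node 1 5 (.cons 0x9874321560 .nil) (.node 2 5 (.cons 0x9065234871 .nil) (.node 5 7 (.cons 0x4875632901 .nil) (.node 5 8 (.cons 0x9065871234 .nil) .done .done) .done) (.node 0 3 (.cons 0x8923015674 .nil) (.leaf 0x9230156748 10 (.node 1 6 (.cons 0x5617843290 .nil) (.leaf 0x329874561 8 (.leaf 0x5478923016 5 .done)) .done)) (.leaf 0x5178432906 1 .done))) (.leaf 0x8710923654 0 (.node 1 8 (.cons 0x7654320981 .nil) (.leaf 0x2345671890 10 (.node 1 3 (.cons 0x4567890132 .nil) (.leaf 0x2456789013 1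 (.node 5 7 (.cons 0x6574892310 .nil) (.leaf 0x6013298475 5 (.node 0 8 (.cons 0x6574312980 .nil) (.leaf 0x4312980657 9 .done) (.leaf 0x4892310657 8 .done))) .done)) (.leaf 0x3209817654 5 .done))) (.leaf 0x6548710923 0 .done)))) (.node 1 7 (.cons 0x1784563290 .nil) (.leaf 0x3654871092 1 (.leaf 0x3654871092 7 (.leaf 0x3654871092 10 (.leaf 0x7845632901 4 .done)))) .done))) (.node 0 8 .nil (.node 1 9 (.cons 0x7432198065 .nil) (.leaf 0x7654321908 1 (.leaf 0x5632190874 5 (.leaf 0x5632190874 3 (.leaf 0x6547809123 10 .done)))) (.node 0 7 .nil (.node 6 9 (.cons 0x8965470123 .nil) (.leaf 0x5698701234 11 (.leaf 0x7896543210 8 (.node 0 3 (.cons 0x8965470321 .nil) (.node 1 8 (.cons 0x9018765423 (.cons 0x9654230781 .nil)) (.leaf 0x7456981230 10 (.leaf 0x7456981230 7 .done)) .done) .done))) (.node 6 8 (.cons 0x9078654321 .nil) (.node 1 9 (.cons 0x9123456870 .nil) (.node 5 7 (.cons 0x1986754320 .nil) (.leaf 0x9867543201 9 (.leaf 0x6089123475 7 .done))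 (.leaf 0x5432190786 3 (.leaf 0x5432190786 5 (.leaf 0x4568709123 10 .done)))) (.node 1 9 (.cons 0x4568709123 .nil) (.leaf 0x2190786543 11 (.node 0 4 (.cons 0x7863219045 .nil) (.node 0 5 (.cons 0x9123687450 .nil) (.leaf 0x8632190547 9 .done) .done) (.leaf 0x7091234568 8 (.leaf 0x786543219 10 .done)))) .done)) .done)) .done)) .done))) (.node 4 6 .nil (.node 1 3 (.cons 0x4567890132 (.cons 0x5467890132 .nil)) (.node 3 5 (.cons 0x2354678901 .nil) (.leaf 0x2109876453 1 (.leaf 0x1235647890 8 (.node 5 9 (.cons 0x1234789560 .nil) (.leaf 0x647895321 6 (.node 3 7 (.cons 0x7310659842 (.cons 0x8736459012 .nil)) (.node 3 8 (.cons 0x6598374210 (.cons 0x7836459012 .nil)) .done .done) (.leaf 0x647895321 4 .done))) .done))) (.node 2 7 (.cons 0x8901327654 (.cons 0x8901327645 (.cons 0x7231098465 .nil))) (.leaf 0x2310984567 3 (.leaf 0x9845672310 11 .done)) (.leaf 0x987654231 8 .done))) (.node 4 9 .nil (.node 5 7 (.cons 0x8756094321 .nil) (.leaf 0x6578943210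 11 (.leaf 0x8490123657 5 (.node 1 4 (.cons 0x8756094123 .nil) (.node 5 9 (.cons 0x1234789560 .nil) (.leaf 0x3609578412 6 (.leaf 0x7590632148 7 (.leaf 0x7895601234 8 .done))) .done) .done))) (.node 2 9 (.cons 0x7845632901 .nil) (.node 1 4 (.cons 0x7841092365 .nil) (.node 0 4 .nil (.node 1 5 (.cons 0x9874321560 (.cons 0x1567892340 .nil)) (.leaf 0x5104789236 5 (.leaf 0x478923651 9 .done)) .done) .done) (.node 1 7 (.cons 0x1784563290 .nil) (.leaf 0x3654871092 1 (.leaf 0x3654871092 7 (.leaf 0x3654871092 10 (.leaf 0x7845632901 4 .done)))) .done)) .done)) .done)) (.node 1 5 (.cons 0x9874321560 .nil) (.leaf 0x4236789015 10 (.leaf 0x3215609874 8 (.leaf 0x2451098763 8 (.leaf 0x987632451 11 .done)))) .done))) .done))) (.node 6 9 (.cons 0x8745690123 .nil) tc9_12_4 (.leaf 0x8901236547 1 (.node 4 8 (.cons 0x9012365487 .nil) (.node 4 6 .nil (.node 5 7 (.cons 0x5789064321 .nil) (.leaf 0x8901234657 10 (.leaf 0x6578901234 11 (.node 1 5 (.cons 0x3478906512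 .nil) (.leaf 0x1234609875 4 (.leaf 0x1560987432 1 (.leaf 0x4609875123 6 .done))) (.node 1 5 (.cons 0x3478906512 .nil) (.leaf 0x2346098751 0 (.leaf 0x643215789 8 (.leaf 0x1560987432 1 (.leaf 0x4609875123 4 .done)))) .done)))) (.node 2 4 (.cons 0x3245678901 .nil) (.node 1 4 .nil (.node 3 5 (.cons 0x6789014532 .nil) (.leaf 0x6789014235 8 (.leaf 0x8906532147 11 (.leaf 0x2410987653 5 (.node 7 9 (.cons 0x9784563210 (.cons 0x8790142356 (.cons 0x8790653241 .nil))) (.node 5 7 (.cons 0x2357984601 .nil) (.leaf 0x648975321 10 (.leaf 0x648975321 6 (.leaf 0x648975321 4 .done))) .done) .done)))) (.node 4 9 .nil (.node 5 7 (.cons 0x1234987560 (.cons 0x8756094321 .nil)) (.leaf 0x6578943210 11 (.leaf 0x7563210948 1 .done)) (.node 0 4 .nil (.node 7 9 (.cons 0x9784563210 (.cons 0x9784012365 (.cons 0x8790456321 .nil))) (.node 3 9 (.cons 0x8765423901 .nil) (.leaf 0x2104567893 1 (.node 2 5 (.cons 0x3478906521 (.cons 0x6521047893 (.cons 0x7652398401 (.cons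 0x8740936521 .nil)))) .done .done)) .done) .done) .done)) .done)) (.node 1 5 (.cons 0x3478906512 .nil) (.leaf 0x4236789015 10 (.node 1 4 .nil (.node 0 2 (.cons 0x9876541023 .nil) (.leaf 0x9876514320 5 (.node 3 9 (.cons 0x8745639012 (.cons 0x9320148765 .nil)) (.node 2 8 (.cons 0x9065128743 .nil) (.leaf 0x145678239 8 (.leaf 0x9365478210 1 .done)) (.leaf 0x1456789320 8 (.leaf 0x1456789320 9 .done))) (.leaf 0x3415678902 8 .done))) .done) (.leaf 0x2451098763 8 (.leaf 0x987632451 11 .done)))) .done)) .done)) (.node 5 9 (.cons 0x2367845901 .nil) (.leaf 0x954876321 11 (.leaf 0x8459012367 8 (.node 4 9 .nil (.node 5 7 (.cons 0x1234987560 (.cons 0x8756094321 (.cons 0x5784906321 .nil))) (.leaf 0x6578943210 11 .done) (.node 2 4 (.cons 0x3245678901 .nil) (.node 1 3 (.cons 0x9876542310 .nil) (.node 4 6 .nil (.node 0 7 (.cons 0x8945670132 (.cons 0x6459870132 .nil)) (.node 1 7 (.cons 0x6543217890 (.cons 0x8710954632 (.cons 0x3246598710 .nil))) .done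 .done) .done) (.leaf 0x1065987423 4 (.leaf 0x8956013247 10 (.leaf 0x8956013247 6 .done)))) (.node 3 9 (.cons 0x8765423901 .nil) (.node 1 8 (.cons 0x9018765423 .nil) (.leaf 0x7654239018 7 (.leaf 0x7810932456 0 (.leaf 0x4567810932 0 .done))) (.node 1 5 (.cons 0x3478906512 .nil) (.leaf 0x3248765109 10 (.leaf 0x1093248765 3 (.leaf 0x1560987432 1 (.leaf 0x2390156784 5 .done)))) .done)) .done)) .done)) (.leaf 0x4876321095 10 .done)))) (.node 7 9 (.cons 0x2365487901 .nil) (.node 4 9 .nil (.node 1 7 (.cons 0x6543217890 (.cons 0x8712349065 .nil)) (.leaf 0x3217890654 10 (.node 3 7 (.cons 0x6549873210 .nil) (.leaf 0x1237894560 10 .done) .done)) (.node 4 6 (.cons 0x8790123645 .nil) (.node 0 7 .nil (.node 1 8 (.cons 0x9078123456 .nil) (.leaf 0x6543218907 3 (.leaf 0x7654321890 1 (.leaf 0x5632187094 5 (.leaf 0x1236549078 3 (.leaf 0x6549078123 10 .done))))) (.node 1 7 (.cons 0x6543217890 .nil) (.leaf 0x3217890654 10 (.node 1 9 (.cons 0x8709123456 .nil)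 (.node 2 9 (.cons 0x7845632901 .nil) (.node 3 5 (.cons 0x3564789210 .nil) (.leaf 0x784653291 6 (.leaf 0x784653291 7 (.leaf 0x784653291 10 .done))) (.leaf 0x3654871092 10 .done)) .done) .done)) .done)) .done) .done)) (.node 1 7 (.cons 0x6543217890 .nil) (.leaf 0x3217890654 10 (.node 1 5 (.cons 0x3478906512 .nil) (.node 2 9 (.cons 0x4879236510 .nil) (.leaf 0x7843290651 5 (.node 5 8 (.cons 0x9215874360 .nil) (.leaf 0x3609215874 10 (.leaf 0x6347851290 11 .done)) (.leaf 0x3654871092 1 .done))) (.leaf 0x1560987432 1 (.node 2 9 (.cons 0x7845632901 .nil) (.node 1 9 (.cons 0x5609178432 .nil) (.node 4 9 (.cons 0x8712349065 .nil) .done .done) (.leaf 0x1784329065 3 (.leaf 0x3654871092 1 .done))) .done))) (.node 2 9 (.cons 0x7845632901 .nil) (.leaf 0x923654871 0 (.node 3 7 .nil (.node 1 4 (.cons 0x8763290145 (.cons 0x8901456732 .nil)) (.leaf 0x9873214560 4 (.leaf 0x9873214560 1 .done)) (.node 4 9 (.cons 0x6549873210 .nil) (.leaf 0x1237894560 6 .done)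 .done)) (.leaf 0x3654871092 7 .done))) .done))) (.leaf 0x8456321097 1 .done))) .done))) .done))))
noncomputable def tc9_12_6 : T := (.node 4 7 (.cons 0x6547890123 .nil) (.node 1 6 .nil (.node 5 7 (.cons 0x6123457890 .nil) (.leaf 0x1234578906 3 (.leaf 0x1234578906 11 (.leaf 0x2160987543 10 .done))) (.node 6 9 (.cons 0x8745690123 .nil) (.node 1 3 (.cons 0x4567890132 .nil) (.node 1 9 .nil (.node 3 8 (.cons 0x3874569012 .nil) (.leaf 0x9123874560 2 (.leaf 0x2109654783 2 (.leaf 0x6901238745 5 (.leaf 0x9065478321 7 .done)))) (.node 1 8 .nil (.node 0 2 (.cons 0x3456987120 (.cons 0x9023456781 (.cons 0x9817602345 (.cons 0x5690218743 .nil)))) .done (.node 1 4 .nil (.node 3 7 (.cons 0x7345609812 .nil) (.leaf 0x5412378906 3 (.leaf 0x5412378906 5 .done)) .done) .done)) .done)) (.node 4 6 (.cons 0x5467890132 .nil) (.node 0 3 (.cons 0x2178965430 .nil) (.node 0 2 (.cons 0x3456987120 .nil) (.leaf 0x6987120345 7 (.leaf 0x2178965430 4 .done)) (.node 2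 6 (.cons 0x9871032654 .nil) (.node 1 4 (.cons 0x9871456230 .nil) (.node 1 9 (.cons 0x8745623091 .nil) .done (.leaf 0x3265417890 5 .done)) .done) .done)) .done) .done)) (.node 1 8 (.cons 0x3218745690 .nil) (.node 5 7 (.cons 0x4578123690 .nil) (.leaf 0x6098123457 3 (.leaf 0x2189067543 1 .done)) (.node 0 3 (.cons 0x4569871230 .nil) (.leaf 0x7456903218 10 (.leaf 0x7456903218 7 (.node 2 6 (.cons 0x9871032654 .nil) (.node 2 4 (.cons 0x1789654230 .nil) (.node 6 8 (.cons 0x9865423017 .nil) .done (.leaf 0x3017896542 7 .done)) .done) .done))) .done)) .done)) (.node 6 9 (.cons 0x8745690123 .nil) (.node 3 7 (.cons 0x2165437890 .nil) (.node 4 6 .nil (.node 0 5 (.cons 0x4321789650 .nil) (.leaf 0x8732105469 4 (.leaf 0x8732105469 10 (.leaf 0x3789645012 6 .done))) (.node 0 5 (.cons 0x4321789650 .nil) (.leaf 0x8732105469 4 (.leaf 0x8732105469 10 (.leaf 0x3789645012 6 .done))) .done)) (.node 0 3 (.cons 0x7890345612 .nil) (.node 2 5 (.cons 0x2543098761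 .nil) (.leaf 0x8903452167 7 (.leaf 0x8903452167 1 (.leaf 0x5430987612 4 (.leaf 0x987612543 6 .done)))) (.node 2 4 (.cons 0x5612437890 .nil) (.leaf 0x8710324569 7 (.leaf 0x8710324569 1 (.node 0 4 (.cons 0x5698712340 .nil) (.node 0 5 (.cons 0x4321789650 .nil) (.leaf 0x1789650432 10 .done) .done) .done))) .done)) .done)) (.node 1 8 (.cons 0x3218745690 .nil) (.node 5 7 (.cons 0x4578123690 .nil) (.leaf 0x6098123457 3 (.leaf 0x2189067543 1 .done)) (.node 0 3 (.cons 0x4569871230 .nil) (.leaf 0x2187456903 11 (.node 3 7 (.cons 0x2165437890 .nil) (.node 1 3 (.cons 0x4567890132 .nil) (.node 1 4 (.cons 0x8741230965 .nil) (.node 1 9 .nil (.node 0 2 (.cons 0x7890216543 (.cons 0x8765432091 (.cons 0x8917602345 .nil))) .done .done) .done) .done) .done) (.leaf 0x9654781230 10 .done))) .done)) .done)) .done))) (.leaf 0x8901236547 1 (.node 4 6 .nil (.node 0 5 (.cons 0x9871234650 .nil) (.leaf 0x3217890564 10 (.node 5 7 (.cons 0x6457890123 .nil) (.leaf 0x8901234657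 10 (.node 7 9 (.cons 0x8971234560 (.cons 0x8790123645 (.cons 0x8790564321 .nil))) .done .done)) (.leaf 0x2346509871 5 (.leaf 0x5643217890 3 .done)))) (.node 4 8 (.cons 0x9012365487 .nil) (.node 5 9 (.cons 0x2367845901 .nil) (.leaf 0x954876321 11 (.leaf 0x8459012367 8 (.node 4 9 .nil (.node 0 2 (.cons 0x9548710236 (.cons 0x8710236594 .nil)) (.leaf 0x1784956320 10 (.leaf 0x1789456320 8 .done)) (.node 2 9 (.cons 0x6329548710 .nil) (.leaf 0x3601784592 11 (.node 0 5 (.cons 0x7846329501 .nil) (.leaf 0x592364871 5 (.node 1 5 (.cons 0x7846329510 .nil) (.node 0 8 (.cons 0x5634780921 .nil) (.leaf 0x843295176 5 (.leaf 0x4780921563 10 .done)) (.leaf 0x6329015487 8 .done)) .done)) (.leaf 0x4592360178 8 .done))) .done)) (.leaf 0x4876321095 10 .done)))) (.node 2 9 (.cons 0x9236548710 .nil) (.leaf 0x8456329017 4 (.leaf 0x8456329017 10 (.leaf 0x8456329017 7 (.node 2 6 .nil (.node 0 3 (.cons 0x8745630921 (.cons 0x9871032654 .nil)) (.leaf 0x2178903456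 11 (.leaf 0x6217890345 10 .done)) (.node 1 6 .nil (.node 2 7 (.cons 0x9845601723 (.cons 0x9016548723 (.cons 0x9016327845 .nil))) .done (.node 6 9 .nil (.node 0 2 (.cons 0x7890216543 (.cons 0x9654871023 (.cons 0x9632017845 .nil))) .done .done) .done)) .done)) .done)))) .done)) .done)) .done))) (.node 4 7 (.cons 0x6547890123 .nil) (.node 4 6 .nil (.node 5 7 (.cons 0x6457890123 .nil) (.leaf 0x8901234657 10 (.leaf 0x9875643210 8 (.node 0 3 (.cons 0x6457890321 (.cons 0x4657890321 .nil)) (.node 1 4 (.cons 0x9876541032 .nil) (.leaf 0x2309875641 0 (.leaf 0x2309876541 4 (.leaf 0x987564123 4 .done))) (.node 1 4 (.cons 0x3214657890 .nil) (.leaf 0x9875641230 7 (.leaf 0x9875641230 6 (.node 1 6 (.cons 0x9874561032 .nil) (.leaf 0x9875461230 4 (.leaf 0x9875461230 6 .done)) .done))) .done)) .done))) (.node 4 8 (.cons 0x9012365487 .nil) (.node 5 9 (.cons 0x2367845901 .nil) (.leaf 0x954876321 11 (.leaf 0x8459012367 8 (.node 1 4 .nil (.node 3 7 (.cons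 0x8956014732 .nil) (.leaf 0x5412378906 11 (.leaf 0x5412378906 3 .done)) (.node 4 9 .nil (.node 0 8 (.cons 0x9087123456 (.cons 0x2365947801 .nil)) (.leaf 0x7495632108 8 (.leaf 0x9456321780 9 .done)) .done) .done)) (.leaf 0x4876321095 10 .done)))) (.node 6 9 (.cons 0x8712345690 .nil) (.node 1 6 .nil (.node 0 3 (.cons 0x9874561032 .nil) (.leaf 0x5478903216 11 (.leaf 0x5612309874 5 (.leaf 0x3216547890 3 .done))) (.node 2 6 (.cons 0x9017845623 .nil) (.node 6 8 .nil (.node 0 5 (.cons 0x1234789650 .nil) (.leaf 0x7896501234 11 (.leaf 0x1786905432 9 (.leaf 0x8712345096 8 .done))) .done) .done) .done)) (.node 0 8 (.cons 0x4569087123 .nil) (.leaf 0x7123456908 9 (.node 4 9 (.cons 0x9478012365 .nil) (.node 5 9 (.cons 0x3465908712 .nil) (.leaf 0x123659478 10 (.leaf 0x123659478 7 .done)) (.node 6 8 (.cons 0x7863210945 .nil) (.node 3 8 (.cons 0x9832106547 .nil) (.node 5 9 (.cons 0x8321745960 .nil) (.leaf 0x3895476012 8 (.leaf 0x4760123895 11 (.leaf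 0x6083217459 0 .done))) .done) .done) .done)) (.leaf 0x871234569 5 .done))) .done)) .done)) .done)) (.leaf 0x8901236547 1 (.node 4 6 .nil (.node 5 7 (.cons 0x6457890123 .nil) (.leaf 0x8901234657 10 (.leaf 0x6578901234 11 (.node 7 9 (.cons 0x8790123654 (.cons 0x8790123645 .nil)) (.node 5 8 (.cons 0x8560971234 .nil) (.leaf 0x6587901234 11 (.leaf 0x9785643210 8 (.node 3 5 (.cons 0x8790123564 .nil) (.leaf 0x2109876453 1 (.leaf 0x1098746532 0 (.node 4 8 (.cons 0x7984653210 .nil) (.leaf 0x3210978465 4 .done) .done))) .done))) .done) .done))) (.node 4 8 (.cons 0x9012365487 .nil) (.node 5 9 (.cons 0x2367845901 .nil) (.leaf 0x954876321 11 (.leaf 0x8459012367 8 (.node 1 6 (.cons 0x7845901632 .nil) (.node 3 5 (.cons 0x2165347890 .nil) (.node 0 2 (.cons 0x9874356120 .nil) (.node 4 9 (.cons 0x9487610235 .nil) (.leaf 0x6102359487 4 .done) (.leaf 0x9874356120 3 (.leaf 0x5347890216 1 .done))) (.node 0 2 (.cons 0x5612098743 .nil) (.leaf 0x1653478902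 10 (.leaf 0x9874356120 11 (.leaf 0x7843209561 0 .done))) .done)) (.node 2 7 (.cons 0x3456127890 .nil) (.leaf 0x954872361 1 (.leaf 0x954872361 6 (.leaf 0x954872361 10 (.leaf 0x954872361 4 .done)))) .done)) (.leaf 0x4876321095 10 .done)))) (.node 7 9 (.cons 0x2365487901 .nil) (.node 0 7 .nil (.node 6 8 (.cons 0x8609712345 .nil) (.leaf 0x3217098654 10 (.leaf 0x2345689071 5 (.leaf 0x2345689071 11 .done))) (.node 3 7 (.cons 0x8973210645 .nil) (.node 2 9 (.cons 0x7329845601 .nil) (.node 4 9 (.cons 0x6549873210 .nil) .done (.leaf 0x6017329845 8 (.leaf 0x3654871092 1 .done))) .done) .done)) (.node 0 7 .nil (.node 1 5 (.cons 0x4879015632 (.cons 0x2348970651 .nil)) (.leaf 0x7984321560 10 (.node 1 9 (.cons 0x6543219870 .nil) (.leaf 0x8456321907 1 (.leaf 0x4563219078 3 (.leaf 0x9123456078 1 .done))) .done)) (.node 3 7 .nil (.node 1 4 (.cons 0x8901456732 .nil) (.leaf 0x5412378906 11 (.leaf 0x2378906541 10 .done)) (.node 2 9 (.cons 0x7329845601 .nil)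 (.node 4 9 (.cons 0x6549873210 .nil) (.leaf 0x8732106549 1 .done) (.leaf 0x3710654892 0 (.leaf 0x3654871092 1 .done))) .done)) .done)) (.leaf 0x8456321097 1 .done))) .done)) .done)) .done))) (.leaf 0x5432178906 3 (.leaf 0x5432178906 5 (.leaf 0x4560987123 10 .done)))))
noncomputable def tc9_12_7 : T := (.node 4 9 (.cons 0x7894563210 .nil) (.node 0 7 (.cons 0x9870123654 .nil) (.node 0 6 (.cons 0x7890654321 .nil) (.node 1 7 (.cons 0x6543217890 .nil) (.leaf 0x5432178906 3 (.leaf 0x5432178906 5 (.leaf 0x4560987123 10 .done))) (.node 3 9 (.cons 0x6547893210 .nil) (.leaf 0x8760154239 10 (.node 3 7 (.cons 0x8942376015 .nil) (.node 0 2 (.cons 0x8945102376 .nil) (.node 3 8 (.cons 0x7498321065 .nil) (.node 4 8 (.cons 0x5674893201 .nil) (.leaf 0x239847651 11 .done) .done) .done) .done) (.leaf 0x2398760154 11 .done))) (.node 3 9 (.cons 0x6547893210 .nil) (.leaf 0x9874560123 3 (.leaf 0x5478932106 5 (.leaf 0x2451067893 3 .done))) .done))) (.leaf 0x5632107894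 1 (.leaf 0x5632107894 4 (.leaf 0x5632107894 10 .done)))) (.node 0 7 (.cons 0x3654987012 .nil) (.leaf 0x1236549870 7 (.node 4 8 .nil (.node 3 7 (.cons 0x9012378456 .nil) (.leaf 0x984567321 8 (.leaf 0x984567321 9 .done)) (.node 4 6 (.cons 0x9870123645 .nil) (.node 0 4 .nil (.node 5 9 (.cons 0x6321078954 .nil) (.leaf 0x6321047895 1 (.leaf 0x1042367895 3 (.leaf 0x3210789546 8 .done))) (.node 1 4 .nil (.node 2 9 (.cons 0x8923670145 .nil) (.node 0 3 (.cons 0x7894563012 (.cons 0x9230156487 (.cons 0x6547892301 .nil))) (.leaf 0x8921036547 5 .done) (.leaf 0x1078923654 0 (.leaf 0x4563298701 0 .done))) .done) .done)) (.node 0 4 .nil (.node 5 9 (.cons 0x6321078954 .nil) (.leaf 0x6321047895 1 (.leaf 0x1042367895 3 (.leaf 0x8954012367 11 .done))) (.node 1 4 .nil (.node 0 2 (.cons 0x9876514320 .nil) (.leaf 0x9876514320 3 (.node 5 9 (.cons 0x6321078954 (.cons 0x8954107632 (.cons 0x6321459870 .nil))) (.leaf 0x4102367895 8 .done) .done)) .done) .done))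 .done)) .done)) (.leaf 0x6321078945 0 (.node 4 8 .nil (.node 3 7 (.cons 0x9012378456 .nil) (.leaf 0x984567321 8 (.node 6 9 (.cons 0x5421078963 (.cons 0x2376984510 .nil)) (.node 0 3 (.cons 0x7894563012 (.cons 0x9678423015 (.cons 0x7034896512 .nil))) (.leaf 0x3078965124 5 (.leaf 0x7896512430 9 .done)) (.leaf 0x2378456901 7 .done)) (.leaf 0x984567321 9 .done))) (.node 3 9 (.cons 0x6547893210 .nil) (.node 5 8 (.cons 0x2458936701 .nil) (.node 2 8 (.cons 0x5428936701 .nil) (.node 6 9 (.cons 0x5421078963 .nil) (.node 0 4 (.cons 0x7896512340 .nil) (.leaf 0x1569870432 9 (.node 3 5 (.cons 0x4789653210 .nil) (.leaf 0x1235698740 10 (.leaf 0x789635421 9 .done)) .done)) (.node 3 5 (.cons 0x1245369870 .nil) (.leaf 0x4210789635 8 (.leaf 0x6987012453 5 .done)) .done)) (.leaf 0x9367015428 7 (.leaf 0x7639824510 0 .done))) (.leaf 0x3985421076 8 .done)) (.node 0 6 (.cons 0x7890654321 .nil) (.leaf 0x5106789324 10 (.node 2 6 (.cons 0x6215439870 .nil) (.leaf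 0x2154398706 4 (.leaf 0x9345126078 10 (.leaf 0x9345126078 7 .done))) (.leaf 0x8760154239 10 .done))) (.node 0 6 (.cons 0x7890654321 .nil) (.leaf 0x1542398760 11 (.leaf 0x9342156078 10 (.leaf 0x3987065124 5 .done))) (.leaf 0x3987012456 1 .done)))) .done)) .done)))) (.node 4 8 .nil (.node 3 7 (.cons 0x9012378456 .nil) (.leaf 0x984567321 8 (.node 0 2 (.cons 0x7894563201 (.cons 0x9845102376 .nil)) (.node 6 9 (.cons 0x8732015496 (.cons 0x2376984510 (.cons 0x7849651023 .nil))) (.leaf 0x2109654873 2 (.leaf 0x2378456901 7 .done)) (.node 3 9 (.cons 0x6547893210 (.cons 0x5674893201 .nil)) (.leaf 0x1567849320 10 .done) .done)) (.leaf 0x984567321 9 .done))) (.node 4 6 .nil (.node 3 5 (.cons 0x2354678901 .nil) (.leaf 0x2109876453 1 (.leaf 0x3246789015 4 (.leaf 0x1235647890 8 (.leaf 0x8764235109 7 .done)))) (.node 0 4 .nil (.node 1 7 (.cons 0x2365498710 .nil) (.leaf 0x2365409871 7 (.leaf 0x4098712365 0 (.node 0 5 (.cons 0x9876324501 .nil) (.leaf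 0x9871056324 5 (.leaf 0x9423650178 11 (.leaf 0x4987123650 5 (.leaf 0x9871056324 3 .done)))) (.leaf 0x8904563217 7 .done)))) (.node 1 4 .nil (.node 0 2 (.cons 0x7894563201 (.cons 0x9876514320 .nil)) (.node 1 8 (.cons 0x9023418765 .nil) (.node 5 9 (.cons 0x9541876320 .nil) (.leaf 0x236789541 1 (.leaf 0x7814590236 5 (.leaf 0x4187659023 11 .done))) .done) .done) .done) .done)) (.node 0 4 .nil (.node 1 7 (.cons 0x2365498710 .nil) (.leaf 0x2365409871 7 (.leaf 0x4098712365 0 (.node 0 5 (.cons 0x9876324501 .nil) (.leaf 0x9871056324 5 (.leaf 0x9423650178 11 (.leaf 0x4987123650 5 (.leaf 0x9871056324 3 .done)))) (.leaf 0x8904563217 7 .done)))) (.node 1 4 .nil (.node 0 2 (.cons 0x7894563201 (.cons 0x9876514320 .nil)) (.node 0 6 (.cons 0x7890654321 .nil) (.node 2 7 (.cons 0x5632789410 (.cons 0x3278941560 .nil)) (.leaf 0x8906514327 11 (.leaf 0x3654109872 1 .done)) (.node 3 9 (.cons 0x6547893210 (.cons 0x8932014765 .nil)) (.leaf 0x4560123987 10 (.leaf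 0x9874560123 3 .done)) .done)) .done) .done) .done)) .done))) .done)) .done))) (.leaf 0x4236789015 8 (.node 6 8 (.cons 0x7689015423 .nil) (.node 3 5 (.cons 0x9867423510 .nil) (.leaf 0x1532476890 0 (.leaf 0x2351098674 0 .done)) (.node 4 8 .nil (.node 0 7 (.cons 0x9870123654 (.cons 0x9845107632 (.cons 0x2348907651 .nil))) (.leaf 0x4321567098 10 (.leaf 0x984321567 3 .done)) (.node 3 7 (.cons 0x3768901542 .nil) (.node 6 9 (.cons 0x2378456901 .nil) (.leaf 0x3210965487 0 (.leaf 0x123784569 7 (.leaf 0x5487321096 7 .done))) (.node 3 8 .nil (.node 2 6 (.cons 0x7345126890 .nil) (.leaf 0x7451098326 5 (.leaf 0x983762451 9 (.leaf 0x3890154762 8 (.leaf 0x8901542673 8 .done)))) (.node 1 3 (.cons 0x4567890132 .nil) (.node 0 8 (.cons 0x9801542367 .nil) (.node 7 9 (.cons 0x8976324510 .nil) (.node 0 2 (.cons 0x3479865120 .nil) (.leaf 0x6734512098 1 (.leaf 0x1345687902 8 (.node 1 4 (.cons 0x5678902341 .nil) (.leaf 0x987651432 10 .done) .done))) (.leaf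 0x8015423679 5 (.leaf 0x6324510897 8 .done))) .done) .done) .done)) (.leaf 0x1098673245 9 .done))) .done)) (.node 3 7 (.cons 0x1542376890 .nil) (.leaf 0x5423768901 9 (.node 0 4 (.cons 0x2376890451 .nil) (.node 1 9 (.cons 0x5423678910 .nil) (.node 5 7 (.cons 0x9123687540 .nil) (.leaf 0x8632190457 7 (.leaf 0x8754091236 0 (.leaf 0x4091236875 7 .done))) (.leaf 0x2190456873 11 (.leaf 0x456873219 10 .done))) (.leaf 0x9867321540 10 (.leaf 0x8904512376 8 (.node 1 3 (.cons 0x4567890132 .nil) (.node 1 7 (.cons 0x3245176890 .nil) (.node 5 9 (.cons 0x7159863240 .nil) (.node 2 6 (.cons 0x4598736210 .nil) (.leaf 0x5987362104 7 (.leaf 0x5987362104 10 (.leaf 0x6378954012 4 .done))) (.leaf 0x9871042365 3 (.leaf 0x178956324 5 .done))) (.node 2 6 (.cons 0x3456217890 .nil) (.leaf 0x5409862371 6 (.leaf 0x5409862371 4 (.leaf 0x5409862371 1 .done))) .done)) (.node 2 7 (.cons 0x9865132740 .nil) (.leaf 0x2315689047 4 (.leaf 0x5689047231 6 (.leaf 0x8651327409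 1 .done))) .done)) .done)))) (.node 4 8 (.cons 0x4890156732 .nil) (.node 1 4 (.cons 0x5142376890 .nil) (.node 1 3 (.cons 0x4567890132 .nil) (.node 0 2 (.cons 0x9867451320 .nil) (.leaf 0x4376512098 10 (.leaf 0x4768902315 5 (.leaf 0x984376512 3 .done))) .done) .done) (.node 3 8 .nil (.node 4 9 (.cons 0x7894563210 .nil) (.leaf 0x3210945678 0 (.leaf 0x945678321 0 .done)) (.node 1 3 (.cons 0x4567890132 .nil) (.node 1 4 (.cons 0x5142376890 .nil) (.node 2 6 (.cons 0x9832674510 .nil) (.leaf 0x7451098326 5 (.node 1 7 (.cons 0x3245176890 .nil) (.node 7 9 (.cons 0x8976324510 .nil) (.leaf 0x3109784562 2 (.leaf 0x3265487901 7 .done)) .done) (.leaf 0x3890154762 8 .done))) .done) .done) .done)) .done)) .done))) .done))) (.leaf 0x987632451 5 .done))))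
noncomputable def tc9_12_8 : T := (.node 5 7 (.cons 0x9875463210 .nil) (.leaf 0x8901234657 10 (.leaf 0x4632109875 7 (.leaf 0x9875643210 8 (.leaf 0x2364578901 0 .done)))) (.node 0 6 (.cons 0x7890654321 .nil) (.node 1 6 .nil (.node 0 5 (.cons 0x2345098761 .nil) (.leaf 0x2347890561 10 (.leaf 0x3450987612 10 (.leaf 0x8905432167 10 (.leaf 0x3478905612 11 .done)))) (.node 0 5 (.cons 0x9874321650 .nil) (.node 1 7 (.cons 0x6543217890 .nil) (.node 6 9 (.cons 0x8712345690 .nil) (.node 0 8 (.cons 0x3456908712 .nil) (.leaf 0x7123456908 8 (.node 1 9 (.cons 0x2347650891 .nil) (.leaf 0x6743219805 5 (.leaf 0x5089123476 2 .done)) (.node 2 6 (.cons 0x9087126543 .nil) (.node 6 8 .nil (.node 0 7 (.cons 0x9870123654 (.cons 0x9861234705 (.cons 0x9865074321 .nil))) .done .done) .done) (.leaf 0x9654321780 5 .done)))) (.node 2 6 .nil (.node 0 3 (.cons 0x8712309654 (.cons 0x9874562301 .nil)) (.node 1 5 (.cons 0x6987451230 (.cons 0x9876230154 (.cons 0x2678903451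 .nil))) .done (.node 1 4 (.cons 0x5698741230 (.cons 0x5410987623 (.cons 0x7890341265 .nil))) .done .done)) .done) .done)) (.leaf 0x7123456098 1 (.node 2 6 (.cons 0x3456217890 .nil) (.node 1 8 (.cons 0x9018765423 .nil) (.node 3 9 (.cons 0x6547893210 .nil) (.leaf 0x7654239018 4 (.leaf 0x7654239018 7 (.leaf 0x7654239018 10 (.leaf 0x654789321 1 .done)))) (.node 1 3 (.cons 0x9813267450 .nil) (.leaf 0x2674509813 10 (.leaf 0x6231890547 8 .done)) .done)) .done) .done))) (.leaf 0x3216509874 5 (.leaf 0x3478905612 11 .done))) (.node 1 4 .nil (.node 0 2 (.cons 0x7890216543 (.cons 0x9876320145 (.cons 0x5678902341 .nil))) (.node 1 7 (.cons 0x8902341765 .nil) (.node 3 7 (.cons 0x2165437890 .nil) (.leaf 0x1654378902 11 (.leaf 0x6120987345 10 .done)) (.leaf 0x7123456098 1 .done)) .done) (.node 1 8 (.cons 0x9018765423 .nil) (.node 3 9 (.cons 0x6547893210 .nil) (.leaf 0x7654239018 4 (.leaf 0x7654239018 7 (.leaf 0x7654239018 10 (.leaf 0x654789321 1 .done))))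 (.node 3 9 (.cons 0x6547893210 .nil) (.leaf 0x932456781 0 (.leaf 0x7810932456 0 (.node 1 7 (.cons 0x6543217890 .nil) (.node 3 7 (.cons 0x2165437890 .nil) (.node 0 2 (.cons 0x7890216543 .nil) (.leaf 0x1654378902 11 (.node 5 7 (.cons 0x9875436120 .nil) (.leaf 0x2098754361 0 (.leaf 0x8902163457 7 .done)) (.leaf 0x8902165437 8 .done))) .done) .done) (.leaf 0x654789321 1 .done)))) .done)) .done)) .done))) (.node 2 6 .nil (.node 1 4 (.cons 0x5410987623 .nil) (.node 3 5 (.cons 0x9874106532 .nil) (.leaf 0x6789014235 8 (.leaf 0x1235609874 8 (.leaf 0x2410987653 5 .done))) (.node 3 7 (.cons 0x5609873412 (.cons 0x5621437890 .nil)) (.leaf 0x126543789 1 (.node 0 5 (.cons 0x9873621054 .nil) (.leaf 0x9873621450 2 (.leaf 0x7341265098 1 (.leaf 0x6214378905 3 (.leaf 0x6378905412 5 .done)))) .done)) .done)) (.node 6 9 .nil (.node 0 7 (.cons 0x9870123654 (.cons 0x8709654321 .nil)) (.leaf 0x5698701234 5 (.node 3 8 (.cons 0x5423876901 (.cons 0x5690783421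 (.cons 0x7832456901 .nil))) (.leaf 0x5470123896 10 .done) .done)) (.node 6 8 .nil (.node 0 7 (.cons 0x9870123654 (.cons 0x9078654321 .nil)) (.node 1 6 (.cons 0x9078612345 .nil) .done (.node 3 9 (.cons 0x6547893210 (.cons 0x7456893210 (.cons 0x9368701245 (.cons 0x5687093421 (.cons 0x7865423901 .nil))))) .done .done)) .done) .done)) .done)) (.node 3 9 (.cons 0x6547893210 .nil) (.leaf 0x4560123987 10 (.leaf 0x9874560123 3 (.leaf 0x5478932106 5 (.node 4 9 (.cons 0x7894563210 .nil) (.node 1 4 .nil (.node 2 5 (.cons 0x7894521063 .nil) (.leaf 0x2567890143 1 (.leaf 0x1478932560 8 (.leaf 0x3678901452 5 .done))) (.node 1 8 (.cons 0x9018765423 .nil) (.leaf 0x7654239018 1 (.node 3 8 .nil (.node 1 7 (.cons 0x6543217890 (.cons 0x9065438712 .nil)) (.leaf 0x983245671 11 .done) (.node 2 5 (.cons 0x9387425601 .nil) (.leaf 0x5241093876 5 (.leaf 0x4109387652 9 (.node 1 9 (.cons 0x1938742560 .nil) (.leaf 0x4256019387 11 (.leaf 0x7425601938 10 .done)) .done)))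 .done)) (.node 3 5 (.cons 0x7894536012 .nil) (.leaf 0x6781094235 4 (.leaf 0x1094235678 8 .done)) .done))) .done)) (.node 0 7 (.cons 0x3654987012 .nil) (.leaf 0x1236549870 7 (.node 2 7 (.cons 0x3654987210 .nil) (.node 1 4 (.cons 0x5609872143 .nil) (.node 3 5 (.cons 0x4356098721 .nil) (.leaf 0x2789065341 8 (.node 0 2 (.cons 0x6547893201 .nil) (.node 5 9 (.cons 0x2367895410 .nil) (.leaf 0x8763201459 5 .done) .done) .done)) .done) (.node 0 3 (.cons 0x1278945630 .nil) (.leaf 0x8945630127 1 (.leaf 0x3654987210 4 (.leaf 0x8945630127 10 .done))) .done)) (.leaf 0x6321078945 0 .done))) .done)) .done)))) .done))) (.node 4 9 (.cons 0x7894563210 .nil) (.node 0 7 (.cons 0x9870123654 .nil) (.node 0 6 (.cons 0x7890654321 .nil) (.node 1 7 (.cons 0x6543217890 .nil) (.leaf 0x5432178906 3 (.leaf 0x5432178906 5 (.leaf 0x4560987123 10 .done))) (.node 6 8 (.cons 0x9078654321 .nil) (.node 6 9 (.cons 0x8709654321 .nil) .done .done) .done)) (.leaf 0x5632107894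 1 (.leaf 0x5632107894 4 (.leaf 0x5632107894 10 .done)))) (.node 0 5 (.cons 0x2367894501 .nil) (.node 1 4 .nil (.node 2 5 (.cons 0x9876325410 .nil) (.node 3 7 (.cons 0x9873645210 (.cons 0x1256437890 .nil)) (.leaf 0x4521098736 0 (.leaf 0x6452109873 4 .done)) (.leaf 0x2567890143 1 (.leaf 0x9410523678 2 (.leaf 0x3678901452 5 .done)))) (.node 6 8 (.cons 0x9450123687 .nil) (.node 0 6 (.cons 0x7890654321 .nil) (.node 1 7 (.cons 0x6543217890 .nil) (.leaf 0x3217865094 8 (.leaf 0x5432178906 3 (.leaf 0x2349056871 10 (.leaf 0x4560987123 10 .done)))) .done) (.node 1 9 (.cons 0x7863219450 .nil) (.node 5 8 (.cons 0x5876324910 .nil) (.leaf 0x2491058763 5 (.leaf 0x4910587632 2 (.leaf 0x3249105876 7 .done))) (.node 1 5 (.cons 0x2367894510 .nil) (.node 2 6 (.cons 0x3267894510 .nil) (.node 0 6 (.cons 0x7890654321 .nil) (.node 0 2 (.cons 0x5498763201 .nil) (.node 1 6 (.cons 0x9876154320 .nil) (.leaf 0x5432098761 3 .done) .done) .done) (.node 1 8 (.cons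 0x9432678150 .nil) (.leaf 0x8762349051 4 (.leaf 0x4326781509 10 .done)) .done)) .done) .done)) .done)) .done)) (.leaf 0x549876321 5 (.leaf 0x8945012367 9 (.node 1 4 .nil (.node 0 2 (.cons 0x5498763201 (.cons 0x9876320145 (.cons 0x5678902341 .nil))) (.node 2 5 (.cons 0x9876325410 .nil) (.leaf 0x9876325014 8 (.leaf 0x2567890143 1 (.leaf 0x3678901452 5 .done))) .done) (.node 0 4 .nil (.node 1 7 (.cons 0x6543217890 .nil) (.leaf 0x2365409871 7 (.leaf 0x4098712365 0 (.node 5 9 (.cons 0x8710594236 (.cons 0x2178956340 .nil)) (.leaf 0x6321047895 1 (.leaf 0x8954012367 11 .done)) (.leaf 0x8904563217 7 .done)))) .done) .done)) .done)))) (.node 4 8 .nil (.node 3 7 (.cons 0x9012378456 .nil) (.leaf 0x984567321 8 (.node 1 3 (.cons 0x4567890132 (.cons 0x7654890132 (.cons 0x9013248765 .nil))) (.node 2 5 (.cons 0x9873645210 (.cons 0x6732548901 .nil)) (.leaf 0x5231094876 5 (.leaf 0x4637890125 7 .done)) .done) (.leaf 0x984567321 9 .done))) (.node 1 4 .nil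 (.node 0 2 (.cons 0x7894563201 (.cons 0x9876320145 (.cons 0x5678902341 .nil))) (.node 0 4 .nil (.node 1 7 (.cons 0x8902341765 .nil) (.leaf 0x2365409871 7 (.leaf 0x4098712365 0 (.leaf 0x8904563217 7 .done))) .done) .done) (.node 0 4 .nil (.node 1 7 (.cons 0x2365498710 .nil) (.leaf 0x2365409871 7 (.leaf 0x4098712365 0 (.node 0 5 (.cons 0x3465098712 .nil) (.leaf 0x6321789405 8 (.leaf 0x3650178942 10 (.leaf 0x7105632498 10 (.leaf 0x5098712346 1 .done)))) (.leaf 0x8904563217 7 .done)))) .done) .done)) .done)) .done))) .done)))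
noncomputable def tc9_12_9 : T := (.node 4 7 (.cons 0x9874563210 .nil) (.node 2 4 (.cons 0x3245678901 .nil) (.node 4 6 .nil tc9_12_8 (.node 1 3 (.cons 0x4567890132 .nil) (.leaf 0x2456789013 5 (.node 4 6 .nil (.node 5 7 (.cons 0x9875463210 .nil) (.leaf 0x8901234657 10 (.leaf 0x4632109875 7 (.leaf 0x9875643210 8 (.leaf 0x2364578901 0 .done)))) (.node 3 8 (.cons 0x7654238901 .nil) (.node 5 9 (.cons 0x2387645901 .nil) (.leaf 0x3210954678 0 (.leaf 0x954678321 0 (.node 3 9 (.cons 0x6547893210 .nil) (.node 1 7 (.cons 0x6543217890 .nil) (.leaf 0x6542389017 5 (.node 0 6 (.cons 0x7890654321 .nil) (.leaf 0x5432178906 3 (.leaf 0x9871063245 0 (.leaf 0x5478932106 5 .done))) (.leaf 0x983245671 8 (.node 2 6 (.cons 0x3456217890 .nil) (.leaf 0x9017832645 10 (.leaf 0x954623871 3 .done)) .done)))) .done) (.leaf 0x4678321095 7 .done)))) (.node 1 7 (.cons 0x6543217890 .nil) (.leaf 0x6542389017 11 (.leaf 0x983245671 10 (.node 1 6 .nil (.node 5 7 (.cons 0x9012387564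 (.cons 0x7561243890 .nil)) (.leaf 0x7610983245 3 (.leaf 0x9832475610 3 .done)) (.node 1 9 (.cons 0x5674238910 .nil) (.node 0 5 (.cons 0x9832476501 .nil) (.leaf 0x4236789105 5 (.leaf 0x8324765019 8 (.leaf 0x1987632450 8 (.node 1 4 (.cons 0x6509871432 .nil) .done .done)))) .done) .done)) (.node 5 7 (.cons 0x6571243890 .nil) (.node 4 9 (.cons 0x7894563210 .nil) (.node 1 4 .nil (.node 0 2 (.cons 0x5498763201 (.cons 0x9876320145 (.cons 0x5678902341 .nil))) (.leaf 0x3145678902 1 .done) .done) (.leaf 0x8321094657 7 (.leaf 0x8321094657 10 .done))) (.node 0 4 (.cons 0x9836571240 .nil) (.leaf 0x4217563890 3 (.leaf 0x5638904217 11 (.leaf 0x7563890421 10 .done))) .done)) .done)))) (.node 3 9 (.cons 0x6547893210 .nil) (.node 0 6 (.cons 0x7890654321 .nil) (.node 1 7 (.cons 0x6543217890 .nil) (.leaf 0x6542389017 3 (.leaf 0x5432178906 3 (.leaf 0x5432178906 5 (.leaf 0x4560987123 10 .done)))) (.node 1 6 .nil (.node 5 7 (.cons 0x9832475601 (.cons 0x8754612390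 .nil)) (.leaf 0x612345789 1 (.leaf 0x6109832457 3 .done)) (.node 1 5 (.cons 0x9874321560 .nil) (.node 0 2 (.cons 0x7890216543 .nil) (.node 0 3 (.cons 0x7890345612 .nil) .done (.leaf 0x1546789320 10 .done)) (.leaf 0x3215609874 8 .done)) .done)) (.leaf 0x9874560123 3 .done))) (.node 0 6 (.cons 0x7890654321 .nil) (.node 1 7 (.cons 0x6543217890 .nil) (.leaf 0x6542389017 3 (.leaf 0x5432178906 3 (.leaf 0x5432178906 5 (.leaf 0x4560987123 10 .done)))) (.node 1 6 .nil (.node 5 7 (.cons 0x9832475601 .nil) (.leaf 0x612345789 1 (.leaf 0x6109832457 3 (.leaf 0x9832475610 3 .done))) (.node 1 9 (.cons 0x7423891065 .nil) (.node 1 4 .nil (.node 0 2 (.cons 0x7890216543 (.cons 0x9876320145 .nil)) (.leaf 0x3145678902 1 .done) .done) .done) .done)) (.leaf 0x5478932106 5 .done))) .done)) .done))) (.node 4 9 (.cons 0x7894563210 .nil) (.node 4 8 (.cons 0x7654890132 .nil) (.node 1 4 .nil (.node 0 2 (.cons 0x5498763201 (.cons 0x9876320145 (.cons 0x5678902341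 .nil))) (.leaf 0x3145678902 1 .done) (.node 0 4 .nil (.node 1 7 (.cons 0x6543217890 .nil) (.leaf 0x4098712365 0 (.node 2 9 (.cons 0x8765410923 (.cons 0x8923104765 .nil)) (.leaf 0x6329871045 8 .done) (.leaf 0x8904563217 7 .done))) .done) .done)) .done) (.node 4 8 (.cons 0x7654890132 .nil) (.node 1 4 .nil (.node 0 2 (.cons 0x7894563201 (.cons 0x9876320145 (.cons 0x5678902341 .nil))) (.leaf 0x3145678902 1 .done) (.node 0 4 .nil (.node 2 8 (.cons 0x9014567823 (.cons 0x9823104567 (.cons 0x9823104765 (.cons 0x7654098231 .nil)))) .done .done) .done)) .done) .done)) .done))) (.node 4 6 (.cons 0x5467890132 .nil) (.node 1 4 .nil (.node 0 2 (.cons 0x9876320145 (.cons 0x5678902341 .nil)) (.leaf 0x9876541320 9 (.node 2 5 (.cons 0x6789013254 .nil) (.leaf 0x5231098764 5 (.leaf 0x3678901452 5 .done)) .done)) (.node 1 7 (.cons 0x6543217890 .nil) (.node 3 8 (.cons 0x7654238901 .nil) (.leaf 0x6542389017 11 (.leaf 0x6542389017 3 .done)) (.node 1 6 .nil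 (.node 0 5 (.cons 0x6509871234 .nil) (.leaf 0x4231678905 1 (.leaf 0x3450987612 10 (.leaf 0x8905432167 10 (.leaf 0x3478905612 11 .done)))) (.node 1 9 .nil (.node 0 4 (.cons 0x5401987632 (.cons 0x7891045632 .nil)) (.node 2 5 (.cons 0x6789013254 (.cons 0x8764523190 .nil)) (.leaf 0x5231098764 5 (.leaf 0x5236789104 1 .done)) .done) .done) .done)) .done)) .done)) (.node 2 5 (.cons 0x3109876452 .nil) (.leaf 0x7890132546 8 (.node 3 8 (.cons 0x7654238901 .nil) (.node 3 9 (.cons 0x6547893210 .nil) (.leaf 0x4652109387 4 (.leaf 0x5647839012 8 .done)) (.node 4 8 (.cons 0x9013254876 .nil) (.node 6 9 (.cons 0x3254876901 .nil) (.leaf 0x132548769 7 (.leaf 0x2310967845 0 (.leaf 0x7845231096 7 .done))) .done) .done)) (.leaf 0x9876452310 9 .done))) .done)) (.leaf 0x987654231 8 .done)))) (.node 1 5 (.cons 0x9876324510 .nil) tc9_12_7 .done))) (.leaf 0x5632109874 7 (.leaf 0x8901236547 7 (.leaf 0x1098745632 0 .done)))) (.node 0 6 (.cons 0x7890654321 .nil)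 (.node 1 7 (.cons 0x6543217890 .nil) tc9_12_6 (.node 4 7 (.cons 0x5609874321 .nil) tc9_12_5 (.node 4 7 (.cons 0x6547890123 .nil) tc9_12_3 .done))) (.node 4 7 (.cons 0x6547890123 .nil) (.leaf 0x1236547890 8 (.node 4 6 .nil tc9_12_1 (.leaf 0x3210987456 4 (.node 0 6 (.cons 0x7890654321 .nil) tc9_12_0 .done)))) (.node 4 7 (.cons 0x6547890123 .nil) (.leaf 0x2109874563 10 (.leaf 0x2109874563 6 (.node 3 7 .nil (.node 2 4 (.cons 0x3245678901 .nil) (.leaf 0x7890124563 10 (.leaf 0x7890124563 7 (.leaf 0x7890124563 1 .done))) (.node 3 8 .nil (.node 6 9 (.cons 0x4569873210 .nil) (.leaf 0x8321096547 4 (.leaf 0x8321096547 7 (.leaf 0x2387456901 6 .done))) (.node 1 3 (.cons 0x4567890132 .nil) (.node 1 7 (.cons 0x6543217890 .nil) (.node 0 6 (.cons 0x7890654321 .nil) (.node 0 7 .nil (.node 4 9 (.cons 0x6549873210 .nil) (.leaf 0x2107894563 6 (.leaf 0x2107894563 4 (.leaf 0x2107894563 1 .done))) (.node 7 9 (.cons 0x8790654321 .nil) (.node 1 8 (.cons 0x4560978123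 .nil) (.node 1 4 (.cons 0x8790654123 .nil) (.node 0 4 (.cons 0x9873210456 .nil) (.node 4 9 (.cons 0x6549873210 .nil) (.leaf 0x7321065498 0 .done) .done) (.leaf 0x5609783214 1 .done)) (.leaf 0x7906543218 1 .done)) .done) .done)) (.leaf 0x5432178906 5 (.node 3 5 (.cons 0x4356098712 .nil) (.node 6 8 (.cons 0x2354768901 .nil) (.leaf 0x1235476890 1 (.leaf 0x2354768901 3 .done)) (.node 2 4 (.cons 0x3245678901 .nil) (.node 0 3 (.cons 0x9876542301 .nil) (.node 3 9 .nil (.node 2 5 (.cons 0x9874253601 (.cons 0x8712560934 (.cons 0x8937452106 (.cons 0x8745213906 .nil)))) .done .done) .done) (.leaf 0x6098712435 8 (.leaf 0x2456789013 5 .done))) .done)) .done))) (.node 0 3 (.cons 0x6543098712 .nil) (.node 2 8 (.cons 0x2890345671 .nil) (.leaf 0x3456712890 6 (.leaf 0x5430982176 1 (.leaf 0x5430982176 7 .done))) (.node 3 5 .nil (.node 2 6 (.cons 0x3456217890 (.cons 0x4538901762 .nil)) (.leaf 0x7890126354 10 (.leaf 0x7890126354 7 (.leaf 0x9874536210 6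 .done))) (.node 3 9 .nil (.node 0 6 (.cons 0x7890654321 .nil) (.leaf 0x8932106547 1 (.leaf 0x8932106547 4 (.leaf 0x8932106547 10 .done))) .done) .done)) .done)) .done)) (.node 3 9 .nil (.node 0 6 (.cons 0x7890654321 .nil) (.leaf 0x8932106547 1 (.leaf 0x8932106547 4 (.leaf 0x8932106547 10 .done))) (.node 0 3 .nil (.node 1 6 (.cons 0x7890345612 .nil) (.leaf 0x8903216547 10 (.leaf 0x8903216547 7 (.leaf 0x8903216547 1 .done))) (.node 3 5 .nil (.node 2 6 (.cons 0x8901326745 .nil) (.leaf 0x7890126354 10 (.leaf 0x7890126354 7 (.leaf 0x7890126354 1 (.leaf 0x9874536210 6 .done)))) .done) .done)) .done)) .done)) (.node 3 9 .nil (.node 0 6 (.cons 0x7890654321 .nil) (.leaf 0x8932106547 1 (.leaf 0x8932106547 4 (.leaf 0x8932106547 10 .done))) (.node 6 9 (.cons 0x4569873210 .nil) (.node 4 9 (.cons 0x6549873210 .nil) (.node 3 5 .nil (.node 6 8 (.cons 0x3547869012 .nil) (.leaf 0x2109687453 2 (.leaf 0x1235476890 1 (.leaf 0x2354768901 3 .done))) (.node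 0 3 (.cons 0x4569873012 .nil) (.node 1 3 (.cons 0x4567890132 .nil) .done .done) .done)) .done) (.node 3 5 .nil (.node 6 8 (.cons 0x1235478690 .nil) (.leaf 0x2354786901 7 (.leaf 0x1235476890 1 (.leaf 0x2354786901 1 .done))) (.node 6 8 (.cons 0x1235478690 .nil) (.node 0 7 (.cons 0x7012398654 .nil) (.leaf 0x8932107456 1 (.node 4 8 (.cons 0x4870965321 .nil) (.node 1 3 (.cons 0x4870965312 .nil) (.node 2 6 (.cons 0x7398456210 .nil) (.leaf 0x9621354870 11 (.leaf 0x3126907845 8 .done)) .done) .done) (.leaf 0x8932107456 10 .done))) (.leaf 0x2354786901 1 .done)) .done)) .done)) (.node 1 3 (.cons 0x4567890132 .nil) (.node 0 3 .nil (.node 1 6 (.cons 0x7890345612 .nil) (.leaf 0x8903216547 10 (.leaf 0x8903216547 7 (.leaf 0x1230987456 4 .done))) (.node 3 5 .nil (.node 2 6 (.cons 0x4532678901 .nil) (.node 1 7 (.cons 0x6543217890 (.cons 0x3456217890 .nil)) (.leaf 0x4562178903 5 .done) (.leaf 0x7890126354 10 (.leaf 0x7890126354 7 (.leaf 0x7890126354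 1 (.leaf 0x9874536210 6 .done))))) .done) .done)) (.node 0 3 .nil (.node 1 6 (.cons 0x7890345612 .nil) (.leaf 0x8903216547 10 (.leaf 0x8903216547 7 (.leaf 0x8903216547 1 .done))) (.node 3 5 .nil (.node 2 6 (.cons 0x8901326745 .nil) (.leaf 0x7890126354 10 (.leaf 0x7890126354 7 (.leaf 0x7890126354 1 (.leaf 0x9874536210 6 .done)))) .done) .done)) .done)) .done))) .done))) (.node 4 8 (.cons 0x9012378456 .nil) (.node 6 9 (.cons 0x9654873210 .nil) (.node 6 8 (.cons 0x9012378654 .nil) (.node 4 9 (.cons 0x3786549012 .nil) (.node 0 6 (.cons 0x7890654321 .nil) (.node 4 6 .nil (.node 3 5 (.cons 0x2354678901 .nil) (.leaf 0x2109876453 1 (.leaf 0x8901235647 7 (.leaf 0x3210987465 4 (.leaf 0x987465321 6 .done)))) .done) .done) (.leaf 0x5490123786 11 .done)) (.node 5 8 (.cons 0x1237458690 .nil) (.leaf 0x2374586901 5 (.leaf 0x2374586901 3 .done)) .done)) (.leaf 0x1237845690 0 (.node 6 8 (.cons 0x9012378654 .nil) (.node 4 9 (.cons 0x3786549012 .nil) (.leaf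 0x1094568732 8 (.node 7 9 .nil (.node 0 6 (.cons 0x7890654321 (.cons 0x8790654321 (.cons 0x7984560123 .nil))) .done (.node 2 5 (.cons 0x9487365210 .nil) (.node 0 7 (.cons 0x1256349870 .nil) (.leaf 0x1256349870 3 .done) (.node 2 4 (.cons 0x3245678901 .nil) (.node 0 7 (.cons 0x8709436521 .nil) (.node 5 9 (.cons 0x3795684210 .nil) (.leaf 0x1073659842 8 (.leaf 0x4210736598 0 .done)) .done) .done) (.leaf 0x1256378490 7 (.leaf 0x6378490125 6 .done)))) .done)) (.leaf 0x5490123786 11 .done))) .done) .done))) (.node 4 9 (.cons 0x5637849012 .nil) (.node 2 5 (.cons 0x9012563784 .nil) (.leaf 0x3652109487 10 (.leaf 0x125637849 10 (.node 6 9 (.cons 0x3784569012 .nil) (.node 5 8 (.cons 0x4763258901 .nil) (.leaf 0x5210963748 2 (.leaf 0x963748521 7 (.leaf 0x9637485210 5 .done))) (.node 6 8 (.cons 0x3254768901 .nil) (.node 2 6 (.cons 0x9012654873 .nil) (.node 4 6 .nil (.node 3 5 (.cons 0x2536748901 .nil) (.leaf 0x8901235647 7 (.leaf 0x987465321 6 .done))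 .done) .done) .done) .done)) (.node 5 8 (.cons 0x7365849012 .nil) (.node 0 7 (.cons 0x8490736521 .nil) (.leaf 0x3210749856 2 (.leaf 0x6589470123 5 .done)) (.node 2 7 (.cons 0x2736584901 .nil) (.node 5 9 (.cons 0x8495637210 .nil) (.node 0 8 (.cons 0x3276549801 .nil) (.leaf 0x6372108495 4 (.leaf 0x6372108495 1 .done)) .done) (.leaf 0x5849012736 1 .done)) .done)) .done)))) (.node 6 8 (.cons 0x2378654901 .nil) (.leaf 0x3786549012 8 (.node 6 9 (.cons 0x3784569012 .nil) (.leaf 0x1096548732 8 (.node 0 6 (.cons 0x7890654321 .nil) (.node 0 4 (.cons 0x9045687321 .nil) (.node 2 6 (.cons 0x8732654901 .nil) (.node 3 9 (.cons 0x9378456210 .nil) (.leaf 0x4562109378 10 (.leaf 0x5487390126 3 .done)) (.node 1 8 (.cons 0x2187345690 .nil) (.leaf 0x4562378109 10 (.leaf 0x1094562378 3 (.leaf 0x5490187326 5 .done))) .done)) .done) (.node 1 7 (.cons 0x6543217890 .nil) (.node 2 8 (.cons 0x1287345690 .nil) (.node 2 5 (.cons 0x2563784901 .nil) (.leaf 0x8490125637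 11 (.leaf 0x8736521094 5 (.node 5 8 (.cons 0x1749852360 .nil) (.leaf 0x7106325894 7 .done) .done))) (.leaf 0x1065498237 8 (.leaf 0x1065498237 9 .done))) (.leaf 0x5432178906 5 (.leaf 0x4560987123 10 .done))) .done)) .done)) .done)) .done)) (.node 6 9 (.cons 0x2378456901 .nil) (.leaf 0x3210965487 0 (.leaf 0x965487321 0 (.leaf 0x5487321096 7 .done))) .done))) .done))) (.leaf 0x2109874563 4 .done)))) .done))))
def kn_c9_12 : List (Nat × Nat × Nat) := []
noncomputable def rc9_12 : T := tc9_12_9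
theorem ok_c9_12 : root 9 refs9_12 kn_c9_12 0x700000008706000000006020000000020500000000504000000004010000000010300000000302000000002018000000010 0xfe7fff3fffbbffdbffcfffedfff5fff3fff9fefd 9 3 6 (.cons 0x7890123654 .nil) rc9_12 = true := by decide +kernel

end Pool.Agent.Hhelper35.Rainbow
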