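import Pool.Agent.Hhelper35.Rainbow.Sound

set_option autoImplicit false

namespace Pool.Agent.Hhelper35.Rainbow

/-- The colouring seen through the naming `f`. -/
def ren (C : ℕ → ℕ → ℕ) (f : ℕ → ℕ) : ℕ → ℕ → ℕ := fun a b => C (f a) (f b)

theorem P10.comp {f g : ℕ → ℕ} (hf : P10 f) (hg : P10 g) : P10 (fun i => f (g i)) :=
  ⟨fun i hi => hf.1 _ (hg.1 i hi), fun i hi j hj h =>
    hg.2 i hi j hj (hf.2 _ (hg.1 i hi) _ (hg.1 j hj) h)⟩

variable {C : ℕ → ℕ → ℕ} {K : ℕ}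

theorem Good.ren {f : ℕ → ℕ} (hf : P10 f) (h : Good C) : Good (ren C f) := by
  refine ⟨fun a b ha hb => h.1 _ _ (hf.1 a ha) (hf.1 b hb), ?_⟩
  intro a b c ha hb hc hab hac hbc
  exact h.2 _ _ _ (hf.1 a ha) (hf.1 b hb) (hf.1 c hc) (fun e => hab (hf.2 a ha b hb e))
    (fun e => hac (hf.2 a ha c hc e)) (fun e => hbc (hf.2 b hb c hc e))

theorem NoPath.ren {f : ℕ → ℕ} (hf : P10 f) (h : NoPath K C) : NoPath K (ren C f) :=
  fun _ hg => h _ (hf.comp hg)

theorem NoCyc.ren {f : ℕ → ℕ} {q : ℕ} (hf : P10 f) (h : NoCyc K q C) : NoCyc K q (ren C f) := by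
  intro g hg hn
  apply h _ (hf.comp hg)
  have e : ce C K (fun i => f (g i)) = ce (Rainbow.ren C f) K g := by
    funext i
    unfold ce Rainbow.ren
    by_cases h : i = K
    · simp [h]
    · simp [h]
  rw [e]
  exact hn

/-- What has to be checked on the initial tables: the coloured pairs are the pairs `(i, e i)`, `i < n`, and the
values of the pairs number `i` and `j` are equal if and only if `r i = r j`. -/
def InitP (n : ℕ) (e r : ℕ → ℕ) (S AV nv : ℕ) : Prop :=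
  (∀ i ∈ List.range n, i < 10 ∧ e i < 10) ∧
  (∀ a ∈ List.range 10, ∀ b ∈ List.range 10, look S a b ≠ 0 → ∃ i ∈ List.range n,
    (a = i ∧ b = e i) ∨ (b = i ∧ a = e i)) ∧
  (∀ i ∈ List.range n, ∀ j ∈ List.range n, (look S i (e i) = look S j (e j) ↔ r i = r j)) ∧
  (∀ a ∈ List.range 10, ∀ b ∈ List.range 10, look S a b = look S b a) ∧
  (∀ a ∈ List.range 10, look S a a = 0) ∧
  (∀ a ∈ List.range 10, ∀ b ∈ List.range 10, look S a b < nv) ∧
  (∀ a ∈ List.range 10, ∀ v ∈ List.range 16, 0 < v → AV.testBit (16 * a + v) = false →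
    ∃ x ∈ List.range 10, look S a x = v) ∧
  0 < nv

instance (n : ℕ) (e r : ℕ → ℕ) (S AV nv : ℕ) : Decidable (InitP n e r S AV nv) := by
  unfold InitP; infer_instance

theorem InitP.inv {n : ℕ} {e r : ℕ → ℕ} {S AV nv : ℕ} (h : InitP n e r S AV nv) : Inv S AV nv :=
  ⟨fun a b ha hb => h.2.2.2.1 a (List.mem_range.mpr ha) b (List.mem_range.mpr hb),
    fun a ha => h.2.2.2.2.1 a (List.mem_range.mpr ha),
    fun a b ha hb => h.2.2.2.2.2.1 a (List.mem_range.mpr ha) b (List.mem_range.mpr hb),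
    fun a ha v hv0 hv hb => by
      obtain ⟨x, hx, hxv⟩ := h.2.2.2.2.2.2.1 a (List.mem_range.mpr ha) v (List.mem_range.mpr hv) hv0 hb
      exact ⟨x, List.mem_range.mp hx, hxv⟩⟩

theorem InitP.cons {n : ℕ} {e r : ℕ → ℕ} {S AV nv : ℕ} (h : InitP n e r S AV nv) (hC : Good C)
    (hs : ∀ i < n, ∀ j < n, (C i (e i) = C j (e j) ↔ r i = r j)) : Cons C S := by
  intro a b c d ha hb hc hd z1 z2
  obtain ⟨i, hi, hi1⟩ := h.2.1 a (List.mem_range.mpr ha) b (List.mem_range.mpr hb) z1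
  obtain ⟨j, hj, hj1⟩ := h.2.1 c (List.mem_range.mpr hc) d (List.mem_range.mpr hd) z2
  have hsym := h.inv.symm
  have hi' := h.1 i hi
  have hj' := h.1 j hj
  have ex : C a b = C i (e i) ∧ look S a b = look S i (e i) := by
    rcases hi1 with ⟨e1, e2⟩ | ⟨e1, e2⟩
    · rw [e1, e2]; exact ⟨rfl, rfl⟩
    · rw [e1, e2]; exact ⟨hC.1 _ _ hi'.2 hi'.1, hsym _ _ hi'.2 hi'.1⟩
  have ey : C c d = C j (e j) ∧ look S c d = look S j (e j) := by
    rcases hj1 with ⟨e1, e2⟩ | ⟨e1, e2⟩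
    · rw [e1, e2]; exact ⟨rfl, rfl⟩
    · rw [e1, e2]; exact ⟨hC.1 _ _ hj'.2 hj'.1, hsym _ _ hj'.2 hj'.1⟩
  rw [ex.1, ey.1, ex.2, ey.2, hs i (List.mem_range.mp hi) j (List.mem_range.mp hj)]
  exact h.2.2.1 i hi j hj

/-- The second end of the edge number `i` of the closed walk `0, 1, …, K`. -/
def eC (K i : ℕ) : ℕ := if i = K then 0 else i + 1

/-- The representative of the class of the edge number `i` in the pattern `q`. -/
def rC (q i : ℕ) : ℕ := if i = dig q 1 then dig q 0 else if i = dig q 3 then dig q 2 else i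

theorem Pat.iff {q : ℕ} {u : ℕ → ℕ} (hq : PV K q) (h : Pat K q u) :
    ∀ i < K + 1, ∀ j < K + 1, (u i = u j ↔ rC q i = rC q j) := by
  obtain ⟨q1, q2, q3, q4, q5, q6⟩ := hq
  obtain ⟨h1, h2, h3⟩ := h
  have hr : ∀ i < K + 1, u i = u (rC q i) ∧ rC q i < K + 1 ∧ rC q i ≠ dig q 1 ∧ rC q i ≠ dig q 3 := by
    intro i hi
    unfold rC
    split_ifs with c1 c2
    · rw [c1]; exact ⟨h1.symm, by omega, by omega, q5⟩
    · rw [c2]; exact ⟨h2.symm, by omega, q6, by omega⟩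
    · exact ⟨rfl, hi, c1, c2⟩
  intro i hi j hj
  obtain ⟨a1, a2, a3, a4⟩ := hr i hi
  obtain ⟨b1, b2, b3, b4⟩ := hr j hj
  rw [a1, b1]
  constructor
  · intro he
    rcases Nat.lt_trichotomy (rC q i) (rC q j) with hlt | heq | hgt
    · exact absurd he (h3 _ _ hlt (by omega) a3 a4 b3 b4)
    · exact heq
    · exact absurd he.symm (h3 _ _ hgt (by omega) b3 b4 a3 a4)
  · intro he; rw [he]

instance (K q : ℕ) : Decidable (PV K q) := by unfold PV; infer_instance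

theorem cyc_lemma {refs : List ℕ} {kn : List (ℕ × ℕ × ℕ)} {q S AV nv a b : ℕ} {w : W} {ch : T} (hK : K < 10)
    (hq : PV K q) (hinit : InitP (K + 1) (eC K) (rC q) S AV nv) (hroot : root K refs kn S AV nv a b w ch = true)
    (hkn : ∀ C : ℕ → ℕ → ℕ, Good C → NoPath K C → (∀ q' ∈ refs, PV K q' ∧ NoCyc K q' C) → ∀ x ∈ kn, Dead C x)
    (hC : Good C) (hP : NoPath K C) (hr : ∀ q' ∈ refs, PV K q' ∧ NoCyc K q' C) : NoCyc K q C := by
  intro f hf hs
  have hr' : ∀ q' ∈ refs, PV K q' ∧ NoCyc K q' (ren C f) := fun q' hq' => ⟨(hr q' hq').1, (hr q' hq').2.ren hf⟩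
  refine root_sound hK (hC.ren hf) (hP.ren hf) hr' (hkn _ (hC.ren hf) (hP.ren hf) hr') hroot hinit.inv
    hinit.2.2.2.2.2.2.2 (hinit.cons (hC.ren hf) ?_)
  have := hs.iff hq
  intro i hi j hj
  rw [← this i hi j hj]
  unfold ce ren eC
  have e : ∀ i, f (if i = K then 0 else i + 1) = if i = K then f 0 else f (i + 1) := by
    intro i; split_ifs <;> rfl
  rw [e, e]

theorem path_lemma {k : ℕ} {refs : List ℕ} {kn : List (ℕ × ℕ × ℕ)} {S AV nv a b : ℕ} {w : W} {ch : T}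
    (hk : k + 1 < 10) (hinit : InitP k (fun i => i + 1) (fun i => i) S AV nv)
    (hroot : root (k + 1) refs kn S AV nv a b w ch = true)
    (hkn : ∀ C : ℕ → ℕ → ℕ, Good C → NoPath (k + 1) C → (∀ q' ∈ refs, PV (k + 1) q' ∧ NoCyc (k + 1) q' C) →
      ∀ x ∈ kn, Dead C x)
    (hC : Good C) (hP : NoPath (k + 1) C) (hr : ∀ q' ∈ refs, PV (k + 1) q' ∧ NoCyc (k + 1) q' C) : NoPath k C := by
  intro f hf
  by_contra hcon
  push Not at hcon
  have hr' : ∀ q' ∈ refs, PV (k + 1) q' ∧ NoCyc (k + 1) q' (ren C f) :=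
    fun q' hq' => ⟨(hr q' hq').1, (hr q' hq').2.ren hf⟩
  refine root_sound hk (hC.ren hf) (hP.ren hf) hr' (hkn _ (hC.ren hf) (hP.ren hf) hr') hroot hinit.inv
    hinit.2.2.2.2.2.2.2 (hinit.cons (hC.ren hf) ?_)
  intro i hi j hj
  constructor
  · intro he
    rcases Nat.lt_trichotomy i j with hlt | heq | hgt
    · exact absurd he (hcon i j hlt hj)
    · exact heq
    · exact absurd he.symm (hcon j i hgt hi)
  · rintro rfl; rfl

end Pool.Agent.Hhelper35.Rainbow
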