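set_option autoImplicit false

namespace Pool.Agent.Hhelper35.Rainbow

/-- A list of witness codes. -/
inductive W
  | nil : W
  | cons (p : Nat) (w : W) : W

/-- A search forest, in first-child / next-sibling form. -/
inductive T
  | done : T
  | leaf (c k : Nat) (nx : T) : T
  | cut (j : Nat) (nx : T) : T
  | node (a b : Nat) (w : W) (ch nx : T) : T

/-- The 4-bit field of the table `S` at the pair `(a, b)`. -/
def look (S a b : Nat) : Nat :=
  Nat.land (Nat.shiftRight S (Nat.add (Nat.mul 40 a) (Nat.mul 4 b))) 15

/-- Bit test as a `Bool`. -/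
def tb (m i : Nat) : Bool := Nat.beq (Nat.land (Nat.shiftRight m i) 1) 1

/-- Set the bit `i`. -/
def sb (m i : Nat) : Nat := Nat.lor m (Nat.shiftLeft 1 i)

/-- Add the value `v` to the mask `m`; the mask becomes full if it was already there. -/
def ad (m v : Nat) : Nat := cond (tb m v) 65535 (sb m v)

/-- The hexadecimal digit number `i` of a code, lowest first. -/
def dig (p i : Nat) : Nat := Nat.land (Nat.shiftRight p (Nat.mul 4 i)) 15

/-- Are the first ten digits the numbers `0, …, 9` in some order? -/
def perm (p : Nat) : Bool :=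
  Nat.beq (Nat.rec (motive := fun _ => Nat) 0 (fun i m => ad m (dig p i)) 10) 1023

/-- The mask of the table values along the first `K` consecutive pairs, full if a value repeats or is `0`. -/
def walk (S K p : Nat) : Nat :=
  Nat.rec (motive := fun _ => Nat) 1 (fun i m => ad m (look S (dig p i) (dig p (Nat.succ i)))) K

/-- The effect of the witness paths on the mask of allowed values. -/
noncomputable def wit (K S : Nat) (w : W) : Nat → Nat :=
  W.rec (motive := fun _ => Nat → Nat) (fun A => A)
    (fun p _ ih A => ih (cond (perm p) (Nat.land A (walk S K p)) A)) w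

/-- The table value at the edge number `i` of the closed walk through the first `K + 1` digits. -/
def cval (S K p i : Nat) : Nat :=
  look S (dig p i) (cond (Nat.beq i K) (dig p 0) (dig p (Nat.succ i)))

/-- Does the closed walk show the pattern `q` in the table `S`? The digits of `q` are `i₁, i₂, j₁, j₂`:
the edges number `i₁` and `i₂` have one value, those number `j₁` and `j₂` have one value, and apart
from `i₂` and `j₂` the values are distinct. -/
def cyc (K S p q : Nat) : Bool :=
  cond (Nat.beq q 0) false (cond (perm p)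
    (cond (Nat.beq (cval S K p (dig q 0)) (cval S K p (dig q 1)))
      (cond (Nat.beq (cval S K p (dig q 2)) (cval S K p (dig q 3)))
        (cond (Nat.beq (Nat.rec (motive := fun _ => Nat) 1
          (fun i m => cond (Nat.beq i (dig q 1)) m (cond (Nat.beq i (dig q 3)) m (ad m (cval S K p i))))
            (Nat.succ K)) 65535) false true) false) false) false)

/-- The table `S` with the value `v` put at `(a, b)` and `(b, a)`. -/
def upd (S a b v : Nat) : Nat :=
  Nat.lor (Nat.lor S (Nat.shiftLeft v (Nat.add (Nat.mul 40 a) (Nat.mul 4 b))))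
    (Nat.shiftLeft v (Nat.add (Nat.mul 40 b) (Nat.mul 4 a)))

/-- The availability table after the value `v` is used at `a` and `b`. -/
def updA (AV a b v : Nat) : Nat :=
  Nat.xor (Nat.xor AV (Nat.shiftLeft 1 (Nat.add (Nat.mul 16 a) v))) (Nat.shiftLeft 1 (Nat.add (Nat.mul 16 b) v))

/-- The mask of the values that the pair `(a, b)` may take. -/
noncomputable def allowed (K S AV nv a b : Nat) (w : W) : Nat :=
  wit K (upd S a b 15) w
    (Nat.land (Nat.land (Nat.sub (Nat.shiftLeft 2 nv) 2) (Nat.shiftRight AV (Nat.mul 16 a)))
      (Nat.shiftRight AV (Nat.mul 16 b)))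

/-- Is `(a, b)` a pair to branch on? -/
def edgeOK (S nv a b : Nat) : Bool :=
  cond (Nat.ble nv 14) (cond (Nat.ble a 9) (cond (Nat.ble b 9) (cond (Nat.beq a b) false
    (cond (Nat.beq (look S a b) 0) (Nat.beq (look S b a) 0) false)) false) false) false

/-- Next new value. -/
def nxt (v nv : Nat) : Nat := cond (Nat.beq v nv) (Nat.succ nv) nv

/-- Is the state equal to the given one? -/
def eqst (S AV nv : Nat) (x : Nat × Nat × Nat) : Bool :=
  cond (Nat.beq S x.1) (cond (Nat.beq AV x.2.1) (Nat.beq nv x.2.2) false) false

/-- The checker. `A` is the mask of the values still to be treated for the pair `(a, b)`. -/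
noncomputable def forest (K : Nat) (refs : List Nat) (kn : List (Nat × Nat × Nat)) (t : T) :
    Nat → Nat → Nat → Nat → Nat → Nat → Bool :=
  T.rec (motive := fun _ => Nat → Nat → Nat → Nat → Nat → Nat → Bool)
    (fun _ _ _ A _ _ => Nat.beq A 0)
    (fun c k _ ih S AV nv A a b =>
      cond (cyc K (upd S a b (Nat.log2 A)) c (refs.getD k 0))
        (ih S AV nv (Nat.xor A (Nat.shiftLeft 1 (Nat.log2 A))) a b) false)
    (fun j _ ih S AV nv A a b =>
      cond (eqst (upd S a b (Nat.log2 A)) (updA AV a b (Nat.log2 A)) (nxt (Nat.log2 A) nv) (kn.getD j (0, 0, 0)))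
        (ih S AV nv (Nat.xor A (Nat.shiftLeft 1 (Nat.log2 A))) a b) false)
    (fun a' b' w _ _ ih1 ih2 S AV nv A a b =>
      cond (edgeOK (upd S a b (Nat.log2 A)) (nxt (Nat.log2 A) nv) a' b')
        (cond (ih1 (upd S a b (Nat.log2 A)) (updA AV a b (Nat.log2 A)) (nxt (Nat.log2 A) nv)
            (allowed K (upd S a b (Nat.log2 A)) (updA AV a b (Nat.log2 A)) (nxt (Nat.log2 A) nv) a' b' w) a' b')
          (ih2 S AV nv (Nat.xor A (Nat.shiftLeft 1 (Nat.log2 A))) a b) false) false) t

/-- The checker at the root. -/
noncomputable def root (K : Nat) (refs : List Nat) (kn : List (Nat × Nat × Nat)) (S AV nv a b : Nat) (w : W)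
    (ch : T) : Bool :=
  cond (edgeOK S nv a b) (forest K refs kn ch S AV nv (allowed K S AV nv a b w) a b) false

end Pool.Agent.Hhelper35.Rainbow
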