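import Pool.Agent.Hhelper35.Rainbow.Inits
import Pool.Agent.Hhelper35.Rainbow.CertA
import Pool.Agent.Hhelper35.Rainbow.CertC0
import Pool.Agent.Hhelper35.Rainbow.CertC1
import Pool.Agent.Hhelper35.Rainbow.CertC2
import Pool.Agent.Hhelper35.Rainbow.CertC3
import Pool.Agent.Hhelper35.Rainbow.CertC4
import Pool.Agent.Hhelper35.Rainbow.CertC5
import Pool.Agent.Hhelper35.Rainbow.CertC6
import Pool.Agent.Hhelper35.Rainbow.CertC7
import Pool.Agent.Hhelper35.Rainbow.CertC8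
import Pool.Agent.Hhelper35.Rainbow.CertC9
import Pool.Agent.Hhelper35.Rainbow.CertC10

set_option autoImplicit false

namespace Pool.Agent.Hhelper35.Rainbow

variable {C : ℕ → ℕ → ℕ}

theorem nocyc1_0 (_hC : Good C) (_hP : NoPath 1 C) : ∀ q ∈ refs1_0, PV 1 q ∧ NoCyc 1 q C :=
  fun _ h => absurd h List.not_mem_nil

theorem dead_p1 (C : ℕ → ℕ → ℕ) (hC : Good C) (hP : NoPath 1 C)
    (hr : ∀ q ∈ refs1_0, PV 1 q ∧ NoCyc 1 q C) : ∀ x ∈ kn_p1, Dead C x := by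
  exact fun _ h => absurd h List.not_mem_nil

theorem down1 (hC : Good C) (hP : NoPath 1 C) : NoPath 0 C :=
  path_lemma (by norm_num) init_p1 ok_p1 dead_p1 hC hP (nocyc1_0 hC hP)

theorem nocyc2_0 (_hC : Good C) (_hP : NoPath 2 C) : ∀ q ∈ refs2_0, PV 2 q ∧ NoCyc 2 q C :=
  fun _ h => absurd h List.not_mem_nil

theorem dead_p2 (C : ℕ → ℕ → ℕ) (hC : Good C) (hP : NoPath 2 C)
    (hr : ∀ q ∈ refs2_0, PV 2 q ∧ NoCyc 2 q C) : ∀ x ∈ kn_p2, Dead C x := by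
  exact fun _ h => absurd h List.not_mem_nil

theorem down2 (hC : Good C) (hP : NoPath 2 C) : NoPath 1 C :=
  path_lemma (by norm_num) init_p2 ok_p2 dead_p2 hC hP (nocyc2_0 hC hP)

theorem nocyc3_0 (_hC : Good C) (_hP : NoPath 3 C) : ∀ q ∈ refs3_0, PV 3 q ∧ NoCyc 3 q C :=
  fun _ h => absurd h List.not_mem_nil

theorem dead_p3 (C : ℕ → ℕ → ℕ) (hC : Good C) (hP : NoPath 3 C)
    (hr : ∀ q ∈ refs3_0, PV 3 q ∧ NoCyc 3 q C) : ∀ x ∈ kn_p3, Dead C x := by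
  exact fun _ h => absurd h List.not_mem_nil

theorem down3 (hC : Good C) (hP : NoPath 3 C) : NoPath 2 C :=
  path_lemma (by norm_num) init_p3 ok_p3 dead_p3 hC hP (nocyc3_0 hC hP)

theorem nocyc4_0 (_hC : Good C) (_hP : NoPath 4 C) : ∀ q ∈ refs4_0, PV 4 q ∧ NoCyc 4 q C :=
  fun _ h => absurd h List.not_mem_nil

theorem dead_p4 (C : ℕ → ℕ → ℕ) (hC : Good C) (hP : NoPath 4 C)
    (hr : ∀ q ∈ refs4_0, PV 4 q ∧ NoCyc 4 q C) : ∀ x ∈ kn_p4, Dead C x := by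
  exact fun _ h => absurd h List.not_mem_nil

theorem down4 (hC : Good C) (hP : NoPath 4 C) : NoPath 3 C :=
  path_lemma (by norm_num) init_p4 ok_p4 dead_p4 hC hP (nocyc4_0 hC hP)

theorem nocyc5_0 (_hC : Good C) (_hP : NoPath 5 C) : ∀ q ∈ refs5_0, PV 5 q ∧ NoCyc 5 q C :=
  fun _ h => absurd h List.not_mem_nil

theorem dead_p5 (C : ℕ → ℕ → ℕ) (hC : Good C) (hP : NoPath 5 C)
    (hr : ∀ q ∈ refs5_0, PV 5 q ∧ NoCyc 5 q C) : ∀ x ∈ kn_p5, Dead C x := by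
  exact fun _ h => absurd h List.not_mem_nil

theorem down5 (hC : Good C) (hP : NoPath 5 C) : NoPath 4 C :=
  path_lemma (by norm_num) init_p5 ok_p5 dead_p5 hC hP (nocyc5_0 hC hP)

theorem nocyc6_0 (_hC : Good C) (_hP : NoPath 6 C) : ∀ q ∈ refs6_0, PV 6 q ∧ NoCyc 6 q C :=
  fun _ h => absurd h List.not_mem_nil

theorem dead_c6_0 (C : ℕ → ℕ → ℕ) (hC : Good C) (hP : NoPath 6 C)
    (hr : ∀ q ∈ refs6_0, PV 6 q ∧ NoCyc 6 q C) : ∀ x ∈ kn_c6_0, Dead C x := by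
  exact fun _ h => absurd h List.not_mem_nil

theorem nocyc6_1 (hC : Good C) (hP : NoPath 6 C) : ∀ q ∈ refs6_1, PV 6 q ∧ NoCyc 6 q C := by
  refine List.forall_mem_cons.mpr ⟨⟨by decide +kernel, ?_⟩, nocyc6_0 hC hP⟩
  exact cyc_lemma (by norm_num) (by decide +kernel) init_c6_0 ok_c6_0 dead_c6_0 hC hP (nocyc6_0 hC hP)

theorem dead_c6_1 (C : ℕ → ℕ → ℕ) (hC : Good C) (hP : NoPath 6 C)
    (hr : ∀ q ∈ refs6_1, PV 6 q ∧ NoCyc 6 q C) : ∀ x ∈ kn_c6_1, Dead C x := by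
  exact fun _ h => absurd h List.not_mem_nil

theorem nocyc6_2 (hC : Good C) (hP : NoPath 6 C) : ∀ q ∈ refs6_2, PV 6 q ∧ NoCyc 6 q C := by
  refine List.forall_mem_cons.mpr ⟨⟨by decide +kernel, ?_⟩, nocyc6_1 hC hP⟩
  exact cyc_lemma (by norm_num) (by decide +kernel) init_c6_1 ok_c6_1 dead_c6_1 hC hP (nocyc6_1 hC hP)

theorem dead_c6_2 (C : ℕ → ℕ → ℕ) (hC : Good C) (hP : NoPath 6 C)
    (hr : ∀ q ∈ refs6_2, PV 6 q ∧ NoCyc 6 q C) : ∀ x ∈ kn_c6_2, Dead C x := by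
  exact fun _ h => absurd h List.not_mem_nil

theorem nocyc6_3 (hC : Good C) (hP : NoPath 6 C) : ∀ q ∈ refs6_3, PV 6 q ∧ NoCyc 6 q C := by
  refine List.forall_mem_cons.mpr ⟨⟨by decide +kernel, ?_⟩, nocyc6_2 hC hP⟩
  exact cyc_lemma (by norm_num) (by decide +kernel) init_c6_2 ok_c6_2 dead_c6_2 hC hP (nocyc6_2 hC hP)

theorem dead_c6_3 (C : ℕ → ℕ → ℕ) (hC : Good C) (hP : NoPath 6 C)
    (hr : ∀ q ∈ refs6_3, PV 6 q ∧ NoCyc 6 q C) : ∀ x ∈ kn_c6_3, Dead C x := by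
  exact fun _ h => absurd h List.not_mem_nil

theorem nocyc6_4 (hC : Good C) (hP : NoPath 6 C) : ∀ q ∈ refs6_4, PV 6 q ∧ NoCyc 6 q C := by
  refine List.forall_mem_cons.mpr ⟨⟨by decide +kernel, ?_⟩, nocyc6_3 hC hP⟩
  exact cyc_lemma (by norm_num) (by decide +kernel) init_c6_3 ok_c6_3 dead_c6_3 hC hP (nocyc6_3 hC hP)

theorem dead_c6_4 (C : ℕ → ℕ → ℕ) (hC : Good C) (hP : NoPath 6 C)
    (hr : ∀ q ∈ refs6_4, PV 6 q ∧ NoCyc 6 q C) : ∀ x ∈ kn_c6_4, Dead C x := by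
  exact fun _ h => absurd h List.not_mem_nil

theorem nocyc6_5 (hC : Good C) (hP : NoPath 6 C) : ∀ q ∈ refs6_5, PV 6 q ∧ NoCyc 6 q C := by
  refine List.forall_mem_cons.mpr ⟨⟨by decide +kernel, ?_⟩, nocyc6_4 hC hP⟩
  exact cyc_lemma (by norm_num) (by decide +kernel) init_c6_4 ok_c6_4 dead_c6_4 hC hP (nocyc6_4 hC hP)

theorem dead_c6_5 (C : ℕ → ℕ → ℕ) (hC : Good C) (hP : NoPath 6 C)
    (hr : ∀ q ∈ refs6_5, PV 6 q ∧ NoCyc 6 q C) : ∀ x ∈ kn_c6_5, Dead C x := by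
  exact fun _ h => absurd h List.not_mem_nil

theorem nocyc6_6 (hC : Good C) (hP : NoPath 6 C) : ∀ q ∈ refs6_6, PV 6 q ∧ NoCyc 6 q C := by
  refine List.forall_mem_cons.mpr ⟨⟨by decide +kernel, ?_⟩, nocyc6_5 hC hP⟩
  exact cyc_lemma (by norm_num) (by decide +kernel) init_c6_5 ok_c6_5 dead_c6_5 hC hP (nocyc6_5 hC hP)

theorem dead_p6 (C : ℕ → ℕ → ℕ) (hC : Good C) (hP : NoPath 6 C)
    (hr : ∀ q ∈ refs6_6, PV 6 q ∧ NoCyc 6 q C) : ∀ x ∈ kn_p6, Dead C x := by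
  exact fun _ h => absurd h List.not_mem_nil

theorem down6 (hC : Good C) (hP : NoPath 6 C) : NoPath 5 C :=
  path_lemma (by norm_num) init_p6 ok_p6 dead_p6 hC hP (nocyc6_6 hC hP)

theorem nocyc7_0 (_hC : Good C) (_hP : NoPath 7 C) : ∀ q ∈ refs7_0, PV 7 q ∧ NoCyc 7 q C :=
  fun _ h => absurd h List.not_mem_nil

theorem dead_c7_0 (C : ℕ → ℕ → ℕ) (hC : Good C) (hP : NoPath 7 C)
    (hr : ∀ q ∈ refs7_0, PV 7 q ∧ NoCyc 7 q C) : ∀ x ∈ kn_c7_0, Dead C x := by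
  exact fun _ h => absurd h List.not_mem_nil

theorem nocyc7_1 (hC : Good C) (hP : NoPath 7 C) : ∀ q ∈ refs7_1, PV 7 q ∧ NoCyc 7 q C := by
  refine List.forall_mem_cons.mpr ⟨⟨by decide +kernel, ?_⟩, nocyc7_0 hC hP⟩
  exact cyc_lemma (by norm_num) (by decide +kernel) init_c7_0 ok_c7_0 dead_c7_0 hC hP (nocyc7_0 hC hP)

theorem dead_c7_1 (C : ℕ → ℕ → ℕ) (hC : Good C) (hP : NoPath 7 C)
    (hr : ∀ q ∈ refs7_1, PV 7 q ∧ NoCyc 7 q C) : ∀ x ∈ kn_c7_1, Dead C x := by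
  exact fun _ h => absurd h List.not_mem_nil

theorem nocyc7_2 (hC : Good C) (hP : NoPath 7 C) : ∀ q ∈ refs7_2, PV 7 q ∧ NoCyc 7 q C := by
  refine List.forall_mem_cons.mpr ⟨⟨by decide +kernel, ?_⟩, nocyc7_1 hC hP⟩
  exact cyc_lemma (by norm_num) (by decide +kernel) init_c7_1 ok_c7_1 dead_c7_1 hC hP (nocyc7_1 hC hP)

theorem dead_c7_2 (C : ℕ → ℕ → ℕ) (hC : Good C) (hP : NoPath 7 C)
    (hr : ∀ q ∈ refs7_2, PV 7 q ∧ NoCyc 7 q C) : ∀ x ∈ kn_c7_2, Dead C x := by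
  exact fun _ h => absurd h List.not_mem_nil

theorem nocyc7_3 (hC : Good C) (hP : NoPath 7 C) : ∀ q ∈ refs7_3, PV 7 q ∧ NoCyc 7 q C := by
  refine List.forall_mem_cons.mpr ⟨⟨by decide +kernel, ?_⟩, nocyc7_2 hC hP⟩
  exact cyc_lemma (by norm_num) (by decide +kernel) init_c7_2 ok_c7_2 dead_c7_2 hC hP (nocyc7_2 hC hP)

theorem dead_c7_3 (C : ℕ → ℕ → ℕ) (hC : Good C) (hP : NoPath 7 C)
    (hr : ∀ q ∈ refs7_3, PV 7 q ∧ NoCyc 7 q C) : ∀ x ∈ kn_c7_3, Dead C x := by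
  exact fun _ h => absurd h List.not_mem_nil

theorem nocyc7_4 (hC : Good C) (hP : NoPath 7 C) : ∀ q ∈ refs7_4, PV 7 q ∧ NoCyc 7 q C := by
  refine List.forall_mem_cons.mpr ⟨⟨by decide +kernel, ?_⟩, nocyc7_3 hC hP⟩
  exact cyc_lemma (by norm_num) (by decide +kernel) init_c7_3 ok_c7_3 dead_c7_3 hC hP (nocyc7_3 hC hP)

theorem dead_c7_4 (C : ℕ → ℕ → ℕ) (hC : Good C) (hP : NoPath 7 C)
    (hr : ∀ q ∈ refs7_4, PV 7 q ∧ NoCyc 7 q C) : ∀ x ∈ kn_c7_4, Dead C x := by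
  exact fun _ h => absurd h List.not_mem_nil

theorem nocyc7_5 (hC : Good C) (hP : NoPath 7 C) : ∀ q ∈ refs7_5, PV 7 q ∧ NoCyc 7 q C := by
  refine List.forall_mem_cons.mpr ⟨⟨by decide +kernel, ?_⟩, nocyc7_4 hC hP⟩
  exact cyc_lemma (by norm_num) (by decide +kernel) init_c7_4 ok_c7_4 dead_c7_4 hC hP (nocyc7_4 hC hP)

theorem dead_c7_5 (C : ℕ → ℕ → ℕ) (hC : Good C) (hP : NoPath 7 C)
    (hr : ∀ q ∈ refs7_5, PV 7 q ∧ NoCyc 7 q C) : ∀ x ∈ kn_c7_5, Dead C x := by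
  exact fun _ h => absurd h List.not_mem_nil

theorem nocyc7_6 (hC : Good C) (hP : NoPath 7 C) : ∀ q ∈ refs7_6, PV 7 q ∧ NoCyc 7 q C := by
  refine List.forall_mem_cons.mpr ⟨⟨by decide +kernel, ?_⟩, nocyc7_5 hC hP⟩
  exact cyc_lemma (by norm_num) (by decide +kernel) init_c7_5 ok_c7_5 dead_c7_5 hC hP (nocyc7_5 hC hP)

theorem dead_c7_6 (C : ℕ → ℕ → ℕ) (hC : Good C) (hP : NoPath 7 C)
    (hr : ∀ q ∈ refs7_6, PV 7 q ∧ NoCyc 7 q C) : ∀ x ∈ kn_c7_6, Dead C x := by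
  exact fun _ h => absurd h List.not_mem_nil

theorem nocyc7_7 (hC : Good C) (hP : NoPath 7 C) : ∀ q ∈ refs7_7, PV 7 q ∧ NoCyc 7 q C := by
  refine List.forall_mem_cons.mpr ⟨⟨by decide +kernel, ?_⟩, nocyc7_6 hC hP⟩
  exact cyc_lemma (by norm_num) (by decide +kernel) init_c7_6 ok_c7_6 dead_c7_6 hC hP (nocyc7_6 hC hP)

theorem dead_c7_7 (C : ℕ → ℕ → ℕ) (hC : Good C) (hP : NoPath 7 C)
    (hr : ∀ q ∈ refs7_7, PV 7 q ∧ NoCyc 7 q C) : ∀ x ∈ kn_c7_7, Dead C x := by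
  exact fun _ h => absurd h List.not_mem_nil

theorem nocyc7_8 (hC : Good C) (hP : NoPath 7 C) : ∀ q ∈ refs7_8, PV 7 q ∧ NoCyc 7 q C := by
  refine List.forall_mem_cons.mpr ⟨⟨by decide +kernel, ?_⟩, nocyc7_7 hC hP⟩
  exact cyc_lemma (by norm_num) (by decide +kernel) init_c7_7 ok_c7_7 dead_c7_7 hC hP (nocyc7_7 hC hP)

theorem dead_c7_8 (C : ℕ → ℕ → ℕ) (hC : Good C) (hP : NoPath 7 C)
    (hr : ∀ q ∈ refs7_8, PV 7 q ∧ NoCyc 7 q C) : ∀ x ∈ kn_c7_8, Dead C x := by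
  exact fun _ h => absurd h List.not_mem_nil

theorem nocyc7_9 (hC : Good C) (hP : NoPath 7 C) : ∀ q ∈ refs7_9, PV 7 q ∧ NoCyc 7 q C := by
  refine List.forall_mem_cons.mpr ⟨⟨by decide +kernel, ?_⟩, nocyc7_8 hC hP⟩
  exact cyc_lemma (by norm_num) (by decide +kernel) init_c7_8 ok_c7_8 dead_c7_8 hC hP (nocyc7_8 hC hP)

theorem dead_c7_9 (C : ℕ → ℕ → ℕ) (hC : Good C) (hP : NoPath 7 C)
    (hr : ∀ q ∈ refs7_9, PV 7 q ∧ NoCyc 7 q C) : ∀ x ∈ kn_c7_9, Dead C x := by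
  exact fun _ h => absurd h List.not_mem_nil

theorem nocyc7_10 (hC : Good C) (hP : NoPath 7 C) : ∀ q ∈ refs7_10, PV 7 q ∧ NoCyc 7 q C := by
  refine List.forall_mem_cons.mpr ⟨⟨by decide +kernel, ?_⟩, nocyc7_9 hC hP⟩
  exact cyc_lemma (by norm_num) (by decide +kernel) init_c7_9 ok_c7_9 dead_c7_9 hC hP (nocyc7_9 hC hP)

theorem dead_c7_10 (C : ℕ → ℕ → ℕ) (hC : Good C) (hP : NoPath 7 C)
    (hr : ∀ q ∈ refs7_10, PV 7 q ∧ NoCyc 7 q C) : ∀ x ∈ kn_c7_10, Dead C x := by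
  exact fun _ h => absurd h List.not_mem_nil

theorem nocyc7_11 (hC : Good C) (hP : NoPath 7 C) : ∀ q ∈ refs7_11, PV 7 q ∧ NoCyc 7 q C := by
  refine List.forall_mem_cons.mpr ⟨⟨by decide +kernel, ?_⟩, nocyc7_10 hC hP⟩
  exact cyc_lemma (by norm_num) (by decide +kernel) init_c7_10 ok_c7_10 dead_c7_10 hC hP (nocyc7_10 hC hP)

theorem dead_p7 (C : ℕ → ℕ → ℕ) (hC : Good C) (hP : NoPath 7 C)
    (hr : ∀ q ∈ refs7_11, PV 7 q ∧ NoCyc 7 q C) : ∀ x ∈ kn_p7, Dead C x := by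
  exact fun _ h => absurd h List.not_mem_nil

theorem down7 (hC : Good C) (hP : NoPath 7 C) : NoPath 6 C :=
  path_lemma (by norm_num) init_p7 ok_p7 dead_p7 hC hP (nocyc7_11 hC hP)

theorem nocyc8_0 (_hC : Good C) (_hP : NoPath 8 C) : ∀ q ∈ refs8_0, PV 8 q ∧ NoCyc 8 q C :=
  fun _ h => absurd h List.not_mem_nil

theorem dead_c8_0 (C : ℕ → ℕ → ℕ) (hC : Good C) (hP : NoPath 8 C)
    (hr : ∀ q ∈ refs8_0, PV 8 q ∧ NoCyc 8 q C) : ∀ x ∈ kn_c8_0, Dead C x := by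
  exact fun _ h => absurd h List.not_mem_nil

theorem nocyc8_1 (hC : Good C) (hP : NoPath 8 C) : ∀ q ∈ refs8_1, PV 8 q ∧ NoCyc 8 q C := by
  refine List.forall_mem_cons.mpr ⟨⟨by decide +kernel, ?_⟩, nocyc8_0 hC hP⟩
  exact cyc_lemma (by norm_num) (by decide +kernel) init_c8_0 ok_c8_0 dead_c8_0 hC hP (nocyc8_0 hC hP)

theorem dead_c8_1 (C : ℕ → ℕ → ℕ) (hC : Good C) (hP : NoPath 8 C)
    (hr : ∀ q ∈ refs8_1, PV 8 q ∧ NoCyc 8 q C) : ∀ x ∈ kn_c8_1, Dead C x := by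
  exact fun _ h => absurd h List.not_mem_nil

theorem nocyc8_2 (hC : Good C) (hP : NoPath 8 C) : ∀ q ∈ refs8_2, PV 8 q ∧ NoCyc 8 q C := by
  refine List.forall_mem_cons.mpr ⟨⟨by decide +kernel, ?_⟩, nocyc8_1 hC hP⟩
  exact cyc_lemma (by norm_num) (by decide +kernel) init_c8_1 ok_c8_1 dead_c8_1 hC hP (nocyc8_1 hC hP)

theorem dead_c8_2 (C : ℕ → ℕ → ℕ) (hC : Good C) (hP : NoPath 8 C)
    (hr : ∀ q ∈ refs8_2, PV 8 q ∧ NoCyc 8 q C) : ∀ x ∈ kn_c8_2, Dead C x := by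
  exact fun _ h => absurd h List.not_mem_nil

theorem nocyc8_3 (hC : Good C) (hP : NoPath 8 C) : ∀ q ∈ refs8_3, PV 8 q ∧ NoCyc 8 q C := by
  refine List.forall_mem_cons.mpr ⟨⟨by decide +kernel, ?_⟩, nocyc8_2 hC hP⟩
  exact cyc_lemma (by norm_num) (by decide +kernel) init_c8_2 ok_c8_2 dead_c8_2 hC hP (nocyc8_2 hC hP)

theorem dead_c8_3 (C : ℕ → ℕ → ℕ) (hC : Good C) (hP : NoPath 8 C)
    (hr : ∀ q ∈ refs8_3, PV 8 q ∧ NoCyc 8 q C) : ∀ x ∈ kn_c8_3, Dead C x := by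
  exact fun _ h => absurd h List.not_mem_nil

theorem nocyc8_4 (hC : Good C) (hP : NoPath 8 C) : ∀ q ∈ refs8_4, PV 8 q ∧ NoCyc 8 q C := by
  refine List.forall_mem_cons.mpr ⟨⟨by decide +kernel, ?_⟩, nocyc8_3 hC hP⟩
  exact cyc_lemma (by norm_num) (by decide +kernel) init_c8_3 ok_c8_3 dead_c8_3 hC hP (nocyc8_3 hC hP)

theorem dead_c8_4 (C : ℕ → ℕ → ℕ) (hC : Good C) (hP : NoPath 8 C)
    (hr : ∀ q ∈ refs8_4, PV 8 q ∧ NoCyc 8 q C) : ∀ x ∈ kn_c8_4, Dead C x := by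
  exact fun _ h => absurd h List.not_mem_nil

theorem nocyc8_5 (hC : Good C) (hP : NoPath 8 C) : ∀ q ∈ refs8_5, PV 8 q ∧ NoCyc 8 q C := by
  refine List.forall_mem_cons.mpr ⟨⟨by decide +kernel, ?_⟩, nocyc8_4 hC hP⟩
  exact cyc_lemma (by norm_num) (by decide +kernel) init_c8_4 ok_c8_4 dead_c8_4 hC hP (nocyc8_4 hC hP)

theorem dead_c8_5 (C : ℕ → ℕ → ℕ) (hC : Good C) (hP : NoPath 8 C)
    (hr : ∀ q ∈ refs8_5, PV 8 q ∧ NoCyc 8 q C) : ∀ x ∈ kn_c8_5, Dead C x := by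
  exact fun _ h => absurd h List.not_mem_nil

theorem nocyc8_6 (hC : Good C) (hP : NoPath 8 C) : ∀ q ∈ refs8_6, PV 8 q ∧ NoCyc 8 q C := by
  refine List.forall_mem_cons.mpr ⟨⟨by decide +kernel, ?_⟩, nocyc8_5 hC hP⟩
  exact cyc_lemma (by norm_num) (by decide +kernel) init_c8_5 ok_c8_5 dead_c8_5 hC hP (nocyc8_5 hC hP)

theorem dead_c8_6 (C : ℕ → ℕ → ℕ) (hC : Good C) (hP : NoPath 8 C)
    (hr : ∀ q ∈ refs8_6, PV 8 q ∧ NoCyc 8 q C) : ∀ x ∈ kn_c8_6, Dead C x := by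
  exact fun _ h => absurd h List.not_mem_nil

theorem nocyc8_7 (hC : Good C) (hP : NoPath 8 C) : ∀ q ∈ refs8_7, PV 8 q ∧ NoCyc 8 q C := by
  refine List.forall_mem_cons.mpr ⟨⟨by decide +kernel, ?_⟩, nocyc8_6 hC hP⟩
  exact cyc_lemma (by norm_num) (by decide +kernel) init_c8_6 ok_c8_6 dead_c8_6 hC hP (nocyc8_6 hC hP)

theorem dead_c8_7 (C : ℕ → ℕ → ℕ) (hC : Good C) (hP : NoPath 8 C)
    (hr : ∀ q ∈ refs8_7, PV 8 q ∧ NoCyc 8 q C) : ∀ x ∈ kn_c8_7, Dead C x := by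
  exact fun _ h => absurd h List.not_mem_nil

theorem nocyc8_8 (hC : Good C) (hP : NoPath 8 C) : ∀ q ∈ refs8_8, PV 8 q ∧ NoCyc 8 q C := by
  refine List.forall_mem_cons.mpr ⟨⟨by decide +kernel, ?_⟩, nocyc8_7 hC hP⟩
  exact cyc_lemma (by norm_num) (by decide +kernel) init_c8_7 ok_c8_7 dead_c8_7 hC hP (nocyc8_7 hC hP)

theorem dead_c8_8 (C : ℕ → ℕ → ℕ) (hC : Good C) (hP : NoPath 8 C)
    (hr : ∀ q ∈ refs8_8, PV 8 q ∧ NoCyc 8 q C) : ∀ x ∈ kn_c8_8, Dead C x := by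
  exact fun _ h => absurd h List.not_mem_nil

theorem nocyc8_9 (hC : Good C) (hP : NoPath 8 C) : ∀ q ∈ refs8_9, PV 8 q ∧ NoCyc 8 q C := by
  refine List.forall_mem_cons.mpr ⟨⟨by decide +kernel, ?_⟩, nocyc8_8 hC hP⟩
  exact cyc_lemma (by norm_num) (by decide +kernel) init_c8_8 ok_c8_8 dead_c8_8 hC hP (nocyc8_8 hC hP)

theorem dead_c8_9 (C : ℕ → ℕ → ℕ) (hC : Good C) (hP : NoPath 8 C)
    (hr : ∀ q ∈ refs8_9, PV 8 q ∧ NoCyc 8 q C) : ∀ x ∈ kn_c8_9, Dead C x := by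
  exact fun _ h => absurd h List.not_mem_nil

theorem nocyc8_10 (hC : Good C) (hP : NoPath 8 C) : ∀ q ∈ refs8_10, PV 8 q ∧ NoCyc 8 q C := by
  refine List.forall_mem_cons.mpr ⟨⟨by decide +kernel, ?_⟩, nocyc8_9 hC hP⟩
  exact cyc_lemma (by norm_num) (by decide +kernel) init_c8_9 ok_c8_9 dead_c8_9 hC hP (nocyc8_9 hC hP)

theorem dead_c8_10 (C : ℕ → ℕ → ℕ) (hC : Good C) (hP : NoPath 8 C)
    (hr : ∀ q ∈ refs8_10, PV 8 q ∧ NoCyc 8 q C) : ∀ x ∈ kn_c8_10, Dead C x := by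
  exact fun _ h => absurd h List.not_mem_nil

theorem nocyc8_11 (hC : Good C) (hP : NoPath 8 C) : ∀ q ∈ refs8_11, PV 8 q ∧ NoCyc 8 q C := by
  refine List.forall_mem_cons.mpr ⟨⟨by decide +kernel, ?_⟩, nocyc8_10 hC hP⟩
  exact cyc_lemma (by norm_num) (by decide +kernel) init_c8_10 ok_c8_10 dead_c8_10 hC hP (nocyc8_10 hC hP)

theorem dead_c8_11 (C : ℕ → ℕ → ℕ) (hC : Good C) (hP : NoPath 8 C)
    (hr : ∀ q ∈ refs8_11, PV 8 q ∧ NoCyc 8 q C) : ∀ x ∈ kn_c8_11, Dead C x := by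
  exact fun _ h => absurd h List.not_mem_nil

theorem nocyc8_12 (hC : Good C) (hP : NoPath 8 C) : ∀ q ∈ refs8_12, PV 8 q ∧ NoCyc 8 q C := by
  refine List.forall_mem_cons.mpr ⟨⟨by decide +kernel, ?_⟩, nocyc8_11 hC hP⟩
  exact cyc_lemma (by norm_num) (by decide +kernel) init_c8_11 ok_c8_11 dead_c8_11 hC hP (nocyc8_11 hC hP)

theorem dead_c8_12 (C : ℕ → ℕ → ℕ) (hC : Good C) (hP : NoPath 8 C)
    (hr : ∀ q ∈ refs8_12, PV 8 q ∧ NoCyc 8 q C) : ∀ x ∈ kn_c8_12, Dead C x := by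
  exact fun _ h => absurd h List.not_mem_nil

theorem nocyc8_13 (hC : Good C) (hP : NoPath 8 C) : ∀ q ∈ refs8_13, PV 8 q ∧ NoCyc 8 q C := by
  refine List.forall_mem_cons.mpr ⟨⟨by decide +kernel, ?_⟩, nocyc8_12 hC hP⟩
  exact cyc_lemma (by norm_num) (by decide +kernel) init_c8_12 ok_c8_12 dead_c8_12 hC hP (nocyc8_12 hC hP)

theorem dead_c8_13 (C : ℕ → ℕ → ℕ) (hC : Good C) (hP : NoPath 8 C)
    (hr : ∀ q ∈ refs8_13, PV 8 q ∧ NoCyc 8 q C) : ∀ x ∈ kn_c8_13, Dead C x := by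
  exact fun _ h => absurd h List.not_mem_nil

theorem nocyc8_14 (hC : Good C) (hP : NoPath 8 C) : ∀ q ∈ refs8_14, PV 8 q ∧ NoCyc 8 q C := by
  refine List.forall_mem_cons.mpr ⟨⟨by decide +kernel, ?_⟩, nocyc8_13 hC hP⟩
  exact cyc_lemma (by norm_num) (by decide +kernel) init_c8_13 ok_c8_13 dead_c8_13 hC hP (nocyc8_13 hC hP)

theorem dead_c8_14 (C : ℕ → ℕ → ℕ) (hC : Good C) (hP : NoPath 8 C)
    (hr : ∀ q ∈ refs8_14, PV 8 q ∧ NoCyc 8 q C) : ∀ x ∈ kn_c8_14, Dead C x := by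
  exact fun _ h => absurd h List.not_mem_nil

theorem nocyc8_15 (hC : Good C) (hP : NoPath 8 C) : ∀ q ∈ refs8_15, PV 8 q ∧ NoCyc 8 q C := by
  refine List.forall_mem_cons.mpr ⟨⟨by decide +kernel, ?_⟩, nocyc8_14 hC hP⟩
  exact cyc_lemma (by norm_num) (by decide +kernel) init_c8_14 ok_c8_14 dead_c8_14 hC hP (nocyc8_14 hC hP)

theorem dead_p8 (C : ℕ → ℕ → ℕ) (hC : Good C) (hP : NoPath 8 C)
    (hr : ∀ q ∈ refs8_15, PV 8 q ∧ NoCyc 8 q C) : ∀ x ∈ kn_p8, Dead C x := by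
  exact fun _ h => absurd h List.not_mem_nil

theorem down8 (hC : Good C) (hP : NoPath 8 C) : NoPath 7 C :=
  path_lemma (by norm_num) init_p8 ok_p8 dead_p8 hC hP (nocyc8_15 hC hP)

theorem nocyc9_0 (_hC : Good C) (_hP : NoPath 9 C) : ∀ q ∈ refs9_0, PV 9 q ∧ NoCyc 9 q C :=
  fun _ h => absurd h List.not_mem_nil

theorem dead_c9_0 (C : ℕ → ℕ → ℕ) (hC : Good C) (hP : NoPath 9 C)
    (hr : ∀ q ∈ refs9_0, PV 9 q ∧ NoCyc 9 q C) : ∀ x ∈ kn_c9_0, Dead C x := by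
  refine List.forall_mem_cons.mpr ⟨root_sound (by norm_num) hC hP hr (fun _ h => absurd h List.not_mem_nil) sub_c9_0_0, ?_⟩
  refine List.forall_mem_cons.mpr ⟨root_sound (by norm_num) hC hP hr (fun _ h => absurd h List.not_mem_nil) sub_c9_0_1, ?_⟩
  refine List.forall_mem_cons.mpr ⟨root_sound (by norm_num) hC hP hr (fun _ h => absurd h List.not_mem_nil) sub_c9_0_2, ?_⟩
  refine List.forall_mem_cons.mpr ⟨root_sound (by norm_num) hC hP hr (fun _ h => absurd h List.not_mem_nil) sub_c9_0_3, ?_⟩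
  refine List.forall_mem_cons.mpr ⟨root_sound (by norm_num) hC hP hr (fun _ h => absurd h List.not_mem_nil) sub_c9_0_4, ?_⟩
  refine List.forall_mem_cons.mpr ⟨root_sound (by norm_num) hC hP hr (fun _ h => absurd h List.not_mem_nil) sub_c9_0_5, ?_⟩
  refine List.forall_mem_cons.mpr ⟨root_sound (by norm_num) hC hP hr (fun _ h => absurd h List.not_mem_nil) sub_c9_0_6, ?_⟩
  refine List.forall_mem_cons.mpr ⟨root_sound (by norm_num) hC hP hr (fun _ h => absurd h List.not_mem_nil) sub_c9_0_7, ?_⟩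
  refine List.forall_mem_cons.mpr ⟨root_sound (by norm_num) hC hP hr (fun _ h => absurd h List.not_mem_nil) sub_c9_0_8, ?_⟩
  refine List.forall_mem_cons.mpr ⟨root_sound (by norm_num) hC hP hr (fun _ h => absurd h List.not_mem_nil) sub_c9_0_9, ?_⟩
  refine List.forall_mem_cons.mpr ⟨root_sound (by norm_num) hC hP hr (fun _ h => absurd h List.not_mem_nil) sub_c9_0_10, ?_⟩
  refine List.forall_mem_cons.mpr ⟨root_sound (by norm_num) hC hP hr (fun _ h => absurd h List.not_mem_nil) sub_c9_0_11, ?_⟩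
  refine List.forall_mem_cons.mpr ⟨root_sound (by norm_num) hC hP hr (fun _ h => absurd h List.not_mem_nil) sub_c9_0_12, ?_⟩
  exact fun _ h => absurd h List.not_mem_nil

theorem nocyc9_1 (hC : Good C) (hP : NoPath 9 C) : ∀ q ∈ refs9_1, PV 9 q ∧ NoCyc 9 q C := by
  refine List.forall_mem_cons.mpr ⟨⟨by decide +kernel, ?_⟩, nocyc9_0 hC hP⟩
  exact cyc_lemma (by norm_num) (by decide +kernel) init_c9_0 ok_c9_0 dead_c9_0 hC hP (nocyc9_0 hC hP)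

theorem dead_c9_1 (C : ℕ → ℕ → ℕ) (hC : Good C) (hP : NoPath 9 C)
    (hr : ∀ q ∈ refs9_1, PV 9 q ∧ NoCyc 9 q C) : ∀ x ∈ kn_c9_1, Dead C x := by
  refine List.forall_mem_cons.mpr ⟨root_sound (by norm_num) hC hP hr (fun _ h => absurd h List.not_mem_nil) sub_c9_1_0, ?_⟩
  refine List.forall_mem_cons.mpr ⟨root_sound (by norm_num) hC hP hr (fun _ h => absurd h List.not_mem_nil) sub_c9_1_1, ?_⟩
  refine List.forall_mem_cons.mpr ⟨root_sound (by norm_num) hC hP hr (fun _ h => absurd h List.not_mem_nil) sub_c9_1_2, ?_⟩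
  refine List.forall_mem_cons.mpr ⟨root_sound (by norm_num) hC hP hr (fun _ h => absurd h List.not_mem_nil) sub_c9_1_3, ?_⟩
  refine List.forall_mem_cons.mpr ⟨root_sound (by norm_num) hC hP hr (fun _ h => absurd h List.not_mem_nil) sub_c9_1_4, ?_⟩
  refine List.forall_mem_cons.mpr ⟨root_sound (by norm_num) hC hP hr (fun _ h => absurd h List.not_mem_nil) sub_c9_1_5, ?_⟩
  refine List.forall_mem_cons.mpr ⟨root_sound (by norm_num) hC hP hr (fun _ h => absurd h List.not_mem_nil) sub_c9_1_6, ?_⟩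
  refine List.forall_mem_cons.mpr ⟨root_sound (by norm_num) hC hP hr (fun _ h => absurd h List.not_mem_nil) sub_c9_1_7, ?_⟩
  refine List.forall_mem_cons.mpr ⟨root_sound (by norm_num) hC hP hr (fun _ h => absurd h List.not_mem_nil) sub_c9_1_8, ?_⟩
  refine List.forall_mem_cons.mpr ⟨root_sound (by norm_num) hC hP hr (fun _ h => absurd h List.not_mem_nil) sub_c9_1_9, ?_⟩
  refine List.forall_mem_cons.mpr ⟨root_sound (by norm_num) hC hP hr (fun _ h => absurd h List.not_mem_nil) sub_c9_1_10, ?_⟩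
  refine List.forall_mem_cons.mpr ⟨root_sound (by norm_num) hC hP hr (fun _ h => absurd h List.not_mem_nil) sub_c9_1_11, ?_⟩
  refine List.forall_mem_cons.mpr ⟨root_sound (by norm_num) hC hP hr (fun _ h => absurd h List.not_mem_nil) sub_c9_1_12, ?_⟩
  exact fun _ h => absurd h List.not_mem_nil

theorem nocyc9_2 (hC : Good C) (hP : NoPath 9 C) : ∀ q ∈ refs9_2, PV 9 q ∧ NoCyc 9 q C := by
  refine List.forall_mem_cons.mpr ⟨⟨by decide +kernel, ?_⟩, nocyc9_1 hC hP⟩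
  exact cyc_lemma (by norm_num) (by decide +kernel) init_c9_1 ok_c9_1 dead_c9_1 hC hP (nocyc9_1 hC hP)

theorem dead_c9_2 (C : ℕ → ℕ → ℕ) (hC : Good C) (hP : NoPath 9 C)
    (hr : ∀ q ∈ refs9_2, PV 9 q ∧ NoCyc 9 q C) : ∀ x ∈ kn_c9_2, Dead C x := by
  refine List.forall_mem_cons.mpr ⟨root_sound (by norm_num) hC hP hr (fun _ h => absurd h List.not_mem_nil) sub_c9_2_0, ?_⟩
  refine List.forall_mem_cons.mpr ⟨root_sound (by norm_num) hC hP hr (fun _ h => absurd h List.not_mem_nil) sub_c9_2_1, ?_⟩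
  refine List.forall_mem_cons.mpr ⟨root_sound (by norm_num) hC hP hr (fun _ h => absurd h List.not_mem_nil) sub_c9_2_2, ?_⟩
  refine List.forall_mem_cons.mpr ⟨root_sound (by norm_num) hC hP hr (fun _ h => absurd h List.not_mem_nil) sub_c9_2_3, ?_⟩
  refine List.forall_mem_cons.mpr ⟨root_sound (by norm_num) hC hP hr (fun _ h => absurd h List.not_mem_nil) sub_c9_2_4, ?_⟩
  refine List.forall_mem_cons.mpr ⟨root_sound (by norm_num) hC hP hr (fun _ h => absurd h List.not_mem_nil) sub_c9_2_5, ?_⟩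
  refine List.forall_mem_cons.mpr ⟨root_sound (by norm_num) hC hP hr (fun _ h => absurd h List.not_mem_nil) sub_c9_2_6, ?_⟩
  refine List.forall_mem_cons.mpr ⟨root_sound (by norm_num) hC hP hr (fun _ h => absurd h List.not_mem_nil) sub_c9_2_7, ?_⟩
  refine List.forall_mem_cons.mpr ⟨root_sound (by norm_num) hC hP hr (fun _ h => absurd h List.not_mem_nil) sub_c9_2_8, ?_⟩
  refine List.forall_mem_cons.mpr ⟨root_sound (by norm_num) hC hP hr (fun _ h => absurd h List.not_mem_nil) sub_c9_2_9, ?_⟩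
  refine List.forall_mem_cons.mpr ⟨root_sound (by norm_num) hC hP hr (fun _ h => absurd h List.not_mem_nil) sub_c9_2_10, ?_⟩
  refine List.forall_mem_cons.mpr ⟨root_sound (by norm_num) hC hP hr (fun _ h => absurd h List.not_mem_nil) sub_c9_2_11, ?_⟩
  refine List.forall_mem_cons.mpr ⟨root_sound (by norm_num) hC hP hr (fun _ h => absurd h List.not_mem_nil) sub_c9_2_12, ?_⟩
  exact fun _ h => absurd h List.not_mem_nil

theorem nocyc9_3 (hC : Good C) (hP : NoPath 9 C) : ∀ q ∈ refs9_3, PV 9 q ∧ NoCyc 9 q C := by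
  refine List.forall_mem_cons.mpr ⟨⟨by decide +kernel, ?_⟩, nocyc9_2 hC hP⟩
  exact cyc_lemma (by norm_num) (by decide +kernel) init_c9_2 ok_c9_2 dead_c9_2 hC hP (nocyc9_2 hC hP)

theorem dead_c9_3 (C : ℕ → ℕ → ℕ) (hC : Good C) (hP : NoPath 9 C)
    (hr : ∀ q ∈ refs9_3, PV 9 q ∧ NoCyc 9 q C) : ∀ x ∈ kn_c9_3, Dead C x := by
  refine List.forall_mem_cons.mpr ⟨root_sound (by norm_num) hC hP hr (fun _ h => absurd h List.not_mem_nil) sub_c9_3_0, ?_⟩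
  refine List.forall_mem_cons.mpr ⟨root_sound (by norm_num) hC hP hr (fun _ h => absurd h List.not_mem_nil) sub_c9_3_1, ?_⟩
  refine List.forall_mem_cons.mpr ⟨root_sound (by norm_num) hC hP hr (fun _ h => absurd h List.not_mem_nil) sub_c9_3_2, ?_⟩
  refine List.forall_mem_cons.mpr ⟨root_sound (by norm_num) hC hP hr (fun _ h => absurd h List.not_mem_nil) sub_c9_3_3, ?_⟩
  refine List.forall_mem_cons.mpr ⟨root_sound (by norm_num) hC hP hr (fun _ h => absurd h List.not_mem_nil) sub_c9_3_4, ?_⟩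
  refine List.forall_mem_cons.mpr ⟨root_sound (by norm_num) hC hP hr (fun _ h => absurd h List.not_mem_nil) sub_c9_3_5, ?_⟩
  refine List.forall_mem_cons.mpr ⟨root_sound (by norm_num) hC hP hr (fun _ h => absurd h List.not_mem_nil) sub_c9_3_6, ?_⟩
  refine List.forall_mem_cons.mpr ⟨root_sound (by norm_num) hC hP hr (fun _ h => absurd h List.not_mem_nil) sub_c9_3_7, ?_⟩
  refine List.forall_mem_cons.mpr ⟨root_sound (by norm_num) hC hP hr (fun _ h => absurd h List.not_mem_nil) sub_c9_3_8, ?_⟩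
  refine List.forall_mem_cons.mpr ⟨root_sound (by norm_num) hC hP hr (fun _ h => absurd h List.not_mem_nil) sub_c9_3_9, ?_⟩
  refine List.forall_mem_cons.mpr ⟨root_sound (by norm_num) hC hP hr (fun _ h => absurd h List.not_mem_nil) sub_c9_3_10, ?_⟩
  refine List.forall_mem_cons.mpr ⟨root_sound (by norm_num) hC hP hr (fun _ h => absurd h List.not_mem_nil) sub_c9_3_11, ?_⟩
  refine List.forall_mem_cons.mpr ⟨root_sound (by norm_num) hC hP hr (fun _ h => absurd h List.not_mem_nil) sub_c9_3_12, ?_⟩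
  exact fun _ h => absurd h List.not_mem_nil

theorem nocyc9_4 (hC : Good C) (hP : NoPath 9 C) : ∀ q ∈ refs9_4, PV 9 q ∧ NoCyc 9 q C := by
  refine List.forall_mem_cons.mpr ⟨⟨by decide +kernel, ?_⟩, nocyc9_3 hC hP⟩
  exact cyc_lemma (by norm_num) (by decide +kernel) init_c9_3 ok_c9_3 dead_c9_3 hC hP (nocyc9_3 hC hP)

theorem dead_c9_4 (C : ℕ → ℕ → ℕ) (hC : Good C) (hP : NoPath 9 C)
    (hr : ∀ q ∈ refs9_4, PV 9 q ∧ NoCyc 9 q C) : ∀ x ∈ kn_c9_4, Dead C x := by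
  refine List.forall_mem_cons.mpr ⟨root_sound (by norm_num) hC hP hr (fun _ h => absurd h List.not_mem_nil) sub_c9_4_0, ?_⟩
  refine List.forall_mem_cons.mpr ⟨root_sound (by norm_num) hC hP hr (fun _ h => absurd h List.not_mem_nil) sub_c9_4_1, ?_⟩
  refine List.forall_mem_cons.mpr ⟨root_sound (by norm_num) hC hP hr (fun _ h => absurd h List.not_mem_nil) sub_c9_4_2, ?_⟩
  refine List.forall_mem_cons.mpr ⟨root_sound (by norm_num) hC hP hr (fun _ h => absurd h List.not_mem_nil) sub_c9_4_3, ?_⟩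
  refine List.forall_mem_cons.mpr ⟨root_sound (by norm_num) hC hP hr (fun _ h => absurd h List.not_mem_nil) sub_c9_4_4, ?_⟩
  refine List.forall_mem_cons.mpr ⟨root_sound (by norm_num) hC hP hr (fun _ h => absurd h List.not_mem_nil) sub_c9_4_5, ?_⟩
  refine List.forall_mem_cons.mpr ⟨root_sound (by norm_num) hC hP hr (fun _ h => absurd h List.not_mem_nil) sub_c9_4_6, ?_⟩
  refine List.forall_mem_cons.mpr ⟨root_sound (by norm_num) hC hP hr (fun _ h => absurd h List.not_mem_nil) sub_c9_4_7, ?_⟩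
  refine List.forall_mem_cons.mpr ⟨root_sound (by norm_num) hC hP hr (fun _ h => absurd h List.not_mem_nil) sub_c9_4_8, ?_⟩
  refine List.forall_mem_cons.mpr ⟨root_sound (by norm_num) hC hP hr (fun _ h => absurd h List.not_mem_nil) sub_c9_4_9, ?_⟩
  refine List.forall_mem_cons.mpr ⟨root_sound (by norm_num) hC hP hr (fun _ h => absurd h List.not_mem_nil) sub_c9_4_10, ?_⟩
  exact fun _ h => absurd h List.not_mem_nil

theorem nocyc9_5 (hC : Good C) (hP : NoPath 9 C) : ∀ q ∈ refs9_5, PV 9 q ∧ NoCyc 9 q C := by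
  refine List.forall_mem_cons.mpr ⟨⟨by decide +kernel, ?_⟩, nocyc9_4 hC hP⟩
  exact cyc_lemma (by norm_num) (by decide +kernel) init_c9_4 ok_c9_4 dead_c9_4 hC hP (nocyc9_4 hC hP)

theorem dead_c9_5 (C : ℕ → ℕ → ℕ) (hC : Good C) (hP : NoPath 9 C)
    (hr : ∀ q ∈ refs9_5, PV 9 q ∧ NoCyc 9 q C) : ∀ x ∈ kn_c9_5, Dead C x := by
  refine List.forall_mem_cons.mpr ⟨root_sound (by norm_num) hC hP hr (fun _ h => absurd h List.not_mem_nil) sub_c9_5_0, ?_⟩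
  refine List.forall_mem_cons.mpr ⟨root_sound (by norm_num) hC hP hr (fun _ h => absurd h List.not_mem_nil) sub_c9_5_1, ?_⟩
  refine List.forall_mem_cons.mpr ⟨root_sound (by norm_num) hC hP hr (fun _ h => absurd h List.not_mem_nil) sub_c9_5_2, ?_⟩
  refine List.forall_mem_cons.mpr ⟨root_sound (by norm_num) hC hP hr (fun _ h => absurd h List.not_mem_nil) sub_c9_5_3, ?_⟩
  refine List.forall_mem_cons.mpr ⟨root_sound (by norm_num) hC hP hr (fun _ h => absurd h List.not_mem_nil) sub_c9_5_4, ?_⟩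
  refine List.forall_mem_cons.mpr ⟨root_sound (by norm_num) hC hP hr (fun _ h => absurd h List.not_mem_nil) sub_c9_5_5, ?_⟩
  refine List.forall_mem_cons.mpr ⟨root_sound (by norm_num) hC hP hr (fun _ h => absurd h List.not_mem_nil) sub_c9_5_6, ?_⟩
  refine List.forall_mem_cons.mpr ⟨root_sound (by norm_num) hC hP hr (fun _ h => absurd h List.not_mem_nil) sub_c9_5_7, ?_⟩
  exact fun _ h => absurd h List.not_mem_nil

theorem nocyc9_6 (hC : Good C) (hP : NoPath 9 C) : ∀ q ∈ refs9_6, PV 9 q ∧ NoCyc 9 q C := by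
  refine List.forall_mem_cons.mpr ⟨⟨by decide +kernel, ?_⟩, nocyc9_5 hC hP⟩
  exact cyc_lemma (by norm_num) (by decide +kernel) init_c9_5 ok_c9_5 dead_c9_5 hC hP (nocyc9_5 hC hP)

theorem dead_c9_6 (C : ℕ → ℕ → ℕ) (hC : Good C) (hP : NoPath 9 C)
    (hr : ∀ q ∈ refs9_6, PV 9 q ∧ NoCyc 9 q C) : ∀ x ∈ kn_c9_6, Dead C x := by
  refine List.forall_mem_cons.mpr ⟨root_sound (by norm_num) hC hP hr (fun _ h => absurd h List.not_mem_nil) sub_c9_6_0, ?_⟩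
  refine List.forall_mem_cons.mpr ⟨root_sound (by norm_num) hC hP hr (fun _ h => absurd h List.not_mem_nil) sub_c9_6_1, ?_⟩
  refine List.forall_mem_cons.mpr ⟨root_sound (by norm_num) hC hP hr (fun _ h => absurd h List.not_mem_nil) sub_c9_6_2, ?_⟩
  refine List.forall_mem_cons.mpr ⟨root_sound (by norm_num) hC hP hr (fun _ h => absurd h List.not_mem_nil) sub_c9_6_3, ?_⟩
  refine List.forall_mem_cons.mpr ⟨root_sound (by norm_num) hC hP hr (fun _ h => absurd h List.not_mem_nil) sub_c9_6_4, ?_⟩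
  refine List.forall_mem_cons.mpr ⟨root_sound (by norm_num) hC hP hr (fun _ h => absurd h List.not_mem_nil) sub_c9_6_5, ?_⟩
  refine List.forall_mem_cons.mpr ⟨root_sound (by norm_num) hC hP hr (fun _ h => absurd h List.not_mem_nil) sub_c9_6_6, ?_⟩
  refine List.forall_mem_cons.mpr ⟨root_sound (by norm_num) hC hP hr (fun _ h => absurd h List.not_mem_nil) sub_c9_6_7, ?_⟩
  refine List.forall_mem_cons.mpr ⟨root_sound (by norm_num) hC hP hr (fun _ h => absurd h List.not_mem_nil) sub_c9_6_8, ?_⟩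
  refine List.forall_mem_cons.mpr ⟨root_sound (by norm_num) hC hP hr (fun _ h => absurd h List.not_mem_nil) sub_c9_6_9, ?_⟩
  refine List.forall_mem_cons.mpr ⟨root_sound (by norm_num) hC hP hr (fun _ h => absurd h List.not_mem_nil) sub_c9_6_10, ?_⟩
  exact fun _ h => absurd h List.not_mem_nil

theorem nocyc9_7 (hC : Good C) (hP : NoPath 9 C) : ∀ q ∈ refs9_7, PV 9 q ∧ NoCyc 9 q C := by
  refine List.forall_mem_cons.mpr ⟨⟨by decide +kernel, ?_⟩, nocyc9_6 hC hP⟩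
  exact cyc_lemma (by norm_num) (by decide +kernel) init_c9_6 ok_c9_6 dead_c9_6 hC hP (nocyc9_6 hC hP)

theorem dead_c9_7 (C : ℕ → ℕ → ℕ) (hC : Good C) (hP : NoPath 9 C)
    (hr : ∀ q ∈ refs9_7, PV 9 q ∧ NoCyc 9 q C) : ∀ x ∈ kn_c9_7, Dead C x := by
  refine List.forall_mem_cons.mpr ⟨root_sound (by norm_num) hC hP hr (fun _ h => absurd h List.not_mem_nil) sub_c9_7_0, ?_⟩
  refine List.forall_mem_cons.mpr ⟨root_sound (by norm_num) hC hP hr (fun _ h => absurd h List.not_mem_nil) sub_c9_7_1, ?_⟩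
  refine List.forall_mem_cons.mpr ⟨root_sound (by norm_num) hC hP hr (fun _ h => absurd h List.not_mem_nil) sub_c9_7_2, ?_⟩
  refine List.forall_mem_cons.mpr ⟨root_sound (by norm_num) hC hP hr (fun _ h => absurd h List.not_mem_nil) sub_c9_7_3, ?_⟩
  refine List.forall_mem_cons.mpr ⟨root_sound (by norm_num) hC hP hr (fun _ h => absurd h List.not_mem_nil) sub_c9_7_4, ?_⟩
  refine List.forall_mem_cons.mpr ⟨root_sound (by norm_num) hC hP hr (fun _ h => absurd h List.not_mem_nil) sub_c9_7_5, ?_⟩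
  refine List.forall_mem_cons.mpr ⟨root_sound (by norm_num) hC hP hr (fun _ h => absurd h List.not_mem_nil) sub_c9_7_6, ?_⟩
  refine List.forall_mem_cons.mpr ⟨root_sound (by norm_num) hC hP hr (fun _ h => absurd h List.not_mem_nil) sub_c9_7_7, ?_⟩
  refine List.forall_mem_cons.mpr ⟨root_sound (by norm_num) hC hP hr (fun _ h => absurd h List.not_mem_nil) sub_c9_7_8, ?_⟩
  refine List.forall_mem_cons.mpr ⟨root_sound (by norm_num) hC hP hr (fun _ h => absurd h List.not_mem_nil) sub_c9_7_9, ?_⟩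
  refine List.forall_mem_cons.mpr ⟨root_sound (by norm_num) hC hP hr (fun _ h => absurd h List.not_mem_nil) sub_c9_7_10, ?_⟩
  refine List.forall_mem_cons.mpr ⟨root_sound (by norm_num) hC hP hr (fun _ h => absurd h List.not_mem_nil) sub_c9_7_11, ?_⟩
  refine List.forall_mem_cons.mpr ⟨root_sound (by norm_num) hC hP hr (fun _ h => absurd h List.not_mem_nil) sub_c9_7_12, ?_⟩
  refine List.forall_mem_cons.mpr ⟨root_sound (by norm_num) hC hP hr (fun _ h => absurd h List.not_mem_nil) sub_c9_7_13, ?_⟩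
  refine List.forall_mem_cons.mpr ⟨root_sound (by norm_num) hC hP hr (fun _ h => absurd h List.not_mem_nil) sub_c9_7_14, ?_⟩
  exact fun _ h => absurd h List.not_mem_nil

theorem nocyc9_8 (hC : Good C) (hP : NoPath 9 C) : ∀ q ∈ refs9_8, PV 9 q ∧ NoCyc 9 q C := by
  refine List.forall_mem_cons.mpr ⟨⟨by decide +kernel, ?_⟩, nocyc9_7 hC hP⟩
  exact cyc_lemma (by norm_num) (by decide +kernel) init_c9_7 ok_c9_7 dead_c9_7 hC hP (nocyc9_7 hC hP)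

theorem dead_c9_8 (C : ℕ → ℕ → ℕ) (hC : Good C) (hP : NoPath 9 C)
    (hr : ∀ q ∈ refs9_8, PV 9 q ∧ NoCyc 9 q C) : ∀ x ∈ kn_c9_8, Dead C x := by
  refine List.forall_mem_cons.mpr ⟨root_sound (by norm_num) hC hP hr (fun _ h => absurd h List.not_mem_nil) sub_c9_8_0, ?_⟩
  refine List.forall_mem_cons.mpr ⟨root_sound (by norm_num) hC hP hr (fun _ h => absurd h List.not_mem_nil) sub_c9_8_1, ?_⟩
  refine List.forall_mem_cons.mpr ⟨root_sound (by norm_num) hC hP hr (fun _ h => absurd h List.not_mem_nil) sub_c9_8_2, ?_⟩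
  refine List.forall_mem_cons.mpr ⟨root_sound (by norm_num) hC hP hr (fun _ h => absurd h List.not_mem_nil) sub_c9_8_3, ?_⟩
  refine List.forall_mem_cons.mpr ⟨root_sound (by norm_num) hC hP hr (fun _ h => absurd h List.not_mem_nil) sub_c9_8_4, ?_⟩
  refine List.forall_mem_cons.mpr ⟨root_sound (by norm_num) hC hP hr (fun _ h => absurd h List.not_mem_nil) sub_c9_8_5, ?_⟩
  refine List.forall_mem_cons.mpr ⟨root_sound (by norm_num) hC hP hr (fun _ h => absurd h List.not_mem_nil) sub_c9_8_6, ?_⟩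
  exact fun _ h => absurd h List.not_mem_nil

theorem nocyc9_9 (hC : Good C) (hP : NoPath 9 C) : ∀ q ∈ refs9_9, PV 9 q ∧ NoCyc 9 q C := by
  refine List.forall_mem_cons.mpr ⟨⟨by decide +kernel, ?_⟩, nocyc9_8 hC hP⟩
  exact cyc_lemma (by norm_num) (by decide +kernel) init_c9_8 ok_c9_8 dead_c9_8 hC hP (nocyc9_8 hC hP)

theorem dead_c9_9 (C : ℕ → ℕ → ℕ) (hC : Good C) (hP : NoPath 9 C)
    (hr : ∀ q ∈ refs9_9, PV 9 q ∧ NoCyc 9 q C) : ∀ x ∈ kn_c9_9, Dead C x := by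
  refine List.forall_mem_cons.mpr ⟨root_sound (by norm_num) hC hP hr (fun _ h => absurd h List.not_mem_nil) sub_c9_9_0, ?_⟩
  refine List.forall_mem_cons.mpr ⟨root_sound (by norm_num) hC hP hr (fun _ h => absurd h List.not_mem_nil) sub_c9_9_1, ?_⟩
  refine List.forall_mem_cons.mpr ⟨root_sound (by norm_num) hC hP hr (fun _ h => absurd h List.not_mem_nil) sub_c9_9_2, ?_⟩
  refine List.forall_mem_cons.mpr ⟨root_sound (by norm_num) hC hP hr (fun _ h => absurd h List.not_mem_nil) sub_c9_9_3, ?_⟩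
  exact fun _ h => absurd h List.not_mem_nil

theorem nocyc9_10 (hC : Good C) (hP : NoPath 9 C) : ∀ q ∈ refs9_10, PV 9 q ∧ NoCyc 9 q C := by
  refine List.forall_mem_cons.mpr ⟨⟨by decide +kernel, ?_⟩, nocyc9_9 hC hP⟩
  exact cyc_lemma (by norm_num) (by decide +kernel) init_c9_9 ok_c9_9 dead_c9_9 hC hP (nocyc9_9 hC hP)

theorem dead_c9_10 (C : ℕ → ℕ → ℕ) (hC : Good C) (hP : NoPath 9 C)
    (hr : ∀ q ∈ refs9_10, PV 9 q ∧ NoCyc 9 q C) : ∀ x ∈ kn_c9_10, Dead C x := by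
  refine List.forall_mem_cons.mpr ⟨root_sound (by norm_num) hC hP hr (fun _ h => absurd h List.not_mem_nil) sub_c9_10_0, ?_⟩
  refine List.forall_mem_cons.mpr ⟨root_sound (by norm_num) hC hP hr (fun _ h => absurd h List.not_mem_nil) sub_c9_10_1, ?_⟩
  refine List.forall_mem_cons.mpr ⟨root_sound (by norm_num) hC hP hr (fun _ h => absurd h List.not_mem_nil) sub_c9_10_2, ?_⟩
  refine List.forall_mem_cons.mpr ⟨root_sound (by norm_num) hC hP hr (fun _ h => absurd h List.not_mem_nil) sub_c9_10_3, ?_⟩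
  exact fun _ h => absurd h List.not_mem_nil

theorem nocyc9_11 (hC : Good C) (hP : NoPath 9 C) : ∀ q ∈ refs9_11, PV 9 q ∧ NoCyc 9 q C := by
  refine List.forall_mem_cons.mpr ⟨⟨by decide +kernel, ?_⟩, nocyc9_10 hC hP⟩
  exact cyc_lemma (by norm_num) (by decide +kernel) init_c9_10 ok_c9_10 dead_c9_10 hC hP (nocyc9_10 hC hP)

theorem dead_c9_11 (C : ℕ → ℕ → ℕ) (hC : Good C) (hP : NoPath 9 C)
    (hr : ∀ q ∈ refs9_11, PV 9 q ∧ NoCyc 9 q C) : ∀ x ∈ kn_c9_11, Dead C x := by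
  refine List.forall_mem_cons.mpr ⟨root_sound (by norm_num) hC hP hr (fun _ h => absurd h List.not_mem_nil) sub_c9_11_0, ?_⟩
  refine List.forall_mem_cons.mpr ⟨root_sound (by norm_num) hC hP hr (fun _ h => absurd h List.not_mem_nil) sub_c9_11_1, ?_⟩
  refine List.forall_mem_cons.mpr ⟨root_sound (by norm_num) hC hP hr (fun _ h => absurd h List.not_mem_nil) sub_c9_11_2, ?_⟩
  exact fun _ h => absurd h List.not_mem_nil

theorem nocyc9_12 (hC : Good C) (hP : NoPath 9 C) : ∀ q ∈ refs9_12, PV 9 q ∧ NoCyc 9 q C := by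
  refine List.forall_mem_cons.mpr ⟨⟨by decide +kernel, ?_⟩, nocyc9_11 hC hP⟩
  exact cyc_lemma (by norm_num) (by decide +kernel) init_c9_11 ok_c9_11 dead_c9_11 hC hP (nocyc9_11 hC hP)

theorem dead_c9_12 (C : ℕ → ℕ → ℕ) (hC : Good C) (hP : NoPath 9 C)
    (hr : ∀ q ∈ refs9_12, PV 9 q ∧ NoCyc 9 q C) : ∀ x ∈ kn_c9_12, Dead C x := by
  exact fun _ h => absurd h List.not_mem_nil

theorem nocyc9_13 (hC : Good C) (hP : NoPath 9 C) : ∀ q ∈ refs9_13, PV 9 q ∧ NoCyc 9 q C := by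
  refine List.forall_mem_cons.mpr ⟨⟨by decide +kernel, ?_⟩, nocyc9_12 hC hP⟩
  exact cyc_lemma (by norm_num) (by decide +kernel) init_c9_12 ok_c9_12 dead_c9_12 hC hP (nocyc9_12 hC hP)

theorem dead_c9_13 (C : ℕ → ℕ → ℕ) (hC : Good C) (hP : NoPath 9 C)
    (hr : ∀ q ∈ refs9_13, PV 9 q ∧ NoCyc 9 q C) : ∀ x ∈ kn_c9_13, Dead C x := by
  exact fun _ h => absurd h List.not_mem_nil

theorem nocyc9_14 (hC : Good C) (hP : NoPath 9 C) : ∀ q ∈ refs9_14, PV 9 q ∧ NoCyc 9 q C := by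
  refine List.forall_mem_cons.mpr ⟨⟨by decide +kernel, ?_⟩, nocyc9_13 hC hP⟩
  exact cyc_lemma (by norm_num) (by decide +kernel) init_c9_13 ok_c9_13 dead_c9_13 hC hP (nocyc9_13 hC hP)

theorem dead_c9_14 (C : ℕ → ℕ → ℕ) (hC : Good C) (hP : NoPath 9 C)
    (hr : ∀ q ∈ refs9_14, PV 9 q ∧ NoCyc 9 q C) : ∀ x ∈ kn_c9_14, Dead C x := by
  exact fun _ h => absurd h List.not_mem_nil

theorem nocyc9_15 (hC : Good C) (hP : NoPath 9 C) : ∀ q ∈ refs9_15, PV 9 q ∧ NoCyc 9 q C := by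
  refine List.forall_mem_cons.mpr ⟨⟨by decide +kernel, ?_⟩, nocyc9_14 hC hP⟩
  exact cyc_lemma (by norm_num) (by decide +kernel) init_c9_14 ok_c9_14 dead_c9_14 hC hP (nocyc9_14 hC hP)

theorem dead_c9_15 (C : ℕ → ℕ → ℕ) (hC : Good C) (hP : NoPath 9 C)
    (hr : ∀ q ∈ refs9_15, PV 9 q ∧ NoCyc 9 q C) : ∀ x ∈ kn_c9_15, Dead C x := by
  exact fun _ h => absurd h List.not_mem_nil

theorem nocyc9_16 (hC : Good C) (hP : NoPath 9 C) : ∀ q ∈ refs9_16, PV 9 q ∧ NoCyc 9 q C := by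
  refine List.forall_mem_cons.mpr ⟨⟨by decide +kernel, ?_⟩, nocyc9_15 hC hP⟩
  exact cyc_lemma (by norm_num) (by decide +kernel) init_c9_15 ok_c9_15 dead_c9_15 hC hP (nocyc9_15 hC hP)

theorem dead_c9_16 (C : ℕ → ℕ → ℕ) (hC : Good C) (hP : NoPath 9 C)
    (hr : ∀ q ∈ refs9_16, PV 9 q ∧ NoCyc 9 q C) : ∀ x ∈ kn_c9_16, Dead C x := by
  exact fun _ h => absurd h List.not_mem_nil

theorem nocyc9_17 (hC : Good C) (hP : NoPath 9 C) : ∀ q ∈ refs9_17, PV 9 q ∧ NoCyc 9 q C := by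
  refine List.forall_mem_cons.mpr ⟨⟨by decide +kernel, ?_⟩, nocyc9_16 hC hP⟩
  exact cyc_lemma (by norm_num) (by decide +kernel) init_c9_16 ok_c9_16 dead_c9_16 hC hP (nocyc9_16 hC hP)

theorem dead_c9_17 (C : ℕ → ℕ → ℕ) (hC : Good C) (hP : NoPath 9 C)
    (hr : ∀ q ∈ refs9_17, PV 9 q ∧ NoCyc 9 q C) : ∀ x ∈ kn_c9_17, Dead C x := by
  exact fun _ h => absurd h List.not_mem_nil

theorem nocyc9_18 (hC : Good C) (hP : NoPath 9 C) : ∀ q ∈ refs9_18, PV 9 q ∧ NoCyc 9 q C := by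
  refine List.forall_mem_cons.mpr ⟨⟨by decide +kernel, ?_⟩, nocyc9_17 hC hP⟩
  exact cyc_lemma (by norm_num) (by decide +kernel) init_c9_17 ok_c9_17 dead_c9_17 hC hP (nocyc9_17 hC hP)

theorem dead_c9_18 (C : ℕ → ℕ → ℕ) (hC : Good C) (hP : NoPath 9 C)
    (hr : ∀ q ∈ refs9_18, PV 9 q ∧ NoCyc 9 q C) : ∀ x ∈ kn_c9_18, Dead C x := by
  exact fun _ h => absurd h List.not_mem_nil

theorem nocyc9_19 (hC : Good C) (hP : NoPath 9 C) : ∀ q ∈ refs9_19, PV 9 q ∧ NoCyc 9 q C := by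
  refine List.forall_mem_cons.mpr ⟨⟨by decide +kernel, ?_⟩, nocyc9_18 hC hP⟩
  exact cyc_lemma (by norm_num) (by decide +kernel) init_c9_18 ok_c9_18 dead_c9_18 hC hP (nocyc9_18 hC hP)

theorem dead_c9_19 (C : ℕ → ℕ → ℕ) (hC : Good C) (hP : NoPath 9 C)
    (hr : ∀ q ∈ refs9_19, PV 9 q ∧ NoCyc 9 q C) : ∀ x ∈ kn_c9_19, Dead C x := by
  exact fun _ h => absurd h List.not_mem_nil

theorem nocyc9_20 (hC : Good C) (hP : NoPath 9 C) : ∀ q ∈ refs9_20, PV 9 q ∧ NoCyc 9 q C := by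
  refine List.forall_mem_cons.mpr ⟨⟨by decide +kernel, ?_⟩, nocyc9_19 hC hP⟩
  exact cyc_lemma (by norm_num) (by decide +kernel) init_c9_19 ok_c9_19 dead_c9_19 hC hP (nocyc9_19 hC hP)

theorem dead_c9_20 (C : ℕ → ℕ → ℕ) (hC : Good C) (hP : NoPath 9 C)
    (hr : ∀ q ∈ refs9_20, PV 9 q ∧ NoCyc 9 q C) : ∀ x ∈ kn_c9_20, Dead C x := by
  exact fun _ h => absurd h List.not_mem_nil

theorem nocyc9_21 (hC : Good C) (hP : NoPath 9 C) : ∀ q ∈ refs9_21, PV 9 q ∧ NoCyc 9 q C := by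
  refine List.forall_mem_cons.mpr ⟨⟨by decide +kernel, ?_⟩, nocyc9_20 hC hP⟩
  exact cyc_lemma (by norm_num) (by decide +kernel) init_c9_20 ok_c9_20 dead_c9_20 hC hP (nocyc9_20 hC hP)

theorem dead_c9_21 (C : ℕ → ℕ → ℕ) (hC : Good C) (hP : NoPath 9 C)
    (hr : ∀ q ∈ refs9_21, PV 9 q ∧ NoCyc 9 q C) : ∀ x ∈ kn_c9_21, Dead C x := by
  exact fun _ h => absurd h List.not_mem_nil

theorem nocyc9_22 (hC : Good C) (hP : NoPath 9 C) : ∀ q ∈ refs9_22, PV 9 q ∧ NoCyc 9 q C := by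
  refine List.forall_mem_cons.mpr ⟨⟨by decide +kernel, ?_⟩, nocyc9_21 hC hP⟩
  exact cyc_lemma (by norm_num) (by decide +kernel) init_c9_21 ok_c9_21 dead_c9_21 hC hP (nocyc9_21 hC hP)

theorem dead_p9 (C : ℕ → ℕ → ℕ) (hC : Good C) (hP : NoPath 9 C)
    (hr : ∀ q ∈ refs9_22, PV 9 q ∧ NoCyc 9 q C) : ∀ x ∈ kn_p9, Dead C x := by
  exact fun _ h => absurd h List.not_mem_nil

theorem down9 (hC : Good C) (hP : NoPath 9 C) : NoPath 8 C :=
  path_lemma (by norm_num) init_p9 ok_p9 dead_p9 hC hP (nocyc9_22 hC hP)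

theorem main (hC : Good C) : ¬ NoPath 9 C := by
  intro h9
  have h0 : NoPath 0 C := down1 hC (down2 hC (down3 hC (down4 hC (down5 hC (down6 hC (down7 hC (down8 hC (down9 hC h9))))))))
  obtain ⟨i, j, hij, hj, -⟩ := h0 (fun i => i) ⟨fun i hi => hi, fun i _ j _ h => h⟩
  omega

end Pool.Agent.Hhelper35.Rainbow
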