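import Pool.Agent.Hhelper35.Rainbow.Defs

set_option autoImplicit false

namespace Pool.Agent.Hhelper35.Rainbow

def refs1_0 : List Nat := []
def refs2_0 : List Nat := []
def refs3_0 : List Nat := []
def refs4_0 : List Nat := []
def refs5_0 : List Nat := []
def refs6_0 : List Nat := []
def pat6_0 : Nat := 0x6320
def refs6_1 : List Nat := pat6_0 :: refs6_0
def pat6_1 : Nat := 0x4120
def refs6_2 : List Nat := pat6_1 :: refs6_1
def pat6_2 : Nat := 0x5320
def refs6_3 : List Nat := pat6_2 :: refs6_2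
def pat6_3 : Nat := 0x5130
def refs6_4 : List Nat := pat6_3 :: refs6_3
def pat6_4 : Nat := 0x3120
def refs6_5 : List Nat := pat6_4 :: refs6_4
def pat6_5 : Nat := 0x4130
def refs6_6 : List Nat := pat6_5 :: refs6_5
def refs7_0 : List Nat := []
def pat7_0 : Nat := 0x5320
def refs7_1 : List Nat := pat7_0 :: refs7_0
def pat7_1 : Nat := 0x5130
def refs7_2 : List Nat := pat7_1 :: refs7_1
def pat7_2 : Nat := 0x6320
def refs7_3 : List Nat := pat7_2 :: refs7_2
def pat7_3 : Nat := 0x4120
def refs7_4 : List Nat := pat7_3 :: refs7_3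
def pat7_4 : Nat := 0x7430
def refs7_5 : List Nat := pat7_4 :: refs7_4
def pat7_5 : Nat := 0x5230
def refs7_6 : List Nat := pat7_5 :: refs7_5
def pat7_6 : Nat := 0x5120
def refs7_7 : List Nat := pat7_6 :: refs7_6
def pat7_7 : Nat := 0x7320
def refs7_8 : List Nat := pat7_7 :: refs7_7
def pat7_8 : Nat := 0x3120
def refs7_9 : List Nat := pat7_8 :: refs7_8
def pat7_9 : Nat := 0x5140
def refs7_10 : List Nat := pat7_9 :: refs7_9
def pat7_10 : Nat := 0x4130
def refs7_11 : List Nat := pat7_10 :: refs7_10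
def refs8_0 : List Nat := []
def pat8_0 : Nat := 0x6320
def refs8_1 : List Nat := pat8_0 :: refs8_0
def pat8_1 : Nat := 0x7320
def refs8_2 : List Nat := pat8_1 :: refs8_1
def pat8_2 : Nat := 0x5320
def refs8_3 : List Nat := pat8_2 :: refs8_2
def pat8_3 : Nat := 0x3120
def refs8_4 : List Nat := pat8_3 :: refs8_3
def pat8_4 : Nat := 0x6140
def refs8_5 : List Nat := pat8_4 :: refs8_4
def pat8_5 : Nat := 0x6130
def refs8_6 : List Nat := pat8_5 :: refs8_5
def pat8_6 : Nat := 0x8320
def refs8_7 : List Nat := pat8_6 :: refs8_6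
def pat8_7 : Nat := 0x5120
def refs8_8 : List Nat := pat8_7 :: refs8_7
def pat8_8 : Nat := 0x5130
def refs8_9 : List Nat := pat8_8 :: refs8_8
def pat8_9 : Nat := 0x4120
def refs8_10 : List Nat := pat8_9 :: refs8_9
def pat8_10 : Nat := 0x7430
def refs8_11 : List Nat := pat8_10 :: refs8_10
def pat8_11 : Nat := 0x8430
def refs8_12 : List Nat := pat8_11 :: refs8_11
def pat8_12 : Nat := 0x5230
def refs8_13 : List Nat := pat8_12 :: refs8_12
def pat8_13 : Nat := 0x4130
def refs8_14 : List Nat := pat8_13 :: refs8_13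
def pat8_14 : Nat := 0x5140
def refs8_15 : List Nat := pat8_14 :: refs8_14
def refs9_0 : List Nat := []
def pat9_0 : Nat := 0x7430
def refs9_1 : List Nat := pat9_0 :: refs9_0
def pat9_1 : Nat := 0x6320
def refs9_2 : List Nat := pat9_1 :: refs9_1
def pat9_2 : Nat := 0x5230
def refs9_3 : List Nat := pat9_2 :: refs9_2
def pat9_3 : Nat := 0x6230
def refs9_4 : List Nat := pat9_3 :: refs9_3
def pat9_4 : Nat := 0x7320
def refs9_5 : List Nat := pat9_4 :: refs9_4
def pat9_5 : Nat := 0x5320
def refs9_6 : List Nat := pat9_5 :: refs9_5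
def pat9_6 : Nat := 0x8430
def refs9_7 : List Nat := pat9_6 :: refs9_6
def pat9_7 : Nat := 0x9320
def refs9_8 : List Nat := pat9_7 :: refs9_7
def pat9_8 : Nat := 0x9430
def refs9_9 : List Nat := pat9_8 :: refs9_8
def pat9_9 : Nat := 0x9540
def refs9_10 : List Nat := pat9_9 :: refs9_9
def pat9_10 : Nat := 0x8320
def refs9_11 : List Nat := pat9_10 :: refs9_10
def pat9_11 : Nat := 0x7140
def refs9_12 : List Nat := pat9_11 :: refs9_11
def pat9_12 : Nat := 0x6130
def refs9_13 : List Nat := pat9_12 :: refs9_12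
def pat9_13 : Nat := 0x3120
def refs9_14 : List Nat := pat9_13 :: refs9_13
def pat9_14 : Nat := 0x6140
def refs9_15 : List Nat := pat9_14 :: refs9_14
def pat9_15 : Nat := 0x5130
def refs9_16 : List Nat := pat9_15 :: refs9_15
def pat9_16 : Nat := 0x4120
def refs9_17 : List Nat := pat9_16 :: refs9_16
def pat9_17 : Nat := 0x4130
def refs9_18 : List Nat := pat9_17 :: refs9_17
def pat9_18 : Nat := 0x6120
def refs9_19 : List Nat := pat9_18 :: refs9_18
def pat9_19 : Nat := 0x5120
def refs9_20 : List Nat := pat9_19 :: refs9_19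
def pat9_20 : Nat := 0x6150
def refs9_21 : List Nat := pat9_20 :: refs9_20
def pat9_21 : Nat := 0x5140
def refs9_22 : List Nat := pat9_21 :: refs9_21

end Pool.Agent.Hhelper35.Rainbow
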