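import Mathlib
import Pool.Agent.Hhelper35.Rainbow.Defs

set_option autoImplicit false

namespace Pool.Agent.Hhelper35.Rainbow

/-- An enumeration of the ten names. -/
def P10 (f : ℕ → ℕ) : Prop := (∀ i < 10, f i < 10) ∧ ∀ i < 10, ∀ j < 10, f i = f j → i = j

def Good (C : ℕ → ℕ → ℕ) : Prop :=
  (∀ a b, a < 10 → b < 10 → C a b = C b a) ∧
  (∀ a b c, a < 10 → b < 10 → c < 10 → a ≠ b → a ≠ c → b ≠ c → C a b ≠ C a c)

/-- No rainbow path with `K` edges. -/
def NoPath (K : ℕ) (C : ℕ → ℕ → ℕ) : Prop :=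
  ∀ f, P10 f → ∃ i j, i < j ∧ j < K ∧ C (f i) (f (i + 1)) = C (f j) (f (j + 1))

/-- The colour of the edge number `i` of the closed walk `f 0, …, f K`. -/
def ce (C : ℕ → ℕ → ℕ) (K : ℕ) (f : ℕ → ℕ) (i : ℕ) : ℕ := C (f i) (if i = K then f 0 else f (i + 1))

/-- The pattern code `q` is a sensible one. -/
def PV (K q : ℕ) : Prop :=
  dig q 0 < dig q 1 ∧ dig q 1 ≤ K ∧ dig q 2 < dig q 3 ∧ dig q 3 ≤ K ∧ dig q 0 ≠ dig q 3 ∧ dig q 2 ≠ dig q 1

/-- The pattern `q` on a closed walk with the edge colours `u`. -/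
def Pat (K : ℕ) (q : ℕ) (u : ℕ → ℕ) : Prop :=
  u (dig q 0) = u (dig q 1) ∧ u (dig q 2) = u (dig q 3) ∧
  ∀ i j, i < j → j ≤ K → i ≠ dig q 1 → i ≠ dig q 3 → j ≠ dig q 1 → j ≠ dig q 3 → u i ≠ u j

def NoCyc (K : ℕ) (q : ℕ) (C : ℕ → ℕ → ℕ) : Prop := ∀ f, P10 f → ¬ Pat K q (ce C K f)

def Cons (C : ℕ → ℕ → ℕ) (S : ℕ) : Prop :=
  ∀ a b c d, a < 10 → b < 10 → c < 10 → d < 10 → look S a b ≠ 0 → look S c d ≠ 0 →
    (look S a b = look S c d ↔ C a b = C c d)

structure Inv (S AV nv : ℕ) : Prop where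
  symm : ∀ a b, a < 10 → b < 10 → look S a b = look S b a
  diag : ∀ a, a < 10 → look S a a = 0
  lt : ∀ a b, a < 10 → b < 10 → look S a b < nv
  av : ∀ a, a < 10 → ∀ v, 0 < v → v < 16 → AV.testBit (16 * a + v) = false → ∃ x, x < 10 ∧ look S a x = v

/-! ### Bits -/

theorem tb_eq (m i : ℕ) : tb m i = m.testBit i := by
  unfold tb
  rw [Nat.testBit_eq_decide_div_mod_eq]
  have h1 : Nat.land (Nat.shiftRight m i) 1 = m / 2 ^ i % 2 := by
    change (m >>> i) &&& 1 = _
    rw [Nat.and_one_is_mod, Nat.shiftRight_eq_div_pow]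
  rw [h1]
  rcases Nat.mod_two_eq_zero_or_one (m / 2 ^ i) with h | h <;> rw [h] <;> rfl

theorem testBit_one_shl (i j : ℕ) : (1 <<< i).testBit j = decide (i = j) := by
  rw [Nat.one_shiftLeft, Nat.testBit_two_pow]

theorem testBit_sb (m i j : ℕ) : (sb m i).testBit j = (m.testBit j || decide (i = j)) := by
  unfold sb
  change (m ||| (1 <<< i)).testBit j = _
  rw [Nat.testBit_or, testBit_one_shl]

theorem testBit_look (S a b i : ℕ) :
    (look S a b).testBit i = (decide (i < 4) && S.testBit (40 * a + 4 * b + i)) := by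
  unfold look
  change ((S >>> (40 * a + 4 * b)) &&& 15).testBit i = _
  rw [Nat.testBit_and, Nat.testBit_shiftRight]
  have : (15 : ℕ) = 2 ^ 4 - 1 := rfl
  rw [this, Nat.testBit_two_pow_sub_one, Bool.and_comm]

theorem look_lt (S a b : ℕ) : look S a b < 16 := by
  unfold look
  change (_ &&& 15) < 16
  have := @Nat.and_le_right (Nat.shiftRight S (Nat.add (Nat.mul 40 a) (Nat.mul 4 b))) 15
  omega

theorem look_upd {S a b v x y : ℕ} (ha : a < 10) (hb : b < 10) (hx : x < 10) (hy : y < 10)
    (hab : a ≠ b) (hv : v < 16) (h1 : look S a b = 0) (h2 : look S b a = 0) :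
    look (upd S a b v) x y = if (x = a ∧ y = b) ∨ (x = b ∧ y = a) then v else look S x y := by
  have hv4 : ∀ i, 4 ≤ i → v.testBit i = false := fun i hi =>
    Nat.testBit_lt_two_pow (lt_of_lt_of_le hv (by
      calc 16 = 2 ^ 4 := rfl
        _ ≤ 2 ^ i := Nat.pow_le_pow_right (by norm_num) hi))
  have hu : ∀ j, (upd S a b v).testBit j =
      (S.testBit j || (decide (j ≥ 40 * a + 4 * b) && v.testBit (j - (40 * a + 4 * b))) ||
        (decide (j ≥ 40 * b + 4 * a) && v.testBit (j - (40 * b + 4 * a)))) := by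
    intro j
    unfold upd
    change ((S ||| (v <<< (40 * a + 4 * b))) ||| (v <<< (40 * b + 4 * a))).testBit j = _
    rw [Nat.testBit_or, Nat.testBit_or, Nat.testBit_shiftLeft, Nat.testBit_shiftLeft]
  apply Nat.eq_of_testBit_eq
  intro i
  rw [testBit_look, hu]
  by_cases hi : i < 4
  swap
  · simp only [hi, decide_false, Bool.false_and]
    split_ifs
    · exact (hv4 i (by omega)).symm
    · rw [testBit_look]; simp [hi]
  simp only [hi, decide_true, Bool.true_and]
  have hS1 : S.testBit (40 * a + 4 * b + i) = false := by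
    have := testBit_look S a b i
    rw [h1] at this
    simpa [hi] using this.symm
  have hS2 : S.testBit (40 * b + 4 * a + i) = false := by
    have := testBit_look S b a i
    rw [h2] at this
    simpa [hi] using this.symm
  split_ifs with hc
  · rcases hc with ⟨rfl, rfl⟩ | ⟨rfl, rfl⟩
    · have e1 : (decide (40 * x + 4 * y + i ≥ 40 * y + 4 * x) && v.testBit (40 * x + 4 * y + i - (40 * y + 4 * x))) = false := by
        by_cases h : 40 * x + 4 * y + i ≥ 40 * y + 4 * x
        · rw [hv4 _ (by omega)]; simp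
        · simp [h]
      have e2 : 40 * x + 4 * y + i - (40 * x + 4 * y) = i := by omega
      have e3 : 40 * x + 4 * y + i ≥ 40 * x + 4 * y := by omega
      rw [hS1, e1, e2]; simp [e3]
    · have e1 : (decide (40 * x + 4 * y + i ≥ 40 * y + 4 * x) && v.testBit (40 * x + 4 * y + i - (40 * y + 4 * x))) = false := by
        by_cases h : 40 * x + 4 * y + i ≥ 40 * y + 4 * x
        · rw [hv4 _ (by omega)]; simp
        · simp [h]
      have e2 : 40 * x + 4 * y + i - (40 * x + 4 * y) = i := by omega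
      have e3 : 40 * x + 4 * y + i ≥ 40 * x + 4 * y := by omega
      rw [hS2, e1, e2]; simp [e3]
  · have e1 : (decide (40 * x + 4 * y + i ≥ 40 * a + 4 * b) && v.testBit (40 * x + 4 * y + i - (40 * a + 4 * b))) = false := by
      by_cases h : 40 * x + 4 * y + i ≥ 40 * a + 4 * b
      · rw [hv4 _ (by omega)]; simp
      · simp [h]
    have e2 : (decide (40 * x + 4 * y + i ≥ 40 * b + 4 * a) && v.testBit (40 * x + 4 * y + i - (40 * b + 4 * a))) = false := by
      by_cases h : 40 * x + 4 * y + i ≥ 40 * b + 4 * a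
      · rw [hv4 _ (by omega)]; simp
      · simp [h]
    rw [e1, e2, testBit_look]; simp [hi]

/-! ### Folds -/

theorem beq_false {a b : ℕ} (h : a ≠ b) : Nat.beq a b = false := by
  cases h1 : Nat.beq a b with
  | false => rfl
  | true => exact absurd (Nat.eq_of_beq_eq_true h1) h

theorem dig_lt (p i : ℕ) : dig p i < 16 := by
  unfold dig
  change (_ &&& 15) < 16
  have := @Nat.and_le_right (Nat.shiftRight p (Nat.mul 4 i)) 15
  omega

theorem testBit_full {u : ℕ} (hu : u < 16) : (65535 : ℕ).testBit u = true := by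
  have : (65535 : ℕ) = 2 ^ 16 - 1 := rfl
  rw [this, Nat.testBit_two_pow_sub_one]
  simpa using hu

theorem ad_spec {m v u : ℕ} (hu : u < 16) (h : (ad m v).testBit u = false) :
    m.testBit u = false ∧ v ≠ u ∧ m.testBit v = false := by
  unfold ad at h
  rw [tb_eq] at h
  cases h1 : m.testBit v with
  | true => rw [h1] at h; simp only [cond_true] at h; rw [testBit_full hu] at h; exact absurd h (by simp)
  | false =>
    rw [h1] at h
    simp only [cond_false] at h
    rw [testBit_sb] at h
    simp only [Bool.or_eq_false_iff, decide_eq_false_iff_not] at h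
    exact ⟨h.1, h.2, rfl⟩

theorem ad_self {m v : ℕ} (hv : v < 16) : (ad m v).testBit v = true := by
  by_contra hc
  exact (ad_spec hv (by simpa using hc)).2.1 rfl

theorem ad_mono {m v u : ℕ} (hu : u < 16) (h : m.testBit u = true) : (ad m v).testBit u = true := by
  by_contra hc
  have := (ad_spec (v := v) hu (by simpa using hc)).1
  rw [h] at this
  exact absurd this (by simp)

theorem fold_spec (f : ℕ → ℕ) (hf : ∀ i, f i < 16) (m0 : ℕ) : ∀ (n u : ℕ), u < 16 →
    (Nat.rec (motive := fun _ => ℕ) m0 (fun i m => ad m (f i)) n : ℕ).testBit u = false →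
    m0.testBit u = false ∧ (∀ i < n, f i ≠ u ∧ m0.testBit (f i) = false) ∧
      ∀ i j, i < j → j < n → f i ≠ f j
  | 0, u, _, h => ⟨h, by simp, by simp⟩
  | n + 1, u, hu, h => by
    obtain ⟨h1, h2, h3⟩ := ad_spec hu h
    obtain ⟨a1, a2, a3⟩ := fold_spec f hf m0 n u hu h1
    obtain ⟨b1, b2, b3⟩ := fold_spec f hf m0 n (f n) (hf n) h3
    refine ⟨a1, ?_, ?_⟩
    · intro i hi
      rcases Nat.lt_succ_iff_lt_or_eq.mp hi with hi | rfl
      · exact a2 i hi
      · exact ⟨h2, b1⟩
    · intro i j hij hj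
      rcases Nat.lt_succ_iff_lt_or_eq.mp hj with hj | rfl
      · exact a3 i j hij hj
      · exact (b2 i hij).1

theorem fold_mem (f : ℕ → ℕ) (hf : ∀ i, f i < 16) (m0 : ℕ) : ∀ (n i : ℕ), i < n →
    (Nat.rec (motive := fun _ => ℕ) m0 (fun i m => ad m (f i)) n : ℕ).testBit (f i) = true
  | 0, i, h => absurd h (by simp)
  | n + 1, i, h => by
    rcases Nat.lt_succ_iff_lt_or_eq.mp h with h | rfl
    · exact ad_mono (hf i) (fold_mem f hf m0 n i h)
    · exact ad_self (hf i)

theorem perm_spec {p : ℕ} (h : perm p = true) : P10 (dig p) := by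
  have he : (Nat.rec (motive := fun _ => ℕ) 0 (fun i m => ad m (dig p i)) 10 : ℕ) = 1023 :=
    Nat.eq_of_beq_eq_true h
  have h1023 : ∀ i, (1023 : ℕ).testBit i = decide (i < 10) := by
    intro i
    have : (1023 : ℕ) = 2 ^ 10 - 1 := rfl
    rw [this, Nat.testBit_two_pow_sub_one]
  constructor
  · intro i hi
    have := fold_mem (dig p) (dig_lt p) 0 10 i hi
    rw [he, h1023] at this
    simpa using this
  · have := (fold_spec (dig p) (dig_lt p) 0 10 15 (by norm_num) (by rw [he, h1023]; rfl)).2.2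
    intro i hi j hj hij
    rcases Nat.lt_trichotomy i j with hlt | heq | hgt
    · exact absurd hij (this i j hlt hj)
    · exact heq
    · exact absurd hij.symm (this j i hgt hi)

theorem walk_spec (S K p v : ℕ) (hv : v < 16) (h : (walk S K p).testBit v = false) :
    (∀ i < K, look S (dig p i) (dig p (i + 1)) ≠ v ∧ look S (dig p i) (dig p (i + 1)) ≠ 0) ∧
    ∀ i j, i < j → j < K → look S (dig p i) (dig p (i + 1)) ≠ look S (dig p j) (dig p (j + 1)) := by
  obtain ⟨-, h2, h3⟩ := fold_spec (fun i => look S (dig p i) (dig p (i + 1))) (fun i => look_lt _ _ _) 1 K v hv h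
  refine ⟨fun i hi => ⟨(h2 i hi).1, ?_⟩, h3⟩
  intro h0
  have := (h2 i hi).2
  simp only [h0] at this
  exact absurd this (by decide)

/-! ### Soundness -/

variable {C : ℕ → ℕ → ℕ} {K : ℕ}

theorem wit_one {S a b v : ℕ} (hK : K < 10) (hP : NoPath K C) (ha : a < 10) (hb : b < 10) (hab : a ≠ b)
    (h1 : look S a b = 0) (h2 : look S b a = 0) (hv0 : 0 < v) (hv : v < 15)
    (hc : Cons C (upd S a b v)) (p : ℕ) (hl : P10 (dig p)) :
    (walk (upd S a b 15) K p).testBit v = true := by
  by_contra hcon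
  have hcon' : (walk (upd S a b 15) K p).testBit v = false := by simpa using hcon
  obtain ⟨i1, i2⟩ := walk_spec _ K p v (by omega) hcon'
  obtain ⟨i, j, hij, hj, heq⟩ := hP _ hl
  have p1 := hl.1 i (by omega)
  have p2 := hl.1 (i + 1) (by omega)
  have p3 := hl.1 j (by omega)
  have p4 := hl.1 (j + 1) (by omega)
  have z1 := (i1 i (by omega)).2
  have n1 := (i1 i (by omega)).1
  have z2 := (i1 j (by omega)).2
  have n2 := (i1 j (by omega)).1
  have hne := i2 i j hij hj
  have key := hc _ _ _ _ p1 p2 p3 p4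
  rw [look_upd ha hb p1 p2 hab (by omega) h1 h2, look_upd ha hb p3 p4 hab (by omega) h1 h2] at key
  rw [look_upd ha hb p1 p2 hab (by omega) h1 h2] at z1 n1 hne
  rw [look_upd ha hb p3 p4 hab (by omega) h1 h2] at z2 n2 hne
  by_cases c1 : (dig p i = a ∧ dig p (i + 1) = b) ∨ (dig p i = b ∧ dig p (i + 1) = a)
  · by_cases c2 : (dig p j = a ∧ dig p (j + 1) = b) ∨ (dig p j = b ∧ dig p (j + 1) = a)
    · rw [if_pos c1, if_pos c2] at hne; exact hne rfl
    · rw [if_pos c1, if_neg c2] at key
      rw [if_neg c2] at n2 z2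
      exact n2 ((key (by omega) z2).mpr heq).symm
  · by_cases c2 : (dig p j = a ∧ dig p (j + 1) = b) ∨ (dig p j = b ∧ dig p (j + 1) = a)
    · rw [if_neg c1, if_pos c2] at key
      rw [if_neg c1] at n1 z1
      exact n1 ((key z1 (by omega)).mpr heq)
    · rw [if_neg c1, if_neg c2] at key hne
      rw [if_neg c1] at z1
      rw [if_neg c2] at z2
      exact hne ((key z1 z2).mpr heq)

theorem wit_spec {S a b v : ℕ} (hK : K < 10) (hP : NoPath K C) (ha : a < 10) (hb : b < 10) (hab : a ≠ b)
    (h1 : look S a b = 0) (h2 : look S b a = 0) (hv0 : 0 < v) (hv : v < 15)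
    (hc : Cons C (upd S a b v)) (w : W) : ∀ (A : ℕ), A.testBit v = true →
    (wit K (upd S a b 15) w A).testBit v = true := by
  induction w with
  | nil => intro A hA; exact hA
  | cons p w ih =>
    intro A hA
    change (wit K (upd S a b 15) w (cond (perm p) (Nat.land A (walk (upd S a b 15) K p)) A)).testBit v = true
    apply ih
    cases hk : perm p with
    | false => simpa using hA
    | true =>
      simp only [cond_true]
      change (A &&& _).testBit v = true
      rw [Nat.testBit_and, hA, wit_one hK hP ha hb hab h1 h2 hv0 hv hc _ (perm_spec hk)]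
      rfl

theorem cval_eq (S K p i : ℕ) :
    cval S K p i = look S (dig p i) (if i = K then dig p 0 else dig p (i + 1)) := by
  unfold cval
  by_cases h : i = K
  · subst h; rw [Nat.beq_refl]; simp
  · rw [beq_false h]; simp [h]

theorem skip_spec (f : ℕ → ℕ) (hf : ∀ i, f i < 16) (s t : ℕ) : ∀ n : ℕ,
    (Nat.rec (motive := fun _ => ℕ) 1 (fun i m => cond (Nat.beq i s) m (cond (Nat.beq i t) m (ad m (f i)))) n : ℕ)
      ≠ 65535 →
    (Nat.rec (motive := fun _ => ℕ) 1
      (fun i m => cond (Nat.beq i s) m (cond (Nat.beq i t) m (ad m (f i)))) n : ℕ).testBit 0 = true ∧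
    (∀ i < n, i ≠ s → i ≠ t → f i ≠ 0 ∧ (Nat.rec (motive := fun _ => ℕ) 1
      (fun i m => cond (Nat.beq i s) m (cond (Nat.beq i t) m (ad m (f i)))) n : ℕ).testBit (f i) = true) ∧
    ∀ i j, i < j → j < n → i ≠ s → i ≠ t → j ≠ s → j ≠ t → f i ≠ f j
  | 0, _ => by simp
  | n + 1, h => by
    have ih := skip_spec f hf s t n
    set m : ℕ := (Nat.rec (motive := fun _ => ℕ) 1
      (fun i m => cond (Nat.beq i s) m (cond (Nat.beq i t) m (ad m (f i)))) n : ℕ) with hm
    change cond (Nat.beq n s) m (cond (Nat.beq n t) m (ad m (f n))) ≠ 65535 at h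
    change (cond (Nat.beq n s) m (cond (Nat.beq n t) m (ad m (f n)))).testBit 0 = true ∧
      (∀ i < n + 1, i ≠ s → i ≠ t → f i ≠ 0 ∧
        (cond (Nat.beq n s) m (cond (Nat.beq n t) m (ad m (f n)))).testBit (f i) = true) ∧ _
    by_cases c1 : n = s
    · have e1 : Nat.beq n s = true := by rw [c1]; exact Nat.beq_refl s
      rw [e1] at h ⊢
      simp only [cond_true] at h ⊢
      obtain ⟨a1, a2, a3⟩ := ih h
      refine ⟨a1, fun i hi hs ht => a2 i (by omega) hs ht, fun i j hij hj h1 h2 h3 h4 => a3 i j hij (by omega) h1 h2 h3 h4⟩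
    · have e1 : Nat.beq n s = false := beq_false c1
      rw [e1] at h ⊢
      simp only [cond_false] at h ⊢
      by_cases c2 : n = t
      · have e2 : Nat.beq n t = true := by rw [c2]; exact Nat.beq_refl t
        rw [e2] at h ⊢
        simp only [cond_true] at h ⊢
        obtain ⟨a1, a2, a3⟩ := ih h
        refine ⟨a1, fun i hi hs ht => a2 i (by omega) hs ht, fun i j hij hj h1 h2 h3 h4 => a3 i j hij (by omega) h1 h2 h3 h4⟩
      · have e2 : Nat.beq n t = false := beq_false c2
        rw [e2] at h ⊢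
        simp only [cond_false] at h ⊢
        have hb : m.testBit (f n) = false := by
          by_contra hcon
          apply h
          unfold ad
          rw [tb_eq, (by simpa using hcon : m.testBit (f n) = true)]
          rfl
        have hm' : m ≠ 65535 := by
          intro e
          rw [e, testBit_full (hf n)] at hb
          exact absurd hb (by simp)
        obtain ⟨a1, a2, a3⟩ := ih hm'
        refine ⟨ad_mono (by norm_num) a1, ?_, ?_⟩
        · intro i hi hs ht
          rcases Nat.lt_succ_iff_lt_or_eq.mp hi with hi | rfl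
          · exact ⟨(a2 i hi hs ht).1, ad_mono (hf i) (a2 i hi hs ht).2⟩
          · refine ⟨?_, ad_self (hf i)⟩
            intro e
            rw [e, a1] at hb
            exact absurd hb (by simp)
        · intro i j hij hj h1 h2 h3 h4
          rcases Nat.lt_succ_iff_lt_or_eq.mp hj with hj | rfl
          · exact a3 i j hij hj h1 h2 h3 h4
          · intro e
            have := (a2 i hij h1 h2).2
            rw [e, hb] at this
            exact absurd this (by simp)

theorem cyc_spec {S p q : ℕ} (hK : K < 10) (hq : PV K q) (hc : Cons C S)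
    (h : cyc K S p q = true) : P10 (dig p) ∧ Pat K q (ce C K (dig p)) := by
  unfold cyc at h
  cases h0 : Nat.beq q 0 with
  | true => rw [h0] at h; simp at h
  | false =>
  rw [h0] at h
  simp only [cond_false] at h
  cases h1 : perm p with
  | false => rw [h1] at h; simp at h
  | true =>
  rw [h1] at h
  simp only [cond_true] at h
  cases h2 : Nat.beq (cval S K p (dig q 0)) (cval S K p (dig q 1)) with
  | false => rw [h2] at h; simp at h
  | true =>
  rw [h2] at h
  simp only [cond_true] at h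
  cases h3 : Nat.beq (cval S K p (dig q 2)) (cval S K p (dig q 3)) with
  | false => rw [h3] at h; simp at h
  | true =>
  rw [h3] at h
  simp only [cond_true] at h
  cases h4 : Nat.beq (Nat.rec (motive := fun _ => ℕ) 1 (fun i m => cond (Nat.beq i (dig q 1)) m
      (cond (Nat.beq i (dig q 3)) m (ad m (cval S K p i)))) (Nat.succ K)) 65535 with
  | true => rw [h4] at h; simp at h
  | false =>
  have hP := perm_spec h1
  refine ⟨hP, ?_⟩
  have e2 := Nat.eq_of_beq_eq_true h2
  have e3 := Nat.eq_of_beq_eq_true h3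
  have e4 := Nat.ne_of_beq_eq_false h4
  obtain ⟨-, s2, s3⟩ := skip_spec (cval S K p) (fun i => by rw [cval_eq]; exact look_lt _ _ _) (dig q 1) (dig q 3) (Nat.succ K) e4
  obtain ⟨q1, q2, q3, q4, q5, q6⟩ := hq
  have hx : ∀ i ≤ K, dig p i < 10 ∧ (if i = K then dig p 0 else dig p (i + 1)) < 10 := by
    intro i hi
    refine ⟨hP.1 i (by omega), ?_⟩
    split_ifs
    · exact hP.1 0 (by norm_num)
    · exact hP.1 _ (by omega)
  have key : ∀ i ≤ K, ∀ j ≤ K, cval S K p i ≠ 0 → cval S K p j ≠ 0 →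
      (cval S K p i = cval S K p j ↔ ce C K (dig p) i = ce C K (dig p) j) := by
    intro i hi j hj z1 z2
    rw [cval_eq] at z1 z2 ⊢
    rw [cval_eq]
    exact hc _ _ _ _ (hx i hi).1 (hx i hi).2 (hx j hj).1 (hx j hj).2 z1 z2
  have n0 := (s2 (dig q 0) (by omega) (by omega) q5).1
  have n2 := (s2 (dig q 2) (by omega) q6 (by omega)).1
  refine ⟨(key _ (by omega) _ (by omega) n0 (by rw [← e2]; exact n0)).mp e2,
    (key _ (by omega) _ (by omega) n2 (by rw [← e3]; exact n2)).mp e3, ?_⟩
  intro i j hij hj h1 h2 h3 h4 heq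
  exact s3 i j hij (by omega) h1 h2 h3 h4
    ((key i (by omega) j hj (s2 i (by omega) h1 h2).1 (s2 j (by omega) h3 h4).1).mpr heq)

/-- The true value at an uncoloured pair. -/
theorem exists_val {S AV nv a b : ℕ} (hC : Good C) (hI : Inv S AV nv) (hc : Cons C S)
    (ha : a < 10) (hb : b < 10) (hab : a ≠ b) (hnv0 : 0 < nv) (hnv : nv < 15)
    (h1 : look S a b = 0) (h2 : look S b a = 0) :
    ∃ v, 0 < v ∧ v ≤ nv ∧ Cons C (upd S a b v) := by
  classical
  by_cases hex : ∃ x y, x < 10 ∧ y < 10 ∧ look S x y ≠ 0 ∧ C x y = C a b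
  · obtain ⟨x, y, hx, hy, hxy, hxc⟩ := hex
    refine ⟨look S x y, by omega, (hI.lt x y hx hy).le, ?_⟩
    have hlt : look S x y < 16 := look_lt _ _ _
    intro p q r s hp hq hr hs z1 z2
    rw [look_upd ha hb hp hq hab hlt h1 h2] at z1 ⊢
    rw [look_upd ha hb hr hs hab hlt h1 h2] at z2 ⊢
    have hsym : ∀ p q, (p = a ∧ q = b) ∨ (p = b ∧ q = a) → C p q = C a b := by
      intro p q h
      rcases h with ⟨rfl, rfl⟩ | ⟨rfl, rfl⟩
      · rfl
      · exact hC.1 _ _ hb ha
    by_cases c1 : (p = a ∧ q = b) ∨ (p = b ∧ q = a)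
    · by_cases c2 : (r = a ∧ s = b) ∨ (r = b ∧ s = a)
      · rw [if_pos c1, if_pos c2, hsym _ _ c1, hsym _ _ c2]
        exact ⟨fun _ => rfl, fun _ => rfl⟩
      · rw [if_pos c1, if_neg c2, hsym _ _ c1, ← hxc]
        rw [if_neg c2] at z2
        exact hc x y r s hx hy hr hs hxy z2
    · by_cases c2 : (r = a ∧ s = b) ∨ (r = b ∧ s = a)
      · rw [if_neg c1, if_pos c2, hsym _ _ c2, ← hxc]
        rw [if_neg c1] at z1
        exact hc p q x y hp hq hx hy z1 hxy
      · rw [if_neg c1, if_neg c2]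
        rw [if_neg c1] at z1
        rw [if_neg c2] at z2
        exact hc p q r s hp hq hr hs z1 z2
  · push Not at hex
    refine ⟨nv, hnv0, le_rfl, ?_⟩
    intro p q r s hp hq hr hs z1 z2
    rw [look_upd ha hb hp hq hab (by omega) h1 h2] at z1 ⊢
    rw [look_upd ha hb hr hs hab (by omega) h1 h2] at z2 ⊢
    have hsym : ∀ p q, (p = a ∧ q = b) ∨ (p = b ∧ q = a) → C p q = C a b := by
      intro p q h
      rcases h with ⟨rfl, rfl⟩ | ⟨rfl, rfl⟩
      · rfl
      · exact hC.1 _ _ hb ha
    by_cases c1 : (p = a ∧ q = b) ∨ (p = b ∧ q = a)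
    · by_cases c2 : (r = a ∧ s = b) ∨ (r = b ∧ s = a)
      · rw [if_pos c1, if_pos c2, hsym _ _ c1, hsym _ _ c2]
        exact ⟨fun _ => rfl, fun _ => rfl⟩
      · rw [if_pos c1, if_neg c2, hsym _ _ c1]
        rw [if_neg c2] at z2
        have l1 := hI.lt r s hr hs
        have l2 := hex r s hr hs z2
        constructor
        · intro h; omega
        · intro h; exact absurd h.symm l2
    · by_cases c2 : (r = a ∧ s = b) ∨ (r = b ∧ s = a)
      · rw [if_neg c1, if_pos c2, hsym _ _ c2]
        rw [if_neg c1] at z1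
        have l1 := hI.lt p q hp hq
        have l2 := hex p q hp hq z1
        constructor
        · intro h; omega
        · intro h; exact absurd h l2
      · rw [if_neg c1, if_neg c2]
        rw [if_neg c1] at z1
        rw [if_neg c2] at z2
        exact hc p q r s hp hq hr hs z1 z2

/-- Properness: the value at `(a, b)` differs from the other values at `a`. -/
theorem adj_ne {S a b v : ℕ} (hC : Good C) (hd : ∀ a, a < 10 → look S a a = 0)
    (ha : a < 10) (hb : b < 10) (hab : a ≠ b) (hv0 : 0 < v) (hv : v < 16)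
    (h1 : look S a b = 0) (h2 : look S b a = 0) (hc : Cons C (upd S a b v)) :
    ∀ x, x < 10 → look S a x ≠ v := by
  intro x hx h
  have hxb : x ≠ b := by rintro rfl; omega
  have hxa : x ≠ a := by rintro rfl; have := hd _ ha; omega
  have key := hc a b a x ha hb ha hx
  rw [look_upd ha hb ha hb hab hv h1 h2, look_upd ha hb ha hx hab hv h1 h2] at key
  rw [if_pos (Or.inl ⟨rfl, rfl⟩), if_neg (by omega)] at key
  exact hC.2 a b x ha hb hx hab (Ne.symm hxa) (Ne.symm hxb) ((key (by omega) (by omega)).mp h.symm)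

theorem allowed_spec {S AV nv a b v : ℕ} (hK : K < 10) (hC : Good C) (hP : NoPath K C) (hI : Inv S AV nv)
    (ha : a < 10) (hb : b < 10) (hab : a ≠ b) (hnv : nv < 15)
    (h1 : look S a b = 0) (h2 : look S b a = 0) (hv0 : 0 < v) (hv : v ≤ nv)
    (hc : Cons C (upd S a b v)) (w : W) : (allowed K S AV nv a b w).testBit v = true := by
  unfold allowed
  refine wit_spec hK hP ha hb hab h1 h2 hv0 (by omega) hc w _ ?_
  change ((((2 <<< nv) - 2) &&& (AV >>> (16 * a))) &&& (AV >>> (16 * b))).testBit v = true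
  rw [Nat.testBit_and, Nat.testBit_and, Nat.testBit_shiftRight, Nat.testBit_shiftRight]
  have hb1 : ((2 <<< nv) - 2).testBit v = true := by
    have e : (2 <<< nv) - 2 = (2 ^ nv - 1) <<< 1 := by
      rw [Nat.shiftLeft_eq, Nat.shiftLeft_eq, Nat.sub_mul]; ring_nf
    rw [e, Nat.testBit_shiftLeft, Nat.testBit_two_pow_sub_one]
    simp; omega
  have hupd : upd S b a v = upd S a b v := by
    unfold upd
    change (S ||| _) ||| _ = (S ||| _) ||| _
    rw [Nat.or_assoc, Nat.or_assoc, Nat.or_comm (Nat.shiftLeft v (Nat.add (Nat.mul 40 b) (Nat.mul 4 a)))]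
  have hb2 : AV.testBit (16 * a + v) = true := by
    by_contra hcon
    obtain ⟨x, hx, hxv⟩ := hI.av a ha v hv0 (by omega) (by simpa using hcon)
    exact adj_ne hC hI.diag ha hb hab hv0 (by omega) h1 h2 hc x hx hxv
  have hb3 : AV.testBit (16 * b + v) = true := by
    by_contra hcon
    obtain ⟨x, hx, hxv⟩ := hI.av b hb v hv0 (by omega) (by simpa using hcon)
    exact adj_ne hC hI.diag hb ha (Ne.symm hab) hv0 (by omega) h2 h1 (by rw [hupd]; exact hc) x hx hxv
  rw [hb1, hb2, hb3]; rfl

theorem edgeOK_spec {S nv a b : ℕ} (h : edgeOK S nv a b = true) :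
    nv < 15 ∧ a < 10 ∧ b < 10 ∧ a ≠ b ∧ look S a b = 0 ∧ look S b a = 0 := by
  unfold edgeOK at h
  cases h1 : Nat.ble nv 14 <;> cases h2 : Nat.ble a 9 <;> cases h3 : Nat.ble b 9 <;> cases h4 : Nat.beq a b <;>
    cases h5 : Nat.beq (look S a b) 0 <;> cases h6 : Nat.beq (look S b a) 0 <;>
    simp_all
  have e4 := Nat.ne_of_beq_eq_false h4
  exact ⟨by omega, by omega, by omega, e4⟩

theorem inv_upd {S AV nv a b v : ℕ} (hI : Inv S AV nv) (ha : a < 10) (hb : b < 10) (hab : a ≠ b)
    (hnv : nv < 15) (h1 : look S a b = 0) (h2 : look S b a = 0) (hv0 : 0 < v) (hv : v ≤ nv) :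
    Inv (upd S a b v) (updA AV a b v) (nxt v nv) := by
  unfold nxt
  have hlk : ∀ x y, x < 10 → y < 10 → look (upd S a b v) x y =
      if (x = a ∧ y = b) ∨ (x = b ∧ y = a) then v else look S x y := fun x y hx hy =>
    look_upd ha hb hx hy hab (by omega) h1 h2
  have hle : nv ≤ cond (Nat.beq v nv) (Nat.succ nv) nv ∧ v < cond (Nat.beq v nv) (Nat.succ nv) nv := by
    cases hh : Nat.beq v nv with
    | true => have := Nat.eq_of_beq_eq_true hh; simp; omega
    | false => have := Nat.ne_of_beq_eq_false hh; simp; omega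
  refine ⟨?_, ?_, ?_, ?_⟩
  · intro x y hx hy
    rw [hlk x y hx hy, hlk y x hy hx, hI.symm x y hx hy]
    by_cases c : (x = a ∧ y = b) ∨ (x = b ∧ y = a)
    · rw [if_pos c, if_pos (by tauto)]
    · rw [if_neg c, if_neg (by tauto)]
  · intro x hx
    rw [hlk x x hx hx, if_neg (by omega)]
    exact hI.diag x hx
  · intro x y hx hy
    rw [hlk x y hx hy]
    split_ifs
    · exact hle.2
    · exact lt_of_lt_of_le (hI.lt x y hx hy) hle.1
  · intro x hx u hu0 hu hbit
    have hbit' : (AV.testBit (16 * x + u) ^^ decide (16 * a + v = 16 * x + u) ^^ decide (16 * b + v = 16 * x + u)) = false := by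
      rw [← testBit_one_shl, ← testBit_one_shl, ← Nat.testBit_xor, ← Nat.testBit_xor]
      exact hbit
    by_cases c : (x = a ∧ u = v) ∨ (x = b ∧ u = v)
    · rcases c with ⟨rfl, rfl⟩ | ⟨rfl, rfl⟩
      · exact ⟨b, hb, by rw [hlk _ _ hx hb]; simp⟩
      · exact ⟨a, ha, by rw [hlk _ _ hx ha]; simp⟩
    · have n1 : ¬ (16 * a + v = 16 * x + u) := by omega
      have n2 : ¬ (16 * b + v = 16 * x + u) := by omega
      simp [n1, n2] at hbit'
      obtain ⟨y, hy, hyu⟩ := hI.av x hx u hu0 hu hbit'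
      refine ⟨y, hy, ?_⟩
      rw [hlk x y hx hy, if_neg, hyu]
      intro c2
      rcases c2 with ⟨rfl, rfl⟩ | ⟨rfl, rfl⟩
      · omega
      · omega

/-- A state that no colouring fits. -/
def Dead (C : ℕ → ℕ → ℕ) (x : ℕ × ℕ × ℕ) : Prop := Inv x.1 x.2.1 x.2.2 → 0 < x.2.2 → ¬ Cons C x.1

theorem eqst_spec {S AV nv : ℕ} {x : ℕ × ℕ × ℕ} (h : eqst S AV nv x = true) : x = (S, AV, nv) := by
  unfold eqst at h
  cases h1 : Nat.beq S x.1 with
  | false => rw [h1] at h; simp at h
  | true =>
  cases h2 : Nat.beq AV x.2.1 with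
  | false => rw [h1, h2] at h; simp at h
  | true =>
  rw [h1, h2] at h
  simp only [cond_true] at h
  rw [Nat.eq_of_beq_eq_true h1, Nat.eq_of_beq_eq_true h2, Nat.eq_of_beq_eq_true h]

theorem nxt_pos {v nv : ℕ} (h : 0 < nv) : 0 < nxt v nv := by
  unfold nxt
  cases Nat.beq v nv <;> simp; omega

theorem forest_sound {refs : List ℕ} {kn : List (ℕ × ℕ × ℕ)} (hK : K < 10) (hC : Good C) (hP : NoPath K C)
    (hr : ∀ q ∈ refs, PV K q ∧ NoCyc K q C) (hkn : ∀ x ∈ kn, Dead C x) :
    ∀ (t : T) (S AV nv A a b : ℕ), Inv S AV nv → 0 < nv → a < 10 → b < 10 → a ≠ b →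
    nv < 15 → look S a b = 0 → look S b a = 0 → forest K refs kn t S AV nv A a b = true →
    ∀ v, A.testBit v = true → 0 < v → v ≤ nv → Cons C (upd S a b v) → False := by
  have hxor : ∀ A v : ℕ, A.testBit v = true → v ≠ Nat.log2 A →
      (Nat.xor A (Nat.shiftLeft 1 (Nat.log2 A))).testBit v = true := by
    intro A v hv hvv
    change (A ^^^ (1 <<< (Nat.log2 A))).testBit v = true
    rw [Nat.testBit_xor, hv, testBit_one_shl]
    simp [Ne.symm hvv]
  intro t
  induction t with
  | done =>
    intro S AV nv A a b _ _ _ _ _ _ _ _ h v hv _ _ _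
    rw [Nat.eq_of_beq_eq_true h] at hv
    simp at hv
  | leaf c k nx ih =>
    intro S AV nv A a b hI hpos ha hb hab hnv h1 h2 h v hv hv0 hvn hc
    change cond (cyc K (upd S a b (Nat.log2 A)) c (refs.getD k 0))
        (forest K refs kn nx S AV nv (Nat.xor A (Nat.shiftLeft 1 (Nat.log2 A))) a b) false = true at h
    cases hcy : cyc K (upd S a b (Nat.log2 A)) c (refs.getD k 0) with
    | false => rw [hcy] at h; simp at h
    | true =>
      rw [hcy] at h
      simp only [cond_true] at h
      by_cases hvv : v = Nat.log2 A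
      · rw [← hvv] at hcy
        by_cases hk : k < refs.length
        · rw [List.getD_eq_getElem _ _ hk] at hcy
          have hq := hr _ (List.getElem_mem hk)
          obtain ⟨hl, hs⟩ := cyc_spec hK hq.1 hc hcy
          exact hq.2 _ hl hs
        · rw [List.getD_eq_default _ _ (by omega)] at hcy
          simp [cyc] at hcy
      · exact ih S AV nv _ a b hI hpos ha hb hab hnv h1 h2 h v (hxor A v hv hvv) hv0 hvn hc
  | cut j nx ih =>
    intro S AV nv A a b hI hpos ha hb hab hnv h1 h2 h v hv hv0 hvn hc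
    change cond (eqst (upd S a b (Nat.log2 A)) (updA AV a b (Nat.log2 A)) (nxt (Nat.log2 A) nv) (kn.getD j (0, 0, 0)))
        (forest K refs kn nx S AV nv (Nat.xor A (Nat.shiftLeft 1 (Nat.log2 A))) a b) false = true at h
    cases hcy : eqst (upd S a b (Nat.log2 A)) (updA AV a b (Nat.log2 A)) (nxt (Nat.log2 A) nv) (kn.getD j (0, 0, 0)) with
    | false => rw [hcy] at h; simp at h
    | true =>
      rw [hcy] at h
      simp only [cond_true] at h
      by_cases hvv : v = Nat.log2 A
      · rw [← hvv] at hcy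
        have hI' := inv_upd hI ha hb hab hnv h1 h2 hv0 hvn
        have hx := eqst_spec hcy
        have hp := nxt_pos (v := v) hpos
        by_cases hk : j < kn.length
        · rw [List.getD_eq_getElem _ _ hk] at hx
          have hd := hkn _ (List.getElem_mem hk)
          rw [hx] at hd
          exact hd hI' hp hc
        · rw [List.getD_eq_default _ _ (by omega)] at hx
          have : nxt v nv = 0 := by
            have := congrArg (fun x : ℕ × ℕ × ℕ => x.2.2) hx
            exact this.symm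
          omega
      · exact ih S AV nv _ a b hI hpos ha hb hab hnv h1 h2 h v (hxor A v hv hvv) hv0 hvn hc
  | node a' b' w ch nx ih1 ih2 =>
    intro S AV nv A a b hI hpos ha hb hab hnv h1 h2 h v hv hv0 hvn hc
    change cond (edgeOK (upd S a b (Nat.log2 A)) (nxt (Nat.log2 A) nv) a' b')
        (cond (forest K refs kn ch (upd S a b (Nat.log2 A)) (updA AV a b (Nat.log2 A)) (nxt (Nat.log2 A) nv)
            (allowed K (upd S a b (Nat.log2 A)) (updA AV a b (Nat.log2 A)) (nxt (Nat.log2 A) nv) a' b' w) a' b')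
          (forest K refs kn nx S AV nv (Nat.xor A (Nat.shiftLeft 1 (Nat.log2 A))) a b) false) false = true at h
    cases he : edgeOK (upd S a b (Nat.log2 A)) (nxt (Nat.log2 A) nv) a' b' with
    | false => rw [he] at h; simp at h
    | true =>
      rw [he] at h
      simp only [cond_true] at h
      cases hf : forest K refs kn ch (upd S a b (Nat.log2 A)) (updA AV a b (Nat.log2 A))
            (nxt (Nat.log2 A) nv)
            (allowed K (upd S a b (Nat.log2 A)) (updA AV a b (Nat.log2 A))
              (nxt (Nat.log2 A) nv) a' b' w) a' b' with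
      | false => rw [hf] at h; simp at h
      | true =>
        rw [hf] at h
        simp only [cond_true] at h
        by_cases hvv : v = Nat.log2 A
        · rw [← hvv] at he hf
          obtain ⟨e0, e1, e2, e3, e4, e5⟩ := edgeOK_spec he
          have hI' := inv_upd hI ha hb hab hnv h1 h2 hv0 hvn
          have hpos' : 0 < nxt v nv := nxt_pos hpos
          obtain ⟨u, hu0, hun, huc⟩ := exists_val hC hI' hc e1 e2 e3 hpos' e0 e4 e5
          exact ih1 _ _ _ _ _ _ hI' hpos' e1 e2 e3 e0 e4 e5 hf u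
            (allowed_spec hK hC hP hI' e1 e2 e3 e0 e4 e5 hu0 hun huc w) hu0 hun huc
        · exact ih2 S AV nv _ a b hI hpos ha hb hab hnv h1 h2 h v (hxor A v hv hvv) hv0 hvn hc

theorem root_sound {refs : List ℕ} {kn : List (ℕ × ℕ × ℕ)} (hK : K < 10) (hC : Good C) (hP : NoPath K C)
    (hr : ∀ q ∈ refs, PV K q ∧ NoCyc K q C) (hkn : ∀ x ∈ kn, Dead C x) {S AV nv a b : ℕ} {w : W} {ch : T}
    (h : root K refs kn S AV nv a b w ch = true) : Dead C (S, AV, nv) := by
  intro hI hnv hc
  unfold root at h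
  cases he : edgeOK S nv a b with
  | false => rw [he] at h; simp at h
  | true =>
    rw [he] at h
    simp only [cond_true] at h
    obtain ⟨e0, e1, e2, e3, e4, e5⟩ := edgeOK_spec he
    obtain ⟨u, hu0, hun, huc⟩ := exists_val hC hI hc e1 e2 e3 hnv e0 e4 e5
    exact forest_sound hK hC hP hr hkn ch S AV nv _ a b hI hnv e1 e2 e3 e0 e4 e5 h u
      (allowed_spec hK hC hP hI e1 e2 e3 e0 e4 e5 hu0 hun huc w) hu0 hun huc

end Pool.Agent.Hhelper35.Rainbow
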